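import Pool.Agent.Strip051.G.I1_16_1_8.Gn
import Pool.Agent.Strip051.PB.Corns
import Pool.Agent.Strip051.PB.CornK

/-! # Certificates of the aligned corners (generated) -/

set_option linter.all false

namespace Pool.Agent.Strip051.G.I1_16_1_8.Tab.CF

open Pool.Agent.Strip051.PB

def A011E_000 :
    ∃ t, chk3 (onCell 0 67108864 0 1073741824 67108864 67108864 (corTK [] true 1 c0F cA011E gF0q0 gF0q1 gF0q1 gF1q1 true false)) t 1 1 1 = true :=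
  ⟨(T.l 1), by decide +kernel⟩

def A011L_001 :
    ∃ t, chk3 (onCell 0 67108864 0 1073741824 67108864 67108864 (corTK [] true 1 c0F cA011L gF0q0 gF0q1 gF1q1 gF2q1 false true)) t 1 1 1 = true :=
  ⟨(T.l 2), by decide +kernel⟩

def A011L_002 :
    ∃ t, chk3 (onCell 0 67108864 0 1073741824 67108864 67108864 (corTK [] true 1 c0F cA011L gF0q0 gF0q1 gF2q1 gF3q1 true true)) t 1 1 1 = true :=
  ⟨(T.l 2), by decide +kernel⟩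

def A011L_003 :
    ∃ t, chk3 (onCell 0 67108864 0 1073741824 67108864 67108864 (corTK [] true 1 c0F cA011L gF0q0 gF0q1 gF3q1 gF4q1 true true)) t 1 1 1 = true :=
  ⟨(T.l 2), by decide +kernel⟩

def A011R_020 :
    ∃ t, chk3 (onCell 0 67108864 0 1073741824 67108864 67108864 (corTK [[⟨0, 0, 1, 33554432⟩, ⟨1, 1, 2, 33554432⟩, ⟨2, 1, 0, 16777216⟩, ⟨0, 0, 0, 150994944⟩, ⟨0, 1, 0, 1023410176⟩, ⟨1, 0, 0, 1023410176⟩, ⟨1, 1, 0, 150994944⟩]] true 1 c0F cA011R gF0q0 gF2q1 gF0q1 gF1q1 true false)) t 1 1 1 = true :=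
  ⟨(T.b (T.b (T.b (T.b (T.b (T.b (T.b (T.b (T.a (T.c (T.b (T.a (T.a (T.l 204) (T.a (T.l 204) (T.a (T.l 204) (T.l 204)))) (T.c (T.b (T.a (T.c (T.b (T.a (T.a (T.l 204) (T.l 204)) (T.a (T.l 204) (T.l 204))) (T.l 1)) (T.b (T.a (T.a (T.l 204) (T.l 204)) (T.a (T.l 204) (T.l 204))) (T.l 1))) (T.c (T.b (T.a (T.a (T.l 476) (T.c (T.l 476) (T.l 476))) (T.c (T.a (T.l 476) (T.a (T.l 476) (T.l 476))) (T.a (T.l 476) (T.l 476)))) (T.l 1)) (T.b (T.a (T.a (T.l 460) (T.l 476)) (T.c (T.a (T.l 476) (T.l 476)) (T.a (T.l 460) (T.l 476)))) (T.l 1)))) (T.l 1)) (T.b (T.a (T.c (T.b (T.a (T.a (T.l 204) (T.l 204)) (T.a (T.l 204) (T.l 204))) (T.l 1)) (T.b (T.a (T.a (T.l 204) (T.l 204)) (T.a (T.l 204) (T.l 204))) (T.l 1))) (T.c (T.b (T.a (T.a (T.l 204) (T.l 460)) (T.a (T.l 460) (T.l 476))) (T.l 1)) (T.b (T.a (T.a (T.l 204) (T.l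 204)) (T.a (T.l 460) (T.l 460))) (T.l 1)))) (T.l 1)))) (T.l 1)) (T.b (T.a (T.a (T.l 204) (T.a (T.l 204) (T.a (T.l 204) (T.l 204)))) (T.c (T.b (T.a (T.c (T.b (T.a (T.a (T.l 204) (T.l 204)) (T.a (T.l 204) (T.l 204))) (T.l 1)) (T.b (T.a (T.a (T.l 204) (T.l 204)) (T.a (T.l 204) (T.l 204))) (T.l 1))) (T.c (T.b (T.a (T.a (T.l 204) (T.l 204)) (T.a (T.l 204) (T.l 204))) (T.l 1)) (T.b (T.a (T.a (T.l 204) (T.l 204)) (T.a (T.l 204) (T.l 204))) (T.l 1)))) (T.l 1)) (T.b (T.a (T.c (T.b (T.a (T.a (T.l 204) (T.l 204)) (T.a (T.l 204) (T.l 204))) (T.l 1)) (T.b (T.a (T.a (T.l 204) (T.l 204)) (T.a (T.l 204) (T.l 204))) (T.l 1))) (T.c (T.b (T.a (T.a (T.l 204) (T.l 204)) (T.a (T.l 204) (T.l 204))) (T.l 1)) (T.b (T.a (T.a (T.l 204) (T.l 204)) (T.a (T.l 204) (T.l 204))) (T.l 1)))) (T.l 1)))) (T.l 1))) (T.c (T.b (T.a (T.c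 (T.b (T.a (T.c (T.b (T.a (T.c (T.b (T.a (T.a (T.l 476) (T.l 476)) (T.a (T.l 476) (T.l 476))) (T.l 1)) (T.b (T.a (T.a (T.l 476) (T.l 476)) (T.a (T.l 476) (T.l 476))) (T.l 1))) (T.c (T.b (T.a (T.a (T.l 476) (T.l 476)) (T.a (T.l 476) (T.l 476))) (T.l 1)) (T.b (T.a (T.a (T.l 476) (T.l 476)) (T.a (T.l 476) (T.l 476))) (T.l 1)))) (T.l 1)) (T.b (T.a (T.c (T.a (T.l 476) (T.l 476)) (T.a (T.l 476) (T.l 476))) (T.c (T.a (T.a (T.l 476) (T.l 476)) (T.l 476)) (T.a (T.l 476) (T.l 476)))) (T.l 1))) (T.c (T.b (T.a (T.c (T.b (T.a (T.a (T.l 476) (T.l 476)) (T.a (T.l 476) (T.c (T.l 476) (T.l 476)))) (T.l 1)) (T.b (T.a (T.a (T.l 476) (T.l 476)) (T.a (T.l 476) (T.l 476))) (T.l 1))) (T.c (T.b (T.a (T.c (T.a (T.l 476) (T.l 476)) (T.a (T.l 476) (T.l 476))) (T.c (T.a (T.l 476) (T.a (T.l 476) (T.l 476))) (T.a (T.l 476) (T.a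 (T.l 476) (T.l 476))))) (T.l 1)) (T.b (T.a (T.a (T.l 476) (T.l 476)) (T.a (T.l 476) (T.c (T.l 476) (T.l 476)))) (T.l 1)))) (T.l 1)) (T.b (T.a (T.c (T.a (T.l 476) (T.a (T.l 476) (T.l 476))) (T.a (T.l 476) (T.a (T.l 476) (T.l 476)))) (T.c (T.b (T.a (T.a (T.l 476) (T.l 476)) (T.a (T.l 476) (T.l 476))) (T.l 1)) (T.b (T.a (T.l 476) (T.a (T.l 476) (T.l 476))) (T.l 1)))) (T.l 1)))) (T.l 1)) (T.b (T.a (T.c (T.b (T.a (T.a (T.l 476) (T.l 476)) (T.a (T.l 476) (T.l 476))) (T.l 1)) (T.b (T.a (T.a (T.l 460) (T.l 476)) (T.a (T.l 476) (T.l 476))) (T.l 1))) (T.c (T.b (T.a (T.a (T.l 476) (T.c (T.l 476) (T.l 476))) (T.c (T.a (T.l 476) (T.a (T.l 476) (T.l 476))) (T.a (T.l 476) (T.a (T.l 476) (T.l 476))))) (T.l 1)) (T.b (T.a (T.a (T.l 476) (T.l 476)) (T.a (T.l 476) (T.a (T.l 476) (T.l 476)))) (T.l 1)))) (T.l 1))) (T.c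 (T.a (T.a (T.a (T.a (T.a (T.b (T.c (T.c (T.b (T.l 476) (T.l 1)) (T.l 476)) (T.l 476)) (T.l 1)) (T.l 1024)) (T.l 1024)) (T.l 1024)) (T.l 1024)) (T.l 1024)) (T.b (T.a (T.c (T.b (T.a (T.c (T.b (T.a (T.a (T.l 476) (T.l 476)) (T.a (T.l 476) (T.l 476))) (T.l 1)) (T.b (T.a (T.a (T.l 476) (T.l 476)) (T.a (T.l 476) (T.l 476))) (T.l 1))) (T.c (T.a (T.a (T.l 476) (T.l 1024)) (T.l 1024)) (T.b (T.a (T.a (T.l 476) (T.l 476)) (T.a (T.l 476) (T.l 476))) (T.l 1)))) (T.l 1)) (T.b (T.a (T.c (T.b (T.a (T.a (T.l 476) (T.l 476)) (T.l 476)) (T.l 1)) (T.a (T.a (T.l 476) (T.l 476)) (T.l 476))) (T.c (T.b (T.a (T.l 476) (T.l 476)) (T.l 1)) (T.a (T.l 476) (T.l 476)))) (T.l 1))) (T.c (T.a (T.a (T.c (T.l 1024) (T.a (T.l 476) (T.l 1024))) (T.l 1024)) (T.l 1024)) (T.b (T.a (T.c (T.b (T.a (T.l 476) (T.a (T.l 476) (T.l 476))) (T.l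 1)) (T.a (T.l 476) (T.l 476))) (T.c (T.a (T.a (T.l 476) (T.l 1024)) (T.l 1024)) (T.a (T.l 476) (T.l 476)))) (T.l 1)))) (T.l 1)))) (T.l 1)) (T.b (T.a (T.c (T.b (T.a (T.c (T.b (T.a (T.a (T.l 460) (T.l 460)) (T.a (T.l 460) (T.l 460))) (T.l 1)) (T.b (T.a (T.a (T.l 204) (T.l 204)) (T.a (T.l 204) (T.l 460))) (T.l 1))) (T.c (T.b (T.a (T.a (T.l 476) (T.l 476)) (T.a (T.l 476) (T.a (T.l 476) (T.l 476)))) (T.l 1)) (T.b (T.a (T.a (T.l 460) (T.l 460)) (T.a (T.l 460) (T.c (T.l 476) (T.l 476)))) (T.l 1)))) (T.l 1)) (T.b (T.a (T.c (T.a (T.a (T.l 204) (T.l 204)) (T.l 476)) (T.a (T.l 460) (T.l 460))) (T.c (T.b (T.a (T.a (T.l 204) (T.l 204)) (T.a (T.l 204) (T.l 476))) (T.l 1)) (T.b (T.a (T.a (T.l 204) (T.l 204)) (T.a (T.l 204) (T.l 476))) (T.l 1)))) (T.l 1))) (T.c (T.b (T.a (T.c (T.b (T.a (T.a (T.c (T.l 476) (T.l 476))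 (T.l 476)) (T.a (T.l 476) (T.l 476))) (T.l 1)) (T.b (T.a (T.a (T.l 476) (T.l 476)) (T.a (T.l 476) (T.l 476))) (T.l 1))) (T.c (T.b (T.a (T.a (T.l 476) (T.l 476)) (T.a (T.l 476) (T.c (T.l 476) (T.l 476)))) (T.l 1)) (T.b (T.a (T.a (T.l 476) (T.l 476)) (T.a (T.l 476) (T.l 476))) (T.l 1)))) (T.l 1)) (T.b (T.a (T.c (T.b (T.a (T.a (T.l 476) (T.l 476)) (T.a (T.l 476) (T.l 476))) (T.l 1)) (T.b (T.a (T.a (T.l 476) (T.l 476)) (T.a (T.l 476) (T.l 476))) (T.l 1))) (T.c (T.b (T.a (T.a (T.l 476) (T.l 476)) (T.a (T.l 476) (T.l 476))) (T.l 1)) (T.b (T.a (T.a (T.l 476) (T.l 476)) (T.a (T.l 476) (T.l 476))) (T.l 1)))) (T.l 1)))) (T.l 1)))) (T.l 1)) (T.l 1)) (T.l 1)) (T.l 1)) (T.l 1)) (T.l 1)) (T.l 1)) (T.l 1)), by decide +kernel⟩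

def A011R_030 :
    ∃ t, chk3 (onCell 0 67108864 0 1073741824 67108864 67108864 (corTK [] true 1 c0F cA011R gF0q0 gF3q1 gF0q1 gF1q1 true false)) t 1 1 1 = true :=
  ⟨(T.b (T.b (T.b (T.a (T.a (T.a (T.l 204) (T.a (T.l 204) (T.c (T.l 204) (T.l 204)))) (T.a (T.a (T.b (T.l 204) (T.l 204)) (T.b (T.l 0) (T.b (T.l 0) (T.l 0)))) (T.a (T.b (T.l 0) (T.b (T.l 0) (T.l 0))) (T.b (T.l 0) (T.b (T.l 0) (T.l 0)))))) (T.a (T.a (T.b (T.c (T.l 64) (T.l 0)) (T.c (T.b (T.l 0) (T.l 64)) (T.l 0))) (T.b (T.c (T.a (T.l 0) (T.l 64)) (T.l 0)) (T.c (T.a (T.l 0) (T.b (T.l 816) (T.l 816))) (T.b (T.l 0) (T.l 0))))) (T.a (T.b (T.c (T.a (T.l 880) (T.b (T.l 816) (T.l 816))) (T.l 0)) (T.c (T.c (T.a (T.l 880) (T.l 884)) (T.l 68)) (T.b (T.l 0) (T.l 0)))) (T.b (T.c (T.c (T.a (T.l 880) (T.b (T.l 880) (T.l 880))) (T.l 64)) (T.l 0)) (T.c (T.c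 (T.a (T.b (T.l 880) (T.l 880)) (T.b (T.l 880) (T.b (T.l 880) (T.l 884)))) (T.b (T.l 816) (T.l 820))) (T.b (T.l 816) (T.l 820))))))) (T.b (T.b (T.b (T.b (T.b (T.a (T.c (T.b (T.a (T.a (T.l 204) (T.a (T.l 204) (T.l 204))) (T.a (T.c (T.l 0) (T.l 0)) (T.l 0))) (T.a (T.a (T.l 204) (T.a (T.l 204) (T.l 204))) (T.a (T.c (T.l 0) (T.l 0)) (T.l 0)))) (T.b (T.a (T.a (T.l 204) (T.a (T.l 204) (T.l 204))) (T.a (T.c (T.l 0) (T.l 0)) (T.l 0))) (T.a (T.a (T.l 204) (T.a (T.l 204) (T.l 204))) (T.a (T.c (T.l 0) (T.l 0)) (T.l 0))))) (T.a (T.a (T.c (T.l 0) (T.l 0)) (T.c (T.l 0) (T.l 0))) (T.a (T.a (T.l 880) (T.l 884)) (T.c (T.a (T.l 880) (T.l 884)) (T.l 816))))) (T.a (T.c (T.b (T.a (T.a (T.l 204) (T.a (T.l 204) (T.l 204))) (T.a (T.c (T.l 0) (T.l 0)) (T.l 0))) (T.a (T.a (T.l 204) (T.a (T.l 204) (T.l 204))) (T.a (T.c (T.l 0)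 (T.l 0)) (T.l 0)))) (T.b (T.a (T.a (T.l 204) (T.a (T.l 204) (T.l 204))) (T.a (T.c (T.l 0) (T.l 0)) (T.l 0))) (T.a (T.a (T.l 204) (T.a (T.l 204) (T.l 204))) (T.a (T.c (T.l 0) (T.l 0)) (T.l 0))))) (T.c (T.a (T.a (T.l 0) (T.l 0)) (T.a (T.c (T.l 880) (T.l 816)) (T.a (T.l 880) (T.l 884)))) (T.a (T.a (T.l 0) (T.l 0)) (T.a (T.l 816) (T.l 816)))))) (T.b (T.a (T.c (T.b (T.a (T.a (T.l 204) (T.a (T.l 204) (T.l 204))) (T.a (T.c (T.l 0) (T.l 0)) (T.l 0))) (T.l 1)) (T.b (T.a (T.a (T.l 204) (T.a (T.l 204) (T.l 204))) (T.a (T.c (T.l 0) (T.l 0)) (T.l 0))) (T.l 1))) (T.a (T.a (T.c (T.l 0) (T.l 0)) (T.l 1)) (T.l 1))) (T.l 1))) (T.l 1)) (T.l 1)) (T.l 1))) (T.l 1)) (T.l 1)), by decide +kernel⟩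

def A011R_040 :
    ∃ t, chk3 (onCell 0 25165824 0 1073741824 67108864 67108864 (corXK [] 1 c0F cA011R tA011R gF0q0 gF4q1 gF0q1 gF1q1 gF0q1 true false)) t 1 1 1 = true :=
  ⟨(T.b (T.a (T.b (T.l 207) (T.l 207)) (T.b (T.a (T.l 207) (T.b (T.b (T.l 0) (T.b (T.l 0) (T.l 0))) (T.b (T.b (T.l 0) (T.l 204)) (T.l 207)))) (T.b (T.l 207) (T.l 1)))) (T.l 1)), by decide +kernel⟩

def A011R_120 :
    ∃ t, chk3 (onCell 0 67108864 0 1073741824 67108864 67108864 (corTK [] true 1 c0F cA011R gF1q0 gF2q1 gF0q1 gF1q1 true false)) t 1 1 1 = true :=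
  ⟨(T.l 1), by decide +kernel⟩

def A011R_130 :
    ∃ t, chk3 (onCell 0 67108864 0 1073741824 67108864 67108864 (corTK [] true 1 c0F cA011R gF1q0 gF3q1 gF0q1 gF1q1 true false)) t 1 1 1 = true :=
  ⟨(T.l 1), by decide +kernel⟩

def A011R_140 :
    ∃ t, chk3 (onCell 0 67108864 0 1073741824 67108864 67108864 (corTK [] true 1 c0F cA011R gF1q0 gF4q1 gF0q1 gF1q1 true false)) t 1 1 1 = true :=
  ⟨(T.l 1), by decide +kernel⟩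

def A011R_220 :
    ∃ t, chk3 (onCell 0 67108864 0 1073741824 67108864 67108864 (corTK [] true 1 c0F cA011R gF2q0 gF2q1 gF0q1 gF1q1 true false)) t 1 1 1 = true :=
  ⟨(T.l 1), by decide +kernel⟩

def A011R_230 :
    ∃ t, chk3 (onCell 0 67108864 0 1073741824 67108864 67108864 (corTK [] true 1 c0F cA011R gF2q0 gF3q1 gF0q1 gF1q1 true false)) t 1 1 1 = true :=
  ⟨(T.l 1), by decide +kernel⟩

def A011R_240 :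
    ∃ t, chk3 (onCell 0 67108864 0 1073741824 67108864 67108864 (corTK [] true 1 c0F cA011R gF2q0 gF4q1 gF0q1 gF1q1 true false)) t 1 1 1 = true :=
  ⟨(T.l 1), by decide +kernel⟩

def A012E_000 :
    ∃ t, chk3 (onCell 0 16777216 0 1073741824 67108864 67108864 (corXK [[⟨0, 0, 1, 33554432⟩, ⟨1, 1, 0, 8388608⟩, ⟨2, 1, 1, 33554432⟩, ⟨0, 0, 0, 150994944⟩, ⟨0, 1, 0, 1023410176⟩, ⟨2, 1, 0, 150994944⟩, ⟨2, 2, 0, 1023410176⟩]] 1 c0F cA012E tA012E gF0q0 gF0q1 gF0q2 gF1q2 gF0q2 true true)) t 1 1 1 = true :=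
  ⟨(T.b (T.b (T.l 1) (T.b (T.l 1) (T.b (T.l 1) (T.b (T.l 1) (T.c (T.a (T.l 883) (T.l 883)) (T.l 883)))))) (T.b (T.a (T.b (T.c (T.a (T.l 819) (T.l 883)) (T.l 819)) (T.c (T.a (T.l 819) (T.l 883)) (T.l 819))) (T.a (T.c (T.b (T.l 883) (T.l 883)) (T.l 819)) (T.b (T.b (T.b (T.l 883) (T.l 883)) (T.b (T.l 883) (T.l 883))) (T.b (T.a (T.l 883) (T.b (T.a (T.l 819) (T.c (T.b (T.c (T.b (T.l 880) (T.l 880)) (T.l 880)) (T.b (T.l 880) (T.l 880))) (T.b (T.l 884) (T.l 816)))) (T.a (T.a (T.l 819) (T.c (T.b (T.l 880) (T.l 880)) (T.l 820))) (T.c (T.b (T.c (T.l 880) (T.l 816)) (T.c (T.l 880) (T.l 816))) (T.b (T.l 816) (T.l 816)))))) (T.b (T.a (T.a (T.l 819) (T.b (T.l 819) (T.b (T.l 819) (T.l 2)))) (T.a (T.c (T.b (T.c (T.l 880) (T.l 816)) (T.c (T.l 880) (T.l 816))) (T.b (T.l 816) (T.l 816))) (T.c (T.b (T.c (T.l 880) (T.l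 816)) (T.c (T.l 880) (T.l 816))) (T.b (T.l 816) (T.l 816))))) (T.l 2)))))) (T.l 2))), by decide +kernel⟩

def A012E_001 :
    ∃ t, chk3 (onCell 0 16777216 0 1073741824 67108864 67108864 (corTK [[⟨0, 0, 1, 33554432⟩, ⟨1, 1, 0, 8388608⟩, ⟨2, 1, 1, 33554432⟩, ⟨0, 0, 0, 150994944⟩, ⟨0, 1, 0, 1023410176⟩, ⟨2, 1, 0, 150994944⟩, ⟨2, 2, 0, 1023410176⟩]] true 1 c0F cA012E gF0q0 gF0q1 gF1q2 gF2q2 true true)) t 1 1 1 = true :=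
  ⟨(T.b (T.l 1) (T.b (T.b (T.l 1) (T.b (T.l 1) (T.c (T.b (T.a (T.l 880) (T.l 880)) (T.a (T.l 880) (T.b (T.l 880) (T.l 880)))) (T.b (T.l 820) (T.l 816))))) (T.b (T.b (T.c (T.b (T.a (T.l 880) (T.b (T.l 880) (T.l 880))) (T.a (T.l 880) (T.b (T.l 880) (T.l 880)))) (T.b (T.l 816) (T.l 816))) (T.c (T.b (T.c (T.a (T.l 816) (T.b (T.l 880) (T.l 880))) (T.l 880)) (T.c (T.a (T.l 816) (T.b (T.l 880) (T.l 880))) (T.l 880))) (T.b (T.l 880) (T.l 880)))) (T.b (T.c (T.b (T.a (T.b (T.l 816) (T.l 816)) (T.c (T.b (T.l 880) (T.l 880)) (T.l 816))) (T.a (T.b (T.l 816) (T.l 816)) (T.c (T.a (T.l 880) (T.b (T.l 880) (T.l 880))) (T.l 816)))) (T.b (T.l 880) (T.a (T.l 816) (T.l 816)))) (T.a (T.c (T.c (T.b (T.l 816) (T.l 816)) (T.l 816)) (T.l 816)) (T.a (T.c (T.c (T.b (T.l 880) (T.b (T.l 816) (T.l 816))) (T.l 816)) (T.l 816)) (T.a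 (T.c (T.c (T.b (T.l 880) (T.b (T.l 880) (T.l 880))) (T.l 816)) (T.l 816)) (T.a (T.c (T.c (T.c (T.b (T.l 880) (T.l 880)) (T.l 816)) (T.l 816)) (T.l 816)) (T.c (T.b (T.b (T.c (T.l 880) (T.l 816)) (T.c (T.a (T.l 880) (T.c (T.c (T.b (T.l 880) (T.l 880)) (T.l 880)) (T.l 880))) (T.b (T.l 880) (T.l 880)))) (T.c (T.b (T.a (T.l 880) (T.c (T.c (T.a (T.l 880) (T.l 880)) (T.l 880)) (T.l 880))) (T.c (T.a (T.a (T.l 816) (T.c (T.b (T.l 880) (T.l 880)) (T.l 816))) (T.c (T.b (T.b (T.l 880) (T.l 880)) (T.a (T.l 880) (T.l 880))) (T.l 880))) (T.a (T.l 880) (T.l 880)))) (T.b (T.c (T.l 880) (T.l 816)) (T.a (T.l 816) (T.l 816))))) (T.b (T.c (T.b (T.l 816) (T.l 816)) (T.l 816)) (T.c (T.b (T.l 816) (T.l 816)) (T.l 816)))))))))))), by decide +kernel⟩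

def A012E_002 :
    ∃ t, chk3 (onCell 0 16777216 0 1073741824 67108864 67108864 (corTK [[⟨0, 0, 1, 33554432⟩, ⟨1, 1, 0, 8388608⟩, ⟨2, 1, 1, 33554432⟩, ⟨0, 0, 0, 150994944⟩, ⟨0, 1, 0, 1023410176⟩, ⟨2, 1, 0, 150994944⟩, ⟨2, 2, 0, 1023410176⟩]] true 1 c0F cA012E gF0q0 gF0q1 gF2q2 gF3q2 true false)) t 1 1 1 = true :=
  ⟨(T.b (T.l 1) (T.b (T.l 1) (T.b (T.l 1) (T.b (T.l 1) (T.b (T.l 1) (T.b (T.l 1) (T.b (T.l 1) (T.b (T.l 1) (T.a (T.c (T.l 816) (T.l 816)) (T.c (T.a (T.l 816) (T.a (T.l 880) (T.c (T.c (T.c (T.a (T.l 816) (T.l 880)) (T.l 880)) (T.l 816)) (T.l 816)))) (T.a (T.l 816) (T.a (T.l 816) (T.l 816))))))))))))), by decide +kernel⟩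

def A012L_003 :
    ∃ t, chk3 (onCell 0 67108864 0 1073741824 67108864 67108864 (corTK [] true 1 c0F cA012L gF0q0 gF0q1 gF3q2 gF4q2 false true)) t 1 1 1 = true :=
  ⟨(T.l 2), by decide +kernel⟩

def A012R_020 :
    ∃ t, chk3 (onCell 0 67108864 0 1073741824 67108864 67108864 (corTK [[⟨0, 0, 1, 33554432⟩, ⟨1, 1, 2, 33554432⟩, ⟨2, 1, 0, 16777216⟩, ⟨0, 0, 0, 150994944⟩, ⟨0, 1, 0, 1023410176⟩, ⟨1, 0, 0, 1023410176⟩, ⟨1, 1, 0, 150994944⟩]] true 1 c0F cA012R gF0q0 gF2q1 gF0q2 gF1q2 true true)) t 1 1 1 = true :=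
  ⟨(T.b (T.b (T.b (T.b (T.b (T.b (T.b (T.b (T.a (T.c (T.b (T.a (T.a (T.l 204) (T.a (T.l 204) (T.a (T.l 204) (T.l 204)))) (T.c (T.b (T.a (T.c (T.b (T.a (T.a (T.l 204) (T.l 204)) (T.a (T.l 204) (T.l 204))) (T.l 2)) (T.b (T.a (T.a (T.l 204) (T.l 204)) (T.a (T.l 204) (T.l 204))) (T.l 2))) (T.c (T.b (T.a (T.a (T.l 476) (T.l 476)) (T.c (T.a (T.l 476) (T.a (T.l 476) (T.l 476))) (T.a (T.l 476) (T.l 476)))) (T.l 2)) (T.b (T.a (T.a (T.l 460) (T.l 460)) (T.a (T.l 476) (T.c (T.l 476) (T.l 476)))) (T.l 2)))) (T.l 2)) (T.b (T.a (T.c (T.b (T.a (T.a (T.l 204) (T.l 204)) (T.a (T.l 204) (T.l 204))) (T.l 2)) (T.b (T.a (T.a (T.l 204) (T.l 204)) (T.a (T.l 204) (T.l 204))) (T.l 2))) (T.c (T.b (T.a (T.a (T.l 204) (T.l 460)) (T.a (T.l 460) (T.l 476))) (T.l 2)) (T.b (T.a (T.a (T.l 204) (T.l 204)) (T.a (T.l 460) (T.l 460)))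 (T.l 2)))) (T.l 2)))) (T.l 2)) (T.b (T.a (T.a (T.l 204) (T.a (T.l 204) (T.a (T.l 204) (T.l 204)))) (T.c (T.b (T.a (T.c (T.b (T.a (T.a (T.l 204) (T.l 204)) (T.a (T.l 204) (T.l 204))) (T.l 2)) (T.b (T.a (T.a (T.l 204) (T.l 204)) (T.a (T.l 204) (T.l 204))) (T.l 2))) (T.c (T.b (T.a (T.a (T.l 204) (T.l 204)) (T.a (T.l 204) (T.l 204))) (T.l 2)) (T.b (T.a (T.a (T.l 204) (T.l 204)) (T.a (T.l 204) (T.l 204))) (T.l 2)))) (T.l 2)) (T.b (T.a (T.c (T.b (T.a (T.a (T.l 204) (T.l 204)) (T.a (T.l 204) (T.l 204))) (T.l 2)) (T.b (T.a (T.a (T.l 204) (T.l 204)) (T.a (T.l 204) (T.l 204))) (T.l 2))) (T.c (T.b (T.a (T.a (T.l 204) (T.l 204)) (T.a (T.l 204) (T.l 204))) (T.l 2)) (T.b (T.a (T.a (T.l 204) (T.l 204)) (T.a (T.l 204) (T.l 204))) (T.l 2)))) (T.l 2)))) (T.l 2))) (T.c (T.b (T.a (T.c (T.b (T.a (T.c (T.b (T.a (T.c (T.b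 (T.a (T.a (T.l 476) (T.l 476)) (T.a (T.l 476) (T.l 476))) (T.l 2)) (T.b (T.a (T.a (T.l 476) (T.l 476)) (T.a (T.l 476) (T.l 476))) (T.l 2))) (T.c (T.b (T.a (T.a (T.l 476) (T.l 476)) (T.a (T.l 476) (T.l 476))) (T.l 2)) (T.b (T.a (T.a (T.l 476) (T.l 476)) (T.a (T.l 476) (T.l 476))) (T.l 2)))) (T.l 2)) (T.b (T.a (T.c (T.a (T.l 476) (T.l 476)) (T.a (T.l 476) (T.l 476))) (T.c (T.a (T.l 476) (T.l 476)) (T.a (T.l 476) (T.l 476)))) (T.l 2))) (T.c (T.b (T.a (T.c (T.b (T.a (T.a (T.l 476) (T.l 476)) (T.a (T.l 476) (T.c (T.l 476) (T.l 476)))) (T.l 2)) (T.b (T.a (T.a (T.l 476) (T.l 476)) (T.a (T.l 476) (T.l 476))) (T.l 2))) (T.c (T.b (T.a (T.c (T.a (T.l 476) (T.l 476)) (T.a (T.l 476) (T.l 476))) (T.a (T.l 476) (T.a (T.l 476) (T.l 476)))) (T.l 2)) (T.b (T.a (T.a (T.l 476) (T.l 476)) (T.a (T.l 476) (T.l 476))) (T.l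 2)))) (T.l 2)) (T.b (T.a (T.c (T.a (T.l 476) (T.a (T.l 476) (T.l 476))) (T.a (T.l 476) (T.a (T.l 476) (T.l 476)))) (T.c (T.b (T.a (T.a (T.l 476) (T.l 476)) (T.a (T.l 476) (T.l 476))) (T.l 2)) (T.a (T.l 476) (T.a (T.l 476) (T.l 476))))) (T.l 2)))) (T.l 2)) (T.b (T.a (T.c (T.b (T.a (T.a (T.l 476) (T.l 476)) (T.a (T.l 476) (T.l 476))) (T.l 2)) (T.b (T.a (T.a (T.l 460) (T.l 460)) (T.a (T.l 476) (T.l 476))) (T.l 2))) (T.c (T.b (T.a (T.a (T.l 476) (T.c (T.l 476) (T.l 476))) (T.c (T.a (T.l 476) (T.a (T.l 476) (T.l 476))) (T.a (T.l 476) (T.a (T.l 476) (T.l 476))))) (T.l 2)) (T.b (T.a (T.a (T.l 476) (T.l 476)) (T.a (T.l 476) (T.a (T.l 476) (T.l 476)))) (T.l 2)))) (T.l 2))) (T.c (T.a (T.a (T.a (T.a (T.b (T.a (T.c (T.c (T.l 476) (T.l 476)) (T.l 476)) (T.l 1024)) (T.l 2)) (T.l 1024)) (T.l 1024)) (T.l 1024)) (T.l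 1024)) (T.b (T.a (T.c (T.b (T.a (T.c (T.b (T.a (T.a (T.l 476) (T.l 476)) (T.a (T.l 476) (T.l 476))) (T.l 2)) (T.b (T.a (T.a (T.l 476) (T.l 476)) (T.a (T.l 476) (T.l 476))) (T.l 2))) (T.c (T.a (T.a (T.l 476) (T.l 1024)) (T.l 1024)) (T.b (T.a (T.a (T.l 476) (T.l 476)) (T.a (T.l 476) (T.l 476))) (T.l 2)))) (T.l 2)) (T.b (T.a (T.c (T.a (T.a (T.l 476) (T.l 476)) (T.l 476)) (T.a (T.l 476) (T.l 476))) (T.c (T.a (T.l 476) (T.l 476)) (T.a (T.l 476) (T.l 476)))) (T.l 2))) (T.c (T.a (T.a (T.a (T.l 476) (T.l 1024)) (T.l 1024)) (T.l 1024)) (T.b (T.a (T.c (T.a (T.l 476) (T.l 476)) (T.a (T.l 476) (T.l 476))) (T.c (T.a (T.a (T.l 476) (T.l 1024)) (T.l 1024)) (T.a (T.l 476) (T.l 476)))) (T.l 2)))) (T.l 2)))) (T.l 2)) (T.b (T.a (T.c (T.b (T.a (T.c (T.b (T.a (T.a (T.l 460) (T.l 460)) (T.a (T.l 460) (T.l 460))) (T.l 2))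 (T.b (T.a (T.a (T.l 204) (T.l 204)) (T.a (T.l 204) (T.l 204))) (T.l 2))) (T.c (T.b (T.a (T.a (T.l 460) (T.l 476)) (T.a (T.l 476) (T.a (T.l 476) (T.l 476)))) (T.l 2)) (T.b (T.a (T.a (T.l 460) (T.l 460)) (T.a (T.l 460) (T.c (T.l 476) (T.l 476)))) (T.l 2)))) (T.l 2)) (T.b (T.a (T.c (T.a (T.a (T.l 204) (T.l 204)) (T.l 476)) (T.a (T.l 460) (T.l 460))) (T.c (T.b (T.a (T.a (T.l 204) (T.l 204)) (T.a (T.l 204) (T.l 476))) (T.l 2)) (T.a (T.l 476) (T.a (T.l 204) (T.l 476))))) (T.l 2))) (T.c (T.b (T.a (T.c (T.b (T.a (T.a (T.c (T.l 476) (T.l 476)) (T.l 476)) (T.a (T.l 476) (T.l 476))) (T.l 2)) (T.b (T.a (T.a (T.l 476) (T.l 476)) (T.a (T.l 476) (T.l 476))) (T.l 2))) (T.c (T.b (T.a (T.a (T.l 476) (T.l 476)) (T.a (T.l 476) (T.l 476))) (T.l 2)) (T.b (T.a (T.a (T.l 476) (T.l 476)) (T.a (T.l 476) (T.l 476))) (T.l 2))))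 (T.l 2)) (T.b (T.a (T.c (T.b (T.a (T.a (T.l 476) (T.l 476)) (T.a (T.l 476) (T.l 476))) (T.l 2)) (T.b (T.a (T.a (T.l 476) (T.l 476)) (T.a (T.l 476) (T.l 476))) (T.l 2))) (T.c (T.b (T.a (T.a (T.l 476) (T.l 476)) (T.a (T.l 476) (T.l 476))) (T.l 2)) (T.b (T.a (T.a (T.l 476) (T.l 476)) (T.a (T.l 476) (T.l 476))) (T.l 2)))) (T.l 2)))) (T.l 2)))) (T.l 2)) (T.l 2)) (T.l 2)) (T.l 2)) (T.l 2)) (T.l 2)) (T.l 2)) (T.l 2)), by decide +kernel⟩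

def A012R_021 :
    ∃ t, chk3 (onCell 0 67108864 0 1073741824 67108864 67108864 (corTK [[⟨0, 0, 1, 33554432⟩, ⟨1, 1, 2, 33554432⟩, ⟨2, 1, 0, 16777216⟩, ⟨0, 0, 0, 150994944⟩, ⟨0, 1, 0, 1023410176⟩, ⟨1, 0, 0, 1023410176⟩, ⟨1, 1, 0, 150994944⟩]] true 1 c0F cA012R gF0q0 gF2q1 gF1q2 gF2q2 true true)) t 1 1 1 = true :=
  ⟨(T.b (T.b (T.b (T.b (T.a (T.b (T.a (T.c (T.a (T.l 204) (T.b (T.b (T.a (T.l 204) (T.b (T.a (T.l 204) (T.l 204)) (T.l 2))) (T.l 2)) (T.l 2))) (T.a (T.l 204) (T.b (T.b (T.a (T.l 204) (T.a (T.l 204) (T.l 204))) (T.l 2)) (T.l 2)))) (T.b (T.b (T.b (T.c (T.b (T.c (T.b (T.a (T.c (T.b (T.a (T.a (T.l 204) (T.l 204)) (T.a (T.l 204) (T.l 204))) (T.l 2)) (T.b (T.a (T.a (T.l 204) (T.l 204)) (T.a (T.l 204) (T.l 204))) (T.l 2))) (T.c (T.b (T.a (T.a (T.l 476) (T.l 476)) (T.c (T.a (T.l 476) (T.a (T.l 476)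 (T.l 476))) (T.a (T.l 476) (T.l 476)))) (T.l 2)) (T.b (T.a (T.a (T.l 460) (T.l 460)) (T.a (T.l 476) (T.c (T.l 476) (T.l 476)))) (T.l 2)))) (T.l 2)) (T.b (T.a (T.c (T.b (T.a (T.a (T.l 204) (T.l 204)) (T.a (T.l 204) (T.l 204))) (T.l 2)) (T.b (T.a (T.a (T.l 204) (T.l 204)) (T.a (T.l 204) (T.l 204))) (T.l 2))) (T.c (T.b (T.a (T.a (T.l 204) (T.l 460)) (T.a (T.l 460) (T.l 476))) (T.l 2)) (T.b (T.a (T.a (T.l 204) (T.l 204)) (T.a (T.l 460) (T.l 460))) (T.l 2)))) (T.l 2))) (T.l 2)) (T.b (T.c (T.b (T.a (T.c (T.b (T.a (T.a (T.l 204) (T.l 204)) (T.a (T.l 204) (T.l 204))) (T.l 2)) (T.b (T.a (T.a (T.l 204) (T.l 204)) (T.a (T.l 204) (T.l 204))) (T.l 2))) (T.c (T.b (T.a (T.a (T.l 204) (T.l 204)) (T.a (T.l 204) (T.l 204))) (T.l 2)) (T.b (T.a (T.a (T.l 204) (T.l 204)) (T.a (T.l 204) (T.l 204))) (T.l 2)))) (T.l 2)) (T.b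 (T.a (T.c (T.b (T.a (T.a (T.l 204) (T.l 204)) (T.a (T.l 204) (T.l 204))) (T.l 2)) (T.b (T.a (T.a (T.l 204) (T.l 204)) (T.a (T.l 204) (T.l 204))) (T.l 2))) (T.c (T.b (T.a (T.a (T.l 204) (T.l 204)) (T.a (T.l 204) (T.l 204))) (T.l 2)) (T.b (T.a (T.a (T.l 204) (T.l 204)) (T.a (T.l 204) (T.l 204))) (T.l 2)))) (T.l 2))) (T.l 2))) (T.l 2)) (T.l 2)) (T.l 2))) (T.a (T.a (T.l 204) (T.l 2)) (T.l 2))) (T.b (T.b (T.b (T.b (T.c (T.b (T.a (T.c (T.b (T.a (T.c (T.b (T.a (T.c (T.b (T.a (T.a (T.l 476) (T.l 476)) (T.a (T.l 476) (T.l 476))) (T.l 2)) (T.b (T.a (T.a (T.l 476) (T.l 476)) (T.a (T.l 476) (T.l 476))) (T.l 2))) (T.c (T.b (T.a (T.a (T.l 476) (T.l 476)) (T.a (T.l 476) (T.l 476))) (T.l 2)) (T.b (T.a (T.a (T.l 476) (T.l 476)) (T.a (T.l 476) (T.l 476))) (T.l 2)))) (T.l 2)) (T.b (T.a (T.c (T.a (T.l 476) (T.l 476))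 (T.a (T.l 476) (T.l 476))) (T.c (T.a (T.l 476) (T.l 476)) (T.a (T.l 476) (T.l 476)))) (T.l 2))) (T.c (T.b (T.a (T.c (T.b (T.a (T.a (T.l 476) (T.l 476)) (T.a (T.l 476) (T.c (T.l 476) (T.l 476)))) (T.l 2)) (T.b (T.a (T.a (T.l 476) (T.l 476)) (T.a (T.l 476) (T.l 476))) (T.l 2))) (T.c (T.b (T.a (T.c (T.a (T.l 476) (T.l 476)) (T.a (T.l 476) (T.l 476))) (T.a (T.l 476) (T.a (T.l 476) (T.l 476)))) (T.l 2)) (T.b (T.a (T.a (T.l 476) (T.l 476)) (T.a (T.l 476) (T.l 476))) (T.l 2)))) (T.l 2)) (T.b (T.a (T.c (T.a (T.l 476) (T.a (T.l 476) (T.l 476))) (T.a (T.l 476) (T.a (T.l 476) (T.l 476)))) (T.c (T.b (T.a (T.a (T.l 476) (T.l 476)) (T.a (T.l 476) (T.l 476))) (T.l 2)) (T.a (T.l 476) (T.a (T.l 476) (T.l 476))))) (T.l 2)))) (T.l 2)) (T.b (T.a (T.c (T.b (T.a (T.a (T.l 476) (T.l 476)) (T.a (T.l 476) (T.l 476))) (T.l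 2)) (T.b (T.a (T.a (T.l 460) (T.l 460)) (T.a (T.l 476) (T.l 476))) (T.l 2))) (T.c (T.b (T.a (T.a (T.l 476) (T.c (T.l 476) (T.l 476))) (T.c (T.a (T.l 476) (T.a (T.l 476) (T.l 476))) (T.a (T.l 476) (T.a (T.l 476) (T.l 476))))) (T.l 2)) (T.b (T.a (T.a (T.l 476) (T.l 476)) (T.a (T.l 476) (T.a (T.l 476) (T.l 476)))) (T.l 2)))) (T.l 2))) (T.c (T.a (T.a (T.a (T.a (T.b (T.a (T.c (T.c (T.l 476) (T.l 476)) (T.l 476)) (T.l 1024)) (T.l 2)) (T.l 1024)) (T.l 1024)) (T.l 1024)) (T.l 1024)) (T.b (T.a (T.c (T.b (T.a (T.c (T.b (T.a (T.a (T.l 476) (T.l 476)) (T.a (T.l 476) (T.l 476))) (T.l 2)) (T.b (T.a (T.a (T.l 476) (T.l 476)) (T.a (T.l 476) (T.l 476))) (T.l 2))) (T.c (T.a (T.a (T.l 476) (T.l 1024)) (T.l 1024)) (T.b (T.a (T.a (T.l 476) (T.l 476)) (T.a (T.l 476) (T.l 476))) (T.l 2)))) (T.l 2)) (T.b (T.a (T.c (T.a (T.a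 (T.l 476) (T.l 476)) (T.l 476)) (T.a (T.l 476) (T.l 476))) (T.c (T.a (T.l 476) (T.l 476)) (T.a (T.l 476) (T.l 476)))) (T.l 2))) (T.c (T.a (T.a (T.a (T.l 476) (T.l 1024)) (T.l 1024)) (T.l 1024)) (T.b (T.a (T.c (T.a (T.l 476) (T.l 476)) (T.a (T.l 476) (T.l 476))) (T.c (T.a (T.a (T.l 476) (T.l 1024)) (T.l 1024)) (T.a (T.l 476) (T.l 476)))) (T.l 2)))) (T.l 2)))) (T.l 2)) (T.b (T.a (T.c (T.b (T.a (T.c (T.b (T.a (T.a (T.l 460) (T.l 460)) (T.a (T.l 460) (T.l 460))) (T.l 2)) (T.b (T.a (T.a (T.l 204) (T.l 204)) (T.a (T.l 204) (T.l 204))) (T.l 2))) (T.c (T.b (T.a (T.a (T.l 460) (T.l 476)) (T.a (T.l 476) (T.a (T.l 476) (T.l 476)))) (T.l 2)) (T.b (T.a (T.a (T.l 460) (T.l 460)) (T.a (T.l 460) (T.c (T.l 476) (T.l 476)))) (T.l 2)))) (T.l 2)) (T.b (T.a (T.c (T.a (T.a (T.l 204) (T.l 204)) (T.l 476)) (T.a (T.l 460)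 (T.l 460))) (T.c (T.b (T.a (T.a (T.l 204) (T.l 204)) (T.a (T.l 204) (T.l 476))) (T.l 2)) (T.a (T.l 476) (T.a (T.l 204) (T.l 476))))) (T.l 2))) (T.c (T.b (T.a (T.c (T.b (T.a (T.a (T.c (T.l 476) (T.l 476)) (T.l 476)) (T.a (T.l 476) (T.l 476))) (T.l 2)) (T.b (T.a (T.a (T.l 476) (T.l 476)) (T.a (T.l 476) (T.l 476))) (T.l 2))) (T.c (T.b (T.a (T.a (T.l 476) (T.l 476)) (T.a (T.l 476) (T.l 476))) (T.l 2)) (T.b (T.a (T.a (T.l 476) (T.l 476)) (T.a (T.l 476) (T.l 476))) (T.l 2)))) (T.l 2)) (T.b (T.a (T.c (T.b (T.a (T.a (T.l 476) (T.l 476)) (T.a (T.l 476) (T.l 476))) (T.l 2)) (T.b (T.a (T.a (T.l 476) (T.l 476)) (T.a (T.l 476) (T.l 476))) (T.l 2))) (T.c (T.b (T.a (T.a (T.l 476) (T.l 476)) (T.a (T.l 476) (T.l 476))) (T.l 2)) (T.b (T.a (T.a (T.l 476) (T.l 476)) (T.a (T.l 476) (T.l 476))) (T.l 2)))) (T.l 2)))) (T.l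 2))) (T.l 2)) (T.l 2)) (T.l 2)) (T.l 2))) (T.a (T.a (T.l 204) (T.l 2)) (T.l 2))) (T.a (T.a (T.l 460) (T.l 2)) (T.l 2))) (T.a (T.a (T.b (T.l 204) (T.l 0)) (T.l 2)) (T.l 2))) (T.a (T.a (T.a (T.a (T.b (T.l 816) (T.b (T.l 816) (T.b (T.l 816) (T.b (T.l 816) (T.l 816))))) (T.l 2)) (T.l 2)) (T.l 2)) (T.l 2))), by decide +kernel⟩

def A012R_022_2_16_1 :
    ∃ t, chk3 (onCell 0 67108864 0 1073741824 67108864 67108864 (corTK [[⟨0, 0, 1, 33554432⟩, ⟨1, 1, 2, 33554432⟩, ⟨2, 1, 0, 16777216⟩, ⟨0, 0, 0, 150994944⟩, ⟨0, 1, 0, 1023410176⟩, ⟨1, 0, 0, 1023410176⟩, ⟨1, 1, 0, 150994944⟩]] true 1 c0F cA012R gF0q0 gF2q1 gF2q2 gF3q2 true false)) t 2 16 1 = true :=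
  ⟨(T.b (T.a (T.c (T.a (T.l 204) (T.a (T.l 204) (T.a (T.l 204) (T.a (T.l 204) (T.l 220))))) (T.a (T.l 204) (T.a (T.l 204) (T.a (T.l 204) (T.c (T.l 460) (T.l 204)))))) (T.b (T.c (T.a (T.c (T.b (T.a (T.a (T.l 204) (T.l 204)) (T.a (T.c (T.l 204) (T.l 204)) (T.c (T.l 476) (T.l 460)))) (T.a (T.a (T.l 204) (T.l 204)) (T.a (T.l 204) (T.l 460)))) (T.b (T.a (T.a (T.l 204) (T.l 204)) (T.a (T.l 460) (T.c (T.l 204) (T.l 204)))) (T.a (T.a (T.l 204) (T.l 204)) (T.a (T.l 204) (T.l 204))))) (T.b (T.c (T.a (T.b (T.c (T.a (T.l 476) (T.c (T.l 476) (T.l 476))) (T.a (T.l 460) (T.l 476))) (T.a (T.l 460) (T.c (T.l 460) (T.l 460)))) (T.b (T.c (T.a (T.c (T.l 476) (T.l 476)) (T.a (T.l 476) (T.l 476))) (T.a (T.c (T.l 476) (T.l 460)) (T.c (T.l 476) (T.l 476)))) (T.a (T.c (T.l 460) (T.l 460)) (T.c (T.l 460) (T.l 460))))) (T.a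 (T.a (T.c (T.l 460) (T.l 204)) (T.c (T.l 460) (T.l 460))) (T.a (T.a (T.l 460) (T.l 460)) (T.a (T.l 460) (T.l 476))))) (T.c (T.a (T.a (T.l 460) (T.l 460)) (T.a (T.l 460) (T.l 460))) (T.a (T.a (T.l 204) (T.l 460)) (T.a (T.l 460) (T.l 460)))))) (T.a (T.c (T.b (T.a (T.a (T.l 204) (T.l 204)) (T.a (T.l 204) (T.l 204))) (T.a (T.a (T.l 204) (T.l 204)) (T.a (T.l 204) (T.l 204)))) (T.b (T.a (T.a (T.l 204) (T.l 204)) (T.a (T.l 204) (T.l 204))) (T.a (T.a (T.l 204) (T.l 204)) (T.a (T.l 204) (T.l 204))))) (T.b (T.c (T.a (T.a (T.l 460) (T.l 460)) (T.a (T.l 460) (T.l 460))) (T.a (T.a (T.l 204) (T.l 204)) (T.a (T.l 204) (T.l 204)))) (T.c (T.a (T.a (T.l 204) (T.l 204)) (T.a (T.l 204) (T.l 204))) (T.a (T.a (T.l 204) (T.l 204)) (T.c (T.l 460) (T.l 204))))))) (T.c (T.a (T.c (T.b (T.a (T.a (T.l 204) (T.l 204)) (T.a (T.l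 204) (T.l 204))) (T.a (T.c (T.l 460) (T.l 460)) (T.c (T.l 460) (T.l 460)))) (T.b (T.a (T.a (T.l 204) (T.l 204)) (T.a (T.l 204) (T.l 204))) (T.a (T.c (T.l 460) (T.l 204)) (T.c (T.l 460) (T.l 460))))) (T.b (T.c (T.a (T.a (T.l 204) (T.l 204)) (T.a (T.l 204) (T.l 460))) (T.a (T.a (T.l 204) (T.l 204)) (T.c (T.l 460) (T.l 460)))) (T.a (T.a (T.l 460) (T.l 460)) (T.a (T.l 460) (T.l 460))))) (T.a (T.c (T.b (T.a (T.a (T.l 204) (T.l 204)) (T.a (T.l 204) (T.l 204))) (T.a (T.c (T.l 204) (T.l 204)) (T.c (T.l 204) (T.l 204)))) (T.a (T.a (T.l 204) (T.l 204)) (T.a (T.l 204) (T.l 204)))) (T.b (T.a (T.a (T.l 204) (T.l 204)) (T.c (T.l 460) (T.l 204))) (T.a (T.c (T.l 460) (T.l 204)) (T.c (T.l 204) (T.l 204)))))))) (T.a (T.b (T.a (T.l 204) (T.a (T.l 204) (T.a (T.l 204) (T.c (T.l 204) (T.l 204))))) (T.l 204)) (T.b (T.c (T.a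 (T.c (T.a (T.c (T.l 460) (T.l 460)) (T.c (T.l 460) (T.l 460))) (T.a (T.b (T.l 460) (T.l 204)) (T.b (T.l 460) (T.l 204)))) (T.a (T.a (T.l 460) (T.l 460)) (T.c (T.l 460) (T.l 460)))) (T.a (T.a (T.a (T.l 204) (T.l 204)) (T.c (T.l 460) (T.l 204))) (T.a (T.c (T.l 204) (T.l 204)) (T.c (T.l 204) (T.l 204))))) (T.a (T.c (T.a (T.c (T.l 460) (T.l 204)) (T.c (T.l 460) (T.l 204))) (T.a (T.c (T.l 204) (T.l 204)) (T.c (T.l 204) (T.l 204)))) (T.c (T.a (T.c (T.l 204) (T.l 204)) (T.c (T.l 204) (T.l 204))) (T.a (T.l 460) (T.l 204))))))), by decide +kernel⟩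

def A012R_022_3_64_1 :
    ∃ t, chk3 (onCell 0 67108864 0 1073741824 67108864 67108864 (corTK [[⟨0, 0, 1, 33554432⟩, ⟨1, 1, 2, 33554432⟩, ⟨2, 1, 0, 16777216⟩, ⟨0, 0, 0, 150994944⟩, ⟨0, 1, 0, 1023410176⟩, ⟨1, 0, 0, 1023410176⟩, ⟨1, 1, 0, 150994944⟩]] true 1 c0F cA012R gF0q0 gF2q1 gF2q2 gF3q2 true false)) t 3 64 1 = true :=
  ⟨(T.a (T.c (T.b (T.a (T.c (T.b (T.a (T.c (T.a (T.a (T.l 476) (T.l 476)) (T.a (T.c (T.l 476) (T.l 476)) (T.c (T.l 476) (T.l 476)))) (T.a (T.a (T.l 476) (T.l 476)) (T.a (T.l 476) (T.l 476)))) (T.c (T.a (T.c (T.a (T.l 476) (T.l 476)) (T.a (T.l 476) (T.l 476))) (T.c (T.a (T.l 476) (T.l 476)) (T.a (T.l 476) (T.l 476)))) (T.a (T.a (T.l 476) (T.l 476)) (T.a (T.l 476) (T.l 476))))) (T.a (T.a (T.c (T.l 476) (T.l 460)) (T.c (T.l 476) (T.l 460))) (T.a (T.c (T.l 476) (T.l 460)) (T.c (T.l 476)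 (T.l 476))))) (T.b (T.a (T.c (T.a (T.l 476) (T.c (T.l 476) (T.l 476))) (T.a (T.l 460) (T.l 476))) (T.c (T.a (T.c (T.l 476) (T.l 476)) (T.c (T.l 476) (T.l 476))) (T.a (T.l 476) (T.l 476)))) (T.a (T.a (T.l 460) (T.l 460)) (T.a (T.l 460) (T.l 460))))) (T.c (T.b (T.a (T.c (T.a (T.c (T.b (T.a (T.l 476) (T.l 476)) (T.l 476)) (T.a (T.l 476) (T.l 476))) (T.a (T.c (T.b (T.l 476) (T.l 476)) (T.l 476)) (T.c (T.c (T.l 476) (T.l 476)) (T.l 476)))) (T.a (T.a (T.l 476) (T.l 476)) (T.a (T.l 476) (T.c (T.l 476) (T.l 476))))) (T.c (T.b (T.a (T.c (T.a (T.c (T.l 476) (T.l 476)) (T.c (T.l 476) (T.l 476))) (T.a (T.l 476) (T.l 476))) (T.a (T.c (T.c (T.l 476) (T.l 476)) (T.l 476)) (T.b (T.c (T.a (T.l 476) (T.l 476)) (T.c (T.l 476) (T.l 476))) (T.l 476)))) (T.a (T.c (T.l 476) (T.l 476)) (T.c (T.l 476) (T.l 476)))) (T.a (T.a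 (T.c (T.l 476) (T.l 476)) (T.l 476)) (T.a (T.l 476) (T.a (T.l 476) (T.l 476)))))) (T.a (T.a (T.c (T.l 476) (T.l 476)) (T.a (T.l 476) (T.l 476))) (T.a (T.c (T.l 476) (T.l 476)) (T.c (T.l 476) (T.l 476))))) (T.b (T.a (T.c (T.a (T.l 476) (T.c (T.l 476) (T.l 476))) (T.a (T.l 476) (T.l 476))) (T.c (T.a (T.c (T.l 476) (T.l 476)) (T.a (T.l 476) (T.c (T.l 476) (T.l 476)))) (T.a (T.l 476) (T.a (T.l 476) (T.l 476))))) (T.a (T.a (T.l 476) (T.c (T.l 460) (T.l 460))) (T.a (T.c (T.l 476) (T.l 460)) (T.l 476)))))) (T.a (T.c (T.a (T.a (T.l 460) (T.l 460)) (T.a (T.l 460) (T.l 460))) (T.a (T.a (T.l 460) (T.l 460)) (T.a (T.l 460) (T.l 460)))) (T.c (T.a (T.a (T.l 476) (T.c (T.l 460) (T.l 460))) (T.a (T.c (T.l 476) (T.l 460)) (T.c (T.l 476) (T.l 460)))) (T.a (T.a (T.l 460) (T.l 460)) (T.a (T.l 460) (T.l 460)))))) (T.b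 (T.a (T.c (T.b (T.a (T.a (T.l 460) (T.l 460)) (T.a (T.l 476) (T.l 476))) (T.a (T.a (T.l 204) (T.l 460)) (T.c (T.l 460) (T.l 460)))) (T.a (T.a (T.l 204) (T.l 204)) (T.a (T.l 460) (T.l 460)))) (T.c (T.b (T.a (T.a (T.l 476) (T.c (T.l 476) (T.l 460))) (T.a (T.c (T.l 476) (T.l 476)) (T.a (T.l 476) (T.l 476)))) (T.a (T.a (T.l 460) (T.l 460)) (T.a (T.l 460) (T.l 460)))) (T.b (T.a (T.a (T.l 204) (T.l 460)) (T.a (T.l 460) (T.a (T.l 204) (T.l 476)))) (T.a (T.c (T.l 460) (T.l 460)) (T.c (T.l 460) (T.l 460)))))) (T.a (T.c (T.a (T.c (T.l 460) (T.l 460)) (T.c (T.l 460) (T.l 460))) (T.a (T.l 460) (T.l 460))) (T.c (T.a (T.a (T.l 204) (T.l 460)) (T.c (T.l 460) (T.l 460))) (T.a (T.c (T.l 460) (T.l 460)) (T.l 460)))))) (T.c (T.b (T.a (T.c (T.a (T.a (T.a (T.a (T.b (T.c (T.c (T.b (T.l 476) (T.l 476)) (T.l 476)) (T.l 476))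 (T.l 476)) (T.l 1024)) (T.l 1024)) (T.l 1024)) (T.l 1024)) (T.b (T.a (T.c (T.b (T.a (T.a (T.l 476) (T.l 476)) (T.a (T.l 476) (T.l 476))) (T.a (T.a (T.l 476) (T.l 476)) (T.c (T.l 476) (T.l 476)))) (T.a (T.a (T.l 476) (T.l 476)) (T.a (T.l 476) (T.l 476)))) (T.c (T.b (T.a (T.a (T.l 476) (T.l 476)) (T.a (T.l 476) (T.l 476))) (T.a (T.c (T.l 476) (T.l 476)) (T.c (T.l 1024) (T.l 476)))) (T.a (T.a (T.l 476) (T.l 476)) (T.a (T.l 476) (T.l 476))))) (T.a (T.a (T.a (T.l 476) (T.l 476)) (T.a (T.l 476) (T.l 476))) (T.a (T.a (T.l 476) (T.l 476)) (T.a (T.l 476) (T.l 476)))))) (T.c (T.l 1024) (T.b (T.a (T.c (T.a (T.a (T.c (T.l 1024) (T.l 476)) (T.l 1024)) (T.l 1024)) (T.a (T.a (T.l 476) (T.l 476)) (T.a (T.l 476) (T.l 476)))) (T.c (T.l 1024) (T.a (T.a (T.l 476) (T.l 476)) (T.a (T.l 476) (T.l 476))))) (T.a (T.a (T.c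 (T.l 476) (T.l 476)) (T.c (T.l 1024) (T.l 476))) (T.c (T.l 1024) (T.a (T.l 476) (T.l 476))))))) (T.a (T.c (T.a (T.a (T.a (T.c (T.l 476) (T.l 460)) (T.l 1024)) (T.l 1024)) (T.l 1024)) (T.b (T.a (T.a (T.c (T.l 460) (T.l 460)) (T.c (T.l 460) (T.l 460))) (T.a (T.c (T.l 460) (T.l 460)) (T.l 476))) (T.a (T.a (T.l 460) (T.l 460)) (T.a (T.l 460) (T.l 460))))) (T.c (T.l 1024) (T.a (T.a (T.c (T.l 476) (T.l 476)) (T.c (T.l 1024) (T.l 476))) (T.c (T.l 1024) (T.a (T.l 476) (T.l 476))))))) (T.b (T.a (T.c (T.b (T.a (T.c (T.a (T.a (T.l 476) (T.l 476)) (T.c (T.l 476) (T.l 476))) (T.a (T.c (T.l 476) (T.l 476)) (T.l 476))) (T.c (T.a (T.c (T.l 476) (T.l 476)) (T.c (T.l 476) (T.l 476))) (T.a (T.l 476) (T.l 476)))) (T.a (T.a (T.c (T.l 476) (T.l 476)) (T.c (T.l 476) (T.l 460))) (T.a (T.l 476) (T.l 476)))) (T.b (T.a (T.a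 (T.c (T.l 476) (T.l 476)) (T.l 476)) (T.a (T.l 476) (T.l 476))) (T.a (T.a (T.l 476) (T.l 460)) (T.a (T.l 460) (T.l 476))))) (T.c (T.b (T.a (T.c (T.a (T.c (T.l 476) (T.l 476)) (T.c (T.l 476) (T.l 476))) (T.a (T.l 476) (T.l 476))) (T.c (T.a (T.c (T.l 476) (T.l 476)) (T.c (T.l 476) (T.l 476))) (T.a (T.l 476) (T.l 476)))) (T.a (T.a (T.l 476) (T.l 476)) (T.a (T.l 476) (T.l 476)))) (T.b (T.a (T.a (T.l 476) (T.l 476)) (T.a (T.l 476) (T.l 476))) (T.a (T.a (T.l 476) (T.l 476)) (T.a (T.l 476) (T.l 476)))))) (T.a (T.c (T.b (T.a (T.a (T.l 460) (T.l 460)) (T.a (T.l 460) (T.l 460))) (T.a (T.a (T.l 460) (T.l 460)) (T.a (T.l 460) (T.l 460)))) (T.b (T.a (T.a (T.l 460) (T.l 460)) (T.a (T.l 460) (T.l 460))) (T.a (T.a (T.l 204) (T.l 204)) (T.a (T.l 204) (T.l 204))))) (T.c (T.a (T.a (T.l 476) (T.l 476)) (T.a (T.l 476)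 (T.l 476))) (T.a (T.a (T.l 460) (T.l 460)) (T.a (T.l 460) (T.l 460)))))))), by decide +kernel⟩

def A012R_022_3_65_1 :
    ∃ t, chk3 (onCell 0 67108864 0 1073741824 67108864 67108864 (corTK [[⟨0, 0, 1, 33554432⟩, ⟨1, 1, 2, 33554432⟩, ⟨2, 1, 0, 16777216⟩, ⟨0, 0, 0, 150994944⟩, ⟨0, 1, 0, 1023410176⟩, ⟨1, 0, 0, 1023410176⟩, ⟨1, 1, 0, 150994944⟩]] true 1 c0F cA012R gF0q0 gF2q1 gF2q2 gF3q2 true false)) t 3 65 1 = true :=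
  ⟨(T.a (T.c (T.a (T.a (T.c (T.a (T.l 460) (T.l 460)) (T.c (T.l 460) (T.l 460))) (T.c (T.c (T.l 460) (T.l 460)) (T.b (T.l 460) (T.l 460)))) (T.a (T.c (T.a (T.l 460) (T.l 460)) (T.c (T.l 460) (T.l 460))) (T.c (T.c (T.l 460) (T.l 460)) (T.c (T.l 460) (T.l 460))))) (T.a (T.a (T.c (T.l 460) (T.l 460)) (T.c (T.l 460) (T.l 204))) (T.a (T.a (T.l 460) (T.l 460)) (T.c (T.l 460) (T.l 460))))) (T.c (T.b (T.a (T.c (T.a (T.a (T.c (T.l 460) (T.l 460)) (T.l 1024)) (T.l 1024)) (T.a (T.a (T.l 460) (T.l 460)) (T.a (T.l 460) (T.l 460)))) (T.c (T.l 1024) (T.a (T.a (T.l 460) (T.l 460)) (T.c (T.l 1024) (T.l 460))))) (T.a (T.a (T.a (T.c (T.l 460) (T.l 460)) (T.c (T.l 1024) (T.l 460))) (T.c (T.l 1024) (T.c (T.l 460) (T.l 460)))) (T.c (T.l 1024) (T.a (T.c (T.l 460) (T.l 460)) (T.c (T.l 1024) (T.l 460)))))) (T.b (T.a (T.c (T.a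 (T.a (T.l 460) (T.l 460)) (T.a (T.l 460) (T.l 460))) (T.a (T.a (T.l 204) (T.l 204)) (T.a (T.l 204) (T.l 204)))) (T.a (T.a (T.l 460) (T.l 460)) (T.a (T.l 460) (T.l 460)))) (T.a (T.a (T.a (T.l 460) (T.l 460)) (T.a (T.l 460) (T.l 460))) (T.a (T.c (T.l 460) (T.l 460)) (T.c (T.l 460) (T.l 460))))))), by decide +kernel⟩

def A012R_022_3_33_1 :
    ∃ t, chk3 (onCell 0 67108864 0 1073741824 67108864 67108864 (corTK [[⟨0, 0, 1, 33554432⟩, ⟨1, 1, 2, 33554432⟩, ⟨2, 1, 0, 16777216⟩, ⟨0, 0, 0, 150994944⟩, ⟨0, 1, 0, 1023410176⟩, ⟨1, 0, 0, 1023410176⟩, ⟨1, 1, 0, 150994944⟩]] true 1 c0F cA012R gF0q0 gF2q1 gF2q2 gF3q2 true false)) t 3 33 1 = true :=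
  ⟨(T.a (T.b (T.c (T.a (T.a (T.c (T.l 460) (T.l 460)) (T.c (T.l 460) (T.l 204))) (T.a (T.c (T.l 460) (T.l 460)) (T.c (T.l 460) (T.l 460)))) (T.a (T.a (T.l 460) (T.l 460)) (T.a (T.c (T.l 204) (T.l 204)) (T.l 460)))) (T.a (T.a (T.c (T.l 460) (T.l 204)) (T.c (T.l 460) (T.l 204))) (T.a (T.c (T.c (T.l 460) (T.l 204)) (T.l 460)) (T.c (T.l 460) (T.l 204))))) (T.b (T.c (T.a (T.a (T.a (T.c (T.l 460) (T.l 460)) (T.c (T.l 460) (T.l 460))) (T.c (T.l 1024) (T.a (T.l 460) (T.l 460)))) (T.c (T.l 1024) (T.a (T.b (T.l 460) (T.l 460)) (T.b (T.l 460) (T.l 460))))) (T.a (T.a (T.a (T.c (T.l 460) (T.l 204)) (T.l 460)) (T.a (T.l 460) (T.l 460))) (T.a (T.a (T.l 460) (T.l 460)) (T.c (T.l 460) (T.l 460))))) (T.a (T.c (T.a (T.a (T.l 460) (T.l 460)) (T.c (T.l 1024) (T.l 460))) (T.a (T.a (T.l 204) (T.l 460)) (T.c (T.l 460) (T.l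 460)))) (T.a (T.c (T.c (T.l 1024) (T.l 460)) (T.c (T.l 460) (T.l 460))) (T.c (T.c (T.l 1024) (T.l 460)) (T.l 460)))))), by decide +kernel⟩

def A012R_022_1_17_1 :
    ∃ t, chk3 (onCell 0 67108864 0 1073741824 67108864 67108864 (corTK [[⟨0, 0, 1, 33554432⟩, ⟨1, 1, 2, 33554432⟩, ⟨2, 1, 0, 16777216⟩, ⟨0, 0, 0, 150994944⟩, ⟨0, 1, 0, 1023410176⟩, ⟨1, 0, 0, 1023410176⟩, ⟨1, 1, 0, 150994944⟩]] true 1 c0F cA012R gF0q0 gF2q1 gF2q2 gF3q2 true false)) t 1 17 1 = true :=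
  ⟨(T.a (T.a (T.l 204) (T.b (T.a (T.c (T.a (T.c (T.l 460) (T.l 460)) (T.c (T.l 460) (T.l 204))) (T.a (T.b (T.l 460) (T.l 204)) (T.b (T.l 204) (T.l 204)))) (T.a (T.c (T.b (T.l 460) (T.l 204)) (T.l 460)) (T.c (T.b (T.l 460) (T.l 204)) (T.l 204)))) (T.a (T.a (T.a (T.l 204) (T.l 204)) (T.c (T.l 460) (T.l 204))) (T.a (T.c (T.l 460) (T.l 204)) (T.c (T.l 204) (T.l 204)))))) (T.b (T.a (T.b (T.a (T.a (T.c (T.l 460) (T.l 204)) (T.c (T.l 460) (T.l 204))) (T.a (T.c (T.l 460) (T.l 204)) (T.c (T.l 460) (T.l 204)))) (T.a (T.a (T.c (T.l 204) (T.l 204)) (T.l 460)) (T.c (T.c (T.l 460) (T.l 460)) (T.c (T.l 204) (T.l 204))))) (T.b (T.a (T.a (T.a (T.l 460) (T.c (T.l 460) (T.l 204))) (T.c (T.c (T.l 460) (T.l 460)) (T.c (T.l 460) (T.l 460)))) (T.a (T.c (T.c (T.l 1024) (T.l 460)) (T.l 460)) (T.c (T.c (T.l 1024) (T.l 460))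 (T.l 460)))) (T.a (T.a (T.c (T.l 460) (T.l 204)) (T.c (T.c (T.l 460) (T.l 460)) (T.l 460))) (T.a (T.c (T.c (T.l 1024) (T.l 460)) (T.l 460)) (T.c (T.l 460) (T.l 460)))))) (T.a (T.a (T.c (T.c (T.l 460) (T.l 460)) (T.b (T.l 460) (T.l 204))) (T.c (T.c (T.l 460) (T.l 460)) (T.b (T.l 460) (T.l 460)))) (T.b (T.a (T.a (T.l 460) (T.a (T.l 460) (T.l 460))) (T.a (T.c (T.l 460) (T.l 204)) (T.c (T.l 460) (T.l 204)))) (T.a (T.a (T.l 460) (T.c (T.l 460) (T.l 204))) (T.a (T.c (T.l 460) (T.l 204)) (T.c (T.l 460) (T.l 204)))))))), by decide +kernel⟩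

def A012R_022_1_9_1 :
    ∃ t, chk3 (onCell 0 67108864 0 1073741824 67108864 67108864 (corTK [[⟨0, 0, 1, 33554432⟩, ⟨1, 1, 2, 33554432⟩, ⟨2, 1, 0, 16777216⟩, ⟨0, 0, 0, 150994944⟩, ⟨0, 1, 0, 1023410176⟩, ⟨1, 0, 0, 1023410176⟩, ⟨1, 1, 0, 150994944⟩]] true 1 c0F cA012R gF0q0 gF2q1 gF2q2 gF3q2 true false)) t 1 9 1 = true :=
  ⟨(T.a (T.a (T.l 460) (T.b (T.a (T.b (T.a (T.c (T.l 204) (T.l 204)) (T.c (T.l 204) (T.l 204))) (T.a (T.c (T.l 204) (T.l 204)) (T.c (T.l 204) (T.l 204)))) (T.a (T.c (T.l 460) (T.l 204)) (T.c (T.l 460) (T.l 204)))) (T.a (T.a (T.b (T.l 204) (T.l 204)) (T.b (T.l 204) (T.l 204))) (T.a (T.b (T.l 204) (T.l 204)) (T.b (T.l 204) (T.l 204)))))) (T.b (T.a (T.a (T.c (T.a (T.l 460) (T.l 460)) (T.b (T.l 204) (T.l 204))) (T.c (T.c (T.l 460) (T.l 460)) (T.b (T.l 460) (T.l 204)))) (T.b (T.a (T.a (T.l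 460) (T.c (T.b (T.l 460) (T.l 460)) (T.l 460))) (T.a (T.c (T.b (T.l 460) (T.l 460)) (T.l 460)) (T.c (T.l 460) (T.l 460)))) (T.a (T.c (T.l 460) (T.l 204)) (T.a (T.c (T.l 460) (T.l 460)) (T.c (T.l 460) (T.l 204)))))) (T.a (T.a (T.a (T.l 460) (T.l 460)) (T.c (T.b (T.l 460) (T.l 204)) (T.l 204))) (T.a (T.c (T.l 460) (T.l 204)) (T.a (T.b (T.c (T.l 460) (T.l 204)) (T.l 204)) (T.b (T.c (T.l 460) (T.l 204)) (T.c (T.l 460) (T.l 204)))))))), by decide +kernel⟩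

def A012R_022_1_5_1 :
    ∃ t, chk3 (onCell 0 67108864 0 1073741824 67108864 67108864 (corTK [[⟨0, 0, 1, 33554432⟩, ⟨1, 1, 2, 33554432⟩, ⟨2, 1, 0, 16777216⟩, ⟨0, 0, 0, 150994944⟩, ⟨0, 1, 0, 1023410176⟩, ⟨1, 0, 0, 1023410176⟩, ⟨1, 1, 0, 150994944⟩]] true 1 c0F cA012R gF0q0 gF2q1 gF2q2 gF3q2 true false)) t 1 5 1 = true :=
  ⟨(T.a (T.a (T.b (T.l 204) (T.l 0)) (T.b (T.b (T.a (T.a (T.l 204) (T.b (T.l 204) (T.l 204))) (T.a (T.l 204) (T.l 204))) (T.a (T.a (T.l 204) (T.l 204)) (T.b (T.l 460) (T.l 256)))) (T.a (T.l 0) (T.b (T.b (T.l 0) (T.l 0)) (T.c (T.l 64) (T.l 0)))))) (T.b (T.a (T.a (T.b (T.b (T.l 460) (T.l 204)) (T.b (T.l 204) (T.l 204))) (T.b (T.c (T.l 460) (T.l 204)) (T.c (T.l 460) (T.l 204)))) (T.b (T.a (T.c (T.l 460) (T.l 204)) (T.a (T.l 460) (T.b (T.c (T.l 460) (T.l 204)) (T.l 204)))) (T.a (T.b (T.l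 460) (T.l 204)) (T.b (T.l 460) (T.l 204))))) (T.a (T.a (T.b (T.b (T.l 0) (T.l 0)) (T.b (T.l 0) (T.l 0))) (T.b (T.b (T.l 256) (T.l 0)) (T.b (T.l 0) (T.l 880)))) (T.a (T.c (T.b (T.l 0) (T.l 0)) (T.l 320)) (T.c (T.b (T.l 0) (T.l 0)) (T.l 64)))))), by decide +kernel⟩

def A012R_022_2_3_1 :
    ∃ t, chk3 (onCell 0 67108864 0 1073741824 67108864 67108864 (corTK [[⟨0, 0, 1, 33554432⟩, ⟨1, 1, 2, 33554432⟩, ⟨2, 1, 0, 16777216⟩, ⟨0, 0, 0, 150994944⟩, ⟨0, 1, 0, 1023410176⟩, ⟨1, 0, 0, 1023410176⟩, ⟨1, 1, 0, 150994944⟩]] true 1 c0F cA012R gF0q0 gF2q1 gF2q2 gF3q2 true false)) t 2 3 1 = true :=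
  ⟨(T.b (T.a (T.b (T.l 816) (T.l 816)) (T.b (T.a (T.l 816) (T.a (T.l 880) (T.b (T.l 816) (T.l 816)))) (T.a (T.a (T.l 816) (T.b (T.l 816) (T.l 816))) (T.c (T.b (T.l 816) (T.l 880)) (T.b (T.l 816) (T.l 816)))))) (T.a (T.b (T.b (T.l 816) (T.l 816)) (T.b (T.b (T.l 816) (T.l 816)) (T.a (T.c (T.l 816) (T.l 816)) (T.a (T.b (T.l 816) (T.l 880)) (T.a (T.b (T.l 816) (T.l 816)) (T.c (T.b (T.l 816) (T.b (T.l 816) (T.l 816))) (T.l 816))))))) (T.a (T.b (T.a (T.c (T.b (T.l 816) (T.l 816)) (T.l 880)) (T.c (T.b (T.l 816) (T.l 880)) (T.l 880))) (T.a (T.b (T.c (T.c (T.l 880) (T.l 816)) (T.l 816)) (T.c (T.b (T.c (T.l 880) (T.l 816)) (T.c (T.a (T.l 816) (T.l 880)) (T.b (T.l 816) (T.l 816)))) (T.a (T.l 816) (T.l 816)))) (T.b (T.c (T.a (T.l 880) (T.l 880)) (T.l 816)) (T.c (T.b (T.a (T.l 880) (T.l 880)) (T.c (T.a (T.b (T.l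 816) (T.l 816)) (T.b (T.l 816) (T.l 880))) (T.a (T.l 816) (T.l 816)))) (T.a (T.l 816) (T.b (T.l 816) (T.l 816))))))) (T.b (T.b (T.a (T.b (T.l 816) (T.l 816)) (T.l 880)) (T.c (T.a (T.l 880) (T.l 880)) (T.b (T.l 816) (T.l 880)))) (T.b (T.a (T.c (T.c (T.l 880) (T.l 816)) (T.l 816)) (T.c (T.b (T.l 816) (T.l 880)) (T.l 880))) (T.a (T.c (T.b (T.a (T.l 880) (T.l 880)) (T.c (T.a (T.c (T.l 880) (T.l 816)) (T.b (T.l 816) (T.b (T.l 816) (T.l 880)))) (T.a (T.l 816) (T.l 816)))) (T.b (T.l 816) (T.c (T.l 880) (T.l 816)))) (T.c (T.b (T.a (T.l 880) (T.l 880)) (T.c (T.b (T.c (T.l 880) (T.l 880)) (T.a (T.c (T.l 880) (T.l 816)) (T.c (T.l 880) (T.l 816)))) (T.a (T.l 816) (T.l 880)))) (T.b (T.l 880) (T.c (T.l 880) (T.l 816)))))))))), by decide +kernel⟩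

def A012R_022_3_6_1 :
    ∃ t, chk3 (onCell 0 67108864 0 1073741824 67108864 67108864 (corTK [[⟨0, 0, 1, 33554432⟩, ⟨1, 1, 2, 33554432⟩, ⟨2, 1, 0, 16777216⟩, ⟨0, 0, 0, 150994944⟩, ⟨0, 1, 0, 1023410176⟩, ⟨1, 0, 0, 1023410176⟩, ⟨1, 1, 0, 150994944⟩]] true 1 c0F cA012R gF0q0 gF2q1 gF2q2 gF3q2 true false)) t 3 6 1 = true :=
  ⟨(T.a (T.b (T.a (T.b (T.b (T.l 816) (T.l 880)) (T.a (T.l 880) (T.l 880))) (T.b (T.b (T.l 880) (T.l 880)) (T.c (T.l 880) (T.l 816)))) (T.a (T.b (T.l 880) (T.b (T.l 880) (T.l 880))) (T.b (T.c (T.b (T.l 880) (T.l 880)) (T.l 880)) (T.c (T.l 880) (T.l 816))))) (T.b (T.a (T.b (T.b (T.l 816) (T.l 880)) (T.b (T.l 880) (T.l 880))) (T.b (T.b (T.l 816) (T.l 880)) (T.b (T.l 880) (T.l 880)))) (T.b (T.a (T.c (T.l 880) (T.l 880)) (T.b (T.l 880) (T.l 880))) (T.a (T.c (T.b (T.l 880) (T.l 880)) (T.l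 880)) (T.b (T.l 880) (T.a (T.l 880) (T.a (T.l 880) (T.c (T.l 880) (T.l 816))))))))), by decide +kernel⟩

def A012R_022_3_7_1 :
    ∃ t, chk3 (onCell 0 67108864 0 1073741824 67108864 67108864 (corTK [[⟨0, 0, 1, 33554432⟩, ⟨1, 1, 2, 33554432⟩, ⟨2, 1, 0, 16777216⟩, ⟨0, 0, 0, 150994944⟩, ⟨0, 1, 0, 1023410176⟩, ⟨1, 0, 0, 1023410176⟩, ⟨1, 1, 0, 150994944⟩]] true 1 c0F cA012R gF0q0 gF2q1 gF2q2 gF3q2 true false)) t 3 7 1 = true :=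
  ⟨(T.a (T.a (T.b (T.b (T.c (T.l 880) (T.l 816)) (T.c (T.b (T.l 880) (T.l 880)) (T.l 880))) (T.b (T.c (T.a (T.b (T.l 880) (T.l 880)) (T.b (T.l 880) (T.l 880))) (T.a (T.l 880) (T.l 880))) (T.c (T.a (T.b (T.c (T.l 880) (T.l 880)) (T.c (T.b (T.b (T.l 880) (T.l 880)) (T.a (T.c (T.l 880) (T.l 880)) (T.c (T.l 880) (T.l 880)))) (T.a (T.l 880) (T.l 880)))) (T.b (T.c (T.l 880) (T.l 880)) (T.c (T.b (T.b (T.l 880) (T.l 880)) (T.c (T.a (T.l 880) (T.l 880)) (T.a (T.l 880) (T.l 880)))) (T.b (T.l 880) (T.a (T.l 880) (T.l 880)))))) (T.a (T.b (T.l 880) (T.c (T.b (T.l 816) (T.l 880)) (T.l 816))) (T.b (T.l 880) (T.c (T.b (T.l 816) (T.l 880)) (T.l 880))))))) (T.b (T.c (T.b (T.b (T.l 880) (T.l 880)) (T.c (T.l 880) (T.l 880))) (T.a (T.l 880) (T.l 880))) (T.b (T.c (T.a (T.c (T.l 880) (T.l 880)) (T.b (T.l 880) (T.l 880)))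 (T.a (T.b (T.l 816) (T.l 880)) (T.l 880))) (T.a (T.c (T.b (T.c (T.l 880) (T.l 880)) (T.c (T.b (T.c (T.l 880) (T.l 880)) (T.a (T.b (T.l 880) (T.l 880)) (T.c (T.l 880) (T.l 880)))) (T.a (T.b (T.l 816) (T.l 880)) (T.c (T.l 880) (T.l 880))))) (T.b (T.b (T.l 880) (T.l 880)) (T.c (T.a (T.l 880) (T.l 880)) (T.c (T.l 880) (T.l 880))))) (T.a (T.c (T.b (T.l 880) (T.c (T.b (T.l 880) (T.b (T.l 880) (T.l 880))) (T.b (T.l 880) (T.l 880)))) (T.b (T.l 880) (T.c (T.l 880) (T.l 880)))) (T.b (T.c (T.l 880) (T.l 880)) (T.b (T.c (T.c (T.l 880) (T.l 880)) (T.l 880)) (T.a (T.c (T.c (T.l 880) (T.l 880)) (T.l 880)) (T.c (T.b (T.l 880) (T.a (T.l 880) (T.c (T.l 880) (T.l 880)))) (T.b (T.l 880) (T.a (T.l 880) (T.l 880)))))))))))) (T.b (T.a (T.b (T.c (T.l 880) (T.l 880)) (T.a (T.b (T.l 880) (T.l 880)) (T.b (T.l 880) (T.a (T.l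 880) (T.b (T.l 880) (T.c (T.l 880) (T.l 816))))))) (T.b (T.a (T.b (T.l 880) (T.a (T.l 816) (T.c (T.l 880) (T.l 880)))) (T.b (T.a (T.c (T.l 880) (T.l 880)) (T.c (T.l 880) (T.l 880))) (T.a (T.c (T.l 880) (T.l 880)) (T.c (T.l 880) (T.l 880))))) (T.a (T.b (T.a (T.c (T.l 880) (T.l 880)) (T.c (T.l 880) (T.l 880))) (T.a (T.b (T.l 880) (T.l 880)) (T.c (T.l 880) (T.l 880)))) (T.b (T.a (T.c (T.l 880) (T.l 880)) (T.c (T.l 880) (T.l 880))) (T.a (T.c (T.l 880) (T.l 880)) (T.c (T.l 880) (T.l 880))))))) (T.a (T.b (T.a (T.b (T.c (T.l 880) (T.l 816)) (T.a (T.c (T.l 880) (T.l 816)) (T.b (T.l 880) (T.a (T.l 880) (T.c (T.l 880) (T.l 816)))))) (T.b (T.a (T.b (T.c (T.l 880) (T.l 880)) (T.c (T.l 880) (T.l 880))) (T.b (T.c (T.l 880) (T.l 880)) (T.c (T.l 880) (T.l 880)))) (T.a (T.b (T.c (T.l 880) (T.l 880)) (T.c (T.c (T.l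 880) (T.l 880)) (T.l 880))) (T.b (T.c (T.l 880) (T.l 880)) (T.c (T.l 880) (T.l 880)))))) (T.a (T.a (T.b (T.b (T.c (T.l 880) (T.l 816)) (T.a (T.c (T.l 880) (T.l 816)) (T.c (T.c (T.l 880) (T.l 880)) (T.l 880)))) (T.b (T.c (T.a (T.b (T.l 880) (T.c (T.l 880) (T.l 880))) (T.b (T.l 880) (T.c (T.l 880) (T.l 880)))) (T.a (T.c (T.l 880) (T.l 880)) (T.c (T.l 880) (T.l 880)))) (T.a (T.c (T.b (T.c (T.l 880) (T.l 880)) (T.c (T.b (T.l 880) (T.l 880)) (T.b (T.l 880) (T.l 880)))) (T.b (T.c (T.l 880) (T.l 880)) (T.a (T.l 880) (T.l 880)))) (T.c (T.b (T.c (T.l 880) (T.l 880)) (T.c (T.c (T.l 880) (T.l 880)) (T.c (T.l 880) (T.l 880)))) (T.b (T.l 880) (T.c (T.l 880) (T.l 880))))))) (T.b (T.b (T.c (T.a (T.l 880) (T.l 880)) (T.c (T.l 880) (T.l 880))) (T.c (T.a (T.c (T.l 880) (T.l 880)) (T.l 880)) (T.a (T.l 880) (T.l 880))))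 (T.b (T.c (T.a (T.c (T.l 880) (T.l 880)) (T.c (T.l 880) (T.l 880))) (T.a (T.c (T.l 880) (T.l 880)) (T.c (T.l 880) (T.l 880)))) (T.c (T.a (T.b (T.c (T.l 880) (T.l 880)) (T.c (T.c (T.l 880) (T.l 880)) (T.c (T.l 880) (T.l 880)))) (T.b (T.c (T.l 880) (T.l 880)) (T.a (T.c (T.l 880) (T.l 880)) (T.l 880)))) (T.a (T.b (T.l 880) (T.c (T.l 880) (T.l 880))) (T.b (T.l 880) (T.c (T.l 880) (T.l 880)))))))) (T.b (T.a (T.b (T.c (T.c (T.l 880) (T.l 880)) (T.c (T.l 880) (T.l 880))) (T.c (T.a (T.l 880) (T.l 880)) (T.b (T.l 880) (T.l 880)))) (T.b (T.c (T.c (T.l 880) (T.l 880)) (T.c (T.l 880) (T.l 880))) (T.c (T.a (T.l 880) (T.l 880)) (T.b (T.l 880) (T.l 880))))) (T.a (T.b (T.c (T.a (T.c (T.l 880) (T.l 880)) (T.c (T.l 880) (T.l 880))) (T.a (T.c (T.l 880) (T.l 880)) (T.c (T.l 880) (T.l 880)))) (T.c (T.a (T.b (T.c (T.l 880)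 (T.l 880)) (T.c (T.l 880) (T.l 880))) (T.b (T.c (T.l 880) (T.l 880)) (T.c (T.l 880) (T.l 880)))) (T.a (T.b (T.l 880) (T.c (T.l 880) (T.l 880))) (T.b (T.l 880) (T.c (T.l 880) (T.l 880)))))) (T.b (T.c (T.a (T.c (T.l 880) (T.l 880)) (T.c (T.l 880) (T.l 880))) (T.a (T.c (T.l 880) (T.l 880)) (T.l 880))) (T.c (T.a (T.b (T.l 880) (T.c (T.l 880) (T.l 880))) (T.b (T.l 880) (T.c (T.l 880) (T.l 880)))) (T.a (T.c (T.b (T.l 880) (T.l 880)) (T.l 880)) (T.c (T.b (T.l 880) (T.l 880)) (T.l 880))))))))) (T.b (T.a (T.b (T.a (T.b (T.c (T.l 880) (T.l 816)) (T.c (T.l 880) (T.l 880))) (T.c (T.b (T.l 880) (T.l 880)) (T.l 880))) (T.a (T.b (T.c (T.l 880) (T.l 880)) (T.c (T.l 880) (T.l 880))) (T.b (T.c (T.l 880) (T.l 880)) (T.c (T.l 880) (T.l 880))))) (T.b (T.a (T.b (T.l 880) (T.l 880)) (T.b (T.l 880) (T.l 880))) (T.a (T.b (T.c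 (T.l 880) (T.l 880)) (T.c (T.l 880) (T.l 880))) (T.b (T.c (T.l 880) (T.l 880)) (T.c (T.l 880) (T.l 880)))))) (T.a (T.b (T.a (T.b (T.c (T.c (T.l 880) (T.l 880)) (T.l 880)) (T.c (T.b (T.l 880) (T.l 880)) (T.c (T.l 880) (T.l 880)))) (T.b (T.c (T.c (T.l 880) (T.l 880)) (T.l 880)) (T.c (T.c (T.l 880) (T.l 880)) (T.c (T.l 880) (T.l 880))))) (T.a (T.b (T.c (T.a (T.c (T.l 880) (T.l 880)) (T.c (T.l 880) (T.l 880))) (T.a (T.l 880) (T.l 880))) (T.c (T.a (T.b (T.l 880) (T.c (T.l 880) (T.l 880))) (T.b (T.l 880) (T.c (T.l 880) (T.l 880)))) (T.a (T.c (T.b (T.l 880) (T.l 880)) (T.l 880)) (T.c (T.b (T.l 880) (T.l 880)) (T.l 880))))) (T.b (T.c (T.a (T.l 880) (T.l 880)) (T.a (T.l 880) (T.l 880))) (T.c (T.a (T.b (T.l 880) (T.c (T.l 880) (T.l 880))) (T.b (T.l 880) (T.l 880))) (T.a (T.c (T.b (T.l 880) (T.l 880)) (T.l 880))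 (T.b (T.l 880) (T.l 880))))))) (T.b (T.a (T.b (T.c (T.l 880) (T.l 880)) (T.c (T.c (T.l 880) (T.l 880)) (T.c (T.l 880) (T.l 880)))) (T.b (T.c (T.l 880) (T.l 880)) (T.c (T.c (T.l 880) (T.l 880)) (T.l 880)))) (T.a (T.b (T.c (T.a (T.l 880) (T.l 880)) (T.a (T.l 880) (T.l 880))) (T.c (T.a (T.b (T.l 880) (T.l 880)) (T.c (T.l 880) (T.l 880))) (T.a (T.c (T.l 880) (T.l 880)) (T.c (T.l 880) (T.l 880))))) (T.b (T.c (T.b (T.l 880) (T.l 880)) (T.b (T.l 880) (T.l 880))) (T.c (T.a (T.c (T.l 880) (T.l 880)) (T.c (T.l 880) (T.l 880))) (T.a (T.c (T.l 880) (T.l 880)) (T.c (T.l 880) (T.l 880)))))))))))), by decide +kernel⟩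

theorem A012R_022_3_3_1 :
    ∃ t, chk3 (onCell 0 67108864 0 1073741824 67108864 67108864 (corTK [[⟨0, 0, 1, 33554432⟩, ⟨1, 1, 2, 33554432⟩, ⟨2, 1, 0, 16777216⟩, ⟨0, 0, 0, 150994944⟩, ⟨0, 1, 0, 1023410176⟩, ⟨1, 0, 0, 1023410176⟩, ⟨1, 1, 0, 150994944⟩]] true 1 c0F cA012R gF0q0 gF2q1 gF2q2 gF3q2 true false)) t 3 3 1 = true :=
  ex3_b A012R_022_3_6_1 A012R_022_3_7_1
theorem A012R_022_1_3_1 :
    ∃ t, chk3 (onCell 0 67108864 0 1073741824 67108864 67108864 (corTK [[⟨0, 0, 1, 33554432⟩, ⟨1, 1, 2, 33554432⟩, ⟨2, 1, 0, 16777216⟩, ⟨0, 0, 0, 150994944⟩, ⟨0, 1, 0, 1023410176⟩, ⟨1, 0, 0, 1023410176⟩, ⟨1, 1, 0, 150994944⟩]] true 1 c0F cA012R gF0q0 gF2q1 gF2q2 gF3q2 true false)) t 1 3 1 = true :=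
  ex3_a A012R_022_2_3_1 A012R_022_3_3_1
theorem A012R_022_3_32_1 :
    ∃ t, chk3 (onCell 0 67108864 0 1073741824 67108864 67108864 (corTK [[⟨0, 0, 1, 33554432⟩, ⟨1, 1, 2, 33554432⟩, ⟨2, 1, 0, 16777216⟩, ⟨0, 0, 0, 150994944⟩, ⟨0, 1, 0, 1023410176⟩, ⟨1, 0, 0, 1023410176⟩, ⟨1, 1, 0, 150994944⟩]] true 1 c0F cA012R gF0q0 gF2q1 gF2q2 gF3q2 true false)) t 3 32 1 = true :=
  ex3_b A012R_022_3_64_1 A012R_022_3_65_1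
theorem A012R_022_3_16_1 :
    ∃ t, chk3 (onCell 0 67108864 0 1073741824 67108864 67108864 (corTK [[⟨0, 0, 1, 33554432⟩, ⟨1, 1, 2, 33554432⟩, ⟨2, 1, 0, 16777216⟩, ⟨0, 0, 0, 150994944⟩, ⟨0, 1, 0, 1023410176⟩, ⟨1, 0, 0, 1023410176⟩, ⟨1, 1, 0, 150994944⟩]] true 1 c0F cA012R gF0q0 gF2q1 gF2q2 gF3q2 true false)) t 3 16 1 = true :=
  ex3_b A012R_022_3_32_1 A012R_022_3_33_1
theorem A012R_022_1_16_1 :
    ∃ t, chk3 (onCell 0 67108864 0 1073741824 67108864 67108864 (corTK [[⟨0, 0, 1, 33554432⟩, ⟨1, 1, 2, 33554432⟩, ⟨2, 1, 0, 16777216⟩, ⟨0, 0, 0, 150994944⟩, ⟨0, 1, 0, 1023410176⟩, ⟨1, 0, 0, 1023410176⟩, ⟨1, 1, 0, 150994944⟩]] true 1 c0F cA012R gF0q0 gF2q1 gF2q2 gF3q2 true false)) t 1 16 1 = true :=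
  ex3_a A012R_022_2_16_1 A012R_022_3_16_1
theorem A012R_022_1_8_1 :
    ∃ t, chk3 (onCell 0 67108864 0 1073741824 67108864 67108864 (corTK [[⟨0, 0, 1, 33554432⟩, ⟨1, 1, 2, 33554432⟩, ⟨2, 1, 0, 16777216⟩, ⟨0, 0, 0, 150994944⟩, ⟨0, 1, 0, 1023410176⟩, ⟨1, 0, 0, 1023410176⟩, ⟨1, 1, 0, 150994944⟩]] true 1 c0F cA012R gF0q0 gF2q1 gF2q2 gF3q2 true false)) t 1 8 1 = true :=
  ex3_b A012R_022_1_16_1 A012R_022_1_17_1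
theorem A012R_022_1_4_1 :
    ∃ t, chk3 (onCell 0 67108864 0 1073741824 67108864 67108864 (corTK [[⟨0, 0, 1, 33554432⟩, ⟨1, 1, 2, 33554432⟩, ⟨2, 1, 0, 16777216⟩, ⟨0, 0, 0, 150994944⟩, ⟨0, 1, 0, 1023410176⟩, ⟨1, 0, 0, 1023410176⟩, ⟨1, 1, 0, 150994944⟩]] true 1 c0F cA012R gF0q0 gF2q1 gF2q2 gF3q2 true false)) t 1 4 1 = true :=
  ex3_b A012R_022_1_8_1 A012R_022_1_9_1
theorem A012R_022_1_2_1 :
    ∃ t, chk3 (onCell 0 67108864 0 1073741824 67108864 67108864 (corTK [[⟨0, 0, 1, 33554432⟩, ⟨1, 1, 2, 33554432⟩, ⟨2, 1, 0, 16777216⟩, ⟨0, 0, 0, 150994944⟩, ⟨0, 1, 0, 1023410176⟩, ⟨1, 0, 0, 1023410176⟩, ⟨1, 1, 0, 150994944⟩]] true 1 c0F cA012R gF0q0 gF2q1 gF2q2 gF3q2 true false)) t 1 2 1 = true :=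
  ex3_b A012R_022_1_4_1 A012R_022_1_5_1
theorem A012R_022 :
    ∃ t, chk3 (onCell 0 67108864 0 1073741824 67108864 67108864 (corTK [[⟨0, 0, 1, 33554432⟩, ⟨1, 1, 2, 33554432⟩, ⟨2, 1, 0, 16777216⟩, ⟨0, 0, 0, 150994944⟩, ⟨0, 1, 0, 1023410176⟩, ⟨1, 0, 0, 1023410176⟩, ⟨1, 1, 0, 150994944⟩]] true 1 c0F cA012R gF0q0 gF2q1 gF2q2 gF3q2 true false)) t 1 1 1 = true :=
  ex3_b A012R_022_1_2_1 A012R_022_1_3_1

def A012R_030 :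
    ∃ t, chk3 (onCell 0 67108864 0 1073741824 67108864 67108864 (corTK [] true 1 c0F cA012R gF0q0 gF3q1 gF0q2 gF1q2 true true)) t 1 1 1 = true :=
  ⟨(T.l 2), by decide +kernel⟩

def A012R_031 :
    ∃ t, chk3 (onCell 0 67108864 0 1073741824 67108864 67108864 (corTK [] true 1 c0F cA012R gF0q0 gF3q1 gF1q2 gF2q2 true true)) t 1 1 1 = true :=
  ⟨(T.b (T.l 2) (T.b (T.l 2) (T.b (T.l 2) (T.b (T.l 2) (T.a (T.b (T.l 2) (T.a (T.b (T.l 2) (T.a (T.l 816) (T.l 2))) (T.l 2))) (T.l 2)))))), by decide +kernel⟩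

end Pool.Agent.Strip051.G.I1_16_1_8.Tab.CF
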