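import Pool.Agent.Strip051.G.I1_16_1_8.Gn
import Pool.Agent.Strip051.PB.Corns
import Pool.Agent.Strip051.PB.CornK

/-! # Certificates of the aligned corners (generated) -/

set_option linter.all false

namespace Pool.Agent.Strip051.G.I1_16_1_8.Tab.CF

open Pool.Agent.Strip051.PB

def A012R_032_1_2_1 :
    ∃ t, chk3 (onCell 0 67108864 0 1073741824 67108864 67108864 (corTK [] true 1 c0F cA012R gF0q0 gF3q1 gF2q2 gF3q2 true false)) t 1 2 1 = true :=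
  ⟨(T.b (T.b (T.a (T.a (T.a (T.l 0) (T.a (T.l 0) (T.b (T.b (T.l 204) (T.l 0)) (T.l 0)))) (T.a (T.a (T.b (T.l 0) (T.l 0)) (T.b (T.l 0) (T.l 0))) (T.b (T.c (T.l 0) (T.l 0)) (T.b (T.l 0) (T.l 0))))) (T.a (T.a (T.b (T.c (T.l 0) (T.l 0)) (T.l 64)) (T.c (T.b (T.b (T.l 0) (T.l 0)) (T.l 816)) (T.l 0))) (T.a (T.c (T.b (T.b (T.l 4) (T.l 816)) (T.l 816)) (T.l 4)) (T.c (T.b (T.c (T.l 820) (T.l 816)) (T.l 880)) (T.l 4))))) (T.a (T.a (T.l 816) (T.a (T.a (T.b (T.l 816) (T.l 816)) (T.b (T.l 816) (T.l 816))) (T.a (T.l 880) (T.l 880)))) (T.a (T.a (T.b (T.l 880) (T.l 880)) (T.c (T.l 880) (T.l 816))) (T.a (T.b (T.l 880) (T.l 880)) (T.b (T.l 880) (T.b (T.l 880) (T.l 880))))))) (T.b (T.a (T.a (T.l 816) (T.a (T.a (T.l 816) (T.b (T.l 816) (T.l 816))) (T.c (T.b (T.l 816) (T.l 816)) (T.l 816)))) (T.a (T.a (T.b (T.l 880) (T.l 880)) (T.b (T.b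 (T.l 880) (T.l 880)) (T.b (T.l 880) (T.l 880)))) (T.a (T.c (T.b (T.l 880) (T.l 880)) (T.l 880)) (T.c (T.b (T.l 880) (T.l 880)) (T.l 880))))) (T.a (T.a (T.l 816) (T.a (T.l 880) (T.b (T.b (T.l 880) (T.l 880)) (T.a (T.l 816) (T.l 880))))) (T.a (T.a (T.b (T.b (T.l 880) (T.l 880)) (T.b (T.l 880) (T.l 880))) (T.b (T.c (T.l 880) (T.l 816)) (T.c (T.l 880) (T.l 816)))) (T.a (T.b (T.b (T.l 880) (T.l 880)) (T.b (T.l 880) (T.l 880))) (T.c (T.b (T.l 880) (T.l 880)) (T.l 880))))))), by decide +kernel⟩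

def A012R_032_1_6_1 :
    ∃ t, chk3 (onCell 0 67108864 0 1073741824 67108864 67108864 (corTK [] true 1 c0F cA012R gF0q0 gF3q1 gF2q2 gF3q2 true false)) t 1 6 1 = true :=
  ⟨(T.b (T.a (T.a (T.l 816) (T.a (T.b (T.l 816) (T.l 880)) (T.b (T.a (T.l 816) (T.l 880)) (T.c (T.l 880) (T.l 816))))) (T.a (T.a (T.b (T.c (T.l 880) (T.l 816)) (T.c (T.b (T.l 880) (T.l 880)) (T.l 880))) (T.b (T.c (T.l 880) (T.l 880)) (T.c (T.b (T.l 880) (T.l 880)) (T.l 880)))) (T.a (T.b (T.b (T.l 880) (T.l 880)) (T.c (T.l 880) (T.l 880))) (T.b (T.b (T.l 880) (T.l 880)) (T.b (T.l 880) (T.l 880)))))) (T.a (T.a (T.l 880) (T.a (T.a (T.l 816) (T.b (T.l 880) (T.b (T.l 816) (T.l 880)))) (T.c (T.b (T.l 880) (T.b (T.l 880) (T.l 880))) (T.b (T.l 816) (T.l 880))))) (T.a (T.a (T.c (T.b (T.l 880) (T.l 880)) (T.b (T.l 816) (T.l 816))) (T.b (T.c (T.b (T.l 880)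 (T.l 880)) (T.l 880)) (T.c (T.l 880) (T.l 880)))) (T.b (T.a (T.c (T.b (T.l 880) (T.l 880)) (T.l 880)) (T.b (T.l 880) (T.l 880))) (T.a (T.c (T.b (T.l 880) (T.l 880)) (T.l 880)) (T.a (T.b (T.l 880) (T.l 880)) (T.b (T.l 880) (T.a (T.l 880) (T.c (T.l 880) (T.l 880)))))))))), by decide +kernel⟩

def A012R_032_1_14_1 :
    ∃ t, chk3 (onCell 0 67108864 0 1073741824 67108864 67108864 (corTK [] true 1 c0F cA012R gF0q0 gF3q1 gF2q2 gF3q2 true false)) t 1 14 1 = true :=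
  ⟨(T.a (T.a (T.b (T.l 816) (T.l 880)) (T.a (T.a (T.c (T.b (T.l 816) (T.b (T.l 816) (T.l 816))) (T.b (T.l 816) (T.l 816))) (T.c (T.b (T.l 880) (T.b (T.l 816) (T.l 880))) (T.b (T.l 816) (T.l 816)))) (T.b (T.c (T.a (T.l 880) (T.l 880)) (T.b (T.l 816) (T.l 880))) (T.c (T.a (T.b (T.l 816) (T.l 880)) (T.b (T.l 816) (T.l 880))) (T.a (T.l 816) (T.l 816)))))) (T.a (T.a (T.b (T.c (T.b (T.l 880) (T.l 880)) (T.l 880)) (T.c (T.a (T.l 880) (T.l 880)) (T.b (T.l 880) (T.l 880)))) (T.c (T.b (T.b (T.l 880) (T.l 880)) (T.a (T.l 880) (T.l 880))) (T.b (T.l 880) (T.c (T.l 880) (T.l 880))))) (T.b (T.a (T.c (T.l 880) (T.l 880)) (T.a (T.b (T.l 880) (T.a (T.l 880) (T.c (T.l 880) (T.l 880)))) (T.b (T.a (T.c (T.l 880) (T.l 880)) (T.c (T.l 880) (T.l 880))) (T.a (T.c (T.l 880) (T.l 880)) (T.c (T.l 880) (T.l 880)))))) (T.a (T.a (T.c (T.l 880)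 (T.l 880)) (T.b (T.l 880) (T.a (T.l 880) (T.b (T.c (T.l 880) (T.l 880)) (T.c (T.l 880) (T.l 880)))))) (T.a (T.b (T.a (T.b (T.l 880) (T.l 880)) (T.b (T.l 880) (T.l 880))) (T.a (T.b (T.c (T.l 880) (T.l 880)) (T.c (T.l 880) (T.l 880))) (T.c (T.b (T.l 880) (T.l 880)) (T.l 880)))) (T.b (T.a (T.c (T.l 880) (T.l 880)) (T.c (T.l 880) (T.l 880))) (T.a (T.b (T.l 880) (T.l 880)) (T.c (T.l 880) (T.l 880))))))))), by decide +kernel⟩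

def A012R_032_2_15_1 :
    ∃ t, chk3 (onCell 0 67108864 0 1073741824 67108864 67108864 (corTK [] true 1 c0F cA012R gF0q0 gF3q1 gF2q2 gF3q2 true false)) t 2 15 1 = true :=
  ⟨(T.a (T.b (T.b (T.l 816) (T.l 880)) (T.a (T.b (T.l 816) (T.l 880)) (T.a (T.b (T.l 816) (T.l 816)) (T.a (T.b (T.l 816) (T.l 816)) (T.c (T.b (T.l 816) (T.b (T.l 816) (T.l 816))) (T.l 816)))))) (T.a (T.a (T.b (T.c (T.b (T.l 880) (T.c (T.l 816) (T.l 816))) (T.l 816)) (T.c (T.c (T.b (T.b (T.l 816) (T.l 880)) (T.a (T.l 816) (T.l 816))) (T.a (T.l 816) (T.l 816))) (T.a (T.l 816) (T.l 816)))) (T.b (T.c (T.c (T.b (T.l 816) (T.l 880)) (T.l 880)) (T.l 880)) (T.c (T.c (T.b (T.a (T.l 816) (T.l 816)) (T.a (T.b (T.l 816) (T.l 816)) (T.b (T.l 816) (T.l 880)))) (T.a (T.l 816) (T.l 880))) (T.a (T.l 816) (T.l 880))))) (T.a (T.b (T.c (T.b (T.l 880) (T.c (T.l 880)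 (T.l 816))) (T.l 880)) (T.c (T.b (T.c (T.c (T.l 880) (T.l 880)) (T.l 880)) (T.c (T.a (T.c (T.l 880) (T.l 816)) (T.c (T.l 880) (T.l 816))) (T.a (T.l 816) (T.l 816)))) (T.b (T.l 880) (T.c (T.l 880) (T.l 816))))) (T.b (T.c (T.b (T.l 880) (T.b (T.l 880) (T.l 880))) (T.l 880)) (T.c (T.b (T.c (T.b (T.l 880) (T.l 880)) (T.l 880)) (T.c (T.a (T.b (T.l 880) (T.c (T.l 880) (T.l 816))) (T.b (T.l 880) (T.c (T.l 880) (T.l 816)))) (T.a (T.l 816) (T.l 880)))) (T.b (T.l 880) (T.c (T.l 880) (T.l 816)))))))), by decide +kernel⟩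

def A012R_032_3_15_1 :
    ∃ t, chk3 (onCell 0 67108864 0 1073741824 67108864 67108864 (corTK [] true 1 c0F cA012R gF0q0 gF3q1 gF2q2 gF3q2 true false)) t 3 15 1 = true :=
  ⟨(T.b (T.a (T.a (T.c (T.a (T.b (T.l 880) (T.b (T.l 880) (T.l 880))) (T.c (T.l 880) (T.l 880))) (T.a (T.l 880) (T.l 880))) (T.c (T.a (T.b (T.l 880) (T.c (T.l 880) (T.l 880))) (T.c (T.l 880) (T.l 880))) (T.a (T.b (T.l 880) (T.l 880)) (T.b (T.l 880) (T.l 880))))) (T.a (T.a (T.b (T.c (T.l 880) (T.l 880)) (T.a (T.c (T.l 880) (T.l 816)) (T.b (T.l 880) (T.a (T.l 880) (T.c (T.l 880) (T.l 880)))))) (T.b (T.a (T.b (T.c (T.l 880) (T.l 880)) (T.a (T.l 880) (T.l 880))) (T.b (T.c (T.l 880) (T.l 880)) (T.c (T.l 880) (T.l 880)))) (T.a (T.b (T.c (T.c (T.l 880) (T.l 880)) (T.l 880)) (T.c (T.b (T.l 880) (T.l 880)) (T.c (T.l 880) (T.l 880)))) (T.b (T.c (T.l 880)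 (T.l 880)) (T.c (T.c (T.l 880) (T.l 880)) (T.l 880)))))) (T.a (T.b (T.a (T.b (T.c (T.l 880) (T.l 880)) (T.c (T.l 880) (T.l 880))) (T.b (T.c (T.l 880) (T.l 880)) (T.c (T.l 880) (T.l 880)))) (T.a (T.b (T.c (T.l 880) (T.l 880)) (T.c (T.c (T.l 880) (T.l 880)) (T.l 880))) (T.b (T.c (T.l 880) (T.l 880)) (T.c (T.l 880) (T.l 880))))) (T.b (T.a (T.c (T.b (T.l 880) (T.l 880)) (T.b (T.l 880) (T.l 880))) (T.c (T.b (T.l 880) (T.l 880)) (T.l 880))) (T.a (T.b (T.c (T.l 880) (T.l 880)) (T.c (T.l 880) (T.l 880))) (T.b (T.c (T.l 880) (T.l 880)) (T.c (T.l 880) (T.l 880)))))))) (T.a (T.a (T.c (T.a (T.b (T.c (T.b (T.l 880) (T.l 880)) (T.l 880)) (T.c (T.b (T.c (T.l 880) (T.l 880)) (T.a (T.c (T.l 880) (T.l 880)) (T.c (T.l 880) (T.l 880)))) (T.a (T.l 880) (T.l 880)))) (T.b (T.c (T.b (T.l 880) (T.l 880)) (T.l 880)) (T.c (T.b (T.c (T.l 880)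 (T.l 880)) (T.a (T.c (T.l 880) (T.l 880)) (T.c (T.l 880) (T.l 880)))) (T.b (T.l 880) (T.c (T.l 880) (T.l 880)))))) (T.a (T.b (T.l 880) (T.a (T.l 880) (T.l 880))) (T.b (T.l 880) (T.c (T.b (T.l 816) (T.l 880)) (T.l 880))))) (T.a (T.c (T.b (T.c (T.b (T.l 880) (T.l 880)) (T.l 880)) (T.c (T.a (T.b (T.l 880) (T.b (T.l 880) (T.l 880))) (T.b (T.l 880) (T.c (T.l 880) (T.l 880)))) (T.a (T.b (T.l 880) (T.l 880)) (T.b (T.l 880) (T.l 880))))) (T.b (T.c (T.l 880) (T.l 880)) (T.c (T.a (T.l 880) (T.l 880)) (T.c (T.l 880) (T.l 880))))) (T.a (T.c (T.b (T.b (T.l 880) (T.l 880)) (T.c (T.b (T.l 880) (T.b (T.l 880) (T.l 880))) (T.b (T.l 880) (T.l 880)))) (T.b (T.l 880) (T.c (T.l 880) (T.l 880)))) (T.b (T.c (T.b (T.l 880) (T.l 880)) (T.l 880)) (T.b (T.c (T.c (T.l 880) (T.l 880)) (T.l 880)) (T.a (T.c (T.c (T.l 880) (T.l 880)) (T.l 880))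 (T.c (T.b (T.l 880) (T.a (T.l 880) (T.c (T.l 880) (T.l 880)))) (T.b (T.l 880) (T.a (T.l 880) (T.l 880)))))))))) (T.a (T.a (T.a (T.b (T.b (T.c (T.l 880) (T.l 816)) (T.a (T.c (T.l 880) (T.l 816)) (T.c (T.c (T.l 880) (T.l 880)) (T.l 880)))) (T.b (T.c (T.a (T.b (T.l 880) (T.c (T.l 880) (T.l 880))) (T.b (T.l 880) (T.c (T.l 880) (T.l 880)))) (T.a (T.c (T.l 880) (T.l 880)) (T.c (T.l 880) (T.l 880)))) (T.a (T.c (T.b (T.a (T.l 880) (T.l 880)) (T.c (T.b (T.l 880) (T.l 880)) (T.b (T.l 880) (T.l 880)))) (T.b (T.c (T.l 880) (T.l 880)) (T.a (T.l 880) (T.l 880)))) (T.c (T.b (T.c (T.l 880) (T.l 880)) (T.c (T.c (T.l 880) (T.l 880)) (T.c (T.l 880) (T.l 880)))) (T.b (T.c (T.l 880) (T.l 880)) (T.c (T.l 880) (T.l 880))))))) (T.b (T.b (T.c (T.a (T.l 880) (T.l 880)) (T.a (T.l 880) (T.l 880))) (T.c (T.a (T.c (T.l 880) (T.l 880)) (T.c (T.l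 880) (T.l 880))) (T.a (T.l 880) (T.l 880)))) (T.b (T.c (T.a (T.b (T.l 880) (T.c (T.l 880) (T.l 880))) (T.c (T.l 880) (T.l 880))) (T.a (T.c (T.l 880) (T.l 880)) (T.c (T.l 880) (T.l 880)))) (T.c (T.a (T.b (T.c (T.l 880) (T.l 880)) (T.c (T.c (T.l 880) (T.l 880)) (T.c (T.l 880) (T.l 880)))) (T.b (T.c (T.l 880) (T.l 880)) (T.a (T.c (T.l 880) (T.l 880)) (T.l 880)))) (T.a (T.b (T.l 880) (T.c (T.l 880) (T.l 880))) (T.b (T.l 880) (T.c (T.l 880) (T.l 880)))))))) (T.b (T.a (T.b (T.c (T.a (T.l 880) (T.l 880)) (T.c (T.l 880) (T.l 880))) (T.c (T.a (T.c (T.l 880) (T.l 880)) (T.l 880)) (T.a (T.l 880) (T.l 880)))) (T.b (T.c (T.b (T.l 880) (T.l 880)) (T.c (T.l 880) (T.l 880))) (T.c (T.a (T.l 880) (T.l 880)) (T.a (T.l 880) (T.l 880))))) (T.a (T.b (T.c (T.a (T.c (T.l 880) (T.l 880)) (T.c (T.l 880) (T.l 880))) (T.a (T.c (T.l 880) (T.l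 880)) (T.c (T.l 880) (T.l 880)))) (T.c (T.a (T.b (T.c (T.l 880) (T.l 880)) (T.c (T.l 880) (T.l 880))) (T.b (T.c (T.l 880) (T.l 880)) (T.c (T.l 880) (T.l 880)))) (T.a (T.b (T.l 880) (T.c (T.l 880) (T.l 880))) (T.b (T.l 880) (T.c (T.l 880) (T.l 880)))))) (T.b (T.c (T.a (T.c (T.l 880) (T.l 880)) (T.c (T.l 880) (T.l 880))) (T.a (T.c (T.l 880) (T.l 880)) (T.c (T.l 880) (T.l 880)))) (T.c (T.a (T.b (T.c (T.l 880) (T.l 880)) (T.c (T.l 880) (T.l 880))) (T.b (T.l 880) (T.c (T.l 880) (T.l 880)))) (T.a (T.c (T.b (T.l 880) (T.l 880)) (T.l 880)) (T.c (T.b (T.l 880) (T.l 880)) (T.l 880)))))))) (T.a (T.b (T.a (T.b (T.c (T.c (T.l 880) (T.l 880)) (T.c (T.l 880) (T.l 880))) (T.c (T.a (T.l 880) (T.l 880)) (T.b (T.l 880) (T.l 880)))) (T.b (T.c (T.c (T.l 880) (T.l 880)) (T.c (T.l 880) (T.l 880))) (T.c (T.b (T.l 880) (T.l 880)) (T.c (T.l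 880) (T.l 880))))) (T.a (T.b (T.c (T.a (T.c (T.l 880) (T.l 880)) (T.c (T.l 880) (T.l 880))) (T.a (T.c (T.l 880) (T.l 880)) (T.l 880))) (T.c (T.a (T.b (T.l 880) (T.c (T.l 880) (T.l 880))) (T.b (T.l 880) (T.c (T.l 880) (T.l 880)))) (T.a (T.c (T.b (T.l 880) (T.l 880)) (T.l 880)) (T.c (T.b (T.l 880) (T.l 880)) (T.l 880))))) (T.b (T.c (T.a (T.c (T.l 880) (T.l 880)) (T.l 880)) (T.a (T.l 880) (T.l 880))) (T.c (T.a (T.b (T.l 880) (T.c (T.l 880) (T.l 880))) (T.b (T.l 880) (T.l 880))) (T.a (T.b (T.l 880) (T.l 880)) (T.b (T.l 880) (T.l 880))))))) (T.b (T.a (T.b (T.c (T.c (T.l 880) (T.l 880)) (T.l 880)) (T.c (T.c (T.l 880) (T.l 880)) (T.c (T.l 880) (T.l 880)))) (T.b (T.c (T.l 880) (T.l 880)) (T.c (T.c (T.l 880) (T.l 880)) (T.c (T.l 880) (T.l 880))))) (T.a (T.b (T.c (T.a (T.l 880) (T.l 880)) (T.a (T.l 880) (T.l 880))) (T.c (T.a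 (T.b (T.l 880) (T.l 880)) (T.c (T.l 880) (T.l 880))) (T.a (T.c (T.l 880) (T.l 880)) (T.c (T.l 880) (T.l 880))))) (T.b (T.c (T.a (T.l 880) (T.l 880)) (T.a (T.l 880) (T.l 880))) (T.c (T.a (T.c (T.l 880) (T.l 880)) (T.c (T.l 880) (T.l 880))) (T.a (T.c (T.l 880) (T.l 880)) (T.c (T.l 880) (T.l 880))))))))))), by decide +kernel⟩

theorem A012R_032_1_15_1 :
    ∃ t, chk3 (onCell 0 67108864 0 1073741824 67108864 67108864 (corTK [] true 1 c0F cA012R gF0q0 gF3q1 gF2q2 gF3q2 true false)) t 1 15 1 = true :=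
  ex3_a A012R_032_2_15_1 A012R_032_3_15_1
theorem A012R_032_1_7_1 :
    ∃ t, chk3 (onCell 0 67108864 0 1073741824 67108864 67108864 (corTK [] true 1 c0F cA012R gF0q0 gF3q1 gF2q2 gF3q2 true false)) t 1 7 1 = true :=
  ex3_b A012R_032_1_14_1 A012R_032_1_15_1
theorem A012R_032_1_3_1 :
    ∃ t, chk3 (onCell 0 67108864 0 1073741824 67108864 67108864 (corTK [] true 1 c0F cA012R gF0q0 gF3q1 gF2q2 gF3q2 true false)) t 1 3 1 = true :=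
  ex3_b A012R_032_1_6_1 A012R_032_1_7_1
theorem A012R_032 :
    ∃ t, chk3 (onCell 0 67108864 0 1073741824 67108864 67108864 (corTK [] true 1 c0F cA012R gF0q0 gF3q1 gF2q2 gF3q2 true false)) t 1 1 1 = true :=
  ex3_b A012R_032_1_2_1 A012R_032_1_3_1

def A012R_040 :
    ∃ t, chk3 (onCell 0 67108864 0 1073741824 67108864 67108864 (corTK [] true 1 c0F cA012R gF0q0 gF4q1 gF0q2 gF1q2 true true)) t 1 1 1 = true :=
  ⟨(T.l 2), by decide +kernel⟩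

def A012R_041 :
    ∃ t, chk3 (onCell 0 67108864 0 1073741824 67108864 67108864 (corTK [] true 1 c0F cA012R gF0q0 gF4q1 gF1q2 gF2q2 true true)) t 1 1 1 = true :=
  ⟨(T.b (T.l 2) (T.b (T.l 2) (T.b (T.l 2) (T.b (T.l 2) (T.a (T.b (T.l 2) (T.a (T.b (T.l 2) (T.a (T.l 816) (T.l 2))) (T.l 2))) (T.l 2)))))), by decide +kernel⟩

def A012R_042_1_2_1 :
    ∃ t, chk3 (onCell 0 67108864 0 1073741824 67108864 67108864 (corTK [] true 1 c0F cA012R gF0q0 gF4q1 gF2q2 gF3q2 true false)) t 1 2 1 = true :=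
  ⟨(T.b (T.b (T.a (T.a (T.l 0) (T.a (T.b (T.l 0) (T.l 0)) (T.b (T.l 0) (T.l 0)))) (T.a (T.a (T.b (T.l 0) (T.l 0)) (T.b (T.b (T.l 0) (T.l 0)) (T.l 0))) (T.c (T.b (T.a (T.l 0) (T.l 0)) (T.l 0)) (T.b (T.l 0) (T.l 0))))) (T.a (T.a (T.l 0) (T.c (T.l 64) (T.l 0))) (T.a (T.a (T.l 0) (T.l 0)) (T.b (T.l 68) (T.b (T.l 816) (T.l 880)))))) (T.a (T.a (T.l 816) (T.a (T.b (T.l 816) (T.l 816)) (T.b (T.l 816) (T.b (T.l 816) (T.l 816))))) (T.a (T.b (T.a (T.l 816) (T.b (T.l 816) (T.l 816))) (T.a (T.b (T.l 816) (T.l 816)) (T.b (T.l 816) (T.l 816)))) (T.b (T.a (T.b (T.l 816) (T.l 816)) (T.b (T.l 816) (T.l 816))) (T.a (T.b (T.l 816) (T.l 880)) (T.b (T.l 816) (T.l 816))))))), by decide +kernel⟩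

def A012R_042_1_6_1 :
    ∃ t, chk3 (onCell 0 67108864 0 1073741824 67108864 67108864 (corTK [] true 1 c0F cA012R gF0q0 gF4q1 gF2q2 gF3q2 true false)) t 1 6 1 = true :=
  ⟨(T.b (T.a (T.a (T.l 816) (T.a (T.l 880) (T.b (T.l 880) (T.b (T.l 816) (T.l 816))))) (T.a (T.a (T.b (T.l 816) (T.l 880)) (T.b (T.l 880) (T.l 880))) (T.a (T.b (T.l 816) (T.l 880)) (T.b (T.l 880) (T.l 880))))) (T.b (T.a (T.a (T.l 816) (T.a (T.a (T.l 816) (T.l 816)) (T.b (T.l 880) (T.l 880)))) (T.a (T.a (T.l 880) (T.l 880)) (T.a (T.l 880) (T.l 880)))) (T.a (T.a (T.l 816) (T.a (T.a (T.l 816) (T.l 880)) (T.c (T.l 880) (T.l 816)))) (T.a (T.a (T.b (T.l 880) (T.l 880)) (T.b (T.l 880) (T.l 880))) (T.a (T.l 880) (T.a (T.l 880) (T.b (T.l 816) (T.b (T.l 816) (T.l 880))))))))), by decide +kernel⟩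

def A012R_042_1_14_1 :
    ∃ t, chk3 (onCell 0 67108864 0 1073741824 67108864 67108864 (corTK [] true 1 c0F cA012R gF0q0 gF4q1 gF2q2 gF3q2 true false)) t 1 14 1 = true :=
  ⟨(T.b (T.a (T.a (T.l 816) (T.a (T.a (T.b (T.l 816) (T.l 816)) (T.b (T.l 816) (T.l 880))) (T.a (T.b (T.l 816) (T.l 816)) (T.l 880)))) (T.a (T.a (T.c (T.l 880) (T.l 816)) (T.c (T.l 880) (T.l 880))) (T.a (T.b (T.l 880) (T.l 880)) (T.a (T.b (T.l 816) (T.a (T.l 816) (T.l 880))) (T.b (T.b (T.l 880) (T.l 880)) (T.a (T.l 880) (T.l 880))))))) (T.a (T.a (T.l 816) (T.a (T.a (T.c (T.l 880) (T.l 816)) (T.c (T.l 880) (T.l 816))) (T.a (T.c (T.l 880) (T.l 816)) (T.b (T.l 880) (T.l 880))))) (T.a (T.a (T.c (T.b (T.l 880) (T.l 880)) (T.l 880)) (T.c (T.c (T.l 880) (T.l 880)) (T.b (T.l 880) (T.l 880)))) (T.a (T.a (T.b (T.l 880) (T.l 880)) (T.b (T.l 880) (T.a (T.l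 880) (T.b (T.l 880) (T.l 880))))) (T.a (T.b (T.a (T.c (T.l 880) (T.l 880)) (T.c (T.l 880) (T.l 880))) (T.a (T.c (T.l 880) (T.l 880)) (T.c (T.l 880) (T.l 880)))) (T.b (T.a (T.l 880) (T.l 880)) (T.a (T.c (T.l 880) (T.l 880)) (T.c (T.l 880) (T.l 880))))))))), by decide +kernel⟩

def A012R_042_1_15_1 :
    ∃ t, chk3 (onCell 0 67108864 0 1073741824 67108864 67108864 (corTK [] true 1 c0F cA012R gF0q0 gF4q1 gF2q2 gF3q2 true false)) t 1 15 1 = true :=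
  ⟨(T.b (T.a (T.a (T.b (T.l 816) (T.l 816)) (T.a (T.a (T.c (T.a (T.l 816) (T.l 880)) (T.l 816)) (T.c (T.a (T.l 880) (T.l 880)) (T.l 880))) (T.a (T.c (T.c (T.l 880) (T.l 816)) (T.l 880)) (T.c (T.b (T.l 880) (T.l 880)) (T.l 880))))) (T.a (T.a (T.c (T.a (T.b (T.l 880) (T.l 880)) (T.b (T.l 816) (T.l 880))) (T.a (T.l 880) (T.l 880))) (T.c (T.a (T.b (T.l 880) (T.l 880)) (T.b (T.l 880) (T.l 880))) (T.a (T.b (T.l 816) (T.l 880)) (T.l 880)))) (T.a (T.a (T.b (T.c (T.l 880) (T.l 816)) (T.b (T.l 880) (T.a (T.l 880) (T.a (T.l 880) (T.l 880))))) (T.b (T.a (T.b (T.c (T.l 880) (T.l 880)) (T.c (T.l 880) (T.l 880))) (T.b (T.l 880) (T.c (T.l 880) (T.l 880)))) (T.a (T.b (T.c (T.l 880) (T.l 880)) (T.a (T.l 880) (T.l 880))) (T.b (T.c (T.l 880) (T.l 880)) (T.c (T.l 880) (T.l 880)))))) (T.a (T.b (T.a (T.b (T.l 880) (T.l 880)) (T.c (T.l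 880) (T.l 880))) (T.a (T.b (T.c (T.l 880) (T.l 880)) (T.c (T.l 880) (T.l 880))) (T.b (T.c (T.l 880) (T.l 880)) (T.c (T.l 880) (T.l 880))))) (T.b (T.a (T.c (T.l 880) (T.l 880)) (T.c (T.l 880) (T.l 880))) (T.a (T.b (T.l 880) (T.c (T.l 880) (T.l 880))) (T.b (T.l 880) (T.c (T.l 880) (T.l 880))))))))) (T.a (T.a (T.a (T.b (T.l 816) (T.l 880)) (T.a (T.b (T.l 816) (T.l 816)) (T.a (T.b (T.l 816) (T.l 816)) (T.c (T.b (T.l 816) (T.b (T.l 816) (T.l 816))) (T.l 816))))) (T.a (T.a (T.c (T.c (T.b (T.b (T.l 816) (T.l 816)) (T.a (T.l 816) (T.l 816))) (T.a (T.l 816) (T.l 816))) (T.a (T.l 816) (T.l 816))) (T.c (T.b (T.a (T.l 880) (T.l 880)) (T.c (T.a (T.b (T.l 816) (T.l 816)) (T.b (T.l 816) (T.l 880))) (T.a (T.l 816) (T.l 816)))) (T.a (T.l 816) (T.l 880)))) (T.a (T.c (T.b (T.a (T.l 880) (T.l 880)) (T.c (T.a (T.c (T.l 880) (T.l 816))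 (T.c (T.l 880) (T.l 816))) (T.a (T.l 816) (T.l 816)))) (T.b (T.l 880) (T.c (T.l 880) (T.l 816)))) (T.c (T.b (T.a (T.l 880) (T.l 880)) (T.c (T.b (T.c (T.l 880) (T.l 880)) (T.a (T.c (T.l 880) (T.l 816)) (T.c (T.l 880) (T.l 816)))) (T.a (T.l 816) (T.l 880)))) (T.b (T.l 880) (T.c (T.l 880) (T.l 816))))))) (T.b (T.a (T.a (T.c (T.a (T.c (T.l 880) (T.l 880)) (T.c (T.l 880) (T.l 880))) (T.a (T.l 880) (T.l 880))) (T.c (T.a (T.c (T.l 880) (T.l 880)) (T.c (T.l 880) (T.l 880))) (T.a (T.b (T.l 880) (T.l 880)) (T.b (T.l 880) (T.l 880))))) (T.a (T.a (T.a (T.b (T.l 880) (T.a (T.l 880) (T.c (T.l 880) (T.l 880)))) (T.b (T.c (T.b (T.l 880) (T.l 880)) (T.c (T.l 880) (T.l 880))) (T.c (T.a (T.l 880) (T.l 880)) (T.a (T.l 880) (T.l 880))))) (T.a (T.b (T.c (T.c (T.l 880) (T.l 880)) (T.c (T.l 880) (T.l 880))) (T.c (T.a (T.l 880) (T.l 880))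 (T.b (T.l 880) (T.l 880)))) (T.b (T.c (T.c (T.l 880) (T.l 880)) (T.l 880)) (T.c (T.b (T.l 880) (T.l 880)) (T.c (T.l 880) (T.l 880)))))) (T.a (T.a (T.b (T.c (T.l 880) (T.l 880)) (T.c (T.c (T.l 880) (T.l 880)) (T.c (T.l 880) (T.l 880)))) (T.b (T.c (T.l 880) (T.l 880)) (T.c (T.c (T.l 880) (T.l 880)) (T.c (T.l 880) (T.l 880))))) (T.a (T.b (T.c (T.l 880) (T.l 880)) (T.c (T.c (T.l 880) (T.l 880)) (T.c (T.l 880) (T.l 880)))) (T.b (T.c (T.l 880) (T.l 880)) (T.c (T.l 880) (T.l 880))))))) (T.a (T.a (T.c (T.a (T.c (T.b (T.b (T.l 880) (T.l 880)) (T.a (T.c (T.l 880) (T.l 880)) (T.c (T.l 880) (T.l 880)))) (T.a (T.l 880) (T.l 880))) (T.c (T.b (T.l 880) (T.a (T.c (T.l 880) (T.l 880)) (T.c (T.l 880) (T.l 880)))) (T.b (T.l 880) (T.c (T.l 880) (T.l 880))))) (T.a (T.a (T.l 880) (T.l 880)) (T.c (T.b (T.l 816) (T.l 880)) (T.l 880))))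 (T.a (T.c (T.c (T.b (T.c (T.l 880) (T.l 880)) (T.a (T.b (T.l 880) (T.l 880)) (T.c (T.l 880) (T.l 880)))) (T.a (T.b (T.l 816) (T.l 880)) (T.b (T.l 880) (T.l 880)))) (T.c (T.a (T.l 880) (T.l 880)) (T.c (T.l 880) (T.l 880)))) (T.a (T.c (T.c (T.b (T.l 880) (T.b (T.l 880) (T.l 880))) (T.b (T.l 880) (T.l 880))) (T.c (T.l 880) (T.l 880))) (T.b (T.c (T.l 880) (T.l 880)) (T.a (T.c (T.c (T.l 880) (T.l 880)) (T.l 880)) (T.c (T.b (T.l 880) (T.a (T.l 880) (T.c (T.l 880) (T.l 880)))) (T.b (T.l 880) (T.a (T.l 880) (T.l 880))))))))) (T.a (T.a (T.a (T.b (T.a (T.b (T.l 880) (T.c (T.c (T.l 880) (T.l 880)) (T.l 880))) (T.c (T.b (T.l 880) (T.l 880)) (T.c (T.l 880) (T.l 880)))) (T.a (T.c (T.b (T.c (T.l 880) (T.l 880)) (T.c (T.b (T.l 880) (T.l 880)) (T.b (T.l 880) (T.l 880)))) (T.b (T.c (T.l 880) (T.l 880)) (T.a (T.l 880) (T.l 880))))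 (T.c (T.b (T.c (T.l 880) (T.l 880)) (T.c (T.c (T.l 880) (T.l 880)) (T.c (T.l 880) (T.l 880)))) (T.b (T.l 880) (T.c (T.l 880) (T.l 880)))))) (T.b (T.c (T.a (T.c (T.l 880) (T.l 880)) (T.c (T.l 880) (T.l 880))) (T.a (T.c (T.l 880) (T.l 880)) (T.c (T.l 880) (T.l 880)))) (T.c (T.a (T.b (T.c (T.l 880) (T.l 880)) (T.c (T.c (T.l 880) (T.l 880)) (T.c (T.l 880) (T.l 880)))) (T.b (T.c (T.l 880) (T.l 880)) (T.a (T.l 880) (T.l 880)))) (T.a (T.b (T.l 880) (T.c (T.l 880) (T.l 880))) (T.b (T.l 880) (T.c (T.l 880) (T.l 880))))))) (T.a (T.b (T.c (T.a (T.c (T.l 880) (T.l 880)) (T.c (T.l 880) (T.l 880))) (T.a (T.c (T.l 880) (T.l 880)) (T.l 880))) (T.c (T.a (T.b (T.c (T.l 880) (T.l 880)) (T.c (T.l 880) (T.l 880))) (T.b (T.l 880) (T.c (T.l 880) (T.l 880)))) (T.a (T.b (T.l 880) (T.c (T.l 880) (T.l 880))) (T.b (T.l 880) (T.c (T.l 880) (T.l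 880)))))) (T.b (T.c (T.a (T.c (T.l 880) (T.l 880)) (T.c (T.l 880) (T.l 880))) (T.a (T.l 880) (T.l 880))) (T.c (T.a (T.b (T.l 880) (T.c (T.l 880) (T.l 880))) (T.b (T.l 880) (T.c (T.l 880) (T.l 880)))) (T.a (T.c (T.b (T.l 880) (T.l 880)) (T.l 880)) (T.c (T.b (T.l 880) (T.l 880)) (T.l 880))))))) (T.a (T.a (T.b (T.c (T.a (T.l 880) (T.l 880)) (T.a (T.l 880) (T.l 880))) (T.c (T.a (T.b (T.l 880) (T.c (T.l 880) (T.l 880))) (T.b (T.l 880) (T.c (T.l 880) (T.l 880)))) (T.a (T.c (T.b (T.l 880) (T.l 880)) (T.l 880)) (T.c (T.b (T.l 880) (T.l 880)) (T.l 880))))) (T.b (T.c (T.a (T.l 880) (T.l 880)) (T.a (T.l 880) (T.l 880))) (T.c (T.a (T.b (T.l 880) (T.c (T.l 880) (T.l 880))) (T.b (T.l 880) (T.l 880))) (T.a (T.b (T.l 880) (T.l 880)) (T.b (T.l 880) (T.l 880)))))) (T.a (T.b (T.c (T.b (T.l 880) (T.l 880)) (T.b (T.l 880) (T.l 880)))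 (T.c (T.a (T.b (T.l 880) (T.l 880)) (T.c (T.l 880) (T.l 880))) (T.a (T.c (T.l 880) (T.l 880)) (T.c (T.l 880) (T.l 880))))) (T.b (T.c (T.b (T.l 880) (T.l 880)) (T.b (T.l 880) (T.l 880))) (T.c (T.a (T.c (T.l 880) (T.l 880)) (T.c (T.l 880) (T.l 880))) (T.a (T.c (T.l 880) (T.l 880)) (T.c (T.l 880) (T.l 880)))))))))))), by decide +kernel⟩

theorem A012R_042_1_7_1 :
    ∃ t, chk3 (onCell 0 67108864 0 1073741824 67108864 67108864 (corTK [] true 1 c0F cA012R gF0q0 gF4q1 gF2q2 gF3q2 true false)) t 1 7 1 = true :=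
  ex3_b A012R_042_1_14_1 A012R_042_1_15_1
theorem A012R_042_1_3_1 :
    ∃ t, chk3 (onCell 0 67108864 0 1073741824 67108864 67108864 (corTK [] true 1 c0F cA012R gF0q0 gF4q1 gF2q2 gF3q2 true false)) t 1 3 1 = true :=
  ex3_b A012R_042_1_6_1 A012R_042_1_7_1
theorem A012R_042 :
    ∃ t, chk3 (onCell 0 67108864 0 1073741824 67108864 67108864 (corTK [] true 1 c0F cA012R gF0q0 gF4q1 gF2q2 gF3q2 true false)) t 1 1 1 = true :=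
  ex3_b A012R_042_1_2_1 A012R_042_1_3_1

def A012R_120 :
    ∃ t, chk3 (onCell 0 67108864 0 1073741824 67108864 67108864 (corTK [] true 1 c0F cA012R gF1q0 gF2q1 gF0q2 gF1q2 true true)) t 1 1 1 = true :=
  ⟨(T.b (T.b (T.l 1) (T.a (T.l 1) (T.b (T.l 1) (T.b (T.l 1) (T.l 0))))) (T.b (T.b (T.b (T.a (T.a (T.l 1) (T.l 816)) (T.l 0)) (T.a (T.a (T.a (T.l 816) (T.l 816)) (T.l 816)) (T.a (T.l 816) (T.l 816)))) (T.a (T.a (T.a (T.l 816) (T.l 0)) (T.b (T.l 816) (T.l 816))) (T.a (T.l 816) (T.l 816)))) (T.a (T.b (T.a (T.a (T.l 816) (T.l 0)) (T.b (T.l 816) (T.l 816))) (T.a (T.a (T.l 816) (T.l 0)) (T.a (T.l 816) (T.l 816)))) (T.b (T.a (T.l 816) (T.l 816)) (T.a (T.l 816) (T.l 816)))))), by decide +kernel⟩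

def A012R_121 :
    ∃ t, chk3 (onCell 0 67108864 0 1073741824 67108864 67108864 (corTK [] true 1 c0F cA012R gF1q0 gF2q1 gF1q2 gF2q2 true true)) t 1 1 1 = true :=
  ⟨(T.l 1), by decide +kernel⟩

def A012R_122 :
    ∃ t, chk3 (onCell 0 67108864 0 1073741824 67108864 67108864 (corTK [] true 1 c0F cA012R gF1q0 gF2q1 gF2q2 gF3q2 true false)) t 1 1 1 = true :=
  ⟨(T.l 1), by decide +kernel⟩

def A012R_130 :
    ∃ t, chk3 (onCell 0 67108864 0 1073741824 67108864 67108864 (corTK [] true 1 c0F cA012R gF1q0 gF3q1 gF0q2 gF1q2 true true)) t 1 1 1 = true :=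
  ⟨(T.b (T.b (T.l 1) (T.b (T.l 1) (T.b (T.a (T.l 1) (T.l 816)) (T.a (T.a (T.l 1) (T.l 816)) (T.l 816))))) (T.b (T.b (T.b (T.a (T.a (T.a (T.l 816) (T.l 816)) (T.l 816)) (T.l 816)) (T.a (T.a (T.a (T.l 816) (T.l 816)) (T.l 816)) (T.a (T.l 816) (T.l 816)))) (T.a (T.a (T.a (T.l 816) (T.l 0)) (T.b (T.l 816) (T.l 816))) (T.a (T.l 816) (T.l 816)))) (T.a (T.b (T.a (T.a (T.l 816) (T.l 0)) (T.b (T.l 816) (T.l 816))) (T.a (T.a (T.l 816) (T.l 0)) (T.a (T.l 816) (T.l 816)))) (T.b (T.a (T.l 816) (T.l 816)) (T.a (T.l 816) (T.l 816)))))), by decide +kernel⟩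

def A012R_131 :
    ∃ t, chk3 (onCell 0 67108864 0 1073741824 67108864 67108864 (corTK [] true 1 c0F cA012R gF1q0 gF3q1 gF1q2 gF2q2 true true)) t 1 1 1 = true :=
  ⟨(T.l 1), by decide +kernel⟩

def A012R_132 :
    ∃ t, chk3 (onCell 0 67108864 0 1073741824 67108864 67108864 (corTK [] true 1 c0F cA012R gF1q0 gF3q1 gF2q2 gF3q2 true false)) t 1 1 1 = true :=
  ⟨(T.l 1), by decide +kernel⟩

def A012R_140 :
    ∃ t, chk3 (onCell 0 67108864 0 1073741824 67108864 67108864 (corTK [] true 1 c0F cA012R gF1q0 gF4q1 gF0q2 gF1q2 true true)) t 1 1 1 = true :=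
  ⟨(T.b (T.b (T.l 1) (T.b (T.b (T.a (T.l 1) (T.l 816)) (T.a (T.a (T.a (T.l 1) (T.l 816)) (T.l 816)) (T.l 816))) (T.a (T.a (T.a (T.l 816) (T.l 816)) (T.l 0)) (T.b (T.l 816) (T.l 0))))) (T.a (T.b (T.b (T.a (T.a (T.l 816) (T.l 0)) (T.l 0)) (T.a (T.a (T.l 816) (T.l 0)) (T.b (T.l 816) (T.l 816)))) (T.a (T.a (T.l 816) (T.b (T.l 0) (T.l 0))) (T.a (T.b (T.l 816) (T.l 816)) (T.l 880)))) (T.b (T.a (T.b (T.l 816) (T.l 816)) (T.b (T.l 816) (T.l 816))) (T.a (T.b (T.l 816) (T.l 816)) (T.b (T.l 816) (T.l 816)))))), by decide +kernel⟩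

def A012R_141 :
    ∃ t, chk3 (onCell 0 67108864 0 1073741824 67108864 67108864 (corTK [] true 1 c0F cA012R gF1q0 gF4q1 gF1q2 gF2q2 true true)) t 1 1 1 = true :=
  ⟨(T.l 1), by decide +kernel⟩

def A012R_142 :
    ∃ t, chk3 (onCell 0 67108864 0 1073741824 67108864 67108864 (corTK [] true 1 c0F cA012R gF1q0 gF4q1 gF2q2 gF3q2 true false)) t 1 1 1 = true :=
  ⟨(T.l 1), by decide +kernel⟩

def A012R_220 :
    ∃ t, chk3 (onCell 0 67108864 0 1073741824 67108864 67108864 (corTK [] true 1 c0F cA012R gF2q0 gF2q1 gF0q2 gF1q2 true true)) t 1 1 1 = true :=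
  ⟨(T.b (T.l 1) (T.b (T.l 1) (T.b (T.a (T.l 1) (T.b (T.l 816) (T.l 816))) (T.a (T.a (T.a (T.l 816) (T.l 816)) (T.l 816)) (T.a (T.l 816) (T.l 816)))))), by decide +kernel⟩

def A012R_221 :
    ∃ t, chk3 (onCell 0 67108864 0 1073741824 67108864 67108864 (corTK [] true 1 c0F cA012R gF2q0 gF2q1 gF1q2 gF2q2 true true)) t 1 1 1 = true :=
  ⟨(T.l 1), by decide +kernel⟩

def A012R_222 :
    ∃ t, chk3 (onCell 0 67108864 0 1073741824 67108864 67108864 (corTK [] true 1 c0F cA012R gF2q0 gF2q1 gF2q2 gF3q2 true false)) t 1 1 1 = true :=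
  ⟨(T.l 1), by decide +kernel⟩

def A012R_230 :
    ∃ t, chk3 (onCell 0 67108864 0 1073741824 67108864 67108864 (corTK [] true 1 c0F cA012R gF2q0 gF3q1 gF0q2 gF1q2 true true)) t 1 1 1 = true :=
  ⟨(T.b (T.l 1) (T.b (T.l 1) (T.b (T.a (T.a (T.l 1) (T.l 816)) (T.b (T.l 816) (T.l 816))) (T.a (T.a (T.a (T.l 816) (T.l 816)) (T.l 816)) (T.b (T.l 816) (T.l 880)))))), by decide +kernel⟩

def A012R_231 :
    ∃ t, chk3 (onCell 0 67108864 0 1073741824 67108864 67108864 (corTK [] true 1 c0F cA012R gF2q0 gF3q1 gF1q2 gF2q2 true true)) t 1 1 1 = true :=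
  ⟨(T.l 1), by decide +kernel⟩

def A012R_232 :
    ∃ t, chk3 (onCell 0 67108864 0 1073741824 67108864 67108864 (corTK [] true 1 c0F cA012R gF2q0 gF3q1 gF2q2 gF3q2 true false)) t 1 1 1 = true :=
  ⟨(T.l 1), by decide +kernel⟩

def A012R_240 :
    ∃ t, chk3 (onCell 0 67108864 0 1073741824 67108864 67108864 (corTK [] true 1 c0F cA012R gF2q0 gF4q1 gF0q2 gF1q2 true true)) t 1 1 1 = true :=
  ⟨(T.b (T.l 1) (T.b (T.a (T.l 1) (T.b (T.l 1) (T.b (T.l 1) (T.l 816)))) (T.a (T.b (T.a (T.l 1) (T.l 816)) (T.a (T.a (T.l 816) (T.l 816)) (T.l 816))) (T.a (T.b (T.l 816) (T.l 816)) (T.l 816))))), by decide +kernel⟩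

def A012R_241 :
    ∃ t, chk3 (onCell 0 67108864 0 1073741824 67108864 67108864 (corTK [] true 1 c0F cA012R gF2q0 gF4q1 gF1q2 gF2q2 true true)) t 1 1 1 = true :=
  ⟨(T.l 1), by decide +kernel⟩

def A012R_242 :
    ∃ t, chk3 (onCell 0 67108864 0 1073741824 67108864 67108864 (corTK [] true 1 c0F cA012R gF2q0 gF4q1 gF2q2 gF3q2 true false)) t 1 1 1 = true :=
  ⟨(T.l 1), by decide +kernel⟩

def A022E_000 :
    ∃ t, chk3 (onCell 0 67108864 0 1073741824 67108864 67108864 (corTK [[⟨0, 0, 1, 33554432⟩, ⟨1, 1, 0, 8388608⟩, ⟨2, 1, 1, 33554432⟩, ⟨0, 0, 0, 150994944⟩, ⟨0, 1, 0, 1023410176⟩, ⟨2, 1, 0, 150994944⟩, ⟨2, 2, 0, 1023410176⟩]] true 1 c0F cA022E gF0q0 gF0q2 gF0q2 gF1q2 true true)) t 1 1 1 = true :=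
  ⟨(T.l 2), by decide +kernel⟩

def A022E_001_1_2_1 :
    ∃ t, chk3 (onCell 0 67108864 0 1073741824 67108864 67108864 (corTK [[⟨0, 0, 1, 33554432⟩, ⟨1, 1, 0, 8388608⟩, ⟨2, 1, 1, 33554432⟩, ⟨0, 0, 0, 150994944⟩, ⟨0, 1, 0, 1023410176⟩, ⟨2, 1, 0, 150994944⟩, ⟨2, 2, 0, 1023410176⟩]] true 1 c0F cA022E gF0q0 gF0q2 gF1q2 gF2q2 true true)) t 1 2 1 = true :=
  ⟨(T.l 2), by decide +kernel⟩

def A022E_001_1_6_1 :
    ∃ t, chk3 (onCell 0 67108864 0 1073741824 67108864 67108864 (corTK [[⟨0, 0, 1, 33554432⟩, ⟨1, 1, 0, 8388608⟩, ⟨2, 1, 1, 33554432⟩, ⟨0, 0, 0, 150994944⟩, ⟨0, 1, 0, 1023410176⟩, ⟨2, 1, 0, 150994944⟩, ⟨2, 2, 0, 1023410176⟩]] true 1 c0F cA022E gF0q0 gF0q2 gF1q2 gF2q2 true true)) t 1 6 1 = true :=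
  ⟨(T.l 2), by decide +kernel⟩

def A022E_001_1_14_1 :
    ∃ t, chk3 (onCell 0 67108864 0 1073741824 67108864 67108864 (corTK [[⟨0, 0, 1, 33554432⟩, ⟨1, 1, 0, 8388608⟩, ⟨2, 1, 1, 33554432⟩, ⟨0, 0, 0, 150994944⟩, ⟨0, 1, 0, 1023410176⟩, ⟨2, 1, 0, 150994944⟩, ⟨2, 2, 0, 1023410176⟩]] true 1 c0F cA022E gF0q0 gF0q2 gF1q2 gF2q2 true true)) t 1 14 1 = true :=
  ⟨(T.l 2), by decide +kernel⟩

def A022E_001_1_30_1 :
    ∃ t, chk3 (onCell 0 67108864 0 1073741824 67108864 67108864 (corTK [[⟨0, 0, 1, 33554432⟩, ⟨1, 1, 0, 8388608⟩, ⟨2, 1, 1, 33554432⟩, ⟨0, 0, 0, 150994944⟩, ⟨0, 1, 0, 1023410176⟩, ⟨2, 1, 0, 150994944⟩, ⟨2, 2, 0, 1023410176⟩]] true 1 c0F cA022E gF0q0 gF0q2 gF1q2 gF2q2 true true)) t 1 30 1 = true :=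
  ⟨(T.l 2), by decide +kernel⟩

def A022E_001_1_62_1 :
    ∃ t, chk3 (onCell 0 67108864 0 1073741824 67108864 67108864 (corTK [[⟨0, 0, 1, 33554432⟩, ⟨1, 1, 0, 8388608⟩, ⟨2, 1, 1, 33554432⟩, ⟨0, 0, 0, 150994944⟩, ⟨0, 1, 0, 1023410176⟩, ⟨2, 1, 0, 150994944⟩, ⟨2, 2, 0, 1023410176⟩]] true 1 c0F cA022E gF0q0 gF0q2 gF1q2 gF2q2 true true)) t 1 62 1 = true :=
  ⟨(T.l 2), by decide +kernel⟩

def A022E_001_1_126_1 :
    ∃ t, chk3 (onCell 0 67108864 0 1073741824 67108864 67108864 (corTK [[⟨0, 0, 1, 33554432⟩, ⟨1, 1, 0, 8388608⟩, ⟨2, 1, 1, 33554432⟩, ⟨0, 0, 0, 150994944⟩, ⟨0, 1, 0, 1023410176⟩, ⟨2, 1, 0, 150994944⟩, ⟨2, 2, 0, 1023410176⟩]] true 1 c0F cA022E gF0q0 gF0q2 gF1q2 gF2q2 true true)) t 1 126 1 = true :=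
  ⟨(T.l 2), by decide +kernel⟩

def A022E_001_1_254_1 :
    ∃ t, chk3 (onCell 0 67108864 0 1073741824 67108864 67108864 (corTK [[⟨0, 0, 1, 33554432⟩, ⟨1, 1, 0, 8388608⟩, ⟨2, 1, 1, 33554432⟩, ⟨0, 0, 0, 150994944⟩, ⟨0, 1, 0, 1023410176⟩, ⟨2, 1, 0, 150994944⟩, ⟨2, 2, 0, 1023410176⟩]] true 1 c0F cA022E gF0q0 gF0q2 gF1q2 gF2q2 true true)) t 1 254 1 = true :=
  ⟨(T.l 2), by decide +kernel⟩

def A022E_001_1_510_1 :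
    ∃ t, chk3 (onCell 0 67108864 0 1073741824 67108864 67108864 (corTK [[⟨0, 0, 1, 33554432⟩, ⟨1, 1, 0, 8388608⟩, ⟨2, 1, 1, 33554432⟩, ⟨0, 0, 0, 150994944⟩, ⟨0, 1, 0, 1023410176⟩, ⟨2, 1, 0, 150994944⟩, ⟨2, 2, 0, 1023410176⟩]] true 1 c0F cA022E gF0q0 gF0q2 gF1q2 gF2q2 true true)) t 1 510 1 = true :=
  ⟨(T.l 2), by decide +kernel⟩

def A022E_001_2_511_1 :
    ∃ t, chk3 (onCell 0 67108864 0 1073741824 67108864 67108864 (corTK [[⟨0, 0, 1, 33554432⟩, ⟨1, 1, 0, 8388608⟩, ⟨2, 1, 1, 33554432⟩, ⟨0, 0, 0, 150994944⟩, ⟨0, 1, 0, 1023410176⟩, ⟨2, 1, 0, 150994944⟩, ⟨2, 2, 0, 1023410176⟩]] true 1 c0F cA022E gF0q0 gF0q2 gF1q2 gF2q2 true true)) t 2 511 1 = true :=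
  ⟨(T.c (T.b (T.l 2) (T.a (T.a (T.l 816) (T.a (T.l 816) (T.a (T.l 880) (T.c (T.a (T.l 816) (T.c (T.b (T.l 2) (T.c (T.a (T.l 880) (T.l 880)) (T.l 880))) (T.l 880))) (T.a (T.l 816) (T.l 816)))))) (T.c (T.b (T.l 2) (T.a (T.c (T.b (T.l 2) (T.a (T.c (T.b (T.l 2) (T.a (T.a (T.a (T.l 816) (T.l 816)) (T.l 880)) (T.a (T.l 880) (T.l 816)))) (T.b (T.l 2) (T.a (T.a (T.l 816) (T.l 816)) (T.a (T.l 816) (T.l 816))))) (T.c (T.b (T.l 2) (T.a (T.a (T.l 816) (T.l 816)) (T.a (T.l 816) (T.l 816)))) (T.b (T.l 2) (T.a (T.a (T.l 816) (T.l 816)) (T.a (T.l 816) (T.l 816))))))) (T.b (T.l 2) (T.a (T.c (T.b (T.l 2) (T.a (T.a (T.l 816) (T.l 816)) (T.a (T.l 816) (T.l 816)))) (T.a (T.a (T.l 816) (T.l 816)) (T.l 816))) (T.c (T.a (T.a (T.l 816) (T.l 816)) (T.l 880)) (T.a (T.l 816) (T.l 816)))))) (T.c (T.b (T.l 2) (T.a (T.c (T.b (T.l 2) (T.a (T.a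 (T.l 816) (T.l 816)) (T.a (T.l 816) (T.l 880)))) (T.a (T.l 880) (T.l 880))) (T.c (T.b (T.l 2) (T.a (T.a (T.l 880) (T.l 880)) (T.a (T.l 880) (T.l 880)))) (T.a (T.l 880) (T.l 880))))) (T.b (T.l 2) (T.a (T.a (T.c (T.l 880) (T.l 816)) (T.l 880)) (T.a (T.l 880) (T.l 880))))))) (T.b (T.l 2) (T.a (T.c (T.b (T.l 2) (T.a (T.a (T.c (T.l 816) (T.l 816)) (T.l 816)) (T.a (T.l 816) (T.l 816)))) (T.b (T.l 2) (T.a (T.a (T.l 816) (T.l 816)) (T.a (T.l 816) (T.l 816))))) (T.c (T.b (T.l 2) (T.a (T.a (T.l 816) (T.l 816)) (T.a (T.l 816) (T.l 816)))) (T.b (T.l 2) (T.a (T.a (T.l 816) (T.l 816)) (T.a (T.l 816) (T.l 816)))))))))) (T.b (T.l 2) (T.a (T.a (T.l 816) (T.a (T.l 816) (T.a (T.l 816) (T.a (T.l 816) (T.l 816))))) (T.c (T.b (T.l 2) (T.a (T.c (T.b (T.l 2) (T.a (T.a (T.l 816) (T.l 816)) (T.a (T.l 816) (T.l 816)))) (T.b (T.l 2) (T.a (T.a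 (T.l 816) (T.l 816)) (T.a (T.l 816) (T.l 816))))) (T.c (T.b (T.l 2) (T.a (T.a (T.l 816) (T.l 816)) (T.a (T.l 816) (T.l 816)))) (T.b (T.l 2) (T.a (T.a (T.l 816) (T.l 816)) (T.a (T.l 816) (T.l 816))))))) (T.b (T.l 2) (T.a (T.c (T.b (T.l 2) (T.a (T.a (T.l 816) (T.l 816)) (T.a (T.l 816) (T.l 816)))) (T.b (T.l 2) (T.a (T.a (T.l 816) (T.l 816)) (T.a (T.l 816) (T.l 816))))) (T.c (T.b (T.l 2) (T.a (T.a (T.l 816) (T.l 816)) (T.a (T.l 816) (T.l 816)))) (T.a (T.a (T.l 816) (T.l 816)) (T.l 816))))))))), by decide +kernel⟩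

def A022E_001_3_511_1 :
    ∃ t, chk3 (onCell 0 67108864 0 1073741824 67108864 67108864 (corTK [[⟨0, 0, 1, 33554432⟩, ⟨1, 1, 0, 8388608⟩, ⟨2, 1, 1, 33554432⟩, ⟨0, 0, 0, 150994944⟩, ⟨0, 1, 0, 1023410176⟩, ⟨2, 1, 0, 150994944⟩, ⟨2, 2, 0, 1023410176⟩]] true 1 c0F cA022E gF0q0 gF0q2 gF1q2 gF2q2 true true)) t 3 511 1 = true :=
  ⟨(T.c (T.b (T.l 2) (T.a (T.c (T.b (T.l 2) (T.a (T.c (T.b (T.l 2) (T.a (T.c (T.b (T.l 2) (T.a (T.a (T.l 880) (T.l 880)) (T.a (T.l 880) (T.l 880)))) (T.a (T.l 880) (T.l 880))) (T.c (T.b (T.l 2) (T.a (T.a (T.l 880) (T.l 880)) (T.a (T.l 884) (T.l 884)))) (T.b (T.l 2) (T.a (T.l 884) (T.a (T.l 880) (T.l 884))))))) (T.b (T.l 2) (T.a (T.a (T.l 880) (T.c (T.l 880) (T.l 880))) (T.c (T.a (T.l 880) (T.l 884)) (T.a (T.l 880) (T.l 884)))))) (T.c (T.b (T.l 2) (T.a (T.c (T.b (T.l 2) (T.a (T.a (T.l 884) (T.l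 884)) (T.a (T.l 884) (T.l 884)))) (T.b (T.l 2) (T.a (T.a (T.l 884) (T.l 884)) (T.a (T.l 884) (T.l 884))))) (T.c (T.b (T.l 2) (T.a (T.c (T.a (T.l 884) (T.l 884)) (T.a (T.l 884) (T.l 884))) (T.c (T.a (T.l 884) (T.a (T.l 884) (T.l 884))) (T.a (T.l 884) (T.a (T.l 884) (T.l 884)))))) (T.b (T.l 2) (T.a (T.a (T.l 884) (T.l 884)) (T.a (T.l 884) (T.a (T.l 884) (T.l 884)))))))) (T.b (T.l 2) (T.a (T.c (T.a (T.l 884) (T.a (T.l 884) (T.l 884))) (T.a (T.l 884) (T.a (T.l 884) (T.l 884)))) (T.c (T.b (T.l 2) (T.a (T.a (T.l 884) (T.l 884)) (T.a (T.l 884) (T.c (T.l 884) (T.l 884))))) (T.b (T.l 2) (T.a (T.a (T.l 884) (T.l 884)) (T.a (T.l 884) (T.l 884)))))))))) (T.b (T.l 2) (T.a (T.c (T.b (T.l 2) (T.a (T.a (T.l 880) (T.l 880)) (T.a (T.l 880) (T.l 884)))) (T.b (T.l 2) (T.a (T.a (T.l 816) (T.l 816)) (T.a (T.l 816) (T.l 880))))) (T.c (T.b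 (T.l 2) (T.a (T.a (T.l 884) (T.c (T.l 884) (T.l 884))) (T.c (T.a (T.l 884) (T.a (T.l 884) (T.l 884))) (T.a (T.l 884) (T.a (T.l 884) (T.l 884)))))) (T.b (T.l 2) (T.a (T.a (T.l 884) (T.l 884)) (T.a (T.l 884) (T.a (T.l 884) (T.l 884))))))))) (T.c (T.a (T.a (T.a (T.a (T.b (T.l 2) (T.a (T.c (T.c (T.l 884) (T.l 884)) (T.l 884)) (T.l 1024))) (T.l 1024)) (T.l 1024)) (T.l 1024)) (T.l 1024)) (T.b (T.l 2) (T.a (T.c (T.b (T.l 2) (T.a (T.c (T.b (T.l 2) (T.a (T.a (T.l 884) (T.l 884)) (T.a (T.l 884) (T.l 884)))) (T.b (T.l 2) (T.a (T.a (T.l 884) (T.l 884)) (T.a (T.l 884) (T.l 884))))) (T.c (T.a (T.a (T.l 884) (T.l 1024)) (T.l 1024)) (T.b (T.l 2) (T.a (T.a (T.l 884) (T.l 884)) (T.a (T.l 884) (T.l 884))))))) (T.b (T.l 2) (T.a (T.c (T.b (T.l 2) (T.a (T.a (T.l 884) (T.l 884)) (T.a (T.l 884) (T.l 884)))) (T.b (T.l 2) (T.a (T.a (T.l 884)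 (T.l 884)) (T.a (T.l 884) (T.l 884))))) (T.c (T.b (T.l 2) (T.a (T.a (T.l 884) (T.l 884)) (T.a (T.l 884) (T.l 884)))) (T.b (T.l 2) (T.a (T.a (T.l 884) (T.l 884)) (T.a (T.l 884) (T.l 884)))))))) (T.c (T.a (T.a (T.c (T.l 1024) (T.a (T.l 884) (T.l 1024))) (T.l 1024)) (T.l 1024)) (T.b (T.l 2) (T.a (T.c (T.b (T.l 2) (T.a (T.a (T.l 884) (T.l 884)) (T.a (T.l 884) (T.l 884)))) (T.b (T.l 2) (T.a (T.a (T.l 884) (T.l 884)) (T.a (T.l 884) (T.l 884))))) (T.c (T.a (T.a (T.l 884) (T.l 1024)) (T.l 1024)) (T.b (T.l 2) (T.a (T.a (T.l 884) (T.l 884)) (T.a (T.l 884) (T.l 884))))))))))))) (T.b (T.l 2) (T.a (T.c (T.b (T.l 2) (T.a (T.c (T.b (T.l 2) (T.a (T.a (T.l 816) (T.l 816)) (T.a (T.l 816) (T.l 816)))) (T.b (T.l 2) (T.a (T.a (T.l 816) (T.l 816)) (T.a (T.l 816) (T.l 816))))) (T.c (T.b (T.l 2) (T.a (T.a (T.l 880) (T.l 884)) (T.a (T.l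 884) (T.a (T.l 884) (T.l 884))))) (T.b (T.l 2) (T.a (T.a (T.l 816) (T.l 880)) (T.a (T.l 884) (T.c (T.l 884) (T.l 884)))))))) (T.b (T.l 2) (T.a (T.c (T.a (T.l 884) (T.l 884)) (T.a (T.l 816) (T.l 880))) (T.c (T.b (T.l 2) (T.a (T.a (T.l 816) (T.l 816)) (T.a (T.l 816) (T.l 884)))) (T.b (T.l 2) (T.a (T.a (T.l 816) (T.l 816)) (T.a (T.l 816) (T.l 884)))))))) (T.c (T.b (T.l 2) (T.a (T.c (T.b (T.l 2) (T.a (T.c (T.a (T.a (T.l 884) (T.l 884)) (T.l 884)) (T.a (T.l 884) (T.l 884))) (T.c (T.a (T.l 884) (T.l 884)) (T.a (T.l 884) (T.l 884))))) (T.b (T.l 2) (T.a (T.a (T.c (T.l 884) (T.l 884)) (T.l 884)) (T.a (T.l 884) (T.l 884))))) (T.c (T.b (T.l 2) (T.a (T.c (T.a (T.l 884) (T.l 884)) (T.a (T.l 884) (T.l 884))) (T.c (T.a (T.l 884) (T.a (T.l 884) (T.l 884))) (T.a (T.l 884) (T.l 884))))) (T.b (T.l 2) (T.a (T.a (T.l 884) (T.l 884))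 (T.a (T.l 884) (T.l 884))))))) (T.b (T.l 2) (T.a (T.c (T.b (T.l 2) (T.a (T.a (T.l 884) (T.l 884)) (T.a (T.l 884) (T.l 884)))) (T.b (T.l 2) (T.a (T.a (T.l 884) (T.l 884)) (T.a (T.l 884) (T.l 884))))) (T.c (T.b (T.l 2) (T.a (T.a (T.l 884) (T.l 884)) (T.a (T.l 884) (T.l 884)))) (T.b (T.l 2) (T.a (T.a (T.l 884) (T.l 884)) (T.a (T.l 884) (T.l 884))))))))))), by decide +kernel⟩

theorem A022E_001_1_511_1 :
    ∃ t, chk3 (onCell 0 67108864 0 1073741824 67108864 67108864 (corTK [[⟨0, 0, 1, 33554432⟩, ⟨1, 1, 0, 8388608⟩, ⟨2, 1, 1, 33554432⟩, ⟨0, 0, 0, 150994944⟩, ⟨0, 1, 0, 1023410176⟩, ⟨2, 1, 0, 150994944⟩, ⟨2, 2, 0, 1023410176⟩]] true 1 c0F cA022E gF0q0 gF0q2 gF1q2 gF2q2 true true)) t 1 511 1 = true :=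
  ex3_a A022E_001_2_511_1 A022E_001_3_511_1
theorem A022E_001_1_255_1 :
    ∃ t, chk3 (onCell 0 67108864 0 1073741824 67108864 67108864 (corTK [[⟨0, 0, 1, 33554432⟩, ⟨1, 1, 0, 8388608⟩, ⟨2, 1, 1, 33554432⟩, ⟨0, 0, 0, 150994944⟩, ⟨0, 1, 0, 1023410176⟩, ⟨2, 1, 0, 150994944⟩, ⟨2, 2, 0, 1023410176⟩]] true 1 c0F cA022E gF0q0 gF0q2 gF1q2 gF2q2 true true)) t 1 255 1 = true :=
  ex3_b A022E_001_1_510_1 A022E_001_1_511_1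
theorem A022E_001_1_127_1 :
    ∃ t, chk3 (onCell 0 67108864 0 1073741824 67108864 67108864 (corTK [[⟨0, 0, 1, 33554432⟩, ⟨1, 1, 0, 8388608⟩, ⟨2, 1, 1, 33554432⟩, ⟨0, 0, 0, 150994944⟩, ⟨0, 1, 0, 1023410176⟩, ⟨2, 1, 0, 150994944⟩, ⟨2, 2, 0, 1023410176⟩]] true 1 c0F cA022E gF0q0 gF0q2 gF1q2 gF2q2 true true)) t 1 127 1 = true :=
  ex3_b A022E_001_1_254_1 A022E_001_1_255_1
theorem A022E_001_1_63_1 :
    ∃ t, chk3 (onCell 0 67108864 0 1073741824 67108864 67108864 (corTK [[⟨0, 0, 1, 33554432⟩, ⟨1, 1, 0, 8388608⟩, ⟨2, 1, 1, 33554432⟩, ⟨0, 0, 0, 150994944⟩, ⟨0, 1, 0, 1023410176⟩, ⟨2, 1, 0, 150994944⟩, ⟨2, 2, 0, 1023410176⟩]] true 1 c0F cA022E gF0q0 gF0q2 gF1q2 gF2q2 true true)) t 1 63 1 = true :=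
  ex3_b A022E_001_1_126_1 A022E_001_1_127_1
theorem A022E_001_1_31_1 :
    ∃ t, chk3 (onCell 0 67108864 0 1073741824 67108864 67108864 (corTK [[⟨0, 0, 1, 33554432⟩, ⟨1, 1, 0, 8388608⟩, ⟨2, 1, 1, 33554432⟩, ⟨0, 0, 0, 150994944⟩, ⟨0, 1, 0, 1023410176⟩, ⟨2, 1, 0, 150994944⟩, ⟨2, 2, 0, 1023410176⟩]] true 1 c0F cA022E gF0q0 gF0q2 gF1q2 gF2q2 true true)) t 1 31 1 = true :=
  ex3_b A022E_001_1_62_1 A022E_001_1_63_1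
theorem A022E_001_1_15_1 :
    ∃ t, chk3 (onCell 0 67108864 0 1073741824 67108864 67108864 (corTK [[⟨0, 0, 1, 33554432⟩, ⟨1, 1, 0, 8388608⟩, ⟨2, 1, 1, 33554432⟩, ⟨0, 0, 0, 150994944⟩, ⟨0, 1, 0, 1023410176⟩, ⟨2, 1, 0, 150994944⟩, ⟨2, 2, 0, 1023410176⟩]] true 1 c0F cA022E gF0q0 gF0q2 gF1q2 gF2q2 true true)) t 1 15 1 = true :=
  ex3_b A022E_001_1_30_1 A022E_001_1_31_1
theorem A022E_001_1_7_1 :
    ∃ t, chk3 (onCell 0 67108864 0 1073741824 67108864 67108864 (corTK [[⟨0, 0, 1, 33554432⟩, ⟨1, 1, 0, 8388608⟩, ⟨2, 1, 1, 33554432⟩, ⟨0, 0, 0, 150994944⟩, ⟨0, 1, 0, 1023410176⟩, ⟨2, 1, 0, 150994944⟩, ⟨2, 2, 0, 1023410176⟩]] true 1 c0F cA022E gF0q0 gF0q2 gF1q2 gF2q2 true true)) t 1 7 1 = true :=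
  ex3_b A022E_001_1_14_1 A022E_001_1_15_1
theorem A022E_001_1_3_1 :
    ∃ t, chk3 (onCell 0 67108864 0 1073741824 67108864 67108864 (corTK [[⟨0, 0, 1, 33554432⟩, ⟨1, 1, 0, 8388608⟩, ⟨2, 1, 1, 33554432⟩, ⟨0, 0, 0, 150994944⟩, ⟨0, 1, 0, 1023410176⟩, ⟨2, 1, 0, 150994944⟩, ⟨2, 2, 0, 1023410176⟩]] true 1 c0F cA022E gF0q0 gF0q2 gF1q2 gF2q2 true true)) t 1 3 1 = true :=
  ex3_b A022E_001_1_6_1 A022E_001_1_7_1
theorem A022E_001 :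
    ∃ t, chk3 (onCell 0 67108864 0 1073741824 67108864 67108864 (corTK [[⟨0, 0, 1, 33554432⟩, ⟨1, 1, 0, 8388608⟩, ⟨2, 1, 1, 33554432⟩, ⟨0, 0, 0, 150994944⟩, ⟨0, 1, 0, 1023410176⟩, ⟨2, 1, 0, 150994944⟩, ⟨2, 2, 0, 1023410176⟩]] true 1 c0F cA022E gF0q0 gF0q2 gF1q2 gF2q2 true true)) t 1 1 1 = true :=
  ex3_b A022E_001_1_2_1 A022E_001_1_3_1

end Pool.Agent.Strip051.G.I1_16_1_8.Tab.CF
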