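import Pool.Agent.Strip051.G.I1_16_1_8.Gn
import Pool.Agent.Strip051.PB.Corns
import Pool.Agent.Strip051.PB.CornK

/-! # Certificates of the aligned corners (generated) -/

set_option linter.all false

namespace Pool.Agent.Strip051.G.I1_16_1_8.Tab.CF

open Pool.Agent.Strip051.PB

def A022E_002_1_2_1 :
    ∃ t, chk3 (onCell 0 67108864 0 1073741824 67108864 67108864 (corTK [[⟨0, 0, 1, 33554432⟩, ⟨1, 1, 0, 8388608⟩, ⟨2, 1, 1, 33554432⟩, ⟨0, 0, 0, 150994944⟩, ⟨0, 1, 0, 1023410176⟩, ⟨2, 1, 0, 150994944⟩, ⟨2, 2, 0, 1023410176⟩]] true 1 c0F cA022E gF0q0 gF0q2 gF2q2 gF3q2 true false)) t 1 2 1 = true :=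
  ⟨(T.b (T.b (T.a (T.a (T.a (T.b (T.c (T.b (T.b (T.l 204) (T.l 204)) (T.l 204)) (T.l 204)) (T.b (T.l 204) (T.l 204))) (T.a (T.a (T.b (T.l 204) (T.l 204)) (T.b (T.b (T.l 204) (T.l 204)) (T.l 204))) (T.a (T.b (T.l 204) (T.l 204)) (T.b (T.l 204) (T.l 204))))) (T.a (T.a (T.a (T.b (T.l 204) (T.l 204)) (T.l 204)) (T.a (T.b (T.l 204) (T.l 204)) (T.b (T.l 204) (T.l 204)))) (T.a (T.b (T.b (T.l 204) (T.l 204)) (T.b (T.l 204) (T.l 204))) (T.b (T.b (T.l 204) (T.l 204)) (T.b (T.l 204) (T.l 204)))))) (T.a (T.a (T.a (T.b (T.l 204) (T.l 204)) (T.b (T.l 204) (T.l 204))) (T.a (T.b (T.l 204) (T.l 204)) (T.b (T.l 204) (T.l 204)))) (T.a (T.a (T.b (T.l 204) (T.l 204)) (T.b (T.l 204) (T.l 204))) (T.a (T.b (T.l 204) (T.l 204)) (T.b (T.l 204) (T.l 204)))))) (T.a (T.a (T.a (T.b (T.l 204) (T.l 204)) (T.a (T.a (T.l 204) (T.b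 (T.l 204) (T.l 204))) (T.a (T.b (T.l 204) (T.l 204)) (T.b (T.l 204) (T.l 204))))) (T.a (T.a (T.a (T.l 220) (T.l 204)) (T.b (T.b (T.l 220) (T.l 204)) (T.l 204))) (T.a (T.b (T.b (T.l 204) (T.l 204)) (T.b (T.l 204) (T.l 204))) (T.b (T.b (T.l 204) (T.l 204)) (T.b (T.l 204) (T.l 204)))))) (T.a (T.a (T.a (T.b (T.l 204) (T.l 204)) (T.b (T.l 204) (T.l 204))) (T.a (T.b (T.l 204) (T.l 204)) (T.b (T.l 204) (T.l 204)))) (T.a (T.a (T.b (T.l 204) (T.l 204)) (T.b (T.l 204) (T.l 204))) (T.a (T.b (T.l 204) (T.l 204)) (T.b (T.l 204) (T.l 204))))))) (T.b (T.a (T.a (T.a (T.l 204) (T.a (T.l 204) (T.a (T.b (T.l 204) (T.l 204)) (T.b (T.l 204) (T.l 204))))) (T.a (T.a (T.b (T.l 204) (T.l 0)) (T.b (T.l 204) (T.l 204))) (T.a (T.b (T.l 220) (T.l 204)) (T.b (T.b (T.l 204) (T.l 204)) (T.l 204))))) (T.a (T.a (T.b (T.a (T.l 204)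 (T.l 204)) (T.a (T.l 204) (T.l 204))) (T.a (T.b (T.l 204) (T.l 204)) (T.b (T.l 204) (T.l 204)))) (T.a (T.a (T.b (T.l 204) (T.l 204)) (T.b (T.l 204) (T.l 204))) (T.b (T.a (T.l 204) (T.l 204)) (T.a (T.l 204) (T.l 460)))))) (T.a (T.a (T.a (T.l 0) (T.a (T.l 0) (T.a (T.l 0) (T.l 0)))) (T.a (T.a (T.b (T.l 0) (T.l 0)) (T.b (T.l 0) (T.l 0))) (T.a (T.l 20) (T.l 0)))) (T.a (T.a (T.b (T.a (T.l 204) (T.l 204)) (T.b (T.l 0) (T.l 0))) (T.a (T.b (T.l 204) (T.l 0)) (T.b (T.l 0) (T.l 0)))) (T.a (T.a (T.b (T.l 204) (T.l 0)) (T.b (T.l 204) (T.l 0))) (T.b (T.a (T.l 204) (T.l 460)) (T.a (T.l 0) (T.l 460)))))))), by decide +kernel⟩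

def A022E_002_1_6_1 :
    ∃ t, chk3 (onCell 0 67108864 0 1073741824 67108864 67108864 (corTK [[⟨0, 0, 1, 33554432⟩, ⟨1, 1, 0, 8388608⟩, ⟨2, 1, 1, 33554432⟩, ⟨0, 0, 0, 150994944⟩, ⟨0, 1, 0, 1023410176⟩, ⟨2, 1, 0, 150994944⟩, ⟨2, 2, 0, 1023410176⟩]] true 1 c0F cA022E gF0q0 gF0q2 gF2q2 gF3q2 true false)) t 1 6 1 = true :=
  ⟨(T.b (T.b (T.a (T.a (T.a (T.l 816) (T.c (T.l 816) (T.l 816))) (T.a (T.a (T.l 0) (T.l 0)) (T.b (T.l 0) (T.l 0)))) (T.a (T.a (T.b (T.l 0) (T.l 0)) (T.a (T.l 0) (T.b (T.l 0) (T.l 0)))) (T.a (T.a (T.b (T.l 0) (T.l 0)) (T.l 64)) (T.a (T.l 64) (T.l 320))))) (T.a (T.a (T.a (T.l 816) (T.a (T.l 816) (T.l 816))) (T.a (T.a (T.l 816) (T.l 0)) (T.b (T.l 0) (T.l 816)))) (T.a (T.a (T.b (T.l 0) (T.l 816)) (T.a (T.l 0) (T.l 68))) (T.a (T.a (T.b (T.l 0) (T.l 0)) (T.b (T.l 0) (T.l 816))) (T.a (T.b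 (T.l 0) (T.l 0)) (T.b (T.l 0) (T.l 0))))))) (T.b (T.b (T.a (T.a (T.a (T.l 816) (T.a (T.l 816) (T.l 816))) (T.a (T.l 816) (T.c (T.l 816) (T.l 816)))) (T.a (T.a (T.l 816) (T.a (T.l 816) (T.l 816))) (T.a (T.c (T.l 68) (T.l 0)) (T.c (T.l 64) (T.l 0))))) (T.b (T.a (T.a (T.a (T.l 816) (T.a (T.l 816) (T.l 816))) (T.a (T.l 816) (T.l 820))) (T.a (T.a (T.l 816) (T.a (T.l 816) (T.l 816))) (T.a (T.c (T.l 0) (T.l 0)) (T.l 64)))) (T.a (T.a (T.a (T.l 816) (T.a (T.l 816) (T.l 816))) (T.a (T.l 816) (T.l 820))) (T.a (T.a (T.l 816) (T.a (T.l 816) (T.l 816))) (T.a (T.c (T.l 0) (T.l 0)) (T.c (T.l 816) (T.l 816))))))) (T.b (T.b (T.a (T.a (T.a (T.l 816) (T.a (T.l 816) (T.l 816))) (T.a (T.l 816) (T.l 816))) (T.a (T.a (T.l 816) (T.a (T.l 816) (T.l 816))) (T.a (T.c (T.l 0) (T.l 0)) (T.l 880)))) (T.a (T.a (T.a (T.l 816) (T.a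 (T.l 816) (T.l 816))) (T.a (T.l 816) (T.l 816))) (T.a (T.a (T.l 816) (T.a (T.l 816) (T.l 816))) (T.a (T.c (T.l 0) (T.l 0)) (T.c (T.l 816) (T.l 816)))))) (T.b (T.a (T.a (T.a (T.l 816) (T.a (T.l 816) (T.l 816))) (T.a (T.l 816) (T.l 816))) (T.a (T.a (T.l 816) (T.a (T.l 816) (T.l 816))) (T.a (T.c (T.l 64) (T.l 0)) (T.c (T.l 816) (T.l 816))))) (T.a (T.a (T.a (T.l 816) (T.a (T.l 816) (T.l 816))) (T.a (T.l 816) (T.l 816))) (T.a (T.a (T.l 816) (T.a (T.l 816) (T.l 816))) (T.a (T.c (T.l 884) (T.l 816)) (T.c (T.l 816) (T.l 816))))))))), by decide +kernel⟩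

def A022E_002_1_14_1 :
    ∃ t, chk3 (onCell 0 67108864 0 1073741824 67108864 67108864 (corTK [[⟨0, 0, 1, 33554432⟩, ⟨1, 1, 0, 8388608⟩, ⟨2, 1, 1, 33554432⟩, ⟨0, 0, 0, 150994944⟩, ⟨0, 1, 0, 1023410176⟩, ⟨2, 1, 0, 150994944⟩, ⟨2, 2, 0, 1023410176⟩]] true 1 c0F cA022E gF0q0 gF0q2 gF2q2 gF3q2 true false)) t 1 14 1 = true :=
  ⟨(T.b (T.b (T.b (T.b (T.a (T.a (T.a (T.l 816) (T.a (T.l 816) (T.l 816))) (T.a (T.l 816) (T.l 816))) (T.a (T.a (T.l 816) (T.a (T.l 816) (T.l 816))) (T.a (T.c (T.l 884) (T.l 816)) (T.c (T.l 816) (T.l 816))))) (T.a (T.a (T.a (T.l 816) (T.a (T.l 816) (T.l 816))) (T.a (T.l 816) (T.l 816))) (T.a (T.a (T.l 816) (T.a (T.l 816) (T.l 816))) (T.a (T.c (T.l 884) (T.l 816)) (T.c (T.l 816) (T.l 816)))))) (T.b (T.a (T.a (T.a (T.l 816) (T.a (T.l 816) (T.l 816))) (T.a (T.l 820) (T.l 816))) (T.a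 (T.a (T.l 816) (T.a (T.l 816) (T.l 816))) (T.a (T.c (T.l 884) (T.l 820)) (T.c (T.l 816) (T.l 816))))) (T.a (T.a (T.a (T.l 816) (T.a (T.l 816) (T.l 816))) (T.a (T.l 820) (T.l 816))) (T.a (T.a (T.l 816) (T.a (T.l 816) (T.l 816))) (T.a (T.c (T.l 884) (T.l 820)) (T.c (T.l 816) (T.l 816))))))) (T.b (T.b (T.a (T.a (T.a (T.l 816) (T.a (T.l 816) (T.l 816))) (T.a (T.l 820) (T.l 820))) (T.a (T.a (T.l 816) (T.a (T.l 816) (T.l 816))) (T.a (T.c (T.l 884) (T.l 820)) (T.c (T.l 816) (T.l 816))))) (T.a (T.a (T.a (T.l 816) (T.a (T.l 816) (T.l 816))) (T.a (T.c (T.l 816) (T.l 816)) (T.l 820))) (T.a (T.a (T.l 816) (T.a (T.l 816) (T.l 816))) (T.a (T.a (T.l 816) (T.l 816)) (T.c (T.l 816) (T.l 816)))))) (T.b (T.a (T.a (T.a (T.l 816) (T.a (T.l 816) (T.l 816))) (T.a (T.c (T.l 816) (T.l 816)) (T.l 820))) (T.a (T.a (T.l 816)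 (T.a (T.l 816) (T.l 816))) (T.a (T.a (T.l 816) (T.l 816)) (T.c (T.l 880) (T.l 816))))) (T.a (T.a (T.a (T.l 816) (T.a (T.l 816) (T.l 816))) (T.a (T.c (T.l 816) (T.l 816)) (T.c (T.l 816) (T.l 816)))) (T.a (T.a (T.l 816) (T.a (T.l 816) (T.l 816))) (T.a (T.a (T.l 816) (T.l 816)) (T.c (T.l 880) (T.l 816)))))))) (T.b (T.b (T.b (T.a (T.a (T.a (T.l 816) (T.a (T.l 816) (T.l 816))) (T.a (T.c (T.l 816) (T.l 816)) (T.c (T.l 816) (T.l 816)))) (T.a (T.a (T.l 816) (T.a (T.l 816) (T.l 816))) (T.a (T.a (T.l 816) (T.l 816)) (T.c (T.l 880) (T.l 816))))) (T.a (T.a (T.a (T.l 816) (T.a (T.l 816) (T.l 816))) (T.a (T.c (T.l 816) (T.l 816)) (T.c (T.l 816) (T.l 816)))) (T.a (T.a (T.l 816) (T.a (T.l 816) (T.l 816))) (T.a (T.a (T.l 816) (T.l 816)) (T.c (T.l 880) (T.l 816)))))) (T.b (T.a (T.a (T.a (T.l 816) (T.a (T.l 816) (T.l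 816))) (T.a (T.c (T.l 816) (T.l 816)) (T.c (T.l 816) (T.l 816)))) (T.a (T.a (T.l 816) (T.a (T.l 816) (T.l 816))) (T.a (T.a (T.l 816) (T.l 816)) (T.c (T.l 884) (T.l 816))))) (T.a (T.a (T.a (T.l 816) (T.a (T.l 816) (T.l 816))) (T.a (T.c (T.l 816) (T.l 816)) (T.c (T.l 816) (T.l 816)))) (T.a (T.a (T.l 820) (T.a (T.l 816) (T.l 820))) (T.a (T.a (T.l 816) (T.l 816)) (T.c (T.l 884) (T.l 816))))))) (T.b (T.b (T.a (T.a (T.a (T.l 816) (T.a (T.l 816) (T.l 816))) (T.a (T.a (T.l 816) (T.l 816)) (T.c (T.l 816) (T.l 816)))) (T.a (T.a (T.l 820) (T.a (T.l 816) (T.l 820))) (T.a (T.a (T.l 820) (T.l 816)) (T.c (T.l 884) (T.l 816))))) (T.a (T.a (T.a (T.l 816) (T.a (T.l 816) (T.l 816))) (T.a (T.a (T.l 816) (T.l 816)) (T.c (T.l 820) (T.l 816)))) (T.a (T.a (T.l 820) (T.a (T.l 816) (T.l 820))) (T.a (T.a (T.l 884) (T.l 816))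 (T.c (T.l 884) (T.l 816)))))) (T.b (T.b (T.a (T.a (T.a (T.l 816) (T.a (T.l 816) (T.l 816))) (T.a (T.a (T.l 816) (T.l 816)) (T.c (T.l 816) (T.l 816)))) (T.a (T.a (T.l 820) (T.a (T.l 816) (T.l 820))) (T.a (T.a (T.l 884) (T.l 816)) (T.c (T.l 884) (T.l 816))))) (T.a (T.a (T.a (T.l 816) (T.a (T.l 816) (T.l 816))) (T.a (T.a (T.l 816) (T.l 816)) (T.c (T.l 820) (T.l 816)))) (T.a (T.a (T.l 820) (T.a (T.l 816) (T.l 820))) (T.a (T.a (T.l 884) (T.l 816)) (T.c (T.l 884) (T.l 816)))))) (T.b (T.a (T.a (T.a (T.l 816) (T.a (T.l 816) (T.l 816))) (T.a (T.a (T.l 816) (T.l 816)) (T.c (T.l 820) (T.l 816)))) (T.a (T.a (T.l 820) (T.a (T.l 816) (T.l 884))) (T.a (T.a (T.l 884) (T.l 816)) (T.c (T.l 884) (T.l 816))))) (T.a (T.a (T.a (T.l 816) (T.a (T.l 816) (T.l 816))) (T.a (T.a (T.l 816) (T.l 816)) (T.c (T.l 820) (T.l 816))))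 (T.a (T.a (T.l 820) (T.a (T.l 816) (T.l 884))) (T.a (T.a (T.l 884) (T.l 816)) (T.c (T.l 884) (T.l 816)))))))))), by decide +kernel⟩

def A022E_002_1_30_1 :
    ∃ t, chk3 (onCell 0 67108864 0 1073741824 67108864 67108864 (corTK [[⟨0, 0, 1, 33554432⟩, ⟨1, 1, 0, 8388608⟩, ⟨2, 1, 1, 33554432⟩, ⟨0, 0, 0, 150994944⟩, ⟨0, 1, 0, 1023410176⟩, ⟨2, 1, 0, 150994944⟩, ⟨2, 2, 0, 1023410176⟩]] true 1 c0F cA022E gF0q0 gF0q2 gF2q2 gF3q2 true false)) t 1 30 1 = true :=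
  ⟨(T.b (T.b (T.b (T.b (T.a (T.a (T.a (T.l 816) (T.a (T.l 816) (T.l 816))) (T.a (T.a (T.l 816) (T.l 816)) (T.c (T.l 820) (T.l 816)))) (T.a (T.a (T.c (T.l 816) (T.l 816)) (T.a (T.l 816) (T.l 884))) (T.a (T.a (T.l 884) (T.l 816)) (T.c (T.l 884) (T.l 820))))) (T.a (T.a (T.a (T.l 816) (T.a (T.l 816) (T.l 816))) (T.a (T.a (T.l 816) (T.l 816)) (T.c (T.l 820) (T.l 816)))) (T.a (T.a (T.c (T.l 816) (T.l 816)) (T.a (T.l 816) (T.l 884))) (T.a (T.a (T.l 884) (T.l 884)) (T.c (T.l 884) (T.l 820)))))) (T.b (T.a (T.a (T.a (T.l 816) (T.a (T.l 816) (T.l 816))) (T.a (T.a (T.l 816) (T.l 816)) (T.c (T.l 820) (T.l 816)))) (T.a (T.a (T.c (T.l 816) (T.l 816)) (T.a (T.l 816) (T.l 884))) (T.a (T.a (T.l 884) (T.l 884)) (T.c (T.l 884) (T.l 820))))) (T.a (T.a (T.a (T.l 816) (T.a (T.l 816) (T.l 816))) (T.a (T.a (T.l 816) (T.l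 816)) (T.a (T.l 816) (T.l 816)))) (T.a (T.a (T.c (T.l 816) (T.l 816)) (T.a (T.l 816) (T.c (T.l 816) (T.l 816)))) (T.a (T.a (T.l 884) (T.l 884)) (T.a (T.l 880) (T.l 880))))))) (T.b (T.b (T.a (T.a (T.a (T.l 816) (T.a (T.l 816) (T.l 816))) (T.a (T.a (T.l 816) (T.l 816)) (T.a (T.l 816) (T.l 816)))) (T.a (T.a (T.c (T.l 816) (T.l 816)) (T.a (T.l 816) (T.c (T.l 816) (T.l 816)))) (T.a (T.a (T.c (T.l 816) (T.l 816)) (T.l 884)) (T.a (T.l 884) (T.l 880))))) (T.a (T.a (T.a (T.l 816) (T.a (T.l 816) (T.l 816))) (T.a (T.a (T.l 816) (T.l 816)) (T.a (T.l 816) (T.l 816)))) (T.a (T.a (T.c (T.l 820) (T.l 816)) (T.a (T.l 816) (T.c (T.l 816) (T.l 816)))) (T.a (T.a (T.c (T.l 816) (T.l 816)) (T.l 884)) (T.a (T.l 884) (T.l 880)))))) (T.b (T.a (T.a (T.a (T.l 816) (T.a (T.l 816) (T.l 816))) (T.a (T.a (T.l 816) (T.l 816)) (T.a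 (T.l 816) (T.l 816)))) (T.a (T.a (T.c (T.l 820) (T.l 816)) (T.a (T.l 816) (T.c (T.l 820) (T.l 816)))) (T.a (T.a (T.c (T.l 816) (T.l 816)) (T.l 884)) (T.a (T.l 884) (T.l 884))))) (T.a (T.a (T.a (T.l 816) (T.a (T.l 816) (T.l 816))) (T.a (T.a (T.l 816) (T.l 816)) (T.a (T.l 816) (T.l 816)))) (T.a (T.a (T.c (T.l 820) (T.l 816)) (T.a (T.l 816) (T.c (T.l 820) (T.l 816)))) (T.a (T.a (T.c (T.l 816) (T.l 816)) (T.l 884)) (T.a (T.l 884) (T.l 884)))))))) (T.b (T.b (T.b (T.a (T.a (T.a (T.l 816) (T.a (T.l 816) (T.l 816))) (T.a (T.a (T.l 816) (T.l 816)) (T.a (T.l 816) (T.l 816)))) (T.a (T.a (T.c (T.l 820) (T.l 816)) (T.a (T.l 816) (T.c (T.l 884) (T.l 816)))) (T.a (T.a (T.c (T.l 816) (T.l 816)) (T.l 884)) (T.a (T.l 884) (T.l 884))))) (T.a (T.a (T.a (T.l 816) (T.a (T.l 816) (T.l 816))) (T.a (T.a (T.l 816) (T.l 820))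 (T.a (T.l 816) (T.l 816)))) (T.a (T.a (T.c (T.l 820) (T.l 816)) (T.a (T.l 816) (T.c (T.l 884) (T.l 816)))) (T.a (T.a (T.c (T.l 820) (T.l 816)) (T.l 884)) (T.a (T.l 884) (T.l 884)))))) (T.b (T.a (T.a (T.a (T.l 816) (T.a (T.l 816) (T.l 820))) (T.a (T.a (T.l 816) (T.l 820)) (T.a (T.l 816) (T.l 816)))) (T.a (T.a (T.c (T.l 820) (T.l 816)) (T.a (T.l 816) (T.c (T.l 884) (T.l 820)))) (T.a (T.a (T.c (T.l 820) (T.l 816)) (T.l 884)) (T.a (T.l 884) (T.l 884))))) (T.a (T.a (T.a (T.l 816) (T.a (T.l 816) (T.l 820))) (T.a (T.a (T.l 816) (T.l 820)) (T.a (T.l 816) (T.l 816)))) (T.a (T.a (T.c (T.l 820) (T.l 816)) (T.a (T.l 816) (T.c (T.l 884) (T.l 820)))) (T.a (T.a (T.c (T.l 884) (T.l 816)) (T.c (T.l 816) (T.l 816))) (T.a (T.l 884) (T.l 884))))))) (T.b (T.b (T.a (T.a (T.a (T.l 816) (T.a (T.l 816) (T.l 820))) (T.a (T.a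 (T.l 816) (T.l 820)) (T.a (T.l 820) (T.l 816)))) (T.a (T.a (T.a (T.l 816) (T.l 816)) (T.a (T.l 816) (T.c (T.l 884) (T.l 820)))) (T.a (T.a (T.c (T.l 884) (T.l 816)) (T.c (T.l 820) (T.l 816))) (T.a (T.l 884) (T.l 884))))) (T.a (T.a (T.a (T.l 816) (T.a (T.l 816) (T.c (T.l 816) (T.l 816)))) (T.a (T.a (T.l 816) (T.c (T.l 816) (T.l 816))) (T.a (T.l 820) (T.l 816)))) (T.a (T.a (T.a (T.l 816) (T.l 816)) (T.a (T.l 816) (T.a (T.l 816) (T.l 820)))) (T.a (T.a (T.c (T.l 884) (T.l 816)) (T.c (T.l 884) (T.l 816))) (T.a (T.l 884) (T.l 884)))))) (T.b (T.a (T.a (T.a (T.l 816) (T.a (T.l 816) (T.c (T.l 816) (T.l 816)))) (T.a (T.a (T.l 816) (T.c (T.l 816) (T.l 816))) (T.a (T.l 820) (T.l 820)))) (T.a (T.a (T.a (T.l 820) (T.l 820)) (T.a (T.l 820) (T.a (T.l 816) (T.l 820)))) (T.a (T.a (T.c (T.l 884) (T.l 820)) (T.c (T.l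 884) (T.l 816))) (T.a (T.c (T.l 884) (T.l 816)) (T.l 884))))) (T.a (T.a (T.a (T.l 816) (T.a (T.l 816) (T.c (T.l 816) (T.l 816)))) (T.a (T.a (T.l 816) (T.c (T.l 816) (T.l 816))) (T.a (T.l 820) (T.l 820)))) (T.a (T.a (T.a (T.l 820) (T.l 820)) (T.a (T.l 820) (T.a (T.l 816) (T.l 884)))) (T.a (T.a (T.c (T.l 884) (T.l 820)) (T.c (T.l 884) (T.l 816))) (T.a (T.c (T.l 884) (T.l 816)) (T.l 884))))))))), by decide +kernel⟩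

def A022E_002_1_62_1 :
    ∃ t, chk3 (onCell 0 67108864 0 1073741824 67108864 67108864 (corTK [[⟨0, 0, 1, 33554432⟩, ⟨1, 1, 0, 8388608⟩, ⟨2, 1, 1, 33554432⟩, ⟨0, 0, 0, 150994944⟩, ⟨0, 1, 0, 1023410176⟩, ⟨2, 1, 0, 150994944⟩, ⟨2, 2, 0, 1023410176⟩]] true 1 c0F cA022E gF0q0 gF0q2 gF2q2 gF3q2 true false)) t 1 62 1 = true :=
  ⟨(T.b (T.b (T.b (T.a (T.a (T.a (T.l 816) (T.a (T.l 816) (T.c (T.l 816) (T.l 816)))) (T.a (T.a (T.l 820) (T.c (T.l 816) (T.l 816))) (T.a (T.c (T.l 816) (T.l 816)) (T.l 820)))) (T.a (T.a (T.a (T.l 820) (T.l 820)) (T.a (T.l 820) (T.a (T.l 816) (T.l 884)))) (T.a (T.a (T.c (T.l 884) (T.l 820)) (T.c (T.l 884) (T.l 816))) (T.a (T.c (T.l 884) (T.l 816)) (T.c (T.l 884) (T.l 816)))))) (T.a (T.a (T.a (T.l 816) (T.a (T.l 816) (T.c (T.l 816) (T.l 816)))) (T.a (T.a (T.l 820) (T.c (T.l 816) (T.l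 816))) (T.a (T.c (T.l 816) (T.l 816)) (T.l 820)))) (T.a (T.a (T.a (T.l 820) (T.l 820)) (T.a (T.l 820) (T.a (T.l 820) (T.l 884)))) (T.a (T.a (T.a (T.l 884) (T.l 884)) (T.c (T.l 884) (T.l 816))) (T.a (T.c (T.l 884) (T.l 816)) (T.c (T.l 884) (T.l 816))))))) (T.b (T.a (T.a (T.a (T.l 816) (T.a (T.l 816) (T.c (T.l 816) (T.l 816)))) (T.a (T.a (T.l 884) (T.c (T.l 816) (T.l 816))) (T.a (T.c (T.l 816) (T.l 816)) (T.c (T.l 816) (T.l 816))))) (T.a (T.a (T.a (T.l 884) (T.l 884)) (T.a (T.l 884) (T.a (T.l 820) (T.l 884)))) (T.a (T.a (T.a (T.l 884) (T.l 884)) (T.c (T.l 884) (T.l 820))) (T.a (T.c (T.l 884) (T.l 816)) (T.c (T.l 884) (T.l 816)))))) (T.a (T.a (T.a (T.l 816) (T.a (T.l 816) (T.c (T.l 816) (T.l 816)))) (T.a (T.a (T.c (T.l 816) (T.l 816)) (T.c (T.l 816) (T.l 816))) (T.a (T.c (T.l 816) (T.l 816)) (T.c (T.l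 816) (T.l 816))))) (T.a (T.a (T.a (T.c (T.l 816) (T.l 816)) (T.l 884)) (T.a (T.l 884) (T.a (T.l 820) (T.c (T.l 816) (T.l 816))))) (T.a (T.a (T.a (T.l 884) (T.l 884)) (T.c (T.l 884) (T.l 820))) (T.a (T.c (T.l 884) (T.l 820)) (T.c (T.l 884) (T.l 816)))))))) (T.b (T.b (T.a (T.a (T.a (T.l 816) (T.a (T.l 816) (T.c (T.l 816) (T.l 816)))) (T.a (T.a (T.c (T.l 816) (T.l 816)) (T.c (T.l 816) (T.l 816))) (T.a (T.c (T.l 816) (T.l 816)) (T.c (T.l 816) (T.l 816))))) (T.a (T.a (T.a (T.c (T.l 816) (T.l 816)) (T.c (T.l 816) (T.l 816))) (T.a (T.c (T.l 816) (T.l 816)) (T.a (T.l 884) (T.c (T.l 820) (T.l 816))))) (T.a (T.a (T.a (T.c (T.l 820) (T.l 816)) (T.l 884)) (T.c (T.l 884) (T.l 820))) (T.a (T.c (T.l 884) (T.l 820)) (T.c (T.l 884) (T.l 820)))))) (T.a (T.a (T.a (T.l 816) (T.a (T.l 816) (T.c (T.l 816) (T.l 816))))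 (T.a (T.a (T.c (T.l 816) (T.l 816)) (T.c (T.l 816) (T.l 816))) (T.a (T.c (T.l 816) (T.l 816)) (T.c (T.l 816) (T.l 816))))) (T.a (T.a (T.a (T.c (T.l 816) (T.l 816)) (T.c (T.l 816) (T.l 816))) (T.a (T.c (T.l 820) (T.l 816)) (T.a (T.l 884) (T.c (T.l 820) (T.l 816))))) (T.a (T.a (T.a (T.c (T.l 820) (T.l 816)) (T.l 884)) (T.a (T.l 884) (T.l 884))) (T.a (T.c (T.l 884) (T.l 820)) (T.c (T.l 884) (T.l 820))))))) (T.b (T.a (T.a (T.a (T.l 816) (T.a (T.l 816) (T.c (T.l 880) (T.l 816)))) (T.a (T.a (T.c (T.l 816) (T.l 816)) (T.c (T.l 816) (T.l 816))) (T.a (T.c (T.l 816) (T.l 816)) (T.c (T.l 816) (T.l 816))))) (T.a (T.a (T.a (T.c (T.l 816) (T.l 816)) (T.c (T.l 820) (T.l 816))) (T.a (T.c (T.l 820) (T.l 816)) (T.a (T.l 884) (T.c (T.l 884) (T.l 816))))) (T.a (T.a (T.a (T.c (T.l 884) (T.l 816)) (T.c (T.l 884) (T.l 816)))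 (T.c (T.c (T.l 1024) (T.l 884)) (T.l 884))) (T.a (T.a (T.l 884) (T.l 884)) (T.c (T.l 884) (T.l 884)))))) (T.a (T.a (T.a (T.l 816) (T.a (T.l 816) (T.a (T.l 816) (T.l 880)))) (T.a (T.a (T.c (T.l 816) (T.l 816)) (T.c (T.l 880) (T.l 816))) (T.a (T.c (T.l 816) (T.l 816)) (T.c (T.l 816) (T.l 816))))) (T.a (T.a (T.a (T.c (T.l 820) (T.l 816)) (T.c (T.l 820) (T.l 816))) (T.a (T.c (T.l 884) (T.l 816)) (T.a (T.c (T.l 820) (T.l 816)) (T.c (T.l 884) (T.l 816))))) (T.a (T.a (T.a (T.c (T.l 884) (T.l 816)) (T.c (T.l 884) (T.l 816))) (T.c (T.c (T.l 1024) (T.l 884)) (T.c (T.l 820) (T.l 816)))) (T.a (T.c (T.c (T.l 1024) (T.l 884)) (T.l 884)) (T.a (T.l 884) (T.l 884))))))))), by decide +kernel⟩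

def A022E_002_1_126_1 :
    ∃ t, chk3 (onCell 0 67108864 0 1073741824 67108864 67108864 (corTK [[⟨0, 0, 1, 33554432⟩, ⟨1, 1, 0, 8388608⟩, ⟨2, 1, 1, 33554432⟩, ⟨0, 0, 0, 150994944⟩, ⟨0, 1, 0, 1023410176⟩, ⟨2, 1, 0, 150994944⟩, ⟨2, 2, 0, 1023410176⟩]] true 1 c0F cA022E gF0q0 gF0q2 gF2q2 gF3q2 true false)) t 1 126 1 = true :=
  ⟨(T.b (T.b (T.a (T.a (T.a (T.l 816) (T.a (T.l 816) (T.c (T.c (T.l 816) (T.l 816)) (T.l 816)))) (T.a (T.a (T.c (T.l 816) (T.l 816)) (T.a (T.l 880) (T.l 816))) (T.a (T.c (T.l 884) (T.l 816)) (T.c (T.l 884) (T.l 816))))) (T.a (T.a (T.a (T.c (T.l 884) (T.l 816)) (T.c (T.l 884) (T.l 816))) (T.a (T.c (T.l 884) (T.l 816)) (T.a (T.c (T.l 820) (T.l 816)) (T.c (T.l 884) (T.l 816))))) (T.a (T.a (T.a (T.c (T.l 884) (T.l 816)) (T.c (T.l 884) (T.l 816))) (T.c (T.c (T.l 1024) (T.l 884)) (T.c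 (T.l 884) (T.l 820)))) (T.a (T.c (T.c (T.l 1024) (T.l 884)) (T.l 884)) (T.c (T.c (T.l 1024) (T.l 884)) (T.l 884)))))) (T.a (T.a (T.a (T.l 816) (T.a (T.l 816) (T.c (T.c (T.l 816) (T.l 816)) (T.l 816)))) (T.a (T.a (T.c (T.c (T.l 816) (T.l 816)) (T.l 816)) (T.c (T.c (T.l 816) (T.l 816)) (T.l 816))) (T.a (T.a (T.l 880) (T.l 880)) (T.c (T.l 884) (T.l 816))))) (T.a (T.a (T.a (T.c (T.l 884) (T.l 816)) (T.c (T.l 884) (T.l 816))) (T.a (T.c (T.l 884) (T.l 816)) (T.a (T.c (T.l 884) (T.l 816)) (T.c (T.c (T.l 884) (T.l 820)) (T.l 820))))) (T.a (T.a (T.a (T.c (T.l 884) (T.l 820)) (T.c (T.l 884) (T.l 816))) (T.c (T.c (T.l 1024) (T.l 884)) (T.c (T.l 884) (T.l 820)))) (T.a (T.c (T.c (T.l 1024) (T.l 884)) (T.c (T.l 884) (T.l 820))) (T.c (T.c (T.l 1024) (T.l 884)) (T.l 884))))))) (T.b (T.a (T.a (T.a (T.l 816) (T.a (T.l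 816) (T.c (T.a (T.l 816) (T.l 816)) (T.l 816)))) (T.a (T.a (T.c (T.c (T.l 816) (T.l 816)) (T.l 816)) (T.c (T.c (T.l 880) (T.l 816)) (T.l 816))) (T.a (T.c (T.c (T.l 816) (T.l 816)) (T.l 816)) (T.c (T.c (T.l 816) (T.l 816)) (T.l 816))))) (T.c (T.a (T.a (T.a (T.c (T.l 816) (T.l 816)) (T.c (T.l 884) (T.l 816))) (T.a (T.c (T.l 884) (T.l 816)) (T.a (T.l 884) (T.c (T.l 884) (T.l 820))))) (T.a (T.a (T.a (T.c (T.l 884) (T.l 820)) (T.l 884)) (T.a (T.l 884) (T.l 884))) (T.c (T.l 1024) (T.a (T.l 884) (T.l 884))))) (T.a (T.a (T.a (T.l 816) (T.l 816)) (T.a (T.l 816) (T.a (T.l 816) (T.l 820)))) (T.a (T.a (T.a (T.l 820) (T.l 820)) (T.c (T.l 884) (T.l 884))) (T.a (T.c (T.l 884) (T.l 884)) (T.c (T.l 884) (T.l 884))))))) (T.a (T.c (T.a (T.a (T.l 816) (T.a (T.l 816) (T.a (T.l 816) (T.l 816)))) (T.a (T.a (T.c (T.l 816)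 (T.l 816)) (T.a (T.l 816) (T.l 816))) (T.a (T.c (T.l 880) (T.l 816)) (T.c (T.l 880) (T.l 816))))) (T.a (T.a (T.l 816) (T.a (T.l 816) (T.l 816))) (T.a (T.a (T.l 816) (T.l 816)) (T.a (T.l 816) (T.l 816))))) (T.c (T.a (T.a (T.a (T.c (T.l 884) (T.l 816)) (T.c (T.l 884) (T.l 816))) (T.a (T.a (T.l 884) (T.l 884)) (T.a (T.l 884) (T.c (T.l 884) (T.l 884))))) (T.a (T.a (T.a (T.c (T.l 884) (T.l 884)) (T.c (T.l 1024) (T.l 884))) (T.c (T.l 1024) (T.a (T.l 884) (T.l 884)))) (T.c (T.l 1024) (T.a (T.c (T.l 884) (T.l 884)) (T.c (T.l 1024) (T.l 884)))))) (T.b (T.a (T.a (T.a (T.l 816) (T.l 816)) (T.a (T.l 816) (T.a (T.l 816) (T.l 820)))) (T.a (T.a (T.a (T.l 820) (T.l 820)) (T.a (T.l 820) (T.l 820))) (T.a (T.c (T.l 884) (T.l 884)) (T.c (T.l 884) (T.l 884))))) (T.a (T.a (T.a (T.l 816) (T.l 816)) (T.a (T.c (T.l 816) (T.l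 816)) (T.a (T.l 816) (T.l 884)))) (T.a (T.a (T.a (T.l 884) (T.l 820)) (T.a (T.l 884) (T.l 884))) (T.a (T.c (T.l 884) (T.l 884)) (T.c (T.l 884) (T.l 884)))))))))), by decide +kernel⟩

def A022E_002_1_254_1 :
    ∃ t, chk3 (onCell 0 67108864 0 1073741824 67108864 67108864 (corTK [[⟨0, 0, 1, 33554432⟩, ⟨1, 1, 0, 8388608⟩, ⟨2, 1, 1, 33554432⟩, ⟨0, 0, 0, 150994944⟩, ⟨0, 1, 0, 1023410176⟩, ⟨2, 1, 0, 150994944⟩, ⟨2, 2, 0, 1023410176⟩]] true 1 c0F cA022E gF0q0 gF0q2 gF2q2 gF3q2 true false)) t 1 254 1 = true :=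
  ⟨(T.b (T.a (T.c (T.a (T.a (T.l 816) (T.a (T.l 816) (T.a (T.l 816) (T.c (T.l 816) (T.l 816))))) (T.a (T.a (T.a (T.l 816) (T.l 816)) (T.a (T.l 880) (T.l 816))) (T.a (T.a (T.l 816) (T.l 816)) (T.c (T.l 884) (T.l 816))))) (T.b (T.a (T.a (T.l 816) (T.a (T.l 816) (T.l 816))) (T.a (T.a (T.l 816) (T.l 816)) (T.a (T.l 816) (T.l 816)))) (T.a (T.a (T.l 816) (T.a (T.l 816) (T.l 816))) (T.a (T.a (T.l 816) (T.l 816)) (T.a (T.l 816) (T.l 816)))))) (T.c (T.a (T.a (T.a (T.c (T.l 884) (T.l 816)) (T.c (T.l 884) (T.l 820))) (T.a (T.a (T.l 884) (T.c (T.l 884) (T.l 816))) (T.a (T.c (T.l 884) (T.l 820)) (T.a (T.l 884) (T.l 884))))) (T.a (T.a (T.a (T.c (T.l 884) (T.l 884)) (T.c (T.l 1024) (T.l 884))) (T.c (T.l 1024) (T.a (T.l 884) (T.l 884)))) (T.c (T.l 1024) (T.a (T.a (T.l 884) (T.l 884)) (T.c (T.l 1024) (T.l 884))))))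 (T.b (T.a (T.a (T.a (T.l 816) (T.l 816)) (T.a (T.c (T.l 820) (T.l 816)) (T.a (T.l 816) (T.l 884)))) (T.a (T.a (T.a (T.l 884) (T.l 884)) (T.a (T.l 884) (T.l 884))) (T.a (T.a (T.l 884) (T.l 884)) (T.c (T.l 884) (T.l 884))))) (T.a (T.a (T.a (T.l 816) (T.l 820)) (T.a (T.c (T.l 820) (T.l 816)) (T.a (T.l 816) (T.c (T.l 820) (T.l 816))))) (T.a (T.a (T.a (T.l 884) (T.l 884)) (T.a (T.l 884) (T.l 884))) (T.a (T.a (T.l 884) (T.l 884)) (T.a (T.l 884) (T.l 884)))))))) (T.a (T.c (T.b (T.a (T.a (T.l 816) (T.a (T.l 816) (T.a (T.l 816) (T.c (T.l 816) (T.l 816))))) (T.a (T.a (T.a (T.l 880) (T.l 816)) (T.a (T.l 880) (T.l 880))) (T.a (T.a (T.l 880) (T.l 880)) (T.a (T.l 880) (T.l 880))))) (T.a (T.a (T.l 816) (T.a (T.l 816) (T.a (T.l 816) (T.c (T.l 816) (T.l 816))))) (T.a (T.a (T.c (T.c (T.l 880) (T.l 816)) (T.l 816))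 (T.a (T.c (T.l 816) (T.l 816)) (T.l 880))) (T.a (T.a (T.l 880) (T.l 880)) (T.a (T.l 880) (T.l 880)))))) (T.b (T.a (T.a (T.l 816) (T.a (T.l 816) (T.l 880))) (T.a (T.a (T.l 816) (T.l 816)) (T.a (T.l 816) (T.l 816)))) (T.a (T.a (T.l 816) (T.a (T.l 816) (T.c (T.l 816) (T.l 816)))) (T.a (T.a (T.l 816) (T.l 880)) (T.a (T.l 816) (T.l 816)))))) (T.c (T.b (T.a (T.a (T.a (T.a (T.l 880) (T.l 880)) (T.c (T.l 884) (T.l 884))) (T.a (T.a (T.l 884) (T.c (T.l 884) (T.l 820))) (T.a (T.c (T.l 884) (T.l 884)) (T.a (T.l 884) (T.l 884))))) (T.a (T.a (T.a (T.a (T.l 884) (T.l 884)) (T.c (T.l 1024) (T.l 884))) (T.c (T.l 1024) (T.a (T.l 884) (T.l 884)))) (T.c (T.l 1024) (T.a (T.a (T.l 884) (T.l 884)) (T.a (T.l 884) (T.l 884)))))) (T.a (T.a (T.a (T.a (T.l 880) (T.l 884)) (T.a (T.l 884) (T.l 884))) (T.a (T.a (T.l 884) (T.c (T.l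 884) (T.l 884))) (T.a (T.c (T.l 884) (T.l 884)) (T.a (T.l 884) (T.c (T.l 884) (T.l 884)))))) (T.a (T.a (T.a (T.c (T.c (T.l 884) (T.l 884)) (T.l 884)) (T.c (T.l 1024) (T.l 884))) (T.c (T.l 1024) (T.a (T.l 884) (T.l 884)))) (T.c (T.l 1024) (T.a (T.a (T.l 884) (T.l 884)) (T.a (T.l 884) (T.l 884))))))) (T.b (T.a (T.a (T.a (T.l 816) (T.l 820)) (T.a (T.c (T.l 884) (T.l 816)) (T.a (T.l 820) (T.c (T.l 884) (T.l 816))))) (T.a (T.a (T.a (T.c (T.l 884) (T.l 816)) (T.l 884)) (T.a (T.l 884) (T.l 884))) (T.a (T.a (T.l 884) (T.l 884)) (T.a (T.l 884) (T.l 884))))) (T.a (T.a (T.a (T.l 820) (T.l 884)) (T.a (T.c (T.l 884) (T.l 816)) (T.a (T.l 884) (T.c (T.l 884) (T.l 820))))) (T.a (T.a (T.a (T.c (T.l 884) (T.l 820)) (T.c (T.l 884) (T.l 816))) (T.a (T.l 884) (T.l 884))) (T.a (T.a (T.l 884) (T.l 884)) (T.a (T.l 884) (T.l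 884))))))))), by decide +kernel⟩

def A022E_002_1_510_1 :
    ∃ t, chk3 (onCell 0 67108864 0 1073741824 67108864 67108864 (corTK [[⟨0, 0, 1, 33554432⟩, ⟨1, 1, 0, 8388608⟩, ⟨2, 1, 1, 33554432⟩, ⟨0, 0, 0, 150994944⟩, ⟨0, 1, 0, 1023410176⟩, ⟨2, 1, 0, 150994944⟩, ⟨2, 2, 0, 1023410176⟩]] true 1 c0F cA022E gF0q0 gF0q2 gF2q2 gF3q2 true false)) t 1 510 1 = true :=
  ⟨(T.a (T.c (T.b (T.a (T.a (T.l 816) (T.a (T.l 816) (T.a (T.l 816) (T.c (T.l 880) (T.l 816))))) (T.a (T.a (T.c (T.a (T.l 816) (T.l 816)) (T.l 816)) (T.a (T.c (T.l 816) (T.l 816)) (T.c (T.l 816) (T.l 816)))) (T.a (T.c (T.a (T.l 816) (T.l 816)) (T.l 880)) (T.c (T.a (T.l 816) (T.l 880)) (T.l 880))))) (T.a (T.a (T.l 816) (T.a (T.l 816) (T.a (T.l 816) (T.c (T.c (T.l 816) (T.l 816)) (T.l 816))))) (T.a (T.a (T.c (T.a (T.l 880) (T.l 816)) (T.l 816)) (T.a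 (T.c (T.l 880) (T.l 816)) (T.c (T.l 880) (T.l 816)))) (T.a (T.c (T.a (T.l 880) (T.l 880)) (T.l 880)) (T.c (T.a (T.l 880) (T.l 880)) (T.l 880)))))) (T.b (T.a (T.a (T.l 816) (T.a (T.l 816) (T.c (T.l 816) (T.l 816)))) (T.a (T.a (T.l 816) (T.c (T.l 816) (T.l 816))) (T.a (T.l 880) (T.l 816)))) (T.a (T.a (T.l 816) (T.a (T.l 816) (T.c (T.l 816) (T.l 816)))) (T.a (T.a (T.l 816) (T.c (T.l 816) (T.l 816))) (T.a (T.l 880) (T.l 884)))))) (T.c (T.b (T.a (T.a (T.a (T.c (T.a (T.l 880) (T.l 880)) (T.l 884)) (T.c (T.a (T.l 880) (T.l 884)) (T.l 884))) (T.a (T.a (T.c (T.l 884) (T.l 816)) (T.c (T.l 884) (T.l 884))) (T.a (T.c (T.l 884) (T.l 884)) (T.c (T.a (T.l 884) (T.l 884)) (T.c (T.l 884) (T.l 884)))))) (T.a (T.a (T.a (T.c (T.a (T.l 884) (T.l 1024)) (T.c (T.l 884) (T.l 884))) (T.c (T.l 1024) (T.c (T.l 884) (T.l 884))))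 (T.c (T.l 1024) (T.a (T.l 884) (T.l 884)))) (T.c (T.l 1024) (T.a (T.a (T.l 884) (T.l 884)) (T.a (T.l 884) (T.l 884)))))) (T.a (T.a (T.a (T.c (T.a (T.l 880) (T.l 880)) (T.l 884)) (T.c (T.a (T.l 884) (T.l 884)) (T.l 884))) (T.a (T.a (T.c (T.l 884) (T.l 880)) (T.c (T.c (T.l 884) (T.l 884)) (T.l 884))) (T.a (T.c (T.c (T.l 884) (T.l 884)) (T.l 884)) (T.c (T.a (T.l 884) (T.c (T.l 884) (T.l 884))) (T.a (T.l 884) (T.l 884)))))) (T.a (T.a (T.a (T.c (T.a (T.l 884) (T.l 1024)) (T.a (T.l 884) (T.l 884))) (T.c (T.l 1024) (T.c (T.l 884) (T.l 884)))) (T.c (T.l 1024) (T.a (T.c (T.l 884) (T.l 884)) (T.c (T.l 884) (T.l 884))))) (T.c (T.l 1024) (T.a (T.a (T.c (T.l 884) (T.l 884)) (T.c (T.l 1024) (T.l 884))) (T.c (T.l 1024) (T.a (T.l 884) (T.l 884)))))))) (T.b (T.a (T.a (T.a (T.l 884) (T.l 884)) (T.a (T.c (T.l 884) (T.l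 880)) (T.a (T.l 884) (T.c (T.l 884) (T.l 820))))) (T.a (T.a (T.a (T.c (T.l 884) (T.l 820)) (T.c (T.l 884) (T.l 820))) (T.a (T.c (T.l 884) (T.l 820)) (T.c (T.l 884) (T.l 884)))) (T.a (T.a (T.c (T.l 884) (T.l 884)) (T.c (T.l 884) (T.l 884))) (T.a (T.c (T.l 884) (T.l 884)) (T.c (T.l 884) (T.l 884)))))) (T.a (T.a (T.a (T.l 884) (T.c (T.l 816) (T.l 816))) (T.a (T.a (T.l 816) (T.l 884)) (T.a (T.l 884) (T.a (T.l 884) (T.l 884))))) (T.a (T.a (T.a (T.c (T.l 884) (T.l 884)) (T.c (T.l 884) (T.l 884))) (T.a (T.c (T.l 884) (T.l 884)) (T.c (T.l 884) (T.l 884)))) (T.a (T.a (T.c (T.l 884) (T.l 884)) (T.c (T.l 884) (T.l 884))) (T.a (T.c (T.l 884) (T.l 884)) (T.c (T.l 884) (T.l 884))))))))), by decide +kernel⟩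

def A022E_002_1_511_1 :
    ∃ t, chk3 (onCell 0 67108864 0 1073741824 67108864 67108864 (corTK [[⟨0, 0, 1, 33554432⟩, ⟨1, 1, 0, 8388608⟩, ⟨2, 1, 1, 33554432⟩, ⟨0, 0, 0, 150994944⟩, ⟨0, 1, 0, 1023410176⟩, ⟨2, 1, 0, 150994944⟩, ⟨2, 2, 0, 1023410176⟩]] true 1 c0F cA022E gF0q0 gF0q2 gF2q2 gF3q2 true false)) t 1 511 1 = true :=
  ⟨(T.a (T.c (T.b (T.a (T.a (T.l 816) (T.a (T.l 816) (T.a (T.l 816) (T.c (T.a (T.l 816) (T.l 880)) (T.l 816))))) (T.a (T.a (T.c (T.a (T.c (T.l 880) (T.l 816)) (T.l 880)) (T.l 880)) (T.a (T.a (T.l 880) (T.l 880)) (T.c (T.l 880) (T.l 816)))) (T.a (T.c (T.a (T.l 880) (T.l 880)) (T.c (T.l 880) (T.l 816))) (T.c (T.a (T.l 880) (T.l 880)) (T.c (T.l 880) (T.l 816)))))) (T.a (T.a (T.l 816) (T.a (T.l 816) (T.a (T.l 880) (T.c (T.c (T.a (T.l 816) (T.l 880)) (T.l 816)) (T.l 816))))) (T.c (T.b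 (T.a (T.a (T.a (T.c (T.l 880) (T.l 816)) (T.c (T.l 816) (T.l 816))) (T.a (T.c (T.l 880) (T.l 816)) (T.c (T.l 880) (T.l 816)))) (T.a (T.a (T.c (T.l 880) (T.l 816)) (T.l 880)) (T.a (T.l 880) (T.c (T.l 880) (T.l 816))))) (T.a (T.a (T.a (T.c (T.c (T.l 880) (T.l 816)) (T.l 816)) (T.c (T.l 880) (T.l 816))) (T.a (T.a (T.l 816) (T.l 816)) (T.c (T.l 880) (T.l 816)))) (T.a (T.a (T.c (T.l 880) (T.l 816)) (T.c (T.l 880) (T.l 816))) (T.a (T.c (T.l 880) (T.l 816)) (T.c (T.l 880) (T.l 816)))))) (T.b (T.a (T.a (T.c (T.l 816) (T.l 816)) (T.a (T.l 816) (T.l 816))) (T.a (T.c (T.l 880) (T.l 816)) (T.c (T.l 880) (T.l 816)))) (T.a (T.a (T.c (T.l 816) (T.l 816)) (T.a (T.l 816) (T.l 816))) (T.a (T.c (T.l 880) (T.l 816)) (T.c (T.l 880) (T.l 816)))))))) (T.b (T.a (T.a (T.l 816) (T.a (T.l 816) (T.c (T.l 816) (T.l 816)))) (T.a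 (T.a (T.l 816) (T.c (T.l 816) (T.l 816))) (T.a (T.c (T.l 816) (T.l 816)) (T.c (T.l 816) (T.l 816))))) (T.a (T.a (T.l 816) (T.a (T.l 816) (T.c (T.l 880) (T.l 816)))) (T.c (T.b (T.a (T.a (T.l 816) (T.l 816)) (T.a (T.l 816) (T.l 816))) (T.a (T.a (T.l 816) (T.l 880)) (T.a (T.l 816) (T.l 816)))) (T.b (T.a (T.a (T.l 816) (T.l 816)) (T.a (T.l 816) (T.l 816))) (T.a (T.a (T.l 816) (T.l 816)) (T.a (T.l 816) (T.l 816)))))))) (T.c (T.b (T.a (T.a (T.a (T.c (T.a (T.l 880) (T.l 880)) (T.c (T.l 880) (T.l 816))) (T.c (T.a (T.c (T.l 880) (T.l 880)) (T.c (T.l 884) (T.l 880))) (T.c (T.l 884) (T.l 884)))) (T.a (T.a (T.c (T.c (T.l 884) (T.l 884)) (T.l 884)) (T.c (T.a (T.l 884) (T.l 884)) (T.l 884))) (T.a (T.c (T.a (T.l 884) (T.l 884)) (T.l 884)) (T.c (T.a (T.c (T.l 884) (T.l 884)) (T.c (T.l 884) (T.l 884))) (T.a (T.l 884)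 (T.l 884)))))) (T.a (T.a (T.a (T.c (T.a (T.c (T.l 884) (T.l 884)) (T.l 1024)) (T.a (T.l 884) (T.l 884))) (T.c (T.l 1024) (T.a (T.l 884) (T.l 884)))) (T.c (T.l 1024) (T.a (T.a (T.l 884) (T.l 884)) (T.a (T.l 884) (T.l 884))))) (T.c (T.l 1024) (T.a (T.a (T.a (T.l 884) (T.l 884)) (T.c (T.l 1024) (T.l 884))) (T.c (T.l 1024) (T.a (T.l 884) (T.l 884))))))) (T.a (T.c (T.a (T.a (T.a (T.c (T.l 880) (T.l 880)) (T.c (T.l 880) (T.l 880))) (T.a (T.a (T.l 880) (T.l 884)) (T.c (T.c (T.l 884) (T.l 884)) (T.l 884)))) (T.a (T.a (T.c (T.a (T.l 884) (T.l 884)) (T.l 884)) (T.c (T.a (T.l 884) (T.c (T.l 884) (T.l 884))) (T.c (T.l 884) (T.l 884)))) (T.a (T.c (T.a (T.c (T.l 884) (T.l 884)) (T.c (T.l 884) (T.l 884))) (T.a (T.l 884) (T.l 884))) (T.a (T.c (T.c (T.l 884) (T.l 884)) (T.l 884)) (T.c (T.a (T.l 884) (T.c (T.l 884)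 (T.l 884))) (T.c (T.l 884) (T.l 884))))))) (T.a (T.a (T.a (T.l 816) (T.l 880)) (T.a (T.l 880) (T.l 884))) (T.a (T.a (T.l 884) (T.c (T.l 884) (T.l 884))) (T.a (T.c (T.l 884) (T.l 884)) (T.a (T.l 884) (T.c (T.l 884) (T.l 884))))))) (T.c (T.a (T.a (T.a (T.a (T.a (T.c (T.c (T.l 884) (T.l 884)) (T.l 884)) (T.l 1024)) (T.l 1024)) (T.l 1024)) (T.l 1024)) (T.l 1024)) (T.b (T.a (T.a (T.a (T.a (T.l 884) (T.l 884)) (T.a (T.l 884) (T.l 884))) (T.a (T.a (T.l 884) (T.l 884)) (T.a (T.l 884) (T.l 884)))) (T.a (T.a (T.a (T.l 884) (T.l 884)) (T.c (T.l 1024) (T.c (T.l 884) (T.l 884)))) (T.c (T.l 1024) (T.a (T.c (T.l 884) (T.l 884)) (T.c (T.l 1024) (T.l 884)))))) (T.a (T.a (T.a (T.a (T.c (T.l 884) (T.l 884)) (T.c (T.l 884) (T.l 884))) (T.a (T.c (T.l 884) (T.l 884)) (T.c (T.l 884) (T.l 884)))) (T.a (T.c (T.a (T.l 884)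 (T.l 884)) (T.c (T.l 884) (T.l 884))) (T.c (T.a (T.l 884) (T.l 884)) (T.a (T.l 884) (T.l 884))))) (T.a (T.a (T.c (T.a (T.l 884) (T.l 1024)) (T.a (T.l 884) (T.l 884))) (T.c (T.l 1024) (T.a (T.l 884) (T.l 884)))) (T.c (T.l 1024) (T.a (T.a (T.l 884) (T.l 884)) (T.c (T.l 1024) (T.l 884)))))))))) (T.b (T.a (T.a (T.a (T.c (T.l 816) (T.l 816)) (T.c (T.l 884) (T.l 816))) (T.a (T.a (T.l 880) (T.l 884)) (T.a (T.c (T.l 884) (T.l 816)) (T.a (T.l 884) (T.l 884))))) (T.a (T.a (T.a (T.a (T.l 884) (T.l 884)) (T.a (T.l 884) (T.l 884))) (T.a (T.c (T.l 884) (T.l 884)) (T.c (T.l 884) (T.l 884)))) (T.a (T.a (T.c (T.l 884) (T.l 884)) (T.c (T.l 884) (T.l 884))) (T.a (T.c (T.l 884) (T.l 884)) (T.a (T.l 884) (T.l 884)))))) (T.a (T.c (T.a (T.a (T.l 880) (T.l 884)) (T.a (T.a (T.l 816) (T.l 884)) (T.a (T.l 884) (T.a (T.l 884)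 (T.l 884))))) (T.a (T.a (T.l 816) (T.l 816)) (T.a (T.c (T.l 880) (T.l 880)) (T.a (T.l 816) (T.l 884))))) (T.c (T.b (T.a (T.a (T.a (T.c (T.l 884) (T.l 884)) (T.c (T.l 884) (T.l 884))) (T.a (T.c (T.l 884) (T.l 884)) (T.c (T.l 884) (T.l 884)))) (T.a (T.a (T.c (T.l 884) (T.l 884)) (T.c (T.l 884) (T.l 884))) (T.a (T.c (T.l 884) (T.l 884)) (T.c (T.l 884) (T.l 884))))) (T.a (T.a (T.a (T.a (T.l 884) (T.l 884)) (T.c (T.l 884) (T.l 884))) (T.a (T.c (T.l 884) (T.l 884)) (T.c (T.l 884) (T.l 884)))) (T.a (T.a (T.c (T.l 884) (T.l 884)) (T.c (T.l 884) (T.l 884))) (T.a (T.c (T.l 884) (T.l 884)) (T.a (T.l 884) (T.l 884)))))) (T.b (T.a (T.a (T.a (T.l 884) (T.l 884)) (T.a (T.l 884) (T.l 884))) (T.a (T.a (T.l 884) (T.l 884)) (T.a (T.l 884) (T.l 884)))) (T.a (T.a (T.a (T.l 884) (T.l 884)) (T.a (T.l 884) (T.l 884))) (T.a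 (T.a (T.l 884) (T.l 884)) (T.a (T.l 884) (T.l 884)))))))))), by decide +kernel⟩

theorem A022E_002_1_255_1 :
    ∃ t, chk3 (onCell 0 67108864 0 1073741824 67108864 67108864 (corTK [[⟨0, 0, 1, 33554432⟩, ⟨1, 1, 0, 8388608⟩, ⟨2, 1, 1, 33554432⟩, ⟨0, 0, 0, 150994944⟩, ⟨0, 1, 0, 1023410176⟩, ⟨2, 1, 0, 150994944⟩, ⟨2, 2, 0, 1023410176⟩]] true 1 c0F cA022E gF0q0 gF0q2 gF2q2 gF3q2 true false)) t 1 255 1 = true :=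
  ex3_b A022E_002_1_510_1 A022E_002_1_511_1
theorem A022E_002_1_127_1 :
    ∃ t, chk3 (onCell 0 67108864 0 1073741824 67108864 67108864 (corTK [[⟨0, 0, 1, 33554432⟩, ⟨1, 1, 0, 8388608⟩, ⟨2, 1, 1, 33554432⟩, ⟨0, 0, 0, 150994944⟩, ⟨0, 1, 0, 1023410176⟩, ⟨2, 1, 0, 150994944⟩, ⟨2, 2, 0, 1023410176⟩]] true 1 c0F cA022E gF0q0 gF0q2 gF2q2 gF3q2 true false)) t 1 127 1 = true :=
  ex3_b A022E_002_1_254_1 A022E_002_1_255_1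
theorem A022E_002_1_63_1 :
    ∃ t, chk3 (onCell 0 67108864 0 1073741824 67108864 67108864 (corTK [[⟨0, 0, 1, 33554432⟩, ⟨1, 1, 0, 8388608⟩, ⟨2, 1, 1, 33554432⟩, ⟨0, 0, 0, 150994944⟩, ⟨0, 1, 0, 1023410176⟩, ⟨2, 1, 0, 150994944⟩, ⟨2, 2, 0, 1023410176⟩]] true 1 c0F cA022E gF0q0 gF0q2 gF2q2 gF3q2 true false)) t 1 63 1 = true :=
  ex3_b A022E_002_1_126_1 A022E_002_1_127_1
theorem A022E_002_1_31_1 :
    ∃ t, chk3 (onCell 0 67108864 0 1073741824 67108864 67108864 (corTK [[⟨0, 0, 1, 33554432⟩, ⟨1, 1, 0, 8388608⟩, ⟨2, 1, 1, 33554432⟩, ⟨0, 0, 0, 150994944⟩, ⟨0, 1, 0, 1023410176⟩, ⟨2, 1, 0, 150994944⟩, ⟨2, 2, 0, 1023410176⟩]] true 1 c0F cA022E gF0q0 gF0q2 gF2q2 gF3q2 true false)) t 1 31 1 = true :=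
  ex3_b A022E_002_1_62_1 A022E_002_1_63_1
theorem A022E_002_1_15_1 :
    ∃ t, chk3 (onCell 0 67108864 0 1073741824 67108864 67108864 (corTK [[⟨0, 0, 1, 33554432⟩, ⟨1, 1, 0, 8388608⟩, ⟨2, 1, 1, 33554432⟩, ⟨0, 0, 0, 150994944⟩, ⟨0, 1, 0, 1023410176⟩, ⟨2, 1, 0, 150994944⟩, ⟨2, 2, 0, 1023410176⟩]] true 1 c0F cA022E gF0q0 gF0q2 gF2q2 gF3q2 true false)) t 1 15 1 = true :=
  ex3_b A022E_002_1_30_1 A022E_002_1_31_1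
theorem A022E_002_1_7_1 :
    ∃ t, chk3 (onCell 0 67108864 0 1073741824 67108864 67108864 (corTK [[⟨0, 0, 1, 33554432⟩, ⟨1, 1, 0, 8388608⟩, ⟨2, 1, 1, 33554432⟩, ⟨0, 0, 0, 150994944⟩, ⟨0, 1, 0, 1023410176⟩, ⟨2, 1, 0, 150994944⟩, ⟨2, 2, 0, 1023410176⟩]] true 1 c0F cA022E gF0q0 gF0q2 gF2q2 gF3q2 true false)) t 1 7 1 = true :=
  ex3_b A022E_002_1_14_1 A022E_002_1_15_1
theorem A022E_002_1_3_1 :
    ∃ t, chk3 (onCell 0 67108864 0 1073741824 67108864 67108864 (corTK [[⟨0, 0, 1, 33554432⟩, ⟨1, 1, 0, 8388608⟩, ⟨2, 1, 1, 33554432⟩, ⟨0, 0, 0, 150994944⟩, ⟨0, 1, 0, 1023410176⟩, ⟨2, 1, 0, 150994944⟩, ⟨2, 2, 0, 1023410176⟩]] true 1 c0F cA022E gF0q0 gF0q2 gF2q2 gF3q2 true false)) t 1 3 1 = true :=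
  ex3_b A022E_002_1_6_1 A022E_002_1_7_1
theorem A022E_002 :
    ∃ t, chk3 (onCell 0 67108864 0 1073741824 67108864 67108864 (corTK [[⟨0, 0, 1, 33554432⟩, ⟨1, 1, 0, 8388608⟩, ⟨2, 1, 1, 33554432⟩, ⟨0, 0, 0, 150994944⟩, ⟨0, 1, 0, 1023410176⟩, ⟨2, 1, 0, 150994944⟩, ⟨2, 2, 0, 1023410176⟩]] true 1 c0F cA022E gF0q0 gF0q2 gF2q2 gF3q2 true false)) t 1 1 1 = true :=
  ex3_b A022E_002_1_2_1 A022E_002_1_3_1

def A022E_010 :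
    ∃ t, chk3 (onCell 0 67108864 0 1073741824 67108864 67108864 (corTK [[⟨0, 0, 1, 33554432⟩, ⟨1, 1, 0, 16777216⟩, ⟨2, 1, 1, 33554432⟩, ⟨0, 0, 0, 150994944⟩, ⟨0, 1, 0, 1023410176⟩, ⟨2, 1, 0, 150994944⟩, ⟨2, 2, 0, 1023410176⟩]] true 1 c0F cA022E gF0q0 gF1q2 gF0q2 gF1q2 true true)) t 1 1 1 = true :=
  ⟨(T.l 2), by decide +kernel⟩

def A022E_011_1_2_1 :
    ∃ t, chk3 (onCell 0 67108864 0 1073741824 67108864 67108864 (corTK [[⟨0, 0, 1, 33554432⟩, ⟨1, 1, 0, 16777216⟩, ⟨2, 1, 1, 33554432⟩, ⟨0, 0, 0, 150994944⟩, ⟨0, 1, 0, 1023410176⟩, ⟨2, 1, 0, 150994944⟩, ⟨2, 2, 0, 1023410176⟩]] true 1 c0F cA022E gF0q0 gF1q2 gF1q2 gF2q2 true true)) t 1 2 1 = true :=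
  ⟨(T.l 2), by decide +kernel⟩

def A022E_011_1_6_1 :
    ∃ t, chk3 (onCell 0 67108864 0 1073741824 67108864 67108864 (corTK [[⟨0, 0, 1, 33554432⟩, ⟨1, 1, 0, 16777216⟩, ⟨2, 1, 1, 33554432⟩, ⟨0, 0, 0, 150994944⟩, ⟨0, 1, 0, 1023410176⟩, ⟨2, 1, 0, 150994944⟩, ⟨2, 2, 0, 1023410176⟩]] true 1 c0F cA022E gF0q0 gF1q2 gF1q2 gF2q2 true true)) t 1 6 1 = true :=
  ⟨(T.l 2), by decide +kernel⟩

def A022E_011_1_14_1 :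
    ∃ t, chk3 (onCell 0 67108864 0 1073741824 67108864 67108864 (corTK [[⟨0, 0, 1, 33554432⟩, ⟨1, 1, 0, 16777216⟩, ⟨2, 1, 1, 33554432⟩, ⟨0, 0, 0, 150994944⟩, ⟨0, 1, 0, 1023410176⟩, ⟨2, 1, 0, 150994944⟩, ⟨2, 2, 0, 1023410176⟩]] true 1 c0F cA022E gF0q0 gF1q2 gF1q2 gF2q2 true true)) t 1 14 1 = true :=
  ⟨(T.l 2), by decide +kernel⟩

def A022E_011_1_30_1 :
    ∃ t, chk3 (onCell 0 67108864 0 1073741824 67108864 67108864 (corTK [[⟨0, 0, 1, 33554432⟩, ⟨1, 1, 0, 16777216⟩, ⟨2, 1, 1, 33554432⟩, ⟨0, 0, 0, 150994944⟩, ⟨0, 1, 0, 1023410176⟩, ⟨2, 1, 0, 150994944⟩, ⟨2, 2, 0, 1023410176⟩]] true 1 c0F cA022E gF0q0 gF1q2 gF1q2 gF2q2 true true)) t 1 30 1 = true :=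
  ⟨(T.l 2), by decide +kernel⟩

def A022E_011_1_62_1 :
    ∃ t, chk3 (onCell 0 67108864 0 1073741824 67108864 67108864 (corTK [[⟨0, 0, 1, 33554432⟩, ⟨1, 1, 0, 16777216⟩, ⟨2, 1, 1, 33554432⟩, ⟨0, 0, 0, 150994944⟩, ⟨0, 1, 0, 1023410176⟩, ⟨2, 1, 0, 150994944⟩, ⟨2, 2, 0, 1023410176⟩]] true 1 c0F cA022E gF0q0 gF1q2 gF1q2 gF2q2 true true)) t 1 62 1 = true :=
  ⟨(T.l 2), by decide +kernel⟩

def A022E_011_1_126_1 :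
    ∃ t, chk3 (onCell 0 67108864 0 1073741824 67108864 67108864 (corTK [[⟨0, 0, 1, 33554432⟩, ⟨1, 1, 0, 16777216⟩, ⟨2, 1, 1, 33554432⟩, ⟨0, 0, 0, 150994944⟩, ⟨0, 1, 0, 1023410176⟩, ⟨2, 1, 0, 150994944⟩, ⟨2, 2, 0, 1023410176⟩]] true 1 c0F cA022E gF0q0 gF1q2 gF1q2 gF2q2 true true)) t 1 126 1 = true :=
  ⟨(T.l 2), by decide +kernel⟩

def A022E_011_1_254_1 :
    ∃ t, chk3 (onCell 0 67108864 0 1073741824 67108864 67108864 (corTK [[⟨0, 0, 1, 33554432⟩, ⟨1, 1, 0, 16777216⟩, ⟨2, 1, 1, 33554432⟩, ⟨0, 0, 0, 150994944⟩, ⟨0, 1, 0, 1023410176⟩, ⟨2, 1, 0, 150994944⟩, ⟨2, 2, 0, 1023410176⟩]] true 1 c0F cA022E gF0q0 gF1q2 gF1q2 gF2q2 true true)) t 1 254 1 = true :=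
  ⟨(T.l 2), by decide +kernel⟩

def A022E_011_1_510_1 :
    ∃ t, chk3 (onCell 0 67108864 0 1073741824 67108864 67108864 (corTK [[⟨0, 0, 1, 33554432⟩, ⟨1, 1, 0, 16777216⟩, ⟨2, 1, 1, 33554432⟩, ⟨0, 0, 0, 150994944⟩, ⟨0, 1, 0, 1023410176⟩, ⟨2, 1, 0, 150994944⟩, ⟨2, 2, 0, 1023410176⟩]] true 1 c0F cA022E gF0q0 gF1q2 gF1q2 gF2q2 true true)) t 1 510 1 = true :=
  ⟨(T.l 2), by decide +kernel⟩

def A022E_011_2_511_1 :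
    ∃ t, chk3 (onCell 0 67108864 0 1073741824 67108864 67108864 (corTK [[⟨0, 0, 1, 33554432⟩, ⟨1, 1, 0, 16777216⟩, ⟨2, 1, 1, 33554432⟩, ⟨0, 0, 0, 150994944⟩, ⟨0, 1, 0, 1023410176⟩, ⟨2, 1, 0, 150994944⟩, ⟨2, 2, 0, 1023410176⟩]] true 1 c0F cA022E gF0q0 gF1q2 gF1q2 gF2q2 true true)) t 2 511 1 = true :=
  ⟨(T.c (T.b (T.l 2) (T.a (T.a (T.l 816) (T.a (T.l 816) (T.a (T.l 880) (T.c (T.a (T.l 816) (T.c (T.b (T.l 2) (T.c (T.a (T.l 880) (T.l 880)) (T.l 880))) (T.l 880))) (T.a (T.l 816) (T.l 816)))))) (T.c (T.b (T.l 2) (T.a (T.c (T.b (T.l 2) (T.a (T.c (T.b (T.l 2) (T.a (T.a (T.a (T.l 816) (T.l 816)) (T.l 880)) (T.a (T.l 880) (T.l 816)))) (T.b (T.l 2) (T.a (T.a (T.l 816) (T.l 816)) (T.a (T.l 816) (T.l 816))))) (T.c (T.b (T.l 2) (T.a (T.a (T.l 816) (T.l 816)) (T.a (T.l 816) (T.l 816)))) (T.b (T.l 2) (T.a (T.a (T.l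 816) (T.l 816)) (T.a (T.l 816) (T.l 816))))))) (T.b (T.l 2) (T.a (T.c (T.b (T.l 2) (T.a (T.a (T.l 816) (T.l 816)) (T.a (T.l 816) (T.l 816)))) (T.a (T.a (T.l 816) (T.l 816)) (T.l 816))) (T.c (T.a (T.a (T.l 816) (T.l 816)) (T.l 880)) (T.a (T.l 816) (T.l 816)))))) (T.c (T.b (T.l 2) (T.a (T.c (T.b (T.l 2) (T.a (T.a (T.l 816) (T.l 816)) (T.a (T.l 816) (T.l 880)))) (T.a (T.l 880) (T.l 880))) (T.c (T.b (T.l 2) (T.a (T.a (T.l 880) (T.l 880)) (T.a (T.l 880) (T.l 880)))) (T.a (T.l 880) (T.l 880))))) (T.b (T.l 2) (T.a (T.a (T.c (T.l 880) (T.l 816)) (T.l 880)) (T.a (T.l 880) (T.l 880))))))) (T.b (T.l 2) (T.a (T.c (T.b (T.l 2) (T.a (T.a (T.c (T.l 816) (T.l 816)) (T.l 816)) (T.a (T.l 816) (T.l 816)))) (T.b (T.l 2) (T.a (T.a (T.l 816) (T.l 816)) (T.a (T.l 816) (T.l 816))))) (T.c (T.b (T.l 2) (T.a (T.a (T.l 816)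 (T.l 816)) (T.a (T.l 816) (T.l 816)))) (T.b (T.l 2) (T.a (T.a (T.l 816) (T.l 816)) (T.a (T.l 816) (T.l 816)))))))))) (T.b (T.l 2) (T.a (T.a (T.l 816) (T.a (T.l 816) (T.a (T.l 816) (T.a (T.l 816) (T.l 816))))) (T.c (T.b (T.l 2) (T.a (T.c (T.b (T.l 2) (T.a (T.a (T.l 816) (T.l 816)) (T.a (T.l 816) (T.l 816)))) (T.b (T.l 2) (T.a (T.a (T.l 816) (T.l 816)) (T.a (T.l 816) (T.l 816))))) (T.c (T.b (T.l 2) (T.a (T.a (T.l 816) (T.l 816)) (T.a (T.l 816) (T.l 816)))) (T.b (T.l 2) (T.a (T.a (T.l 816) (T.l 816)) (T.a (T.l 816) (T.l 816))))))) (T.b (T.l 2) (T.a (T.c (T.b (T.l 2) (T.a (T.a (T.l 816) (T.l 816)) (T.a (T.l 816) (T.l 816)))) (T.b (T.l 2) (T.a (T.a (T.l 816) (T.l 816)) (T.a (T.l 816) (T.l 816))))) (T.c (T.b (T.l 2) (T.a (T.a (T.l 816) (T.l 816)) (T.a (T.l 816) (T.l 816)))) (T.a (T.a (T.l 816) (T.l 816))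 (T.l 816))))))))), by decide +kernel⟩

def A022E_011_3_511_1 :
    ∃ t, chk3 (onCell 0 67108864 0 1073741824 67108864 67108864 (corTK [[⟨0, 0, 1, 33554432⟩, ⟨1, 1, 0, 16777216⟩, ⟨2, 1, 1, 33554432⟩, ⟨0, 0, 0, 150994944⟩, ⟨0, 1, 0, 1023410176⟩, ⟨2, 1, 0, 150994944⟩, ⟨2, 2, 0, 1023410176⟩]] true 1 c0F cA022E gF0q0 gF1q2 gF1q2 gF2q2 true true)) t 3 511 1 = true :=
  ⟨(T.c (T.b (T.l 2) (T.a (T.c (T.b (T.l 2) (T.a (T.c (T.b (T.l 2) (T.a (T.c (T.b (T.l 2) (T.a (T.a (T.l 880) (T.l 880)) (T.a (T.l 880) (T.l 880)))) (T.a (T.l 880) (T.l 880))) (T.c (T.b (T.l 2) (T.a (T.a (T.l 880) (T.l 880)) (T.a (T.l 884) (T.l 884)))) (T.b (T.l 2) (T.a (T.l 884) (T.a (T.l 880) (T.l 884))))))) (T.b (T.l 2) (T.a (T.a (T.l 880) (T.c (T.l 880) (T.l 880))) (T.c (T.a (T.l 880) (T.l 884)) (T.a (T.l 880) (T.l 884)))))) (T.c (T.b (T.l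 2) (T.a (T.c (T.b (T.l 2) (T.a (T.a (T.l 884) (T.l 884)) (T.a (T.l 884) (T.l 884)))) (T.b (T.l 2) (T.a (T.a (T.l 884) (T.l 884)) (T.a (T.l 884) (T.l 884))))) (T.c (T.b (T.l 2) (T.a (T.c (T.a (T.l 884) (T.l 884)) (T.a (T.l 884) (T.l 884))) (T.c (T.a (T.l 884) (T.a (T.l 884) (T.l 884))) (T.a (T.l 884) (T.a (T.l 884) (T.l 884)))))) (T.b (T.l 2) (T.a (T.a (T.l 884) (T.l 884)) (T.a (T.l 884) (T.a (T.l 884) (T.l 884)))))))) (T.b (T.l 2) (T.a (T.c (T.a (T.l 884) (T.a (T.l 884) (T.l 884))) (T.a (T.l 884) (T.a (T.l 884) (T.l 884)))) (T.c (T.b (T.l 2) (T.a (T.a (T.l 884) (T.l 884)) (T.a (T.l 884) (T.c (T.l 884) (T.l 884))))) (T.b (T.l 2) (T.a (T.a (T.l 884) (T.l 884)) (T.a (T.l 884) (T.l 884)))))))))) (T.b (T.l 2) (T.a (T.c (T.b (T.l 2) (T.a (T.a (T.l 880) (T.l 880)) (T.a (T.l 880) (T.l 884)))) (T.b (T.l 2)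 (T.a (T.a (T.l 816) (T.l 816)) (T.a (T.l 816) (T.l 880))))) (T.c (T.b (T.l 2) (T.a (T.a (T.l 884) (T.c (T.l 884) (T.l 884))) (T.c (T.a (T.l 884) (T.a (T.l 884) (T.l 884))) (T.a (T.l 884) (T.a (T.l 884) (T.l 884)))))) (T.b (T.l 2) (T.a (T.a (T.l 884) (T.l 884)) (T.a (T.l 884) (T.a (T.l 884) (T.l 884))))))))) (T.c (T.a (T.a (T.a (T.a (T.b (T.l 2) (T.a (T.c (T.c (T.l 884) (T.l 884)) (T.l 884)) (T.l 1024))) (T.l 1024)) (T.l 1024)) (T.l 1024)) (T.l 1024)) (T.b (T.l 2) (T.a (T.c (T.b (T.l 2) (T.a (T.c (T.b (T.l 2) (T.a (T.a (T.l 884) (T.l 884)) (T.a (T.l 884) (T.l 884)))) (T.b (T.l 2) (T.a (T.a (T.l 884) (T.l 884)) (T.a (T.l 884) (T.l 884))))) (T.c (T.a (T.a (T.l 884) (T.l 1024)) (T.l 1024)) (T.b (T.l 2) (T.a (T.a (T.l 884) (T.l 884)) (T.a (T.l 884) (T.l 884))))))) (T.b (T.l 2) (T.a (T.c (T.b (T.l 2) (T.a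 (T.a (T.l 884) (T.l 884)) (T.a (T.l 884) (T.l 884)))) (T.b (T.l 2) (T.a (T.a (T.l 884) (T.l 884)) (T.a (T.l 884) (T.l 884))))) (T.c (T.b (T.l 2) (T.a (T.a (T.l 884) (T.l 884)) (T.a (T.l 884) (T.l 884)))) (T.b (T.l 2) (T.a (T.a (T.l 884) (T.l 884)) (T.a (T.l 884) (T.l 884)))))))) (T.c (T.a (T.a (T.c (T.l 1024) (T.a (T.l 884) (T.l 1024))) (T.l 1024)) (T.l 1024)) (T.b (T.l 2) (T.a (T.c (T.b (T.l 2) (T.a (T.a (T.l 884) (T.l 884)) (T.a (T.l 884) (T.l 884)))) (T.b (T.l 2) (T.a (T.a (T.l 884) (T.l 884)) (T.a (T.l 884) (T.l 884))))) (T.c (T.a (T.a (T.l 884) (T.l 1024)) (T.l 1024)) (T.b (T.l 2) (T.a (T.a (T.l 884) (T.l 884)) (T.a (T.l 884) (T.l 884))))))))))))) (T.b (T.l 2) (T.a (T.c (T.b (T.l 2) (T.a (T.c (T.b (T.l 2) (T.a (T.a (T.l 816) (T.l 816)) (T.a (T.l 816) (T.l 816)))) (T.b (T.l 2) (T.a (T.a (T.l 816)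 (T.l 816)) (T.a (T.l 816) (T.l 816))))) (T.c (T.b (T.l 2) (T.a (T.a (T.l 880) (T.l 884)) (T.a (T.l 884) (T.a (T.l 884) (T.l 884))))) (T.b (T.l 2) (T.a (T.a (T.l 816) (T.l 880)) (T.a (T.l 884) (T.c (T.l 884) (T.l 884)))))))) (T.b (T.l 2) (T.a (T.c (T.a (T.l 884) (T.l 884)) (T.a (T.l 816) (T.l 880))) (T.c (T.b (T.l 2) (T.a (T.a (T.l 816) (T.l 816)) (T.a (T.l 816) (T.l 884)))) (T.b (T.l 2) (T.a (T.a (T.l 816) (T.l 816)) (T.a (T.l 816) (T.l 884)))))))) (T.c (T.b (T.l 2) (T.a (T.c (T.b (T.l 2) (T.a (T.c (T.a (T.a (T.l 884) (T.l 884)) (T.l 884)) (T.a (T.l 884) (T.l 884))) (T.c (T.a (T.l 884) (T.l 884)) (T.a (T.l 884) (T.l 884))))) (T.b (T.l 2) (T.a (T.a (T.c (T.l 884) (T.l 884)) (T.l 884)) (T.a (T.l 884) (T.l 884))))) (T.c (T.b (T.l 2) (T.a (T.c (T.a (T.l 884) (T.l 884)) (T.a (T.l 884) (T.l 884))) (T.c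 (T.a (T.l 884) (T.a (T.l 884) (T.l 884))) (T.a (T.l 884) (T.l 884))))) (T.b (T.l 2) (T.a (T.a (T.l 884) (T.l 884)) (T.a (T.l 884) (T.l 884))))))) (T.b (T.l 2) (T.a (T.c (T.b (T.l 2) (T.a (T.a (T.l 884) (T.l 884)) (T.a (T.l 884) (T.l 884)))) (T.b (T.l 2) (T.a (T.a (T.l 884) (T.l 884)) (T.a (T.l 884) (T.l 884))))) (T.c (T.b (T.l 2) (T.a (T.a (T.l 884) (T.l 884)) (T.a (T.l 884) (T.l 884)))) (T.b (T.l 2) (T.a (T.a (T.l 884) (T.l 884)) (T.a (T.l 884) (T.l 884))))))))))), by decide +kernel⟩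

theorem A022E_011_1_511_1 :
    ∃ t, chk3 (onCell 0 67108864 0 1073741824 67108864 67108864 (corTK [[⟨0, 0, 1, 33554432⟩, ⟨1, 1, 0, 16777216⟩, ⟨2, 1, 1, 33554432⟩, ⟨0, 0, 0, 150994944⟩, ⟨0, 1, 0, 1023410176⟩, ⟨2, 1, 0, 150994944⟩, ⟨2, 2, 0, 1023410176⟩]] true 1 c0F cA022E gF0q0 gF1q2 gF1q2 gF2q2 true true)) t 1 511 1 = true :=
  ex3_a A022E_011_2_511_1 A022E_011_3_511_1
theorem A022E_011_1_255_1 :
    ∃ t, chk3 (onCell 0 67108864 0 1073741824 67108864 67108864 (corTK [[⟨0, 0, 1, 33554432⟩, ⟨1, 1, 0, 16777216⟩, ⟨2, 1, 1, 33554432⟩, ⟨0, 0, 0, 150994944⟩, ⟨0, 1, 0, 1023410176⟩, ⟨2, 1, 0, 150994944⟩, ⟨2, 2, 0, 1023410176⟩]] true 1 c0F cA022E gF0q0 gF1q2 gF1q2 gF2q2 true true)) t 1 255 1 = true :=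
  ex3_b A022E_011_1_510_1 A022E_011_1_511_1
theorem A022E_011_1_127_1 :
    ∃ t, chk3 (onCell 0 67108864 0 1073741824 67108864 67108864 (corTK [[⟨0, 0, 1, 33554432⟩, ⟨1, 1, 0, 16777216⟩, ⟨2, 1, 1, 33554432⟩, ⟨0, 0, 0, 150994944⟩, ⟨0, 1, 0, 1023410176⟩, ⟨2, 1, 0, 150994944⟩, ⟨2, 2, 0, 1023410176⟩]] true 1 c0F cA022E gF0q0 gF1q2 gF1q2 gF2q2 true true)) t 1 127 1 = true :=
  ex3_b A022E_011_1_254_1 A022E_011_1_255_1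
theorem A022E_011_1_63_1 :
    ∃ t, chk3 (onCell 0 67108864 0 1073741824 67108864 67108864 (corTK [[⟨0, 0, 1, 33554432⟩, ⟨1, 1, 0, 16777216⟩, ⟨2, 1, 1, 33554432⟩, ⟨0, 0, 0, 150994944⟩, ⟨0, 1, 0, 1023410176⟩, ⟨2, 1, 0, 150994944⟩, ⟨2, 2, 0, 1023410176⟩]] true 1 c0F cA022E gF0q0 gF1q2 gF1q2 gF2q2 true true)) t 1 63 1 = true :=
  ex3_b A022E_011_1_126_1 A022E_011_1_127_1
theorem A022E_011_1_31_1 :
    ∃ t, chk3 (onCell 0 67108864 0 1073741824 67108864 67108864 (corTK [[⟨0, 0, 1, 33554432⟩, ⟨1, 1, 0, 16777216⟩, ⟨2, 1, 1, 33554432⟩, ⟨0, 0, 0, 150994944⟩, ⟨0, 1, 0, 1023410176⟩, ⟨2, 1, 0, 150994944⟩, ⟨2, 2, 0, 1023410176⟩]] true 1 c0F cA022E gF0q0 gF1q2 gF1q2 gF2q2 true true)) t 1 31 1 = true :=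
  ex3_b A022E_011_1_62_1 A022E_011_1_63_1
theorem A022E_011_1_15_1 :
    ∃ t, chk3 (onCell 0 67108864 0 1073741824 67108864 67108864 (corTK [[⟨0, 0, 1, 33554432⟩, ⟨1, 1, 0, 16777216⟩, ⟨2, 1, 1, 33554432⟩, ⟨0, 0, 0, 150994944⟩, ⟨0, 1, 0, 1023410176⟩, ⟨2, 1, 0, 150994944⟩, ⟨2, 2, 0, 1023410176⟩]] true 1 c0F cA022E gF0q0 gF1q2 gF1q2 gF2q2 true true)) t 1 15 1 = true :=
  ex3_b A022E_011_1_30_1 A022E_011_1_31_1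
theorem A022E_011_1_7_1 :
    ∃ t, chk3 (onCell 0 67108864 0 1073741824 67108864 67108864 (corTK [[⟨0, 0, 1, 33554432⟩, ⟨1, 1, 0, 16777216⟩, ⟨2, 1, 1, 33554432⟩, ⟨0, 0, 0, 150994944⟩, ⟨0, 1, 0, 1023410176⟩, ⟨2, 1, 0, 150994944⟩, ⟨2, 2, 0, 1023410176⟩]] true 1 c0F cA022E gF0q0 gF1q2 gF1q2 gF2q2 true true)) t 1 7 1 = true :=
  ex3_b A022E_011_1_14_1 A022E_011_1_15_1
theorem A022E_011_1_3_1 :
    ∃ t, chk3 (onCell 0 67108864 0 1073741824 67108864 67108864 (corTK [[⟨0, 0, 1, 33554432⟩, ⟨1, 1, 0, 16777216⟩, ⟨2, 1, 1, 33554432⟩, ⟨0, 0, 0, 150994944⟩, ⟨0, 1, 0, 1023410176⟩, ⟨2, 1, 0, 150994944⟩, ⟨2, 2, 0, 1023410176⟩]] true 1 c0F cA022E gF0q0 gF1q2 gF1q2 gF2q2 true true)) t 1 3 1 = true :=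
  ex3_b A022E_011_1_6_1 A022E_011_1_7_1
theorem A022E_011 :
    ∃ t, chk3 (onCell 0 67108864 0 1073741824 67108864 67108864 (corTK [[⟨0, 0, 1, 33554432⟩, ⟨1, 1, 0, 16777216⟩, ⟨2, 1, 1, 33554432⟩, ⟨0, 0, 0, 150994944⟩, ⟨0, 1, 0, 1023410176⟩, ⟨2, 1, 0, 150994944⟩, ⟨2, 2, 0, 1023410176⟩]] true 1 c0F cA022E gF0q0 gF1q2 gF1q2 gF2q2 true true)) t 1 1 1 = true :=
  ex3_b A022E_011_1_2_1 A022E_011_1_3_1

end Pool.Agent.Strip051.G.I1_16_1_8.Tab.CF
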