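import Pool.Agent.Strip051.G.I1_16_1_8.Gn
import Pool.Agent.Strip051.PB.Corns
import Pool.Agent.Strip051.PB.CornK

/-! # Certificates of the aligned corners (generated) -/

set_option linter.all false

namespace Pool.Agent.Strip051.G.I1_16_1_8.Tab.CF

open Pool.Agent.Strip051.PB

def A022E_022_2_2_1 :
    ∃ t, chk3 (onCell 0 67108864 0 1073741824 67108864 67108864 (corTK [[⟨0, 0, 1, 33554432⟩, ⟨1, 1, 0, 16777216⟩, ⟨2, 1, 1, 33554432⟩, ⟨0, 0, 0, 150994944⟩, ⟨0, 1, 0, 1023410176⟩, ⟨2, 1, 0, 150994944⟩, ⟨2, 2, 0, 1023410176⟩]] true 1 c0F cA022E gF0q0 gF2q2 gF2q2 gF3q2 true false)) t 2 2 1 = true :=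
  ⟨(T.b (T.a (T.a (T.b (T.b (T.b (T.l 204) (T.l 204)) (T.l 204)) (T.l 0)) (T.a (T.b (T.b (T.b (T.l 204) (T.l 204)) (T.l 204)) (T.l 0)) (T.b (T.a (T.b (T.b (T.l 204) (T.l 204)) (T.l 204)) (T.b (T.c (T.b (T.a (T.l 204) (T.l 204)) (T.l 204)) (T.c (T.l 204) (T.l 204))) (T.l 204))) (T.c (T.l 0) (T.l 0))))) (T.a (T.a (T.b (T.b (T.a (T.c (T.b (T.c (T.c (T.l 204) (T.l 204)) (T.l 204)) (T.b (T.l 204) (T.l 204))) (T.a (T.l 204) (T.l 220))) (T.c (T.b (T.c (T.a (T.l 204) (T.l 204)) (T.b (T.l 204) (T.l 204))) (T.b (T.l 204) (T.l 204))) (T.b (T.c (T.l 204) (T.l 204)) (T.l 204)))) (T.c (T.a (T.l 204) (T.l 204)) (T.c (T.l 204) (T.l 204)))) (T.c (T.a (T.l 0) (T.l 0)) (T.b (T.l 0) (T.l 0)))) (T.b (T.b (T.c (T.a (T.b (T.c (T.b (T.a (T.l 204) (T.l 204)) (T.l 204)) (T.c (T.l 204) (T.l 204))) (T.b (T.l 204) (T.l 204))) (T.b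 (T.c (T.b (T.c (T.c (T.l 204) (T.l 204)) (T.l 220)) (T.l 204)) (T.a (T.l 204) (T.l 204))) (T.b (T.l 204) (T.l 204)))) (T.a (T.b (T.c (T.l 204) (T.l 204)) (T.l 204)) (T.b (T.c (T.b (T.l 204) (T.l 204)) (T.l 204)) (T.l 204)))) (T.c (T.a (T.l 204) (T.l 220)) (T.b (T.l 204) (T.l 204)))) (T.b (T.c (T.l 16) (T.l 0)) (T.b (T.l 816) (T.l 816))))) (T.b (T.a (T.b (T.c (T.b (T.a (T.c (T.b (T.c (T.a (T.l 204) (T.l 204)) (T.c (T.l 204) (T.l 204))) (T.l 204)) (T.b (T.c (T.l 220) (T.l 204)) (T.l 204))) (T.c (T.b (T.c (T.b (T.a (T.l 204) (T.l 204)) (T.l 204)) (T.a (T.l 204) (T.l 204))) (T.l 204)) (T.b (T.a (T.l 204) (T.l 220)) (T.l 204)))) (T.a (T.b (T.l 204) (T.l 204)) (T.b (T.l 204) (T.l 204)))) (T.b (T.a (T.b (T.c (T.b (T.l 204) (T.l 204)) (T.l 204)) (T.l 204)) (T.b (T.c (T.c (T.l 204) (T.l 204)) (T.l 204)) (T.l 204)))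 (T.a (T.l 204) (T.l 204)))) (T.c (T.a (T.l 220) (T.l 220)) (T.b (T.l 204) (T.l 204)))) (T.b (T.c (T.b (T.c (T.a (T.b (T.c (T.b (T.a (T.l 220) (T.b (T.l 220) (T.l 204))) (T.l 204)) (T.a (T.l 220) (T.l 220))) (T.l 204)) (T.b (T.c (T.b (T.a (T.b (T.l 220) (T.l 204)) (T.b (T.l 220) (T.l 204))) (T.l 204)) (T.b (T.a (T.l 220) (T.l 220)) (T.l 204))) (T.l 204))) (T.a (T.b (T.b (T.a (T.l 204) (T.l 220)) (T.l 204)) (T.l 204)) (T.b (T.b (T.c (T.a (T.l 204) (T.l 204)) (T.c (T.l 204) (T.l 204))) (T.l 220)) (T.l 204)))) (T.c (T.c (T.l 204) (T.l 204)) (T.b (T.l 204) (T.l 204)))) (T.b (T.a (T.b (T.c (T.c (T.l 220) (T.l 204)) (T.b (T.l 220) (T.l 204))) (T.l 220)) (T.b (T.c (T.a (T.l 220) (T.l 220)) (T.c (T.l 204) (T.l 204))) (T.l 220))) (T.c (T.l 204) (T.l 204)))) (T.c (T.c (T.l 220) (T.l 204)) (T.b (T.l 204) (T.l 204)))))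 (T.a (T.b (T.c (T.l 0) (T.l 0)) (T.b (T.l 816) (T.l 816))) (T.b (T.c (T.l 0) (T.l 0)) (T.l 0)))))) (T.a (T.a (T.l 820) (T.a (T.l 816) (T.c (T.l 816) (T.l 816)))) (T.b (T.a (T.a (T.l 816) (T.c (T.l 820) (T.l 816))) (T.a (T.b (T.l 820) (T.l 820)) (T.b (T.l 816) (T.l 816)))) (T.a (T.c (T.l 820) (T.l 816)) (T.a (T.b (T.l 820) (T.l 820)) (T.b (T.l 816) (T.l 816))))))), by decide +kernel⟩

def A022E_022_6_4_1 :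
    ∃ t, chk3 (onCell 0 67108864 0 1073741824 67108864 67108864 (corTK [[⟨0, 0, 1, 33554432⟩, ⟨1, 1, 0, 16777216⟩, ⟨2, 1, 1, 33554432⟩, ⟨0, 0, 0, 150994944⟩, ⟨0, 1, 0, 1023410176⟩, ⟨2, 1, 0, 150994944⟩, ⟨2, 2, 0, 1023410176⟩]] true 1 c0F cA022E gF0q0 gF2q2 gF2q2 gF3q2 true false)) t 6 4 1 = true :=
  ⟨(T.a (T.b (T.b (T.a (T.c (T.b (T.c (T.b (T.a (T.b (T.c (T.b (T.a (T.l 220) (T.l 220)) (T.l 220)) (T.a (T.l 220) (T.l 220))) (T.c (T.l 204) (T.l 204))) (T.b (T.c (T.b (T.a (T.l 220) (T.l 220)) (T.l 220)) (T.a (T.l 220) (T.l 220))) (T.c (T.l 204) (T.l 204)))) (T.a (T.l 204) (T.l 204))) (T.b (T.a (T.b (T.c (T.a (T.l 204) (T.l 220)) (T.c (T.l 220) (T.l 220))) (T.l 220)) (T.b (T.c (T.a (T.l 220) (T.l 220)) (T.c (T.l 220) (T.l 220))) (T.l 220))) (T.c (T.l 220) (T.l 220)))) (T.c (T.b (T.l 220) (T.l 204)) (T.l 220)))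 (T.b (T.a (T.b (T.c (T.b (T.a (T.l 204) (T.l 220)) (T.l 204)) (T.c (T.l 220) (T.l 204))) (T.l 220)) (T.b (T.c (T.b (T.a (T.l 220) (T.c (T.l 204) (T.l 204))) (T.l 204)) (T.a (T.l 220) (T.l 220))) (T.l 220))) (T.c (T.l 204) (T.l 204)))) (T.c (T.b (T.c (T.b (T.a (T.b (T.c (T.a (T.l 220) (T.l 220)) (T.a (T.l 220) (T.l 220))) (T.l 220)) (T.b (T.c (T.c (T.l 220) (T.l 220)) (T.c (T.l 220) (T.l 220))) (T.l 220))) (T.c (T.l 220) (T.l 204))) (T.b (T.a (T.b (T.c (T.a (T.l 220) (T.l 220)) (T.c (T.l 220) (T.l 220))) (T.l 220)) (T.b (T.c (T.c (T.l 220) (T.l 220)) (T.c (T.l 220) (T.l 220))) (T.l 204))) (T.c (T.l 204) (T.l 204)))) (T.c (T.l 220) (T.l 204))) (T.b (T.c (T.b (T.a (T.b (T.b (T.a (T.l 220) (T.l 220)) (T.l 220)) (T.l 204)) (T.b (T.b (T.a (T.l 220) (T.l 220)) (T.l 220)) (T.l 204))) (T.c (T.l 204) (T.l 204)))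 (T.b (T.a (T.b (T.a (T.l 204) (T.l 220)) (T.l 204)) (T.b (T.a (T.l 220) (T.l 220)) (T.l 204))) (T.b (T.l 204) (T.l 204)))) (T.c (T.l 204) (T.l 204))))) (T.c (T.a (T.c (T.l 204) (T.l 204)) (T.b (T.l 204) (T.l 204))) (T.a (T.b (T.l 204) (T.l 204)) (T.l 220)))) (T.b (T.c (T.c (T.l 0) (T.l 0)) (T.b (T.l 204) (T.l 0))) (T.c (T.l 0) (T.l 0)))) (T.a (T.b (T.b (T.c (T.b (T.c (T.b (T.a (T.b (T.a (T.c (T.l 204) (T.l 220)) (T.l 220)) (T.l 204)) (T.c (T.l 220) (T.b (T.l 220) (T.l 204)))) (T.c (T.l 204) (T.l 204))) (T.b (T.a (T.b (T.b (T.a (T.l 220) (T.l 220)) (T.l 220)) (T.l 204)) (T.b (T.a (T.l 220) (T.l 220)) (T.l 204))) (T.b (T.l 220) (T.l 204)))) (T.c (T.l 204) (T.l 204))) (T.b (T.b (T.c (T.a (T.b (T.a (T.c (T.l 204) (T.l 204)) (T.l 220)) (T.l 204)) (T.b (T.a (T.l 220) (T.l 220)) (T.l 204))) (T.a (T.b (T.a (T.l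 220) (T.l 220)) (T.l 204)) (T.b (T.c (T.l 220) (T.l 220)) (T.l 204)))) (T.c (T.l 220) (T.l 220))) (T.b (T.l 204) (T.l 204)))) (T.c (T.b (T.l 204) (T.l 204)) (T.l 204))) (T.b (T.b (T.l 204) (T.l 0)) (T.l 0))) (T.b (T.b (T.a (T.b (T.c (T.b (T.c (T.c (T.l 220) (T.l 220)) (T.c (T.l 220) (T.b (T.l 220) (T.l 204)))) (T.l 220)) (T.b (T.c (T.b (T.c (T.l 220) (T.l 220)) (T.l 204)) (T.b (T.c (T.l 220) (T.l 220)) (T.l 204))) (T.l 204))) (T.c (T.l 204) (T.l 204))) (T.b (T.a (T.c (T.b (T.c (T.l 204) (T.l 220)) (T.l 204)) (T.b (T.c (T.l 220) (T.b (T.l 220) (T.l 204))) (T.l 204))) (T.b (T.c (T.b (T.a (T.l 220) (T.c (T.l 204) (T.l 220))) (T.l 204)) (T.b (T.a (T.l 220) (T.c (T.l 220) (T.c (T.l 220) (T.l 220)))) (T.l 204))) (T.c (T.l 204) (T.l 204)))) (T.c (T.b (T.l 204) (T.l 204)) (T.l 220)))) (T.a (T.b (T.l 204) (T.l 204))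 (T.c (T.l 204) (T.l 204)))) (T.c (T.c (T.l 16) (T.l 16)) (T.b (T.l 0) (T.l 0)))))), by decide +kernel⟩

def A022E_022_7_4_1 :
    ∃ t, chk3 (onCell 0 67108864 0 1073741824 67108864 67108864 (corTK [[⟨0, 0, 1, 33554432⟩, ⟨1, 1, 0, 16777216⟩, ⟨2, 1, 1, 33554432⟩, ⟨0, 0, 0, 150994944⟩, ⟨0, 1, 0, 1023410176⟩, ⟨2, 1, 0, 150994944⟩, ⟨2, 2, 0, 1023410176⟩]] true 1 c0F cA022E gF0q0 gF2q2 gF2q2 gF3q2 true false)) t 7 4 1 = true :=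
  ⟨(T.b (T.a (T.a (T.b (T.a (T.b (T.a (T.b (T.c (T.b (T.c (T.c (T.l 204) (T.l 220)) (T.a (T.l 220) (T.l 204))) (T.l 220)) (T.b (T.c (T.a (T.l 220) (T.l 220)) (T.a (T.c (T.l 220) (T.l 220)) (T.l 220))) (T.c (T.l 220) (T.l 220)))) (T.b (T.c (T.l 204) (T.l 204)) (T.l 204))) (T.b (T.c (T.b (T.a (T.l 220) (T.l 220)) (T.l 220)) (T.b (T.c (T.a (T.l 220) (T.l 220)) (T.a (T.l 220) (T.l 220))) (T.c (T.l 204) (T.l 204)))) (T.c (T.l 220) (T.c (T.l 204) (T.l 204))))) (T.b (T.a (T.l 204) (T.c (T.l 204) (T.l 204))) (T.c (T.l 204) (T.l 204)))) (T.b (T.c (T.b (T.a (T.b (T.a (T.l 220) (T.l 220)) (T.l 220)) (T.c (T.l 220) (T.b (T.l 220) (T.l 204)))) (T.a (T.l 220) (T.l 204))) (T.b (T.a (T.b (T.c (T.a (T.l 220) (T.l 220)) (T.a (T.l 220) (T.l 220))) (T.c (T.l 204) (T.l 204))) (T.b (T.c (T.b (T.l 220) (T.l 204)) (T.a (T.l 220)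 (T.l 220))) (T.l 220))) (T.a (T.c (T.l 204) (T.l 204)) (T.l 220)))) (T.c (T.b (T.c (T.l 204) (T.l 204)) (T.l 220)) (T.b (T.c (T.l 220) (T.l 220)) (T.l 220))))) (T.a (T.c (T.l 204) (T.l 204)) (T.b (T.b (T.c (T.l 204) (T.l 204)) (T.l 204)) (T.l 204)))) (T.b (T.a (T.b (T.c (T.b (T.a (T.c (T.l 220) (T.b (T.l 220) (T.l 204))) (T.c (T.l 220) (T.b (T.l 220) (T.l 204)))) (T.a (T.l 204) (T.l 204))) (T.b (T.a (T.b (T.a (T.l 220) (T.l 220)) (T.l 220)) (T.b (T.a (T.l 220) (T.l 220)) (T.l 220))) (T.a (T.l 220) (T.l 220)))) (T.c (T.b (T.l 220) (T.l 204)) (T.b (T.c (T.l 204) (T.l 204)) (T.l 204)))) (T.b (T.c (T.b (T.a (T.a (T.l 220) (T.l 220)) (T.c (T.l 220) (T.l 220))) (T.c (T.l 204) (T.l 220))) (T.b (T.a (T.b (T.a (T.l 220) (T.l 220)) (T.l 220)) (T.b (T.c (T.l 220) (T.l 220)) (T.l 204))) (T.a (T.l 204) (T.l 204))))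 (T.c (T.b (T.l 220) (T.l 204)) (T.a (T.l 220) (T.l 220))))) (T.a (T.b (T.c (T.b (T.l 204) (T.l 204)) (T.b (T.l 204) (T.l 204))) (T.c (T.l 0) (T.l 0))) (T.b (T.c (T.l 220) (T.l 220)) (T.c (T.l 204) (T.l 204)))))) (T.a (T.b (T.b (T.a (T.c (T.b (T.c (T.b (T.l 220) (T.l 204)) (T.a (T.l 220) (T.l 220))) (T.c (T.l 204) (T.l 220))) (T.b (T.a (T.b (T.c (T.l 220) (T.l 220)) (T.l 204)) (T.b (T.c (T.l 220) (T.l 220)) (T.l 204))) (T.a (T.l 204) (T.l 204)))) (T.c (T.b (T.b (T.a (T.l 220) (T.l 220)) (T.l 220)) (T.l 220)) (T.b (T.a (T.c (T.l 220) (T.b (T.l 220) (T.l 204))) (T.b (T.l 220) (T.l 204))) (T.c (T.l 220) (T.l 220))))) (T.a (T.c (T.b (T.l 204) (T.l 204)) (T.b (T.l 220) (T.l 204))) (T.c (T.b (T.l 204) (T.l 204)) (T.b (T.l 204) (T.l 204))))) (T.b (T.a (T.c (T.l 220) (T.l 220)) (T.c (T.l 204) (T.l 204))) (T.a (T.c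 (T.l 204) (T.l 204)) (T.c (T.l 204) (T.l 204))))) (T.b (T.b (T.a (T.c (T.b (T.a (T.l 220) (T.l 220)) (T.l 220)) (T.b (T.a (T.c (T.l 220) (T.l 220)) (T.c (T.l 220) (T.l 220))) (T.c (T.l 204) (T.l 220)))) (T.c (T.b (T.a (T.l 220) (T.l 220)) (T.l 204)) (T.b (T.b (T.a (T.l 220) (T.l 220)) (T.l 220)) (T.l 220)))) (T.a (T.b (T.c (T.l 204) (T.l 204)) (T.l 220)) (T.c (T.l 220) (T.b (T.l 204) (T.l 204))))) (T.b (T.a (T.c (T.l 204) (T.l 204)) (T.c (T.l 204) (T.l 204))) (T.a (T.c (T.l 204) (T.l 204)) (T.l 220)))))) (T.a (T.a (T.c (T.b (T.l 0) (T.l 0)) (T.b (T.l 0) (T.l 0))) (T.b (T.a (T.l 204) (T.b (T.c (T.l 0) (T.l 0)) (T.l 204))) (T.l 16))) (T.b (T.a (T.b (T.a (T.c (T.l 0) (T.l 0)) (T.l 220)) (T.a (T.l 0) (T.l 0))) (T.b (T.c (T.l 16) (T.l 16)) (T.c (T.l 0) (T.l 0)))) (T.a (T.b (T.c (T.l 20) (T.l 16)) (T.l 0)) (T.b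 (T.c (T.l 4) (T.l 0)) (T.c (T.l 4) (T.l 0))))))), by decide +kernel⟩

def A022E_022_3_5_1 :
    ∃ t, chk3 (onCell 0 67108864 0 1073741824 67108864 67108864 (corTK [[⟨0, 0, 1, 33554432⟩, ⟨1, 1, 0, 16777216⟩, ⟨2, 1, 1, 33554432⟩, ⟨0, 0, 0, 150994944⟩, ⟨0, 1, 0, 1023410176⟩, ⟨2, 1, 0, 150994944⟩, ⟨2, 2, 0, 1023410176⟩]] true 1 c0F cA022E gF0q0 gF2q2 gF2q2 gF3q2 true false)) t 3 5 1 = true :=
  ⟨(T.a (T.a (T.b (T.c (T.b (T.l 816) (T.l 816)) (T.l 820)) (T.c (T.b (T.l 816) (T.l 816)) (T.l 820))) (T.b (T.a (T.b (T.l 816) (T.l 816)) (T.c (T.l 4) (T.l 0))) (T.a (T.b (T.l 816) (T.l 820)) (T.b (T.b (T.l 820) (T.l 820)) (T.b (T.l 820) (T.l 820)))))) (T.b (T.a (T.a (T.b (T.l 4) (T.l 820)) (T.b (T.l 0) (T.l 820))) (T.b (T.a (T.l 0) (T.b (T.c (T.l 4) (T.l 0)) (T.l 816))) (T.c (T.l 20) (T.l 4)))) (T.a (T.a (T.b (T.l 820)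 (T.l 820)) (T.b (T.l 820) (T.l 820))) (T.a (T.b (T.l 820) (T.l 820)) (T.b (T.l 816) (T.l 816)))))), by decide +kernel⟩

def A022E_022_1_6_1 :
    ∃ t, chk3 (onCell 0 67108864 0 1073741824 67108864 67108864 (corTK [[⟨0, 0, 1, 33554432⟩, ⟨1, 1, 0, 16777216⟩, ⟨2, 1, 1, 33554432⟩, ⟨0, 0, 0, 150994944⟩, ⟨0, 1, 0, 1023410176⟩, ⟨2, 1, 0, 150994944⟩, ⟨2, 2, 0, 1023410176⟩]] true 1 c0F cA022E gF0q0 gF2q2 gF2q2 gF3q2 true false)) t 1 6 1 = true :=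
  ⟨(T.a (T.a (T.a (T.b (T.l 816) (T.l 816)) (T.a (T.b (T.l 816) (T.l 816)) (T.c (T.b (T.l 816) (T.l 816)) (T.l 816)))) (T.a (T.c (T.a (T.l 820) (T.l 820)) (T.c (T.l 820) (T.l 820))) (T.b (T.b (T.c (T.l 820) (T.l 820)) (T.l 820)) (T.a (T.b (T.l 816) (T.b (T.l 816) (T.l 820))) (T.b (T.l 820) (T.b (T.l 816) (T.l 820))))))) (T.b (T.a (T.a (T.b (T.a (T.l 816) (T.l 820)) (T.a (T.b (T.l 816) (T.l 816)) (T.l 820))) (T.a (T.b (T.l 820) (T.l 820)) (T.b (T.b (T.l 820) (T.l 820)) (T.b (T.l 820) (T.l 820))))) (T.a (T.a (T.b (T.l 820) (T.b (T.l 820) (T.l 820))) (T.b (T.l 820) (T.l 820))) (T.a (T.b (T.l 820) (T.l 820)) (T.b (T.l 820) (T.l 820))))) (T.a (T.a (T.b (T.a (T.l 820) (T.l 820)) (T.a (T.l 820) (T.l 820))) (T.a (T.b (T.l 820) (T.l 820)) (T.b (T.b (T.l 820) (T.l 820)) (T.c (T.l 820) (T.l 820))))) (T.a (T.a (T.b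 (T.b (T.l 820) (T.l 820)) (T.b (T.l 820) (T.l 820))) (T.b (T.l 820) (T.b (T.l 820) (T.l 820)))) (T.b (T.a (T.l 820) (T.l 820)) (T.a (T.b (T.l 820) (T.l 820)) (T.b (T.l 820) (T.l 820)))))))), by decide +kernel⟩

def A022E_022_1_14_1 :
    ∃ t, chk3 (onCell 0 67108864 0 1073741824 67108864 67108864 (corTK [[⟨0, 0, 1, 33554432⟩, ⟨1, 1, 0, 16777216⟩, ⟨2, 1, 1, 33554432⟩, ⟨0, 0, 0, 150994944⟩, ⟨0, 1, 0, 1023410176⟩, ⟨2, 1, 0, 150994944⟩, ⟨2, 2, 0, 1023410176⟩]] true 1 c0F cA022E gF0q0 gF2q2 gF2q2 gF3q2 true false)) t 1 14 1 = true :=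
  ⟨(T.a (T.a (T.a (T.l 816) (T.a (T.l 816) (T.c (T.l 820) (T.l 816)))) (T.b (T.a (T.a (T.b (T.l 816) (T.l 820)) (T.l 820)) (T.a (T.c (T.l 820) (T.l 816)) (T.b (T.l 820) (T.l 820)))) (T.a (T.a (T.c (T.l 816) (T.l 816)) (T.a (T.l 816) (T.b (T.l 816) (T.l 816)))) (T.a (T.c (T.b (T.l 816) (T.l 820)) (T.l 820)) (T.c (T.b (T.l 816) (T.l 820)) (T.l 820)))))) (T.b (T.a (T.a (T.a (T.b (T.l 820) (T.l 820)) (T.b (T.l 816) (T.l 820))) (T.a (T.l 820) (T.c (T.l 820) (T.l 820)))) (T.a (T.a (T.c (T.l 820) (T.l 820)) (T.c (T.l 820) (T.l 820))) (T.a (T.b (T.l 820) (T.l 820)) (T.b (T.l 820) (T.l 820))))) (T.a (T.a (T.a (T.c (T.l 820) (T.l 820)) (T.b (T.l 820) (T.l 820))) (T.a (T.b (T.l 820) (T.l 820)) (T.a (T.l 820) (T.b (T.l 820) (T.l 820))))) (T.a (T.a (T.c (T.c (T.l 820) (T.l 820)) (T.b (T.l 820) (T.l 820))) (T.c (T.b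 (T.l 820) (T.l 820)) (T.b (T.l 816) (T.l 820)))) (T.a (T.c (T.b (T.l 820) (T.l 820)) (T.l 820)) (T.c (T.l 820) (T.l 820))))))), by decide +kernel⟩

def A022E_022_1_30_1 :
    ∃ t, chk3 (onCell 0 67108864 0 1073741824 67108864 67108864 (corTK [[⟨0, 0, 1, 33554432⟩, ⟨1, 1, 0, 16777216⟩, ⟨2, 1, 1, 33554432⟩, ⟨0, 0, 0, 150994944⟩, ⟨0, 1, 0, 1023410176⟩, ⟨2, 1, 0, 150994944⟩, ⟨2, 2, 0, 1023410176⟩]] true 1 c0F cA022E gF0q0 gF2q2 gF2q2 gF3q2 true false)) t 1 30 1 = true :=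
  ⟨(T.a (T.a (T.a (T.l 816) (T.a (T.l 816) (T.c (T.l 820) (T.l 816)))) (T.b (T.a (T.a (T.c (T.l 816) (T.l 816)) (T.a (T.l 816) (T.l 820))) (T.a (T.c (T.l 820) (T.l 816)) (T.c (T.l 820) (T.l 816)))) (T.a (T.a (T.c (T.l 816) (T.l 816)) (T.a (T.l 820) (T.l 820))) (T.a (T.c (T.b (T.l 820) (T.l 820)) (T.l 820)) (T.c (T.b (T.l 820) (T.l 820)) (T.l 820)))))) (T.b (T.a (T.a (T.a (T.c (T.l 820) (T.l 816)) (T.c (T.l 820) (T.l 816))) (T.a (T.c (T.l 820) (T.l 816)) (T.a (T.l 820) (T.c (T.l 820) (T.l 816))))) (T.a (T.a (T.a (T.c (T.l 820) (T.l 816)) (T.c (T.l 820) (T.l 816))) (T.c (T.b (T.l 820) (T.l 820)) (T.l 820))) (T.a (T.c (T.l 820) (T.l 820)) (T.c (T.l 820) (T.l 820))))) (T.a (T.b (T.a (T.a (T.c (T.l 820) (T.l 816)) (T.c (T.l 820) (T.l 816))) (T.a (T.c (T.l 820) (T.l 816)) (T.a (T.l 820) (T.c (T.l 820) (T.l 816)))))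 (T.a (T.a (T.c (T.l 820) (T.l 816)) (T.c (T.l 820) (T.l 816))) (T.a (T.c (T.l 820) (T.l 816)) (T.a (T.l 820) (T.c (T.l 820) (T.l 820)))))) (T.b (T.a (T.a (T.a (T.c (T.l 820) (T.l 816)) (T.l 820)) (T.c (T.l 820) (T.l 820))) (T.a (T.c (T.l 820) (T.l 820)) (T.c (T.l 820) (T.l 820)))) (T.a (T.a (T.a (T.c (T.l 820) (T.l 816)) (T.c (T.l 820) (T.l 816))) (T.c (T.c (T.l 820) (T.l 820)) (T.c (T.l 820) (T.l 820)))) (T.a (T.c (T.l 820) (T.l 820)) (T.c (T.l 820) (T.l 820)))))))), by decide +kernel⟩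

def A022E_022_2_31_1 :
    ∃ t, chk3 (onCell 0 67108864 0 1073741824 67108864 67108864 (corTK [[⟨0, 0, 1, 33554432⟩, ⟨1, 1, 0, 16777216⟩, ⟨2, 1, 1, 33554432⟩, ⟨0, 0, 0, 150994944⟩, ⟨0, 1, 0, 1023410176⟩, ⟨2, 1, 0, 150994944⟩, ⟨2, 2, 0, 1023410176⟩]] true 1 c0F cA022E gF0q0 gF2q2 gF2q2 gF3q2 true false)) t 2 31 1 = true :=
  ⟨(T.b (T.a (T.a (T.l 816) (T.a (T.l 816) (T.c (T.b (T.l 816) (T.l 880)) (T.l 816)))) (T.b (T.a (T.c (T.a (T.l 816) (T.c (T.l 816) (T.l 816))) (T.a (T.l 816) (T.l 816))) (T.a (T.a (T.l 820) (T.l 820)) (T.a (T.l 820) (T.l 820)))) (T.c (T.a (T.a (T.l 816) (T.c (T.l 820) (T.l 816))) (T.a (T.c (T.l 820) (T.l 816)) (T.c (T.l 820) (T.l 816)))) (T.a (T.a (T.l 816) (T.l 820)) (T.a (T.l 820) (T.l 820)))))) (T.a (T.c (T.a (T.b (T.l 816) (T.l 816)) (T.b (T.a (T.l 816) (T.a (T.l 816) (T.l 816)))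 (T.c (T.a (T.l 816) (T.a (T.l 880) (T.b (T.l 816) (T.c (T.b (T.l 816) (T.a (T.l 816) (T.c (T.l 880) (T.l 816)))) (T.l 816))))) (T.a (T.l 816) (T.a (T.l 816) (T.l 816)))))) (T.a (T.l 816) (T.a (T.l 816) (T.a (T.l 816) (T.l 816))))) (T.b (T.c (T.a (T.a (T.c (T.l 816) (T.l 816)) (T.a (T.l 816) (T.l 816))) (T.a (T.a (T.l 816) (T.l 816)) (T.a (T.l 816) (T.l 820)))) (T.a (T.a (T.l 816) (T.c (T.l 816) (T.l 816))) (T.a (T.c (T.l 816) (T.l 816)) (T.c (T.l 816) (T.l 816))))) (T.c (T.a (T.c (T.b (T.a (T.c (T.l 816) (T.l 816)) (T.a (T.l 816) (T.l 816))) (T.a (T.c (T.a (T.a (T.l 880) (T.l 816)) (T.l 880)) (T.a (T.l 816) (T.l 816))) (T.c (T.a (T.a (T.l 816) (T.l 816)) (T.b (T.l 816) (T.l 880))) (T.a (T.l 816) (T.l 816))))) (T.b (T.a (T.l 816) (T.l 880)) (T.a (T.c (T.l 816) (T.l 816)) (T.a (T.l 816) (T.l 816))))) (T.b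 (T.c (T.a (T.c (T.l 880) (T.l 816)) (T.c (T.l 884) (T.l 816))) (T.a (T.l 816) (T.l 820))) (T.c (T.a (T.b (T.a (T.l 816) (T.l 816)) (T.c (T.a (T.l 880) (T.l 880)) (T.a (T.l 816) (T.l 816)))) (T.a (T.a (T.l 880) (T.l 880)) (T.a (T.l 880) (T.l 880)))) (T.a (T.a (T.l 816) (T.l 816)) (T.a (T.l 816) (T.l 816)))))) (T.a (T.c (T.a (T.l 816) (T.a (T.l 816) (T.l 816))) (T.a (T.l 816) (T.l 816))) (T.b (T.a (T.l 820) (T.l 820)) (T.c (T.a (T.l 880) (T.l 880)) (T.a (T.l 816) (T.l 816))))))))), by decide +kernel⟩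

def A022E_022_3_62_1 :
    ∃ t, chk3 (onCell 0 67108864 0 1073741824 67108864 67108864 (corTK [[⟨0, 0, 1, 33554432⟩, ⟨1, 1, 0, 16777216⟩, ⟨2, 1, 1, 33554432⟩, ⟨0, 0, 0, 150994944⟩, ⟨0, 1, 0, 1023410176⟩, ⟨2, 1, 0, 150994944⟩, ⟨2, 2, 0, 1023410176⟩]] true 1 c0F cA022E gF0q0 gF2q2 gF2q2 gF3q2 true false)) t 3 62 1 = true :=
  ⟨(T.a (T.b (T.a (T.a (T.c (T.l 820) (T.l 816)) (T.c (T.l 820) (T.l 816))) (T.a (T.c (T.l 820) (T.l 820)) (T.a (T.c (T.l 820) (T.l 816)) (T.c (T.l 820) (T.l 820))))) (T.c (T.a (T.a (T.c (T.l 820) (T.l 820)) (T.c (T.l 820) (T.l 820))) (T.a (T.c (T.l 820) (T.l 820)) (T.a (T.l 820) (T.c (T.l 820) (T.l 820))))) (T.a (T.a (T.l 820) (T.l 820)) (T.a (T.l 820) (T.a (T.l 820) (T.l 820)))))) (T.b (T.a (T.a (T.a (T.c (T.l 820) (T.l 820)) (T.c (T.l 820) (T.l 820))) (T.c (T.c (T.l 1024) (T.l 820))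 (T.c (T.l 820) (T.l 820)))) (T.a (T.c (T.c (T.l 1024) (T.l 820)) (T.c (T.l 820) (T.l 820))) (T.c (T.c (T.l 1024) (T.l 820)) (T.l 820)))) (T.c (T.a (T.a (T.a (T.c (T.l 820) (T.l 820)) (T.c (T.l 820) (T.l 820))) (T.a (T.c (T.l 1024) (T.l 820)) (T.l 820))) (T.c (T.l 1024) (T.a (T.b (T.l 820) (T.l 820)) (T.l 820)))) (T.a (T.a (T.a (T.l 820) (T.l 820)) (T.a (T.l 820) (T.l 820))) (T.a (T.a (T.l 820) (T.l 820)) (T.c (T.l 820) (T.l 820))))))), by decide +kernel⟩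

def A022E_022_3_63_1 :
    ∃ t, chk3 (onCell 0 67108864 0 1073741824 67108864 67108864 (corTK [[⟨0, 0, 1, 33554432⟩, ⟨1, 1, 0, 16777216⟩, ⟨2, 1, 1, 33554432⟩, ⟨0, 0, 0, 150994944⟩, ⟨0, 1, 0, 1023410176⟩, ⟨2, 1, 0, 150994944⟩, ⟨2, 2, 0, 1023410176⟩]] true 1 c0F cA022E gF0q0 gF2q2 gF2q2 gF3q2 true false)) t 3 63 1 = true :=
  ⟨(T.b (T.a (T.c (T.a (T.a (T.a (T.l 820) (T.l 820)) (T.a (T.l 820) (T.l 820))) (T.b (T.a (T.c (T.l 820) (T.l 820)) (T.a (T.l 820) (T.c (T.l 820) (T.l 820)))) (T.c (T.a (T.a (T.l 820) (T.l 820)) (T.a (T.l 820) (T.c (T.l 820) (T.l 820)))) (T.a (T.c (T.l 820) (T.l 820)) (T.a (T.l 820) (T.c (T.l 820) (T.l 820))))))) (T.a (T.a (T.c (T.l 816) (T.l 816)) (T.c (T.l 820) (T.l 816))) (T.a (T.a (T.l 816) (T.l 820)) (T.a (T.l 820) (T.c (T.l 820) (T.l 820)))))) (T.c (T.b (T.a (T.a (T.a (T.c (T.l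 820) (T.l 820)) (T.c (T.l 1024) (T.l 820))) (T.c (T.l 1024) (T.a (T.l 820) (T.l 820)))) (T.c (T.l 1024) (T.a (T.c (T.l 820) (T.l 820)) (T.c (T.l 1024) (T.l 820))))) (T.a (T.c (T.a (T.a (T.c (T.l 820) (T.l 820)) (T.l 1024)) (T.l 1024)) (T.a (T.a (T.l 820) (T.l 820)) (T.a (T.l 820) (T.l 820)))) (T.c (T.l 1024) (T.a (T.a (T.l 820) (T.l 820)) (T.a (T.l 820) (T.l 820)))))) (T.b (T.a (T.a (T.a (T.l 820) (T.l 820)) (T.a (T.l 820) (T.l 820))) (T.a (T.a (T.l 820) (T.l 820)) (T.c (T.l 820) (T.l 820)))) (T.a (T.c (T.a (T.a (T.l 820) (T.l 820)) (T.a (T.l 820) (T.l 820))) (T.a (T.a (T.l 820) (T.l 820)) (T.a (T.l 820) (T.l 820)))) (T.a (T.a (T.l 820) (T.l 820)) (T.a (T.l 820) (T.l 820))))))) (T.a (T.c (T.b (T.a (T.c (T.a (T.c (T.l 884) (T.l 820)) (T.a (T.l 820) (T.l 820))) (T.a (T.l 820) (T.c (T.l 820) (T.l 820)))) (T.c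 (T.a (T.a (T.l 884) (T.c (T.l 884) (T.l 820))) (T.a (T.c (T.l 884) (T.l 820)) (T.a (T.l 884) (T.c (T.l 884) (T.l 820))))) (T.a (T.a (T.l 820) (T.l 820)) (T.a (T.l 820) (T.a (T.l 820) (T.l 820)))))) (T.a (T.c (T.b (T.a (T.a (T.l 880) (T.l 880)) (T.a (T.l 884) (T.l 884))) (T.a (T.c (T.a (T.l 880) (T.c (T.l 880) (T.l 880))) (T.a (T.l 880) (T.l 880))) (T.c (T.a (T.c (T.l 884) (T.l 880)) (T.c (T.l 884) (T.l 884))) (T.a (T.l 880) (T.l 884))))) (T.b (T.a (T.l 884) (T.c (T.l 884) (T.l 820))) (T.a (T.a (T.l 816) (T.l 880)) (T.a (T.l 880) (T.l 884))))) (T.c (T.b (T.a (T.a (T.l 884) (T.c (T.l 884) (T.l 884))) (T.a (T.a (T.l 884) (T.l 884)) (T.a (T.l 884) (T.c (T.l 884) (T.l 884))))) (T.a (T.c (T.a (T.a (T.l 884) (T.l 884)) (T.a (T.l 884) (T.c (T.l 884) (T.l 884)))) (T.a (T.l 884) (T.a (T.l 884) (T.l 884)))) (T.c (T.b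 (T.a (T.c (T.l 884) (T.l 884)) (T.a (T.l 884) (T.c (T.l 884) (T.l 884)))) (T.a (T.a (T.c (T.l 884) (T.l 884)) (T.c (T.l 884) (T.l 884))) (T.a (T.c (T.l 884) (T.l 884)) (T.a (T.l 884) (T.c (T.l 884) (T.l 884)))))) (T.a (T.a (T.l 884) (T.l 884)) (T.a (T.l 884) (T.c (T.l 884) (T.l 884))))))) (T.b (T.a (T.a (T.l 820) (T.l 884)) (T.a (T.l 884) (T.a (T.l 884) (T.l 884)))) (T.a (T.a (T.l 884) (T.c (T.l 884) (T.l 884))) (T.c (T.a (T.c (T.l 884) (T.l 884)) (T.a (T.l 884) (T.l 884))) (T.a (T.l 884) (T.a (T.l 884) (T.l 884))))))))) (T.b (T.a (T.a (T.c (T.l 816) (T.l 816)) (T.c (T.l 820) (T.l 816))) (T.c (T.a (T.c (T.l 820) (T.l 820)) (T.a (T.l 820) (T.c (T.l 820) (T.l 820)))) (T.a (T.l 820) (T.a (T.l 816) (T.l 820))))) (T.a (T.c (T.a (T.l 884) (T.c (T.l 884) (T.l 816))) (T.a (T.l 816) (T.l 816))) (T.c (T.b (T.a (T.c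 (T.l 884) (T.l 884)) (T.a (T.l 820) (T.c (T.l 884) (T.l 884)))) (T.a (T.a (T.l 816) (T.l 884)) (T.a (T.l 884) (T.a (T.l 884) (T.l 884))))) (T.b (T.a (T.l 884) (T.a (T.l 816) (T.l 884))) (T.a (T.c (T.l 884) (T.l 880)) (T.a (T.l 816) (T.c (T.l 884) (T.l 884))))))))) (T.c (T.b (T.a (T.c (T.a (T.a (T.a (T.l 884) (T.l 1024)) (T.l 1024)) (T.l 1024)) (T.b (T.a (T.a (T.c (T.l 820) (T.l 820)) (T.l 820)) (T.a (T.l 820) (T.l 820))) (T.a (T.a (T.c (T.l 884) (T.l 820)) (T.c (T.l 884) (T.l 820))) (T.a (T.c (T.l 884) (T.l 820)) (T.c (T.l 884) (T.l 820)))))) (T.c (T.l 1024) (T.a (T.a (T.c (T.l 884) (T.l 884)) (T.c (T.l 1024) (T.l 884))) (T.c (T.l 1024) (T.a (T.l 884) (T.l 884)))))) (T.a (T.c (T.a (T.a (T.a (T.a (T.c (T.c (T.b (T.l 884) (T.l 884)) (T.l 884)) (T.l 884)) (T.l 1024)) (T.l 1024)) (T.l 1024)) (T.l 1024)) (T.b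 (T.a (T.a (T.a (T.l 884) (T.l 884)) (T.a (T.l 884) (T.l 884))) (T.a (T.a (T.l 884) (T.l 884)) (T.a (T.l 884) (T.l 884)))) (T.a (T.c (T.b (T.a (T.a (T.l 884) (T.l 884)) (T.a (T.l 884) (T.l 884))) (T.a (T.a (T.l 884) (T.l 884)) (T.a (T.l 884) (T.l 884)))) (T.a (T.a (T.l 884) (T.l 884)) (T.a (T.l 884) (T.l 884)))) (T.c (T.a (T.a (T.l 884) (T.l 884)) (T.a (T.l 884) (T.l 884))) (T.a (T.a (T.l 884) (T.l 884)) (T.a (T.l 884) (T.l 884))))))) (T.c (T.l 1024) (T.b (T.a (T.a (T.a (T.l 884) (T.l 884)) (T.c (T.l 1024) (T.l 884))) (T.c (T.l 1024) (T.a (T.l 884) (T.l 884)))) (T.a (T.c (T.a (T.a (T.c (T.l 1024) (T.l 884)) (T.l 1024)) (T.l 1024)) (T.a (T.a (T.l 884) (T.l 884)) (T.a (T.l 884) (T.l 884)))) (T.c (T.l 1024) (T.a (T.a (T.l 884) (T.l 884)) (T.a (T.l 884) (T.l 884))))))))) (T.b (T.a (T.c (T.b (T.a (T.a (T.l 820)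 (T.l 820)) (T.a (T.l 820) (T.l 820))) (T.a (T.a (T.l 820) (T.l 820)) (T.a (T.l 820) (T.l 820)))) (T.a (T.a (T.l 820) (T.l 820)) (T.a (T.l 820) (T.l 820)))) (T.c (T.a (T.a (T.l 884) (T.l 884)) (T.a (T.l 884) (T.l 884))) (T.a (T.a (T.l 820) (T.l 820)) (T.a (T.l 820) (T.l 820))))) (T.a (T.c (T.b (T.a (T.a (T.c (T.l 884) (T.l 884)) (T.c (T.l 884) (T.l 820))) (T.a (T.l 884) (T.l 884))) (T.a (T.c (T.a (T.c (T.l 884) (T.l 884)) (T.l 884)) (T.a (T.l 884) (T.l 884))) (T.a (T.c (T.l 884) (T.l 884)) (T.a (T.l 884) (T.l 884))))) (T.b (T.a (T.a (T.l 884) (T.l 820)) (T.a (T.l 820) (T.l 884))) (T.a (T.a (T.l 884) (T.l 884)) (T.a (T.l 884) (T.l 884))))) (T.c (T.b (T.a (T.a (T.l 884) (T.l 884)) (T.a (T.l 884) (T.l 884))) (T.a (T.a (T.a (T.l 884) (T.l 884)) (T.a (T.l 884) (T.l 884))) (T.a (T.a (T.l 884) (T.l 884)) (T.a (T.l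 884) (T.l 884))))) (T.b (T.a (T.a (T.l 884) (T.l 884)) (T.a (T.l 884) (T.l 884))) (T.a (T.a (T.l 884) (T.l 884)) (T.a (T.l 884) (T.l 884)))))))))), by decide +kernel⟩

theorem A022E_022_3_31_1 :
    ∃ t, chk3 (onCell 0 67108864 0 1073741824 67108864 67108864 (corTK [[⟨0, 0, 1, 33554432⟩, ⟨1, 1, 0, 16777216⟩, ⟨2, 1, 1, 33554432⟩, ⟨0, 0, 0, 150994944⟩, ⟨0, 1, 0, 1023410176⟩, ⟨2, 1, 0, 150994944⟩, ⟨2, 2, 0, 1023410176⟩]] true 1 c0F cA022E gF0q0 gF2q2 gF2q2 gF3q2 true false)) t 3 31 1 = true :=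
  ex3_b A022E_022_3_62_1 A022E_022_3_63_1
theorem A022E_022_1_31_1 :
    ∃ t, chk3 (onCell 0 67108864 0 1073741824 67108864 67108864 (corTK [[⟨0, 0, 1, 33554432⟩, ⟨1, 1, 0, 16777216⟩, ⟨2, 1, 1, 33554432⟩, ⟨0, 0, 0, 150994944⟩, ⟨0, 1, 0, 1023410176⟩, ⟨2, 1, 0, 150994944⟩, ⟨2, 2, 0, 1023410176⟩]] true 1 c0F cA022E gF0q0 gF2q2 gF2q2 gF3q2 true false)) t 1 31 1 = true :=
  ex3_a A022E_022_2_31_1 A022E_022_3_31_1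
theorem A022E_022_1_15_1 :
    ∃ t, chk3 (onCell 0 67108864 0 1073741824 67108864 67108864 (corTK [[⟨0, 0, 1, 33554432⟩, ⟨1, 1, 0, 16777216⟩, ⟨2, 1, 1, 33554432⟩, ⟨0, 0, 0, 150994944⟩, ⟨0, 1, 0, 1023410176⟩, ⟨2, 1, 0, 150994944⟩, ⟨2, 2, 0, 1023410176⟩]] true 1 c0F cA022E gF0q0 gF2q2 gF2q2 gF3q2 true false)) t 1 15 1 = true :=
  ex3_b A022E_022_1_30_1 A022E_022_1_31_1
theorem A022E_022_1_7_1 :
    ∃ t, chk3 (onCell 0 67108864 0 1073741824 67108864 67108864 (corTK [[⟨0, 0, 1, 33554432⟩, ⟨1, 1, 0, 16777216⟩, ⟨2, 1, 1, 33554432⟩, ⟨0, 0, 0, 150994944⟩, ⟨0, 1, 0, 1023410176⟩, ⟨2, 1, 0, 150994944⟩, ⟨2, 2, 0, 1023410176⟩]] true 1 c0F cA022E gF0q0 gF2q2 gF2q2 gF3q2 true false)) t 1 7 1 = true :=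
  ex3_b A022E_022_1_14_1 A022E_022_1_15_1
theorem A022E_022_1_3_1 :
    ∃ t, chk3 (onCell 0 67108864 0 1073741824 67108864 67108864 (corTK [[⟨0, 0, 1, 33554432⟩, ⟨1, 1, 0, 16777216⟩, ⟨2, 1, 1, 33554432⟩, ⟨0, 0, 0, 150994944⟩, ⟨0, 1, 0, 1023410176⟩, ⟨2, 1, 0, 150994944⟩, ⟨2, 2, 0, 1023410176⟩]] true 1 c0F cA022E gF0q0 gF2q2 gF2q2 gF3q2 true false)) t 1 3 1 = true :=
  ex3_b A022E_022_1_6_1 A022E_022_1_7_1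
theorem A022E_022_3_4_1 :
    ∃ t, chk3 (onCell 0 67108864 0 1073741824 67108864 67108864 (corTK [[⟨0, 0, 1, 33554432⟩, ⟨1, 1, 0, 16777216⟩, ⟨2, 1, 1, 33554432⟩, ⟨0, 0, 0, 150994944⟩, ⟨0, 1, 0, 1023410176⟩, ⟨2, 1, 0, 150994944⟩, ⟨2, 2, 0, 1023410176⟩]] true 1 c0F cA022E gF0q0 gF2q2 gF2q2 gF3q2 true false)) t 3 4 1 = true :=
  ex3_a A022E_022_6_4_1 A022E_022_7_4_1
theorem A022E_022_3_2_1 :
    ∃ t, chk3 (onCell 0 67108864 0 1073741824 67108864 67108864 (corTK [[⟨0, 0, 1, 33554432⟩, ⟨1, 1, 0, 16777216⟩, ⟨2, 1, 1, 33554432⟩, ⟨0, 0, 0, 150994944⟩, ⟨0, 1, 0, 1023410176⟩, ⟨2, 1, 0, 150994944⟩, ⟨2, 2, 0, 1023410176⟩]] true 1 c0F cA022E gF0q0 gF2q2 gF2q2 gF3q2 true false)) t 3 2 1 = true :=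
  ex3_b A022E_022_3_4_1 A022E_022_3_5_1
theorem A022E_022_1_2_1 :
    ∃ t, chk3 (onCell 0 67108864 0 1073741824 67108864 67108864 (corTK [[⟨0, 0, 1, 33554432⟩, ⟨1, 1, 0, 16777216⟩, ⟨2, 1, 1, 33554432⟩, ⟨0, 0, 0, 150994944⟩, ⟨0, 1, 0, 1023410176⟩, ⟨2, 1, 0, 150994944⟩, ⟨2, 2, 0, 1023410176⟩]] true 1 c0F cA022E gF0q0 gF2q2 gF2q2 gF3q2 true false)) t 1 2 1 = true :=
  ex3_a A022E_022_2_2_1 A022E_022_3_2_1
theorem A022E_022 :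
    ∃ t, chk3 (onCell 0 67108864 0 1073741824 67108864 67108864 (corTK [[⟨0, 0, 1, 33554432⟩, ⟨1, 1, 0, 16777216⟩, ⟨2, 1, 1, 33554432⟩, ⟨0, 0, 0, 150994944⟩, ⟨0, 1, 0, 1023410176⟩, ⟨2, 1, 0, 150994944⟩, ⟨2, 2, 0, 1023410176⟩]] true 1 c0F cA022E gF0q0 gF2q2 gF2q2 gF3q2 true false)) t 1 1 1 = true :=
  ex3_b A022E_022_1_2_1 A022E_022_1_3_1

def A022E_110 :
    ∃ t, chk3 (onCell 0 67108864 0 1073741824 67108864 67108864 (corTK [] true 1 c0F cA022E gF1q0 gF1q2 gF0q2 gF1q2 true true)) t 1 1 1 = true :=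
  ⟨(T.l 2), by decide +kernel⟩

def A022E_111 :
    ∃ t, chk3 (onCell 0 67108864 0 1073741824 67108864 67108864 (corTK [] true 1 c0F cA022E gF1q0 gF1q2 gF1q2 gF2q2 true true)) t 1 1 1 = true :=
  ⟨(T.l 2), by decide +kernel⟩

def A022E_112 :
    ∃ t, chk3 (onCell 0 67108864 0 1073741824 67108864 67108864 (corTK [] true 1 c0F cA022E gF1q0 gF1q2 gF2q2 gF3q2 true false)) t 1 1 1 = true :=
  ⟨(T.b (T.b (T.a (T.a (T.a (T.b (T.b (T.b (T.b (T.b (T.c (T.c (T.a (T.l 204) (T.l 204)) (T.l 204)) (T.l 204)) (T.l 204)) (T.l 204)) (T.l 204)) (T.l 0)) (T.l 816)) (T.a (T.b (T.b (T.b (T.l 204) (T.l 204)) (T.l 0)) (T.l 816)) (T.b (T.b (T.a (T.l 204) (T.b (T.a (T.l 204) (T.l 204)) (T.l 204))) (T.l 0)) (T.l 0)))) (T.b (T.a (T.b (T.b (T.a (T.b (T.a (T.c (T.l 204) (T.l 204)) (T.l 204)) (T.l 204)) (T.a (T.l 220) (T.l 204))) (T.l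 204)) (T.l 0)) (T.b (T.b (T.b (T.a (T.c (T.l 204) (T.l 204)) (T.l 204)) (T.l 204)) (T.l 204)) (T.l 0))) (T.l 0))) (T.a (T.a (T.b (T.b (T.a (T.b (T.l 204) (T.l 204)) (T.l 204)) (T.l 0)) (T.l 0)) (T.b (T.b (T.a (T.l 204) (T.b (T.l 204) (T.l 204))) (T.l 0)) (T.l 0))) (T.b (T.a (T.a (T.b (T.l 204) (T.l 204)) (T.l 220)) (T.a (T.l 204) (T.l 204))) (T.b (T.l 0) (T.l 0))))) (T.b (T.a (T.a (T.a (T.l 816) (T.l 816)) (T.l 0)) (T.a (T.a (T.l 816) (T.l 0)) (T.l 0))) (T.a (T.a (T.a (T.l 816) (T.l 816)) (T.l 0)) (T.a (T.b (T.l 0) (T.l 0)) (T.l 0))))) (T.b (T.b (T.a (T.a (T.a (T.l 816) (T.l 816)) (T.l 0)) (T.a (T.l 0) (T.l 0))) (T.a (T.a (T.a (T.l 816) (T.l 816)) (T.l 816)) (T.a (T.l 0) (T.l 0)))) (T.a (T.a (T.a (T.l 816) (T.l 0)) (T.l 0)) (T.b (T.a (T.l 0) (T.l 0)) (T.a (T.l 0) (T.l 816)))))), by decide +kernel⟩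

def A022E_120 :
    ∃ t, chk3 (onCell 0 67108864 0 1073741824 67108864 67108864 (corTK [] true 1 c0F cA022E gF1q0 gF2q2 gF0q2 gF1q2 true true)) t 1 1 1 = true :=
  ⟨(T.l 2), by decide +kernel⟩

def A022E_121 :
    ∃ t, chk3 (onCell 0 67108864 0 1073741824 67108864 67108864 (corTK [] true 1 c0F cA022E gF1q0 gF2q2 gF1q2 gF2q2 true true)) t 1 1 1 = true :=
  ⟨(T.b (T.b (T.b (T.b (T.a (T.b (T.a (T.b (T.a (T.l 204) (T.l 2)) (T.l 2)) (T.l 2)) (T.l 2)) (T.l 2)) (T.l 2)) (T.l 2)) (T.l 2)) (T.l 2)), by decide +kernel⟩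

def A022E_122 :
    ∃ t, chk3 (onCell 0 67108864 0 1073741824 67108864 67108864 (corTK [] true 1 c0F cA022E gF1q0 gF2q2 gF2q2 gF3q2 true false)) t 1 1 1 = true :=
  ⟨(T.b (T.b (T.b (T.b (T.b (T.a (T.a (T.a (T.c (T.l 204) (T.l 204)) (T.a (T.c (T.l 204) (T.l 204)) (T.a (T.l 204) (T.a (T.l 204) (T.c (T.b (T.l 204) (T.l 204)) (T.l 204)))))) (T.a (T.a (T.b (T.b (T.a (T.c (T.c (T.l 204) (T.l 204)) (T.l 204)) (T.b (T.c (T.a (T.l 204) (T.l 204)) (T.l 204)) (T.l 204))) (T.l 204)) (T.l 204)) (T.b (T.b (T.a (T.b (T.c (T.c (T.c (T.l 204) (T.l 204)) (T.l 204)) (T.c (T.l 204) (T.l 204))) (T.l 204)) (T.b (T.c (T.b (T.c (T.c (T.l 220) (T.l 204)) (T.l 220)) (T.l 204)) (T.c (T.l 204) (T.l 204))) (T.l 204))) (T.l 204)) (T.l 204))) (T.b (T.a (T.b (T.c (T.b (T.a (T.b (T.c (T.a (T.l 204) (T.l 220)) (T.c (T.l 204) (T.l 204)))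 (T.l 204)) (T.b (T.c (T.b (T.a (T.l 220) (T.c (T.l 204) (T.l 204))) (T.l 204)) (T.c (T.l 204) (T.l 204))) (T.l 204))) (T.l 204)) (T.b (T.a (T.c (T.l 204) (T.l 204)) (T.a (T.l 204) (T.l 204))) (T.l 204))) (T.l 204)) (T.b (T.c (T.b (T.a (T.b (T.c (T.b (T.c (T.a (T.l 204) (T.l 220)) (T.c (T.l 220) (T.l 204))) (T.l 204)) (T.a (T.l 204) (T.l 204))) (T.l 204)) (T.b (T.c (T.b (T.c (T.a (T.l 220) (T.l 220)) (T.a (T.l 204) (T.l 204))) (T.l 204)) (T.a (T.l 220) (T.l 220))) (T.l 204))) (T.l 204)) (T.b (T.a (T.c (T.c (T.l 204) (T.l 204)) (T.l 204)) (T.b (T.c (T.c (T.l 204) (T.l 204)) (T.l 220)) (T.l 204))) (T.l 204))) (T.l 204))) (T.l 204)))) (T.b (T.a (T.a (T.a (T.b (T.b (T.c (T.b (T.a (T.c (T.b (T.c (T.a (T.l 220) (T.l 220)) (T.a (T.l 204) (T.l 220))) (T.l 204)) (T.a (T.l 220) (T.c (T.l 204) (T.l 204)))) (T.c (T.b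 (T.c (T.a (T.l 220) (T.l 220)) (T.a (T.l 220) (T.l 220))) (T.l 204)) (T.b (T.c (T.c (T.l 220) (T.l 220)) (T.c (T.l 220) (T.l 220))) (T.l 204)))) (T.l 204)) (T.b (T.a (T.c (T.c (T.l 220) (T.l 204)) (T.c (T.l 204) (T.l 204))) (T.c (T.a (T.l 204) (T.l 220)) (T.c (T.l 204) (T.l 204)))) (T.l 204))) (T.l 204)) (T.l 204)) (T.b (T.b (T.c (T.b (T.a (T.c (T.b (T.c (T.c (T.l 220) (T.l 220)) (T.c (T.l 220) (T.l 220))) (T.l 204)) (T.b (T.a (T.l 220) (T.l 220)) (T.l 204))) (T.c (T.a (T.c (T.l 220) (T.l 204)) (T.l 220)) (T.a (T.l 220) (T.l 220)))) (T.l 204)) (T.b (T.a (T.c (T.a (T.l 220) (T.l 220)) (T.c (T.l 220) (T.l 204))) (T.c (T.a (T.l 220) (T.l 220)) (T.c (T.l 220) (T.l 220)))) (T.l 204))) (T.l 204)) (T.l 204))) (T.a (T.b (T.b (T.c (T.b (T.c (T.b (T.a (T.c (T.l 220) (T.l 220)) (T.c (T.l 220) (T.l 220))) (T.l 204))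 (T.b (T.a (T.c (T.l 220) (T.l 220)) (T.c (T.l 220) (T.l 220))) (T.l 204))) (T.l 204)) (T.b (T.a (T.c (T.c (T.l 220) (T.l 220)) (T.c (T.l 220) (T.l 220))) (T.c (T.c (T.l 220) (T.l 220)) (T.c (T.l 220) (T.l 220)))) (T.l 204))) (T.l 204)) (T.l 204)) (T.b (T.a (T.b (T.c (T.b (T.c (T.c (T.l 204) (T.l 204)) (T.c (T.l 220) (T.l 220))) (T.l 204)) (T.b (T.c (T.c (T.l 220) (T.l 220)) (T.c (T.l 220) (T.l 220))) (T.l 204))) (T.l 204)) (T.b (T.c (T.b (T.a (T.l 220) (T.a (T.l 204) (T.l 220))) (T.l 204)) (T.b (T.a (T.c (T.l 204) (T.l 204)) (T.a (T.l 204) (T.l 220))) (T.l 204))) (T.l 204))) (T.l 204)))) (T.a (T.a (T.a (T.b (T.b (T.a (T.c (T.a (T.l 220) (T.l 220)) (T.b (T.a (T.l 220) (T.l 220)) (T.l 204))) (T.c (T.c (T.l 220) (T.l 220)) (T.a (T.c (T.l 204) (T.l 220)) (T.l 220)))) (T.l 204)) (T.l 204)) (T.b (T.b (T.c (T.b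 (T.c (T.a (T.l 204) (T.l 204)) (T.a (T.l 220) (T.l 220))) (T.l 204)) (T.b (T.a (T.a (T.l 220) (T.l 220)) (T.a (T.l 220) (T.l 204))) (T.l 204))) (T.l 204)) (T.l 204))) (T.b (T.a (T.b (T.c (T.a (T.c (T.l 204) (T.l 220)) (T.l 220)) (T.b (T.a (T.c (T.l 220) (T.l 220)) (T.c (T.l 220) (T.l 220))) (T.l 204))) (T.l 204)) (T.b (T.c (T.a (T.l 220) (T.l 220)) (T.b (T.a (T.c (T.l 220) (T.l 220)) (T.l 220)) (T.l 204))) (T.l 204))) (T.l 204))) (T.a (T.b (T.a (T.b (T.c (T.a (T.l 220) (T.l 220)) (T.a (T.c (T.l 204) (T.l 220)) (T.l 220))) (T.l 204)) (T.b (T.c (T.c (T.l 220) (T.l 220)) (T.a (T.l 220) (T.l 220))) (T.l 204))) (T.l 204)) (T.b (T.a (T.b (T.c (T.c (T.l 204) (T.l 220)) (T.a (T.l 220) (T.l 220))) (T.l 204)) (T.b (T.c (T.l 220) (T.a (T.l 220) (T.l 204))) (T.l 204))) (T.l 204))))) (T.a (T.a (T.l 204) (T.a (T.l 204)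 (T.l 204))) (T.a (T.a (T.l 0) (T.l 0)) (T.a (T.l 204) (T.l 204)))))) (T.a (T.a (T.a (T.l 0) (T.a (T.l 0) (T.l 0))) (T.a (T.l 0) (T.l 0))) (T.a (T.a (T.l 0) (T.c (T.l 0) (T.l 0))) (T.a (T.a (T.l 0) (T.l 0)) (T.l 0))))) (T.b (T.a (T.a (T.a (T.l 816) (T.l 0)) (T.l 0)) (T.a (T.a (T.l 0) (T.l 0)) (T.a (T.l 0) (T.l 0)))) (T.a (T.a (T.a (T.l 816) (T.l 816)) (T.l 816)) (T.a (T.a (T.l 816) (T.l 0)) (T.a (T.l 0) (T.l 0)))))) (T.b (T.b (T.a (T.a (T.a (T.l 816) (T.l 816)) (T.l 816)) (T.a (T.a (T.l 816) (T.l 0)) (T.a (T.l 0) (T.l 0)))) (T.a (T.a (T.a (T.l 816) (T.l 816)) (T.l 816)) (T.a (T.a (T.l 816) (T.l 0)) (T.a (T.l 0) (T.l 0))))) (T.b (T.a (T.a (T.a (T.l 816) (T.l 816)) (T.l 816)) (T.a (T.a (T.l 816) (T.l 0)) (T.c (T.l 0) (T.l 0)))) (T.a (T.a (T.a (T.l 816) (T.l 816)) (T.l 816)) (T.a (T.c (T.l 0) (T.l 4)) (T.l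 4)))))) (T.b (T.b (T.b (T.a (T.a (T.a (T.l 816) (T.l 816)) (T.l 816)) (T.a (T.c (T.l 0) (T.l 0)) (T.l 0))) (T.a (T.a (T.a (T.l 816) (T.l 816)) (T.l 816)) (T.a (T.l 0) (T.l 0)))) (T.b (T.b (T.a (T.a (T.a (T.l 816) (T.l 816)) (T.l 816)) (T.a (T.l 0) (T.l 0))) (T.a (T.a (T.a (T.l 816) (T.l 816)) (T.l 816)) (T.a (T.l 0) (T.l 0)))) (T.a (T.a (T.a (T.l 816) (T.l 816)) (T.l 816)) (T.a (T.l 0) (T.l 0))))) (T.b (T.a (T.a (T.a (T.l 816) (T.l 816)) (T.l 816)) (T.a (T.l 0) (T.l 0))) (T.a (T.a (T.a (T.l 816) (T.l 816)) (T.l 816)) (T.a (T.l 0) (T.l 0)))))) (T.b (T.b (T.a (T.a (T.a (T.l 816) (T.l 816)) (T.l 0)) (T.a (T.l 0) (T.l 0))) (T.a (T.a (T.a (T.l 816) (T.l 816)) (T.l 816)) (T.a (T.l 0) (T.l 816)))) (T.b (T.a (T.a (T.a (T.l 816) (T.l 816)) (T.l 816)) (T.a (T.l 0) (T.l 816))) (T.a (T.a (T.a (T.l 816) (T.l 816)) (T.l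 816)) (T.a (T.l 0) (T.l 816)))))), by decide +kernel⟩

def A022E_220 :
    ∃ t, chk3 (onCell 0 67108864 0 1073741824 67108864 67108864 (corTK [] true 1 c0F cA022E gF2q0 gF2q2 gF0q2 gF1q2 true true)) t 1 1 1 = true :=
  ⟨(T.l 2), by decide +kernel⟩

def A022E_221 :
    ∃ t, chk3 (onCell 0 67108864 0 1073741824 67108864 67108864 (corTK [] true 1 c0F cA022E gF2q0 gF2q2 gF1q2 gF2q2 true true)) t 1 1 1 = true :=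
  ⟨(T.b (T.b (T.b (T.b (T.a (T.b (T.a (T.b (T.a (T.c (T.l 204) (T.l 204)) (T.l 2)) (T.l 2)) (T.l 2)) (T.l 2)) (T.l 2)) (T.l 2)) (T.l 2)) (T.l 2)) (T.l 2)), by decide +kernel⟩

def A022E_222 :
    ∃ t, chk3 (onCell 0 67108864 0 1073741824 67108864 67108864 (corTK [] true 1 c0F cA022E gF2q0 gF2q2 gF2q2 gF3q2 true false)) t 1 1 1 = true :=
  ⟨(T.b (T.b (T.b (T.b (T.b (T.a (T.a (T.a (T.c (T.b (T.l 204) (T.l 0)) (T.l 0)) (T.a (T.c (T.b (T.l 204) (T.l 0)) (T.l 0)) (T.b (T.a (T.l 220) (T.a (T.l 204) (T.c (T.c (T.l 204) (T.l 204)) (T.l 204)))) (T.l 0)))) (T.a (T.b (T.a (T.b (T.a (T.c (T.a (T.l 204) (T.l 204)) (T.l 220)) (T.b (T.c (T.a (T.l 204) (T.l 220)) (T.c (T.l 204) (T.l 204))) (T.l 204))) (T.l 204)) (T.b (T.b (T.a (T.c (T.c (T.c (T.l 204) (T.l 204)) (T.l 204)) (T.c (T.l 204) (T.l 204))) (T.c (T.b (T.c (T.a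 (T.l 204) (T.l 204)) (T.c (T.l 204) (T.l 204))) (T.l 204)) (T.c (T.l 204) (T.l 204)))) (T.l 204)) (T.l 204))) (T.l 0)) (T.b (T.b (T.a (T.b (T.c (T.b (T.a (T.c (T.a (T.l 204) (T.l 220)) (T.c (T.l 204) (T.l 204))) (T.c (T.b (T.c (T.a (T.l 204) (T.l 204)) (T.c (T.l 204) (T.l 204))) (T.l 204)) (T.c (T.l 220) (T.l 204)))) (T.l 204)) (T.b (T.a (T.c (T.l 204) (T.l 204)) (T.a (T.l 204) (T.l 204))) (T.l 204))) (T.l 204)) (T.b (T.c (T.b (T.a (T.c (T.b (T.c (T.a (T.l 204) (T.l 220)) (T.c (T.l 220) (T.l 220))) (T.l 204)) (T.a (T.l 204) (T.l 204))) (T.c (T.b (T.c (T.a (T.l 220) (T.l 220)) (T.a (T.l 204) (T.l 204))) (T.l 204)) (T.a (T.l 220) (T.c (T.l 204) (T.l 204))))) (T.l 204)) (T.b (T.a (T.c (T.c (T.l 204) (T.l 204)) (T.l 204)) (T.c (T.c (T.l 220) (T.l 204)) (T.l 220))) (T.l 204))) (T.l 204))) (T.l 204)) (T.l 0))))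 (T.b (T.a (T.a (T.b (T.a (T.b (T.c (T.b (T.a (T.c (T.b (T.c (T.a (T.l 220) (T.l 220)) (T.a (T.l 220) (T.l 220))) (T.l 204)) (T.b (T.a (T.l 220) (T.c (T.l 204) (T.l 204))) (T.l 204))) (T.c (T.b (T.c (T.a (T.l 220) (T.l 220)) (T.a (T.l 220) (T.l 220))) (T.l 204)) (T.b (T.c (T.c (T.l 220) (T.l 220)) (T.c (T.l 220) (T.l 220))) (T.l 204)))) (T.l 204)) (T.b (T.a (T.c (T.a (T.l 204) (T.l 204)) (T.c (T.l 204) (T.l 204))) (T.c (T.a (T.l 220) (T.l 220)) (T.c (T.l 204) (T.l 204)))) (T.l 204))) (T.l 204)) (T.b (T.c (T.b (T.c (T.b (T.c (T.b (T.a (T.c (T.l 220) (T.l 220)) (T.c (T.l 220) (T.l 220))) (T.l 204)) (T.b (T.a (T.c (T.l 220) (T.l 220)) (T.c (T.l 220) (T.l 220))) (T.l 204))) (T.l 204)) (T.b (T.c (T.b (T.a (T.c (T.l 220) (T.l 220)) (T.c (T.l 220) (T.l 220))) (T.l 204)) (T.b (T.a (T.c (T.l 220) (T.l 220)) (T.c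 (T.l 220) (T.l 220))) (T.l 204))) (T.l 204))) (T.l 204)) (T.b (T.c (T.b (T.c (T.b (T.a (T.c (T.l 220) (T.l 204)) (T.c (T.l 220) (T.l 220))) (T.l 204)) (T.a (T.l 220) (T.l 220))) (T.l 204)) (T.b (T.c (T.a (T.l 220) (T.l 220)) (T.a (T.l 204) (T.l 220))) (T.l 204))) (T.l 204))) (T.l 204))) (T.l 204)) (T.a (T.b (T.b (T.c (T.b (T.c (T.b (T.c (T.a (T.l 220) (T.l 220)) (T.a (T.l 220) (T.l 220))) (T.l 204)) (T.b (T.c (T.a (T.l 220) (T.l 220)) (T.a (T.l 220) (T.l 220))) (T.l 204))) (T.l 204)) (T.b (T.c (T.b (T.c (T.a (T.l 220) (T.l 220)) (T.a (T.l 220) (T.l 220))) (T.l 204)) (T.b (T.c (T.a (T.l 220) (T.l 220)) (T.a (T.l 220) (T.l 220))) (T.l 204))) (T.l 204))) (T.l 204)) (T.l 204)) (T.b (T.a (T.b (T.c (T.b (T.c (T.c (T.l 204) (T.l 204)) (T.c (T.l 220) (T.l 220))) (T.l 204)) (T.b (T.c (T.c (T.l 220) (T.l 220)) (T.c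 (T.l 220) (T.l 220))) (T.l 204))) (T.l 204)) (T.b (T.c (T.b (T.a (T.l 220) (T.a (T.l 204) (T.l 220))) (T.l 204)) (T.b (T.c (T.a (T.l 204) (T.a (T.l 204) (T.l 204))) (T.a (T.l 204) (T.a (T.l 204) (T.l 220)))) (T.l 204))) (T.l 204))) (T.l 0)))) (T.a (T.a (T.b (T.a (T.b (T.c (T.b (T.c (T.a (T.l 220) (T.l 204)) (T.a (T.c (T.l 220) (T.l 220)) (T.l 220))) (T.l 204)) (T.b (T.c (T.b (T.a (T.c (T.l 220) (T.l 220)) (T.c (T.l 220) (T.l 220))) (T.l 204)) (T.b (T.a (T.a (T.l 204) (T.l 204)) (T.c (T.l 220) (T.l 220))) (T.l 204))) (T.l 204))) (T.l 204)) (T.b (T.c (T.b (T.c (T.a (T.l 204) (T.l 204)) (T.a (T.l 220) (T.l 220))) (T.l 204)) (T.b (T.c (T.a (T.l 220) (T.l 220)) (T.b (T.a (T.c (T.l 220) (T.l 220)) (T.l 220)) (T.l 204))) (T.l 204))) (T.l 204))) (T.l 0)) (T.b (T.b (T.a (T.c (T.b (T.a (T.l 220) (T.l 220)) (T.l 204))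 (T.b (T.c (T.a (T.l 220) (T.l 220)) (T.a (T.l 220) (T.l 220))) (T.l 204))) (T.c (T.a (T.l 220) (T.l 220)) (T.b (T.a (T.c (T.l 220) (T.l 220)) (T.l 220)) (T.l 204)))) (T.l 220)) (T.l 204))) (T.a (T.b (T.b (T.a (T.c (T.a (T.l 220) (T.l 220)) (T.b (T.a (T.l 220) (T.l 220)) (T.l 204))) (T.c (T.a (T.l 220) (T.l 204)) (T.a (T.l 220) (T.l 220)))) (T.l 204)) (T.l 204)) (T.b (T.b (T.a (T.c (T.c (T.l 204) (T.l 220)) (T.a (T.l 220) (T.l 220))) (T.c (T.c (T.l 204) (T.l 220)) (T.a (T.l 220) (T.l 220)))) (T.l 204)) (T.l 204))))) (T.a (T.a (T.l 0) (T.c (T.l 0) (T.l 0))) (T.a (T.a (T.l 0) (T.l 0)) (T.l 0))))) (T.a (T.a (T.a (T.l 816) (T.c (T.l 0) (T.l 0))) (T.c (T.l 0) (T.l 0))) (T.a (T.a (T.l 816) (T.l 0)) (T.a (T.l 4) (T.l 0))))) (T.b (T.b (T.a (T.a (T.a (T.l 816) (T.l 816)) (T.l 816)) (T.a (T.a (T.l 816) (T.l 0)) (T.a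 (T.l 0) (T.l 0)))) (T.a (T.a (T.a (T.l 816) (T.l 816)) (T.l 816)) (T.a (T.a (T.l 816) (T.l 0)) (T.c (T.l 0) (T.l 4))))) (T.b (T.a (T.a (T.a (T.l 816) (T.l 816)) (T.l 816)) (T.a (T.a (T.l 816) (T.l 0)) (T.c (T.l 0) (T.l 0)))) (T.a (T.a (T.a (T.l 816) (T.l 816)) (T.l 816)) (T.a (T.a (T.l 816) (T.l 816)) (T.l 4)))))) (T.b (T.b (T.b (T.a (T.a (T.a (T.l 816) (T.l 816)) (T.l 816)) (T.a (T.a (T.l 816) (T.l 816)) (T.l 0))) (T.a (T.a (T.a (T.l 816) (T.l 816)) (T.l 816)) (T.a (T.c (T.l 0) (T.l 4)) (T.l 0)))) (T.b (T.a (T.a (T.a (T.l 816) (T.l 816)) (T.l 816)) (T.a (T.c (T.l 0) (T.l 0)) (T.l 0))) (T.a (T.a (T.a (T.l 816) (T.l 816)) (T.l 816)) (T.a (T.l 4) (T.l 0))))) (T.b (T.b (T.a (T.a (T.a (T.l 816) (T.l 816)) (T.l 816)) (T.a (T.l 0) (T.l 0))) (T.a (T.a (T.a (T.l 816) (T.l 816)) (T.l 816)) (T.a (T.l 0) (T.l 0))))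 (T.b (T.a (T.a (T.a (T.l 816) (T.l 816)) (T.l 816)) (T.a (T.l 0) (T.l 0))) (T.a (T.a (T.a (T.l 816) (T.l 816)) (T.l 816)) (T.a (T.l 0) (T.l 0))))))) (T.b (T.b (T.b (T.b (T.a (T.a (T.a (T.l 816) (T.l 816)) (T.l 816)) (T.a (T.l 0) (T.l 0))) (T.a (T.a (T.a (T.l 816) (T.l 816)) (T.l 816)) (T.a (T.l 0) (T.l 816)))) (T.a (T.a (T.a (T.l 816) (T.l 816)) (T.l 816)) (T.a (T.l 0) (T.l 816)))) (T.a (T.a (T.a (T.l 816) (T.l 816)) (T.l 816)) (T.a (T.l 0) (T.l 816)))) (T.a (T.a (T.a (T.l 816) (T.l 816)) (T.b (T.l 816) (T.l 816))) (T.a (T.l 0) (T.l 816))))) (T.b (T.b (T.a (T.a (T.a (T.l 816) (T.l 816)) (T.l 816)) (T.a (T.l 0) (T.l 816))) (T.a (T.a (T.a (T.l 816) (T.l 816)) (T.l 816)) (T.a (T.l 0) (T.l 816)))) (T.b (T.a (T.a (T.a (T.l 816) (T.l 816)) (T.l 816)) (T.a (T.l 0) (T.l 816))) (T.a (T.a (T.a (T.l 816) (T.l 816))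 (T.l 816)) (T.a (T.l 816) (T.l 816)))))), by decide +kernel⟩

def A022L_003 :
    ∃ t, chk3 (onCell 0 25165824 0 1073741824 67108864 67108864 (corXK [] 1 c0F cA022L tA022L gF0q0 gF0q2 gF3q2 gF4q2 gF4q2 false true)) t 1 1 1 = true :=
  ⟨(T.b (T.b (T.a (T.a (T.b (T.b (T.c (T.a (T.a (T.b (T.l 207) (T.l 207)) (T.l 207)) (T.l 207)) (T.a (T.a (T.l 207) (T.l 207)) (T.l 207))) (T.c (T.a (T.a (T.b (T.l 207) (T.l 207)) (T.l 207)) (T.l 207)) (T.a (T.a (T.l 207) (T.l 207)) (T.l 207)))) (T.b (T.a (T.c (T.a (T.b (T.l 207) (T.l 207)) (T.l 207)) (T.a (T.l 207) (T.l 207))) (T.l 223)) (T.a (T.a (T.c (T.b (T.l 207) (T.l 207)) (T.l 207)) (T.l 223)) (T.l 223)))) (T.a (T.b (T.l 207) (T.l 207)) (T.b (T.a (T.b (T.b (T.l 204) (T.l 220)) (T.l 207)) (T.b (T.b (T.l 204) (T.l 204)) (T.b (T.l 204) (T.l 204)))) (T.b (T.a (T.l 207) (T.b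 (T.l 204) (T.l 204))) (T.l 207))))) (T.a (T.b (T.a (T.b (T.a (T.l 220) (T.l 204)) (T.a (T.b (T.l 204) (T.l 204)) (T.l 204))) (T.b (T.b (T.l 204) (T.l 204)) (T.b (T.l 204) (T.l 204)))) (T.a (T.b (T.a (T.b (T.l 204) (T.l 204)) (T.l 476)) (T.a (T.b (T.l 204) (T.l 204)) (T.l 476))) (T.b (T.b (T.l 204) (T.l 204)) (T.b (T.l 204) (T.l 220))))) (T.b (T.a (T.b (T.a (T.l 204) (T.l 220)) (T.l 220)) (T.b (T.a (T.l 204) (T.l 220)) (T.b (T.l 204) (T.l 220)))) (T.a (T.b (T.l 476) (T.l 476)) (T.b (T.b (T.l 476) (T.l 204)) (T.l 476)))))) (T.a (T.b (T.a (T.b (T.a (T.a (T.c (T.b (T.l 207) (T.l 207)) (T.l 207)) (T.l 223)) (T.l 223)) (T.a (T.a (T.c (T.l 223) (T.l 207)) (T.l 223)) (T.l 223))) (T.b (T.l 223) (T.l 223))) (T.a (T.b (T.a (T.a (T.c (T.l 223) (T.l 207)) (T.l 223)) (T.l 223)) (T.a (T.a (T.c (T.l 223) (T.l 207)) (T.l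 223)) (T.l 207))) (T.b (T.l 207) (T.l 207)))) (T.a (T.b (T.a (T.b (T.a (T.b (T.l 204) (T.l 207)) (T.b (T.l 204) (T.l 204))) (T.b (T.c (T.l 476) (T.l 220)) (T.l 207))) (T.b (T.b (T.l 476) (T.l 476)) (T.b (T.l 476) (T.l 476)))) (T.a (T.l 207) (T.b (T.b (T.c (T.l 204) (T.l 220)) (T.c (T.l 204) (T.l 220))) (T.b (T.c (T.l 476) (T.l 220)) (T.l 207))))) (T.b (T.b (T.a (T.b (T.l 204) (T.l 204)) (T.l 476)) (T.a (T.b (T.l 204) (T.l 460)) (T.b (T.l 204) (T.l 204)))) (T.b (T.a (T.b (T.l 476) (T.l 476)) (T.b (T.l 204) (T.l 204))) (T.a (T.b (T.l 476) (T.c (T.l 204) (T.l 220))) (T.b (T.l 476) (T.l 476)))))))) (T.b (T.b (T.a (T.a (T.b (T.a (T.a (T.c (T.l 207) (T.l 207)) (T.l 223)) (T.l 207)) (T.a (T.a (T.c (T.l 207) (T.l 207)) (T.l 223)) (T.l 207))) (T.b (T.l 207) (T.l 207))) (T.a (T.l 207) (T.b (T.b (T.a (T.c (T.l 476)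 (T.l 476)) (T.c (T.l 204) (T.l 204))) (T.a (T.l 207) (T.c (T.l 476) (T.l 476)))) (T.b (T.a (T.l 207) (T.b (T.l 476) (T.l 476))) (T.l 207))))) (T.b (T.a (T.a (T.a (T.a (T.c (T.l 207) (T.l 207)) (T.l 223)) (T.l 207)) (T.l 207)) (T.l 463)) (T.l 2))) (T.l 2))), by decide +kernel⟩

def A022L_013 :
    ∃ t, chk3 (onCell 0 67108864 0 1073741824 67108864 67108864 (corTK [] true 1 c0F cA022L gF0q0 gF1q2 gF3q2 gF4q2 false true)) t 1 1 1 = true :=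
  ⟨(T.b (T.b (T.b (T.a (T.a (T.a (T.l 204) (T.a (T.l 204) (T.l 204))) (T.a (T.b (T.l 204) (T.l 204)) (T.b (T.l 204) (T.l 204)))) (T.a (T.a (T.l 204) (T.l 204)) (T.b (T.l 204) (T.l 204)))) (T.a (T.a (T.l 204) (T.a (T.b (T.l 204) (T.l 204)) (T.b (T.l 204) (T.l 204)))) (T.a (T.a (T.l 204) (T.l 204)) (T.b (T.l 204) (T.l 204))))) (T.l 2)) (T.l 2)), by decide +kernel⟩

def A022L_023 :
    ∃ t, chk3 (onCell 0 67108864 0 1073741824 67108864 67108864 (corTK [] true 1 c0F cA022L gF0q0 gF2q2 gF3q2 gF4q2 false true)) t 1 1 1 = true :=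
  ⟨(T.l 2), by decide +kernel⟩

def A022L_113 :
    ∃ t, chk3 (onCell 0 67108864 0 1073741824 67108864 67108864 (corTK [] true 1 c0F cA022L gF1q0 gF1q2 gF3q2 gF4q2 false true)) t 1 1 1 = true :=
  ⟨(T.b (T.b (T.b (T.a (T.a (T.a (T.l 0) (T.a (T.l 0) (T.l 0))) (T.a (T.b (T.l 204) (T.l 0)) (T.b (T.l 204) (T.l 0)))) (T.a (T.a (T.l 0) (T.l 0)) (T.b (T.l 204) (T.l 0)))) (T.l 2)) (T.l 2)) (T.l 2)), by decide +kernel⟩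

def A022L_123 :
    ∃ t, chk3 (onCell 0 67108864 0 1073741824 67108864 67108864 (corTK [] true 1 c0F cA022L gF1q0 gF2q2 gF3q2 gF4q2 false true)) t 1 1 1 = true :=
  ⟨(T.l 2), by decide +kernel⟩

def A022L_223 :
    ∃ t, chk3 (onCell 0 67108864 0 1073741824 67108864 67108864 (corTK [] true 1 c0F cA022L gF2q0 gF2q2 gF3q2 gF4q2 false true)) t 1 1 1 = true :=
  ⟨(T.l 2), by decide +kernel⟩

def A022R_040 :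
    ∃ t, chk3 (onCell 0 67108864 0 1073741824 67108864 67108864 (corTK [] true 1 c0F cA022R gF0q0 gF4q2 gF0q2 gF1q2 true true)) t 1 1 1 = true :=
  ⟨(T.l 2), by decide +kernel⟩

def A022R_041 :
    ∃ t, chk3 (onCell 0 67108864 0 1073741824 67108864 67108864 (corTK [] true 1 c0F cA022R gF0q0 gF4q2 gF1q2 gF2q2 true true)) t 1 1 1 = true :=
  ⟨(T.b (T.b (T.b (T.a (T.a (T.a (T.l 204) (T.a (T.l 204) (T.l 204))) (T.a (T.l 204) (T.b (T.l 204) (T.l 204)))) (T.a (T.a (T.l 204) (T.l 0)) (T.a (T.l 204) (T.l 204)))) (T.a (T.a (T.a (T.l 204) (T.a (T.l 204) (T.l 204))) (T.a (T.l 0) (T.l 204))) (T.a (T.a (T.l 0) (T.l 0)) (T.a (T.l 0) (T.l 0))))) (T.b (T.b (T.a (T.a (T.a (T.l 204) (T.a (T.l 204) (T.l 0))) (T.a (T.l 0) (T.l 0))) (T.a (T.a (T.l 0) (T.l 0)) (T.c (T.l 320) (T.l 0)))) (T.a (T.a (T.a (T.l 0) (T.a (T.l 0) (T.l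 0))) (T.a (T.l 0) (T.l 0))) (T.a (T.a (T.l 0) (T.l 0)) (T.a (T.l 0) (T.l 0))))) (T.b (T.b (T.a (T.a (T.a (T.l 816) (T.a (T.l 816) (T.l 0))) (T.a (T.l 0) (T.l 0))) (T.a (T.a (T.l 816) (T.l 0)) (T.a (T.l 0) (T.l 0)))) (T.a (T.a (T.a (T.l 816) (T.a (T.l 816) (T.l 816))) (T.a (T.l 0) (T.l 816))) (T.a (T.a (T.l 816) (T.l 0)) (T.a (T.l 0) (T.l 0))))) (T.b (T.a (T.a (T.a (T.l 816) (T.a (T.l 816) (T.l 816))) (T.a (T.l 0) (T.l 816))) (T.a (T.a (T.l 816) (T.l 0)) (T.a (T.l 0) (T.l 816)))) (T.a (T.a (T.a (T.l 816) (T.a (T.l 816) (T.l 816))) (T.a (T.l 816) (T.l 816))) (T.a (T.a (T.l 816) (T.l 64)) (T.a (T.l 0) (T.l 816)))))))) (T.b (T.b (T.b (T.b (T.a (T.a (T.a (T.l 816) (T.a (T.l 816) (T.l 816))) (T.a (T.c (T.l 816) (T.l 816)) (T.l 816))) (T.a (T.a (T.l 816) (T.l 64)) (T.a (T.l 816) (T.l 816)))) (T.a (T.a (T.a (T.l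 816) (T.a (T.l 816) (T.l 816))) (T.a (T.c (T.l 816) (T.l 816)) (T.l 816))) (T.a (T.a (T.l 816) (T.c (T.l 0) (T.l 0))) (T.a (T.l 816) (T.l 816))))) (T.b (T.a (T.a (T.a (T.l 816) (T.a (T.l 816) (T.l 816))) (T.a (T.c (T.l 816) (T.l 816)) (T.l 816))) (T.a (T.a (T.l 816) (T.c (T.l 0) (T.l 0))) (T.a (T.l 816) (T.l 816)))) (T.a (T.a (T.a (T.l 816) (T.a (T.l 816) (T.l 816))) (T.a (T.c (T.l 816) (T.l 816)) (T.l 816))) (T.a (T.a (T.l 816) (T.c (T.l 0) (T.l 816))) (T.a (T.l 816) (T.l 816)))))) (T.b (T.b (T.a (T.a (T.a (T.l 816) (T.a (T.l 816) (T.l 816))) (T.a (T.c (T.l 816) (T.l 816)) (T.c (T.l 816) (T.l 816)))) (T.a (T.a (T.l 816) (T.c (T.l 880) (T.l 816))) (T.a (T.l 880) (T.l 816)))) (T.a (T.a (T.a (T.l 816) (T.a (T.l 816) (T.l 816))) (T.a (T.c (T.l 880) (T.l 816)) (T.c (T.l 816) (T.l 816)))) (T.a (T.a (T.l 816)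 (T.c (T.l 880) (T.l 880))) (T.a (T.l 880) (T.l 816))))) (T.a (T.a (T.a (T.l 816) (T.a (T.l 816) (T.c (T.l 816) (T.l 816)))) (T.a (T.a (T.l 816) (T.l 816)) (T.a (T.l 816) (T.l 816)))) (T.a (T.a (T.c (T.l 816) (T.l 816)) (T.a (T.l 816) (T.l 816))) (T.a (T.c (T.l 880) (T.l 880)) (T.b (T.l 880) (T.l 880))))))) (T.b (T.b (T.a (T.a (T.a (T.l 816) (T.a (T.l 816) (T.c (T.l 816) (T.l 816)))) (T.a (T.a (T.c (T.l 816) (T.l 816)) (T.l 880)) (T.a (T.b (T.l 816) (T.l 816)) (T.l 880)))) (T.a (T.a (T.a (T.l 816) (T.l 816)) (T.a (T.l 816) (T.l 880))) (T.a (T.a (T.l 880) (T.l 880)) (T.c (T.l 880) (T.l 880))))) (T.a (T.a (T.a (T.l 816) (T.a (T.l 816) (T.a (T.l 816) (T.l 816)))) (T.a (T.a (T.c (T.l 880) (T.l 816)) (T.a (T.l 816) (T.l 880))) (T.a (T.c (T.l 880) (T.l 816)) (T.c (T.l 816) (T.l 816))))) (T.a (T.a (T.a (T.b (T.l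 816) (T.l 880)) (T.b (T.l 816) (T.l 880))) (T.a (T.l 880) (T.c (T.l 880) (T.l 816)))) (T.a (T.a (T.c (T.l 880) (T.l 816)) (T.b (T.l 880) (T.l 880))) (T.a (T.b (T.l 816) (T.l 880)) (T.b (T.l 816) (T.l 880))))))) (T.b (T.a (T.b (T.a (T.a (T.l 816) (T.a (T.l 816) (T.a (T.l 816) (T.l 880)))) (T.a (T.a (T.a (T.l 816) (T.l 816)) (T.a (T.l 816) (T.l 816))) (T.a (T.c (T.l 880) (T.l 816)) (T.c (T.l 816) (T.l 816))))) (T.a (T.a (T.l 816) (T.a (T.l 816) (T.a (T.l 816) (T.c (T.l 816) (T.l 816))))) (T.a (T.a (T.c (T.a (T.l 816) (T.l 816)) (T.b (T.l 816) (T.l 880))) (T.a (T.c (T.l 816) (T.l 816)) (T.c (T.l 816) (T.l 816)))) (T.a (T.c (T.c (T.l 880) (T.l 816)) (T.l 880)) (T.c (T.c (T.l 880) (T.l 816)) (T.l 816)))))) (T.b (T.a (T.a (T.a (T.c (T.l 816) (T.l 816)) (T.c (T.l 816) (T.l 816))) (T.a (T.l 880) (T.c (T.l 880)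 (T.l 880)))) (T.a (T.a (T.c (T.l 880) (T.l 816)) (T.c (T.l 880) (T.l 816))) (T.a (T.c (T.l 816) (T.l 816)) (T.l 880)))) (T.a (T.a (T.a (T.c (T.b (T.l 816) (T.l 880)) (T.l 816)) (T.c (T.l 880) (T.l 816))) (T.a (T.c (T.l 880) (T.l 816)) (T.a (T.l 880) (T.c (T.l 816) (T.l 816))))) (T.a (T.a (T.c (T.c (T.l 880) (T.l 880)) (T.b (T.l 880) (T.l 880))) (T.a (T.l 880) (T.l 880))) (T.a (T.c (T.l 880) (T.l 880)) (T.c (T.l 880) (T.l 880))))))) (T.a (T.b (T.a (T.a (T.l 816) (T.a (T.l 816) (T.a (T.l 816) (T.c (T.c (T.l 816) (T.l 816)) (T.l 816))))) (T.b (T.a (T.a (T.a (T.c (T.l 816) (T.l 816)) (T.c (T.l 816) (T.l 816))) (T.a (T.c (T.l 816) (T.l 816)) (T.c (T.l 816) (T.l 816)))) (T.a (T.c (T.a (T.l 816) (T.l 816)) (T.l 880)) (T.c (T.c (T.l 880) (T.l 816)) (T.l 816)))) (T.a (T.a (T.a (T.c (T.l 880) (T.l 816)) (T.c (T.l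 880) (T.l 816))) (T.a (T.c (T.c (T.l 816) (T.l 816)) (T.l 816)) (T.c (T.l 880) (T.l 816)))) (T.a (T.c (T.a (T.l 880) (T.l 880)) (T.c (T.l 816) (T.l 816))) (T.b (T.c (T.c (T.l 880) (T.l 816)) (T.l 880)) (T.l 2)))))) (T.a (T.a (T.c (T.l 816) (T.l 816)) (T.a (T.l 880) (T.a (T.l 816) (T.c (T.a (T.l 816) (T.b (T.l 816) (T.l 2))) (T.l 816))))) (T.b (T.a (T.b (T.a (T.a (T.a (T.l 880) (T.l 880)) (T.c (T.c (T.l 816) (T.l 816)) (T.l 816))) (T.b (T.a (T.c (T.l 880) (T.l 816)) (T.c (T.l 880) (T.l 816))) (T.l 2))) (T.a (T.b (T.a (T.c (T.c (T.l 816) (T.l 816)) (T.l 816)) (T.l 2)) (T.l 2)) (T.l 2))) (T.l 2)) (T.l 2)))) (T.b (T.a (T.b (T.a (T.a (T.c (T.c (T.l 880) (T.l 816)) (T.l 816)) (T.c (T.c (T.l 816) (T.l 816)) (T.l 816))) (T.b (T.a (T.c (T.l 880) (T.l 816)) (T.a (T.l 880) (T.l 2))) (T.l 2))) (T.a (T.b (T.a (T.c (T.c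 (T.l 880) (T.l 816)) (T.l 816)) (T.l 2)) (T.l 2)) (T.l 2))) (T.l 2)) (T.l 2))))))), by decide +kernel⟩

def A022R_042 :
    ∃ t, chk3 (onCell 0 67108864 0 1073741824 67108864 67108864 (corTK [] true 1 c0F cA022R gF0q0 gF4q2 gF2q2 gF3q2 true false)) t 1 1 1 = true :=
  ⟨(T.b (T.l 1) (T.b (T.l 1) (T.b (T.l 1) (T.b (T.a (T.l 1) (T.b (T.l 1) (T.a (T.b (T.l 1) (T.a (T.l 1) (T.b (T.l 1) (T.a (T.l 1) (T.c (T.l 880) (T.l 880)))))) (T.a (T.b (T.l 1) (T.a (T.c (T.l 880) (T.l 880)) (T.c (T.l 880) (T.l 816)))) (T.a (T.c (T.l 880) (T.l 816)) (T.c (T.l 880) (T.l 816))))))) (T.a (T.b (T.a (T.l 1) (T.b (T.l 1) (T.a (T.b (T.l 1) (T.a (T.l 1) (T.a (T.l 1) (T.l 880)))) (T.a (T.c (T.c (T.l 816) (T.l 816)) (T.l 816)) (T.c (T.c (T.l 816) (T.l 816)) (T.l 816)))))) (T.a (T.a (T.c (T.l 816) (T.l 816)) (T.a (T.c (T.l 816) (T.l 816))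 (T.c (T.a (T.l 816) (T.l 880)) (T.l 816)))) (T.a (T.a (T.c (T.c (T.a (T.l 816) (T.l 816)) (T.l 816)) (T.l 816)) (T.c (T.a (T.c (T.b (T.l 816) (T.l 880)) (T.l 816)) (T.c (T.a (T.l 816) (T.l 880)) (T.l 816))) (T.a (T.l 816) (T.l 816)))) (T.a (T.c (T.a (T.c (T.b (T.l 816) (T.b (T.l 816) (T.l 880))) (T.l 816)) (T.c (T.b (T.l 816) (T.c (T.l 880) (T.l 816))) (T.l 880))) (T.a (T.l 816) (T.l 816))) (T.c (T.a (T.c (T.b (T.l 816) (T.a (T.l 880) (T.l 880))) (T.l 880)) (T.c (T.b (T.l 816) (T.a (T.l 880) (T.l 880))) (T.l 880))) (T.a (T.l 880) (T.l 880))))))) (T.b (T.a (T.a (T.a (T.c (T.b (T.l 816) (T.l 880)) (T.l 816)) (T.c (T.b (T.l 816) (T.l 880)) (T.l 816))) (T.a (T.c (T.b (T.l 816) (T.l 880)) (T.l 880)) (T.a (T.c (T.l 880) (T.l 816)) (T.c (T.l 880) (T.l 880))))) (T.a (T.a (T.c (T.a (T.l 880) (T.l 880)) (T.a (T.l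 880) (T.l 880))) (T.c (T.c (T.l 880) (T.l 880)) (T.c (T.l 880) (T.l 880)))) (T.a (T.c (T.b (T.l 880) (T.l 880)) (T.b (T.l 880) (T.l 880))) (T.c (T.b (T.l 880) (T.l 880)) (T.l 880))))) (T.a (T.a (T.a (T.c (T.b (T.a (T.l 880) (T.l 880)) (T.c (T.a (T.c (T.b (T.l 816) (T.l 880)) (T.l 880)) (T.c (T.b (T.l 816) (T.l 880)) (T.l 880))) (T.a (T.l 880) (T.l 880)))) (T.b (T.l 880) (T.a (T.l 816) (T.l 880)))) (T.c (T.b (T.c (T.l 880) (T.l 880)) (T.c (T.a (T.c (T.b (T.l 880) (T.l 880)) (T.l 880)) (T.c (T.b (T.l 880) (T.l 880)) (T.l 880))) (T.a (T.l 880) (T.l 880)))) (T.b (T.l 880) (T.a (T.l 880) (T.l 880))))) (T.a (T.c (T.a (T.b (T.l 880) (T.c (T.c (T.l 880) (T.l 880)) (T.l 880))) (T.b (T.l 880) (T.c (T.b (T.l 880) (T.c (T.l 880) (T.l 880))) (T.b (T.l 880) (T.l 880))))) (T.a (T.c (T.l 880) (T.l 816)) (T.c (T.b (T.l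 816) (T.l 880)) (T.l 880)))) (T.a (T.c (T.b (T.l 880) (T.c (T.c (T.b (T.l 880) (T.l 880)) (T.l 880)) (T.b (T.l 880) (T.l 880)))) (T.b (T.l 880) (T.c (T.l 880) (T.l 880)))) (T.c (T.b (T.c (T.l 880) (T.l 880)) (T.c (T.a (T.l 880) (T.l 880)) (T.a (T.l 880) (T.l 880)))) (T.b (T.l 880) (T.c (T.a (T.l 880) (T.l 880)) (T.b (T.l 816) (T.l 880)))))))) (T.a (T.a (T.a (T.c (T.b (T.c (T.l 880) (T.l 880)) (T.c (T.a (T.l 880) (T.l 880)) (T.a (T.l 880) (T.l 880)))) (T.b (T.l 880) (T.b (T.l 880) (T.a (T.l 880) (T.l 880))))) (T.c (T.b (T.l 880) (T.c (T.a (T.l 880) (T.l 880)) (T.a (T.l 880) (T.l 880)))) (T.b (T.l 880) (T.c (T.b (T.l 880) (T.l 880)) (T.l 880))))) (T.c (T.a (T.b (T.l 880) (T.b (T.l 880) (T.a (T.l 880) (T.l 880)))) (T.b (T.l 880) (T.b (T.l 880) (T.c (T.l 880) (T.l 880))))) (T.a (T.b (T.l 880) (T.c (T.b (T.l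 880) (T.l 880)) (T.l 880))) (T.b (T.l 880) (T.c (T.b (T.l 880) (T.l 880)) (T.l 880)))))) (T.a (T.c (T.a (T.b (T.l 880) (T.c (T.l 880) (T.b (T.l 880) (T.l 880)))) (T.b (T.l 880) (T.c (T.l 880) (T.l 880)))) (T.a (T.b (T.l 880) (T.c (T.l 880) (T.l 880))) (T.b (T.l 880) (T.c (T.l 880) (T.l 880))))) (T.c (T.b (T.c (T.l 880) (T.l 880)) (T.a (T.c (T.l 880) (T.l 880)) (T.c (T.l 880) (T.l 880)))) (T.a (T.b (T.l 880) (T.c (T.l 880) (T.l 880))) (T.c (T.b (T.l 816) (T.l 880)) (T.l 880))))))))))))), by decide +kernel⟩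

def A022R_140 :
    ∃ t, chk3 (onCell 0 67108864 0 1073741824 67108864 67108864 (corTK [] true 1 c0F cA022R gF1q0 gF4q2 gF0q2 gF1q2 true true)) t 1 1 1 = true :=
  ⟨(T.b (T.b (T.a (T.b (T.l 2) (T.a (T.a (T.l 0) (T.l 2)) (T.l 2))) (T.l 2)) (T.a (T.b (T.a (T.a (T.l 816) (T.l 0)) (T.c (T.l 0) (T.l 64))) (T.a (T.a (T.l 816) (T.l 0)) (T.a (T.l 816) (T.l 816)))) (T.b (T.b (T.l 2) (T.l 2)) (T.a (T.l 0) (T.l 0))))) (T.b (T.a (T.b (T.a (T.a (T.l 816) (T.l 0)) (T.b (T.l 0) (T.l 0))) (T.a (T.a (T.l 816) (T.l 816)) (T.l 64))) (T.a (T.l 0) (T.l 64))) (T.a (T.a (T.a (T.l 816) (T.l 0)) (T.b (T.l 0) (T.l 0))) (T.a (T.l 816) (T.l 816))))), by decide +kernel⟩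

end Pool.Agent.Strip051.G.I1_16_1_8.Tab.CF
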