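import Pool.Agent.Strip051.PB.Cuts

/-! # Tables I1_16_1_8 (generated) -/

namespace Pool.Agent.Strip051.G.I1_16_1_8.Tab

open Pool.Agent.Strip051.PB

noncomputable def c1g : Fn1 := ⟨_, _, fun h1 => (enc_sqrtg (enc_sub (enc_pnc _ 1) (enc_scale 3 4 (enc_sq h1))))⟩
noncomputable def kcg_3 : Fn2 := ⟨_, _, fun h1 h2 => (enc_subr 3 32 h2)⟩
noncomputable def kcg_6 : Fn2 := ⟨_, _, fun h1 h2 => (enc_add h1 (enc_rat _ 613 1574))⟩
noncomputable def kcg_9 : Fn2 := ⟨_, _, fun h1 h2 => (enc_add h1 (enc_rat _ 587 1262))⟩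
noncomputable def kcg_12 : Fn2 := ⟨_, _, fun h1 h2 => (enc_add h1 (enc_rat _ 97 200))⟩
noncomputable def kcg_13 : Fn2 := ⟨_, _, fun h1 h2 => (enc_scale 5437 6000 h1)⟩
noncomputable def kcg_18 : Fn2 := ⟨_, _, fun h1 h2 => (enc_scale 27973 75000 h1)⟩
noncomputable def kcg_28 : Fn2 := ⟨_, _, fun h1 h2 => (enc_sub (enc_rat _ 1779 125000) (enc_scale 24201 200000 (kcg_3.enc h1 h2)))⟩
noncomputable def kcg_36 : Fn2 := ⟨_, _, fun h1 h2 => (enc_scale 284248463 313375000 h1)⟩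
noncomputable def kcg_41 : Fn2 := ⟨_, _, fun h1 h2 => (enc_scale 23027083 62675000 h1)⟩
noncomputable def kcg_49 : Fn2 := ⟨_, _, fun h1 h2 => (enc_add (enc_scale 74417 200000 (kcg_3.enc h1 h2)) (enc_rat _ 531 15625))⟩
noncomputable def kcg_57 : Fn2 := ⟨_, _, fun h1 h2 => (enc_add h1 (enc_rat _ 43 100))⟩
noncomputable def kcg_58 : Fn2 := ⟨_, _, fun h1 h2 => (enc_scale 673338207 739000000 h1)⟩
noncomputable def kcg_63 : Fn2 := ⟨_, _, fun h1 h2 => (enc_scale 75999533 221700000 h1)⟩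
noncomputable def kcg_71 : Fn2 := ⟨_, _, fun h1 h2 => (enc_add (enc_scale 97929 200000 (kcg_3.enc h1 h2)) (enc_rat _ 194527 2000000))⟩
noncomputable def kcg_76 : Fn2 := ⟨_, _, fun h1 h2 => (enc_scale 2934062707 3191000000 h1)⟩
noncomputable def kcg_81 : Fn2 := ⟨_, _, fun h1 h2 => (enc_scale 1670801 6382000 h1)⟩
noncomputable def kcg_89 : Fn2 := ⟨_, _, fun h1 h2 => (enc_add (enc_scale 1967 1250 (kcg_3.enc h1 h2)) (enc_rat _ 12123 100000))⟩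
noncomputable def kcg_98 : Fn2 := ⟨_, _, fun h1 h2 => (enc_add h1 (enc_rat _ 1 4))⟩
noncomputable def kcg_101 : Fn2 := ⟨_, _, fun h1 h2 => (enc_add h1 (enc_rat _ 17 50))⟩
noncomputable def kcg_102 : Fn2 := ⟨_, _, fun h1 h2 => (enc_scale 112751129 121625000 h1)⟩
noncomputable def kcg_107 : Fn2 := ⟨_, _, fun h1 h2 => (enc_scale 10488349 77840000 h1)⟩
noncomputable def kcg_115 : Fn2 := ⟨_, _, fun h1 h2 => (enc_add (enc_scale 1279 1000 (kcg_3.enc h1 h2)) (enc_rat _ 21379 400000))⟩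
noncomputable def kcg_120 : Fn2 := ⟨_, _, fun h1 h2 => (enc_scale 522763 562500 h1)⟩
noncomputable def kcg_125 : Fn2 := ⟨_, _, fun h1 h2 => (enc_scale 5039 150000 h1)⟩
noncomputable def kcg_134 : Fn2 := ⟨_, _, fun h1 h2 => (enc_subr 3621 1000000 (enc_scale 4211 10000 (kcg_3.enc h1 h2)))⟩
noncomputable def kcg_142 : Fn2 := ⟨_, _, fun h1 h2 => (enc_add h1 (enc_rat _ 3 20))⟩
noncomputable def kcg_143 : Fn2 := ⟨_, _, fun h1 h2 => (enc_scale 9237727 10000000 h1)⟩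
noncomputable def kcg_148 : Fn2 := ⟨_, _, fun h1 h2 => (enc_scale 15599 1000000 h1)⟩
noncomputable def kcg_159 : Fn2 := ⟨_, _, fun h1 h2 => (enc_subr 105159 2000000 (enc_scale 22587 200000 (kcg_3.enc h1 h2)))⟩
noncomputable def kcg_167 : Fn2 := ⟨_, _, fun h1 h2 => (enc_scale 2594263 4500000 h1)⟩
noncomputable def kcg_172 : Fn2 := ⟨_, _, fun h1 h2 => (enc_scale 2017 150000 h1)⟩
noncomputable def kcg_185 : Fn2 := ⟨_, _, fun h1 h2 => (enc_subr 7600261 2000000 (enc_neg (enc_scale 29881 200000 (kcg_3.enc h1 h2))))⟩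
noncomputable def kcg_190 : Fn2 := ⟨_, _, fun h1 h2 => (enc_scale 1406947 6000000 h1)⟩
noncomputable def kcg_198 : Fn2 := ⟨_, _, fun h1 h2 => (enc_sub (enc_rat _ 613 1574) h1)⟩
noncomputable def kcg_199 : Fn2 := ⟨_, _, fun h1 h2 => (enc_sub (enc_rat _ 587 1262) h1)⟩
noncomputable def kcg_200 : Fn2 := ⟨_, _, fun h1 h2 => (enc_sub (enc_rat _ 97 200) h1)⟩
noncomputable def kcg_221 : Fn2 := ⟨_, _, fun h1 h2 => (enc_sub (enc_rat _ 43 100) h1)⟩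
noncomputable def kcg_242 : Fn2 := ⟨_, _, fun h1 h2 => (enc_sub (enc_rat _ 1 4) h1)⟩
noncomputable def kcg_243 : Fn2 := ⟨_, _, fun h1 h2 => (enc_sub (enc_rat _ 17 50) h1)⟩
noncomputable def kcg_263 : Fn2 := ⟨_, _, fun h1 h2 => (enc_sub (enc_rat _ 3 20) h1)⟩
noncomputable def kcg : Fn2 := ⟨_, _, fun h1 h2 => (enc_norm (enc_case h1 (enc_case (kcg_6.enc h1 h2) (enc_case (kcg_9.enc h1 h2) (enc_case (kcg_12.enc h1 h2) (enc_add (enc_add (enc_subr 9653681 150000000 (enc_neg (kcg_13.enc h1 h2))) (enc_mul (enc_norm (kcg_3.enc h1 h2)) (enc_norm (enc_add (kcg_18.enc h1 h2) (enc_rat _ 4320521 30000000))))) (enc_mul (enc_norm (kcg_28.enc h1 h2)) (enc_norm (enc_mul (enc_norm (enc_add h1 (enc_rat _ 1 2))) (enc_norm (enc_sub (enc_neg (enc_rat _ 97 200)) h1)))))) (enc_add (enc_add (enc_subr 4060642643 62675000000 (enc_neg (kcg_36.enc h1 h2))) (enc_mul (enc_norm (kcg_3.enc h1 h2)) (enc_norm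 (enc_add (kcg_41.enc h1 h2) (enc_rat _ 3542805373 25070000000))))) (enc_mul (enc_norm (kcg_49.enc h1 h2)) (enc_norm (enc_mul (enc_norm (kcg_12.enc h1 h2)) (enc_norm (enc_sub (enc_neg (enc_rat _ 587 1262)) h1))))))) (enc_case (kcg_57.enc h1 h2) (enc_add (enc_add (enc_subr 2464284697 36950000000 (enc_neg (kcg_58.enc h1 h2))) (enc_mul (enc_norm (kcg_3.enc h1 h2)) (enc_norm (enc_add (kcg_63.enc h1 h2) (enc_rat _ 2879299913 22170000000))))) (enc_mul (enc_norm (kcg_71.enc h1 h2)) (enc_norm (enc_mul (enc_norm (kcg_9.enc h1 h2)) (enc_norm (enc_sub (enc_neg (enc_rat _ 43 100)) h1)))))) (enc_add (enc_add (enc_subr 11212462909 159550000000 (enc_neg (kcg_76.enc h1 h2))) (enc_mul (enc_norm (kcg_3.enc h1 h2)) (enc_norm (enc_add (kcg_81.enc h1 h2) (enc_rat _ 758195603 7977500000))))) (enc_mul (enc_norm (kcg_89.enc h1 h2)) (enc_norm (enc_mul (enc_norm (kcg_57.enc h1 h2)) (enc_norm (enc_sub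 (enc_neg (enc_rat _ 613 1574)) h1)))))))) (enc_case (kcg_98.enc h1 h2) (enc_case (kcg_101.enc h1 h2) (enc_add (enc_add (enc_subr 445264319 6081250000 (enc_neg (kcg_102.enc h1 h2))) (enc_mul (enc_norm (kcg_3.enc h1 h2)) (enc_norm (enc_add (kcg_107.enc h1 h2) (enc_rat _ 886580447 19460000000))))) (enc_mul (enc_norm (kcg_115.enc h1 h2)) (enc_norm (enc_mul (enc_norm (kcg_6.enc h1 h2)) (enc_norm (enc_sub (enc_neg (enc_rat _ 17 50)) h1)))))) (enc_add (enc_add (enc_subr 41629 562500 (enc_neg (kcg_120.enc h1 h2))) (enc_mul (enc_norm (kcg_3.enc h1 h2)) (enc_norm (enc_add (kcg_125.enc h1 h2) (enc_rat _ 335053 30000000))))) (enc_mul (enc_norm (kcg_134.enc h1 h2)) (enc_norm (enc_mul (enc_norm (kcg_101.enc h1 h2)) (enc_norm (enc_sub (enc_neg (enc_rat _ 1 4)) h1))))))) (enc_case (kcg_142.enc h1 h2) (enc_add (enc_add (enc_subr 2904447 40000000 (enc_neg (kcg_143.enc h1 h2))) (enc_mul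 (enc_norm (kcg_3.enc h1 h2)) (enc_norm (enc_subr 22593 20000000 (enc_neg (kcg_148.enc h1 h2)))))) (enc_mul (enc_norm (kcg_159.enc h1 h2)) (enc_norm (enc_mul (enc_norm (kcg_98.enc h1 h2)) (enc_norm (enc_sub (enc_neg (enc_rat _ 3 20)) h1)))))) (enc_case (enc_add h1 (enc_rat _ 3 50)) (enc_add (enc_add (enc_subr 6156211 300000000 (enc_neg (kcg_167.enc h1 h2))) (enc_mul (enc_norm (kcg_3.enc h1 h2)) (enc_norm (enc_subr 2017 2500000 (enc_neg (kcg_172.enc h1 h2)))))) (enc_mul (enc_norm (kcg_185.enc h1 h2)) (enc_norm (enc_mul (enc_norm (kcg_142.enc h1 h2)) (enc_norm (enc_sub (enc_neg (enc_rat _ 3 50)) h1)))))) (enc_neg (kcg_190.enc h1 h2)))))) (enc_neg (enc_case (kcg_198.enc h1 h2) (enc_case (kcg_199.enc h1 h2) (enc_case (kcg_200.enc h1 h2) (enc_add (enc_add (enc_subr 9653681 150000000 (kcg_13.enc h1 h2)) (enc_mul (enc_norm (kcg_3.enc h1 h2)) (enc_norm (enc_sub (enc_rat _ 4320521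 30000000) (kcg_18.enc h1 h2))))) (enc_mul (enc_norm (kcg_28.enc h1 h2)) (enc_norm (enc_mul (enc_norm (enc_sub (enc_rat _ 1 2) h1)) (enc_norm (enc_subr 97 200 h1)))))) (enc_add (enc_add (enc_subr 4060642643 62675000000 (kcg_36.enc h1 h2)) (enc_mul (enc_norm (kcg_3.enc h1 h2)) (enc_norm (enc_sub (enc_rat _ 3542805373 25070000000) (kcg_41.enc h1 h2))))) (enc_mul (enc_norm (kcg_49.enc h1 h2)) (enc_norm (enc_mul (enc_norm (kcg_200.enc h1 h2)) (enc_norm (enc_subr 587 1262 h1))))))) (enc_case (kcg_221.enc h1 h2) (enc_add (enc_add (enc_subr 2464284697 36950000000 (kcg_58.enc h1 h2)) (enc_mul (enc_norm (kcg_3.enc h1 h2)) (enc_norm (enc_sub (enc_rat _ 2879299913 22170000000) (kcg_63.enc h1 h2))))) (enc_mul (enc_norm (kcg_71.enc h1 h2)) (enc_norm (enc_mul (enc_norm (kcg_199.enc h1 h2)) (enc_norm (enc_subr 43 100 h1)))))) (enc_add (enc_add (enc_subr 11212462909 159550000000 (kcg_76.enc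 h1 h2)) (enc_mul (enc_norm (kcg_3.enc h1 h2)) (enc_norm (enc_sub (enc_rat _ 758195603 7977500000) (kcg_81.enc h1 h2))))) (enc_mul (enc_norm (kcg_89.enc h1 h2)) (enc_norm (enc_mul (enc_norm (kcg_221.enc h1 h2)) (enc_norm (enc_subr 613 1574 h1)))))))) (enc_case (kcg_242.enc h1 h2) (enc_case (kcg_243.enc h1 h2) (enc_add (enc_add (enc_subr 445264319 6081250000 (kcg_102.enc h1 h2)) (enc_mul (enc_norm (kcg_3.enc h1 h2)) (enc_norm (enc_sub (enc_rat _ 886580447 19460000000) (kcg_107.enc h1 h2))))) (enc_mul (enc_norm (kcg_115.enc h1 h2)) (enc_norm (enc_mul (enc_norm (kcg_198.enc h1 h2)) (enc_norm (enc_subr 17 50 h1)))))) (enc_add (enc_add (enc_subr 41629 562500 (kcg_120.enc h1 h2)) (enc_mul (enc_norm (kcg_3.enc h1 h2)) (enc_norm (enc_sub (enc_rat _ 335053 30000000) (kcg_125.enc h1 h2))))) (enc_mul (enc_norm (kcg_134.enc h1 h2)) (enc_norm (enc_mul (enc_norm (kcg_243.enc h1 h2))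 (enc_norm (enc_subr 1 4 h1))))))) (enc_case (kcg_263.enc h1 h2) (enc_add (enc_add (enc_subr 2904447 40000000 (kcg_143.enc h1 h2)) (enc_mul (enc_norm (kcg_3.enc h1 h2)) (enc_norm (enc_subr 22593 20000000 (kcg_148.enc h1 h2))))) (enc_mul (enc_norm (kcg_159.enc h1 h2)) (enc_norm (enc_mul (enc_norm (kcg_242.enc h1 h2)) (enc_norm (enc_subr 3 20 h1)))))) (enc_case (enc_sub (enc_rat _ 3 50) h1) (enc_add (enc_add (enc_subr 6156211 300000000 (kcg_167.enc h1 h2)) (enc_mul (enc_norm (kcg_3.enc h1 h2)) (enc_norm (enc_subr 2017 2500000 (kcg_172.enc h1 h2))))) (enc_mul (enc_norm (kcg_185.enc h1 h2)) (enc_norm (enc_mul (enc_norm (kcg_263.enc h1 h2)) (enc_norm (enc_subr 3 50 h1)))))) (kcg_190.enc h1 h2))))))))⟩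
noncomputable def kf0q0_9 : Fn2 := ⟨_, _, fun h1 h2 => (enc_scale 3 2 h1)⟩
noncomputable def kf0q0_12 : Fn2 := ⟨_, _, fun h1 h2 => (enc_add (enc_pnc _ 1) (c1g.enc h1))⟩
noncomputable def kf0q0 : Fn2 := ⟨_, _, fun h1 h2 => (enc_norm (enc_add (enc_mul (enc_norm (enc_mul (enc_norm (enc_sub (c1g.enc h1) (kf0q0_9.enc h1 h2))) (enc_norm (kf0q0_12.enc h1 h2)))) (enc_inv (enc_sub (kf0q0_12.enc h1 h2) (kf0q0_9.enc h1 h2)))) (enc_mul h1 (kcg.enc (enc_norm (enc_sub (enc_scale 3 4 h1) (enc_half (c1g.enc h1)))) h2))))⟩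
noncomputable def txg_4 : Fn3 := ⟨_, _, fun h1 h2 h3 => (enc_subr 3 32 h3)⟩
noncomputable def txg_6 : Fn3 := ⟨_, _, fun h1 h2 h3 => (enc_add h1 (enc_half h2))⟩
noncomputable def txg_27 : Fn3 := ⟨_, _, fun h1 h2 h3 => (enc_add h1 (enc_rat _ 117 250))⟩
noncomputable def txg_63 : Fn3 := ⟨_, _, fun h1 h2 h3 => (enc_sq (enc_norm (txg_4.enc h1 h2 h3)))⟩
noncomputable def txg_77 : Fn3 := ⟨_, _, fun h1 h2 h3 => (enc_add h1 (enc_rat _ 613 1574))⟩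
noncomputable def txg_79 : Fn3 := ⟨_, _, fun h1 h2 h3 => (enc_subr 3 50 h1)⟩
noncomputable def txg_82 : Fn3 := ⟨_, _, fun h1 h2 h3 => (enc_add h1 (enc_rat _ 6 25))⟩
noncomputable def txg_85 : Fn3 := ⟨_, _, fun h1 h2 h3 => (enc_add h1 (enc_rat _ 9 25))⟩
noncomputable def txg_112 : Fn3 := ⟨_, _, fun h1 h2 h3 => (enc_add h1 (enc_rat _ 3 10))⟩
noncomputable def txg_153 : Fn3 := ⟨_, _, fun h1 h2 h3 => (enc_add h1 (enc_rat _ 3 25))⟩
noncomputable def txg_156 : Fn3 := ⟨_, _, fun h1 h2 h3 => (enc_add h1 (enc_rat _ 9 50))⟩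
noncomputable def txg_191 : Fn3 := ⟨_, _, fun h1 h2 h3 => (enc_add h1 (enc_rat _ 3 50))⟩
noncomputable def txg_229 : Fn3 := ⟨_, _, fun h1 h2 h3 => (enc_subr 6 25 h1)⟩
noncomputable def txg_230 : Fn3 := ⟨_, _, fun h1 h2 h3 => (enc_subr 3 25 h1)⟩
noncomputable def txg_251 : Fn3 := ⟨_, _, fun h1 h2 h3 => (enc_subr 9 50 h1)⟩
noncomputable def txg_292 : Fn3 := ⟨_, _, fun h1 h2 h3 => (enc_subr 9 25 h1)⟩
noncomputable def txg_293 : Fn3 := ⟨_, _, fun h1 h2 h3 => (enc_subr 3 10 h1)⟩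
noncomputable def txg_334 : Fn3 := ⟨_, _, fun h1 h2 h3 => (enc_subr 43 100 h1)⟩
noncomputable def txg : Fn3 := ⟨_, _, fun h1 h2 h3 => (enc_case (enc_add h1 (enc_rat _ 587 1262)) (enc_case (txg_27.enc h1 h2 h3) (enc_add (enc_add (enc_add (enc_scale 142139 3200000 h1) (enc_rat _ 142139 6400000)) (enc_mul (enc_norm (txg_4.enc h1 h2 h3)) (enc_norm (enc_add (enc_scale 72511 160000 h1) (enc_rat _ 72511 320000))))) (enc_mul (enc_norm (enc_subr 4154979 100000000 (enc_neg (enc_scale 7436081 5000000 (txg_4.enc h1 h2 h3))))) (enc_norm (enc_mul (enc_norm (enc_add h1 (enc_rat _ 1 2))) (enc_norm (enc_sub (enc_neg (enc_rat _ 117 250)) h1)))))) (enc_add (enc_add (enc_add (enc_add (enc_scale 10119220747 228169600000 h1) (enc_rat _ 253005664867 11408480000000)) (enc_mul (enc_norm (txg_4.enc h1 h2 h3)) (enc_norm (enc_add (enc_scale 204122834033 456339200000 h1) (enc_rat _ 25536852168421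 114084800000000))))) (enc_mul (txg_63.enc h1 h2 h3) (enc_norm (enc_subr 242228259 1130000000 (enc_neg (enc_scale 2070327 4520000 h1)))))) (enc_mul (enc_norm (enc_add (enc_scale 93333073 5000000 (txg_4.enc h1 h2 h3)) (enc_rat _ 48835309 100000000))) (enc_norm (enc_mul (enc_norm (txg_27.enc h1 h2 h3)) (enc_norm (enc_sub (enc_neg (enc_rat _ 587 1262)) h1))))))) (enc_case (txg_77.enc h1 h2 h3) (enc_sub (enc_mul (enc_norm (enc_sub (enc_pnc _ 1) h2)) (enc_norm (enc_subn 1 (enc_nat 2 h2)))) (enc_mul (enc_norm (enc_nat 2 (enc_sub (enc_scale 4 3 (txg_6.enc h1 h2 h3)) h3))) (enc_norm (enc_mul (enc_norm (enc_subn 1 (enc_add (enc_scale 2 3 (txg_6.enc h1 h2 h3)) h2))) (kcg.enc h1 h3))))) (enc_case (txg_79.enc h1 h2 h3) (enc_case (txg_82.enc h1 h2 h3) (enc_case (txg_85.enc h1 h2 h3) (enc_add (enc_add (enc_add (enc_add (enc_scale 54714077801 456066500000 h1) (enc_rat _ 47845194203 912133000000))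 (enc_mul (enc_norm (txg_4.enc h1 h2 h3)) (enc_norm (enc_subr 146254615029 1824266000000 (enc_neg (enc_scale 54704598741 182426600000 h1)))))) (enc_mul (txg_63.enc h1 h2 h3) (enc_norm (enc_add (enc_scale 4323 144875 h1) (enc_rat _ 38907 3621875))))) (enc_mul (enc_norm (enc_subr 74156741 50000000 (enc_scale 157423537 10000000 (txg_4.enc h1 h2 h3)))) (enc_norm (enc_mul (enc_norm (txg_77.enc h1 h2 h3)) (enc_norm (enc_sub (enc_neg (enc_rat _ 9 25)) h1)))))) (enc_case (txg_112.enc h1 h2 h3) (enc_add (enc_add (enc_add (enc_scale 245339 1500000 h1) (enc_rat _ 1703663 25000000)) (enc_mul (enc_norm (txg_4.enc h1 h2 h3)) (enc_norm (enc_subr 169593 2000000 (enc_neg (enc_scale 187631 600000 h1)))))) (enc_mul (enc_norm (enc_sub (enc_rat _ 31379 20000000) (enc_scale 234803 31250 (txg_4.enc h1 h2 h3)))) (enc_norm (enc_mul (enc_norm (txg_85.enc h1 h2 h3)) (enc_norm (enc_sub (enc_neg (enc_rat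 _ 3 10)) h1)))))) (enc_add (enc_add (enc_add (enc_scale 963449 6000000 h1) (enc_rat _ 6725117 100000000)) (enc_mul (enc_norm (txg_4.enc h1 h2 h3)) (enc_norm (enc_add (enc_scale 82301 600000 h1) (enc_rat _ 100339 2000000))))) (enc_mul (enc_norm (enc_add (enc_scale 3117 200000 (txg_4.enc h1 h2 h3)) (enc_rat _ 96341 2000000))) (enc_norm (enc_mul (enc_norm (txg_112.enc h1 h2 h3)) (enc_norm (enc_sub (enc_neg (enc_rat _ 6 25)) h1)))))))) (enc_case (txg_153.enc h1 h2 h3) (enc_case (txg_156.enc h1 h2 h3) (enc_add (enc_add (enc_add (enc_scale 37619 250000 h1) (enc_rat _ 1296549 20000000)) (enc_mul (enc_norm (txg_4.enc h1 h2 h3)) (enc_norm (enc_add (enc_scale 24479 200000 h1) (enc_rat _ 466239 10000000))))) (enc_mul (enc_norm (enc_add (enc_scale 46123 200000 (txg_4.enc h1 h2 h3)) (enc_rat _ 7509 62500))) (enc_norm (enc_mul (enc_norm (txg_82.enc h1 h2 h3)) (enc_norm (enc_sub (enc_neg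 (enc_rat _ 9 50)) h1)))))) (enc_add (enc_add (enc_add (enc_scale 160681 1200000 h1) (enc_rat _ 773049 12500000)) (enc_mul (enc_norm (txg_4.enc h1 h2 h3)) (enc_norm (enc_add (enc_scale 10091 120000 h1) (enc_rat _ 397293 10000000))))) (enc_mul (enc_norm (enc_add (enc_scale 40779 100000 (txg_4.enc h1 h2 h3)) (enc_rat _ 312219 2000000))) (enc_norm (enc_mul (enc_norm (txg_156.enc h1 h2 h3)) (enc_norm (enc_sub (enc_neg (enc_rat _ 3 25)) h1))))))) (enc_case (txg_191.enc h1 h2 h3) (enc_add (enc_add (enc_add (enc_scale 698339 6000000 h1) (enc_rat _ 298713 5000000)) (enc_mul (enc_norm (txg_4.enc h1 h2 h3)) (enc_norm (enc_add (enc_scale 9 1000 h1) (enc_rat _ 307183 10000000))))) (enc_mul (enc_norm (enc_add (enc_scale 168751 200000 (txg_4.enc h1 h2 h3)) (enc_rat _ 67869 500000))) (enc_norm (enc_mul (enc_norm (txg_153.enc h1 h2 h3)) (enc_norm (enc_sub (enc_neg (enc_rat _ 3 50)) h1))))))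 (enc_add (enc_add (enc_sub (enc_rat _ 5247877 100000000) (enc_scale 2337 500000 h1)) (enc_mul (enc_norm (txg_4.enc h1 h2 h3)) (enc_norm (enc_sub (enc_rat _ 551617 20000000) (enc_scale 51949 1200000 h1))))) (enc_mul (enc_norm (enc_add (enc_scale 1387 100000 (txg_4.enc h1 h2 h3)) (enc_rat _ 940997 1000000))) (enc_norm (enc_mul (enc_norm (txg_191.enc h1 h2 h3)) (enc_norm (enc_sub (enc_rat _ 3 50) h1))))))))) (enc_case (txg_229.enc h1 h2 h3) (enc_case (txg_230.enc h1 h2 h3) (enc_add (enc_add (enc_sub (enc_rat _ 602347 10000000) (enc_scale 267879 2000000 h1)) (enc_mul (enc_norm (txg_4.enc h1 h2 h3)) (enc_norm (enc_sub (enc_rat _ 63323 2500000) (enc_scale 1729 300000 h1))))) (enc_mul (enc_norm (enc_sub (enc_rat _ 272431 1000000) (enc_scale 65321 100000 (txg_4.enc h1 h2 h3)))) (enc_norm (enc_mul (enc_norm (txg_79.enc h1 h2 h3)) (enc_norm (enc_sub (enc_rat _ 3 25) h1)))))) (enc_case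 (txg_251.enc h1 h2 h3) (enc_add (enc_add (enc_sub (enc_rat _ 1561753 25000000) (enc_scale 19071 125000 h1)) (enc_mul (enc_norm (txg_4.enc h1 h2 h3)) (enc_norm (enc_add (enc_scale 973 18750 h1) (enc_rat _ 23013 1250000))))) (enc_mul (enc_norm (enc_sub (enc_rat _ 7609 200000) (enc_scale 61539 200000 (txg_4.enc h1 h2 h3)))) (enc_norm (enc_mul (enc_norm (txg_230.enc h1 h2 h3)) (enc_norm (enc_sub (enc_rat _ 9 50) h1)))))) (enc_add (enc_add (enc_sub (enc_rat _ 3148649 50000000) (enc_scale 93217 600000 h1)) (enc_mul (enc_norm (txg_4.enc h1 h2 h3)) (enc_norm (enc_add (enc_scale 24403 300000 h1) (enc_rat _ 65547 5000000))))) (enc_mul (enc_norm (enc_sub (enc_rat _ 1703 200000) (enc_scale 36633 200000 (txg_4.enc h1 h2 h3)))) (enc_norm (enc_mul (enc_norm (txg_251.enc h1 h2 h3)) (enc_norm (enc_sub (enc_rat _ 6 25) h1)))))))) (enc_case (txg_292.enc h1 h2 h3) (enc_case (txg_293.enc h1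 h2 h3) (enc_add (enc_add (enc_sub (enc_rat _ 3147661 50000000) (enc_scale 232919 1500000 h1)) (enc_mul (enc_norm (txg_4.enc h1 h2 h3)) (enc_norm (enc_add (enc_scale 55657 600000 h1) (enc_rat _ 10369 1000000))))) (enc_mul (enc_norm (enc_subr 9887 1000000 (enc_neg (enc_scale 357 50000 (txg_4.enc h1 h2 h3))))) (enc_norm (enc_mul (enc_norm (txg_229.enc h1 h2 h3)) (enc_norm (enc_sub (enc_rat _ 3 10) h1)))))) (enc_add (enc_add (enc_sub (enc_rat _ 2779951 50000000) (enc_scale 49037 375000 h1)) (enc_mul (enc_norm (txg_4.enc h1 h2 h3)) (enc_norm (enc_add (enc_scale 49061 600000 h1) (enc_rat _ 13667 1000000))))) (enc_mul (enc_norm (enc_subr 398679 1000000 (enc_scale 38071 200000 (txg_4.enc h1 h2 h3)))) (enc_norm (enc_mul (enc_norm (txg_293.enc h1 h2 h3)) (enc_norm (enc_sub (enc_rat _ 9 25) h1))))))) (enc_case (txg_334.enc h1 h2 h3) (enc_add (enc_add (enc_sub (enc_rat _ 13133317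 350000000) (enc_scale 281947 3500000 h1)) (enc_mul (enc_norm (txg_4.enc h1 h2 h3)) (enc_norm (enc_sub (enc_rat _ 211667 1750000) (enc_scale 151373 700000 h1))))) (enc_mul (enc_norm (enc_subr 150219 400000 (enc_scale 818843 200000 (txg_4.enc h1 h2 h3)))) (enc_norm (enc_mul (enc_norm (txg_292.enc h1 h2 h3)) (enc_norm (enc_sub (enc_rat _ 43 100) h1)))))) (enc_add (enc_add (enc_sub (enc_rat _ 5151 250000) (enc_scale 5151 125000 h1)) (enc_mul (enc_norm (txg_4.enc h1 h2 h3)) (enc_norm (enc_sub (enc_rat _ 279663 1400000) (enc_scale 279663 700000 h1))))) (enc_mul (enc_norm (enc_subr 373143 2000000 (enc_neg (enc_scale 295213 200000 (txg_4.enc h1 h2 h3))))) (enc_norm (enc_mul (enc_norm (txg_334.enc h1 h2 h3)) (enc_norm (enc_sub (enc_rat _ 1 2) h1))))))))))))⟩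
noncomputable def l0q0 : Fn2 := ⟨_, _, fun h1 h2 => (enc_norm (txg.enc (enc_norm (enc_sub (enc_scale 3 4 h1) (enc_half (c1g.enc h1)))) (c1g.enc h1) h2))⟩
noncomputable def kf0q1_10 : Fn2 := ⟨_, _, fun h1 h2 => (enc_scale 3 2 h1)⟩
noncomputable def kf0q1 : Fn2 := ⟨_, _, fun h1 h2 => (enc_norm (enc_add (enc_mul (enc_norm (enc_mul (enc_norm (enc_add (enc_pnc _ 1) (enc_nat 2 (c1g.enc h1)))) (enc_norm (enc_sub (kf0q1_10.enc h1 h2) (c1g.enc h1))))) (enc_inv (enc_nat 2 (enc_sub (enc_add (enc_pnc _ 1) (kf0q1_10.enc h1 h2)) (c1g.enc h1))))) (enc_mul (enc_norm (enc_subn 1 h1)) (kcg.enc (enc_norm (enc_sub (enc_scale 3 4 h1) (enc_half (c1g.enc h1)))) h2))))⟩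
noncomputable def l0q1 : Fn2 := ⟨_, _, fun h1 h2 => (enc_norm (txg.enc (enc_norm (enc_sub (enc_scale 3 4 h1) (enc_half (c1g.enc h1)))) (c1g.enc h1) h2))⟩
noncomputable def yag : Fn1 := ⟨_, _, fun h1 => (enc_sqrt (enc_scale 4 3 (enc_sub (enc_pnc _ 1) (enc_sq h1))))⟩
noncomputable def kfc02 : Fn2 := ⟨_, _, fun h1 h2 => (enc_norm (enc_add h1 (enc_mul (enc_norm (enc_subn 1 (yag.enc h1))) (kcg.enc (enc_neg h1) h2))))⟩
noncomputable def lc02_7 : Fn2 := ⟨_, _, fun h1 h2 => (enc_scale 3 4 (yag.enc h1))⟩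
noncomputable def lc02_8 : Fn2 := ⟨_, _, fun h1 h2 => (enc_half h1)⟩
noncomputable def lc02 : Fn2 := ⟨_, _, fun h1 h2 => (enc_norm (enc_sub (txg.enc (enc_neg h1) (enc_norm (enc_add (lc02_7.enc h1 h2) (lc02_8.enc h1 h2))) h2) (txg.enc h1 (enc_norm (enc_sub (lc02_7.enc h1 h2) (lc02_8.enc h1 h2))) h2)))⟩
noncomputable def swg : Fn1 := ⟨_, _, fun h1 => (enc_sqrt (enc_sub (enc_pnc _ 1) (enc_scale 3 4 (enc_sq (enc_norm (enc_subn 1 h1))))))⟩
noncomputable def cv1m : Fn1 := ⟨_, _, fun h1 => (enc_norm (enc_add (enc_scale 2 5 (c1g.enc h1)) (enc_scale 3 5 (enc_add (swg.enc h1) (enc_rat _ 1 2)))))⟩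
noncomputable def bf1q0_3 : Fn2 := ⟨_, _, fun h1 h2 => (enc_subr 3 32 h2)⟩
noncomputable def bf1q0 : Fn2 := ⟨_, _, fun h1 h2 => (enc_norm (enc_case (enc_subr 1 20 h1) (enc_case (enc_subr 3 200 h1) (enc_sub (enc_sub (enc_pnc _ 1) (enc_scale 491 300 h1)) (enc_mul (enc_norm (bf1q0_3.enc h1 h2)) (enc_scale 49 15000 h1))) (enc_add (enc_sub (enc_rat _ 70000011 70000000) (enc_scale 572837 350000 h1)) (enc_mul (enc_norm (bf1q0_3.enc h1 h2)) (enc_norm (enc_sub (enc_rat _ 1 500000) (enc_scale 17 5000 h1)))))) (enc_case (enc_subr 3 25 h1) (enc_add (enc_sub (enc_rat _ 35000023 35000000) (enc_scale 1145681 700000 h1)) (enc_mul (enc_norm (bf1q0_3.enc h1 h2)) (enc_norm (enc_sub (enc_rat _ 11 1750000) (enc_scale 61 17500 h1))))) (enc_case (enc_subr 1 4 h1) (enc_add (enc_sub (enc_rat _ 65000119 65000000) (enc_scale 1063853 650000 h1)) (enc_mul (enc_norm (bf1q0_3.enc h1 h2)) (enc_norm (enc_sub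 (enc_rat _ 7 406250) (enc_scale 93 26000 h1))))) (enc_add (enc_sub (enc_rat _ 2500007 2500000) (enc_scale 511469 312500 h1)) (enc_mul (enc_norm (bf1q0_3.enc h1 h2)) (enc_norm (enc_sub (enc_rat _ 11 500000) (enc_scale 899 250000 h1)))))))))⟩
noncomputable def kf1q0 : Fn2 := ⟨_, _, fun h1 h2 => (enc_norm (enc_mul (cv1m.enc h1) (bf1q0.enc h1 h2)))⟩
noncomputable def bx1q0_3 : Fn2 := ⟨_, _, fun h1 h2 => (enc_subr 3 32 h2)⟩
noncomputable def bx1q0 : Fn2 := ⟨_, _, fun h1 h2 => (enc_norm (enc_case (enc_subr 1 20 h1) (enc_case (enc_subr 3 200 h1) (enc_add (enc_scale 12113 150000 h1) (enc_mul (enc_norm (bx1q0_3.enc h1 h2)) (enc_scale 67 3750 h1))) (enc_add (enc_add (enc_scale 28263 350000 h1) (enc_rat _ 1 35000000)) (enc_mul (enc_norm (bx1q0_3.enc h1 h2)) (enc_norm (enc_add (enc_scale 311 17500 h1) (enc_rat _ 1 700000)))))) (enc_case (enc_subr 3 25 h1) (enc_add (enc_add (enc_scale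 56523 700000 h1) (enc_rat _ 17 70000000)) (enc_mul (enc_norm (bx1q0_3.enc h1 h2)) (enc_norm (enc_add (enc_scale 123 7000 h1) (enc_rat _ 1 87500))))) (enc_case (enc_subr 1 4 h1) (enc_add (enc_add (enc_scale 104963 1300000 h1) (enc_rat _ 131 130000000)) (enc_mul (enc_norm (bx1q0_3.enc h1 h2)) (enc_norm (enc_add (enc_scale 1129 65000 h1) (enc_rat _ 29 812500))))) (enc_add (enc_add (enc_scale 201831 2500000 h1) (enc_rat _ 31 10000000)) (enc_mul (enc_norm (bx1q0_3.enc h1 h2)) (enc_norm (enc_add (enc_scale 2153 125000 h1) (enc_rat _ 9 125000)))))))))⟩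
noncomputable def l1q0 : Fn2 := ⟨_, _, fun h1 h2 => (enc_norm (enc_mul (cv1m.enc h1) (bx1q0.enc h1 h2)))⟩
noncomputable def bf1q1_3 : Fn2 := ⟨_, _, fun h1 h2 => (enc_subr 3 32 h2)⟩
noncomputable def bf1q1 : Fn2 := ⟨_, _, fun h1 h2 => (enc_norm (enc_case (enc_subr 22 25 h1) (enc_case (enc_subr 3 4 h1) (enc_add (enc_subr 11306737 5000000 (enc_scale 1891723 625000 h1)) (enc_mul (enc_norm (bf1q1_3.enc h1 h2)) (enc_norm (enc_sub (enc_rat _ 4151 500000) (enc_scale 363 31250 h1))))) (enc_add (enc_subr 146987587 65000000 (enc_scale 122962 40625 h1)) (enc_mul (enc_norm (bf1q1_3.enc h1 h2)) (enc_norm (enc_sub (enc_rat _ 10807 1300000) (enc_scale 189 16250 h1)))))) (enc_case (enc_subr 19 20 h1) (enc_add (enc_subr 79147169 35000000 (enc_scale 211873 70000 h1)) (enc_mul (enc_norm (bf1q1_3.enc h1 h2)) (enc_norm (enc_sub (enc_rat _ 29133 3500000) (enc_scale 163 14000 h1))))) (enc_case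 (enc_subr 197 200 h1) (enc_add (enc_subr 39573537 17500000 (enc_scale 264841 87500 h1)) (enc_mul (enc_norm (bf1q1_3.enc h1 h2)) (enc_norm (enc_sub (enc_rat _ 58551 7000000) (enc_scale 409 35000 h1))))) (enc_add (enc_subr 67840321 30000000 (enc_scale 454013 150000 h1)) (enc_mul (enc_norm (bf1q1_3.enc h1 h2)) (enc_norm (enc_sub (enc_rat _ 25037 3000000) (enc_scale 7 600 h1)))))))))⟩
noncomputable def kf1q1 : Fn2 := ⟨_, _, fun h1 h2 => (enc_norm (enc_mul (cv1m.enc h1) (bf1q1.enc h1 h2)))⟩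
noncomputable def bx1q1_3 : Fn2 := ⟨_, _, fun h1 h2 => (enc_subr 3 32 h2)⟩
noncomputable def bx1q1 : Fn2 := ⟨_, _, fun h1 h2 => (enc_norm (enc_case (enc_subr 22 25 h1) (enc_case (enc_subr 3 4 h1) (enc_add (enc_sub (enc_rat _ 292433 2500000) (enc_scale 265937 2500000 h1)) (enc_mul (enc_norm (bx1q1_3.enc h1 h2)) (enc_norm (enc_subr 36307 200000 (enc_scale 9077 31250 h1))))) (enc_add (enc_sub (enc_rat _ 7603399 65000000) (enc_scale 138291 1300000 h1)) (enc_mul (enc_norm (bx1q1_3.enc h1 h2)) (enc_norm (enc_subr 2369831 13000000 (enc_scale 9473 32500 h1)))))) (enc_case (enc_subr 19 20 h1) (enc_add (enc_sub (enc_rat _ 4094473 35000000) (enc_scale 9309 87500 h1)) (enc_mul (enc_norm (bx1q1_3.enc h1 h2)) (enc_norm (enc_subr 1281837 7000000 (enc_scale 20469 70000 h1))))) (enc_case (enc_subr 197 200 h1) (enc_add (enc_sub (enc_rat _ 1023737 8750000) (enc_scale 37241 350000 h1)) (enc_mul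 (enc_norm (bx1q1_3.enc h1 h2)) (enc_norm (enc_subr 321243 1750000 (enc_scale 10251 35000 h1))))) (enc_add (enc_sub (enc_rat _ 702053 6000000) (enc_scale 7981 75000 h1)) (enc_mul (enc_norm (bx1q1_3.enc h1 h2)) (enc_norm (enc_subr 551237 3000000 (enc_scale 1099 3750 h1)))))))))⟩
noncomputable def l1q1 : Fn2 := ⟨_, _, fun h1 h2 => (enc_norm (enc_mul (cv1m.enc h1) (bx1q1.enc h1 h2)))⟩
noncomputable def xc12a : Fn1 := ⟨_, _, fun h1 => (enc_norm (enc_add (enc_scale 2 5 h1) (enc_scale 3 5 (enc_subr 1 2 (swg.enc (yag.enc h1))))))⟩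
noncomputable def bf1q2_3 : Fn2 := ⟨_, _, fun h1 h2 => (enc_subr 3 32 h2)⟩
noncomputable def bf1q2 : Fn2 := ⟨_, _, fun h1 h2 => (enc_norm (enc_case (enc_subr 27 25 h1) (enc_case (enc_subr 203 200 h1) (enc_add (enc_add (enc_scale 2197 9375 h1) (enc_rat _ 7178 9375)) (enc_mul (enc_norm (bf1q2_3.enc h1 h2)) (enc_norm (enc_subr 7 3750 (enc_scale 7 3750 h1))))) (enc_case (enc_subr 21 20 h1) (enc_add (enc_add (enc_scale 5861 25000 h1) (enc_rat _ 3827793 5000000)) (enc_mul (enc_norm (bf1q2_3.enc h1 h2)) (enc_norm (enc_subr 1233 500000 (enc_scale 43 17500 h1))))) (enc_add (enc_add (enc_scale 23451 100000 h1) (enc_rat _ 7654851 10000000)) (enc_mul (enc_norm (bf1q2_3.enc h1 h2)) (enc_norm (enc_subr 3211 1000000 (enc_scale 19 6000 h1))))))) (enc_case (enc_subr 231 200 h1) (enc_case (enc_subr 577 500 h1) (enc_add (enc_add (enc_scale 52067219 222000000 h1) (enc_rat _ 354023361 462500000))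 (enc_mul (enc_norm (bf1q2_3.enc h1 h2)) (enc_norm (enc_sub (enc_rat _ 120593 37000000) (enc_scale 209 74000 h1))))) (enc_add (enc_scale 1406947 6000000 h1) (enc_rat _ 4593053 6000000))) (enc_case (enc_subr 13 10 h1) (enc_add (enc_add (enc_scale 40801403 174000000 h1) (enc_rat _ 1331986063 1740000000)) (enc_mul (enc_norm (bf1q2_3.enc h1 h2)) (enc_norm (enc_subr 51513 7250000 (enc_scale 223 36250 h1))))) (enc_add (enc_add (enc_scale 234491 1000000 h1) (enc_rat _ 765509 1000000)) (enc_mul (enc_norm (bf1q2_3.enc h1 h2)) (enc_norm (enc_subr 1159 400000 (enc_scale 583 200000 h1)))))))))⟩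
noncomputable def kfc12a : Fn2 := ⟨_, _, fun h1 h2 => (enc_norm (enc_mul (enc_norm (enc_add (enc_scale 2 5 h1) (enc_scale 3 5 (enc_subr 1 2 (swg.enc (yag.enc h1)))))) (bf1q2.enc (yag.enc h1) h2)))⟩
noncomputable def bx1q2_3 : Fn2 := ⟨_, _, fun h1 h2 => (enc_subr 3 32 h2)⟩
noncomputable def bx1q2 : Fn2 := ⟨_, _, fun h1 h2 => (enc_norm (enc_case (enc_subr 27 25 h1) (enc_case (enc_subr 203 200 h1) (enc_add (enc_subr 8741 150000 (enc_scale 8741 150000 h1)) (enc_mul (enc_norm (bx1q2_3.enc h1 h2)) (enc_norm (enc_subr 1837 3000 (enc_scale 1837 3000 h1))))) (enc_case (enc_subr 21 20 h1) (enc_add (enc_subr 123671 2000000 (enc_scale 2703 43750 h1)) (enc_mul (enc_norm (bx1q2_3.enc h1 h2)) (enc_norm (enc_subr 606369 1000000 (enc_scale 10613 17500 h1))))) (enc_add (enc_subr 123161 2000000 (enc_scale 3077 50000 h1)) (enc_mul (enc_norm (bx1q2_3.enc h1 h2)) (enc_norm (enc_subr 289767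 500000 (enc_scale 5809 10000 h1))))))) (enc_case (enc_subr 231 200 h1) (enc_case (enc_subr 577 500 h1) (enc_add (enc_subr 22306021 370000000 (enc_scale 44653 740000 h1)) (enc_mul (enc_norm (bx1q2_3.enc h1 h2)) (enc_norm (enc_subr 9575787 18500000 (enc_scale 116231 222000 h1))))) (enc_add (enc_rat _ 2337 250000) (enc_scale 51949 600000 (bx1q2_3.enc h1 h2)))) (enc_case (enc_subr 13 10 h1) (enc_add (enc_sub (enc_rat _ 2711151 290000000) (enc_scale 1 1450000 h1)) (enc_mul (enc_norm (bx1q2_3.enc h1 h2)) (enc_norm (enc_sub (enc_rat _ 974291 10875000) (enc_scale 1133 435000 h1))))) (enc_add (enc_sub (enc_rat _ 18701 2000000) (enc_scale 1 500000 h1)) (enc_mul (enc_norm (bx1q2_3.enc h1 h2)) (enc_norm (enc_sub (enc_rat _ 22747 250000) (enc_scale 23 6250 h1)))))))))⟩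
noncomputable def lc12a : Fn2 := ⟨_, _, fun h1 h2 => (enc_norm (enc_mul (enc_norm (enc_add (enc_scale 2 5 h1) (enc_scale 3 5 (enc_subr 1 2 (swg.enc (yag.enc h1)))))) (bx1q2.enc (yag.enc h1) h2)))⟩
noncomputable def xc12b : Fn1 := ⟨_, _, fun h1 => (enc_norm (enc_scale 3 5 (enc_subr 1 2 (swg.enc h1))))⟩
noncomputable def kfc12b : Fn2 := ⟨_, _, fun h1 h2 => (enc_norm (enc_mul (enc_norm (enc_scale 3 5 (enc_subr 1 2 (swg.enc h1)))) (bf1q2.enc h1 h2)))⟩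
noncomputable def lc12b : Fn2 := ⟨_, _, fun h1 h2 => (enc_norm (enc_mul (enc_norm (enc_scale 3 5 (enc_subr 1 2 (swg.enc h1)))) (bx1q2.enc h1 h2)))⟩
noncomputable def cv1r : Fn1 := ⟨_, _, fun h1 => (enc_norm (enc_scale 3 5 (enc_subr 1 2 (swg.enc h1))))⟩
noncomputable def bf1q3_3 : Fn2 := ⟨_, _, fun h1 h2 => (enc_subr 3 32 h2)⟩
noncomputable def bf1q3_46 : Fn2 := ⟨_, _, fun h1 h2 => (enc_sub (enc_rat _ 14965791 1000000) (enc_scale 27227 3125 h1))⟩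
noncomputable def bf1q3 : Fn2 := ⟨_, _, fun h1 h2 => (enc_norm (enc_case (enc_subr 47 25 h1) (enc_case (enc_subr 7 4 h1) (enc_add (enc_sub (enc_rat _ 149657933 10000000) (enc_scale 21781603 2500000 h1)) (enc_mul (enc_norm (bf1q3_3.enc h1 h2)) (enc_norm (enc_subr 73 250000 (enc_scale 19 125000 h1))))) (enc_add (enc_sub (enc_rat _ 1945553031 130000000) (enc_scale 11326433 1300000 h1)) (enc_mul (enc_norm (bf1q3_3.enc h1 h2)) (enc_norm (enc_subr 1919 6500000 (enc_scale 1 6500 h1)))))) (enc_case (enc_subr 39 20 h1) (enc_add (enc_sub (enc_rat _ 209521113 14000000) (enc_scale 6098849 700000 h1)) (enc_mul (enc_norm (bf1q3_3.enc h1 h2)) (enc_norm (enc_subr 961 3500000 (enc_scale 1 7000 h1))))) (enc_case (enc_subr 397 200 h1) (enc_add (bf1q3_46.enc h1 h2) (enc_mul (enc_norm (bf1q3_3.enc h1 h2)) (enc_norm (enc_subr 289 875000 (enc_scale 3 17500 h1))))) (enc_add (bf1q3_46.enc h1 h2)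 (enc_mul (enc_norm (bf1q3_3.enc h1 h2)) (enc_norm (enc_subr 191 750000 (enc_scale 1 7500 h1)))))))))⟩
noncomputable def kf1q3 : Fn2 := ⟨_, _, fun h1 h2 => (enc_norm (enc_mul (cv1r.enc h1) (bf1q3.enc h1 h2)))⟩
noncomputable def bx1q3_3 : Fn2 := ⟨_, _, fun h1 h2 => (enc_subr 3 32 h2)⟩
noncomputable def bx1q3_34 : Fn2 := ⟨_, _, fun h1 h2 => (enc_subr 2954059 2187500 (enc_scale 73481 87500 h1))⟩
noncomputable def bx1q3 : Fn2 := ⟨_, _, fun h1 h2 => (enc_norm (enc_case (enc_subr 47 25 h1) (enc_case (enc_subr 7 4 h1) (enc_add (enc_subr 1688039 1250000 (enc_scale 2099463 2500000 h1)) (enc_mul (enc_norm (bx1q3_3.enc h1 h2)) (enc_norm (enc_sub (enc_rat _ 21741 500000) (enc_scale 5601 250000 h1))))) (enc_add (enc_subr 43888937 32500000 (enc_scale 1091719 1300000 h1)) (enc_mul (enc_norm (bx1q3_3.enc h1 h2)) (enc_norm (enc_sub (enc_rat _ 4513 104000) (enc_scale 1453 65000 h1))))))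 (enc_case (enc_subr 39 20 h1) (enc_add (bx1q3_34.enc h1 h2) (enc_mul (enc_norm (bx1q3_3.enc h1 h2)) (enc_norm (enc_sub (enc_rat _ 60723 1400000) (enc_scale 391 17500 h1))))) (enc_case (enc_subr 397 200 h1) (enc_add (bx1q3_34.enc h1 h2) (enc_mul (enc_norm (bx1q3_3.enc h1 h2)) (enc_norm (enc_sub (enc_rat _ 12129 280000) (enc_scale 781 35000 h1))))) (enc_add (enc_subr 13504213 10000000 (enc_scale 41989 50000 h1)) (enc_mul (enc_norm (bx1q3_3.enc h1 h2)) (enc_norm (enc_sub (enc_rat _ 130067 3000000) (enc_scale 67 3000 h1)))))))))⟩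
noncomputable def l1q3 : Fn2 := ⟨_, _, fun h1 h2 => (enc_norm (enc_mul (cv1r.enc h1) (bx1q3.enc h1 h2)))⟩
noncomputable def cv2m : Fn1 := ⟨_, _, fun h1 => (enc_norm (enc_add (swg.enc h1) (enc_rat _ 1 2)))⟩
noncomputable def bf2q0_3 : Fn2 := ⟨_, _, fun h1 h2 => (enc_subr 3 32 h2)⟩
noncomputable def bf2q0 : Fn2 := ⟨_, _, fun h1 h2 => (enc_norm (enc_case (enc_subr 1 20 h1) (enc_case (enc_subr 3 200 h1) (enc_sub (enc_sub (enc_pnc _ 1) (enc_scale 276793 75000 h1)) (enc_mul (enc_norm (bf2q0_3.enc h1 h2)) (enc_scale 19 15000 h1))) (enc_add (enc_sub (enc_rat _ 10000001 10000000) (enc_scale 184529 50000 h1)) (enc_mul (enc_norm (bf2q0_3.enc h1 h2)) (enc_norm (enc_sub (enc_rat _ 1 875000) (enc_scale 47 35000 h1)))))) (enc_case (enc_subr 3 25 h1) (enc_add (enc_sub (enc_rat _ 70000047 70000000) (enc_scale 1291707 350000 h1)) (enc_mul (enc_norm (bf2q0_3.enc h1 h2)) (enc_norm (enc_sub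 (enc_rat _ 19 3500000) (enc_scale 1 700 h1))))) (enc_case (enc_subr 1 4 h1) (enc_add (enc_sub (enc_rat _ 10000029 10000000) (enc_scale 369061 100000 h1)) (enc_mul (enc_norm (bf2q0_3.enc h1 h2)) (enc_norm (enc_sub (enc_rat _ 7 260000) (enc_scale 209 130000 h1))))) (enc_add (enc_sub (enc_rat _ 10000061 10000000) (enc_scale 9226557 2500000 h1)) (enc_mul (enc_norm (bf2q0_3.enc h1 h2)) (enc_norm (enc_sub (enc_rat _ 57 1000000) (enc_scale 27 15625 h1)))))))))⟩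
noncomputable def kf2q0 : Fn2 := ⟨_, _, fun h1 h2 => (enc_norm (enc_mul (cv2m.enc h1) (bf2q0.enc h1 h2)))⟩
noncomputable def bx2q0_3 : Fn2 := ⟨_, _, fun h1 h2 => (enc_subr 3 32 h2)⟩
noncomputable def bx2q0_8 : Fn2 := ⟨_, _, fun h1 h2 => (enc_scale 843 10000 h1)⟩
noncomputable def bx2q0 : Fn2 := ⟨_, _, fun h1 h2 => (enc_norm (enc_case (enc_subr 1 20 h1) (enc_case (enc_subr 3 200 h1) (enc_add (bx2q0_8.enc h1 h2) (enc_mul (enc_norm (bx2q0_3.enc h1 h2)) (enc_scale 727 15000 h1))) (enc_add (bx2q0_8.enc h1 h2) (enc_mul (enc_norm (bx2q0_3.enc h1 h2)) (enc_norm (enc_add (enc_scale 1693 35000 h1) (enc_rat _ 1 700000)))))) (enc_case (enc_subr 3 25 h1) (enc_add (enc_add (enc_scale 8429 100000 h1) (enc_rat _ 1 2000000)) (enc_mul (enc_norm (bx2q0_3.enc h1 h2)) (enc_norm (enc_add (enc_scale 423 8750 h1) (enc_rat _ 1 350000))))) (enc_case (enc_subr 1 4 h1) (enc_add (enc_add (enc_scale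 109559 1300000 h1) (enc_rat _ 281 130000000)) (enc_mul (enc_norm (bx2q0_3.enc h1 h2)) (enc_norm (enc_add (enc_scale 251 5200 h1) (enc_rat _ 19 1625000))))) (enc_add (enc_add (enc_scale 26333 312500 h1) (enc_rat _ 3 625000)) (enc_mul (enc_norm (bx2q0_3.enc h1 h2)) (enc_norm (enc_add (enc_scale 6039 125000 h1) (enc_rat _ 1 1000000)))))))))⟩
noncomputable def l2q0 : Fn2 := ⟨_, _, fun h1 h2 => (enc_norm (enc_mul (cv2m.enc h1) (bx2q0.enc h1 h2)))⟩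
noncomputable def gsg : Fn1 := ⟨_, _, fun h1 => (enc_sqrt (enc_sub (enc_pnc _ 1) (enc_scale 3 4 (enc_sq h1))))⟩
noncomputable def esg : Fn1 := ⟨_, _, fun h1 => (enc_norm (enc_subn 1 (enc_add (enc_half h1) (gsg.enc h1))))⟩
noncomputable def kf2q1_4 : Fn2 := ⟨_, _, fun h1 h2 => (enc_subr 3 32 h2)⟩
noncomputable def kf2q1_53 : Fn2 := ⟨_, _, fun h1 h2 => (enc_sub (enc_pnc _ 1) h1)⟩
noncomputable def kf2q1_54 : Fn2 := ⟨_, _, fun h1 h2 => (gsg.enc (enc_norm (kf2q1_53.enc h1 h2)))⟩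
noncomputable def kf2q1_60 : Fn2 := ⟨_, _, fun h1 h2 => (enc_scale 3 2 (kf2q1_53.enc h1 h2))⟩
noncomputable def kf2q1_62 : Fn2 := ⟨_, _, fun h1 h2 => (enc_add (enc_pnc _ 1) (kf2q1_54.enc h1 h2))⟩
noncomputable def kf2q1 : Fn2 := ⟨_, _, fun h1 h2 => (enc_norm (enc_case (enc_subr 55 64 h1) (enc_mul (cv2m.enc h1) (enc_norm (enc_case (enc_subr 3 4 h1) (enc_add (enc_subr 40280057 10000000 (enc_scale 14359147 2500000 h1)) (enc_mul (enc_norm (kf2q1_4.enc h1 h2)) (enc_norm (enc_sub (enc_rat _ 20343 500000) (enc_scale 6001 125000 h1))))) (enc_add (enc_subr 1101408221 273437500 (enc_scale 1570532253 273437500 h1)) (enc_mul (enc_norm (kf2q1_4.enc h1 h2)) (enc_norm (enc_sub (enc_rat _ 72477 1750000) (enc_scale 21429 437500 h1)))))))) (enc_case (enc_subr 61 64 h1) (enc_add (enc_add (enc_mul (enc_norm (enc_mul (enc_norm (enc_sub (kf2q1_54.enc h1 h2) (kf2q1_60.enc h1 h2))) (enc_norm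 (kf2q1_62.enc h1 h2)))) (enc_inv (enc_sub (kf2q1_62.enc h1 h2) (kf2q1_60.enc h1 h2)))) (enc_mul (enc_norm (enc_sub (enc_half (kf2q1_53.enc h1 h2)) (enc_mul (enc_scale 3 4 (enc_sq (enc_norm (kf2q1_53.enc h1 h2)))) (enc_inv (kf2q1_54.enc h1 h2))))) (enc_inv (enc_nat 2 (esg.enc (enc_norm (kf2q1_53.enc h1 h2))))))) (enc_mul (kcg.enc (enc_norm (enc_sub (enc_scale 3 4 (kf2q1_53.enc h1 h2)) (enc_half (kf2q1_54.enc h1 h2)))) h2) (enc_norm (kf2q1_53.enc h1 h2)))) (enc_mul (cv2m.enc h1) (enc_norm (enc_case (enc_subr 197 200 h1) (enc_add (enc_add (enc_scale 2674897 4687500 h1) (enc_rat _ 12620138 29296875)) (enc_mul (enc_norm (kf2q1_4.enc h1 h2)) (enc_norm (enc_subr 49897619 3187500000 (enc_scale 246427 15937500 h1))))) (enc_add (enc_add (enc_scale 17869 37500 h1) (enc_rat _ 19631 37500)) (enc_mul (enc_norm (kf2q1_4.enc h1 h2)) (enc_norm (enc_subr 53 1875 (enc_scale 53 1875 h1)))))))))))⟩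
noncomputable def qsg : Fn1 := ⟨_, _, fun h1 => (enc_norm (enc_mul (enc_norm (enc_sub (enc_pnc _ 1) (gsg.enc h1))) (enc_norm (enc_subn 1 (enc_nat 2 (gsg.enc h1))))))⟩
noncomputable def l2q1_4 : Fn2 := ⟨_, _, fun h1 h2 => (enc_subr 3 32 h2)⟩
noncomputable def l2q1_31 : Fn2 := ⟨_, _, fun h1 h2 => (enc_sq (enc_norm (l2q1_4.enc h1 h2)))⟩
noncomputable def l2q1_68 : Fn2 := ⟨_, _, fun h1 h2 => (enc_sub (enc_pnc _ 1) h1)⟩
noncomputable def l2q1 : Fn2 := ⟨_, _, fun h1 h2 => (enc_norm (enc_case (enc_subr 55 64 h1) (enc_mul (cv2m.enc h1) (enc_norm (enc_case (enc_subr 3 4 h1) (enc_add (enc_sub (enc_rat _ 172061 2000000) (enc_scale 119651 1250000 h1)) (enc_mul (enc_norm (l2q1_4.enc h1 h2)) (enc_norm (enc_subr 70689 500000 (enc_scale 20567 125000 h1))))) (enc_add (enc_add (enc_sub (enc_rat _ 752715161 8750000000) (enc_scale 52343003 546875000 h1)) (enc_mul (enc_norm (l2q1_4.enc h1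 h2)) (enc_norm (enc_subr 67467531 218750000 (enc_scale 21178427 54687500 h1))))) (enc_mul (l2q1_31.enc h1 h2) (enc_norm (enc_sub (enc_rat _ 909 218750) (enc_scale 606 109375 h1)))))))) (enc_case (enc_subr 61 64 h1) (enc_sub (qsg.enc (enc_norm (l2q1_68.enc h1 h2))) (enc_mul (enc_norm (enc_nat 2 (enc_sub (l2q1_68.enc h1 h2) h2))) (enc_norm (enc_mul (esg.enc (enc_norm (l2q1_68.enc h1 h2))) (kcg.enc (enc_norm (enc_sub (enc_scale 3 4 (l2q1_68.enc h1 h2)) (enc_half (gsg.enc (enc_norm (l2q1_68.enc h1 h2)))))) h2))))) (enc_mul (cv2m.enc h1) (enc_norm (enc_case (enc_subr 197 200 h1) (enc_add (enc_add (enc_sub (enc_rat _ 123850259 5312500000) (enc_scale 1240719 53125000 h1)) (enc_mul (enc_norm (l2q1_4.enc h1 h2)) (enc_norm (enc_sub (enc_rat _ 805463879 3187500000) (enc_scale 4046257 15937500 h1))))) (enc_mul (l2q1_31.enc h1 h2) (enc_norm (enc_subr 11623 425000 (enc_scale 59 2125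 h1))))) (enc_add (enc_sub (enc_rat _ 1543 75000) (enc_scale 1543 75000 h1)) (enc_mul (enc_norm (l2q1_4.enc h1 h2)) (enc_norm (enc_sub (enc_rat _ 131 750) (enc_scale 131 750 h1)))))))))))⟩
noncomputable def cv2p : Fn1 := ⟨_, _, fun h1 => (enc_norm (enc_subr 1 2 (swg.enc h1)))⟩
noncomputable def xc22a : Fn1 := ⟨_, _, fun h1 => (cv2p.enc (yag.enc h1))⟩
noncomputable def kfc22a_3 : Fn2 := ⟨_, _, fun h1 h2 => (cv2p.enc (yag.enc h1))⟩
noncomputable def kfc22a_5 : Fn2 := ⟨_, _, fun h1 h2 => (enc_subr 3 32 h2)⟩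
noncomputable def kfc22a_68 : Fn2 := ⟨_, _, fun h1 h2 => (enc_subn 1 (yag.enc h1))⟩
noncomputable def kfc22a_69 : Fn2 := ⟨_, _, fun h1 h2 => (gsg.enc (enc_norm (kfc22a_68.enc h1 h2)))⟩
noncomputable def kfc22a_75 : Fn2 := ⟨_, _, fun h1 h2 => (enc_scale 3 2 (kfc22a_68.enc h1 h2))⟩
noncomputable def kfc22a_77 : Fn2 := ⟨_, _, fun h1 h2 => (enc_add (enc_pnc _ 1) (kfc22a_69.enc h1 h2))⟩
noncomputable def kfc22a : Fn2 := ⟨_, _, fun h1 h2 => (enc_norm (enc_case (enc_subr 67 64 (yag.enc h1)) (enc_mul (kfc22a_3.enc h1 h2) (enc_norm (enc_case (enc_subr 203 200 (yag.enc h1)) (enc_add (enc_sub (enc_rat _ 79819 75000) (enc_scale 4819 75000 (yag.enc h1))) (enc_mul (enc_norm (kfc22a_5.enc h1 h2)) (enc_norm (enc_sub (enc_rat _ 403 7500) (enc_scale 403 7500 (yag.enc h1)))))) (enc_add (enc_sub (enc_rat _ 5653207669 5312500000) (enc_scale 3407171 53125000 (yag.enc h1))) (enc_mul (enc_norm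 (kfc22a_5.enc h1 h2)) (enc_norm (enc_sub (enc_rat _ 130074241 2125000000) (enc_scale 649197 10625000 (yag.enc h1))))))))) (enc_case (enc_subr 73 64 (yag.enc h1)) (enc_add (enc_sub (enc_mul (enc_norm (enc_mul (enc_norm (enc_sub (kfc22a_69.enc h1 h2) (kfc22a_75.enc h1 h2))) (enc_norm (kfc22a_77.enc h1 h2)))) (enc_inv (enc_sub (kfc22a_77.enc h1 h2) (kfc22a_75.enc h1 h2)))) (enc_mul (enc_norm (enc_sub (enc_half (kfc22a_68.enc h1 h2)) (enc_mul (enc_scale 3 4 (enc_sq (enc_norm (kfc22a_68.enc h1 h2)))) (enc_inv (kfc22a_69.enc h1 h2))))) (enc_inv (enc_nat 2 (esg.enc (enc_norm (kfc22a_68.enc h1 h2))))))) (enc_mul (kcg.enc (enc_norm (enc_sub (enc_scale 3 4 (kfc22a_68.enc h1 h2)) (enc_half (kfc22a_69.enc h1 h2)))) h2) (enc_norm (kfc22a_68.enc h1 h2)))) (enc_mul (kfc22a_3.enc h1 h2) (enc_norm (enc_case (enc_subr 29 25 (yag.enc h1)) (enc_add (enc_sub (enc_rat _ 93138060321 19375000000)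 (enc_scale 326466503 96875000 (yag.enc h1))) (enc_mul (enc_norm (kfc22a_5.enc h1 h2)) (enc_norm (enc_subr 114080433 3875000000 (enc_scale 465219 19375000 (yag.enc h1)))))) (enc_case (enc_subr 13 10 (yag.enc h1)) (enc_add (enc_sub (enc_rat _ 336499 70000) (enc_scale 4717971 1400000 (yag.enc h1))) (enc_mul (enc_norm (kfc22a_5.enc h1 h2)) (enc_norm (enc_subr 65397 7000000 (enc_scale 117 17500 (yag.enc h1)))))) (enc_add (enc_sub (enc_rat _ 9614259 2000000) (enc_scale 168499 50000 (yag.enc h1))) (enc_mul (enc_norm (kfc22a_5.enc h1 h2)) (enc_norm (enc_subr 9309 1000000 (enc_scale 333 50000 (yag.enc h1)))))))))))))⟩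
noncomputable def lc22a_3 : Fn2 := ⟨_, _, fun h1 h2 => (cv2p.enc (yag.enc h1))⟩
noncomputable def lc22a_5 : Fn2 := ⟨_, _, fun h1 h2 => (enc_subr 3 32 h2)⟩
noncomputable def lc22a_32 : Fn2 := ⟨_, _, fun h1 h2 => (enc_sq (enc_norm (lc22a_5.enc h1 h2)))⟩
noncomputable def lc22a_81 : Fn2 := ⟨_, _, fun h1 h2 => (enc_subn 1 (yag.enc h1))⟩
noncomputable def lc22a : Fn2 := ⟨_, _, fun h1 h2 => (enc_norm (enc_case (enc_subr 67 64 (yag.enc h1)) (enc_mul (lc22a_3.enc h1 h2) (enc_norm (enc_case (enc_subr 203 200 (yag.enc h1)) (enc_add (enc_subr 771 12500 (enc_scale 771 12500 (yag.enc h1))) (enc_mul (enc_norm (lc22a_5.enc h1 h2)) (enc_norm (enc_subr 4753 7500 (enc_scale 4753 7500 (yag.enc h1)))))) (enc_add (enc_add (enc_subr 224144183 3187500000 (enc_scale 559343 7968750 (yag.enc h1))) (enc_mul (enc_norm (lc22a_5.enc h1 h2)) (enc_norm (enc_subr 4540784213 6375000000 (enc_scale 22666921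 31875000 (yag.enc h1)))))) (enc_mul (lc22a_32.enc h1 h2) (enc_norm (enc_sub (enc_rat _ 539371 6375000) (enc_scale 2657 31875 (yag.enc h1))))))))) (enc_case (enc_subr 73 64 (yag.enc h1)) (enc_sub (qsg.enc (enc_norm (lc22a_81.enc h1 h2))) (enc_mul (enc_norm (enc_nat 2 (enc_sub (lc22a_81.enc h1 h2) h2))) (enc_norm (enc_mul (esg.enc (enc_norm (lc22a_81.enc h1 h2))) (kcg.enc (enc_norm (enc_sub (enc_scale 3 4 (lc22a_81.enc h1 h2)) (enc_half (gsg.enc (enc_norm (lc22a_81.enc h1 h2)))))) h2))))) (enc_mul (lc22a_3.enc h1 h2) (enc_norm (enc_case (enc_subr 29 25 (yag.enc h1)) (enc_add (enc_add (enc_subr 3339068509 38750000000 (enc_scale 16578187 193750000 (yag.enc h1))) (enc_mul (enc_norm (lc22a_5.enc h1 h2)) (enc_norm (enc_sub (enc_rat _ 8540131129 1937500000) (enc_scale 18404361 4843750 (yag.enc h1)))))) (enc_mul (lc22a_32.enc h1 h2) (enc_norm (enc_subr 10643 96875 (enc_scale 367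 3875 (yag.enc h1)))))) (enc_case (enc_subr 13 10 (yag.enc h1)) (enc_add (enc_subr 6030081 70000000 (enc_scale 1497 17500 (yag.enc h1))) (enc_mul (enc_norm (lc22a_5.enc h1 h2)) (enc_norm (enc_subr 2279 218750 (enc_scale 1289 140000 (yag.enc h1)))))) (enc_add (enc_subr 1722611 20000000 (enc_scale 34213 400000 (yag.enc h1))) (enc_mul (enc_norm (lc22a_5.enc h1 h2)) (enc_norm (enc_subr 20103 2000000 (enc_scale 357 40000 (yag.enc h1)))))))))))))⟩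
noncomputable def xc22b : Fn1 := ⟨_, _, fun h1 => (cv2p.enc h1)⟩
noncomputable def kfc22b_5 : Fn2 := ⟨_, _, fun h1 h2 => (enc_subr 3 32 h2)⟩
noncomputable def kfc22b_68 : Fn2 := ⟨_, _, fun h1 h2 => (enc_subn 1 h1)⟩
noncomputable def kfc22b_69 : Fn2 := ⟨_, _, fun h1 h2 => (gsg.enc (enc_norm (kfc22b_68.enc h1 h2)))⟩
noncomputable def kfc22b_75 : Fn2 := ⟨_, _, fun h1 h2 => (enc_scale 3 2 (kfc22b_68.enc h1 h2))⟩
noncomputable def kfc22b_77 : Fn2 := ⟨_, _, fun h1 h2 => (enc_add (enc_pnc _ 1) (kfc22b_69.enc h1 h2))⟩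
noncomputable def kfc22b : Fn2 := ⟨_, _, fun h1 h2 => (enc_norm (enc_case (enc_subr 67 64 h1) (enc_mul (cv2p.enc h1) (enc_norm (enc_case (enc_subr 203 200 h1) (enc_add (enc_sub (enc_rat _ 79819 75000) (enc_scale 4819 75000 h1)) (enc_mul (enc_norm (kfc22b_5.enc h1 h2)) (enc_norm (enc_sub (enc_rat _ 403 7500) (enc_scale 403 7500 h1))))) (enc_add (enc_sub (enc_rat _ 5653207669 5312500000) (enc_scale 3407171 53125000 h1)) (enc_mul (enc_norm (kfc22b_5.enc h1 h2)) (enc_norm (enc_sub (enc_rat _ 130074241 2125000000) (enc_scale 649197 10625000 h1)))))))) (enc_case (enc_subr 73 64 h1) (enc_add (enc_sub (enc_mul (enc_norm (enc_mul (enc_norm (enc_sub (kfc22b_69.enc h1 h2) (kfc22b_75.enc h1 h2))) (enc_norm (kfc22b_77.enc h1 h2)))) (enc_inv (enc_sub (kfc22b_77.enc h1 h2) (kfc22b_75.enc h1 h2)))) (enc_mul (enc_norm (enc_sub (enc_half (kfc22b_68.enc h1 h2)) (enc_mul (enc_scale 3 4 (enc_sq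 (enc_norm (kfc22b_68.enc h1 h2)))) (enc_inv (kfc22b_69.enc h1 h2))))) (enc_inv (enc_nat 2 (esg.enc (enc_norm (kfc22b_68.enc h1 h2))))))) (enc_mul (kcg.enc (enc_norm (enc_sub (enc_scale 3 4 (kfc22b_68.enc h1 h2)) (enc_half (kfc22b_69.enc h1 h2)))) h2) (enc_norm (kfc22b_68.enc h1 h2)))) (enc_mul (cv2p.enc h1) (enc_norm (enc_case (enc_subr 29 25 h1) (enc_add (enc_sub (enc_rat _ 93138060321 19375000000) (enc_scale 326466503 96875000 h1)) (enc_mul (enc_norm (kfc22b_5.enc h1 h2)) (enc_norm (enc_subr 114080433 3875000000 (enc_scale 465219 19375000 h1))))) (enc_case (enc_subr 13 10 h1) (enc_add (enc_sub (enc_rat _ 336499 70000) (enc_scale 4717971 1400000 h1)) (enc_mul (enc_norm (kfc22b_5.enc h1 h2)) (enc_norm (enc_subr 65397 7000000 (enc_scale 117 17500 h1))))) (enc_add (enc_sub (enc_rat _ 9614259 2000000) (enc_scale 168499 50000 h1)) (enc_mul (enc_norm (kfc22b_5.enc h1 h2)) (enc_norm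 (enc_subr 9309 1000000 (enc_scale 333 50000 h1))))))))))))⟩
noncomputable def lc22b_5 : Fn2 := ⟨_, _, fun h1 h2 => (enc_subr 3 32 h2)⟩
noncomputable def lc22b_32 : Fn2 := ⟨_, _, fun h1 h2 => (enc_sq (enc_norm (lc22b_5.enc h1 h2)))⟩
noncomputable def lc22b_81 : Fn2 := ⟨_, _, fun h1 h2 => (enc_subn 1 h1)⟩
noncomputable def lc22b : Fn2 := ⟨_, _, fun h1 h2 => (enc_norm (enc_case (enc_subr 67 64 h1) (enc_mul (cv2p.enc h1) (enc_norm (enc_case (enc_subr 203 200 h1) (enc_add (enc_subr 771 12500 (enc_scale 771 12500 h1)) (enc_mul (enc_norm (lc22b_5.enc h1 h2)) (enc_norm (enc_subr 4753 7500 (enc_scale 4753 7500 h1))))) (enc_add (enc_add (enc_subr 224144183 3187500000 (enc_scale 559343 7968750 h1)) (enc_mul (enc_norm (lc22b_5.enc h1 h2)) (enc_norm (enc_subr 4540784213 6375000000 (enc_scale 22666921 31875000 h1))))) (enc_mul (lc22b_32.enc h1 h2) (enc_norm (enc_sub (enc_rat _ 539371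 6375000) (enc_scale 2657 31875 h1)))))))) (enc_case (enc_subr 73 64 h1) (enc_sub (qsg.enc (enc_norm (lc22b_81.enc h1 h2))) (enc_mul (enc_norm (enc_nat 2 (enc_sub (lc22b_81.enc h1 h2) h2))) (enc_norm (enc_mul (esg.enc (enc_norm (lc22b_81.enc h1 h2))) (kcg.enc (enc_norm (enc_sub (enc_scale 3 4 (lc22b_81.enc h1 h2)) (enc_half (gsg.enc (enc_norm (lc22b_81.enc h1 h2)))))) h2))))) (enc_mul (cv2p.enc h1) (enc_norm (enc_case (enc_subr 29 25 h1) (enc_add (enc_add (enc_subr 3339068509 38750000000 (enc_scale 16578187 193750000 h1)) (enc_mul (enc_norm (lc22b_5.enc h1 h2)) (enc_norm (enc_sub (enc_rat _ 8540131129 1937500000) (enc_scale 18404361 4843750 h1))))) (enc_mul (lc22b_32.enc h1 h2) (enc_norm (enc_subr 10643 96875 (enc_scale 367 3875 h1))))) (enc_case (enc_subr 13 10 h1) (enc_add (enc_subr 6030081 70000000 (enc_scale 1497 17500 h1)) (enc_mul (enc_norm (lc22b_5.enc h1 h2)) (enc_norm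 (enc_subr 2279 218750 (enc_scale 1289 140000 h1))))) (enc_add (enc_subr 1722611 20000000 (enc_scale 34213 400000 h1)) (enc_mul (enc_norm (lc22b_5.enc h1 h2)) (enc_norm (enc_subr 20103 2000000 (enc_scale 357 40000 h1))))))))))))⟩
noncomputable def cv2r : Fn1 := ⟨_, _, fun h1 => (enc_norm (enc_subr 1 2 (swg.enc h1)))⟩
noncomputable def bf2q3_3 : Fn2 := ⟨_, _, fun h1 h2 => (enc_subr 3 32 h2)⟩
noncomputable def bf2q3 : Fn2 := ⟨_, _, fun h1 h2 => (enc_norm (enc_case (enc_subr 47 25 h1) (enc_case (enc_subr 7 4 h1) (enc_add (enc_subr 118578527 5000000 (enc_scale 3231349 250000 h1)) (enc_mul (enc_norm (bf2q3_3.enc h1 h2)) (enc_norm (enc_sub (enc_rat _ 1383 250000) (enc_scale 369 125000 h1))))) (enc_add (enc_subr 1541520781 65000000 (enc_scale 8401507 650000 h1)) (enc_mul (enc_norm (bf2q3_3.enc h1 h2)) (enc_norm (enc_sub (enc_rat _ 35979 6500000) (enc_scale 24 8125 h1)))))) (enc_case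 (enc_subr 39 20 h1) (enc_add (enc_subr 830049673 35000000 (enc_scale 9047777 700000 h1)) (enc_mul (enc_norm (bf2q3_3.enc h1 h2)) (enc_norm (enc_sub (enc_rat _ 3879 700000) (enc_scale 207 70000 h1))))) (enc_case (enc_subr 397 200 h1) (enc_add (enc_subr 1660099541 70000000 (enc_scale 4523889 350000 h1)) (enc_mul (enc_norm (bf2q3_3.enc h1 h2)) (enc_norm (enc_sub (enc_rat _ 7719 1400000) (enc_scale 103 35000 h1))))) (enc_add (enc_subr 142294201 6000000 (enc_scale 1938809 150000 h1)) (enc_mul (enc_norm (bf2q3_3.enc h1 h2)) (enc_norm (enc_sub (enc_rat _ 4121 750000) (enc_scale 11 3750 h1)))))))))⟩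
noncomputable def kf2q3 : Fn2 := ⟨_, _, fun h1 h2 => (enc_norm (enc_mul (cv2r.enc h1) (bf2q3.enc h1 h2)))⟩
noncomputable def bx2q3_3 : Fn2 := ⟨_, _, fun h1 h2 => (enc_subr 3 32 h2)⟩
noncomputable def bx2q3 : Fn2 := ⟨_, _, fun h1 h2 => (enc_norm (enc_case (enc_subr 47 25 h1) (enc_case (enc_subr 7 4 h1) (enc_add (enc_subr 805547 10000000 (enc_scale 199037 1250000 h1)) (enc_mul (enc_norm (bx2q3_3.enc h1 h2)) (enc_norm (enc_sub (enc_rat _ 54517 500000) (enc_scale 139 2500 h1))))) (enc_add (enc_subr 402777 5000000 (enc_scale 15923 100000 h1)) (enc_mul (enc_norm (bx2q3_3.enc h1 h2)) (enc_norm (enc_sub (enc_rat _ 108859 1000000) (enc_scale 111 2000 h1)))))) (enc_case (enc_subr 39 20 h1) (enc_add (enc_subr 563869 7000000 (enc_scale 5573 35000 h1)) (enc_mul (enc_norm (bx2q3_3.enc h1 h2)) (enc_norm (enc_sub (enc_rat _ 761637 7000000) (enc_scale 3883 70000 h1))))) (enc_case (enc_subr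 397 200 h1) (enc_add (enc_subr 140977 1750000 (enc_scale 55731 350000 h1)) (enc_mul (enc_norm (bx2q3_3.enc h1 h2)) (enc_norm (enc_sub (enc_rat _ 190263 1750000) (enc_scale 97 1750 h1))))) (enc_add (enc_subr 483293 6000000 (enc_scale 5971 37500 h1)) (enc_mul (enc_norm (bx2q3_3.enc h1 h2)) (enc_norm (enc_sub (enc_rat _ 40799 375000) (enc_scale 104 1875 h1)))))))))⟩
noncomputable def l2q3 : Fn2 := ⟨_, _, fun h1 h2 => (enc_norm (enc_mul (cv2r.enc h1) (bx2q3.enc h1 h2)))⟩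
noncomputable def c3g : Fn1 := ⟨_, _, fun h1 => (enc_sqrtg (enc_sub (enc_pnc _ 3) (enc_scale 3 4 (enc_sq h1))))⟩
noncomputable def cv3m : Fn1 := ⟨_, _, fun h1 => (enc_norm (enc_add (enc_scale 3 5 (enc_add (swg.enc h1) (enc_rat _ 1 2))) (enc_scale 2 5 (c3g.enc h1))))⟩
noncomputable def bf3q0_3 : Fn2 := ⟨_, _, fun h1 h2 => (enc_subr 3 32 h2)⟩
noncomputable def bf3q0_16 : Fn2 := ⟨_, _, fun h1 h2 => (enc_mul (enc_norm (bf3q0_3.enc h1 h2)) (enc_norm (enc_sub (enc_rat _ 2957 500000) (enc_scale 113 5000 h1))))⟩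
noncomputable def bf3q0_21 : Fn2 := ⟨_, _, fun h1 h2 => (enc_subr 22340349 70000000 (enc_scale 490533 350000 h1))⟩
noncomputable def bf3q0 : Fn2 := ⟨_, _, fun h1 h2 => (enc_norm (enc_case (enc_subr 1 20 h1) (enc_case (enc_subr 3 200 h1) (enc_add (enc_subr 3191479 10000000 (enc_scale 210229 150000 h1)) (bf3q0_16.enc h1 h2)) (enc_add (bf3q0_21.enc h1 h2) (bf3q0_16.enc h1 h2))) (enc_case (enc_subr 3 25 h1) (enc_add (bf3q0_21.enc h1 h2) (enc_mul (enc_norm (bf3q0_3.enc h1 h2)) (enc_norm (enc_sub (enc_rat _ 10347 1750000) (enc_scale 79 3500 h1))))) (enc_case (enc_subr 1 4 h1) (enc_add (enc_subr 41489223 130000000 (enc_scale 91099 65000 h1)) (enc_mul (enc_norm (bf3q0_3.enc h1 h2)) (enc_norm (enc_sub (enc_rat _ 19209 3250000) (enc_scale 733 32500 h1))))) (enc_add (enc_subr 3191481 10000000 (enc_scale 350381 250000 h1)) (enc_mul (enc_norm (bf3q0_3.enc h1 h2)) (enc_norm (enc_sub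 (enc_rat _ 5903 1000000) (enc_scale 5631 250000 h1)))))))))⟩
noncomputable def kf3q0 : Fn2 := ⟨_, _, fun h1 h2 => (enc_norm (enc_mul (cv3m.enc h1) (bf3q0.enc h1 h2)))⟩
noncomputable def bx3q0_3 : Fn2 := ⟨_, _, fun h1 h2 => (enc_subr 3 32 h2)⟩
noncomputable def bx3q0_10 : Fn2 := ⟨_, _, fun h1 h2 => (enc_add (enc_scale 187 2000 h1) (enc_rat _ 155917 10000000))⟩
noncomputable def bx3q0 : Fn2 := ⟨_, _, fun h1 h2 => (enc_norm (enc_case (enc_subr 1 20 h1) (enc_case (enc_subr 3 200 h1) (enc_add (bx3q0_10.enc h1 h2) (enc_mul (enc_norm (bx3q0_3.enc h1 h2)) (enc_norm (enc_sub (enc_rat _ 4199 100000) (enc_scale 91 625 h1))))) (enc_add (bx3q0_10.enc h1 h2) (enc_mul (enc_norm (bx3q0_3.enc h1 h2)) (enc_norm (enc_sub (enc_rat _ 58783 1400000) (enc_scale 5091 35000 h1)))))) (enc_case (enc_subr 3 25 h1) (enc_add (enc_add (enc_scale 3273 35000 h1) (enc_rat _ 1091369 70000000)) (enc_mul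 (enc_norm (bx3q0_3.enc h1 h2)) (enc_norm (enc_sub (enc_rat _ 1679 40000) (enc_scale 363 2500 h1))))) (enc_case (enc_subr 1 4 h1) (enc_add (enc_add (enc_scale 60797 650000 h1) (enc_rat _ 2026523 130000000)) (enc_mul (enc_norm (bx3q0_3.enc h1 h2)) (enc_norm (enc_sub (enc_rat _ 544859 13000000) (enc_scale 2351 16250 h1))))) (enc_add (enc_add (enc_scale 58467 625000 h1) (enc_rat _ 155853 10000000)) (enc_mul (enc_norm (bx3q0_3.enc h1 h2)) (enc_norm (enc_sub (enc_rat _ 8361 200000) (enc_scale 18031 125000 h1)))))))))⟩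
noncomputable def l3q0 : Fn2 := ⟨_, _, fun h1 h2 => (enc_norm (enc_mul (cv3m.enc h1) (bx3q0.enc h1 h2)))⟩
noncomputable def bf3q1_3 : Fn2 := ⟨_, _, fun h1 h2 => (enc_subr 3 32 h2)⟩
noncomputable def bf3q1 : Fn2 := ⟨_, _, fun h1 h2 => (enc_norm (enc_case (enc_subr 22 25 h1) (enc_case (enc_subr 3 4 h1) (enc_add (enc_add (enc_scale 204991 625000 h1) (enc_rat _ 6720243 10000000)) (enc_mul (enc_norm (bf3q1_3.enc h1 h2)) (enc_norm (enc_subr 25833 1000000 (enc_scale 1291 50000 h1))))) (enc_add (enc_add (enc_scale 13324 40625 h1) (enc_rat _ 17472831 26000000)) (enc_mul (enc_norm (bf3q1_3.enc h1 h2)) (enc_norm (enc_subr 337059 13000000 (enc_scale 3373 130000 h1)))))) (enc_case (enc_subr 19 20 h1) (enc_add (enc_add (enc_scale 114783 350000 h1) (enc_rat _ 47043713 70000000)) (enc_mul (enc_norm (bf3q1_3.enc h1 h2)) (enc_norm (enc_subr 181913 7000000 (enc_scale 1821 70000 h1))))) (enc_case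 (enc_subr 197 200 h1) (enc_add (enc_add (enc_scale 2869 8750 h1) (enc_rat _ 47048083 70000000)) (enc_mul (enc_norm (bf3q1_3.enc h1 h2)) (enc_norm (enc_subr 89389 3500000 (enc_scale 447 17500 h1))))) (enc_add (enc_add (enc_scale 49171 150000 h1) (enc_rat _ 100829 150000)) (enc_mul (enc_norm (bf3q1_3.enc h1 h2)) (enc_norm (enc_subr 19 750 (enc_scale 19 750 h1)))))))))⟩
noncomputable def kf3q1 : Fn2 := ⟨_, _, fun h1 h2 => (enc_norm (enc_mul (cv3m.enc h1) (bf3q1.enc h1 h2)))⟩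
noncomputable def bx3q1_3 : Fn2 := ⟨_, _, fun h1 h2 => (enc_subr 3 32 h2)⟩
noncomputable def bx3q1 : Fn2 := ⟨_, _, fun h1 h2 => (enc_norm (enc_case (enc_subr 22 25 h1) (enc_case (enc_subr 3 4 h1) (enc_add (enc_sub (enc_rat _ 60689 2500000) (enc_scale 60773 2500000 h1)) (enc_mul (enc_norm (bx3q1_3.enc h1 h2)) (enc_norm (enc_sub (enc_rat _ 258971 1000000) (enc_scale 32193 125000 h1))))) (enc_add (enc_sub (enc_rat _ 3145331 130000000) (enc_scale 15731 650000 h1)) (enc_mul (enc_norm (bx3q1_3.enc h1 h2)) (enc_norm (enc_sub (enc_rat _ 3374219 13000000) (enc_scale 16791 65000 h1)))))) (enc_case (enc_subr 19 20 h1) (enc_add (enc_sub (enc_rat _ 1686681 70000000) (enc_scale 8431 350000 h1)) (enc_mul (enc_norm (bx3q1_3.enc h1 h2)) (enc_norm (enc_sub (enc_rat _ 1844113 7000000) (enc_scale 2299 8750 h1))))) (enc_case (enc_subr 197 200 h1) (enc_add (enc_sub (enc_rat _ 1696941 70000000)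 (enc_scale 1697 70000 h1)) (enc_mul (enc_norm (bx3q1_3.enc h1 h2)) (enc_norm (enc_sub (enc_rat _ 1915743 7000000) (enc_scale 9573 35000 h1))))) (enc_add (enc_sub (enc_rat _ 907 37500) (enc_scale 907 37500 h1)) (enc_mul (enc_norm (bx3q1_3.enc h1 h2)) (enc_norm (enc_sub (enc_rat _ 711 2500) (enc_scale 711 2500 h1)))))))))⟩
noncomputable def l3q1 : Fn2 := ⟨_, _, fun h1 h2 => (enc_norm (enc_mul (cv3m.enc h1) (bx3q1.enc h1 h2)))⟩
noncomputable def cv3p : Fn1 := ⟨_, _, fun h1 => (enc_norm (enc_add (enc_scale 3 5 (enc_subr 1 2 (swg.enc h1))) (enc_scale 2 5 (c3g.enc h1))))⟩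
noncomputable def bf3q2_3 : Fn2 := ⟨_, _, fun h1 h2 => (enc_subr 3 32 h2)⟩
noncomputable def bf3q2 : Fn2 := ⟨_, _, fun h1 h2 => (enc_norm (enc_case (enc_subr 27 25 h1) (enc_case (enc_subr 203 200 h1) (enc_add (enc_sub (enc_rat _ 2658147 2000000) (enc_scale 5043 10000 h1)) (enc_mul (enc_norm (bf3q2_3.enc h1 h2)) (enc_norm (enc_subr 652 1875 (enc_scale 31 120 h1))))) (enc_case (enc_subr 21 20 h1) (enc_add (enc_sub (enc_rat _ 3322691 2500000) (enc_scale 88253 175000 h1)) (enc_mul (enc_norm (bf3q2_3.enc h1 h2)) (enc_norm (enc_subr 347453 1000000 (enc_scale 1129 4375 h1))))) (enc_add (enc_sub (enc_rat _ 3322701 2500000) (enc_scale 37823 75000 h1)) (enc_mul (enc_norm (bf3q2_3.enc h1 h2)) (enc_norm (enc_subr 346763 1000000 (enc_scale 1287 5000 h1))))))) (enc_case (enc_subr 29 25 h1) (enc_add (enc_sub (enc_rat _ 6645447 5000000) (enc_scale 100863 200000 h1)) (enc_mul (enc_norm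 (bf3q2_3.enc h1 h2)) (enc_norm (enc_subr 69169 200000 (enc_scale 5131 20000 h1))))) (enc_case (enc_subr 13 10 h1) (enc_add (enc_sub (enc_rat _ 23259137 17500000) (enc_scale 353023 700000 h1)) (enc_mul (enc_norm (bf3q2_3.enc h1 h2)) (enc_norm (enc_subr 482617 1400000 (enc_scale 17891 70000 h1))))) (enc_add (enc_sub (enc_rat _ 5316379 4000000) (enc_scale 1008639 2000000 h1)) (enc_mul (enc_norm (bf3q2_3.enc h1 h2)) (enc_norm (enc_subr 3439 10000 (enc_scale 5099 20000 h1)))))))))⟩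
noncomputable def kf3q2 : Fn2 := ⟨_, _, fun h1 h2 => (enc_norm (enc_mul (cv3p.enc h1) (bf3q2.enc h1 h2)))⟩
noncomputable def bx3q2_3 : Fn2 := ⟨_, _, fun h1 h2 => (enc_subr 3 32 h2)⟩
noncomputable def bx3q2 : Fn2 := ⟨_, _, fun h1 h2 => (enc_norm (enc_case (enc_subr 27 25 h1) (enc_case (enc_subr 203 200 h1) (enc_add (enc_sub (enc_rat _ 977593 7500000) (enc_scale 2491 18750 h1)) (enc_mul (enc_norm (bx3q2_3.enc h1 h2)) (enc_norm (enc_subr 283069 1500000 (enc_scale 2569 15000 h1))))) (enc_case (enc_subr 21 20 h1) (enc_add (enc_sub (enc_rat _ 130309 1000000) (enc_scale 23243 175000 h1)) (enc_mul (enc_norm (bx3q2_3.enc h1 h2)) (enc_norm (enc_subr 94221 500000 (enc_scale 171 1000 h1))))) (enc_add (enc_sub (enc_rat _ 260547 2000000) (enc_scale 7967 60000 h1)) (enc_mul (enc_norm (bx3q2_3.enc h1 h2)) (enc_norm (enc_subr 187147 1000000 (enc_scale 5093 30000 h1))))))) (enc_case (enc_subr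 29 25 h1) (enc_add (enc_sub (enc_rat _ 1302483 10000000) (enc_scale 3319 25000 h1)) (enc_mul (enc_norm (bx3q2_3.enc h1 h2)) (enc_norm (enc_subr 92741 500000 (enc_scale 6729 40000 h1))))) (enc_case (enc_subr 13 10 h1) (enc_add (enc_sub (enc_rat _ 9118367 70000000) (enc_scale 185881 1400000 h1)) (enc_mul (enc_norm (bx3q2_3.enc h1 h2)) (enc_norm (enc_subr 1284019 7000000 (enc_scale 2913 17500 h1))))) (enc_add (enc_sub (enc_rat _ 1302713 10000000) (enc_scale 132779 1000000 h1)) (enc_mul (enc_norm (bx3q2_3.enc h1 h2)) (enc_norm (enc_subr 182343 1000000 (enc_scale 8281 50000 h1)))))))))⟩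
noncomputable def l3q2 : Fn2 := ⟨_, _, fun h1 h2 => (enc_norm (enc_mul (cv3p.enc h1) (bx3q2.enc h1 h2)))⟩
noncomputable def ycg : Fn1 := ⟨_, _, fun h1 => (enc_sqrtg (enc_scale 4 3 (enc_sub (enc_pnc _ 3) (enc_sq h1))))⟩
noncomputable def xc33 : Fn1 := ⟨_, _, fun h1 => (enc_norm (enc_add (enc_scale 3 5 (enc_subr 1 2 (swg.enc (ycg.enc h1)))) (enc_scale 2 5 h1)))⟩
noncomputable def bf3q3_3 : Fn2 := ⟨_, _, fun h1 h2 => (enc_subr 3 32 h2)⟩
noncomputable def bf3q3 : Fn2 := ⟨_, _, fun h1 h2 => (enc_norm (enc_case (enc_subr 47 25 h1) (enc_case (enc_subr 7 4 h1) (enc_add (enc_sub (enc_rat _ 46752297 10000000) (enc_scale 5219037 2500000 h1)) (enc_mul (enc_norm (bf3q3_3.enc h1 h2)) (enc_norm (enc_sub (enc_rat _ 2217 1000000) (enc_scale 277 250000 h1))))) (enc_add (enc_sub (enc_rat _ 303889997 65000000) (enc_scale 27139 13000 h1)) (enc_mul (enc_norm (bf3q3_3.enc h1 h2)) (enc_norm (enc_sub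 (enc_rat _ 28989 13000000) (enc_scale 29 26000 h1)))))) (enc_case (enc_subr 39 20 h1) (enc_add (enc_sub (enc_rat _ 163633003 35000000) (enc_scale 146133 70000 h1)) (enc_mul (enc_norm (bf3q3_3.enc h1 h2)) (enc_norm (enc_sub (enc_rat _ 2201 1000000) (enc_scale 11 10000 h1))))) (enc_case (enc_subr 397 200 h1) (enc_add (enc_sub (enc_rat _ 81816599 17500000) (enc_scale 365333 175000 h1)) (enc_mul (enc_norm (bf3q3_3.enc h1 h2)) (enc_norm (enc_sub (enc_rat _ 7801 3500000) (enc_scale 39 35000 h1))))) (enc_add (enc_sub (enc_rat _ 175321 37500) (enc_scale 156571 75000 h1)) (enc_mul (enc_norm (bf3q3_3.enc h1 h2)) (enc_norm (enc_sub (enc_rat _ 17 7500) (enc_scale 17 15000 h1)))))))))⟩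
noncomputable def kfc33 : Fn2 := ⟨_, _, fun h1 h2 => (enc_norm (enc_mul (enc_norm (enc_add (enc_scale 3 5 (enc_subr 1 2 (swg.enc (ycg.enc h1)))) (enc_scale 2 5 h1))) (bf3q3.enc (ycg.enc h1) h2)))⟩
noncomputable def bx3q3_3 : Fn2 := ⟨_, _, fun h1 h2 => (enc_subr 3 32 h2)⟩
noncomputable def bx3q3 : Fn2 := ⟨_, _, fun h1 h2 => (enc_norm (enc_case (enc_subr 47 25 h1) (enc_case (enc_subr 7 4 h1) (enc_add (enc_sub (enc_rat _ 227059 625000) (enc_scale 22293 125000 h1)) (enc_mul (enc_norm (bx3q3_3.enc h1 h2)) (enc_norm (enc_subr 90851 250000 (enc_scale 7133 31250 h1))))) (enc_add (enc_sub (enc_rat _ 47230337 130000000) (enc_scale 231859 1300000 h1)) (enc_mul (enc_norm (bx3q3_3.enc h1 h2)) (enc_norm (enc_subr 4739253 13000000 (enc_scale 29759 130000 h1)))))) (enc_case (enc_subr 39 20 h1) (enc_add (enc_sub (enc_rat _ 5086451 14000000) (enc_scale 2497 14000 h1)) (enc_mul (enc_norm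 (bx3q3_3.enc h1 h2)) (enc_norm (enc_subr 2561667 7000000 (enc_scale 4019 17500 h1))))) (enc_case (enc_subr 397 200 h1) (enc_add (enc_sub (enc_rat _ 726647 2000000) (enc_scale 4459 25000 h1)) (enc_mul (enc_norm (bx3q3_3.enc h1 h2)) (enc_norm (enc_subr 367011 1000000 (enc_scale 1151 5000 h1))))) (enc_add (enc_sub (enc_rat _ 108994156267 300000000000) (enc_scale 267532711 1500000000 h1)) (enc_mul (enc_norm (bx3q3_3.enc h1 h2)) (enc_norm (enc_subr 38586255209 105000000000 (enc_scale 120981197 525000000 h1)))))))))⟩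
noncomputable def lc33 : Fn2 := ⟨_, _, fun h1 h2 => (enc_norm (enc_mul (enc_norm (enc_add (enc_scale 3 5 (enc_subr 1 2 (swg.enc (ycg.enc h1)))) (enc_scale 2 5 h1))) (bx3q3.enc (ycg.enc h1) h2)))⟩
noncomputable def kf4q0 : Fn2 := ⟨_, _, fun h1 h2 => (enc_norm (enc_sub (enc_mul h1 (kcg.enc (enc_half h1) h2)) (enc_mul (enc_norm (enc_mul (enc_sq h1) (enc_norm (enc_add (c3g.enc h1) (enc_rat _ 3 2))))) (enc_inv (enc_mul (enc_norm (enc_sub (enc_pnc _ 1) h1)) (enc_norm (enc_add (enc_pnc _ 1) h1)))))))⟩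
noncomputable def l4q0_6 : Fn2 := ⟨_, _, fun h1 h2 => (enc_half h1)⟩
noncomputable def l4q0_7 : Fn2 := ⟨_, _, fun h1 h2 => (enc_half (c3g.enc h1))⟩
noncomputable def l4q0_8 : Fn2 := ⟨_, _, fun h1 h2 => (enc_scale 1 4 h1)⟩
noncomputable def l4q0 : Fn2 := ⟨_, _, fun h1 h2 => (enc_norm (enc_add (txg.enc (l4q0_6.enc h1 h2) (enc_norm (enc_sub (l4q0_7.enc h1 h2) (l4q0_8.enc h1 h2))) h2) (txg.enc (enc_neg (l4q0_6.enc h1 h2)) (enc_norm (enc_add (l4q0_7.enc h1 h2) (l4q0_8.enc h1 h2))) h2)))⟩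
noncomputable def kf4q1 : Fn2 := ⟨_, _, fun h1 h2 => (enc_norm (enc_add (enc_mul (enc_norm (enc_mul h1 (enc_norm (enc_add (c3g.enc h1) (enc_rat _ 3 2))))) (enc_inv (enc_add (enc_pnc _ 1) h1))) (enc_mul (enc_norm (enc_subn 1 h1)) (kcg.enc (enc_half h1) h2))))⟩
noncomputable def l4q1_7 : Fn2 := ⟨_, _, fun h1 h2 => (enc_half h1)⟩
noncomputable def l4q1_8 : Fn2 := ⟨_, _, fun h1 h2 => (enc_half (c3g.enc h1))⟩
noncomputable def l4q1_9 : Fn2 := ⟨_, _, fun h1 h2 => (enc_scale 1 4 h1)⟩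
noncomputable def l4q1 : Fn2 := ⟨_, _, fun h1 h2 => (enc_norm (enc_add (txg.enc (l4q1_7.enc h1 h2) (enc_norm (enc_sub (l4q1_8.enc h1 h2) (l4q1_9.enc h1 h2))) h2) (txg.enc (enc_neg (l4q1_7.enc h1 h2)) (enc_norm (enc_add (l4q1_8.enc h1 h2) (l4q1_9.enc h1 h2))) h2)))⟩
noncomputable def kf4q2 : Fn2 := ⟨_, _, fun h1 h2 => (enc_norm (enc_add (enc_mul (enc_norm (enc_mul (enc_norm (enc_sub (enc_nat 2 (c3g.enc h1)) h1)) (enc_norm (enc_sub (enc_add (c3g.enc h1) (enc_pnc _ 3)) (enc_scale 3 2 h1))))) (enc_inv (enc_nat 4 (enc_sub (enc_pnc _ 2) h1)))) (enc_mul (enc_norm (enc_subn 1 h1)) (kcg.enc (enc_norm (enc_sub (enc_scale 1 4 h1) (enc_half (c3g.enc h1)))) h2))))⟩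
noncomputable def l4q2_7 : Fn2 := ⟨_, _, fun h1 h2 => (enc_half (c3g.enc h1))⟩
noncomputable def l4q2_8 : Fn2 := ⟨_, _, fun h1 h2 => (enc_scale 1 4 h1)⟩
noncomputable def l4q2_9 : Fn2 := ⟨_, _, fun h1 h2 => (enc_sub (l4q2_7.enc h1 h2) (l4q2_8.enc h1 h2))⟩
noncomputable def l4q2_12 : Fn2 := ⟨_, _, fun h1 h2 => (enc_add (enc_scale 1 4 (c3g.enc h1)) (enc_scale 3 8 h1))⟩
noncomputable def l4q2_14 : Fn2 := ⟨_, _, fun h1 h2 => (enc_half (l4q2_9.enc h1 h2))⟩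
noncomputable def l4q2 : Fn2 := ⟨_, _, fun h1 h2 => (enc_norm (enc_sub (enc_nat 2 (txg.enc (enc_norm (enc_sub (l4q2_8.enc h1 h2) (l4q2_7.enc h1 h2))) (enc_norm (enc_add (l4q2_12.enc h1 h2) (l4q2_14.enc h1 h2))) h2)) (txg.enc (enc_norm (l4q2_9.enc h1 h2)) (enc_norm (enc_sub (l4q2_12.enc h1 h2) (l4q2_14.enc h1 h2))) h2)))⟩
noncomputable def kfc43 : Fn2 := ⟨_, _, fun h1 h2 => (enc_norm (enc_sub (enc_mul (enc_norm (enc_subn 2 (ycg.enc h1))) (kcg.enc (enc_norm (enc_sub (enc_scale 1 4 (ycg.enc h1)) (enc_half h1))) h2)) (enc_mul (enc_norm (enc_mul (enc_norm (enc_sub (enc_nat 2 h1) (ycg.enc h1))) (enc_norm (enc_sub (enc_add h1 (enc_pnc _ 3)) (enc_scale 3 2 (ycg.enc h1)))))) (enc_inv (enc_nat 4 (enc_subn 1 (ycg.enc h1)))))))⟩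
noncomputable def lc43_7 : Fn2 := ⟨_, _, fun h1 h2 => (enc_half h1)⟩
noncomputable def lc43_8 : Fn2 := ⟨_, _, fun h1 h2 => (enc_scale 1 4 (ycg.enc h1))⟩
noncomputable def lc43_9 : Fn2 := ⟨_, _, fun h1 h2 => (enc_sub (lc43_7.enc h1 h2) (lc43_8.enc h1 h2))⟩
noncomputable def lc43_12 : Fn2 := ⟨_, _, fun h1 h2 => (enc_add (enc_scale 1 4 h1) (enc_scale 3 8 (ycg.enc h1)))⟩
noncomputable def lc43_14 : Fn2 := ⟨_, _, fun h1 h2 => (enc_half (lc43_9.enc h1 h2))⟩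
noncomputable def lc43 : Fn2 := ⟨_, _, fun h1 h2 => (enc_norm (enc_sub (enc_nat 2 (txg.enc (enc_norm (enc_sub (lc43_8.enc h1 h2) (lc43_7.enc h1 h2))) (enc_norm (enc_add (lc43_12.enc h1 h2) (lc43_14.enc h1 h2))) h2)) (txg.enc (enc_norm (lc43_9.enc h1 h2)) (enc_norm (enc_sub (lc43_12.enc h1 h2) (lc43_14.enc h1 h2))) h2)))⟩
noncomputable def lm3m : Fn2 := ⟨_, _, fun h1 h2 => (enc_lam (enc_norm (enc_sub h1 (cv3m.enc h2))) (enc_sub (c3g.enc h2) (cv3m.enc h2)))⟩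
noncomputable def lm2m : Fn2 := ⟨_, _, fun h1 h2 => (enc_lam (enc_norm (enc_sub h1 (cv2m.enc h2))) (enc_sub (cv3m.enc h2) (cv2m.enc h2)))⟩
noncomputable def lm1m : Fn2 := ⟨_, _, fun h1 h2 => (enc_lam (enc_norm (enc_sub h1 (cv1m.enc h2))) (enc_sub (cv2m.enc h2) (cv1m.enc h2)))⟩
noncomputable def lm0m : Fn2 := ⟨_, _, fun h1 h2 => (enc_lam (enc_norm (enc_sub h1 (c1g.enc h2))) (enc_sub (cv1m.enc h2) (c1g.enc h2)))⟩
noncomputable def rkfq0 : Fn3 := ⟨_, _, fun h1 h2 h3 => (enc_case (enc_sub h1 (cv1m.enc h2)) (enc_add (enc_mul h1 (bf1q0.enc h2 h3)) (enc_mul (enc_norm (enc_sub (enc_pnc _ 1) (lm0m.enc h1 h2))) (enc_norm (enc_sub (kf0q0.enc h2 h3) (enc_mul (c1g.enc h2) (bf1q0.enc h2 h3)))))) (enc_case (enc_sub h1 (cv2m.enc h2)) (enc_add (enc_mul h1 (bf2q0.enc h2 h3)) (enc_mul (enc_norm (enc_mul (enc_norm (enc_sub (enc_pnc _ 1) (lm1m.enc h1 h2))) (cv1m.enc h2))) (enc_norm (enc_sub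 (bf1q0.enc h2 h3) (bf2q0.enc h2 h3))))) (enc_case (enc_sub h1 (cv3m.enc h2)) (enc_add (enc_mul h1 (bf3q0.enc h2 h3)) (enc_mul (enc_norm (enc_mul (enc_norm (enc_sub (enc_pnc _ 1) (lm2m.enc h1 h2))) (cv2m.enc h2))) (enc_norm (enc_sub (bf2q0.enc h2 h3) (bf3q0.enc h2 h3))))) (enc_add (kf3q0.enc h2 h3) (enc_mul (lm3m.enc h1 h2) (enc_norm (enc_sub (kf4q0.enc h2 h3) (kf3q0.enc h2 h3))))))))⟩
noncomputable def rsfq0 : Fn3 := ⟨_, _, fun h1 h2 h3 => (enc_case h1 (enc_neg (rkfq0.enc (enc_neg h1) h2 h3)) (rkfq0.enc h1 h2 h3))⟩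
noncomputable def bf2q1_3 : Fn2 := ⟨_, _, fun h1 h2 => (enc_subr 3 32 h2)⟩
noncomputable def bf2q1 : Fn2 := ⟨_, _, fun h1 h2 => (enc_norm (enc_case (enc_subr 29 32 h1) (enc_case (enc_subr 3 4 h1) (enc_add (enc_subr 40280057 10000000 (enc_scale 14359147 2500000 h1)) (enc_mul (enc_norm (bf2q1_3.enc h1 h2)) (enc_norm (enc_sub (enc_rat _ 20343 500000) (enc_scale 6001 125000 h1))))) (enc_add (enc_subr 1101408221 273437500 (enc_scale 1570532253 273437500 h1)) (enc_mul (enc_norm (bf2q1_3.enc h1 h2)) (enc_norm (enc_sub (enc_rat _ 72477 1750000) (enc_scale 21429 437500 h1)))))) (enc_case (enc_subr 197 200 h1) (enc_add (enc_add (enc_scale 2674897 4687500 h1) (enc_rat _ 12620138 29296875)) (enc_mul (enc_norm (bf2q1_3.enc h1 h2)) (enc_norm (enc_subr 49897619 3187500000 (enc_scale 246427 15937500 h1))))) (enc_add (enc_add (enc_scale 17869 37500 h1) (enc_rat _ 19631 37500)) (enc_mul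 (enc_norm (bf2q1_3.enc h1 h2)) (enc_norm (enc_subr 53 1875 (enc_scale 53 1875 h1))))))))⟩
noncomputable def rkfq1_35 : Fn3 := ⟨_, _, fun h1 h2 h3 => (enc_add (enc_mul h1 (bf2q1.enc h2 h3)) (enc_mul (enc_norm (enc_mul (enc_norm (enc_sub (enc_pnc _ 1) (lm1m.enc h1 h2))) (cv1m.enc h2))) (enc_norm (enc_sub (bf1q1.enc h2 h3) (bf2q1.enc h2 h3)))))⟩
noncomputable def rkfq1_37 : Fn3 := ⟨_, _, fun h1 h2 h3 => (enc_sub (enc_pnc _ 1) h2)⟩
noncomputable def rkfq1_38 : Fn3 := ⟨_, _, fun h1 h2 h3 => (gsg.enc (enc_norm (rkfq1_37.enc h1 h2 h3)))⟩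
noncomputable def rkfq1_44 : Fn3 := ⟨_, _, fun h1 h2 h3 => (enc_scale 3 2 (rkfq1_37.enc h1 h2 h3))⟩
noncomputable def rkfq1_46 : Fn3 := ⟨_, _, fun h1 h2 h3 => (enc_add (enc_pnc _ 1) (rkfq1_38.enc h1 h2 h3))⟩
noncomputable def rkfq1 : Fn3 := ⟨_, _, fun h1 h2 h3 => (enc_case (enc_sub h1 (cv1m.enc h2)) (enc_add (enc_mul h1 (bf1q1.enc h2 h3)) (enc_mul (enc_norm (enc_sub (enc_pnc _ 1) (lm0m.enc h1 h2))) (enc_norm (enc_sub (kf0q1.enc h2 h3) (enc_mul (c1g.enc h2) (bf1q1.enc h2 h3)))))) (enc_case (enc_sub h1 (cv2m.enc h2)) (enc_case (enc_subr 55 64 h2) (rkfq1_35.enc h1 h2 h3) (enc_case (enc_subr 61 64 h2) (enc_add (kf1q1.enc h2 h3) (enc_mul (lm1m.enc h1 h2) (enc_norm (enc_sub (enc_add (enc_add (enc_mul (enc_norm (enc_mul (enc_norm (enc_sub (rkfq1_38.enc h1 h2 h3) (rkfq1_44.enc h1 h2 h3))) (enc_norm (rkfq1_46.enc h1 h2 h3)))) (enc_inv (enc_sub (rkfq1_46.enc h1 h2 h3) (rkfq1_44.enc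 h1 h2 h3)))) (enc_mul (enc_norm (enc_sub (enc_half (rkfq1_37.enc h1 h2 h3)) (enc_mul (enc_scale 3 4 (enc_sq (enc_norm (rkfq1_37.enc h1 h2 h3)))) (enc_inv (rkfq1_38.enc h1 h2 h3))))) (enc_inv (enc_nat 2 (esg.enc (enc_norm (rkfq1_37.enc h1 h2 h3))))))) (enc_mul (kcg.enc (enc_norm (enc_sub (enc_scale 3 4 (rkfq1_37.enc h1 h2 h3)) (enc_half (rkfq1_38.enc h1 h2 h3)))) h3) (enc_norm (rkfq1_37.enc h1 h2 h3)))) (kf1q1.enc h2 h3))))) (rkfq1_35.enc h1 h2 h3))) (enc_case (enc_sub h1 (cv3m.enc h2)) (enc_add (enc_mul h1 (bf3q1.enc h2 h3)) (enc_mul (enc_norm (enc_sub (enc_pnc _ 1) (lm2m.enc h1 h2))) (enc_norm (enc_sub (kf2q1.enc h2 h3) (enc_mul (cv2m.enc h2) (bf3q1.enc h2 h3)))))) (enc_add (kf3q1.enc h2 h3) (enc_mul (lm3m.enc h1 h2) (enc_norm (enc_sub (kf4q1.enc h2 h3) (kf3q1.enc h2 h3))))))))⟩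
noncomputable def rsfq1 : Fn3 := ⟨_, _, fun h1 h2 h3 => (enc_case h1 (enc_neg (rkfq1.enc (enc_neg h1) h2 h3)) (rkfq1.enc h1 h2 h3))⟩
noncomputable def cv1p : Fn1 := ⟨_, _, fun h1 => (enc_norm (enc_add (enc_scale 2 5 (c1g.enc h1)) (enc_scale 3 5 (enc_subr 1 2 (swg.enc h1)))))⟩
noncomputable def lm3p : Fn2 := ⟨_, _, fun h1 h2 => (enc_lam (enc_norm (enc_sub h1 (cv3p.enc h2))) (enc_sub (c3g.enc h2) (cv3p.enc h2)))⟩
noncomputable def lm2p : Fn2 := ⟨_, _, fun h1 h2 => (enc_lam (enc_norm (enc_sub h1 (cv2p.enc h2))) (enc_sub (cv3p.enc h2) (cv2p.enc h2)))⟩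
noncomputable def kf2q2_4 : Fn2 := ⟨_, _, fun h1 h2 => (enc_subr 3 32 h2)⟩
noncomputable def kf2q2_67 : Fn2 := ⟨_, _, fun h1 h2 => (enc_subn 1 h1)⟩
noncomputable def kf2q2_68 : Fn2 := ⟨_, _, fun h1 h2 => (gsg.enc (enc_norm (kf2q2_67.enc h1 h2)))⟩
noncomputable def kf2q2_74 : Fn2 := ⟨_, _, fun h1 h2 => (enc_scale 3 2 (kf2q2_67.enc h1 h2))⟩
noncomputable def kf2q2_76 : Fn2 := ⟨_, _, fun h1 h2 => (enc_add (enc_pnc _ 1) (kf2q2_68.enc h1 h2))⟩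
noncomputable def kf2q2 : Fn2 := ⟨_, _, fun h1 h2 => (enc_norm (enc_case (enc_subr 67 64 h1) (enc_mul (cv2p.enc h1) (enc_norm (enc_case (enc_subr 203 200 h1) (enc_add (enc_sub (enc_rat _ 79819 75000) (enc_scale 4819 75000 h1)) (enc_mul (enc_norm (kf2q2_4.enc h1 h2)) (enc_norm (enc_sub (enc_rat _ 403 7500) (enc_scale 403 7500 h1))))) (enc_add (enc_sub (enc_rat _ 5653207669 5312500000) (enc_scale 3407171 53125000 h1)) (enc_mul (enc_norm (kf2q2_4.enc h1 h2)) (enc_norm (enc_sub (enc_rat _ 130074241 2125000000) (enc_scale 649197 10625000 h1)))))))) (enc_case (enc_subr 73 64 h1) (enc_add (enc_sub (enc_mul (enc_norm (enc_mul (enc_norm (enc_sub (kf2q2_68.enc h1 h2) (kf2q2_74.enc h1 h2))) (enc_norm (kf2q2_76.enc h1 h2)))) (enc_inv (enc_sub (kf2q2_76.enc h1 h2) (kf2q2_74.enc h1 h2)))) (enc_mul (enc_norm (enc_sub (enc_half (kf2q2_67.enc h1 h2)) (enc_mul (enc_scale 3 4 (enc_sq (enc_norm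 (kf2q2_67.enc h1 h2)))) (enc_inv (kf2q2_68.enc h1 h2))))) (enc_inv (enc_nat 2 (esg.enc (enc_norm (kf2q2_67.enc h1 h2))))))) (enc_mul (kcg.enc (enc_norm (enc_sub (enc_scale 3 4 (kf2q2_67.enc h1 h2)) (enc_half (kf2q2_68.enc h1 h2)))) h2) (enc_norm (kf2q2_67.enc h1 h2)))) (enc_mul (cv2p.enc h1) (enc_norm (enc_case (enc_subr 29 25 h1) (enc_add (enc_sub (enc_rat _ 93138060321 19375000000) (enc_scale 326466503 96875000 h1)) (enc_mul (enc_norm (kf2q2_4.enc h1 h2)) (enc_norm (enc_subr 114080433 3875000000 (enc_scale 465219 19375000 h1))))) (enc_case (enc_subr 13 10 h1) (enc_add (enc_sub (enc_rat _ 336499 70000) (enc_scale 4717971 1400000 h1)) (enc_mul (enc_norm (kf2q2_4.enc h1 h2)) (enc_norm (enc_subr 65397 7000000 (enc_scale 117 17500 h1))))) (enc_add (enc_sub (enc_rat _ 9614259 2000000) (enc_scale 168499 50000 h1)) (enc_mul (enc_norm (kf2q2_4.enc h1 h2)) (enc_norm (enc_subr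 9309 1000000 (enc_scale 333 50000 h1))))))))))))⟩
noncomputable def bf2q2_3 : Fn2 := ⟨_, _, fun h1 h2 => (enc_subr 3 32 h2)⟩
noncomputable def bf2q2 : Fn2 := ⟨_, _, fun h1 h2 => (enc_norm (enc_case (enc_subr 35 32 h1) (enc_case (enc_subr 203 200 h1) (enc_add (enc_sub (enc_rat _ 79819 75000) (enc_scale 4819 75000 h1)) (enc_mul (enc_norm (bf2q2_3.enc h1 h2)) (enc_norm (enc_sub (enc_rat _ 403 7500) (enc_scale 403 7500 h1))))) (enc_add (enc_sub (enc_rat _ 5653207669 5312500000) (enc_scale 3407171 53125000 h1)) (enc_mul (enc_norm (bf2q2_3.enc h1 h2)) (enc_norm (enc_sub (enc_rat _ 130074241 2125000000) (enc_scale 649197 10625000 h1)))))) (enc_case (enc_subr 29 25 h1) (enc_add (enc_sub (enc_rat _ 93138060321 19375000000) (enc_scale 326466503 96875000 h1)) (enc_mul (enc_norm (bf2q2_3.enc h1 h2)) (enc_norm (enc_subr 114080433 3875000000 (enc_scale 465219 19375000 h1))))) (enc_case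 (enc_subr 13 10 h1) (enc_add (enc_sub (enc_rat _ 336499 70000) (enc_scale 4717971 1400000 h1)) (enc_mul (enc_norm (bf2q2_3.enc h1 h2)) (enc_norm (enc_subr 65397 7000000 (enc_scale 117 17500 h1))))) (enc_add (enc_sub (enc_rat _ 9614259 2000000) (enc_scale 168499 50000 h1)) (enc_mul (enc_norm (bf2q2_3.enc h1 h2)) (enc_norm (enc_subr 9309 1000000 (enc_scale 333 50000 h1)))))))))⟩
noncomputable def lm1p : Fn2 := ⟨_, _, fun h1 h2 => (enc_lam (enc_norm (enc_sub h1 (cv1p.enc h2))) (enc_sub (cv2p.enc h2) (cv1p.enc h2)))⟩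
noncomputable def kf1q2 : Fn2 := ⟨_, _, fun h1 h2 => (enc_norm (enc_mul (cv1p.enc h1) (bf1q2.enc h1 h2)))⟩
noncomputable def kf0q2 : Fn2 := ⟨_, _, fun h1 h2 => (enc_norm (enc_add (c1g.enc h1) (enc_mul (enc_norm (enc_subn 1 h1)) (kcg.enc (enc_neg (c1g.enc h1)) h2))))⟩
noncomputable def lm0p : Fn2 := ⟨_, _, fun h1 h2 => (enc_lam (enc_norm (enc_sub h1 (c1g.enc h2))) (enc_sub (cv1p.enc h2) (c1g.enc h2)))⟩
noncomputable def n0b : Fn2 := ⟨_, _, fun h1 h2 => (enc_norm (enc_add (enc_pnc _ 1) (enc_scale 1406947 6000000 (enc_subn 1 h1))))⟩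
noncomputable def rkfq2_35 : Fn3 := ⟨_, _, fun h1 h2 h3 => (enc_add (enc_mul h1 (bf2q2.enc h2 h3)) (enc_mul (enc_norm (enc_mul (enc_norm (enc_sub (enc_pnc _ 1) (lm1p.enc h1 h2))) (cv1p.enc h2))) (enc_norm (enc_sub (bf1q2.enc h2 h3) (bf2q2.enc h2 h3)))))⟩
noncomputable def rkfq2_36 : Fn3 := ⟨_, _, fun h1 h2 h3 => (enc_subn 1 h2)⟩
noncomputable def rkfq2_37 : Fn3 := ⟨_, _, fun h1 h2 h3 => (gsg.enc (enc_norm (rkfq2_36.enc h1 h2 h3)))⟩
noncomputable def rkfq2_43 : Fn3 := ⟨_, _, fun h1 h2 h3 => (enc_scale 3 2 (rkfq2_36.enc h1 h2 h3))⟩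
noncomputable def rkfq2_45 : Fn3 := ⟨_, _, fun h1 h2 h3 => (enc_add (enc_pnc _ 1) (rkfq2_37.enc h1 h2 h3))⟩
noncomputable def rkfq2_77 : Fn3 := ⟨_, _, fun h1 h2 h3 => (enc_mul h1 (bf1q2.enc h2 h3))⟩
noncomputable def rkfq2_79 : Fn3 := ⟨_, _, fun h1 h2 h3 => (enc_sub (enc_pnc _ 1) (lm0p.enc h1 h2))⟩
noncomputable def rkfq2 : Fn3 := ⟨_, _, fun h1 h2 h3 => (enc_case (enc_sub h1 (cv1p.enc h2)) (enc_case (enc_subr 1153 1000 h2) (enc_add (rkfq2_77.enc h1 h2 h3) (enc_mul (enc_norm (rkfq2_79.enc h1 h2 h3)) (enc_norm (enc_sub (kf0q2.enc h2 h3) (enc_mul (c1g.enc h2) (bf1q2.enc h2 h3)))))) (enc_case (enc_subr 2887 2500 h2) (enc_add (rkfq2_77.enc h1 h2 h3) (enc_mul (enc_norm (rkfq2_79.enc h1 h2 h3)) (enc_norm (enc_mul (c1g.enc h2) (enc_norm (enc_sub (n0b.enc h2 h3) (bf1q2.enc h2 h3))))))) (rkfq2_77.enc h1 h2 h3))) (enc_case (enc_sub h1 (cv2p.enc h2)) (enc_case (enc_subr 67 64 h2)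 (rkfq2_35.enc h1 h2 h3) (enc_case (enc_subr 73 64 h2) (enc_add (kf1q2.enc h2 h3) (enc_mul (lm1p.enc h1 h2) (enc_norm (enc_sub (enc_add (enc_sub (enc_mul (enc_norm (enc_mul (enc_norm (enc_sub (rkfq2_37.enc h1 h2 h3) (rkfq2_43.enc h1 h2 h3))) (enc_norm (rkfq2_45.enc h1 h2 h3)))) (enc_inv (enc_sub (rkfq2_45.enc h1 h2 h3) (rkfq2_43.enc h1 h2 h3)))) (enc_mul (enc_norm (enc_sub (enc_half (rkfq2_36.enc h1 h2 h3)) (enc_mul (enc_scale 3 4 (enc_sq (enc_norm (rkfq2_36.enc h1 h2 h3)))) (enc_inv (rkfq2_37.enc h1 h2 h3))))) (enc_inv (enc_nat 2 (esg.enc (enc_norm (rkfq2_36.enc h1 h2 h3))))))) (enc_mul (kcg.enc (enc_norm (enc_sub (enc_scale 3 4 (rkfq2_36.enc h1 h2 h3)) (enc_half (rkfq2_37.enc h1 h2 h3)))) h3) (enc_norm (rkfq2_36.enc h1 h2 h3)))) (kf1q2.enc h2 h3))))) (rkfq2_35.enc h1 h2 h3))) (enc_case (enc_sub h1 (cv3p.enc h2)) (enc_add (enc_mul h1 (bf3q2.enc h2 h3)) (enc_mul (enc_norm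 (enc_sub (enc_pnc _ 1) (lm2p.enc h1 h2))) (enc_norm (enc_sub (kf2q2.enc h2 h3) (enc_mul (cv2p.enc h2) (bf3q2.enc h2 h3)))))) (enc_add (kf3q2.enc h2 h3) (enc_mul (lm3p.enc h1 h2) (enc_norm (enc_sub (kf4q2.enc h2 h3) (kf3q2.enc h2 h3))))))))⟩
noncomputable def rsfq2 : Fn3 := ⟨_, _, fun h1 h2 h3 => (enc_case h1 (enc_neg (rkfq2.enc (enc_neg h1) h2 h3)) (rkfq2.enc h1 h2 h3))⟩
noncomputable def cv3r : Fn1 := ⟨_, _, fun h1 => (enc_norm (enc_add (enc_scale 3 5 (enc_subr 1 2 (swg.enc h1))) (enc_scale 2 5 (c3g.enc h1))))⟩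
noncomputable def kf3q3 : Fn2 := ⟨_, _, fun h1 h2 => (enc_norm (enc_mul (cv3r.enc h1) (bf3q3.enc h1 h2)))⟩
noncomputable def kf4q3 : Fn2 := ⟨_, _, fun h1 h2 => (enc_norm (enc_sub (enc_mul (enc_norm (enc_subn 2 h1)) (kcg.enc (enc_norm (enc_sub (enc_scale 1 4 h1) (enc_half (c3g.enc h1)))) h2)) (enc_mul (enc_norm (enc_mul (enc_norm (enc_sub (enc_nat 2 (c3g.enc h1)) h1)) (enc_norm (enc_sub (enc_add (c3g.enc h1) (enc_pnc _ 3)) (enc_scale 3 2 h1))))) (enc_inv (enc_nat 4 (enc_subn 1 h1))))))⟩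
noncomputable def lm3r : Fn2 := ⟨_, _, fun h1 h2 => (enc_lam (enc_norm (enc_sub h1 (cv3r.enc h2))) (enc_sub (c3g.enc h2) (cv3r.enc h2)))⟩
noncomputable def lm2r : Fn2 := ⟨_, _, fun h1 h2 => (enc_lam (enc_norm (enc_sub h1 (cv2r.enc h2))) (enc_sub (cv3r.enc h2) (cv2r.enc h2)))⟩
noncomputable def lm1r : Fn2 := ⟨_, _, fun h1 h2 => (enc_lam (enc_norm (enc_sub h1 (cv1r.enc h2))) (enc_sub (cv2r.enc h2) (cv1r.enc h2)))⟩
noncomputable def rkfq3 : Fn3 := ⟨_, _, fun h1 h2 h3 => (enc_case (enc_sub h1 (cv1r.enc h2)) (enc_mul h1 (bf1q3.enc h2 h3)) (enc_case (enc_sub h1 (cv2r.enc h2)) (enc_add (enc_mul h1 (bf2q3.enc h2 h3)) (enc_mul (enc_norm (enc_mul (enc_norm (enc_sub (enc_pnc _ 1) (lm1r.enc h1 h2))) (cv1r.enc h2))) (enc_norm (enc_sub (bf1q3.enc h2 h3) (bf2q3.enc h2 h3))))) (enc_case (enc_sub h1 (cv3r.enc h2)) (enc_add (enc_mul h1 (bf3q3.enc h2 h3)) (enc_mul (enc_norm (enc_mul (enc_norm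 (enc_sub (enc_pnc _ 1) (lm2r.enc h1 h2))) (cv2r.enc h2))) (enc_norm (enc_sub (bf2q3.enc h2 h3) (bf3q3.enc h2 h3))))) (enc_add (kf3q3.enc h2 h3) (enc_mul (lm3r.enc h1 h2) (enc_norm (enc_sub (kf4q3.enc h2 h3) (kf3q3.enc h2 h3))))))))⟩
noncomputable def rsfq3 : Fn3 := ⟨_, _, fun h1 h2 h3 => (enc_case h1 (enc_neg (rkfq3.enc (enc_neg h1) h2 h3)) (rkfq3.enc h1 h2 h3))⟩
noncomputable def rxq0 : Fn3 := ⟨_, _, fun h1 h2 h3 => (enc_case (enc_sub h1 (cv1m.enc h2)) (enc_add (enc_mul h1 (bx1q0.enc h2 h3)) (enc_mul (enc_norm (enc_sub (enc_pnc _ 1) (lm0m.enc h1 h2))) (enc_norm (enc_sub (l0q0.enc h2 h3) (enc_mul (c1g.enc h2) (bx1q0.enc h2 h3)))))) (enc_case (enc_sub h1 (cv2m.enc h2)) (enc_add (enc_mul h1 (bx2q0.enc h2 h3)) (enc_mul (enc_norm (enc_mul (enc_norm (enc_sub (enc_pnc _ 1) (lm1m.enc h1 h2))) (cv1m.enc h2))) (enc_norm (enc_sub (bx1q0.enc h2 h3) (bx2q0.enc h2 h3))))) (enc_case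 (enc_sub h1 (cv3m.enc h2)) (enc_add (enc_mul h1 (bx3q0.enc h2 h3)) (enc_mul (enc_norm (enc_mul (enc_norm (enc_sub (enc_pnc _ 1) (lm2m.enc h1 h2))) (cv2m.enc h2))) (enc_norm (enc_sub (bx2q0.enc h2 h3) (bx3q0.enc h2 h3))))) (enc_add (l3q0.enc h2 h3) (enc_mul (lm3m.enc h1 h2) (enc_norm (enc_sub (l4q0.enc h2 h3) (l3q0.enc h2 h3))))))))⟩
noncomputable def rlq0 : Fn3 := ⟨_, _, fun h1 h2 h3 => (enc_case h1 (enc_neg (rxq0.enc (enc_neg h1) h2 h3)) (rxq0.enc h1 h2 h3))⟩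
noncomputable def bx2q1_3 : Fn2 := ⟨_, _, fun h1 h2 => (enc_subr 3 32 h2)⟩
noncomputable def bx2q1_30 : Fn2 := ⟨_, _, fun h1 h2 => (enc_sq (enc_norm (bx2q1_3.enc h1 h2)))⟩
noncomputable def bx2q1 : Fn2 := ⟨_, _, fun h1 h2 => (enc_norm (enc_case (enc_subr 29 32 h1) (enc_case (enc_subr 3 4 h1) (enc_add (enc_sub (enc_rat _ 172061 2000000) (enc_scale 119651 1250000 h1)) (enc_mul (enc_norm (bx2q1_3.enc h1 h2)) (enc_norm (enc_subr 70689 500000 (enc_scale 20567 125000 h1))))) (enc_add (enc_add (enc_sub (enc_rat _ 752715161 8750000000) (enc_scale 52343003 546875000 h1)) (enc_mul (enc_norm (bx2q1_3.enc h1 h2)) (enc_norm (enc_subr 67467531 218750000 (enc_scale 21178427 54687500 h1))))) (enc_mul (bx2q1_30.enc h1 h2) (enc_norm (enc_sub (enc_rat _ 909 218750) (enc_scale 606 109375 h1)))))) (enc_case (enc_subr 197 200 h1) (enc_add (enc_add (enc_sub (enc_rat _ 123850259 5312500000) (enc_scale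 1240719 53125000 h1)) (enc_mul (enc_norm (bx2q1_3.enc h1 h2)) (enc_norm (enc_sub (enc_rat _ 805463879 3187500000) (enc_scale 4046257 15937500 h1))))) (enc_mul (bx2q1_30.enc h1 h2) (enc_norm (enc_subr 11623 425000 (enc_scale 59 2125 h1))))) (enc_add (enc_sub (enc_rat _ 1543 75000) (enc_scale 1543 75000 h1)) (enc_mul (enc_norm (bx2q1_3.enc h1 h2)) (enc_norm (enc_sub (enc_rat _ 131 750) (enc_scale 131 750 h1))))))))⟩
noncomputable def rxq1_35 : Fn3 := ⟨_, _, fun h1 h2 h3 => (enc_add (enc_mul h1 (bx2q1.enc h2 h3)) (enc_mul (enc_norm (enc_mul (enc_norm (enc_sub (enc_pnc _ 1) (lm1m.enc h1 h2))) (cv1m.enc h2))) (enc_norm (enc_sub (bx1q1.enc h2 h3) (bx2q1.enc h2 h3)))))⟩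
noncomputable def rxq1_37 : Fn3 := ⟨_, _, fun h1 h2 h3 => (enc_sub (enc_pnc _ 1) h2)⟩
noncomputable def rxq1 : Fn3 := ⟨_, _, fun h1 h2 h3 => (enc_case (enc_sub h1 (cv1m.enc h2)) (enc_add (enc_mul h1 (bx1q1.enc h2 h3)) (enc_mul (enc_norm (enc_sub (enc_pnc _ 1) (lm0m.enc h1 h2))) (enc_norm (enc_sub (l0q1.enc h2 h3) (enc_mul (c1g.enc h2) (bx1q1.enc h2 h3)))))) (enc_case (enc_sub h1 (cv2m.enc h2)) (enc_case (enc_subr 55 64 h2) (rxq1_35.enc h1 h2 h3) (enc_case (enc_subr 61 64 h2) (enc_add (l1q1.enc h2 h3) (enc_mul (lm1m.enc h1 h2) (enc_norm (enc_sub (enc_sub (qsg.enc (enc_norm (rxq1_37.enc h1 h2 h3))) (enc_mul (enc_norm (enc_nat 2 (enc_sub (rxq1_37.enc h1 h2 h3) h3))) (enc_norm (enc_mul (esg.enc (enc_norm (rxq1_37.enc h1 h2 h3))) (kcg.enc (enc_norm (enc_sub (enc_scale 3 4 (rxq1_37.enc h1 h2 h3)) (enc_half (gsg.enc (enc_norm (rxq1_37.enc h1 h2 h3)))))) h3))))) (l1q1.enc h2 h3)))))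 (rxq1_35.enc h1 h2 h3))) (enc_case (enc_sub h1 (cv3m.enc h2)) (enc_add (enc_mul h1 (bx3q1.enc h2 h3)) (enc_mul (enc_norm (enc_sub (enc_pnc _ 1) (lm2m.enc h1 h2))) (enc_norm (enc_sub (l2q1.enc h2 h3) (enc_mul (cv2m.enc h2) (bx3q1.enc h2 h3)))))) (enc_add (l3q1.enc h2 h3) (enc_mul (lm3m.enc h1 h2) (enc_norm (enc_sub (l4q1.enc h2 h3) (l3q1.enc h2 h3))))))))⟩
noncomputable def rlq1 : Fn3 := ⟨_, _, fun h1 h2 h3 => (enc_case h1 (enc_neg (rxq1.enc (enc_neg h1) h2 h3)) (rxq1.enc h1 h2 h3))⟩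
noncomputable def l2q2_4 : Fn2 := ⟨_, _, fun h1 h2 => (enc_subr 3 32 h2)⟩
noncomputable def l2q2_31 : Fn2 := ⟨_, _, fun h1 h2 => (enc_sq (enc_norm (l2q2_4.enc h1 h2)))⟩
noncomputable def l2q2_80 : Fn2 := ⟨_, _, fun h1 h2 => (enc_subn 1 h1)⟩
noncomputable def l2q2 : Fn2 := ⟨_, _, fun h1 h2 => (enc_norm (enc_case (enc_subr 67 64 h1) (enc_mul (cv2p.enc h1) (enc_norm (enc_case (enc_subr 203 200 h1) (enc_add (enc_subr 771 12500 (enc_scale 771 12500 h1)) (enc_mul (enc_norm (l2q2_4.enc h1 h2)) (enc_norm (enc_subr 4753 7500 (enc_scale 4753 7500 h1))))) (enc_add (enc_add (enc_subr 224144183 3187500000 (enc_scale 559343 7968750 h1)) (enc_mul (enc_norm (l2q2_4.enc h1 h2)) (enc_norm (enc_subr 4540784213 6375000000 (enc_scale 22666921 31875000 h1))))) (enc_mul (l2q2_31.enc h1 h2) (enc_norm (enc_sub (enc_rat _ 539371 6375000) (enc_scale 2657 31875 h1)))))))) (enc_case (enc_subr 73 64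 h1) (enc_sub (qsg.enc (enc_norm (l2q2_80.enc h1 h2))) (enc_mul (enc_norm (enc_nat 2 (enc_sub (l2q2_80.enc h1 h2) h2))) (enc_norm (enc_mul (esg.enc (enc_norm (l2q2_80.enc h1 h2))) (kcg.enc (enc_norm (enc_sub (enc_scale 3 4 (l2q2_80.enc h1 h2)) (enc_half (gsg.enc (enc_norm (l2q2_80.enc h1 h2)))))) h2))))) (enc_mul (cv2p.enc h1) (enc_norm (enc_case (enc_subr 29 25 h1) (enc_add (enc_add (enc_subr 3339068509 38750000000 (enc_scale 16578187 193750000 h1)) (enc_mul (enc_norm (l2q2_4.enc h1 h2)) (enc_norm (enc_sub (enc_rat _ 8540131129 1937500000) (enc_scale 18404361 4843750 h1))))) (enc_mul (l2q2_31.enc h1 h2) (enc_norm (enc_subr 10643 96875 (enc_scale 367 3875 h1))))) (enc_case (enc_subr 13 10 h1) (enc_add (enc_subr 6030081 70000000 (enc_scale 1497 17500 h1)) (enc_mul (enc_norm (l2q2_4.enc h1 h2)) (enc_norm (enc_subr 2279 218750 (enc_scale 1289 140000 h1))))) (enc_add (enc_subr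 1722611 20000000 (enc_scale 34213 400000 h1)) (enc_mul (enc_norm (l2q2_4.enc h1 h2)) (enc_norm (enc_subr 20103 2000000 (enc_scale 357 40000 h1))))))))))))⟩
noncomputable def bx2q2_3 : Fn2 := ⟨_, _, fun h1 h2 => (enc_subr 3 32 h2)⟩
noncomputable def bx2q2_30 : Fn2 := ⟨_, _, fun h1 h2 => (enc_sq (enc_norm (bx2q2_3.enc h1 h2)))⟩
noncomputable def bx2q2 : Fn2 := ⟨_, _, fun h1 h2 => (enc_norm (enc_case (enc_subr 35 32 h1) (enc_case (enc_subr 203 200 h1) (enc_add (enc_subr 771 12500 (enc_scale 771 12500 h1)) (enc_mul (enc_norm (bx2q2_3.enc h1 h2)) (enc_norm (enc_subr 4753 7500 (enc_scale 4753 7500 h1))))) (enc_add (enc_add (enc_subr 224144183 3187500000 (enc_scale 559343 7968750 h1)) (enc_mul (enc_norm (bx2q2_3.enc h1 h2)) (enc_norm (enc_subr 4540784213 6375000000 (enc_scale 22666921 31875000 h1))))) (enc_mul (bx2q2_30.enc h1 h2) (enc_norm (enc_sub (enc_rat _ 539371 6375000)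 (enc_scale 2657 31875 h1)))))) (enc_case (enc_subr 29 25 h1) (enc_add (enc_add (enc_subr 3339068509 38750000000 (enc_scale 16578187 193750000 h1)) (enc_mul (enc_norm (bx2q2_3.enc h1 h2)) (enc_norm (enc_sub (enc_rat _ 8540131129 1937500000) (enc_scale 18404361 4843750 h1))))) (enc_mul (bx2q2_30.enc h1 h2) (enc_norm (enc_subr 10643 96875 (enc_scale 367 3875 h1))))) (enc_case (enc_subr 13 10 h1) (enc_add (enc_subr 6030081 70000000 (enc_scale 1497 17500 h1)) (enc_mul (enc_norm (bx2q2_3.enc h1 h2)) (enc_norm (enc_subr 2279 218750 (enc_scale 1289 140000 h1))))) (enc_add (enc_subr 1722611 20000000 (enc_scale 34213 400000 h1)) (enc_mul (enc_norm (bx2q2_3.enc h1 h2)) (enc_norm (enc_subr 20103 2000000 (enc_scale 357 40000 h1)))))))))⟩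
noncomputable def l1q2 : Fn2 := ⟨_, _, fun h1 h2 => (enc_norm (enc_mul (cv1p.enc h1) (bx1q2.enc h1 h2)))⟩
noncomputable def l0q2_7 : Fn2 := ⟨_, _, fun h1 h2 => (enc_scale 3 4 h1)⟩
noncomputable def l0q2_8 : Fn2 := ⟨_, _, fun h1 h2 => (enc_half (c1g.enc h1))⟩
noncomputable def l0q2 : Fn2 := ⟨_, _, fun h1 h2 => (enc_norm (enc_sub (txg.enc (enc_neg (c1g.enc h1)) (enc_norm (enc_add (l0q2_7.enc h1 h2) (l0q2_8.enc h1 h2))) h2) (txg.enc (c1g.enc h1) (enc_norm (enc_sub (l0q2_7.enc h1 h2) (l0q2_8.enc h1 h2))) h2)))⟩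
noncomputable def n0x : Fn2 := ⟨_, _, fun h1 h2 => (enc_norm (enc_add (enc_scale 51949 600000 (enc_subr 3 32 h2)) (enc_rat _ 2337 250000)))⟩
noncomputable def rxq2_35 : Fn3 := ⟨_, _, fun h1 h2 h3 => (enc_add (enc_mul h1 (bx2q2.enc h2 h3)) (enc_mul (enc_norm (enc_mul (enc_norm (enc_sub (enc_pnc _ 1) (lm1p.enc h1 h2))) (cv1p.enc h2))) (enc_norm (enc_sub (bx1q2.enc h2 h3) (bx2q2.enc h2 h3)))))⟩
noncomputable def rxq2_36 : Fn3 := ⟨_, _, fun h1 h2 h3 => (enc_subn 1 h2)⟩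
noncomputable def rxq2_64 : Fn3 := ⟨_, _, fun h1 h2 h3 => (enc_mul h1 (bx1q2.enc h2 h3))⟩
noncomputable def rxq2_66 : Fn3 := ⟨_, _, fun h1 h2 h3 => (enc_sub (enc_pnc _ 1) (lm0p.enc h1 h2))⟩
noncomputable def rxq2 : Fn3 := ⟨_, _, fun h1 h2 h3 => (enc_case (enc_sub h1 (cv1p.enc h2)) (enc_case (enc_subr 1153 1000 h2) (enc_add (rxq2_64.enc h1 h2 h3) (enc_mul (enc_norm (rxq2_66.enc h1 h2 h3)) (enc_norm (enc_sub (l0q2.enc h2 h3) (enc_mul (c1g.enc h2) (bx1q2.enc h2 h3)))))) (enc_case (enc_subr 2887 2500 h2) (enc_add (rxq2_64.enc h1 h2 h3) (enc_mul (enc_norm (rxq2_66.enc h1 h2 h3)) (enc_norm (enc_mul (c1g.enc h2) (enc_norm (enc_sub (n0x.enc h2 h3) (bx1q2.enc h2 h3))))))) (rxq2_64.enc h1 h2 h3))) (enc_case (enc_sub h1 (cv2p.enc h2)) (enc_case (enc_subr 67 64 h2) (rxq2_35.enc h1 h2 h3) (enc_case (enc_subr 73 64 h2) (enc_add (l1q2.enc h2 h3) (enc_mul (lm1p.enc h1 h2) (enc_norm (enc_sub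 (enc_sub (qsg.enc (enc_norm (rxq2_36.enc h1 h2 h3))) (enc_mul (enc_norm (enc_nat 2 (enc_sub (rxq2_36.enc h1 h2 h3) h3))) (enc_norm (enc_mul (esg.enc (enc_norm (rxq2_36.enc h1 h2 h3))) (kcg.enc (enc_norm (enc_sub (enc_scale 3 4 (rxq2_36.enc h1 h2 h3)) (enc_half (gsg.enc (enc_norm (rxq2_36.enc h1 h2 h3)))))) h3))))) (l1q2.enc h2 h3))))) (rxq2_35.enc h1 h2 h3))) (enc_case (enc_sub h1 (cv3p.enc h2)) (enc_add (enc_mul h1 (bx3q2.enc h2 h3)) (enc_mul (enc_norm (enc_sub (enc_pnc _ 1) (lm2p.enc h1 h2))) (enc_norm (enc_sub (l2q2.enc h2 h3) (enc_mul (cv2p.enc h2) (bx3q2.enc h2 h3)))))) (enc_add (l3q2.enc h2 h3) (enc_mul (lm3p.enc h1 h2) (enc_norm (enc_sub (l4q2.enc h2 h3) (l3q2.enc h2 h3))))))))⟩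
noncomputable def rlq2 : Fn3 := ⟨_, _, fun h1 h2 h3 => (enc_case h1 (enc_neg (rxq2.enc (enc_neg h1) h2 h3)) (rxq2.enc h1 h2 h3))⟩
noncomputable def l3q3 : Fn2 := ⟨_, _, fun h1 h2 => (enc_norm (enc_mul (cv3r.enc h1) (bx3q3.enc h1 h2)))⟩
noncomputable def l4q3_7 : Fn2 := ⟨_, _, fun h1 h2 => (enc_half (c3g.enc h1))⟩
noncomputable def l4q3_8 : Fn2 := ⟨_, _, fun h1 h2 => (enc_scale 1 4 h1)⟩
noncomputable def l4q3_9 : Fn2 := ⟨_, _, fun h1 h2 => (enc_sub (l4q3_7.enc h1 h2) (l4q3_8.enc h1 h2))⟩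
noncomputable def l4q3_12 : Fn2 := ⟨_, _, fun h1 h2 => (enc_add (enc_scale 1 4 (c3g.enc h1)) (enc_scale 3 8 h1))⟩
noncomputable def l4q3_14 : Fn2 := ⟨_, _, fun h1 h2 => (enc_half (l4q3_9.enc h1 h2))⟩
noncomputable def l4q3 : Fn2 := ⟨_, _, fun h1 h2 => (enc_norm (enc_sub (enc_nat 2 (txg.enc (enc_norm (enc_sub (l4q3_8.enc h1 h2) (l4q3_7.enc h1 h2))) (enc_norm (enc_add (l4q3_12.enc h1 h2) (l4q3_14.enc h1 h2))) h2)) (txg.enc (enc_norm (l4q3_9.enc h1 h2)) (enc_norm (enc_sub (l4q3_12.enc h1 h2) (l4q3_14.enc h1 h2))) h2)))⟩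
noncomputable def rxq3 : Fn3 := ⟨_, _, fun h1 h2 h3 => (enc_case (enc_sub h1 (cv1r.enc h2)) (enc_mul h1 (bx1q3.enc h2 h3)) (enc_case (enc_sub h1 (cv2r.enc h2)) (enc_add (enc_mul h1 (bx2q3.enc h2 h3)) (enc_mul (enc_norm (enc_mul (enc_norm (enc_sub (enc_pnc _ 1) (lm1r.enc h1 h2))) (cv1r.enc h2))) (enc_norm (enc_sub (bx1q3.enc h2 h3) (bx2q3.enc h2 h3))))) (enc_case (enc_sub h1 (cv3r.enc h2)) (enc_add (enc_mul h1 (bx3q3.enc h2 h3)) (enc_mul (enc_norm (enc_mul (enc_norm (enc_sub (enc_pnc _ 1) (lm2r.enc h1 h2))) (cv2r.enc h2))) (enc_norm (enc_sub (bx2q3.enc h2 h3) (bx3q3.enc h2 h3))))) (enc_add (l3q3.enc h2 h3) (enc_mul (lm3r.enc h1 h2) (enc_norm (enc_sub (l4q3.enc h2 h3) (l3q3.enc h2 h3))))))))⟩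
noncomputable def rlq3 : Fn3 := ⟨_, _, fun h1 h2 h3 => (enc_case h1 (enc_neg (rxq3.enc (enc_neg h1) h2 h3)) (rxq3.enc h1 h2 h3))⟩
noncomputable def mug3 : Fn1 := ⟨_, _, fun h1 => (enc_inv (enc_add (enc_nat 2 (gsg.enc h1)) (enc_pnc _ 3)))⟩
noncomputable def gug : Fn1 := ⟨_, _, fun h1 => (enc_norm (enc_add (enc_scale 3 4 h1) (enc_scale 3 2 (enc_sub (enc_pnc _ 1) (gsg.enc h1)))))⟩
noncomputable def kug_2 : Fn1 := ⟨_, _, fun h1 => (enc_sq h1)⟩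
noncomputable def kug : Fn1 := ⟨_, _, fun h1 => (enc_norm (enc_add (enc_add (enc_scale 3 4 h1) (enc_scale 3 2 (kug_2.enc h1))) (enc_mul (enc_norm (enc_mul (enc_scale 3 4 (kug_2.enc h1)) (enc_inv (gsg.enc h1)))) (gug.enc h1))))⟩
noncomputable def kp0q0_3 : Fn2 := ⟨_, _, fun h1 h2 => (enc_subr 3 32 h2)⟩
noncomputable def kp0q0_8 : Fn2 := ⟨_, _, fun h1 h2 => (enc_sub (enc_scale 3 4 h1) (enc_half (c1g.enc h1)))⟩
noncomputable def kp0q0 : Fn2 := ⟨_, _, fun h1 h2 => (enc_norm (enc_case (enc_add (kp0q0_8.enc h1 h2) (enc_rat _ 587 1262)) (enc_mul h1 (enc_norm (enc_add (enc_subr 115338028397 110000000000 (enc_neg (enc_scale 135071599397 55000000000 (kp0q0_8.enc h1 h2)))) (enc_mul (enc_norm (kp0q0_3.enc h1 h2)) (enc_norm (enc_add (enc_scale 65332406697 44000000000 (kp0q0_8.enc h1 h2)) (enc_rat _ 66070814697 88000000000))))))) (enc_case (enc_add (kp0q0_8.enc h1 h2) (enc_rat _ 613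 1574)) (enc_sub (kug.enc h1) (enc_mul h1 (enc_norm (enc_mul (kcg.enc (enc_norm (kp0q0_8.enc h1 h2)) h2) (enc_norm (enc_add (gug.enc h1) (enc_nat 2 (c1g.enc h1)))))))) (enc_mul h1 (enc_norm (enc_case (enc_add (kp0q0_8.enc h1 h2) (enc_rat _ 1 4)) (enc_case (enc_add (kp0q0_8.enc h1 h2) (enc_rat _ 7 20)) (enc_add (enc_sub (enc_rat _ 102378567731 414000000000) (enc_scale 6570852667 20700000000 (kp0q0_8.enc h1 h2))) (enc_mul (enc_norm (kp0q0_3.enc h1 h2)) (enc_norm (enc_subr 4081302623 90000000000 (enc_neg (enc_scale 692046089 4500000000 (kp0q0_8.enc h1 h2))))))) (enc_add (enc_sub (enc_rat _ 4946101 20000000) (enc_scale 317393 1000000 (kp0q0_8.enc h1 h2))) (enc_mul (enc_norm (kp0q0_3.enc h1 h2)) (enc_norm (enc_subr 2361 100000 (enc_neg (enc_scale 573 6250 (kp0q0_8.enc h1 h2)))))))) (enc_case (kp0q0_8.enc h1 h2) (enc_add (enc_sub (enc_rat _ 154587 625000) (enc_scale 793141 2500000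 (kp0q0_8.enc h1 h2))) (enc_mul (enc_norm (kp0q0_3.enc h1 h2)) (enc_norm (enc_subr 6063 250000 (enc_neg (enc_scale 11781 125000 (kp0q0_8.enc h1 h2))))))) (enc_add (enc_sub (enc_rat _ 154587 625000) (enc_scale 792507 2500000 (kp0q0_8.enc h1 h2))) (enc_mul (enc_norm (kp0q0_3.enc h1 h2)) (enc_norm (enc_subr 6063 250000 (enc_neg (enc_scale 12847 125000 (kp0q0_8.enc h1 h2))))))))))))))⟩
noncomputable def kn0q0 : Fn2 := ⟨_, _, fun h1 h2 => (enc_norm (enc_add (enc_mul (enc_norm (enc_add (enc_pnc _ 1) (enc_mul (mug3.enc h2) (gug.enc h2)))) (kf0q0.enc h1 h2)) (enc_mul (mug3.enc h2) (kp0q0.enc h1 h2))))⟩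
noncomputable def kp0q1_3 : Fn2 := ⟨_, _, fun h1 h2 => (enc_subr 3 32 h2)⟩
noncomputable def kp0q1_9 : Fn2 := ⟨_, _, fun h1 h2 => (enc_sub (enc_scale 3 4 h1) (enc_half (c1g.enc h1)))⟩
noncomputable def kp0q1 : Fn2 := ⟨_, _, fun h1 h2 => (enc_norm (enc_mul (enc_norm (enc_subn 1 h1)) (enc_norm (enc_case (enc_add (kp0q1_9.enc h1 h2) (enc_rat _ 1 4)) (enc_case (enc_add (kp0q1_9.enc h1 h2) (enc_rat _ 7 20)) (enc_add (enc_sub (enc_rat _ 102378567731 414000000000) (enc_scale 6570852667 20700000000 (kp0q1_9.enc h1 h2))) (enc_mul (enc_norm (kp0q1_3.enc h1 h2)) (enc_norm (enc_subr 4081302623 90000000000 (enc_neg (enc_scale 692046089 4500000000 (kp0q1_9.enc h1 h2))))))) (enc_add (enc_sub (enc_rat _ 4946101 20000000) (enc_scale 317393 1000000 (kp0q1_9.enc h1 h2))) (enc_mul (enc_norm (kp0q1_3.enc h1 h2)) (enc_norm (enc_subr 2361 100000 (enc_neg (enc_scale 573 6250 (kp0q1_9.enc h1 h2))))))))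 (enc_case (kp0q1_9.enc h1 h2) (enc_add (enc_sub (enc_rat _ 154587 625000) (enc_scale 793141 2500000 (kp0q1_9.enc h1 h2))) (enc_mul (enc_norm (kp0q1_3.enc h1 h2)) (enc_norm (enc_subr 6063 250000 (enc_neg (enc_scale 11781 125000 (kp0q1_9.enc h1 h2))))))) (enc_add (enc_sub (enc_rat _ 154587 625000) (enc_scale 792507 2500000 (kp0q1_9.enc h1 h2))) (enc_mul (enc_norm (kp0q1_3.enc h1 h2)) (enc_norm (enc_subr 6063 250000 (enc_neg (enc_scale 12847 125000 (kp0q1_9.enc h1 h2))))))))))))⟩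
noncomputable def kn0q1 : Fn2 := ⟨_, _, fun h1 h2 => (enc_norm (enc_add (enc_mul (enc_norm (enc_add (enc_pnc _ 1) (enc_mul (mug3.enc h2) (gug.enc h2)))) (kf0q1.enc h1 h2)) (enc_mul (mug3.enc h2) (kp0q1.enc h1 h2))))⟩
noncomputable def kpc02_4 : Fn2 := ⟨_, _, fun h1 h2 => (enc_subr 3 32 h2)⟩
noncomputable def kpc02 : Fn2 := ⟨_, _, fun h1 h2 => (enc_norm (enc_mul (enc_norm (enc_subn 1 (yag.enc h1))) (enc_norm (enc_case (enc_subr 1 10 h1) (enc_sub (enc_neg (enc_scale 20239 100000 h1)) (enc_mul (enc_norm (kpc02_4.enc h1 h2)) (enc_scale 133 6250 h1))) (enc_add (enc_sub (enc_rat _ 1 2000000) (enc_scale 40479 200000 h1)) (enc_mul (enc_norm (kpc02_4.enc h1 h2)) (enc_norm (enc_sub (enc_rat _ 1587 2000000) (enc_scale 5843 200000 h1)))))))))⟩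
noncomputable def knc02 : Fn2 := ⟨_, _, fun h1 h2 => (enc_norm (enc_add (enc_mul (enc_norm (enc_add (enc_pnc _ 1) (enc_mul (mug3.enc h2) (gug.enc h2)))) (kfc02.enc h1 h2)) (enc_mul (mug3.enc h2) (kpc02.enc h1 h2))))⟩
noncomputable def bd1q0_3 : Fn2 := ⟨_, _, fun h1 h2 => (enc_subr 3 32 h2)⟩
noncomputable def bd1q0 : Fn2 := ⟨_, _, fun h1 h2 => (enc_norm (enc_case (enc_subr 1 10 h1) (enc_sub (enc_neg (enc_scale 966177 200000 h1)) (enc_mul (enc_norm (bd1q0_3.enc h1 h2)) (enc_scale 3 12500 h1))) (enc_add (enc_sub (enc_rat _ 39 40000000) (enc_scale 19323579 4000000 h1)) (enc_mul (enc_norm (bd1q0_3.enc h1 h2)) (enc_norm (enc_sub (enc_rat _ 37 4000000) (enc_scale 133 400000 h1)))))))⟩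
noncomputable def kp1q0 : Fn2 := ⟨_, _, fun h1 h2 => (enc_norm (enc_mul (cv1m.enc h1) (bd1q0.enc h1 h2)))⟩
noncomputable def kn1q0 : Fn2 := ⟨_, _, fun h1 h2 => (enc_norm (enc_add (enc_mul (enc_norm (enc_add (enc_pnc _ 1) (enc_mul (mug3.enc h2) (gug.enc h2)))) (kf1q0.enc h1 h2)) (enc_mul (mug3.enc h2) (kp1q0.enc h1 h2))))⟩
noncomputable def bd1q1_3 : Fn2 := ⟨_, _, fun h1 h2 => (enc_subr 3 32 h2)⟩
noncomputable def bd1q1 : Fn2 := ⟨_, _, fun h1 h2 => (enc_norm (enc_case (enc_subr 9 10 h1) (enc_add (enc_subr 55846393 40000000 (enc_scale 53101 32000 h1)) (enc_mul (enc_norm (bd1q1_3.enc h1 h2)) (enc_norm (enc_subr 3979 4000000 (enc_scale 659 400000 h1))))) (enc_add (enc_subr 13961587 10000000 (enc_scale 331881 200000 h1)) (enc_mul (enc_norm (bd1q1_3.enc h1 h2)) (enc_norm (enc_subr 53 50000 (enc_scale 43 25000 h1)))))))⟩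
noncomputable def kp1q1 : Fn2 := ⟨_, _, fun h1 h2 => (enc_norm (enc_mul (cv1m.enc h1) (bd1q1.enc h1 h2)))⟩
noncomputable def kn1q1 : Fn2 := ⟨_, _, fun h1 h2 => (enc_norm (enc_add (enc_mul (enc_norm (enc_add (enc_pnc _ 1) (enc_mul (mug3.enc h2) (gug.enc h2)))) (kf1q1.enc h1 h2)) (enc_mul (mug3.enc h2) (kp1q1.enc h1 h2))))⟩
noncomputable def bd1q2_3 : Fn2 := ⟨_, _, fun h1 h2 => (enc_subr 3 32 h2)⟩
noncomputable def bd1q2 : Fn2 := ⟨_, _, fun h1 h2 => (enc_norm (enc_case (enc_subr 577 500 h1) (enc_case (enc_subr 11 10 h1) (enc_add (enc_sub (enc_rat _ 202393 1000000) (enc_scale 202393 1000000 h1)) (enc_mul (enc_norm (bd1q2_3.enc h1 h2)) (enc_norm (enc_sub (enc_rat _ 1069 50000) (enc_scale 1069 50000 h1))))) (enc_add (enc_sub (enc_rat _ 18214523 90000000) (enc_scale 91073 450000 h1)) (enc_mul (enc_norm (bd1q2_3.enc h1 h2)) (enc_norm (enc_sub (enc_rat _ 56879 2700000) (enc_scale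 14239 675000 h1)))))) (enc_case (enc_subr 231 200 h1) (enc_add (enc_sub (enc_rat _ 20239 100000) (enc_scale 20239 100000 h1)) (enc_mul (enc_norm (bd1q2_3.enc h1 h2)) (enc_norm (enc_sub (enc_rat _ 133 6250) (enc_scale 133 6250 h1))))) (enc_add (enc_sub (enc_rat _ 46549931 230000000) (enc_scale 465499 2300000 h1)) (enc_mul (enc_norm (bd1q2_3.enc h1 h2)) (enc_norm (enc_sub (enc_rat _ 403123 23000000) (enc_scale 31103 1725000 h1))))))))⟩
noncomputable def kpc12a : Fn2 := ⟨_, _, fun h1 h2 => (enc_norm (enc_mul (enc_norm (enc_add (enc_scale 2 5 h1) (enc_scale 3 5 (enc_subr 1 2 (swg.enc (yag.enc h1)))))) (bd1q2.enc (yag.enc h1) h2)))⟩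
noncomputable def knc12a : Fn2 := ⟨_, _, fun h1 h2 => (enc_norm (enc_add (enc_mul (enc_norm (enc_add (enc_pnc _ 1) (enc_mul (mug3.enc h2) (gug.enc h2)))) (kfc12a.enc h1 h2)) (enc_mul (mug3.enc h2) (kpc12a.enc h1 h2))))⟩
noncomputable def kpc12b : Fn2 := ⟨_, _, fun h1 h2 => (enc_norm (enc_mul (enc_norm (enc_scale 3 5 (enc_subr 1 2 (swg.enc h1)))) (bd1q2.enc h1 h2)))⟩
noncomputable def knc12b : Fn2 := ⟨_, _, fun h1 h2 => (enc_norm (enc_add (enc_mul (enc_norm (enc_add (enc_pnc _ 1) (enc_mul (mug3.enc h2) (gug.enc h2)))) (kfc12b.enc h1 h2)) (enc_mul (mug3.enc h2) (kpc12b.enc h1 h2))))⟩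
noncomputable def bd1q3_3 : Fn2 := ⟨_, _, fun h1 h2 => (enc_subr 3 32 h2)⟩
noncomputable def bd1q3 : Fn2 := ⟨_, _, fun h1 h2 => (enc_norm (enc_case (enc_subr 19 10 h1) (enc_add (enc_sub (enc_rat _ 660836367 40000000) (enc_scale 39962917 4000000 h1)) (enc_mul (enc_norm (bd1q3_3.enc h1 h2)) (enc_norm (enc_sub (enc_rat _ 3 4000000) (enc_scale 1 400000 h1))))) (enc_sub (enc_sub (enc_rat _ 82604553 5000000) (enc_scale 999073 100000 h1)) (enc_scale 1 250000 (bd1q3_3.enc h1 h2)))))⟩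
noncomputable def kp1q3 : Fn2 := ⟨_, _, fun h1 h2 => (enc_norm (enc_mul (cv1r.enc h1) (bd1q3.enc h1 h2)))⟩
noncomputable def kn1q3 : Fn2 := ⟨_, _, fun h1 h2 => (enc_norm (enc_add (enc_mul (enc_norm (enc_add (enc_pnc _ 1) (enc_mul (mug3.enc h2) (gug.enc h2)))) (kf1q3.enc h1 h2)) (enc_mul (mug3.enc h2) (kp1q3.enc h1 h2))))⟩
noncomputable def bd2q0_3 : Fn2 := ⟨_, _, fun h1 h2 => (enc_subr 3 32 h2)⟩
noncomputable def bd2q0 : Fn2 := ⟨_, _, fun h1 h2 => (enc_norm (enc_case (enc_subr 1 10 h1) (enc_sub (enc_mul (enc_norm (bd2q0_3.enc h1 h2)) (enc_scale 3 100000 h1)) (enc_scale 1148881 500000 h1)) (enc_add (enc_sub (enc_rat _ 61 40000000) (enc_scale 9191109 4000000 h1)) (enc_mul (enc_norm (bd2q0_3.enc h1 h2)) (enc_norm (enc_sub (enc_rat _ 11 1000000) (enc_scale 1 12500 h1)))))))⟩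
noncomputable def kp2q0 : Fn2 := ⟨_, _, fun h1 h2 => (enc_norm (enc_mul (cv2m.enc h1) (bd2q0.enc h1 h2)))⟩
noncomputable def kn2q0 : Fn2 := ⟨_, _, fun h1 h2 => (enc_norm (enc_add (enc_mul (enc_norm (enc_add (enc_pnc _ 1) (enc_mul (mug3.enc h2) (gug.enc h2)))) (kf2q0.enc h1 h2)) (enc_mul (mug3.enc h2) (kp2q0.enc h1 h2))))⟩
noncomputable def kp2q1_4 : Fn2 := ⟨_, _, fun h1 h2 => (enc_subr 3 32 h2)⟩
noncomputable def kp2q1_28 : Fn2 := ⟨_, _, fun h1 h2 => (enc_sub (enc_pnc _ 1) h1)⟩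
noncomputable def kp2q1_29 : Fn2 := ⟨_, _, fun h1 h2 => (gsg.enc (enc_norm (kp2q1_28.enc h1 h2)))⟩
noncomputable def kp2q1_33 : Fn2 := ⟨_, _, fun h1 h2 => (esg.enc (enc_norm (kp2q1_28.enc h1 h2)))⟩
noncomputable def kp2q1_41 : Fn2 := ⟨_, _, fun h1 h2 => (enc_mul (enc_scale 3 4 (enc_sq (enc_norm (kp2q1_28.enc h1 h2)))) (enc_inv (kp2q1_29.enc h1 h2)))⟩
noncomputable def kp2q1 : Fn2 := ⟨_, _, fun h1 h2 => (enc_norm (enc_case (enc_subr 55 64 h1) (enc_mul (cv2m.enc h1) (enc_norm (enc_add (enc_subr 1473761431 898437500 (enc_scale 3534529849 1796875000 h1)) (enc_mul (enc_norm (kp2q1_4.enc h1 h2)) (enc_norm (enc_add (enc_scale 352829 179687500 h1) (enc_rat _ 1187993 2875000000))))))) (enc_case (enc_subr 61 64 h1) (enc_sub (enc_add (kug.enc (enc_norm (kp2q1_28.enc h1 h2))) (enc_mul (enc_norm (enc_sub (enc_mul (enc_norm (enc_mul (enc_norm (kp2q1_41.enc h1 h2)) (enc_norm (enc_subn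 3 (enc_nat 4 (kp2q1_29.enc h1 h2)))))) (kp2q1_33.enc h1 h2)) (enc_mul (qsg.enc (enc_norm (kp2q1_28.enc h1 h2))) (enc_norm (enc_sub (enc_half (kp2q1_28.enc h1 h2)) (kp2q1_41.enc h1 h2)))))) (enc_inv (enc_mul (enc_nat 2 (kp2q1_33.enc h1 h2)) (kp2q1_33.enc h1 h2))))) (enc_mul (enc_norm (enc_mul (enc_norm (kp2q1_28.enc h1 h2)) (kcg.enc (enc_norm (enc_sub (enc_scale 3 4 (kp2q1_28.enc h1 h2)) (enc_half (kp2q1_29.enc h1 h2)))) h2))) (enc_norm (enc_add (enc_add (enc_pnc _ 1) (gug.enc (enc_norm (kp2q1_28.enc h1 h2)))) (enc_nat 2 (kp2q1_29.enc h1 h2)))))) (enc_mul (cv2m.enc h1) (enc_norm (enc_add (enc_sub (enc_rat _ 11034911 117187500) (enc_scale 11034911 117187500 h1)) (enc_mul (enc_norm (kp2q1_4.enc h1 h2)) (enc_norm (enc_sub (enc_rat _ 1391209 23437500) (enc_scale 1391209 23437500 h1))))))))))⟩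
noncomputable def kn2q1 : Fn2 := ⟨_, _, fun h1 h2 => (enc_norm (enc_add (enc_mul (enc_norm (enc_add (enc_pnc _ 1) (enc_mul (mug3.enc h2) (gug.enc h2)))) (kf2q1.enc h1 h2)) (enc_mul (mug3.enc h2) (kp2q1.enc h1 h2))))⟩
noncomputable def kpc22a_3 : Fn2 := ⟨_, _, fun h1 h2 => (cv2p.enc (yag.enc h1))⟩
noncomputable def kpc22a_5 : Fn2 := ⟨_, _, fun h1 h2 => (enc_subr 3 32 h2)⟩
noncomputable def kpc22a_29 : Fn2 := ⟨_, _, fun h1 h2 => (enc_subn 1 (yag.enc h1))⟩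
noncomputable def kpc22a_30 : Fn2 := ⟨_, _, fun h1 h2 => (gsg.enc (enc_norm (kpc22a_29.enc h1 h2)))⟩
noncomputable def kpc22a_34 : Fn2 := ⟨_, _, fun h1 h2 => (esg.enc (enc_norm (kpc22a_29.enc h1 h2)))⟩
noncomputable def kpc22a_42 : Fn2 := ⟨_, _, fun h1 h2 => (enc_mul (enc_scale 3 4 (enc_sq (enc_norm (kpc22a_29.enc h1 h2)))) (enc_inv (kpc22a_30.enc h1 h2)))⟩
noncomputable def kpc22a : Fn2 := ⟨_, _, fun h1 h2 => (enc_norm (enc_case (enc_subr 67 64 (yag.enc h1)) (enc_mul (kpc22a_3.enc h1 h2) (enc_norm (enc_add (enc_subr 16071141 156250000 (enc_scale 16071141 156250000 (yag.enc h1))) (enc_mul (enc_norm (kpc22a_5.enc h1 h2)) (enc_norm (enc_subr 474877 7812500 (enc_scale 474877 7812500 (yag.enc h1)))))))) (enc_case (enc_subr 73 64 (yag.enc h1)) (enc_add (enc_sub (kug.enc (enc_norm (kpc22a_29.enc h1 h2))) (enc_mul (enc_norm (enc_sub (enc_mul (enc_norm (enc_mul (enc_norm (kpc22a_42.enc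 h1 h2)) (enc_norm (enc_subn 3 (enc_nat 4 (kpc22a_30.enc h1 h2)))))) (kpc22a_34.enc h1 h2)) (enc_mul (qsg.enc (enc_norm (kpc22a_29.enc h1 h2))) (enc_norm (enc_sub (enc_half (kpc22a_29.enc h1 h2)) (kpc22a_42.enc h1 h2)))))) (enc_inv (enc_mul (enc_nat 2 (kpc22a_34.enc h1 h2)) (kpc22a_34.enc h1 h2))))) (enc_mul (enc_norm (enc_mul (enc_norm (kpc22a_29.enc h1 h2)) (kcg.enc (enc_norm (enc_sub (enc_scale 3 4 (kpc22a_29.enc h1 h2)) (enc_half (kpc22a_30.enc h1 h2)))) h2))) (enc_norm (enc_sub (enc_sub (enc_pnc _ 1) (gug.enc (enc_norm (kpc22a_29.enc h1 h2)))) (enc_nat 2 (kpc22a_30.enc h1 h2)))))) (enc_mul (kpc22a_3.enc h1 h2) (enc_norm (enc_add (enc_sub (enc_rat _ 74135639273 28750000000) (enc_scale 993051663 449218750 (yag.enc h1))) (enc_mul (enc_norm (kpc22a_5.enc h1 h2)) (enc_norm (enc_sub (enc_rat _ 27141437 2875000000) (enc_scale 1131013 179687500 (yag.enc h1)))))))))))⟩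
noncomputable def knc22a : Fn2 := ⟨_, _, fun h1 h2 => (enc_norm (enc_add (enc_mul (enc_norm (enc_add (enc_pnc _ 1) (enc_mul (mug3.enc h2) (gug.enc h2)))) (kfc22a.enc h1 h2)) (enc_mul (mug3.enc h2) (kpc22a.enc h1 h2))))⟩
noncomputable def kpc22b_5 : Fn2 := ⟨_, _, fun h1 h2 => (enc_subr 3 32 h2)⟩
noncomputable def kpc22b_29 : Fn2 := ⟨_, _, fun h1 h2 => (enc_subn 1 h1)⟩
noncomputable def kpc22b_30 : Fn2 := ⟨_, _, fun h1 h2 => (gsg.enc (enc_norm (kpc22b_29.enc h1 h2)))⟩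
noncomputable def kpc22b_34 : Fn2 := ⟨_, _, fun h1 h2 => (esg.enc (enc_norm (kpc22b_29.enc h1 h2)))⟩
noncomputable def kpc22b_42 : Fn2 := ⟨_, _, fun h1 h2 => (enc_mul (enc_scale 3 4 (enc_sq (enc_norm (kpc22b_29.enc h1 h2)))) (enc_inv (kpc22b_30.enc h1 h2)))⟩
noncomputable def kpc22b : Fn2 := ⟨_, _, fun h1 h2 => (enc_norm (enc_case (enc_subr 67 64 h1) (enc_mul (cv2p.enc h1) (enc_norm (enc_add (enc_subr 16071141 156250000 (enc_scale 16071141 156250000 h1)) (enc_mul (enc_norm (kpc22b_5.enc h1 h2)) (enc_norm (enc_subr 474877 7812500 (enc_scale 474877 7812500 h1))))))) (enc_case (enc_subr 73 64 h1) (enc_add (enc_sub (kug.enc (enc_norm (kpc22b_29.enc h1 h2))) (enc_mul (enc_norm (enc_sub (enc_mul (enc_norm (enc_mul (enc_norm (kpc22b_42.enc h1 h2)) (enc_norm (enc_subn 3 (enc_nat 4 (kpc22b_30.enc h1 h2)))))) (kpc22b_34.enc h1 h2)) (enc_mul (qsg.enc (enc_norm (kpc22b_29.enc h1 h2)))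 (enc_norm (enc_sub (enc_half (kpc22b_29.enc h1 h2)) (kpc22b_42.enc h1 h2)))))) (enc_inv (enc_mul (enc_nat 2 (kpc22b_34.enc h1 h2)) (kpc22b_34.enc h1 h2))))) (enc_mul (enc_norm (enc_mul (enc_norm (kpc22b_29.enc h1 h2)) (kcg.enc (enc_norm (enc_sub (enc_scale 3 4 (kpc22b_29.enc h1 h2)) (enc_half (kpc22b_30.enc h1 h2)))) h2))) (enc_norm (enc_sub (enc_sub (enc_pnc _ 1) (gug.enc (enc_norm (kpc22b_29.enc h1 h2)))) (enc_nat 2 (kpc22b_30.enc h1 h2)))))) (enc_mul (cv2p.enc h1) (enc_norm (enc_add (enc_sub (enc_rat _ 74135639273 28750000000) (enc_scale 993051663 449218750 h1)) (enc_mul (enc_norm (kpc22b_5.enc h1 h2)) (enc_norm (enc_sub (enc_rat _ 27141437 2875000000) (enc_scale 1131013 179687500 h1))))))))))⟩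
noncomputable def knc22b : Fn2 := ⟨_, _, fun h1 h2 => (enc_norm (enc_add (enc_mul (enc_norm (enc_add (enc_pnc _ 1) (enc_mul (mug3.enc h2) (gug.enc h2)))) (kfc22b.enc h1 h2)) (enc_mul (mug3.enc h2) (kpc22b.enc h1 h2))))⟩
noncomputable def bd2q3_3 : Fn2 := ⟨_, _, fun h1 h2 => (enc_subr 3 32 h2)⟩
noncomputable def bd2q3 : Fn2 := ⟨_, _, fun h1 h2 => (enc_norm (enc_case (enc_subr 19 10 h1) (enc_add (enc_sub (enc_rat _ 213017233 20000000) (enc_scale 15814871 2000000 h1)) (enc_mul (enc_norm (bd2q3_3.enc h1 h2)) (enc_norm (enc_sub (enc_rat _ 2049 4000000) (enc_scale 23 80000 h1))))) (enc_add (enc_sub (enc_rat _ 53254313 5000000) (enc_scale 1976859 250000 h1)) (enc_mul (enc_norm (bd2q3_3.enc h1 h2)) (enc_norm (enc_sub (enc_rat _ 517 1000000) (enc_scale 29 100000 h1)))))))⟩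
noncomputable def kp2q3 : Fn2 := ⟨_, _, fun h1 h2 => (enc_norm (enc_mul (cv2r.enc h1) (bd2q3.enc h1 h2)))⟩
noncomputable def kn2q3 : Fn2 := ⟨_, _, fun h1 h2 => (enc_norm (enc_add (enc_mul (enc_norm (enc_add (enc_pnc _ 1) (enc_mul (mug3.enc h2) (gug.enc h2)))) (kf2q3.enc h1 h2)) (enc_mul (mug3.enc h2) (kp2q3.enc h1 h2))))⟩
noncomputable def bd3q0_3 : Fn2 := ⟨_, _, fun h1 h2 => (enc_subr 3 32 h2)⟩
noncomputable def bd3q0_8 : Fn2 := ⟨_, _, fun h1 h2 => (enc_add (enc_scale 89277 62500 h1) (enc_rat _ 6282877 10000000))⟩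
noncomputable def bd3q0 : Fn2 := ⟨_, _, fun h1 h2 => (enc_norm (enc_case (enc_subr 1 10 h1) (enc_add (bd3q0_8.enc h1 h2) (enc_mul (enc_norm (bd3q0_3.enc h1 h2)) (enc_norm (enc_sub (enc_rat _ 113 200000) (enc_scale 181 100000 h1))))) (enc_add (bd3q0_8.enc h1 h2) (enc_mul (enc_norm (bd3q0_3.enc h1 h2)) (enc_norm (enc_sub (enc_rat _ 141 250000) (enc_scale 9 5000 h1)))))))⟩
noncomputable def kp3q0 : Fn2 := ⟨_, _, fun h1 h2 => (enc_norm (enc_mul (cv3m.enc h1) (bd3q0.enc h1 h2)))⟩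
noncomputable def kn3q0 : Fn2 := ⟨_, _, fun h1 h2 => (enc_norm (enc_add (enc_mul (enc_norm (enc_add (enc_pnc _ 1) (enc_mul (mug3.enc h2) (gug.enc h2)))) (kf3q0.enc h1 h2)) (enc_mul (mug3.enc h2) (kp3q0.enc h1 h2))))⟩
noncomputable def bd3q1_3 : Fn2 := ⟨_, _, fun h1 h2 => (enc_subr 3 32 h2)⟩
noncomputable def bd3q1 : Fn2 := ⟨_, _, fun h1 h2 => (enc_norm (enc_case (enc_subr 9 10 h1) (enc_add (enc_subr 4720441 20000000 (enc_scale 472049 2000000 h1)) (enc_mul (enc_norm (bd3q1_3.enc h1 h2)) (enc_norm (enc_subr 3961 800000 (enc_scale 1957 400000 h1))))) (enc_add (enc_subr 59 250 (enc_scale 59 250 h1)) (enc_mul (enc_norm (bd3q1_3.enc h1 h2)) (enc_norm (enc_subr 137 25000 (enc_scale 137 25000 h1)))))))⟩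
noncomputable def kp3q1 : Fn2 := ⟨_, _, fun h1 h2 => (enc_norm (enc_mul (cv3m.enc h1) (bd3q1.enc h1 h2)))⟩
noncomputable def kn3q1 : Fn2 := ⟨_, _, fun h1 h2 => (enc_norm (enc_add (enc_mul (enc_norm (enc_add (enc_pnc _ 1) (enc_mul (mug3.enc h2) (gug.enc h2)))) (kf3q1.enc h1 h2)) (enc_mul (mug3.enc h2) (kp3q1.enc h1 h2))))⟩
noncomputable def bd3q2_3 : Fn2 := ⟨_, _, fun h1 h2 => (enc_subr 3 32 h2)⟩
noncomputable def bd3q2 : Fn2 := ⟨_, _, fun h1 h2 => (enc_norm (enc_case (enc_subr 11 10 h1) (enc_add (enc_sub (enc_rat _ 12788813 10000000) (enc_scale 252797 250000 h1)) (enc_mul (enc_norm (bd3q2_3.enc h1 h2)) (enc_norm (enc_subr 1879 100000 (enc_scale 1313 100000 h1))))) (enc_add (enc_sub (enc_rat _ 25577703 20000000) (enc_scale 2022383 2000000 h1)) (enc_mul (enc_norm (bd3q2_3.enc h1 h2)) (enc_norm (enc_subr 36799 2000000 (enc_scale 511 40000 h1)))))))⟩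
noncomputable def kp3q2 : Fn2 := ⟨_, _, fun h1 h2 => (enc_norm (enc_mul (cv3p.enc h1) (bd3q2.enc h1 h2)))⟩
noncomputable def kn3q2 : Fn2 := ⟨_, _, fun h1 h2 => (enc_norm (enc_add (enc_mul (enc_norm (enc_add (enc_pnc _ 1) (enc_mul (mug3.enc h2) (gug.enc h2)))) (kf3q2.enc h1 h2)) (enc_mul (mug3.enc h2) (kp3q2.enc h1 h2))))⟩
noncomputable def bd3q3_3 : Fn2 := ⟨_, _, fun h1 h2 => (enc_subr 3 32 h2)⟩
noncomputable def bd3q3 : Fn2 := ⟨_, _, fun h1 h2 => (enc_norm (enc_case (enc_subr 19 10 h1) (enc_add (enc_sub (enc_rat _ 203061701 20000000) (enc_scale 2030617 400000 h1)) (enc_mul (enc_norm (bd3q3_3.enc h1 h2)) (enc_norm (enc_sub (enc_rat _ 1581 4000000) (enc_scale 79 400000 h1))))) (enc_add (enc_sub (enc_rat _ 5076543 500000) (enc_scale 5076543 1000000 h1)) (enc_mul (enc_norm (bd3q3_3.enc h1 h2)) (enc_norm (enc_sub (enc_rat _ 1 2500) (enc_scale 1 5000 h1)))))))⟩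
noncomputable def kpc33 : Fn2 := ⟨_, _, fun h1 h2 => (enc_norm (enc_mul (enc_norm (enc_add (enc_scale 3 5 (enc_subr 1 2 (swg.enc (ycg.enc h1)))) (enc_scale 2 5 h1))) (bd3q3.enc (ycg.enc h1) h2)))⟩
noncomputable def knc33 : Fn2 := ⟨_, _, fun h1 h2 => (enc_norm (enc_add (enc_mul (enc_norm (enc_add (enc_pnc _ 1) (enc_mul (mug3.enc h2) (gug.enc h2)))) (kfc33.enc h1 h2)) (enc_mul (mug3.enc h2) (kpc33.enc h1 h2))))⟩
noncomputable def kp4q0_3 : Fn2 := ⟨_, _, fun h1 h2 => (enc_subr 3 32 h2)⟩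
noncomputable def kp4q0_12 : Fn2 := ⟨_, _, fun h1 h2 => (enc_sub (enc_rat _ 856141 2000000) (enc_scale 537903 1000000 h1))⟩
noncomputable def kp4q0 : Fn2 := ⟨_, _, fun h1 h2 => (enc_norm (enc_mul h1 (enc_norm (enc_case (enc_subr 1 10 (enc_half h1)) (enc_add (kp4q0_12.enc h1 h2) (enc_mul (enc_norm (kp4q0_3.enc h1 h2)) (enc_norm (enc_sub (enc_rat _ 81 250000) (enc_scale 713 100000 h1))))) (enc_add (kp4q0_12.enc h1 h2) (enc_mul (enc_norm (kp4q0_3.enc h1 h2)) (enc_norm (enc_sub (enc_rat _ 331 1000000) (enc_scale 1433 200000 h1)))))))))⟩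
noncomputable def kn4q0 : Fn2 := ⟨_, _, fun h1 h2 => (enc_norm (enc_add (enc_mul (enc_norm (enc_add (enc_pnc _ 1) (enc_mul (mug3.enc h2) (gug.enc h2)))) (kf4q0.enc h1 h2)) (enc_mul (mug3.enc h2) (kp4q0.enc h1 h2))))⟩
noncomputable def kp4q1_3 : Fn2 := ⟨_, _, fun h1 h2 => (enc_subr 3 32 h2)⟩
noncomputable def kp4q1_13 : Fn2 := ⟨_, _, fun h1 h2 => (enc_sub (enc_rat _ 856141 2000000) (enc_scale 537903 1000000 h1))⟩
noncomputable def kp4q1 : Fn2 := ⟨_, _, fun h1 h2 => (enc_norm (enc_mul (enc_norm (enc_subn 1 h1)) (enc_norm (enc_case (enc_subr 1 10 (enc_half h1)) (enc_add (kp4q1_13.enc h1 h2) (enc_mul (enc_norm (kp4q1_3.enc h1 h2)) (enc_norm (enc_sub (enc_rat _ 81 250000) (enc_scale 713 100000 h1))))) (enc_add (kp4q1_13.enc h1 h2) (enc_mul (enc_norm (kp4q1_3.enc h1 h2)) (enc_norm (enc_sub (enc_rat _ 331 1000000) (enc_scale 1433 200000 h1)))))))))⟩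
noncomputable def kn4q1 : Fn2 := ⟨_, _, fun h1 h2 => (enc_norm (enc_add (enc_mul (enc_norm (enc_add (enc_pnc _ 1) (enc_mul (mug3.enc h2) (gug.enc h2)))) (kf4q1.enc h1 h2)) (enc_mul (mug3.enc h2) (kp4q1.enc h1 h2))))⟩
noncomputable def kp4q2_3 : Fn2 := ⟨_, _, fun h1 h2 => (enc_subr 3 32 h2)⟩
noncomputable def kp4q2_9 : Fn2 := ⟨_, _, fun h1 h2 => (enc_sub (enc_half (c3g.enc h1)) (enc_scale 1 4 h1))⟩
noncomputable def kp4q2 : Fn2 := ⟨_, _, fun h1 h2 => (enc_norm (enc_mul (enc_norm (enc_subn 1 h1)) (enc_norm (enc_case (enc_add (kp4q2_9.enc h1 h2) (enc_rat _ 2 5)) (enc_add (enc_add (enc_scale 243177 1000000 (kp4q2_9.enc h1 h2)) (enc_rat _ 1262769 10000000)) (enc_mul (enc_norm (kp4q2_3.enc h1 h2)) (enc_norm (enc_subr 1533 250000 (enc_neg (enc_scale 597 50000 (kp4q2_9.enc h1 h2))))))) (enc_add (enc_add (enc_scale 437723 1800000 (kp4q2_9.enc h1 h2)) (enc_rat _ 11365009 90000000))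 (enc_mul (enc_norm (kp4q2_3.enc h1 h2)) (enc_norm (enc_subr 1729 281250 (enc_neg (enc_scale 10781 900000 (kp4q2_9.enc h1 h2)))))))))))⟩
noncomputable def kn4q2 : Fn2 := ⟨_, _, fun h1 h2 => (enc_norm (enc_add (enc_mul (enc_norm (enc_add (enc_pnc _ 1) (enc_mul (mug3.enc h2) (gug.enc h2)))) (kf4q2.enc h1 h2)) (enc_mul (mug3.enc h2) (kp4q2.enc h1 h2))))⟩
noncomputable def kpc43_4 : Fn2 := ⟨_, _, fun h1 h2 => (enc_subr 3 32 h2)⟩
noncomputable def kpc43_9 : Fn2 := ⟨_, _, fun h1 h2 => (enc_sub (enc_half h1) (enc_scale 1 4 (ycg.enc h1)))⟩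
noncomputable def kpc43 : Fn2 := ⟨_, _, fun h1 h2 => (enc_norm (enc_mul (enc_norm (enc_subn 2 (ycg.enc h1))) (enc_norm (enc_case (enc_add (kpc43_9.enc h1 h2) (enc_rat _ 2 5)) (enc_add (enc_add (enc_scale 243177 1000000 (kpc43_9.enc h1 h2)) (enc_rat _ 1262769 10000000)) (enc_mul (enc_norm (kpc43_4.enc h1 h2)) (enc_norm (enc_subr 1533 250000 (enc_neg (enc_scale 597 50000 (kpc43_9.enc h1 h2))))))) (enc_add (enc_add (enc_scale 437723 1800000 (kpc43_9.enc h1 h2)) (enc_rat _ 11365009 90000000)) (enc_mul (enc_norm (kpc43_4.enc h1 h2)) (enc_norm (enc_subr 1729 281250 (enc_neg (enc_scale 10781 900000 (kpc43_9.enc h1 h2)))))))))))⟩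
noncomputable def knc43 : Fn2 := ⟨_, _, fun h1 h2 => (enc_norm (enc_add (enc_mul (enc_norm (enc_add (enc_pnc _ 1) (enc_mul (mug3.enc h2) (gug.enc h2)))) (kfc43.enc h1 h2)) (enc_mul (mug3.enc h2) (kpc43.enc h1 h2))))⟩
noncomputable def bn3q0 : Fn2 := ⟨_, _, fun h1 h2 => (enc_norm (enc_add (enc_mul (enc_norm (enc_add (enc_pnc _ 1) (enc_mul (mug3.enc h2) (gug.enc h2)))) (bf3q0.enc h1 h2)) (enc_mul (mug3.enc h2) (bd3q0.enc h1 h2))))⟩
noncomputable def bn2q0 : Fn2 := ⟨_, _, fun h1 h2 => (enc_norm (enc_add (enc_mul (enc_norm (enc_add (enc_pnc _ 1) (enc_mul (mug3.enc h2) (gug.enc h2)))) (bf2q0.enc h1 h2)) (enc_mul (mug3.enc h2) (bd2q0.enc h1 h2))))⟩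
noncomputable def bn1q0 : Fn2 := ⟨_, _, fun h1 h2 => (enc_norm (enc_add (enc_mul (enc_norm (enc_add (enc_pnc _ 1) (enc_mul (mug3.enc h2) (gug.enc h2)))) (bf1q0.enc h1 h2)) (enc_mul (mug3.enc h2) (bd1q0.enc h1 h2))))⟩
noncomputable def rknq0 : Fn3 := ⟨_, _, fun h1 h2 h3 => (enc_case (enc_sub h1 (cv1m.enc h2)) (enc_add (enc_mul h1 (bn1q0.enc h2 h3)) (enc_mul (enc_norm (enc_sub (enc_pnc _ 1) (lm0m.enc h1 h2))) (enc_norm (enc_sub (kn0q0.enc h2 h3) (enc_mul (c1g.enc h2) (bn1q0.enc h2 h3)))))) (enc_case (enc_sub h1 (cv2m.enc h2)) (enc_add (enc_mul h1 (bn2q0.enc h2 h3)) (enc_mul (enc_norm (enc_mul (enc_norm (enc_sub (enc_pnc _ 1) (lm1m.enc h1 h2))) (cv1m.enc h2))) (enc_norm (enc_sub (bn1q0.enc h2 h3) (bn2q0.enc h2 h3))))) (enc_case (enc_sub h1 (cv3m.enc h2)) (enc_add (enc_mul h1 (bn3q0.enc h2 h3)) (enc_mul (enc_norm (enc_mul (enc_norm (enc_sub (enc_pnc _ 1) (lm2m.enc h1 h2)))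 (cv2m.enc h2))) (enc_norm (enc_sub (bn2q0.enc h2 h3) (bn3q0.enc h2 h3))))) (enc_add (kn3q0.enc h2 h3) (enc_mul (lm3m.enc h1 h2) (enc_norm (enc_sub (kn4q0.enc h2 h3) (kn3q0.enc h2 h3))))))))⟩
noncomputable def rsnq0 : Fn3 := ⟨_, _, fun h1 h2 h3 => (enc_case h1 (enc_neg (rknq0.enc (enc_neg h1) h2 h3)) (rknq0.enc h1 h2 h3))⟩
noncomputable def bn3q1 : Fn2 := ⟨_, _, fun h1 h2 => (enc_norm (enc_add (enc_mul (enc_norm (enc_add (enc_pnc _ 1) (enc_mul (mug3.enc h2) (gug.enc h2)))) (bf3q1.enc h1 h2)) (enc_mul (mug3.enc h2) (bd3q1.enc h1 h2))))⟩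
noncomputable def bd2q1_3 : Fn2 := ⟨_, _, fun h1 h2 => (enc_subr 3 32 h2)⟩
noncomputable def bd2q1 : Fn2 := ⟨_, _, fun h1 h2 => (enc_norm (enc_case (enc_subr 29 32 h1) (enc_add (enc_subr 1473761431 898437500 (enc_scale 3534529849 1796875000 h1)) (enc_mul (enc_norm (bd2q1_3.enc h1 h2)) (enc_norm (enc_add (enc_scale 352829 179687500 h1) (enc_rat _ 1187993 2875000000))))) (enc_add (enc_sub (enc_rat _ 11034911 117187500) (enc_scale 11034911 117187500 h1)) (enc_mul (enc_norm (bd2q1_3.enc h1 h2)) (enc_norm (enc_sub (enc_rat _ 1391209 23437500) (enc_scale 1391209 23437500 h1)))))))⟩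
noncomputable def bn2q1 : Fn2 := ⟨_, _, fun h1 h2 => (enc_norm (enc_add (enc_mul (enc_norm (enc_add (enc_pnc _ 1) (enc_mul (mug3.enc h2) (gug.enc h2)))) (bf2q1.enc h1 h2)) (enc_mul (mug3.enc h2) (bd2q1.enc h1 h2))))⟩
noncomputable def bn1q1 : Fn2 := ⟨_, _, fun h1 h2 => (enc_norm (enc_add (enc_mul (enc_norm (enc_add (enc_pnc _ 1) (enc_mul (mug3.enc h2) (gug.enc h2)))) (bf1q1.enc h1 h2)) (enc_mul (mug3.enc h2) (bd1q1.enc h1 h2))))⟩
noncomputable def rknq1_35 : Fn3 := ⟨_, _, fun h1 h2 h3 => (enc_add (enc_mul h1 (bn2q1.enc h2 h3)) (enc_mul (enc_norm (enc_mul (enc_norm (enc_sub (enc_pnc _ 1) (lm1m.enc h1 h2))) (cv1m.enc h2))) (enc_norm (enc_sub (bn1q1.enc h2 h3) (bn2q1.enc h2 h3)))))⟩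
noncomputable def rknq1_41 : Fn3 := ⟨_, _, fun h1 h2 h3 => (enc_sub (enc_pnc _ 1) h2)⟩
noncomputable def rknq1_42 : Fn3 := ⟨_, _, fun h1 h2 h3 => (gsg.enc (enc_norm (rknq1_41.enc h1 h2 h3)))⟩
noncomputable def rknq1_46 : Fn3 := ⟨_, _, fun h1 h2 h3 => (esg.enc (enc_norm (rknq1_41.enc h1 h2 h3)))⟩
noncomputable def rknq1_47 : Fn3 := ⟨_, _, fun h1 h2 h3 => (kcg.enc (enc_norm (enc_sub (enc_scale 3 4 (rknq1_41.enc h1 h2 h3)) (enc_half (rknq1_42.enc h1 h2 h3)))) h3)⟩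
noncomputable def rknq1_48 : Fn3 := ⟨_, _, fun h1 h2 h3 => (enc_scale 3 2 (rknq1_41.enc h1 h2 h3))⟩
noncomputable def rknq1_50 : Fn3 := ⟨_, _, fun h1 h2 h3 => (enc_add (enc_pnc _ 1) (rknq1_42.enc h1 h2 h3))⟩
noncomputable def rknq1_59 : Fn3 := ⟨_, _, fun h1 h2 h3 => (enc_mul (enc_scale 3 4 (enc_sq (enc_norm (rknq1_41.enc h1 h2 h3)))) (enc_inv (rknq1_42.enc h1 h2 h3)))⟩
noncomputable def rknq1_60 : Fn3 := ⟨_, _, fun h1 h2 h3 => (enc_sub (enc_half (rknq1_41.enc h1 h2 h3)) (rknq1_59.enc h1 h2 h3))⟩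
noncomputable def rknq1_61 : Fn3 := ⟨_, _, fun h1 h2 h3 => (enc_nat 2 (rknq1_46.enc h1 h2 h3))⟩
noncomputable def rknq1 : Fn3 := ⟨_, _, fun h1 h2 h3 => (enc_case (enc_sub h1 (cv1m.enc h2)) (enc_add (enc_mul h1 (bn1q1.enc h2 h3)) (enc_mul (enc_norm (enc_sub (enc_pnc _ 1) (lm0m.enc h1 h2))) (enc_norm (enc_sub (kn0q1.enc h2 h3) (enc_mul (c1g.enc h2) (bn1q1.enc h2 h3)))))) (enc_case (enc_sub h1 (cv2m.enc h2)) (enc_case (enc_subr 55 64 h2) (rknq1_35.enc h1 h2 h3) (enc_case (enc_subr 61 64 h2) (enc_add (kn1q1.enc h2 h3) (enc_mul (lm1m.enc h1 h2) (enc_norm (enc_sub (enc_add (enc_mul (enc_norm (enc_add (enc_pnc _ 1) (enc_mul (mug3.enc h3) (gug.enc h3)))) (enc_norm (enc_add (enc_add (enc_mul (enc_norm (enc_mul (enc_norm (enc_sub (rknq1_42.enc h1 h2 h3) (rknq1_48.enc h1 h2 h3))) (enc_norm (rknq1_50.enc h1 h2 h3)))) (enc_inv (enc_sub (rknq1_50.enc h1 h2 h3) (rknq1_48.enc h1 h2 h3))))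 (enc_mul (enc_norm (rknq1_60.enc h1 h2 h3)) (enc_inv (rknq1_61.enc h1 h2 h3)))) (enc_mul (rknq1_47.enc h1 h2 h3) (enc_norm (rknq1_41.enc h1 h2 h3)))))) (enc_mul (mug3.enc h3) (enc_norm (enc_sub (enc_add (kug.enc (enc_norm (rknq1_41.enc h1 h2 h3))) (enc_mul (enc_norm (enc_sub (enc_mul (enc_norm (enc_mul (enc_norm (rknq1_59.enc h1 h2 h3)) (enc_norm (enc_subn 3 (enc_nat 4 (rknq1_42.enc h1 h2 h3)))))) (rknq1_46.enc h1 h2 h3)) (enc_mul (qsg.enc (enc_norm (rknq1_41.enc h1 h2 h3))) (enc_norm (rknq1_60.enc h1 h2 h3))))) (enc_inv (enc_mul (rknq1_61.enc h1 h2 h3) (rknq1_46.enc h1 h2 h3))))) (enc_mul (enc_norm (enc_mul (enc_norm (rknq1_41.enc h1 h2 h3)) (rknq1_47.enc h1 h2 h3))) (enc_norm (enc_add (enc_add (enc_pnc _ 1) (gug.enc (enc_norm (rknq1_41.enc h1 h2 h3)))) (enc_nat 2 (rknq1_42.enc h1 h2 h3))))))))) (kn1q1.enc h2 h3))))) (rknq1_35.enc h1 h2 h3))) (enc_case (enc_sub h1 (cv3m.enc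 h2)) (enc_add (enc_mul h1 (bn3q1.enc h2 h3)) (enc_mul (enc_norm (enc_sub (enc_pnc _ 1) (lm2m.enc h1 h2))) (enc_norm (enc_sub (kn2q1.enc h2 h3) (enc_mul (cv2m.enc h2) (bn3q1.enc h2 h3)))))) (enc_add (kn3q1.enc h2 h3) (enc_mul (lm3m.enc h1 h2) (enc_norm (enc_sub (kn4q1.enc h2 h3) (kn3q1.enc h2 h3))))))))⟩
noncomputable def rsnq1 : Fn3 := ⟨_, _, fun h1 h2 h3 => (enc_case h1 (enc_neg (rknq1.enc (enc_neg h1) h2 h3)) (rknq1.enc h1 h2 h3))⟩
noncomputable def bn3q2 : Fn2 := ⟨_, _, fun h1 h2 => (enc_norm (enc_add (enc_mul (enc_norm (enc_add (enc_pnc _ 1) (enc_mul (mug3.enc h2) (gug.enc h2)))) (bf3q2.enc h1 h2)) (enc_mul (mug3.enc h2) (bd3q2.enc h1 h2))))⟩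
noncomputable def kp2q2_4 : Fn2 := ⟨_, _, fun h1 h2 => (enc_subr 3 32 h2)⟩
noncomputable def kp2q2_28 : Fn2 := ⟨_, _, fun h1 h2 => (enc_subn 1 h1)⟩
noncomputable def kp2q2_29 : Fn2 := ⟨_, _, fun h1 h2 => (gsg.enc (enc_norm (kp2q2_28.enc h1 h2)))⟩
noncomputable def kp2q2_33 : Fn2 := ⟨_, _, fun h1 h2 => (esg.enc (enc_norm (kp2q2_28.enc h1 h2)))⟩
noncomputable def kp2q2_41 : Fn2 := ⟨_, _, fun h1 h2 => (enc_mul (enc_scale 3 4 (enc_sq (enc_norm (kp2q2_28.enc h1 h2)))) (enc_inv (kp2q2_29.enc h1 h2)))⟩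
noncomputable def kp2q2 : Fn2 := ⟨_, _, fun h1 h2 => (enc_norm (enc_case (enc_subr 67 64 h1) (enc_mul (cv2p.enc h1) (enc_norm (enc_add (enc_subr 16071141 156250000 (enc_scale 16071141 156250000 h1)) (enc_mul (enc_norm (kp2q2_4.enc h1 h2)) (enc_norm (enc_subr 474877 7812500 (enc_scale 474877 7812500 h1))))))) (enc_case (enc_subr 73 64 h1) (enc_add (enc_sub (kug.enc (enc_norm (kp2q2_28.enc h1 h2))) (enc_mul (enc_norm (enc_sub (enc_mul (enc_norm (enc_mul (enc_norm (kp2q2_41.enc h1 h2)) (enc_norm (enc_subn 3 (enc_nat 4 (kp2q2_29.enc h1 h2)))))) (kp2q2_33.enc h1 h2)) (enc_mul (qsg.enc (enc_norm (kp2q2_28.enc h1 h2))) (enc_norm (enc_sub (enc_half (kp2q2_28.enc h1 h2)) (kp2q2_41.enc h1 h2)))))) (enc_inv (enc_mul (enc_nat 2 (kp2q2_33.enc h1 h2)) (kp2q2_33.enc h1 h2))))) (enc_mul (enc_norm (enc_mul (enc_norm (kp2q2_28.enc h1 h2)) (kcg.enc (enc_norm (enc_sub (enc_scale 3 4 (kp2q2_28.enc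 h1 h2)) (enc_half (kp2q2_29.enc h1 h2)))) h2))) (enc_norm (enc_sub (enc_sub (enc_pnc _ 1) (gug.enc (enc_norm (kp2q2_28.enc h1 h2)))) (enc_nat 2 (kp2q2_29.enc h1 h2)))))) (enc_mul (cv2p.enc h1) (enc_norm (enc_add (enc_sub (enc_rat _ 74135639273 28750000000) (enc_scale 993051663 449218750 h1)) (enc_mul (enc_norm (kp2q2_4.enc h1 h2)) (enc_norm (enc_sub (enc_rat _ 27141437 2875000000) (enc_scale 1131013 179687500 h1))))))))))⟩
noncomputable def kn2q2 : Fn2 := ⟨_, _, fun h1 h2 => (enc_norm (enc_add (enc_mul (enc_norm (enc_add (enc_pnc _ 1) (enc_mul (mug3.enc h2) (gug.enc h2)))) (kf2q2.enc h1 h2)) (enc_mul (mug3.enc h2) (kp2q2.enc h1 h2))))⟩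
noncomputable def bd2q2_3 : Fn2 := ⟨_, _, fun h1 h2 => (enc_subr 3 32 h2)⟩
noncomputable def bd2q2 : Fn2 := ⟨_, _, fun h1 h2 => (enc_norm (enc_case (enc_subr 35 32 h1) (enc_add (enc_subr 16071141 156250000 (enc_scale 16071141 156250000 h1)) (enc_mul (enc_norm (bd2q2_3.enc h1 h2)) (enc_norm (enc_subr 474877 7812500 (enc_scale 474877 7812500 h1))))) (enc_add (enc_sub (enc_rat _ 74135639273 28750000000) (enc_scale 993051663 449218750 h1)) (enc_mul (enc_norm (bd2q2_3.enc h1 h2)) (enc_norm (enc_sub (enc_rat _ 27141437 2875000000) (enc_scale 1131013 179687500 h1)))))))⟩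
noncomputable def bn2q2 : Fn2 := ⟨_, _, fun h1 h2 => (enc_norm (enc_add (enc_mul (enc_norm (enc_add (enc_pnc _ 1) (enc_mul (mug3.enc h2) (gug.enc h2)))) (bf2q2.enc h1 h2)) (enc_mul (mug3.enc h2) (bd2q2.enc h1 h2))))⟩
noncomputable def bn1q2 : Fn2 := ⟨_, _, fun h1 h2 => (enc_norm (enc_add (enc_mul (enc_norm (enc_add (enc_pnc _ 1) (enc_mul (mug3.enc h2) (gug.enc h2)))) (bf1q2.enc h1 h2)) (enc_mul (mug3.enc h2) (bd1q2.enc h1 h2))))⟩
noncomputable def kp1q2 : Fn2 := ⟨_, _, fun h1 h2 => (enc_norm (enc_mul (cv1p.enc h1) (bd1q2.enc h1 h2)))⟩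
noncomputable def kn1q2 : Fn2 := ⟨_, _, fun h1 h2 => (enc_norm (enc_add (enc_mul (enc_norm (enc_add (enc_pnc _ 1) (enc_mul (mug3.enc h2) (gug.enc h2)))) (kf1q2.enc h1 h2)) (enc_mul (mug3.enc h2) (kp1q2.enc h1 h2))))⟩
noncomputable def kp0q2_3 : Fn2 := ⟨_, _, fun h1 h2 => (enc_subr 3 32 h2)⟩
noncomputable def kp0q2 : Fn2 := ⟨_, _, fun h1 h2 => (enc_norm (enc_mul (enc_norm (enc_subn 1 h1)) (enc_norm (enc_case (enc_subr 1 10 (c1g.enc h1)) (enc_sub (enc_neg (enc_scale 20239 100000 (c1g.enc h1))) (enc_mul (enc_norm (kp0q2_3.enc h1 h2)) (enc_scale 133 6250 (c1g.enc h1)))) (enc_add (enc_sub (enc_rat _ 1 2000000) (enc_scale 40479 200000 (c1g.enc h1))) (enc_mul (enc_norm (kp0q2_3.enc h1 h2)) (enc_norm (enc_sub (enc_rat _ 1587 2000000) (enc_scale 5843 200000 (c1g.enc h1))))))))))⟩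
noncomputable def kn0q2 : Fn2 := ⟨_, _, fun h1 h2 => (enc_norm (enc_add (enc_mul (enc_norm (enc_add (enc_pnc _ 1) (enc_mul (mug3.enc h2) (gug.enc h2)))) (kf0q2.enc h1 h2)) (enc_mul (mug3.enc h2) (kp0q2.enc h1 h2))))⟩
noncomputable def n0d : Fn2 := ⟨_, _, fun h1 h2 => (enc_norm (enc_mul (enc_norm (enc_subn 1 h1)) (enc_norm (enc_subr 20239 100000 (enc_neg (enc_scale 133 6250 (enc_subr 3 32 h2)))))))⟩
noncomputable def n0n : Fn2 := ⟨_, _, fun h1 h2 => (enc_norm (enc_add (enc_mul (enc_norm (enc_add (enc_pnc _ 1) (enc_mul (mug3.enc h2) (gug.enc h2)))) (n0b.enc h1 h2)) (enc_mul (mug3.enc h2) (n0d.enc h1 h2))))⟩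
noncomputable def rknq2_35 : Fn3 := ⟨_, _, fun h1 h2 h3 => (enc_add (enc_mul h1 (bn2q2.enc h2 h3)) (enc_mul (enc_norm (enc_mul (enc_norm (enc_sub (enc_pnc _ 1) (lm1p.enc h1 h2))) (cv1p.enc h2))) (enc_norm (enc_sub (bn1q2.enc h2 h3) (bn2q2.enc h2 h3)))))⟩
noncomputable def rknq2_40 : Fn3 := ⟨_, _, fun h1 h2 h3 => (enc_subn 1 h2)⟩
noncomputable def rknq2_41 : Fn3 := ⟨_, _, fun h1 h2 h3 => (gsg.enc (enc_norm (rknq2_40.enc h1 h2 h3)))⟩
noncomputable def rknq2_45 : Fn3 := ⟨_, _, fun h1 h2 h3 => (esg.enc (enc_norm (rknq2_40.enc h1 h2 h3)))⟩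
noncomputable def rknq2_46 : Fn3 := ⟨_, _, fun h1 h2 h3 => (kcg.enc (enc_norm (enc_sub (enc_scale 3 4 (rknq2_40.enc h1 h2 h3)) (enc_half (rknq2_41.enc h1 h2 h3)))) h3)⟩
noncomputable def rknq2_47 : Fn3 := ⟨_, _, fun h1 h2 h3 => (enc_scale 3 2 (rknq2_40.enc h1 h2 h3))⟩
noncomputable def rknq2_49 : Fn3 := ⟨_, _, fun h1 h2 h3 => (enc_add (enc_pnc _ 1) (rknq2_41.enc h1 h2 h3))⟩
noncomputable def rknq2_58 : Fn3 := ⟨_, _, fun h1 h2 h3 => (enc_mul (enc_scale 3 4 (enc_sq (enc_norm (rknq2_40.enc h1 h2 h3)))) (enc_inv (rknq2_41.enc h1 h2 h3)))⟩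
noncomputable def rknq2_59 : Fn3 := ⟨_, _, fun h1 h2 h3 => (enc_sub (enc_half (rknq2_40.enc h1 h2 h3)) (rknq2_58.enc h1 h2 h3))⟩
noncomputable def rknq2_60 : Fn3 := ⟨_, _, fun h1 h2 h3 => (enc_nat 2 (rknq2_45.enc h1 h2 h3))⟩
noncomputable def rknq2_104 : Fn3 := ⟨_, _, fun h1 h2 h3 => (enc_mul h1 (bn1q2.enc h2 h3))⟩
noncomputable def rknq2_106 : Fn3 := ⟨_, _, fun h1 h2 h3 => (enc_sub (enc_pnc _ 1) (lm0p.enc h1 h2))⟩
noncomputable def rknq2 : Fn3 := ⟨_, _, fun h1 h2 h3 => (enc_case (enc_sub h1 (cv1p.enc h2)) (enc_case (enc_subr 1153 1000 h2) (enc_add (rknq2_104.enc h1 h2 h3) (enc_mul (enc_norm (rknq2_106.enc h1 h2 h3)) (enc_norm (enc_sub (kn0q2.enc h2 h3) (enc_mul (c1g.enc h2) (bn1q2.enc h2 h3)))))) (enc_case (enc_subr 2887 2500 h2) (enc_add (rknq2_104.enc h1 h2 h3) (enc_mul (enc_norm (rknq2_106.enc h1 h2 h3)) (enc_norm (enc_mul (c1g.enc h2) (enc_norm (enc_sub (n0n.enc h2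 h3) (bn1q2.enc h2 h3))))))) (rknq2_104.enc h1 h2 h3))) (enc_case (enc_sub h1 (cv2p.enc h2)) (enc_case (enc_subr 67 64 h2) (rknq2_35.enc h1 h2 h3) (enc_case (enc_subr 73 64 h2) (enc_add (kn1q2.enc h2 h3) (enc_mul (lm1p.enc h1 h2) (enc_norm (enc_sub (enc_add (enc_mul (enc_norm (enc_add (enc_pnc _ 1) (enc_mul (mug3.enc h3) (gug.enc h3)))) (enc_norm (enc_add (enc_sub (enc_mul (enc_norm (enc_mul (enc_norm (enc_sub (rknq2_41.enc h1 h2 h3) (rknq2_47.enc h1 h2 h3))) (enc_norm (rknq2_49.enc h1 h2 h3)))) (enc_inv (enc_sub (rknq2_49.enc h1 h2 h3) (rknq2_47.enc h1 h2 h3)))) (enc_mul (enc_norm (rknq2_59.enc h1 h2 h3)) (enc_inv (rknq2_60.enc h1 h2 h3)))) (enc_mul (rknq2_46.enc h1 h2 h3) (enc_norm (rknq2_40.enc h1 h2 h3)))))) (enc_mul (mug3.enc h3) (enc_norm (enc_add (enc_sub (kug.enc (enc_norm (rknq2_40.enc h1 h2 h3))) (enc_mul (enc_norm (enc_sub (enc_mul (enc_norm (enc_mul (enc_norm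 (rknq2_58.enc h1 h2 h3)) (enc_norm (enc_subn 3 (enc_nat 4 (rknq2_41.enc h1 h2 h3)))))) (rknq2_45.enc h1 h2 h3)) (enc_mul (qsg.enc (enc_norm (rknq2_40.enc h1 h2 h3))) (enc_norm (rknq2_59.enc h1 h2 h3))))) (enc_inv (enc_mul (rknq2_60.enc h1 h2 h3) (rknq2_45.enc h1 h2 h3))))) (enc_mul (enc_norm (enc_mul (enc_norm (rknq2_40.enc h1 h2 h3)) (rknq2_46.enc h1 h2 h3))) (enc_norm (enc_sub (enc_sub (enc_pnc _ 1) (gug.enc (enc_norm (rknq2_40.enc h1 h2 h3)))) (enc_nat 2 (rknq2_41.enc h1 h2 h3))))))))) (kn1q2.enc h2 h3))))) (rknq2_35.enc h1 h2 h3))) (enc_case (enc_sub h1 (cv3p.enc h2)) (enc_add (enc_mul h1 (bn3q2.enc h2 h3)) (enc_mul (enc_norm (enc_sub (enc_pnc _ 1) (lm2p.enc h1 h2))) (enc_norm (enc_sub (kn2q2.enc h2 h3) (enc_mul (cv2p.enc h2) (bn3q2.enc h2 h3)))))) (enc_add (kn3q2.enc h2 h3) (enc_mul (lm3p.enc h1 h2) (enc_norm (enc_sub (kn4q2.enc h2 h3) (kn3q2.enc h2 h3))))))))⟩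
noncomputable def rsnq2 : Fn3 := ⟨_, _, fun h1 h2 h3 => (enc_case h1 (enc_neg (rknq2.enc (enc_neg h1) h2 h3)) (rknq2.enc h1 h2 h3))⟩
noncomputable def kp3q3 : Fn2 := ⟨_, _, fun h1 h2 => (enc_norm (enc_mul (cv3r.enc h1) (bd3q3.enc h1 h2)))⟩
noncomputable def kn3q3 : Fn2 := ⟨_, _, fun h1 h2 => (enc_norm (enc_add (enc_mul (enc_norm (enc_add (enc_pnc _ 1) (enc_mul (mug3.enc h2) (gug.enc h2)))) (kf3q3.enc h1 h2)) (enc_mul (mug3.enc h2) (kp3q3.enc h1 h2))))⟩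
noncomputable def kp4q3_3 : Fn2 := ⟨_, _, fun h1 h2 => (enc_subr 3 32 h2)⟩
noncomputable def kp4q3_9 : Fn2 := ⟨_, _, fun h1 h2 => (enc_sub (enc_half (c3g.enc h1)) (enc_scale 1 4 h1))⟩
noncomputable def kp4q3 : Fn2 := ⟨_, _, fun h1 h2 => (enc_norm (enc_mul (enc_norm (enc_subn 2 h1)) (enc_norm (enc_case (enc_add (kp4q3_9.enc h1 h2) (enc_rat _ 2 5)) (enc_add (enc_add (enc_scale 243177 1000000 (kp4q3_9.enc h1 h2)) (enc_rat _ 1262769 10000000)) (enc_mul (enc_norm (kp4q3_3.enc h1 h2)) (enc_norm (enc_subr 1533 250000 (enc_neg (enc_scale 597 50000 (kp4q3_9.enc h1 h2))))))) (enc_add (enc_add (enc_scale 437723 1800000 (kp4q3_9.enc h1 h2)) (enc_rat _ 11365009 90000000)) (enc_mul (enc_norm (kp4q3_3.enc h1 h2)) (enc_norm (enc_subr 1729 281250 (enc_neg (enc_scale 10781 900000 (kp4q3_9.enc h1 h2)))))))))))⟩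
noncomputable def kn4q3 : Fn2 := ⟨_, _, fun h1 h2 => (enc_norm (enc_add (enc_mul (enc_norm (enc_add (enc_pnc _ 1) (enc_mul (mug3.enc h2) (gug.enc h2)))) (kf4q3.enc h1 h2)) (enc_mul (mug3.enc h2) (kp4q3.enc h1 h2))))⟩
noncomputable def bn3q3 : Fn2 := ⟨_, _, fun h1 h2 => (enc_norm (enc_add (enc_mul (enc_norm (enc_add (enc_pnc _ 1) (enc_mul (mug3.enc h2) (gug.enc h2)))) (bf3q3.enc h1 h2)) (enc_mul (mug3.enc h2) (bd3q3.enc h1 h2))))⟩
noncomputable def bn2q3 : Fn2 := ⟨_, _, fun h1 h2 => (enc_norm (enc_add (enc_mul (enc_norm (enc_add (enc_pnc _ 1) (enc_mul (mug3.enc h2) (gug.enc h2)))) (bf2q3.enc h1 h2)) (enc_mul (mug3.enc h2) (bd2q3.enc h1 h2))))⟩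
noncomputable def bn1q3 : Fn2 := ⟨_, _, fun h1 h2 => (enc_norm (enc_add (enc_mul (enc_norm (enc_add (enc_pnc _ 1) (enc_mul (mug3.enc h2) (gug.enc h2)))) (bf1q3.enc h1 h2)) (enc_mul (mug3.enc h2) (bd1q3.enc h1 h2))))⟩
noncomputable def rknq3 : Fn3 := ⟨_, _, fun h1 h2 h3 => (enc_case (enc_sub h1 (cv1r.enc h2)) (enc_mul h1 (bn1q3.enc h2 h3)) (enc_case (enc_sub h1 (cv2r.enc h2)) (enc_add (enc_mul h1 (bn2q3.enc h2 h3)) (enc_mul (enc_norm (enc_mul (enc_norm (enc_sub (enc_pnc _ 1) (lm1r.enc h1 h2))) (cv1r.enc h2))) (enc_norm (enc_sub (bn1q3.enc h2 h3) (bn2q3.enc h2 h3))))) (enc_case (enc_sub h1 (cv3r.enc h2)) (enc_add (enc_mul h1 (bn3q3.enc h2 h3)) (enc_mul (enc_norm (enc_mul (enc_norm (enc_sub (enc_pnc _ 1) (lm2r.enc h1 h2))) (cv2r.enc h2))) (enc_norm (enc_sub (bn2q3.enc h2 h3) (bn3q3.enc h2 h3))))) (enc_add (kn3q3.enc h2 h3) (enc_mul (lm3r.enc h1 h2) (enc_norm (enc_sub (kn4q3.enc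 h2 h3) (kn3q3.enc h2 h3))))))))⟩
noncomputable def rsnq3 : Fn3 := ⟨_, _, fun h1 h2 h3 => (enc_case h1 (enc_neg (rknq3.enc (enc_neg h1) h2 h3)) (rknq3.enc h1 h2 h3))⟩

noncomputable def ndF0q0 : Node := ⟨idf, c1g, kf0q0, l0q0⟩
noncomputable def ndF0q1 : Node := ⟨idf, c1g, kf0q1, l0q1⟩
noncomputable def ndF0q2 : Node := ⟨yag, idf, kfc02, lc02⟩
noncomputable def ndF1q0 : Node := ⟨idf, cv1m, kf1q0, l1q0⟩
noncomputable def ndF1q1 : Node := ⟨idf, cv1m, kf1q1, l1q1⟩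
noncomputable def ndF1q2a : Node := ⟨yag, xc12a, kfc12a, lc12a⟩
noncomputable def ndF1q2b : Node := ⟨idf, xc12b, kfc12b, lc12b⟩
noncomputable def ndF1q3 : Node := ⟨idf, cv1r, kf1q3, l1q3⟩
noncomputable def ndF2q0 : Node := ⟨idf, cv2m, kf2q0, l2q0⟩
noncomputable def ndF2q1 : Node := ⟨idf, cv2m, kf2q1, l2q1⟩
noncomputable def ndF2q2a : Node := ⟨yag, xc22a, kfc22a, lc22a⟩
noncomputable def ndF2q2b : Node := ⟨idf, xc22b, kfc22b, lc22b⟩
noncomputable def ndF2q3 : Node := ⟨idf, cv2r, kf2q3, l2q3⟩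
noncomputable def ndF3q0 : Node := ⟨idf, cv3m, kf3q0, l3q0⟩
noncomputable def ndF3q1 : Node := ⟨idf, cv3m, kf3q1, l3q1⟩
noncomputable def ndF3q2 : Node := ⟨idf, cv3p, kf3q2, l3q2⟩
noncomputable def ndF3q3 : Node := ⟨ycg, xc33, kfc33, lc33⟩
noncomputable def ndF4q0 : Node := ⟨idf, c3g, kf4q0, l4q0⟩
noncomputable def ndF4q1 : Node := ⟨idf, c3g, kf4q1, l4q1⟩
noncomputable def ndF4q2 : Node := ⟨idf, c3g, kf4q2, l4q2⟩
noncomputable def ndF4q3 : Node := ⟨ycg, idf, kfc43, lc43⟩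
noncomputable def pcF0 : Piece := ⟨rsfq0, rlq0⟩
noncomputable def pcF1 : Piece := ⟨rsfq1, rlq1⟩
noncomputable def pcF2 : Piece := ⟨rsfq2, rlq2⟩
noncomputable def pcF3 : Piece := ⟨rsfq3, rlq3⟩
noncomputable def ndN0q0 : Node := ⟨idf, c1g, kn0q0, l0q0⟩
noncomputable def ndN0q1 : Node := ⟨idf, c1g, kn0q1, l0q1⟩
noncomputable def ndN0q2 : Node := ⟨yag, idf, knc02, lc02⟩
noncomputable def ndN1q0 : Node := ⟨idf, cv1m, kn1q0, l1q0⟩
noncomputable def ndN1q1 : Node := ⟨idf, cv1m, kn1q1, l1q1⟩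
noncomputable def ndN1q2a : Node := ⟨yag, xc12a, knc12a, lc12a⟩
noncomputable def ndN1q2b : Node := ⟨idf, xc12b, knc12b, lc12b⟩
noncomputable def ndN1q3 : Node := ⟨idf, cv1r, kn1q3, l1q3⟩
noncomputable def ndN2q0 : Node := ⟨idf, cv2m, kn2q0, l2q0⟩
noncomputable def ndN2q1 : Node := ⟨idf, cv2m, kn2q1, l2q1⟩
noncomputable def ndN2q2a : Node := ⟨yag, xc22a, knc22a, lc22a⟩
noncomputable def ndN2q2b : Node := ⟨idf, xc22b, knc22b, lc22b⟩
noncomputable def ndN2q3 : Node := ⟨idf, cv2r, kn2q3, l2q3⟩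
noncomputable def ndN3q0 : Node := ⟨idf, cv3m, kn3q0, l3q0⟩
noncomputable def ndN3q1 : Node := ⟨idf, cv3m, kn3q1, l3q1⟩
noncomputable def ndN3q2 : Node := ⟨idf, cv3p, kn3q2, l3q2⟩
noncomputable def ndN3q3 : Node := ⟨ycg, xc33, knc33, lc33⟩
noncomputable def ndN4q0 : Node := ⟨idf, c3g, kn4q0, l4q0⟩
noncomputable def ndN4q1 : Node := ⟨idf, c3g, kn4q1, l4q1⟩
noncomputable def ndN4q2 : Node := ⟨idf, c3g, kn4q2, l4q2⟩
noncomputable def ndN4q3 : Node := ⟨ycg, idf, knc43, lc43⟩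
noncomputable def pcN0 : Piece := ⟨rsnq0, rlq0⟩
noncomputable def pcN1 : Piece := ⟨rsnq1, rlq1⟩
noncomputable def pcN2 : Piece := ⟨rsnq2, rlq2⟩
noncomputable def pcN3 : Piece := ⟨rsnq3, rlq3⟩
noncomputable def ndF1q2 : Node := ⟨idf, cv1p, kf1q2, l1q2⟩
noncomputable def ndF2q2 : Node := ⟨idf, cv2p, kf2q2, l2q2⟩
noncomputable def ndN1q2 : Node := ⟨idf, cv1p, kn1q2, l1q2⟩
noncomputable def ndN2q2 : Node := ⟨idf, cv2p, kn2q2, l2q2⟩
end Pool.Agent.Strip051.G.I1_16_1_8.Tab
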