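import Pool.Agent.Strip051.G.I1_16_1_8.MolD

/-! # The tight charts of a table: certificates (generated) -/

set_option linter.all false
set_option maxRecDepth 100000

namespace Pool.Agent.Strip051.G.I1_16_1_8.Tab.Mo

open Pool.Agent.Strip051.PB Pool.Agent.Strip051.PB.Mol Pool.Agent.Strip051.PB.T
open Pool.Agent.Strip051.G.I1_16_1_8.Tab

noncomputable def f0Ap : ℕ → ℕ → ℕ → ℕ → Bool :=
  onCell 0 67108864 0 8388608 67108864 67108864 (c0_Ap.row false 33554432)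

def h0_0Ap : ∃ t, chk3 f0Ap t 1 1 1 = true :=
  ⟨(a (c (a (c (a (l 16) (l 16)) (l 16)) (c (a (b (l 16) (c (a (l 16) (l 16)) (l 16))) (c (b (a (l 16) (c (a (l 20) (l 20)) (l 20))) (a (l 22) (l 20))) (b (a (l 16) (l 20)) (a (l 22) (l 20))))) (a (c (a (l 16) (l 16)) (l 16)) (a (b (l 16) (l 22)) (l 20))))) (a (l 16) (c (a (c (l 16) (l 16)) (c (l 20) (l 20))) (a (l 16) (l 20))))) (c (a (a (c (c (l 20) (l 20)) (l 20)) (l 12)) (l 12)) (a (c (l 20) (l 20)) (l 12)))), by decide +kernel⟩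

theorem ct_0Ap : ∃ t, chk3 f0Ap t 1 1 1 = true := h0_0Ap

noncomputable def f0Apk1 : ℕ → ℕ → ℕ → ℕ → Bool :=
  onCell 0 67108864 0 16777216 67108864 67108864 (c0_Apk1.row false 33554432)

def h0_0Apk1 : ∃ t, chk3 f0Apk1 t 1 1 1 = true :=
  ⟨(c (a (b (a (c (a (l 16) (l 16)) (l 16)) (c (a (b (l 16) (c (l 16) (l 16))) (c (b (a (l 16) (b (a (l 16) (l 20)) (l 20))) (a (c (l 22) (l 22)) (l 20))) (b (a (l 16) (l 20)) (a (l 22) (l 20))))) (a (c (l 16) (l 16)) (c (a (b (l 16) (l 22)) (l 20)) (b (a (l 16) (l 20)) (l 20)))))) (a (c (a (l 16) (b (l 16) (a (l 16) (l 22)))) (a (l 16) (a (l 16) (l 22)))) (c (a (c (b (a (l 16) (l 22)) (a (l 22) (l 22))) (b (l 22) (l 22))) (a (b (c (l 22) (l 20)) (l 12)) (l 12))) (a (c (b (l 22) (l 22)) (b (l 22) (l 22))) (c (a (l 20) (l 12)) (l 20)))))) (a (b (a (c (c (l 20) (l 20)) (l 20)) (l 12)) (c (l 12) (l 12))) (l 12)))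 (a (a (b (l 16) (a (l 16) (c (l 16) (l 16)))) (c (b (a (l 16) (c (b (a (l 16) (l 20)) (l 20)) (l 20))) (a (b (l 22) (l 22)) (l 20))) (b (a (l 16) (l 20)) (a (c (l 22) (l 20)) (l 20))))) (a (c (a (l 20) (l 12)) (l 20)) (l 12)))), by decide +kernel⟩

theorem ct_0Apk1 : ∃ t, chk3 f0Apk1 t 1 1 1 = true := h0_0Apk1

noncomputable def f0Apk2 : ℕ → ℕ → ℕ → ℕ → Bool :=
  onCell 0 67108864 0 16777216 67108864 67108864 (c0_Apk2.row false 33554432)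

def h0_0Apk2 : ∃ t, chk3 f0Apk2 t 1 1 1 = true :=
  ⟨(a (c (a (c (b (l 16) (a (l 16) (b (l 16) (c (a (l 16) (l 16)) (l 16))))) (b (l 16) (a (l 16) (c (l 16) (l 16))))) (c (b (a (b (l 16) (c (l 16) (l 16))) (c (b (a (l 16) (a (b (l 16) (l 20)) (l 20))) (a (c (l 22) (l 22)) (l 20))) (b (a (l 16) (c (a (l 20) (l 20)) (l 20))) (a (l 22) (l 20))))) (a (c (b (a (l 16) (l 22)) (a (l 22) (l 22))) (b (l 22) (a (l 22) (l 22)))) (a (b (b (l 22) (l 14)) (l 12)) (l 12)))) (b (a (c (l 16) (l 16)) (c (a (b (l 16) (l 22)) (l 20)) (a (b (l 16) (l 22)) (l 20)))) (a (c (b (l 22) (l 22)) (b (l 22) (l 22))) (c (b (a (l 20) (l 12)) (l 12)) (l 20)))))) (a (b (l 16) (c (a (l 16) (l 16)) (l 16))) (c (b (a (l 16) (a (b (l 16) (l 20)) (l 20))) (a (b (l 22) (l 22)) (l 20))) (b (a (l 16) (l 20)) (a (c (l 22) (l 22)) (l 20)))))) (c (a (b (a (c (c (l 20) (l 20)) (l 20))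 (l 12)) (c (l 12) (l 12))) (l 12)) (a (c (a (l 20) (l 12)) (l 20)) (l 12)))), by decide +kernel⟩

theorem ct_0Apk2 : ∃ t, chk3 f0Apk2 t 1 1 1 = true := h0_0Apk2

noncomputable def f0Am : ℕ → ℕ → ℕ → ℕ → Bool :=
  onCell 0 67108864 0 8388608 67108864 67108864 (c0_Am.row true 33554432)

def h0_0Am : ∃ t, chk3 f0Am t 8 2 8 = true :=
  ⟨(b (a (c (b (a (c (a (c (l 16) (l 16)) (l 16)) (a (l 16) (l 16))) (c (a (l 16) (l 16)) (l 16))) (a (c (a (c (l 16) (l 16)) (c (l 16) (l 16))) (a (l 16) (l 16))) (c (a (l 16) (l 16)) (a (l 16) (l 16))))) (a (c (b (a (l 16) (l 16)) (a (l 16) (l 16))) (b (l 16) (a (l 16) (l 16)))) (c (b (l 16) (l 16)) (a (l 16) (l 16))))) (c (a (c (b (l 16) (a (l 16) (l 16))) (a (l 16) (l 16))) (c (a (l 16) (l 16)) (a (l 16) (l 16)))) (a (c (a (l 16) (l 16)) (l 16)) (c (l 16) (l 16))))) (a (c (a (b (a (l 3) (b (c (l 16) (l 16)) (l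 3))) (l 3)) (c (b (a (c (l 16) (l 16)) (l 16)) (a (c (l 16) (l 16)) (c (l 16) (l 16)))) (b (a (l 16) (l 16)) (a (c (l 16) (l 16)) (l 16))))) (a (b (a (l 3) (c (l 16) (l 16))) (l 3)) (c (b (a (l 16) (l 16)) (a (l 16) (l 16))) (b (l 16) (a (l 16) (l 16)))))) (c (a (c (b (a (l 16) (l 16)) (a (l 16) (l 16))) (b (a (l 16) (l 16)) (a (l 16) (l 16)))) (c (b (l 16) (a (l 16) (l 16))) (b (l 16) (l 16)))) (a (c (b (l 16) (l 16)) (a (l 16) (l 16))) (c (a (l 16) (l 16)) (a (l 16) (l 16))))))), by decide +kernel⟩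

def h1_0Am : ∃ t, chk3 f0Am t 9 2 8 = true :=
  ⟨(b (a (c (a (c (l 16) (l 16)) (c (l 16) (l 16))) (a (c (l 16) (l 16)) (c (l 16) (l 16)))) (c (a (c (l 16) (l 16)) (l 16)) (a (l 16) (l 16)))) (a (c (a (c (a (l 16) (l 16)) (a (l 16) (l 16))) (c (a (l 16) (l 16)) (l 16))) (a (c (l 16) (l 16)) (c (l 16) (l 16)))) (c (a (c (l 16) (l 16)) (c (l 16) (l 16))) (a (c (l 16) (l 16)) (l 16))))), by decide +kernel⟩

def h2_0Am : ∃ t, chk3 f0Am t 4 2 9 = true :=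
  ⟨(a (b (a (c (a (c (a (l 16) (l 16)) (a (l 16) (l 16))) (c (a (l 16) (l 16)) (l 16))) (a (c (l 16) (l 16)) (c (l 16) (l 16)))) (c (a (c (l 16) (l 16)) (c (l 16) (l 16))) (a (c (l 16) (l 16)) (l 16)))) (a (c (a (b (c (l 16) (l 16)) (l 3)) (c (a (l 16) (l 16)) (a (l 16) (l 16)))) (a (b (c (l 16) (l 16)) (l 3)) (c (l 16) (l 16)))) (c (a (c (a (l 16) (l 16)) (l 16)) (c (l 16) (l 16))) (a (c (l 16) (l 16)) (c (l 16) (l 16)))))) (b (a (c (a (l 16) (l 16)) (a (l 16) (l 16))) (c (a (l 16) (l 16)) (l 16))) (a (c (a (c (l 16) (l 16)) (l 16)) (a (l 16) (l 16))) (c (a (l 16) (l 16)) (a (l 16) (l 16)))))), by decide +kernel⟩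

def h3_0Am : ∃ t, chk3 f0Am t 8 3 8 = true :=
  ⟨(c (a (b (a (l 3) (b (a (l 3) (b (c (l 16) (l 16)) (l 3))) (l 3))) (l 3)) (b (a (c (b (a (c (l 16) (l 16)) (l 24)) (a (c (l 16) (l 16)) (c (l 16) (l 16)))) (b (a (l 16) (l 16)) (a (c (l 16) (l 16)) (l 16)))) (c (b (a (l 16) (l 16)) (a (l 24) (l 16))) (b (a (l 16) (l 16)) (a (l 16) (l 16))))) (a (b (a (l 3) (b (c (l 16) (l 16)) (l 3))) (l 3)) (c (b (a (c (l 16) (l 16)) (c (l 16) (l 16))) (a (c (l 16) (l 16)) (c (l 16) (l 16)))) (b (a (l 24) (l 16)) (a (c (l 16) (l 16)) (c (l 16) (l 16)))))))) (a (b (a (l 3) (b (a (l 3) (c (l 16) (l 16))) (l 3))) (l 3)) (b (a (c (b (a (l 16) (l 16)) (a (l 16) (l 16))) (b (l 16) (a (l 16) (l 16)))) (c (b (l 16) (a (l 16) (l 16))) (a (l 16) (l 16)))) (a (b (a (l 3) (c (l 16) (l 16))) (l 3)) (c (b (a (l 16) (l 16)) (a (l 24) (l 16))) (b (l 24) (a (l 16) (l 16)))))))),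 by decide +kernel⟩

def h4_0Am : ∃ t, chk3 f0Am t 8 3 9 = true :=
  ⟨(c (a (b (a (l 3) (b (c (l 24) (l 16)) (l 3))) (l 3)) (b (a (c (a (l 16) (l 16)) (a (l 16) (l 16))) (c (a (l 16) (l 16)) (l 16))) (a (b (c (a (l 3) (l 16)) (l 16)) (l 3)) (c (b (l 16) (l 24)) (a (l 16) (l 16)))))) (a (b (a (l 3) (b (c (l 16) (l 16)) (l 3))) (l 3)) (b (a (c (a (l 16) (l 16)) (l 16)) (c (l 16) (l 16))) (a (b (c (l 16) (l 16)) (l 3)) (c (a (l 16) (l 16)) (l 16)))))), by decide +kernel⟩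

def h5_0Am : ∃ t, chk3 f0Am t 9 3 4 = true :=
  ⟨(c (a (c (b (a (c (b (a (l 16) (l 16)) (a (l 16) (l 16))) (b (l 16) (l 16))) (c (a (l 16) (l 16)) (a (l 16) (l 16)))) (a (c (b (a (l 16) (l 16)) (c (a (l 16) (l 16)) (l 24))) (b (a (l 16) (l 16)) (a (l 16) (l 16)))) (c (b (a (l 16) (l 16)) (a (l 16) (l 16))) (b (l 16) (a (l 16) (l 16)))))) (b (a (c (a (l 16) (l 16)) (a (l 16) (l 16))) (c (l 16) (l 16))) (a (c (b (l 16) (a (l 16) (l 16))) (b (l 16) (l 16))) (c (a (l 16) (l 16)) (a (l 16) (l 16)))))) (c (b (a (c (a (l 16) (l 16)) (l 16)) (c (l 16) (l 16))) (a (c (b (l 16) (a (l 16) (l 16))) (a (l 16) (l 16))) (c (a (l 16) (l 16)) (a (l 16) (l 16))))) (b (a (c (l 16) (l 16)) (c (l 16) (l 16))) (a (c (a (l 16) (l 16)) (l 16)) (c (l 16) (l 16)))))) (a (c (b (a (c (l 16) (l 16)) (c (l 16) (l 16))) (a (c (a (l 16) (l 16)) (l 16)) (c (l 16) (l 16))))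 (b (a (c (l 16) (l 16)) (l 16)) (a (c (l 16) (l 16)) (c (l 16) (l 16))))) (c (b (a (c (l 16) (l 16)) (l 16)) (a (c (l 16) (l 16)) (c (l 16) (l 16)))) (b (a (l 16) (l 16)) (a (l 16) (l 16)))))), by decide +kernel⟩

def h6_0Am : ∃ t, chk3 f0Am t 5 1 4 = true :=
  ⟨(b (a (c (a (c (b (a (l 16) (l 16)) (a (l 16) (l 16))) (b (l 16) (a (l 16) (l 16)))) (c (b (l 16) (l 16)) (a (l 16) (l 16)))) (a (c (a (l 16) (l 16)) (a (l 16) (l 16))) (c (a (l 16) (l 16)) (l 16)))) (c (a (c (a (l 16) (l 16)) (l 16)) (a (l 16) (c (l 20) (l 20)))) (a (c (l 16) (l 16)) (a (l 16) (l 20))))) (a (c (a (c (b (a (c (l 16) (l 16)) (l 16)) (a (c (l 16) (l 16)) (c (l 16) (l 16)))) (b (a (l 16) (l 16)) (a (c (l 16) (l 16)) (l 16)))) (c (b (a (l 16) (l 16)) (a (c (l 16) (l 16)) (l 16))) (b (l 16) (a (l 16) (l 16))))) (a (c (b (a (l 16) (l 16)) (a (l 16) (l 16))) (b (l 16) (a (l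 16) (l 16)))) (c (b (l 16) (l 16)) (a (l 16) (l 16))))) (c (a (c (b (l 16) (a (l 16) (l 16))) (a (l 16) (l 16))) (c (a (l 16) (l 16)) (a (l 16) (l 16)))) (a (c (a (l 16) (l 16)) (l 16)) (c (a (l 16) (l 16)) (l 16)))))), by decide +kernel⟩

def h7_0Am : ∃ t, chk3 f0Am t 4 2 5 = true :=
  ⟨(a (c (b (a (c (a (c (l 16) (l 16)) (c (l 16) (l 16))) (a (l 16) (l 16))) (c (a (l 16) (l 16)) (a (l 16) (l 16)))) (a (c (a (c (l 16) (l 16)) (c (l 16) (l 16))) (a (c (l 16) (l 16)) (l 16))) (c (a (c (l 16) (l 16)) (l 16)) (a (l 16) (l 16))))) (a (c (b (a (l 16) (l 16)) (a (l 16) (l 16))) (b (a (l 16) (l 16)) (a (l 16) (l 16)))) (c (b (l 16) (a (l 16) (l 16))) (a (l 16) (l 16))))) (c (a (c (b (l 16) (a (l 16) (l 16))) (b (l 16) (l 16))) (c (a (l 16) (l 16)) (a (l 16) (l 16)))) (a (c (a (l 16) (l 16)) (a (l 16) (l 16))) (c (l 16) (l 16))))), by decide +kernel⟩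

def h8_0Am : ∃ t, chk3 f0Am t 4 3 5 = true :=
  ⟨(a (c (a (b (a (l 3) (b (c (l 24) (l 16)) (l 3))) (l 3)) (c (b (a (c (l 16) (l 16)) (c (l 16) (l 16))) (a (c (l 16) (l 16)) (c (l 16) (l 16)))) (b (a (l 16) (l 16)) (a (c (l 16) (l 16)) (c (l 16) (l 16)))))) (a (b (a (l 3) (c (l 16) (l 16))) (l 3)) (c (b (a (l 16) (l 16)) (a (l 16) (l 16))) (b (a (l 16) (l 16)) (a (l 16) (l 16)))))) (c (a (c (b (a (l 16) (l 16)) (a (c (l 16) (l 16)) (l 16))) (b (a (l 16) (l 16)) (a (l 16) (l 16)))) (c (b (l 16) (a (l 16) (l 16))) (b (l 16) (l 16)))) (a (c (b (l 16) (a (l 16) (l 16))) (a (l 16) (l 16))) (c (a (l 16) (l 16)) (a (l 16) (l 16)))))), by decide +kernel⟩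

def h9_0Am : ∃ t, chk3 f0Am t 5 1 5 = true :=
  ⟨(a (c (b (a (c (l 16) (l 16)) (c (l 16) (l 16))) (a (c (a (l 16) (l 16)) (a (l 16) (l 16))) (c (a (l 16) (l 16)) (l 16)))) (b (a (c (l 16) (l 16)) (c (l 16) (l 16))) (a (c (l 16) (l 16)) (c (l 16) (l 16))))) (c (b (a (c (l 16) (l 16)) (c (l 20) (l 20))) (a (c (l 16) (l 16)) (c (l 16) (l 16)))) (b (a (l 16) (c (l 20) (l 20))) (a (c (l 16) (l 16)) (l 16))))), by decide +kernel⟩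

def h10_0Am : ∃ t, chk3 f0Am t 3 1 2 = true :=
  ⟨(a (c (a (c (a (b (c (a (l 20) (b (l 12) (l 14))) (a (l 20) (b (l 12) (l 12)))) (c (a (l 20) (b (l 14) (l 14))) (a (l 20) (b (l 12) (l 14))))) (b (a (l 14) (l 14)) (a (c (l 14) (l 14)) (l 14)))) (a (b (a (l 20) (c (l 12) (l 12))) (c (a (l 20) (b (l 12) (l 12))) (a (l 20) (l 14)))) (b (c (l 14) (l 14)) (a (c (l 14) (l 14)) (l 14))))) (c (a (b (l 14) (c (l 14) (l 14))) (b (l 14) (l 14))) (a (b (l 14) (l 14)) (l 14)))) (a (a (c (b (a (l 20) (c (l 12) (l 12))) (a (l 20) (c (l 12) (l 12)))) (b (a (l 20) (c (l 12) (l 12))) (a (l 20) (c (l 12) (l 12))))) (c (b (c (l 14) (l 14)) (c (l 14) (l 14))) (b (c (l 14) (l 14)) (c (l 14) (l 14))))) (c (a (b (l 14) (l 14)) (l 14)) (a (b (l 14) (l 14)) (l 14))))) (c (a (b (l 14) (c (l 14) (l 14))) (l 14)) (a (c (l 14) (l 14)) (l 14)))), by decide +kernel⟩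

def h11_0Am : ∃ t, chk3 f0Am t 2 1 6 = true :=
  ⟨(a (b (a (c (a (c (b (l 16) (l 16)) (a (l 16) (l 16))) (c (a (l 16) (l 16)) (a (l 16) (l 16)))) (a (c (a (l 16) (l 16)) (a (l 16) (l 16))) (c (l 16) (l 16)))) (c (a (c (l 16) (l 16)) (c (l 16) (l 16))) (a (c (l 16) (l 16)) (c (l 16) (l 16))))) (a (c (a (b (c (a (l 3) (l 16)) (l 16)) (l 3)) (c (b (l 16) (l 16)) (a (l 16) (l 16)))) (a (b (c (l 16) (l 16)) (l 3)) (c (a (l 16) (l 16)) (l 16)))) (c (a (c (a (l 16) (l 16)) (l 16)) (c (l 16) (l 16))) (a (c (l 16) (l 16)) (c (l 16) (l 16)))))) (a (c (b (a (c (l 16) (l 16)) (l 16)) (a (c (l 16) (l 16)) (c (l 16) (l 16)))) (b (a (c (l 16) (l 16)) (c (l 16) (l 16))) (a (c (l 16) (l 16)) (c (l 16) (l 16))))) (c (b (a (l 16) (l 20)) (a (l 16) (l 16))) (b (a (l 16) (c (l 20) (l 20))) (a (l 16) (l 16)))))), by decide +kernel⟩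

def h12_0Am : ∃ t, chk3 f0Am t 2 1 7 = true :=
  ⟨(a (b (a (c (a (c (l 16) (l 16)) (c (l 16) (l 16))) (a (c (l 16) (l 16)) (c (l 16) (l 16)))) (c (a (c (l 16) (l 16)) (c (l 16) (l 16))) (a (c (l 16) (l 16)) (c (l 16) (l 16))))) (a (c (a (c (a (l 3) (l 16)) (l 16)) (c (l 16) (l 16))) (a (c (l 16) (l 16)) (c (l 16) (l 16)))) (c (a (c (l 16) (l 16)) (c (l 16) (l 16))) (a (c (l 16) (l 16)) (c (l 16) (l 16)))))) (a (c (b (a (c (l 16) (l 16)) (c (l 16) (l 16))) (a (c (l 16) (l 16)) (c (l 16) (l 16)))) (b (a (c (l 16) (l 16)) (c (l 16) (l 16))) (a (c (l 16) (l 16)) (c (l 16) (l 16))))) (c (b (a (c (l 16) (l 16)) (c (l 20) (l 20))) (a (l 16) (l 16))) (b (a (c (l 16) (a (l 16) (l 16))) (c (a (l 16) (l 20)) (b (a (l 16) (l 20)) (l 16)))) (a (c (l 16) (l 16)) (c (l 16) (l 16))))))), by decide +kernel⟩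

def h13_0Am : ∃ t, chk3 f0Am t 3 1 3 = true :=
  ⟨(a (c (a (c (b (a (a (l 20) (b (l 14) (l 14))) (c (l 14) (l 14))) (a (a (l 20) (c (l 12) (l 12))) (c (l 14) (l 14)))) (b (a (c (a (l 20) (b (l 14) (l 12))) (a (l 20) (b (l 14) (l 12)))) (c (l 14) (l 14))) (a (a (l 20) (c (l 12) (l 12))) (c (l 14) (l 14))))) (c (a (b (l 14) (l 14)) (l 14)) (a (b (l 14) (l 14)) (l 14)))) (a (c (b (a (c (a (l 20) (b (l 14) (l 14))) (a (b (l 20) (l 20)) (b (l 14) (l 14)))) (c (l 14) (l 14))) (a (c (a (l 20) (l 14)) (a (l 20) (b (l 14) (l 12)))) (c (l 14) (l 14)))) (a (b (c (a (b (c (l 20) (a (l 20) (b (l 12) (l 12)))) (l 20)) (b (l 14) (l 14))) (b (a (c (a (l 20) (b (l 14) (l 12))) (a (l 20) (b (l 14) (l 14)))) (l 14)) (a (c (l 20) (a (l 20) (l 12))) (l 14)))) (c (a (l 20) (b (l 14) (l 14))) (a (l 20) (b (l 14) (l 14))))) (b (a (l 14) (l 14)) (a (c (l 14) (l 14))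 (l 14))))) (c (a (b (l 14) (l 14)) (l 14)) (a (b (l 14) (l 14)) (l 14))))) (c (a (c (l 14) (l 14)) (l 14)) (a (c (l 14) (l 14)) (a (l 14) (l 14))))), by decide +kernel⟩

theorem h14_0Am : ∃ t, chk3 f0Am t 2 1 3 = true := ex3_c h11_0Am h12_0Am

theorem h15_0Am : ∃ t, chk3 f0Am t 1 1 3 = true := ex3_a h14_0Am h13_0Am

theorem h16_0Am : ∃ t, chk3 f0Am t 4 1 5 = true := ex3_b h7_0Am h8_0Am

theorem h17_0Am : ∃ t, chk3 f0Am t 2 1 5 = true := ex3_a h16_0Am h9_0Am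

theorem h18_0Am : ∃ t, chk3 f0Am t 8 3 4 = true := ex3_c h3_0Am h4_0Am

theorem h19_0Am : ∃ t, chk3 f0Am t 4 3 4 = true := ex3_a h18_0Am h5_0Am

theorem h20_0Am : ∃ t, chk3 f0Am t 4 2 8 = true := ex3_a h0_0Am h1_0Am

theorem h21_0Am : ∃ t, chk3 f0Am t 4 2 4 = true := ex3_c h20_0Am h2_0Am

theorem h22_0Am : ∃ t, chk3 f0Am t 4 1 4 = true := ex3_b h21_0Am h19_0Am

theorem h23_0Am : ∃ t, chk3 f0Am t 2 1 4 = true := ex3_a h22_0Am h6_0Am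

theorem h24_0Am : ∃ t, chk3 f0Am t 2 1 2 = true := ex3_c h23_0Am h17_0Am

theorem h25_0Am : ∃ t, chk3 f0Am t 1 1 2 = true := ex3_a h24_0Am h10_0Am

theorem h26_0Am : ∃ t, chk3 f0Am t 1 1 1 = true := ex3_c h25_0Am h15_0Am

theorem ct_0Am : ∃ t, chk3 f0Am t 1 1 1 = true := h26_0Am

noncomputable def f0Bp : ℕ → ℕ → ℕ → ℕ → Bool :=
  onCell 0 67108864 0 8388608 67108864 67108864 (c0_Bp.row false 33554432)

def h0_0Bp : ∃ t, chk3 f0Bp t 1 1 1 = true :=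
  ⟨(c (a (c (a (b (a (c (b (a (c (l 16) (l 16)) (l 16)) (a (c (l 16) (l 16)) (l 16))) (a (c (l 16) (l 16)) (l 16))) (c (a (l 16) (l 16)) (l 16))) (a (c (a (b (c (l 16) (l 16)) (l 3)) (c (l 16) (l 16))) (a (c (l 16) (l 16)) (l 16))) (c (a (l 16) (l 16)) (l 16)))) (b (a (c (l 16) (l 16)) (c (l 20) (l 20))) (a (c (l 16) (l 16)) (c (l 20) (l 20))))) (a (b (a (c (a (l 16) (l 16)) (l 16)) (c (l 16) (l 16))) (a (c (a (l 16) (l 16)) (l 16)) (c (l 16) (l 16)))) (a (c (l 16) (l 16)) (c (l 20) (l 20))))) (a (c (a (c (a (l 20) (l 12)) (l 20)) (c (l 12) (l 12))) (a (c (l 20) (l 20)) (l 12))) (c (a (l 12) (l 12)) (a (l 12) (l 12))))) (a (a (c (b (a (c (l 16) (l 16)) (l 16)) (a (c (l 16) (l 16)) (l 16))) (a (c (l 16) (l 16)) (l 16))) (c (a (l 16) (l 20)) (a (l 16) (l 20)))) (a (c (a (l 20) (l 12)) (l 20)) (c (l 12) (l 12))))), by decide +kernel⟩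

theorem ct_0Bp : ∃ t, chk3 f0Bp t 1 1 1 = true := h0_0Bp

noncomputable def f0Bpk1 : ℕ → ℕ → ℕ → ℕ → Bool :=
  onCell 0 67108864 0 16777216 67108864 67108864 (c0_Bpk1.row false 33554432)

def h0_0Bpk1 : ∃ t, chk3 f0Bpk1 t 1 1 1 = true :=
  ⟨(c (a (b (a (c (b (a (c (l 16) (l 16)) (l 16)) (a (c (l 16) (l 16)) (l 16))) (a (l 16) (l 16))) (c (a (l 16) (c (l 20) (l 20))) (a (l 16) (l 20)))) (c (a (a (b (c (a (l 3) (l 16)) (l 16)) (l 3)) (c (a (l 16) (l 16)) (l 16))) (a (c (l 16) (l 16)) (c (l 20) (l 20)))) (a (a (c (l 16) (l 16)) (l 16)) (a (l 16) (l 20))))) (a (c (b (a (c (l 20) (l 20)) (l 12)) (a (c (l 20) (l 20)) (l 12))) (a (l 20) (l 12))) (c (a (l 12) (l 12)) (a (l 12) (l 12))))) (a (a (c (b (l 16) (l 16)) (l 16)) (c (a (l 16) (l 20)) (l 20))) (a (c (a (l 20) (l 12)) (l 20)) (c (l 12) (l 12))))), by decide +kernel⟩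

theorem ct_0Bpk1 : ∃ t, chk3 f0Bpk1 t 1 1 1 = true := h0_0Bpk1

noncomputable def f0Bpk2 : ℕ → ℕ → ℕ → ℕ → Bool :=
  onCell 0 67108864 0 16777216 67108864 67108864 (c0_Bpk2.row false 33554432)

def h0_0Bpk2 : ∃ t, chk3 f0Bpk2 t 1 1 1 = true :=
  ⟨(c (a (a (c (b (a (l 16) (l 16)) (c (a (l 80) (l 16)) (l 80))) (a (l 16) (l 16))) (c (a (l 16) (a (l 16) (l 20))) (a (l 16) (l 20)))) (a (c (a (b (l 20) (l 20)) (l 12)) (a (l 20) (l 12))) (c (a (l 12) (l 12)) (l 12)))) (a (a (c (l 16) (l 16)) (c (a (l 16) (l 20)) (l 20))) (a (c (l 20) (l 20)) (c (l 12) (l 12))))), by decide +kernel⟩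

theorem ct_0Bpk2 : ∃ t, chk3 f0Bpk2 t 1 1 1 = true := h0_0Bpk2

noncomputable def f0Bm : ℕ → ℕ → ℕ → ℕ → Bool :=
  onCell 0 67108864 0 8388608 67108864 67108864 (c0_Bm.row true 33554432)

def h0_0Bm : ∃ t, chk3 f0Bm t 8 4 8 = true :=
  ⟨(a (c (b (a (c (b (a (c (l 16) (l 16)) (c (l 16) (l 16))) (a (c (l 16) (l 16)) (c (l 16) (l 16)))) (b (a (l 16) (l 16)) (a (l 16) (l 16)))) (c (b (a (c (l 16) (l 16)) (l 16)) (a (l 16) (l 16))) (b (a (l 16) (l 16)) (a (l 16) (l 16))))) (a (c (a (c (l 16) (l 16)) (c (l 16) (l 16))) (a (c (l 16) (l 16)) (c (l 16) (l 16)))) (c (a (c (l 16) (l 16)) (c (l 16) (l 16))) (a (c (l 16) (l 16)) (l 16))))) (b (a (c (b (a (l 16) (l 16)) (a (l 16) (l 16))) (a (l 16) (l 16))) (c (a (l 16) (l 16)) (a (l 16) (l 16)))) (a (c (a (c (l 16) (l 16)) (l 16)) (a (l 16) (l 16))) (c (a (l 16) (l 16)) (a (l 16) (l 16)))))) (c (b (a (c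 (b (a (l 16) (l 16)) (a (l 16) (l 16))) (a (l 16) (l 16))) (c (a (l 16) (l 16)) (a (l 16) (l 16)))) (a (c (a (c (l 16) (l 16)) (l 16)) (a (l 16) (l 16))) (c (a (l 16) (l 16)) (a (l 16) (l 16))))) (b (a (c (a (l 16) (l 16)) (a (l 16) (l 16))) (c (a (l 16) (l 16)) (l 16))) (a (c (a (l 16) (l 16)) (a (l 16) (l 16))) (c (a (l 16) (l 16)) (l 16)))))), by decide +kernel⟩

def h1_0Bm : ∃ t, chk3 f0Bm t 8 5 8 = true :=
  ⟨(c (a (b (a (c (a (c (l 16) (l 16)) (c (l 16) (l 16))) (a (c (l 16) (l 16)) (c (l 16) (l 16)))) (c (a (c (l 16) (l 16)) (c (l 16) (l 16))) (a (c (l 16) (l 16)) (l 16)))) (a (c (c (a (l 80) (l 80)) (a (l 80) (l 16))) (a (c (l 16) (l 16)) (c (l 16) (l 16)))) (c (a (c (l 16) (l 16)) (c (l 16) (l 16))) (a (l 80) (l 16))))) (a (c (b (a (c (l 16) (l 16)) (l 16)) (a (l 80) (l 16))) (b (a (l 16) (l 16)) (a (l 16) (l 16)))) (c (b (a (l 16)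 (l 16)) (a (l 16) (l 16))) (b (a (l 16) (l 16)) (a (l 16) (l 16)))))) (a (a (c (b (c (a (l 16) (l 16)) (l 16)) (a (l 80) (l 16))) (b (a (l 16) (l 16)) (a (l 16) (l 16)))) (c (b (a (l 16) (l 16)) (a (l 16) (l 16))) (b (a (l 16) (l 16)) (a (l 16) (l 16))))) (a (c (b (a (l 16) (l 16)) (a (l 16) (l 16))) (b (a (l 16) (l 16)) (l 16))) (c (b (l 16) (l 16)) (a (l 16) (l 16)))))), by decide +kernel⟩

def h2_0Bm : ∃ t, chk3 f0Bm t 9 2 8 = true :=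
  ⟨(b (a (c (b (a (c (a (l 16) (l 16)) (a (l 16) (l 16))) (c (a (l 16) (l 16)) (l 16))) (a (c (a (l 16) (l 16)) (a (l 16) (l 16))) (c (a (l 16) (l 16)) (l 16)))) (b (a (c (l 16) (l 16)) (c (l 16) (l 16))) (a (c (l 16) (l 16)) (c (l 16) (l 16))))) (c (b (a (c (l 16) (l 16)) (c (l 16) (l 16))) (a (c (l 16) (l 16)) (c (l 16) (l 16)))) (b (a (c (l 16) (l 16)) (c (l 16) (l 16))) (a (c (l 16) (l 16)) (c (l 16) (l 16)))))) (a (c (a (c (b (a (l 16) (l 16)) (a (l 16) (l 16))) (b (l 16) (l 16))) (c (b (l 16) (l 16)) (a (l 16) (l 16)))) (a (c (a (l 16) (l 16)) (a (l 16) (l 16))) (c (a (l 16) (l 16)) (a (l 16) (l 16))))) (c (a (c (a (l 16) (l 16)) (a (l 16) (l 16))) (c (a (l 16) (l 16)) (a (l 16) (l 16)))) (a (c (a (l 16) (l 16)) (l 16)) (c (l 16) (l 16)))))), by decide +kernel⟩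

def h3_0Bm : ∃ t, chk3 f0Bm t 8 2 9 = true :=
  ⟨(b (a (c (b (a (c (a (l 16) (l 16)) (a (l 16) (l 16))) (c (a (l 16) (l 16)) (l 16))) (a (c (a (l 16) (l 16)) (a (l 16) (l 16))) (c (a (l 16) (l 16)) (l 16)))) (b (a (c (l 16) (l 16)) (c (l 16) (l 16))) (a (c (l 16) (l 16)) (c (l 16) (l 16))))) (c (b (a (c (l 16) (l 16)) (c (l 16) (l 16))) (a (c (l 16) (l 16)) (c (l 16) (l 16)))) (b (a (c (l 16) (l 16)) (c (l 16) (l 16))) (a (c (l 16) (l 16)) (c (l 16) (l 16)))))) (a (c (a (c (b (a (l 16) (l 16)) (a (l 16) (l 16))) (b (l 16) (l 16))) (c (b (l 16) (l 16)) (a (l 16) (l 16)))) (a (c (a (l 16) (l 16)) (a (l 16) (l 16))) (c (a (l 16) (l 16)) (a (l 16) (l 16))))) (c (a (c (a (l 16) (l 16)) (a (l 16) (l 16))) (c (a (l 16) (l 16)) (a (l 16) (l 16)))) (a (c (a (l 16) (l 16)) (l 16)) (c (l 16) (l 16)))))), by decide +kernel⟩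

def h4_0Bm : ∃ t, chk3 f0Bm t 9 2 9 = true :=
  ⟨(b (a (c (b (a (c (l 16) (l 16)) (c (l 16) (l 16))) (a (c (l 16) (l 16)) (c (l 16) (l 16)))) (b (a (c (l 16) (l 16)) (l 16)) (a (c (l 16) (l 16)) (l 16)))) (c (b (a (c (l 16) (l 16)) (l 16)) (a (l 16) (l 16))) (b (a (l 16) (l 16)) (a (l 16) (l 16))))) (a (c (a (c (a (l 16) (l 16)) (l 16)) (c (l 16) (l 16))) (a (c (l 16) (l 16)) (c (l 16) (l 16)))) (c (a (c (l 16) (l 16)) (c (l 16) (l 16))) (a (c (l 16) (l 16)) (c (l 16) (l 16)))))), by decide +kernel⟩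

def h5_0Bm : ∃ t, chk3 f0Bm t 10 2 4 = true :=
  ⟨(c (b (a (c (b (a (c (l 16) (l 16)) (c (l 16) (l 16))) (a (c (l 16) (l 16)) (c (l 16) (l 16)))) (b (a (c (l 16) (l 16)) (l 16)) (a (l 16) (l 16)))) (c (b (a (l 16) (l 16)) (a (l 16) (l 16))) (b (a (l 16) (l 16)) (a (l 16) (l 16))))) (a (c (a (c (a (l 16) (l 16)) (l 16)) (c (l 16) (l 16))) (a (c (l 16) (l 16)) (c (l 16) (l 16)))) (c (a (c (l 16) (l 16)) (c (l 16) (l 16))) (a (c (l 16) (l 16)) (c (l 16) (l 16)))))) (b (a (c (b (a (l 16) (l 16)) (a (l 16) (l 16))) (a (l 16) (l 16))) (c (a (l 16) (l 16)) (a (l 16) (l 16)))) (a (c (a (c (l 16) (l 16)) (c (l 16) (l 16))) (a (l 16) (l 16))) (c (a (l 16) (l 16)) (a (l 16) (l 16)))))), by decide +kernel⟩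

def h6_0Bm : ∃ t, chk3 f0Bm t 11 2 4 = true :=
  ⟨(c (b (a (c (b (a (l 16) (l 16)) (a (l 16) (l 16))) (a (l 16) (l 16))) (c (a (b (l 16) (b (l 16) (l 16))) (c (a (b (a (l 16) (l 16)) (l 22)) (l 20)) (a (b (a (l 16) (l 16)) (l 22)) (l 20)))) (a (b (l 16) (a (l 16) (l 16))) (c (a (b (a (l 16) (l 16)) (l 22)) (l 20)) (a (b (c (l 16) (l 16)) (l 22)) (l 20)))))) (a (c (a (c (l 16) (l 16)) (b (l 16) (a (l 16) (c (l 16) (l 16))))) (a (l 16) (b (l 16) (b (l 16) (l 16))))) (c (a (c (b (a (l 16) (l 22)) (a (l 22) (l 22))) (b (a (l 16) (l 22)) (l 22))) (a (c (b (l 22) (l 12)) (b (l 22) (l 12))) (l 12))) (a (c (b (a (l 16) (l 22)) (l 22)) (b (l 22) (l 22))) (a (b (c (l 20) (l 20)) (l 14)) (l 12)))))) (b (a (c (a (l 16) (l 16)) (a (l 16) (l 16))) (c (a (b (l 16) (c (l 16) (l 16))) (a (b (c (l 16) (l 16)) (l 22)) (l 20))) (a (b (l 16) (c (l 16) (l 16)))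 (a (b (l 16) (l 22)) (l 20))))) (a (c (a (l 16) (b (l 16) (c (l 16) (l 16)))) (a (l 16) (b (l 16) (c (l 16) (l 16))))) (c (a (c (b (l 22) (l 22)) (b (l 22) (l 22))) (a (c (l 20) (l 20)) (l 12))) (a (c (a (l 22) (l 22)) (a (l 22) (l 22))) (b (c (l 20) (l 20)) (l 12))))))), by decide +kernel⟩

def h7_0Bm : ∃ t, chk3 f0Bm t 8 2 5 = true :=
  ⟨(c (b (a (c (b (a (c (l 16) (l 16)) (c (l 16) (l 16))) (a (c (l 16) (l 16)) (c (l 16) (l 16)))) (b (a (c (l 16) (l 16)) (c (l 16) (l 16))) (a (c (l 16) (l 16)) (l 16)))) (c (b (a (c (l 16) (l 16)) (l 16)) (a (c (l 16) (l 16)) (l 16))) (b (a (l 16) (l 16)) (a (l 16) (l 16))))) (a (c (a (c (a (l 16) (l 16)) (l 16)) (c (l 16) (l 16))) (a (c (l 16) (l 16)) (c (l 16) (l 16)))) (c (a (c (l 16) (l 16)) (c (l 16) (l 16))) (a (c (l 16) (l 16)) (c (l 16) (l 16)))))) (b (a (c (b (a (l 16) (l 16)) (a (l 16) (l 16)))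 (a (c (l 16) (l 16)) (l 16))) (c (a (c (l 16) (l 16)) (l 16)) (a (l 16) (l 16)))) (a (c (a (c (l 16) (l 16)) (c (l 16) (l 16))) (a (c (l 16) (l 16)) (l 16))) (c (a (c (l 16) (l 16)) (l 16)) (a (l 16) (l 16)))))), by decide +kernel⟩

def h8_0Bm : ∃ t, chk3 f0Bm t 9 2 5 = true :=
  ⟨(c (b (a (c (b (a (l 16) (l 16)) (a (l 16) (l 16))) (a (c (l 16) (l 16)) (l 16))) (c (a (c (l 16) (l 16)) (l 16)) (a (l 16) (l 16)))) (a (c (a (c (l 16) (l 16)) (c (l 16) (l 16))) (a (l 16) (l 16))) (c (a (l 16) (l 16)) (a (l 16) (l 16))))) (b (a (c (a (l 16) (l 16)) (a (l 16) (l 16))) (c (a (l 16) (l 16)) (a (l 16) (l 16)))) (a (c (a (l 16) (l 16)) (a (l 16) (l 16))) (c (a (l 16) (l 16)) (l 16))))), by decide +kernel⟩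

def h9_0Bm : ∃ t, chk3 f0Bm t 5 2 5 = true :=
  ⟨(a (c (b (a (c (a (l 16) (l 16)) (a (l 16) (l 16))) (c (a (l 16) (l 16)) (l 16))) (a (c (a (l 16) (l 16)) (a (l 16) (l 16))) (c (a (l 16) (l 16)) (l 16)))) (b (a (c (a (l 16) (l 16)) (l 16)) (c (l 16) (l 16))) (a (c (l 16) (l 16)) (c (l 16) (l 16))))) (c (b (a (c (l 16) (l 16)) (c (a (b (l 16) (l 16)) (a (b (l 16) (l 22)) (l 20))) (a (b (l 16) (l 16)) (a (b (l 16) (l 22)) (l 20))))) (a (c (a (l 16) (b (l 16) (l 16))) (a (l 16) (b (l 16) (l 16)))) (c (a (b (c (l 22) (l 22)) (l 22)) (c (l 20) (l 20))) (a (b (l 22) (l 22)) (c (l 20) (l 20)))))) (a (b (c (l 16) (l 16)) (a (l 16) (b (l 16) (c (l 16) (l 16))))) (c (b (a (b (l 16) (l 16)) (a (b (l 16) (l 22)) (l 20))) (a (b (l 22) (l 22)) (c (l 20) (l 20)))) (b (a (b (l 16) (l 16)) (a (b (l 16) (l 22)) (l 20))) (a (b (l 22) (l 22)) (c (l 20) (l 20)))))))),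 by decide +kernel⟩

def h10_0Bm : ∃ t, chk3 f0Bm t 8 6 8 = true :=
  ⟨(a (c (b (c (a (c (a (l 80) (l 80)) (a (l 80) (l 80))) (c (a (l 80) (l 80)) (a (l 80) (l 80)))) (a (c (a (l 80) (l 80)) (a (l 80) (l 80))) (a (l 80) (l 80)))) (c (a (c (a (a (l 80) (l 80)) (a (l 80) (l 80))) (a (a (l 80) (l 80)) (a (l 80) (l 80)))) (c (a (a (l 80) (l 80)) (l 80)) (a (l 80) (l 80)))) (a (c (a (l 80) (l 80)) (a (l 80) (l 80))) (c (a (l 80) (l 80)) (a (l 80) (l 80)))))) (c (a (b (a (l 80) (l 80)) (c (a (l 80) (l 80)) (a (l 80) (l 80)))) (b (a (l 80) (l 80)) (a (l 80) (l 80)))) (a (b (a (l 80) (l 80)) (a (l 80) (l 80))) (b (a (l 80) (l 80)) (a (l 80) (l 80)))))) (c (c (a (b (a (l 80) (l 80)) (c (a (l 80) (l 80)) (a (l 80) (l 80)))) (b (a (l 80) (l 80)) (a (l 80) (l 80)))) (a (b (a (l 80) (l 80)) (a (l 80) (l 80))) (b (a (l 80) (l 80)) (a (l 80) (l 80))))) (c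 (a (b (a (l 80) (l 80)) (a (l 80) (l 80))) (b (l 80) (l 80))) (a (b (l 80) (l 80)) (a (l 80) (l 80)))))), by decide +kernel⟩

def h11_0Bm : ∃ t, chk3 f0Bm t 8 7 16 = true :=
  ⟨(a (c (a (b (c (a (b (l 80) (l 80)) (a (l 80) (l 80))) (a (a (l 80) (l 80)) (a (l 80) (l 80)))) (c (a (b (l 88) (a (l 80) (l 80))) (b (l 80) (l 80))) (a (b (l 80) (l 80)) (a (l 80) (l 80))))) (b (c (a (a (l 80) (l 80)) (a (l 80) (l 80))) (a (l 88) (l 80))) (c (a (a (l 80) (l 80)) (a (l 80) (l 80))) (a (a (l 80) (l 80)) (a (l 80) (l 80)))))) (a (b (c (a (a (l 80) (l 80)) (l 88)) (a (l 88) (l 80))) (c (a (a (l 80) (l 80)) (a (l 80) (l 80))) (a (a (l 80) (l 80)) (a (l 80) (l 80))))) (b (c (a (l 80) (l 80)) (a (l 80) (l 80))) (c (a (a (l 80) (l 80)) (l 80)) (a (l 80) (l 80)))))) (b (c (a (c (a (l 80) (l 80)) (a (l 80) (l 80))) (c (a (l 80) (l 80)) (a (l 80) (l 80)))) (a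 (c (a (l 80) (l 80)) (a (l 80) (l 80))) (c (a (l 80) (l 80)) (l 80)))) (c (a (c (a (a (l 80) (l 80)) (l 80)) (a (l 80) (l 80))) (c (a (l 80) (l 80)) (a (l 80) (l 80)))) (a (c (a (l 80) (l 80)) (a (l 80) (l 80))) (c (a (l 80) (l 80)) (l 80)))))), by decide +kernel⟩

def h12_0Bm : ∃ t, chk3 f0Bm t 8 7 17 = true :=
  ⟨(a (b (c (a (c (a (l 80) (l 80)) (a (l 80) (l 80))) (c (a (l 80) (l 80)) (a (l 80) (l 80)))) (a (c (a (l 80) (l 80)) (a (l 80) (l 80))) (c (a (l 80) (l 80)) (l 80)))) (c (a (c (a (a (l 80) (l 80)) (l 80)) (a (l 80) (l 80))) (c (a (l 80) (l 80)) (a (l 80) (l 80)))) (a (c (a (l 80) (l 80)) (a (l 80) (l 80))) (c (a (l 80) (l 80)) (a (l 80) (l 80)))))) (b (c (a (c (a (l 80) (l 80)) (l 80)) (a (l 80) (l 80))) (a (a (l 80) (l 80)) (l 80))) (c (a (c (a (l 80) (l 80)) (a (l 80) (l 80))) (a (l 80) (l 80))) (a (a (l 80) (l 80)) (a (l 80) (l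 80)))))), by decide +kernel⟩

def h13_0Bm : ∃ t, chk3 f0Bm t 9 3 8 = true :=
  ⟨(b (c (a (a (c (b (a (l 80) (l 80)) (a (l 80) (l 80))) (b (l 80) (l 80))) (c (b (l 80) (l 80)) (a (l 80) (l 80)))) (a (c (a (l 80) (l 80)) (a (l 80) (l 80))) (c (a (l 80) (l 80)) (a (l 80) (l 80))))) (a (a (c (a (l 80) (l 80)) (a (l 80) (l 80))) (c (a (l 80) (l 80)) (a (l 80) (l 80)))) (a (c (a (l 80) (l 80)) (l 80)) (c (l 80) (l 80))))) (a (c (b (c (a (c (a (l 80) (l 80)) (l 80)) (a (l 80) (l 80))) (a (a (l 80) (l 80)) (l 80))) (c (a (c (a (l 80) (l 80)) (a (l 80) (l 80))) (a (l 80) (l 80))) (a (a (l 80) (l 80)) (a (l 80) (l 80))))) (b (c (a (l 80) (l 80)) (a (l 80) (l 80))) (c (a (a (l 80) (l 80)) (a (l 80) (l 80))) (a (a (l 80) (l 80)) (l 80))))) (c (b (a (c (a (l 80) (l 80)) (l 80)) (c (l 80) (l 80))) (a (c (a (l 80) (l 80)) (a (l 80) (l 80))) (c (a (l 80) (l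 80)) (l 80)))) (a (c (b (l 80) (l 80)) (b (l 80) (l 80))) (c (b (l 80) (l 80)) (a (l 80) (l 80))))))), by decide +kernel⟩

def h14_0Bm : ∃ t, chk3 f0Bm t 8 3 9 = true :=
  ⟨(b (c (a (c (a (b (a (l 80) (l 80)) (a (l 80) (l 80))) (b (l 80) (l 80))) (a (b (l 80) (l 80)) (a (l 80) (l 80)))) (a (c (a (l 80) (l 80)) (a (l 80) (l 80))) (c (a (l 80) (l 80)) (a (l 80) (l 80))))) (a (a (c (a (l 80) (l 80)) (a (l 80) (l 80))) (c (a (l 80) (l 80)) (a (l 80) (l 80)))) (a (c (a (l 80) (l 80)) (l 80)) (c (l 80) (l 80))))) (a (c (b (c (a (c (a (l 80) (l 80)) (l 80)) (a (l 80) (l 80))) (a (a (l 80) (l 80)) (l 80))) (c (a (c (a (l 80) (l 80)) (l 80)) (a (l 80) (l 80))) (a (a (l 80) (l 80)) (a (l 80) (l 80))))) (b (c (a (l 80) (l 80)) (a (l 80) (l 80))) (c (a (a (l 80) (l 80)) (a (l 80) (l 80))) (a (a (l 80) (l 80)) (l 80))))) (c (b (c (a (l 80) (l 80)) (a (l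 80) (l 80))) (c (a (a (l 80) (l 80)) (a (l 80) (l 80))) (a (a (l 80) (l 80)) (l 80)))) (c (a (b (l 80) (l 80)) (a (l 80) (l 80))) (a (a (l 80) (l 80)) (l 80)))))), by decide +kernel⟩

def h15_0Bm : ∃ t, chk3 f0Bm t 9 3 9 = true :=
  ⟨(b (a (c (a (c (a (l 80) (l 80)) (l 80)) (c (l 80) (l 80))) (a (c (l 80) (l 80)) (c (l 80) (l 16)))) (c (a (c (l 80) (l 80)) (c (l 80) (l 16))) (a (c (l 16) (l 16)) (l 80)))) (c (a (a (c (b (l 80) (l 80)) (a (l 80) (l 80))) (c (a (l 80) (l 80)) (l 80))) (a (c (a (l 80) (l 80)) (l 80)) (c (l 80) (l 80)))) (a (a (c (l 80) (l 80)) (c (l 80) (l 80))) (a (c (l 80) (l 80)) (c (l 80) (l 80)))))), by decide +kernel⟩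

def h16_0Bm : ∃ t, chk3 f0Bm t 10 3 8 = true :=
  ⟨(c (a (b (a (c (a (l 80) (l 80)) (l 80)) (c (l 80) (l 80))) (a (c (b (l 80) (a (l 80) (l 80))) (b (l 80) (l 80))) (c (b (l 80) (l 80)) (a (l 80) (l 80))))) (b (a (c (l 80) (l 80)) (c (a (l 16) (l 16)) (l 16))) (a (c (a (l 80) (l 80)) (a (l 80) (l 80))) (c (b (l 80) (a (l 80) (c (l 86) (l 86)))) (b (l 80) (a (l 80) (c (l 86) (l 86)))))))) (a (b (a (c (l 80) (l 80)) (c (l 80) (l 16))) (a (c (a (l 80) (l 80)) (l 80)) (c (a (l 80) (l 80)) (l 80)))) (b (a (c (l 16) (l 16)) (c (l 16) (l 16))) (a (c (a (l 80) (l 80)) (l 80)) (c (b (l 16) (a (l 80) (c (l 86) (l 22)))) (b (l 16) (a (l 80) (l 86)))))))), by decide +kernel⟩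

def h17_0Bm : ∃ t, chk3 f0Bm t 11 3 8 = true :=
  ⟨(a (c (b (a (b (l 16) (a (l 16) (c (l 22) (l 22)))) (c (b (a (l 22) (l 22)) (a (l 22) (l 22))) (b (a (l 16) (l 22)) (a (l 22) (l 22))))) (a (c (b (a (c (l 22) (l 22)) (c (l 22) (l 22))) (a (c (l 86) (l 86)) (c (l 54) (l 54)))) (b (a (c (l 22) (l 22)) (l 22)) (a (c (l 86) (l 86)) (c (l 54) (l 22))))) (c (b (a (l 22) (l 14)) (a (c (l 46) (l 46)) (l 46))) (b (a (l 22) (l 14)) (a (l 46) (l 46)))))) (b (a (b (l 16) (a (l 16) (c (l 22) (l 16)))) (c (b (a (l 16) (l 22)) (a (l 22) (l 22))) (b (l 22) (a (l 22) (l 22))))) (a (c (b (a (l 22) (l 22)) (a (l 86) (l 54))) (b (a (l 22) (l 22)) (a (l 22) (l 22)))) (c (b (a (l 22) (l 14)) (a (l 14) (l 14))) (b (a (l 22) (l 14)) (a (l 14) (l 14))))))) (c (b (a (c (b (a (l 22) (l 14)) (a (l 14) (l 14))) (b (a (l 22) (l 14)) (a (l 14) (l 14)))) (c (a (l 12) (l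 12)) (l 12))) (a (c (b (a (l 14) (l 14)) (a (l 46) (l 46))) (a (b (l 14) (l 14)) (l 46))) (c (l 44) (l 44)))) (b (a (c (b (a (l 22) (l 14)) (l 14)) (b (l 22) (l 14))) (c (l 12) (l 12))) (a (c (b (l 14) (l 14)) (b (l 14) (l 14))) (c (l 44) (l 12)))))), by decide +kernel⟩

def h18_0Bm : ∃ t, chk3 f0Bm t 5 3 9 = true :=
  ⟨(a (a (c (b (a (c (l 16) (l 16)) (c (l 16) (l 16))) (a (c (l 80) (l 80)) (c (l 80) (l 80)))) (b (a (l 16) (l 16)) (a (c (l 80) (l 80)) (c (l 80) (l 80))))) (c (b (a (l 16) (l 16)) (a (c (l 80) (l 80)) (b (l 16) (a (l 80) (c (l 22) (l 22)))))) (b (a (l 16) (l 16)) (a (c (l 80) (l 80)) (b (l 16) (c (a (l 16) (l 22)) (l 22))))))) (a (c (b (a (b (l 16) (c (a (l 16) (l 16)) (l 22))) (c (b (l 22) (l 22)) (a (l 22) (l 22)))) (a (c (b (a (l 22) (l 22)) (a (l 22) (l 22))) (b (a (l 22) (l 22)) (a (l 22) (l 22)))) (c (b (l 22) (a (l 14)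 (l 14))) (b (l 22) (l 14))))) (b (a (b (l 16) (c (l 16) (l 16))) (c (a (l 22) (l 22)) (a (l 22) (l 22)))) (a (c (b (l 22) (l 22)) (a (l 22) (l 22))) (c (b (l 22) (l 14)) (a (l 22) (l 14)))))) (c (b (a (c (b (l 22) (l 14)) (b (l 22) (l 14))) (c (l 12) (l 12))) (a (c (a (l 14) (l 14)) (a (l 14) (l 12))) (c (l 12) (l 12)))) (b (a (c (a (l 22) (l 14)) (a (l 22) (l 14))) (c (l 12) (l 12))) (a (c (a (l 14) (l 12)) (a (l 14) (l 12))) (l 12)))))), by decide +kernel⟩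

def h19_0Bm : ∃ t, chk3 f0Bm t 4 3 5 = true :=
  ⟨(c (a (b (c (a (a (c (a (l 80) (l 80)) (l 80)) (c (l 80) (l 80))) (a (c (l 80) (l 80)) (c (l 80) (l 16)))) (a (a (c (l 80) (l 80)) (c (l 80) (l 16))) (a (c (l 16) (l 16)) (c (l 16) (l 16))))) (c (a (c (a (b (l 80) (l 80)) (a (l 80) (l 80))) (a (a (l 80) (l 80)) (l 80))) (a (c (l 80) (l 80)) (c (l 80) (l 80)))) (a (c (a (l 80) (l 80)) (a (l 80) (l 80))) (a (c (l 80) (l 80)) (c (l 80) (l 80)))))) (a (c (b (a (c (l 16) (l 16)) (c (l 16) (l 16))) (a (c (l 80) (l 80)) (c (l 80) (l 80)))) (b (a (l 16) (l 16)) (a (l 80) (l 80)))) (c (b (a (l 16) (l 16)) (a (c (l 80) (l 80)) (l 80))) (b (a (l 16) (l 16)) (a (l 80) (l 80)))))) (a (c (a (b (a (c (l 16) (l 16)) (c (l 16) (l 16))) (a (c (l 80) (l 80)) (c (l 80) (l 80)))) (b (a (l 16) (l 16)) (a (l 80) (l 80)))) (a (b (a (c (l 16) (l 16)) (l 16)) (a (l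 80) (l 80))) (b (a (l 16) (l 16)) (a (l 80) (l 80))))) (a (c (b (a (l 16) (l 16)) (a (l 80) (l 80))) (b (a (l 16) (l 16)) (a (l 80) (l 80)))) (c (b (a (l 16) (l 16)) (a (l 80) (l 80))) (b (l 16) (a (l 16) (l 16))))))), by decide +kernel⟩

def h20_0Bm : ∃ t, chk3 f0Bm t 5 3 10 = true :=
  ⟨(a (a (c (b (a (l 16) (l 16)) (a (l 80) (l 80))) (b (a (l 16) (l 16)) (a (l 80) (l 80)))) (c (b (a (l 16) (l 16)) (a (l 80) (b (l 16) (c (l 22) (l 22))))) (b (l 16) (a (l 16) (b (l 16) (c (l 22) (l 22))))))) (a (c (b (a (b (l 16) (c (l 16) (l 16))) (c (a (l 22) (l 22)) (a (l 22) (l 22)))) (a (c (a (l 22) (l 22)) (a (l 22) (l 22))) (c (a (l 22) (l 14)) (a (l 22) (l 14))))) (b (a (b (l 16) (l 16)) (b (l 22) (c (l 22) (l 22)))) (a (c (a (l 22) (l 22)) (a (l 22) (l 22))) (c (a (l 22) (l 14)) (a (l 22) (l 14)))))) (b (c (a (c (a (l 22) (l 14)) (a (l 22) (l 14)))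 (l 12)) (a (b (l 22) (l 14)) (l 12))) (c (a (b (l 14) (l 14)) (l 12)) (a (b (l 14) (l 14)) (l 12)))))), by decide +kernel⟩

def h21_0Bm : ∃ t, chk3 f0Bm t 5 3 11 = true :=
  ⟨(a (a (c (b (l 16) (a (l 16) (l 16))) (b (l 16) (a (l 16) (l 16)))) (b (c (l 16) (l 16)) (c (a (l 16) (b (l 16) (c (l 16) (l 16)))) (a (l 16) (b (l 16) (c (l 16) (l 16))))))) (a (c (b (a (b (l 16) (l 16)) (b (l 22) (l 22))) (a (c (a (l 22) (l 22)) (a (l 22) (l 22))) (b (l 22) (c (l 14) (l 14))))) (b (a (c (l 16) (l 16)) (c (l 22) (l 22))) (a (c (a (l 22) (l 22)) (l 22)) (c (l 22) (l 22))))) (b (c (a (b (l 22) (l 14)) (l 12)) (a (a (l 22) (l 14)) (l 12))) (c (a (c (l 14) (l 14)) (l 12)) (a (c (l 14) (l 14)) (l 12)))))), by decide +kernel⟩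

def h22_0Bm : ∃ t, chk3 f0Bm t 3 1 2 = true :=
  ⟨(c (a (b (a (c (b (a (a (c (c (l 20) (l 20)) (l 20)) (l 12)) (c (l 12) (l 12))) (a (c (a (l 12) (l 12)) (a (l 12) (l 12))) (c (l 12) (l 12)))) (b (a (a (c (l 20) (l 20)) (l 12)) (c (l 12) (l 12))) (a (c (a (l 12) (l 12)) (l 12)) (c (l 12) (l 12))))) (c (a (c (l 12) (l 12)) (l 14)) (a (c (l 12) (l 12)) (l 14)))) (a (c (a (c (a (b (l 12) (l 44)) (l 44)) (a (b (l 12) (l 44)) (l 44))) (c (a (l 44) (l 44)) (a (l 44) (l 44)))) (a (c (b (l 12) (l 44)) (a (l 44) (l 44))) (c (a (l 44) (l 44)) (l 44)))) (c (a (c (l 46) (l 44)) (l 46)) (a (c (l 44) (l 12)) (l 46))))) (b (a (c (l 46) (l 14)) (l 46)) (a (c (a (l 46) (l 46)) (l 46)) (c (l 46) (l 46))))) (a (b (a (c (b (a (a (c (l 20) (l 20)) (l 12)) (l 12)) (a (c (l 12) (l 12)) (l 12))) (a (a (b (c (l 20) (l 20)) (l 12)) (l 12)) (c (l 12) (l 12)))) (c (a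 (c (l 12) (l 12)) (l 14)) (a (l 12) (l 12)))) (a (c (a (c (a (l 12) (l 12)) (a (l 12) (l 12))) (c (l 12) (l 12))) (a (c (a (l 12) (l 12)) (l 12)) (c (l 12) (l 12)))) (c (a (c (l 12) (l 12)) (l 46)) (a (c (l 12) (l 12)) (l 14))))) (a (c (b (l 14) (l 46)) (b (l 14) (l 14))) (c (l 46) (l 46))))), by decide +kernel⟩

def h23_0Bm : ∃ t, chk3 f0Bm t 4 1 6 = true :=
  ⟨(b (a (c (b (a (c (a (l 16) (l 16)) (a (l 16) (l 16))) (c (a (l 16) (l 16)) (a (l 16) (l 16)))) (a (c (a (l 16) (l 16)) (a (l 16) (l 16))) (c (a (l 16) (l 16)) (a (l 16) (l 16))))) (b (a (c (a (l 16) (l 16)) (l 16)) (c (l 16) (l 16))) (a (c (a (l 16) (l 16)) (l 16)) (c (l 16) (l 16))))) (c (b (a (c (a (l 16) (l 16)) (l 16)) (c (l 16) (l 16))) (a (c (a (l 16) (l 16)) (l 16)) (c (l 16) (l 16)))) (b (a (c (l 16) (l 16)) (c (l 16) (l 16))) (a (c (l 16) (l 16)) (c (l 16) (l 16)))))) (c (a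 (a (c (b (a (l 16) (l 16)) (a (l 80) (l 80))) (b (a (l 16) (l 16)) (a (l 80) (l 80)))) (c (b (a (l 16) (l 16)) (a (l 80) (l 80))) (b (l 16) (l 80)))) (a (c (b (l 16) (l 80)) (b (l 16) (l 80))) (c (b (l 16) (l 80)) (a (l 16) (l 16))))) (a (a (c (b (l 16) (l 80)) (b (l 16) (l 80))) (c (b (l 16) (l 80)) (a (l 16) (l 16)))) (a (c (a (l 16) (l 16)) (a (l 16) (l 16))) (c (a (l 16) (l 16)) (a (l 16) (l 16))))))), by decide +kernel⟩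

def h24_0Bm : ∃ t, chk3 f0Bm t 5 2 6 = true :=
  ⟨(a (c (b (a (c (l 16) (l 16)) (c (l 16) (l 16))) (a (c (l 16) (l 16)) (c (l 16) (l 16)))) (b (a (c (l 16) (l 16)) (c (l 16) (l 16))) (a (c (l 16) (l 16)) (c (l 16) (l 16))))) (c (a (b (c (l 16) (l 16)) (a (l 16) (c (l 16) (l 16)))) (c (b (a (a (l 16) (l 16)) (a (b (l 16) (l 22)) (l 20))) (a (b (l 22) (l 22)) (c (l 20) (l 20)))) (b (a (c (l 16) (l 16)) (a (b (l 16) (l 22)) (l 20))) (a (b (l 22) (l 22)) (c (l 20) (l 20)))))) (a (b (c (l 16) (l 16)) (b (l 16) (l 16))) (c (b (a (c (l 16) (l 16)) (a (b (l 16) (l 22)) (l 20))) (a (a (l 22) (l 22)) (c (l 20) (l 20)))) (b (a (l 16) (a (b (l 16) (l 22)) (l 20))) (a (a (l 22) (l 22)) (c (l 20) (l 20)))))))), by decide +kernel⟩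

def h25_0Bm : ∃ t, chk3 f0Bm t 5 3 6 = true :=
  ⟨(a (c (a (c (a (l 16) (l 16)) (a (l 16) (l 16))) (c (b (l 16) (a (l 16) (b (l 16) (l 16)))) (b (l 16) (a (l 16) (c (l 16) (l 16)))))) (b (a (c (l 16) (l 16)) (c (l 16) (l 16))) (a (c (l 16) (l 16)) (a (l 16) (c (c (l 16) (l 16)) (l 16)))))) (c (a (c (b (a (c (l 16) (l 16)) (c (l 22) (l 22))) (a (c (l 22) (l 22)) (c (l 22) (l 22)))) (b (a (l 16) (c (l 22) (l 22))) (a (c (l 22) (l 22)) (c (l 22) (l 22))))) (b (c (a (c (l 22) (l 22)) (l 12)) (a (c (l 22) (l 22)) (l 12))) (c (a (c (l 14) (l 14)) (l 12)) (a (c (l 14) (l 14)) (l 12))))) (a (c (b (a (l 16) (c (l 22) (l 22))) (a (c (l 22) (l 22)) (c (l 22) (l 22)))) (b (a (l 16) (c (l 22) (l 22))) (a (c (l 22) (l 22)) (c (l 22) (l 22))))) (b (c (a (c (l 22) (l 22)) (l 12)) (a (c (l 22) (l 22)) (l 12))) (c (a (c (l 14) (l 14)) (l 12)) (a (c (l 14) (l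 14)) (l 12))))))), by decide +kernel⟩

def h26_0Bm : ∃ t, chk3 f0Bm t 4 1 7 = true :=
  ⟨(b (a (c (b (a (c (l 16) (l 16)) (c (l 16) (l 16))) (a (c (l 16) (l 16)) (c (l 16) (l 16)))) (b (a (c (l 16) (l 16)) (c (l 16) (l 16))) (a (c (l 16) (l 16)) (c (l 16) (l 16))))) (c (b (a (c (l 16) (l 16)) (c (l 16) (l 16))) (a (c (l 16) (l 16)) (c (l 16) (l 16)))) (b (a (l 16) (l 16)) (a (l 16) (l 16))))) (a (c (a (c (a (l 16) (l 16)) (a (l 16) (l 16))) (c (a (l 16) (l 16)) (a (l 16) (l 16)))) (a (c (a (l 16) (l 16)) (l 16)) (c (l 16) (l 16)))) (c (a (c (a (l 16) (l 16)) (a (l 16) (l 16))) (c (a (l 16) (l 16)) (l 16))) (a (c (l 16) (l 16)) (c (l 16) (l 16)))))), by decide +kernel⟩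

def h27_0Bm : ∃ t, chk3 f0Bm t 5 2 7 = true :=
  ⟨(a (c (b (a (c (l 16) (l 16)) (l 16)) (a (c (l 16) (l 16)) (c (l 16) (l 16)))) (b (a (l 16) (l 16)) (a (l 16) (l 16)))) (c (a (c (b (l 16) (l 16)) (b (l 16) (l 16))) (c (b (a (l 16) (a (b (l 16) (l 22)) (l 20))) (a (a (l 22) (l 22)) (c (l 20) (l 20)))) (b (a (l 16) (a (b (l 16) (l 22)) (l 20))) (a (a (l 22) (l 22)) (c (l 20) (l 20)))))) (a (c (b (l 16) (l 16)) (b (l 16) (l 16))) (c (b (a (l 16) (a (b (l 16) (l 22)) (l 20))) (a (b (l 22) (l 22)) (c (l 20) (l 20)))) (b (a (l 16) (a (b (l 16) (l 22)) (l 20))) (a (b (l 22) (l 22)) (b (c (l 20) (l 20)) (l 12)))))))), by decide +kernel⟩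

def h28_0Bm : ∃ t, chk3 f0Bm t 5 3 7 = true :=
  ⟨(a (c (a (c (a (l 16) (l 16)) (a (l 16) (l 16))) (c (b (l 16) (a (l 16) (l 16))) (b (l 16) (a (l 16) (l 16))))) (a (c (l 16) (l 16)) (c (b (l 16) (l 16)) (b (l 16) (l 16))))) (c (a (c (b (a (l 16) (c (l 22) (l 22))) (a (c (l 22) (l 22)) (c (l 22) (l 22)))) (b (a (l 16) (c (l 22) (l 22))) (a (c (l 22) (l 22)) (c (l 22) (l 22))))) (b (c (a (c (l 22) (l 22)) (l 12)) (a (c (l 22) (l 22)) (l 12))) (c (a (c (l 14) (l 14)) (l 12)) (a (c (l 14) (l 14)) (l 12))))) (a (c (b (a (l 16) (c (l 22) (l 22))) (a (c (l 22) (l 22)) (c (l 22) (l 22)))) (b (a (l 16) (c (l 22) (l 22))) (a (c (l 22) (l 22)) (c (l 22) (l 22))))) (b (c (a (c (l 22) (l 22)) (l 12)) (a (c (l 22) (l 22)) (l 12))) (c (a (c (l 14) (l 14)) (l 12)) (a (c (l 14) (l 14)) (l 12))))))), by decide +kernel⟩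

def h29_0Bm : ∃ t, chk3 f0Bm t 3 1 3 = true :=
  ⟨(c (a (a (b (b (c (a (a (c (l 20) (l 20)) (l 12)) (l 12)) (a (a (c (l 20) (l 20)) (l 12)) (l 12))) (c (a (c (l 12) (l 12)) (l 12)) (a (c (l 12) (l 12)) (l 12)))) (c (a (c (l 12) (l 12)) (c (l 12) (l 12))) (a (c (l 12) (l 12)) (l 12)))) (c (b (a (l 12) (l 12)) (a (l 12) (l 12))) (b (a (l 12) (l 12)) (a (l 12) (l 12))))) (a (c (a (l 14) (l 14)) (a (l 14) (l 14))) (c (l 14) (l 14)))) (a (a (b (b (c (a (a (c (l 20) (l 20)) (l 12)) (l 12)) (a (a (b (c (l 20) (l 20)) (l 12)) (l 12)) (l 12))) (c (a (c (l 12) (l 12)) (l 12)) (a (c (l 12) (l 12)) (l 12)))) (c (a (c (l 12) (l 12)) (l 12)) (a (c (l 12) (l 12)) (l 12)))) (c (b (a (l 12) (l 12)) (a (l 12) (l 12))) (b (a (l 12) (l 12)) (a (l 12) (l 12))))) (a (b (l 14) (c (l 14) (l 14))) (c (l 14) (l 14))))), by decide +kernel⟩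

theorem h30_0Bm : ∃ t, chk3 f0Bm t 5 1 7 = true := ex3_b h27_0Bm h28_0Bm

theorem h31_0Bm : ∃ t, chk3 f0Bm t 2 1 7 = true := ex3_a h26_0Bm h30_0Bm

theorem h32_0Bm : ∃ t, chk3 f0Bm t 5 1 6 = true := ex3_b h24_0Bm h25_0Bm

theorem h33_0Bm : ∃ t, chk3 f0Bm t 2 1 6 = true := ex3_a h23_0Bm h32_0Bm

theorem h34_0Bm : ∃ t, chk3 f0Bm t 2 1 3 = true := ex3_c h33_0Bm h31_0Bm

theorem h35_0Bm : ∃ t, chk3 f0Bm t 1 1 3 = true := ex3_a h34_0Bm h29_0Bm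

theorem h36_0Bm : ∃ t, chk3 f0Bm t 5 3 5 = true := ex3_c h20_0Bm h21_0Bm

theorem h37_0Bm : ∃ t, chk3 f0Bm t 2 3 5 = true := ex3_a h19_0Bm h36_0Bm

theorem h38_0Bm : ∃ t, chk3 f0Bm t 5 3 8 = true := ex3_a h16_0Bm h17_0Bm

theorem h39_0Bm : ∃ t, chk3 f0Bm t 5 3 4 = true := ex3_c h38_0Bm h18_0Bm

theorem h40_0Bm : ∃ t, chk3 f0Bm t 4 3 9 = true := ex3_a h14_0Bm h15_0Bm

theorem h41_0Bm : ∃ t, chk3 f0Bm t 8 7 8 = true := ex3_c h11_0Bm h12_0Bm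

theorem h42_0Bm : ∃ t, chk3 f0Bm t 8 3 8 = true := ex3_b h10_0Bm h41_0Bm

theorem h43_0Bm : ∃ t, chk3 f0Bm t 4 3 8 = true := ex3_a h42_0Bm h13_0Bm

theorem h44_0Bm : ∃ t, chk3 f0Bm t 4 3 4 = true := ex3_c h43_0Bm h40_0Bm

theorem h45_0Bm : ∃ t, chk3 f0Bm t 2 3 4 = true := ex3_a h44_0Bm h39_0Bm

theorem h46_0Bm : ∃ t, chk3 f0Bm t 2 3 2 = true := ex3_c h45_0Bm h37_0Bm

theorem h47_0Bm : ∃ t, chk3 f0Bm t 4 2 5 = true := ex3_a h7_0Bm h8_0Bm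

theorem h48_0Bm : ∃ t, chk3 f0Bm t 2 2 5 = true := ex3_a h47_0Bm h9_0Bm

theorem h49_0Bm : ∃ t, chk3 f0Bm t 5 2 4 = true := ex3_a h5_0Bm h6_0Bm

theorem h50_0Bm : ∃ t, chk3 f0Bm t 4 2 9 = true := ex3_a h3_0Bm h4_0Bm

theorem h51_0Bm : ∃ t, chk3 f0Bm t 8 2 8 = true := ex3_b h0_0Bm h1_0Bm

theorem h52_0Bm : ∃ t, chk3 f0Bm t 4 2 8 = true := ex3_a h51_0Bm h2_0Bm

theorem h53_0Bm : ∃ t, chk3 f0Bm t 4 2 4 = true := ex3_c h52_0Bm h50_0Bm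

theorem h54_0Bm : ∃ t, chk3 f0Bm t 2 2 4 = true := ex3_a h53_0Bm h49_0Bm

theorem h55_0Bm : ∃ t, chk3 f0Bm t 2 2 2 = true := ex3_c h54_0Bm h48_0Bm

theorem h56_0Bm : ∃ t, chk3 f0Bm t 2 1 2 = true := ex3_b h55_0Bm h46_0Bm

theorem h57_0Bm : ∃ t, chk3 f0Bm t 1 1 2 = true := ex3_a h56_0Bm h22_0Bm

theorem h58_0Bm : ∃ t, chk3 f0Bm t 1 1 1 = true := ex3_c h57_0Bm h35_0Bm

theorem ct_0Bm : ∃ t, chk3 f0Bm t 1 1 1 = true := h58_0Bm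

noncomputable def f0T3 : ℕ → ℕ → ℕ → ℕ → Bool :=
  onCell 0 67108864 0 16777216 67108864 67108864 (c0_T3.row false 33554432)

def h0_0T3 : ∃ t, chk3 f0T3 t 1 1 1 = true :=
  ⟨(a (c (a (c (b (l 16) (a (l 80) (l 80))) (l 16)) (c (a (l 16) (a (l 16) (l 20))) (a (l 16) (l 20)))) (a (l 16) (c (a (l 16) (l 20)) (l 20)))) (c (a (c (a (b (l 20) (l 20)) (l 12)) (a (l 20) (l 12))) (c (a (l 12) (l 12)) (l 12))) (a (c (l 20) (l 20)) (c (l 12) (l 12))))), by decide +kernel⟩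

theorem ct_0T3 : ∃ t, chk3 f0T3 t 1 1 1 = true := h0_0T3

noncomputable def f0T4 : ℕ → ℕ → ℕ → ℕ → Bool :=
  onCell 0 67108864 0 16777216 67108864 67108864 (c0_T4.row false 33554432)

def h0_0T4 : ∃ t, chk3 f0T4 t 1 1 1 = true :=
  ⟨(a (c (a (c (b (l 16) (a (l 16) (b (l 16) (c (a (l 16) (l 16)) (l 16))))) (b (l 16) (a (l 16) (c (l 16) (l 16))))) (c (b (a (b (l 16) (c (l 16) (l 16))) (c (b (a (l 16) (a (b (l 16) (l 20)) (l 20))) (a (c (l 22) (l 22)) (l 20))) (b (a (l 16) (c (a (l 20) (l 20)) (l 20))) (a (l 22) (l 20))))) (a (c (b (a (l 16) (l 22)) (a (l 22) (l 22))) (b (l 22) (a (l 22) (l 22)))) (a (b (b (l 22) (l 14)) (l 12)) (l 12)))) (b (a (c (l 16) (l 16)) (c (a (b (l 16) (l 22)) (l 20)) (a (b (l 16) (l 22)) (l 20)))) (a (c (b (l 22) (l 22)) (b (l 22) (l 22))) (c (b (a (l 20) (l 12)) (l 12)) (l 20)))))) (a (b (l 16) (c (a (l 16) (l 16))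 (l 16))) (c (b (a (l 16) (a (b (l 16) (l 20)) (l 20))) (a (b (l 22) (l 22)) (l 20))) (b (a (l 16) (l 20)) (a (c (l 22) (l 22)) (l 20)))))) (c (a (b (a (c (c (l 20) (l 20)) (l 20)) (l 12)) (c (l 12) (l 12))) (l 12)) (a (c (a (l 20) (l 12)) (l 20)) (l 12)))), by decide +kernel⟩

theorem ct_0T4 : ∃ t, chk3 f0T4 t 1 1 1 = true := h0_0T4

noncomputable def f0T5 : ℕ → ℕ → ℕ → ℕ → Bool :=
  onCell 0 67108864 0 8388608 67108864 67108864 (c0_T5.row true 33554432)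

def h0_0T5 : ∃ t, chk3 f0T5 t 1 1 1 = true :=
  ⟨(c (a (a (a (l 16) (l 16)) (l 20)) (l 20)) (a (a (l 16) (l 20)) (l 20))), by decide +kernel⟩

theorem ct_0T5 : ∃ t, chk3 f0T5 t 1 1 1 = true := h0_0T5

noncomputable def f0T7 : ℕ → ℕ → ℕ → ℕ → Bool :=
  onCell 0 67108864 0 16777216 67108864 67108864 (c0_T7.row false 33554432)

def h0_0T7 : ∃ t, chk3 f0T7 t 1 1 1 = true :=
  ⟨(c (a (c (b (b (b (l 20) (l 84)) (a (l 80) (l 84))) (a (l 80) (l 84))) (b (b (a (l 16) (l 20)) (l 84)) (l 84))) (b (b (l 20) (a (l 84) (l 44))) (a (l 84) (l 44)))) (a (b (b (l 20) (l 84)) (l 84)) (b (a (l 20) (l 12)) (l 84)))), by decide +kernel⟩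

theorem ct_0T7 : ∃ t, chk3 f0T7 t 1 1 1 = true := h0_0T7

noncomputable def f0T7k1 : ℕ → ℕ → ℕ → ℕ → Bool :=
  onCell 0 67108864 0 16777216 67108864 67108864 (c0_T7k1.row false 33554432)

def h0_0T7k1 : ∃ t, chk3 f0T7k1 t 1 1 1 = true :=
  ⟨(c (a (b (b (a (c (l 16) (l 16)) (l 20)) (a (c (l 80) (l 16)) (l 84))) (a (c (l 80) (l 80)) (l 84))) (a (b (l 20) (l 84)) (l 44))) (a (b (a (l 16) (l 20)) (a (l 80) (l 84))) (b (l 20) (a (l 84) (l 12))))), by decide +kernel⟩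

theorem ct_0T7k1 : ∃ t, chk3 f0T7k1 t 1 1 1 = true := h0_0T7k1

noncomputable def f0T7k2 : ℕ → ℕ → ℕ → ℕ → Bool :=
  onCell 0 67108864 0 16777216 67108864 67108864 (c0_T7k2.row false 33554432)

def h0_0T7k2 : ∃ t, chk3 f0T7k2 t 1 1 1 = true :=
  ⟨(c (a (a (c (b (l 16) (a (l 80) (l 80))) (a (l 16) (l 16))) (c (a (l 16) (l 20)) (a (l 16) (l 20)))) (a (c (a (l 20) (l 12)) (l 20)) (c (l 12) (l 12)))) (a (a (l 16) (c (l 20) (l 20))) (a (c (l 20) (l 20)) (l 12)))), by decide +kernel⟩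

theorem ct_0T7k2 : ∃ t, chk3 f0T7k2 t 1 1 1 = true := h0_0T7k2

end Pool.Agent.Strip051.G.I1_16_1_8.Tab.Mo
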