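import Pool.Agent.Strip051.G.I1_16_1_8.MolD

/-! # The tight charts of a table: certificates (generated) -/

set_option linter.all false
set_option maxRecDepth 100000

namespace Pool.Agent.Strip051.G.I1_16_1_8.Tab.Mo

open Pool.Agent.Strip051.PB Pool.Agent.Strip051.PB.Mol Pool.Agent.Strip051.PB.T
open Pool.Agent.Strip051.G.I1_16_1_8.Tab

noncomputable def f1Ap : ℕ → ℕ → ℕ → ℕ → Bool :=
  onCell 0 67108864 0 8388608 67108864 67108864 (c1_Ap.row false 33554432)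

def h0_1Ap : ∃ t, chk3 f1Ap t 1 1 1 = true :=
  ⟨(a (c (a (c (a (l 16) (l 16)) (l 16)) (c (a (b (l 16) (c (a (l 16) (l 16)) (l 16))) (c (b (a (l 16) (b (a (l 16) (l 20)) (l 20))) (a (c (l 22) (l 22)) (l 20))) (b (a (l 16) (l 20)) (a (l 22) (l 20))))) (a (c (a (l 16) (l 16)) (l 16)) (c (a (b (l 16) (l 22)) (l 20)) (a (b (l 16) (l 20)) (l 20)))))) (a (l 16) (c (a (c (l 16) (l 16)) (c (b (a (l 16) (l 20)) (l 20)) (l 20))) (a (l 16) (l 20))))) (c (a (a (c (c (l 20) (l 20)) (l 20)) (l 12)) (l 12)) (a (c (l 20) (l 20)) (l 12)))), by decide +kernel⟩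

theorem ct_1Ap : ∃ t, chk3 f1Ap t 1 1 1 = true := h0_1Ap

noncomputable def f1Apk1 : ℕ → ℕ → ℕ → ℕ → Bool :=
  onCell 0 67108864 0 16777216 67108864 67108864 (c1_Apk1.row false 33554432)

def h0_1Apk1 : ∃ t, chk3 f1Apk1 t 1 1 1 = true :=
  ⟨(c (a (b (a (c (l 16) (l 16)) (c (a (b (l 16) (c (a (l 16) (l 16)) (l 16))) (c (b (a (l 16) (c (b (a (l 16) (l 20)) (l 20)) (l 20))) (a (l 22) (l 20))) (b (a (l 16) (l 20)) (a (l 22) (l 20))))) (a (c (l 16) (l 16)) (a (b (l 16) (l 22)) (l 20))))) (a (c (a (l 16) (b (l 16) (a (l 16) (l 22)))) (a (l 16) (a (l 16) (l 22)))) (c (a (c (b (a (l 16) (l 22)) (a (l 22) (l 22))) (b (l 22) (l 22))) (a (b (c (l 22) (l 20)) (l 12)) (l 12))) (a (b (l 22) (l 22)) (c (l 20) (l 20)))))) (a (b (c (a (l 20) (l 12)) (l 20)) (c (l 12) (l 12))) (l 12))) (a (a (b (l 16) (a (l 16) (c (l 16) (l 16)))) (c (b (a (l 16) (c (a (l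 20) (l 20)) (l 20))) (a (c (l 22) (l 22)) (l 20))) (b (a (l 16) (l 20)) (a (l 22) (l 20))))) (a (c (l 20) (l 20)) (l 12)))), by decide +kernel⟩

theorem ct_1Apk1 : ∃ t, chk3 f1Apk1 t 1 1 1 = true := h0_1Apk1

noncomputable def f1Apk2 : ℕ → ℕ → ℕ → ℕ → Bool :=
  onCell 0 67108864 0 16777216 67108864 67108864 (c1_Apk2.row false 33554432)

def h0_1Apk2 : ∃ t, chk3 f1Apk2 t 1 1 1 = true :=
  ⟨(c (a (b (a (c (l 16) (l 16)) (c (a (b (l 16) (c (l 16) (l 16))) (c (b (a (l 16) (c (a (l 20) (l 20)) (l 20))) (a (l 22) (l 20))) (b (a (l 16) (l 20)) (a (l 22) (l 20))))) (a (c (l 16) (l 16)) (a (b (l 16) (l 22)) (l 20))))) (a (a (l 16) (b (l 16) (c (c (l 16) (l 16)) (l 16)))) (c (a (c (b (a (l 16) (l 22)) (a (l 22) (l 22))) (b (l 22) (l 22))) (b (c (a (l 22) (l 12)) (l 20)) (l 12))) (a (b (l 22) (l 22)) (c (l 20) (l 20)))))) (a (b (c (a (l 20) (l 12)) (l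 20)) (c (l 12) (l 12))) (l 12))) (a (a (b (l 16) (c (a (l 16) (l 16)) (l 16))) (c (b (a (l 16) (a (l 20) (l 20))) (a (c (l 22) (l 22)) (l 20))) (a (b (l 16) (l 22)) (l 20)))) (a (c (l 20) (l 20)) (l 12)))), by decide +kernel⟩

theorem ct_1Apk2 : ∃ t, chk3 f1Apk2 t 1 1 1 = true := h0_1Apk2

noncomputable def f1Am : ℕ → ℕ → ℕ → ℕ → Bool :=
  onCell 0 67108864 0 8388608 67108864 67108864 (c1_Am.row true 33554432)

def h0_1Am : ∃ t, chk3 f1Am t 4 2 4 = true :=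
  ⟨(c (a (b (a (c (b (a (c (l 16) (l 16)) (l 16)) (a (c (l 16) (l 16)) (c (l 16) (l 16)))) (b (a (l 16) (l 16)) (a (l 16) (l 16)))) (c (a (c (l 16) (l 16)) (l 16)) (a (l 16) (l 16)))) (a (c (a (b (c (l 16) (l 16)) (l 3)) (c (a (l 16) (l 16)) (l 16))) (a (c (a (l 3) (l 16)) (l 16)) (c (l 16) (l 16)))) (c (a (c (l 16) (l 16)) (c (l 16) (l 16))) (a (c (l 16) (l 16)) (l 16))))) (b (a (c (a (l 16) (l 16)) (l 16)) (c (l 16) (l 16))) (a (c (a (c (l 16) (l 16)) (l 16)) (a (l 16) (l 16))) (c (a (l 16) (l 16)) (l 16))))) (a (b (a (c (a (l 16) (l 16)) (a (l 16) (l 16))) (c (l 16) (l 16))) (a (c (a (c (l 16) (l 16)) (l 16)) (a (l 16) (l 16))) (c (a (l 16) (l 16)) (l 16)))) (b (a (c (l 16) (l 16)) (l 16)) (a (c (l 16) (l 16)) (c (l 16) (l 16)))))), by decide +kernel⟩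

def h1_1Am : ∃ t, chk3 f1Am t 4 3 4 = true :=
  ⟨(c (a (c (a (b (a (l 3) (b (c (l 16) (l 16)) (l 3))) (l 3)) (b (a (c (a (l 16) (l 16)) (a (l 16) (l 16))) (c (a (l 16) (l 16)) (l 16))) (a (b (c (a (l 3) (l 16)) (l 16)) (l 3)) (c (b (l 16) (l 16)) (a (l 16) (l 16)))))) (a (b (a (l 3) (c (a (l 3) (l 16)) (l 16))) (l 3)) (b (a (c (l 16) (l 16)) (c (l 16) (l 16))) (a (b (c (l 16) (l 16)) (l 3)) (c (l 16) (l 16)))))) (a (c (b (a (c (l 16) (l 16)) (c (l 16) (l 16))) (a (c (a (l 16) (l 16)) (l 16)) (c (l 16) (l 16)))) (b (a (c (l 16) (l 16)) (l 16)) (a (c (l 16) (l 16)) (c (l 16) (l 16))))) (c (b (a (l 16) (l 16)) (a (c (l 16) (l 16)) (c (l 16) (l 16)))) (b (a (l 16) (l 16)) (a (l 16) (l 16)))))) (a (c (a (b (a (l 3) (c (l 16) (l 16))) (l 3)) (b (a (c (l 16) (l 16)) (l 16)) (a (c (l 16) (l 16)) (c (l 16) (l 16))))) (a (b (a (l 3) (l 16)) (l 3))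 (b (a (l 16) (l 16)) (a (l 16) (l 16))))) (a (c (b (a (l 16) (l 16)) (a (l 16) (l 16))) (b (l 16) (a (l 16) (l 16)))) (c (b (l 16) (a (l 16) (l 16))) (a (l 16) (l 16)))))), by decide +kernel⟩

def h2_1Am : ∃ t, chk3 f1Am t 5 1 4 = true :=
  ⟨(b (a (c (b (a (c (l 16) (l 16)) (l 16)) (a (c (l 16) (l 16)) (l 16))) (a (c (l 16) (l 16)) (l 16))) (c (a (c (l 16) (l 16)) (c (l 20) (l 20))) (a (l 16) (l 20)))) (a (c (a (c (b (l 16) (a (l 16) (l 16))) (b (l 16) (l 16))) (c (a (l 16) (l 16)) (a (l 16) (l 16)))) (a (c (a (l 16) (l 16)) (l 16)) (c (l 16) (l 16)))) (c (a (c (l 16) (l 16)) (c (a (l 16) (l 20)) (l 20))) (a (c (l 16) (l 16)) (c (l 20) (l 20)))))), by decide +kernel⟩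

def h3_1Am : ∃ t, chk3 f1Am t 2 1 5 = true :=
  ⟨(a (b (a (c (b (a (c (l 16) (l 16)) (c (l 16) (l 16))) (a (c (l 16) (l 16)) (c (l 16) (l 16)))) (b (a (l 16) (l 16)) (a (c (l 16) (l 16)) (l 16)))) (c (b (a (l 16) (l 16)) (a (l 16) (l 16))) (a (l 16) (l 16)))) (a (c (a (b (c (a (l 3) (l 16)) (l 16)) (l 3)) (c (b (l 16) (a (l 16) (l 16))) (a (l 16) (l 16)))) (a (b (c (l 16) (l 16)) (l 3)) (c (a (l 16) (l 16)) (l 16)))) (c (a (c (a (l 16) (l 16)) (l 16)) (c (l 16) (l 16))) (a (c (l 16) (l 16)) (c (l 16) (l 16)))))) (a (c (b (a (l 16) (l 16)) (a (c (l 16) (l 16)) (l 16))) (b (l 16) (a (l 16) (l 16)))) (b (c (a (l 16) (l 20)) (a (l 16) (l 20))) (c (a (l 16) (l 20)) (a (l 16) (l 20)))))), by decide +kernel⟩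

def h4_1Am : ∃ t, chk3 f1Am t 3 1 2 = true :=
  ⟨(a (c (a (b (c (a (c (l 20) (l 20)) (c (l 14) (l 14))) (a (l 20) (c (l 14) (l 12)))) (c (a (c (a (l 20) (l 12)) (l 20)) (c (a (l 14) (l 14)) (l 14))) (a (c (l 20) (l 20)) (c (l 14) (l 14))))) (c (a (b (l 14) (l 14)) (l 14)) (a (b (l 14) (l 14)) (l 14)))) (a (c (b (a (l 20) (c (l 12) (l 12))) (a (l 20) (c (l 12) (l 12)))) (a (l 20) (b (l 12) (l 12)))) (c (a (b (l 14) (l 14)) (l 14)) (a (l 14) (l 14))))) (c (a (c (a (l 14) (l 14)) (l 14)) (l 14)) (a (c (l 14) (l 14)) (l 14)))), by decide +kernel⟩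

def h5_1Am : ∃ t, chk3 f1Am t 1 1 3 = true :=
  ⟨(a (c (a (b (a (c (a (l 16) (l 16)) (a (l 16) (l 16))) (c (l 16) (l 16))) (a (c (a (c (l 16) (l 16)) (c (l 16) (l 16))) (a (l 16) (l 16))) (c (a (l 16) (l 16)) (l 16)))) (b (a (c (l 16) (l 16)) (c (l 20) (l 20))) (a (c (l 16) (l 16)) (a (l 16) (l 20))))) (a (b (a (c (l 16) (l 16)) (c (l 16) (l 16))) (a (c (a (l 16) (l 16)) (l 16)) (c (l 16) (l 16)))) (b (a (l 16) (c (l 20) (l 20))) (a (c (l 16) (l 16)) (c (l 16) (l 16)))))) (a (c (a (c (a (l 20) (l 12)) (a (l 20) (l 12))) (a (c (l 14) (l 14)) (l 14))) (a (c (l 20) (l 20)) (a (c (l 12) (l 12)) (l 14)))) (c (a (c (l 14) (l 14)) (l 14)) (a (c (l 14) (l 14)) (a (l 14) (l 14)))))), by decide +kernel⟩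

theorem h6_1Am : ∃ t, chk3 f1Am t 4 1 4 = true := ex3_b h0_1Am h1_1Am

theorem h7_1Am : ∃ t, chk3 f1Am t 2 1 4 = true := ex3_a h6_1Am h2_1Am

theorem h8_1Am : ∃ t, chk3 f1Am t 2 1 2 = true := ex3_c h7_1Am h3_1Am

theorem h9_1Am : ∃ t, chk3 f1Am t 1 1 2 = true := ex3_a h8_1Am h4_1Am

theorem h10_1Am : ∃ t, chk3 f1Am t 1 1 1 = true := ex3_c h9_1Am h5_1Am

theorem ct_1Am : ∃ t, chk3 f1Am t 1 1 1 = true := h10_1Am

noncomputable def f1Bp : ℕ → ℕ → ℕ → ℕ → Bool :=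
  onCell 0 67108864 0 8388608 67108864 67108864 (c1_Bp.row false 33554432)

def h0_1Bp : ∃ t, chk3 f1Bp t 1 1 1 = true :=
  ⟨(c (a (c (a (b (a (c (b (a (c (l 16) (l 16)) (l 16)) (a (c (l 16) (l 16)) (l 16))) (a (c (l 16) (l 16)) (l 16))) (c (a (l 16) (l 16)) (l 16))) (a (c (a (b (c (l 16) (l 16)) (l 3)) (c (l 16) (l 16))) (a (c (l 16) (l 16)) (l 16))) (c (a (l 16) (l 16)) (l 16)))) (b (a (c (l 16) (l 16)) (c (l 20) (l 20))) (a (c (l 16) (l 16)) (c (l 20) (l 20))))) (a (b (a (c (a (l 16) (l 16)) (l 16)) (c (l 16) (l 16))) (a (c (a (l 16) (l 16)) (l 16)) (c (l 16) (l 16)))) (a (c (l 16) (l 16)) (c (l 20) (l 20))))) (a (c (a (c (a (l 20) (l 12)) (l 20)) (c (l 12) (l 12))) (a (c (l 20) (l 20)) (l 12))) (c (a (l 12) (l 12)) (a (l 12) (l 12))))) (a (a (c (b (a (c (l 16) (l 16)) (l 16)) (a (c (l 16) (l 16)) (l 16))) (a (c (l 16) (l 16)) (l 16)))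 (c (a (l 16) (l 20)) (a (l 16) (l 20)))) (a (c (a (l 20) (l 12)) (l 20)) (c (l 12) (l 12))))), by decide +kernel⟩

theorem ct_1Bp : ∃ t, chk3 f1Bp t 1 1 1 = true := h0_1Bp

noncomputable def f1Bpk1 : ℕ → ℕ → ℕ → ℕ → Bool :=
  onCell 0 67108864 0 16777216 67108864 67108864 (c1_Bpk1.row false 33554432)

def h0_1Bpk1 : ∃ t, chk3 f1Bpk1 t 1 1 1 = true :=
  ⟨(c (a (b (a (c (b (c (a (l 16) (l 16)) (l 16)) (a (c (l 16) (l 16)) (l 16))) (a (l 16) (l 16))) (c (a (l 16) (c (l 20) (l 20))) (a (l 16) (l 20)))) (c (a (a (b (c (a (l 3) (l 16)) (l 16)) (l 3)) (c (a (l 16) (l 16)) (l 16))) (a (c (l 16) (l 16)) (c (l 20) (l 20)))) (a (a (c (l 16) (l 16)) (l 16)) (a (l 16) (l 20))))) (a (c (b (a (c (l 20) (l 20)) (l 12)) (a (c (l 20) (l 20)) (l 12))) (a (b (l 20) (l 20)) (l 12))) (c (a (l 12) (l 12)) (a (l 12) (l 12))))) (a (a (c (b (l 16) (l 16)) (a (l 16)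 (l 16))) (c (a (l 16) (l 20)) (a (l 16) (l 20)))) (a (c (a (l 20) (l 12)) (l 20)) (c (l 12) (l 12))))), by decide +kernel⟩

theorem ct_1Bpk1 : ∃ t, chk3 f1Bpk1 t 1 1 1 = true := h0_1Bpk1

noncomputable def f1Bpk2 : ℕ → ℕ → ℕ → ℕ → Bool :=
  onCell 0 67108864 0 16777216 67108864 67108864 (c1_Bpk2.row false 33554432)

def h0_1Bpk2 : ∃ t, chk3 f1Bpk2 t 1 1 1 = true :=
  ⟨(c (a (a (c (b (l 16) (c (a (l 80) (l 16)) (l 80))) (a (l 16) (l 16))) (c (a (l 16) (c (l 20) (l 20))) (a (l 16) (l 20)))) (c (a (a (b (l 20) (l 20)) (l 12)) (a (l 12) (l 12))) (a (a (l 20) (l 12)) (l 12)))) (a (a (c (l 16) (l 16)) (c (a (l 16) (l 20)) (l 20))) (a (c (l 20) (l 20)) (c (l 12) (l 12))))), by decide +kernel⟩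

theorem ct_1Bpk2 : ∃ t, chk3 f1Bpk2 t 1 1 1 = true := h0_1Bpk2

noncomputable def f1Bm : ℕ → ℕ → ℕ → ℕ → Bool :=
  onCell 0 67108864 0 8388608 67108864 67108864 (c1_Bm.row true 33554432)

def h0_1Bm : ∃ t, chk3 f1Bm t 8 4 8 = true :=
  ⟨(a (c (b (a (c (b (a (c (l 16) (l 16)) (c (l 16) (l 16))) (a (c (l 16) (l 16)) (c (l 16) (l 16)))) (b (a (c (l 16) (l 16)) (l 16)) (a (c (l 16) (l 16)) (l 16)))) (c (b (a (c (l 16) (l 16)) (l 16)) (a (c (l 16) (l 16)) (l 16))) (b (a (l 16) (l 16)) (a (l 16) (l 16))))) (a (c (a (c (a (l 16) (l 16)) (l 16)) (c (l 16) (l 16))) (a (c (l 16) (l 16)) (c (l 16) (l 16)))) (c (a (c (l 16) (l 16)) (c (l 16) (l 16))) (a (c (l 16) (l 16)) (c (l 16) (l 16)))))) (b (a (c (b (a (l 16) (l 16)) (a (l 16) (l 16))) (a (c (l 16) (l 16)) (l 16))) (c (a (c (l 16) (l 16)) (l 16)) (a (l 16) (l 16)))) (a (c (a (c (l 16) (l 16)) (c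 (l 16) (l 16))) (a (c (l 16) (l 16)) (l 16))) (c (a (l 16) (l 16)) (a (l 16) (l 16)))))) (c (b (a (c (b (a (l 16) (l 16)) (a (l 16) (l 16))) (a (c (l 16) (l 16)) (l 16))) (c (a (c (l 16) (l 16)) (l 16)) (a (l 16) (l 16)))) (a (c (a (c (l 16) (l 16)) (c (l 16) (l 16))) (a (l 16) (l 16))) (c (a (l 16) (l 16)) (a (l 16) (l 16))))) (b (a (c (a (l 16) (l 16)) (a (l 16) (l 16))) (c (a (l 16) (l 16)) (l 16))) (a (c (a (l 16) (l 16)) (a (l 16) (l 16))) (c (a (l 16) (l 16)) (l 16)))))), by decide +kernel⟩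

def h1_1Bm : ∃ t, chk3 f1Bm t 8 5 8 = true :=
  ⟨(c (a (b (a (c (a (c (l 16) (l 16)) (c (l 16) (l 16))) (a (c (l 16) (l 16)) (c (l 16) (l 16)))) (c (a (c (l 16) (l 16)) (c (l 16) (l 16))) (a (c (l 16) (l 16)) (c (l 16) (l 16))))) (a (c (a (c (l 16) (l 16)) (c (l 16) (l 16))) (a (c (l 16) (l 16)) (c (l 16) (l 16)))) (c (a (c (l 16) (l 16)) (c (l 16) (l 16))) (c (a (l 16) (l 16)) (l 16))))) (a (c (b (a (c (l 16) (l 16)) (l 16)) (c (a (l 16) (l 16)) (l 16))) (b (a (l 16) (l 16)) (a (l 16) (l 16)))) (c (b (a (l 16) (l 16)) (a (l 16) (l 16))) (b (a (l 16) (l 16)) (a (l 16) (l 16)))))) (a (a (c (b (a (c (l 16) (l 16)) (c (l 16) (l 16))) (c (a (l 16) (l 16)) (l 16))) (b (a (l 16) (l 16)) (a (l 16) (l 16)))) (c (b (a (l 16) (l 16)) (a (l 16) (l 16))) (b (a (l 16) (l 16)) (a (l 16) (l 16))))) (a (c (b (a (l 16) (l 16)) (a (l 16) (l 16))) (b (a (l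 16) (l 16)) (l 16))) (c (b (a (l 16) (l 16)) (l 16)) (a (l 16) (l 16)))))), by decide +kernel⟩

def h2_1Bm : ∃ t, chk3 f1Bm t 9 2 8 = true :=
  ⟨(b (a (c (b (a (c (a (l 16) (l 16)) (a (l 16) (l 16))) (c (a (l 16) (l 16)) (l 16))) (a (c (a (l 16) (l 16)) (a (l 16) (l 16))) (c (a (l 16) (l 16)) (l 16)))) (b (a (c (l 16) (l 16)) (c (l 16) (l 16))) (a (c (l 16) (l 16)) (c (l 16) (l 16))))) (c (b (a (c (l 16) (l 16)) (c (l 16) (l 16))) (a (c (l 16) (l 16)) (c (l 16) (l 16)))) (b (a (c (l 16) (l 16)) (c (l 16) (l 16))) (a (c (l 16) (l 16)) (c (l 16) (l 16)))))) (a (c (a (c (b (a (l 16) (l 16)) (a (l 16) (l 16))) (b (l 16) (l 16))) (c (b (l 16) (l 16)) (a (l 16) (l 16)))) (a (c (a (l 16) (l 16)) (a (l 16) (l 16))) (c (a (l 16) (l 16)) (a (l 16) (l 16))))) (c (a (c (a (l 16) (l 16)) (a (l 16) (l 16))) (c (a (l 16) (l 16)) (l 16))) (a (c (l 16) (l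 16)) (c (l 16) (l 16)))))), by decide +kernel⟩

def h3_1Bm : ∃ t, chk3 f1Bm t 8 2 9 = true :=
  ⟨(b (a (c (b (a (c (a (l 16) (l 16)) (a (l 16) (l 16))) (c (a (l 16) (l 16)) (a (l 16) (l 16)))) (a (c (a (l 16) (l 16)) (a (l 16) (l 16))) (c (a (l 16) (l 16)) (l 16)))) (b (a (c (a (l 16) (l 16)) (l 16)) (c (l 16) (l 16))) (a (c (l 16) (l 16)) (c (l 16) (l 16))))) (c (b (a (c (a (l 16) (l 16)) (l 16)) (c (l 16) (l 16))) (a (c (l 16) (l 16)) (c (l 16) (l 16)))) (b (a (c (l 16) (l 16)) (c (l 16) (l 16))) (a (c (l 16) (l 16)) (c (l 16) (l 16)))))) (a (c (a (c (b (a (l 16) (l 16)) (a (l 16) (l 16))) (b (a (l 16) (l 16)) (a (l 16) (l 16)))) (c (b (a (l 16) (l 16)) (a (l 16) (l 16))) (b (l 16) (l 16)))) (a (c (b (l 16) (l 16)) (a (l 16) (l 16))) (c (a (l 16) (l 16)) (a (l 16) (l 16))))) (c (a (c (b (l 16) (l 16)) (a (l 16) (l 16))) (c (a (l 16) (l 16))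 (a (l 16) (l 16)))) (a (c (a (l 16) (l 16)) (l 16)) (c (l 16) (l 16)))))), by decide +kernel⟩

def h4_1Bm : ∃ t, chk3 f1Bm t 9 2 9 = true :=
  ⟨(b (a (c (b (a (c (l 16) (l 16)) (c (l 16) (l 16))) (a (c (l 16) (l 16)) (c (l 16) (l 16)))) (b (a (c (l 16) (l 16)) (l 16)) (a (c (l 16) (l 16)) (l 16)))) (c (b (a (c (l 16) (l 16)) (l 16)) (a (l 16) (l 16))) (a (c (l 16) (l 16)) (l 16)))) (a (c (a (c (a (l 16) (l 16)) (l 16)) (c (l 16) (l 16))) (a (c (l 16) (l 16)) (c (l 16) (l 16)))) (c (a (c (l 16) (l 16)) (c (l 16) (l 16))) (a (c (l 16) (l 16)) (l 16))))), by decide +kernel⟩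

def h5_1Bm : ∃ t, chk3 f1Bm t 5 2 8 = true :=
  ⟨(a (b (a (c (b (a (c (l 16) (l 16)) (l 16)) (a (c (l 16) (l 16)) (l 16))) (b (a (l 16) (l 16)) (a (l 16) (l 16)))) (c (b (a (l 16) (l 16)) (a (l 16) (l 16))) (a (l 16) (l 16)))) (a (c (a (c (l 16) (l 16)) (c (l 16) (l 16))) (a (c (l 16) (l 16)) (c (l 16) (l 16)))) (c (a (c (l 16) (l 16)) (l 16)) (a (l 16) (l 16))))) (b (a (c (a (l 16) (l 16)) (a (l 16) (l 16))) (c (a (b (l 16) (c (l 22) (l 22))) (a (b (a (l 16) (l 20)) (l 22)) (l 20))) (a (b (l 16) (c (l 22) (l 16))) (a (c (b (l 20) (l 20)) (l 20)) (l 20))))) (a (c (a (l 16) (b (l 16) (c (l 22) (l 16)))) (a (l 16) (b (l 16) (c (l 16) (l 16))))) (c (a (c (b (l 22) (l 22)) (a (l 22) (l 22))) (c (l 20) (l 20))) (a (b (c (l 22) (l 22)) (l 22)) (c (l 20) (l 20))))))), by decide +kernel⟩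

def h6_1Bm : ∃ t, chk3 f1Bm t 5 2 9 = true :=
  ⟨(a (b (a (c (a (c (l 16) (l 16)) (l 16)) (a (l 16) (l 16))) (c (a (l 16) (l 16)) (a (l 16) (l 16)))) (a (c (a (l 16) (l 16)) (a (l 16) (l 16))) (c (a (l 16) (l 16)) (l 16)))) (b (a (c (l 16) (l 16)) (c (a (b (l 16) (c (l 16) (l 16))) (c (l 20) (l 20))) (a (b (l 16) (l 22)) (c (l 20) (l 20))))) (a (c (a (l 16) (b (l 16) (l 22))) (a (l 16) (c (l 22) (l 22)))) (c (a (b (l 22) (l 22)) (l 20)) (a (b (l 22) (l 22)) (l 20)))))), by decide +kernel⟩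

def h7_1Bm : ∃ t, chk3 f1Bm t 4 2 5 = true :=
  ⟨(c (a (b (a (c (b (a (c (l 16) (l 16)) (c (l 16) (l 16))) (a (c (l 16) (l 16)) (c (l 16) (l 16)))) (b (a (c (l 16) (l 16)) (c (l 16) (l 16))) (a (c (l 16) (l 16)) (l 16)))) (c (b (a (c (l 16) (l 16)) (l 16)) (a (c (l 16) (l 16)) (l 16))) (b (a (l 16) (l 16)) (a (l 16) (l 16))))) (a (c (a (c (a (l 16) (l 16)) (a (l 16) (l 16))) (c (a (l 16) (l 16)) (l 16))) (a (c (l 16) (l 16)) (c (l 16) (l 16)))) (c (a (c (l 16) (l 16)) (c (l 16) (l 16))) (a (c (l 16) (l 16)) (c (l 16) (l 16)))))) (b (a (c (b (a (l 16) (l 16)) (a (l 16) (l 16))) (a (l 16) (l 16))) (c (a (l 16) (l 16)) (a (l 16) (l 16)))) (a (c (a (c (l 16) (l 16)) (l 16)) (a (l 16) (l 16))) (c (a (l 16) (l 16)) (a (l 16) (l 16)))))) (a (b (a (c (b (a (l 16) (l 16)) (a (l 16) (l 16))) (a (c (l 16) (l 16)) (l 16))) (c (a (c (l 16) (l 16)) (l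 16)) (a (l 16) (l 16)))) (a (c (a (c (l 16) (l 16)) (c (l 16) (l 16))) (a (c (l 16) (l 16)) (l 16))) (c (a (l 16) (l 16)) (a (l 16) (l 16))))) (b (a (c (a (l 16) (l 16)) (a (l 16) (l 16))) (c (a (l 16) (l 16)) (l 16))) (a (c (a (l 16) (l 16)) (a (l 16) (l 16))) (c (l 16) (l 16)))))), by decide +kernel⟩

def h8_1Bm : ∃ t, chk3 f1Bm t 5 2 5 = true :=
  ⟨(a (c (b (a (c (a (l 16) (l 16)) (l 16)) (c (l 16) (l 16))) (a (c (a (l 16) (l 16)) (l 16)) (c (l 16) (l 16)))) (b (a (c (l 16) (l 16)) (c (l 16) (l 16))) (a (c (l 16) (l 16)) (c (l 16) (l 16))))) (c (b (a (c (l 16) (l 16)) (c (a (b (l 16) (l 16)) (l 20)) (a (b (l 16) (l 16)) (l 20)))) (a (a (l 16) (b (l 16) (c (l 16) (l 16)))) (c (a (c (l 22) (l 22)) (l 20)) (a (c (l 22) (l 22)) (l 20))))) (b (a (l 16) (c (a (b (l 16) (l 16)) (l 20)) (a (a (l 16) (l 20)) (l 20)))) (a (a (l 16) (c (l 22) (l 22)))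 (a (c (c (l 22) (l 22)) (l 22)) (l 20)))))), by decide +kernel⟩

def h9_1Bm : ∃ t, chk3 f1Bm t 8 6 8 = true :=
  ⟨(c (a (b (c (a (c (a (l 80) (l 80)) (a (l 80) (l 16))) (c (a (l 16) (l 16)) (a (l 16) (l 16)))) (a (c (a (l 16) (l 16)) (a (l 16) (l 16))) (c (l 80) (l 80)))) (c (a (c (a (a (l 80) (l 80)) (a (l 80) (l 80))) (a (a (l 80) (l 80)) (a (l 80) (l 80)))) (c (a (a (l 80) (l 80)) (l 80)) (a (l 80) (l 80)))) (a (c (a (a (l 80) (l 80)) (l 80)) (a (l 80) (l 80))) (c (a (l 80) (l 80)) (a (l 80) (l 80)))))) (c (a (b (a (l 80) (l 80)) (c (a (l 80) (l 80)) (a (l 80) (l 80)))) (b (a (l 16) (l 16)) (a (l 80) (l 80)))) (a (b (a (l 16) (l 16)) (a (l 80) (l 80))) (b (a (l 16) (l 16)) (a (l 80) (l 16)))))) (a (c (a (b (c (a (l 16) (l 16)) (l 80)) (c (a (l 80) (l 80)) (a (l 80) (l 80)))) (b (a (l 16) (l 16)) (a (l 80) (l 80)))) (a (b (a (l 16) (l 16))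 (a (l 80) (l 80))) (b (a (l 16) (l 16)) (a (l 80) (l 16))))) (a (c (b (a (l 16) (l 16)) (a (l 80) (l 16))) (b (l 16) (l 80))) (c (b (l 16) (l 80)) (a (l 80) (l 80)))))), by decide +kernel⟩

def h10_1Bm : ∃ t, chk3 f1Bm t 8 7 16 = true :=
  ⟨(a (c (a (b (c (a (a (l 80) (l 80)) (a (l 80) (l 80))) (a (a (l 80) (l 80)) (a (l 80) (l 80)))) (c (a (b (l 80) (l 80)) (a (l 80) (l 80))) (a (a (l 80) (l 80)) (a (l 80) (l 80))))) (b (c (a (a (l 80) (l 80)) (l 80)) (a (l 80) (l 80))) (c (a (a (l 80) (l 80)) (l 80)) (a (a (l 80) (l 80)) (l 80))))) (a (b (c (a (a (l 80) (l 80)) (l 80)) (a (l 80) (l 80))) (c (a (a (l 80) (l 80)) (a (l 80) (l 80))) (a (a (l 80) (l 80)) (l 80)))) (b (c (a (l 80) (l 80)) (a (l 80) (l 80))) (c (a (l 80) (l 80)) (a (l 80) (l 80)))))) (b (c (a (c (a (l 80) (l 80)) (a (l 80) (l 80))) (c (a (l 80) (l 80)) (a (l 80) (l 80)))) (a (c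 (a (l 80) (l 80)) (a (l 80) (l 80))) (a (l 80) (l 80)))) (c (a (c (a (l 80) (l 80)) (a (l 80) (l 80))) (c (a (l 80) (l 80)) (a (l 80) (l 80)))) (a (c (a (l 80) (l 80)) (a (l 80) (l 80))) (a (l 80) (l 80)))))), by decide +kernel⟩

def h11_1Bm : ∃ t, chk3 f1Bm t 8 7 17 = true :=
  ⟨(a (b (c (a (c (a (l 80) (l 80)) (a (l 80) (l 80))) (c (a (l 80) (l 80)) (a (l 80) (l 80)))) (a (c (a (l 80) (l 80)) (a (l 80) (l 80))) (c (a (l 80) (l 80)) (l 80)))) (c (a (c (a (l 80) (l 80)) (a (l 80) (l 80))) (c (a (l 80) (l 80)) (a (l 80) (l 80)))) (a (c (a (l 80) (l 80)) (a (l 80) (l 80))) (c (a (l 80) (l 80)) (l 80))))) (b (c (a (c (l 80) (l 80)) (a (l 80) (l 80))) (a (a (l 80) (l 80)) (l 80))) (c (a (c (l 80) (l 80)) (a (l 80) (l 80))) (a (a (l 80) (l 80)) (a (l 80) (l 80)))))), by decide +kernel⟩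

def h12_1Bm : ∃ t, chk3 f1Bm t 9 3 8 = true :=
  ⟨(b (c (a (a (c (b (a (l 16) (l 16)) (a (l 80) (l 16))) (b (l 16) (l 80))) (c (b (l 16) (l 80)) (a (l 80) (l 80)))) (a (c (a (l 80) (l 80)) (a (l 16) (l 16))) (c (a (l 16) (l 16)) (l 80)))) (a (a (c (a (l 80) (l 80)) (a (l 16) (l 16))) (c (a (l 16) (l 16)) (l 80))) (a (c (l 80) (l 16)) (c (l 16) (l 16))))) (c (a (b (c (a (a (l 80) (l 80)) (a (l 80) (l 80))) (a (a (l 80) (l 80)) (l 80))) (c (a (a (l 80) (l 80)) (a (l 80) (l 80))) (a (a (l 80) (l 80)) (a (l 80) (l 80))))) (b (a (c (l 80) (l 80)) (c (l 80) (l 16))) (a (c (l 80) (l 80)) (c (l 80) (l 80))))) (a (b (a (c (l 80) (l 80)) (c (l 80) (l 16))) (c (a (a (l 80) (l 80)) (l 80)) (a (l 80) (l 80)))) (a (c (a (l 80) (l 80)) (a (l 80) (l 80))) (c (a (l 80) (l 80)) (l 80)))))), by decide +kernel⟩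

def h13_1Bm : ∃ t, chk3 f1Bm t 8 3 9 = true :=
  ⟨(b (c (a (a (c (b (a (l 16) (l 16)) (a (l 80) (l 16))) (b (l 16) (l 80))) (c (b (l 16) (l 80)) (a (l 80) (l 80)))) (a (c (a (l 80) (l 80)) (a (l 16) (l 16))) (c (a (l 16) (l 16)) (a (l 16) (l 16))))) (a (a (c (a (l 80) (l 80)) (a (l 16) (l 16))) (c (a (l 16) (l 16)) (a (l 16) (l 16)))) (a (c (a (l 16) (l 16)) (l 16)) (c (l 16) (l 16))))) (c (a (b (c (a (c (a (l 80) (l 80)) (l 80)) (a (l 80) (l 80))) (a (a (l 80) (l 80)) (l 80))) (c (a (c (a (l 80) (l 80)) (l 80)) (a (l 80) (l 80))) (a (a (l 80) (l 80)) (a (l 80) (l 80))))) (b (a (c (l 80) (l 80)) (c (l 80) (l 16))) (c (a (a (l 80) (l 80)) (l 80)) (a (l 80) (l 80))))) (a (b (a (c (l 80) (l 80)) (c (l 80) (l 16))) (c (a (a (l 80) (l 80)) (l 80)) (a (a (l 80) (l 80)) (l 80)))) (c (a (a (l 80) (l 80)) (a (l 80) (l 80))) (a (a (l 80) (l 80)) (l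 80)))))), by decide +kernel⟩

def h14_1Bm : ∃ t, chk3 f1Bm t 9 3 9 = true :=
  ⟨(c (a (b (a (c (l 80) (l 16)) (c (l 16) (l 16))) (a (c (a (l 80) (l 80)) (a (l 80) (l 80))) (c (l 80) (l 80)))) (b (a (c (l 16) (l 16)) (c (l 16) (l 16))) (a (c (l 80) (l 80)) (c (l 80) (l 80))))) (a (b (a (c (l 16) (l 16)) (c (l 16) (l 16))) (a (c (l 80) (l 80)) (c (l 80) (l 80)))) (b (a (c (l 16) (l 16)) (l 16)) (a (c (l 80) (l 16)) (l 80))))), by decide +kernel⟩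

def h15_1Bm : ∃ t, chk3 f1Bm t 5 3 8 = true :=
  ⟨(a (c (a (b (a (c (l 80) (l 16)) (c (l 16) (l 16))) (a (b (l 80) (c (l 80) (l 80))) (c (a (l 80) (l 80)) (l 80)))) (b (a (c (l 16) (l 16)) (c (l 16) (l 16))) (a (c (l 80) (l 80)) (b (l 16) (a (l 80) (c (l 22) (l 22))))))) (a (b (a (c (l 16) (l 16)) (c (l 16) (l 16))) (a (c (l 80) (l 80)) (c (l 80) (l 80)))) (b (a (l 16) (l 16)) (a (c (l 80) (l 16)) (b (l 16) (c (l 22) (l 22))))))) (a (c (b (a (b (l 16) (c (l 22) (l 22))) (c (a (l 22) (l 22)) (a (l 22) (l 22)))) (a (c (b (l 22) (a (l 22) (l 22))) (b (l 22) (l 22))) (c (b (l 22) (l 14)) (a (l 22) (l 14))))) (b (a (b (l 16) (c (l 22) (l 16))) (c (a (l 22) (l 22)) (a (l 22) (l 22)))) (a (c (a (l 22) (l 22)) (a (l 22) (l 22))) (c (a (l 22) (l 14)) (a (l 22) (l 14)))))) (c (b (a (c (a (l 22) (l 14)) (a (l 22) (l 12))) (l 12)) (a (c (a (l 14) (l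 12)) (a (l 14) (l 12))) (l 12))) (b (a (b (c (l 22) (l 22)) (l 14)) (l 12)) (a (c (l 14) (l 14)) (l 12)))))), by decide +kernel⟩

def h16_1Bm : ∃ t, chk3 f1Bm t 5 3 9 = true :=
  ⟨(a (a (c (b (a (l 16) (l 16)) (a (c (l 80) (l 16)) (c (l 16) (l 16)))) (b (a (l 16) (l 16)) (a (l 80) (l 16)))) (c (b (a (l 16) (l 16)) (a (l 80) (b (l 16) (c (l 22) (l 22))))) (b (l 16) (a (l 16) (c (a (l 16) (l 22)) (l 22)))))) (a (c (b (a (b (l 16) (c (l 16) (l 16))) (b (l 22) (l 22))) (a (c (a (l 22) (l 22)) (a (l 22) (l 22))) (c (a (l 22) (l 14)) (l 22)))) (b (a (c (l 22) (l 22)) (c (l 22) (l 22))) (a (c (l 22) (l 22)) (c (l 22) (l 22))))) (c (b (a (b (l 22) (l 14)) (l 12)) (a (c (l 14) (l 14)) (l 12))) (b (a (c (l 22) (l 22)) (l 12)) (a (c (l 12) (l 12)) (l 12)))))), by decide +kernel⟩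

def h17_1Bm : ∃ t, chk3 f1Bm t 4 3 5 = true :=
  ⟨(c (a (b (a (c (a (c (a (l 16) (l 16)) (l 16)) (c (l 16) (l 16))) (a (c (l 16) (l 16)) (c (l 16) (l 16)))) (c (a (c (l 16) (l 16)) (c (l 16) (l 16))) (a (c (l 16) (l 16)) (l 16)))) (c (a (c (a (b (l 16) (l 80)) (a (l 80) (l 80))) (a (a (l 80) (l 80)) (l 80))) (a (c (l 80) (l 80)) (c (l 80) (l 80)))) (a (a (c (l 80) (l 80)) (c (l 80) (l 80))) (a (c (l 80) (l 16)) (l 80))))) (a (c (b (a (c (l 16) (l 16)) (l 16)) (a (c (l 80) (l 16)) (l 80))) (b (a (l 16) (l 16)) (a (l 80) (l 16)))) (c (b (a (l 16) (l 16)) (a (l 80) (l 16))) (b (a (l 16) (l 16)) (a (l 16) (l 16)))))) (a (a (c (b (a (c (l 16) (l 16)) (c (l 16) (l 16))) (a (c (l 80) (l 16)) (c (l 16) (l 16)))) (b (a (l 16) (l 16)) (a (l 80) (l 16)))) (c (b (a (l 16) (l 16)) (a (l 80) (l 16))) (b (a (l 16) (l 16)) (a (l 16) (l 16))))) (a (c (b (a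 (l 16) (l 16)) (a (l 16) (l 16))) (b (l 16) (l 16))) (c (b (l 16) (l 16)) (a (l 16) (l 16)))))), by decide +kernel⟩

def h18_1Bm : ∃ t, chk3 f1Bm t 5 3 5 = true :=
  ⟨(c (a (a (c (b (a (l 16) (l 16)) (a (l 16) (l 16))) (b (l 16) (l 16))) (c (b (l 16) (a (l 16) (c (l 22) (l 22)))) (b (l 16) (a (l 16) (c (l 22) (l 22)))))) (a (c (b (a (c (l 22) (l 22)) (c (l 22) (l 22))) (a (c (l 22) (l 22)) (c (l 22) (l 22)))) (b (a (c (l 22) (l 22)) (c (l 22) (l 22))) (a (c (l 22) (l 22)) (c (l 22) (l 22))))) (b (c (a (c (l 22) (l 22)) (l 12)) (a (l 22) (l 12))) (a (c (l 14) (l 12)) (l 12))))) (a (a (c (a (l 16) (l 16)) (a (l 16) (l 16))) (c (b (l 16) (a (l 16) (l 22))) (b (l 16) (a (l 16) (l 22))))) (b (a (c (a (l 22) (l 22)) (a (l 22) (l 22))) (a (c (l 22) (l 20)) (l 12))) (a (c (a (l 22) (l 22)) (a (l 22) (l 22))) (a (c (l 12) (l 12)) (l 12)))))), by decide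 +kernel⟩

def h19_1Bm : ∃ t, chk3 f1Bm t 3 1 2 = true :=
  ⟨(c (a (b (a (c (b (a (c (l 20) (l 20)) (l 12)) (a (c (l 12) (l 12)) (c (l 12) (l 12)))) (b (a (c (l 20) (l 20)) (l 12)) (a (c (l 12) (l 12)) (l 12)))) (c (a (c (l 12) (l 12)) (l 14)) (a (c (l 12) (l 12)) (l 12)))) (a (c (c (a (a (l 44) (l 44)) (a (l 44) (l 44))) (a (a (l 44) (l 44)) (l 44))) (a (c (a (l 12) (l 12)) (a (l 12) (l 12))) (c (l 12) (l 12)))) (c (a (c (l 44) (l 12)) (l 46)) (a (c (l 12) (l 12)) (l 46))))) (c (a (b (l 14) (a (l 46) (l 46))) (a (l 46) (l 46))) (a (b (l 14) (l 46)) (l 46)))) (a (b (a (c (a (c (a (l 20) (l 12)) (l 20)) (l 12)) (a (c (l 20) (l 20)) (l 12))) (c (a (l 12) (l 12)) (a (l 12) (l 12)))) (a (c (a (c (l 12) (l 12)) (c (l 12) (l 12))) (a (c (l 12) (l 12)) (l 12))) (c (a (l 12) (l 12)) (a (l 12) (l 12))))) (a (c (b (l 14) (l 14)) (b (l 14) (l 14))) (c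 (l 46) (l 46))))), by decide +kernel⟩

def h20_1Bm : ∃ t, chk3 f1Bm t 4 1 6 = true :=
  ⟨(b (a (c (b (a (c (a (l 16) (l 16)) (a (l 16) (l 16))) (c (a (l 16) (l 16)) (l 16))) (a (c (a (l 16) (l 16)) (a (l 16) (l 16))) (c (a (l 16) (l 16)) (l 16)))) (b (a (c (l 16) (l 16)) (c (l 16) (l 16))) (a (c (l 16) (l 16)) (c (l 16) (l 16))))) (c (b (a (c (l 16) (l 16)) (c (l 16) (l 16))) (a (c (l 16) (l 16)) (c (l 16) (l 16)))) (b (a (c (l 16) (l 16)) (c (l 16) (l 16))) (a (c (l 16) (l 16)) (l 16))))) (c (a (a (c (b (a (l 16) (l 16)) (a (l 16) (l 16))) (b (a (l 16) (l 16)) (a (l 16) (l 16)))) (c (b (a (l 16) (l 16)) (l 16)) (b (l 16) (l 16)))) (a (c (a (l 16) (l 16)) (a (l 16) (l 16))) (c (a (l 16) (l 16)) (a (l 16) (l 16))))) (a (a (c (b (l 16) (l 16)) (a (l 16) (l 16))) (c (a (l 16) (l 16)) (a (l 16) (l 16)))) (a (c (a (l 16) (l 16)) (l 16)) (c (l 16)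 (l 16)))))), by decide +kernel⟩

def h21_1Bm : ∃ t, chk3 f1Bm t 5 1 6 = true :=
  ⟨(b (a (c (b (a (c (l 16) (l 16)) (l 16)) (a (c (l 16) (l 16)) (l 16))) (b (a (l 16) (l 16)) (a (l 16) (l 16)))) (c (a (b (l 16) (a (l 16) (c (l 16) (l 16)))) (c (a (b (a (l 16) (l 16)) (l 22)) (l 20)) (a (b (a (l 16) (l 16)) (l 20)) (l 20)))) (a (b (l 16) (b (l 16) (l 16))) (a (c (b (c (l 16) (l 16)) (l 20)) (b (l 16) (l 20))) (l 20))))) (a (c (b (a (c (l 16) (l 16)) (l 16)) (a (c (l 16) (l 16)) (a (l 16) (c (l 22) (l 16))))) (a (c (l 16) (l 16)) (b (l 16) (c (a (l 16) (l 16)) (l 22))))) (c (a (c (b (a (l 16) (l 22)) (a (l 22) (l 22))) (b (a (l 16) (l 22)) (a (l 22) (l 22)))) (a (c (b (l 20) (l 12)) (l 20)) (l 12))) (a (c (b (a (l 16) (l 22)) (l 22)) (b (l 22) (l 22))) (c (a (l 20) (l 12)) (l 20)))))), by decide +kernel⟩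

def h22_1Bm : ∃ t, chk3 f1Bm t 2 1 7 = true :=
  ⟨(a (b (a (c (b (a (c (l 16) (l 16)) (c (l 16) (l 16))) (a (c (l 16) (l 16)) (c (l 16) (l 16)))) (b (a (c (l 16) (l 16)) (l 16)) (a (l 16) (l 16)))) (c (b (a (l 16) (l 16)) (a (l 16) (l 16))) (a (c (l 16) (l 16)) (l 16)))) (a (c (a (c (a (l 16) (l 16)) (l 16)) (c (l 16) (l 16))) (a (c (l 16) (l 16)) (c (l 16) (l 16)))) (c (a (c (l 16) (l 16)) (c (l 16) (l 16))) (a (c (l 16) (l 16)) (l 16))))) (b (a (c (a (c (l 16) (l 16)) (l 16)) (a (l 16) (l 16))) (c (a (b (l 16) (c (l 16) (l 16))) (a (c (l 20) (l 20)) (l 20))) (a (b (l 16) (c (l 16) (l 16))) (c (l 20) (l 20))))) (a (c (a (l 16) (b (l 16) (c (l 16) (l 16)))) (a (l 16) (b (l 16) (c (l 16) (l 16))))) (c (a (c (b (l 22) (l 22)) (a (l 22) (l 22))) (c (l 20) (l 20))) (a (c (a (l 22) (l 22)) (a (l 22) (l 20))) (c (l 20) (l 20))))))), by decide +kernel⟩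

def h23_1Bm : ∃ t, chk3 f1Bm t 3 1 3 = true :=
  ⟨(c (a (a (b (b (c (a (l 20) (l 12)) (a (l 20) (l 12))) (c (a (l 12) (l 12)) (a (l 12) (l 12)))) (c (a (l 12) (l 12)) (a (l 12) (l 12)))) (c (b (a (l 12) (l 12)) (a (l 12) (l 12))) (b (l 12) (l 12)))) (a (c (a (l 14) (l 14)) (a (l 12) (l 12))) (c (l 14) (l 14)))) (a (a (b (b (c (l 20) (l 20)) (c (l 12) (l 12))) (c (a (l 12) (l 12)) (a (l 12) (l 12)))) (c (a (l 12) (l 12)) (a (l 12) (l 12)))) (a (b (l 14) (c (l 12) (l 12))) (c (l 14) (l 14))))), by decide +kernel⟩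

theorem h24_1Bm : ∃ t, chk3 f1Bm t 2 1 6 = true := ex3_a h20_1Bm h21_1Bm

theorem h25_1Bm : ∃ t, chk3 f1Bm t 2 1 3 = true := ex3_c h24_1Bm h22_1Bm

theorem h26_1Bm : ∃ t, chk3 f1Bm t 1 1 3 = true := ex3_a h25_1Bm h23_1Bm

theorem h27_1Bm : ∃ t, chk3 f1Bm t 2 3 5 = true := ex3_a h17_1Bm h18_1Bm

theorem h28_1Bm : ∃ t, chk3 f1Bm t 5 3 4 = true := ex3_c h15_1Bm h16_1Bm

theorem h29_1Bm : ∃ t, chk3 f1Bm t 4 3 9 = true := ex3_a h13_1Bm h14_1Bm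

theorem h30_1Bm : ∃ t, chk3 f1Bm t 8 7 8 = true := ex3_c h10_1Bm h11_1Bm

theorem h31_1Bm : ∃ t, chk3 f1Bm t 8 3 8 = true := ex3_b h9_1Bm h30_1Bm

theorem h32_1Bm : ∃ t, chk3 f1Bm t 4 3 8 = true := ex3_a h31_1Bm h12_1Bm

theorem h33_1Bm : ∃ t, chk3 f1Bm t 4 3 4 = true := ex3_c h32_1Bm h29_1Bm

theorem h34_1Bm : ∃ t, chk3 f1Bm t 2 3 4 = true := ex3_a h33_1Bm h28_1Bm

theorem h35_1Bm : ∃ t, chk3 f1Bm t 2 3 2 = true := ex3_c h34_1Bm h27_1Bm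

theorem h36_1Bm : ∃ t, chk3 f1Bm t 2 2 5 = true := ex3_a h7_1Bm h8_1Bm

theorem h37_1Bm : ∃ t, chk3 f1Bm t 5 2 4 = true := ex3_c h5_1Bm h6_1Bm

theorem h38_1Bm : ∃ t, chk3 f1Bm t 4 2 9 = true := ex3_a h3_1Bm h4_1Bm

theorem h39_1Bm : ∃ t, chk3 f1Bm t 8 2 8 = true := ex3_b h0_1Bm h1_1Bm

theorem h40_1Bm : ∃ t, chk3 f1Bm t 4 2 8 = true := ex3_a h39_1Bm h2_1Bm

theorem h41_1Bm : ∃ t, chk3 f1Bm t 4 2 4 = true := ex3_c h40_1Bm h38_1Bm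

theorem h42_1Bm : ∃ t, chk3 f1Bm t 2 2 4 = true := ex3_a h41_1Bm h37_1Bm

theorem h43_1Bm : ∃ t, chk3 f1Bm t 2 2 2 = true := ex3_c h42_1Bm h36_1Bm

theorem h44_1Bm : ∃ t, chk3 f1Bm t 2 1 2 = true := ex3_b h43_1Bm h35_1Bm

theorem h45_1Bm : ∃ t, chk3 f1Bm t 1 1 2 = true := ex3_a h44_1Bm h19_1Bm

theorem h46_1Bm : ∃ t, chk3 f1Bm t 1 1 1 = true := ex3_c h45_1Bm h26_1Bm

theorem ct_1Bm : ∃ t, chk3 f1Bm t 1 1 1 = true := h46_1Bm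

noncomputable def f1T3 : ℕ → ℕ → ℕ → ℕ → Bool :=
  onCell 0 67108864 0 16777216 67108864 67108864 (c1_T3.row false 33554432)

def h0_1T3 : ∃ t, chk3 f1T3 t 1 1 1 = true :=
  ⟨(a (c (a (c (b (l 16) (a (l 80) (l 16))) (l 16)) (c (a (l 16) (b (l 20) (l 20))) (a (l 16) (l 20)))) (a (l 16) (a (l 16) (l 20)))) (c (a (c (a (b (l 20) (l 20)) (l 12)) (a (l 20) (l 12))) (c (l 12) (l 12))) (a (c (l 20) (l 20)) (c (l 12) (l 12))))), by decide +kernel⟩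

theorem ct_1T3 : ∃ t, chk3 f1T3 t 1 1 1 = true := h0_1T3

noncomputable def f1T4 : ℕ → ℕ → ℕ → ℕ → Bool :=
  onCell 0 67108864 0 16777216 67108864 67108864 (c1_T4.row false 33554432)

def h0_1T4 : ∃ t, chk3 f1T4 t 1 1 1 = true :=
  ⟨(a (c (b (c (a (l 16) (a (b (l 16) (c (l 16) (l 16))) (c (b (a (l 16) (c (a (l 20) (l 20)) (l 20))) (a (l 22) (l 20))) (a (b (l 16) (l 22)) (l 20))))) (a (l 16) (a (c (l 16) (l 16)) (a (b (l 16) (l 22)) (l 20))))) (a (a (l 16) (b (l 16) (c (c (l 16) (l 16)) (l 16)))) (c (a (c (b (a (l 16) (l 22)) (a (l 22) (l 22))) (b (l 22) (l 22))) (b (c (a (l 22) (l 12)) (l 20)) (l 12))) (a (b (l 22) (l 22)) (c (l 20) (l 20)))))) (a (b (l 16) (c (a (l 16) (l 16)) (l 16))) (c (b (a (l 16) (a (l 20) (l 20))) (a (c (l 22) (l 22)) (l 20))) (a (b (l 16) (l 22)) (l 20))))) (c (a (a (c (b (l 20) (l 12)) (l 20)) (c (l 12) (l 12)))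 (l 12)) (a (c (l 20) (l 20)) (l 12)))), by decide +kernel⟩

theorem ct_1T4 : ∃ t, chk3 f1T4 t 1 1 1 = true := h0_1T4

noncomputable def f1T5 : ℕ → ℕ → ℕ → ℕ → Bool :=
  onCell 0 67108864 0 8388608 67108864 67108864 (c1_T5.row true 33554432)

def h0_1T5 : ∃ t, chk3 f1T5 t 1 1 1 = true :=
  ⟨(c (a (c (a (a (l 16) (l 16)) (l 20)) (a (l 16) (l 20))) (l 20)) (a (a (l 16) (l 20)) (l 20))), by decide +kernel⟩

theorem ct_1T5 : ∃ t, chk3 f1T5 t 1 1 1 = true := h0_1T5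

noncomputable def f1T7 : ℕ → ℕ → ℕ → ℕ → Bool :=
  onCell 0 67108864 0 16777216 67108864 67108864 (c1_T7.row false 33554432)

def h0_1T7 : ∃ t, chk3 f1T7 t 1 1 1 = true :=
  ⟨(c (a (b (b (a (b (c (c (l 16) (l 16)) (l 16)) (c (l 80) (l 80))) (b (l 20) (l 84))) (c (a (l 80) (l 84)) (l 84))) (c (a (a (l 64) (l 64)) (l 84)) (a (l 80) (l 84)))) (a (b (b (b (l 20) (l 84)) (l 84)) (l 84)) (l 44))) (a (b (b (b (l 20) (a (l 80) (l 20))) (a (l 80) (l 84))) (a (l 80) (l 84))) (b (b (l 20) (a (l 84) (l 44))) (a (l 84) (l 44))))), by decide +kernel⟩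

theorem ct_1T7 : ∃ t, chk3 f1T7 t 1 1 1 = true := h0_1T7

noncomputable def f1T7k1 : ℕ → ℕ → ℕ → ℕ → Bool :=
  onCell 0 67108864 0 16777216 67108864 67108864 (c1_T7k1.row false 33554432)

def h0_1T7k1 : ∃ t, chk3 f1T7k1 t 1 1 1 = true :=
  ⟨(c (a (b (a (b (c (b (l 16) (l 80)) (l 16)) (c (l 80) (l 80))) (b (c (l 20) (l 20)) (l 84))) (c (a (a (l 80) (l 80)) (l 84)) (a (l 80) (l 84)))) (a (b (b (l 20) (l 84)) (l 84)) (l 44))) (a (b (b (l 20) (a (l 80) (l 20))) (a (l 80) (l 84))) (a (b (l 20) (l 84)) (l 44)))), by decide +kernel⟩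

theorem ct_1T7k1 : ∃ t, chk3 f1T7k1 t 1 1 1 = true := h0_1T7k1

noncomputable def f1T7k2 : ℕ → ℕ → ℕ → ℕ → Bool :=
  onCell 0 67108864 0 16777216 67108864 67108864 (c1_T7k2.row false 33554432)

def h0_1T7k2 : ∃ t, chk3 f1T7k2 t 1 1 1 = true :=
  ⟨(c (a (a (c (b (l 16) (a (l 80) (l 80))) (a (l 16) (l 16))) (b (c (a (l 16) (l 20)) (l 20)) (c (a (l 16) (l 20)) (l 20)))) (c (a (a (l 20) (l 12)) (l 12)) (a (l 20) (l 12)))) (a (c (a (l 16) (l 20)) (a (l 16) (l 20))) (a (c (l 20) (l 20)) (l 12)))), by decide +kernel⟩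

theorem ct_1T7k2 : ∃ t, chk3 f1T7k2 t 1 1 1 = true := h0_1T7k2

end Pool.Agent.Strip051.G.I1_16_1_8.Tab.Mo
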