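import Pool.Agent.Strip051.G.I1_16_1_8.Sp1_1
import Pool.Agent.Strip051.G.I1_16_1_8.Sp1_2

/-! # Unit strips 1 (generated) -/

set_option linter.all false
set_option maxRecDepth 100000

namespace Pool.Agent.Strip051.G.I1_16_1_8.Tab.St.C

open Pool.Agent.Strip051.PB Pool.Agent.Strip051.PB.T Pool.Agent.StripNear Pool.Agent.Strip051.LC
open Pool.Agent.Strip051.G.I1_16_1_8.Tab Pool.Agent.Strip051.G.I1_16_1_8.Tab.St

theorem t164_A00pm_012_s1 : ∃ t, chk3 f_A00pm_012_s1 t 20 15 3 = true := ex3_a k159_A00pm_012_s1 k160_A00pm_012_s1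

theorem t165_A00pm_012_s1 : ∃ t, chk3 f_A00pm_012_s1 t 20 15 1 = true := ex3_c k158_A00pm_012_s1 t164_A00pm_012_s1

theorem t166_A00pm_012_s1 : ∃ t, chk3 f_A00pm_012_s1 t 10 15 1 = true := ex3_a t165_A00pm_012_s1 k161_A00pm_012_s1

theorem t167_A00pm_012_s1 : ∃ t, chk3 f_A00pm_012_s1 t 10 7 1 = true := ex3_b k157_A00pm_012_s1 t166_A00pm_012_s1

theorem t168_A00pm_012_s1 : ∃ t, chk3 f_A00pm_012_s1 t 5 7 1 = true := ex3_a t167_A00pm_012_s1 k162_A00pm_012_s1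

theorem t169_A00pm_012_s1 : ∃ t, chk3 f_A00pm_012_s1 t 5 3 1 = true := ex3_b k156_A00pm_012_s1 t168_A00pm_012_s1

theorem t170_A00pm_012_s1 : ∃ t, chk3 f_A00pm_012_s1 t 39 63 3 = true := ex3_c k154_A00pm_012_s1 k155_A00pm_012_s1

theorem t171_A00pm_012_s1 : ∃ t, chk3 f_A00pm_012_s1 t 39 31 3 = true := ex3_b k153_A00pm_012_s1 t170_A00pm_012_s1

theorem t172_A00pm_012_s1 : ∃ t, chk3 f_A00pm_012_s1 t 39 31 1 = true := ex3_c k152_A00pm_012_s1 t171_A00pm_012_s1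

theorem t173_A00pm_012_s1 : ∃ t, chk3 f_A00pm_012_s1 t 39 15 1 = true := ex3_b k151_A00pm_012_s1 t172_A00pm_012_s1

theorem t174_A00pm_012_s1 : ∃ t, chk3 f_A00pm_012_s1 t 38 63 3 = true := ex3_b k149_A00pm_012_s1 k150_A00pm_012_s1

theorem t175_A00pm_012_s1 : ∃ t, chk3 f_A00pm_012_s1 t 38 31 3 = true := ex3_b k148_A00pm_012_s1 t174_A00pm_012_s1

theorem t176_A00pm_012_s1 : ∃ t, chk3 f_A00pm_012_s1 t 38 31 1 = true := ex3_c k147_A00pm_012_s1 t175_A00pm_012_s1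

theorem t177_A00pm_012_s1 : ∃ t, chk3 f_A00pm_012_s1 t 38 15 1 = true := ex3_b k146_A00pm_012_s1 t176_A00pm_012_s1

theorem t178_A00pm_012_s1 : ∃ t, chk3 f_A00pm_012_s1 t 19 15 1 = true := ex3_a t177_A00pm_012_s1 t173_A00pm_012_s1

theorem t179_A00pm_012_s1 : ∃ t, chk3 f_A00pm_012_s1 t 37 255 1 = true := ex3_a k144_A00pm_012_s1 k145_A00pm_012_s1

theorem t180_A00pm_012_s1 : ∃ t, chk3 f_A00pm_012_s1 t 37 127 1 = true := ex3_b k143_A00pm_012_s1 t179_A00pm_012_s1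

theorem t181_A00pm_012_s1 : ∃ t, chk3 f_A00pm_012_s1 t 37 126 1 = true := ex3_c k141_A00pm_012_s1 k142_A00pm_012_s1

theorem t182_A00pm_012_s1 : ∃ t, chk3 f_A00pm_012_s1 t 37 63 1 = true := ex3_b t181_A00pm_012_s1 t180_A00pm_012_s1

theorem t183_A00pm_012_s1 : ∃ t, chk3 f_A00pm_012_s1 t 73 255 1 = true := ex3_b k139_A00pm_012_s1 k140_A00pm_012_s1

theorem t184_A00pm_012_s1 : ∃ t, chk3 f_A00pm_012_s1 t 73 127 1 = true := ex3_b k138_A00pm_012_s1 t183_A00pm_012_s1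

theorem t185_A00pm_012_s1 : ∃ t, chk3 f_A00pm_012_s1 t 72 255 1 = true := ex3_b k136_A00pm_012_s1 k137_A00pm_012_s1

theorem t186_A00pm_012_s1 : ∃ t, chk3 f_A00pm_012_s1 t 72 127 1 = true := ex3_b k135_A00pm_012_s1 t185_A00pm_012_s1

theorem t187_A00pm_012_s1 : ∃ t, chk3 f_A00pm_012_s1 t 36 127 1 = true := ex3_a t186_A00pm_012_s1 t184_A00pm_012_s1

theorem t188_A00pm_012_s1 : ∃ t, chk3 f_A00pm_012_s1 t 36 126 1 = true := ex3_a k133_A00pm_012_s1 k134_A00pm_012_s1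

theorem t189_A00pm_012_s1 : ∃ t, chk3 f_A00pm_012_s1 t 36 63 1 = true := ex3_b t188_A00pm_012_s1 t187_A00pm_012_s1

theorem t190_A00pm_012_s1 : ∃ t, chk3 f_A00pm_012_s1 t 18 63 1 = true := ex3_a t189_A00pm_012_s1 t182_A00pm_012_s1

theorem t191_A00pm_012_s1 : ∃ t, chk3 f_A00pm_012_s1 t 36 62 1 = true := ex3_c k130_A00pm_012_s1 k131_A00pm_012_s1

theorem t192_A00pm_012_s1 : ∃ t, chk3 f_A00pm_012_s1 t 18 62 1 = true := ex3_a t191_A00pm_012_s1 k132_A00pm_012_s1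

theorem t193_A00pm_012_s1 : ∃ t, chk3 f_A00pm_012_s1 t 18 31 1 = true := ex3_b t192_A00pm_012_s1 t190_A00pm_012_s1

theorem t194_A00pm_012_s1 : ∃ t, chk3 f_A00pm_012_s1 t 36 30 1 = true := ex3_c k127_A00pm_012_s1 k128_A00pm_012_s1

theorem t195_A00pm_012_s1 : ∃ t, chk3 f_A00pm_012_s1 t 18 30 1 = true := ex3_a t194_A00pm_012_s1 k129_A00pm_012_s1

theorem t196_A00pm_012_s1 : ∃ t, chk3 f_A00pm_012_s1 t 18 15 1 = true := ex3_b t195_A00pm_012_s1 t193_A00pm_012_s1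

theorem t197_A00pm_012_s1 : ∃ t, chk3 f_A00pm_012_s1 t 9 15 1 = true := ex3_a t196_A00pm_012_s1 t178_A00pm_012_s1

theorem t198_A00pm_012_s1 : ∃ t, chk3 f_A00pm_012_s1 t 18 14 1 = true := ex3_a k124_A00pm_012_s1 k125_A00pm_012_s1

theorem t199_A00pm_012_s1 : ∃ t, chk3 f_A00pm_012_s1 t 9 14 1 = true := ex3_a t198_A00pm_012_s1 k126_A00pm_012_s1

theorem t200_A00pm_012_s1 : ∃ t, chk3 f_A00pm_012_s1 t 9 7 1 = true := ex3_b t199_A00pm_012_s1 t197_A00pm_012_s1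

theorem t201_A00pm_012_s1 : ∃ t, chk3 f_A00pm_012_s1 t 71 255 3 = true := ex3_b k122_A00pm_012_s1 k123_A00pm_012_s1

theorem t202_A00pm_012_s1 : ∃ t, chk3 f_A00pm_012_s1 t 35 255 3 = true := ex3_a k121_A00pm_012_s1 t201_A00pm_012_s1

theorem t203_A00pm_012_s1 : ∃ t, chk3 f_A00pm_012_s1 t 70 255 2 = true := ex3_a k118_A00pm_012_s1 k119_A00pm_012_s1

theorem t204_A00pm_012_s1 : ∃ t, chk3 f_A00pm_012_s1 t 35 255 2 = true := ex3_a t203_A00pm_012_s1 k120_A00pm_012_s1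

theorem t205_A00pm_012_s1 : ∃ t, chk3 f_A00pm_012_s1 t 35 255 1 = true := ex3_c t204_A00pm_012_s1 t202_A00pm_012_s1

theorem t206_A00pm_012_s1 : ∃ t, chk3 f_A00pm_012_s1 t 35 254 1 = true := ex3_c k116_A00pm_012_s1 k117_A00pm_012_s1

theorem t207_A00pm_012_s1 : ∃ t, chk3 f_A00pm_012_s1 t 35 127 1 = true := ex3_b t206_A00pm_012_s1 t205_A00pm_012_s1

theorem t208_A00pm_012_s1 : ∃ t, chk3 f_A00pm_012_s1 t 35 126 1 = true := ex3_c k114_A00pm_012_s1 k115_A00pm_012_s1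

theorem t209_A00pm_012_s1 : ∃ t, chk3 f_A00pm_012_s1 t 35 63 1 = true := ex3_b t208_A00pm_012_s1 t207_A00pm_012_s1

theorem t210_A00pm_012_s1 : ∃ t, chk3 f_A00pm_012_s1 t 71 62 3 = true := ex3_b k112_A00pm_012_s1 k113_A00pm_012_s1

theorem t211_A00pm_012_s1 : ∃ t, chk3 f_A00pm_012_s1 t 71 62 1 = true := ex3_c k111_A00pm_012_s1 t210_A00pm_012_s1

theorem t212_A00pm_012_s1 : ∃ t, chk3 f_A00pm_012_s1 t 140 125 1 = true := ex3_b k108_A00pm_012_s1 k109_A00pm_012_s1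

theorem t213_A00pm_012_s1 : ∃ t, chk3 f_A00pm_012_s1 t 70 125 1 = true := ex3_a t212_A00pm_012_s1 k110_A00pm_012_s1

theorem t214_A00pm_012_s1 : ∃ t, chk3 f_A00pm_012_s1 t 70 62 1 = true := ex3_b k107_A00pm_012_s1 t213_A00pm_012_s1

theorem t215_A00pm_012_s1 : ∃ t, chk3 f_A00pm_012_s1 t 35 62 1 = true := ex3_a t214_A00pm_012_s1 t211_A00pm_012_s1

theorem t216_A00pm_012_s1 : ∃ t, chk3 f_A00pm_012_s1 t 35 31 1 = true := ex3_b t215_A00pm_012_s1 t209_A00pm_012_s1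

theorem t217_A00pm_012_s1 : ∃ t, chk3 f_A00pm_012_s1 t 139 511 2 = true := ex3_b k104_A00pm_012_s1 k105_A00pm_012_s1

theorem t218_A00pm_012_s1 : ∃ t, chk3 f_A00pm_012_s1 t 139 511 1 = true := ex3_c t217_A00pm_012_s1 k106_A00pm_012_s1

theorem t219_A00pm_012_s1 : ∃ t, chk3 f_A00pm_012_s1 t 139 255 1 = true := ex3_b k103_A00pm_012_s1 t218_A00pm_012_s1

theorem t220_A00pm_012_s1 : ∃ t, chk3 f_A00pm_012_s1 t 139 127 1 = true := ex3_b k102_A00pm_012_s1 t219_A00pm_012_s1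

theorem t221_A00pm_012_s1 : ∃ t, chk3 f_A00pm_012_s1 t 138 255 1 = true := ex3_b k100_A00pm_012_s1 k101_A00pm_012_s1

theorem t222_A00pm_012_s1 : ∃ t, chk3 f_A00pm_012_s1 t 138 127 1 = true := ex3_b k99_A00pm_012_s1 t221_A00pm_012_s1

theorem t223_A00pm_012_s1 : ∃ t, chk3 f_A00pm_012_s1 t 69 127 1 = true := ex3_a t222_A00pm_012_s1 t220_A00pm_012_s1

theorem t224_A00pm_012_s1 : ∃ t, chk3 f_A00pm_012_s1 t 69 63 1 = true := ex3_b k98_A00pm_012_s1 t223_A00pm_012_s1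

theorem t225_A00pm_012_s1 : ∃ t, chk3 f_A00pm_012_s1 t 69 125 3 = true := ex3_c k96_A00pm_012_s1 k97_A00pm_012_s1

theorem t226_A00pm_012_s1 : ∃ t, chk3 f_A00pm_012_s1 t 69 125 1 = true := ex3_c k95_A00pm_012_s1 t225_A00pm_012_s1

theorem t227_A00pm_012_s1 : ∃ t, chk3 f_A00pm_012_s1 t 69 62 1 = true := ex3_b k94_A00pm_012_s1 t226_A00pm_012_s1

theorem t228_A00pm_012_s1 : ∃ t, chk3 f_A00pm_012_s1 t 69 31 1 = true := ex3_b t227_A00pm_012_s1 t224_A00pm_012_s1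

theorem t229_A00pm_012_s1 : ∃ t, chk3 f_A00pm_012_s1 t 68 511 1 = true := ex3_b k92_A00pm_012_s1 k93_A00pm_012_s1

theorem t230_A00pm_012_s1 : ∃ t, chk3 f_A00pm_012_s1 t 68 255 1 = true := ex3_b k91_A00pm_012_s1 t229_A00pm_012_s1

theorem t231_A00pm_012_s1 : ∃ t, chk3 f_A00pm_012_s1 t 68 127 1 = true := ex3_b k90_A00pm_012_s1 t230_A00pm_012_s1

theorem t232_A00pm_012_s1 : ∃ t, chk3 f_A00pm_012_s1 t 68 126 1 = true := ex3_b k88_A00pm_012_s1 k89_A00pm_012_s1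

theorem t233_A00pm_012_s1 : ∃ t, chk3 f_A00pm_012_s1 t 68 63 1 = true := ex3_b t232_A00pm_012_s1 t231_A00pm_012_s1

theorem t234_A00pm_012_s1 : ∃ t, chk3 f_A00pm_012_s1 t 68 62 1 = true := ex3_b k86_A00pm_012_s1 k87_A00pm_012_s1

theorem t235_A00pm_012_s1 : ∃ t, chk3 f_A00pm_012_s1 t 68 31 1 = true := ex3_b t234_A00pm_012_s1 t233_A00pm_012_s1

theorem t236_A00pm_012_s1 : ∃ t, chk3 f_A00pm_012_s1 t 34 31 1 = true := ex3_a t235_A00pm_012_s1 t228_A00pm_012_s1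

theorem t237_A00pm_012_s1 : ∃ t, chk3 f_A00pm_012_s1 t 17 31 1 = true := ex3_a t236_A00pm_012_s1 t216_A00pm_012_s1

theorem t238_A00pm_012_s1 : ∃ t, chk3 f_A00pm_012_s1 t 34 61 1 = true := ex3_a k83_A00pm_012_s1 k84_A00pm_012_s1

theorem t239_A00pm_012_s1 : ∃ t, chk3 f_A00pm_012_s1 t 34 30 1 = true := ex3_b k82_A00pm_012_s1 t238_A00pm_012_s1

theorem t240_A00pm_012_s1 : ∃ t, chk3 f_A00pm_012_s1 t 17 30 1 = true := ex3_a t239_A00pm_012_s1 k85_A00pm_012_s1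

theorem t241_A00pm_012_s1 : ∃ t, chk3 f_A00pm_012_s1 t 17 15 1 = true := ex3_b t240_A00pm_012_s1 t237_A00pm_012_s1

theorem t242_A00pm_012_s1 : ∃ t, chk3 f_A00pm_012_s1 t 17 7 1 = true := ex3_b k81_A00pm_012_s1 t241_A00pm_012_s1

theorem t243_A00pm_012_s1 : ∃ t, chk3 f_A00pm_012_s1 t 67 511 1 = true := ex3_b k79_A00pm_012_s1 k80_A00pm_012_s1

theorem t244_A00pm_012_s1 : ∃ t, chk3 f_A00pm_012_s1 t 67 255 1 = true := ex3_b k78_A00pm_012_s1 t243_A00pm_012_s1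

theorem t245_A00pm_012_s1 : ∃ t, chk3 f_A00pm_012_s1 t 67 254 1 = true := ex3_a k76_A00pm_012_s1 k77_A00pm_012_s1

theorem t246_A00pm_012_s1 : ∃ t, chk3 f_A00pm_012_s1 t 67 127 1 = true := ex3_b t245_A00pm_012_s1 t244_A00pm_012_s1

theorem t247_A00pm_012_s1 : ∃ t, chk3 f_A00pm_012_s1 t 66 2047 1 = true := ex3_b k74_A00pm_012_s1 k75_A00pm_012_s1

theorem t248_A00pm_012_s1 : ∃ t, chk3 f_A00pm_012_s1 t 66 1023 1 = true := ex3_b k73_A00pm_012_s1 t247_A00pm_012_s1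

theorem t249_A00pm_012_s1 : ∃ t, chk3 f_A00pm_012_s1 t 66 1022 1 = true := ex3_a k71_A00pm_012_s1 k72_A00pm_012_s1

theorem t250_A00pm_012_s1 : ∃ t, chk3 f_A00pm_012_s1 t 66 511 1 = true := ex3_b t249_A00pm_012_s1 t248_A00pm_012_s1

theorem t251_A00pm_012_s1 : ∃ t, chk3 f_A00pm_012_s1 t 132 510 2 = true := ex3_b k67_A00pm_012_s1 k68_A00pm_012_s1

theorem t252_A00pm_012_s1 : ∃ t, chk3 f_A00pm_012_s1 t 132 510 1 = true := ex3_c t251_A00pm_012_s1 k69_A00pm_012_s1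

theorem t253_A00pm_012_s1 : ∃ t, chk3 f_A00pm_012_s1 t 66 510 1 = true := ex3_a t252_A00pm_012_s1 k70_A00pm_012_s1

theorem t254_A00pm_012_s1 : ∃ t, chk3 f_A00pm_012_s1 t 66 255 1 = true := ex3_b t253_A00pm_012_s1 t250_A00pm_012_s1

theorem t255_A00pm_012_s1 : ∃ t, chk3 f_A00pm_012_s1 t 133 254 1 = true := ex3_b k65_A00pm_012_s1 k66_A00pm_012_s1

theorem t256_A00pm_012_s1 : ∃ t, chk3 f_A00pm_012_s1 t 132 254 1 = true := ex3_b k63_A00pm_012_s1 k64_A00pm_012_s1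

theorem t257_A00pm_012_s1 : ∃ t, chk3 f_A00pm_012_s1 t 66 254 1 = true := ex3_a t256_A00pm_012_s1 t255_A00pm_012_s1

theorem t258_A00pm_012_s1 : ∃ t, chk3 f_A00pm_012_s1 t 66 127 1 = true := ex3_b t257_A00pm_012_s1 t254_A00pm_012_s1

theorem t259_A00pm_012_s1 : ∃ t, chk3 f_A00pm_012_s1 t 33 127 1 = true := ex3_a t258_A00pm_012_s1 t246_A00pm_012_s1

theorem t260_A00pm_012_s1 : ∃ t, chk3 f_A00pm_012_s1 t 67 253 1 = true := ex3_a k61_A00pm_012_s1 k62_A00pm_012_s1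

theorem t261_A00pm_012_s1 : ∃ t, chk3 f_A00pm_012_s1 t 67 252 6 = true := ex3_c k58_A00pm_012_s1 k59_A00pm_012_s1

theorem t262_A00pm_012_s1 : ∃ t, chk3 f_A00pm_012_s1 t 67 252 3 = true := ex3_c t261_A00pm_012_s1 k60_A00pm_012_s1

theorem t263_A00pm_012_s1 : ∃ t, chk3 f_A00pm_012_s1 t 67 252 1 = true := ex3_c k57_A00pm_012_s1 t262_A00pm_012_s1

theorem t264_A00pm_012_s1 : ∃ t, chk3 f_A00pm_012_s1 t 67 126 1 = true := ex3_b t263_A00pm_012_s1 t260_A00pm_012_s1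

theorem t265_A00pm_012_s1 : ∃ t, chk3 f_A00pm_012_s1 t 133 126 1 = true := ex3_a k55_A00pm_012_s1 k56_A00pm_012_s1

theorem t266_A00pm_012_s1 : ∃ t, chk3 f_A00pm_012_s1 t 132 253 15 = true := ex3_c k53_A00pm_012_s1 k54_A00pm_012_s1

theorem t267_A00pm_012_s1 : ∃ t, chk3 f_A00pm_012_s1 t 132 253 7 = true := ex3_c k52_A00pm_012_s1 t266_A00pm_012_s1

theorem t268_A00pm_012_s1 : ∃ t, chk3 f_A00pm_012_s1 t 132 253 3 = true := ex3_c k51_A00pm_012_s1 t267_A00pm_012_s1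

theorem t269_A00pm_012_s1 : ∃ t, chk3 f_A00pm_012_s1 t 132 253 8 = true := ex3_c k47_A00pm_012_s1 k48_A00pm_012_s1

theorem t270_A00pm_012_s1 : ∃ t, chk3 f_A00pm_012_s1 t 132 253 4 = true := ex3_c t269_A00pm_012_s1 k49_A00pm_012_s1

theorem t271_A00pm_012_s1 : ∃ t, chk3 f_A00pm_012_s1 t 132 253 2 = true := ex3_c t270_A00pm_012_s1 k50_A00pm_012_s1

theorem t272_A00pm_012_s1 : ∃ t, chk3 f_A00pm_012_s1 t 132 253 1 = true := ex3_c t271_A00pm_012_s1 t268_A00pm_012_s1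

theorem t273_A00pm_012_s1 : ∃ t, chk3 f_A00pm_012_s1 t 132 126 1 = true := ex3_b k46_A00pm_012_s1 t272_A00pm_012_s1

theorem t274_A00pm_012_s1 : ∃ t, chk3 f_A00pm_012_s1 t 66 126 1 = true := ex3_a t273_A00pm_012_s1 t265_A00pm_012_s1

theorem t275_A00pm_012_s1 : ∃ t, chk3 f_A00pm_012_s1 t 33 126 1 = true := ex3_a t274_A00pm_012_s1 t264_A00pm_012_s1

theorem t276_A00pm_012_s1 : ∃ t, chk3 f_A00pm_012_s1 t 33 63 1 = true := ex3_b t275_A00pm_012_s1 t259_A00pm_012_s1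

theorem t277_A00pm_012_s1 : ∃ t, chk3 f_A00pm_012_s1 t 131 511 1 = true := ex3_b k44_A00pm_012_s1 k45_A00pm_012_s1

theorem t278_A00pm_012_s1 : ∃ t, chk3 f_A00pm_012_s1 t 131 510 1 = true := ex3_a k42_A00pm_012_s1 k43_A00pm_012_s1

theorem t279_A00pm_012_s1 : ∃ t, chk3 f_A00pm_012_s1 t 131 255 1 = true := ex3_b t278_A00pm_012_s1 t277_A00pm_012_s1

theorem t280_A00pm_012_s1 : ∃ t, chk3 f_A00pm_012_s1 t 65 255 1 = true := ex3_a k41_A00pm_012_s1 t279_A00pm_012_s1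

theorem t281_A00pm_012_s1 : ∃ t, chk3 f_A00pm_012_s1 t 131 509 1 = true := ex3_a k39_A00pm_012_s1 k40_A00pm_012_s1

theorem t282_A00pm_012_s1 : ∃ t, chk3 f_A00pm_012_s1 t 263 508 2 = true := ex3_c k36_A00pm_012_s1 k37_A00pm_012_s1

theorem t283_A00pm_012_s1 : ∃ t, chk3 f_A00pm_012_s1 t 131 508 2 = true := ex3_a k35_A00pm_012_s1 t282_A00pm_012_s1

theorem t284_A00pm_012_s1 : ∃ t, chk3 f_A00pm_012_s1 t 131 508 1 = true := ex3_c t283_A00pm_012_s1 k38_A00pm_012_s1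

theorem t285_A00pm_012_s1 : ∃ t, chk3 f_A00pm_012_s1 t 131 254 1 = true := ex3_b t284_A00pm_012_s1 t281_A00pm_012_s1

theorem t286_A00pm_012_s1 : ∃ t, chk3 f_A00pm_012_s1 t 523 254 1 = true := ex3_a k33_A00pm_012_s1 k34_A00pm_012_s1

theorem t287_A00pm_012_s1 : ∃ t, chk3 f_A00pm_012_s1 t 522 509 3 = true := ex3_a k31_A00pm_012_s1 k32_A00pm_012_s1

theorem t288_A00pm_012_s1 : ∃ t, chk3 f_A00pm_012_s1 t 522 509 1 = true := ex3_c k30_A00pm_012_s1 t287_A00pm_012_s1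

theorem t289_A00pm_012_s1 : ∃ t, chk3 f_A00pm_012_s1 t 522 254 1 = true := ex3_b k29_A00pm_012_s1 t288_A00pm_012_s1

theorem t290_A00pm_012_s1 : ∃ t, chk3 f_A00pm_012_s1 t 261 254 1 = true := ex3_a t289_A00pm_012_s1 t286_A00pm_012_s1

theorem t291_A00pm_012_s1 : ∃ t, chk3 f_A00pm_012_s1 t 260 508 1 = true := ex3_a k26_A00pm_012_s1 k27_A00pm_012_s1

theorem t292_A00pm_012_s1 : ∃ t, chk3 f_A00pm_012_s1 t 260 254 1 = true := ex3_b t291_A00pm_012_s1 k28_A00pm_012_s1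

theorem t293_A00pm_012_s1 : ∃ t, chk3 f_A00pm_012_s1 t 130 254 1 = true := ex3_a t292_A00pm_012_s1 t290_A00pm_012_s1

theorem t294_A00pm_012_s1 : ∃ t, chk3 f_A00pm_012_s1 t 65 254 1 = true := ex3_a t293_A00pm_012_s1 t285_A00pm_012_s1

theorem t295_A00pm_012_s1 : ∃ t, chk3 f_A00pm_012_s1 t 65 127 1 = true := ex3_b t294_A00pm_012_s1 t280_A00pm_012_s1

theorem t296_A00pm_012_s1 : ∃ t, chk3 f_A00pm_012_s1 t 32 127 1 = true := ex3_a k25_A00pm_012_s1 t295_A00pm_012_s1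

theorem t297_A00pm_012_s1 : ∃ t, chk3 f_A00pm_012_s1 t 131 253 1 = true := ex3_a k23_A00pm_012_s1 k24_A00pm_012_s1

theorem t298_A00pm_012_s1 : ∃ t, chk3 f_A00pm_012_s1 t 131 126 1 = true := ex3_b k22_A00pm_012_s1 t297_A00pm_012_s1

theorem t299_A00pm_012_s1 : ∃ t, chk3 f_A00pm_012_s1 t 261 253 1 = true := ex3_b k20_A00pm_012_s1 k21_A00pm_012_s1

theorem t300_A00pm_012_s1 : ∃ t, chk3 f_A00pm_012_s1 t 260 507 1 = true := ex3_a k18_A00pm_012_s1 k19_A00pm_012_s1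

theorem t301_A00pm_012_s1 : ∃ t, chk3 f_A00pm_012_s1 t 260 253 1 = true := ex3_b k17_A00pm_012_s1 t300_A00pm_012_s1

theorem t302_A00pm_012_s1 : ∃ t, chk3 f_A00pm_012_s1 t 130 253 1 = true := ex3_a t301_A00pm_012_s1 t299_A00pm_012_s1

theorem t303_A00pm_012_s1 : ∃ t, chk3 f_A00pm_012_s1 t 130 126 1 = true := ex3_b k16_A00pm_012_s1 t302_A00pm_012_s1

theorem t304_A00pm_012_s1 : ∃ t, chk3 f_A00pm_012_s1 t 65 126 1 = true := ex3_a t303_A00pm_012_s1 t298_A00pm_012_s1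

theorem t305_A00pm_012_s1 : ∃ t, chk3 f_A00pm_012_s1 t 32 126 1 = true := ex3_a k15_A00pm_012_s1 t304_A00pm_012_s1

theorem t306_A00pm_012_s1 : ∃ t, chk3 f_A00pm_012_s1 t 32 63 1 = true := ex3_b t305_A00pm_012_s1 t296_A00pm_012_s1

theorem t307_A00pm_012_s1 : ∃ t, chk3 f_A00pm_012_s1 t 16 63 1 = true := ex3_a t306_A00pm_012_s1 t276_A00pm_012_s1

theorem t308_A00pm_012_s1 : ∃ t, chk3 f_A00pm_012_s1 t 67 125 1 = true := ex3_a k13_A00pm_012_s1 k14_A00pm_012_s1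

theorem t309_A00pm_012_s1 : ∃ t, chk3 f_A00pm_012_s1 t 134 124 1 = true := ex3_c k10_A00pm_012_s1 k11_A00pm_012_s1

theorem t310_A00pm_012_s1 : ∃ t, chk3 f_A00pm_012_s1 t 67 124 1 = true := ex3_a t309_A00pm_012_s1 k12_A00pm_012_s1

theorem t311_A00pm_012_s1 : ∃ t, chk3 f_A00pm_012_s1 t 67 62 1 = true := ex3_b t310_A00pm_012_s1 t308_A00pm_012_s1

theorem t312_A00pm_012_s1 : ∃ t, chk3 f_A00pm_012_s1 t 133 125 1 = true := ex3_b k8_A00pm_012_s1 k9_A00pm_012_s1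

theorem t313_A00pm_012_s1 : ∃ t, chk3 f_A00pm_012_s1 t 66 125 1 = true := ex3_a k7_A00pm_012_s1 t312_A00pm_012_s1

theorem t314_A00pm_012_s1 : ∃ t, chk3 f_A00pm_012_s1 t 66 62 1 = true := ex3_b k6_A00pm_012_s1 t313_A00pm_012_s1

theorem t315_A00pm_012_s1 : ∃ t, chk3 f_A00pm_012_s1 t 33 62 1 = true := ex3_a t314_A00pm_012_s1 t311_A00pm_012_s1

theorem t316_A00pm_012_s1 : ∃ t, chk3 f_A00pm_012_s1 t 16 62 1 = true := ex3_a k5_A00pm_012_s1 t315_A00pm_012_s1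

theorem t317_A00pm_012_s1 : ∃ t, chk3 f_A00pm_012_s1 t 16 31 1 = true := ex3_b t316_A00pm_012_s1 t307_A00pm_012_s1

theorem t318_A00pm_012_s1 : ∃ t, chk3 f_A00pm_012_s1 t 16 15 1 = true := ex3_b k4_A00pm_012_s1 t317_A00pm_012_s1

theorem t319_A00pm_012_s1 : ∃ t, chk3 f_A00pm_012_s1 t 16 7 1 = true := ex3_b k3_A00pm_012_s1 t318_A00pm_012_s1

theorem t320_A00pm_012_s1 : ∃ t, chk3 f_A00pm_012_s1 t 8 7 1 = true := ex3_a t319_A00pm_012_s1 t242_A00pm_012_s1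

theorem t321_A00pm_012_s1 : ∃ t, chk3 f_A00pm_012_s1 t 4 7 1 = true := ex3_a t320_A00pm_012_s1 t200_A00pm_012_s1

theorem t322_A00pm_012_s1 : ∃ t, chk3 f_A00pm_012_s1 t 4 3 1 = true := ex3_b k2_A00pm_012_s1 t321_A00pm_012_s1

theorem t323_A00pm_012_s1 : ∃ t, chk3 f_A00pm_012_s1 t 2 3 1 = true := ex3_a t322_A00pm_012_s1 t169_A00pm_012_s1

theorem t324_A00pm_012_s1 : ∃ t, chk3 f_A00pm_012_s1 t 2 2 1 = true := ex3_a k0_A00pm_012_s1 k1_A00pm_012_s1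

theorem t325_A00pm_012_s1 : ∃ t, chk3 f_A00pm_012_s1 t 2 1 1 = true := ex3_b t324_A00pm_012_s1 t323_A00pm_012_s1

theorem t326_A00pm_012_s1 : ∃ t, chk3 f_A00pm_012_s1 t 1 1 1 = true := ex3_a t325_A00pm_012_s1 k163_A00pm_012_s1

theorem c_A00pm_012_s1 : CertF 0 536870912 536870912 536870912 67108864 67108864 true true false .pnp 0 1 2
    ndF0q0 ndF0q1 pcF2 cut_A00pm_012_s1 xt_A00pm_012_s1 :=
  certFK2 (fam := true) (s1 := true) (s2 := false) (a := 0) (b := 1) (c := 2) (cn := .pnp) (n1 := ndF0q0) (n2 := ndF0q1) (pc := pcF2) (cut := cut_A00pm_012_s1) (xt := xt_A00pm_012_s1) (P1 := 0) (W1 := 536870912) (P2 := 536870912) (W2 := 536870912) (P3 := 67108864) (W3 := 67108864)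
    rfl rfl rfl (fun _ => rfl) t326_A00pm_012_s1

theorem s_A00pm_012_s1 {κ x : ℝ} (hκ : κ * h0 = ken x) (hx : ((67108864 : ℕ) : ℝ) / S ≤ x)
    (hx' : x ≤ (((67108864 : ℕ) : ℝ) + (67108864 : ℕ)) / S)
    (H : CutA (VF κ) PP tKF tL pcF (Cut.of [[⟨0, 0, 0, 16777216⟩, ⟨1, 1, 0, 16777216⟩, ⟨2, 1, 0, 16777216⟩], [⟨0, 0, 1, 33554432⟩, ⟨1, 1, 0, 8388608⟩, ⟨2, 1, 1, 33554432⟩, ⟨0, 0, 0, 150994944⟩, ⟨0, 1, 0, 1023410176⟩, ⟨2, 1, 0, 150994944⟩, ⟨2, 2, 0, 1023410176⟩]]) 0 1 2 0 0 (sgb true) (sgb false) x) :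
    AltA (VF κ) PP tKF tL pcF [⟨3, 0, 0, 1449551462⟩] 0 1 2 0 0 (sgb true) (sgb false) x :=
  strip_altA (m := 1449551462) true rfl hκ covF00 covF01 hx hx' c_A00pm_012_s1 H ((okx hx hx').extA (T := tt) (sideF hx hx') hκ rfl rfl (.O 0 true) (.O 1 false) rfl)

end Pool.Agent.Strip051.G.I1_16_1_8.Tab.St.C
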