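import Pool.Agent.Strip051.G.I1_16_1_8.StF

/-! # Unit strips 2 (generated) -/

set_option linter.all false
set_option maxRecDepth 100000

namespace Pool.Agent.Strip051.G.I1_16_1_8.Tab.St.C

open Pool.Agent.Strip051.PB Pool.Agent.Strip051.PB.T Pool.Agent.StripNear Pool.Agent.Strip051.LC
open Pool.Agent.Strip051.G.I1_16_1_8.Tab Pool.Agent.Strip051.G.I1_16_1_8.Tab.St

noncomputable def cut_A00pm_012_s3 : Cut := Cut.of [[⟨3, 0, 0, 2845415833⟩], [⟨0, 0, 0, 16777216⟩, ⟨1, 1, 0, 16777216⟩, ⟨2, 1, 0, 16777216⟩], [⟨0, 0, 1, 33554432⟩, ⟨1, 1, 0, 8388608⟩, ⟨2, 1, 1, 33554432⟩, ⟨0, 0, 0, 150994944⟩, ⟨0, 1, 0, 1023410176⟩, ⟨2, 1, 0, 150994944⟩, ⟨2, 2, 0, 1023410176⟩]]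

noncomputable def f_A00pm_012_s3 : ℕ → ℕ → ℕ → ℕ → Bool := onCell 0 536870912 536870912 536870912 67108864 67108864
    (rowFK 0 true true false .pnp 0 1 2 (qsf 0 536870912 536870912 536870912 2) ndF0q0 ndF0q1 pcF2 cut_A00pm_012_s3 Ext.none)

def k0_A00pm_012_s3 : ∃ t, chk3 f_A00pm_012_s3 t 1 1 1 = true :=
  ⟨(l 6), by decide +kernel⟩

theorem c_A00pm_012_s3 : CertF 0 536870912 536870912 536870912 67108864 67108864 true true false .pnp 0 1 2
    ndF0q0 ndF0q1 pcF2 cut_A00pm_012_s3 Ext.none :=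
  certFK0 (fam := true) (s1 := true) (s2 := false) (a := 0) (b := 1) (c := 2) (cn := .pnp) (n1 := ndF0q0) (n2 := ndF0q1) (pc := pcF2) (cut := cut_A00pm_012_s3) (xt := Ext.none) (P1 := 0) (W1 := 536870912) (P2 := 536870912) (W2 := 536870912) (P3 := 67108864) (W3 := 67108864)
    rfl rfl rfl k0_A00pm_012_s3

theorem s_A00pm_012_s3 {κ x : ℝ} (hκ : κ * h0 = ken x) (hx : ((67108864 : ℕ) : ℝ) / S ≤ x)
    (hx' : x ≤ (((67108864 : ℕ) : ℝ) + (67108864 : ℕ)) / S)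
    (H : CutA (VF κ) PP tKF tL pcF (Cut.of [[⟨0, 0, 0, 16777216⟩, ⟨1, 1, 0, 16777216⟩, ⟨2, 1, 0, 16777216⟩], [⟨0, 0, 1, 33554432⟩, ⟨1, 1, 0, 8388608⟩, ⟨2, 1, 1, 33554432⟩, ⟨0, 0, 0, 150994944⟩, ⟨0, 1, 0, 1023410176⟩, ⟨2, 1, 0, 150994944⟩, ⟨2, 2, 0, 1023410176⟩]]) 0 1 2 0 0 (sgb true) (sgb false) x) :
    AltA (VF κ) PP tKF tL pcF [⟨4, 0, 0, 2845415833⟩] 0 1 2 0 0 (sgb true) (sgb false) x :=
  strip_altA (m := 2845415833) false rfl hκ covF00 covF01 hx hx' c_A00pm_012_s3 H (noExt_A)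

noncomputable def cut_A00pm_022_s1 : Cut := Cut.of [[⟨4, 0, 0, 1449551462⟩], [⟨0, 0, 0, 67108864⟩, ⟨1, 1, 0, 67108864⟩, ⟨2, 1, 0, 67108864⟩], [⟨0, 0, 1, 33554432⟩, ⟨1, 1, 0, 8388608⟩, ⟨2, 1, 1, 33554432⟩, ⟨0, 0, 0, 150994944⟩, ⟨0, 1, 0, 1023410176⟩, ⟨2, 1, 0, 150994944⟩, ⟨2, 2, 0, 1023410176⟩]]

noncomputable def f_A00pm_022_s1 : ℕ → ℕ → ℕ → ℕ → Bool := onCell 1073741824 536870912 0 536870912 67108864 67108864
    (rowFK 2 true true false .pp 0 2 2 (qsf 0 536870912 0 536870912 2) ndF0q0 ndF0q2 pcF2 cut_A00pm_022_s1 Ext.none)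

def k0_A00pm_022_s1 : ∃ t, chk3 f_A00pm_022_s1 t 2 2 1 = true :=
  ⟨(a (a (l 1) (l 6)) (l 6)), by decide +kernel⟩

def k1_A00pm_022_s1 : ∃ t, chk3 f_A00pm_022_s1 t 8 3 1 = true :=
  ⟨(a (b (l 1) (b (l 1) (l 14))) (b (l 1) (b (a (b (l 1) (l 14)) (a (b (l 1) (l 14)) (a (b (b (l 1) (b (l 1) (l 14))) (l 14)) (b (b (l 1) (b (a (l 16713952) (l 16712024)) (l 16710256))) (a (l 14) (b (l 16704496) (l 16698408))))))) (b (a (l 14) (a (l 14) (a (l 14) (b (b (l 16695312) (l 16734176)) (b (l 16731040) (l 16742480)))))) (a (l 14) (b (a (l 14) (a (l 14) (b (l 16723600) (b (l 16743496) (l 16749768))))) (b (a (l 14) (a (l 14) (a (l 14) (b (l 16735064) (l 16746584))))) (b (a (l 14) (a (l 14) (a (l 14) (c (l 16754264) (l 16746224))))) (c (a (l 14) (c (l 22) (a (l 14) (a (l 14) (a (l 14) (b (l 16753032) (a (l 14) (b (l 16755376) (b (l 16756568) (c (l 22) (l 16756960))))))))))) (c (a (l 14) (a (l 14) (a (l 14) (b (l 16751584)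 (b (l 16753912) (b (l 16755080) (a (l 14) (c (l 16756200) (l 16755408))))))))) (a (l 14) (a (l 14) (a (l 14) (a (l 14) (b (l 16750016) (b (l 16752304) (l 16753832))))))))))))))))), by decide +kernel⟩

def k2_A00pm_022_s1 : ∃ t, chk3 f_A00pm_022_s1 t 9 6 1 = true :=
  ⟨(b (a (l 1) (l 6)) (a (b (a (l 1) (a (b (l 1) (l 16723800)) (b (l 16728544) (b (l 16721320) (l 16716568))))) (a (a (l 1) (b (l 16720832) (b (a (l 16716112) (l 16713048)) (a (l 16722912) (l 16709152))))) (b (a (b (l 16717320) (l 16713064)) (l 16709520)) (a (b (l 16708824) (l 16704600)) (b (l 16702464) (l 16697792)))))) (c (c (a (b (a (l 17749328) (l 17874440)) (b (l 17736344) (l 17515736))) (b (l 6) (l 17899392))) (a (b (a (b (l 17084944) (l 17132224)) (l 17341856)) (b (a (l 17097256) (l 17284760)) (a (l 16981488) (l 17249480)))) (b (l 6) (b (l 17491592) (l 17454224))))) (b (a (b (a (l 16720224) (l 6)) (l 16708768)) (l 6)) (a (b (l 16719648)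 (a (l 16690992) (l 16684240))) (b (l 16694088) (a (l 16731024) (l 16907504)))))))), by decide +kernel⟩

def k3_A00pm_022_s1 : ∃ t, chk3 f_A00pm_022_s1 t 9 14 1 = true :=
  ⟨(a (b (a (b (a (b (a (l 1) (b (l 16713096) (l 16711384))) (a (b (l 16713296) (l 16711704)) (l 16708824))) (b (l 16718048) (l 16714296))) (a (b (a (l 16709320) (l 16705400)) (l 16715312)) (a (l 16741608) (l 16695584)))) (b (a (b (l 16700384) (l 16696176)) (b (l 16693120) (l 16688456))) (a (b (l 16691960) (l 16687736)) (b (l 16683776) (l 16679080))))) (a (a (c (b (a (l 16702416) (l 16697872)) (b (l 16737544) (l 16733952))) (b (l 16709312) (l 16703176))) (b (b (l 16734488) (l 16730712)) (b (l 16768840) (l 16765000)))) (b (a (b (l 16683496) (l 16763120)) (b (l 16674360) (l 16753496))) (a (b (l 16758816) (l 16754464)) (b (l 16748696) (l 16743840)))))) (c (a (c (b (b (l 17464704) (l 17499736)) (b (l 17453456) (l 17326256))) (b (b (a (l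 16953120) (l 17217040)) (a (l 17012624) (l 17187856))) (b (a (l 16992704) (l 17162368)) (a (l 16893848) (l 17140992))))) (b (b (l 17286112) (l 17329184)) (b (l 17290576) (l 17254496)))) (b (a (b (a (l 16681336) (l 16673696)) (a (l 16671632) (l 16663072))) (b (a (l 16720232) (l 16892488)) (a (l 16713896) (l 16881288)))) (a (b (a (l 16661816) (l 16652304)) (a (l 16735688) (l 16725176))) (b (a (l 16712488) (l 16874304)) (a (l 16716464) (l 16871960))))))), by decide +kernel⟩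

def k4_A00pm_022_s1 : ∃ t, chk3 f_A00pm_022_s1 t 18 30 1 = true :=
  ⟨(a (b (a (b (a (l 16689984) (l 16684632)) (a (l 16770536) (l 16764928))) (b (l 16761104) (l 16757144))) (a (a (b (l 16728288) (l 16741016)) (b (l 16768672) (l 16739584))) (b (c (l 16766160) (l 16723320)) (a (l 16738192) (l 16736840))))) (b (b (a (l 16750064) (l 16738912)) (a (c (l 16795976) (l 16749360)) (l 16746840))) (b (a (l 16762976) (l 16760392)) (a (a (l 16777472) (l 16776208)) (l 16752960))))), by decide +kernel⟩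

def k5_A00pm_022_s1 : ∃ t, chk3 f_A00pm_022_s1 t 36 62 1 = true :=
  ⟨(b (a (a (a (l 16754304) (l 16753624)) (l 16752416)) (a (l 16751152) (l 16749928))) (b (a (a (l 16721280) (l 16720080)) (a (l 16718912) (l 16717792))) (a (c (l 16737664) (l 16735448)) (a (l 16746352) (l 16745296))))), by decide +kernel⟩

def k6_A00pm_022_s1 : ∃ t, chk3 f_A00pm_022_s1 t 36 126 1 = true :=
  ⟨(a (c (b (a (l 16735168) (l 16734200)) (a (l 16746872) (l 16745968))) (b (l 16741680) (a (l 16738936) (l 16737840)))) (b (a (l 16752824) (l 16751832)) (c (l 22) (a (l 16736776) (l 16735760))))), by decide +kernel⟩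

def k7_A00pm_022_s1 : ∃ t, chk3 f_A00pm_022_s1 t 36 127 2 = true :=
  ⟨(c (l 22) (c (l 22) (a (a (a (b (l 16747480) (c (l 22) (b (l 16752048) (b (l 16754416) (b (l 16755608) (b (l 16756200) (a (l 16756776) (l 22)))))))) (b (l 16747000) (b (l 16751784) (l 22)))) (b (l 16751312) (l 22))) (l 22)))), by decide +kernel⟩

def k8_A00pm_022_s1 : ∃ t, chk3 f_A00pm_022_s1 t 72 127 3 = true :=
  ⟨(b (a (b (l 16743592) (l 16746696)) (b (l 16742536) (l 16745672))) (b (a (a (l 16750304) (l 16749792)) (a (l 16749280) (l 16748784))) (b (a (a (c (l 16753424) (l 16751832)) (c (l 16752944) (l 16751296))) (a (c (l 16752472) (l 16750776)) (c (l 16752016) (l 16750264)))) (a (b (a (c (l 16754600) (l 16752984)) (c (l 16754120) (l 16752456))) (a (c (a (c (l 16755968) (l 16755160)) (c (b (l 16755536) (l 16755928)) (l 16754912))) (a (l 16753944) (l 16753672))) (a (c (c (b (l 16755312) (l 16755704)) (l 16754664)) (l 16753416))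 (c (c (b (l 16755080) (l 16755472)) (l 16754424)) (l 16753152))))) (b (a (c (l 16753664) (l 16751936)) (c (l 16753208) (l 16751432))) (a (a (c (c (b (l 16754856) (l 16755248)) (l 16754192)) (l 16752896)) (c (c (b (l 16754632) (l 16755032)) (l 16753952)) (l 16752640))) (a (c (c (b (l 16754416) (l 16754816)) (l 16753720)) (l 16752384)) (c (c (a (l 16754464) (l 16754360)) (l 16753496)) (l 16752136))))))))), by decide +kernel⟩

def k9_A00pm_022_s1 : ∃ t, chk3 f_A00pm_022_s1 t 73 127 3 = true :=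
  ⟨(b (a (l 16748352) (l 16747400)) (b (a (a (l 16748296) (l 16747824)) (c (l 16753144) (l 16746024))) (b (a (a (c (l 16751568) (l 16749768)) (c (l 16751136) (l 16749280))) (a (c (l 16750712) (l 16748808)) (c (l 16750304) (l 16748336)))) (a (b (a (c (l 16752768) (l 16750944)) (c (l 16752344) (l 16750456))) (a (a (c (c (a (l 16754248) (l 22)) (l 16753272)) (l 16751896)) (c (c (l 22) (l 16753048)) (l 16751648))) (a (c (c (l 22) (l 16752824)) (l 16751408)) (c (c (l 22) (l 16752608)) (l 16751176))))) (b (a (c (l 16751928) (l 16749992)) (c (l 16751520) (l 16749536))) (b (c (c (l 22) (a (l 16752048) (l 16751632))) (a (l 16750584) (l 16750128))) (c (c (l 22) (a (a (l 16752600) (l 16752384)) (a (l 16752176) (l 16751976)))) (a (a (l 16751136) (l 16750904)) (a (l 16750680) (l 16750456)))))))))), by decide +kernel⟩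

def k10_A00pm_022_s1 : ∃ t, chk3 f_A00pm_022_s1 t 37 62 1 = true :=
  ⟨(a (b (a (l 16748744) (l 16747616)) (c (b (l 16731296) (l 16756992)) (l 16727968))) (b (b (l 16742136) (l 16748896)) (a (l 16749512) (l 16759088)))), by decide +kernel⟩

def k11_A00pm_022_s1 : ∃ t, chk3 f_A00pm_022_s1 t 37 63 1 = true :=
  ⟨(b (b (a (a (l 16750888) (l 16749992)) (a (l 16749136) (l 16748336))) (c (c (a (l 22) (l 17017608)) (l 22)) (a (l 16744200) (l 16737296)))) (b (a (c (l 22) (a (l 16746496) (l 16745632))) (c (c (l 16930368) (l 22)) (a (l 16744808) (l 16744040)))) (b (c (c (c (a (l 22) (l 17266936)) (l 22)) (l 22)) (c (a (a (l 16752344) (l 22)) (l 22)) (a (a (l 16745112) (l 16744240)) (a (l 16743424) (l 16742648))))) (a (b (c (l 22) (a (a (c (l 16749904) (l 16747888)) (l 16751104)) (c (l 22) (a (l 16747016) (l 16746600))))) (c (l 22) (b (a (c (a (l 16751128) (l 22)) (a (l 16749088) (l 16748648))) (c (l 22) (a (l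 16748232) (l 16747816)))) (a (b (c (a (c (l 22) (l 16751232)) (l 22)) (a (l 16749688) (l 16749256))) (c (a (c (l 22) (a (l 16751776) (l 22))) (l 22)) (a (a (l 16750232) (l 16750016)) (c (a (l 16750328) (l 16750120)) (l 16749120))))) (b (c (l 22) (a (l 16748832) (l 16748432))) (c (l 22) (a (c (a (l 16749920) (l 16749720)) (l 16748696)) (a (a (l 16749024) (l 16748928)) (c (l 16749328) (l 16748208)))))))))) (b (c (c (c (l 17264896) (l 22)) (l 22)) (c (l 22) (a (a (l 16746200) (l 16745808)) (a (l 16745424) (l 16745064))))) (c (c (c (l 17263536) (l 22)) (l 22)) (b (c (l 22) (a (a (l 16747424) (l 16747040)) (a (l 16746664) (l 16746304)))) (a (c (l 22) (b (a (l 16748032) (l 16750272)) (a (a (c (l 16749136) (l 16748000)) (c (l 22) (l 16747800))) (c (l 22) (c (l 16747768) (l 16747184)))))) (c (l 22) (c (l 22) (a (a (l 16747008) (l 16746824)) (a (l 16746640) (l 16746456))))))))))))), by decide +kernel⟩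

def k12_A00pm_022_s1 : ∃ t, chk3 f_A00pm_022_s1 t 19 15 1 = true :=
  ⟨(b (a (a (b (b (l 16753656) (l 16757664)) (b (l 16763392) (l 16770896))) (b (c (l 17064640) (l 16734032)) (c (l 16955904) (b (l 16670744) (l 16684488))))) (c (b (l 17137400) (a (l 17313392) (l 17484856))) (a (b (l 16726272) (l 16752808)) (b (l 16790752) (l 16756880))))) (b (c (c (a (a (l 17246368) (l 17436496)) (l 17562056)) (a (a (b (l 16882024) (l 16801048)) (b (l 17106776) (l 17020904))) (a (l 17220464) (l 17316840)))) (a (b (a (l 16700152) (l 16698240)) (a (l 16724144) (l 16753952))) (b (a (l 16758632) (l 16808576)) (a (l 16771608) (l 16732984))))) (c (b (c (a (a (l 17311272) (l 17413488)) (l 17535720)) (a (a (b (l 16804304) (l 22)) (a (l 16989968) (l 17133512))) (a (l 17213696) (l 17306320)))) (a (c (a (c (l 17380112) (l 17135936)) (l 17399240)) (a (l 22) (c (a (l 22) (l 17205216)) (l 22)))) (a (a (a (l 17229216) (l 17251816))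 (l 17283992)) (l 17342768)))) (b (a (a (b (l 16723792) (l 16735808)) (b (l 16722344) (l 22))) (a (a (l 16752216) (l 16756488)) (c (l 16874680) (b (l 16774592) (l 22))))) (a (c (l 22) (a (a (c (l 22) (b (l 16736344) (c (l 22) (b (l 16741016) (a (b (l 16743784) (a (l 16745552) (l 22))) (l 22)))))) (b (l 16736200) (l 22))) (l 22))) (c (a (l 22) (c (a (l 22) (l 17134872)) (l 22))) (l 22))))))), by decide +kernel⟩

def k13_A00pm_022_s1 : ∃ t, chk3 f_A00pm_022_s1 t 5 6 1 = true :=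
  ⟨(b (l 6) (b (l 6) (b (l 6) (a (a (a (c (l 17813592) (l 16736552)) (l 6)) (l 6)) (l 6))))), by decide +kernel⟩

def k14_A00pm_022_s1 : ∃ t, chk3 f_A00pm_022_s1 t 10 7 1 = true :=
  ⟨(b (c (a (b (a (l 17667976) (l 17851128)) (a (l 17591120) (l 17777784))) (b (l 17942824) (l 17878840))) (a (a (b (b (l 16759728) (l 16827888)) (b (l 16731648) (a (l 17001712) (l 17111016)))) (b (b (l 17124360) (l 17188976)) (b (l 17088224) (l 17074064)))) (a (b (l 6) (a (l 17268824) (l 17410784))) (b (l 6) (l 17484464))))) (a (c (a (b (c (l 17743632) (l 17299728)) (b (l 17559848) (a (l 17501376) (l 17560720)))) (b (l 17709432) (b (l 17662800) (a (l 17611040) (l 17655264))))) (c (b (a (b (l 17112280) (a (l 17140552) (l 17231840))) (b (l 17354600) (l 17340456))) (b (a (a (l 17138440) (l 17225768)) (l 17329304)) (b (a (a (l 17139792) (l 17223760)) (l 17323032)) (a (a (a (l 17119856) (l 17163552)) (a (l 17204248) (l 17242256)))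 (a (l 17206832) (a (l 17333936) (l 17361344))))))) (a (b (b (a (l 16851448) (l 16967896)) (a (l 16862208) (l 16973344))) (b (a (b (l 16873864) (l 16883384)) (b (l 16980576) (l 16986912))) (b (a (l 16726520) (l 16910576)) (a (l 22) (a (l 22) (a (l 22) (a (l 22) (b (l 17039616) (l 16959744))))))))) (b (b (l 17106680) (a (l 17065296) (l 17142184))) (b (a (l 17070000) (l 17142008)) (b (a (l 17076336) (l 17144352)) (a (a (a (b (l 17053992) (l 16973784)) (l 17073336)) (l 17014952)) (a (l 17047560) (a (l 17071024) (c (l 17219600) (b (l 17119624) (a (a (a (l 17114864) (l 17116976)) (l 17119672)) (l 17125408))))))))))))) (c (b (l 17817824) (c (l 17856360) (l 17667088))) (a (c (b (l 17461232) (b (l 17438344) (l 17425968))) (b (b (l 17249064) (l 17241072)) (a (b (l 17206344) (b (l 17205760) (l 17122504))) (b (l 17264192) (l 17177064))))) (b (c (l 17550744) (l 17354080)) (b (l 17433712) (a (l 17318032) (l 17444904)))))))),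 by decide +kernel⟩

def k15_A00pm_022_s1 : ∃ t, chk3 f_A00pm_022_s1 t 11 7 1 = true :=
  ⟨(b (l 6) (a (a (b (l 17544528) (b (l 17685424) (l 17501424))) (b (l 6) (l 17480888))) (c (l 17955528) (b (l 6) (l 17656376))))), by decide +kernel⟩

def k16_A00pm_022_s1 : ∃ t, chk3 f_A00pm_022_s1 t 3 1 1 = true :=
  ⟨(b (l 6) (l 6)), by decide +kernel⟩

theorem t17_A00pm_022_s1 : ∃ t, chk3 f_A00pm_022_s1 t 5 7 1 = true := ex3_a k14_A00pm_022_s1 k15_A00pm_022_s1

theorem t18_A00pm_022_s1 : ∃ t, chk3 f_A00pm_022_s1 t 5 3 1 = true := ex3_b k13_A00pm_022_s1 t17_A00pm_022_s1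

theorem t19_A00pm_022_s1 : ∃ t, chk3 f_A00pm_022_s1 t 37 31 1 = true := ex3_b k10_A00pm_022_s1 k11_A00pm_022_s1

theorem t20_A00pm_022_s1 : ∃ t, chk3 f_A00pm_022_s1 t 36 127 3 = true := ex3_a k8_A00pm_022_s1 k9_A00pm_022_s1

theorem t21_A00pm_022_s1 : ∃ t, chk3 f_A00pm_022_s1 t 36 127 1 = true := ex3_c k7_A00pm_022_s1 t20_A00pm_022_s1

theorem t22_A00pm_022_s1 : ∃ t, chk3 f_A00pm_022_s1 t 36 63 1 = true := ex3_b k6_A00pm_022_s1 t21_A00pm_022_s1

theorem t23_A00pm_022_s1 : ∃ t, chk3 f_A00pm_022_s1 t 36 31 1 = true := ex3_b k5_A00pm_022_s1 t22_A00pm_022_s1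

theorem t24_A00pm_022_s1 : ∃ t, chk3 f_A00pm_022_s1 t 18 31 1 = true := ex3_a t23_A00pm_022_s1 t19_A00pm_022_s1

theorem t25_A00pm_022_s1 : ∃ t, chk3 f_A00pm_022_s1 t 18 15 1 = true := ex3_b k4_A00pm_022_s1 t24_A00pm_022_s1

theorem t26_A00pm_022_s1 : ∃ t, chk3 f_A00pm_022_s1 t 9 15 1 = true := ex3_a t25_A00pm_022_s1 k12_A00pm_022_s1

theorem t27_A00pm_022_s1 : ∃ t, chk3 f_A00pm_022_s1 t 9 7 1 = true := ex3_b k3_A00pm_022_s1 t26_A00pm_022_s1

theorem t28_A00pm_022_s1 : ∃ t, chk3 f_A00pm_022_s1 t 9 3 1 = true := ex3_b k2_A00pm_022_s1 t27_A00pm_022_s1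

theorem t29_A00pm_022_s1 : ∃ t, chk3 f_A00pm_022_s1 t 4 3 1 = true := ex3_a k1_A00pm_022_s1 t28_A00pm_022_s1

theorem t30_A00pm_022_s1 : ∃ t, chk3 f_A00pm_022_s1 t 2 3 1 = true := ex3_a t29_A00pm_022_s1 t18_A00pm_022_s1

theorem t31_A00pm_022_s1 : ∃ t, chk3 f_A00pm_022_s1 t 2 1 1 = true := ex3_b k0_A00pm_022_s1 t30_A00pm_022_s1

theorem t32_A00pm_022_s1 : ∃ t, chk3 f_A00pm_022_s1 t 1 1 1 = true := ex3_a t31_A00pm_022_s1 k16_A00pm_022_s1

theorem c_A00pm_022_s1 : CertF 0 536870912 0 536870912 67108864 67108864 true true false .pp 0 2 2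
    ndF0q0 ndF0q2 pcF2 cut_A00pm_022_s1 Ext.none :=
  certFK2 (fam := true) (s1 := true) (s2 := false) (a := 0) (b := 2) (c := 2) (cn := .pp) (n1 := ndF0q0) (n2 := ndF0q2) (pc := pcF2) (cut := cut_A00pm_022_s1) (xt := Ext.none) (P1 := 0) (W1 := 536870912) (P2 := 0) (W2 := 536870912) (P3 := 67108864) (W3 := 67108864)
    rfl rfl rfl (fun _ => rfl) t32_A00pm_022_s1

theorem s_A00pm_022_s1 {κ x : ℝ} (hκ : κ * h0 = ken x) (hx : ((67108864 : ℕ) : ℝ) / S ≤ x)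
    (hx' : x ≤ (((67108864 : ℕ) : ℝ) + (67108864 : ℕ)) / S)
    (H : CutA (VF κ) PP tKF tL pcF (Cut.of [[⟨0, 0, 0, 67108864⟩, ⟨1, 1, 0, 67108864⟩, ⟨2, 1, 0, 67108864⟩], [⟨0, 0, 1, 33554432⟩, ⟨1, 1, 0, 8388608⟩, ⟨2, 1, 1, 33554432⟩, ⟨0, 0, 0, 150994944⟩, ⟨0, 1, 0, 1023410176⟩, ⟨2, 1, 0, 150994944⟩, ⟨2, 2, 0, 1023410176⟩]]) 0 2 2 0 0 (sgb true) (sgb false) x) :
    AltA (VF κ) PP tKF tL pcF [⟨3, 0, 0, 1449551462⟩] 0 2 2 0 0 (sgb true) (sgb false) x :=
  strip_altA (m := 1449551462) true rfl hκ covF00 covF02 hx hx' c_A00pm_022_s1 H (noExt_A)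

noncomputable def cut_A00pm_022_s3 : Cut := Cut.of [[⟨3, 0, 0, 2845415833⟩], [⟨0, 0, 0, 67108864⟩, ⟨1, 1, 0, 67108864⟩, ⟨2, 1, 0, 67108864⟩], [⟨0, 0, 1, 33554432⟩, ⟨1, 1, 0, 8388608⟩, ⟨2, 1, 1, 33554432⟩, ⟨0, 0, 0, 150994944⟩, ⟨0, 1, 0, 1023410176⟩, ⟨2, 1, 0, 150994944⟩, ⟨2, 2, 0, 1023410176⟩]]

noncomputable def f_A00pm_022_s3 : ℕ → ℕ → ℕ → ℕ → Bool := onCell 1073741824 536870912 0 536870912 67108864 67108864
    (rowFK 2 true true false .pp 0 2 2 (qsf 0 536870912 0 536870912 2) ndF0q0 ndF0q2 pcF2 cut_A00pm_022_s3 Ext.none)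

def k0_A00pm_022_s3 : ∃ t, chk3 f_A00pm_022_s3 t 1 1 1 = true :=
  ⟨(a (l 6) (b (l 6) (l 6))), by decide +kernel⟩

theorem c_A00pm_022_s3 : CertF 0 536870912 0 536870912 67108864 67108864 true true false .pp 0 2 2
    ndF0q0 ndF0q2 pcF2 cut_A00pm_022_s3 Ext.none :=
  certFK2 (fam := true) (s1 := true) (s2 := false) (a := 0) (b := 2) (c := 2) (cn := .pp) (n1 := ndF0q0) (n2 := ndF0q2) (pc := pcF2) (cut := cut_A00pm_022_s3) (xt := Ext.none) (P1 := 0) (W1 := 536870912) (P2 := 0) (W2 := 536870912) (P3 := 67108864) (W3 := 67108864)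
    rfl rfl rfl (fun _ => rfl) k0_A00pm_022_s3

theorem s_A00pm_022_s3 {κ x : ℝ} (hκ : κ * h0 = ken x) (hx : ((67108864 : ℕ) : ℝ) / S ≤ x)
    (hx' : x ≤ (((67108864 : ℕ) : ℝ) + (67108864 : ℕ)) / S)
    (H : CutA (VF κ) PP tKF tL pcF (Cut.of [[⟨0, 0, 0, 67108864⟩, ⟨1, 1, 0, 67108864⟩, ⟨2, 1, 0, 67108864⟩], [⟨0, 0, 1, 33554432⟩, ⟨1, 1, 0, 8388608⟩, ⟨2, 1, 1, 33554432⟩, ⟨0, 0, 0, 150994944⟩, ⟨0, 1, 0, 1023410176⟩, ⟨2, 1, 0, 150994944⟩, ⟨2, 2, 0, 1023410176⟩]]) 0 2 2 0 0 (sgb true) (sgb false) x) :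
    AltA (VF κ) PP tKF tL pcF [⟨4, 0, 0, 2845415833⟩] 0 2 2 0 0 (sgb true) (sgb false) x :=
  strip_altA (m := 2845415833) false rfl hκ covF00 covF02 hx hx' c_A00pm_022_s3 H (noExt_A)

noncomputable def cut_A00pm_023_s1 : Cut := Cut.of [[⟨4, 0, 0, 1449551462⟩]]

noncomputable def f_A00pm_023_s1 : ℕ → ℕ → ℕ → ℕ → Bool := onCell 1610612736 536870912 0 536870912 67108864 67108864
    (rowFK 2 true true false .up 0 2 3 (qsf 0 536870912 0 536870912 3) ndF0q0 ndF0q2 pcF3 cut_A00pm_023_s1 Ext.none)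

def k0_A00pm_023_s1 : ∃ t, chk3 f_A00pm_023_s1 t 1 1 1 = true :=
  ⟨(l 6), by decide +kernel⟩

theorem c_A00pm_023_s1 : CertF 0 536870912 0 536870912 67108864 67108864 true true false .up 0 2 3
    ndF0q0 ndF0q2 pcF3 cut_A00pm_023_s1 Ext.none :=
  certFK2 (fam := true) (s1 := true) (s2 := false) (a := 0) (b := 2) (c := 3) (cn := .up) (n1 := ndF0q0) (n2 := ndF0q2) (pc := pcF3) (cut := cut_A00pm_023_s1) (xt := Ext.none) (P1 := 0) (W1 := 536870912) (P2 := 0) (W2 := 536870912) (P3 := 67108864) (W3 := 67108864)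
    rfl rfl rfl (fun _ => rfl) k0_A00pm_023_s1

theorem s_A00pm_023_s1 {κ x : ℝ} (hκ : κ * h0 = ken x) (hx : ((67108864 : ℕ) : ℝ) / S ≤ x)
    (hx' : x ≤ (((67108864 : ℕ) : ℝ) + (67108864 : ℕ)) / S) :
    AltA (VF κ) PP tKF tL pcF [⟨3, 0, 0, 1449551462⟩] 0 2 3 0 0 (sgb true) (sgb false) x :=
  strip_altA (m := 1449551462) true rfl hκ covF00 covF02 hx hx' c_A00pm_023_s1 cutA_nil (noExt_A)

noncomputable def cut_A00pm_023_s3 : Cut := Cut.of [[⟨3, 0, 0, 2845415833⟩]]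

noncomputable def xt_A00pm_023_s3 : Ext := strExt dd true true false .u0 .u2 .s2 .up 0 2 3 rfl rfl gl3 vv ndF0q0 ndF0q2

noncomputable def f_A00pm_023_s3 : ℕ → ℕ → ℕ → ℕ → Bool := onCell 0 536870912 0 536870912 67108864 67108864
    (rowFK 0 true true false .up 0 2 3 (qsf 0 536870912 0 536870912 3) ndF0q0 ndF0q2 pcF3 cut_A00pm_023_s3 xt_A00pm_023_s3)

def k0_A00pm_023_s3 : ∃ t, chk3 f_A00pm_023_s3 t 1 1 1 = true :=
  ⟨(a (l 1) (b (a (b (a (l 1) (b (l 17590800) (l 6))) (l 6)) (b (b (a (l 17382744) (l 546668815)) (a (l 6) (l 17283464))) (a (l 6) (l 6)))) (l 6))), by decide +kernel⟩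

theorem c_A00pm_023_s3 : CertF 0 536870912 0 536870912 67108864 67108864 true true false .up 0 2 3
    ndF0q0 ndF0q2 pcF3 cut_A00pm_023_s3 xt_A00pm_023_s3 :=
  certFK0 (fam := true) (s1 := true) (s2 := false) (a := 0) (b := 2) (c := 3) (cn := .up) (n1 := ndF0q0) (n2 := ndF0q2) (pc := pcF3) (cut := cut_A00pm_023_s3) (xt := xt_A00pm_023_s3) (P1 := 0) (W1 := 536870912) (P2 := 0) (W2 := 536870912) (P3 := 67108864) (W3 := 67108864)
    rfl rfl rfl k0_A00pm_023_s3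

theorem s_A00pm_023_s3 {κ x : ℝ} (hκ : κ * h0 = ken x) (hx : ((67108864 : ℕ) : ℝ) / S ≤ x)
    (hx' : x ≤ (((67108864 : ℕ) : ℝ) + (67108864 : ℕ)) / S) :
    AltA (VF κ) PP tKF tL pcF [⟨4, 0, 0, 2845415833⟩] 0 2 3 0 0 (sgb true) (sgb false) x :=
  strip_altA (m := 2845415833) false rfl hκ covF00 covF02 hx hx' c_A00pm_023_s3 cutA_nil ((okx hx hx').extA (T := tt) (sideF hx hx') hκ rfl rfl (.O 0 true) (.O 2 false) (Or.inr rfl))

noncomputable def cut_A00pm_101_s1 : Cut := Cut.of [[⟨4, 0, 0, 1449551462⟩], [⟨0, 1, 0, 67108864⟩, ⟨1, 0, 0, 67108864⟩, ⟨2, 1, 0, 67108864⟩]]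

noncomputable def f_A00pm_101_s1 : ℕ → ℕ → ℕ → ℕ → Bool := onCell 536870912 536870912 536870912 536870912 67108864 67108864
    (rowFK 1 true true false .npn 1 0 1 (qsf 536870912 536870912 0 536870912 1) ndF0q1 ndF0q0 pcF1 cut_A00pm_101_s1 Ext.none)

def k0_A00pm_101_s1 : ∃ t, chk3 f_A00pm_101_s1 t 1 1 1 = true :=
  ⟨(b (l 3) (a (l 3) (b (l 3) (a (l 3) (b (l 3) (a (l 3) (b (l 3) (a (l 3) (l 14))))))))), by decide +kernel⟩

theorem c_A00pm_101_s1 : CertF 536870912 536870912 0 536870912 67108864 67108864 true true false .npn 1 0 1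
    ndF0q1 ndF0q0 pcF1 cut_A00pm_101_s1 Ext.none :=
  certFK1 (fam := true) (s1 := true) (s2 := false) (a := 1) (b := 0) (c := 1) (cn := .npn) (n1 := ndF0q1) (n2 := ndF0q0) (pc := pcF1) (cut := cut_A00pm_101_s1) (xt := Ext.none) (P1 := 536870912) (W1 := 536870912) (P2 := 0) (W2 := 536870912) (P3 := 67108864) (W3 := 67108864)
    rfl rfl rfl (fun _ => rfl) k0_A00pm_101_s1

theorem s_A00pm_101_s1 {κ x : ℝ} (hκ : κ * h0 = ken x) (hx : ((67108864 : ℕ) : ℝ) / S ≤ x)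
    (hx' : x ≤ (((67108864 : ℕ) : ℝ) + (67108864 : ℕ)) / S)
    (H : CutA (VF κ) PP tKF tL pcF (Cut.of [[⟨0, 1, 0, 67108864⟩, ⟨1, 0, 0, 67108864⟩, ⟨2, 1, 0, 67108864⟩]]) 1 0 1 0 0 (sgb true) (sgb false) x) :
    AltA (VF κ) PP tKF tL pcF [⟨3, 0, 0, 1449551462⟩] 1 0 1 0 0 (sgb true) (sgb false) x :=
  strip_altA (m := 1449551462) true rfl hκ covF01 covF00 hx hx' c_A00pm_101_s1 H (noExt_A)

noncomputable def cut_A00pm_101_s3 : Cut := Cut.of [[⟨3, 0, 0, 2845415833⟩], [⟨0, 1, 0, 67108864⟩, ⟨1, 0, 0, 67108864⟩, ⟨2, 1, 0, 67108864⟩]]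

noncomputable def f_A00pm_101_s3 : ℕ → ℕ → ℕ → ℕ → Bool := onCell 536870912 536870912 0 536870912 67108864 67108864
    (rowFK 0 true true false .npn 1 0 1 (qsf 536870912 536870912 0 536870912 1) ndF0q1 ndF0q0 pcF1 cut_A00pm_101_s3 Ext.none)

def k0_A00pm_101_s3 : ∃ t, chk3 f_A00pm_101_s3 t 1 1 1 = true :=
  ⟨(l 6), by decide +kernel⟩

theorem c_A00pm_101_s3 : CertF 536870912 536870912 0 536870912 67108864 67108864 true true false .npn 1 0 1
    ndF0q1 ndF0q0 pcF1 cut_A00pm_101_s3 Ext.none :=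
  certFK0 (fam := true) (s1 := true) (s2 := false) (a := 1) (b := 0) (c := 1) (cn := .npn) (n1 := ndF0q1) (n2 := ndF0q0) (pc := pcF1) (cut := cut_A00pm_101_s3) (xt := Ext.none) (P1 := 536870912) (W1 := 536870912) (P2 := 0) (W2 := 536870912) (P3 := 67108864) (W3 := 67108864)
    rfl rfl rfl k0_A00pm_101_s3

theorem s_A00pm_101_s3 {κ x : ℝ} (hκ : κ * h0 = ken x) (hx : ((67108864 : ℕ) : ℝ) / S ≤ x)
    (hx' : x ≤ (((67108864 : ℕ) : ℝ) + (67108864 : ℕ)) / S)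
    (H : CutA (VF κ) PP tKF tL pcF (Cut.of [[⟨0, 1, 0, 67108864⟩, ⟨1, 0, 0, 67108864⟩, ⟨2, 1, 0, 67108864⟩]]) 1 0 1 0 0 (sgb true) (sgb false) x) :
    AltA (VF κ) PP tKF tL pcF [⟨4, 0, 0, 2845415833⟩] 1 0 1 0 0 (sgb true) (sgb false) x :=
  strip_altA (m := 2845415833) false rfl hκ covF01 covF00 hx hx' c_A00pm_101_s3 H (noExt_A)

end Pool.Agent.Strip051.G.I1_16_1_8.Tab.St.C
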