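import Pool.Agent.Strip051.G.I1_16_1_8.Sp3_1
import Pool.Agent.Strip051.G.I1_16_1_8.Sp3_2
import Pool.Agent.Strip051.G.I1_16_1_8.Sp3_3

/-! # Unit strips 3 (generated) -/

set_option linter.all false
set_option maxRecDepth 100000

namespace Pool.Agent.Strip051.G.I1_16_1_8.Tab.St.C

open Pool.Agent.Strip051.PB Pool.Agent.Strip051.PB.T Pool.Agent.StripNear Pool.Agent.Strip051.LC
open Pool.Agent.Strip051.G.I1_16_1_8.Tab Pool.Agent.Strip051.G.I1_16_1_8.Tab.St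

theorem t262_A00pm_102_s1 : ∃ t, chk3 f_A00pm_102_s1 t 15 20 3 = true := ex3_b k257_A00pm_102_s1 k258_A00pm_102_s1

theorem t263_A00pm_102_s1 : ∃ t, chk3 f_A00pm_102_s1 t 15 20 1 = true := ex3_c k256_A00pm_102_s1 t262_A00pm_102_s1

theorem t264_A00pm_102_s1 : ∃ t, chk3 f_A00pm_102_s1 t 15 10 1 = true := ex3_b t263_A00pm_102_s1 k259_A00pm_102_s1

theorem t265_A00pm_102_s1 : ∃ t, chk3 f_A00pm_102_s1 t 7 10 1 = true := ex3_a k255_A00pm_102_s1 t264_A00pm_102_s1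

theorem t266_A00pm_102_s1 : ∃ t, chk3 f_A00pm_102_s1 t 7 5 1 = true := ex3_b t265_A00pm_102_s1 k260_A00pm_102_s1

theorem t267_A00pm_102_s1 : ∃ t, chk3 f_A00pm_102_s1 t 63 39 3 = true := ex3_c k253_A00pm_102_s1 k254_A00pm_102_s1

theorem t268_A00pm_102_s1 : ∃ t, chk3 f_A00pm_102_s1 t 31 39 3 = true := ex3_a k252_A00pm_102_s1 t267_A00pm_102_s1

theorem t269_A00pm_102_s1 : ∃ t, chk3 f_A00pm_102_s1 t 31 39 1 = true := ex3_c k251_A00pm_102_s1 t268_A00pm_102_s1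

theorem t270_A00pm_102_s1 : ∃ t, chk3 f_A00pm_102_s1 t 15 39 1 = true := ex3_a k250_A00pm_102_s1 t269_A00pm_102_s1

theorem t271_A00pm_102_s1 : ∃ t, chk3 f_A00pm_102_s1 t 63 38 3 = true := ex3_a k248_A00pm_102_s1 k249_A00pm_102_s1

theorem t272_A00pm_102_s1 : ∃ t, chk3 f_A00pm_102_s1 t 31 38 3 = true := ex3_a k247_A00pm_102_s1 t271_A00pm_102_s1

theorem t273_A00pm_102_s1 : ∃ t, chk3 f_A00pm_102_s1 t 31 38 1 = true := ex3_c k246_A00pm_102_s1 t272_A00pm_102_s1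

theorem t274_A00pm_102_s1 : ∃ t, chk3 f_A00pm_102_s1 t 15 38 1 = true := ex3_a k245_A00pm_102_s1 t273_A00pm_102_s1

theorem t275_A00pm_102_s1 : ∃ t, chk3 f_A00pm_102_s1 t 15 19 1 = true := ex3_b t274_A00pm_102_s1 t270_A00pm_102_s1

theorem t276_A00pm_102_s1 : ∃ t, chk3 f_A00pm_102_s1 t 255 37 1 = true := ex3_b k243_A00pm_102_s1 k244_A00pm_102_s1

theorem t277_A00pm_102_s1 : ∃ t, chk3 f_A00pm_102_s1 t 127 37 1 = true := ex3_a k242_A00pm_102_s1 t276_A00pm_102_s1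

theorem t278_A00pm_102_s1 : ∃ t, chk3 f_A00pm_102_s1 t 126 37 1 = true := ex3_c k240_A00pm_102_s1 k241_A00pm_102_s1

theorem t279_A00pm_102_s1 : ∃ t, chk3 f_A00pm_102_s1 t 63 37 1 = true := ex3_a t278_A00pm_102_s1 t277_A00pm_102_s1

theorem t280_A00pm_102_s1 : ∃ t, chk3 f_A00pm_102_s1 t 255 73 1 = true := ex3_a k238_A00pm_102_s1 k239_A00pm_102_s1

theorem t281_A00pm_102_s1 : ∃ t, chk3 f_A00pm_102_s1 t 127 73 1 = true := ex3_a k237_A00pm_102_s1 t280_A00pm_102_s1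

theorem t282_A00pm_102_s1 : ∃ t, chk3 f_A00pm_102_s1 t 255 72 1 = true := ex3_a k235_A00pm_102_s1 k236_A00pm_102_s1

theorem t283_A00pm_102_s1 : ∃ t, chk3 f_A00pm_102_s1 t 127 72 1 = true := ex3_a k234_A00pm_102_s1 t282_A00pm_102_s1

theorem t284_A00pm_102_s1 : ∃ t, chk3 f_A00pm_102_s1 t 127 36 1 = true := ex3_b t283_A00pm_102_s1 t281_A00pm_102_s1

theorem t285_A00pm_102_s1 : ∃ t, chk3 f_A00pm_102_s1 t 126 36 1 = true := ex3_b k232_A00pm_102_s1 k233_A00pm_102_s1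

theorem t286_A00pm_102_s1 : ∃ t, chk3 f_A00pm_102_s1 t 63 36 1 = true := ex3_a t285_A00pm_102_s1 t284_A00pm_102_s1

theorem t287_A00pm_102_s1 : ∃ t, chk3 f_A00pm_102_s1 t 63 18 1 = true := ex3_b t286_A00pm_102_s1 t279_A00pm_102_s1

theorem t288_A00pm_102_s1 : ∃ t, chk3 f_A00pm_102_s1 t 62 36 1 = true := ex3_c k229_A00pm_102_s1 k230_A00pm_102_s1

theorem t289_A00pm_102_s1 : ∃ t, chk3 f_A00pm_102_s1 t 62 18 1 = true := ex3_b t288_A00pm_102_s1 k231_A00pm_102_s1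

theorem t290_A00pm_102_s1 : ∃ t, chk3 f_A00pm_102_s1 t 31 18 1 = true := ex3_a t289_A00pm_102_s1 t287_A00pm_102_s1

theorem t291_A00pm_102_s1 : ∃ t, chk3 f_A00pm_102_s1 t 30 72 3 = true := ex3_c k225_A00pm_102_s1 k226_A00pm_102_s1

theorem t292_A00pm_102_s1 : ∃ t, chk3 f_A00pm_102_s1 t 30 36 3 = true := ex3_b t291_A00pm_102_s1 k227_A00pm_102_s1

theorem t293_A00pm_102_s1 : ∃ t, chk3 f_A00pm_102_s1 t 30 36 1 = true := ex3_c k224_A00pm_102_s1 t292_A00pm_102_s1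

theorem t294_A00pm_102_s1 : ∃ t, chk3 f_A00pm_102_s1 t 30 18 1 = true := ex3_b t293_A00pm_102_s1 k228_A00pm_102_s1

theorem t295_A00pm_102_s1 : ∃ t, chk3 f_A00pm_102_s1 t 15 18 1 = true := ex3_a t294_A00pm_102_s1 t290_A00pm_102_s1

theorem t296_A00pm_102_s1 : ∃ t, chk3 f_A00pm_102_s1 t 15 9 1 = true := ex3_b t295_A00pm_102_s1 t275_A00pm_102_s1

theorem t297_A00pm_102_s1 : ∃ t, chk3 f_A00pm_102_s1 t 29 18 1 = true := ex3_b k221_A00pm_102_s1 k222_A00pm_102_s1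

theorem t298_A00pm_102_s1 : ∃ t, chk3 f_A00pm_102_s1 t 14 18 1 = true := ex3_a k220_A00pm_102_s1 t297_A00pm_102_s1

theorem t299_A00pm_102_s1 : ∃ t, chk3 f_A00pm_102_s1 t 14 9 1 = true := ex3_b t298_A00pm_102_s1 k223_A00pm_102_s1

theorem t300_A00pm_102_s1 : ∃ t, chk3 f_A00pm_102_s1 t 7 9 1 = true := ex3_a t299_A00pm_102_s1 t296_A00pm_102_s1

theorem t301_A00pm_102_s1 : ∃ t, chk3 f_A00pm_102_s1 t 255 71 3 = true := ex3_a k218_A00pm_102_s1 k219_A00pm_102_s1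

theorem t302_A00pm_102_s1 : ∃ t, chk3 f_A00pm_102_s1 t 255 35 3 = true := ex3_b k217_A00pm_102_s1 t301_A00pm_102_s1

theorem t303_A00pm_102_s1 : ∃ t, chk3 f_A00pm_102_s1 t 255 70 2 = true := ex3_b k214_A00pm_102_s1 k215_A00pm_102_s1

theorem t304_A00pm_102_s1 : ∃ t, chk3 f_A00pm_102_s1 t 255 35 2 = true := ex3_b t303_A00pm_102_s1 k216_A00pm_102_s1

theorem t305_A00pm_102_s1 : ∃ t, chk3 f_A00pm_102_s1 t 255 35 1 = true := ex3_c t304_A00pm_102_s1 t302_A00pm_102_s1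

theorem t306_A00pm_102_s1 : ∃ t, chk3 f_A00pm_102_s1 t 254 35 1 = true := ex3_c k212_A00pm_102_s1 k213_A00pm_102_s1

theorem t307_A00pm_102_s1 : ∃ t, chk3 f_A00pm_102_s1 t 127 35 1 = true := ex3_a t306_A00pm_102_s1 t305_A00pm_102_s1

theorem t308_A00pm_102_s1 : ∃ t, chk3 f_A00pm_102_s1 t 126 35 1 = true := ex3_c k210_A00pm_102_s1 k211_A00pm_102_s1

theorem t309_A00pm_102_s1 : ∃ t, chk3 f_A00pm_102_s1 t 63 35 1 = true := ex3_a t308_A00pm_102_s1 t307_A00pm_102_s1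

theorem t310_A00pm_102_s1 : ∃ t, chk3 f_A00pm_102_s1 t 124 71 3 = true := ex3_a k207_A00pm_102_s1 k208_A00pm_102_s1

theorem t311_A00pm_102_s1 : ∃ t, chk3 f_A00pm_102_s1 t 62 71 3 = true := ex3_a t310_A00pm_102_s1 k209_A00pm_102_s1

theorem t312_A00pm_102_s1 : ∃ t, chk3 f_A00pm_102_s1 t 62 71 1 = true := ex3_c k206_A00pm_102_s1 t311_A00pm_102_s1

theorem t313_A00pm_102_s1 : ∃ t, chk3 f_A00pm_102_s1 t 125 140 1 = true := ex3_a k203_A00pm_102_s1 k204_A00pm_102_s1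

theorem t314_A00pm_102_s1 : ∃ t, chk3 f_A00pm_102_s1 t 125 70 1 = true := ex3_b t313_A00pm_102_s1 k205_A00pm_102_s1

theorem t315_A00pm_102_s1 : ∃ t, chk3 f_A00pm_102_s1 t 124 70 7 = true := ex3_c k201_A00pm_102_s1 k202_A00pm_102_s1

theorem t316_A00pm_102_s1 : ∃ t, chk3 f_A00pm_102_s1 t 124 70 3 = true := ex3_c k200_A00pm_102_s1 t315_A00pm_102_s1

theorem t317_A00pm_102_s1 : ∃ t, chk3 f_A00pm_102_s1 t 124 70 1 = true := ex3_c k199_A00pm_102_s1 t316_A00pm_102_s1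

theorem t318_A00pm_102_s1 : ∃ t, chk3 f_A00pm_102_s1 t 62 70 1 = true := ex3_a t317_A00pm_102_s1 t314_A00pm_102_s1

theorem t319_A00pm_102_s1 : ∃ t, chk3 f_A00pm_102_s1 t 62 35 1 = true := ex3_b t318_A00pm_102_s1 t312_A00pm_102_s1

theorem t320_A00pm_102_s1 : ∃ t, chk3 f_A00pm_102_s1 t 31 35 1 = true := ex3_a t319_A00pm_102_s1 t309_A00pm_102_s1

theorem t321_A00pm_102_s1 : ∃ t, chk3 f_A00pm_102_s1 t 30 35 1 = true := ex3_a k197_A00pm_102_s1 k198_A00pm_102_s1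

theorem t322_A00pm_102_s1 : ∃ t, chk3 f_A00pm_102_s1 t 15 35 1 = true := ex3_a t321_A00pm_102_s1 t320_A00pm_102_s1

theorem t323_A00pm_102_s1 : ∃ t, chk3 f_A00pm_102_s1 t 511 139 2 = true := ex3_a k194_A00pm_102_s1 k195_A00pm_102_s1

theorem t324_A00pm_102_s1 : ∃ t, chk3 f_A00pm_102_s1 t 511 139 1 = true := ex3_c t323_A00pm_102_s1 k196_A00pm_102_s1

theorem t325_A00pm_102_s1 : ∃ t, chk3 f_A00pm_102_s1 t 255 139 1 = true := ex3_a k193_A00pm_102_s1 t324_A00pm_102_s1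

theorem t326_A00pm_102_s1 : ∃ t, chk3 f_A00pm_102_s1 t 127 139 1 = true := ex3_a k192_A00pm_102_s1 t325_A00pm_102_s1

theorem t327_A00pm_102_s1 : ∃ t, chk3 f_A00pm_102_s1 t 255 138 1 = true := ex3_a k190_A00pm_102_s1 k191_A00pm_102_s1

theorem t328_A00pm_102_s1 : ∃ t, chk3 f_A00pm_102_s1 t 127 138 1 = true := ex3_a k189_A00pm_102_s1 t327_A00pm_102_s1

theorem t329_A00pm_102_s1 : ∃ t, chk3 f_A00pm_102_s1 t 127 69 1 = true := ex3_b t328_A00pm_102_s1 t326_A00pm_102_s1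

theorem t330_A00pm_102_s1 : ∃ t, chk3 f_A00pm_102_s1 t 63 69 1 = true := ex3_a k188_A00pm_102_s1 t329_A00pm_102_s1

theorem t331_A00pm_102_s1 : ∃ t, chk3 f_A00pm_102_s1 t 62 17919 15 = true := ex3_b k186_A00pm_102_s1 k187_A00pm_102_s1

theorem t332_A00pm_102_s1 : ∃ t, chk3 f_A00pm_102_s1 t 62 8959 15 = true := ex3_b k185_A00pm_102_s1 t331_A00pm_102_s1

theorem t333_A00pm_102_s1 : ∃ t, chk3 f_A00pm_102_s1 t 62 4479 15 = true := ex3_b k184_A00pm_102_s1 t332_A00pm_102_s1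

theorem t334_A00pm_102_s1 : ∃ t, chk3 f_A00pm_102_s1 t 62 2239 15 = true := ex3_b k183_A00pm_102_s1 t333_A00pm_102_s1

theorem t335_A00pm_102_s1 : ∃ t, chk3 f_A00pm_102_s1 t 62 1119 15 = true := ex3_b k182_A00pm_102_s1 t334_A00pm_102_s1

theorem t336_A00pm_102_s1 : ∃ t, chk3 f_A00pm_102_s1 t 62 559 15 = true := ex3_b k181_A00pm_102_s1 t335_A00pm_102_s1

theorem t337_A00pm_102_s1 : ∃ t, chk3 f_A00pm_102_s1 t 62 8959 14 = true := ex3_b k179_A00pm_102_s1 k180_A00pm_102_s1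

theorem t338_A00pm_102_s1 : ∃ t, chk3 f_A00pm_102_s1 t 62 4479 14 = true := ex3_b k178_A00pm_102_s1 t337_A00pm_102_s1

theorem t339_A00pm_102_s1 : ∃ t, chk3 f_A00pm_102_s1 t 62 2239 14 = true := ex3_b k177_A00pm_102_s1 t338_A00pm_102_s1

theorem t340_A00pm_102_s1 : ∃ t, chk3 f_A00pm_102_s1 t 62 1119 14 = true := ex3_b k176_A00pm_102_s1 t339_A00pm_102_s1

theorem t341_A00pm_102_s1 : ∃ t, chk3 f_A00pm_102_s1 t 62 559 14 = true := ex3_b k175_A00pm_102_s1 t340_A00pm_102_s1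

theorem t342_A00pm_102_s1 : ∃ t, chk3 f_A00pm_102_s1 t 62 559 7 = true := ex3_c t341_A00pm_102_s1 t336_A00pm_102_s1

theorem t343_A00pm_102_s1 : ∃ t, chk3 f_A00pm_102_s1 t 62 279 7 = true := ex3_b k174_A00pm_102_s1 t342_A00pm_102_s1

theorem t344_A00pm_102_s1 : ∃ t, chk3 f_A00pm_102_s1 t 62 8959 13 = true := ex3_b k172_A00pm_102_s1 k173_A00pm_102_s1

theorem t345_A00pm_102_s1 : ∃ t, chk3 f_A00pm_102_s1 t 62 4479 13 = true := ex3_b k171_A00pm_102_s1 t344_A00pm_102_s1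

theorem t346_A00pm_102_s1 : ∃ t, chk3 f_A00pm_102_s1 t 62 2239 13 = true := ex3_b k170_A00pm_102_s1 t345_A00pm_102_s1

theorem t347_A00pm_102_s1 : ∃ t, chk3 f_A00pm_102_s1 t 62 1119 13 = true := ex3_b k169_A00pm_102_s1 t346_A00pm_102_s1

theorem t348_A00pm_102_s1 : ∃ t, chk3 f_A00pm_102_s1 t 62 559 13 = true := ex3_b k168_A00pm_102_s1 t347_A00pm_102_s1

theorem t349_A00pm_102_s1 : ∃ t, chk3 f_A00pm_102_s1 t 62 559 6 = true := ex3_c k167_A00pm_102_s1 t348_A00pm_102_s1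

theorem t350_A00pm_102_s1 : ∃ t, chk3 f_A00pm_102_s1 t 62 279 6 = true := ex3_b k166_A00pm_102_s1 t349_A00pm_102_s1

theorem t351_A00pm_102_s1 : ∃ t, chk3 f_A00pm_102_s1 t 62 279 3 = true := ex3_c t350_A00pm_102_s1 t343_A00pm_102_s1

theorem t352_A00pm_102_s1 : ∃ t, chk3 f_A00pm_102_s1 t 62 279 1 = true := ex3_c k165_A00pm_102_s1 t351_A00pm_102_s1

theorem t353_A00pm_102_s1 : ∃ t, chk3 f_A00pm_102_s1 t 62 139 1 = true := ex3_b k164_A00pm_102_s1 t352_A00pm_102_s1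

theorem t354_A00pm_102_s1 : ∃ t, chk3 f_A00pm_102_s1 t 125 555 3 = true := ex3_c k162_A00pm_102_s1 k163_A00pm_102_s1

theorem t355_A00pm_102_s1 : ∃ t, chk3 f_A00pm_102_s1 t 62 555 3 = true := ex3_a k161_A00pm_102_s1 t354_A00pm_102_s1

theorem t356_A00pm_102_s1 : ∃ t, chk3 f_A00pm_102_s1 t 125 554 3 = true := ex3_c k159_A00pm_102_s1 k160_A00pm_102_s1

theorem t357_A00pm_102_s1 : ∃ t, chk3 f_A00pm_102_s1 t 62 554 3 = true := ex3_a k158_A00pm_102_s1 t356_A00pm_102_s1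

theorem t358_A00pm_102_s1 : ∃ t, chk3 f_A00pm_102_s1 t 62 277 3 = true := ex3_b t357_A00pm_102_s1 t355_A00pm_102_s1

theorem t359_A00pm_102_s1 : ∃ t, chk3 f_A00pm_102_s1 t 62 277 1 = true := ex3_c k157_A00pm_102_s1 t358_A00pm_102_s1

theorem t360_A00pm_102_s1 : ∃ t, chk3 f_A00pm_102_s1 t 62 276 3 = true := ex3_c k155_A00pm_102_s1 k156_A00pm_102_s1

theorem t361_A00pm_102_s1 : ∃ t, chk3 f_A00pm_102_s1 t 62 276 2 = true := ex3_c k153_A00pm_102_s1 k154_A00pm_102_s1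

theorem t362_A00pm_102_s1 : ∃ t, chk3 f_A00pm_102_s1 t 62 276 1 = true := ex3_c t361_A00pm_102_s1 t360_A00pm_102_s1

theorem t363_A00pm_102_s1 : ∃ t, chk3 f_A00pm_102_s1 t 62 138 1 = true := ex3_b t362_A00pm_102_s1 t359_A00pm_102_s1

theorem t364_A00pm_102_s1 : ∃ t, chk3 f_A00pm_102_s1 t 62 69 1 = true := ex3_b t363_A00pm_102_s1 t353_A00pm_102_s1

theorem t365_A00pm_102_s1 : ∃ t, chk3 f_A00pm_102_s1 t 31 69 1 = true := ex3_a t364_A00pm_102_s1 t330_A00pm_102_s1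

theorem t366_A00pm_102_s1 : ∃ t, chk3 f_A00pm_102_s1 t 511 68 1 = true := ex3_a k151_A00pm_102_s1 k152_A00pm_102_s1

theorem t367_A00pm_102_s1 : ∃ t, chk3 f_A00pm_102_s1 t 255 68 1 = true := ex3_a k150_A00pm_102_s1 t366_A00pm_102_s1

theorem t368_A00pm_102_s1 : ∃ t, chk3 f_A00pm_102_s1 t 127 68 1 = true := ex3_a k149_A00pm_102_s1 t367_A00pm_102_s1

theorem t369_A00pm_102_s1 : ∃ t, chk3 f_A00pm_102_s1 t 126 68 1 = true := ex3_a k147_A00pm_102_s1 k148_A00pm_102_s1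

theorem t370_A00pm_102_s1 : ∃ t, chk3 f_A00pm_102_s1 t 63 68 1 = true := ex3_a t369_A00pm_102_s1 t368_A00pm_102_s1

theorem t371_A00pm_102_s1 : ∃ t, chk3 f_A00pm_102_s1 t 125 68 7 = true := ex3_c k145_A00pm_102_s1 k146_A00pm_102_s1

theorem t372_A00pm_102_s1 : ∃ t, chk3 f_A00pm_102_s1 t 125 68 13 = true := ex3_c k143_A00pm_102_s1 k144_A00pm_102_s1

theorem t373_A00pm_102_s1 : ∃ t, chk3 f_A00pm_102_s1 t 125 68 12 = true := ex3_c k141_A00pm_102_s1 k142_A00pm_102_s1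

theorem t374_A00pm_102_s1 : ∃ t, chk3 f_A00pm_102_s1 t 125 68 6 = true := ex3_c t373_A00pm_102_s1 t372_A00pm_102_s1

theorem t375_A00pm_102_s1 : ∃ t, chk3 f_A00pm_102_s1 t 125 68 3 = true := ex3_c t374_A00pm_102_s1 t371_A00pm_102_s1

theorem t376_A00pm_102_s1 : ∃ t, chk3 f_A00pm_102_s1 t 125 68 11 = true := ex3_c k139_A00pm_102_s1 k140_A00pm_102_s1

theorem t377_A00pm_102_s1 : ∃ t, chk3 f_A00pm_102_s1 t 125 68 5 = true := ex3_c k138_A00pm_102_s1 t376_A00pm_102_s1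

theorem t378_A00pm_102_s1 : ∃ t, chk3 f_A00pm_102_s1 t 125 68 4 = true := ex3_c k136_A00pm_102_s1 k137_A00pm_102_s1

theorem t379_A00pm_102_s1 : ∃ t, chk3 f_A00pm_102_s1 t 125 68 2 = true := ex3_c t378_A00pm_102_s1 t377_A00pm_102_s1

theorem t380_A00pm_102_s1 : ∃ t, chk3 f_A00pm_102_s1 t 125 68 1 = true := ex3_c t379_A00pm_102_s1 t375_A00pm_102_s1

theorem t381_A00pm_102_s1 : ∃ t, chk3 f_A00pm_102_s1 t 62 68 1 = true := ex3_a k135_A00pm_102_s1 t380_A00pm_102_s1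

theorem t382_A00pm_102_s1 : ∃ t, chk3 f_A00pm_102_s1 t 31 68 1 = true := ex3_a t381_A00pm_102_s1 t370_A00pm_102_s1

theorem t383_A00pm_102_s1 : ∃ t, chk3 f_A00pm_102_s1 t 31 34 1 = true := ex3_b t382_A00pm_102_s1 t365_A00pm_102_s1

theorem t384_A00pm_102_s1 : ∃ t, chk3 f_A00pm_102_s1 t 123 34 1 = true := ex3_b k133_A00pm_102_s1 k134_A00pm_102_s1

theorem t385_A00pm_102_s1 : ∃ t, chk3 f_A00pm_102_s1 t 61 34 1 = true := ex3_a k132_A00pm_102_s1 t384_A00pm_102_s1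

theorem t386_A00pm_102_s1 : ∃ t, chk3 f_A00pm_102_s1 t 30 34 1 = true := ex3_a k131_A00pm_102_s1 t385_A00pm_102_s1

theorem t387_A00pm_102_s1 : ∃ t, chk3 f_A00pm_102_s1 t 15 34 1 = true := ex3_a t386_A00pm_102_s1 t383_A00pm_102_s1

theorem t388_A00pm_102_s1 : ∃ t, chk3 f_A00pm_102_s1 t 15 17 1 = true := ex3_b t387_A00pm_102_s1 t322_A00pm_102_s1

theorem t389_A00pm_102_s1 : ∃ t, chk3 f_A00pm_102_s1 t 7 17 1 = true := ex3_a k130_A00pm_102_s1 t388_A00pm_102_s1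

theorem t390_A00pm_102_s1 : ∃ t, chk3 f_A00pm_102_s1 t 511 67 1 = true := ex3_a k128_A00pm_102_s1 k129_A00pm_102_s1

theorem t391_A00pm_102_s1 : ∃ t, chk3 f_A00pm_102_s1 t 255 67 1 = true := ex3_a k127_A00pm_102_s1 t390_A00pm_102_s1

theorem t392_A00pm_102_s1 : ∃ t, chk3 f_A00pm_102_s1 t 254 67 1 = true := ex3_b k125_A00pm_102_s1 k126_A00pm_102_s1

theorem t393_A00pm_102_s1 : ∃ t, chk3 f_A00pm_102_s1 t 127 67 1 = true := ex3_a t392_A00pm_102_s1 t391_A00pm_102_s1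

theorem t394_A00pm_102_s1 : ∃ t, chk3 f_A00pm_102_s1 t 2047 66 1 = true := ex3_a k123_A00pm_102_s1 k124_A00pm_102_s1

theorem t395_A00pm_102_s1 : ∃ t, chk3 f_A00pm_102_s1 t 1023 66 1 = true := ex3_a k122_A00pm_102_s1 t394_A00pm_102_s1

theorem t396_A00pm_102_s1 : ∃ t, chk3 f_A00pm_102_s1 t 1022 66 1 = true := ex3_b k120_A00pm_102_s1 k121_A00pm_102_s1

theorem t397_A00pm_102_s1 : ∃ t, chk3 f_A00pm_102_s1 t 511 66 1 = true := ex3_a t396_A00pm_102_s1 t395_A00pm_102_s1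

theorem t398_A00pm_102_s1 : ∃ t, chk3 f_A00pm_102_s1 t 510 132 2 = true := ex3_a k116_A00pm_102_s1 k117_A00pm_102_s1

theorem t399_A00pm_102_s1 : ∃ t, chk3 f_A00pm_102_s1 t 510 132 1 = true := ex3_c t398_A00pm_102_s1 k118_A00pm_102_s1

theorem t400_A00pm_102_s1 : ∃ t, chk3 f_A00pm_102_s1 t 510 66 1 = true := ex3_b t399_A00pm_102_s1 k119_A00pm_102_s1

theorem t401_A00pm_102_s1 : ∃ t, chk3 f_A00pm_102_s1 t 255 66 1 = true := ex3_a t400_A00pm_102_s1 t397_A00pm_102_s1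

theorem t402_A00pm_102_s1 : ∃ t, chk3 f_A00pm_102_s1 t 254 133 1 = true := ex3_a k114_A00pm_102_s1 k115_A00pm_102_s1

theorem t403_A00pm_102_s1 : ∃ t, chk3 f_A00pm_102_s1 t 254 132 1 = true := ex3_a k112_A00pm_102_s1 k113_A00pm_102_s1

theorem t404_A00pm_102_s1 : ∃ t, chk3 f_A00pm_102_s1 t 254 66 1 = true := ex3_b t403_A00pm_102_s1 t402_A00pm_102_s1

theorem t405_A00pm_102_s1 : ∃ t, chk3 f_A00pm_102_s1 t 127 66 1 = true := ex3_a t404_A00pm_102_s1 t401_A00pm_102_s1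

theorem t406_A00pm_102_s1 : ∃ t, chk3 f_A00pm_102_s1 t 127 33 1 = true := ex3_b t405_A00pm_102_s1 t393_A00pm_102_s1

theorem t407_A00pm_102_s1 : ∃ t, chk3 f_A00pm_102_s1 t 253 67 1 = true := ex3_b k110_A00pm_102_s1 k111_A00pm_102_s1

theorem t408_A00pm_102_s1 : ∃ t, chk3 f_A00pm_102_s1 t 252 67 12 = true := ex3_c k106_A00pm_102_s1 k107_A00pm_102_s1

theorem t409_A00pm_102_s1 : ∃ t, chk3 f_A00pm_102_s1 t 252 67 6 = true := ex3_c t408_A00pm_102_s1 k108_A00pm_102_s1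

theorem t410_A00pm_102_s1 : ∃ t, chk3 f_A00pm_102_s1 t 252 67 3 = true := ex3_c t409_A00pm_102_s1 k109_A00pm_102_s1

theorem t411_A00pm_102_s1 : ∃ t, chk3 f_A00pm_102_s1 t 252 67 10 = true := ex3_c k103_A00pm_102_s1 k104_A00pm_102_s1

theorem t412_A00pm_102_s1 : ∃ t, chk3 f_A00pm_102_s1 t 252 67 5 = true := ex3_c t411_A00pm_102_s1 k105_A00pm_102_s1

theorem t413_A00pm_102_s1 : ∃ t, chk3 f_A00pm_102_s1 t 252 67 18 = true := ex3_c k100_A00pm_102_s1 k101_A00pm_102_s1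

theorem t414_A00pm_102_s1 : ∃ t, chk3 f_A00pm_102_s1 t 252 67 9 = true := ex3_c t413_A00pm_102_s1 k102_A00pm_102_s1

theorem t415_A00pm_102_s1 : ∃ t, chk3 f_A00pm_102_s1 t 252 67 8 = true := ex3_c k98_A00pm_102_s1 k99_A00pm_102_s1

theorem t416_A00pm_102_s1 : ∃ t, chk3 f_A00pm_102_s1 t 252 67 4 = true := ex3_c t415_A00pm_102_s1 t414_A00pm_102_s1

theorem t417_A00pm_102_s1 : ∃ t, chk3 f_A00pm_102_s1 t 252 67 2 = true := ex3_c t416_A00pm_102_s1 t412_A00pm_102_s1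

theorem t418_A00pm_102_s1 : ∃ t, chk3 f_A00pm_102_s1 t 252 67 1 = true := ex3_c t417_A00pm_102_s1 t410_A00pm_102_s1

theorem t419_A00pm_102_s1 : ∃ t, chk3 f_A00pm_102_s1 t 126 67 1 = true := ex3_a t418_A00pm_102_s1 t407_A00pm_102_s1

theorem t420_A00pm_102_s1 : ∃ t, chk3 f_A00pm_102_s1 t 126 534 1 = true := ex3_c k95_A00pm_102_s1 k96_A00pm_102_s1

theorem t421_A00pm_102_s1 : ∃ t, chk3 f_A00pm_102_s1 t 126 267 1 = true := ex3_b t420_A00pm_102_s1 k97_A00pm_102_s1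

theorem t422_A00pm_102_s1 : ∃ t, chk3 f_A00pm_102_s1 t 253 266 6 = true := ex3_b k92_A00pm_102_s1 k93_A00pm_102_s1

theorem t423_A00pm_102_s1 : ∃ t, chk3 f_A00pm_102_s1 t 253 266 3 = true := ex3_c t422_A00pm_102_s1 k94_A00pm_102_s1

theorem t424_A00pm_102_s1 : ∃ t, chk3 f_A00pm_102_s1 t 253 532 5 = true := ex3_b k89_A00pm_102_s1 k90_A00pm_102_s1

theorem t425_A00pm_102_s1 : ∃ t, chk3 f_A00pm_102_s1 t 253 532 4 = true := ex3_b k87_A00pm_102_s1 k88_A00pm_102_s1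

theorem t426_A00pm_102_s1 : ∃ t, chk3 f_A00pm_102_s1 t 253 532 2 = true := ex3_c t425_A00pm_102_s1 t424_A00pm_102_s1

theorem t427_A00pm_102_s1 : ∃ t, chk3 f_A00pm_102_s1 t 253 266 2 = true := ex3_b t426_A00pm_102_s1 k91_A00pm_102_s1

theorem t428_A00pm_102_s1 : ∃ t, chk3 f_A00pm_102_s1 t 253 266 1 = true := ex3_c t427_A00pm_102_s1 t423_A00pm_102_s1

theorem t429_A00pm_102_s1 : ∃ t, chk3 f_A00pm_102_s1 t 126 266 1 = true := ex3_a k86_A00pm_102_s1 t428_A00pm_102_s1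

theorem t430_A00pm_102_s1 : ∃ t, chk3 f_A00pm_102_s1 t 126 133 1 = true := ex3_b t429_A00pm_102_s1 t421_A00pm_102_s1

theorem t431_A00pm_102_s1 : ∃ t, chk3 f_A00pm_102_s1 t 253 132 15 = true := ex3_c k84_A00pm_102_s1 k85_A00pm_102_s1

theorem t432_A00pm_102_s1 : ∃ t, chk3 f_A00pm_102_s1 t 253 132 7 = true := ex3_c k83_A00pm_102_s1 t431_A00pm_102_s1

theorem t433_A00pm_102_s1 : ∃ t, chk3 f_A00pm_102_s1 t 253 132 3 = true := ex3_c k82_A00pm_102_s1 t432_A00pm_102_s1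

theorem t434_A00pm_102_s1 : ∃ t, chk3 f_A00pm_102_s1 t 253 132 5 = true := ex3_c k80_A00pm_102_s1 k81_A00pm_102_s1

theorem t435_A00pm_102_s1 : ∃ t, chk3 f_A00pm_102_s1 t 253 132 17 = true := ex3_c k77_A00pm_102_s1 k78_A00pm_102_s1

theorem t436_A00pm_102_s1 : ∃ t, chk3 f_A00pm_102_s1 t 253 132 32 = true := ex3_c k74_A00pm_102_s1 k75_A00pm_102_s1

theorem t437_A00pm_102_s1 : ∃ t, chk3 f_A00pm_102_s1 t 253 132 16 = true := ex3_c t436_A00pm_102_s1 k76_A00pm_102_s1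

theorem t438_A00pm_102_s1 : ∃ t, chk3 f_A00pm_102_s1 t 253 132 8 = true := ex3_c t437_A00pm_102_s1 t435_A00pm_102_s1

theorem t439_A00pm_102_s1 : ∃ t, chk3 f_A00pm_102_s1 t 253 132 4 = true := ex3_c t438_A00pm_102_s1 k79_A00pm_102_s1

theorem t440_A00pm_102_s1 : ∃ t, chk3 f_A00pm_102_s1 t 253 132 2 = true := ex3_c t439_A00pm_102_s1 t434_A00pm_102_s1

theorem t441_A00pm_102_s1 : ∃ t, chk3 f_A00pm_102_s1 t 253 132 1 = true := ex3_c t440_A00pm_102_s1 t433_A00pm_102_s1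

theorem t442_A00pm_102_s1 : ∃ t, chk3 f_A00pm_102_s1 t 252 132 1 = true := ex3_a k72_A00pm_102_s1 k73_A00pm_102_s1

theorem t443_A00pm_102_s1 : ∃ t, chk3 f_A00pm_102_s1 t 126 132 1 = true := ex3_a t442_A00pm_102_s1 t441_A00pm_102_s1

theorem t444_A00pm_102_s1 : ∃ t, chk3 f_A00pm_102_s1 t 126 66 1 = true := ex3_b t443_A00pm_102_s1 t430_A00pm_102_s1

theorem t445_A00pm_102_s1 : ∃ t, chk3 f_A00pm_102_s1 t 126 33 1 = true := ex3_b t444_A00pm_102_s1 t419_A00pm_102_s1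

theorem t446_A00pm_102_s1 : ∃ t, chk3 f_A00pm_102_s1 t 63 33 1 = true := ex3_a t445_A00pm_102_s1 t406_A00pm_102_s1

theorem t447_A00pm_102_s1 : ∃ t, chk3 f_A00pm_102_s1 t 511 131 1 = true := ex3_a k70_A00pm_102_s1 k71_A00pm_102_s1

theorem t448_A00pm_102_s1 : ∃ t, chk3 f_A00pm_102_s1 t 510 131 1 = true := ex3_b k68_A00pm_102_s1 k69_A00pm_102_s1

theorem t449_A00pm_102_s1 : ∃ t, chk3 f_A00pm_102_s1 t 255 131 1 = true := ex3_a t448_A00pm_102_s1 t447_A00pm_102_s1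

theorem t450_A00pm_102_s1 : ∃ t, chk3 f_A00pm_102_s1 t 255 65 1 = true := ex3_b k67_A00pm_102_s1 t449_A00pm_102_s1

theorem t451_A00pm_102_s1 : ∃ t, chk3 f_A00pm_102_s1 t 509 131 1 = true := ex3_b k65_A00pm_102_s1 k66_A00pm_102_s1

theorem t452_A00pm_102_s1 : ∃ t, chk3 f_A00pm_102_s1 t 508 263 4 = true := ex3_b k61_A00pm_102_s1 k62_A00pm_102_s1

theorem t453_A00pm_102_s1 : ∃ t, chk3 f_A00pm_102_s1 t 508 263 2 = true := ex3_c t452_A00pm_102_s1 k63_A00pm_102_s1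

theorem t454_A00pm_102_s1 : ∃ t, chk3 f_A00pm_102_s1 t 508 131 2 = true := ex3_b k60_A00pm_102_s1 t453_A00pm_102_s1

theorem t455_A00pm_102_s1 : ∃ t, chk3 f_A00pm_102_s1 t 508 131 1 = true := ex3_c t454_A00pm_102_s1 k64_A00pm_102_s1

theorem t456_A00pm_102_s1 : ∃ t, chk3 f_A00pm_102_s1 t 254 131 1 = true := ex3_a t455_A00pm_102_s1 t451_A00pm_102_s1

theorem t457_A00pm_102_s1 : ∃ t, chk3 f_A00pm_102_s1 t 254 1047 2 = true := ex3_b k57_A00pm_102_s1 k58_A00pm_102_s1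

theorem t458_A00pm_102_s1 : ∃ t, chk3 f_A00pm_102_s1 t 254 1047 1 = true := ex3_c t457_A00pm_102_s1 k59_A00pm_102_s1

theorem t459_A00pm_102_s1 : ∃ t, chk3 f_A00pm_102_s1 t 254 1046 1 = true := ex3_c k55_A00pm_102_s1 k56_A00pm_102_s1

theorem t460_A00pm_102_s1 : ∃ t, chk3 f_A00pm_102_s1 t 254 523 1 = true := ex3_b t459_A00pm_102_s1 t458_A00pm_102_s1

theorem t461_A00pm_102_s1 : ∃ t, chk3 f_A00pm_102_s1 t 509 1045 6 = true := ex3_b k52_A00pm_102_s1 k53_A00pm_102_s1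

theorem t462_A00pm_102_s1 : ∃ t, chk3 f_A00pm_102_s1 t 509 1045 3 = true := ex3_c t461_A00pm_102_s1 k54_A00pm_102_s1

theorem t463_A00pm_102_s1 : ∃ t, chk3 f_A00pm_102_s1 t 509 1044 3 = true := ex3_b k50_A00pm_102_s1 k51_A00pm_102_s1

theorem t464_A00pm_102_s1 : ∃ t, chk3 f_A00pm_102_s1 t 509 522 3 = true := ex3_b t463_A00pm_102_s1 t462_A00pm_102_s1

theorem t465_A00pm_102_s1 : ∃ t, chk3 f_A00pm_102_s1 t 509 522 5 = true := ex3_b k48_A00pm_102_s1 k49_A00pm_102_s1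

theorem t466_A00pm_102_s1 : ∃ t, chk3 f_A00pm_102_s1 t 509 1044 4 = true := ex3_c k45_A00pm_102_s1 k46_A00pm_102_s1

theorem t467_A00pm_102_s1 : ∃ t, chk3 f_A00pm_102_s1 t 509 522 4 = true := ex3_b t466_A00pm_102_s1 k47_A00pm_102_s1

theorem t468_A00pm_102_s1 : ∃ t, chk3 f_A00pm_102_s1 t 509 522 2 = true := ex3_c t467_A00pm_102_s1 t465_A00pm_102_s1

theorem t469_A00pm_102_s1 : ∃ t, chk3 f_A00pm_102_s1 t 509 522 1 = true := ex3_c t468_A00pm_102_s1 t464_A00pm_102_s1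

theorem t470_A00pm_102_s1 : ∃ t, chk3 f_A00pm_102_s1 t 254 522 1 = true := ex3_a k44_A00pm_102_s1 t469_A00pm_102_s1

theorem t471_A00pm_102_s1 : ∃ t, chk3 f_A00pm_102_s1 t 254 261 1 = true := ex3_b t470_A00pm_102_s1 t460_A00pm_102_s1

theorem t472_A00pm_102_s1 : ∃ t, chk3 f_A00pm_102_s1 t 508 260 1 = true := ex3_a k41_A00pm_102_s1 k42_A00pm_102_s1

theorem t473_A00pm_102_s1 : ∃ t, chk3 f_A00pm_102_s1 t 254 260 1 = true := ex3_a t472_A00pm_102_s1 k43_A00pm_102_s1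

theorem t474_A00pm_102_s1 : ∃ t, chk3 f_A00pm_102_s1 t 254 130 1 = true := ex3_b t473_A00pm_102_s1 t471_A00pm_102_s1

theorem t475_A00pm_102_s1 : ∃ t, chk3 f_A00pm_102_s1 t 254 65 1 = true := ex3_b t474_A00pm_102_s1 t456_A00pm_102_s1

theorem t476_A00pm_102_s1 : ∃ t, chk3 f_A00pm_102_s1 t 127 65 1 = true := ex3_a t475_A00pm_102_s1 t450_A00pm_102_s1

theorem t477_A00pm_102_s1 : ∃ t, chk3 f_A00pm_102_s1 t 127 32 1 = true := ex3_b k40_A00pm_102_s1 t476_A00pm_102_s1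

theorem t478_A00pm_102_s1 : ∃ t, chk3 f_A00pm_102_s1 t 1015 130 1 = true := ex3_b k37_A00pm_102_s1 k38_A00pm_102_s1

theorem t479_A00pm_102_s1 : ∃ t, chk3 f_A00pm_102_s1 t 1015 65 1 = true := ex3_b t478_A00pm_102_s1 k39_A00pm_102_s1

theorem t480_A00pm_102_s1 : ∃ t, chk3 f_A00pm_102_s1 t 1014 65 1 = true := ex3_b k35_A00pm_102_s1 k36_A00pm_102_s1

theorem t481_A00pm_102_s1 : ∃ t, chk3 f_A00pm_102_s1 t 507 65 1 = true := ex3_a t480_A00pm_102_s1 t479_A00pm_102_s1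

theorem t482_A00pm_102_s1 : ∃ t, chk3 f_A00pm_102_s1 t 1013 65 1 = true := ex3_b k33_A00pm_102_s1 k34_A00pm_102_s1

theorem t483_A00pm_102_s1 : ∃ t, chk3 f_A00pm_102_s1 t 506 65 1 = true := ex3_a k32_A00pm_102_s1 t482_A00pm_102_s1

theorem t484_A00pm_102_s1 : ∃ t, chk3 f_A00pm_102_s1 t 253 65 1 = true := ex3_a t483_A00pm_102_s1 t481_A00pm_102_s1

theorem t485_A00pm_102_s1 : ∃ t, chk3 f_A00pm_102_s1 t 505 65 1 = true := ex3_a k30_A00pm_102_s1 k31_A00pm_102_s1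

theorem t486_A00pm_102_s1 : ∃ t, chk3 f_A00pm_102_s1 t 252 65 1 = true := ex3_a k29_A00pm_102_s1 t485_A00pm_102_s1

theorem t487_A00pm_102_s1 : ∃ t, chk3 f_A00pm_102_s1 t 126 65 1 = true := ex3_a t486_A00pm_102_s1 t484_A00pm_102_s1

theorem t488_A00pm_102_s1 : ∃ t, chk3 f_A00pm_102_s1 t 126 32 1 = true := ex3_b k28_A00pm_102_s1 t487_A00pm_102_s1

theorem t489_A00pm_102_s1 : ∃ t, chk3 f_A00pm_102_s1 t 63 32 1 = true := ex3_a t488_A00pm_102_s1 t477_A00pm_102_s1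

theorem t490_A00pm_102_s1 : ∃ t, chk3 f_A00pm_102_s1 t 63 16 1 = true := ex3_b t489_A00pm_102_s1 t446_A00pm_102_s1

theorem t491_A00pm_102_s1 : ∃ t, chk3 f_A00pm_102_s1 t 251 67 1 = true := ex3_a k26_A00pm_102_s1 k27_A00pm_102_s1

theorem t492_A00pm_102_s1 : ∃ t, chk3 f_A00pm_102_s1 t 251 66 1 = true := ex3_a k24_A00pm_102_s1 k25_A00pm_102_s1

theorem t493_A00pm_102_s1 : ∃ t, chk3 f_A00pm_102_s1 t 251 33 1 = true := ex3_b t492_A00pm_102_s1 t491_A00pm_102_s1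

theorem t494_A00pm_102_s1 : ∃ t, chk3 f_A00pm_102_s1 t 250 134 1 = true := ex3_a k21_A00pm_102_s1 k22_A00pm_102_s1

theorem t495_A00pm_102_s1 : ∃ t, chk3 f_A00pm_102_s1 t 250 67 1 = true := ex3_b t494_A00pm_102_s1 k23_A00pm_102_s1

theorem t496_A00pm_102_s1 : ∃ t, chk3 f_A00pm_102_s1 t 250 133 1 = true := ex3_a k19_A00pm_102_s1 k20_A00pm_102_s1

theorem t497_A00pm_102_s1 : ∃ t, chk3 f_A00pm_102_s1 t 250 66 1 = true := ex3_b k18_A00pm_102_s1 t496_A00pm_102_s1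

theorem t498_A00pm_102_s1 : ∃ t, chk3 f_A00pm_102_s1 t 250 33 1 = true := ex3_b t497_A00pm_102_s1 t495_A00pm_102_s1

theorem t499_A00pm_102_s1 : ∃ t, chk3 f_A00pm_102_s1 t 125 33 1 = true := ex3_a t498_A00pm_102_s1 t493_A00pm_102_s1

theorem t500_A00pm_102_s1 : ∃ t, chk3 f_A00pm_102_s1 t 249 67 3 = true := ex3_b k16_A00pm_102_s1 k17_A00pm_102_s1

theorem t501_A00pm_102_s1 : ∃ t, chk3 f_A00pm_102_s1 t 249 67 1 = true := ex3_c k15_A00pm_102_s1 t500_A00pm_102_s1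

theorem t502_A00pm_102_s1 : ∃ t, chk3 f_A00pm_102_s1 t 248 67 1 = true := ex3_c k13_A00pm_102_s1 k14_A00pm_102_s1

theorem t503_A00pm_102_s1 : ∃ t, chk3 f_A00pm_102_s1 t 124 67 1 = true := ex3_a t502_A00pm_102_s1 t501_A00pm_102_s1

theorem t504_A00pm_102_s1 : ∃ t, chk3 f_A00pm_102_s1 t 249 133 1 = true := ex3_c k11_A00pm_102_s1 k12_A00pm_102_s1

theorem t505_A00pm_102_s1 : ∃ t, chk3 f_A00pm_102_s1 t 249 66 1 = true := ex3_b k10_A00pm_102_s1 t504_A00pm_102_s1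

theorem t506_A00pm_102_s1 : ∃ t, chk3 f_A00pm_102_s1 t 124 66 1 = true := ex3_a k9_A00pm_102_s1 t505_A00pm_102_s1

theorem t507_A00pm_102_s1 : ∃ t, chk3 f_A00pm_102_s1 t 124 33 1 = true := ex3_b t506_A00pm_102_s1 t503_A00pm_102_s1

theorem t508_A00pm_102_s1 : ∃ t, chk3 f_A00pm_102_s1 t 62 33 1 = true := ex3_a t507_A00pm_102_s1 t499_A00pm_102_s1

theorem t509_A00pm_102_s1 : ∃ t, chk3 f_A00pm_102_s1 t 62 16 1 = true := ex3_b k8_A00pm_102_s1 t508_A00pm_102_s1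

theorem t510_A00pm_102_s1 : ∃ t, chk3 f_A00pm_102_s1 t 31 16 1 = true := ex3_a t509_A00pm_102_s1 t490_A00pm_102_s1

theorem t511_A00pm_102_s1 : ∃ t, chk3 f_A00pm_102_s1 t 15 16 1 = true := ex3_a k7_A00pm_102_s1 t510_A00pm_102_s1

theorem t512_A00pm_102_s1 : ∃ t, chk3 f_A00pm_102_s1 t 7 16 1 = true := ex3_a k6_A00pm_102_s1 t511_A00pm_102_s1

theorem t513_A00pm_102_s1 : ∃ t, chk3 f_A00pm_102_s1 t 7 8 1 = true := ex3_b t512_A00pm_102_s1 t389_A00pm_102_s1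

theorem t514_A00pm_102_s1 : ∃ t, chk3 f_A00pm_102_s1 t 7 4 1 = true := ex3_b t513_A00pm_102_s1 t300_A00pm_102_s1

theorem t515_A00pm_102_s1 : ∃ t, chk3 f_A00pm_102_s1 t 7 2 1 = true := ex3_b t514_A00pm_102_s1 t266_A00pm_102_s1

theorem t516_A00pm_102_s1 : ∃ t, chk3 f_A00pm_102_s1 t 6 2 1 = true := ex3_b k4_A00pm_102_s1 k5_A00pm_102_s1

theorem t517_A00pm_102_s1 : ∃ t, chk3 f_A00pm_102_s1 t 3 2 1 = true := ex3_a t516_A00pm_102_s1 t515_A00pm_102_s1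

theorem t518_A00pm_102_s1 : ∃ t, chk3 f_A00pm_102_s1 t 3 1 1 = true := ex3_b t517_A00pm_102_s1 k261_A00pm_102_s1

theorem t519_A00pm_102_s1 : ∃ t, chk3 f_A00pm_102_s1 t 2 5 1 = true := ex3_a k1_A00pm_102_s1 k2_A00pm_102_s1

theorem t520_A00pm_102_s1 : ∃ t, chk3 f_A00pm_102_s1 t 2 2 1 = true := ex3_b k0_A00pm_102_s1 t519_A00pm_102_s1

theorem t521_A00pm_102_s1 : ∃ t, chk3 f_A00pm_102_s1 t 2 1 1 = true := ex3_b t520_A00pm_102_s1 k3_A00pm_102_s1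

theorem t522_A00pm_102_s1 : ∃ t, chk3 f_A00pm_102_s1 t 1 1 1 = true := ex3_a t521_A00pm_102_s1 t518_A00pm_102_s1

theorem c_A00pm_102_s1 : CertF 536870912 536870912 0 536870912 67108864 67108864 true true false .npp 1 0 2
    ndF0q1 ndF0q0 pcF2 cut_A00pm_102_s1 xt_A00pm_102_s1 :=
  certFK1 (fam := true) (s1 := true) (s2 := false) (a := 1) (b := 0) (c := 2) (cn := .npp) (n1 := ndF0q1) (n2 := ndF0q0) (pc := pcF2) (cut := cut_A00pm_102_s1) (xt := xt_A00pm_102_s1) (P1 := 536870912) (W1 := 536870912) (P2 := 0) (W2 := 536870912) (P3 := 67108864) (W3 := 67108864)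
    rfl rfl rfl (fun _ => rfl) t522_A00pm_102_s1

theorem s_A00pm_102_s1 {κ x : ℝ} (hκ : κ * h0 = ken x) (hx : ((67108864 : ℕ) : ℝ) / S ≤ x)
    (hx' : x ≤ (((67108864 : ℕ) : ℝ) + (67108864 : ℕ)) / S)
    (H : CutA (VF κ) PP tKF tL pcF (Cut.of [[⟨0, 1, 0, 16777216⟩, ⟨1, 0, 0, 16777216⟩, ⟨2, 1, 0, 16777216⟩], [⟨0, 1, 0, 8388608⟩, ⟨1, 0, 1, 33554432⟩, ⟨2, 1, 1, 33554432⟩, ⟨1, 0, 0, 150994944⟩, ⟨1, 1, 0, 1023410176⟩, ⟨2, 1, 0, 150994944⟩, ⟨2, 2, 0, 1023410176⟩]]) 1 0 2 0 0 (sgb true) (sgb false) x) :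
    AltA (VF κ) PP tKF tL pcF [⟨3, 0, 0, 1449551462⟩] 1 0 2 0 0 (sgb true) (sgb false) x :=
  strip_altA (m := 1449551462) true rfl hκ covF01 covF00 hx hx' c_A00pm_102_s1 H ((okx hx hx').extA (T := tt) (sideF hx hx') hκ rfl rfl (.O 1 true) (.O 0 false) rfl)

end Pool.Agent.Strip051.G.I1_16_1_8.Tab.St.C
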