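import Pool.Agent.Strip051.G.I1_16_1_8.StF

/-! # Unit strips 4 (generated) -/

set_option linter.all false
set_option maxRecDepth 100000

namespace Pool.Agent.Strip051.G.I1_16_1_8.Tab.St.C

open Pool.Agent.Strip051.PB Pool.Agent.Strip051.PB.T Pool.Agent.StripNear Pool.Agent.Strip051.LC
open Pool.Agent.Strip051.G.I1_16_1_8.Tab Pool.Agent.Strip051.G.I1_16_1_8.Tab.St

noncomputable def cut_A00pm_102_s3 : Cut := Cut.of [[⟨3, 0, 0, 2845415833⟩], [⟨0, 1, 0, 16777216⟩, ⟨1, 0, 0, 16777216⟩, ⟨2, 1, 0, 16777216⟩], [⟨0, 1, 0, 8388608⟩, ⟨1, 0, 1, 33554432⟩, ⟨2, 1, 1, 33554432⟩, ⟨1, 0, 0, 150994944⟩, ⟨1, 1, 0, 1023410176⟩, ⟨2, 1, 0, 150994944⟩, ⟨2, 2, 0, 1023410176⟩]]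

noncomputable def f_A00pm_102_s3 : ℕ → ℕ → ℕ → ℕ → Bool := onCell 536870912 536870912 0 536870912 67108864 67108864
    (rowFK 0 true true false .npp 1 0 2 (qsf 536870912 536870912 0 536870912 2) ndF0q1 ndF0q0 pcF2 cut_A00pm_102_s3 Ext.none)

def k0_A00pm_102_s3 : ∃ t, chk3 f_A00pm_102_s3 t 1 1 1 = true :=
  ⟨(l 6), by decide +kernel⟩

theorem c_A00pm_102_s3 : CertF 536870912 536870912 0 536870912 67108864 67108864 true true false .npp 1 0 2
    ndF0q1 ndF0q0 pcF2 cut_A00pm_102_s3 Ext.none :=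
  certFK0 (fam := true) (s1 := true) (s2 := false) (a := 1) (b := 0) (c := 2) (cn := .npp) (n1 := ndF0q1) (n2 := ndF0q0) (pc := pcF2) (cut := cut_A00pm_102_s3) (xt := Ext.none) (P1 := 536870912) (W1 := 536870912) (P2 := 0) (W2 := 536870912) (P3 := 67108864) (W3 := 67108864)
    rfl rfl rfl k0_A00pm_102_s3

theorem s_A00pm_102_s3 {κ x : ℝ} (hκ : κ * h0 = ken x) (hx : ((67108864 : ℕ) : ℝ) / S ≤ x)
    (hx' : x ≤ (((67108864 : ℕ) : ℝ) + (67108864 : ℕ)) / S)
    (H : CutA (VF κ) PP tKF tL pcF (Cut.of [[⟨0, 1, 0, 16777216⟩, ⟨1, 0, 0, 16777216⟩, ⟨2, 1, 0, 16777216⟩], [⟨0, 1, 0, 8388608⟩, ⟨1, 0, 1, 33554432⟩, ⟨2, 1, 1, 33554432⟩, ⟨1, 0, 0, 150994944⟩, ⟨1, 1, 0, 1023410176⟩, ⟨2, 1, 0, 150994944⟩, ⟨2, 2, 0, 1023410176⟩]]) 1 0 2 0 0 (sgb true) (sgb false) x) :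
    AltA (VF κ) PP tKF tL pcF [⟨4, 0, 0, 2845415833⟩] 1 0 2 0 0 (sgb true) (sgb false) x :=
  strip_altA (m := 2845415833) false rfl hκ covF01 covF00 hx hx' c_A00pm_102_s3 H (noExt_A)

noncomputable def cut_A00pm_112_s1 : Cut := Cut.of [[⟨4, 0, 0, 1449551462⟩]]

noncomputable def xt_A00pm_112_s1 : Ext := strExt dd true true false .u0 .u0m .u2 .dn 1 1 2 rfl rfl gf2 vv ndF0q1 ndF0q1

noncomputable def f_A00pm_112_s1 : ℕ → ℕ → ℕ → ℕ → Bool := onCell 536870912 536870912 1073741824 536870912 67108864 67108864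
    (rowFK 1 true true false .dn 1 1 2 (qsf 536870912 536870912 536870912 536870912 2) ndF0q1 ndF0q1 pcF2 cut_A00pm_112_s1 xt_A00pm_112_s1)

def k0_A00pm_112_s1 : ∃ t, chk3 f_A00pm_112_s1 t 2 4 1 = true :=
  ⟨(a (l 3) (l 3)), by decide +kernel⟩

def k1_A00pm_112_s1 : ∃ t, chk3 f_A00pm_112_s1 t 4 10 1 = true :=
  ⟨(b (b (l 3) (b (l 3) (b (b (l 3) (a (a (a (l 546482559) (l 3)) (l 3)) (l 3))) (a (a (a (a (b (b (l 546295423) (l 16783192)) (l 16787320)) (b (b (l 546043519) (l 546039679)) (l 16785392))) (a (b (b (l 545863295) (l 545846399)) (b (l 16782472) (l 16785088))) (b (l 545766207) (a (l 16777512) (l 16779528))))) (b (l 545612863) (b (b (l 545592879) (b (b (l 545587759) (b (l 545586223) (b (l 545585455) (a (a (l 16780664) (l 16779760)) (a (l 16779048) (l 16778528)))))) (l 545582943))) (l 545573215)))) (b (a (l 3) (l 545631567)) (b (b (l 545551407) (b (b (l 545544751) (b (l 545542959) (b (l 545541935) (a (a (a (a (l 16778248)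 (l 16778120)) (a (l 16778040) (l 16778008))) (a (a (l 16778016) (l 16778064)) (a (l 16778160) (l 16778296)))) (a (a (l 16778600) (l 16779152)) (a (l 16779888) (l 16780824))))))) (l 545538399))) (l 545525855))))))) (a (a (b (b (b (a (b (l 16791776) (l 16797208)) (a (l 16791632) (l 16790144))) (a (l 16805360) (l 16801248))) (b (l 16834928) (l 16824352))) (l 16871832)) (b (l 545448287) (l 16882992))) (l 545198431))), by decide +kernel⟩

def k2_A00pm_112_s1 : ∃ t, chk3 f_A00pm_112_s1 t 5 10 1 = true :=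
  ⟨(b (b (a (l 3) (l 1)) (a (b (a (l 3) (l 1)) (b (a (b (l 3) (a (l 547751823) (l 546725775))) (l 1)) (a (a (a (b (l 545796943) (a (l 16779672) (l 16782912))) (b (b (l 545894799) (l 545890447)) (b (l 16782744) (l 16785184)))) (b (b (l 546359951) (b (l 546237327) (l 546199183))) (a (l 16785616) (l 16787584)))) (a (b (l 1) (l 148746825047)) (l 1))))) (l 1))) (a (a (a (a (l 545366623) (a (l 545423967) (b (b (l 16785936) (l 16815176)) (l 16842080)))) (b (b (a (l 16787280) (l 16799888)) (l 16817752)) (l 16844920))) (a (b (b (b (l 16798768) (l 16808664)) (l 16823120)) (l 16850624)) (b (l 153041860807) (l 16858184)))) (a (l 175053792215) (l 1)))), by decide +kernel⟩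

def k3_A00pm_112_s1 : ∃ t, chk3 f_A00pm_112_s1 t 2 11 1 = true :=
  ⟨(a (a (b (a (a (l 16835496) (l 16909032)) (l 16981832)) (l 17152848)) (b (l 544558687) (l 17033848))) (b (c (a (b (l 16969000) (l 16916424)) (b (l 17011328) (l 16960848))) (a (a (l 16890552) (l 16901664)) (a (l 16920256) (a (l 16939040) (l 1))))) (a (l 17039352) (l 17082112)))), by decide +kernel⟩

def k4_A00pm_112_s1 : ∃ t, chk3 f_A00pm_112_s1 t 2 3 1 = true :=
  ⟨(b (a (a (b (b (l 17061424) (l 17133960)) (b (l 17286288) (l 6))) (b (l 17251800) (l 17151672))) (a (b (l 17190088) (l 17097856)) (b (l 17233464) (l 17119816)))) (a (l 6) (l 6))), by decide +kernel⟩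

def k5_A00pm_112_s1 : ∃ t, chk3 f_A00pm_112_s1 t 3 1 1 = true :=
  ⟨(b (a (a (b (l 1) (b (l 1) (b (l 1) (l 134788802615)))) (l 1)) (l 1)) (b (a (a (b (b (l 17077000) (l 17238896)) (l 17190056)) (a (l 65533237287) (l 60701690903))) (a (b (l 1) (l 6)) (l 1))) (l 6))), by decide +kernel⟩

theorem t6_A00pm_112_s1 : ∃ t, chk3 f_A00pm_112_s1 t 2 10 1 = true := ex3_a k1_A00pm_112_s1 k2_A00pm_112_s1

theorem t7_A00pm_112_s1 : ∃ t, chk3 f_A00pm_112_s1 t 2 5 1 = true := ex3_b t6_A00pm_112_s1 k3_A00pm_112_s1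

theorem t8_A00pm_112_s1 : ∃ t, chk3 f_A00pm_112_s1 t 2 2 1 = true := ex3_b k0_A00pm_112_s1 t7_A00pm_112_s1

theorem t9_A00pm_112_s1 : ∃ t, chk3 f_A00pm_112_s1 t 2 1 1 = true := ex3_b t8_A00pm_112_s1 k4_A00pm_112_s1

theorem t10_A00pm_112_s1 : ∃ t, chk3 f_A00pm_112_s1 t 1 1 1 = true := ex3_a t9_A00pm_112_s1 k5_A00pm_112_s1

theorem c_A00pm_112_s1 : CertF 536870912 536870912 536870912 536870912 67108864 67108864 true true false .dn 1 1 2
    ndF0q1 ndF0q1 pcF2 cut_A00pm_112_s1 xt_A00pm_112_s1 :=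
  certFK1 (fam := true) (s1 := true) (s2 := false) (a := 1) (b := 1) (c := 2) (cn := .dn) (n1 := ndF0q1) (n2 := ndF0q1) (pc := pcF2) (cut := cut_A00pm_112_s1) (xt := xt_A00pm_112_s1) (P1 := 536870912) (W1 := 536870912) (P2 := 536870912) (W2 := 536870912) (P3 := 67108864) (W3 := 67108864)
    rfl rfl rfl (fun _ => rfl) t10_A00pm_112_s1

theorem s_A00pm_112_s1 {κ x : ℝ} (hκ : κ * h0 = ken x) (hx : ((67108864 : ℕ) : ℝ) / S ≤ x)
    (hx' : x ≤ (((67108864 : ℕ) : ℝ) + (67108864 : ℕ)) / S) :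
    AltA (VF κ) PP tKF tL pcF [⟨3, 0, 0, 1449551462⟩] 1 1 2 0 0 (sgb true) (sgb false) x :=
  strip_altA (m := 1449551462) true rfl hκ covF01 covF01 hx hx' c_A00pm_112_s1 cutA_nil ((okx hx hx').extA (T := tt) (sideF hx hx') hκ rfl rfl (.O 1 true) (.O 1 false) rfl)

noncomputable def cut_A00pm_112_s3 : Cut := Cut.of [[⟨3, 0, 0, 2845415833⟩]]

noncomputable def f_A00pm_112_s3 : ℕ → ℕ → ℕ → ℕ → Bool := onCell 536870912 536870912 1073741824 536870912 67108864 67108864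
    (rowFK 1 true true false .dn 1 1 2 (qsf 536870912 536870912 536870912 536870912 2) ndF0q1 ndF0q1 pcF2 cut_A00pm_112_s3 Ext.none)

def k0_A00pm_112_s3 : ∃ t, chk3 f_A00pm_112_s3 t 1 1 1 = true :=
  ⟨(l 6), by decide +kernel⟩

theorem c_A00pm_112_s3 : CertF 536870912 536870912 536870912 536870912 67108864 67108864 true true false .dn 1 1 2
    ndF0q1 ndF0q1 pcF2 cut_A00pm_112_s3 Ext.none :=
  certFK1 (fam := true) (s1 := true) (s2 := false) (a := 1) (b := 1) (c := 2) (cn := .dn) (n1 := ndF0q1) (n2 := ndF0q1) (pc := pcF2) (cut := cut_A00pm_112_s3) (xt := Ext.none) (P1 := 536870912) (W1 := 536870912) (P2 := 536870912) (W2 := 536870912) (P3 := 67108864) (W3 := 67108864)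
    rfl rfl rfl (fun _ => rfl) k0_A00pm_112_s3

theorem s_A00pm_112_s3 {κ x : ℝ} (hκ : κ * h0 = ken x) (hx : ((67108864 : ℕ) : ℝ) / S ≤ x)
    (hx' : x ≤ (((67108864 : ℕ) : ℝ) + (67108864 : ℕ)) / S) :
    AltA (VF κ) PP tKF tL pcF [⟨4, 0, 0, 2845415833⟩] 1 1 2 0 0 (sgb true) (sgb false) x :=
  strip_altA (m := 2845415833) false rfl hκ covF01 covF01 hx hx' c_A00pm_112_s3 cutA_nil (noExt_A)

noncomputable def cut_A00pm_113_s1 : Cut := Cut.of [[⟨4, 0, 0, 1449551462⟩], [⟨0, 1, 0, 21338704⟩, ⟨1, 1, 0, 21338704⟩, ⟨2, 2, 0, 1685920⟩]]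

noncomputable def f_A00pm_113_s1 : ℕ → ℕ → ℕ → ℕ → Bool := onCell 536870912 536870912 1610612736 536870912 67108864 67108864
    (rowFK 1 true true false .nn 1 1 3 (qsf 536870912 536870912 536870912 536870912 3) ndF0q1 ndF0q1 pcF3 cut_A00pm_113_s1 Ext.none)

def k0_A00pm_113_s1 : ∃ t, chk3 f_A00pm_113_s1 t 1 1 1 = true :=
  ⟨(b (a (b (l 6) (l 6)) (l 6)) (l 6)), by decide +kernel⟩

theorem c_A00pm_113_s1 : CertF 536870912 536870912 536870912 536870912 67108864 67108864 true true false .nn 1 1 3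
    ndF0q1 ndF0q1 pcF3 cut_A00pm_113_s1 Ext.none :=
  certFK1 (fam := true) (s1 := true) (s2 := false) (a := 1) (b := 1) (c := 3) (cn := .nn) (n1 := ndF0q1) (n2 := ndF0q1) (pc := pcF3) (cut := cut_A00pm_113_s1) (xt := Ext.none) (P1 := 536870912) (W1 := 536870912) (P2 := 536870912) (W2 := 536870912) (P3 := 67108864) (W3 := 67108864)
    rfl rfl rfl (fun _ => rfl) k0_A00pm_113_s1

theorem s_A00pm_113_s1 {κ x : ℝ} (hκ : κ * h0 = ken x) (hx : ((67108864 : ℕ) : ℝ) / S ≤ x)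
    (hx' : x ≤ (((67108864 : ℕ) : ℝ) + (67108864 : ℕ)) / S)
    (H : CutA (VF κ) PP tKF tL pcF (Cut.of [[⟨0, 1, 0, 21338704⟩, ⟨1, 1, 0, 21338704⟩, ⟨2, 2, 0, 1685920⟩]]) 1 1 3 0 0 (sgb true) (sgb false) x) :
    AltA (VF κ) PP tKF tL pcF [⟨3, 0, 0, 1449551462⟩] 1 1 3 0 0 (sgb true) (sgb false) x :=
  strip_altA (m := 1449551462) true rfl hκ covF01 covF01 hx hx' c_A00pm_113_s1 H (noExt_A)

noncomputable def cut_A00pm_113_s3 : Cut := Cut.of [[⟨3, 0, 0, 2845415833⟩], [⟨0, 1, 0, 21338704⟩, ⟨1, 1, 0, 21338704⟩, ⟨2, 2, 0, 1685920⟩]]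

noncomputable def f_A00pm_113_s3 : ℕ → ℕ → ℕ → ℕ → Bool := onCell 536870912 536870912 536870912 536870912 67108864 67108864
    (rowFK 0 true true false .nn 1 1 3 (qsf 536870912 536870912 536870912 536870912 3) ndF0q1 ndF0q1 pcF3 cut_A00pm_113_s3 Ext.none)

def k0_A00pm_113_s3 : ∃ t, chk3 f_A00pm_113_s3 t 2 1 1 = true :=
  ⟨(l 6), by decide +kernel⟩

def k1_A00pm_113_s3 : ∃ t, chk3 f_A00pm_113_s3 t 3 2 1 = true :=
  ⟨(l 6), by decide +kernel⟩

def k2_A00pm_113_s3 : ∃ t, chk3 f_A00pm_113_s3 t 3 6 1 = true :=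
  ⟨(a (l 6) (a (l 6) (b (l 6) (a (l 6) (a (l 6) (l 17390856)))))), by decide +kernel⟩

def k3_A00pm_113_s3 : ∃ t, chk3 f_A00pm_113_s3 t 6 7 1 = true :=
  ⟨(b (l 6) (a (l 6) (b (l 6) (b (l 6) (l 17390856))))), by decide +kernel⟩

def k4_A00pm_113_s3 : ∃ t, chk3 f_A00pm_113_s3 t 14 7 1 = true :=
  ⟨(b (l 6) (b (a (l 6) (l 16980184)) (a (b (l 17117360) (l 17282696)) (b (b (l 17031448) (l 17188264)) (b (l 17098568) (l 17290040)))))), by decide +kernel⟩

def k5_A00pm_113_s3 : ∃ t, chk3 f_A00pm_113_s3 t 15 14 1 = true :=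
  ⟨(a (b (l 6) (l 16980184)) (b (a (l 17117360) (l 17282696)) (a (a (l 17031448) (l 17188264)) (a (l 17098568) (l 17290040))))), by decide +kernel⟩

def k6_A00pm_113_s3 : ∃ t, chk3 f_A00pm_113_s3 t 15 30 1 = true :=
  ⟨(b (a (l 16908736) (a (l 17416112) (a (l 17125232) (l 17150032)))) (a (l 16895152) (a (l 16909888) (a (a (l 17024752) (l 17103744)) (a (l 17031176) (b (l 16991456) (l 17048320))))))), by decide +kernel⟩

def k7_A00pm_113_s3 : ∃ t, chk3 f_A00pm_113_s3 t 30 31 1 = true :=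
  ⟨(a (b (l 17416112) (b (l 17125232) (l 17150032))) (b (l 16909888) (b (b (l 17024752) (l 17103744)) (b (l 17031176) (a (l 16991456) (l 17048320)))))), by decide +kernel⟩

def k8_A00pm_113_s3 : ∃ t, chk3 f_A00pm_113_s3 t 31 62 1 = true :=
  ⟨(b (a (l 16849656) (a (a (l 16890008) (l 16904088)) (a (l 17051200) (l 16996536)))) (a (l 16842160) (a (l 16853136) (a (a (l 16956192) (l 16951520)) (a (l 16906776) (b (l 16937232) (l 16919544))))))), by decide +kernel⟩

def k9_A00pm_113_s3 : ∃ t, chk3 f_A00pm_113_s3 t 62 63 1 = true :=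
  ⟨(a (b (a (l 17156776) (l 16888144)) (b (l 17051200) (l 16996536))) (b (l 16853136) (b (b (l 16956192) (l 16951520)) (b (l 16906776) (a (l 16937232) (l 16919544)))))), by decide +kernel⟩

def k10_A00pm_113_s3 : ∃ t, chk3 f_A00pm_113_s3 t 63 126 1 = true :=
  ⟨(b (a (l 16815328) (a (a (l 16839592) (l 16931104)) (a (l 16918768) (a (l 16882376) (l 16875080))))) (a (l 16811408) (a (l 16817848) (a (a (l 16870368) (l 16867416)) (a (l 16842704) (b (l 16860256) (l 16850224))))))), by decide +kernel⟩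

def k11_A00pm_113_s3 : ∃ t, chk3 f_A00pm_113_s3 t 126 127 1 = true :=
  ⟨(a (b (b (l 16839592) (l 16931104)) (b (l 16918768) (a (l 16905016) (l 16895344)))) (b (l 16817848) (b (b (l 16870368) (l 16867416)) (b (l 16842704) (a (l 16860256) (l 16850224)))))), by decide +kernel⟩

def k12_A00pm_113_s3 : ∃ t, chk3 f_A00pm_113_s3 t 127 127 1 = true :=
  ⟨(b (b (a (l 16796776) (a (a (l 16810016) (l 16855920)) (a (l 16849216) (a (l 16830168) (l 16827560))))) (a (l 16794776) (a (l 16840184) (a (a (l 16824760) (b (l 16825648) (l 16822776))) (a (b (l 16829072) (l 16811800)) (b (l 16819528) (l 16814200))))))) (a (a (b (b (l 16810016) (l 16855920)) (b (l 16849216) (a (l 16842224) (l 16836984)))) (b (l 16840184) (b (a (l 16826048) (a (l 16823280) (l 16820408))) (a (a (l 16832784) (l 16830104)) (b (l 16811800) (l 16814200)))))) (b (b (a (l 16787128) (a (a (l 16794040) (l 16817024)) (a (l 16813536) (b (l 16810008) (l 16807288))))) (a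 (l 16786120) (a (l 16808880) (a (a (l 16801232) (b (l 16801672) (l 16800184))) (a (b (l 16803160) (l 16794576)) (b (l 16798576) (l 16795832))))))) (a (a (b (b (l 16794040) (l 16817024)) (b (l 16813536) (a (l 16810008) (l 16807288)))) (b (l 16808880) (b (a (l 16801888) (a (l 16800456) (l 16798976))) (a (a (l 16805112) (l 16803736)) (b (l 16794576) (l 16795832)))))) (b (a (l 16801264) (a (a (l 16783816) (b (l 16797240) (l 16783320))) (a (a (b (l 16797240) (l 16789288)) (b (l 16793840) (b (l 16789504) (l 16788752)))) (a (b (l 16790528) (a (l 16786664) (l 16789400))) (a (b (l 16783560) (l 16785992)) (b (l 16785960) (l 14))))))) (a (b (a (b (l 16785736) (l 16797240)) (l 16793096)) (b (b (a (l 16797240) (l 16789288)) (a (l 16793840) (a (l 16789504) (l 16788752)))) (b (a (l 16790528) (a (l 16790192) (l 14))) (b (a (l 16783560) (l 16785992)) (a (l 16785960) (l 14)))))) (b (a (l 16789240) (l 14)) (l 14)))))))), by decide +kernel⟩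

theorem t13_A00pm_113_s3 : ∃ t, chk3 f_A00pm_113_s3 t 63 127 1 = true := ex3_a k11_A00pm_113_s3 k12_A00pm_113_s3

theorem t14_A00pm_113_s3 : ∃ t, chk3 f_A00pm_113_s3 t 63 63 1 = true := ex3_b k10_A00pm_113_s3 t13_A00pm_113_s3

theorem t15_A00pm_113_s3 : ∃ t, chk3 f_A00pm_113_s3 t 31 63 1 = true := ex3_a k9_A00pm_113_s3 t14_A00pm_113_s3

theorem t16_A00pm_113_s3 : ∃ t, chk3 f_A00pm_113_s3 t 31 31 1 = true := ex3_b k8_A00pm_113_s3 t15_A00pm_113_s3

theorem t17_A00pm_113_s3 : ∃ t, chk3 f_A00pm_113_s3 t 15 31 1 = true := ex3_a k7_A00pm_113_s3 t16_A00pm_113_s3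

theorem t18_A00pm_113_s3 : ∃ t, chk3 f_A00pm_113_s3 t 15 15 1 = true := ex3_b k6_A00pm_113_s3 t17_A00pm_113_s3

theorem t19_A00pm_113_s3 : ∃ t, chk3 f_A00pm_113_s3 t 15 7 1 = true := ex3_b k5_A00pm_113_s3 t18_A00pm_113_s3

theorem t20_A00pm_113_s3 : ∃ t, chk3 f_A00pm_113_s3 t 7 7 1 = true := ex3_a k4_A00pm_113_s3 t19_A00pm_113_s3

theorem t21_A00pm_113_s3 : ∃ t, chk3 f_A00pm_113_s3 t 3 7 1 = true := ex3_a k3_A00pm_113_s3 t20_A00pm_113_s3

theorem t22_A00pm_113_s3 : ∃ t, chk3 f_A00pm_113_s3 t 3 3 1 = true := ex3_b k2_A00pm_113_s3 t21_A00pm_113_s3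

theorem t23_A00pm_113_s3 : ∃ t, chk3 f_A00pm_113_s3 t 3 1 1 = true := ex3_b k1_A00pm_113_s3 t22_A00pm_113_s3

theorem t24_A00pm_113_s3 : ∃ t, chk3 f_A00pm_113_s3 t 1 1 1 = true := ex3_a k0_A00pm_113_s3 t23_A00pm_113_s3

theorem c_A00pm_113_s3 : CertF 536870912 536870912 536870912 536870912 67108864 67108864 true true false .nn 1 1 3
    ndF0q1 ndF0q1 pcF3 cut_A00pm_113_s3 Ext.none :=
  certFK0 (fam := true) (s1 := true) (s2 := false) (a := 1) (b := 1) (c := 3) (cn := .nn) (n1 := ndF0q1) (n2 := ndF0q1) (pc := pcF3) (cut := cut_A00pm_113_s3) (xt := Ext.none) (P1 := 536870912) (W1 := 536870912) (P2 := 536870912) (W2 := 536870912) (P3 := 67108864) (W3 := 67108864)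
    rfl rfl rfl t24_A00pm_113_s3

theorem s_A00pm_113_s3 {κ x : ℝ} (hκ : κ * h0 = ken x) (hx : ((67108864 : ℕ) : ℝ) / S ≤ x)
    (hx' : x ≤ (((67108864 : ℕ) : ℝ) + (67108864 : ℕ)) / S)
    (H : CutA (VF κ) PP tKF tL pcF (Cut.of [[⟨0, 1, 0, 21338704⟩, ⟨1, 1, 0, 21338704⟩, ⟨2, 2, 0, 1685920⟩]]) 1 1 3 0 0 (sgb true) (sgb false) x) :
    AltA (VF κ) PP tKF tL pcF [⟨4, 0, 0, 2845415833⟩] 1 1 3 0 0 (sgb true) (sgb false) x :=
  strip_altA (m := 2845415833) false rfl hκ covF01 covF01 hx hx' c_A00pm_113_s3 H (noExt_A)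

noncomputable def cut_A00pm_123_s1 : Cut := Cut.of [[⟨4, 0, 0, 1449551462⟩], [⟨0, 1, 0, 21338704⟩, ⟨1, 1, 0, 21338704⟩, ⟨2, 2, 0, 1685920⟩]]

noncomputable def f_A00pm_123_s1 : ℕ → ℕ → ℕ → ℕ → Bool := onCell 536870912 536870912 0 536870912 67108864 67108864
    (rowFK 0 true true false .npn 1 2 3 (qsf 536870912 536870912 0 536870912 3) ndF0q1 ndF0q2 pcF3 cut_A00pm_123_s1 Ext.none)

def k0_A00pm_123_s1 : ∃ t, chk3 f_A00pm_123_s1 t 1 1 1 = true :=
  ⟨(l 6), by decide +kernel⟩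

theorem c_A00pm_123_s1 : CertF 536870912 536870912 0 536870912 67108864 67108864 true true false .npn 1 2 3
    ndF0q1 ndF0q2 pcF3 cut_A00pm_123_s1 Ext.none :=
  certFK0 (fam := true) (s1 := true) (s2 := false) (a := 1) (b := 2) (c := 3) (cn := .npn) (n1 := ndF0q1) (n2 := ndF0q2) (pc := pcF3) (cut := cut_A00pm_123_s1) (xt := Ext.none) (P1 := 536870912) (W1 := 536870912) (P2 := 0) (W2 := 536870912) (P3 := 67108864) (W3 := 67108864)
    rfl rfl rfl k0_A00pm_123_s1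

theorem s_A00pm_123_s1 {κ x : ℝ} (hκ : κ * h0 = ken x) (hx : ((67108864 : ℕ) : ℝ) / S ≤ x)
    (hx' : x ≤ (((67108864 : ℕ) : ℝ) + (67108864 : ℕ)) / S)
    (H : CutA (VF κ) PP tKF tL pcF (Cut.of [[⟨0, 1, 0, 21338704⟩, ⟨1, 1, 0, 21338704⟩, ⟨2, 2, 0, 1685920⟩]]) 1 2 3 0 0 (sgb true) (sgb false) x) :
    AltA (VF κ) PP tKF tL pcF [⟨3, 0, 0, 1449551462⟩] 1 2 3 0 0 (sgb true) (sgb false) x :=
  strip_altA (m := 1449551462) true rfl hκ covF01 covF02 hx hx' c_A00pm_123_s1 H (noExt_A)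

noncomputable def cut_A00pm_123_s3 : Cut := Cut.of [[⟨3, 0, 0, 2845415833⟩], [⟨0, 1, 0, 21338704⟩, ⟨1, 1, 0, 21338704⟩, ⟨2, 2, 0, 1685920⟩]]

noncomputable def xt_A00pm_123_s3 : Ext := strExt dd true true false .u0 .u2 .s2 .npn 1 2 3 rfl rfl gl3 vv ndF0q1 ndF0q2

noncomputable def f_A00pm_123_s3 : ℕ → ℕ → ℕ → ℕ → Bool := onCell 1610612736 536870912 0 536870912 67108864 67108864
    (rowFK 2 true true false .npn 1 2 3 (qsf 536870912 536870912 0 536870912 3) ndF0q1 ndF0q2 pcF3 cut_A00pm_123_s3 xt_A00pm_123_s3)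

def k0_A00pm_123_s3 : ∃ t, chk3 f_A00pm_123_s3 t 2 1 1 = true :=
  ⟨(b (a (b (l 1) (l 6)) (b (a (b (l 546408975) (l 546380047)) (b (l 545854735) (l 545852175))) (b (a (l 546554127) (l 546114831)) (a (l 6) (l 546464271))))) (a (l 6) (b (a (l 6) (l 6)) (l 6)))), by decide +kernel⟩

def k1_A00pm_123_s3 : ∃ t, chk3 f_A00pm_123_s3 t 6 1 1 = true :=
  ⟨(b (b (a (b (l 545114639) (a (l 545421327) (l 545093903))) (b (l 4) (l 544486159))) (a (b (a (l 545710607) (l 545385231)) (a (l 17212064) (l 17022104))) (a (b (l 545032207) (l 545255695)) (b (l 544497679) (l 544683023))))) (b (a (a (b (l 17368944) (l 6)) (b (l 17248392) (a (l 17393664) (l 17339936)))) (a (b (l 17045632) (a (l 17282904) (l 17223304))) (a (b (l 17044760) (l 17162488)) (b (l 16991056) (l 17101048))))) (a (l 6) (a (b (l 17226248) (l 6)) (b (l 17329136) (l 17534624)))))), by decide +kernel⟩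

def k2_A00pm_123_s3 : ∃ t, chk3 f_A00pm_123_s3 t 14 1 1 = true :=
  ⟨(b (b (l 4) (a (b (l 543867663) (l 544015631)) (b (l 4) (a (l 543455247) (l 543042319))))) (b (b (a (b (l 544189711) (l 544350223)) (a (l 543936271) (l 544025103))) (a (b (l 16987376) (l 17035976)) (a (b (l 16909744) (l 16950640)) (b (l 16904672) (l 16898464))))) (a (b (b (l 17074824) (l 17079808)) (a (l 17427320) (l 17406576))) (b (b (a (l 16991944) (l 16934192)) (l 17114744)) (b (l 17006128) (a (l 17300144) (a (l 17283904) (l 17271280)))))))), by decide +kernel⟩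

def k3_A00pm_123_s3 : ∃ t, chk3 f_A00pm_123_s3 t 15 2 1 = true :=
  ⟨(l 4), by decide +kernel⟩

def k4_A00pm_123_s3 : ∃ t, chk3 f_A00pm_123_s3 t 30 3 1 = true :=
  ⟨(b (b (a (b (l 542684943) (l 542778895)) (b (l 4) (a (l 542379791) (l 4)))) (a (b (l 544247823) (b (l 16885672) (l 16858896))) (b (a (l 542485775) (l 542439183)) (a (l 544242447) (b (l 542263567) (l 542337551)))))) (b (a (b (l 16881232) (l 16995272)) (b (a (l 16845520) (b (l 16818152) (l 16829512))) (a (l 16871920) (l 16930504)))) (b (a (l 16941256) (l 16972936)) (b (l 17067280) (b (l 17039064) (a (l 17064128) (a (l 16951552) (l 17010232)))))))), by decide +kernel⟩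

def k5_A00pm_123_s3 : ∃ t, chk3 f_A00pm_123_s3 t 62 3 1 = true :=
  ⟨(b (b (l 4) (b (a (a (l 541930767) (l 4)) (l 4)) (a (b (a (l 542011151) (l 541825039)) (a (l 542077711) (l 541884687))) (b (l 4) (a (l 541679375) (l 541457679)))))) (a (b (b (b (a (l 16803576) (l 542226447)) (c (l 16851728) (l 16829024))) (c (l 16908160) (l 16863736))) (b (b (l 16922928) (l 16856280)) (b (l 16876200) (b (l 16891712) (b (l 16899656) (l 16986208)))))) (b (b (b (a (l 541744399) (b (l 541501711) (l 541533199))) (a (l 16805424) (b (l 541299727) (l 541607951)))) (b (a (l 16803464) (l 16804680)) (l 16827440))) (b (b (l 16856560) (l 16869008)) (c (b (l 16847632) (a (l 17001712) (a (l 16961256) (l 16955160)))) (a (b (l 16851304) (b (l 16865936) (b (l 16873440) (l 16876848)))) (b (l 16836048) (b (l 16850128) (b (l 16857336) (l 16902048)))))))))), by decide +kernel⟩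

def k6_A00pm_123_s3 : ∃ t, chk3 f_A00pm_123_s3 t 126 3 1 = true :=
  ⟨(b (l 4) (b (b (a (b (b (l 4) (l 542348047)) (a (l 541946127) (l 541270799))) (b (l 4) (a (l 542463247) (l 4)))) (b (a (b (l 542983183) (a (l 16789496) (l 16795816))) (a (b (l 541176335) (l 541217295)) (b (l 541007119) (l 541579279)))) (a (c (l 16813584) (l 16802384)) (b (a (l 541264911) (a (l 541154063) (l 541062927))) (a (l 16787296) (c (l 16788576) (l 16788320))))))) (b (a (b (l 16798400) (l 16848296)) (a (b (l 16791360) (l 16796976)) (b (c (l 16787160) (l 16786736)) (l 16812560)))) (a (c (b (l 16823000) (b (l 16837136) (a (l 16932736) (l 16915720)))) (a (b (l 16824424) (b (l 16837840) (b (l 16844712) (a (l 16850936) (l 16846504))))) (b (l 16816576) (b (l 16829432) (b (l 16836016) (b (l 16839344) (l 16840824))))))) (a (b (l 16809608) (b (l 16822232) (b (l 16828688) (b (l 16831952) (l 16833192))))) (b (l 16843880) (c (b (l 16814368) (a (l 16882936)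 (l 16869016))) (c (b (l 16812752) (b (l 16818648) (b (l 16821624) (l 16864400)))) (b (l 16811680) (b (l 16817360) (b (l 16820224) (l 16842008)))))))))))), by decide +kernel⟩

def k7_A00pm_123_s3 : ∃ t, chk3 f_A00pm_123_s3 t 127 6 1 = true :=
  ⟨(l 4), by decide +kernel⟩

def k8_A00pm_123_s3 : ∃ t, chk3 f_A00pm_123_s3 t 254 7 1 = true :=
  ⟨(b (b (l 4) (b (a (b (l 4) (a (l 540924431) (l 4))) (l 4)) (a (b (a (l 540965647) (l 541934607)) (a (b (l 541004047) (l 16786176)) (b (l 540897807) (l 540923151)))) (b (l 4) (a (b (l 540781583) (l 540804623)) (l 4)))))) (a (b (b (b (a (l 16782712) (b (l 540950799) (l 16781344))) (l 16789200)) (c (l 16787176) (l 16797256))) (b (a (l 16817072) (l 16813488)) (c (b (l 16805064) (b (l 16810696) (a (l 16856952) (a (l 16843744) (l 16841928))))) (a (b (l 16805680) (b (l 16811064) (b (l 16813776) (a (l 16816504) (l 16814024))))) (c (b (l 16801664) (b (l 16806840) (b (l 16809448) (b (l 16810760)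 (l 16811224))))) (b (l 16800944) (b (l 16805920) (b (l 16808432) (b (l 16809696) (l 16810152)))))))))) (b (b (b (a (b (l 540829967) (l 541663503)) (b (a (l 540752911) (l 4)) (a (l 540781583) (l 540711695)))) (a (b (l 16785736) (l 16781480)) (b (a (l 540813327) (l 540742159)) (a (l 16780048) (l 542118415))))) (b (a (l 16782888) (b (l 16785728) (l 16791824))) (b (l 16788440) (l 16784008)))) (b (b (a (l 16786392) (l 16783960)) (l 16800128)) (c (b (l 16795760) (b (l 16800656) (a (a (l 16840104) (l 16838272)) (a (a (l 16826400) (l 16825480)) (l 16824096))))) (a (c (b (l 16797224) (b (l 16802048) (b (l 16804480) (b (l 16805696) (l 16806024))))) (b (l 16796640) (a (b (l 16802448) (b (l 16804832) (b (l 16806032) (l 16806608)))) (b (l 16800120) (b (l 16802416) (b (l 16803568) (l 16804088))))))) (c (b (l 16792816) (b (l 16797232) (b (l 16799456) (b (l 16800576) (l 16821688))))) (b (l 16792360) (a (b (l 16797792) (b (l 16799984)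 (b (l 16801088) (l 16801552)))) (b (l 16795456) (b (l 16797544) (b (l 16798592) (l 16798984))))))))))))), by decide +kernel⟩

def k9_A00pm_123_s3 : ∃ t, chk3 f_A00pm_123_s3 t 510 14 1 = true :=
  ⟨(l 4), by decide +kernel⟩

def k10_A00pm_123_s3 : ∃ t, chk3 f_A00pm_123_s3 t 510 30 1 = true :=
  ⟨(b (b (a (b (l 4) (a (l 540636431) (l 4))) (l 4)) (a (b (a (l 541739023) (b (l 4) (l 540592399))) (a (b (l 540691983) (l 540709135)) (b (l 540607759) (l 540623887)))) (b (l 4) (a (b (l 4) (l 541065743)) (l 4))))) (b (a (b (a (c (l 16779120) (l 16779048)) (b (l 540641295) (l 540928015))) (a (l 16779896) (c (l 16779008) (l 16778944)))) (b (a (b (l 541886991) (a (l 540608271) (l 540559375))) (b (l 4) (a (l 540507151) (l 4)))) (a (b (a (l 540628495) (l 540579087)) (a (l 16778488) (l 540599823))) (b (a (l 540526351) (l 540737807)) (a (l 540546575) (l 541294351)))))) (a (a (l 16781032) (l 16782680)) (b (a (b (c (l 16778648) (l 16781224))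 (l 16778968)) (b (a (l 541373711) (l 542120719)) (a (l 542202383) (a (l 16777968) (l 540531727))))) (a (l 16779464) (a (l 16781392) (b (l 16778176) (l 16778480)))))))), by decide +kernel⟩

def k11_A00pm_123_s3 : ∃ t, chk3 f_A00pm_123_s3 t 510 31 1 = true :=
  ⟨(b (a (b (l 16781912) (l 16794552)) (a (b (l 16780392) (l 16792072)) (a (b (l 16784896) (l 16780584)) (b (l 16781800) (l 16780096))))) (a (c (b (l 16788928) (b (l 16793104) (b (l 16795200) (b (l 16796248) (b (l 16796776) (l 16796712)))))) (c (b (l 16788448) (b (l 16792408) (b (l 16794392) (b (l 16795392) (b (l 16795888) (l 16806312)))))) (a (b (l 16789192) (b (l 16793120) (b (l 16795088) (b (l 16796080) (a (l 16797216) (l 16795920)))))) (b (l 16787104) (b (l 16790784) (b (l 16792632) (b (l 16793560) (b (l 16794024) (l 16794128))))))))) (a (c (b (l 16785592) (b (l 16789328) (a (l 16808488) (a (l 16807784) (l 16807312))))) (c (b (l 16785264) (b (l 16788808) (b (l 16790584)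 (b (l 16791472) (b (l 16791920) (l 16791960)))))) (b (l 16785048) (b (l 16788456) (a (b (l 16790784) (b (l 16791656) (b (l 16792096) (l 16792272)))) (c (b (l 16789648) (b (l 16790496) (b (l 16790920) (l 16791072)))) (b (l 16789456) (b (l 16790280) (b (l 16790696) (l 16790848)))))))))) (c (b (l 16794208) (b (l 16786832) (b (l 16788536) (b (l 16789392) (b (l 16789816) (l 16789776)))))) (b (l 16793872) (c (a (b (l 16787016) (c (b (l 16788760) (b (l 16789600) (b (l 16790016) (l 16790152)))) (b (l 16788584) (b (l 16789408) (b (l 16789816) (l 16789944)))))) (b (l 16785824) (c (b (l 16787480) (b (l 16788272) (b (l 16788672) (l 16788768)))) (b (l 16787320) (b (l 16788096) (b (l 16788488) (l 16788584))))))) (a (b (l 16786720) (c (b (l 16788408) (b (l 16789216) (b (l 16789616) (l 16789744)))) (b (l 16788232) (b (l 16789016) (b (l 16789416) (l 16789544)))))) (b (l 16785568) (c (b (l 16787160) (b (l 16787928) (b (l 16788312) (l 16788408))))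 (b (l 16787008) (b (l 16787752) (b (l 16788128) (l 16788224))))))))))))), by decide +kernel⟩

def k12_A00pm_123_s3 : ∃ t, chk3 f_A00pm_123_s3 t 1022 14 1 = true :=
  ⟨(l 4), by decide +kernel⟩

def k13_A00pm_123_s3 : ∃ t, chk3 f_A00pm_123_s3 t 1022 30 1 = true :=
  ⟨(b (l 4) (b (l 4) (b (a (b (a (b (l 540444687) (l 540455183)) (l 4)) (a (b (l 540466191) (l 540477455)) (b (l 541469711) (l 541748751)))) (l 4)) (a (b (a (b (l 540757519) (l 541038351)) (b (a (l 540453647) (l 540417807)) (a (l 540466191) (l 540430351)))) (a (c (l 16778048) (l 16778024)) (b (a (l 540479247) (l 540443151)) (a (l 16777784) (l 540456719))))) (a (b (b (l 4) (a (l 540392207) (l 4))) (b (a (l 540404751) (l 4)) (a (l 540418063) (l 540376847)))) (l 4)))))), by decide +kernel⟩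

def k14_A00pm_123_s3 : ∃ t, chk3 f_A00pm_123_s3 t 2044 31 1 = true :=
  ⟨(b (a (b (b (c (l 16778480) (l 16778432)) (l 16778984)) (l 16779696)) (b (b (b (a (l 16777992) (a (l 16777824) (l 16777720))) (l 16778152)) (l 16778528)) (l 16781824))) (c (b (a (l 16792672) (l 16791728)) (c (b (l 16784456) (b (l 16786000) (b (l 16786768) (b (l 16787160) (b (l 16787352) (l 16787256)))))) (a (b (l 16784864) (c (b (l 16786472) (b (l 16787248) (b (l 16787632) (a (l 16788152) (l 16787440))))) (b (l 16786336) (b (l 16787096) (b (l 16787472) (a (l 16787984) (l 16787280))))))) (a (a (b (l 16784104) (b (l 16785584) (a (l 16794144) (l 16794024)))) (b (l 16783800) (b (l 16785256) (l 16793848)))) (b (l 16783352) (b (l 16784760) (l 16793488))))))) (b (a (l 16792432) (b (l 16790496) (l 16781568))) (c (a (b (l 16784640) (c (b (l 16786192) (b (l 16786944) (b (l 16787320) (a (l 16787816) (l 16787128))))) (b (l 16786056) (b (l 16786792) (b (l 16787160)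 (a (l 16787648) (l 16786968))))))) (a (b (l 16783760) (b (l 16785176) (b (l 16785880) (b (l 16786232) (b (l 16786408) (l 16786472)))))) (b (l 16783176) (b (l 16784536) (b (l 16785216) (b (l 16785560) (b (l 16785728) (l 16785784)))))))) (a (b (l 16784424) (c (b (l 16785920) (b (l 16786640) (b (l 16787000) (a (l 16787488) (l 16786816))))) (b (l 16785784) (b (l 16786488) (b (l 16786840) (a (l 16787320) (l 16786656))))))) (b (l 16783288) (c (b (l 16784680) (b (l 16785352) (b (l 16785688) (b (l 16785856) (l 16785864))))) (b (l 16784560) (b (l 16785224) (b (l 16785552) (b (l 16785712) (l 16785720)))))))))))), by decide +kernel⟩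

def k15_A00pm_123_s3 : ∃ t, chk3 f_A00pm_123_s3 t 2045 31 1 = true :=
  ⟨(b (b (b (b (a (b (a (l 540431887) (l 540390159)) (a (l 16777632) (l 540672783))) (a (b (l 540613903) (l 541164559)) (l 4))) (b (a (a (l 16777760) (l 541224207)) (a (l 541715727) (a (l 540350223) (l 4)))) (l 14))) (l 14)) (l 14)) (l 14)), by decide +kernel⟩

def k16_A00pm_123_s3 : ∃ t, chk3 f_A00pm_123_s3 t 1023 7 1 = true :=
  ⟨(b (l 4) (b (l 4) (b (b (b (b (l 4) (l 4)) (l 14)) (l 14)) (l 14)))), by decide +kernel⟩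

theorem t17_A00pm_123_s3 : ∃ t, chk3 f_A00pm_123_s3 t 1022 31 1 = true := ex3_a k14_A00pm_123_s3 k15_A00pm_123_s3

theorem t18_A00pm_123_s3 : ∃ t, chk3 f_A00pm_123_s3 t 1022 15 1 = true := ex3_b k13_A00pm_123_s3 t17_A00pm_123_s3

theorem t19_A00pm_123_s3 : ∃ t, chk3 f_A00pm_123_s3 t 1022 7 1 = true := ex3_b k12_A00pm_123_s3 t18_A00pm_123_s3

theorem t20_A00pm_123_s3 : ∃ t, chk3 f_A00pm_123_s3 t 511 7 1 = true := ex3_a t19_A00pm_123_s3 k16_A00pm_123_s3

theorem t21_A00pm_123_s3 : ∃ t, chk3 f_A00pm_123_s3 t 510 15 1 = true := ex3_b k10_A00pm_123_s3 k11_A00pm_123_s3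

theorem t22_A00pm_123_s3 : ∃ t, chk3 f_A00pm_123_s3 t 510 7 1 = true := ex3_b k9_A00pm_123_s3 t21_A00pm_123_s3

theorem t23_A00pm_123_s3 : ∃ t, chk3 f_A00pm_123_s3 t 255 7 1 = true := ex3_a t22_A00pm_123_s3 t20_A00pm_123_s3

theorem t24_A00pm_123_s3 : ∃ t, chk3 f_A00pm_123_s3 t 127 7 1 = true := ex3_a k8_A00pm_123_s3 t23_A00pm_123_s3

theorem t25_A00pm_123_s3 : ∃ t, chk3 f_A00pm_123_s3 t 127 3 1 = true := ex3_b k7_A00pm_123_s3 t24_A00pm_123_s3

theorem t26_A00pm_123_s3 : ∃ t, chk3 f_A00pm_123_s3 t 63 3 1 = true := ex3_a k6_A00pm_123_s3 t25_A00pm_123_s3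

theorem t27_A00pm_123_s3 : ∃ t, chk3 f_A00pm_123_s3 t 31 3 1 = true := ex3_a k5_A00pm_123_s3 t26_A00pm_123_s3

theorem t28_A00pm_123_s3 : ∃ t, chk3 f_A00pm_123_s3 t 15 3 1 = true := ex3_a k4_A00pm_123_s3 t27_A00pm_123_s3

theorem t29_A00pm_123_s3 : ∃ t, chk3 f_A00pm_123_s3 t 15 1 1 = true := ex3_b k3_A00pm_123_s3 t28_A00pm_123_s3

theorem t30_A00pm_123_s3 : ∃ t, chk3 f_A00pm_123_s3 t 7 1 1 = true := ex3_a k2_A00pm_123_s3 t29_A00pm_123_s3

theorem t31_A00pm_123_s3 : ∃ t, chk3 f_A00pm_123_s3 t 3 1 1 = true := ex3_a k1_A00pm_123_s3 t30_A00pm_123_s3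

theorem t32_A00pm_123_s3 : ∃ t, chk3 f_A00pm_123_s3 t 1 1 1 = true := ex3_a k0_A00pm_123_s3 t31_A00pm_123_s3

theorem c_A00pm_123_s3 : CertF 536870912 536870912 0 536870912 67108864 67108864 true true false .npn 1 2 3
    ndF0q1 ndF0q2 pcF3 cut_A00pm_123_s3 xt_A00pm_123_s3 :=
  certFK2 (fam := true) (s1 := true) (s2 := false) (a := 1) (b := 2) (c := 3) (cn := .npn) (n1 := ndF0q1) (n2 := ndF0q2) (pc := pcF3) (cut := cut_A00pm_123_s3) (xt := xt_A00pm_123_s3) (P1 := 536870912) (W1 := 536870912) (P2 := 0) (W2 := 536870912) (P3 := 67108864) (W3 := 67108864)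
    rfl rfl rfl (fun _ => rfl) t32_A00pm_123_s3

theorem s_A00pm_123_s3 {κ x : ℝ} (hκ : κ * h0 = ken x) (hx : ((67108864 : ℕ) : ℝ) / S ≤ x)
    (hx' : x ≤ (((67108864 : ℕ) : ℝ) + (67108864 : ℕ)) / S)
    (H : CutA (VF κ) PP tKF tL pcF (Cut.of [[⟨0, 1, 0, 21338704⟩, ⟨1, 1, 0, 21338704⟩, ⟨2, 2, 0, 1685920⟩]]) 1 2 3 0 0 (sgb true) (sgb false) x) :
    AltA (VF κ) PP tKF tL pcF [⟨4, 0, 0, 2845415833⟩] 1 2 3 0 0 (sgb true) (sgb false) x :=
  strip_altA (m := 2845415833) false rfl hκ covF01 covF02 hx hx' c_A00pm_123_s3 H ((okx hx hx').extA (T := tt) (sideF hx hx') hκ rfl rfl (.O 1 true) (.O 2 false) (Or.inr rfl))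

noncomputable def cut_A00pm_202_s1 : Cut := Cut.of [[⟨4, 0, 0, 1449551462⟩], [⟨0, 1, 0, 67108864⟩, ⟨1, 0, 0, 67108864⟩, ⟨2, 1, 0, 67108864⟩], [⟨0, 1, 0, 8388608⟩, ⟨1, 0, 1, 33554432⟩, ⟨2, 1, 1, 33554432⟩, ⟨1, 0, 0, 150994944⟩, ⟨1, 1, 0, 1023410176⟩, ⟨2, 1, 0, 150994944⟩, ⟨2, 2, 0, 1023410176⟩]]

noncomputable def f_A00pm_202_s1 : ℕ → ℕ → ℕ → ℕ → Bool := onCell 0 536870912 1073741824 536870912 67108864 67108864
    (rowFK 1 true true false .pp 2 0 2 (qsf 0 536870912 0 536870912 2) ndF0q2 ndF0q0 pcF2 cut_A00pm_202_s1 Ext.none)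

def k0_A00pm_202_s1 : ∃ t, chk3 f_A00pm_202_s1 t 2 1 1 = true :=
  ⟨(b (b (b (l 1) (l 6)) (l 6)) (l 6)), by decide +kernel⟩

def k1_A00pm_202_s1 : ∃ t, chk3 f_A00pm_202_s1 t 3 8 1 = true :=
  ⟨(b (a (l 1) (a (l 1) (l 14))) (a (l 1) (a (b (a (l 1) (l 14)) (b (a (l 1) (l 14)) (b (a (a (l 1) (a (l 1) (l 14))) (l 14)) (a (a (l 1) (a (b (l 16713952) (l 16712024)) (l 16710256))) (b (l 14) (a (l 16704496) (l 16698408))))))) (a (b (l 14) (b (l 14) (b (l 14) (a (a (l 16695312) (l 16734176)) (a (l 16731040) (l 16742480)))))) (b (l 14) (a (b (l 14) (b (l 14) (a (l 16723600) (a (l 16743496) (l 16749768))))) (a (b (l 14) (b (l 14) (b (l 14) (a (l 16735064) (l 16751824))))) (a (b (l 14) (b (l 14) (b (l 14) (c (l 16754264) (l 16746224))))) (c (b (l 14) (c (l 22) (b (l 14) (b (l 14) (b (l 14) (a (l 16753032) (a (l 16755416) (a (l 16756608) (b (l 14) (c (l 22) (l 16756960))))))))))) (c (b (l 14) (b (l 14) (b (l 14) (a (l 16751584) (a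 (l 16753912) (a (l 16755080) (b (l 14) (c (l 16756200) (l 16755408))))))))) (b (l 14) (b (l 14) (b (l 14) (a (l 16750096) (a (l 16752376) (b (l 14) (l 16753832))))))))))))))))), by decide +kernel⟩

def k2_A00pm_202_s1 : ∃ t, chk3 f_A00pm_202_s1 t 6 9 1 = true :=
  ⟨(a (b (l 1) (l 6)) (a (b (b (l 1) (b (a (l 1) (l 16723800)) (a (l 16728544) (a (l 16721320) (l 16716568))))) (b (b (a (l 16697064) (l 16752624)) (c (l 17272560) (l 16710752))) (l 6))) (b (b (b (l 1) (a (a (l 1) (l 16718896)) (a (b (l 16716112) (l 16713048)) (b (a (l 16713344) (l 16711504)) (l 16709152))))) (a (b (a (l 16717320) (l 16713064)) (l 16709520)) (b (a (l 16708824) (l 16704600)) (a (l 16702464) (l 16697792))))) (b (b (a (l 16727280) (a (l 16794632) (l 16784864))) (a (c (l 17455312) (l 16694776)) (c (l 17243552) (l 16684240)))) (c (a (l 17540792) (l 17328800)) (a (l 16694088) (b (l 16731024) (l 16907504)))))))), by decide +kernel⟩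

def k3_A00pm_202_s1 : ∃ t, chk3 f_A00pm_202_s1 t 14 9 1 = true :=
  ⟨(b (a (b (a (b (a (b (l 1) (a (l 16713096) (l 16711384))) (b (a (l 16713296) (l 16711704)) (l 16708824))) (a (l 16718048) (l 16714296))) (b (a (b (l 16709320) (l 16705400)) (l 16715312)) (b (l 16741608) (l 16737528)))) (a (b (a (l 16700384) (l 16696176)) (a (l 16693120) (l 16688456))) (b (a (l 16691960) (l 16687736)) (a (l 16683776) (l 16679080))))) (b (b (c (a (b (l 16702416) (l 16697872)) (a (l 16737544) (l 16733952))) (a (l 16709312) (l 16703176))) (a (a (l 16734488) (l 16730712)) (a (l 16768840) (l 16765000)))) (a (b (a (l 16683496) (l 16763120)) (a (l 16674360) (l 16753496))) (b (a (l 16758816) (l 16754464)) (a (l 16748696) (l 16743840)))))) (c (b (c (a (a (l 17380816) (l 17499736)) (a (l 17453456) (l 17326256))) (a (a (b (l 16953120) (l 17217040)) (b (l 17012624) (l 17187856))) (a (b (l 16992704) (l 17162368)) (b (l 16893848) (l 17140992))))) (a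 (a (l 17286112) (l 17329184)) (a (l 17290576) (l 17254496)))) (a (b (a (b (l 16681336) (l 16673696)) (b (l 16671632) (l 16663072))) (a (b (l 16720232) (l 16892488)) (b (l 16713896) (l 16881288)))) (b (a (b (l 16661816) (l 16652304)) (b (l 16735688) (l 16725176))) (a (b (l 16712488) (l 16874304)) (b (l 16716464) (l 16871960))))))), by decide +kernel⟩

def k4_A00pm_202_s1 : ∃ t, chk3 f_A00pm_202_s1 t 30 18 1 = true :=
  ⟨(b (a (b (a (b (l 16689984) (l 16684632)) (b (l 16770536) (l 16764928))) (a (l 16761104) (l 16757144))) (b (a (b (l 16728288) (l 16768672)) (b (l 16741016) (l 16739584))) (a (c (l 16766160) (l 16723320)) (a (l 16733528) (l 16740040))))) (a (a (b (l 16750064) (l 16738912)) (b (c (l 16795976) (l 16749360)) (l 16746840))) (a (b (l 16762976) (l 16760392)) (b (b (l 16777472) (l 16776208)) (l 16752960))))), by decide +kernel⟩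

def k5_A00pm_202_s1 : ∃ t, chk3 f_A00pm_202_s1 t 62 36 1 = true :=
  ⟨(a (b (b (a (l 16708600) (l 16714944)) (l 16752416)) (b (l 16751152) (l 16749928))) (a (b (b (l 16721280) (l 16720080)) (b (l 16718912) (l 16717792))) (b (c (l 16737664) (l 16735448)) (b (l 16746352) (l 16745296))))), by decide +kernel⟩

def k6_A00pm_202_s1 : ∃ t, chk3 f_A00pm_202_s1 t 126 36 1 = true :=
  ⟨(b (c (a (b (l 16735168) (l 16734200)) (b (l 16746872) (l 16745968))) (a (l 16741680) (b (l 16738936) (l 16737840)))) (a (b (l 16752824) (l 16751832)) (c (l 22) (b (l 16736776) (l 16735760))))), by decide +kernel⟩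

def k7_A00pm_202_s1 : ∃ t, chk3 f_A00pm_202_s1 t 127 36 2 = true :=
  ⟨(c (l 22) (c (l 22) (b (b (b (a (l 16747480) (c (l 22) (a (l 16752048) (a (l 16754416) (a (l 16755608) (a (l 16756200) (b (l 16756776) (l 22)))))))) (a (l 16747000) (a (l 16751784) (l 22)))) (a (l 16751312) (l 22))) (l 22)))), by decide +kernel⟩

def k8_A00pm_202_s1 : ∃ t, chk3 f_A00pm_202_s1 t 127 72 3 = true :=
  ⟨(a (b (a (l 16743592) (l 16746696)) (a (l 16742536) (l 16745672))) (a (b (b (l 16750304) (l 16749792)) (b (l 16749280) (l 16748784))) (a (b (b (c (l 16753424) (l 16751832)) (c (l 16752944) (l 16751296))) (b (c (l 16752472) (l 16750776)) (c (l 16752016) (l 16750264)))) (b (a (b (c (l 16754600) (l 16752984)) (c (l 16754120) (l 16752456))) (b (c (b (c (l 16755968) (l 16755160)) (c (a (l 16755536) (l 16755928)) (l 16754912))) (b (l 16753944) (l 16753672))) (b (c (c (a (l 16755312) (l 16755704)) (l 16754664)) (l 16753416)) (c (c (a (l 16755080)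 (l 16755472)) (l 16754424)) (l 16753152))))) (a (b (c (l 16753664) (l 16751936)) (c (l 16753208) (l 16751432))) (b (b (c (c (a (l 16754856) (l 16755248)) (l 16754192)) (l 16752896)) (c (c (a (l 16754632) (l 16755032)) (l 16753952)) (l 16752640))) (b (c (c (a (l 16754416) (l 16754816)) (l 16753720)) (l 16752384)) (c (c (b (l 16754464) (l 16754360)) (l 16753496)) (l 16752136))))))))), by decide +kernel⟩

def k9_A00pm_202_s1 : ∃ t, chk3 f_A00pm_202_s1 t 127 73 3 = true :=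
  ⟨(a (b (l 16748352) (l 16747400)) (a (b (b (l 16748296) (l 16747824)) (c (l 16753144) (l 16746024))) (a (b (b (c (l 16751568) (l 16749768)) (c (l 16751136) (l 16749280))) (b (c (l 16750712) (l 16748808)) (c (l 16750304) (l 16748336)))) (b (a (b (c (l 16752768) (l 16750944)) (c (l 16752344) (l 16750456))) (b (b (c (c (b (l 16754248) (l 22)) (l 16753272)) (l 16751896)) (c (c (l 22) (l 16753048)) (l 16751648))) (b (c (c (l 22) (l 16752824)) (l 16751408)) (c (c (l 22) (l 16752608)) (l 16751176))))) (a (b (c (l 16751928) (l 16749992)) (c (l 16751520) (l 16749536))) (a (c (c (l 22) (b (l 16752048) (l 16751632))) (b (l 16750584) (l 16750128))) (c (c (l 22) (b (b (l 16752600) (l 16752384)) (b (l 16752176) (l 16751976)))) (b (b (l 16751136) (l 16750904)) (b (l 16750680) (l 16750456)))))))))), by decide +kernel⟩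

def k10_A00pm_202_s1 : ∃ t, chk3 f_A00pm_202_s1 t 62 37 1 = true :=
  ⟨(b (a (a (l 16744264) (l 16750904)) (c (b (l 16765632) (l 16783304)) (l 16727968))) (a (a (l 16742136) (l 16748896)) (b (l 16749512) (l 16759088)))), by decide +kernel⟩

def k11_A00pm_202_s1 : ∃ t, chk3 f_A00pm_202_s1 t 63 37 1 = true :=
  ⟨(a (a (b (b (l 16750888) (l 16749992)) (b (l 16749136) (l 16748336))) (c (c (b (l 22) (l 17017608)) (l 22)) (b (l 16744200) (l 16737296)))) (a (b (c (l 22) (b (l 16746496) (l 16745632))) (c (c (l 16930368) (l 22)) (b (l 16744808) (l 16744040)))) (a (c (c (c (b (l 22) (l 17266936)) (l 22)) (l 22)) (c (b (b (l 16752344) (l 22)) (l 22)) (b (b (l 16745112) (l 16744240)) (b (l 16743424) (l 16742648))))) (b (a (c (l 22) (b (b (c (l 16749904) (l 16747888)) (l 16751104)) (c (l 22) (b (l 16747016) (l 16746600))))) (c (l 22) (a (b (c (b (l 16751128) (l 22)) (b (l 16749088) (l 16748648))) (c (l 22) (b (l 16748232) (l 16747816))))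 (b (a (c (b (c (l 22) (l 16751232)) (l 22)) (b (l 16749688) (l 16749256))) (c (b (c (l 22) (b (l 16751776) (l 22))) (l 22)) (b (b (l 16750232) (l 16750016)) (c (b (l 16750328) (l 16750120)) (l 16749120))))) (a (c (l 22) (b (l 16748832) (l 16748432))) (c (l 22) (b (c (b (l 16749920) (l 16749720)) (l 16748696)) (b (b (l 16749024) (l 16748928)) (c (l 16749328) (l 16748208)))))))))) (a (c (c (c (l 17264896) (l 22)) (l 22)) (c (l 22) (a (b (l 16745472) (l 16744720)) (b (l 16746288) (l 16745544))))) (c (c (c (l 17263536) (l 22)) (l 22)) (a (c (l 22) (b (b (l 16747424) (l 16747040)) (b (l 16746664) (l 16746304)))) (b (c (l 22) (a (b (l 16748032) (l 16747656)) (b (b (c (l 16749136) (l 16748000)) (c (l 22) (l 16747800))) (c (l 22) (c (l 16747768) (l 16747184)))))) (c (l 22) (c (l 22) (b (b (l 16747008) (l 16746824)) (b (l 16746640) (l 16746456))))))))))))), by decide +kernel⟩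

def k12_A00pm_202_s1 : ∃ t, chk3 f_A00pm_202_s1 t 15 19 1 = true :=
  ⟨(a (b (b (a (a (l 16753656) (l 16757664)) (a (l 16763392) (l 16770896))) (a (c (l 17064640) (l 16734032)) (c (l 16955904) (a (l 16670744) (l 16684488))))) (b (c (a (l 17342080) (l 17313392)) (a (l 16726272) (l 16742320))) (c (c (l 17654952) (l 17260296)) (a (l 16874640) (l 16756880))))) (a (c (c (b (b (l 17246368) (l 17436496)) (l 17562056)) (b (b (a (l 16882024) (l 16801048)) (a (l 17106776) (l 17020904))) (b (l 17220464) (l 17316840)))) (b (a (b (l 16700152) (l 16698240)) (b (l 16724144) (l 16753952))) (a (b (l 16758632) (l 16808576)) (b (l 16771608) (l 16732984))))) (c (a (c (b (b (l 17311272) (l 17413488)) (l 17535720)) (b (b (a (l 16804304) (l 22)) (l 16894440)) (b (l 17213696) (l 17306320)))) (b (b (c (l 17132192) (l 22)) (c (l 17399232) (b (l 22) (l 16965344)))) (b (a (l 17264992) (c (l 17478632) (l 17126032))) (l 17342768)))) (a (b (b (a (l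 16723792) (l 16735808)) (a (l 16722344) (l 22))) (b (a (l 16740496) (l 22)) (c (l 16874680) (a (l 16774592) (l 22))))) (b (c (l 22) (b (b (c (l 22) (a (l 16736344) (c (l 22) (a (l 16741016) (a (l 16743504) (b (b (l 16745552) (l 22)) (l 22))))))) (a (l 16736200) (l 22))) (l 22))) (c (b (l 22) (c (b (l 22) (l 17134872)) (l 22))) (l 22))))))), by decide +kernel⟩

def k13_A00pm_202_s1 : ∃ t, chk3 f_A00pm_202_s1 t 6 5 1 = true :=
  ⟨(a (l 6) (a (l 6) (a (l 6) (b (b (b (b (c (l 17782416) (l 16967832)) (l 6)) (l 6)) (l 6)) (l 6))))), by decide +kernel⟩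

def k14_A00pm_202_s1 : ∃ t, chk3 f_A00pm_202_s1 t 14 10 1 = true :=
  ⟨(c (b (a (b (l 17667976) (l 17851128)) (b (l 17591120) (l 17777784))) (a (l 17942824) (l 17878840))) (b (b (a (a (l 16759728) (l 16827888)) (a (l 16731648) (b (l 17001712) (l 17111016)))) (a (a (l 17124360) (l 17188976)) (a (l 17172112) (l 17074064)))) (a (b (l 6) (l 6)) (b (a (l 17391848) (l 17374704)) (l 17484464))))), by decide +kernel⟩

def k15_A00pm_202_s1 : ∃ t, chk3 f_A00pm_202_s1 t 15 10 1 = true :=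
  ⟨(b (c (a (b (c (l 17743632) (l 17383616)) (l 17709432)) (a (b (l 17559848) (l 17662800)) (b (b (l 17501368) (l 17560712)) (b (l 17611032) (l 17655264))))) (c (a (b (a (l 17112280) (b (l 17140552) (l 17231840))) (a (l 17354600) (l 17340456))) (a (b (b (l 17138440) (l 17225768)) (l 17329304)) (b (b (a (l 17139792) (b (l 17119856) (l 17163552))) (a (l 17223760) (b (l 17204248) (l 17242248)))) (b (a (l 17293096) (l 17206832)) (b (l 17335624) (l 17331952)))))) (b (a (a (b (l 16851448) (l 16967896)) (b (l 16862208) (l 16973344))) (a (b (a (l 16873864) (l 16883384)) (a (l 16980576) (l 16986912))) (a (b (l 16726520) (l 16910576)) (b (l 22) (b (l 22) (a (l 17023328) (a (l 17026520) (a (l 17028176) (l 16945400))))))))) (a (a (l 17106680) (b (l 17065296) (l 17142184))) (a (b (l 17070000) (l 17142008)) (a (b (l 17076336) (l 17144352)) (b (a (l 17080392) (a (l 17082648) (b (l 16983368) (l 17100872)))) (b (l 17047560) (b (l 17154912)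 (c (l 17219600) (a (l 17119624) (b (b (b (l 17114864) (l 17116976)) (l 17119672)) (l 17125408))))))))))))) (b (c (a (l 17786256) (l 17727256)) (c (a (l 17461232) (a (l 17438344) (l 17425960))) (a (a (l 17249064) (l 17241072)) (a (c (l 17286592) (l 17185416)) (a (l 17150392) (b (l 17122504) (l 17260640))))))) (c (a (l 17845680) (l 17792232)) (a (c (l 17550744) (l 17354080)) (c (l 17519288) (a (l 17340752) (l 17250960))))))), by decide +kernel⟩

def k16_A00pm_202_s1 : ∃ t, chk3 f_A00pm_202_s1 t 7 11 1 = true :=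
  ⟨(a (l 6) (a (b (a (l 17748592) (l 17646760)) (l 6)) (b (a (l 17546200) (a (l 17534728) (l 17527568))) (l 17548232)))), by decide +kernel⟩

def k17_A00pm_202_s1 : ∃ t, chk3 f_A00pm_202_s1 t 3 3 1 = true :=
  ⟨(l 6), by decide +kernel⟩

theorem t18_A00pm_202_s1 : ∃ t, chk3 f_A00pm_202_s1 t 7 10 1 = true := ex3_a k14_A00pm_202_s1 k15_A00pm_202_s1

theorem t19_A00pm_202_s1 : ∃ t, chk3 f_A00pm_202_s1 t 7 5 1 = true := ex3_b t18_A00pm_202_s1 k16_A00pm_202_s1

theorem t20_A00pm_202_s1 : ∃ t, chk3 f_A00pm_202_s1 t 3 5 1 = true := ex3_a k13_A00pm_202_s1 t19_A00pm_202_s1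

theorem t21_A00pm_202_s1 : ∃ t, chk3 f_A00pm_202_s1 t 31 37 1 = true := ex3_a k10_A00pm_202_s1 k11_A00pm_202_s1

theorem t22_A00pm_202_s1 : ∃ t, chk3 f_A00pm_202_s1 t 127 36 3 = true := ex3_b k8_A00pm_202_s1 k9_A00pm_202_s1

theorem t23_A00pm_202_s1 : ∃ t, chk3 f_A00pm_202_s1 t 127 36 1 = true := ex3_c k7_A00pm_202_s1 t22_A00pm_202_s1

theorem t24_A00pm_202_s1 : ∃ t, chk3 f_A00pm_202_s1 t 63 36 1 = true := ex3_a k6_A00pm_202_s1 t23_A00pm_202_s1

theorem t25_A00pm_202_s1 : ∃ t, chk3 f_A00pm_202_s1 t 31 36 1 = true := ex3_a k5_A00pm_202_s1 t24_A00pm_202_s1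

theorem t26_A00pm_202_s1 : ∃ t, chk3 f_A00pm_202_s1 t 31 18 1 = true := ex3_b t25_A00pm_202_s1 t21_A00pm_202_s1

theorem t27_A00pm_202_s1 : ∃ t, chk3 f_A00pm_202_s1 t 15 18 1 = true := ex3_a k4_A00pm_202_s1 t26_A00pm_202_s1

theorem t28_A00pm_202_s1 : ∃ t, chk3 f_A00pm_202_s1 t 15 9 1 = true := ex3_b t27_A00pm_202_s1 k12_A00pm_202_s1

theorem t29_A00pm_202_s1 : ∃ t, chk3 f_A00pm_202_s1 t 7 9 1 = true := ex3_a k3_A00pm_202_s1 t28_A00pm_202_s1

theorem t30_A00pm_202_s1 : ∃ t, chk3 f_A00pm_202_s1 t 3 9 1 = true := ex3_a k2_A00pm_202_s1 t29_A00pm_202_s1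

theorem t31_A00pm_202_s1 : ∃ t, chk3 f_A00pm_202_s1 t 3 4 1 = true := ex3_b k1_A00pm_202_s1 t30_A00pm_202_s1

theorem t32_A00pm_202_s1 : ∃ t, chk3 f_A00pm_202_s1 t 3 2 1 = true := ex3_b t31_A00pm_202_s1 t20_A00pm_202_s1

theorem t33_A00pm_202_s1 : ∃ t, chk3 f_A00pm_202_s1 t 3 1 1 = true := ex3_b t32_A00pm_202_s1 k17_A00pm_202_s1

theorem t34_A00pm_202_s1 : ∃ t, chk3 f_A00pm_202_s1 t 1 1 1 = true := ex3_a k0_A00pm_202_s1 t33_A00pm_202_s1

theorem c_A00pm_202_s1 : CertF 0 536870912 0 536870912 67108864 67108864 true true false .pp 2 0 2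
    ndF0q2 ndF0q0 pcF2 cut_A00pm_202_s1 Ext.none :=
  certFK1 (fam := true) (s1 := true) (s2 := false) (a := 2) (b := 0) (c := 2) (cn := .pp) (n1 := ndF0q2) (n2 := ndF0q0) (pc := pcF2) (cut := cut_A00pm_202_s1) (xt := Ext.none) (P1 := 0) (W1 := 536870912) (P2 := 0) (W2 := 536870912) (P3 := 67108864) (W3 := 67108864)
    rfl rfl rfl (fun _ => rfl) t34_A00pm_202_s1

theorem s_A00pm_202_s1 {κ x : ℝ} (hκ : κ * h0 = ken x) (hx : ((67108864 : ℕ) : ℝ) / S ≤ x)
    (hx' : x ≤ (((67108864 : ℕ) : ℝ) + (67108864 : ℕ)) / S)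
    (H : CutA (VF κ) PP tKF tL pcF (Cut.of [[⟨0, 1, 0, 67108864⟩, ⟨1, 0, 0, 67108864⟩, ⟨2, 1, 0, 67108864⟩], [⟨0, 1, 0, 8388608⟩, ⟨1, 0, 1, 33554432⟩, ⟨2, 1, 1, 33554432⟩, ⟨1, 0, 0, 150994944⟩, ⟨1, 1, 0, 1023410176⟩, ⟨2, 1, 0, 150994944⟩, ⟨2, 2, 0, 1023410176⟩]]) 2 0 2 0 0 (sgb true) (sgb false) x) :
    AltA (VF κ) PP tKF tL pcF [⟨3, 0, 0, 1449551462⟩] 2 0 2 0 0 (sgb true) (sgb false) x :=
  strip_altA (m := 1449551462) true rfl hκ covF02 covF00 hx hx' c_A00pm_202_s1 H (noExt_A)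

noncomputable def cut_A00pm_202_s3 : Cut := Cut.of [[⟨3, 0, 0, 2845415833⟩], [⟨0, 1, 0, 67108864⟩, ⟨1, 0, 0, 67108864⟩, ⟨2, 1, 0, 67108864⟩], [⟨0, 1, 0, 8388608⟩, ⟨1, 0, 1, 33554432⟩, ⟨2, 1, 1, 33554432⟩, ⟨1, 0, 0, 150994944⟩, ⟨1, 1, 0, 1023410176⟩, ⟨2, 1, 0, 150994944⟩, ⟨2, 2, 0, 1023410176⟩]]

noncomputable def f_A00pm_202_s3 : ℕ → ℕ → ℕ → ℕ → Bool := onCell 0 536870912 1073741824 536870912 67108864 67108864
    (rowFK 1 true true false .pp 2 0 2 (qsf 0 536870912 0 536870912 2) ndF0q2 ndF0q0 pcF2 cut_A00pm_202_s3 Ext.none)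

def k0_A00pm_202_s3 : ∃ t, chk3 f_A00pm_202_s3 t 1 1 1 = true :=
  ⟨(a (b (l 6) (l 6)) (l 6)), by decide +kernel⟩

theorem c_A00pm_202_s3 : CertF 0 536870912 0 536870912 67108864 67108864 true true false .pp 2 0 2
    ndF0q2 ndF0q0 pcF2 cut_A00pm_202_s3 Ext.none :=
  certFK1 (fam := true) (s1 := true) (s2 := false) (a := 2) (b := 0) (c := 2) (cn := .pp) (n1 := ndF0q2) (n2 := ndF0q0) (pc := pcF2) (cut := cut_A00pm_202_s3) (xt := Ext.none) (P1 := 0) (W1 := 536870912) (P2 := 0) (W2 := 536870912) (P3 := 67108864) (W3 := 67108864)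
    rfl rfl rfl (fun _ => rfl) k0_A00pm_202_s3

theorem s_A00pm_202_s3 {κ x : ℝ} (hκ : κ * h0 = ken x) (hx : ((67108864 : ℕ) : ℝ) / S ≤ x)
    (hx' : x ≤ (((67108864 : ℕ) : ℝ) + (67108864 : ℕ)) / S)
    (H : CutA (VF κ) PP tKF tL pcF (Cut.of [[⟨0, 1, 0, 67108864⟩, ⟨1, 0, 0, 67108864⟩, ⟨2, 1, 0, 67108864⟩], [⟨0, 1, 0, 8388608⟩, ⟨1, 0, 1, 33554432⟩, ⟨2, 1, 1, 33554432⟩, ⟨1, 0, 0, 150994944⟩, ⟨1, 1, 0, 1023410176⟩, ⟨2, 1, 0, 150994944⟩, ⟨2, 2, 0, 1023410176⟩]]) 2 0 2 0 0 (sgb true) (sgb false) x) :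
    AltA (VF κ) PP tKF tL pcF [⟨4, 0, 0, 2845415833⟩] 2 0 2 0 0 (sgb true) (sgb false) x :=
  strip_altA (m := 2845415833) false rfl hκ covF02 covF00 hx hx' c_A00pm_202_s3 H (noExt_A)

noncomputable def cut_A00pm_203_s1 : Cut := Cut.of [[⟨4, 0, 0, 1449551462⟩]]

noncomputable def f_A00pm_203_s1 : ℕ → ℕ → ℕ → ℕ → Bool := onCell 0 536870912 1610612736 536870912 67108864 67108864
    (rowFK 1 true true false .up 2 0 3 (qsf 0 536870912 0 536870912 3) ndF0q2 ndF0q0 pcF3 cut_A00pm_203_s1 Ext.none)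

def k0_A00pm_203_s1 : ∃ t, chk3 f_A00pm_203_s1 t 1 1 1 = true :=
  ⟨(l 6), by decide +kernel⟩

theorem c_A00pm_203_s1 : CertF 0 536870912 0 536870912 67108864 67108864 true true false .up 2 0 3
    ndF0q2 ndF0q0 pcF3 cut_A00pm_203_s1 Ext.none :=
  certFK1 (fam := true) (s1 := true) (s2 := false) (a := 2) (b := 0) (c := 3) (cn := .up) (n1 := ndF0q2) (n2 := ndF0q0) (pc := pcF3) (cut := cut_A00pm_203_s1) (xt := Ext.none) (P1 := 0) (W1 := 536870912) (P2 := 0) (W2 := 536870912) (P3 := 67108864) (W3 := 67108864)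
    rfl rfl rfl (fun _ => rfl) k0_A00pm_203_s1

theorem s_A00pm_203_s1 {κ x : ℝ} (hκ : κ * h0 = ken x) (hx : ((67108864 : ℕ) : ℝ) / S ≤ x)
    (hx' : x ≤ (((67108864 : ℕ) : ℝ) + (67108864 : ℕ)) / S) :
    AltA (VF κ) PP tKF tL pcF [⟨3, 0, 0, 1449551462⟩] 2 0 3 0 0 (sgb true) (sgb false) x :=
  strip_altA (m := 1449551462) true rfl hκ covF02 covF00 hx hx' c_A00pm_203_s1 cutA_nil (noExt_A)

noncomputable def cut_A00pm_203_s3 : Cut := Cut.of [[⟨3, 0, 0, 2845415833⟩]]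

noncomputable def xt_A00pm_203_s3 : Ext := strExt dd true true false .u2 .u0m .s2m .up 2 0 3 rfl rfl gl3 vv ndF0q2 ndF0q0

noncomputable def f_A00pm_203_s3 : ℕ → ℕ → ℕ → ℕ → Bool := onCell 0 536870912 0 536870912 67108864 67108864
    (rowFK 0 true true false .up 2 0 3 (qsf 0 536870912 0 536870912 3) ndF0q2 ndF0q0 pcF3 cut_A00pm_203_s3 xt_A00pm_203_s3)

def k0_A00pm_203_s3 : ∃ t, chk3 f_A00pm_203_s3 t 1 1 1 = true :=
  ⟨(a (b (l 1) (b (a (b (l 1) (a (l 17590800) (l 6))) (l 6)) (a (a (b (l 17382744) (l 546665487)) (b (l 6) (l 17283464))) (b (l 6) (l 6))))) (l 6)), by decide +kernel⟩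

theorem c_A00pm_203_s3 : CertF 0 536870912 0 536870912 67108864 67108864 true true false .up 2 0 3
    ndF0q2 ndF0q0 pcF3 cut_A00pm_203_s3 xt_A00pm_203_s3 :=
  certFK0 (fam := true) (s1 := true) (s2 := false) (a := 2) (b := 0) (c := 3) (cn := .up) (n1 := ndF0q2) (n2 := ndF0q0) (pc := pcF3) (cut := cut_A00pm_203_s3) (xt := xt_A00pm_203_s3) (P1 := 0) (W1 := 536870912) (P2 := 0) (W2 := 536870912) (P3 := 67108864) (W3 := 67108864)
    rfl rfl rfl k0_A00pm_203_s3

theorem s_A00pm_203_s3 {κ x : ℝ} (hκ : κ * h0 = ken x) (hx : ((67108864 : ℕ) : ℝ) / S ≤ x)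
    (hx' : x ≤ (((67108864 : ℕ) : ℝ) + (67108864 : ℕ)) / S) :
    AltA (VF κ) PP tKF tL pcF [⟨4, 0, 0, 2845415833⟩] 2 0 3 0 0 (sgb true) (sgb false) x :=
  strip_altA (m := 2845415833) false rfl hκ covF02 covF00 hx hx' c_A00pm_203_s3 cutA_nil ((okx hx hx').extA (T := tt) (sideF hx hx') hκ rfl rfl (.O 2 true) (.O 0 false) (Or.inr rfl))

noncomputable def cut_A00pm_213_s1 : Cut := Cut.of [[⟨4, 0, 0, 1449551462⟩], [⟨0, 1, 0, 21338704⟩, ⟨1, 1, 0, 21338704⟩, ⟨2, 2, 0, 1685920⟩]]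

noncomputable def f_A00pm_213_s1 : ℕ → ℕ → ℕ → ℕ → Bool := onCell 0 536870912 536870912 536870912 67108864 67108864
    (rowFK 0 true true false .pnn 2 1 3 (qsf 0 536870912 536870912 536870912 3) ndF0q2 ndF0q1 pcF3 cut_A00pm_213_s1 Ext.none)

def k0_A00pm_213_s1 : ∃ t, chk3 f_A00pm_213_s1 t 1 1 1 = true :=
  ⟨(l 6), by decide +kernel⟩

theorem c_A00pm_213_s1 : CertF 0 536870912 536870912 536870912 67108864 67108864 true true false .pnn 2 1 3
    ndF0q2 ndF0q1 pcF3 cut_A00pm_213_s1 Ext.none :=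
  certFK0 (fam := true) (s1 := true) (s2 := false) (a := 2) (b := 1) (c := 3) (cn := .pnn) (n1 := ndF0q2) (n2 := ndF0q1) (pc := pcF3) (cut := cut_A00pm_213_s1) (xt := Ext.none) (P1 := 0) (W1 := 536870912) (P2 := 536870912) (W2 := 536870912) (P3 := 67108864) (W3 := 67108864)
    rfl rfl rfl k0_A00pm_213_s1

theorem s_A00pm_213_s1 {κ x : ℝ} (hκ : κ * h0 = ken x) (hx : ((67108864 : ℕ) : ℝ) / S ≤ x)
    (hx' : x ≤ (((67108864 : ℕ) : ℝ) + (67108864 : ℕ)) / S)
    (H : CutA (VF κ) PP tKF tL pcF (Cut.of [[⟨0, 1, 0, 21338704⟩, ⟨1, 1, 0, 21338704⟩, ⟨2, 2, 0, 1685920⟩]]) 2 1 3 0 0 (sgb true) (sgb false) x) :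
    AltA (VF κ) PP tKF tL pcF [⟨3, 0, 0, 1449551462⟩] 2 1 3 0 0 (sgb true) (sgb false) x :=
  strip_altA (m := 1449551462) true rfl hκ covF02 covF01 hx hx' c_A00pm_213_s1 H (noExt_A)

noncomputable def cut_A00pm_213_s3 : Cut := Cut.of [[⟨3, 0, 0, 2845415833⟩], [⟨0, 1, 0, 21338704⟩, ⟨1, 1, 0, 21338704⟩, ⟨2, 2, 0, 1685920⟩]]

noncomputable def xt_A00pm_213_s3 : Ext := strExt dd true true false .u2 .u0m .s2m .pnn 2 1 3 rfl rfl gl3 vv ndF0q2 ndF0q1

noncomputable def f_A00pm_213_s3 : ℕ → ℕ → ℕ → ℕ → Bool := onCell 0 536870912 1610612736 536870912 67108864 67108864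
    (rowFK 1 true true false .pnn 2 1 3 (qsf 0 536870912 536870912 536870912 3) ndF0q2 ndF0q1 pcF3 cut_A00pm_213_s3 xt_A00pm_213_s3)

def k0_A00pm_213_s3 : ∃ t, chk3 f_A00pm_213_s3 t 1 2 1 = true :=
  ⟨(a (b (a (l 1) (l 6)) (a (b (a (l 547226127) (l 547733775)) (a (l 545861391) (a (l 545857039) (l 545926927)))) (a (b (b (l 17469976) (l 17364160)) (b (l 17260424) (l 17158872))) (b (l 6) (a (l 17332528) (l 17417176)))))) (b (l 6) (a (b (l 6) (l 6)) (l 6)))), by decide +kernel⟩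

def k1_A00pm_213_s3 : ∃ t, chk3 f_A00pm_213_s3 t 1 6 1 = true :=
  ⟨(a (a (b (a (b (l 545341199) (l 544957199)) (b (l 545396239) (l 545030159))) (a (l 4) (b (l 544711183) (l 544249615)))) (b (a (b (l 545703183) (l 545383695)) (b (l 17212064) (l 17022104))) (a (b (l 544992783) (l 544501263)) (b (c (l 17179664) (l 546611983)) (l 544952335))))) (a (b (b (a (l 17368944) (l 6)) (a (l 17248392) (a (l 17359152) (l 17379208)))) (b (a (l 17045632) (a (l 17228576) (l 17278112))) (a (a (l 16989712) (l 17045688)) (a (l 17102848) (l 17159704))))) (b (l 6) (a (b (l 17226248) (l 17329136)) (b (l 6) (l 17534624)))))), by decide +kernel⟩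

def k2_A00pm_213_s3 : ∃ t, chk3 f_A00pm_213_s3 t 1 14 1 = true :=
  ⟨(a (a (l 4) (a (b (l 543901967) (l 4)) (b (l 545353743) (a (l 543212815) (l 543281679))))) (a (a (b (a (l 544188175) (l 544883983)) (a (l 544179983) (b (l 16910920) (l 543279631)))) (b (a (l 16987376) (l 17035976)) (a (b (l 16909744) (l 16904672)) (b (l 16950640) (l 16898464))))) (b (a (a (l 17074824) (l 17079808)) (b (l 17427320) (l 17406576))) (a (a (a (l 16952432) (l 17057272)) (l 17114744)) (a (l 17006128) (a (l 17016976) (a (l 17022008) (l 17103392)))))))), by decide +kernel⟩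

def k3_A00pm_213_s3 : ∃ t, chk3 f_A00pm_213_s3 t 2 15 1 = true :=
  ⟨(l 4), by decide +kernel⟩

def k4_A00pm_213_s3 : ∃ t, chk3 f_A00pm_213_s3 t 3 30 1 = true :=
  ⟨(a (a (b (a (l 542684431) (l 543850767)) (a (l 4) (a (l 4) (l 542238991)))) (a (b (b (l 16788720) (l 543316751)) (a (l 542820111) (l 542872079))) (b (a (l 16885672) (l 16858896)) (a (b (l 16792064) (l 542262031)) (b (l 16826264) (l 543139855)))))) (a (b (a (l 16881232) (l 16995272)) (a (a (b (l 16839264) (l 16818152)) (l 16882360)) (b (l 16871920) (l 16930504)))) (a (b (l 16941256) (l 16972936)) (a (l 17067280) (a (l 17039064) (a (l 16962176) (b (l 16984280) (l 17025216)))))))), by decide +kernel⟩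

def k5_A00pm_213_s3 : ∃ t, chk3 f_A00pm_213_s3 t 3 62 1 = true :=
  ⟨(a (a (l 4) (a (b (a (l 4) (l 542389775)) (l 4)) (b (a (b (l 542011151) (l 541825039)) (b (l 542077967) (l 542958607))) (a (l 4) (b (a (l 541667599) (l 541696271)) (l 542262799)))))) (b (a (a (a (b (l 16803576) (a (l 16781592) (l 16796984))) (c (l 16851728) (l 16829024))) (c (l 16908160) (l 16863736))) (a (a (l 16922928) (l 16856280)) (a (l 16876200) (a (l 16891712) (a (l 16899656) (l 16986208)))))) (a (a (a (b (a (l 541728527) (l 541764367)) (a (l 541501199) (l 541531919))) (b (l 16805424) (a (l 541834767) (l 541873423)))) (a (b (l 16803464) (l 16804680)) (l 16827440))) (a (a (l 16856560) (l 16869008)) (c (a (l 16847632) (b (l 17001712) (b (l 16961256) (l 16955160)))) (b (a (l 16851304) (a (l 16865936) (a (l 16873440) (l 16876848)))) (a (l 16836048) (a (l 16850128) (a (l 16857336) (l 16902048)))))))))), by decide +kernel⟩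

def k6_A00pm_213_s3 : ∃ t, chk3 f_A00pm_213_s3 t 3 126 1 = true :=
  ⟨(a (l 4) (a (a (a (b (a (l 4) (l 541811215)) (l 4)) (b (a (l 542643983) (l 541333263)) (a (l 4) (b (l 541141263) (l 4))))) (a (b (a (l 542711055) (b (l 16789496) (l 16795816))) (a (b (l 541175823) (l 541006607)) (b (l 541216015) (l 541578255)))) (b (c (l 16813584) (l 16802384)) (a (b (l 542068495) (a (l 541077263) (l 541099535))) (b (l 16787296) (c (l 16788576) (l 16788320))))))) (a (b (a (l 16798400) (l 16848296)) (b (a (l 16791360) (l 16796976)) (a (c (l 16787160) (l 16786736)) (l 16812560)))) (b (c (a (l 16823000) (a (l 16837136) (b (l 16932736) (l 16915720)))) (b (a (l 16824424) (a (l 16837840) (a (l 16844712) (a (l 16848192) (l 16849888))))) (a (l 16816576) (a (l 16829432) (a (l 16836016) (a (l 16839344) (l 16840824))))))) (b (a (l 16809608) (a (l 16822232) (a (l 16828688) (a (l 16831952) (l 16833192))))) (a (l 16843880) (c (a (l 16814368) (b (l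 16882936) (l 16869016))) (c (a (l 16812752) (a (l 16818648) (a (l 16821624) (l 16864400)))) (a (l 16811680) (a (l 16817360) (a (l 16820224) (l 16842008)))))))))))), by decide +kernel⟩

def k7_A00pm_213_s3 : ∃ t, chk3 f_A00pm_213_s3 t 6 127 1 = true :=
  ⟨(l 4), by decide +kernel⟩

def k8_A00pm_213_s3 : ∃ t, chk3 f_A00pm_213_s3 t 7 254 1 = true :=
  ⟨(a (a (l 4) (a (b (a (l 4) (a (l 4) (l 540858895))) (l 4)) (a (b (a (l 540875791) (l 541431055)) (l 4)) (b (a (l 542524687) (b (l 16786176) (l 540922127))) (b (a (l 540781071) (l 540803855)) (l 4)))))) (b (a (a (a (b (l 16782712) (a (l 540949519) (l 16781344))) (l 16789200)) (c (l 16787176) (l 16797256))) (a (b (l 16817072) (l 16813488)) (c (a (l 16805064) (a (l 16810696) (a (l 16813536) (a (l 16814968) (l 16815104))))) (b (a (l 16805680) (a (l 16811064) (a (l 16813776) (a (l 16815144) (l 16815712))))) (c (a (l 16801664) (a (l 16806840) (a (l 16809448) (a (l 16810760) (l 16811224)))))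 (a (l 16800944) (a (l 16805920) (a (l 16808432) (a (l 16809696) (l 16810152)))))))))) (a (a (a (a (b (l 540828943) (l 542035471)) (b (l 541661711) (a (l 540718095) (l 540731151)))) (a (b (l 16785736) (a (l 540744975) (l 540759311))) (b (l 16781480) (a (l 541042959) (l 16782440))))) (a (b (l 16782888) (b (l 16781384) (l 16785664))) (a (l 16788440) (l 16784008)))) (a (a (a (l 16784792) (l 16796272)) (l 16800128)) (c (a (l 16795760) (a (l 16800656) (b (b (l 16840104) (l 16838272)) (a (l 16800504) (a (l 16801680) (l 16822800)))))) (b (c (a (l 16797224) (a (l 16802048) (a (l 16804480) (a (l 16805696) (l 16806024))))) (a (l 16796640) (b (a (l 16802448) (a (l 16804832) (a (l 16806032) (l 16806608)))) (a (l 16800120) (a (l 16802416) (a (l 16803568) (l 16804088))))))) (c (a (l 16792816) (a (l 16797232) (a (l 16799456) (a (l 16800576) (l 16821688))))) (a (l 16792360) (b (a (l 16797792) (a (l 16799984) (a (l 16801088) (l 16801552))))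 (a (l 16795456) (a (l 16797544) (a (l 16798592) (l 16798984))))))))))))), by decide +kernel⟩

def k9_A00pm_213_s3 : ∃ t, chk3 f_A00pm_213_s3 t 14 510 1 = true :=
  ⟨(l 4), by decide +kernel⟩

def k10_A00pm_213_s3 : ∃ t, chk3 f_A00pm_213_s3 t 30 510 1 = true :=
  ⟨(a (a (b (a (l 4) (a (l 4) (l 542180367))) (l 4)) (b (a (b (l 542007567) (a (l 4) (l 540592143))) (b (a (l 540691471) (l 540708367)) (a (l 540607247) (l 540623375)))) (a (l 4) (b (a (l 4) (l 540528655)) (l 4))))) (a (b (a (a (b (l 540726543) (l 540640527)) (b (l 16779296) (l 540658447))) (b (l 16779896) (c (l 16779008) (l 16778944)))) (a (b (a (l 541349647) (l 541903375)) (a (l 4) (b (l 540507151) (l 4)))) (b (a (b (l 540628239) (l 540578831)) (b (l 16778488) (l 540599567))) (a (b (l 540526095) (l 540469263)) (b (l 540546319) (l 541294095)))))) (b (b (l 16781032) (l 16782680)) (a (b (a (c (l 16778648) (l 16781224)) (l 16778968)) (a (b (l 541373199) (l 542120207))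 (b (c (l 16778312) (l 16780896)) (b (l 16777968) (l 540800783))))) (b (l 16779464) (b (l 16781392) (a (l 16778176) (l 16778480)))))))), by decide +kernel⟩

def k11_A00pm_213_s3 : ∃ t, chk3 f_A00pm_213_s3 t 31 510 1 = true :=
  ⟨(a (b (a (l 16781912) (l 16794552)) (b (a (l 16780392) (l 16792072)) (a (a (l 16781768) (l 16779704)) (a (l 16780224) (l 16780664))))) (b (c (a (l 16788928) (a (l 16793104) (a (l 16795200) (a (l 16796248) (a (l 16796776) (l 16796712)))))) (c (a (l 16788448) (a (l 16792408) (a (l 16794392) (a (l 16795392) (a (l 16795888) (l 16806312)))))) (b (a (l 16789192) (a (l 16793120) (a (l 16795088) (a (l 16796080) (b (l 16797216) (l 16795920)))))) (a (l 16787104) (a (l 16790784) (a (l 16792632) (a (l 16793560) (a (l 16794024) (l 16794128))))))))) (b (c (a (l 16785592) (a (l 16789328) (b (l 16808488) (b (l 16807784) (l 16807312))))) (c (a (l 16785264) (a (l 16788808) (a (l 16790584) (a (l 16791472) (a (l 16791920)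 (l 16791960)))))) (a (l 16785048) (a (l 16788456) (b (a (l 16790784) (a (l 16791656) (a (l 16792096) (l 16792272)))) (c (a (l 16789648) (a (l 16790496) (a (l 16790920) (l 16791072)))) (a (l 16789456) (a (l 16790280) (a (l 16790696) (l 16790848)))))))))) (c (a (l 16794208) (a (l 16786832) (a (l 16788536) (a (l 16789392) (a (l 16789816) (l 16789776)))))) (a (l 16793872) (c (b (a (l 16787016) (c (a (l 16788760) (a (l 16789600) (a (l 16790016) (l 16790152)))) (a (l 16788584) (a (l 16789408) (a (l 16789816) (l 16789944)))))) (a (l 16785824) (c (a (l 16787480) (a (l 16788272) (a (l 16788672) (l 16788768)))) (a (l 16787320) (a (l 16788096) (a (l 16788488) (l 16788584))))))) (b (a (l 16786720) (c (a (l 16788408) (a (l 16789216) (a (l 16789616) (l 16789744)))) (a (l 16788232) (a (l 16789016) (a (l 16789416) (l 16789544)))))) (a (l 16785568) (c (a (l 16787160) (a (l 16787928) (a (l 16788312) (l 16788408)))) (a (l 16787008) (a (l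 16787752) (a (l 16788128) (l 16788224))))))))))))), by decide +kernel⟩

def k12_A00pm_213_s3 : ∃ t, chk3 f_A00pm_213_s3 t 14 1022 1 = true :=
  ⟨(l 4), by decide +kernel⟩

def k13_A00pm_213_s3 : ∃ t, chk3 f_A00pm_213_s3 t 30 1022 1 = true :=
  ⟨(a (l 4) (a (l 4) (a (b (a (b (a (l 540444687) (l 540455183)) (l 4)) (b (a (l 540465935) (l 540477199)) (a (l 540932879) (l 541211919)))) (l 4)) (b (a (b (a (l 540488719) (l 540500751)) (a (l 541491471) (l 542039823))) (b (c (l 16778048) (l 16778024)) (a (l 542051599) (b (l 16777784) (l 540456207))))) (b (a (a (l 4) (b (l 540391951) (l 4))) (a (b (l 540404751) (l 4)) (b (l 540417807) (l 540376591)))) (l 4)))))), by decide +kernel⟩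

def k14_A00pm_213_s3 : ∃ t, chk3 f_A00pm_213_s3 t 31 2044 1 = true :=
  ⟨(a (b (a (a (c (l 16778480) (l 16778432)) (l 16778984)) (l 16779696)) (a (a (a (b (l 16777992) (b (l 16777824) (l 16777720))) (l 16778152)) (l 16778528)) (l 16781824))) (c (a (b (l 16792672) (l 16791728)) (c (a (l 16784456) (a (l 16786000) (a (l 16786768) (a (l 16787160) (a (l 16787352) (l 16787256)))))) (b (a (l 16784864) (c (a (l 16786472) (a (l 16787248) (a (l 16787632) (a (l 16787832) (l 16787856))))) (a (l 16786336) (a (l 16787096) (a (l 16787472) (b (l 16787984) (l 16787280))))))) (b (b (a (l 16784104) (a (l 16785584) (a (l 16786320) (l 16794328)))) (a (l 16783800) (a (l 16785256) (l 16793848)))) (a (l 16783352) (a (l 16784760) (l 16793488))))))) (a (b (l 16792432) (a (l 16790496) (l 16781568))) (c (b (a (l 16784640) (c (a (l 16786192) (a (l 16786944) (a (l 16787320) (b (l 16787816) (l 16787128))))) (a (l 16786056) (a (l 16786792) (a (l 16787160)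 (b (l 16787648) (l 16786968))))))) (b (a (l 16783760) (a (l 16785176) (a (l 16785880) (a (l 16786232) (a (l 16786408) (l 16786472)))))) (a (l 16783176) (a (l 16784536) (a (l 16785216) (a (l 16785560) (a (l 16785728) (l 16785784)))))))) (b (a (l 16784424) (c (a (l 16785920) (a (l 16786640) (a (l 16787000) (b (l 16787488) (l 16786816))))) (a (l 16785784) (a (l 16786488) (a (l 16786840) (b (l 16787320) (l 16786656))))))) (a (l 16783288) (c (a (l 16784680) (a (l 16785352) (a (l 16785688) (a (l 16785856) (l 16785864))))) (a (l 16784560) (a (l 16785224) (a (l 16785552) (a (l 16785712) (l 16785720)))))))))))), by decide +kernel⟩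

def k15_A00pm_213_s3 : ∃ t, chk3 f_A00pm_213_s3 t 31 2045 1 = true :=
  ⟨(a (a (a (a (b (a (b (l 540431375) (l 540389903)) (b (l 16777632) (l 540403983))) (b (a (l 540613903) (l 540895759)) (l 4))) (a (b (b (l 16777760) (l 540955407)) (b (l 541446927) (a (l 540323855) (l 14)))) (l 14))) (l 14)) (l 14)) (l 14)), by decide +kernel⟩

def k16_A00pm_213_s3 : ∃ t, chk3 f_A00pm_213_s3 t 7 1023 1 = true :=
  ⟨(a (l 4) (a (l 4) (a (a (a (a (l 4) (l 4)) (l 14)) (l 14)) (l 14)))), by decide +kernel⟩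

theorem t17_A00pm_213_s3 : ∃ t, chk3 f_A00pm_213_s3 t 31 1022 1 = true := ex3_b k14_A00pm_213_s3 k15_A00pm_213_s3

theorem t18_A00pm_213_s3 : ∃ t, chk3 f_A00pm_213_s3 t 15 1022 1 = true := ex3_a k13_A00pm_213_s3 t17_A00pm_213_s3

theorem t19_A00pm_213_s3 : ∃ t, chk3 f_A00pm_213_s3 t 7 1022 1 = true := ex3_a k12_A00pm_213_s3 t18_A00pm_213_s3

theorem t20_A00pm_213_s3 : ∃ t, chk3 f_A00pm_213_s3 t 7 511 1 = true := ex3_b t19_A00pm_213_s3 k16_A00pm_213_s3

theorem t21_A00pm_213_s3 : ∃ t, chk3 f_A00pm_213_s3 t 15 510 1 = true := ex3_a k10_A00pm_213_s3 k11_A00pm_213_s3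

theorem t22_A00pm_213_s3 : ∃ t, chk3 f_A00pm_213_s3 t 7 510 1 = true := ex3_a k9_A00pm_213_s3 t21_A00pm_213_s3

theorem t23_A00pm_213_s3 : ∃ t, chk3 f_A00pm_213_s3 t 7 255 1 = true := ex3_b t22_A00pm_213_s3 t20_A00pm_213_s3

theorem t24_A00pm_213_s3 : ∃ t, chk3 f_A00pm_213_s3 t 7 127 1 = true := ex3_b k8_A00pm_213_s3 t23_A00pm_213_s3

theorem t25_A00pm_213_s3 : ∃ t, chk3 f_A00pm_213_s3 t 3 127 1 = true := ex3_a k7_A00pm_213_s3 t24_A00pm_213_s3

theorem t26_A00pm_213_s3 : ∃ t, chk3 f_A00pm_213_s3 t 3 63 1 = true := ex3_b k6_A00pm_213_s3 t25_A00pm_213_s3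

theorem t27_A00pm_213_s3 : ∃ t, chk3 f_A00pm_213_s3 t 3 31 1 = true := ex3_b k5_A00pm_213_s3 t26_A00pm_213_s3

theorem t28_A00pm_213_s3 : ∃ t, chk3 f_A00pm_213_s3 t 3 15 1 = true := ex3_b k4_A00pm_213_s3 t27_A00pm_213_s3

theorem t29_A00pm_213_s3 : ∃ t, chk3 f_A00pm_213_s3 t 1 15 1 = true := ex3_a k3_A00pm_213_s3 t28_A00pm_213_s3

theorem t30_A00pm_213_s3 : ∃ t, chk3 f_A00pm_213_s3 t 1 7 1 = true := ex3_b k2_A00pm_213_s3 t29_A00pm_213_s3

theorem t31_A00pm_213_s3 : ∃ t, chk3 f_A00pm_213_s3 t 1 3 1 = true := ex3_b k1_A00pm_213_s3 t30_A00pm_213_s3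

theorem t32_A00pm_213_s3 : ∃ t, chk3 f_A00pm_213_s3 t 1 1 1 = true := ex3_b k0_A00pm_213_s3 t31_A00pm_213_s3

theorem c_A00pm_213_s3 : CertF 0 536870912 536870912 536870912 67108864 67108864 true true false .pnn 2 1 3
    ndF0q2 ndF0q1 pcF3 cut_A00pm_213_s3 xt_A00pm_213_s3 :=
  certFK1 (fam := true) (s1 := true) (s2 := false) (a := 2) (b := 1) (c := 3) (cn := .pnn) (n1 := ndF0q2) (n2 := ndF0q1) (pc := pcF3) (cut := cut_A00pm_213_s3) (xt := xt_A00pm_213_s3) (P1 := 0) (W1 := 536870912) (P2 := 536870912) (W2 := 536870912) (P3 := 67108864) (W3 := 67108864)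
    rfl rfl rfl (fun _ => rfl) t32_A00pm_213_s3

theorem s_A00pm_213_s3 {κ x : ℝ} (hκ : κ * h0 = ken x) (hx : ((67108864 : ℕ) : ℝ) / S ≤ x)
    (hx' : x ≤ (((67108864 : ℕ) : ℝ) + (67108864 : ℕ)) / S)
    (H : CutA (VF κ) PP tKF tL pcF (Cut.of [[⟨0, 1, 0, 21338704⟩, ⟨1, 1, 0, 21338704⟩, ⟨2, 2, 0, 1685920⟩]]) 2 1 3 0 0 (sgb true) (sgb false) x) :
    AltA (VF κ) PP tKF tL pcF [⟨4, 0, 0, 2845415833⟩] 2 1 3 0 0 (sgb true) (sgb false) x :=
  strip_altA (m := 2845415833) false rfl hκ covF02 covF01 hx hx' c_A00pm_213_s3 H ((okx hx hx').extA (T := tt) (sideF hx hx') hκ rfl rfl (.O 2 true) (.O 1 false) (Or.inr rfl))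

noncomputable def cut_A00mm_001_s1 : Cut := Cut.of [[⟨4, 0, 0, 1449551462⟩]]

noncomputable def f_A00mm_001_s1 : ℕ → ℕ → ℕ → ℕ → Bool := onCell 0 536870912 0 536870912 67108864 67108864
    (rowFK 0 true false false .up 0 0 1 (qsf 0 536870912 0 536870912 1) ndF0q0 ndF0q0 pcF1 cut_A00mm_001_s1 Ext.none)

def k0_A00mm_001_s1 : ∃ t, chk3 f_A00mm_001_s1 t 1 1 1 = true :=
  ⟨(l 4), by decide +kernel⟩

theorem c_A00mm_001_s1 : CertF 0 536870912 0 536870912 67108864 67108864 true false false .up 0 0 1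
    ndF0q0 ndF0q0 pcF1 cut_A00mm_001_s1 Ext.none :=
  certFK0 (fam := true) (s1 := false) (s2 := false) (a := 0) (b := 0) (c := 1) (cn := .up) (n1 := ndF0q0) (n2 := ndF0q0) (pc := pcF1) (cut := cut_A00mm_001_s1) (xt := Ext.none) (P1 := 0) (W1 := 536870912) (P2 := 0) (W2 := 536870912) (P3 := 67108864) (W3 := 67108864)
    rfl rfl rfl k0_A00mm_001_s1

theorem s_A00mm_001_s1 {κ x : ℝ} (hκ : κ * h0 = ken x) (hx : ((67108864 : ℕ) : ℝ) / S ≤ x)
    (hx' : x ≤ (((67108864 : ℕ) : ℝ) + (67108864 : ℕ)) / S) :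
    AltA (VF κ) PP tKF tL pcF [⟨3, 0, 0, 1449551462⟩] 0 0 1 0 0 (sgb false) (sgb false) x :=
  strip_altA (m := 1449551462) true rfl hκ covF00 covF00 hx hx' c_A00mm_001_s1 cutA_nil (noExt_A)

noncomputable def cut_A00mm_001_s3 : Cut := Cut.of [[⟨3, 0, 0, 2845415833⟩]]

noncomputable def f_A00mm_001_s3 : ℕ → ℕ → ℕ → ℕ → Bool := onCell 0 536870912 0 536870912 67108864 67108864
    (rowFK 0 true false false .up 0 0 1 (qsf 0 536870912 0 536870912 1) ndF0q0 ndF0q0 pcF1 cut_A00mm_001_s3 Ext.none)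

def k0_A00mm_001_s3 : ∃ t, chk3 f_A00mm_001_s3 t 1 1 1 = true :=
  ⟨(l 4), by decide +kernel⟩

theorem c_A00mm_001_s3 : CertF 0 536870912 0 536870912 67108864 67108864 true false false .up 0 0 1
    ndF0q0 ndF0q0 pcF1 cut_A00mm_001_s3 Ext.none :=
  certFK0 (fam := true) (s1 := false) (s2 := false) (a := 0) (b := 0) (c := 1) (cn := .up) (n1 := ndF0q0) (n2 := ndF0q0) (pc := pcF1) (cut := cut_A00mm_001_s3) (xt := Ext.none) (P1 := 0) (W1 := 536870912) (P2 := 0) (W2 := 536870912) (P3 := 67108864) (W3 := 67108864)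
    rfl rfl rfl k0_A00mm_001_s3

theorem s_A00mm_001_s3 {κ x : ℝ} (hκ : κ * h0 = ken x) (hx : ((67108864 : ℕ) : ℝ) / S ≤ x)
    (hx' : x ≤ (((67108864 : ℕ) : ℝ) + (67108864 : ℕ)) / S) :
    AltA (VF κ) PP tKF tL pcF [⟨4, 0, 0, 2845415833⟩] 0 0 1 0 0 (sgb false) (sgb false) x :=
  strip_altA (m := 2845415833) false rfl hκ covF00 covF00 hx hx' c_A00mm_001_s3 cutA_nil (noExt_A)

noncomputable def cut_A00mm_011_s1 : Cut := Cut.of [[⟨4, 0, 0, 1449551462⟩]]

noncomputable def f_A00mm_011_s1 : ℕ → ℕ → ℕ → ℕ → Bool := onCell 0 536870912 536870912 536870912 67108864 67108864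
    (rowFK 0 true false false .pnn 0 1 1 (qsf 0 536870912 536870912 536870912 1) ndF0q0 ndF0q1 pcF1 cut_A00mm_011_s1 Ext.none)

def k0_A00mm_011_s1 : ∃ t, chk3 f_A00mm_011_s1 t 1 1 1 = true :=
  ⟨(l 6), by decide +kernel⟩

theorem c_A00mm_011_s1 : CertF 0 536870912 536870912 536870912 67108864 67108864 true false false .pnn 0 1 1
    ndF0q0 ndF0q1 pcF1 cut_A00mm_011_s1 Ext.none :=
  certFK0 (fam := true) (s1 := false) (s2 := false) (a := 0) (b := 1) (c := 1) (cn := .pnn) (n1 := ndF0q0) (n2 := ndF0q1) (pc := pcF1) (cut := cut_A00mm_011_s1) (xt := Ext.none) (P1 := 0) (W1 := 536870912) (P2 := 536870912) (W2 := 536870912) (P3 := 67108864) (W3 := 67108864)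
    rfl rfl rfl k0_A00mm_011_s1

theorem s_A00mm_011_s1 {κ x : ℝ} (hκ : κ * h0 = ken x) (hx : ((67108864 : ℕ) : ℝ) / S ≤ x)
    (hx' : x ≤ (((67108864 : ℕ) : ℝ) + (67108864 : ℕ)) / S) :
    AltA (VF κ) PP tKF tL pcF [⟨3, 0, 0, 1449551462⟩] 0 1 1 0 0 (sgb false) (sgb false) x :=
  strip_altA (m := 1449551462) true rfl hκ covF00 covF01 hx hx' c_A00mm_011_s1 cutA_nil (noExt_A)

noncomputable def cut_A00mm_011_s3 : Cut := Cut.of [[⟨3, 0, 0, 2845415833⟩]]

noncomputable def f_A00mm_011_s3 : ℕ → ℕ → ℕ → ℕ → Bool := onCell 0 536870912 536870912 536870912 67108864 67108864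
    (rowFK 0 true false false .pnn 0 1 1 (qsf 0 536870912 536870912 536870912 1) ndF0q0 ndF0q1 pcF1 cut_A00mm_011_s3 Ext.none)

def k0_A00mm_011_s3 : ∃ t, chk3 f_A00mm_011_s3 t 1 1 1 = true :=
  ⟨(a (l 5) (l 4)), by decide +kernel⟩

theorem c_A00mm_011_s3 : CertF 0 536870912 536870912 536870912 67108864 67108864 true false false .pnn 0 1 1
    ndF0q0 ndF0q1 pcF1 cut_A00mm_011_s3 Ext.none :=
  certFK0 (fam := true) (s1 := false) (s2 := false) (a := 0) (b := 1) (c := 1) (cn := .pnn) (n1 := ndF0q0) (n2 := ndF0q1) (pc := pcF1) (cut := cut_A00mm_011_s3) (xt := Ext.none) (P1 := 0) (W1 := 536870912) (P2 := 536870912) (W2 := 536870912) (P3 := 67108864) (W3 := 67108864)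
    rfl rfl rfl k0_A00mm_011_s3

theorem s_A00mm_011_s3 {κ x : ℝ} (hκ : κ * h0 = ken x) (hx : ((67108864 : ℕ) : ℝ) / S ≤ x)
    (hx' : x ≤ (((67108864 : ℕ) : ℝ) + (67108864 : ℕ)) / S) :
    AltA (VF κ) PP tKF tL pcF [⟨4, 0, 0, 2845415833⟩] 0 1 1 0 0 (sgb false) (sgb false) x :=
  strip_altA (m := 2845415833) false rfl hκ covF00 covF01 hx hx' c_A00mm_011_s3 cutA_nil (noExt_A)

noncomputable def cut_A00mm_012_s1 : Cut := Cut.of [[⟨4, 0, 0, 1449551462⟩]]

noncomputable def f_A00mm_012_s1 : ℕ → ℕ → ℕ → ℕ → Bool := onCell 0 536870912 536870912 536870912 67108864 67108864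
    (rowFK 0 true false false .pnp 0 1 2 (qsf 0 536870912 536870912 536870912 2) ndF0q0 ndF0q1 pcF2 cut_A00mm_012_s1 Ext.none)

def k0_A00mm_012_s1 : ∃ t, chk3 f_A00mm_012_s1 t 1 1 1 = true :=
  ⟨(l 6), by decide +kernel⟩

theorem c_A00mm_012_s1 : CertF 0 536870912 536870912 536870912 67108864 67108864 true false false .pnp 0 1 2
    ndF0q0 ndF0q1 pcF2 cut_A00mm_012_s1 Ext.none :=
  certFK0 (fam := true) (s1 := false) (s2 := false) (a := 0) (b := 1) (c := 2) (cn := .pnp) (n1 := ndF0q0) (n2 := ndF0q1) (pc := pcF2) (cut := cut_A00mm_012_s1) (xt := Ext.none) (P1 := 0) (W1 := 536870912) (P2 := 536870912) (W2 := 536870912) (P3 := 67108864) (W3 := 67108864)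
    rfl rfl rfl k0_A00mm_012_s1

theorem s_A00mm_012_s1 {κ x : ℝ} (hκ : κ * h0 = ken x) (hx : ((67108864 : ℕ) : ℝ) / S ≤ x)
    (hx' : x ≤ (((67108864 : ℕ) : ℝ) + (67108864 : ℕ)) / S) :
    AltA (VF κ) PP tKF tL pcF [⟨3, 0, 0, 1449551462⟩] 0 1 2 0 0 (sgb false) (sgb false) x :=
  strip_altA (m := 1449551462) true rfl hκ covF00 covF01 hx hx' c_A00mm_012_s1 cutA_nil (noExt_A)

noncomputable def cut_A00mm_012_s3 : Cut := Cut.of [[⟨3, 0, 0, 2845415833⟩]]

noncomputable def f_A00mm_012_s3 : ℕ → ℕ → ℕ → ℕ → Bool := onCell 0 536870912 536870912 536870912 67108864 67108864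
    (rowFK 0 true false false .pnp 0 1 2 (qsf 0 536870912 536870912 536870912 2) ndF0q0 ndF0q1 pcF2 cut_A00mm_012_s3 Ext.none)

def k0_A00mm_012_s3 : ∃ t, chk3 f_A00mm_012_s3 t 1 1 1 = true :=
  ⟨(b (l 4) (l 5)), by decide +kernel⟩

theorem c_A00mm_012_s3 : CertF 0 536870912 536870912 536870912 67108864 67108864 true false false .pnp 0 1 2
    ndF0q0 ndF0q1 pcF2 cut_A00mm_012_s3 Ext.none :=
  certFK0 (fam := true) (s1 := false) (s2 := false) (a := 0) (b := 1) (c := 2) (cn := .pnp) (n1 := ndF0q0) (n2 := ndF0q1) (pc := pcF2) (cut := cut_A00mm_012_s3) (xt := Ext.none) (P1 := 0) (W1 := 536870912) (P2 := 536870912) (W2 := 536870912) (P3 := 67108864) (W3 := 67108864)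
    rfl rfl rfl k0_A00mm_012_s3

theorem s_A00mm_012_s3 {κ x : ℝ} (hκ : κ * h0 = ken x) (hx : ((67108864 : ℕ) : ℝ) / S ≤ x)
    (hx' : x ≤ (((67108864 : ℕ) : ℝ) + (67108864 : ℕ)) / S) :
    AltA (VF κ) PP tKF tL pcF [⟨4, 0, 0, 2845415833⟩] 0 1 2 0 0 (sgb false) (sgb false) x :=
  strip_altA (m := 2845415833) false rfl hκ covF00 covF01 hx hx' c_A00mm_012_s3 cutA_nil (noExt_A)

noncomputable def cut_A00mm_022_s1 : Cut := Cut.of [[⟨4, 0, 0, 1449551462⟩]]

noncomputable def f_A00mm_022_s1 : ℕ → ℕ → ℕ → ℕ → Bool := onCell 0 536870912 0 536870912 67108864 67108864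
    (rowFK 0 true false false .pp 0 2 2 (qsf 0 536870912 0 536870912 2) ndF0q0 ndF0q2 pcF2 cut_A00mm_022_s1 Ext.none)

def k0_A00mm_022_s1 : ∃ t, chk3 f_A00mm_022_s1 t 1 1 1 = true :=
  ⟨(l 5), by decide +kernel⟩

theorem c_A00mm_022_s1 : CertF 0 536870912 0 536870912 67108864 67108864 true false false .pp 0 2 2
    ndF0q0 ndF0q2 pcF2 cut_A00mm_022_s1 Ext.none :=
  certFK0 (fam := true) (s1 := false) (s2 := false) (a := 0) (b := 2) (c := 2) (cn := .pp) (n1 := ndF0q0) (n2 := ndF0q2) (pc := pcF2) (cut := cut_A00mm_022_s1) (xt := Ext.none) (P1 := 0) (W1 := 536870912) (P2 := 0) (W2 := 536870912) (P3 := 67108864) (W3 := 67108864)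
    rfl rfl rfl k0_A00mm_022_s1

theorem s_A00mm_022_s1 {κ x : ℝ} (hκ : κ * h0 = ken x) (hx : ((67108864 : ℕ) : ℝ) / S ≤ x)
    (hx' : x ≤ (((67108864 : ℕ) : ℝ) + (67108864 : ℕ)) / S) :
    AltA (VF κ) PP tKF tL pcF [⟨3, 0, 0, 1449551462⟩] 0 2 2 0 0 (sgb false) (sgb false) x :=
  strip_altA (m := 1449551462) true rfl hκ covF00 covF02 hx hx' c_A00mm_022_s1 cutA_nil (noExt_A)

noncomputable def cut_A00mm_022_s3 : Cut := Cut.of [[⟨3, 0, 0, 2845415833⟩]]

noncomputable def f_A00mm_022_s3 : ℕ → ℕ → ℕ → ℕ → Bool := onCell 0 536870912 0 536870912 67108864 67108864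
    (rowFK 0 true false false .pp 0 2 2 (qsf 0 536870912 0 536870912 2) ndF0q0 ndF0q2 pcF2 cut_A00mm_022_s3 Ext.none)

def k0_A00mm_022_s3 : ∃ t, chk3 f_A00mm_022_s3 t 1 1 1 = true :=
  ⟨(l 5), by decide +kernel⟩

theorem c_A00mm_022_s3 : CertF 0 536870912 0 536870912 67108864 67108864 true false false .pp 0 2 2
    ndF0q0 ndF0q2 pcF2 cut_A00mm_022_s3 Ext.none :=
  certFK0 (fam := true) (s1 := false) (s2 := false) (a := 0) (b := 2) (c := 2) (cn := .pp) (n1 := ndF0q0) (n2 := ndF0q2) (pc := pcF2) (cut := cut_A00mm_022_s3) (xt := Ext.none) (P1 := 0) (W1 := 536870912) (P2 := 0) (W2 := 536870912) (P3 := 67108864) (W3 := 67108864)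
    rfl rfl rfl k0_A00mm_022_s3

theorem s_A00mm_022_s3 {κ x : ℝ} (hκ : κ * h0 = ken x) (hx : ((67108864 : ℕ) : ℝ) / S ≤ x)
    (hx' : x ≤ (((67108864 : ℕ) : ℝ) + (67108864 : ℕ)) / S) :
    AltA (VF κ) PP tKF tL pcF [⟨4, 0, 0, 2845415833⟩] 0 2 2 0 0 (sgb false) (sgb false) x :=
  strip_altA (m := 2845415833) false rfl hκ covF00 covF02 hx hx' c_A00mm_022_s3 cutA_nil (noExt_A)

noncomputable def cut_A00mm_023_s1 : Cut := Cut.of [[⟨4, 0, 0, 1449551462⟩]]

noncomputable def f_A00mm_023_s1 : ℕ → ℕ → ℕ → ℕ → Bool := onCell 0 536870912 0 536870912 67108864 67108864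
    (rowFK 0 true false false .up 0 2 3 (qsf 0 536870912 0 536870912 3) ndF0q0 ndF0q2 pcF3 cut_A00mm_023_s1 Ext.none)

def k0_A00mm_023_s1 : ∃ t, chk3 f_A00mm_023_s1 t 1 1 1 = true :=
  ⟨(l 5), by decide +kernel⟩

theorem c_A00mm_023_s1 : CertF 0 536870912 0 536870912 67108864 67108864 true false false .up 0 2 3
    ndF0q0 ndF0q2 pcF3 cut_A00mm_023_s1 Ext.none :=
  certFK0 (fam := true) (s1 := false) (s2 := false) (a := 0) (b := 2) (c := 3) (cn := .up) (n1 := ndF0q0) (n2 := ndF0q2) (pc := pcF3) (cut := cut_A00mm_023_s1) (xt := Ext.none) (P1 := 0) (W1 := 536870912) (P2 := 0) (W2 := 536870912) (P3 := 67108864) (W3 := 67108864)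
    rfl rfl rfl k0_A00mm_023_s1

theorem s_A00mm_023_s1 {κ x : ℝ} (hκ : κ * h0 = ken x) (hx : ((67108864 : ℕ) : ℝ) / S ≤ x)
    (hx' : x ≤ (((67108864 : ℕ) : ℝ) + (67108864 : ℕ)) / S) :
    AltA (VF κ) PP tKF tL pcF [⟨3, 0, 0, 1449551462⟩] 0 2 3 0 0 (sgb false) (sgb false) x :=
  strip_altA (m := 1449551462) true rfl hκ covF00 covF02 hx hx' c_A00mm_023_s1 cutA_nil (noExt_A)

noncomputable def cut_A00mm_023_s3 : Cut := Cut.of [[⟨3, 0, 0, 2845415833⟩]]

noncomputable def f_A00mm_023_s3 : ℕ → ℕ → ℕ → ℕ → Bool := onCell 0 536870912 0 536870912 67108864 67108864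
    (rowFK 0 true false false .up 0 2 3 (qsf 0 536870912 0 536870912 3) ndF0q0 ndF0q2 pcF3 cut_A00mm_023_s3 Ext.none)

def k0_A00mm_023_s3 : ∃ t, chk3 f_A00mm_023_s3 t 1 1 1 = true :=
  ⟨(l 5), by decide +kernel⟩

theorem c_A00mm_023_s3 : CertF 0 536870912 0 536870912 67108864 67108864 true false false .up 0 2 3
    ndF0q0 ndF0q2 pcF3 cut_A00mm_023_s3 Ext.none :=
  certFK0 (fam := true) (s1 := false) (s2 := false) (a := 0) (b := 2) (c := 3) (cn := .up) (n1 := ndF0q0) (n2 := ndF0q2) (pc := pcF3) (cut := cut_A00mm_023_s3) (xt := Ext.none) (P1 := 0) (W1 := 536870912) (P2 := 0) (W2 := 536870912) (P3 := 67108864) (W3 := 67108864)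
    rfl rfl rfl k0_A00mm_023_s3

theorem s_A00mm_023_s3 {κ x : ℝ} (hκ : κ * h0 = ken x) (hx : ((67108864 : ℕ) : ℝ) / S ≤ x)
    (hx' : x ≤ (((67108864 : ℕ) : ℝ) + (67108864 : ℕ)) / S) :
    AltA (VF κ) PP tKF tL pcF [⟨4, 0, 0, 2845415833⟩] 0 2 3 0 0 (sgb false) (sgb false) x :=
  strip_altA (m := 2845415833) false rfl hκ covF00 covF02 hx hx' c_A00mm_023_s3 cutA_nil (noExt_A)

noncomputable def cut_A00mm_101_s1 : Cut := Cut.of [[⟨4, 0, 0, 1449551462⟩], [⟨0, 1, 0, 67108864⟩, ⟨1, 0, 0, 67108864⟩, ⟨2, 1, 0, 67108864⟩]]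

noncomputable def f_A00mm_101_s1 : ℕ → ℕ → ℕ → ℕ → Bool := onCell 536870912 536870912 0 536870912 67108864 67108864
    (rowFK 0 true false false .npn 1 0 1 (qsf 536870912 536870912 0 536870912 1) ndF0q1 ndF0q0 pcF1 cut_A00mm_101_s1 Ext.none)

def k0_A00mm_101_s1 : ∃ t, chk3 f_A00mm_101_s1 t 1 1 1 = true :=
  ⟨(l 6), by decide +kernel⟩

theorem c_A00mm_101_s1 : CertF 536870912 536870912 0 536870912 67108864 67108864 true false false .npn 1 0 1
    ndF0q1 ndF0q0 pcF1 cut_A00mm_101_s1 Ext.none :=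
  certFK0 (fam := true) (s1 := false) (s2 := false) (a := 1) (b := 0) (c := 1) (cn := .npn) (n1 := ndF0q1) (n2 := ndF0q0) (pc := pcF1) (cut := cut_A00mm_101_s1) (xt := Ext.none) (P1 := 536870912) (W1 := 536870912) (P2 := 0) (W2 := 536870912) (P3 := 67108864) (W3 := 67108864)
    rfl rfl rfl k0_A00mm_101_s1

theorem s_A00mm_101_s1 {κ x : ℝ} (hκ : κ * h0 = ken x) (hx : ((67108864 : ℕ) : ℝ) / S ≤ x)
    (hx' : x ≤ (((67108864 : ℕ) : ℝ) + (67108864 : ℕ)) / S)
    (H : CutA (VF κ) PP tKF tL pcF (Cut.of [[⟨0, 1, 0, 67108864⟩, ⟨1, 0, 0, 67108864⟩, ⟨2, 1, 0, 67108864⟩]]) 1 0 1 0 0 (sgb false) (sgb false) x) :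
    AltA (VF κ) PP tKF tL pcF [⟨3, 0, 0, 1449551462⟩] 1 0 1 0 0 (sgb false) (sgb false) x :=
  strip_altA (m := 1449551462) true rfl hκ covF01 covF00 hx hx' c_A00mm_101_s1 H (noExt_A)

noncomputable def cut_A00mm_101_s3 : Cut := Cut.of [[⟨3, 0, 0, 2845415833⟩], [⟨0, 1, 0, 67108864⟩, ⟨1, 0, 0, 67108864⟩, ⟨2, 1, 0, 67108864⟩]]

noncomputable def f_A00mm_101_s3 : ℕ → ℕ → ℕ → ℕ → Bool := onCell 536870912 536870912 0 536870912 67108864 67108864
    (rowFK 0 true false false .npn 1 0 1 (qsf 536870912 536870912 0 536870912 1) ndF0q1 ndF0q0 pcF1 cut_A00mm_101_s3 Ext.none)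

def k0_A00mm_101_s3 : ∃ t, chk3 f_A00mm_101_s3 t 1 1 1 = true :=
  ⟨(a (l 4) (b (a (l 4) (a (l 4) (a (l 4) (b (b (b (l 14) (l 4)) (l 2)) (l 2))))) (l 4))), by decide +kernel⟩

theorem c_A00mm_101_s3 : CertF 536870912 536870912 0 536870912 67108864 67108864 true false false .npn 1 0 1
    ndF0q1 ndF0q0 pcF1 cut_A00mm_101_s3 Ext.none :=
  certFK0 (fam := true) (s1 := false) (s2 := false) (a := 1) (b := 0) (c := 1) (cn := .npn) (n1 := ndF0q1) (n2 := ndF0q0) (pc := pcF1) (cut := cut_A00mm_101_s3) (xt := Ext.none) (P1 := 536870912) (W1 := 536870912) (P2 := 0) (W2 := 536870912) (P3 := 67108864) (W3 := 67108864)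
    rfl rfl rfl k0_A00mm_101_s3

theorem s_A00mm_101_s3 {κ x : ℝ} (hκ : κ * h0 = ken x) (hx : ((67108864 : ℕ) : ℝ) / S ≤ x)
    (hx' : x ≤ (((67108864 : ℕ) : ℝ) + (67108864 : ℕ)) / S)
    (H : CutA (VF κ) PP tKF tL pcF (Cut.of [[⟨0, 1, 0, 67108864⟩, ⟨1, 0, 0, 67108864⟩, ⟨2, 1, 0, 67108864⟩]]) 1 0 1 0 0 (sgb false) (sgb false) x) :
    AltA (VF κ) PP tKF tL pcF [⟨4, 0, 0, 2845415833⟩] 1 0 1 0 0 (sgb false) (sgb false) x :=
  strip_altA (m := 2845415833) false rfl hκ covF01 covF00 hx hx' c_A00mm_101_s3 H (noExt_A)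

noncomputable def cut_A00mm_102_s1 : Cut := Cut.of [[⟨4, 0, 0, 1449551462⟩], [⟨0, 1, 0, 67108864⟩, ⟨1, 0, 0, 67108864⟩, ⟨2, 1, 0, 67108864⟩]]

noncomputable def f_A00mm_102_s1 : ℕ → ℕ → ℕ → ℕ → Bool := onCell 536870912 536870912 0 536870912 67108864 67108864
    (rowFK 0 true false false .npp 1 0 2 (qsf 536870912 536870912 0 536870912 2) ndF0q1 ndF0q0 pcF2 cut_A00mm_102_s1 Ext.none)

def k0_A00mm_102_s1 : ∃ t, chk3 f_A00mm_102_s1 t 1 1 1 = true :=
  ⟨(l 6), by decide +kernel⟩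

theorem c_A00mm_102_s1 : CertF 536870912 536870912 0 536870912 67108864 67108864 true false false .npp 1 0 2
    ndF0q1 ndF0q0 pcF2 cut_A00mm_102_s1 Ext.none :=
  certFK0 (fam := true) (s1 := false) (s2 := false) (a := 1) (b := 0) (c := 2) (cn := .npp) (n1 := ndF0q1) (n2 := ndF0q0) (pc := pcF2) (cut := cut_A00mm_102_s1) (xt := Ext.none) (P1 := 536870912) (W1 := 536870912) (P2 := 0) (W2 := 536870912) (P3 := 67108864) (W3 := 67108864)
    rfl rfl rfl k0_A00mm_102_s1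

theorem s_A00mm_102_s1 {κ x : ℝ} (hκ : κ * h0 = ken x) (hx : ((67108864 : ℕ) : ℝ) / S ≤ x)
    (hx' : x ≤ (((67108864 : ℕ) : ℝ) + (67108864 : ℕ)) / S)
    (H : CutA (VF κ) PP tKF tL pcF (Cut.of [[⟨0, 1, 0, 67108864⟩, ⟨1, 0, 0, 67108864⟩, ⟨2, 1, 0, 67108864⟩]]) 1 0 2 0 0 (sgb false) (sgb false) x) :
    AltA (VF κ) PP tKF tL pcF [⟨3, 0, 0, 1449551462⟩] 1 0 2 0 0 (sgb false) (sgb false) x :=
  strip_altA (m := 1449551462) true rfl hκ covF01 covF00 hx hx' c_A00mm_102_s1 H (noExt_A)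

noncomputable def cut_A00mm_102_s3 : Cut := Cut.of [[⟨3, 0, 0, 2845415833⟩], [⟨0, 1, 0, 67108864⟩, ⟨1, 0, 0, 67108864⟩, ⟨2, 1, 0, 67108864⟩]]

noncomputable def f_A00mm_102_s3 : ℕ → ℕ → ℕ → ℕ → Bool := onCell 536870912 536870912 0 536870912 67108864 67108864
    (rowFK 0 true false false .npp 1 0 2 (qsf 536870912 536870912 0 536870912 2) ndF0q1 ndF0q0 pcF2 cut_A00mm_102_s3 Ext.none)

def k0_A00mm_102_s3 : ∃ t, chk3 f_A00mm_102_s3 t 1 1 1 = true :=
  ⟨(b (a (l 4) (a (l 4) (b (a (l 4) (b (a (l 4) (b (l 14) (l 4))) (l 4))) (l 4)))) (l 4)), by decide +kernel⟩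

theorem c_A00mm_102_s3 : CertF 536870912 536870912 0 536870912 67108864 67108864 true false false .npp 1 0 2
    ndF0q1 ndF0q0 pcF2 cut_A00mm_102_s3 Ext.none :=
  certFK0 (fam := true) (s1 := false) (s2 := false) (a := 1) (b := 0) (c := 2) (cn := .npp) (n1 := ndF0q1) (n2 := ndF0q0) (pc := pcF2) (cut := cut_A00mm_102_s3) (xt := Ext.none) (P1 := 536870912) (W1 := 536870912) (P2 := 0) (W2 := 536870912) (P3 := 67108864) (W3 := 67108864)
    rfl rfl rfl k0_A00mm_102_s3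

theorem s_A00mm_102_s3 {κ x : ℝ} (hκ : κ * h0 = ken x) (hx : ((67108864 : ℕ) : ℝ) / S ≤ x)
    (hx' : x ≤ (((67108864 : ℕ) : ℝ) + (67108864 : ℕ)) / S)
    (H : CutA (VF κ) PP tKF tL pcF (Cut.of [[⟨0, 1, 0, 67108864⟩, ⟨1, 0, 0, 67108864⟩, ⟨2, 1, 0, 67108864⟩]]) 1 0 2 0 0 (sgb false) (sgb false) x) :
    AltA (VF κ) PP tKF tL pcF [⟨4, 0, 0, 2845415833⟩] 1 0 2 0 0 (sgb false) (sgb false) x :=
  strip_altA (m := 2845415833) false rfl hκ covF01 covF00 hx hx' c_A00mm_102_s3 H (noExt_A)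

noncomputable def cut_A00mm_112_s1 : Cut := Cut.of [[⟨4, 0, 0, 1449551462⟩]]

noncomputable def f_A00mm_112_s1 : ℕ → ℕ → ℕ → ℕ → Bool := onCell 536870912 536870912 536870912 536870912 67108864 67108864
    (rowFK 0 true false false .dn 1 1 2 (qsf 536870912 536870912 536870912 536870912 2) ndF0q1 ndF0q1 pcF2 cut_A00mm_112_s1 Ext.none)

def k0_A00mm_112_s1 : ∃ t, chk3 f_A00mm_112_s1 t 1 1 1 = true :=
  ⟨(l 4), by decide +kernel⟩

theorem c_A00mm_112_s1 : CertF 536870912 536870912 536870912 536870912 67108864 67108864 true false false .dn 1 1 2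
    ndF0q1 ndF0q1 pcF2 cut_A00mm_112_s1 Ext.none :=
  certFK0 (fam := true) (s1 := false) (s2 := false) (a := 1) (b := 1) (c := 2) (cn := .dn) (n1 := ndF0q1) (n2 := ndF0q1) (pc := pcF2) (cut := cut_A00mm_112_s1) (xt := Ext.none) (P1 := 536870912) (W1 := 536870912) (P2 := 536870912) (W2 := 536870912) (P3 := 67108864) (W3 := 67108864)
    rfl rfl rfl k0_A00mm_112_s1

theorem s_A00mm_112_s1 {κ x : ℝ} (hκ : κ * h0 = ken x) (hx : ((67108864 : ℕ) : ℝ) / S ≤ x)
    (hx' : x ≤ (((67108864 : ℕ) : ℝ) + (67108864 : ℕ)) / S) :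
    AltA (VF κ) PP tKF tL pcF [⟨3, 0, 0, 1449551462⟩] 1 1 2 0 0 (sgb false) (sgb false) x :=
  strip_altA (m := 1449551462) true rfl hκ covF01 covF01 hx hx' c_A00mm_112_s1 cutA_nil (noExt_A)

noncomputable def cut_A00mm_112_s3 : Cut := Cut.of [[⟨3, 0, 0, 2845415833⟩]]

noncomputable def f_A00mm_112_s3 : ℕ → ℕ → ℕ → ℕ → Bool := onCell 536870912 536870912 536870912 536870912 67108864 67108864
    (rowFK 0 true false false .dn 1 1 2 (qsf 536870912 536870912 536870912 536870912 2) ndF0q1 ndF0q1 pcF2 cut_A00mm_112_s3 Ext.none)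

def k0_A00mm_112_s3 : ∃ t, chk3 f_A00mm_112_s3 t 1 1 1 = true :=
  ⟨(l 4), by decide +kernel⟩

theorem c_A00mm_112_s3 : CertF 536870912 536870912 536870912 536870912 67108864 67108864 true false false .dn 1 1 2
    ndF0q1 ndF0q1 pcF2 cut_A00mm_112_s3 Ext.none :=
  certFK0 (fam := true) (s1 := false) (s2 := false) (a := 1) (b := 1) (c := 2) (cn := .dn) (n1 := ndF0q1) (n2 := ndF0q1) (pc := pcF2) (cut := cut_A00mm_112_s3) (xt := Ext.none) (P1 := 536870912) (W1 := 536870912) (P2 := 536870912) (W2 := 536870912) (P3 := 67108864) (W3 := 67108864)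
    rfl rfl rfl k0_A00mm_112_s3

theorem s_A00mm_112_s3 {κ x : ℝ} (hκ : κ * h0 = ken x) (hx : ((67108864 : ℕ) : ℝ) / S ≤ x)
    (hx' : x ≤ (((67108864 : ℕ) : ℝ) + (67108864 : ℕ)) / S) :
    AltA (VF κ) PP tKF tL pcF [⟨4, 0, 0, 2845415833⟩] 1 1 2 0 0 (sgb false) (sgb false) x :=
  strip_altA (m := 2845415833) false rfl hκ covF01 covF01 hx hx' c_A00mm_112_s3 cutA_nil (noExt_A)

noncomputable def cut_A00mm_113_s1 : Cut := Cut.of [[⟨4, 0, 0, 1449551462⟩]]

noncomputable def f_A00mm_113_s1 : ℕ → ℕ → ℕ → ℕ → Bool := onCell 536870912 536870912 536870912 536870912 67108864 67108864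
    (rowFK 0 true false false .nn 1 1 3 (qsf 536870912 536870912 536870912 536870912 3) ndF0q1 ndF0q1 pcF3 cut_A00mm_113_s1 Ext.none)

def k0_A00mm_113_s1 : ∃ t, chk3 f_A00mm_113_s1 t 1 1 1 = true :=
  ⟨(l 4), by decide +kernel⟩

theorem c_A00mm_113_s1 : CertF 536870912 536870912 536870912 536870912 67108864 67108864 true false false .nn 1 1 3
    ndF0q1 ndF0q1 pcF3 cut_A00mm_113_s1 Ext.none :=
  certFK0 (fam := true) (s1 := false) (s2 := false) (a := 1) (b := 1) (c := 3) (cn := .nn) (n1 := ndF0q1) (n2 := ndF0q1) (pc := pcF3) (cut := cut_A00mm_113_s1) (xt := Ext.none) (P1 := 536870912) (W1 := 536870912) (P2 := 536870912) (W2 := 536870912) (P3 := 67108864) (W3 := 67108864)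
    rfl rfl rfl k0_A00mm_113_s1

theorem s_A00mm_113_s1 {κ x : ℝ} (hκ : κ * h0 = ken x) (hx : ((67108864 : ℕ) : ℝ) / S ≤ x)
    (hx' : x ≤ (((67108864 : ℕ) : ℝ) + (67108864 : ℕ)) / S) :
    AltA (VF κ) PP tKF tL pcF [⟨3, 0, 0, 1449551462⟩] 1 1 3 0 0 (sgb false) (sgb false) x :=
  strip_altA (m := 1449551462) true rfl hκ covF01 covF01 hx hx' c_A00mm_113_s1 cutA_nil (noExt_A)

noncomputable def cut_A00mm_113_s3 : Cut := Cut.of [[⟨3, 0, 0, 2845415833⟩]]

noncomputable def f_A00mm_113_s3 : ℕ → ℕ → ℕ → ℕ → Bool := onCell 536870912 536870912 536870912 536870912 67108864 67108864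
    (rowFK 0 true false false .nn 1 1 3 (qsf 536870912 536870912 536870912 536870912 3) ndF0q1 ndF0q1 pcF3 cut_A00mm_113_s3 Ext.none)

def k0_A00mm_113_s3 : ∃ t, chk3 f_A00mm_113_s3 t 1 1 1 = true :=
  ⟨(l 4), by decide +kernel⟩

theorem c_A00mm_113_s3 : CertF 536870912 536870912 536870912 536870912 67108864 67108864 true false false .nn 1 1 3
    ndF0q1 ndF0q1 pcF3 cut_A00mm_113_s3 Ext.none :=
  certFK0 (fam := true) (s1 := false) (s2 := false) (a := 1) (b := 1) (c := 3) (cn := .nn) (n1 := ndF0q1) (n2 := ndF0q1) (pc := pcF3) (cut := cut_A00mm_113_s3) (xt := Ext.none) (P1 := 536870912) (W1 := 536870912) (P2 := 536870912) (W2 := 536870912) (P3 := 67108864) (W3 := 67108864)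
    rfl rfl rfl k0_A00mm_113_s3

theorem s_A00mm_113_s3 {κ x : ℝ} (hκ : κ * h0 = ken x) (hx : ((67108864 : ℕ) : ℝ) / S ≤ x)
    (hx' : x ≤ (((67108864 : ℕ) : ℝ) + (67108864 : ℕ)) / S) :
    AltA (VF κ) PP tKF tL pcF [⟨4, 0, 0, 2845415833⟩] 1 1 3 0 0 (sgb false) (sgb false) x :=
  strip_altA (m := 2845415833) false rfl hκ covF01 covF01 hx hx' c_A00mm_113_s3 cutA_nil (noExt_A)

noncomputable def cut_A00mm_123_s1 : Cut := Cut.of [[⟨4, 0, 0, 1449551462⟩]]

noncomputable def f_A00mm_123_s1 : ℕ → ℕ → ℕ → ℕ → Bool := onCell 536870912 536870912 0 536870912 67108864 67108864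
    (rowFK 0 true false false .npn 1 2 3 (qsf 536870912 536870912 0 536870912 3) ndF0q1 ndF0q2 pcF3 cut_A00mm_123_s1 Ext.none)

def k0_A00mm_123_s1 : ∃ t, chk3 f_A00mm_123_s1 t 1 1 1 = true :=
  ⟨(l 6), by decide +kernel⟩

theorem c_A00mm_123_s1 : CertF 536870912 536870912 0 536870912 67108864 67108864 true false false .npn 1 2 3
    ndF0q1 ndF0q2 pcF3 cut_A00mm_123_s1 Ext.none :=
  certFK0 (fam := true) (s1 := false) (s2 := false) (a := 1) (b := 2) (c := 3) (cn := .npn) (n1 := ndF0q1) (n2 := ndF0q2) (pc := pcF3) (cut := cut_A00mm_123_s1) (xt := Ext.none) (P1 := 536870912) (W1 := 536870912) (P2 := 0) (W2 := 536870912) (P3 := 67108864) (W3 := 67108864)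
    rfl rfl rfl k0_A00mm_123_s1

theorem s_A00mm_123_s1 {κ x : ℝ} (hκ : κ * h0 = ken x) (hx : ((67108864 : ℕ) : ℝ) / S ≤ x)
    (hx' : x ≤ (((67108864 : ℕ) : ℝ) + (67108864 : ℕ)) / S) :
    AltA (VF κ) PP tKF tL pcF [⟨3, 0, 0, 1449551462⟩] 1 2 3 0 0 (sgb false) (sgb false) x :=
  strip_altA (m := 1449551462) true rfl hκ covF01 covF02 hx hx' c_A00mm_123_s1 cutA_nil (noExt_A)

noncomputable def cut_A00mm_123_s3 : Cut := Cut.of [[⟨3, 0, 0, 2845415833⟩]]

noncomputable def f_A00mm_123_s3 : ℕ → ℕ → ℕ → ℕ → Bool := onCell 536870912 536870912 0 536870912 67108864 67108864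
    (rowFK 0 true false false .npn 1 2 3 (qsf 536870912 536870912 0 536870912 3) ndF0q1 ndF0q2 pcF3 cut_A00mm_123_s3 Ext.none)

def k0_A00mm_123_s3 : ∃ t, chk3 f_A00mm_123_s3 t 1 1 1 = true :=
  ⟨(a (l 5) (l 4)), by decide +kernel⟩

theorem c_A00mm_123_s3 : CertF 536870912 536870912 0 536870912 67108864 67108864 true false false .npn 1 2 3
    ndF0q1 ndF0q2 pcF3 cut_A00mm_123_s3 Ext.none :=
  certFK0 (fam := true) (s1 := false) (s2 := false) (a := 1) (b := 2) (c := 3) (cn := .npn) (n1 := ndF0q1) (n2 := ndF0q2) (pc := pcF3) (cut := cut_A00mm_123_s3) (xt := Ext.none) (P1 := 536870912) (W1 := 536870912) (P2 := 0) (W2 := 536870912) (P3 := 67108864) (W3 := 67108864)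
    rfl rfl rfl k0_A00mm_123_s3

theorem s_A00mm_123_s3 {κ x : ℝ} (hκ : κ * h0 = ken x) (hx : ((67108864 : ℕ) : ℝ) / S ≤ x)
    (hx' : x ≤ (((67108864 : ℕ) : ℝ) + (67108864 : ℕ)) / S) :
    AltA (VF κ) PP tKF tL pcF [⟨4, 0, 0, 2845415833⟩] 1 2 3 0 0 (sgb false) (sgb false) x :=
  strip_altA (m := 2845415833) false rfl hκ covF01 covF02 hx hx' c_A00mm_123_s3 cutA_nil (noExt_A)

noncomputable def cut_A00mm_202_s1 : Cut := Cut.of [[⟨4, 0, 0, 1449551462⟩], [⟨0, 1, 0, 25165824⟩, ⟨1, 0, 0, 25165824⟩, ⟨2, 1, 0, 25165824⟩]]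

noncomputable def f_A00mm_202_s1 : ℕ → ℕ → ℕ → ℕ → Bool := onCell 0 536870912 0 536870912 67108864 67108864
    (rowFK 0 true false false .pp 2 0 2 (qsf 0 536870912 0 536870912 2) ndF0q2 ndF0q0 pcF2 cut_A00mm_202_s1 Ext.none)

def k0_A00mm_202_s1 : ∃ t, chk3 f_A00mm_202_s1 t 1 1 1 = true :=
  ⟨(l 6), by decide +kernel⟩

theorem c_A00mm_202_s1 : CertF 0 536870912 0 536870912 67108864 67108864 true false false .pp 2 0 2
    ndF0q2 ndF0q0 pcF2 cut_A00mm_202_s1 Ext.none :=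
  certFK0 (fam := true) (s1 := false) (s2 := false) (a := 2) (b := 0) (c := 2) (cn := .pp) (n1 := ndF0q2) (n2 := ndF0q0) (pc := pcF2) (cut := cut_A00mm_202_s1) (xt := Ext.none) (P1 := 0) (W1 := 536870912) (P2 := 0) (W2 := 536870912) (P3 := 67108864) (W3 := 67108864)
    rfl rfl rfl k0_A00mm_202_s1

theorem s_A00mm_202_s1 {κ x : ℝ} (hκ : κ * h0 = ken x) (hx : ((67108864 : ℕ) : ℝ) / S ≤ x)
    (hx' : x ≤ (((67108864 : ℕ) : ℝ) + (67108864 : ℕ)) / S)
    (H : CutA (VF κ) PP tKF tL pcF (Cut.of [[⟨0, 1, 0, 25165824⟩, ⟨1, 0, 0, 25165824⟩, ⟨2, 1, 0, 25165824⟩]]) 2 0 2 0 0 (sgb false) (sgb false) x) :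
    AltA (VF κ) PP tKF tL pcF [⟨3, 0, 0, 1449551462⟩] 2 0 2 0 0 (sgb false) (sgb false) x :=
  strip_altA (m := 1449551462) true rfl hκ covF02 covF00 hx hx' c_A00mm_202_s1 H (noExt_A)

noncomputable def cut_A00mm_202_s3 : Cut := Cut.of [[⟨3, 0, 0, 2845415833⟩], [⟨0, 1, 0, 25165824⟩, ⟨1, 0, 0, 25165824⟩, ⟨2, 1, 0, 25165824⟩]]

noncomputable def xt_A00mm_202_s3 : Ext := strExt dd true false false .u2 .u0m .s2m .pp 2 0 2 rfl rfl gl2 vv ndF0q2 ndF0q0

noncomputable def f_A00mm_202_s3 : ℕ → ℕ → ℕ → ℕ → Bool := onCell 0 536870912 0 536870912 67108864 67108864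
    (rowFK 0 true false false .pp 2 0 2 (qsf 0 536870912 0 536870912 2) ndF0q2 ndF0q0 pcF2 cut_A00mm_202_s3 xt_A00mm_202_s3)

def k0_A00mm_202_s3 : ∃ t, chk3 f_A00mm_202_s3 t 2 2 1 = true :=
  ⟨(b (a (l 6) (a (l 6) (b (l 6) (b (c (l 17864176) (l 17469944)) (l 17582280))))) (a (b (l 6) (a (l 6) (l 17447744))) (b (a (l 17543472) (b (l 17451136) (l 17324808))) (a (b (l 17368440) (l 17260960)) (a (l 547786511) (l 548386063)))))), by decide +kernel⟩

def k1_A00mm_202_s3 : ∃ t, chk3 f_A00mm_202_s3 t 6 4 1 = true :=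
  ⟨(b (a (a (b (l 6) (b (l 6) (l 17634360))) (a (b (l 6) (b (l 17290496) (l 17540872))) (b (b (b (l 6) (c (l 17702416) (l 16764168))) (c (l 17748992) (b (l 16940808) (l 17065528)))) (b (l 17125200) (l 17387120))))) (c (a (b (b (c (b (a (l 17755936) (l 17158144)) (l 17576080)) (b (a (l 16830568) (l 16737304)) (a (l 17321904) (l 17066800)))) (b (a (l 17626880) (l 17412176)) (l 17429128))) (b (a (l 17650808) (l 17554920)) (l 17562552))) (a (b (b (b (b (l 16867864) (l 16996832)) (l 16887904)) (b (l 17177064) (l 17412064))) (b (l 17364632) (l 17428416))) (b (b (b (l 16740816) (l 16790536)) (b (l 16917816) (l 17183456))) (b (b (l 17318144) (l 17337448)) (l 17328768))))) (b (a (b (b (a (l 16727864) (l 16729336)) (l 16732456)) (b (l 16736144) (l 16733912))) (b (a (b (l 16731240) (l 16735144)) (b (l 16733608) (l 16737504))) (a (b (l 16738840) (l 16742336)) (b (l 16741184) (l 16744656))))) (a (b (b (l 16828400) (l 16991256)) (a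 (l 17185704) (l 17105384))) (b (a (l 16750728) (l 16746328)) (b (l 16758816) (l 16746208))))))) (b (a (a (l 17483080) (b (l 17474768) (l 17424392))) (a (b (l 17001440) (l 17209856)) (a (b (l 17137616) (l 17185032)) (b (l 16970952) (l 17023440))))) (a (a (l 17442936) (l 17248192)) (a (b (l 17236944) (l 17173696)) (a (b (l 17131376) (l 17069496)) (b (l 16971944) (l 16910880))))))), by decide +kernel⟩

def k2_A00mm_202_s3 : ∃ t, chk3 f_A00mm_202_s3 t 14 16 1 = true :=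
  ⟨(a (b (a (b (b (l 16738760) (l 16740680)) (b (l 16742552) (l 16744360))) (b (b (a (l 16740976) (l 16742632)) (l 16743680)) (b (l 16745520) (l 16747304)))) (a (b (l 16746960) (l 16750256)) (b (b (l 16749032) (l 16750704)) (b (l 16752320) (l 16753880))))) (a (a (b (b (b (l 16744432) (l 16746296)) (b (l 16748112) (l 16749864))) (b (l 16752376) (l 16755552))) (b (b (b (c (l 16748712) (l 16744048)) (l 16748232)) (b (l 16750024) (l 16751752))) (b (b (l 16753432) (l 16755048)) (l 16757360)))) (b (a (b (b (b (l 16748040) (l 16748968)) (c (l 16752368) (l 16748264))) (b (l 16752088) (l 16753800))) (b (b (b (c (l 16752248) (l 16748400)) (l 16751240)) (b (l 16752144) (l 16753024))) (b (c (l 16756072) (l 16752552)) (c (l 16757680) (l 16754312))))) (a (b (b (l 16755448) (l 16757040)) (b (l 16758584) (l 16760064))) (b (b (l 16757624) (l 16759192)) (b (l 16760704) (l 16762152))))))), by decide +kernel⟩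

def k3_A00mm_202_s3 : ∃ t, chk3 f_A00mm_202_s3 t 60 16 1 = true :=
  ⟨(b (a (a (b (b (b (l 16752160) (l 16753064)) (c (l 16756048) (l 16752712))) (b (l 16756104) (l 16757768))) (b (b (b (l 16753432) (l 16754328)) (b (l 16755216) (l 16756080))) (b (l 16754728) (l 16758992)))) (a (b (b (b (l 16752136) (l 16755648)) (b (l 16756520) (l 16757376))) (b (b (l 16758224) (l 16759056)) (l 16760264))) (b (b (b (c (l 16757552) (l 16754688)) (l 16757008)) (b (l 16757872) (l 16758728))) (b (b (l 16759560) (l 16760384)) (c (l 16762760) (l 16760400)))))) (a (b (a (b (l 16759368) (l 16760912)) (b (l 16760584) (l 16762112))) (a (b (l 16762400) (l 16763832)) (b (l 16763576) (l 16764992)))) (a (b (b (l 16761840) (l 16763352)) (b (l 16764800) (l 16766200))) (b (b (c (l 16764232) (l 16762040)) (l 16764632)) (b (l 16766072) (l 16767448)))))), by decide +kernel⟩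

def k4_A00mm_202_s3 : ∃ t, chk3 f_A00mm_202_s3 t 61 16 1 = true :=
  ⟨(b (a (b (a (b (b (b (l 16757328) (l 16757768)) (c (l 16759696) (l 16757128))) (b (l 16759272) (l 16760120))) (a (b (b (l 16758640) (l 16759504)) (b (l 16760360) (l 16761192))) (b (b (c (l 16760560) (l 16758200)) (l 16760248)) (b (l 16761096) (l 16761928))))) (a (b (b (l 16760944) (l 16761760)) (b (l 16762560) (l 16763344))) (b (b (l 16762376) (l 16763184)) (b (l 16763968) (l 16764744))))) (a (a (b (b (b (b (l 16759928) (l 16760360)) (l 16761000)) (b (l 16761840) (l 16762672))) (b (b (l 16763488) (l 16764280)) (b (l 16765064) (l 16765832)))) (b (b (b (b (l 16760696) (l 16761128)) (b (l 16761552) (l 16761976))) (b (l 16762608) (l 16763432))) (b (b (l 16764240) (l 16765032)) (b (l 16765808) (l 16766576))))) (b (a (b (b (b (l 14) (l 16761912)) (b (l 16762336) (l 16762752))) (b (c (l 16764304) (l 16762448)) (l 16764200))) (b (b (l 14) (b (l 16763128) (l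 16763544))) (b (c (l 16765032) (l 16763296)) (c (l 16765808) (l 16764152))))) (a (b (b (l 16765000) (l 16765792)) (b (l 16766568) (l 16767328))) (b (b (l 16765784) (l 16766568)) (b (l 16767336) (l 16768088))))))) (a (a (b (b (c (l 16765456) (l 16763504)) (c (l 16766856) (l 16765064))) (b (c (l 16768184) (l 16766576)) (c (l 16769456) (l 16768024)))) (b (b (b (l 16765504) (l 16766248)) (b (l 16766984) (l 16767696))) (b (b (l 16768400) (l 16769080)) (b (l 16769752) (l 16770408))))) (a (a (b (b (l 535620111) (l 535649039)) (b (l 535677967) (l 535706639))) (b (b (l 535610127) (l 535639055)) (b (l 535667983) (l 535696911)))) (b (b (a (l 535868431) (b (l 16768824) (l 16769552))) (a (l 535629071) (l 535619087))) (b (a (l 535658255) (l 535648271)) (a (l 535687183) (l 535677455))))))), by decide +kernel⟩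

def k5_A00mm_202_s3 : ∃ t, chk3 f_A00mm_202_s3 t 62 32 1 = true :=
  ⟨(a (b (b (b (l 14) (b (l 14) (a (a (l 16764352) (l 14)) (l 14)))) (a (a (b (b (l 16764760) (l 16765168)) (c (l 16766544) (l 16765000))) (b (b (l 16765576) (l 16765984)) (b (l 16766384) (l 16766784)))) (a (b (l 14) (b (l 16767208) (l 16767608))) (b (l 14) (b (l 14) (l 16768440)))))) (a (a (b (b (c (l 16767296) (l 16765840)) (l 16767352)) (b (l 16768112) (l 16768864))) (b (b (c (l 16768040) (l 16766704)) (c (l 16768776) (l 16767520))) (b (c (l 16769488) (l 16768328)) (l 535949327)))) (a (b (b (b (l 16768000) (l 16768384)) (b (l 16768768) (l 16769152))) (b (c (l 16770240) (l 16769192)) (c (l 16770936) (l 16769976)))) (b (b (b (l 16768824) (l 16769216)) (b (l 16769600) (l 16769976))) (b (b (l 16770352) (l 16770720)) (b (l 16771088) (l 16771456))))))) (a (b (l 14) (a (a (b (b (b (l 16769456) (l 16769848)) (l 535490319)) (b (l 535505423) (l 535520271))) (b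 (b (b (l 14) (l 16770272)) (l 535753487)) (b (l 535500047) (l 535514895)))) (a (b (b (b (l 14) (l 16770696)) (b (l 16771072) (l 16771448))) (b (l 535494671) (l 535509519))) (b (b (l 14) (b (l 16771504) (l 16771880))) (b (b (l 16772248) (l 16772608)) (l 535772687)))))) (b (l 14) (a (b (a (b (l 14) (b (l 14) (l 16772312))) (b (l 14) (a (l 535465743) (l 535463183)))) (a (b (b (l 16772680) (l 16773040)) (b (l 16773400) (l 535502607))) (b (a (l 535480847) (l 535478287)) (a (l 535496207) (l 535493391))))) (a (a (b (l 14) (b (l 535475471) (l 535490831))) (b (l 14) (b (l 535472911) (l 535488015)))) (a (b (l 14) (b (l 535470095) (l 535485455))) (b (l 14) (b (l 535467535) (l 535482639))))))))), by decide +kernel⟩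

def k6_A00mm_202_s3 : ∃ t, chk3 f_A00mm_202_s3 t 63 32 1 = true :=
  ⟨(b (l 14) (a (a (a (b (l 14) (b (a (a (l 535464719) (l 535461903)) (l 14)) (a (a (l 535479823) (l 535477263)) (a (l 535474447) (l 535471631))))) (a (a (b (l 14) (b (l 14) (l 535737359))) (b (l 14) (b (l 14) (a (l 535467535) (l 535466255))))) (b (l 14) (c (b (l 14) (a (l 535826959) (l 535958543))) (b (l 14) (c (b (l 14) (c (a (l 535443471) (l 535440655)) (a (l 535395343) (l 535392527)))) (b (l 14) (c (a (l 535347471) (l 535344655)) (a (l 535299343) (l 535296271)))))))))) (l 14)) (l 14))), by decide +kernel⟩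

def k7_A00mm_202_s3 : ∃ t, chk3 f_A00mm_202_s3 t 62 33 1 = true :=
  ⟨(a (a (a (b (b (b (l 16769600) (l 16770320)) (l 535877135)) (b (l 535638031) (l 535667471))) (b (b (b (l 535830031) (l 535576335)) (a (l 535603215) (l 535598351))) (b (l 535896335) (l 535657231)))) (a (b (a (b (l 535563535) (l 535593231)) (b (l 535558415) (l 535588111))) (b (a (l 535622927) (l 535617807)) (l 536183823))) (a (b (b (l 535553039) (l 535582991)) (b (l 535612687) (l 535642383))) (b (b (b (l 535540495) (l 535555599)) (l 535577871)) (b (l 535607567) (l 535637519)))))) (a (a (a (b (b (b (l 535535375) (l 535550223)) (l 535572495)) (b (l 535602447) (l 535632399))) (b (b (b (l 535529999) (l 535545103)) (l 535835663)) (b (l 535597327) (l 535627279)))) (a (b (b (b (l 535524623) (l 535539727)) (b (l 535554575) (l 535569679))) (b (l 535592207) (l 535622159))) (b (b (b (l 535519247) (l 535534351)) (b (l 535549455) (l 535564559))) (b (l 535855375) (l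 4))))) (a (b (b (a (b (l 535782159) (l 535528975)) (b (a (l 535511311) (l 535508495)) (l 535791887))) (a (b (l 535544079) (l 535559183)) (b (l 535806991) (l 535553807)))) (b (a (l 535849999) (a (l 535579151) (l 535576591))) (l 4))) (a (b (b (b (a (l 535505935) (l 535503119)) (a (l 535521039) (l 535518479))) (b (l 535801615) (l 535816719))) (l 4)) (a (b (b (b (l 535500559) (l 535515663)) (l 535538447)) (l 4)) (b (b (b (l 535497743) (l 535513103)) (l 535804175)) (l 4))))))), by decide +kernel⟩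

def k8_A00mm_202_s3 : ∃ t, chk3 f_A00mm_202_s3 t 63 33 1 = true :=
  ⟨(b (a (a (a (a (a (b (b (l 535495183) (l 535510287)) (l 535734287)) (b (b (l 535492367) (l 535507727)) (b (l 535522831) (l 4)))) (a (b (b (l 535489807) (l 535504911)) (l 4)) (b (b (l 535486991) (l 535502351)) (l 4)))) (a (a (b (b (l 535484175) (l 535499535)) (l 4)) (b (b (l 535749903) (l 4)) (l 4))) (b (c (b (a (l 535574287) (l 535840015)) (l 4)) (b (c (b (a (l 535426831) (l 535424271)) (a (l 535434511) (l 4))) (b (c (a (l 535354639) (l 535351823)) (a (l 535306511) (l 535303695))) (c (a (l 535362063) (l 4)) (a (l 535313679) (l 4))))) (l 4))) (l 4)))) (l 4)) (l 4)) (l 4)), by decide +kernel⟩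

def k9_A00mm_202_s3 : ∃ t, chk3 f_A00mm_202_s3 t 7 17 1 = true :=
  ⟨(a (a (b (a (b (l 16779024) (l 16790928)) (b (l 16756104) (l 16753928))) (b (a (l 16847264) (l 16784736)) (a (l 16876184) (l 16781896)))) (a (b (b (a (l 16758504) (l 16760264)) (a (l 16761248) (l 16762952))) (a (b (l 16835552) (l 16798472)) (b (l 16789528) (l 16799192)))) (a (b (b (b (l 16761488) (l 16762856)) (l 16767416)) (b (l 16769832) (l 539774735))) (b (b (b (l 16763552) (l 16764888)) (b (l 16766176) (l 16767400))) (b (l 535973391) (l 536829711)))))) (b (a (a (a (a (b (l 535849231) (l 535902991)) (b (l 535832079) (l 535886095))) (a (b (b (l 16767536) (l 16768816)) (l 535869199)) (b (b (l 16768768) (l 16770032)) (b (l 16771240) (l 535865871))))) (a (a (b (b (c (l 16770672) (l 16769416)) (c (l 16771824) (l 16770752))) (b (l 535820303) (l 535848207))) (b (b (b (l 16771056) (l 16771680)) (a (l 16772264) (l 535773199))) (b (a (l 535810575) (l 535801615))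 (l 535829775)))) (a (b (a (b (l 535735311) (l 535763983)) (b (l 535725839) (l 535754767))) (b (a (l 535792655) (b (l 535776271) (l 535790607))) (a (l 535821071) (l 535812111)))) (b (a (b (l 535716367) (l 535745295)) (b (l 535706639) (l 535735567))) (a (b (l 536042511) (l 535802895)) (b (l 536033295) (l 535793679))))))) (a (a (b (a (a (b (l 535696655) (l 535726095)) (b (l 535686671) (l 535716111))) (a (b (l 535944975) (l 535706127)) (b (l 536471567) (l 4)))) (a (b (a (l 535755279) (l 4)) (l 4)) (l 4))) (l 4)) (l 4))) (a (a (a (a (l 535981583) (l 536233999)) (b (a (l 535923471) (l 535906831)) (a (l 535977487) (l 535961359)))) (a (a (b (l 535889423) (l 535944719)) (b (l 536140047) (l 535927567))) (a (b (a (l 535863311) (l 535854607)) (l 4)) (l 4)))) (l 4)))), by decide +kernel⟩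

def k10_A00mm_202_s3 : ∃ t, chk3 f_A00mm_202_s3 t 7 9 1 = true :=
  ⟨(b (a (a (c (a (b (l 17179560) (l 17110128)) (b (l 556269327) (l 557315599))) (a (b (l 16758856) (l 16859528)) (b (b (l 16841992) (l 16868360)) (l 545803023)))) (a (a (b (c (l 555791887) (l 539902479)) (l 550931215)) (b (c (l 555300111) (l 538075151)) (l 549018639))) (c (b (a (l 554610447) (b (l 552509711) (l 554640655))) (a (l 557022223) (l 556697615))) (a (b (l 536026895) (l 542226703)) (b (l 536802831) (l 539864847)))))) (b (a (a (a (a (l 540680463) (l 539408143)) (a (l 538250255) (l 536650511))) (l 4)) (l 4)) (b (a (a (a (c (l 555493135) (l 536968207)) (l 4)) (l 4)) (l 4)) (l 4)))) (a (a (a (b (l 552933135) (a (l 16852624) (l 553398031))) (a (l 553244687) (l 553238799))) (a (a (l 552914703) (a (l 553094159) (l 553017615))) (a (b (l 552091407) (l 4)) (l 4)))) (l 4))), by decide +kernel⟩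

def k11_A00mm_202_s3 : ∃ t, chk3 f_A00mm_202_s3 t 3 5 1 = true :=
  ⟨(a (a (b (b (a (l 17310424) (l 17116160)) (a (l 17182176) (l 550633487))) (a (l 549049615) (l 549785103))) (b (a (b (b (l 17024192) (l 16958552)) (b (c (l 16877312) (l 549798671)) (l 551356175))) (a (b (b (l 17004400) (l 16855056)) (c (l 554119439) (l 550225935))) (b (b (l 553109775) (l 552987407)) (b (l 552774927) (c (l 554501391) (l 550511631)))))) (a (l 550603023) (a (l 551253519) (l 4))))) (b (a (b (a (a (c (l 556400655) (b (l 550354703) (l 550684943))) (b (l 553815823) (c (l 556865039) (l 550827023)))) (l 4)) (a (a (c (l 555419663) (l 550843407)) (l 4)) (l 4))) (l 4)) (l 4))), by decide +kernel⟩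

def k12_A00mm_202_s3 : ∃ t, chk3 f_A00mm_202_s3 t 1 3 1 = true :=
  ⟨(b (a (a (b (a (l 17366984) (l 17167920)) (a (l 17195200) (l 544806159))) (b (a (l 546244367) (b (l 547401487) (l 546969615))) (a (l 545527311) (l 546345231)))) (a (a (b (a (l 548028431) (l 548670991)) (l 4)) (l 4)) (l 4))) (a (a (l 2) (a (l 2) (b (l 545530383) (l 2)))) (l 4))), by decide +kernel⟩

theorem t13_A00mm_202_s3 : ∃ t, chk3 f_A00mm_202_s3 t 31 33 1 = true := ex3_a k7_A00mm_202_s3 k8_A00mm_202_s3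

theorem t14_A00mm_202_s3 : ∃ t, chk3 f_A00mm_202_s3 t 31 32 1 = true := ex3_a k5_A00mm_202_s3 k6_A00mm_202_s3

theorem t15_A00mm_202_s3 : ∃ t, chk3 f_A00mm_202_s3 t 31 16 1 = true := ex3_b t14_A00mm_202_s3 t13_A00mm_202_s3

theorem t16_A00mm_202_s3 : ∃ t, chk3 f_A00mm_202_s3 t 30 16 1 = true := ex3_a k3_A00mm_202_s3 k4_A00mm_202_s3

theorem t17_A00mm_202_s3 : ∃ t, chk3 f_A00mm_202_s3 t 15 16 1 = true := ex3_a t16_A00mm_202_s3 t15_A00mm_202_s3

theorem t18_A00mm_202_s3 : ∃ t, chk3 f_A00mm_202_s3 t 7 16 1 = true := ex3_a k2_A00mm_202_s3 t17_A00mm_202_s3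

theorem t19_A00mm_202_s3 : ∃ t, chk3 f_A00mm_202_s3 t 7 8 1 = true := ex3_b t18_A00mm_202_s3 k9_A00mm_202_s3

theorem t20_A00mm_202_s3 : ∃ t, chk3 f_A00mm_202_s3 t 7 4 1 = true := ex3_b t19_A00mm_202_s3 k10_A00mm_202_s3

theorem t21_A00mm_202_s3 : ∃ t, chk3 f_A00mm_202_s3 t 3 4 1 = true := ex3_a k1_A00mm_202_s3 t20_A00mm_202_s3

theorem t22_A00mm_202_s3 : ∃ t, chk3 f_A00mm_202_s3 t 3 2 1 = true := ex3_b t21_A00mm_202_s3 k11_A00mm_202_s3

theorem t23_A00mm_202_s3 : ∃ t, chk3 f_A00mm_202_s3 t 1 2 1 = true := ex3_a k0_A00mm_202_s3 t22_A00mm_202_s3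

theorem t24_A00mm_202_s3 : ∃ t, chk3 f_A00mm_202_s3 t 1 1 1 = true := ex3_b t23_A00mm_202_s3 k12_A00mm_202_s3

theorem c_A00mm_202_s3 : CertF 0 536870912 0 536870912 67108864 67108864 true false false .pp 2 0 2
    ndF0q2 ndF0q0 pcF2 cut_A00mm_202_s3 xt_A00mm_202_s3 :=
  certFK0 (fam := true) (s1 := false) (s2 := false) (a := 2) (b := 0) (c := 2) (cn := .pp) (n1 := ndF0q2) (n2 := ndF0q0) (pc := pcF2) (cut := cut_A00mm_202_s3) (xt := xt_A00mm_202_s3) (P1 := 0) (W1 := 536870912) (P2 := 0) (W2 := 536870912) (P3 := 67108864) (W3 := 67108864)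
    rfl rfl rfl t24_A00mm_202_s3

theorem s_A00mm_202_s3 {κ x : ℝ} (hκ : κ * h0 = ken x) (hx : ((67108864 : ℕ) : ℝ) / S ≤ x)
    (hx' : x ≤ (((67108864 : ℕ) : ℝ) + (67108864 : ℕ)) / S)
    (H : CutA (VF κ) PP tKF tL pcF (Cut.of [[⟨0, 1, 0, 25165824⟩, ⟨1, 0, 0, 25165824⟩, ⟨2, 1, 0, 25165824⟩]]) 2 0 2 0 0 (sgb false) (sgb false) x) :
    AltA (VF κ) PP tKF tL pcF [⟨4, 0, 0, 2845415833⟩] 2 0 2 0 0 (sgb false) (sgb false) x :=
  strip_altA (m := 2845415833) false rfl hκ covF02 covF00 hx hx' c_A00mm_202_s3 H ((okx hx hx').extA (T := tt) (sideF hx hx') hκ rfl rfl (.O 2 false) (.O 0 false) (Or.inl rfl))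

noncomputable def cut_A00mm_203_s1 : Cut := Cut.of [[⟨4, 0, 0, 1449551462⟩]]

noncomputable def f_A00mm_203_s1 : ℕ → ℕ → ℕ → ℕ → Bool := onCell 0 536870912 0 536870912 67108864 67108864
    (rowFK 0 true false false .up 2 0 3 (qsf 0 536870912 0 536870912 3) ndF0q2 ndF0q0 pcF3 cut_A00mm_203_s1 Ext.none)

def k0_A00mm_203_s1 : ∃ t, chk3 f_A00mm_203_s1 t 1 1 1 = true :=
  ⟨(l 6), by decide +kernel⟩

theorem c_A00mm_203_s1 : CertF 0 536870912 0 536870912 67108864 67108864 true false false .up 2 0 3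
    ndF0q2 ndF0q0 pcF3 cut_A00mm_203_s1 Ext.none :=
  certFK0 (fam := true) (s1 := false) (s2 := false) (a := 2) (b := 0) (c := 3) (cn := .up) (n1 := ndF0q2) (n2 := ndF0q0) (pc := pcF3) (cut := cut_A00mm_203_s1) (xt := Ext.none) (P1 := 0) (W1 := 536870912) (P2 := 0) (W2 := 536870912) (P3 := 67108864) (W3 := 67108864)
    rfl rfl rfl k0_A00mm_203_s1

theorem s_A00mm_203_s1 {κ x : ℝ} (hκ : κ * h0 = ken x) (hx : ((67108864 : ℕ) : ℝ) / S ≤ x)
    (hx' : x ≤ (((67108864 : ℕ) : ℝ) + (67108864 : ℕ)) / S) :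
    AltA (VF κ) PP tKF tL pcF [⟨3, 0, 0, 1449551462⟩] 2 0 3 0 0 (sgb false) (sgb false) x :=
  strip_altA (m := 1449551462) true rfl hκ covF02 covF00 hx hx' c_A00mm_203_s1 cutA_nil (noExt_A)

noncomputable def cut_A00mm_203_s3 : Cut := Cut.of [[⟨3, 0, 0, 2845415833⟩]]

noncomputable def xt_A00mm_203_s3 : Ext := strExt dd true false false .u2 .u0m .s2m .up 2 0 3 rfl rfl gl3 vv ndF0q2 ndF0q0

noncomputable def f_A00mm_203_s3 : ℕ → ℕ → ℕ → ℕ → Bool := onCell 0 536870912 0 536870912 67108864 67108864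
    (rowFK 0 true false false .up 2 0 3 (qsf 0 536870912 0 536870912 3) ndF0q2 ndF0q0 pcF3 cut_A00mm_203_s3 xt_A00mm_203_s3)

def k0_A00mm_203_s3 : ∃ t, chk3 f_A00mm_203_s3 t 1 1 1 = true :=
  ⟨(b (l 1) (a (a (b (b (l 1) (a (l 17400752) (l 549863439))) (b (a (b (l 17246336) (l 17060240)) (l 549553423)) (a (b (l 547027983) (l 546724879)) (l 547345167)))) (b (b (l 1) (a (l 548941071) (l 549798671))) (b (a (l 548583439) (l 549362703)) (a (l 549662991) (l 4))))) (b (a (l 1) (l 1)) (l 4)))), by decide +kernel⟩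

theorem c_A00mm_203_s3 : CertF 0 536870912 0 536870912 67108864 67108864 true false false .up 2 0 3
    ndF0q2 ndF0q0 pcF3 cut_A00mm_203_s3 xt_A00mm_203_s3 :=
  certFK0 (fam := true) (s1 := false) (s2 := false) (a := 2) (b := 0) (c := 3) (cn := .up) (n1 := ndF0q2) (n2 := ndF0q0) (pc := pcF3) (cut := cut_A00mm_203_s3) (xt := xt_A00mm_203_s3) (P1 := 0) (W1 := 536870912) (P2 := 0) (W2 := 536870912) (P3 := 67108864) (W3 := 67108864)
    rfl rfl rfl k0_A00mm_203_s3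

theorem s_A00mm_203_s3 {κ x : ℝ} (hκ : κ * h0 = ken x) (hx : ((67108864 : ℕ) : ℝ) / S ≤ x)
    (hx' : x ≤ (((67108864 : ℕ) : ℝ) + (67108864 : ℕ)) / S) :
    AltA (VF κ) PP tKF tL pcF [⟨4, 0, 0, 2845415833⟩] 2 0 3 0 0 (sgb false) (sgb false) x :=
  strip_altA (m := 2845415833) false rfl hκ covF02 covF00 hx hx' c_A00mm_203_s3 cutA_nil ((okx hx hx').extA (T := tt) (sideF hx hx') hκ rfl rfl (.O 2 false) (.O 0 false) (Or.inr rfl))

noncomputable def cut_A00mm_213_s1 : Cut := Cut.of [[⟨4, 0, 0, 1449551462⟩]]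

noncomputable def f_A00mm_213_s1 : ℕ → ℕ → ℕ → ℕ → Bool := onCell 0 536870912 536870912 536870912 67108864 67108864
    (rowFK 0 true false false .pnn 2 1 3 (qsf 0 536870912 536870912 536870912 3) ndF0q2 ndF0q1 pcF3 cut_A00mm_213_s1 Ext.none)

def k0_A00mm_213_s1 : ∃ t, chk3 f_A00mm_213_s1 t 1 1 1 = true :=
  ⟨(l 6), by decide +kernel⟩

theorem c_A00mm_213_s1 : CertF 0 536870912 536870912 536870912 67108864 67108864 true false false .pnn 2 1 3
    ndF0q2 ndF0q1 pcF3 cut_A00mm_213_s1 Ext.none :=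
  certFK0 (fam := true) (s1 := false) (s2 := false) (a := 2) (b := 1) (c := 3) (cn := .pnn) (n1 := ndF0q2) (n2 := ndF0q1) (pc := pcF3) (cut := cut_A00mm_213_s1) (xt := Ext.none) (P1 := 0) (W1 := 536870912) (P2 := 536870912) (W2 := 536870912) (P3 := 67108864) (W3 := 67108864)
    rfl rfl rfl k0_A00mm_213_s1

theorem s_A00mm_213_s1 {κ x : ℝ} (hκ : κ * h0 = ken x) (hx : ((67108864 : ℕ) : ℝ) / S ≤ x)
    (hx' : x ≤ (((67108864 : ℕ) : ℝ) + (67108864 : ℕ)) / S) :
    AltA (VF κ) PP tKF tL pcF [⟨3, 0, 0, 1449551462⟩] 2 1 3 0 0 (sgb false) (sgb false) x :=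
  strip_altA (m := 1449551462) true rfl hκ covF02 covF01 hx hx' c_A00mm_213_s1 cutA_nil (noExt_A)

noncomputable def cut_A00mm_213_s3 : Cut := Cut.of [[⟨3, 0, 0, 2845415833⟩]]

noncomputable def xt_A00mm_213_s3 : Ext := strExt dd true false false .u2 .u0m .s2m .pnn 2 1 3 rfl rfl gl3 vv ndF0q2 ndF0q1

noncomputable def f_A00mm_213_s3 : ℕ → ℕ → ℕ → ℕ → Bool := onCell 0 536870912 536870912 536870912 67108864 67108864
    (rowFK 0 true false false .pnn 2 1 3 (qsf 0 536870912 536870912 536870912 3) ndF0q2 ndF0q1 pcF3 cut_A00mm_213_s3 xt_A00mm_213_s3)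

def k0_A00mm_213_s3 : ∃ t, chk3 f_A00mm_213_s3 t 1 1 1 = true :=
  ⟨(a (b (b (a (b (a (l 547056143) (b (l 546821647) (l 4))) (a (l 545664271) (l 4))) (l 4)) (l 4)) (l 4)) (l 4)), by decide +kernel⟩

theorem c_A00mm_213_s3 : CertF 0 536870912 536870912 536870912 67108864 67108864 true false false .pnn 2 1 3
    ndF0q2 ndF0q1 pcF3 cut_A00mm_213_s3 xt_A00mm_213_s3 :=
  certFK0 (fam := true) (s1 := false) (s2 := false) (a := 2) (b := 1) (c := 3) (cn := .pnn) (n1 := ndF0q2) (n2 := ndF0q1) (pc := pcF3) (cut := cut_A00mm_213_s3) (xt := xt_A00mm_213_s3) (P1 := 0) (W1 := 536870912) (P2 := 536870912) (W2 := 536870912) (P3 := 67108864) (W3 := 67108864)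
    rfl rfl rfl k0_A00mm_213_s3

theorem s_A00mm_213_s3 {κ x : ℝ} (hκ : κ * h0 = ken x) (hx : ((67108864 : ℕ) : ℝ) / S ≤ x)
    (hx' : x ≤ (((67108864 : ℕ) : ℝ) + (67108864 : ℕ)) / S) :
    AltA (VF κ) PP tKF tL pcF [⟨4, 0, 0, 2845415833⟩] 2 1 3 0 0 (sgb false) (sgb false) x :=
  strip_altA (m := 2845415833) false rfl hκ covF02 covF01 hx hx' c_A00mm_213_s3 cutA_nil ((okx hx hx').extA (T := tt) (sideF hx hx') hκ rfl rfl (.O 2 false) (.O 1 false) (Or.inr rfl))

noncomputable def cut_A04pp_001_s1 : Cut := Cut.of [[⟨4, 0, 0, 1449551462⟩]]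

noncomputable def f_A04pp_001_s1 : ℕ → ℕ → ℕ → ℕ → Bool := onCell 0 536870912 0 536870912 67108864 67108864
    (rowFK 0 true true true .up 0 0 1 (qsf 0 536870912 0 536870912 1) ndF0q0 ndF4q0 pcF1 cut_A04pp_001_s1 Ext.none)

def k0_A04pp_001_s1 : ∃ t, chk3 f_A04pp_001_s1 t 1 1 1 = true :=
  ⟨(l 4), by decide +kernel⟩

theorem c_A04pp_001_s1 : CertF 0 536870912 0 536870912 67108864 67108864 true true true .up 0 0 1
    ndF0q0 ndF4q0 pcF1 cut_A04pp_001_s1 Ext.none :=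
  certFK0 (fam := true) (s1 := true) (s2 := true) (a := 0) (b := 0) (c := 1) (cn := .up) (n1 := ndF0q0) (n2 := ndF4q0) (pc := pcF1) (cut := cut_A04pp_001_s1) (xt := Ext.none) (P1 := 0) (W1 := 536870912) (P2 := 0) (W2 := 536870912) (P3 := 67108864) (W3 := 67108864)
    rfl rfl rfl k0_A04pp_001_s1

theorem s_A04pp_001_s1 {κ x : ℝ} (hκ : κ * h0 = ken x) (hx : ((67108864 : ℕ) : ℝ) / S ≤ x)
    (hx' : x ≤ (((67108864 : ℕ) : ℝ) + (67108864 : ℕ)) / S) :
    AltA (VF κ) PP tKF tL pcF [⟨3, 0, 0, 1449551462⟩] 0 0 1 0 4 (sgb true) (sgb true) x :=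
  strip_altA (m := 1449551462) true rfl hκ covF00 covF40 hx hx' c_A04pp_001_s1 cutA_nil (noExt_A)

noncomputable def cut_A04pp_011_s1 : Cut := Cut.of [[⟨4, 0, 0, 1449551462⟩]]

noncomputable def f_A04pp_011_s1 : ℕ → ℕ → ℕ → ℕ → Bool := onCell 0 536870912 536870912 536870912 67108864 67108864
    (rowFK 0 true true true .pnn 0 1 1 (qsf 0 536870912 536870912 536870912 1) ndF0q0 ndF4q1 pcF1 cut_A04pp_011_s1 Ext.none)

def k0_A04pp_011_s1 : ∃ t, chk3 f_A04pp_011_s1 t 1 1 1 = true :=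
  ⟨(l 4), by decide +kernel⟩

theorem c_A04pp_011_s1 : CertF 0 536870912 536870912 536870912 67108864 67108864 true true true .pnn 0 1 1
    ndF0q0 ndF4q1 pcF1 cut_A04pp_011_s1 Ext.none :=
  certFK0 (fam := true) (s1 := true) (s2 := true) (a := 0) (b := 1) (c := 1) (cn := .pnn) (n1 := ndF0q0) (n2 := ndF4q1) (pc := pcF1) (cut := cut_A04pp_011_s1) (xt := Ext.none) (P1 := 0) (W1 := 536870912) (P2 := 536870912) (W2 := 536870912) (P3 := 67108864) (W3 := 67108864)
    rfl rfl rfl k0_A04pp_011_s1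

theorem s_A04pp_011_s1 {κ x : ℝ} (hκ : κ * h0 = ken x) (hx : ((67108864 : ℕ) : ℝ) / S ≤ x)
    (hx' : x ≤ (((67108864 : ℕ) : ℝ) + (67108864 : ℕ)) / S) :
    AltA (VF κ) PP tKF tL pcF [⟨3, 0, 0, 1449551462⟩] 0 1 1 0 4 (sgb true) (sgb true) x :=
  strip_altA (m := 1449551462) true rfl hκ covF00 covF41 hx hx' c_A04pp_011_s1 cutA_nil (noExt_A)

noncomputable def cut_A04pp_012_s1 : Cut := Cut.of [[⟨4, 0, 0, 1449551462⟩]]

noncomputable def f_A04pp_012_s1 : ℕ → ℕ → ℕ → ℕ → Bool := onCell 0 536870912 536870912 536870912 67108864 67108864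
    (rowFK 0 true true true .pnp 0 1 2 (qsf 0 536870912 536870912 536870912 2) ndF0q0 ndF4q1 pcF2 cut_A04pp_012_s1 Ext.none)

def k0_A04pp_012_s1 : ∃ t, chk3 f_A04pp_012_s1 t 1 1 1 = true :=
  ⟨(l 4), by decide +kernel⟩

theorem c_A04pp_012_s1 : CertF 0 536870912 536870912 536870912 67108864 67108864 true true true .pnp 0 1 2
    ndF0q0 ndF4q1 pcF2 cut_A04pp_012_s1 Ext.none :=
  certFK0 (fam := true) (s1 := true) (s2 := true) (a := 0) (b := 1) (c := 2) (cn := .pnp) (n1 := ndF0q0) (n2 := ndF4q1) (pc := pcF2) (cut := cut_A04pp_012_s1) (xt := Ext.none) (P1 := 0) (W1 := 536870912) (P2 := 536870912) (W2 := 536870912) (P3 := 67108864) (W3 := 67108864)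
    rfl rfl rfl k0_A04pp_012_s1

theorem s_A04pp_012_s1 {κ x : ℝ} (hκ : κ * h0 = ken x) (hx : ((67108864 : ℕ) : ℝ) / S ≤ x)
    (hx' : x ≤ (((67108864 : ℕ) : ℝ) + (67108864 : ℕ)) / S) :
    AltA (VF κ) PP tKF tL pcF [⟨3, 0, 0, 1449551462⟩] 0 1 2 0 4 (sgb true) (sgb true) x :=
  strip_altA (m := 1449551462) true rfl hκ covF00 covF41 hx hx' c_A04pp_012_s1 cutA_nil (noExt_A)

noncomputable def cut_A04pp_022_s1 : Cut := Cut.of [[⟨4, 0, 0, 1449551462⟩]]

noncomputable def f_A04pp_022_s1 : ℕ → ℕ → ℕ → ℕ → Bool := onCell 0 536870912 1073741824 536870912 67108864 67108864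
    (rowFK 0 true true true .pp 0 2 2 (qsf 0 536870912 1073741824 536870912 2) ndF0q0 ndF4q2 pcF2 cut_A04pp_022_s1 Ext.none)

def k0_A04pp_022_s1 : ∃ t, chk3 f_A04pp_022_s1 t 1 1 1 = true :=
  ⟨(l 4), by decide +kernel⟩

theorem c_A04pp_022_s1 : CertF 0 536870912 1073741824 536870912 67108864 67108864 true true true .pp 0 2 2
    ndF0q0 ndF4q2 pcF2 cut_A04pp_022_s1 Ext.none :=
  certFK0 (fam := true) (s1 := true) (s2 := true) (a := 0) (b := 2) (c := 2) (cn := .pp) (n1 := ndF0q0) (n2 := ndF4q2) (pc := pcF2) (cut := cut_A04pp_022_s1) (xt := Ext.none) (P1 := 0) (W1 := 536870912) (P2 := 1073741824) (W2 := 536870912) (P3 := 67108864) (W3 := 67108864)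
    rfl rfl rfl k0_A04pp_022_s1

theorem s_A04pp_022_s1 {κ x : ℝ} (hκ : κ * h0 = ken x) (hx : ((67108864 : ℕ) : ℝ) / S ≤ x)
    (hx' : x ≤ (((67108864 : ℕ) : ℝ) + (67108864 : ℕ)) / S) :
    AltA (VF κ) PP tKF tL pcF [⟨3, 0, 0, 1449551462⟩] 0 2 2 0 4 (sgb true) (sgb true) x :=
  strip_altA (m := 1449551462) true rfl hκ covF00 covF42 hx hx' c_A04pp_022_s1 cutA_nil (noExt_A)

noncomputable def cut_A04pp_023_s1 : Cut := Cut.of [[⟨4, 0, 0, 1449551462⟩]]

noncomputable def f_A04pp_023_s1 : ℕ → ℕ → ℕ → ℕ → Bool := onCell 0 536870912 1073741824 536870912 67108864 67108864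
    (rowFK 0 true true true .up 0 2 3 (qsf 0 536870912 1073741824 536870912 3) ndF0q0 ndF4q2 pcF3 cut_A04pp_023_s1 Ext.none)

def k0_A04pp_023_s1 : ∃ t, chk3 f_A04pp_023_s1 t 1 1 1 = true :=
  ⟨(l 4), by decide +kernel⟩

theorem c_A04pp_023_s1 : CertF 0 536870912 1073741824 536870912 67108864 67108864 true true true .up 0 2 3
    ndF0q0 ndF4q2 pcF3 cut_A04pp_023_s1 Ext.none :=
  certFK0 (fam := true) (s1 := true) (s2 := true) (a := 0) (b := 2) (c := 3) (cn := .up) (n1 := ndF0q0) (n2 := ndF4q2) (pc := pcF3) (cut := cut_A04pp_023_s1) (xt := Ext.none) (P1 := 0) (W1 := 536870912) (P2 := 1073741824) (W2 := 536870912) (P3 := 67108864) (W3 := 67108864)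
    rfl rfl rfl k0_A04pp_023_s1

theorem s_A04pp_023_s1 {κ x : ℝ} (hκ : κ * h0 = ken x) (hx : ((67108864 : ℕ) : ℝ) / S ≤ x)
    (hx' : x ≤ (((67108864 : ℕ) : ℝ) + (67108864 : ℕ)) / S) :
    AltA (VF κ) PP tKF tL pcF [⟨3, 0, 0, 1449551462⟩] 0 2 3 0 4 (sgb true) (sgb true) x :=
  strip_altA (m := 1449551462) true rfl hκ covF00 covF42 hx hx' c_A04pp_023_s1 cutA_nil (noExt_A)

noncomputable def cut_A04pp_033_s1 : Cut := Cut.of [[⟨4, 0, 0, 1449551462⟩]]

noncomputable def f_A04pp_033_s1 : ℕ → ℕ → ℕ → ℕ → Bool := onCell 0 536870912 0 1230186008 67108864 67108864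
    (rowFK 0 true true true .pnn 0 3 3 (qsf 0 536870912 0 1230186008 3) ndF0q0 ndF4q3 pcF3 cut_A04pp_033_s1 Ext.none)

def k0_A04pp_033_s1 : ∃ t, chk3 f_A04pp_033_s1 t 1 1 1 = true :=
  ⟨(l 4), by decide +kernel⟩

theorem c_A04pp_033_s1 : CertF 0 536870912 0 1230186008 67108864 67108864 true true true .pnn 0 3 3
    ndF0q0 ndF4q3 pcF3 cut_A04pp_033_s1 Ext.none :=
  certFK0 (fam := true) (s1 := true) (s2 := true) (a := 0) (b := 3) (c := 3) (cn := .pnn) (n1 := ndF0q0) (n2 := ndF4q3) (pc := pcF3) (cut := cut_A04pp_033_s1) (xt := Ext.none) (P1 := 0) (W1 := 536870912) (P2 := 0) (W2 := 1230186008) (P3 := 67108864) (W3 := 67108864)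
    rfl rfl rfl k0_A04pp_033_s1

theorem s_A04pp_033_s1 {κ x : ℝ} (hκ : κ * h0 = ken x) (hx : ((67108864 : ℕ) : ℝ) / S ≤ x)
    (hx' : x ≤ (((67108864 : ℕ) : ℝ) + (67108864 : ℕ)) / S) :
    AltA (VF κ) PP tKF tL pcF [⟨3, 0, 0, 1449551462⟩] 0 3 3 0 4 (sgb true) (sgb true) x :=
  strip_altA (m := 1449551462) true rfl hκ covF00 covF43 hx hx' c_A04pp_033_s1 cutA_nil (noExt_A)

noncomputable def cut_A04pp_101_s1 : Cut := Cut.of [[⟨4, 0, 0, 1449551462⟩]]

noncomputable def f_A04pp_101_s1 : ℕ → ℕ → ℕ → ℕ → Bool := onCell 536870912 536870912 0 536870912 67108864 67108864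
    (rowFK 0 true true true .npn 1 0 1 (qsf 536870912 536870912 0 536870912 1) ndF0q1 ndF4q0 pcF1 cut_A04pp_101_s1 Ext.none)

def k0_A04pp_101_s1 : ∃ t, chk3 f_A04pp_101_s1 t 1 1 1 = true :=
  ⟨(l 4), by decide +kernel⟩

theorem c_A04pp_101_s1 : CertF 536870912 536870912 0 536870912 67108864 67108864 true true true .npn 1 0 1
    ndF0q1 ndF4q0 pcF1 cut_A04pp_101_s1 Ext.none :=
  certFK0 (fam := true) (s1 := true) (s2 := true) (a := 1) (b := 0) (c := 1) (cn := .npn) (n1 := ndF0q1) (n2 := ndF4q0) (pc := pcF1) (cut := cut_A04pp_101_s1) (xt := Ext.none) (P1 := 536870912) (W1 := 536870912) (P2 := 0) (W2 := 536870912) (P3 := 67108864) (W3 := 67108864)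
    rfl rfl rfl k0_A04pp_101_s1

theorem s_A04pp_101_s1 {κ x : ℝ} (hκ : κ * h0 = ken x) (hx : ((67108864 : ℕ) : ℝ) / S ≤ x)
    (hx' : x ≤ (((67108864 : ℕ) : ℝ) + (67108864 : ℕ)) / S) :
    AltA (VF κ) PP tKF tL pcF [⟨3, 0, 0, 1449551462⟩] 1 0 1 0 4 (sgb true) (sgb true) x :=
  strip_altA (m := 1449551462) true rfl hκ covF01 covF40 hx hx' c_A04pp_101_s1 cutA_nil (noExt_A)

noncomputable def cut_A04pp_102_s1 : Cut := Cut.of [[⟨4, 0, 0, 1449551462⟩]]

noncomputable def f_A04pp_102_s1 : ℕ → ℕ → ℕ → ℕ → Bool := onCell 536870912 536870912 0 536870912 67108864 67108864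
    (rowFK 0 true true true .npp 1 0 2 (qsf 536870912 536870912 0 536870912 2) ndF0q1 ndF4q0 pcF2 cut_A04pp_102_s1 Ext.none)

def k0_A04pp_102_s1 : ∃ t, chk3 f_A04pp_102_s1 t 1 1 1 = true :=
  ⟨(l 4), by decide +kernel⟩

theorem c_A04pp_102_s1 : CertF 536870912 536870912 0 536870912 67108864 67108864 true true true .npp 1 0 2
    ndF0q1 ndF4q0 pcF2 cut_A04pp_102_s1 Ext.none :=
  certFK0 (fam := true) (s1 := true) (s2 := true) (a := 1) (b := 0) (c := 2) (cn := .npp) (n1 := ndF0q1) (n2 := ndF4q0) (pc := pcF2) (cut := cut_A04pp_102_s1) (xt := Ext.none) (P1 := 536870912) (W1 := 536870912) (P2 := 0) (W2 := 536870912) (P3 := 67108864) (W3 := 67108864)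
    rfl rfl rfl k0_A04pp_102_s1

theorem s_A04pp_102_s1 {κ x : ℝ} (hκ : κ * h0 = ken x) (hx : ((67108864 : ℕ) : ℝ) / S ≤ x)
    (hx' : x ≤ (((67108864 : ℕ) : ℝ) + (67108864 : ℕ)) / S) :
    AltA (VF κ) PP tKF tL pcF [⟨3, 0, 0, 1449551462⟩] 1 0 2 0 4 (sgb true) (sgb true) x :=
  strip_altA (m := 1449551462) true rfl hκ covF01 covF40 hx hx' c_A04pp_102_s1 cutA_nil (noExt_A)

noncomputable def cut_A04pp_112_s1 : Cut := Cut.of [[⟨4, 0, 0, 1449551462⟩]]

noncomputable def f_A04pp_112_s1 : ℕ → ℕ → ℕ → ℕ → Bool := onCell 536870912 536870912 536870912 536870912 67108864 67108864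
    (rowFK 0 true true true .dn 1 1 2 (qsf 536870912 536870912 536870912 536870912 2) ndF0q1 ndF4q1 pcF2 cut_A04pp_112_s1 Ext.none)

def k0_A04pp_112_s1 : ∃ t, chk3 f_A04pp_112_s1 t 1 1 1 = true :=
  ⟨(l 4), by decide +kernel⟩

theorem c_A04pp_112_s1 : CertF 536870912 536870912 536870912 536870912 67108864 67108864 true true true .dn 1 1 2
    ndF0q1 ndF4q1 pcF2 cut_A04pp_112_s1 Ext.none :=
  certFK0 (fam := true) (s1 := true) (s2 := true) (a := 1) (b := 1) (c := 2) (cn := .dn) (n1 := ndF0q1) (n2 := ndF4q1) (pc := pcF2) (cut := cut_A04pp_112_s1) (xt := Ext.none) (P1 := 536870912) (W1 := 536870912) (P2 := 536870912) (W2 := 536870912) (P3 := 67108864) (W3 := 67108864)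
    rfl rfl rfl k0_A04pp_112_s1

theorem s_A04pp_112_s1 {κ x : ℝ} (hκ : κ * h0 = ken x) (hx : ((67108864 : ℕ) : ℝ) / S ≤ x)
    (hx' : x ≤ (((67108864 : ℕ) : ℝ) + (67108864 : ℕ)) / S) :
    AltA (VF κ) PP tKF tL pcF [⟨3, 0, 0, 1449551462⟩] 1 1 2 0 4 (sgb true) (sgb true) x :=
  strip_altA (m := 1449551462) true rfl hκ covF01 covF41 hx hx' c_A04pp_112_s1 cutA_nil (noExt_A)

noncomputable def cut_A04pp_113_s1 : Cut := Cut.of [[⟨4, 0, 0, 1449551462⟩]]

noncomputable def f_A04pp_113_s1 : ℕ → ℕ → ℕ → ℕ → Bool := onCell 536870912 536870912 536870912 536870912 67108864 67108864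
    (rowFK 0 true true true .nn 1 1 3 (qsf 536870912 536870912 536870912 536870912 3) ndF0q1 ndF4q1 pcF3 cut_A04pp_113_s1 Ext.none)

def k0_A04pp_113_s1 : ∃ t, chk3 f_A04pp_113_s1 t 1 1 1 = true :=
  ⟨(l 4), by decide +kernel⟩

theorem c_A04pp_113_s1 : CertF 536870912 536870912 536870912 536870912 67108864 67108864 true true true .nn 1 1 3
    ndF0q1 ndF4q1 pcF3 cut_A04pp_113_s1 Ext.none :=
  certFK0 (fam := true) (s1 := true) (s2 := true) (a := 1) (b := 1) (c := 3) (cn := .nn) (n1 := ndF0q1) (n2 := ndF4q1) (pc := pcF3) (cut := cut_A04pp_113_s1) (xt := Ext.none) (P1 := 536870912) (W1 := 536870912) (P2 := 536870912) (W2 := 536870912) (P3 := 67108864) (W3 := 67108864)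
    rfl rfl rfl k0_A04pp_113_s1

theorem s_A04pp_113_s1 {κ x : ℝ} (hκ : κ * h0 = ken x) (hx : ((67108864 : ℕ) : ℝ) / S ≤ x)
    (hx' : x ≤ (((67108864 : ℕ) : ℝ) + (67108864 : ℕ)) / S) :
    AltA (VF κ) PP tKF tL pcF [⟨3, 0, 0, 1449551462⟩] 1 1 3 0 4 (sgb true) (sgb true) x :=
  strip_altA (m := 1449551462) true rfl hκ covF01 covF41 hx hx' c_A04pp_113_s1 cutA_nil (noExt_A)

noncomputable def cut_A04pp_123_s1 : Cut := Cut.of [[⟨4, 0, 0, 1449551462⟩]]

noncomputable def f_A04pp_123_s1 : ℕ → ℕ → ℕ → ℕ → Bool := onCell 536870912 536870912 1073741824 536870912 67108864 67108864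
    (rowFK 0 true true true .npn 1 2 3 (qsf 536870912 536870912 1073741824 536870912 3) ndF0q1 ndF4q2 pcF3 cut_A04pp_123_s1 Ext.none)

def k0_A04pp_123_s1 : ∃ t, chk3 f_A04pp_123_s1 t 1 1 1 = true :=
  ⟨(l 4), by decide +kernel⟩

theorem c_A04pp_123_s1 : CertF 536870912 536870912 1073741824 536870912 67108864 67108864 true true true .npn 1 2 3
    ndF0q1 ndF4q2 pcF3 cut_A04pp_123_s1 Ext.none :=
  certFK0 (fam := true) (s1 := true) (s2 := true) (a := 1) (b := 2) (c := 3) (cn := .npn) (n1 := ndF0q1) (n2 := ndF4q2) (pc := pcF3) (cut := cut_A04pp_123_s1) (xt := Ext.none) (P1 := 536870912) (W1 := 536870912) (P2 := 1073741824) (W2 := 536870912) (P3 := 67108864) (W3 := 67108864)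
    rfl rfl rfl k0_A04pp_123_s1

theorem s_A04pp_123_s1 {κ x : ℝ} (hκ : κ * h0 = ken x) (hx : ((67108864 : ℕ) : ℝ) / S ≤ x)
    (hx' : x ≤ (((67108864 : ℕ) : ℝ) + (67108864 : ℕ)) / S) :
    AltA (VF κ) PP tKF tL pcF [⟨3, 0, 0, 1449551462⟩] 1 2 3 0 4 (sgb true) (sgb true) x :=
  strip_altA (m := 1449551462) true rfl hκ covF01 covF42 hx hx' c_A04pp_123_s1 cutA_nil (noExt_A)

noncomputable def cut_A04pp_133_s1 : Cut := Cut.of [[⟨4, 0, 0, 1449551462⟩]]

noncomputable def f_A04pp_133_s1 : ℕ → ℕ → ℕ → ℕ → Bool := onCell 536870912 536870912 0 1230186008 67108864 67108864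
    (rowFK 0 true true true .dn 1 3 3 (qsf 536870912 536870912 0 1230186008 3) ndF0q1 ndF4q3 pcF3 cut_A04pp_133_s1 Ext.none)

def k0_A04pp_133_s1 : ∃ t, chk3 f_A04pp_133_s1 t 1 1 1 = true :=
  ⟨(l 4), by decide +kernel⟩

theorem c_A04pp_133_s1 : CertF 536870912 536870912 0 1230186008 67108864 67108864 true true true .dn 1 3 3
    ndF0q1 ndF4q3 pcF3 cut_A04pp_133_s1 Ext.none :=
  certFK0 (fam := true) (s1 := true) (s2 := true) (a := 1) (b := 3) (c := 3) (cn := .dn) (n1 := ndF0q1) (n2 := ndF4q3) (pc := pcF3) (cut := cut_A04pp_133_s1) (xt := Ext.none) (P1 := 536870912) (W1 := 536870912) (P2 := 0) (W2 := 1230186008) (P3 := 67108864) (W3 := 67108864)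
    rfl rfl rfl k0_A04pp_133_s1

theorem s_A04pp_133_s1 {κ x : ℝ} (hκ : κ * h0 = ken x) (hx : ((67108864 : ℕ) : ℝ) / S ≤ x)
    (hx' : x ≤ (((67108864 : ℕ) : ℝ) + (67108864 : ℕ)) / S) :
    AltA (VF κ) PP tKF tL pcF [⟨3, 0, 0, 1449551462⟩] 1 3 3 0 4 (sgb true) (sgb true) x :=
  strip_altA (m := 1449551462) true rfl hκ covF01 covF43 hx hx' c_A04pp_133_s1 cutA_nil (noExt_A)

noncomputable def cut_A04pp_202_s1 : Cut := Cut.of [[⟨4, 0, 0, 1449551462⟩]]

noncomputable def f_A04pp_202_s1 : ℕ → ℕ → ℕ → ℕ → Bool := onCell 0 536870912 0 536870912 67108864 67108864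
    (rowFK 0 true true true .pp 2 0 2 (qsf 0 536870912 0 536870912 2) ndF0q2 ndF4q0 pcF2 cut_A04pp_202_s1 Ext.none)

def k0_A04pp_202_s1 : ∃ t, chk3 f_A04pp_202_s1 t 1 1 1 = true :=
  ⟨(l 4), by decide +kernel⟩

theorem c_A04pp_202_s1 : CertF 0 536870912 0 536870912 67108864 67108864 true true true .pp 2 0 2
    ndF0q2 ndF4q0 pcF2 cut_A04pp_202_s1 Ext.none :=
  certFK0 (fam := true) (s1 := true) (s2 := true) (a := 2) (b := 0) (c := 2) (cn := .pp) (n1 := ndF0q2) (n2 := ndF4q0) (pc := pcF2) (cut := cut_A04pp_202_s1) (xt := Ext.none) (P1 := 0) (W1 := 536870912) (P2 := 0) (W2 := 536870912) (P3 := 67108864) (W3 := 67108864)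
    rfl rfl rfl k0_A04pp_202_s1

theorem s_A04pp_202_s1 {κ x : ℝ} (hκ : κ * h0 = ken x) (hx : ((67108864 : ℕ) : ℝ) / S ≤ x)
    (hx' : x ≤ (((67108864 : ℕ) : ℝ) + (67108864 : ℕ)) / S) :
    AltA (VF κ) PP tKF tL pcF [⟨3, 0, 0, 1449551462⟩] 2 0 2 0 4 (sgb true) (sgb true) x :=
  strip_altA (m := 1449551462) true rfl hκ covF02 covF40 hx hx' c_A04pp_202_s1 cutA_nil (noExt_A)

noncomputable def cut_A04pp_203_s1 : Cut := Cut.of [[⟨4, 0, 0, 1449551462⟩]]

noncomputable def f_A04pp_203_s1 : ℕ → ℕ → ℕ → ℕ → Bool := onCell 0 536870912 0 536870912 67108864 67108864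
    (rowFK 0 true true true .up 2 0 3 (qsf 0 536870912 0 536870912 3) ndF0q2 ndF4q0 pcF3 cut_A04pp_203_s1 Ext.none)

def k0_A04pp_203_s1 : ∃ t, chk3 f_A04pp_203_s1 t 1 1 1 = true :=
  ⟨(l 4), by decide +kernel⟩

theorem c_A04pp_203_s1 : CertF 0 536870912 0 536870912 67108864 67108864 true true true .up 2 0 3
    ndF0q2 ndF4q0 pcF3 cut_A04pp_203_s1 Ext.none :=
  certFK0 (fam := true) (s1 := true) (s2 := true) (a := 2) (b := 0) (c := 3) (cn := .up) (n1 := ndF0q2) (n2 := ndF4q0) (pc := pcF3) (cut := cut_A04pp_203_s1) (xt := Ext.none) (P1 := 0) (W1 := 536870912) (P2 := 0) (W2 := 536870912) (P3 := 67108864) (W3 := 67108864)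
    rfl rfl rfl k0_A04pp_203_s1

theorem s_A04pp_203_s1 {κ x : ℝ} (hκ : κ * h0 = ken x) (hx : ((67108864 : ℕ) : ℝ) / S ≤ x)
    (hx' : x ≤ (((67108864 : ℕ) : ℝ) + (67108864 : ℕ)) / S) :
    AltA (VF κ) PP tKF tL pcF [⟨3, 0, 0, 1449551462⟩] 2 0 3 0 4 (sgb true) (sgb true) x :=
  strip_altA (m := 1449551462) true rfl hκ covF02 covF40 hx hx' c_A04pp_203_s1 cutA_nil (noExt_A)

noncomputable def cut_A04pp_213_s1 : Cut := Cut.of [[⟨4, 0, 0, 1449551462⟩]]

noncomputable def f_A04pp_213_s1 : ℕ → ℕ → ℕ → ℕ → Bool := onCell 0 536870912 536870912 536870912 67108864 67108864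
    (rowFK 0 true true true .pnn 2 1 3 (qsf 0 536870912 536870912 536870912 3) ndF0q2 ndF4q1 pcF3 cut_A04pp_213_s1 Ext.none)

def k0_A04pp_213_s1 : ∃ t, chk3 f_A04pp_213_s1 t 1 1 1 = true :=
  ⟨(l 4), by decide +kernel⟩

theorem c_A04pp_213_s1 : CertF 0 536870912 536870912 536870912 67108864 67108864 true true true .pnn 2 1 3
    ndF0q2 ndF4q1 pcF3 cut_A04pp_213_s1 Ext.none :=
  certFK0 (fam := true) (s1 := true) (s2 := true) (a := 2) (b := 1) (c := 3) (cn := .pnn) (n1 := ndF0q2) (n2 := ndF4q1) (pc := pcF3) (cut := cut_A04pp_213_s1) (xt := Ext.none) (P1 := 0) (W1 := 536870912) (P2 := 536870912) (W2 := 536870912) (P3 := 67108864) (W3 := 67108864)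
    rfl rfl rfl k0_A04pp_213_s1

theorem s_A04pp_213_s1 {κ x : ℝ} (hκ : κ * h0 = ken x) (hx : ((67108864 : ℕ) : ℝ) / S ≤ x)
    (hx' : x ≤ (((67108864 : ℕ) : ℝ) + (67108864 : ℕ)) / S) :
    AltA (VF κ) PP tKF tL pcF [⟨3, 0, 0, 1449551462⟩] 2 1 3 0 4 (sgb true) (sgb true) x :=
  strip_altA (m := 1449551462) true rfl hκ covF02 covF41 hx hx' c_A04pp_213_s1 cutA_nil (noExt_A)

noncomputable def cut_A04pm_001_s1 : Cut := Cut.of [[⟨4, 0, 0, 1449551462⟩]]

noncomputable def xt_A04pm_001_s1 : Ext := strExt dd true true false .u0 .s0m .u0m .up 0 0 1 rfl rfl gf1 vv ndF0q0 ndF4q0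

noncomputable def f_A04pm_001_s1 : ℕ → ℕ → ℕ → ℕ → Bool := onCell 0 536870912 0 536870912 67108864 67108864
    (rowFK 0 true true false .up 0 0 1 (qsf 0 536870912 0 536870912 1) ndF0q0 ndF4q0 pcF1 cut_A04pm_001_s1 xt_A04pm_001_s1)

def k0_A04pm_001_s1 : ∃ t, chk3 f_A04pm_001_s1 t 1 1 1 = true :=
  ⟨(a (l 3) (b (a (l 3) (a (l 3) (b (l 3) (b (l 553009167) (l 554631695))))) (a (b (l 3) (a (b (l 3) (l 566209295)) (b (l 562487567) (l 565213711)))) (b (b (a (l 557442575) (l 556549391)) (a (l 559433999) (l 558615823))) (a (b (l 561688847) (l 564577295)) (b (l 561137423) (l 564168463))))))), by decide +kernel⟩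

theorem c_A04pm_001_s1 : CertF 0 536870912 0 536870912 67108864 67108864 true true false .up 0 0 1
    ndF0q0 ndF4q0 pcF1 cut_A04pm_001_s1 xt_A04pm_001_s1 :=
  certFK0 (fam := true) (s1 := true) (s2 := false) (a := 0) (b := 0) (c := 1) (cn := .up) (n1 := ndF0q0) (n2 := ndF4q0) (pc := pcF1) (cut := cut_A04pm_001_s1) (xt := xt_A04pm_001_s1) (P1 := 0) (W1 := 536870912) (P2 := 0) (W2 := 536870912) (P3 := 67108864) (W3 := 67108864)
    rfl rfl rfl k0_A04pm_001_s1

theorem s_A04pm_001_s1 {κ x : ℝ} (hκ : κ * h0 = ken x) (hx : ((67108864 : ℕ) : ℝ) / S ≤ x)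
    (hx' : x ≤ (((67108864 : ℕ) : ℝ) + (67108864 : ℕ)) / S) :
    AltA (VF κ) PP tKF tL pcF [⟨3, 0, 0, 1449551462⟩] 0 0 1 0 4 (sgb true) (sgb false) x :=
  strip_altA (m := 1449551462) true rfl hκ covF00 covF40 hx hx' c_A04pm_001_s1 cutA_nil ((okx hx hx').extA (T := tt) (sideF hx hx') hκ rfl rfl (.O 0 true) (.N 0 false) (Or.inr rfl))

noncomputable def cut_A04pm_011_s1 : Cut := Cut.of [[⟨4, 0, 0, 1449551462⟩], [⟨0, 0, 0, 25165824⟩, ⟨1, 1, 0, 25165824⟩, ⟨2, 1, 0, 25165824⟩]]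

noncomputable def xt_A04pm_011_s1 : Ext := strExt dd true true false .u0 .s0m .u0m .pnn 0 1 1 rfl rfl gf1 vv ndF0q0 ndF4q1

noncomputable def f_A04pm_011_s1 : ℕ → ℕ → ℕ → ℕ → Bool := onCell 0 536870912 536870912 536870912 67108864 67108864
    (rowFK 1 true true false .pnn 0 1 1 (qsf 0 536870912 536870912 536870912 1) ndF0q0 ndF4q1 pcF1 cut_A04pm_011_s1 xt_A04pm_011_s1)

def k0_A04pm_011_s1 : ∃ t, chk3 f_A04pm_011_s1 t 1 2 1 = true :=
  ⟨(a (l 3) (b (l 1) (a (l 3) (l 1)))), by decide +kernel⟩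

def k1_A04pm_011_s1 : ∃ t, chk3 f_A04pm_011_s1 t 2 6 1 = true :=
  ⟨(a (l 3) (a (l 3) (b (l 3) (l 577113615)))), by decide +kernel⟩

def k2_A04pm_011_s1 : ∃ t, chk3 f_A04pm_011_s1 t 2 14 1 = true :=
  ⟨(a (b (l 3) (a (l 3) (a (l 3) (a (l 3) (l 593167119))))) (a (a (b (l 3) (a (l 592288015) (l 590978831))) (b (l 586051087) (a (l 589425679) (l 587746063)))) (b (l 580936463) (a (l 585208335) (l 581770255))))), by decide +kernel⟩

def k3_A04pm_011_s1 : ∃ t, chk3 f_A04pm_011_s1 t 4 30 1 = true :=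
  ⟨(a (b (l 3) (a (l 3) (a (l 3) (a (l 3) (a (l 3) (b (l 3) (l 529281295))))))) (a (a (b (l 3) (a (b (l 3) (a (l 538929935) (a (l 545198607) (l 548707599)))) (c (c (l 609853199) (b (l 582348047) (l 573996303))) (b (l 538340879) (l 525997839))))) (a (b (l 3) (a (c (l 597934351) (l 541324303)) (c (l 599892495) (l 546013199)))) (c (b (l 605953807) (l 602173455)) (b (b (l 3) (l 564428303)) (b (l 557786127) (l 549223695)))))) (c (a (b (l 606519823) (c (l 615082767) (l 594709775))) (b (l 605689615) (l 605790735))) (a (b (a (l 571470095) (l 574731279)) (a (b (l 564203791) (l 557601295)) (b (l 569108751) (l 564002575)))) (b (l 578222095) (a (l 571000847) (l 574257935))))))), by decide +kernel⟩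

def k4_A04pm_011_s1 : ∃ t, chk3 f_A04pm_011_s1 t 8 62 1 = true :=
  ⟨(a (b (l 3) (a (l 3) (a (l 3) (a (l 3) (a (l 3) (b (l 3) (l 525052943))))))) (a (b (a (l 3) (a (l 3) (b (l 3) (c (l 525420815) (l 525119503))))) (b (b (a (l 3) (a (l 525423631) (l 525340943))) (a (a (l 3) (l 525732367)) (a (l 525380623) (c (l 525308943) (l 524748559))))) (a (a (a (l 524808463) (l 524832527)) (a (l 524856591) (l 524612623))) (a (a (l 524368399) (l 524661263)) (a (l 524686095) (l 524710671)))))) (a (a (b (b (l 3) (l 525188879)) (b (c (l 526188559) (l 524817935)) (a (l 524735759) (l 524760847)))) (b (a (l 525003279) (l 525030159)) (b (l 525152783) (l 525130511)))) (a (a (b (l 524788751) (l 524877327)) (b (l 524815887) (l 524903439))) (a (b (l 524843279) (l 524929807)) (b (l 524870671) (l 524956175))))))), by decide +kernel⟩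

def k5_A04pm_011_s1 : ∃ t, chk3 f_A04pm_011_s1 t 16 63 1 = true :=
  ⟨(b (a (b (l 3) (a (l 3) (a (l 3) (a (l 3) (a (l 3) (b (l 3) (l 525742863))))))) (a (b (a (l 3) (a (l 3) (a (l 3) (l 524824847)))) (b (a (a (l 3) (a (l 3) (l 524965647))) (a (a (l 524688399) (l 524679183)) (c (l 525734415) (l 525450767)))) (a (a (a (l 525600271) (l 525323279)) (a (l 525046031) (l 525037071))) (a (a (l 524759567) (l 524750351)) (c (l 525807887) (l 525520143)))))) (a (a (a (b (l 524546831) (l 524958223)) (b (l 524537103) (l 524814351))) (a (b (l 524527631) (l 524670479)) (b (l 524517903) (l 524660751)))) (a (b (l 525032719) (c (l 525316367) (l 524901135))) (b (l 525014031) (l 525157135)))))) (a (b (b (a (l 3) (a (l 14) (a (l 14) (a (l 14) (l 525679887))))) (l 14)) (l 14)) (a (a (b (b (a (a (l 525402895) (l 525394447)) (a (l 525117199) (l 525108239))) (a (a (l 14) (l 525465615)) (a (l 525188367) (l 525179663)))) (a (l 14) (a (l 14) (b (l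 525250831) (l 14))))) (a (b (b (a (l 524830991) (l 524821775)) (a (l 525170703) (l 524892943))) (a (b (l 525241871) (l 14)) (a (l 525008911) (l 525004047)))) (b (a (c (l 525267215) (l 524838159)) (l 525177615)) (b (b (l 525993231) (l 526029071)) (l 526351887))))) (a (a (b (b (l 525584399) (l 525655567)) (b (l 525726991) (l 525798415))) (b (a (l 524947471) (l 524803855)) (b (l 525441295) (l 525512719)))) (a (b (a (l 524794127) (l 524784399)) (b (l 525423375) (l 525494799))) (b (l 525300239) (a (l 524917519) (l 524907791)))))))), by decide +kernel⟩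

def k6_A04pm_011_s1 : ∃ t, chk3 f_A04pm_011_s1 t 17 63 1 = true :=
  ⟨(a (a (a (b (a (b (l 524860687) (l 525004047)) (b (l 524747791) (l 524850703))) (b (a (l 525147151) (l 524993807)) (a (c (l 525370127) (l 524875023)) (l 525271311)))) (a (b (b (l 524771343) (l 524831247)) (b (l 524974351) (l 525117711))) (b (b (l 524526863) (l 524542991)) (b (l 524820751) (l 525098255))))) (a (a (b (c (l 524903439) (l 524768527)) (b (l 524666639) (l 524944143))) (b (c (l 524827663) (l 524791823)) (b (l 524646671) (l 524790031)))) (b (a (a (l 524477199) (l 524489231)) (b (l 524354575) (l 524535055))) (a (b (l 524626447) (l 524769807)) (b (l 524605967) (l 524749583)))))) (a (a (a (b (b (l 524647439) (l 524559119)) (b (l 524585487) (l 524729103))) (b (b (l 524672015) (l 524583183)) (b (l 524564751) (l 524708623)))) (b (a (b (l 524696847) (l 524338959)) (b (l 524453135) (l 524363279))) (b (l 524928527) (c (l 525075727) (l 524665871)))))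 (b (a (b (l 525024527) (c (l 524939791) (l 524390927))) (b (l 525075727) (l 525520911))) (a (c (b (l 524777743) (l 524898831)) (l 525097999)) (c (a (l 524631823) (l 524623631)) (l 524839695)))))), by decide +kernel⟩

def k7_A04pm_011_s1 : ∃ t, chk3 f_A04pm_011_s1 t 9 31 1 = true :=
  ⟨(a (a (b (a (a (a (b (l 524898063) (l 524982799)) (b (l 524925967) (l 525009679))) (b (l 529221903) (a (l 525036559) (l 524795407)))) (b (a (l 538830351) (a (l 545074191) (l 547763471))) (a (a (l 524822543) (l 524849935)) (l 529204239)))) (a (b (a (b (l 524859151) (l 525035023)) (b (l 524911631) (l 524817935))) (b (a (l 525747471) (l 524992527)) (a (a (l 524570895) (l 524326927)) (l 524630031)))) (b (a (b (l 524964879) (l 524870159)) (a (l 524955663) (l 525787663))) (a (c (b (l 524784143) (l 524953615)) (l 524582671)) (b (l 524827151) (l 525804815)))))) (b (c (c (a (b (l 607152655) (l 600854287)) (l 609068815)) (a (b (l 573749263) (a (l 558802191)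 (l 565449999))) (b (l 581775887) (l 573537039)))) (a (b (a (l 525103887) (l 527668239)) (l 525745935)) (b (l 538130703) (b (l 16779504) (l 16760480))))) (a (a (b (a (l 525546255) (l 525573391)) (b (l 524879631) (l 525319439))) (b (l 529229327) (b (l 524932879) (l 525371663)))) (b (b (l 16770176) (l 16757496)) (b (l 16756200) (a (l 525424655) (l 525746959))))))) (c (a (c (b (l 613000719) (b (l 17195936) (a (l 17197976) (l 17379712)))) (b (a (b (l 16982392) (l 17015952)) (l 589501967)) (b (a (l 573359375) (l 17105224)) (a (b (l 16993696) (l 16873600)) (b (l 17100256) (l 17082912)))))) (b (l 604206607) (a (b (l 17286872) (l 17246584)) (l 600936463)))) (a (b (a (b (l 549092879) (l 538073103)) (b (l 557442575) (l 548991247))) (a (a (b (l 16763040) (l 524757263)) (b (l 16756344) (l 524811279))) (b (l 538048271) (b (l 16700600) (l 525111823))))) (b (b (a (l 16842000) (l 16976392)) (a (l 16832528) (l 16979648))) (b (a (l 16791120)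 (l 16873528)) (a (l 538056207) (l 16773616))))))), by decide +kernel⟩

def k8_A04pm_011_s1 : ∃ t, chk3 f_A04pm_011_s1 t 5 15 1 = true :=
  ⟨(a (a (c (b (a (l 604606735) (l 602647311)) (a (b (l 17324952) (l 603604239)) (l 604667407))) (b (a (b (l 580881423) (l 577737743)) (b (l 582102031) (l 580417807))) (b (a (b (l 17050856) (l 16985496)) (l 577325327)) (a (b (l 16901864) (a (l 16914856) (l 17088048))) (b (l 17200784) (l 17122368)))))) (c (b (l 599292943) (b (l 17550272) (l 17741616))) (b (b (l 582404623) (l 582011919)) (b (l 580878095) (a (l 17244864) (l 17434304)))))) (b (a (b (l 17275880) (l 17421352)) (l 17469664)) (a (b (l 17573008) (l 17727192)) (l 17774304)))), by decide +kernel⟩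

def k9_A04pm_011_s1 : ∃ t, chk3 f_A04pm_011_s1 t 3 3 1 = true :=
  ⟨(b (a (a (b (l 567715855) (l 571409679)) (l 565250831)) (a (l 561776655) (l 1))) (a (b (a (l 575891727) (l 570598159)) (a (b (l 17624008) (l 17921464)) (b (l 17790504) (l 18073848)))) (b (b (l 17722784) (l 17756520)) (a (l 18056272) (l 18163592))))), by decide +kernel⟩

theorem t10_A04pm_011_s1 : ∃ t, chk3 f_A04pm_011_s1 t 8 63 1 = true := ex3_a k5_A04pm_011_s1 k6_A04pm_011_s1

theorem t11_A04pm_011_s1 : ∃ t, chk3 f_A04pm_011_s1 t 8 31 1 = true := ex3_b k4_A04pm_011_s1 t10_A04pm_011_s1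

theorem t12_A04pm_011_s1 : ∃ t, chk3 f_A04pm_011_s1 t 4 31 1 = true := ex3_a t11_A04pm_011_s1 k7_A04pm_011_s1

theorem t13_A04pm_011_s1 : ∃ t, chk3 f_A04pm_011_s1 t 4 15 1 = true := ex3_b k3_A04pm_011_s1 t12_A04pm_011_s1

theorem t14_A04pm_011_s1 : ∃ t, chk3 f_A04pm_011_s1 t 2 15 1 = true := ex3_a t13_A04pm_011_s1 k8_A04pm_011_s1

theorem t15_A04pm_011_s1 : ∃ t, chk3 f_A04pm_011_s1 t 2 7 1 = true := ex3_b k2_A04pm_011_s1 t14_A04pm_011_s1

theorem t16_A04pm_011_s1 : ∃ t, chk3 f_A04pm_011_s1 t 2 3 1 = true := ex3_b k1_A04pm_011_s1 t15_A04pm_011_s1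

theorem t17_A04pm_011_s1 : ∃ t, chk3 f_A04pm_011_s1 t 1 3 1 = true := ex3_a t16_A04pm_011_s1 k9_A04pm_011_s1

theorem t18_A04pm_011_s1 : ∃ t, chk3 f_A04pm_011_s1 t 1 1 1 = true := ex3_b k0_A04pm_011_s1 t17_A04pm_011_s1

theorem c_A04pm_011_s1 : CertF 0 536870912 536870912 536870912 67108864 67108864 true true false .pnn 0 1 1
    ndF0q0 ndF4q1 pcF1 cut_A04pm_011_s1 xt_A04pm_011_s1 :=
  certFK1 (fam := true) (s1 := true) (s2 := false) (a := 0) (b := 1) (c := 1) (cn := .pnn) (n1 := ndF0q0) (n2 := ndF4q1) (pc := pcF1) (cut := cut_A04pm_011_s1) (xt := xt_A04pm_011_s1) (P1 := 0) (W1 := 536870912) (P2 := 536870912) (W2 := 536870912) (P3 := 67108864) (W3 := 67108864)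
    rfl rfl rfl (fun _ => rfl) t18_A04pm_011_s1

theorem s_A04pm_011_s1 {κ x : ℝ} (hκ : κ * h0 = ken x) (hx : ((67108864 : ℕ) : ℝ) / S ≤ x)
    (hx' : x ≤ (((67108864 : ℕ) : ℝ) + (67108864 : ℕ)) / S)
    (H : CutA (VF κ) PP tKF tL pcF (Cut.of [[⟨0, 0, 0, 25165824⟩, ⟨1, 1, 0, 25165824⟩, ⟨2, 1, 0, 25165824⟩]]) 0 1 1 0 4 (sgb true) (sgb false) x) :
    AltA (VF κ) PP tKF tL pcF [⟨3, 0, 0, 1449551462⟩] 0 1 1 0 4 (sgb true) (sgb false) x :=
  strip_altA (m := 1449551462) true rfl hκ covF00 covF41 hx hx' c_A04pm_011_s1 H ((okx hx hx').extA (T := tt) (sideF hx hx') hκ rfl rfl (.O 0 true) (.N 1 false) (Or.inr rfl))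

end Pool.Agent.Strip051.G.I1_16_1_8.Tab.St.C
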