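import Pool.Agent.Strip051.G.I1_16_1_8.StF

/-! # Unit strips 5 (generated) -/

set_option linter.all false
set_option maxRecDepth 100000

namespace Pool.Agent.Strip051.G.I1_16_1_8.Tab.St.C

open Pool.Agent.Strip051.PB Pool.Agent.Strip051.PB.T Pool.Agent.StripNear Pool.Agent.Strip051.LC
open Pool.Agent.Strip051.G.I1_16_1_8.Tab Pool.Agent.Strip051.G.I1_16_1_8.Tab.St

noncomputable def cut_A04pm_012_s1 : Cut := Cut.of [[⟨4, 0, 0, 1449551462⟩], [⟨0, 0, 0, 67108864⟩, ⟨1, 1, 0, 67108864⟩, ⟨2, 1, 0, 67108864⟩]]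

noncomputable def f_A04pm_012_s1 : ℕ → ℕ → ℕ → ℕ → Bool := onCell 1073741824 536870912 536870912 536870912 67108864 67108864
    (rowFK 2 true true false .pnp 0 1 2 (qsf 0 536870912 536870912 536870912 2) ndF0q0 ndF4q1 pcF2 cut_A04pm_012_s1 Ext.none)

def k0_A04pm_012_s1 : ∃ t, chk3 f_A04pm_012_s1 t 2 2 1 = true :=
  ⟨(a (a (a (b (l 18467328) (b (l 18339464) (l 18223944))) (b (l 18558456) (b (l 18487984) (l 18422800)))) (b (l 6) (b (l 18667256) (l 18665808)))) (b (l 6) (l 6))), by decide +kernel⟩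

def k1_A04pm_012_s1 : ∃ t, chk3 f_A04pm_012_s1 t 16 6 1 = true :=
  ⟨(b (b (l 18103144) (a (l 17904592) (l 18079616))) (b (a (a (c (l 17903904) (l 17132928)) (l 17625368)) (l 17863176)) (c (a (a (b (l 17758176) (l 17632912)) (l 17834488)) (l 18027248)) (a (a (b (l 17010352) (b (l 16964256) (l 16780424))) (b (l 17376336) (l 17123880))) (b (l 17546776) (l 17228544)))))), by decide +kernel⟩

def k2_A04pm_012_s1 : ∃ t, chk3 f_A04pm_012_s1 t 16 14 1 = true :=
  ⟨(a (a (a (b (c (c (b (l 17586640) (l 17228168)) (b (l 17197816) (b (l 17028472) (l 16808912)))) (a (b (l 16724672) (b (l 16742856) (b (l 16748992) (l 16753120)))) (b (l 16756496) (l 16743696)))) (b (c (c (b (l 17041136) (b (l 16927816) (l 16759048))) (a (a (l 16694176) (l 16715408)) (l 16748168))) (b (a (b (l 16757264) (l 16761424)) (l 16755880)) (a (a (a (l 16729064) (l 16726944)) (l 16724864)) (l 16764112)))) (b (a (b (c (a (l 16777544) (b (l 16702272)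 (l 16774432))) (l 16733024)) (a (l 16740032) (b (l 16734640) (l 16736976)))) (a (b (l 16729128) (l 16733320)) (l 16729400))) (a (b (a (l 16744648) (a (l 16741504) (l 16739408))) (a (b (l 16748072) (l 16750344)) (a (l 16746088) (l 16744000)))) (a (b (l 16737528) (a (l 16742232) (l 16741280))) (b (l 16735656) (l 16739848))))))) (b (c (c (l 17417624) (b (l 17357504) (l 16962264))) (b (l 16805736) (l 16738896))) (b (b (l 16703808) (l 16716792)) (b (a (l 16726688) (l 16765048)) (a (l 16734928) (l 16731208)))))) (b (c (c (l 17378880) (b (l 17471552) (l 16921672))) (b (l 16824136) (a (l 16667408) (l 16744952)))) (b (a (b (l 16791768) (l 16751928)) (l 16707040)) (a (b (l 16759736) (l 16725680)) (b (l 16752784) (l 16760392)))))) (b (a (c (b (l 17784664) (l 17530904)) (b (l 17048424) (l 16865088))) (c (l 17527224) (b (l 17273288) (l 16943880)))) (b (c (c (a (l 17599064) (l 17796312)) (a (b (l 17234240) (l 17073072)) (l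 17185696))) (a (b (l 16644064) (l 16651056)) (l 16689328))) (a (b (l 16742624) (a (l 16753296) (l 16662464))) (b (l 16765800) (l 16736208)))))), by decide +kernel⟩

def k3_A04pm_012_s1 : ∃ t, chk3 f_A04pm_012_s1 t 16 15 1 = true :=
  ⟨(a (b (a (b (a (b (a (b (a (b (l 16752592) (l 14)) (l 16749584)) (l 14)) (a (b (a (l 16746480) (l 16745512)) (l 14)) (b (l 16744056) (l 16748280)))) (l 14)) (b (b (l 16739240) (l 16722408)) (a (l 14) (a (l 14) (l 16746640))))) (l 14)) (b (b (a (a (l 16735560) (l 16731768)) (l 16726144)) (a (a (l 16743672) (l 16739744)) (a (l 16735856) (l 16732000)))) (b (b (a (l 14) (l 16739808)) (l 14)) (l 14)))) (l 14)) (b (b (b (a (a (l 16718768) (l 16753480)) (a (l 16662512) (l 16655584))) (a (a (b (l 16682448) (l 16686224)) (l 16718768)) (a (l 16711408) (l 16662248)))) (a (b (b (a (l 16690016) (l 16682312)) (a (l 16735776) (l 16685992))) (b (a (l 14) (l 16689688)) (l 14))) (b (b (a (l 16674744)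 (l 16667320)) (l 16684968)) (b (c (l 16689256) (l 16687672)) (a (l 16685448) (l 16677616)))))) (b (a (l 14) (b (b (a (l 14) (l 16681096)) (l 14)) (l 14))) (l 14)))), by decide +kernel⟩

def k4_A04pm_012_s1 : ∃ t, chk3 f_A04pm_012_s1 t 17 6 1 = true :=
  ⟨(a (b (l 18272128) (b (l 18130256) (a (l 17843752) (l 18037408)))) (b (l 18408824) (b (l 18306016) (l 18107304)))), by decide +kernel⟩

def k5_A04pm_012_s1 : ∃ t, chk3 f_A04pm_012_s1 t 34 7 1 = true :=
  ⟨(b (b (c (a (l 18011536) (l 18150736)) (b (a (l 17411928) (l 17545512)) (a (l 17105080) (l 17261072)))) (b (c (a (l 17678712) (l 17938520)) (a (l 16799304) (l 16693864))) (c (a (c (l 17763992) (b (l 17324768) (l 17053760))) (b (l 17695904) (l 17224056))) (a (b (l 16632032) (l 16638064)) (a (l 16625656) (l 16740936)))))) (b (b (a (b (l 16687400) (a (l 16655176) (l 16648256))) (a (b (l 16720880) (l 16641488)) (b (c (c (l 17834024) (l 17237712)) (l 16628088)) (l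 16662824)))) (a (b (b (l 16698384) (l 16701592)) (b (l 16673360) (a (l 16669928) (l 16662376)))) (b (a (l 16647408) (l 16640912)) (a (b (l 16651928) (l 16654968)) (l 16657144))))) (a (b (b (b (a (l 16673272) (l 16665584)) (a (l 16681880) (l 16668824))) (b (a (l 14) (l 16677328)) (l 14))) (l 14)) (b (b (a (b (l 16658048) (l 16661144)) (b (l 16651048) (l 16674984))) (a (b (l 16664272) (c (l 16668656) (l 16666184))) (b (l 16667488) (b (l 16669752) (l 16671272))))) (b (a (l 14) (b (b (l 16672792) (l 14)) (l 14))) (l 14)))))), by decide +kernel⟩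

def k6_A04pm_012_s1 : ∃ t, chk3 f_A04pm_012_s1 t 35 14 1 = true :=
  ⟨(c (b (l 18342832) (b (l 18180264) (a (l 17664312) (l 18100624)))) (b (b (l 17735472) (a (l 17495656) (l 17638616))) (b (a (l 17000696) (l 17339736)) (a (b (l 16923632) (l 16802240)) (l 16787688))))), by decide +kernel⟩

def k7_A04pm_012_s1 : ∃ t, chk3 f_A04pm_012_s1 t 35 30 1 = true :=
  ⟨(b (c (c (a (l 17767600) (l 18157240)) (a (b (l 17339144) (l 16791736)) (b (l 17652544) (l 17391216)))) (a (b (l 16619920) (l 16666968)) (b (l 16812456) (l 16613704)))) (a (b (a (l 16634272) (l 16663056)) (a (l 16650216) (l 16633448))) (b (c (c (l 17942720) (l 16831896)) (l 16618344)) (a (l 16627096) (l 16665896))))), by decide +kernel⟩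

def k8_A04pm_012_s1 : ∃ t, chk3 f_A04pm_012_s1 t 35 31 1 = true :=
  ⟨(b (a (b (a (b (l 16643912) (l 16646736)) (b (l 16637416) (l 16640096))) (b (a (l 16660080) (l 16642808)) (a (l 16662960) (l 16650792)))) (b (b (l 16639488) (a (l 16633376) (l 16626880))) (b (a (l 16635944) (l 16629312)) (a (l 16643792) (l 16631768))))) (b (a (b (a (b (l 16665144) (l 16666600)) (b (l 16647632) (l 16654264))) (a (b (a (l 14) (l 16655536)) (l 14)) (b (c (l 16652096) (l 16648744)) (c (l 16653496) (l 16650168))))) (b (a (c (l 16643048) (l 16639312)) (l 16639504)) (a (b (l 16648424) (c (l 16646344) (l 16642688))) (c (l 16644040) (l 16645264))))) (c (a (a (l 14) (b (b (l 16660136) (l 14)) (l 14))) (a (b (b (l 16652920) (a (l 16650440) (l 16646888))) (b (b (a (l 14) (l 16647880)) (l 14)) (l 14))) (a (b (b (l 16642088) (l 16643376)) (b (b (l 16644352) (l 16645000)) (b (c (l 16646584) (l 16644712)) (l 14)))) (b (b (l 16638672) (l 16639928))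 (b (l 16643808) (b (c (l 16643112) (l 16641160)) (c (b (l 16643592) (l 16643904)) (b (l 16641640) (l 16641960))))))))) (b (a (a (l 14) (b (a (l 14) (l 16649312)) (l 14))) (b (a (l 16649296) (l 16636720)) (a (a (l 16646960) (l 16643232)) (a (l 16639560) (l 16635936))))) (a (l 14) (a (a (l 14) (b (b (l 16644256) (l 14)) (l 14))) (b (a (b (l 16640552) (l 16641224)) (l 16639848)) (a (b (c (l 16642832) (l 16640944)) (l 14)) (b (c (l 16639192) (l 16637216)) (c (b (l 16639680) (l 16640000)) (b (l 16637712) (l 16638040)))))))))))), by decide +kernel⟩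

def k9_A04pm_012_s1 : ∃ t, chk3 f_A04pm_012_s1 t 9 6 1 = true :=
  ⟨(a (b (l 18575192) (b (l 18522856) (l 18457864))) (b (l 18764992) (l 18762008))), by decide +kernel⟩

def k10_A04pm_012_s1 : ∃ t, chk3 f_A04pm_012_s1 t 9 14 1 = true :=
  ⟨(b (a (a (c (l 18571416) (l 17824152)) (l 18450216)) (l 18712168)) (a (c (a (b (l 18464248) (l 18348792)) (l 18674536)) (a (b (l 17325648) (a (l 16987120) (l 17340296))) (b (l 17944568) (l 17425128)))) (c (l 18988872) (a (l 18044200) (l 18357752))))), by decide +kernel⟩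

def k11_A04pm_012_s1 : ∃ t, chk3 f_A04pm_012_s1 t 18 30 1 = true :=
  ⟨(b (b (c (a (l 18224344) (l 18554808)) (a (a (l 16969600) (l 17191560)) (l 17239352))) (c (a (l 17611904) (l 18484320)) (a (a (l 16740912) (l 16911496)) (c (l 17685728) (l 16733992))))) (c (a (c (a (l 17861792) (l 18346376)) (a (b (l 17445224) (l 16790256)) (b (l 17778104) (l 17417072)))) (a (l 17820472) (l 18438744))) (a (a (b (l 16606424) (l 16610624)) (b (l 16755296) (l 16599128))) (a (b (l 16855176) (l 16687816)) (c (l 17042208) (l 16572656)))))), by decide +kernel⟩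

def k12_A04pm_012_s1 : ∃ t, chk3 f_A04pm_012_s1 t 36 62 1 = true :=
  ⟨(b (a (b (l 16628184) (l 16629080)) (c (c (l 18117936) (a (l 17003264) (l 17249808))) (l 16602880))) (a (b (l 16631288) (a (l 16625216) (l 16618888))) (b (l 16614552) (l 16621088)))), by decide +kernel⟩

def k13_A04pm_012_s1 : ∃ t, chk3 f_A04pm_012_s1 t 36 63 1 = true :=
  ⟨(a (b (b (a (l 16632808) (l 16621096)) (a (b (l 16629352) (l 16635800)) (b (l 16622776) (l 16629144)))) (b (a (b (c (l 16633920) (l 16629608)) (c (l 16640360) (a (l 16632360) (l 16628840)))) (b (c (l 16627376) (l 16622696)) (c (l 16628504) (l 16623864)))) (c (a (a (b (l 16637752) (b (l 16638680) (c (b (l 16640160) (l 16640464)) (b (l 16638120) (l 16638432))))) (b (l 16634368) (b (l 16635272) (c (l 16636928) (l 16634808))))) (a (b (l 16631048) (b (l 16631920) (c (l 16633600) (l 16631392)))) (b (l 16627776) (b (l 16628616) (c (l 16630328) (l 16628032)))))) (a (b (a (l 16633624)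 (l 16630064)) (a (b (l 16637192) (c (b (l 16636080) (l 16636392)) (l 16634184))) (b (l 16630992) (c (l 16632680) (l 16630544))))) (b (a (l 16626560) (l 16623104)) (a (b (l 16627464) (c (l 16629176) (l 16626952))) (b (l 16623984) (c (l 16625728) (l 16623408))))))))) (b (b (a (l 16614840) (l 16608816)) (a (b (l 16616416) (l 16617472)) (l 16616008))) (b (a (b (l 16623784) (c (l 16622112) (l 16617104))) (b (l 16617496) (a (a (l 16615384) (l 16613816)) (l 16611536)))) (c (a (b (b (l 16622912) (l 16623440)) (b (a (l 16625376) (l 16622184)) (c (c (c (l 17237888) (a (l 16749336) (l 16983680))) (a (l 16626520) (l 16623336))) (a (l 16624720) (l 16621472))))) (b (c (c (l 17486952) (c (l 16959992) (l 16622672))) (l 16615608)) (a (b (l 16619048) (l 16619560)) (b (l 16619024) (l 16616464))))) (a (b (b (l 16617936) (l 16621112)) (a (b (l 16620552) (c (l 16622328) (l 16619920))) (b (l 16617176) (c (l 16618976) (l 16616480)))))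 (b (b (l 16611336) (l 16611856)) (a (c (l 16615416) (l 16612816)) (a (l 16614232) (l 16609984))))))))), by decide +kernel⟩

def k14_A04pm_012_s1 : ∃ t, chk3 f_A04pm_012_s1 t 37 31 1 = true :=
  ⟨(c (b (c (b (l 18491400) (l 18009200)) (b (a (l 17390640) (l 17909672)) (a (c (l 17338352) (b (l 17255232) (l 16928048))) (l 17365920)))) (c (b (c (l 18289448) (a (b (l 17819456) (l 17589456)) (l 18082576))) (c (a (b (l 18022888) (l 17444168)) (l 18313232)) (a (a (b (l 17142112) (c (b (l 17377624) (l 17099688)) (b (l 16928536) (a (l 16655368) (l 16873104))))) (b (l 17606832) (a (l 17026896) (l 17392888)))) (b (l 17892912) (l 17404848))))) (b (a (c (b (l 17114912) (a (l 16829448) (l 17207792))) (b (l 16620104) (l 16610320))) (c (l 17145728) (b (l 17128424) (a (l 16861416) (l 17224920))))) (a (a (b (l 16608112) (b (l 16609504) (b (l 16610200) (l 16610672)))) (b (c (c (l 17141488) (l 16635528)) (l 16601568)) (b (l 16601536)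 (b (l 16604272) (l 16604704))))) (c (b (a (l 17146352) (l 17512168)) (b (a (c (l 17296624) (l 16956064)) (l 17383296)) (a (c (l 17110672) (b (l 16873312) (l 16731608))) (l 17121432)))) (b (a (l 16617008) (l 16792696)) (a (b (l 16612992) (l 16597952)) (b (l 16723848) (l 16591680))))))))) (b (b (a (l 16591752) (l 16622336)) (a (l 16605552) (l 16584296))) (b (a (b (l 16597664) (l 16609936)) (b (l 16586440) (l 16587920))) (a (a (b (l 16608984) (b (l 16605192) (b (l 16608544) (a (l 16607864) (l 16604680))))) (b (l 16597664) (b (l 16599008) (a (l 16603936) (l 16598248))))) (b (b (l 16589064) (l 16595080)) (b (a (l 16593048) (l 16587304)) (a (a (l 16595240) (l 16592288)) (b (l 16587872) (l 16588256))))))))), by decide +kernel⟩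

def k15_A04pm_012_s1 : ∃ t, chk3 f_A04pm_012_s1 t 19 15 1 = true :=
  ⟨(b (c (a (b (l 18807160) (l 18697600)) (l 19016288)) (a (b (l 17444912) (b (l 17249480) (a (a (l 17159368) (l 17362312)) (l 17445568)))) (c (l 18145784) (b (l 17950216) (l 17468112))))) (c (b (c (l 18937384) (a (b (l 18252920) (l 17934976)) (l 18578928))) (b (c (l 18485504) (a (c (l 18021240) (a (l 17225096) (l 17858696))) (l 18406264))) (c (a (a (l 18392280) (l 18667800)) (l 19007240)) (a (a (c (b (l 17780152) (l 17382880)) (b (a (l 17160768) (l 17429464)) (a (c (l 16928264) (b (l 16990704) (l 16636296))) (l 16929344)))) (c (l 18035528) (b (l 17681208) (l 17290752)))) (l 17745896))))) (b (a (c (b (a (l 17409392) (l 17736648)) (a (c (l 17352112) (l 16739368)) (l 17372008))) (b (l 16565552) (a (l 16572400) (l 16608672)))) (c (b (l 18053184) (l 17821272)) (b (l 17147144) (a (l 16897816) (l 17406248))))) (a (a (b (b (l 16561592) (l 16577336))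 (b (b (l 16578256) (l 16578880)) (b (a (l 16581792) (l 16576512)) (a (l 16582472) (l 16577120))))) (b (c (c (l 17230224) (b (l 17177032) (l 16861096))) (l 16565016)) (b (l 16573632) (b (l 16569344) (a (l 16571992) (l 16567096)))))) (a (c (b (l 17252288) (c (b (l 17593552) (l 17293560)) (b (l 17043880) (a (l 16631688) (l 16977448))))) (b (c (l 16554584) (l 16557840)) (b (l 16554952) (b (l 16557728) (l 16558080))))) (c (b (l 17845768) (c (l 17820744) (b (l 17515248) (l 17305416)))) (b (c (l 17263408) (l 16679456)) (c (b (l 17073832) (a (l 16760240) (l 17010976))) (b (l 16632424) (l 16552928)))))))))), by decide +kernel⟩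

def k16_A04pm_012_s1 : ∃ t, chk3 f_A04pm_012_s1 t 5 3 1 = true :=
  ⟨(b (a (b (l 18945152) (l 19022056)) (l 6)) (b (a (a (b (l 18980776) (l 18967072)) (l 19175224)) (l 6)) (a (a (c (b (l 19311232) (a (b (l 19160200) (l 19059104)) (l 19364432))) (b (a (l 18025032) (l 18592752)) (b (a (a (l 17656944) (l 18171096)) (l 18407896)) (a (c (b (l 18176456) (a (l 17902328) (l 18134352))) (b (a (l 17278184) (l 17680792)) (b (a (c (l 17444800) (l 17108944)) (l 17539192)) (a (c (l 17240912) (b (l 16924016) (l 16768240))) (l 17180464))))) (c (l 18489608) (b (l 17992584) (l 17511152))))))) (b (l 19214704) (a (b (l 19108600) (l 18710416)) (l 19269840)))) (b (l 19487688) (l 19574040))))), by decide +kernel⟩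

def k17_A04pm_012_s1 : ∃ t, chk3 f_A04pm_012_s1 t 3 1 1 = true :=
  ⟨(b (l 6) (l 6)), by decide +kernel⟩

theorem t18_A04pm_012_s1 : ∃ t, chk3 f_A04pm_012_s1 t 36 31 1 = true := ex3_b k12_A04pm_012_s1 k13_A04pm_012_s1

theorem t19_A04pm_012_s1 : ∃ t, chk3 f_A04pm_012_s1 t 18 31 1 = true := ex3_a t18_A04pm_012_s1 k14_A04pm_012_s1

theorem t20_A04pm_012_s1 : ∃ t, chk3 f_A04pm_012_s1 t 18 15 1 = true := ex3_b k11_A04pm_012_s1 t19_A04pm_012_s1

theorem t21_A04pm_012_s1 : ∃ t, chk3 f_A04pm_012_s1 t 9 15 1 = true := ex3_a t20_A04pm_012_s1 k15_A04pm_012_s1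

theorem t22_A04pm_012_s1 : ∃ t, chk3 f_A04pm_012_s1 t 9 7 1 = true := ex3_b k10_A04pm_012_s1 t21_A04pm_012_s1

theorem t23_A04pm_012_s1 : ∃ t, chk3 f_A04pm_012_s1 t 9 3 1 = true := ex3_b k9_A04pm_012_s1 t22_A04pm_012_s1

theorem t24_A04pm_012_s1 : ∃ t, chk3 f_A04pm_012_s1 t 35 15 1 = true := ex3_b k7_A04pm_012_s1 k8_A04pm_012_s1

theorem t25_A04pm_012_s1 : ∃ t, chk3 f_A04pm_012_s1 t 35 7 1 = true := ex3_b k6_A04pm_012_s1 t24_A04pm_012_s1

theorem t26_A04pm_012_s1 : ∃ t, chk3 f_A04pm_012_s1 t 17 7 1 = true := ex3_a k5_A04pm_012_s1 t25_A04pm_012_s1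

theorem t27_A04pm_012_s1 : ∃ t, chk3 f_A04pm_012_s1 t 17 3 1 = true := ex3_b k4_A04pm_012_s1 t26_A04pm_012_s1

theorem t28_A04pm_012_s1 : ∃ t, chk3 f_A04pm_012_s1 t 16 7 1 = true := ex3_b k2_A04pm_012_s1 k3_A04pm_012_s1

theorem t29_A04pm_012_s1 : ∃ t, chk3 f_A04pm_012_s1 t 16 3 1 = true := ex3_b k1_A04pm_012_s1 t28_A04pm_012_s1

theorem t30_A04pm_012_s1 : ∃ t, chk3 f_A04pm_012_s1 t 8 3 1 = true := ex3_a t29_A04pm_012_s1 t27_A04pm_012_s1

theorem t31_A04pm_012_s1 : ∃ t, chk3 f_A04pm_012_s1 t 4 3 1 = true := ex3_a t30_A04pm_012_s1 t23_A04pm_012_s1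

theorem t32_A04pm_012_s1 : ∃ t, chk3 f_A04pm_012_s1 t 2 3 1 = true := ex3_a t31_A04pm_012_s1 k16_A04pm_012_s1

theorem t33_A04pm_012_s1 : ∃ t, chk3 f_A04pm_012_s1 t 2 1 1 = true := ex3_b k0_A04pm_012_s1 t32_A04pm_012_s1

theorem t34_A04pm_012_s1 : ∃ t, chk3 f_A04pm_012_s1 t 1 1 1 = true := ex3_a t33_A04pm_012_s1 k17_A04pm_012_s1

theorem c_A04pm_012_s1 : CertF 0 536870912 536870912 536870912 67108864 67108864 true true false .pnp 0 1 2
    ndF0q0 ndF4q1 pcF2 cut_A04pm_012_s1 Ext.none :=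
  certFK2 (fam := true) (s1 := true) (s2 := false) (a := 0) (b := 1) (c := 2) (cn := .pnp) (n1 := ndF0q0) (n2 := ndF4q1) (pc := pcF2) (cut := cut_A04pm_012_s1) (xt := Ext.none) (P1 := 0) (W1 := 536870912) (P2 := 536870912) (W2 := 536870912) (P3 := 67108864) (W3 := 67108864)
    rfl rfl rfl (fun _ => rfl) t34_A04pm_012_s1

theorem s_A04pm_012_s1 {κ x : ℝ} (hκ : κ * h0 = ken x) (hx : ((67108864 : ℕ) : ℝ) / S ≤ x)
    (hx' : x ≤ (((67108864 : ℕ) : ℝ) + (67108864 : ℕ)) / S)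
    (H : CutA (VF κ) PP tKF tL pcF (Cut.of [[⟨0, 0, 0, 67108864⟩, ⟨1, 1, 0, 67108864⟩, ⟨2, 1, 0, 67108864⟩]]) 0 1 2 0 4 (sgb true) (sgb false) x) :
    AltA (VF κ) PP tKF tL pcF [⟨3, 0, 0, 1449551462⟩] 0 1 2 0 4 (sgb true) (sgb false) x :=
  strip_altA (m := 1449551462) true rfl hκ covF00 covF41 hx hx' c_A04pm_012_s1 H (noExt_A)

noncomputable def cut_A04pm_022_s1 : Cut := Cut.of [[⟨4, 0, 0, 1449551462⟩], [⟨0, 0, 0, 67108864⟩, ⟨1, 1, 0, 67108864⟩, ⟨2, 1, 0, 67108864⟩]]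

noncomputable def f_A04pm_022_s1 : ℕ → ℕ → ℕ → ℕ → Bool := onCell 1073741824 536870912 1073741824 536870912 67108864 67108864
    (rowFK 2 true true false .pp 0 2 2 (qsf 0 536870912 1073741824 536870912 2) ndF0q0 ndF4q2 pcF2 cut_A04pm_022_s1 Ext.none)

def k0_A04pm_022_s1 : ∃ t, chk3 f_A04pm_022_s1 t 8 2 1 = true :=
  ⟨(b (a (b (b (l 14) (b (l 14) (l 1))) (l 1)) (b (a (b (l 14) (b (l 14) (b (l 14) (l 1)))) (b (a (l 14) (b (b (a (l 14) (a (l 14) (a (l 14) (b (b (c (c (l 16642608) (l 16640696)) (c (l 16638784) (l 16636856))) (c (l 16640672) (l 16637048))) (b (l 16648504) (l 16637448)))))) (a (l 14) (a (l 14) (b (l 16637800) (l 16636896))))) (a (l 14) (a (l 14) (b (l 16635480) (l 16633456)))))) (a (b (l 14) (b (l 14) (a (l 1) (l 190622575127)))) (b (a (l 14) (b (l 16717352) (l 16719704))) (b (a (l 14) (l 16737448)) (a (b (l 14) (l 186864457639)) (b (l 16666648) (l 70363460967)))))))) (a (l 1) (b (b (a (l 1) (b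 (a (l 1) (l 190622549783)) (l 1))) (l 1)) (l 1))))) (l 1)), by decide +kernel⟩

def k1_A04pm_022_s1 : ∃ t, chk3 f_A04pm_022_s1 t 36 16 1 = true :=
  ⟨(a (b (b (b (b (c (c (a (b (a (l 16640360) (l 16636960)) (l 16643632)) (a (l 16633344) (l 16630048))) (b (a (a (l 16638352) (l 16634872)) (a (l 16631440) (l 16628064))) (a (a (l 16637880) (l 16634384)) (l 16629472)))) (a (b (a (c (l 16636344) (l 16634328)) (c (l 16632776) (l 16630672))) (a (l 16634944) (l 16631320))) (b (a (c (l 16629256) (l 16627064)) (c (l 16625792) (l 16623504))) (c (l 16627288) (l 16625096))))) (c (a (l 16641872) (l 16635008)) (a (b (l 16632976) (l 16632568)) (b (l 16625776) (l 16625344))))) (a (b (c (l 16635656) (l 16632008)) (c (l 16634824) (l 16631384))) (b (c (l 16628688) (l 16624704)) (c (l 16627736) (l 16623960))))) (b (a (c (l 16634008) (l 16630840)) (c (l 16626816) (l 16623328))) (a (l 16631456) (l 16624024)))) (b (b (l 16638024) (l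 16668352)) (b (l 16667184) (l 16665976)))) (b (b (b (b (c (c (c (a (c (l 17200272) (a (l 16708328) (l 16944816))) (l 17231112)) (a (b (l 16627736) (l 16624544)) (c (b (l 16637552) (l 16759640)) (l 16620800)))) (a (a (l 16624480) (l 16621208)) (a (l 16617984) (l 16614816)))) (b (a (a (c (l 16622376) (l 16620000)) (c (l 16619016) (l 16616544))) (a (l 16617048) (l 16611120))) (a (a (l 16620752) (l 16617328)) (l 16615088)))) (c (a (l 16623112) (l 16616696)) (a (l 16618552) (l 16611760)))) (a (b (c (l 16621992) (l 16617656)) (l 16624128)) (b (l 16618408) (l 16622624)))) (b (a (l 16628408) (l 16631888)) (l 16624464))) (b (b (l 16654688) (l 16611480)) (l 16651448)))), by decide +kernel⟩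

def k2_A04pm_022_s1 : ∃ t, chk3 f_A04pm_022_s1 t 37 16 1 = true :=
  ⟨(b (b (a (c (b (c (c (l 17675848) (a (c (l 17115424) (b (l 16613088) (l 16815640))) (l 17053552))) (a (a (l 16613752) (l 16608064)) (a (l 16605056) (l 16602096)))) (c (c (l 17733616) (a (l 16867496) (l 17285792))) (l 16615424))) (b (b (a (b (a (l 16607872) (l 16604672)) (l 16605928)) (a (l 16601272) (l 16598176))) (a (l 16605184) (l 16598816))) (b (l 16612032) (l 16600520)))) (a (b (c (c (l 17636696) (a (l 16600120) (c (l 16889528) (l 16595560)))) (b (b (l 16596648) (l 16593488)) (l 16592672))) (l 16599152)) (c (c (l 17987864) (c (b (l 17062296) (l 17212056)) (b (l 16589744) (l 16704040)))) (b (b (l 16590504) (l 16586744)) (l 16585024))))) (b (a (a (l 16625168) (l 16597768)) (a (l 16591600) (l 16585664))) (a (l 16621152) (l 16608208)))) (a (b (l 16608576) (l 16637128)) (b (l 16595392) (l 16581696)))), by decide +kernel⟩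

def k3_A04pm_022_s1 : ∃ t, chk3 f_A04pm_022_s1 t 18 17 1 = true :=
  ⟨(a (a (b (b (l 16664096) (a (l 16706840) (l 16698848))) (b (l 16713864) (a (l 16739744) (l 16724472)))) (b (b (l 16690624) (l 16687704)) (a (l 16699952) (l 16684192)))) (a (b (b (l 16676016) (l 16672808)) (a (l 16671104) (l 16663664))) (b (b (l 16578344) (l 16574840)) (l 16653176)))), by decide +kernel⟩

def k4_A04pm_022_s1 : ∃ t, chk3 f_A04pm_022_s1 t 19 8 1 = true :=
  ⟨(a (b (b (c (c (a (l 18137776) (l 18520936)) (a (c (b (l 17280000) (l 17490784)) (b (b (a (l 16614536) (l 17081112)) (l 16792656)) (b (l 16861744) (l 17015864)))) (b (c (l 17888152) (l 17277672)) (l 17456208)))) (b (a (b (b (a (l 16582232) (l 16576808)) (l 16578664)) (l 16576840)) (b (a (l 16570976) (l 16565992)) (l 16566128))) (a (b (l 16574424) (l 16572216)) (l 16572840)))) (c (c (l 18012448) (a (b (l 17058208) (l 17199008)) (l 17399080))) (b (a (l 16569952) (l 16558088))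 (l 16582968)))) (a (b (l 16655160) (l 16730624)) (b (c (l 17648072) (l 16549320)) (c (l 17826056) (l 16541632))))) (c (c (b (l 18824536) (l 18595784)) (b (b (a (l 17961464) (l 18233560)) (l 17589696)) (a (l 17760440) (l 18011440)))) (b (a (b (b (c (c (l 17201872) (b (a (l 16787744) (l 17057272)) (l 16867648))) (b (l 16556912) (l 16554192))) (l 16561816)) (l 16554784)) (c (b (b (l 17242144) (l 17456024)) (l 17238008)) (b (b (a (l 16552688) (l 16564272)) (l 16703928)) (l 16549352)))) (b (l 16550224) (l 16738384))))), by decide +kernel⟩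

def k5_A04pm_022_s1 : ∃ t, chk3 f_A04pm_022_s1 t 9 9 1 = true :=
  ⟨(a (b (a (b (a (b (a (b (l 16679360) (l 186864432279)) (b (l 16653800) (l 16672992))) (a (l 1) (l 190622524567))) (b (l 16718928) (a (b (l 16666632) (l 186864407015)) (b (l 16641000) (l 16649792))))) (a (l 1) (b (l 193843739447) (l 1)))) (b (a (a (l 16705032) (a (l 16693424) (l 16685592))) (l 16665512)) (a (b (a (l 115997412679) (l 16716552)) (l 194380585399)) (b (l 16693256) (a (l 113850092487) (l 16619928)))))) (a (l 1) (b (a (l 1) (l 200286157911)) (l 1)))) (b (a (b (a (l 16736288) (l 16886560)) (a (l 16755632) (l 16964136))) (c (a (l 17976696) (l 18190480)) (b (l 16812648) (l 16814768)))) (a (b (a (b (l 97207069671) (l 201897070023)) (a (l 49962433255) (l 16865920))) (a (l 1) (l 237867996183))) (c (b (l 17994944) (a (l 196529493399) (l 18044616))) (b (l 16828328) (a (l 122440008151) (l 16798064))))))), by decide +kernel⟩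

def k6_A04pm_022_s1 : ∃ t, chk3 f_A04pm_022_s1 t 9 5 1 = true :=
  ⟨(a (l 1) (a (l 1) (b (b (b (l 274375914263) (l 1)) (l 1)) (l 1)))), by decide +kernel⟩

def k7_A04pm_022_s1 : ∃ t, chk3 f_A04pm_022_s1 t 5 2 1 = true :=
  ⟨(b (a (b (a (a (b (a (c (l 18766368) (c (b (l 17758272) (l 17680464)) (b (b (a (l 16731640) (l 16971960)) (l 16948912)) (l 16574592)))) (c (l 18949216) (c (b (l 18006160) (l 17921848)) (b (b (l 17188168) (l 17321288)) (l 16939384))))) (c (l 18648208) (b (a (l 17200352) (l 17536248)) (l 17030696)))) (c (a (b (l 19109952) (l 18893024)) (l 19055160)) (a (b (b (l 17661848) (l 17581280)) (l 17563528)) (b (b (l 18129440) (c (l 18330560) (l 17671376))) (a (l 17883920) (l 17978632)))))) (a (b (l 18390352) (l 18704784)) (a (l 18731744) (l 19090560)))) (a (a (b (c (l 18469456) (b (l 17244504) (l 17300376))) (a (l 17288008) (l 17552912))) (a (b (l 17830936) (l 17885216)) (b (l 18076416) (l 18119392))))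 (b (l 18332912) (l 18193432)))) (a (b (l 19055872) (l 18989784)) (b (l 19541528) (l 19254464)))) (b (b (a (a (a (b (c (l 18255104) (a (l 135861883671) (l 17364824))) (l 309810089399)) (a (a (l 50500754167) (l 17761480)) (l 26341889655))) (l 18163056)) (l 18946872)) (b (a (a (a (l 1) (a (l 1) (l 327527448535))) (l 17852008)) (l 18865944)) (a (a (l 1) (l 318401138583)) (l 18817184)))) (a (a (l 1) (l 345781640599)) (a (l 298000043511) (l 18848688))))), by decide +kernel⟩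

def k8_A04pm_022_s1 : ∃ t, chk3 f_A04pm_022_s1 t 2 3 1 = true :=
  ⟨(a (l 1) (a (l 1) (b (a (l 1) (l 374236712727)) (l 1)))), by decide +kernel⟩

def k9_A04pm_022_s1 : ∃ t, chk3 f_A04pm_022_s1 t 3 1 1 = true :=
  ⟨(b (a (a (b (l 6) (b (l 19281304) (l 19104840))) (l 6)) (l 6)) (a (b (a (b (l 18990896) (l 376921333399)) (l 6)) (a (l 1) (l 19025944))) (l 6))), by decide +kernel⟩

theorem t10_A04pm_022_s1 : ∃ t, chk3 f_A04pm_022_s1 t 18 16 1 = true := ex3_a k1_A04pm_022_s1 k2_A04pm_022_s1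

theorem t11_A04pm_022_s1 : ∃ t, chk3 f_A04pm_022_s1 t 18 8 1 = true := ex3_b t10_A04pm_022_s1 k3_A04pm_022_s1

theorem t12_A04pm_022_s1 : ∃ t, chk3 f_A04pm_022_s1 t 9 8 1 = true := ex3_a t11_A04pm_022_s1 k4_A04pm_022_s1

theorem t13_A04pm_022_s1 : ∃ t, chk3 f_A04pm_022_s1 t 9 4 1 = true := ex3_b t12_A04pm_022_s1 k5_A04pm_022_s1

theorem t14_A04pm_022_s1 : ∃ t, chk3 f_A04pm_022_s1 t 9 2 1 = true := ex3_b t13_A04pm_022_s1 k6_A04pm_022_s1

theorem t15_A04pm_022_s1 : ∃ t, chk3 f_A04pm_022_s1 t 4 2 1 = true := ex3_a k0_A04pm_022_s1 t14_A04pm_022_s1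

theorem t16_A04pm_022_s1 : ∃ t, chk3 f_A04pm_022_s1 t 2 2 1 = true := ex3_a t15_A04pm_022_s1 k7_A04pm_022_s1

theorem t17_A04pm_022_s1 : ∃ t, chk3 f_A04pm_022_s1 t 2 1 1 = true := ex3_b t16_A04pm_022_s1 k8_A04pm_022_s1

theorem t18_A04pm_022_s1 : ∃ t, chk3 f_A04pm_022_s1 t 1 1 1 = true := ex3_a t17_A04pm_022_s1 k9_A04pm_022_s1

theorem c_A04pm_022_s1 : CertF 0 536870912 1073741824 536870912 67108864 67108864 true true false .pp 0 2 2
    ndF0q0 ndF4q2 pcF2 cut_A04pm_022_s1 Ext.none :=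
  certFK2 (fam := true) (s1 := true) (s2 := false) (a := 0) (b := 2) (c := 2) (cn := .pp) (n1 := ndF0q0) (n2 := ndF4q2) (pc := pcF2) (cut := cut_A04pm_022_s1) (xt := Ext.none) (P1 := 0) (W1 := 536870912) (P2 := 1073741824) (W2 := 536870912) (P3 := 67108864) (W3 := 67108864)
    rfl rfl rfl (fun _ => rfl) t18_A04pm_022_s1

theorem s_A04pm_022_s1 {κ x : ℝ} (hκ : κ * h0 = ken x) (hx : ((67108864 : ℕ) : ℝ) / S ≤ x)
    (hx' : x ≤ (((67108864 : ℕ) : ℝ) + (67108864 : ℕ)) / S)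
    (H : CutA (VF κ) PP tKF tL pcF (Cut.of [[⟨0, 0, 0, 67108864⟩, ⟨1, 1, 0, 67108864⟩, ⟨2, 1, 0, 67108864⟩]]) 0 2 2 0 4 (sgb true) (sgb false) x) :
    AltA (VF κ) PP tKF tL pcF [⟨3, 0, 0, 1449551462⟩] 0 2 2 0 4 (sgb true) (sgb false) x :=
  strip_altA (m := 1449551462) true rfl hκ covF00 covF42 hx hx' c_A04pm_022_s1 H (noExt_A)

noncomputable def cut_A04pm_023_s1 : Cut := Cut.of [[⟨4, 0, 0, 1449551462⟩]]

noncomputable def f_A04pm_023_s1 : ℕ → ℕ → ℕ → ℕ → Bool := onCell 1610612736 536870912 1073741824 536870912 67108864 67108864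
    (rowFK 2 true true false .up 0 2 3 (qsf 0 536870912 1073741824 536870912 3) ndF0q0 ndF4q2 pcF3 cut_A04pm_023_s1 Ext.none)

def k0_A04pm_023_s1 : ∃ t, chk3 f_A04pm_023_s1 t 1 1 1 = true :=
  ⟨(a (l 6) (l 6)), by decide +kernel⟩

theorem c_A04pm_023_s1 : CertF 0 536870912 1073741824 536870912 67108864 67108864 true true false .up 0 2 3
    ndF0q0 ndF4q2 pcF3 cut_A04pm_023_s1 Ext.none :=
  certFK2 (fam := true) (s1 := true) (s2 := false) (a := 0) (b := 2) (c := 3) (cn := .up) (n1 := ndF0q0) (n2 := ndF4q2) (pc := pcF3) (cut := cut_A04pm_023_s1) (xt := Ext.none) (P1 := 0) (W1 := 536870912) (P2 := 1073741824) (W2 := 536870912) (P3 := 67108864) (W3 := 67108864)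
    rfl rfl rfl (fun _ => rfl) k0_A04pm_023_s1

theorem s_A04pm_023_s1 {κ x : ℝ} (hκ : κ * h0 = ken x) (hx : ((67108864 : ℕ) : ℝ) / S ≤ x)
    (hx' : x ≤ (((67108864 : ℕ) : ℝ) + (67108864 : ℕ)) / S) :
    AltA (VF κ) PP tKF tL pcF [⟨3, 0, 0, 1449551462⟩] 0 2 3 0 4 (sgb true) (sgb false) x :=
  strip_altA (m := 1449551462) true rfl hκ covF00 covF42 hx hx' c_A04pm_023_s1 cutA_nil (noExt_A)

noncomputable def cut_A04pm_033_s1 : Cut := Cut.of [[⟨4, 0, 0, 1449551462⟩]]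

noncomputable def f_A04pm_033_s1 : ℕ → ℕ → ℕ → ℕ → Bool := onCell 1610612736 536870912 0 1230186008 67108864 67108864
    (rowFK 2 true true false .pnn 0 3 3 (qsf 0 536870912 0 1230186008 3) ndF0q0 ndF4q3 pcF3 cut_A04pm_033_s1 Ext.none)

def k0_A04pm_033_s1 : ∃ t, chk3 f_A04pm_033_s1 t 1 1 1 = true :=
  ⟨(b (l 6) (l 6)), by decide +kernel⟩

theorem c_A04pm_033_s1 : CertF 0 536870912 0 1230186008 67108864 67108864 true true false .pnn 0 3 3
    ndF0q0 ndF4q3 pcF3 cut_A04pm_033_s1 Ext.none :=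
  certFK2 (fam := true) (s1 := true) (s2 := false) (a := 0) (b := 3) (c := 3) (cn := .pnn) (n1 := ndF0q0) (n2 := ndF4q3) (pc := pcF3) (cut := cut_A04pm_033_s1) (xt := Ext.none) (P1 := 0) (W1 := 536870912) (P2 := 0) (W2 := 1230186008) (P3 := 67108864) (W3 := 67108864)
    rfl rfl rfl (fun _ => rfl) k0_A04pm_033_s1

theorem s_A04pm_033_s1 {κ x : ℝ} (hκ : κ * h0 = ken x) (hx : ((67108864 : ℕ) : ℝ) / S ≤ x)
    (hx' : x ≤ (((67108864 : ℕ) : ℝ) + (67108864 : ℕ)) / S) :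
    AltA (VF κ) PP tKF tL pcF [⟨3, 0, 0, 1449551462⟩] 0 3 3 0 4 (sgb true) (sgb false) x :=
  strip_altA (m := 1449551462) true rfl hκ covF00 covF43 hx hx' c_A04pm_033_s1 cutA_nil (noExt_A)

noncomputable def cut_A04pm_101_s1 : Cut := Cut.of [[⟨4, 0, 0, 1449551462⟩]]

noncomputable def xt_A04pm_101_s1 : Ext := strExt dd true true false .u0 .s0m .u0m .npn 1 0 1 rfl rfl gf1 vv ndF0q1 ndF4q0

noncomputable def f_A04pm_101_s1 : ℕ → ℕ → ℕ → ℕ → Bool := onCell 536870912 536870912 536870912 536870912 67108864 67108864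
    (rowFK 1 true true false .npn 1 0 1 (qsf 536870912 536870912 0 536870912 1) ndF0q1 ndF4q0 pcF1 cut_A04pm_101_s1 xt_A04pm_101_s1)

def k0_A04pm_101_s1 : ∃ t, chk3 f_A04pm_101_s1 t 1 1 1 = true :=
  ⟨(a (b (b (a (b (l 550133775) (l 550215695)) (a (l 548875279) (l 1))) (a (b (l 550640655) (l 552322319)) (b (a (l 17077400) (l 17196888)) (l 17378264)))) (b (a (b (l 553675535) (l 17796032)) (l 18123280)) (a (b (l 17879016) (l 18306768)) (b (l 18063216) (l 6))))) (b (a (b (l 1) (a (l 17677536) (l 1))) (l 1)) (a (b (l 17850056) (l 6)) (l 6)))), by decide +kernel⟩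

theorem c_A04pm_101_s1 : CertF 536870912 536870912 0 536870912 67108864 67108864 true true false .npn 1 0 1
    ndF0q1 ndF4q0 pcF1 cut_A04pm_101_s1 xt_A04pm_101_s1 :=
  certFK1 (fam := true) (s1 := true) (s2 := false) (a := 1) (b := 0) (c := 1) (cn := .npn) (n1 := ndF0q1) (n2 := ndF4q0) (pc := pcF1) (cut := cut_A04pm_101_s1) (xt := xt_A04pm_101_s1) (P1 := 536870912) (W1 := 536870912) (P2 := 0) (W2 := 536870912) (P3 := 67108864) (W3 := 67108864)
    rfl rfl rfl (fun _ => rfl) k0_A04pm_101_s1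

theorem s_A04pm_101_s1 {κ x : ℝ} (hκ : κ * h0 = ken x) (hx : ((67108864 : ℕ) : ℝ) / S ≤ x)
    (hx' : x ≤ (((67108864 : ℕ) : ℝ) + (67108864 : ℕ)) / S) :
    AltA (VF κ) PP tKF tL pcF [⟨3, 0, 0, 1449551462⟩] 1 0 1 0 4 (sgb true) (sgb false) x :=
  strip_altA (m := 1449551462) true rfl hκ covF01 covF40 hx hx' c_A04pm_101_s1 cutA_nil ((okx hx hx').extA (T := tt) (sideF hx hx') hκ rfl rfl (.O 1 true) (.N 0 false) (Or.inr rfl))

noncomputable def cut_A04pm_102_s1 : Cut := Cut.of [[⟨4, 0, 0, 1449551462⟩]]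

noncomputable def f_A04pm_102_s1 : ℕ → ℕ → ℕ → ℕ → Bool := onCell 536870912 536870912 1073741824 536870912 67108864 67108864
    (rowFK 1 true true false .npp 1 0 2 (qsf 536870912 536870912 0 536870912 2) ndF0q1 ndF4q0 pcF2 cut_A04pm_102_s1 Ext.none)

def k0_A04pm_102_s1 : ∃ t, chk3 f_A04pm_102_s1 t 1 1 1 = true :=
  ⟨(a (b (b (b (b (a (l 18591016) (l 6)) (l 6)) (l 6)) (l 6)) (l 6)) (l 6)), by decide +kernel⟩

theorem c_A04pm_102_s1 : CertF 536870912 536870912 0 536870912 67108864 67108864 true true false .npp 1 0 2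
    ndF0q1 ndF4q0 pcF2 cut_A04pm_102_s1 Ext.none :=
  certFK1 (fam := true) (s1 := true) (s2 := false) (a := 1) (b := 0) (c := 2) (cn := .npp) (n1 := ndF0q1) (n2 := ndF4q0) (pc := pcF2) (cut := cut_A04pm_102_s1) (xt := Ext.none) (P1 := 536870912) (W1 := 536870912) (P2 := 0) (W2 := 536870912) (P3 := 67108864) (W3 := 67108864)
    rfl rfl rfl (fun _ => rfl) k0_A04pm_102_s1

theorem s_A04pm_102_s1 {κ x : ℝ} (hκ : κ * h0 = ken x) (hx : ((67108864 : ℕ) : ℝ) / S ≤ x)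
    (hx' : x ≤ (((67108864 : ℕ) : ℝ) + (67108864 : ℕ)) / S) :
    AltA (VF κ) PP tKF tL pcF [⟨3, 0, 0, 1449551462⟩] 1 0 2 0 4 (sgb true) (sgb false) x :=
  strip_altA (m := 1449551462) true rfl hκ covF01 covF40 hx hx' c_A04pm_102_s1 cutA_nil (noExt_A)

noncomputable def cut_A04pm_112_s1 : Cut := Cut.of [[⟨4, 0, 0, 1449551462⟩]]

noncomputable def f_A04pm_112_s1 : ℕ → ℕ → ℕ → ℕ → Bool := onCell 536870912 536870912 1073741824 536870912 67108864 67108864
    (rowFK 1 true true false .dn 1 1 2 (qsf 536870912 536870912 536870912 536870912 2) ndF0q1 ndF4q1 pcF2 cut_A04pm_112_s1 Ext.none)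

def k0_A04pm_112_s1 : ∃ t, chk3 f_A04pm_112_s1 t 1 1 1 = true :=
  ⟨(a (b (b (b (b (a (l 18579096) (l 1)) (l 6)) (l 6)) (l 6)) (l 6)) (l 6)), by decide +kernel⟩

theorem c_A04pm_112_s1 : CertF 536870912 536870912 536870912 536870912 67108864 67108864 true true false .dn 1 1 2
    ndF0q1 ndF4q1 pcF2 cut_A04pm_112_s1 Ext.none :=
  certFK1 (fam := true) (s1 := true) (s2 := false) (a := 1) (b := 1) (c := 2) (cn := .dn) (n1 := ndF0q1) (n2 := ndF4q1) (pc := pcF2) (cut := cut_A04pm_112_s1) (xt := Ext.none) (P1 := 536870912) (W1 := 536870912) (P2 := 536870912) (W2 := 536870912) (P3 := 67108864) (W3 := 67108864)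
    rfl rfl rfl (fun _ => rfl) k0_A04pm_112_s1

theorem s_A04pm_112_s1 {κ x : ℝ} (hκ : κ * h0 = ken x) (hx : ((67108864 : ℕ) : ℝ) / S ≤ x)
    (hx' : x ≤ (((67108864 : ℕ) : ℝ) + (67108864 : ℕ)) / S) :
    AltA (VF κ) PP tKF tL pcF [⟨3, 0, 0, 1449551462⟩] 1 1 2 0 4 (sgb true) (sgb false) x :=
  strip_altA (m := 1449551462) true rfl hκ covF01 covF41 hx hx' c_A04pm_112_s1 cutA_nil (noExt_A)

noncomputable def cut_A04pm_113_s1 : Cut := Cut.of [[⟨4, 0, 0, 1449551462⟩]]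

noncomputable def f_A04pm_113_s1 : ℕ → ℕ → ℕ → ℕ → Bool := onCell 536870912 536870912 1610612736 536870912 67108864 67108864
    (rowFK 1 true true false .nn 1 1 3 (qsf 536870912 536870912 536870912 536870912 3) ndF0q1 ndF4q1 pcF3 cut_A04pm_113_s1 Ext.none)

def k0_A04pm_113_s1 : ∃ t, chk3 f_A04pm_113_s1 t 1 1 1 = true :=
  ⟨(l 6), by decide +kernel⟩

theorem c_A04pm_113_s1 : CertF 536870912 536870912 536870912 536870912 67108864 67108864 true true false .nn 1 1 3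
    ndF0q1 ndF4q1 pcF3 cut_A04pm_113_s1 Ext.none :=
  certFK1 (fam := true) (s1 := true) (s2 := false) (a := 1) (b := 1) (c := 3) (cn := .nn) (n1 := ndF0q1) (n2 := ndF4q1) (pc := pcF3) (cut := cut_A04pm_113_s1) (xt := Ext.none) (P1 := 536870912) (W1 := 536870912) (P2 := 536870912) (W2 := 536870912) (P3 := 67108864) (W3 := 67108864)
    rfl rfl rfl (fun _ => rfl) k0_A04pm_113_s1

theorem s_A04pm_113_s1 {κ x : ℝ} (hκ : κ * h0 = ken x) (hx : ((67108864 : ℕ) : ℝ) / S ≤ x)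
    (hx' : x ≤ (((67108864 : ℕ) : ℝ) + (67108864 : ℕ)) / S) :
    AltA (VF κ) PP tKF tL pcF [⟨3, 0, 0, 1449551462⟩] 1 1 3 0 4 (sgb true) (sgb false) x :=
  strip_altA (m := 1449551462) true rfl hκ covF01 covF41 hx hx' c_A04pm_113_s1 cutA_nil (noExt_A)

noncomputable def cut_A04pm_123_s1 : Cut := Cut.of [[⟨4, 0, 0, 1449551462⟩]]

noncomputable def f_A04pm_123_s1 : ℕ → ℕ → ℕ → ℕ → Bool := onCell 536870912 536870912 1073741824 536870912 67108864 67108864
    (rowFK 0 true true false .npn 1 2 3 (qsf 536870912 536870912 1073741824 536870912 3) ndF0q1 ndF4q2 pcF3 cut_A04pm_123_s1 Ext.none)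

def k0_A04pm_123_s1 : ∃ t, chk3 f_A04pm_123_s1 t 1 1 1 = true :=
  ⟨(l 6), by decide +kernel⟩

theorem c_A04pm_123_s1 : CertF 536870912 536870912 1073741824 536870912 67108864 67108864 true true false .npn 1 2 3
    ndF0q1 ndF4q2 pcF3 cut_A04pm_123_s1 Ext.none :=
  certFK0 (fam := true) (s1 := true) (s2 := false) (a := 1) (b := 2) (c := 3) (cn := .npn) (n1 := ndF0q1) (n2 := ndF4q2) (pc := pcF3) (cut := cut_A04pm_123_s1) (xt := Ext.none) (P1 := 536870912) (W1 := 536870912) (P2 := 1073741824) (W2 := 536870912) (P3 := 67108864) (W3 := 67108864)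
    rfl rfl rfl k0_A04pm_123_s1

theorem s_A04pm_123_s1 {κ x : ℝ} (hκ : κ * h0 = ken x) (hx : ((67108864 : ℕ) : ℝ) / S ≤ x)
    (hx' : x ≤ (((67108864 : ℕ) : ℝ) + (67108864 : ℕ)) / S) :
    AltA (VF κ) PP tKF tL pcF [⟨3, 0, 0, 1449551462⟩] 1 2 3 0 4 (sgb true) (sgb false) x :=
  strip_altA (m := 1449551462) true rfl hκ covF01 covF42 hx hx' c_A04pm_123_s1 cutA_nil (noExt_A)

noncomputable def cut_A04pm_133_s1 : Cut := Cut.of [[⟨4, 0, 0, 1449551462⟩]]

noncomputable def f_A04pm_133_s1 : ℕ → ℕ → ℕ → ℕ → Bool := onCell 536870912 536870912 0 1230186008 67108864 67108864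
    (rowFK 0 true true false .dn 1 3 3 (qsf 536870912 536870912 0 1230186008 3) ndF0q1 ndF4q3 pcF3 cut_A04pm_133_s1 Ext.none)

def k0_A04pm_133_s1 : ∃ t, chk3 f_A04pm_133_s1 t 1 1 1 = true :=
  ⟨(l 6), by decide +kernel⟩

theorem c_A04pm_133_s1 : CertF 536870912 536870912 0 1230186008 67108864 67108864 true true false .dn 1 3 3
    ndF0q1 ndF4q3 pcF3 cut_A04pm_133_s1 Ext.none :=
  certFK0 (fam := true) (s1 := true) (s2 := false) (a := 1) (b := 3) (c := 3) (cn := .dn) (n1 := ndF0q1) (n2 := ndF4q3) (pc := pcF3) (cut := cut_A04pm_133_s1) (xt := Ext.none) (P1 := 536870912) (W1 := 536870912) (P2 := 0) (W2 := 1230186008) (P3 := 67108864) (W3 := 67108864)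
    rfl rfl rfl k0_A04pm_133_s1

theorem s_A04pm_133_s1 {κ x : ℝ} (hκ : κ * h0 = ken x) (hx : ((67108864 : ℕ) : ℝ) / S ≤ x)
    (hx' : x ≤ (((67108864 : ℕ) : ℝ) + (67108864 : ℕ)) / S) :
    AltA (VF κ) PP tKF tL pcF [⟨3, 0, 0, 1449551462⟩] 1 3 3 0 4 (sgb true) (sgb false) x :=
  strip_altA (m := 1449551462) true rfl hκ covF01 covF43 hx hx' c_A04pm_133_s1 cutA_nil (noExt_A)

noncomputable def cut_A04pm_202_s1 : Cut := Cut.of [[⟨4, 0, 0, 1449551462⟩]]

noncomputable def f_A04pm_202_s1 : ℕ → ℕ → ℕ → ℕ → Bool := onCell 0 536870912 0 536870912 67108864 67108864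
    (rowFK 0 true true false .pp 2 0 2 (qsf 0 536870912 0 536870912 2) ndF0q2 ndF4q0 pcF2 cut_A04pm_202_s1 Ext.none)

def k0_A04pm_202_s1 : ∃ t, chk3 f_A04pm_202_s1 t 1 1 1 = true :=
  ⟨(l 6), by decide +kernel⟩

theorem c_A04pm_202_s1 : CertF 0 536870912 0 536870912 67108864 67108864 true true false .pp 2 0 2
    ndF0q2 ndF4q0 pcF2 cut_A04pm_202_s1 Ext.none :=
  certFK0 (fam := true) (s1 := true) (s2 := false) (a := 2) (b := 0) (c := 2) (cn := .pp) (n1 := ndF0q2) (n2 := ndF4q0) (pc := pcF2) (cut := cut_A04pm_202_s1) (xt := Ext.none) (P1 := 0) (W1 := 536870912) (P2 := 0) (W2 := 536870912) (P3 := 67108864) (W3 := 67108864)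
    rfl rfl rfl k0_A04pm_202_s1

theorem s_A04pm_202_s1 {κ x : ℝ} (hκ : κ * h0 = ken x) (hx : ((67108864 : ℕ) : ℝ) / S ≤ x)
    (hx' : x ≤ (((67108864 : ℕ) : ℝ) + (67108864 : ℕ)) / S) :
    AltA (VF κ) PP tKF tL pcF [⟨3, 0, 0, 1449551462⟩] 2 0 2 0 4 (sgb true) (sgb false) x :=
  strip_altA (m := 1449551462) true rfl hκ covF02 covF40 hx hx' c_A04pm_202_s1 cutA_nil (noExt_A)

noncomputable def cut_A04pm_203_s1 : Cut := Cut.of [[⟨4, 0, 0, 1449551462⟩]]

noncomputable def f_A04pm_203_s1 : ℕ → ℕ → ℕ → ℕ → Bool := onCell 0 536870912 0 536870912 67108864 67108864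
    (rowFK 0 true true false .up 2 0 3 (qsf 0 536870912 0 536870912 3) ndF0q2 ndF4q0 pcF3 cut_A04pm_203_s1 Ext.none)

def k0_A04pm_203_s1 : ∃ t, chk3 f_A04pm_203_s1 t 1 1 1 = true :=
  ⟨(l 6), by decide +kernel⟩

theorem c_A04pm_203_s1 : CertF 0 536870912 0 536870912 67108864 67108864 true true false .up 2 0 3
    ndF0q2 ndF4q0 pcF3 cut_A04pm_203_s1 Ext.none :=
  certFK0 (fam := true) (s1 := true) (s2 := false) (a := 2) (b := 0) (c := 3) (cn := .up) (n1 := ndF0q2) (n2 := ndF4q0) (pc := pcF3) (cut := cut_A04pm_203_s1) (xt := Ext.none) (P1 := 0) (W1 := 536870912) (P2 := 0) (W2 := 536870912) (P3 := 67108864) (W3 := 67108864)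
    rfl rfl rfl k0_A04pm_203_s1

theorem s_A04pm_203_s1 {κ x : ℝ} (hκ : κ * h0 = ken x) (hx : ((67108864 : ℕ) : ℝ) / S ≤ x)
    (hx' : x ≤ (((67108864 : ℕ) : ℝ) + (67108864 : ℕ)) / S) :
    AltA (VF κ) PP tKF tL pcF [⟨3, 0, 0, 1449551462⟩] 2 0 3 0 4 (sgb true) (sgb false) x :=
  strip_altA (m := 1449551462) true rfl hκ covF02 covF40 hx hx' c_A04pm_203_s1 cutA_nil (noExt_A)

noncomputable def cut_A04pm_213_s1 : Cut := Cut.of [[⟨4, 0, 0, 1449551462⟩]]

noncomputable def f_A04pm_213_s1 : ℕ → ℕ → ℕ → ℕ → Bool := onCell 0 536870912 536870912 536870912 67108864 67108864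
    (rowFK 0 true true false .pnn 2 1 3 (qsf 0 536870912 536870912 536870912 3) ndF0q2 ndF4q1 pcF3 cut_A04pm_213_s1 Ext.none)

def k0_A04pm_213_s1 : ∃ t, chk3 f_A04pm_213_s1 t 1 1 1 = true :=
  ⟨(l 6), by decide +kernel⟩

theorem c_A04pm_213_s1 : CertF 0 536870912 536870912 536870912 67108864 67108864 true true false .pnn 2 1 3
    ndF0q2 ndF4q1 pcF3 cut_A04pm_213_s1 Ext.none :=
  certFK0 (fam := true) (s1 := true) (s2 := false) (a := 2) (b := 1) (c := 3) (cn := .pnn) (n1 := ndF0q2) (n2 := ndF4q1) (pc := pcF3) (cut := cut_A04pm_213_s1) (xt := Ext.none) (P1 := 0) (W1 := 536870912) (P2 := 536870912) (W2 := 536870912) (P3 := 67108864) (W3 := 67108864)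
    rfl rfl rfl k0_A04pm_213_s1

theorem s_A04pm_213_s1 {κ x : ℝ} (hκ : κ * h0 = ken x) (hx : ((67108864 : ℕ) : ℝ) / S ≤ x)
    (hx' : x ≤ (((67108864 : ℕ) : ℝ) + (67108864 : ℕ)) / S) :
    AltA (VF κ) PP tKF tL pcF [⟨3, 0, 0, 1449551462⟩] 2 1 3 0 4 (sgb true) (sgb false) x :=
  strip_altA (m := 1449551462) true rfl hκ covF02 covF41 hx hx' c_A04pm_213_s1 cutA_nil (noExt_A)

noncomputable def cut_A04mm_001_s1 : Cut := Cut.of [[⟨4, 0, 0, 1449551462⟩]]

noncomputable def f_A04mm_001_s1 : ℕ → ℕ → ℕ → ℕ → Bool := onCell 0 536870912 0 536870912 67108864 67108864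
    (rowFK 0 true false false .up 0 0 1 (qsf 0 536870912 0 536870912 1) ndF0q0 ndF4q0 pcF1 cut_A04mm_001_s1 Ext.none)

def k0_A04mm_001_s1 : ∃ t, chk3 f_A04mm_001_s1 t 1 1 1 = true :=
  ⟨(l 4), by decide +kernel⟩

theorem c_A04mm_001_s1 : CertF 0 536870912 0 536870912 67108864 67108864 true false false .up 0 0 1
    ndF0q0 ndF4q0 pcF1 cut_A04mm_001_s1 Ext.none :=
  certFK0 (fam := true) (s1 := false) (s2 := false) (a := 0) (b := 0) (c := 1) (cn := .up) (n1 := ndF0q0) (n2 := ndF4q0) (pc := pcF1) (cut := cut_A04mm_001_s1) (xt := Ext.none) (P1 := 0) (W1 := 536870912) (P2 := 0) (W2 := 536870912) (P3 := 67108864) (W3 := 67108864)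
    rfl rfl rfl k0_A04mm_001_s1

theorem s_A04mm_001_s1 {κ x : ℝ} (hκ : κ * h0 = ken x) (hx : ((67108864 : ℕ) : ℝ) / S ≤ x)
    (hx' : x ≤ (((67108864 : ℕ) : ℝ) + (67108864 : ℕ)) / S) :
    AltA (VF κ) PP tKF tL pcF [⟨3, 0, 0, 1449551462⟩] 0 0 1 0 4 (sgb false) (sgb false) x :=
  strip_altA (m := 1449551462) true rfl hκ covF00 covF40 hx hx' c_A04mm_001_s1 cutA_nil (noExt_A)

noncomputable def cut_A04mm_011_s1 : Cut := Cut.of [[⟨4, 0, 0, 1449551462⟩]]

noncomputable def f_A04mm_011_s1 : ℕ → ℕ → ℕ → ℕ → Bool := onCell 0 536870912 536870912 536870912 67108864 67108864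
    (rowFK 0 true false false .pnn 0 1 1 (qsf 0 536870912 536870912 536870912 1) ndF0q0 ndF4q1 pcF1 cut_A04mm_011_s1 Ext.none)

def k0_A04mm_011_s1 : ∃ t, chk3 f_A04mm_011_s1 t 1 1 1 = true :=
  ⟨(l 4), by decide +kernel⟩

theorem c_A04mm_011_s1 : CertF 0 536870912 536870912 536870912 67108864 67108864 true false false .pnn 0 1 1
    ndF0q0 ndF4q1 pcF1 cut_A04mm_011_s1 Ext.none :=
  certFK0 (fam := true) (s1 := false) (s2 := false) (a := 0) (b := 1) (c := 1) (cn := .pnn) (n1 := ndF0q0) (n2 := ndF4q1) (pc := pcF1) (cut := cut_A04mm_011_s1) (xt := Ext.none) (P1 := 0) (W1 := 536870912) (P2 := 536870912) (W2 := 536870912) (P3 := 67108864) (W3 := 67108864)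
    rfl rfl rfl k0_A04mm_011_s1

theorem s_A04mm_011_s1 {κ x : ℝ} (hκ : κ * h0 = ken x) (hx : ((67108864 : ℕ) : ℝ) / S ≤ x)
    (hx' : x ≤ (((67108864 : ℕ) : ℝ) + (67108864 : ℕ)) / S) :
    AltA (VF κ) PP tKF tL pcF [⟨3, 0, 0, 1449551462⟩] 0 1 1 0 4 (sgb false) (sgb false) x :=
  strip_altA (m := 1449551462) true rfl hκ covF00 covF41 hx hx' c_A04mm_011_s1 cutA_nil (noExt_A)

noncomputable def cut_A04mm_012_s1 : Cut := Cut.of [[⟨4, 0, 0, 1449551462⟩]]

noncomputable def f_A04mm_012_s1 : ℕ → ℕ → ℕ → ℕ → Bool := onCell 0 536870912 536870912 536870912 67108864 67108864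
    (rowFK 0 true false false .pnp 0 1 2 (qsf 0 536870912 536870912 536870912 2) ndF0q0 ndF4q1 pcF2 cut_A04mm_012_s1 Ext.none)

def k0_A04mm_012_s1 : ∃ t, chk3 f_A04mm_012_s1 t 1 1 1 = true :=
  ⟨(l 4), by decide +kernel⟩

theorem c_A04mm_012_s1 : CertF 0 536870912 536870912 536870912 67108864 67108864 true false false .pnp 0 1 2
    ndF0q0 ndF4q1 pcF2 cut_A04mm_012_s1 Ext.none :=
  certFK0 (fam := true) (s1 := false) (s2 := false) (a := 0) (b := 1) (c := 2) (cn := .pnp) (n1 := ndF0q0) (n2 := ndF4q1) (pc := pcF2) (cut := cut_A04mm_012_s1) (xt := Ext.none) (P1 := 0) (W1 := 536870912) (P2 := 536870912) (W2 := 536870912) (P3 := 67108864) (W3 := 67108864)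
    rfl rfl rfl k0_A04mm_012_s1

theorem s_A04mm_012_s1 {κ x : ℝ} (hκ : κ * h0 = ken x) (hx : ((67108864 : ℕ) : ℝ) / S ≤ x)
    (hx' : x ≤ (((67108864 : ℕ) : ℝ) + (67108864 : ℕ)) / S) :
    AltA (VF κ) PP tKF tL pcF [⟨3, 0, 0, 1449551462⟩] 0 1 2 0 4 (sgb false) (sgb false) x :=
  strip_altA (m := 1449551462) true rfl hκ covF00 covF41 hx hx' c_A04mm_012_s1 cutA_nil (noExt_A)

noncomputable def cut_A04mm_022_s1 : Cut := Cut.of [[⟨4, 0, 0, 1449551462⟩]]

noncomputable def f_A04mm_022_s1 : ℕ → ℕ → ℕ → ℕ → Bool := onCell 0 536870912 1073741824 536870912 67108864 67108864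
    (rowFK 0 true false false .pp 0 2 2 (qsf 0 536870912 1073741824 536870912 2) ndF0q0 ndF4q2 pcF2 cut_A04mm_022_s1 Ext.none)

def k0_A04mm_022_s1 : ∃ t, chk3 f_A04mm_022_s1 t 1 1 1 = true :=
  ⟨(l 4), by decide +kernel⟩

theorem c_A04mm_022_s1 : CertF 0 536870912 1073741824 536870912 67108864 67108864 true false false .pp 0 2 2
    ndF0q0 ndF4q2 pcF2 cut_A04mm_022_s1 Ext.none :=
  certFK0 (fam := true) (s1 := false) (s2 := false) (a := 0) (b := 2) (c := 2) (cn := .pp) (n1 := ndF0q0) (n2 := ndF4q2) (pc := pcF2) (cut := cut_A04mm_022_s1) (xt := Ext.none) (P1 := 0) (W1 := 536870912) (P2 := 1073741824) (W2 := 536870912) (P3 := 67108864) (W3 := 67108864)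
    rfl rfl rfl k0_A04mm_022_s1

theorem s_A04mm_022_s1 {κ x : ℝ} (hκ : κ * h0 = ken x) (hx : ((67108864 : ℕ) : ℝ) / S ≤ x)
    (hx' : x ≤ (((67108864 : ℕ) : ℝ) + (67108864 : ℕ)) / S) :
    AltA (VF κ) PP tKF tL pcF [⟨3, 0, 0, 1449551462⟩] 0 2 2 0 4 (sgb false) (sgb false) x :=
  strip_altA (m := 1449551462) true rfl hκ covF00 covF42 hx hx' c_A04mm_022_s1 cutA_nil (noExt_A)

noncomputable def cut_A04mm_023_s1 : Cut := Cut.of [[⟨4, 0, 0, 1449551462⟩]]

noncomputable def f_A04mm_023_s1 : ℕ → ℕ → ℕ → ℕ → Bool := onCell 0 536870912 1073741824 536870912 67108864 67108864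
    (rowFK 0 true false false .up 0 2 3 (qsf 0 536870912 1073741824 536870912 3) ndF0q0 ndF4q2 pcF3 cut_A04mm_023_s1 Ext.none)

def k0_A04mm_023_s1 : ∃ t, chk3 f_A04mm_023_s1 t 1 1 1 = true :=
  ⟨(l 4), by decide +kernel⟩

theorem c_A04mm_023_s1 : CertF 0 536870912 1073741824 536870912 67108864 67108864 true false false .up 0 2 3
    ndF0q0 ndF4q2 pcF3 cut_A04mm_023_s1 Ext.none :=
  certFK0 (fam := true) (s1 := false) (s2 := false) (a := 0) (b := 2) (c := 3) (cn := .up) (n1 := ndF0q0) (n2 := ndF4q2) (pc := pcF3) (cut := cut_A04mm_023_s1) (xt := Ext.none) (P1 := 0) (W1 := 536870912) (P2 := 1073741824) (W2 := 536870912) (P3 := 67108864) (W3 := 67108864)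
    rfl rfl rfl k0_A04mm_023_s1

theorem s_A04mm_023_s1 {κ x : ℝ} (hκ : κ * h0 = ken x) (hx : ((67108864 : ℕ) : ℝ) / S ≤ x)
    (hx' : x ≤ (((67108864 : ℕ) : ℝ) + (67108864 : ℕ)) / S) :
    AltA (VF κ) PP tKF tL pcF [⟨3, 0, 0, 1449551462⟩] 0 2 3 0 4 (sgb false) (sgb false) x :=
  strip_altA (m := 1449551462) true rfl hκ covF00 covF42 hx hx' c_A04mm_023_s1 cutA_nil (noExt_A)

noncomputable def cut_A04mm_033_s1 : Cut := Cut.of [[⟨4, 0, 0, 1449551462⟩]]

noncomputable def f_A04mm_033_s1 : ℕ → ℕ → ℕ → ℕ → Bool := onCell 0 536870912 0 1230186008 67108864 67108864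
    (rowFK 0 true false false .pnn 0 3 3 (qsf 0 536870912 0 1230186008 3) ndF0q0 ndF4q3 pcF3 cut_A04mm_033_s1 Ext.none)

def k0_A04mm_033_s1 : ∃ t, chk3 f_A04mm_033_s1 t 1 1 1 = true :=
  ⟨(l 4), by decide +kernel⟩

theorem c_A04mm_033_s1 : CertF 0 536870912 0 1230186008 67108864 67108864 true false false .pnn 0 3 3
    ndF0q0 ndF4q3 pcF3 cut_A04mm_033_s1 Ext.none :=
  certFK0 (fam := true) (s1 := false) (s2 := false) (a := 0) (b := 3) (c := 3) (cn := .pnn) (n1 := ndF0q0) (n2 := ndF4q3) (pc := pcF3) (cut := cut_A04mm_033_s1) (xt := Ext.none) (P1 := 0) (W1 := 536870912) (P2 := 0) (W2 := 1230186008) (P3 := 67108864) (W3 := 67108864)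
    rfl rfl rfl k0_A04mm_033_s1

theorem s_A04mm_033_s1 {κ x : ℝ} (hκ : κ * h0 = ken x) (hx : ((67108864 : ℕ) : ℝ) / S ≤ x)
    (hx' : x ≤ (((67108864 : ℕ) : ℝ) + (67108864 : ℕ)) / S) :
    AltA (VF κ) PP tKF tL pcF [⟨3, 0, 0, 1449551462⟩] 0 3 3 0 4 (sgb false) (sgb false) x :=
  strip_altA (m := 1449551462) true rfl hκ covF00 covF43 hx hx' c_A04mm_033_s1 cutA_nil (noExt_A)

noncomputable def cut_A04mm_101_s1 : Cut := Cut.of [[⟨4, 0, 0, 1449551462⟩]]

noncomputable def f_A04mm_101_s1 : ℕ → ℕ → ℕ → ℕ → Bool := onCell 536870912 536870912 0 536870912 67108864 67108864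
    (rowFK 0 true false false .npn 1 0 1 (qsf 536870912 536870912 0 536870912 1) ndF0q1 ndF4q0 pcF1 cut_A04mm_101_s1 Ext.none)

def k0_A04mm_101_s1 : ∃ t, chk3 f_A04mm_101_s1 t 1 1 1 = true :=
  ⟨(l 4), by decide +kernel⟩

theorem c_A04mm_101_s1 : CertF 536870912 536870912 0 536870912 67108864 67108864 true false false .npn 1 0 1
    ndF0q1 ndF4q0 pcF1 cut_A04mm_101_s1 Ext.none :=
  certFK0 (fam := true) (s1 := false) (s2 := false) (a := 1) (b := 0) (c := 1) (cn := .npn) (n1 := ndF0q1) (n2 := ndF4q0) (pc := pcF1) (cut := cut_A04mm_101_s1) (xt := Ext.none) (P1 := 536870912) (W1 := 536870912) (P2 := 0) (W2 := 536870912) (P3 := 67108864) (W3 := 67108864)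
    rfl rfl rfl k0_A04mm_101_s1

theorem s_A04mm_101_s1 {κ x : ℝ} (hκ : κ * h0 = ken x) (hx : ((67108864 : ℕ) : ℝ) / S ≤ x)
    (hx' : x ≤ (((67108864 : ℕ) : ℝ) + (67108864 : ℕ)) / S) :
    AltA (VF κ) PP tKF tL pcF [⟨3, 0, 0, 1449551462⟩] 1 0 1 0 4 (sgb false) (sgb false) x :=
  strip_altA (m := 1449551462) true rfl hκ covF01 covF40 hx hx' c_A04mm_101_s1 cutA_nil (noExt_A)

noncomputable def cut_A04mm_102_s1 : Cut := Cut.of [[⟨4, 0, 0, 1449551462⟩]]

noncomputable def f_A04mm_102_s1 : ℕ → ℕ → ℕ → ℕ → Bool := onCell 536870912 536870912 0 536870912 67108864 67108864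
    (rowFK 0 true false false .npp 1 0 2 (qsf 536870912 536870912 0 536870912 2) ndF0q1 ndF4q0 pcF2 cut_A04mm_102_s1 Ext.none)

def k0_A04mm_102_s1 : ∃ t, chk3 f_A04mm_102_s1 t 1 1 1 = true :=
  ⟨(l 4), by decide +kernel⟩

theorem c_A04mm_102_s1 : CertF 536870912 536870912 0 536870912 67108864 67108864 true false false .npp 1 0 2
    ndF0q1 ndF4q0 pcF2 cut_A04mm_102_s1 Ext.none :=
  certFK0 (fam := true) (s1 := false) (s2 := false) (a := 1) (b := 0) (c := 2) (cn := .npp) (n1 := ndF0q1) (n2 := ndF4q0) (pc := pcF2) (cut := cut_A04mm_102_s1) (xt := Ext.none) (P1 := 536870912) (W1 := 536870912) (P2 := 0) (W2 := 536870912) (P3 := 67108864) (W3 := 67108864)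
    rfl rfl rfl k0_A04mm_102_s1

theorem s_A04mm_102_s1 {κ x : ℝ} (hκ : κ * h0 = ken x) (hx : ((67108864 : ℕ) : ℝ) / S ≤ x)
    (hx' : x ≤ (((67108864 : ℕ) : ℝ) + (67108864 : ℕ)) / S) :
    AltA (VF κ) PP tKF tL pcF [⟨3, 0, 0, 1449551462⟩] 1 0 2 0 4 (sgb false) (sgb false) x :=
  strip_altA (m := 1449551462) true rfl hκ covF01 covF40 hx hx' c_A04mm_102_s1 cutA_nil (noExt_A)

noncomputable def cut_A04mm_112_s1 : Cut := Cut.of [[⟨4, 0, 0, 1449551462⟩]]

noncomputable def f_A04mm_112_s1 : ℕ → ℕ → ℕ → ℕ → Bool := onCell 536870912 536870912 536870912 536870912 67108864 67108864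
    (rowFK 0 true false false .dn 1 1 2 (qsf 536870912 536870912 536870912 536870912 2) ndF0q1 ndF4q1 pcF2 cut_A04mm_112_s1 Ext.none)

def k0_A04mm_112_s1 : ∃ t, chk3 f_A04mm_112_s1 t 1 1 1 = true :=
  ⟨(l 4), by decide +kernel⟩

theorem c_A04mm_112_s1 : CertF 536870912 536870912 536870912 536870912 67108864 67108864 true false false .dn 1 1 2
    ndF0q1 ndF4q1 pcF2 cut_A04mm_112_s1 Ext.none :=
  certFK0 (fam := true) (s1 := false) (s2 := false) (a := 1) (b := 1) (c := 2) (cn := .dn) (n1 := ndF0q1) (n2 := ndF4q1) (pc := pcF2) (cut := cut_A04mm_112_s1) (xt := Ext.none) (P1 := 536870912) (W1 := 536870912) (P2 := 536870912) (W2 := 536870912) (P3 := 67108864) (W3 := 67108864)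
    rfl rfl rfl k0_A04mm_112_s1

theorem s_A04mm_112_s1 {κ x : ℝ} (hκ : κ * h0 = ken x) (hx : ((67108864 : ℕ) : ℝ) / S ≤ x)
    (hx' : x ≤ (((67108864 : ℕ) : ℝ) + (67108864 : ℕ)) / S) :
    AltA (VF κ) PP tKF tL pcF [⟨3, 0, 0, 1449551462⟩] 1 1 2 0 4 (sgb false) (sgb false) x :=
  strip_altA (m := 1449551462) true rfl hκ covF01 covF41 hx hx' c_A04mm_112_s1 cutA_nil (noExt_A)

noncomputable def cut_A04mm_113_s1 : Cut := Cut.of [[⟨4, 0, 0, 1449551462⟩]]

noncomputable def f_A04mm_113_s1 : ℕ → ℕ → ℕ → ℕ → Bool := onCell 536870912 536870912 536870912 536870912 67108864 67108864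
    (rowFK 0 true false false .nn 1 1 3 (qsf 536870912 536870912 536870912 536870912 3) ndF0q1 ndF4q1 pcF3 cut_A04mm_113_s1 Ext.none)

def k0_A04mm_113_s1 : ∃ t, chk3 f_A04mm_113_s1 t 1 1 1 = true :=
  ⟨(l 4), by decide +kernel⟩

theorem c_A04mm_113_s1 : CertF 536870912 536870912 536870912 536870912 67108864 67108864 true false false .nn 1 1 3
    ndF0q1 ndF4q1 pcF3 cut_A04mm_113_s1 Ext.none :=
  certFK0 (fam := true) (s1 := false) (s2 := false) (a := 1) (b := 1) (c := 3) (cn := .nn) (n1 := ndF0q1) (n2 := ndF4q1) (pc := pcF3) (cut := cut_A04mm_113_s1) (xt := Ext.none) (P1 := 536870912) (W1 := 536870912) (P2 := 536870912) (W2 := 536870912) (P3 := 67108864) (W3 := 67108864)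
    rfl rfl rfl k0_A04mm_113_s1

theorem s_A04mm_113_s1 {κ x : ℝ} (hκ : κ * h0 = ken x) (hx : ((67108864 : ℕ) : ℝ) / S ≤ x)
    (hx' : x ≤ (((67108864 : ℕ) : ℝ) + (67108864 : ℕ)) / S) :
    AltA (VF κ) PP tKF tL pcF [⟨3, 0, 0, 1449551462⟩] 1 1 3 0 4 (sgb false) (sgb false) x :=
  strip_altA (m := 1449551462) true rfl hκ covF01 covF41 hx hx' c_A04mm_113_s1 cutA_nil (noExt_A)

noncomputable def cut_A04mm_123_s1 : Cut := Cut.of [[⟨4, 0, 0, 1449551462⟩]]

noncomputable def f_A04mm_123_s1 : ℕ → ℕ → ℕ → ℕ → Bool := onCell 536870912 536870912 1073741824 536870912 67108864 67108864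
    (rowFK 0 true false false .npn 1 2 3 (qsf 536870912 536870912 1073741824 536870912 3) ndF0q1 ndF4q2 pcF3 cut_A04mm_123_s1 Ext.none)

def k0_A04mm_123_s1 : ∃ t, chk3 f_A04mm_123_s1 t 1 1 1 = true :=
  ⟨(l 4), by decide +kernel⟩

theorem c_A04mm_123_s1 : CertF 536870912 536870912 1073741824 536870912 67108864 67108864 true false false .npn 1 2 3
    ndF0q1 ndF4q2 pcF3 cut_A04mm_123_s1 Ext.none :=
  certFK0 (fam := true) (s1 := false) (s2 := false) (a := 1) (b := 2) (c := 3) (cn := .npn) (n1 := ndF0q1) (n2 := ndF4q2) (pc := pcF3) (cut := cut_A04mm_123_s1) (xt := Ext.none) (P1 := 536870912) (W1 := 536870912) (P2 := 1073741824) (W2 := 536870912) (P3 := 67108864) (W3 := 67108864)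
    rfl rfl rfl k0_A04mm_123_s1

theorem s_A04mm_123_s1 {κ x : ℝ} (hκ : κ * h0 = ken x) (hx : ((67108864 : ℕ) : ℝ) / S ≤ x)
    (hx' : x ≤ (((67108864 : ℕ) : ℝ) + (67108864 : ℕ)) / S) :
    AltA (VF κ) PP tKF tL pcF [⟨3, 0, 0, 1449551462⟩] 1 2 3 0 4 (sgb false) (sgb false) x :=
  strip_altA (m := 1449551462) true rfl hκ covF01 covF42 hx hx' c_A04mm_123_s1 cutA_nil (noExt_A)

noncomputable def cut_A04mm_133_s1 : Cut := Cut.of [[⟨4, 0, 0, 1449551462⟩]]

noncomputable def f_A04mm_133_s1 : ℕ → ℕ → ℕ → ℕ → Bool := onCell 536870912 536870912 0 1230186008 67108864 67108864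
    (rowFK 0 true false false .dn 1 3 3 (qsf 536870912 536870912 0 1230186008 3) ndF0q1 ndF4q3 pcF3 cut_A04mm_133_s1 Ext.none)

def k0_A04mm_133_s1 : ∃ t, chk3 f_A04mm_133_s1 t 1 1 1 = true :=
  ⟨(l 4), by decide +kernel⟩

theorem c_A04mm_133_s1 : CertF 536870912 536870912 0 1230186008 67108864 67108864 true false false .dn 1 3 3
    ndF0q1 ndF4q3 pcF3 cut_A04mm_133_s1 Ext.none :=
  certFK0 (fam := true) (s1 := false) (s2 := false) (a := 1) (b := 3) (c := 3) (cn := .dn) (n1 := ndF0q1) (n2 := ndF4q3) (pc := pcF3) (cut := cut_A04mm_133_s1) (xt := Ext.none) (P1 := 536870912) (W1 := 536870912) (P2 := 0) (W2 := 1230186008) (P3 := 67108864) (W3 := 67108864)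
    rfl rfl rfl k0_A04mm_133_s1

theorem s_A04mm_133_s1 {κ x : ℝ} (hκ : κ * h0 = ken x) (hx : ((67108864 : ℕ) : ℝ) / S ≤ x)
    (hx' : x ≤ (((67108864 : ℕ) : ℝ) + (67108864 : ℕ)) / S) :
    AltA (VF κ) PP tKF tL pcF [⟨3, 0, 0, 1449551462⟩] 1 3 3 0 4 (sgb false) (sgb false) x :=
  strip_altA (m := 1449551462) true rfl hκ covF01 covF43 hx hx' c_A04mm_133_s1 cutA_nil (noExt_A)

noncomputable def cut_A04mm_202_s1 : Cut := Cut.of [[⟨4, 0, 0, 1449551462⟩]]

noncomputable def f_A04mm_202_s1 : ℕ → ℕ → ℕ → ℕ → Bool := onCell 0 536870912 0 536870912 67108864 67108864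
    (rowFK 0 true false false .pp 2 0 2 (qsf 0 536870912 0 536870912 2) ndF0q2 ndF4q0 pcF2 cut_A04mm_202_s1 Ext.none)

def k0_A04mm_202_s1 : ∃ t, chk3 f_A04mm_202_s1 t 1 1 1 = true :=
  ⟨(l 4), by decide +kernel⟩

theorem c_A04mm_202_s1 : CertF 0 536870912 0 536870912 67108864 67108864 true false false .pp 2 0 2
    ndF0q2 ndF4q0 pcF2 cut_A04mm_202_s1 Ext.none :=
  certFK0 (fam := true) (s1 := false) (s2 := false) (a := 2) (b := 0) (c := 2) (cn := .pp) (n1 := ndF0q2) (n2 := ndF4q0) (pc := pcF2) (cut := cut_A04mm_202_s1) (xt := Ext.none) (P1 := 0) (W1 := 536870912) (P2 := 0) (W2 := 536870912) (P3 := 67108864) (W3 := 67108864)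
    rfl rfl rfl k0_A04mm_202_s1

theorem s_A04mm_202_s1 {κ x : ℝ} (hκ : κ * h0 = ken x) (hx : ((67108864 : ℕ) : ℝ) / S ≤ x)
    (hx' : x ≤ (((67108864 : ℕ) : ℝ) + (67108864 : ℕ)) / S) :
    AltA (VF κ) PP tKF tL pcF [⟨3, 0, 0, 1449551462⟩] 2 0 2 0 4 (sgb false) (sgb false) x :=
  strip_altA (m := 1449551462) true rfl hκ covF02 covF40 hx hx' c_A04mm_202_s1 cutA_nil (noExt_A)

noncomputable def cut_A04mm_203_s1 : Cut := Cut.of [[⟨4, 0, 0, 1449551462⟩]]

noncomputable def f_A04mm_203_s1 : ℕ → ℕ → ℕ → ℕ → Bool := onCell 0 536870912 0 536870912 67108864 67108864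
    (rowFK 0 true false false .up 2 0 3 (qsf 0 536870912 0 536870912 3) ndF0q2 ndF4q0 pcF3 cut_A04mm_203_s1 Ext.none)

def k0_A04mm_203_s1 : ∃ t, chk3 f_A04mm_203_s1 t 1 1 1 = true :=
  ⟨(l 4), by decide +kernel⟩

theorem c_A04mm_203_s1 : CertF 0 536870912 0 536870912 67108864 67108864 true false false .up 2 0 3
    ndF0q2 ndF4q0 pcF3 cut_A04mm_203_s1 Ext.none :=
  certFK0 (fam := true) (s1 := false) (s2 := false) (a := 2) (b := 0) (c := 3) (cn := .up) (n1 := ndF0q2) (n2 := ndF4q0) (pc := pcF3) (cut := cut_A04mm_203_s1) (xt := Ext.none) (P1 := 0) (W1 := 536870912) (P2 := 0) (W2 := 536870912) (P3 := 67108864) (W3 := 67108864)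
    rfl rfl rfl k0_A04mm_203_s1

theorem s_A04mm_203_s1 {κ x : ℝ} (hκ : κ * h0 = ken x) (hx : ((67108864 : ℕ) : ℝ) / S ≤ x)
    (hx' : x ≤ (((67108864 : ℕ) : ℝ) + (67108864 : ℕ)) / S) :
    AltA (VF κ) PP tKF tL pcF [⟨3, 0, 0, 1449551462⟩] 2 0 3 0 4 (sgb false) (sgb false) x :=
  strip_altA (m := 1449551462) true rfl hκ covF02 covF40 hx hx' c_A04mm_203_s1 cutA_nil (noExt_A)

noncomputable def cut_A04mm_213_s1 : Cut := Cut.of [[⟨4, 0, 0, 1449551462⟩]]

noncomputable def f_A04mm_213_s1 : ℕ → ℕ → ℕ → ℕ → Bool := onCell 0 536870912 536870912 536870912 67108864 67108864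
    (rowFK 0 true false false .pnn 2 1 3 (qsf 0 536870912 536870912 536870912 3) ndF0q2 ndF4q1 pcF3 cut_A04mm_213_s1 Ext.none)

def k0_A04mm_213_s1 : ∃ t, chk3 f_A04mm_213_s1 t 1 1 1 = true :=
  ⟨(l 4), by decide +kernel⟩

theorem c_A04mm_213_s1 : CertF 0 536870912 536870912 536870912 67108864 67108864 true false false .pnn 2 1 3
    ndF0q2 ndF4q1 pcF3 cut_A04mm_213_s1 Ext.none :=
  certFK0 (fam := true) (s1 := false) (s2 := false) (a := 2) (b := 1) (c := 3) (cn := .pnn) (n1 := ndF0q2) (n2 := ndF4q1) (pc := pcF3) (cut := cut_A04mm_213_s1) (xt := Ext.none) (P1 := 0) (W1 := 536870912) (P2 := 536870912) (W2 := 536870912) (P3 := 67108864) (W3 := 67108864)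
    rfl rfl rfl k0_A04mm_213_s1

theorem s_A04mm_213_s1 {κ x : ℝ} (hκ : κ * h0 = ken x) (hx : ((67108864 : ℕ) : ℝ) / S ≤ x)
    (hx' : x ≤ (((67108864 : ℕ) : ℝ) + (67108864 : ℕ)) / S) :
    AltA (VF κ) PP tKF tL pcF [⟨3, 0, 0, 1449551462⟩] 2 1 3 0 4 (sgb false) (sgb false) x :=
  strip_altA (m := 1449551462) true rfl hκ covF02 covF41 hx hx' c_A04mm_213_s1 cutA_nil (noExt_A)

noncomputable def cut_B00pp_001_s1 : Cut := Cut.of [[⟨4, 0, 0, 1449551462⟩]]

noncomputable def f_B00pp_001_s1 : ℕ → ℕ → ℕ → ℕ → Bool := onCell 0 536870912 0 536870912 67108864 67108864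
    (rowFK 1 false true true .up 0 0 1 (qsf 0 536870912 536870912 536870912 0) ndF0q0 ndF0q1 pcF0 cut_B00pp_001_s1 Ext.none)

def k0_B00pp_001_s1 : ∃ t, chk3 f_B00pp_001_s1 t 1 1 1 = true :=
  ⟨(l 3), by decide +kernel⟩

theorem c_B00pp_001_s1 : CertF 0 536870912 536870912 536870912 67108864 67108864 false true true .up 0 0 1
    ndF0q0 ndF0q1 pcF0 cut_B00pp_001_s1 Ext.none :=
  certFK1 (fam := false) (s1 := true) (s2 := true) (a := 0) (b := 0) (c := 1) (cn := .up) (n1 := ndF0q0) (n2 := ndF0q1) (pc := pcF0) (cut := cut_B00pp_001_s1) (xt := Ext.none) (P1 := 0) (W1 := 536870912) (P2 := 536870912) (W2 := 536870912) (P3 := 67108864) (W3 := 67108864)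
    rfl rfl rfl (fun _ => rfl) k0_B00pp_001_s1

theorem s_B00pp_001_s1 {κ x : ℝ} (hκ : κ * h0 = ken x) (hx : ((67108864 : ℕ) : ℝ) / S ≤ x)
    (hx' : x ≤ (((67108864 : ℕ) : ℝ) + (67108864 : ℕ)) / S) :
    AltB (VF κ) PP tKF tL pcF [⟨3, 0, 0, 1449551462⟩] 0 0 1 0 0 (sgb true) (sgb true) x :=
  strip_altB (m := 1449551462) true rfl hκ covF00 covF01 hx hx' c_B00pp_001_s1 cutB_nil (noExt_B)

noncomputable def cut_B00pp_001_s3 : Cut := Cut.of [[⟨3, 0, 0, 2845415833⟩]]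

noncomputable def f_B00pp_001_s3 : ℕ → ℕ → ℕ → ℕ → Bool := onCell 0 536870912 536870912 536870912 67108864 67108864
    (rowFK 0 false true true .up 0 0 1 (qsf 0 536870912 536870912 536870912 0) ndF0q0 ndF0q1 pcF0 cut_B00pp_001_s3 Ext.none)

def k0_B00pp_001_s3 : ∃ t, chk3 f_B00pp_001_s3 t 1 1 1 = true :=
  ⟨(l 6), by decide +kernel⟩

theorem c_B00pp_001_s3 : CertF 0 536870912 536870912 536870912 67108864 67108864 false true true .up 0 0 1
    ndF0q0 ndF0q1 pcF0 cut_B00pp_001_s3 Ext.none :=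
  certFK0 (fam := false) (s1 := true) (s2 := true) (a := 0) (b := 0) (c := 1) (cn := .up) (n1 := ndF0q0) (n2 := ndF0q1) (pc := pcF0) (cut := cut_B00pp_001_s3) (xt := Ext.none) (P1 := 0) (W1 := 536870912) (P2 := 536870912) (W2 := 536870912) (P3 := 67108864) (W3 := 67108864)
    rfl rfl rfl k0_B00pp_001_s3

theorem s_B00pp_001_s3 {κ x : ℝ} (hκ : κ * h0 = ken x) (hx : ((67108864 : ℕ) : ℝ) / S ≤ x)
    (hx' : x ≤ (((67108864 : ℕ) : ℝ) + (67108864 : ℕ)) / S) :
    AltB (VF κ) PP tKF tL pcF [⟨4, 0, 0, 2845415833⟩] 0 0 1 0 0 (sgb true) (sgb true) x :=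
  strip_altB (m := 2845415833) false rfl hκ covF00 covF01 hx hx' c_B00pp_001_s3 cutB_nil (noExt_B)

noncomputable def cut_B00pp_011_s1 : Cut := Cut.of [[⟨4, 0, 0, 1449551462⟩], [⟨0, 0, 0, 67108864⟩, ⟨1, 1, 0, 67108864⟩, ⟨2, 1, 0, 67108864⟩]]

noncomputable def f_B00pp_011_s1 : ℕ → ℕ → ℕ → ℕ → Bool := onCell 536870912 536870912 536870912 536870912 67108864 67108864
    (rowFK 2 false true true .pnn 0 1 1 (qsf 0 536870912 536870912 536870912 1) ndF0q0 ndF0q1 pcF1 cut_B00pp_011_s1 Ext.none)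

def k0_B00pp_011_s1 : ∃ t, chk3 f_B00pp_011_s1 t 1 1 1 = true :=
  ⟨(a (l 3) (b (l 3) (a (l 3) (b (l 3) (b (l 3) (a (l 3) (b (l 3) (a (l 3) (l 14))))))))), by decide +kernel⟩

theorem c_B00pp_011_s1 : CertF 0 536870912 536870912 536870912 67108864 67108864 false true true .pnn 0 1 1
    ndF0q0 ndF0q1 pcF1 cut_B00pp_011_s1 Ext.none :=
  certFK2 (fam := false) (s1 := true) (s2 := true) (a := 0) (b := 1) (c := 1) (cn := .pnn) (n1 := ndF0q0) (n2 := ndF0q1) (pc := pcF1) (cut := cut_B00pp_011_s1) (xt := Ext.none) (P1 := 0) (W1 := 536870912) (P2 := 536870912) (W2 := 536870912) (P3 := 67108864) (W3 := 67108864)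
    rfl rfl rfl (fun _ => rfl) k0_B00pp_011_s1

theorem s_B00pp_011_s1 {κ x : ℝ} (hκ : κ * h0 = ken x) (hx : ((67108864 : ℕ) : ℝ) / S ≤ x)
    (hx' : x ≤ (((67108864 : ℕ) : ℝ) + (67108864 : ℕ)) / S)
    (H : CutB (VF κ) PP tKF tL pcF (Cut.of [[⟨0, 0, 0, 67108864⟩, ⟨1, 1, 0, 67108864⟩, ⟨2, 1, 0, 67108864⟩]]) 0 1 1 0 0 (sgb true) (sgb true) x) :
    AltB (VF κ) PP tKF tL pcF [⟨3, 0, 0, 1449551462⟩] 0 1 1 0 0 (sgb true) (sgb true) x :=
  strip_altB (m := 1449551462) true rfl hκ covF00 covF01 hx hx' c_B00pp_011_s1 H (noExt_B)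

noncomputable def cut_B00pp_011_s3 : Cut := Cut.of [[⟨3, 0, 0, 2845415833⟩], [⟨0, 0, 0, 67108864⟩, ⟨1, 1, 0, 67108864⟩, ⟨2, 1, 0, 67108864⟩]]

noncomputable def f_B00pp_011_s3 : ℕ → ℕ → ℕ → ℕ → Bool := onCell 0 536870912 536870912 536870912 67108864 67108864
    (rowFK 0 false true true .pnn 0 1 1 (qsf 0 536870912 536870912 536870912 1) ndF0q0 ndF0q1 pcF1 cut_B00pp_011_s3 Ext.none)

def k0_B00pp_011_s3 : ∃ t, chk3 f_B00pp_011_s3 t 1 1 1 = true :=
  ⟨(l 6), by decide +kernel⟩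

theorem c_B00pp_011_s3 : CertF 0 536870912 536870912 536870912 67108864 67108864 false true true .pnn 0 1 1
    ndF0q0 ndF0q1 pcF1 cut_B00pp_011_s3 Ext.none :=
  certFK0 (fam := false) (s1 := true) (s2 := true) (a := 0) (b := 1) (c := 1) (cn := .pnn) (n1 := ndF0q0) (n2 := ndF0q1) (pc := pcF1) (cut := cut_B00pp_011_s3) (xt := Ext.none) (P1 := 0) (W1 := 536870912) (P2 := 536870912) (W2 := 536870912) (P3 := 67108864) (W3 := 67108864)
    rfl rfl rfl k0_B00pp_011_s3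

theorem s_B00pp_011_s3 {κ x : ℝ} (hκ : κ * h0 = ken x) (hx : ((67108864 : ℕ) : ℝ) / S ≤ x)
    (hx' : x ≤ (((67108864 : ℕ) : ℝ) + (67108864 : ℕ)) / S)
    (H : CutB (VF κ) PP tKF tL pcF (Cut.of [[⟨0, 0, 0, 67108864⟩, ⟨1, 1, 0, 67108864⟩, ⟨2, 1, 0, 67108864⟩]]) 0 1 1 0 0 (sgb true) (sgb true) x) :
    AltB (VF κ) PP tKF tL pcF [⟨4, 0, 0, 2845415833⟩] 0 1 1 0 0 (sgb true) (sgb true) x :=
  strip_altB (m := 2845415833) false rfl hκ covF00 covF01 hx hx' c_B00pp_011_s3 H (noExt_B)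

noncomputable def cut_B00pp_012_s1 : Cut := Cut.of [[⟨4, 0, 0, 1449551462⟩], [⟨0, 0, 0, 16777216⟩, ⟨1, 1, 0, 16777216⟩, ⟨2, 1, 0, 16777216⟩]]

noncomputable def xt_B00pp_012_s1 : Ext := strExt dd false true true .u0 .u2 .u0m .pnp 0 1 2 rfl rfl gf1 vv ndF0q0 ndF0q2

noncomputable def f_B00pp_012_s1 : ℕ → ℕ → ℕ → ℕ → Bool := onCell 0 536870912 0 536870912 67108864 67108864
    (rowFK 0 false true true .pnp 0 1 2 (qsf 0 536870912 0 536870912 1) ndF0q0 ndF0q2 pcF1 cut_B00pp_012_s1 xt_B00pp_012_s1)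

def k0_B00pp_012_s1 : ∃ t, chk3 f_B00pp_012_s1 t 2 2 1 = true :=
  ⟨(a (a (l 2) (b (l 2) (b (l 2) (a (l 2) (a (l 2) (b (l 2) (a (l 2) (b (l 17196656) (l 17182584))))))))) (a (b (l 6) (b (a (l 6) (a (l 17530040) (l 17499888))) (a (a (c (l 551601167) (b (l 540942095) (l 16914480))) (b (l 17413264) (l 17325752))) (a (l 548977423) (l 17319976))))) (b (a (l 6) (l 17497296)) (b (a (l 17422040) (l 17296264)) (a (l 549173519) (l 548479503)))))), by decide +kernel⟩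

def k1_B00pp_012_s1 : ∃ t, chk3 f_B00pp_012_s1 t 4 6 1 = true :=
  ⟨(a (l 2) (a (b (l 2) (a (a (l 2) (b (l 2) (b (a (l 2) (l 533692943)) (l 533982223)))) (b (b (a (l 2) (a (l 2) (l 534148111))) (a (c (l 537231887) (l 534092815)) (c (l 543154447) (l 534129679)))) (b (a (b (l 534169359) (l 533950479)) (l 16787216)) (a (l 534030095) (l 16762072)))))) (b (b (a (a (l 2) (b (l 2) (l 16899880))) (a (b (l 16885872) (l 16873664)) (l 16973128))) (b (a (a (l 2) (l 539962895)) (l 16891080)) (a (a (l 535756815) (l 16807448)) (l 16859560)))) (b (b (a (a (l 535699727) (l 16877656)) (l 16827016)) (a (a (l 16742816) (l 16863832)) (a (l 16937320) (l 16978032)))) (a (b (a (l 16748832) (l 16849848)) (a (l 16755584) (l 16751488))) (b (a (l 16908320) (l 16937680)) (a (l 16794064) (l 16769504)))))))), by decide +kernel⟩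

def k2_B00pp_012_s1 : ∃ t, chk3 f_B00pp_012_s1 t 4 14 1 = true :=
  ⟨(a (b (b (l 2) (a (l 2) (a (l 2) (a (l 2) (l 534223119))))) (a (l 2) (b (a (l 2) (a (a (l 533796879) (l 533650959)) (l 534279183))) (a (a (a (l 2) (a (l 2) (l 533926415))) (a (c (l 534093327) (l 534071823)) (l 533936399))) (a (b (l 534354447) (l 534433807)) (l 534433807)))))) (a (a (b (a (b (l 534053903) (l 533913871)) (b (l 534099215) (l 533961999))) (a (b (l 534325007) (l 534482191)) (b (l 534107663) (l 534267663)))) (b (b (a (l 534149903) (l 534205967)) (l 535510543)) (a (l 535047951) (b (l 534493711) (l 534659087))))) (a (b (b (l 537584143) (l 538592015)) (a (l 536291343) (l 541351439))) (b (b (b (l 544910351) (l 545607439)) (l 545871119)) (c (l 555044623) (l 537944079)))))), by decide +kernel⟩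

def k3_B00pp_012_s1 : ∃ t, chk3 f_B00pp_012_s1 t 8 30 1 = true :=
  ⟨(a (b (a (l 2) (a (l 2) (a (l 2) (a (l 2) (l 533930511))))) (a (l 2) (b (a (l 2) (a (a (a (l 2) (l 533636879)) (c (l 533864207) (l 533830415))) (a (l 533773839) (l 533431567)))) (a (a (l 2) (a (b (l 2) (l 534135055)) (b (l 533874191) (l 533793807)))) (a (a (b (l 533801231) (l 533720591)) (l 533688335)) (b (l 534141455) (l 534059279))))))) (a (a (a (b (a (l 533857295) (l 533783823)) (b (l 534117391) (b (l 533725967) (l 533643023)))) (b (a (l 533710095) (l 533635599)) (b (l 533633295) (b (l 533423631) (l 533738767))))) (b (a (a (l 533561103) (l 533486095)) (l 533794063)) (b (a (b (l 533484815) (l 533530127)) (l 533659919)) (a (b (c (l 533583375) (l 533300495)) (l 533623311)) (b (l 533461519) (b (l 533497615) (l 533521423))))))) (a (b (a (l 533679887) (l 533566991)) (b (l 534425615) (b (l 534229007) (l 3)))) (b (l 534602511) (b (l 534204431) (l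 3)))))), by decide +kernel⟩

def k4_B00pp_012_s1 : ∃ t, chk3 f_B00pp_012_s1 t 8 31 1 = true :=
  ⟨(a (b (a (b (b (l 2) (a (l 2) (a (l 2) (a (l 2) (a (l 2) (l 533911311)))))) (a (l 2) (a (l 14) (a (l 14) (a (l 14) (a (l 14) (l 533510927))))))) (a (a (a (a (a (b (l 533659663) (l 533492239)) (b (l 533641231) (l 533473551))) (b (l 533880335) (l 533712143))) (a (b (l 533843471) (l 533674767)) (b (l 533537807) (l 533637135)))) (a (b (a (l 533500687) (l 533463567)) (b (l 533885199) (l 533798415))) (b (l 533939983) (l 533768719)))) (a (a (b (l 533597199) (l 533693455)) (a (l 533459727) (l 533421583))) (a (l 533630991) (l 533592847))))) (b (a (a (l 14) (a (l 14) (a (l 14) (a (l 14) (b (l 533655055) (l 533565967)))))) (b (a (a (a (a (l 533617679) (l 533311759)) (a (l 533274127) (l 533236239))) (a (l 533709583) (l 3))) (l 3)) (l 3))) (a (a (l 14) (a (l 14) (l 3))) (l 3)))) (b (b (a (a (a (l 533925647) (l 533809167)) (a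 (l 533694223) (l 3))) (l 3)) (l 3)) (l 3))), by decide +kernel⟩

def k5_B00pp_012_s1 : ∃ t, chk3 f_B00pp_012_s1 t 9 15 1 = true :=
  ⟨(b (b (a (a (a (l 534385423) (l 534441743)) (a (l 534503439) (l 3))) (l 3)) (l 3)) (l 3)), by decide +kernel⟩

def k6_B00pp_012_s1 : ∃ t, chk3 f_B00pp_012_s1 t 5 3 1 = true :=
  ⟨(b (a (a (b (b (a (l 16956728) (l 17229616)) (a (c (l 17309488) (l 541697295)) (l 549495055))) (b (a (a (l 16809488) (l 16856480)) (c (l 554954511) (l 545235983))) (a (b (l 547581455) (l 548987663)) (b (l 550592271) (l 550954511))))) (a (b (c (l 553856527) (l 546295823)) (b (l 550995983) (b (l 551507215) (l 551874063)))) (b (l 550379535) (c (l 554820623) (b (l 548133903) (l 548776719)))))) (b (a (l 548905743) (l 549445391)) (b (a (l 551120655) (l 550216463)) (b (l 551236623) (l 3))))) (a (b (b (a (a (b (c (l 555748879) (l 542959375)) (l 549757967)) (c (l 556583951) (l 546522383))) (c (l 556299279) (a (l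 548464399) (l 3)))) (l 3)) (l 3)) (l 3))), by decide +kernel⟩

def k7_B00pp_012_s1 : ∃ t, chk3 f_B00pp_012_s1 t 3 1 1 = true :=
  ⟨(b (a (b (a (b (l 17361944) (l 17168712)) (b (l 17138208) (l 543781135))) (a (a (l 547106063) (l 546107151)) (l 544604687))) (b (a (l 543411215) (l 542657295)) (a (l 542790927) (l 542811663)))) (a (b (b (a (l 547783439) (l 3)) (l 3)) (l 3)) (l 3))), by decide +kernel⟩

theorem t8_B00pp_012_s1 : ∃ t, chk3 f_B00pp_012_s1 t 8 15 1 = true := ex3_b k3_B00pp_012_s1 k4_B00pp_012_s1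

theorem t9_B00pp_012_s1 : ∃ t, chk3 f_B00pp_012_s1 t 4 15 1 = true := ex3_a t8_B00pp_012_s1 k5_B00pp_012_s1

theorem t10_B00pp_012_s1 : ∃ t, chk3 f_B00pp_012_s1 t 4 7 1 = true := ex3_b k2_B00pp_012_s1 t9_B00pp_012_s1

theorem t11_B00pp_012_s1 : ∃ t, chk3 f_B00pp_012_s1 t 4 3 1 = true := ex3_b k1_B00pp_012_s1 t10_B00pp_012_s1

theorem t12_B00pp_012_s1 : ∃ t, chk3 f_B00pp_012_s1 t 2 3 1 = true := ex3_a t11_B00pp_012_s1 k6_B00pp_012_s1

theorem t13_B00pp_012_s1 : ∃ t, chk3 f_B00pp_012_s1 t 2 1 1 = true := ex3_b k0_B00pp_012_s1 t12_B00pp_012_s1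

theorem t14_B00pp_012_s1 : ∃ t, chk3 f_B00pp_012_s1 t 1 1 1 = true := ex3_a t13_B00pp_012_s1 k7_B00pp_012_s1

theorem c_B00pp_012_s1 : CertF 0 536870912 0 536870912 67108864 67108864 false true true .pnp 0 1 2
    ndF0q0 ndF0q2 pcF1 cut_B00pp_012_s1 xt_B00pp_012_s1 :=
  certFK0 (fam := false) (s1 := true) (s2 := true) (a := 0) (b := 1) (c := 2) (cn := .pnp) (n1 := ndF0q0) (n2 := ndF0q2) (pc := pcF1) (cut := cut_B00pp_012_s1) (xt := xt_B00pp_012_s1) (P1 := 0) (W1 := 536870912) (P2 := 0) (W2 := 536870912) (P3 := 67108864) (W3 := 67108864)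
    rfl rfl rfl t14_B00pp_012_s1

theorem s_B00pp_012_s1 {κ x : ℝ} (hκ : κ * h0 = ken x) (hx : ((67108864 : ℕ) : ℝ) / S ≤ x)
    (hx' : x ≤ (((67108864 : ℕ) : ℝ) + (67108864 : ℕ)) / S)
    (H : CutB (VF κ) PP tKF tL pcF (Cut.of [[⟨0, 0, 0, 16777216⟩, ⟨1, 1, 0, 16777216⟩, ⟨2, 1, 0, 16777216⟩]]) 0 1 2 0 0 (sgb true) (sgb true) x) :
    AltB (VF κ) PP tKF tL pcF [⟨3, 0, 0, 1449551462⟩] 0 1 2 0 0 (sgb true) (sgb true) x :=
  strip_altB (m := 1449551462) true rfl hκ covF00 covF02 hx hx' c_B00pp_012_s1 H ((okx hx hx').extB (T := tt) (sideF hx hx') hκ rfl rfl (.O 0 true) (.O 2 true) (Or.inr rfl))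

noncomputable def cut_B00pp_012_s3 : Cut := Cut.of [[⟨3, 0, 0, 2845415833⟩], [⟨0, 0, 0, 16777216⟩, ⟨1, 1, 0, 16777216⟩, ⟨2, 1, 0, 16777216⟩]]

noncomputable def f_B00pp_012_s3 : ℕ → ℕ → ℕ → ℕ → Bool := onCell 0 536870912 0 536870912 67108864 67108864
    (rowFK 0 false true true .pnp 0 1 2 (qsf 0 536870912 0 536870912 1) ndF0q0 ndF0q2 pcF1 cut_B00pp_012_s3 Ext.none)

def k0_B00pp_012_s3 : ∃ t, chk3 f_B00pp_012_s3 t 1 1 1 = true :=
  ⟨(l 6), by decide +kernel⟩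

theorem c_B00pp_012_s3 : CertF 0 536870912 0 536870912 67108864 67108864 false true true .pnp 0 1 2
    ndF0q0 ndF0q2 pcF1 cut_B00pp_012_s3 Ext.none :=
  certFK0 (fam := false) (s1 := true) (s2 := true) (a := 0) (b := 1) (c := 2) (cn := .pnp) (n1 := ndF0q0) (n2 := ndF0q2) (pc := pcF1) (cut := cut_B00pp_012_s3) (xt := Ext.none) (P1 := 0) (W1 := 536870912) (P2 := 0) (W2 := 536870912) (P3 := 67108864) (W3 := 67108864)
    rfl rfl rfl k0_B00pp_012_s3

theorem s_B00pp_012_s3 {κ x : ℝ} (hκ : κ * h0 = ken x) (hx : ((67108864 : ℕ) : ℝ) / S ≤ x)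
    (hx' : x ≤ (((67108864 : ℕ) : ℝ) + (67108864 : ℕ)) / S)
    (H : CutB (VF κ) PP tKF tL pcF (Cut.of [[⟨0, 0, 0, 16777216⟩, ⟨1, 1, 0, 16777216⟩, ⟨2, 1, 0, 16777216⟩]]) 0 1 2 0 0 (sgb true) (sgb true) x) :
    AltB (VF κ) PP tKF tL pcF [⟨4, 0, 0, 2845415833⟩] 0 1 2 0 0 (sgb true) (sgb true) x :=
  strip_altB (m := 2845415833) false rfl hκ covF00 covF02 hx hx' c_B00pp_012_s3 H (noExt_B)

noncomputable def cut_B00pp_022_s1 : Cut := Cut.of [[⟨4, 0, 0, 1449551462⟩], [⟨0, 0, 0, 67108864⟩, ⟨1, 1, 0, 67108864⟩, ⟨2, 1, 0, 67108864⟩]]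

noncomputable def f_B00pp_022_s1 : ℕ → ℕ → ℕ → ℕ → Bool := onCell 1073741824 536870912 0 536870912 67108864 67108864
    (rowFK 2 false true true .pp 0 2 2 (qsf 0 536870912 0 536870912 2) ndF0q0 ndF0q2 pcF2 cut_B00pp_022_s1 Ext.none)

def k0_B00pp_022_s1 : ∃ t, chk3 f_B00pp_022_s1 t 2 2 1 = true :=
  ⟨(b (l 6) (b (l 6) (a (a (a (b (l 6) (l 16916464)) (l 6)) (l 6)) (l 6)))), by decide +kernel⟩

def k1_B00pp_022_s1 : ∃ t, chk3 f_B00pp_022_s1 t 8 3 1 = true :=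
  ⟨(a (b (a (b (b (l 16904640) (a (l 16770120) (l 16851496))) (b (b (l 16713008) (c (l 16853832) (l 16686864))) (b (a (c (l 16760368) (l 16700520)) (l 16684240)) (b (a (l 16704952) (l 16688696)) (a (b (l 16707704) (l 16709616)) (l 16691952)))))) (b (b (l 17005304) (l 16771032)) (b (b (l 16684336) (l 16687464)) (b (l 16691424) (b (l 16694872) (l 16697472)))))) (b (b (a (b (a (b (a (l 16706520) (l 16713576)) (a (a (l 16714536) (l 16720848)) (l 16717584))) (b (l 16695416) (l 16720056))) (b (a (a (a (c (l 16731536) (l 16719600)) (l 16726672)) (l 16721784)) (l 16713432)) (l 14))) (b (a (b (l 16698744) (l 16701960)) (b (l 16701616) (l 16704392))) (b (a (l 16705368) (l 16707360)) (l 14)))) (l 14)) (l 14))) (b (b (a (b (l 16739664) (a (l 16866584) (l 16878488))) (b (l 16824152) (a (l 16809960) (l 16828400)))) (b (a (a (l 16693952) (l 16699904)) (a (l 16704072) (l 16708752))) (a (a (b (l 16697480) (l 16700968)) (b (l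 16702280) (l 16715472))) (b (a (l 16705192) (l 16708712)) (a (l 16717536) (l 16720272)))))) (a (b (b (b (a (l 16705248) (a (l 16706632) (l 16707728))) (b (a (l 16708928) (l 16722032)) (l 14))) (l 14)) (l 14)) (b (b (a (b (b (l 16708904) (l 16731392)) (b (l 16722608) (l 14))) (b (b (l 16711056) (l 16712168)) (b (a (l 16712264) (l 16712680)) (a (l 14) (l 16714056))))) (a (l 14) (a (l 14) (l 1)))) (l 1))))), by decide +kernel⟩

def k2_B00pp_022_s1 : ∃ t, chk3 f_B00pp_022_s1 t 9 3 1 = true :=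
  ⟨(a (b (b (b (l 6) (a (b (l 16939680) (l 16779704)) (a (l 16732712) (l 6)))) (b (a (b (l 16717432) (l 16726384)) (b (l 16724240) (a (l 16718312) (l 16721200)))) (a (b (a (l 16711408) (l 16713944)) (a (b (l 16711496) (l 16711824)) (a (l 16712456) (l 16713368)))) (b (a (l 16716288) (l 1)) (l 1))))) (b (b (a (b (a (b (a (l 16711272) (l 16712000)) (a (l 16712072) (l 16712600))) (b (l 16713528) (l 1))) (a (b (l 16713968) (l 1)) (l 1))) (l 1)) (l 1)) (l 1))) (b (b (l 6) (b (a (a (l 16726032) (l 1)) (l 1)) (l 1))) (l 1))), by decide +kernel⟩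

def k3_B00pp_022_s1 : ∃ t, chk3 f_B00pp_022_s1 t 5 3 1 = true :=
  ⟨(b (l 1) (l 1)), by decide +kernel⟩

def k4_B00pp_022_s1 : ∃ t, chk3 f_B00pp_022_s1 t 3 1 1 = true :=
  ⟨(l 1), by decide +kernel⟩

theorem t5_B00pp_022_s1 : ∃ t, chk3 f_B00pp_022_s1 t 4 3 1 = true := ex3_a k1_B00pp_022_s1 k2_B00pp_022_s1

theorem t6_B00pp_022_s1 : ∃ t, chk3 f_B00pp_022_s1 t 2 3 1 = true := ex3_a t5_B00pp_022_s1 k3_B00pp_022_s1

theorem t7_B00pp_022_s1 : ∃ t, chk3 f_B00pp_022_s1 t 2 1 1 = true := ex3_b k0_B00pp_022_s1 t6_B00pp_022_s1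

theorem t8_B00pp_022_s1 : ∃ t, chk3 f_B00pp_022_s1 t 1 1 1 = true := ex3_a t7_B00pp_022_s1 k4_B00pp_022_s1

theorem c_B00pp_022_s1 : CertF 0 536870912 0 536870912 67108864 67108864 false true true .pp 0 2 2
    ndF0q0 ndF0q2 pcF2 cut_B00pp_022_s1 Ext.none :=
  certFK2 (fam := false) (s1 := true) (s2 := true) (a := 0) (b := 2) (c := 2) (cn := .pp) (n1 := ndF0q0) (n2 := ndF0q2) (pc := pcF2) (cut := cut_B00pp_022_s1) (xt := Ext.none) (P1 := 0) (W1 := 536870912) (P2 := 0) (W2 := 536870912) (P3 := 67108864) (W3 := 67108864)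
    rfl rfl rfl (fun _ => rfl) t8_B00pp_022_s1

theorem s_B00pp_022_s1 {κ x : ℝ} (hκ : κ * h0 = ken x) (hx : ((67108864 : ℕ) : ℝ) / S ≤ x)
    (hx' : x ≤ (((67108864 : ℕ) : ℝ) + (67108864 : ℕ)) / S)
    (H : CutB (VF κ) PP tKF tL pcF (Cut.of [[⟨0, 0, 0, 67108864⟩, ⟨1, 1, 0, 67108864⟩, ⟨2, 1, 0, 67108864⟩]]) 0 2 2 0 0 (sgb true) (sgb true) x) :
    AltB (VF κ) PP tKF tL pcF [⟨3, 0, 0, 1449551462⟩] 0 2 2 0 0 (sgb true) (sgb true) x :=
  strip_altB (m := 1449551462) true rfl hκ covF00 covF02 hx hx' c_B00pp_022_s1 H (noExt_B)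

noncomputable def cut_B00pp_022_s3 : Cut := Cut.of [[⟨3, 0, 0, 2845415833⟩], [⟨0, 0, 0, 67108864⟩, ⟨1, 1, 0, 67108864⟩, ⟨2, 1, 0, 67108864⟩]]

noncomputable def f_B00pp_022_s3 : ℕ → ℕ → ℕ → ℕ → Bool := onCell 0 536870912 0 536870912 67108864 67108864
    (rowFK 0 false true true .pp 0 2 2 (qsf 0 536870912 0 536870912 2) ndF0q0 ndF0q2 pcF2 cut_B00pp_022_s3 Ext.none)

def k0_B00pp_022_s3 : ∃ t, chk3 f_B00pp_022_s3 t 1 1 1 = true :=
  ⟨(l 6), by decide +kernel⟩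

theorem c_B00pp_022_s3 : CertF 0 536870912 0 536870912 67108864 67108864 false true true .pp 0 2 2
    ndF0q0 ndF0q2 pcF2 cut_B00pp_022_s3 Ext.none :=
  certFK0 (fam := false) (s1 := true) (s2 := true) (a := 0) (b := 2) (c := 2) (cn := .pp) (n1 := ndF0q0) (n2 := ndF0q2) (pc := pcF2) (cut := cut_B00pp_022_s3) (xt := Ext.none) (P1 := 0) (W1 := 536870912) (P2 := 0) (W2 := 536870912) (P3 := 67108864) (W3 := 67108864)
    rfl rfl rfl k0_B00pp_022_s3

theorem s_B00pp_022_s3 {κ x : ℝ} (hκ : κ * h0 = ken x) (hx : ((67108864 : ℕ) : ℝ) / S ≤ x)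
    (hx' : x ≤ (((67108864 : ℕ) : ℝ) + (67108864 : ℕ)) / S)
    (H : CutB (VF κ) PP tKF tL pcF (Cut.of [[⟨0, 0, 0, 67108864⟩, ⟨1, 1, 0, 67108864⟩, ⟨2, 1, 0, 67108864⟩]]) 0 2 2 0 0 (sgb true) (sgb true) x) :
    AltB (VF κ) PP tKF tL pcF [⟨4, 0, 0, 2845415833⟩] 0 2 2 0 0 (sgb true) (sgb true) x :=
  strip_altB (m := 2845415833) false rfl hκ covF00 covF02 hx hx' c_B00pp_022_s3 H (noExt_B)

noncomputable def cut_B00pp_101_s1 : Cut := Cut.of [[⟨4, 0, 0, 1449551462⟩]]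

noncomputable def f_B00pp_101_s1 : ℕ → ℕ → ℕ → ℕ → Bool := onCell 536870912 536870912 536870912 536870912 67108864 67108864
    (rowFK 0 false true true .npn 1 0 1 (qsf 536870912 536870912 536870912 536870912 0) ndF0q1 ndF0q1 pcF0 cut_B00pp_101_s1 Ext.none)

def k0_B00pp_101_s1 : ∃ t, chk3 f_B00pp_101_s1 t 1 1 1 = true :=
  ⟨(l 3), by decide +kernel⟩

theorem c_B00pp_101_s1 : CertF 536870912 536870912 536870912 536870912 67108864 67108864 false true true .npn 1 0 1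
    ndF0q1 ndF0q1 pcF0 cut_B00pp_101_s1 Ext.none :=
  certFK0 (fam := false) (s1 := true) (s2 := true) (a := 1) (b := 0) (c := 1) (cn := .npn) (n1 := ndF0q1) (n2 := ndF0q1) (pc := pcF0) (cut := cut_B00pp_101_s1) (xt := Ext.none) (P1 := 536870912) (W1 := 536870912) (P2 := 536870912) (W2 := 536870912) (P3 := 67108864) (W3 := 67108864)
    rfl rfl rfl k0_B00pp_101_s1

theorem s_B00pp_101_s1 {κ x : ℝ} (hκ : κ * h0 = ken x) (hx : ((67108864 : ℕ) : ℝ) / S ≤ x)
    (hx' : x ≤ (((67108864 : ℕ) : ℝ) + (67108864 : ℕ)) / S) :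
    AltB (VF κ) PP tKF tL pcF [⟨3, 0, 0, 1449551462⟩] 1 0 1 0 0 (sgb true) (sgb true) x :=
  strip_altB (m := 1449551462) true rfl hκ covF01 covF01 hx hx' c_B00pp_101_s1 cutB_nil (noExt_B)

noncomputable def cut_B00pp_101_s3 : Cut := Cut.of [[⟨3, 0, 0, 2845415833⟩]]

noncomputable def f_B00pp_101_s3 : ℕ → ℕ → ℕ → ℕ → Bool := onCell 536870912 536870912 536870912 536870912 67108864 67108864
    (rowFK 0 false true true .npn 1 0 1 (qsf 536870912 536870912 536870912 536870912 0) ndF0q1 ndF0q1 pcF0 cut_B00pp_101_s3 Ext.none)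

def k0_B00pp_101_s3 : ∃ t, chk3 f_B00pp_101_s3 t 1 1 1 = true :=
  ⟨(l 3), by decide +kernel⟩

theorem c_B00pp_101_s3 : CertF 536870912 536870912 536870912 536870912 67108864 67108864 false true true .npn 1 0 1
    ndF0q1 ndF0q1 pcF0 cut_B00pp_101_s3 Ext.none :=
  certFK0 (fam := false) (s1 := true) (s2 := true) (a := 1) (b := 0) (c := 1) (cn := .npn) (n1 := ndF0q1) (n2 := ndF0q1) (pc := pcF0) (cut := cut_B00pp_101_s3) (xt := Ext.none) (P1 := 536870912) (W1 := 536870912) (P2 := 536870912) (W2 := 536870912) (P3 := 67108864) (W3 := 67108864)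
    rfl rfl rfl k0_B00pp_101_s3

theorem s_B00pp_101_s3 {κ x : ℝ} (hκ : κ * h0 = ken x) (hx : ((67108864 : ℕ) : ℝ) / S ≤ x)
    (hx' : x ≤ (((67108864 : ℕ) : ℝ) + (67108864 : ℕ)) / S) :
    AltB (VF κ) PP tKF tL pcF [⟨4, 0, 0, 2845415833⟩] 1 0 1 0 0 (sgb true) (sgb true) x :=
  strip_altB (m := 2845415833) false rfl hκ covF01 covF01 hx hx' c_B00pp_101_s3 cutB_nil (noExt_B)

noncomputable def cut_B00pp_102_s1 : Cut := Cut.of [[⟨4, 0, 0, 1449551462⟩]]

noncomputable def f_B00pp_102_s1 : ℕ → ℕ → ℕ → ℕ → Bool := onCell 0 536870912 0 536870912 67108864 67108864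
    (rowFK 2 false true true .npp 1 0 2 (qsf 536870912 536870912 0 536870912 0) ndF0q1 ndF0q2 pcF0 cut_B00pp_102_s1 Ext.none)

def k0_B00pp_102_s1 : ∃ t, chk3 f_B00pp_102_s1 t 1 1 1 = true :=
  ⟨(a (b (l 3) (l 3)) (l 3)), by decide +kernel⟩

theorem c_B00pp_102_s1 : CertF 536870912 536870912 0 536870912 67108864 67108864 false true true .npp 1 0 2
    ndF0q1 ndF0q2 pcF0 cut_B00pp_102_s1 Ext.none :=
  certFK2 (fam := false) (s1 := true) (s2 := true) (a := 1) (b := 0) (c := 2) (cn := .npp) (n1 := ndF0q1) (n2 := ndF0q2) (pc := pcF0) (cut := cut_B00pp_102_s1) (xt := Ext.none) (P1 := 536870912) (W1 := 536870912) (P2 := 0) (W2 := 536870912) (P3 := 67108864) (W3 := 67108864)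
    rfl rfl rfl (fun _ => rfl) k0_B00pp_102_s1

theorem s_B00pp_102_s1 {κ x : ℝ} (hκ : κ * h0 = ken x) (hx : ((67108864 : ℕ) : ℝ) / S ≤ x)
    (hx' : x ≤ (((67108864 : ℕ) : ℝ) + (67108864 : ℕ)) / S) :
    AltB (VF κ) PP tKF tL pcF [⟨3, 0, 0, 1449551462⟩] 1 0 2 0 0 (sgb true) (sgb true) x :=
  strip_altB (m := 1449551462) true rfl hκ covF01 covF02 hx hx' c_B00pp_102_s1 cutB_nil (noExt_B)

noncomputable def cut_B00pp_102_s3 : Cut := Cut.of [[⟨3, 0, 0, 2845415833⟩]]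

noncomputable def f_B00pp_102_s3 : ℕ → ℕ → ℕ → ℕ → Bool := onCell 536870912 536870912 0 536870912 67108864 67108864
    (rowFK 0 false true true .npp 1 0 2 (qsf 536870912 536870912 0 536870912 0) ndF0q1 ndF0q2 pcF0 cut_B00pp_102_s3 Ext.none)

def k0_B00pp_102_s3 : ∃ t, chk3 f_B00pp_102_s3 t 1 1 1 = true :=
  ⟨(l 6), by decide +kernel⟩

theorem c_B00pp_102_s3 : CertF 536870912 536870912 0 536870912 67108864 67108864 false true true .npp 1 0 2
    ndF0q1 ndF0q2 pcF0 cut_B00pp_102_s3 Ext.none :=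
  certFK0 (fam := false) (s1 := true) (s2 := true) (a := 1) (b := 0) (c := 2) (cn := .npp) (n1 := ndF0q1) (n2 := ndF0q2) (pc := pcF0) (cut := cut_B00pp_102_s3) (xt := Ext.none) (P1 := 536870912) (W1 := 536870912) (P2 := 0) (W2 := 536870912) (P3 := 67108864) (W3 := 67108864)
    rfl rfl rfl k0_B00pp_102_s3

theorem s_B00pp_102_s3 {κ x : ℝ} (hκ : κ * h0 = ken x) (hx : ((67108864 : ℕ) : ℝ) / S ≤ x)
    (hx' : x ≤ (((67108864 : ℕ) : ℝ) + (67108864 : ℕ)) / S) :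
    AltB (VF κ) PP tKF tL pcF [⟨4, 0, 0, 2845415833⟩] 1 0 2 0 0 (sgb true) (sgb true) x :=
  strip_altB (m := 2845415833) false rfl hκ covF01 covF02 hx hx' c_B00pp_102_s3 cutB_nil (noExt_B)

noncomputable def cut_B00pp_112_s1 : Cut := Cut.of [[⟨4, 0, 0, 1449551462⟩]]

noncomputable def xt_B00pp_112_s1 : Ext := strExt dd false true true .u0 .u2 .u0m .dn 1 1 2 rfl rfl gf1 vv ndF0q1 ndF0q2

noncomputable def f_B00pp_112_s1 : ℕ → ℕ → ℕ → ℕ → Bool := onCell 536870912 536870912 0 536870912 67108864 67108864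
    (rowFK 0 false true true .dn 1 1 2 (qsf 536870912 536870912 0 536870912 1) ndF0q1 ndF0q2 pcF1 cut_B00pp_112_s1 xt_B00pp_112_s1)

def k0_B00pp_112_s1 : ∃ t, chk3 f_B00pp_112_s1 t 1 1 1 = true :=
  ⟨(a (b (a (b (a (l 543049743) (l 543097359)) (l 3)) (l 3)) (l 3)) (l 1)), by decide +kernel⟩

theorem c_B00pp_112_s1 : CertF 536870912 536870912 0 536870912 67108864 67108864 false true true .dn 1 1 2
    ndF0q1 ndF0q2 pcF1 cut_B00pp_112_s1 xt_B00pp_112_s1 :=
  certFK0 (fam := false) (s1 := true) (s2 := true) (a := 1) (b := 1) (c := 2) (cn := .dn) (n1 := ndF0q1) (n2 := ndF0q2) (pc := pcF1) (cut := cut_B00pp_112_s1) (xt := xt_B00pp_112_s1) (P1 := 536870912) (W1 := 536870912) (P2 := 0) (W2 := 536870912) (P3 := 67108864) (W3 := 67108864)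
    rfl rfl rfl k0_B00pp_112_s1

theorem s_B00pp_112_s1 {κ x : ℝ} (hκ : κ * h0 = ken x) (hx : ((67108864 : ℕ) : ℝ) / S ≤ x)
    (hx' : x ≤ (((67108864 : ℕ) : ℝ) + (67108864 : ℕ)) / S) :
    AltB (VF κ) PP tKF tL pcF [⟨3, 0, 0, 1449551462⟩] 1 1 2 0 0 (sgb true) (sgb true) x :=
  strip_altB (m := 1449551462) true rfl hκ covF01 covF02 hx hx' c_B00pp_112_s1 cutB_nil ((okx hx hx').extB (T := tt) (sideF hx hx') hκ rfl rfl (.O 1 true) (.O 2 true) (Or.inr rfl))

noncomputable def cut_B00pp_112_s3 : Cut := Cut.of [[⟨3, 0, 0, 2845415833⟩]]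

noncomputable def f_B00pp_112_s3 : ℕ → ℕ → ℕ → ℕ → Bool := onCell 536870912 536870912 0 536870912 67108864 67108864
    (rowFK 0 false true true .dn 1 1 2 (qsf 536870912 536870912 0 536870912 1) ndF0q1 ndF0q2 pcF1 cut_B00pp_112_s3 Ext.none)

def k0_B00pp_112_s3 : ∃ t, chk3 f_B00pp_112_s3 t 1 1 1 = true :=
  ⟨(l 6), by decide +kernel⟩

theorem c_B00pp_112_s3 : CertF 536870912 536870912 0 536870912 67108864 67108864 false true true .dn 1 1 2
    ndF0q1 ndF0q2 pcF1 cut_B00pp_112_s3 Ext.none :=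
  certFK0 (fam := false) (s1 := true) (s2 := true) (a := 1) (b := 1) (c := 2) (cn := .dn) (n1 := ndF0q1) (n2 := ndF0q2) (pc := pcF1) (cut := cut_B00pp_112_s3) (xt := Ext.none) (P1 := 536870912) (W1 := 536870912) (P2 := 0) (W2 := 536870912) (P3 := 67108864) (W3 := 67108864)
    rfl rfl rfl k0_B00pp_112_s3

theorem s_B00pp_112_s3 {κ x : ℝ} (hκ : κ * h0 = ken x) (hx : ((67108864 : ℕ) : ℝ) / S ≤ x)
    (hx' : x ≤ (((67108864 : ℕ) : ℝ) + (67108864 : ℕ)) / S) :
    AltB (VF κ) PP tKF tL pcF [⟨4, 0, 0, 2845415833⟩] 1 1 2 0 0 (sgb true) (sgb true) x :=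
  strip_altB (m := 2845415833) false rfl hκ covF01 covF02 hx hx' c_B00pp_112_s3 cutB_nil (noExt_B)

noncomputable def cut_B00pp_202_s1 : Cut := Cut.of [[⟨4, 0, 0, 1449551462⟩]]

noncomputable def f_B00pp_202_s1 : ℕ → ℕ → ℕ → ℕ → Bool := onCell 0 536870912 0 536870912 67108864 67108864
    (rowFK 0 false true true .pp 2 0 2 (qsf 0 536870912 0 536870912 0) ndF0q2 ndF0q2 pcF0 cut_B00pp_202_s1 Ext.none)

def k0_B00pp_202_s1 : ∃ t, chk3 f_B00pp_202_s1 t 1 1 1 = true :=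
  ⟨(l 3), by decide +kernel⟩

theorem c_B00pp_202_s1 : CertF 0 536870912 0 536870912 67108864 67108864 false true true .pp 2 0 2
    ndF0q2 ndF0q2 pcF0 cut_B00pp_202_s1 Ext.none :=
  certFK0 (fam := false) (s1 := true) (s2 := true) (a := 2) (b := 0) (c := 2) (cn := .pp) (n1 := ndF0q2) (n2 := ndF0q2) (pc := pcF0) (cut := cut_B00pp_202_s1) (xt := Ext.none) (P1 := 0) (W1 := 536870912) (P2 := 0) (W2 := 536870912) (P3 := 67108864) (W3 := 67108864)
    rfl rfl rfl k0_B00pp_202_s1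

theorem s_B00pp_202_s1 {κ x : ℝ} (hκ : κ * h0 = ken x) (hx : ((67108864 : ℕ) : ℝ) / S ≤ x)
    (hx' : x ≤ (((67108864 : ℕ) : ℝ) + (67108864 : ℕ)) / S) :
    AltB (VF κ) PP tKF tL pcF [⟨3, 0, 0, 1449551462⟩] 2 0 2 0 0 (sgb true) (sgb true) x :=
  strip_altB (m := 1449551462) true rfl hκ covF02 covF02 hx hx' c_B00pp_202_s1 cutB_nil (noExt_B)

noncomputable def cut_B00pp_202_s3 : Cut := Cut.of [[⟨3, 0, 0, 2845415833⟩]]

noncomputable def f_B00pp_202_s3 : ℕ → ℕ → ℕ → ℕ → Bool := onCell 0 536870912 0 536870912 67108864 67108864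
    (rowFK 0 false true true .pp 2 0 2 (qsf 0 536870912 0 536870912 0) ndF0q2 ndF0q2 pcF0 cut_B00pp_202_s3 Ext.none)

def k0_B00pp_202_s3 : ∃ t, chk3 f_B00pp_202_s3 t 1 1 1 = true :=
  ⟨(l 3), by decide +kernel⟩

theorem c_B00pp_202_s3 : CertF 0 536870912 0 536870912 67108864 67108864 false true true .pp 2 0 2
    ndF0q2 ndF0q2 pcF0 cut_B00pp_202_s3 Ext.none :=
  certFK0 (fam := false) (s1 := true) (s2 := true) (a := 2) (b := 0) (c := 2) (cn := .pp) (n1 := ndF0q2) (n2 := ndF0q2) (pc := pcF0) (cut := cut_B00pp_202_s3) (xt := Ext.none) (P1 := 0) (W1 := 536870912) (P2 := 0) (W2 := 536870912) (P3 := 67108864) (W3 := 67108864)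
    rfl rfl rfl k0_B00pp_202_s3

theorem s_B00pp_202_s3 {κ x : ℝ} (hκ : κ * h0 = ken x) (hx : ((67108864 : ℕ) : ℝ) / S ≤ x)
    (hx' : x ≤ (((67108864 : ℕ) : ℝ) + (67108864 : ℕ)) / S) :
    AltB (VF κ) PP tKF tL pcF [⟨4, 0, 0, 2845415833⟩] 2 0 2 0 0 (sgb true) (sgb true) x :=
  strip_altB (m := 2845415833) false rfl hκ covF02 covF02 hx hx' c_B00pp_202_s3 cutB_nil (noExt_B)

noncomputable def cut_B00pm_001_s1 : Cut := Cut.of [[⟨4, 0, 0, 1449551462⟩]]

noncomputable def f_B00pm_001_s1 : ℕ → ℕ → ℕ → ℕ → Bool := onCell 0 536870912 536870912 536870912 67108864 67108864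
    (rowFK 0 false true false .up 0 0 1 (qsf 0 536870912 536870912 536870912 0) ndF0q0 ndF0q1 pcF0 cut_B00pm_001_s1 Ext.none)

def k0_B00pm_001_s1 : ∃ t, chk3 f_B00pm_001_s1 t 1 1 1 = true :=
  ⟨(l 6), by decide +kernel⟩

theorem c_B00pm_001_s1 : CertF 0 536870912 536870912 536870912 67108864 67108864 false true false .up 0 0 1
    ndF0q0 ndF0q1 pcF0 cut_B00pm_001_s1 Ext.none :=
  certFK0 (fam := false) (s1 := true) (s2 := false) (a := 0) (b := 0) (c := 1) (cn := .up) (n1 := ndF0q0) (n2 := ndF0q1) (pc := pcF0) (cut := cut_B00pm_001_s1) (xt := Ext.none) (P1 := 0) (W1 := 536870912) (P2 := 536870912) (W2 := 536870912) (P3 := 67108864) (W3 := 67108864)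
    rfl rfl rfl k0_B00pm_001_s1

theorem s_B00pm_001_s1 {κ x : ℝ} (hκ : κ * h0 = ken x) (hx : ((67108864 : ℕ) : ℝ) / S ≤ x)
    (hx' : x ≤ (((67108864 : ℕ) : ℝ) + (67108864 : ℕ)) / S) :
    AltB (VF κ) PP tKF tL pcF [⟨3, 0, 0, 1449551462⟩] 0 0 1 0 0 (sgb true) (sgb false) x :=
  strip_altB (m := 1449551462) true rfl hκ covF00 covF01 hx hx' c_B00pm_001_s1 cutB_nil (noExt_B)

noncomputable def cut_B00pm_001_s3 : Cut := Cut.of [[⟨3, 0, 0, 2845415833⟩]]

noncomputable def xt_B00pm_001_s3 : Ext := strExt dd false true false .u0 .u0m .s0m .up 0 0 1 rfl rfl gl0 vv ndF0q0 ndF0q1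

noncomputable def f_B00pm_001_s3 : ℕ → ℕ → ℕ → ℕ → Bool := onCell 0 536870912 0 536870912 67108864 67108864
    (rowFK 1 false true false .up 0 0 1 (qsf 0 536870912 536870912 536870912 0) ndF0q0 ndF0q1 pcF0 cut_B00pm_001_s3 xt_B00pm_001_s3)

def k0_B00pm_001_s3 : ∃ t, chk3 f_B00pm_001_s3 t 1 1 1 = true :=
  ⟨(a (l 4) (b (a (l 4) (a (l 4) (b (l 4) (b (l 547444495) (l 547387151))))) (b (a (l 4) (b (a (l 548351503) (l 546868751)) (a (l 548324879) (a (l 546199567) (l 17407776))))) (a (a (b (l 4) (b (l 4) (l 552318991))) (b (a (l 4) (l 548684047)) (b (l 548806415) (l 549316623)))) (b (a (l 546578703) (a (l 17472608) (b (l 17274888) (l 6)))) (b (a (l 546754575) (l 6)) (a (a (l 548280591) (a (l 17729096) (l 6))) (l 6)))))))), by decide +kernel⟩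

theorem c_B00pm_001_s3 : CertF 0 536870912 536870912 536870912 67108864 67108864 false true false .up 0 0 1
    ndF0q0 ndF0q1 pcF0 cut_B00pm_001_s3 xt_B00pm_001_s3 :=
  certFK1 (fam := false) (s1 := true) (s2 := false) (a := 0) (b := 0) (c := 1) (cn := .up) (n1 := ndF0q0) (n2 := ndF0q1) (pc := pcF0) (cut := cut_B00pm_001_s3) (xt := xt_B00pm_001_s3) (P1 := 0) (W1 := 536870912) (P2 := 536870912) (W2 := 536870912) (P3 := 67108864) (W3 := 67108864)
    rfl rfl rfl (fun _ => rfl) k0_B00pm_001_s3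

theorem s_B00pm_001_s3 {κ x : ℝ} (hκ : κ * h0 = ken x) (hx : ((67108864 : ℕ) : ℝ) / S ≤ x)
    (hx' : x ≤ (((67108864 : ℕ) : ℝ) + (67108864 : ℕ)) / S) :
    AltB (VF κ) PP tKF tL pcF [⟨4, 0, 0, 2845415833⟩] 0 0 1 0 0 (sgb true) (sgb false) x :=
  strip_altB (m := 2845415833) false rfl hκ covF00 covF01 hx hx' c_B00pm_001_s3 cutB_nil ((okx hx hx').extB (T := tt) (sideF hx hx') hκ rfl rfl (.O 0 true) (.O 1 false) (Or.inl rfl))

noncomputable def cut_B00pm_011_s1 : Cut := Cut.of [[⟨4, 0, 0, 1449551462⟩], [⟨0, 0, 0, 25165824⟩, ⟨1, 1, 0, 25165824⟩, ⟨2, 1, 0, 25165824⟩], [⟨0, 0, 1, 33554432⟩, ⟨1, 1, 2, 33554432⟩, ⟨2, 1, 0, 8388608⟩, ⟨0, 0, 0, 150994944⟩, ⟨0, 1, 0, 1023410176⟩, ⟨1, 0, 0, 1023410176⟩, ⟨1, 1, 0, 150994944⟩]]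

noncomputable def f_B00pm_011_s1 : ℕ → ℕ → ℕ → ℕ → Bool := onCell 0 536870912 536870912 536870912 67108864 67108864
    (rowFK 0 false true false .pnn 0 1 1 (qsf 0 536870912 536870912 536870912 1) ndF0q0 ndF0q1 pcF1 cut_B00pm_011_s1 Ext.none)

def k0_B00pm_011_s1 : ∃ t, chk3 f_B00pm_011_s1 t 1 1 1 = true :=
  ⟨(l 6), by decide +kernel⟩

theorem c_B00pm_011_s1 : CertF 0 536870912 536870912 536870912 67108864 67108864 false true false .pnn 0 1 1
    ndF0q0 ndF0q1 pcF1 cut_B00pm_011_s1 Ext.none :=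
  certFK0 (fam := false) (s1 := true) (s2 := false) (a := 0) (b := 1) (c := 1) (cn := .pnn) (n1 := ndF0q0) (n2 := ndF0q1) (pc := pcF1) (cut := cut_B00pm_011_s1) (xt := Ext.none) (P1 := 0) (W1 := 536870912) (P2 := 536870912) (W2 := 536870912) (P3 := 67108864) (W3 := 67108864)
    rfl rfl rfl k0_B00pm_011_s1

theorem s_B00pm_011_s1 {κ x : ℝ} (hκ : κ * h0 = ken x) (hx : ((67108864 : ℕ) : ℝ) / S ≤ x)
    (hx' : x ≤ (((67108864 : ℕ) : ℝ) + (67108864 : ℕ)) / S)
    (H : CutB (VF κ) PP tKF tL pcF (Cut.of [[⟨0, 0, 0, 25165824⟩, ⟨1, 1, 0, 25165824⟩, ⟨2, 1, 0, 25165824⟩], [⟨0, 0, 1, 33554432⟩, ⟨1, 1, 2, 33554432⟩, ⟨2, 1, 0, 8388608⟩, ⟨0, 0, 0, 150994944⟩, ⟨0, 1, 0, 1023410176⟩, ⟨1, 0, 0, 1023410176⟩, ⟨1, 1, 0, 150994944⟩]]) 0 1 1 0 0 (sgb true) (sgb false) x) :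
    AltB (VF κ) PP tKF tL pcF [⟨3, 0, 0, 1449551462⟩] 0 1 1 0 0 (sgb true) (sgb false) x :=
  strip_altB (m := 1449551462) true rfl hκ covF00 covF01 hx hx' c_B00pm_011_s1 H (noExt_B)

end Pool.Agent.Strip051.G.I1_16_1_8.Tab.St.C
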