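import Pool.Agent.Strip051.G.I1_16_1_8.Tab
import Pool.Agent.Strip051.PB.RowK

/-! # Certificates F0 (generated) -/

set_option linter.all false
set_option maxRecDepth 100000

namespace Pool.Agent.Strip051.G.I1_16_1_8.Tab.C.FA00

open Pool.Agent.Strip051.PB Pool.Agent.Strip051.PB.T
open Pool.Agent.Strip051.G.I1_16_1_8.Tab

noncomputable def cut_pp_001 : Cut := Cut.of [[⟨3, 0, 0, 1449551462⟩], [⟨4, 0, 0, 2845415833⟩]]

noncomputable def f_pp_001 : ℕ → ℕ → ℕ → ℕ → Bool := onCell 0 536870912 0 536870912 67108864 67108864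
    (rowFK 0 true true true .up 0 0 1 (qsf 0 536870912 0 536870912 1) ndF0q0 ndF0q0 pcF1 cut_pp_001 Ext.none)

def k0_pp_001 : ∃ t, chk3 f_pp_001 t 1 1 1 = true :=
  ⟨(l 4), by decide +kernel⟩

theorem c_pp_001 : CertF 0 536870912 0 536870912 67108864 67108864 true true true .up 0 0 1
    ndF0q0 ndF0q0 pcF1 cut_pp_001 Ext.none :=
  certFK0 (fam := true) (s1 := true) (s2 := true) (a := 0) (b := 0) (c := 1) (cn := .up) (n1 := ndF0q0) (n2 := ndF0q0) (pc := pcF1) (cut := cut_pp_001) (xt := Ext.none) (P1 := 0) (W1 := 536870912) (P2 := 0) (W2 := 536870912) (P3 := 67108864) (W3 := 67108864)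
    rfl rfl rfl k0_pp_001

noncomputable def cut_pp_011 : Cut := Cut.of [[⟨3, 0, 0, 1449551462⟩], [⟨4, 0, 0, 2845415833⟩], [⟨0, 0, 0, 67108864⟩, ⟨1, 1, 0, 67108864⟩, ⟨2, 1, 0, 67108864⟩]]

noncomputable def f_pp_011 : ℕ → ℕ → ℕ → ℕ → Bool := onCell 0 536870912 536870912 536870912 67108864 67108864
    (rowFK 0 true true true .pnn 0 1 1 (qsf 0 536870912 536870912 536870912 1) ndF0q0 ndF0q1 pcF1 cut_pp_011 Ext.none)

def k0_pp_011 : ∃ t, chk3 f_pp_011 t 1 1 1 = true :=
  ⟨(l 14), by decide +kernel⟩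

theorem c_pp_011 : CertF 0 536870912 536870912 536870912 67108864 67108864 true true true .pnn 0 1 1
    ndF0q0 ndF0q1 pcF1 cut_pp_011 Ext.none :=
  certFK0 (fam := true) (s1 := true) (s2 := true) (a := 0) (b := 1) (c := 1) (cn := .pnn) (n1 := ndF0q0) (n2 := ndF0q1) (pc := pcF1) (cut := cut_pp_011) (xt := Ext.none) (P1 := 0) (W1 := 536870912) (P2 := 536870912) (W2 := 536870912) (P3 := 67108864) (W3 := 67108864)
    rfl rfl rfl k0_pp_011

noncomputable def cut_pp_012 : Cut := Cut.of [[⟨3, 0, 0, 1449551462⟩], [⟨4, 0, 0, 2845415833⟩], [⟨0, 0, 0, 67108864⟩, ⟨1, 1, 0, 67108864⟩, ⟨2, 1, 0, 67108864⟩]]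

noncomputable def f_pp_012 : ℕ → ℕ → ℕ → ℕ → Bool := onCell 0 536870912 536870912 536870912 67108864 67108864
    (rowFK 0 true true true .pnp 0 1 2 (qsf 0 536870912 536870912 536870912 2) ndF0q0 ndF0q1 pcF2 cut_pp_012 Ext.none)

def k0_pp_012 : ∃ t, chk3 f_pp_012 t 1 1 1 = true :=
  ⟨(l 14), by decide +kernel⟩

theorem c_pp_012 : CertF 0 536870912 536870912 536870912 67108864 67108864 true true true .pnp 0 1 2
    ndF0q0 ndF0q1 pcF2 cut_pp_012 Ext.none :=
  certFK0 (fam := true) (s1 := true) (s2 := true) (a := 0) (b := 1) (c := 2) (cn := .pnp) (n1 := ndF0q0) (n2 := ndF0q1) (pc := pcF2) (cut := cut_pp_012) (xt := Ext.none) (P1 := 0) (W1 := 536870912) (P2 := 536870912) (W2 := 536870912) (P3 := 67108864) (W3 := 67108864)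
    rfl rfl rfl k0_pp_012

noncomputable def cut_pp_022 : Cut := Cut.of [[⟨3, 0, 0, 1449551462⟩], [⟨4, 0, 0, 2845415833⟩], [⟨0, 0, 0, 25165824⟩, ⟨1, 1, 0, 25165824⟩, ⟨2, 1, 0, 25165824⟩]]

noncomputable def f_pp_022 : ℕ → ℕ → ℕ → ℕ → Bool := onCell 0 536870912 0 536870912 67108864 67108864
    (rowFK 0 true true true .pp 0 2 2 (qsf 0 536870912 0 536870912 2) ndF0q0 ndF0q2 pcF2 cut_pp_022 Ext.none)

def k0_pp_022 : ∃ t, chk3 f_pp_022 t 1 1 1 = true :=
  ⟨(a (b (a (b (b (a (a (a (l 18042744) (l 18166584)) (l 18123792)) (l 17979624)) (a (a (c (l 18427328) (a (l 17760352) (l 17821704))) (l 18062384)) (l 17903216))) (a (a (b (c (l 18328784) (a (b (l 17660272) (l 17457320)) (l 17698928))) (c (a (b (l 18228296) (l 18108616)) (l 18138888)) (a (b (a (l 17384728) (l 17473848)) (a (l 17094864) (l 17317472))) (b (l 17559632) (l 17327672))))) (c (b (l 18184832) (l 18036232)) (b (l 17609672) (a (l 17435928) (l 17578856))))) (b (a (l 17855584) (l 17731304)) (a (a (l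 17737584) (l 17678664)) (l 17582280))))) (b (a (l 17714200) (b (l 17556216) (l 17447744))) (a (b (l 17543472) (a (l 17451136) (l 17324808))) (b (a (l 17368440) (l 17260960)) (l 14))))) (a (b (a (b (a (a (c (b (a (l 17890264) (l 17959680)) (c (a (l 17966968) (l 17990416)) (a (b (l 17501416) (l 17306400)) (l 17531344)))) (b (a (l 16868536) (l 17071184)) (a (l 16726432) (l 16822128)))) (c (b (l 17960184) (a (l 17790584) (l 17796536))) (b (a (l 17227680) (l 17308024)) (a (l 16941816) (l 17076904))))) (a (c (b (l 17915728) (l 17776072)) (b (l 17382464) (a (l 17197984) (l 17251080)))) (b (l 17634360) (l 17254352)))) (b (b (a (a (a (a (l 16806216) (l 16930296)) (c (l 17400392) (l 16731744))) (l 14)) (l 14)) (l 14)) (l 14))) (b (a (b (l 17504056) (l 14)) (l 14)) (l 14))) (l 14)) (l 14))) (b (b (a (a (b (l 17366984) (l 17209864)) (b (l 17195200) (l 14))) (l 2)) (l 14)) (l 14))), by decide +kernel⟩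

theorem c_pp_022 : CertF 0 536870912 0 536870912 67108864 67108864 true true true .pp 0 2 2
    ndF0q0 ndF0q2 pcF2 cut_pp_022 Ext.none :=
  certFK0 (fam := true) (s1 := true) (s2 := true) (a := 0) (b := 2) (c := 2) (cn := .pp) (n1 := ndF0q0) (n2 := ndF0q2) (pc := pcF2) (cut := cut_pp_022) (xt := Ext.none) (P1 := 0) (W1 := 536870912) (P2 := 0) (W2 := 536870912) (P3 := 67108864) (W3 := 67108864)
    rfl rfl rfl k0_pp_022

noncomputable def cut_pp_023 : Cut := Cut.of [[⟨3, 0, 0, 1449551462⟩], [⟨4, 0, 0, 2845415833⟩]]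

noncomputable def f_pp_023 : ℕ → ℕ → ℕ → ℕ → Bool := onCell 1610612736 536870912 0 536870912 67108864 67108864
    (rowFK 2 true true true .up 0 2 3 (qsf 0 536870912 0 536870912 3) ndF0q0 ndF0q2 pcF3 cut_pp_023 Ext.none)

def k0_pp_023 : ∃ t, chk3 f_pp_023 t 1 1 1 = true :=
  ⟨(a (a (b (b (a (b (a (l 17341600) (l 14)) (l 14)) (l 14)) (l 14)) (l 4)) (l 14)) (l 2)), by decide +kernel⟩

theorem c_pp_023 : CertF 0 536870912 0 536870912 67108864 67108864 true true true .up 0 2 3
    ndF0q0 ndF0q2 pcF3 cut_pp_023 Ext.none :=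
  certFK2 (fam := true) (s1 := true) (s2 := true) (a := 0) (b := 2) (c := 3) (cn := .up) (n1 := ndF0q0) (n2 := ndF0q2) (pc := pcF3) (cut := cut_pp_023) (xt := Ext.none) (P1 := 0) (W1 := 536870912) (P2 := 0) (W2 := 536870912) (P3 := 67108864) (W3 := 67108864)
    rfl rfl rfl (fun _ => rfl) k0_pp_023

noncomputable def cut_pp_101 : Cut := Cut.of [[⟨3, 0, 0, 1449551462⟩], [⟨4, 0, 0, 2845415833⟩]]

noncomputable def f_pp_101 : ℕ → ℕ → ℕ → ℕ → Bool := onCell 536870912 536870912 0 536870912 67108864 67108864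
    (rowFK 0 true true true .npn 1 0 1 (qsf 536870912 536870912 0 536870912 1) ndF0q1 ndF0q0 pcF1 cut_pp_101 Ext.none)

def k0_pp_101 : ∃ t, chk3 f_pp_101 t 1 1 1 = true :=
  ⟨(l 14), by decide +kernel⟩

theorem c_pp_101 : CertF 536870912 536870912 0 536870912 67108864 67108864 true true true .npn 1 0 1
    ndF0q1 ndF0q0 pcF1 cut_pp_101 Ext.none :=
  certFK0 (fam := true) (s1 := true) (s2 := true) (a := 1) (b := 0) (c := 1) (cn := .npn) (n1 := ndF0q1) (n2 := ndF0q0) (pc := pcF1) (cut := cut_pp_101) (xt := Ext.none) (P1 := 536870912) (W1 := 536870912) (P2 := 0) (W2 := 536870912) (P3 := 67108864) (W3 := 67108864)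
    rfl rfl rfl k0_pp_101

noncomputable def cut_pp_102 : Cut := Cut.of [[⟨3, 0, 0, 1449551462⟩], [⟨4, 0, 0, 2845415833⟩]]

noncomputable def f_pp_102 : ℕ → ℕ → ℕ → ℕ → Bool := onCell 536870912 536870912 0 536870912 67108864 67108864
    (rowFK 0 true true true .npp 1 0 2 (qsf 536870912 536870912 0 536870912 2) ndF0q1 ndF0q0 pcF2 cut_pp_102 Ext.none)

def k0_pp_102 : ∃ t, chk3 f_pp_102 t 1 1 1 = true :=
  ⟨(l 14), by decide +kernel⟩

theorem c_pp_102 : CertF 536870912 536870912 0 536870912 67108864 67108864 true true true .npp 1 0 2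
    ndF0q1 ndF0q0 pcF2 cut_pp_102 Ext.none :=
  certFK0 (fam := true) (s1 := true) (s2 := true) (a := 1) (b := 0) (c := 2) (cn := .npp) (n1 := ndF0q1) (n2 := ndF0q0) (pc := pcF2) (cut := cut_pp_102) (xt := Ext.none) (P1 := 536870912) (W1 := 536870912) (P2 := 0) (W2 := 536870912) (P3 := 67108864) (W3 := 67108864)
    rfl rfl rfl k0_pp_102

noncomputable def cut_pp_112 : Cut := Cut.of [[⟨3, 0, 0, 1449551462⟩], [⟨4, 0, 0, 2845415833⟩]]

noncomputable def f_pp_112 : ℕ → ℕ → ℕ → ℕ → Bool := onCell 536870912 536870912 536870912 536870912 67108864 67108864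
    (rowFK 0 true true true .dn 1 1 2 (qsf 536870912 536870912 536870912 536870912 2) ndF0q1 ndF0q1 pcF2 cut_pp_112 Ext.none)

def k0_pp_112 : ∃ t, chk3 f_pp_112 t 1 1 1 = true :=
  ⟨(l 4), by decide +kernel⟩

theorem c_pp_112 : CertF 536870912 536870912 536870912 536870912 67108864 67108864 true true true .dn 1 1 2
    ndF0q1 ndF0q1 pcF2 cut_pp_112 Ext.none :=
  certFK0 (fam := true) (s1 := true) (s2 := true) (a := 1) (b := 1) (c := 2) (cn := .dn) (n1 := ndF0q1) (n2 := ndF0q1) (pc := pcF2) (cut := cut_pp_112) (xt := Ext.none) (P1 := 536870912) (W1 := 536870912) (P2 := 536870912) (W2 := 536870912) (P3 := 67108864) (W3 := 67108864)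
    rfl rfl rfl k0_pp_112

noncomputable def cut_pp_113 : Cut := Cut.of [[⟨3, 0, 0, 1449551462⟩], [⟨4, 0, 0, 2845415833⟩]]

noncomputable def f_pp_113 : ℕ → ℕ → ℕ → ℕ → Bool := onCell 536870912 536870912 536870912 536870912 67108864 67108864
    (rowFK 0 true true true .nn 1 1 3 (qsf 536870912 536870912 536870912 536870912 3) ndF0q1 ndF0q1 pcF3 cut_pp_113 Ext.none)

def k0_pp_113 : ∃ t, chk3 f_pp_113 t 1 1 1 = true :=
  ⟨(l 4), by decide +kernel⟩

theorem c_pp_113 : CertF 536870912 536870912 536870912 536870912 67108864 67108864 true true true .nn 1 1 3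
    ndF0q1 ndF0q1 pcF3 cut_pp_113 Ext.none :=
  certFK0 (fam := true) (s1 := true) (s2 := true) (a := 1) (b := 1) (c := 3) (cn := .nn) (n1 := ndF0q1) (n2 := ndF0q1) (pc := pcF3) (cut := cut_pp_113) (xt := Ext.none) (P1 := 536870912) (W1 := 536870912) (P2 := 536870912) (W2 := 536870912) (P3 := 67108864) (W3 := 67108864)
    rfl rfl rfl k0_pp_113

noncomputable def cut_pp_123 : Cut := Cut.of [[⟨3, 0, 0, 1449551462⟩], [⟨4, 0, 0, 2845415833⟩]]

noncomputable def f_pp_123 : ℕ → ℕ → ℕ → ℕ → Bool := onCell 536870912 536870912 0 536870912 67108864 67108864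
    (rowFK 0 true true true .npn 1 2 3 (qsf 536870912 536870912 0 536870912 3) ndF0q1 ndF0q2 pcF3 cut_pp_123 Ext.none)

def k0_pp_123 : ∃ t, chk3 f_pp_123 t 1 1 1 = true :=
  ⟨(a (l 14) (l 4)), by decide +kernel⟩

theorem c_pp_123 : CertF 536870912 536870912 0 536870912 67108864 67108864 true true true .npn 1 2 3
    ndF0q1 ndF0q2 pcF3 cut_pp_123 Ext.none :=
  certFK0 (fam := true) (s1 := true) (s2 := true) (a := 1) (b := 2) (c := 3) (cn := .npn) (n1 := ndF0q1) (n2 := ndF0q2) (pc := pcF3) (cut := cut_pp_123) (xt := Ext.none) (P1 := 536870912) (W1 := 536870912) (P2 := 0) (W2 := 536870912) (P3 := 67108864) (W3 := 67108864)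
    rfl rfl rfl k0_pp_123

noncomputable def cut_pp_202 : Cut := Cut.of [[⟨3, 0, 0, 1449551462⟩], [⟨4, 0, 0, 2845415833⟩]]

noncomputable def f_pp_202 : ℕ → ℕ → ℕ → ℕ → Bool := onCell 0 536870912 0 536870912 67108864 67108864
    (rowFK 0 true true true .pp 2 0 2 (qsf 0 536870912 0 536870912 2) ndF0q2 ndF0q0 pcF2 cut_pp_202 Ext.none)

def k0_pp_202 : ∃ t, chk3 f_pp_202 t 1 1 1 = true :=
  ⟨(l 5), by decide +kernel⟩

theorem c_pp_202 : CertF 0 536870912 0 536870912 67108864 67108864 true true true .pp 2 0 2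
    ndF0q2 ndF0q0 pcF2 cut_pp_202 Ext.none :=
  certFK0 (fam := true) (s1 := true) (s2 := true) (a := 2) (b := 0) (c := 2) (cn := .pp) (n1 := ndF0q2) (n2 := ndF0q0) (pc := pcF2) (cut := cut_pp_202) (xt := Ext.none) (P1 := 0) (W1 := 536870912) (P2 := 0) (W2 := 536870912) (P3 := 67108864) (W3 := 67108864)
    rfl rfl rfl k0_pp_202

noncomputable def cut_pp_203 : Cut := Cut.of [[⟨3, 0, 0, 1449551462⟩], [⟨4, 0, 0, 2845415833⟩]]

noncomputable def f_pp_203 : ℕ → ℕ → ℕ → ℕ → Bool := onCell 0 536870912 0 536870912 67108864 67108864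
    (rowFK 0 true true true .up 2 0 3 (qsf 0 536870912 0 536870912 3) ndF0q2 ndF0q0 pcF3 cut_pp_203 Ext.none)

def k0_pp_203 : ∃ t, chk3 f_pp_203 t 1 1 1 = true :=
  ⟨(l 5), by decide +kernel⟩

theorem c_pp_203 : CertF 0 536870912 0 536870912 67108864 67108864 true true true .up 2 0 3
    ndF0q2 ndF0q0 pcF3 cut_pp_203 Ext.none :=
  certFK0 (fam := true) (s1 := true) (s2 := true) (a := 2) (b := 0) (c := 3) (cn := .up) (n1 := ndF0q2) (n2 := ndF0q0) (pc := pcF3) (cut := cut_pp_203) (xt := Ext.none) (P1 := 0) (W1 := 536870912) (P2 := 0) (W2 := 536870912) (P3 := 67108864) (W3 := 67108864)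
    rfl rfl rfl k0_pp_203

noncomputable def cut_pp_213 : Cut := Cut.of [[⟨3, 0, 0, 1449551462⟩], [⟨4, 0, 0, 2845415833⟩]]

noncomputable def f_pp_213 : ℕ → ℕ → ℕ → ℕ → Bool := onCell 0 536870912 536870912 536870912 67108864 67108864
    (rowFK 0 true true true .pnn 2 1 3 (qsf 0 536870912 536870912 536870912 3) ndF0q2 ndF0q1 pcF3 cut_pp_213 Ext.none)

def k0_pp_213 : ∃ t, chk3 f_pp_213 t 1 1 1 = true :=
  ⟨(a (l 5) (l 4)), by decide +kernel⟩

theorem c_pp_213 : CertF 0 536870912 536870912 536870912 67108864 67108864 true true true .pnn 2 1 3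
    ndF0q2 ndF0q1 pcF3 cut_pp_213 Ext.none :=
  certFK0 (fam := true) (s1 := true) (s2 := true) (a := 2) (b := 1) (c := 3) (cn := .pnn) (n1 := ndF0q2) (n2 := ndF0q1) (pc := pcF3) (cut := cut_pp_213) (xt := Ext.none) (P1 := 0) (W1 := 536870912) (P2 := 536870912) (W2 := 536870912) (P3 := 67108864) (W3 := 67108864)
    rfl rfl rfl k0_pp_213

noncomputable def cut_pm_001 : Cut := Cut.of [[⟨3, 0, 0, 1449551462⟩], [⟨4, 0, 0, 2845415833⟩]]

noncomputable def f_pm_001 : ℕ → ℕ → ℕ → ℕ → Bool := onCell 0 536870912 0 536870912 67108864 67108864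
    (rowFK 0 true true false .up 0 0 1 (qsf 0 536870912 0 536870912 1) ndF0q0 ndF0q0 pcF1 cut_pm_001 Ext.none)

def k0_pm_001 : ∃ t, chk3 f_pm_001 t 1 1 1 = true :=
  ⟨(l 3), by decide +kernel⟩

theorem c_pm_001 : CertF 0 536870912 0 536870912 67108864 67108864 true true false .up 0 0 1
    ndF0q0 ndF0q0 pcF1 cut_pm_001 Ext.none :=
  certFK0 (fam := true) (s1 := true) (s2 := false) (a := 0) (b := 0) (c := 1) (cn := .up) (n1 := ndF0q0) (n2 := ndF0q0) (pc := pcF1) (cut := cut_pm_001) (xt := Ext.none) (P1 := 0) (W1 := 536870912) (P2 := 0) (W2 := 536870912) (P3 := 67108864) (W3 := 67108864)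
    rfl rfl rfl k0_pm_001

noncomputable def cut_pm_011 : Cut := Cut.of [[⟨3, 0, 0, 1449551462⟩], [⟨4, 0, 0, 2845415833⟩], [⟨0, 0, 0, 67108864⟩, ⟨1, 1, 0, 67108864⟩, ⟨2, 1, 0, 67108864⟩]]

noncomputable def f_pm_011 : ℕ → ℕ → ℕ → ℕ → Bool := onCell 0 536870912 536870912 536870912 67108864 67108864
    (rowFK 1 true true false .pnn 0 1 1 (qsf 0 536870912 536870912 536870912 1) ndF0q0 ndF0q1 pcF1 cut_pm_011 Ext.none)

def k0_pm_011 : ∃ t, chk3 f_pm_011 t 1 1 1 = true :=
  ⟨(l 6), by decide +kernel⟩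

theorem c_pm_011 : CertF 0 536870912 536870912 536870912 67108864 67108864 true true false .pnn 0 1 1
    ndF0q0 ndF0q1 pcF1 cut_pm_011 Ext.none :=
  certFK1 (fam := true) (s1 := true) (s2 := false) (a := 0) (b := 1) (c := 1) (cn := .pnn) (n1 := ndF0q0) (n2 := ndF0q1) (pc := pcF1) (cut := cut_pm_011) (xt := Ext.none) (P1 := 0) (W1 := 536870912) (P2 := 536870912) (W2 := 536870912) (P3 := 67108864) (W3 := 67108864)
    rfl rfl rfl (fun _ => rfl) k0_pm_011

noncomputable def cut_pm_012 : Cut := Cut.of [[⟨3, 0, 0, 1449551462⟩], [⟨4, 0, 0, 2845415833⟩], [⟨0, 0, 0, 16777216⟩, ⟨1, 1, 0, 16777216⟩, ⟨2, 1, 0, 16777216⟩], [⟨0, 0, 1, 33554432⟩, ⟨1, 1, 0, 8388608⟩, ⟨2, 1, 1, 33554432⟩, ⟨0, 0, 0, 150994944⟩, ⟨0, 1, 0, 1023410176⟩, ⟨2, 1, 0, 150994944⟩, ⟨2, 2, 0, 1023410176⟩]]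

noncomputable def f_pm_012 : ℕ → ℕ → ℕ → ℕ → Bool := onCell 0 536870912 536870912 536870912 67108864 67108864
    (rowFK 0 true true false .pnp 0 1 2 (qsf 0 536870912 536870912 536870912 2) ndF0q0 ndF0q1 pcF2 cut_pm_012 Ext.none)

def k0_pm_012 : ∃ t, chk3 f_pm_012 t 1 1 1 = true :=
  ⟨(b (l 6) (a (a (l 6) (b (l 6) (a (l 6) (b (l 6) (a (l 6) (b (l 6) (b (l 6) (a (l 17671808) (l 17757584))))))))) (a (b (l 6) (b (a (l 6) (b (l 6) (a (l 17468408) (l 17510304)))) (a (a (b (b (l 6) (l 17596056)) (b (l 17704992) (l 17811232))) (b (l 17505880) (c (l 17915072) (l 17714704)))) (b (a (l 17659080) (l 17688824)) (a (l 17850912) (l 17869880)))))) (b (b (l 6) (a (b (l 6) (a (l 6) (l 17273208))) (l 17415224))) (a (b (b (a (l 17373576) (l 17392248)) (l 17540296)) (b (l 17703320) (l 17870488))) (b (b (l 17397120) (l 17530248)) (b (l 17677064) (l 17829264)))))))), by decide +kernel⟩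

theorem c_pm_012 : CertF 0 536870912 536870912 536870912 67108864 67108864 true true false .pnp 0 1 2
    ndF0q0 ndF0q1 pcF2 cut_pm_012 Ext.none :=
  certFK0 (fam := true) (s1 := true) (s2 := false) (a := 0) (b := 1) (c := 2) (cn := .pnp) (n1 := ndF0q0) (n2 := ndF0q1) (pc := pcF2) (cut := cut_pm_012) (xt := Ext.none) (P1 := 0) (W1 := 536870912) (P2 := 536870912) (W2 := 536870912) (P3 := 67108864) (W3 := 67108864)
    rfl rfl rfl k0_pm_012

noncomputable def cut_pm_022 : Cut := Cut.of [[⟨3, 0, 0, 1449551462⟩], [⟨4, 0, 0, 2845415833⟩], [⟨0, 0, 0, 67108864⟩, ⟨1, 1, 0, 67108864⟩, ⟨2, 1, 0, 67108864⟩], [⟨0, 0, 1, 33554432⟩, ⟨1, 1, 0, 8388608⟩, ⟨2, 1, 1, 33554432⟩, ⟨0, 0, 0, 150994944⟩, ⟨0, 1, 0, 1023410176⟩, ⟨2, 1, 0, 150994944⟩, ⟨2, 2, 0, 1023410176⟩]]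

noncomputable def f_pm_022 : ℕ → ℕ → ℕ → ℕ → Bool := onCell 0 536870912 0 536870912 67108864 67108864
    (rowFK 0 true true false .pp 0 2 2 (qsf 0 536870912 0 536870912 2) ndF0q0 ndF0q2 pcF2 cut_pm_022 Ext.none)

def k0_pm_022 : ∃ t, chk3 f_pm_022 t 2 2 1 = true :=
  ⟨(a (b (a (a (a (c (l 18487824) (b (l 17786112) (b (l 17824416) (l 17639576)))) (b (l 18182800) (l 18012216))) (b (l 18151664) (l 18127288))) (b (l 18030488) (l 18059344))) (a (a (c (b (l 18286024) (a (l 18178264) (l 18268112))) (b (a (a (b (b (l 17591152) (l 17672664)) (l 17480584)) (b (l 17607488) (l 17662712))) (b (l 17756288) (l 17748192))) (b (a (a (l 17269728) (l 17515912)) (l 17649400)) (a (a (l 17073680) (l 17265176)) (a (l 17473376) (l 17556792)))))) (b (b (l 17873520) (l 18030392)) (c (l 18282664) (a (l 17617632) (l 17775336))))) (b (a (l 18088368) (l 18039600)) (a (l 18043736) (l 18029624))))) (b (a (l 17865744) (l 17685056)) (a (b (l 17943672) (l 17970224)) (b (l 17797432) (l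 17857896))))), by decide +kernel⟩

def k1_pm_022 : ∃ t, chk3 f_pm_022 t 4 3 1 = true :=
  ⟨(b (a (a (b (b (c (a (l 17898512) (l 18112592)) (a (a (l 16894712) (l 17043944)) (a (l 17179592) (l 17373400)))) (c (a (c (l 18043992) (a (l 17446576) (l 17589400))) (l 17956288)) (a (b (l 16751656) (l 16727264)) (a (l 16928240) (l 17053872))))) (a (b (a (b (l 16805824) (l 16718832)) (c (c (l 17830928) (l 17022048)) (l 16714200))) (l 6)) (b (c (c (l 17974904) (a (l 17436392) (l 17562728))) (a (l 16709200) (l 16808016))) (b (a (l 16771984) (c (l 17460720) (l 16693240))) (l 6))))) (a (b (c (l 18114552) (b (l 17417632) (a (l 17172872) (l 17375664)))) (b (c (l 17875992) (a (l 16885672) (l 16975048))) (b (c (l 17615168) (l 16715328)) (a (l 6) (c (l 17640952) (l 16819488)))))) (b (c (l 18154744) (b (l 17641440) (l 17490968))) (c (b (l 17992192) (b (l 17875768) (l 17780808))) (b (b (l 17367776) (l 17122808)) (b (a (l 17118952) (l 17231400)) (a (l 16937608) (l 17048096))))))))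 (b (a (c (l 18174944) (b (l 17748768) (l 17620192))) (l 17977272)) (c (a (b (l 18067800) (a (l 17924632) (l 17985256))) (l 18070928)) (a (b (a (l 17448280) (l 17594184)) (a (c (l 17322696) (b (l 17217736) (l 17050032))) (b (l 17497840) (l 17421440)))) (b (l 17695664) (l 17370784)))))) (b (a (a (l 6) (b (b (a (l 6) (a (l 6) (c (l 17708344) (l 16930352)))) (l 6)) (l 6))) (a (b (a (b (c (l 17803144) (a (l 17037040) (l 17164400))) (l 6)) (c (l 17853024) (b (l 17229624) (a (l 17169512) (l 17277696))))) (l 6)) (c (b (l 17943856) (a (l 17777424) (l 17850072))) (b (a (b (l 17462208) (l 17384128)) (l 17524704)) (a (b (l 17191480) (l 6)) (b (l 17421832) (l 17279432))))))) (l 6))), by decide +kernel⟩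

def k2_pm_022 : ∃ t, chk3 f_pm_022 t 5 3 1 = true :=
  ⟨(b (b (a (l 17968888) (l 17903168)) (a (b (l 17942584) (a (l 17888000) (l 17918336))) (l 17922352))) (b (a (a (b (l 17672440) (a (l 17441976) (l 17731712))) (b (l 17877592) (l 17817072))) (b (l 17913176) (l 17889576))) (a (b (b (c (l 17891448) (a (a (l 17336312) (l 17474640)) (l 17584032))) (a (l 6) (l 17561032))) (a (l 6) (a (l 6) (b (l 17641528) (l 6))))) (a (c (l 17932696) (b (l 17667552) (b (l 17607160) (l 17433720)))) (b (l 17872672) (l 17718632)))))), by decide +kernel⟩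

def k3_pm_022 : ∃ t, chk3 f_pm_022 t 3 1 1 = true :=
  ⟨(b (a (b (a (l 17510880) (b (l 17298504) (l 17394808))) (a (b (l 17644592) (l 17727232)) (b (l 17490248) (a (l 17621512) (l 17548648))))) (b (l 2) (a (a (l 67211242023) (l 2)) (l 2)))) (b (a (b (a (l 17804192) (l 17682488)) (a (l 17867760) (l 17779064))) (a (b (b (l 37146059063) (l 17573512)) (l 17663840)) (l 2))) (a (a (b (l 17908416) (a (a (l 17820992) (l 17901344)) (l 17919136))) (b (l 17865184) (b (l 17917784) (l 17941824)))) (b (a (l 17783960) (l 17675176)) (a (l 17895488) (l 17822360)))))), by decide +kernel⟩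

theorem s4_pm_022 : ∃ t, chk3 f_pm_022 t 2 3 1 = true := ex3_a k1_pm_022 k2_pm_022

theorem s5_pm_022 : ∃ t, chk3 f_pm_022 t 2 1 1 = true := ex3_b k0_pm_022 s4_pm_022

theorem s6_pm_022 : ∃ t, chk3 f_pm_022 t 1 1 1 = true := ex3_a s5_pm_022 k3_pm_022

theorem c_pm_022 : CertF 0 536870912 0 536870912 67108864 67108864 true true false .pp 0 2 2
    ndF0q0 ndF0q2 pcF2 cut_pm_022 Ext.none :=
  certFK0 (fam := true) (s1 := true) (s2 := false) (a := 0) (b := 2) (c := 2) (cn := .pp) (n1 := ndF0q0) (n2 := ndF0q2) (pc := pcF2) (cut := cut_pm_022) (xt := Ext.none) (P1 := 0) (W1 := 536870912) (P2 := 0) (W2 := 536870912) (P3 := 67108864) (W3 := 67108864)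
    rfl rfl rfl s6_pm_022

noncomputable def cut_pm_023 : Cut := Cut.of [[⟨3, 0, 0, 1449551462⟩], [⟨4, 0, 0, 2845415833⟩]]

noncomputable def f_pm_023 : ℕ → ℕ → ℕ → ℕ → Bool := onCell 1610612736 536870912 0 536870912 67108864 67108864
    (rowFK 2 true true false .up 0 2 3 (qsf 0 536870912 0 536870912 3) ndF0q0 ndF0q2 pcF3 cut_pm_023 Ext.none)

def k0_pm_023 : ∃ t, chk3 f_pm_023 t 1 1 1 = true :=
  ⟨(a (b (a (b (a (b (l 17479600) (l 17663472)) (b (a (l 17323064) (l 17220232)) (l 17512912))) (a (b (l 17892744) (a (l 18098728) (l 17992848))) (b (l 17632448) (l 17822592)))) (a (b (b (l 14) (l 135393567655)) (a (l 17790472) (l 2))) (l 2))) (a (b (a (b (b (l 18321184) (l 17947936)) (l 17730568)) (b (l 18143328) (l 17687120))) (b (a (l 17630832) (l 17463712)) (a (b (l 17505712) (l 17979136)) (l 2)))) (b (l 2) (l 2)))) (l 2)), by decide +kernel⟩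

theorem c_pm_023 : CertF 0 536870912 0 536870912 67108864 67108864 true true false .up 0 2 3
    ndF0q0 ndF0q2 pcF3 cut_pm_023 Ext.none :=
  certFK2 (fam := true) (s1 := true) (s2 := false) (a := 0) (b := 2) (c := 3) (cn := .up) (n1 := ndF0q0) (n2 := ndF0q2) (pc := pcF3) (cut := cut_pm_023) (xt := Ext.none) (P1 := 0) (W1 := 536870912) (P2 := 0) (W2 := 536870912) (P3 := 67108864) (W3 := 67108864)
    rfl rfl rfl (fun _ => rfl) k0_pm_023

noncomputable def cut_pm_101 : Cut := Cut.of [[⟨3, 0, 0, 1449551462⟩], [⟨4, 0, 0, 2845415833⟩], [⟨0, 1, 0, 67108864⟩, ⟨1, 0, 0, 67108864⟩, ⟨2, 1, 0, 67108864⟩]]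

noncomputable def f_pm_101 : ℕ → ℕ → ℕ → ℕ → Bool := onCell 536870912 536870912 536870912 536870912 67108864 67108864
    (rowFK 1 true true false .npn 1 0 1 (qsf 536870912 536870912 0 536870912 1) ndF0q1 ndF0q0 pcF1 cut_pm_101 Ext.none)

def k0_pm_101 : ∃ t, chk3 f_pm_101 t 1 1 1 = true :=
  ⟨(l 6), by decide +kernel⟩

theorem c_pm_101 : CertF 536870912 536870912 0 536870912 67108864 67108864 true true false .npn 1 0 1
    ndF0q1 ndF0q0 pcF1 cut_pm_101 Ext.none :=
  certFK1 (fam := true) (s1 := true) (s2 := false) (a := 1) (b := 0) (c := 1) (cn := .npn) (n1 := ndF0q1) (n2 := ndF0q0) (pc := pcF1) (cut := cut_pm_101) (xt := Ext.none) (P1 := 536870912) (W1 := 536870912) (P2 := 0) (W2 := 536870912) (P3 := 67108864) (W3 := 67108864)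
    rfl rfl rfl (fun _ => rfl) k0_pm_101

noncomputable def cut_pm_102 : Cut := Cut.of [[⟨3, 0, 0, 1449551462⟩], [⟨4, 0, 0, 2845415833⟩], [⟨0, 1, 0, 16777216⟩, ⟨1, 0, 0, 16777216⟩, ⟨2, 1, 0, 16777216⟩], [⟨0, 1, 0, 8388608⟩, ⟨1, 0, 1, 33554432⟩, ⟨2, 1, 1, 33554432⟩, ⟨1, 0, 0, 150994944⟩, ⟨1, 1, 0, 1023410176⟩, ⟨2, 1, 0, 150994944⟩, ⟨2, 2, 0, 1023410176⟩]]

noncomputable def f_pm_102 : ℕ → ℕ → ℕ → ℕ → Bool := onCell 536870912 536870912 0 536870912 67108864 67108864
    (rowFK 0 true true false .npp 1 0 2 (qsf 536870912 536870912 0 536870912 2) ndF0q1 ndF0q0 pcF2 cut_pm_102 Ext.none)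

def k0_pm_102 : ∃ t, chk3 f_pm_102 t 1 1 1 = true :=
  ⟨(a (l 6) (b (a (l 6) (b (l 6) (a (l 6) (b (l 6) (a (l 6) (a (l 6) (b (l 6) (a (l 17708528) (l 17763888))))))))) (a (b (l 6) (a (l 6) (b (a (l 6) (b (l 6) (l 17273208))) (l 17415224)))) (b (a (b (l 6) (a (l 6) (b (l 17468408) (l 17510304)))) (b (b (a (a (l 6) (l 17596056)) (a (l 17704992) (l 17811232))) (a (l 17505880) (c (l 17915072) (l 17714704)))) (a (b (l 17659080) (l 17688824)) (b (l 17850912) (l 17869880))))) (b (a (a (b (l 17373576) (l 17392248)) (l 17540296)) (a (l 17703320) (l 17870488))) (a (a (l 17397120) (l 17530248)) (a (l 17677064) (l 17829264)))))))), by decide +kernel⟩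

theorem c_pm_102 : CertF 536870912 536870912 0 536870912 67108864 67108864 true true false .npp 1 0 2
    ndF0q1 ndF0q0 pcF2 cut_pm_102 Ext.none :=
  certFK0 (fam := true) (s1 := true) (s2 := false) (a := 1) (b := 0) (c := 2) (cn := .npp) (n1 := ndF0q1) (n2 := ndF0q0) (pc := pcF2) (cut := cut_pm_102) (xt := Ext.none) (P1 := 536870912) (W1 := 536870912) (P2 := 0) (W2 := 536870912) (P3 := 67108864) (W3 := 67108864)
    rfl rfl rfl k0_pm_102

noncomputable def cut_pm_112 : Cut := Cut.of [[⟨3, 0, 0, 1449551462⟩], [⟨4, 0, 0, 2845415833⟩]]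

noncomputable def f_pm_112 : ℕ → ℕ → ℕ → ℕ → Bool := onCell 536870912 536870912 1073741824 536870912 67108864 67108864
    (rowFK 1 true true false .dn 1 1 2 (qsf 536870912 536870912 536870912 536870912 2) ndF0q1 ndF0q1 pcF2 cut_pm_112 Ext.none)

def k0_pm_112 : ∃ t, chk3 f_pm_112 t 1 1 1 = true :=
  ⟨(a (b (l 6) (b (b (l 6) (a (a (a (l 17258496) (l 17211000)) (l 17151672)) (a (l 17097856) (l 17119816)))) (a (b (a (a (b (l 17353176) (l 17436712)) (l 17340320)) (l 17247984)) (a (a (b (l 17564368) (l 17704600)) (b (l 17412536) (l 17527800))) (a (l 17385592) (l 17295056)))) (a (b (l 17172200) (l 17235088)) (b (l 17143608) (l 17167256)))))) (b (a (l 6) (l 1)) (a (b (a (b (l 6) (l 17190056)) (b (l 136936895799) (l 57479807591))) (a (l 17436992) (b (l 17292144) (l 17273592)))) (b (a (b (l 1) (a (l 17503856) (l 1))) (l 1)) (a (b (a (l 17405704) (l 17520712)) (a (l 17346848) (l 17479536))) (a (b (l 17688128) (l 17631808)) (b (l 1) (l 17812264)))))))), by decide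 +kernel⟩

theorem c_pm_112 : CertF 536870912 536870912 536870912 536870912 67108864 67108864 true true false .dn 1 1 2
    ndF0q1 ndF0q1 pcF2 cut_pm_112 Ext.none :=
  certFK1 (fam := true) (s1 := true) (s2 := false) (a := 1) (b := 1) (c := 2) (cn := .dn) (n1 := ndF0q1) (n2 := ndF0q1) (pc := pcF2) (cut := cut_pm_112) (xt := Ext.none) (P1 := 536870912) (W1 := 536870912) (P2 := 536870912) (W2 := 536870912) (P3 := 67108864) (W3 := 67108864)
    rfl rfl rfl (fun _ => rfl) k0_pm_112

noncomputable def cut_pm_113 : Cut := Cut.of [[⟨3, 0, 0, 1449551462⟩], [⟨4, 0, 0, 2845415833⟩], [⟨0, 1, 0, 21338704⟩, ⟨1, 1, 0, 21338704⟩, ⟨2, 2, 0, 1685920⟩]]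

noncomputable def f_pm_113 : ℕ → ℕ → ℕ → ℕ → Bool := onCell 536870912 536870912 536870912 536870912 67108864 67108864
    (rowFK 0 true true false .nn 1 1 3 (qsf 536870912 536870912 536870912 536870912 3) ndF0q1 ndF0q1 pcF3 cut_pm_113 Ext.none)

def k0_pm_113 : ∃ t, chk3 f_pm_113 t 2 1 1 = true :=
  ⟨(b (a (l 1) (b (l 1) (a (l 1) (l 180423501911)))) (b (a (a (l 1) (b (l 1) (a (l 1) (l 167002299079)))) (a (b (l 17577816) (l 17773856)) (b (l 17282920) (l 17393712)))) (a (b (a (b (l 1) (b (l 1) (l 333432476247))) (b (b (l 167539346183) (a (a (l 1) (a (l 1) (l 166465695079))) (l 175055421239))) (b (a (c (l 267397883783) (b (a (l 1) (a (l 475166333367) (b (b (l 147138263799) (l 17801832)) (l 17763488)))) (l 17686616))) (b (a (b (l 17813408) (l 17811664)) (l 17785808)) (l 17731800))) (l 17695504)))) (b (a (b (l 17393616) (l 17362888)) (b (l 17360928) (l 17275000))) (a (b (l 17611912) (l 17893008)) (b (l 17494960) (l 17736024))))) (b (b (a (l 17641568) (l 17433896))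 (a (a (b (l 17696368) (l 17557672)) (l 17787352)) (a (l 17528232) (l 17360128)))) (b (a (b (l 17343200) (l 17171720)) (b (l 17383672) (l 17124632))) (a (a (l 17638840) (l 17485256)) (b (l 17206264) (l 17343280)))))))), by decide +kernel⟩

def k1_pm_113 : ∃ t, chk3 f_pm_113 t 3 1 1 = true :=
  ⟨(b (a (b (b (l 1) (a (l 1) (b (l 1) (l 167002299079)))) (b (a (l 17577816) (l 17773856)) (a (l 17282920) (l 17393712)))) (b (a (b (a (l 1) (a (l 1) (l 333432476247))) (a (a (l 167539346183) (b (b (l 1) (b (l 1) (l 166465695079))) (l 36005855031))) (a (b (c (l 267397883783) (a (b (l 1) (a (a (b (l 1) (l 147138263799)) (l 75734399079)) (l 17762776))) (l 17686616))) (a (b (a (l 17813408) (l 17811664)) (l 17785808)) (l 17731800))) (l 17695504)))) (a (b (a (l 17393616) (l 17362888)) (a (l 17360928) (l 17275000))) (b (a (l 17611912) (l 17893008)) (a (l 17494960) (l 17736024))))) (a (a (b (l 17641568) (l 17433896)) (b (b (a (l 17696368) (l 17557672)) (l 17787352)) (b (l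 17528232) (l 17360128)))) (a (b (a (l 17343200) (l 17171720)) (a (l 17383672) (l 17124632))) (b (b (l 17638840) (l 17485256)) (a (l 17206264) (l 17343280))))))) (b (a (b (l 17364088) (l 17312496)) (a (b (l 17223144) (l 17053768)) (b (a (b (l 17162920) (l 17064264)) (a (l 17088088) (l 17138480))) (a (a (l 17029176) (l 17107392)) (a (l 17245400) (b (l 16966240) (l 17073848))))))) (a (b (a (l 17223144) (l 17053768)) (a (b (a (l 17162920) (l 17064264)) (b (l 17088088) (l 17138480))) (b (b (l 17029176) (l 17107392)) (b (l 17245400) (a (l 16966240) (l 17073848)))))) (a (b (l 16974568) (b (a (l 17032824) (l 16980184)) (a (b (l 17096384) (b (l 16919320) (l 17033392))) (b (b (l 17031448) (l 14)) (l 14))))) (b (a (b (l 17032824) (l 16980184)) (b (a (l 17096384) (a (l 16919320) (l 17033392))) (a (a (l 17031448) (l 14)) (l 14)))) (b (a (l 16877336) (l 14)) (l 14))))))), by decide +kernel⟩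

theorem s2_pm_113 : ∃ t, chk3 f_pm_113 t 1 1 1 = true := ex3_a k0_pm_113 k1_pm_113

theorem c_pm_113 : CertF 536870912 536870912 536870912 536870912 67108864 67108864 true true false .nn 1 1 3
    ndF0q1 ndF0q1 pcF3 cut_pm_113 Ext.none :=
  certFK0 (fam := true) (s1 := true) (s2 := false) (a := 1) (b := 1) (c := 3) (cn := .nn) (n1 := ndF0q1) (n2 := ndF0q1) (pc := pcF3) (cut := cut_pm_113) (xt := Ext.none) (P1 := 536870912) (W1 := 536870912) (P2 := 536870912) (W2 := 536870912) (P3 := 67108864) (W3 := 67108864)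
    rfl rfl rfl s2_pm_113

noncomputable def cut_pm_123 : Cut := Cut.of [[⟨3, 0, 0, 1449551462⟩], [⟨4, 0, 0, 2845415833⟩], [⟨0, 1, 0, 21338704⟩, ⟨1, 1, 0, 21338704⟩, ⟨2, 2, 0, 1685920⟩]]

noncomputable def f_pm_123 : ℕ → ℕ → ℕ → ℕ → Bool := onCell 1610612736 536870912 0 536870912 67108864 67108864
    (rowFK 2 true true false .npn 1 2 3 (qsf 536870912 536870912 0 536870912 3) ndF0q1 ndF0q2 pcF3 cut_pm_123 Ext.none)

def k0_pm_123 : ∃ t, chk3 f_pm_123 t 1 1 1 = true :=
  ⟨(a (b (a (b (l 1) (a (l 1) (a (l 1) (l 17753800)))) (a (b (b (l 14) (a (l 17293592) (l 14))) (a (l 17811544) (b (l 17364160) (l 17542424)))) (b (l 14) (a (b (l 17260424) (l 17430720)) (b (l 14) (l 17320224)))))) (a (b (a (l 1) (b (b (l 17948928) (l 17900800)) (l 17687320))) (b (a (l 17673368) (l 17484696)) (a (b (l 17505488) (l 17979040)) (b (l 17359440) (l 17831488))))) (b (a (b (b (l 17741048) (l 17955304)) (l 17788288)) (a (b (l 17606568) (l 17593680)) (b (l 17490232) (l 17686216))))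 (b (a (l 17612680) (l 17570848)) (a (b (l 17183800) (l 17682552)) (b (l 17115440) (l 17351072))))))) (a (b (a (a (b (l 14) (b (l 14) (l 17212064))) (l 14)) (l 14)) (b (a (b (a (l 17368944) (l 17248392)) (a (l 17671256) (b (l 17359152) (l 17379208)))) (b (l 14) (a (b (l 14) (l 17278112)) (l 14)))) (b (a (l 17543840) (a (l 17226248) (l 17287192))) (a (b (l 17135320) (l 17218576)) (b (l 17141544) (a (l 17042720) (l 17054440))))))) (a (b (l 14) (b (l 14) (l 14))) (l 14)))), by decide +kernel⟩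

theorem c_pm_123 : CertF 536870912 536870912 0 536870912 67108864 67108864 true true false .npn 1 2 3
    ndF0q1 ndF0q2 pcF3 cut_pm_123 Ext.none :=
  certFK2 (fam := true) (s1 := true) (s2 := false) (a := 1) (b := 2) (c := 3) (cn := .npn) (n1 := ndF0q1) (n2 := ndF0q2) (pc := pcF3) (cut := cut_pm_123) (xt := Ext.none) (P1 := 536870912) (W1 := 536870912) (P2 := 0) (W2 := 536870912) (P3 := 67108864) (W3 := 67108864)
    rfl rfl rfl (fun _ => rfl) k0_pm_123

noncomputable def cut_pm_202 : Cut := Cut.of [[⟨3, 0, 0, 1449551462⟩], [⟨4, 0, 0, 2845415833⟩], [⟨0, 1, 0, 67108864⟩, ⟨1, 0, 0, 67108864⟩, ⟨2, 1, 0, 67108864⟩], [⟨0, 1, 0, 8388608⟩, ⟨1, 0, 1, 33554432⟩, ⟨2, 1, 1, 33554432⟩, ⟨1, 0, 0, 150994944⟩, ⟨1, 1, 0, 1023410176⟩, ⟨2, 1, 0, 150994944⟩, ⟨2, 2, 0, 1023410176⟩]]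

noncomputable def f_pm_202 : ℕ → ℕ → ℕ → ℕ → Bool := onCell 0 536870912 0 536870912 67108864 67108864
    (rowFK 0 true true false .pp 2 0 2 (qsf 0 536870912 0 536870912 2) ndF0q2 ndF0q0 pcF2 cut_pm_202 Ext.none)

def k0_pm_202 : ∃ t, chk3 f_pm_202 t 2 1 1 = true :=
  ⟨(a (b (b (a (b (b (b (a (l 18182536) (l 18070440)) (l 18182800)) (l 18151664)) (l 18030488)) (b (b (b (a (l 17904104) (c (l 18459568) (l 17576656))) (l 17949304)) (l 18085352)) (l 18059344))) (b (l 17865744) (l 17685056))) (b (b (l 17510880) (a (l 17298504) (l 17394808))) (l 2))) (b (b (b (b (a (c (b (l 18388896) (l 18386912)) (b (b (a (a (l 17570184) (l 17672664)) (l 17438632)) (a (l 17544576) (l 17662712))) (a (l 17714344) (l 17748192)))) (a (c (l 18296800) (b (b (l 17206792) (l 17494944)) (l 17628432))) (c (b (l 18161360) (l 18226176)) (b (b (l 17010744) (l 17223232)) (b (l 17452408) (l 17556792)))))) (c (a (l 18351368) (l 18282664)) (a (a (l 17888464) (l 17845928)) (b (l 17533744) (l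 17775336))))) (a (b (l 18088368) (l 18039600)) (b (l 18043736) (l 18029624)))) (b (a (l 17943672) (l 17970224)) (a (l 17797432) (l 17857896)))) (b (b (a (l 17644592) (l 17727232)) (a (l 17490248) (b (l 17621512) (l 17548648)))) (b (b (l 67211242023) (l 2)) (l 2))))), by decide +kernel⟩

def k1_pm_202 : ∃ t, chk3 f_pm_202 t 6 2 1 = true :=
  ⟨(b (b (b (a (a (c (b (l 17835552) (l 18112592)) (b (b (l 16852760) (l 17022968)) (b (l 17158624) (l 17352432)))) (c (b (c (l 18043928) (b (l 17362648) (l 17589400))) (l 17956288)) (b (a (l 16751656) (l 16727264)) (b (l 16886296) (l 17032896))))) (b (a (a (b (l 16784848) (c (l 17592192) (l 16716472))) (a (l 16718176) (l 16715824))) (l 6)) (a (c (c (l 17974904) (b (l 17394448) (l 17562728))) (a (l 16760752) (l 16704000))) (a (b (l 16771984) (c (l 17460720) (l 16693240))) (l 6))))) (b (a (c (l 18114552) (a (l 17396656) (b (l 17151904) (l 17354688)))) (a (c (l 17855024) (a (l 16955952) (l 16846272))) (a (c (l 17615168)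 (l 16715328)) (a (c (l 17457992) (l 16773896)) (l 6))))) (a (c (l 18154744) (a (l 17641440) (l 17470000))) (c (a (l 17992192) (a (l 17875768) (l 17780808))) (a (a (l 17367776) (l 17122808)) (a (b (l 17097976) (l 17231400)) (b (l 16937608) (l 17048096)))))))) (a (b (c (l 18174944) (a (l 17748768) (l 17620192))) (l 17977272)) (b (c (a (l 18067800) (b (l 17924632) (l 17985256))) (a (b (l 17427304) (l 17594184)) (b (c (l 17280752) (a (l 17217736) (l 17050032))) (a (l 17497840) (l 17421440))))) (a (l 17899360) (a (l 17842216) (l 17585904)))))) (a (b (l 17968888) (l 17903168)) (b (a (l 17942584) (b (l 17888000) (l 17918336))) (l 17922352)))), by decide +kernel⟩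

def k2_pm_202 : ∃ t, chk3 f_pm_202 t 7 2 1 = true :=
  ⟨(b (a (b (b (l 6) (a (a (a (b (l 6) (c (l 17699120) (l 16833856))) (l 6)) (l 6)) (l 6))) (b (a (b (a (c (l 17803144) (b (l 17037040) (l 17164400))) (l 6)) (c (l 17853024) (a (l 17229624) (b (l 17169512) (l 17277696))))) (l 6)) (c (a (l 17943856) (b (l 17777424) (l 17850072))) (a (b (a (l 17462208) (l 17384128)) (l 17524704)) (b (a (l 17191480) (l 6)) (a (l 17421832) (l 17279432))))))) (l 6)) (a (b (a (b (l 17672440) (l 17877592)) (b (b (l 17441976) (l 17731712)) (l 17817072))) (a (l 17913176) (l 17889576))) (b (a (a (c (l 17891448) (b (b (l 17336312) (l 17474640)) (l 17584032))) (b (l 6) (l 17561032))) (a (a (b (l 6) (l 17519944)) (l 6)) (l 6))) (b (c (l 17932712) (a (l 17667552) (a (l 17607160) (l 17454688)))) (a (l 17872672) (l 17718640)))))), by decide +kernel⟩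

def k3_pm_202 : ∃ t, chk3 f_pm_202 t 3 3 1 = true :=
  ⟨(a (b (a (b (l 17804192) (l 17682488)) (b (l 17867760) (l 17779064))) (b (a (a (l 37146059063) (l 17573512)) (l 17663840)) (l 2))) (b (a (b (l 17908416) (l 17865184)) (a (b (l 17915592) (l 17917784)) (b (a (l 17907640) (l 17896712)) (l 17941824)))) (a (b (l 17783960) (l 17675176)) (b (l 17895488) (l 17822360))))), by decide +kernel⟩

theorem s4_pm_202 : ∃ t, chk3 f_pm_202 t 3 2 1 = true := ex3_a k1_pm_202 k2_pm_202

theorem s5_pm_202 : ∃ t, chk3 f_pm_202 t 3 1 1 = true := ex3_b s4_pm_202 k3_pm_202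

theorem s6_pm_202 : ∃ t, chk3 f_pm_202 t 1 1 1 = true := ex3_a k0_pm_202 s5_pm_202

theorem c_pm_202 : CertF 0 536870912 0 536870912 67108864 67108864 true true false .pp 2 0 2
    ndF0q2 ndF0q0 pcF2 cut_pm_202 Ext.none :=
  certFK0 (fam := true) (s1 := true) (s2 := false) (a := 2) (b := 0) (c := 2) (cn := .pp) (n1 := ndF0q2) (n2 := ndF0q0) (pc := pcF2) (cut := cut_pm_202) (xt := Ext.none) (P1 := 0) (W1 := 536870912) (P2 := 0) (W2 := 536870912) (P3 := 67108864) (W3 := 67108864)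
    rfl rfl rfl s6_pm_202

noncomputable def cut_pm_203 : Cut := Cut.of [[⟨3, 0, 0, 1449551462⟩], [⟨4, 0, 0, 2845415833⟩]]

noncomputable def f_pm_203 : ℕ → ℕ → ℕ → ℕ → Bool := onCell 0 536870912 1610612736 536870912 67108864 67108864
    (rowFK 1 true true false .up 2 0 3 (qsf 0 536870912 0 536870912 3) ndF0q2 ndF0q0 pcF3 cut_pm_203 Ext.none)

def k0_pm_203 : ∃ t, chk3 f_pm_203 t 1 1 1 = true :=
  ⟨(b (a (b (a (a (b (l 17479600) (a (l 17289352) (l 17316576))) (b (l 17663472) (l 17512912))) (a (b (l 17892744) (l 17632448)) (b (a (l 17997888) (l 18323592)) (l 17822592)))) (b (a (a (l 14) (l 135393567655)) (b (l 17790472) (l 2))) (l 2))) (b (a (b (a (a (l 18321184) (l 17947936)) (l 17730568)) (a (l 18143328) (l 17687120))) (a (b (l 17630832) (l 17463712)) (b (a (l 17505712) (l 17979136)) (l 2)))) (a (l 2) (l 2)))) (l 2)), by decide +kernel⟩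

theorem c_pm_203 : CertF 0 536870912 0 536870912 67108864 67108864 true true false .up 2 0 3
    ndF0q2 ndF0q0 pcF3 cut_pm_203 Ext.none :=
  certFK1 (fam := true) (s1 := true) (s2 := false) (a := 2) (b := 0) (c := 3) (cn := .up) (n1 := ndF0q2) (n2 := ndF0q0) (pc := pcF3) (cut := cut_pm_203) (xt := Ext.none) (P1 := 0) (W1 := 536870912) (P2 := 0) (W2 := 536870912) (P3 := 67108864) (W3 := 67108864)
    rfl rfl rfl (fun _ => rfl) k0_pm_203

noncomputable def cut_pm_213 : Cut := Cut.of [[⟨3, 0, 0, 1449551462⟩], [⟨4, 0, 0, 2845415833⟩], [⟨0, 1, 0, 21338704⟩, ⟨1, 1, 0, 21338704⟩, ⟨2, 2, 0, 1685920⟩]]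

noncomputable def f_pm_213 : ℕ → ℕ → ℕ → ℕ → Bool := onCell 0 536870912 1610612736 536870912 67108864 67108864
    (rowFK 1 true true false .pnn 2 1 3 (qsf 0 536870912 536870912 536870912 3) ndF0q2 ndF0q1 pcF3 cut_pm_213 Ext.none)

def k0_pm_213 : ∃ t, chk3 f_pm_213 t 1 1 1 = true :=
  ⟨(b (a (b (a (l 1) (b (l 1) (b (l 1) (l 17753800)))) (b (a (a (l 14) (b (l 17293592) (l 14))) (b (l 17811544) (a (l 17364160) (l 17542424)))) (a (l 14) (b (a (l 17260424) (l 17430720)) (a (l 14) (l 17320224)))))) (b (a (b (l 1) (a (a (l 17948928) (l 17900800)) (l 17687320))) (a (b (l 17673368) (l 17484696)) (b (a (l 17505488) (l 17979040)) (a (l 17359440) (l 17831488))))) (a (b (a (a (l 17741048) (l 17955304)) (l 17788288)) (a (b (l 17606568) (l 17490232)) (b (l 17593680) (l 17686216)))) (a (b (l 17612680) (l 17570848)) (b (a (l 17183800) (l 17682552)) (a (l 17115440) (l 17351072))))))) (b (a (a (l 14) (a (l 14) (b (b (l 17212064) (l 14)) (l 14)))) (a (b (a (b (l 17368944)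 (l 17248392)) (b (l 17671256) (a (l 17359152) (l 17379208)))) (a (l 14) (b (a (l 14) (l 17278112)) (l 14)))) (a (b (l 17543840) (b (l 17226248) (l 17287192))) (a (b (l 17135320) (l 17141544)) (b (l 17218576) (a (l 17072512) (l 17198096))))))) (b (a (l 14) (a (l 14) (l 14))) (l 14)))), by decide +kernel⟩

theorem c_pm_213 : CertF 0 536870912 536870912 536870912 67108864 67108864 true true false .pnn 2 1 3
    ndF0q2 ndF0q1 pcF3 cut_pm_213 Ext.none :=
  certFK1 (fam := true) (s1 := true) (s2 := false) (a := 2) (b := 1) (c := 3) (cn := .pnn) (n1 := ndF0q2) (n2 := ndF0q1) (pc := pcF3) (cut := cut_pm_213) (xt := Ext.none) (P1 := 0) (W1 := 536870912) (P2 := 536870912) (W2 := 536870912) (P3 := 67108864) (W3 := 67108864)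
    rfl rfl rfl (fun _ => rfl) k0_pm_213

noncomputable def cut_mm_001 : Cut := Cut.of [[⟨3, 0, 0, 1449551462⟩], [⟨4, 0, 0, 2845415833⟩]]

noncomputable def f_mm_001 : ℕ → ℕ → ℕ → ℕ → Bool := onCell 0 536870912 0 536870912 67108864 67108864
    (rowFK 0 true false false .up 0 0 1 (qsf 0 536870912 0 536870912 1) ndF0q0 ndF0q0 pcF1 cut_mm_001 Ext.none)

def k0_mm_001 : ∃ t, chk3 f_mm_001 t 1 1 1 = true :=
  ⟨(l 4), by decide +kernel⟩

theorem c_mm_001 : CertF 0 536870912 0 536870912 67108864 67108864 true false false .up 0 0 1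
    ndF0q0 ndF0q0 pcF1 cut_mm_001 Ext.none :=
  certFK0 (fam := true) (s1 := false) (s2 := false) (a := 0) (b := 0) (c := 1) (cn := .up) (n1 := ndF0q0) (n2 := ndF0q0) (pc := pcF1) (cut := cut_mm_001) (xt := Ext.none) (P1 := 0) (W1 := 536870912) (P2 := 0) (W2 := 536870912) (P3 := 67108864) (W3 := 67108864)
    rfl rfl rfl k0_mm_001

noncomputable def cut_mm_011 : Cut := Cut.of [[⟨3, 0, 0, 1449551462⟩], [⟨4, 0, 0, 2845415833⟩]]

noncomputable def f_mm_011 : ℕ → ℕ → ℕ → ℕ → Bool := onCell 0 536870912 536870912 536870912 67108864 67108864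
    (rowFK 0 true false false .pnn 0 1 1 (qsf 0 536870912 536870912 536870912 1) ndF0q0 ndF0q1 pcF1 cut_mm_011 Ext.none)

def k0_mm_011 : ∃ t, chk3 f_mm_011 t 1 1 1 = true :=
  ⟨(l 14), by decide +kernel⟩

theorem c_mm_011 : CertF 0 536870912 536870912 536870912 67108864 67108864 true false false .pnn 0 1 1
    ndF0q0 ndF0q1 pcF1 cut_mm_011 Ext.none :=
  certFK0 (fam := true) (s1 := false) (s2 := false) (a := 0) (b := 1) (c := 1) (cn := .pnn) (n1 := ndF0q0) (n2 := ndF0q1) (pc := pcF1) (cut := cut_mm_011) (xt := Ext.none) (P1 := 0) (W1 := 536870912) (P2 := 536870912) (W2 := 536870912) (P3 := 67108864) (W3 := 67108864)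
    rfl rfl rfl k0_mm_011

noncomputable def cut_mm_012 : Cut := Cut.of [[⟨3, 0, 0, 1449551462⟩], [⟨4, 0, 0, 2845415833⟩]]

noncomputable def f_mm_012 : ℕ → ℕ → ℕ → ℕ → Bool := onCell 0 536870912 536870912 536870912 67108864 67108864
    (rowFK 0 true false false .pnp 0 1 2 (qsf 0 536870912 536870912 536870912 2) ndF0q0 ndF0q1 pcF2 cut_mm_012 Ext.none)

def k0_mm_012 : ∃ t, chk3 f_mm_012 t 1 1 1 = true :=
  ⟨(l 14), by decide +kernel⟩

theorem c_mm_012 : CertF 0 536870912 536870912 536870912 67108864 67108864 true false false .pnp 0 1 2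
    ndF0q0 ndF0q1 pcF2 cut_mm_012 Ext.none :=
  certFK0 (fam := true) (s1 := false) (s2 := false) (a := 0) (b := 1) (c := 2) (cn := .pnp) (n1 := ndF0q0) (n2 := ndF0q1) (pc := pcF2) (cut := cut_mm_012) (xt := Ext.none) (P1 := 0) (W1 := 536870912) (P2 := 536870912) (W2 := 536870912) (P3 := 67108864) (W3 := 67108864)
    rfl rfl rfl k0_mm_012

noncomputable def cut_mm_022 : Cut := Cut.of [[⟨3, 0, 0, 1449551462⟩], [⟨4, 0, 0, 2845415833⟩]]

noncomputable def f_mm_022 : ℕ → ℕ → ℕ → ℕ → Bool := onCell 0 536870912 0 536870912 67108864 67108864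
    (rowFK 0 true false false .pp 0 2 2 (qsf 0 536870912 0 536870912 2) ndF0q0 ndF0q2 pcF2 cut_mm_022 Ext.none)

def k0_mm_022 : ∃ t, chk3 f_mm_022 t 1 1 1 = true :=
  ⟨(l 5), by decide +kernel⟩

theorem c_mm_022 : CertF 0 536870912 0 536870912 67108864 67108864 true false false .pp 0 2 2
    ndF0q0 ndF0q2 pcF2 cut_mm_022 Ext.none :=
  certFK0 (fam := true) (s1 := false) (s2 := false) (a := 0) (b := 2) (c := 2) (cn := .pp) (n1 := ndF0q0) (n2 := ndF0q2) (pc := pcF2) (cut := cut_mm_022) (xt := Ext.none) (P1 := 0) (W1 := 536870912) (P2 := 0) (W2 := 536870912) (P3 := 67108864) (W3 := 67108864)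
    rfl rfl rfl k0_mm_022

noncomputable def cut_mm_023 : Cut := Cut.of [[⟨3, 0, 0, 1449551462⟩], [⟨4, 0, 0, 2845415833⟩]]

noncomputable def f_mm_023 : ℕ → ℕ → ℕ → ℕ → Bool := onCell 0 536870912 0 536870912 67108864 67108864
    (rowFK 0 true false false .up 0 2 3 (qsf 0 536870912 0 536870912 3) ndF0q0 ndF0q2 pcF3 cut_mm_023 Ext.none)

def k0_mm_023 : ∃ t, chk3 f_mm_023 t 1 1 1 = true :=
  ⟨(l 5), by decide +kernel⟩

theorem c_mm_023 : CertF 0 536870912 0 536870912 67108864 67108864 true false false .up 0 2 3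
    ndF0q0 ndF0q2 pcF3 cut_mm_023 Ext.none :=
  certFK0 (fam := true) (s1 := false) (s2 := false) (a := 0) (b := 2) (c := 3) (cn := .up) (n1 := ndF0q0) (n2 := ndF0q2) (pc := pcF3) (cut := cut_mm_023) (xt := Ext.none) (P1 := 0) (W1 := 536870912) (P2 := 0) (W2 := 536870912) (P3 := 67108864) (W3 := 67108864)
    rfl rfl rfl k0_mm_023

noncomputable def cut_mm_101 : Cut := Cut.of [[⟨3, 0, 0, 1449551462⟩], [⟨4, 0, 0, 2845415833⟩], [⟨0, 1, 0, 67108864⟩, ⟨1, 0, 0, 67108864⟩, ⟨2, 1, 0, 67108864⟩]]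

noncomputable def f_mm_101 : ℕ → ℕ → ℕ → ℕ → Bool := onCell 536870912 536870912 0 536870912 67108864 67108864
    (rowFK 0 true false false .npn 1 0 1 (qsf 536870912 536870912 0 536870912 1) ndF0q1 ndF0q0 pcF1 cut_mm_101 Ext.none)

def k0_mm_101 : ∃ t, chk3 f_mm_101 t 1 1 1 = true :=
  ⟨(l 14), by decide +kernel⟩

theorem c_mm_101 : CertF 536870912 536870912 0 536870912 67108864 67108864 true false false .npn 1 0 1
    ndF0q1 ndF0q0 pcF1 cut_mm_101 Ext.none :=
  certFK0 (fam := true) (s1 := false) (s2 := false) (a := 1) (b := 0) (c := 1) (cn := .npn) (n1 := ndF0q1) (n2 := ndF0q0) (pc := pcF1) (cut := cut_mm_101) (xt := Ext.none) (P1 := 536870912) (W1 := 536870912) (P2 := 0) (W2 := 536870912) (P3 := 67108864) (W3 := 67108864)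
    rfl rfl rfl k0_mm_101

noncomputable def cut_mm_102 : Cut := Cut.of [[⟨3, 0, 0, 1449551462⟩], [⟨4, 0, 0, 2845415833⟩], [⟨0, 1, 0, 67108864⟩, ⟨1, 0, 0, 67108864⟩, ⟨2, 1, 0, 67108864⟩]]

noncomputable def f_mm_102 : ℕ → ℕ → ℕ → ℕ → Bool := onCell 536870912 536870912 0 536870912 67108864 67108864
    (rowFK 0 true false false .npp 1 0 2 (qsf 536870912 536870912 0 536870912 2) ndF0q1 ndF0q0 pcF2 cut_mm_102 Ext.none)

def k0_mm_102 : ∃ t, chk3 f_mm_102 t 1 1 1 = true :=
  ⟨(l 14), by decide +kernel⟩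

theorem c_mm_102 : CertF 536870912 536870912 0 536870912 67108864 67108864 true false false .npp 1 0 2
    ndF0q1 ndF0q0 pcF2 cut_mm_102 Ext.none :=
  certFK0 (fam := true) (s1 := false) (s2 := false) (a := 1) (b := 0) (c := 2) (cn := .npp) (n1 := ndF0q1) (n2 := ndF0q0) (pc := pcF2) (cut := cut_mm_102) (xt := Ext.none) (P1 := 536870912) (W1 := 536870912) (P2 := 0) (W2 := 536870912) (P3 := 67108864) (W3 := 67108864)
    rfl rfl rfl k0_mm_102

noncomputable def cut_mm_112 : Cut := Cut.of [[⟨3, 0, 0, 1449551462⟩], [⟨4, 0, 0, 2845415833⟩]]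

noncomputable def f_mm_112 : ℕ → ℕ → ℕ → ℕ → Bool := onCell 536870912 536870912 536870912 536870912 67108864 67108864
    (rowFK 0 true false false .dn 1 1 2 (qsf 536870912 536870912 536870912 536870912 2) ndF0q1 ndF0q1 pcF2 cut_mm_112 Ext.none)

def k0_mm_112 : ∃ t, chk3 f_mm_112 t 1 1 1 = true :=
  ⟨(l 4), by decide +kernel⟩

theorem c_mm_112 : CertF 536870912 536870912 536870912 536870912 67108864 67108864 true false false .dn 1 1 2
    ndF0q1 ndF0q1 pcF2 cut_mm_112 Ext.none :=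
  certFK0 (fam := true) (s1 := false) (s2 := false) (a := 1) (b := 1) (c := 2) (cn := .dn) (n1 := ndF0q1) (n2 := ndF0q1) (pc := pcF2) (cut := cut_mm_112) (xt := Ext.none) (P1 := 536870912) (W1 := 536870912) (P2 := 536870912) (W2 := 536870912) (P3 := 67108864) (W3 := 67108864)
    rfl rfl rfl k0_mm_112

noncomputable def cut_mm_113 : Cut := Cut.of [[⟨3, 0, 0, 1449551462⟩], [⟨4, 0, 0, 2845415833⟩]]

noncomputable def f_mm_113 : ℕ → ℕ → ℕ → ℕ → Bool := onCell 536870912 536870912 536870912 536870912 67108864 67108864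
    (rowFK 0 true false false .nn 1 1 3 (qsf 536870912 536870912 536870912 536870912 3) ndF0q1 ndF0q1 pcF3 cut_mm_113 Ext.none)

def k0_mm_113 : ∃ t, chk3 f_mm_113 t 1 1 1 = true :=
  ⟨(l 4), by decide +kernel⟩

theorem c_mm_113 : CertF 536870912 536870912 536870912 536870912 67108864 67108864 true false false .nn 1 1 3
    ndF0q1 ndF0q1 pcF3 cut_mm_113 Ext.none :=
  certFK0 (fam := true) (s1 := false) (s2 := false) (a := 1) (b := 1) (c := 3) (cn := .nn) (n1 := ndF0q1) (n2 := ndF0q1) (pc := pcF3) (cut := cut_mm_113) (xt := Ext.none) (P1 := 536870912) (W1 := 536870912) (P2 := 536870912) (W2 := 536870912) (P3 := 67108864) (W3 := 67108864)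
    rfl rfl rfl k0_mm_113

noncomputable def cut_mm_123 : Cut := Cut.of [[⟨3, 0, 0, 1449551462⟩], [⟨4, 0, 0, 2845415833⟩]]

noncomputable def f_mm_123 : ℕ → ℕ → ℕ → ℕ → Bool := onCell 536870912 536870912 0 536870912 67108864 67108864
    (rowFK 0 true false false .npn 1 2 3 (qsf 536870912 536870912 0 536870912 3) ndF0q1 ndF0q2 pcF3 cut_mm_123 Ext.none)

def k0_mm_123 : ∃ t, chk3 f_mm_123 t 1 1 1 = true :=
  ⟨(a (l 5) (l 4)), by decide +kernel⟩

theorem c_mm_123 : CertF 536870912 536870912 0 536870912 67108864 67108864 true false false .npn 1 2 3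
    ndF0q1 ndF0q2 pcF3 cut_mm_123 Ext.none :=
  certFK0 (fam := true) (s1 := false) (s2 := false) (a := 1) (b := 2) (c := 3) (cn := .npn) (n1 := ndF0q1) (n2 := ndF0q2) (pc := pcF3) (cut := cut_mm_123) (xt := Ext.none) (P1 := 536870912) (W1 := 536870912) (P2 := 0) (W2 := 536870912) (P3 := 67108864) (W3 := 67108864)
    rfl rfl rfl k0_mm_123

noncomputable def cut_mm_202 : Cut := Cut.of [[⟨3, 0, 0, 1449551462⟩], [⟨4, 0, 0, 2845415833⟩], [⟨0, 1, 0, 25165824⟩, ⟨1, 0, 0, 25165824⟩, ⟨2, 1, 0, 25165824⟩]]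

noncomputable def f_mm_202 : ℕ → ℕ → ℕ → ℕ → Bool := onCell 0 536870912 0 536870912 67108864 67108864
    (rowFK 0 true false false .pp 2 0 2 (qsf 0 536870912 0 536870912 2) ndF0q2 ndF0q0 pcF2 cut_mm_202 Ext.none)

def k0_mm_202 : ∃ t, chk3 f_mm_202 t 1 1 1 = true :=
  ⟨(b (a (b (a (b (b (a (b (l 17916800) (l 18166584)) (b (c (l 18454616) (l 17592432)) (l 18108408))) (a (l 18123792) (l 18062384))) (b (l 17953064) (l 17883656))) (a (b (b (c (b (l 18352232) (l 18298696)) (b (a (l 17660256) (l 17352440)) (l 17698928))) (b (l 17978704) (l 17937616))) (b (l 17855584) (l 17731304))) (b (b (c (b (a (l 18228240) (l 18108536)) (l 18138888)) (b (a (b (l 17321784) (l 17473848)) (b (l 16969008) (l 17317472))) (a (l 17559632) (l 17285728)))) (b (a (l 17867112) (l 17727272)) (l 17744920))) (b (a (l 17751672) (l 17666424)) (l 17582280))))) (a (b (a (l 17762744) (l 17667136)) (a (l 17556216) (l 17447744))) (b (a (l 17543472) (b (l 17451136) (l 17324808))) (a (b (l 17368440)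 (l 17260960)) (l 14))))) (b (a (b (a (b (b (a (c (b (l 17806272) (l 17959680)) (b (a (l 17022936) (l 16879816)) (l 17008272))) (c (c (b (l 17966824) (l 17990416)) (b (a (l 17501408) (l 17243472)) (l 17447456))) (b (l 16731680) (a (l 16919640) (l 16764168))))) (c (a (l 17960184) (b (l 17790584) (l 17796536))) (a (b (l 17206712) (l 17308024)) (b (l 16857928) (l 17013984))))) (c (a (l 17882320) (b (l 17776072) (l 17716504))) (a (b (l 17382464) (l 17424344)) (b (a (l 17269848) (l 17184520)) (l 17295568))))) (a (a (b (b (b (b (l 16806208) (l 16909328)) (c (l 17379416) (l 16731744))) (l 14)) (l 14)) (l 14)) (l 14))) (a (b (a (l 17483080) (l 14)) (l 14)) (l 14))) (l 14)) (l 14))) (a (a (b (b (a (l 17366984) (l 17209864)) (a (l 17195200) (l 14))) (l 2)) (l 14)) (l 14))), by decide +kernel⟩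

theorem c_mm_202 : CertF 0 536870912 0 536870912 67108864 67108864 true false false .pp 2 0 2
    ndF0q2 ndF0q0 pcF2 cut_mm_202 Ext.none :=
  certFK0 (fam := true) (s1 := false) (s2 := false) (a := 2) (b := 0) (c := 2) (cn := .pp) (n1 := ndF0q2) (n2 := ndF0q0) (pc := pcF2) (cut := cut_mm_202) (xt := Ext.none) (P1 := 0) (W1 := 536870912) (P2 := 0) (W2 := 536870912) (P3 := 67108864) (W3 := 67108864)
    rfl rfl rfl k0_mm_202

noncomputable def cut_mm_203 : Cut := Cut.of [[⟨3, 0, 0, 1449551462⟩], [⟨4, 0, 0, 2845415833⟩]]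

noncomputable def f_mm_203 : ℕ → ℕ → ℕ → ℕ → Bool := onCell 0 536870912 1610612736 536870912 67108864 67108864
    (rowFK 1 true false false .up 2 0 3 (qsf 0 536870912 0 536870912 3) ndF0q2 ndF0q0 pcF3 cut_mm_203 Ext.none)

def k0_mm_203 : ∃ t, chk3 f_mm_203 t 1 1 1 = true :=
  ⟨(a (b (b (a (b (a (b (l 17341600) (l 14)) (l 14)) (l 14)) (l 14)) (l 14)) (l 2)) (l 14)), by decide +kernel⟩

theorem c_mm_203 : CertF 0 536870912 0 536870912 67108864 67108864 true false false .up 2 0 3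
    ndF0q2 ndF0q0 pcF3 cut_mm_203 Ext.none :=
  certFK1 (fam := true) (s1 := false) (s2 := false) (a := 2) (b := 0) (c := 3) (cn := .up) (n1 := ndF0q2) (n2 := ndF0q0) (pc := pcF3) (cut := cut_mm_203) (xt := Ext.none) (P1 := 0) (W1 := 536870912) (P2 := 0) (W2 := 536870912) (P3 := 67108864) (W3 := 67108864)
    rfl rfl rfl (fun _ => rfl) k0_mm_203

noncomputable def cut_mm_213 : Cut := Cut.of [[⟨3, 0, 0, 1449551462⟩], [⟨4, 0, 0, 2845415833⟩]]

noncomputable def f_mm_213 : ℕ → ℕ → ℕ → ℕ → Bool := onCell 0 536870912 536870912 536870912 67108864 67108864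
    (rowFK 0 true false false .pnn 2 1 3 (qsf 0 536870912 536870912 536870912 3) ndF0q2 ndF0q1 pcF3 cut_mm_213 Ext.none)

def k0_mm_213 : ∃ t, chk3 f_mm_213 t 1 1 1 = true :=
  ⟨(a (l 14) (l 4)), by decide +kernel⟩

theorem c_mm_213 : CertF 0 536870912 536870912 536870912 67108864 67108864 true false false .pnn 2 1 3
    ndF0q2 ndF0q1 pcF3 cut_mm_213 Ext.none :=
  certFK0 (fam := true) (s1 := false) (s2 := false) (a := 2) (b := 1) (c := 3) (cn := .pnn) (n1 := ndF0q2) (n2 := ndF0q1) (pc := pcF3) (cut := cut_mm_213) (xt := Ext.none) (P1 := 0) (W1 := 536870912) (P2 := 536870912) (W2 := 536870912) (P3 := 67108864) (W3 := 67108864)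
    rfl rfl rfl k0_mm_213

end Pool.Agent.Strip051.G.I1_16_1_8.Tab.C.FA00

namespace Pool.Agent.Strip051.G.I1_16_1_8.Tab.C.FA01

open Pool.Agent.Strip051.PB Pool.Agent.Strip051.PB.T
open Pool.Agent.Strip051.G.I1_16_1_8.Tab

noncomputable def f_pp_001 : ℕ → ℕ → ℕ → ℕ → Bool := onCell 0 536870912 0 536870912 67108864 67108864
    (rowFK 0 true true true .up 0 0 1 (qsf 0 536870912 0 536870912 1) ndF0q0 ndF1q0 pcF1 Cut.none Ext.none)

def k0_pp_001 : ∃ t, chk3 f_pp_001 t 1 1 1 = true :=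
  ⟨(l 4), by decide +kernel⟩

theorem c_pp_001 : CertF 0 536870912 0 536870912 67108864 67108864 true true true .up 0 0 1
    ndF0q0 ndF1q0 pcF1 Cut.none Ext.none :=
  certFK0 (fam := true) (s1 := true) (s2 := true) (a := 0) (b := 0) (c := 1) (cn := .up) (n1 := ndF0q0) (n2 := ndF1q0) (pc := pcF1) (cut := Cut.none) (xt := Ext.none) (P1 := 0) (W1 := 536870912) (P2 := 0) (W2 := 536870912) (P3 := 67108864) (W3 := 67108864)
    rfl rfl rfl k0_pp_001

noncomputable def f_pp_011 : ℕ → ℕ → ℕ → ℕ → Bool := onCell 0 536870912 536870912 536870912 67108864 67108864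
    (rowFK 0 true true true .pnn 0 1 1 (qsf 0 536870912 536870912 536870912 1) ndF0q0 ndF1q1 pcF1 Cut.none Ext.none)

def k0_pp_011 : ∃ t, chk3 f_pp_011 t 1 1 1 = true :=
  ⟨(l 4), by decide +kernel⟩

theorem c_pp_011 : CertF 0 536870912 536870912 536870912 67108864 67108864 true true true .pnn 0 1 1
    ndF0q0 ndF1q1 pcF1 Cut.none Ext.none :=
  certFK0 (fam := true) (s1 := true) (s2 := true) (a := 0) (b := 1) (c := 1) (cn := .pnn) (n1 := ndF0q0) (n2 := ndF1q1) (pc := pcF1) (cut := Cut.none) (xt := Ext.none) (P1 := 0) (W1 := 536870912) (P2 := 536870912) (W2 := 536870912) (P3 := 67108864) (W3 := 67108864)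
    rfl rfl rfl k0_pp_011

noncomputable def f_pp_012 : ℕ → ℕ → ℕ → ℕ → Bool := onCell 0 536870912 536870912 536870912 67108864 67108864
    (rowFK 0 true true true .pnp 0 1 2 (qsf 0 536870912 536870912 536870912 2) ndF0q0 ndF1q1 pcF2 Cut.none Ext.none)

def k0_pp_012 : ∃ t, chk3 f_pp_012 t 1 1 1 = true :=
  ⟨(l 4), by decide +kernel⟩

theorem c_pp_012 : CertF 0 536870912 536870912 536870912 67108864 67108864 true true true .pnp 0 1 2
    ndF0q0 ndF1q1 pcF2 Cut.none Ext.none :=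
  certFK0 (fam := true) (s1 := true) (s2 := true) (a := 0) (b := 1) (c := 2) (cn := .pnp) (n1 := ndF0q0) (n2 := ndF1q1) (pc := pcF2) (cut := Cut.none) (xt := Ext.none) (P1 := 0) (W1 := 536870912) (P2 := 536870912) (W2 := 536870912) (P3 := 67108864) (W3 := 67108864)
    rfl rfl rfl k0_pp_012

noncomputable def cut_pp_022_a : Cut := Cut.of [[⟨0, 0, 0, 67108864⟩, ⟨1, 1, 0, 67108864⟩, ⟨2, 1, 0, 67108864⟩]]

noncomputable def f_pp_022_a : ℕ → ℕ → ℕ → ℕ → Bool := onCell 0 536870912 0 536870912 67108864 67108864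
    (rowFK 0 true true true .pp 0 2 2 (qsf 0 536870912 0 536870912 2) ndF0q0 ndF1q2a pcF2 cut_pp_022_a Ext.none)

def k0_pp_022_a : ∃ t, chk3 f_pp_022_a t 1 1 1 = true :=
  ⟨(a (b (a (a (a (b (a (c (l 18453824) (l 17735096)) (l 18068520)) (c (b (l 18290616) (a (l 18139008) (l 18091064))) (b (a (l 17552240) (l 17637880)) (a (b (l 17370112) (l 17028824)) (l 17229760))))) (b (l 17976952) (b (l 17869160) (a (l 17730744) (l 17701856))))) (b (a (l 17815336) (l 17644832)) (a (b (l 17714352) (l 17594048)) (b (l 17543368) (l 4))))) (a (b (a (l 17481024) (l 17330224)) (l 4)) (b (l 64123578807) (l 4)))) (a (b (a (b (b (a (c (a (l 17850312) (l 17915424)) (a (a (l 16872192) (l 17048480)) (l 17196896))) (a (l 17550056) (l 17563736))) (a (a (c (a (l 17464688) (l 17721064)) (l 16652144)) (c (l 17753368) (a (l 16950160) (l 17070888)))) (a (c (l 17721616) (l 17097960)) (l 17383336)))) (a (a (b (a (l 16659672) (l 16740872)) (a (b (l 16662432) (l 16670712)) (b (l 16666472)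 (l 16674632)))) (b (c (a (l 17418048) (l 17556192)) (a (l 16663400) (l 16838744))) (a (b (l 16850704) (l 16678384)) (b (l 16897368) (l 16810120))))) (a (a (b (c (l 17561520) (l 16959176)) (c (l 82376765303) (l 16708048))) (b (l 17042512) (l 4))) (l 4)))) (b (a (b (l 17472512) (l 4)) (l 4)) (l 4))) (a (a (a (b (b (a (b (a (l 16678864) (l 16680808)) (a (l 16688864) (l 16690752))) (b (l 16683616) (a (l 16692592) (l 16694384)))) (a (b (a (l 6) (l 16706848)) (l 6)) (a (b (l 16708624) (l 6)) (b (l 16715800) (a (l 6) (l 16730440)))))) (l 6)) (b (b (b (a (l 16687432) (l 16716808)) (a (a (l 16696400) (l 16700504)) (l 4))) (b (a (a (b (l 16705456) (l 16712800)) (l 4)) (l 4)) (l 4))) (l 4))) (l 4)) (l 4))) (l 4))) (l 4)), by decide +kernel⟩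

theorem c_pp_022_a : CertF 0 536870912 0 536870912 67108864 67108864 true true true .pp 0 2 2
    ndF0q0 ndF1q2a pcF2 cut_pp_022_a Ext.none :=
  certFK0 (fam := true) (s1 := true) (s2 := true) (a := 0) (b := 2) (c := 2) (cn := .pp) (n1 := ndF0q0) (n2 := ndF1q2a) (pc := pcF2) (cut := cut_pp_022_a) (xt := Ext.none) (P1 := 0) (W1 := 536870912) (P2 := 0) (W2 := 536870912) (P3 := 67108864) (W3 := 67108864)
    rfl rfl rfl k0_pp_022_a

noncomputable def cut_pp_022_b : Cut := Cut.of [[⟨0, 0, 0, 67108864⟩, ⟨1, 1, 0, 67108864⟩, ⟨2, 1, 0, 67108864⟩]]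

noncomputable def f_pp_022_b : ℕ → ℕ → ℕ → ℕ → Bool := onCell 0 536870912 1239849684 370763052 67108864 67108864
    (rowFK 0 true true true .pp 0 2 2 (qsf 0 536870912 1239849684 370763052 2) ndF0q0 ndF1q2b pcF2 cut_pp_022_b Ext.none)

def k0_pp_022_b : ∃ t, chk3 f_pp_022_b t 1 1 1 = true :=
  ⟨(a (b (a (b (a (b (a (b (a (l 18254616) (l 18202472)) (l 18402568)) (l 18159960)) (a (l 18587528) (l 18374920))) (b (a (l 17977592) (l 17798160)) (l 18068800))) (a (b (l 18626880) (l 18709360)) (b (l 18191176) (l 18264720)))) (b (a (b (a (l 17629464) (l 17474336)) (l 17710376)) (a (b (l 17334600) (l 4)) (l 4))) (l 4))) (a (b (a (l 18885816) (l 4)) (l 4)) (l 4))) (l 4)), by decide +kernel⟩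

theorem c_pp_022_b : CertF 0 536870912 1239849684 370763052 67108864 67108864 true true true .pp 0 2 2
    ndF0q0 ndF1q2b pcF2 cut_pp_022_b Ext.none :=
  certFK0 (fam := true) (s1 := true) (s2 := true) (a := 0) (b := 2) (c := 2) (cn := .pp) (n1 := ndF0q0) (n2 := ndF1q2b) (pc := pcF2) (cut := cut_pp_022_b) (xt := Ext.none) (P1 := 0) (W1 := 536870912) (P2 := 1239849684) (W2 := 370763052) (P3 := 67108864) (W3 := 67108864)
    rfl rfl rfl k0_pp_022_b

noncomputable def f_pp_023_a : ℕ → ℕ → ℕ → ℕ → Bool := onCell 0 536870912 0 536870912 67108864 67108864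
    (rowFK 0 true true true .up 0 2 3 (qsf 0 536870912 0 536870912 3) ndF0q0 ndF1q2a pcF3 Cut.none Ext.none)

def k0_pp_023_a : ∃ t, chk3 f_pp_023_a t 1 1 1 = true :=
  ⟨(a (l 1) (l 4)), by decide +kernel⟩

theorem c_pp_023_a : CertF 0 536870912 0 536870912 67108864 67108864 true true true .up 0 2 3
    ndF0q0 ndF1q2a pcF3 Cut.none Ext.none :=
  certFK0 (fam := true) (s1 := true) (s2 := true) (a := 0) (b := 2) (c := 3) (cn := .up) (n1 := ndF0q0) (n2 := ndF1q2a) (pc := pcF3) (cut := Cut.none) (xt := Ext.none) (P1 := 0) (W1 := 536870912) (P2 := 0) (W2 := 536870912) (P3 := 67108864) (W3 := 67108864)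
    rfl rfl rfl k0_pp_023_a

noncomputable def f_pp_023_b : ℕ → ℕ → ℕ → ℕ → Bool := onCell 0 536870912 1610612736 536870912 67108864 67108864
    (rowFK 1 true true true .up 0 2 3 (qsf 0 536870912 1239849684 370763052 3) ndF0q0 ndF1q2b pcF3 Cut.none Ext.none)

def k0_pp_023_b : ∃ t, chk3 f_pp_023_b t 1 1 1 = true :=
  ⟨(b (l 4) (l 4)), by decide +kernel⟩

theorem c_pp_023_b : CertF 0 536870912 1239849684 370763052 67108864 67108864 true true true .up 0 2 3
    ndF0q0 ndF1q2b pcF3 Cut.none Ext.none :=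
  certFK1 (fam := true) (s1 := true) (s2 := true) (a := 0) (b := 2) (c := 3) (cn := .up) (n1 := ndF0q0) (n2 := ndF1q2b) (pc := pcF3) (cut := Cut.none) (xt := Ext.none) (P1 := 0) (W1 := 536870912) (P2 := 1239849684) (W2 := 370763052) (P3 := 67108864) (W3 := 67108864)
    rfl rfl rfl (fun _ => rfl) k0_pp_023_b

noncomputable def f_pp_033 : ℕ → ℕ → ℕ → ℕ → Bool := onCell 0 536870912 1610612736 536870912 67108864 67108864
    (rowFK 0 true true true .pnn 0 3 3 (qsf 0 536870912 1610612736 536870912 3) ndF0q0 ndF1q3 pcF3 Cut.none Ext.none)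

def k0_pp_033 : ∃ t, chk3 f_pp_033 t 1 1 1 = true :=
  ⟨(a (l 4) (l 4)), by decide +kernel⟩

theorem c_pp_033 : CertF 0 536870912 1610612736 536870912 67108864 67108864 true true true .pnn 0 3 3
    ndF0q0 ndF1q3 pcF3 Cut.none Ext.none :=
  certFK0 (fam := true) (s1 := true) (s2 := true) (a := 0) (b := 3) (c := 3) (cn := .pnn) (n1 := ndF0q0) (n2 := ndF1q3) (pc := pcF3) (cut := Cut.none) (xt := Ext.none) (P1 := 0) (W1 := 536870912) (P2 := 1610612736) (W2 := 536870912) (P3 := 67108864) (W3 := 67108864)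
    rfl rfl rfl k0_pp_033

noncomputable def f_pp_101 : ℕ → ℕ → ℕ → ℕ → Bool := onCell 536870912 536870912 0 536870912 67108864 67108864
    (rowFK 0 true true true .npn 1 0 1 (qsf 536870912 536870912 0 536870912 1) ndF0q1 ndF1q0 pcF1 Cut.none Ext.none)

def k0_pp_101 : ∃ t, chk3 f_pp_101 t 1 1 1 = true :=
  ⟨(l 5), by decide +kernel⟩

theorem c_pp_101 : CertF 536870912 536870912 0 536870912 67108864 67108864 true true true .npn 1 0 1
    ndF0q1 ndF1q0 pcF1 Cut.none Ext.none :=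
  certFK0 (fam := true) (s1 := true) (s2 := true) (a := 1) (b := 0) (c := 1) (cn := .npn) (n1 := ndF0q1) (n2 := ndF1q0) (pc := pcF1) (cut := Cut.none) (xt := Ext.none) (P1 := 536870912) (W1 := 536870912) (P2 := 0) (W2 := 536870912) (P3 := 67108864) (W3 := 67108864)
    rfl rfl rfl k0_pp_101

noncomputable def f_pp_102 : ℕ → ℕ → ℕ → ℕ → Bool := onCell 536870912 536870912 0 536870912 67108864 67108864
    (rowFK 0 true true true .npp 1 0 2 (qsf 536870912 536870912 0 536870912 2) ndF0q1 ndF1q0 pcF2 Cut.none Ext.none)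

def k0_pp_102 : ∃ t, chk3 f_pp_102 t 1 1 1 = true :=
  ⟨(l 5), by decide +kernel⟩

theorem c_pp_102 : CertF 536870912 536870912 0 536870912 67108864 67108864 true true true .npp 1 0 2
    ndF0q1 ndF1q0 pcF2 Cut.none Ext.none :=
  certFK0 (fam := true) (s1 := true) (s2 := true) (a := 1) (b := 0) (c := 2) (cn := .npp) (n1 := ndF0q1) (n2 := ndF1q0) (pc := pcF2) (cut := Cut.none) (xt := Ext.none) (P1 := 536870912) (W1 := 536870912) (P2 := 0) (W2 := 536870912) (P3 := 67108864) (W3 := 67108864)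
    rfl rfl rfl k0_pp_102

noncomputable def f_pp_112 : ℕ → ℕ → ℕ → ℕ → Bool := onCell 536870912 536870912 536870912 536870912 67108864 67108864
    (rowFK 0 true true true .dn 1 1 2 (qsf 536870912 536870912 536870912 536870912 2) ndF0q1 ndF1q1 pcF2 Cut.none Ext.none)

def k0_pp_112 : ∃ t, chk3 f_pp_112 t 1 1 1 = true :=
  ⟨(l 4), by decide +kernel⟩

theorem c_pp_112 : CertF 536870912 536870912 536870912 536870912 67108864 67108864 true true true .dn 1 1 2
    ndF0q1 ndF1q1 pcF2 Cut.none Ext.none :=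
  certFK0 (fam := true) (s1 := true) (s2 := true) (a := 1) (b := 1) (c := 2) (cn := .dn) (n1 := ndF0q1) (n2 := ndF1q1) (pc := pcF2) (cut := Cut.none) (xt := Ext.none) (P1 := 536870912) (W1 := 536870912) (P2 := 536870912) (W2 := 536870912) (P3 := 67108864) (W3 := 67108864)
    rfl rfl rfl k0_pp_112

noncomputable def f_pp_113 : ℕ → ℕ → ℕ → ℕ → Bool := onCell 536870912 536870912 536870912 536870912 67108864 67108864
    (rowFK 0 true true true .nn 1 1 3 (qsf 536870912 536870912 536870912 536870912 3) ndF0q1 ndF1q1 pcF3 Cut.none Ext.none)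

def k0_pp_113 : ∃ t, chk3 f_pp_113 t 1 1 1 = true :=
  ⟨(l 4), by decide +kernel⟩

theorem c_pp_113 : CertF 536870912 536870912 536870912 536870912 67108864 67108864 true true true .nn 1 1 3
    ndF0q1 ndF1q1 pcF3 Cut.none Ext.none :=
  certFK0 (fam := true) (s1 := true) (s2 := true) (a := 1) (b := 1) (c := 3) (cn := .nn) (n1 := ndF0q1) (n2 := ndF1q1) (pc := pcF3) (cut := Cut.none) (xt := Ext.none) (P1 := 536870912) (W1 := 536870912) (P2 := 536870912) (W2 := 536870912) (P3 := 67108864) (W3 := 67108864)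
    rfl rfl rfl k0_pp_113

noncomputable def f_pp_123_a : ℕ → ℕ → ℕ → ℕ → Bool := onCell 536870912 536870912 0 536870912 67108864 67108864
    (rowFK 0 true true true .npn 1 2 3 (qsf 536870912 536870912 0 536870912 3) ndF0q1 ndF1q2a pcF3 Cut.none Ext.none)

def k0_pp_123_a : ∃ t, chk3 f_pp_123_a t 1 1 1 = true :=
  ⟨(l 4), by decide +kernel⟩

theorem c_pp_123_a : CertF 536870912 536870912 0 536870912 67108864 67108864 true true true .npn 1 2 3
    ndF0q1 ndF1q2a pcF3 Cut.none Ext.none :=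
  certFK0 (fam := true) (s1 := true) (s2 := true) (a := 1) (b := 2) (c := 3) (cn := .npn) (n1 := ndF0q1) (n2 := ndF1q2a) (pc := pcF3) (cut := Cut.none) (xt := Ext.none) (P1 := 536870912) (W1 := 536870912) (P2 := 0) (W2 := 536870912) (P3 := 67108864) (W3 := 67108864)
    rfl rfl rfl k0_pp_123_a

noncomputable def f_pp_123_b : ℕ → ℕ → ℕ → ℕ → Bool := onCell 536870912 536870912 1239849684 370763052 67108864 67108864
    (rowFK 0 true true true .npn 1 2 3 (qsf 536870912 536870912 1239849684 370763052 3) ndF0q1 ndF1q2b pcF3 Cut.none Ext.none)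

def k0_pp_123_b : ∃ t, chk3 f_pp_123_b t 1 1 1 = true :=
  ⟨(l 4), by decide +kernel⟩

theorem c_pp_123_b : CertF 536870912 536870912 1239849684 370763052 67108864 67108864 true true true .npn 1 2 3
    ndF0q1 ndF1q2b pcF3 Cut.none Ext.none :=
  certFK0 (fam := true) (s1 := true) (s2 := true) (a := 1) (b := 2) (c := 3) (cn := .npn) (n1 := ndF0q1) (n2 := ndF1q2b) (pc := pcF3) (cut := Cut.none) (xt := Ext.none) (P1 := 536870912) (W1 := 536870912) (P2 := 1239849684) (W2 := 370763052) (P3 := 67108864) (W3 := 67108864)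
    rfl rfl rfl k0_pp_123_b

noncomputable def f_pp_133 : ℕ → ℕ → ℕ → ℕ → Bool := onCell 536870912 536870912 1610612736 536870912 67108864 67108864
    (rowFK 0 true true true .dn 1 3 3 (qsf 536870912 536870912 1610612736 536870912 3) ndF0q1 ndF1q3 pcF3 Cut.none Ext.none)

def k0_pp_133 : ∃ t, chk3 f_pp_133 t 1 1 1 = true :=
  ⟨(l 4), by decide +kernel⟩

theorem c_pp_133 : CertF 536870912 536870912 1610612736 536870912 67108864 67108864 true true true .dn 1 3 3
    ndF0q1 ndF1q3 pcF3 Cut.none Ext.none :=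
  certFK0 (fam := true) (s1 := true) (s2 := true) (a := 1) (b := 3) (c := 3) (cn := .dn) (n1 := ndF0q1) (n2 := ndF1q3) (pc := pcF3) (cut := Cut.none) (xt := Ext.none) (P1 := 536870912) (W1 := 536870912) (P2 := 1610612736) (W2 := 536870912) (P3 := 67108864) (W3 := 67108864)
    rfl rfl rfl k0_pp_133

noncomputable def f_pp_202 : ℕ → ℕ → ℕ → ℕ → Bool := onCell 0 536870912 0 536870912 67108864 67108864
    (rowFK 0 true true true .pp 2 0 2 (qsf 0 536870912 0 536870912 2) ndF0q2 ndF1q0 pcF2 Cut.none Ext.none)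

def k0_pp_202 : ∃ t, chk3 f_pp_202 t 1 1 1 = true :=
  ⟨(l 5), by decide +kernel⟩

theorem c_pp_202 : CertF 0 536870912 0 536870912 67108864 67108864 true true true .pp 2 0 2
    ndF0q2 ndF1q0 pcF2 Cut.none Ext.none :=
  certFK0 (fam := true) (s1 := true) (s2 := true) (a := 2) (b := 0) (c := 2) (cn := .pp) (n1 := ndF0q2) (n2 := ndF1q0) (pc := pcF2) (cut := Cut.none) (xt := Ext.none) (P1 := 0) (W1 := 536870912) (P2 := 0) (W2 := 536870912) (P3 := 67108864) (W3 := 67108864)
    rfl rfl rfl k0_pp_202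

noncomputable def f_pp_203 : ℕ → ℕ → ℕ → ℕ → Bool := onCell 0 536870912 0 536870912 67108864 67108864
    (rowFK 0 true true true .up 2 0 3 (qsf 0 536870912 0 536870912 3) ndF0q2 ndF1q0 pcF3 Cut.none Ext.none)

def k0_pp_203 : ∃ t, chk3 f_pp_203 t 1 1 1 = true :=
  ⟨(l 5), by decide +kernel⟩

theorem c_pp_203 : CertF 0 536870912 0 536870912 67108864 67108864 true true true .up 2 0 3
    ndF0q2 ndF1q0 pcF3 Cut.none Ext.none :=
  certFK0 (fam := true) (s1 := true) (s2 := true) (a := 2) (b := 0) (c := 3) (cn := .up) (n1 := ndF0q2) (n2 := ndF1q0) (pc := pcF3) (cut := Cut.none) (xt := Ext.none) (P1 := 0) (W1 := 536870912) (P2 := 0) (W2 := 536870912) (P3 := 67108864) (W3 := 67108864)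
    rfl rfl rfl k0_pp_203

noncomputable def f_pp_213 : ℕ → ℕ → ℕ → ℕ → Bool := onCell 0 536870912 536870912 536870912 67108864 67108864
    (rowFK 0 true true true .pnn 2 1 3 (qsf 0 536870912 536870912 536870912 3) ndF0q2 ndF1q1 pcF3 Cut.none Ext.none)

def k0_pp_213 : ∃ t, chk3 f_pp_213 t 1 1 1 = true :=
  ⟨(l 4), by decide +kernel⟩

theorem c_pp_213 : CertF 0 536870912 536870912 536870912 67108864 67108864 true true true .pnn 2 1 3
    ndF0q2 ndF1q1 pcF3 Cut.none Ext.none :=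
  certFK0 (fam := true) (s1 := true) (s2 := true) (a := 2) (b := 1) (c := 3) (cn := .pnn) (n1 := ndF0q2) (n2 := ndF1q1) (pc := pcF3) (cut := Cut.none) (xt := Ext.none) (P1 := 0) (W1 := 536870912) (P2 := 536870912) (W2 := 536870912) (P3 := 67108864) (W3 := 67108864)
    rfl rfl rfl k0_pp_213

noncomputable def f_pm_001 : ℕ → ℕ → ℕ → ℕ → Bool := onCell 0 536870912 0 536870912 67108864 67108864
    (rowFK 0 true true false .up 0 0 1 (qsf 0 536870912 0 536870912 1) ndF0q0 ndF1q0 pcF1 Cut.none Ext.none)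

def k0_pm_001 : ∃ t, chk3 f_pm_001 t 1 1 1 = true :=
  ⟨(l 3), by decide +kernel⟩

theorem c_pm_001 : CertF 0 536870912 0 536870912 67108864 67108864 true true false .up 0 0 1
    ndF0q0 ndF1q0 pcF1 Cut.none Ext.none :=
  certFK0 (fam := true) (s1 := true) (s2 := false) (a := 0) (b := 0) (c := 1) (cn := .up) (n1 := ndF0q0) (n2 := ndF1q0) (pc := pcF1) (cut := Cut.none) (xt := Ext.none) (P1 := 0) (W1 := 536870912) (P2 := 0) (W2 := 536870912) (P3 := 67108864) (W3 := 67108864)
    rfl rfl rfl k0_pm_001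

noncomputable def f_pm_011 : ℕ → ℕ → ℕ → ℕ → Bool := onCell 0 536870912 536870912 536870912 67108864 67108864
    (rowFK 1 true true false .pnn 0 1 1 (qsf 0 536870912 536870912 536870912 1) ndF0q0 ndF1q1 pcF1 Cut.none Ext.none)

def k0_pm_011 : ∃ t, chk3 f_pm_011 t 1 1 1 = true :=
  ⟨(l 3), by decide +kernel⟩

theorem c_pm_011 : CertF 0 536870912 536870912 536870912 67108864 67108864 true true false .pnn 0 1 1
    ndF0q0 ndF1q1 pcF1 Cut.none Ext.none :=
  certFK1 (fam := true) (s1 := true) (s2 := false) (a := 0) (b := 1) (c := 1) (cn := .pnn) (n1 := ndF0q0) (n2 := ndF1q1) (pc := pcF1) (cut := Cut.none) (xt := Ext.none) (P1 := 0) (W1 := 536870912) (P2 := 536870912) (W2 := 536870912) (P3 := 67108864) (W3 := 67108864)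
    rfl rfl rfl (fun _ => rfl) k0_pm_011

noncomputable def f_pm_012 : ℕ → ℕ → ℕ → ℕ → Bool := onCell 1073741824 536870912 536870912 536870912 67108864 67108864
    (rowFK 2 true true false .pnp 0 1 2 (qsf 0 536870912 536870912 536870912 2) ndF0q0 ndF1q1 pcF2 Cut.none Ext.none)

def k0_pm_012 : ∃ t, chk3 f_pm_012 t 1 1 1 = true :=
  ⟨(a (a (a (l 3) (b (b (a (l 170358073991) (l 17695592)) (a (l 3) (l 17745616))) (b (a (l 3) (l 207938914919)) (l 3)))) (b (a (b (a (a (b (l 2) (l 17494288)) (l 2)) (l 2)) (a (a (l 17559648) (a (l 17519816) (l 17744112))) (l 17428048))) (b (l 2) (l 17304096))) (b (a (a (a (l 17549160) (a (l 17505464) (a (l 17497688) (l 17725768)))) (l 17488656)) (l 17560504)) (a (a (a (b (l 17715304) (l 3)) (a (b (l 17739816) (b (l 17808296) (l 17758600))) (b (a (l 17752576) (l 17762520)) (a (b (l 17845392) (l 17829240)) (a (b (l 17863784) (l 17862448)) (l 17723136)))))) (b (l 17806584) (b (l 17970280) (l 18043784)))) (b (l 17900832) (b (l 18162152)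 (l 18343688))))))) (b (a (b (l 2) (a (l 17121488) (l 2))) (l 2)) (b (a (a (l 17449896) (l 17386960)) (a (l 17266336) (l 2))) (a (b (l 17980208) (a (l 18404656) (l 18440992))) (b (l 17866232) (l 18370744)))))), by decide +kernel⟩

theorem c_pm_012 : CertF 0 536870912 536870912 536870912 67108864 67108864 true true false .pnp 0 1 2
    ndF0q0 ndF1q1 pcF2 Cut.none Ext.none :=
  certFK2 (fam := true) (s1 := true) (s2 := false) (a := 0) (b := 1) (c := 2) (cn := .pnp) (n1 := ndF0q0) (n2 := ndF1q1) (pc := pcF2) (cut := Cut.none) (xt := Ext.none) (P1 := 0) (W1 := 536870912) (P2 := 536870912) (W2 := 536870912) (P3 := 67108864) (W3 := 67108864)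
    rfl rfl rfl (fun _ => rfl) k0_pm_012

noncomputable def cut_pm_022_a : Cut := Cut.of [[⟨0, 0, 0, 67108864⟩, ⟨1, 1, 0, 67108864⟩, ⟨2, 1, 0, 67108864⟩], [⟨0, 0, 1, 33554432⟩, ⟨1, 1, 0, 16777216⟩, ⟨2, 1, 1, 33554432⟩, ⟨0, 0, 0, 150994944⟩, ⟨0, 1, 0, 1023410176⟩, ⟨2, 1, 0, 150994944⟩, ⟨2, 2, 0, 1023410176⟩]]

noncomputable def f_pm_022_a : ℕ → ℕ → ℕ → ℕ → Bool := onCell 1073741824 536870912 0 536870912 67108864 67108864
    (rowFK 2 true true false .pp 0 2 2 (qsf 0 536870912 0 536870912 2) ndF0q0 ndF1q2a pcF2 cut_pm_022_a Ext.none)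

def k0_pm_022_a : ∃ t, chk3 f_pm_022_a t 2 2 1 = true :=
  ⟨(a (a (l 1) (b (l 1) (a (l 1) (b (l 1) (a (l 1) (b (l 1) (c (l 17966864) (a (l 1) (l 17019376))))))))) (a (a (a (b (l 1) (b (l 46742866983) (c (l 18190008) (b (l 17288584) (l 17277512))))) (b (l 17932312) (b (l 17874728) (l 17707288)))) (b (c (l 18523376) (l 17891280)) (b (l 18141592) (l 18063632)))) (b (l 18266336) (a (l 18179656) (l 18200136))))), by decide +kernel⟩

def k1_pm_022_a : ∃ t, chk3 f_pm_022_a t 8 3 1 = true :=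
  ⟨(b (l 1) (b (a (l 1) (a (b (l 1) (l 6)) (b (a (l 1) (b (l 1) (a (b (l 1) (l 6)) (b (a (l 16682040) (l 16679616)) (l 16680984))))) (a (l 6) (a (l 6) (a (l 6) (b (l 16679128) (l 16699328)))))))) (a (l 6) (a (l 6) (a (l 6) (a (l 6) (a (l 6) (a (l 6) (b (b (l 16701760) (l 16712112)) (a (l 6) (a (l 6) (b (b (l 16717592) (l 16728584)) (b (l 16745008) (b (l 16753528) (b (c (l 16754120) (l 16751064)) (b (c (l 16756328) (l 16753184)) (c (c (l 14) (c (l 14) (l 16757912))) (c (l 16758024) (l 16753808))))))))))))))))))), by decide +kernel⟩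

def k2_pm_022_a : ∃ t, chk3 f_pm_022_a t 18 6 1 = true :=
  ⟨(b (l 1) (a (b (l 1) (a (l 1) (b (l 16667080) (a (a (l 16668808) (l 16666616)) (l 16658224))))) (b (a (b (l 1) (l 16659760)) (b (l 16653376) (l 16651824))) (a (b (a (l 16660184) (l 16656008)) (l 16657352)) (b (l 16650160) (l 16648312)))))), by decide +kernel⟩

def k3_pm_022_a : ∃ t, chk3 f_pm_022_a t 18 14 1 = true :=
  ⟨(a (b (a (b (b (a (l 1) (l 16671936)) (a (c (l 16677368) (l 16675416)) (l 16671648))) (a (b (l 16676208) (l 16675944)) (l 16671128))) (b (a (l 16667128) (l 16662416)) (l 16674824))) (a (a (b (l 16680680) (a (l 16696544) (l 16693752))) (b (l 16670144) (l 16689768))) (a (b (l 16664832) (l 16684120)) (b (l 16659496) (l 16678448))))) (b (a (b (l 16655872) (l 16675088)) (b (l 16646232) (l 16643856))) (b (a (l 16672992) (l 16662064)) (a (b (l 16671128) (l 16676600)) (l 16689080))))), by decide +kernel⟩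

def k4_pm_022_a : ∃ t, chk3 f_pm_022_a t 36 30 1 = true :=
  ⟨(a (b (b (a (l 16695216) (l 16693512)) (l 16694576)) (b (a (l 16716008) (l 16714512)) (c (l 16715216) (l 16713792)))) (b (a (l 16697096) (b (l 16690192) (l 16679856))) (b (l 16701096) (l 16712040)))), by decide +kernel⟩

def k5_pm_022_a : ∃ t, chk3 f_pm_022_a t 36 62 1 = true :=
  ⟨(a (a (b (l 16727032) (l 16735456)) (b (l 16736256) (l 16734312))) (a (b (l 16735032) (l 16730592)) (b (l 16712880) (l 16734768)))), by decide +kernel⟩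

def k6_pm_022_a : ∃ t, chk3 f_pm_022_a t 72 63 1 = true :=
  ⟨(b (a (b (l 16746488) (a (l 16747440) (l 16752168))) (b (l 16745440) (l 16747240))) (c (c (l 14) (c (l 14) (b (a (l 16753016) (l 16752120)) (a (a (b (l 16752624) (b (l 16754808) (a (b (l 16756080) (a (l 16756880) (l 14))) (l 14)))) (b (l 16752168) (l 14))) (l 14))))) (a (b (c (l 16751904) (l 16750416)) (a (b (l 16750680) (b (l 16755432) (c (b (l 16754688) (a (c (l 16756000) (l 16755184)) (a (l 16755432) (l 16755312)))) (a (l 16753616) (l 16753352))))) (b (l 16750160) (b (l 16754928) (c (b (l 16754216) (a (a (l 16755192) (l 16755072)) (a (l 16756264) (l 16756152)))) (a (l 16753088) (l 16752824))))))) (b (c (l 16750928) (l 16749336)) (a (b (l 16749656) (b (l 16754432) (c (b (l 16753752) (a (a (l 16756032) (l 16755920)) (c (l 16755520) (l 16753984)))) (a (l 16752568) (l 16752312))))) (b (l 16749160) (b (l 16753952) (a (c (c (c (l 14) (l 16755368)) (l 16754704)) (l 16752056)) (c (c (a (l 16755440)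 (l 16755328)) (l 16754472)) (l 16754432)))))))))), by decide +kernel⟩

def k7_pm_022_a : ∃ t, chk3 f_pm_022_a t 73 63 1 = true :=
  ⟨(c (b (b (l 16742024) (l 14)) (l 14)) (a (b (l 16745800) (b (l 16750456) (b (a (l 16748680) (l 16748208)) (a (b (l 16753480) (a (c (c (c (l 14) (b (l 16753248) (l 16753984))) (l 16754240)) (l 16754184)) (c (c (l 14) (l 16754024)) (l 16753944)))) (c (b (l 16751328) (b (l 16752440) (c (l 14) (a (l 16752856) (l 16752640))))) (b (l 16749464) (a (l 16753696) (l 16752152)))))))) (b (l 16744768) (b (l 16748200) (b (c (l 16752224) (l 16751648)) (b (a (l 16752568) (l 16752136)) (c (c (l 14) (b (a (l 16751536) (l 16751120)) (a (a (l 16752424) (l 16752216)) (a (l 16752008) (l 16753112))))) (a (a (l 16751912) (c (l 16750864) (l 16749880))) (b (l 16749624) (a (l 16750512) (l 16750288))))))))))), by decide +kernel⟩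

def k8_pm_022_a : ∃ t, chk3 f_pm_022_a t 37 15 1 = true :=
  ⟨(b (b (a (b (l 16687208) (l 16698000)) (b (l 16684272) (l 16695288))) (b (a (l 16708984) (l 16706504)) (a (l 16720160) (l 16717912)))) (b (a (b (l 16721048) (c (l 14) (l 16731112))) (b (l 16729536) (a (l 16742328) (l 16741440)))) (c (a (l 14) (c (c (b (l 17285336) (l 17270112)) (l 14)) (l 14))) (b (a (a (l 16743768) (l 16742816)) (a (l 16736664) (l 16741048))) (b (a (a (l 16747296) (l 16746440)) (a (l 16745632) (l 16744864))) (c (c (l 14) (c (l 14) (a (a (b (l 16746744) (a (b (l 16749344) (a (l 16750976) (l 14))) (l 14))) (l 14)) (l 14)))) (a (b (a (l 16745496) (l 16744632)) (a (b (a (l 16748072) (l 16747632)) (a (b (l 16749176) (a (l 16751376) (l 16751152))) (a (c (l 16751096) (l 16748736)) (a (l 16751728) (l 16751624))))) (b (c (l 16748712) (l 16746320)) (b (a (l 16748320) (l 16747912)) (a (b (l 16748880) (a (l 16750704) (l 16750496))) (a (a (l 16751480) (l 16751376)) (a (l 16751272) (l 16749864))))))))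 (b (a (l 16743816) (l 16743040)) (a (b (c (l 16749256) (l 16745504)) (a (a (b (l 16747648) (a (l 16749768) (l 16749664))) (c (l 14) (l 16747256))) (c (l 14) (a (l 16747056) (l 16746856))))) (c (l 14) (b (l 16744728) (a (a (l 16746664) (l 16747784)) (a (l 16747600) (a (l 16746160) (l 16746064))))))))))))))), by decide +kernel⟩

def k9_pm_022_a : ∃ t, chk3 f_pm_022_a t 19 3 1 = true :=
  ⟨(b (a (a (b (b (l 1) (l 16649408)) (b (b (l 16651904) (l 16764472)) (l 16642448))) (b (b (l 16894000) (c (b (l 17675424) (l 17647368)) (l 16639784))) (c (b (l 17529552) (l 17393360)) (b (l 16635416) (l 16630512))))) (b (c (b (l 17820656) (l 17861424)) (b (l 16635824) (l 16650752))) (c (b (l 17742864) (l 17559472)) (b (l 16625416) (l 16636960))))) (b (b (b (a (b (l 16686816) (l 16681440)) (c (l 17647472) (l 16805312))) (a (b (l 16697680) (l 16693632)) (c (l 17608336) (l 16801712)))) (b (a (b (l 16711320) (l 16708848)) (c (l 17569800) (l 16780064))) (a (b (l 16707264) (l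 16706624)) (c (l 17469240) (l 16719848))))) (b (a (a (b (l 16717544) (b (l 16767944) (l 16754328))) (b (c (l 17207984) (l 16683536)) (c (l 17075176) (l 16706440)))) (c (b (l 17348952) (c (l 17620832) (l 17217128))) (b (a (l 16731064) (l 16883544)) (a (l 16747088) (l 16806496))))) (b (a (a (b (l 16721200) (b (l 16749784) (l 16734376))) (c (c (l 17448248) (b (l 17115416) (l 17090344))) (b (l 16703168) (l 16715264)))) (b (c (l 17289328) (l 16712064)) (c (l 17210480) (a (l 14) (l 16779432))))) (c (a (c (a (b (l 17316768) (l 17218040)) (l 17410424)) (a (l 14) (c (b (l 17186144) (l 17159088)) (l 14)))) (c (l 17490152) (a (b (l 17218608) (l 17086392)) (l 17285984)))) (c (c (a (l 14) (a (l 14) (a (l 14) (l 17136768)))) (l 14)) (a (a (a (b (l 16728680) (c (l 14) (b (l 16737152) (b (l 16741712) (a (b (l 16744280) (a (a (l 16745976) (l 16745888)) (l 14))) (l 14)))))) (b (l 16727864) (b (l 16737016) (l 14)))) (b (l 16736888) (l 14))) (l 14)))))))), by decide +kernel⟩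

def k10_pm_022_a : ∃ t, chk3 f_pm_022_a t 5 3 1 = true :=
  ⟨(b (a (a (b (c (a (l 18065496) (l 18168736)) (a (b (l 17239536) (l 17159344)) (l 17308744))) (a (c (l 17807656) (b (l 17059392) (l 16878352))) (b (l 17558424) (l 17456152)))) (b (a (l 17924496) (l 17998640)) (a (l 17703624) (l 17887664)))) (b (l 18091920) (a (l 17965736) (l 18023864)))) (a (b (a (c (a (b (l 17792432) (l 17710776)) (l 17859728)) (a (b (b (l 17107480) (l 17073360)) (b (l 17020248) (l 16906544))) (b (l 17308320) (b (l 17281040) (l 17264584))))) (b (l 17614544) (a (l 17634648) (l 17738112)))) (b (a (c (a (l 17547048) (l 17738312)) (a (b (a (l 17011744) (l 17120520)) (a (l 16927712) (l 17073112))) (b (l 17249976) (l 17111720)))) (c (l 17851032) (a (l 17352376) (l 17475824)))) (c (a (a (b (l 17573848) (a (l 17506192) (l 17565824))) (b (l 17678416) (a (l 17616384) (l 17660832)))) (l 17689856)) (b (a (a (a (a (l 16820816) (l 16915256)) (a (l 17005896) (l 17072128))) (a (l 17130208)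 (l 17260344))) (a (l 17327184) (l 17446080))) (a (a (a (c (b (l 17144248) (a (l 17121360) (l 17165160))) (l 14)) (a (c (l 17207248) (l 14)) (b (l 17071688) (c (l 17244040) (a (l 14) (a (l 14) (l 16979944))))))) (b (a (l 17105568) (l 17253072)) (a (a (b (l 17150912) (l 16982952)) (l 17078008)) (a (l 17066616) (a (l 17130536) (a (a (a (l 17243360) (l 17119432)) (l 17247768)) (l 17253032))))))) (a (a (b (l 17310528) (l 17136872)) (l 17233144)) (a (l 17385096) (l 17449272)))))))) (b (a (b (l 17884744) (l 17828272)) (l 17930464)) (b (a (l 17772008) (l 17859584)) (a (a (b (l 17702016) (l 17528104)) (l 17639760)) (l 17687312)))))), by decide +kernel⟩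

def k11_pm_022_a : ∃ t, chk3 f_pm_022_a t 3 1 1 = true :=
  ⟨(b (a (a (b (l 18213160) (l 18180904)) (l 18105224)) (b (l 17923280) (l 17952248))) (a (b (a (b (l 18117024) (l 18056480)) (l 18057016)) (b (a (l 17988696) (l 18002480)) (a (a (a (l 17884080) (l 17909344)) (l 17937816)) (l 17965472)))) (b (l 18068616) (b (l 17930984) (a (l 17951400) (l 17893088)))))), by decide +kernel⟩

theorem s12_pm_022_a : ∃ t, chk3 f_pm_022_a t 36 63 1 = true := ex3_a k6_pm_022_a k7_pm_022_a

theorem s13_pm_022_a : ∃ t, chk3 f_pm_022_a t 36 31 1 = true := ex3_b k5_pm_022_a s12_pm_022_a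

theorem s14_pm_022_a : ∃ t, chk3 f_pm_022_a t 36 15 1 = true := ex3_b k4_pm_022_a s13_pm_022_a

theorem s15_pm_022_a : ∃ t, chk3 f_pm_022_a t 18 15 1 = true := ex3_a s14_pm_022_a k8_pm_022_a

theorem s16_pm_022_a : ∃ t, chk3 f_pm_022_a t 18 7 1 = true := ex3_b k3_pm_022_a s15_pm_022_a

theorem s17_pm_022_a : ∃ t, chk3 f_pm_022_a t 18 3 1 = true := ex3_b k2_pm_022_a s16_pm_022_a

theorem s18_pm_022_a : ∃ t, chk3 f_pm_022_a t 9 3 1 = true := ex3_a s17_pm_022_a k9_pm_022_a

theorem s19_pm_022_a : ∃ t, chk3 f_pm_022_a t 4 3 1 = true := ex3_a k1_pm_022_a s18_pm_022_a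

theorem s20_pm_022_a : ∃ t, chk3 f_pm_022_a t 2 3 1 = true := ex3_a s19_pm_022_a k10_pm_022_a

theorem s21_pm_022_a : ∃ t, chk3 f_pm_022_a t 2 1 1 = true := ex3_b k0_pm_022_a s20_pm_022_a

theorem s22_pm_022_a : ∃ t, chk3 f_pm_022_a t 1 1 1 = true := ex3_a s21_pm_022_a k11_pm_022_a

theorem c_pm_022_a : CertF 0 536870912 0 536870912 67108864 67108864 true true false .pp 0 2 2
    ndF0q0 ndF1q2a pcF2 cut_pm_022_a Ext.none :=
  certFK2 (fam := true) (s1 := true) (s2 := false) (a := 0) (b := 2) (c := 2) (cn := .pp) (n1 := ndF0q0) (n2 := ndF1q2a) (pc := pcF2) (cut := cut_pm_022_a) (xt := Ext.none) (P1 := 0) (W1 := 536870912) (P2 := 0) (W2 := 536870912) (P3 := 67108864) (W3 := 67108864)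
    rfl rfl rfl (fun _ => rfl) s22_pm_022_a

noncomputable def cut_pm_022_b : Cut := Cut.of [[⟨0, 0, 0, 67108864⟩, ⟨1, 1, 0, 67108864⟩, ⟨2, 1, 0, 67108864⟩], [⟨0, 0, 1, 33554432⟩, ⟨1, 1, 0, 16777216⟩, ⟨2, 1, 1, 33554432⟩, ⟨0, 0, 0, 150994944⟩, ⟨0, 1, 0, 1023410176⟩, ⟨2, 1, 0, 150994944⟩, ⟨2, 2, 0, 1023410176⟩]]

noncomputable def f_pm_022_b : ℕ → ℕ → ℕ → ℕ → Bool := onCell 0 536870912 1239849684 370763052 67108864 67108864
    (rowFK 0 true true false .pp 0 2 2 (qsf 0 536870912 1239849684 370763052 2) ndF0q0 ndF1q2b pcF2 cut_pm_022_b Ext.none)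

def k0_pm_022_b : ∃ t, chk3 f_pm_022_b t 1 1 1 = true :=
  ⟨(a (b (a (b (a (b (a (b (l 18323264) (l 18482624)) (l 18402784)) (l 18614216)) (l 18408240)) (l 18917648)) (b (l 18249192) (l 18282528))) (a (b (l 18757976) (l 18830272)) (b (l 18346808) (l 2)))) (b (a (b (a (l 17941728) (l 17772096)) (l 25336403799)) (l 2)) (l 2))), by decide +kernel⟩

theorem c_pm_022_b : CertF 0 536870912 1239849684 370763052 67108864 67108864 true true false .pp 0 2 2
    ndF0q0 ndF1q2b pcF2 cut_pm_022_b Ext.none :=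
  certFK0 (fam := true) (s1 := true) (s2 := false) (a := 0) (b := 2) (c := 2) (cn := .pp) (n1 := ndF0q0) (n2 := ndF1q2b) (pc := pcF2) (cut := cut_pm_022_b) (xt := Ext.none) (P1 := 0) (W1 := 536870912) (P2 := 1239849684) (W2 := 370763052) (P3 := 67108864) (W3 := 67108864)
    rfl rfl rfl k0_pm_022_b

noncomputable def f_pm_023_a : ℕ → ℕ → ℕ → ℕ → Bool := onCell 0 536870912 0 536870912 67108864 67108864
    (rowFK 0 true true false .up 0 2 3 (qsf 0 536870912 0 536870912 3) ndF0q0 ndF1q2a pcF3 Cut.none Ext.none)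

def k0_pm_023_a : ∃ t, chk3 f_pm_023_a t 1 1 1 = true :=
  ⟨(a (l 1) (b (a (a (l 1) (l 89693870103)) (b (a (l 17976928) (l 17894448)) (a (l 17812856) (l 17750224)))) (b (a (l 1) (a (l 17616776) (l 17535600))) (a (l 1) (b (a (l 17633952) (l 17489976)) (a (l 1) (b (l 17777520) (l 17996888)))))))), by decide +kernel⟩

theorem c_pm_023_a : CertF 0 536870912 0 536870912 67108864 67108864 true true false .up 0 2 3
    ndF0q0 ndF1q2a pcF3 Cut.none Ext.none :=
  certFK0 (fam := true) (s1 := true) (s2 := false) (a := 0) (b := 2) (c := 3) (cn := .up) (n1 := ndF0q0) (n2 := ndF1q2a) (pc := pcF3) (cut := Cut.none) (xt := Ext.none) (P1 := 0) (W1 := 536870912) (P2 := 0) (W2 := 536870912) (P3 := 67108864) (W3 := 67108864)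
    rfl rfl rfl k0_pm_023_a

noncomputable def f_pm_023_b : ℕ → ℕ → ℕ → ℕ → Bool := onCell 1610612736 536870912 1239849684 370763052 67108864 67108864
    (rowFK 2 true true false .up 0 2 3 (qsf 0 536870912 1239849684 370763052 3) ndF0q0 ndF1q2b pcF3 Cut.none Ext.none)

def k0_pm_023_b : ∃ t, chk3 f_pm_023_b t 1 1 1 = true :=
  ⟨(b (b (a (a (a (l 18172904) (l 18030792)) (a (l 17826752) (l 17597392))) (l 2)) (a (a (a (l 18203776) (l 18056208)) (l 17773096)) (a (a (l 17469752) (l 17279344)) (l 2)))) (a (a (l 18402376) (b (l 17875816) (l 18010432))) (a (a (l 17732376) (l 17723240)) (a (l 281422658855) (l 4))))), by decide +kernel⟩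

theorem c_pm_023_b : CertF 0 536870912 1239849684 370763052 67108864 67108864 true true false .up 0 2 3
    ndF0q0 ndF1q2b pcF3 Cut.none Ext.none :=
  certFK2 (fam := true) (s1 := true) (s2 := false) (a := 0) (b := 2) (c := 3) (cn := .up) (n1 := ndF0q0) (n2 := ndF1q2b) (pc := pcF3) (cut := Cut.none) (xt := Ext.none) (P1 := 0) (W1 := 536870912) (P2 := 1239849684) (W2 := 370763052) (P3 := 67108864) (W3 := 67108864)
    rfl rfl rfl (fun _ => rfl) k0_pm_023_b

noncomputable def f_pm_033 : ℕ → ℕ → ℕ → ℕ → Bool := onCell 0 536870912 1610612736 536870912 67108864 67108864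
    (rowFK 1 true true false .pnn 0 3 3 (qsf 0 536870912 1610612736 536870912 3) ndF0q0 ndF1q3 pcF3 Cut.none Ext.none)

def k0_pm_033 : ∃ t, chk3 f_pm_033 t 1 1 1 = true :=
  ⟨(b (a (b (a (l 332359162343) (l 400005651287)) (a (l 18037592) (l 259344266871))) (b (l 1) (a (l 433290687143) (l 1)))) (b (a (b (a (l 18240536) (l 17697096)) (l 4)) (a (b (l 17203680) (l 17237272)) (l 446712032631))) (a (l 4) (l 4)))), by decide +kernel⟩

theorem c_pm_033 : CertF 0 536870912 1610612736 536870912 67108864 67108864 true true false .pnn 0 3 3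
    ndF0q0 ndF1q3 pcF3 Cut.none Ext.none :=
  certFK1 (fam := true) (s1 := true) (s2 := false) (a := 0) (b := 3) (c := 3) (cn := .pnn) (n1 := ndF0q0) (n2 := ndF1q3) (pc := pcF3) (cut := Cut.none) (xt := Ext.none) (P1 := 0) (W1 := 536870912) (P2 := 1610612736) (W2 := 536870912) (P3 := 67108864) (W3 := 67108864)
    rfl rfl rfl (fun _ => rfl) k0_pm_033

noncomputable def cut_pm_101 : Cut := Cut.of [[⟨0, 1, 0, 67108864⟩, ⟨1, 0, 0, 67108864⟩, ⟨2, 1, 0, 67108864⟩]]

noncomputable def f_pm_101 : ℕ → ℕ → ℕ → ℕ → Bool := onCell 536870912 536870912 0 536870912 67108864 67108864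
    (rowFK 2 true true false .npn 1 0 1 (qsf 536870912 536870912 0 536870912 1) ndF0q1 ndF1q0 pcF1 cut_pm_101 Ext.none)

def k0_pm_101 : ∃ t, chk3 f_pm_101 t 1 1 1 = true :=
  ⟨(a (l 3) (b (a (l 3) (b (a (l 3) (a (l 3) (b (a (l 3) (b (l 6) (l 3))) (l 3)))) (l 3))) (l 3))), by decide +kernel⟩

theorem c_pm_101 : CertF 536870912 536870912 0 536870912 67108864 67108864 true true false .npn 1 0 1
    ndF0q1 ndF1q0 pcF1 cut_pm_101 Ext.none :=
  certFK2 (fam := true) (s1 := true) (s2 := false) (a := 1) (b := 0) (c := 1) (cn := .npn) (n1 := ndF0q1) (n2 := ndF1q0) (pc := pcF1) (cut := cut_pm_101) (xt := Ext.none) (P1 := 536870912) (W1 := 536870912) (P2 := 0) (W2 := 536870912) (P3 := 67108864) (W3 := 67108864)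
    rfl rfl rfl (fun _ => rfl) k0_pm_101

noncomputable def cut_pm_102 : Cut := Cut.of [[⟨0, 1, 0, 67108864⟩, ⟨1, 0, 0, 67108864⟩, ⟨2, 1, 0, 67108864⟩]]

noncomputable def f_pm_102 : ℕ → ℕ → ℕ → ℕ → Bool := onCell 536870912 536870912 1073741824 536870912 67108864 67108864
    (rowFK 1 true true false .npp 1 0 2 (qsf 536870912 536870912 0 536870912 2) ndF0q1 ndF1q0 pcF2 cut_pm_102 Ext.none)

def k0_pm_102 : ∃ t, chk3 f_pm_102 t 1 1 1 = true :=
  ⟨(a (b (b (b (a (l 3) (l 155861648503)) (a (b (l 17253064) (l 17206912)) (b (l 17284984) (l 17434880)))) (b (a (b (b (l 17230848) (l 2)) (l 2)) (b (b (l 17243576) (l 17243328)) (l 17216392))) (a (l 2) (l 17180840)))) (a (l 2) (b (l 17126696) (l 2)))) (b (a (b (b (b (l 166061930279) (b (l 17155344) (a (l 17151976) (l 17128144)))) (b (a (l 17277168) (l 17234904)) (a (l 17203296) (l 17159896)))) (b (b (b (l 17205832) (b (l 17206264) (l 17200368))) (l 17174352)) (l 17139392))) (b (b (b (a (b (l 146197217559) (l 16982024))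 (b (a (b (l 149418170727) (l 16886672)) (l 6)) (a (l 16906616) (a (l 16858888) (l 6))))) (b (a (b (l 17003576) (l 17014240)) (a (l 17123624) (b (a (l 16883208) (l 6)) (l 16874440)))) (a (l 17111504) (a (b (l 16942896) (l 16973600)) (l 16932048))))) (a (b (b (l 17041928) (l 17062696)) (l 17150216)) (b (a (l 17000776) (l 16959512)) (a (l 17147904) (l 17238336))))) (b (a (b (b (l 17129592) (l 17150264)) (l 17194752)) (b (l 17330184) (l 17433352))) (a (l 17295120) (l 17535544))))) (a (b (l 17268560) (l 17343944)) (b (l 17651640) (l 17486184))))), by decide +kernel⟩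

theorem c_pm_102 : CertF 536870912 536870912 0 536870912 67108864 67108864 true true false .npp 1 0 2
    ndF0q1 ndF1q0 pcF2 cut_pm_102 Ext.none :=
  certFK1 (fam := true) (s1 := true) (s2 := false) (a := 1) (b := 0) (c := 2) (cn := .npp) (n1 := ndF0q1) (n2 := ndF1q0) (pc := pcF2) (cut := cut_pm_102) (xt := Ext.none) (P1 := 536870912) (W1 := 536870912) (P2 := 0) (W2 := 536870912) (P3 := 67108864) (W3 := 67108864)
    rfl rfl rfl (fun _ => rfl) k0_pm_102

noncomputable def f_pm_112 : ℕ → ℕ → ℕ → ℕ → Bool := onCell 536870912 536870912 1073741824 536870912 67108864 67108864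
    (rowFK 1 true true false .dn 1 1 2 (qsf 536870912 536870912 536870912 536870912 2) ndF0q1 ndF1q1 pcF2 Cut.none Ext.none)

def k0_pm_112 : ∃ t, chk3 f_pm_112 t 1 1 1 = true :=
  ⟨(a (b (b (b (a (l 3) (l 1)) (a (b (l 185927206919) (l 17542080)) (b (l 1) (l 282428966439)))) (b (b (a (b (l 17459912) (b (l 17436632) (l 17607928))) (b (l 17192696) (l 17398216))) (a (l 17373432) (l 17138336))) (a (l 17247232) (l 17116720)))) (a (b (a (l 17279432) (l 16978984)) (a (l 17925488) (l 17408792))) (b (l 17097344) (l 17232192)))) (b (a (b (l 1) (b (l 1) (l 17138160))) (l 1)) (a (b (l 202972271991) (l 17486840)) (b (l 182571890183) (l 17804168))))), by decide +kernel⟩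

theorem c_pm_112 : CertF 536870912 536870912 536870912 536870912 67108864 67108864 true true false .dn 1 1 2
    ndF0q1 ndF1q1 pcF2 Cut.none Ext.none :=
  certFK1 (fam := true) (s1 := true) (s2 := false) (a := 1) (b := 1) (c := 2) (cn := .dn) (n1 := ndF0q1) (n2 := ndF1q1) (pc := pcF2) (cut := Cut.none) (xt := Ext.none) (P1 := 536870912) (W1 := 536870912) (P2 := 536870912) (W2 := 536870912) (P3 := 67108864) (W3 := 67108864)
    rfl rfl rfl (fun _ => rfl) k0_pm_112

noncomputable def f_pm_113 : ℕ → ℕ → ℕ → ℕ → Bool := onCell 536870912 536870912 1610612736 536870912 67108864 67108864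
    (rowFK 1 true true false .nn 1 1 3 (qsf 536870912 536870912 536870912 536870912 3) ndF0q1 ndF1q1 pcF3 Cut.none Ext.none)

def k0_pm_113 : ∃ t, chk3 f_pm_113 t 1 1 1 = true :=
  ⟨(b (a (b (a (b (a (l 18111392) (l 17878632)) (a (a (l 2) (l 18435232)) (l 18264808))) (a (l 18276008) (b (l 18085888) (l 18111224)))) (a (b (a (l 2) (a (l 2) (l 18452552))) (l 2)) (b (a (l 18434656) (l 18129408)) (a (a (l 2) (l 18569488)) (l 18173880))))) (b (a (a (l 17495448) (l 17314544)) (a (b (l 17987304) (l 18160832)) (b (l 18670032) (l 18614048)))) (a (b (l 17284888) (a (l 17363416) (l 17485656))) (a (b (l 18137832) (l 17888024)) (b (l 18377376) (l 18026000)))))) (b (a (a (l 2) (b (a (l 2) (l 18256472)) (l 2))) (a (b (a (l 17485480) (l 17276400)) (l 316856418103)) (b (a (l 17507560) (l 17647024)) (l 17209472)))) (a (l 2) (a (a (l 2) (b (l 17546336) (l 2))) (b (l 16987016) (b (l 17258352) (l 4))))))), by decide +kernel⟩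

theorem c_pm_113 : CertF 536870912 536870912 536870912 536870912 67108864 67108864 true true false .nn 1 1 3
    ndF0q1 ndF1q1 pcF3 Cut.none Ext.none :=
  certFK1 (fam := true) (s1 := true) (s2 := false) (a := 1) (b := 1) (c := 3) (cn := .nn) (n1 := ndF0q1) (n2 := ndF1q1) (pc := pcF3) (cut := Cut.none) (xt := Ext.none) (P1 := 536870912) (W1 := 536870912) (P2 := 536870912) (W2 := 536870912) (P3 := 67108864) (W3 := 67108864)
    rfl rfl rfl (fun _ => rfl) k0_pm_113

noncomputable def cut_pm_123_a : Cut := Cut.of [[⟨0, 1, 0, 21338704⟩, ⟨1, 1, 0, 21338704⟩, ⟨2, 2, 0, 1685920⟩]]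

noncomputable def f_pm_123_a : ℕ → ℕ → ℕ → ℕ → Bool := onCell 1610612736 536870912 0 536870912 67108864 67108864
    (rowFK 2 true true false .npn 1 2 3 (qsf 536870912 536870912 0 536870912 3) ndF0q1 ndF1q2a pcF3 cut_pm_123_a Ext.none)

def k0_pm_123_a : ∃ t, chk3 f_pm_123_a t 2 1 1 = true :=
  ⟨(a (b (a (l 1) (l 118147829255)) (b (a (l 1) (l 17505128)) (a (b (l 17456632) (b (l 17714712) (l 17903968))) (b (l 17302232) (b (l 17546704) (l 17728144)))))) (b (a (b (l 17820392) (l 17699248)) (b (l 17634328) (l 17625312))) (b (a (l 17465240) (l 17454184)) (b (a (l 17192864) (l 17204432)) (a (a (l 17479680) (l 17366424)) (b (l 17122768) (l 17287248))))))), by decide +kernel⟩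

def k1_pm_123_a : ∃ t, chk3 f_pm_123_a t 3 1 1 = true :=
  ⟨(a (b (a (b (l 17406056) (l 17473480)) (b (l 17173152) (a (l 17321560) (l 17200120)))) (b (a (l 17436544) (a (l 17298968) (l 17219768))) (a (b (l 17206456) (b (l 17084320) (l 17118808))) (b (l 17169936) (b (l 17102848) (a (l 17033192) (l 17051712))))))) (a (b (a (l 17087200) (l 16986448)) (b (b (l 17153488) (l 17230888)) (b (a (l 17101960) (l 17027320)) (b (l 17095512) (b (l 17046272) (a (l 17045824) (a (l 17033328) (l 17011840)))))))) (a (b (a (l 17037112) (l 123715734071)) (b (l 17173752) (b (l 17023688) (b (l 16966112) (b (l 16956200) (b (l 16962448) (a (l 16983712) (a (l 16954848) (l 16929984))))))))) (a (b (l 132842475703) (b (l 16913936) (b (l 16965056) (b (l 16841464) (b (l 16876032) (b (l 16883752) (b (l 16887888) (a (l 16904368) (a (l 16881752) (l 16864584)))))))))) (b (l 4) (a (b (l 16865720) (b (l 16898248) (b (l 16863592) (b (l 16826928) (b (l 16833136) (b (l 16836480) (b (l 16838216)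 (a (l 16847792) (a (l 16834008) (l 16824032)))))))))) (b (a (l 16829328) (l 4)) (a (b (l 16827920) (b (l 16802192) (b (l 16802408) (b (l 16805320) (b (l 16807592) (b (l 16808784) (b (l 16809392) (b (l 16809696) (a (l 16814816) (l 16814736)))))))))) (b (a (l 16811944) (b (l 4) (l 4))) (b (a (l 16848344) (a (l 16799272) (b (l 4) (l 90429456759)))) (a (b (l 16791040) (b (l 16791192) (b (l 16792528) (b (l 16793240) (b (l 16793600) (b (l 16793784) (b (l 16793872) (a (l 16796520) (l 16796240))))))))) (b (a (l 16829640) (a (l 16820528) (b (l 16874088) (l 6)))) (a (a (b (l 16785512) (b (l 16786256) (b (l 16786656) (b (l 16786864) (b (l 16786968) (l 16792000)))))) (l 6)) (l 6)))))))))))))), by decide +kernel⟩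

theorem s2_pm_123_a : ∃ t, chk3 f_pm_123_a t 1 1 1 = true := ex3_a k0_pm_123_a k1_pm_123_a

theorem c_pm_123_a : CertF 536870912 536870912 0 536870912 67108864 67108864 true true false .npn 1 2 3
    ndF0q1 ndF1q2a pcF3 cut_pm_123_a Ext.none :=
  certFK2 (fam := true) (s1 := true) (s2 := false) (a := 1) (b := 2) (c := 3) (cn := .npn) (n1 := ndF0q1) (n2 := ndF1q2a) (pc := pcF3) (cut := cut_pm_123_a) (xt := Ext.none) (P1 := 536870912) (W1 := 536870912) (P2 := 0) (W2 := 536870912) (P3 := 67108864) (W3 := 67108864)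
    rfl rfl rfl (fun _ => rfl) s2_pm_123_a

noncomputable def cut_pm_123_b : Cut := Cut.of [[⟨0, 1, 0, 21338704⟩, ⟨1, 1, 0, 21338704⟩, ⟨2, 2, 0, 1685920⟩]]

noncomputable def f_pm_123_b : ℕ → ℕ → ℕ → ℕ → Bool := onCell 1610612736 536870912 1239849684 370763052 67108864 67108864
    (rowFK 2 true true false .npn 1 2 3 (qsf 536870912 536870912 1239849684 370763052 3) ndF0q1 ndF1q2b pcF3 cut_pm_123_b Ext.none)

def k0_pm_123_b : ∃ t, chk3 f_pm_123_b t 1 1 1 = true :=
  ⟨(a (b (a (l 1) (b (a (l 17892888) (l 17597800)) (a (l 1) (l 17676816)))) (l 1)) (a (b (a (b (l 17460528) (l 17470920)) (b (b (l 17147088) (l 17196752)) (l 17279264))) (a (l 1) (b (l 17429400) (l 1)))) (a (b (b (a (l 17049872) (l 17034080)) (l 17192440)) (b (l 17264888) (l 4))) (b (b (l 4) (l 4)) (l 4))))), by decide +kernel⟩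

theorem c_pm_123_b : CertF 536870912 536870912 1239849684 370763052 67108864 67108864 true true false .npn 1 2 3
    ndF0q1 ndF1q2b pcF3 cut_pm_123_b Ext.none :=
  certFK2 (fam := true) (s1 := true) (s2 := false) (a := 1) (b := 2) (c := 3) (cn := .npn) (n1 := ndF0q1) (n2 := ndF1q2b) (pc := pcF3) (cut := cut_pm_123_b) (xt := Ext.none) (P1 := 536870912) (W1 := 536870912) (P2 := 1239849684) (W2 := 370763052) (P3 := 67108864) (W3 := 67108864)
    rfl rfl rfl (fun _ => rfl) k0_pm_123_b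

noncomputable def f_pm_133 : ℕ → ℕ → ℕ → ℕ → Bool := onCell 536870912 536870912 1610612736 536870912 67108864 67108864
    (rowFK 0 true true false .dn 1 3 3 (qsf 536870912 536870912 1610612736 536870912 3) ndF0q1 ndF1q3 pcF3 Cut.none Ext.none)

def k0_pm_133 : ∃ t, chk3 f_pm_133 t 1 1 1 = true :=
  ⟨(l 4), by decide +kernel⟩

theorem c_pm_133 : CertF 536870912 536870912 1610612736 536870912 67108864 67108864 true true false .dn 1 3 3
    ndF0q1 ndF1q3 pcF3 Cut.none Ext.none :=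
  certFK0 (fam := true) (s1 := true) (s2 := false) (a := 1) (b := 3) (c := 3) (cn := .dn) (n1 := ndF0q1) (n2 := ndF1q3) (pc := pcF3) (cut := Cut.none) (xt := Ext.none) (P1 := 536870912) (W1 := 536870912) (P2 := 1610612736) (W2 := 536870912) (P3 := 67108864) (W3 := 67108864)
    rfl rfl rfl k0_pm_133

noncomputable def cut_pm_202 : Cut := Cut.of [[⟨0, 1, 0, 67108864⟩, ⟨1, 0, 0, 67108864⟩, ⟨2, 1, 0, 67108864⟩]]

noncomputable def f_pm_202 : ℕ → ℕ → ℕ → ℕ → Bool := onCell 0 536870912 0 536870912 67108864 67108864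
    (rowFK 0 true true false .pp 2 0 2 (qsf 0 536870912 0 536870912 2) ndF0q2 ndF1q0 pcF2 cut_pm_202 Ext.none)

def k0_pm_202 : ∃ t, chk3 f_pm_202 t 1 1 1 = true :=
  ⟨(a (b (b (b (a (b (b (a (a (l 18174960) (l 18083704)) (a (l 17917104) (c (l 18453928) (l 17586504)))) (l 18002504)) (l 18116464)) (b (b (c (a (l 18382896) (b (l 18197192) (l 18227536))) (a (b (a (a (l 17564208) (l 17500056)) (l 17434632)) (l 17694784)) (b (a (l 17223560) (l 17006224)) (l 17443936)))) (a (l 18065536) (l 17908264))) (a (l 18075600) (l 17980680)))) (a (l 17987624) (l 17994768))) (b (a (l 17772968) (l 17860312)) (l 17624856))) (b (a (l 17272832) (l 17445296)) (b (l 17158960) (l 2)))) (b (a (b (b (b (a (b (c (b (c (l 17874552) (a (l 17713360) (l 17358264))) (l 17930904)) (b (a (l 16847816) (l 16727272)) (l 16929832))) (a (l 17709096) (l 17514600))) (b (a (b (b (l 16720512) (l 16806480)) (l 16982312)) (b (a (l 16708408) (b (l 16719952) (l 16700152))) (l 16690544))) (a (l 17249360)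 (l 16879712)))) (a (l 17797896) (a (l 17571256) (l 17350744)))) (a (l 17914416) (b (l 17712600) (l 17815072)))) (b (l 17864456) (l 17782296))) (b (b (a (b (b (a (b (a (a (l 16725032) (l 16725184)) (b (l 16731784) (l 16700424))) (l 16731960)) (b (b (l 6) (a (l 16725272) (l 6))) (a (l 16711072) (l 16735656)))) (a (l 16724744) (l 16772920))) (a (l 17052152) (b (l 16693488) (l 16855064)))) (b (a (b (l 6) (a (l 16803368) (l 6))) (l 6)) (a (a (l 16800360) (l 16902856)) (b (a (l 16877008) (l 6)) (a (l 16794776) (l 16864760)))))) (a (b (a (l 17489640) (l 17280608)) (l 17626016)) (a (b (l 17008344) (l 17414840)) (b (l 16968760) (l 17237912))))) (a (l 17793496) (b (b (l 17549064) (l 17664864)) (l 17742608))))) (b (a (l 17599416) (a (l 17684368) (l 17726320))) (a (l 17361488) (a (l 17489712) (l 17559792)))))), by decide +kernel⟩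

theorem c_pm_202 : CertF 0 536870912 0 536870912 67108864 67108864 true true false .pp 2 0 2
    ndF0q2 ndF1q0 pcF2 cut_pm_202 Ext.none :=
  certFK0 (fam := true) (s1 := true) (s2 := false) (a := 2) (b := 0) (c := 2) (cn := .pp) (n1 := ndF0q2) (n2 := ndF1q0) (pc := pcF2) (cut := cut_pm_202) (xt := Ext.none) (P1 := 0) (W1 := 536870912) (P2 := 0) (W2 := 536870912) (P3 := 67108864) (W3 := 67108864)
    rfl rfl rfl k0_pm_202

noncomputable def f_pm_203 : ℕ → ℕ → ℕ → ℕ → Bool := onCell 0 536870912 1610612736 536870912 67108864 67108864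
    (rowFK 1 true true false .up 2 0 3 (qsf 0 536870912 0 536870912 3) ndF0q2 ndF1q0 pcF3 Cut.none Ext.none)

def k0_pm_203 : ∃ t, chk3 f_pm_203 t 1 1 1 = true :=
  ⟨(b (b (a (b (l 17243240) (l 17119112)) (a (l 17593680) (b (l 18101856) (l 17927016)))) (a (b (l 17039432) (l 2)) (a (l 2) (l 2)))) (l 2)), by decide +kernel⟩

theorem c_pm_203 : CertF 0 536870912 0 536870912 67108864 67108864 true true false .up 2 0 3
    ndF0q2 ndF1q0 pcF3 Cut.none Ext.none :=
  certFK1 (fam := true) (s1 := true) (s2 := false) (a := 2) (b := 0) (c := 3) (cn := .up) (n1 := ndF0q2) (n2 := ndF1q0) (pc := pcF3) (cut := Cut.none) (xt := Ext.none) (P1 := 0) (W1 := 536870912) (P2 := 0) (W2 := 536870912) (P3 := 67108864) (W3 := 67108864)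
    rfl rfl rfl (fun _ => rfl) k0_pm_203

noncomputable def f_pm_213 : ℕ → ℕ → ℕ → ℕ → Bool := onCell 0 536870912 1610612736 536870912 67108864 67108864
    (rowFK 1 true true false .pnn 2 1 3 (qsf 0 536870912 536870912 536870912 3) ndF0q2 ndF1q1 pcF3 Cut.none Ext.none)

def k0_pm_213 : ∃ t, chk3 f_pm_213 t 1 1 1 = true :=
  ⟨(a (b (b (b (l 1) (l 17606488)) (b (l 17652448) (l 4))) (l 4)) (b (b (a (l 18101520) (b (l 18601536) (l 18439856))) (a (b (l 17900784) (l 17758312)) (l 18274776))) (b (b (a (l 17615568) (l 17675712)) (l 65198249911)) (l 4)))), by decide +kernel⟩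

theorem c_pm_213 : CertF 0 536870912 536870912 536870912 67108864 67108864 true true false .pnn 2 1 3
    ndF0q2 ndF1q1 pcF3 Cut.none Ext.none :=
  certFK1 (fam := true) (s1 := true) (s2 := false) (a := 2) (b := 1) (c := 3) (cn := .pnn) (n1 := ndF0q2) (n2 := ndF1q1) (pc := pcF3) (cut := Cut.none) (xt := Ext.none) (P1 := 0) (W1 := 536870912) (P2 := 536870912) (W2 := 536870912) (P3 := 67108864) (W3 := 67108864)
    rfl rfl rfl (fun _ => rfl) k0_pm_213

noncomputable def f_mm_001 : ℕ → ℕ → ℕ → ℕ → Bool := onCell 0 536870912 0 536870912 67108864 67108864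
    (rowFK 0 true false false .up 0 0 1 (qsf 0 536870912 0 536870912 1) ndF0q0 ndF1q0 pcF1 Cut.none Ext.none)

def k0_mm_001 : ∃ t, chk3 f_mm_001 t 1 1 1 = true :=
  ⟨(l 4), by decide +kernel⟩

theorem c_mm_001 : CertF 0 536870912 0 536870912 67108864 67108864 true false false .up 0 0 1
    ndF0q0 ndF1q0 pcF1 Cut.none Ext.none :=
  certFK0 (fam := true) (s1 := false) (s2 := false) (a := 0) (b := 0) (c := 1) (cn := .up) (n1 := ndF0q0) (n2 := ndF1q0) (pc := pcF1) (cut := Cut.none) (xt := Ext.none) (P1 := 0) (W1 := 536870912) (P2 := 0) (W2 := 536870912) (P3 := 67108864) (W3 := 67108864)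
    rfl rfl rfl k0_mm_001

noncomputable def f_mm_011 : ℕ → ℕ → ℕ → ℕ → Bool := onCell 0 536870912 536870912 536870912 67108864 67108864
    (rowFK 0 true false false .pnn 0 1 1 (qsf 0 536870912 536870912 536870912 1) ndF0q0 ndF1q1 pcF1 Cut.none Ext.none)

def k0_mm_011 : ∃ t, chk3 f_mm_011 t 1 1 1 = true :=
  ⟨(l 4), by decide +kernel⟩

theorem c_mm_011 : CertF 0 536870912 536870912 536870912 67108864 67108864 true false false .pnn 0 1 1
    ndF0q0 ndF1q1 pcF1 Cut.none Ext.none :=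
  certFK0 (fam := true) (s1 := false) (s2 := false) (a := 0) (b := 1) (c := 1) (cn := .pnn) (n1 := ndF0q0) (n2 := ndF1q1) (pc := pcF1) (cut := Cut.none) (xt := Ext.none) (P1 := 0) (W1 := 536870912) (P2 := 536870912) (W2 := 536870912) (P3 := 67108864) (W3 := 67108864)
    rfl rfl rfl k0_mm_011

noncomputable def f_mm_012 : ℕ → ℕ → ℕ → ℕ → Bool := onCell 0 536870912 536870912 536870912 67108864 67108864
    (rowFK 0 true false false .pnp 0 1 2 (qsf 0 536870912 536870912 536870912 2) ndF0q0 ndF1q1 pcF2 Cut.none Ext.none)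

def k0_mm_012 : ∃ t, chk3 f_mm_012 t 1 1 1 = true :=
  ⟨(l 4), by decide +kernel⟩

theorem c_mm_012 : CertF 0 536870912 536870912 536870912 67108864 67108864 true false false .pnp 0 1 2
    ndF0q0 ndF1q1 pcF2 Cut.none Ext.none :=
  certFK0 (fam := true) (s1 := false) (s2 := false) (a := 0) (b := 1) (c := 2) (cn := .pnp) (n1 := ndF0q0) (n2 := ndF1q1) (pc := pcF2) (cut := Cut.none) (xt := Ext.none) (P1 := 0) (W1 := 536870912) (P2 := 536870912) (W2 := 536870912) (P3 := 67108864) (W3 := 67108864)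
    rfl rfl rfl k0_mm_012

noncomputable def f_mm_022_a : ℕ → ℕ → ℕ → ℕ → Bool := onCell 0 536870912 0 536870912 67108864 67108864
    (rowFK 0 true false false .pp 0 2 2 (qsf 0 536870912 0 536870912 2) ndF0q0 ndF1q2a pcF2 Cut.none Ext.none)

def k0_mm_022_a : ∃ t, chk3 f_mm_022_a t 1 1 1 = true :=
  ⟨(l 5), by decide +kernel⟩

theorem c_mm_022_a : CertF 0 536870912 0 536870912 67108864 67108864 true false false .pp 0 2 2
    ndF0q0 ndF1q2a pcF2 Cut.none Ext.none :=
  certFK0 (fam := true) (s1 := false) (s2 := false) (a := 0) (b := 2) (c := 2) (cn := .pp) (n1 := ndF0q0) (n2 := ndF1q2a) (pc := pcF2) (cut := Cut.none) (xt := Ext.none) (P1 := 0) (W1 := 536870912) (P2 := 0) (W2 := 536870912) (P3 := 67108864) (W3 := 67108864)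
    rfl rfl rfl k0_mm_022_a

noncomputable def f_mm_022_b : ℕ → ℕ → ℕ → ℕ → Bool := onCell 0 536870912 1239849684 370763052 67108864 67108864
    (rowFK 0 true false false .pp 0 2 2 (qsf 0 536870912 1239849684 370763052 2) ndF0q0 ndF1q2b pcF2 Cut.none Ext.none)

def k0_mm_022_b : ∃ t, chk3 f_mm_022_b t 1 1 1 = true :=
  ⟨(l 5), by decide +kernel⟩

theorem c_mm_022_b : CertF 0 536870912 1239849684 370763052 67108864 67108864 true false false .pp 0 2 2
    ndF0q0 ndF1q2b pcF2 Cut.none Ext.none :=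
  certFK0 (fam := true) (s1 := false) (s2 := false) (a := 0) (b := 2) (c := 2) (cn := .pp) (n1 := ndF0q0) (n2 := ndF1q2b) (pc := pcF2) (cut := Cut.none) (xt := Ext.none) (P1 := 0) (W1 := 536870912) (P2 := 1239849684) (W2 := 370763052) (P3 := 67108864) (W3 := 67108864)
    rfl rfl rfl k0_mm_022_b

noncomputable def f_mm_023_a : ℕ → ℕ → ℕ → ℕ → Bool := onCell 0 536870912 0 536870912 67108864 67108864
    (rowFK 0 true false false .up 0 2 3 (qsf 0 536870912 0 536870912 3) ndF0q0 ndF1q2a pcF3 Cut.none Ext.none)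

def k0_mm_023_a : ∃ t, chk3 f_mm_023_a t 1 1 1 = true :=
  ⟨(l 5), by decide +kernel⟩

theorem c_mm_023_a : CertF 0 536870912 0 536870912 67108864 67108864 true false false .up 0 2 3
    ndF0q0 ndF1q2a pcF3 Cut.none Ext.none :=
  certFK0 (fam := true) (s1 := false) (s2 := false) (a := 0) (b := 2) (c := 3) (cn := .up) (n1 := ndF0q0) (n2 := ndF1q2a) (pc := pcF3) (cut := Cut.none) (xt := Ext.none) (P1 := 0) (W1 := 536870912) (P2 := 0) (W2 := 536870912) (P3 := 67108864) (W3 := 67108864)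
    rfl rfl rfl k0_mm_023_a

noncomputable def f_mm_023_b : ℕ → ℕ → ℕ → ℕ → Bool := onCell 0 536870912 1239849684 370763052 67108864 67108864
    (rowFK 0 true false false .up 0 2 3 (qsf 0 536870912 1239849684 370763052 3) ndF0q0 ndF1q2b pcF3 Cut.none Ext.none)

def k0_mm_023_b : ∃ t, chk3 f_mm_023_b t 1 1 1 = true :=
  ⟨(l 5), by decide +kernel⟩

theorem c_mm_023_b : CertF 0 536870912 1239849684 370763052 67108864 67108864 true false false .up 0 2 3
    ndF0q0 ndF1q2b pcF3 Cut.none Ext.none :=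
  certFK0 (fam := true) (s1 := false) (s2 := false) (a := 0) (b := 2) (c := 3) (cn := .up) (n1 := ndF0q0) (n2 := ndF1q2b) (pc := pcF3) (cut := Cut.none) (xt := Ext.none) (P1 := 0) (W1 := 536870912) (P2 := 1239849684) (W2 := 370763052) (P3 := 67108864) (W3 := 67108864)
    rfl rfl rfl k0_mm_023_b

noncomputable def f_mm_033 : ℕ → ℕ → ℕ → ℕ → Bool := onCell 0 536870912 1610612736 536870912 67108864 67108864
    (rowFK 0 true false false .pnn 0 3 3 (qsf 0 536870912 1610612736 536870912 3) ndF0q0 ndF1q3 pcF3 Cut.none Ext.none)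

def k0_mm_033 : ∃ t, chk3 f_mm_033 t 1 1 1 = true :=
  ⟨(l 5), by decide +kernel⟩

theorem c_mm_033 : CertF 0 536870912 1610612736 536870912 67108864 67108864 true false false .pnn 0 3 3
    ndF0q0 ndF1q3 pcF3 Cut.none Ext.none :=
  certFK0 (fam := true) (s1 := false) (s2 := false) (a := 0) (b := 3) (c := 3) (cn := .pnn) (n1 := ndF0q0) (n2 := ndF1q3) (pc := pcF3) (cut := Cut.none) (xt := Ext.none) (P1 := 0) (W1 := 536870912) (P2 := 1610612736) (W2 := 536870912) (P3 := 67108864) (W3 := 67108864)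
    rfl rfl rfl k0_mm_033

noncomputable def cut_mm_101 : Cut := Cut.of [[⟨0, 1, 0, 67108864⟩, ⟨1, 0, 0, 67108864⟩, ⟨2, 1, 0, 67108864⟩]]

noncomputable def f_mm_101 : ℕ → ℕ → ℕ → ℕ → Bool := onCell 536870912 536870912 0 536870912 67108864 67108864
    (rowFK 0 true false false .npn 1 0 1 (qsf 536870912 536870912 0 536870912 1) ndF0q1 ndF1q0 pcF1 cut_mm_101 Ext.none)

def k0_mm_101 : ∃ t, chk3 f_mm_101 t 1 1 1 = true :=
  ⟨(a (l 4) (b (a (l 4) (b (a (l 4) (a (l 4) (b (b (l 6) (l 4)) (l 2)))) (l 4))) (l 4))), by decide +kernel⟩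

theorem c_mm_101 : CertF 536870912 536870912 0 536870912 67108864 67108864 true false false .npn 1 0 1
    ndF0q1 ndF1q0 pcF1 cut_mm_101 Ext.none :=
  certFK0 (fam := true) (s1 := false) (s2 := false) (a := 1) (b := 0) (c := 1) (cn := .npn) (n1 := ndF0q1) (n2 := ndF1q0) (pc := pcF1) (cut := cut_mm_101) (xt := Ext.none) (P1 := 536870912) (W1 := 536870912) (P2 := 0) (W2 := 536870912) (P3 := 67108864) (W3 := 67108864)
    rfl rfl rfl k0_mm_101

noncomputable def cut_mm_102 : Cut := Cut.of [[⟨0, 1, 0, 67108864⟩, ⟨1, 0, 0, 67108864⟩, ⟨2, 1, 0, 67108864⟩]]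

noncomputable def f_mm_102 : ℕ → ℕ → ℕ → ℕ → Bool := onCell 536870912 536870912 0 536870912 67108864 67108864
    (rowFK 0 true false false .npp 1 0 2 (qsf 536870912 536870912 0 536870912 2) ndF0q1 ndF1q0 pcF2 cut_mm_102 Ext.none)

def k0_mm_102 : ∃ t, chk3 f_mm_102 t 1 1 1 = true :=
  ⟨(a (l 4) (b (a (l 4) (b (a (l 4) (a (l 4) (b (b (l 6) (l 4)) (l 4)))) (l 4))) (l 4))), by decide +kernel⟩

theorem c_mm_102 : CertF 536870912 536870912 0 536870912 67108864 67108864 true false false .npp 1 0 2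
    ndF0q1 ndF1q0 pcF2 cut_mm_102 Ext.none :=
  certFK0 (fam := true) (s1 := false) (s2 := false) (a := 1) (b := 0) (c := 2) (cn := .npp) (n1 := ndF0q1) (n2 := ndF1q0) (pc := pcF2) (cut := cut_mm_102) (xt := Ext.none) (P1 := 536870912) (W1 := 536870912) (P2 := 0) (W2 := 536870912) (P3 := 67108864) (W3 := 67108864)
    rfl rfl rfl k0_mm_102

noncomputable def f_mm_112 : ℕ → ℕ → ℕ → ℕ → Bool := onCell 536870912 536870912 536870912 536870912 67108864 67108864
    (rowFK 0 true false false .dn 1 1 2 (qsf 536870912 536870912 536870912 536870912 2) ndF0q1 ndF1q1 pcF2 Cut.none Ext.none)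

def k0_mm_112 : ∃ t, chk3 f_mm_112 t 1 1 1 = true :=
  ⟨(l 4), by decide +kernel⟩

theorem c_mm_112 : CertF 536870912 536870912 536870912 536870912 67108864 67108864 true false false .dn 1 1 2
    ndF0q1 ndF1q1 pcF2 Cut.none Ext.none :=
  certFK0 (fam := true) (s1 := false) (s2 := false) (a := 1) (b := 1) (c := 2) (cn := .dn) (n1 := ndF0q1) (n2 := ndF1q1) (pc := pcF2) (cut := Cut.none) (xt := Ext.none) (P1 := 536870912) (W1 := 536870912) (P2 := 536870912) (W2 := 536870912) (P3 := 67108864) (W3 := 67108864)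
    rfl rfl rfl k0_mm_112

noncomputable def f_mm_113 : ℕ → ℕ → ℕ → ℕ → Bool := onCell 536870912 536870912 536870912 536870912 67108864 67108864
    (rowFK 0 true false false .nn 1 1 3 (qsf 536870912 536870912 536870912 536870912 3) ndF0q1 ndF1q1 pcF3 Cut.none Ext.none)

def k0_mm_113 : ∃ t, chk3 f_mm_113 t 1 1 1 = true :=
  ⟨(l 4), by decide +kernel⟩

theorem c_mm_113 : CertF 536870912 536870912 536870912 536870912 67108864 67108864 true false false .nn 1 1 3
    ndF0q1 ndF1q1 pcF3 Cut.none Ext.none :=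
  certFK0 (fam := true) (s1 := false) (s2 := false) (a := 1) (b := 1) (c := 3) (cn := .nn) (n1 := ndF0q1) (n2 := ndF1q1) (pc := pcF3) (cut := Cut.none) (xt := Ext.none) (P1 := 536870912) (W1 := 536870912) (P2 := 536870912) (W2 := 536870912) (P3 := 67108864) (W3 := 67108864)
    rfl rfl rfl k0_mm_113

noncomputable def f_mm_123_a : ℕ → ℕ → ℕ → ℕ → Bool := onCell 536870912 536870912 0 536870912 67108864 67108864
    (rowFK 0 true false false .npn 1 2 3 (qsf 536870912 536870912 0 536870912 3) ndF0q1 ndF1q2a pcF3 Cut.none Ext.none)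

def k0_mm_123_a : ∃ t, chk3 f_mm_123_a t 1 1 1 = true :=
  ⟨(l 4), by decide +kernel⟩

theorem c_mm_123_a : CertF 536870912 536870912 0 536870912 67108864 67108864 true false false .npn 1 2 3
    ndF0q1 ndF1q2a pcF3 Cut.none Ext.none :=
  certFK0 (fam := true) (s1 := false) (s2 := false) (a := 1) (b := 2) (c := 3) (cn := .npn) (n1 := ndF0q1) (n2 := ndF1q2a) (pc := pcF3) (cut := Cut.none) (xt := Ext.none) (P1 := 536870912) (W1 := 536870912) (P2 := 0) (W2 := 536870912) (P3 := 67108864) (W3 := 67108864)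
    rfl rfl rfl k0_mm_123_a

noncomputable def f_mm_123_b : ℕ → ℕ → ℕ → ℕ → Bool := onCell 536870912 536870912 1239849684 370763052 67108864 67108864
    (rowFK 0 true false false .npn 1 2 3 (qsf 536870912 536870912 1239849684 370763052 3) ndF0q1 ndF1q2b pcF3 Cut.none Ext.none)

def k0_mm_123_b : ∃ t, chk3 f_mm_123_b t 1 1 1 = true :=
  ⟨(l 4), by decide +kernel⟩

theorem c_mm_123_b : CertF 536870912 536870912 1239849684 370763052 67108864 67108864 true false false .npn 1 2 3
    ndF0q1 ndF1q2b pcF3 Cut.none Ext.none :=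
  certFK0 (fam := true) (s1 := false) (s2 := false) (a := 1) (b := 2) (c := 3) (cn := .npn) (n1 := ndF0q1) (n2 := ndF1q2b) (pc := pcF3) (cut := Cut.none) (xt := Ext.none) (P1 := 536870912) (W1 := 536870912) (P2 := 1239849684) (W2 := 370763052) (P3 := 67108864) (W3 := 67108864)
    rfl rfl rfl k0_mm_123_b

noncomputable def f_mm_133 : ℕ → ℕ → ℕ → ℕ → Bool := onCell 536870912 536870912 1610612736 536870912 67108864 67108864
    (rowFK 0 true false false .dn 1 3 3 (qsf 536870912 536870912 1610612736 536870912 3) ndF0q1 ndF1q3 pcF3 Cut.none Ext.none)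

def k0_mm_133 : ∃ t, chk3 f_mm_133 t 1 1 1 = true :=
  ⟨(l 4), by decide +kernel⟩

theorem c_mm_133 : CertF 536870912 536870912 1610612736 536870912 67108864 67108864 true false false .dn 1 3 3
    ndF0q1 ndF1q3 pcF3 Cut.none Ext.none :=
  certFK0 (fam := true) (s1 := false) (s2 := false) (a := 1) (b := 3) (c := 3) (cn := .dn) (n1 := ndF0q1) (n2 := ndF1q3) (pc := pcF3) (cut := Cut.none) (xt := Ext.none) (P1 := 536870912) (W1 := 536870912) (P2 := 1610612736) (W2 := 536870912) (P3 := 67108864) (W3 := 67108864)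
    rfl rfl rfl k0_mm_133

noncomputable def cut_mm_202 : Cut := Cut.of [[⟨0, 1, 0, 67108864⟩, ⟨1, 0, 0, 67108864⟩, ⟨2, 1, 0, 67108864⟩]]

noncomputable def f_mm_202 : ℕ → ℕ → ℕ → ℕ → Bool := onCell 0 536870912 0 536870912 67108864 67108864
    (rowFK 0 true false false .pp 2 0 2 (qsf 0 536870912 0 536870912 2) ndF0q2 ndF1q0 pcF2 cut_mm_202 Ext.none)

def k0_mm_202 : ∃ t, chk3 f_mm_202 t 1 1 1 = true :=
  ⟨(b (a (b (b (a (b (b (a (l 17930152) (c (l 18449224) (l 17581664))) (l 18116616)) (l 18061240)) (a (b (b (c (l 18345976) (a (l 17648672) (l 17361008))) (l 17978056)) (l 17928800)) (b (b (b (c (l 17974704) (a (l 17335376) (l 16981760))) (l 17556696)) (l 17794000)) (l 17772448)))) (a (l 17887584) (b (l 17738672) (l 17600272)))) (a (l 17477944) (b (l 17385072) (l 17125424)))) (b (a (b (a (b (b (b (a (c (l 17800984) (b (l 16898288) (l 16984568))) (a (c (l 17653616) (l 16715088)) (b (l 16909304) (l 17105072)))) (a (l 17518600) (l 17281680))) (a (l 17589144)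 (l 17402200))) (l 17480984)) (b (b (a (b (b (a (l 16800968) (l 16727128)) (l 16806984)) (l 16961864)) (b (b (a (l 16728712) (l 16730752)) (l 16720512)) (l 16706464))) (a (l 17162392) (l 16853328))) (a (l 17312688) (l 17123072)))) (b (a (l 17470496) (l 17215496)) (l 23320886663))) (b (a (b (b (a (b (b (a (l 16733288) (b (l 16738608) (l 16734128))) (l 16725728)) (l 16711856)) (b (b (l 6) (a (l 16731056) (l 6))) (a (l 16717320) (l 16721728)))) (a (l 16704136) (a (l 16697864) (l 16750168)))) (b (a (l 16824200) (l 16792536)) (l 16879720))) (a (b (b (l 6) (b (l 6) (l 16799120))) (b (l 4) (l 4))) (b (l 6) (l 4)))) (a (b (l 16920808) (l 4)) (l 4)))) (a (b (a (l 17124472) (l 4)) (l 4)) (l 4)))) (a (b (a (l 17164256) (l 4)) (l 4)) (l 4))), by decide +kernel⟩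

theorem c_mm_202 : CertF 0 536870912 0 536870912 67108864 67108864 true false false .pp 2 0 2
    ndF0q2 ndF1q0 pcF2 cut_mm_202 Ext.none :=
  certFK0 (fam := true) (s1 := false) (s2 := false) (a := 2) (b := 0) (c := 2) (cn := .pp) (n1 := ndF0q2) (n2 := ndF1q0) (pc := pcF2) (cut := cut_mm_202) (xt := Ext.none) (P1 := 0) (W1 := 536870912) (P2 := 0) (W2 := 536870912) (P3 := 67108864) (W3 := 67108864)
    rfl rfl rfl k0_mm_202

noncomputable def f_mm_203 : ℕ → ℕ → ℕ → ℕ → Bool := onCell 0 536870912 1610612736 536870912 67108864 67108864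
    (rowFK 1 true false false .up 2 0 3 (qsf 0 536870912 0 536870912 3) ndF0q2 ndF1q0 pcF3 Cut.none Ext.none)

def k0_mm_203 : ∃ t, chk3 f_mm_203 t 1 1 1 = true :=
  ⟨(b (a (l 4) (l 4)) (l 2)), by decide +kernel⟩

theorem c_mm_203 : CertF 0 536870912 0 536870912 67108864 67108864 true false false .up 2 0 3
    ndF0q2 ndF1q0 pcF3 Cut.none Ext.none :=
  certFK1 (fam := true) (s1 := false) (s2 := false) (a := 2) (b := 0) (c := 3) (cn := .up) (n1 := ndF0q2) (n2 := ndF1q0) (pc := pcF3) (cut := Cut.none) (xt := Ext.none) (P1 := 0) (W1 := 536870912) (P2 := 0) (W2 := 536870912) (P3 := 67108864) (W3 := 67108864)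
    rfl rfl rfl (fun _ => rfl) k0_mm_203

noncomputable def f_mm_213 : ℕ → ℕ → ℕ → ℕ → Bool := onCell 0 536870912 536870912 536870912 67108864 67108864
    (rowFK 0 true false false .pnn 2 1 3 (qsf 0 536870912 536870912 536870912 3) ndF0q2 ndF1q1 pcF3 Cut.none Ext.none)

def k0_mm_213 : ∃ t, chk3 f_mm_213 t 1 1 1 = true :=
  ⟨(l 4), by decide +kernel⟩

theorem c_mm_213 : CertF 0 536870912 536870912 536870912 67108864 67108864 true false false .pnn 2 1 3
    ndF0q2 ndF1q1 pcF3 Cut.none Ext.none :=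
  certFK0 (fam := true) (s1 := false) (s2 := false) (a := 2) (b := 1) (c := 3) (cn := .pnn) (n1 := ndF0q2) (n2 := ndF1q1) (pc := pcF3) (cut := Cut.none) (xt := Ext.none) (P1 := 0) (W1 := 536870912) (P2 := 536870912) (W2 := 536870912) (P3 := 67108864) (W3 := 67108864)
    rfl rfl rfl k0_mm_213

end Pool.Agent.Strip051.G.I1_16_1_8.Tab.C.FA01

namespace Pool.Agent.Strip051.G.I1_16_1_8.Tab.C.FA02

open Pool.Agent.Strip051.PB Pool.Agent.Strip051.PB.T
open Pool.Agent.Strip051.G.I1_16_1_8.Tab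

noncomputable def f_pp_001 : ℕ → ℕ → ℕ → ℕ → Bool := onCell 0 536870912 0 536870912 67108864 67108864
    (rowFK 0 true true true .up 0 0 1 (qsf 0 536870912 0 536870912 1) ndF0q0 ndF2q0 pcF1 Cut.none Ext.none)

def k0_pp_001 : ∃ t, chk3 f_pp_001 t 1 1 1 = true :=
  ⟨(l 4), by decide +kernel⟩

theorem c_pp_001 : CertF 0 536870912 0 536870912 67108864 67108864 true true true .up 0 0 1
    ndF0q0 ndF2q0 pcF1 Cut.none Ext.none :=
  certFK0 (fam := true) (s1 := true) (s2 := true) (a := 0) (b := 0) (c := 1) (cn := .up) (n1 := ndF0q0) (n2 := ndF2q0) (pc := pcF1) (cut := Cut.none) (xt := Ext.none) (P1 := 0) (W1 := 536870912) (P2 := 0) (W2 := 536870912) (P3 := 67108864) (W3 := 67108864)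
    rfl rfl rfl k0_pp_001

noncomputable def f_pp_011 : ℕ → ℕ → ℕ → ℕ → Bool := onCell 0 536870912 536870912 536870912 67108864 67108864
    (rowFK 0 true true true .pnn 0 1 1 (qsf 0 536870912 536870912 536870912 1) ndF0q0 ndF2q1 pcF1 Cut.none Ext.none)

def k0_pp_011 : ∃ t, chk3 f_pp_011 t 1 1 1 = true :=
  ⟨(l 4), by decide +kernel⟩

theorem c_pp_011 : CertF 0 536870912 536870912 536870912 67108864 67108864 true true true .pnn 0 1 1
    ndF0q0 ndF2q1 pcF1 Cut.none Ext.none :=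
  certFK0 (fam := true) (s1 := true) (s2 := true) (a := 0) (b := 1) (c := 1) (cn := .pnn) (n1 := ndF0q0) (n2 := ndF2q1) (pc := pcF1) (cut := Cut.none) (xt := Ext.none) (P1 := 0) (W1 := 536870912) (P2 := 536870912) (W2 := 536870912) (P3 := 67108864) (W3 := 67108864)
    rfl rfl rfl k0_pp_011

noncomputable def f_pp_012 : ℕ → ℕ → ℕ → ℕ → Bool := onCell 0 536870912 536870912 536870912 67108864 67108864
    (rowFK 0 true true true .pnp 0 1 2 (qsf 0 536870912 536870912 536870912 2) ndF0q0 ndF2q1 pcF2 Cut.none Ext.none)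

def k0_pp_012 : ∃ t, chk3 f_pp_012 t 1 1 1 = true :=
  ⟨(l 4), by decide +kernel⟩

theorem c_pp_012 : CertF 0 536870912 536870912 536870912 67108864 67108864 true true true .pnp 0 1 2
    ndF0q0 ndF2q1 pcF2 Cut.none Ext.none :=
  certFK0 (fam := true) (s1 := true) (s2 := true) (a := 0) (b := 1) (c := 2) (cn := .pnp) (n1 := ndF0q0) (n2 := ndF2q1) (pc := pcF2) (cut := Cut.none) (xt := Ext.none) (P1 := 0) (W1 := 536870912) (P2 := 536870912) (W2 := 536870912) (P3 := 67108864) (W3 := 67108864)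
    rfl rfl rfl k0_pp_012

noncomputable def cut_pp_022_a : Cut := Cut.of [[⟨0, 0, 0, 67108864⟩, ⟨1, 1, 0, 67108864⟩, ⟨2, 1, 0, 67108864⟩]]

noncomputable def f_pp_022_a : ℕ → ℕ → ℕ → ℕ → Bool := onCell 0 536870912 0 536870912 67108864 67108864
    (rowFK 0 true true true .pp 0 2 2 (qsf 0 536870912 0 536870912 2) ndF0q0 ndF2q2a pcF2 cut_pp_022_a Ext.none)

def k0_pp_022_a : ∃ t, chk3 f_pp_022_a t 1 1 1 = true :=
  ⟨(a (b (l 4) (a (b (l 4) (b (l 4) (a (a (b (l 4) (l 6)) (l 4)) (l 4)))) (l 4))) (l 4)), by decide +kernel⟩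

theorem c_pp_022_a : CertF 0 536870912 0 536870912 67108864 67108864 true true true .pp 0 2 2
    ndF0q0 ndF2q2a pcF2 cut_pp_022_a Ext.none :=
  certFK0 (fam := true) (s1 := true) (s2 := true) (a := 0) (b := 2) (c := 2) (cn := .pp) (n1 := ndF0q0) (n2 := ndF2q2a) (pc := pcF2) (cut := cut_pp_022_a) (xt := Ext.none) (P1 := 0) (W1 := 536870912) (P2 := 0) (W2 := 536870912) (P3 := 67108864) (W3 := 67108864)
    rfl rfl rfl k0_pp_022_a

noncomputable def cut_pp_022_b : Cut := Cut.of [[⟨0, 0, 0, 67108864⟩, ⟨1, 1, 0, 67108864⟩, ⟨2, 1, 0, 67108864⟩]]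

noncomputable def f_pp_022_b : ℕ → ℕ → ℕ → ℕ → Bool := onCell 0 536870912 1239849684 370763052 67108864 67108864
    (rowFK 0 true true true .pp 0 2 2 (qsf 0 536870912 1239849684 370763052 2) ndF0q0 ndF2q2b pcF2 cut_pp_022_b Ext.none)

def k0_pp_022_b : ∃ t, chk3 f_pp_022_b t 1 1 1 = true :=
  ⟨(l 4), by decide +kernel⟩

theorem c_pp_022_b : CertF 0 536870912 1239849684 370763052 67108864 67108864 true true true .pp 0 2 2
    ndF0q0 ndF2q2b pcF2 cut_pp_022_b Ext.none :=
  certFK0 (fam := true) (s1 := true) (s2 := true) (a := 0) (b := 2) (c := 2) (cn := .pp) (n1 := ndF0q0) (n2 := ndF2q2b) (pc := pcF2) (cut := cut_pp_022_b) (xt := Ext.none) (P1 := 0) (W1 := 536870912) (P2 := 1239849684) (W2 := 370763052) (P3 := 67108864) (W3 := 67108864)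
    rfl rfl rfl k0_pp_022_b

noncomputable def f_pp_023_a : ℕ → ℕ → ℕ → ℕ → Bool := onCell 1610612736 536870912 0 536870912 67108864 67108864
    (rowFK 2 true true true .up 0 2 3 (qsf 0 536870912 0 536870912 3) ndF0q0 ndF2q2a pcF3 Cut.none Ext.none)

def k0_pp_023_a : ∃ t, chk3 f_pp_023_a t 1 1 1 = true :=
  ⟨(l 4), by decide +kernel⟩

theorem c_pp_023_a : CertF 0 536870912 0 536870912 67108864 67108864 true true true .up 0 2 3
    ndF0q0 ndF2q2a pcF3 Cut.none Ext.none :=
  certFK2 (fam := true) (s1 := true) (s2 := true) (a := 0) (b := 2) (c := 3) (cn := .up) (n1 := ndF0q0) (n2 := ndF2q2a) (pc := pcF3) (cut := Cut.none) (xt := Ext.none) (P1 := 0) (W1 := 536870912) (P2 := 0) (W2 := 536870912) (P3 := 67108864) (W3 := 67108864)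
    rfl rfl rfl (fun _ => rfl) k0_pp_023_a

noncomputable def f_pp_023_b : ℕ → ℕ → ℕ → ℕ → Bool := onCell 0 536870912 1239849684 370763052 67108864 67108864
    (rowFK 0 true true true .up 0 2 3 (qsf 0 536870912 1239849684 370763052 3) ndF0q0 ndF2q2b pcF3 Cut.none Ext.none)

def k0_pp_023_b : ∃ t, chk3 f_pp_023_b t 1 1 1 = true :=
  ⟨(l 4), by decide +kernel⟩

theorem c_pp_023_b : CertF 0 536870912 1239849684 370763052 67108864 67108864 true true true .up 0 2 3
    ndF0q0 ndF2q2b pcF3 Cut.none Ext.none :=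
  certFK0 (fam := true) (s1 := true) (s2 := true) (a := 0) (b := 2) (c := 3) (cn := .up) (n1 := ndF0q0) (n2 := ndF2q2b) (pc := pcF3) (cut := Cut.none) (xt := Ext.none) (P1 := 0) (W1 := 536870912) (P2 := 1239849684) (W2 := 370763052) (P3 := 67108864) (W3 := 67108864)
    rfl rfl rfl k0_pp_023_b

noncomputable def f_pp_033 : ℕ → ℕ → ℕ → ℕ → Bool := onCell 0 536870912 1610612736 536870912 67108864 67108864
    (rowFK 0 true true true .pnn 0 3 3 (qsf 0 536870912 1610612736 536870912 3) ndF0q0 ndF2q3 pcF3 Cut.none Ext.none)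

def k0_pp_033 : ∃ t, chk3 f_pp_033 t 1 1 1 = true :=
  ⟨(l 4), by decide +kernel⟩

theorem c_pp_033 : CertF 0 536870912 1610612736 536870912 67108864 67108864 true true true .pnn 0 3 3
    ndF0q0 ndF2q3 pcF3 Cut.none Ext.none :=
  certFK0 (fam := true) (s1 := true) (s2 := true) (a := 0) (b := 3) (c := 3) (cn := .pnn) (n1 := ndF0q0) (n2 := ndF2q3) (pc := pcF3) (cut := Cut.none) (xt := Ext.none) (P1 := 0) (W1 := 536870912) (P2 := 1610612736) (W2 := 536870912) (P3 := 67108864) (W3 := 67108864)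
    rfl rfl rfl k0_pp_033

noncomputable def f_pp_101 : ℕ → ℕ → ℕ → ℕ → Bool := onCell 536870912 536870912 0 536870912 67108864 67108864
    (rowFK 0 true true true .npn 1 0 1 (qsf 536870912 536870912 0 536870912 1) ndF0q1 ndF2q0 pcF1 Cut.none Ext.none)

def k0_pp_101 : ∃ t, chk3 f_pp_101 t 1 1 1 = true :=
  ⟨(l 5), by decide +kernel⟩

theorem c_pp_101 : CertF 536870912 536870912 0 536870912 67108864 67108864 true true true .npn 1 0 1
    ndF0q1 ndF2q0 pcF1 Cut.none Ext.none :=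
  certFK0 (fam := true) (s1 := true) (s2 := true) (a := 1) (b := 0) (c := 1) (cn := .npn) (n1 := ndF0q1) (n2 := ndF2q0) (pc := pcF1) (cut := Cut.none) (xt := Ext.none) (P1 := 536870912) (W1 := 536870912) (P2 := 0) (W2 := 536870912) (P3 := 67108864) (W3 := 67108864)
    rfl rfl rfl k0_pp_101

noncomputable def f_pp_102 : ℕ → ℕ → ℕ → ℕ → Bool := onCell 536870912 536870912 0 536870912 67108864 67108864
    (rowFK 0 true true true .npp 1 0 2 (qsf 536870912 536870912 0 536870912 2) ndF0q1 ndF2q0 pcF2 Cut.none Ext.none)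

def k0_pp_102 : ∃ t, chk3 f_pp_102 t 1 1 1 = true :=
  ⟨(l 5), by decide +kernel⟩

theorem c_pp_102 : CertF 536870912 536870912 0 536870912 67108864 67108864 true true true .npp 1 0 2
    ndF0q1 ndF2q0 pcF2 Cut.none Ext.none :=
  certFK0 (fam := true) (s1 := true) (s2 := true) (a := 1) (b := 0) (c := 2) (cn := .npp) (n1 := ndF0q1) (n2 := ndF2q0) (pc := pcF2) (cut := Cut.none) (xt := Ext.none) (P1 := 536870912) (W1 := 536870912) (P2 := 0) (W2 := 536870912) (P3 := 67108864) (W3 := 67108864)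
    rfl rfl rfl k0_pp_102

noncomputable def f_pp_112 : ℕ → ℕ → ℕ → ℕ → Bool := onCell 536870912 536870912 536870912 536870912 67108864 67108864
    (rowFK 0 true true true .dn 1 1 2 (qsf 536870912 536870912 536870912 536870912 2) ndF0q1 ndF2q1 pcF2 Cut.none Ext.none)

def k0_pp_112 : ∃ t, chk3 f_pp_112 t 1 1 1 = true :=
  ⟨(l 4), by decide +kernel⟩

theorem c_pp_112 : CertF 536870912 536870912 536870912 536870912 67108864 67108864 true true true .dn 1 1 2
    ndF0q1 ndF2q1 pcF2 Cut.none Ext.none :=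
  certFK0 (fam := true) (s1 := true) (s2 := true) (a := 1) (b := 1) (c := 2) (cn := .dn) (n1 := ndF0q1) (n2 := ndF2q1) (pc := pcF2) (cut := Cut.none) (xt := Ext.none) (P1 := 536870912) (W1 := 536870912) (P2 := 536870912) (W2 := 536870912) (P3 := 67108864) (W3 := 67108864)
    rfl rfl rfl k0_pp_112

noncomputable def f_pp_113 : ℕ → ℕ → ℕ → ℕ → Bool := onCell 536870912 536870912 536870912 536870912 67108864 67108864
    (rowFK 0 true true true .nn 1 1 3 (qsf 536870912 536870912 536870912 536870912 3) ndF0q1 ndF2q1 pcF3 Cut.none Ext.none)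

def k0_pp_113 : ∃ t, chk3 f_pp_113 t 1 1 1 = true :=
  ⟨(l 4), by decide +kernel⟩

theorem c_pp_113 : CertF 536870912 536870912 536870912 536870912 67108864 67108864 true true true .nn 1 1 3
    ndF0q1 ndF2q1 pcF3 Cut.none Ext.none :=
  certFK0 (fam := true) (s1 := true) (s2 := true) (a := 1) (b := 1) (c := 3) (cn := .nn) (n1 := ndF0q1) (n2 := ndF2q1) (pc := pcF3) (cut := Cut.none) (xt := Ext.none) (P1 := 536870912) (W1 := 536870912) (P2 := 536870912) (W2 := 536870912) (P3 := 67108864) (W3 := 67108864)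
    rfl rfl rfl k0_pp_113

noncomputable def f_pp_123_a : ℕ → ℕ → ℕ → ℕ → Bool := onCell 536870912 536870912 0 536870912 67108864 67108864
    (rowFK 0 true true true .npn 1 2 3 (qsf 536870912 536870912 0 536870912 3) ndF0q1 ndF2q2a pcF3 Cut.none Ext.none)

def k0_pp_123_a : ∃ t, chk3 f_pp_123_a t 1 1 1 = true :=
  ⟨(l 4), by decide +kernel⟩

theorem c_pp_123_a : CertF 536870912 536870912 0 536870912 67108864 67108864 true true true .npn 1 2 3
    ndF0q1 ndF2q2a pcF3 Cut.none Ext.none :=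
  certFK0 (fam := true) (s1 := true) (s2 := true) (a := 1) (b := 2) (c := 3) (cn := .npn) (n1 := ndF0q1) (n2 := ndF2q2a) (pc := pcF3) (cut := Cut.none) (xt := Ext.none) (P1 := 536870912) (W1 := 536870912) (P2 := 0) (W2 := 536870912) (P3 := 67108864) (W3 := 67108864)
    rfl rfl rfl k0_pp_123_a

noncomputable def f_pp_123_b : ℕ → ℕ → ℕ → ℕ → Bool := onCell 536870912 536870912 1239849684 370763052 67108864 67108864
    (rowFK 0 true true true .npn 1 2 3 (qsf 536870912 536870912 1239849684 370763052 3) ndF0q1 ndF2q2b pcF3 Cut.none Ext.none)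

def k0_pp_123_b : ∃ t, chk3 f_pp_123_b t 1 1 1 = true :=
  ⟨(l 4), by decide +kernel⟩

theorem c_pp_123_b : CertF 536870912 536870912 1239849684 370763052 67108864 67108864 true true true .npn 1 2 3
    ndF0q1 ndF2q2b pcF3 Cut.none Ext.none :=
  certFK0 (fam := true) (s1 := true) (s2 := true) (a := 1) (b := 2) (c := 3) (cn := .npn) (n1 := ndF0q1) (n2 := ndF2q2b) (pc := pcF3) (cut := Cut.none) (xt := Ext.none) (P1 := 536870912) (W1 := 536870912) (P2 := 1239849684) (W2 := 370763052) (P3 := 67108864) (W3 := 67108864)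
    rfl rfl rfl k0_pp_123_b

noncomputable def f_pp_133 : ℕ → ℕ → ℕ → ℕ → Bool := onCell 536870912 536870912 1610612736 536870912 67108864 67108864
    (rowFK 0 true true true .dn 1 3 3 (qsf 536870912 536870912 1610612736 536870912 3) ndF0q1 ndF2q3 pcF3 Cut.none Ext.none)

def k0_pp_133 : ∃ t, chk3 f_pp_133 t 1 1 1 = true :=
  ⟨(l 4), by decide +kernel⟩

theorem c_pp_133 : CertF 536870912 536870912 1610612736 536870912 67108864 67108864 true true true .dn 1 3 3
    ndF0q1 ndF2q3 pcF3 Cut.none Ext.none :=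
  certFK0 (fam := true) (s1 := true) (s2 := true) (a := 1) (b := 3) (c := 3) (cn := .dn) (n1 := ndF0q1) (n2 := ndF2q3) (pc := pcF3) (cut := Cut.none) (xt := Ext.none) (P1 := 536870912) (W1 := 536870912) (P2 := 1610612736) (W2 := 536870912) (P3 := 67108864) (W3 := 67108864)
    rfl rfl rfl k0_pp_133

noncomputable def f_pp_202 : ℕ → ℕ → ℕ → ℕ → Bool := onCell 0 536870912 0 536870912 67108864 67108864
    (rowFK 0 true true true .pp 2 0 2 (qsf 0 536870912 0 536870912 2) ndF0q2 ndF2q0 pcF2 Cut.none Ext.none)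

def k0_pp_202 : ∃ t, chk3 f_pp_202 t 1 1 1 = true :=
  ⟨(l 5), by decide +kernel⟩

theorem c_pp_202 : CertF 0 536870912 0 536870912 67108864 67108864 true true true .pp 2 0 2
    ndF0q2 ndF2q0 pcF2 Cut.none Ext.none :=
  certFK0 (fam := true) (s1 := true) (s2 := true) (a := 2) (b := 0) (c := 2) (cn := .pp) (n1 := ndF0q2) (n2 := ndF2q0) (pc := pcF2) (cut := Cut.none) (xt := Ext.none) (P1 := 0) (W1 := 536870912) (P2 := 0) (W2 := 536870912) (P3 := 67108864) (W3 := 67108864)
    rfl rfl rfl k0_pp_202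

noncomputable def f_pp_203 : ℕ → ℕ → ℕ → ℕ → Bool := onCell 0 536870912 0 536870912 67108864 67108864
    (rowFK 0 true true true .up 2 0 3 (qsf 0 536870912 0 536870912 3) ndF0q2 ndF2q0 pcF3 Cut.none Ext.none)

def k0_pp_203 : ∃ t, chk3 f_pp_203 t 1 1 1 = true :=
  ⟨(l 5), by decide +kernel⟩

theorem c_pp_203 : CertF 0 536870912 0 536870912 67108864 67108864 true true true .up 2 0 3
    ndF0q2 ndF2q0 pcF3 Cut.none Ext.none :=
  certFK0 (fam := true) (s1 := true) (s2 := true) (a := 2) (b := 0) (c := 3) (cn := .up) (n1 := ndF0q2) (n2 := ndF2q0) (pc := pcF3) (cut := Cut.none) (xt := Ext.none) (P1 := 0) (W1 := 536870912) (P2 := 0) (W2 := 536870912) (P3 := 67108864) (W3 := 67108864)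
    rfl rfl rfl k0_pp_203

noncomputable def f_pp_213 : ℕ → ℕ → ℕ → ℕ → Bool := onCell 0 536870912 536870912 536870912 67108864 67108864
    (rowFK 0 true true true .pnn 2 1 3 (qsf 0 536870912 536870912 536870912 3) ndF0q2 ndF2q1 pcF3 Cut.none Ext.none)

def k0_pp_213 : ∃ t, chk3 f_pp_213 t 1 1 1 = true :=
  ⟨(l 4), by decide +kernel⟩

theorem c_pp_213 : CertF 0 536870912 536870912 536870912 67108864 67108864 true true true .pnn 2 1 3
    ndF0q2 ndF2q1 pcF3 Cut.none Ext.none :=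
  certFK0 (fam := true) (s1 := true) (s2 := true) (a := 2) (b := 1) (c := 3) (cn := .pnn) (n1 := ndF0q2) (n2 := ndF2q1) (pc := pcF3) (cut := Cut.none) (xt := Ext.none) (P1 := 0) (W1 := 536870912) (P2 := 536870912) (W2 := 536870912) (P3 := 67108864) (W3 := 67108864)
    rfl rfl rfl k0_pp_213

noncomputable def f_pm_001 : ℕ → ℕ → ℕ → ℕ → Bool := onCell 0 536870912 0 536870912 67108864 67108864
    (rowFK 0 true true false .up 0 0 1 (qsf 0 536870912 0 536870912 1) ndF0q0 ndF2q0 pcF1 Cut.none Ext.none)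

def k0_pm_001 : ∃ t, chk3 f_pm_001 t 1 1 1 = true :=
  ⟨(a (l 3) (b (l 3) (a (l 3) (b (l 3) (b (l 3) (a (l 3) (a (l 3) (l 142977679751)))))))), by decide +kernel⟩

theorem c_pm_001 : CertF 0 536870912 0 536870912 67108864 67108864 true true false .up 0 0 1
    ndF0q0 ndF2q0 pcF1 Cut.none Ext.none :=
  certFK0 (fam := true) (s1 := true) (s2 := false) (a := 0) (b := 0) (c := 1) (cn := .up) (n1 := ndF0q0) (n2 := ndF2q0) (pc := pcF1) (cut := Cut.none) (xt := Ext.none) (P1 := 0) (W1 := 536870912) (P2 := 0) (W2 := 536870912) (P3 := 67108864) (W3 := 67108864)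
    rfl rfl rfl k0_pm_001

noncomputable def cut_pm_011 : Cut := Cut.of [[⟨0, 0, 0, 67108864⟩, ⟨1, 1, 0, 67108864⟩, ⟨2, 1, 0, 67108864⟩], [⟨0, 0, 1, 33554432⟩, ⟨1, 1, 2, 33554432⟩, ⟨2, 1, 0, 16777216⟩, ⟨0, 0, 0, 150994944⟩, ⟨0, 1, 0, 1023410176⟩, ⟨1, 0, 0, 1023410176⟩, ⟨1, 1, 0, 150994944⟩]]

noncomputable def f_pm_011 : ℕ → ℕ → ℕ → ℕ → Bool := onCell 536870912 536870912 536870912 536870912 67108864 67108864
    (rowFK 2 true true false .pnn 0 1 1 (qsf 0 536870912 536870912 536870912 1) ndF0q0 ndF2q1 pcF1 cut_pm_011 Ext.none)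

def k0_pm_011 : ∃ t, chk3 f_pm_011 t 2 1 1 = true :=
  ⟨(l 3), by decide +kernel⟩

def k1_pm_011 : ∃ t, chk3 f_pm_011 t 6 1 1 = true :=
  ⟨(l 3), by decide +kernel⟩

def k2_pm_011 : ∃ t, chk3 f_pm_011 t 14 1 1 = true :=
  ⟨(l 3), by decide +kernel⟩

def k3_pm_011 : ∃ t, chk3 f_pm_011 t 30 1 1 = true :=
  ⟨(l 3), by decide +kernel⟩

def k4_pm_011 : ∃ t, chk3 f_pm_011 t 31 2 1 = true :=
  ⟨(b (b (l 224046352999) (l 236931157927)) (b (l 248741982183) (l 253036363943))), by decide +kernel⟩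

def k5_pm_011 : ∃ t, chk3 f_pm_011 t 62 3 1 = true :=
  ⟨(l 3), by decide +kernel⟩

def k6_pm_011 : ∃ t, chk3 f_pm_011 t 126 3 1 = true :=
  ⟨(l 3), by decide +kernel⟩

def k7_pm_011 : ∃ t, chk3 f_pm_011 t 254 3 1 = true :=
  ⟨(b (l 3) (l 3)), by decide +kernel⟩

def k8_pm_011 : ∃ t, chk3 f_pm_011 t 255 6 1 = true :=
  ⟨(a (l 3) (b (l 228340094823) (b (b (l 17607000) (l 17509616)) (b (c (l 17609488) (c (l 17352048) (b (l 17238216) (l 21106086359)))) (c (l 17502832) (b (c (l 17214616) (b (l 16941248) (l 14))) (c (l 17072728) (l 14)))))))), by decide +kernel⟩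

def k9_pm_011 : ∃ t, chk3 f_pm_011 t 255 14 1 = true :=
  ⟨(a (l 3) (a (l 3) (a (l 3) (a (l 3) (b (c (b (c (l 17508576) (l 17127576)) (c (l 17217360) (b (c (l 17176096) (l 14)) (l 14)))) (b (c (b (c (l 17111896) (l 14)) (l 14)) (l 14)) (b (l 14) (c (l 14) (b (l 14) (c (l 14) (c (l 14) (b (l 14) (l 11442001447))))))))) (a (l 3) (a (l 3) (a (b (l 3) (l 3)) (b (b (c (c (c (l 17262648) (l 14)) (l 14)) (c (l 14) (b (c (l 14) (b (l 11442002151) (l 16747344))) (b (c (l 14) (l 16747728)) (b (l 9294522791) (l 9294523175)))))) (c (l 14) (c (b (l 14) (c (l 14) (c (l 14) (b (l 14) (l 10905139879))))) (b (b (b (l 16750328) (l 16750528)) (b (l 16749416) (l 16749624))) (c (b (l 11442008983) (l 16750848)) (b (l 16749368) (l 16749808))))))) (a (l 3) (b (c (l 14) (c (b (c (l 14) (b (c (l 14) (l 16752008)) (b (l 16752608) (l 16752816)))) (c (b (l 14) (b (l 14) (l 16754608))) (b (c (l 11442014199) (l 16752856)) (c (l 16753760) (l 16753296))))) (b (b (b (l 16750672) (l 16750896))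 (l 11978882327)) (b (l 16752976) (l 16752136))))) (c (c (l 14) (b (l 14) (b (l 14) (b (l 14) (c (l 14) (l 16757192)))))) (b (b (c (b (l 8220791943) (l 16755240)) (l 16752624)) (c (b (l 16756120) (l 16755040)) (l 16753120))) (b (c (b (l 16755272) (l 16755504)) (l 16753632)) (c (b (l 16755736) (l 16755976)) (l 16754152)))))))))))))))), by decide +kernel⟩

def k10_pm_011 : ∃ t, chk3 f_pm_011 t 255 15 1 = true :=
  ⟨(b (b (b (a (l 3) (a (l 3) (a (l 3) (b (b (b (a (l 3) (a (l 3) (c (c (l 14) (c (l 14) (l 7683926775))) (c (l 8757667031) (l 16754768))))) (l 6)) (l 6)) (l 6))))) (l 6)) (l 6)) (l 6)), by decide +kernel⟩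

theorem s11_pm_011 : ∃ t, chk3 f_pm_011 t 255 7 1 = true := ex3_b k9_pm_011 k10_pm_011

theorem s12_pm_011 : ∃ t, chk3 f_pm_011 t 255 3 1 = true := ex3_b k8_pm_011 s11_pm_011

theorem s13_pm_011 : ∃ t, chk3 f_pm_011 t 127 3 1 = true := ex3_a k7_pm_011 s12_pm_011

theorem s14_pm_011 : ∃ t, chk3 f_pm_011 t 63 3 1 = true := ex3_a k6_pm_011 s13_pm_011

theorem s15_pm_011 : ∃ t, chk3 f_pm_011 t 31 3 1 = true := ex3_a k5_pm_011 s14_pm_011

theorem s16_pm_011 : ∃ t, chk3 f_pm_011 t 31 1 1 = true := ex3_b k4_pm_011 s15_pm_011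

theorem s17_pm_011 : ∃ t, chk3 f_pm_011 t 15 1 1 = true := ex3_a k3_pm_011 s16_pm_011

theorem s18_pm_011 : ∃ t, chk3 f_pm_011 t 7 1 1 = true := ex3_a k2_pm_011 s17_pm_011

theorem s19_pm_011 : ∃ t, chk3 f_pm_011 t 3 1 1 = true := ex3_a k1_pm_011 s18_pm_011

theorem s20_pm_011 : ∃ t, chk3 f_pm_011 t 1 1 1 = true := ex3_a k0_pm_011 s19_pm_011

theorem c_pm_011 : CertF 0 536870912 536870912 536870912 67108864 67108864 true true false .pnn 0 1 1
    ndF0q0 ndF2q1 pcF1 cut_pm_011 Ext.none :=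
  certFK2 (fam := true) (s1 := true) (s2 := false) (a := 0) (b := 1) (c := 1) (cn := .pnn) (n1 := ndF0q0) (n2 := ndF2q1) (pc := pcF1) (cut := cut_pm_011) (xt := Ext.none) (P1 := 0) (W1 := 536870912) (P2 := 536870912) (W2 := 536870912) (P3 := 67108864) (W3 := 67108864)
    rfl rfl rfl (fun _ => rfl) s20_pm_011

noncomputable def cut_pm_012 : Cut := Cut.of [[⟨0, 0, 0, 67108864⟩, ⟨1, 1, 0, 67108864⟩, ⟨2, 1, 0, 67108864⟩], [⟨0, 0, 1, 33554432⟩, ⟨1, 1, 2, 33554432⟩, ⟨2, 1, 0, 16777216⟩, ⟨0, 0, 0, 150994944⟩, ⟨0, 1, 0, 1023410176⟩, ⟨1, 0, 0, 1023410176⟩, ⟨1, 1, 0, 150994944⟩]]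

noncomputable def f_pm_012 : ℕ → ℕ → ℕ → ℕ → Bool := onCell 1073741824 536870912 536870912 536870912 67108864 67108864
    (rowFK 2 true true false .pnp 0 1 2 (qsf 0 536870912 536870912 536870912 2) ndF0q0 ndF2q1 pcF2 cut_pm_012 Ext.none)

def k0_pm_012 : ∃ t, chk3 f_pm_012 t 2 2 1 = true :=
  ⟨(a (a (a (b (b (l 18361616) (l 18314960)) (b (l 18155096) (a (l 17906672) (l 17855792)))) (b (l 18351912) (b (l 18020296) (l 17888432)))) (b (l 18224792) (b (l 17831312) (l 17741888)))) (b (a (l 17794280) (l 2)) (b (a (l 17587520) (l 17327232)) (a (l 17582000) (l 17464040))))), by decide +kernel⟩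

def k1_pm_012 : ∃ t, chk3 f_pm_012 t 4 6 1 = true :=
  ⟨(a (a (b (b (l 17678440) (a (l 17572216) (l 17769912))) (b (a (c (l 17774520) (b (l 17591504) (a (l 17431992) (l 17533528)))) (l 17730296)) (a (b (c (a (l 17680440) (l 17786704)) (a (b (a (l 17322400) (l 17379616)) (a (c (l 17337480) (a (l 16985384) (l 17151416))) (l 17198800))) (b (l 17436152) (l 17265904)))) (c (a (c (l 17698976) (l 17300128)) (l 17709800)) (a (c (a (b (l 17249144) (a (l 17114528) (l 17182648))) (l 17095384)) (a (b (a (b (l 16956472) (l 14)) (l 16935304)) (l 14)) (b (l 16989856) (a (l 14) (l 16929160))))) (c (l 17197496) (b (l 17081480) (a (l 16965736) (l 17079288))))))) (c (b (l 17940456) (l 17893152)) (a (b (l 17438024) (b (l 17365376) (l 17183736))) (b (l 17566048) (l 17372880))))))) (b (a (b (l 17726480) (l 17842368)) (l 17857280)) (b (a (a (l 17886944) (l 17945824)) (l 18029832)) (b (a (a (l 17868608) (l 17955000)) (l 18077664)) (a (a (l 17636224) (l 17845976)) (l 17889400))))))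 (b (a (l 17925280) (l 18015712)) (a (b (l 18178144) (b (l 18293400) (l 18211632))) (b (l 18360936) (l 18577768))))), by decide +kernel⟩

def k2_pm_012 : ∃ t, chk3 f_pm_012 t 16 28 1 = true :=
  ⟨(a (a (c (b (c (l 17585800) (b (l 17214448) (a (a (l 17204664) (l 17258432)) (l 17308536)))) (c (b (l 17388704) (a (l 17147760) (l 17420896))) (b (a (c (l 17107704) (l 14)) (l 17082744)) (a (l 14) (c (l 17109480) (l 14)))))) (c (b (a (b (c (a (l 17126640) (l 17154696)) (l 14)) (l 14)) (b (l 17048936) (c (l 17077040) (l 14)))) (l 14)) (c (l 14) (c (l 14) (b (l 14) (b (l 14) (b (l 14) (a (a (a (a (b (l 14) (a (b (l 14) (l 16745880)) (l 16744760))) (l 16742976)) (l 16739960)) (l 16733912)) (l 16721768))))))))) (b (c (c (l 17733160) (l 17347112)) (c (b (l 17135760) (a (l 16962072) (l 17150192))) (a (l 14) (b (l 16933888) (l 16792368))))) (c (c (l 17487720) (b (l 17190616) (a (l 16913432) (l 17221736)))) (a (b (l 14) (c (l 14) (l 16715912))) (b (c (l 16907504) (l 16713720))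 (l 16699168)))))) (a (c (b (l 17730824) (c (l 17755336) (b (l 17462976) (l 17318920)))) (b (c (b (l 17339504) (l 17246152)) (b (l 16933496) (a (l 16893048) (l 16974712)))) (b (c (a (l 17080416) (l 17170696)) (a (l 16776496) (l 16841840))) (a (l 16748544) (l 16779536))))) (c (b (l 17864880) (l 17591832)) (b (b (l 17254656) (l 17012168)) (c (b (l 17275584) (l 17030504)) (b (l 16858944) (l 16731848))))))), by decide +kernel⟩

def k3_pm_012 : ∃ t, chk3 f_pm_012 t 32 58 1 = true :=
  ⟨(c (c (a (b (a (c (l 17245424) (l 14)) (l 17142048)) (a (l 14) (c (l 17190320) (l 14)))) (b (l 17257376) (c (l 17340656) (a (l 14) (l 17263528))))) (a (l 14) (a (l 14) (a (l 14) (b (l 17067688) (l 16801712)))))) (a (c (b (l 14) (b (l 14) (b (l 14) (b (l 14) (a (a (a (a (c (l 14) (c (l 14) (a (l 16752536) (l 16750224)))) (l 16749496)) (l 16746488)) (l 16740464)) (l 16738856)))))) (a (b (b (c (l 14) (a (a (a (b (a (a (b (l 16746616) (l 16746800)) (l 16746184)) (l 16745432)) (a (a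 (b (l 16746984) (l 16747176)) (l 16746552)) (l 16745800))) (b (l 16743928) (l 16744304))) (l 16740992)) (l 16734968))) (a (a (b (c (l 14) (a (a (b (l 16748424) (l 16747312)) (l 16746184)) (l 16744688))) (a (a (b (c (l 14) (l 16747504)) (c (c (l 14) (l 16748560)) (l 16747704))) (l 16747152)) (l 16745648))) (l 16746264)) (l 16741552))) (a (a (b (b (a (a (a (c (b (l 16749288) (l 16749480)) (l 16748232)) (l 16749600)) (l 16747544)) (l 16746048)) (a (a (a (c (b (l 16749672) (l 16749872)) (l 16748648)) (l 16751320)) (l 16747952)) (l 16746456))) (b (a (a (a (a (b (l 16749664) (l 16749880)) (l 16750792)) (l 16749112)) (l 16748368)) (l 16746880)) (a (a (a (b (l 16751280) (l 16751496)) (l 16749544)) (l 16748800)) (l 16747312)))) (b (c (l 16748904) (l 16742584)) (c (l 16749712) (l 16743456)))) (b (l 16742368) (l 16743232)))) (b (b (l 16733880) (l 16734704)) (b (l 16735568) (l 16736480))))) (b (a (c (l 14) (l 16717512)) (l 16701952)) (a (a (l 16724184) (l 16716032))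 (l 16703736))))), by decide +kernel⟩

def k4_pm_012 : ∃ t, chk3 f_pm_012 t 32 118 1 = true :=
  ⟨(a (c (l 14) (a (a (a (c (a (b (c (l 14) (a (b (a (b (l 16753240) (l 16752136)) (l 16751488)) (a (b (l 16752344) (l 16752552)) (l 16751904))) (b (l 16750744) (l 16751160)))) (c (b (l 14) (c (l 14) (a (c (l 14) (b (l 14) (l 16753744))) (l 16752712)))) (a (b (a (b (l 16752760) (l 16752976)) (l 16752328)) (b (c (l 16753184) (l 16752720)) (l 16754152))) (b (l 16751584) (l 16752024))))) (b (b (l 16749744) (l 16750152)) (b (l 16750568) (l 16750992)))) (b (a (a (a (b (b (l 16750408) (l 16750632)) (b (l 16750856) (l 16751088))) (b (l 16749984) (l 16750440))) (b (l 16749240) (l 16749696))) (b (l 16747760) (l 16748216))) (b (a (a (b (l 16752384) (l 16752624)) (l 16750160)) (l 16748688)) (a (a (b (l 16752864) (l 16754416)) (l 16750640)) (l 16749168))))) (b (b (l 16751008) (l 16751448)) (b (l 16751896) (l 16752352)))) (a (b (l 16747072) (l 16747960)) (b (l 16737832) (l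 16738744)))) (b (a (l 16737080) (l 16723800)) (a (l 16738008) (l 16724760))))) (a (c (l 14) (b (l 16722176) (l 16723184))) (a (b (l 16721928) (l 16722896)) (b (l 16713672) (l 16714672))))), by decide +kernel⟩

def k5_pm_012 : ∃ t, chk3 f_pm_012 t 32 119 1 = true :=
  ⟨(a (b (c (l 14) (b (a (a (c (a (a (a (c (a (c (l 14) (b (l 16754328) (l 16754544))) (l 16754760)) (b (l 16754712) (l 16754936))) (l 16754224)) (l 16751432)) (l 16748456)) (a (a (a (b (l 16754664) (l 16752288)) (l 16751128)) (l 16749656)) (l 16746712))) (l 16746888)) (l 16740208)) (a (a (a (a (a (b (c (c (c (l 14) (l 16755824)) (l 16753856)) (l 16752536)) (c (a (b (l 16756040) (l 16756152)) (l 16754280)) (l 16752792))) (c (l 16754672) (l 16751632))) (c (l 16751880) (l 16750160))) (l 16753312)) (l 16747384)) (l 16740728)))) (c (b (l 14) (c (l 14) (a (a (a (c (l 14) (a (a (b (l 14) (a (b (l 14) (l 16757000)) (l 16756432))) (l 16756824)) (l 16754024))) (l 16754064)) (l 16750704)) (l 16743928))))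 (b (a (a (a (a (a (b (c (a (b (l 16756272) (l 16756384)) (l 16754504)) (l 16753048)) (c (a (a (l 16756664) (l 16755112)) (l 16754744)) (l 16753312))) (c (l 16755136) (l 16752144))) (c (l 16752344) (l 16750680))) (l 16753800)) (l 16747888)) (l 16741256)) (a (a (a (b (a (a (c (a (a (l 16756904) (l 16755344)) (l 16754976)) (l 16753576)) (l 16756040)) (l 16751944)) (a (a (c (a (a (l 16757144) (l 16755584)) (l 16755216)) (l 16753840)) (l 16756296)) (l 16752200))) (l 16754312)) (l 16748408)) (l 16741800))))) (b (c (a (l 14) (l 16733208)) (a (l 16724240) (l 16697616))) (a (c (c (l 14) (l 16727256)) (l 16725328)) (a (l 16724936) (l 16716784))))), by decide +kernel⟩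

def k6_pm_012 : ∃ t, chk3 f_pm_012 t 33 29 1 = true :=
  ⟨(b (c (c (a (b (l 17627544) (l 17433048)) (l 17759144)) (a (a (b (l 17089624) (b (l 17039440) (l 16932400))) (b (l 17280200) (l 16944528))) (b (l 17408376) (a (l 17164608) (l 17321120))))) (a (a (b (l 16695768) (l 16687208)) (b (l 16692216) (l 16681016))) (b (a (l 16753184) (l 16794312)) (a (l 16664184) (l 16668736))))) (a (b (a (b (l 16722192) (l 16723248)) (a (l 16716208) (l 16715776))) (a (b (l 16724336) (l 16725464)) (b (l 16707752) (l 16708952)))) (b (c (c (l 17570048) (a (l 16804728) (l 17014200))) (a (l 16666528) (l 16649688))) (a (b (l 16670040) (l 16692280)) (b (l 16732864) (l 16675464)))))), by decide +kernel⟩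

def k7_pm_012 : ∃ t, chk3 f_pm_012 t 17 14 1 = true :=
  ⟨(b (b (a (c (a (l 17993320) (l 18113984)) (a (b (l 17435728) (l 17328176)) (l 17303872))) (a (l 17720504) (l 18040088))) (a (c (a (l 17886688) (l 18026152)) (b (a (l 17100416) (l 17193568)) (a (a (l 16983912) (l 17101064)) (a (l 17217520) (l 17311832))))) (c (l 18219760) (a (b (l 17514656) (l 17335352)) (l 17580296))))) (c (a (b (a (b (l 17773384) (l 17508032)) (c (l 18098232) (l 17561952))) (c (a (b (l 17793840) (l 17668360)) (l 17767880)) (a (a (b (l 17222272) (l 16847056)) (b (l 17365424) (l 17045800))) (b (l 17385952) (a (l 17262536) (l 17412904)))))) (a (b (l 18049976) (c (l 18122408) (b (l 17698248) (l 17568632)))) (b (l 18195744) (l 17826984)))) (a (a (b (b (c (l 17117112) (l 16784472)) (l 16682704)) (b (a (c (l 16784208) (l 16632456)) (l 16649648)) (a (l 16635400) (a (l 16622656) (l 16614112))))) (b (b (a (l 17022176) (l 17103224)) (a (l 16863048) (l 16890648))) (a (b (l 16753896) (l 16607664))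 (b (l 16772424) (l 16634792))))) (b (a (a (b (l 17224912) (l 17000536)) (b (l 17344808) (l 17129304))) (b (l 17458024) (l 17129408))) (a (b (a (l 16830840) (l 16928664)) (a (l 16728744) (l 16777568))) (c (b (l 17421360) (l 17101824)) (b (l 16865952) (l 16670880)))))))), by decide +kernel⟩

def k8_pm_012 : ∃ t, chk3 f_pm_012 t 16 60 1 = true :=
  ⟨(b (a (c (a (c (l 14) (b (b (a (a (a (c (l 14) (a (b (a (a (a (l 16757928) (l 16757024)) (l 16756656)) (l 16755912)) (l 6)) (l 16754472))) (l 16754504)) (l 16751152)) (l 16744400)) (a (a (a (l 6) (l 16754952)) (l 16751616)) (l 16744880))) (a (a (l 6) (a (l 6) (l 16749976))) (a (l 16744016) (l 16736032))))) (a (c (l 14) (b (l 16728232) (l 16729240))) (b (l 16712504) (l 16713536)))) (a (a (b (a (a (b (b (a (a (c (c (c (l 16756960) (l 16755904)) (l 16755304)) (l 16754104)) (l 16756552)) (l 16752456)) (a (l 6) (l 16752720))) (l 6)) (b (l 16754824) (l 16755352))) (b (l 16748936) (l 16749472))) (b (a (l 6) (l 16750024))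 (l 6))) (a (b (l 16741040) (l 16742120)) (b (l 16727888) (l 16739488)))) (a (b (l 16726456) (l 16727616)) (a (l 16713712) (l 16705680))))) (a (a (c (b (l 16727504) (l 16725984)) (l 16700128)) (b (l 16710184) (l 16711440))) (a (b (l 16693584) (l 16694920)) (a (b (l 16660064) (l 16661456)) (a (l 16701512) (l 16701232)))))) (a (a (a (l 6) (a (l 6) (b (c (l 16740184) (l 16735384)) (l 6)))) (b (a (c (c (l 14) (l 16730272)) (l 16728800)) (c (l 16714584) (l 16712912))) (b (a (c (l 16729392) (l 16730160)) (l 16715104)) (a (l 6) (l 16715824))))) (a (b (a (c (l 16698272) (l 16707376)) (c (l 16713264) (l 16691224))) (a (c (l 16699752) (l 16709024)) (a (l 16697464) (l 16689304)))) (a (a (b (l 16679424) (l 16681120)) (b (l 16671168) (a (l 16674952) (l 16670824)))) (a (b (l 16662864) (l 16664624)) (b (l 16654528) (l 16656328))))))), by decide +kernel⟩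

def k9_pm_012 : ∃ t, chk3 f_pm_012 t 17 60 1 = true :=
  ⟨(a (a (b (b (l 16690704) (c (c (l 17291752) (l 16716464)) (a (l 16640312) (l 16628112)))) (b (a (c (c (l 17178656) (a (l 16646200) (l 16658688))) (a (l 16646056) (l 16639392))) (l 16655144)) (a (c (l 16738632) (l 16646960)) (l 16660856)))) (b (c (c (l 17559368) (a (b (l 17158184) (l 17044920)) (b (l 17278256) (l 17174296)))) (a (l 16619672) (b (l 16609352) (l 16615040)))) (b (a (a (l 16629064) (l 16632480)) (l 16699416)) (a (l 16632952) (l 16647576))))) (c (c (a (b (l 17970520) (l 17705872)) (l 17892144)) (a (a (b (l 17243264) (b (l 17191440) (l 17006776))) (b (l 17463616) (b (l 17320392) (l 17209416)))) (b (l 17627936) (b (l 17503184) (l 17302016))))) (a (a (b (l 16628144) (b (l 16593200) (l 16598424))) (b (l 16624208) (b (l 16587328) (l 16592408)))) (b (a (l 16707576) (l 16765472)) (b (l 16619160) (l 16605744)))))), by decide +kernel⟩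

def k10_pm_012 : ∃ t, chk3 f_pm_012 t 8 61 1 = true :=
  ⟨(a (a (b (a (l 6) (a (l 6) (a (l 6) (b (l 16709968) (l 6))))) (l 6)) (b (a (a (b (b (l 16710960) (l 16711856)) (c (l 16700368) (l 16712568))) (b (a (l 16719888) (l 16690800)) (c (l 16697232) (l 16696616)))) (b (a (c (c (l 16699864) (l 16678664)) (l 16678328)) (a (l 16666224) (a (b (l 16659904) (l 16660912)) (l 16657560)))) (a (a (l 16684752) (l 16676600)) (a (a (l 16670456) (l 16666880)) (l 16664048))))) (a (a (l 6) (a (l 6) (c (l 16679984) (l 16684600)))) (a (b (a (l 16686368) (a (l 16680280) (l 16676832))) (a (l 6) (l 16684024))) (a (b (l 16673928) (l 16680080)) (b (l 16670080) (l 16676168))))))) (a (a (b (b (c (b (l 16696784) (l 16670632)) (l 16643936)) (a (a (l 16660296) (l 16656592)) (l 16651088))) (a (b (l 16664368) (l 16693960)) (b (l 16656888) (l 16662752)))) (b (a (b (l 16659656) (l 16643880)) (b (l 16674144) (l 16637256))) (a (b (l 16649552) (l 16655288)) (b (l 16642784) (l 16669360)))))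 (a (a (b (b (l 16646528) (l 16630472)) (a (l 16666192) (l 16657696))) (b (b (l 16678960) (l 16624360)) (a (l 16654416) (l 16651184)))) (b (c (c (l 17813232) (c (b (l 17462856) (l 17349304)) (b (l 17007312) (l 16873480)))) (b (l 16631736) (l 16615264))) (a (a (l 16627040) (l 16623920)) (l 16645096)))))), by decide +kernel⟩

def k11_pm_012 : ∃ t, chk3 f_pm_012 t 16 31 1 = true :=
  ⟨(a (l 6) (b (a (l 6) (b (a (l 6) (b (c (l 16668792) (l 16684080)) (l 6))) (l 6))) (l 6))), by decide +kernel⟩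

def k12_pm_012 : ∃ t, chk3 f_pm_012 t 34 31 1 = true :=
  ⟨(b (b (b (a (c (a (l 16676784) (l 16669192)) (l 16662920)) (a (l 16661088) (a (l 16634512) (l 16630920)))) (a (a (a (l 6) (l 16680560)) (a (l 16676632) (l 16651760))) (a (a (l 16647896) (l 16644072)) (c (l 16650200) (l 16658880))))) (a (a (l 6) (b (c (l 16665672) (l 16659080)) (l 6))) (a (c (b (l 16657960) (l 16666648)) (b (l 16651088) (l 16667472))) (c (b (l 16656072) (c (l 16662528) (l 16661472))) (b (l 16654112) (l 16659888)))))) (a (l 6) (b (a (l 6) (a (l 6) (b (c (l 16660152) (l 16652608)) (l 6)))) (l 6)))), by decide +kernel⟩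

def k13_pm_012 : ∃ t, chk3 f_pm_012 t 35 31 1 = true :=
  ⟨(b (b (b (a (a (l 16657344) (l 16640328)) (a (l 16633704) (l 16606344))) (a (a (l 16641976) (l 16656272)) (a (l 16639024) (l 16632496)))) (b (a (a (a (l 16659648) (l 16635184)) (l 16640832)) (a (a (l 16624776) (l 16621408)) (l 16637752))) (a (a (c (l 16654576) (l 16652152)) (c (l 16642560) (l 16634544))) (b (c (l 16641608) (l 16639568)) (a (l 16651256) (l 16644416)))))) (a (b (b (b (a (a (l 16648696) (l 16645088)) (l 16647928)) (c (a (l 16656088) (l 16643912)) (a (l 16658760) (l 16640992)))) (b (a (c (l 16658560) (l 16661184)) (c (l 16651560) (l 16643360))) (a (l 6) (c (l 16653976) (l 16656224))))) (b (b (b (a (l 6) (c (l 16655808) (l 16647536))) (l 6)) (l 6)) (l 6))) (b (b (c (a (l 16640944) (l 16634184)) (a (l 16642960) (l 16625360))) (b (c (a (l 16639216) (l 16632352)) (a (l 16635936) (l 16628720))) (c (a (l 16646816) (l 16634640)) (a (l 16638248) (l 16630976))))) (b (b (c (a (l 16649192) (l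 16642192)) (a (c (l 16641432) (l 16639736)) (l 16638488))) (c (a (a (l 16647768) (l 16644208)) (c (l 16645448) (l 16643584))) (a (a (l 16644472) (l 16640744)) (a (l 16637064) (l 16633432))))) (b (a (a (l 6) (a (l 6) (c (l 16645624) (l 16642080)))) (a (c (c (l 16643968) (l 16642144)) (c (l 16640304) (l 16638464))) (c (c (l 16640520) (l 16638608)) (c (l 16636688) (l 16634760))))) (a (l 6) (b (a (a (l 6) (c (l 16643880) (l 16640136))) (c (c (l 16642288) (l 16640360)) (c (l 16638424) (l 16636480)))) (a (l 6) (c (c (a (l 16644264) (l 16642536)) (a (l 16642344) (l 16640576))) (c (a (l 16640424) (l 16638608)) (l 16638288))))))))))), by decide +kernel⟩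

def k14_pm_012 : ∃ t, chk3 f_pm_012 t 9 14 1 = true :=
  ⟨(a (b (c (l 18520928) (a (b (l 17900624) (l 17681896)) (l 18059664))) (c (a (b (l 18393792) (l 18087512)) (l 18570432)) (a (a (b (b (l 17602872) (l 17499536)) (b (l 17186720) (a (l 17029488) (l 17169328)))) (b (l 17697488) (b (l 17543336) (l 17225624)))) (b (l 17895512) (b (l 17773456) (a (l 17589424) (l 17751368))))))) (b (l 18546768) (c (l 18918496) (b (l 18234784) (a (l 18010944) (l 18254168)))))), by decide +kernel⟩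

def k15_pm_012 : ∃ t, chk3 f_pm_012 t 9 30 1 = true :=
  ⟨(a (b (c (a (c (l 18408160) (b (l 17925920) (a (l 17689976) (l 17901616)))) (l 18227024)) (b (a (c (a (l 17138136) (l 17511216)) (a (l 16654456) (l 16878840))) (a (l 17225144) (l 17637792))) (a (a (b (l 16774384) (l 16712720)) (b (l 16929152) (l 16844144))) (c (a (l 17559680) (l 17755328)) (a (l 16774328) (l 17201544)))))) (b (c (a (c (l 18266680) (a (b (l 17559192) (l 17415768)) (l 17734000))) (l 18173312)) (a (a (b (l 16615680) (l 16582104)) (b (l 16747336) (l 16741728))) (c (a (b (l 17433128) (l 17336648)) (l 17610976)) (a (b (l 16860168) (l 16734640)) (b (l 17101880) (l 16995088)))))) (c (a (c (a (l 18006224) (l 18253576)) (a (c (l 17251520) (a (l 16954872) (l 17175288))) (l 17314840))) (c (l 18571136) (l 17686240))) (a (a (a (l 16591088) (l 16585184)) (l 16588040)) (a (l 16635504) (c (l 17367616) (l 16750360))))))) (c (b (l 18877544) (b (l 18831312) (l 18638192))) (b (a (b (l 17883224) (c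 (l 18016448) (l 17409600))) (l 17963952)) (b (a (c (l 17907320) (a (l 17026384) (l 17484608))) (l 17957672)) (a (c (l 17665856) (a (l 16992832) (l 17313824))) (l 17656104)))))), by decide +kernel⟩

def k16_pm_012 : ∃ t, chk3 f_pm_012 t 18 62 1 = true :=
  ⟨(b (a (a (a (a (l 16635400) (l 16632360)) (a (l 16637032) (l 16627936))) (c (c (l 18098088) (c (l 17266384) (b (l 17161728) (l 16865424)))) (l 16602368))) (c (c (l 18468136) (a (c (l 17807904) (l 17318656)) (l 17891096))) (a (l 16585944) (c (c (l 17356472) (l 16783360)) (l 16563648))))) (a (a (b (a (l 16631312) (l 16604128)) (a (a (l 16616872) (l 16613656)) (l 16627520))) (b (c (c (l 17947144) (c (l 17078184) (l 16652680))) (l 16593664)) (a (l 16624016) (l 16597144)))) (c (c (a (l 18192920) (l 18455096)) (a (c (b (l 17641728) (l 17510440)) (b (l 17139648) (a (l 16971848) (l 17178320)))) (c (l 17880568) (l 17266888)))) (a (b (l 16582040) (l 16586512)) (l 16583928))))), by decide +kernel⟩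

def k17_pm_012 : ∃ t, chk3 f_pm_012 t 36 63 1 = true :=
  ⟨(a (b (a (c (b (l 16622408) (l 16634680)) (b (l 16618464) (l 16633304))) (b (a (l 16625792) (l 16612128)) (c (l 16625616) (l 16626488)))) (b (b (c (a (l 16630168) (l 16623616)) (a (l 16626120) (l 16619208))) (a (c (l 16636360) (c (l 16629368) (l 16627312))) (c (l 16631048) (c (l 16622472) (l 16620248))))) (c (a (b (a (l 16638752) (l 16635368)) (b (a (l 16639176) (l 16634456)) (a (c (l 16642656) (c (l 16638520) (l 16637504))) (c (l 16636656) (l 16634544))))) (a (b (l 16629416) (b (l 16631104) (c (l 16633328) (l 16631128)))) (b (l 16626144) (b (l 16627800) (a (l 16629680) (l 16628032)))))) (a (b (a (l 16634736) (l 16628552)) (a (b (c (l 16634832) (l 16632800)) (c (c (l 16636488) (l 16635472)) (l 16633936))) (b (l 16632856) (c (l 16632424) (l 16630296))))) (a (b (l 16625048) (b (l 16626704) (c (l 16628920) (l 16626704)))) (b (l 16621592) (b (l 16623224) (a (l 16627752) (l 16623400))))))))) (b (a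 (b (l 16615544) (a (l 16618392) (l 16615256))) (b (l 16606880) (a (l 16612176) (l 16609152)))) (b (b (a (c (l 16623736) (l 16612504)) (a (l 16609976) (l 16606896))) (a (c (l 16619408) (l 16614592)) (a (a (l 16615392) (l 16613824)) (l 16612848)))) (b (a (a (c (l 16622928) (l 16618184)) (c (l 16619760) (l 16614832))) (b (a (a (l 16616952) (l 16615368)) (a (l 16613800) (l 16612240))) (c (l 16616712) (l 16610592)))) (a (a (b (c (l 16624552) (l 16619792)) (a (c (l 16626408) (l 16621672)) (c (l 16624792) (l 16619968)))) (c (b (l 16621368) (a (l 16623184) (l 16621600))) (c (l 16619496) (l 16615696)))) (a (b (c (l 16618232) (l 16613088)) (c (l 16619288) (l 16616752))) (a (c (l 16616392) (l 16613728)) (c (l 16613816) (l 16609480))))))))), by decide +kernel⟩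

def k18_pm_012 : ∃ t, chk3 f_pm_012 t 37 63 1 = true :=
  ⟨(a (b (a (b (l 16601064) (a (l 16606184) (l 16598032))) (b (c (c (l 18115576) (c (l 17451160) (l 16924352))) (l 16587264)) (l 16599152))) (b (a (b (l 16607784) (a (l 16608480) (l 16605472))) (b (l 16601952) (a (l 16602528) (l 16597016)))) (c (c (c (a (l 17731472) (l 17965800)) (a (c (b (l 17375656) (l 17161944)) (b (l 16947720) (a (l 16696720) (l 16956376)))) (c (l 17555728) (b (l 17333656) (l 17145064))))) (a (b (l 16607896) (a (l 16611256) (l 16608232))) (b (l 16600008) (a (l 16605264) (l 16602352))))) (a (b (l 16606296) (a (a (l 16607864) (l 16606264)) (l 16605896))) (b (l 16597488) (a (l 16603432) (l 16597744))))))) (c (c (b (l 18290048) (c (l 18309888) (b (l 17888544) (a (l 17637040) (l 17835728))))) (b (c (b (l 17707872) (l 17507480)) (b (l 17058160) (a (l 16856416) (l 17177520)))) (c (b (a (l 17121744) (l 17508280)) (b (a (c (l 17294720) (l 16975280)) (l 17381344)) (a (c (l 17151976) (a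 (l 16761192) (l 16967272))) (l 17120776)))) (b (a (l 16593024) (c (l 17136888) (l 16735512))) (b (a (l 16632448) (c (l 16970856) (l 16725176))) (a (l 16597416) (l 16591120))))))) (b (b (l 16579488) (l 16593400)) (a (b (l 16588784) (b (l 16591520) (a (l 16594728) (l 16591776)))) (b (l 16583152) (b (l 16585776) (a (l 16588872) (l 16586024)))))))), by decide +kernel⟩

def k19_pm_012 : ∃ t, chk3 f_pm_012 t 19 31 1 = true :=
  ⟨(b (c (a (c (l 18825624) (b (l 18231384) (l 17857488))) (l 18854336)) (a (c (b (a (l 17351992) (l 17719096)) (a (c (l 17299024) (b (l 17133688) (l 16909592))) (l 17297328))) (b (a (l 16684136) (l 16938896)) (a (l 16561736) (b (l 16878856) (l 16737440))))) (c (b (l 18033048) (l 17723752)) (b (a (l 17353112) (l 17574064)) (a (c (l 17299056) (l 16812368)) (l 17311168)))))) (c (a (c (b (l 18679024) (a (l 18388880) (l 18664192))) (b (a (c (l 17955600) (b (l 17616944) (l 17464536))) (l 18038488)) (a (c (b (l 17775928) (l 17402432)) (b (a (l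 17115280) (l 17425688)) (a (c (l 16947992) (b (l 16988992) (l 16719600))) (b (l 17306232) (l 17114664))))) (c (l 18032448) (b (l 17677120) (l 17352288)))))) (c (l 19044592) (b (l 18396696) (a (l 18114808) (l 18367496))))) (a (b (a (b (l 16577280) (l 16572320)) (c (c (b (l 17535672) (l 17410136)) (b (l 17128024) (l 16772160))) (b (l 16621440) (l 16560544)))) (a (b (c (l 16585720) (l 16584104)) (a (a (l 16583032) (l 16579656)) (a (l 16577000) (l 16574400)))) (b (l 16570840) (a (a (l 16571864) (l 16569384)) (l 16565840))))) (c (b (a (c (l 17756640) (l 17236520)) (l 17837720)) (a (c (b (l 17589600) (l 17334168)) (b (l 17019440) (a (b (l 17007728) (l 16818320)) (l 17039152)))) (c (l 17817872) (b (l 17511416) (l 17325096))))) (b (a (b (l 16779568) (l 16632512)) (c (l 17256704) (b (l 17072744) (l 16900304)))) (a (b (l 16552200) (a (l 16558912) (l 16554416))) (c (b (l 17049472) (a (l 16759128) (l 17051744))) (b (l 16650456) (l 16551936))))))))), by decide +kernel⟩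

def k20_pm_012 : ∃ t, chk3 f_pm_012 t 5 3 1 = true :=
  ⟨(b (b (a (l 18072264) (l 18055824)) (a (b (l 18528056) (l 18837680)) (l 18798696))) (b (a (b (l 18951944) (a (c (l 19218144) (l 18578792)) (l 19117224))) (l 19269728)) (b (a (a (c (b (l 19254472) (l 19272832)) (b (l 18447552) (b (l 18418200) (l 18104360)))) (b (l 19155848) (l 19180496))) (l 19482400)) (a (a (c (a (b (l 19135968) (l 19051456)) (l 19347392)) (a (b (c (l 18334000) (b (l 17864520) (l 17643696))) (c (b (l 18167560) (a (l 17899400) (l 18131256))) (b (a (l 17229288) (l 17673248)) (b (a (c (l 17441080) (l 17063704)) (l 17535376)) (a (c (l 17302568) (a (l 16807560) (l 17048304))) (l 17263072)))))) (b (l 18388464) (c (l 18483072) (b (l 17984392) (a (l 17729952) (l 17950784))))))) (c (l 19609720) (b (l 18757304) (l 18504600)))) (l 19555600))))), by decide +kernel⟩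

def k21_pm_012 : ∃ t, chk3 f_pm_012 t 3 1 1 = true :=
  ⟨(b (a (b (l 2) (b (l 2) (l 17326536))) (l 2)) (b (a (b (l 18001736) (l 18821592)) (b (l 2) (l 18741624))) (b (a (l 19356760) (l 19266040)) (b (a (l 19612448) (l 19509360)) (a (l 19776392) (l 19664280)))))), by decide +kernel⟩

theorem s22_pm_012 : ∃ t, chk3 f_pm_012 t 18 63 1 = true := ex3_a k17_pm_012 k18_pm_012

theorem s23_pm_012 : ∃ t, chk3 f_pm_012 t 18 31 1 = true := ex3_b k16_pm_012 s22_pm_012

theorem s24_pm_012 : ∃ t, chk3 f_pm_012 t 9 31 1 = true := ex3_a s23_pm_012 k19_pm_012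

theorem s25_pm_012 : ∃ t, chk3 f_pm_012 t 9 15 1 = true := ex3_b k15_pm_012 s24_pm_012

theorem s26_pm_012 : ∃ t, chk3 f_pm_012 t 9 7 1 = true := ex3_b k14_pm_012 s25_pm_012

theorem s27_pm_012 : ∃ t, chk3 f_pm_012 t 17 31 1 = true := ex3_a k12_pm_012 k13_pm_012

theorem s28_pm_012 : ∃ t, chk3 f_pm_012 t 8 31 1 = true := ex3_a k11_pm_012 s27_pm_012

theorem s29_pm_012 : ∃ t, chk3 f_pm_012 t 8 60 1 = true := ex3_a k8_pm_012 k9_pm_012

theorem s30_pm_012 : ∃ t, chk3 f_pm_012 t 8 30 1 = true := ex3_b s29_pm_012 k10_pm_012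

theorem s31_pm_012 : ∃ t, chk3 f_pm_012 t 8 15 1 = true := ex3_b s30_pm_012 s28_pm_012

theorem s32_pm_012 : ∃ t, chk3 f_pm_012 t 32 59 1 = true := ex3_b k4_pm_012 k5_pm_012

theorem s33_pm_012 : ∃ t, chk3 f_pm_012 t 32 29 1 = true := ex3_b k3_pm_012 s32_pm_012

theorem s34_pm_012 : ∃ t, chk3 f_pm_012 t 16 29 1 = true := ex3_a s33_pm_012 k6_pm_012

theorem s35_pm_012 : ∃ t, chk3 f_pm_012 t 16 14 1 = true := ex3_b k2_pm_012 s34_pm_012

theorem s36_pm_012 : ∃ t, chk3 f_pm_012 t 8 14 1 = true := ex3_a s35_pm_012 k7_pm_012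

theorem s37_pm_012 : ∃ t, chk3 f_pm_012 t 8 7 1 = true := ex3_b s36_pm_012 s31_pm_012

theorem s38_pm_012 : ∃ t, chk3 f_pm_012 t 4 7 1 = true := ex3_a s37_pm_012 s26_pm_012

theorem s39_pm_012 : ∃ t, chk3 f_pm_012 t 4 3 1 = true := ex3_b k1_pm_012 s38_pm_012

theorem s40_pm_012 : ∃ t, chk3 f_pm_012 t 2 3 1 = true := ex3_a s39_pm_012 k20_pm_012

theorem s41_pm_012 : ∃ t, chk3 f_pm_012 t 2 1 1 = true := ex3_b k0_pm_012 s40_pm_012

theorem s42_pm_012 : ∃ t, chk3 f_pm_012 t 1 1 1 = true := ex3_a s41_pm_012 k21_pm_012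

theorem c_pm_012 : CertF 0 536870912 536870912 536870912 67108864 67108864 true true false .pnp 0 1 2
    ndF0q0 ndF2q1 pcF2 cut_pm_012 Ext.none :=
  certFK2 (fam := true) (s1 := true) (s2 := false) (a := 0) (b := 1) (c := 2) (cn := .pnp) (n1 := ndF0q0) (n2 := ndF2q1) (pc := pcF2) (cut := cut_pm_012) (xt := Ext.none) (P1 := 0) (W1 := 536870912) (P2 := 536870912) (W2 := 536870912) (P3 := 67108864) (W3 := 67108864)
    rfl rfl rfl (fun _ => rfl) s42_pm_012

end Pool.Agent.Strip051.G.I1_16_1_8.Tab.C.FA02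

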