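import Pool.Agent.Strip051.G.I1_16_1_8.Tab
import Pool.Agent.Strip051.PB.RowK

/-! # Certificates F1 (generated) -/

set_option linter.all false
set_option maxRecDepth 100000

namespace Pool.Agent.Strip051.G.I1_16_1_8.Tab.C.FA02

open Pool.Agent.Strip051.PB Pool.Agent.Strip051.PB.T
open Pool.Agent.Strip051.G.I1_16_1_8.Tab

noncomputable def cut_pm_022_a : Cut := Cut.of [[⟨0, 0, 0, 67108864⟩, ⟨1, 1, 0, 67108864⟩, ⟨2, 1, 0, 67108864⟩], [⟨0, 0, 1, 33554432⟩, ⟨1, 1, 0, 16777216⟩, ⟨2, 1, 1, 33554432⟩, ⟨0, 0, 0, 150994944⟩, ⟨0, 1, 0, 1023410176⟩, ⟨2, 1, 0, 150994944⟩, ⟨2, 2, 0, 1023410176⟩]]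

noncomputable def f_pm_022_a : ℕ → ℕ → ℕ → ℕ → Bool := onCell 0 536870912 0 536870912 67108864 67108864
    (rowFK 0 true true false .pp 0 2 2 (qsf 0 536870912 0 536870912 2) ndF0q0 ndF2q2a pcF2 cut_pm_022_a Ext.none)

def k0_pm_022_a : ∃ t, chk3 f_pm_022_a t 2 2 1 = true :=
  ⟨(a (a (b (a (c (l 18544432) (a (b (l 17821120) (l 17705312)) (l 17919648))) (l 18311040)) (a (b (c (a (l 18401688) (l 18468512)) (a (b (a (l 17348944) (l 17687080)) (c (l 17736360) (a (b (l 17255872) (a (l 17164360) (l 17242912))) (l 17382816)))) (l 17707680))) (c (a (b (l 18272096) (c (l 18382640) (l 17888416))) (l 18322432)) (a (b (c (a (l 17479256) (l 17663184)) (b (a (a (l 17039280) (l 17163728)) (l 17278296)) (a (a (l 16838608) (l 17074792)) (l 17153920)))) (c (a (c (l 17484376) (b (l 17290216) (l 17055184))) (l 17462176)) (a (a (b (a (l 16722960) (l 16837200)) (l 16579328)) (b (l 16909696) (l 16749968))) (b (l 16935152) (l 16830288))))) (b (l 17536464) (a (b (l 17416840) (l 17162432))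 (l 17533120)))))) (c (l 18462064) (b (l 17946408) (a (l 17685624) (l 17849672)))))) (b (l 18351864) (b (l 18311296) (l 18238488)))) (a (l 18552616) (l 18244800))), by decide +kernel⟩

def k1_pm_022_a : ∃ t, chk3 f_pm_022_a t 16 12 1 = true :=
  ⟨(a (c (c (b (l 18232968) (a (l 17904168) (l 18081112))) (b (a (b (l 17710744) (l 17592936)) (l 17783496)) (a (b (a (l 17240160) (l 17498256)) (c (l 17191848) (a (b (l 17107328) (l 16820632)) (l 17131544)))) (b (l 17615544) (l 17373976))))) (b (b (c (a (c (l 17316960) (a (l 16813888) (l 17103024))) (l 17354984)) (a (a (l 16588464) (l 16655760)) (l 16646728))) (a (a (b (c (c (l 17167888) (l 16826712)) (l 16590120)) (l 16590520)) (c (a (l 16944184) (l 17078352)) (l 16587672))) (c (l 17046432) (l 16591296)))) (a (b (a (b (l 16596608) (l 16604952)) (l 16599112)) (a (a (b (l 16603944) (l 16607432)) (a (l 16609624) (l 16608496))) (b (l 16598536) (l 16601936)))) (b (c (a (l 16877952) (l 17122112)) (l 16597992)) (a (l 16606736)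 (l 16637536)))))) (c (b (l 18145552) (a (l 17760264) (l 18017536))) (b (a (c (l 17337552) (b (l 17013840) (l 16873768))) (b (l 17365744) (l 17120800))) (c (a (b (l 17271456) (l 16945048)) (l 17168200)) (a (b (l 16736424) (l 16640352)) (b (l 16982864) (l 16846968))))))), by decide +kernel⟩

def k2_pm_022_a : ∃ t, chk3 f_pm_022_a t 16 26 1 = true :=
  ⟨(c (a (c (a (b (l 17490856) (c (l 17725648) (a (b (l 17376592) (l 17133944)) (l 17436280)))) (b (l 17893288) (l 17716056))) (a (a (b (c (b (l 17250632) (l 16976120)) (b (a (l 16720368) (l 16914832)) (l 16622064))) (a (b (c (l 16738560) (l 16623760)) (l 16629880)) (c (b (l 17018952) (l 16766768)) (b (l 16674240) (l 16622144))))) (b (c (l 17292688) (b (l 17031160) (l 16820200))) (c (b (l 17158576) (l 16874320)) (b (l 16682864) (l 16628272))))) (b (c (l 17461568) (a (l 17014248) (l 17224560))) (c (a (l 17097416) (l 17330128)) (a (b (l 16964824) (l 16807584)) (l 16865464)))))) (a (c (l 17945448) (b (l 17491304) (a (l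 17200288) (l 17375232)))) (b (l 17864696) (l 17614592)))) (b (a (a (a (a (b (l 16613744) (c (l 16620792) (l 16619752))) (b (l 16608816) (l 16612680))) (b (l 16605544) (l 16609360))) (b (l 16609568) (l 16613296))) (a (l 16604184) (c (l 17117896) (l 16689992)))) (a (b (a (a (a (b (l 16617880) (l 16619984)) (l 16616768)) (l 16618640)) (l 16617256)) (a (a (a (b (l 16622144) (l 16626992)) (l 16626320)) (l 16622912)) (l 16621448))) (a (l 16615728) (l 16649328))))), by decide +kernel⟩

def k3_pm_022_a : ∃ t, chk3 f_pm_022_a t 16 27 1 = true :=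
  ⟨(a (a (a (b (c (c (c (b (l 17507856) (l 17295440)) (a (b (b (l 17127248) (l 16951920)) (c (l 16855056) (b (l 16799232) (l 16676280)))) (b (l 17123936) (l 16773904)))) (b (a (a (l 16632416) (l 16628544)) (l 16632024)) (a (b (l 16632472) (l 16637504)) (l 16636712)))) (a (b (b (a (l 16627184) (l 16625960)) (a (l 16629528) (l 16628296))) (b (b (l 16630680) (l 16634520)) (a (c (l 16634744) (l 16634048)) (l 16633136)))) (b (l 16630872) (a (l 16636184) (l 16634928))))) (b (b (a (a (c (l 16640840) (c (l 16637248) (l 16637912))) (c (l 16637480) (l 16635656))) (b (l 16635040) (l 16636608))) (a (a (c (l 16642704) (b (l 16638768) (l 16640080))) (c (l 16639432) (l 16638240))) (c (l 16637576) (l 16639032)))) (b (a (a (b (c (l 16642560) (l 16641400)) (c (l 16643864) (l 16643072))) (c (l 16642008) (l 16643512))) (c (l 16640144) (l 16644296))) (a (a (b (c (l 16645192) (c (l 16644376) (l 16643832))) (c (l 16646528) (c (l 16645744) (l 16645216)))) (c (l 16644656) (c (l 16643872)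 (l 16643344)))) (c (l 16645400) (l 16647000)))))) (b (b (b (l 16626696) (l 16628952)) (a (a (l 16634336) (l 16633072)) (l 16631280))) (a (b (b (l 16637144) (l 16637032)) (b (l 16639608) (l 16642256))) (b (l 16636176) (l 16642664))))) (b (a (b (l 16623144) (l 16630360)) (a (l 16627608) (l 16624904))) (a (b (l 16636528) (a (l 16638704) (l 16641304))) (b (l 16632608) (a (l 16649144) (l 16646496)))))) (a (b (c (c (l 17721232) (a (c (l 17234440) (l 16747296)) (l 17025896))) (a (l 16620960) (l 16626352))) (a (b (l 16637864) (l 16642800)) (l 16631848))) (b (c (c (l 17854208) (l 17166472)) (a (l 16621248) (l 16615608))) (c (c (l 17696440) (a (l 16861632) (l 17110856))) (l 16628880))))), by decide +kernel⟩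

def k4_pm_022_a : ∃ t, chk3 f_pm_022_a t 17 6 1 = true :=
  ⟨(b (c (a (b (l 18251360) (l 18119608)) (l 18264296)) (a (b (a (l 17393632) (l 17575920)) (a (b (l 17272160) (l 17056144)) (a (l 17268568) (l 17429216)))) (b (l 17693200) (l 17548584)))) (b (a (a (c (l 17902976) (b (l 16929776) (l 16783888))) (c (l 17982280) (b (l 17135712) (l 16988392)))) (c (l 18073824) (c (l 17435728) (b (l 17239936) (l 16897648))))) (c (a (c (l 17856008) (b (l 17490168) (a (l 17244024) (l 17474048)))) (b (l 17943640) (l 17839264))) (a (b (a (l 16698544) (l 16822080)) (a (l 16618112) (l 16716824))) (a (b (l 17039096) (l 16852032)) (b (l 17209832) (l 17061912))))))), by decide +kernel⟩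

def k5_pm_022_a : ∃ t, chk3 f_pm_022_a t 9 6 1 = true :=
  ⟨(b (a (a (l 17905688) (l 18092384)) (l 18150760)) (b (a (a (l 17620208) (l 17943344)) (l 18034960)) (a (c (l 18055568) (a (b (l 17387064) (a (l 17226976) (l 17351568))) (l 17520096))) (l 17928376)))), by decide +kernel⟩

def k6_pm_022_a : ∃ t, chk3 f_pm_022_a t 128 28 1 = true :=
  ⟨(b (b (b (a (a (b (c (l 16647888) (c (l 16647128) (l 16646616))) (c (l 16650576) (c (l 16648536) (l 16648040)))) (c (l 16649992) (c (l 16646640) (l 16648768)))) (c (l 16648104) (l 16647160))) (a (a (b (c (l 16651968) (c (l 16649952) (l 16649472))) (c (c (l 16652296) (l 16651848)) (c (l 16651392) (l 16651256)))) (c (l 16652784) (b (l 16648400) (l 16649840)))) (c (l 16650880) (c (l 16652848) (l 16652400))))) (b (a (c (a (b (c (l 16653712) (l 16653280)) (c (l 16655152) (l 16654744))) (l 16655640)) (a (b (c (l 16652848) (c (l 16652512) (l 16652288))) (a (b (l 16653992) (l 16654744)) (l 16653736))) (b (l 16651296) (l 16652776))))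 (c (l 16653736) (c (l 16655752) (l 16654024)))) (a (a (c (b (c (l 16656616) (l 16657528)) (c (l 16658088) (l 16659016))) (b (a (c (l 16656112) (l 16655696)) (l 16655232)) (a (c (l 16657616) (l 16657224)) (l 16656752)))) (b (c (l 16655048) (l 16654264)) (c (l 16656528) (l 16655776)))) (a (c (l 16657208) (l 16656456)) (b (l 16654576) (l 16656064)))))) (b (b (b (a (a (a (c (c (l 16659888) (l 16659520)) (c (l 16659144) (l 16658928))) (c (l 16659016) (l 16658280))) (c (l 16658024) (l 16659928))) (c (l 16658688) (l 16658008))) (a (a (a (l 6) (c (l 16660536) (c (l 16660016) (l 16659656)))) (c (l 16659544) (l 16660168))) (c (l 16660200) (l 16659552)))) (b (a (a (l 6) (c (l 16662392) (l 16661736))) (c (l 16661728) (l 16661112))) (a (l 6) (c (l 16663280) (l 16662696))))) (b (b (a (l 6) (c (l 16664856) (l 16664296))) (l 6)) (l 6)))), by decide +kernel⟩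

def k7_pm_022_a : ∃ t, chk3 f_pm_022_a t 129 28 1 = true :=
  ⟨(b (b (b (c (l 16647016) (l 16646120)) (a (l 16649728) (l 16647704))) (b (a (a (l 16651184) (l 16652456)) (l 16650544)) (a (a (l 16654112) (l 16655376)) (l 16653456)))) (b (a (b (c (l 16659504) (l 16658880)) (c (l 16662568) (l 16662000))) (b (l 16656440) (l 16659504))) (a (b (c (l 16665704) (l 16665200)) (c (l 16668928) (l 16668488))) (b (l 16662648) (c (l 16671304) (l 16665688)))))), by decide +kernel⟩

def k8_pm_022_a : ∃ t, chk3 f_pm_022_a t 65 28 1 = true :=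
  ⟨(a (b (b (c (l 16646408) (l 16648016)) (a (l 16652456) (l 16649712))) (b (b (c (l 16658136) (l 16657640)) (c (l 16661160) (l 16655480))) (a (b (l 16665088) (l 16668288)) (c (l 16662176) (l 16661840))))) (b (b (a (l 16654456) (l 16651760)) (a (l 16649584) (l 16657328))) (b (c (l 16654768) (l 16654368)) (c (l 16662328) (l 16662048))))), by decide +kernel⟩

def k9_pm_022_a : ∃ t, chk3 f_pm_022_a t 33 28 1 = true :=
  ⟨(b (a (b (a (l 16648024) (l 16642576)) (a (a (l 16654576) (l 16651824)) (l 16648000))) (b (l 16648888) (a (l 16642448) (l 16628728)))) (a (a (b (l 16648920) (l 16656424)) (b (l 16653744) (b (l 16657512) (l 16660568)))) (b (c (c (a (l 17222224) (l 17390264)) (l 16657016)) (l 16646128)) (a (b (l 16651800) (c (l 16758784) (l 16655632))) (b (l 16648552) (l 16653776)))))), by decide +kernel⟩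

def k10_pm_022_a : ∃ t, chk3 f_pm_022_a t 16 29 1 = true :=
  ⟨(a (b (a (b (b (a (l 6) (a (l 6) (c (l 16674584) (l 16669024)))) (l 6)) (l 6)) (b (b (a (a (l 16666328) (l 16668712)) (c (l 16675360) (l 16664752))) (a (c (l 16671472) (l 16671272)) (c (l 16678672) (l 16668112)))) (a (a (l 6) (b (l 16675480) (l 6))) (b (c (l 16671584) (l 16671568)) (a (l 16676056) (l 16683600)))))) (a (l 6) (b (a (l 6) (b (a (l 6) (b (l 16686408) (l 6))) (l 6))) (l 6)))) (b (a (b (a (b (l 16669512) (l 16672792)) (b (a (l 16664832) (l 16662688)) (a (l 16668880) (l 16667904)))) (a (b (a (l 16677208) (l 16675064)) (b (l 16679400) (l 16682000))) (b (l 16673248) (l 16678456)))) (a (b (b (l 16660928) (l 16666152)) (b (l 16671384) (l 16676624))) (b (l 16660832) (l 16671192)))) (b (a (b (a (a (l 16686448) (l 16685504)) (l 16683688)) (a (l 16676880) (l 16688872))) (b (c (l 16670952) (l 16674368)) (c (l 16674824) (l 16674264)))) (a (a (l 6) (b (l 16693976) (l 16688616))) (a (b (l 16692264)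 (l 16697424)) (a (l 16693536) (l 16692704))))))), by decide +kernel⟩

def k11_pm_022_a : ∃ t, chk3 f_pm_022_a t 17 14 1 = true :=
  ⟨(a (b (b (c (c (l 17539832) (a (b (l 17168648) (l 16982024)) (l 17250536))) (a (b (l 16623984) (l 16629192)) (l 16626000))) (a (b (l 16658000) (b (l 16645016) (l 16650256))) (c (c (l 17623496) (b (l 17175040) (l 17009480))) (b (l 16632568) (l 16642968))))) (b (b (a (a (l 16659008) (l 16657200)) (l 16678632)) (a (b (l 16666032) (l 16671312)) (l 16674800))) (b (a (c (b (l 16718408) (l 16680368)) (l 16675104)) (b (l 16673400) (l 16678736))) (a (c (l 16683992) (l 16683104)) (a (l 16687832) (l 16686304)))))) (b (b (c (l 17508608) (a (l 16726552) (l 16853864))) (c (c (l 17791960) (a (l 17207920) (l 17427040))) (a (l 16637368) (l 16708008)))) (b (c (c (a (l 17576648) (l 17692608)) (a (b (l 17153144) (l 16987592)) (l 17012080))) (b (l 16646432) (a (l 16660552) (l 16657352)))) (b (a (l 16691616) (c (c (l 17570104) (l 17083096)) (l 16668360)))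 (a (l 16683176) (l 16731552)))))), by decide +kernel⟩

def k12_pm_022_a : ∃ t, chk3 f_pm_022_a t 16 15 1 = true :=
  ⟨(b (a (l 6) (b (a (l 6) (a (b (c (l 16699440) (l 16696160)) (l 6)) (b (b (l 16700992) (l 16706240)) (b (l 16711504) (l 16706304))))) (l 6))) (l 6)), by decide +kernel⟩

def k13_pm_022_a : ∃ t, chk3 f_pm_022_a t 17 15 1 = true :=
  ⟨(b (a (a (a (b (a (b (l 16702368) (l 16712928)) (b (l 16701584) (l 16712192))) (b (b (l 16720656) (l 6)) (l 6))) (b (b (l 16699904) (l 16710480)) (b (c (l 16711288) (l 16709960)) (b (l 16719584) (l 6))))) (a (b (b (l 16698432) (l 16709104)) (b (l 16709352) (c (l 16720920) (l 16719328)))) (b (b (l 16696984) (l 16707736)) (b (l 16718568) (l 16721584))))) (b (b (a (l 16693840) (l 16677904)) (a (l 16699328) (l 16702208))) (b (a (c (l 16711048) (l 16709168)) (l 16707944)) (a (b (l 16713928) (l 16722048)) (a (l 16726008) (l 16724896)))))) (a (b (a (l 6) (b (b (a (l 16729240) (l 16728032)) (a (l 6) (l 16733592))) (l 6))) (l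 6)) (b (a (b (a (c (l 16732472) (l 16727792)) (c (l 16728904) (l 16726648))) (a (b (l 16732816) (l 16742376)) (b (l 16736976) (l 16740024)))) (b (a (l 16726736) (l 16725720)) (a (b (l 16735912) (l 16736384)) (a (l 16737888) (l 16737392))))) (b (a (a (l 6) (b (c (l 16746944) (l 16747096)) (l 6))) (a (b (c (l 16743456) (l 16746016)) (b (l 16746776) (c (l 16751048) (l 16748296)))) (b (l 16744440) (a (l 16748968) (l 16747176))))) (a (l 6) (b (b (a (a (l 6) (l 16752752)) (a (l 16752264) (l 16751784))) (a (l 6) (a (c (l 16754072) (l 16748464)) (c (l 16751032) (l 16747936))))) (a (l 6) (c (c (l 14) (c (l 14) (b (a (l 16755896) (l 16755448)) (a (l 6) (b (l 16757760) (a (l 6) (c (l 14) (b (l 16756064) (l 16757464))))))))) (a (b (c (l 16754768) (l 16750632)) (l 6)) (a (b (l 16756368) (b (l 16756016) (l 6))) (b (l 16750864) (b (l 16755760) (b (l 16756888) (a (l 6) (c (l 16755768) (l 16754160)))))))))))))))), by decide +kernel⟩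

def k14_pm_022_a : ∃ t, chk3 f_pm_022_a t 9 14 1 = true :=
  ⟨(b (a (c (a (b (l 17874760) (l 17764984)) (l 17933560)) (a (a (b (l 16973808) (l 16807560)) (b (l 17196840) (l 16901376))) (b (l 17381792) (a (l 17120056) (l 17320464))))) (c (l 18044216) (b (l 17583728) (l 17460656)))) (a (c (a (b (c (l 17824992) (l 17241520)) (c (l 17686472) (b (l 17255256) (l 17047000)))) (b (l 17789344) (b (l 17705560) (l 17643656)))) (b (a (b (l 16743520) (l 16681656)) (c (b (l 17344280) (l 17282888)) (b (l 16965968) (l 16794840)))) (a (b (l 16661392) (l 16666616)) (b (a (l 16948888) (l 17071928)) (l 16793624))))) (c (b (l 17933696) (a (l 17797992) (l 17886640))) (b (a (l 17255904) (l 17476096)) (a (b (l 17114632) (a (l 17157208) (l 17249728))) (l 17364528)))))), by decide +kernel⟩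

def k15_pm_022_a : ∃ t, chk3 f_pm_022_a t 9 30 1 = true :=
  ⟨(b (a (c (a (c (a (l 17446280) (l 17580192)) (a (b (l 17070864) (l 16905936)) (l 16983912))) (a (l 17348512) (l 17584768))) (a (a (l 16692016) (l 16689760)) (b (l 16716856) (l 16688096)))) (c (a (l 17691528) (l 17796560)) (a (a (l 16870448) (b (l 17193520) (l 17070912))) (a (l 17187288) (l 17324056))))) (a (a (b (a (l 16700584) (c (c (l 17451736) (l 16970784)) (l 16686568))) (a (a (l 16723816) (l 16722760)) (l 16710120))) (c (c (l 17396472) (a (b (l 17196688) (l 17024672)) (l 17169976))) (a (b (l 16684464) (l 16695960)) (l 16706760)))) (c (a (c (l 17716352) (l 17316160)) (l 17694008)) (a (a (a (l 16757768) (l 16780776)) (c (l 17157424) (l 16695112))) (a (b (l 17084136) (l 16940976)) (a (l 17077304) (l 17241488))))))), by decide +kernel⟩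

def k16_pm_022_a : ∃ t, chk3 f_pm_022_a t 9 62 1 = true :=
  ⟨(a (a (b (b (a (l 16715744) (l 16729624)) (a (l 16726696) (l 16719696))) (a (a (a (l 16736912) (l 16736432)) (a (l 16735960) (l 16735504))) (c (l 14) (a (l 16732744) (l 16731816))))) (a (a (b (l 16723936) (l 16732816)) (b (c (c (l 17414928) (l 17010712)) (l 16707800)) (l 16730456))) (c (c (l 17365760) (b (l 17069336) (l 14))) (b (l 16705880) (l 16728168))))) (c (a (c (l 17580056) (a (b (l 17267784) (l 17106192)) (l 17286728))) (a (l 17546808) (l 17609648))) (a (a (b (l 16738608) (l 16726240)) (b (a (l 16839712) (l 16879424)) (l 14))) (c (a (b (l 17178888) (l 17093056)) (b (l 17265760) (l 17207144))) (b (a (l 16891504) (l 16912296)) (l 14)))))), by decide +kernel⟩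

def k17_pm_022_a : ∃ t, chk3 f_pm_022_a t 9 63 2 = true :=
  ⟨(a (c (a (l 14) (b (a (c (l 17244592) (l 14)) (l 17192712)) (a (l 14) (c (b (l 17334768) (l 17286904)) (l 14))))) (c (l 14) (a (a (a (a (a (a (b (l 16749384) (b (l 16748144) (b (l 16752720) (b (l 16754992) (b (l 16756120) (l 16758176)))))) (l 14)) (l 14)) (l 14)) (l 14)) (l 14)) (l 14)))) (b (a (c (l 17425272) (a (c (l 17166352) (l 14)) (l 17136368))) (l 17295896)) (a (c (a (b (l 17359760) (l 17295584)) (l 17432064)) (a (l 14) (c (b (l 17235688) (l 17196840)) (l 14)))) (c (l 17545856) (a (b (l 17262560) (l 17164216)) (l 17330448)))))), by decide +kernel⟩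

def k18_pm_022_a : ∃ t, chk3 f_pm_022_a t 36 126 3 = true :=
  ⟨(a (a (b (l 16733448) (l 16744496)) (b (l 16732456) (l 16743536))) (a (b (l 16731496) (l 16742616)) (a (l 16742832) (l 16743704)))), by decide +kernel⟩

def k19_pm_022_a : ∃ t, chk3 f_pm_022_a t 72 127 3 = true :=
  ⟨(a (b (a (c (l 16751792) (l 16750200)) (l 16751488)) (a (a (b (l 16750608) (b (l 16755504) (b (l 16756632) (c (a (l 16755648) (l 16756840)) (l 16753936))))) (b (l 16750360) (b (l 16755248) (b (l 16756384) (c (a (l 16756720) (l 16756600)) (l 16753672)))))) (a (b (l 16750104) (b (l 16755000) (b (l 16755472) (c (c (l 16756496) (l 16754672)) (l 16753408))))) (b (l 16749856) (b (l 16754752) (c (b (l 16754112) (a (l 16756248) (l 16756136))) (l 16755384))))))) (b (a (l 16750016) (l 16749544)) (a (a (b (l 16749608) (b (l 16754504) (c (b (l 16753880) (c (c (l 16755280) (l 16754848)) (l 16754192))) (l 16755128)))) (b (l 16749368) (b (l 16754264) (c (b (l 16753656) (b (l 16754224) (a (l 16754672)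 (l 16755864)))) (l 16753560))))) (a (b (l 16749128) (b (l 16754024) (c (b (l 16753432) (b (l 16754000) (a (l 16755752) (l 16755648)))) (l 16753968)))) (b (l 16748888) (b (l 16753792) (b (c (l 16753208) (l 16751400)) (c (c (c (l 14) (l 16754184)) (l 16753504)) (l 16752144))))))))), by decide +kernel⟩

def k20_pm_022_a : ∃ t, chk3 f_pm_022_a t 73 127 3 = true :=
  ⟨(b (b (a (l 16742016) (l 16741128)) (a (l 16750224) (l 16749352))) (b (a (a (l 16752384) (l 16751928)) (a (l 16750176) (l 16749744))) (a (c (a (b (l 16751672) (a (b (l 16752992) (c (c (l 14) (l 16753968)) (l 16753280))) (b (l 16752776) (c (l 14) (l 16753056))))) (b (l 16751248) (c (l 14) (b (l 16751920) (a (l 16752840) (l 16752624)))))) (b (a (l 16749832) (l 16749352)) (a (b (l 16750976) (a (l 16751896) (l 16751656))) (b (l 16750496) (a (l 16751416) (l 16751184)))))) (c (c (l 14) (b (a (l 16750344) (l 16749936)) (b (a (l 16751496) (l 16751088)) (a (a (l 16752408) (l 16753512)) (a (l 16752976) (a (l 16751856)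 (l 16751752))))))) (b (a (l 16748888) (l 16748432)) (b (a (l 16750032) (l 16749576)) (a (a (l 16750952) (l 16750720)) (a (l 16751800) (l 16751576))))))))), by decide +kernel⟩

def k21_pm_022_a : ∃ t, chk3 f_pm_022_a t 37 63 3 = true :=
  ⟨(a (a (b (a (l 16743272) (l 16742856)) (b (a (l 16747320) (l 16746904)) (b (a (l 16749328) (l 16751544)) (c (a (a (c (l 14) (b (l 16749688) (c (l 14) (b (l 16750576) (l 16751328))))) (l 14)) (l 14)) (b (a (l 16747984) (l 16747552)) (b (a (l 16749136) (l 16748704)) (a (a (l 16751360) (c (l 16750352) (l 16749304))) (b (l 16750592) (a (l 16751120) (l 16750904)))))))))) (c (l 14) (b (b (l 16727808) (l 16733768)) (b (l 16745000) (b (a (l 16744832) (l 16744416)) (b (a (l 16747136) (l 16746728)) (b (a (l 16748288) (l 16747888)) (b (a (l 16750176) (l 16749768)) (c (a (a (l 16749928) (l 16749728)) (a (l 16749536) (l 16749344))) (a (l 16748696) (l 16748280))))))))))) (c (l 14) (b (b (l 16725984) (l 16739824)) (b (a (l 16744216) (l 16743472))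 (b (a (c (l 16749464) (l 16743080)) (l 16746856)) (b (a (a (l 16746336) (l 16745952)) (a (l 16745584) (l 16745224))) (c (a (a (a (c (l 14) (l 16749592)) (l 14)) (l 14)) (l 14)) (a (a (a (l 16747424) (l 16749848)) (a (l 16748336) (l 16748144))) (b (a (l 16746144) (l 16745776)) (a (a (l 16747032) (l 16746848)) (a (l 16746664) (l 16746480)))))))))))), by decide +kernel⟩

def k22_pm_022_a : ∃ t, chk3 f_pm_022_a t 19 63 3 = true :=
  ⟨(c (a (l 14) (b (a (c (l 17113800) (l 14)) (l 17082880)) (a (l 14) (c (b (l 17160864) (l 17128784)) (l 14))))) (a (a (a (a (a (b (l 16728736) (b (l 16738032) (b (l 16742680) (c (l 14) (b (l 16744376) (c (l 14) (l 16745600))))))) (l 14)) (l 14)) (l 14)) (l 14)) (l 14))), by decide +kernel⟩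

def k23_pm_022_a : ∃ t, chk3 f_pm_022_a t 5 3 1 = true :=
  ⟨(b (a (b (l 18201088) (a (l 18061128) (l 18105648))) (l 18147904)) (b (a (b (a (l 17923624) (l 18001200)) (a (b (l 17835280) (l 17681616)) (l 17902520))) (b (l 18061704) (l 17993304))) (a (a (c (b (l 17865392) (b (a (l 17686288) (l 17768304)) (b (a (l 17605928) (l 17696536)) (a (a (l 17519816) (l 17575912)) (a (b (l 17637152) (l 17610720)) (l 17666864)))))) (b (a (b (l 17418240) (l 17326408)) (l 17479736)) (b (a (a (b (l 17199112) (a (l 17002768) (l 17146184))) (l 17221272)) (l 17331408)) (b (a (a (c (l 17230888) (b (l 16865840) (l 14))) (a (l 16964536) (l 17208472))) (l 17180528)) (a (a (c (a (l 17025832) (l 17193536)) (l 14)) (c (b (l 17263520) (l 17216192)) (b (a (l 16963048) (l 17065824)) (a (l 14) (a (a (l 14) (l 16995616)) (l 16947368)))))) (b (c (l 17353440) (l 17149856)) (b (c (l 17336000) (l 17112688)) (b (c (l 17327272) (l 17104656)) (a (a (l 17069656) (l 17142904)) (a (l 17130848) (c (l 17362240)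 (b (l 17167760) (a (l 17115896) (c (l 17221344) (a (c (l 17144736) (l 17096048)) (l 17127720)))))))))))))))) (b (l 17787256) (c (l 17822352) (b (l 17494904) (a (a (b (l 17366064) (c (l 17418968) (l 17185768))) (l 17267456)) (l 17354032)))))) (b (l 17914736) (c (l 17958008) (b (l 17687008) (a (l 17505248) (l 17678832)))))))), by decide +kernel⟩

def k24_pm_022_a : ∃ t, chk3 f_pm_022_a t 3 1 1 = true :=
  ⟨(b (a (l 18105088) (l 17833920)) (b (a (l 18185824) (l 17872216)) (a (a (b (l 18040880) (b (l 17995056) (l 17719336))) (b (l 18016160) (l 17990400))) (b (l 18090528) (a (l 17963120) (l 17893848)))))), by decide +kernel⟩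

theorem s25_pm_022_a : ∃ t, chk3 f_pm_022_a t 36 127 3 = true := ex3_a k19_pm_022_a k20_pm_022_a

theorem s26_pm_022_a : ∃ t, chk3 f_pm_022_a t 36 63 3 = true := ex3_b k18_pm_022_a s25_pm_022_a

theorem s27_pm_022_a : ∃ t, chk3 f_pm_022_a t 18 63 3 = true := ex3_a s26_pm_022_a k21_pm_022_a

theorem s28_pm_022_a : ∃ t, chk3 f_pm_022_a t 9 63 3 = true := ex3_a s27_pm_022_a k22_pm_022_a

theorem s29_pm_022_a : ∃ t, chk3 f_pm_022_a t 9 63 1 = true := ex3_c k17_pm_022_a s28_pm_022_a

theorem s30_pm_022_a : ∃ t, chk3 f_pm_022_a t 9 31 1 = true := ex3_b k16_pm_022_a s29_pm_022_a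

theorem s31_pm_022_a : ∃ t, chk3 f_pm_022_a t 9 15 1 = true := ex3_b k15_pm_022_a s30_pm_022_a

theorem s32_pm_022_a : ∃ t, chk3 f_pm_022_a t 9 7 1 = true := ex3_b k14_pm_022_a s31_pm_022_a

theorem s33_pm_022_a : ∃ t, chk3 f_pm_022_a t 8 15 1 = true := ex3_a k12_pm_022_a k13_pm_022_a

theorem s34_pm_022_a : ∃ t, chk3 f_pm_022_a t 64 28 1 = true := ex3_a k6_pm_022_a k7_pm_022_a

theorem s35_pm_022_a : ∃ t, chk3 f_pm_022_a t 32 28 1 = true := ex3_a s34_pm_022_a k8_pm_022_a

theorem s36_pm_022_a : ∃ t, chk3 f_pm_022_a t 16 28 1 = true := ex3_a s35_pm_022_a k9_pm_022_a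

theorem s37_pm_022_a : ∃ t, chk3 f_pm_022_a t 16 14 1 = true := ex3_b s36_pm_022_a k10_pm_022_a

theorem s38_pm_022_a : ∃ t, chk3 f_pm_022_a t 8 14 1 = true := ex3_a s37_pm_022_a k11_pm_022_a

theorem s39_pm_022_a : ∃ t, chk3 f_pm_022_a t 8 7 1 = true := ex3_b s38_pm_022_a s33_pm_022_a

theorem s40_pm_022_a : ∃ t, chk3 f_pm_022_a t 4 7 1 = true := ex3_a s39_pm_022_a s32_pm_022_a

theorem s41_pm_022_a : ∃ t, chk3 f_pm_022_a t 16 13 1 = true := ex3_b k2_pm_022_a k3_pm_022_a

theorem s42_pm_022_a : ∃ t, chk3 f_pm_022_a t 16 6 1 = true := ex3_b k1_pm_022_a s41_pm_022_a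

theorem s43_pm_022_a : ∃ t, chk3 f_pm_022_a t 8 6 1 = true := ex3_a s42_pm_022_a k4_pm_022_a

theorem s44_pm_022_a : ∃ t, chk3 f_pm_022_a t 4 6 1 = true := ex3_a s43_pm_022_a k5_pm_022_a

theorem s45_pm_022_a : ∃ t, chk3 f_pm_022_a t 4 3 1 = true := ex3_b s44_pm_022_a s40_pm_022_a

theorem s46_pm_022_a : ∃ t, chk3 f_pm_022_a t 2 3 1 = true := ex3_a s45_pm_022_a k23_pm_022_a

theorem s47_pm_022_a : ∃ t, chk3 f_pm_022_a t 2 1 1 = true := ex3_b k0_pm_022_a s46_pm_022_a

theorem s48_pm_022_a : ∃ t, chk3 f_pm_022_a t 1 1 1 = true := ex3_a s47_pm_022_a k24_pm_022_a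

theorem c_pm_022_a : CertF 0 536870912 0 536870912 67108864 67108864 true true false .pp 0 2 2
    ndF0q0 ndF2q2a pcF2 cut_pm_022_a Ext.none :=
  certFK0 (fam := true) (s1 := true) (s2 := false) (a := 0) (b := 2) (c := 2) (cn := .pp) (n1 := ndF0q0) (n2 := ndF2q2a) (pc := pcF2) (cut := cut_pm_022_a) (xt := Ext.none) (P1 := 0) (W1 := 536870912) (P2 := 0) (W2 := 536870912) (P3 := 67108864) (W3 := 67108864)
    rfl rfl rfl s48_pm_022_a

noncomputable def cut_pm_022_b : Cut := Cut.of [[⟨0, 0, 0, 67108864⟩, ⟨1, 1, 0, 67108864⟩, ⟨2, 1, 0, 67108864⟩], [⟨0, 0, 1, 33554432⟩, ⟨1, 1, 0, 16777216⟩, ⟨2, 1, 1, 33554432⟩, ⟨0, 0, 0, 150994944⟩, ⟨0, 1, 0, 1023410176⟩, ⟨2, 1, 0, 150994944⟩, ⟨2, 2, 0, 1023410176⟩]]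

noncomputable def f_pm_022_b : ℕ → ℕ → ℕ → ℕ → Bool := onCell 0 536870912 1239849684 370763052 67108864 67108864
    (rowFK 0 true true false .pp 0 2 2 (qsf 0 536870912 1239849684 370763052 2) ndF0q0 ndF2q2b pcF2 cut_pm_022_b Ext.none)

def k0_pm_022_b : ∃ t, chk3 f_pm_022_b t 1 1 1 = true :=
  ⟨(a (b (a (b (a (b (a (a (b (l 18124800) (l 18487064)) (l 18434320)) (l 18443784)) (l 18591728)) (l 18446856)) (a (l 18634784) (l 18446136))) (b (l 18277168) (l 18185008))) (a (b (l 18462728) (l 18390376)) (b (l 18073968) (l 2)))) (b (a (b (l 18003224) (l 17826456)) (l 2)) (l 2))), by decide +kernel⟩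

theorem c_pm_022_b : CertF 0 536870912 1239849684 370763052 67108864 67108864 true true false .pp 0 2 2
    ndF0q0 ndF2q2b pcF2 cut_pm_022_b Ext.none :=
  certFK0 (fam := true) (s1 := true) (s2 := false) (a := 0) (b := 2) (c := 2) (cn := .pp) (n1 := ndF0q0) (n2 := ndF2q2b) (pc := pcF2) (cut := cut_pm_022_b) (xt := Ext.none) (P1 := 0) (W1 := 536870912) (P2 := 1239849684) (W2 := 370763052) (P3 := 67108864) (W3 := 67108864)
    rfl rfl rfl k0_pm_022_b

noncomputable def f_pm_023_a : ℕ → ℕ → ℕ → ℕ → Bool := onCell 1610612736 536870912 0 536870912 67108864 67108864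
    (rowFK 2 true true false .up 0 2 3 (qsf 0 536870912 0 536870912 3) ndF0q0 ndF2q2a pcF3 Cut.none Ext.none)

def k0_pm_023_a : ∃ t, chk3 f_pm_023_a t 1 1 1 = true :=
  ⟨(a (b (a (a (l 17671232) (l 17542528)) (a (l 17464128) (l 2))) (b (a (a (l 17542896) (l 17357840)) (l 2)) (a (b (a (l 17728128) (l 17547704)) (a (l 17945712) (l 2))) (l 2)))) (l 2)), by decide +kernel⟩

theorem c_pm_023_a : CertF 0 536870912 0 536870912 67108864 67108864 true true false .up 0 2 3
    ndF0q0 ndF2q2a pcF3 Cut.none Ext.none :=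
  certFK2 (fam := true) (s1 := true) (s2 := false) (a := 0) (b := 2) (c := 3) (cn := .up) (n1 := ndF0q0) (n2 := ndF2q2a) (pc := pcF3) (cut := Cut.none) (xt := Ext.none) (P1 := 0) (W1 := 536870912) (P2 := 0) (W2 := 536870912) (P3 := 67108864) (W3 := 67108864)
    rfl rfl rfl (fun _ => rfl) k0_pm_023_a

noncomputable def f_pm_023_b : ℕ → ℕ → ℕ → ℕ → Bool := onCell 1610612736 536870912 1239849684 370763052 67108864 67108864
    (rowFK 2 true true false .up 0 2 3 (qsf 0 536870912 1239849684 370763052 3) ndF0q0 ndF2q2b pcF3 Cut.none Ext.none)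

def k0_pm_023_b : ∃ t, chk3 f_pm_023_b t 1 1 1 = true :=
  ⟨(b (b (a (a (a (l 17832656) (l 17674072)) (a (l 17562784) (l 17479648))) (l 2)) (a (a (a (l 18020408) (l 17826560)) (l 17659040)) (a (a (l 17436896) (l 17252528)) (l 2)))) (a (a (b (l 18045608) (l 18061936)) (a (l 17827440) (l 17634408))) (a (a (l 17467048) (l 17281096)) (a (l 17138544) (a (l 16955136) (l 4)))))), by decide +kernel⟩

theorem c_pm_023_b : CertF 0 536870912 1239849684 370763052 67108864 67108864 true true false .up 0 2 3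
    ndF0q0 ndF2q2b pcF3 Cut.none Ext.none :=
  certFK2 (fam := true) (s1 := true) (s2 := false) (a := 0) (b := 2) (c := 3) (cn := .up) (n1 := ndF0q0) (n2 := ndF2q2b) (pc := pcF3) (cut := Cut.none) (xt := Ext.none) (P1 := 0) (W1 := 536870912) (P2 := 1239849684) (W2 := 370763052) (P3 := 67108864) (W3 := 67108864)
    rfl rfl rfl (fun _ => rfl) k0_pm_023_b

noncomputable def f_pm_033 : ℕ → ℕ → ℕ → ℕ → Bool := onCell 1610612736 536870912 1610612736 536870912 67108864 67108864
    (rowFK 2 true true false .pnn 0 3 3 (qsf 0 536870912 1610612736 536870912 3) ndF0q0 ndF2q3 pcF3 Cut.none Ext.none)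

def k0_pm_033 : ∃ t, chk3 f_pm_033 t 1 1 1 = true :=
  ⟨(a (b (a (b (a (b (l 19271584) (l 18894824)) (l 19084056)) (a (l 1) (l 18457432))) (b (a (l 18978392) (l 19003544)) (l 18710744))) (a (l 1) (b (l 18675752) (l 1)))) (a (b (b (a (l 18961832) (l 18850032)) (a (l 18723392) (l 18599072))) (b (a (l 18484944) (l 18200512)) (l 66071926695))) (b (a (b (l 18678864) (l 4)) (l 4)) (l 4)))), by decide +kernel⟩

theorem c_pm_033 : CertF 0 536870912 1610612736 536870912 67108864 67108864 true true false .pnn 0 3 3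
    ndF0q0 ndF2q3 pcF3 Cut.none Ext.none :=
  certFK2 (fam := true) (s1 := true) (s2 := false) (a := 0) (b := 3) (c := 3) (cn := .pnn) (n1 := ndF0q0) (n2 := ndF2q3) (pc := pcF3) (cut := Cut.none) (xt := Ext.none) (P1 := 0) (W1 := 536870912) (P2 := 1610612736) (W2 := 536870912) (P3 := 67108864) (W3 := 67108864)
    rfl rfl rfl (fun _ => rfl) k0_pm_033

noncomputable def cut_pm_101 : Cut := Cut.of [[⟨0, 1, 0, 67108864⟩, ⟨1, 0, 0, 67108864⟩, ⟨2, 1, 0, 67108864⟩]]

noncomputable def f_pm_101 : ℕ → ℕ → ℕ → ℕ → Bool := onCell 536870912 536870912 0 536870912 67108864 67108864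
    (rowFK 2 true true false .npn 1 0 1 (qsf 536870912 536870912 0 536870912 1) ndF0q1 ndF2q0 pcF1 cut_pm_101 Ext.none)

def k0_pm_101 : ∃ t, chk3 f_pm_101 t 1 1 1 = true :=
  ⟨(a (l 3) (a (l 3) (b (a (l 3) (a (l 3) (b (a (l 3) (a (l 3) (b (b (l 6) (l 16965968)) (l 17127944)))) (b (l 117206885159) (l 120428644807))))) (a (l 3) (a (l 3) (a (l 3) (b (b (l 17989176) (l 18119768)) (l 118819389207)))))))), by decide +kernel⟩

theorem c_pm_101 : CertF 536870912 536870912 0 536870912 67108864 67108864 true true false .npn 1 0 1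
    ndF0q1 ndF2q0 pcF1 cut_pm_101 Ext.none :=
  certFK2 (fam := true) (s1 := true) (s2 := false) (a := 1) (b := 0) (c := 1) (cn := .npn) (n1 := ndF0q1) (n2 := ndF2q0) (pc := pcF1) (cut := cut_pm_101) (xt := Ext.none) (P1 := 536870912) (W1 := 536870912) (P2 := 0) (W2 := 536870912) (P3 := 67108864) (W3 := 67108864)
    rfl rfl rfl (fun _ => rfl) k0_pm_101

noncomputable def cut_pm_102 : Cut := Cut.of [[⟨0, 1, 0, 67108864⟩, ⟨1, 0, 0, 67108864⟩, ⟨2, 1, 0, 67108864⟩]]

noncomputable def f_pm_102 : ℕ → ℕ → ℕ → ℕ → Bool := onCell 536870912 536870912 1073741824 536870912 67108864 67108864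
    (rowFK 1 true true false .npp 1 0 2 (qsf 536870912 536870912 0 536870912 2) ndF0q1 ndF2q0 pcF2 cut_pm_102 Ext.none)

def k0_pm_102 : ∃ t, chk3 f_pm_102 t 1 1 1 = true :=
  ⟨(a (b (b (b (b (a (a (l 18304592) (l 18298080)) (a (l 18224992) (l 18092960))) (a (l 18619976) (b (l 18244960) (l 18303552)))) (a (l 18455552) (l 18506216))) (a (l 18729024) (l 18679536))) (b (a (l 2) (l 18425032)) (l 2))) (b (b (b (b (a (a (l 17902936) (l 17654248)) (a (a (l 17432928) (l 17168232)) (a (b (l 16943760) (l 17140376)) (b (l 6) (a (l 17010736) (l 6)))))) (a (a (l 18000392) (l 17928536)) (a (b (l 17452856) (l 17529464)) (b (a (l 17203560) (a (l 17099912) (l 17088024))) (a (l 17284176) (l 17151208)))))) (a (b (l 18031760) (l 18150368)) (a (l 17878528) (b (a (l 17390720) (l 17286824)) (l 17484952))))) (a (b (l 18268544) (l 18357352)) (b (a (l 17923136) (l 17648864)) (l 17964200)))) (b (a (l 18430560) (l 18219224)) (a (l 18374968) (l 18360760))))), by decide +kernel⟩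

theorem c_pm_102 : CertF 536870912 536870912 0 536870912 67108864 67108864 true true false .npp 1 0 2
    ndF0q1 ndF2q0 pcF2 cut_pm_102 Ext.none :=
  certFK1 (fam := true) (s1 := true) (s2 := false) (a := 1) (b := 0) (c := 2) (cn := .npp) (n1 := ndF0q1) (n2 := ndF2q0) (pc := pcF2) (cut := cut_pm_102) (xt := Ext.none) (P1 := 536870912) (W1 := 536870912) (P2 := 0) (W2 := 536870912) (P3 := 67108864) (W3 := 67108864)
    rfl rfl rfl (fun _ => rfl) k0_pm_102

noncomputable def f_pm_112 : ℕ → ℕ → ℕ → ℕ → Bool := onCell 1073741824 536870912 536870912 536870912 67108864 67108864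
    (rowFK 2 true true false .dn 1 1 2 (qsf 536870912 536870912 536870912 536870912 2) ndF0q1 ndF2q1 pcF2 Cut.none Ext.none)

def k0_pm_112 : ∃ t, chk3 f_pm_112 t 1 1 1 = true :=
  ⟨(a (b (b (a (a (a (b (l 18362192) (l 1)) (l 18479648)) (l 18246112)) (a (l 17794752) (l 17563008))) (a (a (l 1) (a (l 1) (l 17874472))) (b (l 406446772679) (l 335042992807)))) (a (l 1) (b (b (l 328064759303) (l 1)) (l 1)))) (a (b (b (a (l 17362088) (l 17234104)) (b (l 16974296) (l 17326576))) (b (b (l 18001768) (l 18822368)) (b (l 19360848) (l 1)))) (b (b (a (l 17453656) (l 17755192)) (b (l 17052072) (l 17253928))) (b (b (l 17934808) (l 18741784)) (b (l 19266208) (b (l 19510480) (l 19667456))))))), by decide +kernel⟩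

theorem c_pm_112 : CertF 536870912 536870912 536870912 536870912 67108864 67108864 true true false .dn 1 1 2
    ndF0q1 ndF2q1 pcF2 Cut.none Ext.none :=
  certFK2 (fam := true) (s1 := true) (s2 := false) (a := 1) (b := 1) (c := 2) (cn := .dn) (n1 := ndF0q1) (n2 := ndF2q1) (pc := pcF2) (cut := Cut.none) (xt := Ext.none) (P1 := 536870912) (W1 := 536870912) (P2 := 536870912) (W2 := 536870912) (P3 := 67108864) (W3 := 67108864)
    rfl rfl rfl (fun _ => rfl) k0_pm_112

noncomputable def f_pm_113 : ℕ → ℕ → ℕ → ℕ → Bool := onCell 1610612736 536870912 536870912 536870912 67108864 67108864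
    (rowFK 2 true true false .nn 1 1 3 (qsf 536870912 536870912 536870912 536870912 3) ndF0q1 ndF2q1 pcF3 Cut.none Ext.none)

def k0_pm_113 : ∃ t, chk3 f_pm_113 t 1 1 1 = true :=
  ⟨(a (b (a (b (a (l 18567168) (b (l 18625664) (l 18332992))) (a (l 18033848) (l 17839992))) (b (a (b (l 2) (l 18856552)) (l 2)) (a (l 17706536) (b (l 18326920) (l 17450136))))) (a (b (a (b (l 17686592) (l 17742320)) (b (l 17420936) (l 17778832))) (b (a (l 18357344) (l 18208744)) (b (l 18656448) (l 18782888)))) (b (a (l 17564088) (l 17620120)) (b (l 18387488) (b (l 18536640) (l 18624160)))))) (b (a (b (l 2) (b (l 2) (l 4))) (l 2)) (a (b (a (b (l 4) (l 17896232)) (l 4)) (b (l 18081704) (b (l 18259304) (l 18361032)))) (b (l 4) (l 4))))), by decide +kernel⟩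

theorem c_pm_113 : CertF 536870912 536870912 536870912 536870912 67108864 67108864 true true false .nn 1 1 3
    ndF0q1 ndF2q1 pcF3 Cut.none Ext.none :=
  certFK2 (fam := true) (s1 := true) (s2 := false) (a := 1) (b := 1) (c := 3) (cn := .nn) (n1 := ndF0q1) (n2 := ndF2q1) (pc := pcF3) (cut := Cut.none) (xt := Ext.none) (P1 := 536870912) (W1 := 536870912) (P2 := 536870912) (W2 := 536870912) (P3 := 67108864) (W3 := 67108864)
    rfl rfl rfl (fun _ => rfl) k0_pm_113

noncomputable def cut_pm_123_a : Cut := Cut.of [[⟨0, 1, 0, 21338704⟩, ⟨1, 1, 0, 21338704⟩, ⟨2, 2, 0, 1685920⟩]]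

noncomputable def f_pm_123_a : ℕ → ℕ → ℕ → ℕ → Bool := onCell 1610612736 536870912 0 536870912 67108864 67108864
    (rowFK 2 true true false .npn 1 2 3 (qsf 536870912 536870912 0 536870912 3) ndF0q1 ndF2q2a pcF3 cut_pm_123_a Ext.none)

def k0_pm_123_a : ∃ t, chk3 f_pm_123_a t 1 1 1 = true :=
  ⟨(a (b (a (a (l 1) (l 17543928)) (a (l 17464360) (l 17420752))) (b (a (a (l 1) (l 17378344)) (a (l 17266424) (l 17259424))) (a (b (a (l 17727424) (l 17547688)) (a (l 17987392) (l 17806160))) (b (a (l 17325768) (l 17179216)) (a (l 17704040) (l 17375424)))))) (b (a (b (l 17380064) (l 17486968)) (a (b (l 17148048) (l 17143936)) (a (l 17213288) (a (l 16911720) (a (l 16941528) (l 4)))))) (a (b (a (l 17250792) (l 17209024)) (b (a (l 17164632) (l 17146712)) (a (l 17246040) (b (l 17091576) (l 17205232))))) (b (a (l 17220152) (a (l 17076312) (a (l 17049768) (a (l 16962536) (a (l 16934048) (a (l 16908512) (l 4))))))) (b (a (b (l 17089424) (l 17114672)) (a (l 17151656) (a (l 17046784)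 (a (l 17052064) (a (b (l 16824536) (l 16816096)) (a (l 17035448) (a (l 17016520) (l 78081811623)))))))) (b (a (l 17063632) (a (l 16965872) (a (l 16883904) (a (l 16835360) (a (l 16812392) (a (l 16803376) (a (l 16794112) (l 16861888)))))))) (b (a (l 17051080) (a (l 16966568) (a (l 16886792) (a (l 16836536) (a (l 16809424) (a (l 16795952) (a (l 16790976) (b (l 16887840) (l 6))))))))) (a (a (l 17047472) (l 17107456)) (a (a (l 17005040) (a (l 16955168) (l 16950872))) (a (b (l 16889144) (a (l 16924984) (b (l 16874504) (l 16915344)))) (a (b (l 16837936) (b (l 16838880) (a (l 16868536) (a (l 16833952) (l 16844896))))) (a (b (l 16809448) (b (l 16809656) (b (l 16809808) (a (l 16835304) (a (l 16806848) (l 16811944)))))) (a (b (l 16794752) (b (l 16794304) (b (l 16794120) (b (l 16794040) (a (l 16806792) (a (l 16792384) (l 16794824))))))) (a (a (b (l 16788720) (b (l 16787856) (b (l 16787456) (b (l 16787264) (b (l 16787168) (l 16792144)))))) (l 6)) (l 6))))))))))))))), by decide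 +kernel⟩

theorem c_pm_123_a : CertF 536870912 536870912 0 536870912 67108864 67108864 true true false .npn 1 2 3
    ndF0q1 ndF2q2a pcF3 cut_pm_123_a Ext.none :=
  certFK2 (fam := true) (s1 := true) (s2 := false) (a := 1) (b := 2) (c := 3) (cn := .npn) (n1 := ndF0q1) (n2 := ndF2q2a) (pc := pcF3) (cut := cut_pm_123_a) (xt := Ext.none) (P1 := 536870912) (W1 := 536870912) (P2 := 0) (W2 := 536870912) (P3 := 67108864) (W3 := 67108864)
    rfl rfl rfl (fun _ => rfl) k0_pm_123_a

noncomputable def cut_pm_123_b : Cut := Cut.of [[⟨0, 1, 0, 21338704⟩, ⟨1, 1, 0, 21338704⟩, ⟨2, 2, 0, 1685920⟩]]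

noncomputable def f_pm_123_b : ℕ → ℕ → ℕ → ℕ → Bool := onCell 1610612736 536870912 1239849684 370763052 67108864 67108864
    (rowFK 2 true true false .npn 1 2 3 (qsf 536870912 536870912 1239849684 370763052 3) ndF0q1 ndF2q2b pcF3 cut_pm_123_b Ext.none)

def k0_pm_123_b : ∃ t, chk3 f_pm_123_b t 1 1 1 = true :=
  ⟨(a (b (a (l 1) (b (a (l 17565760) (l 17480048)) (l 170223856071))) (l 1)) (a (b (a (b (l 17403648) (l 17438040)) (b (l 17288240) (l 17252456))) (a (l 1) (b (l 17256064) (l 1)))) (a (b (b (l 17304128) (l 17046632)) (b (l 17060648) (l 17142960))) (a (b (b (l 16938032) (l 16919032)) (l 16955280)) (b (a (l 17013336) (a (l 16942088) (l 4))) (l 4)))))), by decide +kernel⟩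

theorem c_pm_123_b : CertF 536870912 536870912 1239849684 370763052 67108864 67108864 true true false .npn 1 2 3
    ndF0q1 ndF2q2b pcF3 cut_pm_123_b Ext.none :=
  certFK2 (fam := true) (s1 := true) (s2 := false) (a := 1) (b := 2) (c := 3) (cn := .npn) (n1 := ndF0q1) (n2 := ndF2q2b) (pc := pcF3) (cut := cut_pm_123_b) (xt := Ext.none) (P1 := 536870912) (W1 := 536870912) (P2 := 1239849684) (W2 := 370763052) (P3 := 67108864) (W3 := 67108864)
    rfl rfl rfl (fun _ => rfl) k0_pm_123_b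

noncomputable def f_pm_133 : ℕ → ℕ → ℕ → ℕ → Bool := onCell 536870912 536870912 1610612736 536870912 67108864 67108864
    (rowFK 0 true true false .dn 1 3 3 (qsf 536870912 536870912 1610612736 536870912 3) ndF0q1 ndF2q3 pcF3 Cut.none Ext.none)

def k0_pm_133 : ∃ t, chk3 f_pm_133 t 1 1 1 = true :=
  ⟨(a (l 4) (l 2)), by decide +kernel⟩

theorem c_pm_133 : CertF 536870912 536870912 1610612736 536870912 67108864 67108864 true true false .dn 1 3 3
    ndF0q1 ndF2q3 pcF3 Cut.none Ext.none :=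
  certFK0 (fam := true) (s1 := true) (s2 := false) (a := 1) (b := 3) (c := 3) (cn := .dn) (n1 := ndF0q1) (n2 := ndF2q3) (pc := pcF3) (cut := Cut.none) (xt := Ext.none) (P1 := 536870912) (W1 := 536870912) (P2 := 1610612736) (W2 := 536870912) (P3 := 67108864) (W3 := 67108864)
    rfl rfl rfl k0_pm_133

noncomputable def cut_pm_202 : Cut := Cut.of [[⟨0, 1, 0, 67108864⟩, ⟨1, 0, 0, 67108864⟩, ⟨2, 1, 0, 67108864⟩]]

noncomputable def f_pm_202 : ℕ → ℕ → ℕ → ℕ → Bool := onCell 0 536870912 0 536870912 67108864 67108864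
    (rowFK 0 true true false .pp 2 0 2 (qsf 0 536870912 0 536870912 2) ndF0q2 ndF2q0 pcF2 cut_pm_202 Ext.none)

def k0_pm_202 : ∃ t, chk3 f_pm_202 t 1 1 1 = true :=
  ⟨(a (b (b (b (a (b (b (c (a (l 18482728) (l 18447272)) (b (a (l 17811120) (a (l 17783776) (l 17742224))) (l 17754672))) (l 18091320)) (l 18010792)) (b (b (b (c (a (l 18371736) (l 18186872)) (a (a (a (l 17531608) (a (l 17502016) (l 17645328))) (l 17403440)) (a (l 17192272) (l 16995760)))) (a (l 18008160) (l 17806152))) (a (l 18007504) (l 17852832))) (l 17924640))) (a (l 17805928) (l 17819104))) (b (l 17590664) (l 17584640))) (b (b (l 17787280) (l 17923560)) (b (l 17872608) (l 2)))) (b (a (b (b (b (a (b (b (a (c (l 17949664) (l 16837144)) (b (c (l 17491976) (l 16724680)) (l 17195272))) (l 17285680)) (l 17563400)) (b (b (a (b (l 16714496) (l 16790480)) (b (a (l 16706016) (l 16724416)) (l 16685072))) (a (l 16953792) (l 16674184))) (a (l 17202456) (l 16838720)))) (a (l 17709504) (l 17401832))) (b (l 17700256)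 (l 17728736))) (b (l 17679496) (l 17616832))) (b (b (a (b (b (a (b (b (a (a (l 16701856) (l 16722920)) (l 16733600)) (l 16727176)) (l 16694456)) (b (b (l 6) (a (l 16706888) (l 6))) (a (l 16693344) (l 16744304)))) (a (b (l 16664968) (l 16705704)) (b (l 16760344) (l 16760360)))) (b (l 16929640) (l 17033896))) (b (a (b (l 6) (a (l 16865408) (l 6))) (l 6)) (a (b (a (l 16862688) (l 16885176)) (l 16957912)) (b (b (l 6) (l 17025280)) (l 17065984))))) (a (b (l 17392088) (l 17611944)) (b (a (l 17152240) (l 17131520)) (l 17500016)))) (b (a (l 17691440) (l 17672168)) (l 17674224)))) (b (a (l 17939048) (b (l 17867432) (l 18078912))) (a (b (l 18128952) (l 2)) (l 18249944))))), by decide +kernel⟩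

theorem c_pm_202 : CertF 0 536870912 0 536870912 67108864 67108864 true true false .pp 2 0 2
    ndF0q2 ndF2q0 pcF2 cut_pm_202 Ext.none :=
  certFK0 (fam := true) (s1 := true) (s2 := false) (a := 2) (b := 0) (c := 2) (cn := .pp) (n1 := ndF0q2) (n2 := ndF2q0) (pc := pcF2) (cut := cut_pm_202) (xt := Ext.none) (P1 := 0) (W1 := 536870912) (P2 := 0) (W2 := 536870912) (P3 := 67108864) (W3 := 67108864)
    rfl rfl rfl k0_pm_202

noncomputable def f_pm_203 : ℕ → ℕ → ℕ → ℕ → Bool := onCell 0 536870912 1610612736 536870912 67108864 67108864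
    (rowFK 1 true true false .up 2 0 3 (qsf 0 536870912 0 536870912 3) ndF0q2 ndF2q0 pcF3 Cut.none Ext.none)

def k0_pm_203 : ∃ t, chk3 f_pm_203 t 1 1 1 = true :=
  ⟨(b (b (a (b (l 17963888) (l 4)) (b (l 17911648) (l 18020912))) (a (l 4) (b (l 17963432) (l 2)))) (l 2)), by decide +kernel⟩

theorem c_pm_203 : CertF 0 536870912 0 536870912 67108864 67108864 true true false .up 2 0 3
    ndF0q2 ndF2q0 pcF3 Cut.none Ext.none :=
  certFK1 (fam := true) (s1 := true) (s2 := false) (a := 2) (b := 0) (c := 3) (cn := .up) (n1 := ndF0q2) (n2 := ndF2q0) (pc := pcF3) (cut := Cut.none) (xt := Ext.none) (P1 := 0) (W1 := 536870912) (P2 := 0) (W2 := 536870912) (P3 := 67108864) (W3 := 67108864)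
    rfl rfl rfl (fun _ => rfl) k0_pm_203

noncomputable def f_pm_213 : ℕ → ℕ → ℕ → ℕ → Bool := onCell 0 536870912 1610612736 536870912 67108864 67108864
    (rowFK 1 true true false .pnn 2 1 3 (qsf 0 536870912 536870912 536870912 3) ndF0q2 ndF2q1 pcF3 Cut.none Ext.none)

def k0_pm_213 : ∃ t, chk3 f_pm_213 t 1 1 1 = true :=
  ⟨(b (b (a (b (l 1) (l 4)) (b (l 18550384) (l 18362200))) (a (l 4) (b (l 18117424) (l 4)))) (l 4)), by decide +kernel⟩

theorem c_pm_213 : CertF 0 536870912 536870912 536870912 67108864 67108864 true true false .pnn 2 1 3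
    ndF0q2 ndF2q1 pcF3 Cut.none Ext.none :=
  certFK1 (fam := true) (s1 := true) (s2 := false) (a := 2) (b := 1) (c := 3) (cn := .pnn) (n1 := ndF0q2) (n2 := ndF2q1) (pc := pcF3) (cut := Cut.none) (xt := Ext.none) (P1 := 0) (W1 := 536870912) (P2 := 536870912) (W2 := 536870912) (P3 := 67108864) (W3 := 67108864)
    rfl rfl rfl (fun _ => rfl) k0_pm_213

noncomputable def f_mm_001 : ℕ → ℕ → ℕ → ℕ → Bool := onCell 0 536870912 0 536870912 67108864 67108864
    (rowFK 0 true false false .up 0 0 1 (qsf 0 536870912 0 536870912 1) ndF0q0 ndF2q0 pcF1 Cut.none Ext.none)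

def k0_mm_001 : ∃ t, chk3 f_mm_001 t 1 1 1 = true :=
  ⟨(l 4), by decide +kernel⟩

theorem c_mm_001 : CertF 0 536870912 0 536870912 67108864 67108864 true false false .up 0 0 1
    ndF0q0 ndF2q0 pcF1 Cut.none Ext.none :=
  certFK0 (fam := true) (s1 := false) (s2 := false) (a := 0) (b := 0) (c := 1) (cn := .up) (n1 := ndF0q0) (n2 := ndF2q0) (pc := pcF1) (cut := Cut.none) (xt := Ext.none) (P1 := 0) (W1 := 536870912) (P2 := 0) (W2 := 536870912) (P3 := 67108864) (W3 := 67108864)
    rfl rfl rfl k0_mm_001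

noncomputable def f_mm_011 : ℕ → ℕ → ℕ → ℕ → Bool := onCell 0 536870912 536870912 536870912 67108864 67108864
    (rowFK 0 true false false .pnn 0 1 1 (qsf 0 536870912 536870912 536870912 1) ndF0q0 ndF2q1 pcF1 Cut.none Ext.none)

def k0_mm_011 : ∃ t, chk3 f_mm_011 t 1 1 1 = true :=
  ⟨(l 4), by decide +kernel⟩

theorem c_mm_011 : CertF 0 536870912 536870912 536870912 67108864 67108864 true false false .pnn 0 1 1
    ndF0q0 ndF2q1 pcF1 Cut.none Ext.none :=
  certFK0 (fam := true) (s1 := false) (s2 := false) (a := 0) (b := 1) (c := 1) (cn := .pnn) (n1 := ndF0q0) (n2 := ndF2q1) (pc := pcF1) (cut := Cut.none) (xt := Ext.none) (P1 := 0) (W1 := 536870912) (P2 := 536870912) (W2 := 536870912) (P3 := 67108864) (W3 := 67108864)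
    rfl rfl rfl k0_mm_011

noncomputable def f_mm_012 : ℕ → ℕ → ℕ → ℕ → Bool := onCell 0 536870912 536870912 536870912 67108864 67108864
    (rowFK 0 true false false .pnp 0 1 2 (qsf 0 536870912 536870912 536870912 2) ndF0q0 ndF2q1 pcF2 Cut.none Ext.none)

def k0_mm_012 : ∃ t, chk3 f_mm_012 t 1 1 1 = true :=
  ⟨(l 4), by decide +kernel⟩

theorem c_mm_012 : CertF 0 536870912 536870912 536870912 67108864 67108864 true false false .pnp 0 1 2
    ndF0q0 ndF2q1 pcF2 Cut.none Ext.none :=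
  certFK0 (fam := true) (s1 := false) (s2 := false) (a := 0) (b := 1) (c := 2) (cn := .pnp) (n1 := ndF0q0) (n2 := ndF2q1) (pc := pcF2) (cut := Cut.none) (xt := Ext.none) (P1 := 0) (W1 := 536870912) (P2 := 536870912) (W2 := 536870912) (P3 := 67108864) (W3 := 67108864)
    rfl rfl rfl k0_mm_012

noncomputable def f_mm_022_a : ℕ → ℕ → ℕ → ℕ → Bool := onCell 0 536870912 0 536870912 67108864 67108864
    (rowFK 0 true false false .pp 0 2 2 (qsf 0 536870912 0 536870912 2) ndF0q0 ndF2q2a pcF2 Cut.none Ext.none)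

def k0_mm_022_a : ∃ t, chk3 f_mm_022_a t 1 1 1 = true :=
  ⟨(l 5), by decide +kernel⟩

theorem c_mm_022_a : CertF 0 536870912 0 536870912 67108864 67108864 true false false .pp 0 2 2
    ndF0q0 ndF2q2a pcF2 Cut.none Ext.none :=
  certFK0 (fam := true) (s1 := false) (s2 := false) (a := 0) (b := 2) (c := 2) (cn := .pp) (n1 := ndF0q0) (n2 := ndF2q2a) (pc := pcF2) (cut := Cut.none) (xt := Ext.none) (P1 := 0) (W1 := 536870912) (P2 := 0) (W2 := 536870912) (P3 := 67108864) (W3 := 67108864)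
    rfl rfl rfl k0_mm_022_a

noncomputable def f_mm_022_b : ℕ → ℕ → ℕ → ℕ → Bool := onCell 0 536870912 1239849684 370763052 67108864 67108864
    (rowFK 0 true false false .pp 0 2 2 (qsf 0 536870912 1239849684 370763052 2) ndF0q0 ndF2q2b pcF2 Cut.none Ext.none)

def k0_mm_022_b : ∃ t, chk3 f_mm_022_b t 1 1 1 = true :=
  ⟨(l 4), by decide +kernel⟩

theorem c_mm_022_b : CertF 0 536870912 1239849684 370763052 67108864 67108864 true false false .pp 0 2 2
    ndF0q0 ndF2q2b pcF2 Cut.none Ext.none :=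
  certFK0 (fam := true) (s1 := false) (s2 := false) (a := 0) (b := 2) (c := 2) (cn := .pp) (n1 := ndF0q0) (n2 := ndF2q2b) (pc := pcF2) (cut := Cut.none) (xt := Ext.none) (P1 := 0) (W1 := 536870912) (P2 := 1239849684) (W2 := 370763052) (P3 := 67108864) (W3 := 67108864)
    rfl rfl rfl k0_mm_022_b

noncomputable def f_mm_023_a : ℕ → ℕ → ℕ → ℕ → Bool := onCell 0 536870912 0 536870912 67108864 67108864
    (rowFK 0 true false false .up 0 2 3 (qsf 0 536870912 0 536870912 3) ndF0q0 ndF2q2a pcF3 Cut.none Ext.none)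

def k0_mm_023_a : ∃ t, chk3 f_mm_023_a t 1 1 1 = true :=
  ⟨(l 5), by decide +kernel⟩

theorem c_mm_023_a : CertF 0 536870912 0 536870912 67108864 67108864 true false false .up 0 2 3
    ndF0q0 ndF2q2a pcF3 Cut.none Ext.none :=
  certFK0 (fam := true) (s1 := false) (s2 := false) (a := 0) (b := 2) (c := 3) (cn := .up) (n1 := ndF0q0) (n2 := ndF2q2a) (pc := pcF3) (cut := Cut.none) (xt := Ext.none) (P1 := 0) (W1 := 536870912) (P2 := 0) (W2 := 536870912) (P3 := 67108864) (W3 := 67108864)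
    rfl rfl rfl k0_mm_023_a

noncomputable def f_mm_023_b : ℕ → ℕ → ℕ → ℕ → Bool := onCell 0 536870912 1239849684 370763052 67108864 67108864
    (rowFK 0 true false false .up 0 2 3 (qsf 0 536870912 1239849684 370763052 3) ndF0q0 ndF2q2b pcF3 Cut.none Ext.none)

def k0_mm_023_b : ∃ t, chk3 f_mm_023_b t 1 1 1 = true :=
  ⟨(l 4), by decide +kernel⟩

theorem c_mm_023_b : CertF 0 536870912 1239849684 370763052 67108864 67108864 true false false .up 0 2 3
    ndF0q0 ndF2q2b pcF3 Cut.none Ext.none :=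
  certFK0 (fam := true) (s1 := false) (s2 := false) (a := 0) (b := 2) (c := 3) (cn := .up) (n1 := ndF0q0) (n2 := ndF2q2b) (pc := pcF3) (cut := Cut.none) (xt := Ext.none) (P1 := 0) (W1 := 536870912) (P2 := 1239849684) (W2 := 370763052) (P3 := 67108864) (W3 := 67108864)
    rfl rfl rfl k0_mm_023_b

noncomputable def f_mm_033 : ℕ → ℕ → ℕ → ℕ → Bool := onCell 0 536870912 1610612736 536870912 67108864 67108864
    (rowFK 0 true false false .pnn 0 3 3 (qsf 0 536870912 1610612736 536870912 3) ndF0q0 ndF2q3 pcF3 Cut.none Ext.none)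

def k0_mm_033 : ∃ t, chk3 f_mm_033 t 1 1 1 = true :=
  ⟨(l 4), by decide +kernel⟩

theorem c_mm_033 : CertF 0 536870912 1610612736 536870912 67108864 67108864 true false false .pnn 0 3 3
    ndF0q0 ndF2q3 pcF3 Cut.none Ext.none :=
  certFK0 (fam := true) (s1 := false) (s2 := false) (a := 0) (b := 3) (c := 3) (cn := .pnn) (n1 := ndF0q0) (n2 := ndF2q3) (pc := pcF3) (cut := Cut.none) (xt := Ext.none) (P1 := 0) (W1 := 536870912) (P2 := 1610612736) (W2 := 536870912) (P3 := 67108864) (W3 := 67108864)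
    rfl rfl rfl k0_mm_033

noncomputable def cut_mm_101 : Cut := Cut.of [[⟨0, 1, 0, 67108864⟩, ⟨1, 0, 0, 67108864⟩, ⟨2, 1, 0, 67108864⟩]]

noncomputable def f_mm_101 : ℕ → ℕ → ℕ → ℕ → Bool := onCell 536870912 536870912 0 536870912 67108864 67108864
    (rowFK 0 true false false .npn 1 0 1 (qsf 536870912 536870912 0 536870912 1) ndF0q1 ndF2q0 pcF1 cut_mm_101 Ext.none)

def k0_mm_101 : ∃ t, chk3 f_mm_101 t 1 1 1 = true :=
  ⟨(a (l 4) (b (a (l 4) (b (a (l 4) (a (l 4) (b (b (l 6) (l 4)) (l 2)))) (l 4))) (l 4))), by decide +kernel⟩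

theorem c_mm_101 : CertF 536870912 536870912 0 536870912 67108864 67108864 true false false .npn 1 0 1
    ndF0q1 ndF2q0 pcF1 cut_mm_101 Ext.none :=
  certFK0 (fam := true) (s1 := false) (s2 := false) (a := 1) (b := 0) (c := 1) (cn := .npn) (n1 := ndF0q1) (n2 := ndF2q0) (pc := pcF1) (cut := cut_mm_101) (xt := Ext.none) (P1 := 536870912) (W1 := 536870912) (P2 := 0) (W2 := 536870912) (P3 := 67108864) (W3 := 67108864)
    rfl rfl rfl k0_mm_101

noncomputable def cut_mm_102 : Cut := Cut.of [[⟨0, 1, 0, 67108864⟩, ⟨1, 0, 0, 67108864⟩, ⟨2, 1, 0, 67108864⟩]]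

noncomputable def f_mm_102 : ℕ → ℕ → ℕ → ℕ → Bool := onCell 536870912 536870912 0 536870912 67108864 67108864
    (rowFK 0 true false false .npp 1 0 2 (qsf 536870912 536870912 0 536870912 2) ndF0q1 ndF2q0 pcF2 cut_mm_102 Ext.none)

def k0_mm_102 : ∃ t, chk3 f_mm_102 t 1 1 1 = true :=
  ⟨(a (l 4) (b (a (l 4) (b (a (l 4) (a (l 4) (b (b (l 6) (l 4)) (l 4)))) (l 4))) (l 4))), by decide +kernel⟩

theorem c_mm_102 : CertF 536870912 536870912 0 536870912 67108864 67108864 true false false .npp 1 0 2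
    ndF0q1 ndF2q0 pcF2 cut_mm_102 Ext.none :=
  certFK0 (fam := true) (s1 := false) (s2 := false) (a := 1) (b := 0) (c := 2) (cn := .npp) (n1 := ndF0q1) (n2 := ndF2q0) (pc := pcF2) (cut := cut_mm_102) (xt := Ext.none) (P1 := 536870912) (W1 := 536870912) (P2 := 0) (W2 := 536870912) (P3 := 67108864) (W3 := 67108864)
    rfl rfl rfl k0_mm_102

noncomputable def f_mm_112 : ℕ → ℕ → ℕ → ℕ → Bool := onCell 536870912 536870912 536870912 536870912 67108864 67108864
    (rowFK 0 true false false .dn 1 1 2 (qsf 536870912 536870912 536870912 536870912 2) ndF0q1 ndF2q1 pcF2 Cut.none Ext.none)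

def k0_mm_112 : ∃ t, chk3 f_mm_112 t 1 1 1 = true :=
  ⟨(l 4), by decide +kernel⟩

theorem c_mm_112 : CertF 536870912 536870912 536870912 536870912 67108864 67108864 true false false .dn 1 1 2
    ndF0q1 ndF2q1 pcF2 Cut.none Ext.none :=
  certFK0 (fam := true) (s1 := false) (s2 := false) (a := 1) (b := 1) (c := 2) (cn := .dn) (n1 := ndF0q1) (n2 := ndF2q1) (pc := pcF2) (cut := Cut.none) (xt := Ext.none) (P1 := 536870912) (W1 := 536870912) (P2 := 536870912) (W2 := 536870912) (P3 := 67108864) (W3 := 67108864)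
    rfl rfl rfl k0_mm_112

noncomputable def f_mm_113 : ℕ → ℕ → ℕ → ℕ → Bool := onCell 536870912 536870912 536870912 536870912 67108864 67108864
    (rowFK 0 true false false .nn 1 1 3 (qsf 536870912 536870912 536870912 536870912 3) ndF0q1 ndF2q1 pcF3 Cut.none Ext.none)

def k0_mm_113 : ∃ t, chk3 f_mm_113 t 1 1 1 = true :=
  ⟨(l 4), by decide +kernel⟩

theorem c_mm_113 : CertF 536870912 536870912 536870912 536870912 67108864 67108864 true false false .nn 1 1 3
    ndF0q1 ndF2q1 pcF3 Cut.none Ext.none :=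
  certFK0 (fam := true) (s1 := false) (s2 := false) (a := 1) (b := 1) (c := 3) (cn := .nn) (n1 := ndF0q1) (n2 := ndF2q1) (pc := pcF3) (cut := Cut.none) (xt := Ext.none) (P1 := 536870912) (W1 := 536870912) (P2 := 536870912) (W2 := 536870912) (P3 := 67108864) (W3 := 67108864)
    rfl rfl rfl k0_mm_113

noncomputable def f_mm_123_a : ℕ → ℕ → ℕ → ℕ → Bool := onCell 536870912 536870912 0 536870912 67108864 67108864
    (rowFK 0 true false false .npn 1 2 3 (qsf 536870912 536870912 0 536870912 3) ndF0q1 ndF2q2a pcF3 Cut.none Ext.none)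

def k0_mm_123_a : ∃ t, chk3 f_mm_123_a t 1 1 1 = true :=
  ⟨(l 4), by decide +kernel⟩

theorem c_mm_123_a : CertF 536870912 536870912 0 536870912 67108864 67108864 true false false .npn 1 2 3
    ndF0q1 ndF2q2a pcF3 Cut.none Ext.none :=
  certFK0 (fam := true) (s1 := false) (s2 := false) (a := 1) (b := 2) (c := 3) (cn := .npn) (n1 := ndF0q1) (n2 := ndF2q2a) (pc := pcF3) (cut := Cut.none) (xt := Ext.none) (P1 := 536870912) (W1 := 536870912) (P2 := 0) (W2 := 536870912) (P3 := 67108864) (W3 := 67108864)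
    rfl rfl rfl k0_mm_123_a

noncomputable def f_mm_123_b : ℕ → ℕ → ℕ → ℕ → Bool := onCell 536870912 536870912 1239849684 370763052 67108864 67108864
    (rowFK 0 true false false .npn 1 2 3 (qsf 536870912 536870912 1239849684 370763052 3) ndF0q1 ndF2q2b pcF3 Cut.none Ext.none)

def k0_mm_123_b : ∃ t, chk3 f_mm_123_b t 1 1 1 = true :=
  ⟨(l 4), by decide +kernel⟩

theorem c_mm_123_b : CertF 536870912 536870912 1239849684 370763052 67108864 67108864 true false false .npn 1 2 3
    ndF0q1 ndF2q2b pcF3 Cut.none Ext.none :=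
  certFK0 (fam := true) (s1 := false) (s2 := false) (a := 1) (b := 2) (c := 3) (cn := .npn) (n1 := ndF0q1) (n2 := ndF2q2b) (pc := pcF3) (cut := Cut.none) (xt := Ext.none) (P1 := 536870912) (W1 := 536870912) (P2 := 1239849684) (W2 := 370763052) (P3 := 67108864) (W3 := 67108864)
    rfl rfl rfl k0_mm_123_b

noncomputable def f_mm_133 : ℕ → ℕ → ℕ → ℕ → Bool := onCell 536870912 536870912 1610612736 536870912 67108864 67108864
    (rowFK 0 true false false .dn 1 3 3 (qsf 536870912 536870912 1610612736 536870912 3) ndF0q1 ndF2q3 pcF3 Cut.none Ext.none)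

def k0_mm_133 : ∃ t, chk3 f_mm_133 t 1 1 1 = true :=
  ⟨(l 4), by decide +kernel⟩

theorem c_mm_133 : CertF 536870912 536870912 1610612736 536870912 67108864 67108864 true false false .dn 1 3 3
    ndF0q1 ndF2q3 pcF3 Cut.none Ext.none :=
  certFK0 (fam := true) (s1 := false) (s2 := false) (a := 1) (b := 3) (c := 3) (cn := .dn) (n1 := ndF0q1) (n2 := ndF2q3) (pc := pcF3) (cut := Cut.none) (xt := Ext.none) (P1 := 536870912) (W1 := 536870912) (P2 := 1610612736) (W2 := 536870912) (P3 := 67108864) (W3 := 67108864)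
    rfl rfl rfl k0_mm_133

noncomputable def cut_mm_202 : Cut := Cut.of [[⟨0, 1, 0, 67108864⟩, ⟨1, 0, 0, 67108864⟩, ⟨2, 1, 0, 67108864⟩]]

noncomputable def f_mm_202 : ℕ → ℕ → ℕ → ℕ → Bool := onCell 0 536870912 0 536870912 67108864 67108864
    (rowFK 0 true false false .pp 2 0 2 (qsf 0 536870912 0 536870912 2) ndF0q2 ndF2q0 pcF2 cut_mm_202 Ext.none)

def k0_mm_202 : ∃ t, chk3 f_mm_202 t 1 1 1 = true :=
  ⟨(b (a (b (b (a (b (b (a (l 17888432) (b (l 17854912) (l 18069328))) (l 18059376)) (l 17958088)) (b (b (a (c (l 18325584) (a (l 17626184) (l 17275160))) (b (c (l 17942752) (a (l 17302000) (l 16947880))) (l 17734088))) (a (l 17920800) (l 17736712))) (l 17753712))) (a (l 17716632) (b (l 17610056) (l 17467632)))) (b (a (l 17458472) (l 17355912)) (l 48555314103))) (b (a (b (a (b (b (b (b (a (c (l 17911920) (l 16891240)) (a (c (l 17735600) (l 16712088)) (l 16902232))) (a (l 17441000) (l 17167088))) (l 17117872)) (l 17440872)) (l 17462552)) (b (b (b (a (b (a (l 16793592)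 (l 16719360)) (l 16786536)) (b (a (l 16720968) (l 16723032)) (l 16697080))) (a (l 16926544) (l 16658864))) (a (l 17108664) (l 16804256))) (b (l 17124168) (l 17189256)))) (a (l 17456032) (l 17373472))) (b (a (b (b (b (b (a (a (l 16736088) (b (l 16734784) (l 16722616))) (l 6)) (a (l 16702464) (l 16731064))) (a (l 16685536) (a (l 16696912) (l 16727216)))) (a (l 16748904) (b (l 16781128) (l 16841152)))) (a (l 16974088) (l 16944976))) (b (a (b (l 6) (b (l 6) (l 4))) (l 6)) (l 4))) (l 4))) (l 4))) (a (l 4) (l 4))), by decide +kernel⟩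

theorem c_mm_202 : CertF 0 536870912 0 536870912 67108864 67108864 true false false .pp 2 0 2
    ndF0q2 ndF2q0 pcF2 cut_mm_202 Ext.none :=
  certFK0 (fam := true) (s1 := false) (s2 := false) (a := 2) (b := 0) (c := 2) (cn := .pp) (n1 := ndF0q2) (n2 := ndF2q0) (pc := pcF2) (cut := cut_mm_202) (xt := Ext.none) (P1 := 0) (W1 := 536870912) (P2 := 0) (W2 := 536870912) (P3 := 67108864) (W3 := 67108864)
    rfl rfl rfl k0_mm_202

noncomputable def f_mm_203 : ℕ → ℕ → ℕ → ℕ → Bool := onCell 0 536870912 1610612736 536870912 67108864 67108864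
    (rowFK 1 true false false .up 2 0 3 (qsf 0 536870912 0 536870912 3) ndF0q2 ndF2q0 pcF3 Cut.none Ext.none)

def k0_mm_203 : ∃ t, chk3 f_mm_203 t 1 1 1 = true :=
  ⟨(l 4), by decide +kernel⟩

theorem c_mm_203 : CertF 0 536870912 0 536870912 67108864 67108864 true false false .up 2 0 3
    ndF0q2 ndF2q0 pcF3 Cut.none Ext.none :=
  certFK1 (fam := true) (s1 := false) (s2 := false) (a := 2) (b := 0) (c := 3) (cn := .up) (n1 := ndF0q2) (n2 := ndF2q0) (pc := pcF3) (cut := Cut.none) (xt := Ext.none) (P1 := 0) (W1 := 536870912) (P2 := 0) (W2 := 536870912) (P3 := 67108864) (W3 := 67108864)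
    rfl rfl rfl (fun _ => rfl) k0_mm_203

noncomputable def f_mm_213 : ℕ → ℕ → ℕ → ℕ → Bool := onCell 0 536870912 536870912 536870912 67108864 67108864
    (rowFK 0 true false false .pnn 2 1 3 (qsf 0 536870912 536870912 536870912 3) ndF0q2 ndF2q1 pcF3 Cut.none Ext.none)

def k0_mm_213 : ∃ t, chk3 f_mm_213 t 1 1 1 = true :=
  ⟨(l 4), by decide +kernel⟩

theorem c_mm_213 : CertF 0 536870912 536870912 536870912 67108864 67108864 true false false .pnn 2 1 3
    ndF0q2 ndF2q1 pcF3 Cut.none Ext.none :=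
  certFK0 (fam := true) (s1 := false) (s2 := false) (a := 2) (b := 1) (c := 3) (cn := .pnn) (n1 := ndF0q2) (n2 := ndF2q1) (pc := pcF3) (cut := Cut.none) (xt := Ext.none) (P1 := 0) (W1 := 536870912) (P2 := 536870912) (W2 := 536870912) (P3 := 67108864) (W3 := 67108864)
    rfl rfl rfl k0_mm_213

end Pool.Agent.Strip051.G.I1_16_1_8.Tab.C.FA02

namespace Pool.Agent.Strip051.G.I1_16_1_8.Tab.C.FA03

open Pool.Agent.Strip051.PB Pool.Agent.Strip051.PB.T
open Pool.Agent.Strip051.G.I1_16_1_8.Tab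

noncomputable def f_pp_001 : ℕ → ℕ → ℕ → ℕ → Bool := onCell 0 536870912 0 536870912 67108864 67108864
    (rowFK 0 true true true .up 0 0 1 (qsf 0 536870912 0 536870912 1) ndF0q0 ndF3q0 pcF1 Cut.none Ext.none)

def k0_pp_001 : ∃ t, chk3 f_pp_001 t 1 1 1 = true :=
  ⟨(l 4), by decide +kernel⟩

theorem c_pp_001 : CertF 0 536870912 0 536870912 67108864 67108864 true true true .up 0 0 1
    ndF0q0 ndF3q0 pcF1 Cut.none Ext.none :=
  certFK0 (fam := true) (s1 := true) (s2 := true) (a := 0) (b := 0) (c := 1) (cn := .up) (n1 := ndF0q0) (n2 := ndF3q0) (pc := pcF1) (cut := Cut.none) (xt := Ext.none) (P1 := 0) (W1 := 536870912) (P2 := 0) (W2 := 536870912) (P3 := 67108864) (W3 := 67108864)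
    rfl rfl rfl k0_pp_001

noncomputable def f_pp_011 : ℕ → ℕ → ℕ → ℕ → Bool := onCell 0 536870912 536870912 536870912 67108864 67108864
    (rowFK 0 true true true .pnn 0 1 1 (qsf 0 536870912 536870912 536870912 1) ndF0q0 ndF3q1 pcF1 Cut.none Ext.none)

def k0_pp_011 : ∃ t, chk3 f_pp_011 t 1 1 1 = true :=
  ⟨(l 4), by decide +kernel⟩

theorem c_pp_011 : CertF 0 536870912 536870912 536870912 67108864 67108864 true true true .pnn 0 1 1
    ndF0q0 ndF3q1 pcF1 Cut.none Ext.none :=
  certFK0 (fam := true) (s1 := true) (s2 := true) (a := 0) (b := 1) (c := 1) (cn := .pnn) (n1 := ndF0q0) (n2 := ndF3q1) (pc := pcF1) (cut := Cut.none) (xt := Ext.none) (P1 := 0) (W1 := 536870912) (P2 := 536870912) (W2 := 536870912) (P3 := 67108864) (W3 := 67108864)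
    rfl rfl rfl k0_pp_011

noncomputable def f_pp_012 : ℕ → ℕ → ℕ → ℕ → Bool := onCell 0 536870912 536870912 536870912 67108864 67108864
    (rowFK 0 true true true .pnp 0 1 2 (qsf 0 536870912 536870912 536870912 2) ndF0q0 ndF3q1 pcF2 Cut.none Ext.none)

def k0_pp_012 : ∃ t, chk3 f_pp_012 t 1 1 1 = true :=
  ⟨(l 4), by decide +kernel⟩

theorem c_pp_012 : CertF 0 536870912 536870912 536870912 67108864 67108864 true true true .pnp 0 1 2
    ndF0q0 ndF3q1 pcF2 Cut.none Ext.none :=
  certFK0 (fam := true) (s1 := true) (s2 := true) (a := 0) (b := 1) (c := 2) (cn := .pnp) (n1 := ndF0q0) (n2 := ndF3q1) (pc := pcF2) (cut := Cut.none) (xt := Ext.none) (P1 := 0) (W1 := 536870912) (P2 := 536870912) (W2 := 536870912) (P3 := 67108864) (W3 := 67108864)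
    rfl rfl rfl k0_pp_012

noncomputable def f_pp_022 : ℕ → ℕ → ℕ → ℕ → Bool := onCell 0 536870912 1073741824 536870912 67108864 67108864
    (rowFK 0 true true true .pp 0 2 2 (qsf 0 536870912 1073741824 536870912 2) ndF0q0 ndF3q2 pcF2 Cut.none Ext.none)

def k0_pp_022 : ∃ t, chk3 f_pp_022 t 1 1 1 = true :=
  ⟨(l 4), by decide +kernel⟩

theorem c_pp_022 : CertF 0 536870912 1073741824 536870912 67108864 67108864 true true true .pp 0 2 2
    ndF0q0 ndF3q2 pcF2 Cut.none Ext.none :=
  certFK0 (fam := true) (s1 := true) (s2 := true) (a := 0) (b := 2) (c := 2) (cn := .pp) (n1 := ndF0q0) (n2 := ndF3q2) (pc := pcF2) (cut := Cut.none) (xt := Ext.none) (P1 := 0) (W1 := 536870912) (P2 := 1073741824) (W2 := 536870912) (P3 := 67108864) (W3 := 67108864)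
    rfl rfl rfl k0_pp_022

noncomputable def f_pp_023 : ℕ → ℕ → ℕ → ℕ → Bool := onCell 0 536870912 1073741824 536870912 67108864 67108864
    (rowFK 0 true true true .up 0 2 3 (qsf 0 536870912 1073741824 536870912 3) ndF0q0 ndF3q2 pcF3 Cut.none Ext.none)

def k0_pp_023 : ∃ t, chk3 f_pp_023 t 1 1 1 = true :=
  ⟨(l 4), by decide +kernel⟩

theorem c_pp_023 : CertF 0 536870912 1073741824 536870912 67108864 67108864 true true true .up 0 2 3
    ndF0q0 ndF3q2 pcF3 Cut.none Ext.none :=
  certFK0 (fam := true) (s1 := true) (s2 := true) (a := 0) (b := 2) (c := 3) (cn := .up) (n1 := ndF0q0) (n2 := ndF3q2) (pc := pcF3) (cut := Cut.none) (xt := Ext.none) (P1 := 0) (W1 := 536870912) (P2 := 1073741824) (W2 := 536870912) (P3 := 67108864) (W3 := 67108864)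
    rfl rfl rfl k0_pp_023

noncomputable def f_pp_033 : ℕ → ℕ → ℕ → ℕ → Bool := onCell 0 536870912 0 1230186008 67108864 67108864
    (rowFK 0 true true true .pnn 0 3 3 (qsf 0 536870912 0 1230186008 3) ndF0q0 ndF3q3 pcF3 Cut.none Ext.none)

def k0_pp_033 : ∃ t, chk3 f_pp_033 t 1 1 1 = true :=
  ⟨(b (l 4) (l 4)), by decide +kernel⟩

theorem c_pp_033 : CertF 0 536870912 0 1230186008 67108864 67108864 true true true .pnn 0 3 3
    ndF0q0 ndF3q3 pcF3 Cut.none Ext.none :=
  certFK0 (fam := true) (s1 := true) (s2 := true) (a := 0) (b := 3) (c := 3) (cn := .pnn) (n1 := ndF0q0) (n2 := ndF3q3) (pc := pcF3) (cut := Cut.none) (xt := Ext.none) (P1 := 0) (W1 := 536870912) (P2 := 0) (W2 := 1230186008) (P3 := 67108864) (W3 := 67108864)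
    rfl rfl rfl k0_pp_033

noncomputable def f_pp_101 : ℕ → ℕ → ℕ → ℕ → Bool := onCell 536870912 536870912 0 536870912 67108864 67108864
    (rowFK 0 true true true .npn 1 0 1 (qsf 536870912 536870912 0 536870912 1) ndF0q1 ndF3q0 pcF1 Cut.none Ext.none)

def k0_pp_101 : ∃ t, chk3 f_pp_101 t 1 1 1 = true :=
  ⟨(l 4), by decide +kernel⟩

theorem c_pp_101 : CertF 536870912 536870912 0 536870912 67108864 67108864 true true true .npn 1 0 1
    ndF0q1 ndF3q0 pcF1 Cut.none Ext.none :=
  certFK0 (fam := true) (s1 := true) (s2 := true) (a := 1) (b := 0) (c := 1) (cn := .npn) (n1 := ndF0q1) (n2 := ndF3q0) (pc := pcF1) (cut := Cut.none) (xt := Ext.none) (P1 := 536870912) (W1 := 536870912) (P2 := 0) (W2 := 536870912) (P3 := 67108864) (W3 := 67108864)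
    rfl rfl rfl k0_pp_101

noncomputable def f_pp_102 : ℕ → ℕ → ℕ → ℕ → Bool := onCell 536870912 536870912 0 536870912 67108864 67108864
    (rowFK 0 true true true .npp 1 0 2 (qsf 536870912 536870912 0 536870912 2) ndF0q1 ndF3q0 pcF2 Cut.none Ext.none)

def k0_pp_102 : ∃ t, chk3 f_pp_102 t 1 1 1 = true :=
  ⟨(l 4), by decide +kernel⟩

theorem c_pp_102 : CertF 536870912 536870912 0 536870912 67108864 67108864 true true true .npp 1 0 2
    ndF0q1 ndF3q0 pcF2 Cut.none Ext.none :=
  certFK0 (fam := true) (s1 := true) (s2 := true) (a := 1) (b := 0) (c := 2) (cn := .npp) (n1 := ndF0q1) (n2 := ndF3q0) (pc := pcF2) (cut := Cut.none) (xt := Ext.none) (P1 := 536870912) (W1 := 536870912) (P2 := 0) (W2 := 536870912) (P3 := 67108864) (W3 := 67108864)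
    rfl rfl rfl k0_pp_102

noncomputable def f_pp_112 : ℕ → ℕ → ℕ → ℕ → Bool := onCell 536870912 536870912 536870912 536870912 67108864 67108864
    (rowFK 0 true true true .dn 1 1 2 (qsf 536870912 536870912 536870912 536870912 2) ndF0q1 ndF3q1 pcF2 Cut.none Ext.none)

def k0_pp_112 : ∃ t, chk3 f_pp_112 t 1 1 1 = true :=
  ⟨(l 4), by decide +kernel⟩

theorem c_pp_112 : CertF 536870912 536870912 536870912 536870912 67108864 67108864 true true true .dn 1 1 2
    ndF0q1 ndF3q1 pcF2 Cut.none Ext.none :=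
  certFK0 (fam := true) (s1 := true) (s2 := true) (a := 1) (b := 1) (c := 2) (cn := .dn) (n1 := ndF0q1) (n2 := ndF3q1) (pc := pcF2) (cut := Cut.none) (xt := Ext.none) (P1 := 536870912) (W1 := 536870912) (P2 := 536870912) (W2 := 536870912) (P3 := 67108864) (W3 := 67108864)
    rfl rfl rfl k0_pp_112

noncomputable def f_pp_113 : ℕ → ℕ → ℕ → ℕ → Bool := onCell 536870912 536870912 536870912 536870912 67108864 67108864
    (rowFK 0 true true true .nn 1 1 3 (qsf 536870912 536870912 536870912 536870912 3) ndF0q1 ndF3q1 pcF3 Cut.none Ext.none)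

def k0_pp_113 : ∃ t, chk3 f_pp_113 t 1 1 1 = true :=
  ⟨(l 4), by decide +kernel⟩

theorem c_pp_113 : CertF 536870912 536870912 536870912 536870912 67108864 67108864 true true true .nn 1 1 3
    ndF0q1 ndF3q1 pcF3 Cut.none Ext.none :=
  certFK0 (fam := true) (s1 := true) (s2 := true) (a := 1) (b := 1) (c := 3) (cn := .nn) (n1 := ndF0q1) (n2 := ndF3q1) (pc := pcF3) (cut := Cut.none) (xt := Ext.none) (P1 := 536870912) (W1 := 536870912) (P2 := 536870912) (W2 := 536870912) (P3 := 67108864) (W3 := 67108864)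
    rfl rfl rfl k0_pp_113

noncomputable def f_pp_123 : ℕ → ℕ → ℕ → ℕ → Bool := onCell 536870912 536870912 1073741824 536870912 67108864 67108864
    (rowFK 0 true true true .npn 1 2 3 (qsf 536870912 536870912 1073741824 536870912 3) ndF0q1 ndF3q2 pcF3 Cut.none Ext.none)

def k0_pp_123 : ∃ t, chk3 f_pp_123 t 1 1 1 = true :=
  ⟨(l 4), by decide +kernel⟩

theorem c_pp_123 : CertF 536870912 536870912 1073741824 536870912 67108864 67108864 true true true .npn 1 2 3
    ndF0q1 ndF3q2 pcF3 Cut.none Ext.none :=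
  certFK0 (fam := true) (s1 := true) (s2 := true) (a := 1) (b := 2) (c := 3) (cn := .npn) (n1 := ndF0q1) (n2 := ndF3q2) (pc := pcF3) (cut := Cut.none) (xt := Ext.none) (P1 := 536870912) (W1 := 536870912) (P2 := 1073741824) (W2 := 536870912) (P3 := 67108864) (W3 := 67108864)
    rfl rfl rfl k0_pp_123

noncomputable def f_pp_133 : ℕ → ℕ → ℕ → ℕ → Bool := onCell 536870912 536870912 0 1230186008 67108864 67108864
    (rowFK 0 true true true .dn 1 3 3 (qsf 536870912 536870912 0 1230186008 3) ndF0q1 ndF3q3 pcF3 Cut.none Ext.none)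

def k0_pp_133 : ∃ t, chk3 f_pp_133 t 1 1 1 = true :=
  ⟨(l 4), by decide +kernel⟩

theorem c_pp_133 : CertF 536870912 536870912 0 1230186008 67108864 67108864 true true true .dn 1 3 3
    ndF0q1 ndF3q3 pcF3 Cut.none Ext.none :=
  certFK0 (fam := true) (s1 := true) (s2 := true) (a := 1) (b := 3) (c := 3) (cn := .dn) (n1 := ndF0q1) (n2 := ndF3q3) (pc := pcF3) (cut := Cut.none) (xt := Ext.none) (P1 := 536870912) (W1 := 536870912) (P2 := 0) (W2 := 1230186008) (P3 := 67108864) (W3 := 67108864)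
    rfl rfl rfl k0_pp_133

noncomputable def f_pp_202 : ℕ → ℕ → ℕ → ℕ → Bool := onCell 0 536870912 0 536870912 67108864 67108864
    (rowFK 0 true true true .pp 2 0 2 (qsf 0 536870912 0 536870912 2) ndF0q2 ndF3q0 pcF2 Cut.none Ext.none)

def k0_pp_202 : ∃ t, chk3 f_pp_202 t 1 1 1 = true :=
  ⟨(l 5), by decide +kernel⟩

theorem c_pp_202 : CertF 0 536870912 0 536870912 67108864 67108864 true true true .pp 2 0 2
    ndF0q2 ndF3q0 pcF2 Cut.none Ext.none :=
  certFK0 (fam := true) (s1 := true) (s2 := true) (a := 2) (b := 0) (c := 2) (cn := .pp) (n1 := ndF0q2) (n2 := ndF3q0) (pc := pcF2) (cut := Cut.none) (xt := Ext.none) (P1 := 0) (W1 := 536870912) (P2 := 0) (W2 := 536870912) (P3 := 67108864) (W3 := 67108864)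
    rfl rfl rfl k0_pp_202

noncomputable def f_pp_203 : ℕ → ℕ → ℕ → ℕ → Bool := onCell 0 536870912 0 536870912 67108864 67108864
    (rowFK 0 true true true .up 2 0 3 (qsf 0 536870912 0 536870912 3) ndF0q2 ndF3q0 pcF3 Cut.none Ext.none)

def k0_pp_203 : ∃ t, chk3 f_pp_203 t 1 1 1 = true :=
  ⟨(l 5), by decide +kernel⟩

theorem c_pp_203 : CertF 0 536870912 0 536870912 67108864 67108864 true true true .up 2 0 3
    ndF0q2 ndF3q0 pcF3 Cut.none Ext.none :=
  certFK0 (fam := true) (s1 := true) (s2 := true) (a := 2) (b := 0) (c := 3) (cn := .up) (n1 := ndF0q2) (n2 := ndF3q0) (pc := pcF3) (cut := Cut.none) (xt := Ext.none) (P1 := 0) (W1 := 536870912) (P2 := 0) (W2 := 536870912) (P3 := 67108864) (W3 := 67108864)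
    rfl rfl rfl k0_pp_203

noncomputable def f_pp_213 : ℕ → ℕ → ℕ → ℕ → Bool := onCell 0 536870912 536870912 536870912 67108864 67108864
    (rowFK 0 true true true .pnn 2 1 3 (qsf 0 536870912 536870912 536870912 3) ndF0q2 ndF3q1 pcF3 Cut.none Ext.none)

def k0_pp_213 : ∃ t, chk3 f_pp_213 t 1 1 1 = true :=
  ⟨(l 4), by decide +kernel⟩

theorem c_pp_213 : CertF 0 536870912 536870912 536870912 67108864 67108864 true true true .pnn 2 1 3
    ndF0q2 ndF3q1 pcF3 Cut.none Ext.none :=
  certFK0 (fam := true) (s1 := true) (s2 := true) (a := 2) (b := 1) (c := 3) (cn := .pnn) (n1 := ndF0q2) (n2 := ndF3q1) (pc := pcF3) (cut := Cut.none) (xt := Ext.none) (P1 := 0) (W1 := 536870912) (P2 := 536870912) (W2 := 536870912) (P3 := 67108864) (W3 := 67108864)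
    rfl rfl rfl k0_pp_213

noncomputable def f_pm_001 : ℕ → ℕ → ℕ → ℕ → Bool := onCell 0 536870912 0 536870912 67108864 67108864
    (rowFK 0 true true false .up 0 0 1 (qsf 0 536870912 0 536870912 1) ndF0q0 ndF3q0 pcF1 Cut.none Ext.none)

def k0_pm_001 : ∃ t, chk3 f_pm_001 t 1 1 1 = true :=
  ⟨(a (l 3) (b (l 3) (a (l 3) (b (l 3) (b (a (l 3) (l 270752100647)) (a (a (l 3) (a (l 3) (l 244445978823))) (a (a (l 114523107623) (l 116133610247)) (l 17597968)))))))), by decide +kernel⟩

theorem c_pm_001 : CertF 0 536870912 0 536870912 67108864 67108864 true true false .up 0 0 1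
    ndF0q0 ndF3q0 pcF1 Cut.none Ext.none :=
  certFK0 (fam := true) (s1 := true) (s2 := false) (a := 0) (b := 0) (c := 1) (cn := .up) (n1 := ndF0q0) (n2 := ndF3q0) (pc := pcF1) (cut := Cut.none) (xt := Ext.none) (P1 := 0) (W1 := 536870912) (P2 := 0) (W2 := 536870912) (P3 := 67108864) (W3 := 67108864)
    rfl rfl rfl k0_pm_001

noncomputable def cut_pm_011 : Cut := Cut.of [[⟨0, 0, 0, 67108864⟩, ⟨1, 1, 0, 67108864⟩, ⟨2, 1, 0, 67108864⟩]]

noncomputable def f_pm_011 : ℕ → ℕ → ℕ → ℕ → Bool := onCell 0 536870912 536870912 536870912 67108864 67108864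
    (rowFK 1 true true false .pnn 0 1 1 (qsf 0 536870912 536870912 536870912 1) ndF0q0 ndF3q1 pcF1 cut_pm_011 Ext.none)

def k0_pm_011 : ∃ t, chk3 f_pm_011 t 1 2 1 = true :=
  ⟨(l 3), by decide +kernel⟩

def k1_pm_011 : ∃ t, chk3 f_pm_011 t 2 6 1 = true :=
  ⟨(l 3), by decide +kernel⟩

def k2_pm_011 : ∃ t, chk3 f_pm_011 t 4 14 1 = true :=
  ⟨(l 3), by decide +kernel⟩

def k3_pm_011 : ∃ t, chk3 f_pm_011 t 8 15 1 = true :=
  ⟨(b (l 3) (b (l 3) (a (l 6) (b (a (l 3) (b (l 3) (b (l 3) (b (a (l 3) (c (a (b (l 3) (a (l 3) (a (l 16760392) (l 16759472)))) (c (a (a (l 2852105975) (l 16766928)) (c (l 2852121207) (l 16757064))) (l 7683890743))) (a (l 16745472) (l 16741808)))) (a (a (l 3) (a (l 6) (c (c (a (l 16746568) (l 2852085559)) (l 16751232)) (l 16740552)))) (c (c (a (b (a (l 16760600) (l 16758832)) (a (l 16759480) (l 16757776))) (c (a (l 16773016) (l 16772248)) (a (l 16756568) (l 16754904)))) (a (l 16743304) (l 16745112))) (a (l 16748328) (l 16744848)))))))) (a (l 6)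 (b (a (b (a (l 6) (a (l 6) (a (l 6) (b (c (l 16759128) (l 16737904)) (l 6))))) (l 6)) (c (b (b (a (a (a (l 16758264) (l 16757400)) (a (l 16756544) (l 16755688))) (c (a (l 16767616) (l 16773808)) (l 16753488))) (a (c (a (l 16755784) (l 16754072)) (l 16754784)) (a (a (l 16752720) (l 16751880)) (l 16763728)))) (a (c (a (b (l 16753648) (l 6)) (b (l 16751936) (l 16749792))) (l 16734544)) (a (b (l 16760656) (l 16748016)) (b (l 16758976) (l 16746336))))) (b (a (l 16738584) (l 16736448)) (a (l 16740896) (l 16737432))))) (a (l 6) (a (b (a (l 6) (a (l 6) (b (l 16746992) (l 6)))) (l 6)) (c (b (a (b (l 16745856) (l 16743680)) (b (l 16744176) (l 16742000))) (a (b (l 16741496) (l 6)) (b (l 16739808) (l 16737600)))) (b (l 16743608) (l 16739248))))))))))), by decide +kernel⟩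

def k4_pm_011 : ∃ t, chk3 f_pm_011 t 9 30 1 = true :=
  ⟨(l 3), by decide +kernel⟩

def k5_pm_011 : ∃ t, chk3 f_pm_011 t 18 62 1 = true :=
  ⟨(l 3), by decide +kernel⟩

def k6_pm_011 : ∃ t, chk3 f_pm_011 t 36 126 1 = true :=
  ⟨(b (b (l 3) (b (l 3) (b (l 3) (a (l 3) (a (l 3) (c (c (l 16912504) (l 4999566855)) (l 16739840))))))) (a (b (b (l 3) (a (b (l 3) (c (c (a (l 16771232) (l 16770608)) (l 16745584)) (l 16745256))) (c (a (c (l 3925854839) (l 16754104)) (c (l 16790632) (l 16752448))) (l 16737176)))) (b (a (c (c (a (a (l 16772024) (l 16767480)) (l 16770808)) (l 16736032)) (l 16743576)) (c (c (a (l 16771104) (l 16802112)) (l 16740640)) (l 16740272))) (a (c (c (a (l 16772648) (l 16765672)) (l 16752272)) (l 16751960)) (c (c (c (l 16827712) (l 16772928)) (l 16749032)) (l 16727688))))) (a (c (b (c (c (l 16961360) (a (b (l 16827384) (l 16817408)) (l 1241581335))) (a (b (l 16753152) (l 16750840)) (b (l 16751480) (l 16749288)))) (a (b (a (l 16760568) (l 16765744)) (l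 16766408)) (c (l 16795360) (l 16751384)))) (b (a (l 9294491015) (l 10368229543)) (l 16729448))) (c (a (c (b (l 16876072) (l 16845880)) (b (b (l 16749872) (l 16747752)) (l 16755088))) (b (c (l 16923032) (b (l 16748808) (l 16754000))) (c (l 16895600) (l 16753568)))) (b (a (l 11441968151) (l 16729064)) (l 16727608)))))), by decide +kernel⟩

def k7_pm_011 : ∃ t, chk3 f_pm_011 t 37 126 1 = true :=
  ⟨(b (a (b (l 3) (b (a (l 3) (b (l 3) (c (c (l 17066496) (l 6073314951)) (l 8220771367)))) (c (c (l 16941416) (a (a (l 16756496) (l 16760240)) (a (l 16774048) (l 16797896)))) (a (a (l 16737992) (l 16746888)) (a (l 16745352) (l 16743880)))))) (c (c (l 17083432) (a (b (l 3) (b (l 7683977463) (l 16811896))) (b (l 16864584) (l 16858984)))) (a (b (l 3) (b (a (l 16739336) (l 16743096)) (a (l 16742432) (l 16741008)))) (b (b (l 3) (a (l 8220764407) (l 10368245735))) (b (a (l 16741672) (l 16740296)) (l 16738912)))))) (c (c (a (a (b (l 16960904) (l 16937248)) (l 16968736)) (l 17039920))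 (a (b (b (a (c (l 16805448) (l 16729752)) (l 16766440)) (a (l 16754328) (l 16787592))) (a (a (l 16758272) (l 16767632)) (c (l 16835296) (l 16746064)))) (a (b (a (l 16810016) (l 16855696)) (l 16804768)) (b (l 16870760) (l 16857896))))) (a (a (b (a (l 16726872) (l 16733232)) (l 16729792)) (b (a (l 16742224) (l 16740760)) (l 16737288))) (b (a (a (l 16739312) (l 16737888)) (a (l 16736480) (l 16735096))) (a (l 16734392) (l 16731568)))))), by decide +kernel⟩

def k8_pm_011 : ∃ t, chk3 f_pm_011 t 18 254 1 = true :=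
  ⟨(a (a (a (c (b (b (a (a (l 16761992) (l 16761168)) (l 16762560)) (a (l 16759448) (l 16757816))) (a (b (l 16767800) (l 16744672)) (b (l 16766160) (l 16764000)))) (b (l 16738304) (l 16744528))) (c (c (b (b (l 16772008) (l 16775352)) (b (l 16767272) (l 16767264))) (b (a (l 16746656) (l 16745048)) (l 16724528))) (b (l 16735000) (l 16741216)))) (a (b (c (a (c (l 16774392) (l 16743464)) (a (l 16766048) (l 16765696))) (l 16742256)) (c (b (l 16765816) (l 16768904)) (l 16737976))) (b (c (b (l 16764840) (l 16769648)) (l 16739104)) (c (a (l 16764144) (l 16761032)) (l 16713840))))) (c (c (a (a (b (l 16888264) (l 16855296)) (a (l 16907984) (l 17021240))) (a (l 17063472) (l 17179488))) (a (b (a (c (l 16769896) (l 16736488)) (l 16782864)) (a (l 16753248) (l 16747808))) (b (a (l 16803280) (l 16840920)) (a (l 16796440) (l 16840336))))) (a (a (b (l 16736032) (l 16710760)) (b (l 16733040) (l 16707760))) (a (b (l 16730128) (l 16704840)) (b (l 16727304) (l 16722976)))))), by decide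 +kernel⟩

def k9_pm_011 : ∃ t, chk3 f_pm_011 t 18 255 1 = true :=
  ⟨(a (b (c (a (a (c (b (l 16762752) (l 16760568)) (l 16740496)) (b (l 16764648) (l 16757216))) (a (a (l 16766416) (l 16764848)) (b (l 16772184) (l 16750960)))) (a (l 16722808) (l 16721552))) (b (a (c (a (c (l 16758368) (l 16716248)) (l 16755024)) (l 16735264)) (c (a (l 16751848) (l 16748752)) (l 16728752))) (a (c (b (c (l 16755080) (l 16733904)) (a (l 16734544) (l 16752256))) (l 16733064)) (c (a (l 16765352) (l 16767496)) (l 16726544))))) (c (a (b (a (l 16767416) (c (l 16950344) (l 16747640))) (b (l 16767720) (a (l 16769072) (l 16775008)))) (c (b (l 17046248) (c (l 17234712) (l 16928576))) (b (a (l 16783592) (l 16813648)) (b (l 16793672) (l 16773824))))) (b (a (l 16715368) (c (l 16720240) (l 16698792))) (a (a (l 16702000) (l 16698984)) (a (l 16696048) (l 16714160)))))), by decide +kernel⟩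

def k10_pm_011 : ∃ t, chk3 f_pm_011 t 38 31 1 = true :=
  ⟨(a (b (l 3) (b (c (c (l 17133976) (b (b (l 16902208) (l 16901152)) (b (l 16897336) (l 16869592)))) (a (b (b (b (a (l 3) (a (l 7683892247) (l 8220763431))) (a (l 16739560) (l 16740320))) (b (a (l 16738936) (l 16737600)) (l 16736192))) (b (a (l 16733736) (l 16732400)) (l 16749808))) (b (c (b (c (l 16865288) (b (l 11978857815) (l 16746416))) (c (l 16874048) (l 16741136))) (b (b (a (l 16729736) (l 16728344)) (l 16737368)) (l 16723784))) (b (c (l 16782392) (l 16709128)) (l 16747168))))) (b (c (c (l 17252936) (b (l 16838576) (l 16824864))) (a (b (l 16724560) (l 16720224)) (b (l 16721904) (l 16717560)))) (b (c (c (l 17262880) (l 16807096)) (l 16735456)) (b (l 16763192) (b (l 16759600) (l 16760232))))))) (b (b (l 3) (b (l 3) (c (l 17047104) (b (l 3) (b (l 3) (a (b (l 3) (c (l 16801192) (l 11441975399))) (c (l 16879880) (a (l 13052584951) (l 16733120))))))))) (c (c (b (l 17292360) (l 17353688)) (b (b (l 17061968)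 (l 17023776)) (b (l 16892376) (b (l 17006616) (l 16952816))))) (b (a (b (b (b (c (l 16797416) (c (l 13589458807) (l 16726192))) (a (l 16745232) (l 16749568))) (a (l 16745000) (l 16744864))) (b (l 16746504) (l 16733928))) (b (b (c (l 16874208) (a (l 16732008) (l 16733224))) (c (l 16885352) (l 16730320))) (b (l 16745488) (l 16763544)))) (b (b (c (l 16791528) (l 16696744)) (l 16755672)) (b (l 16751256) (a (l 16706112) (l 16724584)))))))), by decide +kernel⟩

def k11_pm_011 : ∃ t, chk3 f_pm_011 t 39 31 1 = true :=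
  ⟨(b (b (l 3) (b (l 3) (c (l 17139712) (a (a (b (l 3) (c (l 16957344) (a (b (l 11441968071) (l 16735456)) (b (l 13589449351) (l 16753280))))) (c (l 16990824) (b (a (l 3) (a (l 33453754199) (l 7683966215))) (b (a (l 15200076327) (l 16773888)) (l 16737640))))) (c (l 17037336) (a (a (c (l 16895560) (b (l 7147111271) (l 16788352))) (b (l 7684012887) (l 16825000))) (b (l 8757787415) (l 16849440)))))))) (b (b (c (l 17173552) (c (a (a (l 16907408) (l 16985808)) (l 17038088)) (a (a (b (a (l 16742024) (l 16761008)) (l 16751488)) (b (l 16747008) (l 16792120))) (b (a (l 16804216) (l 16881248)) (l 16766424))))) (c (l 17140632) (a (b (c (l 16914608) (l 16749568)) (l 16761528)) (c (l 16989968) (b (l 16813368) (l 16815728)))))) (a (c (c (l 17435856) (b (l 17171824) (l 17126952))) (b (b (l 16771688) (l 16788864)) (b (l 16760328) (l 16748616)))) (c (l 17215360) (b (c (l 16954688) (l 16761400)) (b (l 16808232) (l 16785032))))))), by decide +kernel⟩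

def k12_pm_011 : ∃ t, chk3 f_pm_011 t 5 7 1 = true :=
  ⟨(b (l 3) (a (b (l 3) (a (b (a (b (l 3) (c (l 17333584) (a (c (l 17069616) (b (l 98415332855) (a (l 9294721543) (l 16956472)))) (b (l 16984368) (l 17012968))))) (c (l 17257096) (b (l 92509972455) (b (l 17016008) (l 17050456))))) (b (b (c (l 17362776) (a (a (a (l 16894192) (l 16968856)) (l 16994840)) (l 17039688))) (c (l 17404040) (a (c (l 17097744) (a (l 16843248) (l 16980280))) (l 17025264)))) (c (a (l 17381512) (l 17601200)) (b (a (c (l 17055392) (a (l 16833944) (l 16939384))) (l 16964584)) (a (a (a (l 16832728) (l 16859792)) (a (l 16926104) (l 16989952))) (a (l 17008120) (l 17186176))))))) (c (b (l 17399232) (l 17585080)) (b (a (b (l 17135744) (l 17220600)) (b (l 17275584) (l 17324728))) (b (a (l 17255024) (l 17368840)) (a (c (l 17399136) (l 17138312)) (l 17406568))))))) (b (b (l 3) (a (l 182168208151) (l 39897192903))) (b (a (a (l 17364680) (l 17554112)) (l 17639488)) (a (a (l 17467376) (l 17702528))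 (l 17789536)))))), by decide +kernel⟩

def k13_pm_011 : ∃ t, chk3 f_pm_011 t 3 3 1 = true :=
  ⟨(b (l 3) (b (a (l 3) (b (l 3) (a (l 169820806503) (l 200825391847)))) (a (b (a (b (l 3) (a (l 17598600) (l 17690784))) (b (l 17566784) (l 17811720))) (a (b (l 17720192) (l 17928976)) (l 18003552))) (b (a (l 17855096) (l 18022080)) (a (l 18127512) (l 18233544)))))), by decide +kernel⟩

theorem s14_pm_011 : ∃ t, chk3 f_pm_011 t 19 31 1 = true := ex3_a k10_pm_011 k11_pm_011

theorem s15_pm_011 : ∃ t, chk3 f_pm_011 t 18 127 1 = true := ex3_b k8_pm_011 k9_pm_011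

theorem s16_pm_011 : ∃ t, chk3 f_pm_011 t 18 126 1 = true := ex3_a k6_pm_011 k7_pm_011

theorem s17_pm_011 : ∃ t, chk3 f_pm_011 t 18 63 1 = true := ex3_b s16_pm_011 s15_pm_011

theorem s18_pm_011 : ∃ t, chk3 f_pm_011 t 18 31 1 = true := ex3_b k5_pm_011 s17_pm_011

theorem s19_pm_011 : ∃ t, chk3 f_pm_011 t 9 31 1 = true := ex3_a s18_pm_011 s14_pm_011

theorem s20_pm_011 : ∃ t, chk3 f_pm_011 t 9 15 1 = true := ex3_b k4_pm_011 s19_pm_011

theorem s21_pm_011 : ∃ t, chk3 f_pm_011 t 4 15 1 = true := ex3_a k3_pm_011 s20_pm_011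

theorem s22_pm_011 : ∃ t, chk3 f_pm_011 t 4 7 1 = true := ex3_b k2_pm_011 s21_pm_011

theorem s23_pm_011 : ∃ t, chk3 f_pm_011 t 2 7 1 = true := ex3_a s22_pm_011 k12_pm_011

theorem s24_pm_011 : ∃ t, chk3 f_pm_011 t 2 3 1 = true := ex3_b k1_pm_011 s23_pm_011

theorem s25_pm_011 : ∃ t, chk3 f_pm_011 t 1 3 1 = true := ex3_a s24_pm_011 k13_pm_011

theorem s26_pm_011 : ∃ t, chk3 f_pm_011 t 1 1 1 = true := ex3_b k0_pm_011 s25_pm_011

theorem c_pm_011 : CertF 0 536870912 536870912 536870912 67108864 67108864 true true false .pnn 0 1 1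
    ndF0q0 ndF3q1 pcF1 cut_pm_011 Ext.none :=
  certFK1 (fam := true) (s1 := true) (s2 := false) (a := 0) (b := 1) (c := 1) (cn := .pnn) (n1 := ndF0q0) (n2 := ndF3q1) (pc := pcF1) (cut := cut_pm_011) (xt := Ext.none) (P1 := 0) (W1 := 536870912) (P2 := 536870912) (W2 := 536870912) (P3 := 67108864) (W3 := 67108864)
    rfl rfl rfl (fun _ => rfl) s26_pm_011

noncomputable def cut_pm_012 : Cut := Cut.of [[⟨0, 0, 0, 67108864⟩, ⟨1, 1, 0, 67108864⟩, ⟨2, 1, 0, 67108864⟩]]

noncomputable def f_pm_012 : ℕ → ℕ → ℕ → ℕ → Bool := onCell 1073741824 536870912 536870912 536870912 67108864 67108864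
    (rowFK 2 true true false .pnp 0 1 2 (qsf 0 536870912 536870912 536870912 2) ndF0q0 ndF3q1 pcF2 cut_pm_012 Ext.none)

def k0_pm_012 : ∃ t, chk3 f_pm_012 t 2 2 1 = true :=
  ⟨(a (a (a (b (b (l 18424264) (l 18347504)) (b (l 18256864) (a (l 18080168) (l 18207824)))) (b (l 18569480) (a (l 18353840) (l 18449920)))) (b (l 18614448) (a (l 18560032) (l 18690392)))) (b (a (l 18715248) (l 2)) (a (l 18797064) (l 18836256)))), by decide +kernel⟩

def k1_pm_012 : ∃ t, chk3 f_pm_012 t 16 6 1 = true :=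
  ⟨(a (b (c (l 18078248) (b (l 17788368) (l 17592584))) (b (c (l 17905120) (a (b (l 17474936) (l 17237288)) (l 17483032))) (c (a (b (l 17711040) (l 17488464)) (l 17771032)) (a (b (c (l 17347912) (a (b (l 17118304) (l 17036096)) (l 17133576))) (c (a (b (l 17202264) (l 17113048)) (l 17223224)) (a (b (l 16839288) (l 16714776)) (l 16868648)))) (b (l 17279392) (c (l 17320344) (l 16854416))))))) (b (l 17880168) (b (c (l 18122608) (l 17529056)) (c (l 17922968) (b (l 17367120) (a (l 17140112) (l 17432792))))))), by decide +kernel⟩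

def k2_pm_012 : ∃ t, chk3 f_pm_012 t 16 28 1 = true :=
  ⟨(c (b (a (a (c (l 17593520) (a (b (l 17300640) (l 17182584)) (l 17329752))) (l 17453544)) (l 17576224)) (a (a (c (a (b (l 17420472) (l 17272880)) (l 17461720)) (a (a (b (l 16966696) (c (l 16985984) (l 16747520))) (b (l 17111536) (l 16918584))) (b (l 17172400) (l 16961160)))) (c (l 17598432) (a (l 16964936) (l 17196656)))) (c (l 17860904) (a (l 17197784) (l 17573248))))) (a (a (a (b (a (a (l 16710144) (l 16736320)) (l 16739304)) (a (b (l 16699504) (c (l 16704984) (l 16683560))) (l 16698736))) (b (l 16728216) (b (l 16691440) (l 16675384)))) (a (b (l 16814208) (b (l 16737968) (l 16668824))) (b (l 16883416) (l 16736448)))) (b (c (a (l 17169408) (l 17416328)) (a (l 16745080) (l 17009824))) (a (b (l 16844288) (l 16776936)) (a (l 16850968) (l 16889696)))))), by decide +kernel⟩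

def k3_pm_012 : ∃ t, chk3 f_pm_012 t 16 29 1 = true :=
  ⟨(a (a (b (b (a (c (c (c (l 17285928) (a (l 17007392) (l 17117912))) (a (a (l 16753736) (l 16795600)) (l 16806696))) (a (c (l 16700056) (l 16710192)) (l 16685872))) (b (l 16740776) (l 16745480))) (a (a (a (a (l 16736272) (l 16737992)) (l 16736640)) (a (l 16734856) (l 16733080))) (a (l 16751400) (l 16726920)))) (a (b (a (a (b (l 16737840) (l 16741032)) (l 16742800)) (c (l 16740280) (l 16718784))) (a (a (a (b (l 16729056) (l 16732416)) (l 16745480)) (a (l 16728792) (l 16727824))) (a (l 16747360) (l 16724480)))) (b (a (l 16749456) (l 16753680)) (c (a (l 16742864) (l 16718200)) (l 16719424))))) (b (a (b (l 16762536) (l 16753192)) (b (c (c (l 17489192) (l 17037144)) (l 16667128)) (l 16727128))) (a (a (b (l 16729112) (l 16750824)) (b (l 16725544) (l 16731392))) (a (b (l 16722016) (l 16727728)) (b (l 16697552) (l 16724104)))))) (b (c (c (a (b (l 17636120) (l 17497560)) (l 17776536)) (a (b (l 17052816) (a (l 16949344)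 (l 17093968))) (b (l 17406888) (l 17120632)))) (a (b (l 16699320) (l 16672504)) (b (l 16780536) (l 16649008)))) (b (a (a (l 16734320) (l 16718360)) (c (c (l 17599104) (a (l 16978048) (l 17131608))) (l 16663936))) (a (a (c (l 16742656) (l 16675992)) (l 16732656)) (a (l 16704800) (l 16690912)))))), by decide +kernel⟩

def k4_pm_012 : ∃ t, chk3 f_pm_012 t 16 15 1 = true :=
  ⟨(a (b (a (b (a (b (b (a (c (a (l 16735408) (l 16733472)) (l 16734280)) (l 16730432)) (a (l 6) (l 16733848))) (l 6)) (b (a (a (l 16727864) (l 16727216)) (a (l 16725264) (l 16723328))) (a (l 6) (b (l 16729328) (l 6))))) (l 6)) (b (a (b (c (b (l 16738312) (l 16704776)) (l 16707624)) (a (b (l 16725376) (l 6)) (a (l 16708352) (l 16706384)))) (c (b (b (l 16709968) (l 16713008)) (b (l 16716120) (l 16703592))) (b (l 16710368) (l 16701000)))) (b (a (l 6) (a (l 6) (b (l 16699192) (l 6)))) (l 6)))) (l 6)) (b (b (a (b (a (a (l 16726296) (l 16722608)) (a (l 16697976) (l 16694360))) (a (c (b (l 16708632)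 (l 16711696)) (l 16698384)) (b (l 16700472) (l 16703440)))) (b (a (c (l 16733888) (l 16666992)) (l 16702960)) (a (a (l 16717328) (l 16713648)) (a (l 16689032) (l 16685432))))) (a (b (a (c (b (l 16714840) (l 16702336)) (b (l 16692688) (l 16695960))) (c (b (l 16707224) (l 16710320)) (b (l 16684776) (l 16687928)))) (a (l 6) (a (l 6) (b (l 16689856) (l 6))))) (b (a (c (b (l 16678776) (l 16681744)) (l 16683736)) (b (l 16691376) (l 16694240))) (b (c (a (l 16705752) (l 16677192)) (a (l 16683128) (l 16675240))) (c (a (l 16693144) (l 16680176)) (a (l 16686304) (l 16678288))))))) (b (a (l 6) (a (l 6) (a (l 6) (b (b (l 16680360) (l 6)) (l 6))))) (l 6)))), by decide +kernel⟩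

def k5_pm_012 : ∃ t, chk3 f_pm_012 t 17 6 1 = true :=
  ⟨(b (a (a (l 18184208) (l 18254984)) (l 18353592)) (a (b (a (l 18045360) (l 18135704)) (c (l 18212944) (a (l 17557984) (l 17731096)))) (a (b (l 18222872) (l 18066648)) (l 18073272)))), by decide +kernel⟩

def k6_pm_012 : ∃ t, chk3 f_pm_012 t 17 14 1 = true :=
  ⟨(a (b (c (a (l 17836840) (l 18122408)) (a (b (l 17288232) (c (l 17320376) (l 16824368))) (b (l 17463088) (a (l 17189600) (l 17286784))))) (a (c (b (c (l 17961808) (l 17402664)) (c (b (l 17812128) (l 17681168)) (b (l 17190024) (a (l 16987696) (l 17150040))))) (b (b (l 16858384) (l 16785888)) (b (l 16640488) (l 16644720)))) (b (c (l 17773192) (a (l 16830800) (c (l 17324088) (l 16856288)))) (c (c (l 17958504) (a (b (l 17472792) (l 17308824)) (l 17354728))) (a (l 16638256) (b (l 16846776) (l 16629120))))))) (b (c (l 18313832) (b (a (l 17654760) (l 17776880)) (a (l 17250968) (l 17623584)))) (c (a (b (l 18084528) (a (l 17645112) (l 17908440))) (b (l 18236728)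 (l 18065216))) (b (a (c (l 17265712) (a (l 16947808) (l 17079096))) (b (l 17473200) (l 17203288))) (a (a (l 16679904) (l 16710416)) (b (l 16951728) (l 16775232))))))), by decide +kernel⟩

def k7_pm_012 : ∃ t, chk3 f_pm_012 t 17 30 1 = true :=
  ⟨(b (b (a (a (a (l 16696096) (l 16665704)) (c (c (l 17680104) (a (l 16999224) (l 17128160))) (a (l 16639160) (l 16632992)))) (c (c (l 17908792) (a (a (l 17357064) (l 17476000)) (l 17644888))) (a (a (l 16626688) (l 16621040)) (l 16686432)))) (a (a (a (a (l 16681864) (l 16678328)) (l 16694072)) (a (l 16687232) (l 16679400))) (c (c (a (l 17849240) (l 18084752)) (a (a (l 16928664) (l 17170960)) (a (l 17406928) (l 17531856)))) (a (a (l 16630632) (l 16624696)) (l 16627640))))) (b (a (b (a (a (l 16663072) (l 16655872)) (a (l 16648832) (l 16642360))) (a (a (l 16665800) (l 16658472)) (a (l 16651296) (l 16665656)))) (a (a (a (l 16638144) (l 16635040)) (l 16663976)) (c (c (l 17935584) (a (l 16943952) (l 17173648))) (a (l 16622408)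 (l 16616344))))) (b (a (a (a (l 16689584) (l 16661152)) (a (l 16653840) (l 16668064))) (a (a (l 16640192) (l 16633944)) (a (l 16627624) (l 16689960)))) (a (a (a (a (l 16673424) (l 16669600)) (l 16684888)) (a (l 16656464) (a (l 16650976) (l 16647464)))) (a (a (l 16663512) (l 16636160)) (a (l 16629696) (l 16623464))))))), by decide +kernel⟩

def k8_pm_012 : ∃ t, chk3 f_pm_012 t 34 31 1 = true :=
  ⟨(a (b (a (b (c (b (l 16675528) (l 16683792)) (b (l 16673408) (l 16676480))) (l 6)) (b (c (b (l 16667960) (l 16676088)) (b (l 16665544) (l 16668488))) (a (l 6) (b (l 16675936) (l 6))))) (l 6)) (b (a (b (c (b (l 16660536) (l 16663288)) (b (l 16657808) (l 16660632))) (b (c (l 16671360) (l 16663536)) (b (l 16674896) (l 6)))) (b (a (b (l 16653592) (l 16656280)) (b (l 16650000) (l 16652624))) (a (b (l 16659048) (a (l 16668112) (l 16660920))) (b (l 16660568) (a (l 16658976) (l 16657072)))))) (b (a (l 6) (a (l 6) (b (c (l 16667616) (l 16659544)) (l 6)))) (l 6)))), by decide +kernel⟩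

def k9_pm_012 : ∃ t, chk3 f_pm_012 t 70 31 1 = true :=
  ⟨(b (b (a (c (b (l 16646672) (l 16649152)) (b (l 16643280) (l 16645840))) (b (l 16659424) (a (l 16642120) (l 16638728)))) (c (a (b (l 16656952) (c (l 16660376) (l 16658808))) (b (l 16645088) (l 16652832))) (a (b (l 16648488) (l 16661688)) (b (l 16641504) (l 16644088))))) (b (a (a (b (b (l 16656432) (l 16663088)) (l 6)) (b (b (l 16652824) (l 16659448)) (a (l 6) (b (l 16654568) (l 6))))) (b (a (b (l 16649192) (l 16650544)) (a (l 16652304) (l 16650520))) (c (b (l 16657416) (l 16661392)) (a (l 16656216) (l 16647224))))) (b (a (l 6) (a (l 6) (b (c (l 16652664) (l 16649304)) (l 6)))) (l 6)))), by decide +kernel⟩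

def k10_pm_012 : ∃ t, chk3 f_pm_012 t 71 31 1 = true :=
  ⟨(b (b (b (a (l 16631848) (l 16625472)) (a (l 16655064) (l 16627576))) (b (a (l 16641656) (l 16635000)) (c (a (l 16640744) (l 16634128)) (a (l 16636896) (l 16629928))))) (b (b (c (a (l 16651056) (l 16641680)) (a (l 16649912) (l 16632320))) (b (c (a (l 16645088) (l 16638224)) (a (l 16641376) (l 16634176))) (c (a (l 16651616) (l 16639440)) (a (l 16653184) (l 16635432))))) (a (a (b (b (c (l 16649080) (l 16645560)) (c (l 16655672) (l 16646936))) (l 6)) (b (b (c (l 16645552) (l 16641864)) (c (l 16646864) (l 16643208))) (b (a (l 6) (c (l 16649840) (l 16643560))) (l 6)))) (b (b (c (l 16645920) (c (l 16637704) (l 16635712))) (a (c (l 16643360) (l 16639536)) (c (l 16639904) (l 16635904)))) (a (a (b (c (l 16648072) (l 16641712)) (l 6)) (b (c (l 16643696) (l 16639872)) (b (c (l 16644672) (l 16640880)) (l 6)))) (c (c (b (l 16642144) (b (l 16643096) (a (l 16644536) (l 16642800)))) (b (l 16640176) (b (l 16641144) (a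 (l 16642608) (l 16640832))))) (c (b (l 16638200) (b (l 16639176) (a (l 16640672) (l 16638864)))) (b (l 16636208) (a (l 16639712) (l 16636544)))))))))), by decide +kernel⟩

def k11_pm_012 : ∃ t, chk3 f_pm_012 t 9 6 1 = true :=
  ⟨(a (b (l 18522736) (a (b (l 18416512) (l 18344304)) (l 18535928))) (b (l 18718136) (l 18724240))), by decide +kernel⟩

def k12_pm_012 : ∃ t, chk3 f_pm_012 t 9 14 1 = true :=
  ⟨(b (a (c (l 18636848) (a (b (l 17947192) (l 17821264)) (l 18110904))) (l 18685560)) (a (c (a (b (l 18442744) (l 18332776)) (l 18654336)) (a (b (a (l 17427688) (l 17724696)) (c (a (l 17509632) (l 17728216)) (a (b (l 17165136) (l 16992296)) (l 17106056)))) (b (l 17931072) (a (l 17545712) (l 17829344))))) (c (l 18966928) (a (b (l 18174968) (l 18043608)) (l 18342904))))), by decide +kernel⟩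

def k13_pm_012 : ∃ t, chk3 f_pm_012 t 18 30 1 = true :=
  ⟨(b (c (a (c (l 18436688) (a (l 17596120) (l 17987096))) (l 18509024)) (a (b (c (a (l 17276848) (l 17529144)) (a (l 16784032) (l 17014280))) (a (l 16677968) (c (l 17317544) (l 16795528)))) (c (a (l 17611696) (l 17840760)) (a (b (l 17226376) (l 17016840)) (l 17113312))))) (c (a (c (a (b (l 18178456) (l 18023632)) (l 18338208)) (a (a (b (l 17437560) (a (l 17005104) (l 17105472))) (b (l 17589272) (l 17157224))) (b (l 17772472) (c (l 17754248) (l 17303304))))) (c (l 18637544) (a (l 17732360) (l 18134240)))) (a (a (b (l 16608704) (l 16627776)) (b (l 16650384) (l 16600480))) (c (a (b (l 17338776) (a (l 17028608) (l 17230320))) (b (l 17628480) (l 17361560))) (a (b (l 16787840) (l 16588136)) (b (l 17021008) (l 16740056))))))), by decide +kernel⟩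

def k14_pm_012 : ∃ t, chk3 f_pm_012 t 18 62 1 = true :=
  ⟨(b (a (a (b (b (l 16632712) (l 16623232)) (a (l 16621288) (l 16615232))) (c (c (l 18113176) (c (a (l 17450768) (l 17606656)) (b (l 17151752) (l 16832888)))) (a (l 16605720) (l 16599984)))) (c (c (l 18485440) (a (c (l 17821888) (l 17309904)) (l 17905760))) (a (l 16592432) (a (l 16689832) (c (l 17184056) (l 16610696)))))) (a (a (b (a (l 16623328) (l 16617128)) (a (l 16630704) (l 16624360))) (b (a (l 16611160) (c (c (l 18035576) (a (l 17045792) (l 17157032))) (l 16602464))) (a (l 16613000) (l 16607104)))) (c (c (a (l 18204304) (l 18467336)) (a (c (b (l 17652432) (l 17518896)) (b (l 17128048) (a (l 16978968) (l 17185992)))) (c (l 17891176) (l 17276400)))) (a (b (l 16594576) (l 16596104)) (l 16595008))))), by decide +kernel⟩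

def k15_pm_012 : ∃ t, chk3 f_pm_012 t 36 126 1 = true :=
  ⟨(a (a (b (c (l 16629912) (l 16625432)) (b (l 16637256) (a (l 16637232) (l 16633864)))) (b (a (l 16622552) (l 16619376)) (c (l 16630960) (l 16631448)))) (a (b (l 16621480) (b (l 16621672) (l 16622704))) (b (l 16614136) (a (l 16616032) (l 16611696))))), by decide +kernel⟩

def k16_pm_012 : ∃ t, chk3 f_pm_012 t 36 127 1 = true :=
  ⟨(b (b (a (c (a (l 16639144) (l 16627352)) (a (l 16629584) (l 16622672))) (a (c (l 16626832) (l 16615976)) (a (l 16618832) (l 16610512)))) (a (a (c (c (l 16641400) (l 16639264)) (c (l 16637128) (l 16629736))) (c (l 16631096) (c (l 16625000) (l 16622672)))) (a (c (l 16622080) (l 16617072)) (a (a (l 16619280) (l 16616400)) (a (l 16614840) (l 16613304)))))) (a (c (a (b (a (c (l 16638752) (l 16636696)) (l 16636968)) (b (a (c (l 16639680) (l 16637640)) (l 16635256)) (a (c (l 16642928) (l 16638928)) (c (l 16636920) (l 16634800))))) (a (b (l 16631016) (b (l 16631896) (c (l 16633600)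 (l 16631384)))) (b (l 16627744) (b (l 16628600) (a (l 16629944) (l 16628304)))))) (a (b (a (c (l 16634632) (l 16632560)) (l 16632656)) (a (b (c (l 16635584) (l 16633528)) (c (a (l 16637056) (l 16635272)) (l 16634176))) (b (l 16632288) (c (l 16632672) (l 16630536))))) (a (b (l 16626528) (b (l 16627448) (c (l 16629168) (l 16626944)))) (b (l 16623072) (b (l 16623960) (a (l 16628000) (l 16623640))))))) (b (a (a (c (l 16624528) (l 16619672)) (c (l 16621368) (l 16616320))) (b (a (c (l 16627128) (l 16612752)) (a (l 16615600) (l 16614048))) (c (l 16617960) (l 16614448)))) (a (a (b (c (l 16625352) (l 16620536)) (a (c (l 16626672) (l 16621920)) (c (l 16625056) (l 16620216)))) (c (b (l 16622168) (a (l 16623456) (l 16621864))) (c (l 16620000) (l 16616184)))) (a (b (c (l 16619032) (l 16613832)) (c (l 16619552) (l 16617000))) (a (c (l 16616928) (l 16614224)) (c (l 16614336) (l 16609976)))))))), by decide +kernel⟩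

def k17_pm_012 : ∃ t, chk3 f_pm_012 t 37 63 1 = true :=
  ⟨(a (b (a (b (l 16603080) (a (l 16608728) (l 16603200))) (b (c (c (l 18123288) (c (l 17457720) (l 16930144))) (l 16594256)) (a (l 16600344) (l 16594720)))) (b (b (a (a (l 16607488) (l 16604520)) (l 16605568)) (a (a (a (l 16611776) (l 16607640)) (l 16608056)) (a (l 16605104) (l 16599600)))) (c (c (c (a (l 17732688) (l 17967056)) (a (c (b (l 17377344) (l 17162520)) (b (l 16928352) (a (l 16697264) (l 16935960)))) (c (l 17556904) (b (l 17335320) (l 17145632))))) (a (b (l 16609464) (a (l 16611784) (l 16608760))) (b (l 16601488) (a (l 16605792) (l 16602880))))) (a (a (b (l 16606584) (a (l 16608360) (l 16606760))) (b (l 16603440) (l 16606392))) (b (l 16598976) (a (l 16603928) (l 16598240))))))) (c (c (b (l 18297072) (c (l 18312448) (b (l 17892032) (a (l 17638232) (l 17836944))))) (b (c (b (l 17714920) (l 17491664)) (b (l 17064488) (a (l 16860952) (l 17182288)))) (c (b (a (l 17124880) (l 17511536)) (b (a (c (l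 17296368) (l 16955888)) (l 17383016)) (a (c (l 17152544) (a (l 16761728) (l 16967816))) (l 17121344)))) (b (a (l 16595856) (c (l 17118952) (l 16738408))) (b (a (l 16633912) (c (l 16972424) (l 16705696))) (a (l 16597936) (l 16591648))))))) (b (b (l 16586480) (l 16598384)) (a (b (l 16591760) (b (l 16593008) (a (l 16595224) (l 16592272)))) (b (l 16586136) (b (l 16587264) (a (l 16589368) (l 16586520)))))))), by decide +kernel⟩

def k18_pm_012 : ∃ t, chk3 f_pm_012 t 19 30 1 = true :=
  ⟨(c (a (b (l 18793112) (l 18688224)) (l 19003376)) (a (a (b (l 17605024) (c (l 17676824) (b (l 17293200) (l 16984872)))) (b (l 17937816) (c (l 17957816) (b (l 17502056) (l 17328808))))) (b (l 18159304) (a (l 17647848) (l 18050344))))), by decide +kernel⟩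

def k19_pm_012 : ∃ t, chk3 f_pm_012 t 19 31 1 = true :=
  ⟨(b (c (a (c (l 18841976) (b (l 18247912) (l 17868800))) (l 18870856)) (a (c (b (a (l 17344008) (l 17733376)) (a (c (l 17308456) (b (l 17143088) (l 16917024))) (l 17307128))) (b (a (l 16673192) (l 16929456)) (a (l 16572600) (b (l 16866752) (l 16744440))))) (c (b (l 18048904) (l 17755576)) (b (a (l 17365920) (l 17587960)) (a (c (l 17308288) (l 16841704)) (l 17320696)))))) (c (a (c (b (l 18686600) (a (l 18391456) (l 18666864))) (b (a (c (l 17962168) (b (l 17623872) (l 17469600))) (l 18045176)) (a (c (b (l 17779336) (l 17403600)) (b (a (l 17118360) (l 17428880)) (a (c (l 16949080) (b (l 16990544) (l 16699160))) (b (l 17307864) (l 17115224))))) (c (l 18034864) (b (l 17680456) (l 17353432)))))) (c (l 19050080) (b (l 18403864) (a (l 18117240) (l 18370008))))) (a (b (a (b (l 16582560) (l 16577304)) (c (c (b (l 17542480) (l 17415112)) (b (l 17134224) (l 16776712))) (b (l 16626720) (l 16565440)))) (a (a (b (l 16580728)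 (b (l 16581752) (l 16582456))) (b (l 16575560) (c (l 16578752) (l 16574808)))) (b (a (l 16570624) (c (c (l 17355888) (l 16849008)) (l 16563680))) (a (a (l 16572856) (l 16570376)) (l 16566840))))) (c (b (a (c (l 17762928) (l 17242320)) (l 17844104)) (a (c (b (l 17592848) (l 17335288)) (b (l 17001480) (a (b (l 17009248) (l 16818840)) (l 17040208)))) (c (l 17820168) (b (l 17514600) (l 17326184))))) (b (a (b (l 16785408) (l 16636800)) (c (l 17262400) (b (l 17078776) (l 16904720)))) (a (b (l 16554864) (a (l 16559888) (l 16555392))) (c (b (l 17052432) (a (l 16760128) (l 17052776))) (b (l 16653192) (l 16552880))))))))), by decide +kernel⟩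

def k20_pm_012 : ∃ t, chk3 f_pm_012 t 5 3 1 = true :=
  ⟨(b (a (b (l 18897976) (l 18982136)) (l 19059760)) (b (a (a (b (l 18952824) (l 18946848)) (l 19147360)) (l 19317008)) (b (a (a (c (l 19296912) (a (b (l 18412432) (l 18278400)) (l 18582736))) (l 19200648)) (l 19470624)) (a (a (c (a (b (l 19153480) (l 19056904)) (l 19359472)) (a (b (c (l 18348720) (b (l 17879768) (l 17675088))) (c (b (l 18174360) (a (l 17901712) (l 18133640))) (b (a (l 17256064) (l 17679344)) (b (a (c (l 17444192) (l 17066600)) (l 17538520)) (a (c (l 17303632) (a (l 16808544) (l 17049312))) (l 17264144)))))) (b (l 18403328) (c (l 18487944) (b (l 17990816) (a (l 17732136) (l 17953016))))))) (c (l 19622424) (b (l 18773400) (l 18509504)))) (l 19568256))))), by decide +kernel⟩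

def k21_pm_012 : ∃ t, chk3 f_pm_012 t 3 1 1 = true :=
  ⟨(b (a (b (l 2) (l 18831472)) (l 2)) (b (a (l 19262448) (l 19270816)) (a (b (l 19411240) (a (l 19685368) (l 19696872))) (a (l 19487496) (l 19413376))))), by decide +kernel⟩

theorem s22_pm_012 : ∃ t, chk3 f_pm_012 t 19 15 1 = true := ex3_b k18_pm_012 k19_pm_012

theorem s23_pm_012 : ∃ t, chk3 f_pm_012 t 36 63 1 = true := ex3_b k15_pm_012 k16_pm_012

theorem s24_pm_012 : ∃ t, chk3 f_pm_012 t 18 63 1 = true := ex3_a s23_pm_012 k17_pm_012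

theorem s25_pm_012 : ∃ t, chk3 f_pm_012 t 18 31 1 = true := ex3_b k14_pm_012 s24_pm_012

theorem s26_pm_012 : ∃ t, chk3 f_pm_012 t 18 15 1 = true := ex3_b k13_pm_012 s25_pm_012

theorem s27_pm_012 : ∃ t, chk3 f_pm_012 t 9 15 1 = true := ex3_a s26_pm_012 s22_pm_012

theorem s28_pm_012 : ∃ t, chk3 f_pm_012 t 9 7 1 = true := ex3_b k12_pm_012 s27_pm_012

theorem s29_pm_012 : ∃ t, chk3 f_pm_012 t 9 3 1 = true := ex3_b k11_pm_012 s28_pm_012

theorem s30_pm_012 : ∃ t, chk3 f_pm_012 t 35 31 1 = true := ex3_a k9_pm_012 k10_pm_012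

theorem s31_pm_012 : ∃ t, chk3 f_pm_012 t 17 31 1 = true := ex3_a k8_pm_012 s30_pm_012

theorem s32_pm_012 : ∃ t, chk3 f_pm_012 t 17 15 1 = true := ex3_b k7_pm_012 s31_pm_012

theorem s33_pm_012 : ∃ t, chk3 f_pm_012 t 17 7 1 = true := ex3_b k6_pm_012 s32_pm_012

theorem s34_pm_012 : ∃ t, chk3 f_pm_012 t 17 3 1 = true := ex3_b k5_pm_012 s33_pm_012

theorem s35_pm_012 : ∃ t, chk3 f_pm_012 t 16 14 1 = true := ex3_b k2_pm_012 k3_pm_012

theorem s36_pm_012 : ∃ t, chk3 f_pm_012 t 16 7 1 = true := ex3_b s35_pm_012 k4_pm_012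

theorem s37_pm_012 : ∃ t, chk3 f_pm_012 t 16 3 1 = true := ex3_b k1_pm_012 s36_pm_012

theorem s38_pm_012 : ∃ t, chk3 f_pm_012 t 8 3 1 = true := ex3_a s37_pm_012 s34_pm_012

theorem s39_pm_012 : ∃ t, chk3 f_pm_012 t 4 3 1 = true := ex3_a s38_pm_012 s29_pm_012

theorem s40_pm_012 : ∃ t, chk3 f_pm_012 t 2 3 1 = true := ex3_a s39_pm_012 k20_pm_012

theorem s41_pm_012 : ∃ t, chk3 f_pm_012 t 2 1 1 = true := ex3_b k0_pm_012 s40_pm_012

theorem s42_pm_012 : ∃ t, chk3 f_pm_012 t 1 1 1 = true := ex3_a s41_pm_012 k21_pm_012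

theorem c_pm_012 : CertF 0 536870912 536870912 536870912 67108864 67108864 true true false .pnp 0 1 2
    ndF0q0 ndF3q1 pcF2 cut_pm_012 Ext.none :=
  certFK2 (fam := true) (s1 := true) (s2 := false) (a := 0) (b := 1) (c := 2) (cn := .pnp) (n1 := ndF0q0) (n2 := ndF3q1) (pc := pcF2) (cut := cut_pm_012) (xt := Ext.none) (P1 := 0) (W1 := 536870912) (P2 := 536870912) (W2 := 536870912) (P3 := 67108864) (W3 := 67108864)
    rfl rfl rfl (fun _ => rfl) s42_pm_012

noncomputable def f_pm_022 : ℕ → ℕ → ℕ → ℕ → Bool := onCell 0 536870912 1073741824 536870912 67108864 67108864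
    (rowFK 1 true true false .pp 0 2 2 (qsf 0 536870912 1073741824 536870912 2) ndF0q0 ndF3q2 pcF2 Cut.none Ext.none)

def k0_pm_022 : ∃ t, chk3 f_pm_022 t 1 1 1 = true :=
  ⟨(b (b (l 3) (a (b (b (b (l 3) (b (a (a (c (l 18294544) (a (b (l 53319096839) (l 17500384)) (l 17482064))) (l 51708715607)) (l 3)) (a (b (a (c (l 18359752) (a (l 17562024) (l 17580200))) (l 17782344)) (a (a (b (b (l 18033728) (l 18108384)) (l 18125664)) (b (l 17977152) (l 18001584))) (b (l 17822248) (l 17847840)))) (a (b (l 34931406695) (b (a (l 17731784) (l 1)) (l 17730752))) (l 1))))) (a (a (a (l 18086984) (l 18182312)) (l 18037128)) (a (a (l 17941976) (l 17923896)) (l 265787057511)))) (a (a (l 18559160) (l 18382936)) (a (l 18259336) (l 204046902199)))) (b (l 1) (a (b (l 1) (l 296926377479)) (l 1))))) (a (a (b (l 18741200) (b (l 18810440) (l 18786888))) (a (l 18589856) (l 18670152))) (a (b (b (l 229818077463) (l 18408104)) (l 18353472)) (b (l 297463564855) (l 18313888))))), by decide +kernel⟩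

theorem c_pm_022 : CertF 0 536870912 1073741824 536870912 67108864 67108864 true true false .pp 0 2 2
    ndF0q0 ndF3q2 pcF2 Cut.none Ext.none :=
  certFK1 (fam := true) (s1 := true) (s2 := false) (a := 0) (b := 2) (c := 2) (cn := .pp) (n1 := ndF0q0) (n2 := ndF3q2) (pc := pcF2) (cut := Cut.none) (xt := Ext.none) (P1 := 0) (W1 := 536870912) (P2 := 1073741824) (W2 := 536870912) (P3 := 67108864) (W3 := 67108864)
    rfl rfl rfl (fun _ => rfl) k0_pm_022

noncomputable def f_pm_023 : ℕ → ℕ → ℕ → ℕ → Bool := onCell 0 536870912 1073741824 536870912 67108864 67108864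
    (rowFK 0 true true false .up 0 2 3 (qsf 0 536870912 1073741824 536870912 3) ndF0q0 ndF3q2 pcF3 Cut.none Ext.none)

def k0_pm_023 : ∃ t, chk3 f_pm_023 t 1 1 1 = true :=
  ⟨(a (b (a (l 1) (l 279209977031)) (a (b (l 280284299607) (b (l 317328273223) (l 18859464))) (b (l 299074513143) (b (l 18381440) (a (l 18583440) (l 18367032)))))) (b (a (l 216396361239) (l 195457807095)) (b (a (b (l 18220224) (l 18124896)) (b (l 17851568) (l 17744112))) (a (b (l 18154168) (l 18163576)) (b (l 17660616) (a (l 17666864) (b (l 17503448) (a (l 17499312) (b (l 17422040) (a (l 17419712) (b (l 17380080) (a (l 17379704) (b (l 17359552) (l 4)))))))))))))), by decide +kernel⟩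

theorem c_pm_023 : CertF 0 536870912 1073741824 536870912 67108864 67108864 true true false .up 0 2 3
    ndF0q0 ndF3q2 pcF3 Cut.none Ext.none :=
  certFK0 (fam := true) (s1 := true) (s2 := false) (a := 0) (b := 2) (c := 3) (cn := .up) (n1 := ndF0q0) (n2 := ndF3q2) (pc := pcF3) (cut := Cut.none) (xt := Ext.none) (P1 := 0) (W1 := 536870912) (P2 := 1073741824) (W2 := 536870912) (P3 := 67108864) (W3 := 67108864)
    rfl rfl rfl k0_pm_023

noncomputable def f_pm_033 : ℕ → ℕ → ℕ → ℕ → Bool := onCell 1610612736 536870912 0 1230186008 67108864 67108864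
    (rowFK 2 true true false .pnn 0 3 3 (qsf 0 536870912 0 1230186008 3) ndF0q0 ndF3q3 pcF3 Cut.none Ext.none)

def k0_pm_033 : ∃ t, chk3 f_pm_033 t 1 1 1 = true :=
  ⟨(a (b (l 1) (b (a (l 1) (a (l 1) (b (l 1) (l 17463744)))) (a (b (l 1) (b (a (l 1) (l 18591776)) (a (l 18310600) (l 18078880)))) (b (a (l 17958856) (l 17486592)) (b (l 17687640) (a (l 17710528) (l 17309664))))))) (a (b (l 1) (b (a (b (l 1) (l 17512696)) (l 17648144)) (b (a (l 17307488) (l 17168824)) (a (l 17338744) (l 17467568))))) (b (l 4) (a (b (l 17552152) (b (l 17034064) (l 17408608))) (b (l 4) (a (b (l 16929832) (l 17355888)) (a (l 17331784) (b (l 4) (a (l 17263016) (l 4)))))))))), by decide +kernel⟩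

theorem c_pm_033 : CertF 0 536870912 0 1230186008 67108864 67108864 true true false .pnn 0 3 3
    ndF0q0 ndF3q3 pcF3 Cut.none Ext.none :=
  certFK2 (fam := true) (s1 := true) (s2 := false) (a := 0) (b := 3) (c := 3) (cn := .pnn) (n1 := ndF0q0) (n2 := ndF3q3) (pc := pcF3) (cut := Cut.none) (xt := Ext.none) (P1 := 0) (W1 := 536870912) (P2 := 0) (W2 := 1230186008) (P3 := 67108864) (W3 := 67108864)
    rfl rfl rfl (fun _ => rfl) k0_pm_033

noncomputable def f_pm_101 : ℕ → ℕ → ℕ → ℕ → Bool := onCell 536870912 536870912 0 536870912 67108864 67108864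
    (rowFK 2 true true false .npn 1 0 1 (qsf 536870912 536870912 0 536870912 1) ndF0q1 ndF3q0 pcF1 Cut.none Ext.none)

def k0_pm_101 : ∃ t, chk3 f_pm_101 t 1 1 1 = true :=
  ⟨(a (l 3) (b (a (b (l 3) (l 3)) (b (a (a (b (a (b (a (b (l 136000052135) (l 131704690631)) (l 18751128)) (l 18585216)) (l 18735872)) (l 149958021047)) (b (l 18854280) (l 18551400))) (b (a (l 19030008) (l 19221448)) (l 18813008))) (a (b (a (l 18079720) (l 18234336)) (l 186464633559)) (b (l 18490464) (l 18164536))))) (a (l 3) (b (a (b (l 192369660727) (l 148345787895)) (b (l 17860504) (l 17587992))) (a (a (l 3) (b (l 214380847767) (l 407520357335))) (b (l 17467504) (l 396246243479))))))), by decide +kernel⟩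

theorem c_pm_101 : CertF 536870912 536870912 0 536870912 67108864 67108864 true true false .npn 1 0 1
    ndF0q1 ndF3q0 pcF1 Cut.none Ext.none :=
  certFK2 (fam := true) (s1 := true) (s2 := false) (a := 1) (b := 0) (c := 1) (cn := .npn) (n1 := ndF0q1) (n2 := ndF3q0) (pc := pcF1) (cut := Cut.none) (xt := Ext.none) (P1 := 536870912) (W1 := 536870912) (P2 := 0) (W2 := 536870912) (P3 := 67108864) (W3 := 67108864)
    rfl rfl rfl (fun _ => rfl) k0_pm_101

noncomputable def f_pm_102 : ℕ → ℕ → ℕ → ℕ → Bool := onCell 536870912 536870912 1073741824 536870912 67108864 67108864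
    (rowFK 1 true true false .npp 1 0 2 (qsf 536870912 536870912 0 536870912 2) ndF0q1 ndF3q0 pcF2 Cut.none Ext.none)

def k0_pm_102 : ∃ t, chk3 f_pm_102 t 1 1 1 = true :=
  ⟨(a (b (b (b (b (a (l 17457192) (l 17825280)) (a (l 17562520) (l 17687192))) (a (l 17499392) (l 17506520))) (a (l 17548024) (l 17359064))) (a (l 2) (b (l 16971688) (l 2)))) (b (b (b (b (a (l 18444928) (l 19098216)) (a (l 18271392) (l 18909696))) (a (l 18028352) (l 18639304))) (a (b (l 17723256) (l 17425520)) (b (l 18288712) (l 17961320)))) (b (a (l 17077584) (l 17546064)) (a (l 17098000) (l 17365696))))), by decide +kernel⟩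

theorem c_pm_102 : CertF 536870912 536870912 0 536870912 67108864 67108864 true true false .npp 1 0 2
    ndF0q1 ndF3q0 pcF2 Cut.none Ext.none :=
  certFK1 (fam := true) (s1 := true) (s2 := false) (a := 1) (b := 0) (c := 2) (cn := .npp) (n1 := ndF0q1) (n2 := ndF3q0) (pc := pcF2) (cut := Cut.none) (xt := Ext.none) (P1 := 536870912) (W1 := 536870912) (P2 := 0) (W2 := 536870912) (P3 := 67108864) (W3 := 67108864)
    rfl rfl rfl (fun _ => rfl) k0_pm_102

noncomputable def f_pm_112 : ℕ → ℕ → ℕ → ℕ → Bool := onCell 536870912 536870912 1073741824 536870912 67108864 67108864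
    (rowFK 1 true true false .dn 1 1 2 (qsf 536870912 536870912 536870912 536870912 2) ndF0q1 ndF3q1 pcF2 Cut.none Ext.none)

def k0_pm_112 : ∃ t, chk3 f_pm_112 t 1 1 1 = true :=
  ⟨(a (a (b (b (b (b (l 18503920) (l 18539272)) (l 18614584)) (l 18752640)) (l 19055248)) (b (b (b (l 1) (l 18640456)) (l 18672328)) (l 18836840))) (b (b (l 1) (l 245924803847)) (b (l 18716360) (l 18547032)))), by decide +kernel⟩

theorem c_pm_112 : CertF 536870912 536870912 536870912 536870912 67108864 67108864 true true false .dn 1 1 2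
    ndF0q1 ndF3q1 pcF2 Cut.none Ext.none :=
  certFK1 (fam := true) (s1 := true) (s2 := false) (a := 1) (b := 1) (c := 2) (cn := .dn) (n1 := ndF0q1) (n2 := ndF3q1) (pc := pcF2) (cut := Cut.none) (xt := Ext.none) (P1 := 536870912) (W1 := 536870912) (P2 := 536870912) (W2 := 536870912) (P3 := 67108864) (W3 := 67108864)
    rfl rfl rfl (fun _ => rfl) k0_pm_112

noncomputable def f_pm_113 : ℕ → ℕ → ℕ → ℕ → Bool := onCell 536870912 536870912 1610612736 536870912 67108864 67108864
    (rowFK 1 true true false .nn 1 1 3 (qsf 536870912 536870912 536870912 536870912 3) ndF0q1 ndF3q1 pcF3 Cut.none Ext.none)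

def k0_pm_113 : ∃ t, chk3 f_pm_113 t 1 1 1 = true :=
  ⟨(a (b (b (a (b (l 18818368) (l 18913840)) (l 18328448)) (a (b (l 19118056) (l 2)) (l 18680368))) (b (b (l 238476830135) (l 2)) (l 2))) (b (b (a (l 18038144) (l 18110240)) (a (l 18401872) (l 17905000))) (b (b (l 18155856) (l 18250120)) (l 4)))), by decide +kernel⟩

theorem c_pm_113 : CertF 536870912 536870912 536870912 536870912 67108864 67108864 true true false .nn 1 1 3
    ndF0q1 ndF3q1 pcF3 Cut.none Ext.none :=
  certFK1 (fam := true) (s1 := true) (s2 := false) (a := 1) (b := 1) (c := 3) (cn := .nn) (n1 := ndF0q1) (n2 := ndF3q1) (pc := pcF3) (cut := Cut.none) (xt := Ext.none) (P1 := 536870912) (W1 := 536870912) (P2 := 536870912) (W2 := 536870912) (P3 := 67108864) (W3 := 67108864)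
    rfl rfl rfl (fun _ => rfl) k0_pm_113

noncomputable def f_pm_123 : ℕ → ℕ → ℕ → ℕ → Bool := onCell 536870912 536870912 1610612736 536870912 67108864 67108864
    (rowFK 1 true true false .npn 1 2 3 (qsf 536870912 536870912 1073741824 536870912 3) ndF0q1 ndF3q2 pcF3 Cut.none Ext.none)

def k0_pm_123 : ∃ t, chk3 f_pm_123 t 1 1 1 = true :=
  ⟨(b (a (a (l 161097619559) (l 166466132151)) (b (l 1) (a (a (b (l 1) (l 17765320)) (l 1)) (l 1)))) (b (a (a (l 17681184) (b (l 17581248) (l 17436944))) (a (b (b (l 132106230887) (l 17713992)) (a (l 17449896) (l 17340800))) (b (l 1) (a (l 17149048) (l 1))))) (a (b (a (l 17388112) (l 17464424)) (b (a (l 17318384) (l 17192720)) (b (a (l 17297672) (l 17143456)) (b (a (l 17273920) (l 17120584)) (a (b (l 17260496) (l 17249512)) (b (l 17109528) (a (l 17142680) (l 17077512)))))))) (b (a (a (l 17165784) (l 17085056)) (l 17082264)) (b (a (l 17030848) (l 16996344)) (b (a (l 16985752) (l 17000128)) (b (l 162907647543) (a (b (l 16993040)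 (l 17007424)) (l 4))))))))), by decide +kernel⟩

theorem c_pm_123 : CertF 536870912 536870912 1073741824 536870912 67108864 67108864 true true false .npn 1 2 3
    ndF0q1 ndF3q2 pcF3 Cut.none Ext.none :=
  certFK1 (fam := true) (s1 := true) (s2 := false) (a := 1) (b := 2) (c := 3) (cn := .npn) (n1 := ndF0q1) (n2 := ndF3q2) (pc := pcF3) (cut := Cut.none) (xt := Ext.none) (P1 := 536870912) (W1 := 536870912) (P2 := 1073741824) (W2 := 536870912) (P3 := 67108864) (W3 := 67108864)
    rfl rfl rfl (fun _ => rfl) k0_pm_123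

noncomputable def f_pm_133 : ℕ → ℕ → ℕ → ℕ → Bool := onCell 536870912 536870912 0 1230186008 67108864 67108864
    (rowFK 0 true true false .dn 1 3 3 (qsf 536870912 536870912 0 1230186008 3) ndF0q1 ndF3q3 pcF3 Cut.none Ext.none)

def k0_pm_133 : ∃ t, chk3 f_pm_133 t 1 1 1 = true :=
  ⟨(b (l 2) (b (l 2) (a (b (l 2) (a (l 4) (l 2))) (l 2)))), by decide +kernel⟩

theorem c_pm_133 : CertF 536870912 536870912 0 1230186008 67108864 67108864 true true false .dn 1 3 3
    ndF0q1 ndF3q3 pcF3 Cut.none Ext.none :=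
  certFK0 (fam := true) (s1 := true) (s2 := false) (a := 1) (b := 3) (c := 3) (cn := .dn) (n1 := ndF0q1) (n2 := ndF3q3) (pc := pcF3) (cut := Cut.none) (xt := Ext.none) (P1 := 536870912) (W1 := 536870912) (P2 := 0) (W2 := 1230186008) (P3 := 67108864) (W3 := 67108864)
    rfl rfl rfl k0_pm_133

noncomputable def f_pm_202 : ℕ → ℕ → ℕ → ℕ → Bool := onCell 0 536870912 1073741824 536870912 67108864 67108864
    (rowFK 1 true true false .pp 2 0 2 (qsf 0 536870912 0 536870912 2) ndF0q2 ndF3q0 pcF2 Cut.none Ext.none)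

def k0_pm_202 : ∃ t, chk3 f_pm_202 t 1 1 1 = true :=
  ⟨(a (b (b (b (l 1) (l 19294528)) (b (l 19089864) (l 18852080))) (b (l 18401704) (l 17636664))) (b (a (b (b (l 1) (l 19205288)) (l 18808432)) (b (b (b (l 19454360) (l 19293712)) (l 19054416)) (l 18578168))) (b (l 18304712) (a (l 17551072) (l 17397552))))), by decide +kernel⟩

theorem c_pm_202 : CertF 0 536870912 0 536870912 67108864 67108864 true true false .pp 2 0 2
    ndF0q2 ndF3q0 pcF2 Cut.none Ext.none :=
  certFK1 (fam := true) (s1 := true) (s2 := false) (a := 2) (b := 0) (c := 2) (cn := .pp) (n1 := ndF0q2) (n2 := ndF3q0) (pc := pcF2) (cut := Cut.none) (xt := Ext.none) (P1 := 0) (W1 := 536870912) (P2 := 0) (W2 := 536870912) (P3 := 67108864) (W3 := 67108864)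
    rfl rfl rfl (fun _ => rfl) k0_pm_202

noncomputable def f_pm_203 : ℕ → ℕ → ℕ → ℕ → Bool := onCell 0 536870912 1610612736 536870912 67108864 67108864
    (rowFK 1 true true false .up 2 0 3 (qsf 0 536870912 0 536870912 3) ndF0q2 ndF3q0 pcF3 Cut.none Ext.none)

def k0_pm_203 : ∃ t, chk3 f_pm_203 t 1 1 1 = true :=
  ⟨(a (l 4) (b (b (b (l 17511320) (l 17623840)) (b (l 4) (l 2))) (l 2))), by decide +kernel⟩

theorem c_pm_203 : CertF 0 536870912 0 536870912 67108864 67108864 true true false .up 2 0 3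
    ndF0q2 ndF3q0 pcF3 Cut.none Ext.none :=
  certFK1 (fam := true) (s1 := true) (s2 := false) (a := 2) (b := 0) (c := 3) (cn := .up) (n1 := ndF0q2) (n2 := ndF3q0) (pc := pcF3) (cut := Cut.none) (xt := Ext.none) (P1 := 0) (W1 := 536870912) (P2 := 0) (W2 := 536870912) (P3 := 67108864) (W3 := 67108864)
    rfl rfl rfl (fun _ => rfl) k0_pm_203

noncomputable def f_pm_213 : ℕ → ℕ → ℕ → ℕ → Bool := onCell 0 536870912 536870912 536870912 67108864 67108864
    (rowFK 0 true true false .pnn 2 1 3 (qsf 0 536870912 536870912 536870912 3) ndF0q2 ndF3q1 pcF3 Cut.none Ext.none)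

def k0_pm_213 : ∃ t, chk3 f_pm_213 t 1 1 1 = true :=
  ⟨(a (l 4) (a (l 4) (b (b (b (l 18214512) (l 18182712)) (l 4)) (l 4)))), by decide +kernel⟩

theorem c_pm_213 : CertF 0 536870912 536870912 536870912 67108864 67108864 true true false .pnn 2 1 3
    ndF0q2 ndF3q1 pcF3 Cut.none Ext.none :=
  certFK0 (fam := true) (s1 := true) (s2 := false) (a := 2) (b := 1) (c := 3) (cn := .pnn) (n1 := ndF0q2) (n2 := ndF3q1) (pc := pcF3) (cut := Cut.none) (xt := Ext.none) (P1 := 0) (W1 := 536870912) (P2 := 536870912) (W2 := 536870912) (P3 := 67108864) (W3 := 67108864)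
    rfl rfl rfl k0_pm_213

noncomputable def f_mm_001 : ℕ → ℕ → ℕ → ℕ → Bool := onCell 0 536870912 0 536870912 67108864 67108864
    (rowFK 0 true false false .up 0 0 1 (qsf 0 536870912 0 536870912 1) ndF0q0 ndF3q0 pcF1 Cut.none Ext.none)

def k0_mm_001 : ∃ t, chk3 f_mm_001 t 1 1 1 = true :=
  ⟨(l 4), by decide +kernel⟩

theorem c_mm_001 : CertF 0 536870912 0 536870912 67108864 67108864 true false false .up 0 0 1
    ndF0q0 ndF3q0 pcF1 Cut.none Ext.none :=
  certFK0 (fam := true) (s1 := false) (s2 := false) (a := 0) (b := 0) (c := 1) (cn := .up) (n1 := ndF0q0) (n2 := ndF3q0) (pc := pcF1) (cut := Cut.none) (xt := Ext.none) (P1 := 0) (W1 := 536870912) (P2 := 0) (W2 := 536870912) (P3 := 67108864) (W3 := 67108864)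
    rfl rfl rfl k0_mm_001

noncomputable def f_mm_011 : ℕ → ℕ → ℕ → ℕ → Bool := onCell 0 536870912 536870912 536870912 67108864 67108864
    (rowFK 0 true false false .pnn 0 1 1 (qsf 0 536870912 536870912 536870912 1) ndF0q0 ndF3q1 pcF1 Cut.none Ext.none)

def k0_mm_011 : ∃ t, chk3 f_mm_011 t 1 1 1 = true :=
  ⟨(l 4), by decide +kernel⟩

theorem c_mm_011 : CertF 0 536870912 536870912 536870912 67108864 67108864 true false false .pnn 0 1 1
    ndF0q0 ndF3q1 pcF1 Cut.none Ext.none :=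
  certFK0 (fam := true) (s1 := false) (s2 := false) (a := 0) (b := 1) (c := 1) (cn := .pnn) (n1 := ndF0q0) (n2 := ndF3q1) (pc := pcF1) (cut := Cut.none) (xt := Ext.none) (P1 := 0) (W1 := 536870912) (P2 := 536870912) (W2 := 536870912) (P3 := 67108864) (W3 := 67108864)
    rfl rfl rfl k0_mm_011

noncomputable def f_mm_012 : ℕ → ℕ → ℕ → ℕ → Bool := onCell 0 536870912 536870912 536870912 67108864 67108864
    (rowFK 0 true false false .pnp 0 1 2 (qsf 0 536870912 536870912 536870912 2) ndF0q0 ndF3q1 pcF2 Cut.none Ext.none)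

def k0_mm_012 : ∃ t, chk3 f_mm_012 t 1 1 1 = true :=
  ⟨(l 4), by decide +kernel⟩

theorem c_mm_012 : CertF 0 536870912 536870912 536870912 67108864 67108864 true false false .pnp 0 1 2
    ndF0q0 ndF3q1 pcF2 Cut.none Ext.none :=
  certFK0 (fam := true) (s1 := false) (s2 := false) (a := 0) (b := 1) (c := 2) (cn := .pnp) (n1 := ndF0q0) (n2 := ndF3q1) (pc := pcF2) (cut := Cut.none) (xt := Ext.none) (P1 := 0) (W1 := 536870912) (P2 := 536870912) (W2 := 536870912) (P3 := 67108864) (W3 := 67108864)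
    rfl rfl rfl k0_mm_012

noncomputable def f_mm_022 : ℕ → ℕ → ℕ → ℕ → Bool := onCell 0 536870912 1073741824 536870912 67108864 67108864
    (rowFK 0 true false false .pp 0 2 2 (qsf 0 536870912 1073741824 536870912 2) ndF0q0 ndF3q2 pcF2 Cut.none Ext.none)

def k0_mm_022 : ∃ t, chk3 f_mm_022 t 1 1 1 = true :=
  ⟨(l 4), by decide +kernel⟩

theorem c_mm_022 : CertF 0 536870912 1073741824 536870912 67108864 67108864 true false false .pp 0 2 2
    ndF0q0 ndF3q2 pcF2 Cut.none Ext.none :=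
  certFK0 (fam := true) (s1 := false) (s2 := false) (a := 0) (b := 2) (c := 2) (cn := .pp) (n1 := ndF0q0) (n2 := ndF3q2) (pc := pcF2) (cut := Cut.none) (xt := Ext.none) (P1 := 0) (W1 := 536870912) (P2 := 1073741824) (W2 := 536870912) (P3 := 67108864) (W3 := 67108864)
    rfl rfl rfl k0_mm_022

noncomputable def f_mm_023 : ℕ → ℕ → ℕ → ℕ → Bool := onCell 0 536870912 1073741824 536870912 67108864 67108864
    (rowFK 0 true false false .up 0 2 3 (qsf 0 536870912 1073741824 536870912 3) ndF0q0 ndF3q2 pcF3 Cut.none Ext.none)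

def k0_mm_023 : ∃ t, chk3 f_mm_023 t 1 1 1 = true :=
  ⟨(l 4), by decide +kernel⟩

theorem c_mm_023 : CertF 0 536870912 1073741824 536870912 67108864 67108864 true false false .up 0 2 3
    ndF0q0 ndF3q2 pcF3 Cut.none Ext.none :=
  certFK0 (fam := true) (s1 := false) (s2 := false) (a := 0) (b := 2) (c := 3) (cn := .up) (n1 := ndF0q0) (n2 := ndF3q2) (pc := pcF3) (cut := Cut.none) (xt := Ext.none) (P1 := 0) (W1 := 536870912) (P2 := 1073741824) (W2 := 536870912) (P3 := 67108864) (W3 := 67108864)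
    rfl rfl rfl k0_mm_023

noncomputable def f_mm_033 : ℕ → ℕ → ℕ → ℕ → Bool := onCell 0 536870912 0 1230186008 67108864 67108864
    (rowFK 0 true false false .pnn 0 3 3 (qsf 0 536870912 0 1230186008 3) ndF0q0 ndF3q3 pcF3 Cut.none Ext.none)

def k0_mm_033 : ∃ t, chk3 f_mm_033 t 1 1 1 = true :=
  ⟨(l 5), by decide +kernel⟩

theorem c_mm_033 : CertF 0 536870912 0 1230186008 67108864 67108864 true false false .pnn 0 3 3
    ndF0q0 ndF3q3 pcF3 Cut.none Ext.none :=
  certFK0 (fam := true) (s1 := false) (s2 := false) (a := 0) (b := 3) (c := 3) (cn := .pnn) (n1 := ndF0q0) (n2 := ndF3q3) (pc := pcF3) (cut := Cut.none) (xt := Ext.none) (P1 := 0) (W1 := 536870912) (P2 := 0) (W2 := 1230186008) (P3 := 67108864) (W3 := 67108864)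
    rfl rfl rfl k0_mm_033

noncomputable def f_mm_101 : ℕ → ℕ → ℕ → ℕ → Bool := onCell 536870912 536870912 0 536870912 67108864 67108864
    (rowFK 0 true false false .npn 1 0 1 (qsf 536870912 536870912 0 536870912 1) ndF0q1 ndF3q0 pcF1 Cut.none Ext.none)

def k0_mm_101 : ∃ t, chk3 f_mm_101 t 1 1 1 = true :=
  ⟨(l 4), by decide +kernel⟩

theorem c_mm_101 : CertF 536870912 536870912 0 536870912 67108864 67108864 true false false .npn 1 0 1
    ndF0q1 ndF3q0 pcF1 Cut.none Ext.none :=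
  certFK0 (fam := true) (s1 := false) (s2 := false) (a := 1) (b := 0) (c := 1) (cn := .npn) (n1 := ndF0q1) (n2 := ndF3q0) (pc := pcF1) (cut := Cut.none) (xt := Ext.none) (P1 := 536870912) (W1 := 536870912) (P2 := 0) (W2 := 536870912) (P3 := 67108864) (W3 := 67108864)
    rfl rfl rfl k0_mm_101

noncomputable def f_mm_102 : ℕ → ℕ → ℕ → ℕ → Bool := onCell 536870912 536870912 0 536870912 67108864 67108864
    (rowFK 0 true false false .npp 1 0 2 (qsf 536870912 536870912 0 536870912 2) ndF0q1 ndF3q0 pcF2 Cut.none Ext.none)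

def k0_mm_102 : ∃ t, chk3 f_mm_102 t 1 1 1 = true :=
  ⟨(l 4), by decide +kernel⟩

theorem c_mm_102 : CertF 536870912 536870912 0 536870912 67108864 67108864 true false false .npp 1 0 2
    ndF0q1 ndF3q0 pcF2 Cut.none Ext.none :=
  certFK0 (fam := true) (s1 := false) (s2 := false) (a := 1) (b := 0) (c := 2) (cn := .npp) (n1 := ndF0q1) (n2 := ndF3q0) (pc := pcF2) (cut := Cut.none) (xt := Ext.none) (P1 := 536870912) (W1 := 536870912) (P2 := 0) (W2 := 536870912) (P3 := 67108864) (W3 := 67108864)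
    rfl rfl rfl k0_mm_102

noncomputable def f_mm_112 : ℕ → ℕ → ℕ → ℕ → Bool := onCell 536870912 536870912 536870912 536870912 67108864 67108864
    (rowFK 0 true false false .dn 1 1 2 (qsf 536870912 536870912 536870912 536870912 2) ndF0q1 ndF3q1 pcF2 Cut.none Ext.none)

def k0_mm_112 : ∃ t, chk3 f_mm_112 t 1 1 1 = true :=
  ⟨(l 4), by decide +kernel⟩

theorem c_mm_112 : CertF 536870912 536870912 536870912 536870912 67108864 67108864 true false false .dn 1 1 2
    ndF0q1 ndF3q1 pcF2 Cut.none Ext.none :=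
  certFK0 (fam := true) (s1 := false) (s2 := false) (a := 1) (b := 1) (c := 2) (cn := .dn) (n1 := ndF0q1) (n2 := ndF3q1) (pc := pcF2) (cut := Cut.none) (xt := Ext.none) (P1 := 536870912) (W1 := 536870912) (P2 := 536870912) (W2 := 536870912) (P3 := 67108864) (W3 := 67108864)
    rfl rfl rfl k0_mm_112

noncomputable def f_mm_113 : ℕ → ℕ → ℕ → ℕ → Bool := onCell 536870912 536870912 536870912 536870912 67108864 67108864
    (rowFK 0 true false false .nn 1 1 3 (qsf 536870912 536870912 536870912 536870912 3) ndF0q1 ndF3q1 pcF3 Cut.none Ext.none)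

def k0_mm_113 : ∃ t, chk3 f_mm_113 t 1 1 1 = true :=
  ⟨(l 4), by decide +kernel⟩

theorem c_mm_113 : CertF 536870912 536870912 536870912 536870912 67108864 67108864 true false false .nn 1 1 3
    ndF0q1 ndF3q1 pcF3 Cut.none Ext.none :=
  certFK0 (fam := true) (s1 := false) (s2 := false) (a := 1) (b := 1) (c := 3) (cn := .nn) (n1 := ndF0q1) (n2 := ndF3q1) (pc := pcF3) (cut := Cut.none) (xt := Ext.none) (P1 := 536870912) (W1 := 536870912) (P2 := 536870912) (W2 := 536870912) (P3 := 67108864) (W3 := 67108864)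
    rfl rfl rfl k0_mm_113

noncomputable def f_mm_123 : ℕ → ℕ → ℕ → ℕ → Bool := onCell 536870912 536870912 1073741824 536870912 67108864 67108864
    (rowFK 0 true false false .npn 1 2 3 (qsf 536870912 536870912 1073741824 536870912 3) ndF0q1 ndF3q2 pcF3 Cut.none Ext.none)

def k0_mm_123 : ∃ t, chk3 f_mm_123 t 1 1 1 = true :=
  ⟨(l 4), by decide +kernel⟩

theorem c_mm_123 : CertF 536870912 536870912 1073741824 536870912 67108864 67108864 true false false .npn 1 2 3
    ndF0q1 ndF3q2 pcF3 Cut.none Ext.none :=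
  certFK0 (fam := true) (s1 := false) (s2 := false) (a := 1) (b := 2) (c := 3) (cn := .npn) (n1 := ndF0q1) (n2 := ndF3q2) (pc := pcF3) (cut := Cut.none) (xt := Ext.none) (P1 := 536870912) (W1 := 536870912) (P2 := 1073741824) (W2 := 536870912) (P3 := 67108864) (W3 := 67108864)
    rfl rfl rfl k0_mm_123

noncomputable def f_mm_133 : ℕ → ℕ → ℕ → ℕ → Bool := onCell 536870912 536870912 0 1230186008 67108864 67108864
    (rowFK 0 true false false .dn 1 3 3 (qsf 536870912 536870912 0 1230186008 3) ndF0q1 ndF3q3 pcF3 Cut.none Ext.none)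

def k0_mm_133 : ∃ t, chk3 f_mm_133 t 1 1 1 = true :=
  ⟨(l 4), by decide +kernel⟩

theorem c_mm_133 : CertF 536870912 536870912 0 1230186008 67108864 67108864 true false false .dn 1 3 3
    ndF0q1 ndF3q3 pcF3 Cut.none Ext.none :=
  certFK0 (fam := true) (s1 := false) (s2 := false) (a := 1) (b := 3) (c := 3) (cn := .dn) (n1 := ndF0q1) (n2 := ndF3q3) (pc := pcF3) (cut := Cut.none) (xt := Ext.none) (P1 := 536870912) (W1 := 536870912) (P2 := 0) (W2 := 1230186008) (P3 := 67108864) (W3 := 67108864)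
    rfl rfl rfl k0_mm_133

noncomputable def f_mm_202 : ℕ → ℕ → ℕ → ℕ → Bool := onCell 0 536870912 0 536870912 67108864 67108864
    (rowFK 0 true false false .pp 2 0 2 (qsf 0 536870912 0 536870912 2) ndF0q2 ndF3q0 pcF2 Cut.none Ext.none)

def k0_mm_202 : ∃ t, chk3 f_mm_202 t 1 1 1 = true :=
  ⟨(b (a (b (b (l 19173368) (l 18675240)) (l 4)) (l 4)) (l 4)), by decide +kernel⟩

theorem c_mm_202 : CertF 0 536870912 0 536870912 67108864 67108864 true false false .pp 2 0 2
    ndF0q2 ndF3q0 pcF2 Cut.none Ext.none :=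
  certFK0 (fam := true) (s1 := false) (s2 := false) (a := 2) (b := 0) (c := 2) (cn := .pp) (n1 := ndF0q2) (n2 := ndF3q0) (pc := pcF2) (cut := Cut.none) (xt := Ext.none) (P1 := 0) (W1 := 536870912) (P2 := 0) (W2 := 536870912) (P3 := 67108864) (W3 := 67108864)
    rfl rfl rfl k0_mm_202

noncomputable def f_mm_203 : ℕ → ℕ → ℕ → ℕ → Bool := onCell 0 536870912 1610612736 536870912 67108864 67108864
    (rowFK 1 true false false .up 2 0 3 (qsf 0 536870912 0 536870912 3) ndF0q2 ndF3q0 pcF3 Cut.none Ext.none)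

def k0_mm_203 : ∃ t, chk3 f_mm_203 t 1 1 1 = true :=
  ⟨(l 4), by decide +kernel⟩

theorem c_mm_203 : CertF 0 536870912 0 536870912 67108864 67108864 true false false .up 2 0 3
    ndF0q2 ndF3q0 pcF3 Cut.none Ext.none :=
  certFK1 (fam := true) (s1 := false) (s2 := false) (a := 2) (b := 0) (c := 3) (cn := .up) (n1 := ndF0q2) (n2 := ndF3q0) (pc := pcF3) (cut := Cut.none) (xt := Ext.none) (P1 := 0) (W1 := 536870912) (P2 := 0) (W2 := 536870912) (P3 := 67108864) (W3 := 67108864)
    rfl rfl rfl (fun _ => rfl) k0_mm_203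

noncomputable def f_mm_213 : ℕ → ℕ → ℕ → ℕ → Bool := onCell 0 536870912 536870912 536870912 67108864 67108864
    (rowFK 0 true false false .pnn 2 1 3 (qsf 0 536870912 536870912 536870912 3) ndF0q2 ndF3q1 pcF3 Cut.none Ext.none)

def k0_mm_213 : ∃ t, chk3 f_mm_213 t 1 1 1 = true :=
  ⟨(l 4), by decide +kernel⟩

theorem c_mm_213 : CertF 0 536870912 536870912 536870912 67108864 67108864 true false false .pnn 2 1 3
    ndF0q2 ndF3q1 pcF3 Cut.none Ext.none :=
  certFK0 (fam := true) (s1 := false) (s2 := false) (a := 2) (b := 1) (c := 3) (cn := .pnn) (n1 := ndF0q2) (n2 := ndF3q1) (pc := pcF3) (cut := Cut.none) (xt := Ext.none) (P1 := 0) (W1 := 536870912) (P2 := 536870912) (W2 := 536870912) (P3 := 67108864) (W3 := 67108864)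
    rfl rfl rfl k0_mm_213

end Pool.Agent.Strip051.G.I1_16_1_8.Tab.C.FA03

namespace Pool.Agent.Strip051.G.I1_16_1_8.Tab.C.FA04

open Pool.Agent.Strip051.PB Pool.Agent.Strip051.PB.T
open Pool.Agent.Strip051.G.I1_16_1_8.Tab

noncomputable def cut_pp_001 : Cut := Cut.of [[⟨3, 0, 0, 1449551462⟩]]

noncomputable def f_pp_001 : ℕ → ℕ → ℕ → ℕ → Bool := onCell 0 536870912 0 536870912 67108864 67108864
    (rowFK 0 true true true .up 0 0 1 (qsf 0 536870912 0 536870912 1) ndF0q0 ndF4q0 pcF1 cut_pp_001 Ext.none)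

def k0_pp_001 : ∃ t, chk3 f_pp_001 t 1 1 1 = true :=
  ⟨(l 4), by decide +kernel⟩

theorem c_pp_001 : CertF 0 536870912 0 536870912 67108864 67108864 true true true .up 0 0 1
    ndF0q0 ndF4q0 pcF1 cut_pp_001 Ext.none :=
  certFK0 (fam := true) (s1 := true) (s2 := true) (a := 0) (b := 0) (c := 1) (cn := .up) (n1 := ndF0q0) (n2 := ndF4q0) (pc := pcF1) (cut := cut_pp_001) (xt := Ext.none) (P1 := 0) (W1 := 536870912) (P2 := 0) (W2 := 536870912) (P3 := 67108864) (W3 := 67108864)
    rfl rfl rfl k0_pp_001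

noncomputable def cut_pp_011 : Cut := Cut.of [[⟨3, 0, 0, 1449551462⟩]]

noncomputable def f_pp_011 : ℕ → ℕ → ℕ → ℕ → Bool := onCell 0 536870912 536870912 536870912 67108864 67108864
    (rowFK 0 true true true .pnn 0 1 1 (qsf 0 536870912 536870912 536870912 1) ndF0q0 ndF4q1 pcF1 cut_pp_011 Ext.none)

def k0_pp_011 : ∃ t, chk3 f_pp_011 t 1 1 1 = true :=
  ⟨(l 4), by decide +kernel⟩

theorem c_pp_011 : CertF 0 536870912 536870912 536870912 67108864 67108864 true true true .pnn 0 1 1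
    ndF0q0 ndF4q1 pcF1 cut_pp_011 Ext.none :=
  certFK0 (fam := true) (s1 := true) (s2 := true) (a := 0) (b := 1) (c := 1) (cn := .pnn) (n1 := ndF0q0) (n2 := ndF4q1) (pc := pcF1) (cut := cut_pp_011) (xt := Ext.none) (P1 := 0) (W1 := 536870912) (P2 := 536870912) (W2 := 536870912) (P3 := 67108864) (W3 := 67108864)
    rfl rfl rfl k0_pp_011

noncomputable def cut_pp_012 : Cut := Cut.of [[⟨3, 0, 0, 1449551462⟩]]

noncomputable def f_pp_012 : ℕ → ℕ → ℕ → ℕ → Bool := onCell 0 536870912 536870912 536870912 67108864 67108864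
    (rowFK 0 true true true .pnp 0 1 2 (qsf 0 536870912 536870912 536870912 2) ndF0q0 ndF4q1 pcF2 cut_pp_012 Ext.none)

def k0_pp_012 : ∃ t, chk3 f_pp_012 t 1 1 1 = true :=
  ⟨(l 4), by decide +kernel⟩

theorem c_pp_012 : CertF 0 536870912 536870912 536870912 67108864 67108864 true true true .pnp 0 1 2
    ndF0q0 ndF4q1 pcF2 cut_pp_012 Ext.none :=
  certFK0 (fam := true) (s1 := true) (s2 := true) (a := 0) (b := 1) (c := 2) (cn := .pnp) (n1 := ndF0q0) (n2 := ndF4q1) (pc := pcF2) (cut := cut_pp_012) (xt := Ext.none) (P1 := 0) (W1 := 536870912) (P2 := 536870912) (W2 := 536870912) (P3 := 67108864) (W3 := 67108864)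
    rfl rfl rfl k0_pp_012

noncomputable def cut_pp_022 : Cut := Cut.of [[⟨3, 0, 0, 1449551462⟩]]

noncomputable def f_pp_022 : ℕ → ℕ → ℕ → ℕ → Bool := onCell 0 536870912 1073741824 536870912 67108864 67108864
    (rowFK 0 true true true .pp 0 2 2 (qsf 0 536870912 1073741824 536870912 2) ndF0q0 ndF4q2 pcF2 cut_pp_022 Ext.none)

def k0_pp_022 : ∃ t, chk3 f_pp_022 t 1 1 1 = true :=
  ⟨(l 4), by decide +kernel⟩

theorem c_pp_022 : CertF 0 536870912 1073741824 536870912 67108864 67108864 true true true .pp 0 2 2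
    ndF0q0 ndF4q2 pcF2 cut_pp_022 Ext.none :=
  certFK0 (fam := true) (s1 := true) (s2 := true) (a := 0) (b := 2) (c := 2) (cn := .pp) (n1 := ndF0q0) (n2 := ndF4q2) (pc := pcF2) (cut := cut_pp_022) (xt := Ext.none) (P1 := 0) (W1 := 536870912) (P2 := 1073741824) (W2 := 536870912) (P3 := 67108864) (W3 := 67108864)
    rfl rfl rfl k0_pp_022

noncomputable def cut_pp_023 : Cut := Cut.of [[⟨3, 0, 0, 1449551462⟩]]

noncomputable def f_pp_023 : ℕ → ℕ → ℕ → ℕ → Bool := onCell 0 536870912 1073741824 536870912 67108864 67108864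
    (rowFK 0 true true true .up 0 2 3 (qsf 0 536870912 1073741824 536870912 3) ndF0q0 ndF4q2 pcF3 cut_pp_023 Ext.none)

def k0_pp_023 : ∃ t, chk3 f_pp_023 t 1 1 1 = true :=
  ⟨(l 4), by decide +kernel⟩

theorem c_pp_023 : CertF 0 536870912 1073741824 536870912 67108864 67108864 true true true .up 0 2 3
    ndF0q0 ndF4q2 pcF3 cut_pp_023 Ext.none :=
  certFK0 (fam := true) (s1 := true) (s2 := true) (a := 0) (b := 2) (c := 3) (cn := .up) (n1 := ndF0q0) (n2 := ndF4q2) (pc := pcF3) (cut := cut_pp_023) (xt := Ext.none) (P1 := 0) (W1 := 536870912) (P2 := 1073741824) (W2 := 536870912) (P3 := 67108864) (W3 := 67108864)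
    rfl rfl rfl k0_pp_023

noncomputable def cut_pp_033 : Cut := Cut.of [[⟨3, 0, 0, 1449551462⟩]]

noncomputable def f_pp_033 : ℕ → ℕ → ℕ → ℕ → Bool := onCell 0 536870912 0 1230186008 67108864 67108864
    (rowFK 0 true true true .pnn 0 3 3 (qsf 0 536870912 0 1230186008 3) ndF0q0 ndF4q3 pcF3 cut_pp_033 Ext.none)

def k0_pp_033 : ∃ t, chk3 f_pp_033 t 1 1 1 = true :=
  ⟨(l 4), by decide +kernel⟩

theorem c_pp_033 : CertF 0 536870912 0 1230186008 67108864 67108864 true true true .pnn 0 3 3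
    ndF0q0 ndF4q3 pcF3 cut_pp_033 Ext.none :=
  certFK0 (fam := true) (s1 := true) (s2 := true) (a := 0) (b := 3) (c := 3) (cn := .pnn) (n1 := ndF0q0) (n2 := ndF4q3) (pc := pcF3) (cut := cut_pp_033) (xt := Ext.none) (P1 := 0) (W1 := 536870912) (P2 := 0) (W2 := 1230186008) (P3 := 67108864) (W3 := 67108864)
    rfl rfl rfl k0_pp_033

noncomputable def cut_pp_101 : Cut := Cut.of [[⟨3, 0, 0, 1449551462⟩]]

noncomputable def f_pp_101 : ℕ → ℕ → ℕ → ℕ → Bool := onCell 536870912 536870912 0 536870912 67108864 67108864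
    (rowFK 0 true true true .npn 1 0 1 (qsf 536870912 536870912 0 536870912 1) ndF0q1 ndF4q0 pcF1 cut_pp_101 Ext.none)

def k0_pp_101 : ∃ t, chk3 f_pp_101 t 1 1 1 = true :=
  ⟨(l 4), by decide +kernel⟩

theorem c_pp_101 : CertF 536870912 536870912 0 536870912 67108864 67108864 true true true .npn 1 0 1
    ndF0q1 ndF4q0 pcF1 cut_pp_101 Ext.none :=
  certFK0 (fam := true) (s1 := true) (s2 := true) (a := 1) (b := 0) (c := 1) (cn := .npn) (n1 := ndF0q1) (n2 := ndF4q0) (pc := pcF1) (cut := cut_pp_101) (xt := Ext.none) (P1 := 536870912) (W1 := 536870912) (P2 := 0) (W2 := 536870912) (P3 := 67108864) (W3 := 67108864)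
    rfl rfl rfl k0_pp_101

noncomputable def cut_pp_102 : Cut := Cut.of [[⟨3, 0, 0, 1449551462⟩]]

noncomputable def f_pp_102 : ℕ → ℕ → ℕ → ℕ → Bool := onCell 536870912 536870912 0 536870912 67108864 67108864
    (rowFK 0 true true true .npp 1 0 2 (qsf 536870912 536870912 0 536870912 2) ndF0q1 ndF4q0 pcF2 cut_pp_102 Ext.none)

def k0_pp_102 : ∃ t, chk3 f_pp_102 t 1 1 1 = true :=
  ⟨(l 4), by decide +kernel⟩

theorem c_pp_102 : CertF 536870912 536870912 0 536870912 67108864 67108864 true true true .npp 1 0 2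
    ndF0q1 ndF4q0 pcF2 cut_pp_102 Ext.none :=
  certFK0 (fam := true) (s1 := true) (s2 := true) (a := 1) (b := 0) (c := 2) (cn := .npp) (n1 := ndF0q1) (n2 := ndF4q0) (pc := pcF2) (cut := cut_pp_102) (xt := Ext.none) (P1 := 536870912) (W1 := 536870912) (P2 := 0) (W2 := 536870912) (P3 := 67108864) (W3 := 67108864)
    rfl rfl rfl k0_pp_102

noncomputable def cut_pp_112 : Cut := Cut.of [[⟨3, 0, 0, 1449551462⟩]]

noncomputable def f_pp_112 : ℕ → ℕ → ℕ → ℕ → Bool := onCell 536870912 536870912 536870912 536870912 67108864 67108864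
    (rowFK 0 true true true .dn 1 1 2 (qsf 536870912 536870912 536870912 536870912 2) ndF0q1 ndF4q1 pcF2 cut_pp_112 Ext.none)

def k0_pp_112 : ∃ t, chk3 f_pp_112 t 1 1 1 = true :=
  ⟨(l 4), by decide +kernel⟩

theorem c_pp_112 : CertF 536870912 536870912 536870912 536870912 67108864 67108864 true true true .dn 1 1 2
    ndF0q1 ndF4q1 pcF2 cut_pp_112 Ext.none :=
  certFK0 (fam := true) (s1 := true) (s2 := true) (a := 1) (b := 1) (c := 2) (cn := .dn) (n1 := ndF0q1) (n2 := ndF4q1) (pc := pcF2) (cut := cut_pp_112) (xt := Ext.none) (P1 := 536870912) (W1 := 536870912) (P2 := 536870912) (W2 := 536870912) (P3 := 67108864) (W3 := 67108864)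
    rfl rfl rfl k0_pp_112

noncomputable def cut_pp_113 : Cut := Cut.of [[⟨3, 0, 0, 1449551462⟩]]

noncomputable def f_pp_113 : ℕ → ℕ → ℕ → ℕ → Bool := onCell 536870912 536870912 536870912 536870912 67108864 67108864
    (rowFK 0 true true true .nn 1 1 3 (qsf 536870912 536870912 536870912 536870912 3) ndF0q1 ndF4q1 pcF3 cut_pp_113 Ext.none)

def k0_pp_113 : ∃ t, chk3 f_pp_113 t 1 1 1 = true :=
  ⟨(l 4), by decide +kernel⟩

theorem c_pp_113 : CertF 536870912 536870912 536870912 536870912 67108864 67108864 true true true .nn 1 1 3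
    ndF0q1 ndF4q1 pcF3 cut_pp_113 Ext.none :=
  certFK0 (fam := true) (s1 := true) (s2 := true) (a := 1) (b := 1) (c := 3) (cn := .nn) (n1 := ndF0q1) (n2 := ndF4q1) (pc := pcF3) (cut := cut_pp_113) (xt := Ext.none) (P1 := 536870912) (W1 := 536870912) (P2 := 536870912) (W2 := 536870912) (P3 := 67108864) (W3 := 67108864)
    rfl rfl rfl k0_pp_113

noncomputable def cut_pp_123 : Cut := Cut.of [[⟨3, 0, 0, 1449551462⟩]]

noncomputable def f_pp_123 : ℕ → ℕ → ℕ → ℕ → Bool := onCell 536870912 536870912 1073741824 536870912 67108864 67108864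
    (rowFK 0 true true true .npn 1 2 3 (qsf 536870912 536870912 1073741824 536870912 3) ndF0q1 ndF4q2 pcF3 cut_pp_123 Ext.none)

def k0_pp_123 : ∃ t, chk3 f_pp_123 t 1 1 1 = true :=
  ⟨(l 4), by decide +kernel⟩

theorem c_pp_123 : CertF 536870912 536870912 1073741824 536870912 67108864 67108864 true true true .npn 1 2 3
    ndF0q1 ndF4q2 pcF3 cut_pp_123 Ext.none :=
  certFK0 (fam := true) (s1 := true) (s2 := true) (a := 1) (b := 2) (c := 3) (cn := .npn) (n1 := ndF0q1) (n2 := ndF4q2) (pc := pcF3) (cut := cut_pp_123) (xt := Ext.none) (P1 := 536870912) (W1 := 536870912) (P2 := 1073741824) (W2 := 536870912) (P3 := 67108864) (W3 := 67108864)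
    rfl rfl rfl k0_pp_123

noncomputable def cut_pp_133 : Cut := Cut.of [[⟨3, 0, 0, 1449551462⟩]]

noncomputable def f_pp_133 : ℕ → ℕ → ℕ → ℕ → Bool := onCell 536870912 536870912 0 1230186008 67108864 67108864
    (rowFK 0 true true true .dn 1 3 3 (qsf 536870912 536870912 0 1230186008 3) ndF0q1 ndF4q3 pcF3 cut_pp_133 Ext.none)

def k0_pp_133 : ∃ t, chk3 f_pp_133 t 1 1 1 = true :=
  ⟨(l 4), by decide +kernel⟩

theorem c_pp_133 : CertF 536870912 536870912 0 1230186008 67108864 67108864 true true true .dn 1 3 3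
    ndF0q1 ndF4q3 pcF3 cut_pp_133 Ext.none :=
  certFK0 (fam := true) (s1 := true) (s2 := true) (a := 1) (b := 3) (c := 3) (cn := .dn) (n1 := ndF0q1) (n2 := ndF4q3) (pc := pcF3) (cut := cut_pp_133) (xt := Ext.none) (P1 := 536870912) (W1 := 536870912) (P2 := 0) (W2 := 1230186008) (P3 := 67108864) (W3 := 67108864)
    rfl rfl rfl k0_pp_133

noncomputable def cut_pp_202 : Cut := Cut.of [[⟨3, 0, 0, 1449551462⟩]]

noncomputable def f_pp_202 : ℕ → ℕ → ℕ → ℕ → Bool := onCell 0 536870912 0 536870912 67108864 67108864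
    (rowFK 0 true true true .pp 2 0 2 (qsf 0 536870912 0 536870912 2) ndF0q2 ndF4q0 pcF2 cut_pp_202 Ext.none)

def k0_pp_202 : ∃ t, chk3 f_pp_202 t 1 1 1 = true :=
  ⟨(l 4), by decide +kernel⟩

theorem c_pp_202 : CertF 0 536870912 0 536870912 67108864 67108864 true true true .pp 2 0 2
    ndF0q2 ndF4q0 pcF2 cut_pp_202 Ext.none :=
  certFK0 (fam := true) (s1 := true) (s2 := true) (a := 2) (b := 0) (c := 2) (cn := .pp) (n1 := ndF0q2) (n2 := ndF4q0) (pc := pcF2) (cut := cut_pp_202) (xt := Ext.none) (P1 := 0) (W1 := 536870912) (P2 := 0) (W2 := 536870912) (P3 := 67108864) (W3 := 67108864)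
    rfl rfl rfl k0_pp_202

noncomputable def cut_pp_203 : Cut := Cut.of [[⟨3, 0, 0, 1449551462⟩]]

noncomputable def f_pp_203 : ℕ → ℕ → ℕ → ℕ → Bool := onCell 0 536870912 0 536870912 67108864 67108864
    (rowFK 0 true true true .up 2 0 3 (qsf 0 536870912 0 536870912 3) ndF0q2 ndF4q0 pcF3 cut_pp_203 Ext.none)

def k0_pp_203 : ∃ t, chk3 f_pp_203 t 1 1 1 = true :=
  ⟨(l 4), by decide +kernel⟩

theorem c_pp_203 : CertF 0 536870912 0 536870912 67108864 67108864 true true true .up 2 0 3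
    ndF0q2 ndF4q0 pcF3 cut_pp_203 Ext.none :=
  certFK0 (fam := true) (s1 := true) (s2 := true) (a := 2) (b := 0) (c := 3) (cn := .up) (n1 := ndF0q2) (n2 := ndF4q0) (pc := pcF3) (cut := cut_pp_203) (xt := Ext.none) (P1 := 0) (W1 := 536870912) (P2 := 0) (W2 := 536870912) (P3 := 67108864) (W3 := 67108864)
    rfl rfl rfl k0_pp_203

noncomputable def cut_pp_213 : Cut := Cut.of [[⟨3, 0, 0, 1449551462⟩]]

noncomputable def f_pp_213 : ℕ → ℕ → ℕ → ℕ → Bool := onCell 0 536870912 536870912 536870912 67108864 67108864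
    (rowFK 0 true true true .pnn 2 1 3 (qsf 0 536870912 536870912 536870912 3) ndF0q2 ndF4q1 pcF3 cut_pp_213 Ext.none)

def k0_pp_213 : ∃ t, chk3 f_pp_213 t 1 1 1 = true :=
  ⟨(l 4), by decide +kernel⟩

theorem c_pp_213 : CertF 0 536870912 536870912 536870912 67108864 67108864 true true true .pnn 2 1 3
    ndF0q2 ndF4q1 pcF3 cut_pp_213 Ext.none :=
  certFK0 (fam := true) (s1 := true) (s2 := true) (a := 2) (b := 1) (c := 3) (cn := .pnn) (n1 := ndF0q2) (n2 := ndF4q1) (pc := pcF3) (cut := cut_pp_213) (xt := Ext.none) (P1 := 0) (W1 := 536870912) (P2 := 536870912) (W2 := 536870912) (P3 := 67108864) (W3 := 67108864)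
    rfl rfl rfl k0_pp_213

noncomputable def cut_pm_001 : Cut := Cut.of [[⟨3, 0, 0, 1449551462⟩]]

noncomputable def f_pm_001 : ℕ → ℕ → ℕ → ℕ → Bool := onCell 0 536870912 536870912 536870912 67108864 67108864
    (rowFK 1 true true false .up 0 0 1 (qsf 0 536870912 0 536870912 1) ndF0q0 ndF4q0 pcF1 cut_pm_001 Ext.none)

def k0_pm_001 : ∃ t, chk3 f_pm_001 t 1 1 1 = true :=
  ⟨(a (l 6) (b (l 6) (b (l 6) (a (l 6) (b (l 6) (a (l 6) (l 18171056))))))), by decide +kernel⟩

theorem c_pm_001 : CertF 0 536870912 0 536870912 67108864 67108864 true true false .up 0 0 1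
    ndF0q0 ndF4q0 pcF1 cut_pm_001 Ext.none :=
  certFK1 (fam := true) (s1 := true) (s2 := false) (a := 0) (b := 0) (c := 1) (cn := .up) (n1 := ndF0q0) (n2 := ndF4q0) (pc := pcF1) (cut := cut_pm_001) (xt := Ext.none) (P1 := 0) (W1 := 536870912) (P2 := 0) (W2 := 536870912) (P3 := 67108864) (W3 := 67108864)
    rfl rfl rfl (fun _ => rfl) k0_pm_001

noncomputable def cut_pm_011 : Cut := Cut.of [[⟨3, 0, 0, 1449551462⟩], [⟨0, 0, 0, 25165824⟩, ⟨1, 1, 0, 25165824⟩, ⟨2, 1, 0, 25165824⟩]]

noncomputable def f_pm_011 : ℕ → ℕ → ℕ → ℕ → Bool := onCell 0 536870912 536870912 536870912 67108864 67108864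
    (rowFK 1 true true false .pnn 0 1 1 (qsf 0 536870912 536870912 536870912 1) ndF0q0 ndF4q1 pcF1 cut_pm_011 Ext.none)

def k0_pm_011 : ∃ t, chk3 f_pm_011 t 1 1 1 = true :=
  ⟨(b (l 6) (a (l 6) (b (l 6) (a (l 6) (b (l 6) (a (l 6) (l 18163592))))))), by decide +kernel⟩

theorem c_pm_011 : CertF 0 536870912 536870912 536870912 67108864 67108864 true true false .pnn 0 1 1
    ndF0q0 ndF4q1 pcF1 cut_pm_011 Ext.none :=
  certFK1 (fam := true) (s1 := true) (s2 := false) (a := 0) (b := 1) (c := 1) (cn := .pnn) (n1 := ndF0q0) (n2 := ndF4q1) (pc := pcF1) (cut := cut_pm_011) (xt := Ext.none) (P1 := 0) (W1 := 536870912) (P2 := 536870912) (W2 := 536870912) (P3 := 67108864) (W3 := 67108864)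
    rfl rfl rfl (fun _ => rfl) k0_pm_011

noncomputable def cut_pm_012 : Cut := Cut.of [[⟨3, 0, 0, 1449551462⟩], [⟨0, 0, 0, 67108864⟩, ⟨1, 1, 0, 67108864⟩, ⟨2, 1, 0, 67108864⟩]]

noncomputable def f_pm_012 : ℕ → ℕ → ℕ → ℕ → Bool := onCell 0 536870912 1073741824 536870912 67108864 67108864
    (rowFK 1 true true false .pnp 0 1 2 (qsf 0 536870912 536870912 536870912 2) ndF0q0 ndF4q1 pcF2 cut_pm_012 Ext.none)

def k0_pm_012 : ∃ t, chk3 f_pm_012 t 1 1 1 = true :=
  ⟨(b (b (a (l 6) (a (b (l 6) (a (l 6) (l 18662456))) (b (b (l 18449920) (l 18527296)) (l 18667784)))) (a (a (b (l 6) (l 2)) (a (b (l 6) (a (l 2) (b (l 103721094151) (l 2)))) (b (a (l 6) (l 19090624)) (a (b (l 19428528) (l 19555752)) (l 19538120))))) (a (b (a (l 19058216) (l 18983144)) (a (l 19441376) (l 19263720))) (b (l 18876256) (l 19051792))))) (a (a (l 2) (a (l 2) (b (b (l 165463316695) (l 2)) (l 2)))) (a (b (a (b (l 19759856) (l 19946496)) (l 19677064)) (a (l 2) (l 20015104))) (b (l 19342768) (l 19697976))))),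 by decide +kernel⟩

theorem c_pm_012 : CertF 0 536870912 536870912 536870912 67108864 67108864 true true false .pnp 0 1 2
    ndF0q0 ndF4q1 pcF2 cut_pm_012 Ext.none :=
  certFK1 (fam := true) (s1 := true) (s2 := false) (a := 0) (b := 1) (c := 2) (cn := .pnp) (n1 := ndF0q0) (n2 := ndF4q1) (pc := pcF2) (cut := cut_pm_012) (xt := Ext.none) (P1 := 0) (W1 := 536870912) (P2 := 536870912) (W2 := 536870912) (P3 := 67108864) (W3 := 67108864)
    rfl rfl rfl (fun _ => rfl) k0_pm_012

noncomputable def cut_pm_022 : Cut := Cut.of [[⟨3, 0, 0, 1449551462⟩], [⟨0, 0, 0, 67108864⟩, ⟨1, 1, 0, 67108864⟩, ⟨2, 1, 0, 67108864⟩]]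

noncomputable def f_pm_022 : ℕ → ℕ → ℕ → ℕ → Bool := onCell 1073741824 536870912 1073741824 536870912 67108864 67108864
    (rowFK 2 true true false .pp 0 2 2 (qsf 0 536870912 1073741824 536870912 2) ndF0q0 ndF4q2 pcF2 cut_pm_022 Ext.none)

def k0_pm_022 : ∃ t, chk3 f_pm_022 t 1 1 1 = true :=
  ⟨(a (b (a (l 6) (a (l 6) (b (b (a (l 19076848) (l 19541528)) (a (l 6) (l 19254464))) (a (l 6) (b (l 19017600) (l 6)))))) (l 6)) (b (a (b (a (b (l 19719232) (l 19484096)) (l 19681832)) (a (b (l 19281304) (l 19104840)) (l 19370224))) (b (l 19602200) (a (l 19403280) (l 19341720)))) (a (b (a (b (l 18990896) (l 376921336023)) (l 110634117095)) (a (l 1) (l 19025944))) (b (b (l 19235968) (l 19113408)) (l 317866116615))))), by decide +kernel⟩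

theorem c_pm_022 : CertF 0 536870912 1073741824 536870912 67108864 67108864 true true false .pp 0 2 2
    ndF0q0 ndF4q2 pcF2 cut_pm_022 Ext.none :=
  certFK2 (fam := true) (s1 := true) (s2 := false) (a := 0) (b := 2) (c := 2) (cn := .pp) (n1 := ndF0q0) (n2 := ndF4q2) (pc := pcF2) (cut := cut_pm_022) (xt := Ext.none) (P1 := 0) (W1 := 536870912) (P2 := 1073741824) (W2 := 536870912) (P3 := 67108864) (W3 := 67108864)
    rfl rfl rfl (fun _ => rfl) k0_pm_022

noncomputable def cut_pm_023 : Cut := Cut.of [[⟨3, 0, 0, 1449551462⟩]]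

noncomputable def f_pm_023 : ℕ → ℕ → ℕ → ℕ → Bool := onCell 0 536870912 1610612736 536870912 67108864 67108864
    (rowFK 1 true true false .up 0 2 3 (qsf 0 536870912 1073741824 536870912 3) ndF0q0 ndF4q2 pcF3 cut_pm_023 Ext.none)

def k0_pm_023 : ∃ t, chk3 f_pm_023 t 1 1 1 = true :=
  ⟨(a (b (b (a (b (a (l 19109912) (l 19131896)) (l 18909472)) (a (b (l 19043784) (l 18924736)) (l 18933976))) (a (b (l 18683968) (l 2)) (b (a (l 18730320) (l 18707264)) (l 18491120)))) (a (l 2) (b (b (l 18323016) (l 2)) (l 2)))) (a (b (b (a (b (l 19245832) (l 18951232)) (l 19296176)) (b (l 18801056) (l 18553936))) (b (b (l 18356200) (l 18157904)) (b (l 17970088) (l 2)))) (b (b (b (l 19476216) (l 19185744)) (b (l 18911360) (l 18659040))) (b (b (l 18429552) (l 18217352)) (b (l 18005152) (b (l 17844016) (b (l 17760536) (b (l 17716544) (l 17684120))))))))), by decide +kernel⟩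

theorem c_pm_023 : CertF 0 536870912 1073741824 536870912 67108864 67108864 true true false .up 0 2 3
    ndF0q0 ndF4q2 pcF3 cut_pm_023 Ext.none :=
  certFK1 (fam := true) (s1 := true) (s2 := false) (a := 0) (b := 2) (c := 3) (cn := .up) (n1 := ndF0q0) (n2 := ndF4q2) (pc := pcF3) (cut := cut_pm_023) (xt := Ext.none) (P1 := 0) (W1 := 536870912) (P2 := 1073741824) (W2 := 536870912) (P3 := 67108864) (W3 := 67108864)
    rfl rfl rfl (fun _ => rfl) k0_pm_023

noncomputable def cut_pm_033 : Cut := Cut.of [[⟨3, 0, 0, 1449551462⟩]]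

noncomputable def f_pm_033 : ℕ → ℕ → ℕ → ℕ → Bool := onCell 1610612736 536870912 0 1230186008 67108864 67108864
    (rowFK 2 true true false .pnn 0 3 3 (qsf 0 536870912 0 1230186008 3) ndF0q0 ndF4q3 pcF3 cut_pm_033 Ext.none)

def k0_pm_033 : ∃ t, chk3 f_pm_033 t 1 1 1 = true :=
  ⟨(a (b (l 1) (b (a (l 1) (b (l 1) (a (l 1) (b (l 1) (l 18593296))))) (b (l 18804384) (a (l 18952944) (a (l 18700728) (l 18492088)))))) (a (b (l 1) (b (b (a (l 1) (l 17969944)) (a (l 18479120) (l 18167640))) (b (l 18526360) (a (l 18312168) (l 18153424))))) (b (a (l 18197800) (a (l 18060688) (b (l 4) (l 4)))) (b (a (l 18139736) (a (l 17813456) (a (l 17790240) (a (l 17784352) (l 17801816))))) (a (b (l 17991600) (l 17967480)) (a (b (l 17855760) (l 17821416)) (a (b (l 17775704) (l 17754968)) (b (a (l 17736992) (b (l 17713552) (l 17694520))) (a (l 17714984) (l 17681048)))))))))), by decide +kernel⟩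

theorem c_pm_033 : CertF 0 536870912 0 1230186008 67108864 67108864 true true false .pnn 0 3 3
    ndF0q0 ndF4q3 pcF3 cut_pm_033 Ext.none :=
  certFK2 (fam := true) (s1 := true) (s2 := false) (a := 0) (b := 3) (c := 3) (cn := .pnn) (n1 := ndF0q0) (n2 := ndF4q3) (pc := pcF3) (cut := cut_pm_033) (xt := Ext.none) (P1 := 0) (W1 := 536870912) (P2 := 0) (W2 := 1230186008) (P3 := 67108864) (W3 := 67108864)
    rfl rfl rfl (fun _ => rfl) k0_pm_033

noncomputable def cut_pm_101 : Cut := Cut.of [[⟨3, 0, 0, 1449551462⟩]]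

noncomputable def f_pm_101 : ℕ → ℕ → ℕ → ℕ → Bool := onCell 536870912 536870912 536870912 536870912 67108864 67108864
    (rowFK 1 true true false .npn 1 0 1 (qsf 536870912 536870912 0 536870912 1) ndF0q1 ndF4q0 pcF1 cut_pm_101 Ext.none)

def k0_pm_101 : ∃ t, chk3 f_pm_101 t 1 1 1 = true :=
  ⟨(a (b (b (l 6) (a (l 6) (a (l 6) (l 17376624)))) (b (a (l 6) (b (l 17490904) (l 17742856))) (a (b (l 17879016) (l 18306768)) (b (l 18063216) (l 18465360))))) (b (a (b (l 1) (a (l 17635592) (l 1))) (l 1)) (a (b (l 17850056) (l 18466696)) (b (a (l 18007720) (l 1)) (b (l 18587528) (b (l 18866448) (l 19084240))))))), by decide +kernel⟩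

theorem c_pm_101 : CertF 536870912 536870912 0 536870912 67108864 67108864 true true false .npn 1 0 1
    ndF0q1 ndF4q0 pcF1 cut_pm_101 Ext.none :=
  certFK1 (fam := true) (s1 := true) (s2 := false) (a := 1) (b := 0) (c := 1) (cn := .npn) (n1 := ndF0q1) (n2 := ndF4q0) (pc := pcF1) (cut := cut_pm_101) (xt := Ext.none) (P1 := 536870912) (W1 := 536870912) (P2 := 0) (W2 := 536870912) (P3 := 67108864) (W3 := 67108864)
    rfl rfl rfl (fun _ => rfl) k0_pm_101

noncomputable def cut_pm_102 : Cut := Cut.of [[⟨3, 0, 0, 1449551462⟩]]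

noncomputable def f_pm_102 : ℕ → ℕ → ℕ → ℕ → Bool := onCell 536870912 536870912 1073741824 536870912 67108864 67108864
    (rowFK 1 true true false .npp 1 0 2 (qsf 536870912 536870912 0 536870912 2) ndF0q1 ndF4q0 pcF2 cut_pm_102 Ext.none)

def k0_pm_102 : ∃ t, chk3 f_pm_102 t 1 1 1 = true :=
  ⟨(a (b (b (b (b (a (l 18591016) (l 18731336)) (a (l 18620656) (l 18719928))) (a (l 18691400) (l 18724080))) (a (b (l 18801656) (l 2)) (l 18781752))) (a (l 2) (b (b (l 18840840) (l 2)) (l 2)))) (b (a (b (l 18957480) (l 18841472)) (b (l 19262256) (l 18995544))) (a (b (l 18810512) (l 18850040)) (b (l 18804248) (l 18672544))))), by decide +kernel⟩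

theorem c_pm_102 : CertF 536870912 536870912 0 536870912 67108864 67108864 true true false .npp 1 0 2
    ndF0q1 ndF4q0 pcF2 cut_pm_102 Ext.none :=
  certFK1 (fam := true) (s1 := true) (s2 := false) (a := 1) (b := 0) (c := 2) (cn := .npp) (n1 := ndF0q1) (n2 := ndF4q0) (pc := pcF2) (cut := cut_pm_102) (xt := Ext.none) (P1 := 536870912) (W1 := 536870912) (P2 := 0) (W2 := 536870912) (P3 := 67108864) (W3 := 67108864)
    rfl rfl rfl (fun _ => rfl) k0_pm_102

noncomputable def cut_pm_112 : Cut := Cut.of [[⟨3, 0, 0, 1449551462⟩]]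

noncomputable def f_pm_112 : ℕ → ℕ → ℕ → ℕ → Bool := onCell 536870912 536870912 1073741824 536870912 67108864 67108864
    (rowFK 1 true true false .dn 1 1 2 (qsf 536870912 536870912 536870912 536870912 2) ndF0q1 ndF4q1 pcF2 cut_pm_112 Ext.none)

def k0_pm_112 : ∃ t, chk3 f_pm_112 t 1 1 1 = true :=
  ⟨(a (b (b (a (b (b (l 18579096) (l 18607296)) (l 18666920)) (b (l 1) (l 18705760))) (a (l 18808984) (l 18737720))) (a (b (l 19022296) (l 19283176)) (l 19147328))) (b (b (l 1) (l 19004344)) (b (l 18778608) (l 18696064)))), by decide +kernel⟩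

theorem c_pm_112 : CertF 536870912 536870912 536870912 536870912 67108864 67108864 true true false .dn 1 1 2
    ndF0q1 ndF4q1 pcF2 cut_pm_112 Ext.none :=
  certFK1 (fam := true) (s1 := true) (s2 := false) (a := 1) (b := 1) (c := 2) (cn := .dn) (n1 := ndF0q1) (n2 := ndF4q1) (pc := pcF2) (cut := cut_pm_112) (xt := Ext.none) (P1 := 536870912) (W1 := 536870912) (P2 := 536870912) (W2 := 536870912) (P3 := 67108864) (W3 := 67108864)
    rfl rfl rfl (fun _ => rfl) k0_pm_112

noncomputable def cut_pm_113 : Cut := Cut.of [[⟨3, 0, 0, 1449551462⟩]]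

noncomputable def f_pm_113 : ℕ → ℕ → ℕ → ℕ → Bool := onCell 536870912 536870912 1610612736 536870912 67108864 67108864
    (rowFK 1 true true false .nn 1 1 3 (qsf 536870912 536870912 536870912 536870912 3) ndF0q1 ndF4q1 pcF3 cut_pm_113 Ext.none)

def k0_pm_113 : ∃ t, chk3 f_pm_113 t 1 1 1 = true :=
  ⟨(a (b (b (a (a (l 19193720) (l 18584808)) (l 18306032)) (a (b (l 19121064) (l 2)) (l 18688504))) (b (a (l 2) (l 266393004087)) (l 2))) (a (b (b (l 18270552) (l 18491368)) (b (l 18437216) (l 4))) (b (b (l 18338328) (l 17907672)) (l 4)))), by decide +kernel⟩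

theorem c_pm_113 : CertF 536870912 536870912 536870912 536870912 67108864 67108864 true true false .nn 1 1 3
    ndF0q1 ndF4q1 pcF3 cut_pm_113 Ext.none :=
  certFK1 (fam := true) (s1 := true) (s2 := false) (a := 1) (b := 1) (c := 3) (cn := .nn) (n1 := ndF0q1) (n2 := ndF4q1) (pc := pcF3) (cut := cut_pm_113) (xt := Ext.none) (P1 := 536870912) (W1 := 536870912) (P2 := 536870912) (W2 := 536870912) (P3 := 67108864) (W3 := 67108864)
    rfl rfl rfl (fun _ => rfl) k0_pm_113

noncomputable def cut_pm_123 : Cut := Cut.of [[⟨3, 0, 0, 1449551462⟩]]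

noncomputable def f_pm_123 : ℕ → ℕ → ℕ → ℕ → Bool := onCell 536870912 536870912 1610612736 536870912 67108864 67108864
    (rowFK 1 true true false .npn 1 2 3 (qsf 536870912 536870912 1073741824 536870912 3) ndF0q1 ndF4q2 pcF3 cut_pm_123 Ext.none)

def k0_pm_123 : ∃ t, chk3 f_pm_123 t 1 1 1 = true :=
  ⟨(a (a (b (a (b (l 19028696) (l 18639736)) (b (l 18710040) (l 18573896))) (b (b (l 18388144) (l 18228128)) (b (l 18026480) (b (l 17871600) (b (l 17795616) (l 4)))))) (b (b (l 18786056) (l 18698992)) (b (l 18509672) (b (l 18089336) (l 4))))) (a (b (b (l 1) (b (l 1) (l 19005672))) (b (l 18636448) (l 4))) (b (l 1) (l 4)))), by decide +kernel⟩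

theorem c_pm_123 : CertF 536870912 536870912 1073741824 536870912 67108864 67108864 true true false .npn 1 2 3
    ndF0q1 ndF4q2 pcF3 cut_pm_123 Ext.none :=
  certFK1 (fam := true) (s1 := true) (s2 := false) (a := 1) (b := 2) (c := 3) (cn := .npn) (n1 := ndF0q1) (n2 := ndF4q2) (pc := pcF3) (cut := cut_pm_123) (xt := Ext.none) (P1 := 536870912) (W1 := 536870912) (P2 := 1073741824) (W2 := 536870912) (P3 := 67108864) (W3 := 67108864)
    rfl rfl rfl (fun _ => rfl) k0_pm_123

noncomputable def cut_pm_133 : Cut := Cut.of [[⟨3, 0, 0, 1449551462⟩]]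

noncomputable def f_pm_133 : ℕ → ℕ → ℕ → ℕ → Bool := onCell 536870912 536870912 0 1230186008 67108864 67108864
    (rowFK 0 true true false .dn 1 3 3 (qsf 536870912 536870912 0 1230186008 3) ndF0q1 ndF4q3 pcF3 cut_pm_133 Ext.none)

def k0_pm_133 : ∃ t, chk3 f_pm_133 t 1 1 1 = true :=
  ⟨(b (l 2) (b (l 2) (a (b (l 2) (l 4)) (l 2)))), by decide +kernel⟩

theorem c_pm_133 : CertF 536870912 536870912 0 1230186008 67108864 67108864 true true false .dn 1 3 3
    ndF0q1 ndF4q3 pcF3 cut_pm_133 Ext.none :=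
  certFK0 (fam := true) (s1 := true) (s2 := false) (a := 1) (b := 3) (c := 3) (cn := .dn) (n1 := ndF0q1) (n2 := ndF4q3) (pc := pcF3) (cut := cut_pm_133) (xt := Ext.none) (P1 := 536870912) (W1 := 536870912) (P2 := 0) (W2 := 1230186008) (P3 := 67108864) (W3 := 67108864)
    rfl rfl rfl k0_pm_133

noncomputable def cut_pm_202 : Cut := Cut.of [[⟨3, 0, 0, 1449551462⟩]]

noncomputable def f_pm_202 : ℕ → ℕ → ℕ → ℕ → Bool := onCell 0 536870912 1073741824 536870912 67108864 67108864
    (rowFK 1 true true false .pp 2 0 2 (qsf 0 536870912 0 536870912 2) ndF0q2 ndF4q0 pcF2 cut_pm_202 Ext.none)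

def k0_pm_202 : ∃ t, chk3 f_pm_202 t 1 1 1 = true :=
  ⟨(b (a (b (l 19229792) (l 4)) (b (a (l 19471520) (l 19476896)) (a (l 19095216) (l 19110144)))) (a (l 4) (b (l 18750352) (l 18455392)))), by decide +kernel⟩

theorem c_pm_202 : CertF 0 536870912 0 536870912 67108864 67108864 true true false .pp 2 0 2
    ndF0q2 ndF4q0 pcF2 cut_pm_202 Ext.none :=
  certFK1 (fam := true) (s1 := true) (s2 := false) (a := 2) (b := 0) (c := 2) (cn := .pp) (n1 := ndF0q2) (n2 := ndF4q0) (pc := pcF2) (cut := cut_pm_202) (xt := Ext.none) (P1 := 0) (W1 := 536870912) (P2 := 0) (W2 := 536870912) (P3 := 67108864) (W3 := 67108864)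
    rfl rfl rfl (fun _ => rfl) k0_pm_202

noncomputable def cut_pm_203 : Cut := Cut.of [[⟨3, 0, 0, 1449551462⟩]]

noncomputable def f_pm_203 : ℕ → ℕ → ℕ → ℕ → Bool := onCell 0 536870912 1610612736 536870912 67108864 67108864
    (rowFK 1 true true false .up 2 0 3 (qsf 0 536870912 0 536870912 3) ndF0q2 ndF4q0 pcF3 cut_pm_203 Ext.none)

def k0_pm_203 : ∃ t, chk3 f_pm_203 t 1 1 1 = true :=
  ⟨(a (l 4) (b (l 4) (l 2))), by decide +kernel⟩

theorem c_pm_203 : CertF 0 536870912 0 536870912 67108864 67108864 true true false .up 2 0 3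
    ndF0q2 ndF4q0 pcF3 cut_pm_203 Ext.none :=
  certFK1 (fam := true) (s1 := true) (s2 := false) (a := 2) (b := 0) (c := 3) (cn := .up) (n1 := ndF0q2) (n2 := ndF4q0) (pc := pcF3) (cut := cut_pm_203) (xt := Ext.none) (P1 := 0) (W1 := 536870912) (P2 := 0) (W2 := 536870912) (P3 := 67108864) (W3 := 67108864)
    rfl rfl rfl (fun _ => rfl) k0_pm_203

noncomputable def cut_pm_213 : Cut := Cut.of [[⟨3, 0, 0, 1449551462⟩]]

noncomputable def f_pm_213 : ℕ → ℕ → ℕ → ℕ → Bool := onCell 0 536870912 536870912 536870912 67108864 67108864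
    (rowFK 0 true true false .pnn 2 1 3 (qsf 0 536870912 536870912 536870912 3) ndF0q2 ndF4q1 pcF3 cut_pm_213 Ext.none)

def k0_pm_213 : ∃ t, chk3 f_pm_213 t 1 1 1 = true :=
  ⟨(a (l 4) (b (l 4) (l 4))), by decide +kernel⟩

theorem c_pm_213 : CertF 0 536870912 536870912 536870912 67108864 67108864 true true false .pnn 2 1 3
    ndF0q2 ndF4q1 pcF3 cut_pm_213 Ext.none :=
  certFK0 (fam := true) (s1 := true) (s2 := false) (a := 2) (b := 1) (c := 3) (cn := .pnn) (n1 := ndF0q2) (n2 := ndF4q1) (pc := pcF3) (cut := cut_pm_213) (xt := Ext.none) (P1 := 0) (W1 := 536870912) (P2 := 536870912) (W2 := 536870912) (P3 := 67108864) (W3 := 67108864)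
    rfl rfl rfl k0_pm_213

noncomputable def cut_mm_001 : Cut := Cut.of [[⟨3, 0, 0, 1449551462⟩]]

noncomputable def f_mm_001 : ℕ → ℕ → ℕ → ℕ → Bool := onCell 0 536870912 0 536870912 67108864 67108864
    (rowFK 0 true false false .up 0 0 1 (qsf 0 536870912 0 536870912 1) ndF0q0 ndF4q0 pcF1 cut_mm_001 Ext.none)

def k0_mm_001 : ∃ t, chk3 f_mm_001 t 1 1 1 = true :=
  ⟨(l 4), by decide +kernel⟩

theorem c_mm_001 : CertF 0 536870912 0 536870912 67108864 67108864 true false false .up 0 0 1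
    ndF0q0 ndF4q0 pcF1 cut_mm_001 Ext.none :=
  certFK0 (fam := true) (s1 := false) (s2 := false) (a := 0) (b := 0) (c := 1) (cn := .up) (n1 := ndF0q0) (n2 := ndF4q0) (pc := pcF1) (cut := cut_mm_001) (xt := Ext.none) (P1 := 0) (W1 := 536870912) (P2 := 0) (W2 := 536870912) (P3 := 67108864) (W3 := 67108864)
    rfl rfl rfl k0_mm_001

noncomputable def cut_mm_011 : Cut := Cut.of [[⟨3, 0, 0, 1449551462⟩]]

noncomputable def f_mm_011 : ℕ → ℕ → ℕ → ℕ → Bool := onCell 0 536870912 536870912 536870912 67108864 67108864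
    (rowFK 0 true false false .pnn 0 1 1 (qsf 0 536870912 536870912 536870912 1) ndF0q0 ndF4q1 pcF1 cut_mm_011 Ext.none)

def k0_mm_011 : ∃ t, chk3 f_mm_011 t 1 1 1 = true :=
  ⟨(l 4), by decide +kernel⟩

theorem c_mm_011 : CertF 0 536870912 536870912 536870912 67108864 67108864 true false false .pnn 0 1 1
    ndF0q0 ndF4q1 pcF1 cut_mm_011 Ext.none :=
  certFK0 (fam := true) (s1 := false) (s2 := false) (a := 0) (b := 1) (c := 1) (cn := .pnn) (n1 := ndF0q0) (n2 := ndF4q1) (pc := pcF1) (cut := cut_mm_011) (xt := Ext.none) (P1 := 0) (W1 := 536870912) (P2 := 536870912) (W2 := 536870912) (P3 := 67108864) (W3 := 67108864)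
    rfl rfl rfl k0_mm_011

noncomputable def cut_mm_012 : Cut := Cut.of [[⟨3, 0, 0, 1449551462⟩]]

noncomputable def f_mm_012 : ℕ → ℕ → ℕ → ℕ → Bool := onCell 0 536870912 536870912 536870912 67108864 67108864
    (rowFK 0 true false false .pnp 0 1 2 (qsf 0 536870912 536870912 536870912 2) ndF0q0 ndF4q1 pcF2 cut_mm_012 Ext.none)

def k0_mm_012 : ∃ t, chk3 f_mm_012 t 1 1 1 = true :=
  ⟨(l 4), by decide +kernel⟩

theorem c_mm_012 : CertF 0 536870912 536870912 536870912 67108864 67108864 true false false .pnp 0 1 2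
    ndF0q0 ndF4q1 pcF2 cut_mm_012 Ext.none :=
  certFK0 (fam := true) (s1 := false) (s2 := false) (a := 0) (b := 1) (c := 2) (cn := .pnp) (n1 := ndF0q0) (n2 := ndF4q1) (pc := pcF2) (cut := cut_mm_012) (xt := Ext.none) (P1 := 0) (W1 := 536870912) (P2 := 536870912) (W2 := 536870912) (P3 := 67108864) (W3 := 67108864)
    rfl rfl rfl k0_mm_012

noncomputable def cut_mm_022 : Cut := Cut.of [[⟨3, 0, 0, 1449551462⟩]]

noncomputable def f_mm_022 : ℕ → ℕ → ℕ → ℕ → Bool := onCell 0 536870912 1073741824 536870912 67108864 67108864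
    (rowFK 0 true false false .pp 0 2 2 (qsf 0 536870912 1073741824 536870912 2) ndF0q0 ndF4q2 pcF2 cut_mm_022 Ext.none)

def k0_mm_022 : ∃ t, chk3 f_mm_022 t 1 1 1 = true :=
  ⟨(l 4), by decide +kernel⟩

theorem c_mm_022 : CertF 0 536870912 1073741824 536870912 67108864 67108864 true false false .pp 0 2 2
    ndF0q0 ndF4q2 pcF2 cut_mm_022 Ext.none :=
  certFK0 (fam := true) (s1 := false) (s2 := false) (a := 0) (b := 2) (c := 2) (cn := .pp) (n1 := ndF0q0) (n2 := ndF4q2) (pc := pcF2) (cut := cut_mm_022) (xt := Ext.none) (P1 := 0) (W1 := 536870912) (P2 := 1073741824) (W2 := 536870912) (P3 := 67108864) (W3 := 67108864)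
    rfl rfl rfl k0_mm_022

noncomputable def cut_mm_023 : Cut := Cut.of [[⟨3, 0, 0, 1449551462⟩]]

noncomputable def f_mm_023 : ℕ → ℕ → ℕ → ℕ → Bool := onCell 0 536870912 1073741824 536870912 67108864 67108864
    (rowFK 0 true false false .up 0 2 3 (qsf 0 536870912 1073741824 536870912 3) ndF0q0 ndF4q2 pcF3 cut_mm_023 Ext.none)

def k0_mm_023 : ∃ t, chk3 f_mm_023 t 1 1 1 = true :=
  ⟨(l 4), by decide +kernel⟩

theorem c_mm_023 : CertF 0 536870912 1073741824 536870912 67108864 67108864 true false false .up 0 2 3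
    ndF0q0 ndF4q2 pcF3 cut_mm_023 Ext.none :=
  certFK0 (fam := true) (s1 := false) (s2 := false) (a := 0) (b := 2) (c := 3) (cn := .up) (n1 := ndF0q0) (n2 := ndF4q2) (pc := pcF3) (cut := cut_mm_023) (xt := Ext.none) (P1 := 0) (W1 := 536870912) (P2 := 1073741824) (W2 := 536870912) (P3 := 67108864) (W3 := 67108864)
    rfl rfl rfl k0_mm_023

noncomputable def cut_mm_033 : Cut := Cut.of [[⟨3, 0, 0, 1449551462⟩]]

noncomputable def f_mm_033 : ℕ → ℕ → ℕ → ℕ → Bool := onCell 0 536870912 0 1230186008 67108864 67108864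
    (rowFK 0 true false false .pnn 0 3 3 (qsf 0 536870912 0 1230186008 3) ndF0q0 ndF4q3 pcF3 cut_mm_033 Ext.none)

def k0_mm_033 : ∃ t, chk3 f_mm_033 t 1 1 1 = true :=
  ⟨(l 4), by decide +kernel⟩

theorem c_mm_033 : CertF 0 536870912 0 1230186008 67108864 67108864 true false false .pnn 0 3 3
    ndF0q0 ndF4q3 pcF3 cut_mm_033 Ext.none :=
  certFK0 (fam := true) (s1 := false) (s2 := false) (a := 0) (b := 3) (c := 3) (cn := .pnn) (n1 := ndF0q0) (n2 := ndF4q3) (pc := pcF3) (cut := cut_mm_033) (xt := Ext.none) (P1 := 0) (W1 := 536870912) (P2 := 0) (W2 := 1230186008) (P3 := 67108864) (W3 := 67108864)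
    rfl rfl rfl k0_mm_033

noncomputable def cut_mm_101 : Cut := Cut.of [[⟨3, 0, 0, 1449551462⟩]]

noncomputable def f_mm_101 : ℕ → ℕ → ℕ → ℕ → Bool := onCell 536870912 536870912 0 536870912 67108864 67108864
    (rowFK 0 true false false .npn 1 0 1 (qsf 536870912 536870912 0 536870912 1) ndF0q1 ndF4q0 pcF1 cut_mm_101 Ext.none)

def k0_mm_101 : ∃ t, chk3 f_mm_101 t 1 1 1 = true :=
  ⟨(l 4), by decide +kernel⟩

theorem c_mm_101 : CertF 536870912 536870912 0 536870912 67108864 67108864 true false false .npn 1 0 1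
    ndF0q1 ndF4q0 pcF1 cut_mm_101 Ext.none :=
  certFK0 (fam := true) (s1 := false) (s2 := false) (a := 1) (b := 0) (c := 1) (cn := .npn) (n1 := ndF0q1) (n2 := ndF4q0) (pc := pcF1) (cut := cut_mm_101) (xt := Ext.none) (P1 := 536870912) (W1 := 536870912) (P2 := 0) (W2 := 536870912) (P3 := 67108864) (W3 := 67108864)
    rfl rfl rfl k0_mm_101

noncomputable def cut_mm_102 : Cut := Cut.of [[⟨3, 0, 0, 1449551462⟩]]

noncomputable def f_mm_102 : ℕ → ℕ → ℕ → ℕ → Bool := onCell 536870912 536870912 0 536870912 67108864 67108864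
    (rowFK 0 true false false .npp 1 0 2 (qsf 536870912 536870912 0 536870912 2) ndF0q1 ndF4q0 pcF2 cut_mm_102 Ext.none)

def k0_mm_102 : ∃ t, chk3 f_mm_102 t 1 1 1 = true :=
  ⟨(l 4), by decide +kernel⟩

theorem c_mm_102 : CertF 536870912 536870912 0 536870912 67108864 67108864 true false false .npp 1 0 2
    ndF0q1 ndF4q0 pcF2 cut_mm_102 Ext.none :=
  certFK0 (fam := true) (s1 := false) (s2 := false) (a := 1) (b := 0) (c := 2) (cn := .npp) (n1 := ndF0q1) (n2 := ndF4q0) (pc := pcF2) (cut := cut_mm_102) (xt := Ext.none) (P1 := 536870912) (W1 := 536870912) (P2 := 0) (W2 := 536870912) (P3 := 67108864) (W3 := 67108864)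
    rfl rfl rfl k0_mm_102

noncomputable def cut_mm_112 : Cut := Cut.of [[⟨3, 0, 0, 1449551462⟩]]

noncomputable def f_mm_112 : ℕ → ℕ → ℕ → ℕ → Bool := onCell 536870912 536870912 536870912 536870912 67108864 67108864
    (rowFK 0 true false false .dn 1 1 2 (qsf 536870912 536870912 536870912 536870912 2) ndF0q1 ndF4q1 pcF2 cut_mm_112 Ext.none)

def k0_mm_112 : ∃ t, chk3 f_mm_112 t 1 1 1 = true :=
  ⟨(l 4), by decide +kernel⟩

theorem c_mm_112 : CertF 536870912 536870912 536870912 536870912 67108864 67108864 true false false .dn 1 1 2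
    ndF0q1 ndF4q1 pcF2 cut_mm_112 Ext.none :=
  certFK0 (fam := true) (s1 := false) (s2 := false) (a := 1) (b := 1) (c := 2) (cn := .dn) (n1 := ndF0q1) (n2 := ndF4q1) (pc := pcF2) (cut := cut_mm_112) (xt := Ext.none) (P1 := 536870912) (W1 := 536870912) (P2 := 536870912) (W2 := 536870912) (P3 := 67108864) (W3 := 67108864)
    rfl rfl rfl k0_mm_112

noncomputable def cut_mm_113 : Cut := Cut.of [[⟨3, 0, 0, 1449551462⟩]]

noncomputable def f_mm_113 : ℕ → ℕ → ℕ → ℕ → Bool := onCell 536870912 536870912 536870912 536870912 67108864 67108864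
    (rowFK 0 true false false .nn 1 1 3 (qsf 536870912 536870912 536870912 536870912 3) ndF0q1 ndF4q1 pcF3 cut_mm_113 Ext.none)

def k0_mm_113 : ∃ t, chk3 f_mm_113 t 1 1 1 = true :=
  ⟨(l 4), by decide +kernel⟩

theorem c_mm_113 : CertF 536870912 536870912 536870912 536870912 67108864 67108864 true false false .nn 1 1 3
    ndF0q1 ndF4q1 pcF3 cut_mm_113 Ext.none :=
  certFK0 (fam := true) (s1 := false) (s2 := false) (a := 1) (b := 1) (c := 3) (cn := .nn) (n1 := ndF0q1) (n2 := ndF4q1) (pc := pcF3) (cut := cut_mm_113) (xt := Ext.none) (P1 := 536870912) (W1 := 536870912) (P2 := 536870912) (W2 := 536870912) (P3 := 67108864) (W3 := 67108864)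
    rfl rfl rfl k0_mm_113

noncomputable def cut_mm_123 : Cut := Cut.of [[⟨3, 0, 0, 1449551462⟩]]

noncomputable def f_mm_123 : ℕ → ℕ → ℕ → ℕ → Bool := onCell 536870912 536870912 1073741824 536870912 67108864 67108864
    (rowFK 0 true false false .npn 1 2 3 (qsf 536870912 536870912 1073741824 536870912 3) ndF0q1 ndF4q2 pcF3 cut_mm_123 Ext.none)

def k0_mm_123 : ∃ t, chk3 f_mm_123 t 1 1 1 = true :=
  ⟨(l 4), by decide +kernel⟩

theorem c_mm_123 : CertF 536870912 536870912 1073741824 536870912 67108864 67108864 true false false .npn 1 2 3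
    ndF0q1 ndF4q2 pcF3 cut_mm_123 Ext.none :=
  certFK0 (fam := true) (s1 := false) (s2 := false) (a := 1) (b := 2) (c := 3) (cn := .npn) (n1 := ndF0q1) (n2 := ndF4q2) (pc := pcF3) (cut := cut_mm_123) (xt := Ext.none) (P1 := 536870912) (W1 := 536870912) (P2 := 1073741824) (W2 := 536870912) (P3 := 67108864) (W3 := 67108864)
    rfl rfl rfl k0_mm_123

noncomputable def cut_mm_133 : Cut := Cut.of [[⟨3, 0, 0, 1449551462⟩]]

noncomputable def f_mm_133 : ℕ → ℕ → ℕ → ℕ → Bool := onCell 536870912 536870912 0 1230186008 67108864 67108864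
    (rowFK 0 true false false .dn 1 3 3 (qsf 536870912 536870912 0 1230186008 3) ndF0q1 ndF4q3 pcF3 cut_mm_133 Ext.none)

def k0_mm_133 : ∃ t, chk3 f_mm_133 t 1 1 1 = true :=
  ⟨(l 4), by decide +kernel⟩

theorem c_mm_133 : CertF 536870912 536870912 0 1230186008 67108864 67108864 true false false .dn 1 3 3
    ndF0q1 ndF4q3 pcF3 cut_mm_133 Ext.none :=
  certFK0 (fam := true) (s1 := false) (s2 := false) (a := 1) (b := 3) (c := 3) (cn := .dn) (n1 := ndF0q1) (n2 := ndF4q3) (pc := pcF3) (cut := cut_mm_133) (xt := Ext.none) (P1 := 536870912) (W1 := 536870912) (P2 := 0) (W2 := 1230186008) (P3 := 67108864) (W3 := 67108864)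
    rfl rfl rfl k0_mm_133

noncomputable def cut_mm_202 : Cut := Cut.of [[⟨3, 0, 0, 1449551462⟩]]

noncomputable def f_mm_202 : ℕ → ℕ → ℕ → ℕ → Bool := onCell 0 536870912 0 536870912 67108864 67108864
    (rowFK 0 true false false .pp 2 0 2 (qsf 0 536870912 0 536870912 2) ndF0q2 ndF4q0 pcF2 cut_mm_202 Ext.none)

def k0_mm_202 : ∃ t, chk3 f_mm_202 t 1 1 1 = true :=
  ⟨(l 4), by decide +kernel⟩

theorem c_mm_202 : CertF 0 536870912 0 536870912 67108864 67108864 true false false .pp 2 0 2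
    ndF0q2 ndF4q0 pcF2 cut_mm_202 Ext.none :=
  certFK0 (fam := true) (s1 := false) (s2 := false) (a := 2) (b := 0) (c := 2) (cn := .pp) (n1 := ndF0q2) (n2 := ndF4q0) (pc := pcF2) (cut := cut_mm_202) (xt := Ext.none) (P1 := 0) (W1 := 536870912) (P2 := 0) (W2 := 536870912) (P3 := 67108864) (W3 := 67108864)
    rfl rfl rfl k0_mm_202

noncomputable def cut_mm_203 : Cut := Cut.of [[⟨3, 0, 0, 1449551462⟩]]

noncomputable def f_mm_203 : ℕ → ℕ → ℕ → ℕ → Bool := onCell 0 536870912 0 536870912 67108864 67108864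
    (rowFK 0 true false false .up 2 0 3 (qsf 0 536870912 0 536870912 3) ndF0q2 ndF4q0 pcF3 cut_mm_203 Ext.none)

def k0_mm_203 : ∃ t, chk3 f_mm_203 t 1 1 1 = true :=
  ⟨(l 4), by decide +kernel⟩

theorem c_mm_203 : CertF 0 536870912 0 536870912 67108864 67108864 true false false .up 2 0 3
    ndF0q2 ndF4q0 pcF3 cut_mm_203 Ext.none :=
  certFK0 (fam := true) (s1 := false) (s2 := false) (a := 2) (b := 0) (c := 3) (cn := .up) (n1 := ndF0q2) (n2 := ndF4q0) (pc := pcF3) (cut := cut_mm_203) (xt := Ext.none) (P1 := 0) (W1 := 536870912) (P2 := 0) (W2 := 536870912) (P3 := 67108864) (W3 := 67108864)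
    rfl rfl rfl k0_mm_203

noncomputable def cut_mm_213 : Cut := Cut.of [[⟨3, 0, 0, 1449551462⟩]]

noncomputable def f_mm_213 : ℕ → ℕ → ℕ → ℕ → Bool := onCell 0 536870912 536870912 536870912 67108864 67108864
    (rowFK 0 true false false .pnn 2 1 3 (qsf 0 536870912 536870912 536870912 3) ndF0q2 ndF4q1 pcF3 cut_mm_213 Ext.none)

def k0_mm_213 : ∃ t, chk3 f_mm_213 t 1 1 1 = true :=
  ⟨(l 4), by decide +kernel⟩

theorem c_mm_213 : CertF 0 536870912 536870912 536870912 67108864 67108864 true false false .pnn 2 1 3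
    ndF0q2 ndF4q1 pcF3 cut_mm_213 Ext.none :=
  certFK0 (fam := true) (s1 := false) (s2 := false) (a := 2) (b := 1) (c := 3) (cn := .pnn) (n1 := ndF0q2) (n2 := ndF4q1) (pc := pcF3) (cut := cut_mm_213) (xt := Ext.none) (P1 := 0) (W1 := 536870912) (P2 := 536870912) (W2 := 536870912) (P3 := 67108864) (W3 := 67108864)
    rfl rfl rfl k0_mm_213

end Pool.Agent.Strip051.G.I1_16_1_8.Tab.C.FA04

namespace Pool.Agent.Strip051.G.I1_16_1_8.Tab.C.FA11

open Pool.Agent.Strip051.PB Pool.Agent.Strip051.PB.T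
open Pool.Agent.Strip051.G.I1_16_1_8.Tab

noncomputable def f_pp_001 : ℕ → ℕ → ℕ → ℕ → Bool := onCell 0 536870912 0 536870912 67108864 67108864
    (rowFK 0 true true true .up 0 0 1 (qsf 0 536870912 0 536870912 1) ndF1q0 ndF1q0 pcF1 Cut.none Ext.none)

def k0_pp_001 : ∃ t, chk3 f_pp_001 t 1 1 1 = true :=
  ⟨(l 4), by decide +kernel⟩

theorem c_pp_001 : CertF 0 536870912 0 536870912 67108864 67108864 true true true .up 0 0 1
    ndF1q0 ndF1q0 pcF1 Cut.none Ext.none :=
  certFK0 (fam := true) (s1 := true) (s2 := true) (a := 0) (b := 0) (c := 1) (cn := .up) (n1 := ndF1q0) (n2 := ndF1q0) (pc := pcF1) (cut := Cut.none) (xt := Ext.none) (P1 := 0) (W1 := 536870912) (P2 := 0) (W2 := 536870912) (P3 := 67108864) (W3 := 67108864)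
    rfl rfl rfl k0_pp_001

noncomputable def f_pp_011 : ℕ → ℕ → ℕ → ℕ → Bool := onCell 0 536870912 536870912 536870912 67108864 67108864
    (rowFK 0 true true true .pnn 0 1 1 (qsf 0 536870912 536870912 536870912 1) ndF1q0 ndF1q1 pcF1 Cut.none Ext.none)

def k0_pp_011 : ∃ t, chk3 f_pp_011 t 1 1 1 = true :=
  ⟨(l 4), by decide +kernel⟩

theorem c_pp_011 : CertF 0 536870912 536870912 536870912 67108864 67108864 true true true .pnn 0 1 1
    ndF1q0 ndF1q1 pcF1 Cut.none Ext.none :=
  certFK0 (fam := true) (s1 := true) (s2 := true) (a := 0) (b := 1) (c := 1) (cn := .pnn) (n1 := ndF1q0) (n2 := ndF1q1) (pc := pcF1) (cut := Cut.none) (xt := Ext.none) (P1 := 0) (W1 := 536870912) (P2 := 536870912) (W2 := 536870912) (P3 := 67108864) (W3 := 67108864)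
    rfl rfl rfl k0_pp_011

noncomputable def f_pp_012 : ℕ → ℕ → ℕ → ℕ → Bool := onCell 0 536870912 536870912 536870912 67108864 67108864
    (rowFK 0 true true true .pnp 0 1 2 (qsf 0 536870912 536870912 536870912 2) ndF1q0 ndF1q1 pcF2 Cut.none Ext.none)

def k0_pp_012 : ∃ t, chk3 f_pp_012 t 1 1 1 = true :=
  ⟨(l 4), by decide +kernel⟩

theorem c_pp_012 : CertF 0 536870912 536870912 536870912 67108864 67108864 true true true .pnp 0 1 2
    ndF1q0 ndF1q1 pcF2 Cut.none Ext.none :=
  certFK0 (fam := true) (s1 := true) (s2 := true) (a := 0) (b := 1) (c := 2) (cn := .pnp) (n1 := ndF1q0) (n2 := ndF1q1) (pc := pcF2) (cut := Cut.none) (xt := Ext.none) (P1 := 0) (W1 := 536870912) (P2 := 536870912) (W2 := 536870912) (P3 := 67108864) (W3 := 67108864)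
    rfl rfl rfl k0_pp_012

noncomputable def cut_pp_022_a : Cut := Cut.of [[⟨0, 0, 0, 67108864⟩, ⟨1, 1, 0, 67108864⟩, ⟨2, 1, 0, 67108864⟩]]

noncomputable def f_pp_022_a : ℕ → ℕ → ℕ → ℕ → Bool := onCell 0 536870912 0 536870912 67108864 67108864
    (rowFK 0 true true true .pp 0 2 2 (qsf 0 536870912 0 536870912 2) ndF1q0 ndF1q2a pcF2 cut_pp_022_a Ext.none)

def k0_pp_022_a : ∃ t, chk3 f_pp_022_a t 1 1 1 = true :=
  ⟨(a (a (a (a (a (b (b (c (l 18448720) (l 17724744)) (c (b (l 18321848) (l 18131368)) (b (l 17540432) (a (l 17089664) (l 17316552))))) (b (b (a (c (b (l 17891096) (l 17458408)) (b (l 16862936) (l 16626136))) (l 17162904)) (a (b (l 16649464) (a (l 16670464) (l 16650872))) (l 16682208))) (b (b (a (a (b (l 16673392) (l 16693928)) (l 16690640)) (l 16688864)) (a (a (l 6) (l 16718712)) (l 4))) (l 6)))) (b (b (l 18050936) (b (l 17922360) (l 17743200))) (b (b (l 17265784) (b (l 17131800) (l 4))) (l 4)))) (b (b (l 17949952) (a (l 17799504) (l 17736304))) (b (l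 4) (l 4)))) (b (b (l 17678320) (l 4)) (l 4))) (l 4)) (l 4)), by decide +kernel⟩

theorem c_pp_022_a : CertF 0 536870912 0 536870912 67108864 67108864 true true true .pp 0 2 2
    ndF1q0 ndF1q2a pcF2 cut_pp_022_a Ext.none :=
  certFK0 (fam := true) (s1 := true) (s2 := true) (a := 0) (b := 2) (c := 2) (cn := .pp) (n1 := ndF1q0) (n2 := ndF1q2a) (pc := pcF2) (cut := cut_pp_022_a) (xt := Ext.none) (P1 := 0) (W1 := 536870912) (P2 := 0) (W2 := 536870912) (P3 := 67108864) (W3 := 67108864)
    rfl rfl rfl k0_pp_022_a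

noncomputable def cut_pp_022_b : Cut := Cut.of [[⟨0, 0, 0, 67108864⟩, ⟨1, 1, 0, 67108864⟩, ⟨2, 1, 0, 67108864⟩]]

noncomputable def f_pp_022_b : ℕ → ℕ → ℕ → ℕ → Bool := onCell 0 536870912 1239849684 370763052 67108864 67108864
    (rowFK 0 true true true .pp 0 2 2 (qsf 0 536870912 1239849684 370763052 2) ndF1q0 ndF1q2b pcF2 cut_pp_022_b Ext.none)

def k0_pp_022_b : ∃ t, chk3 f_pp_022_b t 1 1 1 = true :=
  ⟨(a (a (b (a (b (a (b (a (b (l 18248264) (l 18437568)) (l 18272944)) (l 18581712)) (b (l 18136656) (l 18355920))) (a (l 18789272) (l 18533480))) (b (a (l 18040072) (l 4)) (l 4))) (a (b (a (l 18852568) (l 4)) (l 4)) (l 4))) (l 4)) (l 4)), by decide +kernel⟩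

theorem c_pp_022_b : CertF 0 536870912 1239849684 370763052 67108864 67108864 true true true .pp 0 2 2
    ndF1q0 ndF1q2b pcF2 cut_pp_022_b Ext.none :=
  certFK0 (fam := true) (s1 := true) (s2 := true) (a := 0) (b := 2) (c := 2) (cn := .pp) (n1 := ndF1q0) (n2 := ndF1q2b) (pc := pcF2) (cut := cut_pp_022_b) (xt := Ext.none) (P1 := 0) (W1 := 536870912) (P2 := 1239849684) (W2 := 370763052) (P3 := 67108864) (W3 := 67108864)
    rfl rfl rfl k0_pp_022_b

noncomputable def f_pp_023_a : ℕ → ℕ → ℕ → ℕ → Bool := onCell 1610612736 536870912 0 536870912 67108864 67108864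
    (rowFK 2 true true true .up 0 2 3 (qsf 0 536870912 0 536870912 3) ndF1q0 ndF1q2a pcF3 Cut.none Ext.none)

def k0_pp_023_a : ∃ t, chk3 f_pp_023_a t 1 1 1 = true :=
  ⟨(l 4), by decide +kernel⟩

theorem c_pp_023_a : CertF 0 536870912 0 536870912 67108864 67108864 true true true .up 0 2 3
    ndF1q0 ndF1q2a pcF3 Cut.none Ext.none :=
  certFK2 (fam := true) (s1 := true) (s2 := true) (a := 0) (b := 2) (c := 3) (cn := .up) (n1 := ndF1q0) (n2 := ndF1q2a) (pc := pcF3) (cut := Cut.none) (xt := Ext.none) (P1 := 0) (W1 := 536870912) (P2 := 0) (W2 := 536870912) (P3 := 67108864) (W3 := 67108864)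
    rfl rfl rfl (fun _ => rfl) k0_pp_023_a

noncomputable def f_pp_023_b : ℕ → ℕ → ℕ → ℕ → Bool := onCell 1610612736 536870912 1239849684 370763052 67108864 67108864
    (rowFK 2 true true true .up 0 2 3 (qsf 0 536870912 1239849684 370763052 3) ndF1q0 ndF1q2b pcF3 Cut.none Ext.none)

def k0_pp_023_b : ∃ t, chk3 f_pp_023_b t 1 1 1 = true :=
  ⟨(l 4), by decide +kernel⟩

theorem c_pp_023_b : CertF 0 536870912 1239849684 370763052 67108864 67108864 true true true .up 0 2 3
    ndF1q0 ndF1q2b pcF3 Cut.none Ext.none :=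
  certFK2 (fam := true) (s1 := true) (s2 := true) (a := 0) (b := 2) (c := 3) (cn := .up) (n1 := ndF1q0) (n2 := ndF1q2b) (pc := pcF3) (cut := Cut.none) (xt := Ext.none) (P1 := 0) (W1 := 536870912) (P2 := 1239849684) (W2 := 370763052) (P3 := 67108864) (W3 := 67108864)
    rfl rfl rfl (fun _ => rfl) k0_pp_023_b

noncomputable def f_pp_033 : ℕ → ℕ → ℕ → ℕ → Bool := onCell 0 536870912 1610612736 536870912 67108864 67108864
    (rowFK 0 true true true .pnn 0 3 3 (qsf 0 536870912 1610612736 536870912 3) ndF1q0 ndF1q3 pcF3 Cut.none Ext.none)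

def k0_pp_033 : ∃ t, chk3 f_pp_033 t 1 1 1 = true :=
  ⟨(a (l 4) (l 4)), by decide +kernel⟩

theorem c_pp_033 : CertF 0 536870912 1610612736 536870912 67108864 67108864 true true true .pnn 0 3 3
    ndF1q0 ndF1q3 pcF3 Cut.none Ext.none :=
  certFK0 (fam := true) (s1 := true) (s2 := true) (a := 0) (b := 3) (c := 3) (cn := .pnn) (n1 := ndF1q0) (n2 := ndF1q3) (pc := pcF3) (cut := Cut.none) (xt := Ext.none) (P1 := 0) (W1 := 536870912) (P2 := 1610612736) (W2 := 536870912) (P3 := 67108864) (W3 := 67108864)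
    rfl rfl rfl k0_pp_033

noncomputable def f_pp_101 : ℕ → ℕ → ℕ → ℕ → Bool := onCell 536870912 536870912 0 536870912 67108864 67108864
    (rowFK 0 true true true .npn 1 0 1 (qsf 536870912 536870912 0 536870912 1) ndF1q1 ndF1q0 pcF1 Cut.none Ext.none)

def k0_pp_101 : ∃ t, chk3 f_pp_101 t 1 1 1 = true :=
  ⟨(l 4), by decide +kernel⟩

theorem c_pp_101 : CertF 536870912 536870912 0 536870912 67108864 67108864 true true true .npn 1 0 1
    ndF1q1 ndF1q0 pcF1 Cut.none Ext.none :=
  certFK0 (fam := true) (s1 := true) (s2 := true) (a := 1) (b := 0) (c := 1) (cn := .npn) (n1 := ndF1q1) (n2 := ndF1q0) (pc := pcF1) (cut := Cut.none) (xt := Ext.none) (P1 := 536870912) (W1 := 536870912) (P2 := 0) (W2 := 536870912) (P3 := 67108864) (W3 := 67108864)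
    rfl rfl rfl k0_pp_101

noncomputable def f_pp_102 : ℕ → ℕ → ℕ → ℕ → Bool := onCell 536870912 536870912 0 536870912 67108864 67108864
    (rowFK 0 true true true .npp 1 0 2 (qsf 536870912 536870912 0 536870912 2) ndF1q1 ndF1q0 pcF2 Cut.none Ext.none)

def k0_pp_102 : ∃ t, chk3 f_pp_102 t 1 1 1 = true :=
  ⟨(l 4), by decide +kernel⟩

theorem c_pp_102 : CertF 536870912 536870912 0 536870912 67108864 67108864 true true true .npp 1 0 2
    ndF1q1 ndF1q0 pcF2 Cut.none Ext.none :=
  certFK0 (fam := true) (s1 := true) (s2 := true) (a := 1) (b := 0) (c := 2) (cn := .npp) (n1 := ndF1q1) (n2 := ndF1q0) (pc := pcF2) (cut := Cut.none) (xt := Ext.none) (P1 := 536870912) (W1 := 536870912) (P2 := 0) (W2 := 536870912) (P3 := 67108864) (W3 := 67108864)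
    rfl rfl rfl k0_pp_102

noncomputable def f_pp_112 : ℕ → ℕ → ℕ → ℕ → Bool := onCell 536870912 536870912 536870912 536870912 67108864 67108864
    (rowFK 0 true true true .dn 1 1 2 (qsf 536870912 536870912 536870912 536870912 2) ndF1q1 ndF1q1 pcF2 Cut.none Ext.none)

def k0_pp_112 : ∃ t, chk3 f_pp_112 t 1 1 1 = true :=
  ⟨(l 4), by decide +kernel⟩

theorem c_pp_112 : CertF 536870912 536870912 536870912 536870912 67108864 67108864 true true true .dn 1 1 2
    ndF1q1 ndF1q1 pcF2 Cut.none Ext.none :=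
  certFK0 (fam := true) (s1 := true) (s2 := true) (a := 1) (b := 1) (c := 2) (cn := .dn) (n1 := ndF1q1) (n2 := ndF1q1) (pc := pcF2) (cut := Cut.none) (xt := Ext.none) (P1 := 536870912) (W1 := 536870912) (P2 := 536870912) (W2 := 536870912) (P3 := 67108864) (W3 := 67108864)
    rfl rfl rfl k0_pp_112

noncomputable def f_pp_113 : ℕ → ℕ → ℕ → ℕ → Bool := onCell 536870912 536870912 536870912 536870912 67108864 67108864
    (rowFK 0 true true true .nn 1 1 3 (qsf 536870912 536870912 536870912 536870912 3) ndF1q1 ndF1q1 pcF3 Cut.none Ext.none)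

def k0_pp_113 : ∃ t, chk3 f_pp_113 t 1 1 1 = true :=
  ⟨(l 4), by decide +kernel⟩

theorem c_pp_113 : CertF 536870912 536870912 536870912 536870912 67108864 67108864 true true true .nn 1 1 3
    ndF1q1 ndF1q1 pcF3 Cut.none Ext.none :=
  certFK0 (fam := true) (s1 := true) (s2 := true) (a := 1) (b := 1) (c := 3) (cn := .nn) (n1 := ndF1q1) (n2 := ndF1q1) (pc := pcF3) (cut := Cut.none) (xt := Ext.none) (P1 := 536870912) (W1 := 536870912) (P2 := 536870912) (W2 := 536870912) (P3 := 67108864) (W3 := 67108864)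
    rfl rfl rfl k0_pp_113

noncomputable def f_pp_123_a : ℕ → ℕ → ℕ → ℕ → Bool := onCell 536870912 536870912 0 536870912 67108864 67108864
    (rowFK 0 true true true .npn 1 2 3 (qsf 536870912 536870912 0 536870912 3) ndF1q1 ndF1q2a pcF3 Cut.none Ext.none)

def k0_pp_123_a : ∃ t, chk3 f_pp_123_a t 1 1 1 = true :=
  ⟨(l 4), by decide +kernel⟩

theorem c_pp_123_a : CertF 536870912 536870912 0 536870912 67108864 67108864 true true true .npn 1 2 3
    ndF1q1 ndF1q2a pcF3 Cut.none Ext.none :=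
  certFK0 (fam := true) (s1 := true) (s2 := true) (a := 1) (b := 2) (c := 3) (cn := .npn) (n1 := ndF1q1) (n2 := ndF1q2a) (pc := pcF3) (cut := Cut.none) (xt := Ext.none) (P1 := 536870912) (W1 := 536870912) (P2 := 0) (W2 := 536870912) (P3 := 67108864) (W3 := 67108864)
    rfl rfl rfl k0_pp_123_a

noncomputable def f_pp_123_b : ℕ → ℕ → ℕ → ℕ → Bool := onCell 536870912 536870912 1239849684 370763052 67108864 67108864
    (rowFK 0 true true true .npn 1 2 3 (qsf 536870912 536870912 1239849684 370763052 3) ndF1q1 ndF1q2b pcF3 Cut.none Ext.none)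

def k0_pp_123_b : ∃ t, chk3 f_pp_123_b t 1 1 1 = true :=
  ⟨(l 4), by decide +kernel⟩

theorem c_pp_123_b : CertF 536870912 536870912 1239849684 370763052 67108864 67108864 true true true .npn 1 2 3
    ndF1q1 ndF1q2b pcF3 Cut.none Ext.none :=
  certFK0 (fam := true) (s1 := true) (s2 := true) (a := 1) (b := 2) (c := 3) (cn := .npn) (n1 := ndF1q1) (n2 := ndF1q2b) (pc := pcF3) (cut := Cut.none) (xt := Ext.none) (P1 := 536870912) (W1 := 536870912) (P2 := 1239849684) (W2 := 370763052) (P3 := 67108864) (W3 := 67108864)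
    rfl rfl rfl k0_pp_123_b

noncomputable def f_pp_133 : ℕ → ℕ → ℕ → ℕ → Bool := onCell 536870912 536870912 1610612736 536870912 67108864 67108864
    (rowFK 0 true true true .dn 1 3 3 (qsf 536870912 536870912 1610612736 536870912 3) ndF1q1 ndF1q3 pcF3 Cut.none Ext.none)

def k0_pp_133 : ∃ t, chk3 f_pp_133 t 1 1 1 = true :=
  ⟨(l 4), by decide +kernel⟩

theorem c_pp_133 : CertF 536870912 536870912 1610612736 536870912 67108864 67108864 true true true .dn 1 3 3
    ndF1q1 ndF1q3 pcF3 Cut.none Ext.none :=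
  certFK0 (fam := true) (s1 := true) (s2 := true) (a := 1) (b := 3) (c := 3) (cn := .dn) (n1 := ndF1q1) (n2 := ndF1q3) (pc := pcF3) (cut := Cut.none) (xt := Ext.none) (P1 := 536870912) (W1 := 536870912) (P2 := 1610612736) (W2 := 536870912) (P3 := 67108864) (W3 := 67108864)
    rfl rfl rfl k0_pp_133

noncomputable def f_pp_202_a : ℕ → ℕ → ℕ → ℕ → Bool := onCell 0 536870912 0 536870912 67108864 67108864
    (rowFK 0 true true true .pp 2 0 2 (qsf 0 536870912 0 536870912 2) ndF1q2a ndF1q0 pcF2 Cut.none Ext.none)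

def k0_pp_202_a : ∃ t, chk3 f_pp_202_a t 1 1 1 = true :=
  ⟨(l 5), by decide +kernel⟩

theorem c_pp_202_a : CertF 0 536870912 0 536870912 67108864 67108864 true true true .pp 2 0 2
    ndF1q2a ndF1q0 pcF2 Cut.none Ext.none :=
  certFK0 (fam := true) (s1 := true) (s2 := true) (a := 2) (b := 0) (c := 2) (cn := .pp) (n1 := ndF1q2a) (n2 := ndF1q0) (pc := pcF2) (cut := Cut.none) (xt := Ext.none) (P1 := 0) (W1 := 536870912) (P2 := 0) (W2 := 536870912) (P3 := 67108864) (W3 := 67108864)
    rfl rfl rfl k0_pp_202_a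

noncomputable def f_pp_202_b : ℕ → ℕ → ℕ → ℕ → Bool := onCell 1239849684 370763052 0 536870912 67108864 67108864
    (rowFK 0 true true true .pp 2 0 2 (qsf 1239849684 370763052 0 536870912 2) ndF1q2b ndF1q0 pcF2 Cut.none Ext.none)

def k0_pp_202_b : ∃ t, chk3 f_pp_202_b t 1 1 1 = true :=
  ⟨(l 5), by decide +kernel⟩

theorem c_pp_202_b : CertF 1239849684 370763052 0 536870912 67108864 67108864 true true true .pp 2 0 2
    ndF1q2b ndF1q0 pcF2 Cut.none Ext.none :=
  certFK0 (fam := true) (s1 := true) (s2 := true) (a := 2) (b := 0) (c := 2) (cn := .pp) (n1 := ndF1q2b) (n2 := ndF1q0) (pc := pcF2) (cut := Cut.none) (xt := Ext.none) (P1 := 1239849684) (W1 := 370763052) (P2 := 0) (W2 := 536870912) (P3 := 67108864) (W3 := 67108864)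
    rfl rfl rfl k0_pp_202_b

noncomputable def f_pp_203_a : ℕ → ℕ → ℕ → ℕ → Bool := onCell 0 536870912 0 536870912 67108864 67108864
    (rowFK 0 true true true .up 2 0 3 (qsf 0 536870912 0 536870912 3) ndF1q2a ndF1q0 pcF3 Cut.none Ext.none)

def k0_pp_203_a : ∃ t, chk3 f_pp_203_a t 1 1 1 = true :=
  ⟨(l 5), by decide +kernel⟩

theorem c_pp_203_a : CertF 0 536870912 0 536870912 67108864 67108864 true true true .up 2 0 3
    ndF1q2a ndF1q0 pcF3 Cut.none Ext.none :=
  certFK0 (fam := true) (s1 := true) (s2 := true) (a := 2) (b := 0) (c := 3) (cn := .up) (n1 := ndF1q2a) (n2 := ndF1q0) (pc := pcF3) (cut := Cut.none) (xt := Ext.none) (P1 := 0) (W1 := 536870912) (P2 := 0) (W2 := 536870912) (P3 := 67108864) (W3 := 67108864)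
    rfl rfl rfl k0_pp_203_a

noncomputable def f_pp_203_b : ℕ → ℕ → ℕ → ℕ → Bool := onCell 1239849684 370763052 0 536870912 67108864 67108864
    (rowFK 0 true true true .up 2 0 3 (qsf 1239849684 370763052 0 536870912 3) ndF1q2b ndF1q0 pcF3 Cut.none Ext.none)

def k0_pp_203_b : ∃ t, chk3 f_pp_203_b t 1 1 1 = true :=
  ⟨(l 5), by decide +kernel⟩

theorem c_pp_203_b : CertF 1239849684 370763052 0 536870912 67108864 67108864 true true true .up 2 0 3
    ndF1q2b ndF1q0 pcF3 Cut.none Ext.none :=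
  certFK0 (fam := true) (s1 := true) (s2 := true) (a := 2) (b := 0) (c := 3) (cn := .up) (n1 := ndF1q2b) (n2 := ndF1q0) (pc := pcF3) (cut := Cut.none) (xt := Ext.none) (P1 := 1239849684) (W1 := 370763052) (P2 := 0) (W2 := 536870912) (P3 := 67108864) (W3 := 67108864)
    rfl rfl rfl k0_pp_203_b

noncomputable def f_pp_213_a : ℕ → ℕ → ℕ → ℕ → Bool := onCell 0 536870912 536870912 536870912 67108864 67108864
    (rowFK 0 true true true .pnn 2 1 3 (qsf 0 536870912 536870912 536870912 3) ndF1q2a ndF1q1 pcF3 Cut.none Ext.none)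

def k0_pp_213_a : ∃ t, chk3 f_pp_213_a t 1 1 1 = true :=
  ⟨(l 4), by decide +kernel⟩

theorem c_pp_213_a : CertF 0 536870912 536870912 536870912 67108864 67108864 true true true .pnn 2 1 3
    ndF1q2a ndF1q1 pcF3 Cut.none Ext.none :=
  certFK0 (fam := true) (s1 := true) (s2 := true) (a := 2) (b := 1) (c := 3) (cn := .pnn) (n1 := ndF1q2a) (n2 := ndF1q1) (pc := pcF3) (cut := Cut.none) (xt := Ext.none) (P1 := 0) (W1 := 536870912) (P2 := 536870912) (W2 := 536870912) (P3 := 67108864) (W3 := 67108864)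
    rfl rfl rfl k0_pp_213_a

noncomputable def f_pp_213_b : ℕ → ℕ → ℕ → ℕ → Bool := onCell 1239849684 370763052 536870912 536870912 67108864 67108864
    (rowFK 0 true true true .pnn 2 1 3 (qsf 1239849684 370763052 536870912 536870912 3) ndF1q2b ndF1q1 pcF3 Cut.none Ext.none)

def k0_pp_213_b : ∃ t, chk3 f_pp_213_b t 1 1 1 = true :=
  ⟨(l 4), by decide +kernel⟩

theorem c_pp_213_b : CertF 1239849684 370763052 536870912 536870912 67108864 67108864 true true true .pnn 2 1 3
    ndF1q2b ndF1q1 pcF3 Cut.none Ext.none :=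
  certFK0 (fam := true) (s1 := true) (s2 := true) (a := 2) (b := 1) (c := 3) (cn := .pnn) (n1 := ndF1q2b) (n2 := ndF1q1) (pc := pcF3) (cut := Cut.none) (xt := Ext.none) (P1 := 1239849684) (W1 := 370763052) (P2 := 536870912) (W2 := 536870912) (P3 := 67108864) (W3 := 67108864)
    rfl rfl rfl k0_pp_213_b

noncomputable def f_pp_303 : ℕ → ℕ → ℕ → ℕ → Bool := onCell 1610612736 536870912 0 536870912 67108864 67108864
    (rowFK 0 true true true .npn 3 0 3 (qsf 1610612736 536870912 0 536870912 3) ndF1q3 ndF1q0 pcF3 Cut.none Ext.none)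

def k0_pp_303 : ∃ t, chk3 f_pp_303 t 1 1 1 = true :=
  ⟨(l 5), by decide +kernel⟩

theorem c_pp_303 : CertF 1610612736 536870912 0 536870912 67108864 67108864 true true true .npn 3 0 3
    ndF1q3 ndF1q0 pcF3 Cut.none Ext.none :=
  certFK0 (fam := true) (s1 := true) (s2 := true) (a := 3) (b := 0) (c := 3) (cn := .npn) (n1 := ndF1q3) (n2 := ndF1q0) (pc := pcF3) (cut := Cut.none) (xt := Ext.none) (P1 := 1610612736) (W1 := 536870912) (P2 := 0) (W2 := 536870912) (P3 := 67108864) (W3 := 67108864)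
    rfl rfl rfl k0_pp_303

noncomputable def f_pp_313 : ℕ → ℕ → ℕ → ℕ → Bool := onCell 1610612736 536870912 536870912 536870912 67108864 67108864
    (rowFK 0 true true true .dn 3 1 3 (qsf 1610612736 536870912 536870912 536870912 3) ndF1q3 ndF1q1 pcF3 Cut.none Ext.none)

def k0_pp_313 : ∃ t, chk3 f_pp_313 t 1 1 1 = true :=
  ⟨(l 4), by decide +kernel⟩

theorem c_pp_313 : CertF 1610612736 536870912 536870912 536870912 67108864 67108864 true true true .dn 3 1 3
    ndF1q3 ndF1q1 pcF3 Cut.none Ext.none :=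
  certFK0 (fam := true) (s1 := true) (s2 := true) (a := 3) (b := 1) (c := 3) (cn := .dn) (n1 := ndF1q3) (n2 := ndF1q1) (pc := pcF3) (cut := Cut.none) (xt := Ext.none) (P1 := 1610612736) (W1 := 536870912) (P2 := 536870912) (W2 := 536870912) (P3 := 67108864) (W3 := 67108864)
    rfl rfl rfl k0_pp_313

noncomputable def f_pm_001 : ℕ → ℕ → ℕ → ℕ → Bool := onCell 0 536870912 0 536870912 67108864 67108864
    (rowFK 0 true true false .up 0 0 1 (qsf 0 536870912 0 536870912 1) ndF1q0 ndF1q0 pcF1 Cut.none Ext.none)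

def k0_pm_001 : ∃ t, chk3 f_pm_001 t 1 1 1 = true :=
  ⟨(l 3), by decide +kernel⟩

theorem c_pm_001 : CertF 0 536870912 0 536870912 67108864 67108864 true true false .up 0 0 1
    ndF1q0 ndF1q0 pcF1 Cut.none Ext.none :=
  certFK0 (fam := true) (s1 := true) (s2 := false) (a := 0) (b := 0) (c := 1) (cn := .up) (n1 := ndF1q0) (n2 := ndF1q0) (pc := pcF1) (cut := Cut.none) (xt := Ext.none) (P1 := 0) (W1 := 536870912) (P2 := 0) (W2 := 536870912) (P3 := 67108864) (W3 := 67108864)
    rfl rfl rfl k0_pm_001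

noncomputable def f_pm_011 : ℕ → ℕ → ℕ → ℕ → Bool := onCell 0 536870912 536870912 536870912 67108864 67108864
    (rowFK 1 true true false .pnn 0 1 1 (qsf 0 536870912 536870912 536870912 1) ndF1q0 ndF1q1 pcF1 Cut.none Ext.none)

def k0_pm_011 : ∃ t, chk3 f_pm_011 t 1 1 1 = true :=
  ⟨(l 3), by decide +kernel⟩

theorem c_pm_011 : CertF 0 536870912 536870912 536870912 67108864 67108864 true true false .pnn 0 1 1
    ndF1q0 ndF1q1 pcF1 Cut.none Ext.none :=
  certFK1 (fam := true) (s1 := true) (s2 := false) (a := 0) (b := 1) (c := 1) (cn := .pnn) (n1 := ndF1q0) (n2 := ndF1q1) (pc := pcF1) (cut := Cut.none) (xt := Ext.none) (P1 := 0) (W1 := 536870912) (P2 := 536870912) (W2 := 536870912) (P3 := 67108864) (W3 := 67108864)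
    rfl rfl rfl (fun _ => rfl) k0_pm_011

noncomputable def f_pm_012 : ℕ → ℕ → ℕ → ℕ → Bool := onCell 1073741824 536870912 536870912 536870912 67108864 67108864
    (rowFK 2 true true false .pnp 0 1 2 (qsf 0 536870912 536870912 536870912 2) ndF1q0 ndF1q1 pcF2 Cut.none Ext.none)

def k0_pm_012 : ∃ t, chk3 f_pm_012 t 1 1 1 = true :=
  ⟨(a (a (l 3) (a (a (a (l 3) (a (l 3) (b (l 17379400) (a (l 3) (b (l 17101080) (l 17679120)))))) (b (l 17344336) (b (l 17091448) (l 17722952)))) (b (l 17271712) (b (l 17085512) (l 17862464))))) (b (b (l 2) (l 16965712)) (b (l 17092072) (a (l 17929824) (l 17859584))))), by decide +kernel⟩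

theorem c_pm_012 : CertF 0 536870912 536870912 536870912 67108864 67108864 true true false .pnp 0 1 2
    ndF1q0 ndF1q1 pcF2 Cut.none Ext.none :=
  certFK2 (fam := true) (s1 := true) (s2 := false) (a := 0) (b := 1) (c := 2) (cn := .pnp) (n1 := ndF1q0) (n2 := ndF1q1) (pc := pcF2) (cut := Cut.none) (xt := Ext.none) (P1 := 0) (W1 := 536870912) (P2 := 536870912) (W2 := 536870912) (P3 := 67108864) (W3 := 67108864)
    rfl rfl rfl (fun _ => rfl) k0_pm_012

noncomputable def cut_pm_022_a : Cut := Cut.of [[⟨0, 0, 0, 67108864⟩, ⟨1, 1, 0, 67108864⟩, ⟨2, 1, 0, 67108864⟩]]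

noncomputable def f_pm_022_a : ℕ → ℕ → ℕ → ℕ → Bool := onCell 0 536870912 0 536870912 67108864 67108864
    (rowFK 0 true true false .pp 0 2 2 (qsf 0 536870912 0 536870912 2) ndF1q0 ndF1q2a pcF2 cut_pm_022_a Ext.none)

def k0_pm_022_a : ∃ t, chk3 f_pm_022_a t 1 1 1 = true :=
  ⟨(a (b (a (a (a (b (l 18009688) (a (b (a (l 17877856) (l 18022112)) (c (l 18205240) (b (l 17404872) (l 16969792)))) (l 18001392))) (l 18159152)) (l 18166408)) (a (l 18075544) (l 17940840))) (a (b (a (a (b (a (a (c (c (l 18086616) (b (l 17667112) (l 17349960))) (b (l 16880784) (l 16635000))) (b (l 17543072) (l 17288352))) (l 17499416)) (a (a (a (b (l 16669816) (b (l 16655304) (l 16672728))) (b (l 16745816) (l 16671752))) (l 16715008)) (b (l 17230032) (l 16855856)))) (b (l 17835952) (a (l 17368128) (l 17577056)))) (a (l 17878192) (l 17966112))) (a (b (a (a (b (a (a (b (a (l 16683008) (l 16667096)) (a (b (l 16678200) (l 6)) (l 16697616))) (l 16711176)) (l 16696384)) (a (b (a (l 6) (l 16701464))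 (l 6)) (a (l 16757456) (l 16733832)))) (b (l 16689472) (a (l 16729864) (l 16700656)))) (b (l 17057576) (l 16815752))) (a (b (a (l 6) (a (l 6) (l 16849872))) (l 6)) (b (a (l 16852360) (l 16737792)) (a (b (l 16880272) (l 6)) (l 16990248))))) (b (a (l 17416000) (l 17671776)) (a (b (l 17017872) (l 16949320)) (b (l 17435936) (l 17243832)))))) (b (l 17976104) (a (b (l 17829392) (a (l 17566976) (l 17686304))) (l 17822888))))) (b (a (l 17717880) (l 17455528)) (a (b (l 17780744) (l 17764488)) (b (l 17555656) (l 17589976))))), by decide +kernel⟩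

theorem c_pm_022_a : CertF 0 536870912 0 536870912 67108864 67108864 true true false .pp 0 2 2
    ndF1q0 ndF1q2a pcF2 cut_pm_022_a Ext.none :=
  certFK0 (fam := true) (s1 := true) (s2 := false) (a := 0) (b := 2) (c := 2) (cn := .pp) (n1 := ndF1q0) (n2 := ndF1q2a) (pc := pcF2) (cut := cut_pm_022_a) (xt := Ext.none) (P1 := 0) (W1 := 536870912) (P2 := 0) (W2 := 536870912) (P3 := 67108864) (W3 := 67108864)
    rfl rfl rfl k0_pm_022_a

noncomputable def cut_pm_022_b : Cut := Cut.of [[⟨0, 0, 0, 67108864⟩, ⟨1, 1, 0, 67108864⟩, ⟨2, 1, 0, 67108864⟩]]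

noncomputable def f_pm_022_b : ℕ → ℕ → ℕ → ℕ → Bool := onCell 0 536870912 1073741824 536870912 67108864 67108864
    (rowFK 1 true true false .pp 0 2 2 (qsf 0 536870912 1239849684 370763052 2) ndF1q0 ndF1q2b pcF2 cut_pm_022_b Ext.none)

def k0_pm_022_b : ∃ t, chk3 f_pm_022_b t 1 1 1 = true :=
  ⟨(a (b (b (l 1) (a (b (a (a (b (l 171834357255) (l 18226472)) (l 151969605239)) (l 1)) (a (l 18453792) (l 18032712))) (l 1))) (b (a (b (l 18501296) (l 18636744)) (a (l 18062592) (l 269008293175))) (a (l 18706360) (l 18145944)))) (b (l 1) (b (l 1) (a (l 17601544) (l 1))))), by decide +kernel⟩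

theorem c_pm_022_b : CertF 0 536870912 1239849684 370763052 67108864 67108864 true true false .pp 0 2 2
    ndF1q0 ndF1q2b pcF2 cut_pm_022_b Ext.none :=
  certFK1 (fam := true) (s1 := true) (s2 := false) (a := 0) (b := 2) (c := 2) (cn := .pp) (n1 := ndF1q0) (n2 := ndF1q2b) (pc := pcF2) (cut := cut_pm_022_b) (xt := Ext.none) (P1 := 0) (W1 := 536870912) (P2 := 1239849684) (W2 := 370763052) (P3 := 67108864) (W3 := 67108864)
    rfl rfl rfl (fun _ => rfl) k0_pm_022_b

noncomputable def f_pm_023_a : ℕ → ℕ → ℕ → ℕ → Bool := onCell 1610612736 536870912 0 536870912 67108864 67108864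
    (rowFK 2 true true false .up 0 2 3 (qsf 0 536870912 0 536870912 3) ndF1q0 ndF1q2a pcF3 Cut.none Ext.none)

def k0_pm_023_a : ∃ t, chk3 f_pm_023_a t 1 1 1 = true :=
  ⟨(a (a (b (l 17740096) (a (l 18126152) (l 17949184))) (b (l 17432120) (l 17722392))) (l 2)), by decide +kernel⟩

theorem c_pm_023_a : CertF 0 536870912 0 536870912 67108864 67108864 true true false .up 0 2 3
    ndF1q0 ndF1q2a pcF3 Cut.none Ext.none :=
  certFK2 (fam := true) (s1 := true) (s2 := false) (a := 0) (b := 2) (c := 3) (cn := .up) (n1 := ndF1q0) (n2 := ndF1q2a) (pc := pcF3) (cut := Cut.none) (xt := Ext.none) (P1 := 0) (W1 := 536870912) (P2 := 0) (W2 := 536870912) (P3 := 67108864) (W3 := 67108864)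
    rfl rfl rfl (fun _ => rfl) k0_pm_023_a

noncomputable def f_pm_023_b : ℕ → ℕ → ℕ → ℕ → Bool := onCell 1610612736 536870912 1239849684 370763052 67108864 67108864
    (rowFK 2 true true false .up 0 2 3 (qsf 0 536870912 1239849684 370763052 3) ndF1q0 ndF1q2b pcF3 Cut.none Ext.none)

def k0_pm_023_b : ∃ t, chk3 f_pm_023_b t 1 1 1 = true :=
  ⟨(a (a (b (l 17785192) (l 18108056)) (a (l 17697384) (l 17533976))) (a (l 4) (l 4))), by decide +kernel⟩

theorem c_pm_023_b : CertF 0 536870912 1239849684 370763052 67108864 67108864 true true false .up 0 2 3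
    ndF1q0 ndF1q2b pcF3 Cut.none Ext.none :=
  certFK2 (fam := true) (s1 := true) (s2 := false) (a := 0) (b := 2) (c := 3) (cn := .up) (n1 := ndF1q0) (n2 := ndF1q2b) (pc := pcF3) (cut := Cut.none) (xt := Ext.none) (P1 := 0) (W1 := 536870912) (P2 := 1239849684) (W2 := 370763052) (P3 := 67108864) (W3 := 67108864)
    rfl rfl rfl (fun _ => rfl) k0_pm_023_b

noncomputable def f_pm_033 : ℕ → ℕ → ℕ → ℕ → Bool := onCell 0 536870912 1610612736 536870912 67108864 67108864
    (rowFK 1 true true false .pnn 0 3 3 (qsf 0 536870912 1610612736 536870912 3) ndF1q0 ndF1q3 pcF3 Cut.none Ext.none)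

def k0_pm_033 : ∃ t, chk3 f_pm_033 t 1 1 1 = true :=
  ⟨(b (b (a (a (l 17951840) (l 17717000)) (l 1)) (a (a (l 18199136) (l 17668752)) (b (l 1) (l 17223464)))) (a (a (b (l 4) (l 4)) (l 4)) (l 4))), by decide +kernel⟩

theorem c_pm_033 : CertF 0 536870912 1610612736 536870912 67108864 67108864 true true false .pnn 0 3 3
    ndF1q0 ndF1q3 pcF3 Cut.none Ext.none :=
  certFK1 (fam := true) (s1 := true) (s2 := false) (a := 0) (b := 3) (c := 3) (cn := .pnn) (n1 := ndF1q0) (n2 := ndF1q3) (pc := pcF3) (cut := Cut.none) (xt := Ext.none) (P1 := 0) (W1 := 536870912) (P2 := 1610612736) (W2 := 536870912) (P3 := 67108864) (W3 := 67108864)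
    rfl rfl rfl (fun _ => rfl) k0_pm_033

noncomputable def f_pm_101 : ℕ → ℕ → ℕ → ℕ → Bool := onCell 536870912 536870912 0 536870912 67108864 67108864
    (rowFK 2 true true false .npn 1 0 1 (qsf 536870912 536870912 0 536870912 1) ndF1q1 ndF1q0 pcF1 Cut.none Ext.none)

def k0_pm_101 : ∃ t, chk3 f_pm_101 t 1 1 1 = true :=
  ⟨(l 3), by decide +kernel⟩

theorem c_pm_101 : CertF 536870912 536870912 0 536870912 67108864 67108864 true true false .npn 1 0 1
    ndF1q1 ndF1q0 pcF1 Cut.none Ext.none :=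
  certFK2 (fam := true) (s1 := true) (s2 := false) (a := 1) (b := 0) (c := 1) (cn := .npn) (n1 := ndF1q1) (n2 := ndF1q0) (pc := pcF1) (cut := Cut.none) (xt := Ext.none) (P1 := 536870912) (W1 := 536870912) (P2 := 0) (W2 := 536870912) (P3 := 67108864) (W3 := 67108864)
    rfl rfl rfl (fun _ => rfl) k0_pm_101

noncomputable def f_pm_102 : ℕ → ℕ → ℕ → ℕ → Bool := onCell 536870912 536870912 1073741824 536870912 67108864 67108864
    (rowFK 1 true true false .npp 1 0 2 (qsf 536870912 536870912 0 536870912 2) ndF1q1 ndF1q0 pcF2 Cut.none Ext.none)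

def k0_pm_102 : ∃ t, chk3 f_pm_102 t 1 1 1 = true :=
  ⟨(b (b (l 3) (b (b (b (l 3) (b (l 3) (a (l 17379400) (a (l 17102736) (b (l 3) (l 17679120)))))) (a (l 17344336) (a (l 17091448) (a (l 17559192) (l 17933488))))) (a (l 17271712) (a (l 17085512) (a (l 17642456) (l 18112024)))))) (a (a (l 2) (l 16965712)) (a (l 17092072) (b (l 17929824) (l 17859584))))), by decide +kernel⟩

theorem c_pm_102 : CertF 536870912 536870912 0 536870912 67108864 67108864 true true false .npp 1 0 2
    ndF1q1 ndF1q0 pcF2 Cut.none Ext.none :=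
  certFK1 (fam := true) (s1 := true) (s2 := false) (a := 1) (b := 0) (c := 2) (cn := .npp) (n1 := ndF1q1) (n2 := ndF1q0) (pc := pcF2) (cut := Cut.none) (xt := Ext.none) (P1 := 536870912) (W1 := 536870912) (P2 := 0) (W2 := 536870912) (P3 := 67108864) (W3 := 67108864)
    rfl rfl rfl (fun _ => rfl) k0_pm_102

noncomputable def f_pm_112 : ℕ → ℕ → ℕ → ℕ → Bool := onCell 536870912 536870912 1073741824 536870912 67108864 67108864
    (rowFK 1 true true false .dn 1 1 2 (qsf 536870912 536870912 536870912 536870912 2) ndF1q1 ndF1q1 pcF2 Cut.none Ext.none)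

def k0_pm_112 : ∃ t, chk3 f_pm_112 t 1 1 1 = true :=
  ⟨(b (b (l 3) (a (b (b (b (l 3) (b (l 3) (l 17980696))) (l 17918640)) (l 17800160)) (a (b (l 1) (l 17348640)) (l 1)))) (a (b (l 17670920) (a (l 17679584) (l 17016336))) (a (l 17462904) (l 343097336887)))), by decide +kernel⟩

theorem c_pm_112 : CertF 536870912 536870912 536870912 536870912 67108864 67108864 true true false .dn 1 1 2
    ndF1q1 ndF1q1 pcF2 Cut.none Ext.none :=
  certFK1 (fam := true) (s1 := true) (s2 := false) (a := 1) (b := 1) (c := 2) (cn := .dn) (n1 := ndF1q1) (n2 := ndF1q1) (pc := pcF2) (cut := Cut.none) (xt := Ext.none) (P1 := 536870912) (W1 := 536870912) (P2 := 536870912) (W2 := 536870912) (P3 := 67108864) (W3 := 67108864)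
    rfl rfl rfl (fun _ => rfl) k0_pm_112

noncomputable def f_pm_113 : ℕ → ℕ → ℕ → ℕ → Bool := onCell 536870912 536870912 536870912 536870912 67108864 67108864
    (rowFK 0 true true false .nn 1 1 3 (qsf 536870912 536870912 536870912 536870912 3) ndF1q1 ndF1q1 pcF3 Cut.none Ext.none)

def k0_pm_113 : ∃ t, chk3 f_pm_113 t 1 1 1 = true :=
  ⟨(a (b (l 446712516151) (b (l 17434568) (l 18343760))) (b (a (l 17434568) (l 18343760)) (b (l 17353056) (a (l 17549416) (b (l 17092168) (a (l 17189264) (b (l 16947336) (a (l 16978416) (a (l 16864104) (b (l 16874552) (a (l 16820904) (b (l 16824752) (a (l 16799088) (l 16796072)))))))))))))), by decide +kernel⟩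

theorem c_pm_113 : CertF 536870912 536870912 536870912 536870912 67108864 67108864 true true false .nn 1 1 3
    ndF1q1 ndF1q1 pcF3 Cut.none Ext.none :=
  certFK0 (fam := true) (s1 := true) (s2 := false) (a := 1) (b := 1) (c := 3) (cn := .nn) (n1 := ndF1q1) (n2 := ndF1q1) (pc := pcF3) (cut := Cut.none) (xt := Ext.none) (P1 := 536870912) (W1 := 536870912) (P2 := 536870912) (W2 := 536870912) (P3 := 67108864) (W3 := 67108864)
    rfl rfl rfl k0_pm_113

noncomputable def f_pm_123_a : ℕ → ℕ → ℕ → ℕ → Bool := onCell 1610612736 536870912 0 536870912 67108864 67108864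
    (rowFK 2 true true false .npn 1 2 3 (qsf 536870912 536870912 0 536870912 3) ndF1q1 ndF1q2a pcF3 Cut.none Ext.none)

def k0_pm_123_a : ∃ t, chk3 f_pm_123_a t 1 1 1 = true :=
  ⟨(a (a (b (l 18199248) (b (l 18465808) (l 18729024))) (b (l 17989328) (a (l 18282952) (l 18034272)))) (a (b (l 17823744) (a (l 17773144) (l 17619576))) (a (l 4) (l 4)))), by decide +kernel⟩

theorem c_pm_123_a : CertF 536870912 536870912 0 536870912 67108864 67108864 true true false .npn 1 2 3
    ndF1q1 ndF1q2a pcF3 Cut.none Ext.none :=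
  certFK2 (fam := true) (s1 := true) (s2 := false) (a := 1) (b := 2) (c := 3) (cn := .npn) (n1 := ndF1q1) (n2 := ndF1q2a) (pc := pcF3) (cut := Cut.none) (xt := Ext.none) (P1 := 536870912) (W1 := 536870912) (P2 := 0) (W2 := 536870912) (P3 := 67108864) (W3 := 67108864)
    rfl rfl rfl (fun _ => rfl) k0_pm_123_a

noncomputable def f_pm_123_b : ℕ → ℕ → ℕ → ℕ → Bool := onCell 1610612736 536870912 1239849684 370763052 67108864 67108864
    (rowFK 2 true true false .npn 1 2 3 (qsf 536870912 536870912 1239849684 370763052 3) ndF1q1 ndF1q2b pcF3 Cut.none Ext.none)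

def k0_pm_123_b : ∃ t, chk3 f_pm_123_b t 1 1 1 = true :=
  ⟨(a (a (l 1) (a (l 18072840) (l 17955800))) (a (l 4) (l 4))), by decide +kernel⟩

theorem c_pm_123_b : CertF 536870912 536870912 1239849684 370763052 67108864 67108864 true true false .npn 1 2 3
    ndF1q1 ndF1q2b pcF3 Cut.none Ext.none :=
  certFK2 (fam := true) (s1 := true) (s2 := false) (a := 1) (b := 2) (c := 3) (cn := .npn) (n1 := ndF1q1) (n2 := ndF1q2b) (pc := pcF3) (cut := Cut.none) (xt := Ext.none) (P1 := 536870912) (W1 := 536870912) (P2 := 1239849684) (W2 := 370763052) (P3 := 67108864) (W3 := 67108864)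
    rfl rfl rfl (fun _ => rfl) k0_pm_123_b

noncomputable def f_pm_133 : ℕ → ℕ → ℕ → ℕ → Bool := onCell 536870912 536870912 1610612736 536870912 67108864 67108864
    (rowFK 0 true true false .dn 1 3 3 (qsf 536870912 536870912 1610612736 536870912 3) ndF1q1 ndF1q3 pcF3 Cut.none Ext.none)

def k0_pm_133 : ∃ t, chk3 f_pm_133 t 1 1 1 = true :=
  ⟨(l 4), by decide +kernel⟩

theorem c_pm_133 : CertF 536870912 536870912 1610612736 536870912 67108864 67108864 true true false .dn 1 3 3
    ndF1q1 ndF1q3 pcF3 Cut.none Ext.none :=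
  certFK0 (fam := true) (s1 := true) (s2 := false) (a := 1) (b := 3) (c := 3) (cn := .dn) (n1 := ndF1q1) (n2 := ndF1q3) (pc := pcF3) (cut := Cut.none) (xt := Ext.none) (P1 := 536870912) (W1 := 536870912) (P2 := 1610612736) (W2 := 536870912) (P3 := 67108864) (W3 := 67108864)
    rfl rfl rfl k0_pm_133

noncomputable def cut_pm_202_a : Cut := Cut.of [[⟨0, 1, 0, 67108864⟩, ⟨1, 0, 0, 67108864⟩, ⟨2, 1, 0, 67108864⟩]]

noncomputable def f_pm_202_a : ℕ → ℕ → ℕ → ℕ → Bool := onCell 0 536870912 0 536870912 67108864 67108864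
    (rowFK 0 true true false .pp 2 0 2 (qsf 0 536870912 0 536870912 2) ndF1q2a ndF1q0 pcF2 cut_pm_202_a Ext.none)

def k0_pm_202_a : ∃ t, chk3 f_pm_202_a t 1 1 1 = true :=
  ⟨(a (b (b (b (a (b (b (l 18145912) (l 18199920)) (l 18229144)) (b (b (a (b (l 17814752) (l 18022112)) (c (l 18204960) (b (a (l 17340688) (l 17144056)) (l 17378464)))) (a (l 18087864) (l 17912304))) (l 18099544))) (l 18166408)) (b (l 18075544) (l 17940840))) (b (l 17717880) (l 17455528))) (b (b (a (b (b (a (b (b (c (a (l 17929288) (b (l 17455360) (l 17716760))) (a (l 16880776) (l 16635000))) (a (l 17543072) (l 17288352))) (l 17415528)) (b (b (a (b (l 16669816) (l 16745816)) (a (l 16672248) (b (l 16672728) (l 16651648)))) (a (l 16936456) (l 16657256))) (a (l 17230032) (l 16855856)))) (a (l 17835952) (b (l 17368128) (l 17577056)))) (b (l 17878192) (l 17966112))) (b (a (b (b (a (b (b (a (b (l 16683008) (l 16667096)) (a (l 16686552) (b (l 6) (l 16677632)))) (l 16711176)) (l 16717352)) (b (a (b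 (l 6) (l 16701464)) (l 6)) (b (l 16757456) (l 16733832)))) (a (l 16689472) (b (l 16729864) (l 16700656)))) (a (l 17057576) (l 16815752))) (b (a (b (l 6) (b (l 6) (l 16849872))) (l 6)) (a (b (l 16852360) (l 16748280)) (b (a (l 16880272) (l 6)) (l 16969272))))) (a (b (l 17416000) (l 17671776)) (a (b (l 17017872) (l 17435936)) (b (l 16949320) (l 17243840)))))) (a (l 17976104) (b (a (l 17829392) (b (l 17567024) (l 17686336))) (l 17823120)))) (b (a (l 17780744) (l 17764648)) (a (l 17555656) (l 17590024))))), by decide +kernel⟩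

theorem c_pm_202_a : CertF 0 536870912 0 536870912 67108864 67108864 true true false .pp 2 0 2
    ndF1q2a ndF1q0 pcF2 cut_pm_202_a Ext.none :=
  certFK0 (fam := true) (s1 := true) (s2 := false) (a := 2) (b := 0) (c := 2) (cn := .pp) (n1 := ndF1q2a) (n2 := ndF1q0) (pc := pcF2) (cut := cut_pm_202_a) (xt := Ext.none) (P1 := 0) (W1 := 536870912) (P2 := 0) (W2 := 536870912) (P3 := 67108864) (W3 := 67108864)
    rfl rfl rfl k0_pm_202_a

noncomputable def cut_pm_202_b : Cut := Cut.of [[⟨0, 1, 0, 67108864⟩, ⟨1, 0, 0, 67108864⟩, ⟨2, 1, 0, 67108864⟩]]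

noncomputable def f_pm_202_b : ℕ → ℕ → ℕ → ℕ → Bool := onCell 1073741824 536870912 0 536870912 67108864 67108864
    (rowFK 2 true true false .pp 2 0 2 (qsf 1239849684 370763052 0 536870912 2) ndF1q2b ndF1q0 pcF2 cut_pm_202_b Ext.none)

def k0_pm_202_b : ∃ t, chk3 f_pm_202_b t 1 1 1 = true :=
  ⟨(a (b (a (l 1) (b (a (b (b (a (l 171834357255) (l 18226472)) (l 151969605239)) (l 1)) (b (l 18453792) (l 18032712))) (l 1))) (l 1)) (b (a (b (a (l 18501296) (l 18636744)) (b (l 18062592) (l 269008293175))) (b (l 18706360) (l 18145944))) (a (l 1) (b (l 17601544) (l 1))))), by decide +kernel⟩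

theorem c_pm_202_b : CertF 1239849684 370763052 0 536870912 67108864 67108864 true true false .pp 2 0 2
    ndF1q2b ndF1q0 pcF2 cut_pm_202_b Ext.none :=
  certFK2 (fam := true) (s1 := true) (s2 := false) (a := 2) (b := 0) (c := 2) (cn := .pp) (n1 := ndF1q2b) (n2 := ndF1q0) (pc := pcF2) (cut := cut_pm_202_b) (xt := Ext.none) (P1 := 1239849684) (W1 := 370763052) (P2 := 0) (W2 := 536870912) (P3 := 67108864) (W3 := 67108864)
    rfl rfl rfl (fun _ => rfl) k0_pm_202_b

noncomputable def f_pm_203_a : ℕ → ℕ → ℕ → ℕ → Bool := onCell 0 536870912 1610612736 536870912 67108864 67108864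
    (rowFK 1 true true false .up 2 0 3 (qsf 0 536870912 0 536870912 3) ndF1q2a ndF1q0 pcF3 Cut.none Ext.none)

def k0_pm_203_a : ∃ t, chk3 f_pm_203_a t 1 1 1 = true :=
  ⟨(b (b (a (l 17740096) (b (l 18126152) (l 17949184))) (a (l 17432120) (l 17722392))) (l 2)), by decide +kernel⟩

theorem c_pm_203_a : CertF 0 536870912 0 536870912 67108864 67108864 true true false .up 2 0 3
    ndF1q2a ndF1q0 pcF3 Cut.none Ext.none :=
  certFK1 (fam := true) (s1 := true) (s2 := false) (a := 2) (b := 0) (c := 3) (cn := .up) (n1 := ndF1q2a) (n2 := ndF1q0) (pc := pcF3) (cut := Cut.none) (xt := Ext.none) (P1 := 0) (W1 := 536870912) (P2 := 0) (W2 := 536870912) (P3 := 67108864) (W3 := 67108864)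
    rfl rfl rfl (fun _ => rfl) k0_pm_203_a

noncomputable def f_pm_203_b : ℕ → ℕ → ℕ → ℕ → Bool := onCell 1239849684 370763052 1610612736 536870912 67108864 67108864
    (rowFK 1 true true false .up 2 0 3 (qsf 1239849684 370763052 0 536870912 3) ndF1q2b ndF1q0 pcF3 Cut.none Ext.none)

def k0_pm_203_b : ∃ t, chk3 f_pm_203_b t 1 1 1 = true :=
  ⟨(b (b (a (l 17785192) (l 18108056)) (b (l 17697384) (l 17533976))) (b (l 4) (l 4))), by decide +kernel⟩

theorem c_pm_203_b : CertF 1239849684 370763052 0 536870912 67108864 67108864 true true false .up 2 0 3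
    ndF1q2b ndF1q0 pcF3 Cut.none Ext.none :=
  certFK1 (fam := true) (s1 := true) (s2 := false) (a := 2) (b := 0) (c := 3) (cn := .up) (n1 := ndF1q2b) (n2 := ndF1q0) (pc := pcF3) (cut := Cut.none) (xt := Ext.none) (P1 := 1239849684) (W1 := 370763052) (P2 := 0) (W2 := 536870912) (P3 := 67108864) (W3 := 67108864)
    rfl rfl rfl (fun _ => rfl) k0_pm_203_b

noncomputable def f_pm_213_a : ℕ → ℕ → ℕ → ℕ → Bool := onCell 0 536870912 1610612736 536870912 67108864 67108864
    (rowFK 1 true true false .pnn 2 1 3 (qsf 0 536870912 536870912 536870912 3) ndF1q2a ndF1q1 pcF3 Cut.none Ext.none)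

def k0_pm_213_a : ∃ t, chk3 f_pm_213_a t 1 1 1 = true :=
  ⟨(b (b (a (l 18199248) (a (l 18465808) (l 18729032))) (a (l 17989328) (b (l 18282976) (l 18034296)))) (b (a (l 17823744) (b (l 17773152) (l 17619552))) (b (l 4) (l 4)))), by decide +kernel⟩

theorem c_pm_213_a : CertF 0 536870912 536870912 536870912 67108864 67108864 true true false .pnn 2 1 3
    ndF1q2a ndF1q1 pcF3 Cut.none Ext.none :=
  certFK1 (fam := true) (s1 := true) (s2 := false) (a := 2) (b := 1) (c := 3) (cn := .pnn) (n1 := ndF1q2a) (n2 := ndF1q1) (pc := pcF3) (cut := Cut.none) (xt := Ext.none) (P1 := 0) (W1 := 536870912) (P2 := 536870912) (W2 := 536870912) (P3 := 67108864) (W3 := 67108864)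
    rfl rfl rfl (fun _ => rfl) k0_pm_213_a

noncomputable def f_pm_213_b : ℕ → ℕ → ℕ → ℕ → Bool := onCell 1239849684 370763052 1610612736 536870912 67108864 67108864
    (rowFK 1 true true false .pnn 2 1 3 (qsf 1239849684 370763052 536870912 536870912 3) ndF1q2b ndF1q1 pcF3 Cut.none Ext.none)

def k0_pm_213_b : ∃ t, chk3 f_pm_213_b t 1 1 1 = true :=
  ⟨(b (b (l 1) (b (l 18072840) (l 17955800))) (b (l 4) (l 4))), by decide +kernel⟩

theorem c_pm_213_b : CertF 1239849684 370763052 536870912 536870912 67108864 67108864 true true false .pnn 2 1 3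
    ndF1q2b ndF1q1 pcF3 Cut.none Ext.none :=
  certFK1 (fam := true) (s1 := true) (s2 := false) (a := 2) (b := 1) (c := 3) (cn := .pnn) (n1 := ndF1q2b) (n2 := ndF1q1) (pc := pcF3) (cut := Cut.none) (xt := Ext.none) (P1 := 1239849684) (W1 := 370763052) (P2 := 536870912) (W2 := 536870912) (P3 := 67108864) (W3 := 67108864)
    rfl rfl rfl (fun _ => rfl) k0_pm_213_b

noncomputable def f_pm_303 : ℕ → ℕ → ℕ → ℕ → Bool := onCell 1610612736 536870912 0 536870912 67108864 67108864
    (rowFK 2 true true false .npn 3 0 3 (qsf 1610612736 536870912 0 536870912 3) ndF1q3 ndF1q0 pcF3 Cut.none Ext.none)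

def k0_pm_303 : ∃ t, chk3 f_pm_303 t 1 1 1 = true :=
  ⟨(a (a (b (b (l 17951840) (l 17717000)) (l 1)) (b (b (l 18178160) (l 17668752)) (a (l 1) (l 17223464)))) (a (b (b (l 4) (l 4)) (l 4)) (l 4))), by decide +kernel⟩

theorem c_pm_303 : CertF 1610612736 536870912 0 536870912 67108864 67108864 true true false .npn 3 0 3
    ndF1q3 ndF1q0 pcF3 Cut.none Ext.none :=
  certFK2 (fam := true) (s1 := true) (s2 := false) (a := 3) (b := 0) (c := 3) (cn := .npn) (n1 := ndF1q3) (n2 := ndF1q0) (pc := pcF3) (cut := Cut.none) (xt := Ext.none) (P1 := 1610612736) (W1 := 536870912) (P2 := 0) (W2 := 536870912) (P3 := 67108864) (W3 := 67108864)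
    rfl rfl rfl (fun _ => rfl) k0_pm_303

noncomputable def f_pm_313 : ℕ → ℕ → ℕ → ℕ → Bool := onCell 1610612736 536870912 536870912 536870912 67108864 67108864
    (rowFK 0 true true false .dn 3 1 3 (qsf 1610612736 536870912 536870912 536870912 3) ndF1q3 ndF1q1 pcF3 Cut.none Ext.none)

def k0_pm_313 : ∃ t, chk3 f_pm_313 t 1 1 1 = true :=
  ⟨(l 4), by decide +kernel⟩

theorem c_pm_313 : CertF 1610612736 536870912 536870912 536870912 67108864 67108864 true true false .dn 3 1 3
    ndF1q3 ndF1q1 pcF3 Cut.none Ext.none :=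
  certFK0 (fam := true) (s1 := true) (s2 := false) (a := 3) (b := 1) (c := 3) (cn := .dn) (n1 := ndF1q3) (n2 := ndF1q1) (pc := pcF3) (cut := Cut.none) (xt := Ext.none) (P1 := 1610612736) (W1 := 536870912) (P2 := 536870912) (W2 := 536870912) (P3 := 67108864) (W3 := 67108864)
    rfl rfl rfl k0_pm_313

noncomputable def f_mm_001 : ℕ → ℕ → ℕ → ℕ → Bool := onCell 0 536870912 0 536870912 67108864 67108864
    (rowFK 0 true false false .up 0 0 1 (qsf 0 536870912 0 536870912 1) ndF1q0 ndF1q0 pcF1 Cut.none Ext.none)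

def k0_mm_001 : ∃ t, chk3 f_mm_001 t 1 1 1 = true :=
  ⟨(l 4), by decide +kernel⟩

theorem c_mm_001 : CertF 0 536870912 0 536870912 67108864 67108864 true false false .up 0 0 1
    ndF1q0 ndF1q0 pcF1 Cut.none Ext.none :=
  certFK0 (fam := true) (s1 := false) (s2 := false) (a := 0) (b := 0) (c := 1) (cn := .up) (n1 := ndF1q0) (n2 := ndF1q0) (pc := pcF1) (cut := Cut.none) (xt := Ext.none) (P1 := 0) (W1 := 536870912) (P2 := 0) (W2 := 536870912) (P3 := 67108864) (W3 := 67108864)
    rfl rfl rfl k0_mm_001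

noncomputable def f_mm_011 : ℕ → ℕ → ℕ → ℕ → Bool := onCell 0 536870912 536870912 536870912 67108864 67108864
    (rowFK 0 true false false .pnn 0 1 1 (qsf 0 536870912 536870912 536870912 1) ndF1q0 ndF1q1 pcF1 Cut.none Ext.none)

def k0_mm_011 : ∃ t, chk3 f_mm_011 t 1 1 1 = true :=
  ⟨(l 4), by decide +kernel⟩

theorem c_mm_011 : CertF 0 536870912 536870912 536870912 67108864 67108864 true false false .pnn 0 1 1
    ndF1q0 ndF1q1 pcF1 Cut.none Ext.none :=
  certFK0 (fam := true) (s1 := false) (s2 := false) (a := 0) (b := 1) (c := 1) (cn := .pnn) (n1 := ndF1q0) (n2 := ndF1q1) (pc := pcF1) (cut := Cut.none) (xt := Ext.none) (P1 := 0) (W1 := 536870912) (P2 := 536870912) (W2 := 536870912) (P3 := 67108864) (W3 := 67108864)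
    rfl rfl rfl k0_mm_011

noncomputable def f_mm_012 : ℕ → ℕ → ℕ → ℕ → Bool := onCell 0 536870912 536870912 536870912 67108864 67108864
    (rowFK 0 true false false .pnp 0 1 2 (qsf 0 536870912 536870912 536870912 2) ndF1q0 ndF1q1 pcF2 Cut.none Ext.none)

def k0_mm_012 : ∃ t, chk3 f_mm_012 t 1 1 1 = true :=
  ⟨(l 4), by decide +kernel⟩

theorem c_mm_012 : CertF 0 536870912 536870912 536870912 67108864 67108864 true false false .pnp 0 1 2
    ndF1q0 ndF1q1 pcF2 Cut.none Ext.none :=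
  certFK0 (fam := true) (s1 := false) (s2 := false) (a := 0) (b := 1) (c := 2) (cn := .pnp) (n1 := ndF1q0) (n2 := ndF1q1) (pc := pcF2) (cut := Cut.none) (xt := Ext.none) (P1 := 0) (W1 := 536870912) (P2 := 536870912) (W2 := 536870912) (P3 := 67108864) (W3 := 67108864)
    rfl rfl rfl k0_mm_012

noncomputable def f_mm_022_a : ℕ → ℕ → ℕ → ℕ → Bool := onCell 0 536870912 0 536870912 67108864 67108864
    (rowFK 0 true false false .pp 0 2 2 (qsf 0 536870912 0 536870912 2) ndF1q0 ndF1q2a pcF2 Cut.none Ext.none)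

def k0_mm_022_a : ∃ t, chk3 f_mm_022_a t 1 1 1 = true :=
  ⟨(l 5), by decide +kernel⟩

theorem c_mm_022_a : CertF 0 536870912 0 536870912 67108864 67108864 true false false .pp 0 2 2
    ndF1q0 ndF1q2a pcF2 Cut.none Ext.none :=
  certFK0 (fam := true) (s1 := false) (s2 := false) (a := 0) (b := 2) (c := 2) (cn := .pp) (n1 := ndF1q0) (n2 := ndF1q2a) (pc := pcF2) (cut := Cut.none) (xt := Ext.none) (P1 := 0) (W1 := 536870912) (P2 := 0) (W2 := 536870912) (P3 := 67108864) (W3 := 67108864)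
    rfl rfl rfl k0_mm_022_a

noncomputable def f_mm_022_b : ℕ → ℕ → ℕ → ℕ → Bool := onCell 0 536870912 1239849684 370763052 67108864 67108864
    (rowFK 0 true false false .pp 0 2 2 (qsf 0 536870912 1239849684 370763052 2) ndF1q0 ndF1q2b pcF2 Cut.none Ext.none)

def k0_mm_022_b : ∃ t, chk3 f_mm_022_b t 1 1 1 = true :=
  ⟨(l 5), by decide +kernel⟩

theorem c_mm_022_b : CertF 0 536870912 1239849684 370763052 67108864 67108864 true false false .pp 0 2 2
    ndF1q0 ndF1q2b pcF2 Cut.none Ext.none :=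
  certFK0 (fam := true) (s1 := false) (s2 := false) (a := 0) (b := 2) (c := 2) (cn := .pp) (n1 := ndF1q0) (n2 := ndF1q2b) (pc := pcF2) (cut := Cut.none) (xt := Ext.none) (P1 := 0) (W1 := 536870912) (P2 := 1239849684) (W2 := 370763052) (P3 := 67108864) (W3 := 67108864)
    rfl rfl rfl k0_mm_022_b

noncomputable def f_mm_023_a : ℕ → ℕ → ℕ → ℕ → Bool := onCell 0 536870912 0 536870912 67108864 67108864
    (rowFK 0 true false false .up 0 2 3 (qsf 0 536870912 0 536870912 3) ndF1q0 ndF1q2a pcF3 Cut.none Ext.none)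

def k0_mm_023_a : ∃ t, chk3 f_mm_023_a t 1 1 1 = true :=
  ⟨(l 5), by decide +kernel⟩

theorem c_mm_023_a : CertF 0 536870912 0 536870912 67108864 67108864 true false false .up 0 2 3
    ndF1q0 ndF1q2a pcF3 Cut.none Ext.none :=
  certFK0 (fam := true) (s1 := false) (s2 := false) (a := 0) (b := 2) (c := 3) (cn := .up) (n1 := ndF1q0) (n2 := ndF1q2a) (pc := pcF3) (cut := Cut.none) (xt := Ext.none) (P1 := 0) (W1 := 536870912) (P2 := 0) (W2 := 536870912) (P3 := 67108864) (W3 := 67108864)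
    rfl rfl rfl k0_mm_023_a

noncomputable def f_mm_023_b : ℕ → ℕ → ℕ → ℕ → Bool := onCell 0 536870912 1239849684 370763052 67108864 67108864
    (rowFK 0 true false false .up 0 2 3 (qsf 0 536870912 1239849684 370763052 3) ndF1q0 ndF1q2b pcF3 Cut.none Ext.none)

def k0_mm_023_b : ∃ t, chk3 f_mm_023_b t 1 1 1 = true :=
  ⟨(l 5), by decide +kernel⟩

theorem c_mm_023_b : CertF 0 536870912 1239849684 370763052 67108864 67108864 true false false .up 0 2 3
    ndF1q0 ndF1q2b pcF3 Cut.none Ext.none :=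
  certFK0 (fam := true) (s1 := false) (s2 := false) (a := 0) (b := 2) (c := 3) (cn := .up) (n1 := ndF1q0) (n2 := ndF1q2b) (pc := pcF3) (cut := Cut.none) (xt := Ext.none) (P1 := 0) (W1 := 536870912) (P2 := 1239849684) (W2 := 370763052) (P3 := 67108864) (W3 := 67108864)
    rfl rfl rfl k0_mm_023_b

noncomputable def f_mm_033 : ℕ → ℕ → ℕ → ℕ → Bool := onCell 0 536870912 1610612736 536870912 67108864 67108864
    (rowFK 0 true false false .pnn 0 3 3 (qsf 0 536870912 1610612736 536870912 3) ndF1q0 ndF1q3 pcF3 Cut.none Ext.none)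

def k0_mm_033 : ∃ t, chk3 f_mm_033 t 1 1 1 = true :=
  ⟨(l 5), by decide +kernel⟩

theorem c_mm_033 : CertF 0 536870912 1610612736 536870912 67108864 67108864 true false false .pnn 0 3 3
    ndF1q0 ndF1q3 pcF3 Cut.none Ext.none :=
  certFK0 (fam := true) (s1 := false) (s2 := false) (a := 0) (b := 3) (c := 3) (cn := .pnn) (n1 := ndF1q0) (n2 := ndF1q3) (pc := pcF3) (cut := Cut.none) (xt := Ext.none) (P1 := 0) (W1 := 536870912) (P2 := 1610612736) (W2 := 536870912) (P3 := 67108864) (W3 := 67108864)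
    rfl rfl rfl k0_mm_033

noncomputable def f_mm_101 : ℕ → ℕ → ℕ → ℕ → Bool := onCell 536870912 536870912 0 536870912 67108864 67108864
    (rowFK 0 true false false .npn 1 0 1 (qsf 536870912 536870912 0 536870912 1) ndF1q1 ndF1q0 pcF1 Cut.none Ext.none)

def k0_mm_101 : ∃ t, chk3 f_mm_101 t 1 1 1 = true :=
  ⟨(l 4), by decide +kernel⟩

theorem c_mm_101 : CertF 536870912 536870912 0 536870912 67108864 67108864 true false false .npn 1 0 1
    ndF1q1 ndF1q0 pcF1 Cut.none Ext.none :=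
  certFK0 (fam := true) (s1 := false) (s2 := false) (a := 1) (b := 0) (c := 1) (cn := .npn) (n1 := ndF1q1) (n2 := ndF1q0) (pc := pcF1) (cut := Cut.none) (xt := Ext.none) (P1 := 536870912) (W1 := 536870912) (P2 := 0) (W2 := 536870912) (P3 := 67108864) (W3 := 67108864)
    rfl rfl rfl k0_mm_101

noncomputable def f_mm_102 : ℕ → ℕ → ℕ → ℕ → Bool := onCell 536870912 536870912 0 536870912 67108864 67108864
    (rowFK 0 true false false .npp 1 0 2 (qsf 536870912 536870912 0 536870912 2) ndF1q1 ndF1q0 pcF2 Cut.none Ext.none)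

def k0_mm_102 : ∃ t, chk3 f_mm_102 t 1 1 1 = true :=
  ⟨(l 4), by decide +kernel⟩

theorem c_mm_102 : CertF 536870912 536870912 0 536870912 67108864 67108864 true false false .npp 1 0 2
    ndF1q1 ndF1q0 pcF2 Cut.none Ext.none :=
  certFK0 (fam := true) (s1 := false) (s2 := false) (a := 1) (b := 0) (c := 2) (cn := .npp) (n1 := ndF1q1) (n2 := ndF1q0) (pc := pcF2) (cut := Cut.none) (xt := Ext.none) (P1 := 536870912) (W1 := 536870912) (P2 := 0) (W2 := 536870912) (P3 := 67108864) (W3 := 67108864)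
    rfl rfl rfl k0_mm_102

noncomputable def f_mm_112 : ℕ → ℕ → ℕ → ℕ → Bool := onCell 536870912 536870912 536870912 536870912 67108864 67108864
    (rowFK 0 true false false .dn 1 1 2 (qsf 536870912 536870912 536870912 536870912 2) ndF1q1 ndF1q1 pcF2 Cut.none Ext.none)

def k0_mm_112 : ∃ t, chk3 f_mm_112 t 1 1 1 = true :=
  ⟨(l 4), by decide +kernel⟩

theorem c_mm_112 : CertF 536870912 536870912 536870912 536870912 67108864 67108864 true false false .dn 1 1 2
    ndF1q1 ndF1q1 pcF2 Cut.none Ext.none :=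
  certFK0 (fam := true) (s1 := false) (s2 := false) (a := 1) (b := 1) (c := 2) (cn := .dn) (n1 := ndF1q1) (n2 := ndF1q1) (pc := pcF2) (cut := Cut.none) (xt := Ext.none) (P1 := 536870912) (W1 := 536870912) (P2 := 536870912) (W2 := 536870912) (P3 := 67108864) (W3 := 67108864)
    rfl rfl rfl k0_mm_112

noncomputable def f_mm_113 : ℕ → ℕ → ℕ → ℕ → Bool := onCell 536870912 536870912 536870912 536870912 67108864 67108864
    (rowFK 0 true false false .nn 1 1 3 (qsf 536870912 536870912 536870912 536870912 3) ndF1q1 ndF1q1 pcF3 Cut.none Ext.none)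

def k0_mm_113 : ∃ t, chk3 f_mm_113 t 1 1 1 = true :=
  ⟨(l 4), by decide +kernel⟩

theorem c_mm_113 : CertF 536870912 536870912 536870912 536870912 67108864 67108864 true false false .nn 1 1 3
    ndF1q1 ndF1q1 pcF3 Cut.none Ext.none :=
  certFK0 (fam := true) (s1 := false) (s2 := false) (a := 1) (b := 1) (c := 3) (cn := .nn) (n1 := ndF1q1) (n2 := ndF1q1) (pc := pcF3) (cut := Cut.none) (xt := Ext.none) (P1 := 536870912) (W1 := 536870912) (P2 := 536870912) (W2 := 536870912) (P3 := 67108864) (W3 := 67108864)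
    rfl rfl rfl k0_mm_113

noncomputable def f_mm_123_a : ℕ → ℕ → ℕ → ℕ → Bool := onCell 536870912 536870912 0 536870912 67108864 67108864
    (rowFK 0 true false false .npn 1 2 3 (qsf 536870912 536870912 0 536870912 3) ndF1q1 ndF1q2a pcF3 Cut.none Ext.none)

def k0_mm_123_a : ∃ t, chk3 f_mm_123_a t 1 1 1 = true :=
  ⟨(l 4), by decide +kernel⟩

theorem c_mm_123_a : CertF 536870912 536870912 0 536870912 67108864 67108864 true false false .npn 1 2 3
    ndF1q1 ndF1q2a pcF3 Cut.none Ext.none :=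
  certFK0 (fam := true) (s1 := false) (s2 := false) (a := 1) (b := 2) (c := 3) (cn := .npn) (n1 := ndF1q1) (n2 := ndF1q2a) (pc := pcF3) (cut := Cut.none) (xt := Ext.none) (P1 := 536870912) (W1 := 536870912) (P2 := 0) (W2 := 536870912) (P3 := 67108864) (W3 := 67108864)
    rfl rfl rfl k0_mm_123_a

noncomputable def f_mm_123_b : ℕ → ℕ → ℕ → ℕ → Bool := onCell 536870912 536870912 1239849684 370763052 67108864 67108864
    (rowFK 0 true false false .npn 1 2 3 (qsf 536870912 536870912 1239849684 370763052 3) ndF1q1 ndF1q2b pcF3 Cut.none Ext.none)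

def k0_mm_123_b : ∃ t, chk3 f_mm_123_b t 1 1 1 = true :=
  ⟨(l 4), by decide +kernel⟩

theorem c_mm_123_b : CertF 536870912 536870912 1239849684 370763052 67108864 67108864 true false false .npn 1 2 3
    ndF1q1 ndF1q2b pcF3 Cut.none Ext.none :=
  certFK0 (fam := true) (s1 := false) (s2 := false) (a := 1) (b := 2) (c := 3) (cn := .npn) (n1 := ndF1q1) (n2 := ndF1q2b) (pc := pcF3) (cut := Cut.none) (xt := Ext.none) (P1 := 536870912) (W1 := 536870912) (P2 := 1239849684) (W2 := 370763052) (P3 := 67108864) (W3 := 67108864)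
    rfl rfl rfl k0_mm_123_b

noncomputable def f_mm_133 : ℕ → ℕ → ℕ → ℕ → Bool := onCell 536870912 536870912 1610612736 536870912 67108864 67108864
    (rowFK 0 true false false .dn 1 3 3 (qsf 536870912 536870912 1610612736 536870912 3) ndF1q1 ndF1q3 pcF3 Cut.none Ext.none)

def k0_mm_133 : ∃ t, chk3 f_mm_133 t 1 1 1 = true :=
  ⟨(l 4), by decide +kernel⟩

theorem c_mm_133 : CertF 536870912 536870912 1610612736 536870912 67108864 67108864 true false false .dn 1 3 3
    ndF1q1 ndF1q3 pcF3 Cut.none Ext.none :=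
  certFK0 (fam := true) (s1 := false) (s2 := false) (a := 1) (b := 3) (c := 3) (cn := .dn) (n1 := ndF1q1) (n2 := ndF1q3) (pc := pcF3) (cut := Cut.none) (xt := Ext.none) (P1 := 536870912) (W1 := 536870912) (P2 := 1610612736) (W2 := 536870912) (P3 := 67108864) (W3 := 67108864)
    rfl rfl rfl k0_mm_133

noncomputable def cut_mm_202_a : Cut := Cut.of [[⟨0, 1, 0, 67108864⟩, ⟨1, 0, 0, 67108864⟩, ⟨2, 1, 0, 67108864⟩]]

noncomputable def f_mm_202_a : ℕ → ℕ → ℕ → ℕ → Bool := onCell 0 536870912 0 536870912 67108864 67108864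
    (rowFK 0 true false false .pp 2 0 2 (qsf 0 536870912 0 536870912 2) ndF1q2a ndF1q0 pcF2 cut_mm_202_a Ext.none)

def k0_mm_202_a : ∃ t, chk3 f_mm_202_a t 1 1 1 = true :=
  ⟨(b (b (b (b (b (a (a (a (l 18119432) (l 18059728)) (a (a (l 17974288) (l 17762600)) (b (c (l 18136312) (a (l 17310032) (l 17118296))) (l 17719448)))) (a (a (b (a (c (l 17890984) (l 16862912)) (b (l 16867424) (l 17124640))) (a (l 17468288) (l 17228784))) (b (a (l 16659944) (b (l 16670464) (l 16650872))) (a (l 16907272) (l 16663072)))) (a (a (b (b (a (l 16673392) (l 16693928)) (l 16690640)) (l 16688864)) (b (b (l 6) (l 16719368)) (l 4))) (l 6)))) (a (a (l 18050936) (a (l 17922360) (l 17743200))) (a (a (a (l 17543224) (l 17362168)) (a (l 17131800) (l 4))) (l 4)))) (a (a (l 17949952) (a (l 17841152) (l 17702312))) (a (l 4) (l 4)))) (a (a (l 17678320) (l 4)) (l 4))) (l 4)) (l 4)), by decide +kernel⟩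

theorem c_mm_202_a : CertF 0 536870912 0 536870912 67108864 67108864 true false false .pp 2 0 2
    ndF1q2a ndF1q0 pcF2 cut_mm_202_a Ext.none :=
  certFK0 (fam := true) (s1 := false) (s2 := false) (a := 2) (b := 0) (c := 2) (cn := .pp) (n1 := ndF1q2a) (n2 := ndF1q0) (pc := pcF2) (cut := cut_mm_202_a) (xt := Ext.none) (P1 := 0) (W1 := 536870912) (P2 := 0) (W2 := 536870912) (P3 := 67108864) (W3 := 67108864)
    rfl rfl rfl k0_mm_202_a

noncomputable def cut_mm_202_b : Cut := Cut.of [[⟨0, 1, 0, 67108864⟩, ⟨1, 0, 0, 67108864⟩, ⟨2, 1, 0, 67108864⟩]]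

noncomputable def f_mm_202_b : ℕ → ℕ → ℕ → ℕ → Bool := onCell 1239849684 370763052 0 536870912 67108864 67108864
    (rowFK 0 true false false .pp 2 0 2 (qsf 1239849684 370763052 0 536870912 2) ndF1q2b ndF1q0 pcF2 cut_mm_202_b Ext.none)

def k0_mm_202_b : ∃ t, chk3 f_mm_202_b t 1 1 1 = true :=
  ⟨(b (b (a (a (b (b (a (b (a (l 18248264) (l 18437568)) (l 18272944)) (l 18581712)) (a (l 18136656) (l 18355920))) (b (l 18040072) (l 4))) (b (b (l 18789280) (l 18533480)) (l 4))) (b (a (b (l 18852568) (l 4)) (l 4)) (l 4))) (l 4)) (l 4)), by decide +kernel⟩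

theorem c_mm_202_b : CertF 1239849684 370763052 0 536870912 67108864 67108864 true false false .pp 2 0 2
    ndF1q2b ndF1q0 pcF2 cut_mm_202_b Ext.none :=
  certFK0 (fam := true) (s1 := false) (s2 := false) (a := 2) (b := 0) (c := 2) (cn := .pp) (n1 := ndF1q2b) (n2 := ndF1q0) (pc := pcF2) (cut := cut_mm_202_b) (xt := Ext.none) (P1 := 1239849684) (W1 := 370763052) (P2 := 0) (W2 := 536870912) (P3 := 67108864) (W3 := 67108864)
    rfl rfl rfl k0_mm_202_b

noncomputable def f_mm_203_a : ℕ → ℕ → ℕ → ℕ → Bool := onCell 0 536870912 1610612736 536870912 67108864 67108864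
    (rowFK 1 true false false .up 2 0 3 (qsf 0 536870912 0 536870912 3) ndF1q2a ndF1q0 pcF3 Cut.none Ext.none)

def k0_mm_203_a : ∃ t, chk3 f_mm_203_a t 1 1 1 = true :=
  ⟨(l 4), by decide +kernel⟩

theorem c_mm_203_a : CertF 0 536870912 0 536870912 67108864 67108864 true false false .up 2 0 3
    ndF1q2a ndF1q0 pcF3 Cut.none Ext.none :=
  certFK1 (fam := true) (s1 := false) (s2 := false) (a := 2) (b := 0) (c := 3) (cn := .up) (n1 := ndF1q2a) (n2 := ndF1q0) (pc := pcF3) (cut := Cut.none) (xt := Ext.none) (P1 := 0) (W1 := 536870912) (P2 := 0) (W2 := 536870912) (P3 := 67108864) (W3 := 67108864)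
    rfl rfl rfl (fun _ => rfl) k0_mm_203_a

noncomputable def f_mm_203_b : ℕ → ℕ → ℕ → ℕ → Bool := onCell 1239849684 370763052 1610612736 536870912 67108864 67108864
    (rowFK 1 true false false .up 2 0 3 (qsf 1239849684 370763052 0 536870912 3) ndF1q2b ndF1q0 pcF3 Cut.none Ext.none)

def k0_mm_203_b : ∃ t, chk3 f_mm_203_b t 1 1 1 = true :=
  ⟨(l 4), by decide +kernel⟩

theorem c_mm_203_b : CertF 1239849684 370763052 0 536870912 67108864 67108864 true false false .up 2 0 3
    ndF1q2b ndF1q0 pcF3 Cut.none Ext.none :=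
  certFK1 (fam := true) (s1 := false) (s2 := false) (a := 2) (b := 0) (c := 3) (cn := .up) (n1 := ndF1q2b) (n2 := ndF1q0) (pc := pcF3) (cut := Cut.none) (xt := Ext.none) (P1 := 1239849684) (W1 := 370763052) (P2 := 0) (W2 := 536870912) (P3 := 67108864) (W3 := 67108864)
    rfl rfl rfl (fun _ => rfl) k0_mm_203_b

noncomputable def f_mm_213_a : ℕ → ℕ → ℕ → ℕ → Bool := onCell 0 536870912 536870912 536870912 67108864 67108864
    (rowFK 0 true false false .pnn 2 1 3 (qsf 0 536870912 536870912 536870912 3) ndF1q2a ndF1q1 pcF3 Cut.none Ext.none)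

def k0_mm_213_a : ∃ t, chk3 f_mm_213_a t 1 1 1 = true :=
  ⟨(l 4), by decide +kernel⟩

theorem c_mm_213_a : CertF 0 536870912 536870912 536870912 67108864 67108864 true false false .pnn 2 1 3
    ndF1q2a ndF1q1 pcF3 Cut.none Ext.none :=
  certFK0 (fam := true) (s1 := false) (s2 := false) (a := 2) (b := 1) (c := 3) (cn := .pnn) (n1 := ndF1q2a) (n2 := ndF1q1) (pc := pcF3) (cut := Cut.none) (xt := Ext.none) (P1 := 0) (W1 := 536870912) (P2 := 536870912) (W2 := 536870912) (P3 := 67108864) (W3 := 67108864)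
    rfl rfl rfl k0_mm_213_a

noncomputable def f_mm_213_b : ℕ → ℕ → ℕ → ℕ → Bool := onCell 1239849684 370763052 536870912 536870912 67108864 67108864
    (rowFK 0 true false false .pnn 2 1 3 (qsf 1239849684 370763052 536870912 536870912 3) ndF1q2b ndF1q1 pcF3 Cut.none Ext.none)

def k0_mm_213_b : ∃ t, chk3 f_mm_213_b t 1 1 1 = true :=
  ⟨(l 4), by decide +kernel⟩

theorem c_mm_213_b : CertF 1239849684 370763052 536870912 536870912 67108864 67108864 true false false .pnn 2 1 3
    ndF1q2b ndF1q1 pcF3 Cut.none Ext.none :=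
  certFK0 (fam := true) (s1 := false) (s2 := false) (a := 2) (b := 1) (c := 3) (cn := .pnn) (n1 := ndF1q2b) (n2 := ndF1q1) (pc := pcF3) (cut := Cut.none) (xt := Ext.none) (P1 := 1239849684) (W1 := 370763052) (P2 := 536870912) (W2 := 536870912) (P3 := 67108864) (W3 := 67108864)
    rfl rfl rfl k0_mm_213_b

noncomputable def f_mm_303 : ℕ → ℕ → ℕ → ℕ → Bool := onCell 1610612736 536870912 0 536870912 67108864 67108864
    (rowFK 0 true false false .npn 3 0 3 (qsf 1610612736 536870912 0 536870912 3) ndF1q3 ndF1q0 pcF3 Cut.none Ext.none)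

def k0_mm_303 : ∃ t, chk3 f_mm_303 t 1 1 1 = true :=
  ⟨(a (l 4) (l 4)), by decide +kernel⟩

theorem c_mm_303 : CertF 1610612736 536870912 0 536870912 67108864 67108864 true false false .npn 3 0 3
    ndF1q3 ndF1q0 pcF3 Cut.none Ext.none :=
  certFK0 (fam := true) (s1 := false) (s2 := false) (a := 3) (b := 0) (c := 3) (cn := .npn) (n1 := ndF1q3) (n2 := ndF1q0) (pc := pcF3) (cut := Cut.none) (xt := Ext.none) (P1 := 1610612736) (W1 := 536870912) (P2 := 0) (W2 := 536870912) (P3 := 67108864) (W3 := 67108864)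
    rfl rfl rfl k0_mm_303

noncomputable def f_mm_313 : ℕ → ℕ → ℕ → ℕ → Bool := onCell 1610612736 536870912 536870912 536870912 67108864 67108864
    (rowFK 0 true false false .dn 3 1 3 (qsf 1610612736 536870912 536870912 536870912 3) ndF1q3 ndF1q1 pcF3 Cut.none Ext.none)

def k0_mm_313 : ∃ t, chk3 f_mm_313 t 1 1 1 = true :=
  ⟨(l 4), by decide +kernel⟩

theorem c_mm_313 : CertF 1610612736 536870912 536870912 536870912 67108864 67108864 true false false .dn 3 1 3
    ndF1q3 ndF1q1 pcF3 Cut.none Ext.none :=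
  certFK0 (fam := true) (s1 := false) (s2 := false) (a := 3) (b := 1) (c := 3) (cn := .dn) (n1 := ndF1q3) (n2 := ndF1q1) (pc := pcF3) (cut := Cut.none) (xt := Ext.none) (P1 := 1610612736) (W1 := 536870912) (P2 := 536870912) (W2 := 536870912) (P3 := 67108864) (W3 := 67108864)
    rfl rfl rfl k0_mm_313

end Pool.Agent.Strip051.G.I1_16_1_8.Tab.C.FA11

namespace Pool.Agent.Strip051.G.I1_16_1_8.Tab.C.FA12

open Pool.Agent.Strip051.PB Pool.Agent.Strip051.PB.T
open Pool.Agent.Strip051.G.I1_16_1_8.Tab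

noncomputable def f_pp_001 : ℕ → ℕ → ℕ → ℕ → Bool := onCell 0 536870912 0 536870912 67108864 67108864
    (rowFK 0 true true true .up 0 0 1 (qsf 0 536870912 0 536870912 1) ndF1q0 ndF2q0 pcF1 Cut.none Ext.none)

def k0_pp_001 : ∃ t, chk3 f_pp_001 t 1 1 1 = true :=
  ⟨(l 4), by decide +kernel⟩

theorem c_pp_001 : CertF 0 536870912 0 536870912 67108864 67108864 true true true .up 0 0 1
    ndF1q0 ndF2q0 pcF1 Cut.none Ext.none :=
  certFK0 (fam := true) (s1 := true) (s2 := true) (a := 0) (b := 0) (c := 1) (cn := .up) (n1 := ndF1q0) (n2 := ndF2q0) (pc := pcF1) (cut := Cut.none) (xt := Ext.none) (P1 := 0) (W1 := 536870912) (P2 := 0) (W2 := 536870912) (P3 := 67108864) (W3 := 67108864)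
    rfl rfl rfl k0_pp_001

noncomputable def f_pp_011 : ℕ → ℕ → ℕ → ℕ → Bool := onCell 0 536870912 536870912 536870912 67108864 67108864
    (rowFK 0 true true true .pnn 0 1 1 (qsf 0 536870912 536870912 536870912 1) ndF1q0 ndF2q1 pcF1 Cut.none Ext.none)

def k0_pp_011 : ∃ t, chk3 f_pp_011 t 1 1 1 = true :=
  ⟨(l 4), by decide +kernel⟩

theorem c_pp_011 : CertF 0 536870912 536870912 536870912 67108864 67108864 true true true .pnn 0 1 1
    ndF1q0 ndF2q1 pcF1 Cut.none Ext.none :=
  certFK0 (fam := true) (s1 := true) (s2 := true) (a := 0) (b := 1) (c := 1) (cn := .pnn) (n1 := ndF1q0) (n2 := ndF2q1) (pc := pcF1) (cut := Cut.none) (xt := Ext.none) (P1 := 0) (W1 := 536870912) (P2 := 536870912) (W2 := 536870912) (P3 := 67108864) (W3 := 67108864)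
    rfl rfl rfl k0_pp_011

noncomputable def f_pp_012 : ℕ → ℕ → ℕ → ℕ → Bool := onCell 0 536870912 536870912 536870912 67108864 67108864
    (rowFK 0 true true true .pnp 0 1 2 (qsf 0 536870912 536870912 536870912 2) ndF1q0 ndF2q1 pcF2 Cut.none Ext.none)

def k0_pp_012 : ∃ t, chk3 f_pp_012 t 1 1 1 = true :=
  ⟨(l 4), by decide +kernel⟩

theorem c_pp_012 : CertF 0 536870912 536870912 536870912 67108864 67108864 true true true .pnp 0 1 2
    ndF1q0 ndF2q1 pcF2 Cut.none Ext.none :=
  certFK0 (fam := true) (s1 := true) (s2 := true) (a := 0) (b := 1) (c := 2) (cn := .pnp) (n1 := ndF1q0) (n2 := ndF2q1) (pc := pcF2) (cut := Cut.none) (xt := Ext.none) (P1 := 0) (W1 := 536870912) (P2 := 536870912) (W2 := 536870912) (P3 := 67108864) (W3 := 67108864)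
    rfl rfl rfl k0_pp_012

noncomputable def cut_pp_022_a : Cut := Cut.of [[⟨0, 0, 0, 67108864⟩, ⟨1, 1, 0, 67108864⟩, ⟨2, 1, 0, 67108864⟩]]

noncomputable def f_pp_022_a : ℕ → ℕ → ℕ → ℕ → Bool := onCell 0 536870912 0 536870912 67108864 67108864
    (rowFK 0 true true true .pp 0 2 2 (qsf 0 536870912 0 536870912 2) ndF1q0 ndF2q2a pcF2 cut_pp_022_a Ext.none)

def k0_pp_022_a : ∃ t, chk3 f_pp_022_a t 1 1 1 = true :=
  ⟨(a (b (l 4) (a (b (l 4) (b (l 4) (a (b (l 4) (a (l 6) (l 4))) (l 4)))) (l 4))) (l 4)), by decide +kernel⟩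

theorem c_pp_022_a : CertF 0 536870912 0 536870912 67108864 67108864 true true true .pp 0 2 2
    ndF1q0 ndF2q2a pcF2 cut_pp_022_a Ext.none :=
  certFK0 (fam := true) (s1 := true) (s2 := true) (a := 0) (b := 2) (c := 2) (cn := .pp) (n1 := ndF1q0) (n2 := ndF2q2a) (pc := pcF2) (cut := cut_pp_022_a) (xt := Ext.none) (P1 := 0) (W1 := 536870912) (P2 := 0) (W2 := 536870912) (P3 := 67108864) (W3 := 67108864)
    rfl rfl rfl k0_pp_022_a

noncomputable def cut_pp_022_b : Cut := Cut.of [[⟨0, 0, 0, 67108864⟩, ⟨1, 1, 0, 67108864⟩, ⟨2, 1, 0, 67108864⟩]]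

noncomputable def f_pp_022_b : ℕ → ℕ → ℕ → ℕ → Bool := onCell 0 536870912 1239849684 370763052 67108864 67108864
    (rowFK 0 true true true .pp 0 2 2 (qsf 0 536870912 1239849684 370763052 2) ndF1q0 ndF2q2b pcF2 cut_pp_022_b Ext.none)

def k0_pp_022_b : ∃ t, chk3 f_pp_022_b t 1 1 1 = true :=
  ⟨(a (l 4) (l 4)), by decide +kernel⟩

theorem c_pp_022_b : CertF 0 536870912 1239849684 370763052 67108864 67108864 true true true .pp 0 2 2
    ndF1q0 ndF2q2b pcF2 cut_pp_022_b Ext.none :=
  certFK0 (fam := true) (s1 := true) (s2 := true) (a := 0) (b := 2) (c := 2) (cn := .pp) (n1 := ndF1q0) (n2 := ndF2q2b) (pc := pcF2) (cut := cut_pp_022_b) (xt := Ext.none) (P1 := 0) (W1 := 536870912) (P2 := 1239849684) (W2 := 370763052) (P3 := 67108864) (W3 := 67108864)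
    rfl rfl rfl k0_pp_022_b

noncomputable def f_pp_023_a : ℕ → ℕ → ℕ → ℕ → Bool := onCell 1610612736 536870912 0 536870912 67108864 67108864
    (rowFK 2 true true true .up 0 2 3 (qsf 0 536870912 0 536870912 3) ndF1q0 ndF2q2a pcF3 Cut.none Ext.none)

def k0_pp_023_a : ∃ t, chk3 f_pp_023_a t 1 1 1 = true :=
  ⟨(l 4), by decide +kernel⟩

theorem c_pp_023_a : CertF 0 536870912 0 536870912 67108864 67108864 true true true .up 0 2 3
    ndF1q0 ndF2q2a pcF3 Cut.none Ext.none :=
  certFK2 (fam := true) (s1 := true) (s2 := true) (a := 0) (b := 2) (c := 3) (cn := .up) (n1 := ndF1q0) (n2 := ndF2q2a) (pc := pcF3) (cut := Cut.none) (xt := Ext.none) (P1 := 0) (W1 := 536870912) (P2 := 0) (W2 := 536870912) (P3 := 67108864) (W3 := 67108864)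
    rfl rfl rfl (fun _ => rfl) k0_pp_023_a

noncomputable def f_pp_023_b : ℕ → ℕ → ℕ → ℕ → Bool := onCell 1610612736 536870912 1239849684 370763052 67108864 67108864
    (rowFK 2 true true true .up 0 2 3 (qsf 0 536870912 1239849684 370763052 3) ndF1q0 ndF2q2b pcF3 Cut.none Ext.none)

def k0_pp_023_b : ∃ t, chk3 f_pp_023_b t 1 1 1 = true :=
  ⟨(l 4), by decide +kernel⟩

theorem c_pp_023_b : CertF 0 536870912 1239849684 370763052 67108864 67108864 true true true .up 0 2 3
    ndF1q0 ndF2q2b pcF3 Cut.none Ext.none :=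
  certFK2 (fam := true) (s1 := true) (s2 := true) (a := 0) (b := 2) (c := 3) (cn := .up) (n1 := ndF1q0) (n2 := ndF2q2b) (pc := pcF3) (cut := Cut.none) (xt := Ext.none) (P1 := 0) (W1 := 536870912) (P2 := 1239849684) (W2 := 370763052) (P3 := 67108864) (W3 := 67108864)
    rfl rfl rfl (fun _ => rfl) k0_pp_023_b

noncomputable def f_pp_033 : ℕ → ℕ → ℕ → ℕ → Bool := onCell 0 536870912 1610612736 536870912 67108864 67108864
    (rowFK 0 true true true .pnn 0 3 3 (qsf 0 536870912 1610612736 536870912 3) ndF1q0 ndF2q3 pcF3 Cut.none Ext.none)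

def k0_pp_033 : ∃ t, chk3 f_pp_033 t 1 1 1 = true :=
  ⟨(l 4), by decide +kernel⟩

theorem c_pp_033 : CertF 0 536870912 1610612736 536870912 67108864 67108864 true true true .pnn 0 3 3
    ndF1q0 ndF2q3 pcF3 Cut.none Ext.none :=
  certFK0 (fam := true) (s1 := true) (s2 := true) (a := 0) (b := 3) (c := 3) (cn := .pnn) (n1 := ndF1q0) (n2 := ndF2q3) (pc := pcF3) (cut := Cut.none) (xt := Ext.none) (P1 := 0) (W1 := 536870912) (P2 := 1610612736) (W2 := 536870912) (P3 := 67108864) (W3 := 67108864)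
    rfl rfl rfl k0_pp_033

noncomputable def f_pp_101 : ℕ → ℕ → ℕ → ℕ → Bool := onCell 536870912 536870912 0 536870912 67108864 67108864
    (rowFK 0 true true true .npn 1 0 1 (qsf 536870912 536870912 0 536870912 1) ndF1q1 ndF2q0 pcF1 Cut.none Ext.none)

def k0_pp_101 : ∃ t, chk3 f_pp_101 t 1 1 1 = true :=
  ⟨(l 4), by decide +kernel⟩

theorem c_pp_101 : CertF 536870912 536870912 0 536870912 67108864 67108864 true true true .npn 1 0 1
    ndF1q1 ndF2q0 pcF1 Cut.none Ext.none :=
  certFK0 (fam := true) (s1 := true) (s2 := true) (a := 1) (b := 0) (c := 1) (cn := .npn) (n1 := ndF1q1) (n2 := ndF2q0) (pc := pcF1) (cut := Cut.none) (xt := Ext.none) (P1 := 536870912) (W1 := 536870912) (P2 := 0) (W2 := 536870912) (P3 := 67108864) (W3 := 67108864)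
    rfl rfl rfl k0_pp_101

noncomputable def f_pp_102 : ℕ → ℕ → ℕ → ℕ → Bool := onCell 536870912 536870912 0 536870912 67108864 67108864
    (rowFK 0 true true true .npp 1 0 2 (qsf 536870912 536870912 0 536870912 2) ndF1q1 ndF2q0 pcF2 Cut.none Ext.none)

def k0_pp_102 : ∃ t, chk3 f_pp_102 t 1 1 1 = true :=
  ⟨(l 4), by decide +kernel⟩

theorem c_pp_102 : CertF 536870912 536870912 0 536870912 67108864 67108864 true true true .npp 1 0 2
    ndF1q1 ndF2q0 pcF2 Cut.none Ext.none :=
  certFK0 (fam := true) (s1 := true) (s2 := true) (a := 1) (b := 0) (c := 2) (cn := .npp) (n1 := ndF1q1) (n2 := ndF2q0) (pc := pcF2) (cut := Cut.none) (xt := Ext.none) (P1 := 536870912) (W1 := 536870912) (P2 := 0) (W2 := 536870912) (P3 := 67108864) (W3 := 67108864)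
    rfl rfl rfl k0_pp_102

noncomputable def f_pp_112 : ℕ → ℕ → ℕ → ℕ → Bool := onCell 536870912 536870912 536870912 536870912 67108864 67108864
    (rowFK 0 true true true .dn 1 1 2 (qsf 536870912 536870912 536870912 536870912 2) ndF1q1 ndF2q1 pcF2 Cut.none Ext.none)

def k0_pp_112 : ∃ t, chk3 f_pp_112 t 1 1 1 = true :=
  ⟨(l 4), by decide +kernel⟩

theorem c_pp_112 : CertF 536870912 536870912 536870912 536870912 67108864 67108864 true true true .dn 1 1 2
    ndF1q1 ndF2q1 pcF2 Cut.none Ext.none :=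
  certFK0 (fam := true) (s1 := true) (s2 := true) (a := 1) (b := 1) (c := 2) (cn := .dn) (n1 := ndF1q1) (n2 := ndF2q1) (pc := pcF2) (cut := Cut.none) (xt := Ext.none) (P1 := 536870912) (W1 := 536870912) (P2 := 536870912) (W2 := 536870912) (P3 := 67108864) (W3 := 67108864)
    rfl rfl rfl k0_pp_112

noncomputable def f_pp_113 : ℕ → ℕ → ℕ → ℕ → Bool := onCell 536870912 536870912 536870912 536870912 67108864 67108864
    (rowFK 0 true true true .nn 1 1 3 (qsf 536870912 536870912 536870912 536870912 3) ndF1q1 ndF2q1 pcF3 Cut.none Ext.none)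

def k0_pp_113 : ∃ t, chk3 f_pp_113 t 1 1 1 = true :=
  ⟨(l 4), by decide +kernel⟩

theorem c_pp_113 : CertF 536870912 536870912 536870912 536870912 67108864 67108864 true true true .nn 1 1 3
    ndF1q1 ndF2q1 pcF3 Cut.none Ext.none :=
  certFK0 (fam := true) (s1 := true) (s2 := true) (a := 1) (b := 1) (c := 3) (cn := .nn) (n1 := ndF1q1) (n2 := ndF2q1) (pc := pcF3) (cut := Cut.none) (xt := Ext.none) (P1 := 536870912) (W1 := 536870912) (P2 := 536870912) (W2 := 536870912) (P3 := 67108864) (W3 := 67108864)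
    rfl rfl rfl k0_pp_113

noncomputable def f_pp_123_a : ℕ → ℕ → ℕ → ℕ → Bool := onCell 536870912 536870912 0 536870912 67108864 67108864
    (rowFK 0 true true true .npn 1 2 3 (qsf 536870912 536870912 0 536870912 3) ndF1q1 ndF2q2a pcF3 Cut.none Ext.none)

def k0_pp_123_a : ∃ t, chk3 f_pp_123_a t 1 1 1 = true :=
  ⟨(l 4), by decide +kernel⟩

theorem c_pp_123_a : CertF 536870912 536870912 0 536870912 67108864 67108864 true true true .npn 1 2 3
    ndF1q1 ndF2q2a pcF3 Cut.none Ext.none :=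
  certFK0 (fam := true) (s1 := true) (s2 := true) (a := 1) (b := 2) (c := 3) (cn := .npn) (n1 := ndF1q1) (n2 := ndF2q2a) (pc := pcF3) (cut := Cut.none) (xt := Ext.none) (P1 := 536870912) (W1 := 536870912) (P2 := 0) (W2 := 536870912) (P3 := 67108864) (W3 := 67108864)
    rfl rfl rfl k0_pp_123_a

noncomputable def f_pp_123_b : ℕ → ℕ → ℕ → ℕ → Bool := onCell 536870912 536870912 1239849684 370763052 67108864 67108864
    (rowFK 0 true true true .npn 1 2 3 (qsf 536870912 536870912 1239849684 370763052 3) ndF1q1 ndF2q2b pcF3 Cut.none Ext.none)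

def k0_pp_123_b : ∃ t, chk3 f_pp_123_b t 1 1 1 = true :=
  ⟨(l 4), by decide +kernel⟩

theorem c_pp_123_b : CertF 536870912 536870912 1239849684 370763052 67108864 67108864 true true true .npn 1 2 3
    ndF1q1 ndF2q2b pcF3 Cut.none Ext.none :=
  certFK0 (fam := true) (s1 := true) (s2 := true) (a := 1) (b := 2) (c := 3) (cn := .npn) (n1 := ndF1q1) (n2 := ndF2q2b) (pc := pcF3) (cut := Cut.none) (xt := Ext.none) (P1 := 536870912) (W1 := 536870912) (P2 := 1239849684) (W2 := 370763052) (P3 := 67108864) (W3 := 67108864)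
    rfl rfl rfl k0_pp_123_b

noncomputable def f_pp_133 : ℕ → ℕ → ℕ → ℕ → Bool := onCell 536870912 536870912 1610612736 536870912 67108864 67108864
    (rowFK 0 true true true .dn 1 3 3 (qsf 536870912 536870912 1610612736 536870912 3) ndF1q1 ndF2q3 pcF3 Cut.none Ext.none)

def k0_pp_133 : ∃ t, chk3 f_pp_133 t 1 1 1 = true :=
  ⟨(l 4), by decide +kernel⟩

theorem c_pp_133 : CertF 536870912 536870912 1610612736 536870912 67108864 67108864 true true true .dn 1 3 3
    ndF1q1 ndF2q3 pcF3 Cut.none Ext.none :=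
  certFK0 (fam := true) (s1 := true) (s2 := true) (a := 1) (b := 3) (c := 3) (cn := .dn) (n1 := ndF1q1) (n2 := ndF2q3) (pc := pcF3) (cut := Cut.none) (xt := Ext.none) (P1 := 536870912) (W1 := 536870912) (P2 := 1610612736) (W2 := 536870912) (P3 := 67108864) (W3 := 67108864)
    rfl rfl rfl k0_pp_133

noncomputable def f_pp_202_a : ℕ → ℕ → ℕ → ℕ → Bool := onCell 0 536870912 0 536870912 67108864 67108864
    (rowFK 0 true true true .pp 2 0 2 (qsf 0 536870912 0 536870912 2) ndF1q2a ndF2q0 pcF2 Cut.none Ext.none)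

def k0_pp_202_a : ∃ t, chk3 f_pp_202_a t 1 1 1 = true :=
  ⟨(l 5), by decide +kernel⟩

theorem c_pp_202_a : CertF 0 536870912 0 536870912 67108864 67108864 true true true .pp 2 0 2
    ndF1q2a ndF2q0 pcF2 Cut.none Ext.none :=
  certFK0 (fam := true) (s1 := true) (s2 := true) (a := 2) (b := 0) (c := 2) (cn := .pp) (n1 := ndF1q2a) (n2 := ndF2q0) (pc := pcF2) (cut := Cut.none) (xt := Ext.none) (P1 := 0) (W1 := 536870912) (P2 := 0) (W2 := 536870912) (P3 := 67108864) (W3 := 67108864)
    rfl rfl rfl k0_pp_202_a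

noncomputable def f_pp_202_b : ℕ → ℕ → ℕ → ℕ → Bool := onCell 1239849684 370763052 0 536870912 67108864 67108864
    (rowFK 0 true true true .pp 2 0 2 (qsf 1239849684 370763052 0 536870912 2) ndF1q2b ndF2q0 pcF2 Cut.none Ext.none)

def k0_pp_202_b : ∃ t, chk3 f_pp_202_b t 1 1 1 = true :=
  ⟨(l 5), by decide +kernel⟩

theorem c_pp_202_b : CertF 1239849684 370763052 0 536870912 67108864 67108864 true true true .pp 2 0 2
    ndF1q2b ndF2q0 pcF2 Cut.none Ext.none :=
  certFK0 (fam := true) (s1 := true) (s2 := true) (a := 2) (b := 0) (c := 2) (cn := .pp) (n1 := ndF1q2b) (n2 := ndF2q0) (pc := pcF2) (cut := Cut.none) (xt := Ext.none) (P1 := 1239849684) (W1 := 370763052) (P2 := 0) (W2 := 536870912) (P3 := 67108864) (W3 := 67108864)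
    rfl rfl rfl k0_pp_202_b

noncomputable def f_pp_203_a : ℕ → ℕ → ℕ → ℕ → Bool := onCell 0 536870912 0 536870912 67108864 67108864
    (rowFK 0 true true true .up 2 0 3 (qsf 0 536870912 0 536870912 3) ndF1q2a ndF2q0 pcF3 Cut.none Ext.none)

def k0_pp_203_a : ∃ t, chk3 f_pp_203_a t 1 1 1 = true :=
  ⟨(l 5), by decide +kernel⟩

theorem c_pp_203_a : CertF 0 536870912 0 536870912 67108864 67108864 true true true .up 2 0 3
    ndF1q2a ndF2q0 pcF3 Cut.none Ext.none :=
  certFK0 (fam := true) (s1 := true) (s2 := true) (a := 2) (b := 0) (c := 3) (cn := .up) (n1 := ndF1q2a) (n2 := ndF2q0) (pc := pcF3) (cut := Cut.none) (xt := Ext.none) (P1 := 0) (W1 := 536870912) (P2 := 0) (W2 := 536870912) (P3 := 67108864) (W3 := 67108864)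
    rfl rfl rfl k0_pp_203_a

noncomputable def f_pp_203_b : ℕ → ℕ → ℕ → ℕ → Bool := onCell 1239849684 370763052 0 536870912 67108864 67108864
    (rowFK 0 true true true .up 2 0 3 (qsf 1239849684 370763052 0 536870912 3) ndF1q2b ndF2q0 pcF3 Cut.none Ext.none)

def k0_pp_203_b : ∃ t, chk3 f_pp_203_b t 1 1 1 = true :=
  ⟨(l 5), by decide +kernel⟩

theorem c_pp_203_b : CertF 1239849684 370763052 0 536870912 67108864 67108864 true true true .up 2 0 3
    ndF1q2b ndF2q0 pcF3 Cut.none Ext.none :=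
  certFK0 (fam := true) (s1 := true) (s2 := true) (a := 2) (b := 0) (c := 3) (cn := .up) (n1 := ndF1q2b) (n2 := ndF2q0) (pc := pcF3) (cut := Cut.none) (xt := Ext.none) (P1 := 1239849684) (W1 := 370763052) (P2 := 0) (W2 := 536870912) (P3 := 67108864) (W3 := 67108864)
    rfl rfl rfl k0_pp_203_b

noncomputable def f_pp_213_a : ℕ → ℕ → ℕ → ℕ → Bool := onCell 0 536870912 536870912 536870912 67108864 67108864
    (rowFK 0 true true true .pnn 2 1 3 (qsf 0 536870912 536870912 536870912 3) ndF1q2a ndF2q1 pcF3 Cut.none Ext.none)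

def k0_pp_213_a : ∃ t, chk3 f_pp_213_a t 1 1 1 = true :=
  ⟨(l 4), by decide +kernel⟩

theorem c_pp_213_a : CertF 0 536870912 536870912 536870912 67108864 67108864 true true true .pnn 2 1 3
    ndF1q2a ndF2q1 pcF3 Cut.none Ext.none :=
  certFK0 (fam := true) (s1 := true) (s2 := true) (a := 2) (b := 1) (c := 3) (cn := .pnn) (n1 := ndF1q2a) (n2 := ndF2q1) (pc := pcF3) (cut := Cut.none) (xt := Ext.none) (P1 := 0) (W1 := 536870912) (P2 := 536870912) (W2 := 536870912) (P3 := 67108864) (W3 := 67108864)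
    rfl rfl rfl k0_pp_213_a

noncomputable def f_pp_213_b : ℕ → ℕ → ℕ → ℕ → Bool := onCell 1239849684 370763052 536870912 536870912 67108864 67108864
    (rowFK 0 true true true .pnn 2 1 3 (qsf 1239849684 370763052 536870912 536870912 3) ndF1q2b ndF2q1 pcF3 Cut.none Ext.none)

def k0_pp_213_b : ∃ t, chk3 f_pp_213_b t 1 1 1 = true :=
  ⟨(l 4), by decide +kernel⟩

theorem c_pp_213_b : CertF 1239849684 370763052 536870912 536870912 67108864 67108864 true true true .pnn 2 1 3
    ndF1q2b ndF2q1 pcF3 Cut.none Ext.none :=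
  certFK0 (fam := true) (s1 := true) (s2 := true) (a := 2) (b := 1) (c := 3) (cn := .pnn) (n1 := ndF1q2b) (n2 := ndF2q1) (pc := pcF3) (cut := Cut.none) (xt := Ext.none) (P1 := 1239849684) (W1 := 370763052) (P2 := 536870912) (W2 := 536870912) (P3 := 67108864) (W3 := 67108864)
    rfl rfl rfl k0_pp_213_b

noncomputable def f_pp_303 : ℕ → ℕ → ℕ → ℕ → Bool := onCell 1610612736 536870912 0 536870912 67108864 67108864
    (rowFK 0 true true true .npn 3 0 3 (qsf 1610612736 536870912 0 536870912 3) ndF1q3 ndF2q0 pcF3 Cut.none Ext.none)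

def k0_pp_303 : ∃ t, chk3 f_pp_303 t 1 1 1 = true :=
  ⟨(l 5), by decide +kernel⟩

theorem c_pp_303 : CertF 1610612736 536870912 0 536870912 67108864 67108864 true true true .npn 3 0 3
    ndF1q3 ndF2q0 pcF3 Cut.none Ext.none :=
  certFK0 (fam := true) (s1 := true) (s2 := true) (a := 3) (b := 0) (c := 3) (cn := .npn) (n1 := ndF1q3) (n2 := ndF2q0) (pc := pcF3) (cut := Cut.none) (xt := Ext.none) (P1 := 1610612736) (W1 := 536870912) (P2 := 0) (W2 := 536870912) (P3 := 67108864) (W3 := 67108864)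
    rfl rfl rfl k0_pp_303

noncomputable def f_pp_313 : ℕ → ℕ → ℕ → ℕ → Bool := onCell 1610612736 536870912 536870912 536870912 67108864 67108864
    (rowFK 0 true true true .dn 3 1 3 (qsf 1610612736 536870912 536870912 536870912 3) ndF1q3 ndF2q1 pcF3 Cut.none Ext.none)

def k0_pp_313 : ∃ t, chk3 f_pp_313 t 1 1 1 = true :=
  ⟨(l 4), by decide +kernel⟩

theorem c_pp_313 : CertF 1610612736 536870912 536870912 536870912 67108864 67108864 true true true .dn 3 1 3
    ndF1q3 ndF2q1 pcF3 Cut.none Ext.none :=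
  certFK0 (fam := true) (s1 := true) (s2 := true) (a := 3) (b := 1) (c := 3) (cn := .dn) (n1 := ndF1q3) (n2 := ndF2q1) (pc := pcF3) (cut := Cut.none) (xt := Ext.none) (P1 := 1610612736) (W1 := 536870912) (P2 := 536870912) (W2 := 536870912) (P3 := 67108864) (W3 := 67108864)
    rfl rfl rfl k0_pp_313

noncomputable def f_pm_001 : ℕ → ℕ → ℕ → ℕ → Bool := onCell 0 536870912 0 536870912 67108864 67108864
    (rowFK 0 true true false .up 0 0 1 (qsf 0 536870912 0 536870912 1) ndF1q0 ndF2q0 pcF1 Cut.none Ext.none)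

def k0_pm_001 : ∃ t, chk3 f_pm_001 t 1 1 1 = true :=
  ⟨(a (l 3) (l 3)), by decide +kernel⟩

theorem c_pm_001 : CertF 0 536870912 0 536870912 67108864 67108864 true true false .up 0 0 1
    ndF1q0 ndF2q0 pcF1 Cut.none Ext.none :=
  certFK0 (fam := true) (s1 := true) (s2 := false) (a := 0) (b := 0) (c := 1) (cn := .up) (n1 := ndF1q0) (n2 := ndF2q0) (pc := pcF1) (cut := Cut.none) (xt := Ext.none) (P1 := 0) (W1 := 536870912) (P2 := 0) (W2 := 536870912) (P3 := 67108864) (W3 := 67108864)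
    rfl rfl rfl k0_pm_001

noncomputable def cut_pm_011 : Cut := Cut.of [[⟨0, 0, 0, 67108864⟩, ⟨1, 1, 0, 67108864⟩, ⟨2, 1, 0, 67108864⟩]]

noncomputable def f_pm_011 : ℕ → ℕ → ℕ → ℕ → Bool := onCell 0 536870912 536870912 536870912 67108864 67108864
    (rowFK 1 true true false .pnn 0 1 1 (qsf 0 536870912 536870912 536870912 1) ndF1q0 ndF2q1 pcF1 cut_pm_011 Ext.none)

def k0_pm_011 : ∃ t, chk3 f_pm_011 t 1 1 1 = true :=
  ⟨(a (b (l 3) (a (b (l 3) (b (l 3) (a (a (b (l 3) (a (l 6) (l 3))) (l 3)) (l 3)))) (l 3))) (l 3)), by decide +kernel⟩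

theorem c_pm_011 : CertF 0 536870912 536870912 536870912 67108864 67108864 true true false .pnn 0 1 1
    ndF1q0 ndF2q1 pcF1 cut_pm_011 Ext.none :=
  certFK1 (fam := true) (s1 := true) (s2 := false) (a := 0) (b := 1) (c := 1) (cn := .pnn) (n1 := ndF1q0) (n2 := ndF2q1) (pc := pcF1) (cut := cut_pm_011) (xt := Ext.none) (P1 := 0) (W1 := 536870912) (P2 := 536870912) (W2 := 536870912) (P3 := 67108864) (W3 := 67108864)
    rfl rfl rfl (fun _ => rfl) k0_pm_011

noncomputable def cut_pm_012 : Cut := Cut.of [[⟨0, 0, 0, 67108864⟩, ⟨1, 1, 0, 67108864⟩, ⟨2, 1, 0, 67108864⟩]]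

noncomputable def f_pm_012 : ℕ → ℕ → ℕ → ℕ → Bool := onCell 1073741824 536870912 536870912 536870912 67108864 67108864
    (rowFK 2 true true false .pnp 0 1 2 (qsf 0 536870912 536870912 536870912 2) ndF1q0 ndF2q1 pcF2 cut_pm_012 Ext.none)

def k0_pm_012 : ∃ t, chk3 f_pm_012 t 1 1 1 = true :=
  ⟨(a (b (a (a (l 3) (b (l 18003072) (l 17690952))) (a (a (a (l 17882688) (a (l 17769104) (b (l 2) (l 17310184)))) (l 115529753927)) (l 92444254663))) (a (b (a (l 3) (b (l 17899728) (a (l 18106560) (l 18328096)))) (a (b (a (l 3) (b (l 17713072) (l 17389000))) (b (a (b (l 3) (a (l 3) (l 16850400))) (b (l 16874760) (l 16853232))) (b (a (a (l 3) (l 16782576)) (l 16781496)) (a (l 6) (a (l 16767672) (l 16769864)))))) (b (a (b (l 18179408) (l 18045496)) (l 18553208)) (b (a (b (l 17801776) (l 17523464)) (l 18399128)) (a (b (l 17052280) (l 16778056)) (a (l 17734672) (l 18210152))))))) (b (a (a (a (b (l 17823136) (l 18453688)) (b (l 17851920) (a (l 18509712) (l 18536208)))) (l 18470840))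 (l 18576768)) (b (a (a (a (l 18777408) (a (l 18865984) (l 18977808))) (l 19023112)) (l 19201272)) (b (a (a (a (l 18760656) (l 18942536)) (l 19148432)) (l 19402128)) (a (a (a (l 18573224) (l 18855056)) (l 19160696)) (l 19509560))))))) (b (a (b (l 2) (l 16994928)) (l 2)) (b (b (l 17919328) (l 18844744)) (b (l 19287960) (b (l 19525592) (l 19671944)))))), by decide +kernel⟩

theorem c_pm_012 : CertF 0 536870912 536870912 536870912 67108864 67108864 true true false .pnp 0 1 2
    ndF1q0 ndF2q1 pcF2 cut_pm_012 Ext.none :=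
  certFK2 (fam := true) (s1 := true) (s2 := false) (a := 0) (b := 1) (c := 2) (cn := .pnp) (n1 := ndF1q0) (n2 := ndF2q1) (pc := pcF2) (cut := cut_pm_012) (xt := Ext.none) (P1 := 0) (W1 := 536870912) (P2 := 536870912) (W2 := 536870912) (P3 := 67108864) (W3 := 67108864)
    rfl rfl rfl (fun _ => rfl) k0_pm_012

noncomputable def cut_pm_022_a : Cut := Cut.of [[⟨0, 0, 0, 67108864⟩, ⟨1, 1, 0, 67108864⟩, ⟨2, 1, 0, 67108864⟩]]

noncomputable def f_pm_022_a : ℕ → ℕ → ℕ → ℕ → Bool := onCell 0 536870912 0 536870912 67108864 67108864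
    (rowFK 0 true true false .pp 0 2 2 (qsf 0 536870912 0 536870912 2) ndF1q0 ndF2q2a pcF2 cut_pm_022_a Ext.none)

def k0_pm_022_a : ∃ t, chk3 f_pm_022_a t 2 2 1 = true :=
  ⟨(a (a (a (b (a (c (l 18518072) (a (l 17501128) (l 17810608))) (l 18223104)) (a (a (c (b (l 18375000) (b (l 18235536) (l 18100368))) (a (b (b (l 17442160) (b (l 17332008) (c (l 17617640) (l 17162176)))) (c (b (l 17506520) (b (l 17370872) (l 17198760))) (b (b (l 17037024) (l 16815296)) (a (b (l 16721712) (l 16612144)) (l 16835024))))) (b (l 17419832) (b (l 17340896) (l 17150496))))) (b (l 18019784) (b (l 17824352) (l 17510856)))) (b (l 18103048) (l 17919672)))) (b (l 18281832) (l 18137448))) (l 18252312)) (l 18154312)), by decide +kernel⟩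

def k1_pm_022_a : ∃ t, chk3 f_pm_022_a t 4 6 1 = true :=
  ⟨(b (a (a (a (a (c (c (b (l 18186464) (l 17879616)) (b (a (l 17466696) (l 17682848)) (a (b (l 17216984) (c (l 17390888) (b (l 17104912) (l 16818128)))) (l 17416616)))) (a (a (b (a (b (c (l 16951704) (l 16587136)) (l 16595504)) (l 16605096)) (b (b (l 16596128) (l 16599232)) (b (l 16602528) (l 16611256)))) (b (l 16710792) (l 16618992))) (b (l 16896448) (l 16611712)))) (c (l 17664576) (l 16646552))) (b (l 17702440) (l 17497720))) (l 17858624)) (l 18068592)) (a (a (a (b (a (a (b (a (c (c (l 17672928) (b (c (l 17219424) (l 16719032)) (c (l 17067824) (l 16619144)))) (a (b (l 16610912) (l 16620064)) (l 16610864))) (l 16690944)) (a (a (c (c (c (l 17636256) (l 17060904)) (b (c (l 16824232) (l 16620104)) (l 16628080))) (b (c (l 16624656) (l 16623728)) (b (l 16621976) (l 16624200)))) (l 16630584)) (l 16616208))) (l 16657160)) (l 16854408)) (a (a (b (a (b (a (c (c (c (l 17460544) (l 16904840)) (l 16634280)) (b (l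 16626480) (l 16631440))) (l 16625936)) (b (c (c (c (l 17377816) (l 16792192)) (l 16636200)) (b (l 16631880) (l 16633096))) (a (c (l 16636568) (c (l 16634016) (l 16635976))) (l 16631592)))) (l 16646400)) (a (a (b (b (c (l 16640072) (b (l 16635488) (l 16636760))) (a (c (l 16643256) (b (l 16638704) (l 16640016))) (l 16638664))) (a (b (c (l 16645848) (b (l 16641344) (l 16642688))) (b (c (l 16645104) (l 16644048)) (c (l 16646448) (l 16645424)))) (l 16648240))) (a (l 16650800) (l 16659880))) (l 16656768))) (l 16675296)) (l 16675552))) (b (l 17223416) (l 16846016))) (a (l 17269320) (l 17593288))) (l 17879128))), by decide +kernel⟩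

def k2_pm_022_a : ∃ t, chk3 f_pm_022_a t 4 7 1 = true :=
  ⟨(a (b (a (b (a (a (a (b (a (b (a (a (a (b (b (c (l 16648152) (l 16647144)) (c (l 16649528) (l 16648560))) (b (c (l 16650920) (l 16649984)) (c (l 16652336) (c (l 16651664) (l 16651208))))) (b (l 16647752) (l 16650584))) (l 16653816)) (l 16646536)) (a (a (b (b (c (l 16654728) (b (l 16652160) (l 16652896))) (c (l 16656176) (b (l 16653640) (l 16654384)))) (a (b (c (l 16657992) (b (l 16655472) (l 16656224))) (c (a (l 16659000) (l 16657976)) (c (l 16657592) (l 16657200)))) (l 16656456))) (l 16659696)) (l 16673384))) (l 16668464)) (a (b (a (b (a (b (a (c (c (l 16659848) (l 16659488)) (c (l 16659120) (l 16658744))) (l 16658592)) (l 6)) (l 16658464)) (l 6)) (l 16669088)) (l 6)) (l 16687008))) (b (l 16660544) (l 16694848))) (a (l 16717608) (l 16696496))) (l 16723312)) (b (a (a (a (l 6) (l 16710336)) (l 16707160)) (l 16717168)) (a (a (l 6) (a (l 6) (l 16710848))) (l 16776056)))) (b (l 17061384) (a (l 16821320)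 (l 16861752)))) (a (b (a (l 6) (b (l 16821992) (l 6))) (l 6)) (b (a (l 16858024) (l 16786128)) (a (b (l 16883000) (l 6)) (l 16970920))))) (b (b (l 17676736) (a (l 17314120) (l 17621480))) (a (b (l 17024560) (l 16950776)) (b (l 17450432) (l 17248176))))), by decide +kernel⟩

def k3_pm_022_a : ∃ t, chk3 f_pm_022_a t 5 3 1 = true :=
  ⟨(b (l 18057360) (b (a (l 17847080) (l 17896976)) (a (a (l 17579488) (l 17701176)) (l 17786424)))), by decide +kernel⟩

def k4_pm_022_a : ∃ t, chk3 f_pm_022_a t 3 1 1 = true :=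
  ⟨(b (a (l 17898176) (l 17640144)) (b (a (l 17868104) (l 17631136)) (b (a (l 17822496) (l 17617344)) (a (l 17782440) (l 17615432))))), by decide +kernel⟩

theorem s5_pm_022_a : ∃ t, chk3 f_pm_022_a t 4 3 1 = true := ex3_b k1_pm_022_a k2_pm_022_a

theorem s6_pm_022_a : ∃ t, chk3 f_pm_022_a t 2 3 1 = true := ex3_a s5_pm_022_a k3_pm_022_a

theorem s7_pm_022_a : ∃ t, chk3 f_pm_022_a t 2 1 1 = true := ex3_b k0_pm_022_a s6_pm_022_a

theorem s8_pm_022_a : ∃ t, chk3 f_pm_022_a t 1 1 1 = true := ex3_a s7_pm_022_a k4_pm_022_a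

theorem c_pm_022_a : CertF 0 536870912 0 536870912 67108864 67108864 true true false .pp 0 2 2
    ndF1q0 ndF2q2a pcF2 cut_pm_022_a Ext.none :=
  certFK0 (fam := true) (s1 := true) (s2 := false) (a := 0) (b := 2) (c := 2) (cn := .pp) (n1 := ndF1q0) (n2 := ndF2q2a) (pc := pcF2) (cut := cut_pm_022_a) (xt := Ext.none) (P1 := 0) (W1 := 536870912) (P2 := 0) (W2 := 536870912) (P3 := 67108864) (W3 := 67108864)
    rfl rfl rfl s8_pm_022_a

noncomputable def cut_pm_022_b : Cut := Cut.of [[⟨0, 0, 0, 67108864⟩, ⟨1, 1, 0, 67108864⟩, ⟨2, 1, 0, 67108864⟩]]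

noncomputable def f_pm_022_b : ℕ → ℕ → ℕ → ℕ → Bool := onCell 0 536870912 1239849684 370763052 67108864 67108864
    (rowFK 0 true true false .pp 0 2 2 (qsf 0 536870912 1239849684 370763052 2) ndF1q0 ndF2q2b pcF2 cut_pm_022_b Ext.none)

def k0_pm_022_b : ∃ t, chk3 f_pm_022_b t 1 1 1 = true :=
  ⟨(a (b (a (b (a (a (b (a (b (l 18098160) (l 18482096)) (l 18419488)) (l 18613216)) (l 18489440)) (l 18388408)) (a (l 18622872) (l 18399136))) (b (l 18149280) (l 18072832))) (a (a (l 18523632) (b (l 18330752) (l 18262808))) (b (l 17964392) (l 2)))) (b (a (b (l 17813768) (l 17668712)) (l 2)) (l 2))), by decide +kernel⟩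

theorem c_pm_022_b : CertF 0 536870912 1239849684 370763052 67108864 67108864 true true false .pp 0 2 2
    ndF1q0 ndF2q2b pcF2 cut_pm_022_b Ext.none :=
  certFK0 (fam := true) (s1 := true) (s2 := false) (a := 0) (b := 2) (c := 2) (cn := .pp) (n1 := ndF1q0) (n2 := ndF2q2b) (pc := pcF2) (cut := cut_pm_022_b) (xt := Ext.none) (P1 := 0) (W1 := 536870912) (P2 := 1239849684) (W2 := 370763052) (P3 := 67108864) (W3 := 67108864)
    rfl rfl rfl k0_pm_022_b

noncomputable def f_pm_023_a : ℕ → ℕ → ℕ → ℕ → Bool := onCell 1610612736 536870912 0 536870912 67108864 67108864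
    (rowFK 2 true true false .up 0 2 3 (qsf 0 536870912 0 536870912 3) ndF1q0 ndF2q2a pcF3 Cut.none Ext.none)

def k0_pm_023_a : ∃ t, chk3 f_pm_023_a t 1 1 1 = true :=
  ⟨(a (b (a (l 18109352) (l 17750888)) (a (b (l 18143488) (b (l 18193224) (l 18267008))) (b (l 2) (l 2)))) (l 2)), by decide +kernel⟩

theorem c_pm_023_a : CertF 0 536870912 0 536870912 67108864 67108864 true true false .up 0 2 3
    ndF1q0 ndF2q2a pcF3 Cut.none Ext.none :=
  certFK2 (fam := true) (s1 := true) (s2 := false) (a := 0) (b := 2) (c := 3) (cn := .up) (n1 := ndF1q0) (n2 := ndF2q2a) (pc := pcF3) (cut := Cut.none) (xt := Ext.none) (P1 := 0) (W1 := 536870912) (P2 := 0) (W2 := 536870912) (P3 := 67108864) (W3 := 67108864)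
    rfl rfl rfl (fun _ => rfl) k0_pm_023_a

noncomputable def f_pm_023_b : ℕ → ℕ → ℕ → ℕ → Bool := onCell 1610612736 536870912 1239849684 370763052 67108864 67108864
    (rowFK 2 true true false .up 0 2 3 (qsf 0 536870912 1239849684 370763052 3) ndF1q0 ndF2q2b pcF3 Cut.none Ext.none)

def k0_pm_023_b : ∃ t, chk3 f_pm_023_b t 1 1 1 = true :=
  ⟨(a (a (b (a (l 18025152) (l 17865312)) (a (l 62850271431) (l 17761000))) (b (l 17571464) (l 17555792))) (a (b (l 17399576) (l 17247592)) (l 4))), by decide +kernel⟩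

theorem c_pm_023_b : CertF 0 536870912 1239849684 370763052 67108864 67108864 true true false .up 0 2 3
    ndF1q0 ndF2q2b pcF3 Cut.none Ext.none :=
  certFK2 (fam := true) (s1 := true) (s2 := false) (a := 0) (b := 2) (c := 3) (cn := .up) (n1 := ndF1q0) (n2 := ndF2q2b) (pc := pcF3) (cut := Cut.none) (xt := Ext.none) (P1 := 0) (W1 := 536870912) (P2 := 1239849684) (W2 := 370763052) (P3 := 67108864) (W3 := 67108864)
    rfl rfl rfl (fun _ => rfl) k0_pm_023_b

noncomputable def f_pm_033 : ℕ → ℕ → ℕ → ℕ → Bool := onCell 0 536870912 1610612736 536870912 67108864 67108864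
    (rowFK 1 true true false .pnn 0 3 3 (qsf 0 536870912 1610612736 536870912 3) ndF1q0 ndF2q3 pcF3 Cut.none Ext.none)

def k0_pm_033 : ∃ t, chk3 f_pm_033 t 1 1 1 = true :=
  ⟨(b (a (b (a (b (a (l 19239984) (l 19220200)) (l 18984624)) (b (l 1) (l 19147184))) (a (b (l 18921104) (l 18827744)) (l 19088392))) (b (l 1) (a (l 19033880) (l 1)))) (b (a (b (a (l 18647400) (l 18863496)) (l 4)) (b (l 18882464) (l 18767376))) (l 4))), by decide +kernel⟩

theorem c_pm_033 : CertF 0 536870912 1610612736 536870912 67108864 67108864 true true false .pnn 0 3 3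
    ndF1q0 ndF2q3 pcF3 Cut.none Ext.none :=
  certFK1 (fam := true) (s1 := true) (s2 := false) (a := 0) (b := 3) (c := 3) (cn := .pnn) (n1 := ndF1q0) (n2 := ndF2q3) (pc := pcF3) (cut := Cut.none) (xt := Ext.none) (P1 := 0) (W1 := 536870912) (P2 := 1610612736) (W2 := 536870912) (P3 := 67108864) (W3 := 67108864)
    rfl rfl rfl (fun _ => rfl) k0_pm_033

noncomputable def f_pm_101 : ℕ → ℕ → ℕ → ℕ → Bool := onCell 536870912 536870912 0 536870912 67108864 67108864
    (rowFK 2 true true false .npn 1 0 1 (qsf 536870912 536870912 0 536870912 1) ndF1q1 ndF2q0 pcF1 Cut.none Ext.none)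

def k0_pm_101 : ∃ t, chk3 f_pm_101 t 1 1 1 = true :=
  ⟨(a (l 3) (l 3)), by decide +kernel⟩

theorem c_pm_101 : CertF 536870912 536870912 0 536870912 67108864 67108864 true true false .npn 1 0 1
    ndF1q1 ndF2q0 pcF1 Cut.none Ext.none :=
  certFK2 (fam := true) (s1 := true) (s2 := false) (a := 1) (b := 0) (c := 1) (cn := .npn) (n1 := ndF1q1) (n2 := ndF2q0) (pc := pcF1) (cut := Cut.none) (xt := Ext.none) (P1 := 536870912) (W1 := 536870912) (P2 := 0) (W2 := 536870912) (P3 := 67108864) (W3 := 67108864)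
    rfl rfl rfl (fun _ => rfl) k0_pm_101

noncomputable def f_pm_102 : ℕ → ℕ → ℕ → ℕ → Bool := onCell 536870912 536870912 1073741824 536870912 67108864 67108864
    (rowFK 1 true true false .npp 1 0 2 (qsf 536870912 536870912 0 536870912 2) ndF1q1 ndF2q0 pcF2 Cut.none Ext.none)

def k0_pm_102 : ∃ t, chk3 f_pm_102 t 1 1 1 = true :=
  ⟨(a (b (b (b (l 3) (a (l 17708736) (l 3))) (b (b (b (l 17796064) (b (l 17842680) (l 18018080))) (l 17942384)) (l 18083768))) (b (l 18216184) (l 2))) (b (b (l 3) (b (a (b (b (l 17483952) (l 253572942967)) (l 17668888)) (b (b (l 3) (b (l 17665136) (l 17882960))) (l 17745712))) (a (l 17868080) (l 17777952)))) (b (a (l 18144744) (l 18014152)) (l 18301456)))), by decide +kernel⟩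

theorem c_pm_102 : CertF 536870912 536870912 0 536870912 67108864 67108864 true true false .npp 1 0 2
    ndF1q1 ndF2q0 pcF2 Cut.none Ext.none :=
  certFK1 (fam := true) (s1 := true) (s2 := false) (a := 1) (b := 0) (c := 2) (cn := .npp) (n1 := ndF1q1) (n2 := ndF2q0) (pc := pcF2) (cut := Cut.none) (xt := Ext.none) (P1 := 536870912) (W1 := 536870912) (P2 := 0) (W2 := 536870912) (P3 := 67108864) (W3 := 67108864)
    rfl rfl rfl (fun _ => rfl) k0_pm_102

noncomputable def f_pm_112 : ℕ → ℕ → ℕ → ℕ → Bool := onCell 1073741824 536870912 536870912 536870912 67108864 67108864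
    (rowFK 2 true true false .dn 1 1 2 (qsf 536870912 536870912 536870912 536870912 2) ndF1q1 ndF2q1 pcF2 Cut.none Ext.none)

def k0_pm_112 : ∃ t, chk3 f_pm_112 t 1 1 1 = true :=
  ⟨(a (b (a (a (l 3) (b (l 18588296) (l 470335258375))) (a (a (a (l 38154929351) (b (l 18435968) (l 71976934231))) (l 18242608)) (l 18144296))) (a (l 1) (b (a (l 1) (l 408595955655)) (l 1)))) (b (a (b (l 17746944) (l 17440792)) (b (l 17771072) (l 16893592))) (b (b (l 18038424) (l 18906464)) (b (l 19508176) (b (l 19765392) (l 19909888)))))), by decide +kernel⟩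

theorem c_pm_112 : CertF 536870912 536870912 536870912 536870912 67108864 67108864 true true false .dn 1 1 2
    ndF1q1 ndF2q1 pcF2 Cut.none Ext.none :=
  certFK2 (fam := true) (s1 := true) (s2 := false) (a := 1) (b := 1) (c := 2) (cn := .dn) (n1 := ndF1q1) (n2 := ndF2q1) (pc := pcF2) (cut := Cut.none) (xt := Ext.none) (P1 := 536870912) (W1 := 536870912) (P2 := 536870912) (W2 := 536870912) (P3 := 67108864) (W3 := 67108864)
    rfl rfl rfl (fun _ => rfl) k0_pm_112

noncomputable def f_pm_113 : ℕ → ℕ → ℕ → ℕ → Bool := onCell 1610612736 536870912 536870912 536870912 67108864 67108864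
    (rowFK 2 true true false .nn 1 1 3 (qsf 536870912 536870912 536870912 536870912 3) ndF1q1 ndF2q1 pcF3 Cut.none Ext.none)

def k0_pm_113 : ∃ t, chk3 f_pm_113 t 1 1 1 = true :=
  ⟨(a (b (a (b (a (l 18317872) (b (l 19329776) (l 18234584))) (a (l 16987696) (l 17166424))) (b (a (b (l 2) (l 19302880)) (l 2)) (a (b (l 18041928) (l 17280696)) (l 18582936)))) (a (b (l 18585576) (b (l 19661248) (b (l 19960088) (l 20142792)))) (b (a (l 18511080) (l 17838544)) (b (l 19248352) (b (a (l 19942544) (l 19476368)) (l 19807192)))))) (b (a (b (l 2) (b (l 2) (a (l 18746176) (l 2)))) (l 2)) (a (b (a (l 17173848) (l 17320768)) (b (l 18133448) (b (l 18464456) (l 18692104)))) (b (a (l 17414656) (l 2)) (a (b (l 17584600) (b (l 17896400) (l 18098520))) (a (b (l 17386392) (b (l 17682592) (l 17877680))) (l 4))))))), by decide +kernel⟩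

theorem c_pm_113 : CertF 536870912 536870912 536870912 536870912 67108864 67108864 true true false .nn 1 1 3
    ndF1q1 ndF2q1 pcF3 Cut.none Ext.none :=
  certFK2 (fam := true) (s1 := true) (s2 := false) (a := 1) (b := 1) (c := 3) (cn := .nn) (n1 := ndF1q1) (n2 := ndF2q1) (pc := pcF3) (cut := Cut.none) (xt := Ext.none) (P1 := 536870912) (W1 := 536870912) (P2 := 536870912) (W2 := 536870912) (P3 := 67108864) (W3 := 67108864)
    rfl rfl rfl (fun _ => rfl) k0_pm_113

noncomputable def f_pm_123_a : ℕ → ℕ → ℕ → ℕ → Bool := onCell 1610612736 536870912 0 536870912 67108864 67108864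
    (rowFK 2 true true false .npn 1 2 3 (qsf 536870912 536870912 0 536870912 3) ndF1q1 ndF2q2a pcF3 Cut.none Ext.none)

def k0_pm_123_a : ∃ t, chk3 f_pm_123_a t 1 1 1 = true :=
  ⟨(a (b (a (l 18578400) (l 18317384)) (a (b (l 18668320) (b (l 18723272) (l 18766384))) (b (l 18301008) (b (l 18272032) (l 18255664))))) (a (b (l 17976248) (b (l 17941920) (b (l 17795392) (l 17611872)))) (l 4))), by decide +kernel⟩

theorem c_pm_123_a : CertF 536870912 536870912 0 536870912 67108864 67108864 true true false .npn 1 2 3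
    ndF1q1 ndF2q2a pcF3 Cut.none Ext.none :=
  certFK2 (fam := true) (s1 := true) (s2 := false) (a := 1) (b := 2) (c := 3) (cn := .npn) (n1 := ndF1q1) (n2 := ndF2q2a) (pc := pcF3) (cut := Cut.none) (xt := Ext.none) (P1 := 536870912) (W1 := 536870912) (P2 := 0) (W2 := 536870912) (P3 := 67108864) (W3 := 67108864)
    rfl rfl rfl (fun _ => rfl) k0_pm_123_a

noncomputable def f_pm_123_b : ℕ → ℕ → ℕ → ℕ → Bool := onCell 1610612736 536870912 1239849684 370763052 67108864 67108864
    (rowFK 2 true true false .npn 1 2 3 (qsf 536870912 536870912 1239849684 370763052 3) ndF1q1 ndF2q2b pcF3 Cut.none Ext.none)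

def k0_pm_123_b : ∃ t, chk3 f_pm_123_b t 1 1 1 = true :=
  ⟨(a (a (l 1) (b (l 18092432) (l 1))) (a (a (l 18028592) (b (l 17788904) (l 17648040))) (l 4))), by decide +kernel⟩

theorem c_pm_123_b : CertF 536870912 536870912 1239849684 370763052 67108864 67108864 true true false .npn 1 2 3
    ndF1q1 ndF2q2b pcF3 Cut.none Ext.none :=
  certFK2 (fam := true) (s1 := true) (s2 := false) (a := 1) (b := 2) (c := 3) (cn := .npn) (n1 := ndF1q1) (n2 := ndF2q2b) (pc := pcF3) (cut := Cut.none) (xt := Ext.none) (P1 := 536870912) (W1 := 536870912) (P2 := 1239849684) (W2 := 370763052) (P3 := 67108864) (W3 := 67108864)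
    rfl rfl rfl (fun _ => rfl) k0_pm_123_b

noncomputable def f_pm_133 : ℕ → ℕ → ℕ → ℕ → Bool := onCell 536870912 536870912 1610612736 536870912 67108864 67108864
    (rowFK 0 true true false .dn 1 3 3 (qsf 536870912 536870912 1610612736 536870912 3) ndF1q1 ndF2q3 pcF3 Cut.none Ext.none)

def k0_pm_133 : ∃ t, chk3 f_pm_133 t 1 1 1 = true :=
  ⟨(l 4), by decide +kernel⟩

theorem c_pm_133 : CertF 536870912 536870912 1610612736 536870912 67108864 67108864 true true false .dn 1 3 3
    ndF1q1 ndF2q3 pcF3 Cut.none Ext.none :=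
  certFK0 (fam := true) (s1 := true) (s2 := false) (a := 1) (b := 3) (c := 3) (cn := .dn) (n1 := ndF1q1) (n2 := ndF2q3) (pc := pcF3) (cut := Cut.none) (xt := Ext.none) (P1 := 536870912) (W1 := 536870912) (P2 := 1610612736) (W2 := 536870912) (P3 := 67108864) (W3 := 67108864)
    rfl rfl rfl k0_pm_133

noncomputable def cut_pm_202_a : Cut := Cut.of [[⟨0, 1, 0, 67108864⟩, ⟨1, 0, 0, 67108864⟩, ⟨2, 1, 0, 67108864⟩]]

noncomputable def f_pm_202_a : ℕ → ℕ → ℕ → ℕ → Bool := onCell 0 536870912 0 536870912 67108864 67108864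
    (rowFK 0 true true false .pp 2 0 2 (qsf 0 536870912 0 536870912 2) ndF1q2a ndF2q0 pcF2 cut_pm_202_a Ext.none)

def k0_pm_202_a : ∃ t, chk3 f_pm_202_a t 1 1 1 = true :=
  ⟨(a (b (b (b (b (a (b (l 18126192) (l 18144016)) (b (b (a (l 17804632) (c (l 18165600) (a (l 17330448) (l 17133664)))) (a (l 17993136) (l 17775528))) (l 17947232))) (l 18056840)) (l 17981848)) (b (l 17793864) (l 17597584))) (b (l 17811632) (l 17915848))) (b (a (b (b (b (a (b (b (c (b (a (l 17897624) (l 17449904)) (l 17824992)) (a (l 16870184) (l 16644328))) (l 17392400)) (l 17554392)) (b (b (b (a (l 16663792) (a (l 16670256) (l 16677192))) (l 16712240)) (l 16713472)) (l 17011688))) (a (l 17752304) (l 17424552))) (b (l 17773416) (l 17824976))) (l 17814448)) (b (b (a (b (b (a (b (b (b (a (l 16685248) (a (l 16685680) (l 6))) (l 16709352)) (l 16692784)) (l 16721080)) (b (a (b (l 6) (l 16690464)) (l 6)) (b (l 16800160) (l 16741744)))) (a (l 16734672) (l 16874312))) (b (a (l 16841344) (l 16838480))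 (l 17046264))) (b (a (b (l 6) (a (b (l 6) (l 16816256)) (l 6))) (l 6)) (a (b (l 16912352) (l 16966536)) (b (b (l 6) (l 17006160)) (l 17046832))))) (a (b (l 17424096) (l 17658688)) (b (a (l 17162496) (l 17133056)) (l 17512712)))) (b (l 17910520) (l 17679704)))) (b (a (l 17874696) (l 17946312)) (a (l 18097584) (l 18224600))))), by decide +kernel⟩

theorem c_pm_202_a : CertF 0 536870912 0 536870912 67108864 67108864 true true false .pp 2 0 2
    ndF1q2a ndF2q0 pcF2 cut_pm_202_a Ext.none :=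
  certFK0 (fam := true) (s1 := true) (s2 := false) (a := 2) (b := 0) (c := 2) (cn := .pp) (n1 := ndF1q2a) (n2 := ndF2q0) (pc := pcF2) (cut := cut_pm_202_a) (xt := Ext.none) (P1 := 0) (W1 := 536870912) (P2 := 0) (W2 := 536870912) (P3 := 67108864) (W3 := 67108864)
    rfl rfl rfl k0_pm_202_a

noncomputable def cut_pm_202_b : Cut := Cut.of [[⟨0, 1, 0, 67108864⟩, ⟨1, 0, 0, 67108864⟩, ⟨2, 1, 0, 67108864⟩]]

noncomputable def f_pm_202_b : ℕ → ℕ → ℕ → ℕ → Bool := onCell 1073741824 536870912 0 536870912 67108864 67108864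
    (rowFK 2 true true false .pp 2 0 2 (qsf 1239849684 370763052 0 536870912 2) ndF1q2b ndF2q0 pcF2 cut_pm_202_b Ext.none)

def k0_pm_202_b : ∃ t, chk3 f_pm_202_b t 1 1 1 = true :=
  ⟨(a (b (a (l 1) (b (a (b (b (a (b (l 177203146631) (l 1)) (l 18188008)) (l 17730256)) (l 1)) (b (b (l 18525416) (l 18240736)) (l 17859736))) (l 1))) (l 1)) (b (a (b (b (l 18847792) (l 18188976)) (l 281893060199)) (b (b (l 18771440) (l 18344384)) (l 17713032))) (a (l 1) (l 495031845527)))), by decide +kernel⟩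

theorem c_pm_202_b : CertF 1239849684 370763052 0 536870912 67108864 67108864 true true false .pp 2 0 2
    ndF1q2b ndF2q0 pcF2 cut_pm_202_b Ext.none :=
  certFK2 (fam := true) (s1 := true) (s2 := false) (a := 2) (b := 0) (c := 2) (cn := .pp) (n1 := ndF1q2b) (n2 := ndF2q0) (pc := pcF2) (cut := cut_pm_202_b) (xt := Ext.none) (P1 := 1239849684) (W1 := 370763052) (P2 := 0) (W2 := 536870912) (P3 := 67108864) (W3 := 67108864)
    rfl rfl rfl (fun _ => rfl) k0_pm_202_b

noncomputable def f_pm_203_a : ℕ → ℕ → ℕ → ℕ → Bool := onCell 0 536870912 1610612736 536870912 67108864 67108864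
    (rowFK 1 true true false .up 2 0 3 (qsf 0 536870912 0 536870912 3) ndF1q2a ndF2q0 pcF3 Cut.none Ext.none)

def k0_pm_203_a : ∃ t, chk3 f_pm_203_a t 1 1 1 = true :=
  ⟨(b (b (a (l 17768712) (l 17802656)) (b (l 17916976) (l 4))) (l 2)), by decide +kernel⟩

theorem c_pm_203_a : CertF 0 536870912 0 536870912 67108864 67108864 true true false .up 2 0 3
    ndF1q2a ndF2q0 pcF3 Cut.none Ext.none :=
  certFK1 (fam := true) (s1 := true) (s2 := false) (a := 2) (b := 0) (c := 3) (cn := .up) (n1 := ndF1q2a) (n2 := ndF2q0) (pc := pcF3) (cut := Cut.none) (xt := Ext.none) (P1 := 0) (W1 := 536870912) (P2 := 0) (W2 := 536870912) (P3 := 67108864) (W3 := 67108864)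
    rfl rfl rfl (fun _ => rfl) k0_pm_203_a

noncomputable def f_pm_203_b : ℕ → ℕ → ℕ → ℕ → Bool := onCell 1239849684 370763052 1610612736 536870912 67108864 67108864
    (rowFK 1 true true false .up 2 0 3 (qsf 1239849684 370763052 0 536870912 3) ndF1q2b ndF2q0 pcF3 Cut.none Ext.none)

def k0_pm_203_b : ∃ t, chk3 f_pm_203_b t 1 1 1 = true :=
  ⟨(b (b (a (b (l 17206744) (l 17526504)) (b (l 17878104) (l 17599048))) (b (a (l 4) (l 17255496)) (l 4))) (l 4)), by decide +kernel⟩

theorem c_pm_203_b : CertF 1239849684 370763052 0 536870912 67108864 67108864 true true false .up 2 0 3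
    ndF1q2b ndF2q0 pcF3 Cut.none Ext.none :=
  certFK1 (fam := true) (s1 := true) (s2 := false) (a := 2) (b := 0) (c := 3) (cn := .up) (n1 := ndF1q2b) (n2 := ndF2q0) (pc := pcF3) (cut := Cut.none) (xt := Ext.none) (P1 := 1239849684) (W1 := 370763052) (P2 := 0) (W2 := 536870912) (P3 := 67108864) (W3 := 67108864)
    rfl rfl rfl (fun _ => rfl) k0_pm_203_b

noncomputable def f_pm_213_a : ℕ → ℕ → ℕ → ℕ → Bool := onCell 0 536870912 1610612736 536870912 67108864 67108864
    (rowFK 1 true true false .pnn 2 1 3 (qsf 0 536870912 536870912 536870912 3) ndF1q2a ndF2q1 pcF3 Cut.none Ext.none)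

def k0_pm_213_a : ∃ t, chk3 f_pm_213_a t 1 1 1 = true :=
  ⟨(b (b (a (l 18640672) (l 18893576)) (a (l 18703176) (b (l 18227624) (l 4)))) (l 4)), by decide +kernel⟩

theorem c_pm_213_a : CertF 0 536870912 536870912 536870912 67108864 67108864 true true false .pnn 2 1 3
    ndF1q2a ndF2q1 pcF3 Cut.none Ext.none :=
  certFK1 (fam := true) (s1 := true) (s2 := false) (a := 2) (b := 1) (c := 3) (cn := .pnn) (n1 := ndF1q2a) (n2 := ndF2q1) (pc := pcF3) (cut := Cut.none) (xt := Ext.none) (P1 := 0) (W1 := 536870912) (P2 := 536870912) (W2 := 536870912) (P3 := 67108864) (W3 := 67108864)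
    rfl rfl rfl (fun _ => rfl) k0_pm_213_a

noncomputable def f_pm_213_b : ℕ → ℕ → ℕ → ℕ → Bool := onCell 1239849684 370763052 536870912 536870912 67108864 67108864
    (rowFK 0 true true false .pnn 2 1 3 (qsf 1239849684 370763052 536870912 536870912 3) ndF1q2b ndF2q1 pcF3 Cut.none Ext.none)

def k0_pm_213_b : ∃ t, chk3 f_pm_213_b t 1 1 1 = true :=
  ⟨(l 4), by decide +kernel⟩

theorem c_pm_213_b : CertF 1239849684 370763052 536870912 536870912 67108864 67108864 true true false .pnn 2 1 3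
    ndF1q2b ndF2q1 pcF3 Cut.none Ext.none :=
  certFK0 (fam := true) (s1 := true) (s2 := false) (a := 2) (b := 1) (c := 3) (cn := .pnn) (n1 := ndF1q2b) (n2 := ndF2q1) (pc := pcF3) (cut := Cut.none) (xt := Ext.none) (P1 := 1239849684) (W1 := 370763052) (P2 := 536870912) (W2 := 536870912) (P3 := 67108864) (W3 := 67108864)
    rfl rfl rfl k0_pm_213_b

noncomputable def f_pm_303 : ℕ → ℕ → ℕ → ℕ → Bool := onCell 1610612736 536870912 0 536870912 67108864 67108864
    (rowFK 2 true true false .npn 3 0 3 (qsf 1610612736 536870912 0 536870912 3) ndF1q3 ndF2q0 pcF3 Cut.none Ext.none)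

def k0_pm_303 : ∃ t, chk3 f_pm_303 t 1 1 1 = true :=
  ⟨(a (b (a (b (a (l 17727696) (l 17685512)) (l 17304432)) (b (a (l 17847272) (l 17976152)) (a (l 17042512) (l 17001976)))) (a (l 1) (b (l 430605527287) (l 1)))) (a (b (b (a (l 18025504) (l 4)) (l 4)) (l 4)) (l 4))), by decide +kernel⟩

theorem c_pm_303 : CertF 1610612736 536870912 0 536870912 67108864 67108864 true true false .npn 3 0 3
    ndF1q3 ndF2q0 pcF3 Cut.none Ext.none :=
  certFK2 (fam := true) (s1 := true) (s2 := false) (a := 3) (b := 0) (c := 3) (cn := .npn) (n1 := ndF1q3) (n2 := ndF2q0) (pc := pcF3) (cut := Cut.none) (xt := Ext.none) (P1 := 1610612736) (W1 := 536870912) (P2 := 0) (W2 := 536870912) (P3 := 67108864) (W3 := 67108864)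
    rfl rfl rfl (fun _ => rfl) k0_pm_303

noncomputable def f_pm_313 : ℕ → ℕ → ℕ → ℕ → Bool := onCell 1610612736 536870912 536870912 536870912 67108864 67108864
    (rowFK 0 true true false .dn 3 1 3 (qsf 1610612736 536870912 536870912 536870912 3) ndF1q3 ndF2q1 pcF3 Cut.none Ext.none)

def k0_pm_313 : ∃ t, chk3 f_pm_313 t 1 1 1 = true :=
  ⟨(l 4), by decide +kernel⟩

theorem c_pm_313 : CertF 1610612736 536870912 536870912 536870912 67108864 67108864 true true false .dn 3 1 3
    ndF1q3 ndF2q1 pcF3 Cut.none Ext.none :=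
  certFK0 (fam := true) (s1 := true) (s2 := false) (a := 3) (b := 1) (c := 3) (cn := .dn) (n1 := ndF1q3) (n2 := ndF2q1) (pc := pcF3) (cut := Cut.none) (xt := Ext.none) (P1 := 1610612736) (W1 := 536870912) (P2 := 536870912) (W2 := 536870912) (P3 := 67108864) (W3 := 67108864)
    rfl rfl rfl k0_pm_313

noncomputable def f_mm_001 : ℕ → ℕ → ℕ → ℕ → Bool := onCell 0 536870912 0 536870912 67108864 67108864
    (rowFK 0 true false false .up 0 0 1 (qsf 0 536870912 0 536870912 1) ndF1q0 ndF2q0 pcF1 Cut.none Ext.none)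

def k0_mm_001 : ∃ t, chk3 f_mm_001 t 1 1 1 = true :=
  ⟨(l 4), by decide +kernel⟩

theorem c_mm_001 : CertF 0 536870912 0 536870912 67108864 67108864 true false false .up 0 0 1
    ndF1q0 ndF2q0 pcF1 Cut.none Ext.none :=
  certFK0 (fam := true) (s1 := false) (s2 := false) (a := 0) (b := 0) (c := 1) (cn := .up) (n1 := ndF1q0) (n2 := ndF2q0) (pc := pcF1) (cut := Cut.none) (xt := Ext.none) (P1 := 0) (W1 := 536870912) (P2 := 0) (W2 := 536870912) (P3 := 67108864) (W3 := 67108864)
    rfl rfl rfl k0_mm_001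

noncomputable def f_mm_011 : ℕ → ℕ → ℕ → ℕ → Bool := onCell 0 536870912 536870912 536870912 67108864 67108864
    (rowFK 0 true false false .pnn 0 1 1 (qsf 0 536870912 536870912 536870912 1) ndF1q0 ndF2q1 pcF1 Cut.none Ext.none)

def k0_mm_011 : ∃ t, chk3 f_mm_011 t 1 1 1 = true :=
  ⟨(l 4), by decide +kernel⟩

theorem c_mm_011 : CertF 0 536870912 536870912 536870912 67108864 67108864 true false false .pnn 0 1 1
    ndF1q0 ndF2q1 pcF1 Cut.none Ext.none :=
  certFK0 (fam := true) (s1 := false) (s2 := false) (a := 0) (b := 1) (c := 1) (cn := .pnn) (n1 := ndF1q0) (n2 := ndF2q1) (pc := pcF1) (cut := Cut.none) (xt := Ext.none) (P1 := 0) (W1 := 536870912) (P2 := 536870912) (W2 := 536870912) (P3 := 67108864) (W3 := 67108864)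
    rfl rfl rfl k0_mm_011

noncomputable def f_mm_012 : ℕ → ℕ → ℕ → ℕ → Bool := onCell 0 536870912 536870912 536870912 67108864 67108864
    (rowFK 0 true false false .pnp 0 1 2 (qsf 0 536870912 536870912 536870912 2) ndF1q0 ndF2q1 pcF2 Cut.none Ext.none)

def k0_mm_012 : ∃ t, chk3 f_mm_012 t 1 1 1 = true :=
  ⟨(l 4), by decide +kernel⟩

theorem c_mm_012 : CertF 0 536870912 536870912 536870912 67108864 67108864 true false false .pnp 0 1 2
    ndF1q0 ndF2q1 pcF2 Cut.none Ext.none :=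
  certFK0 (fam := true) (s1 := false) (s2 := false) (a := 0) (b := 1) (c := 2) (cn := .pnp) (n1 := ndF1q0) (n2 := ndF2q1) (pc := pcF2) (cut := Cut.none) (xt := Ext.none) (P1 := 0) (W1 := 536870912) (P2 := 536870912) (W2 := 536870912) (P3 := 67108864) (W3 := 67108864)
    rfl rfl rfl k0_mm_012

noncomputable def f_mm_022_a : ℕ → ℕ → ℕ → ℕ → Bool := onCell 0 536870912 0 536870912 67108864 67108864
    (rowFK 0 true false false .pp 0 2 2 (qsf 0 536870912 0 536870912 2) ndF1q0 ndF2q2a pcF2 Cut.none Ext.none)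

def k0_mm_022_a : ∃ t, chk3 f_mm_022_a t 1 1 1 = true :=
  ⟨(l 5), by decide +kernel⟩

theorem c_mm_022_a : CertF 0 536870912 0 536870912 67108864 67108864 true false false .pp 0 2 2
    ndF1q0 ndF2q2a pcF2 Cut.none Ext.none :=
  certFK0 (fam := true) (s1 := false) (s2 := false) (a := 0) (b := 2) (c := 2) (cn := .pp) (n1 := ndF1q0) (n2 := ndF2q2a) (pc := pcF2) (cut := Cut.none) (xt := Ext.none) (P1 := 0) (W1 := 536870912) (P2 := 0) (W2 := 536870912) (P3 := 67108864) (W3 := 67108864)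
    rfl rfl rfl k0_mm_022_a

noncomputable def f_mm_022_b : ℕ → ℕ → ℕ → ℕ → Bool := onCell 0 536870912 1239849684 370763052 67108864 67108864
    (rowFK 0 true false false .pp 0 2 2 (qsf 0 536870912 1239849684 370763052 2) ndF1q0 ndF2q2b pcF2 Cut.none Ext.none)

def k0_mm_022_b : ∃ t, chk3 f_mm_022_b t 1 1 1 = true :=
  ⟨(l 5), by decide +kernel⟩

theorem c_mm_022_b : CertF 0 536870912 1239849684 370763052 67108864 67108864 true false false .pp 0 2 2
    ndF1q0 ndF2q2b pcF2 Cut.none Ext.none :=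
  certFK0 (fam := true) (s1 := false) (s2 := false) (a := 0) (b := 2) (c := 2) (cn := .pp) (n1 := ndF1q0) (n2 := ndF2q2b) (pc := pcF2) (cut := Cut.none) (xt := Ext.none) (P1 := 0) (W1 := 536870912) (P2 := 1239849684) (W2 := 370763052) (P3 := 67108864) (W3 := 67108864)
    rfl rfl rfl k0_mm_022_b

noncomputable def f_mm_023_a : ℕ → ℕ → ℕ → ℕ → Bool := onCell 0 536870912 0 536870912 67108864 67108864
    (rowFK 0 true false false .up 0 2 3 (qsf 0 536870912 0 536870912 3) ndF1q0 ndF2q2a pcF3 Cut.none Ext.none)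

def k0_mm_023_a : ∃ t, chk3 f_mm_023_a t 1 1 1 = true :=
  ⟨(l 5), by decide +kernel⟩

theorem c_mm_023_a : CertF 0 536870912 0 536870912 67108864 67108864 true false false .up 0 2 3
    ndF1q0 ndF2q2a pcF3 Cut.none Ext.none :=
  certFK0 (fam := true) (s1 := false) (s2 := false) (a := 0) (b := 2) (c := 3) (cn := .up) (n1 := ndF1q0) (n2 := ndF2q2a) (pc := pcF3) (cut := Cut.none) (xt := Ext.none) (P1 := 0) (W1 := 536870912) (P2 := 0) (W2 := 536870912) (P3 := 67108864) (W3 := 67108864)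
    rfl rfl rfl k0_mm_023_a

noncomputable def f_mm_023_b : ℕ → ℕ → ℕ → ℕ → Bool := onCell 0 536870912 1239849684 370763052 67108864 67108864
    (rowFK 0 true false false .up 0 2 3 (qsf 0 536870912 1239849684 370763052 3) ndF1q0 ndF2q2b pcF3 Cut.none Ext.none)

def k0_mm_023_b : ∃ t, chk3 f_mm_023_b t 1 1 1 = true :=
  ⟨(l 5), by decide +kernel⟩

theorem c_mm_023_b : CertF 0 536870912 1239849684 370763052 67108864 67108864 true false false .up 0 2 3
    ndF1q0 ndF2q2b pcF3 Cut.none Ext.none :=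
  certFK0 (fam := true) (s1 := false) (s2 := false) (a := 0) (b := 2) (c := 3) (cn := .up) (n1 := ndF1q0) (n2 := ndF2q2b) (pc := pcF3) (cut := Cut.none) (xt := Ext.none) (P1 := 0) (W1 := 536870912) (P2 := 1239849684) (W2 := 370763052) (P3 := 67108864) (W3 := 67108864)
    rfl rfl rfl k0_mm_023_b

noncomputable def f_mm_033 : ℕ → ℕ → ℕ → ℕ → Bool := onCell 0 536870912 1610612736 536870912 67108864 67108864
    (rowFK 0 true false false .pnn 0 3 3 (qsf 0 536870912 1610612736 536870912 3) ndF1q0 ndF2q3 pcF3 Cut.none Ext.none)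

def k0_mm_033 : ∃ t, chk3 f_mm_033 t 1 1 1 = true :=
  ⟨(l 4), by decide +kernel⟩

theorem c_mm_033 : CertF 0 536870912 1610612736 536870912 67108864 67108864 true false false .pnn 0 3 3
    ndF1q0 ndF2q3 pcF3 Cut.none Ext.none :=
  certFK0 (fam := true) (s1 := false) (s2 := false) (a := 0) (b := 3) (c := 3) (cn := .pnn) (n1 := ndF1q0) (n2 := ndF2q3) (pc := pcF3) (cut := Cut.none) (xt := Ext.none) (P1 := 0) (W1 := 536870912) (P2 := 1610612736) (W2 := 536870912) (P3 := 67108864) (W3 := 67108864)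
    rfl rfl rfl k0_mm_033

noncomputable def f_mm_101 : ℕ → ℕ → ℕ → ℕ → Bool := onCell 536870912 536870912 0 536870912 67108864 67108864
    (rowFK 0 true false false .npn 1 0 1 (qsf 536870912 536870912 0 536870912 1) ndF1q1 ndF2q0 pcF1 Cut.none Ext.none)

def k0_mm_101 : ∃ t, chk3 f_mm_101 t 1 1 1 = true :=
  ⟨(l 4), by decide +kernel⟩

theorem c_mm_101 : CertF 536870912 536870912 0 536870912 67108864 67108864 true false false .npn 1 0 1
    ndF1q1 ndF2q0 pcF1 Cut.none Ext.none :=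
  certFK0 (fam := true) (s1 := false) (s2 := false) (a := 1) (b := 0) (c := 1) (cn := .npn) (n1 := ndF1q1) (n2 := ndF2q0) (pc := pcF1) (cut := Cut.none) (xt := Ext.none) (P1 := 536870912) (W1 := 536870912) (P2 := 0) (W2 := 536870912) (P3 := 67108864) (W3 := 67108864)
    rfl rfl rfl k0_mm_101

noncomputable def f_mm_102 : ℕ → ℕ → ℕ → ℕ → Bool := onCell 536870912 536870912 0 536870912 67108864 67108864
    (rowFK 0 true false false .npp 1 0 2 (qsf 536870912 536870912 0 536870912 2) ndF1q1 ndF2q0 pcF2 Cut.none Ext.none)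

def k0_mm_102 : ∃ t, chk3 f_mm_102 t 1 1 1 = true :=
  ⟨(l 4), by decide +kernel⟩

theorem c_mm_102 : CertF 536870912 536870912 0 536870912 67108864 67108864 true false false .npp 1 0 2
    ndF1q1 ndF2q0 pcF2 Cut.none Ext.none :=
  certFK0 (fam := true) (s1 := false) (s2 := false) (a := 1) (b := 0) (c := 2) (cn := .npp) (n1 := ndF1q1) (n2 := ndF2q0) (pc := pcF2) (cut := Cut.none) (xt := Ext.none) (P1 := 536870912) (W1 := 536870912) (P2 := 0) (W2 := 536870912) (P3 := 67108864) (W3 := 67108864)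
    rfl rfl rfl k0_mm_102

noncomputable def f_mm_112 : ℕ → ℕ → ℕ → ℕ → Bool := onCell 536870912 536870912 536870912 536870912 67108864 67108864
    (rowFK 0 true false false .dn 1 1 2 (qsf 536870912 536870912 536870912 536870912 2) ndF1q1 ndF2q1 pcF2 Cut.none Ext.none)

def k0_mm_112 : ∃ t, chk3 f_mm_112 t 1 1 1 = true :=
  ⟨(l 4), by decide +kernel⟩

theorem c_mm_112 : CertF 536870912 536870912 536870912 536870912 67108864 67108864 true false false .dn 1 1 2
    ndF1q1 ndF2q1 pcF2 Cut.none Ext.none :=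
  certFK0 (fam := true) (s1 := false) (s2 := false) (a := 1) (b := 1) (c := 2) (cn := .dn) (n1 := ndF1q1) (n2 := ndF2q1) (pc := pcF2) (cut := Cut.none) (xt := Ext.none) (P1 := 536870912) (W1 := 536870912) (P2 := 536870912) (W2 := 536870912) (P3 := 67108864) (W3 := 67108864)
    rfl rfl rfl k0_mm_112

noncomputable def f_mm_113 : ℕ → ℕ → ℕ → ℕ → Bool := onCell 536870912 536870912 536870912 536870912 67108864 67108864
    (rowFK 0 true false false .nn 1 1 3 (qsf 536870912 536870912 536870912 536870912 3) ndF1q1 ndF2q1 pcF3 Cut.none Ext.none)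

def k0_mm_113 : ∃ t, chk3 f_mm_113 t 1 1 1 = true :=
  ⟨(l 4), by decide +kernel⟩

theorem c_mm_113 : CertF 536870912 536870912 536870912 536870912 67108864 67108864 true false false .nn 1 1 3
    ndF1q1 ndF2q1 pcF3 Cut.none Ext.none :=
  certFK0 (fam := true) (s1 := false) (s2 := false) (a := 1) (b := 1) (c := 3) (cn := .nn) (n1 := ndF1q1) (n2 := ndF2q1) (pc := pcF3) (cut := Cut.none) (xt := Ext.none) (P1 := 536870912) (W1 := 536870912) (P2 := 536870912) (W2 := 536870912) (P3 := 67108864) (W3 := 67108864)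
    rfl rfl rfl k0_mm_113

noncomputable def f_mm_123_a : ℕ → ℕ → ℕ → ℕ → Bool := onCell 536870912 536870912 0 536870912 67108864 67108864
    (rowFK 0 true false false .npn 1 2 3 (qsf 536870912 536870912 0 536870912 3) ndF1q1 ndF2q2a pcF3 Cut.none Ext.none)

def k0_mm_123_a : ∃ t, chk3 f_mm_123_a t 1 1 1 = true :=
  ⟨(l 4), by decide +kernel⟩

theorem c_mm_123_a : CertF 536870912 536870912 0 536870912 67108864 67108864 true false false .npn 1 2 3
    ndF1q1 ndF2q2a pcF3 Cut.none Ext.none :=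
  certFK0 (fam := true) (s1 := false) (s2 := false) (a := 1) (b := 2) (c := 3) (cn := .npn) (n1 := ndF1q1) (n2 := ndF2q2a) (pc := pcF3) (cut := Cut.none) (xt := Ext.none) (P1 := 536870912) (W1 := 536870912) (P2 := 0) (W2 := 536870912) (P3 := 67108864) (W3 := 67108864)
    rfl rfl rfl k0_mm_123_a

noncomputable def f_mm_123_b : ℕ → ℕ → ℕ → ℕ → Bool := onCell 536870912 536870912 1239849684 370763052 67108864 67108864
    (rowFK 0 true false false .npn 1 2 3 (qsf 536870912 536870912 1239849684 370763052 3) ndF1q1 ndF2q2b pcF3 Cut.none Ext.none)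

def k0_mm_123_b : ∃ t, chk3 f_mm_123_b t 1 1 1 = true :=
  ⟨(l 4), by decide +kernel⟩

theorem c_mm_123_b : CertF 536870912 536870912 1239849684 370763052 67108864 67108864 true false false .npn 1 2 3
    ndF1q1 ndF2q2b pcF3 Cut.none Ext.none :=
  certFK0 (fam := true) (s1 := false) (s2 := false) (a := 1) (b := 2) (c := 3) (cn := .npn) (n1 := ndF1q1) (n2 := ndF2q2b) (pc := pcF3) (cut := Cut.none) (xt := Ext.none) (P1 := 536870912) (W1 := 536870912) (P2 := 1239849684) (W2 := 370763052) (P3 := 67108864) (W3 := 67108864)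
    rfl rfl rfl k0_mm_123_b

noncomputable def f_mm_133 : ℕ → ℕ → ℕ → ℕ → Bool := onCell 536870912 536870912 1610612736 536870912 67108864 67108864
    (rowFK 0 true false false .dn 1 3 3 (qsf 536870912 536870912 1610612736 536870912 3) ndF1q1 ndF2q3 pcF3 Cut.none Ext.none)

def k0_mm_133 : ∃ t, chk3 f_mm_133 t 1 1 1 = true :=
  ⟨(l 4), by decide +kernel⟩

theorem c_mm_133 : CertF 536870912 536870912 1610612736 536870912 67108864 67108864 true false false .dn 1 3 3
    ndF1q1 ndF2q3 pcF3 Cut.none Ext.none :=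
  certFK0 (fam := true) (s1 := false) (s2 := false) (a := 1) (b := 3) (c := 3) (cn := .dn) (n1 := ndF1q1) (n2 := ndF2q3) (pc := pcF3) (cut := Cut.none) (xt := Ext.none) (P1 := 536870912) (W1 := 536870912) (P2 := 1610612736) (W2 := 536870912) (P3 := 67108864) (W3 := 67108864)
    rfl rfl rfl k0_mm_133

noncomputable def cut_mm_202_a : Cut := Cut.of [[⟨0, 1, 0, 67108864⟩, ⟨1, 0, 0, 67108864⟩, ⟨2, 1, 0, 67108864⟩]]

noncomputable def f_mm_202_a : ℕ → ℕ → ℕ → ℕ → Bool := onCell 0 536870912 0 536870912 67108864 67108864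
    (rowFK 0 true false false .pp 2 0 2 (qsf 0 536870912 0 536870912 2) ndF1q2a ndF2q0 pcF2 cut_mm_202_a Ext.none)

def k0_mm_202_a : ∃ t, chk3 f_mm_202_a t 1 1 1 = true :=
  ⟨(b (b (a (b (a (b (b (a (l 18098896) (l 18038944)) (l 17995384)) (l 17851000)) (b (b (a (a (l 17953144) (l 17741088)) (b (c (l 18125392) (a (l 17297704) (l 17105464))) (l 17687688))) (a (l 17867024) (l 17690072))) (l 17677072))) (a (l 4) (l 4))) (b (b (b (b (a (a (b (c (a (l 17875648) (l 17555944)) (l 16649176)) (l 17019440)) (a (l 16661448) (b (l 16673224) (l 16648712)))) (a (b (a (a (l 16686672) (l 16696752)) (l 6)) (a (l 16676632) (l 27615204119))) (l 6))) (a (a (l 17277440) (a (l 16877824) (l 16653184))) (l 4))) (a (a (l 17406600) (l 4)) (l 4))) (l 4)) (l 4))) (l 4)) (l 4)), by decide +kernel⟩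

theorem c_mm_202_a : CertF 0 536870912 0 536870912 67108864 67108864 true false false .pp 2 0 2
    ndF1q2a ndF2q0 pcF2 cut_mm_202_a Ext.none :=
  certFK0 (fam := true) (s1 := false) (s2 := false) (a := 2) (b := 0) (c := 2) (cn := .pp) (n1 := ndF1q2a) (n2 := ndF2q0) (pc := pcF2) (cut := cut_mm_202_a) (xt := Ext.none) (P1 := 0) (W1 := 536870912) (P2 := 0) (W2 := 536870912) (P3 := 67108864) (W3 := 67108864)
    rfl rfl rfl k0_mm_202_a

noncomputable def cut_mm_202_b : Cut := Cut.of [[⟨0, 1, 0, 67108864⟩, ⟨1, 0, 0, 67108864⟩, ⟨2, 1, 0, 67108864⟩]]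

noncomputable def f_mm_202_b : ℕ → ℕ → ℕ → ℕ → Bool := onCell 1239849684 370763052 0 536870912 67108864 67108864
    (rowFK 0 true false false .pp 2 0 2 (qsf 1239849684 370763052 0 536870912 2) ndF1q2b ndF2q0 pcF2 cut_mm_202_b Ext.none)

def k0_mm_202_b : ∃ t, chk3 f_mm_202_b t 1 1 1 = true :=
  ⟨(b (b (a (b (a (b (a (b (a (l 18228352) (l 18418632)) (l 18218152)) (l 18545992)) (a (l 18033176) (l 18244032))) (b (l 18877608) (l 18412824))) (a (l 4) (l 4))) (b (a (b (l 18812688) (l 4)) (l 4)) (l 4))) (l 4)) (l 4)), by decide +kernel⟩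

theorem c_mm_202_b : CertF 1239849684 370763052 0 536870912 67108864 67108864 true false false .pp 2 0 2
    ndF1q2b ndF2q0 pcF2 cut_mm_202_b Ext.none :=
  certFK0 (fam := true) (s1 := false) (s2 := false) (a := 2) (b := 0) (c := 2) (cn := .pp) (n1 := ndF1q2b) (n2 := ndF2q0) (pc := pcF2) (cut := cut_mm_202_b) (xt := Ext.none) (P1 := 1239849684) (W1 := 370763052) (P2 := 0) (W2 := 536870912) (P3 := 67108864) (W3 := 67108864)
    rfl rfl rfl k0_mm_202_b

noncomputable def f_mm_203_a : ℕ → ℕ → ℕ → ℕ → Bool := onCell 0 536870912 1610612736 536870912 67108864 67108864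
    (rowFK 1 true false false .up 2 0 3 (qsf 0 536870912 0 536870912 3) ndF1q2a ndF2q0 pcF3 Cut.none Ext.none)

def k0_mm_203_a : ∃ t, chk3 f_mm_203_a t 1 1 1 = true :=
  ⟨(l 4), by decide +kernel⟩

theorem c_mm_203_a : CertF 0 536870912 0 536870912 67108864 67108864 true false false .up 2 0 3
    ndF1q2a ndF2q0 pcF3 Cut.none Ext.none :=
  certFK1 (fam := true) (s1 := false) (s2 := false) (a := 2) (b := 0) (c := 3) (cn := .up) (n1 := ndF1q2a) (n2 := ndF2q0) (pc := pcF3) (cut := Cut.none) (xt := Ext.none) (P1 := 0) (W1 := 536870912) (P2 := 0) (W2 := 536870912) (P3 := 67108864) (W3 := 67108864)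
    rfl rfl rfl (fun _ => rfl) k0_mm_203_a

noncomputable def f_mm_203_b : ℕ → ℕ → ℕ → ℕ → Bool := onCell 1239849684 370763052 1610612736 536870912 67108864 67108864
    (rowFK 1 true false false .up 2 0 3 (qsf 1239849684 370763052 0 536870912 3) ndF1q2b ndF2q0 pcF3 Cut.none Ext.none)

def k0_mm_203_b : ∃ t, chk3 f_mm_203_b t 1 1 1 = true :=
  ⟨(b (l 4) (l 4)), by decide +kernel⟩

theorem c_mm_203_b : CertF 1239849684 370763052 0 536870912 67108864 67108864 true false false .up 2 0 3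
    ndF1q2b ndF2q0 pcF3 Cut.none Ext.none :=
  certFK1 (fam := true) (s1 := false) (s2 := false) (a := 2) (b := 0) (c := 3) (cn := .up) (n1 := ndF1q2b) (n2 := ndF2q0) (pc := pcF3) (cut := Cut.none) (xt := Ext.none) (P1 := 1239849684) (W1 := 370763052) (P2 := 0) (W2 := 536870912) (P3 := 67108864) (W3 := 67108864)
    rfl rfl rfl (fun _ => rfl) k0_mm_203_b

noncomputable def f_mm_213_a : ℕ → ℕ → ℕ → ℕ → Bool := onCell 0 536870912 536870912 536870912 67108864 67108864
    (rowFK 0 true false false .pnn 2 1 3 (qsf 0 536870912 536870912 536870912 3) ndF1q2a ndF2q1 pcF3 Cut.none Ext.none)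

def k0_mm_213_a : ∃ t, chk3 f_mm_213_a t 1 1 1 = true :=
  ⟨(l 4), by decide +kernel⟩

theorem c_mm_213_a : CertF 0 536870912 536870912 536870912 67108864 67108864 true false false .pnn 2 1 3
    ndF1q2a ndF2q1 pcF3 Cut.none Ext.none :=
  certFK0 (fam := true) (s1 := false) (s2 := false) (a := 2) (b := 1) (c := 3) (cn := .pnn) (n1 := ndF1q2a) (n2 := ndF2q1) (pc := pcF3) (cut := Cut.none) (xt := Ext.none) (P1 := 0) (W1 := 536870912) (P2 := 536870912) (W2 := 536870912) (P3 := 67108864) (W3 := 67108864)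
    rfl rfl rfl k0_mm_213_a

noncomputable def f_mm_213_b : ℕ → ℕ → ℕ → ℕ → Bool := onCell 1239849684 370763052 536870912 536870912 67108864 67108864
    (rowFK 0 true false false .pnn 2 1 3 (qsf 1239849684 370763052 536870912 536870912 3) ndF1q2b ndF2q1 pcF3 Cut.none Ext.none)

def k0_mm_213_b : ∃ t, chk3 f_mm_213_b t 1 1 1 = true :=
  ⟨(l 4), by decide +kernel⟩

theorem c_mm_213_b : CertF 1239849684 370763052 536870912 536870912 67108864 67108864 true false false .pnn 2 1 3
    ndF1q2b ndF2q1 pcF3 Cut.none Ext.none :=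
  certFK0 (fam := true) (s1 := false) (s2 := false) (a := 2) (b := 1) (c := 3) (cn := .pnn) (n1 := ndF1q2b) (n2 := ndF2q1) (pc := pcF3) (cut := Cut.none) (xt := Ext.none) (P1 := 1239849684) (W1 := 370763052) (P2 := 536870912) (W2 := 536870912) (P3 := 67108864) (W3 := 67108864)
    rfl rfl rfl k0_mm_213_b

noncomputable def f_mm_303 : ℕ → ℕ → ℕ → ℕ → Bool := onCell 1610612736 536870912 0 536870912 67108864 67108864
    (rowFK 0 true false false .npn 3 0 3 (qsf 1610612736 536870912 0 536870912 3) ndF1q3 ndF2q0 pcF3 Cut.none Ext.none)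

def k0_mm_303 : ∃ t, chk3 f_mm_303 t 1 1 1 = true :=
  ⟨(a (b (l 4) (l 4)) (l 4)), by decide +kernel⟩

theorem c_mm_303 : CertF 1610612736 536870912 0 536870912 67108864 67108864 true false false .npn 3 0 3
    ndF1q3 ndF2q0 pcF3 Cut.none Ext.none :=
  certFK0 (fam := true) (s1 := false) (s2 := false) (a := 3) (b := 0) (c := 3) (cn := .npn) (n1 := ndF1q3) (n2 := ndF2q0) (pc := pcF3) (cut := Cut.none) (xt := Ext.none) (P1 := 1610612736) (W1 := 536870912) (P2 := 0) (W2 := 536870912) (P3 := 67108864) (W3 := 67108864)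
    rfl rfl rfl k0_mm_303

noncomputable def f_mm_313 : ℕ → ℕ → ℕ → ℕ → Bool := onCell 1610612736 536870912 536870912 536870912 67108864 67108864
    (rowFK 0 true false false .dn 3 1 3 (qsf 1610612736 536870912 536870912 536870912 3) ndF1q3 ndF2q1 pcF3 Cut.none Ext.none)

def k0_mm_313 : ∃ t, chk3 f_mm_313 t 1 1 1 = true :=
  ⟨(l 4), by decide +kernel⟩

theorem c_mm_313 : CertF 1610612736 536870912 536870912 536870912 67108864 67108864 true false false .dn 3 1 3
    ndF1q3 ndF2q1 pcF3 Cut.none Ext.none :=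
  certFK0 (fam := true) (s1 := false) (s2 := false) (a := 3) (b := 1) (c := 3) (cn := .dn) (n1 := ndF1q3) (n2 := ndF2q1) (pc := pcF3) (cut := Cut.none) (xt := Ext.none) (P1 := 1610612736) (W1 := 536870912) (P2 := 536870912) (W2 := 536870912) (P3 := 67108864) (W3 := 67108864)
    rfl rfl rfl k0_mm_313

end Pool.Agent.Strip051.G.I1_16_1_8.Tab.C.FA12

namespace Pool.Agent.Strip051.G.I1_16_1_8.Tab.C.FA13

open Pool.Agent.Strip051.PB Pool.Agent.Strip051.PB.T
open Pool.Agent.Strip051.G.I1_16_1_8.Tab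

noncomputable def f_pp_001 : ℕ → ℕ → ℕ → ℕ → Bool := onCell 0 536870912 0 536870912 67108864 67108864
    (rowFK 0 true true true .up 0 0 1 (qsf 0 536870912 0 536870912 1) ndF1q0 ndF3q0 pcF1 Cut.none Ext.none)

def k0_pp_001 : ∃ t, chk3 f_pp_001 t 1 1 1 = true :=
  ⟨(l 4), by decide +kernel⟩

theorem c_pp_001 : CertF 0 536870912 0 536870912 67108864 67108864 true true true .up 0 0 1
    ndF1q0 ndF3q0 pcF1 Cut.none Ext.none :=
  certFK0 (fam := true) (s1 := true) (s2 := true) (a := 0) (b := 0) (c := 1) (cn := .up) (n1 := ndF1q0) (n2 := ndF3q0) (pc := pcF1) (cut := Cut.none) (xt := Ext.none) (P1 := 0) (W1 := 536870912) (P2 := 0) (W2 := 536870912) (P3 := 67108864) (W3 := 67108864)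
    rfl rfl rfl k0_pp_001

noncomputable def f_pp_011 : ℕ → ℕ → ℕ → ℕ → Bool := onCell 0 536870912 536870912 536870912 67108864 67108864
    (rowFK 0 true true true .pnn 0 1 1 (qsf 0 536870912 536870912 536870912 1) ndF1q0 ndF3q1 pcF1 Cut.none Ext.none)

def k0_pp_011 : ∃ t, chk3 f_pp_011 t 1 1 1 = true :=
  ⟨(l 4), by decide +kernel⟩

theorem c_pp_011 : CertF 0 536870912 536870912 536870912 67108864 67108864 true true true .pnn 0 1 1
    ndF1q0 ndF3q1 pcF1 Cut.none Ext.none :=
  certFK0 (fam := true) (s1 := true) (s2 := true) (a := 0) (b := 1) (c := 1) (cn := .pnn) (n1 := ndF1q0) (n2 := ndF3q1) (pc := pcF1) (cut := Cut.none) (xt := Ext.none) (P1 := 0) (W1 := 536870912) (P2 := 536870912) (W2 := 536870912) (P3 := 67108864) (W3 := 67108864)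
    rfl rfl rfl k0_pp_011

noncomputable def f_pp_012 : ℕ → ℕ → ℕ → ℕ → Bool := onCell 0 536870912 536870912 536870912 67108864 67108864
    (rowFK 0 true true true .pnp 0 1 2 (qsf 0 536870912 536870912 536870912 2) ndF1q0 ndF3q1 pcF2 Cut.none Ext.none)

def k0_pp_012 : ∃ t, chk3 f_pp_012 t 1 1 1 = true :=
  ⟨(l 4), by decide +kernel⟩

theorem c_pp_012 : CertF 0 536870912 536870912 536870912 67108864 67108864 true true true .pnp 0 1 2
    ndF1q0 ndF3q1 pcF2 Cut.none Ext.none :=
  certFK0 (fam := true) (s1 := true) (s2 := true) (a := 0) (b := 1) (c := 2) (cn := .pnp) (n1 := ndF1q0) (n2 := ndF3q1) (pc := pcF2) (cut := Cut.none) (xt := Ext.none) (P1 := 0) (W1 := 536870912) (P2 := 536870912) (W2 := 536870912) (P3 := 67108864) (W3 := 67108864)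
    rfl rfl rfl k0_pp_012

noncomputable def f_pp_022 : ℕ → ℕ → ℕ → ℕ → Bool := onCell 0 536870912 1073741824 536870912 67108864 67108864
    (rowFK 0 true true true .pp 0 2 2 (qsf 0 536870912 1073741824 536870912 2) ndF1q0 ndF3q2 pcF2 Cut.none Ext.none)

def k0_pp_022 : ∃ t, chk3 f_pp_022 t 1 1 1 = true :=
  ⟨(l 4), by decide +kernel⟩

theorem c_pp_022 : CertF 0 536870912 1073741824 536870912 67108864 67108864 true true true .pp 0 2 2
    ndF1q0 ndF3q2 pcF2 Cut.none Ext.none :=
  certFK0 (fam := true) (s1 := true) (s2 := true) (a := 0) (b := 2) (c := 2) (cn := .pp) (n1 := ndF1q0) (n2 := ndF3q2) (pc := pcF2) (cut := Cut.none) (xt := Ext.none) (P1 := 0) (W1 := 536870912) (P2 := 1073741824) (W2 := 536870912) (P3 := 67108864) (W3 := 67108864)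
    rfl rfl rfl k0_pp_022

noncomputable def f_pp_023 : ℕ → ℕ → ℕ → ℕ → Bool := onCell 0 536870912 1073741824 536870912 67108864 67108864
    (rowFK 0 true true true .up 0 2 3 (qsf 0 536870912 1073741824 536870912 3) ndF1q0 ndF3q2 pcF3 Cut.none Ext.none)

def k0_pp_023 : ∃ t, chk3 f_pp_023 t 1 1 1 = true :=
  ⟨(l 4), by decide +kernel⟩

theorem c_pp_023 : CertF 0 536870912 1073741824 536870912 67108864 67108864 true true true .up 0 2 3
    ndF1q0 ndF3q2 pcF3 Cut.none Ext.none :=
  certFK0 (fam := true) (s1 := true) (s2 := true) (a := 0) (b := 2) (c := 3) (cn := .up) (n1 := ndF1q0) (n2 := ndF3q2) (pc := pcF3) (cut := Cut.none) (xt := Ext.none) (P1 := 0) (W1 := 536870912) (P2 := 1073741824) (W2 := 536870912) (P3 := 67108864) (W3 := 67108864)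
    rfl rfl rfl k0_pp_023

noncomputable def f_pp_033 : ℕ → ℕ → ℕ → ℕ → Bool := onCell 0 536870912 0 1230186008 67108864 67108864
    (rowFK 0 true true true .pnn 0 3 3 (qsf 0 536870912 0 1230186008 3) ndF1q0 ndF3q3 pcF3 Cut.none Ext.none)

def k0_pp_033 : ∃ t, chk3 f_pp_033 t 1 1 1 = true :=
  ⟨(b (l 4) (l 4)), by decide +kernel⟩

theorem c_pp_033 : CertF 0 536870912 0 1230186008 67108864 67108864 true true true .pnn 0 3 3
    ndF1q0 ndF3q3 pcF3 Cut.none Ext.none :=
  certFK0 (fam := true) (s1 := true) (s2 := true) (a := 0) (b := 3) (c := 3) (cn := .pnn) (n1 := ndF1q0) (n2 := ndF3q3) (pc := pcF3) (cut := Cut.none) (xt := Ext.none) (P1 := 0) (W1 := 536870912) (P2 := 0) (W2 := 1230186008) (P3 := 67108864) (W3 := 67108864)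
    rfl rfl rfl k0_pp_033

noncomputable def f_pp_101 : ℕ → ℕ → ℕ → ℕ → Bool := onCell 536870912 536870912 0 536870912 67108864 67108864
    (rowFK 0 true true true .npn 1 0 1 (qsf 536870912 536870912 0 536870912 1) ndF1q1 ndF3q0 pcF1 Cut.none Ext.none)

def k0_pp_101 : ∃ t, chk3 f_pp_101 t 1 1 1 = true :=
  ⟨(l 4), by decide +kernel⟩

theorem c_pp_101 : CertF 536870912 536870912 0 536870912 67108864 67108864 true true true .npn 1 0 1
    ndF1q1 ndF3q0 pcF1 Cut.none Ext.none :=
  certFK0 (fam := true) (s1 := true) (s2 := true) (a := 1) (b := 0) (c := 1) (cn := .npn) (n1 := ndF1q1) (n2 := ndF3q0) (pc := pcF1) (cut := Cut.none) (xt := Ext.none) (P1 := 536870912) (W1 := 536870912) (P2 := 0) (W2 := 536870912) (P3 := 67108864) (W3 := 67108864)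
    rfl rfl rfl k0_pp_101

noncomputable def f_pp_102 : ℕ → ℕ → ℕ → ℕ → Bool := onCell 536870912 536870912 0 536870912 67108864 67108864
    (rowFK 0 true true true .npp 1 0 2 (qsf 536870912 536870912 0 536870912 2) ndF1q1 ndF3q0 pcF2 Cut.none Ext.none)

def k0_pp_102 : ∃ t, chk3 f_pp_102 t 1 1 1 = true :=
  ⟨(l 4), by decide +kernel⟩

theorem c_pp_102 : CertF 536870912 536870912 0 536870912 67108864 67108864 true true true .npp 1 0 2
    ndF1q1 ndF3q0 pcF2 Cut.none Ext.none :=
  certFK0 (fam := true) (s1 := true) (s2 := true) (a := 1) (b := 0) (c := 2) (cn := .npp) (n1 := ndF1q1) (n2 := ndF3q0) (pc := pcF2) (cut := Cut.none) (xt := Ext.none) (P1 := 536870912) (W1 := 536870912) (P2 := 0) (W2 := 536870912) (P3 := 67108864) (W3 := 67108864)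
    rfl rfl rfl k0_pp_102

noncomputable def f_pp_112 : ℕ → ℕ → ℕ → ℕ → Bool := onCell 536870912 536870912 536870912 536870912 67108864 67108864
    (rowFK 0 true true true .dn 1 1 2 (qsf 536870912 536870912 536870912 536870912 2) ndF1q1 ndF3q1 pcF2 Cut.none Ext.none)

def k0_pp_112 : ∃ t, chk3 f_pp_112 t 1 1 1 = true :=
  ⟨(l 4), by decide +kernel⟩

theorem c_pp_112 : CertF 536870912 536870912 536870912 536870912 67108864 67108864 true true true .dn 1 1 2
    ndF1q1 ndF3q1 pcF2 Cut.none Ext.none :=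
  certFK0 (fam := true) (s1 := true) (s2 := true) (a := 1) (b := 1) (c := 2) (cn := .dn) (n1 := ndF1q1) (n2 := ndF3q1) (pc := pcF2) (cut := Cut.none) (xt := Ext.none) (P1 := 536870912) (W1 := 536870912) (P2 := 536870912) (W2 := 536870912) (P3 := 67108864) (W3 := 67108864)
    rfl rfl rfl k0_pp_112

noncomputable def f_pp_113 : ℕ → ℕ → ℕ → ℕ → Bool := onCell 536870912 536870912 536870912 536870912 67108864 67108864
    (rowFK 0 true true true .nn 1 1 3 (qsf 536870912 536870912 536870912 536870912 3) ndF1q1 ndF3q1 pcF3 Cut.none Ext.none)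

def k0_pp_113 : ∃ t, chk3 f_pp_113 t 1 1 1 = true :=
  ⟨(l 4), by decide +kernel⟩

theorem c_pp_113 : CertF 536870912 536870912 536870912 536870912 67108864 67108864 true true true .nn 1 1 3
    ndF1q1 ndF3q1 pcF3 Cut.none Ext.none :=
  certFK0 (fam := true) (s1 := true) (s2 := true) (a := 1) (b := 1) (c := 3) (cn := .nn) (n1 := ndF1q1) (n2 := ndF3q1) (pc := pcF3) (cut := Cut.none) (xt := Ext.none) (P1 := 536870912) (W1 := 536870912) (P2 := 536870912) (W2 := 536870912) (P3 := 67108864) (W3 := 67108864)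
    rfl rfl rfl k0_pp_113

noncomputable def f_pp_123 : ℕ → ℕ → ℕ → ℕ → Bool := onCell 536870912 536870912 1073741824 536870912 67108864 67108864
    (rowFK 0 true true true .npn 1 2 3 (qsf 536870912 536870912 1073741824 536870912 3) ndF1q1 ndF3q2 pcF3 Cut.none Ext.none)

def k0_pp_123 : ∃ t, chk3 f_pp_123 t 1 1 1 = true :=
  ⟨(l 4), by decide +kernel⟩

theorem c_pp_123 : CertF 536870912 536870912 1073741824 536870912 67108864 67108864 true true true .npn 1 2 3
    ndF1q1 ndF3q2 pcF3 Cut.none Ext.none :=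
  certFK0 (fam := true) (s1 := true) (s2 := true) (a := 1) (b := 2) (c := 3) (cn := .npn) (n1 := ndF1q1) (n2 := ndF3q2) (pc := pcF3) (cut := Cut.none) (xt := Ext.none) (P1 := 536870912) (W1 := 536870912) (P2 := 1073741824) (W2 := 536870912) (P3 := 67108864) (W3 := 67108864)
    rfl rfl rfl k0_pp_123

noncomputable def f_pp_133 : ℕ → ℕ → ℕ → ℕ → Bool := onCell 536870912 536870912 0 1230186008 67108864 67108864
    (rowFK 0 true true true .dn 1 3 3 (qsf 536870912 536870912 0 1230186008 3) ndF1q1 ndF3q3 pcF3 Cut.none Ext.none)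

def k0_pp_133 : ∃ t, chk3 f_pp_133 t 1 1 1 = true :=
  ⟨(l 4), by decide +kernel⟩

theorem c_pp_133 : CertF 536870912 536870912 0 1230186008 67108864 67108864 true true true .dn 1 3 3
    ndF1q1 ndF3q3 pcF3 Cut.none Ext.none :=
  certFK0 (fam := true) (s1 := true) (s2 := true) (a := 1) (b := 3) (c := 3) (cn := .dn) (n1 := ndF1q1) (n2 := ndF3q3) (pc := pcF3) (cut := Cut.none) (xt := Ext.none) (P1 := 536870912) (W1 := 536870912) (P2 := 0) (W2 := 1230186008) (P3 := 67108864) (W3 := 67108864)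
    rfl rfl rfl k0_pp_133

noncomputable def f_pp_202_a : ℕ → ℕ → ℕ → ℕ → Bool := onCell 0 536870912 0 536870912 67108864 67108864
    (rowFK 0 true true true .pp 2 0 2 (qsf 0 536870912 0 536870912 2) ndF1q2a ndF3q0 pcF2 Cut.none Ext.none)

def k0_pp_202_a : ∃ t, chk3 f_pp_202_a t 1 1 1 = true :=
  ⟨(l 4), by decide +kernel⟩

theorem c_pp_202_a : CertF 0 536870912 0 536870912 67108864 67108864 true true true .pp 2 0 2
    ndF1q2a ndF3q0 pcF2 Cut.none Ext.none :=
  certFK0 (fam := true) (s1 := true) (s2 := true) (a := 2) (b := 0) (c := 2) (cn := .pp) (n1 := ndF1q2a) (n2 := ndF3q0) (pc := pcF2) (cut := Cut.none) (xt := Ext.none) (P1 := 0) (W1 := 536870912) (P2 := 0) (W2 := 536870912) (P3 := 67108864) (W3 := 67108864)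
    rfl rfl rfl k0_pp_202_a

noncomputable def f_pp_202_b : ℕ → ℕ → ℕ → ℕ → Bool := onCell 1239849684 370763052 0 536870912 67108864 67108864
    (rowFK 0 true true true .pp 2 0 2 (qsf 1239849684 370763052 0 536870912 2) ndF1q2b ndF3q0 pcF2 Cut.none Ext.none)

def k0_pp_202_b : ∃ t, chk3 f_pp_202_b t 1 1 1 = true :=
  ⟨(l 4), by decide +kernel⟩

theorem c_pp_202_b : CertF 1239849684 370763052 0 536870912 67108864 67108864 true true true .pp 2 0 2
    ndF1q2b ndF3q0 pcF2 Cut.none Ext.none :=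
  certFK0 (fam := true) (s1 := true) (s2 := true) (a := 2) (b := 0) (c := 2) (cn := .pp) (n1 := ndF1q2b) (n2 := ndF3q0) (pc := pcF2) (cut := Cut.none) (xt := Ext.none) (P1 := 1239849684) (W1 := 370763052) (P2 := 0) (W2 := 536870912) (P3 := 67108864) (W3 := 67108864)
    rfl rfl rfl k0_pp_202_b

noncomputable def f_pp_203_a : ℕ → ℕ → ℕ → ℕ → Bool := onCell 0 536870912 0 536870912 67108864 67108864
    (rowFK 0 true true true .up 2 0 3 (qsf 0 536870912 0 536870912 3) ndF1q2a ndF3q0 pcF3 Cut.none Ext.none)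

def k0_pp_203_a : ∃ t, chk3 f_pp_203_a t 1 1 1 = true :=
  ⟨(l 4), by decide +kernel⟩

theorem c_pp_203_a : CertF 0 536870912 0 536870912 67108864 67108864 true true true .up 2 0 3
    ndF1q2a ndF3q0 pcF3 Cut.none Ext.none :=
  certFK0 (fam := true) (s1 := true) (s2 := true) (a := 2) (b := 0) (c := 3) (cn := .up) (n1 := ndF1q2a) (n2 := ndF3q0) (pc := pcF3) (cut := Cut.none) (xt := Ext.none) (P1 := 0) (W1 := 536870912) (P2 := 0) (W2 := 536870912) (P3 := 67108864) (W3 := 67108864)
    rfl rfl rfl k0_pp_203_a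

noncomputable def f_pp_203_b : ℕ → ℕ → ℕ → ℕ → Bool := onCell 1239849684 370763052 0 536870912 67108864 67108864
    (rowFK 0 true true true .up 2 0 3 (qsf 1239849684 370763052 0 536870912 3) ndF1q2b ndF3q0 pcF3 Cut.none Ext.none)

def k0_pp_203_b : ∃ t, chk3 f_pp_203_b t 1 1 1 = true :=
  ⟨(l 4), by decide +kernel⟩

theorem c_pp_203_b : CertF 1239849684 370763052 0 536870912 67108864 67108864 true true true .up 2 0 3
    ndF1q2b ndF3q0 pcF3 Cut.none Ext.none :=
  certFK0 (fam := true) (s1 := true) (s2 := true) (a := 2) (b := 0) (c := 3) (cn := .up) (n1 := ndF1q2b) (n2 := ndF3q0) (pc := pcF3) (cut := Cut.none) (xt := Ext.none) (P1 := 1239849684) (W1 := 370763052) (P2 := 0) (W2 := 536870912) (P3 := 67108864) (W3 := 67108864)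
    rfl rfl rfl k0_pp_203_b

noncomputable def f_pp_213_a : ℕ → ℕ → ℕ → ℕ → Bool := onCell 0 536870912 536870912 536870912 67108864 67108864
    (rowFK 0 true true true .pnn 2 1 3 (qsf 0 536870912 536870912 536870912 3) ndF1q2a ndF3q1 pcF3 Cut.none Ext.none)

def k0_pp_213_a : ∃ t, chk3 f_pp_213_a t 1 1 1 = true :=
  ⟨(l 4), by decide +kernel⟩

theorem c_pp_213_a : CertF 0 536870912 536870912 536870912 67108864 67108864 true true true .pnn 2 1 3
    ndF1q2a ndF3q1 pcF3 Cut.none Ext.none :=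
  certFK0 (fam := true) (s1 := true) (s2 := true) (a := 2) (b := 1) (c := 3) (cn := .pnn) (n1 := ndF1q2a) (n2 := ndF3q1) (pc := pcF3) (cut := Cut.none) (xt := Ext.none) (P1 := 0) (W1 := 536870912) (P2 := 536870912) (W2 := 536870912) (P3 := 67108864) (W3 := 67108864)
    rfl rfl rfl k0_pp_213_a

noncomputable def f_pp_213_b : ℕ → ℕ → ℕ → ℕ → Bool := onCell 1239849684 370763052 536870912 536870912 67108864 67108864
    (rowFK 0 true true true .pnn 2 1 3 (qsf 1239849684 370763052 536870912 536870912 3) ndF1q2b ndF3q1 pcF3 Cut.none Ext.none)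

def k0_pp_213_b : ∃ t, chk3 f_pp_213_b t 1 1 1 = true :=
  ⟨(l 4), by decide +kernel⟩

theorem c_pp_213_b : CertF 1239849684 370763052 536870912 536870912 67108864 67108864 true true true .pnn 2 1 3
    ndF1q2b ndF3q1 pcF3 Cut.none Ext.none :=
  certFK0 (fam := true) (s1 := true) (s2 := true) (a := 2) (b := 1) (c := 3) (cn := .pnn) (n1 := ndF1q2b) (n2 := ndF3q1) (pc := pcF3) (cut := Cut.none) (xt := Ext.none) (P1 := 1239849684) (W1 := 370763052) (P2 := 536870912) (W2 := 536870912) (P3 := 67108864) (W3 := 67108864)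
    rfl rfl rfl k0_pp_213_b

noncomputable def f_pp_303 : ℕ → ℕ → ℕ → ℕ → Bool := onCell 1610612736 536870912 0 536870912 67108864 67108864
    (rowFK 0 true true true .npn 3 0 3 (qsf 1610612736 536870912 0 536870912 3) ndF1q3 ndF3q0 pcF3 Cut.none Ext.none)

def k0_pp_303 : ∃ t, chk3 f_pp_303 t 1 1 1 = true :=
  ⟨(l 4), by decide +kernel⟩

theorem c_pp_303 : CertF 1610612736 536870912 0 536870912 67108864 67108864 true true true .npn 3 0 3
    ndF1q3 ndF3q0 pcF3 Cut.none Ext.none :=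
  certFK0 (fam := true) (s1 := true) (s2 := true) (a := 3) (b := 0) (c := 3) (cn := .npn) (n1 := ndF1q3) (n2 := ndF3q0) (pc := pcF3) (cut := Cut.none) (xt := Ext.none) (P1 := 1610612736) (W1 := 536870912) (P2 := 0) (W2 := 536870912) (P3 := 67108864) (W3 := 67108864)
    rfl rfl rfl k0_pp_303

noncomputable def f_pp_313 : ℕ → ℕ → ℕ → ℕ → Bool := onCell 1610612736 536870912 536870912 536870912 67108864 67108864
    (rowFK 0 true true true .dn 3 1 3 (qsf 1610612736 536870912 536870912 536870912 3) ndF1q3 ndF3q1 pcF3 Cut.none Ext.none)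

def k0_pp_313 : ∃ t, chk3 f_pp_313 t 1 1 1 = true :=
  ⟨(l 4), by decide +kernel⟩

theorem c_pp_313 : CertF 1610612736 536870912 536870912 536870912 67108864 67108864 true true true .dn 3 1 3
    ndF1q3 ndF3q1 pcF3 Cut.none Ext.none :=
  certFK0 (fam := true) (s1 := true) (s2 := true) (a := 3) (b := 1) (c := 3) (cn := .dn) (n1 := ndF1q3) (n2 := ndF3q1) (pc := pcF3) (cut := Cut.none) (xt := Ext.none) (P1 := 1610612736) (W1 := 536870912) (P2 := 536870912) (W2 := 536870912) (P3 := 67108864) (W3 := 67108864)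
    rfl rfl rfl k0_pp_313

noncomputable def f_pm_001 : ℕ → ℕ → ℕ → ℕ → Bool := onCell 0 536870912 0 536870912 67108864 67108864
    (rowFK 0 true true false .up 0 0 1 (qsf 0 536870912 0 536870912 1) ndF1q0 ndF3q0 pcF1 Cut.none Ext.none)

def k0_pm_001 : ∃ t, chk3 f_pm_001 t 1 1 1 = true :=
  ⟨(a (l 3) (l 3)), by decide +kernel⟩

theorem c_pm_001 : CertF 0 536870912 0 536870912 67108864 67108864 true true false .up 0 0 1
    ndF1q0 ndF3q0 pcF1 Cut.none Ext.none :=
  certFK0 (fam := true) (s1 := true) (s2 := false) (a := 0) (b := 0) (c := 1) (cn := .up) (n1 := ndF1q0) (n2 := ndF3q0) (pc := pcF1) (cut := Cut.none) (xt := Ext.none) (P1 := 0) (W1 := 536870912) (P2 := 0) (W2 := 536870912) (P3 := 67108864) (W3 := 67108864)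
    rfl rfl rfl k0_pm_001

noncomputable def cut_pm_011 : Cut := Cut.of [[⟨0, 0, 0, 67108864⟩, ⟨1, 1, 0, 67108864⟩, ⟨2, 1, 0, 67108864⟩]]

noncomputable def f_pm_011 : ℕ → ℕ → ℕ → ℕ → Bool := onCell 0 536870912 536870912 536870912 67108864 67108864
    (rowFK 1 true true false .pnn 0 1 1 (qsf 0 536870912 536870912 536870912 1) ndF1q0 ndF3q1 pcF1 cut_pm_011 Ext.none)

def k0_pm_011 : ∃ t, chk3 f_pm_011 t 1 1 1 = true :=
  ⟨(b (l 3) (b (l 3) (a (a (b (l 3) (a (b (l 3) (a (b (l 3) (l 6)) (l 3))) (l 3))) (l 3)) (l 3)))), by decide +kernel⟩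

theorem c_pm_011 : CertF 0 536870912 536870912 536870912 67108864 67108864 true true false .pnn 0 1 1
    ndF1q0 ndF3q1 pcF1 cut_pm_011 Ext.none :=
  certFK1 (fam := true) (s1 := true) (s2 := false) (a := 0) (b := 1) (c := 1) (cn := .pnn) (n1 := ndF1q0) (n2 := ndF3q1) (pc := pcF1) (cut := cut_pm_011) (xt := Ext.none) (P1 := 0) (W1 := 536870912) (P2 := 536870912) (W2 := 536870912) (P3 := 67108864) (W3 := 67108864)
    rfl rfl rfl (fun _ => rfl) k0_pm_011

end Pool.Agent.Strip051.G.I1_16_1_8.Tab.C.FA13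

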