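import Pool.Agent.Strip051.G.I1_16_1_8.Tab
import Pool.Agent.Strip051.PB.RowK

/-! # Certificates F2 (generated) -/

set_option linter.all false
set_option maxRecDepth 100000

namespace Pool.Agent.Strip051.G.I1_16_1_8.Tab.C.FA13

open Pool.Agent.Strip051.PB Pool.Agent.Strip051.PB.T
open Pool.Agent.Strip051.G.I1_16_1_8.Tab

noncomputable def cut_pm_012 : Cut := Cut.of [[⟨0, 0, 0, 67108864⟩, ⟨1, 1, 0, 67108864⟩, ⟨2, 1, 0, 67108864⟩]]

noncomputable def f_pm_012 : ℕ → ℕ → ℕ → ℕ → Bool := onCell 1073741824 536870912 536870912 536870912 67108864 67108864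
    (rowFK 2 true true false .pnp 0 1 2 (qsf 0 536870912 536870912 536870912 2) ndF1q0 ndF3q1 pcF2 cut_pm_012 Ext.none)

def k0_pm_012 : ∃ t, chk3 f_pm_012 t 1 1 1 = true :=
  ⟨(a (b (a (a (l 3) (l 219214869575)) (a (a (a (l 18472232) (l 18640744)) (l 18514744)) (l 18538552))) (a (a (a (b (l 3) (b (l 3) (a (b (l 3) (l 6)) (b (l 16829120) (b (l 16793192) (l 6)))))) (b (l 18090400) (b (b (l 17761928) (l 17406504)) (b (a (l 16831136) (l 16921128)) (b (l 16793840) (a (l 16771152) (l 16773208))))))) (b (a (l 18385472) (l 18604304)) (b (a (l 18184736) (l 18595016)) (a (b (l 17696008) (b (l 17060208) (l 16781128))) (b (l 18403824) (a (l 17742856) (l 18219272))))))) (a (b (a (a (l 18731208) (a (l 18779328) (l 18802312))) (l 18860072)) (a (a (b (l 18819112) (l 18699640)) (b (l 18933416) (l 18923080))) (b (l 19065904) (l 19170128)))) (b (l 18959648) (l 19343904))))) (b (a (l 18490864) (l 2)) (b (l 18956600) (a (l 19475280) (l 19369712))))), by decide +kernel⟩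

theorem c_pm_012 : CertF 0 536870912 536870912 536870912 67108864 67108864 true true false .pnp 0 1 2
    ndF1q0 ndF3q1 pcF2 cut_pm_012 Ext.none :=
  certFK2 (fam := true) (s1 := true) (s2 := false) (a := 0) (b := 1) (c := 2) (cn := .pnp) (n1 := ndF1q0) (n2 := ndF3q1) (pc := pcF2) (cut := cut_pm_012) (xt := Ext.none) (P1 := 0) (W1 := 536870912) (P2 := 536870912) (W2 := 536870912) (P3 := 67108864) (W3 := 67108864)
    rfl rfl rfl (fun _ => rfl) k0_pm_012

noncomputable def f_pm_022 : ℕ → ℕ → ℕ → ℕ → Bool := onCell 0 536870912 1073741824 536870912 67108864 67108864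
    (rowFK 1 true true false .pp 0 2 2 (qsf 0 536870912 1073741824 536870912 2) ndF1q0 ndF3q2 pcF2 Cut.none Ext.none)

def k0_pm_022 : ∃ t, chk3 f_pm_022 t 1 1 1 = true :=
  ⟨(a (b (b (a (l 3) (a (l 3) (l 1))) (a (b (b (a (b (l 1755737501543) (b (a (c (l 18348392) (b (l 53319054871) (l 17417232))) (l 17820024)) (b (a (b (l 17828064) (l 17916080)) (l 17902624)) (b (a (b (l 18039160) (l 18092992)) (l 17940952)) (a (l 18110496) (l 17965520)))))) (b (l 17516520) (b (l 17688064) (b (l 17764264) (l 17811904))))) (a (a (l 18032144) (l 18147968)) (l 17997632))) (a (l 18540248) (l 18329048))) (b (a (b (b (l 17670072) (b (l 17758464) (b (l 17800312) (l 17828480)))) (l 17953056)) (b (l 1) (l 18105976))) (l 18191896)))) (b (a (a (l 18813760) (l 18619392)) (l 18375048)) (a (l 18745432) (l 18417408)))) (b (b (l 1) (b (l 1) (a (l 18607552) (l 1)))) (b (a (l 18592472) (l 18842896)) (l 18407336)))), by decide +kernel⟩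

theorem c_pm_022 : CertF 0 536870912 1073741824 536870912 67108864 67108864 true true false .pp 0 2 2
    ndF1q0 ndF3q2 pcF2 Cut.none Ext.none :=
  certFK1 (fam := true) (s1 := true) (s2 := false) (a := 0) (b := 2) (c := 2) (cn := .pp) (n1 := ndF1q0) (n2 := ndF3q2) (pc := pcF2) (cut := Cut.none) (xt := Ext.none) (P1 := 0) (W1 := 536870912) (P2 := 1073741824) (W2 := 536870912) (P3 := 67108864) (W3 := 67108864)
    rfl rfl rfl (fun _ => rfl) k0_pm_022

noncomputable def f_pm_023 : ℕ → ℕ → ℕ → ℕ → Bool := onCell 0 536870912 1610612736 536870912 67108864 67108864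
    (rowFK 1 true true false .up 0 2 3 (qsf 0 536870912 1073741824 536870912 3) ndF1q0 ndF3q2 pcF3 Cut.none Ext.none)

def k0_pm_023 : ∃ t, chk3 f_pm_023 t 1 1 1 = true :=
  ⟨(a (b (b (b (a (l 19038840) (l 18540848)) (a (l 19158872) (l 18594856))) (b (l 163313321559) (a (l 2) (l 18014512)))) (b (a (l 2) (l 17886776)) (l 2))) (b (b (b (l 17937552) (a (l 18108376) (l 17722712))) (a (l 17944144) (l 17838456))) (b (l 17661568) (b (l 17518000) (b (l 4) (l 4)))))), by decide +kernel⟩

theorem c_pm_023 : CertF 0 536870912 1073741824 536870912 67108864 67108864 true true false .up 0 2 3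
    ndF1q0 ndF3q2 pcF3 Cut.none Ext.none :=
  certFK1 (fam := true) (s1 := true) (s2 := false) (a := 0) (b := 2) (c := 3) (cn := .up) (n1 := ndF1q0) (n2 := ndF3q2) (pc := pcF3) (cut := Cut.none) (xt := Ext.none) (P1 := 0) (W1 := 536870912) (P2 := 1073741824) (W2 := 536870912) (P3 := 67108864) (W3 := 67108864)
    rfl rfl rfl (fun _ => rfl) k0_pm_023

noncomputable def f_pm_033 : ℕ → ℕ → ℕ → ℕ → Bool := onCell 1610612736 536870912 0 1230186008 67108864 67108864
    (rowFK 2 true true false .pnn 0 3 3 (qsf 0 536870912 0 1230186008 3) ndF1q0 ndF3q3 pcF3 Cut.none Ext.none)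

def k0_pm_033 : ∃ t, chk3 f_pm_033 t 1 1 1 = true :=
  ⟨(a (b (l 1) (b (b (l 1) (a (l 1) (a (l 1) (a (l 1) (l 17472344))))) (b (a (l 1) (a (b (l 1390532840599) (l 18021952)) (l 17385016))) (a (a (b (l 1) (l 18220048)) (b (l 758636278231) (l 18128880))) (a (l 17584752) (l 17633864)))))) (a (b (l 1) (a (b (b (l 1) (l 17470232)) (b (l 17386600) (l 17752008))) (b (l 17598928) (l 17384264)))) (b (a (b (l 1) (l 4)) (l 4)) (a (b (l 17469984) (l 17327104)) (b (l 4) (l 4)))))), by decide +kernel⟩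

theorem c_pm_033 : CertF 0 536870912 0 1230186008 67108864 67108864 true true false .pnn 0 3 3
    ndF1q0 ndF3q3 pcF3 Cut.none Ext.none :=
  certFK2 (fam := true) (s1 := true) (s2 := false) (a := 0) (b := 3) (c := 3) (cn := .pnn) (n1 := ndF1q0) (n2 := ndF3q3) (pc := pcF3) (cut := Cut.none) (xt := Ext.none) (P1 := 0) (W1 := 536870912) (P2 := 0) (W2 := 1230186008) (P3 := 67108864) (W3 := 67108864)
    rfl rfl rfl (fun _ => rfl) k0_pm_033

noncomputable def f_pm_101 : ℕ → ℕ → ℕ → ℕ → Bool := onCell 536870912 536870912 0 536870912 67108864 67108864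
    (rowFK 2 true true false .npn 1 0 1 (qsf 536870912 536870912 0 536870912 1) ndF1q1 ndF3q0 pcF1 Cut.none Ext.none)

def k0_pm_101 : ∃ t, chk3 f_pm_101 t 1 1 1 = true :=
  ⟨(a (l 3) (l 3)), by decide +kernel⟩

theorem c_pm_101 : CertF 536870912 536870912 0 536870912 67108864 67108864 true true false .npn 1 0 1
    ndF1q1 ndF3q0 pcF1 Cut.none Ext.none :=
  certFK2 (fam := true) (s1 := true) (s2 := false) (a := 1) (b := 0) (c := 1) (cn := .npn) (n1 := ndF1q1) (n2 := ndF3q0) (pc := pcF1) (cut := Cut.none) (xt := Ext.none) (P1 := 536870912) (W1 := 536870912) (P2 := 0) (W2 := 536870912) (P3 := 67108864) (W3 := 67108864)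
    rfl rfl rfl (fun _ => rfl) k0_pm_101

noncomputable def f_pm_102 : ℕ → ℕ → ℕ → ℕ → Bool := onCell 536870912 536870912 1073741824 536870912 67108864 67108864
    (rowFK 1 true true false .npp 1 0 2 (qsf 536870912 536870912 0 536870912 2) ndF1q1 ndF3q0 pcF2 Cut.none Ext.none)

def k0_pm_102 : ∃ t, chk3 f_pm_102 t 1 1 1 = true :=
  ⟨(a (b (b (b (l 3) (a (l 17933280) (l 17281096))) (b (b (b (l 17695336) (a (l 2) (l 17374320))) (l 17738944)) (l 17774136))) (l 167069941783)) (b (b (b (l 3) (a (l 17332184) (l 250353121719))) (b (a (b (b (l 17218832) (l 17425176)) (l 17100976)) (b (b (l 18106848) (b (l 18054616) (l 18022192))) (l 17935416))) (a (l 16957504) (l 17745424)))) (b (a (l 16909376) (l 17735776)) (l 17587392)))), by decide +kernel⟩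

theorem c_pm_102 : CertF 536870912 536870912 0 536870912 67108864 67108864 true true false .npp 1 0 2
    ndF1q1 ndF3q0 pcF2 Cut.none Ext.none :=
  certFK1 (fam := true) (s1 := true) (s2 := false) (a := 1) (b := 0) (c := 2) (cn := .npp) (n1 := ndF1q1) (n2 := ndF3q0) (pc := pcF2) (cut := Cut.none) (xt := Ext.none) (P1 := 536870912) (W1 := 536870912) (P2 := 0) (W2 := 536870912) (P3 := 67108864) (W3 := 67108864)
    rfl rfl rfl (fun _ => rfl) k0_pm_102

noncomputable def f_pm_112 : ℕ → ℕ → ℕ → ℕ → Bool := onCell 536870912 536870912 1073741824 536870912 67108864 67108864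
    (rowFK 1 true true false .dn 1 1 2 (qsf 536870912 536870912 536870912 536870912 2) ndF1q1 ndF3q1 pcF2 Cut.none Ext.none)

def k0_pm_112 : ∃ t, chk3 f_pm_112 t 1 1 1 = true :=
  ⟨(a (b (b (b (l 3) (l 17871632)) (b (b (b (l 18021224) (b (l 18064088) (l 18089576))) (l 18155016)) (l 18315056))) (b (l 18622424) (l 19030864))) (b (b (l 1) (b (l 1) (l 18205200))) (b (l 18205056) (l 18149616)))), by decide +kernel⟩

theorem c_pm_112 : CertF 536870912 536870912 536870912 536870912 67108864 67108864 true true false .dn 1 1 2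
    ndF1q1 ndF3q1 pcF2 Cut.none Ext.none :=
  certFK1 (fam := true) (s1 := true) (s2 := false) (a := 1) (b := 1) (c := 2) (cn := .dn) (n1 := ndF1q1) (n2 := ndF3q1) (pc := pcF2) (cut := Cut.none) (xt := Ext.none) (P1 := 536870912) (W1 := 536870912) (P2 := 536870912) (W2 := 536870912) (P3 := 67108864) (W3 := 67108864)
    rfl rfl rfl (fun _ => rfl) k0_pm_112

noncomputable def f_pm_113 : ℕ → ℕ → ℕ → ℕ → Bool := onCell 536870912 536870912 1610612736 536870912 67108864 67108864
    (rowFK 1 true true false .nn 1 1 3 (qsf 536870912 536870912 536870912 536870912 3) ndF1q1 ndF3q1 pcF3 Cut.none Ext.none)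

def k0_pm_113 : ∃ t, chk3 f_pm_113 t 1 1 1 = true :=
  ⟨(a (b (b (l 19944000) (b (l 20349072) (l 20438496))) (b (a (l 2) (l 20020352)) (l 2))) (b (b (a (l 19341344) (b (l 19168928) (l 18883592))) (a (l 19021448) (l 18267952))) (b (l 378061585175) (b (l 18449248) (a (l 2) (b (l 18109056) (l 4))))))), by decide +kernel⟩

theorem c_pm_113 : CertF 536870912 536870912 536870912 536870912 67108864 67108864 true true false .nn 1 1 3
    ndF1q1 ndF3q1 pcF3 Cut.none Ext.none :=
  certFK1 (fam := true) (s1 := true) (s2 := false) (a := 1) (b := 1) (c := 3) (cn := .nn) (n1 := ndF1q1) (n2 := ndF3q1) (pc := pcF3) (cut := Cut.none) (xt := Ext.none) (P1 := 536870912) (W1 := 536870912) (P2 := 536870912) (W2 := 536870912) (P3 := 67108864) (W3 := 67108864)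
    rfl rfl rfl (fun _ => rfl) k0_pm_113

noncomputable def f_pm_123 : ℕ → ℕ → ℕ → ℕ → Bool := onCell 1610612736 536870912 1073741824 536870912 67108864 67108864
    (rowFK 2 true true false .npn 1 2 3 (qsf 536870912 536870912 1073741824 536870912 3) ndF1q1 ndF3q2 pcF3 Cut.none Ext.none)

def k0_pm_123 : ∃ t, chk3 f_pm_123 t 1 1 1 = true :=
  ⟨(a (b (a (b (l 18151424) (l 18214000)) (b (a (l 17926736) (l 17980568)) (l 18241640))) (a (l 1) (b (l 18193648) (l 1)))) (a (b (a (l 18188992) (l 18285416)) (l 18371816)) (a (b (l 17798920) (l 18055104)) (a (b (l 17517392) (l 17947576)) (b (a (l 17339792) (a (l 17240912) (l 4))) (l 4)))))), by decide +kernel⟩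

theorem c_pm_123 : CertF 536870912 536870912 1073741824 536870912 67108864 67108864 true true false .npn 1 2 3
    ndF1q1 ndF3q2 pcF3 Cut.none Ext.none :=
  certFK2 (fam := true) (s1 := true) (s2 := false) (a := 1) (b := 2) (c := 3) (cn := .npn) (n1 := ndF1q1) (n2 := ndF3q2) (pc := pcF3) (cut := Cut.none) (xt := Ext.none) (P1 := 536870912) (W1 := 536870912) (P2 := 1073741824) (W2 := 536870912) (P3 := 67108864) (W3 := 67108864)
    rfl rfl rfl (fun _ => rfl) k0_pm_123

noncomputable def f_pm_133 : ℕ → ℕ → ℕ → ℕ → Bool := onCell 536870912 536870912 0 1230186008 67108864 67108864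
    (rowFK 0 true true false .dn 1 3 3 (qsf 536870912 536870912 0 1230186008 3) ndF1q1 ndF3q3 pcF3 Cut.none Ext.none)

def k0_pm_133 : ∃ t, chk3 f_pm_133 t 1 1 1 = true :=
  ⟨(b (l 2) (b (l 2) (l 4))), by decide +kernel⟩

theorem c_pm_133 : CertF 536870912 536870912 0 1230186008 67108864 67108864 true true false .dn 1 3 3
    ndF1q1 ndF3q3 pcF3 Cut.none Ext.none :=
  certFK0 (fam := true) (s1 := true) (s2 := false) (a := 1) (b := 3) (c := 3) (cn := .dn) (n1 := ndF1q1) (n2 := ndF3q3) (pc := pcF3) (cut := Cut.none) (xt := Ext.none) (P1 := 536870912) (W1 := 536870912) (P2 := 0) (W2 := 1230186008) (P3 := 67108864) (W3 := 67108864)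
    rfl rfl rfl k0_pm_133

noncomputable def f_pm_202_a : ℕ → ℕ → ℕ → ℕ → Bool := onCell 0 536870912 1073741824 536870912 67108864 67108864
    (rowFK 1 true true false .pp 2 0 2 (qsf 0 536870912 0 536870912 2) ndF1q2a ndF3q0 pcF2 Cut.none Ext.none)

def k0_pm_202_a : ∃ t, chk3 f_pm_202_a t 1 1 1 = true :=
  ⟨(a (b (b (b (l 1) (l 19224616)) (l 18847384)) (b (l 18284168) (l 17657992))) (b (a (b (b (l 1) (l 19161336)) (l 18731856)) (b (b (b (l 19467016) (l 19295824)) (l 19040304)) (l 18545664))) (b (l 18025080) (l 17459056)))), by decide +kernel⟩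

theorem c_pm_202_a : CertF 0 536870912 0 536870912 67108864 67108864 true true false .pp 2 0 2
    ndF1q2a ndF3q0 pcF2 Cut.none Ext.none :=
  certFK1 (fam := true) (s1 := true) (s2 := false) (a := 2) (b := 0) (c := 2) (cn := .pp) (n1 := ndF1q2a) (n2 := ndF3q0) (pc := pcF2) (cut := Cut.none) (xt := Ext.none) (P1 := 0) (W1 := 536870912) (P2 := 0) (W2 := 536870912) (P3 := 67108864) (W3 := 67108864)
    rfl rfl rfl (fun _ => rfl) k0_pm_202_a

noncomputable def f_pm_202_b : ℕ → ℕ → ℕ → ℕ → Bool := onCell 1073741824 536870912 0 536870912 67108864 67108864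
    (rowFK 2 true true false .pp 2 0 2 (qsf 1239849684 370763052 0 536870912 2) ndF1q2b ndF3q0 pcF2 Cut.none Ext.none)

def k0_pm_202_b : ∃ t, chk3 f_pm_202_b t 1 1 1 = true :=
  ⟨(a (b (a (l 1) (l 389269381111)) (l 1)) (a (b (l 89694737751) (l 1)) (b (l 18072760) (l 428458466199)))), by decide +kernel⟩

theorem c_pm_202_b : CertF 1239849684 370763052 0 536870912 67108864 67108864 true true false .pp 2 0 2
    ndF1q2b ndF3q0 pcF2 Cut.none Ext.none :=
  certFK2 (fam := true) (s1 := true) (s2 := false) (a := 2) (b := 0) (c := 2) (cn := .pp) (n1 := ndF1q2b) (n2 := ndF3q0) (pc := pcF2) (cut := Cut.none) (xt := Ext.none) (P1 := 1239849684) (W1 := 370763052) (P2 := 0) (W2 := 536870912) (P3 := 67108864) (W3 := 67108864)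
    rfl rfl rfl (fun _ => rfl) k0_pm_202_b

noncomputable def f_pm_203_a : ℕ → ℕ → ℕ → ℕ → Bool := onCell 0 536870912 1610612736 536870912 67108864 67108864
    (rowFK 1 true true false .up 2 0 3 (qsf 0 536870912 0 536870912 3) ndF1q2a ndF3q0 pcF3 Cut.none Ext.none)

def k0_pm_203_a : ∃ t, chk3 f_pm_203_a t 1 1 1 = true :=
  ⟨(b (b (a (l 17488208) (l 17714184)) (b (l 17769048) (l 4))) (l 2)), by decide +kernel⟩

theorem c_pm_203_a : CertF 0 536870912 0 536870912 67108864 67108864 true true false .up 2 0 3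
    ndF1q2a ndF3q0 pcF3 Cut.none Ext.none :=
  certFK1 (fam := true) (s1 := true) (s2 := false) (a := 2) (b := 0) (c := 3) (cn := .up) (n1 := ndF1q2a) (n2 := ndF3q0) (pc := pcF3) (cut := Cut.none) (xt := Ext.none) (P1 := 0) (W1 := 536870912) (P2 := 0) (W2 := 536870912) (P3 := 67108864) (W3 := 67108864)
    rfl rfl rfl (fun _ => rfl) k0_pm_203_a

noncomputable def f_pm_203_b : ℕ → ℕ → ℕ → ℕ → Bool := onCell 1239849684 370763052 1610612736 536870912 67108864 67108864
    (rowFK 1 true true false .up 2 0 3 (qsf 1239849684 370763052 0 536870912 3) ndF1q2b ndF3q0 pcF3 Cut.none Ext.none)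

def k0_pm_203_b : ∃ t, chk3 f_pm_203_b t 1 1 1 = true :=
  ⟨(b (b (b (a (l 17398080) (l 17706144)) (l 4)) (l 4)) (l 4)), by decide +kernel⟩

theorem c_pm_203_b : CertF 1239849684 370763052 0 536870912 67108864 67108864 true true false .up 2 0 3
    ndF1q2b ndF3q0 pcF3 Cut.none Ext.none :=
  certFK1 (fam := true) (s1 := true) (s2 := false) (a := 2) (b := 0) (c := 3) (cn := .up) (n1 := ndF1q2b) (n2 := ndF3q0) (pc := pcF3) (cut := Cut.none) (xt := Ext.none) (P1 := 1239849684) (W1 := 370763052) (P2 := 0) (W2 := 536870912) (P3 := 67108864) (W3 := 67108864)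
    rfl rfl rfl (fun _ => rfl) k0_pm_203_b

noncomputable def f_pm_213_a : ℕ → ℕ → ℕ → ℕ → Bool := onCell 0 536870912 1610612736 536870912 67108864 67108864
    (rowFK 1 true true false .pnn 2 1 3 (qsf 0 536870912 536870912 536870912 3) ndF1q2a ndF3q1 pcF3 Cut.none Ext.none)

def k0_pm_213_a : ∃ t, chk3 f_pm_213_a t 1 1 1 = true :=
  ⟨(b (b (b (l 18139592) (l 18121344)) (b (l 18057064) (l 4))) (l 4)), by decide +kernel⟩

theorem c_pm_213_a : CertF 0 536870912 536870912 536870912 67108864 67108864 true true false .pnn 2 1 3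
    ndF1q2a ndF3q1 pcF3 Cut.none Ext.none :=
  certFK1 (fam := true) (s1 := true) (s2 := false) (a := 2) (b := 1) (c := 3) (cn := .pnn) (n1 := ndF1q2a) (n2 := ndF3q1) (pc := pcF3) (cut := Cut.none) (xt := Ext.none) (P1 := 0) (W1 := 536870912) (P2 := 536870912) (W2 := 536870912) (P3 := 67108864) (W3 := 67108864)
    rfl rfl rfl (fun _ => rfl) k0_pm_213_a

noncomputable def f_pm_213_b : ℕ → ℕ → ℕ → ℕ → Bool := onCell 1239849684 370763052 536870912 536870912 67108864 67108864
    (rowFK 0 true true false .pnn 2 1 3 (qsf 1239849684 370763052 536870912 536870912 3) ndF1q2b ndF3q1 pcF3 Cut.none Ext.none)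

def k0_pm_213_b : ∃ t, chk3 f_pm_213_b t 1 1 1 = true :=
  ⟨(l 4), by decide +kernel⟩

theorem c_pm_213_b : CertF 1239849684 370763052 536870912 536870912 67108864 67108864 true true false .pnn 2 1 3
    ndF1q2b ndF3q1 pcF3 Cut.none Ext.none :=
  certFK0 (fam := true) (s1 := true) (s2 := false) (a := 2) (b := 1) (c := 3) (cn := .pnn) (n1 := ndF1q2b) (n2 := ndF3q1) (pc := pcF3) (cut := Cut.none) (xt := Ext.none) (P1 := 1239849684) (W1 := 370763052) (P2 := 536870912) (W2 := 536870912) (P3 := 67108864) (W3 := 67108864)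
    rfl rfl rfl k0_pm_213_b

noncomputable def f_pm_303 : ℕ → ℕ → ℕ → ℕ → Bool := onCell 1610612736 536870912 0 536870912 67108864 67108864
    (rowFK 2 true true false .npn 3 0 3 (qsf 1610612736 536870912 0 536870912 3) ndF1q3 ndF3q0 pcF3 Cut.none Ext.none)

def k0_pm_303 : ∃ t, chk3 f_pm_303 t 1 1 1 = true :=
  ⟨(a (b (a (a (l 17284336) (l 17224960)) (l 4)) (l 4)) (l 4)), by decide +kernel⟩

theorem c_pm_303 : CertF 1610612736 536870912 0 536870912 67108864 67108864 true true false .npn 3 0 3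
    ndF1q3 ndF3q0 pcF3 Cut.none Ext.none :=
  certFK2 (fam := true) (s1 := true) (s2 := false) (a := 3) (b := 0) (c := 3) (cn := .npn) (n1 := ndF1q3) (n2 := ndF3q0) (pc := pcF3) (cut := Cut.none) (xt := Ext.none) (P1 := 1610612736) (W1 := 536870912) (P2 := 0) (W2 := 536870912) (P3 := 67108864) (W3 := 67108864)
    rfl rfl rfl (fun _ => rfl) k0_pm_303

noncomputable def f_pm_313 : ℕ → ℕ → ℕ → ℕ → Bool := onCell 1610612736 536870912 536870912 536870912 67108864 67108864
    (rowFK 0 true true false .dn 3 1 3 (qsf 1610612736 536870912 536870912 536870912 3) ndF1q3 ndF3q1 pcF3 Cut.none Ext.none)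

def k0_pm_313 : ∃ t, chk3 f_pm_313 t 1 1 1 = true :=
  ⟨(l 4), by decide +kernel⟩

theorem c_pm_313 : CertF 1610612736 536870912 536870912 536870912 67108864 67108864 true true false .dn 3 1 3
    ndF1q3 ndF3q1 pcF3 Cut.none Ext.none :=
  certFK0 (fam := true) (s1 := true) (s2 := false) (a := 3) (b := 1) (c := 3) (cn := .dn) (n1 := ndF1q3) (n2 := ndF3q1) (pc := pcF3) (cut := Cut.none) (xt := Ext.none) (P1 := 1610612736) (W1 := 536870912) (P2 := 536870912) (W2 := 536870912) (P3 := 67108864) (W3 := 67108864)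
    rfl rfl rfl k0_pm_313

noncomputable def f_mm_001 : ℕ → ℕ → ℕ → ℕ → Bool := onCell 0 536870912 0 536870912 67108864 67108864
    (rowFK 0 true false false .up 0 0 1 (qsf 0 536870912 0 536870912 1) ndF1q0 ndF3q0 pcF1 Cut.none Ext.none)

def k0_mm_001 : ∃ t, chk3 f_mm_001 t 1 1 1 = true :=
  ⟨(l 4), by decide +kernel⟩

theorem c_mm_001 : CertF 0 536870912 0 536870912 67108864 67108864 true false false .up 0 0 1
    ndF1q0 ndF3q0 pcF1 Cut.none Ext.none :=
  certFK0 (fam := true) (s1 := false) (s2 := false) (a := 0) (b := 0) (c := 1) (cn := .up) (n1 := ndF1q0) (n2 := ndF3q0) (pc := pcF1) (cut := Cut.none) (xt := Ext.none) (P1 := 0) (W1 := 536870912) (P2 := 0) (W2 := 536870912) (P3 := 67108864) (W3 := 67108864)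
    rfl rfl rfl k0_mm_001

noncomputable def f_mm_011 : ℕ → ℕ → ℕ → ℕ → Bool := onCell 0 536870912 536870912 536870912 67108864 67108864
    (rowFK 0 true false false .pnn 0 1 1 (qsf 0 536870912 536870912 536870912 1) ndF1q0 ndF3q1 pcF1 Cut.none Ext.none)

def k0_mm_011 : ∃ t, chk3 f_mm_011 t 1 1 1 = true :=
  ⟨(l 4), by decide +kernel⟩

theorem c_mm_011 : CertF 0 536870912 536870912 536870912 67108864 67108864 true false false .pnn 0 1 1
    ndF1q0 ndF3q1 pcF1 Cut.none Ext.none :=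
  certFK0 (fam := true) (s1 := false) (s2 := false) (a := 0) (b := 1) (c := 1) (cn := .pnn) (n1 := ndF1q0) (n2 := ndF3q1) (pc := pcF1) (cut := Cut.none) (xt := Ext.none) (P1 := 0) (W1 := 536870912) (P2 := 536870912) (W2 := 536870912) (P3 := 67108864) (W3 := 67108864)
    rfl rfl rfl k0_mm_011

noncomputable def f_mm_012 : ℕ → ℕ → ℕ → ℕ → Bool := onCell 0 536870912 536870912 536870912 67108864 67108864
    (rowFK 0 true false false .pnp 0 1 2 (qsf 0 536870912 536870912 536870912 2) ndF1q0 ndF3q1 pcF2 Cut.none Ext.none)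

def k0_mm_012 : ∃ t, chk3 f_mm_012 t 1 1 1 = true :=
  ⟨(l 4), by decide +kernel⟩

theorem c_mm_012 : CertF 0 536870912 536870912 536870912 67108864 67108864 true false false .pnp 0 1 2
    ndF1q0 ndF3q1 pcF2 Cut.none Ext.none :=
  certFK0 (fam := true) (s1 := false) (s2 := false) (a := 0) (b := 1) (c := 2) (cn := .pnp) (n1 := ndF1q0) (n2 := ndF3q1) (pc := pcF2) (cut := Cut.none) (xt := Ext.none) (P1 := 0) (W1 := 536870912) (P2 := 536870912) (W2 := 536870912) (P3 := 67108864) (W3 := 67108864)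
    rfl rfl rfl k0_mm_012

noncomputable def f_mm_022 : ℕ → ℕ → ℕ → ℕ → Bool := onCell 0 536870912 1073741824 536870912 67108864 67108864
    (rowFK 0 true false false .pp 0 2 2 (qsf 0 536870912 1073741824 536870912 2) ndF1q0 ndF3q2 pcF2 Cut.none Ext.none)

def k0_mm_022 : ∃ t, chk3 f_mm_022 t 1 1 1 = true :=
  ⟨(l 4), by decide +kernel⟩

theorem c_mm_022 : CertF 0 536870912 1073741824 536870912 67108864 67108864 true false false .pp 0 2 2
    ndF1q0 ndF3q2 pcF2 Cut.none Ext.none :=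
  certFK0 (fam := true) (s1 := false) (s2 := false) (a := 0) (b := 2) (c := 2) (cn := .pp) (n1 := ndF1q0) (n2 := ndF3q2) (pc := pcF2) (cut := Cut.none) (xt := Ext.none) (P1 := 0) (W1 := 536870912) (P2 := 1073741824) (W2 := 536870912) (P3 := 67108864) (W3 := 67108864)
    rfl rfl rfl k0_mm_022

noncomputable def f_mm_023 : ℕ → ℕ → ℕ → ℕ → Bool := onCell 0 536870912 1073741824 536870912 67108864 67108864
    (rowFK 0 true false false .up 0 2 3 (qsf 0 536870912 1073741824 536870912 3) ndF1q0 ndF3q2 pcF3 Cut.none Ext.none)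

def k0_mm_023 : ∃ t, chk3 f_mm_023 t 1 1 1 = true :=
  ⟨(l 4), by decide +kernel⟩

theorem c_mm_023 : CertF 0 536870912 1073741824 536870912 67108864 67108864 true false false .up 0 2 3
    ndF1q0 ndF3q2 pcF3 Cut.none Ext.none :=
  certFK0 (fam := true) (s1 := false) (s2 := false) (a := 0) (b := 2) (c := 3) (cn := .up) (n1 := ndF1q0) (n2 := ndF3q2) (pc := pcF3) (cut := Cut.none) (xt := Ext.none) (P1 := 0) (W1 := 536870912) (P2 := 1073741824) (W2 := 536870912) (P3 := 67108864) (W3 := 67108864)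
    rfl rfl rfl k0_mm_023

noncomputable def f_mm_033 : ℕ → ℕ → ℕ → ℕ → Bool := onCell 0 536870912 0 1230186008 67108864 67108864
    (rowFK 0 true false false .pnn 0 3 3 (qsf 0 536870912 0 1230186008 3) ndF1q0 ndF3q3 pcF3 Cut.none Ext.none)

def k0_mm_033 : ∃ t, chk3 f_mm_033 t 1 1 1 = true :=
  ⟨(l 5), by decide +kernel⟩

theorem c_mm_033 : CertF 0 536870912 0 1230186008 67108864 67108864 true false false .pnn 0 3 3
    ndF1q0 ndF3q3 pcF3 Cut.none Ext.none :=
  certFK0 (fam := true) (s1 := false) (s2 := false) (a := 0) (b := 3) (c := 3) (cn := .pnn) (n1 := ndF1q0) (n2 := ndF3q3) (pc := pcF3) (cut := Cut.none) (xt := Ext.none) (P1 := 0) (W1 := 536870912) (P2 := 0) (W2 := 1230186008) (P3 := 67108864) (W3 := 67108864)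
    rfl rfl rfl k0_mm_033

noncomputable def f_mm_101 : ℕ → ℕ → ℕ → ℕ → Bool := onCell 536870912 536870912 0 536870912 67108864 67108864
    (rowFK 0 true false false .npn 1 0 1 (qsf 536870912 536870912 0 536870912 1) ndF1q1 ndF3q0 pcF1 Cut.none Ext.none)

def k0_mm_101 : ∃ t, chk3 f_mm_101 t 1 1 1 = true :=
  ⟨(l 4), by decide +kernel⟩

theorem c_mm_101 : CertF 536870912 536870912 0 536870912 67108864 67108864 true false false .npn 1 0 1
    ndF1q1 ndF3q0 pcF1 Cut.none Ext.none :=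
  certFK0 (fam := true) (s1 := false) (s2 := false) (a := 1) (b := 0) (c := 1) (cn := .npn) (n1 := ndF1q1) (n2 := ndF3q0) (pc := pcF1) (cut := Cut.none) (xt := Ext.none) (P1 := 536870912) (W1 := 536870912) (P2 := 0) (W2 := 536870912) (P3 := 67108864) (W3 := 67108864)
    rfl rfl rfl k0_mm_101

noncomputable def f_mm_102 : ℕ → ℕ → ℕ → ℕ → Bool := onCell 536870912 536870912 0 536870912 67108864 67108864
    (rowFK 0 true false false .npp 1 0 2 (qsf 536870912 536870912 0 536870912 2) ndF1q1 ndF3q0 pcF2 Cut.none Ext.none)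

def k0_mm_102 : ∃ t, chk3 f_mm_102 t 1 1 1 = true :=
  ⟨(l 4), by decide +kernel⟩

theorem c_mm_102 : CertF 536870912 536870912 0 536870912 67108864 67108864 true false false .npp 1 0 2
    ndF1q1 ndF3q0 pcF2 Cut.none Ext.none :=
  certFK0 (fam := true) (s1 := false) (s2 := false) (a := 1) (b := 0) (c := 2) (cn := .npp) (n1 := ndF1q1) (n2 := ndF3q0) (pc := pcF2) (cut := Cut.none) (xt := Ext.none) (P1 := 536870912) (W1 := 536870912) (P2 := 0) (W2 := 536870912) (P3 := 67108864) (W3 := 67108864)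
    rfl rfl rfl k0_mm_102

noncomputable def f_mm_112 : ℕ → ℕ → ℕ → ℕ → Bool := onCell 536870912 536870912 536870912 536870912 67108864 67108864
    (rowFK 0 true false false .dn 1 1 2 (qsf 536870912 536870912 536870912 536870912 2) ndF1q1 ndF3q1 pcF2 Cut.none Ext.none)

def k0_mm_112 : ∃ t, chk3 f_mm_112 t 1 1 1 = true :=
  ⟨(l 4), by decide +kernel⟩

theorem c_mm_112 : CertF 536870912 536870912 536870912 536870912 67108864 67108864 true false false .dn 1 1 2
    ndF1q1 ndF3q1 pcF2 Cut.none Ext.none :=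
  certFK0 (fam := true) (s1 := false) (s2 := false) (a := 1) (b := 1) (c := 2) (cn := .dn) (n1 := ndF1q1) (n2 := ndF3q1) (pc := pcF2) (cut := Cut.none) (xt := Ext.none) (P1 := 536870912) (W1 := 536870912) (P2 := 536870912) (W2 := 536870912) (P3 := 67108864) (W3 := 67108864)
    rfl rfl rfl k0_mm_112

noncomputable def f_mm_113 : ℕ → ℕ → ℕ → ℕ → Bool := onCell 536870912 536870912 536870912 536870912 67108864 67108864
    (rowFK 0 true false false .nn 1 1 3 (qsf 536870912 536870912 536870912 536870912 3) ndF1q1 ndF3q1 pcF3 Cut.none Ext.none)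

def k0_mm_113 : ∃ t, chk3 f_mm_113 t 1 1 1 = true :=
  ⟨(l 4), by decide +kernel⟩

theorem c_mm_113 : CertF 536870912 536870912 536870912 536870912 67108864 67108864 true false false .nn 1 1 3
    ndF1q1 ndF3q1 pcF3 Cut.none Ext.none :=
  certFK0 (fam := true) (s1 := false) (s2 := false) (a := 1) (b := 1) (c := 3) (cn := .nn) (n1 := ndF1q1) (n2 := ndF3q1) (pc := pcF3) (cut := Cut.none) (xt := Ext.none) (P1 := 536870912) (W1 := 536870912) (P2 := 536870912) (W2 := 536870912) (P3 := 67108864) (W3 := 67108864)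
    rfl rfl rfl k0_mm_113

noncomputable def f_mm_123 : ℕ → ℕ → ℕ → ℕ → Bool := onCell 536870912 536870912 1073741824 536870912 67108864 67108864
    (rowFK 0 true false false .npn 1 2 3 (qsf 536870912 536870912 1073741824 536870912 3) ndF1q1 ndF3q2 pcF3 Cut.none Ext.none)

def k0_mm_123 : ∃ t, chk3 f_mm_123 t 1 1 1 = true :=
  ⟨(l 4), by decide +kernel⟩

theorem c_mm_123 : CertF 536870912 536870912 1073741824 536870912 67108864 67108864 true false false .npn 1 2 3
    ndF1q1 ndF3q2 pcF3 Cut.none Ext.none :=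
  certFK0 (fam := true) (s1 := false) (s2 := false) (a := 1) (b := 2) (c := 3) (cn := .npn) (n1 := ndF1q1) (n2 := ndF3q2) (pc := pcF3) (cut := Cut.none) (xt := Ext.none) (P1 := 536870912) (W1 := 536870912) (P2 := 1073741824) (W2 := 536870912) (P3 := 67108864) (W3 := 67108864)
    rfl rfl rfl k0_mm_123

noncomputable def f_mm_133 : ℕ → ℕ → ℕ → ℕ → Bool := onCell 536870912 536870912 0 1230186008 67108864 67108864
    (rowFK 0 true false false .dn 1 3 3 (qsf 536870912 536870912 0 1230186008 3) ndF1q1 ndF3q3 pcF3 Cut.none Ext.none)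

def k0_mm_133 : ∃ t, chk3 f_mm_133 t 1 1 1 = true :=
  ⟨(l 4), by decide +kernel⟩

theorem c_mm_133 : CertF 536870912 536870912 0 1230186008 67108864 67108864 true false false .dn 1 3 3
    ndF1q1 ndF3q3 pcF3 Cut.none Ext.none :=
  certFK0 (fam := true) (s1 := false) (s2 := false) (a := 1) (b := 3) (c := 3) (cn := .dn) (n1 := ndF1q1) (n2 := ndF3q3) (pc := pcF3) (cut := Cut.none) (xt := Ext.none) (P1 := 536870912) (W1 := 536870912) (P2 := 0) (W2 := 1230186008) (P3 := 67108864) (W3 := 67108864)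
    rfl rfl rfl k0_mm_133

noncomputable def f_mm_202_a : ℕ → ℕ → ℕ → ℕ → Bool := onCell 0 536870912 0 536870912 67108864 67108864
    (rowFK 0 true false false .pp 2 0 2 (qsf 0 536870912 0 536870912 2) ndF1q2a ndF3q0 pcF2 Cut.none Ext.none)

def k0_mm_202_a : ∃ t, chk3 f_mm_202_a t 1 1 1 = true :=
  ⟨(l 4), by decide +kernel⟩

theorem c_mm_202_a : CertF 0 536870912 0 536870912 67108864 67108864 true false false .pp 2 0 2
    ndF1q2a ndF3q0 pcF2 Cut.none Ext.none :=
  certFK0 (fam := true) (s1 := false) (s2 := false) (a := 2) (b := 0) (c := 2) (cn := .pp) (n1 := ndF1q2a) (n2 := ndF3q0) (pc := pcF2) (cut := Cut.none) (xt := Ext.none) (P1 := 0) (W1 := 536870912) (P2 := 0) (W2 := 536870912) (P3 := 67108864) (W3 := 67108864)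
    rfl rfl rfl k0_mm_202_a

noncomputable def f_mm_202_b : ℕ → ℕ → ℕ → ℕ → Bool := onCell 1239849684 370763052 0 536870912 67108864 67108864
    (rowFK 0 true false false .pp 2 0 2 (qsf 1239849684 370763052 0 536870912 2) ndF1q2b ndF3q0 pcF2 Cut.none Ext.none)

def k0_mm_202_b : ∃ t, chk3 f_mm_202_b t 1 1 1 = true :=
  ⟨(l 4), by decide +kernel⟩

theorem c_mm_202_b : CertF 1239849684 370763052 0 536870912 67108864 67108864 true false false .pp 2 0 2
    ndF1q2b ndF3q0 pcF2 Cut.none Ext.none :=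
  certFK0 (fam := true) (s1 := false) (s2 := false) (a := 2) (b := 0) (c := 2) (cn := .pp) (n1 := ndF1q2b) (n2 := ndF3q0) (pc := pcF2) (cut := Cut.none) (xt := Ext.none) (P1 := 1239849684) (W1 := 370763052) (P2 := 0) (W2 := 536870912) (P3 := 67108864) (W3 := 67108864)
    rfl rfl rfl k0_mm_202_b

noncomputable def f_mm_203_a : ℕ → ℕ → ℕ → ℕ → Bool := onCell 0 536870912 0 536870912 67108864 67108864
    (rowFK 0 true false false .up 2 0 3 (qsf 0 536870912 0 536870912 3) ndF1q2a ndF3q0 pcF3 Cut.none Ext.none)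

def k0_mm_203_a : ∃ t, chk3 f_mm_203_a t 1 1 1 = true :=
  ⟨(l 4), by decide +kernel⟩

theorem c_mm_203_a : CertF 0 536870912 0 536870912 67108864 67108864 true false false .up 2 0 3
    ndF1q2a ndF3q0 pcF3 Cut.none Ext.none :=
  certFK0 (fam := true) (s1 := false) (s2 := false) (a := 2) (b := 0) (c := 3) (cn := .up) (n1 := ndF1q2a) (n2 := ndF3q0) (pc := pcF3) (cut := Cut.none) (xt := Ext.none) (P1 := 0) (W1 := 536870912) (P2 := 0) (W2 := 536870912) (P3 := 67108864) (W3 := 67108864)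
    rfl rfl rfl k0_mm_203_a

noncomputable def f_mm_203_b : ℕ → ℕ → ℕ → ℕ → Bool := onCell 1239849684 370763052 0 536870912 67108864 67108864
    (rowFK 0 true false false .up 2 0 3 (qsf 1239849684 370763052 0 536870912 3) ndF1q2b ndF3q0 pcF3 Cut.none Ext.none)

def k0_mm_203_b : ∃ t, chk3 f_mm_203_b t 1 1 1 = true :=
  ⟨(l 4), by decide +kernel⟩

theorem c_mm_203_b : CertF 1239849684 370763052 0 536870912 67108864 67108864 true false false .up 2 0 3
    ndF1q2b ndF3q0 pcF3 Cut.none Ext.none :=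
  certFK0 (fam := true) (s1 := false) (s2 := false) (a := 2) (b := 0) (c := 3) (cn := .up) (n1 := ndF1q2b) (n2 := ndF3q0) (pc := pcF3) (cut := Cut.none) (xt := Ext.none) (P1 := 1239849684) (W1 := 370763052) (P2 := 0) (W2 := 536870912) (P3 := 67108864) (W3 := 67108864)
    rfl rfl rfl k0_mm_203_b

noncomputable def f_mm_213_a : ℕ → ℕ → ℕ → ℕ → Bool := onCell 0 536870912 536870912 536870912 67108864 67108864
    (rowFK 0 true false false .pnn 2 1 3 (qsf 0 536870912 536870912 536870912 3) ndF1q2a ndF3q1 pcF3 Cut.none Ext.none)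

def k0_mm_213_a : ∃ t, chk3 f_mm_213_a t 1 1 1 = true :=
  ⟨(l 4), by decide +kernel⟩

theorem c_mm_213_a : CertF 0 536870912 536870912 536870912 67108864 67108864 true false false .pnn 2 1 3
    ndF1q2a ndF3q1 pcF3 Cut.none Ext.none :=
  certFK0 (fam := true) (s1 := false) (s2 := false) (a := 2) (b := 1) (c := 3) (cn := .pnn) (n1 := ndF1q2a) (n2 := ndF3q1) (pc := pcF3) (cut := Cut.none) (xt := Ext.none) (P1 := 0) (W1 := 536870912) (P2 := 536870912) (W2 := 536870912) (P3 := 67108864) (W3 := 67108864)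
    rfl rfl rfl k0_mm_213_a

noncomputable def f_mm_213_b : ℕ → ℕ → ℕ → ℕ → Bool := onCell 1239849684 370763052 536870912 536870912 67108864 67108864
    (rowFK 0 true false false .pnn 2 1 3 (qsf 1239849684 370763052 536870912 536870912 3) ndF1q2b ndF3q1 pcF3 Cut.none Ext.none)

def k0_mm_213_b : ∃ t, chk3 f_mm_213_b t 1 1 1 = true :=
  ⟨(l 4), by decide +kernel⟩

theorem c_mm_213_b : CertF 1239849684 370763052 536870912 536870912 67108864 67108864 true false false .pnn 2 1 3
    ndF1q2b ndF3q1 pcF3 Cut.none Ext.none :=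
  certFK0 (fam := true) (s1 := false) (s2 := false) (a := 2) (b := 1) (c := 3) (cn := .pnn) (n1 := ndF1q2b) (n2 := ndF3q1) (pc := pcF3) (cut := Cut.none) (xt := Ext.none) (P1 := 1239849684) (W1 := 370763052) (P2 := 536870912) (W2 := 536870912) (P3 := 67108864) (W3 := 67108864)
    rfl rfl rfl k0_mm_213_b

noncomputable def f_mm_303 : ℕ → ℕ → ℕ → ℕ → Bool := onCell 1610612736 536870912 0 536870912 67108864 67108864
    (rowFK 0 true false false .npn 3 0 3 (qsf 1610612736 536870912 0 536870912 3) ndF1q3 ndF3q0 pcF3 Cut.none Ext.none)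

def k0_mm_303 : ∃ t, chk3 f_mm_303 t 1 1 1 = true :=
  ⟨(l 4), by decide +kernel⟩

theorem c_mm_303 : CertF 1610612736 536870912 0 536870912 67108864 67108864 true false false .npn 3 0 3
    ndF1q3 ndF3q0 pcF3 Cut.none Ext.none :=
  certFK0 (fam := true) (s1 := false) (s2 := false) (a := 3) (b := 0) (c := 3) (cn := .npn) (n1 := ndF1q3) (n2 := ndF3q0) (pc := pcF3) (cut := Cut.none) (xt := Ext.none) (P1 := 1610612736) (W1 := 536870912) (P2 := 0) (W2 := 536870912) (P3 := 67108864) (W3 := 67108864)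
    rfl rfl rfl k0_mm_303

noncomputable def f_mm_313 : ℕ → ℕ → ℕ → ℕ → Bool := onCell 1610612736 536870912 536870912 536870912 67108864 67108864
    (rowFK 0 true false false .dn 3 1 3 (qsf 1610612736 536870912 536870912 536870912 3) ndF1q3 ndF3q1 pcF3 Cut.none Ext.none)

def k0_mm_313 : ∃ t, chk3 f_mm_313 t 1 1 1 = true :=
  ⟨(l 4), by decide +kernel⟩

theorem c_mm_313 : CertF 1610612736 536870912 536870912 536870912 67108864 67108864 true false false .dn 3 1 3
    ndF1q3 ndF3q1 pcF3 Cut.none Ext.none :=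
  certFK0 (fam := true) (s1 := false) (s2 := false) (a := 3) (b := 1) (c := 3) (cn := .dn) (n1 := ndF1q3) (n2 := ndF3q1) (pc := pcF3) (cut := Cut.none) (xt := Ext.none) (P1 := 1610612736) (W1 := 536870912) (P2 := 536870912) (W2 := 536870912) (P3 := 67108864) (W3 := 67108864)
    rfl rfl rfl k0_mm_313

end Pool.Agent.Strip051.G.I1_16_1_8.Tab.C.FA13

namespace Pool.Agent.Strip051.G.I1_16_1_8.Tab.C.FA14

open Pool.Agent.Strip051.PB Pool.Agent.Strip051.PB.T
open Pool.Agent.Strip051.G.I1_16_1_8.Tab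

noncomputable def f_pp_001 : ℕ → ℕ → ℕ → ℕ → Bool := onCell 0 536870912 0 536870912 67108864 67108864
    (rowFK 0 true true true .up 0 0 1 (qsf 0 536870912 0 536870912 1) ndF1q0 ndF4q0 pcF1 Cut.none Ext.none)

def k0_pp_001 : ∃ t, chk3 f_pp_001 t 1 1 1 = true :=
  ⟨(l 4), by decide +kernel⟩

theorem c_pp_001 : CertF 0 536870912 0 536870912 67108864 67108864 true true true .up 0 0 1
    ndF1q0 ndF4q0 pcF1 Cut.none Ext.none :=
  certFK0 (fam := true) (s1 := true) (s2 := true) (a := 0) (b := 0) (c := 1) (cn := .up) (n1 := ndF1q0) (n2 := ndF4q0) (pc := pcF1) (cut := Cut.none) (xt := Ext.none) (P1 := 0) (W1 := 536870912) (P2 := 0) (W2 := 536870912) (P3 := 67108864) (W3 := 67108864)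
    rfl rfl rfl k0_pp_001

noncomputable def f_pp_011 : ℕ → ℕ → ℕ → ℕ → Bool := onCell 0 536870912 536870912 536870912 67108864 67108864
    (rowFK 0 true true true .pnn 0 1 1 (qsf 0 536870912 536870912 536870912 1) ndF1q0 ndF4q1 pcF1 Cut.none Ext.none)

def k0_pp_011 : ∃ t, chk3 f_pp_011 t 1 1 1 = true :=
  ⟨(l 4), by decide +kernel⟩

theorem c_pp_011 : CertF 0 536870912 536870912 536870912 67108864 67108864 true true true .pnn 0 1 1
    ndF1q0 ndF4q1 pcF1 Cut.none Ext.none :=
  certFK0 (fam := true) (s1 := true) (s2 := true) (a := 0) (b := 1) (c := 1) (cn := .pnn) (n1 := ndF1q0) (n2 := ndF4q1) (pc := pcF1) (cut := Cut.none) (xt := Ext.none) (P1 := 0) (W1 := 536870912) (P2 := 536870912) (W2 := 536870912) (P3 := 67108864) (W3 := 67108864)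
    rfl rfl rfl k0_pp_011

noncomputable def f_pp_012 : ℕ → ℕ → ℕ → ℕ → Bool := onCell 0 536870912 536870912 536870912 67108864 67108864
    (rowFK 0 true true true .pnp 0 1 2 (qsf 0 536870912 536870912 536870912 2) ndF1q0 ndF4q1 pcF2 Cut.none Ext.none)

def k0_pp_012 : ∃ t, chk3 f_pp_012 t 1 1 1 = true :=
  ⟨(l 4), by decide +kernel⟩

theorem c_pp_012 : CertF 0 536870912 536870912 536870912 67108864 67108864 true true true .pnp 0 1 2
    ndF1q0 ndF4q1 pcF2 Cut.none Ext.none :=
  certFK0 (fam := true) (s1 := true) (s2 := true) (a := 0) (b := 1) (c := 2) (cn := .pnp) (n1 := ndF1q0) (n2 := ndF4q1) (pc := pcF2) (cut := Cut.none) (xt := Ext.none) (P1 := 0) (W1 := 536870912) (P2 := 536870912) (W2 := 536870912) (P3 := 67108864) (W3 := 67108864)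
    rfl rfl rfl k0_pp_012

noncomputable def f_pp_022 : ℕ → ℕ → ℕ → ℕ → Bool := onCell 0 536870912 1073741824 536870912 67108864 67108864
    (rowFK 0 true true true .pp 0 2 2 (qsf 0 536870912 1073741824 536870912 2) ndF1q0 ndF4q2 pcF2 Cut.none Ext.none)

def k0_pp_022 : ∃ t, chk3 f_pp_022 t 1 1 1 = true :=
  ⟨(l 4), by decide +kernel⟩

theorem c_pp_022 : CertF 0 536870912 1073741824 536870912 67108864 67108864 true true true .pp 0 2 2
    ndF1q0 ndF4q2 pcF2 Cut.none Ext.none :=
  certFK0 (fam := true) (s1 := true) (s2 := true) (a := 0) (b := 2) (c := 2) (cn := .pp) (n1 := ndF1q0) (n2 := ndF4q2) (pc := pcF2) (cut := Cut.none) (xt := Ext.none) (P1 := 0) (W1 := 536870912) (P2 := 1073741824) (W2 := 536870912) (P3 := 67108864) (W3 := 67108864)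
    rfl rfl rfl k0_pp_022

noncomputable def f_pp_023 : ℕ → ℕ → ℕ → ℕ → Bool := onCell 0 536870912 1073741824 536870912 67108864 67108864
    (rowFK 0 true true true .up 0 2 3 (qsf 0 536870912 1073741824 536870912 3) ndF1q0 ndF4q2 pcF3 Cut.none Ext.none)

def k0_pp_023 : ∃ t, chk3 f_pp_023 t 1 1 1 = true :=
  ⟨(l 4), by decide +kernel⟩

theorem c_pp_023 : CertF 0 536870912 1073741824 536870912 67108864 67108864 true true true .up 0 2 3
    ndF1q0 ndF4q2 pcF3 Cut.none Ext.none :=
  certFK0 (fam := true) (s1 := true) (s2 := true) (a := 0) (b := 2) (c := 3) (cn := .up) (n1 := ndF1q0) (n2 := ndF4q2) (pc := pcF3) (cut := Cut.none) (xt := Ext.none) (P1 := 0) (W1 := 536870912) (P2 := 1073741824) (W2 := 536870912) (P3 := 67108864) (W3 := 67108864)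
    rfl rfl rfl k0_pp_023

noncomputable def f_pp_033 : ℕ → ℕ → ℕ → ℕ → Bool := onCell 0 536870912 0 1230186008 67108864 67108864
    (rowFK 0 true true true .pnn 0 3 3 (qsf 0 536870912 0 1230186008 3) ndF1q0 ndF4q3 pcF3 Cut.none Ext.none)

def k0_pp_033 : ∃ t, chk3 f_pp_033 t 1 1 1 = true :=
  ⟨(l 4), by decide +kernel⟩

theorem c_pp_033 : CertF 0 536870912 0 1230186008 67108864 67108864 true true true .pnn 0 3 3
    ndF1q0 ndF4q3 pcF3 Cut.none Ext.none :=
  certFK0 (fam := true) (s1 := true) (s2 := true) (a := 0) (b := 3) (c := 3) (cn := .pnn) (n1 := ndF1q0) (n2 := ndF4q3) (pc := pcF3) (cut := Cut.none) (xt := Ext.none) (P1 := 0) (W1 := 536870912) (P2 := 0) (W2 := 1230186008) (P3 := 67108864) (W3 := 67108864)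
    rfl rfl rfl k0_pp_033

noncomputable def f_pp_101 : ℕ → ℕ → ℕ → ℕ → Bool := onCell 536870912 536870912 0 536870912 67108864 67108864
    (rowFK 0 true true true .npn 1 0 1 (qsf 536870912 536870912 0 536870912 1) ndF1q1 ndF4q0 pcF1 Cut.none Ext.none)

def k0_pp_101 : ∃ t, chk3 f_pp_101 t 1 1 1 = true :=
  ⟨(l 4), by decide +kernel⟩

theorem c_pp_101 : CertF 536870912 536870912 0 536870912 67108864 67108864 true true true .npn 1 0 1
    ndF1q1 ndF4q0 pcF1 Cut.none Ext.none :=
  certFK0 (fam := true) (s1 := true) (s2 := true) (a := 1) (b := 0) (c := 1) (cn := .npn) (n1 := ndF1q1) (n2 := ndF4q0) (pc := pcF1) (cut := Cut.none) (xt := Ext.none) (P1 := 536870912) (W1 := 536870912) (P2 := 0) (W2 := 536870912) (P3 := 67108864) (W3 := 67108864)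
    rfl rfl rfl k0_pp_101

noncomputable def f_pp_102 : ℕ → ℕ → ℕ → ℕ → Bool := onCell 536870912 536870912 0 536870912 67108864 67108864
    (rowFK 0 true true true .npp 1 0 2 (qsf 536870912 536870912 0 536870912 2) ndF1q1 ndF4q0 pcF2 Cut.none Ext.none)

def k0_pp_102 : ∃ t, chk3 f_pp_102 t 1 1 1 = true :=
  ⟨(l 4), by decide +kernel⟩

theorem c_pp_102 : CertF 536870912 536870912 0 536870912 67108864 67108864 true true true .npp 1 0 2
    ndF1q1 ndF4q0 pcF2 Cut.none Ext.none :=
  certFK0 (fam := true) (s1 := true) (s2 := true) (a := 1) (b := 0) (c := 2) (cn := .npp) (n1 := ndF1q1) (n2 := ndF4q0) (pc := pcF2) (cut := Cut.none) (xt := Ext.none) (P1 := 536870912) (W1 := 536870912) (P2 := 0) (W2 := 536870912) (P3 := 67108864) (W3 := 67108864)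
    rfl rfl rfl k0_pp_102

noncomputable def f_pp_112 : ℕ → ℕ → ℕ → ℕ → Bool := onCell 536870912 536870912 536870912 536870912 67108864 67108864
    (rowFK 0 true true true .dn 1 1 2 (qsf 536870912 536870912 536870912 536870912 2) ndF1q1 ndF4q1 pcF2 Cut.none Ext.none)

def k0_pp_112 : ∃ t, chk3 f_pp_112 t 1 1 1 = true :=
  ⟨(l 4), by decide +kernel⟩

theorem c_pp_112 : CertF 536870912 536870912 536870912 536870912 67108864 67108864 true true true .dn 1 1 2
    ndF1q1 ndF4q1 pcF2 Cut.none Ext.none :=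
  certFK0 (fam := true) (s1 := true) (s2 := true) (a := 1) (b := 1) (c := 2) (cn := .dn) (n1 := ndF1q1) (n2 := ndF4q1) (pc := pcF2) (cut := Cut.none) (xt := Ext.none) (P1 := 536870912) (W1 := 536870912) (P2 := 536870912) (W2 := 536870912) (P3 := 67108864) (W3 := 67108864)
    rfl rfl rfl k0_pp_112

noncomputable def f_pp_113 : ℕ → ℕ → ℕ → ℕ → Bool := onCell 536870912 536870912 536870912 536870912 67108864 67108864
    (rowFK 0 true true true .nn 1 1 3 (qsf 536870912 536870912 536870912 536870912 3) ndF1q1 ndF4q1 pcF3 Cut.none Ext.none)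

def k0_pp_113 : ∃ t, chk3 f_pp_113 t 1 1 1 = true :=
  ⟨(l 4), by decide +kernel⟩

theorem c_pp_113 : CertF 536870912 536870912 536870912 536870912 67108864 67108864 true true true .nn 1 1 3
    ndF1q1 ndF4q1 pcF3 Cut.none Ext.none :=
  certFK0 (fam := true) (s1 := true) (s2 := true) (a := 1) (b := 1) (c := 3) (cn := .nn) (n1 := ndF1q1) (n2 := ndF4q1) (pc := pcF3) (cut := Cut.none) (xt := Ext.none) (P1 := 536870912) (W1 := 536870912) (P2 := 536870912) (W2 := 536870912) (P3 := 67108864) (W3 := 67108864)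
    rfl rfl rfl k0_pp_113

noncomputable def f_pp_123 : ℕ → ℕ → ℕ → ℕ → Bool := onCell 536870912 536870912 1073741824 536870912 67108864 67108864
    (rowFK 0 true true true .npn 1 2 3 (qsf 536870912 536870912 1073741824 536870912 3) ndF1q1 ndF4q2 pcF3 Cut.none Ext.none)

def k0_pp_123 : ∃ t, chk3 f_pp_123 t 1 1 1 = true :=
  ⟨(l 4), by decide +kernel⟩

theorem c_pp_123 : CertF 536870912 536870912 1073741824 536870912 67108864 67108864 true true true .npn 1 2 3
    ndF1q1 ndF4q2 pcF3 Cut.none Ext.none :=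
  certFK0 (fam := true) (s1 := true) (s2 := true) (a := 1) (b := 2) (c := 3) (cn := .npn) (n1 := ndF1q1) (n2 := ndF4q2) (pc := pcF3) (cut := Cut.none) (xt := Ext.none) (P1 := 536870912) (W1 := 536870912) (P2 := 1073741824) (W2 := 536870912) (P3 := 67108864) (W3 := 67108864)
    rfl rfl rfl k0_pp_123

noncomputable def f_pp_133 : ℕ → ℕ → ℕ → ℕ → Bool := onCell 536870912 536870912 0 1230186008 67108864 67108864
    (rowFK 0 true true true .dn 1 3 3 (qsf 536870912 536870912 0 1230186008 3) ndF1q1 ndF4q3 pcF3 Cut.none Ext.none)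

def k0_pp_133 : ∃ t, chk3 f_pp_133 t 1 1 1 = true :=
  ⟨(l 4), by decide +kernel⟩

theorem c_pp_133 : CertF 536870912 536870912 0 1230186008 67108864 67108864 true true true .dn 1 3 3
    ndF1q1 ndF4q3 pcF3 Cut.none Ext.none :=
  certFK0 (fam := true) (s1 := true) (s2 := true) (a := 1) (b := 3) (c := 3) (cn := .dn) (n1 := ndF1q1) (n2 := ndF4q3) (pc := pcF3) (cut := Cut.none) (xt := Ext.none) (P1 := 536870912) (W1 := 536870912) (P2 := 0) (W2 := 1230186008) (P3 := 67108864) (W3 := 67108864)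
    rfl rfl rfl k0_pp_133

noncomputable def f_pp_202_a : ℕ → ℕ → ℕ → ℕ → Bool := onCell 0 536870912 0 536870912 67108864 67108864
    (rowFK 0 true true true .pp 2 0 2 (qsf 0 536870912 0 536870912 2) ndF1q2a ndF4q0 pcF2 Cut.none Ext.none)

def k0_pp_202_a : ∃ t, chk3 f_pp_202_a t 1 1 1 = true :=
  ⟨(l 4), by decide +kernel⟩

theorem c_pp_202_a : CertF 0 536870912 0 536870912 67108864 67108864 true true true .pp 2 0 2
    ndF1q2a ndF4q0 pcF2 Cut.none Ext.none :=
  certFK0 (fam := true) (s1 := true) (s2 := true) (a := 2) (b := 0) (c := 2) (cn := .pp) (n1 := ndF1q2a) (n2 := ndF4q0) (pc := pcF2) (cut := Cut.none) (xt := Ext.none) (P1 := 0) (W1 := 536870912) (P2 := 0) (W2 := 536870912) (P3 := 67108864) (W3 := 67108864)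
    rfl rfl rfl k0_pp_202_a

noncomputable def f_pp_202_b : ℕ → ℕ → ℕ → ℕ → Bool := onCell 1239849684 370763052 0 536870912 67108864 67108864
    (rowFK 0 true true true .pp 2 0 2 (qsf 1239849684 370763052 0 536870912 2) ndF1q2b ndF4q0 pcF2 Cut.none Ext.none)

def k0_pp_202_b : ∃ t, chk3 f_pp_202_b t 1 1 1 = true :=
  ⟨(l 4), by decide +kernel⟩

theorem c_pp_202_b : CertF 1239849684 370763052 0 536870912 67108864 67108864 true true true .pp 2 0 2
    ndF1q2b ndF4q0 pcF2 Cut.none Ext.none :=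
  certFK0 (fam := true) (s1 := true) (s2 := true) (a := 2) (b := 0) (c := 2) (cn := .pp) (n1 := ndF1q2b) (n2 := ndF4q0) (pc := pcF2) (cut := Cut.none) (xt := Ext.none) (P1 := 1239849684) (W1 := 370763052) (P2 := 0) (W2 := 536870912) (P3 := 67108864) (W3 := 67108864)
    rfl rfl rfl k0_pp_202_b

noncomputable def f_pp_203_a : ℕ → ℕ → ℕ → ℕ → Bool := onCell 0 536870912 0 536870912 67108864 67108864
    (rowFK 0 true true true .up 2 0 3 (qsf 0 536870912 0 536870912 3) ndF1q2a ndF4q0 pcF3 Cut.none Ext.none)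

def k0_pp_203_a : ∃ t, chk3 f_pp_203_a t 1 1 1 = true :=
  ⟨(l 4), by decide +kernel⟩

theorem c_pp_203_a : CertF 0 536870912 0 536870912 67108864 67108864 true true true .up 2 0 3
    ndF1q2a ndF4q0 pcF3 Cut.none Ext.none :=
  certFK0 (fam := true) (s1 := true) (s2 := true) (a := 2) (b := 0) (c := 3) (cn := .up) (n1 := ndF1q2a) (n2 := ndF4q0) (pc := pcF3) (cut := Cut.none) (xt := Ext.none) (P1 := 0) (W1 := 536870912) (P2 := 0) (W2 := 536870912) (P3 := 67108864) (W3 := 67108864)
    rfl rfl rfl k0_pp_203_a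

noncomputable def f_pp_203_b : ℕ → ℕ → ℕ → ℕ → Bool := onCell 1239849684 370763052 0 536870912 67108864 67108864
    (rowFK 0 true true true .up 2 0 3 (qsf 1239849684 370763052 0 536870912 3) ndF1q2b ndF4q0 pcF3 Cut.none Ext.none)

def k0_pp_203_b : ∃ t, chk3 f_pp_203_b t 1 1 1 = true :=
  ⟨(l 4), by decide +kernel⟩

theorem c_pp_203_b : CertF 1239849684 370763052 0 536870912 67108864 67108864 true true true .up 2 0 3
    ndF1q2b ndF4q0 pcF3 Cut.none Ext.none :=
  certFK0 (fam := true) (s1 := true) (s2 := true) (a := 2) (b := 0) (c := 3) (cn := .up) (n1 := ndF1q2b) (n2 := ndF4q0) (pc := pcF3) (cut := Cut.none) (xt := Ext.none) (P1 := 1239849684) (W1 := 370763052) (P2 := 0) (W2 := 536870912) (P3 := 67108864) (W3 := 67108864)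
    rfl rfl rfl k0_pp_203_b

noncomputable def f_pp_213_a : ℕ → ℕ → ℕ → ℕ → Bool := onCell 0 536870912 536870912 536870912 67108864 67108864
    (rowFK 0 true true true .pnn 2 1 3 (qsf 0 536870912 536870912 536870912 3) ndF1q2a ndF4q1 pcF3 Cut.none Ext.none)

def k0_pp_213_a : ∃ t, chk3 f_pp_213_a t 1 1 1 = true :=
  ⟨(l 4), by decide +kernel⟩

theorem c_pp_213_a : CertF 0 536870912 536870912 536870912 67108864 67108864 true true true .pnn 2 1 3
    ndF1q2a ndF4q1 pcF3 Cut.none Ext.none :=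
  certFK0 (fam := true) (s1 := true) (s2 := true) (a := 2) (b := 1) (c := 3) (cn := .pnn) (n1 := ndF1q2a) (n2 := ndF4q1) (pc := pcF3) (cut := Cut.none) (xt := Ext.none) (P1 := 0) (W1 := 536870912) (P2 := 536870912) (W2 := 536870912) (P3 := 67108864) (W3 := 67108864)
    rfl rfl rfl k0_pp_213_a

noncomputable def f_pp_213_b : ℕ → ℕ → ℕ → ℕ → Bool := onCell 1239849684 370763052 536870912 536870912 67108864 67108864
    (rowFK 0 true true true .pnn 2 1 3 (qsf 1239849684 370763052 536870912 536870912 3) ndF1q2b ndF4q1 pcF3 Cut.none Ext.none)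

def k0_pp_213_b : ∃ t, chk3 f_pp_213_b t 1 1 1 = true :=
  ⟨(l 4), by decide +kernel⟩

theorem c_pp_213_b : CertF 1239849684 370763052 536870912 536870912 67108864 67108864 true true true .pnn 2 1 3
    ndF1q2b ndF4q1 pcF3 Cut.none Ext.none :=
  certFK0 (fam := true) (s1 := true) (s2 := true) (a := 2) (b := 1) (c := 3) (cn := .pnn) (n1 := ndF1q2b) (n2 := ndF4q1) (pc := pcF3) (cut := Cut.none) (xt := Ext.none) (P1 := 1239849684) (W1 := 370763052) (P2 := 536870912) (W2 := 536870912) (P3 := 67108864) (W3 := 67108864)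
    rfl rfl rfl k0_pp_213_b

noncomputable def f_pp_303 : ℕ → ℕ → ℕ → ℕ → Bool := onCell 1610612736 536870912 0 536870912 67108864 67108864
    (rowFK 0 true true true .npn 3 0 3 (qsf 1610612736 536870912 0 536870912 3) ndF1q3 ndF4q0 pcF3 Cut.none Ext.none)

def k0_pp_303 : ∃ t, chk3 f_pp_303 t 1 1 1 = true :=
  ⟨(l 4), by decide +kernel⟩

theorem c_pp_303 : CertF 1610612736 536870912 0 536870912 67108864 67108864 true true true .npn 3 0 3
    ndF1q3 ndF4q0 pcF3 Cut.none Ext.none :=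
  certFK0 (fam := true) (s1 := true) (s2 := true) (a := 3) (b := 0) (c := 3) (cn := .npn) (n1 := ndF1q3) (n2 := ndF4q0) (pc := pcF3) (cut := Cut.none) (xt := Ext.none) (P1 := 1610612736) (W1 := 536870912) (P2 := 0) (W2 := 536870912) (P3 := 67108864) (W3 := 67108864)
    rfl rfl rfl k0_pp_303

noncomputable def f_pp_313 : ℕ → ℕ → ℕ → ℕ → Bool := onCell 1610612736 536870912 536870912 536870912 67108864 67108864
    (rowFK 0 true true true .dn 3 1 3 (qsf 1610612736 536870912 536870912 536870912 3) ndF1q3 ndF4q1 pcF3 Cut.none Ext.none)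

def k0_pp_313 : ∃ t, chk3 f_pp_313 t 1 1 1 = true :=
  ⟨(l 4), by decide +kernel⟩

theorem c_pp_313 : CertF 1610612736 536870912 536870912 536870912 67108864 67108864 true true true .dn 3 1 3
    ndF1q3 ndF4q1 pcF3 Cut.none Ext.none :=
  certFK0 (fam := true) (s1 := true) (s2 := true) (a := 3) (b := 1) (c := 3) (cn := .dn) (n1 := ndF1q3) (n2 := ndF4q1) (pc := pcF3) (cut := Cut.none) (xt := Ext.none) (P1 := 1610612736) (W1 := 536870912) (P2 := 536870912) (W2 := 536870912) (P3 := 67108864) (W3 := 67108864)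
    rfl rfl rfl k0_pp_313

noncomputable def f_pm_001 : ℕ → ℕ → ℕ → ℕ → Bool := onCell 0 536870912 0 536870912 67108864 67108864
    (rowFK 0 true true false .up 0 0 1 (qsf 0 536870912 0 536870912 1) ndF1q0 ndF4q0 pcF1 Cut.none Ext.none)

def k0_pm_001 : ∃ t, chk3 f_pm_001 t 1 1 1 = true :=
  ⟨(a (l 3) (b (l 3) (l 3))), by decide +kernel⟩

theorem c_pm_001 : CertF 0 536870912 0 536870912 67108864 67108864 true true false .up 0 0 1
    ndF1q0 ndF4q0 pcF1 Cut.none Ext.none :=
  certFK0 (fam := true) (s1 := true) (s2 := false) (a := 0) (b := 0) (c := 1) (cn := .up) (n1 := ndF1q0) (n2 := ndF4q0) (pc := pcF1) (cut := Cut.none) (xt := Ext.none) (P1 := 0) (W1 := 536870912) (P2 := 0) (W2 := 536870912) (P3 := 67108864) (W3 := 67108864)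
    rfl rfl rfl k0_pm_001

noncomputable def cut_pm_011 : Cut := Cut.of [[⟨0, 0, 0, 67108864⟩, ⟨1, 1, 0, 67108864⟩, ⟨2, 1, 0, 67108864⟩]]

noncomputable def f_pm_011 : ℕ → ℕ → ℕ → ℕ → Bool := onCell 0 536870912 536870912 536870912 67108864 67108864
    (rowFK 1 true true false .pnn 0 1 1 (qsf 0 536870912 536870912 536870912 1) ndF1q0 ndF4q1 pcF1 cut_pm_011 Ext.none)

def k0_pm_011 : ∃ t, chk3 f_pm_011 t 1 1 1 = true :=
  ⟨(b (l 3) (a (b (l 3) (a (b (l 3) (a (b (l 3) (a (b (l 3) (l 6)) (l 3))) (l 3))) (l 3))) (l 3))), by decide +kernel⟩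

theorem c_pm_011 : CertF 0 536870912 536870912 536870912 67108864 67108864 true true false .pnn 0 1 1
    ndF1q0 ndF4q1 pcF1 cut_pm_011 Ext.none :=
  certFK1 (fam := true) (s1 := true) (s2 := false) (a := 0) (b := 1) (c := 1) (cn := .pnn) (n1 := ndF1q0) (n2 := ndF4q1) (pc := pcF1) (cut := cut_pm_011) (xt := Ext.none) (P1 := 0) (W1 := 536870912) (P2 := 536870912) (W2 := 536870912) (P3 := 67108864) (W3 := 67108864)
    rfl rfl rfl (fun _ => rfl) k0_pm_011

noncomputable def cut_pm_012 : Cut := Cut.of [[⟨0, 0, 0, 67108864⟩, ⟨1, 1, 0, 67108864⟩, ⟨2, 1, 0, 67108864⟩]]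

noncomputable def f_pm_012 : ℕ → ℕ → ℕ → ℕ → Bool := onCell 1073741824 536870912 536870912 536870912 67108864 67108864
    (rowFK 2 true true false .pnp 0 1 2 (qsf 0 536870912 536870912 536870912 2) ndF1q0 ndF4q1 pcF2 cut_pm_012 Ext.none)

def k0_pm_012 : ∃ t, chk3 f_pm_012 t 1 1 1 = true :=
  ⟨(a (b (a (a (a (l 18215424) (b (l 18329904) (l 18334680))) (a (l 18455040) (l 18508344))) (b (l 18419248) (l 18748920))) (a (a (a (b (l 328735329031) (b (a (l 3) (l 17093368)) (a (b (b (l 3) (l 297057486279)) (l 6)) (b (l 16814272) (b (l 16786560) (l 6)))))) (b (l 18169256) (b (b (l 17795864) (l 17420360)) (b (l 16820928) (b (l 16790032) (a (l 16770232) (l 16772088))))))) (b (a (l 18456032) (l 18667944)) (b (a (l 18209856) (l 18621392)) (a (b (l 17700600) (b (l 17057968) (l 16780352))) (b (l 18413424) (l 17830088)))))) (a (b (l 18975888) (b (l 19202824) (a (a (l 18707208) (l 18931776)) (l 19179728)))) (b (l 18981072) (l 19360816))))) (b (a (l 18396096) (l 2)) (b (a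 (l 18984096) (l 18814816)) (a (l 19481240) (l 19360376))))), by decide +kernel⟩

theorem c_pm_012 : CertF 0 536870912 536870912 536870912 67108864 67108864 true true false .pnp 0 1 2
    ndF1q0 ndF4q1 pcF2 cut_pm_012 Ext.none :=
  certFK2 (fam := true) (s1 := true) (s2 := false) (a := 0) (b := 1) (c := 2) (cn := .pnp) (n1 := ndF1q0) (n2 := ndF4q1) (pc := pcF2) (cut := cut_pm_012) (xt := Ext.none) (P1 := 0) (W1 := 536870912) (P2 := 536870912) (W2 := 536870912) (P3 := 67108864) (W3 := 67108864)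
    rfl rfl rfl (fun _ => rfl) k0_pm_012

noncomputable def cut_pm_022 : Cut := Cut.of [[⟨0, 0, 0, 67108864⟩, ⟨1, 1, 0, 67108864⟩, ⟨2, 1, 0, 67108864⟩]]

noncomputable def f_pm_022 : ℕ → ℕ → ℕ → ℕ → Bool := onCell 0 536870912 1073741824 536870912 67108864 67108864
    (rowFK 1 true true false .pp 0 2 2 (qsf 0 536870912 1073741824 536870912 2) ndF1q0 ndF4q2 pcF2 cut_pm_022 Ext.none)

def k0_pm_022 : ∃ t, chk3 f_pm_022 t 1 1 1 = true :=
  ⟨(a (b (a (b (b (b (a (a (l 6) (a (l 6) (l 1))) (l 1)) (a (b (a (l 6) (a (l 6) (b (l 1) (l 16785672)))) (b (a (l 6) (l 16753840)) (a (a (a (l 16682968) (l 16657848)) (l 16684816)) (l 16737112)))) (a (a (b (l 1) (l 16795536)) (l 1)) (l 1)))) (a (b (a (a (a (b (b (l 16670144) (l 16657344)) (l 16700232)) (b (l 16651088) (l 16612656))) (b (b (l 16666568) (l 16648408)) (l 16600872))) (b (l 16713208) (l 16680672))) (a (a (a (b (l 16869152) (c (l 17953016) (l 16839320))) (l 16910464)) (l 16950704)) (b (l 16902624) (l 17450712)))) (b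 (a (b (l 16783264) (l 16755552)) (b (l 1) (l 16826864))) (a (l 17345056) (b (l 17270520) (l 17815728)))))) (b (a (b (a (b (a (c (l 18256096) (l 17261624)) (l 17780024)) (b (l 17942216) (l 18105328))) (b (l 17842680) (b (l 18067440) (l 18192456)))) (a (l 18251384) (l 18443624))) (b (b (l 18082952) (b (l 18297720) (l 18416656))) (l 18646384))) (a (a (l 18742680) (l 18814088)) (l 18963288)))) (b (b (l 1) (b (l 1) (a (b (l 1) (l 18176664)) (l 1)))) (b (b (a (b (l 18517272) (b (l 18719592) (l 18830096))) (l 1)) (a (l 19017840) (l 19362712))) (l 19561224)))) (b (a (a (b (l 19002288) (l 19048928)) (l 19149592)) (b (l 19417296) (l 19345400))) (a (a (l 18998824) (l 19049400)) (l 19164496)))) (b (a (b (l 1) (b (l 1) (l 19587432))) (l 1)) (b (a (l 19561712) (l 19837344)) (a (l 19411816) (l 19676000))))), by decide +kernel⟩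

theorem c_pm_022 : CertF 0 536870912 1073741824 536870912 67108864 67108864 true true false .pp 0 2 2
    ndF1q0 ndF4q2 pcF2 cut_pm_022 Ext.none :=
  certFK1 (fam := true) (s1 := true) (s2 := false) (a := 0) (b := 2) (c := 2) (cn := .pp) (n1 := ndF1q0) (n2 := ndF4q2) (pc := pcF2) (cut := cut_pm_022) (xt := Ext.none) (P1 := 0) (W1 := 536870912) (P2 := 1073741824) (W2 := 536870912) (P3 := 67108864) (W3 := 67108864)
    rfl rfl rfl (fun _ => rfl) k0_pm_022

noncomputable def f_pm_023 : ℕ → ℕ → ℕ → ℕ → Bool := onCell 1610612736 536870912 1073741824 536870912 67108864 67108864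
    (rowFK 2 true true false .up 0 2 3 (qsf 0 536870912 1073741824 536870912 3) ndF1q0 ndF4q2 pcF3 Cut.none Ext.none)

def k0_pm_023 : ∃ t, chk3 f_pm_023 t 1 1 1 = true :=
  ⟨(a (b (a (b (l 19369032) (l 19005056)) (b (a (l 19410464) (l 2)) (l 18849000))) (b (a (l 18936144) (l 18608000)) (l 18952384))) (a (b (b (l 2) (l 18651432)) (b (l 18357752) (l 18161864))) (b (l 2) (a (l 18061432) (a (l 17984224) (a (l 17949040) (a (l 17933528) (l 81707840647)))))))), by decide +kernel⟩

theorem c_pm_023 : CertF 0 536870912 1073741824 536870912 67108864 67108864 true true false .up 0 2 3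
    ndF1q0 ndF4q2 pcF3 Cut.none Ext.none :=
  certFK2 (fam := true) (s1 := true) (s2 := false) (a := 0) (b := 2) (c := 3) (cn := .up) (n1 := ndF1q0) (n2 := ndF4q2) (pc := pcF3) (cut := Cut.none) (xt := Ext.none) (P1 := 0) (W1 := 536870912) (P2 := 1073741824) (W2 := 536870912) (P3 := 67108864) (W3 := 67108864)
    rfl rfl rfl (fun _ => rfl) k0_pm_023

noncomputable def f_pm_033 : ℕ → ℕ → ℕ → ℕ → Bool := onCell 1610612736 536870912 0 1230186008 67108864 67108864
    (rowFK 2 true true false .pnn 0 3 3 (qsf 0 536870912 0 1230186008 3) ndF1q0 ndF4q3 pcF3 Cut.none Ext.none)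

def k0_pm_033 : ∃ t, chk3 f_pm_033 t 1 1 1 = true :=
  ⟨(a (b (l 1) (b (b (l 1) (a (l 1) (a (l 1) (l 747898815143)))) (b (a (l 1) (l 18512352)) (a (a (l 739309380759) (l 18819984)) (l 18490560))))) (a (b (l 1) (b (a (b (l 1) (l 326991252407)) (b (l 18008512) (l 18132872))) (b (a (l 18342384) (l 18078664)) (l 18119152)))) (a (b (b (l 1) (l 17986504)) (b (l 17791632) (b (l 17768936) (l 17819416)))) (b (a (l 18039040) (l 4)) (b (a (l 17702744) (a (l 17668264) (l 4))) (a (l 17653600) (a (l 17574440) (a (l 17545112) (l 17538112))))))))), by decide +kernel⟩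

theorem c_pm_033 : CertF 0 536870912 0 1230186008 67108864 67108864 true true false .pnn 0 3 3
    ndF1q0 ndF4q3 pcF3 Cut.none Ext.none :=
  certFK2 (fam := true) (s1 := true) (s2 := false) (a := 0) (b := 3) (c := 3) (cn := .pnn) (n1 := ndF1q0) (n2 := ndF4q3) (pc := pcF3) (cut := Cut.none) (xt := Ext.none) (P1 := 0) (W1 := 536870912) (P2 := 0) (W2 := 1230186008) (P3 := 67108864) (W3 := 67108864)
    rfl rfl rfl (fun _ => rfl) k0_pm_033

noncomputable def f_pm_101 : ℕ → ℕ → ℕ → ℕ → Bool := onCell 536870912 536870912 536870912 536870912 67108864 67108864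
    (rowFK 1 true true false .npn 1 0 1 (qsf 536870912 536870912 0 536870912 1) ndF1q1 ndF4q0 pcF1 Cut.none Ext.none)

def k0_pm_101 : ∃ t, chk3 f_pm_101 t 1 1 1 = true :=
  ⟨(b (l 3) (b (l 3) (a (a (l 3) (l 17544136)) (a (l 17971136) (l 18678848))))), by decide +kernel⟩

theorem c_pm_101 : CertF 536870912 536870912 0 536870912 67108864 67108864 true true false .npn 1 0 1
    ndF1q1 ndF4q0 pcF1 Cut.none Ext.none :=
  certFK1 (fam := true) (s1 := true) (s2 := false) (a := 1) (b := 0) (c := 1) (cn := .npn) (n1 := ndF1q1) (n2 := ndF4q0) (pc := pcF1) (cut := Cut.none) (xt := Ext.none) (P1 := 536870912) (W1 := 536870912) (P2 := 0) (W2 := 536870912) (P3 := 67108864) (W3 := 67108864)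
    rfl rfl rfl (fun _ => rfl) k0_pm_101

noncomputable def f_pm_102 : ℕ → ℕ → ℕ → ℕ → Bool := onCell 1073741824 536870912 0 536870912 67108864 67108864
    (rowFK 2 true true false .npp 1 0 2 (qsf 536870912 536870912 0 536870912 2) ndF1q1 ndF4q0 pcF2 Cut.none Ext.none)

def k0_pm_102 : ∃ t, chk3 f_pm_102 t 1 1 1 = true :=
  ⟨(a (b (a (a (a (l 18521624) (l 18706920)) (b (l 19052208) (l 18417120))) (b (a (l 19182240) (l 2)) (l 18614984))) (a (a (a (l 17822168) (l 17909656)) (b (l 18046696) (l 17965008))) (b (l 18209192) (l 18107144)))) (b (a (b (l 2) (l 18864256)) (l 2)) (a (b (l 18366224) (l 18132352)) (b (a (l 18395480) (l 2)) (l 18151312))))), by decide +kernel⟩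

theorem c_pm_102 : CertF 536870912 536870912 0 536870912 67108864 67108864 true true false .npp 1 0 2
    ndF1q1 ndF4q0 pcF2 Cut.none Ext.none :=
  certFK2 (fam := true) (s1 := true) (s2 := false) (a := 1) (b := 0) (c := 2) (cn := .npp) (n1 := ndF1q1) (n2 := ndF4q0) (pc := pcF2) (cut := Cut.none) (xt := Ext.none) (P1 := 536870912) (W1 := 536870912) (P2 := 0) (W2 := 536870912) (P3 := 67108864) (W3 := 67108864)
    rfl rfl rfl (fun _ => rfl) k0_pm_102

noncomputable def f_pm_112 : ℕ → ℕ → ℕ → ℕ → Bool := onCell 1073741824 536870912 536870912 536870912 67108864 67108864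
    (rowFK 2 true true false .dn 1 1 2 (qsf 536870912 536870912 536870912 536870912 2) ndF1q1 ndF4q1 pcF2 Cut.none Ext.none)

def k0_pm_112 : ∃ t, chk3 f_pm_112 t 1 1 1 = true :=
  ⟨(a (b (a (a (a (l 462282294231) (l 333433375591)) (a (l 246997496007) (l 18293392))) (b (l 18417520) (l 408596346503))) (a (l 1) (a (l 1) (l 476243358007)))) (b (a (l 18346776) (l 18290912)) (b (l 19130624) (l 461211965159)))), by decide +kernel⟩

theorem c_pm_112 : CertF 536870912 536870912 536870912 536870912 67108864 67108864 true true false .dn 1 1 2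
    ndF1q1 ndF4q1 pcF2 Cut.none Ext.none :=
  certFK2 (fam := true) (s1 := true) (s2 := false) (a := 1) (b := 1) (c := 2) (cn := .dn) (n1 := ndF1q1) (n2 := ndF4q1) (pc := pcF2) (cut := Cut.none) (xt := Ext.none) (P1 := 536870912) (W1 := 536870912) (P2 := 536870912) (W2 := 536870912) (P3 := 67108864) (W3 := 67108864)
    rfl rfl rfl (fun _ => rfl) k0_pm_112

noncomputable def f_pm_113 : ℕ → ℕ → ℕ → ℕ → Bool := onCell 536870912 536870912 1610612736 536870912 67108864 67108864
    (rowFK 1 true true false .nn 1 1 3 (qsf 536870912 536870912 536870912 536870912 3) ndF1q1 ndF4q1 pcF3 Cut.none Ext.none)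

def k0_pm_113 : ∃ t, chk3 f_pm_113 t 1 1 1 = true :=
  ⟨(a (b (b (a (l 20227016) (l 20056080)) (a (l 20610952) (l 20179552))) (b (a (l 2) (l 19982208)) (l 2))) (b (b (a (l 19264488) (l 18190752)) (a (l 18984960) (l 17846272))) (b (b (l 18251960) (l 18379736)) (b (l 18459992) (b (l 18563992) (b (l 18645464) (b (l 18696392) (l 18761696)))))))), by decide +kernel⟩

theorem c_pm_113 : CertF 536870912 536870912 536870912 536870912 67108864 67108864 true true false .nn 1 1 3
    ndF1q1 ndF4q1 pcF3 Cut.none Ext.none :=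
  certFK1 (fam := true) (s1 := true) (s2 := false) (a := 1) (b := 1) (c := 3) (cn := .nn) (n1 := ndF1q1) (n2 := ndF4q1) (pc := pcF3) (cut := Cut.none) (xt := Ext.none) (P1 := 536870912) (W1 := 536870912) (P2 := 536870912) (W2 := 536870912) (P3 := 67108864) (W3 := 67108864)
    rfl rfl rfl (fun _ => rfl) k0_pm_113

noncomputable def f_pm_123 : ℕ → ℕ → ℕ → ℕ → Bool := onCell 536870912 536870912 1610612736 536870912 67108864 67108864
    (rowFK 1 true true false .npn 1 2 3 (qsf 536870912 536870912 1073741824 536870912 3) ndF1q1 ndF4q2 pcF3 Cut.none Ext.none)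

def k0_pm_123 : ∃ t, chk3 f_pm_123 t 1 1 1 = true :=
  ⟨(b (a (b (a (l 20237512) (a (l 21000600) (l 1))) (a (l 19593592) (b (l 20324912) (l 19790312)))) (b (l 1) (a (l 19783488) (l 1)))) (b (a (a (l 19082624) (l 19142376)) (a (l 18756672) (l 18343896))) (a (b (l 18949728) (b (l 18586624) (b (l 18498944) (b (l 18454176) (a (l 18350584) (l 18412544)))))) (b (l 18339712) (b (l 18226032) (b (l 18190088) (b (l 18178640) (l 18195080)))))))), by decide +kernel⟩

theorem c_pm_123 : CertF 536870912 536870912 1073741824 536870912 67108864 67108864 true true false .npn 1 2 3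
    ndF1q1 ndF4q2 pcF3 Cut.none Ext.none :=
  certFK1 (fam := true) (s1 := true) (s2 := false) (a := 1) (b := 2) (c := 3) (cn := .npn) (n1 := ndF1q1) (n2 := ndF4q2) (pc := pcF3) (cut := Cut.none) (xt := Ext.none) (P1 := 536870912) (W1 := 536870912) (P2 := 1073741824) (W2 := 536870912) (P3 := 67108864) (W3 := 67108864)
    rfl rfl rfl (fun _ => rfl) k0_pm_123

noncomputable def f_pm_133 : ℕ → ℕ → ℕ → ℕ → Bool := onCell 536870912 536870912 0 1230186008 67108864 67108864
    (rowFK 0 true true false .dn 1 3 3 (qsf 536870912 536870912 0 1230186008 3) ndF1q1 ndF4q3 pcF3 Cut.none Ext.none)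

def k0_pm_133 : ∃ t, chk3 f_pm_133 t 1 1 1 = true :=
  ⟨(b (l 2) (b (l 2) (a (b (l 2) (a (b (l 2) (a (l 18052624) (l 2))) (l 2))) (l 2)))), by decide +kernel⟩

theorem c_pm_133 : CertF 536870912 536870912 0 1230186008 67108864 67108864 true true false .dn 1 3 3
    ndF1q1 ndF4q3 pcF3 Cut.none Ext.none :=
  certFK0 (fam := true) (s1 := true) (s2 := false) (a := 1) (b := 3) (c := 3) (cn := .dn) (n1 := ndF1q1) (n2 := ndF4q3) (pc := pcF3) (cut := Cut.none) (xt := Ext.none) (P1 := 536870912) (W1 := 536870912) (P2 := 0) (W2 := 1230186008) (P3 := 67108864) (W3 := 67108864)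
    rfl rfl rfl k0_pm_133

noncomputable def f_pm_202_a : ℕ → ℕ → ℕ → ℕ → Bool := onCell 0 536870912 1073741824 536870912 67108864 67108864
    (rowFK 1 true true false .pp 2 0 2 (qsf 0 536870912 0 536870912 2) ndF1q2a ndF4q0 pcF2 Cut.none Ext.none)

def k0_pm_202_a : ∃ t, chk3 f_pm_202_a t 1 1 1 = true :=
  ⟨(b (b (a (l 19417312) (l 19452496)) (a (l 19037920) (l 19134576))) (b (a (l 18651744) (l 18775144)) (a (l 4) (l 18478168)))), by decide +kernel⟩

theorem c_pm_202_a : CertF 0 536870912 0 536870912 67108864 67108864 true true false .pp 2 0 2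
    ndF1q2a ndF4q0 pcF2 Cut.none Ext.none :=
  certFK1 (fam := true) (s1 := true) (s2 := false) (a := 2) (b := 0) (c := 2) (cn := .pp) (n1 := ndF1q2a) (n2 := ndF4q0) (pc := pcF2) (cut := Cut.none) (xt := Ext.none) (P1 := 0) (W1 := 536870912) (P2 := 0) (W2 := 536870912) (P3 := 67108864) (W3 := 67108864)
    rfl rfl rfl (fun _ => rfl) k0_pm_202_a

noncomputable def f_pm_202_b : ℕ → ℕ → ℕ → ℕ → Bool := onCell 1239849684 370763052 0 536870912 67108864 67108864
    (rowFK 0 true true false .pp 2 0 2 (qsf 1239849684 370763052 0 536870912 2) ndF1q2b ndF4q0 pcF2 Cut.none Ext.none)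

def k0_pm_202_b : ∃ t, chk3 f_pm_202_b t 1 1 1 = true :=
  ⟨(b (a (l 4) (l 4)) (l 4)), by decide +kernel⟩

theorem c_pm_202_b : CertF 1239849684 370763052 0 536870912 67108864 67108864 true true false .pp 2 0 2
    ndF1q2b ndF4q0 pcF2 Cut.none Ext.none :=
  certFK0 (fam := true) (s1 := true) (s2 := false) (a := 2) (b := 0) (c := 2) (cn := .pp) (n1 := ndF1q2b) (n2 := ndF4q0) (pc := pcF2) (cut := Cut.none) (xt := Ext.none) (P1 := 1239849684) (W1 := 370763052) (P2 := 0) (W2 := 536870912) (P3 := 67108864) (W3 := 67108864)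
    rfl rfl rfl k0_pm_202_b

noncomputable def f_pm_203_a : ℕ → ℕ → ℕ → ℕ → Bool := onCell 0 536870912 1610612736 536870912 67108864 67108864
    (rowFK 1 true true false .up 2 0 3 (qsf 0 536870912 0 536870912 3) ndF1q2a ndF4q0 pcF3 Cut.none Ext.none)

def k0_pm_203_a : ∃ t, chk3 f_pm_203_a t 1 1 1 = true :=
  ⟨(a (l 4) (b (l 4) (l 2))), by decide +kernel⟩

theorem c_pm_203_a : CertF 0 536870912 0 536870912 67108864 67108864 true true false .up 2 0 3
    ndF1q2a ndF4q0 pcF3 Cut.none Ext.none :=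
  certFK1 (fam := true) (s1 := true) (s2 := false) (a := 2) (b := 0) (c := 3) (cn := .up) (n1 := ndF1q2a) (n2 := ndF4q0) (pc := pcF3) (cut := Cut.none) (xt := Ext.none) (P1 := 0) (W1 := 536870912) (P2 := 0) (W2 := 536870912) (P3 := 67108864) (W3 := 67108864)
    rfl rfl rfl (fun _ => rfl) k0_pm_203_a

noncomputable def f_pm_203_b : ℕ → ℕ → ℕ → ℕ → Bool := onCell 1239849684 370763052 1610612736 536870912 67108864 67108864
    (rowFK 1 true true false .up 2 0 3 (qsf 1239849684 370763052 0 536870912 3) ndF1q2b ndF4q0 pcF3 Cut.none Ext.none)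

def k0_pm_203_b : ∃ t, chk3 f_pm_203_b t 1 1 1 = true :=
  ⟨(l 4), by decide +kernel⟩

theorem c_pm_203_b : CertF 1239849684 370763052 0 536870912 67108864 67108864 true true false .up 2 0 3
    ndF1q2b ndF4q0 pcF3 Cut.none Ext.none :=
  certFK1 (fam := true) (s1 := true) (s2 := false) (a := 2) (b := 0) (c := 3) (cn := .up) (n1 := ndF1q2b) (n2 := ndF4q0) (pc := pcF3) (cut := Cut.none) (xt := Ext.none) (P1 := 1239849684) (W1 := 370763052) (P2 := 0) (W2 := 536870912) (P3 := 67108864) (W3 := 67108864)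
    rfl rfl rfl (fun _ => rfl) k0_pm_203_b

noncomputable def f_pm_213_a : ℕ → ℕ → ℕ → ℕ → Bool := onCell 0 536870912 536870912 536870912 67108864 67108864
    (rowFK 0 true true false .pnn 2 1 3 (qsf 0 536870912 536870912 536870912 3) ndF1q2a ndF4q1 pcF3 Cut.none Ext.none)

def k0_pm_213_a : ∃ t, chk3 f_pm_213_a t 1 1 1 = true :=
  ⟨(a (l 4) (b (l 4) (l 4))), by decide +kernel⟩

theorem c_pm_213_a : CertF 0 536870912 536870912 536870912 67108864 67108864 true true false .pnn 2 1 3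
    ndF1q2a ndF4q1 pcF3 Cut.none Ext.none :=
  certFK0 (fam := true) (s1 := true) (s2 := false) (a := 2) (b := 1) (c := 3) (cn := .pnn) (n1 := ndF1q2a) (n2 := ndF4q1) (pc := pcF3) (cut := Cut.none) (xt := Ext.none) (P1 := 0) (W1 := 536870912) (P2 := 536870912) (W2 := 536870912) (P3 := 67108864) (W3 := 67108864)
    rfl rfl rfl k0_pm_213_a

noncomputable def f_pm_213_b : ℕ → ℕ → ℕ → ℕ → Bool := onCell 1239849684 370763052 536870912 536870912 67108864 67108864
    (rowFK 0 true true false .pnn 2 1 3 (qsf 1239849684 370763052 536870912 536870912 3) ndF1q2b ndF4q1 pcF3 Cut.none Ext.none)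

def k0_pm_213_b : ∃ t, chk3 f_pm_213_b t 1 1 1 = true :=
  ⟨(l 4), by decide +kernel⟩

theorem c_pm_213_b : CertF 1239849684 370763052 536870912 536870912 67108864 67108864 true true false .pnn 2 1 3
    ndF1q2b ndF4q1 pcF3 Cut.none Ext.none :=
  certFK0 (fam := true) (s1 := true) (s2 := false) (a := 2) (b := 1) (c := 3) (cn := .pnn) (n1 := ndF1q2b) (n2 := ndF4q1) (pc := pcF3) (cut := Cut.none) (xt := Ext.none) (P1 := 1239849684) (W1 := 370763052) (P2 := 536870912) (W2 := 536870912) (P3 := 67108864) (W3 := 67108864)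
    rfl rfl rfl k0_pm_213_b

noncomputable def f_pm_303 : ℕ → ℕ → ℕ → ℕ → Bool := onCell 1610612736 536870912 0 536870912 67108864 67108864
    (rowFK 0 true true false .npn 3 0 3 (qsf 1610612736 536870912 0 536870912 3) ndF1q3 ndF4q0 pcF3 Cut.none Ext.none)

def k0_pm_303 : ∃ t, chk3 f_pm_303 t 1 1 1 = true :=
  ⟨(l 4), by decide +kernel⟩

theorem c_pm_303 : CertF 1610612736 536870912 0 536870912 67108864 67108864 true true false .npn 3 0 3
    ndF1q3 ndF4q0 pcF3 Cut.none Ext.none :=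
  certFK0 (fam := true) (s1 := true) (s2 := false) (a := 3) (b := 0) (c := 3) (cn := .npn) (n1 := ndF1q3) (n2 := ndF4q0) (pc := pcF3) (cut := Cut.none) (xt := Ext.none) (P1 := 1610612736) (W1 := 536870912) (P2 := 0) (W2 := 536870912) (P3 := 67108864) (W3 := 67108864)
    rfl rfl rfl k0_pm_303

noncomputable def f_pm_313 : ℕ → ℕ → ℕ → ℕ → Bool := onCell 1610612736 536870912 536870912 536870912 67108864 67108864
    (rowFK 0 true true false .dn 3 1 3 (qsf 1610612736 536870912 536870912 536870912 3) ndF1q3 ndF4q1 pcF3 Cut.none Ext.none)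

def k0_pm_313 : ∃ t, chk3 f_pm_313 t 1 1 1 = true :=
  ⟨(l 4), by decide +kernel⟩

theorem c_pm_313 : CertF 1610612736 536870912 536870912 536870912 67108864 67108864 true true false .dn 3 1 3
    ndF1q3 ndF4q1 pcF3 Cut.none Ext.none :=
  certFK0 (fam := true) (s1 := true) (s2 := false) (a := 3) (b := 1) (c := 3) (cn := .dn) (n1 := ndF1q3) (n2 := ndF4q1) (pc := pcF3) (cut := Cut.none) (xt := Ext.none) (P1 := 1610612736) (W1 := 536870912) (P2 := 536870912) (W2 := 536870912) (P3 := 67108864) (W3 := 67108864)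
    rfl rfl rfl k0_pm_313

noncomputable def f_mm_001 : ℕ → ℕ → ℕ → ℕ → Bool := onCell 0 536870912 0 536870912 67108864 67108864
    (rowFK 0 true false false .up 0 0 1 (qsf 0 536870912 0 536870912 1) ndF1q0 ndF4q0 pcF1 Cut.none Ext.none)

def k0_mm_001 : ∃ t, chk3 f_mm_001 t 1 1 1 = true :=
  ⟨(l 4), by decide +kernel⟩

theorem c_mm_001 : CertF 0 536870912 0 536870912 67108864 67108864 true false false .up 0 0 1
    ndF1q0 ndF4q0 pcF1 Cut.none Ext.none :=
  certFK0 (fam := true) (s1 := false) (s2 := false) (a := 0) (b := 0) (c := 1) (cn := .up) (n1 := ndF1q0) (n2 := ndF4q0) (pc := pcF1) (cut := Cut.none) (xt := Ext.none) (P1 := 0) (W1 := 536870912) (P2 := 0) (W2 := 536870912) (P3 := 67108864) (W3 := 67108864)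
    rfl rfl rfl k0_mm_001

noncomputable def f_mm_011 : ℕ → ℕ → ℕ → ℕ → Bool := onCell 0 536870912 536870912 536870912 67108864 67108864
    (rowFK 0 true false false .pnn 0 1 1 (qsf 0 536870912 536870912 536870912 1) ndF1q0 ndF4q1 pcF1 Cut.none Ext.none)

def k0_mm_011 : ∃ t, chk3 f_mm_011 t 1 1 1 = true :=
  ⟨(l 4), by decide +kernel⟩

theorem c_mm_011 : CertF 0 536870912 536870912 536870912 67108864 67108864 true false false .pnn 0 1 1
    ndF1q0 ndF4q1 pcF1 Cut.none Ext.none :=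
  certFK0 (fam := true) (s1 := false) (s2 := false) (a := 0) (b := 1) (c := 1) (cn := .pnn) (n1 := ndF1q0) (n2 := ndF4q1) (pc := pcF1) (cut := Cut.none) (xt := Ext.none) (P1 := 0) (W1 := 536870912) (P2 := 536870912) (W2 := 536870912) (P3 := 67108864) (W3 := 67108864)
    rfl rfl rfl k0_mm_011

noncomputable def f_mm_012 : ℕ → ℕ → ℕ → ℕ → Bool := onCell 0 536870912 536870912 536870912 67108864 67108864
    (rowFK 0 true false false .pnp 0 1 2 (qsf 0 536870912 536870912 536870912 2) ndF1q0 ndF4q1 pcF2 Cut.none Ext.none)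

def k0_mm_012 : ∃ t, chk3 f_mm_012 t 1 1 1 = true :=
  ⟨(l 4), by decide +kernel⟩

theorem c_mm_012 : CertF 0 536870912 536870912 536870912 67108864 67108864 true false false .pnp 0 1 2
    ndF1q0 ndF4q1 pcF2 Cut.none Ext.none :=
  certFK0 (fam := true) (s1 := false) (s2 := false) (a := 0) (b := 1) (c := 2) (cn := .pnp) (n1 := ndF1q0) (n2 := ndF4q1) (pc := pcF2) (cut := Cut.none) (xt := Ext.none) (P1 := 0) (W1 := 536870912) (P2 := 536870912) (W2 := 536870912) (P3 := 67108864) (W3 := 67108864)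
    rfl rfl rfl k0_mm_012

noncomputable def f_mm_022 : ℕ → ℕ → ℕ → ℕ → Bool := onCell 0 536870912 1073741824 536870912 67108864 67108864
    (rowFK 0 true false false .pp 0 2 2 (qsf 0 536870912 1073741824 536870912 2) ndF1q0 ndF4q2 pcF2 Cut.none Ext.none)

def k0_mm_022 : ∃ t, chk3 f_mm_022 t 1 1 1 = true :=
  ⟨(l 4), by decide +kernel⟩

theorem c_mm_022 : CertF 0 536870912 1073741824 536870912 67108864 67108864 true false false .pp 0 2 2
    ndF1q0 ndF4q2 pcF2 Cut.none Ext.none :=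
  certFK0 (fam := true) (s1 := false) (s2 := false) (a := 0) (b := 2) (c := 2) (cn := .pp) (n1 := ndF1q0) (n2 := ndF4q2) (pc := pcF2) (cut := Cut.none) (xt := Ext.none) (P1 := 0) (W1 := 536870912) (P2 := 1073741824) (W2 := 536870912) (P3 := 67108864) (W3 := 67108864)
    rfl rfl rfl k0_mm_022

noncomputable def f_mm_023 : ℕ → ℕ → ℕ → ℕ → Bool := onCell 0 536870912 1073741824 536870912 67108864 67108864
    (rowFK 0 true false false .up 0 2 3 (qsf 0 536870912 1073741824 536870912 3) ndF1q0 ndF4q2 pcF3 Cut.none Ext.none)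

def k0_mm_023 : ∃ t, chk3 f_mm_023 t 1 1 1 = true :=
  ⟨(l 4), by decide +kernel⟩

theorem c_mm_023 : CertF 0 536870912 1073741824 536870912 67108864 67108864 true false false .up 0 2 3
    ndF1q0 ndF4q2 pcF3 Cut.none Ext.none :=
  certFK0 (fam := true) (s1 := false) (s2 := false) (a := 0) (b := 2) (c := 3) (cn := .up) (n1 := ndF1q0) (n2 := ndF4q2) (pc := pcF3) (cut := Cut.none) (xt := Ext.none) (P1 := 0) (W1 := 536870912) (P2 := 1073741824) (W2 := 536870912) (P3 := 67108864) (W3 := 67108864)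
    rfl rfl rfl k0_mm_023

noncomputable def f_mm_033 : ℕ → ℕ → ℕ → ℕ → Bool := onCell 0 536870912 0 1230186008 67108864 67108864
    (rowFK 0 true false false .pnn 0 3 3 (qsf 0 536870912 0 1230186008 3) ndF1q0 ndF4q3 pcF3 Cut.none Ext.none)

def k0_mm_033 : ∃ t, chk3 f_mm_033 t 1 1 1 = true :=
  ⟨(l 4), by decide +kernel⟩

theorem c_mm_033 : CertF 0 536870912 0 1230186008 67108864 67108864 true false false .pnn 0 3 3
    ndF1q0 ndF4q3 pcF3 Cut.none Ext.none :=
  certFK0 (fam := true) (s1 := false) (s2 := false) (a := 0) (b := 3) (c := 3) (cn := .pnn) (n1 := ndF1q0) (n2 := ndF4q3) (pc := pcF3) (cut := Cut.none) (xt := Ext.none) (P1 := 0) (W1 := 536870912) (P2 := 0) (W2 := 1230186008) (P3 := 67108864) (W3 := 67108864)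
    rfl rfl rfl k0_mm_033

noncomputable def f_mm_101 : ℕ → ℕ → ℕ → ℕ → Bool := onCell 536870912 536870912 0 536870912 67108864 67108864
    (rowFK 0 true false false .npn 1 0 1 (qsf 536870912 536870912 0 536870912 1) ndF1q1 ndF4q0 pcF1 Cut.none Ext.none)

def k0_mm_101 : ∃ t, chk3 f_mm_101 t 1 1 1 = true :=
  ⟨(l 4), by decide +kernel⟩

theorem c_mm_101 : CertF 536870912 536870912 0 536870912 67108864 67108864 true false false .npn 1 0 1
    ndF1q1 ndF4q0 pcF1 Cut.none Ext.none :=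
  certFK0 (fam := true) (s1 := false) (s2 := false) (a := 1) (b := 0) (c := 1) (cn := .npn) (n1 := ndF1q1) (n2 := ndF4q0) (pc := pcF1) (cut := Cut.none) (xt := Ext.none) (P1 := 536870912) (W1 := 536870912) (P2 := 0) (W2 := 536870912) (P3 := 67108864) (W3 := 67108864)
    rfl rfl rfl k0_mm_101

noncomputable def f_mm_102 : ℕ → ℕ → ℕ → ℕ → Bool := onCell 536870912 536870912 0 536870912 67108864 67108864
    (rowFK 0 true false false .npp 1 0 2 (qsf 536870912 536870912 0 536870912 2) ndF1q1 ndF4q0 pcF2 Cut.none Ext.none)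

def k0_mm_102 : ∃ t, chk3 f_mm_102 t 1 1 1 = true :=
  ⟨(l 4), by decide +kernel⟩

theorem c_mm_102 : CertF 536870912 536870912 0 536870912 67108864 67108864 true false false .npp 1 0 2
    ndF1q1 ndF4q0 pcF2 Cut.none Ext.none :=
  certFK0 (fam := true) (s1 := false) (s2 := false) (a := 1) (b := 0) (c := 2) (cn := .npp) (n1 := ndF1q1) (n2 := ndF4q0) (pc := pcF2) (cut := Cut.none) (xt := Ext.none) (P1 := 536870912) (W1 := 536870912) (P2 := 0) (W2 := 536870912) (P3 := 67108864) (W3 := 67108864)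
    rfl rfl rfl k0_mm_102

noncomputable def f_mm_112 : ℕ → ℕ → ℕ → ℕ → Bool := onCell 536870912 536870912 536870912 536870912 67108864 67108864
    (rowFK 0 true false false .dn 1 1 2 (qsf 536870912 536870912 536870912 536870912 2) ndF1q1 ndF4q1 pcF2 Cut.none Ext.none)

def k0_mm_112 : ∃ t, chk3 f_mm_112 t 1 1 1 = true :=
  ⟨(l 4), by decide +kernel⟩

theorem c_mm_112 : CertF 536870912 536870912 536870912 536870912 67108864 67108864 true false false .dn 1 1 2
    ndF1q1 ndF4q1 pcF2 Cut.none Ext.none :=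
  certFK0 (fam := true) (s1 := false) (s2 := false) (a := 1) (b := 1) (c := 2) (cn := .dn) (n1 := ndF1q1) (n2 := ndF4q1) (pc := pcF2) (cut := Cut.none) (xt := Ext.none) (P1 := 536870912) (W1 := 536870912) (P2 := 536870912) (W2 := 536870912) (P3 := 67108864) (W3 := 67108864)
    rfl rfl rfl k0_mm_112

noncomputable def f_mm_113 : ℕ → ℕ → ℕ → ℕ → Bool := onCell 536870912 536870912 536870912 536870912 67108864 67108864
    (rowFK 0 true false false .nn 1 1 3 (qsf 536870912 536870912 536870912 536870912 3) ndF1q1 ndF4q1 pcF3 Cut.none Ext.none)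

def k0_mm_113 : ∃ t, chk3 f_mm_113 t 1 1 1 = true :=
  ⟨(l 4), by decide +kernel⟩

theorem c_mm_113 : CertF 536870912 536870912 536870912 536870912 67108864 67108864 true false false .nn 1 1 3
    ndF1q1 ndF4q1 pcF3 Cut.none Ext.none :=
  certFK0 (fam := true) (s1 := false) (s2 := false) (a := 1) (b := 1) (c := 3) (cn := .nn) (n1 := ndF1q1) (n2 := ndF4q1) (pc := pcF3) (cut := Cut.none) (xt := Ext.none) (P1 := 536870912) (W1 := 536870912) (P2 := 536870912) (W2 := 536870912) (P3 := 67108864) (W3 := 67108864)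
    rfl rfl rfl k0_mm_113

noncomputable def f_mm_123 : ℕ → ℕ → ℕ → ℕ → Bool := onCell 536870912 536870912 1073741824 536870912 67108864 67108864
    (rowFK 0 true false false .npn 1 2 3 (qsf 536870912 536870912 1073741824 536870912 3) ndF1q1 ndF4q2 pcF3 Cut.none Ext.none)

def k0_mm_123 : ∃ t, chk3 f_mm_123 t 1 1 1 = true :=
  ⟨(l 4), by decide +kernel⟩

theorem c_mm_123 : CertF 536870912 536870912 1073741824 536870912 67108864 67108864 true false false .npn 1 2 3
    ndF1q1 ndF4q2 pcF3 Cut.none Ext.none :=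
  certFK0 (fam := true) (s1 := false) (s2 := false) (a := 1) (b := 2) (c := 3) (cn := .npn) (n1 := ndF1q1) (n2 := ndF4q2) (pc := pcF3) (cut := Cut.none) (xt := Ext.none) (P1 := 536870912) (W1 := 536870912) (P2 := 1073741824) (W2 := 536870912) (P3 := 67108864) (W3 := 67108864)
    rfl rfl rfl k0_mm_123

noncomputable def f_mm_133 : ℕ → ℕ → ℕ → ℕ → Bool := onCell 536870912 536870912 0 1230186008 67108864 67108864
    (rowFK 0 true false false .dn 1 3 3 (qsf 536870912 536870912 0 1230186008 3) ndF1q1 ndF4q3 pcF3 Cut.none Ext.none)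

def k0_mm_133 : ∃ t, chk3 f_mm_133 t 1 1 1 = true :=
  ⟨(l 4), by decide +kernel⟩

theorem c_mm_133 : CertF 536870912 536870912 0 1230186008 67108864 67108864 true false false .dn 1 3 3
    ndF1q1 ndF4q3 pcF3 Cut.none Ext.none :=
  certFK0 (fam := true) (s1 := false) (s2 := false) (a := 1) (b := 3) (c := 3) (cn := .dn) (n1 := ndF1q1) (n2 := ndF4q3) (pc := pcF3) (cut := Cut.none) (xt := Ext.none) (P1 := 536870912) (W1 := 536870912) (P2 := 0) (W2 := 1230186008) (P3 := 67108864) (W3 := 67108864)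
    rfl rfl rfl k0_mm_133

noncomputable def f_mm_202_a : ℕ → ℕ → ℕ → ℕ → Bool := onCell 0 536870912 0 536870912 67108864 67108864
    (rowFK 0 true false false .pp 2 0 2 (qsf 0 536870912 0 536870912 2) ndF1q2a ndF4q0 pcF2 Cut.none Ext.none)

def k0_mm_202_a : ∃ t, chk3 f_mm_202_a t 1 1 1 = true :=
  ⟨(l 4), by decide +kernel⟩

theorem c_mm_202_a : CertF 0 536870912 0 536870912 67108864 67108864 true false false .pp 2 0 2
    ndF1q2a ndF4q0 pcF2 Cut.none Ext.none :=
  certFK0 (fam := true) (s1 := false) (s2 := false) (a := 2) (b := 0) (c := 2) (cn := .pp) (n1 := ndF1q2a) (n2 := ndF4q0) (pc := pcF2) (cut := Cut.none) (xt := Ext.none) (P1 := 0) (W1 := 536870912) (P2 := 0) (W2 := 536870912) (P3 := 67108864) (W3 := 67108864)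
    rfl rfl rfl k0_mm_202_a

noncomputable def f_mm_202_b : ℕ → ℕ → ℕ → ℕ → Bool := onCell 1239849684 370763052 0 536870912 67108864 67108864
    (rowFK 0 true false false .pp 2 0 2 (qsf 1239849684 370763052 0 536870912 2) ndF1q2b ndF4q0 pcF2 Cut.none Ext.none)

def k0_mm_202_b : ∃ t, chk3 f_mm_202_b t 1 1 1 = true :=
  ⟨(l 4), by decide +kernel⟩

theorem c_mm_202_b : CertF 1239849684 370763052 0 536870912 67108864 67108864 true false false .pp 2 0 2
    ndF1q2b ndF4q0 pcF2 Cut.none Ext.none :=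
  certFK0 (fam := true) (s1 := false) (s2 := false) (a := 2) (b := 0) (c := 2) (cn := .pp) (n1 := ndF1q2b) (n2 := ndF4q0) (pc := pcF2) (cut := Cut.none) (xt := Ext.none) (P1 := 1239849684) (W1 := 370763052) (P2 := 0) (W2 := 536870912) (P3 := 67108864) (W3 := 67108864)
    rfl rfl rfl k0_mm_202_b

noncomputable def f_mm_203_a : ℕ → ℕ → ℕ → ℕ → Bool := onCell 0 536870912 0 536870912 67108864 67108864
    (rowFK 0 true false false .up 2 0 3 (qsf 0 536870912 0 536870912 3) ndF1q2a ndF4q0 pcF3 Cut.none Ext.none)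

def k0_mm_203_a : ∃ t, chk3 f_mm_203_a t 1 1 1 = true :=
  ⟨(l 4), by decide +kernel⟩

theorem c_mm_203_a : CertF 0 536870912 0 536870912 67108864 67108864 true false false .up 2 0 3
    ndF1q2a ndF4q0 pcF3 Cut.none Ext.none :=
  certFK0 (fam := true) (s1 := false) (s2 := false) (a := 2) (b := 0) (c := 3) (cn := .up) (n1 := ndF1q2a) (n2 := ndF4q0) (pc := pcF3) (cut := Cut.none) (xt := Ext.none) (P1 := 0) (W1 := 536870912) (P2 := 0) (W2 := 536870912) (P3 := 67108864) (W3 := 67108864)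
    rfl rfl rfl k0_mm_203_a

noncomputable def f_mm_203_b : ℕ → ℕ → ℕ → ℕ → Bool := onCell 1239849684 370763052 0 536870912 67108864 67108864
    (rowFK 0 true false false .up 2 0 3 (qsf 1239849684 370763052 0 536870912 3) ndF1q2b ndF4q0 pcF3 Cut.none Ext.none)

def k0_mm_203_b : ∃ t, chk3 f_mm_203_b t 1 1 1 = true :=
  ⟨(l 4), by decide +kernel⟩

theorem c_mm_203_b : CertF 1239849684 370763052 0 536870912 67108864 67108864 true false false .up 2 0 3
    ndF1q2b ndF4q0 pcF3 Cut.none Ext.none :=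
  certFK0 (fam := true) (s1 := false) (s2 := false) (a := 2) (b := 0) (c := 3) (cn := .up) (n1 := ndF1q2b) (n2 := ndF4q0) (pc := pcF3) (cut := Cut.none) (xt := Ext.none) (P1 := 1239849684) (W1 := 370763052) (P2 := 0) (W2 := 536870912) (P3 := 67108864) (W3 := 67108864)
    rfl rfl rfl k0_mm_203_b

noncomputable def f_mm_213_a : ℕ → ℕ → ℕ → ℕ → Bool := onCell 0 536870912 536870912 536870912 67108864 67108864
    (rowFK 0 true false false .pnn 2 1 3 (qsf 0 536870912 536870912 536870912 3) ndF1q2a ndF4q1 pcF3 Cut.none Ext.none)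

def k0_mm_213_a : ∃ t, chk3 f_mm_213_a t 1 1 1 = true :=
  ⟨(l 4), by decide +kernel⟩

theorem c_mm_213_a : CertF 0 536870912 536870912 536870912 67108864 67108864 true false false .pnn 2 1 3
    ndF1q2a ndF4q1 pcF3 Cut.none Ext.none :=
  certFK0 (fam := true) (s1 := false) (s2 := false) (a := 2) (b := 1) (c := 3) (cn := .pnn) (n1 := ndF1q2a) (n2 := ndF4q1) (pc := pcF3) (cut := Cut.none) (xt := Ext.none) (P1 := 0) (W1 := 536870912) (P2 := 536870912) (W2 := 536870912) (P3 := 67108864) (W3 := 67108864)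
    rfl rfl rfl k0_mm_213_a

noncomputable def f_mm_213_b : ℕ → ℕ → ℕ → ℕ → Bool := onCell 1239849684 370763052 536870912 536870912 67108864 67108864
    (rowFK 0 true false false .pnn 2 1 3 (qsf 1239849684 370763052 536870912 536870912 3) ndF1q2b ndF4q1 pcF3 Cut.none Ext.none)

def k0_mm_213_b : ∃ t, chk3 f_mm_213_b t 1 1 1 = true :=
  ⟨(l 4), by decide +kernel⟩

theorem c_mm_213_b : CertF 1239849684 370763052 536870912 536870912 67108864 67108864 true false false .pnn 2 1 3
    ndF1q2b ndF4q1 pcF3 Cut.none Ext.none :=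
  certFK0 (fam := true) (s1 := false) (s2 := false) (a := 2) (b := 1) (c := 3) (cn := .pnn) (n1 := ndF1q2b) (n2 := ndF4q1) (pc := pcF3) (cut := Cut.none) (xt := Ext.none) (P1 := 1239849684) (W1 := 370763052) (P2 := 536870912) (W2 := 536870912) (P3 := 67108864) (W3 := 67108864)
    rfl rfl rfl k0_mm_213_b

noncomputable def f_mm_303 : ℕ → ℕ → ℕ → ℕ → Bool := onCell 1610612736 536870912 0 536870912 67108864 67108864
    (rowFK 0 true false false .npn 3 0 3 (qsf 1610612736 536870912 0 536870912 3) ndF1q3 ndF4q0 pcF3 Cut.none Ext.none)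

def k0_mm_303 : ∃ t, chk3 f_mm_303 t 1 1 1 = true :=
  ⟨(l 4), by decide +kernel⟩

theorem c_mm_303 : CertF 1610612736 536870912 0 536870912 67108864 67108864 true false false .npn 3 0 3
    ndF1q3 ndF4q0 pcF3 Cut.none Ext.none :=
  certFK0 (fam := true) (s1 := false) (s2 := false) (a := 3) (b := 0) (c := 3) (cn := .npn) (n1 := ndF1q3) (n2 := ndF4q0) (pc := pcF3) (cut := Cut.none) (xt := Ext.none) (P1 := 1610612736) (W1 := 536870912) (P2 := 0) (W2 := 536870912) (P3 := 67108864) (W3 := 67108864)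
    rfl rfl rfl k0_mm_303

noncomputable def f_mm_313 : ℕ → ℕ → ℕ → ℕ → Bool := onCell 1610612736 536870912 536870912 536870912 67108864 67108864
    (rowFK 0 true false false .dn 3 1 3 (qsf 1610612736 536870912 536870912 536870912 3) ndF1q3 ndF4q1 pcF3 Cut.none Ext.none)

def k0_mm_313 : ∃ t, chk3 f_mm_313 t 1 1 1 = true :=
  ⟨(l 4), by decide +kernel⟩

theorem c_mm_313 : CertF 1610612736 536870912 536870912 536870912 67108864 67108864 true false false .dn 3 1 3
    ndF1q3 ndF4q1 pcF3 Cut.none Ext.none :=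
  certFK0 (fam := true) (s1 := false) (s2 := false) (a := 3) (b := 1) (c := 3) (cn := .dn) (n1 := ndF1q3) (n2 := ndF4q1) (pc := pcF3) (cut := Cut.none) (xt := Ext.none) (P1 := 1610612736) (W1 := 536870912) (P2 := 536870912) (W2 := 536870912) (P3 := 67108864) (W3 := 67108864)
    rfl rfl rfl k0_mm_313

end Pool.Agent.Strip051.G.I1_16_1_8.Tab.C.FA14

namespace Pool.Agent.Strip051.G.I1_16_1_8.Tab.C.FA22

open Pool.Agent.Strip051.PB Pool.Agent.Strip051.PB.T
open Pool.Agent.Strip051.G.I1_16_1_8.Tab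

noncomputable def f_pp_001 : ℕ → ℕ → ℕ → ℕ → Bool := onCell 0 536870912 0 536870912 67108864 67108864
    (rowFK 0 true true true .up 0 0 1 (qsf 0 536870912 0 536870912 1) ndF2q0 ndF2q0 pcF1 Cut.none Ext.none)

def k0_pp_001 : ∃ t, chk3 f_pp_001 t 1 1 1 = true :=
  ⟨(l 4), by decide +kernel⟩

theorem c_pp_001 : CertF 0 536870912 0 536870912 67108864 67108864 true true true .up 0 0 1
    ndF2q0 ndF2q0 pcF1 Cut.none Ext.none :=
  certFK0 (fam := true) (s1 := true) (s2 := true) (a := 0) (b := 0) (c := 1) (cn := .up) (n1 := ndF2q0) (n2 := ndF2q0) (pc := pcF1) (cut := Cut.none) (xt := Ext.none) (P1 := 0) (W1 := 536870912) (P2 := 0) (W2 := 536870912) (P3 := 67108864) (W3 := 67108864)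
    rfl rfl rfl k0_pp_001

noncomputable def f_pp_011 : ℕ → ℕ → ℕ → ℕ → Bool := onCell 0 536870912 536870912 536870912 67108864 67108864
    (rowFK 0 true true true .pnn 0 1 1 (qsf 0 536870912 536870912 536870912 1) ndF2q0 ndF2q1 pcF1 Cut.none Ext.none)

def k0_pp_011 : ∃ t, chk3 f_pp_011 t 1 1 1 = true :=
  ⟨(l 4), by decide +kernel⟩

theorem c_pp_011 : CertF 0 536870912 536870912 536870912 67108864 67108864 true true true .pnn 0 1 1
    ndF2q0 ndF2q1 pcF1 Cut.none Ext.none :=
  certFK0 (fam := true) (s1 := true) (s2 := true) (a := 0) (b := 1) (c := 1) (cn := .pnn) (n1 := ndF2q0) (n2 := ndF2q1) (pc := pcF1) (cut := Cut.none) (xt := Ext.none) (P1 := 0) (W1 := 536870912) (P2 := 536870912) (W2 := 536870912) (P3 := 67108864) (W3 := 67108864)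
    rfl rfl rfl k0_pp_011

noncomputable def f_pp_012 : ℕ → ℕ → ℕ → ℕ → Bool := onCell 0 536870912 536870912 536870912 67108864 67108864
    (rowFK 0 true true true .pnp 0 1 2 (qsf 0 536870912 536870912 536870912 2) ndF2q0 ndF2q1 pcF2 Cut.none Ext.none)

def k0_pp_012 : ∃ t, chk3 f_pp_012 t 1 1 1 = true :=
  ⟨(l 4), by decide +kernel⟩

theorem c_pp_012 : CertF 0 536870912 536870912 536870912 67108864 67108864 true true true .pnp 0 1 2
    ndF2q0 ndF2q1 pcF2 Cut.none Ext.none :=
  certFK0 (fam := true) (s1 := true) (s2 := true) (a := 0) (b := 1) (c := 2) (cn := .pnp) (n1 := ndF2q0) (n2 := ndF2q1) (pc := pcF2) (cut := Cut.none) (xt := Ext.none) (P1 := 0) (W1 := 536870912) (P2 := 536870912) (W2 := 536870912) (P3 := 67108864) (W3 := 67108864)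
    rfl rfl rfl k0_pp_012

noncomputable def cut_pp_022_a : Cut := Cut.of [[⟨0, 0, 0, 67108864⟩, ⟨1, 1, 0, 67108864⟩, ⟨2, 1, 0, 67108864⟩]]

noncomputable def f_pp_022_a : ℕ → ℕ → ℕ → ℕ → Bool := onCell 0 536870912 0 536870912 67108864 67108864
    (rowFK 0 true true true .pp 0 2 2 (qsf 0 536870912 0 536870912 2) ndF2q0 ndF2q2a pcF2 cut_pp_022_a Ext.none)

def k0_pp_022_a : ∃ t, chk3 f_pp_022_a t 1 1 1 = true :=
  ⟨(a (b (l 4) (a (b (l 4) (b (l 4) (a (a (b (l 4) (l 6)) (l 4)) (l 4)))) (l 4))) (l 4)), by decide +kernel⟩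

theorem c_pp_022_a : CertF 0 536870912 0 536870912 67108864 67108864 true true true .pp 0 2 2
    ndF2q0 ndF2q2a pcF2 cut_pp_022_a Ext.none :=
  certFK0 (fam := true) (s1 := true) (s2 := true) (a := 0) (b := 2) (c := 2) (cn := .pp) (n1 := ndF2q0) (n2 := ndF2q2a) (pc := pcF2) (cut := cut_pp_022_a) (xt := Ext.none) (P1 := 0) (W1 := 536870912) (P2 := 0) (W2 := 536870912) (P3 := 67108864) (W3 := 67108864)
    rfl rfl rfl k0_pp_022_a

noncomputable def cut_pp_022_b : Cut := Cut.of [[⟨0, 0, 0, 67108864⟩, ⟨1, 1, 0, 67108864⟩, ⟨2, 1, 0, 67108864⟩]]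

noncomputable def f_pp_022_b : ℕ → ℕ → ℕ → ℕ → Bool := onCell 0 536870912 1239849684 370763052 67108864 67108864
    (rowFK 0 true true true .pp 0 2 2 (qsf 0 536870912 1239849684 370763052 2) ndF2q0 ndF2q2b pcF2 cut_pp_022_b Ext.none)

def k0_pp_022_b : ∃ t, chk3 f_pp_022_b t 1 1 1 = true :=
  ⟨(a (l 4) (l 4)), by decide +kernel⟩

theorem c_pp_022_b : CertF 0 536870912 1239849684 370763052 67108864 67108864 true true true .pp 0 2 2
    ndF2q0 ndF2q2b pcF2 cut_pp_022_b Ext.none :=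
  certFK0 (fam := true) (s1 := true) (s2 := true) (a := 0) (b := 2) (c := 2) (cn := .pp) (n1 := ndF2q0) (n2 := ndF2q2b) (pc := pcF2) (cut := cut_pp_022_b) (xt := Ext.none) (P1 := 0) (W1 := 536870912) (P2 := 1239849684) (W2 := 370763052) (P3 := 67108864) (W3 := 67108864)
    rfl rfl rfl k0_pp_022_b

noncomputable def f_pp_023_a : ℕ → ℕ → ℕ → ℕ → Bool := onCell 1610612736 536870912 0 536870912 67108864 67108864
    (rowFK 2 true true true .up 0 2 3 (qsf 0 536870912 0 536870912 3) ndF2q0 ndF2q2a pcF3 Cut.none Ext.none)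

def k0_pp_023_a : ∃ t, chk3 f_pp_023_a t 1 1 1 = true :=
  ⟨(l 4), by decide +kernel⟩

theorem c_pp_023_a : CertF 0 536870912 0 536870912 67108864 67108864 true true true .up 0 2 3
    ndF2q0 ndF2q2a pcF3 Cut.none Ext.none :=
  certFK2 (fam := true) (s1 := true) (s2 := true) (a := 0) (b := 2) (c := 3) (cn := .up) (n1 := ndF2q0) (n2 := ndF2q2a) (pc := pcF3) (cut := Cut.none) (xt := Ext.none) (P1 := 0) (W1 := 536870912) (P2 := 0) (W2 := 536870912) (P3 := 67108864) (W3 := 67108864)
    rfl rfl rfl (fun _ => rfl) k0_pp_023_a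

noncomputable def f_pp_023_b : ℕ → ℕ → ℕ → ℕ → Bool := onCell 1610612736 536870912 1239849684 370763052 67108864 67108864
    (rowFK 2 true true true .up 0 2 3 (qsf 0 536870912 1239849684 370763052 3) ndF2q0 ndF2q2b pcF3 Cut.none Ext.none)

def k0_pp_023_b : ∃ t, chk3 f_pp_023_b t 1 1 1 = true :=
  ⟨(l 4), by decide +kernel⟩

theorem c_pp_023_b : CertF 0 536870912 1239849684 370763052 67108864 67108864 true true true .up 0 2 3
    ndF2q0 ndF2q2b pcF3 Cut.none Ext.none :=
  certFK2 (fam := true) (s1 := true) (s2 := true) (a := 0) (b := 2) (c := 3) (cn := .up) (n1 := ndF2q0) (n2 := ndF2q2b) (pc := pcF3) (cut := Cut.none) (xt := Ext.none) (P1 := 0) (W1 := 536870912) (P2 := 1239849684) (W2 := 370763052) (P3 := 67108864) (W3 := 67108864)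
    rfl rfl rfl (fun _ => rfl) k0_pp_023_b

noncomputable def f_pp_033 : ℕ → ℕ → ℕ → ℕ → Bool := onCell 0 536870912 1610612736 536870912 67108864 67108864
    (rowFK 0 true true true .pnn 0 3 3 (qsf 0 536870912 1610612736 536870912 3) ndF2q0 ndF2q3 pcF3 Cut.none Ext.none)

def k0_pp_033 : ∃ t, chk3 f_pp_033 t 1 1 1 = true :=
  ⟨(l 4), by decide +kernel⟩

theorem c_pp_033 : CertF 0 536870912 1610612736 536870912 67108864 67108864 true true true .pnn 0 3 3
    ndF2q0 ndF2q3 pcF3 Cut.none Ext.none :=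
  certFK0 (fam := true) (s1 := true) (s2 := true) (a := 0) (b := 3) (c := 3) (cn := .pnn) (n1 := ndF2q0) (n2 := ndF2q3) (pc := pcF3) (cut := Cut.none) (xt := Ext.none) (P1 := 0) (W1 := 536870912) (P2 := 1610612736) (W2 := 536870912) (P3 := 67108864) (W3 := 67108864)
    rfl rfl rfl k0_pp_033

noncomputable def f_pp_101 : ℕ → ℕ → ℕ → ℕ → Bool := onCell 536870912 536870912 0 536870912 67108864 67108864
    (rowFK 0 true true true .npn 1 0 1 (qsf 536870912 536870912 0 536870912 1) ndF2q1 ndF2q0 pcF1 Cut.none Ext.none)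

def k0_pp_101 : ∃ t, chk3 f_pp_101 t 1 1 1 = true :=
  ⟨(l 4), by decide +kernel⟩

theorem c_pp_101 : CertF 536870912 536870912 0 536870912 67108864 67108864 true true true .npn 1 0 1
    ndF2q1 ndF2q0 pcF1 Cut.none Ext.none :=
  certFK0 (fam := true) (s1 := true) (s2 := true) (a := 1) (b := 0) (c := 1) (cn := .npn) (n1 := ndF2q1) (n2 := ndF2q0) (pc := pcF1) (cut := Cut.none) (xt := Ext.none) (P1 := 536870912) (W1 := 536870912) (P2 := 0) (W2 := 536870912) (P3 := 67108864) (W3 := 67108864)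
    rfl rfl rfl k0_pp_101

noncomputable def f_pp_102 : ℕ → ℕ → ℕ → ℕ → Bool := onCell 536870912 536870912 0 536870912 67108864 67108864
    (rowFK 0 true true true .npp 1 0 2 (qsf 536870912 536870912 0 536870912 2) ndF2q1 ndF2q0 pcF2 Cut.none Ext.none)

def k0_pp_102 : ∃ t, chk3 f_pp_102 t 1 1 1 = true :=
  ⟨(l 4), by decide +kernel⟩

theorem c_pp_102 : CertF 536870912 536870912 0 536870912 67108864 67108864 true true true .npp 1 0 2
    ndF2q1 ndF2q0 pcF2 Cut.none Ext.none :=
  certFK0 (fam := true) (s1 := true) (s2 := true) (a := 1) (b := 0) (c := 2) (cn := .npp) (n1 := ndF2q1) (n2 := ndF2q0) (pc := pcF2) (cut := Cut.none) (xt := Ext.none) (P1 := 536870912) (W1 := 536870912) (P2 := 0) (W2 := 536870912) (P3 := 67108864) (W3 := 67108864)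
    rfl rfl rfl k0_pp_102

noncomputable def f_pp_112 : ℕ → ℕ → ℕ → ℕ → Bool := onCell 536870912 536870912 536870912 536870912 67108864 67108864
    (rowFK 0 true true true .dn 1 1 2 (qsf 536870912 536870912 536870912 536870912 2) ndF2q1 ndF2q1 pcF2 Cut.none Ext.none)

def k0_pp_112 : ∃ t, chk3 f_pp_112 t 1 1 1 = true :=
  ⟨(l 4), by decide +kernel⟩

theorem c_pp_112 : CertF 536870912 536870912 536870912 536870912 67108864 67108864 true true true .dn 1 1 2
    ndF2q1 ndF2q1 pcF2 Cut.none Ext.none :=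
  certFK0 (fam := true) (s1 := true) (s2 := true) (a := 1) (b := 1) (c := 2) (cn := .dn) (n1 := ndF2q1) (n2 := ndF2q1) (pc := pcF2) (cut := Cut.none) (xt := Ext.none) (P1 := 536870912) (W1 := 536870912) (P2 := 536870912) (W2 := 536870912) (P3 := 67108864) (W3 := 67108864)
    rfl rfl rfl k0_pp_112

noncomputable def f_pp_113 : ℕ → ℕ → ℕ → ℕ → Bool := onCell 536870912 536870912 536870912 536870912 67108864 67108864
    (rowFK 0 true true true .nn 1 1 3 (qsf 536870912 536870912 536870912 536870912 3) ndF2q1 ndF2q1 pcF3 Cut.none Ext.none)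

def k0_pp_113 : ∃ t, chk3 f_pp_113 t 1 1 1 = true :=
  ⟨(l 4), by decide +kernel⟩

theorem c_pp_113 : CertF 536870912 536870912 536870912 536870912 67108864 67108864 true true true .nn 1 1 3
    ndF2q1 ndF2q1 pcF3 Cut.none Ext.none :=
  certFK0 (fam := true) (s1 := true) (s2 := true) (a := 1) (b := 1) (c := 3) (cn := .nn) (n1 := ndF2q1) (n2 := ndF2q1) (pc := pcF3) (cut := Cut.none) (xt := Ext.none) (P1 := 536870912) (W1 := 536870912) (P2 := 536870912) (W2 := 536870912) (P3 := 67108864) (W3 := 67108864)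
    rfl rfl rfl k0_pp_113

noncomputable def f_pp_123_a : ℕ → ℕ → ℕ → ℕ → Bool := onCell 536870912 536870912 0 536870912 67108864 67108864
    (rowFK 0 true true true .npn 1 2 3 (qsf 536870912 536870912 0 536870912 3) ndF2q1 ndF2q2a pcF3 Cut.none Ext.none)

def k0_pp_123_a : ∃ t, chk3 f_pp_123_a t 1 1 1 = true :=
  ⟨(l 4), by decide +kernel⟩

theorem c_pp_123_a : CertF 536870912 536870912 0 536870912 67108864 67108864 true true true .npn 1 2 3
    ndF2q1 ndF2q2a pcF3 Cut.none Ext.none :=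
  certFK0 (fam := true) (s1 := true) (s2 := true) (a := 1) (b := 2) (c := 3) (cn := .npn) (n1 := ndF2q1) (n2 := ndF2q2a) (pc := pcF3) (cut := Cut.none) (xt := Ext.none) (P1 := 536870912) (W1 := 536870912) (P2 := 0) (W2 := 536870912) (P3 := 67108864) (W3 := 67108864)
    rfl rfl rfl k0_pp_123_a

noncomputable def f_pp_123_b : ℕ → ℕ → ℕ → ℕ → Bool := onCell 536870912 536870912 1239849684 370763052 67108864 67108864
    (rowFK 0 true true true .npn 1 2 3 (qsf 536870912 536870912 1239849684 370763052 3) ndF2q1 ndF2q2b pcF3 Cut.none Ext.none)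

def k0_pp_123_b : ∃ t, chk3 f_pp_123_b t 1 1 1 = true :=
  ⟨(l 4), by decide +kernel⟩

theorem c_pp_123_b : CertF 536870912 536870912 1239849684 370763052 67108864 67108864 true true true .npn 1 2 3
    ndF2q1 ndF2q2b pcF3 Cut.none Ext.none :=
  certFK0 (fam := true) (s1 := true) (s2 := true) (a := 1) (b := 2) (c := 3) (cn := .npn) (n1 := ndF2q1) (n2 := ndF2q2b) (pc := pcF3) (cut := Cut.none) (xt := Ext.none) (P1 := 536870912) (W1 := 536870912) (P2 := 1239849684) (W2 := 370763052) (P3 := 67108864) (W3 := 67108864)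
    rfl rfl rfl k0_pp_123_b

noncomputable def f_pp_133 : ℕ → ℕ → ℕ → ℕ → Bool := onCell 536870912 536870912 1610612736 536870912 67108864 67108864
    (rowFK 0 true true true .dn 1 3 3 (qsf 536870912 536870912 1610612736 536870912 3) ndF2q1 ndF2q3 pcF3 Cut.none Ext.none)

def k0_pp_133 : ∃ t, chk3 f_pp_133 t 1 1 1 = true :=
  ⟨(l 4), by decide +kernel⟩

theorem c_pp_133 : CertF 536870912 536870912 1610612736 536870912 67108864 67108864 true true true .dn 1 3 3
    ndF2q1 ndF2q3 pcF3 Cut.none Ext.none :=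
  certFK0 (fam := true) (s1 := true) (s2 := true) (a := 1) (b := 3) (c := 3) (cn := .dn) (n1 := ndF2q1) (n2 := ndF2q3) (pc := pcF3) (cut := Cut.none) (xt := Ext.none) (P1 := 536870912) (W1 := 536870912) (P2 := 1610612736) (W2 := 536870912) (P3 := 67108864) (W3 := 67108864)
    rfl rfl rfl k0_pp_133

noncomputable def f_pp_202_a : ℕ → ℕ → ℕ → ℕ → Bool := onCell 0 536870912 0 536870912 67108864 67108864
    (rowFK 0 true true true .pp 2 0 2 (qsf 0 536870912 0 536870912 2) ndF2q2a ndF2q0 pcF2 Cut.none Ext.none)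

def k0_pp_202_a : ∃ t, chk3 f_pp_202_a t 1 1 1 = true :=
  ⟨(l 5), by decide +kernel⟩

theorem c_pp_202_a : CertF 0 536870912 0 536870912 67108864 67108864 true true true .pp 2 0 2
    ndF2q2a ndF2q0 pcF2 Cut.none Ext.none :=
  certFK0 (fam := true) (s1 := true) (s2 := true) (a := 2) (b := 0) (c := 2) (cn := .pp) (n1 := ndF2q2a) (n2 := ndF2q0) (pc := pcF2) (cut := Cut.none) (xt := Ext.none) (P1 := 0) (W1 := 536870912) (P2 := 0) (W2 := 536870912) (P3 := 67108864) (W3 := 67108864)
    rfl rfl rfl k0_pp_202_a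

noncomputable def f_pp_202_b : ℕ → ℕ → ℕ → ℕ → Bool := onCell 1239849684 370763052 0 536870912 67108864 67108864
    (rowFK 0 true true true .pp 2 0 2 (qsf 1239849684 370763052 0 536870912 2) ndF2q2b ndF2q0 pcF2 Cut.none Ext.none)

def k0_pp_202_b : ∃ t, chk3 f_pp_202_b t 1 1 1 = true :=
  ⟨(l 5), by decide +kernel⟩

theorem c_pp_202_b : CertF 1239849684 370763052 0 536870912 67108864 67108864 true true true .pp 2 0 2
    ndF2q2b ndF2q0 pcF2 Cut.none Ext.none :=
  certFK0 (fam := true) (s1 := true) (s2 := true) (a := 2) (b := 0) (c := 2) (cn := .pp) (n1 := ndF2q2b) (n2 := ndF2q0) (pc := pcF2) (cut := Cut.none) (xt := Ext.none) (P1 := 1239849684) (W1 := 370763052) (P2 := 0) (W2 := 536870912) (P3 := 67108864) (W3 := 67108864)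
    rfl rfl rfl k0_pp_202_b

noncomputable def f_pp_203_a : ℕ → ℕ → ℕ → ℕ → Bool := onCell 0 536870912 0 536870912 67108864 67108864
    (rowFK 0 true true true .up 2 0 3 (qsf 0 536870912 0 536870912 3) ndF2q2a ndF2q0 pcF3 Cut.none Ext.none)

def k0_pp_203_a : ∃ t, chk3 f_pp_203_a t 1 1 1 = true :=
  ⟨(l 5), by decide +kernel⟩

theorem c_pp_203_a : CertF 0 536870912 0 536870912 67108864 67108864 true true true .up 2 0 3
    ndF2q2a ndF2q0 pcF3 Cut.none Ext.none :=
  certFK0 (fam := true) (s1 := true) (s2 := true) (a := 2) (b := 0) (c := 3) (cn := .up) (n1 := ndF2q2a) (n2 := ndF2q0) (pc := pcF3) (cut := Cut.none) (xt := Ext.none) (P1 := 0) (W1 := 536870912) (P2 := 0) (W2 := 536870912) (P3 := 67108864) (W3 := 67108864)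
    rfl rfl rfl k0_pp_203_a

noncomputable def f_pp_203_b : ℕ → ℕ → ℕ → ℕ → Bool := onCell 1239849684 370763052 0 536870912 67108864 67108864
    (rowFK 0 true true true .up 2 0 3 (qsf 1239849684 370763052 0 536870912 3) ndF2q2b ndF2q0 pcF3 Cut.none Ext.none)

def k0_pp_203_b : ∃ t, chk3 f_pp_203_b t 1 1 1 = true :=
  ⟨(l 5), by decide +kernel⟩

theorem c_pp_203_b : CertF 1239849684 370763052 0 536870912 67108864 67108864 true true true .up 2 0 3
    ndF2q2b ndF2q0 pcF3 Cut.none Ext.none :=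
  certFK0 (fam := true) (s1 := true) (s2 := true) (a := 2) (b := 0) (c := 3) (cn := .up) (n1 := ndF2q2b) (n2 := ndF2q0) (pc := pcF3) (cut := Cut.none) (xt := Ext.none) (P1 := 1239849684) (W1 := 370763052) (P2 := 0) (W2 := 536870912) (P3 := 67108864) (W3 := 67108864)
    rfl rfl rfl k0_pp_203_b

noncomputable def f_pp_213_a : ℕ → ℕ → ℕ → ℕ → Bool := onCell 0 536870912 536870912 536870912 67108864 67108864
    (rowFK 0 true true true .pnn 2 1 3 (qsf 0 536870912 536870912 536870912 3) ndF2q2a ndF2q1 pcF3 Cut.none Ext.none)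

def k0_pp_213_a : ∃ t, chk3 f_pp_213_a t 1 1 1 = true :=
  ⟨(l 4), by decide +kernel⟩

theorem c_pp_213_a : CertF 0 536870912 536870912 536870912 67108864 67108864 true true true .pnn 2 1 3
    ndF2q2a ndF2q1 pcF3 Cut.none Ext.none :=
  certFK0 (fam := true) (s1 := true) (s2 := true) (a := 2) (b := 1) (c := 3) (cn := .pnn) (n1 := ndF2q2a) (n2 := ndF2q1) (pc := pcF3) (cut := Cut.none) (xt := Ext.none) (P1 := 0) (W1 := 536870912) (P2 := 536870912) (W2 := 536870912) (P3 := 67108864) (W3 := 67108864)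
    rfl rfl rfl k0_pp_213_a

noncomputable def f_pp_213_b : ℕ → ℕ → ℕ → ℕ → Bool := onCell 1239849684 370763052 536870912 536870912 67108864 67108864
    (rowFK 0 true true true .pnn 2 1 3 (qsf 1239849684 370763052 536870912 536870912 3) ndF2q2b ndF2q1 pcF3 Cut.none Ext.none)

def k0_pp_213_b : ∃ t, chk3 f_pp_213_b t 1 1 1 = true :=
  ⟨(l 4), by decide +kernel⟩

theorem c_pp_213_b : CertF 1239849684 370763052 536870912 536870912 67108864 67108864 true true true .pnn 2 1 3
    ndF2q2b ndF2q1 pcF3 Cut.none Ext.none :=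
  certFK0 (fam := true) (s1 := true) (s2 := true) (a := 2) (b := 1) (c := 3) (cn := .pnn) (n1 := ndF2q2b) (n2 := ndF2q1) (pc := pcF3) (cut := Cut.none) (xt := Ext.none) (P1 := 1239849684) (W1 := 370763052) (P2 := 536870912) (W2 := 536870912) (P3 := 67108864) (W3 := 67108864)
    rfl rfl rfl k0_pp_213_b

noncomputable def f_pp_303 : ℕ → ℕ → ℕ → ℕ → Bool := onCell 1610612736 536870912 0 536870912 67108864 67108864
    (rowFK 0 true true true .npn 3 0 3 (qsf 1610612736 536870912 0 536870912 3) ndF2q3 ndF2q0 pcF3 Cut.none Ext.none)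

def k0_pp_303 : ∃ t, chk3 f_pp_303 t 1 1 1 = true :=
  ⟨(l 4), by decide +kernel⟩

theorem c_pp_303 : CertF 1610612736 536870912 0 536870912 67108864 67108864 true true true .npn 3 0 3
    ndF2q3 ndF2q0 pcF3 Cut.none Ext.none :=
  certFK0 (fam := true) (s1 := true) (s2 := true) (a := 3) (b := 0) (c := 3) (cn := .npn) (n1 := ndF2q3) (n2 := ndF2q0) (pc := pcF3) (cut := Cut.none) (xt := Ext.none) (P1 := 1610612736) (W1 := 536870912) (P2 := 0) (W2 := 536870912) (P3 := 67108864) (W3 := 67108864)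
    rfl rfl rfl k0_pp_303

noncomputable def f_pp_313 : ℕ → ℕ → ℕ → ℕ → Bool := onCell 1610612736 536870912 536870912 536870912 67108864 67108864
    (rowFK 0 true true true .dn 3 1 3 (qsf 1610612736 536870912 536870912 536870912 3) ndF2q3 ndF2q1 pcF3 Cut.none Ext.none)

def k0_pp_313 : ∃ t, chk3 f_pp_313 t 1 1 1 = true :=
  ⟨(l 4), by decide +kernel⟩

theorem c_pp_313 : CertF 1610612736 536870912 536870912 536870912 67108864 67108864 true true true .dn 3 1 3
    ndF2q3 ndF2q1 pcF3 Cut.none Ext.none :=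
  certFK0 (fam := true) (s1 := true) (s2 := true) (a := 3) (b := 1) (c := 3) (cn := .dn) (n1 := ndF2q3) (n2 := ndF2q1) (pc := pcF3) (cut := Cut.none) (xt := Ext.none) (P1 := 1610612736) (W1 := 536870912) (P2 := 536870912) (W2 := 536870912) (P3 := 67108864) (W3 := 67108864)
    rfl rfl rfl k0_pp_313

noncomputable def f_pm_001 : ℕ → ℕ → ℕ → ℕ → Bool := onCell 0 536870912 0 536870912 67108864 67108864
    (rowFK 0 true true false .up 0 0 1 (qsf 0 536870912 0 536870912 1) ndF2q0 ndF2q0 pcF1 Cut.none Ext.none)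

def k0_pm_001 : ∃ t, chk3 f_pm_001 t 1 1 1 = true :=
  ⟨(a (l 3) (l 3)), by decide +kernel⟩

theorem c_pm_001 : CertF 0 536870912 0 536870912 67108864 67108864 true true false .up 0 0 1
    ndF2q0 ndF2q0 pcF1 Cut.none Ext.none :=
  certFK0 (fam := true) (s1 := true) (s2 := false) (a := 0) (b := 0) (c := 1) (cn := .up) (n1 := ndF2q0) (n2 := ndF2q0) (pc := pcF1) (cut := Cut.none) (xt := Ext.none) (P1 := 0) (W1 := 536870912) (P2 := 0) (W2 := 536870912) (P3 := 67108864) (W3 := 67108864)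
    rfl rfl rfl k0_pm_001

noncomputable def cut_pm_011 : Cut := Cut.of [[⟨0, 0, 0, 67108864⟩, ⟨1, 1, 0, 67108864⟩, ⟨2, 1, 0, 67108864⟩]]

noncomputable def f_pm_011 : ℕ → ℕ → ℕ → ℕ → Bool := onCell 0 536870912 536870912 536870912 67108864 67108864
    (rowFK 1 true true false .pnn 0 1 1 (qsf 0 536870912 536870912 536870912 1) ndF2q0 ndF2q1 pcF1 cut_pm_011 Ext.none)

def k0_pm_011 : ∃ t, chk3 f_pm_011 t 1 1 1 = true :=
  ⟨(a (b (l 3) (a (b (l 3) (b (l 3) (a (a (b (l 3) (a (l 6) (l 3))) (l 3)) (l 3)))) (l 3))) (l 3)), by decide +kernel⟩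

theorem c_pm_011 : CertF 0 536870912 536870912 536870912 67108864 67108864 true true false .pnn 0 1 1
    ndF2q0 ndF2q1 pcF1 cut_pm_011 Ext.none :=
  certFK1 (fam := true) (s1 := true) (s2 := false) (a := 0) (b := 1) (c := 1) (cn := .pnn) (n1 := ndF2q0) (n2 := ndF2q1) (pc := pcF1) (cut := cut_pm_011) (xt := Ext.none) (P1 := 0) (W1 := 536870912) (P2 := 536870912) (W2 := 536870912) (P3 := 67108864) (W3 := 67108864)
    rfl rfl rfl (fun _ => rfl) k0_pm_011

noncomputable def cut_pm_012 : Cut := Cut.of [[⟨0, 0, 0, 67108864⟩, ⟨1, 1, 0, 67108864⟩, ⟨2, 1, 0, 67108864⟩]]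

noncomputable def f_pm_012 : ℕ → ℕ → ℕ → ℕ → Bool := onCell 1073741824 536870912 536870912 536870912 67108864 67108864
    (rowFK 2 true true false .pnp 0 1 2 (qsf 0 536870912 536870912 536870912 2) ndF2q0 ndF2q1 pcF2 cut_pm_012 Ext.none)

def k0_pm_012 : ∃ t, chk3 f_pm_012 t 1 1 1 = true :=
  ⟨(a (b (a (l 3) (a (a (a (l 3) (b (l 2) (l 17543072))) (l 17514064)) (l 17700000))) (a (b (a (l 3) (b (l 3) (l 377591279639))) (b (a (l 3) (a (l 18272416) (l 18679536))) (b (a (l 3) (a (l 17860576) (l 18543632))) (a (a (b (l 3) (l 6)) (b (l 17080160) (a (l 16947224) (l 17019216)))) (a (l 17285848) (l 18232800)))))) (b (a (a (a (l 18313272) (a (l 18345056) (l 18361592))) (l 18391576)) (l 18397896)) (b (a (a (a (l 18878144) (l 18970416)) (l 19064896)) (l 19131744)) (b (a (a (a (l 18863024) (a (l 18977824) (l 19040920))) (l 19160184)) (l 19280640)) (a (a (a (l 18744504) (a (l 18921232) (l 19017168))) (l 19194312)) (l 19380096))))))) (b (b (l 2) (l 17960624)) (b (a (l 18246344)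 (l 18033904)) (b (l 18818296) (b (l 18956616) (l 19051368)))))), by decide +kernel⟩

theorem c_pm_012 : CertF 0 536870912 536870912 536870912 67108864 67108864 true true false .pnp 0 1 2
    ndF2q0 ndF2q1 pcF2 cut_pm_012 Ext.none :=
  certFK2 (fam := true) (s1 := true) (s2 := false) (a := 0) (b := 1) (c := 2) (cn := .pnp) (n1 := ndF2q0) (n2 := ndF2q1) (pc := pcF2) (cut := cut_pm_012) (xt := Ext.none) (P1 := 0) (W1 := 536870912) (P2 := 536870912) (W2 := 536870912) (P3 := 67108864) (W3 := 67108864)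
    rfl rfl rfl (fun _ => rfl) k0_pm_012

noncomputable def cut_pm_022_a : Cut := Cut.of [[⟨0, 0, 0, 67108864⟩, ⟨1, 1, 0, 67108864⟩, ⟨2, 1, 0, 67108864⟩]]

noncomputable def f_pm_022_a : ℕ → ℕ → ℕ → ℕ → Bool := onCell 0 536870912 0 536870912 67108864 67108864
    (rowFK 0 true true false .pp 0 2 2 (qsf 0 536870912 0 536870912 2) ndF2q0 ndF2q2a pcF2 cut_pm_022_a Ext.none)

def k0_pm_022_a : ∃ t, chk3 f_pm_022_a t 2 2 1 = true :=
  ⟨(a (a (a (b (a (c (l 18498304) (a (l 17470168) (l 17782048))) (l 18167624)) (a (a (c (b (l 18364912) (b (l 18225352) (l 18090072))) (b (a (b (l 17437056) (b (l 17326880) (c (l 17612488) (l 17157000)))) (l 17530816)) (a (b (c (l 17501312) (b (l 17031816) (l 16810040))) (a (b (c (l 17349040) (l 16719016)) (c (l 17237584) (l 16609416))) (l 17078048))) (l 16981312)))) (b (l 17991000) (l 17661840))) (b (l 18048728) (l 17867128)))) (b (l 18176824) (l 18039856))) (l 18062664)) (l 17803128)), by decide +kernel⟩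

def k1_pm_022_a : ∃ t, chk3 f_pm_022_a t 4 6 1 = true :=
  ⟨(a (a (a (a (b (c (c (b (l 18176072) (l 17848088)) (a (b (l 17461336) (b (l 17211528) (c (l 17385376) (b (l 17099368) (l 16770592))))) (l 17310824))) (a (a (b (a (b (c (l 16950328) (l 16585728)) (l 16599328)) (l 16663880)) (b (b (l 16593248) (l 16606840)) (b (l 16604896) (l 16608384)))) (b (l 16807600) (l 16610296))) (l 16645888))) (b (a (a (a (c (b (c (l 17659920) (a (c (l 16932056) (b (l 16797176) (l 16673864))) (l 16881304))) (c (c (l 17634832) (l 17059448)) (b (c (l 16822760) (l 16629080)) (l 16626576)))) (b (b (l 16614720) (l 16618624)) (b (c (l 16623184) (l 16622312)) (b (l 16625776) (l 16628000))))) (b (l 16673264) (l 16636568))) (l 16647888)) (l 16704296)) (a (a (b (a (a (a (c (c (c (l 17277592) (b (l 16953184) (b (l 16860928) (l 16758912)))) (b (l 16632240) (l 16639592))) (b (b (l 16627072) (l 16629416)) (b (l 16631816) (l 16634280)))) (b (l 16627808) (l 16632568))) (l 16639552)) (l 16645816))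 (a (a (b (b (c (l 16639960) (b (l 16635416) (l 16636696))) (c (l 16642480) (b (l 16637984) (l 16639296)))) (a (b (c (l 16645800) (b (l 16641312) (l 16642656))) (b (c (l 16645064) (l 16644016)) (c (l 16646400) (l 16645392)))) (l 16648128))) (b (l 16635456) (l 16640744))) (l 16656208))) (l 16675848)) (l 16674832)))) (b (b (l 17500928) (l 17243616)) (b (l 16889584) (l 16680688)))) (b (l 17554544) (b (l 17179016) (l 16807392)))) (b (l 17776552) (l 17437152))) (a (l 17799264) (l 17858336))), by decide +kernel⟩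

def k2_pm_022_a : ∃ t, chk3 f_pm_022_a t 4 7 1 = true :=
  ⟨(a (b (a (b (a (a (b (a (b (a (a (a (a (b (b (c (l 16647760) (l 16646784)) (c (l 16649136) (l 16648360))) (a (b (c (l 16650904) (l 16649976)) (c (l 16652312) (l 16651584))) (l 16650536))) (l 16653712)) (l 16667296)) (l 16663000)) (l 16654376)) (a (a (a (b (a (b (c (l 16653376) (c (l 16652752) (l 16652320))) (c (l 16656136) (b (l 16653616) (l 16654360)))) (l 16652360)) (a (b (c (l 16657600) (b (l 16655112) (l 16655864))) (c (c (l 16657960) (l 16657592)) (c (l 16657224) (l 16656928)))) (l 16655336))) (l 16662688)) (l 16668864)) (l 16660232))) (l 16665840)) (a (a (a (b (a (b (b (a (c (c (l 16659456) (l 16659104)) (c (l 16660064) (c (l 16658480) (l 16658296)))) (l 16657472)) (l 6)) (l 6)) (l 16668880)) (l 6)) (l 16686424)) (l 16693648)) (l 16684200))) (l 16774656)) (b (l 16727056) (l 16744144))) (a (a (b (a (l 6) (l 16722904)) (l 6)) (b (l 16748352) (l 16811480))) (a (l 16887208) (b (l 16786264) (l 16804576)))))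 (b (l 17040496) (b (l 16880136) (l 16916160)))) (a (b (a (l 6) (b (l 16883880) (l 6))) (l 6)) (b (a (l 16917944) (l 16972832)) (a (b (l 16939040) (l 6)) (l 17048472))))) (b (a (l 17427312) (l 17665600)) (a (b (l 17169744) (l 17134512)) (l 17521664)))), by decide +kernel⟩

def k3_pm_022_a : ∃ t, chk3 f_pm_022_a t 5 3 1 = true :=
  ⟨(b (l 17766568) (b (l 17726920) (a (l 17703272) (l 17689512)))), by decide +kernel⟩

def k4_pm_022_a : ∃ t, chk3 f_pm_022_a t 3 1 1 = true :=
  ⟨(b (a (l 17715728) (l 17935328)) (a (b (l 17803816) (b (l 17885536) (l 17967456))) (b (l 18057304) (b (l 18158912) (l 18247056))))), by decide +kernel⟩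

theorem s5_pm_022_a : ∃ t, chk3 f_pm_022_a t 4 3 1 = true := ex3_b k1_pm_022_a k2_pm_022_a

theorem s6_pm_022_a : ∃ t, chk3 f_pm_022_a t 2 3 1 = true := ex3_a s5_pm_022_a k3_pm_022_a

theorem s7_pm_022_a : ∃ t, chk3 f_pm_022_a t 2 1 1 = true := ex3_b k0_pm_022_a s6_pm_022_a

theorem s8_pm_022_a : ∃ t, chk3 f_pm_022_a t 1 1 1 = true := ex3_a s7_pm_022_a k4_pm_022_a

theorem c_pm_022_a : CertF 0 536870912 0 536870912 67108864 67108864 true true false .pp 0 2 2
    ndF2q0 ndF2q2a pcF2 cut_pm_022_a Ext.none :=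
  certFK0 (fam := true) (s1 := true) (s2 := false) (a := 0) (b := 2) (c := 2) (cn := .pp) (n1 := ndF2q0) (n2 := ndF2q2a) (pc := pcF2) (cut := cut_pm_022_a) (xt := Ext.none) (P1 := 0) (W1 := 536870912) (P2 := 0) (W2 := 536870912) (P3 := 67108864) (W3 := 67108864)
    rfl rfl rfl s8_pm_022_a

noncomputable def cut_pm_022_b : Cut := Cut.of [[⟨0, 0, 0, 67108864⟩, ⟨1, 1, 0, 67108864⟩, ⟨2, 1, 0, 67108864⟩]]

noncomputable def f_pm_022_b : ℕ → ℕ → ℕ → ℕ → Bool := onCell 0 536870912 1239849684 370763052 67108864 67108864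
    (rowFK 0 true true false .pp 0 2 2 (qsf 0 536870912 1239849684 370763052 2) ndF2q0 ndF2q2b pcF2 cut_pm_022_b Ext.none)

def k0_pm_022_b : ∃ t, chk3 f_pm_022_b t 1 1 1 = true :=
  ⟨(a (b (a (a (b (a (b (a (b (l 18057656) (l 18462840)) (l 18362640)) (l 18575432)) (l 18374944)) (l 18548056)) (l 18422400)) (b (l 17738880) (l 17605032))) (a (a (b (l 18491008) (l 18431448)) (b (l 18094504) (l 18009440))) (b (l 17528456) (l 2)))) (b (a (b (l 17579928) (l 17391096)) (l 2)) (l 2))), by decide +kernel⟩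

theorem c_pm_022_b : CertF 0 536870912 1239849684 370763052 67108864 67108864 true true false .pp 0 2 2
    ndF2q0 ndF2q2b pcF2 cut_pm_022_b Ext.none :=
  certFK0 (fam := true) (s1 := true) (s2 := false) (a := 0) (b := 2) (c := 2) (cn := .pp) (n1 := ndF2q0) (n2 := ndF2q2b) (pc := pcF2) (cut := cut_pm_022_b) (xt := Ext.none) (P1 := 0) (W1 := 536870912) (P2 := 1239849684) (W2 := 370763052) (P3 := 67108864) (W3 := 67108864)
    rfl rfl rfl k0_pm_022_b

noncomputable def f_pm_023_a : ℕ → ℕ → ℕ → ℕ → Bool := onCell 1610612736 536870912 0 536870912 67108864 67108864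
    (rowFK 2 true true false .up 0 2 3 (qsf 0 536870912 0 536870912 3) ndF2q0 ndF2q2a pcF3 Cut.none Ext.none)

def k0_pm_023_a : ∃ t, chk3 f_pm_023_a t 1 1 1 = true :=
  ⟨(a (b (a (l 17364848) (l 17735976)) (a (b (l 17549008) (b (l 17687520) (l 17781008))) (b (l 2) (l 2)))) (l 2)), by decide +kernel⟩

theorem c_pm_023_a : CertF 0 536870912 0 536870912 67108864 67108864 true true false .up 0 2 3
    ndF2q0 ndF2q2a pcF3 Cut.none Ext.none :=
  certFK2 (fam := true) (s1 := true) (s2 := false) (a := 0) (b := 2) (c := 3) (cn := .up) (n1 := ndF2q0) (n2 := ndF2q2a) (pc := pcF3) (cut := Cut.none) (xt := Ext.none) (P1 := 0) (W1 := 536870912) (P2 := 0) (W2 := 536870912) (P3 := 67108864) (W3 := 67108864)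
    rfl rfl rfl (fun _ => rfl) k0_pm_023_a

noncomputable def f_pm_023_b : ℕ → ℕ → ℕ → ℕ → Bool := onCell 1610612736 536870912 1239849684 370763052 67108864 67108864
    (rowFK 2 true true false .up 0 2 3 (qsf 0 536870912 1239849684 370763052 3) ndF2q0 ndF2q2b pcF3 Cut.none Ext.none)

def k0_pm_023_b : ∃ t, chk3 f_pm_023_b t 1 1 1 = true :=
  ⟨(b (a (a (a (l 17086184) (l 17023040)) (l 17692600)) (l 4)) (a (a (a (b (l 17565560) (a (l 17773104) (l 17693752))) (l 17316256)) (a (l 16974984) (l 16927064))) (l 4))), by decide +kernel⟩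

theorem c_pm_023_b : CertF 0 536870912 1239849684 370763052 67108864 67108864 true true false .up 0 2 3
    ndF2q0 ndF2q2b pcF3 Cut.none Ext.none :=
  certFK2 (fam := true) (s1 := true) (s2 := false) (a := 0) (b := 2) (c := 3) (cn := .up) (n1 := ndF2q0) (n2 := ndF2q2b) (pc := pcF3) (cut := Cut.none) (xt := Ext.none) (P1 := 0) (W1 := 536870912) (P2 := 1239849684) (W2 := 370763052) (P3 := 67108864) (W3 := 67108864)
    rfl rfl rfl (fun _ => rfl) k0_pm_023_b

noncomputable def f_pm_033 : ℕ → ℕ → ℕ → ℕ → Bool := onCell 0 536870912 1610612736 536870912 67108864 67108864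
    (rowFK 1 true true false .pnn 0 3 3 (qsf 0 536870912 1610612736 536870912 3) ndF2q0 ndF2q3 pcF3 Cut.none Ext.none)

def k0_pm_033 : ∃ t, chk3 f_pm_033 t 1 1 1 = true :=
  ⟨(b (a (b (a (b (a (l 19094576) (l 18891848)) (l 19061744)) (l 18678608)) (a (b (l 18805344) (l 18702664)) (l 18630256))) (b (l 1) (a (l 18235120) (l 1)))) (b (a (a (b (l 18481584) (l 4)) (l 18130176)) (l 4)) (l 4))), by decide +kernel⟩

theorem c_pm_033 : CertF 0 536870912 1610612736 536870912 67108864 67108864 true true false .pnn 0 3 3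
    ndF2q0 ndF2q3 pcF3 Cut.none Ext.none :=
  certFK1 (fam := true) (s1 := true) (s2 := false) (a := 0) (b := 3) (c := 3) (cn := .pnn) (n1 := ndF2q0) (n2 := ndF2q3) (pc := pcF3) (cut := Cut.none) (xt := Ext.none) (P1 := 0) (W1 := 536870912) (P2 := 1610612736) (W2 := 536870912) (P3 := 67108864) (W3 := 67108864)
    rfl rfl rfl (fun _ => rfl) k0_pm_033

noncomputable def cut_pm_101 : Cut := Cut.of [[⟨0, 1, 0, 67108864⟩, ⟨1, 0, 0, 67108864⟩, ⟨2, 1, 0, 67108864⟩]]

noncomputable def f_pm_101 : ℕ → ℕ → ℕ → ℕ → Bool := onCell 536870912 536870912 0 536870912 67108864 67108864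
    (rowFK 2 true true false .npn 1 0 1 (qsf 536870912 536870912 0 536870912 1) ndF2q1 ndF2q0 pcF1 cut_pm_101 Ext.none)

def k0_pm_101 : ∃ t, chk3 f_pm_101 t 1 1 1 = true :=
  ⟨(a (l 3) (b (a (l 3) (b (a (l 3) (b (b (a (l 3) (b (l 6) (l 3))) (l 3)) (l 3))) (l 3))) (l 3))), by decide +kernel⟩

theorem c_pm_101 : CertF 536870912 536870912 0 536870912 67108864 67108864 true true false .npn 1 0 1
    ndF2q1 ndF2q0 pcF1 cut_pm_101 Ext.none :=
  certFK2 (fam := true) (s1 := true) (s2 := false) (a := 1) (b := 0) (c := 1) (cn := .npn) (n1 := ndF2q1) (n2 := ndF2q0) (pc := pcF1) (cut := cut_pm_101) (xt := Ext.none) (P1 := 536870912) (W1 := 536870912) (P2 := 0) (W2 := 536870912) (P3 := 67108864) (W3 := 67108864)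
    rfl rfl rfl (fun _ => rfl) k0_pm_101

noncomputable def cut_pm_102 : Cut := Cut.of [[⟨0, 1, 0, 67108864⟩, ⟨1, 0, 0, 67108864⟩, ⟨2, 1, 0, 67108864⟩]]

noncomputable def f_pm_102 : ℕ → ℕ → ℕ → ℕ → Bool := onCell 536870912 536870912 1073741824 536870912 67108864 67108864
    (rowFK 1 true true false .npp 1 0 2 (qsf 536870912 536870912 0 536870912 2) ndF2q1 ndF2q0 pcF2 cut_pm_102 Ext.none)

def k0_pm_102 : ∃ t, chk3 f_pm_102 t 1 1 1 = true :=
  ⟨(a (b (b (l 3) (b (b (a (l 17642480) (b (l 3) (l 17543072))) (l 17514064)) (l 17700000))) (a (l 2) (l 17960624))) (b (a (b (b (l 3) (a (l 3) (l 377591279639))) (b (b (b (l 18313272) (b (l 18345056) (l 18361592))) (l 18391576)) (l 18397896))) (b (a (b (l 3) (b (l 18272416) (l 18679536))) (a (b (l 3) (b (l 17860576) (l 18543632))) (b (b (a (l 3) (l 6)) (a (l 17080160) (b (l 16947224) (l 17019216)))) (b (l 17201968) (l 18232800))))) (a (b (b (b (l 18878144) (l 18970416)) (l 19064896)) (l 19131744)) (a (b (b (b (l 18863024)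 (b (l 18977824) (l 19040920))) (l 19160184)) (l 19280640)) (b (b (b (l 18744504) (b (l 18921232) (l 19017168))) (l 19194312)) (l 19380096)))))) (a (b (l 18246344) (l 18033904)) (a (l 18818296) (a (l 18956616) (l 19051368)))))), by decide +kernel⟩

theorem c_pm_102 : CertF 536870912 536870912 0 536870912 67108864 67108864 true true false .npp 1 0 2
    ndF2q1 ndF2q0 pcF2 cut_pm_102 Ext.none :=
  certFK1 (fam := true) (s1 := true) (s2 := false) (a := 1) (b := 0) (c := 2) (cn := .npp) (n1 := ndF2q1) (n2 := ndF2q0) (pc := pcF2) (cut := cut_pm_102) (xt := Ext.none) (P1 := 536870912) (W1 := 536870912) (P2 := 0) (W2 := 536870912) (P3 := 67108864) (W3 := 67108864)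
    rfl rfl rfl (fun _ => rfl) k0_pm_102

noncomputable def f_pm_112 : ℕ → ℕ → ℕ → ℕ → Bool := onCell 536870912 536870912 1073741824 536870912 67108864 67108864
    (rowFK 1 true true false .dn 1 1 2 (qsf 536870912 536870912 536870912 536870912 2) ndF2q1 ndF2q1 pcF2 Cut.none Ext.none)

def k0_pm_112 : ∃ t, chk3 f_pm_112 t 1 1 1 = true :=
  ⟨(a (b (b (l 3) (b (a (l 275050151047) (a (l 366317529655) (l 582541863943))) (l 18389952))) (a (b (b (l 17726296) (l 17979280)) (b (l 18856488) (a (a (b (l 20023152) (b (l 20329592) (a (l 20321488) (l 20301584)))) (l 19933224)) (l 19236528)))) (b (l 17578296) (l 17639760)))) (b (a (b (l 1) (b (l 1) (l 18270304))) (l 1)) (a (l 558920001943) (a (l 19704672) (a (l 20088432) (l 20311152)))))), by decide +kernel⟩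

theorem c_pm_112 : CertF 536870912 536870912 536870912 536870912 67108864 67108864 true true false .dn 1 1 2
    ndF2q1 ndF2q1 pcF2 Cut.none Ext.none :=
  certFK1 (fam := true) (s1 := true) (s2 := false) (a := 1) (b := 1) (c := 2) (cn := .dn) (n1 := ndF2q1) (n2 := ndF2q1) (pc := pcF2) (cut := Cut.none) (xt := Ext.none) (P1 := 536870912) (W1 := 536870912) (P2 := 536870912) (W2 := 536870912) (P3 := 67108864) (W3 := 67108864)
    rfl rfl rfl (fun _ => rfl) k0_pm_112

noncomputable def f_pm_113 : ℕ → ℕ → ℕ → ℕ → Bool := onCell 536870912 536870912 536870912 536870912 67108864 67108864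
    (rowFK 0 true true false .nn 1 1 3 (qsf 536870912 536870912 536870912 536870912 3) ndF2q1 ndF2q1 pcF3 Cut.none Ext.none)

def k0_pm_113 : ∃ t, chk3 f_pm_113 t 1 1 1 = true :=
  ⟨(a (b (a (l 1) (l 634617058647)) (b (l 562677678663) (b (l 19323712) (b (l 19608176) (l 19772040))))) (b (a (l 562677678663) (a (l 19323712) (a (l 19608176) (l 19772040)))) (a (b (l 17527256) (b (l 18085016) (b (l 18104632) (l 18089984)))) (b (a (l 18085016) (a (l 18104632) (l 18089984))) (a (b (l 17345024) (b (l 17268848) (l 17189560))) (b (a (l 17268848) (l 17189560)) (a (b (l 17068616) (l 16983656)) (b (l 16983656) (b (l 16909344) (a (l 16896144) (b (l 16843136) (l 16818872)))))))))))), by decide +kernel⟩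

theorem c_pm_113 : CertF 536870912 536870912 536870912 536870912 67108864 67108864 true true false .nn 1 1 3
    ndF2q1 ndF2q1 pcF3 Cut.none Ext.none :=
  certFK0 (fam := true) (s1 := true) (s2 := false) (a := 1) (b := 1) (c := 3) (cn := .nn) (n1 := ndF2q1) (n2 := ndF2q1) (pc := pcF3) (cut := Cut.none) (xt := Ext.none) (P1 := 536870912) (W1 := 536870912) (P2 := 536870912) (W2 := 536870912) (P3 := 67108864) (W3 := 67108864)
    rfl rfl rfl k0_pm_113

noncomputable def f_pm_123_a : ℕ → ℕ → ℕ → ℕ → Bool := onCell 1610612736 536870912 0 536870912 67108864 67108864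
    (rowFK 2 true true false .npn 1 2 3 (qsf 536870912 536870912 0 536870912 3) ndF2q1 ndF2q2a pcF3 Cut.none Ext.none)

def k0_pm_123_a : ∃ t, chk3 f_pm_123_a t 1 1 1 = true :=
  ⟨(a (b (a (l 18999240) (l 18558016)) (a (b (l 18921408) (b (l 18790000) (l 18650600))) (b (l 18327312) (b (l 18075576) (l 17847928))))) (l 4)), by decide +kernel⟩

theorem c_pm_123_a : CertF 536870912 536870912 0 536870912 67108864 67108864 true true false .npn 1 2 3
    ndF2q1 ndF2q2a pcF3 Cut.none Ext.none :=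
  certFK2 (fam := true) (s1 := true) (s2 := false) (a := 1) (b := 2) (c := 3) (cn := .npn) (n1 := ndF2q1) (n2 := ndF2q2a) (pc := pcF3) (cut := Cut.none) (xt := Ext.none) (P1 := 536870912) (W1 := 536870912) (P2 := 0) (W2 := 536870912) (P3 := 67108864) (W3 := 67108864)
    rfl rfl rfl (fun _ => rfl) k0_pm_123_a

noncomputable def f_pm_123_b : ℕ → ℕ → ℕ → ℕ → Bool := onCell 1610612736 536870912 1239849684 370763052 67108864 67108864
    (rowFK 2 true true false .npn 1 2 3 (qsf 536870912 536870912 1239849684 370763052 3) ndF2q1 ndF2q2b pcF3 Cut.none Ext.none)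

def k0_pm_123_b : ∃ t, chk3 f_pm_123_b t 1 1 1 = true :=
  ⟨(a (a (l 1) (b (l 18769672) (l 1))) (b (l 4) (l 4))), by decide +kernel⟩

theorem c_pm_123_b : CertF 536870912 536870912 1239849684 370763052 67108864 67108864 true true false .npn 1 2 3
    ndF2q1 ndF2q2b pcF3 Cut.none Ext.none :=
  certFK2 (fam := true) (s1 := true) (s2 := false) (a := 1) (b := 2) (c := 3) (cn := .npn) (n1 := ndF2q1) (n2 := ndF2q2b) (pc := pcF3) (cut := Cut.none) (xt := Ext.none) (P1 := 536870912) (W1 := 536870912) (P2 := 1239849684) (W2 := 370763052) (P3 := 67108864) (W3 := 67108864)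
    rfl rfl rfl (fun _ => rfl) k0_pm_123_b

noncomputable def f_pm_133 : ℕ → ℕ → ℕ → ℕ → Bool := onCell 536870912 536870912 1610612736 536870912 67108864 67108864
    (rowFK 0 true true false .dn 1 3 3 (qsf 536870912 536870912 1610612736 536870912 3) ndF2q1 ndF2q3 pcF3 Cut.none Ext.none)

def k0_pm_133 : ∃ t, chk3 f_pm_133 t 1 1 1 = true :=
  ⟨(l 4), by decide +kernel⟩

theorem c_pm_133 : CertF 536870912 536870912 1610612736 536870912 67108864 67108864 true true false .dn 1 3 3
    ndF2q1 ndF2q3 pcF3 Cut.none Ext.none :=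
  certFK0 (fam := true) (s1 := true) (s2 := false) (a := 1) (b := 3) (c := 3) (cn := .dn) (n1 := ndF2q1) (n2 := ndF2q3) (pc := pcF3) (cut := Cut.none) (xt := Ext.none) (P1 := 536870912) (W1 := 536870912) (P2 := 1610612736) (W2 := 536870912) (P3 := 67108864) (W3 := 67108864)
    rfl rfl rfl k0_pm_133

noncomputable def cut_pm_202_a : Cut := Cut.of [[⟨0, 1, 0, 67108864⟩, ⟨1, 0, 0, 67108864⟩, ⟨2, 1, 0, 67108864⟩]]

noncomputable def f_pm_202_a : ℕ → ℕ → ℕ → ℕ → Bool := onCell 0 536870912 0 536870912 67108864 67108864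
    (rowFK 0 true true false .pp 2 0 2 (qsf 0 536870912 0 536870912 2) ndF2q2a ndF2q0 pcF2 cut_pm_202_a Ext.none)

def k0_pm_202_a : ∃ t, chk3 f_pm_202_a t 2 1 1 = true :=
  ⟨(b (b (b (b (a (b (a (l 18095624) (c (l 18478488) (l 17510856))) (l 18167624)) (b (b (a (c (l 18364688) (b (a (l 17395096) (a (l 17326880) (c (l 17612488) (l 17157000)))) (l 17530816))) (c (a (l 18225320) (l 18090040)) (b (a (c (l 17501296) (a (l 17010840) (l 16789064))) (a (b (c (l 17349040) (l 16677072)) (l 17135152)) (c (l 17172456) (l 16581896)))) (a (l 17325952) (l 17135392))))) (a (l 17991000) (l 17598928))) (a (l 18048728) (l 17867128)))) (a (l 18176824) (l 18039856))) (l 18062664)) (l 17803128)) (b (l 17715728) (l 17935328))), by decide +kernel⟩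

def k1_pm_202_a : ∃ t, chk3 f_pm_202_a t 6 2 1 = true :=
  ⟨(b (b (b (a (b (b (c (b (c (a (l 18158800) (l 17925936)) (a (l 17356440) (a (l 17190552) (b (a (l 17146152) (c (l 17316400) (l 16931088))) (l 17252584))))) (a (l 17929704) (l 17689376))) (b (b (a (b (a (c (l 16929352) (l 16585728)) (l 16599328)) (l 16642912)) (a (a (l 16593248) (l 16601600)) (a (l 16604896) (l 16608384)))) (a (l 16807600) (l 16610296))) (l 16645888))) (a (l 17500928) (l 17243616))) (l 17554544)) (b (b (a (b (b (a (b (c (c (l 17659912) (a (c (l 17203232) (l 16763232)) (c (l 17092112) (l 16640736)))) (a (l 16614720) (l 16618624))) (l 16673264)) (b (b (c (c (c (l 17629016) (l 17052136)) (a (c (l 16835424) (l 16619976)) (l 16627024))) (a (c (l 16624544) (l 16623624)) (a (l 16621888) (l 16624112)))) (l 16630288)) (l 16636568))) (l 16637400)) (l 16704296)) (b (b (b (a (b (b (c (c (c (l 17235632) (a (l 16932216) (a (l 16860928) (l 16758912)))) (a (l 16632240) (l 16638936))) (a (a (l 16627072)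 (l 16629416)) (a (l 16631816) (l 16635592)))) (a (l 16627808) (l 16632568))) (l 16639552)) (b (a (a (c (l 16639960) (c (l 16636440) (l 16638448))) (c (l 16642480) (a (l 16637984) (l 16639296)))) (b (a (c (l 16645800) (a (l 16641312) (l 16642656))) (a (c (l 16645064) (l 16644016)) (c (l 16646400) (l 16645392)))) (l 16648128))) (a (l 16635456) (l 16640744)))) (a (l 16645816) (l 16656208))) (a (l 16637336) (l 16647696))) (l 16674832))) (a (l 16889584) (l 16701664))) (a (l 17179016) (l 16807392)))) (a (l 17776552) (b (l 17321152) (l 17531232)))) (b (l 17799264) (l 17858336))) (l 17766568)), by decide +kernel⟩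

def k2_pm_202_a : ∃ t, chk3 f_pm_202_a t 7 2 1 = true :=
  ⟨(b (a (b (b (a (b (b (a (b (b (b (b (a (b (a (a (c (l 16647760) (l 16646784)) (c (l 16649136) (l 16648360))) (b (a (c (l 16650904) (l 16649976)) (c (l 16652312) (l 16651584))) (l 16650536))) (l 16653712)) (a (b (a (c (l 16653376) (c (l 16652752) (l 16652320))) (c (l 16656136) (c (l 16654224) (l 16653816)))) (l 16652360)) (b (a (c (l 16657600) (a (l 16655112) (l 16655864))) (c (c (l 16657960) (l 16657592)) (c (l 16657224) (c (l 16656944) (l 16656752))))) (l 16655336)))) (a (l 16667296) (l 16662688))) (l 16667904)) (l 16659392)) (l 16665840)) (b (b (a (b (b (a (a (a (c (l 16659432) (c (l 16660240) (l 16659904))) (c (l 16660184) (c (l 16661008) (l 16660680)))) (l 6)) (l 6)) (l 16668880)) (l 16675056)) (l 6)) (l 16693648)) (l 16684200))) (l 16774656)) (a (l 16727056) (l 16744144))) (b (b (a (b (l 6) (l 16722904)) (l 6)) (a (l 16748352) (l 16811480))) (b (l 16887208) (a (l 16786264) (l 16804576))))) (a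 (l 17040496) (a (l 16880136) (l 16916160)))) (b (l 17427312) (l 17665600))) (b (b (a (b (l 6) (a (l 16883880) (l 6))) (l 6)) (a (b (l 16917944) (l 16972832)) (b (a (l 16939040) (l 6)) (l 17027504)))) (b (a (l 17169744) (l 17134512)) (l 17521736)))) (a (l 17726920) (b (l 17703352) (l 17689528)))), by decide +kernel⟩

def k3_pm_202_a : ∃ t, chk3 f_pm_202_a t 3 3 1 = true :=
  ⟨(a (b (l 17803816) (l 18057304)) (a (b (l 17885536) (l 18158912)) (b (l 17967464) (l 18247056)))), by decide +kernel⟩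

theorem s4_pm_202_a : ∃ t, chk3 f_pm_202_a t 3 2 1 = true := ex3_a k1_pm_202_a k2_pm_202_a

theorem s5_pm_202_a : ∃ t, chk3 f_pm_202_a t 3 1 1 = true := ex3_b s4_pm_202_a k3_pm_202_a

theorem s6_pm_202_a : ∃ t, chk3 f_pm_202_a t 1 1 1 = true := ex3_a k0_pm_202_a s5_pm_202_a

theorem c_pm_202_a : CertF 0 536870912 0 536870912 67108864 67108864 true true false .pp 2 0 2
    ndF2q2a ndF2q0 pcF2 cut_pm_202_a Ext.none :=
  certFK0 (fam := true) (s1 := true) (s2 := false) (a := 2) (b := 0) (c := 2) (cn := .pp) (n1 := ndF2q2a) (n2 := ndF2q0) (pc := pcF2) (cut := cut_pm_202_a) (xt := Ext.none) (P1 := 0) (W1 := 536870912) (P2 := 0) (W2 := 536870912) (P3 := 67108864) (W3 := 67108864)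
    rfl rfl rfl s6_pm_202_a

noncomputable def cut_pm_202_b : Cut := Cut.of [[⟨0, 1, 0, 67108864⟩, ⟨1, 0, 0, 67108864⟩, ⟨2, 1, 0, 67108864⟩]]

noncomputable def f_pm_202_b : ℕ → ℕ → ℕ → ℕ → Bool := onCell 1239849684 370763052 0 536870912 67108864 67108864
    (rowFK 0 true true false .pp 2 0 2 (qsf 1239849684 370763052 0 536870912 2) ndF2q2b ndF2q0 pcF2 cut_pm_202_b Ext.none)

def k0_pm_202_b : ∃ t, chk3 f_pm_202_b t 1 1 1 = true :=
  ⟨(b (a (b (b (a (b (a (b (a (l 18057656) (l 18462840)) (l 18362640)) (l 18575432)) (l 18374944)) (l 18548056)) (l 18422400)) (a (l 17738880) (l 17605032))) (b (b (a (l 18491008) (l 18431448)) (a (l 18094504) (l 18009440))) (a (l 17528456) (l 2)))) (a (b (a (l 17579928) (l 17391096)) (l 2)) (l 2))), by decide +kernel⟩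

theorem c_pm_202_b : CertF 1239849684 370763052 0 536870912 67108864 67108864 true true false .pp 2 0 2
    ndF2q2b ndF2q0 pcF2 cut_pm_202_b Ext.none :=
  certFK0 (fam := true) (s1 := true) (s2 := false) (a := 2) (b := 0) (c := 2) (cn := .pp) (n1 := ndF2q2b) (n2 := ndF2q0) (pc := pcF2) (cut := cut_pm_202_b) (xt := Ext.none) (P1 := 1239849684) (W1 := 370763052) (P2 := 0) (W2 := 536870912) (P3 := 67108864) (W3 := 67108864)
    rfl rfl rfl k0_pm_202_b

noncomputable def f_pm_203_a : ℕ → ℕ → ℕ → ℕ → Bool := onCell 0 536870912 1610612736 536870912 67108864 67108864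
    (rowFK 1 true true false .up 2 0 3 (qsf 0 536870912 0 536870912 3) ndF2q2a ndF2q0 pcF3 Cut.none Ext.none)

def k0_pm_203_a : ∃ t, chk3 f_pm_203_a t 1 1 1 = true :=
  ⟨(b (a (b (l 17364848) (l 17735976)) (a (b (l 17549008) (l 2)) (b (a (l 17687520) (l 17781008)) (l 2)))) (l 2)), by decide +kernel⟩

theorem c_pm_203_a : CertF 0 536870912 0 536870912 67108864 67108864 true true false .up 2 0 3
    ndF2q2a ndF2q0 pcF3 Cut.none Ext.none :=
  certFK1 (fam := true) (s1 := true) (s2 := false) (a := 2) (b := 0) (c := 3) (cn := .up) (n1 := ndF2q2a) (n2 := ndF2q0) (pc := pcF3) (cut := Cut.none) (xt := Ext.none) (P1 := 0) (W1 := 536870912) (P2 := 0) (W2 := 536870912) (P3 := 67108864) (W3 := 67108864)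
    rfl rfl rfl (fun _ => rfl) k0_pm_203_a

noncomputable def f_pm_203_b : ℕ → ℕ → ℕ → ℕ → Bool := onCell 1239849684 370763052 1610612736 536870912 67108864 67108864
    (rowFK 1 true true false .up 2 0 3 (qsf 1239849684 370763052 0 536870912 3) ndF2q2b ndF2q0 pcF3 Cut.none Ext.none)

def k0_pm_203_b : ∃ t, chk3 f_pm_203_b t 1 1 1 = true :=
  ⟨(a (b (b (b (l 17086184) (l 17023040)) (l 17692600)) (l 4)) (b (b (b (a (l 17565560) (b (l 17773104) (l 17693752))) (l 17316256)) (b (l 16974984) (l 16927064))) (l 4))), by decide +kernel⟩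

theorem c_pm_203_b : CertF 1239849684 370763052 0 536870912 67108864 67108864 true true false .up 2 0 3
    ndF2q2b ndF2q0 pcF3 Cut.none Ext.none :=
  certFK1 (fam := true) (s1 := true) (s2 := false) (a := 2) (b := 0) (c := 3) (cn := .up) (n1 := ndF2q2b) (n2 := ndF2q0) (pc := pcF3) (cut := Cut.none) (xt := Ext.none) (P1 := 1239849684) (W1 := 370763052) (P2 := 0) (W2 := 536870912) (P3 := 67108864) (W3 := 67108864)
    rfl rfl rfl (fun _ => rfl) k0_pm_203_b

noncomputable def f_pm_213_a : ℕ → ℕ → ℕ → ℕ → Bool := onCell 0 536870912 1610612736 536870912 67108864 67108864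
    (rowFK 1 true true false .pnn 2 1 3 (qsf 0 536870912 536870912 536870912 3) ndF2q2a ndF2q1 pcF3 Cut.none Ext.none)

def k0_pm_213_a : ∃ t, chk3 f_pm_213_a t 1 1 1 = true :=
  ⟨(b (a (b (l 18999240) (l 18558016)) (a (b (l 18921408) (l 18327312)) (b (a (l 18790000) (l 18650600)) (a (l 18075576) (l 17847928))))) (l 4)), by decide +kernel⟩

theorem c_pm_213_a : CertF 0 536870912 536870912 536870912 67108864 67108864 true true false .pnn 2 1 3
    ndF2q2a ndF2q1 pcF3 Cut.none Ext.none :=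
  certFK1 (fam := true) (s1 := true) (s2 := false) (a := 2) (b := 1) (c := 3) (cn := .pnn) (n1 := ndF2q2a) (n2 := ndF2q1) (pc := pcF3) (cut := Cut.none) (xt := Ext.none) (P1 := 0) (W1 := 536870912) (P2 := 536870912) (W2 := 536870912) (P3 := 67108864) (W3 := 67108864)
    rfl rfl rfl (fun _ => rfl) k0_pm_213_a

noncomputable def f_pm_213_b : ℕ → ℕ → ℕ → ℕ → Bool := onCell 1239849684 370763052 1610612736 536870912 67108864 67108864
    (rowFK 1 true true false .pnn 2 1 3 (qsf 1239849684 370763052 536870912 536870912 3) ndF2q2b ndF2q1 pcF3 Cut.none Ext.none)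

def k0_pm_213_b : ∃ t, chk3 f_pm_213_b t 1 1 1 = true :=
  ⟨(a (b (b (l 1) (l 18769672)) (l 4)) (b (l 1) (l 4))), by decide +kernel⟩

theorem c_pm_213_b : CertF 1239849684 370763052 536870912 536870912 67108864 67108864 true true false .pnn 2 1 3
    ndF2q2b ndF2q1 pcF3 Cut.none Ext.none :=
  certFK1 (fam := true) (s1 := true) (s2 := false) (a := 2) (b := 1) (c := 3) (cn := .pnn) (n1 := ndF2q2b) (n2 := ndF2q1) (pc := pcF3) (cut := Cut.none) (xt := Ext.none) (P1 := 1239849684) (W1 := 370763052) (P2 := 536870912) (W2 := 536870912) (P3 := 67108864) (W3 := 67108864)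
    rfl rfl rfl (fun _ => rfl) k0_pm_213_b

noncomputable def f_pm_303 : ℕ → ℕ → ℕ → ℕ → Bool := onCell 1610612736 536870912 0 536870912 67108864 67108864
    (rowFK 2 true true false .npn 3 0 3 (qsf 1610612736 536870912 0 536870912 3) ndF2q3 ndF2q0 pcF3 Cut.none Ext.none)

def k0_pm_303 : ∃ t, chk3 f_pm_303 t 1 1 1 = true :=
  ⟨(a (b (a (b (a (b (l 19094576) (l 18891848)) (l 19061744)) (l 18678608)) (b (a (l 18805344) (l 18702664)) (l 18630256))) (a (l 1) (b (l 18235120) (l 1)))) (a (b (b (a (l 18481584) (l 4)) (l 18130176)) (l 4)) (l 4))), by decide +kernel⟩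

theorem c_pm_303 : CertF 1610612736 536870912 0 536870912 67108864 67108864 true true false .npn 3 0 3
    ndF2q3 ndF2q0 pcF3 Cut.none Ext.none :=
  certFK2 (fam := true) (s1 := true) (s2 := false) (a := 3) (b := 0) (c := 3) (cn := .npn) (n1 := ndF2q3) (n2 := ndF2q0) (pc := pcF3) (cut := Cut.none) (xt := Ext.none) (P1 := 1610612736) (W1 := 536870912) (P2 := 0) (W2 := 536870912) (P3 := 67108864) (W3 := 67108864)
    rfl rfl rfl (fun _ => rfl) k0_pm_303

noncomputable def f_pm_313 : ℕ → ℕ → ℕ → ℕ → Bool := onCell 1610612736 536870912 536870912 536870912 67108864 67108864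
    (rowFK 0 true true false .dn 3 1 3 (qsf 1610612736 536870912 536870912 536870912 3) ndF2q3 ndF2q1 pcF3 Cut.none Ext.none)

def k0_pm_313 : ∃ t, chk3 f_pm_313 t 1 1 1 = true :=
  ⟨(l 4), by decide +kernel⟩

theorem c_pm_313 : CertF 1610612736 536870912 536870912 536870912 67108864 67108864 true true false .dn 3 1 3
    ndF2q3 ndF2q1 pcF3 Cut.none Ext.none :=
  certFK0 (fam := true) (s1 := true) (s2 := false) (a := 3) (b := 1) (c := 3) (cn := .dn) (n1 := ndF2q3) (n2 := ndF2q1) (pc := pcF3) (cut := Cut.none) (xt := Ext.none) (P1 := 1610612736) (W1 := 536870912) (P2 := 536870912) (W2 := 536870912) (P3 := 67108864) (W3 := 67108864)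
    rfl rfl rfl k0_pm_313

noncomputable def f_mm_001 : ℕ → ℕ → ℕ → ℕ → Bool := onCell 0 536870912 0 536870912 67108864 67108864
    (rowFK 0 true false false .up 0 0 1 (qsf 0 536870912 0 536870912 1) ndF2q0 ndF2q0 pcF1 Cut.none Ext.none)

def k0_mm_001 : ∃ t, chk3 f_mm_001 t 1 1 1 = true :=
  ⟨(l 4), by decide +kernel⟩

theorem c_mm_001 : CertF 0 536870912 0 536870912 67108864 67108864 true false false .up 0 0 1
    ndF2q0 ndF2q0 pcF1 Cut.none Ext.none :=
  certFK0 (fam := true) (s1 := false) (s2 := false) (a := 0) (b := 0) (c := 1) (cn := .up) (n1 := ndF2q0) (n2 := ndF2q0) (pc := pcF1) (cut := Cut.none) (xt := Ext.none) (P1 := 0) (W1 := 536870912) (P2 := 0) (W2 := 536870912) (P3 := 67108864) (W3 := 67108864)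
    rfl rfl rfl k0_mm_001

noncomputable def f_mm_011 : ℕ → ℕ → ℕ → ℕ → Bool := onCell 0 536870912 536870912 536870912 67108864 67108864
    (rowFK 0 true false false .pnn 0 1 1 (qsf 0 536870912 536870912 536870912 1) ndF2q0 ndF2q1 pcF1 Cut.none Ext.none)

def k0_mm_011 : ∃ t, chk3 f_mm_011 t 1 1 1 = true :=
  ⟨(l 4), by decide +kernel⟩

theorem c_mm_011 : CertF 0 536870912 536870912 536870912 67108864 67108864 true false false .pnn 0 1 1
    ndF2q0 ndF2q1 pcF1 Cut.none Ext.none :=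
  certFK0 (fam := true) (s1 := false) (s2 := false) (a := 0) (b := 1) (c := 1) (cn := .pnn) (n1 := ndF2q0) (n2 := ndF2q1) (pc := pcF1) (cut := Cut.none) (xt := Ext.none) (P1 := 0) (W1 := 536870912) (P2 := 536870912) (W2 := 536870912) (P3 := 67108864) (W3 := 67108864)
    rfl rfl rfl k0_mm_011

noncomputable def f_mm_012 : ℕ → ℕ → ℕ → ℕ → Bool := onCell 0 536870912 536870912 536870912 67108864 67108864
    (rowFK 0 true false false .pnp 0 1 2 (qsf 0 536870912 536870912 536870912 2) ndF2q0 ndF2q1 pcF2 Cut.none Ext.none)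

def k0_mm_012 : ∃ t, chk3 f_mm_012 t 1 1 1 = true :=
  ⟨(l 4), by decide +kernel⟩

theorem c_mm_012 : CertF 0 536870912 536870912 536870912 67108864 67108864 true false false .pnp 0 1 2
    ndF2q0 ndF2q1 pcF2 Cut.none Ext.none :=
  certFK0 (fam := true) (s1 := false) (s2 := false) (a := 0) (b := 1) (c := 2) (cn := .pnp) (n1 := ndF2q0) (n2 := ndF2q1) (pc := pcF2) (cut := Cut.none) (xt := Ext.none) (P1 := 0) (W1 := 536870912) (P2 := 536870912) (W2 := 536870912) (P3 := 67108864) (W3 := 67108864)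
    rfl rfl rfl k0_mm_012

noncomputable def f_mm_022_a : ℕ → ℕ → ℕ → ℕ → Bool := onCell 0 536870912 0 536870912 67108864 67108864
    (rowFK 0 true false false .pp 0 2 2 (qsf 0 536870912 0 536870912 2) ndF2q0 ndF2q2a pcF2 Cut.none Ext.none)

def k0_mm_022_a : ∃ t, chk3 f_mm_022_a t 1 1 1 = true :=
  ⟨(l 5), by decide +kernel⟩

theorem c_mm_022_a : CertF 0 536870912 0 536870912 67108864 67108864 true false false .pp 0 2 2
    ndF2q0 ndF2q2a pcF2 Cut.none Ext.none :=
  certFK0 (fam := true) (s1 := false) (s2 := false) (a := 0) (b := 2) (c := 2) (cn := .pp) (n1 := ndF2q0) (n2 := ndF2q2a) (pc := pcF2) (cut := Cut.none) (xt := Ext.none) (P1 := 0) (W1 := 536870912) (P2 := 0) (W2 := 536870912) (P3 := 67108864) (W3 := 67108864)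
    rfl rfl rfl k0_mm_022_a

noncomputable def f_mm_022_b : ℕ → ℕ → ℕ → ℕ → Bool := onCell 0 536870912 1239849684 370763052 67108864 67108864
    (rowFK 0 true false false .pp 0 2 2 (qsf 0 536870912 1239849684 370763052 2) ndF2q0 ndF2q2b pcF2 Cut.none Ext.none)

def k0_mm_022_b : ∃ t, chk3 f_mm_022_b t 1 1 1 = true :=
  ⟨(l 5), by decide +kernel⟩

theorem c_mm_022_b : CertF 0 536870912 1239849684 370763052 67108864 67108864 true false false .pp 0 2 2
    ndF2q0 ndF2q2b pcF2 Cut.none Ext.none :=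
  certFK0 (fam := true) (s1 := false) (s2 := false) (a := 0) (b := 2) (c := 2) (cn := .pp) (n1 := ndF2q0) (n2 := ndF2q2b) (pc := pcF2) (cut := Cut.none) (xt := Ext.none) (P1 := 0) (W1 := 536870912) (P2 := 1239849684) (W2 := 370763052) (P3 := 67108864) (W3 := 67108864)
    rfl rfl rfl k0_mm_022_b

noncomputable def f_mm_023_a : ℕ → ℕ → ℕ → ℕ → Bool := onCell 0 536870912 0 536870912 67108864 67108864
    (rowFK 0 true false false .up 0 2 3 (qsf 0 536870912 0 536870912 3) ndF2q0 ndF2q2a pcF3 Cut.none Ext.none)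

def k0_mm_023_a : ∃ t, chk3 f_mm_023_a t 1 1 1 = true :=
  ⟨(l 5), by decide +kernel⟩

theorem c_mm_023_a : CertF 0 536870912 0 536870912 67108864 67108864 true false false .up 0 2 3
    ndF2q0 ndF2q2a pcF3 Cut.none Ext.none :=
  certFK0 (fam := true) (s1 := false) (s2 := false) (a := 0) (b := 2) (c := 3) (cn := .up) (n1 := ndF2q0) (n2 := ndF2q2a) (pc := pcF3) (cut := Cut.none) (xt := Ext.none) (P1 := 0) (W1 := 536870912) (P2 := 0) (W2 := 536870912) (P3 := 67108864) (W3 := 67108864)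
    rfl rfl rfl k0_mm_023_a

noncomputable def f_mm_023_b : ℕ → ℕ → ℕ → ℕ → Bool := onCell 0 536870912 1239849684 370763052 67108864 67108864
    (rowFK 0 true false false .up 0 2 3 (qsf 0 536870912 1239849684 370763052 3) ndF2q0 ndF2q2b pcF3 Cut.none Ext.none)

def k0_mm_023_b : ∃ t, chk3 f_mm_023_b t 1 1 1 = true :=
  ⟨(l 5), by decide +kernel⟩

theorem c_mm_023_b : CertF 0 536870912 1239849684 370763052 67108864 67108864 true false false .up 0 2 3
    ndF2q0 ndF2q2b pcF3 Cut.none Ext.none :=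
  certFK0 (fam := true) (s1 := false) (s2 := false) (a := 0) (b := 2) (c := 3) (cn := .up) (n1 := ndF2q0) (n2 := ndF2q2b) (pc := pcF3) (cut := Cut.none) (xt := Ext.none) (P1 := 0) (W1 := 536870912) (P2 := 1239849684) (W2 := 370763052) (P3 := 67108864) (W3 := 67108864)
    rfl rfl rfl k0_mm_023_b

noncomputable def f_mm_033 : ℕ → ℕ → ℕ → ℕ → Bool := onCell 0 536870912 1610612736 536870912 67108864 67108864
    (rowFK 0 true false false .pnn 0 3 3 (qsf 0 536870912 1610612736 536870912 3) ndF2q0 ndF2q3 pcF3 Cut.none Ext.none)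

def k0_mm_033 : ∃ t, chk3 f_mm_033 t 1 1 1 = true :=
  ⟨(l 4), by decide +kernel⟩

theorem c_mm_033 : CertF 0 536870912 1610612736 536870912 67108864 67108864 true false false .pnn 0 3 3
    ndF2q0 ndF2q3 pcF3 Cut.none Ext.none :=
  certFK0 (fam := true) (s1 := false) (s2 := false) (a := 0) (b := 3) (c := 3) (cn := .pnn) (n1 := ndF2q0) (n2 := ndF2q3) (pc := pcF3) (cut := Cut.none) (xt := Ext.none) (P1 := 0) (W1 := 536870912) (P2 := 1610612736) (W2 := 536870912) (P3 := 67108864) (W3 := 67108864)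
    rfl rfl rfl k0_mm_033

noncomputable def f_mm_101 : ℕ → ℕ → ℕ → ℕ → Bool := onCell 536870912 536870912 0 536870912 67108864 67108864
    (rowFK 0 true false false .npn 1 0 1 (qsf 536870912 536870912 0 536870912 1) ndF2q1 ndF2q0 pcF1 Cut.none Ext.none)

def k0_mm_101 : ∃ t, chk3 f_mm_101 t 1 1 1 = true :=
  ⟨(l 4), by decide +kernel⟩

theorem c_mm_101 : CertF 536870912 536870912 0 536870912 67108864 67108864 true false false .npn 1 0 1
    ndF2q1 ndF2q0 pcF1 Cut.none Ext.none :=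
  certFK0 (fam := true) (s1 := false) (s2 := false) (a := 1) (b := 0) (c := 1) (cn := .npn) (n1 := ndF2q1) (n2 := ndF2q0) (pc := pcF1) (cut := Cut.none) (xt := Ext.none) (P1 := 536870912) (W1 := 536870912) (P2 := 0) (W2 := 536870912) (P3 := 67108864) (W3 := 67108864)
    rfl rfl rfl k0_mm_101

noncomputable def f_mm_102 : ℕ → ℕ → ℕ → ℕ → Bool := onCell 536870912 536870912 0 536870912 67108864 67108864
    (rowFK 0 true false false .npp 1 0 2 (qsf 536870912 536870912 0 536870912 2) ndF2q1 ndF2q0 pcF2 Cut.none Ext.none)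

def k0_mm_102 : ∃ t, chk3 f_mm_102 t 1 1 1 = true :=
  ⟨(l 4), by decide +kernel⟩

theorem c_mm_102 : CertF 536870912 536870912 0 536870912 67108864 67108864 true false false .npp 1 0 2
    ndF2q1 ndF2q0 pcF2 Cut.none Ext.none :=
  certFK0 (fam := true) (s1 := false) (s2 := false) (a := 1) (b := 0) (c := 2) (cn := .npp) (n1 := ndF2q1) (n2 := ndF2q0) (pc := pcF2) (cut := Cut.none) (xt := Ext.none) (P1 := 536870912) (W1 := 536870912) (P2 := 0) (W2 := 536870912) (P3 := 67108864) (W3 := 67108864)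
    rfl rfl rfl k0_mm_102

noncomputable def f_mm_112 : ℕ → ℕ → ℕ → ℕ → Bool := onCell 536870912 536870912 536870912 536870912 67108864 67108864
    (rowFK 0 true false false .dn 1 1 2 (qsf 536870912 536870912 536870912 536870912 2) ndF2q1 ndF2q1 pcF2 Cut.none Ext.none)

def k0_mm_112 : ∃ t, chk3 f_mm_112 t 1 1 1 = true :=
  ⟨(l 4), by decide +kernel⟩

theorem c_mm_112 : CertF 536870912 536870912 536870912 536870912 67108864 67108864 true false false .dn 1 1 2
    ndF2q1 ndF2q1 pcF2 Cut.none Ext.none :=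
  certFK0 (fam := true) (s1 := false) (s2 := false) (a := 1) (b := 1) (c := 2) (cn := .dn) (n1 := ndF2q1) (n2 := ndF2q1) (pc := pcF2) (cut := Cut.none) (xt := Ext.none) (P1 := 536870912) (W1 := 536870912) (P2 := 536870912) (W2 := 536870912) (P3 := 67108864) (W3 := 67108864)
    rfl rfl rfl k0_mm_112

noncomputable def f_mm_113 : ℕ → ℕ → ℕ → ℕ → Bool := onCell 536870912 536870912 536870912 536870912 67108864 67108864
    (rowFK 0 true false false .nn 1 1 3 (qsf 536870912 536870912 536870912 536870912 3) ndF2q1 ndF2q1 pcF3 Cut.none Ext.none)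

def k0_mm_113 : ∃ t, chk3 f_mm_113 t 1 1 1 = true :=
  ⟨(l 4), by decide +kernel⟩

theorem c_mm_113 : CertF 536870912 536870912 536870912 536870912 67108864 67108864 true false false .nn 1 1 3
    ndF2q1 ndF2q1 pcF3 Cut.none Ext.none :=
  certFK0 (fam := true) (s1 := false) (s2 := false) (a := 1) (b := 1) (c := 3) (cn := .nn) (n1 := ndF2q1) (n2 := ndF2q1) (pc := pcF3) (cut := Cut.none) (xt := Ext.none) (P1 := 536870912) (W1 := 536870912) (P2 := 536870912) (W2 := 536870912) (P3 := 67108864) (W3 := 67108864)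
    rfl rfl rfl k0_mm_113

noncomputable def f_mm_123_a : ℕ → ℕ → ℕ → ℕ → Bool := onCell 536870912 536870912 0 536870912 67108864 67108864
    (rowFK 0 true false false .npn 1 2 3 (qsf 536870912 536870912 0 536870912 3) ndF2q1 ndF2q2a pcF3 Cut.none Ext.none)

def k0_mm_123_a : ∃ t, chk3 f_mm_123_a t 1 1 1 = true :=
  ⟨(l 4), by decide +kernel⟩

theorem c_mm_123_a : CertF 536870912 536870912 0 536870912 67108864 67108864 true false false .npn 1 2 3
    ndF2q1 ndF2q2a pcF3 Cut.none Ext.none :=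
  certFK0 (fam := true) (s1 := false) (s2 := false) (a := 1) (b := 2) (c := 3) (cn := .npn) (n1 := ndF2q1) (n2 := ndF2q2a) (pc := pcF3) (cut := Cut.none) (xt := Ext.none) (P1 := 536870912) (W1 := 536870912) (P2 := 0) (W2 := 536870912) (P3 := 67108864) (W3 := 67108864)
    rfl rfl rfl k0_mm_123_a

noncomputable def f_mm_123_b : ℕ → ℕ → ℕ → ℕ → Bool := onCell 536870912 536870912 1239849684 370763052 67108864 67108864
    (rowFK 0 true false false .npn 1 2 3 (qsf 536870912 536870912 1239849684 370763052 3) ndF2q1 ndF2q2b pcF3 Cut.none Ext.none)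

def k0_mm_123_b : ∃ t, chk3 f_mm_123_b t 1 1 1 = true :=
  ⟨(l 4), by decide +kernel⟩

theorem c_mm_123_b : CertF 536870912 536870912 1239849684 370763052 67108864 67108864 true false false .npn 1 2 3
    ndF2q1 ndF2q2b pcF3 Cut.none Ext.none :=
  certFK0 (fam := true) (s1 := false) (s2 := false) (a := 1) (b := 2) (c := 3) (cn := .npn) (n1 := ndF2q1) (n2 := ndF2q2b) (pc := pcF3) (cut := Cut.none) (xt := Ext.none) (P1 := 536870912) (W1 := 536870912) (P2 := 1239849684) (W2 := 370763052) (P3 := 67108864) (W3 := 67108864)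
    rfl rfl rfl k0_mm_123_b

noncomputable def f_mm_133 : ℕ → ℕ → ℕ → ℕ → Bool := onCell 536870912 536870912 1610612736 536870912 67108864 67108864
    (rowFK 0 true false false .dn 1 3 3 (qsf 536870912 536870912 1610612736 536870912 3) ndF2q1 ndF2q3 pcF3 Cut.none Ext.none)

def k0_mm_133 : ∃ t, chk3 f_mm_133 t 1 1 1 = true :=
  ⟨(l 4), by decide +kernel⟩

theorem c_mm_133 : CertF 536870912 536870912 1610612736 536870912 67108864 67108864 true false false .dn 1 3 3
    ndF2q1 ndF2q3 pcF3 Cut.none Ext.none :=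
  certFK0 (fam := true) (s1 := false) (s2 := false) (a := 1) (b := 3) (c := 3) (cn := .dn) (n1 := ndF2q1) (n2 := ndF2q3) (pc := pcF3) (cut := Cut.none) (xt := Ext.none) (P1 := 536870912) (W1 := 536870912) (P2 := 1610612736) (W2 := 536870912) (P3 := 67108864) (W3 := 67108864)
    rfl rfl rfl k0_mm_133

noncomputable def cut_mm_202_a : Cut := Cut.of [[⟨0, 1, 0, 67108864⟩, ⟨1, 0, 0, 67108864⟩, ⟨2, 1, 0, 67108864⟩]]

noncomputable def f_mm_202_a : ℕ → ℕ → ℕ → ℕ → Bool := onCell 0 536870912 0 536870912 67108864 67108864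
    (rowFK 0 true false false .pp 2 0 2 (qsf 0 536870912 0 536870912 2) ndF2q2a ndF2q0 pcF2 cut_mm_202_a Ext.none)

def k0_mm_202_a : ∃ t, chk3 f_mm_202_a t 1 1 1 = true :=
  ⟨(b (a (l 4) (a (l 4) (b (a (l 4) (b (b (a (l 4) (l 6)) (l 4)) (l 4))) (l 4)))) (l 4)), by decide +kernel⟩

theorem c_mm_202_a : CertF 0 536870912 0 536870912 67108864 67108864 true false false .pp 2 0 2
    ndF2q2a ndF2q0 pcF2 cut_mm_202_a Ext.none :=
  certFK0 (fam := true) (s1 := false) (s2 := false) (a := 2) (b := 0) (c := 2) (cn := .pp) (n1 := ndF2q2a) (n2 := ndF2q0) (pc := pcF2) (cut := cut_mm_202_a) (xt := Ext.none) (P1 := 0) (W1 := 536870912) (P2 := 0) (W2 := 536870912) (P3 := 67108864) (W3 := 67108864)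
    rfl rfl rfl k0_mm_202_a

noncomputable def cut_mm_202_b : Cut := Cut.of [[⟨0, 1, 0, 67108864⟩, ⟨1, 0, 0, 67108864⟩, ⟨2, 1, 0, 67108864⟩]]

noncomputable def f_mm_202_b : ℕ → ℕ → ℕ → ℕ → Bool := onCell 1239849684 370763052 0 536870912 67108864 67108864
    (rowFK 0 true false false .pp 2 0 2 (qsf 1239849684 370763052 0 536870912 2) ndF2q2b ndF2q0 pcF2 cut_mm_202_b Ext.none)

def k0_mm_202_b : ∃ t, chk3 f_mm_202_b t 1 1 1 = true :=
  ⟨(b (l 4) (l 4)), by decide +kernel⟩

theorem c_mm_202_b : CertF 1239849684 370763052 0 536870912 67108864 67108864 true false false .pp 2 0 2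
    ndF2q2b ndF2q0 pcF2 cut_mm_202_b Ext.none :=
  certFK0 (fam := true) (s1 := false) (s2 := false) (a := 2) (b := 0) (c := 2) (cn := .pp) (n1 := ndF2q2b) (n2 := ndF2q0) (pc := pcF2) (cut := cut_mm_202_b) (xt := Ext.none) (P1 := 1239849684) (W1 := 370763052) (P2 := 0) (W2 := 536870912) (P3 := 67108864) (W3 := 67108864)
    rfl rfl rfl k0_mm_202_b

noncomputable def f_mm_203_a : ℕ → ℕ → ℕ → ℕ → Bool := onCell 0 536870912 1610612736 536870912 67108864 67108864
    (rowFK 1 true false false .up 2 0 3 (qsf 0 536870912 0 536870912 3) ndF2q2a ndF2q0 pcF3 Cut.none Ext.none)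

def k0_mm_203_a : ∃ t, chk3 f_mm_203_a t 1 1 1 = true :=
  ⟨(l 4), by decide +kernel⟩

theorem c_mm_203_a : CertF 0 536870912 0 536870912 67108864 67108864 true false false .up 2 0 3
    ndF2q2a ndF2q0 pcF3 Cut.none Ext.none :=
  certFK1 (fam := true) (s1 := false) (s2 := false) (a := 2) (b := 0) (c := 3) (cn := .up) (n1 := ndF2q2a) (n2 := ndF2q0) (pc := pcF3) (cut := Cut.none) (xt := Ext.none) (P1 := 0) (W1 := 536870912) (P2 := 0) (W2 := 536870912) (P3 := 67108864) (W3 := 67108864)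
    rfl rfl rfl (fun _ => rfl) k0_mm_203_a

noncomputable def f_mm_203_b : ℕ → ℕ → ℕ → ℕ → Bool := onCell 1239849684 370763052 1610612736 536870912 67108864 67108864
    (rowFK 1 true false false .up 2 0 3 (qsf 1239849684 370763052 0 536870912 3) ndF2q2b ndF2q0 pcF3 Cut.none Ext.none)

def k0_mm_203_b : ∃ t, chk3 f_mm_203_b t 1 1 1 = true :=
  ⟨(l 4), by decide +kernel⟩

theorem c_mm_203_b : CertF 1239849684 370763052 0 536870912 67108864 67108864 true false false .up 2 0 3
    ndF2q2b ndF2q0 pcF3 Cut.none Ext.none :=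
  certFK1 (fam := true) (s1 := false) (s2 := false) (a := 2) (b := 0) (c := 3) (cn := .up) (n1 := ndF2q2b) (n2 := ndF2q0) (pc := pcF3) (cut := Cut.none) (xt := Ext.none) (P1 := 1239849684) (W1 := 370763052) (P2 := 0) (W2 := 536870912) (P3 := 67108864) (W3 := 67108864)
    rfl rfl rfl (fun _ => rfl) k0_mm_203_b

noncomputable def f_mm_213_a : ℕ → ℕ → ℕ → ℕ → Bool := onCell 0 536870912 536870912 536870912 67108864 67108864
    (rowFK 0 true false false .pnn 2 1 3 (qsf 0 536870912 536870912 536870912 3) ndF2q2a ndF2q1 pcF3 Cut.none Ext.none)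

def k0_mm_213_a : ∃ t, chk3 f_mm_213_a t 1 1 1 = true :=
  ⟨(l 4), by decide +kernel⟩

theorem c_mm_213_a : CertF 0 536870912 536870912 536870912 67108864 67108864 true false false .pnn 2 1 3
    ndF2q2a ndF2q1 pcF3 Cut.none Ext.none :=
  certFK0 (fam := true) (s1 := false) (s2 := false) (a := 2) (b := 1) (c := 3) (cn := .pnn) (n1 := ndF2q2a) (n2 := ndF2q1) (pc := pcF3) (cut := Cut.none) (xt := Ext.none) (P1 := 0) (W1 := 536870912) (P2 := 536870912) (W2 := 536870912) (P3 := 67108864) (W3 := 67108864)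
    rfl rfl rfl k0_mm_213_a

noncomputable def f_mm_213_b : ℕ → ℕ → ℕ → ℕ → Bool := onCell 1239849684 370763052 536870912 536870912 67108864 67108864
    (rowFK 0 true false false .pnn 2 1 3 (qsf 1239849684 370763052 536870912 536870912 3) ndF2q2b ndF2q1 pcF3 Cut.none Ext.none)

def k0_mm_213_b : ∃ t, chk3 f_mm_213_b t 1 1 1 = true :=
  ⟨(l 4), by decide +kernel⟩

theorem c_mm_213_b : CertF 1239849684 370763052 536870912 536870912 67108864 67108864 true false false .pnn 2 1 3
    ndF2q2b ndF2q1 pcF3 Cut.none Ext.none :=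
  certFK0 (fam := true) (s1 := false) (s2 := false) (a := 2) (b := 1) (c := 3) (cn := .pnn) (n1 := ndF2q2b) (n2 := ndF2q1) (pc := pcF3) (cut := Cut.none) (xt := Ext.none) (P1 := 1239849684) (W1 := 370763052) (P2 := 536870912) (W2 := 536870912) (P3 := 67108864) (W3 := 67108864)
    rfl rfl rfl k0_mm_213_b

noncomputable def f_mm_303 : ℕ → ℕ → ℕ → ℕ → Bool := onCell 1610612736 536870912 0 536870912 67108864 67108864
    (rowFK 0 true false false .npn 3 0 3 (qsf 1610612736 536870912 0 536870912 3) ndF2q3 ndF2q0 pcF3 Cut.none Ext.none)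

def k0_mm_303 : ∃ t, chk3 f_mm_303 t 1 1 1 = true :=
  ⟨(l 4), by decide +kernel⟩

theorem c_mm_303 : CertF 1610612736 536870912 0 536870912 67108864 67108864 true false false .npn 3 0 3
    ndF2q3 ndF2q0 pcF3 Cut.none Ext.none :=
  certFK0 (fam := true) (s1 := false) (s2 := false) (a := 3) (b := 0) (c := 3) (cn := .npn) (n1 := ndF2q3) (n2 := ndF2q0) (pc := pcF3) (cut := Cut.none) (xt := Ext.none) (P1 := 1610612736) (W1 := 536870912) (P2 := 0) (W2 := 536870912) (P3 := 67108864) (W3 := 67108864)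
    rfl rfl rfl k0_mm_303

noncomputable def f_mm_313 : ℕ → ℕ → ℕ → ℕ → Bool := onCell 1610612736 536870912 536870912 536870912 67108864 67108864
    (rowFK 0 true false false .dn 3 1 3 (qsf 1610612736 536870912 536870912 536870912 3) ndF2q3 ndF2q1 pcF3 Cut.none Ext.none)

def k0_mm_313 : ∃ t, chk3 f_mm_313 t 1 1 1 = true :=
  ⟨(l 4), by decide +kernel⟩

theorem c_mm_313 : CertF 1610612736 536870912 536870912 536870912 67108864 67108864 true false false .dn 3 1 3
    ndF2q3 ndF2q1 pcF3 Cut.none Ext.none :=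
  certFK0 (fam := true) (s1 := false) (s2 := false) (a := 3) (b := 1) (c := 3) (cn := .dn) (n1 := ndF2q3) (n2 := ndF2q1) (pc := pcF3) (cut := Cut.none) (xt := Ext.none) (P1 := 1610612736) (W1 := 536870912) (P2 := 536870912) (W2 := 536870912) (P3 := 67108864) (W3 := 67108864)
    rfl rfl rfl k0_mm_313

end Pool.Agent.Strip051.G.I1_16_1_8.Tab.C.FA22

namespace Pool.Agent.Strip051.G.I1_16_1_8.Tab.C.FA23

open Pool.Agent.Strip051.PB Pool.Agent.Strip051.PB.T
open Pool.Agent.Strip051.G.I1_16_1_8.Tab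

noncomputable def f_pp_001 : ℕ → ℕ → ℕ → ℕ → Bool := onCell 0 536870912 0 536870912 67108864 67108864
    (rowFK 0 true true true .up 0 0 1 (qsf 0 536870912 0 536870912 1) ndF2q0 ndF3q0 pcF1 Cut.none Ext.none)

def k0_pp_001 : ∃ t, chk3 f_pp_001 t 1 1 1 = true :=
  ⟨(l 4), by decide +kernel⟩

theorem c_pp_001 : CertF 0 536870912 0 536870912 67108864 67108864 true true true .up 0 0 1
    ndF2q0 ndF3q0 pcF1 Cut.none Ext.none :=
  certFK0 (fam := true) (s1 := true) (s2 := true) (a := 0) (b := 0) (c := 1) (cn := .up) (n1 := ndF2q0) (n2 := ndF3q0) (pc := pcF1) (cut := Cut.none) (xt := Ext.none) (P1 := 0) (W1 := 536870912) (P2 := 0) (W2 := 536870912) (P3 := 67108864) (W3 := 67108864)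
    rfl rfl rfl k0_pp_001

noncomputable def f_pp_011 : ℕ → ℕ → ℕ → ℕ → Bool := onCell 0 536870912 536870912 536870912 67108864 67108864
    (rowFK 0 true true true .pnn 0 1 1 (qsf 0 536870912 536870912 536870912 1) ndF2q0 ndF3q1 pcF1 Cut.none Ext.none)

def k0_pp_011 : ∃ t, chk3 f_pp_011 t 1 1 1 = true :=
  ⟨(l 4), by decide +kernel⟩

theorem c_pp_011 : CertF 0 536870912 536870912 536870912 67108864 67108864 true true true .pnn 0 1 1
    ndF2q0 ndF3q1 pcF1 Cut.none Ext.none :=
  certFK0 (fam := true) (s1 := true) (s2 := true) (a := 0) (b := 1) (c := 1) (cn := .pnn) (n1 := ndF2q0) (n2 := ndF3q1) (pc := pcF1) (cut := Cut.none) (xt := Ext.none) (P1 := 0) (W1 := 536870912) (P2 := 536870912) (W2 := 536870912) (P3 := 67108864) (W3 := 67108864)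
    rfl rfl rfl k0_pp_011

noncomputable def f_pp_012 : ℕ → ℕ → ℕ → ℕ → Bool := onCell 0 536870912 536870912 536870912 67108864 67108864
    (rowFK 0 true true true .pnp 0 1 2 (qsf 0 536870912 536870912 536870912 2) ndF2q0 ndF3q1 pcF2 Cut.none Ext.none)

def k0_pp_012 : ∃ t, chk3 f_pp_012 t 1 1 1 = true :=
  ⟨(l 4), by decide +kernel⟩

theorem c_pp_012 : CertF 0 536870912 536870912 536870912 67108864 67108864 true true true .pnp 0 1 2
    ndF2q0 ndF3q1 pcF2 Cut.none Ext.none :=
  certFK0 (fam := true) (s1 := true) (s2 := true) (a := 0) (b := 1) (c := 2) (cn := .pnp) (n1 := ndF2q0) (n2 := ndF3q1) (pc := pcF2) (cut := Cut.none) (xt := Ext.none) (P1 := 0) (W1 := 536870912) (P2 := 536870912) (W2 := 536870912) (P3 := 67108864) (W3 := 67108864)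
    rfl rfl rfl k0_pp_012

noncomputable def f_pp_022 : ℕ → ℕ → ℕ → ℕ → Bool := onCell 0 536870912 1073741824 536870912 67108864 67108864
    (rowFK 0 true true true .pp 0 2 2 (qsf 0 536870912 1073741824 536870912 2) ndF2q0 ndF3q2 pcF2 Cut.none Ext.none)

def k0_pp_022 : ∃ t, chk3 f_pp_022 t 1 1 1 = true :=
  ⟨(l 4), by decide +kernel⟩

theorem c_pp_022 : CertF 0 536870912 1073741824 536870912 67108864 67108864 true true true .pp 0 2 2
    ndF2q0 ndF3q2 pcF2 Cut.none Ext.none :=
  certFK0 (fam := true) (s1 := true) (s2 := true) (a := 0) (b := 2) (c := 2) (cn := .pp) (n1 := ndF2q0) (n2 := ndF3q2) (pc := pcF2) (cut := Cut.none) (xt := Ext.none) (P1 := 0) (W1 := 536870912) (P2 := 1073741824) (W2 := 536870912) (P3 := 67108864) (W3 := 67108864)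
    rfl rfl rfl k0_pp_022

noncomputable def f_pp_023 : ℕ → ℕ → ℕ → ℕ → Bool := onCell 0 536870912 1073741824 536870912 67108864 67108864
    (rowFK 0 true true true .up 0 2 3 (qsf 0 536870912 1073741824 536870912 3) ndF2q0 ndF3q2 pcF3 Cut.none Ext.none)

def k0_pp_023 : ∃ t, chk3 f_pp_023 t 1 1 1 = true :=
  ⟨(l 4), by decide +kernel⟩

theorem c_pp_023 : CertF 0 536870912 1073741824 536870912 67108864 67108864 true true true .up 0 2 3
    ndF2q0 ndF3q2 pcF3 Cut.none Ext.none :=
  certFK0 (fam := true) (s1 := true) (s2 := true) (a := 0) (b := 2) (c := 3) (cn := .up) (n1 := ndF2q0) (n2 := ndF3q2) (pc := pcF3) (cut := Cut.none) (xt := Ext.none) (P1 := 0) (W1 := 536870912) (P2 := 1073741824) (W2 := 536870912) (P3 := 67108864) (W3 := 67108864)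
    rfl rfl rfl k0_pp_023

noncomputable def f_pp_033 : ℕ → ℕ → ℕ → ℕ → Bool := onCell 0 536870912 0 1230186008 67108864 67108864
    (rowFK 0 true true true .pnn 0 3 3 (qsf 0 536870912 0 1230186008 3) ndF2q0 ndF3q3 pcF3 Cut.none Ext.none)

def k0_pp_033 : ∃ t, chk3 f_pp_033 t 1 1 1 = true :=
  ⟨(b (l 4) (l 4)), by decide +kernel⟩

theorem c_pp_033 : CertF 0 536870912 0 1230186008 67108864 67108864 true true true .pnn 0 3 3
    ndF2q0 ndF3q3 pcF3 Cut.none Ext.none :=
  certFK0 (fam := true) (s1 := true) (s2 := true) (a := 0) (b := 3) (c := 3) (cn := .pnn) (n1 := ndF2q0) (n2 := ndF3q3) (pc := pcF3) (cut := Cut.none) (xt := Ext.none) (P1 := 0) (W1 := 536870912) (P2 := 0) (W2 := 1230186008) (P3 := 67108864) (W3 := 67108864)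
    rfl rfl rfl k0_pp_033

noncomputable def f_pp_101 : ℕ → ℕ → ℕ → ℕ → Bool := onCell 536870912 536870912 0 536870912 67108864 67108864
    (rowFK 0 true true true .npn 1 0 1 (qsf 536870912 536870912 0 536870912 1) ndF2q1 ndF3q0 pcF1 Cut.none Ext.none)

def k0_pp_101 : ∃ t, chk3 f_pp_101 t 1 1 1 = true :=
  ⟨(l 4), by decide +kernel⟩

theorem c_pp_101 : CertF 536870912 536870912 0 536870912 67108864 67108864 true true true .npn 1 0 1
    ndF2q1 ndF3q0 pcF1 Cut.none Ext.none :=
  certFK0 (fam := true) (s1 := true) (s2 := true) (a := 1) (b := 0) (c := 1) (cn := .npn) (n1 := ndF2q1) (n2 := ndF3q0) (pc := pcF1) (cut := Cut.none) (xt := Ext.none) (P1 := 536870912) (W1 := 536870912) (P2 := 0) (W2 := 536870912) (P3 := 67108864) (W3 := 67108864)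
    rfl rfl rfl k0_pp_101

noncomputable def f_pp_102 : ℕ → ℕ → ℕ → ℕ → Bool := onCell 536870912 536870912 0 536870912 67108864 67108864
    (rowFK 0 true true true .npp 1 0 2 (qsf 536870912 536870912 0 536870912 2) ndF2q1 ndF3q0 pcF2 Cut.none Ext.none)

def k0_pp_102 : ∃ t, chk3 f_pp_102 t 1 1 1 = true :=
  ⟨(l 4), by decide +kernel⟩

theorem c_pp_102 : CertF 536870912 536870912 0 536870912 67108864 67108864 true true true .npp 1 0 2
    ndF2q1 ndF3q0 pcF2 Cut.none Ext.none :=
  certFK0 (fam := true) (s1 := true) (s2 := true) (a := 1) (b := 0) (c := 2) (cn := .npp) (n1 := ndF2q1) (n2 := ndF3q0) (pc := pcF2) (cut := Cut.none) (xt := Ext.none) (P1 := 536870912) (W1 := 536870912) (P2 := 0) (W2 := 536870912) (P3 := 67108864) (W3 := 67108864)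
    rfl rfl rfl k0_pp_102

noncomputable def f_pp_112 : ℕ → ℕ → ℕ → ℕ → Bool := onCell 536870912 536870912 536870912 536870912 67108864 67108864
    (rowFK 0 true true true .dn 1 1 2 (qsf 536870912 536870912 536870912 536870912 2) ndF2q1 ndF3q1 pcF2 Cut.none Ext.none)

def k0_pp_112 : ∃ t, chk3 f_pp_112 t 1 1 1 = true :=
  ⟨(l 4), by decide +kernel⟩

theorem c_pp_112 : CertF 536870912 536870912 536870912 536870912 67108864 67108864 true true true .dn 1 1 2
    ndF2q1 ndF3q1 pcF2 Cut.none Ext.none :=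
  certFK0 (fam := true) (s1 := true) (s2 := true) (a := 1) (b := 1) (c := 2) (cn := .dn) (n1 := ndF2q1) (n2 := ndF3q1) (pc := pcF2) (cut := Cut.none) (xt := Ext.none) (P1 := 536870912) (W1 := 536870912) (P2 := 536870912) (W2 := 536870912) (P3 := 67108864) (W3 := 67108864)
    rfl rfl rfl k0_pp_112

noncomputable def f_pp_113 : ℕ → ℕ → ℕ → ℕ → Bool := onCell 536870912 536870912 536870912 536870912 67108864 67108864
    (rowFK 0 true true true .nn 1 1 3 (qsf 536870912 536870912 536870912 536870912 3) ndF2q1 ndF3q1 pcF3 Cut.none Ext.none)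

def k0_pp_113 : ∃ t, chk3 f_pp_113 t 1 1 1 = true :=
  ⟨(l 4), by decide +kernel⟩

theorem c_pp_113 : CertF 536870912 536870912 536870912 536870912 67108864 67108864 true true true .nn 1 1 3
    ndF2q1 ndF3q1 pcF3 Cut.none Ext.none :=
  certFK0 (fam := true) (s1 := true) (s2 := true) (a := 1) (b := 1) (c := 3) (cn := .nn) (n1 := ndF2q1) (n2 := ndF3q1) (pc := pcF3) (cut := Cut.none) (xt := Ext.none) (P1 := 536870912) (W1 := 536870912) (P2 := 536870912) (W2 := 536870912) (P3 := 67108864) (W3 := 67108864)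
    rfl rfl rfl k0_pp_113

noncomputable def f_pp_123 : ℕ → ℕ → ℕ → ℕ → Bool := onCell 536870912 536870912 1073741824 536870912 67108864 67108864
    (rowFK 0 true true true .npn 1 2 3 (qsf 536870912 536870912 1073741824 536870912 3) ndF2q1 ndF3q2 pcF3 Cut.none Ext.none)

def k0_pp_123 : ∃ t, chk3 f_pp_123 t 1 1 1 = true :=
  ⟨(l 4), by decide +kernel⟩

theorem c_pp_123 : CertF 536870912 536870912 1073741824 536870912 67108864 67108864 true true true .npn 1 2 3
    ndF2q1 ndF3q2 pcF3 Cut.none Ext.none :=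
  certFK0 (fam := true) (s1 := true) (s2 := true) (a := 1) (b := 2) (c := 3) (cn := .npn) (n1 := ndF2q1) (n2 := ndF3q2) (pc := pcF3) (cut := Cut.none) (xt := Ext.none) (P1 := 536870912) (W1 := 536870912) (P2 := 1073741824) (W2 := 536870912) (P3 := 67108864) (W3 := 67108864)
    rfl rfl rfl k0_pp_123

noncomputable def f_pp_133 : ℕ → ℕ → ℕ → ℕ → Bool := onCell 536870912 536870912 0 1230186008 67108864 67108864
    (rowFK 0 true true true .dn 1 3 3 (qsf 536870912 536870912 0 1230186008 3) ndF2q1 ndF3q3 pcF3 Cut.none Ext.none)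

def k0_pp_133 : ∃ t, chk3 f_pp_133 t 1 1 1 = true :=
  ⟨(l 4), by decide +kernel⟩

theorem c_pp_133 : CertF 536870912 536870912 0 1230186008 67108864 67108864 true true true .dn 1 3 3
    ndF2q1 ndF3q3 pcF3 Cut.none Ext.none :=
  certFK0 (fam := true) (s1 := true) (s2 := true) (a := 1) (b := 3) (c := 3) (cn := .dn) (n1 := ndF2q1) (n2 := ndF3q3) (pc := pcF3) (cut := Cut.none) (xt := Ext.none) (P1 := 536870912) (W1 := 536870912) (P2 := 0) (W2 := 1230186008) (P3 := 67108864) (W3 := 67108864)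
    rfl rfl rfl k0_pp_133

noncomputable def f_pp_202_a : ℕ → ℕ → ℕ → ℕ → Bool := onCell 0 536870912 0 536870912 67108864 67108864
    (rowFK 0 true true true .pp 2 0 2 (qsf 0 536870912 0 536870912 2) ndF2q2a ndF3q0 pcF2 Cut.none Ext.none)

def k0_pp_202_a : ∃ t, chk3 f_pp_202_a t 1 1 1 = true :=
  ⟨(l 4), by decide +kernel⟩

theorem c_pp_202_a : CertF 0 536870912 0 536870912 67108864 67108864 true true true .pp 2 0 2
    ndF2q2a ndF3q0 pcF2 Cut.none Ext.none :=
  certFK0 (fam := true) (s1 := true) (s2 := true) (a := 2) (b := 0) (c := 2) (cn := .pp) (n1 := ndF2q2a) (n2 := ndF3q0) (pc := pcF2) (cut := Cut.none) (xt := Ext.none) (P1 := 0) (W1 := 536870912) (P2 := 0) (W2 := 536870912) (P3 := 67108864) (W3 := 67108864)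
    rfl rfl rfl k0_pp_202_a

noncomputable def f_pp_202_b : ℕ → ℕ → ℕ → ℕ → Bool := onCell 1239849684 370763052 0 536870912 67108864 67108864
    (rowFK 0 true true true .pp 2 0 2 (qsf 1239849684 370763052 0 536870912 2) ndF2q2b ndF3q0 pcF2 Cut.none Ext.none)

def k0_pp_202_b : ∃ t, chk3 f_pp_202_b t 1 1 1 = true :=
  ⟨(l 4), by decide +kernel⟩

theorem c_pp_202_b : CertF 1239849684 370763052 0 536870912 67108864 67108864 true true true .pp 2 0 2
    ndF2q2b ndF3q0 pcF2 Cut.none Ext.none :=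
  certFK0 (fam := true) (s1 := true) (s2 := true) (a := 2) (b := 0) (c := 2) (cn := .pp) (n1 := ndF2q2b) (n2 := ndF3q0) (pc := pcF2) (cut := Cut.none) (xt := Ext.none) (P1 := 1239849684) (W1 := 370763052) (P2 := 0) (W2 := 536870912) (P3 := 67108864) (W3 := 67108864)
    rfl rfl rfl k0_pp_202_b

noncomputable def f_pp_203_a : ℕ → ℕ → ℕ → ℕ → Bool := onCell 0 536870912 0 536870912 67108864 67108864
    (rowFK 0 true true true .up 2 0 3 (qsf 0 536870912 0 536870912 3) ndF2q2a ndF3q0 pcF3 Cut.none Ext.none)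

def k0_pp_203_a : ∃ t, chk3 f_pp_203_a t 1 1 1 = true :=
  ⟨(l 4), by decide +kernel⟩

theorem c_pp_203_a : CertF 0 536870912 0 536870912 67108864 67108864 true true true .up 2 0 3
    ndF2q2a ndF3q0 pcF3 Cut.none Ext.none :=
  certFK0 (fam := true) (s1 := true) (s2 := true) (a := 2) (b := 0) (c := 3) (cn := .up) (n1 := ndF2q2a) (n2 := ndF3q0) (pc := pcF3) (cut := Cut.none) (xt := Ext.none) (P1 := 0) (W1 := 536870912) (P2 := 0) (W2 := 536870912) (P3 := 67108864) (W3 := 67108864)
    rfl rfl rfl k0_pp_203_a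

noncomputable def f_pp_203_b : ℕ → ℕ → ℕ → ℕ → Bool := onCell 1239849684 370763052 0 536870912 67108864 67108864
    (rowFK 0 true true true .up 2 0 3 (qsf 1239849684 370763052 0 536870912 3) ndF2q2b ndF3q0 pcF3 Cut.none Ext.none)

def k0_pp_203_b : ∃ t, chk3 f_pp_203_b t 1 1 1 = true :=
  ⟨(l 4), by decide +kernel⟩

theorem c_pp_203_b : CertF 1239849684 370763052 0 536870912 67108864 67108864 true true true .up 2 0 3
    ndF2q2b ndF3q0 pcF3 Cut.none Ext.none :=
  certFK0 (fam := true) (s1 := true) (s2 := true) (a := 2) (b := 0) (c := 3) (cn := .up) (n1 := ndF2q2b) (n2 := ndF3q0) (pc := pcF3) (cut := Cut.none) (xt := Ext.none) (P1 := 1239849684) (W1 := 370763052) (P2 := 0) (W2 := 536870912) (P3 := 67108864) (W3 := 67108864)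
    rfl rfl rfl k0_pp_203_b

noncomputable def f_pp_213_a : ℕ → ℕ → ℕ → ℕ → Bool := onCell 0 536870912 536870912 536870912 67108864 67108864
    (rowFK 0 true true true .pnn 2 1 3 (qsf 0 536870912 536870912 536870912 3) ndF2q2a ndF3q1 pcF3 Cut.none Ext.none)

def k0_pp_213_a : ∃ t, chk3 f_pp_213_a t 1 1 1 = true :=
  ⟨(l 4), by decide +kernel⟩

theorem c_pp_213_a : CertF 0 536870912 536870912 536870912 67108864 67108864 true true true .pnn 2 1 3
    ndF2q2a ndF3q1 pcF3 Cut.none Ext.none :=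
  certFK0 (fam := true) (s1 := true) (s2 := true) (a := 2) (b := 1) (c := 3) (cn := .pnn) (n1 := ndF2q2a) (n2 := ndF3q1) (pc := pcF3) (cut := Cut.none) (xt := Ext.none) (P1 := 0) (W1 := 536870912) (P2 := 536870912) (W2 := 536870912) (P3 := 67108864) (W3 := 67108864)
    rfl rfl rfl k0_pp_213_a

noncomputable def f_pp_213_b : ℕ → ℕ → ℕ → ℕ → Bool := onCell 1239849684 370763052 536870912 536870912 67108864 67108864
    (rowFK 0 true true true .pnn 2 1 3 (qsf 1239849684 370763052 536870912 536870912 3) ndF2q2b ndF3q1 pcF3 Cut.none Ext.none)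

def k0_pp_213_b : ∃ t, chk3 f_pp_213_b t 1 1 1 = true :=
  ⟨(l 4), by decide +kernel⟩

theorem c_pp_213_b : CertF 1239849684 370763052 536870912 536870912 67108864 67108864 true true true .pnn 2 1 3
    ndF2q2b ndF3q1 pcF3 Cut.none Ext.none :=
  certFK0 (fam := true) (s1 := true) (s2 := true) (a := 2) (b := 1) (c := 3) (cn := .pnn) (n1 := ndF2q2b) (n2 := ndF3q1) (pc := pcF3) (cut := Cut.none) (xt := Ext.none) (P1 := 1239849684) (W1 := 370763052) (P2 := 536870912) (W2 := 536870912) (P3 := 67108864) (W3 := 67108864)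
    rfl rfl rfl k0_pp_213_b

noncomputable def f_pp_303 : ℕ → ℕ → ℕ → ℕ → Bool := onCell 1610612736 536870912 0 536870912 67108864 67108864
    (rowFK 0 true true true .npn 3 0 3 (qsf 1610612736 536870912 0 536870912 3) ndF2q3 ndF3q0 pcF3 Cut.none Ext.none)

def k0_pp_303 : ∃ t, chk3 f_pp_303 t 1 1 1 = true :=
  ⟨(l 4), by decide +kernel⟩

theorem c_pp_303 : CertF 1610612736 536870912 0 536870912 67108864 67108864 true true true .npn 3 0 3
    ndF2q3 ndF3q0 pcF3 Cut.none Ext.none :=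
  certFK0 (fam := true) (s1 := true) (s2 := true) (a := 3) (b := 0) (c := 3) (cn := .npn) (n1 := ndF2q3) (n2 := ndF3q0) (pc := pcF3) (cut := Cut.none) (xt := Ext.none) (P1 := 1610612736) (W1 := 536870912) (P2 := 0) (W2 := 536870912) (P3 := 67108864) (W3 := 67108864)
    rfl rfl rfl k0_pp_303

noncomputable def f_pp_313 : ℕ → ℕ → ℕ → ℕ → Bool := onCell 1610612736 536870912 536870912 536870912 67108864 67108864
    (rowFK 0 true true true .dn 3 1 3 (qsf 1610612736 536870912 536870912 536870912 3) ndF2q3 ndF3q1 pcF3 Cut.none Ext.none)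

def k0_pp_313 : ∃ t, chk3 f_pp_313 t 1 1 1 = true :=
  ⟨(l 4), by decide +kernel⟩

theorem c_pp_313 : CertF 1610612736 536870912 536870912 536870912 67108864 67108864 true true true .dn 3 1 3
    ndF2q3 ndF3q1 pcF3 Cut.none Ext.none :=
  certFK0 (fam := true) (s1 := true) (s2 := true) (a := 3) (b := 1) (c := 3) (cn := .dn) (n1 := ndF2q3) (n2 := ndF3q1) (pc := pcF3) (cut := Cut.none) (xt := Ext.none) (P1 := 1610612736) (W1 := 536870912) (P2 := 536870912) (W2 := 536870912) (P3 := 67108864) (W3 := 67108864)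
    rfl rfl rfl k0_pp_313

noncomputable def f_pm_001 : ℕ → ℕ → ℕ → ℕ → Bool := onCell 0 536870912 0 536870912 67108864 67108864
    (rowFK 0 true true false .up 0 0 1 (qsf 0 536870912 0 536870912 1) ndF2q0 ndF3q0 pcF1 Cut.none Ext.none)

def k0_pm_001 : ∃ t, chk3 f_pm_001 t 1 1 1 = true :=
  ⟨(a (l 3) (l 3)), by decide +kernel⟩

theorem c_pm_001 : CertF 0 536870912 0 536870912 67108864 67108864 true true false .up 0 0 1
    ndF2q0 ndF3q0 pcF1 Cut.none Ext.none :=
  certFK0 (fam := true) (s1 := true) (s2 := false) (a := 0) (b := 0) (c := 1) (cn := .up) (n1 := ndF2q0) (n2 := ndF3q0) (pc := pcF1) (cut := Cut.none) (xt := Ext.none) (P1 := 0) (W1 := 536870912) (P2 := 0) (W2 := 536870912) (P3 := 67108864) (W3 := 67108864)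
    rfl rfl rfl k0_pm_001

noncomputable def cut_pm_011 : Cut := Cut.of [[⟨0, 0, 0, 67108864⟩, ⟨1, 1, 0, 67108864⟩, ⟨2, 1, 0, 67108864⟩]]

noncomputable def f_pm_011 : ℕ → ℕ → ℕ → ℕ → Bool := onCell 0 536870912 536870912 536870912 67108864 67108864
    (rowFK 1 true true false .pnn 0 1 1 (qsf 0 536870912 536870912 536870912 1) ndF2q0 ndF3q1 pcF1 cut_pm_011 Ext.none)

def k0_pm_011 : ∃ t, chk3 f_pm_011 t 1 1 1 = true :=
  ⟨(b (l 3) (a (b (l 3) (a (b (l 3) (a (b (l 3) (a (a (l 6) (l 3)) (l 3))) (l 3))) (l 3))) (l 3))), by decide +kernel⟩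

theorem c_pm_011 : CertF 0 536870912 536870912 536870912 67108864 67108864 true true false .pnn 0 1 1
    ndF2q0 ndF3q1 pcF1 cut_pm_011 Ext.none :=
  certFK1 (fam := true) (s1 := true) (s2 := false) (a := 0) (b := 1) (c := 1) (cn := .pnn) (n1 := ndF2q0) (n2 := ndF3q1) (pc := pcF1) (cut := cut_pm_011) (xt := Ext.none) (P1 := 0) (W1 := 536870912) (P2 := 536870912) (W2 := 536870912) (P3 := 67108864) (W3 := 67108864)
    rfl rfl rfl (fun _ => rfl) k0_pm_011

noncomputable def cut_pm_012 : Cut := Cut.of [[⟨0, 0, 0, 67108864⟩, ⟨1, 1, 0, 67108864⟩, ⟨2, 1, 0, 67108864⟩]]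

noncomputable def f_pm_012 : ℕ → ℕ → ℕ → ℕ → Bool := onCell 1073741824 536870912 536870912 536870912 67108864 67108864
    (rowFK 2 true true false .pnp 0 1 2 (qsf 0 536870912 536870912 536870912 2) ndF2q0 ndF3q1 pcF2 cut_pm_012 Ext.none)

def k0_pm_012 : ∃ t, chk3 f_pm_012 t 1 1 1 = true :=
  ⟨(a (b (a (a (l 3) (l 3)) (a (a (a (l 19060280) (l 19044192)) (l 19006056)) (l 18891800))) (a (b (a (l 3) (l 384034987671)) (b (a (l 3) (a (l 18303808) (l 18717664))) (b (a (a (l 3) (l 3)) (a (l 17859472) (l 18546480))) (a (a (b (l 3) (l 6)) (b (l 17090360) (a (l 16950112) (l 17022320)))) (a (l 17203864) (l 18241584)))))) (b (a (a (a (l 18984592) (l 19028248)) (l 19068968)) (l 19072312)) (a (a (a (l 18891120) (a (l 18989248) (b (l 19033480) (l 19044152)))) (l 19144688)) (l 19248296))))) (b (a (l 18601096) (l 2)) (b (l 18739008) (a (l 19124712) (l 18732568))))), by decide +kernel⟩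

theorem c_pm_012 : CertF 0 536870912 536870912 536870912 67108864 67108864 true true false .pnp 0 1 2
    ndF2q0 ndF3q1 pcF2 cut_pm_012 Ext.none :=
  certFK2 (fam := true) (s1 := true) (s2 := false) (a := 0) (b := 1) (c := 2) (cn := .pnp) (n1 := ndF2q0) (n2 := ndF3q1) (pc := pcF2) (cut := cut_pm_012) (xt := Ext.none) (P1 := 0) (W1 := 536870912) (P2 := 536870912) (W2 := 536870912) (P3 := 67108864) (W3 := 67108864)
    rfl rfl rfl (fun _ => rfl) k0_pm_012

noncomputable def f_pm_022 : ℕ → ℕ → ℕ → ℕ → Bool := onCell 0 536870912 1073741824 536870912 67108864 67108864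
    (rowFK 1 true true false .pp 0 2 2 (qsf 0 536870912 1073741824 536870912 2) ndF2q0 ndF3q2 pcF2 Cut.none Ext.none)

def k0_pm_022 : ∃ t, chk3 f_pm_022 t 1 1 1 = true :=
  ⟨(a (b (b (b (l 3) (a (b (l 3) (a (l 3) (l 17305216))) (b (l 1) (a (l 315179238871) (l 1))))) (b (a (b (b (a (a (l 1461532329175) (l 17551896)) (l 17569304)) (b (a (a (a (c (l 18368968) (b (l 17352504) (l 17649256))) (l 17871928)) (l 17732336)) (l 17682024)) (a (a (b (a (c (l 18431552) (l 17710720)) (l 17952560)) (b (b (l 17935632) (l 18031464)) (l 18070024))) (b (l 17810984) (l 17859544))) (b (l 17734224) (l 17767616))))) (a (a (a (l 18174720) (l 18190768)) (l 18047152)) (l 17901984))) (b (a (b (l 17994320) (b (l 17988888) (l 17989928))) (l 1)) (l 18330592))) (a (a (a (l 18563632) (l 18375576)) (l 18157760)) (l 18086936)))) (b (a (a (l 18740608) (l 18389240)) (l 18034560)) (a (a (l 18744952) (l 18373952)) (l 17946232)))) (b (b (l 1) (b (l 1) (l 461209780631))) (b (a (l 18002496) (l 18347752))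 (a (l 17615736) (l 17922752))))), by decide +kernel⟩

theorem c_pm_022 : CertF 0 536870912 1073741824 536870912 67108864 67108864 true true false .pp 0 2 2
    ndF2q0 ndF3q2 pcF2 Cut.none Ext.none :=
  certFK1 (fam := true) (s1 := true) (s2 := false) (a := 0) (b := 2) (c := 2) (cn := .pp) (n1 := ndF2q0) (n2 := ndF3q2) (pc := pcF2) (cut := Cut.none) (xt := Ext.none) (P1 := 0) (W1 := 536870912) (P2 := 1073741824) (W2 := 536870912) (P3 := 67108864) (W3 := 67108864)
    rfl rfl rfl (fun _ => rfl) k0_pm_022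

noncomputable def f_pm_023 : ℕ → ℕ → ℕ → ℕ → Bool := onCell 1610612736 536870912 1073741824 536870912 67108864 67108864
    (rowFK 2 true true false .up 0 2 3 (qsf 0 536870912 1073741824 536870912 3) ndF2q0 ndF3q2 pcF3 Cut.none Ext.none)

def k0_pm_023 : ∃ t, chk3 f_pm_023 t 1 1 1 = true :=
  ⟨(a (b (a (a (l 18201152) (l 17657960)) (a (l 17191744) (l 17042880))) (a (b (a (l 18207024) (l 17430440)) (a (a (b (l 18787424) (l 19051688)) (l 18896336)) (l 18100880))) (a (b (l 17023808) (l 17420872)) (l 17041328)))) (a (b (a (l 17124256) (l 2)) (a (l 16910696) (l 17166792))) (a (b (l 2) (l 17286232)) (l 4)))), by decide +kernel⟩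

theorem c_pm_023 : CertF 0 536870912 1073741824 536870912 67108864 67108864 true true false .up 0 2 3
    ndF2q0 ndF3q2 pcF3 Cut.none Ext.none :=
  certFK2 (fam := true) (s1 := true) (s2 := false) (a := 0) (b := 2) (c := 3) (cn := .up) (n1 := ndF2q0) (n2 := ndF3q2) (pc := pcF3) (cut := Cut.none) (xt := Ext.none) (P1 := 0) (W1 := 536870912) (P2 := 1073741824) (W2 := 536870912) (P3 := 67108864) (W3 := 67108864)
    rfl rfl rfl (fun _ => rfl) k0_pm_023

noncomputable def f_pm_033 : ℕ → ℕ → ℕ → ℕ → Bool := onCell 1610612736 536870912 0 1230186008 67108864 67108864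
    (rowFK 2 true true false .pnn 0 3 3 (qsf 0 536870912 0 1230186008 3) ndF2q0 ndF3q3 pcF3 Cut.none Ext.none)

def k0_pm_033 : ∃ t, chk3 f_pm_033 t 1 1 1 = true :=
  ⟨(a (b (l 1) (b (b (l 1) (a (l 1) (a (l 1) (a (l 1) (l 1453882425527))))) (b (a (l 1) (a (a (b (l 1) (l 1663263419575)) (l 886410412855)) (a (l 17427832) (l 17543736)))) (a (a (b (l 1) (a (l 529928160295) (l 18293336))) (b (a (l 667904608263) (l 18558176)) (a (l 18127576) (l 17598480)))) (a (b (l 17451760) (l 17608664)) (l 17958040)))))) (a (b (l 1) (a (b (b (l 1) (l 718369022535)) (b (l 17435288) (l 17903424))) (b (l 716758261543) (l 17806808)))) (a (b (b (l 1) (l 18064368)) (b (l 4) (l 17898200))) (b (l 4) (l 4))))), by decide +kernel⟩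

theorem c_pm_033 : CertF 0 536870912 0 1230186008 67108864 67108864 true true false .pnn 0 3 3
    ndF2q0 ndF3q3 pcF3 Cut.none Ext.none :=
  certFK2 (fam := true) (s1 := true) (s2 := false) (a := 0) (b := 3) (c := 3) (cn := .pnn) (n1 := ndF2q0) (n2 := ndF3q3) (pc := pcF3) (cut := Cut.none) (xt := Ext.none) (P1 := 0) (W1 := 536870912) (P2 := 0) (W2 := 1230186008) (P3 := 67108864) (W3 := 67108864)
    rfl rfl rfl (fun _ => rfl) k0_pm_033

noncomputable def f_pm_101 : ℕ → ℕ → ℕ → ℕ → Bool := onCell 536870912 536870912 0 536870912 67108864 67108864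
    (rowFK 2 true true false .npn 1 0 1 (qsf 536870912 536870912 0 536870912 1) ndF2q1 ndF3q0 pcF1 Cut.none Ext.none)

def k0_pm_101 : ∃ t, chk3 f_pm_101 t 1 1 1 = true :=
  ⟨(a (l 3) (l 3)), by decide +kernel⟩

theorem c_pm_101 : CertF 536870912 536870912 0 536870912 67108864 67108864 true true false .npn 1 0 1
    ndF2q1 ndF3q0 pcF1 Cut.none Ext.none :=
  certFK2 (fam := true) (s1 := true) (s2 := false) (a := 1) (b := 0) (c := 1) (cn := .npn) (n1 := ndF2q1) (n2 := ndF3q0) (pc := pcF1) (cut := Cut.none) (xt := Ext.none) (P1 := 536870912) (W1 := 536870912) (P2 := 0) (W2 := 536870912) (P3 := 67108864) (W3 := 67108864)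
    rfl rfl rfl (fun _ => rfl) k0_pm_101

noncomputable def f_pm_102 : ℕ → ℕ → ℕ → ℕ → Bool := onCell 536870912 536870912 1073741824 536870912 67108864 67108864
    (rowFK 1 true true false .npp 1 0 2 (qsf 536870912 536870912 0 536870912 2) ndF2q1 ndF3q0 pcF2 Cut.none Ext.none)

def k0_pm_102 : ∃ t, chk3 f_pm_102 t 1 1 1 = true :=
  ⟨(a (b (b (l 3) (b (b (a (l 18590000) (b (l 3) (l 17344632))) (l 333500361591)) (l 319004880055))) (l 279813154151)) (b (b (l 3) (a (b (b (b (l 3) (a (l 17529680) (l 18428792))) (l 17985576)) (l 18017624)) (a (b (b (l 298672928391) (l 18987184)) (l 19006864)) (a (b (b (l 318000714775) (l 19192240)) (l 19206096)) (b (b (l 329812079143) (l 19283056)) (l 19293968)))))) (a (l 18174648) (a (l 19167032) (a (l 19378496) (l 19479792)))))), by decide +kernel⟩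

theorem c_pm_102 : CertF 536870912 536870912 0 536870912 67108864 67108864 true true false .npp 1 0 2
    ndF2q1 ndF3q0 pcF2 Cut.none Ext.none :=
  certFK1 (fam := true) (s1 := true) (s2 := false) (a := 1) (b := 0) (c := 2) (cn := .npp) (n1 := ndF2q1) (n2 := ndF3q0) (pc := pcF2) (cut := Cut.none) (xt := Ext.none) (P1 := 536870912) (W1 := 536870912) (P2 := 0) (W2 := 536870912) (P3 := 67108864) (W3 := 67108864)
    rfl rfl rfl (fun _ => rfl) k0_pm_102

noncomputable def f_pm_112 : ℕ → ℕ → ℕ → ℕ → Bool := onCell 536870912 536870912 1073741824 536870912 67108864 67108864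
    (rowFK 1 true true false .dn 1 1 2 (qsf 536870912 536870912 536870912 536870912 2) ndF2q1 ndF3q1 pcF2 Cut.none Ext.none)

def k0_pm_112 : ∃ t, chk3 f_pm_112 t 1 1 1 = true :=
  ⟨(a (b (b (l 3) (b (b (b (l 3) (l 17711472)) (l 17740064)) (l 17964680))) (a (l 19085472) (l 18440408))) (b (a (b (l 1) (b (l 1) (l 18467808))) (l 1)) (a (l 18335472) (a (l 18708080) (a (l 18806568) (l 18847656)))))), by decide +kernel⟩

theorem c_pm_112 : CertF 536870912 536870912 536870912 536870912 67108864 67108864 true true false .dn 1 1 2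
    ndF2q1 ndF3q1 pcF2 Cut.none Ext.none :=
  certFK1 (fam := true) (s1 := true) (s2 := false) (a := 1) (b := 1) (c := 2) (cn := .dn) (n1 := ndF2q1) (n2 := ndF3q1) (pc := pcF2) (cut := Cut.none) (xt := Ext.none) (P1 := 536870912) (W1 := 536870912) (P2 := 536870912) (W2 := 536870912) (P3 := 67108864) (W3 := 67108864)
    rfl rfl rfl (fun _ => rfl) k0_pm_112

noncomputable def f_pm_113 : ℕ → ℕ → ℕ → ℕ → Bool := onCell 536870912 536870912 536870912 536870912 67108864 67108864
    (rowFK 0 true true false .nn 1 1 3 (qsf 536870912 536870912 536870912 536870912 3) ndF2q1 ndF3q1 pcF3 Cut.none Ext.none)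

def k0_pm_113 : ∃ t, chk3 f_pm_113 t 1 1 1 = true :=
  ⟨(a (b (l 414500614743) (a (l 19249832) (l 18953544))) (a (b (l 18215352) (l 18124056)) (a (l 17869584) (a (b (l 18218120) (l 17323096)) (b (l 18145528) (b (l 17460960) (b (l 17124224) (b (l 16994040) (b (l 16922976) (a (l 16907328) (b (l 16850880) (l 16823088)))))))))))), by decide +kernel⟩

theorem c_pm_113 : CertF 536870912 536870912 536870912 536870912 67108864 67108864 true true false .nn 1 1 3
    ndF2q1 ndF3q1 pcF3 Cut.none Ext.none :=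
  certFK0 (fam := true) (s1 := true) (s2 := false) (a := 1) (b := 1) (c := 3) (cn := .nn) (n1 := ndF2q1) (n2 := ndF3q1) (pc := pcF3) (cut := Cut.none) (xt := Ext.none) (P1 := 536870912) (W1 := 536870912) (P2 := 536870912) (W2 := 536870912) (P3 := 67108864) (W3 := 67108864)
    rfl rfl rfl k0_pm_113

noncomputable def f_pm_123 : ℕ → ℕ → ℕ → ℕ → Bool := onCell 1610612736 536870912 1073741824 536870912 67108864 67108864
    (rowFK 2 true true false .npn 1 2 3 (qsf 536870912 536870912 1073741824 536870912 3) ndF2q1 ndF3q2 pcF3 Cut.none Ext.none)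

def k0_pm_123 : ∃ t, chk3 f_pm_123 t 1 1 1 = true :=
  ⟨(a (b (a (b (l 18953160) (l 18970984)) (a (l 19224760) (l 19099000))) (a (l 1) (a (l 1) (l 18863304)))) (a (b (b (a (l 18038184) (l 17220792)) (l 18474096)) (l 18860752)) (a (b (a (b (l 17168480) (l 4)) (l 4)) (l 18591496)) (l 4)))), by decide +kernel⟩

theorem c_pm_123 : CertF 536870912 536870912 1073741824 536870912 67108864 67108864 true true false .npn 1 2 3
    ndF2q1 ndF3q2 pcF3 Cut.none Ext.none :=
  certFK2 (fam := true) (s1 := true) (s2 := false) (a := 1) (b := 2) (c := 3) (cn := .npn) (n1 := ndF2q1) (n2 := ndF3q2) (pc := pcF3) (cut := Cut.none) (xt := Ext.none) (P1 := 536870912) (W1 := 536870912) (P2 := 1073741824) (W2 := 536870912) (P3 := 67108864) (W3 := 67108864)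
    rfl rfl rfl (fun _ => rfl) k0_pm_123

noncomputable def f_pm_133 : ℕ → ℕ → ℕ → ℕ → Bool := onCell 536870912 536870912 0 1230186008 67108864 67108864
    (rowFK 0 true true false .dn 1 3 3 (qsf 536870912 536870912 0 1230186008 3) ndF2q1 ndF3q3 pcF3 Cut.none Ext.none)

def k0_pm_133 : ∃ t, chk3 f_pm_133 t 1 1 1 = true :=
  ⟨(b (l 2) (l 4)), by decide +kernel⟩

theorem c_pm_133 : CertF 536870912 536870912 0 1230186008 67108864 67108864 true true false .dn 1 3 3
    ndF2q1 ndF3q3 pcF3 Cut.none Ext.none :=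
  certFK0 (fam := true) (s1 := true) (s2 := false) (a := 1) (b := 3) (c := 3) (cn := .dn) (n1 := ndF2q1) (n2 := ndF3q3) (pc := pcF3) (cut := Cut.none) (xt := Ext.none) (P1 := 536870912) (W1 := 536870912) (P2 := 0) (W2 := 1230186008) (P3 := 67108864) (W3 := 67108864)
    rfl rfl rfl k0_pm_133

noncomputable def f_pm_202_a : ℕ → ℕ → ℕ → ℕ → Bool := onCell 0 536870912 0 536870912 67108864 67108864
    (rowFK 0 true true false .pp 2 0 2 (qsf 0 536870912 0 536870912 2) ndF2q2a ndF3q0 pcF2 Cut.none Ext.none)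

def k0_pm_202_a : ∃ t, chk3 f_pm_202_a t 1 1 1 = true :=
  ⟨(a (b (b (b (l 18848360) (l 18538240)) (l 18104352)) (b (l 17558288) (l 17671736))) (b (a (b (b (l 18979896) (l 18648008)) (l 18200528)) (b (a (b (l 19215240) (l 18757496)) (b (b (a (l 19274528) (b (l 19412128) (l 19293104))) (l 19144928)) (l 18873424))) (a (l 18289960) (l 18383896)))) (a (b (l 17630536) (l 17617144)) (a (b (l 17705728) (l 17552664)) (b (l 17784848) (l 17493496)))))), by decide +kernel⟩

theorem c_pm_202_a : CertF 0 536870912 0 536870912 67108864 67108864 true true false .pp 2 0 2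
    ndF2q2a ndF3q0 pcF2 Cut.none Ext.none :=
  certFK0 (fam := true) (s1 := true) (s2 := false) (a := 2) (b := 0) (c := 2) (cn := .pp) (n1 := ndF2q2a) (n2 := ndF3q0) (pc := pcF2) (cut := Cut.none) (xt := Ext.none) (P1 := 0) (W1 := 536870912) (P2 := 0) (W2 := 536870912) (P3 := 67108864) (W3 := 67108864)
    rfl rfl rfl k0_pm_202_a

noncomputable def f_pm_202_b : ℕ → ℕ → ℕ → ℕ → Bool := onCell 1239849684 370763052 0 536870912 67108864 67108864
    (rowFK 0 true true false .pp 2 0 2 (qsf 1239849684 370763052 0 536870912 2) ndF2q2b ndF3q0 pcF2 Cut.none Ext.none)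

def k0_pm_202_b : ∃ t, chk3 f_pm_202_b t 1 1 1 = true :=
  ⟨(b (a (b (a (l 18450304) (l 18123360)) (a (l 17911528) (l 17621240))) (b (a (l 17879120) (l 17654472)) (a (l 17386264) (l 2)))) (a (b (a (l 17457320) (b (l 17257136) (l 2))) (l 2)) (l 2))), by decide +kernel⟩

theorem c_pm_202_b : CertF 1239849684 370763052 0 536870912 67108864 67108864 true true false .pp 2 0 2
    ndF2q2b ndF3q0 pcF2 Cut.none Ext.none :=
  certFK0 (fam := true) (s1 := true) (s2 := false) (a := 2) (b := 0) (c := 2) (cn := .pp) (n1 := ndF2q2b) (n2 := ndF3q0) (pc := pcF2) (cut := Cut.none) (xt := Ext.none) (P1 := 1239849684) (W1 := 370763052) (P2 := 0) (W2 := 536870912) (P3 := 67108864) (W3 := 67108864)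
    rfl rfl rfl k0_pm_202_b

noncomputable def f_pm_203_a : ℕ → ℕ → ℕ → ℕ → Bool := onCell 0 536870912 1610612736 536870912 67108864 67108864
    (rowFK 1 true true false .up 2 0 3 (qsf 0 536870912 0 536870912 3) ndF2q2a ndF3q0 pcF3 Cut.none Ext.none)

def k0_pm_203_a : ∃ t, chk3 f_pm_203_a t 1 1 1 = true :=
  ⟨(b (b (a (l 17715568) (a (l 17768376) (a (l 17803776) (l 17841512)))) (a (l 4) (l 4))) (l 2)), by decide +kernel⟩

theorem c_pm_203_a : CertF 0 536870912 0 536870912 67108864 67108864 true true false .up 2 0 3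
    ndF2q2a ndF3q0 pcF3 Cut.none Ext.none :=
  certFK1 (fam := true) (s1 := true) (s2 := false) (a := 2) (b := 0) (c := 3) (cn := .up) (n1 := ndF2q2a) (n2 := ndF3q0) (pc := pcF3) (cut := Cut.none) (xt := Ext.none) (P1 := 0) (W1 := 536870912) (P2 := 0) (W2 := 536870912) (P3 := 67108864) (W3 := 67108864)
    rfl rfl rfl (fun _ => rfl) k0_pm_203_a

noncomputable def f_pm_203_b : ℕ → ℕ → ℕ → ℕ → Bool := onCell 1239849684 370763052 1610612736 536870912 67108864 67108864
    (rowFK 1 true true false .up 2 0 3 (qsf 1239849684 370763052 0 536870912 3) ndF2q2b ndF3q0 pcF3 Cut.none Ext.none)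

def k0_pm_203_b : ∃ t, chk3 f_pm_203_b t 1 1 1 = true :=
  ⟨(b (b (a (l 17347224) (l 17059080)) (b (l 17179288) (l 4))) (l 4)), by decide +kernel⟩

theorem c_pm_203_b : CertF 1239849684 370763052 0 536870912 67108864 67108864 true true false .up 2 0 3
    ndF2q2b ndF3q0 pcF3 Cut.none Ext.none :=
  certFK1 (fam := true) (s1 := true) (s2 := false) (a := 2) (b := 0) (c := 3) (cn := .up) (n1 := ndF2q2b) (n2 := ndF3q0) (pc := pcF3) (cut := Cut.none) (xt := Ext.none) (P1 := 1239849684) (W1 := 370763052) (P2 := 0) (W2 := 536870912) (P3 := 67108864) (W3 := 67108864)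
    rfl rfl rfl (fun _ => rfl) k0_pm_203_b

noncomputable def f_pm_213_a : ℕ → ℕ → ℕ → ℕ → Bool := onCell 0 536870912 1610612736 536870912 67108864 67108864
    (rowFK 1 true true false .pnn 2 1 3 (qsf 0 536870912 536870912 536870912 3) ndF2q2a ndF3q1 pcF3 Cut.none Ext.none)

def k0_pm_213_a : ∃ t, chk3 f_pm_213_a t 1 1 1 = true :=
  ⟨(b (b (a (l 17895808) (a (l 17997928) (a (l 18092240) (l 18171728)))) (a (l 4) (l 4))) (l 4)), by decide +kernel⟩

theorem c_pm_213_a : CertF 0 536870912 536870912 536870912 67108864 67108864 true true false .pnn 2 1 3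
    ndF2q2a ndF3q1 pcF3 Cut.none Ext.none :=
  certFK1 (fam := true) (s1 := true) (s2 := false) (a := 2) (b := 1) (c := 3) (cn := .pnn) (n1 := ndF2q2a) (n2 := ndF3q1) (pc := pcF3) (cut := Cut.none) (xt := Ext.none) (P1 := 0) (W1 := 536870912) (P2 := 536870912) (W2 := 536870912) (P3 := 67108864) (W3 := 67108864)
    rfl rfl rfl (fun _ => rfl) k0_pm_213_a

noncomputable def f_pm_213_b : ℕ → ℕ → ℕ → ℕ → Bool := onCell 1239849684 370763052 536870912 536870912 67108864 67108864
    (rowFK 0 true true false .pnn 2 1 3 (qsf 1239849684 370763052 536870912 536870912 3) ndF2q2b ndF3q1 pcF3 Cut.none Ext.none)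

def k0_pm_213_b : ∃ t, chk3 f_pm_213_b t 1 1 1 = true :=
  ⟨(b (a (l 4) (l 4)) (l 4)), by decide +kernel⟩

theorem c_pm_213_b : CertF 1239849684 370763052 536870912 536870912 67108864 67108864 true true false .pnn 2 1 3
    ndF2q2b ndF3q1 pcF3 Cut.none Ext.none :=
  certFK0 (fam := true) (s1 := true) (s2 := false) (a := 2) (b := 1) (c := 3) (cn := .pnn) (n1 := ndF2q2b) (n2 := ndF3q1) (pc := pcF3) (cut := Cut.none) (xt := Ext.none) (P1 := 1239849684) (W1 := 370763052) (P2 := 536870912) (W2 := 536870912) (P3 := 67108864) (W3 := 67108864)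
    rfl rfl rfl k0_pm_213_b

noncomputable def f_pm_303 : ℕ → ℕ → ℕ → ℕ → Bool := onCell 1610612736 536870912 0 536870912 67108864 67108864
    (rowFK 2 true true false .npn 3 0 3 (qsf 1610612736 536870912 0 536870912 3) ndF2q3 ndF3q0 pcF3 Cut.none Ext.none)

def k0_pm_303 : ∃ t, chk3 f_pm_303 t 1 1 1 = true :=
  ⟨(a (b (a (b (l 18419616) (l 18454888)) (b (a (l 18018096) (l 4)) (l 18370552))) (a (l 1) (l 401080495991))) (l 4)), by decide +kernel⟩

theorem c_pm_303 : CertF 1610612736 536870912 0 536870912 67108864 67108864 true true false .npn 3 0 3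
    ndF2q3 ndF3q0 pcF3 Cut.none Ext.none :=
  certFK2 (fam := true) (s1 := true) (s2 := false) (a := 3) (b := 0) (c := 3) (cn := .npn) (n1 := ndF2q3) (n2 := ndF3q0) (pc := pcF3) (cut := Cut.none) (xt := Ext.none) (P1 := 1610612736) (W1 := 536870912) (P2 := 0) (W2 := 536870912) (P3 := 67108864) (W3 := 67108864)
    rfl rfl rfl (fun _ => rfl) k0_pm_303

noncomputable def f_pm_313 : ℕ → ℕ → ℕ → ℕ → Bool := onCell 1610612736 536870912 536870912 536870912 67108864 67108864
    (rowFK 0 true true false .dn 3 1 3 (qsf 1610612736 536870912 536870912 536870912 3) ndF2q3 ndF3q1 pcF3 Cut.none Ext.none)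

def k0_pm_313 : ∃ t, chk3 f_pm_313 t 1 1 1 = true :=
  ⟨(l 4), by decide +kernel⟩

theorem c_pm_313 : CertF 1610612736 536870912 536870912 536870912 67108864 67108864 true true false .dn 3 1 3
    ndF2q3 ndF3q1 pcF3 Cut.none Ext.none :=
  certFK0 (fam := true) (s1 := true) (s2 := false) (a := 3) (b := 1) (c := 3) (cn := .dn) (n1 := ndF2q3) (n2 := ndF3q1) (pc := pcF3) (cut := Cut.none) (xt := Ext.none) (P1 := 1610612736) (W1 := 536870912) (P2 := 536870912) (W2 := 536870912) (P3 := 67108864) (W3 := 67108864)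
    rfl rfl rfl k0_pm_313

noncomputable def f_mm_001 : ℕ → ℕ → ℕ → ℕ → Bool := onCell 0 536870912 0 536870912 67108864 67108864
    (rowFK 0 true false false .up 0 0 1 (qsf 0 536870912 0 536870912 1) ndF2q0 ndF3q0 pcF1 Cut.none Ext.none)

def k0_mm_001 : ∃ t, chk3 f_mm_001 t 1 1 1 = true :=
  ⟨(l 4), by decide +kernel⟩

theorem c_mm_001 : CertF 0 536870912 0 536870912 67108864 67108864 true false false .up 0 0 1
    ndF2q0 ndF3q0 pcF1 Cut.none Ext.none :=
  certFK0 (fam := true) (s1 := false) (s2 := false) (a := 0) (b := 0) (c := 1) (cn := .up) (n1 := ndF2q0) (n2 := ndF3q0) (pc := pcF1) (cut := Cut.none) (xt := Ext.none) (P1 := 0) (W1 := 536870912) (P2 := 0) (W2 := 536870912) (P3 := 67108864) (W3 := 67108864)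
    rfl rfl rfl k0_mm_001

noncomputable def f_mm_011 : ℕ → ℕ → ℕ → ℕ → Bool := onCell 0 536870912 536870912 536870912 67108864 67108864
    (rowFK 0 true false false .pnn 0 1 1 (qsf 0 536870912 536870912 536870912 1) ndF2q0 ndF3q1 pcF1 Cut.none Ext.none)

def k0_mm_011 : ∃ t, chk3 f_mm_011 t 1 1 1 = true :=
  ⟨(l 4), by decide +kernel⟩

theorem c_mm_011 : CertF 0 536870912 536870912 536870912 67108864 67108864 true false false .pnn 0 1 1
    ndF2q0 ndF3q1 pcF1 Cut.none Ext.none :=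
  certFK0 (fam := true) (s1 := false) (s2 := false) (a := 0) (b := 1) (c := 1) (cn := .pnn) (n1 := ndF2q0) (n2 := ndF3q1) (pc := pcF1) (cut := Cut.none) (xt := Ext.none) (P1 := 0) (W1 := 536870912) (P2 := 536870912) (W2 := 536870912) (P3 := 67108864) (W3 := 67108864)
    rfl rfl rfl k0_mm_011

noncomputable def f_mm_012 : ℕ → ℕ → ℕ → ℕ → Bool := onCell 0 536870912 536870912 536870912 67108864 67108864
    (rowFK 0 true false false .pnp 0 1 2 (qsf 0 536870912 536870912 536870912 2) ndF2q0 ndF3q1 pcF2 Cut.none Ext.none)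

def k0_mm_012 : ∃ t, chk3 f_mm_012 t 1 1 1 = true :=
  ⟨(l 4), by decide +kernel⟩

theorem c_mm_012 : CertF 0 536870912 536870912 536870912 67108864 67108864 true false false .pnp 0 1 2
    ndF2q0 ndF3q1 pcF2 Cut.none Ext.none :=
  certFK0 (fam := true) (s1 := false) (s2 := false) (a := 0) (b := 1) (c := 2) (cn := .pnp) (n1 := ndF2q0) (n2 := ndF3q1) (pc := pcF2) (cut := Cut.none) (xt := Ext.none) (P1 := 0) (W1 := 536870912) (P2 := 536870912) (W2 := 536870912) (P3 := 67108864) (W3 := 67108864)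
    rfl rfl rfl k0_mm_012

noncomputable def f_mm_022 : ℕ → ℕ → ℕ → ℕ → Bool := onCell 0 536870912 1073741824 536870912 67108864 67108864
    (rowFK 0 true false false .pp 0 2 2 (qsf 0 536870912 1073741824 536870912 2) ndF2q0 ndF3q2 pcF2 Cut.none Ext.none)

def k0_mm_022 : ∃ t, chk3 f_mm_022 t 1 1 1 = true :=
  ⟨(l 4), by decide +kernel⟩

theorem c_mm_022 : CertF 0 536870912 1073741824 536870912 67108864 67108864 true false false .pp 0 2 2
    ndF2q0 ndF3q2 pcF2 Cut.none Ext.none :=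
  certFK0 (fam := true) (s1 := false) (s2 := false) (a := 0) (b := 2) (c := 2) (cn := .pp) (n1 := ndF2q0) (n2 := ndF3q2) (pc := pcF2) (cut := Cut.none) (xt := Ext.none) (P1 := 0) (W1 := 536870912) (P2 := 1073741824) (W2 := 536870912) (P3 := 67108864) (W3 := 67108864)
    rfl rfl rfl k0_mm_022

noncomputable def f_mm_023 : ℕ → ℕ → ℕ → ℕ → Bool := onCell 0 536870912 1073741824 536870912 67108864 67108864
    (rowFK 0 true false false .up 0 2 3 (qsf 0 536870912 1073741824 536870912 3) ndF2q0 ndF3q2 pcF3 Cut.none Ext.none)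

def k0_mm_023 : ∃ t, chk3 f_mm_023 t 1 1 1 = true :=
  ⟨(l 4), by decide +kernel⟩

theorem c_mm_023 : CertF 0 536870912 1073741824 536870912 67108864 67108864 true false false .up 0 2 3
    ndF2q0 ndF3q2 pcF3 Cut.none Ext.none :=
  certFK0 (fam := true) (s1 := false) (s2 := false) (a := 0) (b := 2) (c := 3) (cn := .up) (n1 := ndF2q0) (n2 := ndF3q2) (pc := pcF3) (cut := Cut.none) (xt := Ext.none) (P1 := 0) (W1 := 536870912) (P2 := 1073741824) (W2 := 536870912) (P3 := 67108864) (W3 := 67108864)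
    rfl rfl rfl k0_mm_023

noncomputable def f_mm_033 : ℕ → ℕ → ℕ → ℕ → Bool := onCell 0 536870912 0 1230186008 67108864 67108864
    (rowFK 0 true false false .pnn 0 3 3 (qsf 0 536870912 0 1230186008 3) ndF2q0 ndF3q3 pcF3 Cut.none Ext.none)

def k0_mm_033 : ∃ t, chk3 f_mm_033 t 1 1 1 = true :=
  ⟨(l 5), by decide +kernel⟩

theorem c_mm_033 : CertF 0 536870912 0 1230186008 67108864 67108864 true false false .pnn 0 3 3
    ndF2q0 ndF3q3 pcF3 Cut.none Ext.none :=
  certFK0 (fam := true) (s1 := false) (s2 := false) (a := 0) (b := 3) (c := 3) (cn := .pnn) (n1 := ndF2q0) (n2 := ndF3q3) (pc := pcF3) (cut := Cut.none) (xt := Ext.none) (P1 := 0) (W1 := 536870912) (P2 := 0) (W2 := 1230186008) (P3 := 67108864) (W3 := 67108864)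
    rfl rfl rfl k0_mm_033

noncomputable def f_mm_101 : ℕ → ℕ → ℕ → ℕ → Bool := onCell 536870912 536870912 0 536870912 67108864 67108864
    (rowFK 0 true false false .npn 1 0 1 (qsf 536870912 536870912 0 536870912 1) ndF2q1 ndF3q0 pcF1 Cut.none Ext.none)

def k0_mm_101 : ∃ t, chk3 f_mm_101 t 1 1 1 = true :=
  ⟨(l 4), by decide +kernel⟩

theorem c_mm_101 : CertF 536870912 536870912 0 536870912 67108864 67108864 true false false .npn 1 0 1
    ndF2q1 ndF3q0 pcF1 Cut.none Ext.none :=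
  certFK0 (fam := true) (s1 := false) (s2 := false) (a := 1) (b := 0) (c := 1) (cn := .npn) (n1 := ndF2q1) (n2 := ndF3q0) (pc := pcF1) (cut := Cut.none) (xt := Ext.none) (P1 := 536870912) (W1 := 536870912) (P2 := 0) (W2 := 536870912) (P3 := 67108864) (W3 := 67108864)
    rfl rfl rfl k0_mm_101

noncomputable def f_mm_102 : ℕ → ℕ → ℕ → ℕ → Bool := onCell 536870912 536870912 0 536870912 67108864 67108864
    (rowFK 0 true false false .npp 1 0 2 (qsf 536870912 536870912 0 536870912 2) ndF2q1 ndF3q0 pcF2 Cut.none Ext.none)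

def k0_mm_102 : ∃ t, chk3 f_mm_102 t 1 1 1 = true :=
  ⟨(l 4), by decide +kernel⟩

theorem c_mm_102 : CertF 536870912 536870912 0 536870912 67108864 67108864 true false false .npp 1 0 2
    ndF2q1 ndF3q0 pcF2 Cut.none Ext.none :=
  certFK0 (fam := true) (s1 := false) (s2 := false) (a := 1) (b := 0) (c := 2) (cn := .npp) (n1 := ndF2q1) (n2 := ndF3q0) (pc := pcF2) (cut := Cut.none) (xt := Ext.none) (P1 := 536870912) (W1 := 536870912) (P2 := 0) (W2 := 536870912) (P3 := 67108864) (W3 := 67108864)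
    rfl rfl rfl k0_mm_102

noncomputable def f_mm_112 : ℕ → ℕ → ℕ → ℕ → Bool := onCell 536870912 536870912 536870912 536870912 67108864 67108864
    (rowFK 0 true false false .dn 1 1 2 (qsf 536870912 536870912 536870912 536870912 2) ndF2q1 ndF3q1 pcF2 Cut.none Ext.none)

def k0_mm_112 : ∃ t, chk3 f_mm_112 t 1 1 1 = true :=
  ⟨(l 4), by decide +kernel⟩

theorem c_mm_112 : CertF 536870912 536870912 536870912 536870912 67108864 67108864 true false false .dn 1 1 2
    ndF2q1 ndF3q1 pcF2 Cut.none Ext.none :=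
  certFK0 (fam := true) (s1 := false) (s2 := false) (a := 1) (b := 1) (c := 2) (cn := .dn) (n1 := ndF2q1) (n2 := ndF3q1) (pc := pcF2) (cut := Cut.none) (xt := Ext.none) (P1 := 536870912) (W1 := 536870912) (P2 := 536870912) (W2 := 536870912) (P3 := 67108864) (W3 := 67108864)
    rfl rfl rfl k0_mm_112

noncomputable def f_mm_113 : ℕ → ℕ → ℕ → ℕ → Bool := onCell 536870912 536870912 536870912 536870912 67108864 67108864
    (rowFK 0 true false false .nn 1 1 3 (qsf 536870912 536870912 536870912 536870912 3) ndF2q1 ndF3q1 pcF3 Cut.none Ext.none)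

def k0_mm_113 : ∃ t, chk3 f_mm_113 t 1 1 1 = true :=
  ⟨(l 4), by decide +kernel⟩

theorem c_mm_113 : CertF 536870912 536870912 536870912 536870912 67108864 67108864 true false false .nn 1 1 3
    ndF2q1 ndF3q1 pcF3 Cut.none Ext.none :=
  certFK0 (fam := true) (s1 := false) (s2 := false) (a := 1) (b := 1) (c := 3) (cn := .nn) (n1 := ndF2q1) (n2 := ndF3q1) (pc := pcF3) (cut := Cut.none) (xt := Ext.none) (P1 := 536870912) (W1 := 536870912) (P2 := 536870912) (W2 := 536870912) (P3 := 67108864) (W3 := 67108864)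
    rfl rfl rfl k0_mm_113

noncomputable def f_mm_123 : ℕ → ℕ → ℕ → ℕ → Bool := onCell 536870912 536870912 1073741824 536870912 67108864 67108864
    (rowFK 0 true false false .npn 1 2 3 (qsf 536870912 536870912 1073741824 536870912 3) ndF2q1 ndF3q2 pcF3 Cut.none Ext.none)

def k0_mm_123 : ∃ t, chk3 f_mm_123 t 1 1 1 = true :=
  ⟨(l 4), by decide +kernel⟩

theorem c_mm_123 : CertF 536870912 536870912 1073741824 536870912 67108864 67108864 true false false .npn 1 2 3
    ndF2q1 ndF3q2 pcF3 Cut.none Ext.none :=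
  certFK0 (fam := true) (s1 := false) (s2 := false) (a := 1) (b := 2) (c := 3) (cn := .npn) (n1 := ndF2q1) (n2 := ndF3q2) (pc := pcF3) (cut := Cut.none) (xt := Ext.none) (P1 := 536870912) (W1 := 536870912) (P2 := 1073741824) (W2 := 536870912) (P3 := 67108864) (W3 := 67108864)
    rfl rfl rfl k0_mm_123

noncomputable def f_mm_133 : ℕ → ℕ → ℕ → ℕ → Bool := onCell 536870912 536870912 0 1230186008 67108864 67108864
    (rowFK 0 true false false .dn 1 3 3 (qsf 536870912 536870912 0 1230186008 3) ndF2q1 ndF3q3 pcF3 Cut.none Ext.none)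

def k0_mm_133 : ∃ t, chk3 f_mm_133 t 1 1 1 = true :=
  ⟨(l 4), by decide +kernel⟩

theorem c_mm_133 : CertF 536870912 536870912 0 1230186008 67108864 67108864 true false false .dn 1 3 3
    ndF2q1 ndF3q3 pcF3 Cut.none Ext.none :=
  certFK0 (fam := true) (s1 := false) (s2 := false) (a := 1) (b := 3) (c := 3) (cn := .dn) (n1 := ndF2q1) (n2 := ndF3q3) (pc := pcF3) (cut := Cut.none) (xt := Ext.none) (P1 := 536870912) (W1 := 536870912) (P2 := 0) (W2 := 1230186008) (P3 := 67108864) (W3 := 67108864)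
    rfl rfl rfl k0_mm_133

noncomputable def f_mm_202_a : ℕ → ℕ → ℕ → ℕ → Bool := onCell 0 536870912 0 536870912 67108864 67108864
    (rowFK 0 true false false .pp 2 0 2 (qsf 0 536870912 0 536870912 2) ndF2q2a ndF3q0 pcF2 Cut.none Ext.none)

def k0_mm_202_a : ∃ t, chk3 f_mm_202_a t 1 1 1 = true :=
  ⟨(l 4), by decide +kernel⟩

theorem c_mm_202_a : CertF 0 536870912 0 536870912 67108864 67108864 true false false .pp 2 0 2
    ndF2q2a ndF3q0 pcF2 Cut.none Ext.none :=
  certFK0 (fam := true) (s1 := false) (s2 := false) (a := 2) (b := 0) (c := 2) (cn := .pp) (n1 := ndF2q2a) (n2 := ndF3q0) (pc := pcF2) (cut := Cut.none) (xt := Ext.none) (P1 := 0) (W1 := 536870912) (P2 := 0) (W2 := 536870912) (P3 := 67108864) (W3 := 67108864)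
    rfl rfl rfl k0_mm_202_a

noncomputable def f_mm_202_b : ℕ → ℕ → ℕ → ℕ → Bool := onCell 1239849684 370763052 0 536870912 67108864 67108864
    (rowFK 0 true false false .pp 2 0 2 (qsf 1239849684 370763052 0 536870912 2) ndF2q2b ndF3q0 pcF2 Cut.none Ext.none)

def k0_mm_202_b : ∃ t, chk3 f_mm_202_b t 1 1 1 = true :=
  ⟨(l 4), by decide +kernel⟩

theorem c_mm_202_b : CertF 1239849684 370763052 0 536870912 67108864 67108864 true false false .pp 2 0 2
    ndF2q2b ndF3q0 pcF2 Cut.none Ext.none :=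
  certFK0 (fam := true) (s1 := false) (s2 := false) (a := 2) (b := 0) (c := 2) (cn := .pp) (n1 := ndF2q2b) (n2 := ndF3q0) (pc := pcF2) (cut := Cut.none) (xt := Ext.none) (P1 := 1239849684) (W1 := 370763052) (P2 := 0) (W2 := 536870912) (P3 := 67108864) (W3 := 67108864)
    rfl rfl rfl k0_mm_202_b

noncomputable def f_mm_203_a : ℕ → ℕ → ℕ → ℕ → Bool := onCell 0 536870912 0 536870912 67108864 67108864
    (rowFK 0 true false false .up 2 0 3 (qsf 0 536870912 0 536870912 3) ndF2q2a ndF3q0 pcF3 Cut.none Ext.none)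

def k0_mm_203_a : ∃ t, chk3 f_mm_203_a t 1 1 1 = true :=
  ⟨(l 4), by decide +kernel⟩

theorem c_mm_203_a : CertF 0 536870912 0 536870912 67108864 67108864 true false false .up 2 0 3
    ndF2q2a ndF3q0 pcF3 Cut.none Ext.none :=
  certFK0 (fam := true) (s1 := false) (s2 := false) (a := 2) (b := 0) (c := 3) (cn := .up) (n1 := ndF2q2a) (n2 := ndF3q0) (pc := pcF3) (cut := Cut.none) (xt := Ext.none) (P1 := 0) (W1 := 536870912) (P2 := 0) (W2 := 536870912) (P3 := 67108864) (W3 := 67108864)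
    rfl rfl rfl k0_mm_203_a

noncomputable def f_mm_203_b : ℕ → ℕ → ℕ → ℕ → Bool := onCell 1239849684 370763052 0 536870912 67108864 67108864
    (rowFK 0 true false false .up 2 0 3 (qsf 1239849684 370763052 0 536870912 3) ndF2q2b ndF3q0 pcF3 Cut.none Ext.none)

def k0_mm_203_b : ∃ t, chk3 f_mm_203_b t 1 1 1 = true :=
  ⟨(l 4), by decide +kernel⟩

theorem c_mm_203_b : CertF 1239849684 370763052 0 536870912 67108864 67108864 true false false .up 2 0 3
    ndF2q2b ndF3q0 pcF3 Cut.none Ext.none :=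
  certFK0 (fam := true) (s1 := false) (s2 := false) (a := 2) (b := 0) (c := 3) (cn := .up) (n1 := ndF2q2b) (n2 := ndF3q0) (pc := pcF3) (cut := Cut.none) (xt := Ext.none) (P1 := 1239849684) (W1 := 370763052) (P2 := 0) (W2 := 536870912) (P3 := 67108864) (W3 := 67108864)
    rfl rfl rfl k0_mm_203_b

noncomputable def f_mm_213_a : ℕ → ℕ → ℕ → ℕ → Bool := onCell 0 536870912 536870912 536870912 67108864 67108864
    (rowFK 0 true false false .pnn 2 1 3 (qsf 0 536870912 536870912 536870912 3) ndF2q2a ndF3q1 pcF3 Cut.none Ext.none)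

def k0_mm_213_a : ∃ t, chk3 f_mm_213_a t 1 1 1 = true :=
  ⟨(l 4), by decide +kernel⟩

theorem c_mm_213_a : CertF 0 536870912 536870912 536870912 67108864 67108864 true false false .pnn 2 1 3
    ndF2q2a ndF3q1 pcF3 Cut.none Ext.none :=
  certFK0 (fam := true) (s1 := false) (s2 := false) (a := 2) (b := 1) (c := 3) (cn := .pnn) (n1 := ndF2q2a) (n2 := ndF3q1) (pc := pcF3) (cut := Cut.none) (xt := Ext.none) (P1 := 0) (W1 := 536870912) (P2 := 536870912) (W2 := 536870912) (P3 := 67108864) (W3 := 67108864)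
    rfl rfl rfl k0_mm_213_a

noncomputable def f_mm_213_b : ℕ → ℕ → ℕ → ℕ → Bool := onCell 1239849684 370763052 536870912 536870912 67108864 67108864
    (rowFK 0 true false false .pnn 2 1 3 (qsf 1239849684 370763052 536870912 536870912 3) ndF2q2b ndF3q1 pcF3 Cut.none Ext.none)

def k0_mm_213_b : ∃ t, chk3 f_mm_213_b t 1 1 1 = true :=
  ⟨(l 4), by decide +kernel⟩

theorem c_mm_213_b : CertF 1239849684 370763052 536870912 536870912 67108864 67108864 true false false .pnn 2 1 3
    ndF2q2b ndF3q1 pcF3 Cut.none Ext.none :=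
  certFK0 (fam := true) (s1 := false) (s2 := false) (a := 2) (b := 1) (c := 3) (cn := .pnn) (n1 := ndF2q2b) (n2 := ndF3q1) (pc := pcF3) (cut := Cut.none) (xt := Ext.none) (P1 := 1239849684) (W1 := 370763052) (P2 := 536870912) (W2 := 536870912) (P3 := 67108864) (W3 := 67108864)
    rfl rfl rfl k0_mm_213_b

noncomputable def f_mm_303 : ℕ → ℕ → ℕ → ℕ → Bool := onCell 1610612736 536870912 0 536870912 67108864 67108864
    (rowFK 0 true false false .npn 3 0 3 (qsf 1610612736 536870912 0 536870912 3) ndF2q3 ndF3q0 pcF3 Cut.none Ext.none)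

def k0_mm_303 : ∃ t, chk3 f_mm_303 t 1 1 1 = true :=
  ⟨(l 4), by decide +kernel⟩

theorem c_mm_303 : CertF 1610612736 536870912 0 536870912 67108864 67108864 true false false .npn 3 0 3
    ndF2q3 ndF3q0 pcF3 Cut.none Ext.none :=
  certFK0 (fam := true) (s1 := false) (s2 := false) (a := 3) (b := 0) (c := 3) (cn := .npn) (n1 := ndF2q3) (n2 := ndF3q0) (pc := pcF3) (cut := Cut.none) (xt := Ext.none) (P1 := 1610612736) (W1 := 536870912) (P2 := 0) (W2 := 536870912) (P3 := 67108864) (W3 := 67108864)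
    rfl rfl rfl k0_mm_303

noncomputable def f_mm_313 : ℕ → ℕ → ℕ → ℕ → Bool := onCell 1610612736 536870912 536870912 536870912 67108864 67108864
    (rowFK 0 true false false .dn 3 1 3 (qsf 1610612736 536870912 536870912 536870912 3) ndF2q3 ndF3q1 pcF3 Cut.none Ext.none)

def k0_mm_313 : ∃ t, chk3 f_mm_313 t 1 1 1 = true :=
  ⟨(l 4), by decide +kernel⟩

theorem c_mm_313 : CertF 1610612736 536870912 536870912 536870912 67108864 67108864 true false false .dn 3 1 3
    ndF2q3 ndF3q1 pcF3 Cut.none Ext.none :=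
  certFK0 (fam := true) (s1 := false) (s2 := false) (a := 3) (b := 1) (c := 3) (cn := .dn) (n1 := ndF2q3) (n2 := ndF3q1) (pc := pcF3) (cut := Cut.none) (xt := Ext.none) (P1 := 1610612736) (W1 := 536870912) (P2 := 536870912) (W2 := 536870912) (P3 := 67108864) (W3 := 67108864)
    rfl rfl rfl k0_mm_313

end Pool.Agent.Strip051.G.I1_16_1_8.Tab.C.FA23

namespace Pool.Agent.Strip051.G.I1_16_1_8.Tab.C.FA24

open Pool.Agent.Strip051.PB Pool.Agent.Strip051.PB.T
open Pool.Agent.Strip051.G.I1_16_1_8.Tab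

noncomputable def f_pp_001 : ℕ → ℕ → ℕ → ℕ → Bool := onCell 0 536870912 0 536870912 67108864 67108864
    (rowFK 0 true true true .up 0 0 1 (qsf 0 536870912 0 536870912 1) ndF2q0 ndF4q0 pcF1 Cut.none Ext.none)

def k0_pp_001 : ∃ t, chk3 f_pp_001 t 1 1 1 = true :=
  ⟨(l 4), by decide +kernel⟩

theorem c_pp_001 : CertF 0 536870912 0 536870912 67108864 67108864 true true true .up 0 0 1
    ndF2q0 ndF4q0 pcF1 Cut.none Ext.none :=
  certFK0 (fam := true) (s1 := true) (s2 := true) (a := 0) (b := 0) (c := 1) (cn := .up) (n1 := ndF2q0) (n2 := ndF4q0) (pc := pcF1) (cut := Cut.none) (xt := Ext.none) (P1 := 0) (W1 := 536870912) (P2 := 0) (W2 := 536870912) (P3 := 67108864) (W3 := 67108864)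
    rfl rfl rfl k0_pp_001

noncomputable def f_pp_011 : ℕ → ℕ → ℕ → ℕ → Bool := onCell 0 536870912 536870912 536870912 67108864 67108864
    (rowFK 0 true true true .pnn 0 1 1 (qsf 0 536870912 536870912 536870912 1) ndF2q0 ndF4q1 pcF1 Cut.none Ext.none)

def k0_pp_011 : ∃ t, chk3 f_pp_011 t 1 1 1 = true :=
  ⟨(l 4), by decide +kernel⟩

theorem c_pp_011 : CertF 0 536870912 536870912 536870912 67108864 67108864 true true true .pnn 0 1 1
    ndF2q0 ndF4q1 pcF1 Cut.none Ext.none :=
  certFK0 (fam := true) (s1 := true) (s2 := true) (a := 0) (b := 1) (c := 1) (cn := .pnn) (n1 := ndF2q0) (n2 := ndF4q1) (pc := pcF1) (cut := Cut.none) (xt := Ext.none) (P1 := 0) (W1 := 536870912) (P2 := 536870912) (W2 := 536870912) (P3 := 67108864) (W3 := 67108864)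
    rfl rfl rfl k0_pp_011

noncomputable def f_pp_012 : ℕ → ℕ → ℕ → ℕ → Bool := onCell 0 536870912 536870912 536870912 67108864 67108864
    (rowFK 0 true true true .pnp 0 1 2 (qsf 0 536870912 536870912 536870912 2) ndF2q0 ndF4q1 pcF2 Cut.none Ext.none)

def k0_pp_012 : ∃ t, chk3 f_pp_012 t 1 1 1 = true :=
  ⟨(l 4), by decide +kernel⟩

theorem c_pp_012 : CertF 0 536870912 536870912 536870912 67108864 67108864 true true true .pnp 0 1 2
    ndF2q0 ndF4q1 pcF2 Cut.none Ext.none :=
  certFK0 (fam := true) (s1 := true) (s2 := true) (a := 0) (b := 1) (c := 2) (cn := .pnp) (n1 := ndF2q0) (n2 := ndF4q1) (pc := pcF2) (cut := Cut.none) (xt := Ext.none) (P1 := 0) (W1 := 536870912) (P2 := 536870912) (W2 := 536870912) (P3 := 67108864) (W3 := 67108864)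
    rfl rfl rfl k0_pp_012

noncomputable def f_pp_022 : ℕ → ℕ → ℕ → ℕ → Bool := onCell 0 536870912 1073741824 536870912 67108864 67108864
    (rowFK 0 true true true .pp 0 2 2 (qsf 0 536870912 1073741824 536870912 2) ndF2q0 ndF4q2 pcF2 Cut.none Ext.none)

def k0_pp_022 : ∃ t, chk3 f_pp_022 t 1 1 1 = true :=
  ⟨(l 4), by decide +kernel⟩

theorem c_pp_022 : CertF 0 536870912 1073741824 536870912 67108864 67108864 true true true .pp 0 2 2
    ndF2q0 ndF4q2 pcF2 Cut.none Ext.none :=
  certFK0 (fam := true) (s1 := true) (s2 := true) (a := 0) (b := 2) (c := 2) (cn := .pp) (n1 := ndF2q0) (n2 := ndF4q2) (pc := pcF2) (cut := Cut.none) (xt := Ext.none) (P1 := 0) (W1 := 536870912) (P2 := 1073741824) (W2 := 536870912) (P3 := 67108864) (W3 := 67108864)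
    rfl rfl rfl k0_pp_022

noncomputable def f_pp_023 : ℕ → ℕ → ℕ → ℕ → Bool := onCell 0 536870912 1073741824 536870912 67108864 67108864
    (rowFK 0 true true true .up 0 2 3 (qsf 0 536870912 1073741824 536870912 3) ndF2q0 ndF4q2 pcF3 Cut.none Ext.none)

def k0_pp_023 : ∃ t, chk3 f_pp_023 t 1 1 1 = true :=
  ⟨(l 4), by decide +kernel⟩

theorem c_pp_023 : CertF 0 536870912 1073741824 536870912 67108864 67108864 true true true .up 0 2 3
    ndF2q0 ndF4q2 pcF3 Cut.none Ext.none :=
  certFK0 (fam := true) (s1 := true) (s2 := true) (a := 0) (b := 2) (c := 3) (cn := .up) (n1 := ndF2q0) (n2 := ndF4q2) (pc := pcF3) (cut := Cut.none) (xt := Ext.none) (P1 := 0) (W1 := 536870912) (P2 := 1073741824) (W2 := 536870912) (P3 := 67108864) (W3 := 67108864)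
    rfl rfl rfl k0_pp_023

noncomputable def f_pp_033 : ℕ → ℕ → ℕ → ℕ → Bool := onCell 0 536870912 0 1230186008 67108864 67108864
    (rowFK 0 true true true .pnn 0 3 3 (qsf 0 536870912 0 1230186008 3) ndF2q0 ndF4q3 pcF3 Cut.none Ext.none)

def k0_pp_033 : ∃ t, chk3 f_pp_033 t 1 1 1 = true :=
  ⟨(b (l 4) (l 4)), by decide +kernel⟩

theorem c_pp_033 : CertF 0 536870912 0 1230186008 67108864 67108864 true true true .pnn 0 3 3
    ndF2q0 ndF4q3 pcF3 Cut.none Ext.none :=
  certFK0 (fam := true) (s1 := true) (s2 := true) (a := 0) (b := 3) (c := 3) (cn := .pnn) (n1 := ndF2q0) (n2 := ndF4q3) (pc := pcF3) (cut := Cut.none) (xt := Ext.none) (P1 := 0) (W1 := 536870912) (P2 := 0) (W2 := 1230186008) (P3 := 67108864) (W3 := 67108864)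
    rfl rfl rfl k0_pp_033

noncomputable def f_pp_101 : ℕ → ℕ → ℕ → ℕ → Bool := onCell 536870912 536870912 0 536870912 67108864 67108864
    (rowFK 0 true true true .npn 1 0 1 (qsf 536870912 536870912 0 536870912 1) ndF2q1 ndF4q0 pcF1 Cut.none Ext.none)

def k0_pp_101 : ∃ t, chk3 f_pp_101 t 1 1 1 = true :=
  ⟨(l 4), by decide +kernel⟩

theorem c_pp_101 : CertF 536870912 536870912 0 536870912 67108864 67108864 true true true .npn 1 0 1
    ndF2q1 ndF4q0 pcF1 Cut.none Ext.none :=
  certFK0 (fam := true) (s1 := true) (s2 := true) (a := 1) (b := 0) (c := 1) (cn := .npn) (n1 := ndF2q1) (n2 := ndF4q0) (pc := pcF1) (cut := Cut.none) (xt := Ext.none) (P1 := 536870912) (W1 := 536870912) (P2 := 0) (W2 := 536870912) (P3 := 67108864) (W3 := 67108864)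
    rfl rfl rfl k0_pp_101

noncomputable def f_pp_102 : ℕ → ℕ → ℕ → ℕ → Bool := onCell 536870912 536870912 0 536870912 67108864 67108864
    (rowFK 0 true true true .npp 1 0 2 (qsf 536870912 536870912 0 536870912 2) ndF2q1 ndF4q0 pcF2 Cut.none Ext.none)

def k0_pp_102 : ∃ t, chk3 f_pp_102 t 1 1 1 = true :=
  ⟨(l 4), by decide +kernel⟩

theorem c_pp_102 : CertF 536870912 536870912 0 536870912 67108864 67108864 true true true .npp 1 0 2
    ndF2q1 ndF4q0 pcF2 Cut.none Ext.none :=
  certFK0 (fam := true) (s1 := true) (s2 := true) (a := 1) (b := 0) (c := 2) (cn := .npp) (n1 := ndF2q1) (n2 := ndF4q0) (pc := pcF2) (cut := Cut.none) (xt := Ext.none) (P1 := 536870912) (W1 := 536870912) (P2 := 0) (W2 := 536870912) (P3 := 67108864) (W3 := 67108864)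
    rfl rfl rfl k0_pp_102

noncomputable def f_pp_112 : ℕ → ℕ → ℕ → ℕ → Bool := onCell 536870912 536870912 536870912 536870912 67108864 67108864
    (rowFK 0 true true true .dn 1 1 2 (qsf 536870912 536870912 536870912 536870912 2) ndF2q1 ndF4q1 pcF2 Cut.none Ext.none)

def k0_pp_112 : ∃ t, chk3 f_pp_112 t 1 1 1 = true :=
  ⟨(l 4), by decide +kernel⟩

theorem c_pp_112 : CertF 536870912 536870912 536870912 536870912 67108864 67108864 true true true .dn 1 1 2
    ndF2q1 ndF4q1 pcF2 Cut.none Ext.none :=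
  certFK0 (fam := true) (s1 := true) (s2 := true) (a := 1) (b := 1) (c := 2) (cn := .dn) (n1 := ndF2q1) (n2 := ndF4q1) (pc := pcF2) (cut := Cut.none) (xt := Ext.none) (P1 := 536870912) (W1 := 536870912) (P2 := 536870912) (W2 := 536870912) (P3 := 67108864) (W3 := 67108864)
    rfl rfl rfl k0_pp_112

noncomputable def f_pp_113 : ℕ → ℕ → ℕ → ℕ → Bool := onCell 536870912 536870912 536870912 536870912 67108864 67108864
    (rowFK 0 true true true .nn 1 1 3 (qsf 536870912 536870912 536870912 536870912 3) ndF2q1 ndF4q1 pcF3 Cut.none Ext.none)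

def k0_pp_113 : ∃ t, chk3 f_pp_113 t 1 1 1 = true :=
  ⟨(l 4), by decide +kernel⟩

theorem c_pp_113 : CertF 536870912 536870912 536870912 536870912 67108864 67108864 true true true .nn 1 1 3
    ndF2q1 ndF4q1 pcF3 Cut.none Ext.none :=
  certFK0 (fam := true) (s1 := true) (s2 := true) (a := 1) (b := 1) (c := 3) (cn := .nn) (n1 := ndF2q1) (n2 := ndF4q1) (pc := pcF3) (cut := Cut.none) (xt := Ext.none) (P1 := 536870912) (W1 := 536870912) (P2 := 536870912) (W2 := 536870912) (P3 := 67108864) (W3 := 67108864)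
    rfl rfl rfl k0_pp_113

noncomputable def f_pp_123 : ℕ → ℕ → ℕ → ℕ → Bool := onCell 536870912 536870912 1073741824 536870912 67108864 67108864
    (rowFK 0 true true true .npn 1 2 3 (qsf 536870912 536870912 1073741824 536870912 3) ndF2q1 ndF4q2 pcF3 Cut.none Ext.none)

def k0_pp_123 : ∃ t, chk3 f_pp_123 t 1 1 1 = true :=
  ⟨(l 4), by decide +kernel⟩

theorem c_pp_123 : CertF 536870912 536870912 1073741824 536870912 67108864 67108864 true true true .npn 1 2 3
    ndF2q1 ndF4q2 pcF3 Cut.none Ext.none :=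
  certFK0 (fam := true) (s1 := true) (s2 := true) (a := 1) (b := 2) (c := 3) (cn := .npn) (n1 := ndF2q1) (n2 := ndF4q2) (pc := pcF3) (cut := Cut.none) (xt := Ext.none) (P1 := 536870912) (W1 := 536870912) (P2 := 1073741824) (W2 := 536870912) (P3 := 67108864) (W3 := 67108864)
    rfl rfl rfl k0_pp_123

noncomputable def f_pp_133 : ℕ → ℕ → ℕ → ℕ → Bool := onCell 536870912 536870912 0 1230186008 67108864 67108864
    (rowFK 0 true true true .dn 1 3 3 (qsf 536870912 536870912 0 1230186008 3) ndF2q1 ndF4q3 pcF3 Cut.none Ext.none)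

def k0_pp_133 : ∃ t, chk3 f_pp_133 t 1 1 1 = true :=
  ⟨(l 4), by decide +kernel⟩

theorem c_pp_133 : CertF 536870912 536870912 0 1230186008 67108864 67108864 true true true .dn 1 3 3
    ndF2q1 ndF4q3 pcF3 Cut.none Ext.none :=
  certFK0 (fam := true) (s1 := true) (s2 := true) (a := 1) (b := 3) (c := 3) (cn := .dn) (n1 := ndF2q1) (n2 := ndF4q3) (pc := pcF3) (cut := Cut.none) (xt := Ext.none) (P1 := 536870912) (W1 := 536870912) (P2 := 0) (W2 := 1230186008) (P3 := 67108864) (W3 := 67108864)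
    rfl rfl rfl k0_pp_133

noncomputable def f_pp_202_a : ℕ → ℕ → ℕ → ℕ → Bool := onCell 0 536870912 0 536870912 67108864 67108864
    (rowFK 0 true true true .pp 2 0 2 (qsf 0 536870912 0 536870912 2) ndF2q2a ndF4q0 pcF2 Cut.none Ext.none)

def k0_pp_202_a : ∃ t, chk3 f_pp_202_a t 1 1 1 = true :=
  ⟨(l 4), by decide +kernel⟩

theorem c_pp_202_a : CertF 0 536870912 0 536870912 67108864 67108864 true true true .pp 2 0 2
    ndF2q2a ndF4q0 pcF2 Cut.none Ext.none :=
  certFK0 (fam := true) (s1 := true) (s2 := true) (a := 2) (b := 0) (c := 2) (cn := .pp) (n1 := ndF2q2a) (n2 := ndF4q0) (pc := pcF2) (cut := Cut.none) (xt := Ext.none) (P1 := 0) (W1 := 536870912) (P2 := 0) (W2 := 536870912) (P3 := 67108864) (W3 := 67108864)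
    rfl rfl rfl k0_pp_202_a

noncomputable def f_pp_202_b : ℕ → ℕ → ℕ → ℕ → Bool := onCell 1239849684 370763052 0 536870912 67108864 67108864
    (rowFK 0 true true true .pp 2 0 2 (qsf 1239849684 370763052 0 536870912 2) ndF2q2b ndF4q0 pcF2 Cut.none Ext.none)

def k0_pp_202_b : ∃ t, chk3 f_pp_202_b t 1 1 1 = true :=
  ⟨(l 4), by decide +kernel⟩

theorem c_pp_202_b : CertF 1239849684 370763052 0 536870912 67108864 67108864 true true true .pp 2 0 2
    ndF2q2b ndF4q0 pcF2 Cut.none Ext.none :=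
  certFK0 (fam := true) (s1 := true) (s2 := true) (a := 2) (b := 0) (c := 2) (cn := .pp) (n1 := ndF2q2b) (n2 := ndF4q0) (pc := pcF2) (cut := Cut.none) (xt := Ext.none) (P1 := 1239849684) (W1 := 370763052) (P2 := 0) (W2 := 536870912) (P3 := 67108864) (W3 := 67108864)
    rfl rfl rfl k0_pp_202_b

noncomputable def f_pp_203_a : ℕ → ℕ → ℕ → ℕ → Bool := onCell 0 536870912 0 536870912 67108864 67108864
    (rowFK 0 true true true .up 2 0 3 (qsf 0 536870912 0 536870912 3) ndF2q2a ndF4q0 pcF3 Cut.none Ext.none)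

def k0_pp_203_a : ∃ t, chk3 f_pp_203_a t 1 1 1 = true :=
  ⟨(l 4), by decide +kernel⟩

theorem c_pp_203_a : CertF 0 536870912 0 536870912 67108864 67108864 true true true .up 2 0 3
    ndF2q2a ndF4q0 pcF3 Cut.none Ext.none :=
  certFK0 (fam := true) (s1 := true) (s2 := true) (a := 2) (b := 0) (c := 3) (cn := .up) (n1 := ndF2q2a) (n2 := ndF4q0) (pc := pcF3) (cut := Cut.none) (xt := Ext.none) (P1 := 0) (W1 := 536870912) (P2 := 0) (W2 := 536870912) (P3 := 67108864) (W3 := 67108864)
    rfl rfl rfl k0_pp_203_a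

noncomputable def f_pp_203_b : ℕ → ℕ → ℕ → ℕ → Bool := onCell 1239849684 370763052 0 536870912 67108864 67108864
    (rowFK 0 true true true .up 2 0 3 (qsf 1239849684 370763052 0 536870912 3) ndF2q2b ndF4q0 pcF3 Cut.none Ext.none)

def k0_pp_203_b : ∃ t, chk3 f_pp_203_b t 1 1 1 = true :=
  ⟨(l 4), by decide +kernel⟩

theorem c_pp_203_b : CertF 1239849684 370763052 0 536870912 67108864 67108864 true true true .up 2 0 3
    ndF2q2b ndF4q0 pcF3 Cut.none Ext.none :=
  certFK0 (fam := true) (s1 := true) (s2 := true) (a := 2) (b := 0) (c := 3) (cn := .up) (n1 := ndF2q2b) (n2 := ndF4q0) (pc := pcF3) (cut := Cut.none) (xt := Ext.none) (P1 := 1239849684) (W1 := 370763052) (P2 := 0) (W2 := 536870912) (P3 := 67108864) (W3 := 67108864)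
    rfl rfl rfl k0_pp_203_b

noncomputable def f_pp_213_a : ℕ → ℕ → ℕ → ℕ → Bool := onCell 0 536870912 536870912 536870912 67108864 67108864
    (rowFK 0 true true true .pnn 2 1 3 (qsf 0 536870912 536870912 536870912 3) ndF2q2a ndF4q1 pcF3 Cut.none Ext.none)

def k0_pp_213_a : ∃ t, chk3 f_pp_213_a t 1 1 1 = true :=
  ⟨(l 4), by decide +kernel⟩

theorem c_pp_213_a : CertF 0 536870912 536870912 536870912 67108864 67108864 true true true .pnn 2 1 3
    ndF2q2a ndF4q1 pcF3 Cut.none Ext.none :=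
  certFK0 (fam := true) (s1 := true) (s2 := true) (a := 2) (b := 1) (c := 3) (cn := .pnn) (n1 := ndF2q2a) (n2 := ndF4q1) (pc := pcF3) (cut := Cut.none) (xt := Ext.none) (P1 := 0) (W1 := 536870912) (P2 := 536870912) (W2 := 536870912) (P3 := 67108864) (W3 := 67108864)
    rfl rfl rfl k0_pp_213_a

noncomputable def f_pp_213_b : ℕ → ℕ → ℕ → ℕ → Bool := onCell 1239849684 370763052 536870912 536870912 67108864 67108864
    (rowFK 0 true true true .pnn 2 1 3 (qsf 1239849684 370763052 536870912 536870912 3) ndF2q2b ndF4q1 pcF3 Cut.none Ext.none)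

def k0_pp_213_b : ∃ t, chk3 f_pp_213_b t 1 1 1 = true :=
  ⟨(l 4), by decide +kernel⟩

theorem c_pp_213_b : CertF 1239849684 370763052 536870912 536870912 67108864 67108864 true true true .pnn 2 1 3
    ndF2q2b ndF4q1 pcF3 Cut.none Ext.none :=
  certFK0 (fam := true) (s1 := true) (s2 := true) (a := 2) (b := 1) (c := 3) (cn := .pnn) (n1 := ndF2q2b) (n2 := ndF4q1) (pc := pcF3) (cut := Cut.none) (xt := Ext.none) (P1 := 1239849684) (W1 := 370763052) (P2 := 536870912) (W2 := 536870912) (P3 := 67108864) (W3 := 67108864)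
    rfl rfl rfl k0_pp_213_b

noncomputable def f_pp_303 : ℕ → ℕ → ℕ → ℕ → Bool := onCell 1610612736 536870912 0 536870912 67108864 67108864
    (rowFK 0 true true true .npn 3 0 3 (qsf 1610612736 536870912 0 536870912 3) ndF2q3 ndF4q0 pcF3 Cut.none Ext.none)

def k0_pp_303 : ∃ t, chk3 f_pp_303 t 1 1 1 = true :=
  ⟨(l 4), by decide +kernel⟩

theorem c_pp_303 : CertF 1610612736 536870912 0 536870912 67108864 67108864 true true true .npn 3 0 3
    ndF2q3 ndF4q0 pcF3 Cut.none Ext.none :=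
  certFK0 (fam := true) (s1 := true) (s2 := true) (a := 3) (b := 0) (c := 3) (cn := .npn) (n1 := ndF2q3) (n2 := ndF4q0) (pc := pcF3) (cut := Cut.none) (xt := Ext.none) (P1 := 1610612736) (W1 := 536870912) (P2 := 0) (W2 := 536870912) (P3 := 67108864) (W3 := 67108864)
    rfl rfl rfl k0_pp_303

noncomputable def f_pp_313 : ℕ → ℕ → ℕ → ℕ → Bool := onCell 1610612736 536870912 536870912 536870912 67108864 67108864
    (rowFK 0 true true true .dn 3 1 3 (qsf 1610612736 536870912 536870912 536870912 3) ndF2q3 ndF4q1 pcF3 Cut.none Ext.none)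

def k0_pp_313 : ∃ t, chk3 f_pp_313 t 1 1 1 = true :=
  ⟨(l 4), by decide +kernel⟩

theorem c_pp_313 : CertF 1610612736 536870912 536870912 536870912 67108864 67108864 true true true .dn 3 1 3
    ndF2q3 ndF4q1 pcF3 Cut.none Ext.none :=
  certFK0 (fam := true) (s1 := true) (s2 := true) (a := 3) (b := 1) (c := 3) (cn := .dn) (n1 := ndF2q3) (n2 := ndF4q1) (pc := pcF3) (cut := Cut.none) (xt := Ext.none) (P1 := 1610612736) (W1 := 536870912) (P2 := 536870912) (W2 := 536870912) (P3 := 67108864) (W3 := 67108864)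
    rfl rfl rfl k0_pp_313

noncomputable def f_pm_001 : ℕ → ℕ → ℕ → ℕ → Bool := onCell 0 536870912 0 536870912 67108864 67108864
    (rowFK 0 true true false .up 0 0 1 (qsf 0 536870912 0 536870912 1) ndF2q0 ndF4q0 pcF1 Cut.none Ext.none)

def k0_pm_001 : ∃ t, chk3 f_pm_001 t 1 1 1 = true :=
  ⟨(l 3), by decide +kernel⟩

theorem c_pm_001 : CertF 0 536870912 0 536870912 67108864 67108864 true true false .up 0 0 1
    ndF2q0 ndF4q0 pcF1 Cut.none Ext.none :=
  certFK0 (fam := true) (s1 := true) (s2 := false) (a := 0) (b := 0) (c := 1) (cn := .up) (n1 := ndF2q0) (n2 := ndF4q0) (pc := pcF1) (cut := Cut.none) (xt := Ext.none) (P1 := 0) (W1 := 536870912) (P2 := 0) (W2 := 536870912) (P3 := 67108864) (W3 := 67108864)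
    rfl rfl rfl k0_pm_001

noncomputable def cut_pm_011 : Cut := Cut.of [[⟨0, 0, 0, 67108864⟩, ⟨1, 1, 0, 67108864⟩, ⟨2, 1, 0, 67108864⟩]]

noncomputable def f_pm_011 : ℕ → ℕ → ℕ → ℕ → Bool := onCell 0 536870912 536870912 536870912 67108864 67108864
    (rowFK 1 true true false .pnn 0 1 1 (qsf 0 536870912 536870912 536870912 1) ndF2q0 ndF4q1 pcF1 cut_pm_011 Ext.none)

def k0_pm_011 : ∃ t, chk3 f_pm_011 t 1 1 1 = true :=
  ⟨(b (l 3) (a (b (l 3) (a (b (l 3) (a (a (b (l 3) (a (l 6) (l 3))) (l 3)) (l 3))) (l 3))) (l 3))), by decide +kernel⟩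

theorem c_pm_011 : CertF 0 536870912 536870912 536870912 67108864 67108864 true true false .pnn 0 1 1
    ndF2q0 ndF4q1 pcF1 cut_pm_011 Ext.none :=
  certFK1 (fam := true) (s1 := true) (s2 := false) (a := 0) (b := 1) (c := 1) (cn := .pnn) (n1 := ndF2q0) (n2 := ndF4q1) (pc := pcF1) (cut := cut_pm_011) (xt := Ext.none) (P1 := 0) (W1 := 536870912) (P2 := 536870912) (W2 := 536870912) (P3 := 67108864) (W3 := 67108864)
    rfl rfl rfl (fun _ => rfl) k0_pm_011

noncomputable def cut_pm_012 : Cut := Cut.of [[⟨0, 0, 0, 67108864⟩, ⟨1, 1, 0, 67108864⟩, ⟨2, 1, 0, 67108864⟩]]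

noncomputable def f_pm_012 : ℕ → ℕ → ℕ → ℕ → Bool := onCell 1073741824 536870912 536870912 536870912 67108864 67108864
    (rowFK 2 true true false .pnp 0 1 2 (qsf 0 536870912 536870912 536870912 2) ndF2q0 ndF4q1 pcF2 cut_pm_012 Ext.none)

def k0_pm_012 : ∃ t, chk3 f_pm_012 t 1 1 1 = true :=
  ⟨(a (b (a (a (l 3) (l 345380819607)) (a (a (a (l 19073392) (l 19060288)) (l 19031024)) (l 18932992))) (a (b (a (l 3) (l 418931665287)) (b (a (l 3) (a (l 18319624) (l 18738800))) (b (a (a (l 3) (l 17230728)) (a (l 17858512) (l 18553912))) (a (a (b (l 3) (l 6)) (b (l 17083736) (a (l 16948400) (l 17021120)))) (a (l 17200600) (l 18242320)))))) (b (a (a (a (l 19021272) (l 19067312)) (l 19111080)) (l 19119944)) (a (a (a (l 18907784) (a (l 19007464) (b (l 19059592) (l 19052488)))) (l 19165792)) (l 19273128))))) (b (a (l 18664064) (l 2)) (b (l 18796688) (a (l 19153344) (l 18762376))))), by decide +kernel⟩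

theorem c_pm_012 : CertF 0 536870912 536870912 536870912 67108864 67108864 true true false .pnp 0 1 2
    ndF2q0 ndF4q1 pcF2 cut_pm_012 Ext.none :=
  certFK2 (fam := true) (s1 := true) (s2 := false) (a := 0) (b := 1) (c := 2) (cn := .pnp) (n1 := ndF2q0) (n2 := ndF4q1) (pc := pcF2) (cut := cut_pm_012) (xt := Ext.none) (P1 := 0) (W1 := 536870912) (P2 := 536870912) (W2 := 536870912) (P3 := 67108864) (W3 := 67108864)
    rfl rfl rfl (fun _ => rfl) k0_pm_012

noncomputable def cut_pm_022 : Cut := Cut.of [[⟨0, 0, 0, 67108864⟩, ⟨1, 1, 0, 67108864⟩, ⟨2, 1, 0, 67108864⟩]]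

noncomputable def f_pm_022 : ℕ → ℕ → ℕ → ℕ → Bool := onCell 0 536870912 1073741824 536870912 67108864 67108864
    (rowFK 1 true true false .pp 0 2 2 (qsf 0 536870912 1073741824 536870912 2) ndF2q0 ndF4q2 pcF2 cut_pm_022 Ext.none)

def k0_pm_022 : ∃ t, chk3 f_pm_022 t 1 1 1 = true :=
  ⟨(a (b (a (b (b (b (a (a (l 6) (a (l 6) (l 1))) (l 1)) (a (a (b (l 6) (a (b (l 6) (a (a (l 16684536) (l 16665872)) (l 16701312))) (l 16782240))) (b (a (l 6) (l 17009360)) (a (l 16878520) (l 16976136)))) (a (a (l 60163932951) (l 1)) (l 1)))) (b (a (a (a (a (b (a (a (l 16671584) (l 16657056)) (l 16658760)) (a (l 16660064) (l 16620072))) (a (l 16729616) (l 16732728))) (b (l 16747592) (l 16714096))) (b (l 16900680) (l 16872984))) (a (b (l 17107960) (l 17088912)) (l 17370136))) (a (a (a (a (b (l 16857496) (c (l 17942248) (l 16827856))) (l 17132616)) (l 17116032)) (l 17179640)) (a (l 17464904) (l 17910008))))) (b (a (b (b (a (a (a (l 17493624) (l 17733128)) (l 17729472)) (l 17783032))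 (a (b (l 17883512) (l 18067736)) (l 18058064))) (a (l 18151176) (l 18356248))) (b (b (l 18141096) (b (l 18302120) (b (l 18370688) (l 18413552)))) (l 18567248))) (a (a (l 18704696) (l 18709768)) (l 18803968)))) (b (b (l 1) (b (l 1) (a (b (l 1) (l 18740968)) (l 1)))) (b (a (b (b (l 18877568) (b (l 18957104) (b (l 18989872) (l 19009000)))) (l 19056208)) (b (l 1) (l 19499000))) (l 19246440)))) (a (b (a (b (l 18920760) (l 18974528)) (l 18930432)) (a (l 18927224) (l 18811752))) (b (l 19052032) (l 18709352)))) (b (b (l 1) (b (l 1) (l 19663848))) (a (b (l 19140816) (l 18750440)) (l 19004800)))), by decide +kernel⟩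

theorem c_pm_022 : CertF 0 536870912 1073741824 536870912 67108864 67108864 true true false .pp 0 2 2
    ndF2q0 ndF4q2 pcF2 cut_pm_022 Ext.none :=
  certFK1 (fam := true) (s1 := true) (s2 := false) (a := 0) (b := 2) (c := 2) (cn := .pp) (n1 := ndF2q0) (n2 := ndF4q2) (pc := pcF2) (cut := cut_pm_022) (xt := Ext.none) (P1 := 0) (W1 := 536870912) (P2 := 1073741824) (W2 := 536870912) (P3 := 67108864) (W3 := 67108864)
    rfl rfl rfl (fun _ => rfl) k0_pm_022

noncomputable def f_pm_023 : ℕ → ℕ → ℕ → ℕ → Bool := onCell 1610612736 536870912 1073741824 536870912 67108864 67108864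
    (rowFK 2 true true false .up 0 2 3 (qsf 0 536870912 1073741824 536870912 3) ndF2q0 ndF4q2 pcF3 Cut.none Ext.none)

def k0_pm_023 : ∃ t, chk3 f_pm_023 t 1 1 1 = true :=
  ⟨(a (b (a (l 18230944) (l 17884760)) (b (a (l 18275696) (l 17695048)) (a (l 460672894391) (l 17796504)))) (a (b (b (l 2) (l 17481440)) (b (l 17296376) (l 17234280))) (b (l 2) (a (l 17221240) (a (l 16812920) (a (l 16814856) (a (l 16845936) (l 16830960)))))))), by decide +kernel⟩

theorem c_pm_023 : CertF 0 536870912 1073741824 536870912 67108864 67108864 true true false .up 0 2 3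
    ndF2q0 ndF4q2 pcF3 Cut.none Ext.none :=
  certFK2 (fam := true) (s1 := true) (s2 := false) (a := 0) (b := 2) (c := 3) (cn := .up) (n1 := ndF2q0) (n2 := ndF4q2) (pc := pcF3) (cut := Cut.none) (xt := Ext.none) (P1 := 0) (W1 := 536870912) (P2 := 1073741824) (W2 := 536870912) (P3 := 67108864) (W3 := 67108864)
    rfl rfl rfl (fun _ => rfl) k0_pm_023

noncomputable def f_pm_033 : ℕ → ℕ → ℕ → ℕ → Bool := onCell 1610612736 536870912 0 1230186008 67108864 67108864
    (rowFK 2 true true false .pnn 0 3 3 (qsf 0 536870912 0 1230186008 3) ndF2q0 ndF4q3 pcF3 Cut.none Ext.none)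

def k0_pm_033 : ∃ t, chk3 f_pm_033 t 1 1 1 = true :=
  ⟨(a (b (l 1) (b (b (l 1) (a (l 1) (a (l 1) (a (l 1) (l 18902200))))) (b (a (l 1) (a (l 1077537759783) (b (l 18530552) (l 18288224)))) (a (a (b (l 1) (l 932046569463)) (l 673274094887)) (l 18319192))))) (a (b (l 1) (b (b (a (l 1) (l 18033144)) (a (l 715686116471) (l 17800144))) (b (a (l 18019312) (l 17550040)) (a (l 17609064) (l 17183544))))) (b (b (a (l 1) (l 4)) (a (l 18031200) (l 4))) (b (a (l 17513472) (a (l 17301552) (l 4))) (a (b (l 17055048) (l 16843160)) (a (l 16988072) (a (l 17041168) (b (l 4) (l 4))))))))), by decide +kernel⟩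

theorem c_pm_033 : CertF 0 536870912 0 1230186008 67108864 67108864 true true false .pnn 0 3 3
    ndF2q0 ndF4q3 pcF3 Cut.none Ext.none :=
  certFK2 (fam := true) (s1 := true) (s2 := false) (a := 0) (b := 3) (c := 3) (cn := .pnn) (n1 := ndF2q0) (n2 := ndF4q3) (pc := pcF3) (cut := Cut.none) (xt := Ext.none) (P1 := 0) (W1 := 536870912) (P2 := 0) (W2 := 1230186008) (P3 := 67108864) (W3 := 67108864)
    rfl rfl rfl (fun _ => rfl) k0_pm_033

noncomputable def f_pm_101 : ℕ → ℕ → ℕ → ℕ → Bool := onCell 536870912 536870912 536870912 536870912 67108864 67108864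
    (rowFK 1 true true false .npn 1 0 1 (qsf 536870912 536870912 0 536870912 1) ndF2q1 ndF4q0 pcF1 Cut.none Ext.none)

def k0_pm_101 : ∃ t, chk3 f_pm_101 t 1 1 1 = true :=
  ⟨(l 3), by decide +kernel⟩

theorem c_pm_101 : CertF 536870912 536870912 0 536870912 67108864 67108864 true true false .npn 1 0 1
    ndF2q1 ndF4q0 pcF1 Cut.none Ext.none :=
  certFK1 (fam := true) (s1 := true) (s2 := false) (a := 1) (b := 0) (c := 1) (cn := .npn) (n1 := ndF2q1) (n2 := ndF4q0) (pc := pcF1) (cut := Cut.none) (xt := Ext.none) (P1 := 536870912) (W1 := 536870912) (P2 := 0) (W2 := 536870912) (P3 := 67108864) (W3 := 67108864)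
    rfl rfl rfl (fun _ => rfl) k0_pm_101

noncomputable def f_pm_102 : ℕ → ℕ → ℕ → ℕ → Bool := onCell 536870912 536870912 1073741824 536870912 67108864 67108864
    (rowFK 1 true true false .npp 1 0 2 (qsf 536870912 536870912 0 536870912 2) ndF2q1 ndF4q0 pcF2 Cut.none Ext.none)

def k0_pm_102 : ∃ t, chk3 f_pm_102 t 1 1 1 = true :=
  ⟨(b (b (b (l 3) (a (a (l 17545608) (l 17727912)) (a (l 18599912) (a (l 19314232) (a (l 19448696) (l 19524032)))))) (a (a (b (l 292698071943) (l 2)) (b (b (l 17989184) (l 17932848)) (l 18082568))) (a (b (a (l 18365648) (l 18906160)) (l 18527008)) (a (b (l 19193648) (l 19040904)) (a (b (l 19310440) (l 19135456)) (l 19373336)))))) (a (a (l 2) (b (l 18436056) (l 2))) (a (b (l 18488160) (l 18453632)) (a (l 18646912) (a (l 18700544) (l 18758184)))))), by decide +kernel⟩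

theorem c_pm_102 : CertF 536870912 536870912 0 536870912 67108864 67108864 true true false .npp 1 0 2
    ndF2q1 ndF4q0 pcF2 Cut.none Ext.none :=
  certFK1 (fam := true) (s1 := true) (s2 := false) (a := 1) (b := 0) (c := 2) (cn := .npp) (n1 := ndF2q1) (n2 := ndF4q0) (pc := pcF2) (cut := Cut.none) (xt := Ext.none) (P1 := 536870912) (W1 := 536870912) (P2 := 0) (W2 := 536870912) (P3 := 67108864) (W3 := 67108864)
    rfl rfl rfl (fun _ => rfl) k0_pm_102

noncomputable def f_pm_112 : ℕ → ℕ → ℕ → ℕ → Bool := onCell 536870912 536870912 1073741824 536870912 67108864 67108864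
    (rowFK 1 true true false .dn 1 1 2 (qsf 536870912 536870912 536870912 536870912 2) ndF2q1 ndF4q1 pcF2 Cut.none Ext.none)

def k0_pm_112 : ∃ t, chk3 f_pm_112 t 1 1 1 = true :=
  ⟨(a (b (b (a (l 132776522567) (l 331821976759)) (b (a (l 18062472) (l 18061648)) (l 18092792))) (a (l 19173840) (l 18538424))) (b (a (b (l 1) (b (l 1) (l 18509216))) (l 1)) (a (l 18406344) (a (l 18606488) (a (l 18719696) (l 18775800)))))), by decide +kernel⟩

theorem c_pm_112 : CertF 536870912 536870912 536870912 536870912 67108864 67108864 true true false .dn 1 1 2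
    ndF2q1 ndF4q1 pcF2 Cut.none Ext.none :=
  certFK1 (fam := true) (s1 := true) (s2 := false) (a := 1) (b := 1) (c := 2) (cn := .dn) (n1 := ndF2q1) (n2 := ndF4q1) (pc := pcF2) (cut := Cut.none) (xt := Ext.none) (P1 := 536870912) (W1 := 536870912) (P2 := 536870912) (W2 := 536870912) (P3 := 67108864) (W3 := 67108864)
    rfl rfl rfl (fun _ => rfl) k0_pm_112

noncomputable def f_pm_113 : ℕ → ℕ → ℕ → ℕ → Bool := onCell 536870912 536870912 536870912 536870912 67108864 67108864
    (rowFK 0 true true false .nn 1 1 3 (qsf 536870912 536870912 536870912 536870912 3) ndF2q1 ndF4q1 pcF3 Cut.none Ext.none)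

def k0_pm_113 : ∃ t, chk3 f_pm_113 t 1 1 1 = true :=
  ⟨(a (b (a (l 1) (l 17828152)) (a (l 19211840) (l 18932176))) (b (a (l 18059208) (a (l 18451048) (a (l 18369416) (l 18281888)))) (a (l 18136728) (a (l 17518464) (a (l 17367184) (b (l 17419744) (b (l 17203824) (b (l 17047816) (b (l 16953592) (a (l 16918072) (b (l 16867672) (l 16826456)))))))))))), by decide +kernel⟩

theorem c_pm_113 : CertF 536870912 536870912 536870912 536870912 67108864 67108864 true true false .nn 1 1 3
    ndF2q1 ndF4q1 pcF3 Cut.none Ext.none :=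
  certFK0 (fam := true) (s1 := true) (s2 := false) (a := 1) (b := 1) (c := 3) (cn := .nn) (n1 := ndF2q1) (n2 := ndF4q1) (pc := pcF3) (cut := Cut.none) (xt := Ext.none) (P1 := 536870912) (W1 := 536870912) (P2 := 536870912) (W2 := 536870912) (P3 := 67108864) (W3 := 67108864)
    rfl rfl rfl k0_pm_113

noncomputable def f_pm_123 : ℕ → ℕ → ℕ → ℕ → Bool := onCell 1610612736 536870912 1073741824 536870912 67108864 67108864
    (rowFK 2 true true false .npn 1 2 3 (qsf 536870912 536870912 1073741824 536870912 3) ndF2q1 ndF4q2 pcF3 Cut.none Ext.none)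

def k0_pm_123 : ∃ t, chk3 f_pm_123 t 1 1 1 = true :=
  ⟨(a (b (b (l 20031664) (l 20033040)) (b (l 19728064) (l 1))) (b (a (b (l 18556688) (l 19261832)) (b (a (b (l 17246712) (l 17659336)) (b (a (l 17053552) (a (b (l 17040904) (l 16857640)) (b (a (l 17378792) (l 16797384)) (l 16863648)))) (a (l 17125848) (a (l 16967600) (l 16862736))))) (a (l 18442544) (a (l 17982592) (a (l 17685760) (a (l 17524272) (l 17394496))))))) (a (b (l 19499288) (l 19269712)) (a (l 19176104) (a (l 18967168) (a (l 18810696) (a (l 18720592) (l 18648392)))))))), by decide +kernel⟩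

theorem c_pm_123 : CertF 536870912 536870912 1073741824 536870912 67108864 67108864 true true false .npn 1 2 3
    ndF2q1 ndF4q2 pcF3 Cut.none Ext.none :=
  certFK2 (fam := true) (s1 := true) (s2 := false) (a := 1) (b := 2) (c := 3) (cn := .npn) (n1 := ndF2q1) (n2 := ndF4q2) (pc := pcF3) (cut := Cut.none) (xt := Ext.none) (P1 := 536870912) (W1 := 536870912) (P2 := 1073741824) (W2 := 536870912) (P3 := 67108864) (W3 := 67108864)
    rfl rfl rfl (fun _ => rfl) k0_pm_123

noncomputable def f_pm_133 : ℕ → ℕ → ℕ → ℕ → Bool := onCell 536870912 536870912 0 1230186008 67108864 67108864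
    (rowFK 0 true true false .dn 1 3 3 (qsf 536870912 536870912 0 1230186008 3) ndF2q1 ndF4q3 pcF3 Cut.none Ext.none)

def k0_pm_133 : ∃ t, chk3 f_pm_133 t 1 1 1 = true :=
  ⟨(b (l 2) (b (l 2) (a (b (l 2) (l 4)) (l 2)))), by decide +kernel⟩

theorem c_pm_133 : CertF 536870912 536870912 0 1230186008 67108864 67108864 true true false .dn 1 3 3
    ndF2q1 ndF4q3 pcF3 Cut.none Ext.none :=
  certFK0 (fam := true) (s1 := true) (s2 := false) (a := 1) (b := 3) (c := 3) (cn := .dn) (n1 := ndF2q1) (n2 := ndF4q3) (pc := pcF3) (cut := Cut.none) (xt := Ext.none) (P1 := 536870912) (W1 := 536870912) (P2 := 0) (W2 := 1230186008) (P3 := 67108864) (W3 := 67108864)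
    rfl rfl rfl k0_pm_133

noncomputable def f_pm_202_a : ℕ → ℕ → ℕ → ℕ → Bool := onCell 0 536870912 0 536870912 67108864 67108864
    (rowFK 0 true true false .pp 2 0 2 (qsf 0 536870912 0 536870912 2) ndF2q2a ndF4q0 pcF2 Cut.none Ext.none)

def k0_pm_202_a : ∃ t, chk3 f_pm_202_a t 1 1 1 = true :=
  ⟨(a (b (b (l 18959376) (l 18606736)) (b (l 18277064) (l 4))) (b (a (b (l 19074688) (l 18750576)) (a (b (l 19227216) (l 18876688)) (b (l 19380112) (l 19000344)))) (a (b (l 18463080) (l 4)) (a (b (l 18616328) (l 18357616)) (b (l 18742008) (l 18508008)))))), by decide +kernel⟩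

theorem c_pm_202_a : CertF 0 536870912 0 536870912 67108864 67108864 true true false .pp 2 0 2
    ndF2q2a ndF4q0 pcF2 Cut.none Ext.none :=
  certFK0 (fam := true) (s1 := true) (s2 := false) (a := 2) (b := 0) (c := 2) (cn := .pp) (n1 := ndF2q2a) (n2 := ndF4q0) (pc := pcF2) (cut := Cut.none) (xt := Ext.none) (P1 := 0) (W1 := 536870912) (P2 := 0) (W2 := 536870912) (P3 := 67108864) (W3 := 67108864)
    rfl rfl rfl k0_pm_202_a

noncomputable def f_pm_202_b : ℕ → ℕ → ℕ → ℕ → Bool := onCell 1239849684 370763052 1073741824 536870912 67108864 67108864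
    (rowFK 1 true true false .pp 2 0 2 (qsf 1239849684 370763052 0 536870912 2) ndF2q2b ndF4q0 pcF2 Cut.none Ext.none)

def k0_pm_202_b : ∃ t, chk3 f_pm_202_b t 1 1 1 = true :=
  ⟨(b (a (b (l 1) (l 18695720)) (l 1)) (b (a (l 18408064) (l 17963856)) (a (l 18117888) (l 4)))), by decide +kernel⟩

theorem c_pm_202_b : CertF 1239849684 370763052 0 536870912 67108864 67108864 true true false .pp 2 0 2
    ndF2q2b ndF4q0 pcF2 Cut.none Ext.none :=
  certFK1 (fam := true) (s1 := true) (s2 := false) (a := 2) (b := 0) (c := 2) (cn := .pp) (n1 := ndF2q2b) (n2 := ndF4q0) (pc := pcF2) (cut := Cut.none) (xt := Ext.none) (P1 := 1239849684) (W1 := 370763052) (P2 := 0) (W2 := 536870912) (P3 := 67108864) (W3 := 67108864)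
    rfl rfl rfl (fun _ => rfl) k0_pm_202_b

noncomputable def f_pm_203_a : ℕ → ℕ → ℕ → ℕ → Bool := onCell 0 536870912 1610612736 536870912 67108864 67108864
    (rowFK 1 true true false .up 2 0 3 (qsf 0 536870912 0 536870912 3) ndF2q2a ndF4q0 pcF3 Cut.none Ext.none)

def k0_pm_203_a : ∃ t, chk3 f_pm_203_a t 1 1 1 = true :=
  ⟨(b (l 4) (l 2)), by decide +kernel⟩

theorem c_pm_203_a : CertF 0 536870912 0 536870912 67108864 67108864 true true false .up 2 0 3
    ndF2q2a ndF4q0 pcF3 Cut.none Ext.none :=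
  certFK1 (fam := true) (s1 := true) (s2 := false) (a := 2) (b := 0) (c := 3) (cn := .up) (n1 := ndF2q2a) (n2 := ndF4q0) (pc := pcF3) (cut := Cut.none) (xt := Ext.none) (P1 := 0) (W1 := 536870912) (P2 := 0) (W2 := 536870912) (P3 := 67108864) (W3 := 67108864)
    rfl rfl rfl (fun _ => rfl) k0_pm_203_a

noncomputable def f_pm_203_b : ℕ → ℕ → ℕ → ℕ → Bool := onCell 1239849684 370763052 1610612736 536870912 67108864 67108864
    (rowFK 1 true true false .up 2 0 3 (qsf 1239849684 370763052 0 536870912 3) ndF2q2b ndF4q0 pcF3 Cut.none Ext.none)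

def k0_pm_203_b : ∃ t, chk3 f_pm_203_b t 1 1 1 = true :=
  ⟨(b (l 4) (l 4)), by decide +kernel⟩

theorem c_pm_203_b : CertF 1239849684 370763052 0 536870912 67108864 67108864 true true false .up 2 0 3
    ndF2q2b ndF4q0 pcF3 Cut.none Ext.none :=
  certFK1 (fam := true) (s1 := true) (s2 := false) (a := 2) (b := 0) (c := 3) (cn := .up) (n1 := ndF2q2b) (n2 := ndF4q0) (pc := pcF3) (cut := Cut.none) (xt := Ext.none) (P1 := 1239849684) (W1 := 370763052) (P2 := 0) (W2 := 536870912) (P3 := 67108864) (W3 := 67108864)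
    rfl rfl rfl (fun _ => rfl) k0_pm_203_b

noncomputable def f_pm_213_a : ℕ → ℕ → ℕ → ℕ → Bool := onCell 0 536870912 1610612736 536870912 67108864 67108864
    (rowFK 1 true true false .pnn 2 1 3 (qsf 0 536870912 536870912 536870912 3) ndF2q2a ndF4q1 pcF3 Cut.none Ext.none)

def k0_pm_213_a : ∃ t, chk3 f_pm_213_a t 1 1 1 = true :=
  ⟨(b (l 4) (l 4)), by decide +kernel⟩

theorem c_pm_213_a : CertF 0 536870912 536870912 536870912 67108864 67108864 true true false .pnn 2 1 3
    ndF2q2a ndF4q1 pcF3 Cut.none Ext.none :=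
  certFK1 (fam := true) (s1 := true) (s2 := false) (a := 2) (b := 1) (c := 3) (cn := .pnn) (n1 := ndF2q2a) (n2 := ndF4q1) (pc := pcF3) (cut := Cut.none) (xt := Ext.none) (P1 := 0) (W1 := 536870912) (P2 := 536870912) (W2 := 536870912) (P3 := 67108864) (W3 := 67108864)
    rfl rfl rfl (fun _ => rfl) k0_pm_213_a

noncomputable def f_pm_213_b : ℕ → ℕ → ℕ → ℕ → Bool := onCell 1239849684 370763052 536870912 536870912 67108864 67108864
    (rowFK 0 true true false .pnn 2 1 3 (qsf 1239849684 370763052 536870912 536870912 3) ndF2q2b ndF4q1 pcF3 Cut.none Ext.none)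

def k0_pm_213_b : ∃ t, chk3 f_pm_213_b t 1 1 1 = true :=
  ⟨(l 4), by decide +kernel⟩

theorem c_pm_213_b : CertF 1239849684 370763052 536870912 536870912 67108864 67108864 true true false .pnn 2 1 3
    ndF2q2b ndF4q1 pcF3 Cut.none Ext.none :=
  certFK0 (fam := true) (s1 := true) (s2 := false) (a := 2) (b := 1) (c := 3) (cn := .pnn) (n1 := ndF2q2b) (n2 := ndF4q1) (pc := pcF3) (cut := Cut.none) (xt := Ext.none) (P1 := 1239849684) (W1 := 370763052) (P2 := 536870912) (W2 := 536870912) (P3 := 67108864) (W3 := 67108864)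
    rfl rfl rfl k0_pm_213_b

noncomputable def f_pm_303 : ℕ → ℕ → ℕ → ℕ → Bool := onCell 1610612736 536870912 0 536870912 67108864 67108864
    (rowFK 0 true true false .npn 3 0 3 (qsf 1610612736 536870912 0 536870912 3) ndF2q3 ndF4q0 pcF3 Cut.none Ext.none)

def k0_pm_303 : ∃ t, chk3 f_pm_303 t 1 1 1 = true :=
  ⟨(l 4), by decide +kernel⟩

theorem c_pm_303 : CertF 1610612736 536870912 0 536870912 67108864 67108864 true true false .npn 3 0 3
    ndF2q3 ndF4q0 pcF3 Cut.none Ext.none :=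
  certFK0 (fam := true) (s1 := true) (s2 := false) (a := 3) (b := 0) (c := 3) (cn := .npn) (n1 := ndF2q3) (n2 := ndF4q0) (pc := pcF3) (cut := Cut.none) (xt := Ext.none) (P1 := 1610612736) (W1 := 536870912) (P2 := 0) (W2 := 536870912) (P3 := 67108864) (W3 := 67108864)
    rfl rfl rfl k0_pm_303

noncomputable def f_pm_313 : ℕ → ℕ → ℕ → ℕ → Bool := onCell 1610612736 536870912 536870912 536870912 67108864 67108864
    (rowFK 0 true true false .dn 3 1 3 (qsf 1610612736 536870912 536870912 536870912 3) ndF2q3 ndF4q1 pcF3 Cut.none Ext.none)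

def k0_pm_313 : ∃ t, chk3 f_pm_313 t 1 1 1 = true :=
  ⟨(l 4), by decide +kernel⟩

theorem c_pm_313 : CertF 1610612736 536870912 536870912 536870912 67108864 67108864 true true false .dn 3 1 3
    ndF2q3 ndF4q1 pcF3 Cut.none Ext.none :=
  certFK0 (fam := true) (s1 := true) (s2 := false) (a := 3) (b := 1) (c := 3) (cn := .dn) (n1 := ndF2q3) (n2 := ndF4q1) (pc := pcF3) (cut := Cut.none) (xt := Ext.none) (P1 := 1610612736) (W1 := 536870912) (P2 := 536870912) (W2 := 536870912) (P3 := 67108864) (W3 := 67108864)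
    rfl rfl rfl k0_pm_313

noncomputable def f_mm_001 : ℕ → ℕ → ℕ → ℕ → Bool := onCell 0 536870912 0 536870912 67108864 67108864
    (rowFK 0 true false false .up 0 0 1 (qsf 0 536870912 0 536870912 1) ndF2q0 ndF4q0 pcF1 Cut.none Ext.none)

def k0_mm_001 : ∃ t, chk3 f_mm_001 t 1 1 1 = true :=
  ⟨(l 4), by decide +kernel⟩

theorem c_mm_001 : CertF 0 536870912 0 536870912 67108864 67108864 true false false .up 0 0 1
    ndF2q0 ndF4q0 pcF1 Cut.none Ext.none :=
  certFK0 (fam := true) (s1 := false) (s2 := false) (a := 0) (b := 0) (c := 1) (cn := .up) (n1 := ndF2q0) (n2 := ndF4q0) (pc := pcF1) (cut := Cut.none) (xt := Ext.none) (P1 := 0) (W1 := 536870912) (P2 := 0) (W2 := 536870912) (P3 := 67108864) (W3 := 67108864)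
    rfl rfl rfl k0_mm_001

noncomputable def f_mm_011 : ℕ → ℕ → ℕ → ℕ → Bool := onCell 0 536870912 536870912 536870912 67108864 67108864
    (rowFK 0 true false false .pnn 0 1 1 (qsf 0 536870912 536870912 536870912 1) ndF2q0 ndF4q1 pcF1 Cut.none Ext.none)

def k0_mm_011 : ∃ t, chk3 f_mm_011 t 1 1 1 = true :=
  ⟨(l 4), by decide +kernel⟩

theorem c_mm_011 : CertF 0 536870912 536870912 536870912 67108864 67108864 true false false .pnn 0 1 1
    ndF2q0 ndF4q1 pcF1 Cut.none Ext.none :=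
  certFK0 (fam := true) (s1 := false) (s2 := false) (a := 0) (b := 1) (c := 1) (cn := .pnn) (n1 := ndF2q0) (n2 := ndF4q1) (pc := pcF1) (cut := Cut.none) (xt := Ext.none) (P1 := 0) (W1 := 536870912) (P2 := 536870912) (W2 := 536870912) (P3 := 67108864) (W3 := 67108864)
    rfl rfl rfl k0_mm_011

noncomputable def f_mm_012 : ℕ → ℕ → ℕ → ℕ → Bool := onCell 0 536870912 536870912 536870912 67108864 67108864
    (rowFK 0 true false false .pnp 0 1 2 (qsf 0 536870912 536870912 536870912 2) ndF2q0 ndF4q1 pcF2 Cut.none Ext.none)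

def k0_mm_012 : ∃ t, chk3 f_mm_012 t 1 1 1 = true :=
  ⟨(l 4), by decide +kernel⟩

theorem c_mm_012 : CertF 0 536870912 536870912 536870912 67108864 67108864 true false false .pnp 0 1 2
    ndF2q0 ndF4q1 pcF2 Cut.none Ext.none :=
  certFK0 (fam := true) (s1 := false) (s2 := false) (a := 0) (b := 1) (c := 2) (cn := .pnp) (n1 := ndF2q0) (n2 := ndF4q1) (pc := pcF2) (cut := Cut.none) (xt := Ext.none) (P1 := 0) (W1 := 536870912) (P2 := 536870912) (W2 := 536870912) (P3 := 67108864) (W3 := 67108864)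
    rfl rfl rfl k0_mm_012

noncomputable def f_mm_022 : ℕ → ℕ → ℕ → ℕ → Bool := onCell 0 536870912 1073741824 536870912 67108864 67108864
    (rowFK 0 true false false .pp 0 2 2 (qsf 0 536870912 1073741824 536870912 2) ndF2q0 ndF4q2 pcF2 Cut.none Ext.none)

def k0_mm_022 : ∃ t, chk3 f_mm_022 t 1 1 1 = true :=
  ⟨(l 4), by decide +kernel⟩

theorem c_mm_022 : CertF 0 536870912 1073741824 536870912 67108864 67108864 true false false .pp 0 2 2
    ndF2q0 ndF4q2 pcF2 Cut.none Ext.none :=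
  certFK0 (fam := true) (s1 := false) (s2 := false) (a := 0) (b := 2) (c := 2) (cn := .pp) (n1 := ndF2q0) (n2 := ndF4q2) (pc := pcF2) (cut := Cut.none) (xt := Ext.none) (P1 := 0) (W1 := 536870912) (P2 := 1073741824) (W2 := 536870912) (P3 := 67108864) (W3 := 67108864)
    rfl rfl rfl k0_mm_022

noncomputable def f_mm_023 : ℕ → ℕ → ℕ → ℕ → Bool := onCell 0 536870912 1073741824 536870912 67108864 67108864
    (rowFK 0 true false false .up 0 2 3 (qsf 0 536870912 1073741824 536870912 3) ndF2q0 ndF4q2 pcF3 Cut.none Ext.none)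

def k0_mm_023 : ∃ t, chk3 f_mm_023 t 1 1 1 = true :=
  ⟨(l 4), by decide +kernel⟩

theorem c_mm_023 : CertF 0 536870912 1073741824 536870912 67108864 67108864 true false false .up 0 2 3
    ndF2q0 ndF4q2 pcF3 Cut.none Ext.none :=
  certFK0 (fam := true) (s1 := false) (s2 := false) (a := 0) (b := 2) (c := 3) (cn := .up) (n1 := ndF2q0) (n2 := ndF4q2) (pc := pcF3) (cut := Cut.none) (xt := Ext.none) (P1 := 0) (W1 := 536870912) (P2 := 1073741824) (W2 := 536870912) (P3 := 67108864) (W3 := 67108864)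
    rfl rfl rfl k0_mm_023

noncomputable def f_mm_033 : ℕ → ℕ → ℕ → ℕ → Bool := onCell 0 536870912 0 1230186008 67108864 67108864
    (rowFK 0 true false false .pnn 0 3 3 (qsf 0 536870912 0 1230186008 3) ndF2q0 ndF4q3 pcF3 Cut.none Ext.none)

def k0_mm_033 : ∃ t, chk3 f_mm_033 t 1 1 1 = true :=
  ⟨(l 5), by decide +kernel⟩

theorem c_mm_033 : CertF 0 536870912 0 1230186008 67108864 67108864 true false false .pnn 0 3 3
    ndF2q0 ndF4q3 pcF3 Cut.none Ext.none :=
  certFK0 (fam := true) (s1 := false) (s2 := false) (a := 0) (b := 3) (c := 3) (cn := .pnn) (n1 := ndF2q0) (n2 := ndF4q3) (pc := pcF3) (cut := Cut.none) (xt := Ext.none) (P1 := 0) (W1 := 536870912) (P2 := 0) (W2 := 1230186008) (P3 := 67108864) (W3 := 67108864)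
    rfl rfl rfl k0_mm_033

noncomputable def f_mm_101 : ℕ → ℕ → ℕ → ℕ → Bool := onCell 536870912 536870912 0 536870912 67108864 67108864
    (rowFK 0 true false false .npn 1 0 1 (qsf 536870912 536870912 0 536870912 1) ndF2q1 ndF4q0 pcF1 Cut.none Ext.none)

def k0_mm_101 : ∃ t, chk3 f_mm_101 t 1 1 1 = true :=
  ⟨(l 4), by decide +kernel⟩

theorem c_mm_101 : CertF 536870912 536870912 0 536870912 67108864 67108864 true false false .npn 1 0 1
    ndF2q1 ndF4q0 pcF1 Cut.none Ext.none :=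
  certFK0 (fam := true) (s1 := false) (s2 := false) (a := 1) (b := 0) (c := 1) (cn := .npn) (n1 := ndF2q1) (n2 := ndF4q0) (pc := pcF1) (cut := Cut.none) (xt := Ext.none) (P1 := 536870912) (W1 := 536870912) (P2 := 0) (W2 := 536870912) (P3 := 67108864) (W3 := 67108864)
    rfl rfl rfl k0_mm_101

noncomputable def f_mm_102 : ℕ → ℕ → ℕ → ℕ → Bool := onCell 536870912 536870912 0 536870912 67108864 67108864
    (rowFK 0 true false false .npp 1 0 2 (qsf 536870912 536870912 0 536870912 2) ndF2q1 ndF4q0 pcF2 Cut.none Ext.none)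

def k0_mm_102 : ∃ t, chk3 f_mm_102 t 1 1 1 = true :=
  ⟨(l 4), by decide +kernel⟩

theorem c_mm_102 : CertF 536870912 536870912 0 536870912 67108864 67108864 true false false .npp 1 0 2
    ndF2q1 ndF4q0 pcF2 Cut.none Ext.none :=
  certFK0 (fam := true) (s1 := false) (s2 := false) (a := 1) (b := 0) (c := 2) (cn := .npp) (n1 := ndF2q1) (n2 := ndF4q0) (pc := pcF2) (cut := Cut.none) (xt := Ext.none) (P1 := 536870912) (W1 := 536870912) (P2 := 0) (W2 := 536870912) (P3 := 67108864) (W3 := 67108864)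
    rfl rfl rfl k0_mm_102

noncomputable def f_mm_112 : ℕ → ℕ → ℕ → ℕ → Bool := onCell 536870912 536870912 536870912 536870912 67108864 67108864
    (rowFK 0 true false false .dn 1 1 2 (qsf 536870912 536870912 536870912 536870912 2) ndF2q1 ndF4q1 pcF2 Cut.none Ext.none)

def k0_mm_112 : ∃ t, chk3 f_mm_112 t 1 1 1 = true :=
  ⟨(l 4), by decide +kernel⟩

theorem c_mm_112 : CertF 536870912 536870912 536870912 536870912 67108864 67108864 true false false .dn 1 1 2
    ndF2q1 ndF4q1 pcF2 Cut.none Ext.none :=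
  certFK0 (fam := true) (s1 := false) (s2 := false) (a := 1) (b := 1) (c := 2) (cn := .dn) (n1 := ndF2q1) (n2 := ndF4q1) (pc := pcF2) (cut := Cut.none) (xt := Ext.none) (P1 := 536870912) (W1 := 536870912) (P2 := 536870912) (W2 := 536870912) (P3 := 67108864) (W3 := 67108864)
    rfl rfl rfl k0_mm_112

noncomputable def f_mm_113 : ℕ → ℕ → ℕ → ℕ → Bool := onCell 536870912 536870912 536870912 536870912 67108864 67108864
    (rowFK 0 true false false .nn 1 1 3 (qsf 536870912 536870912 536870912 536870912 3) ndF2q1 ndF4q1 pcF3 Cut.none Ext.none)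

def k0_mm_113 : ∃ t, chk3 f_mm_113 t 1 1 1 = true :=
  ⟨(l 4), by decide +kernel⟩

theorem c_mm_113 : CertF 536870912 536870912 536870912 536870912 67108864 67108864 true false false .nn 1 1 3
    ndF2q1 ndF4q1 pcF3 Cut.none Ext.none :=
  certFK0 (fam := true) (s1 := false) (s2 := false) (a := 1) (b := 1) (c := 3) (cn := .nn) (n1 := ndF2q1) (n2 := ndF4q1) (pc := pcF3) (cut := Cut.none) (xt := Ext.none) (P1 := 536870912) (W1 := 536870912) (P2 := 536870912) (W2 := 536870912) (P3 := 67108864) (W3 := 67108864)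
    rfl rfl rfl k0_mm_113

noncomputable def f_mm_123 : ℕ → ℕ → ℕ → ℕ → Bool := onCell 536870912 536870912 1073741824 536870912 67108864 67108864
    (rowFK 0 true false false .npn 1 2 3 (qsf 536870912 536870912 1073741824 536870912 3) ndF2q1 ndF4q2 pcF3 Cut.none Ext.none)

def k0_mm_123 : ∃ t, chk3 f_mm_123 t 1 1 1 = true :=
  ⟨(l 4), by decide +kernel⟩

theorem c_mm_123 : CertF 536870912 536870912 1073741824 536870912 67108864 67108864 true false false .npn 1 2 3
    ndF2q1 ndF4q2 pcF3 Cut.none Ext.none :=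
  certFK0 (fam := true) (s1 := false) (s2 := false) (a := 1) (b := 2) (c := 3) (cn := .npn) (n1 := ndF2q1) (n2 := ndF4q2) (pc := pcF3) (cut := Cut.none) (xt := Ext.none) (P1 := 536870912) (W1 := 536870912) (P2 := 1073741824) (W2 := 536870912) (P3 := 67108864) (W3 := 67108864)
    rfl rfl rfl k0_mm_123

noncomputable def f_mm_133 : ℕ → ℕ → ℕ → ℕ → Bool := onCell 536870912 536870912 0 1230186008 67108864 67108864
    (rowFK 0 true false false .dn 1 3 3 (qsf 536870912 536870912 0 1230186008 3) ndF2q1 ndF4q3 pcF3 Cut.none Ext.none)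

def k0_mm_133 : ∃ t, chk3 f_mm_133 t 1 1 1 = true :=
  ⟨(l 4), by decide +kernel⟩

theorem c_mm_133 : CertF 536870912 536870912 0 1230186008 67108864 67108864 true false false .dn 1 3 3
    ndF2q1 ndF4q3 pcF3 Cut.none Ext.none :=
  certFK0 (fam := true) (s1 := false) (s2 := false) (a := 1) (b := 3) (c := 3) (cn := .dn) (n1 := ndF2q1) (n2 := ndF4q3) (pc := pcF3) (cut := Cut.none) (xt := Ext.none) (P1 := 536870912) (W1 := 536870912) (P2 := 0) (W2 := 1230186008) (P3 := 67108864) (W3 := 67108864)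
    rfl rfl rfl k0_mm_133

noncomputable def f_mm_202_a : ℕ → ℕ → ℕ → ℕ → Bool := onCell 0 536870912 0 536870912 67108864 67108864
    (rowFK 0 true false false .pp 2 0 2 (qsf 0 536870912 0 536870912 2) ndF2q2a ndF4q0 pcF2 Cut.none Ext.none)

def k0_mm_202_a : ∃ t, chk3 f_mm_202_a t 1 1 1 = true :=
  ⟨(l 4), by decide +kernel⟩

theorem c_mm_202_a : CertF 0 536870912 0 536870912 67108864 67108864 true false false .pp 2 0 2
    ndF2q2a ndF4q0 pcF2 Cut.none Ext.none :=
  certFK0 (fam := true) (s1 := false) (s2 := false) (a := 2) (b := 0) (c := 2) (cn := .pp) (n1 := ndF2q2a) (n2 := ndF4q0) (pc := pcF2) (cut := Cut.none) (xt := Ext.none) (P1 := 0) (W1 := 536870912) (P2 := 0) (W2 := 536870912) (P3 := 67108864) (W3 := 67108864)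
    rfl rfl rfl k0_mm_202_a

noncomputable def f_mm_202_b : ℕ → ℕ → ℕ → ℕ → Bool := onCell 1239849684 370763052 0 536870912 67108864 67108864
    (rowFK 0 true false false .pp 2 0 2 (qsf 1239849684 370763052 0 536870912 2) ndF2q2b ndF4q0 pcF2 Cut.none Ext.none)

def k0_mm_202_b : ∃ t, chk3 f_mm_202_b t 1 1 1 = true :=
  ⟨(l 4), by decide +kernel⟩

theorem c_mm_202_b : CertF 1239849684 370763052 0 536870912 67108864 67108864 true false false .pp 2 0 2
    ndF2q2b ndF4q0 pcF2 Cut.none Ext.none :=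
  certFK0 (fam := true) (s1 := false) (s2 := false) (a := 2) (b := 0) (c := 2) (cn := .pp) (n1 := ndF2q2b) (n2 := ndF4q0) (pc := pcF2) (cut := Cut.none) (xt := Ext.none) (P1 := 1239849684) (W1 := 370763052) (P2 := 0) (W2 := 536870912) (P3 := 67108864) (W3 := 67108864)
    rfl rfl rfl k0_mm_202_b

noncomputable def f_mm_203_a : ℕ → ℕ → ℕ → ℕ → Bool := onCell 0 536870912 0 536870912 67108864 67108864
    (rowFK 0 true false false .up 2 0 3 (qsf 0 536870912 0 536870912 3) ndF2q2a ndF4q0 pcF3 Cut.none Ext.none)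

def k0_mm_203_a : ∃ t, chk3 f_mm_203_a t 1 1 1 = true :=
  ⟨(l 4), by decide +kernel⟩

theorem c_mm_203_a : CertF 0 536870912 0 536870912 67108864 67108864 true false false .up 2 0 3
    ndF2q2a ndF4q0 pcF3 Cut.none Ext.none :=
  certFK0 (fam := true) (s1 := false) (s2 := false) (a := 2) (b := 0) (c := 3) (cn := .up) (n1 := ndF2q2a) (n2 := ndF4q0) (pc := pcF3) (cut := Cut.none) (xt := Ext.none) (P1 := 0) (W1 := 536870912) (P2 := 0) (W2 := 536870912) (P3 := 67108864) (W3 := 67108864)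
    rfl rfl rfl k0_mm_203_a

noncomputable def f_mm_203_b : ℕ → ℕ → ℕ → ℕ → Bool := onCell 1239849684 370763052 0 536870912 67108864 67108864
    (rowFK 0 true false false .up 2 0 3 (qsf 1239849684 370763052 0 536870912 3) ndF2q2b ndF4q0 pcF3 Cut.none Ext.none)

def k0_mm_203_b : ∃ t, chk3 f_mm_203_b t 1 1 1 = true :=
  ⟨(l 4), by decide +kernel⟩

theorem c_mm_203_b : CertF 1239849684 370763052 0 536870912 67108864 67108864 true false false .up 2 0 3
    ndF2q2b ndF4q0 pcF3 Cut.none Ext.none :=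
  certFK0 (fam := true) (s1 := false) (s2 := false) (a := 2) (b := 0) (c := 3) (cn := .up) (n1 := ndF2q2b) (n2 := ndF4q0) (pc := pcF3) (cut := Cut.none) (xt := Ext.none) (P1 := 1239849684) (W1 := 370763052) (P2 := 0) (W2 := 536870912) (P3 := 67108864) (W3 := 67108864)
    rfl rfl rfl k0_mm_203_b

noncomputable def f_mm_213_a : ℕ → ℕ → ℕ → ℕ → Bool := onCell 0 536870912 536870912 536870912 67108864 67108864
    (rowFK 0 true false false .pnn 2 1 3 (qsf 0 536870912 536870912 536870912 3) ndF2q2a ndF4q1 pcF3 Cut.none Ext.none)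

def k0_mm_213_a : ∃ t, chk3 f_mm_213_a t 1 1 1 = true :=
  ⟨(l 4), by decide +kernel⟩

theorem c_mm_213_a : CertF 0 536870912 536870912 536870912 67108864 67108864 true false false .pnn 2 1 3
    ndF2q2a ndF4q1 pcF3 Cut.none Ext.none :=
  certFK0 (fam := true) (s1 := false) (s2 := false) (a := 2) (b := 1) (c := 3) (cn := .pnn) (n1 := ndF2q2a) (n2 := ndF4q1) (pc := pcF3) (cut := Cut.none) (xt := Ext.none) (P1 := 0) (W1 := 536870912) (P2 := 536870912) (W2 := 536870912) (P3 := 67108864) (W3 := 67108864)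
    rfl rfl rfl k0_mm_213_a

noncomputable def f_mm_213_b : ℕ → ℕ → ℕ → ℕ → Bool := onCell 1239849684 370763052 536870912 536870912 67108864 67108864
    (rowFK 0 true false false .pnn 2 1 3 (qsf 1239849684 370763052 536870912 536870912 3) ndF2q2b ndF4q1 pcF3 Cut.none Ext.none)

def k0_mm_213_b : ∃ t, chk3 f_mm_213_b t 1 1 1 = true :=
  ⟨(l 4), by decide +kernel⟩

theorem c_mm_213_b : CertF 1239849684 370763052 536870912 536870912 67108864 67108864 true false false .pnn 2 1 3
    ndF2q2b ndF4q1 pcF3 Cut.none Ext.none :=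
  certFK0 (fam := true) (s1 := false) (s2 := false) (a := 2) (b := 1) (c := 3) (cn := .pnn) (n1 := ndF2q2b) (n2 := ndF4q1) (pc := pcF3) (cut := Cut.none) (xt := Ext.none) (P1 := 1239849684) (W1 := 370763052) (P2 := 536870912) (W2 := 536870912) (P3 := 67108864) (W3 := 67108864)
    rfl rfl rfl k0_mm_213_b

noncomputable def f_mm_303 : ℕ → ℕ → ℕ → ℕ → Bool := onCell 1610612736 536870912 0 536870912 67108864 67108864
    (rowFK 0 true false false .npn 3 0 3 (qsf 1610612736 536870912 0 536870912 3) ndF2q3 ndF4q0 pcF3 Cut.none Ext.none)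

def k0_mm_303 : ∃ t, chk3 f_mm_303 t 1 1 1 = true :=
  ⟨(l 4), by decide +kernel⟩

theorem c_mm_303 : CertF 1610612736 536870912 0 536870912 67108864 67108864 true false false .npn 3 0 3
    ndF2q3 ndF4q0 pcF3 Cut.none Ext.none :=
  certFK0 (fam := true) (s1 := false) (s2 := false) (a := 3) (b := 0) (c := 3) (cn := .npn) (n1 := ndF2q3) (n2 := ndF4q0) (pc := pcF3) (cut := Cut.none) (xt := Ext.none) (P1 := 1610612736) (W1 := 536870912) (P2 := 0) (W2 := 536870912) (P3 := 67108864) (W3 := 67108864)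
    rfl rfl rfl k0_mm_303

noncomputable def f_mm_313 : ℕ → ℕ → ℕ → ℕ → Bool := onCell 1610612736 536870912 536870912 536870912 67108864 67108864
    (rowFK 0 true false false .dn 3 1 3 (qsf 1610612736 536870912 536870912 536870912 3) ndF2q3 ndF4q1 pcF3 Cut.none Ext.none)

def k0_mm_313 : ∃ t, chk3 f_mm_313 t 1 1 1 = true :=
  ⟨(l 4), by decide +kernel⟩

theorem c_mm_313 : CertF 1610612736 536870912 536870912 536870912 67108864 67108864 true false false .dn 3 1 3
    ndF2q3 ndF4q1 pcF3 Cut.none Ext.none :=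
  certFK0 (fam := true) (s1 := false) (s2 := false) (a := 3) (b := 1) (c := 3) (cn := .dn) (n1 := ndF2q3) (n2 := ndF4q1) (pc := pcF3) (cut := Cut.none) (xt := Ext.none) (P1 := 1610612736) (W1 := 536870912) (P2 := 536870912) (W2 := 536870912) (P3 := 67108864) (W3 := 67108864)
    rfl rfl rfl k0_mm_313

end Pool.Agent.Strip051.G.I1_16_1_8.Tab.C.FA24

namespace Pool.Agent.Strip051.G.I1_16_1_8.Tab.C.FA33

open Pool.Agent.Strip051.PB Pool.Agent.Strip051.PB.T
open Pool.Agent.Strip051.G.I1_16_1_8.Tab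

noncomputable def f_pp_001 : ℕ → ℕ → ℕ → ℕ → Bool := onCell 0 536870912 0 536870912 67108864 67108864
    (rowFK 0 true true true .up 0 0 1 (qsf 0 536870912 0 536870912 1) ndF3q0 ndF3q0 pcF1 Cut.none Ext.none)

def k0_pp_001 : ∃ t, chk3 f_pp_001 t 1 1 1 = true :=
  ⟨(l 4), by decide +kernel⟩

theorem c_pp_001 : CertF 0 536870912 0 536870912 67108864 67108864 true true true .up 0 0 1
    ndF3q0 ndF3q0 pcF1 Cut.none Ext.none :=
  certFK0 (fam := true) (s1 := true) (s2 := true) (a := 0) (b := 0) (c := 1) (cn := .up) (n1 := ndF3q0) (n2 := ndF3q0) (pc := pcF1) (cut := Cut.none) (xt := Ext.none) (P1 := 0) (W1 := 536870912) (P2 := 0) (W2 := 536870912) (P3 := 67108864) (W3 := 67108864)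
    rfl rfl rfl k0_pp_001

noncomputable def f_pp_011 : ℕ → ℕ → ℕ → ℕ → Bool := onCell 0 536870912 536870912 536870912 67108864 67108864
    (rowFK 0 true true true .pnn 0 1 1 (qsf 0 536870912 536870912 536870912 1) ndF3q0 ndF3q1 pcF1 Cut.none Ext.none)

def k0_pp_011 : ∃ t, chk3 f_pp_011 t 1 1 1 = true :=
  ⟨(l 4), by decide +kernel⟩

theorem c_pp_011 : CertF 0 536870912 536870912 536870912 67108864 67108864 true true true .pnn 0 1 1
    ndF3q0 ndF3q1 pcF1 Cut.none Ext.none :=
  certFK0 (fam := true) (s1 := true) (s2 := true) (a := 0) (b := 1) (c := 1) (cn := .pnn) (n1 := ndF3q0) (n2 := ndF3q1) (pc := pcF1) (cut := Cut.none) (xt := Ext.none) (P1 := 0) (W1 := 536870912) (P2 := 536870912) (W2 := 536870912) (P3 := 67108864) (W3 := 67108864)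
    rfl rfl rfl k0_pp_011

noncomputable def f_pp_012 : ℕ → ℕ → ℕ → ℕ → Bool := onCell 0 536870912 536870912 536870912 67108864 67108864
    (rowFK 0 true true true .pnp 0 1 2 (qsf 0 536870912 536870912 536870912 2) ndF3q0 ndF3q1 pcF2 Cut.none Ext.none)

def k0_pp_012 : ∃ t, chk3 f_pp_012 t 1 1 1 = true :=
  ⟨(l 4), by decide +kernel⟩

theorem c_pp_012 : CertF 0 536870912 536870912 536870912 67108864 67108864 true true true .pnp 0 1 2
    ndF3q0 ndF3q1 pcF2 Cut.none Ext.none :=
  certFK0 (fam := true) (s1 := true) (s2 := true) (a := 0) (b := 1) (c := 2) (cn := .pnp) (n1 := ndF3q0) (n2 := ndF3q1) (pc := pcF2) (cut := Cut.none) (xt := Ext.none) (P1 := 0) (W1 := 536870912) (P2 := 536870912) (W2 := 536870912) (P3 := 67108864) (W3 := 67108864)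
    rfl rfl rfl k0_pp_012

noncomputable def f_pp_022 : ℕ → ℕ → ℕ → ℕ → Bool := onCell 0 536870912 1073741824 536870912 67108864 67108864
    (rowFK 0 true true true .pp 0 2 2 (qsf 0 536870912 1073741824 536870912 2) ndF3q0 ndF3q2 pcF2 Cut.none Ext.none)

def k0_pp_022 : ∃ t, chk3 f_pp_022 t 1 1 1 = true :=
  ⟨(l 4), by decide +kernel⟩

theorem c_pp_022 : CertF 0 536870912 1073741824 536870912 67108864 67108864 true true true .pp 0 2 2
    ndF3q0 ndF3q2 pcF2 Cut.none Ext.none :=
  certFK0 (fam := true) (s1 := true) (s2 := true) (a := 0) (b := 2) (c := 2) (cn := .pp) (n1 := ndF3q0) (n2 := ndF3q2) (pc := pcF2) (cut := Cut.none) (xt := Ext.none) (P1 := 0) (W1 := 536870912) (P2 := 1073741824) (W2 := 536870912) (P3 := 67108864) (W3 := 67108864)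
    rfl rfl rfl k0_pp_022

noncomputable def f_pp_023 : ℕ → ℕ → ℕ → ℕ → Bool := onCell 0 536870912 1073741824 536870912 67108864 67108864
    (rowFK 0 true true true .up 0 2 3 (qsf 0 536870912 1073741824 536870912 3) ndF3q0 ndF3q2 pcF3 Cut.none Ext.none)

def k0_pp_023 : ∃ t, chk3 f_pp_023 t 1 1 1 = true :=
  ⟨(l 4), by decide +kernel⟩

theorem c_pp_023 : CertF 0 536870912 1073741824 536870912 67108864 67108864 true true true .up 0 2 3
    ndF3q0 ndF3q2 pcF3 Cut.none Ext.none :=
  certFK0 (fam := true) (s1 := true) (s2 := true) (a := 0) (b := 2) (c := 3) (cn := .up) (n1 := ndF3q0) (n2 := ndF3q2) (pc := pcF3) (cut := Cut.none) (xt := Ext.none) (P1 := 0) (W1 := 536870912) (P2 := 1073741824) (W2 := 536870912) (P3 := 67108864) (W3 := 67108864)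
    rfl rfl rfl k0_pp_023

noncomputable def f_pp_033 : ℕ → ℕ → ℕ → ℕ → Bool := onCell 0 536870912 0 1230186008 67108864 67108864
    (rowFK 0 true true true .pnn 0 3 3 (qsf 0 536870912 0 1230186008 3) ndF3q0 ndF3q3 pcF3 Cut.none Ext.none)

def k0_pp_033 : ∃ t, chk3 f_pp_033 t 1 1 1 = true :=
  ⟨(b (l 4) (l 4)), by decide +kernel⟩

theorem c_pp_033 : CertF 0 536870912 0 1230186008 67108864 67108864 true true true .pnn 0 3 3
    ndF3q0 ndF3q3 pcF3 Cut.none Ext.none :=
  certFK0 (fam := true) (s1 := true) (s2 := true) (a := 0) (b := 3) (c := 3) (cn := .pnn) (n1 := ndF3q0) (n2 := ndF3q3) (pc := pcF3) (cut := Cut.none) (xt := Ext.none) (P1 := 0) (W1 := 536870912) (P2 := 0) (W2 := 1230186008) (P3 := 67108864) (W3 := 67108864)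
    rfl rfl rfl k0_pp_033

noncomputable def f_pp_101 : ℕ → ℕ → ℕ → ℕ → Bool := onCell 536870912 536870912 0 536870912 67108864 67108864
    (rowFK 0 true true true .npn 1 0 1 (qsf 536870912 536870912 0 536870912 1) ndF3q1 ndF3q0 pcF1 Cut.none Ext.none)

def k0_pp_101 : ∃ t, chk3 f_pp_101 t 1 1 1 = true :=
  ⟨(l 4), by decide +kernel⟩

theorem c_pp_101 : CertF 536870912 536870912 0 536870912 67108864 67108864 true true true .npn 1 0 1
    ndF3q1 ndF3q0 pcF1 Cut.none Ext.none :=
  certFK0 (fam := true) (s1 := true) (s2 := true) (a := 1) (b := 0) (c := 1) (cn := .npn) (n1 := ndF3q1) (n2 := ndF3q0) (pc := pcF1) (cut := Cut.none) (xt := Ext.none) (P1 := 536870912) (W1 := 536870912) (P2 := 0) (W2 := 536870912) (P3 := 67108864) (W3 := 67108864)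
    rfl rfl rfl k0_pp_101

noncomputable def f_pp_102 : ℕ → ℕ → ℕ → ℕ → Bool := onCell 536870912 536870912 0 536870912 67108864 67108864
    (rowFK 0 true true true .npp 1 0 2 (qsf 536870912 536870912 0 536870912 2) ndF3q1 ndF3q0 pcF2 Cut.none Ext.none)

def k0_pp_102 : ∃ t, chk3 f_pp_102 t 1 1 1 = true :=
  ⟨(l 4), by decide +kernel⟩

theorem c_pp_102 : CertF 536870912 536870912 0 536870912 67108864 67108864 true true true .npp 1 0 2
    ndF3q1 ndF3q0 pcF2 Cut.none Ext.none :=
  certFK0 (fam := true) (s1 := true) (s2 := true) (a := 1) (b := 0) (c := 2) (cn := .npp) (n1 := ndF3q1) (n2 := ndF3q0) (pc := pcF2) (cut := Cut.none) (xt := Ext.none) (P1 := 536870912) (W1 := 536870912) (P2 := 0) (W2 := 536870912) (P3 := 67108864) (W3 := 67108864)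
    rfl rfl rfl k0_pp_102

noncomputable def f_pp_112 : ℕ → ℕ → ℕ → ℕ → Bool := onCell 536870912 536870912 536870912 536870912 67108864 67108864
    (rowFK 0 true true true .dn 1 1 2 (qsf 536870912 536870912 536870912 536870912 2) ndF3q1 ndF3q1 pcF2 Cut.none Ext.none)

def k0_pp_112 : ∃ t, chk3 f_pp_112 t 1 1 1 = true :=
  ⟨(l 4), by decide +kernel⟩

theorem c_pp_112 : CertF 536870912 536870912 536870912 536870912 67108864 67108864 true true true .dn 1 1 2
    ndF3q1 ndF3q1 pcF2 Cut.none Ext.none :=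
  certFK0 (fam := true) (s1 := true) (s2 := true) (a := 1) (b := 1) (c := 2) (cn := .dn) (n1 := ndF3q1) (n2 := ndF3q1) (pc := pcF2) (cut := Cut.none) (xt := Ext.none) (P1 := 536870912) (W1 := 536870912) (P2 := 536870912) (W2 := 536870912) (P3 := 67108864) (W3 := 67108864)
    rfl rfl rfl k0_pp_112

noncomputable def f_pp_113 : ℕ → ℕ → ℕ → ℕ → Bool := onCell 536870912 536870912 536870912 536870912 67108864 67108864
    (rowFK 0 true true true .nn 1 1 3 (qsf 536870912 536870912 536870912 536870912 3) ndF3q1 ndF3q1 pcF3 Cut.none Ext.none)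

def k0_pp_113 : ∃ t, chk3 f_pp_113 t 1 1 1 = true :=
  ⟨(l 4), by decide +kernel⟩

theorem c_pp_113 : CertF 536870912 536870912 536870912 536870912 67108864 67108864 true true true .nn 1 1 3
    ndF3q1 ndF3q1 pcF3 Cut.none Ext.none :=
  certFK0 (fam := true) (s1 := true) (s2 := true) (a := 1) (b := 1) (c := 3) (cn := .nn) (n1 := ndF3q1) (n2 := ndF3q1) (pc := pcF3) (cut := Cut.none) (xt := Ext.none) (P1 := 536870912) (W1 := 536870912) (P2 := 536870912) (W2 := 536870912) (P3 := 67108864) (W3 := 67108864)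
    rfl rfl rfl k0_pp_113

noncomputable def f_pp_123 : ℕ → ℕ → ℕ → ℕ → Bool := onCell 536870912 536870912 1073741824 536870912 67108864 67108864
    (rowFK 0 true true true .npn 1 2 3 (qsf 536870912 536870912 1073741824 536870912 3) ndF3q1 ndF3q2 pcF3 Cut.none Ext.none)

def k0_pp_123 : ∃ t, chk3 f_pp_123 t 1 1 1 = true :=
  ⟨(l 4), by decide +kernel⟩

theorem c_pp_123 : CertF 536870912 536870912 1073741824 536870912 67108864 67108864 true true true .npn 1 2 3
    ndF3q1 ndF3q2 pcF3 Cut.none Ext.none :=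
  certFK0 (fam := true) (s1 := true) (s2 := true) (a := 1) (b := 2) (c := 3) (cn := .npn) (n1 := ndF3q1) (n2 := ndF3q2) (pc := pcF3) (cut := Cut.none) (xt := Ext.none) (P1 := 536870912) (W1 := 536870912) (P2 := 1073741824) (W2 := 536870912) (P3 := 67108864) (W3 := 67108864)
    rfl rfl rfl k0_pp_123

noncomputable def f_pp_133 : ℕ → ℕ → ℕ → ℕ → Bool := onCell 536870912 536870912 0 1230186008 67108864 67108864
    (rowFK 0 true true true .dn 1 3 3 (qsf 536870912 536870912 0 1230186008 3) ndF3q1 ndF3q3 pcF3 Cut.none Ext.none)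

def k0_pp_133 : ∃ t, chk3 f_pp_133 t 1 1 1 = true :=
  ⟨(l 4), by decide +kernel⟩

theorem c_pp_133 : CertF 536870912 536870912 0 1230186008 67108864 67108864 true true true .dn 1 3 3
    ndF3q1 ndF3q3 pcF3 Cut.none Ext.none :=
  certFK0 (fam := true) (s1 := true) (s2 := true) (a := 1) (b := 3) (c := 3) (cn := .dn) (n1 := ndF3q1) (n2 := ndF3q3) (pc := pcF3) (cut := Cut.none) (xt := Ext.none) (P1 := 536870912) (W1 := 536870912) (P2 := 0) (W2 := 1230186008) (P3 := 67108864) (W3 := 67108864)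
    rfl rfl rfl k0_pp_133

noncomputable def f_pp_202 : ℕ → ℕ → ℕ → ℕ → Bool := onCell 1073741824 536870912 0 536870912 67108864 67108864
    (rowFK 0 true true true .pp 2 0 2 (qsf 1073741824 536870912 0 536870912 2) ndF3q2 ndF3q0 pcF2 Cut.none Ext.none)

def k0_pp_202 : ∃ t, chk3 f_pp_202 t 1 1 1 = true :=
  ⟨(l 4), by decide +kernel⟩

theorem c_pp_202 : CertF 1073741824 536870912 0 536870912 67108864 67108864 true true true .pp 2 0 2
    ndF3q2 ndF3q0 pcF2 Cut.none Ext.none :=
  certFK0 (fam := true) (s1 := true) (s2 := true) (a := 2) (b := 0) (c := 2) (cn := .pp) (n1 := ndF3q2) (n2 := ndF3q0) (pc := pcF2) (cut := Cut.none) (xt := Ext.none) (P1 := 1073741824) (W1 := 536870912) (P2 := 0) (W2 := 536870912) (P3 := 67108864) (W3 := 67108864)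
    rfl rfl rfl k0_pp_202

noncomputable def f_pp_203 : ℕ → ℕ → ℕ → ℕ → Bool := onCell 1073741824 536870912 0 536870912 67108864 67108864
    (rowFK 0 true true true .up 2 0 3 (qsf 1073741824 536870912 0 536870912 3) ndF3q2 ndF3q0 pcF3 Cut.none Ext.none)

def k0_pp_203 : ∃ t, chk3 f_pp_203 t 1 1 1 = true :=
  ⟨(l 4), by decide +kernel⟩

theorem c_pp_203 : CertF 1073741824 536870912 0 536870912 67108864 67108864 true true true .up 2 0 3
    ndF3q2 ndF3q0 pcF3 Cut.none Ext.none :=
  certFK0 (fam := true) (s1 := true) (s2 := true) (a := 2) (b := 0) (c := 3) (cn := .up) (n1 := ndF3q2) (n2 := ndF3q0) (pc := pcF3) (cut := Cut.none) (xt := Ext.none) (P1 := 1073741824) (W1 := 536870912) (P2 := 0) (W2 := 536870912) (P3 := 67108864) (W3 := 67108864)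
    rfl rfl rfl k0_pp_203

noncomputable def f_pp_213 : ℕ → ℕ → ℕ → ℕ → Bool := onCell 1073741824 536870912 536870912 536870912 67108864 67108864
    (rowFK 0 true true true .pnn 2 1 3 (qsf 1073741824 536870912 536870912 536870912 3) ndF3q2 ndF3q1 pcF3 Cut.none Ext.none)

def k0_pp_213 : ∃ t, chk3 f_pp_213 t 1 1 1 = true :=
  ⟨(l 4), by decide +kernel⟩

theorem c_pp_213 : CertF 1073741824 536870912 536870912 536870912 67108864 67108864 true true true .pnn 2 1 3
    ndF3q2 ndF3q1 pcF3 Cut.none Ext.none :=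
  certFK0 (fam := true) (s1 := true) (s2 := true) (a := 2) (b := 1) (c := 3) (cn := .pnn) (n1 := ndF3q2) (n2 := ndF3q1) (pc := pcF3) (cut := Cut.none) (xt := Ext.none) (P1 := 1073741824) (W1 := 536870912) (P2 := 536870912) (W2 := 536870912) (P3 := 67108864) (W3 := 67108864)
    rfl rfl rfl k0_pp_213

noncomputable def f_pp_303 : ℕ → ℕ → ℕ → ℕ → Bool := onCell 0 1230186008 0 536870912 67108864 67108864
    (rowFK 0 true true true .npn 3 0 3 (qsf 0 1230186008 0 536870912 3) ndF3q3 ndF3q0 pcF3 Cut.none Ext.none)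

def k0_pp_303 : ∃ t, chk3 f_pp_303 t 1 1 1 = true :=
  ⟨(l 5), by decide +kernel⟩

theorem c_pp_303 : CertF 0 1230186008 0 536870912 67108864 67108864 true true true .npn 3 0 3
    ndF3q3 ndF3q0 pcF3 Cut.none Ext.none :=
  certFK0 (fam := true) (s1 := true) (s2 := true) (a := 3) (b := 0) (c := 3) (cn := .npn) (n1 := ndF3q3) (n2 := ndF3q0) (pc := pcF3) (cut := Cut.none) (xt := Ext.none) (P1 := 0) (W1 := 1230186008) (P2 := 0) (W2 := 536870912) (P3 := 67108864) (W3 := 67108864)
    rfl rfl rfl k0_pp_303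

noncomputable def f_pp_313 : ℕ → ℕ → ℕ → ℕ → Bool := onCell 0 1230186008 536870912 536870912 67108864 67108864
    (rowFK 0 true true true .dn 3 1 3 (qsf 0 1230186008 536870912 536870912 3) ndF3q3 ndF3q1 pcF3 Cut.none Ext.none)

def k0_pp_313 : ∃ t, chk3 f_pp_313 t 1 1 1 = true :=
  ⟨(l 4), by decide +kernel⟩

theorem c_pp_313 : CertF 0 1230186008 536870912 536870912 67108864 67108864 true true true .dn 3 1 3
    ndF3q3 ndF3q1 pcF3 Cut.none Ext.none :=
  certFK0 (fam := true) (s1 := true) (s2 := true) (a := 3) (b := 1) (c := 3) (cn := .dn) (n1 := ndF3q3) (n2 := ndF3q1) (pc := pcF3) (cut := Cut.none) (xt := Ext.none) (P1 := 0) (W1 := 1230186008) (P2 := 536870912) (W2 := 536870912) (P3 := 67108864) (W3 := 67108864)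
    rfl rfl rfl k0_pp_313

noncomputable def f_pm_001 : ℕ → ℕ → ℕ → ℕ → Bool := onCell 0 536870912 0 536870912 67108864 67108864
    (rowFK 0 true true false .up 0 0 1 (qsf 0 536870912 0 536870912 1) ndF3q0 ndF3q0 pcF1 Cut.none Ext.none)

def k0_pm_001 : ∃ t, chk3 f_pm_001 t 1 1 1 = true :=
  ⟨(l 3), by decide +kernel⟩

theorem c_pm_001 : CertF 0 536870912 0 536870912 67108864 67108864 true true false .up 0 0 1
    ndF3q0 ndF3q0 pcF1 Cut.none Ext.none :=
  certFK0 (fam := true) (s1 := true) (s2 := false) (a := 0) (b := 0) (c := 1) (cn := .up) (n1 := ndF3q0) (n2 := ndF3q0) (pc := pcF1) (cut := Cut.none) (xt := Ext.none) (P1 := 0) (W1 := 536870912) (P2 := 0) (W2 := 536870912) (P3 := 67108864) (W3 := 67108864)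
    rfl rfl rfl k0_pm_001

noncomputable def f_pm_011 : ℕ → ℕ → ℕ → ℕ → Bool := onCell 0 536870912 536870912 536870912 67108864 67108864
    (rowFK 1 true true false .pnn 0 1 1 (qsf 0 536870912 536870912 536870912 1) ndF3q0 ndF3q1 pcF1 Cut.none Ext.none)

def k0_pm_011 : ∃ t, chk3 f_pm_011 t 1 1 1 = true :=
  ⟨(l 3), by decide +kernel⟩

theorem c_pm_011 : CertF 0 536870912 536870912 536870912 67108864 67108864 true true false .pnn 0 1 1
    ndF3q0 ndF3q1 pcF1 Cut.none Ext.none :=
  certFK1 (fam := true) (s1 := true) (s2 := false) (a := 0) (b := 1) (c := 1) (cn := .pnn) (n1 := ndF3q0) (n2 := ndF3q1) (pc := pcF1) (cut := Cut.none) (xt := Ext.none) (P1 := 0) (W1 := 536870912) (P2 := 536870912) (W2 := 536870912) (P3 := 67108864) (W3 := 67108864)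
    rfl rfl rfl (fun _ => rfl) k0_pm_011

noncomputable def f_pm_012 : ℕ → ℕ → ℕ → ℕ → Bool := onCell 1073741824 536870912 536870912 536870912 67108864 67108864
    (rowFK 2 true true false .pnp 0 1 2 (qsf 0 536870912 536870912 536870912 2) ndF3q0 ndF3q1 pcF2 Cut.none Ext.none)

def k0_pm_012 : ∃ t, chk3 f_pm_012 t 1 1 1 = true :=
  ⟨(a (a (b (l 3) (l 3)) (b (a (a (a (l 3) (l 17921880)) (l 17950432)) (l 18009008)) (a (a (a (l 3) (a (l 18900168) (l 18901776))) (l 18889968)) (l 18937464)))) (b (l 18185008) (a (l 19025120) (l 19153512)))), by decide +kernel⟩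

theorem c_pm_012 : CertF 0 536870912 536870912 536870912 67108864 67108864 true true false .pnp 0 1 2
    ndF3q0 ndF3q1 pcF2 Cut.none Ext.none :=
  certFK2 (fam := true) (s1 := true) (s2 := false) (a := 0) (b := 1) (c := 2) (cn := .pnp) (n1 := ndF3q0) (n2 := ndF3q1) (pc := pcF2) (cut := Cut.none) (xt := Ext.none) (P1 := 0) (W1 := 536870912) (P2 := 536870912) (W2 := 536870912) (P3 := 67108864) (W3 := 67108864)
    rfl rfl rfl (fun _ => rfl) k0_pm_012

noncomputable def f_pm_022 : ℕ → ℕ → ℕ → ℕ → Bool := onCell 0 536870912 1073741824 536870912 67108864 67108864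
    (rowFK 1 true true false .pp 0 2 2 (qsf 0 536870912 1073741824 536870912 2) ndF3q0 ndF3q2 pcF2 Cut.none Ext.none)

def k0_pm_022 : ∃ t, chk3 f_pm_022 t 1 1 1 = true :=
  ⟨(a (b (b (a (b (b (l 19281752) (a (l 19242264) (l 19223776))) (b (l 19087704) (l 18962376))) (b (l 1) (b (l 1) (l 18794848)))) (b (b (a (l 18868200) (l 345245936999)) (l 18596016)) (l 18391032))) (b (a (l 18148488) (l 17906848)) (l 17677256))) (b (b (l 1) (b (l 1) (l 446177768439))) (b (l 18602704) (l 18044168)))), by decide +kernel⟩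

theorem c_pm_022 : CertF 0 536870912 1073741824 536870912 67108864 67108864 true true false .pp 0 2 2
    ndF3q0 ndF3q2 pcF2 Cut.none Ext.none :=
  certFK1 (fam := true) (s1 := true) (s2 := false) (a := 0) (b := 2) (c := 2) (cn := .pp) (n1 := ndF3q0) (n2 := ndF3q2) (pc := pcF2) (cut := Cut.none) (xt := Ext.none) (P1 := 0) (W1 := 536870912) (P2 := 1073741824) (W2 := 536870912) (P3 := 67108864) (W3 := 67108864)
    rfl rfl rfl (fun _ => rfl) k0_pm_022

noncomputable def f_pm_023 : ℕ → ℕ → ℕ → ℕ → Bool := onCell 1610612736 536870912 1073741824 536870912 67108864 67108864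
    (rowFK 2 true true false .up 0 2 3 (qsf 0 536870912 1073741824 536870912 3) ndF3q0 ndF3q2 pcF3 Cut.none Ext.none)

def k0_pm_023 : ∃ t, chk3 f_pm_023 t 1 1 1 = true :=
  ⟨(a (b (a (b (l 18690656) (l 18087616)) (l 241159835399)) (a (a (b (l 17257920) (l 16994672)) (l 17123232)) (l 17455104))) (a (b (l 18642048) (l 17742568)) (a (l 18284824) (l 4)))), by decide +kernel⟩

theorem c_pm_023 : CertF 0 536870912 1073741824 536870912 67108864 67108864 true true false .up 0 2 3
    ndF3q0 ndF3q2 pcF3 Cut.none Ext.none :=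
  certFK2 (fam := true) (s1 := true) (s2 := false) (a := 0) (b := 2) (c := 3) (cn := .up) (n1 := ndF3q0) (n2 := ndF3q2) (pc := pcF3) (cut := Cut.none) (xt := Ext.none) (P1 := 0) (W1 := 536870912) (P2 := 1073741824) (W2 := 536870912) (P3 := 67108864) (W3 := 67108864)
    rfl rfl rfl (fun _ => rfl) k0_pm_023

noncomputable def f_pm_033 : ℕ → ℕ → ℕ → ℕ → Bool := onCell 1610612736 536870912 0 1230186008 67108864 67108864
    (rowFK 2 true true false .pnn 0 3 3 (qsf 0 536870912 0 1230186008 3) ndF3q0 ndF3q3 pcF3 Cut.none Ext.none)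

def k0_pm_033 : ∃ t, chk3 f_pm_033 t 1 1 1 = true :=
  ⟨(a (b (l 1) (b (b (l 1) (a (l 1) (a (l 1) (l 18081456)))) (b (a (l 1) (l 18194392)) (a (a (b (l 1) (l 18113192)) (l 18481960)) (l 18124880))))) (a (b (l 1) (b (l 269545907911) (l 17987280))) (b (a (l 4) (l 4)) (a (l 4) (l 4))))), by decide +kernel⟩

theorem c_pm_033 : CertF 0 536870912 0 1230186008 67108864 67108864 true true false .pnn 0 3 3
    ndF3q0 ndF3q3 pcF3 Cut.none Ext.none :=
  certFK2 (fam := true) (s1 := true) (s2 := false) (a := 0) (b := 3) (c := 3) (cn := .pnn) (n1 := ndF3q0) (n2 := ndF3q3) (pc := pcF3) (cut := Cut.none) (xt := Ext.none) (P1 := 0) (W1 := 536870912) (P2 := 0) (W2 := 1230186008) (P3 := 67108864) (W3 := 67108864)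
    rfl rfl rfl (fun _ => rfl) k0_pm_033

noncomputable def f_pm_101 : ℕ → ℕ → ℕ → ℕ → Bool := onCell 536870912 536870912 0 536870912 67108864 67108864
    (rowFK 2 true true false .npn 1 0 1 (qsf 536870912 536870912 0 536870912 1) ndF3q1 ndF3q0 pcF1 Cut.none Ext.none)

def k0_pm_101 : ∃ t, chk3 f_pm_101 t 1 1 1 = true :=
  ⟨(l 3), by decide +kernel⟩

theorem c_pm_101 : CertF 536870912 536870912 0 536870912 67108864 67108864 true true false .npn 1 0 1
    ndF3q1 ndF3q0 pcF1 Cut.none Ext.none :=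
  certFK2 (fam := true) (s1 := true) (s2 := false) (a := 1) (b := 0) (c := 1) (cn := .npn) (n1 := ndF3q1) (n2 := ndF3q0) (pc := pcF1) (cut := Cut.none) (xt := Ext.none) (P1 := 536870912) (W1 := 536870912) (P2 := 0) (W2 := 536870912) (P3 := 67108864) (W3 := 67108864)
    rfl rfl rfl (fun _ => rfl) k0_pm_101

noncomputable def f_pm_102 : ℕ → ℕ → ℕ → ℕ → Bool := onCell 536870912 536870912 1073741824 536870912 67108864 67108864
    (rowFK 1 true true false .npp 1 0 2 (qsf 536870912 536870912 0 536870912 2) ndF3q1 ndF3q0 pcF2 Cut.none Ext.none)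

def k0_pm_102 : ∃ t, chk3 f_pm_102 t 1 1 1 = true :=
  ⟨(b (b (a (l 3) (l 3)) (a (b (b (b (l 3) (l 17921880)) (l 17950432)) (l 18009008)) (b (b (a (l 275586793319) (b (l 3) (l 19145592))) (l 18889968)) (l 18937464)))) (a (l 18185008) (a (l 18866568) (l 19322504)))), by decide +kernel⟩

theorem c_pm_102 : CertF 536870912 536870912 0 536870912 67108864 67108864 true true false .npp 1 0 2
    ndF3q1 ndF3q0 pcF2 Cut.none Ext.none :=
  certFK1 (fam := true) (s1 := true) (s2 := false) (a := 1) (b := 0) (c := 2) (cn := .npp) (n1 := ndF3q1) (n2 := ndF3q0) (pc := pcF2) (cut := Cut.none) (xt := Ext.none) (P1 := 536870912) (W1 := 536870912) (P2 := 0) (W2 := 536870912) (P3 := 67108864) (W3 := 67108864)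
    rfl rfl rfl (fun _ => rfl) k0_pm_102

noncomputable def f_pm_112 : ℕ → ℕ → ℕ → ℕ → Bool := onCell 536870912 536870912 1073741824 536870912 67108864 67108864
    (rowFK 1 true true false .dn 1 1 2 (qsf 536870912 536870912 536870912 536870912 2) ndF3q1 ndF3q1 pcF2 Cut.none Ext.none)

def k0_pm_112 : ∃ t, chk3 f_pm_112 t 1 1 1 = true :=
  ⟨(b (a (b (l 3) (b (l 19131352) (l 18952416))) (b (l 1) (l 541741617239))) (l 18606928)), by decide +kernel⟩

theorem c_pm_112 : CertF 536870912 536870912 536870912 536870912 67108864 67108864 true true false .dn 1 1 2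
    ndF3q1 ndF3q1 pcF2 Cut.none Ext.none :=
  certFK1 (fam := true) (s1 := true) (s2 := false) (a := 1) (b := 1) (c := 2) (cn := .dn) (n1 := ndF3q1) (n2 := ndF3q1) (pc := pcF2) (cut := Cut.none) (xt := Ext.none) (P1 := 536870912) (W1 := 536870912) (P2 := 536870912) (W2 := 536870912) (P3 := 67108864) (W3 := 67108864)
    rfl rfl rfl (fun _ => rfl) k0_pm_112

noncomputable def f_pm_113 : ℕ → ℕ → ℕ → ℕ → Bool := onCell 536870912 536870912 1610612736 536870912 67108864 67108864
    (rowFK 1 true true false .nn 1 1 3 (qsf 536870912 536870912 536870912 536870912 3) ndF3q1 ndF3q1 pcF3 Cut.none Ext.none)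

def k0_pm_113 : ∃ t, chk3 f_pm_113 t 1 1 1 = true :=
  ⟨(b (l 17946872) (b (a (l 17662488) (l 17366720)) (b (l 17402464) (b (l 17202704) (a (l 2) (b (l 16999104) (l 16945320))))))), by decide +kernel⟩

theorem c_pm_113 : CertF 536870912 536870912 536870912 536870912 67108864 67108864 true true false .nn 1 1 3
    ndF3q1 ndF3q1 pcF3 Cut.none Ext.none :=
  certFK1 (fam := true) (s1 := true) (s2 := false) (a := 1) (b := 1) (c := 3) (cn := .nn) (n1 := ndF3q1) (n2 := ndF3q1) (pc := pcF3) (cut := Cut.none) (xt := Ext.none) (P1 := 536870912) (W1 := 536870912) (P2 := 536870912) (W2 := 536870912) (P3 := 67108864) (W3 := 67108864)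
    rfl rfl rfl (fun _ => rfl) k0_pm_113

noncomputable def f_pm_123 : ℕ → ℕ → ℕ → ℕ → Bool := onCell 536870912 536870912 1610612736 536870912 67108864 67108864
    (rowFK 1 true true false .npn 1 2 3 (qsf 536870912 536870912 1073741824 536870912 3) ndF3q1 ndF3q2 pcF3 Cut.none Ext.none)

def k0_pm_123 : ∃ t, chk3 f_pm_123 t 1 1 1 = true :=
  ⟨(b (b (a (b (l 17837528) (l 209415297047)) (l 1)) (a (a (l 17263216) (l 17552560)) (b (l 1) (l 17676816)))) (b (a (l 17545664) (l 362423914551)) (b (l 116536598247) (l 4)))), by decide +kernel⟩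

theorem c_pm_123 : CertF 536870912 536870912 1073741824 536870912 67108864 67108864 true true false .npn 1 2 3
    ndF3q1 ndF3q2 pcF3 Cut.none Ext.none :=
  certFK1 (fam := true) (s1 := true) (s2 := false) (a := 1) (b := 2) (c := 3) (cn := .npn) (n1 := ndF3q1) (n2 := ndF3q2) (pc := pcF3) (cut := Cut.none) (xt := Ext.none) (P1 := 536870912) (W1 := 536870912) (P2 := 1073741824) (W2 := 536870912) (P3 := 67108864) (W3 := 67108864)
    rfl rfl rfl (fun _ => rfl) k0_pm_123

noncomputable def f_pm_133 : ℕ → ℕ → ℕ → ℕ → Bool := onCell 536870912 536870912 0 1230186008 67108864 67108864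
    (rowFK 0 true true false .dn 1 3 3 (qsf 536870912 536870912 0 1230186008 3) ndF3q1 ndF3q3 pcF3 Cut.none Ext.none)

def k0_pm_133 : ∃ t, chk3 f_pm_133 t 1 1 1 = true :=
  ⟨(b (l 2) (l 4)), by decide +kernel⟩

theorem c_pm_133 : CertF 536870912 536870912 0 1230186008 67108864 67108864 true true false .dn 1 3 3
    ndF3q1 ndF3q3 pcF3 Cut.none Ext.none :=
  certFK0 (fam := true) (s1 := true) (s2 := false) (a := 1) (b := 3) (c := 3) (cn := .dn) (n1 := ndF3q1) (n2 := ndF3q3) (pc := pcF3) (cut := Cut.none) (xt := Ext.none) (P1 := 536870912) (W1 := 536870912) (P2 := 0) (W2 := 1230186008) (P3 := 67108864) (W3 := 67108864)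
    rfl rfl rfl k0_pm_133

noncomputable def f_pm_202 : ℕ → ℕ → ℕ → ℕ → Bool := onCell 1073741824 536870912 0 536870912 67108864 67108864
    (rowFK 2 true true false .pp 2 0 2 (qsf 1073741824 536870912 0 536870912 2) ndF3q2 ndF3q0 pcF2 Cut.none Ext.none)

def k0_pm_202 : ∃ t, chk3 f_pm_202 t 1 1 1 = true :=
  ⟨(a (b (a (b (a (a (l 19281752) (b (l 19242264) (l 19223776))) (a (l 19087704) (l 18962376))) (a (l 1) (a (l 1) (l 18794848)))) (a (a (b (l 18868200) (l 345245936999)) (l 18596016)) (l 18391032))) (a (l 1) (a (l 1) (l 446177768439)))) (b (a (b (l 18148488) (l 17906848)) (l 17677256)) (a (l 18602704) (l 18044168)))), by decide +kernel⟩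

theorem c_pm_202 : CertF 1073741824 536870912 0 536870912 67108864 67108864 true true false .pp 2 0 2
    ndF3q2 ndF3q0 pcF2 Cut.none Ext.none :=
  certFK2 (fam := true) (s1 := true) (s2 := false) (a := 2) (b := 0) (c := 2) (cn := .pp) (n1 := ndF3q2) (n2 := ndF3q0) (pc := pcF2) (cut := Cut.none) (xt := Ext.none) (P1 := 1073741824) (W1 := 536870912) (P2 := 0) (W2 := 536870912) (P3 := 67108864) (W3 := 67108864)
    rfl rfl rfl (fun _ => rfl) k0_pm_202

noncomputable def f_pm_203 : ℕ → ℕ → ℕ → ℕ → Bool := onCell 1073741824 536870912 1610612736 536870912 67108864 67108864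
    (rowFK 1 true true false .up 2 0 3 (qsf 1073741824 536870912 0 536870912 3) ndF3q2 ndF3q0 pcF3 Cut.none Ext.none)

def k0_pm_203 : ∃ t, chk3 f_pm_203 t 1 1 1 = true :=
  ⟨(b (a (b (a (l 18690656) (l 18087616)) (l 241159835399)) (b (b (a (l 17257920) (l 16994672)) (l 17123232)) (l 17455104))) (b (a (l 18642048) (l 17742568)) (b (l 18284824) (l 4)))), by decide +kernel⟩

theorem c_pm_203 : CertF 1073741824 536870912 0 536870912 67108864 67108864 true true false .up 2 0 3
    ndF3q2 ndF3q0 pcF3 Cut.none Ext.none :=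
  certFK1 (fam := true) (s1 := true) (s2 := false) (a := 2) (b := 0) (c := 3) (cn := .up) (n1 := ndF3q2) (n2 := ndF3q0) (pc := pcF3) (cut := Cut.none) (xt := Ext.none) (P1 := 1073741824) (W1 := 536870912) (P2 := 0) (W2 := 536870912) (P3 := 67108864) (W3 := 67108864)
    rfl rfl rfl (fun _ => rfl) k0_pm_203

noncomputable def f_pm_213 : ℕ → ℕ → ℕ → ℕ → Bool := onCell 1073741824 536870912 1610612736 536870912 67108864 67108864
    (rowFK 1 true true false .pnn 2 1 3 (qsf 1073741824 536870912 536870912 536870912 3) ndF3q2 ndF3q1 pcF3 Cut.none Ext.none)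

def k0_pm_213 : ∃ t, chk3 f_pm_213 t 1 1 1 = true :=
  ⟨(b (a (b (b (l 17309240) (l 17236368)) (a (l 17330184) (l 17170640))) (b (l 1) (l 16937680))) (b (a (l 17677576) (l 17138128)) (b (a (l 4) (l 4)) (l 4)))), by decide +kernel⟩

theorem c_pm_213 : CertF 1073741824 536870912 536870912 536870912 67108864 67108864 true true false .pnn 2 1 3
    ndF3q2 ndF3q1 pcF3 Cut.none Ext.none :=
  certFK1 (fam := true) (s1 := true) (s2 := false) (a := 2) (b := 1) (c := 3) (cn := .pnn) (n1 := ndF3q2) (n2 := ndF3q1) (pc := pcF3) (cut := Cut.none) (xt := Ext.none) (P1 := 1073741824) (W1 := 536870912) (P2 := 536870912) (W2 := 536870912) (P3 := 67108864) (W3 := 67108864)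
    rfl rfl rfl (fun _ => rfl) k0_pm_213

noncomputable def f_pm_303 : ℕ → ℕ → ℕ → ℕ → Bool := onCell 0 1230186008 1610612736 536870912 67108864 67108864
    (rowFK 1 true true false .npn 3 0 3 (qsf 0 1230186008 0 536870912 3) ndF3q3 ndF3q0 pcF3 Cut.none Ext.none)

def k0_pm_303 : ∃ t, chk3 f_pm_303 t 1 1 1 = true :=
  ⟨(b (a (l 1) (a (a (l 1) (b (l 1) (b (l 1) (l 18081456)))) (a (b (l 1) (l 18194400)) (b (b (a (l 1) (l 18113192)) (l 18481976)) (l 18124896))))) (b (a (l 1) (a (l 269545907911) (l 18196864))) (a (b (l 4) (l 4)) (b (l 4) (l 4))))), by decide +kernel⟩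

theorem c_pm_303 : CertF 0 1230186008 0 536870912 67108864 67108864 true true false .npn 3 0 3
    ndF3q3 ndF3q0 pcF3 Cut.none Ext.none :=
  certFK1 (fam := true) (s1 := true) (s2 := false) (a := 3) (b := 0) (c := 3) (cn := .npn) (n1 := ndF3q3) (n2 := ndF3q0) (pc := pcF3) (cut := Cut.none) (xt := Ext.none) (P1 := 0) (W1 := 1230186008) (P2 := 0) (W2 := 536870912) (P3 := 67108864) (W3 := 67108864)
    rfl rfl rfl (fun _ => rfl) k0_pm_303

noncomputable def f_pm_313 : ℕ → ℕ → ℕ → ℕ → Bool := onCell 0 1230186008 536870912 536870912 67108864 67108864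
    (rowFK 0 true true false .dn 3 1 3 (qsf 0 1230186008 536870912 536870912 3) ndF3q3 ndF3q1 pcF3 Cut.none Ext.none)

def k0_pm_313 : ∃ t, chk3 f_pm_313 t 1 1 1 = true :=
  ⟨(a (l 2) (l 4)), by decide +kernel⟩

theorem c_pm_313 : CertF 0 1230186008 536870912 536870912 67108864 67108864 true true false .dn 3 1 3
    ndF3q3 ndF3q1 pcF3 Cut.none Ext.none :=
  certFK0 (fam := true) (s1 := true) (s2 := false) (a := 3) (b := 1) (c := 3) (cn := .dn) (n1 := ndF3q3) (n2 := ndF3q1) (pc := pcF3) (cut := Cut.none) (xt := Ext.none) (P1 := 0) (W1 := 1230186008) (P2 := 536870912) (W2 := 536870912) (P3 := 67108864) (W3 := 67108864)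
    rfl rfl rfl k0_pm_313

noncomputable def f_mm_001 : ℕ → ℕ → ℕ → ℕ → Bool := onCell 0 536870912 0 536870912 67108864 67108864
    (rowFK 0 true false false .up 0 0 1 (qsf 0 536870912 0 536870912 1) ndF3q0 ndF3q0 pcF1 Cut.none Ext.none)

def k0_mm_001 : ∃ t, chk3 f_mm_001 t 1 1 1 = true :=
  ⟨(l 4), by decide +kernel⟩

theorem c_mm_001 : CertF 0 536870912 0 536870912 67108864 67108864 true false false .up 0 0 1
    ndF3q0 ndF3q0 pcF1 Cut.none Ext.none :=
  certFK0 (fam := true) (s1 := false) (s2 := false) (a := 0) (b := 0) (c := 1) (cn := .up) (n1 := ndF3q0) (n2 := ndF3q0) (pc := pcF1) (cut := Cut.none) (xt := Ext.none) (P1 := 0) (W1 := 536870912) (P2 := 0) (W2 := 536870912) (P3 := 67108864) (W3 := 67108864)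
    rfl rfl rfl k0_mm_001

noncomputable def f_mm_011 : ℕ → ℕ → ℕ → ℕ → Bool := onCell 0 536870912 536870912 536870912 67108864 67108864
    (rowFK 0 true false false .pnn 0 1 1 (qsf 0 536870912 536870912 536870912 1) ndF3q0 ndF3q1 pcF1 Cut.none Ext.none)

def k0_mm_011 : ∃ t, chk3 f_mm_011 t 1 1 1 = true :=
  ⟨(l 4), by decide +kernel⟩

theorem c_mm_011 : CertF 0 536870912 536870912 536870912 67108864 67108864 true false false .pnn 0 1 1
    ndF3q0 ndF3q1 pcF1 Cut.none Ext.none :=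
  certFK0 (fam := true) (s1 := false) (s2 := false) (a := 0) (b := 1) (c := 1) (cn := .pnn) (n1 := ndF3q0) (n2 := ndF3q1) (pc := pcF1) (cut := Cut.none) (xt := Ext.none) (P1 := 0) (W1 := 536870912) (P2 := 536870912) (W2 := 536870912) (P3 := 67108864) (W3 := 67108864)
    rfl rfl rfl k0_mm_011

noncomputable def f_mm_012 : ℕ → ℕ → ℕ → ℕ → Bool := onCell 0 536870912 536870912 536870912 67108864 67108864
    (rowFK 0 true false false .pnp 0 1 2 (qsf 0 536870912 536870912 536870912 2) ndF3q0 ndF3q1 pcF2 Cut.none Ext.none)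

def k0_mm_012 : ∃ t, chk3 f_mm_012 t 1 1 1 = true :=
  ⟨(l 4), by decide +kernel⟩

theorem c_mm_012 : CertF 0 536870912 536870912 536870912 67108864 67108864 true false false .pnp 0 1 2
    ndF3q0 ndF3q1 pcF2 Cut.none Ext.none :=
  certFK0 (fam := true) (s1 := false) (s2 := false) (a := 0) (b := 1) (c := 2) (cn := .pnp) (n1 := ndF3q0) (n2 := ndF3q1) (pc := pcF2) (cut := Cut.none) (xt := Ext.none) (P1 := 0) (W1 := 536870912) (P2 := 536870912) (W2 := 536870912) (P3 := 67108864) (W3 := 67108864)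
    rfl rfl rfl k0_mm_012

noncomputable def f_mm_022 : ℕ → ℕ → ℕ → ℕ → Bool := onCell 0 536870912 1073741824 536870912 67108864 67108864
    (rowFK 0 true false false .pp 0 2 2 (qsf 0 536870912 1073741824 536870912 2) ndF3q0 ndF3q2 pcF2 Cut.none Ext.none)

def k0_mm_022 : ∃ t, chk3 f_mm_022 t 1 1 1 = true :=
  ⟨(l 4), by decide +kernel⟩

theorem c_mm_022 : CertF 0 536870912 1073741824 536870912 67108864 67108864 true false false .pp 0 2 2
    ndF3q0 ndF3q2 pcF2 Cut.none Ext.none :=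
  certFK0 (fam := true) (s1 := false) (s2 := false) (a := 0) (b := 2) (c := 2) (cn := .pp) (n1 := ndF3q0) (n2 := ndF3q2) (pc := pcF2) (cut := Cut.none) (xt := Ext.none) (P1 := 0) (W1 := 536870912) (P2 := 1073741824) (W2 := 536870912) (P3 := 67108864) (W3 := 67108864)
    rfl rfl rfl k0_mm_022

noncomputable def f_mm_023 : ℕ → ℕ → ℕ → ℕ → Bool := onCell 0 536870912 1073741824 536870912 67108864 67108864
    (rowFK 0 true false false .up 0 2 3 (qsf 0 536870912 1073741824 536870912 3) ndF3q0 ndF3q2 pcF3 Cut.none Ext.none)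

def k0_mm_023 : ∃ t, chk3 f_mm_023 t 1 1 1 = true :=
  ⟨(l 4), by decide +kernel⟩

theorem c_mm_023 : CertF 0 536870912 1073741824 536870912 67108864 67108864 true false false .up 0 2 3
    ndF3q0 ndF3q2 pcF3 Cut.none Ext.none :=
  certFK0 (fam := true) (s1 := false) (s2 := false) (a := 0) (b := 2) (c := 3) (cn := .up) (n1 := ndF3q0) (n2 := ndF3q2) (pc := pcF3) (cut := Cut.none) (xt := Ext.none) (P1 := 0) (W1 := 536870912) (P2 := 1073741824) (W2 := 536870912) (P3 := 67108864) (W3 := 67108864)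
    rfl rfl rfl k0_mm_023

noncomputable def f_mm_033 : ℕ → ℕ → ℕ → ℕ → Bool := onCell 0 536870912 0 1230186008 67108864 67108864
    (rowFK 0 true false false .pnn 0 3 3 (qsf 0 536870912 0 1230186008 3) ndF3q0 ndF3q3 pcF3 Cut.none Ext.none)

def k0_mm_033 : ∃ t, chk3 f_mm_033 t 1 1 1 = true :=
  ⟨(l 5), by decide +kernel⟩

theorem c_mm_033 : CertF 0 536870912 0 1230186008 67108864 67108864 true false false .pnn 0 3 3
    ndF3q0 ndF3q3 pcF3 Cut.none Ext.none :=
  certFK0 (fam := true) (s1 := false) (s2 := false) (a := 0) (b := 3) (c := 3) (cn := .pnn) (n1 := ndF3q0) (n2 := ndF3q3) (pc := pcF3) (cut := Cut.none) (xt := Ext.none) (P1 := 0) (W1 := 536870912) (P2 := 0) (W2 := 1230186008) (P3 := 67108864) (W3 := 67108864)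
    rfl rfl rfl k0_mm_033

noncomputable def f_mm_101 : ℕ → ℕ → ℕ → ℕ → Bool := onCell 536870912 536870912 0 536870912 67108864 67108864
    (rowFK 0 true false false .npn 1 0 1 (qsf 536870912 536870912 0 536870912 1) ndF3q1 ndF3q0 pcF1 Cut.none Ext.none)

def k0_mm_101 : ∃ t, chk3 f_mm_101 t 1 1 1 = true :=
  ⟨(l 4), by decide +kernel⟩

theorem c_mm_101 : CertF 536870912 536870912 0 536870912 67108864 67108864 true false false .npn 1 0 1
    ndF3q1 ndF3q0 pcF1 Cut.none Ext.none :=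
  certFK0 (fam := true) (s1 := false) (s2 := false) (a := 1) (b := 0) (c := 1) (cn := .npn) (n1 := ndF3q1) (n2 := ndF3q0) (pc := pcF1) (cut := Cut.none) (xt := Ext.none) (P1 := 536870912) (W1 := 536870912) (P2 := 0) (W2 := 536870912) (P3 := 67108864) (W3 := 67108864)
    rfl rfl rfl k0_mm_101

noncomputable def f_mm_102 : ℕ → ℕ → ℕ → ℕ → Bool := onCell 536870912 536870912 0 536870912 67108864 67108864
    (rowFK 0 true false false .npp 1 0 2 (qsf 536870912 536870912 0 536870912 2) ndF3q1 ndF3q0 pcF2 Cut.none Ext.none)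

def k0_mm_102 : ∃ t, chk3 f_mm_102 t 1 1 1 = true :=
  ⟨(l 4), by decide +kernel⟩

theorem c_mm_102 : CertF 536870912 536870912 0 536870912 67108864 67108864 true false false .npp 1 0 2
    ndF3q1 ndF3q0 pcF2 Cut.none Ext.none :=
  certFK0 (fam := true) (s1 := false) (s2 := false) (a := 1) (b := 0) (c := 2) (cn := .npp) (n1 := ndF3q1) (n2 := ndF3q0) (pc := pcF2) (cut := Cut.none) (xt := Ext.none) (P1 := 536870912) (W1 := 536870912) (P2 := 0) (W2 := 536870912) (P3 := 67108864) (W3 := 67108864)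
    rfl rfl rfl k0_mm_102

noncomputable def f_mm_112 : ℕ → ℕ → ℕ → ℕ → Bool := onCell 536870912 536870912 536870912 536870912 67108864 67108864
    (rowFK 0 true false false .dn 1 1 2 (qsf 536870912 536870912 536870912 536870912 2) ndF3q1 ndF3q1 pcF2 Cut.none Ext.none)

def k0_mm_112 : ∃ t, chk3 f_mm_112 t 1 1 1 = true :=
  ⟨(l 4), by decide +kernel⟩

theorem c_mm_112 : CertF 536870912 536870912 536870912 536870912 67108864 67108864 true false false .dn 1 1 2
    ndF3q1 ndF3q1 pcF2 Cut.none Ext.none :=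
  certFK0 (fam := true) (s1 := false) (s2 := false) (a := 1) (b := 1) (c := 2) (cn := .dn) (n1 := ndF3q1) (n2 := ndF3q1) (pc := pcF2) (cut := Cut.none) (xt := Ext.none) (P1 := 536870912) (W1 := 536870912) (P2 := 536870912) (W2 := 536870912) (P3 := 67108864) (W3 := 67108864)
    rfl rfl rfl k0_mm_112

noncomputable def f_mm_113 : ℕ → ℕ → ℕ → ℕ → Bool := onCell 536870912 536870912 536870912 536870912 67108864 67108864
    (rowFK 0 true false false .nn 1 1 3 (qsf 536870912 536870912 536870912 536870912 3) ndF3q1 ndF3q1 pcF3 Cut.none Ext.none)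

def k0_mm_113 : ∃ t, chk3 f_mm_113 t 1 1 1 = true :=
  ⟨(l 4), by decide +kernel⟩

theorem c_mm_113 : CertF 536870912 536870912 536870912 536870912 67108864 67108864 true false false .nn 1 1 3
    ndF3q1 ndF3q1 pcF3 Cut.none Ext.none :=
  certFK0 (fam := true) (s1 := false) (s2 := false) (a := 1) (b := 1) (c := 3) (cn := .nn) (n1 := ndF3q1) (n2 := ndF3q1) (pc := pcF3) (cut := Cut.none) (xt := Ext.none) (P1 := 536870912) (W1 := 536870912) (P2 := 536870912) (W2 := 536870912) (P3 := 67108864) (W3 := 67108864)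
    rfl rfl rfl k0_mm_113

noncomputable def f_mm_123 : ℕ → ℕ → ℕ → ℕ → Bool := onCell 536870912 536870912 1073741824 536870912 67108864 67108864
    (rowFK 0 true false false .npn 1 2 3 (qsf 536870912 536870912 1073741824 536870912 3) ndF3q1 ndF3q2 pcF3 Cut.none Ext.none)

def k0_mm_123 : ∃ t, chk3 f_mm_123 t 1 1 1 = true :=
  ⟨(l 4), by decide +kernel⟩

theorem c_mm_123 : CertF 536870912 536870912 1073741824 536870912 67108864 67108864 true false false .npn 1 2 3
    ndF3q1 ndF3q2 pcF3 Cut.none Ext.none :=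
  certFK0 (fam := true) (s1 := false) (s2 := false) (a := 1) (b := 2) (c := 3) (cn := .npn) (n1 := ndF3q1) (n2 := ndF3q2) (pc := pcF3) (cut := Cut.none) (xt := Ext.none) (P1 := 536870912) (W1 := 536870912) (P2 := 1073741824) (W2 := 536870912) (P3 := 67108864) (W3 := 67108864)
    rfl rfl rfl k0_mm_123

noncomputable def f_mm_133 : ℕ → ℕ → ℕ → ℕ → Bool := onCell 536870912 536870912 0 1230186008 67108864 67108864
    (rowFK 0 true false false .dn 1 3 3 (qsf 536870912 536870912 0 1230186008 3) ndF3q1 ndF3q3 pcF3 Cut.none Ext.none)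

def k0_mm_133 : ∃ t, chk3 f_mm_133 t 1 1 1 = true :=
  ⟨(l 4), by decide +kernel⟩

theorem c_mm_133 : CertF 536870912 536870912 0 1230186008 67108864 67108864 true false false .dn 1 3 3
    ndF3q1 ndF3q3 pcF3 Cut.none Ext.none :=
  certFK0 (fam := true) (s1 := false) (s2 := false) (a := 1) (b := 3) (c := 3) (cn := .dn) (n1 := ndF3q1) (n2 := ndF3q3) (pc := pcF3) (cut := Cut.none) (xt := Ext.none) (P1 := 536870912) (W1 := 536870912) (P2 := 0) (W2 := 1230186008) (P3 := 67108864) (W3 := 67108864)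
    rfl rfl rfl k0_mm_133

noncomputable def f_mm_202 : ℕ → ℕ → ℕ → ℕ → Bool := onCell 1073741824 536870912 0 536870912 67108864 67108864
    (rowFK 0 true false false .pp 2 0 2 (qsf 1073741824 536870912 0 536870912 2) ndF3q2 ndF3q0 pcF2 Cut.none Ext.none)

def k0_mm_202 : ∃ t, chk3 f_mm_202 t 1 1 1 = true :=
  ⟨(l 4), by decide +kernel⟩

theorem c_mm_202 : CertF 1073741824 536870912 0 536870912 67108864 67108864 true false false .pp 2 0 2
    ndF3q2 ndF3q0 pcF2 Cut.none Ext.none :=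
  certFK0 (fam := true) (s1 := false) (s2 := false) (a := 2) (b := 0) (c := 2) (cn := .pp) (n1 := ndF3q2) (n2 := ndF3q0) (pc := pcF2) (cut := Cut.none) (xt := Ext.none) (P1 := 1073741824) (W1 := 536870912) (P2 := 0) (W2 := 536870912) (P3 := 67108864) (W3 := 67108864)
    rfl rfl rfl k0_mm_202

noncomputable def f_mm_203 : ℕ → ℕ → ℕ → ℕ → Bool := onCell 1073741824 536870912 0 536870912 67108864 67108864
    (rowFK 0 true false false .up 2 0 3 (qsf 1073741824 536870912 0 536870912 3) ndF3q2 ndF3q0 pcF3 Cut.none Ext.none)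

def k0_mm_203 : ∃ t, chk3 f_mm_203 t 1 1 1 = true :=
  ⟨(l 4), by decide +kernel⟩

theorem c_mm_203 : CertF 1073741824 536870912 0 536870912 67108864 67108864 true false false .up 2 0 3
    ndF3q2 ndF3q0 pcF3 Cut.none Ext.none :=
  certFK0 (fam := true) (s1 := false) (s2 := false) (a := 2) (b := 0) (c := 3) (cn := .up) (n1 := ndF3q2) (n2 := ndF3q0) (pc := pcF3) (cut := Cut.none) (xt := Ext.none) (P1 := 1073741824) (W1 := 536870912) (P2 := 0) (W2 := 536870912) (P3 := 67108864) (W3 := 67108864)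
    rfl rfl rfl k0_mm_203

noncomputable def f_mm_213 : ℕ → ℕ → ℕ → ℕ → Bool := onCell 1073741824 536870912 536870912 536870912 67108864 67108864
    (rowFK 0 true false false .pnn 2 1 3 (qsf 1073741824 536870912 536870912 536870912 3) ndF3q2 ndF3q1 pcF3 Cut.none Ext.none)

def k0_mm_213 : ∃ t, chk3 f_mm_213 t 1 1 1 = true :=
  ⟨(l 4), by decide +kernel⟩

theorem c_mm_213 : CertF 1073741824 536870912 536870912 536870912 67108864 67108864 true false false .pnn 2 1 3
    ndF3q2 ndF3q1 pcF3 Cut.none Ext.none :=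
  certFK0 (fam := true) (s1 := false) (s2 := false) (a := 2) (b := 1) (c := 3) (cn := .pnn) (n1 := ndF3q2) (n2 := ndF3q1) (pc := pcF3) (cut := Cut.none) (xt := Ext.none) (P1 := 1073741824) (W1 := 536870912) (P2 := 536870912) (W2 := 536870912) (P3 := 67108864) (W3 := 67108864)
    rfl rfl rfl k0_mm_213

noncomputable def f_mm_303 : ℕ → ℕ → ℕ → ℕ → Bool := onCell 0 1230186008 0 536870912 67108864 67108864
    (rowFK 0 true false false .npn 3 0 3 (qsf 0 1230186008 0 536870912 3) ndF3q3 ndF3q0 pcF3 Cut.none Ext.none)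

def k0_mm_303 : ∃ t, chk3 f_mm_303 t 1 1 1 = true :=
  ⟨(a (l 4) (l 4)), by decide +kernel⟩

theorem c_mm_303 : CertF 0 1230186008 0 536870912 67108864 67108864 true false false .npn 3 0 3
    ndF3q3 ndF3q0 pcF3 Cut.none Ext.none :=
  certFK0 (fam := true) (s1 := false) (s2 := false) (a := 3) (b := 0) (c := 3) (cn := .npn) (n1 := ndF3q3) (n2 := ndF3q0) (pc := pcF3) (cut := Cut.none) (xt := Ext.none) (P1 := 0) (W1 := 1230186008) (P2 := 0) (W2 := 536870912) (P3 := 67108864) (W3 := 67108864)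
    rfl rfl rfl k0_mm_303

noncomputable def f_mm_313 : ℕ → ℕ → ℕ → ℕ → Bool := onCell 0 1230186008 536870912 536870912 67108864 67108864
    (rowFK 0 true false false .dn 3 1 3 (qsf 0 1230186008 536870912 536870912 3) ndF3q3 ndF3q1 pcF3 Cut.none Ext.none)

def k0_mm_313 : ∃ t, chk3 f_mm_313 t 1 1 1 = true :=
  ⟨(l 4), by decide +kernel⟩

theorem c_mm_313 : CertF 0 1230186008 536870912 536870912 67108864 67108864 true false false .dn 3 1 3
    ndF3q3 ndF3q1 pcF3 Cut.none Ext.none :=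
  certFK0 (fam := true) (s1 := false) (s2 := false) (a := 3) (b := 1) (c := 3) (cn := .dn) (n1 := ndF3q3) (n2 := ndF3q1) (pc := pcF3) (cut := Cut.none) (xt := Ext.none) (P1 := 0) (W1 := 1230186008) (P2 := 536870912) (W2 := 536870912) (P3 := 67108864) (W3 := 67108864)
    rfl rfl rfl k0_mm_313

end Pool.Agent.Strip051.G.I1_16_1_8.Tab.C.FA33

namespace Pool.Agent.Strip051.G.I1_16_1_8.Tab.C.FA34

open Pool.Agent.Strip051.PB Pool.Agent.Strip051.PB.T
open Pool.Agent.Strip051.G.I1_16_1_8.Tab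

noncomputable def f_pp_001 : ℕ → ℕ → ℕ → ℕ → Bool := onCell 0 536870912 0 536870912 67108864 67108864
    (rowFK 0 true true true .up 0 0 1 (qsf 0 536870912 0 536870912 1) ndF3q0 ndF4q0 pcF1 Cut.none Ext.none)

def k0_pp_001 : ∃ t, chk3 f_pp_001 t 1 1 1 = true :=
  ⟨(l 4), by decide +kernel⟩

theorem c_pp_001 : CertF 0 536870912 0 536870912 67108864 67108864 true true true .up 0 0 1
    ndF3q0 ndF4q0 pcF1 Cut.none Ext.none :=
  certFK0 (fam := true) (s1 := true) (s2 := true) (a := 0) (b := 0) (c := 1) (cn := .up) (n1 := ndF3q0) (n2 := ndF4q0) (pc := pcF1) (cut := Cut.none) (xt := Ext.none) (P1 := 0) (W1 := 536870912) (P2 := 0) (W2 := 536870912) (P3 := 67108864) (W3 := 67108864)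
    rfl rfl rfl k0_pp_001

noncomputable def f_pp_011 : ℕ → ℕ → ℕ → ℕ → Bool := onCell 0 536870912 536870912 536870912 67108864 67108864
    (rowFK 0 true true true .pnn 0 1 1 (qsf 0 536870912 536870912 536870912 1) ndF3q0 ndF4q1 pcF1 Cut.none Ext.none)

def k0_pp_011 : ∃ t, chk3 f_pp_011 t 1 1 1 = true :=
  ⟨(l 4), by decide +kernel⟩

theorem c_pp_011 : CertF 0 536870912 536870912 536870912 67108864 67108864 true true true .pnn 0 1 1
    ndF3q0 ndF4q1 pcF1 Cut.none Ext.none :=
  certFK0 (fam := true) (s1 := true) (s2 := true) (a := 0) (b := 1) (c := 1) (cn := .pnn) (n1 := ndF3q0) (n2 := ndF4q1) (pc := pcF1) (cut := Cut.none) (xt := Ext.none) (P1 := 0) (W1 := 536870912) (P2 := 536870912) (W2 := 536870912) (P3 := 67108864) (W3 := 67108864)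
    rfl rfl rfl k0_pp_011

noncomputable def f_pp_012 : ℕ → ℕ → ℕ → ℕ → Bool := onCell 0 536870912 536870912 536870912 67108864 67108864
    (rowFK 0 true true true .pnp 0 1 2 (qsf 0 536870912 536870912 536870912 2) ndF3q0 ndF4q1 pcF2 Cut.none Ext.none)

def k0_pp_012 : ∃ t, chk3 f_pp_012 t 1 1 1 = true :=
  ⟨(l 4), by decide +kernel⟩

theorem c_pp_012 : CertF 0 536870912 536870912 536870912 67108864 67108864 true true true .pnp 0 1 2
    ndF3q0 ndF4q1 pcF2 Cut.none Ext.none :=
  certFK0 (fam := true) (s1 := true) (s2 := true) (a := 0) (b := 1) (c := 2) (cn := .pnp) (n1 := ndF3q0) (n2 := ndF4q1) (pc := pcF2) (cut := Cut.none) (xt := Ext.none) (P1 := 0) (W1 := 536870912) (P2 := 536870912) (W2 := 536870912) (P3 := 67108864) (W3 := 67108864)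
    rfl rfl rfl k0_pp_012

noncomputable def f_pp_022 : ℕ → ℕ → ℕ → ℕ → Bool := onCell 0 536870912 1073741824 536870912 67108864 67108864
    (rowFK 0 true true true .pp 0 2 2 (qsf 0 536870912 1073741824 536870912 2) ndF3q0 ndF4q2 pcF2 Cut.none Ext.none)

def k0_pp_022 : ∃ t, chk3 f_pp_022 t 1 1 1 = true :=
  ⟨(l 4), by decide +kernel⟩

theorem c_pp_022 : CertF 0 536870912 1073741824 536870912 67108864 67108864 true true true .pp 0 2 2
    ndF3q0 ndF4q2 pcF2 Cut.none Ext.none :=
  certFK0 (fam := true) (s1 := true) (s2 := true) (a := 0) (b := 2) (c := 2) (cn := .pp) (n1 := ndF3q0) (n2 := ndF4q2) (pc := pcF2) (cut := Cut.none) (xt := Ext.none) (P1 := 0) (W1 := 536870912) (P2 := 1073741824) (W2 := 536870912) (P3 := 67108864) (W3 := 67108864)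
    rfl rfl rfl k0_pp_022

noncomputable def f_pp_023 : ℕ → ℕ → ℕ → ℕ → Bool := onCell 0 536870912 1073741824 536870912 67108864 67108864
    (rowFK 0 true true true .up 0 2 3 (qsf 0 536870912 1073741824 536870912 3) ndF3q0 ndF4q2 pcF3 Cut.none Ext.none)

def k0_pp_023 : ∃ t, chk3 f_pp_023 t 1 1 1 = true :=
  ⟨(l 4), by decide +kernel⟩

theorem c_pp_023 : CertF 0 536870912 1073741824 536870912 67108864 67108864 true true true .up 0 2 3
    ndF3q0 ndF4q2 pcF3 Cut.none Ext.none :=
  certFK0 (fam := true) (s1 := true) (s2 := true) (a := 0) (b := 2) (c := 3) (cn := .up) (n1 := ndF3q0) (n2 := ndF4q2) (pc := pcF3) (cut := Cut.none) (xt := Ext.none) (P1 := 0) (W1 := 536870912) (P2 := 1073741824) (W2 := 536870912) (P3 := 67108864) (W3 := 67108864)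
    rfl rfl rfl k0_pp_023

noncomputable def f_pp_033 : ℕ → ℕ → ℕ → ℕ → Bool := onCell 0 536870912 0 1230186008 67108864 67108864
    (rowFK 0 true true true .pnn 0 3 3 (qsf 0 536870912 0 1230186008 3) ndF3q0 ndF4q3 pcF3 Cut.none Ext.none)

def k0_pp_033 : ∃ t, chk3 f_pp_033 t 1 1 1 = true :=
  ⟨(l 4), by decide +kernel⟩

theorem c_pp_033 : CertF 0 536870912 0 1230186008 67108864 67108864 true true true .pnn 0 3 3
    ndF3q0 ndF4q3 pcF3 Cut.none Ext.none :=
  certFK0 (fam := true) (s1 := true) (s2 := true) (a := 0) (b := 3) (c := 3) (cn := .pnn) (n1 := ndF3q0) (n2 := ndF4q3) (pc := pcF3) (cut := Cut.none) (xt := Ext.none) (P1 := 0) (W1 := 536870912) (P2 := 0) (W2 := 1230186008) (P3 := 67108864) (W3 := 67108864)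
    rfl rfl rfl k0_pp_033

noncomputable def f_pp_101 : ℕ → ℕ → ℕ → ℕ → Bool := onCell 536870912 536870912 0 536870912 67108864 67108864
    (rowFK 0 true true true .npn 1 0 1 (qsf 536870912 536870912 0 536870912 1) ndF3q1 ndF4q0 pcF1 Cut.none Ext.none)

def k0_pp_101 : ∃ t, chk3 f_pp_101 t 1 1 1 = true :=
  ⟨(l 4), by decide +kernel⟩

theorem c_pp_101 : CertF 536870912 536870912 0 536870912 67108864 67108864 true true true .npn 1 0 1
    ndF3q1 ndF4q0 pcF1 Cut.none Ext.none :=
  certFK0 (fam := true) (s1 := true) (s2 := true) (a := 1) (b := 0) (c := 1) (cn := .npn) (n1 := ndF3q1) (n2 := ndF4q0) (pc := pcF1) (cut := Cut.none) (xt := Ext.none) (P1 := 536870912) (W1 := 536870912) (P2 := 0) (W2 := 536870912) (P3 := 67108864) (W3 := 67108864)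
    rfl rfl rfl k0_pp_101

noncomputable def f_pp_102 : ℕ → ℕ → ℕ → ℕ → Bool := onCell 536870912 536870912 0 536870912 67108864 67108864
    (rowFK 0 true true true .npp 1 0 2 (qsf 536870912 536870912 0 536870912 2) ndF3q1 ndF4q0 pcF2 Cut.none Ext.none)

def k0_pp_102 : ∃ t, chk3 f_pp_102 t 1 1 1 = true :=
  ⟨(l 4), by decide +kernel⟩

theorem c_pp_102 : CertF 536870912 536870912 0 536870912 67108864 67108864 true true true .npp 1 0 2
    ndF3q1 ndF4q0 pcF2 Cut.none Ext.none :=
  certFK0 (fam := true) (s1 := true) (s2 := true) (a := 1) (b := 0) (c := 2) (cn := .npp) (n1 := ndF3q1) (n2 := ndF4q0) (pc := pcF2) (cut := Cut.none) (xt := Ext.none) (P1 := 536870912) (W1 := 536870912) (P2 := 0) (W2 := 536870912) (P3 := 67108864) (W3 := 67108864)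
    rfl rfl rfl k0_pp_102

noncomputable def f_pp_112 : ℕ → ℕ → ℕ → ℕ → Bool := onCell 536870912 536870912 536870912 536870912 67108864 67108864
    (rowFK 0 true true true .dn 1 1 2 (qsf 536870912 536870912 536870912 536870912 2) ndF3q1 ndF4q1 pcF2 Cut.none Ext.none)

def k0_pp_112 : ∃ t, chk3 f_pp_112 t 1 1 1 = true :=
  ⟨(l 4), by decide +kernel⟩

theorem c_pp_112 : CertF 536870912 536870912 536870912 536870912 67108864 67108864 true true true .dn 1 1 2
    ndF3q1 ndF4q1 pcF2 Cut.none Ext.none :=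
  certFK0 (fam := true) (s1 := true) (s2 := true) (a := 1) (b := 1) (c := 2) (cn := .dn) (n1 := ndF3q1) (n2 := ndF4q1) (pc := pcF2) (cut := Cut.none) (xt := Ext.none) (P1 := 536870912) (W1 := 536870912) (P2 := 536870912) (W2 := 536870912) (P3 := 67108864) (W3 := 67108864)
    rfl rfl rfl k0_pp_112

noncomputable def f_pp_113 : ℕ → ℕ → ℕ → ℕ → Bool := onCell 536870912 536870912 536870912 536870912 67108864 67108864
    (rowFK 0 true true true .nn 1 1 3 (qsf 536870912 536870912 536870912 536870912 3) ndF3q1 ndF4q1 pcF3 Cut.none Ext.none)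

def k0_pp_113 : ∃ t, chk3 f_pp_113 t 1 1 1 = true :=
  ⟨(l 4), by decide +kernel⟩

theorem c_pp_113 : CertF 536870912 536870912 536870912 536870912 67108864 67108864 true true true .nn 1 1 3
    ndF3q1 ndF4q1 pcF3 Cut.none Ext.none :=
  certFK0 (fam := true) (s1 := true) (s2 := true) (a := 1) (b := 1) (c := 3) (cn := .nn) (n1 := ndF3q1) (n2 := ndF4q1) (pc := pcF3) (cut := Cut.none) (xt := Ext.none) (P1 := 536870912) (W1 := 536870912) (P2 := 536870912) (W2 := 536870912) (P3 := 67108864) (W3 := 67108864)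
    rfl rfl rfl k0_pp_113

noncomputable def f_pp_123 : ℕ → ℕ → ℕ → ℕ → Bool := onCell 536870912 536870912 1073741824 536870912 67108864 67108864
    (rowFK 0 true true true .npn 1 2 3 (qsf 536870912 536870912 1073741824 536870912 3) ndF3q1 ndF4q2 pcF3 Cut.none Ext.none)

def k0_pp_123 : ∃ t, chk3 f_pp_123 t 1 1 1 = true :=
  ⟨(l 4), by decide +kernel⟩

theorem c_pp_123 : CertF 536870912 536870912 1073741824 536870912 67108864 67108864 true true true .npn 1 2 3
    ndF3q1 ndF4q2 pcF3 Cut.none Ext.none :=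
  certFK0 (fam := true) (s1 := true) (s2 := true) (a := 1) (b := 2) (c := 3) (cn := .npn) (n1 := ndF3q1) (n2 := ndF4q2) (pc := pcF3) (cut := Cut.none) (xt := Ext.none) (P1 := 536870912) (W1 := 536870912) (P2 := 1073741824) (W2 := 536870912) (P3 := 67108864) (W3 := 67108864)
    rfl rfl rfl k0_pp_123

noncomputable def f_pp_133 : ℕ → ℕ → ℕ → ℕ → Bool := onCell 536870912 536870912 0 1230186008 67108864 67108864
    (rowFK 0 true true true .dn 1 3 3 (qsf 536870912 536870912 0 1230186008 3) ndF3q1 ndF4q3 pcF3 Cut.none Ext.none)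

def k0_pp_133 : ∃ t, chk3 f_pp_133 t 1 1 1 = true :=
  ⟨(l 4), by decide +kernel⟩

theorem c_pp_133 : CertF 536870912 536870912 0 1230186008 67108864 67108864 true true true .dn 1 3 3
    ndF3q1 ndF4q3 pcF3 Cut.none Ext.none :=
  certFK0 (fam := true) (s1 := true) (s2 := true) (a := 1) (b := 3) (c := 3) (cn := .dn) (n1 := ndF3q1) (n2 := ndF4q3) (pc := pcF3) (cut := Cut.none) (xt := Ext.none) (P1 := 536870912) (W1 := 536870912) (P2 := 0) (W2 := 1230186008) (P3 := 67108864) (W3 := 67108864)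
    rfl rfl rfl k0_pp_133

noncomputable def f_pp_202 : ℕ → ℕ → ℕ → ℕ → Bool := onCell 1073741824 536870912 0 536870912 67108864 67108864
    (rowFK 0 true true true .pp 2 0 2 (qsf 1073741824 536870912 0 536870912 2) ndF3q2 ndF4q0 pcF2 Cut.none Ext.none)

def k0_pp_202 : ∃ t, chk3 f_pp_202 t 1 1 1 = true :=
  ⟨(l 4), by decide +kernel⟩

theorem c_pp_202 : CertF 1073741824 536870912 0 536870912 67108864 67108864 true true true .pp 2 0 2
    ndF3q2 ndF4q0 pcF2 Cut.none Ext.none :=
  certFK0 (fam := true) (s1 := true) (s2 := true) (a := 2) (b := 0) (c := 2) (cn := .pp) (n1 := ndF3q2) (n2 := ndF4q0) (pc := pcF2) (cut := Cut.none) (xt := Ext.none) (P1 := 1073741824) (W1 := 536870912) (P2 := 0) (W2 := 536870912) (P3 := 67108864) (W3 := 67108864)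
    rfl rfl rfl k0_pp_202

noncomputable def f_pp_203 : ℕ → ℕ → ℕ → ℕ → Bool := onCell 1073741824 536870912 0 536870912 67108864 67108864
    (rowFK 0 true true true .up 2 0 3 (qsf 1073741824 536870912 0 536870912 3) ndF3q2 ndF4q0 pcF3 Cut.none Ext.none)

def k0_pp_203 : ∃ t, chk3 f_pp_203 t 1 1 1 = true :=
  ⟨(l 4), by decide +kernel⟩

theorem c_pp_203 : CertF 1073741824 536870912 0 536870912 67108864 67108864 true true true .up 2 0 3
    ndF3q2 ndF4q0 pcF3 Cut.none Ext.none :=
  certFK0 (fam := true) (s1 := true) (s2 := true) (a := 2) (b := 0) (c := 3) (cn := .up) (n1 := ndF3q2) (n2 := ndF4q0) (pc := pcF3) (cut := Cut.none) (xt := Ext.none) (P1 := 1073741824) (W1 := 536870912) (P2 := 0) (W2 := 536870912) (P3 := 67108864) (W3 := 67108864)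
    rfl rfl rfl k0_pp_203

noncomputable def f_pp_213 : ℕ → ℕ → ℕ → ℕ → Bool := onCell 1073741824 536870912 536870912 536870912 67108864 67108864
    (rowFK 0 true true true .pnn 2 1 3 (qsf 1073741824 536870912 536870912 536870912 3) ndF3q2 ndF4q1 pcF3 Cut.none Ext.none)

def k0_pp_213 : ∃ t, chk3 f_pp_213 t 1 1 1 = true :=
  ⟨(l 4), by decide +kernel⟩

theorem c_pp_213 : CertF 1073741824 536870912 536870912 536870912 67108864 67108864 true true true .pnn 2 1 3
    ndF3q2 ndF4q1 pcF3 Cut.none Ext.none :=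
  certFK0 (fam := true) (s1 := true) (s2 := true) (a := 2) (b := 1) (c := 3) (cn := .pnn) (n1 := ndF3q2) (n2 := ndF4q1) (pc := pcF3) (cut := Cut.none) (xt := Ext.none) (P1 := 1073741824) (W1 := 536870912) (P2 := 536870912) (W2 := 536870912) (P3 := 67108864) (W3 := 67108864)
    rfl rfl rfl k0_pp_213

noncomputable def f_pp_303 : ℕ → ℕ → ℕ → ℕ → Bool := onCell 0 1230186008 0 536870912 67108864 67108864
    (rowFK 0 true true true .npn 3 0 3 (qsf 0 1230186008 0 536870912 3) ndF3q3 ndF4q0 pcF3 Cut.none Ext.none)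

def k0_pp_303 : ∃ t, chk3 f_pp_303 t 1 1 1 = true :=
  ⟨(l 4), by decide +kernel⟩

theorem c_pp_303 : CertF 0 1230186008 0 536870912 67108864 67108864 true true true .npn 3 0 3
    ndF3q3 ndF4q0 pcF3 Cut.none Ext.none :=
  certFK0 (fam := true) (s1 := true) (s2 := true) (a := 3) (b := 0) (c := 3) (cn := .npn) (n1 := ndF3q3) (n2 := ndF4q0) (pc := pcF3) (cut := Cut.none) (xt := Ext.none) (P1 := 0) (W1 := 1230186008) (P2 := 0) (W2 := 536870912) (P3 := 67108864) (W3 := 67108864)
    rfl rfl rfl k0_pp_303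

noncomputable def f_pp_313 : ℕ → ℕ → ℕ → ℕ → Bool := onCell 0 1230186008 536870912 536870912 67108864 67108864
    (rowFK 0 true true true .dn 3 1 3 (qsf 0 1230186008 536870912 536870912 3) ndF3q3 ndF4q1 pcF3 Cut.none Ext.none)

def k0_pp_313 : ∃ t, chk3 f_pp_313 t 1 1 1 = true :=
  ⟨(l 4), by decide +kernel⟩

theorem c_pp_313 : CertF 0 1230186008 536870912 536870912 67108864 67108864 true true true .dn 3 1 3
    ndF3q3 ndF4q1 pcF3 Cut.none Ext.none :=
  certFK0 (fam := true) (s1 := true) (s2 := true) (a := 3) (b := 1) (c := 3) (cn := .dn) (n1 := ndF3q3) (n2 := ndF4q1) (pc := pcF3) (cut := Cut.none) (xt := Ext.none) (P1 := 0) (W1 := 1230186008) (P2 := 536870912) (W2 := 536870912) (P3 := 67108864) (W3 := 67108864)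
    rfl rfl rfl k0_pp_313

noncomputable def f_pm_001 : ℕ → ℕ → ℕ → ℕ → Bool := onCell 0 536870912 0 536870912 67108864 67108864
    (rowFK 0 true true false .up 0 0 1 (qsf 0 536870912 0 536870912 1) ndF3q0 ndF4q0 pcF1 Cut.none Ext.none)

def k0_pm_001 : ∃ t, chk3 f_pm_001 t 1 1 1 = true :=
  ⟨(l 3), by decide +kernel⟩

theorem c_pm_001 : CertF 0 536870912 0 536870912 67108864 67108864 true true false .up 0 0 1
    ndF3q0 ndF4q0 pcF1 Cut.none Ext.none :=
  certFK0 (fam := true) (s1 := true) (s2 := false) (a := 0) (b := 0) (c := 1) (cn := .up) (n1 := ndF3q0) (n2 := ndF4q0) (pc := pcF1) (cut := Cut.none) (xt := Ext.none) (P1 := 0) (W1 := 536870912) (P2 := 0) (W2 := 536870912) (P3 := 67108864) (W3 := 67108864)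
    rfl rfl rfl k0_pm_001

noncomputable def f_pm_011 : ℕ → ℕ → ℕ → ℕ → Bool := onCell 0 536870912 536870912 536870912 67108864 67108864
    (rowFK 1 true true false .pnn 0 1 1 (qsf 0 536870912 536870912 536870912 1) ndF3q0 ndF4q1 pcF1 Cut.none Ext.none)

def k0_pm_011 : ∃ t, chk3 f_pm_011 t 1 1 1 = true :=
  ⟨(l 3), by decide +kernel⟩

theorem c_pm_011 : CertF 0 536870912 536870912 536870912 67108864 67108864 true true false .pnn 0 1 1
    ndF3q0 ndF4q1 pcF1 Cut.none Ext.none :=
  certFK1 (fam := true) (s1 := true) (s2 := false) (a := 0) (b := 1) (c := 1) (cn := .pnn) (n1 := ndF3q0) (n2 := ndF4q1) (pc := pcF1) (cut := Cut.none) (xt := Ext.none) (P1 := 0) (W1 := 536870912) (P2 := 536870912) (W2 := 536870912) (P3 := 67108864) (W3 := 67108864)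
    rfl rfl rfl (fun _ => rfl) k0_pm_011

noncomputable def f_pm_012 : ℕ → ℕ → ℕ → ℕ → Bool := onCell 1073741824 536870912 536870912 536870912 67108864 67108864
    (rowFK 2 true true false .pnp 0 1 2 (qsf 0 536870912 536870912 536870912 2) ndF3q0 ndF4q1 pcF2 Cut.none Ext.none)

def k0_pm_012 : ∃ t, chk3 f_pm_012 t 1 1 1 = true :=
  ⟨(a (a (b (l 3) (l 3)) (b (a (b (l 17842816) (l 262164258247)) (l 18122528)) (a (a (a (l 3) (a (l 18932912) (l 18937376))) (l 18931544)) (l 18988752)))) (b (l 18278648) (a (l 19083776) (l 19212144)))), by decide +kernel⟩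

theorem c_pm_012 : CertF 0 536870912 536870912 536870912 67108864 67108864 true true false .pnp 0 1 2
    ndF3q0 ndF4q1 pcF2 Cut.none Ext.none :=
  certFK2 (fam := true) (s1 := true) (s2 := false) (a := 0) (b := 1) (c := 2) (cn := .pnp) (n1 := ndF3q0) (n2 := ndF4q1) (pc := pcF2) (cut := Cut.none) (xt := Ext.none) (P1 := 0) (W1 := 536870912) (P2 := 536870912) (W2 := 536870912) (P3 := 67108864) (W3 := 67108864)
    rfl rfl rfl (fun _ => rfl) k0_pm_012

noncomputable def f_pm_022 : ℕ → ℕ → ℕ → ℕ → Bool := onCell 0 536870912 1073741824 536870912 67108864 67108864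
    (rowFK 1 true true false .pp 0 2 2 (qsf 0 536870912 1073741824 536870912 2) ndF3q0 ndF4q2 pcF2 Cut.none Ext.none)

def k0_pm_022 : ∃ t, chk3 f_pm_022 t 1 1 1 = true :=
  ⟨(b (b (l 3) (a (b (b (b (l 3) (b (l 19349336) (a (l 19156592) (l 19453320)))) (l 19350072)) (a (l 18931208) (l 19201280))) (b (l 1) (l 20152584)))) (a (a (b (l 18626888) (l 18221312)) (b (l 18851448) (l 18392920))) (a (l 19261656) (l 19838528)))), by decide +kernel⟩

theorem c_pm_022 : CertF 0 536870912 1073741824 536870912 67108864 67108864 true true false .pp 0 2 2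
    ndF3q0 ndF4q2 pcF2 Cut.none Ext.none :=
  certFK1 (fam := true) (s1 := true) (s2 := false) (a := 0) (b := 2) (c := 2) (cn := .pp) (n1 := ndF3q0) (n2 := ndF4q2) (pc := pcF2) (cut := Cut.none) (xt := Ext.none) (P1 := 0) (W1 := 536870912) (P2 := 1073741824) (W2 := 536870912) (P3 := 67108864) (W3 := 67108864)
    rfl rfl rfl (fun _ => rfl) k0_pm_022

noncomputable def f_pm_023 : ℕ → ℕ → ℕ → ℕ → Bool := onCell 1610612736 536870912 1073741824 536870912 67108864 67108864
    (rowFK 2 true true false .up 0 2 3 (qsf 0 536870912 1073741824 536870912 3) ndF3q0 ndF4q2 pcF3 Cut.none Ext.none)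

def k0_pm_023 : ∃ t, chk3 f_pm_023 t 1 1 1 = true :=
  ⟨(a (b (a (l 19270176) (b (l 19613264) (l 19085816))) (a (b (l 18160680) (a (l 17521224) (l 17479272))) (b (l 18459328) (a (l 17730344) (l 17918064))))) (a (b (l 111238655751) (b (l 18670800) (l 18013248))) (b (l 2) (a (l 18487072) (a (l 18515432) (a (l 18510832) (a (l 18502568) (l 18487736)))))))), by decide +kernel⟩

theorem c_pm_023 : CertF 0 536870912 1073741824 536870912 67108864 67108864 true true false .up 0 2 3
    ndF3q0 ndF4q2 pcF3 Cut.none Ext.none :=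
  certFK2 (fam := true) (s1 := true) (s2 := false) (a := 0) (b := 2) (c := 3) (cn := .up) (n1 := ndF3q0) (n2 := ndF4q2) (pc := pcF3) (cut := Cut.none) (xt := Ext.none) (P1 := 0) (W1 := 536870912) (P2 := 1073741824) (W2 := 536870912) (P3 := 67108864) (W3 := 67108864)
    rfl rfl rfl (fun _ => rfl) k0_pm_023

noncomputable def f_pm_033 : ℕ → ℕ → ℕ → ℕ → Bool := onCell 1610612736 536870912 0 1230186008 67108864 67108864
    (rowFK 2 true true false .pnn 0 3 3 (qsf 0 536870912 0 1230186008 3) ndF3q0 ndF4q3 pcF3 Cut.none Ext.none)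

def k0_pm_033 : ∃ t, chk3 f_pm_033 t 1 1 1 = true :=
  ⟨(a (b (l 1) (b (b (l 1) (a (l 1) (a (l 1) (l 724811439191)))) (b (a (l 1) (a (l 833796667319) (l 17398792))) (a (a (l 17706976) (b (l 17719080) (l 17535536))) (a (l 17767672) (l 17356064)))))) (a (b (l 1) (b (a (l 545496866551) (l 17721704)) (b (l 17124552) (l 17186352)))) (b (b (l 4) (l 4)) (a (b (l 17557616) (l 17088440)) (b (l 4) (a (l 17232896) (l 4))))))), by decide +kernel⟩

theorem c_pm_033 : CertF 0 536870912 0 1230186008 67108864 67108864 true true false .pnn 0 3 3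
    ndF3q0 ndF4q3 pcF3 Cut.none Ext.none :=
  certFK2 (fam := true) (s1 := true) (s2 := false) (a := 0) (b := 3) (c := 3) (cn := .pnn) (n1 := ndF3q0) (n2 := ndF4q3) (pc := pcF3) (cut := Cut.none) (xt := Ext.none) (P1 := 0) (W1 := 536870912) (P2 := 0) (W2 := 1230186008) (P3 := 67108864) (W3 := 67108864)
    rfl rfl rfl (fun _ => rfl) k0_pm_033

noncomputable def f_pm_101 : ℕ → ℕ → ℕ → ℕ → Bool := onCell 536870912 536870912 536870912 536870912 67108864 67108864
    (rowFK 1 true true false .npn 1 0 1 (qsf 536870912 536870912 0 536870912 1) ndF3q1 ndF4q0 pcF1 Cut.none Ext.none)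

def k0_pm_101 : ∃ t, chk3 f_pm_101 t 1 1 1 = true :=
  ⟨(l 3), by decide +kernel⟩

theorem c_pm_101 : CertF 536870912 536870912 0 536870912 67108864 67108864 true true false .npn 1 0 1
    ndF3q1 ndF4q0 pcF1 Cut.none Ext.none :=
  certFK1 (fam := true) (s1 := true) (s2 := false) (a := 1) (b := 0) (c := 1) (cn := .npn) (n1 := ndF3q1) (n2 := ndF4q0) (pc := pcF1) (cut := Cut.none) (xt := Ext.none) (P1 := 536870912) (W1 := 536870912) (P2 := 0) (W2 := 536870912) (P3 := 67108864) (W3 := 67108864)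
    rfl rfl rfl (fun _ => rfl) k0_pm_101

noncomputable def f_pm_102 : ℕ → ℕ → ℕ → ℕ → Bool := onCell 1073741824 536870912 0 536870912 67108864 67108864
    (rowFK 2 true true false .npp 1 0 2 (qsf 536870912 536870912 0 536870912 2) ndF3q1 ndF4q0 pcF2 Cut.none Ext.none)

def k0_pm_102 : ∃ t, chk3 f_pm_102 t 1 1 1 = true :=
  ⟨(a (b (a (l 278809674951) (a (a (l 19737968) (l 19615056)) (l 19659912))) (a (l 3) (b (l 260555318839) (l 19235952)))) (b (a (l 19858440) (l 2)) (b (l 19562312) (l 18771984)))), by decide +kernel⟩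

theorem c_pm_102 : CertF 536870912 536870912 0 536870912 67108864 67108864 true true false .npp 1 0 2
    ndF3q1 ndF4q0 pcF2 Cut.none Ext.none :=
  certFK2 (fam := true) (s1 := true) (s2 := false) (a := 1) (b := 0) (c := 2) (cn := .npp) (n1 := ndF3q1) (n2 := ndF4q0) (pc := pcF2) (cut := Cut.none) (xt := Ext.none) (P1 := 536870912) (W1 := 536870912) (P2 := 0) (W2 := 536870912) (P3 := 67108864) (W3 := 67108864)
    rfl rfl rfl (fun _ => rfl) k0_pm_102

noncomputable def f_pm_112 : ℕ → ℕ → ℕ → ℕ → Bool := onCell 1073741824 536870912 536870912 536870912 67108864 67108864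
    (rowFK 2 true true false .dn 1 1 2 (qsf 536870912 536870912 536870912 536870912 2) ndF3q1 ndF4q1 pcF2 Cut.none Ext.none)

def k0_pm_112 : ∃ t, chk3 f_pm_112 t 1 1 1 = true :=
  ⟨(a (a (a (l 3) (l 3)) (b (a (l 19204128) (l 18963328)) (l 554626581751))) (l 18691048)), by decide +kernel⟩

theorem c_pm_112 : CertF 536870912 536870912 536870912 536870912 67108864 67108864 true true false .dn 1 1 2
    ndF3q1 ndF4q1 pcF2 Cut.none Ext.none :=
  certFK2 (fam := true) (s1 := true) (s2 := false) (a := 1) (b := 1) (c := 2) (cn := .dn) (n1 := ndF3q1) (n2 := ndF4q1) (pc := pcF2) (cut := Cut.none) (xt := Ext.none) (P1 := 536870912) (W1 := 536870912) (P2 := 536870912) (W2 := 536870912) (P3 := 67108864) (W3 := 67108864)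
    rfl rfl rfl (fun _ => rfl) k0_pm_112

noncomputable def f_pm_113 : ℕ → ℕ → ℕ → ℕ → Bool := onCell 536870912 536870912 1610612736 536870912 67108864 67108864
    (rowFK 1 true true false .nn 1 1 3 (qsf 536870912 536870912 536870912 536870912 3) ndF3q1 ndF4q1 pcF3 Cut.none Ext.none)

def k0_pm_113 : ∃ t, chk3 f_pm_113 t 1 1 1 = true :=
  ⟨(a (b (b (l 18249784) (l 17990624)) (b (l 119288312343) (l 2))) (b (l 18009048) (b (l 17430128) (b (l 17179360) (b (l 17041312) (b (l 16977576) (l 16926568))))))), by decide +kernel⟩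

theorem c_pm_113 : CertF 536870912 536870912 536870912 536870912 67108864 67108864 true true false .nn 1 1 3
    ndF3q1 ndF4q1 pcF3 Cut.none Ext.none :=
  certFK1 (fam := true) (s1 := true) (s2 := false) (a := 1) (b := 1) (c := 3) (cn := .nn) (n1 := ndF3q1) (n2 := ndF4q1) (pc := pcF3) (cut := Cut.none) (xt := Ext.none) (P1 := 536870912) (W1 := 536870912) (P2 := 536870912) (W2 := 536870912) (P3 := 67108864) (W3 := 67108864)
    rfl rfl rfl (fun _ => rfl) k0_pm_113

noncomputable def f_pm_123 : ℕ → ℕ → ℕ → ℕ → Bool := onCell 536870912 536870912 1610612736 536870912 67108864 67108864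
    (rowFK 1 true true false .npn 1 2 3 (qsf 536870912 536870912 1073741824 536870912 3) ndF3q1 ndF4q2 pcF3 Cut.none Ext.none)

def k0_pm_123 : ∃ t, chk3 f_pm_123 t 1 1 1 = true :=
  ⟨(b (a (b (l 18396720) (a (l 17764216) (l 17917400))) (l 489663084743)) (b (a (a (l 17269336) (l 17395880)) (a (l 17435976) (l 17597208))) (b (a (l 17067016) (l 17298320)) (a (b (l 16843208) (b (l 16908032) (b (l 16962960) (l 17011720)))) (b (l 16946792) (b (l 16850560) (b (l 16828576) (l 16826112)))))))), by decide +kernel⟩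

theorem c_pm_123 : CertF 536870912 536870912 1073741824 536870912 67108864 67108864 true true false .npn 1 2 3
    ndF3q1 ndF4q2 pcF3 Cut.none Ext.none :=
  certFK1 (fam := true) (s1 := true) (s2 := false) (a := 1) (b := 2) (c := 3) (cn := .npn) (n1 := ndF3q1) (n2 := ndF4q2) (pc := pcF3) (cut := Cut.none) (xt := Ext.none) (P1 := 536870912) (W1 := 536870912) (P2 := 1073741824) (W2 := 536870912) (P3 := 67108864) (W3 := 67108864)
    rfl rfl rfl (fun _ => rfl) k0_pm_123

noncomputable def f_pm_133 : ℕ → ℕ → ℕ → ℕ → Bool := onCell 536870912 536870912 0 1230186008 67108864 67108864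
    (rowFK 0 true true false .dn 1 3 3 (qsf 536870912 536870912 0 1230186008 3) ndF3q1 ndF4q3 pcF3 Cut.none Ext.none)

def k0_pm_133 : ∃ t, chk3 f_pm_133 t 1 1 1 = true :=
  ⟨(b (l 2) (b (l 2) (a (l 4) (l 2)))), by decide +kernel⟩

theorem c_pm_133 : CertF 536870912 536870912 0 1230186008 67108864 67108864 true true false .dn 1 3 3
    ndF3q1 ndF4q3 pcF3 Cut.none Ext.none :=
  certFK0 (fam := true) (s1 := true) (s2 := false) (a := 1) (b := 3) (c := 3) (cn := .dn) (n1 := ndF3q1) (n2 := ndF4q3) (pc := pcF3) (cut := Cut.none) (xt := Ext.none) (P1 := 536870912) (W1 := 536870912) (P2 := 0) (W2 := 1230186008) (P3 := 67108864) (W3 := 67108864)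
    rfl rfl rfl k0_pm_133

noncomputable def f_pm_202 : ℕ → ℕ → ℕ → ℕ → Bool := onCell 1073741824 536870912 0 536870912 67108864 67108864
    (rowFK 2 true true false .pp 2 0 2 (qsf 1073741824 536870912 0 536870912 2) ndF3q2 ndF4q0 pcF2 Cut.none Ext.none)

def k0_pm_202 : ∃ t, chk3 f_pm_202 t 1 1 1 = true :=
  ⟨(a (b (a (a (a (l 19407000) (l 19261512)) (l 19055784)) (l 18688176)) (a (l 1) (l 596502273287))) (b (a (l 18269816) (l 17981040)) (a (l 18631608) (l 18208024)))), by decide +kernel⟩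

theorem c_pm_202 : CertF 1073741824 536870912 0 536870912 67108864 67108864 true true false .pp 2 0 2
    ndF3q2 ndF4q0 pcF2 Cut.none Ext.none :=
  certFK2 (fam := true) (s1 := true) (s2 := false) (a := 2) (b := 0) (c := 2) (cn := .pp) (n1 := ndF3q2) (n2 := ndF4q0) (pc := pcF2) (cut := Cut.none) (xt := Ext.none) (P1 := 1073741824) (W1 := 536870912) (P2 := 0) (W2 := 536870912) (P3 := 67108864) (W3 := 67108864)
    rfl rfl rfl (fun _ => rfl) k0_pm_202

noncomputable def f_pm_203 : ℕ → ℕ → ℕ → ℕ → Bool := onCell 1610612736 536870912 0 536870912 67108864 67108864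
    (rowFK 2 true true false .up 2 0 3 (qsf 1073741824 536870912 0 536870912 3) ndF3q2 ndF4q0 pcF3 Cut.none Ext.none)

def k0_pm_203 : ∃ t, chk3 f_pm_203 t 1 1 1 = true :=
  ⟨(a (b (a (l 17322544) (l 17020592)) (a (l 17299000) (a (l 17367712) (l 17304880)))) (a (b (l 4) (l 16978464)) (a (l 4) (l 4)))), by decide +kernel⟩

theorem c_pm_203 : CertF 1073741824 536870912 0 536870912 67108864 67108864 true true false .up 2 0 3
    ndF3q2 ndF4q0 pcF3 Cut.none Ext.none :=
  certFK2 (fam := true) (s1 := true) (s2 := false) (a := 2) (b := 0) (c := 3) (cn := .up) (n1 := ndF3q2) (n2 := ndF4q0) (pc := pcF3) (cut := Cut.none) (xt := Ext.none) (P1 := 1073741824) (W1 := 536870912) (P2 := 0) (W2 := 536870912) (P3 := 67108864) (W3 := 67108864)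
    rfl rfl rfl (fun _ => rfl) k0_pm_203

noncomputable def f_pm_213 : ℕ → ℕ → ℕ → ℕ → Bool := onCell 1073741824 536870912 1610612736 536870912 67108864 67108864
    (rowFK 1 true true false .pnn 2 1 3 (qsf 1073741824 536870912 536870912 536870912 3) ndF3q2 ndF4q1 pcF3 Cut.none Ext.none)

def k0_pm_213 : ∃ t, chk3 f_pm_213 t 1 1 1 = true :=
  ⟨(a (b (b (l 17290920) (l 17500808)) (b (b (l 17615720) (l 17515000)) (l 4))) (b (b (l 1) (l 194918445383)) (b (l 17012664) (l 4)))), by decide +kernel⟩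

theorem c_pm_213 : CertF 1073741824 536870912 536870912 536870912 67108864 67108864 true true false .pnn 2 1 3
    ndF3q2 ndF4q1 pcF3 Cut.none Ext.none :=
  certFK1 (fam := true) (s1 := true) (s2 := false) (a := 2) (b := 1) (c := 3) (cn := .pnn) (n1 := ndF3q2) (n2 := ndF4q1) (pc := pcF3) (cut := Cut.none) (xt := Ext.none) (P1 := 1073741824) (W1 := 536870912) (P2 := 536870912) (W2 := 536870912) (P3 := 67108864) (W3 := 67108864)
    rfl rfl rfl (fun _ => rfl) k0_pm_213

noncomputable def f_pm_303 : ℕ → ℕ → ℕ → ℕ → Bool := onCell 0 1230186008 1610612736 536870912 67108864 67108864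
    (rowFK 1 true true false .npn 3 0 3 (qsf 0 1230186008 0 536870912 3) ndF3q3 ndF4q0 pcF3 Cut.none Ext.none)

def k0_pm_303 : ∃ t, chk3 f_pm_303 t 1 1 1 = true :=
  ⟨(a (l 4) (b (a (l 4) (b (a (l 1) (l 17312248)) (l 17995392))) (l 4))), by decide +kernel⟩

theorem c_pm_303 : CertF 0 1230186008 0 536870912 67108864 67108864 true true false .npn 3 0 3
    ndF3q3 ndF4q0 pcF3 Cut.none Ext.none :=
  certFK1 (fam := true) (s1 := true) (s2 := false) (a := 3) (b := 0) (c := 3) (cn := .npn) (n1 := ndF3q3) (n2 := ndF4q0) (pc := pcF3) (cut := Cut.none) (xt := Ext.none) (P1 := 0) (W1 := 1230186008) (P2 := 0) (W2 := 536870912) (P3 := 67108864) (W3 := 67108864)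
    rfl rfl rfl (fun _ => rfl) k0_pm_303

noncomputable def f_pm_313 : ℕ → ℕ → ℕ → ℕ → Bool := onCell 0 1230186008 536870912 536870912 67108864 67108864
    (rowFK 0 true true false .dn 3 1 3 (qsf 0 1230186008 536870912 536870912 3) ndF3q3 ndF4q1 pcF3 Cut.none Ext.none)

def k0_pm_313 : ∃ t, chk3 f_pm_313 t 1 1 1 = true :=
  ⟨(a (l 2) (l 4)), by decide +kernel⟩

theorem c_pm_313 : CertF 0 1230186008 536870912 536870912 67108864 67108864 true true false .dn 3 1 3
    ndF3q3 ndF4q1 pcF3 Cut.none Ext.none :=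
  certFK0 (fam := true) (s1 := true) (s2 := false) (a := 3) (b := 1) (c := 3) (cn := .dn) (n1 := ndF3q3) (n2 := ndF4q1) (pc := pcF3) (cut := Cut.none) (xt := Ext.none) (P1 := 0) (W1 := 1230186008) (P2 := 536870912) (W2 := 536870912) (P3 := 67108864) (W3 := 67108864)
    rfl rfl rfl k0_pm_313

noncomputable def f_mm_001 : ℕ → ℕ → ℕ → ℕ → Bool := onCell 0 536870912 0 536870912 67108864 67108864
    (rowFK 0 true false false .up 0 0 1 (qsf 0 536870912 0 536870912 1) ndF3q0 ndF4q0 pcF1 Cut.none Ext.none)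

def k0_mm_001 : ∃ t, chk3 f_mm_001 t 1 1 1 = true :=
  ⟨(l 4), by decide +kernel⟩

theorem c_mm_001 : CertF 0 536870912 0 536870912 67108864 67108864 true false false .up 0 0 1
    ndF3q0 ndF4q0 pcF1 Cut.none Ext.none :=
  certFK0 (fam := true) (s1 := false) (s2 := false) (a := 0) (b := 0) (c := 1) (cn := .up) (n1 := ndF3q0) (n2 := ndF4q0) (pc := pcF1) (cut := Cut.none) (xt := Ext.none) (P1 := 0) (W1 := 536870912) (P2 := 0) (W2 := 536870912) (P3 := 67108864) (W3 := 67108864)
    rfl rfl rfl k0_mm_001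

noncomputable def f_mm_011 : ℕ → ℕ → ℕ → ℕ → Bool := onCell 0 536870912 536870912 536870912 67108864 67108864
    (rowFK 0 true false false .pnn 0 1 1 (qsf 0 536870912 536870912 536870912 1) ndF3q0 ndF4q1 pcF1 Cut.none Ext.none)

def k0_mm_011 : ∃ t, chk3 f_mm_011 t 1 1 1 = true :=
  ⟨(l 4), by decide +kernel⟩

theorem c_mm_011 : CertF 0 536870912 536870912 536870912 67108864 67108864 true false false .pnn 0 1 1
    ndF3q0 ndF4q1 pcF1 Cut.none Ext.none :=
  certFK0 (fam := true) (s1 := false) (s2 := false) (a := 0) (b := 1) (c := 1) (cn := .pnn) (n1 := ndF3q0) (n2 := ndF4q1) (pc := pcF1) (cut := Cut.none) (xt := Ext.none) (P1 := 0) (W1 := 536870912) (P2 := 536870912) (W2 := 536870912) (P3 := 67108864) (W3 := 67108864)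
    rfl rfl rfl k0_mm_011

noncomputable def f_mm_012 : ℕ → ℕ → ℕ → ℕ → Bool := onCell 0 536870912 536870912 536870912 67108864 67108864
    (rowFK 0 true false false .pnp 0 1 2 (qsf 0 536870912 536870912 536870912 2) ndF3q0 ndF4q1 pcF2 Cut.none Ext.none)

def k0_mm_012 : ∃ t, chk3 f_mm_012 t 1 1 1 = true :=
  ⟨(l 4), by decide +kernel⟩

theorem c_mm_012 : CertF 0 536870912 536870912 536870912 67108864 67108864 true false false .pnp 0 1 2
    ndF3q0 ndF4q1 pcF2 Cut.none Ext.none :=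
  certFK0 (fam := true) (s1 := false) (s2 := false) (a := 0) (b := 1) (c := 2) (cn := .pnp) (n1 := ndF3q0) (n2 := ndF4q1) (pc := pcF2) (cut := Cut.none) (xt := Ext.none) (P1 := 0) (W1 := 536870912) (P2 := 536870912) (W2 := 536870912) (P3 := 67108864) (W3 := 67108864)
    rfl rfl rfl k0_mm_012

noncomputable def f_mm_022 : ℕ → ℕ → ℕ → ℕ → Bool := onCell 0 536870912 1073741824 536870912 67108864 67108864
    (rowFK 0 true false false .pp 0 2 2 (qsf 0 536870912 1073741824 536870912 2) ndF3q0 ndF4q2 pcF2 Cut.none Ext.none)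

def k0_mm_022 : ∃ t, chk3 f_mm_022 t 1 1 1 = true :=
  ⟨(l 4), by decide +kernel⟩

theorem c_mm_022 : CertF 0 536870912 1073741824 536870912 67108864 67108864 true false false .pp 0 2 2
    ndF3q0 ndF4q2 pcF2 Cut.none Ext.none :=
  certFK0 (fam := true) (s1 := false) (s2 := false) (a := 0) (b := 2) (c := 2) (cn := .pp) (n1 := ndF3q0) (n2 := ndF4q2) (pc := pcF2) (cut := Cut.none) (xt := Ext.none) (P1 := 0) (W1 := 536870912) (P2 := 1073741824) (W2 := 536870912) (P3 := 67108864) (W3 := 67108864)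
    rfl rfl rfl k0_mm_022

noncomputable def f_mm_023 : ℕ → ℕ → ℕ → ℕ → Bool := onCell 0 536870912 1073741824 536870912 67108864 67108864
    (rowFK 0 true false false .up 0 2 3 (qsf 0 536870912 1073741824 536870912 3) ndF3q0 ndF4q2 pcF3 Cut.none Ext.none)

def k0_mm_023 : ∃ t, chk3 f_mm_023 t 1 1 1 = true :=
  ⟨(l 4), by decide +kernel⟩

theorem c_mm_023 : CertF 0 536870912 1073741824 536870912 67108864 67108864 true false false .up 0 2 3
    ndF3q0 ndF4q2 pcF3 Cut.none Ext.none :=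
  certFK0 (fam := true) (s1 := false) (s2 := false) (a := 0) (b := 2) (c := 3) (cn := .up) (n1 := ndF3q0) (n2 := ndF4q2) (pc := pcF3) (cut := Cut.none) (xt := Ext.none) (P1 := 0) (W1 := 536870912) (P2 := 1073741824) (W2 := 536870912) (P3 := 67108864) (W3 := 67108864)
    rfl rfl rfl k0_mm_023

noncomputable def f_mm_033 : ℕ → ℕ → ℕ → ℕ → Bool := onCell 0 536870912 0 1230186008 67108864 67108864
    (rowFK 0 true false false .pnn 0 3 3 (qsf 0 536870912 0 1230186008 3) ndF3q0 ndF4q3 pcF3 Cut.none Ext.none)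

def k0_mm_033 : ∃ t, chk3 f_mm_033 t 1 1 1 = true :=
  ⟨(l 4), by decide +kernel⟩

theorem c_mm_033 : CertF 0 536870912 0 1230186008 67108864 67108864 true false false .pnn 0 3 3
    ndF3q0 ndF4q3 pcF3 Cut.none Ext.none :=
  certFK0 (fam := true) (s1 := false) (s2 := false) (a := 0) (b := 3) (c := 3) (cn := .pnn) (n1 := ndF3q0) (n2 := ndF4q3) (pc := pcF3) (cut := Cut.none) (xt := Ext.none) (P1 := 0) (W1 := 536870912) (P2 := 0) (W2 := 1230186008) (P3 := 67108864) (W3 := 67108864)
    rfl rfl rfl k0_mm_033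

noncomputable def f_mm_101 : ℕ → ℕ → ℕ → ℕ → Bool := onCell 536870912 536870912 0 536870912 67108864 67108864
    (rowFK 0 true false false .npn 1 0 1 (qsf 536870912 536870912 0 536870912 1) ndF3q1 ndF4q0 pcF1 Cut.none Ext.none)

def k0_mm_101 : ∃ t, chk3 f_mm_101 t 1 1 1 = true :=
  ⟨(l 4), by decide +kernel⟩

theorem c_mm_101 : CertF 536870912 536870912 0 536870912 67108864 67108864 true false false .npn 1 0 1
    ndF3q1 ndF4q0 pcF1 Cut.none Ext.none :=
  certFK0 (fam := true) (s1 := false) (s2 := false) (a := 1) (b := 0) (c := 1) (cn := .npn) (n1 := ndF3q1) (n2 := ndF4q0) (pc := pcF1) (cut := Cut.none) (xt := Ext.none) (P1 := 536870912) (W1 := 536870912) (P2 := 0) (W2 := 536870912) (P3 := 67108864) (W3 := 67108864)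
    rfl rfl rfl k0_mm_101

noncomputable def f_mm_102 : ℕ → ℕ → ℕ → ℕ → Bool := onCell 536870912 536870912 0 536870912 67108864 67108864
    (rowFK 0 true false false .npp 1 0 2 (qsf 536870912 536870912 0 536870912 2) ndF3q1 ndF4q0 pcF2 Cut.none Ext.none)

def k0_mm_102 : ∃ t, chk3 f_mm_102 t 1 1 1 = true :=
  ⟨(l 4), by decide +kernel⟩

theorem c_mm_102 : CertF 536870912 536870912 0 536870912 67108864 67108864 true false false .npp 1 0 2
    ndF3q1 ndF4q0 pcF2 Cut.none Ext.none :=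
  certFK0 (fam := true) (s1 := false) (s2 := false) (a := 1) (b := 0) (c := 2) (cn := .npp) (n1 := ndF3q1) (n2 := ndF4q0) (pc := pcF2) (cut := Cut.none) (xt := Ext.none) (P1 := 536870912) (W1 := 536870912) (P2 := 0) (W2 := 536870912) (P3 := 67108864) (W3 := 67108864)
    rfl rfl rfl k0_mm_102

noncomputable def f_mm_112 : ℕ → ℕ → ℕ → ℕ → Bool := onCell 536870912 536870912 536870912 536870912 67108864 67108864
    (rowFK 0 true false false .dn 1 1 2 (qsf 536870912 536870912 536870912 536870912 2) ndF3q1 ndF4q1 pcF2 Cut.none Ext.none)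

def k0_mm_112 : ∃ t, chk3 f_mm_112 t 1 1 1 = true :=
  ⟨(l 4), by decide +kernel⟩

theorem c_mm_112 : CertF 536870912 536870912 536870912 536870912 67108864 67108864 true false false .dn 1 1 2
    ndF3q1 ndF4q1 pcF2 Cut.none Ext.none :=
  certFK0 (fam := true) (s1 := false) (s2 := false) (a := 1) (b := 1) (c := 2) (cn := .dn) (n1 := ndF3q1) (n2 := ndF4q1) (pc := pcF2) (cut := Cut.none) (xt := Ext.none) (P1 := 536870912) (W1 := 536870912) (P2 := 536870912) (W2 := 536870912) (P3 := 67108864) (W3 := 67108864)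
    rfl rfl rfl k0_mm_112

noncomputable def f_mm_113 : ℕ → ℕ → ℕ → ℕ → Bool := onCell 536870912 536870912 536870912 536870912 67108864 67108864
    (rowFK 0 true false false .nn 1 1 3 (qsf 536870912 536870912 536870912 536870912 3) ndF3q1 ndF4q1 pcF3 Cut.none Ext.none)

def k0_mm_113 : ∃ t, chk3 f_mm_113 t 1 1 1 = true :=
  ⟨(l 4), by decide +kernel⟩

theorem c_mm_113 : CertF 536870912 536870912 536870912 536870912 67108864 67108864 true false false .nn 1 1 3
    ndF3q1 ndF4q1 pcF3 Cut.none Ext.none :=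
  certFK0 (fam := true) (s1 := false) (s2 := false) (a := 1) (b := 1) (c := 3) (cn := .nn) (n1 := ndF3q1) (n2 := ndF4q1) (pc := pcF3) (cut := Cut.none) (xt := Ext.none) (P1 := 536870912) (W1 := 536870912) (P2 := 536870912) (W2 := 536870912) (P3 := 67108864) (W3 := 67108864)
    rfl rfl rfl k0_mm_113

noncomputable def f_mm_123 : ℕ → ℕ → ℕ → ℕ → Bool := onCell 536870912 536870912 1073741824 536870912 67108864 67108864
    (rowFK 0 true false false .npn 1 2 3 (qsf 536870912 536870912 1073741824 536870912 3) ndF3q1 ndF4q2 pcF3 Cut.none Ext.none)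

def k0_mm_123 : ∃ t, chk3 f_mm_123 t 1 1 1 = true :=
  ⟨(l 4), by decide +kernel⟩

theorem c_mm_123 : CertF 536870912 536870912 1073741824 536870912 67108864 67108864 true false false .npn 1 2 3
    ndF3q1 ndF4q2 pcF3 Cut.none Ext.none :=
  certFK0 (fam := true) (s1 := false) (s2 := false) (a := 1) (b := 2) (c := 3) (cn := .npn) (n1 := ndF3q1) (n2 := ndF4q2) (pc := pcF3) (cut := Cut.none) (xt := Ext.none) (P1 := 536870912) (W1 := 536870912) (P2 := 1073741824) (W2 := 536870912) (P3 := 67108864) (W3 := 67108864)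
    rfl rfl rfl k0_mm_123

noncomputable def f_mm_133 : ℕ → ℕ → ℕ → ℕ → Bool := onCell 536870912 536870912 0 1230186008 67108864 67108864
    (rowFK 0 true false false .dn 1 3 3 (qsf 536870912 536870912 0 1230186008 3) ndF3q1 ndF4q3 pcF3 Cut.none Ext.none)

def k0_mm_133 : ∃ t, chk3 f_mm_133 t 1 1 1 = true :=
  ⟨(l 4), by decide +kernel⟩

theorem c_mm_133 : CertF 536870912 536870912 0 1230186008 67108864 67108864 true false false .dn 1 3 3
    ndF3q1 ndF4q3 pcF3 Cut.none Ext.none :=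
  certFK0 (fam := true) (s1 := false) (s2 := false) (a := 1) (b := 3) (c := 3) (cn := .dn) (n1 := ndF3q1) (n2 := ndF4q3) (pc := pcF3) (cut := Cut.none) (xt := Ext.none) (P1 := 536870912) (W1 := 536870912) (P2 := 0) (W2 := 1230186008) (P3 := 67108864) (W3 := 67108864)
    rfl rfl rfl k0_mm_133

noncomputable def f_mm_202 : ℕ → ℕ → ℕ → ℕ → Bool := onCell 1073741824 536870912 0 536870912 67108864 67108864
    (rowFK 0 true false false .pp 2 0 2 (qsf 1073741824 536870912 0 536870912 2) ndF3q2 ndF4q0 pcF2 Cut.none Ext.none)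

def k0_mm_202 : ∃ t, chk3 f_mm_202 t 1 1 1 = true :=
  ⟨(l 4), by decide +kernel⟩

theorem c_mm_202 : CertF 1073741824 536870912 0 536870912 67108864 67108864 true false false .pp 2 0 2
    ndF3q2 ndF4q0 pcF2 Cut.none Ext.none :=
  certFK0 (fam := true) (s1 := false) (s2 := false) (a := 2) (b := 0) (c := 2) (cn := .pp) (n1 := ndF3q2) (n2 := ndF4q0) (pc := pcF2) (cut := Cut.none) (xt := Ext.none) (P1 := 1073741824) (W1 := 536870912) (P2 := 0) (W2 := 536870912) (P3 := 67108864) (W3 := 67108864)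
    rfl rfl rfl k0_mm_202

noncomputable def f_mm_203 : ℕ → ℕ → ℕ → ℕ → Bool := onCell 1073741824 536870912 0 536870912 67108864 67108864
    (rowFK 0 true false false .up 2 0 3 (qsf 1073741824 536870912 0 536870912 3) ndF3q2 ndF4q0 pcF3 Cut.none Ext.none)

def k0_mm_203 : ∃ t, chk3 f_mm_203 t 1 1 1 = true :=
  ⟨(l 4), by decide +kernel⟩

theorem c_mm_203 : CertF 1073741824 536870912 0 536870912 67108864 67108864 true false false .up 2 0 3
    ndF3q2 ndF4q0 pcF3 Cut.none Ext.none :=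
  certFK0 (fam := true) (s1 := false) (s2 := false) (a := 2) (b := 0) (c := 3) (cn := .up) (n1 := ndF3q2) (n2 := ndF4q0) (pc := pcF3) (cut := Cut.none) (xt := Ext.none) (P1 := 1073741824) (W1 := 536870912) (P2 := 0) (W2 := 536870912) (P3 := 67108864) (W3 := 67108864)
    rfl rfl rfl k0_mm_203

noncomputable def f_mm_213 : ℕ → ℕ → ℕ → ℕ → Bool := onCell 1073741824 536870912 536870912 536870912 67108864 67108864
    (rowFK 0 true false false .pnn 2 1 3 (qsf 1073741824 536870912 536870912 536870912 3) ndF3q2 ndF4q1 pcF3 Cut.none Ext.none)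

def k0_mm_213 : ∃ t, chk3 f_mm_213 t 1 1 1 = true :=
  ⟨(l 4), by decide +kernel⟩

theorem c_mm_213 : CertF 1073741824 536870912 536870912 536870912 67108864 67108864 true false false .pnn 2 1 3
    ndF3q2 ndF4q1 pcF3 Cut.none Ext.none :=
  certFK0 (fam := true) (s1 := false) (s2 := false) (a := 2) (b := 1) (c := 3) (cn := .pnn) (n1 := ndF3q2) (n2 := ndF4q1) (pc := pcF3) (cut := Cut.none) (xt := Ext.none) (P1 := 1073741824) (W1 := 536870912) (P2 := 536870912) (W2 := 536870912) (P3 := 67108864) (W3 := 67108864)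
    rfl rfl rfl k0_mm_213

noncomputable def f_mm_303 : ℕ → ℕ → ℕ → ℕ → Bool := onCell 0 1230186008 0 536870912 67108864 67108864
    (rowFK 0 true false false .npn 3 0 3 (qsf 0 1230186008 0 536870912 3) ndF3q3 ndF4q0 pcF3 Cut.none Ext.none)

def k0_mm_303 : ∃ t, chk3 f_mm_303 t 1 1 1 = true :=
  ⟨(l 4), by decide +kernel⟩

theorem c_mm_303 : CertF 0 1230186008 0 536870912 67108864 67108864 true false false .npn 3 0 3
    ndF3q3 ndF4q0 pcF3 Cut.none Ext.none :=
  certFK0 (fam := true) (s1 := false) (s2 := false) (a := 3) (b := 0) (c := 3) (cn := .npn) (n1 := ndF3q3) (n2 := ndF4q0) (pc := pcF3) (cut := Cut.none) (xt := Ext.none) (P1 := 0) (W1 := 1230186008) (P2 := 0) (W2 := 536870912) (P3 := 67108864) (W3 := 67108864)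
    rfl rfl rfl k0_mm_303

noncomputable def f_mm_313 : ℕ → ℕ → ℕ → ℕ → Bool := onCell 0 1230186008 536870912 536870912 67108864 67108864
    (rowFK 0 true false false .dn 3 1 3 (qsf 0 1230186008 536870912 536870912 3) ndF3q3 ndF4q1 pcF3 Cut.none Ext.none)

def k0_mm_313 : ∃ t, chk3 f_mm_313 t 1 1 1 = true :=
  ⟨(l 4), by decide +kernel⟩

theorem c_mm_313 : CertF 0 1230186008 536870912 536870912 67108864 67108864 true false false .dn 3 1 3
    ndF3q3 ndF4q1 pcF3 Cut.none Ext.none :=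
  certFK0 (fam := true) (s1 := false) (s2 := false) (a := 3) (b := 1) (c := 3) (cn := .dn) (n1 := ndF3q3) (n2 := ndF4q1) (pc := pcF3) (cut := Cut.none) (xt := Ext.none) (P1 := 0) (W1 := 1230186008) (P2 := 536870912) (W2 := 536870912) (P3 := 67108864) (W3 := 67108864)
    rfl rfl rfl k0_mm_313

end Pool.Agent.Strip051.G.I1_16_1_8.Tab.C.FA34

namespace Pool.Agent.Strip051.G.I1_16_1_8.Tab.C.FA44

open Pool.Agent.Strip051.PB Pool.Agent.Strip051.PB.T
open Pool.Agent.Strip051.G.I1_16_1_8.Tab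

noncomputable def f_pp_001 : ℕ → ℕ → ℕ → ℕ → Bool := onCell 0 536870912 0 536870912 67108864 67108864
    (rowFK 0 true true true .up 0 0 1 (qsf 0 536870912 0 536870912 1) ndF4q0 ndF4q0 pcF1 Cut.none Ext.none)

def k0_pp_001 : ∃ t, chk3 f_pp_001 t 1 1 1 = true :=
  ⟨(l 4), by decide +kernel⟩

theorem c_pp_001 : CertF 0 536870912 0 536870912 67108864 67108864 true true true .up 0 0 1
    ndF4q0 ndF4q0 pcF1 Cut.none Ext.none :=
  certFK0 (fam := true) (s1 := true) (s2 := true) (a := 0) (b := 0) (c := 1) (cn := .up) (n1 := ndF4q0) (n2 := ndF4q0) (pc := pcF1) (cut := Cut.none) (xt := Ext.none) (P1 := 0) (W1 := 536870912) (P2 := 0) (W2 := 536870912) (P3 := 67108864) (W3 := 67108864)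
    rfl rfl rfl k0_pp_001

noncomputable def f_pp_011 : ℕ → ℕ → ℕ → ℕ → Bool := onCell 0 536870912 536870912 536870912 67108864 67108864
    (rowFK 0 true true true .pnn 0 1 1 (qsf 0 536870912 536870912 536870912 1) ndF4q0 ndF4q1 pcF1 Cut.none Ext.none)

def k0_pp_011 : ∃ t, chk3 f_pp_011 t 1 1 1 = true :=
  ⟨(l 4), by decide +kernel⟩

theorem c_pp_011 : CertF 0 536870912 536870912 536870912 67108864 67108864 true true true .pnn 0 1 1
    ndF4q0 ndF4q1 pcF1 Cut.none Ext.none :=
  certFK0 (fam := true) (s1 := true) (s2 := true) (a := 0) (b := 1) (c := 1) (cn := .pnn) (n1 := ndF4q0) (n2 := ndF4q1) (pc := pcF1) (cut := Cut.none) (xt := Ext.none) (P1 := 0) (W1 := 536870912) (P2 := 536870912) (W2 := 536870912) (P3 := 67108864) (W3 := 67108864)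
    rfl rfl rfl k0_pp_011

noncomputable def f_pp_012 : ℕ → ℕ → ℕ → ℕ → Bool := onCell 0 536870912 536870912 536870912 67108864 67108864
    (rowFK 0 true true true .pnp 0 1 2 (qsf 0 536870912 536870912 536870912 2) ndF4q0 ndF4q1 pcF2 Cut.none Ext.none)

def k0_pp_012 : ∃ t, chk3 f_pp_012 t 1 1 1 = true :=
  ⟨(l 4), by decide +kernel⟩

theorem c_pp_012 : CertF 0 536870912 536870912 536870912 67108864 67108864 true true true .pnp 0 1 2
    ndF4q0 ndF4q1 pcF2 Cut.none Ext.none :=
  certFK0 (fam := true) (s1 := true) (s2 := true) (a := 0) (b := 1) (c := 2) (cn := .pnp) (n1 := ndF4q0) (n2 := ndF4q1) (pc := pcF2) (cut := Cut.none) (xt := Ext.none) (P1 := 0) (W1 := 536870912) (P2 := 536870912) (W2 := 536870912) (P3 := 67108864) (W3 := 67108864)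
    rfl rfl rfl k0_pp_012

noncomputable def f_pp_022 : ℕ → ℕ → ℕ → ℕ → Bool := onCell 0 536870912 1073741824 536870912 67108864 67108864
    (rowFK 0 true true true .pp 0 2 2 (qsf 0 536870912 1073741824 536870912 2) ndF4q0 ndF4q2 pcF2 Cut.none Ext.none)

def k0_pp_022 : ∃ t, chk3 f_pp_022 t 1 1 1 = true :=
  ⟨(l 4), by decide +kernel⟩

theorem c_pp_022 : CertF 0 536870912 1073741824 536870912 67108864 67108864 true true true .pp 0 2 2
    ndF4q0 ndF4q2 pcF2 Cut.none Ext.none :=
  certFK0 (fam := true) (s1 := true) (s2 := true) (a := 0) (b := 2) (c := 2) (cn := .pp) (n1 := ndF4q0) (n2 := ndF4q2) (pc := pcF2) (cut := Cut.none) (xt := Ext.none) (P1 := 0) (W1 := 536870912) (P2 := 1073741824) (W2 := 536870912) (P3 := 67108864) (W3 := 67108864)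
    rfl rfl rfl k0_pp_022

noncomputable def f_pp_023 : ℕ → ℕ → ℕ → ℕ → Bool := onCell 0 536870912 1073741824 536870912 67108864 67108864
    (rowFK 0 true true true .up 0 2 3 (qsf 0 536870912 1073741824 536870912 3) ndF4q0 ndF4q2 pcF3 Cut.none Ext.none)

def k0_pp_023 : ∃ t, chk3 f_pp_023 t 1 1 1 = true :=
  ⟨(l 4), by decide +kernel⟩

theorem c_pp_023 : CertF 0 536870912 1073741824 536870912 67108864 67108864 true true true .up 0 2 3
    ndF4q0 ndF4q2 pcF3 Cut.none Ext.none :=
  certFK0 (fam := true) (s1 := true) (s2 := true) (a := 0) (b := 2) (c := 3) (cn := .up) (n1 := ndF4q0) (n2 := ndF4q2) (pc := pcF3) (cut := Cut.none) (xt := Ext.none) (P1 := 0) (W1 := 536870912) (P2 := 1073741824) (W2 := 536870912) (P3 := 67108864) (W3 := 67108864)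
    rfl rfl rfl k0_pp_023

noncomputable def f_pp_033 : ℕ → ℕ → ℕ → ℕ → Bool := onCell 0 536870912 0 1230186008 67108864 67108864
    (rowFK 0 true true true .pnn 0 3 3 (qsf 0 536870912 0 1230186008 3) ndF4q0 ndF4q3 pcF3 Cut.none Ext.none)

def k0_pp_033 : ∃ t, chk3 f_pp_033 t 1 1 1 = true :=
  ⟨(l 4), by decide +kernel⟩

theorem c_pp_033 : CertF 0 536870912 0 1230186008 67108864 67108864 true true true .pnn 0 3 3
    ndF4q0 ndF4q3 pcF3 Cut.none Ext.none :=
  certFK0 (fam := true) (s1 := true) (s2 := true) (a := 0) (b := 3) (c := 3) (cn := .pnn) (n1 := ndF4q0) (n2 := ndF4q3) (pc := pcF3) (cut := Cut.none) (xt := Ext.none) (P1 := 0) (W1 := 536870912) (P2 := 0) (W2 := 1230186008) (P3 := 67108864) (W3 := 67108864)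
    rfl rfl rfl k0_pp_033

noncomputable def f_pp_101 : ℕ → ℕ → ℕ → ℕ → Bool := onCell 536870912 536870912 0 536870912 67108864 67108864
    (rowFK 0 true true true .npn 1 0 1 (qsf 536870912 536870912 0 536870912 1) ndF4q1 ndF4q0 pcF1 Cut.none Ext.none)

def k0_pp_101 : ∃ t, chk3 f_pp_101 t 1 1 1 = true :=
  ⟨(l 4), by decide +kernel⟩

theorem c_pp_101 : CertF 536870912 536870912 0 536870912 67108864 67108864 true true true .npn 1 0 1
    ndF4q1 ndF4q0 pcF1 Cut.none Ext.none :=
  certFK0 (fam := true) (s1 := true) (s2 := true) (a := 1) (b := 0) (c := 1) (cn := .npn) (n1 := ndF4q1) (n2 := ndF4q0) (pc := pcF1) (cut := Cut.none) (xt := Ext.none) (P1 := 536870912) (W1 := 536870912) (P2 := 0) (W2 := 536870912) (P3 := 67108864) (W3 := 67108864)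
    rfl rfl rfl k0_pp_101

noncomputable def f_pp_102 : ℕ → ℕ → ℕ → ℕ → Bool := onCell 536870912 536870912 0 536870912 67108864 67108864
    (rowFK 0 true true true .npp 1 0 2 (qsf 536870912 536870912 0 536870912 2) ndF4q1 ndF4q0 pcF2 Cut.none Ext.none)

def k0_pp_102 : ∃ t, chk3 f_pp_102 t 1 1 1 = true :=
  ⟨(l 4), by decide +kernel⟩

theorem c_pp_102 : CertF 536870912 536870912 0 536870912 67108864 67108864 true true true .npp 1 0 2
    ndF4q1 ndF4q0 pcF2 Cut.none Ext.none :=
  certFK0 (fam := true) (s1 := true) (s2 := true) (a := 1) (b := 0) (c := 2) (cn := .npp) (n1 := ndF4q1) (n2 := ndF4q0) (pc := pcF2) (cut := Cut.none) (xt := Ext.none) (P1 := 536870912) (W1 := 536870912) (P2 := 0) (W2 := 536870912) (P3 := 67108864) (W3 := 67108864)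
    rfl rfl rfl k0_pp_102

noncomputable def f_pp_112 : ℕ → ℕ → ℕ → ℕ → Bool := onCell 536870912 536870912 536870912 536870912 67108864 67108864
    (rowFK 0 true true true .dn 1 1 2 (qsf 536870912 536870912 536870912 536870912 2) ndF4q1 ndF4q1 pcF2 Cut.none Ext.none)

def k0_pp_112 : ∃ t, chk3 f_pp_112 t 1 1 1 = true :=
  ⟨(l 4), by decide +kernel⟩

theorem c_pp_112 : CertF 536870912 536870912 536870912 536870912 67108864 67108864 true true true .dn 1 1 2
    ndF4q1 ndF4q1 pcF2 Cut.none Ext.none :=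
  certFK0 (fam := true) (s1 := true) (s2 := true) (a := 1) (b := 1) (c := 2) (cn := .dn) (n1 := ndF4q1) (n2 := ndF4q1) (pc := pcF2) (cut := Cut.none) (xt := Ext.none) (P1 := 536870912) (W1 := 536870912) (P2 := 536870912) (W2 := 536870912) (P3 := 67108864) (W3 := 67108864)
    rfl rfl rfl k0_pp_112

noncomputable def f_pp_113 : ℕ → ℕ → ℕ → ℕ → Bool := onCell 536870912 536870912 536870912 536870912 67108864 67108864
    (rowFK 0 true true true .nn 1 1 3 (qsf 536870912 536870912 536870912 536870912 3) ndF4q1 ndF4q1 pcF3 Cut.none Ext.none)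

def k0_pp_113 : ∃ t, chk3 f_pp_113 t 1 1 1 = true :=
  ⟨(l 4), by decide +kernel⟩

theorem c_pp_113 : CertF 536870912 536870912 536870912 536870912 67108864 67108864 true true true .nn 1 1 3
    ndF4q1 ndF4q1 pcF3 Cut.none Ext.none :=
  certFK0 (fam := true) (s1 := true) (s2 := true) (a := 1) (b := 1) (c := 3) (cn := .nn) (n1 := ndF4q1) (n2 := ndF4q1) (pc := pcF3) (cut := Cut.none) (xt := Ext.none) (P1 := 536870912) (W1 := 536870912) (P2 := 536870912) (W2 := 536870912) (P3 := 67108864) (W3 := 67108864)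
    rfl rfl rfl k0_pp_113

noncomputable def f_pp_123 : ℕ → ℕ → ℕ → ℕ → Bool := onCell 536870912 536870912 1073741824 536870912 67108864 67108864
    (rowFK 0 true true true .npn 1 2 3 (qsf 536870912 536870912 1073741824 536870912 3) ndF4q1 ndF4q2 pcF3 Cut.none Ext.none)

def k0_pp_123 : ∃ t, chk3 f_pp_123 t 1 1 1 = true :=
  ⟨(l 4), by decide +kernel⟩

theorem c_pp_123 : CertF 536870912 536870912 1073741824 536870912 67108864 67108864 true true true .npn 1 2 3
    ndF4q1 ndF4q2 pcF3 Cut.none Ext.none :=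
  certFK0 (fam := true) (s1 := true) (s2 := true) (a := 1) (b := 2) (c := 3) (cn := .npn) (n1 := ndF4q1) (n2 := ndF4q2) (pc := pcF3) (cut := Cut.none) (xt := Ext.none) (P1 := 536870912) (W1 := 536870912) (P2 := 1073741824) (W2 := 536870912) (P3 := 67108864) (W3 := 67108864)
    rfl rfl rfl k0_pp_123

noncomputable def f_pp_133 : ℕ → ℕ → ℕ → ℕ → Bool := onCell 536870912 536870912 0 1230186008 67108864 67108864
    (rowFK 0 true true true .dn 1 3 3 (qsf 536870912 536870912 0 1230186008 3) ndF4q1 ndF4q3 pcF3 Cut.none Ext.none)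

def k0_pp_133 : ∃ t, chk3 f_pp_133 t 1 1 1 = true :=
  ⟨(l 4), by decide +kernel⟩

theorem c_pp_133 : CertF 536870912 536870912 0 1230186008 67108864 67108864 true true true .dn 1 3 3
    ndF4q1 ndF4q3 pcF3 Cut.none Ext.none :=
  certFK0 (fam := true) (s1 := true) (s2 := true) (a := 1) (b := 3) (c := 3) (cn := .dn) (n1 := ndF4q1) (n2 := ndF4q3) (pc := pcF3) (cut := Cut.none) (xt := Ext.none) (P1 := 536870912) (W1 := 536870912) (P2 := 0) (W2 := 1230186008) (P3 := 67108864) (W3 := 67108864)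
    rfl rfl rfl k0_pp_133

noncomputable def f_pp_202 : ℕ → ℕ → ℕ → ℕ → Bool := onCell 1073741824 536870912 0 536870912 67108864 67108864
    (rowFK 0 true true true .pp 2 0 2 (qsf 1073741824 536870912 0 536870912 2) ndF4q2 ndF4q0 pcF2 Cut.none Ext.none)

def k0_pp_202 : ∃ t, chk3 f_pp_202 t 1 1 1 = true :=
  ⟨(l 4), by decide +kernel⟩

theorem c_pp_202 : CertF 1073741824 536870912 0 536870912 67108864 67108864 true true true .pp 2 0 2
    ndF4q2 ndF4q0 pcF2 Cut.none Ext.none :=
  certFK0 (fam := true) (s1 := true) (s2 := true) (a := 2) (b := 0) (c := 2) (cn := .pp) (n1 := ndF4q2) (n2 := ndF4q0) (pc := pcF2) (cut := Cut.none) (xt := Ext.none) (P1 := 1073741824) (W1 := 536870912) (P2 := 0) (W2 := 536870912) (P3 := 67108864) (W3 := 67108864)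
    rfl rfl rfl k0_pp_202

noncomputable def f_pp_203 : ℕ → ℕ → ℕ → ℕ → Bool := onCell 1073741824 536870912 0 536870912 67108864 67108864
    (rowFK 0 true true true .up 2 0 3 (qsf 1073741824 536870912 0 536870912 3) ndF4q2 ndF4q0 pcF3 Cut.none Ext.none)

def k0_pp_203 : ∃ t, chk3 f_pp_203 t 1 1 1 = true :=
  ⟨(l 4), by decide +kernel⟩

theorem c_pp_203 : CertF 1073741824 536870912 0 536870912 67108864 67108864 true true true .up 2 0 3
    ndF4q2 ndF4q0 pcF3 Cut.none Ext.none :=
  certFK0 (fam := true) (s1 := true) (s2 := true) (a := 2) (b := 0) (c := 3) (cn := .up) (n1 := ndF4q2) (n2 := ndF4q0) (pc := pcF3) (cut := Cut.none) (xt := Ext.none) (P1 := 1073741824) (W1 := 536870912) (P2 := 0) (W2 := 536870912) (P3 := 67108864) (W3 := 67108864)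
    rfl rfl rfl k0_pp_203

noncomputable def f_pp_213 : ℕ → ℕ → ℕ → ℕ → Bool := onCell 1073741824 536870912 536870912 536870912 67108864 67108864
    (rowFK 0 true true true .pnn 2 1 3 (qsf 1073741824 536870912 536870912 536870912 3) ndF4q2 ndF4q1 pcF3 Cut.none Ext.none)

def k0_pp_213 : ∃ t, chk3 f_pp_213 t 1 1 1 = true :=
  ⟨(l 4), by decide +kernel⟩

theorem c_pp_213 : CertF 1073741824 536870912 536870912 536870912 67108864 67108864 true true true .pnn 2 1 3
    ndF4q2 ndF4q1 pcF3 Cut.none Ext.none :=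
  certFK0 (fam := true) (s1 := true) (s2 := true) (a := 2) (b := 1) (c := 3) (cn := .pnn) (n1 := ndF4q2) (n2 := ndF4q1) (pc := pcF3) (cut := Cut.none) (xt := Ext.none) (P1 := 1073741824) (W1 := 536870912) (P2 := 536870912) (W2 := 536870912) (P3 := 67108864) (W3 := 67108864)
    rfl rfl rfl k0_pp_213

noncomputable def f_pp_303 : ℕ → ℕ → ℕ → ℕ → Bool := onCell 0 1230186008 0 536870912 67108864 67108864
    (rowFK 0 true true true .npn 3 0 3 (qsf 0 1230186008 0 536870912 3) ndF4q3 ndF4q0 pcF3 Cut.none Ext.none)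

def k0_pp_303 : ∃ t, chk3 f_pp_303 t 1 1 1 = true :=
  ⟨(l 4), by decide +kernel⟩

theorem c_pp_303 : CertF 0 1230186008 0 536870912 67108864 67108864 true true true .npn 3 0 3
    ndF4q3 ndF4q0 pcF3 Cut.none Ext.none :=
  certFK0 (fam := true) (s1 := true) (s2 := true) (a := 3) (b := 0) (c := 3) (cn := .npn) (n1 := ndF4q3) (n2 := ndF4q0) (pc := pcF3) (cut := Cut.none) (xt := Ext.none) (P1 := 0) (W1 := 1230186008) (P2 := 0) (W2 := 536870912) (P3 := 67108864) (W3 := 67108864)
    rfl rfl rfl k0_pp_303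

noncomputable def f_pp_313 : ℕ → ℕ → ℕ → ℕ → Bool := onCell 0 1230186008 536870912 536870912 67108864 67108864
    (rowFK 0 true true true .dn 3 1 3 (qsf 0 1230186008 536870912 536870912 3) ndF4q3 ndF4q1 pcF3 Cut.none Ext.none)

def k0_pp_313 : ∃ t, chk3 f_pp_313 t 1 1 1 = true :=
  ⟨(l 4), by decide +kernel⟩

theorem c_pp_313 : CertF 0 1230186008 536870912 536870912 67108864 67108864 true true true .dn 3 1 3
    ndF4q3 ndF4q1 pcF3 Cut.none Ext.none :=
  certFK0 (fam := true) (s1 := true) (s2 := true) (a := 3) (b := 1) (c := 3) (cn := .dn) (n1 := ndF4q3) (n2 := ndF4q1) (pc := pcF3) (cut := Cut.none) (xt := Ext.none) (P1 := 0) (W1 := 1230186008) (P2 := 536870912) (W2 := 536870912) (P3 := 67108864) (W3 := 67108864)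
    rfl rfl rfl k0_pp_313

noncomputable def f_pm_001 : ℕ → ℕ → ℕ → ℕ → Bool := onCell 0 536870912 0 536870912 67108864 67108864
    (rowFK 0 true true false .up 0 0 1 (qsf 0 536870912 0 536870912 1) ndF4q0 ndF4q0 pcF1 Cut.none Ext.none)

def k0_pm_001 : ∃ t, chk3 f_pm_001 t 1 1 1 = true :=
  ⟨(l 3), by decide +kernel⟩

theorem c_pm_001 : CertF 0 536870912 0 536870912 67108864 67108864 true true false .up 0 0 1
    ndF4q0 ndF4q0 pcF1 Cut.none Ext.none :=
  certFK0 (fam := true) (s1 := true) (s2 := false) (a := 0) (b := 0) (c := 1) (cn := .up) (n1 := ndF4q0) (n2 := ndF4q0) (pc := pcF1) (cut := Cut.none) (xt := Ext.none) (P1 := 0) (W1 := 536870912) (P2 := 0) (W2 := 536870912) (P3 := 67108864) (W3 := 67108864)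
    rfl rfl rfl k0_pm_001

noncomputable def f_pm_011 : ℕ → ℕ → ℕ → ℕ → Bool := onCell 0 536870912 536870912 536870912 67108864 67108864
    (rowFK 1 true true false .pnn 0 1 1 (qsf 0 536870912 536870912 536870912 1) ndF4q0 ndF4q1 pcF1 Cut.none Ext.none)

def k0_pm_011 : ∃ t, chk3 f_pm_011 t 1 1 1 = true :=
  ⟨(l 3), by decide +kernel⟩

theorem c_pm_011 : CertF 0 536870912 536870912 536870912 67108864 67108864 true true false .pnn 0 1 1
    ndF4q0 ndF4q1 pcF1 Cut.none Ext.none :=
  certFK1 (fam := true) (s1 := true) (s2 := false) (a := 0) (b := 1) (c := 1) (cn := .pnn) (n1 := ndF4q0) (n2 := ndF4q1) (pc := pcF1) (cut := Cut.none) (xt := Ext.none) (P1 := 0) (W1 := 536870912) (P2 := 536870912) (W2 := 536870912) (P3 := 67108864) (W3 := 67108864)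
    rfl rfl rfl (fun _ => rfl) k0_pm_011

noncomputable def f_pm_012 : ℕ → ℕ → ℕ → ℕ → Bool := onCell 0 536870912 1073741824 536870912 67108864 67108864
    (rowFK 1 true true false .pnp 0 1 2 (qsf 0 536870912 536870912 536870912 2) ndF4q0 ndF4q1 pcF2 Cut.none Ext.none)

def k0_pm_012 : ∃ t, chk3 f_pm_012 t 1 1 1 = true :=
  ⟨(a (b (b (b (l 3) (l 19545280)) (b (a (l 19742752) (l 19436016)) (l 19630144))) (b (l 19760416) (l 2))) (b (b (l 3) (a (l 234248774967) (l 19216240))) (a (l 19555200) (l 18860368)))), by decide +kernel⟩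

theorem c_pm_012 : CertF 0 536870912 536870912 536870912 67108864 67108864 true true false .pnp 0 1 2
    ndF4q0 ndF4q1 pcF2 Cut.none Ext.none :=
  certFK1 (fam := true) (s1 := true) (s2 := false) (a := 0) (b := 1) (c := 2) (cn := .pnp) (n1 := ndF4q0) (n2 := ndF4q1) (pc := pcF2) (cut := Cut.none) (xt := Ext.none) (P1 := 0) (W1 := 536870912) (P2 := 536870912) (W2 := 536870912) (P3 := 67108864) (W3 := 67108864)
    rfl rfl rfl (fun _ => rfl) k0_pm_012

noncomputable def f_pm_022 : ℕ → ℕ → ℕ → ℕ → Bool := onCell 0 536870912 1073741824 536870912 67108864 67108864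
    (rowFK 1 true true false .pp 0 2 2 (qsf 0 536870912 1073741824 536870912 2) ndF4q0 ndF4q2 pcF2 Cut.none Ext.none)

def k0_pm_022 : ∃ t, chk3 f_pm_022 t 1 1 1 = true :=
  ⟨(a (b (b (b (l 3) (l 20049096)) (b (b (b (l 19722600) (a (l 19511512) (l 19687392))) (l 19565264)) (l 19354040))) (b (a (l 18632344) (l 18953376)) (a (l 18092280) (l 18364640)))) (b (b (l 1) (b (l 1) (l 19649584))) (b (a (l 19230032) (l 19343920)) (a (l 18603856) (l 18724520))))), by decide +kernel⟩

theorem c_pm_022 : CertF 0 536870912 1073741824 536870912 67108864 67108864 true true false .pp 0 2 2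
    ndF4q0 ndF4q2 pcF2 Cut.none Ext.none :=
  certFK1 (fam := true) (s1 := true) (s2 := false) (a := 0) (b := 2) (c := 2) (cn := .pp) (n1 := ndF4q0) (n2 := ndF4q2) (pc := pcF2) (cut := Cut.none) (xt := Ext.none) (P1 := 0) (W1 := 536870912) (P2 := 1073741824) (W2 := 536870912) (P3 := 67108864) (W3 := 67108864)
    rfl rfl rfl (fun _ => rfl) k0_pm_022

noncomputable def f_pm_023 : ℕ → ℕ → ℕ → ℕ → Bool := onCell 1610612736 536870912 1073741824 536870912 67108864 67108864
    (rowFK 2 true true false .up 0 2 3 (qsf 0 536870912 1073741824 536870912 3) ndF4q0 ndF4q2 pcF3 Cut.none Ext.none)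

def k0_pm_023 : ∃ t, chk3 f_pm_023 t 1 1 1 = true :=
  ⟨(a (b (a (b (l 18383040) (a (l 18392592) (l 18281400))) (b (b (l 2) (l 17789088)) (l 17922320))) (a (b (b (l 18693920) (l 18417824)) (l 17735392)) (b (l 17659776) (l 17290592)))) (b (a (b (l 2) (l 17425312)) (l 2)) (a (b (l 17239096) (l 17043184)) (a (l 16842688) (a (l 16891584) (b (l 2) (l 4))))))), by decide +kernel⟩

theorem c_pm_023 : CertF 0 536870912 1073741824 536870912 67108864 67108864 true true false .up 0 2 3
    ndF4q0 ndF4q2 pcF3 Cut.none Ext.none :=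
  certFK2 (fam := true) (s1 := true) (s2 := false) (a := 0) (b := 2) (c := 3) (cn := .up) (n1 := ndF4q0) (n2 := ndF4q2) (pc := pcF3) (cut := Cut.none) (xt := Ext.none) (P1 := 0) (W1 := 536870912) (P2 := 1073741824) (W2 := 536870912) (P3 := 67108864) (W3 := 67108864)
    rfl rfl rfl (fun _ => rfl) k0_pm_023

noncomputable def f_pm_033 : ℕ → ℕ → ℕ → ℕ → Bool := onCell 1610612736 536870912 0 1230186008 67108864 67108864
    (rowFK 2 true true false .pnn 0 3 3 (qsf 0 536870912 0 1230186008 3) ndF4q0 ndF4q3 pcF3 Cut.none Ext.none)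

def k0_pm_033 : ∃ t, chk3 f_pm_033 t 1 1 1 = true :=
  ⟨(b (a (l 1) (l 4)) (b (a (a (l 1) (l 17369792)) (l 4)) (a (a (b (l 1) (l 17002856)) (b (l 16872304) (a (l 16915360) (l 16850280)))) (a (b (l 17071144) (l 16823072)) (a (l 17077728) (l 4)))))), by decide +kernel⟩

theorem c_pm_033 : CertF 0 536870912 0 1230186008 67108864 67108864 true true false .pnn 0 3 3
    ndF4q0 ndF4q3 pcF3 Cut.none Ext.none :=
  certFK2 (fam := true) (s1 := true) (s2 := false) (a := 0) (b := 3) (c := 3) (cn := .pnn) (n1 := ndF4q0) (n2 := ndF4q3) (pc := pcF3) (cut := Cut.none) (xt := Ext.none) (P1 := 0) (W1 := 536870912) (P2 := 0) (W2 := 1230186008) (P3 := 67108864) (W3 := 67108864)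
    rfl rfl rfl (fun _ => rfl) k0_pm_033

noncomputable def f_pm_101 : ℕ → ℕ → ℕ → ℕ → Bool := onCell 536870912 536870912 536870912 536870912 67108864 67108864
    (rowFK 1 true true false .npn 1 0 1 (qsf 536870912 536870912 0 536870912 1) ndF4q1 ndF4q0 pcF1 Cut.none Ext.none)

def k0_pm_101 : ∃ t, chk3 f_pm_101 t 1 1 1 = true :=
  ⟨(l 3), by decide +kernel⟩

theorem c_pm_101 : CertF 536870912 536870912 0 536870912 67108864 67108864 true true false .npn 1 0 1
    ndF4q1 ndF4q0 pcF1 Cut.none Ext.none :=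
  certFK1 (fam := true) (s1 := true) (s2 := false) (a := 1) (b := 0) (c := 1) (cn := .npn) (n1 := ndF4q1) (n2 := ndF4q0) (pc := pcF1) (cut := Cut.none) (xt := Ext.none) (P1 := 536870912) (W1 := 536870912) (P2 := 0) (W2 := 536870912) (P3 := 67108864) (W3 := 67108864)
    rfl rfl rfl (fun _ => rfl) k0_pm_101

noncomputable def f_pm_102 : ℕ → ℕ → ℕ → ℕ → Bool := onCell 1073741824 536870912 0 536870912 67108864 67108864
    (rowFK 2 true true false .npp 1 0 2 (qsf 536870912 536870912 0 536870912 2) ndF4q1 ndF4q0 pcF2 Cut.none Ext.none)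

def k0_pm_102 : ∃ t, chk3 f_pm_102 t 1 1 1 = true :=
  ⟨(a (b (a (a (l 3) (l 19545280)) (a (b (l 19742752) (l 19436016)) (l 19630144))) (a (l 3) (b (l 234248774967) (l 19216240)))) (b (a (l 19760416) (l 2)) (b (l 19555200) (l 18860368)))), by decide +kernel⟩

theorem c_pm_102 : CertF 536870912 536870912 0 536870912 67108864 67108864 true true false .npp 1 0 2
    ndF4q1 ndF4q0 pcF2 Cut.none Ext.none :=
  certFK2 (fam := true) (s1 := true) (s2 := false) (a := 1) (b := 0) (c := 2) (cn := .npp) (n1 := ndF4q1) (n2 := ndF4q0) (pc := pcF2) (cut := Cut.none) (xt := Ext.none) (P1 := 536870912) (W1 := 536870912) (P2 := 0) (W2 := 536870912) (P3 := 67108864) (W3 := 67108864)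
    rfl rfl rfl (fun _ => rfl) k0_pm_102

noncomputable def f_pm_112 : ℕ → ℕ → ℕ → ℕ → Bool := onCell 536870912 536870912 1073741824 536870912 67108864 67108864
    (rowFK 1 true true false .dn 1 1 2 (qsf 536870912 536870912 536870912 536870912 2) ndF4q1 ndF4q1 pcF2 Cut.none Ext.none)

def k0_pm_112 : ∃ t, chk3 f_pm_112 t 1 1 1 = true :=
  ⟨(b (b (a (l 3) (l 1)) (b (a (l 18980560) (l 1)) (l 18993320))) (a (l 18578696) (l 18666080))), by decide +kernel⟩

theorem c_pm_112 : CertF 536870912 536870912 536870912 536870912 67108864 67108864 true true false .dn 1 1 2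
    ndF4q1 ndF4q1 pcF2 Cut.none Ext.none :=
  certFK1 (fam := true) (s1 := true) (s2 := false) (a := 1) (b := 1) (c := 2) (cn := .dn) (n1 := ndF4q1) (n2 := ndF4q1) (pc := pcF2) (cut := Cut.none) (xt := Ext.none) (P1 := 536870912) (W1 := 536870912) (P2 := 536870912) (W2 := 536870912) (P3 := 67108864) (W3 := 67108864)
    rfl rfl rfl (fun _ => rfl) k0_pm_112

noncomputable def f_pm_113 : ℕ → ℕ → ℕ → ℕ → Bool := onCell 536870912 536870912 536870912 536870912 67108864 67108864
    (rowFK 0 true true false .nn 1 1 3 (qsf 536870912 536870912 536870912 536870912 3) ndF4q1 ndF4q1 pcF3 Cut.none Ext.none)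

def k0_pm_113 : ∃ t, chk3 f_pm_113 t 1 1 1 = true :=
  ⟨(a (b (l 18812456) (l 18502120)) (b (l 18502120) (a (l 17773040) (b (l 17592640) (a (l 17272992) (b (l 17202248) (a (l 17037752) (b (l 17009592) (a (l 16911080) (b (l 16899096) (a (l 16845104) (l 16814264)))))))))))), by decide +kernel⟩

theorem c_pm_113 : CertF 536870912 536870912 536870912 536870912 67108864 67108864 true true false .nn 1 1 3
    ndF4q1 ndF4q1 pcF3 Cut.none Ext.none :=
  certFK0 (fam := true) (s1 := true) (s2 := false) (a := 1) (b := 1) (c := 3) (cn := .nn) (n1 := ndF4q1) (n2 := ndF4q1) (pc := pcF3) (cut := Cut.none) (xt := Ext.none) (P1 := 536870912) (W1 := 536870912) (P2 := 536870912) (W2 := 536870912) (P3 := 67108864) (W3 := 67108864)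
    rfl rfl rfl k0_pm_113

noncomputable def f_pm_123 : ℕ → ℕ → ℕ → ℕ → Bool := onCell 1610612736 536870912 1073741824 536870912 67108864 67108864
    (rowFK 2 true true false .npn 1 2 3 (qsf 536870912 536870912 1073741824 536870912 3) ndF4q1 ndF4q2 pcF3 Cut.none Ext.none)

def k0_pm_123 : ∃ t, chk3 f_pm_123 t 1 1 1 = true :=
  ⟨(a (b (a (b (l 18418464) (l 18669664)) (b (l 17822144) (l 17885896))) (a (l 1) (b (l 17682240) (l 1)))) (a (b (b (l 17375168) (l 17369080)) (b (l 17278160) (l 17074232))) (b (a (l 17059760) (a (l 16910848) (a (l 16855984) (a (l 16839552) (l 16851592))))) (a (l 16915232) (a (l 16804696) (a (l 16892696) (a (l 16936776) (l 4)))))))), by decide +kernel⟩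

theorem c_pm_123 : CertF 536870912 536870912 1073741824 536870912 67108864 67108864 true true false .npn 1 2 3
    ndF4q1 ndF4q2 pcF3 Cut.none Ext.none :=
  certFK2 (fam := true) (s1 := true) (s2 := false) (a := 1) (b := 2) (c := 3) (cn := .npn) (n1 := ndF4q1) (n2 := ndF4q2) (pc := pcF3) (cut := Cut.none) (xt := Ext.none) (P1 := 536870912) (W1 := 536870912) (P2 := 1073741824) (W2 := 536870912) (P3 := 67108864) (W3 := 67108864)
    rfl rfl rfl (fun _ => rfl) k0_pm_123

noncomputable def f_pm_133 : ℕ → ℕ → ℕ → ℕ → Bool := onCell 536870912 536870912 0 1230186008 67108864 67108864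
    (rowFK 0 true true false .dn 1 3 3 (qsf 536870912 536870912 0 1230186008 3) ndF4q1 ndF4q3 pcF3 Cut.none Ext.none)

def k0_pm_133 : ∃ t, chk3 f_pm_133 t 1 1 1 = true :=
  ⟨(b (l 2) (b (l 2) (l 4))), by decide +kernel⟩

theorem c_pm_133 : CertF 536870912 536870912 0 1230186008 67108864 67108864 true true false .dn 1 3 3
    ndF4q1 ndF4q3 pcF3 Cut.none Ext.none :=
  certFK0 (fam := true) (s1 := true) (s2 := false) (a := 1) (b := 3) (c := 3) (cn := .dn) (n1 := ndF4q1) (n2 := ndF4q3) (pc := pcF3) (cut := Cut.none) (xt := Ext.none) (P1 := 536870912) (W1 := 536870912) (P2 := 0) (W2 := 1230186008) (P3 := 67108864) (W3 := 67108864)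
    rfl rfl rfl k0_pm_133

noncomputable def f_pm_202 : ℕ → ℕ → ℕ → ℕ → Bool := onCell 1073741824 536870912 0 536870912 67108864 67108864
    (rowFK 2 true true false .pp 2 0 2 (qsf 1073741824 536870912 0 536870912 2) ndF4q2 ndF4q0 pcF2 Cut.none Ext.none)

def k0_pm_202 : ∃ t, chk3 f_pm_202 t 1 1 1 = true :=
  ⟨(a (b (a (a (l 3) (l 20049096)) (a (a (a (l 19722600) (b (l 19511512) (l 19687392))) (l 19565264)) (l 19354040))) (a (l 1) (a (l 1) (l 19649584)))) (b (a (b (l 18632344) (l 18953376)) (b (l 18092280) (l 18364640))) (a (b (l 19230032) (l 19343920)) (b (l 18603856) (l 18724520))))), by decide +kernel⟩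

theorem c_pm_202 : CertF 1073741824 536870912 0 536870912 67108864 67108864 true true false .pp 2 0 2
    ndF4q2 ndF4q0 pcF2 Cut.none Ext.none :=
  certFK2 (fam := true) (s1 := true) (s2 := false) (a := 2) (b := 0) (c := 2) (cn := .pp) (n1 := ndF4q2) (n2 := ndF4q0) (pc := pcF2) (cut := Cut.none) (xt := Ext.none) (P1 := 1073741824) (W1 := 536870912) (P2 := 0) (W2 := 536870912) (P3 := 67108864) (W3 := 67108864)
    rfl rfl rfl (fun _ => rfl) k0_pm_202

noncomputable def f_pm_203 : ℕ → ℕ → ℕ → ℕ → Bool := onCell 1073741824 536870912 1610612736 536870912 67108864 67108864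
    (rowFK 1 true true false .up 2 0 3 (qsf 1073741824 536870912 0 536870912 3) ndF4q2 ndF4q0 pcF3 Cut.none Ext.none)

def k0_pm_203 : ∃ t, chk3 f_pm_203 t 1 1 1 = true :=
  ⟨(a (b (b (a (l 18383040) (b (l 18392592) (l 18281400))) (a (a (l 2) (l 17789088)) (l 17922320))) (a (l 2) (b (l 17425312) (l 2)))) (b (b (a (a (l 18693920) (l 18417824)) (l 17735392)) (a (l 17659776) (l 17290592))) (b (a (l 17239096) (l 17043184)) (b (l 16842688) (a (l 2) (b (l 16896848) (l 4))))))), by decide +kernel⟩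

theorem c_pm_203 : CertF 1073741824 536870912 0 536870912 67108864 67108864 true true false .up 2 0 3
    ndF4q2 ndF4q0 pcF3 Cut.none Ext.none :=
  certFK1 (fam := true) (s1 := true) (s2 := false) (a := 2) (b := 0) (c := 3) (cn := .up) (n1 := ndF4q2) (n2 := ndF4q0) (pc := pcF3) (cut := Cut.none) (xt := Ext.none) (P1 := 1073741824) (W1 := 536870912) (P2 := 0) (W2 := 536870912) (P3 := 67108864) (W3 := 67108864)
    rfl rfl rfl (fun _ => rfl) k0_pm_203

noncomputable def f_pm_213 : ℕ → ℕ → ℕ → ℕ → Bool := onCell 1073741824 536870912 1610612736 536870912 67108864 67108864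
    (rowFK 1 true true false .pnn 2 1 3 (qsf 1073741824 536870912 536870912 536870912 3) ndF4q2 ndF4q1 pcF3 Cut.none Ext.none)

def k0_pm_213 : ∃ t, chk3 f_pm_213 t 1 1 1 = true :=
  ⟨(b (a (b (a (l 18418464) (l 18669664)) (a (l 17822144) (l 17885896))) (b (l 1) (a (l 17682240) (l 1)))) (b (a (a (l 17375168) (l 17369080)) (a (l 17278160) (l 17074232))) (a (b (l 17059760) (b (l 16910848) (b (l 16855984) (b (l 16839552) (l 16851592))))) (b (l 16915232) (b (l 16804696) (b (l 16892696) (b (l 16936776) (l 4)))))))), by decide +kernel⟩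

theorem c_pm_213 : CertF 1073741824 536870912 536870912 536870912 67108864 67108864 true true false .pnn 2 1 3
    ndF4q2 ndF4q1 pcF3 Cut.none Ext.none :=
  certFK1 (fam := true) (s1 := true) (s2 := false) (a := 2) (b := 1) (c := 3) (cn := .pnn) (n1 := ndF4q2) (n2 := ndF4q1) (pc := pcF3) (cut := Cut.none) (xt := Ext.none) (P1 := 1073741824) (W1 := 536870912) (P2 := 536870912) (W2 := 536870912) (P3 := 67108864) (W3 := 67108864)
    rfl rfl rfl (fun _ => rfl) k0_pm_213

noncomputable def f_pm_303 : ℕ → ℕ → ℕ → ℕ → Bool := onCell 0 1230186008 1610612736 536870912 67108864 67108864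
    (rowFK 1 true true false .npn 3 0 3 (qsf 0 1230186008 0 536870912 3) ndF4q3 ndF4q0 pcF3 Cut.none Ext.none)

def k0_pm_303 : ∃ t, chk3 f_pm_303 t 1 1 1 = true :=
  ⟨(a (b (l 1) (l 4)) (a (b (b (l 1) (l 17369792)) (l 4)) (b (b (a (l 1) (l 16939944)) (a (l 16872304) (b (l 16915360) (l 16850280)))) (b (a (l 17071144) (l 16823072)) (b (l 17077768) (l 4)))))), by decide +kernel⟩

theorem c_pm_303 : CertF 0 1230186008 0 536870912 67108864 67108864 true true false .npn 3 0 3
    ndF4q3 ndF4q0 pcF3 Cut.none Ext.none :=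
  certFK1 (fam := true) (s1 := true) (s2 := false) (a := 3) (b := 0) (c := 3) (cn := .npn) (n1 := ndF4q3) (n2 := ndF4q0) (pc := pcF3) (cut := Cut.none) (xt := Ext.none) (P1 := 0) (W1 := 1230186008) (P2 := 0) (W2 := 536870912) (P3 := 67108864) (W3 := 67108864)
    rfl rfl rfl (fun _ => rfl) k0_pm_303

noncomputable def f_pm_313 : ℕ → ℕ → ℕ → ℕ → Bool := onCell 0 1230186008 536870912 536870912 67108864 67108864
    (rowFK 0 true true false .dn 3 1 3 (qsf 0 1230186008 536870912 536870912 3) ndF4q3 ndF4q1 pcF3 Cut.none Ext.none)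

def k0_pm_313 : ∃ t, chk3 f_pm_313 t 1 1 1 = true :=
  ⟨(a (l 2) (a (l 2) (l 4))), by decide +kernel⟩

theorem c_pm_313 : CertF 0 1230186008 536870912 536870912 67108864 67108864 true true false .dn 3 1 3
    ndF4q3 ndF4q1 pcF3 Cut.none Ext.none :=
  certFK0 (fam := true) (s1 := true) (s2 := false) (a := 3) (b := 1) (c := 3) (cn := .dn) (n1 := ndF4q3) (n2 := ndF4q1) (pc := pcF3) (cut := Cut.none) (xt := Ext.none) (P1 := 0) (W1 := 1230186008) (P2 := 536870912) (W2 := 536870912) (P3 := 67108864) (W3 := 67108864)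
    rfl rfl rfl k0_pm_313

noncomputable def f_mm_001 : ℕ → ℕ → ℕ → ℕ → Bool := onCell 0 536870912 0 536870912 67108864 67108864
    (rowFK 0 true false false .up 0 0 1 (qsf 0 536870912 0 536870912 1) ndF4q0 ndF4q0 pcF1 Cut.none Ext.none)

def k0_mm_001 : ∃ t, chk3 f_mm_001 t 1 1 1 = true :=
  ⟨(l 4), by decide +kernel⟩

theorem c_mm_001 : CertF 0 536870912 0 536870912 67108864 67108864 true false false .up 0 0 1
    ndF4q0 ndF4q0 pcF1 Cut.none Ext.none :=
  certFK0 (fam := true) (s1 := false) (s2 := false) (a := 0) (b := 0) (c := 1) (cn := .up) (n1 := ndF4q0) (n2 := ndF4q0) (pc := pcF1) (cut := Cut.none) (xt := Ext.none) (P1 := 0) (W1 := 536870912) (P2 := 0) (W2 := 536870912) (P3 := 67108864) (W3 := 67108864)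
    rfl rfl rfl k0_mm_001

noncomputable def f_mm_011 : ℕ → ℕ → ℕ → ℕ → Bool := onCell 0 536870912 536870912 536870912 67108864 67108864
    (rowFK 0 true false false .pnn 0 1 1 (qsf 0 536870912 536870912 536870912 1) ndF4q0 ndF4q1 pcF1 Cut.none Ext.none)

def k0_mm_011 : ∃ t, chk3 f_mm_011 t 1 1 1 = true :=
  ⟨(l 4), by decide +kernel⟩

theorem c_mm_011 : CertF 0 536870912 536870912 536870912 67108864 67108864 true false false .pnn 0 1 1
    ndF4q0 ndF4q1 pcF1 Cut.none Ext.none :=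
  certFK0 (fam := true) (s1 := false) (s2 := false) (a := 0) (b := 1) (c := 1) (cn := .pnn) (n1 := ndF4q0) (n2 := ndF4q1) (pc := pcF1) (cut := Cut.none) (xt := Ext.none) (P1 := 0) (W1 := 536870912) (P2 := 536870912) (W2 := 536870912) (P3 := 67108864) (W3 := 67108864)
    rfl rfl rfl k0_mm_011

noncomputable def f_mm_012 : ℕ → ℕ → ℕ → ℕ → Bool := onCell 0 536870912 536870912 536870912 67108864 67108864
    (rowFK 0 true false false .pnp 0 1 2 (qsf 0 536870912 536870912 536870912 2) ndF4q0 ndF4q1 pcF2 Cut.none Ext.none)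

def k0_mm_012 : ∃ t, chk3 f_mm_012 t 1 1 1 = true :=
  ⟨(l 4), by decide +kernel⟩

theorem c_mm_012 : CertF 0 536870912 536870912 536870912 67108864 67108864 true false false .pnp 0 1 2
    ndF4q0 ndF4q1 pcF2 Cut.none Ext.none :=
  certFK0 (fam := true) (s1 := false) (s2 := false) (a := 0) (b := 1) (c := 2) (cn := .pnp) (n1 := ndF4q0) (n2 := ndF4q1) (pc := pcF2) (cut := Cut.none) (xt := Ext.none) (P1 := 0) (W1 := 536870912) (P2 := 536870912) (W2 := 536870912) (P3 := 67108864) (W3 := 67108864)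
    rfl rfl rfl k0_mm_012

noncomputable def f_mm_022 : ℕ → ℕ → ℕ → ℕ → Bool := onCell 0 536870912 1073741824 536870912 67108864 67108864
    (rowFK 0 true false false .pp 0 2 2 (qsf 0 536870912 1073741824 536870912 2) ndF4q0 ndF4q2 pcF2 Cut.none Ext.none)

def k0_mm_022 : ∃ t, chk3 f_mm_022 t 1 1 1 = true :=
  ⟨(l 4), by decide +kernel⟩

theorem c_mm_022 : CertF 0 536870912 1073741824 536870912 67108864 67108864 true false false .pp 0 2 2
    ndF4q0 ndF4q2 pcF2 Cut.none Ext.none :=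
  certFK0 (fam := true) (s1 := false) (s2 := false) (a := 0) (b := 2) (c := 2) (cn := .pp) (n1 := ndF4q0) (n2 := ndF4q2) (pc := pcF2) (cut := Cut.none) (xt := Ext.none) (P1 := 0) (W1 := 536870912) (P2 := 1073741824) (W2 := 536870912) (P3 := 67108864) (W3 := 67108864)
    rfl rfl rfl k0_mm_022

noncomputable def f_mm_023 : ℕ → ℕ → ℕ → ℕ → Bool := onCell 0 536870912 1073741824 536870912 67108864 67108864
    (rowFK 0 true false false .up 0 2 3 (qsf 0 536870912 1073741824 536870912 3) ndF4q0 ndF4q2 pcF3 Cut.none Ext.none)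

def k0_mm_023 : ∃ t, chk3 f_mm_023 t 1 1 1 = true :=
  ⟨(l 4), by decide +kernel⟩

theorem c_mm_023 : CertF 0 536870912 1073741824 536870912 67108864 67108864 true false false .up 0 2 3
    ndF4q0 ndF4q2 pcF3 Cut.none Ext.none :=
  certFK0 (fam := true) (s1 := false) (s2 := false) (a := 0) (b := 2) (c := 3) (cn := .up) (n1 := ndF4q0) (n2 := ndF4q2) (pc := pcF3) (cut := Cut.none) (xt := Ext.none) (P1 := 0) (W1 := 536870912) (P2 := 1073741824) (W2 := 536870912) (P3 := 67108864) (W3 := 67108864)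
    rfl rfl rfl k0_mm_023

noncomputable def f_mm_033 : ℕ → ℕ → ℕ → ℕ → Bool := onCell 0 536870912 0 1230186008 67108864 67108864
    (rowFK 0 true false false .pnn 0 3 3 (qsf 0 536870912 0 1230186008 3) ndF4q0 ndF4q3 pcF3 Cut.none Ext.none)

def k0_mm_033 : ∃ t, chk3 f_mm_033 t 1 1 1 = true :=
  ⟨(l 4), by decide +kernel⟩

theorem c_mm_033 : CertF 0 536870912 0 1230186008 67108864 67108864 true false false .pnn 0 3 3
    ndF4q0 ndF4q3 pcF3 Cut.none Ext.none :=
  certFK0 (fam := true) (s1 := false) (s2 := false) (a := 0) (b := 3) (c := 3) (cn := .pnn) (n1 := ndF4q0) (n2 := ndF4q3) (pc := pcF3) (cut := Cut.none) (xt := Ext.none) (P1 := 0) (W1 := 536870912) (P2 := 0) (W2 := 1230186008) (P3 := 67108864) (W3 := 67108864)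
    rfl rfl rfl k0_mm_033

noncomputable def f_mm_101 : ℕ → ℕ → ℕ → ℕ → Bool := onCell 536870912 536870912 0 536870912 67108864 67108864
    (rowFK 0 true false false .npn 1 0 1 (qsf 536870912 536870912 0 536870912 1) ndF4q1 ndF4q0 pcF1 Cut.none Ext.none)

def k0_mm_101 : ∃ t, chk3 f_mm_101 t 1 1 1 = true :=
  ⟨(l 4), by decide +kernel⟩

theorem c_mm_101 : CertF 536870912 536870912 0 536870912 67108864 67108864 true false false .npn 1 0 1
    ndF4q1 ndF4q0 pcF1 Cut.none Ext.none :=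
  certFK0 (fam := true) (s1 := false) (s2 := false) (a := 1) (b := 0) (c := 1) (cn := .npn) (n1 := ndF4q1) (n2 := ndF4q0) (pc := pcF1) (cut := Cut.none) (xt := Ext.none) (P1 := 536870912) (W1 := 536870912) (P2 := 0) (W2 := 536870912) (P3 := 67108864) (W3 := 67108864)
    rfl rfl rfl k0_mm_101

noncomputable def f_mm_102 : ℕ → ℕ → ℕ → ℕ → Bool := onCell 536870912 536870912 0 536870912 67108864 67108864
    (rowFK 0 true false false .npp 1 0 2 (qsf 536870912 536870912 0 536870912 2) ndF4q1 ndF4q0 pcF2 Cut.none Ext.none)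

def k0_mm_102 : ∃ t, chk3 f_mm_102 t 1 1 1 = true :=
  ⟨(l 4), by decide +kernel⟩

theorem c_mm_102 : CertF 536870912 536870912 0 536870912 67108864 67108864 true false false .npp 1 0 2
    ndF4q1 ndF4q0 pcF2 Cut.none Ext.none :=
  certFK0 (fam := true) (s1 := false) (s2 := false) (a := 1) (b := 0) (c := 2) (cn := .npp) (n1 := ndF4q1) (n2 := ndF4q0) (pc := pcF2) (cut := Cut.none) (xt := Ext.none) (P1 := 536870912) (W1 := 536870912) (P2 := 0) (W2 := 536870912) (P3 := 67108864) (W3 := 67108864)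
    rfl rfl rfl k0_mm_102

noncomputable def f_mm_112 : ℕ → ℕ → ℕ → ℕ → Bool := onCell 536870912 536870912 536870912 536870912 67108864 67108864
    (rowFK 0 true false false .dn 1 1 2 (qsf 536870912 536870912 536870912 536870912 2) ndF4q1 ndF4q1 pcF2 Cut.none Ext.none)

def k0_mm_112 : ∃ t, chk3 f_mm_112 t 1 1 1 = true :=
  ⟨(l 4), by decide +kernel⟩

theorem c_mm_112 : CertF 536870912 536870912 536870912 536870912 67108864 67108864 true false false .dn 1 1 2
    ndF4q1 ndF4q1 pcF2 Cut.none Ext.none :=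
  certFK0 (fam := true) (s1 := false) (s2 := false) (a := 1) (b := 1) (c := 2) (cn := .dn) (n1 := ndF4q1) (n2 := ndF4q1) (pc := pcF2) (cut := Cut.none) (xt := Ext.none) (P1 := 536870912) (W1 := 536870912) (P2 := 536870912) (W2 := 536870912) (P3 := 67108864) (W3 := 67108864)
    rfl rfl rfl k0_mm_112

noncomputable def f_mm_113 : ℕ → ℕ → ℕ → ℕ → Bool := onCell 536870912 536870912 536870912 536870912 67108864 67108864
    (rowFK 0 true false false .nn 1 1 3 (qsf 536870912 536870912 536870912 536870912 3) ndF4q1 ndF4q1 pcF3 Cut.none Ext.none)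

def k0_mm_113 : ∃ t, chk3 f_mm_113 t 1 1 1 = true :=
  ⟨(l 4), by decide +kernel⟩

theorem c_mm_113 : CertF 536870912 536870912 536870912 536870912 67108864 67108864 true false false .nn 1 1 3
    ndF4q1 ndF4q1 pcF3 Cut.none Ext.none :=
  certFK0 (fam := true) (s1 := false) (s2 := false) (a := 1) (b := 1) (c := 3) (cn := .nn) (n1 := ndF4q1) (n2 := ndF4q1) (pc := pcF3) (cut := Cut.none) (xt := Ext.none) (P1 := 536870912) (W1 := 536870912) (P2 := 536870912) (W2 := 536870912) (P3 := 67108864) (W3 := 67108864)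
    rfl rfl rfl k0_mm_113

noncomputable def f_mm_123 : ℕ → ℕ → ℕ → ℕ → Bool := onCell 536870912 536870912 1073741824 536870912 67108864 67108864
    (rowFK 0 true false false .npn 1 2 3 (qsf 536870912 536870912 1073741824 536870912 3) ndF4q1 ndF4q2 pcF3 Cut.none Ext.none)

def k0_mm_123 : ∃ t, chk3 f_mm_123 t 1 1 1 = true :=
  ⟨(l 4), by decide +kernel⟩

theorem c_mm_123 : CertF 536870912 536870912 1073741824 536870912 67108864 67108864 true false false .npn 1 2 3
    ndF4q1 ndF4q2 pcF3 Cut.none Ext.none :=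
  certFK0 (fam := true) (s1 := false) (s2 := false) (a := 1) (b := 2) (c := 3) (cn := .npn) (n1 := ndF4q1) (n2 := ndF4q2) (pc := pcF3) (cut := Cut.none) (xt := Ext.none) (P1 := 536870912) (W1 := 536870912) (P2 := 1073741824) (W2 := 536870912) (P3 := 67108864) (W3 := 67108864)
    rfl rfl rfl k0_mm_123

noncomputable def f_mm_133 : ℕ → ℕ → ℕ → ℕ → Bool := onCell 536870912 536870912 0 1230186008 67108864 67108864
    (rowFK 0 true false false .dn 1 3 3 (qsf 536870912 536870912 0 1230186008 3) ndF4q1 ndF4q3 pcF3 Cut.none Ext.none)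

def k0_mm_133 : ∃ t, chk3 f_mm_133 t 1 1 1 = true :=
  ⟨(l 4), by decide +kernel⟩

theorem c_mm_133 : CertF 536870912 536870912 0 1230186008 67108864 67108864 true false false .dn 1 3 3
    ndF4q1 ndF4q3 pcF3 Cut.none Ext.none :=
  certFK0 (fam := true) (s1 := false) (s2 := false) (a := 1) (b := 3) (c := 3) (cn := .dn) (n1 := ndF4q1) (n2 := ndF4q3) (pc := pcF3) (cut := Cut.none) (xt := Ext.none) (P1 := 536870912) (W1 := 536870912) (P2 := 0) (W2 := 1230186008) (P3 := 67108864) (W3 := 67108864)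
    rfl rfl rfl k0_mm_133

noncomputable def f_mm_202 : ℕ → ℕ → ℕ → ℕ → Bool := onCell 1073741824 536870912 0 536870912 67108864 67108864
    (rowFK 0 true false false .pp 2 0 2 (qsf 1073741824 536870912 0 536870912 2) ndF4q2 ndF4q0 pcF2 Cut.none Ext.none)

def k0_mm_202 : ∃ t, chk3 f_mm_202 t 1 1 1 = true :=
  ⟨(l 4), by decide +kernel⟩

theorem c_mm_202 : CertF 1073741824 536870912 0 536870912 67108864 67108864 true false false .pp 2 0 2
    ndF4q2 ndF4q0 pcF2 Cut.none Ext.none :=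
  certFK0 (fam := true) (s1 := false) (s2 := false) (a := 2) (b := 0) (c := 2) (cn := .pp) (n1 := ndF4q2) (n2 := ndF4q0) (pc := pcF2) (cut := Cut.none) (xt := Ext.none) (P1 := 1073741824) (W1 := 536870912) (P2 := 0) (W2 := 536870912) (P3 := 67108864) (W3 := 67108864)
    rfl rfl rfl k0_mm_202

noncomputable def f_mm_203 : ℕ → ℕ → ℕ → ℕ → Bool := onCell 1073741824 536870912 0 536870912 67108864 67108864
    (rowFK 0 true false false .up 2 0 3 (qsf 1073741824 536870912 0 536870912 3) ndF4q2 ndF4q0 pcF3 Cut.none Ext.none)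

def k0_mm_203 : ∃ t, chk3 f_mm_203 t 1 1 1 = true :=
  ⟨(l 4), by decide +kernel⟩

theorem c_mm_203 : CertF 1073741824 536870912 0 536870912 67108864 67108864 true false false .up 2 0 3
    ndF4q2 ndF4q0 pcF3 Cut.none Ext.none :=
  certFK0 (fam := true) (s1 := false) (s2 := false) (a := 2) (b := 0) (c := 3) (cn := .up) (n1 := ndF4q2) (n2 := ndF4q0) (pc := pcF3) (cut := Cut.none) (xt := Ext.none) (P1 := 1073741824) (W1 := 536870912) (P2 := 0) (W2 := 536870912) (P3 := 67108864) (W3 := 67108864)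
    rfl rfl rfl k0_mm_203

noncomputable def f_mm_213 : ℕ → ℕ → ℕ → ℕ → Bool := onCell 1073741824 536870912 536870912 536870912 67108864 67108864
    (rowFK 0 true false false .pnn 2 1 3 (qsf 1073741824 536870912 536870912 536870912 3) ndF4q2 ndF4q1 pcF3 Cut.none Ext.none)

def k0_mm_213 : ∃ t, chk3 f_mm_213 t 1 1 1 = true :=
  ⟨(l 4), by decide +kernel⟩

theorem c_mm_213 : CertF 1073741824 536870912 536870912 536870912 67108864 67108864 true false false .pnn 2 1 3
    ndF4q2 ndF4q1 pcF3 Cut.none Ext.none :=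
  certFK0 (fam := true) (s1 := false) (s2 := false) (a := 2) (b := 1) (c := 3) (cn := .pnn) (n1 := ndF4q2) (n2 := ndF4q1) (pc := pcF3) (cut := Cut.none) (xt := Ext.none) (P1 := 1073741824) (W1 := 536870912) (P2 := 536870912) (W2 := 536870912) (P3 := 67108864) (W3 := 67108864)
    rfl rfl rfl k0_mm_213

noncomputable def f_mm_303 : ℕ → ℕ → ℕ → ℕ → Bool := onCell 0 1230186008 0 536870912 67108864 67108864
    (rowFK 0 true false false .npn 3 0 3 (qsf 0 1230186008 0 536870912 3) ndF4q3 ndF4q0 pcF3 Cut.none Ext.none)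

def k0_mm_303 : ∃ t, chk3 f_mm_303 t 1 1 1 = true :=
  ⟨(l 4), by decide +kernel⟩

theorem c_mm_303 : CertF 0 1230186008 0 536870912 67108864 67108864 true false false .npn 3 0 3
    ndF4q3 ndF4q0 pcF3 Cut.none Ext.none :=
  certFK0 (fam := true) (s1 := false) (s2 := false) (a := 3) (b := 0) (c := 3) (cn := .npn) (n1 := ndF4q3) (n2 := ndF4q0) (pc := pcF3) (cut := Cut.none) (xt := Ext.none) (P1 := 0) (W1 := 1230186008) (P2 := 0) (W2 := 536870912) (P3 := 67108864) (W3 := 67108864)
    rfl rfl rfl k0_mm_303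

noncomputable def f_mm_313 : ℕ → ℕ → ℕ → ℕ → Bool := onCell 0 1230186008 536870912 536870912 67108864 67108864
    (rowFK 0 true false false .dn 3 1 3 (qsf 0 1230186008 536870912 536870912 3) ndF4q3 ndF4q1 pcF3 Cut.none Ext.none)

def k0_mm_313 : ∃ t, chk3 f_mm_313 t 1 1 1 = true :=
  ⟨(l 4), by decide +kernel⟩

theorem c_mm_313 : CertF 0 1230186008 536870912 536870912 67108864 67108864 true false false .dn 3 1 3
    ndF4q3 ndF4q1 pcF3 Cut.none Ext.none :=
  certFK0 (fam := true) (s1 := false) (s2 := false) (a := 3) (b := 1) (c := 3) (cn := .dn) (n1 := ndF4q3) (n2 := ndF4q1) (pc := pcF3) (cut := Cut.none) (xt := Ext.none) (P1 := 0) (W1 := 1230186008) (P2 := 536870912) (W2 := 536870912) (P3 := 67108864) (W3 := 67108864)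
    rfl rfl rfl k0_mm_313

end Pool.Agent.Strip051.G.I1_16_1_8.Tab.C.FA44

namespace Pool.Agent.Strip051.G.I1_16_1_8.Tab.C.FB00

open Pool.Agent.Strip051.PB Pool.Agent.Strip051.PB.T
open Pool.Agent.Strip051.G.I1_16_1_8.Tab

noncomputable def cut_pp_001 : Cut := Cut.of [[⟨3, 0, 0, 1449551462⟩], [⟨4, 0, 0, 2845415833⟩]]

noncomputable def f_pp_001 : ℕ → ℕ → ℕ → ℕ → Bool := onCell 0 536870912 536870912 536870912 67108864 67108864
    (rowFK 0 false true true .up 0 0 1 (qsf 0 536870912 536870912 536870912 0) ndF0q0 ndF0q1 pcF0 cut_pp_001 Ext.none)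

def k0_pp_001 : ∃ t, chk3 f_pp_001 t 1 1 1 = true :=
  ⟨(l 6), by decide +kernel⟩

theorem c_pp_001 : CertF 0 536870912 536870912 536870912 67108864 67108864 false true true .up 0 0 1
    ndF0q0 ndF0q1 pcF0 cut_pp_001 Ext.none :=
  certFK0 (fam := false) (s1 := true) (s2 := true) (a := 0) (b := 0) (c := 1) (cn := .up) (n1 := ndF0q0) (n2 := ndF0q1) (pc := pcF0) (cut := cut_pp_001) (xt := Ext.none) (P1 := 0) (W1 := 536870912) (P2 := 536870912) (W2 := 536870912) (P3 := 67108864) (W3 := 67108864)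
    rfl rfl rfl k0_pp_001

noncomputable def cut_pp_011 : Cut := Cut.of [[⟨3, 0, 0, 1449551462⟩], [⟨4, 0, 0, 2845415833⟩], [⟨0, 0, 0, 67108864⟩, ⟨1, 1, 0, 67108864⟩, ⟨2, 1, 0, 67108864⟩]]

noncomputable def f_pp_011 : ℕ → ℕ → ℕ → ℕ → Bool := onCell 0 536870912 536870912 536870912 67108864 67108864
    (rowFK 0 false true true .pnn 0 1 1 (qsf 0 536870912 536870912 536870912 1) ndF0q0 ndF0q1 pcF1 cut_pp_011 Ext.none)

def k0_pp_011 : ∃ t, chk3 f_pp_011 t 1 1 1 = true :=
  ⟨(l 6), by decide +kernel⟩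

theorem c_pp_011 : CertF 0 536870912 536870912 536870912 67108864 67108864 false true true .pnn 0 1 1
    ndF0q0 ndF0q1 pcF1 cut_pp_011 Ext.none :=
  certFK0 (fam := false) (s1 := true) (s2 := true) (a := 0) (b := 1) (c := 1) (cn := .pnn) (n1 := ndF0q0) (n2 := ndF0q1) (pc := pcF1) (cut := cut_pp_011) (xt := Ext.none) (P1 := 0) (W1 := 536870912) (P2 := 536870912) (W2 := 536870912) (P3 := 67108864) (W3 := 67108864)
    rfl rfl rfl k0_pp_011

noncomputable def cut_pp_012 : Cut := Cut.of [[⟨3, 0, 0, 1449551462⟩], [⟨4, 0, 0, 2845415833⟩], [⟨0, 0, 0, 16777216⟩, ⟨1, 1, 0, 16777216⟩, ⟨2, 1, 0, 16777216⟩]]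

noncomputable def f_pp_012 : ℕ → ℕ → ℕ → ℕ → Bool := onCell 536870912 536870912 0 536870912 67108864 67108864
    (rowFK 2 false true true .pnp 0 1 2 (qsf 0 536870912 0 536870912 1) ndF0q0 ndF0q2 pcF1 cut_pp_012 Ext.none)

def k0_pp_012 : ∃ t, chk3 f_pp_012 t 1 1 1 = true :=
  ⟨(a (l 6) (b (a (b (a (b (l 17053672) (l 6)) (b (l 17252112) (l 17162392))) (l 6)) (b (a (a (l 17388224) (l 17517624)) (a (b (l 17682912) (l 17592944)) (b (l 17750512) (l 17493536)))) (a (b (a (l 6) (l 17361872)) (l 6)) (a (b (l 17478232) (l 6)) (b (a (l 17530360) (l 17398416)) (a (b (l 17415656) (l 6)) (b (l 17390224) (l 17025128)))))))) (l 6))), by decide +kernel⟩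

theorem c_pp_012 : CertF 0 536870912 0 536870912 67108864 67108864 false true true .pnp 0 1 2
    ndF0q0 ndF0q2 pcF1 cut_pp_012 Ext.none :=
  certFK2 (fam := false) (s1 := true) (s2 := true) (a := 0) (b := 1) (c := 2) (cn := .pnp) (n1 := ndF0q0) (n2 := ndF0q2) (pc := pcF1) (cut := cut_pp_012) (xt := Ext.none) (P1 := 0) (W1 := 536870912) (P2 := 0) (W2 := 536870912) (P3 := 67108864) (W3 := 67108864)
    rfl rfl rfl (fun _ => rfl) k0_pp_012

noncomputable def cut_pp_022 : Cut := Cut.of [[⟨3, 0, 0, 1449551462⟩], [⟨4, 0, 0, 2845415833⟩], [⟨0, 0, 0, 67108864⟩, ⟨1, 1, 0, 67108864⟩, ⟨2, 1, 0, 67108864⟩]]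

noncomputable def f_pp_022 : ℕ → ℕ → ℕ → ℕ → Bool := onCell 0 536870912 0 536870912 67108864 67108864
    (rowFK 0 false true true .pp 0 2 2 (qsf 0 536870912 0 536870912 2) ndF0q0 ndF0q2 pcF2 cut_pp_022 Ext.none)

def k0_pp_022 : ∃ t, chk3 f_pp_022 t 1 1 1 = true :=
  ⟨(a (b (a (a (b (a (c (l 18448168) (b (l 17626168) (b (l 17714384) (l 17559272)))) (b (l 17941264) (a (l 17839864) (l 17887808)))) (a (b (c (l 18305208) (a (b (b (l 17479088) (l 17596704)) (l 17375864)) (a (l 17318032) (l 17472104)))) (c (b (l 18161928) (l 18021256)) (a (b (l 17132048) (a (l 17105248) (l 17112600))) (b (l 17271280) (l 17064288))))) (a (c (b (l 18198320) (l 17973280)) (b (l 17422064) (b (l 17206728) (l 17005800)))) (b (l 17598360) (b (l 17518768) (l 17138592)))))) (b (a (b (l 17944320) (c (l 18198136) (l 17461632))) (b (l 17880368) (a (l 17761992) (l 17725896)))) (a (b (a (l 17580936) (b (l 17685816) (l 17582320))) (a (b (l 17502424) (c (l 17757560) (l 16768152))) (b (c (l 17844744)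 (l 17059656)) (a (l 17155192) (l 17284352))))) (b (a (a (l 17578048) (l 17580088)) (l 17554536)) (b (l 17376912) (a (l 17260608) (l 40299297335))))))) (a (a (b (b (l 17840736) (b (l 17728104) (l 17651816))) (a (b (l 17446544) (b (l 58016301975) (l 219077830087))) (b (l 215319787383) (l 1)))) (b (b (l 1) (l 1)) (l 1))) (l 1))) (a (b (b (b (a (a (c (a (l 17873464) (l 17787776)) (a (l 16763336) (l 16791512))) (a (c (l 17707912) (l 16744984)) (b (l 17148792) (l 16919896)))) (a (a (a (b (l 17196520) (l 17077104)) (b (l 17175264) (l 17060360))) (l 17032288)) (l 6))) (a (b (a (a (c (l 17685088) (l 16735328)) (l 16876304)) (a (l 16864544) (l 16757560))) (a (a (l 16747752) (l 16777784)) (a (l 16755208) (l 6)))) (l 6))) (a (a (b (a (b (l 16725976) (l 6)) (l 6)) (l 6)) (l 6)) (l 6))) (l 6)) (l 6))) (l 1)), by decide +kernel⟩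

theorem c_pp_022 : CertF 0 536870912 0 536870912 67108864 67108864 false true true .pp 0 2 2
    ndF0q0 ndF0q2 pcF2 cut_pp_022 Ext.none :=
  certFK0 (fam := false) (s1 := true) (s2 := true) (a := 0) (b := 2) (c := 2) (cn := .pp) (n1 := ndF0q0) (n2 := ndF0q2) (pc := pcF2) (cut := cut_pp_022) (xt := Ext.none) (P1 := 0) (W1 := 536870912) (P2 := 0) (W2 := 536870912) (P3 := 67108864) (W3 := 67108864)
    rfl rfl rfl k0_pp_022

noncomputable def cut_pp_101 : Cut := Cut.of [[⟨3, 0, 0, 1449551462⟩], [⟨4, 0, 0, 2845415833⟩]]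

noncomputable def f_pp_101 : ℕ → ℕ → ℕ → ℕ → Bool := onCell 536870912 536870912 536870912 536870912 67108864 67108864
    (rowFK 0 false true true .npn 1 0 1 (qsf 536870912 536870912 536870912 536870912 0) ndF0q1 ndF0q1 pcF0 cut_pp_101 Ext.none)

def k0_pp_101 : ∃ t, chk3 f_pp_101 t 1 1 1 = true :=
  ⟨(l 3), by decide +kernel⟩

theorem c_pp_101 : CertF 536870912 536870912 536870912 536870912 67108864 67108864 false true true .npn 1 0 1
    ndF0q1 ndF0q1 pcF0 cut_pp_101 Ext.none :=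
  certFK0 (fam := false) (s1 := true) (s2 := true) (a := 1) (b := 0) (c := 1) (cn := .npn) (n1 := ndF0q1) (n2 := ndF0q1) (pc := pcF0) (cut := cut_pp_101) (xt := Ext.none) (P1 := 536870912) (W1 := 536870912) (P2 := 536870912) (W2 := 536870912) (P3 := 67108864) (W3 := 67108864)
    rfl rfl rfl k0_pp_101

noncomputable def cut_pp_102 : Cut := Cut.of [[⟨3, 0, 0, 1449551462⟩], [⟨4, 0, 0, 2845415833⟩]]

noncomputable def f_pp_102 : ℕ → ℕ → ℕ → ℕ → Bool := onCell 536870912 536870912 0 536870912 67108864 67108864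
    (rowFK 0 false true true .npp 1 0 2 (qsf 536870912 536870912 0 536870912 0) ndF0q1 ndF0q2 pcF0 cut_pp_102 Ext.none)

def k0_pp_102 : ∃ t, chk3 f_pp_102 t 1 1 1 = true :=
  ⟨(a (l 6) (l 3)), by decide +kernel⟩

theorem c_pp_102 : CertF 536870912 536870912 0 536870912 67108864 67108864 false true true .npp 1 0 2
    ndF0q1 ndF0q2 pcF0 cut_pp_102 Ext.none :=
  certFK0 (fam := false) (s1 := true) (s2 := true) (a := 1) (b := 0) (c := 2) (cn := .npp) (n1 := ndF0q1) (n2 := ndF0q2) (pc := pcF0) (cut := cut_pp_102) (xt := Ext.none) (P1 := 536870912) (W1 := 536870912) (P2 := 0) (W2 := 536870912) (P3 := 67108864) (W3 := 67108864)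
    rfl rfl rfl k0_pp_102

noncomputable def cut_pp_112 : Cut := Cut.of [[⟨3, 0, 0, 1449551462⟩], [⟨4, 0, 0, 2845415833⟩]]

noncomputable def f_pp_112 : ℕ → ℕ → ℕ → ℕ → Bool := onCell 536870912 536870912 0 536870912 67108864 67108864
    (rowFK 0 false true true .dn 1 1 2 (qsf 536870912 536870912 0 536870912 1) ndF0q1 ndF0q2 pcF1 cut_pp_112 Ext.none)

def k0_pp_112 : ∃ t, chk3 f_pp_112 t 1 1 1 = true :=
  ⟨(a (l 6) (l 1)), by decide +kernel⟩

theorem c_pp_112 : CertF 536870912 536870912 0 536870912 67108864 67108864 false true true .dn 1 1 2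
    ndF0q1 ndF0q2 pcF1 cut_pp_112 Ext.none :=
  certFK0 (fam := false) (s1 := true) (s2 := true) (a := 1) (b := 1) (c := 2) (cn := .dn) (n1 := ndF0q1) (n2 := ndF0q2) (pc := pcF1) (cut := cut_pp_112) (xt := Ext.none) (P1 := 536870912) (W1 := 536870912) (P2 := 0) (W2 := 536870912) (P3 := 67108864) (W3 := 67108864)
    rfl rfl rfl k0_pp_112

noncomputable def cut_pp_202 : Cut := Cut.of [[⟨3, 0, 0, 1449551462⟩], [⟨4, 0, 0, 2845415833⟩]]

noncomputable def f_pp_202 : ℕ → ℕ → ℕ → ℕ → Bool := onCell 0 536870912 0 536870912 67108864 67108864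
    (rowFK 0 false true true .pp 2 0 2 (qsf 0 536870912 0 536870912 0) ndF0q2 ndF0q2 pcF0 cut_pp_202 Ext.none)

def k0_pp_202 : ∃ t, chk3 f_pp_202 t 1 1 1 = true :=
  ⟨(l 3), by decide +kernel⟩

theorem c_pp_202 : CertF 0 536870912 0 536870912 67108864 67108864 false true true .pp 2 0 2
    ndF0q2 ndF0q2 pcF0 cut_pp_202 Ext.none :=
  certFK0 (fam := false) (s1 := true) (s2 := true) (a := 2) (b := 0) (c := 2) (cn := .pp) (n1 := ndF0q2) (n2 := ndF0q2) (pc := pcF0) (cut := cut_pp_202) (xt := Ext.none) (P1 := 0) (W1 := 536870912) (P2 := 0) (W2 := 536870912) (P3 := 67108864) (W3 := 67108864)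
    rfl rfl rfl k0_pp_202

noncomputable def cut_pm_001 : Cut := Cut.of [[⟨3, 0, 0, 1449551462⟩], [⟨4, 0, 0, 2845415833⟩]]

noncomputable def f_pm_001 : ℕ → ℕ → ℕ → ℕ → Bool := onCell 0 536870912 0 536870912 67108864 67108864
    (rowFK 1 false true false .up 0 0 1 (qsf 0 536870912 536870912 536870912 0) ndF0q0 ndF0q1 pcF0 cut_pm_001 Ext.none)

def k0_pm_001 : ∃ t, chk3 f_pm_001 t 1 1 1 = true :=
  ⟨(a (l 4) (b (l 14) (a (l 14) (b (b (l 14) (a (l 14) (a (l 14) (l 17407776)))) (b (a (a (l 14) (b (l 14) (l 17149520))) (a (l 17409696) (b (l 17274888) (l 17468624)))) (b (a (a (l 14) (l 17317616)) (a (b (l 17338088) (b (l 17440456) (l 17606920))) (a (l 17640464) (b (l 17363664) (l 17379808))))) (a (a (a (l 14) (b (l 17260880) (l 17431376))) (a (b (l 17363784) (l 17510832)) (a (l 17689728) (b (l 17498720) (l 17671416))))) (a (a (b (l 17638768) (a (l 17733488) (l 17752400))) (b (b (l 17603040) (l 17678680)) (l 17547168))) (b (l 17689128) (a (l 17591952) (l 17907824))))))))))),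 by decide +kernel⟩

theorem c_pm_001 : CertF 0 536870912 536870912 536870912 67108864 67108864 false true false .up 0 0 1
    ndF0q0 ndF0q1 pcF0 cut_pm_001 Ext.none :=
  certFK1 (fam := false) (s1 := true) (s2 := false) (a := 0) (b := 0) (c := 1) (cn := .up) (n1 := ndF0q0) (n2 := ndF0q1) (pc := pcF0) (cut := cut_pm_001) (xt := Ext.none) (P1 := 0) (W1 := 536870912) (P2 := 536870912) (W2 := 536870912) (P3 := 67108864) (W3 := 67108864)
    rfl rfl rfl (fun _ => rfl) k0_pm_001

noncomputable def cut_pm_011 : Cut := Cut.of [[⟨3, 0, 0, 1449551462⟩], [⟨4, 0, 0, 2845415833⟩], [⟨0, 0, 0, 25165824⟩, ⟨1, 1, 0, 25165824⟩, ⟨2, 1, 0, 25165824⟩], [⟨0, 0, 1, 33554432⟩, ⟨1, 1, 2, 33554432⟩, ⟨2, 1, 0, 8388608⟩, ⟨0, 0, 0, 150994944⟩, ⟨0, 1, 0, 1023410176⟩, ⟨1, 0, 0, 1023410176⟩, ⟨1, 1, 0, 150994944⟩]]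

noncomputable def f_pm_011 : ℕ → ℕ → ℕ → ℕ → Bool := onCell 536870912 536870912 536870912 536870912 67108864 67108864
    (rowFK 2 false true false .pnn 0 1 1 (qsf 0 536870912 536870912 536870912 1) ndF0q0 ndF0q1 pcF1 cut_pm_011 Ext.none)

def k0_pm_011 : ∃ t, chk3 f_pm_011 t 1 1 1 = true :=
  ⟨(b (l 4) (b (l 14) (a (a (b (a (b (a (l 17434152) (l 14)) (a (b (l 17634872) (l 17755760)) (l 17623016))) (b (l 14) (a (l 17540096) (l 17346120)))) (b (a (b (b (a (l 17785544) (c (l 17828136) (l 17866048))) (l 17914304)) (b (l 17689824) (l 17428648))) (b (a (b (l 17710016) (c (l 17777880) (l 17838800))) (b (l 17639880) (a (l 17702824) (l 17678368)))) (a (a (l 17673128) (l 17606960)) (b (l 17634408) (l 17539144))))) (a (b (b (l 17434520) (l 17693720)) (b (l 17975016) (l 18277352))) (b (b (l 17542176) (l 17699952)) (b (l 17949808) (a (l 18244880) (l 18191760))))))) (b (l 14) (a (b (b (a (a (l 17607288) (l 17571440)) (l 14)) (a (b (a (l 17644800) (l 17683720)) (l 17569432))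 (b (a (a (l 17630648) (l 17617592)) (l 14)) (l 17582224)))) (b (a (b (l 17482272) (l 17513968)) (b (l 17629256) (l 17446352))) (b (a (l 17795432) (l 17695320)) (a (l 18110344) (l 18001472))))) (b (a (a (b (l 14) (b (l 14) (l 17577512))) (l 14)) (l 14)) (b (a (b (l 17544256) (l 17504624)) (b (l 14) (a (l 17530624) (l 14)))) (b (a (l 17584160) (l 17535640)) (a (l 17972136) (l 17881968)))))))) (b (l 14) (a (a (b (l 14) (b (l 14) (a (b (a (l 17550064) (l 14)) (l 17806768)) (l 14)))) (l 14)) (l 14)))))), by decide +kernel⟩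

theorem c_pm_011 : CertF 0 536870912 536870912 536870912 67108864 67108864 false true false .pnn 0 1 1
    ndF0q0 ndF0q1 pcF1 cut_pm_011 Ext.none :=
  certFK2 (fam := false) (s1 := true) (s2 := false) (a := 0) (b := 1) (c := 1) (cn := .pnn) (n1 := ndF0q0) (n2 := ndF0q1) (pc := pcF1) (cut := cut_pm_011) (xt := Ext.none) (P1 := 0) (W1 := 536870912) (P2 := 536870912) (W2 := 536870912) (P3 := 67108864) (W3 := 67108864)
    rfl rfl rfl (fun _ => rfl) k0_pm_011

noncomputable def cut_pm_012 : Cut := Cut.of [[⟨3, 0, 0, 1449551462⟩], [⟨4, 0, 0, 2845415833⟩], [⟨0, 0, 0, 67108864⟩, ⟨1, 1, 0, 67108864⟩, ⟨2, 1, 0, 67108864⟩], [⟨0, 0, 1, 33554432⟩, ⟨1, 1, 2, 33554432⟩, ⟨2, 1, 0, 8388608⟩, ⟨0, 0, 0, 150994944⟩, ⟨0, 1, 0, 1023410176⟩, ⟨1, 0, 0, 1023410176⟩, ⟨1, 1, 0, 150994944⟩]]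

noncomputable def f_pm_012 : ℕ → ℕ → ℕ → ℕ → Bool := onCell 536870912 536870912 0 536870912 67108864 67108864
    (rowFK 2 false true false .pnp 0 1 2 (qsf 0 536870912 0 536870912 1) ndF0q0 ndF0q2 pcF1 cut_pm_012 Ext.none)

def k0_pm_012 : ∃ t, chk3 f_pm_012 t 2 1 1 = true :=
  ⟨(b (a (b (l 2) (a (l 2) (l 454831756727))) (b (a (b (l 6) (l 17130240)) (b (l 17063128) (l 17190872))) (a (l 17519616) (l 17424128)))) (b (a (a (l 2) (b (l 17532048) (l 17736128))) (a (b (l 17621944) (l 17772400)) (l 17878176))) (a (b (a (l 17906304) (l 17971488)) (b (l 18321208) (a (l 18310032) (l 18405392)))) (b (a (l 17931104) (l 17784904)) (b (a (l 18065872) (l 17854320)) (a (a (l 18197232) (l 18095944)) (a (l 17965896) (l 17811352)))))))), by decide +kernel⟩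

def k1_pm_012 : ∃ t, chk3 f_pm_012 t 3 2 1 = true :=
  ⟨(a (b (a (l 17197064) (l 17378704)) (a (l 17445584) (b (l 17519376) (l 17623488)))) (a (b (a (l 17554344) (l 17671656)) (a (l 17730048) (b (l 17770856) (l 17867200)))) (a (b (l 17767928) (b (a (l 17819576) (l 17833224)) (a (l 17885528) (l 17861152)))) (b (b (l 17799064) (l 17803032)) (b (a (l 17818480) (l 17753072)) (a (l 17783336) (l 17372880))))))), by decide +kernel⟩

def k2_pm_012 : ∃ t, chk3 f_pm_012 t 3 6 1 = true :=
  ⟨(a (a (b (l 17563168) (l 17600432)) (b (a (l 17681880) (l 17803776)) (a (l 17781984) (l 17884776)))) (a (a (b (l 17887864) (b (l 17916624) (l 17895360))) (a (b (l 17913288) (b (l 17892888) (l 17826344))) (b (l 17902720) (b (l 17836328) (c (l 18064712) (l 17388168)))))) (a (b (a (l 17856408) (b (l 17803672) (l 17535752))) (a (b (l 17600488) (c (l 17975184) (a (l 17208368) (l 17050032)))) (a (b (l 17590656) (a (l 17181672) (l 17121416))) (b (l 17464432) (l 16915120))))) (b (a (b (l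 17649864) (l 17411976)) (b (l 17376032) (l 16955392))) (b (a (l 16948336) (b (l 16762736) (l 16734272))) (a (b (l 16903048) (l 16761784)) (b (l 16730704) (a (l 16736224) (l 16720824))))))))), by decide +kernel⟩

def k3_pm_012 : ∃ t, chk3 f_pm_012 t 3 7 1 = true :=
  ⟨(b (a (a (l 17767848) (a (l 17813600) (b (l 17877776) (a (l 17827592) (l 17804744))))) (b (a (a (a (l 17851904) (l 17692464)) (a (b (l 17740304) (l 17471936)) (c (l 17919664) (b (l 17233200) (l 17016936))))) (a (a (a (c (l 17807160) (l 16877520)) (b (l 17140128) (l 16960016))) (a (b (l 16991104) (l 16874448)) (b (l 16847568) (l 16771512)))) (b (a (l 16735128) (a (l 16734216) (l 16721240))) (a (a (l 16758368) (l 16745536)) (l 14))))) (b (a (a (a (l 17779160) (l 17569344)) (c (a (l 17888144) (l 17731256)) (a (l 17107320) (l 16837184)))) (a (a (a (c (l 17588464) (l 16790960)) (l 16824720)) (a (l 16774496) (l 14))) (l 14))) (a (a (c (l 17920112) (a (l 17473520) (l 17216184))) (a (c (l 17779488) (a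 (l 17160920) (l 17023640))) (a (c (l 17656520) (l 16854360)) (l 14)))) (l 14))))) (a (a (b (l 17853520) (a (l 17654000) (a (l 17649456) (l 17675536)))) (a (b (a (l 17754120) (l 17756160)) (b (a (l 17700592) (l 17677296)) (l 14))) (b (a (a (l 17739440) (l 17486952)) (b (l 17666848) (b (l 17560704) (l 14)))) (l 14)))) (a (a (b (b (c (a (l 17865792) (l 17780640)) (a (l 17270632) (a (l 17247680) (l 14)))) (l 14)) (l 14)) (l 14)) (l 14)))), by decide +kernel⟩

theorem s4_pm_012 : ∃ t, chk3 f_pm_012 t 3 3 1 = true := ex3_b k2_pm_012 k3_pm_012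

theorem s5_pm_012 : ∃ t, chk3 f_pm_012 t 3 1 1 = true := ex3_b k1_pm_012 s4_pm_012

theorem s6_pm_012 : ∃ t, chk3 f_pm_012 t 1 1 1 = true := ex3_a k0_pm_012 s5_pm_012

theorem c_pm_012 : CertF 0 536870912 0 536870912 67108864 67108864 false true false .pnp 0 1 2
    ndF0q0 ndF0q2 pcF1 cut_pm_012 Ext.none :=
  certFK2 (fam := false) (s1 := true) (s2 := false) (a := 0) (b := 1) (c := 2) (cn := .pnp) (n1 := ndF0q0) (n2 := ndF0q2) (pc := pcF1) (cut := cut_pm_012) (xt := Ext.none) (P1 := 0) (W1 := 536870912) (P2 := 0) (W2 := 536870912) (P3 := 67108864) (W3 := 67108864)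
    rfl rfl rfl (fun _ => rfl) s6_pm_012

noncomputable def cut_pm_022 : Cut := Cut.of [[⟨3, 0, 0, 1449551462⟩], [⟨4, 0, 0, 2845415833⟩], [⟨0, 0, 0, 67108864⟩, ⟨1, 1, 0, 67108864⟩, ⟨2, 1, 0, 67108864⟩]]

noncomputable def f_pm_022 : ℕ → ℕ → ℕ → ℕ → Bool := onCell 1073741824 536870912 0 536870912 67108864 67108864
    (rowFK 2 false true false .pp 0 2 2 (qsf 0 536870912 0 536870912 2) ndF0q0 ndF0q2 pcF2 cut_pm_022 Ext.none)

def k0_pm_022 : ∃ t, chk3 f_pm_022 t 2 2 1 = true :=
  ⟨(a (b (a (b (a (l 17940952) (l 17959168)) (a (l 17761272) (l 17968672))) (a (b (l 18000344) (l 17947560)) (b (l 18057984) (l 17796704)))) (a (b (a (c (l 18399888) (b (l 17452592) (l 17346608))) (c (l 18367568) (l 17166856))) (b (c (l 18285520) (a (l 16955640) (l 17187592))) (c (a (l 18188984) (l 18136352)) (a (a (l 16956224) (l 16952424)) (l 16902832))))) (b (b (a (l 17886720) (l 17767128)) (c (l 18324704) (a (l 17371040) (l 17421136)))) (c (a (b (l 18239752) (l 18107128)) (b (l 18230120)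 (l 17845080))) (a (b (l 17200104) (a (l 16998840) (l 17030064))) (b (a (l 17262544) (l 17296112)) (a (l 17067312) (a (l 17098520) (l 51036477063))))))))) (a (b (a (b (l 17916256) (c (l 18468032) (l 35468352023))) (b (l 1) (l 1))) (a (b (c (l 18378384) (a (b (l 17570616) (l 17470112)) (l 184718719703))) (a (c (l 217468584759) (b (c (l 17562992) (l 59626496775)) (l 154116279767))) (l 1))) (l 1))) (l 1))), by decide +kernel⟩

def k1_pm_022 : ∃ t, chk3 f_pm_022 t 2 3 1 = true :=
  ⟨(a (b (a (a (b (b (a (c (l 17864448) (l 16615752)) (c (l 17977280) (l 16622776))) (a (b (c (l 17630288) (l 16566728)) (l 16727144)) (b (l 16901576) (l 16794704)))) (b (a (b (a (l 16642776) (l 16615864)) (a (l 16654312) (l 16627208))) (b (l 16679552) (l 16690632))) (a (b (a (l 16645984) (l 16618680)) (a (l 16659752) (l 16632232))) (b (a (l 16632912) (l 16646768)) (a (l 16646272) (l 16659960)))))) (b (b (c (c (l 18262384) (l 17619096)) (a (l 16641328) (l 16670288))) (a (b (l 16949352)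 (l 16811048)) (b (l 16964848) (l 16837872)))) (b (a (b (l 16665192) (l 16675992)) (b (l 16691344) (l 16701920))) (a (b (l 16687864) (l 16700824)) (b (l 16713560) (l 14)))))) (b (a (b (a (c (l 17918904) (l 16708448)) (c (l 17911104) (l 16754536))) (a (b (l 16967856) (l 16873864)) (b (l 16936168) (l 16854752)))) (a (b (c (l 17802824) (l 16786312)) (b (c (b (l 17673488) (l 44058185591)) (l 44056891879)) (a (b (l 16918048) (l 54257607047)) (l 140694066151)))) (b (b (c (l 17844776) (l 63921221383)) (c (l 222837174023) (l 107944646055))) (l 1)))) (b (a (a (b (l 16716216) (a (l 16699600) (l 16711688))) (a (b (l 16713160) (l 22045186391)) (a (b (l 16721904) (l 63384257159)) (b (l 42983148599) (l 14))))) (a (a (b (a (l 83248476647) (l 1)) (l 1)) (l 1)) (l 1))) (l 14)))) (a (b (a (b (a (b (a (b (l 16628808) (l 14)) (l 16667888)) (l 14)) (l 14)) (l 14)) (l 14)) (l 14)) (l 14))) (b (l 1) (l 1))), by decide +kernel⟩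

def k2_pm_022 : ∃ t, chk3 f_pm_022 t 3 1 1 = true :=
  ⟨(l 1), by decide +kernel⟩

theorem s3_pm_022 : ∃ t, chk3 f_pm_022 t 2 1 1 = true := ex3_b k0_pm_022 k1_pm_022

theorem s4_pm_022 : ∃ t, chk3 f_pm_022 t 1 1 1 = true := ex3_a s3_pm_022 k2_pm_022

theorem c_pm_022 : CertF 0 536870912 0 536870912 67108864 67108864 false true false .pp 0 2 2
    ndF0q0 ndF0q2 pcF2 cut_pm_022 Ext.none :=
  certFK2 (fam := false) (s1 := true) (s2 := false) (a := 0) (b := 2) (c := 2) (cn := .pp) (n1 := ndF0q0) (n2 := ndF0q2) (pc := pcF2) (cut := cut_pm_022) (xt := Ext.none) (P1 := 0) (W1 := 536870912) (P2 := 0) (W2 := 536870912) (P3 := 67108864) (W3 := 67108864)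
    rfl rfl rfl (fun _ => rfl) s4_pm_022

noncomputable def cut_pm_101 : Cut := Cut.of [[⟨3, 0, 0, 1449551462⟩], [⟨4, 0, 0, 2845415833⟩], [⟨0, 1, 0, 67108864⟩, ⟨1, 0, 0, 67108864⟩, ⟨2, 1, 0, 67108864⟩]]

noncomputable def f_pm_101 : ℕ → ℕ → ℕ → ℕ → Bool := onCell 0 536870912 536870912 536870912 67108864 67108864
    (rowFK 2 false true false .npn 1 0 1 (qsf 536870912 536870912 536870912 536870912 0) ndF0q1 ndF0q1 pcF0 cut_pm_101 Ext.none)

def k0_pm_101 : ∃ t, chk3 f_pm_101 t 2 1 1 = true :=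
  ⟨(b (b (l 14) (a (b (a (b (l 14) (a (l 17299576) (l 17201224))) (l 14)) (a (b (l 17408152) (l 17655216)) (b (a (l 17296960) (l 17202992)) (l 17441600)))) (b (l 14) (a (b (l 14) (b (l 17206344) (l 17296728))) (l 14))))) (a (b (b (a (b (l 17865104) (l 18076896)) (b (l 17635048) (l 17828504))) (a (a (b (l 18355472) (l 18573152)) (l 18329464)) (l 18330680))) (b (a (b (a (c (l 18884328) (b (c (l 18658128) (a (b (b (l 18619488) (b (l 18638944) (l 18643920))) (l 18606776)) (b (l 18561792) (l 18557488)))) (a (l 18535320) (l 18493736)))) (b (l 18561928) (l 18493648))) (b (c (l 18451248) (a (a (l 18347520) (l 18340600)) (l 18295592))) (a (a (a (l 18084672) (l 18225120)) (l 18215000)) (l 18192896)))) (a (b (l 18409288) (l 18223984)) (b (l 18276800) (l 18162664)))) (a (b (a (a (b (a (b (l 18032520) (l 6)) (l 17969840)) (l 6)) (b (l 17993888) (l 17715384))) (b (l 17998832) (l 17771424))) (b (a (l 6) (a (l 6) (l 17529888))) (l 6))) (b (a (l 17908584) (l 17922784)) (b (a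 (l 17595384) (l 17676488)) (a (b (l 17409064) (l 6)) (a (l 17435072) (l 17499888)))))))) (b (b (a (b (l 17429640) (l 17602784)) (a (l 17208968) (b (l 17210456) (l 17366888)))) (a (b (l 17771072) (l 17932680)) (l 17875592))) (b (a (b (l 18169488) (l 18050928)) (b (l 17796184) (l 17869328))) (b (a (l 17925232) (l 17887408)) (a (b (l 17780056) (a (l 17587312) (l 17700952))) (a (l 17822664) (l 17883792)))))))), by decide +kernel⟩

def k1_pm_101 : ∃ t, chk3 f_pm_101 t 3 1 1 = true :=
  ⟨(b (l 14) (b (a (a (b (b (l 14) (l 17395016)) (l 38153340855)) (b (l 14) (a (l 17365936) (l 17468560)))) (b (l 1) (a (l 266322819303) (l 1)))) (b (a (a (b (l 17563888) (l 17660640)) (b (l 17385568) (l 17578008))) (b (a (l 17408432) (l 1)) (a (a (l 17351504) (l 17523240)) (a (l 183645275047) (l 1))))) (a (b (a (l 17806072) (l 17686536)) (b (l 18074064) (a (l 17986400) (l 18076528)))) (b (a (b (l 17438584) (l 17633504)) (b (l 237869054855) (l 17517016))) (a (b (l 17858240) (l 18110176))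 (b (l 17753504) (l 18081144)))))))), by decide +kernel⟩

theorem s2_pm_101 : ∃ t, chk3 f_pm_101 t 1 1 1 = true := ex3_a k0_pm_101 k1_pm_101

theorem c_pm_101 : CertF 536870912 536870912 536870912 536870912 67108864 67108864 false true false .npn 1 0 1
    ndF0q1 ndF0q1 pcF0 cut_pm_101 Ext.none :=
  certFK2 (fam := false) (s1 := true) (s2 := false) (a := 1) (b := 0) (c := 1) (cn := .npn) (n1 := ndF0q1) (n2 := ndF0q1) (pc := pcF0) (cut := cut_pm_101) (xt := Ext.none) (P1 := 536870912) (W1 := 536870912) (P2 := 536870912) (W2 := 536870912) (P3 := 67108864) (W3 := 67108864)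
    rfl rfl rfl (fun _ => rfl) s2_pm_101

noncomputable def cut_pm_102 : Cut := Cut.of [[⟨3, 0, 0, 1449551462⟩], [⟨4, 0, 0, 2845415833⟩], [⟨0, 1, 0, 16777216⟩, ⟨1, 0, 0, 16777216⟩, ⟨2, 1, 0, 16777216⟩]]

noncomputable def f_pm_102 : ℕ → ℕ → ℕ → ℕ → Bool := onCell 0 536870912 0 536870912 67108864 67108864
    (rowFK 2 false true false .npp 1 0 2 (qsf 536870912 536870912 0 536870912 0) ndF0q1 ndF0q2 pcF0 cut_pm_102 Ext.none)

def k0_pm_102 : ∃ t, chk3 f_pm_102 t 1 1 1 = true :=
  ⟨(a (b (l 6) (b (a (l 3) (l 6)) (a (b (l 6) (a (l 6) (b (l 6) (l 6)))) (b (a (l 6) (b (l 6) (a (l 6) (l 17223904)))) (a (b (a (l 6) (b (l 6) (l 17215552))) (a (b (l 17245024) (l 17427672)) (l 17673752))) (b (a (l 17469504) (l 17397880)) (a (l 17615088) (l 17732424)))))))) (b (a (l 6) (b (l 6) (a (l 6) (b (l 6) (a (l 6) (l 16997056)))))) (a (b (b (l 6) (a (b (l 6) (l 17099728)) (l 17180296))) (b (a (b (l 17226480) (a (l 17318184) (l 17303144))) (b (b (l 17182800) (l 17337368)) (l 17461480)))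 (a (b (l 17736088) (a (l 17835536) (l 17924904))) (b (l 17752488) (l 18034280))))) (b (b (a (l 17126416) (l 17088104)) (a (b (l 17115112) (l 17283984)) (l 17452952))) (b (a (a (l 17695456) (l 17530064)) (l 17769856)) (a (b (l 17885160) (l 18127752)) (b (l 17961720) (l 18158920)))))))), by decide +kernel⟩

theorem c_pm_102 : CertF 536870912 536870912 0 536870912 67108864 67108864 false true false .npp 1 0 2
    ndF0q1 ndF0q2 pcF0 cut_pm_102 Ext.none :=
  certFK2 (fam := false) (s1 := true) (s2 := false) (a := 1) (b := 0) (c := 2) (cn := .npp) (n1 := ndF0q1) (n2 := ndF0q2) (pc := pcF0) (cut := cut_pm_102) (xt := Ext.none) (P1 := 536870912) (W1 := 536870912) (P2 := 0) (W2 := 536870912) (P3 := 67108864) (W3 := 67108864)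
    rfl rfl rfl (fun _ => rfl) k0_pm_102

noncomputable def cut_pm_112 : Cut := Cut.of [[⟨3, 0, 0, 1449551462⟩], [⟨4, 0, 0, 2845415833⟩]]

noncomputable def f_pm_112 : ℕ → ℕ → ℕ → ℕ → Bool := onCell 536870912 536870912 0 536870912 67108864 67108864
    (rowFK 2 false true false .dn 1 1 2 (qsf 536870912 536870912 0 536870912 1) ndF0q1 ndF0q2 pcF1 cut_pm_112 Ext.none)

def k0_pm_112 : ∃ t, chk3 f_pm_112 t 1 1 1 = true :=
  ⟨(a (b (a (b (l 6) (a (b (a (l 6) (l 17055160)) (l 17269096)) (b (l 17195408) (l 17328544)))) (a (b (b (l 6) (l 17151448)) (l 17541296)) (l 1))) (a (b (a (b (l 17375984) (l 17750376)) (b (l 17532200) (l 17736576))) (b (a (l 17906416) (l 17972576)) (b (l 19364209815) (a (l 18310544) (l 1))))) (b (l 1) (l 1)))) (l 1)), by decide +kernel⟩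

theorem c_pm_112 : CertF 536870912 536870912 0 536870912 67108864 67108864 false true false .dn 1 1 2
    ndF0q1 ndF0q2 pcF1 cut_pm_112 Ext.none :=
  certFK2 (fam := false) (s1 := true) (s2 := false) (a := 1) (b := 1) (c := 2) (cn := .dn) (n1 := ndF0q1) (n2 := ndF0q2) (pc := pcF1) (cut := cut_pm_112) (xt := Ext.none) (P1 := 536870912) (W1 := 536870912) (P2 := 0) (W2 := 536870912) (P3 := 67108864) (W3 := 67108864)
    rfl rfl rfl (fun _ => rfl) k0_pm_112

noncomputable def cut_pm_202 : Cut := Cut.of [[⟨3, 0, 0, 1449551462⟩], [⟨4, 0, 0, 2845415833⟩], [⟨0, 1, 0, 67108864⟩, ⟨1, 0, 0, 67108864⟩, ⟨2, 1, 0, 67108864⟩]]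

noncomputable def f_pm_202 : ℕ → ℕ → ℕ → ℕ → Bool := onCell 0 536870912 0 536870912 67108864 67108864
    (rowFK 0 false true false .pp 2 0 2 (qsf 0 536870912 0 536870912 0) ndF0q2 ndF0q2 pcF0 cut_pm_202 Ext.none)

def k0_pm_202 : ∃ t, chk3 f_pm_202 t 1 1 1 = true :=
  ⟨(l 6), by decide +kernel⟩

theorem c_pm_202 : CertF 0 536870912 0 536870912 67108864 67108864 false true false .pp 2 0 2
    ndF0q2 ndF0q2 pcF0 cut_pm_202 Ext.none :=
  certFK0 (fam := false) (s1 := true) (s2 := false) (a := 2) (b := 0) (c := 2) (cn := .pp) (n1 := ndF0q2) (n2 := ndF0q2) (pc := pcF0) (cut := cut_pm_202) (xt := Ext.none) (P1 := 0) (W1 := 536870912) (P2 := 0) (W2 := 536870912) (P3 := 67108864) (W3 := 67108864)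
    rfl rfl rfl k0_pm_202

noncomputable def cut_mm_001 : Cut := Cut.of [[⟨3, 0, 0, 1449551462⟩], [⟨4, 0, 0, 2845415833⟩]]

noncomputable def f_mm_001 : ℕ → ℕ → ℕ → ℕ → Bool := onCell 0 536870912 536870912 536870912 67108864 67108864
    (rowFK 0 false false false .up 0 0 1 (qsf 0 536870912 536870912 536870912 0) ndF0q0 ndF0q1 pcF0 cut_mm_001 Ext.none)

def k0_mm_001 : ∃ t, chk3 f_mm_001 t 1 1 1 = true :=
  ⟨(l 6), by decide +kernel⟩

theorem c_mm_001 : CertF 0 536870912 536870912 536870912 67108864 67108864 false false false .up 0 0 1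
    ndF0q0 ndF0q1 pcF0 cut_mm_001 Ext.none :=
  certFK0 (fam := false) (s1 := false) (s2 := false) (a := 0) (b := 0) (c := 1) (cn := .up) (n1 := ndF0q0) (n2 := ndF0q1) (pc := pcF0) (cut := cut_mm_001) (xt := Ext.none) (P1 := 0) (W1 := 536870912) (P2 := 536870912) (W2 := 536870912) (P3 := 67108864) (W3 := 67108864)
    rfl rfl rfl k0_mm_001

noncomputable def cut_mm_011 : Cut := Cut.of [[⟨3, 0, 0, 1449551462⟩], [⟨4, 0, 0, 2845415833⟩]]

noncomputable def f_mm_011 : ℕ → ℕ → ℕ → ℕ → Bool := onCell 0 536870912 536870912 536870912 67108864 67108864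
    (rowFK 0 false false false .pnn 0 1 1 (qsf 0 536870912 536870912 536870912 1) ndF0q0 ndF0q1 pcF1 cut_mm_011 Ext.none)

def k0_mm_011 : ∃ t, chk3 f_mm_011 t 1 1 1 = true :=
  ⟨(l 6), by decide +kernel⟩

theorem c_mm_011 : CertF 0 536870912 536870912 536870912 67108864 67108864 false false false .pnn 0 1 1
    ndF0q0 ndF0q1 pcF1 cut_mm_011 Ext.none :=
  certFK0 (fam := false) (s1 := false) (s2 := false) (a := 0) (b := 1) (c := 1) (cn := .pnn) (n1 := ndF0q0) (n2 := ndF0q1) (pc := pcF1) (cut := cut_mm_011) (xt := Ext.none) (P1 := 0) (W1 := 536870912) (P2 := 536870912) (W2 := 536870912) (P3 := 67108864) (W3 := 67108864)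
    rfl rfl rfl k0_mm_011

noncomputable def cut_mm_012 : Cut := Cut.of [[⟨3, 0, 0, 1449551462⟩], [⟨4, 0, 0, 2845415833⟩]]

noncomputable def f_mm_012 : ℕ → ℕ → ℕ → ℕ → Bool := onCell 0 536870912 0 536870912 67108864 67108864
    (rowFK 0 false false false .pnp 0 1 2 (qsf 0 536870912 0 536870912 1) ndF0q0 ndF0q2 pcF1 cut_mm_012 Ext.none)

def k0_mm_012 : ∃ t, chk3 f_mm_012 t 1 1 1 = true :=
  ⟨(l 5), by decide +kernel⟩

theorem c_mm_012 : CertF 0 536870912 0 536870912 67108864 67108864 false false false .pnp 0 1 2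
    ndF0q0 ndF0q2 pcF1 cut_mm_012 Ext.none :=
  certFK0 (fam := false) (s1 := false) (s2 := false) (a := 0) (b := 1) (c := 2) (cn := .pnp) (n1 := ndF0q0) (n2 := ndF0q2) (pc := pcF1) (cut := cut_mm_012) (xt := Ext.none) (P1 := 0) (W1 := 536870912) (P2 := 0) (W2 := 536870912) (P3 := 67108864) (W3 := 67108864)
    rfl rfl rfl k0_mm_012

noncomputable def cut_mm_022 : Cut := Cut.of [[⟨3, 0, 0, 1449551462⟩], [⟨4, 0, 0, 2845415833⟩]]

noncomputable def f_mm_022 : ℕ → ℕ → ℕ → ℕ → Bool := onCell 0 536870912 0 536870912 67108864 67108864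
    (rowFK 0 false false false .pp 0 2 2 (qsf 0 536870912 0 536870912 2) ndF0q0 ndF0q2 pcF2 cut_mm_022 Ext.none)

def k0_mm_022 : ∃ t, chk3 f_mm_022 t 1 1 1 = true :=
  ⟨(l 5), by decide +kernel⟩

theorem c_mm_022 : CertF 0 536870912 0 536870912 67108864 67108864 false false false .pp 0 2 2
    ndF0q0 ndF0q2 pcF2 cut_mm_022 Ext.none :=
  certFK0 (fam := false) (s1 := false) (s2 := false) (a := 0) (b := 2) (c := 2) (cn := .pp) (n1 := ndF0q0) (n2 := ndF0q2) (pc := pcF2) (cut := cut_mm_022) (xt := Ext.none) (P1 := 0) (W1 := 536870912) (P2 := 0) (W2 := 536870912) (P3 := 67108864) (W3 := 67108864)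
    rfl rfl rfl k0_mm_022

noncomputable def cut_mm_101 : Cut := Cut.of [[⟨3, 0, 0, 1449551462⟩], [⟨4, 0, 0, 2845415833⟩]]

noncomputable def f_mm_101 : ℕ → ℕ → ℕ → ℕ → Bool := onCell 536870912 536870912 536870912 536870912 67108864 67108864
    (rowFK 0 false false false .npn 1 0 1 (qsf 536870912 536870912 536870912 536870912 0) ndF0q1 ndF0q1 pcF0 cut_mm_101 Ext.none)

def k0_mm_101 : ∃ t, chk3 f_mm_101 t 1 1 1 = true :=
  ⟨(l 3), by decide +kernel⟩

theorem c_mm_101 : CertF 536870912 536870912 536870912 536870912 67108864 67108864 false false false .npn 1 0 1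
    ndF0q1 ndF0q1 pcF0 cut_mm_101 Ext.none :=
  certFK0 (fam := false) (s1 := false) (s2 := false) (a := 1) (b := 0) (c := 1) (cn := .npn) (n1 := ndF0q1) (n2 := ndF0q1) (pc := pcF0) (cut := cut_mm_101) (xt := Ext.none) (P1 := 536870912) (W1 := 536870912) (P2 := 536870912) (W2 := 536870912) (P3 := 67108864) (W3 := 67108864)
    rfl rfl rfl k0_mm_101

noncomputable def cut_mm_102 : Cut := Cut.of [[⟨3, 0, 0, 1449551462⟩], [⟨4, 0, 0, 2845415833⟩]]

noncomputable def f_mm_102 : ℕ → ℕ → ℕ → ℕ → Bool := onCell 536870912 536870912 0 536870912 67108864 67108864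
    (rowFK 0 false false false .npp 1 0 2 (qsf 536870912 536870912 0 536870912 0) ndF0q1 ndF0q2 pcF0 cut_mm_102 Ext.none)

def k0_mm_102 : ∃ t, chk3 f_mm_102 t 1 1 1 = true :=
  ⟨(a (l 5) (l 3)), by decide +kernel⟩

theorem c_mm_102 : CertF 536870912 536870912 0 536870912 67108864 67108864 false false false .npp 1 0 2
    ndF0q1 ndF0q2 pcF0 cut_mm_102 Ext.none :=
  certFK0 (fam := false) (s1 := false) (s2 := false) (a := 1) (b := 0) (c := 2) (cn := .npp) (n1 := ndF0q1) (n2 := ndF0q2) (pc := pcF0) (cut := cut_mm_102) (xt := Ext.none) (P1 := 536870912) (W1 := 536870912) (P2 := 0) (W2 := 536870912) (P3 := 67108864) (W3 := 67108864)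
    rfl rfl rfl k0_mm_102

noncomputable def cut_mm_112 : Cut := Cut.of [[⟨3, 0, 0, 1449551462⟩], [⟨4, 0, 0, 2845415833⟩]]

noncomputable def f_mm_112 : ℕ → ℕ → ℕ → ℕ → Bool := onCell 536870912 536870912 0 536870912 67108864 67108864
    (rowFK 2 false false false .dn 1 1 2 (qsf 536870912 536870912 0 536870912 1) ndF0q1 ndF0q2 pcF1 cut_mm_112 Ext.none)

def k0_mm_112 : ∃ t, chk3 f_mm_112 t 1 1 1 = true :=
  ⟨(l 5), by decide +kernel⟩

theorem c_mm_112 : CertF 536870912 536870912 0 536870912 67108864 67108864 false false false .dn 1 1 2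
    ndF0q1 ndF0q2 pcF1 cut_mm_112 Ext.none :=
  certFK2 (fam := false) (s1 := false) (s2 := false) (a := 1) (b := 1) (c := 2) (cn := .dn) (n1 := ndF0q1) (n2 := ndF0q2) (pc := pcF1) (cut := cut_mm_112) (xt := Ext.none) (P1 := 536870912) (W1 := 536870912) (P2 := 0) (W2 := 536870912) (P3 := 67108864) (W3 := 67108864)
    rfl rfl rfl (fun _ => rfl) k0_mm_112

noncomputable def cut_mm_202 : Cut := Cut.of [[⟨3, 0, 0, 1449551462⟩], [⟨4, 0, 0, 2845415833⟩]]

noncomputable def f_mm_202 : ℕ → ℕ → ℕ → ℕ → Bool := onCell 0 536870912 0 536870912 67108864 67108864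
    (rowFK 0 false false false .pp 2 0 2 (qsf 0 536870912 0 536870912 0) ndF0q2 ndF0q2 pcF0 cut_mm_202 Ext.none)

def k0_mm_202 : ∃ t, chk3 f_mm_202 t 1 1 1 = true :=
  ⟨(l 3), by decide +kernel⟩

theorem c_mm_202 : CertF 0 536870912 0 536870912 67108864 67108864 false false false .pp 2 0 2
    ndF0q2 ndF0q2 pcF0 cut_mm_202 Ext.none :=
  certFK0 (fam := false) (s1 := false) (s2 := false) (a := 2) (b := 0) (c := 2) (cn := .pp) (n1 := ndF0q2) (n2 := ndF0q2) (pc := pcF0) (cut := cut_mm_202) (xt := Ext.none) (P1 := 0) (W1 := 536870912) (P2 := 0) (W2 := 536870912) (P3 := 67108864) (W3 := 67108864)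
    rfl rfl rfl k0_mm_202

end Pool.Agent.Strip051.G.I1_16_1_8.Tab.C.FB00

namespace Pool.Agent.Strip051.G.I1_16_1_8.Tab.C.FB01

open Pool.Agent.Strip051.PB Pool.Agent.Strip051.PB.T
open Pool.Agent.Strip051.G.I1_16_1_8.Tab

noncomputable def f_pp_001 : ℕ → ℕ → ℕ → ℕ → Bool := onCell 0 536870912 536870912 536870912 67108864 67108864
    (rowFK 0 false true true .up 0 0 1 (qsf 0 536870912 536870912 536870912 0) ndF0q0 ndF1q1 pcF0 Cut.none Ext.none)

def k0_pp_001 : ∃ t, chk3 f_pp_001 t 1 1 1 = true :=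
  ⟨(l 3), by decide +kernel⟩

theorem c_pp_001 : CertF 0 536870912 536870912 536870912 67108864 67108864 false true true .up 0 0 1
    ndF0q0 ndF1q1 pcF0 Cut.none Ext.none :=
  certFK0 (fam := false) (s1 := true) (s2 := true) (a := 0) (b := 0) (c := 1) (cn := .up) (n1 := ndF0q0) (n2 := ndF1q1) (pc := pcF0) (cut := Cut.none) (xt := Ext.none) (P1 := 0) (W1 := 536870912) (P2 := 536870912) (W2 := 536870912) (P3 := 67108864) (W3 := 67108864)
    rfl rfl rfl k0_pp_001

noncomputable def f_pp_011 : ℕ → ℕ → ℕ → ℕ → Bool := onCell 0 536870912 536870912 536870912 67108864 67108864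
    (rowFK 0 false true true .pnn 0 1 1 (qsf 0 536870912 536870912 536870912 1) ndF0q0 ndF1q1 pcF1 Cut.none Ext.none)

def k0_pp_011 : ∃ t, chk3 f_pp_011 t 1 1 1 = true :=
  ⟨(l 3), by decide +kernel⟩

theorem c_pp_011 : CertF 0 536870912 536870912 536870912 67108864 67108864 false true true .pnn 0 1 1
    ndF0q0 ndF1q1 pcF1 Cut.none Ext.none :=
  certFK0 (fam := false) (s1 := true) (s2 := true) (a := 0) (b := 1) (c := 1) (cn := .pnn) (n1 := ndF0q0) (n2 := ndF1q1) (pc := pcF1) (cut := Cut.none) (xt := Ext.none) (P1 := 0) (W1 := 536870912) (P2 := 536870912) (W2 := 536870912) (P3 := 67108864) (W3 := 67108864)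
    rfl rfl rfl k0_pp_011

noncomputable def cut_pp_012_a : Cut := Cut.of [[⟨0, 0, 0, 67108864⟩, ⟨1, 1, 0, 67108864⟩, ⟨2, 1, 0, 67108864⟩]]

noncomputable def f_pp_012_a : ℕ → ℕ → ℕ → ℕ → Bool := onCell 536870912 536870912 0 536870912 67108864 67108864
    (rowFK 2 false true true .pnp 0 1 2 (qsf 0 536870912 0 536870912 1) ndF0q0 ndF1q2a pcF1 cut_pp_012_a Ext.none)

def k0_pp_012_a : ∃ t, chk3 f_pp_012_a t 2 1 1 = true :=
  ⟨(l 3), by decide +kernel⟩

def k1_pp_012_a : ∃ t, chk3 f_pp_012_a t 6 1 1 = true :=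
  ⟨(b (a (l 3) (b (a (l 3) (b (a (l 58687086423) (l 51707876087)) (l 3))) (l 3))) (l 3)), by decide +kernel⟩

def k2_pp_012_a : ∃ t, chk3 f_pp_012_a t 7 2 1 = true :=
  ⟨(a (b (a (b (a (l 17083808) (l 17146616)) (a (l 54392267895) (l 40433568055))) (b (l 17252128) (a (l 17175784) (l 17248168)))) (a (b (a (l 3) (b (l 50634220119) (l 51707891079))) (l 3)) (b (a (b (l 17136336) (l 35601695847)) (l 17126856)) (a (b (l 50634209559) (l 3)) (b (l 17028896) (a (l 33454129479) (l 17042056))))))) (b (a (b (l 17404024) (l 17235184)) (b (a (l 17510720) (l 17564424)) (a (l 17464648) (l 17513944)))) (a (b (a (l 17261936) (l 17331624)) (a (b (l 17202360) (a (l 17137816) (l 17169392))) (b (l 17266192) (l 17148992)))) (a (b (l 17349056) (b (l 17294088) (c (l 17416080) (l 17020888)))) (b (b (l 17454232) (l 17252616)) (a (b (l 17331472) (l 17105232)) (b (l 17221376) (b (l 17174856) (l 17079952))))))))), by decide +kernel⟩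

def k3_pp_012_a : ∃ t, chk3 f_pp_012_a t 14 3 1 = true :=
  ⟨(b (a (l 3) (b (a (l 3) (b (c (l 49560508391) (a (l 3) (l 28622231879))) (l 3))) (l 3))) (l 3)), by decide +kernel⟩

def k4_pp_012_a : ∃ t, chk3 f_pp_012_a t 30 6 1 = true :=
  ⟨(a (a (b (b (c (l 17153128) (l 22716671223)) (b (l 45265342455) (l 69424569399))) (l 3)) (b (b (l 17007168) (b (l 16980008) (b (l 16954000) (a (l 16950944) (l 16983216))))) (a (l 3) (b (b (c (l 17077048) (l 35064494935)) (l 3)) (l 3))))) (b (b (a (l 17074528) (l 17073568)) (a (b (l 17022776) (l 16901056)) (b (l 17037608) (l 16932600)))) (a (a (b (c (l 43654688007) (b (l 16849640) (c (l 16897720) (l 25400713959)))) (l 3)) (b (c (l 17006744) (b (l 16885072) (b (l 16875960) (l 16792616)))) (b (c (l 16953560) (b (l 10905191687) (l 25937566039))) (l 3)))) (b (c (b (l 17137936) (l 17087704)) (b (l 16762584) (a (l 16767416) (l 16789256)))) (c (b (a (l 16986944) (l 17016704)) (a (a (l 52244637367) (l 25937724423)) (b (l 16972680)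 (l 16879280)))) (b (a (b (l 16775584) (c (l 16829000) (l 10368314743))) (b (l 16793376) (l 16767728))) (a (a (b (l 18958250663) (l 3)) (b (l 9831441799) (l 17347636087))) (a (b (l 16769560) (a (l 17347632711) (l 9294566887))) (b (l 16766576) (c (l 16770960) (l 16768256))))))))))), by decide +kernel⟩

def k5_pp_012_a : ∃ t, chk3 f_pp_012_a t 31 6 1 = true :=
  ⟨(b (a (c (b (l 17341000) (a (l 17237440) (l 17259504))) (b (a (l 17015136) (l 16982520)) (a (b (l 16948984) (l 16899472)) (l 16724960)))) (b (c (a (l 17379480) (l 17387456)) (b (l 16710128) (l 16714464))) (c (a (l 17161816) (b (l 17289688) (l 17106352))) (a (l 16723408) (l 16712952))))) (b (b (a (c (a (l 17161992) (l 17172576)) (a (l 16824744) (l 16772760))) (a (c (l 17078344) (l 16727408)) (l 16715280))) (a (c (a (l 17105248) (l 17000816)) (a (l 16756280) (l 16741016))) (a (l 16732720) (l 16730552)))) (b (a (a (c (b (l 17059424) (l 16964224)) (a (l 16758760) (l 16753240))) (b (l 16748512) (l 16748744)))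 (a (l 16744192) (a (l 16731520) (l 16727824)))) (a (a (a (c (a (l 16832144) (l 16851688)) (b (l 16762240) (c (l 16765216) (l 16769184)))) (b (l 16757536) (l 16763312))) (a (a (l 16751144) (l 16752608)) (l 16748928))) (a (a (l 16744296) (l 16739968)) (a (l 16735952) (l 16737480))))))), by decide +kernel⟩

def k6_pp_012_a : ∃ t, chk3 f_pp_012_a t 30 7 1 = true :=
  ⟨(b (a (l 3) (b (a (l 3) (a (l 3) (b (b (b (c (l 16855968) (a (l 16273891207) (l 9294566119))) (a (l 3) (a (l 20568854311) (b (l 6073334599) (l 7683953847))))) (a (l 3) (a (l 3) (b (l 15737014503) (l 3))))) (l 3)))) (l 3))) (l 3)), by decide +kernel⟩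

def k7_pp_012_a : ∃ t, chk3 f_pp_012_a t 124 14 1 = true :=
  ⟨(b (b (a (c (b (b (l 16873672) (l 16835584)) (c (l 16963184) (b (l 16769120) (l 7147088119)))) (a (b (b (l 16767776) (l 16768968)) (a (b (l 15200144919) (l 3)) (c (l 14663276183) (b (l 16768864) (l 14126402599))))) (b (l 16765536) (b (l 16767328) (a (l 16769232) (l 16767840)))))) (b (c (l 16790240) (l 16766664)) (a (b (l 16765696) (l 16766872)) (l 16763568)))) (a (a (l 3) (b (c (c (l 16883720) (l 14126408615)) (a (b (a (l 13589531079) (l 14126401239)) (l 3)) (b (a (l 10368303767) (l 16768704)) (b (l 10368304663) (l 12515788823))))) (l 3))) (b (a (b (c (l 16790824) (l 16768304)) (c (l 16771768) (a (b (l 16768592) (l 9831432583)) (l 16767536)))) (b (l 16765344) (a (l 16767208) (l 16765872)))) (a (c (b (l 6610213143) (l 12515794359)) (a (b (c (l 11978919911) (b (l 9831433399) (l 11442046663))) (l 3)) (c (b (l 16769256) (l 10905177719)) (b (b (l 16767968) (l 9831432375)) (c (l 10368305751) (b (l 9294562263)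 (l 10368304631))))))) (c (b (l 16778760) (l 16771408)) (a (b (l 16767432) (b (l 16768368) (a (a (l 12515786615) (l 16769160)) (l 16768664)))) (b (l 16766112) (a (l 16767688) (l 16767032))))))))) (b (b (a (l 3) (a (l 3) (a (b (c (l 11442050199) (c (l 10368306503) (b (a (l 10905174535) (l 10368303047)) (l 10368301799)))) (l 3)) (b (c (l 16770384) (c (l 6610208391) (b (l 16767848) (a (l 9831432087) (l 16768168))))) (c (l 10368307959) (c (l 9294561863) (b (a (l 10368303479) (l 9831432055)) (l 9831432007)))))))) (l 3)) (l 3))), by decide +kernel⟩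

def k8_pp_012_a : ∃ t, chk3 f_pp_012_a t 250 14 1 = true :=
  ⟨(b (b (b (l 16757320) (a (l 16760936) (l 16758384))) (b (a (c (l 16771568) (l 16762304)) (l 16760752)) (a (b (l 16765112) (a (l 16766976) (l 16765680))) (a (l 16763792) (l 16762536))))) (b (a (c (b (b (l 16768432) (a (l 16770256) (l 16768992))) (a (b (l 9831436935) (l 3)) (b (l 5536468231) (l 8757694903)))) (b (a (c (b (l 16767760) (c (l 16769192) (l 6610208503))) (b (l 16766872) (b (l 16767840) (a (l 9831432039) (l 16768168))))) (b (l 16766032) (b (l 16766984) (l 16767624)))) (a (a (l 3) (b (b (a (l 10368302807) (l 10905173399)) (l 3)) (l 3))) (a (b (c (l 9294562903) (b (l 16768176) (l 9294561143))) (l 3)) (c (b (l 16768680) (l 8220821687)) (b (b (l 16767544) (l 16768200)) (b (l 8757690263) (l 3)))))))) (b (b (c (l 16765864) (l 16764136)) (c (l 16767072) (c (l 16765824) (l 16767616)))) (a (b (c (l 16768920) (b (l 16767008) (l 16767656))) (c (a (l 9294564439) (l 16769832)) (b (c (l 16768688) (c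 (l 16768112) (l 8220818503))) (c (l 6610208343) (a (l 8220819383) (l 16768264)))))) (b (c (l 16767656) (l 16766080)) (c (l 16768888) (b (l 16767056) (l 16767712))))))) (a (l 3) (b (a (a (l 3) (b (b (c (l 16770632) (a (l 8757690103) (l 8757689991))) (l 3)) (l 3))) (b (c (a (l 8220822615) (l 16769816)) (b (c (l 16768728) (c (l 16768184) (l 7683947783))) (c (l 6610208423) (a (l 7683948615) (l 16768360))))) (b (a (l 3) (c (l 16770608) (l 7683948743))) (l 3)))) (l 3))))), by decide +kernel⟩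

def k9_pp_012_a : ∃ t, chk3 f_pp_012_a t 251 14 1 = true :=
  ⟨(b (a (b (l 16757344) (b (l 16758272) (l 16760680))) (b (l 16752328) (b (l 16755872) (l 16758280)))) (a (b (b (b (l 16762520) (l 16763768)) (b (c (l 16765800) (l 16764240)) (a (b (l 16766584) (l 16767224)) (l 16765688)))) (b (a (b (c (l 16768896) (b (l 16767144) (l 16767808))) (b (c (l 16769832) (a (l 8757689847) (l 16768176))) (c (l 4999597159) (a (l 7683948839) (l 8220819015))))) (b (c (l 16767672) (l 16766264)) (b (c (l 16768624) (l 16767264)) (l 6)))) (l 6))) (b (b (c (l 16761560) (l 16759920)) (b (l 16762624) (c (l 16764624) (l 16763160)))) (b (b (c (l 16765872) (l 16765792)) (l 6)) (l 6))))), by decide +kernel⟩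

def k10_pp_012_a : ∃ t, chk3 f_pp_012_a t 63 14 1 = true :=
  ⟨(b (a (b (a (c (l 16753512) (l 16753064)) (c (l 16750824) (l 16743496))) (b (a (l 16752416) (l 16748080)) (a (c (l 16758328) (l 16759192)) (l 16755728)))) (a (b (l 16745752) (a (l 16751456) (l 16749512))) (a (b (l 16737680) (l 16747640)) (b (l 16735896) (c (l 16744160) (l 16739672)))))) (a (b (a (a (b (l 16761040) (a (l 16764128) (l 16760368))) (b (l 16756176) (a (l 16759240) (l 16758136)))) (a (b (l 16754000) (l 16759144)) (b (l 16751912) (l 6)))) (a (b (a (b (l 16765480) (l 6)) (l 6)) (l 6)) (l 6))) (a (a (b (b (l 16749888) (l 6)) (l 6)) (l 6)) (l 6)))), by decide +kernel⟩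

def k11_pp_012_a : ∃ t, chk3 f_pp_012_a t 31 15 1 = true :=
  ⟨(a (b (a (l 3) (l 6)) (l 3)) (l 6)), by decide +kernel⟩

theorem s12_pp_012_a : ∃ t, chk3 f_pp_012_a t 125 14 1 = true := ex3_a k8_pp_012_a k9_pp_012_a

theorem s13_pp_012_a : ∃ t, chk3 f_pp_012_a t 62 14 1 = true := ex3_a k7_pp_012_a s12_pp_012_a

theorem s14_pp_012_a : ∃ t, chk3 f_pp_012_a t 31 14 1 = true := ex3_a s13_pp_012_a k10_pp_012_a

theorem s15_pp_012_a : ∃ t, chk3 f_pp_012_a t 31 7 1 = true := ex3_b s14_pp_012_a k11_pp_012_a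

theorem s16_pp_012_a : ∃ t, chk3 f_pp_012_a t 15 7 1 = true := ex3_a k6_pp_012_a s15_pp_012_a

theorem s17_pp_012_a : ∃ t, chk3 f_pp_012_a t 15 6 1 = true := ex3_a k4_pp_012_a k5_pp_012_a

theorem s18_pp_012_a : ∃ t, chk3 f_pp_012_a t 15 3 1 = true := ex3_b s17_pp_012_a s16_pp_012_a

theorem s19_pp_012_a : ∃ t, chk3 f_pp_012_a t 7 3 1 = true := ex3_a k3_pp_012_a s18_pp_012_a

theorem s20_pp_012_a : ∃ t, chk3 f_pp_012_a t 7 1 1 = true := ex3_b k2_pp_012_a s19_pp_012_a

theorem s21_pp_012_a : ∃ t, chk3 f_pp_012_a t 3 1 1 = true := ex3_a k1_pp_012_a s20_pp_012_a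

theorem s22_pp_012_a : ∃ t, chk3 f_pp_012_a t 1 1 1 = true := ex3_a k0_pp_012_a s21_pp_012_a

theorem c_pp_012_a : CertF 0 536870912 0 536870912 67108864 67108864 false true true .pnp 0 1 2
    ndF0q0 ndF1q2a pcF1 cut_pp_012_a Ext.none :=
  certFK2 (fam := false) (s1 := true) (s2 := true) (a := 0) (b := 1) (c := 2) (cn := .pnp) (n1 := ndF0q0) (n2 := ndF1q2a) (pc := pcF1) (cut := cut_pp_012_a) (xt := Ext.none) (P1 := 0) (W1 := 536870912) (P2 := 0) (W2 := 536870912) (P3 := 67108864) (W3 := 67108864)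
    rfl rfl rfl (fun _ => rfl) s22_pp_012_a

noncomputable def cut_pp_012_b : Cut := Cut.of [[⟨0, 0, 0, 67108864⟩, ⟨1, 1, 0, 67108864⟩, ⟨2, 1, 0, 67108864⟩]]

noncomputable def f_pp_012_b : ℕ → ℕ → ℕ → ℕ → Bool := onCell 536870912 536870912 1239849684 370763052 67108864 67108864
    (rowFK 2 false true true .pnp 0 1 2 (qsf 0 536870912 1239849684 370763052 1) ndF0q0 ndF1q2b pcF1 cut_pp_012_b Ext.none)

def k0_pp_012_b : ∃ t, chk3 f_pp_012_b t 1 1 1 = true :=
  ⟨(a (l 3) (a (a (l 3) (a (b (l 3) (l 3)) (b (b (a (b (b (l 58150315847) (l 17034256)) (l 3)) (b (b (l 17073608) (l 17132000)) (l 17200816))) (a (l 3) (l 105932603095))) (l 3)))) (b (a (b (a (b (a (l 17161136) (l 17226024)) (l 17290024)) (b (a (l 17298088) (l 17376504)) (l 17437312))) (a (a (l 17338880) (l 17400832)) (b (l 17495136) (l 17518696)))) (b (a (b (l 17503480) (l 17618080)) (b (a (l 17634664) (l 17528152)) (l 17827720))) (a (l 17691336) (l 17910344)))) (a (b (a (l 17589904) (l 17507576)) (a (l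 2) (l 17437272))) (b (a (l 17670680) (l 17875448)) (a (l 17576328) (l 17756832))))))), by decide +kernel⟩

theorem c_pp_012_b : CertF 0 536870912 1239849684 370763052 67108864 67108864 false true true .pnp 0 1 2
    ndF0q0 ndF1q2b pcF1 cut_pp_012_b Ext.none :=
  certFK2 (fam := false) (s1 := true) (s2 := true) (a := 0) (b := 1) (c := 2) (cn := .pnp) (n1 := ndF0q0) (n2 := ndF1q2b) (pc := pcF1) (cut := cut_pp_012_b) (xt := Ext.none) (P1 := 0) (W1 := 536870912) (P2 := 1239849684) (W2 := 370763052) (P3 := 67108864) (W3 := 67108864)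
    rfl rfl rfl (fun _ => rfl) k0_pp_012_b

noncomputable def cut_pp_022_a : Cut := Cut.of [[⟨0, 0, 0, 67108864⟩, ⟨1, 1, 0, 67108864⟩, ⟨2, 1, 0, 67108864⟩]]

noncomputable def f_pp_022_a : ℕ → ℕ → ℕ → ℕ → Bool := onCell 1073741824 536870912 0 536870912 67108864 67108864
    (rowFK 2 false true true .pp 0 2 2 (qsf 0 536870912 0 536870912 2) ndF0q0 ndF1q2a pcF2 cut_pp_022_a Ext.none)

def k0_pp_022_a : ∃ t, chk3 f_pp_022_a t 2 2 1 = true :=
  ⟨(a (a (a (b (b (l 17559304) (a (l 17425424) (l 17585272))) (b (c (l 17748112) (a (b (l 17215944) (l 17143256)) (l 17186984))) (c (a (b (l 17620792) (l 17529624)) (l 17630376)) (a (b (l 17006424) (a (l 16908032) (l 16919920))) (l 16770256))))) (b (a (b (l 17676080) (l 17537880)) (l 17612048)) (b (a (a (l 17510768) (l 17531552)) (l 17482120)) (a (a (l 17160920) (l 17136640)) (b (l 17396224) (l 17144960)))))) (b (a (b (l 17804016) (l 17752104)) (l 17716264)) (a (b (a (l 17619128) (l 17678528)) (a (b (l 17488688) (l 17254128))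 (b (l 17546072) (l 17286848)))) (b (c (l 18180728) (l 17375472)) (c (b (l 18088736) (l 17990704)) (a (l 16921400) (b (l 17224168) (l 16977736)))))))) (a (b (a (b (l 18074488) (l 18024888)) (l 18158816)) (a (a (b (l 17717480) (a (b (l 17625416) (l 17407576)) (l 95060995575))) (b (l 17900976) (l 1))) (l 1))) (l 1))), by decide +kernel⟩

def k1_pp_022_a : ∃ t, chk3 f_pp_022_a t 2 6 1 = true :=
  ⟨(a (a (a (a (a (b (b (c (l 17379264) (l 16747608)) (b (c (l 17267328) (l 16702776)) (l 16757680))) (b (b (l 16733888) (l 16727440)) (a (b (l 16725352) (l 16734720)) (b (l 16716800) (l 16721112))))) (b (b (c (l 17421832) (l 16750272)) (l 16804336)) (b (b (l 16695200) (l 16699584)) (b (l 16725016) (l 16729592))))) (b (b (l 16904568) (l 16775400)) (a (b (l 16700936) (b (l 16687192) (l 16713104))) (b (l 16683712) (b (l 16691464) (l 16696760)))))) (a (a (b (b (l 17106360) (l 16879032)) (b (l 16666640) (b (l 16674912) (l 16684544)))) (b (b (l 17096664) (l 16860520)) (b (l 16706424)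 (b (l 16677544) (a (l 16664024) (l 16664560)))))) (b (b (a (l 17110984) (l 17127400)) (a (l 16866216) (l 16895544))) (b (a (l 16665816) (l 16668120)) (b (a (l 16678032) (l 16658544)) (a (l 16686792) (l 16677232))))))) (b (b (a (a (l 16925904) (c (l 17725112) (l 16722944))) (c (a (l 17809000) (l 17874824)) (a (l 16747344) (l 16631456)))) (a (a (l 16662240) (b (l 16860528) (l 16732224))) (a (b (c (l 17489680) (l 16641344)) (l 16639536)) (l 1)))) (a (a (a (b (l 16648456) (b (l 16659048) (l 16677176))) (b (l 16649680) (b (l 16659488) (a (l 16665896) (l 16665912))))) (b (b (l 16660880) (a (l 16653608) (l 16654328))) (a (b (l 16659824) (l 1)) (l 1)))) (b (a (a (l 16652576) (l 1)) (l 1)) (l 1))))) (l 1)), by decide +kernel⟩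

def k2_pp_022_a : ∃ t, chk3 f_pp_022_a t 2 7 1 = true :=
  ⟨(a (a (a (b (b (b (a (a (a (c (l 16740336) (l 16742888)) (l 16725560)) (a (l 16717416) (l 16709320))) (a (l 16718200) (l 16702232))) (b (b (a (a (c (l 16741480) (l 16741792)) (l 16737384)) (l 16713584)) (l 6)) (l 6))) (l 6)) (l 6)) (a (b (b (b (a (l 16694856) (a (l 16673880) (l 16695096))) (b (a (l 16681808) (l 16700136)) (l 6))) (l 6)) (l 6)) (b (a (b (b (a (l 16674008) (l 16674232)) (b (a (l 16681160) (l 16681160)) (l 6))) (l 6)) (a (b (b (l 16674144) (b (l 16680864) (l 6))) (l 6)) (b (b (l 16674032) (b (c (l 16681376) (l 16679672)) (l 16685000))) (l 1)))) (l 1)))) (a (b (b (a (a (b (a (b (l 16671784) (l 16675936)) (b (l 16671672) (l 16675688))) (b (a (l 16680176) (l 1)) (l 1))) (b (l 16674056) (l 1))) (l 1)) (l 1)) (l 1)) (l 1))) (l 1)), by decide +kernel⟩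

def k3_pp_022_a : ∃ t, chk3 f_pp_022_a t 3 1 1 = true :=
  ⟨(l 1), by decide +kernel⟩

theorem s4_pp_022_a : ∃ t, chk3 f_pp_022_a t 2 3 1 = true := ex3_b k1_pp_022_a k2_pp_022_a

theorem s5_pp_022_a : ∃ t, chk3 f_pp_022_a t 2 1 1 = true := ex3_b k0_pp_022_a s4_pp_022_a

theorem s6_pp_022_a : ∃ t, chk3 f_pp_022_a t 1 1 1 = true := ex3_a s5_pp_022_a k3_pp_022_a

theorem c_pp_022_a : CertF 0 536870912 0 536870912 67108864 67108864 false true true .pp 0 2 2
    ndF0q0 ndF1q2a pcF2 cut_pp_022_a Ext.none :=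
  certFK2 (fam := false) (s1 := true) (s2 := true) (a := 0) (b := 2) (c := 2) (cn := .pp) (n1 := ndF0q0) (n2 := ndF1q2a) (pc := pcF2) (cut := cut_pp_022_a) (xt := Ext.none) (P1 := 0) (W1 := 536870912) (P2 := 0) (W2 := 536870912) (P3 := 67108864) (W3 := 67108864)
    rfl rfl rfl (fun _ => rfl) s6_pp_022_a

noncomputable def cut_pp_022_b : Cut := Cut.of [[⟨0, 0, 0, 67108864⟩, ⟨1, 1, 0, 67108864⟩, ⟨2, 1, 0, 67108864⟩]]

noncomputable def f_pp_022_b : ℕ → ℕ → ℕ → ℕ → Bool := onCell 1073741824 536870912 1239849684 370763052 67108864 67108864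
    (rowFK 2 false true true .pp 0 2 2 (qsf 0 536870912 1239849684 370763052 2) ndF0q0 ndF1q2b pcF2 cut_pp_022_b Ext.none)

def k0_pp_022_b : ∃ t, chk3 f_pp_022_b t 1 1 1 = true :=
  ⟨(a (a (a (a (b (b (b (b (l 17579320) (l 17861712)) (l 17989984)) (l 18087032)) (b (l 18044736) (l 17908048))) (b (b (b (a (l 17602808) (l 17902256)) (a (l 18043776) (l 18089408))) (b (l 18133568) (l 18149320))) (b (l 18102408) (l 17962480)))) (b (b (b (a (b (l 17904144) (l 18035024)) (l 17885152)) (a (l 18155120) (l 18260280))) (a (l 18239136) (l 18330312))) (b (l 18212024) (l 18064480)))) (b (b (a (b (b (a (l 18162608) (l 18284376)) (l 18337176)) (l 18425120)) (b (l 173982629431) (l 18634296))) (a (l 18462392) (l 18649128))) (b (l 18696200) (l 18272352)))) (b (a (b (l 1) (l 210491640007)) (l 1)) (a (b (l 18776336) (l 18575336)) (l 204049369703)))), by decide +kernel⟩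

theorem c_pp_022_b : CertF 0 536870912 1239849684 370763052 67108864 67108864 false true true .pp 0 2 2
    ndF0q0 ndF1q2b pcF2 cut_pp_022_b Ext.none :=
  certFK2 (fam := false) (s1 := true) (s2 := true) (a := 0) (b := 2) (c := 2) (cn := .pp) (n1 := ndF0q0) (n2 := ndF1q2b) (pc := pcF2) (cut := cut_pp_022_b) (xt := Ext.none) (P1 := 0) (W1 := 536870912) (P2 := 1239849684) (W2 := 370763052) (P3 := 67108864) (W3 := 67108864)
    rfl rfl rfl (fun _ => rfl) k0_pp_022_b

noncomputable def f_pp_023 : ℕ → ℕ → ℕ → ℕ → Bool := onCell 0 536870912 1073741824 536870912 67108864 67108864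
    (rowFK 1 false true true .up 0 2 3 (qsf 0 536870912 1610612736 536870912 2) ndF0q0 ndF1q3 pcF2 Cut.none Ext.none)

def k0_pp_023 : ∃ t, chk3 f_pp_023 t 1 1 1 = true :=
  ⟨(a (b (b (l 1) (l 363498750663)) (b (l 331823693239) (l 234649955223))) (a (b (b (b (l 1) (l 358666711767)) (l 316790978823)) (b (l 18138464) (l 18076432))) (b (b (b (b (l 376383285623) (l 119222444583)) (l 18350472)) (l 18083064)) (b (l 17771688) (l 17728064))))), by decide +kernel⟩

theorem c_pp_023 : CertF 0 536870912 1610612736 536870912 67108864 67108864 false true true .up 0 2 3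
    ndF0q0 ndF1q3 pcF2 Cut.none Ext.none :=
  certFK1 (fam := false) (s1 := true) (s2 := true) (a := 0) (b := 2) (c := 3) (cn := .up) (n1 := ndF0q0) (n2 := ndF1q3) (pc := pcF2) (cut := Cut.none) (xt := Ext.none) (P1 := 0) (W1 := 536870912) (P2 := 1610612736) (W2 := 536870912) (P3 := 67108864) (W3 := 67108864)
    rfl rfl rfl (fun _ => rfl) k0_pp_023

noncomputable def f_pp_033 : ℕ → ℕ → ℕ → ℕ → Bool := onCell 1610612736 536870912 1610612736 536870912 67108864 67108864
    (rowFK 2 false true true .pnn 0 3 3 (qsf 0 536870912 1610612736 536870912 3) ndF0q0 ndF1q3 pcF3 Cut.none Ext.none)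

def k0_pp_033 : ∃ t, chk3 f_pp_033 t 1 1 1 = true :=
  ⟨(a (a (b (b (l 17831072) (l 17786840)) (b (l 17583160) (l 17303136))) (b (b (l 18149080) (l 18301592)) (b (l 18305320) (a (l 17805048) (l 17981936))))) (a (b (a (l 18422872) (l 1)) (b (l 18550952) (l 4))) (l 4))), by decide +kernel⟩

theorem c_pp_033 : CertF 0 536870912 1610612736 536870912 67108864 67108864 false true true .pnn 0 3 3
    ndF0q0 ndF1q3 pcF3 Cut.none Ext.none :=
  certFK2 (fam := false) (s1 := true) (s2 := true) (a := 0) (b := 3) (c := 3) (cn := .pnn) (n1 := ndF0q0) (n2 := ndF1q3) (pc := pcF3) (cut := Cut.none) (xt := Ext.none) (P1 := 0) (W1 := 536870912) (P2 := 1610612736) (W2 := 536870912) (P3 := 67108864) (W3 := 67108864)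
    rfl rfl rfl (fun _ => rfl) k0_pp_033

noncomputable def f_pp_101 : ℕ → ℕ → ℕ → ℕ → Bool := onCell 536870912 536870912 536870912 536870912 67108864 67108864
    (rowFK 0 false true true .npn 1 0 1 (qsf 536870912 536870912 536870912 536870912 0) ndF0q1 ndF1q1 pcF0 Cut.none Ext.none)

def k0_pp_101 : ∃ t, chk3 f_pp_101 t 1 1 1 = true :=
  ⟨(l 3), by decide +kernel⟩

theorem c_pp_101 : CertF 536870912 536870912 536870912 536870912 67108864 67108864 false true true .npn 1 0 1
    ndF0q1 ndF1q1 pcF0 Cut.none Ext.none :=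
  certFK0 (fam := false) (s1 := true) (s2 := true) (a := 1) (b := 0) (c := 1) (cn := .npn) (n1 := ndF0q1) (n2 := ndF1q1) (pc := pcF0) (cut := Cut.none) (xt := Ext.none) (P1 := 536870912) (W1 := 536870912) (P2 := 536870912) (W2 := 536870912) (P3 := 67108864) (W3 := 67108864)
    rfl rfl rfl k0_pp_101

noncomputable def f_pp_102_a : ℕ → ℕ → ℕ → ℕ → Bool := onCell 536870912 536870912 0 536870912 67108864 67108864
    (rowFK 0 false true true .npp 1 0 2 (qsf 536870912 536870912 0 536870912 0) ndF0q1 ndF1q2a pcF0 Cut.none Ext.none)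

def k0_pp_102_a : ∃ t, chk3 f_pp_102_a t 1 1 1 = true :=
  ⟨(l 3), by decide +kernel⟩

theorem c_pp_102_a : CertF 536870912 536870912 0 536870912 67108864 67108864 false true true .npp 1 0 2
    ndF0q1 ndF1q2a pcF0 Cut.none Ext.none :=
  certFK0 (fam := false) (s1 := true) (s2 := true) (a := 1) (b := 0) (c := 2) (cn := .npp) (n1 := ndF0q1) (n2 := ndF1q2a) (pc := pcF0) (cut := Cut.none) (xt := Ext.none) (P1 := 536870912) (W1 := 536870912) (P2 := 0) (W2 := 536870912) (P3 := 67108864) (W3 := 67108864)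
    rfl rfl rfl k0_pp_102_a

noncomputable def f_pp_102_b : ℕ → ℕ → ℕ → ℕ → Bool := onCell 536870912 536870912 0 536870912 67108864 67108864
    (rowFK 1 false true true .npp 1 0 2 (qsf 536870912 536870912 1239849684 370763052 0) ndF0q1 ndF1q2b pcF0 Cut.none Ext.none)

def k0_pp_102_b : ∃ t, chk3 f_pp_102_b t 1 1 1 = true :=
  ⟨(l 3), by decide +kernel⟩

theorem c_pp_102_b : CertF 536870912 536870912 1239849684 370763052 67108864 67108864 false true true .npp 1 0 2
    ndF0q1 ndF1q2b pcF0 Cut.none Ext.none :=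
  certFK1 (fam := false) (s1 := true) (s2 := true) (a := 1) (b := 0) (c := 2) (cn := .npp) (n1 := ndF0q1) (n2 := ndF1q2b) (pc := pcF0) (cut := Cut.none) (xt := Ext.none) (P1 := 536870912) (W1 := 536870912) (P2 := 1239849684) (W2 := 370763052) (P3 := 67108864) (W3 := 67108864)
    rfl rfl rfl (fun _ => rfl) k0_pp_102_b

noncomputable def f_pp_112_a : ℕ → ℕ → ℕ → ℕ → Bool := onCell 536870912 536870912 0 536870912 67108864 67108864
    (rowFK 0 false true true .dn 1 1 2 (qsf 536870912 536870912 0 536870912 1) ndF0q1 ndF1q2a pcF1 Cut.none Ext.none)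

def k0_pp_112_a : ∃ t, chk3 f_pp_112_a t 1 1 1 = true :=
  ⟨(l 3), by decide +kernel⟩

theorem c_pp_112_a : CertF 536870912 536870912 0 536870912 67108864 67108864 false true true .dn 1 1 2
    ndF0q1 ndF1q2a pcF1 Cut.none Ext.none :=
  certFK0 (fam := false) (s1 := true) (s2 := true) (a := 1) (b := 1) (c := 2) (cn := .dn) (n1 := ndF0q1) (n2 := ndF1q2a) (pc := pcF1) (cut := Cut.none) (xt := Ext.none) (P1 := 536870912) (W1 := 536870912) (P2 := 0) (W2 := 536870912) (P3 := 67108864) (W3 := 67108864)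
    rfl rfl rfl k0_pp_112_a

noncomputable def f_pp_112_b : ℕ → ℕ → ℕ → ℕ → Bool := onCell 536870912 536870912 536870912 536870912 67108864 67108864
    (rowFK 1 false true true .dn 1 1 2 (qsf 536870912 536870912 1239849684 370763052 1) ndF0q1 ndF1q2b pcF1 Cut.none Ext.none)

def k0_pp_112_b : ∃ t, chk3 f_pp_112_b t 1 1 1 = true :=
  ⟨(b (l 3) (a (b (a (l 3) (l 3)) (a (b (a (l 17522000) (l 111838059047)) (a (l 17594952) (l 17487672))) (b (l 139218682567) (l 2)))) (b (l 3) (l 2)))), by decide +kernel⟩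

theorem c_pp_112_b : CertF 536870912 536870912 1239849684 370763052 67108864 67108864 false true true .dn 1 1 2
    ndF0q1 ndF1q2b pcF1 Cut.none Ext.none :=
  certFK1 (fam := false) (s1 := true) (s2 := true) (a := 1) (b := 1) (c := 2) (cn := .dn) (n1 := ndF0q1) (n2 := ndF1q2b) (pc := pcF1) (cut := Cut.none) (xt := Ext.none) (P1 := 536870912) (W1 := 536870912) (P2 := 1239849684) (W2 := 370763052) (P3 := 67108864) (W3 := 67108864)
    rfl rfl rfl (fun _ => rfl) k0_pp_112_b

noncomputable def cut_pp_113 : Cut := Cut.of [[⟨0, 1, 0, 21338704⟩, ⟨1, 1, 0, 21338704⟩, ⟨2, 2, 0, 1685920⟩]]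

noncomputable def f_pp_113 : ℕ → ℕ → ℕ → ℕ → Bool := onCell 536870912 536870912 1610612736 536870912 67108864 67108864
    (rowFK 2 false true true .nn 1 1 3 (qsf 536870912 536870912 1610612736 536870912 1) ndF0q1 ndF1q3 pcF1 cut_pp_113 Ext.none)

def k0_pp_113 : ∃ t, chk3 f_pp_113 t 1 1 1 = true :=
  ⟨(a (b (a (l 3) (l 3)) (l 3)) (b (a (l 3) (b (a (b (a (l 3) (c (l 119892621175) (b (a (b (l 94122166343) (l 17771904)) (l 17838344)) (l 17726696)))) (a (l 3) (l 17647368))) (b (a (l 17929424) (l 18071312)) (a (l 17713160) (l 17846888)))) (a (b (l 118280844007) (l 3)) (b (l 17711616) (l 17259056))))) (a (b (l 3) (l 3)) (b (a (l 3) (b (l 202569082567) (a (l 571399108023) (l 17074480)))) (a (l 3) (a (b (l 3) (l 3)) (b (a (l 544555462647) (l 17079144)) (a (l 3) (b (a (l 531670360247) (l 16911904)) (a (l 3) (b (l 275045850071) (a (l 3) (b (l 280414481239) (a (l 3) (b (l 283098801767) (b (l 286319990119) (b (a (l 3) (l 286856850231)) (l 6)))))))))))))))))), by decide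 +kernel⟩

theorem c_pp_113 : CertF 536870912 536870912 1610612736 536870912 67108864 67108864 false true true .nn 1 1 3
    ndF0q1 ndF1q3 pcF1 cut_pp_113 Ext.none :=
  certFK2 (fam := false) (s1 := true) (s2 := true) (a := 1) (b := 1) (c := 3) (cn := .nn) (n1 := ndF0q1) (n2 := ndF1q3) (pc := pcF1) (cut := cut_pp_113) (xt := Ext.none) (P1 := 536870912) (W1 := 536870912) (P2 := 1610612736) (W2 := 536870912) (P3 := 67108864) (W3 := 67108864)
    rfl rfl rfl (fun _ => rfl) k0_pp_113

noncomputable def cut_pp_123 : Cut := Cut.of [[⟨0, 1, 0, 21338704⟩, ⟨1, 1, 0, 21338704⟩, ⟨2, 2, 0, 1685920⟩]]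

noncomputable def f_pp_123 : ℕ → ℕ → ℕ → ℕ → Bool := onCell 1073741824 536870912 1610612736 536870912 67108864 67108864
    (rowFK 2 false true true .npn 1 2 3 (qsf 536870912 536870912 1610612736 536870912 2) ndF0q1 ndF1q3 pcF2 cut_pp_123 Ext.none)

def k0_pp_123 : ∃ t, chk3 f_pp_123 t 1 1 1 = true :=
  ⟨(a (b (a (a (a (b (l 18311128) (b (l 17693952) (l 17423992))) (b (l 76809162615) (b (l 17711160) (l 17455512)))) (b (b (l 18185464) (l 17980560)) (b (l 17755328) (l 17520448)))) (b (a (l 18236648) (l 1)) (a (l 17721648) (l 17789608)))) (a (a (a (b (l 17159896) (b (l 17000584) (a (b (l 16937240) (b (l 16868144) (a (b (l 16826680) (b (l 16801360) (b (l 16787944) (b (l 16791520) (l 6))))) (l 16803160)))) (l 16877680)))) (b (l 17286608) (b (l 16981240) (a (l 16870272) (l 16850064))))) (b (l 17368520) (b (l 16929176) (l 16988512)))) (b (a (l 17278592) (l 17363840)) (a (l 17105288) (l 17013648))))) (b (a (b (l 1) (b (l 1) (l 17875912))) (l 1)) (b (a (l 17745288)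 (l 273303703079)) (a (l 17434376) (l 17545768))))), by decide +kernel⟩

theorem c_pp_123 : CertF 536870912 536870912 1610612736 536870912 67108864 67108864 false true true .npn 1 2 3
    ndF0q1 ndF1q3 pcF2 cut_pp_123 Ext.none :=
  certFK2 (fam := false) (s1 := true) (s2 := true) (a := 1) (b := 2) (c := 3) (cn := .npn) (n1 := ndF0q1) (n2 := ndF1q3) (pc := pcF2) (cut := cut_pp_123) (xt := Ext.none) (P1 := 536870912) (W1 := 536870912) (P2 := 1610612736) (W2 := 536870912) (P3 := 67108864) (W3 := 67108864)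
    rfl rfl rfl (fun _ => rfl) k0_pp_123

noncomputable def f_pp_133 : ℕ → ℕ → ℕ → ℕ → Bool := onCell 1610612736 536870912 1610612736 536870912 67108864 67108864
    (rowFK 2 false true true .dn 1 3 3 (qsf 536870912 536870912 1610612736 536870912 3) ndF0q1 ndF1q3 pcF3 Cut.none Ext.none)

def k0_pp_133 : ∃ t, chk3 f_pp_133 t 1 1 1 = true :=
  ⟨(a (b (l 1) (a (b (l 1) (a (l 17128648) (l 1))) (l 1))) (l 1)), by decide +kernel⟩

theorem c_pp_133 : CertF 536870912 536870912 1610612736 536870912 67108864 67108864 false true true .dn 1 3 3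
    ndF0q1 ndF1q3 pcF3 Cut.none Ext.none :=
  certFK2 (fam := false) (s1 := true) (s2 := true) (a := 1) (b := 3) (c := 3) (cn := .dn) (n1 := ndF0q1) (n2 := ndF1q3) (pc := pcF3) (cut := Cut.none) (xt := Ext.none) (P1 := 536870912) (W1 := 536870912) (P2 := 1610612736) (W2 := 536870912) (P3 := 67108864) (W3 := 67108864)
    rfl rfl rfl (fun _ => rfl) k0_pp_133

noncomputable def f_pp_202_a : ℕ → ℕ → ℕ → ℕ → Bool := onCell 0 536870912 0 536870912 67108864 67108864
    (rowFK 0 false true true .pp 2 0 2 (qsf 0 536870912 0 536870912 0) ndF0q2 ndF1q2a pcF0 Cut.none Ext.none)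

def k0_pp_202_a : ∃ t, chk3 f_pp_202_a t 1 1 1 = true :=
  ⟨(l 3), by decide +kernel⟩

theorem c_pp_202_a : CertF 0 536870912 0 536870912 67108864 67108864 false true true .pp 2 0 2
    ndF0q2 ndF1q2a pcF0 Cut.none Ext.none :=
  certFK0 (fam := false) (s1 := true) (s2 := true) (a := 2) (b := 0) (c := 2) (cn := .pp) (n1 := ndF0q2) (n2 := ndF1q2a) (pc := pcF0) (cut := Cut.none) (xt := Ext.none) (P1 := 0) (W1 := 536870912) (P2 := 0) (W2 := 536870912) (P3 := 67108864) (W3 := 67108864)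
    rfl rfl rfl k0_pp_202_a

noncomputable def f_pp_202_b : ℕ → ℕ → ℕ → ℕ → Bool := onCell 0 536870912 1239849684 370763052 67108864 67108864
    (rowFK 0 false true true .pp 2 0 2 (qsf 0 536870912 1239849684 370763052 0) ndF0q2 ndF1q2b pcF0 Cut.none Ext.none)

def k0_pp_202_b : ∃ t, chk3 f_pp_202_b t 1 1 1 = true :=
  ⟨(l 3), by decide +kernel⟩

theorem c_pp_202_b : CertF 0 536870912 1239849684 370763052 67108864 67108864 false true true .pp 2 0 2
    ndF0q2 ndF1q2b pcF0 Cut.none Ext.none :=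
  certFK0 (fam := false) (s1 := true) (s2 := true) (a := 2) (b := 0) (c := 2) (cn := .pp) (n1 := ndF0q2) (n2 := ndF1q2b) (pc := pcF0) (cut := Cut.none) (xt := Ext.none) (P1 := 0) (W1 := 536870912) (P2 := 1239849684) (W2 := 370763052) (P3 := 67108864) (W3 := 67108864)
    rfl rfl rfl k0_pp_202_b

noncomputable def f_pp_203 : ℕ → ℕ → ℕ → ℕ → Bool := onCell 0 536870912 0 536870912 67108864 67108864
    (rowFK 1 false true true .up 2 0 3 (qsf 0 536870912 1610612736 536870912 0) ndF0q2 ndF1q3 pcF0 Cut.none Ext.none)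

def k0_pp_203 : ∃ t, chk3 f_pp_203 t 1 1 1 = true :=
  ⟨(l 3), by decide +kernel⟩

theorem c_pp_203 : CertF 0 536870912 1610612736 536870912 67108864 67108864 false true true .up 2 0 3
    ndF0q2 ndF1q3 pcF0 Cut.none Ext.none :=
  certFK1 (fam := false) (s1 := true) (s2 := true) (a := 2) (b := 0) (c := 3) (cn := .up) (n1 := ndF0q2) (n2 := ndF1q3) (pc := pcF0) (cut := Cut.none) (xt := Ext.none) (P1 := 0) (W1 := 536870912) (P2 := 1610612736) (W2 := 536870912) (P3 := 67108864) (W3 := 67108864)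
    rfl rfl rfl (fun _ => rfl) k0_pp_203

noncomputable def cut_pp_213 : Cut := Cut.of [[⟨0, 1, 0, 21338704⟩, ⟨1, 1, 0, 21338704⟩, ⟨2, 2, 0, 1685920⟩]]

noncomputable def f_pp_213 : ℕ → ℕ → ℕ → ℕ → Bool := onCell 0 536870912 1610612736 536870912 67108864 67108864
    (rowFK 0 false true true .pnn 2 1 3 (qsf 0 536870912 1610612736 536870912 1) ndF0q2 ndF1q3 pcF1 cut_pp_213 Ext.none)

def k0_pp_213 : ∃ t, chk3 f_pp_213 t 1 1 1 = true :=
  ⟨(b (l 3) (a (l 3) (b (l 3) (a (l 3) (b (l 3) (a (l 3) (b (l 3) (a (l 3) (b (l 3) (a (l 3) (b (l 3) (b (l 3) (b (l 3) (b (l 3) (l 6))))))))))))))), by decide +kernel⟩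

theorem c_pp_213 : CertF 0 536870912 1610612736 536870912 67108864 67108864 false true true .pnn 2 1 3
    ndF0q2 ndF1q3 pcF1 cut_pp_213 Ext.none :=
  certFK0 (fam := false) (s1 := true) (s2 := true) (a := 2) (b := 1) (c := 3) (cn := .pnn) (n1 := ndF0q2) (n2 := ndF1q3) (pc := pcF1) (cut := cut_pp_213) (xt := Ext.none) (P1 := 0) (W1 := 536870912) (P2 := 1610612736) (W2 := 536870912) (P3 := 67108864) (W3 := 67108864)
    rfl rfl rfl k0_pp_213

noncomputable def f_pm_001 : ℕ → ℕ → ℕ → ℕ → Bool := onCell 0 536870912 536870912 536870912 67108864 67108864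
    (rowFK 0 false true false .up 0 0 1 (qsf 0 536870912 536870912 536870912 0) ndF0q0 ndF1q1 pcF0 Cut.none Ext.none)

def k0_pm_001 : ∃ t, chk3 f_pm_001 t 1 1 1 = true :=
  ⟨(l 4), by decide +kernel⟩

theorem c_pm_001 : CertF 0 536870912 536870912 536870912 67108864 67108864 false true false .up 0 0 1
    ndF0q0 ndF1q1 pcF0 Cut.none Ext.none :=
  certFK0 (fam := false) (s1 := true) (s2 := false) (a := 0) (b := 0) (c := 1) (cn := .up) (n1 := ndF0q0) (n2 := ndF1q1) (pc := pcF0) (cut := Cut.none) (xt := Ext.none) (P1 := 0) (W1 := 536870912) (P2 := 536870912) (W2 := 536870912) (P3 := 67108864) (W3 := 67108864)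
    rfl rfl rfl k0_pm_001

noncomputable def f_pm_011 : ℕ → ℕ → ℕ → ℕ → Bool := onCell 0 536870912 536870912 536870912 67108864 67108864
    (rowFK 0 false true false .pnn 0 1 1 (qsf 0 536870912 536870912 536870912 1) ndF0q0 ndF1q1 pcF1 Cut.none Ext.none)

def k0_pm_011 : ∃ t, chk3 f_pm_011 t 1 1 1 = true :=
  ⟨(l 4), by decide +kernel⟩

theorem c_pm_011 : CertF 0 536870912 536870912 536870912 67108864 67108864 false true false .pnn 0 1 1
    ndF0q0 ndF1q1 pcF1 Cut.none Ext.none :=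
  certFK0 (fam := false) (s1 := true) (s2 := false) (a := 0) (b := 1) (c := 1) (cn := .pnn) (n1 := ndF0q0) (n2 := ndF1q1) (pc := pcF1) (cut := Cut.none) (xt := Ext.none) (P1 := 0) (W1 := 536870912) (P2 := 536870912) (W2 := 536870912) (P3 := 67108864) (W3 := 67108864)
    rfl rfl rfl k0_pm_011

noncomputable def cut_pm_012_a : Cut := Cut.of [[⟨0, 0, 0, 67108864⟩, ⟨1, 1, 0, 67108864⟩, ⟨2, 1, 0, 67108864⟩], [⟨0, 0, 1, 33554432⟩, ⟨1, 1, 2, 33554432⟩, ⟨2, 1, 0, 16777216⟩, ⟨0, 0, 0, 150994944⟩, ⟨0, 1, 0, 1023410176⟩, ⟨1, 0, 0, 1023410176⟩, ⟨1, 1, 0, 150994944⟩]]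

noncomputable def f_pm_012_a : ℕ → ℕ → ℕ → ℕ → Bool := onCell 536870912 536870912 0 536870912 67108864 67108864
    (rowFK 2 false true false .pnp 0 1 2 (qsf 0 536870912 0 536870912 1) ndF0q0 ndF1q2a pcF1 cut_pm_012_a Ext.none)

def k0_pm_012_a : ∃ t, chk3 f_pm_012_a t 2 1 1 = true :=
  ⟨(b (a (a (l 2) (l 17594416)) (a (l 17545528) (l 17513112))) (b (a (a (l 2) (l 17817648)) (a (l 17778960) (l 17648936))) (a (b (l 18136800) (a (l 18434384) (b (l 18211600) (l 18305432)))) (b (a (l 17968248) (l 17770576)) (a (b (l 18084512) (l 18258512)) (a (l 17931456) (l 17866432))))))), by decide +kernel⟩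

def k1_pm_012_a : ∃ t, chk3 f_pm_012_a t 3 2 1 = true :=
  ⟨(a (a (l 17627256) (a (l 17902144) (l 18106872))) (a (b (a (l 18191408) (l 18317136)) (a (l 18298064) (l 18369312))) (a (a (b (l 18377848) (l 18371008)) (b (l 18399664) (a (l 18348616) (l 18069160)))) (b (b (l 18365624) (l 18222280)) (b (a (l 18337104) (c (l 18764600) (l 17682184))) (c (a (l 18671048) (l 18582752)) (a (l 17667472) (b (l 17466384) (l 17242376))))))))), by decide +kernel⟩

def k2_pm_012_a : ∃ t, chk3 f_pm_012_a t 6 3 1 = true :=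
  ⟨(a (b (l 17776400) (b (l 17831456) (a (l 17902448) (a (l 17704992) (a (l 17708896) (l 17719776)))))) (b (a (l 18027152) (b (l 18208048) (l 18145296))) (b (a (l 17931584) (a (l 17934144) (b (l 18029296) (l 17888800)))) (b (a (l 17802488) (a (a (l 17778848) (l 17586752)) (b (l 17666576) (c (l 17877928) (l 17274928))))) (b (a (l 17668504) (c (a (l 17812608) (l 17748920)) (a (a (l 17470488) (l 17393272)) (a (l 17166864) (a (l 17131400) (l 17006176)))))) (a (a (l 17654576) (a (l 17624824) (l 17485344))) (a (c (l 17692448) (a (b (l 17399696) (l 17308544)) (c (l 17356024) (b (l 17208160) (a (l 17183056) (l 16992056)))))) (c (b (l 17639728) (l 17476776)) (b (c (l 17145904) (a (l 17063224) (b (l 17031368) (l 14)))) (c (a (l 17259304) (b (l 17199168) (l 17099200))) (a (b (l 16972872) (a (l 16983016) (l 14))) (l 14)))))))))))), by decide +kernel⟩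

def k3_pm_012_a : ∃ t, chk3 f_pm_012_a t 14 6 1 = true :=
  ⟨(a (b (l 18270584) (a (l 18151664) (l 18122512))) (b (a (l 18264888) (l 18232624)) (c (a (l 18389720) (l 18350984)) (a (l 17573208) (b (l 17684712) (l 17307048)))))), by decide +kernel⟩

def k4_pm_012_a : ∃ t, chk3 f_pm_012_a t 14 14 1 = true :=
  ⟨(b (a (a (l 17985296) (l 17765776)) (c (a (l 18153968) (l 17963840)) (a (b (l 17503328) (l 17379232)) (a (l 17201824) (l 16987192))))) (a (c (a (l 18084440) (l 18018608)) (a (l 17439136) (b (l 17448936) (l 17132224)))) (b (c (a (l 17980752) (l 17616912)) (a (l 16985480) (l 16672864))) (c (a (l 17838912) (a (l 17702648) (l 17392016))) (a (a (l 17146432) (l 16998960)) (a (l 16818912) (l 16667136))))))), by decide +kernel⟩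

def k5_pm_012_a : ∃ t, chk3 f_pm_012_a t 28 15 1 = true :=
  ⟨(c (b (a (l 17755744) (b (l 17825784) (c (l 17833624) (l 17381504)))) (b (a (c (l 17780920) (l 17423360)) (c (l 17613160) (a (l 17319488) (b (l 17325504) (l 17167096))))) (b (a (l 17267008) (c (l 17422088) (a (l 17162752) (c (l 17192864) (l 14))))) (a (c (l 17559408) (a (l 17340632) (b (l 17276816) (l 17189992)))) (c (a (l 17445400) (b (l 17378704) (l 17280992))) (a (c (b (l 17250256) (l 17201720)) (l 14)) (l 14))))))) (b (a (b (l 17226128) (a (l 17223120) (l 16961792))) (a (b (l 17211944) (a (l 17006448) (l 16925120))) (b (l 17032672) (l 16697832)))) (b (a (b (a (l 17120456) (l 16955472)) (c (a (l 17242456) (l 17145632)) (l 14))) (b (a (l 16834856) (l 16775040)) (a (l 14) (l 16727032)))) (c (a (b (a (l 17103960) (b (l 17064472) (l 14))) (a (c (b (l 17172376) (l 17132664)) (l 14)) (l 14))) (l 14)) (c (l 14) (a (l 14) (a (l 14) (a (l 14) (b (l 16731960) (b (l 16738968) (b (l 16742592) (a (l 14) (a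 (l 14) (a (l 14) (b (l 16744856) (l 16746112)))))))))))))))), by decide +kernel⟩

def k6_pm_012_a : ∃ t, chk3 f_pm_012_a t 29 30 1 = true :=
  ⟨(a (c (b (a (l 17718248) (l 17540312)) (c (a (l 17725808) (l 17631128)) (a (l 17288744) (b (l 17270632) (l 17121984))))) (b (a (l 16871768) (l 16785928)) (a (l 16706560) (l 16713184)))) (a (b (c (c (l 17732816) (l 17174392)) (l 16684968)) (b (c (c (l 17570200) (l 17089488)) (l 16697088)) (l 16717344))) (b (l 16691224) (b (l 16698192) (l 16717840))))), by decide +kernel⟩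

def k7_pm_012_a : ∃ t, chk3 f_pm_012_a t 29 62 1 = true :=
  ⟨(a (c (c (a (l 17417056) (b (l 17465288) (l 17199784))) (b (a (l 17161088) (l 16821888)) (l 14))) (a (b (l 16716024) (l 16724696)) (b (l 16715456) (l 16735160)))) (a (b (l 16725320) (a (l 16733064) (l 16733168))) (a (b (l 16718064) (l 16733320)) (b (l 16718008) (l 16737456))))), by decide +kernel⟩

def k8_pm_012_a : ∃ t, chk3 f_pm_012_a t 58 63 1 = true :=
  ⟨(a (c (c (b (l 17207240) (c (b (l 17354608) (l 17293552)) (l 14))) (l 14)) (c (l 14) (b (b (l 16730200) (l 16740216)) (b (a (l 16740104) (l 16740624)) (a (c (l 14) (b (l 16743192) (b (a (l 16745032) (l 16745376)) (b (a (l 16745976) (l 16746336)) (a (a (l 16746552) (l 16746728)) (a (l 16746912) (l 16747096))))))) (b (l 16747064) (b (a (l 16746320) (l 16746680)) (a (c (l 14) (a (l 16748272) (l 16748456))) (a (c (l 14) (l 16748656)) (c (c (l 14) (l 16749704)) (l 16747536))))))))))) (b (a (b (l 16734816) (l 16742304)) (b (l 16735000) (l 16742624)))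 (c (l 14) (c (a (l 14) (a (l 14) (a (l 14) (b (l 16744432) (b (l 16748424) (c (l 14) (b (l 16749928) (c (l 14) (b (l 16750688) (l 16751376)))))))))) (b (a (l 16741200) (l 16747072)) (b (a (c (l 16745672) (l 16744544)) (c (l 16751608) (l 16745296))) (a (b (a (l 16747048) (l 16747424)) (b (a (l 16748040) (l 16748432)) (a (a (c (l 16750512) (l 16748072)) (a (l 16750104) (l 16750200))) (a (a (l 16750304) (l 16751720)) (a (l 16751816) (l 16749296)))))) (b (a (l 16747816) (l 16748224)) (a (b (l 16748832) (b (l 16750656) (a (l 16750928) (l 16751136)))) (a (a (l 16751448) (l 16750896)) (a (l 16751008) (l 16752424)))))))))))), by decide +kernel⟩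

def k9_pm_012_a : ∃ t, chk3 f_pm_012_a t 118 63 1 = true :=
  ⟨(c (l 14) (b (b (l 16740320) (a (l 16738216) (l 16738760))) (b (a (a (l 16743552) (l 16743888)) (a (l 16744224) (l 16744584))) (b (a (a (l 16752848) (l 16753224)) (a (l 16753616) (l 16754016))) (c (a (c (l 14) (b (a (l 16750168) (l 16750560)) (b (a (l 16751200) (l 16751600)) (a (b (l 16751720) (a (l 16752000) (l 16752208))) (a (l 16752896) (l 16753752)))))) (a (b (l 16751440) (c (l 14) (b (l 16752008) (a (l 16752656) (l 16752872))))) (b (l 16751840) (a (b (l 16752848) (c (l 14) (l 16753088))) (b (l 16753056) (c (c (l 14) (l 16754000)) (l 16753304))))))) (a (b (a (l 16748640) (l 16749064)) (a (b (l 16749680) (a (l 16751616) (l 16751840))) (b (l 16750120) (a (l 16753368) (l 16750976))))) (b (a (l 16749504) (l 16749960)) (a (b (l 16750568) (a (l 16751208) (l 16751440))) (b (l 16751032) (a (l 16751680) (l 16751920))))))))))), by decide +kernel⟩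

def k10_pm_012_a : ∃ t, chk3 f_pm_012_a t 119 63 1 = true :=
  ⟨(a (c (l 14) (b (b (l 16733896) (l 16739344)) (b (a (l 16750192) (l 16750576)) (a (b (l 16754432) (a (b (l 16751280) (b (c (l 16753272) (l 16751440)) (c (c (a (l 16754400) (l 16754504)) (l 16753528)) (l 16752168)))) (b (l 16751496) (c (b (l 16753480) (b (l 16754024) (a (l 16755656) (l 16755768)))) (l 16753352))))) (b (l 16754856) (a (b (l 16751728) (c (b (l 16753704) (b (l 16754248) (a (l 16755872) (l 16755992)))) (l 16753600))) (b (l 16751952) (b (l 16755176) (c (c (c (l 16755304) (l 16754864)) (l 16754216)) (l 16752912)))))))))) (c (a (l 14) (a (l 14) (a (l 14) (b (l 16746664) (b (l 16749792) (b (l 16754088) (c (l 14) (c (l 14) (c (l 14) (b (l 16754824) (l 16757288))))))))))) (b (b (l 16734408) (l 16739984)) (b (a (l 16750968) (l 16751376)) (a (b (l 16755296) (a (b (l 16752184) (b (l 16755912) (c (a (l 16756144) (l 16756264)) (l 16753168)))) (b (l 16752424) (b (l 16756152) (c (a (l 16756376)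 (l 16756496)) (l 16753424)))))) (b (l 16753128) (a (b (l 16752664) (b (l 16756392) (c (a (l 16756608) (l 16756728)) (l 16753688)))) (b (l 16752904) (b (l 16756640) (c (a (l 16756848) (l 16755656)) (l 16753944))))))))))), by decide +kernel⟩

def k11_pm_012_a : ∃ t, chk3 f_pm_012_a t 30 6 1 = true :=
  ⟨(b (a (c (l 18560472) (l 17617312)) (c (l 18516256) (a (l 17616864) (l 17487776)))) (a (b (a (l 17961224) (l 17666776)) (c (l 18159136) (a (l 17277760) (l 17107672)))) (c (b (a (l 18281280) (l 18198536)) (a (l 18021000) (l 17743976))) (a (b (l 17255824) (l 16875496)) (b (l 17060392) (l 16631120)))))), by decide +kernel⟩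

def k12_pm_012_a : ∃ t, chk3 f_pm_012_a t 30 14 1 = true :=
  ⟨(a (b (c (c (l 18128424) (a (l 17671416) (l 17378496))) (a (l 16800312) (l 16651992))) (b (a (c (l 17543048) (l 16649104)) (l 16720624)) (a (l 16704320) (a (l 16671400) (l 16665008))))) (b (b (a (c (l 17714976) (l 16613512)) (l 16847984)) (a (l 16727424) (l 16627768))) (b (a (l 16665936) (l 16644184)) (a (a (l 16663952) (l 16663512)) (b (l 16657464) (l 16666912)))))), by decide +kernel⟩

def k13_pm_012_a : ∃ t, chk3 f_pm_012_a t 30 15 1 = true :=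
  ⟨(b (b (a (a (b (l 16678824) (l 16687584)) (a (l 16683384) (l 16693456))) (a (a (l 16692920) (l 16692984)) (b (l 16676776) (l 16687064)))) (a (a (b (l 16707304) (c (l 16716416) (l 16715040))) (b (a (l 16697544) (l 16697512)) (a (l 16707624) (l 16707840)))) (a (b (a (l 16697352) (l 16697784)) (a (l 16718408) (l 16708600))) (a (b (l 16697784) (l 16708832)) (b (l 16697752) (l 6)))))) (b (b (a (a (a (l 16718008) (l 16723304)) (a (l 16728648) (l 16729112))) (a (a (c (l 16730904) (l 16727968)) (l 16725104)) (l 6))) (a (a (c (a (l 16735616) (l 16738416)) (a (l 16737184) (l 16737608))) (a (a (l 16734728) (l 16734944)) (a (l 16737792) (l 16738112)))) (l 6))) (a (a (a (b (b (l 16741960) (a (l 16747744) (l 16748056))) (c (c (l 14) (a (c (l 14) (b (l 16748640) (b (l 16753000) (b (l 16755208) (a (b (l 16756280) (a (l 16758296) (l 6))) (l 6)))))) (b (l 16754648) (b (l 16756424) (l 6))))) (b (a (l 16751792) (l 16752224)) (b (a (l 16753584) (l 16754056)) (a (a (b (l 16753144)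 (b (l 16756888) (c (c (l 16757528) (l 16755416)) (l 16754216)))) (b (l 16753392) (l 6))) (l 6)))))) (b (b (l 16742448) (a (l 16748384) (l 16748720))) (a (b (b (l 16752744) (l 6)) (l 6)) (l 6)))) (a (b (b (a (l 16737992) (l 16738296)) (l 6)) (l 6)) (l 6))) (l 6)))), by decide +kernel⟩

def k14_pm_012_a : ∃ t, chk3 f_pm_012_a t 31 3 1 = true :=
  ⟨(b (b (a (c (b (l 18492744) (l 18299272)) (b (l 17375512) (l 17017672))) (c (b (l 18318768) (a (l 18116576) (c (l 18347176) (l 17527664)))) (b (l 16805168) (a (l 16669312) (l 16518104))))) (a (b (c (a (l 18088264) (l 17793336)) (a (l 16816288) (l 16554536))) (a (c (c (l 18074872) (l 17279272)) (l 16585552)) (l 16656376))) (b (a (l 16758904) (b (l 16706176) (l 16549248))) (b (a (l 16568320) (l 16563736)) (a (l 16583224) (l 16663512)))))) (b (b (a (a (b (l 16608136) (l 16623992)) (b (l 16603400) (l 16641248))) (b (a (l 16620552) (a (l 16597584) (l 16617264))) (a (b (l 16612736) (l 16622040)) (a (l 16637112) (l 16625800)))))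 (a (b (a (b (l 16636832) (l 16645944)) (b (l 16633848) (l 16643448))) (a (b (l 16655464) (l 16665392)) (a (l 16669600) (l 16668704)))) (b (a (a (l 16657944) (l 16657552)) (a (l 16657168) (l 6))) (a (a (b (l 16652256) (l 6)) (l 6)) (l 6))))) (b (a (b (a (b (l 16680976) (c (l 16692912) (l 16685328))) (l 6)) (l 6)) (l 6)) (l 6)))), by decide +kernel⟩

theorem s15_pm_012_a : ∃ t, chk3 f_pm_012_a t 30 7 1 = true := ex3_b k12_pm_012_a k13_pm_012_a

theorem s16_pm_012_a : ∃ t, chk3 f_pm_012_a t 30 3 1 = true := ex3_b k11_pm_012_a s15_pm_012_a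

theorem s17_pm_012_a : ∃ t, chk3 f_pm_012_a t 15 3 1 = true := ex3_a s16_pm_012_a k14_pm_012_a

theorem s18_pm_012_a : ∃ t, chk3 f_pm_012_a t 59 63 1 = true := ex3_a k9_pm_012_a k10_pm_012_a

theorem s19_pm_012_a : ∃ t, chk3 f_pm_012_a t 29 63 1 = true := ex3_a k8_pm_012_a s18_pm_012_a

theorem s20_pm_012_a : ∃ t, chk3 f_pm_012_a t 29 31 1 = true := ex3_b k7_pm_012_a s19_pm_012_a

theorem s21_pm_012_a : ∃ t, chk3 f_pm_012_a t 29 15 1 = true := ex3_b k6_pm_012_a s20_pm_012_a

theorem s22_pm_012_a : ∃ t, chk3 f_pm_012_a t 14 15 1 = true := ex3_a k5_pm_012_a s21_pm_012_a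

theorem s23_pm_012_a : ∃ t, chk3 f_pm_012_a t 14 7 1 = true := ex3_b k4_pm_012_a s22_pm_012_a

theorem s24_pm_012_a : ∃ t, chk3 f_pm_012_a t 14 3 1 = true := ex3_b k3_pm_012_a s23_pm_012_a

theorem s25_pm_012_a : ∃ t, chk3 f_pm_012_a t 7 3 1 = true := ex3_a s24_pm_012_a s17_pm_012_a

theorem s26_pm_012_a : ∃ t, chk3 f_pm_012_a t 3 3 1 = true := ex3_a k2_pm_012_a s25_pm_012_a

theorem s27_pm_012_a : ∃ t, chk3 f_pm_012_a t 3 1 1 = true := ex3_b k1_pm_012_a s26_pm_012_a

theorem s28_pm_012_a : ∃ t, chk3 f_pm_012_a t 1 1 1 = true := ex3_a k0_pm_012_a s27_pm_012_a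

theorem c_pm_012_a : CertF 0 536870912 0 536870912 67108864 67108864 false true false .pnp 0 1 2
    ndF0q0 ndF1q2a pcF1 cut_pm_012_a Ext.none :=
  certFK2 (fam := false) (s1 := true) (s2 := false) (a := 0) (b := 1) (c := 2) (cn := .pnp) (n1 := ndF0q0) (n2 := ndF1q2a) (pc := pcF1) (cut := cut_pm_012_a) (xt := Ext.none) (P1 := 0) (W1 := 536870912) (P2 := 0) (W2 := 536870912) (P3 := 67108864) (W3 := 67108864)
    rfl rfl rfl (fun _ => rfl) s28_pm_012_a

noncomputable def cut_pm_012_b : Cut := Cut.of [[⟨0, 0, 0, 67108864⟩, ⟨1, 1, 0, 67108864⟩, ⟨2, 1, 0, 67108864⟩], [⟨0, 0, 1, 33554432⟩, ⟨1, 1, 2, 33554432⟩, ⟨2, 1, 0, 16777216⟩, ⟨0, 0, 0, 150994944⟩, ⟨0, 1, 0, 1023410176⟩, ⟨1, 0, 0, 1023410176⟩, ⟨1, 1, 0, 150994944⟩]]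

noncomputable def f_pm_012_b : ℕ → ℕ → ℕ → ℕ → Bool := onCell 536870912 536870912 1239849684 370763052 67108864 67108864
    (rowFK 2 false true false .pnp 0 1 2 (qsf 0 536870912 1239849684 370763052 1) ndF0q0 ndF1q2b pcF1 cut_pm_012_b Ext.none)

def k0_pm_012_b : ∃ t, chk3 f_pm_012_b t 1 1 1 = true :=
  ⟨(a (b (a (l 2) (b (a (l 17278152) (l 17334752)) (a (l 2) (l 17099480)))) (l 2)) (b (a (b (a (l 17469040) (l 17868184)) (a (l 17354368) (l 17779912))) (a (b (a (l 18199504) (l 18402776)) (l 18332120)) (a (b (b (l 18494184) (l 18674952)) (l 18749424)) (b (b (b (l 18470456) (l 18671848)) (l 18868960)) (l 19021656))))) (a (b (a (l 2) (l 17618712)) (l 2)) (a (b (l 18122072) (l 17913728)) (a (b (l 18619352) (l 18329824)) (l 18836768)))))), by decide +kernel⟩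

theorem c_pm_012_b : CertF 0 536870912 1239849684 370763052 67108864 67108864 false true false .pnp 0 1 2
    ndF0q0 ndF1q2b pcF1 cut_pm_012_b Ext.none :=
  certFK2 (fam := false) (s1 := true) (s2 := false) (a := 0) (b := 1) (c := 2) (cn := .pnp) (n1 := ndF0q0) (n2 := ndF1q2b) (pc := pcF1) (cut := cut_pm_012_b) (xt := Ext.none) (P1 := 0) (W1 := 536870912) (P2 := 1239849684) (W2 := 370763052) (P3 := 67108864) (W3 := 67108864)
    rfl rfl rfl (fun _ => rfl) k0_pm_012_b

end Pool.Agent.Strip051.G.I1_16_1_8.Tab.C.FB01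

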