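import Pool.Agent.Strip051.G.I1_16_1_8.Gn
import Pool.Agent.Strip051.PB.Corns
import Pool.Agent.Strip051.PB.CornK

/-! # Certificates of the aligned corners (generated) -/

set_option linter.all false

namespace Pool.Agent.Strip051.G.I1_16_1_8.Tab.CF

open Pool.Agent.Strip051.PB

def B102E_010_1_4_1 :
    ∃ t, chk3 (onCell 0 67108864 0 1073741824 67108864 67108864 (corTK [] true 1 c0F cB102E gF0q1 gF1q2 gF0q0 gF1q0 true true)) t 1 4 1 = true :=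
  ⟨(T.l 1), by decide +kernel⟩

def B102E_010_1_40_1 :
    ∃ t, chk3 (onCell 0 67108864 0 1073741824 67108864 67108864 (corTK [] true 1 c0F cB102E gF0q1 gF1q2 gF0q0 gF1q0 true true)) t 1 40 1 = true :=
  ⟨(T.l 1), by decide +kernel⟩

def B102E_010_1_82_1 :
    ∃ t, chk3 (onCell 0 67108864 0 1073741824 67108864 67108864 (corTK [] true 1 c0F cB102E gF0q1 gF1q2 gF0q0 gF1q0 true true)) t 1 82 1 = true :=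
  ⟨(T.a (T.b (T.a (T.b (T.l 1) (T.a (T.c (T.b (T.a (T.c (T.b (T.a (T.c (T.b (T.l 1) (T.l 204)) (T.l 204)) (T.l 1)) (T.l 204)) (T.a (T.l 204) (T.b (T.l 1) (T.l 204)))) (T.a (T.c (T.b (T.l 1) (T.c (T.b (T.l 1) (T.l 220)) (T.a (T.l 204) (T.l 1)))) (T.b (T.l 1) (T.l 204))) (T.l 1))) (T.c (T.a (T.l 204) (T.c (T.a (T.l 204) (T.c (T.a (T.l 204) (T.c (T.b (T.b (T.l 1) (T.l 204)) (T.l 204)) (T.l 220))) (T.l 220))) (T.l 204))) (T.l 204))) (T.b (T.a (T.c (T.a (T.l 204) (T.b (T.l 1) (T.l 204))) (T.l 460)) (T.c (T.b (T.l 1) (T.a (T.l 204) (T.l 1))) (T.b (T.l 1) (T.a (T.l 204) (T.l 1))))) (T.l 204))) (T.a (T.c (T.b (T.l 1) (T.c (T.b (T.a (T.c (T.b (T.l 1) (T.a (T.l 220) (T.l 1))) (T.b (T.l 1) (T.l 220))) (T.l 1)) (T.c (T.a (T.l 204) (T.b (T.a (T.l 220) (T.l 1)) (T.l 220))) (T.l 220))) (T.b (T.a (T.a (T.l 204)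 (T.l 1)) (T.l 1)) (T.l 204)))) (T.b (T.l 1) (T.c (T.b (T.a (T.l 460) (T.l 1)) (T.l 204)) (T.b (T.a (T.l 460) (T.l 1)) (T.l 204))))) (T.l 1)))) (T.l 1)) (T.a (T.a (T.l 204) (T.a (T.l 204) (T.b (T.c (T.a (T.l 220) (T.b (T.c (T.b (T.c (T.b (T.l 1) (T.c (T.l 220) (T.l 220))) (T.b (T.l 1) (T.l 220))) (T.l 204)) (T.l 476)) (T.l 204))) (T.c (T.l 460) (T.l 460))) (T.l 204)))) (T.b (T.a (T.a (T.c (T.b (T.c (T.b (T.l 1) (T.a (T.c (T.c (T.a (T.l 220) (T.b (T.l 1) (T.l 204))) (T.l 476)) (T.l 220)) (T.c (T.b (T.l 1) (T.a (T.l 220) (T.l 1))) (T.b (T.l 1) (T.l 476))))) (T.b (T.l 1) (T.a (T.l 204) (T.a (T.l 476) (T.l 1))))) (T.l 220)) (T.b (T.c (T.b (T.l 1) (T.a (T.l 204) (T.a (T.l 460) (T.l 1)))) (T.b (T.l 1) (T.c (T.a (T.l 204) (T.a (T.l 460) (T.l 1))) (T.l 460)))) (T.l 204))) (T.c (T.b (T.l 1) (T.a (T.c (T.b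 (T.c (T.b (T.a (T.a (T.l 220) (T.l 1)) (T.l 1)) (T.c (T.l 476) (T.l 476))) (T.b (T.a (T.l 476) (T.l 1)) (T.l 476))) (T.l 220)) (T.a (T.l 476) (T.c (T.l 476) (T.l 476)))) (T.c (T.b (T.l 1) (T.a (T.l 220) (T.l 476))) (T.b (T.l 1) (T.l 476))))) (T.b (T.l 1) (T.a (T.a (T.l 204) (T.c (T.l 460) (T.l 460))) (T.c (T.b (T.l 1) (T.l 460)) (T.b (T.l 1) (T.l 460))))))) (T.a (T.a (T.c (T.b (T.l 1) (T.c (T.b (T.l 1) (T.c (T.b (T.l 1) (T.a (T.l 476) (T.c (T.l 476) (T.l 476)))) (T.b (T.l 1) (T.l 476)))) (T.b (T.l 1) (T.c (T.b (T.l 1) (T.l 476)) (T.b (T.l 1) (T.l 476)))))) (T.b (T.l 1) (T.c (T.b (T.l 1) (T.c (T.b (T.l 1) (T.l 460)) (T.b (T.l 1) (T.l 460)))) (T.b (T.l 1) (T.c (T.b (T.l 1) (T.l 460)) (T.b (T.l 1) (T.l 460))))))) (T.l 1)) (T.l 1))) (T.a (T.a (T.l 204) (T.a (T.l 204) (T.l 220))) (T.a (T.c (T.a (T.l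 476) (T.a (T.l 476) (T.b (T.c (T.a (T.l 476) (T.b (T.c (T.b (T.l 1) (T.l 476)) (T.b (T.l 1) (T.l 476))) (T.l 204))) (T.a (T.l 476) (T.l 476))) (T.l 204)))) (T.a (T.l 460) (T.a (T.l 460) (T.c (T.l 460) (T.l 460))))) (T.c (T.b (T.c (T.b (T.a (T.a (T.c (T.b (T.l 1) (T.l 476)) (T.b (T.l 1) (T.l 476))) (T.l 1)) (T.l 1)) (T.a (T.l 476) (T.c (T.b (T.l 1) (T.l 476)) (T.b (T.l 1) (T.l 476))))) (T.b (T.a (T.a (T.c (T.b (T.l 1) (T.l 476)) (T.b (T.l 1) (T.l 460))) (T.l 1)) (T.l 1)) (T.a (T.l 476) (T.c (T.b (T.l 1) (T.l 476)) (T.b (T.l 1) (T.l 476)))))) (T.c (T.l 476) (T.l 476))) (T.b (T.c (T.b (T.a (T.a (T.c (T.b (T.l 1) (T.l 460)) (T.a (T.l 460) (T.l 1))) (T.l 1)) (T.l 1)) (T.a (T.l 460) (T.c (T.b (T.l 1) (T.l 460)) (T.b (T.l 1) (T.l 460))))) (T.b (T.a (T.c (T.b (T.l 1) (T.a (T.l 460) (T.l 1))) (T.b (T.l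 1) (T.c (T.l 460) (T.l 460)))) (T.l 1)) (T.a (T.l 460) (T.c (T.b (T.l 1) (T.l 460)) (T.b (T.l 1) (T.l 460)))))) (T.c (T.l 460) (T.l 460))))))))) (T.a (T.a (T.b (T.l 1) (T.b (T.l 1) (T.c (T.b (T.l 1) (T.a (T.a (T.a (T.l 476) (T.a (T.l 476) (T.c (T.b (T.c (T.b (T.l 1) (T.l 476)) (T.b (T.l 1) (T.l 460))) (T.l 204)) (T.c (T.l 476) (T.l 476))))) (T.c (T.b (T.a (T.c (T.b (T.l 1) (T.l 476)) (T.b (T.l 1) (T.l 476))) (T.l 1)) (T.l 476)) (T.b (T.c (T.b (T.l 1) (T.a (T.l 476) (T.l 1))) (T.b (T.l 1) (T.a (T.l 476) (T.l 1)))) (T.l 476)))) (T.a (T.c (T.b (T.l 1) (T.c (T.b (T.a (T.a (T.l 476) (T.l 1)) (T.l 1)) (T.l 476)) (T.b (T.a (T.a (T.l 476) (T.l 1)) (T.l 1)) (T.l 476)))) (T.b (T.l 1) (T.c (T.b (T.a (T.a (T.l 476) (T.l 1)) (T.l 1)) (T.l 476)) (T.b (T.a (T.l 476) (T.l 1)) (T.l 476))))) (T.l 1)))) (T.b (T.l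 1) (T.a (T.a (T.c (T.c (T.l 476) (T.l 460)) (T.l 460)) (T.c (T.b (T.c (T.b (T.l 1) (T.a (T.l 460) (T.l 1))) (T.b (T.l 1) (T.a (T.l 460) (T.l 1)))) (T.l 460)) (T.b (T.c (T.b (T.l 1) (T.a (T.l 460) (T.l 1))) (T.b (T.l 1) (T.l 460))) (T.l 460)))) (T.a (T.c (T.b (T.l 1) (T.c (T.b (T.a (T.l 476) (T.l 1)) (T.l 476)) (T.b (T.a (T.l 460) (T.l 1)) (T.l 460)))) (T.b (T.l 1) (T.c (T.b (T.a (T.l 460) (T.l 1)) (T.l 460)) (T.a (T.l 460) (T.b (T.l 1) (T.l 460)))))) (T.l 1))))))) (T.l 1)) (T.l 1))), by decide +kernel⟩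

def B102E_010_2_83_1 :
    ∃ t, chk3 (onCell 0 67108864 0 1073741824 67108864 67108864 (corTK [] true 1 c0F cB102E gF0q1 gF1q2 gF0q0 gF1q0 true true)) t 2 83 1 = true :=
  ⟨(T.a (T.a (T.l 204) (T.l 204)) (T.a (T.a (T.l 204) (T.l 204)) (T.a (T.l 204) (T.l 476)))), by decide +kernel⟩

def B102E_010_6_83_1 :
    ∃ t, chk3 (onCell 0 67108864 0 1073741824 67108864 67108864 (corTK [] true 1 c0F cB102E gF0q1 gF1q2 gF0q0 gF1q0 true true)) t 6 83 1 = true :=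
  ⟨(T.a (T.b (T.b (T.a (T.l 476) (T.a (T.l 476) (T.c (T.a (T.l 476) (T.a (T.l 476) (T.b (T.c (T.b (T.c (T.b (T.l 1) (T.l 476)) (T.b (T.l 1) (T.l 476))) (T.l 204)) (T.c (T.c (T.l 476) (T.l 476)) (T.l 476))) (T.l 204)))) (T.c (T.a (T.l 460) (T.l 476)) (T.l 476))))) (T.l 476)) (T.l 204)) (T.b (T.a (T.b (T.a (T.c (T.b (T.c (T.b (T.c (T.b (T.l 1) (T.a (T.l 476) (T.l 1))) (T.b (T.l 1) (T.a (T.l 476) (T.l 1)))) (T.l 476)) (T.b (T.c (T.b (T.l 1) (T.a (T.l 476) (T.l 1))) (T.b (T.l 1) (T.a (T.l 476) (T.l 1)))) (T.l 476))) (T.l 204)) (T.b (T.c (T.b (T.c (T.b (T.l 1) (T.a (T.l 476) (T.l 1))) (T.b (T.l 1) (T.a (T.l 460) (T.l 1)))) (T.l 476)) (T.b (T.c (T.b (T.l 1) (T.a (T.l 460) (T.l 1))) (T.b (T.l 1) (T.l 476))) (T.l 460))) (T.l 204))) (T.c (T.b (T.c (T.b (T.l 1) (T.c (T.b (T.a (T.a (T.l 476) (T.l 1)) (T.l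 1)) (T.l 476)) (T.b (T.a (T.a (T.l 476) (T.l 1)) (T.l 1)) (T.l 476)))) (T.b (T.l 1) (T.c (T.b (T.a (T.a (T.l 476) (T.l 1)) (T.l 1)) (T.l 476)) (T.b (T.a (T.l 476) (T.l 1)) (T.l 476))))) (T.l 476)) (T.b (T.c (T.b (T.l 1) (T.c (T.b (T.a (T.l 476) (T.l 1)) (T.l 476)) (T.b (T.a (T.l 476) (T.l 1)) (T.l 476)))) (T.b (T.l 1) (T.a (T.l 476) (T.c (T.b (T.l 1) (T.l 460)) (T.b (T.l 1) (T.l 460)))))) (T.l 476)))) (T.l 460)) (T.b (T.c (T.b (T.l 1) (T.a (T.a (T.l 476) (T.a (T.l 476) (T.c (T.b (T.c (T.b (T.l 1) (T.l 476)) (T.b (T.l 1) (T.l 476))) (T.l 460)) (T.c (T.b (T.b (T.l 1) (T.l 460)) (T.l 460)) (T.l 476))))) (T.c (T.b (T.c (T.b (T.l 1) (T.a (T.l 476) (T.l 1))) (T.b (T.l 1) (T.a (T.l 476) (T.l 1)))) (T.l 476)) (T.b (T.c (T.b (T.l 1) (T.a (T.l 476) (T.l 1))) (T.b (T.l 1) (T.a (T.l 476) (T.l 1)))) (T.l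 476))))) (T.b (T.l 1) (T.a (T.a (T.l 476) (T.c (T.c (T.l 476) (T.l 476)) (T.l 476))) (T.c (T.b (T.c (T.b (T.l 1) (T.a (T.l 476) (T.l 1))) (T.b (T.l 1) (T.a (T.l 476) (T.l 1)))) (T.l 476)) (T.b (T.a (T.c (T.b (T.l 1) (T.l 460)) (T.b (T.l 1) (T.l 460))) (T.l 1)) (T.l 476)))))) (T.c (T.l 476) (T.l 476)))) (T.l 476))), by decide +kernel⟩

def B102E_010_7_83_1 :
    ∃ t, chk3 (onCell 0 67108864 0 1073741824 67108864 67108864 (corTK [] true 1 c0F cB102E gF0q1 gF1q2 gF0q0 gF1q0 true true)) t 7 83 1 = true :=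
  ⟨(T.b (T.b (T.a (T.a (T.a (T.c (T.b (T.l 1) (T.c (T.b (T.l 1) (T.c (T.b (T.a (T.a (T.l 476) (T.l 1)) (T.l 1)) (T.l 476)) (T.b (T.a (T.a (T.l 476) (T.l 1)) (T.l 1)) (T.l 476)))) (T.b (T.l 1) (T.c (T.b (T.a (T.a (T.l 476) (T.l 1)) (T.l 1)) (T.l 476)) (T.b (T.a (T.a (T.l 476) (T.l 1)) (T.l 1)) (T.l 476)))))) (T.b (T.l 1) (T.c (T.b (T.l 1) (T.c (T.b (T.a (T.a (T.l 476) (T.l 1)) (T.l 1)) (T.l 476)) (T.b (T.a (T.c (T.l 476) (T.l 476)) (T.l 1)) (T.l 476)))) (T.b (T.l 1) (T.c (T.b (T.a (T.l 476) (T.l 1)) (T.l 476)) (T.b (T.a (T.l 476) (T.l 1)) (T.l 460))))))) (T.l 1)) (T.l 1)) (T.l 1)) (T.a (T.a (T.c (T.a (T.l 476) (T.a (T.l 476) (T.b (T.c (T.a (T.l 476) (T.b (T.c (T.b (T.l 1) (T.l 476)) (T.b (T.l 1) (T.l 476))) (T.l 460))) (T.a (T.l 476) (T.b (T.c (T.b (T.l 1) (T.l 476)) (T.b (T.l 1) (T.l 460))) (T.l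 460)))) (T.l 204)))) (T.a (T.l 476) (T.a (T.l 476) (T.b (T.a (T.l 476) (T.c (T.b (T.c (T.b (T.l 1) (T.l 460)) (T.b (T.l 1) (T.l 460))) (T.l 460)) (T.a (T.l 476) (T.b (T.c (T.b (T.l 1) (T.l 460)) (T.b (T.l 1) (T.l 460))) (T.l 460))))) (T.l 204))))) (T.c (T.b (T.c (T.b (T.a (T.c (T.b (T.l 1) (T.a (T.l 476) (T.l 1))) (T.b (T.l 1) (T.a (T.l 476) (T.l 1)))) (T.l 1)) (T.a (T.l 476) (T.c (T.b (T.a (T.a (T.l 476) (T.l 1)) (T.l 1)) (T.l 476)) (T.b (T.a (T.a (T.l 476) (T.l 1)) (T.l 1)) (T.c (T.l 476) (T.l 476)))))) (T.b (T.a (T.c (T.b (T.l 1) (T.a (T.l 476) (T.l 1))) (T.b (T.l 1) (T.a (T.l 476) (T.l 1)))) (T.l 1)) (T.a (T.l 476) (T.c (T.b (T.a (T.a (T.l 476) (T.l 1)) (T.l 1)) (T.a (T.l 476) (T.l 476))) (T.b (T.a (T.a (T.l 476) (T.l 1)) (T.l 1)) (T.a (T.l 476) (T.c (T.l 476) (T.a (T.l 476) (T.l 476)))))))))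 (T.c (T.l 476) (T.l 476))) (T.b (T.c (T.b (T.a (T.c (T.b (T.l 1) (T.a (T.l 476) (T.l 1))) (T.b (T.l 1) (T.a (T.l 476) (T.l 1)))) (T.l 1)) (T.a (T.l 476) (T.c (T.b (T.a (T.a (T.l 476) (T.l 1)) (T.l 1)) (T.a (T.l 460) (T.c (T.b (T.l 1) (T.l 476)) (T.b (T.l 1) (T.l 476))))) (T.b (T.a (T.a (T.l 476) (T.l 1)) (T.l 1)) (T.a (T.l 460) (T.c (T.b (T.l 1) (T.l 460)) (T.b (T.l 1) (T.l 460)))))))) (T.b (T.a (T.c (T.b (T.l 1) (T.a (T.l 476) (T.l 1))) (T.b (T.l 1) (T.a (T.l 460) (T.l 1)))) (T.l 1)) (T.a (T.l 476) (T.c (T.b (T.a (T.a (T.l 476) (T.l 1)) (T.l 1)) (T.a (T.l 460) (T.c (T.b (T.l 1) (T.l 460)) (T.b (T.l 1) (T.l 460))))) (T.b (T.a (T.a (T.l 460) (T.l 1)) (T.l 1)) (T.a (T.l 460) (T.c (T.b (T.l 1) (T.l 460)) (T.b (T.l 1) (T.l 460))))))))) (T.c (T.l 476) (T.l 476))))) (T.c (T.b (T.l 1) (T.a (T.a (T.c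 (T.a (T.l 476) (T.b (T.c (T.b (T.a (T.l 476) (T.l 1)) (T.l 476)) (T.b (T.a (T.l 476) (T.l 1)) (T.l 476))) (T.l 460))) (T.a (T.l 476) (T.b (T.c (T.b (T.c (T.a (T.l 476) (T.l 1)) (T.a (T.l 476) (T.l 1))) (T.l 476)) (T.b (T.c (T.b (T.l 1) (T.l 476)) (T.b (T.l 1) (T.l 476))) (T.l 476))) (T.l 460)))) (T.c (T.b (T.a (T.c (T.b (T.l 1) (T.l 476)) (T.b (T.l 1) (T.l 476))) (T.l 1)) (T.l 476)) (T.b (T.a (T.c (T.b (T.l 1) (T.a (T.l 476) (T.l 1))) (T.b (T.l 1) (T.a (T.l 476) (T.l 1)))) (T.l 1)) (T.c (T.l 476) (T.l 476))))) (T.a (T.c (T.b (T.l 1) (T.c (T.b (T.l 1) (T.l 476)) (T.b (T.l 1) (T.c (T.l 476) (T.a (T.l 476) (T.l 476)))))) (T.b (T.l 1) (T.c (T.b (T.l 1) (T.a (T.l 476) (T.a (T.l 476) (T.l 1)))) (T.b (T.l 1) (T.a (T.l 476) (T.a (T.l 476) (T.l 1))))))) (T.l 1)))) (T.b (T.l 1) (T.a (T.a (T.c (T.a (T.l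 476) (T.b (T.c (T.b (T.c (T.b (T.l 1) (T.l 476)) (T.b (T.l 1) (T.l 476))) (T.l 476)) (T.b (T.a (T.a (T.l 476) (T.l 1)) (T.l 1)) (T.l 460))) (T.l 460))) (T.b (T.a (T.l 476) (T.c (T.b (T.a (T.c (T.a (T.l 476) (T.l 1)) (T.a (T.l 460) (T.l 1))) (T.l 1)) (T.l 460)) (T.b (T.a (T.c (T.b (T.l 1) (T.l 460)) (T.b (T.l 1) (T.l 460))) (T.l 1)) (T.l 460)))) (T.l 460))) (T.c (T.b (T.a (T.c (T.b (T.l 1) (T.a (T.l 476) (T.l 1))) (T.b (T.l 1) (T.a (T.l 476) (T.l 1)))) (T.l 1)) (T.a (T.l 460) (T.c (T.l 476) (T.c (T.l 476) (T.a (T.l 460) (T.l 476)))))) (T.b (T.a (T.c (T.b (T.l 1) (T.a (T.l 460) (T.l 1))) (T.b (T.l 1) (T.a (T.l 460) (T.l 1)))) (T.l 1)) (T.a (T.l 460) (T.a (T.l 460) (T.a (T.l 460) (T.c (T.b (T.c (T.b (T.l 1) (T.l 460)) (T.b (T.l 1) (T.l 460))) (T.l 460)) (T.b (T.c (T.b (T.l 1) (T.l 460)) (T.b (T.l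 1) (T.l 460))) (T.l 460))))))))) (T.a (T.c (T.b (T.l 1) (T.c (T.b (T.l 1) (T.a (T.l 476) (T.c (T.a (T.l 476) (T.l 1)) (T.a (T.l 476) (T.l 1))))) (T.b (T.l 1) (T.a (T.l 476) (T.c (T.b (T.l 1) (T.l 476)) (T.b (T.l 1) (T.l 476))))))) (T.b (T.l 1) (T.c (T.b (T.l 1) (T.a (T.l 460) (T.c (T.b (T.l 1) (T.a (T.l 460) (T.l 1))) (T.b (T.l 1) (T.a (T.l 460) (T.l 1)))))) (T.b (T.l 1) (T.a (T.l 460) (T.c (T.b (T.l 1) (T.a (T.l 460) (T.l 1))) (T.b (T.l 1) (T.a (T.l 460) (T.l 1))))))))) (T.l 1))))))) (T.a (T.c (T.l 476) (T.l 476)) (T.b (T.a (T.c (T.l 476) (T.l 476)) (T.c (T.a (T.l 476) (T.b (T.c (T.a (T.l 476) (T.b (T.c (T.b (T.l 1) (T.l 476)) (T.b (T.l 1) (T.l 476))) (T.l 476))) (T.b (T.c (T.a (T.l 476) (T.b (T.l 1) (T.l 476))) (T.a (T.l 476) (T.b (T.l 1) (T.l 476)))) (T.l 476))) (T.l 460))) (T.b (T.a (T.c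 (T.l 476) (T.l 460)) (T.c (T.b (T.c (T.b (T.a (T.c (T.c (T.l 476) (T.a (T.l 476) (T.l 476))) (T.b (T.a (T.l 476) (T.l 1)) (T.l 476))) (T.l 1)) (T.l 476)) (T.b (T.a (T.c (T.b (T.a (T.l 476) (T.l 1)) (T.l 476)) (T.b (T.a (T.l 476) (T.l 1)) (T.l 460))) (T.l 1)) (T.a (T.l 460) (T.l 476)))) (T.l 460)) (T.b (T.c (T.b (T.a (T.c (T.b (T.a (T.l 460) (T.l 1)) (T.l 460)) (T.b (T.a (T.l 460) (T.l 1)) (T.l 460))) (T.l 1)) (T.a (T.l 460) (T.a (T.l 460) (T.c (T.l 476) (T.b (T.l 1) (T.l 460)))))) (T.b (T.a (T.c (T.b (T.a (T.l 460) (T.l 1)) (T.l 460)) (T.b (T.a (T.a (T.l 460) (T.l 1)) (T.l 1)) (T.l 460))) (T.l 1)) (T.a (T.l 460) (T.a (T.l 460) (T.c (T.b (T.l 1) (T.l 460)) (T.b (T.l 1) (T.l 460))))))) (T.l 460)))) (T.l 460)))) (T.l 460)))), by decide +kernel⟩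

def B102E_010_1_21_1 :
    ∃ t, chk3 (onCell 0 67108864 0 1073741824 67108864 67108864 (corTK [] true 1 c0F cB102E gF0q1 gF1q2 gF0q0 gF1q0 true true)) t 1 21 1 = true :=
  ⟨(T.a (T.a (T.a (T.l 204) (T.l 204)) (T.a (T.l 460) (T.b (T.l 204) (T.l 204)))) (T.a (T.a (T.l 204) (T.b (T.l 204) (T.l 204))) (T.b (T.a (T.l 204) (T.l 460)) (T.l 204)))), by decide +kernel⟩

def B102E_010_1_11_1 :
    ∃ t, chk3 (onCell 0 67108864 0 1073741824 67108864 67108864 (corTK [] true 1 c0F cB102E gF0q1 gF1q2 gF0q0 gF1q0 true true)) t 1 11 1 = true :=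
  ⟨(T.a (T.a (T.a (T.l 204) (T.l 204)) (T.a (T.l 204) (T.l 204))) (T.a (T.b (T.l 204) (T.l 204)) (T.l 204))), by decide +kernel⟩

def B102E_010_1_3_1 :
    ∃ t, chk3 (onCell 0 67108864 0 1073741824 67108864 67108864 (corTK [] true 1 c0F cB102E gF0q1 gF1q2 gF0q0 gF1q0 true true)) t 1 3 1 = true :=
  ⟨(T.b (T.b (T.a (T.a (T.a (T.l 204) (T.l 204)) (T.l 0)) (T.b (T.l 0) (T.l 0))) (T.a (T.a (T.a (T.l 204) (T.l 204)) (T.l 0)) (T.b (T.l 0) (T.l 0)))) (T.l 2)), by decide +kernel⟩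

theorem B102E_010_3_83_1 :
    ∃ t, chk3 (onCell 0 67108864 0 1073741824 67108864 67108864 (corTK [] true 1 c0F cB102E gF0q1 gF1q2 gF0q0 gF1q0 true true)) t 3 83 1 = true :=
  ex3_a B102E_010_6_83_1 B102E_010_7_83_1
theorem B102E_010_1_83_1 :
    ∃ t, chk3 (onCell 0 67108864 0 1073741824 67108864 67108864 (corTK [] true 1 c0F cB102E gF0q1 gF1q2 gF0q0 gF1q0 true true)) t 1 83 1 = true :=
  ex3_a B102E_010_2_83_1 B102E_010_3_83_1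
theorem B102E_010_1_41_1 :
    ∃ t, chk3 (onCell 0 67108864 0 1073741824 67108864 67108864 (corTK [] true 1 c0F cB102E gF0q1 gF1q2 gF0q0 gF1q0 true true)) t 1 41 1 = true :=
  ex3_b B102E_010_1_82_1 B102E_010_1_83_1
theorem B102E_010_1_20_1 :
    ∃ t, chk3 (onCell 0 67108864 0 1073741824 67108864 67108864 (corTK [] true 1 c0F cB102E gF0q1 gF1q2 gF0q0 gF1q0 true true)) t 1 20 1 = true :=
  ex3_b B102E_010_1_40_1 B102E_010_1_41_1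
theorem B102E_010_1_10_1 :
    ∃ t, chk3 (onCell 0 67108864 0 1073741824 67108864 67108864 (corTK [] true 1 c0F cB102E gF0q1 gF1q2 gF0q0 gF1q0 true true)) t 1 10 1 = true :=
  ex3_b B102E_010_1_20_1 B102E_010_1_21_1
theorem B102E_010_1_5_1 :
    ∃ t, chk3 (onCell 0 67108864 0 1073741824 67108864 67108864 (corTK [] true 1 c0F cB102E gF0q1 gF1q2 gF0q0 gF1q0 true true)) t 1 5 1 = true :=
  ex3_b B102E_010_1_10_1 B102E_010_1_11_1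
theorem B102E_010_1_2_1 :
    ∃ t, chk3 (onCell 0 67108864 0 1073741824 67108864 67108864 (corTK [] true 1 c0F cB102E gF0q1 gF1q2 gF0q0 gF1q0 true true)) t 1 2 1 = true :=
  ex3_b B102E_010_1_4_1 B102E_010_1_5_1
theorem B102E_010 :
    ∃ t, chk3 (onCell 0 67108864 0 1073741824 67108864 67108864 (corTK [] true 1 c0F cB102E gF0q1 gF1q2 gF0q0 gF1q0 true true)) t 1 1 1 = true :=
  ex3_b B102E_010_1_2_1 B102E_010_1_3_1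

def B102E_011 :
    ∃ t, chk3 (onCell 0 67108864 0 1073741824 67108864 67108864 (corTK [] true 1 c0F cB102E gF0q1 gF1q2 gF1q0 gF2q0 true true)) t 1 1 1 = true :=
  ⟨(T.b (T.l 1) (T.b (T.b (T.l 1) (T.a (T.a (T.a (T.l 204) (T.l 0)) (T.l 0)) (T.l 0))) (T.b (T.a (T.a (T.a (T.l 204) (T.l 0)) (T.l 0)) (T.b (T.l 0) (T.l 204))) (T.a (T.a (T.a (T.l 204) (T.l 204)) (T.l 204)) (T.a (T.l 204) (T.l 204)))))), by decide +kernel⟩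

def B102E_012 :
    ∃ t, chk3 (onCell 0 67108864 0 1073741824 67108864 67108864 (corTK [] true 1 c0F cB102E gF0q1 gF1q2 gF2q0 gF3q0 true false)) t 1 1 1 = true :=
  ⟨(T.b (T.l 1) (T.b (T.l 1) (T.b (T.l 1) (T.a (T.a (T.a (T.l 204) (T.l 204)) (T.l 204)) (T.l 204))))), by decide +kernel⟩

def B102E_020_1_16_1 :
    ∃ t, chk3 (onCell 0 67108864 0 1073741824 67108864 67108864 (corTK [[⟨0, 1, 0, 8388608⟩, ⟨1, 0, 1, 33554432⟩, ⟨2, 1, 1, 33554432⟩, ⟨1, 0, 0, 150994944⟩, ⟨1, 1, 0, 1023410176⟩, ⟨2, 1, 0, 150994944⟩, ⟨2, 2, 0, 1023410176⟩]] true 1 c0F cB102E gF0q1 gF2q2 gF0q0 gF1q0 true true)) t 1 16 1 = true :=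
  ⟨(T.b (T.b (T.b (T.b (T.a (T.c (T.b (T.a (T.a (T.l 204) (T.a (T.l 204) (T.a (T.l 204) (T.c (T.c (T.a (T.l 204) (T.l 220)) (T.l 204)) (T.l 204))))) (T.c (T.a (T.a (T.b (T.a (T.c (T.c (T.l 220) (T.l 204)) (T.l 204)) (T.c (T.l 220) (T.l 204))) (T.l 204)) (T.b (T.a (T.c (T.l 220) (T.l 204)) (T.c (T.l 220) (T.l 204))) (T.l 204))) (T.a (T.b (T.a (T.c (T.l 220) (T.l 204)) (T.c (T.l 220) (T.l 204))) (T.l 204)) (T.b (T.c (T.a (T.l 220) (T.l 220)) (T.l 220)) (T.l 204)))) (T.a (T.a (T.c (T.l 204) (T.l 204)) (T.c (T.l 220) (T.l 204))) (T.a (T.c (T.l 204) (T.l 204)) (T.c (T.l 220) (T.l 204)))))) (T.a (T.a (T.l 204) (T.a (T.l 204) (T.c (T.l 204) (T.l 204)))) (T.a (T.a (T.l 204) (T.l 204)) (T.a (T.l 204) (T.l 204))))) (T.b (T.a (T.a (T.l 204) (T.a (T.l 204) (T.a (T.l 204) (T.l 204)))) (T.c (T.a (T.a (T.l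 204) (T.l 204)) (T.a (T.l 204) (T.l 204))) (T.a (T.a (T.l 204) (T.l 204)) (T.a (T.l 204) (T.l 204))))) (T.a (T.a (T.l 204) (T.a (T.l 204) (T.l 204))) (T.a (T.a (T.l 204) (T.l 204)) (T.c (T.l 476) (T.l 460)))))) (T.c (T.b (T.a (T.a (T.a (T.c (T.b (T.c (T.a (T.l 220) (T.l 220)) (T.a (T.l 204) (T.l 220))) (T.l 204)) (T.c (T.l 220) (T.l 204))) (T.c (T.b (T.c (T.a (T.l 476) (T.l 476)) (T.a (T.l 220) (T.l 476))) (T.l 204)) (T.c (T.l 476) (T.l 220)))) (T.a (T.c (T.b (T.a (T.c (T.l 476) (T.l 476)) (T.c (T.a (T.l 476) (T.l 476)) (T.c (T.l 476) (T.l 476)))) (T.l 220)) (T.a (T.l 476) (T.c (T.l 476) (T.l 476)))) (T.a (T.c (T.b (T.c (T.c (T.a (T.l 476) (T.l 476)) (T.l 476)) (T.c (T.l 476) (T.l 476))) (T.l 204)) (T.c (T.l 476) (T.l 476))) (T.c (T.b (T.c (T.b (T.c (T.a (T.l 476) (T.a (T.l 476) (T.l 476))) (T.a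 (T.l 476) (T.l 476))) (T.l 476)) (T.a (T.l 476) (T.c (T.l 476) (T.l 476)))) (T.l 204)) (T.a (T.l 476) (T.c (T.l 476) (T.l 476))))))) (T.c (T.a (T.a (T.a (T.a (T.a (T.c (T.c (T.l 476) (T.l 476)) (T.l 476)) (T.l 1024)) (T.l 1024)) (T.l 1024)) (T.l 1024)) (T.l 1024)) (T.b (T.a (T.a (T.a (T.c (T.a (T.l 476) (T.l 476)) (T.a (T.l 476) (T.l 476))) (T.c (T.a (T.l 476) (T.l 476)) (T.c (T.l 476) (T.l 476)))) (T.a (T.c (T.a (T.l 476) (T.l 476)) (T.c (T.l 476) (T.l 476))) (T.c (T.a (T.l 476) (T.l 476)) (T.c (T.l 476) (T.l 476))))) (T.a (T.a (T.c (T.a (T.l 476) (T.l 1024)) (T.c (T.l 476) (T.l 476))) (T.c (T.l 1024) (T.c (T.l 476) (T.l 476)))) (T.c (T.l 1024) (T.b (T.a (T.c (T.l 476) (T.l 476)) (T.c (T.l 1024) (T.l 476))) (T.l 476))))) (T.a (T.a (T.a (T.l 204) (T.l 204)) (T.c (T.l 476) (T.l 476))) (T.a (T.l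 476) (T.l 476)))))) (T.a (T.a (T.c (T.l 204) (T.l 204)) (T.a (T.l 204) (T.l 204))) (T.a (T.a (T.c (T.l 220) (T.l 476)) (T.l 476)) (T.a (T.l 476) (T.l 476))))) (T.b (T.a (T.a (T.a (T.c (T.l 204) (T.l 204)) (T.c (T.l 220) (T.l 204))) (T.a (T.c (T.a (T.l 204) (T.l 220)) (T.l 476)) (T.c (T.a (T.l 476) (T.a (T.l 476) (T.l 476))) (T.a (T.l 204) (T.c (T.l 476) (T.l 476)))))) (T.c (T.b (T.a (T.a (T.a (T.a (T.l 476) (T.l 476)) (T.c (T.l 476) (T.l 476))) (T.a (T.c (T.l 476) (T.l 476)) (T.c (T.l 476) (T.l 476)))) (T.a (T.a (T.c (T.l 476) (T.l 476)) (T.c (T.l 476) (T.l 476))) (T.a (T.c (T.l 476) (T.l 476)) (T.c (T.l 476) (T.l 476))))) (T.a (T.a (T.a (T.l 204) (T.l 204)) (T.c (T.l 476) (T.l 476))) (T.a (T.l 476) (T.l 476)))) (T.b (T.a (T.a (T.a (T.l 476) (T.l 476)) (T.a (T.l 476) (T.l 476))) (T.a (T.a (T.l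 476) (T.l 476)) (T.a (T.l 476) (T.l 476)))) (T.a (T.a (T.a (T.l 204) (T.l 204)) (T.l 476)) (T.a (T.l 476) (T.l 476)))))) (T.a (T.a (T.c (T.l 204) (T.l 204)) (T.a (T.l 204) (T.l 204))) (T.a (T.a (T.c (T.l 476) (T.l 476)) (T.l 476)) (T.a (T.l 476) (T.l 476))))))) (T.a (T.c (T.b (T.a (T.a (T.l 204) (T.a (T.l 204) (T.l 204))) (T.a (T.a (T.l 204) (T.l 204)) (T.l 204))) (T.a (T.a (T.l 204) (T.a (T.l 204) (T.l 204))) (T.a (T.c (T.l 204) (T.l 204)) (T.l 204)))) (T.b (T.a (T.a (T.l 204) (T.a (T.l 204) (T.l 204))) (T.a (T.a (T.l 204) (T.l 204)) (T.l 204))) (T.a (T.a (T.l 204) (T.a (T.l 204) (T.l 204))) (T.a (T.c (T.l 204) (T.l 204)) (T.l 204))))) (T.c (T.a (T.a (T.l 204) (T.l 204)) (T.a (T.a (T.l 204) (T.l 204)) (T.c (T.l 1024) (T.l 476)))) (T.a (T.a (T.l 204) (T.l 220)) (T.a (T.a (T.l 204) (T.l 204))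 (T.a (T.l 204) (T.l 204))))))) (T.b (T.a (T.c (T.a (T.a (T.l 204) (T.c (T.l 204) (T.l 204))) (T.a (T.l 204) (T.l 204))) (T.a (T.a (T.l 204) (T.a (T.l 204) (T.l 204))) (T.a (T.l 204) (T.l 204)))) (T.a (T.a (T.l 204) (T.l 204)) (T.a (T.a (T.l 204) (T.l 204)) (T.c (T.l 204) (T.l 204))))) (T.a (T.a (T.a (T.l 204) (T.c (T.l 204) (T.l 204))) (T.a (T.l 204) (T.l 204))) (T.a (T.a (T.l 204) (T.l 204)) (T.a (T.c (T.l 204) (T.l 220)) (T.l 204)))))) (T.b (T.b (T.a (T.a (T.a (T.l 204) (T.c (T.l 204) (T.l 204))) (T.a (T.l 204) (T.l 204))) (T.a (T.a (T.l 204) (T.l 204)) (T.a (T.l 220) (T.l 204)))) (T.a (T.a (T.a (T.l 204) (T.l 204)) (T.a (T.l 204) (T.l 204))) (T.a (T.c (T.l 204) (T.l 204)) (T.a (T.l 204) (T.l 204))))) (T.b (T.a (T.a (T.a (T.l 204) (T.l 204)) (T.a (T.l 204) (T.l 204))) (T.a (T.l 220) (T.a (T.l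 204) (T.l 204)))) (T.a (T.a (T.a (T.l 204) (T.l 204)) (T.a (T.l 204) (T.l 204))) (T.a (T.l 204) (T.a (T.l 204) (T.l 204))))))) (T.b (T.b (T.b (T.a (T.a (T.a (T.l 204) (T.l 204)) (T.c (T.l 204) (T.l 204))) (T.a (T.l 204) (T.a (T.l 204) (T.l 204)))) (T.a (T.a (T.a (T.l 204) (T.l 204)) (T.c (T.l 204) (T.l 204))) (T.a (T.l 204) (T.a (T.l 204) (T.l 204))))) (T.b (T.a (T.a (T.a (T.l 204) (T.l 204)) (T.l 204)) (T.a (T.l 204) (T.a (T.l 204) (T.l 204)))) (T.a (T.a (T.a (T.l 204) (T.l 204)) (T.l 204)) (T.a (T.l 204) (T.c (T.l 0) (T.l 16)))))) (T.b (T.b (T.a (T.a (T.a (T.l 204) (T.l 204)) (T.l 204)) (T.a (T.l 204) (T.c (T.l 0) (T.l 0)))) (T.a (T.a (T.a (T.l 204) (T.l 204)) (T.l 204)) (T.a (T.l 204) (T.c (T.l 0) (T.l 0))))) (T.b (T.a (T.a (T.a (T.l 204) (T.l 204)) (T.l 204)) (T.a (T.l 204) (T.l 16))) (T.a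 (T.a (T.a (T.l 204) (T.l 204)) (T.l 204)) (T.a (T.l 204) (T.l 0))))))), by decide +kernel⟩

def B102E_020_1_17_1 :
    ∃ t, chk3 (onCell 0 67108864 0 1073741824 67108864 67108864 (corTK [[⟨0, 1, 0, 8388608⟩, ⟨1, 0, 1, 33554432⟩, ⟨2, 1, 1, 33554432⟩, ⟨1, 0, 0, 150994944⟩, ⟨1, 1, 0, 1023410176⟩, ⟨2, 1, 0, 150994944⟩, ⟨2, 2, 0, 1023410176⟩]] true 1 c0F cB102E gF0q1 gF2q2 gF0q0 gF1q0 true true)) t 1 17 1 = true :=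
  ⟨(T.b (T.b (T.b (T.b (T.a (T.a (T.a (T.l 204) (T.l 204)) (T.l 204)) (T.a (T.l 204) (T.l 0))) (T.a (T.a (T.a (T.l 204) (T.l 204)) (T.l 204)) (T.a (T.l 204) (T.l 0)))) (T.b (T.a (T.a (T.a (T.l 204) (T.l 204)) (T.l 204)) (T.a (T.l 204) (T.l 0))) (T.a (T.a (T.a (T.l 204) (T.l 204)) (T.l 204)) (T.a (T.l 204) (T.l 0))))) (T.b (T.b (T.a (T.a (T.a (T.l 204) (T.l 204)) (T.l 204)) (T.a (T.l 204) (T.l 0))) (T.a (T.a (T.a (T.l 204) (T.l 204)) (T.l 204)) (T.a (T.l 204) (T.l 0)))) (T.b (T.a (T.a (T.a (T.l 204) (T.l 204)) (T.l 204)) (T.a (T.l 204) (T.l 0))) (T.a (T.a (T.a (T.l 204) (T.l 204)) (T.l 204)) (T.a (T.l 204) (T.l 0)))))) (T.b (T.b (T.b (T.a (T.a (T.a (T.l 204) (T.l 204)) (T.l 204)) (T.a (T.l 204) (T.l 0))) (T.a (T.a (T.a (T.l 204) (T.l 204)) (T.l 204)) (T.a (T.l 204) (T.l 0)))) (T.b (T.a (T.a (T.a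 (T.l 204) (T.l 204)) (T.l 204)) (T.a (T.l 204) (T.l 0))) (T.a (T.a (T.a (T.l 204) (T.l 204)) (T.l 204)) (T.a (T.l 204) (T.l 0))))) (T.b (T.b (T.a (T.a (T.a (T.l 204) (T.l 204)) (T.l 204)) (T.a (T.l 204) (T.l 0))) (T.a (T.a (T.a (T.l 204) (T.l 204)) (T.l 204)) (T.a (T.l 204) (T.l 0)))) (T.b (T.a (T.a (T.a (T.l 204) (T.l 204)) (T.l 204)) (T.a (T.l 204) (T.l 0))) (T.a (T.a (T.a (T.l 204) (T.l 204)) (T.l 204)) (T.a (T.l 204) (T.l 0))))))), by decide +kernel⟩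

def B102E_020_1_9_1 :
    ∃ t, chk3 (onCell 0 67108864 0 1073741824 67108864 67108864 (corTK [[⟨0, 1, 0, 8388608⟩, ⟨1, 0, 1, 33554432⟩, ⟨2, 1, 1, 33554432⟩, ⟨1, 0, 0, 150994944⟩, ⟨1, 1, 0, 1023410176⟩, ⟨2, 1, 0, 150994944⟩, ⟨2, 2, 0, 1023410176⟩]] true 1 c0F cB102E gF0q1 gF2q2 gF0q0 gF1q0 true true)) t 1 9 1 = true :=
  ⟨(T.b (T.b (T.b (T.b (T.b (T.a (T.a (T.a (T.l 204) (T.l 204)) (T.l 204)) (T.a (T.l 204) (T.l 0))) (T.a (T.a (T.a (T.l 204) (T.l 204)) (T.l 204)) (T.a (T.l 204) (T.l 0)))) (T.b (T.a (T.a (T.a (T.l 204) (T.l 204)) (T.l 204)) (T.a (T.l 204) (T.l 0))) (T.a (T.a (T.a (T.l 204) (T.l 204)) (T.l 204)) (T.a (T.l 204) (T.l 0))))) (T.b (T.b (T.a (T.a (T.a (T.l 204) (T.l 204)) (T.l 204)) (T.a (T.l 204) (T.l 0))) (T.a (T.a (T.a (T.l 204) (T.l 204)) (T.l 204)) (T.a (T.l 204) (T.l 0)))) (T.b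 (T.a (T.a (T.a (T.l 204) (T.l 204)) (T.l 204)) (T.a (T.l 204) (T.l 0))) (T.a (T.a (T.a (T.l 204) (T.l 204)) (T.l 204)) (T.a (T.l 204) (T.l 0)))))) (T.b (T.b (T.b (T.a (T.a (T.a (T.l 204) (T.l 204)) (T.l 204)) (T.a (T.l 204) (T.l 0))) (T.a (T.a (T.a (T.l 204) (T.l 204)) (T.l 204)) (T.a (T.l 204) (T.l 0)))) (T.b (T.a (T.a (T.a (T.l 204) (T.l 204)) (T.l 204)) (T.a (T.l 204) (T.l 0))) (T.a (T.a (T.a (T.l 204) (T.l 204)) (T.l 204)) (T.a (T.l 204) (T.l 0))))) (T.b (T.b (T.a (T.a (T.a (T.l 204) (T.l 204)) (T.l 204)) (T.a (T.l 204) (T.l 0))) (T.a (T.a (T.a (T.l 204) (T.l 204)) (T.l 204)) (T.a (T.l 204) (T.l 0)))) (T.b (T.a (T.a (T.a (T.l 204) (T.l 204)) (T.l 204)) (T.a (T.l 204) (T.l 0))) (T.a (T.a (T.a (T.l 204) (T.l 204)) (T.l 204)) (T.a (T.l 204) (T.l 0))))))) (T.b (T.b (T.b (T.b (T.a (T.a (T.a (T.l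 204) (T.l 204)) (T.l 204)) (T.a (T.l 204) (T.l 204))) (T.a (T.a (T.a (T.l 204) (T.l 204)) (T.l 204)) (T.a (T.l 204) (T.l 204)))) (T.b (T.a (T.a (T.a (T.l 204) (T.l 204)) (T.l 204)) (T.a (T.l 204) (T.l 204))) (T.a (T.a (T.a (T.l 204) (T.l 204)) (T.l 204)) (T.a (T.l 204) (T.l 204))))) (T.b (T.b (T.a (T.a (T.a (T.l 204) (T.l 204)) (T.l 204)) (T.a (T.l 204) (T.l 204))) (T.a (T.a (T.a (T.l 204) (T.l 204)) (T.l 204)) (T.a (T.l 204) (T.l 204)))) (T.b (T.a (T.a (T.a (T.l 204) (T.l 204)) (T.l 204)) (T.a (T.l 204) (T.l 204))) (T.a (T.a (T.a (T.l 204) (T.l 204)) (T.l 204)) (T.a (T.l 204) (T.l 204)))))) (T.b (T.b (T.b (T.a (T.a (T.a (T.l 204) (T.l 204)) (T.l 204)) (T.a (T.l 204) (T.l 204))) (T.a (T.a (T.a (T.l 204) (T.l 204)) (T.l 204)) (T.a (T.l 204) (T.l 204)))) (T.b (T.a (T.a (T.a (T.l 204) (T.l 204))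 (T.l 204)) (T.a (T.l 204) (T.l 204))) (T.a (T.a (T.a (T.l 204) (T.l 204)) (T.l 204)) (T.a (T.l 204) (T.l 204))))) (T.b (T.b (T.a (T.a (T.a (T.l 204) (T.l 204)) (T.l 204)) (T.a (T.l 204) (T.l 204))) (T.a (T.a (T.a (T.l 204) (T.l 204)) (T.l 204)) (T.a (T.l 204) (T.l 204)))) (T.b (T.a (T.a (T.a (T.l 204) (T.l 204)) (T.l 204)) (T.a (T.l 204) (T.l 204))) (T.a (T.a (T.a (T.l 204) (T.l 204)) (T.l 204)) (T.a (T.l 204) (T.l 204)))))))), by decide +kernel⟩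

def B102E_020_1_5_1 :
    ∃ t, chk3 (onCell 0 67108864 0 1073741824 67108864 67108864 (corTK [[⟨0, 1, 0, 8388608⟩, ⟨1, 0, 1, 33554432⟩, ⟨2, 1, 1, 33554432⟩, ⟨1, 0, 0, 150994944⟩, ⟨1, 1, 0, 1023410176⟩, ⟨2, 1, 0, 150994944⟩, ⟨2, 2, 0, 1023410176⟩]] true 1 c0F cB102E gF0q1 gF2q2 gF0q0 gF1q0 true true)) t 1 5 1 = true :=
  ⟨(T.b (T.b (T.b (T.b (T.b (T.b (T.a (T.a (T.a (T.l 204) (T.l 204)) (T.l 204)) (T.a (T.l 204) (T.l 204))) (T.a (T.a (T.a (T.l 204) (T.l 204)) (T.l 204)) (T.l 204))) (T.a (T.a (T.a (T.l 204) (T.l 204)) (T.l 204)) (T.l 204))) (T.a (T.a (T.a (T.l 204) (T.l 204)) (T.l 204)) (T.l 204))) (T.a (T.a (T.a (T.l 204) (T.l 204)) (T.l 204)) (T.l 204))) (T.a (T.a (T.a (T.l 204) (T.l 204)) (T.l 204)) (T.l 204))) (T.a (T.a (T.a (T.l 204) (T.l 204)) (T.l 0)) (T.l 0))), by decide +kernel⟩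

def B102E_020_1_3_1 :
    ∃ t, chk3 (onCell 0 67108864 0 1073741824 67108864 67108864 (corTK [[⟨0, 1, 0, 8388608⟩, ⟨1, 0, 1, 33554432⟩, ⟨2, 1, 1, 33554432⟩, ⟨1, 0, 0, 150994944⟩, ⟨1, 1, 0, 1023410176⟩, ⟨2, 1, 0, 150994944⟩, ⟨2, 2, 0, 1023410176⟩]] true 1 c0F cB102E gF0q1 gF2q2 gF0q0 gF1q0 true true)) t 1 3 1 = true :=
  ⟨(T.b (T.b (T.a (T.a (T.a (T.l 204) (T.l 204)) (T.l 0)) (T.l 0)) (T.l 2)) (T.l 2)), by decide +kernel⟩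

theorem B102E_020_1_8_1 :
    ∃ t, chk3 (onCell 0 67108864 0 1073741824 67108864 67108864 (corTK [[⟨0, 1, 0, 8388608⟩, ⟨1, 0, 1, 33554432⟩, ⟨2, 1, 1, 33554432⟩, ⟨1, 0, 0, 150994944⟩, ⟨1, 1, 0, 1023410176⟩, ⟨2, 1, 0, 150994944⟩, ⟨2, 2, 0, 1023410176⟩]] true 1 c0F cB102E gF0q1 gF2q2 gF0q0 gF1q0 true true)) t 1 8 1 = true :=
  ex3_b B102E_020_1_16_1 B102E_020_1_17_1
theorem B102E_020_1_4_1 :
    ∃ t, chk3 (onCell 0 67108864 0 1073741824 67108864 67108864 (corTK [[⟨0, 1, 0, 8388608⟩, ⟨1, 0, 1, 33554432⟩, ⟨2, 1, 1, 33554432⟩, ⟨1, 0, 0, 150994944⟩, ⟨1, 1, 0, 1023410176⟩, ⟨2, 1, 0, 150994944⟩, ⟨2, 2, 0, 1023410176⟩]] true 1 c0F cB102E gF0q1 gF2q2 gF0q0 gF1q0 true true)) t 1 4 1 = true :=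
  ex3_b B102E_020_1_8_1 B102E_020_1_9_1
theorem B102E_020_1_2_1 :
    ∃ t, chk3 (onCell 0 67108864 0 1073741824 67108864 67108864 (corTK [[⟨0, 1, 0, 8388608⟩, ⟨1, 0, 1, 33554432⟩, ⟨2, 1, 1, 33554432⟩, ⟨1, 0, 0, 150994944⟩, ⟨1, 1, 0, 1023410176⟩, ⟨2, 1, 0, 150994944⟩, ⟨2, 2, 0, 1023410176⟩]] true 1 c0F cB102E gF0q1 gF2q2 gF0q0 gF1q0 true true)) t 1 2 1 = true :=
  ex3_b B102E_020_1_4_1 B102E_020_1_5_1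
theorem B102E_020 :
    ∃ t, chk3 (onCell 0 67108864 0 1073741824 67108864 67108864 (corTK [[⟨0, 1, 0, 8388608⟩, ⟨1, 0, 1, 33554432⟩, ⟨2, 1, 1, 33554432⟩, ⟨1, 0, 0, 150994944⟩, ⟨1, 1, 0, 1023410176⟩, ⟨2, 1, 0, 150994944⟩, ⟨2, 2, 0, 1023410176⟩]] true 1 c0F cB102E gF0q1 gF2q2 gF0q0 gF1q0 true true)) t 1 1 1 = true :=
  ex3_b B102E_020_1_2_1 B102E_020_1_3_1

def B102E_021 :
    ∃ t, chk3 (onCell 0 67108864 0 1073741824 67108864 67108864 (corTK [[⟨0, 1, 0, 8388608⟩, ⟨1, 0, 1, 33554432⟩, ⟨2, 1, 1, 33554432⟩, ⟨1, 0, 0, 150994944⟩, ⟨1, 1, 0, 1023410176⟩, ⟨2, 1, 0, 150994944⟩, ⟨2, 2, 0, 1023410176⟩]] true 1 c0F cB102E gF0q1 gF2q2 gF1q0 gF2q0 true true)) t 1 1 1 = true :=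
  ⟨(T.b (T.l 1) (T.b (T.b (T.a (T.a (T.a (T.l 204) (T.l 204)) (T.l 0)) (T.l 0)) (T.a (T.a (T.a (T.l 204) (T.l 204)) (T.l 0)) (T.l 0))) (T.b (T.a (T.a (T.a (T.l 204) (T.l 204)) (T.l 204)) (T.b (T.l 204) (T.l 204))) (T.a (T.a (T.a (T.l 204) (T.l 204)) (T.l 204)) (T.a (T.l 204) (T.l 204)))))), by decide +kernel⟩

def B102E_022 :
    ∃ t, chk3 (onCell 0 67108864 0 1073741824 67108864 67108864 (corTK [[⟨0, 1, 0, 8388608⟩, ⟨1, 0, 1, 33554432⟩, ⟨2, 1, 1, 33554432⟩, ⟨1, 0, 0, 150994944⟩, ⟨1, 1, 0, 1023410176⟩, ⟨2, 1, 0, 150994944⟩, ⟨2, 2, 0, 1023410176⟩]] true 1 c0F cB102E gF0q1 gF2q2 gF2q0 gF3q0 true false)) t 1 1 1 = true :=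
  ⟨(T.b (T.l 1) (T.b (T.l 1) (T.b (T.l 1) (T.a (T.a (T.a (T.l 204) (T.l 204)) (T.l 204)) (T.l 204))))), by decide +kernel⟩

def B102L_200_1_2_1 :
    ∃ t, chk3 (onCell 0 67108864 0 1073741824 67108864 67108864 (corTK [[⟨0, 1, 2, 33554432⟩, ⟨1, 0, 1, 33554432⟩, ⟨2, 1, 0, 16777216⟩, ⟨0, 0, 0, 1023410176⟩, ⟨0, 1, 0, 150994944⟩, ⟨1, 0, 0, 150994944⟩, ⟨1, 1, 0, 1023410176⟩]] true 1 c0F cB102L gF2q1 gF0q2 gF0q0 gF1q0 true true)) t 1 2 1 = true :=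
  ⟨(T.b (T.l 2) (T.b (T.l 2) (T.b (T.a (T.a (T.a (T.l 204) (T.l 204)) (T.l 204)) (T.l 2)) (T.a (T.a (T.a (T.l 204) (T.l 204)) (T.l 0)) (T.l 0))))), by decide +kernel⟩

def B102L_200_1_6_1 :
    ∃ t, chk3 (onCell 0 67108864 0 1073741824 67108864 67108864 (corTK [[⟨0, 1, 2, 33554432⟩, ⟨1, 0, 1, 33554432⟩, ⟨2, 1, 0, 16777216⟩, ⟨0, 0, 0, 1023410176⟩, ⟨0, 1, 0, 150994944⟩, ⟨1, 0, 0, 150994944⟩, ⟨1, 1, 0, 1023410176⟩]] true 1 c0F cB102L gF2q1 gF0q2 gF0q0 gF1q0 true true)) t 1 6 1 = true :=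
  ⟨(T.b (T.b (T.a (T.a (T.a (T.l 204) (T.l 204)) (T.l 0)) (T.l 0)) (T.a (T.a (T.a (T.l 204) (T.l 204)) (T.l 0)) (T.a (T.l 204) (T.l 204)))) (T.b (T.a (T.a (T.a (T.l 204) (T.l 204)) (T.l 0)) (T.a (T.l 204) (T.l 204))) (T.b (T.a (T.a (T.a (T.l 204) (T.l 204)) (T.l 0)) (T.l 0)) (T.b (T.a (T.a (T.a (T.l 204) (T.l 204)) (T.l 0)) (T.l 0)) (T.a (T.a (T.a (T.l 204) (T.l 204)) (T.l 0)) (T.a (T.l 204) (T.l 0))))))), by decide +kernel⟩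

def B102L_200_1_14_1 :
    ∃ t, chk3 (onCell 0 67108864 0 1073741824 67108864 67108864 (corTK [[⟨0, 1, 2, 33554432⟩, ⟨1, 0, 1, 33554432⟩, ⟨2, 1, 0, 16777216⟩, ⟨0, 0, 0, 1023410176⟩, ⟨0, 1, 0, 150994944⟩, ⟨1, 0, 0, 150994944⟩, ⟨1, 1, 0, 1023410176⟩]] true 1 c0F cB102L gF2q1 gF0q2 gF0q0 gF1q0 true true)) t 1 14 1 = true :=
  ⟨(T.b (T.b (T.b (T.b (T.a (T.a (T.a (T.l 204) (T.l 204)) (T.l 0)) (T.a (T.l 204) (T.l 0))) (T.a (T.a (T.a (T.l 204) (T.l 204)) (T.l 0)) (T.a (T.l 204) (T.l 0)))) (T.b (T.a (T.a (T.a (T.l 204) (T.l 204)) (T.l 0)) (T.a (T.l 204) (T.l 0))) (T.a (T.a (T.a (T.l 204) (T.l 204)) (T.l 0)) (T.a (T.l 204) (T.l 0))))) (T.b (T.b (T.a (T.a (T.a (T.l 204) (T.l 204)) (T.l 0)) (T.a (T.l 204) (T.l 0))) (T.a (T.a (T.a (T.l 204) (T.l 204)) (T.l 0)) (T.a (T.l 204) (T.l 0)))) (T.b (T.a (T.a (T.a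 (T.l 204) (T.l 204)) (T.l 0)) (T.a (T.l 204) (T.l 0))) (T.a (T.a (T.a (T.l 204) (T.l 204)) (T.l 0)) (T.a (T.l 0) (T.l 0)))))) (T.b (T.b (T.b (T.a (T.a (T.a (T.l 204) (T.l 204)) (T.l 0)) (T.a (T.l 0) (T.l 0))) (T.a (T.a (T.a (T.l 204) (T.l 204)) (T.l 0)) (T.a (T.l 0) (T.l 0)))) (T.b (T.a (T.a (T.a (T.l 204) (T.l 204)) (T.l 0)) (T.a (T.l 0) (T.l 0))) (T.a (T.a (T.a (T.l 204) (T.l 0)) (T.l 0)) (T.a (T.l 0) (T.l 0))))) (T.b (T.b (T.a (T.a (T.a (T.l 204) (T.l 0)) (T.l 0)) (T.a (T.l 0) (T.l 0))) (T.a (T.a (T.a (T.l 0) (T.l 0)) (T.l 0)) (T.a (T.l 0) (T.l 0)))) (T.b (T.b (T.a (T.a (T.a (T.l 0) (T.l 0)) (T.l 0)) (T.a (T.l 0) (T.l 0))) (T.a (T.a (T.a (T.l 816) (T.l 0)) (T.l 0)) (T.a (T.l 0) (T.l 0)))) (T.b (T.a (T.a (T.a (T.l 816) (T.l 0)) (T.l 0)) (T.a (T.l 0) (T.l 0))) (T.a (T.a (T.a (T.l 816) (T.l 0))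 (T.l 0)) (T.a (T.l 0) (T.l 0)))))))), by decide +kernel⟩

def B102L_200_1_30_1 :
    ∃ t, chk3 (onCell 0 67108864 0 1073741824 67108864 67108864 (corTK [[⟨0, 1, 2, 33554432⟩, ⟨1, 0, 1, 33554432⟩, ⟨2, 1, 0, 16777216⟩, ⟨0, 0, 0, 1023410176⟩, ⟨0, 1, 0, 150994944⟩, ⟨1, 0, 0, 150994944⟩, ⟨1, 1, 0, 1023410176⟩]] true 1 c0F cB102L gF2q1 gF0q2 gF0q0 gF1q0 true true)) t 1 30 1 = true :=
  ⟨(T.b (T.b (T.b (T.b (T.a (T.a (T.a (T.l 816) (T.l 0)) (T.l 0)) (T.a (T.l 0) (T.l 0))) (T.a (T.a (T.a (T.l 816) (T.l 0)) (T.l 0)) (T.a (T.l 0) (T.l 0)))) (T.b (T.a (T.a (T.a (T.l 816) (T.l 0)) (T.l 0)) (T.a (T.l 0) (T.l 0))) (T.a (T.a (T.a (T.l 816) (T.l 0)) (T.l 0)) (T.a (T.l 0) (T.l 16))))) (T.b (T.b (T.a (T.a (T.a (T.l 816) (T.l 0)) (T.l 0)) (T.a (T.l 0) (T.c (T.l 0) (T.l 0)))) (T.a (T.a (T.a (T.l 816) (T.l 816))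 (T.l 0)) (T.a (T.l 0) (T.c (T.l 0) (T.l 0))))) (T.b (T.a (T.a (T.a (T.l 816) (T.l 816)) (T.l 0)) (T.a (T.l 0) (T.c (T.l 0) (T.l 0)))) (T.a (T.a (T.a (T.l 816) (T.l 816)) (T.l 0)) (T.a (T.l 0) (T.c (T.l 0) (T.l 0))))))) (T.b (T.b (T.b (T.a (T.a (T.a (T.l 816) (T.l 816)) (T.l 0)) (T.a (T.l 816) (T.c (T.l 0) (T.l 0)))) (T.a (T.a (T.a (T.l 816) (T.l 816)) (T.l 0)) (T.a (T.l 816) (T.c (T.l 16) (T.l 16))))) (T.b (T.a (T.a (T.a (T.l 816) (T.l 816)) (T.l 0)) (T.a (T.l 816) (T.a (T.l 0) (T.l 816)))) (T.a (T.a (T.a (T.l 816) (T.l 816)) (T.l 0)) (T.a (T.l 816) (T.a (T.l 0) (T.l 816)))))) (T.b (T.b (T.a (T.a (T.a (T.l 816) (T.l 816)) (T.l 0)) (T.a (T.l 816) (T.a (T.l 816) (T.l 816)))) (T.a (T.a (T.a (T.l 816) (T.l 816)) (T.l 0)) (T.a (T.l 816) (T.a (T.l 816) (T.l 816))))) (T.b (T.a (T.a (T.a (T.l 816) (T.l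 816)) (T.l 0)) (T.a (T.l 816) (T.a (T.l 816) (T.l 816)))) (T.a (T.a (T.a (T.l 816) (T.l 816)) (T.c (T.l 0) (T.l 0))) (T.a (T.l 816) (T.a (T.l 816) (T.l 816)))))))), by decide +kernel⟩

def B102L_200_1_62_1 :
    ∃ t, chk3 (onCell 0 67108864 0 1073741824 67108864 67108864 (corTK [[⟨0, 1, 2, 33554432⟩, ⟨1, 0, 1, 33554432⟩, ⟨2, 1, 0, 16777216⟩, ⟨0, 0, 0, 1023410176⟩, ⟨0, 1, 0, 150994944⟩, ⟨1, 0, 0, 150994944⟩, ⟨1, 1, 0, 1023410176⟩]] true 1 c0F cB102L gF2q1 gF0q2 gF0q0 gF1q0 true true)) t 1 62 1 = true :=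
  ⟨(T.b (T.b (T.b (T.a (T.a (T.a (T.l 816) (T.l 816)) (T.c (T.l 0) (T.l 0))) (T.a (T.l 816) (T.a (T.l 816) (T.l 816)))) (T.a (T.a (T.a (T.l 816) (T.l 816)) (T.c (T.l 0) (T.l 0))) (T.a (T.l 816) (T.a (T.l 816) (T.l 816))))) (T.b (T.a (T.a (T.a (T.l 816) (T.l 816)) (T.c (T.l 0) (T.l 0))) (T.a (T.l 816) (T.a (T.l 816) (T.l 816)))) (T.a (T.a (T.a (T.l 816) (T.l 816)) (T.a (T.l 816) (T.l 816))) (T.a (T.l 816) (T.a (T.l 816) (T.l 816)))))) (T.b (T.b (T.a (T.a (T.a (T.l 816) (T.l 816)) (T.a (T.l 816) (T.l 816))) (T.a (T.l 816) (T.a (T.l 816) (T.l 816)))) (T.a (T.a (T.a (T.l 816) (T.l 816)) (T.a (T.l 816) (T.l 816))) (T.a (T.l 816) (T.a (T.l 816) (T.l 816))))) (T.b (T.a (T.a (T.a (T.l 816) (T.c (T.l 816) (T.l 816))) (T.a (T.l 816) (T.l 816))) (T.a (T.l 816) (T.a (T.l 816) (T.l 816)))) (T.a (T.a (T.a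 (T.l 816) (T.c (T.l 816) (T.l 816))) (T.a (T.l 816) (T.l 816))) (T.a (T.c (T.l 816) (T.l 816)) (T.a (T.l 816) (T.l 816))))))), by decide +kernel⟩

def B102L_200_1_126_1 :
    ∃ t, chk3 (onCell 0 67108864 0 1073741824 67108864 67108864 (corTK [[⟨0, 1, 2, 33554432⟩, ⟨1, 0, 1, 33554432⟩, ⟨2, 1, 0, 16777216⟩, ⟨0, 0, 0, 1023410176⟩, ⟨0, 1, 0, 150994944⟩, ⟨1, 0, 0, 150994944⟩, ⟨1, 1, 0, 1023410176⟩]] true 1 c0F cB102L gF2q1 gF0q2 gF0q0 gF1q0 true true)) t 1 126 1 = true :=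
  ⟨(T.b (T.b (T.a (T.a (T.a (T.l 816) (T.a (T.l 816) (T.l 816))) (T.a (T.l 816) (T.l 816))) (T.a (T.c (T.l 816) (T.l 816)) (T.a (T.l 816) (T.l 816)))) (T.a (T.a (T.a (T.l 816) (T.a (T.l 816) (T.l 816))) (T.a (T.l 816) (T.l 816))) (T.a (T.c (T.l 816) (T.l 820)) (T.a (T.c (T.l 816) (T.l 816)) (T.l 816))))) (T.b (T.a (T.a (T.a (T.l 816) (T.a (T.l 816) (T.l 816))) (T.a (T.l 816) (T.l 816))) (T.a (T.a (T.l 816) (T.l 816)) (T.a (T.a (T.l 816) (T.l 816)) (T.l 816)))) (T.a (T.c (T.a (T.a (T.l 816) (T.a (T.l 816) (T.l 816))) (T.a (T.l 816) (T.l 816))) (T.b (T.a (T.a (T.l 816) (T.a (T.l 816) (T.l 816))) (T.a (T.l 816) (T.l 816))) (T.a (T.a (T.l 816) (T.a (T.l 816) (T.l 816))) (T.a (T.l 816) (T.l 816))))) (T.a (T.a (T.l 816) (T.l 816)) (T.a (T.a (T.l 816) (T.l 816)) (T.c (T.l 816) (T.l 816))))))), by decide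 +kernel⟩

def B102L_200_1_254_1 :
    ∃ t, chk3 (onCell 0 67108864 0 1073741824 67108864 67108864 (corTK [[⟨0, 1, 2, 33554432⟩, ⟨1, 0, 1, 33554432⟩, ⟨2, 1, 0, 16777216⟩, ⟨0, 0, 0, 1023410176⟩, ⟨0, 1, 0, 150994944⟩, ⟨1, 0, 0, 150994944⟩, ⟨1, 1, 0, 1023410176⟩]] true 1 c0F cB102L gF2q1 gF0q2 gF0q0 gF1q0 true true)) t 1 254 1 = true :=
  ⟨(T.b (T.a (T.c (T.b (T.a (T.a (T.l 816) (T.a (T.l 816) (T.l 816))) (T.a (T.l 816) (T.l 816))) (T.a (T.a (T.l 816) (T.a (T.l 816) (T.l 816))) (T.a (T.c (T.l 816) (T.l 816)) (T.l 816)))) (T.b (T.a (T.a (T.l 816) (T.a (T.l 816) (T.l 816))) (T.a (T.l 816) (T.l 816))) (T.a (T.a (T.l 816) (T.a (T.l 816) (T.l 816))) (T.a (T.c (T.l 816) (T.l 816)) (T.l 816))))) (T.a (T.a (T.l 816) (T.l 816)) (T.a (T.a (T.l 816) (T.l 816)) (T.a (T.l 816) (T.l 816))))) (T.a (T.c (T.b (T.a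 (T.a (T.l 816) (T.a (T.l 816) (T.l 816))) (T.a (T.a (T.l 816) (T.l 816)) (T.l 816))) (T.a (T.a (T.l 816) (T.a (T.l 816) (T.l 816))) (T.a (T.a (T.l 816) (T.l 816)) (T.l 816)))) (T.b (T.a (T.a (T.l 816) (T.a (T.l 816) (T.l 816))) (T.a (T.a (T.l 816) (T.l 816)) (T.l 816))) (T.a (T.a (T.l 816) (T.a (T.l 816) (T.l 816))) (T.a (T.a (T.l 816) (T.l 816)) (T.l 816))))) (T.c (T.a (T.a (T.l 816) (T.l 816)) (T.a (T.a (T.l 816) (T.l 816)) (T.a (T.l 816) (T.l 816)))) (T.a (T.a (T.l 816) (T.l 816)) (T.a (T.a (T.l 816) (T.l 816)) (T.a (T.l 816) (T.l 816))))))), by decide +kernel⟩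

def B102L_200_1_510_1 :
    ∃ t, chk3 (onCell 0 67108864 0 1073741824 67108864 67108864 (corTK [[⟨0, 1, 2, 33554432⟩, ⟨1, 0, 1, 33554432⟩, ⟨2, 1, 0, 16777216⟩, ⟨0, 0, 0, 1023410176⟩, ⟨0, 1, 0, 150994944⟩, ⟨1, 0, 0, 150994944⟩, ⟨1, 1, 0, 1023410176⟩]] true 1 c0F cB102L gF2q1 gF0q2 gF0q0 gF1q0 true true)) t 1 510 1 = true :=
  ⟨(T.a (T.c (T.b (T.a (T.a (T.l 816) (T.a (T.l 816) (T.l 816))) (T.a (T.a (T.l 816) (T.l 816)) (T.c (T.l 816) (T.l 816)))) (T.a (T.a (T.l 816) (T.a (T.l 816) (T.l 816))) (T.a (T.a (T.l 816) (T.l 816)) (T.a (T.l 816) (T.l 816))))) (T.b (T.a (T.a (T.l 816) (T.a (T.l 816) (T.l 816))) (T.a (T.a (T.l 816) (T.l 816)) (T.c (T.l 816) (T.l 816)))) (T.a (T.a (T.l 816) (T.a (T.l 816) (T.l 816))) (T.a (T.a (T.l 816) (T.l 816)) (T.a (T.l 816) (T.l 816)))))) (T.c (T.b (T.a (T.a (T.l 816)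 (T.l 816)) (T.a (T.a (T.l 816) (T.l 816)) (T.a (T.l 816) (T.l 816)))) (T.a (T.a (T.c (T.l 816) (T.l 816)) (T.c (T.l 816) (T.l 816))) (T.a (T.a (T.c (T.l 820) (T.l 820)) (T.l 820)) (T.a (T.l 820) (T.l 816))))) (T.b (T.a (T.a (T.l 816) (T.l 816)) (T.a (T.a (T.l 816) (T.l 816)) (T.a (T.l 816) (T.l 816)))) (T.a (T.a (T.c (T.l 816) (T.l 816)) (T.c (T.l 816) (T.l 816))) (T.a (T.a (T.c (T.l 820) (T.l 820)) (T.l 820)) (T.a (T.l 816) (T.l 816))))))), by decide +kernel⟩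

def B102L_200_2_511_1 :
    ∃ t, chk3 (onCell 0 67108864 0 1073741824 67108864 67108864 (corTK [[⟨0, 1, 2, 33554432⟩, ⟨1, 0, 1, 33554432⟩, ⟨2, 1, 0, 16777216⟩, ⟨0, 0, 0, 1023410176⟩, ⟨0, 1, 0, 150994944⟩, ⟨1, 0, 0, 150994944⟩, ⟨1, 1, 0, 1023410176⟩]] true 1 c0F cB102L gF2q1 gF0q2 gF0q0 gF1q0 true true)) t 2 511 1 = true :=
  ⟨(T.c (T.b (T.a (T.a (T.l 816) (T.a (T.l 816) (T.a (T.l 816) (T.l 816)))) (T.a (T.a (T.c (T.l 816) (T.l 816)) (T.c (T.l 816) (T.l 816))) (T.a (T.l 820) (T.l 816)))) (T.a (T.a (T.l 816) (T.a (T.l 816) (T.a (T.l 816) (T.c (T.l 816) (T.l 816))))) (T.c (T.b (T.a (T.a (T.a (T.l 816) (T.l 816)) (T.a (T.l 816) (T.l 816))) (T.a (T.c (T.l 820) (T.l 820)) (T.c (T.l 820) (T.l 816)))) (T.a (T.c (T.a (T.a (T.l 816) (T.l 816)) (T.a (T.l 816) (T.l 884))) (T.a (T.a (T.l 816) (T.l 816))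 (T.a (T.l 816) (T.l 820)))) (T.a (T.a (T.a (T.l 816) (T.l 820)) (T.a (T.l 884) (T.l 884))) (T.a (T.a (T.l 884) (T.c (T.l 884) (T.l 820))) (T.c (T.a (T.l 884) (T.l 884)) (T.a (T.l 884) (T.l 884))))))) (T.b (T.a (T.a (T.a (T.l 816) (T.l 816)) (T.a (T.l 816) (T.l 816))) (T.a (T.c (T.l 820) (T.l 820)) (T.l 820))) (T.a (T.c (T.a (T.a (T.l 816) (T.l 816)) (T.a (T.l 816) (T.l 816))) (T.a (T.a (T.l 816) (T.l 816)) (T.a (T.l 816) (T.l 816)))) (T.a (T.a (T.c (T.l 820) (T.l 816)) (T.c (T.l 820) (T.l 820))) (T.a (T.a (T.l 820) (T.l 820)) (T.a (T.l 820) (T.l 820))))))))) (T.b (T.a (T.a (T.l 816) (T.a (T.l 816) (T.a (T.l 816) (T.l 816)))) (T.a (T.a (T.c (T.l 816) (T.l 816)) (T.c (T.l 816) (T.l 816))) (T.a (T.l 816) (T.l 816)))) (T.a (T.a (T.l 816) (T.a (T.l 816) (T.a (T.l 816) (T.l 816)))) (T.c (T.b (T.a (T.a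 (T.a (T.l 816) (T.l 816)) (T.a (T.l 816) (T.l 816))) (T.a (T.c (T.l 816) (T.l 816)) (T.l 820))) (T.a (T.c (T.a (T.a (T.l 816) (T.l 816)) (T.a (T.l 816) (T.l 816))) (T.a (T.a (T.l 816) (T.l 816)) (T.a (T.l 816) (T.l 816)))) (T.a (T.a (T.l 820) (T.l 820)) (T.a (T.l 820) (T.l 820))))) (T.b (T.a (T.a (T.a (T.l 816) (T.l 816)) (T.c (T.l 820) (T.l 816))) (T.a (T.l 820) (T.l 816))) (T.a (T.a (T.a (T.l 816) (T.l 816)) (T.a (T.l 816) (T.l 816))) (T.a (T.a (T.l 816) (T.l 816)) (T.a (T.l 816) (T.l 816))))))))), by decide +kernel⟩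

def B102L_200_3_511_1 :
    ∃ t, chk3 (onCell 0 67108864 0 1073741824 67108864 67108864 (corTK [[⟨0, 1, 2, 33554432⟩, ⟨1, 0, 1, 33554432⟩, ⟨2, 1, 0, 16777216⟩, ⟨0, 0, 0, 1023410176⟩, ⟨0, 1, 0, 150994944⟩, ⟨1, 0, 0, 150994944⟩, ⟨1, 1, 0, 1023410176⟩]] true 1 c0F cB102L gF2q1 gF0q2 gF0q0 gF1q0 true true)) t 3 511 1 = true :=
  ⟨(T.c (T.b (T.a (T.a (T.a (T.l 816) (T.l 816)) (T.a (T.l 820) (T.l 820))) (T.c (T.a (T.a (T.a (T.l 816) (T.l 1024)) (T.l 1024)) (T.l 1024)) (T.b (T.a (T.a (T.a (T.l 816) (T.l 816)) (T.l 820)) (T.a (T.l 820) (T.l 820))) (T.a (T.a (T.a (T.l 816) (T.l 816)) (T.a (T.l 816) (T.l 816))) (T.a (T.a (T.l 816) (T.l 816)) (T.c (T.l 1024) (T.l 884))))))) (T.a (T.c (T.b (T.a (T.a (T.l 884) (T.l 820)) (T.a (T.l 884) (T.l 884))) (T.a (T.a (T.a (T.c (T.a (T.l 884) (T.l 884)) (T.a (T.l 884)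 (T.l 884))) (T.c (T.b (T.l 816) (T.a (T.l 884) (T.c (T.l 884) (T.l 884)))) (T.a (T.l 884) (T.l 884)))) (T.a (T.c (T.b (T.l 816) (T.c (T.a (T.l 884) (T.l 884)) (T.a (T.l 884) (T.l 884)))) (T.a (T.l 884) (T.l 884))) (T.c (T.b (T.l 816) (T.c (T.a (T.l 884) (T.l 884)) (T.a (T.l 884) (T.l 884)))) (T.a (T.l 884) (T.l 884))))) (T.a (T.a (T.c (T.b (T.l 820) (T.c (T.a (T.l 884) (T.l 884)) (T.a (T.l 884) (T.l 884)))) (T.a (T.l 884) (T.l 884))) (T.c (T.b (T.l 884) (T.c (T.a (T.l 884) (T.a (T.l 884) (T.l 884))) (T.a (T.l 884) (T.l 884)))) (T.a (T.l 884) (T.c (T.l 884) (T.l 884))))) (T.c (T.a (T.b (T.l 884) (T.c (T.b (T.l 884) (T.c (T.a (T.l 884) (T.l 884)) (T.a (T.l 884) (T.l 884)))) (T.a (T.l 884) (T.l 884)))) (T.b (T.l 884) (T.c (T.b (T.l 884) (T.c (T.a (T.l 884) (T.a (T.l 884) (T.a (T.l 884) (T.l 884))))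 (T.a (T.l 884) (T.a (T.l 884) (T.l 884))))) (T.a (T.l 884) (T.a (T.l 884) (T.l 884)))))) (T.a (T.a (T.c (T.l 884) (T.l 884)) (T.l 884)) (T.a (T.l 884) (T.a (T.l 884) (T.c (T.l 884) (T.l 884))))))))) (T.b (T.a (T.a (T.l 820) (T.l 820)) (T.a (T.l 884) (T.l 884))) (T.a (T.a (T.a (T.a (T.l 884) (T.l 884)) (T.a (T.l 884) (T.l 884))) (T.a (T.a (T.l 884) (T.l 884)) (T.a (T.l 884) (T.l 884)))) (T.a (T.a (T.a (T.l 884) (T.l 884)) (T.a (T.l 884) (T.c (T.l 884) (T.l 884)))) (T.a (T.c (T.a (T.l 884) (T.l 884)) (T.l 884)) (T.c (T.a (T.l 884) (T.a (T.l 884) (T.l 884))) (T.a (T.l 884) (T.c (T.l 884) (T.l 884))))))))) (T.c (T.a (T.a (T.a (T.a (T.a (T.a (T.c (T.c (T.c (T.l 884) (T.l 884)) (T.l 884)) (T.l 884)) (T.l 1024)) (T.l 1024)) (T.l 1024)) (T.l 1024)) (T.l 1024)) (T.l 1024)) (T.b (T.a (T.a (T.a (T.l 884)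 (T.l 884)) (T.a (T.l 884) (T.l 884))) (T.a (T.a (T.l 884) (T.l 884)) (T.a (T.l 884) (T.l 884)))) (T.a (T.c (T.b (T.a (T.a (T.a (T.l 820) (T.l 820)) (T.c (T.l 884) (T.l 884))) (T.a (T.c (T.l 884) (T.l 884)) (T.l 884))) (T.a (T.a (T.a (T.a (T.l 884) (T.l 884)) (T.a (T.l 884) (T.l 884))) (T.a (T.a (T.l 884) (T.l 884)) (T.a (T.l 884) (T.l 884)))) (T.a (T.a (T.a (T.l 884) (T.l 884)) (T.c (T.l 1024) (T.l 884))) (T.c (T.l 1024) (T.a (T.l 884) (T.l 884)))))) (T.b (T.a (T.a (T.a (T.l 816) (T.l 816)) (T.l 884)) (T.a (T.l 884) (T.l 884))) (T.a (T.a (T.a (T.l 884) (T.l 884)) (T.a (T.l 884) (T.l 884))) (T.a (T.a (T.l 884) (T.l 884)) (T.a (T.l 884) (T.l 884)))))) (T.c (T.a (T.a (T.a (T.a (T.l 884) (T.l 1024)) (T.l 1024)) (T.l 1024)) (T.l 1024)) (T.b (T.a (T.a (T.l 884) (T.l 884)) (T.a (T.l 884) (T.l 884)))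 (T.a (T.a (T.a (T.l 884) (T.l 884)) (T.a (T.c (T.l 884) (T.l 884)) (T.c (T.l 884) (T.l 884)))) (T.a (T.a (T.c (T.l 884) (T.l 884)) (T.c (T.l 1024) (T.l 884))) (T.c (T.l 1024) (T.a (T.l 884) (T.l 884)))))))))))) (T.b (T.a (T.a (T.a (T.l 816) (T.l 816)) (T.a (T.l 816) (T.l 816))) (T.c (T.b (T.a (T.a (T.a (T.l 816) (T.l 816)) (T.l 820)) (T.a (T.l 820) (T.l 816))) (T.a (T.a (T.a (T.l 816) (T.l 816)) (T.a (T.l 816) (T.l 816))) (T.a (T.c (T.l 884) (T.l 884)) (T.l 884)))) (T.b (T.a (T.a (T.a (T.l 816) (T.l 816)) (T.l 820)) (T.a (T.l 816) (T.l 816))) (T.a (T.a (T.a (T.l 816) (T.l 816)) (T.a (T.l 816) (T.l 816))) (T.a (T.c (T.l 884) (T.l 820)) (T.l 884)))))) (T.a (T.c (T.b (T.a (T.a (T.l 816) (T.l 816)) (T.a (T.l 820) (T.l 820))) (T.a (T.a (T.a (T.l 820) (T.l 820)) (T.a (T.l 884) (T.l 884))) (T.a (T.a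 (T.l 884) (T.c (T.l 884) (T.l 820))) (T.a (T.c (T.l 884) (T.l 884)) (T.a (T.l 884) (T.c (T.l 884) (T.l 884))))))) (T.b (T.a (T.a (T.l 816) (T.l 816)) (T.a (T.l 816) (T.l 816))) (T.a (T.a (T.a (T.l 816) (T.l 816)) (T.a (T.l 816) (T.l 816))) (T.a (T.a (T.l 820) (T.l 820)) (T.a (T.l 820) (T.a (T.l 816) (T.l 884))))))) (T.c (T.b (T.a (T.a (T.a (T.l 884) (T.l 820)) (T.a (T.l 820) (T.l 820))) (T.a (T.a (T.l 820) (T.l 820)) (T.a (T.l 884) (T.l 884)))) (T.a (T.c (T.b (T.a (T.a (T.c (T.l 884) (T.l 884)) (T.l 884)) (T.a (T.l 884) (T.l 884))) (T.a (T.a (T.a (T.l 884) (T.l 884)) (T.a (T.l 884) (T.l 884))) (T.a (T.a (T.l 884) (T.l 884)) (T.a (T.l 884) (T.l 884))))) (T.b (T.a (T.a (T.l 884) (T.l 884)) (T.a (T.l 884) (T.l 884))) (T.a (T.a (T.a (T.l 884) (T.l 884)) (T.a (T.l 884) (T.l 884))) (T.a (T.a (T.l 884)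 (T.l 884)) (T.a (T.l 884) (T.l 884)))))) (T.c (T.b (T.a (T.a (T.l 884) (T.l 884)) (T.a (T.l 884) (T.l 884))) (T.a (T.a (T.a (T.l 884) (T.l 884)) (T.a (T.l 884) (T.l 884))) (T.a (T.a (T.l 884) (T.l 884)) (T.a (T.l 884) (T.l 884))))) (T.b (T.a (T.a (T.l 884) (T.l 884)) (T.a (T.l 884) (T.l 884))) (T.a (T.a (T.a (T.l 884) (T.l 884)) (T.a (T.l 884) (T.l 884))) (T.a (T.a (T.l 884) (T.l 884)) (T.a (T.l 884) (T.l 884)))))))) (T.b (T.a (T.a (T.a (T.l 816) (T.l 816)) (T.a (T.l 816) (T.l 816))) (T.a (T.a (T.l 816) (T.l 816)) (T.a (T.l 816) (T.l 816)))) (T.a (T.c (T.b (T.a (T.a (T.l 884) (T.l 884)) (T.a (T.l 884) (T.l 884))) (T.a (T.a (T.a (T.l 884) (T.l 884)) (T.a (T.l 884) (T.l 884))) (T.a (T.a (T.l 884) (T.l 884)) (T.c (T.l 884) (T.l 884))))) (T.b (T.a (T.a (T.l 820) (T.l 816)) (T.a (T.l 816) (T.l 816)))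 (T.a (T.a (T.a (T.l 816) (T.l 816)) (T.l 884)) (T.a (T.l 884) (T.l 884))))) (T.c (T.b (T.a (T.a (T.l 884) (T.l 884)) (T.a (T.l 884) (T.l 884))) (T.a (T.a (T.c (T.l 884) (T.l 884)) (T.c (T.l 884) (T.l 884))) (T.a (T.c (T.l 884) (T.l 884)) (T.c (T.l 884) (T.l 884))))) (T.a (T.a (T.l 884) (T.l 884)) (T.a (T.l 884) (T.l 884)))))))))), by decide +kernel⟩

theorem B102L_200_1_511_1 :
    ∃ t, chk3 (onCell 0 67108864 0 1073741824 67108864 67108864 (corTK [[⟨0, 1, 2, 33554432⟩, ⟨1, 0, 1, 33554432⟩, ⟨2, 1, 0, 16777216⟩, ⟨0, 0, 0, 1023410176⟩, ⟨0, 1, 0, 150994944⟩, ⟨1, 0, 0, 150994944⟩, ⟨1, 1, 0, 1023410176⟩]] true 1 c0F cB102L gF2q1 gF0q2 gF0q0 gF1q0 true true)) t 1 511 1 = true :=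
  ex3_a B102L_200_2_511_1 B102L_200_3_511_1
theorem B102L_200_1_255_1 :
    ∃ t, chk3 (onCell 0 67108864 0 1073741824 67108864 67108864 (corTK [[⟨0, 1, 2, 33554432⟩, ⟨1, 0, 1, 33554432⟩, ⟨2, 1, 0, 16777216⟩, ⟨0, 0, 0, 1023410176⟩, ⟨0, 1, 0, 150994944⟩, ⟨1, 0, 0, 150994944⟩, ⟨1, 1, 0, 1023410176⟩]] true 1 c0F cB102L gF2q1 gF0q2 gF0q0 gF1q0 true true)) t 1 255 1 = true :=
  ex3_b B102L_200_1_510_1 B102L_200_1_511_1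
theorem B102L_200_1_127_1 :
    ∃ t, chk3 (onCell 0 67108864 0 1073741824 67108864 67108864 (corTK [[⟨0, 1, 2, 33554432⟩, ⟨1, 0, 1, 33554432⟩, ⟨2, 1, 0, 16777216⟩, ⟨0, 0, 0, 1023410176⟩, ⟨0, 1, 0, 150994944⟩, ⟨1, 0, 0, 150994944⟩, ⟨1, 1, 0, 1023410176⟩]] true 1 c0F cB102L gF2q1 gF0q2 gF0q0 gF1q0 true true)) t 1 127 1 = true :=
  ex3_b B102L_200_1_254_1 B102L_200_1_255_1
theorem B102L_200_1_63_1 :
    ∃ t, chk3 (onCell 0 67108864 0 1073741824 67108864 67108864 (corTK [[⟨0, 1, 2, 33554432⟩, ⟨1, 0, 1, 33554432⟩, ⟨2, 1, 0, 16777216⟩, ⟨0, 0, 0, 1023410176⟩, ⟨0, 1, 0, 150994944⟩, ⟨1, 0, 0, 150994944⟩, ⟨1, 1, 0, 1023410176⟩]] true 1 c0F cB102L gF2q1 gF0q2 gF0q0 gF1q0 true true)) t 1 63 1 = true :=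
  ex3_b B102L_200_1_126_1 B102L_200_1_127_1
theorem B102L_200_1_31_1 :
    ∃ t, chk3 (onCell 0 67108864 0 1073741824 67108864 67108864 (corTK [[⟨0, 1, 2, 33554432⟩, ⟨1, 0, 1, 33554432⟩, ⟨2, 1, 0, 16777216⟩, ⟨0, 0, 0, 1023410176⟩, ⟨0, 1, 0, 150994944⟩, ⟨1, 0, 0, 150994944⟩, ⟨1, 1, 0, 1023410176⟩]] true 1 c0F cB102L gF2q1 gF0q2 gF0q0 gF1q0 true true)) t 1 31 1 = true :=
  ex3_b B102L_200_1_62_1 B102L_200_1_63_1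
theorem B102L_200_1_15_1 :
    ∃ t, chk3 (onCell 0 67108864 0 1073741824 67108864 67108864 (corTK [[⟨0, 1, 2, 33554432⟩, ⟨1, 0, 1, 33554432⟩, ⟨2, 1, 0, 16777216⟩, ⟨0, 0, 0, 1023410176⟩, ⟨0, 1, 0, 150994944⟩, ⟨1, 0, 0, 150994944⟩, ⟨1, 1, 0, 1023410176⟩]] true 1 c0F cB102L gF2q1 gF0q2 gF0q0 gF1q0 true true)) t 1 15 1 = true :=
  ex3_b B102L_200_1_30_1 B102L_200_1_31_1
theorem B102L_200_1_7_1 :
    ∃ t, chk3 (onCell 0 67108864 0 1073741824 67108864 67108864 (corTK [[⟨0, 1, 2, 33554432⟩, ⟨1, 0, 1, 33554432⟩, ⟨2, 1, 0, 16777216⟩, ⟨0, 0, 0, 1023410176⟩, ⟨0, 1, 0, 150994944⟩, ⟨1, 0, 0, 150994944⟩, ⟨1, 1, 0, 1023410176⟩]] true 1 c0F cB102L gF2q1 gF0q2 gF0q0 gF1q0 true true)) t 1 7 1 = true :=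
  ex3_b B102L_200_1_14_1 B102L_200_1_15_1
theorem B102L_200_1_3_1 :
    ∃ t, chk3 (onCell 0 67108864 0 1073741824 67108864 67108864 (corTK [[⟨0, 1, 2, 33554432⟩, ⟨1, 0, 1, 33554432⟩, ⟨2, 1, 0, 16777216⟩, ⟨0, 0, 0, 1023410176⟩, ⟨0, 1, 0, 150994944⟩, ⟨1, 0, 0, 150994944⟩, ⟨1, 1, 0, 1023410176⟩]] true 1 c0F cB102L gF2q1 gF0q2 gF0q0 gF1q0 true true)) t 1 3 1 = true :=
  ex3_b B102L_200_1_6_1 B102L_200_1_7_1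
theorem B102L_200 :
    ∃ t, chk3 (onCell 0 67108864 0 1073741824 67108864 67108864 (corTK [[⟨0, 1, 2, 33554432⟩, ⟨1, 0, 1, 33554432⟩, ⟨2, 1, 0, 16777216⟩, ⟨0, 0, 0, 1023410176⟩, ⟨0, 1, 0, 150994944⟩, ⟨1, 0, 0, 150994944⟩, ⟨1, 1, 0, 1023410176⟩]] true 1 c0F cB102L gF2q1 gF0q2 gF0q0 gF1q0 true true)) t 1 1 1 = true :=
  ex3_b B102L_200_1_2_1 B102L_200_1_3_1

def B102L_201 :
    ∃ t, chk3 (onCell 0 67108864 0 1073741824 67108864 67108864 (corTK [[⟨0, 1, 2, 33554432⟩, ⟨1, 0, 1, 33554432⟩, ⟨2, 1, 0, 16777216⟩, ⟨0, 0, 0, 1023410176⟩, ⟨0, 1, 0, 150994944⟩, ⟨1, 0, 0, 150994944⟩, ⟨1, 1, 0, 1023410176⟩]] true 1 c0F cB102L gF2q1 gF0q2 gF1q0 gF2q0 true true)) t 1 1 1 = true :=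
  ⟨(T.b (T.b (T.b (T.a (T.a (T.a (T.l 204) (T.l 204)) (T.l 204)) (T.b (T.l 2) (T.l 204))) (T.a (T.a (T.a (T.l 204) (T.l 204)) (T.l 204)) (T.b (T.l 204) (T.l 204)))) (T.b (T.a (T.a (T.a (T.l 204) (T.l 0)) (T.l 0)) (T.b (T.l 0) (T.l 0))) (T.b (T.a (T.a (T.a (T.l 204) (T.l 204)) (T.l 204)) (T.l 0)) (T.a (T.a (T.l 1) (T.l 0)) (T.l 0))))) (T.b (T.a (T.l 1) (T.b (T.b (T.l 0) (T.l 1)) (T.l 1))) (T.l 1))), by decide +kernel⟩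

def B102L_202 :
    ∃ t, chk3 (onCell 0 67108864 0 1073741824 67108864 67108864 (corTK [[⟨0, 1, 2, 33554432⟩, ⟨1, 0, 1, 33554432⟩, ⟨2, 1, 0, 16777216⟩, ⟨0, 0, 0, 1023410176⟩, ⟨0, 1, 0, 150994944⟩, ⟨1, 0, 0, 150994944⟩, ⟨1, 1, 0, 1023410176⟩]] true 1 c0F cB102L gF2q1 gF0q2 gF2q0 gF3q0 true false)) t 1 1 1 = true :=
  ⟨(T.b (T.b (T.b (T.a (T.a (T.a (T.l 204) (T.l 204)) (T.l 204)) (T.l 204)) (T.a (T.l 1) (T.b (T.l 204) (T.l 204)))) (T.l 1)) (T.l 1)), by decide +kernel⟩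

end Pool.Agent.Strip051.G.I1_16_1_8.Tab.CF
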