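import Pool.Agent.Strip051.G.I1_16_1_8.Gn
import Pool.Agent.Strip051.PB.Corns
import Pool.Agent.Strip051.PB.CornK

/-! # Certificates of the aligned corners (generated) -/

set_option linter.all false

namespace Pool.Agent.Strip051.G.I1_16_1_8.Tab.CF

open Pool.Agent.Strip051.PB

def B202E_020_2_256_1 :
    ∃ t, chk3 (onCell 0 67108864 0 1073741824 67108864 67108864 (corTK [[⟨0, 1, 0, 8388608⟩, ⟨1, 0, 1, 33554432⟩, ⟨2, 1, 1, 33554432⟩, ⟨1, 0, 0, 150994944⟩, ⟨1, 1, 0, 1023410176⟩, ⟨2, 1, 0, 150994944⟩, ⟨2, 2, 0, 1023410176⟩]] true 1 c0F cB202E gF0q2 gF2q2 gF0q0 gF1q0 true true)) t 2 256 1 = true :=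
  ⟨(T.c (T.b (T.a (T.c (T.b (T.a (T.c (T.b (T.l 204) (T.l 1)) (T.l 204)) (T.c (T.b (T.a (T.c (T.b (T.l 204) (T.l 1)) (T.l 204)) (T.c (T.b (T.a (T.a (T.l 204) (T.l 220)) (T.c (T.b (T.a (T.l 220) (T.c (T.b (T.l 220) (T.l 1)) (T.l 220))) (T.l 1)) (T.a (T.l 220) (T.b (T.l 220) (T.l 1))))) (T.l 1)) (T.b (T.a (T.l 204) (T.a (T.l 204) (T.c (T.l 220) (T.l 204)))) (T.l 1)))) (T.l 1)) (T.b (T.a (T.l 204) (T.a (T.l 204) (T.a (T.l 220) (T.c (T.b (T.l 204) (T.l 1)) (T.l 204))))) (T.l 1)))) (T.l 1)) (T.b (T.a (T.l 204) (T.a (T.l 204) (T.a (T.l 220) (T.c (T.b (T.l 204) (T.l 1)) (T.l 220))))) (T.l 1))) (T.c (T.b (T.a (T.c (T.b (T.a (T.c (T.b (T.a (T.c (T.b (T.a (T.l 220) (T.l 204)) (T.l 1)) (T.b (T.l 220) (T.l 1))) (T.c (T.a (T.l 220) (T.l 220)) (T.l 220))) (T.l 1)) (T.b (T.a (T.a (T.l 220) (T.l 204))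 (T.l 204)) (T.l 1))) (T.c (T.b (T.a (T.a (T.l 220) (T.l 220)) (T.a (T.l 220) (T.l 220))) (T.l 1)) (T.b (T.a (T.l 220) (T.l 220)) (T.l 1)))) (T.l 1)) (T.b (T.a (T.c (T.a (T.a (T.l 220) (T.l 220)) (T.l 220)) (T.a (T.l 204) (T.l 204))) (T.c (T.a (T.a (T.l 204) (T.l 204)) (T.l 220)) (T.a (T.l 204) (T.l 204)))) (T.l 1))) (T.c (T.b (T.a (T.c (T.b (T.a (T.a (T.l 220) (T.l 220)) (T.a (T.l 220) (T.l 220))) (T.l 1)) (T.b (T.a (T.l 220) (T.l 220)) (T.l 1))) (T.c (T.b (T.a (T.a (T.l 220) (T.l 220)) (T.c (T.b (T.l 220) (T.l 1)) (T.l 220))) (T.l 1)) (T.b (T.a (T.l 220) (T.l 220)) (T.l 1)))) (T.l 1)) (T.b (T.a (T.c (T.a (T.l 220) (T.a (T.l 220) (T.l 220))) (T.a (T.l 204) (T.l 220))) (T.c (T.b (T.a (T.l 220) (T.l 220)) (T.l 1)) (T.a (T.l 220) (T.l 220)))) (T.l 1)))) (T.l 1)) (T.b (T.a (T.c (T.b (T.a (T.a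 (T.l 204) (T.l 204)) (T.a (T.l 204) (T.l 204))) (T.l 1)) (T.b (T.a (T.l 204) (T.a (T.l 204) (T.l 204))) (T.l 1))) (T.c (T.b (T.a (T.a (T.l 204) (T.l 204)) (T.a (T.l 220) (T.l 220))) (T.l 1)) (T.b (T.a (T.l 220) (T.l 220)) (T.l 1)))) (T.l 1)))) (T.l 1)) (T.b (T.a (T.a (T.l 204) (T.a (T.l 204) (T.c (T.a (T.l 220) (T.b (T.l 204) (T.l 1))) (T.a (T.l 204) (T.l 204))))) (T.c (T.b (T.a (T.c (T.a (T.l 204) (T.a (T.l 204) (T.l 204))) (T.a (T.l 204) (T.l 204))) (T.c (T.b (T.a (T.l 204) (T.l 204)) (T.l 1)) (T.a (T.l 204) (T.l 476)))) (T.l 1)) (T.b (T.a (T.a (T.l 204) (T.l 204)) (T.a (T.l 204) (T.l 204))) (T.l 1)))) (T.l 1))), by decide +kernel⟩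

def B202E_020_6_512_2 :
    ∃ t, chk3 (onCell 0 67108864 0 1073741824 67108864 67108864 (corTK [[⟨0, 1, 0, 8388608⟩, ⟨1, 0, 1, 33554432⟩, ⟨2, 1, 1, 33554432⟩, ⟨1, 0, 0, 150994944⟩, ⟨1, 1, 0, 1023410176⟩, ⟨2, 1, 0, 150994944⟩, ⟨2, 2, 0, 1023410176⟩]] true 1 c0F cB202E gF0q2 gF2q2 gF0q0 gF1q0 true true)) t 6 512 2 = true :=
  ⟨(T.c (T.b (T.a (T.c (T.b (T.a (T.c (T.b (T.a (T.c (T.b (T.l 220) (T.l 1)) (T.a (T.l 220) (T.l 220))) (T.c (T.b (T.l 220) (T.l 1)) (T.b (T.l 220) (T.l 1)))) (T.l 1)) (T.b (T.a (T.l 220) (T.a (T.l 220) (T.l 220))) (T.l 1))) (T.c (T.b (T.a (T.c (T.b (T.a (T.l 220) (T.l 476)) (T.l 1)) (T.b (T.l 476) (T.l 1))) (T.c (T.b (T.a (T.l 476) (T.l 476)) (T.l 1)) (T.b (T.l 476) (T.l 1)))) (T.l 1)) (T.b (T.a (T.c (T.b (T.l 476) (T.l 1)) (T.a (T.l 220) (T.l 476))) (T.c (T.b (T.l 476)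 (T.l 1)) (T.b (T.l 476) (T.l 1)))) (T.l 1)))) (T.l 1)) (T.b (T.a (T.c (T.b (T.a (T.l 220) (T.l 220)) (T.l 1)) (T.a (T.l 220) (T.a (T.l 220) (T.l 476)))) (T.c (T.b (T.a (T.l 476) (T.a (T.l 476) (T.l 476))) (T.l 1)) (T.b (T.a (T.l 476) (T.l 476)) (T.l 1)))) (T.l 1))) (T.c (T.b (T.a (T.c (T.b (T.a (T.c (T.b (T.a (T.c (T.b (T.l 476) (T.l 1)) (T.l 476)) (T.c (T.b (T.l 476) (T.l 1)) (T.a (T.l 476) (T.l 476)))) (T.l 1)) (T.b (T.a (T.l 476) (T.l 476)) (T.l 1))) (T.c (T.b (T.a (T.c (T.b (T.l 476) (T.l 1)) (T.b (T.l 476) (T.l 1))) (T.c (T.b (T.l 476) (T.l 1)) (T.b (T.l 476) (T.l 1)))) (T.l 1)) (T.b (T.a (T.c (T.a (T.l 476) (T.l 476)) (T.l 476)) (T.c (T.b (T.l 476) (T.l 1)) (T.b (T.l 476) (T.l 1)))) (T.l 1)))) (T.l 1)) (T.b (T.a (T.c (T.b (T.l 476) (T.l 1)) (T.b (T.l 476) (T.l 1))) (T.c (T.b (T.a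 (T.l 476) (T.a (T.l 476) (T.l 476))) (T.l 1)) (T.b (T.a (T.l 476) (T.l 476)) (T.l 1)))) (T.l 1))) (T.c (T.b (T.a (T.c (T.b (T.a (T.c (T.b (T.l 476) (T.l 1)) (T.b (T.l 476) (T.l 1))) (T.c (T.b (T.a (T.l 476) (T.l 476)) (T.l 1)) (T.b (T.l 476) (T.l 1)))) (T.l 1)) (T.b (T.a (T.c (T.b (T.l 476) (T.l 1)) (T.b (T.l 476) (T.l 1))) (T.c (T.b (T.l 476) (T.l 1)) (T.b (T.l 476) (T.l 1)))) (T.l 1))) (T.c (T.b (T.a (T.c (T.b (T.a (T.l 476) (T.c (T.a (T.l 476) (T.l 476)) (T.l 476))) (T.l 1)) (T.b (T.a (T.l 476) (T.l 476)) (T.l 1))) (T.c (T.b (T.a (T.c (T.b (T.l 476) (T.l 1)) (T.b (T.l 476) (T.l 1))) (T.c (T.b (T.l 476) (T.l 1)) (T.b (T.l 476) (T.l 1)))) (T.l 1)) (T.b (T.a (T.c (T.b (T.l 476) (T.l 1)) (T.a (T.l 476) (T.l 476))) (T.c (T.b (T.l 476) (T.l 1)) (T.b (T.l 476) (T.l 1)))) (T.l 1)))) (T.l 1))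 (T.b (T.a (T.c (T.b (T.l 476) (T.l 1)) (T.b (T.l 476) (T.l 1))) (T.c (T.b (T.a (T.l 476) (T.c (T.b (T.l 476) (T.l 1)) (T.b (T.l 476) (T.l 1)))) (T.l 1)) (T.b (T.a (T.l 476) (T.c (T.b (T.l 476) (T.l 1)) (T.a (T.l 476) (T.l 476)))) (T.l 1)))) (T.l 1)))) (T.l 1)) (T.b (T.a (T.c (T.b (T.a (T.c (T.b (T.l 476) (T.l 1)) (T.a (T.l 476) (T.l 476))) (T.c (T.b (T.l 476) (T.l 1)) (T.b (T.l 476) (T.l 1)))) (T.l 1)) (T.b (T.a (T.l 476) (T.a (T.l 476) (T.l 476))) (T.l 1))) (T.c (T.b (T.a (T.c (T.b (T.l 476) (T.l 1)) (T.b (T.l 476) (T.l 1))) (T.c (T.b (T.a (T.l 476) (T.a (T.l 476) (T.l 476))) (T.l 1)) (T.b (T.a (T.l 476) (T.l 476)) (T.l 1)))) (T.l 1)) (T.b (T.a (T.c (T.b (T.l 476) (T.l 1)) (T.b (T.l 476) (T.l 1))) (T.c (T.b (T.a (T.l 476) (T.l 476)) (T.l 1)) (T.b (T.a (T.l 476) (T.l 476)) (T.l 1)))) (T.l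 1)))) (T.l 1)))) (T.l 1)) (T.b (T.a (T.c (T.b (T.a (T.c (T.b (T.l 476) (T.l 1)) (T.a (T.l 476) (T.l 476))) (T.c (T.b (T.a (T.l 476) (T.l 476)) (T.l 1)) (T.b (T.l 476) (T.l 1)))) (T.l 1)) (T.b (T.a (T.l 476) (T.c (T.b (T.l 476) (T.l 1)) (T.a (T.l 476) (T.l 476)))) (T.l 1))) (T.c (T.b (T.a (T.c (T.b (T.a (T.l 476) (T.l 476)) (T.l 1)) (T.b (T.a (T.l 476) (T.l 476)) (T.l 1))) (T.c (T.b (T.a (T.a (T.l 476) (T.l 476)) (T.c (T.b (T.a (T.l 476) (T.l 476)) (T.l 1)) (T.b (T.l 476) (T.l 1)))) (T.l 1)) (T.b (T.a (T.l 476) (T.c (T.b (T.l 476) (T.l 1)) (T.b (T.l 476) (T.l 1)))) (T.l 1)))) (T.l 1)) (T.b (T.a (T.c (T.b (T.l 476) (T.l 1)) (T.b (T.l 476) (T.l 1))) (T.c (T.b (T.a (T.l 476) (T.a (T.l 476) (T.l 476))) (T.l 1)) (T.b (T.a (T.l 476) (T.a (T.l 476) (T.l 476))) (T.l 1)))) (T.l 1)))) (T.l 1)))) (T.l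 1)) (T.b (T.a (T.c (T.b (T.a (T.a (T.l 220) (T.l 476)) (T.c (T.b (T.a (T.l 220) (T.l 476)) (T.l 1)) (T.a (T.l 476) (T.l 476)))) (T.l 1)) (T.b (T.a (T.a (T.l 204) (T.l 220)) (T.a (T.l 476) (T.l 476))) (T.l 1))) (T.c (T.b (T.a (T.c (T.b (T.a (T.l 476) (T.a (T.l 476) (T.l 476))) (T.l 1)) (T.b (T.a (T.l 476) (T.l 476)) (T.l 1))) (T.c (T.b (T.a (T.c (T.b (T.l 476) (T.l 1)) (T.a (T.l 476) (T.l 476))) (T.c (T.b (T.a (T.l 476) (T.l 476)) (T.l 1)) (T.b (T.a (T.l 476) (T.l 476)) (T.l 1)))) (T.l 1)) (T.b (T.a (T.a (T.l 476) (T.l 476)) (T.a (T.l 476) (T.c (T.b (T.l 476) (T.l 1)) (T.a (T.l 476) (T.l 476))))) (T.l 1)))) (T.l 1)) (T.b (T.a (T.c (T.a (T.l 476) (T.b (T.l 476) (T.l 1))) (T.a (T.l 476) (T.a (T.l 476) (T.l 476)))) (T.c (T.b (T.a (T.l 476) (T.a (T.l 476) (T.a (T.l 476) (T.l 476)))) (T.l 1))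 (T.b (T.a (T.l 476) (T.a (T.l 476) (T.l 476))) (T.l 1)))) (T.l 1)))) (T.l 1))), by decide +kernel⟩

def B202E_020_7_512_2 :
    ∃ t, chk3 (onCell 0 67108864 0 1073741824 67108864 67108864 (corTK [[⟨0, 1, 0, 8388608⟩, ⟨1, 0, 1, 33554432⟩, ⟨2, 1, 1, 33554432⟩, ⟨1, 0, 0, 150994944⟩, ⟨1, 1, 0, 1023410176⟩, ⟨2, 1, 0, 150994944⟩, ⟨2, 2, 0, 1023410176⟩]] true 1 c0F cB202E gF0q2 gF2q2 gF0q0 gF1q0 true true)) t 7 512 2 = true :=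
  ⟨(T.c (T.a (T.a (T.a (T.a (T.b (T.a (T.c (T.b (T.a (T.c (T.b (T.a (T.c (T.b (T.a (T.c (T.b (T.c (T.b (T.l 476) (T.l 1)) (T.b (T.l 476) (T.l 1))) (T.l 1)) (T.b (T.c (T.b (T.l 476) (T.l 1)) (T.b (T.l 476) (T.l 1))) (T.l 1))) (T.l 1024)) (T.l 1)) (T.b (T.a (T.c (T.b (T.c (T.b (T.l 476) (T.l 1)) (T.b (T.l 476) (T.l 1))) (T.l 1)) (T.b (T.a (T.l 476) (T.l 1024)) (T.l 1))) (T.l 1024)) (T.l 1))) (T.l 1024)) (T.l 1)) (T.b (T.a (T.c (T.b (T.c (T.b (T.l 476) (T.l 1)) (T.b (T.l 476) (T.l 1))) (T.l 1)) (T.b (T.c (T.b (T.l 476) (T.l 1)) (T.b (T.l 476) (T.l 1))) (T.l 1))) (T.l 1024)) (T.l 1))) (T.l 1024)) (T.l 1)) (T.b (T.a (T.c (T.b (T.a (T.c (T.b (T.c (T.b (T.l 476) (T.l 1)) (T.b (T.l 476) (T.l 1))) (T.l 1)) (T.b (T.c (T.b (T.l 476) (T.l 1)) (T.l 476)) (T.l 1))) (T.l 1024)) (T.l 1)) (T.b (T.c (T.b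 (T.l 476) (T.l 1)) (T.b (T.l 476) (T.l 1))) (T.l 1))) (T.l 1024)) (T.l 1))) (T.l 1024)) (T.l 1)) (T.l 1024)) (T.l 1024)) (T.l 1024)) (T.l 1024)) (T.b (T.a (T.c (T.b (T.a (T.c (T.b (T.a (T.c (T.b (T.a (T.a (T.l 476) (T.l 476)) (T.a (T.l 476) (T.l 476))) (T.l 1)) (T.b (T.a (T.l 476) (T.l 476)) (T.l 1))) (T.c (T.a (T.a (T.b (T.l 476) (T.l 1)) (T.l 1024)) (T.l 1024)) (T.b (T.a (T.l 476) (T.l 476)) (T.l 1)))) (T.l 1)) (T.b (T.a (T.c (T.b (T.a (T.l 476) (T.l 476)) (T.l 1)) (T.b (T.a (T.l 476) (T.l 476)) (T.l 1))) (T.c (T.b (T.a (T.l 476) (T.l 476)) (T.l 1)) (T.b (T.a (T.l 476) (T.l 476)) (T.l 1)))) (T.l 1))) (T.c (T.a (T.a (T.c (T.l 1024) (T.a (T.c (T.l 1024) (T.a (T.c (T.l 1024) (T.b (T.b (T.l 476) (T.l 1)) (T.l 1))) (T.l 1024))) (T.l 1024))) (T.l 1024)) (T.l 1024)) (T.b (T.a (T.c (T.b (T.a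 (T.l 476) (T.l 476)) (T.l 1)) (T.b (T.a (T.l 476) (T.l 476)) (T.l 1))) (T.c (T.a (T.a (T.b (T.l 476) (T.l 1)) (T.l 1024)) (T.l 1024)) (T.b (T.a (T.l 476) (T.l 476)) (T.l 1)))) (T.l 1)))) (T.l 1)) (T.b (T.a (T.c (T.b (T.a (T.c (T.b (T.a (T.l 476) (T.l 476)) (T.l 1)) (T.a (T.l 476) (T.l 476))) (T.c (T.b (T.a (T.l 476) (T.l 476)) (T.l 1)) (T.b (T.a (T.l 476) (T.l 476)) (T.l 1)))) (T.l 1)) (T.b (T.a (T.a (T.l 476) (T.l 476)) (T.a (T.l 476) (T.c (T.l 476) (T.l 476)))) (T.l 1))) (T.c (T.b (T.a (T.c (T.b (T.a (T.l 476) (T.l 476)) (T.l 1)) (T.b (T.a (T.l 476) (T.l 476)) (T.l 1))) (T.c (T.b (T.a (T.l 476) (T.l 476)) (T.l 1)) (T.b (T.a (T.l 476) (T.l 476)) (T.l 1)))) (T.l 1)) (T.b (T.a (T.c (T.b (T.a (T.l 476) (T.l 476)) (T.l 1)) (T.a (T.l 476) (T.l 476))) (T.c (T.b (T.a (T.l 476) (T.l 476)) (T.l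 1)) (T.b (T.l 476) (T.l 1)))) (T.l 1)))) (T.l 1))) (T.c (T.a (T.a (T.c (T.l 1024) (T.a (T.c (T.l 1024) (T.a (T.c (T.l 1024) (T.b (T.a (T.c (T.l 1024) (T.b (T.b (T.l 476) (T.l 1)) (T.l 1))) (T.l 1024)) (T.l 1))) (T.l 1024))) (T.l 1024))) (T.l 1024)) (T.l 1024)) (T.b (T.a (T.c (T.b (T.a (T.c (T.b (T.a (T.l 476) (T.l 476)) (T.l 1)) (T.b (T.a (T.l 476) (T.l 476)) (T.l 1))) (T.c (T.a (T.b (T.l 476) (T.l 1)) (T.l 1024)) (T.b (T.a (T.l 476) (T.l 476)) (T.l 1)))) (T.l 1)) (T.b (T.a (T.c (T.b (T.a (T.l 476) (T.l 476)) (T.l 1)) (T.b (T.a (T.l 476) (T.l 476)) (T.l 1))) (T.c (T.b (T.a (T.l 476) (T.l 476)) (T.l 1)) (T.b (T.a (T.l 476) (T.l 476)) (T.l 1)))) (T.l 1))) (T.c (T.a (T.a (T.c (T.l 1024) (T.a (T.c (T.l 1024) (T.a (T.c (T.l 1024) (T.b (T.b (T.l 476) (T.l 1)) (T.l 1))) (T.l 1024))) (T.l 1024)))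 (T.l 1024)) (T.l 1024)) (T.b (T.a (T.c (T.b (T.a (T.l 476) (T.l 476)) (T.l 1)) (T.b (T.a (T.l 476) (T.l 476)) (T.l 1))) (T.c (T.a (T.b (T.l 476) (T.l 1)) (T.l 1024)) (T.b (T.a (T.l 476) (T.l 476)) (T.l 1)))) (T.l 1)))) (T.l 1)))) (T.l 1))), by decide +kernel⟩

def B202E_020_3_513_2 :
    ∃ t, chk3 (onCell 0 67108864 0 1073741824 67108864 67108864 (corTK [[⟨0, 1, 0, 8388608⟩, ⟨1, 0, 1, 33554432⟩, ⟨2, 1, 1, 33554432⟩, ⟨1, 0, 0, 150994944⟩, ⟨1, 1, 0, 1023410176⟩, ⟨2, 1, 0, 150994944⟩, ⟨2, 2, 0, 1023410176⟩]] true 1 c0F cB202E gF0q2 gF2q2 gF0q0 gF1q0 true true)) t 3 513 2 = true :=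
  ⟨(T.l 1), by decide +kernel⟩

def B202E_020_3_256_3 :
    ∃ t, chk3 (onCell 0 67108864 0 1073741824 67108864 67108864 (corTK [[⟨0, 1, 0, 8388608⟩, ⟨1, 0, 1, 33554432⟩, ⟨2, 1, 1, 33554432⟩, ⟨1, 0, 0, 150994944⟩, ⟨1, 1, 0, 1023410176⟩, ⟨2, 1, 0, 150994944⟩, ⟨2, 2, 0, 1023410176⟩]] true 1 c0F cB202E gF0q2 gF2q2 gF0q0 gF1q0 true true)) t 3 256 3 = true :=
  ⟨(T.b (T.a (T.c (T.b (T.a (T.c (T.b (T.a (T.l 476) (T.l 476)) (T.l 1)) (T.b (T.a (T.l 204) (T.l 476)) (T.l 1))) (T.c (T.b (T.a (T.a (T.l 476) (T.c (T.l 476) (T.l 476))) (T.c (T.b (T.a (T.l 476) (T.a (T.l 476) (T.l 476))) (T.l 1)) (T.a (T.l 476) (T.a (T.l 476) (T.b (T.l 476) (T.l 1)))))) (T.l 1)) (T.b (T.a (T.a (T.l 204) (T.l 476)) (T.a (T.l 476) (T.a (T.l 476) (T.c (T.l 476) (T.l 476))))) (T.l 1)))) (T.l 1)) (T.b (T.a (T.a (T.l 476) (T.c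 (T.l 476) (T.l 460))) (T.c (T.b (T.a (T.a (T.l 204) (T.l 220)) (T.a (T.l 476) (T.a (T.l 476) (T.l 476)))) (T.l 1)) (T.b (T.a (T.l 476) (T.a (T.l 204) (T.c (T.l 476) (T.l 476)))) (T.l 1)))) (T.l 1))) (T.c (T.b (T.a (T.c (T.b (T.a (T.c (T.b (T.a (T.a (T.l 476) (T.l 476)) (T.a (T.l 476) (T.l 476))) (T.l 1)) (T.b (T.a (T.a (T.l 476) (T.l 476)) (T.a (T.l 476) (T.l 476))) (T.l 1))) (T.c (T.b (T.a (T.a (T.l 476) (T.l 476)) (T.a (T.l 476) (T.l 476))) (T.l 1)) (T.b (T.a (T.a (T.l 476) (T.l 476)) (T.a (T.l 476) (T.l 476))) (T.l 1)))) (T.l 1)) (T.b (T.a (T.c (T.b (T.a (T.a (T.l 476) (T.l 476)) (T.l 476)) (T.l 1)) (T.b (T.a (T.l 476) (T.l 476)) (T.l 1))) (T.c (T.b (T.a (T.l 476) (T.l 476)) (T.l 1)) (T.b (T.a (T.l 476) (T.l 476)) (T.l 1)))) (T.l 1))) (T.c (T.b (T.a (T.c (T.b (T.a (T.c (T.b (T.l 476)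 (T.l 1)) (T.a (T.l 476) (T.l 476))) (T.c (T.b (T.l 476) (T.l 1)) (T.b (T.l 476) (T.l 1)))) (T.l 1)) (T.b (T.a (T.a (T.l 476) (T.l 476)) (T.a (T.l 476) (T.l 476))) (T.l 1))) (T.c (T.b (T.a (T.c (T.b (T.a (T.l 476) (T.l 476)) (T.l 1)) (T.b (T.l 476) (T.l 1))) (T.c (T.b (T.a (T.l 476) (T.l 476)) (T.l 1)) (T.b (T.a (T.l 476) (T.l 476)) (T.l 1)))) (T.l 1)) (T.b (T.a (T.c (T.a (T.l 476) (T.l 476)) (T.a (T.l 476) (T.l 476))) (T.c (T.b (T.l 476) (T.l 1)) (T.a (T.l 476) (T.l 476)))) (T.l 1)))) (T.l 1)) (T.b (T.a (T.c (T.b (T.a (T.a (T.l 476) (T.l 476)) (T.a (T.l 476) (T.l 476))) (T.l 1)) (T.b (T.a (T.l 476) (T.l 476)) (T.l 1))) (T.c (T.b (T.a (T.a (T.l 476) (T.l 476)) (T.a (T.l 476) (T.l 476))) (T.l 1)) (T.b (T.a (T.l 476) (T.a (T.l 476) (T.l 476))) (T.l 1)))) (T.l 1)))) (T.l 1)) (T.b (T.a (T.c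 (T.b (T.a (T.c (T.b (T.a (T.l 476) (T.l 476)) (T.l 1)) (T.a (T.a (T.l 476) (T.l 476)) (T.l 476))) (T.c (T.b (T.a (T.l 476) (T.l 476)) (T.l 1)) (T.a (T.l 476) (T.a (T.l 476) (T.l 476))))) (T.l 1)) (T.b (T.a (T.a (T.c (T.l 476) (T.l 476)) (T.l 476)) (T.a (T.l 476) (T.l 476))) (T.l 1))) (T.c (T.b (T.a (T.c (T.b (T.a (T.l 476) (T.l 476)) (T.l 1)) (T.b (T.a (T.l 476) (T.l 476)) (T.l 1))) (T.c (T.b (T.a (T.l 476) (T.l 476)) (T.l 1)) (T.b (T.a (T.l 476) (T.l 476)) (T.l 1)))) (T.l 1)) (T.b (T.a (T.a (T.l 476) (T.c (T.l 476) (T.l 476))) (T.c (T.a (T.l 476) (T.a (T.l 476) (T.l 476))) (T.a (T.l 476) (T.l 476)))) (T.l 1)))) (T.l 1)))) (T.l 1)), by decide +kernel⟩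

def B202E_020_1_257_1 :
    ∃ t, chk3 (onCell 0 67108864 0 1073741824 67108864 67108864 (corTK [[⟨0, 1, 0, 8388608⟩, ⟨1, 0, 1, 33554432⟩, ⟨2, 1, 1, 33554432⟩, ⟨1, 0, 0, 150994944⟩, ⟨1, 1, 0, 1023410176⟩, ⟨2, 1, 0, 150994944⟩, ⟨2, 2, 0, 1023410176⟩]] true 1 c0F cB202E gF0q2 gF2q2 gF0q0 gF1q0 true true)) t 1 257 1 = true :=
  ⟨(T.l 1), by decide +kernel⟩

def B202E_020_1_129_1 :
    ∃ t, chk3 (onCell 0 67108864 0 1073741824 67108864 67108864 (corTK [[⟨0, 1, 0, 8388608⟩, ⟨1, 0, 1, 33554432⟩, ⟨2, 1, 1, 33554432⟩, ⟨1, 0, 0, 150994944⟩, ⟨1, 1, 0, 1023410176⟩, ⟨2, 1, 0, 150994944⟩, ⟨2, 2, 0, 1023410176⟩]] true 1 c0F cB202E gF0q2 gF2q2 gF0q0 gF1q0 true true)) t 1 129 1 = true :=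
  ⟨(T.l 1), by decide +kernel⟩

def B202E_020_1_65_1 :
    ∃ t, chk3 (onCell 0 67108864 0 1073741824 67108864 67108864 (corTK [[⟨0, 1, 0, 8388608⟩, ⟨1, 0, 1, 33554432⟩, ⟨2, 1, 1, 33554432⟩, ⟨1, 0, 0, 150994944⟩, ⟨1, 1, 0, 1023410176⟩, ⟨2, 1, 0, 150994944⟩, ⟨2, 2, 0, 1023410176⟩]] true 1 c0F cB202E gF0q2 gF2q2 gF0q0 gF1q0 true true)) t 1 65 1 = true :=
  ⟨(T.l 1), by decide +kernel⟩

def B202E_020_1_33_1 :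
    ∃ t, chk3 (onCell 0 67108864 0 1073741824 67108864 67108864 (corTK [[⟨0, 1, 0, 8388608⟩, ⟨1, 0, 1, 33554432⟩, ⟨2, 1, 1, 33554432⟩, ⟨1, 0, 0, 150994944⟩, ⟨1, 1, 0, 1023410176⟩, ⟨2, 1, 0, 150994944⟩, ⟨2, 2, 0, 1023410176⟩]] true 1 c0F cB202E gF0q2 gF2q2 gF0q0 gF1q0 true true)) t 1 33 1 = true :=
  ⟨(T.l 1), by decide +kernel⟩

def B202E_020_1_17_1 :
    ∃ t, chk3 (onCell 0 67108864 0 1073741824 67108864 67108864 (corTK [[⟨0, 1, 0, 8388608⟩, ⟨1, 0, 1, 33554432⟩, ⟨2, 1, 1, 33554432⟩, ⟨1, 0, 0, 150994944⟩, ⟨1, 1, 0, 1023410176⟩, ⟨2, 1, 0, 150994944⟩, ⟨2, 2, 0, 1023410176⟩]] true 1 c0F cB202E gF0q2 gF2q2 gF0q0 gF1q0 true true)) t 1 17 1 = true :=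
  ⟨(T.l 1), by decide +kernel⟩

def B202E_020_1_9_1 :
    ∃ t, chk3 (onCell 0 67108864 0 1073741824 67108864 67108864 (corTK [[⟨0, 1, 0, 8388608⟩, ⟨1, 0, 1, 33554432⟩, ⟨2, 1, 1, 33554432⟩, ⟨1, 0, 0, 150994944⟩, ⟨1, 1, 0, 1023410176⟩, ⟨2, 1, 0, 150994944⟩, ⟨2, 2, 0, 1023410176⟩]] true 1 c0F cB202E gF0q2 gF2q2 gF0q0 gF1q0 true true)) t 1 9 1 = true :=
  ⟨(T.l 1), by decide +kernel⟩

def B202E_020_1_5_1 :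
    ∃ t, chk3 (onCell 0 67108864 0 1073741824 67108864 67108864 (corTK [[⟨0, 1, 0, 8388608⟩, ⟨1, 0, 1, 33554432⟩, ⟨2, 1, 1, 33554432⟩, ⟨1, 0, 0, 150994944⟩, ⟨1, 1, 0, 1023410176⟩, ⟨2, 1, 0, 150994944⟩, ⟨2, 2, 0, 1023410176⟩]] true 1 c0F cB202E gF0q2 gF2q2 gF0q0 gF1q0 true true)) t 1 5 1 = true :=
  ⟨(T.l 1), by decide +kernel⟩

def B202E_020_1_3_1 :
    ∃ t, chk3 (onCell 0 67108864 0 1073741824 67108864 67108864 (corTK [[⟨0, 1, 0, 8388608⟩, ⟨1, 0, 1, 33554432⟩, ⟨2, 1, 1, 33554432⟩, ⟨1, 0, 0, 150994944⟩, ⟨1, 1, 0, 1023410176⟩, ⟨2, 1, 0, 150994944⟩, ⟨2, 2, 0, 1023410176⟩]] true 1 c0F cB202E gF0q2 gF2q2 gF0q0 gF1q0 true true)) t 1 3 1 = true :=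
  ⟨(T.l 1), by decide +kernel⟩

theorem B202E_020_3_512_2 :
    ∃ t, chk3 (onCell 0 67108864 0 1073741824 67108864 67108864 (corTK [[⟨0, 1, 0, 8388608⟩, ⟨1, 0, 1, 33554432⟩, ⟨2, 1, 1, 33554432⟩, ⟨1, 0, 0, 150994944⟩, ⟨1, 1, 0, 1023410176⟩, ⟨2, 1, 0, 150994944⟩, ⟨2, 2, 0, 1023410176⟩]] true 1 c0F cB202E gF0q2 gF2q2 gF0q0 gF1q0 true true)) t 3 512 2 = true :=
  ex3_a B202E_020_6_512_2 B202E_020_7_512_2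
theorem B202E_020_3_256_2 :
    ∃ t, chk3 (onCell 0 67108864 0 1073741824 67108864 67108864 (corTK [[⟨0, 1, 0, 8388608⟩, ⟨1, 0, 1, 33554432⟩, ⟨2, 1, 1, 33554432⟩, ⟨1, 0, 0, 150994944⟩, ⟨1, 1, 0, 1023410176⟩, ⟨2, 1, 0, 150994944⟩, ⟨2, 2, 0, 1023410176⟩]] true 1 c0F cB202E gF0q2 gF2q2 gF0q0 gF1q0 true true)) t 3 256 2 = true :=
  ex3_b B202E_020_3_512_2 B202E_020_3_513_2
theorem B202E_020_3_256_1 :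
    ∃ t, chk3 (onCell 0 67108864 0 1073741824 67108864 67108864 (corTK [[⟨0, 1, 0, 8388608⟩, ⟨1, 0, 1, 33554432⟩, ⟨2, 1, 1, 33554432⟩, ⟨1, 0, 0, 150994944⟩, ⟨1, 1, 0, 1023410176⟩, ⟨2, 1, 0, 150994944⟩, ⟨2, 2, 0, 1023410176⟩]] true 1 c0F cB202E gF0q2 gF2q2 gF0q0 gF1q0 true true)) t 3 256 1 = true :=
  ex3_c B202E_020_3_256_2 B202E_020_3_256_3
theorem B202E_020_1_256_1 :
    ∃ t, chk3 (onCell 0 67108864 0 1073741824 67108864 67108864 (corTK [[⟨0, 1, 0, 8388608⟩, ⟨1, 0, 1, 33554432⟩, ⟨2, 1, 1, 33554432⟩, ⟨1, 0, 0, 150994944⟩, ⟨1, 1, 0, 1023410176⟩, ⟨2, 1, 0, 150994944⟩, ⟨2, 2, 0, 1023410176⟩]] true 1 c0F cB202E gF0q2 gF2q2 gF0q0 gF1q0 true true)) t 1 256 1 = true :=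
  ex3_a B202E_020_2_256_1 B202E_020_3_256_1
theorem B202E_020_1_128_1 :
    ∃ t, chk3 (onCell 0 67108864 0 1073741824 67108864 67108864 (corTK [[⟨0, 1, 0, 8388608⟩, ⟨1, 0, 1, 33554432⟩, ⟨2, 1, 1, 33554432⟩, ⟨1, 0, 0, 150994944⟩, ⟨1, 1, 0, 1023410176⟩, ⟨2, 1, 0, 150994944⟩, ⟨2, 2, 0, 1023410176⟩]] true 1 c0F cB202E gF0q2 gF2q2 gF0q0 gF1q0 true true)) t 1 128 1 = true :=
  ex3_b B202E_020_1_256_1 B202E_020_1_257_1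
theorem B202E_020_1_64_1 :
    ∃ t, chk3 (onCell 0 67108864 0 1073741824 67108864 67108864 (corTK [[⟨0, 1, 0, 8388608⟩, ⟨1, 0, 1, 33554432⟩, ⟨2, 1, 1, 33554432⟩, ⟨1, 0, 0, 150994944⟩, ⟨1, 1, 0, 1023410176⟩, ⟨2, 1, 0, 150994944⟩, ⟨2, 2, 0, 1023410176⟩]] true 1 c0F cB202E gF0q2 gF2q2 gF0q0 gF1q0 true true)) t 1 64 1 = true :=
  ex3_b B202E_020_1_128_1 B202E_020_1_129_1
theorem B202E_020_1_32_1 :
    ∃ t, chk3 (onCell 0 67108864 0 1073741824 67108864 67108864 (corTK [[⟨0, 1, 0, 8388608⟩, ⟨1, 0, 1, 33554432⟩, ⟨2, 1, 1, 33554432⟩, ⟨1, 0, 0, 150994944⟩, ⟨1, 1, 0, 1023410176⟩, ⟨2, 1, 0, 150994944⟩, ⟨2, 2, 0, 1023410176⟩]] true 1 c0F cB202E gF0q2 gF2q2 gF0q0 gF1q0 true true)) t 1 32 1 = true :=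
  ex3_b B202E_020_1_64_1 B202E_020_1_65_1
theorem B202E_020_1_16_1 :
    ∃ t, chk3 (onCell 0 67108864 0 1073741824 67108864 67108864 (corTK [[⟨0, 1, 0, 8388608⟩, ⟨1, 0, 1, 33554432⟩, ⟨2, 1, 1, 33554432⟩, ⟨1, 0, 0, 150994944⟩, ⟨1, 1, 0, 1023410176⟩, ⟨2, 1, 0, 150994944⟩, ⟨2, 2, 0, 1023410176⟩]] true 1 c0F cB202E gF0q2 gF2q2 gF0q0 gF1q0 true true)) t 1 16 1 = true :=
  ex3_b B202E_020_1_32_1 B202E_020_1_33_1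
theorem B202E_020_1_8_1 :
    ∃ t, chk3 (onCell 0 67108864 0 1073741824 67108864 67108864 (corTK [[⟨0, 1, 0, 8388608⟩, ⟨1, 0, 1, 33554432⟩, ⟨2, 1, 1, 33554432⟩, ⟨1, 0, 0, 150994944⟩, ⟨1, 1, 0, 1023410176⟩, ⟨2, 1, 0, 150994944⟩, ⟨2, 2, 0, 1023410176⟩]] true 1 c0F cB202E gF0q2 gF2q2 gF0q0 gF1q0 true true)) t 1 8 1 = true :=
  ex3_b B202E_020_1_16_1 B202E_020_1_17_1
theorem B202E_020_1_4_1 :
    ∃ t, chk3 (onCell 0 67108864 0 1073741824 67108864 67108864 (corTK [[⟨0, 1, 0, 8388608⟩, ⟨1, 0, 1, 33554432⟩, ⟨2, 1, 1, 33554432⟩, ⟨1, 0, 0, 150994944⟩, ⟨1, 1, 0, 1023410176⟩, ⟨2, 1, 0, 150994944⟩, ⟨2, 2, 0, 1023410176⟩]] true 1 c0F cB202E gF0q2 gF2q2 gF0q0 gF1q0 true true)) t 1 4 1 = true :=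
  ex3_b B202E_020_1_8_1 B202E_020_1_9_1
theorem B202E_020_1_2_1 :
    ∃ t, chk3 (onCell 0 67108864 0 1073741824 67108864 67108864 (corTK [[⟨0, 1, 0, 8388608⟩, ⟨1, 0, 1, 33554432⟩, ⟨2, 1, 1, 33554432⟩, ⟨1, 0, 0, 150994944⟩, ⟨1, 1, 0, 1023410176⟩, ⟨2, 1, 0, 150994944⟩, ⟨2, 2, 0, 1023410176⟩]] true 1 c0F cB202E gF0q2 gF2q2 gF0q0 gF1q0 true true)) t 1 2 1 = true :=
  ex3_b B202E_020_1_4_1 B202E_020_1_5_1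
theorem B202E_020 :
    ∃ t, chk3 (onCell 0 67108864 0 1073741824 67108864 67108864 (corTK [[⟨0, 1, 0, 8388608⟩, ⟨1, 0, 1, 33554432⟩, ⟨2, 1, 1, 33554432⟩, ⟨1, 0, 0, 150994944⟩, ⟨1, 1, 0, 1023410176⟩, ⟨2, 1, 0, 150994944⟩, ⟨2, 2, 0, 1023410176⟩]] true 1 c0F cB202E gF0q2 gF2q2 gF0q0 gF1q0 true true)) t 1 1 1 = true :=
  ex3_b B202E_020_1_2_1 B202E_020_1_3_1

def B202E_021 :
    ∃ t, chk3 (onCell 0 67108864 0 1073741824 67108864 67108864 (corTK [[⟨0, 1, 0, 8388608⟩, ⟨1, 0, 1, 33554432⟩, ⟨2, 1, 1, 33554432⟩, ⟨1, 0, 0, 150994944⟩, ⟨1, 1, 0, 1023410176⟩, ⟨2, 1, 0, 150994944⟩, ⟨2, 2, 0, 1023410176⟩]] true 1 c0F cB202E gF0q2 gF2q2 gF1q0 gF2q0 true true)) t 1 1 1 = true :=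
  ⟨(T.l 1), by decide +kernel⟩

def B202E_022 :
    ∃ t, chk3 (onCell 0 67108864 0 1073741824 67108864 67108864 (corTK [[⟨0, 1, 0, 8388608⟩, ⟨1, 0, 1, 33554432⟩, ⟨2, 1, 1, 33554432⟩, ⟨1, 0, 0, 150994944⟩, ⟨1, 1, 0, 1023410176⟩, ⟨2, 1, 0, 150994944⟩, ⟨2, 2, 0, 1023410176⟩]] true 1 c0F cB202E gF0q2 gF2q2 gF2q0 gF3q0 true false)) t 1 1 1 = true :=
  ⟨(T.l 1), by decide +kernel⟩

def B202E_100 :
    ∃ t, chk3 (onCell 0 67108864 0 1073741824 67108864 67108864 (corTK [] true 1 c0F cB202E gF1q2 gF0q2 gF0q0 gF1q0 true true)) t 1 1 1 = true :=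
  ⟨(T.l 1), by decide +kernel⟩

def B202E_101 :
    ∃ t, chk3 (onCell 0 67108864 0 1073741824 67108864 67108864 (corTK [] true 1 c0F cB202E gF1q2 gF0q2 gF1q0 gF2q0 true true)) t 1 1 1 = true :=
  ⟨(T.l 1), by decide +kernel⟩

def B202E_102 :
    ∃ t, chk3 (onCell 0 67108864 0 1073741824 67108864 67108864 (corTK [] true 1 c0F cB202E gF1q2 gF0q2 gF2q0 gF3q0 true false)) t 1 1 1 = true :=
  ⟨(T.l 1), by decide +kernel⟩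

def B202E_110 :
    ∃ t, chk3 (onCell 0 67108864 0 1073741824 67108864 67108864 (corTK [] true 1 c0F cB202E gF1q2 gF1q2 gF0q0 gF1q0 true true)) t 1 1 1 = true :=
  ⟨(T.l 1), by decide +kernel⟩

def B202E_111 :
    ∃ t, chk3 (onCell 0 67108864 0 1073741824 67108864 67108864 (corTK [] true 1 c0F cB202E gF1q2 gF1q2 gF1q0 gF2q0 true true)) t 1 1 1 = true :=
  ⟨(T.l 1), by decide +kernel⟩

def B202E_112 :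
    ∃ t, chk3 (onCell 0 67108864 0 1073741824 67108864 67108864 (corTK [] true 1 c0F cB202E gF1q2 gF1q2 gF2q0 gF3q0 true false)) t 1 1 1 = true :=
  ⟨(T.l 1), by decide +kernel⟩

def B202E_120_1_16_1 :
    ∃ t, chk3 (onCell 0 67108864 0 1073741824 67108864 67108864 (corTK [[⟨0, 1, 0, 16777216⟩, ⟨1, 0, 1, 33554432⟩, ⟨2, 1, 1, 33554432⟩, ⟨1, 0, 0, 150994944⟩, ⟨1, 1, 0, 1023410176⟩, ⟨2, 1, 0, 150994944⟩, ⟨2, 2, 0, 1023410176⟩]] true 1 c0F cB202E gF1q2 gF2q2 gF0q0 gF1q0 true true)) t 1 16 1 = true :=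
  ⟨(T.b (T.b (T.b (T.b (T.a (T.c (T.b (T.a (T.c (T.b (T.a (T.l 204) (T.c (T.a (T.l 204) (T.b (T.a (T.l 204) (T.c (T.b (T.a (T.l 204) (T.a (T.l 220) (T.l 220))) (T.l 1)) (T.a (T.l 204) (T.l 204)))) (T.l 1))) (T.a (T.l 204) (T.a (T.l 204) (T.a (T.l 204) (T.l 220)))))) (T.l 1)) (T.a (T.l 204) (T.a (T.l 204) (T.a (T.l 204) (T.a (T.l 204) (T.l 220)))))) (T.c (T.b (T.a (T.c (T.b (T.a (T.c (T.b (T.a (T.a (T.l 220) (T.l 204)) (T.l 220)) (T.l 1)) (T.a (T.l 220) (T.l 204))) (T.c (T.a (T.a (T.l 220) (T.l 204)) (T.l 220)) (T.a (T.l 204) (T.l 204)))) (T.l 1)) (T.b (T.a (T.a (T.l 204) (T.l 204)) (T.a (T.l 204) (T.l 204))) (T.l 1))) (T.c (T.b (T.a (T.c (T.a (T.l 220) (T.l 220)) (T.a (T.l 204) (T.l 220))) (T.c (T.a (T.l 220) (T.a (T.l 220) (T.l 220))) (T.a (T.l 220) (T.l 220)))) (T.l 1)) (T.b (T.a (T.a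 (T.l 204) (T.l 204)) (T.a (T.l 220) (T.l 220))) (T.l 1)))) (T.l 1)) (T.b (T.a (T.c (T.b (T.a (T.l 204) (T.a (T.l 204) (T.l 204))) (T.l 1)) (T.a (T.l 204) (T.l 220))) (T.c (T.b (T.a (T.l 220) (T.l 220)) (T.l 1)) (T.a (T.l 204) (T.l 220)))) (T.l 1)))) (T.l 1)) (T.b (T.a (T.a (T.l 204) (T.a (T.l 204) (T.a (T.l 204) (T.l 204)))) (T.c (T.b (T.a (T.a (T.l 204) (T.l 220)) (T.a (T.l 204) (T.l 220))) (T.l 1)) (T.b (T.a (T.a (T.l 204) (T.l 204)) (T.a (T.l 204) (T.l 204))) (T.l 1)))) (T.l 1))) (T.c (T.b (T.a (T.c (T.b (T.a (T.c (T.b (T.a (T.c (T.b (T.a (T.l 220) (T.l 220)) (T.l 1)) (T.a (T.l 220) (T.l 220))) (T.c (T.b (T.a (T.l 476) (T.a (T.l 476) (T.l 476))) (T.l 1)) (T.a (T.l 476) (T.a (T.l 476) (T.l 476))))) (T.l 1)) (T.b (T.a (T.a (T.l 220) (T.l 220)) (T.a (T.l 476) (T.l 476))) (T.l 1))) (T.c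 (T.b (T.a (T.c (T.b (T.a (T.a (T.l 476) (T.l 476)) (T.c (T.b (T.a (T.l 476) (T.l 476)) (T.l 1)) (T.a (T.l 476) (T.a (T.l 476) (T.l 476))))) (T.l 1)) (T.b (T.a (T.l 476) (T.a (T.l 476) (T.l 476))) (T.l 1))) (T.c (T.b (T.a (T.c (T.b (T.a (T.l 476) (T.l 476)) (T.l 1)) (T.b (T.a (T.l 476) (T.l 476)) (T.l 1))) (T.c (T.b (T.a (T.a (T.l 476) (T.l 476)) (T.c (T.b (T.a (T.l 476) (T.l 476)) (T.l 1)) (T.a (T.l 476) (T.b (T.l 476) (T.l 1))))) (T.l 1)) (T.b (T.a (T.l 476) (T.a (T.l 476) (T.a (T.l 476) (T.l 476)))) (T.l 1)))) (T.l 1)) (T.b (T.a (T.c (T.a (T.l 476) (T.l 476)) (T.a (T.l 476) (T.l 476))) (T.c (T.b (T.a (T.l 476) (T.a (T.l 476) (T.l 476))) (T.l 1)) (T.b (T.a (T.l 476) (T.a (T.l 476) (T.l 476))) (T.l 1)))) (T.l 1)))) (T.l 1)) (T.b (T.a (T.c (T.a (T.l 476) (T.a (T.l 476) (T.a (T.l 476) (T.l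 476)))) (T.a (T.l 476) (T.a (T.l 476) (T.l 476)))) (T.c (T.b (T.a (T.a (T.l 476) (T.l 476)) (T.a (T.l 476) (T.a (T.l 476) (T.c (T.b (T.l 476) (T.l 1)) (T.l 476))))) (T.l 1)) (T.b (T.a (T.l 476) (T.a (T.l 476) (T.a (T.l 476) (T.l 476)))) (T.l 1)))) (T.l 1)))) (T.l 1)) (T.b (T.a (T.c (T.b (T.a (T.l 476) (T.a (T.l 220) (T.l 476))) (T.l 1)) (T.a (T.l 476) (T.a (T.l 220) (T.l 476)))) (T.c (T.b (T.a (T.a (T.l 476) (T.c (T.l 476) (T.l 476))) (T.c (T.b (T.a (T.l 476) (T.a (T.l 476) (T.l 476))) (T.l 1)) (T.a (T.l 476) (T.a (T.l 476) (T.a (T.l 476) (T.l 476)))))) (T.l 1)) (T.b (T.a (T.a (T.l 476) (T.l 476)) (T.a (T.l 476) (T.a (T.l 476) (T.c (T.l 476) (T.l 476))))) (T.l 1)))) (T.l 1))) (T.c (T.a (T.a (T.a (T.a (T.b (T.a (T.c (T.b (T.a (T.c (T.b (T.a (T.a (T.c (T.b (T.c (T.b (T.l 476) (T.l 1)) (T.b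 (T.l 476) (T.l 1))) (T.l 1)) (T.b (T.l 476) (T.l 1))) (T.l 1024)) (T.l 1024)) (T.l 1)) (T.b (T.c (T.b (T.l 476) (T.l 1)) (T.b (T.l 476) (T.l 1))) (T.l 1))) (T.l 1024)) (T.l 1)) (T.b (T.a (T.c (T.b (T.c (T.a (T.l 476) (T.l 1024)) (T.l 476)) (T.l 1)) (T.b (T.l 476) (T.l 1))) (T.l 1024)) (T.l 1))) (T.l 1024)) (T.l 1)) (T.l 1024)) (T.l 1024)) (T.l 1024)) (T.l 1024)) (T.b (T.a (T.c (T.b (T.a (T.c (T.b (T.a (T.a (T.l 476) (T.l 476)) (T.a (T.l 476) (T.c (T.l 1024) (T.l 476)))) (T.l 1)) (T.b (T.a (T.a (T.l 476) (T.l 476)) (T.a (T.l 476) (T.l 476))) (T.l 1))) (T.c (T.a (T.a (T.c (T.l 1024) (T.b (T.l 476) (T.l 1))) (T.l 1024)) (T.l 1024)) (T.b (T.a (T.a (T.l 476) (T.l 476)) (T.a (T.l 476) (T.l 476))) (T.l 1)))) (T.l 1)) (T.b (T.a (T.c (T.b (T.a (T.a (T.l 476) (T.l 476)) (T.a (T.l 476) (T.l 476)))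 (T.l 1)) (T.b (T.a (T.a (T.l 476) (T.l 476)) (T.a (T.l 476) (T.l 476))) (T.l 1))) (T.c (T.b (T.a (T.a (T.l 476) (T.l 476)) (T.a (T.l 476) (T.l 476))) (T.l 1)) (T.b (T.a (T.a (T.l 476) (T.l 476)) (T.a (T.l 476) (T.l 476))) (T.l 1)))) (T.l 1))) (T.c (T.a (T.a (T.c (T.l 1024) (T.a (T.c (T.l 1024) (T.a (T.c (T.l 1024) (T.b (T.b (T.l 476) (T.l 1)) (T.l 1))) (T.l 1024))) (T.l 1024))) (T.l 1024)) (T.l 1024)) (T.b (T.a (T.c (T.b (T.a (T.a (T.l 476) (T.l 476)) (T.a (T.l 476) (T.l 476))) (T.l 1)) (T.b (T.a (T.a (T.l 476) (T.l 476)) (T.a (T.l 476) (T.l 476))) (T.l 1))) (T.c (T.a (T.a (T.b (T.l 476) (T.l 1)) (T.l 1024)) (T.l 1024)) (T.b (T.a (T.a (T.l 476) (T.l 476)) (T.a (T.l 476) (T.l 476))) (T.l 1)))) (T.l 1)))) (T.l 1)))) (T.l 1)) (T.b (T.a (T.c (T.b (T.a (T.a (T.l 476) (T.c (T.l 476) (T.l 204)))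 (T.c (T.b (T.a (T.a (T.l 204) (T.l 476)) (T.a (T.l 476) (T.a (T.l 476) (T.l 476)))) (T.l 1)) (T.b (T.a (T.l 476) (T.a (T.l 476) (T.a (T.l 476) (T.l 476)))) (T.l 1)))) (T.l 1)) (T.b (T.a (T.a (T.l 204) (T.l 204)) (T.c (T.a (T.l 476) (T.a (T.l 220) (T.a (T.l 460) (T.l 476)))) (T.a (T.l 220) (T.a (T.l 204) (T.l 476))))) (T.l 1))) (T.c (T.b (T.a (T.c (T.b (T.a (T.c (T.b (T.a (T.a (T.l 476) (T.l 476)) (T.l 476)) (T.l 1)) (T.a (T.a (T.l 476) (T.l 476)) (T.l 476))) (T.c (T.b (T.a (T.l 476) (T.l 476)) (T.l 1)) (T.b (T.a (T.l 476) (T.l 476)) (T.l 1)))) (T.l 1)) (T.b (T.a (T.a (T.c (T.l 476) (T.l 476)) (T.l 476)) (T.a (T.l 476) (T.c (T.l 476) (T.l 476)))) (T.l 1))) (T.c (T.b (T.a (T.c (T.b (T.a (T.l 476) (T.l 476)) (T.l 1)) (T.b (T.a (T.l 476) (T.l 476)) (T.l 1))) (T.c (T.b (T.a (T.a (T.l 476) (T.l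 476)) (T.a (T.l 476) (T.l 476))) (T.l 1)) (T.b (T.a (T.l 476) (T.l 476)) (T.l 1)))) (T.l 1)) (T.b (T.a (T.c (T.a (T.l 476) (T.l 476)) (T.a (T.l 476) (T.l 476))) (T.c (T.a (T.l 476) (T.a (T.l 476) (T.l 476))) (T.a (T.l 476) (T.l 476)))) (T.l 1)))) (T.l 1)) (T.b (T.a (T.c (T.b (T.a (T.a (T.l 476) (T.l 476)) (T.a (T.l 476) (T.l 476))) (T.l 1)) (T.b (T.a (T.a (T.l 476) (T.l 476)) (T.a (T.l 476) (T.l 476))) (T.l 1))) (T.c (T.b (T.a (T.a (T.l 476) (T.l 476)) (T.a (T.l 476) (T.l 476))) (T.l 1)) (T.b (T.a (T.a (T.l 476) (T.l 476)) (T.a (T.l 476) (T.l 476))) (T.l 1)))) (T.l 1)))) (T.l 1)))) (T.l 1)) (T.l 1)) (T.l 1)) (T.l 1)), by decide +kernel⟩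

def B202E_120_1_17_1 :
    ∃ t, chk3 (onCell 0 67108864 0 1073741824 67108864 67108864 (corTK [[⟨0, 1, 0, 16777216⟩, ⟨1, 0, 1, 33554432⟩, ⟨2, 1, 1, 33554432⟩, ⟨1, 0, 0, 150994944⟩, ⟨1, 1, 0, 1023410176⟩, ⟨2, 1, 0, 150994944⟩, ⟨2, 2, 0, 1023410176⟩]] true 1 c0F cB202E gF1q2 gF2q2 gF0q0 gF1q0 true true)) t 1 17 1 = true :=
  ⟨(T.l 1), by decide +kernel⟩

def B202E_120_1_9_1 :
    ∃ t, chk3 (onCell 0 67108864 0 1073741824 67108864 67108864 (corTK [[⟨0, 1, 0, 16777216⟩, ⟨1, 0, 1, 33554432⟩, ⟨2, 1, 1, 33554432⟩, ⟨1, 0, 0, 150994944⟩, ⟨1, 1, 0, 1023410176⟩, ⟨2, 1, 0, 150994944⟩, ⟨2, 2, 0, 1023410176⟩]] true 1 c0F cB202E gF1q2 gF2q2 gF0q0 gF1q0 true true)) t 1 9 1 = true :=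
  ⟨(T.l 1), by decide +kernel⟩

def B202E_120_1_5_1 :
    ∃ t, chk3 (onCell 0 67108864 0 1073741824 67108864 67108864 (corTK [[⟨0, 1, 0, 16777216⟩, ⟨1, 0, 1, 33554432⟩, ⟨2, 1, 1, 33554432⟩, ⟨1, 0, 0, 150994944⟩, ⟨1, 1, 0, 1023410176⟩, ⟨2, 1, 0, 150994944⟩, ⟨2, 2, 0, 1023410176⟩]] true 1 c0F cB202E gF1q2 gF2q2 gF0q0 gF1q0 true true)) t 1 5 1 = true :=
  ⟨(T.l 1), by decide +kernel⟩

def B202E_120_1_3_1 :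
    ∃ t, chk3 (onCell 0 67108864 0 1073741824 67108864 67108864 (corTK [[⟨0, 1, 0, 16777216⟩, ⟨1, 0, 1, 33554432⟩, ⟨2, 1, 1, 33554432⟩, ⟨1, 0, 0, 150994944⟩, ⟨1, 1, 0, 1023410176⟩, ⟨2, 1, 0, 150994944⟩, ⟨2, 2, 0, 1023410176⟩]] true 1 c0F cB202E gF1q2 gF2q2 gF0q0 gF1q0 true true)) t 1 3 1 = true :=
  ⟨(T.l 1), by decide +kernel⟩

theorem B202E_120_1_8_1 :
    ∃ t, chk3 (onCell 0 67108864 0 1073741824 67108864 67108864 (corTK [[⟨0, 1, 0, 16777216⟩, ⟨1, 0, 1, 33554432⟩, ⟨2, 1, 1, 33554432⟩, ⟨1, 0, 0, 150994944⟩, ⟨1, 1, 0, 1023410176⟩, ⟨2, 1, 0, 150994944⟩, ⟨2, 2, 0, 1023410176⟩]] true 1 c0F cB202E gF1q2 gF2q2 gF0q0 gF1q0 true true)) t 1 8 1 = true :=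
  ex3_b B202E_120_1_16_1 B202E_120_1_17_1
theorem B202E_120_1_4_1 :
    ∃ t, chk3 (onCell 0 67108864 0 1073741824 67108864 67108864 (corTK [[⟨0, 1, 0, 16777216⟩, ⟨1, 0, 1, 33554432⟩, ⟨2, 1, 1, 33554432⟩, ⟨1, 0, 0, 150994944⟩, ⟨1, 1, 0, 1023410176⟩, ⟨2, 1, 0, 150994944⟩, ⟨2, 2, 0, 1023410176⟩]] true 1 c0F cB202E gF1q2 gF2q2 gF0q0 gF1q0 true true)) t 1 4 1 = true :=
  ex3_b B202E_120_1_8_1 B202E_120_1_9_1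
theorem B202E_120_1_2_1 :
    ∃ t, chk3 (onCell 0 67108864 0 1073741824 67108864 67108864 (corTK [[⟨0, 1, 0, 16777216⟩, ⟨1, 0, 1, 33554432⟩, ⟨2, 1, 1, 33554432⟩, ⟨1, 0, 0, 150994944⟩, ⟨1, 1, 0, 1023410176⟩, ⟨2, 1, 0, 150994944⟩, ⟨2, 2, 0, 1023410176⟩]] true 1 c0F cB202E gF1q2 gF2q2 gF0q0 gF1q0 true true)) t 1 2 1 = true :=
  ex3_b B202E_120_1_4_1 B202E_120_1_5_1
theorem B202E_120 :
    ∃ t, chk3 (onCell 0 67108864 0 1073741824 67108864 67108864 (corTK [[⟨0, 1, 0, 16777216⟩, ⟨1, 0, 1, 33554432⟩, ⟨2, 1, 1, 33554432⟩, ⟨1, 0, 0, 150994944⟩, ⟨1, 1, 0, 1023410176⟩, ⟨2, 1, 0, 150994944⟩, ⟨2, 2, 0, 1023410176⟩]] true 1 c0F cB202E gF1q2 gF2q2 gF0q0 gF1q0 true true)) t 1 1 1 = true :=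
  ex3_b B202E_120_1_2_1 B202E_120_1_3_1

def B202E_121 :
    ∃ t, chk3 (onCell 0 67108864 0 1073741824 67108864 67108864 (corTK [[⟨0, 1, 0, 16777216⟩, ⟨1, 0, 1, 33554432⟩, ⟨2, 1, 1, 33554432⟩, ⟨1, 0, 0, 150994944⟩, ⟨1, 1, 0, 1023410176⟩, ⟨2, 1, 0, 150994944⟩, ⟨2, 2, 0, 1023410176⟩]] true 1 c0F cB202E gF1q2 gF2q2 gF1q0 gF2q0 true true)) t 1 1 1 = true :=
  ⟨(T.l 1), by decide +kernel⟩

def B202E_122 :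
    ∃ t, chk3 (onCell 0 67108864 0 1073741824 67108864 67108864 (corTK [[⟨0, 1, 0, 16777216⟩, ⟨1, 0, 1, 33554432⟩, ⟨2, 1, 1, 33554432⟩, ⟨1, 0, 0, 150994944⟩, ⟨1, 1, 0, 1023410176⟩, ⟨2, 1, 0, 150994944⟩, ⟨2, 2, 0, 1023410176⟩]] true 1 c0F cB202E gF1q2 gF2q2 gF2q0 gF3q0 true false)) t 1 1 1 = true :=
  ⟨(T.l 1), by decide +kernel⟩

def B202E_200 :
    ∃ t, chk3 (onCell 0 67108864 0 1073741824 67108864 67108864 (corTK [] true 1 c0F cB202E gF2q2 gF0q2 gF0q0 gF1q0 true true)) t 1 1 1 = true :=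
  ⟨(T.l 1), by decide +kernel⟩

def B202E_201 :
    ∃ t, chk3 (onCell 0 67108864 0 1073741824 67108864 67108864 (corTK [] true 1 c0F cB202E gF2q2 gF0q2 gF1q0 gF2q0 true true)) t 1 1 1 = true :=
  ⟨(T.l 1), by decide +kernel⟩

def B202E_202 :
    ∃ t, chk3 (onCell 0 67108864 0 1073741824 67108864 67108864 (corTK [] true 1 c0F cB202E gF2q2 gF0q2 gF2q0 gF3q0 true false)) t 1 1 1 = true :=
  ⟨(T.l 1), by decide +kernel⟩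

def B202E_210 :
    ∃ t, chk3 (onCell 0 67108864 0 1073741824 67108864 67108864 (corTK [] true 1 c0F cB202E gF2q2 gF1q2 gF0q0 gF1q0 true true)) t 1 1 1 = true :=
  ⟨(T.l 1), by decide +kernel⟩

def B202E_211 :
    ∃ t, chk3 (onCell 0 67108864 0 1073741824 67108864 67108864 (corTK [] true 1 c0F cB202E gF2q2 gF1q2 gF1q0 gF2q0 true true)) t 1 1 1 = true :=
  ⟨(T.l 1), by decide +kernel⟩

def B202E_212 :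
    ∃ t, chk3 (onCell 0 67108864 0 1073741824 67108864 67108864 (corTK [] true 1 c0F cB202E gF2q2 gF1q2 gF2q0 gF3q0 true false)) t 1 1 1 = true :=
  ⟨(T.l 1), by decide +kernel⟩

def B202E_220 :
    ∃ t, chk3 (onCell 0 67108864 0 1073741824 67108864 67108864 (corTK [[⟨0, 1, 0, 16777216⟩, ⟨1, 0, 1, 33554432⟩, ⟨2, 1, 1, 33554432⟩, ⟨1, 0, 0, 150994944⟩, ⟨1, 1, 0, 1023410176⟩, ⟨2, 1, 0, 150994944⟩, ⟨2, 2, 0, 1023410176⟩]] true 1 c0F cB202E gF2q2 gF2q2 gF0q0 gF1q0 true true)) t 1 1 1 = true :=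
  ⟨(T.b (T.b (T.b (T.b (T.a (T.b (T.a (T.c (T.b (T.a (T.l 204) (T.b (T.a (T.l 204) (T.b (T.a (T.l 220) (T.c (T.c (T.a (T.l 204) (T.l 220)) (T.l 204)) (T.l 204))) (T.l 1))) (T.l 1))) (T.a (T.l 204) (T.l 1))) (T.a (T.l 204) (T.b (T.b (T.a (T.l 204) (T.a (T.l 204) (T.l 204))) (T.l 1)) (T.l 1)))) (T.b (T.b (T.b (T.c (T.b (T.c (T.b (T.a (T.c (T.b (T.a (T.a (T.c (T.l 220) (T.l 204)) (T.l 220)) (T.a (T.l 220) (T.l 220))) (T.l 1)) (T.b (T.a (T.a (T.l 204) (T.l 204)) (T.a (T.l 204) (T.l 204))) (T.l 1))) (T.c (T.b (T.a (T.a (T.l 220) (T.l 220)) (T.a (T.l 220) (T.l 220))) (T.l 1)) (T.a (T.a (T.l 204) (T.l 204)) (T.l 220)))) (T.l 1)) (T.b (T.a (T.c (T.a (T.l 204) (T.l 220)) (T.a (T.l 204) (T.l 204))) (T.c (T.a (T.l 204) (T.l 220)) (T.a (T.l 204) (T.l 204)))) (T.l 1))) (T.l 1)) (T.b (T.c (T.b (T.a (T.a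 (T.l 204) (T.l 204)) (T.a (T.l 204) (T.l 204))) (T.l 1)) (T.b (T.a (T.a (T.l 204) (T.l 204)) (T.a (T.l 204) (T.l 204))) (T.l 1))) (T.l 1))) (T.l 1)) (T.l 1)) (T.l 1))) (T.a (T.a (T.l 204) (T.l 1)) (T.l 1))) (T.b (T.b (T.b (T.b (T.c (T.b (T.a (T.c (T.b (T.a (T.c (T.b (T.a (T.a (T.l 220) (T.l 220)) (T.a (T.l 220) (T.l 476))) (T.l 1)) (T.b (T.a (T.a (T.l 204) (T.l 220)) (T.a (T.l 220) (T.l 476))) (T.l 1))) (T.c (T.b (T.a (T.a (T.l 476) (T.a (T.l 476) (T.l 476))) (T.c (T.b (T.a (T.a (T.l 476) (T.l 476)) (T.a (T.l 476) (T.a (T.l 476) (T.l 476)))) (T.l 1)) (T.a (T.l 476) (T.a (T.l 476) (T.l 476))))) (T.l 1)) (T.b (T.a (T.a (T.l 476) (T.c (T.l 476) (T.l 476))) (T.c (T.a (T.l 476) (T.a (T.l 476) (T.l 476))) (T.a (T.l 476) (T.a (T.l 476) (T.l 476))))) (T.l 1)))) (T.l 1)) (T.b (T.a (T.c (T.a (T.l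 220) (T.l 476)) (T.a (T.l 204) (T.l 220))) (T.c (T.b (T.a (T.a (T.l 220) (T.l 476)) (T.a (T.l 476) (T.a (T.l 476) (T.l 476)))) (T.l 1)) (T.b (T.a (T.a (T.l 204) (T.l 476)) (T.a (T.l 476) (T.a (T.l 476) (T.l 476)))) (T.l 1)))) (T.l 1))) (T.c (T.a (T.a (T.a (T.a (T.b (T.a (T.c (T.c (T.l 476) (T.l 476)) (T.l 476)) (T.l 1024)) (T.l 1)) (T.l 1024)) (T.l 1024)) (T.l 1024)) (T.l 1024)) (T.b (T.a (T.c (T.b (T.a (T.c (T.b (T.a (T.a (T.l 476) (T.l 476)) (T.a (T.l 476) (T.l 476))) (T.l 1)) (T.b (T.a (T.a (T.l 476) (T.l 476)) (T.a (T.l 476) (T.l 476))) (T.l 1))) (T.c (T.a (T.a (T.l 476) (T.l 1024)) (T.l 1024)) (T.b (T.a (T.a (T.l 476) (T.l 476)) (T.a (T.l 476) (T.l 476))) (T.l 1)))) (T.l 1)) (T.b (T.a (T.c (T.a (T.a (T.l 476) (T.l 476)) (T.l 476)) (T.a (T.l 476) (T.l 476))) (T.c (T.a (T.l 476) (T.l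 476)) (T.a (T.l 476) (T.l 476)))) (T.l 1))) (T.c (T.a (T.a (T.a (T.l 476) (T.l 1024)) (T.l 1024)) (T.l 1024)) (T.b (T.a (T.c (T.a (T.l 476) (T.l 476)) (T.a (T.l 476) (T.l 476))) (T.c (T.a (T.l 476) (T.l 1024)) (T.a (T.l 476) (T.l 476)))) (T.l 1)))) (T.l 1)))) (T.l 1)) (T.b (T.a (T.c (T.b (T.a (T.a (T.l 204) (T.l 220)) (T.c (T.b (T.a (T.a (T.l 204) (T.l 220)) (T.a (T.l 476) (T.c (T.l 476) (T.l 476)))) (T.l 1)) (T.a (T.l 476) (T.a (T.l 204) (T.l 476))))) (T.l 1)) (T.b (T.a (T.a (T.l 204) (T.l 204)) (T.a (T.l 476) (T.a (T.l 204) (T.l 476)))) (T.l 1))) (T.c (T.b (T.a (T.c (T.b (T.a (T.a (T.l 476) (T.l 476)) (T.a (T.l 476) (T.l 476))) (T.l 1)) (T.b (T.a (T.a (T.l 476) (T.l 476)) (T.a (T.l 476) (T.l 476))) (T.l 1))) (T.c (T.b (T.a (T.a (T.l 476) (T.l 476)) (T.a (T.l 476) (T.l 476))) (T.l 1))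 (T.b (T.a (T.a (T.l 476) (T.l 476)) (T.a (T.l 476) (T.l 476))) (T.l 1)))) (T.l 1)) (T.b (T.a (T.c (T.b (T.a (T.a (T.l 476) (T.l 476)) (T.a (T.l 476) (T.l 476))) (T.l 1)) (T.b (T.a (T.a (T.l 476) (T.l 476)) (T.a (T.l 476) (T.l 476))) (T.l 1))) (T.c (T.b (T.a (T.a (T.l 476) (T.l 476)) (T.a (T.l 476) (T.l 476))) (T.l 1)) (T.b (T.a (T.a (T.l 476) (T.l 476)) (T.a (T.l 476) (T.l 476))) (T.l 1)))) (T.l 1)))) (T.l 1))) (T.l 1)) (T.l 1)) (T.l 1)) (T.l 1))) (T.a (T.a (T.a (T.l 204) (T.l 1)) (T.l 1)) (T.l 1))) (T.a (T.a (T.a (T.l 204) (T.l 1)) (T.l 1)) (T.l 1))) (T.a (T.a (T.a (T.b (T.l 204) (T.l 204)) (T.l 1)) (T.l 1)) (T.l 1))) (T.a (T.a (T.a (T.a (T.a (T.b (T.l 204) (T.b (T.l 0) (T.b (T.l 816) (T.c (T.b (T.l 816) (T.b (T.l 816) (T.a (T.l 816) (T.l 1)))) (T.l 816))))) (T.l 1)) (T.l 1)) (T.l 1))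 (T.l 1)) (T.l 1))), by decide +kernel⟩

def B202E_221 :
    ∃ t, chk3 (onCell 0 67108864 0 1073741824 67108864 67108864 (corTK [[⟨0, 1, 0, 16777216⟩, ⟨1, 0, 1, 33554432⟩, ⟨2, 1, 1, 33554432⟩, ⟨1, 0, 0, 150994944⟩, ⟨1, 1, 0, 1023410176⟩, ⟨2, 1, 0, 150994944⟩, ⟨2, 2, 0, 1023410176⟩]] true 1 c0F cB202E gF2q2 gF2q2 gF1q0 gF2q0 true true)) t 1 1 1 = true :=
  ⟨(T.b (T.l 1) (T.b (T.l 1) (T.b (T.l 1) (T.b (T.l 1) (T.a (T.b (T.l 1) (T.a (T.b (T.l 1) (T.a (T.b (T.l 1) (T.a (T.b (T.l 1) (T.a (T.c (T.a (T.l 816) (T.l 1)) (T.l 816)) (T.l 1))) (T.l 1))) (T.l 1))) (T.l 1))) (T.l 1)))))), by decide +kernel⟩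

def B202E_222 :
    ∃ t, chk3 (onCell 0 67108864 0 1073741824 67108864 67108864 (corTK [[⟨0, 1, 0, 16777216⟩, ⟨1, 0, 1, 33554432⟩, ⟨2, 1, 1, 33554432⟩, ⟨1, 0, 0, 150994944⟩, ⟨1, 1, 0, 1023410176⟩, ⟨2, 1, 0, 150994944⟩, ⟨2, 2, 0, 1023410176⟩]] true 1 c0F cB202E gF2q2 gF2q2 gF2q0 gF3q0 true false)) t 1 1 1 = true :=
  ⟨(T.b (T.l 1) (T.b (T.l 1) (T.b (T.l 1) (T.b (T.l 1) (T.a (T.b (T.l 1) (T.a (T.b (T.l 1) (T.a (T.b (T.l 1) (T.a (T.b (T.l 1) (T.a (T.c (T.b (T.l 1) (T.a (T.c (T.a (T.l 816) (T.l 1)) (T.l 816)) (T.l 1))) (T.b (T.l 1) (T.a (T.l 816) (T.l 1)))) (T.l 1))) (T.l 1))) (T.l 1))) (T.l 1))) (T.l 1)))))), by decide +kernel⟩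

def B202L_400 :
    ∃ t, chk3 (onCell 0 67108864 0 1073741824 67108864 67108864 (corTK [] true 1 c0F cB202L gF4q2 gF0q2 gF0q0 gF1q0 true true)) t 1 1 1 = true :=
  ⟨(T.l 2), by decide +kernel⟩

def B202L_401 :
    ∃ t, chk3 (onCell 0 67108864 0 1073741824 67108864 67108864 (corTK [] true 1 c0F cB202L gF4q2 gF0q2 gF1q0 gF2q0 true true)) t 1 1 1 = true :=
  ⟨(T.b (T.a (T.b (T.a (T.a (T.l 204) (T.l 2)) (T.l 2)) (T.l 2)) (T.l 2)) (T.l 2)), by decide +kernel⟩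

def B202L_402 :
    ∃ t, chk3 (onCell 0 67108864 0 1073741824 67108864 67108864 (corTK [] true 1 c0F cB202L gF4q2 gF0q2 gF2q0 gF3q0 true false)) t 1 1 1 = true :=
  ⟨(T.b (T.b (T.a (T.a (T.a (T.l 204) (T.l 204)) (T.l 204)) (T.b (T.l 204) (T.l 204))) (T.a (T.a (T.a (T.l 204) (T.l 204)) (T.b (T.l 204) (T.l 204))) (T.b (T.l 204) (T.l 204)))) (T.b (T.a (T.b (T.a (T.a (T.l 204) (T.l 204)) (T.l 204)) (T.a (T.a (T.l 204) (T.l 204)) (T.l 204))) (T.a (T.b (T.l 204) (T.l 204)) (T.l 204))) (T.a (T.a (T.a (T.l 204) (T.l 204)) (T.b (T.l 204) (T.l 204))) (T.b (T.b (T.l 204) (T.l 204)) (T.l 204))))), by decide +kernel⟩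

def B202L_410 :
    ∃ t, chk3 (onCell 0 67108864 0 1073741824 67108864 67108864 (corTK [] true 1 c0F cB202L gF4q2 gF1q2 gF0q0 gF1q0 true true)) t 1 1 1 = true :=
  ⟨(T.b (T.b (T.a (T.a (T.a (T.l 204) (T.l 0)) (T.b (T.l 0) (T.l 0))) (T.a (T.l 0) (T.l 204))) (T.a (T.b (T.a (T.a (T.l 204) (T.l 204)) (T.l 0)) (T.a (T.a (T.l 204) (T.l 204)) (T.l 0))) (T.a (T.l 0) (T.b (T.l 204) (T.l 204))))) (T.b (T.a (T.b (T.a (T.a (T.l 204) (T.l 204)) (T.l 0)) (T.a (T.a (T.l 204) (T.l 204)) (T.l 204))) (T.b (T.a (T.l 0) (T.l 0)) (T.b (T.l 2) (T.l 2)))) (T.a (T.b (T.a (T.a (T.l 204) (T.l 2)) (T.l 2)) (T.l 2)) (T.l 2)))), by decide +kernel⟩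

def B202L_411 :
    ∃ t, chk3 (onCell 0 67108864 0 1073741824 67108864 67108864 (corTK [] true 1 c0F cB202L gF4q2 gF1q2 gF1q0 gF2q0 true true)) t 1 1 1 = true :=
  ⟨(T.b (T.b (T.l 1) (T.a (T.l 1) (T.a (T.l 1) (T.b (T.l 204) (T.l 204))))) (T.b (T.a (T.b (T.b (T.l 1) (T.a (T.l 1) (T.l 204))) (T.a (T.a (T.l 204) (T.l 204)) (T.l 204))) (T.b (T.a (T.l 0) (T.l 0)) (T.a (T.l 16) (T.l 0)))) (T.b (T.a (T.a (T.a (T.l 204) (T.l 204)) (T.l 204)) (T.a (T.l 0) (T.b (T.l 0) (T.l 204)))) (T.a (T.b (T.a (T.a (T.l 204) (T.l 204)) (T.l 204)) (T.l 2)) (T.l 2))))), by decide +kernel⟩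

def B202L_412 :
    ∃ t, chk3 (onCell 0 67108864 0 1073741824 67108864 67108864 (corTK [] true 1 c0F cB202L gF4q2 gF1q2 gF2q0 gF3q0 true false)) t 1 1 1 = true :=
  ⟨(T.b (T.l 1) (T.b (T.l 1) (T.b (T.b (T.a (T.l 1) (T.a (T.l 1) (T.l 204))) (T.a (T.a (T.l 1) (T.l 0)) (T.l 0))) (T.a (T.a (T.a (T.l 204) (T.l 204)) (T.b (T.l 204) (T.l 16))) (T.a (T.l 0) (T.l 204)))))), by decide +kernel⟩

def B202L_420 :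
    ∃ t, chk3 (onCell 0 67108864 0 1073741824 67108864 67108864 (corTK [] true 1 c0F cB202L gF4q2 gF2q2 gF0q0 gF1q0 true true)) t 1 1 1 = true :=
  ⟨(T.b (T.b (T.b (T.b (T.a (T.b (T.a (T.b (T.a (T.c (T.c (T.b (T.l 204) (T.a (T.l 1) (T.b (T.l 204) (T.l 1)))) (T.a (T.b (T.l 204) (T.l 1)) (T.l 204))) (T.l 204)) (T.a (T.l 204) (T.c (T.l 204) (T.l 204)))) (T.a (T.l 1) (T.b (T.a (T.c (T.b (T.l 204) (T.l 1)) (T.l 204)) (T.a (T.l 204) (T.c (T.l 204) (T.l 204)))) (T.l 1)))) (T.a (T.a (T.c (T.c (T.a (T.b (T.l 204) (T.a (T.l 220) (T.l 204))) (T.l 204)) (T.l 204)) (T.l 204)) (T.c (T.a (T.l 204) (T.l 204)) (T.l 204))) (T.a (T.c (T.l 204) (T.l 204)) (T.l 204)))) (T.a (T.l 1) (T.b (T.a (T.b (T.a (T.l 1) (T.c (T.a (T.l 1) (T.b (T.l 204) (T.l 1))) (T.l 220))) (T.l 1)) (T.a (T.b (T.c (T.a (T.l 220) (T.l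 204)) (T.l 204)) (T.b (T.c (T.a (T.l 1) (T.l 220)) (T.l 204)) (T.l 1))) (T.c (T.c (T.a (T.b (T.l 204) (T.l 220)) (T.l 204)) (T.l 220)) (T.l 204)))) (T.l 1)))) (T.b (T.a (T.a (T.c (T.l 204) (T.l 204)) (T.a (T.l 204) (T.l 204))) (T.a (T.c (T.l 204) (T.l 220)) (T.l 204))) (T.a (T.a (T.a (T.b (T.c (T.l 204) (T.l 204)) (T.b (T.c (T.b (T.c (T.l 220) (T.l 204)) (T.l 1)) (T.l 204)) (T.l 1))) (T.c (T.b (T.l 204) (T.b (T.l 220) (T.a (T.l 1) (T.c (T.l 220) (T.l 204))))) (T.l 220))) (T.a (T.c (T.b (T.l 204) (T.l 220)) (T.l 204)) (T.a (T.l 220) (T.l 220)))) (T.a (T.a (T.c (T.l 204) (T.l 204)) (T.l 204)) (T.c (T.l 204) (T.l 220)))))) (T.a (T.l 1) (T.b (T.a (T.b (T.a (T.l 1) (T.b (T.a (T.l 1) (T.b (T.a (T.l 220) (T.l 220)) (T.l 1))) (T.l 1))) (T.l 1)) (T.a (T.b (T.a (T.b (T.c (T.l 220) (T.l 220)) (T.b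 (T.a (T.l 1) (T.l 220)) (T.l 1))) (T.c (T.l 220) (T.l 220))) (T.l 1)) (T.a (T.b (T.l 220) (T.b (T.c (T.l 220) (T.l 220)) (T.l 1))) (T.c (T.c (T.l 220) (T.l 220)) (T.l 220))))) (T.l 1)))) (T.l 1)) (T.l 1)) (T.l 1)), by decide +kernel⟩

def B202L_421 :
    ∃ t, chk3 (onCell 0 67108864 0 1073741824 67108864 67108864 (corTK [] true 1 c0F cB202L gF4q2 gF2q2 gF1q0 gF2q0 true true)) t 1 1 1 = true :=
  ⟨(T.l 1), by decide +kernel⟩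

def B202L_422 :
    ∃ t, chk3 (onCell 0 67108864 0 1073741824 67108864 67108864 (corTK [] true 1 c0F cB202L gF4q2 gF2q2 gF2q0 gF3q0 true false)) t 1 1 1 = true :=
  ⟨(T.l 1), by decide +kernel⟩

def B202R_040 :
    ∃ t, chk3 (onCell 0 25165824 0 1073741824 67108864 67108864 (corXK [] 1 c0F cB202R tB202R gF0q2 gF4q2 gF0q0 gF1q0 gF0q0 true true)) t 1 1 1 = true :=
  ⟨(T.b (T.b (T.l 1) (T.a (T.l 207) (T.b (T.b (T.l 1) (T.l 207)) (T.a (T.l 207) (T.l 0))))) (T.b (T.a (T.l 204) (T.b (T.l 0) (T.l 2))) (T.l 2))), by decide +kernel⟩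

def B202R_041 :
    ∃ t, chk3 (onCell 0 25165824 0 1073741824 67108864 67108864 (corTK [] true 1 c0F cB202R gF0q2 gF4q2 gF1q0 gF2q0 true true)) t 1 1 1 = true :=
  ⟨(T.b (T.l 1) (T.b (T.a (T.l 0) (T.b (T.l 0) (T.l 0))) (T.l 2))), by decide +kernel⟩

def B202R_042 :
    ∃ t, chk3 (onCell 0 25165824 0 1073741824 67108864 67108864 (corTK [] true 1 c0F cB202R gF0q2 gF4q2 gF2q0 gF3q0 true false)) t 1 1 1 = true :=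
  ⟨(T.b (T.l 1) (T.b (T.a (T.l 0) (T.b (T.l 1) (T.l 0))) (T.a (T.a (T.l 204) (T.b (T.l 204) (T.l 204))) (T.a (T.l 204) (T.b (T.l 204) (T.l 204)))))), by decide +kernel⟩

def B202R_140 :
    ∃ t, chk3 (onCell 0 67108864 0 1073741824 67108864 67108864 (corTK [] true 1 c0F cB202R gF1q2 gF4q2 gF0q0 gF1q0 true true)) t 1 1 1 = true :=
  ⟨(T.b (T.l 1) (T.b (T.l 1) (T.b (T.b (T.a (T.a (T.l 1) (T.b (T.l 1) (T.b (T.l 1) (T.a (T.c (T.l 816) (T.l 816)) (T.l 816))))) (T.a (T.b (T.l 1) (T.a (T.l 816) (T.l 816))) (T.b (T.b (T.l 1) (T.l 884)) (T.l 816)))) (T.a (T.a (T.l 816) (T.a (T.b (T.l 816) (T.l 816)) (T.l 816))) (T.a (T.b (T.l 816) (T.l 0)) (T.l 816)))) (T.b (T.a (T.a (T.l 816) (T.a (T.l 0) (T.l 816))) (T.a (T.l 0) (T.l 0))) (T.a (T.l 2) (T.l 2)))))), by decide +kernel⟩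

def B202R_141 :
    ∃ t, chk3 (onCell 0 67108864 0 1073741824 67108864 67108864 (corTK [] true 1 c0F cB202R gF1q2 gF4q2 gF1q0 gF2q0 true true)) t 1 1 1 = true :=
  ⟨(T.b (T.l 1) (T.b (T.l 1) (T.b (T.l 1) (T.b (T.a (T.a (T.l 816) (T.a (T.l 0) (T.l 0))) (T.a (T.l 0) (T.l 0))) (T.b (T.a (T.a (T.a (T.l 0) (T.l 0)) (T.l 0)) (T.a (T.l 0) (T.l 2))) (T.l 2)))))), by decide +kernel⟩

def B202R_142 :
    ∃ t, chk3 (onCell 0 67108864 0 1073741824 67108864 67108864 (corTK [] true 1 c0F cB202R gF1q2 gF4q2 gF2q0 gF3q0 true false)) t 1 1 1 = true :=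
  ⟨(T.b (T.l 1) (T.b (T.l 1) (T.b (T.l 1) (T.b (T.b (T.l 1) (T.a (T.a (T.l 1) (T.c (T.l 0) (T.l 0))) (T.a (T.l 0) (T.l 0)))) (T.a (T.a (T.a (T.l 0) (T.l 0)) (T.b (T.l 0) (T.l 0))) (T.a (T.l 0) (T.l 0))))))), by decide +kernel⟩

def B202R_240 :
    ∃ t, chk3 (onCell 0 67108864 0 1073741824 67108864 67108864 (corTK [] true 1 c0F cB202R gF2q2 gF4q2 gF0q0 gF1q0 true true)) t 1 1 1 = true :=
  ⟨(T.l 1), by decide +kernel⟩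

def B202R_241 :
    ∃ t, chk3 (onCell 0 67108864 0 1073741824 67108864 67108864 (corTK [] true 1 c0F cB202R gF2q2 gF4q2 gF1q0 gF2q0 true true)) t 1 1 1 = true :=
  ⟨(T.l 1), by decide +kernel⟩

def B202R_242 :
    ∃ t, chk3 (onCell 0 67108864 0 1073741824 67108864 67108864 (corTK [] true 1 c0F cB202R gF2q2 gF4q2 gF2q0 gF3q0 true false)) t 1 1 1 = true :=
  ⟨(T.l 1), by decide +kernel⟩

end Pool.Agent.Strip051.G.I1_16_1_8.Tab.CF
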