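import Pool.Agent.Strip051.G.I1_16_1_8.StF

/-! # Unit strips 6 (generated) -/

set_option linter.all false
set_option maxRecDepth 100000

namespace Pool.Agent.Strip051.G.I1_16_1_8.Tab.St.C

open Pool.Agent.Strip051.PB Pool.Agent.Strip051.PB.T Pool.Agent.StripNear Pool.Agent.Strip051.LC
open Pool.Agent.Strip051.G.I1_16_1_8.Tab Pool.Agent.Strip051.G.I1_16_1_8.Tab.St

noncomputable def cut_B00pm_011_s3 : Cut := Cut.of [[⟨3, 0, 0, 2845415833⟩], [⟨0, 0, 0, 25165824⟩, ⟨1, 1, 0, 25165824⟩, ⟨2, 1, 0, 25165824⟩], [⟨0, 0, 1, 33554432⟩, ⟨1, 1, 2, 33554432⟩, ⟨2, 1, 0, 8388608⟩, ⟨0, 0, 0, 150994944⟩, ⟨0, 1, 0, 1023410176⟩, ⟨1, 0, 0, 1023410176⟩, ⟨1, 1, 0, 150994944⟩]]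

noncomputable def xt_B00pm_011_s3 : Ext := strExt dd false true false .u0 .u0m .s0m .pnn 0 1 1 rfl rfl gl1 vv ndF0q0 ndF0q1

noncomputable def f_B00pm_011_s3 : ℕ → ℕ → ℕ → ℕ → Bool := onCell 536870912 536870912 536870912 536870912 67108864 67108864
    (rowFK 2 false true false .pnn 0 1 1 (qsf 0 536870912 536870912 536870912 1) ndF0q0 ndF0q1 pcF1 cut_B00pm_011_s3 xt_B00pm_011_s3)

def k0_B00pm_011_s3 : ∃ t, chk3 f_B00pm_011_s3 t 2 1 1 = true :=
  ⟨(b (l 4) (b (a (b (a (b (l 4) (l 552085775)) (l 4)) (a (b (l 551548431) (l 551018255)) (b (l 553311503) (a (l 552154127) (l 553053455))))) (b (l 4) (a (b (l 4) (a (l 554072847) (c (l 556830223) (l 553633807)))) (l 4)))) (a (b (a (b (l 550486287) (b (l 17595376) (a (l 6) (l 6)))) (b (a (l 551554831) (l 552390927)) (a (l 17540096) (l 17283208)))) (b (a (l 6) (b (a (l 6) (b (l 17639880) (l 6))) (l 6))) (l 6))) (b (a (b (a (l 553333519) (l 554394639)) (a (l 552583951) (l 553554959))) (a (b (b (l 555733263) (l 555276303)) (c (l 556440591) (l 552819983)))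 (b (b (l 4) (a (l 556117007) (l 556717327))) (c (b (l 558209551) (l 557649935)) (b (l 553741327) (l 553252111)))))) (a (b (a (a (b (l 17607288) (l 6)) (b (l 17571440) (b (l 17725664) (l 6)))) (a (b (l 17525688) (b (a (l 17630648) (l 17617592)) (l 17581280))) (b (l 17477592) (b (a (l 17601640) (l 17583464)) (l 17582024))))) (b (l 6) (l 6))) (b (b (a (l 17316488) (c (l 17347496) (l 552751631))) (b (a (a (l 17551368) (l 17507144)) (l 17426648)) (b (a (c (l 17652200) (a (l 17507056) (l 17476472))) (a (l 17518576) (l 17468192))) (a (l 17564216) (a (l 17540320) (a (l 17517176) (l 17495208))))))) (b (a (b (l 17544256) (l 17504624)) (a (b (l 17538768) (l 17530624)) (b (l 17522776) (l 17536232)))) (a (l 6) (a (l 17875568) (l 17899352)))))))))), by decide +kernel⟩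

def k1_B00pm_011_s3 : ∃ t, chk3 f_B00pm_011_s3 t 3 2 1 = true :=
  ⟨(l 4), by decide +kernel⟩

def k2_B00pm_011_s3 : ∃ t, chk3 f_B00pm_011_s3 t 3 6 1 = true :=
  ⟨(l 4), by decide +kernel⟩

def k3_B00pm_011_s3 : ∃ t, chk3 f_B00pm_011_s3 t 3 14 1 = true :=
  ⟨(a (b (l 4) (b (a (a (a (l 556763151) (l 557288975)) (l 4)) (l 4)) (a (c (a (l 559328527) (a (l 560514063) (l 561338639))) (a (a (l 553604111) (l 553748495)) (a (l 553731599) (a (l 553515791) (l 553287183))))) (b (l 4) (b (a (l 4) (l 4)) (a (a (l 555735055) (l 4)) (l 4))))))) (l 4)), by decide +kernel⟩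

def k4_B00pm_011_s3 : ∃ t, chk3 f_B00pm_011_s3 t 12 15 1 = true :=
  ⟨(b (b (a (a (l 17023344) (l 556108559)) (c (l 560346895) (a (l 553169423) (a (l 552954895) (l 552724239))))) (a (a (b (l 17337696) (a (l 17362104) (l 17417904))) (l 17154680)) (c (l 559588367) (a (l 551780879) (b (l 552412943) (l 17141488)))))) (b (a (a (b (a (l 17503472) (b (l 17477400) (l 17497136))) (l 17530408)) (b (b (c (l 17539320) (b (l 17288352) (l 17306960))) (l 17469416)) (l 17511248))) (b (b (a (a (l 17310648) (l 17361112)) (l 17222912)) (c (a (l 17525272) (l 17468032)) (a (a (l 17332240) (b (l 17287112) (l 17309984))) (a (b (l 17250328) (l 17273136)) (b (l 17211688) (a (l 17243112) (l 17222520))))))) (c (a (l 17565936) (l 17530200)) (a (b (l 17362888) (l 17412832)) (b (a (l 17311872) (l 17272752)) (l 17349152)))))) (b (a (a (l 17550064) (l 17557416)) (a (l 17548304) (a (l 17528632) (l 17508520)))) (a (l 17827744) (a (l 17598680) (a (l 17601968) (l 17595872))))))), by decide +kernel⟩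

def k5_B00pm_011_s3 : ∃ t, chk3 f_B00pm_011_s3 t 13 30 2 = true :=
  ⟨(b (a (a (l 561281807) (l 561763087)) (c (a (l 565709583) (a (l 565159439) (l 4))) (a (a (l 558619407) (b (l 4) (l 557864207))) (b (l 4) (a (l 557086223) (l 4)))))) (a (a (l 560484367) (l 560913935)) (c (a (l 564178703) (b (l 564361743) (l 563865871))) (a (b (l 557830927) (l 557438735)) (a (b (l 556720399) (l 556344847)) (b (l 554228751) (l 555206415))))))), by decide +kernel⟩

def k6_B00pm_011_s3 : ∃ t, chk3 f_B00pm_011_s3 t 26 30 3 = true :=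
  ⟨(a (c (b (l 554475535) (b (l 553950735) (l 17108936))) (b (b (l 550032911) (l 549769999)) (b (l 549498639) (a (l 17040728) (l 17002504))))) (c (b (b (l 553706255) (l 553395983)) (b (l 553078287) (l 552752655))) (b (a (b (l 548766223) (l 548519695)) (a (b (l 547930383) (l 547694863)) (b (l 547286543) (l 547058703)))) (a (b (l 548262671) (l 547994895)) (a (b (l 547448079) (l 16850840)) (b (l 546819087) (l 546567183))))))), by decide +kernel⟩

def k7_B00pm_011_s3 : ∃ t, chk3 f_B00pm_011_s3 t 54 30 3 = true :=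
  ⟨(b (b (a (l 4) (l 4)) (c (a (l 552154639) (a (l 551289615) (l 550608143))) (b (a (l 545191183) (a (l 544638479) (l 4))) (a (c (l 547430927) (l 544342287)) (a (l 544538127) (c (l 545251343) (l 540929295))))))) (b (b (c (a (l 551915791) (l 550749199)) (a (l 544431375) (a (l 544434191) (l 541785359)))) (c (a (l 16862504) (l 550604047)) (a (l 544314895) (a (l 544326671) (l 541684751))))) (c (a (l 551542799) (l 550392591)) (b (a (c (l 16850720) (l 544019471)) (a (l 544215567) (c (l 544918031) (l 541463567)))) (a (c (l 16919568) (l 543905039)) (c (l 545284367) (a (l 542472207) (l 540560143)))))))), by decide +kernel⟩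

def k8_B00pm_011_s3 : ∃ t, chk3 f_B00pm_011_s3 t 55 30 3 = true :=
  ⟨(b (a (b (l 4) (b (l 4) (b (c (l 549338127) (a (l 542327823) (l 4))) (c (l 549273359) (a (l 541479439) (l 539601167)))))) (l 4)) (c (a (b (a (l 549548303) (a (l 548877839) (l 548393231))) (b (l 548637455) (l 548763407))) (a (b (b (l 547653647) (l 547529231)) (b (l 547400975) (l 547268879))) (b (b (l 546444303) (l 546328335)) (b (l 545134607) (l 544473359))))) (a (c (b (b (a (l 544065807) (l 542838543)) (a (l 543961871) (l 542743055))) (a (b (l 543854095) (l 543742479)) (b (l 542643471) (l 542539791)))) (b (b (a (b (l 540391951) (l 540352271)) (b (l 538947855) (l 538644751))) (a (a (l 540621839) (l 539949071)) (b (l 538877455) (l 538840591)))) (b (a (a (l 540533775) (l 539865871)) (b (l 538534159) (l 538226703))) (a (a (l 540441871) (l 539778063)) (b (l 537649679) (l 537071631)))))) (b (b (a (b (c (l 541459471) (l 537313039)) (c (l 541417999) (l 537284111))) (b (l 4) (a (l 538082575) (l 537166351)))) (a (b (c (l 541375247)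 (l 536985871)) (c (l 541331215) (l 535880975))) (b (a (l 538050831) (l 537138191)) (a (l 538018063) (l 537108495))))) (b (a (b (c (l 541286415) (l 535580431)) (c (l 541240335) (l 535546895))) (b (a (l 537984015) (l 537077775)) (a (l 537411855) (l 537045775)))) (a (a (b (l 538741775) (l 538429967)) (b (l 537950479) (l 537641487))) (b (a (l 537375247) (l 536743951)) (a (l 537069327) (l 536441103))))))))), by decide +kernel⟩

def k9_B00pm_011_s3 : ∃ t, chk3 f_B00pm_011_s3 t 26 31 1 = true :=
  ⟨(b (c (a (b (a (l 17383952) (l 17343840)) (b (l 17451144) (l 17501032))) (b (l 17278464) (b (a (l 17393520) (l 17349672)) (l 17431568)))) (c (b (a (a (b (l 17195664) (l 17240120)) (l 17176560)) (l 16985208)) (a (b (a (l 17289128) (l 17245240)) (l 17324416)) (b (a (b (l 17186368) (l 17211680)) (b (l 17138816) (l 17160944))) (a (l 17255000) (l 17202632))))) (b (b (a (l 17069888) (a (l 17007296) (l 16964224))) (a (a (a (l 17134008) (l 17112704)) (l 17080192)) (a (l 17035648) (l 16989680)))) (a (b (a (l 17170152)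 (b (b (l 17016696) (l 17113024)) (l 17134616))) (a (l 17231672) (l 17180456))) (b (a (b (a (l 17027872) (l 17045480)) (l 17080752)) (b (l 17008576) (b (a (l 17032280) (l 17005680)) (l 16947216)))) (a (l 17124400) (a (l 17079400) (l 17048144)))))))) (a (b (c (l 17573760) (a (l 17381432) (l 17252080))) (b (l 17546832) (l 17596032))) (c (b (l 17519912) (l 17631784)) (a (a (b (l 17296856) (l 17426288)) (b (l 17184440) (l 17397200))) (b (b (a (l 17206968) (l 17091560)) (l 17084640)) (b (l 17231216) (l 17294848))))))), by decide +kernel⟩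

def k10_B00pm_011_s3 : ∃ t, chk3 f_B00pm_011_s3 t 27 62 2 = true :=
  ⟨(a (b (l 560198927) (b (a (l 17302304) (l 17251648)) (a (l 17365216) (l 17230608)))) (b (c (l 563367951) (a (l 16968112) (l 554830351))) (a (b (l 17197944) (l 17175752)) (b (l 17057256) (a (l 17215928) (l 17101664)))))), by decide +kernel⟩

def k11_B00pm_011_s3 : ∃ t, chk3 f_B00pm_011_s3 t 54 62 3 = true :=
  ⟨(b (c (a (l 17041896) (l 550081039)) (c (a (l 546726671) (b (l 545158671) (l 16881088))) (b (a (l 543518735) (a (l 16820440) (c (l 16853272) (l 539604239)))) (a (l 542860303) (a (l 16876136) (a (l 16857808) (l 16845560))))))) (c (a (b (a (l 17112360) (l 17086432)) (a (l 17160424) (l 17131000))) (b (l 17046552) (b (a (l 17088616) (l 17059264)) (l 17097312)))) (a (b (b (l 16958120) (b (l 16965968) (a (l 16902520) (l 16874280)))) (a (l 16932120) (b (l 16888088) (l 16994440)))) (a (b (l 16839552) (b (b (a (l 16859240) (a (l 16847744) (l 16840216))) (l 16860880)) (l 16875664))) (a (b (l 16819128) (b (b (c (l 16950048) (l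 16833936)) (l 16920032)) (l 16849088))) (b (l 16805360) (b (b (l 16814120) (l 16819584)) (l 16831216)))))))), by decide +kernel⟩

def k12_B00pm_011_s3 : ∃ t, chk3 f_B00pm_011_s3 t 55 124 3 = true :=
  ⟨(c (b (a (l 548617231) (a (l 547132687) (l 544345103))) (a (l 548467471) (c (l 548505359) (a (l 16893584) (l 543691535))))) (a (c (a (b (l 16826416) (l 16885800)) (b (l 542431759) (l 541514511))) (b (a (a (l 540345615) (l 538881039)) (b (a (l 16802912) (l 16793240)) (a (l 16805360) (l 16794672)))) (a (b (l 16783408) (l 16786992)) (b (a (l 16807680) (l 16754032)) (a (l 16809864) (l 16755208)))))) (a (c (b (b (l 541095695) (l 16786192)) (b (l 16791456) (l 16796592))) (b (b (a (l 16762816) (l 16753616)) (a (l 16763168) (l 16752824))) (b (a (l 16742424) (l 16751912)) (a (l 16742528) (l 16750864))))) (b (b (a (l 536761871) (l 536136975)) (a (l 536185103) (l 16751384))) (b (a (l 16746648) (l 16745712)) (a (l 16747312) (l 16745168))))))), by decide +kernel⟩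

def k13_B00pm_011_s3 : ∃ t, chk3 f_B00pm_011_s3 t 55 125 6 = true :=
  ⟨(a (b (l 16907864) (b (a (l 17029752) (l 16999704)) (l 16949472))) (b (c (l 16969160) (a (l 16914784) (l 543567631))) (a (b (l 16968912) (l 16900064)) (b (l 16853696) (b (l 16862504) (l 16869912)))))), by decide +kernel⟩

def k14_B00pm_011_s3 : ∃ t, chk3 f_B00pm_011_s3 t 55 125 7 = true :=
  ⟨(a (c (b (a (l 16902688) (c (l 16891728) (l 540456207))) (b (b (l 16814072) (a (l 16917960) (l 16844416))) (a (l 16929328) (l 16832408)))) (b (a (b (l 16790440) (c (l 16853464) (l 16775952))) (b (a (l 16811912) (l 16756248)) (a (l 16771872) (l 16757144)))) (b (b (a (l 16754176) (c (l 16826264) (l 16746640))) (a (b (a (l 16805472) (l 16789648)) (a (l 16850136) (l 16749424))) (b (l 16765928) (a (b (l 16774288) (l 16775016)) (a (l 16762312) (l 16796032)))))) (a (a (l 16857912) (l 16756768)) (a (c (l 16843328) (l 16760944)) (a (l 16767808) (b (a (l 16758504) (b (l 16752872) (l 16797256))) (l 16803296)))))))) (c (a (b (b (l 16801600) (l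 16764512)) (b (l 16769224) (b (a (l 16824040) (b (l 16847840) (l 16849760))) (l 16779720)))) (b (b (a (l 16822696) (l 16808776)) (a (l 16826016) (l 16769032))) (b (a (l 16829184) (l 16771080)) (b (a (a (a (l 16796168) (l 16791896)) (l 16785496)) (l 16772624)) (a (l 16836192) (a (l 16822200) (b (l 16769568) (l 16814168)))))))) (b (a (b (a (l 16742496) (l 16749688)) (a (l 16742320) (l 16737880))) (b (a (l 16735904) (l 16743104)) (a (l 16733368) (l 16739272)))) (b (a (a (b (l 16742088) (l 16741888)) (b (l 16768256) (l 16725536))) (a (b (l 16752336) (l 16750960)) (b (l 16736304) (l 16734272)))) (b (a (b (a (b (a (l 16746024) (l 16779536)) (a (l 16788728) (l 16737864))) (a (l 16729272) (l 16762656))) (a (l 16744016) (b (a (l 16771728) (l 16731192)) (l 16768192)))) (b (l 16741344) (a (b (l 16728512) (a (l 16754224) (l 16734488))) (l 16731800)))) (a (a (l 16747560) (l 16728896)) (a (l 16730904) (b (b (a (l 16736184) (l 16726760)) (l 16732200)) (l 16733408))))))))), by decide +kernel⟩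

def k15_B00pm_011_s3 : ∃ t, chk3 f_B00pm_011_s3 t 54 63 1 = true :=
  ⟨(c (b (a (l 17460536) (l 17243312)) (b (l 17532520) (l 17511384))) (a (b (c (b (l 17200936) (l 17258128)) (b (a (l 17067760) (c (l 17068672) (l 16907408))) (a (l 17123216) (l 16996488)))) (a (b (l 17258112) (l 17318512)) (b (l 17131776) (l 17104784)))) (c (b (b (a (l 17151160) (l 17116000)) (l 17099992)) (b (l 17235392) (a (l 17311984) (l 17262864)))) (b (c (b (a (l 17030768) (l 16907496)) (a (l 17076968) (l 17030808))) (b (a (b (l 16940480) (l 16960728)) (a (b (l 16910408) (l 16927720)) (b (l 16890048) (l 16905192)))) (a (a (l 17004848) (l 16980320)) (a (l 16871216) (b (l 16921008) (l 16937448)))))) (a (a (b (l 17095040) (l 17145960)) (b (l 17068048) (l 17115392))) (a (b (l 16956088) (l 16999416)) (b (a (l 16934312) (l 16919448)) (b (l 17039688) (l 16975680))))))))), by decide +kernel⟩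

def k16_B00pm_011_s3 : ∃ t, chk3 f_B00pm_011_s3 t 55 63 2 = true :=
  ⟨(c (b (l 17417792) (l 17560248)) (b (a (l 17266008) (b (l 17174160) (l 17230376))) (a (l 17381704) (l 17169472)))), by decide +kernel⟩

def k17_B00pm_011_s3 : ∃ t, chk3 f_B00pm_011_s3 t 55 126 3 = true :=
  ⟨(c (a (b (l 16981328) (l 17025072)) (a (b (l 16929616) (l 17054720)) (b (a (l 16902488) (l 16883920)) (l 16890328)))) (a (c (b (a (l 16953840) (b (l 16910336) (l 16925904))) (a (l 16988408) (l 16866504))) (b (a (a (a (l 16798336) (l 16789272)) (b (l 16769072) (l 16865968))) (b (a (l 16792696) (b (l 16729328) (l 16734880))) (a (l 16763032) (a (l 16748480) (l 16780584))))) (a (b (l 16805456) (l 16820080)) (b (a (l 16776016) (a (l 16760904) (l 16750672))) (a (l 16789672) (c (l 16876680) (l 16786616))))))) (c (b (a (b (a (l 16883040) (l 16864400)) (l 16804040)) (b (a (l 16761512) (c (l 16848112) (l 16762000))) (a (l 16774448) (l 16796112)))) (a (b (l 16818864) (l 16834328)) (b (a (l 16788104) (l 16766968)) (a (l 16886344)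 (l 16780488))))) (b (a (b (a (b (l 16752464) (l 16757576)) (b (l 16733320) (l 16737960))) (a (b (l 16762896) (l 16768408)) (b (l 16742808) (l 16747872)))) (b (a (b (l 16734800) (l 16738928)) (b (l 16735936) (l 16739512))) (a (b (l 16743280) (l 16747848)) (b (l 16743320) (l 16736872))))) (b (a (a (b (l 16732168) (l 16738064)) (b (l 16753128) (l 16758592))) (a (b (l 16731656) (l 16736648)) (b (l 16730648) (l 16735128)))) (b (a (a (l 16744136) (l 16743272)) (a (b (l 16740520) (l 16743168)) (l 16734584))) (a (a (l 16750400) (c (l 16836920) (l 16745192))) (a (b (l 16745864) (l 16748608)) (b (l 16743480) (l 16745984)))))))))), by decide +kernel⟩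

def k18_B00pm_011_s3 : ∃ t, chk3 f_B00pm_011_s3 t 55 127 3 = true :=
  ⟨(c (a (b (l 17154072) (a (l 17218640) (l 17181640))) (a (b (l 17097648) (l 17142160)) (b (l 16973248) (l 16932184)))) (a (a (a (b (l 16902072) (b (l 17012712) (l 16947272))) (b (a (l 16887064) (l 16876872)) (l 22))) (b (b (a (l 16853128) (a (l 16837464) (l 16826832))) (l 22)) (l 22))) (b (b (b (b (a (a (l 16805032) (l 16741184)) (a (l 16739640) (l 16737456))) (l 22)) (l 22)) (l 22)) (l 22)))), by decide +kernel⟩

def k19_B00pm_011_s3 : ∃ t, chk3 f_B00pm_011_s3 t 14 60 1 = true :=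
  ⟨(l 4), by decide +kernel⟩

def k20_B00pm_011_s3 : ∃ t, chk3 f_B00pm_011_s3 t 56 61 1 = true :=
  ⟨(c (c (a (b (l 563578127) (l 563101711)) (b (l 562599183) (l 562126351))) (a (b (a (l 554349071) (l 552016655)) (a (l 554004751) (l 553027087))) (b (b (l 4) (a (l 552077839) (l 550680335))) (a (a (l 552162831) (l 550992143)) (b (l 550535183) (l 550385935)))))) (b (a (a (c (a (b (l 545411343) (l 545303311)) (b (l 4) (l 544557839))) (b (b (l 4) (l 534869519)) (b (l 534846735) (l 534285839)))) (b (l 4) (a (c (l 542951183) (b (l 534013455) (l 533995535))) (b (l 536260111) (l 536230159))))) (b (l 4) (b (l 4) (a (a (l 535940623) (l 535571471)) (a (l 534311183) (l 4)))))) (a (c (b (a (a (l 545190671) (l 544450831)) (c (l 545700879) (b (l 540793615) (l 540751375)))) (a (a (l 545073935) (l 543802127)) (c (l 545581327) (b (l 540707599) (l 540394255))))) (b (a (b (a (l 536110863) (l 535078671)) (a (l 536082191) (l 535053839))) (b (a (l 533976079) (l 533142799)) (a (l 533955343) (l 533183759)))) (a (b (a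 (l 536052495) (l 535027727)) (a (l 536021519) (l 535000335))) (b (a (l 533933327) (l 533224975)) (a (l 533910031) (l 533265935)))))) (b (a (b (a (l 535913487) (l 535548943)) (a (l 535616527) (l 535524879))) (b (a (l 534293263) (l 533308687)) (a (l 534274063) (l 533349903)))) (a (b (a (l 535586831) (l 535499279)) (a (l 535287311) (l 535204111))) (b (a (l 534253327) (l 533391119)) (a (l 534231311) (l 533700623)))))))), by decide +kernel⟩

def k21_B00pm_011_s3 : ∃ t, chk3 f_B00pm_011_s3 t 57 61 1 = true :=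
  ⟨(b (l 4) (a (a (c (c (l 560930063) (a (b (l 549319695) (l 549179919)) (b (l 548423439) (l 548290319)))) (b (b (a (l 533011471) (l 4)) (a (l 533320975) (l 533023759))) (b (a (l 533362191) (l 533333263)) (a (l 533403151) (l 533374223))))) (c (c (l 559911951) (b (c (l 550193167) (a (l 544249359) (l 541988623))) (c (l 550048015) (a (l 544145679) (l 541357327))))) (b (b (l 4) (a (l 532995087) (l 532966415))) (b (a (l 533036047) (l 533007375)) (a (l 533077007) (l 533048079)))))) (b (l 4) (a (c (c (l 558490639) (a (b (l 544869647) (l 544545807)) (b (l 543075855) (l 542488335)))) (b (a (l 532978959) (l 532950543)) (a (l 533019663) (l 532991247)))) (a (b (l 534547215) (l 534662415)) (b (l 4) (l 534609167))))))), by decide +kernel⟩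

def k22_B00pm_011_s3 : ∃ t, chk3 f_B00pm_011_s3 t 29 61 1 = true :=
  ⟨(a (b (l 4) (a (a (b (l 4) (b (l 4) (a (l 534535951) (l 534507023)))) (l 4)) (l 4))) (l 4)), by decide +kernel⟩

def k23_B00pm_011_s3 : ∃ t, chk3 f_B00pm_011_s3 t 15 30 1 = true :=
  ⟨(l 4), by decide +kernel⟩

def k24_B00pm_011_s3 : ∃ t, chk3 f_B00pm_011_s3 t 56 62 2 = true :=
  ⟨(c (b (a (l 562618127) (l 561647631)) (a (l 17100928) (l 561158927))) (b (b (a (l 553274127) (a (l 551600399) (l 550232079))) (a (l 553094159) (a (l 16843744) (l 549805071)))) (a (b (l 16929096) (a (l 17073072) (l 17040072))) (a (b (l 16883288) (l 17006152)) (b (l 549105167) (l 16887672)))))), by decide +kernel⟩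

def k25_B00pm_011_s3 : ∃ t, chk3 f_B00pm_011_s3 t 56 124 3 = true :=
  ⟨(a (c (c (a (b (l 546877711) (l 16898920)) (b (l 545457423) (l 545328911))) (b (a (a (l 542707215) (l 541905935)) (b (l 540079887) (l 539227151))) (a (b (l 16797568) (l 16804528)) (a (l 539335439) (b (l 16810224) (l 16814208)))))) (b (a (b (a (l 535989007) (l 534971663)) (a (l 535687183) (l 16752784))) (b (a (l 533885199) (l 533307151)) (a (l 16754008) (l 533348111)))) (a (b (a (l 16750208) (l 16749680)) (a (l 16743120) (l 16746456))) (b (a (l 16749424) (l 16751584)) (a (l 16749960) (l 16747096)))))) (b (a (b (a (l 535254799) (l 535175951)) (a (l 534952463) (l 535146255))) (b (a (l 534207759) (l 533741839)) (a (l 534182671) (l 534051343)))) (a (b (a (l 534917391) (l 534846991)) (a (c (l 16788216) (l 16748480)) (l 534814479))) (b (a (l 534156047) (l 534092559)) (a (l 534396687) (l 534133775)))))), by decide +kernel⟩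

def k26_B00pm_011_s3 : ∃ t, chk3 f_B00pm_011_s3 t 56 125 3 = true :=
  ⟨(a (c (a (b (b (l 16802104) (l 16811944)) (b (l 16821640) (b (l 16828816) (b (l 16832648) (l 16835936))))) (b (a (b (l 16780736) (l 16789024)) (b (l 16766512) (l 16773648))) (a (b (l 16797160) (a (a (l 16811952) (l 16807536)) (l 16800912))) (b (l 16780648) (a (l 16791984) (l 16783048)))))) (b (a (b (a (l 16741152) (l 16743104)) (a (l 16739040) (l 16739616))) (b (a (l 16745136) (l 16742688)) (a (l 16740168) (l 534317583)))) (a (b (a (b (l 16737360) (l 16736200)) (b (l 16742144) (l 16740296))) (b (a (l 16735000) (l 16738408)) (b (a (b (l 16734328) (a (l 16739160) (l 16729680))) (l 16737056)) (a (l 16735784) (b (a (l 16741552) (l 16731888)) (l 16737448)))))) (b (a (b (l 16725872) (l 16723280)) (l 534492687)) (a (b (l 16741632) (b (l 16718664) (b (l 16738712) (a (l 16722384) (l 16737520))))) (b (l 16741520) (a (l 16739088) (l 16718784)))))))) (b (b (a (a (c (l 16752320) (l 16744016)) (l 534512399)) (a (l 534367247) (l 534443279)))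 (a (a (a (l 16743104) (l 16745960)) (a (l 16748816) (l 16746440))) (a (l 534605071) (l 534484495)))) (b (a (a (c (l 16764000) (l 534328847)) (c (l 16747232) (l 534030607))) (a (b (l 16747376) (l 16745080)) (b (l 16740496) (l 16748792)))) (a (a (c (l 16769616) (b (l 16721712) (l 16719640))) (c (l 16751528) (b (l 16722904) (l 16720800)))) (a (a (l 534781967) (l 534761487)) (b (l 16746616) (l 16744464))))))), by decide +kernel⟩

def k27_B00pm_011_s3 : ∃ t, chk3 f_B00pm_011_s3 t 57 124 1 = true :=
  ⟨(c (c (b (a (l 560112655) (a (l 558282511) (l 556717583))) (a (l 559884047) (a (l 558069775) (l 556516111)))) (a (c (a (b (l 551595279) (l 16856624)) (b (l 549897743) (l 549742607))) (b (a (a (l 546103311) (l 545112335)) (b (l 543222287) (l 542899983))) (a (b (l 545523471) (l 16813008)) (b (l 542307599) (l 541982479))))) (c (b (a (a (l 548402703) (l 547293199)) (b (l 544653839) (l 544326415))) (a (a (l 548259599) (l 547158287)) (b (l 543997711) (l 543667471)))) (b (a (b (a (l 541618703) (l 540235535))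 (a (l 541572111) (l 540194319))) (b (a (l 538731279) (l 537093391)) (a (l 538695695) (l 537064463)))) (a (b (a (l 541523983) (l 540151567)) (a (l 541474319) (l 540107023))) (b (a (l 538658575) (l 537033743)) (a (l 538619919) (l 537001487)))))))) (a (b (a (b (a (l 533712655) (l 533415183)) (a (l 533753615) (l 533724687))) (b (a (l 533386255) (l 533089039)) (a (l 533427215) (l 533398287)))) (a (b (a (l 534063119) (l 533765647)) (a (l 534104335) (l 534074895))) (b (a (l 533736463) (l 533438991)) (a (l 534045711) (l 533748239))))) (b (a (b (a (l 533060367) (l 533031695)) (a (l 533101071) (l 533072399))) (a (b (l 533003535) (l 533043983)) (b (l 532975119) (l 533015567)))) (a (b (a (l 533410319) (l 533113103)) (a (l 533451023) (l 533422095))) (b (a (l 533084431) (l 533056015)) (a (l 533125135) (l 533096719))))))), by decide +kernel⟩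

def k28_B00pm_011_s3 : ∃ t, chk3 f_B00pm_011_s3 t 57 125 1 = true :=
  ⟨(c (c (b (a (l 559652111) (a (l 16886352) (l 556309519))) (a (l 16999360) (a (l 16944176) (l 16885448)))) (a (c (b (a (l 16938280) (l 549582607)) (a (l 16977440) (l 16857520))) (b (a (b (l 16824608) (l 16878016)) (a (l 543264271) (b (l 16830848) (l 16838568)))) (a (a (l 16903864) (l 16802112)) (a (l 542064655) (a (l 16812496) (l 541156623)))))) (c (b (a (a (l 16841528) (l 547017743)) (a (l 545821967) (b (l 16790880) (l 16801312)))) (b (a (l 16897600) (c (l 16881440) (l 542435087))) (a (l 16911992) (c (l 16895128) (l 541568271))))) (b (a (b (a (l 16775064) (l 540061199)) (a (l 16781056) (l 16765680))) (b (a (l 538579727) (l 536967439)) (a (l 538537743) (l 536931855)))) (a (b (a (l 16786920) (l 16769672)) (a (l 16750704) (l 16773520))) (b (a (l 16752512) (l 16756488)) (a (l 16754320) (l 16756064)))))))) (a (b (a (b (a (l 534413839) (l 534384399)) (a (l 534454799) (l 534425359))) (b (a (l 534086671) (l 534057487)) (a (l 534395919)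 (l 534366735)))) (a (b (a (b (l 16741832) (l 16750088)) (l 534600463)) (a (b (l 16747888) (l 16745704)) (b (l 16749184) (l 16746968)))) (b (a (l 534571023) (l 534675983)) (a (b (l 16740024) (l 16748272)) (b (l 16741384) (l 16739112)))))) (b (a (b (a (l 533760015) (l 533462799)) (a (l 534069263) (l 533771791))) (b (a (l 533434127) (l 533137167)) (a (l 533474575) (l 533445903)))) (a (b (a (l 534378255) (l 534349327)) (a (b (l 16742776) (l 16740472)) (b (l 16744192) (l 16741856)))) (b (a (l 533783567) (l 533486351)) (a (b (l 16745632) (l 16743272)) (l 534063631))))))), by decide +kernel⟩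

def k29_B00pm_011_s3 : ∃ t, chk3 f_B00pm_011_s3 t 56 126 2 = true :=
  ⟨(c (a (l 17326640) (b (l 17221528) (l 17293392))) (a (b (a (l 17122856) (l 17086584)) (l 17074800)) (b (a (b (l 16952720) (l 17061352)) (b (a (l 16924208) (l 16904928)) (l 17021136))) (a (l 17099560) (l 16973432))))), by decide +kernel⟩

def k30_B00pm_011_s3 : ∃ t, chk3 f_B00pm_011_s3 t 112 126 3 = true :=
  ⟨(c (c (b (a (l 16985112) (b (l 16937160) (l 16955648))) (a (l 17025984) (l 16900520))) (b (a (b (l 16801864) (l 16817072)) (b (a (l 16772424) (b (b (l 16789752) (l 16834680)) (l 16839336))) (a (l 16870112) (l 16765096)))) (a (b (l 16832960) (l 16849504)) (b (a (l 16884672) (l 16778656)) (a (l 16899936) (l 16792968)))))) (b (b (b (b (a (a (l 16737736) (l 16738688)) (a (l 16739320) (b (a (l 16737016) (l 16738144)) (l 16735376)))) (a (a (l 16739752) (l 16740408)) (a (l 16719736) (l 16731768)))) (a (a (l 16732400) (l 16732608)) (a (l 16732424) (b (l 16726960) (l 16743112))))) (a (a (b (l 16736768) (c (l 16736336) (l 16725424)))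 (b (l 16736392) (c (l 16756856) (l 16723984)))) (a (b (l 16735584) (l 16738984)) (b (l 16734328) (l 16737056))))) (a (a (b (b (l 16735696) (b (l 16739440) (l 16742008))) (a (b (l 16741264) (l 16736344)) (b (l 16740120) (l 16734944)))) (b (b (l 16734184) (c (l 16767888) (l 16730408))) (b (c (l 16773704) (l 16733976)) (b (l 16736528) (l 16739040))))) (b (a (b (l 16737384) (l 16736024)) (b (l 16740048) (c (l 16742256) (l 16722984)))) (a (b (b (l 16739088) (l 16741200)) (b (l 16743368) (l 16735104))) (b (a (l 16742552) (l 16729968)) (b (l 16739040) (l 16740960)))))))), by decide +kernel⟩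

def k31_B00pm_011_s3 : ∃ t, chk3 f_B00pm_011_s3 t 113 126 3 = true :=
  ⟨(b (b (b (a (b (c (a (a (l 16778040) (l 16768496)) (l 16754184)) (a (b (l 16718264) (a (l 16737688) (l 16738784))) (l 16719160))) (b (c (a (l 16775304) (l 16750008)) (a (l 16736072) (a (l 16738368) (l 16718464)))) (c (l 16766888) (l 16735232)))) (c (a (b (l 16734960) (c (l 16866104) (b (l 16773288) (l 16752504)))) (l 16757640)) (a (b (l 16720408) (b (l 16719560) (c (l 16739664) (l 16718384)))) (l 16721024)))) (a (a (c (l 16781416) (a (l 16726912) (l 16728480))) (c (l 16760672) (l 16730832))) (c (a (l 16739544) (b (b (c (l 16847504) (l 16742472)) (l 16759320)) (l 16761280))) (b (a (l 16736320) (b (l 16729712) (l 16717280))) (l 16733152))))) (a (a (b (c (l 16788584) (c (l 16728264) (b (l 16741416) (a (l 16735832) (l 16737432))))) (c (l 16795952) (l 16737320))) (b (b (l 16742672) (a (l 16739768) (l 16738952))) (c (l 16774096) (l 16738280)))) (b (b (c (c (l 16781888) (l 16747144)) (l 16728424)) (a (l 16742760) (l 16740432)))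 (b (a (l 16739160) (l 16741688)) (a (l 16740872) (l 16743008)))))) (c (c (a (b (l 16847768) (l 16949584)) (b (a (l 16897952) (l 16790872)) (a (l 16914416) (l 16806224)))) (a (b (a (a (l 16761696) (l 16750216)) (b (l 16771760) (l 16735664))) (a (a (l 16775232) (l 16763200)) (b (l 16741728) (l 16747992)))) (b (a (b (l 16748248) (l 16753456)) (b (l 16745144) (l 16749664))) (b (a (l 16758896) (l 16754416)) (a (l 16764552) (l 16738432)))))) (b (b (a (a (l 16730640) (l 16731536)) (a (l 16721960) (l 16722872))) (a (a (l 16734456) (l 16735296)) (a (l 16725656) (l 16726512)))) (a (a (b (l 16738288) (c (l 16736936) (l 16710424))) (b (l 16739072) (c (l 16742232) (l 16711152)))) (a (b (l 16739856) (c (l 16733344) (l 16711896))) (b (l 16730168) (l 16733848))))))), by decide +kernel⟩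

def k32_B00pm_011_s3 : ∃ t, chk3 f_B00pm_011_s3 t 57 126 2 = true :=
  ⟨(c (b (a (b (l 17130112) (l 17162864)) (b (l 16966848) (a (l 17100648) (l 16973264)))) (a (l 17131248) (a (l 17150144) (l 16935736)))) (a (a (a (b (b (l 16885392) (l 16989736)) (l 16940192)) (b (b (l 16865568) (l 16884320)) (l 16875304))) (c (b (b (l 16967120) (l 16986808)) (l 16938760)) (b (b (a (l 16797704) (l 16860920)) (a (l 16894512) (b (c (l 16893328) (l 16800168)) (l 16875456)))) (b (a (l 16911808) (l 16803600)) (a (l 16929840) (l 16820336)))))) (c (a (b (b (l 16926232) (b (l 16853520) (l 16947168))) (b (l 16963280) (l 16985360))) (b (b (a (l 16894944) (l 16873752)) (b (l 16808768) (a (l 16911552) (l 16803408)))) (b (a (l 16926176) (l 16816744)) (a (l 16946280) (l 16835344))))) (b (a (b (a (l 16756288) (l 16777232)) (b (b (a (l 16759896) (l 16821416)) (a (l 16846320) (b (l 16780336) (l 16823360)))) (a (l 16851616) (l 16743376)))) (b (a (l 16755992) (l 16755512)) (b (a (b (l 16798904) (l 16757520)) (l 16775976)) (a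 (l 16760400) (b (b (l 16775936) (l 16776456)) (l 16778112)))))) (a (b (a (l 16778648) (b (l 16749776) (l 16756416))) (a (l 16793960) (a (l 16773672) (l 16759896)))) (b (a (b (l 16765944) (l 16771696)) (b (l 16739576) (l 16744344))) (a (b (l 16777696) (l 16741992)) (b (l 16749376) (l 16754672))))))))), by decide +kernel⟩

def k33_B00pm_011_s3 : ∃ t, chk3 f_B00pm_011_s3 t 57 252 3 = true :=
  ⟨(a (b (a (a (b (l 16743544) (b (b (l 16742184) (c (l 16743040) (l 16730424))) (l 16738088))) (b (l 16744784) (b (l 16743152) (b (a (l 16741488) (l 16742464)) (l 16740040))))) (a (b (l 16746048) (b (l 16744400) (b (l 16743584) (a (l 16742224) (l 16743184))))) (b (l 16747352) (l 16745120)))) (b (a (c (a (l 16742656) (l 16740552)) (b (l 16734720) (l 16730032))) (c (a (l 16737976) (b (b (l 16743592) (l 16741864)) (l 16738280))) (b (a (l 16739448) (l 16731744)) (l 16736344)))) (c (a (a (l 16747496) (l 16744608)) (a (l 16741200) (l 16737280))) (a (b (a (a (b (l 16745088) (l 16742728)) (l 16745504)) (l 16747904))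 (a (l 16742088) (a (l 16742824) (l 16744016)))) (a (b (l 16730112) (l 16746424)) (b (l 16733288) (b (l 16729808) (l 16748464)))))))) (b (a (a (b (l 16748680) (l 16746424)) (b (l 16739552) (l 16747752))) (a (b (l 16740936) (l 16749104)) (b (l 16742352) (l 16740008)))) (b (b (a (a (b (l 16724048) (a (l 16743728) (l 16723688))) (l 16725080)) (a (l 16726408) (l 16727776))) (a (a (l 16741304) (b (c (l 16745088) (l 16723680)) (l 16743280))) (a (c (l 16746160) (l 16724776)) (l 16726616)))) (b (a (a (l 16736592) (l 16739768)) (a (l 16742992) (a (l 16745160) (l 16735784)))) (a (a (b (l 16733096) (l 16730760)) (l 16735128)) (a (l 16738312) (l 16741496))))))), by decide +kernel⟩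

def k34_B00pm_011_s3 : ∃ t, chk3 f_B00pm_011_s3 t 57 253 3 = true :=
  ⟨(a (b (a (b (c (a (l 16752576) (l 16748912)) (a (l 16723800) (l 16724736))) (a (a (l 16737856) (l 16738280)) (c (l 16742984) (l 16707288)))) (c (a (b (l 16744664) (l 16748400)) (b (l 16739832) (l 16742656))) (a (c (l 16727464) (l 16727368)) (l 16728336)))) (c (a (b (a (l 16742456) (l 16747784)) (a (c (l 16784880) (l 16743008)) (l 16742328))) (a (b (l 16741896) (l 16746136)) (b (l 16745760) (l 16743888)))) (a (a (b (l 16710008) (l 16713624)) (a (l 16722904) (l 16733784))) (b (c (l 16717424) (l 16711912)) (l 16718136))))) (a (c (b (a (b (c (l 16747912) (l 16748560)) (l 16741656)) (c (b (l 16721520) (l 16745208)) (a (l 16730040) (l 16730504)))) (a (b (l 16745256) (c (l 16738856) (l 16717248))) (b (l 16735584) (l 16744392)))) (b (a (l 16729272) (l 16730208)) (a (l 16725520) (l 16726352)))) (a (b (a (c (c (l 16730984) (l 16730960)) (l 16730920)) (b (b (l 16734496) (l 16730568)) (l 16733080))) (c (b (l 16736408) (l 16739912))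 (l 16727184))) (c (a (c (b (b (b (l 16757192) (b (c (l 16753680) (l 16753664)) (l 16752416))) (l 16754600)) (l 16738888)) (b (b (b (l 16757112) (l 16752472)) (l 16712592)) (l 16738656))) (c (b (b (b (l 16758808) (b (l 16755296) (l 16752960))) (l 16755040)) (l 16739288)) (a (b (b (b (l 16758312) (l 16753688)) (l 16712936)) (l 16717992)) (b (b (b (l 16717176) (l 16754496)) (l 16755104)) (l 16718200))))) (b (b (b (l 16736816) (l 16732272)) (l 16733704)) (l 16728032)))))), by decide +kernel⟩

def k35_B00pm_011_s3 : ∃ t, chk3 f_B00pm_011_s3 t 28 127 2 = true :=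
  ⟨(a (c (a (l 17472168) (l 17318288)) (a (b (l 17213632) (l 17269696)) (a (b (l 17151904) (l 17205720)) (b (l 17023344) (l 17075040))))) (c (a (b (l 17285568) (l 17356800)) (a (b (l 17217640) (l 17286408)) (b (l 17084184) (l 17150384)))) (b (b (b (a (a (l 16957784) (l 16824240)) (a (a (l 16868768) (l 16757560)) (c (l 16863976) (a (l 16748464) (l 16760216))))) (a (c (l 17090576) (l 22)) (l 22))) (a (c (l 17110224) (l 22)) (l 22))) (a (c (a (l 17175968) (l 22)) (l 22)) (l 22))))), by decide +kernel⟩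

def k36_B00pm_011_s3 : ∃ t, chk3 f_B00pm_011_s3 t 28 127 3 = true :=
  ⟨(b (a (c (b (b (a (a (l 16915472) (l 16786880)) (a (a (l 16835488) (l 16769128)) (b (a (l 16742136) (l 16758288)) (l 22)))) (a (c (l 17041688) (l 22)) (l 22))) (a (c (l 17057696) (l 22)) (l 22))) (a (b (b (b (a (a (c (l 16766184) (l 16745008)) (l 16741600)) (a (l 16737392) (l 16742936))) (l 22)) (l 22)) (l 22)) (b (b (b (a (a (l 16734560) (l 16735232)) (a (l 16735920) (l 16715640))) (l 22)) (l 22)) (l 22)))) (b (a (b (b (a (c (a (l 16752680) (l 16746256)) (l 16719288)) (c (a (l 16738992) (l 16751824)) (l 16718120))) (l 22)) (l 22)) (a (a (c (b (c (l 16743344) (l 16720824)) (l 22)) (l 16727080)) (c (b (c (l 16744560) (l 16721528)) (l 22)) (l 16727792))) (a (c (b (b (l 16721576) (l 22)) (l 22)) (l 16728520)) (c (b (l 16744144) (l 22)) (l 16729248))))) (a (l 22) (c (l 22) (a (b (l 16729864) (a (l 22) (l 16731008))) (a (l 16735168) (l 16735784))))))) (a (c (a (c (a (l 17113488) (l 22)) (l 22)) (l 22)) (l 22)) (a (l 22) (c (l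 22) (c (l 22) (c (b (a (l 22) (a (l 22) (l 16742168))) (l 22)) (a (b (a (l 22) (l 16740672)) (l 22)) (b (a (l 16741184) (l 16741712)) (b (a (l 16740904) (l 16741336)) (a (l 22) (b (l 16743792) (a (l 22) (l 16745560))))))))))))), by decide +kernel⟩

def k37_B00pm_011_s3 : ∃ t, chk3 f_B00pm_011_s3 t 58 124 1 = true :=
  ⟨(a (b (c (c (a (a (l 555291919) (l 554219023)) (c (l 556857103) (a (l 548668943) (b (l 547171599) (l 547109647))))) (a (b (a (l 537970959) (l 537005583)) (a (l 537666575) (l 536976399))) (b (a (l 535605775) (l 533486351)) (a (l 535584783) (l 533473807))))) (a (b (a (l 532946959) (l 532919055)) (a (l 532987407) (l 532959503))) (b (a (l 532891407) (l 532863503)) (a (l 532931599) (l 532903695))))) (c (c (c (a (l 558654479) (l 556654863)) (a (a (l 551132175) (l 549894927)) (a (l 548528399) (a (l 547407631) (l 546614543))))) (a (b (a (c (l 543214863) (l 535264015)) (l 536677391)) (a (c (l 543161359) (l 535238671)) (l 536376335))) (b (a (l 535561743) (l 533459471)) (a (l 535536911)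 (l 533711375))))) (a (b (a (l 533027855) (l 532999695)) (a (l 533068303) (l 533040143))) (a (a (l 533199375) (l 533185295)) (a (l 533171471) (l 533157391)))))) (a (a (c (c (b (c (l 555003663) (b (l 545487119) (l 545431823))) (c (l 554818575) (b (l 545374735) (l 545316111)))) (b (b (l 533127695) (l 533169167)) (b (l 533210383) (l 533520143)))) (b (b (l 533104399) (l 532876047)) (b (l 532916239) (l 532956175)))) (b (b (l 4) (b (l 533928207) (l 533948431))) (b (b (l 533968911) (l 534257679)) (a (l 534563855) (l 534280975))))) (b (b (l 4) (b (l 4) (a (l 533920271) (l 533892111)))) (c (b (a (l 534931983) (l 534553871)) (a (l 534908175) (l 534808847))) (b (a (l 533129487) (l 533102351)) (a (l 532901135) (l 533142031))))))), by decide +kernel⟩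

def k38_B00pm_011_s3 : ∃ t, chk3 f_B00pm_011_s3 t 116 125 1 = true :=
  ⟨(c (c (c (a (b (l 16869792) (l 16992352)) (b (l 556448015) (l 556235535))) (a (a (b (l 550965519) (l 16921152)) (b (l 549737487) (l 16839304))) (b (a (l 548381711) (a (l 547269903) (l 546483215))) (a (l 548228623) (b (l 16773816) (l 16871296)))))) (b (a (b (a (c (l 543106319) (l 535211535)) (l 536073743)) (a (c (l 16785832) (l 535182607)) (l 535769103))) (b (a (l 535510031) (b (l 533430287) (l 16763048))) (a (l 535481615) (l 533941263)))) (a (b (a (c (l 16794152) (l 535151887)) (b (l 16760456) (l 16760624))) (a (c (l 16760400) (l 16757840)) (b (l 16760752) (l 16760856)))) (b (a (l 535451151) (l 534187535)) (a (l 535150607) (l 534432015)))))) (b (a (b (a (l 533108495) (l 533080335)) (a (l 533148943) (l 533120527))) (a (b (l 533052175) (l 533092367)) (a (l 533251855) (l 533237775)))) (a (a (b (l 533189391) (l 533498127)) (b (l 533160975) (l 533201167))) (a (b (l 533132559) (l 533172751)) (b (l 533104399) (l 533144591)))))),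 by decide +kernel⟩

def k39_B00pm_011_s3 : ∃ t, chk3 f_B00pm_011_s3 t 117 125 1 = true :=
  ⟨(b (a (a (c (c (c (l 554627343) (b (l 545255695) (l 545193231))) (b (l 533561359) (l 533871119))) (b (l 532996367) (l 533036303))) (c (c (c (l 553244431) (b (l 543422479) (l 543099151))) (b (l 533263887) (l 533573391))) (b (l 532968463) (l 533008399)))) (a (c (b (l 534882575) (b (l 535935759) (l 535921423))) (b (l 532940815) (l 532980751))) (a (c (b (l 534370319) (l 534350095)) (l 533140751)) (c (b (l 533859855) (l 534113551)) (l 533193999))))) (c (a (c (c (b (l 16860280) (l 16841864)) (a (b (l 16798288) (l 16809592)) (b (l 542505487) (l 541910031)))) (b (a (l 534180879) (l 534151439)) (a (l 534490639) (l 534461199)))) (b (a (b (l 535638287) (l 535622671)) (a (l 534864655) (l 534633231))) (b (a (l 535606799) (l 535009295)) (a (l 535590415) (l 535266319))))) (b (a (a (l 533076239) (l 533048335)) (a (l 533020687) (l 532993039))) (a (a (l 533116431) (l 533088271)) (a (l 533060623) (l 533032719)))))), by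 decide +kernel⟩

def k40_B00pm_011_s3 : ∃ t, chk3 f_B00pm_011_s3 t 59 124 1 = true :=
  ⟨(b (l 4) (a (a (b (a (b (l 533884175) (l 533904399)) (b (l 4) (l 533876495))) (a (b (l 533924879) (l 534213391)) (b (l 533896719) (l 534185487)))) (b (l 4) (a (b (l 533868815) (l 533889039)) (c (b (l 533583631) (l 533335823)) (l 533033999))))) (a (a (b (l 4) (a (a (l 533833999) (l 533558799)) (l 534353423))) (l 4)) (l 4)))), by decide +kernel⟩

def k41_B00pm_011_s3 : ∃ t, chk3 f_B00pm_011_s3 t 59 125 1 = true :=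
  ⟨(a (a (c (b (b (a (a (l 533729039) (l 533446159)) (b (l 533414159) (l 533434639))) (a (a (l 534039055) (l 534024207)) (a (l 533741327) (l 533726735)))) (b (a (a (l 534617103) (l 534602511)) (a (l 534319375) (l 534304783))) (c (c (a (l 547854095) (c (l 16855080) (l 542747919))) (a (l 535494671) (l 534912527))) (a (l 533299727) (l 533270799))))) (a (b (b (l 533154575) (l 532925967)) (b (l 532965647) (l 533005327))) (b (b (l 533127439) (l 533167119)) (b (l 532938255) (l 532977935))))) (b (b (a (a (l 534194703) (l 534180623)) (b (l 533881359) (l 534169871))) (b (a (l 534217999) (l 534190095)) (a (l 534506511) (l 534210319)))) (c (b (a (a (l 534021647) (l 534007311)) (a (l 533724175) (l 533441295))) (a (a (l 534599695) (l 534585103)) (a (l 534570767) (l 534287631)))) (b (a (l 533179407) (l 533152271)) (a (l 532950543) (l 533191951)))))) (b (a (a (b (c (b (l 533596175) (l 533616655)) (l 533046543)) (a (l 534447631) (c (l 533103119) (l 532811535)))) (b (c (a (l 533584655) (l 533033487)) (l 533019919))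 (c (b (l 533608463) (l 533360399)) (l 533059343)))) (b (a (c (a (l 533287951) (l 533005327)) (l 532993295)) (a (c (l 532990991) (l 532974607)) (l 534042895))) (a (c (a (l 533328655) (l 533046031)) (l 533032719)) (c (a (l 533031951) (l 533017615)) (l 533006095))))) (a (b (b (c (a (l 533141263) (l 533112591)) (l 533101583)) (c (a (l 533430031) (l 533133071)) (l 533121295))) (c (a (a (l 534273295) (l 533990415)) (a (l 533707535) (l 533424655))) (a (l 533164815) (l 533137935)))) (a (c (b (b (l 533083919) (l 533104399)) (b (l 533124879) (l 533145103))) (b (l 533071887) (l 533111311))) (b (c (a (l 533072655) (l 533058575)) (l 533045263)) (c (b (l 533096207) (l 533116687)) (l 533084687))))))), by decide +kernel⟩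

def k42_B00pm_011_s3 : ∃ t, chk3 f_B00pm_011_s3 t 58 252 1 = true :=
  ⟨(a (b (c (c (a (l 16904016) (a (l 16871616) (l 16849712))) (a (a (c (l 16768456) (l 16754864)) (c (l 16788784) (l 16754928))) (a (b (l 16760736) (l 16759456)) (b (l 16760552) (l 16757832))))) (a (a (l 533538575) (l 533509903)) (a (l 533212943) (l 533184527)))) (c (b (a (c (l 16921824) (a (l 16763464) (l 16760952))) (c (l 16876080) (a (l 16758136) (l 16755072)))) (a (c (l 16934080) (a (b (l 16759256) (l 16755680)) (b (l 16760920) (a (l 16757256) (l 16754880))))) (c (l 16844456) (a (c (l 16771336) (l 16750208)) (l 16752280))))) (b (a (a (l 16728584) (l 16730000)) (c (l 533374991) (l 16732024))) (b (a (a (l 16737064) (l 16728224)) (l 16740856)) (a (a (l 16744728) (a (l 16746840) (l 16747928))) (a (l 16738728) (l 16729896))))))) (c (c (c (a (a (l 16972392) (l 16865200)) (a (c (l 16951576) (l 548263695)) (b (l 16808952) (l 16910584)))) (a (a (b (l 16778816) (l 16789848)) (b (c (l 16864912) (l 16774280)) (l 16786152))) (b (a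 (c (l 16842664) (l 537843215)) (b (l 16753688) (l 16755016))) (a (a (l 16788424) (l 16775880)) (b (l 16756320) (l 16757584)))))) (a (b (a (l 534800399) (l 534770703)) (a (a (l 16754208) (l 16754944)) (a (l 16755680) (l 16756432)))) (b (a (b (l 16763824) (l 16761304)) (b (l 16754952) (l 16762888))) (a (b (l 16758808) (l 16756328)) (b (l 16760360) (l 16757856)))))) (a (a (b (l 533156367) (l 533196559)) (b (l 533128463) (l 533168399))) (a (a (l 533327887) (l 533314063)) (a (l 533299983) (l 533286159)))))), by decide +kernel⟩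

def k43_B00pm_011_s3 : ∃ t, chk3 f_B00pm_011_s3 t 116 253 1 = true :=
  ⟨(b (c (a (c (l 16955352) (a (c (l 16790560) (b (l 16754544) (l 16758232))) (b (l 16754024) (l 16758912)))) (c (a (l 16917272) (b (l 16842832) (l 16897664))) (b (b (a (c (l 16773536) (l 16746872)) (a (l 16752152) (l 16750104))) (a (l 16758808) (l 16751304))) (a (l 16751128) (l 16753120))))) (a (a (b (b (l 16740096) (b (l 16736672) (l 16734384))) (l 16734680)) (b (b (l 16743288) (a (l 16737936) (l 16739536))) (l 16735608))) (b (a (b (l 16736024) (l 16741944)) (c (b (l 16738688) (l 16745240)) (l 16736560))) (b (c (a (b (l 16738592) (l 16736296)) (b (l 16741824) (a (l 16738728) (l 16740352)))) (l 16738992)) (l 16727288))))) (c (b (a (c (l 16977632) (a (c (l 16887040) (l 16762208)) (l 16753584))) (c (l 16840696) (a (l 16755120) (l 16755824)))) (a (c (l 16992664) (a (c (l 16895712) (l 16745488)) (c (l 16782656) (l 16756344)))) (c (l 16854424) (a (l 16748920) (l 16748344))))) (b (a (a (l 16727448) (l 16738808)) (a (l 16739688)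 (l 16740584))) (a (c (a (l 16720496) (l 16721296)) (l 16720360)) (a (l 16721880) (l 16722712)))))), by decide +kernel⟩

def k44_B00pm_011_s3 : ∃ t, chk3 f_B00pm_011_s3 t 117 253 1 = true :=
  ⟨(b (c (a (a (c (b (a (l 16865280) (l 16810256)) (l 16870376)) (c (b (b (l 16761768) (l 16762200)) (l 16765048)) (b (b (l 16730336) (l 16748672)) (b (l 16764992) (b (l 16761528) (l 16760536)))))) (c (b (a (l 16797072) (l 16825728)) (l 16842360)) (b (a (b (l 16731680) (l 16750776)) (l 16752432)) (b (l 16747320) (b (l 16764824) (a (l 16761688) (l 16763328))))))) (a (b (c (l 16784648) (l 16753704)) (c (b (c (l 16958704) (l 16789320)) (l 16816160)) (b (l 16750568) (a (a (l 16765712) (l 16766536)) (l 16746792))))) (b (c (l 16778384) (l 16755368)) (c (b (a (l 16789552) (l 16775160)) (l 16786392)) (b (a (l 16752560) (l 16753592)) (l 16749240)))))) (a (a (b (b (l 16729968) (l 16737864)) (b (l 16743840) (a (l 16738968) (l 16740160)))) (b (a (l 16740616) (l 16741552)) (b (l 16747040) (l 16742584)))) (b (a (l 16742840)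 (l 16734040)) (a (b (l 16739744) (a (l 16744992) (l 16746600))) (b (l 16742144) (l 16749000)))))) (c (c (c (a (l 17025856) (a (l 16982080) (l 16867856))) (a (a (l 16821720) (a (l 16799008) (l 16783576))) (a (b (l 16756296) (l 16763736)) (b (l 16766672) (l 16772720))))) (a (a (b (c (l 16769072) (l 16741640)) (c (l 16752432) (l 16723992))) (b (l 16742520) (l 16745840))) (a (b (l 16743376) (l 16746640)) (a (b (l 16744024) (l 16747256)) (c (l 16746088) (l 16746040)))))) (a (a (a (l 16732312) (l 16732752)) (a (l 16733192) (l 16733632))) (a (a (l 16744560) (l 16745008)) (l 16735192))))), by decide +kernel⟩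

def k45_B00pm_011_s3 : ∃ t, chk3 f_B00pm_011_s3 t 58 254 1 = true :=
  ⟨(b (c (c (b (a (a (l 17007832) (l 16868312)) (c (a (l 17048304) (l 16902888)) (a (a (l 16920528) (l 16804608)) (a (l 16771440) (l 16758088))))) (a (c (l 17149760) (l 22)) (l 22))) (b (b (a (a (a (l 16752208) (l 16763256)) (a (l 16752312) (l 16740312))) (a (a (l 16747592) (l 16748344)) (a (l 16728128) (l 16728896)))) (l 22)) (l 22))) (a (a (c (b (a (l 16723904) (l 16724640)) (l 22)) (l 16730328)) (c (b (l 16728336) (l 22)) (l 16731848))) (c (a (c (b (l 16730008) (l 22)) (l 16733912)) (b (l 16734064) (l 16734480))) (a (l 16733416) (l 16735024))))) (c (c (a (c (l 17175504) (l 22)) (l 22)) (l 22)) (c (c (l 22) (a (l 22) (a (a (l 16739888) (l 16740536)) (a (l 16741192) (l 16736616))))) (b (a (a (l 16729824) (l 16731184)) (a (l 16732576) (l 16734016))) (a (a (l 16738256) (l 16734256)) (a (l 16735544) (l 16736872))))))), by decide +kernel⟩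

def k46_B00pm_011_s3 : ∃ t, chk3 f_B00pm_011_s3 t 116 255 1 = true :=
  ⟨(c (c (c (a (l 17256568) (l 22)) (l 22)) (l 22)) (b (c (l 22) (a (a (b (l 16736024) (l 16744536)) (b (l 16736584) (l 16739792))) (a (b (l 16737152) (l 16740304)) (b (l 16737728) (l 16740824))))) (b (c (l 22) (b (a (a (l 16741752) (l 16742208)) (a (l 16742680) (l 16743160))) (a (a (c (l 22) (l 16742864)) (l 16746448)) (a (l 16744272) (l 16744720))))) (a (c (l 22) (c (l 22) (a (b (l 16744488) (b (l 16745704) (a (l 16746464) (l 16746648)))) (a (b (l 16744816) (b (l 16746024) (l 16746832))) (b (l 16745024) (b (l 16746224) (l 16747024))))))) (c (l 22) (a (c (l 22) (b (l 16745320) (b (l 16746496) (a (l 16747224) (l 16747416))))) (a (b (l 16746208) (c (l 22) (l 16749856))) (b (l 16746424) (c (c (l 22) (l 16748272)) (l 16747440)))))))))), by decide +kernel⟩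

def k47_B00pm_011_s3 : ∃ t, chk3 f_B00pm_011_s3 t 117 255 1 = true :=
  ⟨(b (b (c (l 22) (a (c (a (l 22) (l 16740328)) (l 16743768)) (c (a (l 16740888) (l 16741456)) (l 16744984)))) (c (l 22) (a (c (l 22) (a (l 16741360) (l 16741904))) (c (a (c (l 22) (l 16743640)) (l 16747168)) (a (l 16742456) (l 16743024)))))) (b (c (l 22) (b (a (c (l 22) (a (l 16743648) (l 16744152))) (c (a (l 16749024) (l 16746880)) (a (l 16744664) (l 16745192)))) (a (c (l 22) (a (l 16745184) (l 16745656))) (a (c (l 22) (l 16746144)) (c (c (l 22) (l 16747992)) (l 16746640)))))) (a (c (l 22) (c (l 22) (a (a (b (l 16746640) (c (c (l 22) (l 16748472)) (l 16747648))) (b (l 16746864) (c (b (l 16748552) (l 16749336)) (l 16747864)))) (a (b (l 16747088) (c (b (l 16748760) (l 16749536)) (l 16748080))) (b (l 16747312) (c (b (l 16748968) (l 16749736)) (l 16748304))))))) (c (l 22) (a (c (l 22) (a (b (l 16747544) (c (b (l 16749176) (l 16749944)) (l 16748520))) (b (l 16747776) (c (b (l 16749392) (l 16750152)) (l 16748752))))) (b (c (c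 (l 22) (a (l 16749456) (l 16749672))) (c (l 16748568) (l 16747616))) (c (c (l 22) (a (l 22) (b (l 16750824) (c (l 22) (l 16751344))))) (b (c (l 16749688) (l 16748688)) (c (a (l 16750368) (l 16750584)) (l 16749416)))))))))), by decide +kernel⟩

def k48_B00pm_011_s3 : ∃ t, chk3 f_B00pm_011_s3 t 118 252 1 = true :=
  ⟨(c (c (a (c (b (a (l 16786360) (c (l 16871496) (l 542691855))) (a (l 16801432) (a (l 16782328) (l 16769544)))) (b (a (b (l 16774544) (l 16774152)) (b (l 16753832) (l 16751528))) (a (b (l 16773728) (l 16773272)) (b (l 16749192) (l 16746824))))) (b (a (b (l 16767952) (l 16767944)) (b (l 534293263) (l 16766552))) (a (b (l 16767896) (l 16767824)) (b (l 16764384) (l 535599887))))) (a (b (a (l 533206543) (l 533311759)) (a (b (l 16761944) (l 16759408)) (l 533352463))) (b (a (l 533282831) (l 533254159)) (a (l 533323535) (l 533294863))))) (a (a (a (l 533205263) (l 533191439)) (a (l 533177615) (l 533230863))) (a (a (l 533284367) (l 533270543)) (a (l 533256975) (l 533243407))))), by decide +kernel⟩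

def k49_B00pm_011_s3 : ∃ t, chk3 f_B00pm_011_s3 t 118 253 1 = true :=
  ⟨(b (a (c (a (c (b (l 16771744) (b (l 16774408) (a (l 16763544) (l 16769168)))) (b (l 16756896) (b (l 16754904) (l 16752456)))) (c (b (c (l 16784912) (l 16744432)) (b (l 16765992) (a (l 16769544) (l 16769872)))) (b (l 16758448) (b (l 16735584) (l 16744336))))) (b (l 533368847) (b (l 16744824) (a (l 16741680) (l 16744032))))) (c (a (c (b (l 16767712) (b (l 16767608) (l 16767592))) (b (l 16760024) (l 16746888))) (c (b (c (l 16770192) (l 16761760)) (c (l 16772592) (l 16759192))) (l 533335567))) (b (l 533313807) (a (l 16746600) (l 16737824))))) (a (a (c (c (b (c (l 16830944) (l 16755208)) (c (l 16842264) (l 16759704))) (a (c (l 16746504) (l 16746464)) (c (l 16746928) (l 16746896)))) (l 16736104)) (c (b (b (c (l 16769592) (a (l 16750400) (l 16752032))) (c (l 16772704) (a (l 16746552) (l 16747504)))) (c (c (l 16809368) (l 16756120)) (l 16749096))) (b (b (l 16751024) (l 16746800)) (l 16748888)))) (b (c (b (c (b (a (c (l 16805960)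 (l 16755488)) (l 16766816)) (a (l 16779248) (c (l 16774984) (l 16756448)))) (a (l 16754392) (l 16746232))) (a (c (l 16770440) (b (l 16751104) (l 16748848))) (c (l 16767280) (b (l 16754368) (l 16752128))))) (a (l 16741624) (c (l 16744400) (l 16744264)))) (c (c (a (c (l 16775424) (l 16750000)) (c (l 16771880) (l 16750816))) (a (l 16749928) (l 16750776))) (l 16739736))))), by decide +kernel⟩

def k50_B00pm_011_s3 : ∃ t, chk3 f_B00pm_011_s3 t 119 252 1 = true :=
  ⟨(a (a (c (c (b (b (l 534035471) (l 534324751)) (b (c (l 16761680) (l 16768640)) (l 16766032))) (b (l 533225487) (l 533266191))) (b (l 533204239) (l 532975119))) (c (b (b (l 533999631) (l 534556943)) (c (b (l 534584335) (c (l 16766880) (l 16757200))) (l 533237775))) (b (l 533177359) (l 533216527)))) (b (c (a (a (l 534524943) (l 534510607)) (a (l 534227983) (l 533139983))) (a (l 533150479) (l 533123855))) (c (a (c (b (l 534018319) (c (l 16769440) (l 16758904))) (l 533209359)) (c (b (l 533183759) (l 534278159)) (l 533181199))) (a (l 533189647)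 (l 533163023))))), by decide +kernel⟩

def k51_B00pm_011_s3 : ∃ t, chk3 f_B00pm_011_s3 t 119 253 1 = true :=
  ⟨(b (c (c (c (a (a (b (l 16772856) (l 16773152)) (b (l 16775336) (l 16773272))) (a (b (l 16766768) (b (l 16764784) (l 16763464))) (b (c (l 16768488) (l 16768464)) (b (l 16766464) (l 16765128))))) (a (a (b (l 16763384) (l 16760784)) (b (l 16765032) (l 16762408))) (a (l 533159695) (l 533130511)))) (a (a (l 533306895) (l 533278223)) (a (l 533249807) (l 533221391)))) (a (a (l 533014543) (l 532987407)) (a (l 533228815) (l 533202191)))) (a (b (c (c (b (a (c (l 16783872) (l 16758800)) (l 16760488)) (c (a (b (l 16773768) (l 16785192)) (b (l 16770936) (a (l 16758512) (l 16782728)))) (a (a (l 16755840) (l 16757216)) (l 16758776)))) (b (l 16748960) (a (l 16745888) (l 16748176)))) (a (b (l 16737448) (l 16745680)) (l 16748616))) (c (a (a (c (c (l 16776384) (l 16751432)) (l 16751424)) (c (b (b (l 16775040) (c (l 16778496) (l 16772752))) (l 16752632)) (l 16751848))) (b (c (c (l 16771384) (b (l 16756528)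 (l 16754280))) (l 16755344)) (c (c (l 16772776) (l 16753232)) (l 16753216)))) (a (l 16751616) (b (l 16755224) (l 16753184))))) (b (b (c (c (a (l 16762120) (l 16763768)) (l 16752328)) (l 16752136)) (c (c (a (l 16760784) (l 16762448)) (l 16750952)) (l 16750760))) (c (b (c (a (a (a (l 16757544) (l 16758312)) (b (l 16760064) (l 16758456))) (a (a (l 16760160) (l 16760680)) (l 16761392))) (a (b (l 16759288) (l 16757528)) (l 16750184))) (b (c (b (a (a (l 16755080) (l 16756744)) (l 16759264)) (a (a (l 16753952) (l 16755616)) (l 16758112))) (l 16746496)) (a (c (l 16754432) (l 16754432)) (a (l 16755576) (l 16757232))))) (a (l 16745824) (b (l 16750000) (l 16757432))))))), by decide +kernel⟩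

def k52_B00pm_011_s3 : ∃ t, chk3 f_B00pm_011_s3 t 59 254 1 = true :=
  ⟨(a (b (c (b (b (b (c (a (a (l 16774608) (l 16760656)) (a (l 16766504) (l 16771152))) (a (l 16729624) (l 16731232))) (l 22)) (l 22)) (l 22)) (a (c (a (l 16736808) (l 16737592)) (l 16736664)) (a (l 16738184) (c (l 16744440) (l 16733584))))) (c (l 22) (b (a (c (l 16738920) (l 16735496)) (l 16739992)) (a (c (l 16741872) (l 16738240)) (c (l 16743184) (l 16739648)))))) (b (b (b (c (a (c (a (l 16764488) (l 16765272)) (l 16743728)) (c (a (c (l 16755592) (l 16755552)) (l 16756376)) (l 16745400))) (a (l 16743512) (l 16745312))) (a (c (c (l 22) (l 16745176)) (l 16734320)) (c (c (l 22) (l 16746792)) (l 16746552)))) (a (c (c (l 22) (a (l 16736568) (l 16737320))) (c (l 16736472) (l 16736064))) (c (c (l 22) (a (l 16738088) (l 16738864))) (l 16743176)))) (c (c (l 22) (c (l 22) (b (a (l 16742272) (l 16743704)) (a (l 16745152) (l 16746480))))) (a (a (l 16745168) (l 16745912)) (a (l 16746664) (l 16747424)))))), by decide +kernel⟩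

def k53_B00pm_011_s3 : ∃ t, chk3 f_B00pm_011_s3 t 59 255 2 = true :=
  ⟨(a (l 22) (c (l 22) (c (l 22) (a (b (a (l 22) (b (l 16745880) (l 22))) (l 22)) (a (b (b (l 16746488) (l 16749352)) (b (b (l 16751504) (l 22)) (l 22))) (b (b (l 16747112) (l 16749920)) (b (b (l 16752032) (l 16753440)) (b (a (l 16754808) (l 16755040)) (a (l 22) (b (l 16756104) (a (l 22) (l 16756896)))))))))))), by decide +kernel⟩

def k54_B00pm_011_s3 : ∃ t, chk3 f_B00pm_011_s3 t 118 255 3 = true :=
  ⟨(b (b (a (a (l 16744032) (l 16744656)) (a (l 16742664) (l 16743304))) (a (c (a (l 16747696) (l 16748240)) (a (l 16743600) (l 16744192))) (c (a (l 16746168) (l 16746728)) (a (l 16744792) (l 16745400))))) (b (a (a (c (c (l 22) (b (l 16746952) (l 16748456))) (l 16749064)) (c (c (l 22) (l 16750824)) (l 16749592))) (a (c (a (l 16751640) (l 16751896)) (l 16750144)) (c (a (l 16752144) (l 16752400)) (l 16748080)))) (a (a (b (c (c (l 22) (b (l 16749592) (l 16750344))) (l 16751200)) (c (c (l 22) (c (l 22) (b (l 16750856) (a (l 16751552)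 (l 16751760))))) (b (c (l 16750136) (l 16749168)) (c (a (l 16750800) (l 16751016)) (l 16749872))))) (b (c (c (l 22) (b (l 16750048) (l 16750792))) (l 16751688)) (c (c (l 22) (a (c (l 22) (l 16751608)) (b (l 16751688) (l 16752432)))) (a (a (l 16752976) (l 16753088)) (b (l 16750280) (l 16750984)))))) (a (a (b (c (l 16753872) (l 16749488)) (c (c (l 22) (b (l 16751912) (l 16752648))) (b (l 16750528) (l 16751224)))) (b (c (l 16754104) (l 16749744)) (c (c (l 22) (b (l 16752136) (l 16752864))) (b (l 16750776) (l 16751464))))) (a (b (c (l 16751712) (l 16750008)) (c (c (l 22) (b (l 16752368) (l 16753088))) (b (l 16751024) (l 16751704)))) (b (c (l 16751952) (l 16750264)) (c (c (b (l 16753480) (c (l 22) (l 16753992))) (b (l 16752600) (l 16753312))) (b (l 16751272) (l 16751952))))))))), by decide +kernel⟩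

def k55_B00pm_011_s3 : ∃ t, chk3 f_B00pm_011_s3 t 119 255 3 = true :=
  ⟨(a (b (a (c (b (l 16744480) (l 16747296)) (l 16749976)) (c (b (l 16745120) (l 16747880)) (l 16750632))) (b (a (c (a (l 16750040) (l 16750304)) (l 16748648)) (c (a (l 16750568) (l 16750832)) (l 16749224))) (a (a (b (c (l 16752184) (l 16750528)) (b (c (l 16753264) (l 16751528)) (c (c (c (l 22) (l 16754216)) (l 16753544)) (l 16752200)))) (b (c (l 16752432) (l 16750800)) (b (c (l 16753496) (l 16751784)) (c (c (c (l 22) (l 16754432)) (l 16753776)) (l 16752448))))) (a (b (c (l 16752672) (l 16751072)) (b (c (l 16753728) (l 16752048)) (c (c (c (l 22) (l 16754656)) (l 16754008)) (l 16752704)))) (b (c (l 16752920) (l 16751344)) (b (c (l 16753968) (l 16752312)) (c (c (c (l 16755312) (l 16754888)) (l 16754240)) (l 16752960)))))))) (b (a (c (b (l 16745768) (l 16748472)) (l 16751304)) (c (b (l 16746424) (l 16749080)) (l 16751984))) (b (a (c (a (l 16751104) (l 16751376)) (l 16749816)) (c (b (l 16751072) (l 16752408)) (l 16750416))) (a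 (a (b (c (l 16753168) (l 16751624)) (c (b (l 16754208) (b (l 16754728) (a (l 16755032) (l 16755152)))) (l 16755528))) (b (c (l 16753424) (l 16751896)) (c (b (l 16754448) (b (l 16754968) (a (l 16755264) (l 16755384)))) (l 16755792)))) (c (b (a (l 16753680) (l 16753936)) (a (b (l 16754696) (c (c (l 16755992) (l 16755584)) (l 16754976))) (c (b (l 16755336) (l 16756024)) (l 16754896)))) (b (l 16752264) (a (l 16753440) (l 16753712)))))))), by decide +kernel⟩

def k56_B00pm_011_s3 : ∃ t, chk3 f_B00pm_011_s3 t 30 62 1 = true :=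
  ⟨(b (l 4) (a (a (b (b (l 4) (b (a (a (l 533515791) (l 532951823)) (l 4)) (a (c (a (l 533006863) (l 532978703)) (l 533243919)) (a (l 532944655) (l 4))))) (a (b (b (a (c (l 533027343) (l 533010447)) (l 532991503)) (a (c (l 533047567) (l 533029903)) (l 532944399))) (a (c (a (l 533084943) (l 533070863)) (l 533058063)) (a (a (l 533051663) (l 533045007)) (l 532967183)))) (a (a (b (l 532981007) (l 532953615)) (b (l 532967439) (l 533007375))) (a (b (l 532954127) (l 532993807)) (b (l 532940559) (l 532980239)))))) (b (l 4) (a (b (a (a (l 532927247) (l 532913935)) (a (l 532967695) (l 4))) (a (a (l 532966927) (l 532953359)) (a (l 532940047) (l 532926735)))) (b (l 4) (a (b (l 533031183) (l 533185295)) (b (l 4) (c (l 533161487) (l 532887311)))))))) (a (b (l 4) (a (b (l 4) (a (a (c (l 533130511) (l 533126671)) (l 4)) (l 4))) (l 4))) (l 4)))), by decide +kernel⟩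

def k57_B00pm_011_s3 : ∃ t, chk3 f_B00pm_011_s3 t 60 252 1 = true :=
  ⟨(a (a (b (a (c (a (l 533125647) (l 533111567)) (l 533097231)) (c (a (l 533097231) (l 533083151)) (l 533070863))) (b (c (a (l 533149199) (l 533120783)) (l 533179919)) (a (a (l 533165583) (l 533151759)) (a (l 533138191) (l 532856079))))) (b (c (a (a (l 533069071) (l 533054991)) (a (l 533040911) (l 533027087))) (a (l 533044495) (l 533018383))) (c (a (a (l 533109519) (l 533095439)) (a (l 533081359) (l 533067535))) (a (l 533083407) (l 533057295))))) (a (b (a (a (l 533006351) (l 532993039)) (a (l 532979471) (l 532966159))) (b (a (l 533029647) (l 533002767)) (a (l 532982287) (l 533022479)))) (b (a (a (l 532952847) (l 532939535)) (a (l 533060367) (l 533047055))) (a (a (l 532992271) (l 532978959)) (a (l 532965647) (l 533019407)))))), by decide +kernel⟩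

def k58_B00pm_011_s3 : ∃ t, chk3 f_B00pm_011_s3 t 60 253 1 = true :=
  ⟨(a (b (a (c (a (c (c (b (l 533198863) (l 533051663)) (l 533135119)) (l 533193231)) (b (l 533027343) (a (l 16758240) (l 16759120)))) (a (l 533175311) (l 533148943))) (c (a (a (l 533015823) (l 533001743)) (a (l 533121807) (l 533107983))) (a (l 533122319) (l 533096207)))) (a (b (c (b (a (l 16754920) (l 16756632)) (a (l 16753576) (l 16755280))) (l 533190927)) (c (a (c (c (c (c (b (l 16762832) (b (a (l 16761032) (l 16762120)) (a (l 16779920) (l 16781624)))) (b (l 16762816) (b (l 16761480) (a (l 16779912) (l 16760640))))) (c (b (l 16741832) (b (l 16761464) (a (l 16779904) (l 16760632)))) (b (l 16741816) (b (l 16761448) (l 16759792))))) (b (l 16741776) (b (l 16761416) (l 16759768)))) (b (l 16741688) (b (l 16761336) (l 16759704)))) (a (b (l 16763984) (a (l 16751656) (l 16762664))) (c (l 16753600) (l 16753504)))) (a (c (l 16750752) (l 16750656)) (l 16752768)))) (c (a (c (b (l 533178895) (l 533031695)) (l 533177615)) (b (l 533011215)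 (a (l 16756264) (l 16757136)))) (a (l 533161487) (l 533134863))))) (a (b (c (a (a (l 533093903) (l 533079823)) (a (l 533065999) (l 533051919))) (a (l 533069839) (l 533043727))) (c (a (a (l 533134095) (l 533120271)) (a (l 533106191) (l 533092111))) (a (l 533108751) (l 533082639)))) (b (a (a (l 532964623) (l 532984847)) (a (l 532971535) (l 532991759))) (b (a (l 532987663) (l 532994575)) (c (a (l 533081615) (l 533053967)) (l 533320975)))))), by decide +kernel⟩

def k59_B00pm_011_s3 : ∃ t, chk3 f_B00pm_011_s3 t 120 254 1 = true :=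
  ⟨(b (a (c (a (b (c (a (l 16757728) (l 16758128)) (l 16757872)) (c (l 22) (l 16739648))) (c (a (b (a (l 16758432) (l 16758632)) (l 22)) (c (a (b (b (l 16760160) (l 22)) (l 22)) (c (a (b (b (l 16760816) (l 22)) (l 22)) (c (a (b (b (b (l 16741280) (l 22)) (l 22)) (l 22)) (b (b (b (l 16741472) (l 22)) (l 22)) (l 22))) (b (b (b (l 16741360) (l 22)) (l 22)) (l 22)))) (b (b (l 16761032) (l 22)) (l 22)))) (b (b (l 16760600) (l 22)) (l 22)))) (a (l 16749392) (l 16749728)))) (a (c (l 16748616) (l 16748464)) (b (l 16748160) (l 16740128)))) (b (c (a (b (c (c (c (b (b (l 16763904) (l 22)) (l 22)) (b (l 16763528) (l 22))) (l 16752200)) (l 16752144)) (l 16749752)) (a (b (l 16753968) (c (l 22) (l 16761112))) (b (l 16755000) (l 16752344)))) (a (l 16750208) (c (l 16752808) (l 16752760)))) (c (c (l 22) (a (l 16751728) (l 16752544))) (a (l 16740992) (l 16752360))))) (c (c (l 22) (a (b (a (l 16742400) (l 16743144)) (a (l 16745176) (l 16745856))) (b (a (l 16743896) (l 16744656)) (a (l 16746552) (l 16747264)))))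 (a (a (l 16748200) (l 16748976)) (a (l 16749768) (l 16750568))))), by decide +kernel⟩

def k60_B00pm_011_s3 : ∃ t, chk3 f_B00pm_011_s3 t 121 254 1 = true :=
  ⟨(b (a (b (a (c (b (l 16756384) (a (l 16753808) (b (l 16745248) (l 16754504)))) (c (l 16755056) (l 16755000))) (b (l 533116687) (a (a (l 16755840) (l 16756360)) (l 16757104)))) (b (a (c (l 16752744) (l 16752688)) (c (a (l 16763856) (l 16754624)) (l 16753792))) (c (a (l 16754064) (l 16754856)) (l 16754200)))) (a (a (b (l 533101583) (c (b (l 16756040) (l 16755472)) (l 16754816))) (b (l 533088015) (c (b (l 16757240) (l 16755880)) (l 16755520)))) (b (c (l 533073935) (l 16760984)) (b (c (c (l 16758784) (l 16758744)) (l 16758680)) (c (a (l 16756280) (l 16756952)) (l 16756456)))))) (a (b (b (c (a (l 16744896) (l 16745664)) (l 16750040)) (c (a (l 16746216) (l 16746960)) (l 16745880))) (c (a (c (l 22) (l 16747976)) (c (l 16751752) (l 16748704))) (l 16752760))) (c (a (a (b (l 16757400) (l 16754728)) (b (l 16757784) (l 16749848))) (b (a (l 16758176)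 (l 16758568)) (a (l 16750208) (l 16750576)))) (b (a (l 16746712) (l 16758072)) (a (l 16748864) (l 16749704)))))), by decide +kernel⟩

def k61_B00pm_011_s3 : ∃ t, chk3 f_B00pm_011_s3 t 240 255 1 = true :=
  ⟨(c (b (c (l 22) (a (b (l 16747960) (c (l 22) (l 16750496))) (b (l 16748592) (l 16753960)))) (c (l 22) (c (l 22) (b (a (b (l 16752568) (l 16753952)) (b (l 16753112) (l 16754472))) (b (a (a (l 16755288) (l 16755528)) (a (l 16755776) (l 16756032))) (a (b (a (l 16756336) (l 16756576)) (c (l 22) (a (l 16756848) (l 16757080)))) (a (b (l 16756808) (c (l 22) (l 16757312))) (b (l 16757056) (a (l 16757696) (l 16757816)))))))))) (b (a (b (l 16746664) (l 16754400)) (b (l 16747360) (l 16755048))) (c (b (a (b (l 16751648) (l 16752952)) (b (l 16752232) (l 16753512))) (a (b (a (l 16754200) (l 16754464)) (a (c (b (l 16755576) (l 16756256)) (l 16755152)) (c (b (l 16755824) (l 16756504)) (l 16755408)))) (b (a (l 16754736) (l 16755000)) (a (c (b (l 16756080) (l 16756744)) (l 16755664)) (c (b (l 16756328) (l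 16756992)) (l 16755928)))))) (b (a (l 16751024) (l 16751648)) (a (b (l 16752840) (a (l 16753984) (l 16754264))) (b (l 16753424) (a (l 16754544) (l 16754824)))))))), by decide +kernel⟩

def k62_B00pm_011_s3 : ∃ t, chk3 f_B00pm_011_s3 t 241 255 1 = true :=
  ⟨(c (b (c (l 22) (a (b (l 16749232) (l 16754544)) (b (l 16749880) (l 16755144)))) (b (c (l 22) (a (a (c (l 22) (l 16754264)) (l 16757456)) (a (l 16757728) (l 16758000)))) (b (c (l 22) (c (a (l 22) (a (l 16757440) (l 16757696))) (a (a (l 16756280) (l 16756536)) (a (l 16756800) (l 16757056))))) (c (l 22) (c (a (l 22) (a (l 22) (b (l 16758712) (c (l 22) (b (l 16759048) (l 16759392)))))) (a (a (b (l 16757296) (a (l 16757936) (l 16758056))) (b (l 16757544) (a (l 16758176) (l 16758296)))) (a (b (l 16757792) (a (l 16758416) (l 16758536))) (b (l 16758040) (c (l 16758880) (l 16758528)))))))))) (b (a (b (l 16748080) (l 16755704)) (b (l 16748800) (l 16756376))) (b (a (c (b (l 16752824) (l 16754080)) (l 16752280)) (c (a (l 16753968) (l 16754264)) (l 16752920)))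 (a (a (b (l 16757224) (c (b (l 16756232) (c (l 16757240) (l 16756504))) (l 16755112))) (b (l 16757512) (c (b (l 16756496) (c (l 16757496) (l 16756776))) (l 16755400)))) (a (b (l 16757808) (c (b (l 16756768) (c (l 16757752) (l 16757040))) (l 16755696))) (b (l 16758104) (c (b (l 16757040) (c (l 16758008) (l 16757312))) (l 16755984)))))))), by decide +kernel⟩

def k63_B00pm_011_s3 : ∃ t, chk3 f_B00pm_011_s3 t 121 510 2 = true :=
  ⟨(a (c (b (a (l 22) (c (l 16754616) (l 16751688))) (l 22)) (a (b (l 16750544) (l 16755744)) (b (l 16751216) (l 16756360)))) (a (a (b (l 16754696) (c (l 16757696) (l 16754280))) (b (l 16755032) (c (l 16757984) (l 16754600)))) (b (c (l 16755784) (l 16752624)) (c (a (l 16758288) (l 16758600)) (l 16757680))))), by decide +kernel⟩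

def k64_B00pm_011_s3 : ∃ t, chk3 f_B00pm_011_s3 t 242 511 2 = true :=
  ⟨(b (c (l 22) (a (a (l 16758280) (l 16758560)) (a (l 16758848) (l 16759128)))) (b (c (l 22) (a (a (c (l 16757944) (l 16757328)) (c (l 16758200) (l 16757592))) (a (c (l 16758456) (l 16757864)) (l 16758424)))) (c (l 22) (a (a (c (b (l 16758952) (c (l 22) (b (l 16759288) (l 16759632)))) (b (l 16758296) (c (l 16759120) (l 16758784)))) (c (b (l 16759200) (c (l 22) (b (l 16759536) (l 16759864)))) (b (l 16758552) (c (l 16759368) (l 16759032))))) (a (c (b (l 16759448) (c (l 22) (b (l 16759776) (l 16760112)))) (b (l 16758816) (c (l 16759616) (l 16759288)))) (a (b (l 16759344) (c (l 16760320) (l 16759672))) (b (l 16759480) (c (l 16760440) (l 16759800))))))))), by decide +kernel⟩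

def k65_B00pm_011_s3 : ∃ t, chk3 f_B00pm_011_s3 t 243 511 2 = true :=
  ⟨(b (a (a (c (l 22) (l 16759424)) (b (l 16759544) (c (l 22) (l 16757712)))) (a (b (l 16759832) (c (l 16758992) (l 16758000))) (c (c (b (l 16758168) (l 16759512)) (l 16761008)) (l 16760320)))) (b (a (c (l 22) (a (l 16758696) (l 16758968))) (c (a (b (l 16759992) (l 22)) (c (b (l 16760528) (l 16761200)) (l 16760336))) (a (l 16759240) (l 16759536)))) (c (c (a (l 22) (a (l 22) (a (b (l 16761832) (l 22)) (a (b (l 16761928) (b (l 16762432) (l 22))) (b (l 16761984) (b (l 16762496) (b (l 16762744) (b (l 16762872) (c (c (l 16763184) (l 16763032)) (l 16762808)))))))))) (a (l 22) (a (l 22) (a (b (l 16761256) (l 22)) (b (l 16761392) (b (l 16761880) (b (l 16762120) (b (l 16762248) (l 16762328))))))))) (a (a (a (b (l 16759608) (c (l 16760568) (l 16759928))) (b (l 16759736) (c (l 16760688) (l 16760064)))) (a (b (l 16759872) (c (l 16760816) (l 16760192))) (b (l 16760000) (c (l 16760936) (l 16760328))))) (b (a (l 16760176) (c (l 16760744)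 (l 16760176))) (b (a (c (l 16760936) (l 16760344)) (c (l 16761216) (l 16760632))) (a (c (c (l 16761408) (l 16761104)) (l 16760648)) (a (c (l 16761480) (l 16760880)) (c (c (l 16761760) (l 16761464)) (l 16761016)))))))))), by decide +kernel⟩

def k66_B00pm_011_s3 : ∃ t, chk3 f_B00pm_011_s3 t 121 255 3 = true :=
  ⟨(b (b (a (a (l 16749528) (l 16750272)) (a (l 16751024) (l 16751824))) (a (a (l 16751816) (l 16752504)) (a (l 16758448) (l 16759208)))) (a (b (a (a (l 16756648) (l 16756968)) (a (l 16757288) (l 16757608))) (a (a (b (l 16758400) (c (b (l 16757312) (c (l 16758272) (l 16757584))) (l 16756288))) (b (l 16758696) (c (b (l 16757592) (c (l 16758536) (l 16757864))) (l 16756584)))) (a (b (l 16759000) (c (b (l 16757872) (c (l 16758800) (l 16758144))) (l 16756888))) (b (l 16759304) (c (b (l 16758152) (c (l 16759072) (l 16758424))) (l 16757192)))))) (b (a (a (l 16757936) (l 16758264)) (a (l 16758600) (l 16758952))) (a (a (b (l 16759608) (c (b (l 16758432) (c (l 16759344) (l 16758712))) (l 16757504)))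 (b (l 16757304) (c (b (l 16758720) (c (l 16759616) (l 16759000))) (l 16757808)))) (a (b (l 16757616) (c (a (l 16759264) (l 16759408)) (l 16758120))) (b (l 16760568) (c (a (l 16759552) (b (l 16759416) (b (l 16759840) (l 16760128)))) (b (l 16758192) (b (l 16758584) (l 16758840)))))))))), by decide +kernel⟩

def k67_B00pm_011_s3 : ∃ t, chk3 f_B00pm_011_s3 t 122 126 1 = true :=
  ⟨(b (a (b (a (b (l 533017615) (l 533037327)) (a (c (l 533143311) (l 533139727)) (l 533094927))) (b (a (l 533057039) (l 533030671)) (a (l 533076751) (a (l 532923663) (l 532910607))))) (b (b (l 4) (a (c (l 533119503) (l 533117967)) (a (l 532866319) (l 4)))) (a (a (a (l 532890127) (l 533152015)) (l 533107727)) (a (a (l 533132303) (l 533134351)) (l 533173007))))) (a (b (b (a (l 533096463) (a (l 532943375) (l 532930063))) (a (l 532981775) (a (l 532962831) (l 532949775)))) (a (a (l 532984079) (l 533004303)) (a (l 532990991) (a (l 532981775) (l 532975119))))) (b (b (a (c (l 533179663) (l 532907279)) (c (l 533152527) (l 533150479)))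 (a (c (l 533199631) (l 532926479)) (c (l 533172495) (l 533169679)))) (b (a (a (l 532956175) (l 532943119)) (a (l 532929807) (l 532916751))) (c (a (l 533239823) (l 533212431)) (a (l 532964879) (l 532939535))))))), by decide +kernel⟩

def k68_B00pm_011_s3 : ∃ t, chk3 f_B00pm_011_s3 t 122 254 1 = true :=
  ⟨(b (b (a (a (l 533007119) (l 533014031)) (c (a (l 533259791) (l 533232399)) (a (l 532984079) (l 532958735)))) (a (b (a (l 533056015) (l 533029391)) (a (c (a (l 16758320) (l 16759496)) (l 16758784)) (a (l 16760552) (l 16761608)))) (a (l 533024015) (a (l 532988431) (l 532975375))))) (a (a (c (b (a (l 16758960) (l 16759368)) (a (l 16750952) (l 16751344))) (b (l 16758952) (l 16750536))) (c (a (b (a (l 16759664) (l 16759824)) (l 16751728)) (b (a (l 16759984) (l 16760192)) (l 16752104))) (b (a (l 16759592) (l 16760000)) (l 16751416)))) (b (a (c (b (a (l 16760632) (l 16761800)) (l 16761360)) (a (l 16760576) (l 16761288))) (a (b (c (l 16762888) (l 16762856)) (c (l 16761904) (l 16761856))) (b (l 16763920)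 (c (l 16762432) (l 16762416))))) (b (c (a (l 16752072) (l 16752848)) (l 16757440)) (c (a (l 16753280) (l 16754032)) (l 16753192)))))), by decide +kernel⟩

def k69_B00pm_011_s3 : ∃ t, chk3 f_B00pm_011_s3 t 122 510 1 = true :=
  ⟨(c (c (a (b (a (l 16756464) (l 16757208)) (a (a (l 16758920) (l 16756648)) (c (l 16759928) (l 16756992)))) (b (a (l 16757912) (l 16758608)) (a (c (l 16760584) (l 16757664)) (c (l 16761224) (l 16758336))))) (a (a (b (l 16753352) (l 16758360)) (b (l 16754144) (l 16756512))) (b (a (l 16754896) (l 16755640)) (a (l 16757224) (l 16757928))))) (a (a (b (l 16752624) (c (l 16755056) (l 16754376))) (b (l 16753480) (l 16755552))) (b (a (l 16754296) (l 16755112)) (a (l 16756336) (l 16757112))))), by decide +kernel⟩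

def k70_B00pm_011_s3 : ∃ t, chk3 f_B00pm_011_s3 t 244 511 4 = true :=
  ⟨(b (a (a (b (l 16758256) (l 16759568)) (b (l 16758592) (l 16759896))) (b (l 16759080) (c (l 16760584) (l 16760144)))) (b (a (a (c (b (l 16760800) (l 16761472)) (l 16760624)) (b (l 16760880) (l 16761536))) (c (b (l 16761576) (l 16762232)) (b (l 16761096) (l 16761736)))) (a (a (b (a (a (l 16761776) (l 16761848)) (a (l 16761928) (l 16762000))) (a (a (c (b (l 16762560) (b (l 16762816) (a (b (l 16762920) (c (l 16763160) (l 16762856))) (l 16763000)))) (b (l 16761984) (b (l 16762224) (l 16762392)))) (c (c (b (l 16762776) (l 16763120)) (l 16762656)) (l 16762224))) (b (c (l 16762744) (l 16762176)) (c (c (c (b (l 16763216) (l 16763384)) (l 16763152)) (l 16762936)) (l 16762496))))) (c (b (l 16762464) (c (b (l 16763104) (b (l 16763352) (b (l 16763480) (a (l 16763496) (l 16763640))))) (b (l 16762824) (a (l 16763080) (l 16763224))))) (b (l 16761920) (b (l 16762400) (a (l 16762648) (l 16762800)))))) (c (a (b (l 16762752) (c (b (l 16763384)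 (b (l 16763640) (b (l 16763768) (a (l 16763776) (l 16763920))))) (b (l 16763112) (a (l 16763368) (l 16763512))))) (b (l 16763040) (c (b (l 16763672) (b (l 16763920) (b (l 16764040) (a (l 16764056) (l 16764192))))) (b (l 16763400) (a (l 16763656) (l 16763800)))))) (b (c (l 16762504) (l 16762240)) (b (c (l 16762984) (l 16762712)) (a (a (l 16762944) (l 16763096)) (b (l 16763232) (a (l 16763320) (l 16763464)))))))))), by decide +kernel⟩

def k71_B00pm_011_s3 : ∃ t, chk3 f_B00pm_011_s3 t 245 511 4 = true :=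
  ⟨(b (a (b (l 16759712) (c (l 16761192) (l 16760776))) (b (l 16760336) (c (l 16761784) (l 16761392)))) (b (a (c (b (l 16762160) (l 16762816)) (b (l 16761712) (l 16762336))) (b (l 16762528) (a (l 16763008) (l 16763296)))) (a (b (a (c (l 16763320) (l 16762816)) (c (l 16763608) (l 16763112))) (c (a (a (b (l 16763744) (b (l 16763992) (b (l 16764112) (c (l 16764336) (l 16764056))))) (b (l 16763880) (b (l 16764128) (b (l 16764248) (c (l 16764472) (l 16764200)))))) (c (b (l 16764216) (a (c (b (l 16764464) (l 16764632)) (l 16764416)) (c (b (l 16764600) (l 16764760)) (l 16764552)))) (b (l 16763960) (b (l 16764208) (a (l 16764296) (l 16764432)))))) (b (c (l 16763568) (l 16763304)) (c (b (l 16763800) (a (l 16763816) (l 16764104))) (a (l 16763472) (l 16763760)))))) (b (a (c (l 16763880) (l 16763400)) (c (l 16764160) (l 16763688))) (c (a (c (a (b (l 16764424) (c (b (l 16764728) (l 16764896)) (l 16764688))) (b (l 16764560) (c (b (l 16764864) (l 16765032)) (l 16764816)))) (b (l 16764240) (b (l 16764480) (a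 (l 16764568) (l 16764704))))) (c (b (l 16764760) (a (c (b (l 16765000) (l 16765160)) (l 16764952)) (b (l 16765064) (a (l 16765192) (l 16765264))))) (b (l 16764512) (b (l 16764752) (a (l 16764840) (l 16764976)))))) (b (c (l 16764128) (l 16763880)) (c (b (l 16764368) (a (l 16764384) (l 16764656))) (a (l 16764048) (l 16764336))))))))), by decide +kernel⟩

def k72_B00pm_011_s3 : ∃ t, chk3 f_B00pm_011_s3 t 122 511 5 = true :=
  ⟨(a (b (a (a (l 16760640) (l 16758384)) (b (l 16758296) (l 16759488))) (b (a (a (l 16759840) (l 16760192)) (c (l 16760928) (l 16760440))) (a (a (b (c (l 16761032) (l 16760480)) (a (a (b (l 16761112) (b (l 16761344) (l 16761496))) (l 16761352)) (c (l 16761760) (l 16761184)))) (b (l 16761104) (c (b (l 16761840) (l 16762152)) (l 16761432)))) (a (b (l 16761424) (c (b (l 16762152) (l 16762464)) (l 16761752))) (b (l 16761744) (c (b (l 16762456) (l 16762768)) (l 16762072))))))) (a (a (b (l 16759392) (b (l 16761168) (b (l 16762056) (c (b (l 16762760) (l 16763072)) (l 16762384)))))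 (b (l 16759728) (b (l 16761488) (b (l 16762368) (c (b (l 16763064) (c (l 16763496) (l 16763240))) (l 16762696)))))) (b (b (l 16759648) (l 16760800)) (b (c (l 16762176) (l 16761736)) (b (c (l 16763064) (l 16762592)) (c (b (l 16763512) (b (l 16763736) (a (l 16763736) (l 16764032)))) (b (l 16763016) (c (l 16763432) (l 16763176))))))))), by decide +kernel⟩

def k73_B00pm_011_s3 : ∃ t, chk3 f_B00pm_011_s3 t 122 511 3 = true :=
  ⟨(c (a (b (a (a (l 16757128) (l 16757512)) (l 16758056)) (a (a (b (l 16758808) (b (l 16759648) (a (b (l 16760000) (l 16760280)) (l 16760320)))) (b (l 16759176) (b (l 16760016) (l 16760576)))) (b (l 16759704) (b (l 16760536) (c (b (l 16761216) (l 16761504)) (l 16760816)))))) (a (b (l 16758776) (b (l 16760400) (b (l 16761208) (c (b (l 16761880) (l 16762160)) (l 16761496))))) (b (l 16762112) (b (l 16761080) (b (l 16761872) (c (b (l 16762520) (l 16762800)) (l 16762168))))))) (a (b (a (l 16759008) (l 16757224)) (b (a (l 16760520) (l 16758728)) (a (a (b (l 16758536) (c (l 16759344)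 (l 16758768))) (l 16759192)) (b (l 16759480) (l 16759992))))) (b (b (l 16757888) (l 16758864)) (b (b (l 16759592) (l 16760080)) (a (a (l 16760280) (l 16760640)) (b (l 16760920) (c (l 16761664) (l 16761160)))))))), by decide +kernel⟩

def k74_B00pm_011_s3 : ∃ t, chk3 f_B00pm_011_s3 t 123 126 1 = true :=
  ⟨(b (b (l 4) (a (a (a (a (l 533150223) (l 533155343)) (a (l 533160719) (l 533165839))) (b (l 4) (c (l 533444111) (l 533441551)))) (a (a (a (l 533325583) (l 4)) (l 4)) (l 4)))) (a (b (b (a (l 533187343) (a (l 532906767) (l 532917263))) (a (c (l 533153039) (l 533154063)) (a (l 532906255) (l 532916751)))) (b (a (l 533097231) (c (l 533174031) (l 533173775))) (c (a (l 533185295) (l 533139727)) (a (l 533182735) (l 533174031))))) (b (a (a (a (l 533190671) (l 533195791)) (b (l 533206543) (l 533206287))) (b (a (l 533217039) (l 533227023)) (a (l 533216527) (l 533226767)))) (a (c (a (a (l 533190671) (l 533196047)) (a (l 533201423) (l 533206799))) (a (l 533457423) (l 533466895))) (b (a (l 533216015) (l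 533226511)) (a (l 532947215) (l 533225999))))))), by decide +kernel⟩

def k75_B00pm_011_s3 : ∃ t, chk3 f_B00pm_011_s3 t 123 254 1 = true :=
  ⟨(a (b (b (a (c (l 533205263) (l 533201935)) (l 533110287)) (c (a (l 533225231) (l 533198095)) (a (l 532952591) (l 533195791)))) (b (a (b (l 532969999) (c (a (l 16763200) (l 16764152)) (a (l 16763208) (l 16764144)))) (a (a (b (l 16766552) (l 16765016)) (l 532952847)) (l 532942607))) (c (a (b (l 16758864) (l 16754784)) (b (a (l 16764648) (a (l 16765024) (l 16765368))) (l 16755536))) (a (l 16759216) (b (a (l 16764584) (l 16765192)) (l 16755304)))))) (b (a (a (a (l 533189391) (l 533194767)) (l 533233167)) (a (a (l 533210127) (l 533215503)) (a (l 533153551) (l 533158415)))) (b (a (l 533126671) (c (l 533214735) (l 533213967))) (a (c (b (a (c (l 16766024) (l 16766016)) (c (l 16766944) (l 16766936))) (l 16761544)) (b (a (l 16766008) (l 16766928)) (l 16761400))) (b (a (l 16762640) (l 16763688)) (a (l 16762056) (a (l 16762480) (l 16762848)))))))), by decide +kernel⟩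

def k76_B00pm_011_s3 : ∃ t, chk3 f_B00pm_011_s3 t 123 510 1 = true :=
  ⟨(a (a (c (a (b (l 16756352) (l 16761328)) (b (l 16756712) (l 16761664))) (b (l 16755920) (l 16757880))) (b (c (a (l 16757072) (l 16760056)) (l 16756736)) (c (a (l 16762000) (l 16762336)) (l 16758648)))) (b (b (c (a (l 16757416) (l 16758160)) (a (l 16757088) (l 16757920))) (c (a (l 16758528) (l 16759248)) (l 16758416))) (c (b (a (l 16759656) (l 16760336)) (a (l 16760776) (l 16761432))) (a (l 16759416) (l 16760184))))), by decide +kernel⟩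

def k77_B00pm_011_s3 : ∃ t, chk3 f_B00pm_011_s3 t 123 1022 1 = true :=
  ⟨(b (c (a (c (a (l 16760952) (l 16761568)) (a (l 16760312) (l 16760976))) (c (a (l 16762176) (l 16762776)) (a (l 16761632) (l 16762280)))) (a (c (l 16760032) (l 16759416)) (c (l 16761440) (l 16760928)))) (c (a (b (a (l 16761520) (l 16762136)) (c (a (l 16762488) (l 16763072)) (l 16762048))) (b (a (l 16762744) (l 16763352)) (c (a (l 16763640) (l 16764208)) (l 16763296)))) (a (a (l 16760344) (l 16761056)) (a (l 16761760) (l 16762456))))), by decide +kernel⟩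

def k78_B00pm_011_s3 : ∃ t, chk3 f_B00pm_011_s3 t 123 2046 1 = true :=
  ⟨(a (a (b (c (c (l 16763104) (l 16762296)) (l 16761088)) (c (c (c (l 16763936) (l 16763504)) (l 16762864)) (l 16761584))) (b (c (c (l 16763672) (l 16762912)) (l 16761776)) (c (c (c (l 16764480) (l 16764072)) (l 16763472)) (l 16762264)))) (a (b (c (c (l 16764232) (l 16763528)) (l 16762464)) (c (c (c (l 16765016) (l 16764632)) (l 16764072)) (l 16762936))) (c (c (b (l 16764784) (c (l 16765536) (l 16765184))) (b (l 16764128) (l 16764656))) (c (l 16763712) (l 16763032))))), by decide +kernel⟩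

def k79_B00pm_011_s3 : ∃ t, chk3 f_B00pm_011_s3 t 246 2047 1 = true :=
  ⟨(c (c (a (b (a (c (l 16764432) (l 16763968)) (a (l 16764408) (l 16764544))) (c (a (c (a (b (l 16764960) (c (b (l 16765256) (l 16765416)) (l 16765216))) (b (l 16765088) (b (l 16765328) (l 16765488)))) (b (l 16764784) (b (l 16765016) (a (l 16765112) (l 16765240))))) (c (b (l 16765280) (b (l 16765520) (a (l 16765616) (l 16765744)))) (b (l 16765048) (b (l 16765288) (c (l 16765504) (l 16765384)))))) (b (c (l 16764688) (l 16764448)) (c (b (l 16764912) (a (l 16764936) (l 16765200))) (a (l 16764616) (l 16764888)))))) (b (a (a (l 16764680) (l 16764816)) (a (l 16764952) (l 16765080))) (c (a (b (l 16765432) (b (c (l 16765776) (l 16765544)) (a (c (l 16765872) (l 16765640)) (c (l 16766000) (l 16765768))))) (b (l 16765688) (b (c (l 16766032) (l 16765808)) (a (a (l 16765976) (l 16766040)) (a (l 16766104) (l 16766168)))))) (b (c (l 16765224) (l 16765000)) (c (b (l 16765448) (a (l 16765472) (l 16765736))) (a (l 16765160) (l 16765432)))))))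 (a (b (c (l 16763664) (l 16763208)) (c (b (l 16764096) (b (l 16764312) (a (l 16764320) (l 16764608)))) (b (l 16763624) (c (l 16764032) (l 16763792))))) (b (c (l 16764240) (l 16763816)) (c (b (l 16764672) (b (l 16764880) (a (l 16764888) (l 16765168)))) (b (l 16764224) (c (l 16764616) (l 16764392))))))) (a (c (b (l 16762528) (b (l 16762920) (a (l 16763024) (l 16763344)))) (b (l 16761624) (c (l 16762344) (l 16761872)))) (c (b (l 16763176) (b (l 16763560) (a (l 16763656) (l 16763968)))) (b (l 16762320) (c (l 16763016) (l 16762568)))))), by decide +kernel⟩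

def k80_B00pm_011_s3 : ∃ t, chk3 f_B00pm_011_s3 t 247 2047 1 = true :=
  ⟨(c (c (a (a (b (c (l 16765488) (l 16765080)) (c (b (l 16765944) (a (c (c (l 16766352) (l 16766240)) (l 16766072)) (c (c (l 16766472) (l 16766360)) (l 16766200)))) (b (l 16765520) (c (b (l 16765848) (l 16765992)) (l 16765704))))) (b (c (l 16765744) (l 16765352)) (c (b (l 16766192) (b (l 16766416) (c (c (l 16766728) (l 16766624)) (l 16766464)))) (b (l 16765784) (a (l 16766008) (l 16766136)))))) (b (c (b (l 16765976) (l 16766272)) (b (l 16765608) (l 16765888))) (c (a (b (l 16766440) (b (l 16766664) (a (a (l 16766720) (l 16766784)) (l 16766872)))) (b (l 16766688) (b (l 16766912) (a (l 16766992) (l 16767112))))) (b (c (l 16766272) (l 16766072)) (a (a (l 16766264) (l 16766392)) (a (l 16766520) (l 16766648))))))) (a (b (c (l 16764816) (l 16764416)) (c (b (l 16765232) (b (l 16765440) (a (l 16765440) (l 16765720)))) (b (l 16764816) (c (l 16765192) (l 16764976))))) (a (b (l 16765040) (b (l 16765448) (c (l 16765920) (l 16765512))))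 (b (l 16765328) (b (l 16765720) (c (l 16766192) (l 16765792))))))) (a (c (b (l 16763808) (b (l 16764184) (a (l 16764280) (l 16764592)))) (b (l 16763008) (c (l 16763680) (l 16763256)))) (c (b (l 16764440) (b (l 16764800) (a (l 16764896) (l 16765192)))) (b (l 16763688) (c (l 16764328) (l 16763936)))))), by decide +kernel⟩

def k81_B00pm_011_s3 : ∃ t, chk3 f_B00pm_011_s3 t 31 62 1 = true :=
  ⟨(l 4), by decide +kernel⟩

def k82_B00pm_011_s3 : ∃ t, chk3 f_B00pm_011_s3 t 31 126 1 = true :=
  ⟨(a (b (l 4) (a (a (b (b (l 4) (a (a (l 533236751) (l 533515279)) (a (l 533457935) (l 4)))) (a (b (a (l 533236495) (l 533246735)) (a (l 533236239) (l 533246479))) (a (b (l 533525007) (l 533256463)) (b (l 533467663) (l 533534991))))) (b (l 4) (a (b (b (l 4) (a (l 533280015) (l 533289999))) (a (l 533477391) (a (l 533287695) (l 533292559)))) (b (l 4) (a (a (l 533297423) (l 533302287)) (c (b (l 4) (l 533583631)) (a (l 533301519) (l 533306127)))))))) (a (b (l 4) (a (a (a (b (l 4) (l 533585167)) (l 4)) (l 4)) (l 4)))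 (l 4)))) (l 4)), by decide +kernel⟩

def k83_B00pm_011_s3 : ∃ t, chk3 f_B00pm_011_s3 t 62 254 1 = true :=
  ⟨(a (b (a (a (b (a (l 533235983) (l 533246223)) (a (l 532967183) (l 533245967))) (a (b (l 533256463) (l 533256207)) (b (l 533266447) (l 533266447)))) (a (a (b (l 533544719) (l 533276431)) (b (l 533487375) (l 533420303))) (b (a (a (l 533297423) (l 533302287)) (a (l 533307407) (l 533312271))) (a (l 533497103) (a (l 533307151) (l 533312271)))))) (a (b (b (a (l 533237519) (c (l 533528335) (l 533254927))) (a (l 533237519) (c (l 533528079) (l 533255183)))) (a (a (b (l 16764760) (a (l 16763264) (l 16763712))) (b (l 16765832) (l 16764448))) (a (l 532987407) (l 533266191)))) (a (a (b (l 533276431) (l 533276431)) (b (l 533286415) (l 533286415))) (a (b (l 533430287) (l 533296143)) (b (l 533507087) (l 533440271)))))) (a (b (a (b (a (c (b (l 533593359) (l 533593359)) (a (l 533311247) (l 14))) (l 14)) (a (a (l 533317135) (l 14)) (l 14))) (l 14)) (a (a (a (b (l 533317135) (l 533317135)) (l 14)) (l 14))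 (l 14))) (l 14))), by decide +kernel⟩

def k84_B00pm_011_s3 : ∃ t, chk3 f_B00pm_011_s3 t 62 510 1 = true :=
  ⟨(a (a (b (b (b (a (c (l 16763880) (l 16758536)) (a (l 16764568) (l 16765416))) (a (l 16759080) (a (l 16759688) (l 16765312)))) (c (a (l 16759968) (l 16763328)) (a (l 16759640) (l 16760472)))) (c (a (b (l 16761032) (l 16762088)) (b (l 16761728) (l 16762752))) (a (l 16763576) (l 16764352)))) (b (a (b (b (l 533278991) (a (l 16765896) (l 16766760))) (a (l 16761184) (a (l 16766728) (l 16766896)))) (b (a (l 533030671) (l 533040911)) (a (c (l 16767328) (l 16767248)) (b (l 16768088) (l 16767848))))) (a (c (b (l 16762440) (c (l 16763552) (l 16763304))) (l 16765144)) (c (a (a (l 16766000) (l 16766176)) (a (l 16766360) (l 16766536))) (b (l 16762944) (l 16763712)))))) (a (b (a (a (b (l 533050895) (a (a (l 16768480) (l 14)) (l 14))) (l 14)) (l 14)) (a (a (b (l 16766288) (l 16764480)) (l 14)) (l 14))) (l 14))), by decide +kernel⟩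

def k85_B00pm_011_s3 : ∃ t, chk3 f_B00pm_011_s3 t 124 1022 1 = true :=
  ⟨(a (c (a (c (b (l 16763376) (c (l 16764624) (l 16764360))) (b (l 16762936) (l 16763960))) (c (b (l 16763984) (c (l 16765176) (l 16764936))) (b (l 16763592) (l 16764576)))) (a (a (l 16762536) (l 16762888)) (b (l 16763000) (l 16763848)))) (c (a (a (b (l 16764256) (l 16765256)) (b (l 16764576) (l 16765560))) (a (b (l 16764896) (l 16765856)) (b (l 16765216) (l 16766152)))) (a (b (l 16763728) (l 16764544)) (b (l 16764472) (l 16765240))))), by decide +kernel⟩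

def k86_B00pm_011_s3 : ∃ t, chk3 f_B00pm_011_s3 t 124 2046 1 = true :=
  ⟨(a (a (c (c (b (l 16765328) (c (l 16766048) (l 16765728))) (b (l 16764728) (l 16765240))) (c (l 16764352) (l 16763728))) (c (c (b (l 16765872) (c (l 16766560) (l 16766256))) (b (l 16765312) (l 16765808))) (c (l 16764984) (l 16764408)))) (a (c (c (b (l 16766400) (c (l 16767064) (l 16766784))) (b (l 16765904) (l 16766376))) (c (l 16765616) (l 16765096))) (c (c (b (l 16766936) (c (l 16767560) (l 16767312))) (b (l 16766488) (l 16766944))) (c (l 16766248) (l 16765776))))), by decide +kernel⟩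

def k87_B00pm_011_s3 : ∃ t, chk3 f_B00pm_011_s3 t 248 2047 1 = true :=
  ⟨(c (a (c (b (c (b (l 16766480) (l 16766768)) (b (l 16766136) (l 16766408))) (c (a (b (l 16766928) (b (l 16767152) (a (l 16767232) (l 16767352)))) (b (l 16767176) (a (a (l 16767368) (l 16767424)) (l 16767520)))) (b (c (l 16766776) (l 16766592)) (c (a (l 16766936) (l 16767184)) (a (l 16766744) (l 16766992)))))) (b (c (l 16765928) (l 16765576)) (c (b (l 16766320) (a (l 16766456) (l 16766720))) (b (l 16765952) (c (l 16766304) (l 16766112)))))) (c (b (b (l 16766816) (a (l 16766960) (l 16767208))) (c (a (b (l 16767408) (a (l 16767632) (l 16767752))) (b (l 16767648) (a (l 16767864) (l 16767976)))) (b (c (l 16767272) (l 16767104)) (c (a (l 16767424) (l 16767664)) (a (l 16767248) (l 16767488)))))) (b (c (l 16766464) (l 16766144)) (c (b (l 16766848) (a (l 16766976) (l 16767232))) (b (l 16766512) (c (l 16766848) (l 16766672))))))) (a (c (b (l 16765056) (b (l 16765408) (a (l 16765496) (l 16765792)))) (b (l 16764352) (c (l 16764968)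 (l 16764600)))) (c (b (l 16765664) (b (l 16766000) (a (l 16766080) (l 16766376)))) (b (l 16765016) (c (l 16765600) (l 16765256)))))), by decide +kernel⟩

def k88_B00pm_011_s3 : ∃ t, chk3 f_B00pm_011_s3 t 249 2047 1 = true :=
  ⟨(c (a (c (b (a (c (l 16767472) (l 16767168)) (l 16767568)) (c (a (b (l 16767880) (c (l 16768232) (l 16768064))) (b (l 16768104) (c (l 16768456) (l 16768296)))) (b (l 16767680) (a (l 16767816) (l 16768056))))) (b (c (l 16767000) (l 16766704)) (c (b (l 16767368) (a (l 16767488) (l 16767736))) (b (l 16767056) (c (l 16767376) (l 16767216)))))) (a (c (b (l 16767808) (b (l 16768192) (a (l 16768384) (l 16768496)))) (b (l 16767256) (c (b (l 16767752) (l 16767992)) (l 16767576)))) (c (b (l 16768048) (b (l 16768424) (a (l 16768608) (l 16768720)))) (b (l 16767528) (a (l 16767912) (l 16768040)))))) (a (c (b (l 16766264) (b (l 16766584) (a (l 16766664) (l 16766944)))) (b (l 16765672) (b (l 16765960) (l 16766160)))) (b (c (l 16766856) (l 16766320)) (b (a (l 16766728) (l 16767032))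 (c (a (l 16767232) (l 16767512)) (l 16766784)))))), by decide +kernel⟩

def k89_B00pm_011_s3 : ∃ t, chk3 f_B00pm_011_s3 t 125 511 1 = true :=
  ⟨(b (a (a (a (a (b (l 16765200) (b (l 16765824) (l 16766232))) (l 14)) (l 14)) (l 14)) (l 14)) (b (a (a (a (c (b (l 16767136) (l 16767592)) (l 16766504)) (l 14)) (l 14)) (l 14)) (b (a (a (a (c (c (l 16768288) (l 16767792)) (l 16767048)) (l 14)) (l 14)) (l 14)) (a (a (a (a (a (c (c (l 16768688) (l 16768136)) (l 16767312)) (l 14)) (l 14)) (l 14)) (l 14)) (l 14))))), by decide +kernel⟩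

def k90_B00pm_011_s3 : ∃ t, chk3 f_B00pm_011_s3 t 63 127 1 = true :=
  ⟨(l 14), by decide +kernel⟩

theorem t91_B00pm_011_s3 : ∃ t, chk3 f_B00pm_011_s3 t 124 2047 1 = true := ex3_a k87_B00pm_011_s3 k88_B00pm_011_s3

theorem t92_B00pm_011_s3 : ∃ t, chk3 f_B00pm_011_s3 t 124 1023 1 = true := ex3_b k86_B00pm_011_s3 t91_B00pm_011_s3

theorem t93_B00pm_011_s3 : ∃ t, chk3 f_B00pm_011_s3 t 124 511 1 = true := ex3_b k85_B00pm_011_s3 t92_B00pm_011_s3

theorem t94_B00pm_011_s3 : ∃ t, chk3 f_B00pm_011_s3 t 62 511 1 = true := ex3_a t93_B00pm_011_s3 k89_B00pm_011_s3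

theorem t95_B00pm_011_s3 : ∃ t, chk3 f_B00pm_011_s3 t 62 255 1 = true := ex3_b k84_B00pm_011_s3 t94_B00pm_011_s3

theorem t96_B00pm_011_s3 : ∃ t, chk3 f_B00pm_011_s3 t 62 127 1 = true := ex3_b k83_B00pm_011_s3 t95_B00pm_011_s3

theorem t97_B00pm_011_s3 : ∃ t, chk3 f_B00pm_011_s3 t 31 127 1 = true := ex3_a t96_B00pm_011_s3 k90_B00pm_011_s3

theorem t98_B00pm_011_s3 : ∃ t, chk3 f_B00pm_011_s3 t 31 63 1 = true := ex3_b k82_B00pm_011_s3 t97_B00pm_011_s3

theorem t99_B00pm_011_s3 : ∃ t, chk3 f_B00pm_011_s3 t 31 31 1 = true := ex3_b k81_B00pm_011_s3 t98_B00pm_011_s3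

theorem t100_B00pm_011_s3 : ∃ t, chk3 f_B00pm_011_s3 t 123 2047 1 = true := ex3_a k79_B00pm_011_s3 k80_B00pm_011_s3

theorem t101_B00pm_011_s3 : ∃ t, chk3 f_B00pm_011_s3 t 123 1023 1 = true := ex3_b k78_B00pm_011_s3 t100_B00pm_011_s3

theorem t102_B00pm_011_s3 : ∃ t, chk3 f_B00pm_011_s3 t 123 511 1 = true := ex3_b k77_B00pm_011_s3 t101_B00pm_011_s3

theorem t103_B00pm_011_s3 : ∃ t, chk3 f_B00pm_011_s3 t 123 255 1 = true := ex3_b k76_B00pm_011_s3 t102_B00pm_011_s3

theorem t104_B00pm_011_s3 : ∃ t, chk3 f_B00pm_011_s3 t 123 127 1 = true := ex3_b k75_B00pm_011_s3 t103_B00pm_011_s3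

theorem t105_B00pm_011_s3 : ∃ t, chk3 f_B00pm_011_s3 t 123 63 1 = true := ex3_b k74_B00pm_011_s3 t104_B00pm_011_s3

theorem t106_B00pm_011_s3 : ∃ t, chk3 f_B00pm_011_s3 t 122 511 4 = true := ex3_a k70_B00pm_011_s3 k71_B00pm_011_s3

theorem t107_B00pm_011_s3 : ∃ t, chk3 f_B00pm_011_s3 t 122 511 2 = true := ex3_c t106_B00pm_011_s3 k72_B00pm_011_s3

theorem t108_B00pm_011_s3 : ∃ t, chk3 f_B00pm_011_s3 t 122 511 1 = true := ex3_c t107_B00pm_011_s3 k73_B00pm_011_s3

theorem t109_B00pm_011_s3 : ∃ t, chk3 f_B00pm_011_s3 t 122 255 1 = true := ex3_b k69_B00pm_011_s3 t108_B00pm_011_s3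

theorem t110_B00pm_011_s3 : ∃ t, chk3 f_B00pm_011_s3 t 122 127 1 = true := ex3_b k68_B00pm_011_s3 t109_B00pm_011_s3

theorem t111_B00pm_011_s3 : ∃ t, chk3 f_B00pm_011_s3 t 122 63 1 = true := ex3_b k67_B00pm_011_s3 t110_B00pm_011_s3

theorem t112_B00pm_011_s3 : ∃ t, chk3 f_B00pm_011_s3 t 61 63 1 = true := ex3_a t111_B00pm_011_s3 t105_B00pm_011_s3

theorem t113_B00pm_011_s3 : ∃ t, chk3 f_B00pm_011_s3 t 121 511 2 = true := ex3_a k64_B00pm_011_s3 k65_B00pm_011_s3

theorem t114_B00pm_011_s3 : ∃ t, chk3 f_B00pm_011_s3 t 121 255 2 = true := ex3_b k63_B00pm_011_s3 t113_B00pm_011_s3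

theorem t115_B00pm_011_s3 : ∃ t, chk3 f_B00pm_011_s3 t 121 255 1 = true := ex3_c t114_B00pm_011_s3 k66_B00pm_011_s3

theorem t116_B00pm_011_s3 : ∃ t, chk3 f_B00pm_011_s3 t 120 255 1 = true := ex3_a k61_B00pm_011_s3 k62_B00pm_011_s3

theorem t117_B00pm_011_s3 : ∃ t, chk3 f_B00pm_011_s3 t 60 255 1 = true := ex3_a t116_B00pm_011_s3 t115_B00pm_011_s3

theorem t118_B00pm_011_s3 : ∃ t, chk3 f_B00pm_011_s3 t 60 254 1 = true := ex3_a k59_B00pm_011_s3 k60_B00pm_011_s3

theorem t119_B00pm_011_s3 : ∃ t, chk3 f_B00pm_011_s3 t 60 127 1 = true := ex3_b t118_B00pm_011_s3 t117_B00pm_011_s3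

theorem t120_B00pm_011_s3 : ∃ t, chk3 f_B00pm_011_s3 t 60 126 1 = true := ex3_b k57_B00pm_011_s3 k58_B00pm_011_s3

theorem t121_B00pm_011_s3 : ∃ t, chk3 f_B00pm_011_s3 t 60 63 1 = true := ex3_b t120_B00pm_011_s3 t119_B00pm_011_s3

theorem t122_B00pm_011_s3 : ∃ t, chk3 f_B00pm_011_s3 t 30 63 1 = true := ex3_a t121_B00pm_011_s3 t112_B00pm_011_s3

theorem t123_B00pm_011_s3 : ∃ t, chk3 f_B00pm_011_s3 t 30 31 1 = true := ex3_b k56_B00pm_011_s3 t122_B00pm_011_s3

theorem t124_B00pm_011_s3 : ∃ t, chk3 f_B00pm_011_s3 t 15 31 1 = true := ex3_a t123_B00pm_011_s3 t99_B00pm_011_s3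

theorem t125_B00pm_011_s3 : ∃ t, chk3 f_B00pm_011_s3 t 59 255 3 = true := ex3_a k54_B00pm_011_s3 k55_B00pm_011_s3

theorem t126_B00pm_011_s3 : ∃ t, chk3 f_B00pm_011_s3 t 59 255 1 = true := ex3_c k53_B00pm_011_s3 t125_B00pm_011_s3

theorem t127_B00pm_011_s3 : ∃ t, chk3 f_B00pm_011_s3 t 59 127 1 = true := ex3_b k52_B00pm_011_s3 t126_B00pm_011_s3

theorem t128_B00pm_011_s3 : ∃ t, chk3 f_B00pm_011_s3 t 119 126 1 = true := ex3_b k50_B00pm_011_s3 k51_B00pm_011_s3

theorem t129_B00pm_011_s3 : ∃ t, chk3 f_B00pm_011_s3 t 118 126 1 = true := ex3_b k48_B00pm_011_s3 k49_B00pm_011_s3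

theorem t130_B00pm_011_s3 : ∃ t, chk3 f_B00pm_011_s3 t 59 126 1 = true := ex3_a t129_B00pm_011_s3 t128_B00pm_011_s3

theorem t131_B00pm_011_s3 : ∃ t, chk3 f_B00pm_011_s3 t 59 63 1 = true := ex3_b t130_B00pm_011_s3 t127_B00pm_011_s3

theorem t132_B00pm_011_s3 : ∃ t, chk3 f_B00pm_011_s3 t 58 255 1 = true := ex3_a k46_B00pm_011_s3 k47_B00pm_011_s3

theorem t133_B00pm_011_s3 : ∃ t, chk3 f_B00pm_011_s3 t 58 127 1 = true := ex3_b k45_B00pm_011_s3 t132_B00pm_011_s3

theorem t134_B00pm_011_s3 : ∃ t, chk3 f_B00pm_011_s3 t 58 253 1 = true := ex3_a k43_B00pm_011_s3 k44_B00pm_011_s3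

theorem t135_B00pm_011_s3 : ∃ t, chk3 f_B00pm_011_s3 t 58 126 1 = true := ex3_b k42_B00pm_011_s3 t134_B00pm_011_s3

theorem t136_B00pm_011_s3 : ∃ t, chk3 f_B00pm_011_s3 t 58 63 1 = true := ex3_b t135_B00pm_011_s3 t133_B00pm_011_s3

theorem t137_B00pm_011_s3 : ∃ t, chk3 f_B00pm_011_s3 t 29 63 1 = true := ex3_a t136_B00pm_011_s3 t131_B00pm_011_s3

theorem t138_B00pm_011_s3 : ∃ t, chk3 f_B00pm_011_s3 t 59 62 1 = true := ex3_b k40_B00pm_011_s3 k41_B00pm_011_s3

theorem t139_B00pm_011_s3 : ∃ t, chk3 f_B00pm_011_s3 t 58 125 1 = true := ex3_a k38_B00pm_011_s3 k39_B00pm_011_s3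

theorem t140_B00pm_011_s3 : ∃ t, chk3 f_B00pm_011_s3 t 58 62 1 = true := ex3_b k37_B00pm_011_s3 t139_B00pm_011_s3

theorem t141_B00pm_011_s3 : ∃ t, chk3 f_B00pm_011_s3 t 29 62 1 = true := ex3_a t140_B00pm_011_s3 t138_B00pm_011_s3

theorem t142_B00pm_011_s3 : ∃ t, chk3 f_B00pm_011_s3 t 29 31 1 = true := ex3_b t141_B00pm_011_s3 t137_B00pm_011_s3

theorem t143_B00pm_011_s3 : ∃ t, chk3 f_B00pm_011_s3 t 28 127 1 = true := ex3_c k35_B00pm_011_s3 k36_B00pm_011_s3

theorem t144_B00pm_011_s3 : ∃ t, chk3 f_B00pm_011_s3 t 57 126 3 = true := ex3_b k33_B00pm_011_s3 k34_B00pm_011_s3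

theorem t145_B00pm_011_s3 : ∃ t, chk3 f_B00pm_011_s3 t 57 126 1 = true := ex3_c k32_B00pm_011_s3 t144_B00pm_011_s3

theorem t146_B00pm_011_s3 : ∃ t, chk3 f_B00pm_011_s3 t 56 126 3 = true := ex3_a k30_B00pm_011_s3 k31_B00pm_011_s3

theorem t147_B00pm_011_s3 : ∃ t, chk3 f_B00pm_011_s3 t 56 126 1 = true := ex3_c k29_B00pm_011_s3 t146_B00pm_011_s3

theorem t148_B00pm_011_s3 : ∃ t, chk3 f_B00pm_011_s3 t 28 126 1 = true := ex3_a t147_B00pm_011_s3 t145_B00pm_011_s3

theorem t149_B00pm_011_s3 : ∃ t, chk3 f_B00pm_011_s3 t 28 63 1 = true := ex3_b t148_B00pm_011_s3 t143_B00pm_011_s3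

theorem t150_B00pm_011_s3 : ∃ t, chk3 f_B00pm_011_s3 t 57 62 1 = true := ex3_b k27_B00pm_011_s3 k28_B00pm_011_s3

theorem t151_B00pm_011_s3 : ∃ t, chk3 f_B00pm_011_s3 t 56 62 3 = true := ex3_b k25_B00pm_011_s3 k26_B00pm_011_s3

theorem t152_B00pm_011_s3 : ∃ t, chk3 f_B00pm_011_s3 t 56 62 1 = true := ex3_c k24_B00pm_011_s3 t151_B00pm_011_s3

theorem t153_B00pm_011_s3 : ∃ t, chk3 f_B00pm_011_s3 t 28 62 1 = true := ex3_a t152_B00pm_011_s3 t150_B00pm_011_s3

theorem t154_B00pm_011_s3 : ∃ t, chk3 f_B00pm_011_s3 t 28 31 1 = true := ex3_b t153_B00pm_011_s3 t149_B00pm_011_s3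

theorem t155_B00pm_011_s3 : ∃ t, chk3 f_B00pm_011_s3 t 14 31 1 = true := ex3_a t154_B00pm_011_s3 t142_B00pm_011_s3

theorem t156_B00pm_011_s3 : ∃ t, chk3 f_B00pm_011_s3 t 7 31 1 = true := ex3_a t155_B00pm_011_s3 t124_B00pm_011_s3

theorem t157_B00pm_011_s3 : ∃ t, chk3 f_B00pm_011_s3 t 28 61 1 = true := ex3_a k20_B00pm_011_s3 k21_B00pm_011_s3

theorem t158_B00pm_011_s3 : ∃ t, chk3 f_B00pm_011_s3 t 14 61 1 = true := ex3_a t157_B00pm_011_s3 k22_B00pm_011_s3

theorem t159_B00pm_011_s3 : ∃ t, chk3 f_B00pm_011_s3 t 14 30 1 = true := ex3_b k19_B00pm_011_s3 t158_B00pm_011_s3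

theorem t160_B00pm_011_s3 : ∃ t, chk3 f_B00pm_011_s3 t 7 30 1 = true := ex3_a t159_B00pm_011_s3 k23_B00pm_011_s3

theorem t161_B00pm_011_s3 : ∃ t, chk3 f_B00pm_011_s3 t 7 15 1 = true := ex3_b t160_B00pm_011_s3 t156_B00pm_011_s3

theorem t162_B00pm_011_s3 : ∃ t, chk3 f_B00pm_011_s3 t 55 63 3 = true := ex3_b k17_B00pm_011_s3 k18_B00pm_011_s3

theorem t163_B00pm_011_s3 : ∃ t, chk3 f_B00pm_011_s3 t 55 63 1 = true := ex3_c k16_B00pm_011_s3 t162_B00pm_011_s3

theorem t164_B00pm_011_s3 : ∃ t, chk3 f_B00pm_011_s3 t 27 63 1 = true := ex3_a k15_B00pm_011_s3 t163_B00pm_011_s3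

theorem t165_B00pm_011_s3 : ∃ t, chk3 f_B00pm_011_s3 t 55 125 3 = true := ex3_c k13_B00pm_011_s3 k14_B00pm_011_s3

theorem t166_B00pm_011_s3 : ∃ t, chk3 f_B00pm_011_s3 t 55 62 3 = true := ex3_b k12_B00pm_011_s3 t165_B00pm_011_s3

theorem t167_B00pm_011_s3 : ∃ t, chk3 f_B00pm_011_s3 t 27 62 3 = true := ex3_a k11_B00pm_011_s3 t166_B00pm_011_s3

theorem t168_B00pm_011_s3 : ∃ t, chk3 f_B00pm_011_s3 t 27 62 1 = true := ex3_c k10_B00pm_011_s3 t167_B00pm_011_s3

theorem t169_B00pm_011_s3 : ∃ t, chk3 f_B00pm_011_s3 t 27 31 1 = true := ex3_b t168_B00pm_011_s3 t164_B00pm_011_s3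

theorem t170_B00pm_011_s3 : ∃ t, chk3 f_B00pm_011_s3 t 13 31 1 = true := ex3_a k9_B00pm_011_s3 t169_B00pm_011_s3

theorem t171_B00pm_011_s3 : ∃ t, chk3 f_B00pm_011_s3 t 27 30 3 = true := ex3_a k7_B00pm_011_s3 k8_B00pm_011_s3

theorem t172_B00pm_011_s3 : ∃ t, chk3 f_B00pm_011_s3 t 13 30 3 = true := ex3_a k6_B00pm_011_s3 t171_B00pm_011_s3

theorem t173_B00pm_011_s3 : ∃ t, chk3 f_B00pm_011_s3 t 13 30 1 = true := ex3_c k5_B00pm_011_s3 t172_B00pm_011_s3

theorem t174_B00pm_011_s3 : ∃ t, chk3 f_B00pm_011_s3 t 13 15 1 = true := ex3_b t173_B00pm_011_s3 t170_B00pm_011_s3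

theorem t175_B00pm_011_s3 : ∃ t, chk3 f_B00pm_011_s3 t 6 15 1 = true := ex3_a k4_B00pm_011_s3 t174_B00pm_011_s3

theorem t176_B00pm_011_s3 : ∃ t, chk3 f_B00pm_011_s3 t 3 15 1 = true := ex3_a t175_B00pm_011_s3 t161_B00pm_011_s3

theorem t177_B00pm_011_s3 : ∃ t, chk3 f_B00pm_011_s3 t 3 7 1 = true := ex3_b k3_B00pm_011_s3 t176_B00pm_011_s3

theorem t178_B00pm_011_s3 : ∃ t, chk3 f_B00pm_011_s3 t 3 3 1 = true := ex3_b k2_B00pm_011_s3 t177_B00pm_011_s3

theorem t179_B00pm_011_s3 : ∃ t, chk3 f_B00pm_011_s3 t 3 1 1 = true := ex3_b k1_B00pm_011_s3 t178_B00pm_011_s3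

theorem t180_B00pm_011_s3 : ∃ t, chk3 f_B00pm_011_s3 t 1 1 1 = true := ex3_a k0_B00pm_011_s3 t179_B00pm_011_s3

theorem c_B00pm_011_s3 : CertF 0 536870912 536870912 536870912 67108864 67108864 false true false .pnn 0 1 1
    ndF0q0 ndF0q1 pcF1 cut_B00pm_011_s3 xt_B00pm_011_s3 :=
  certFK2 (fam := false) (s1 := true) (s2 := false) (a := 0) (b := 1) (c := 1) (cn := .pnn) (n1 := ndF0q0) (n2 := ndF0q1) (pc := pcF1) (cut := cut_B00pm_011_s3) (xt := xt_B00pm_011_s3) (P1 := 0) (W1 := 536870912) (P2 := 536870912) (W2 := 536870912) (P3 := 67108864) (W3 := 67108864)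
    rfl rfl rfl (fun _ => rfl) t180_B00pm_011_s3

theorem s_B00pm_011_s3 {κ x : ℝ} (hκ : κ * h0 = ken x) (hx : ((67108864 : ℕ) : ℝ) / S ≤ x)
    (hx' : x ≤ (((67108864 : ℕ) : ℝ) + (67108864 : ℕ)) / S)
    (H : CutB (VF κ) PP tKF tL pcF (Cut.of [[⟨0, 0, 0, 25165824⟩, ⟨1, 1, 0, 25165824⟩, ⟨2, 1, 0, 25165824⟩], [⟨0, 0, 1, 33554432⟩, ⟨1, 1, 2, 33554432⟩, ⟨2, 1, 0, 8388608⟩, ⟨0, 0, 0, 150994944⟩, ⟨0, 1, 0, 1023410176⟩, ⟨1, 0, 0, 1023410176⟩, ⟨1, 1, 0, 150994944⟩]]) 0 1 1 0 0 (sgb true) (sgb false) x) :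
    AltB (VF κ) PP tKF tL pcF [⟨4, 0, 0, 2845415833⟩] 0 1 1 0 0 (sgb true) (sgb false) x :=
  strip_altB (m := 2845415833) false rfl hκ covF00 covF01 hx hx' c_B00pm_011_s3 H ((okx hx hx').extB (T := tt) (sideF hx hx') hκ rfl rfl (.O 0 true) (.O 1 false) (Or.inr rfl))

end Pool.Agent.Strip051.G.I1_16_1_8.Tab.St.C
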