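import Pool.Agent.Strip051.G.I1_16_1_8.StF

/-! # Unit strips 7 (generated) -/

set_option linter.all false
set_option maxRecDepth 100000

namespace Pool.Agent.Strip051.G.I1_16_1_8.Tab.St.C

open Pool.Agent.Strip051.PB Pool.Agent.Strip051.PB.T Pool.Agent.StripNear Pool.Agent.Strip051.LC
open Pool.Agent.Strip051.G.I1_16_1_8.Tab Pool.Agent.Strip051.G.I1_16_1_8.Tab.St

noncomputable def cut_B00pm_012_s1 : Cut := Cut.of [[⟨4, 0, 0, 1449551462⟩], [⟨0, 0, 0, 67108864⟩, ⟨1, 1, 0, 67108864⟩, ⟨2, 1, 0, 67108864⟩], [⟨0, 0, 1, 33554432⟩, ⟨1, 1, 2, 33554432⟩, ⟨2, 1, 0, 8388608⟩, ⟨0, 0, 0, 150994944⟩, ⟨0, 1, 0, 1023410176⟩, ⟨1, 0, 0, 1023410176⟩, ⟨1, 1, 0, 150994944⟩]]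

noncomputable def f_B00pm_012_s1 : ℕ → ℕ → ℕ → ℕ → Bool := onCell 0 536870912 0 536870912 67108864 67108864
    (rowFK 0 false true false .pnp 0 1 2 (qsf 0 536870912 0 536870912 1) ndF0q0 ndF0q2 pcF1 cut_B00pm_012_s1 Ext.none)

def k0_B00pm_012_s1 : ∃ t, chk3 f_B00pm_012_s1 t 1 1 1 = true :=
  ⟨(a (l 6) (b (a (b (a (l 6) (l 17256232)) (l 6)) (b (b (a (l 17097576) (l 17039640)) (l 17602448)) (l 6))) (l 6))), by decide +kernel⟩

theorem c_B00pm_012_s1 : CertF 0 536870912 0 536870912 67108864 67108864 false true false .pnp 0 1 2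
    ndF0q0 ndF0q2 pcF1 cut_B00pm_012_s1 Ext.none :=
  certFK0 (fam := false) (s1 := true) (s2 := false) (a := 0) (b := 1) (c := 2) (cn := .pnp) (n1 := ndF0q0) (n2 := ndF0q2) (pc := pcF1) (cut := cut_B00pm_012_s1) (xt := Ext.none) (P1 := 0) (W1 := 536870912) (P2 := 0) (W2 := 536870912) (P3 := 67108864) (W3 := 67108864)
    rfl rfl rfl k0_B00pm_012_s1

theorem s_B00pm_012_s1 {κ x : ℝ} (hκ : κ * h0 = ken x) (hx : ((67108864 : ℕ) : ℝ) / S ≤ x)
    (hx' : x ≤ (((67108864 : ℕ) : ℝ) + (67108864 : ℕ)) / S)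
    (H : CutB (VF κ) PP tKF tL pcF (Cut.of [[⟨0, 0, 0, 67108864⟩, ⟨1, 1, 0, 67108864⟩, ⟨2, 1, 0, 67108864⟩], [⟨0, 0, 1, 33554432⟩, ⟨1, 1, 2, 33554432⟩, ⟨2, 1, 0, 8388608⟩, ⟨0, 0, 0, 150994944⟩, ⟨0, 1, 0, 1023410176⟩, ⟨1, 0, 0, 1023410176⟩, ⟨1, 1, 0, 150994944⟩]]) 0 1 2 0 0 (sgb true) (sgb false) x) :
    AltB (VF κ) PP tKF tL pcF [⟨3, 0, 0, 1449551462⟩] 0 1 2 0 0 (sgb true) (sgb false) x :=
  strip_altB (m := 1449551462) true rfl hκ covF00 covF02 hx hx' c_B00pm_012_s1 H (noExt_B)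

noncomputable def cut_B00pm_012_s3 : Cut := Cut.of [[⟨3, 0, 0, 2845415833⟩], [⟨0, 0, 0, 67108864⟩, ⟨1, 1, 0, 67108864⟩, ⟨2, 1, 0, 67108864⟩], [⟨0, 0, 1, 33554432⟩, ⟨1, 1, 2, 33554432⟩, ⟨2, 1, 0, 8388608⟩, ⟨0, 0, 0, 150994944⟩, ⟨0, 1, 0, 1023410176⟩, ⟨1, 0, 0, 1023410176⟩, ⟨1, 1, 0, 150994944⟩]]

noncomputable def f_B00pm_012_s3 : ℕ → ℕ → ℕ → ℕ → Bool := onCell 536870912 536870912 0 536870912 67108864 67108864
    (rowFK 2 false true false .pnp 0 1 2 (qsf 0 536870912 0 536870912 1) ndF0q0 ndF0q2 pcF1 cut_B00pm_012_s3 Ext.none)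

def k0_B00pm_012_s3 : ∃ t, chk3 f_B00pm_012_s3 t 2 1 1 = true :=
  ⟨(b (l 6) (b (l 6) (l 6))), by decide +kernel⟩

def k1_B00pm_012_s3 : ∃ t, chk3 f_B00pm_012_s3 t 3 2 1 = true :=
  ⟨(l 6), by decide +kernel⟩

def k2_B00pm_012_s3 : ∃ t, chk3 f_B00pm_012_s3 t 6 3 1 = true :=
  ⟨(b (l 6) (a (b (l 6) (b (l 6) (a (l 17654000) (a (l 17649456) (l 17675536))))) (b (l 6) (b (a (c (l 17859440) (l 17657016)) (a (a (l 17739440) (l 17465984)) (b (l 17624904) (c (l 17836080) (l 17152728))))) (a (c (b (l 17794704) (a (l 17727408) (l 17727760))) (b (l 17591984) (a (l 17571152) (a (l 17510856) (l 17452776))))) (b (c (a (l 17788816) (l 17730528)) (b (a (l 17460560) (l 17067816)) (a (l 17329168) (a (l 17292152) (l 17049328))))) (c (a (l 17686648) (a (l 17622320) (l 17402192))) (a (a (b (l 17403320) (l 17268416)) (c (l 17211600) (b (l 17218104) (a (l 17186992) (b (l 17139544) (l 17021424)))))) (a (c (b (l 17333680) (l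 17261896)) (b (l 17034088) (b (l 16896672) (a (l 16964776) (l 22))))) (c (b (l 17261168) (b (l 17204040) (l 17080096))) (b (b (l 17048440) (l 22)) (l 22)))))))))))), by decide +kernel⟩

def k3_B00pm_012_s3 : ∃ t, chk3 f_B00pm_012_s3 t 14 6 1 = true :=
  ⟨(l 6), by decide +kernel⟩

def k4_B00pm_012_s3 : ∃ t, chk3 f_B00pm_012_s3 t 14 14 1 = true :=
  ⟨(b (l 6) (b (a (l 6) (a (l 6) (c (l 17668344) (l 16816216)))) (a (c (l 17920112) (a (l 6) (l 17153272))) (a (c (l 17779488) (l 16801688)) (c (a (l 17656520) (l 17460080)) (a (l 16854360) (l 16789328))))))), by decide +kernel⟩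

def k5_B00pm_012_s3 : ∃ t, chk3 f_B00pm_012_s3 t 28 15 1 = true :=
  ⟨(b (a (c (l 17648512) (b (l 17207720) (a (l 17215176) (l 16876720)))) (a (c (l 17495048) (b (l 17247680) (l 16773136))) (c (b (l 17752168) (l 17614352)) (b (l 17056144) (l 16774536))))) (c (b (c (a (l 17762040) (l 17560384)) (a (l 17336504) (a (l 17302336) (b (l 17332192) (l 17156232))))) (a (a (a (l 17441080) (l 17240096)) (c (l 17570552) (b (l 17346856) (b (l 17280064) (l 17149392))))) (a (c (b (l 17545456) (l 17445560)) (b (l 17085592) (c (b (l 17253824) (l 17203192)) (l 22)))) (c (b (l 17460568) (b (l 17380080) (l 17239792))) (b (b (l 17082888) (l 22)) (l 22)))))) (b (a (c (b (l 17199344) (a (l 17253680) (l 17077208))) (b (a (l 17078152) (l 16971240)) (a (l 16837624) (l 16766400)))) (a (b (l 16822592) (c (l 16757656) (l 16766136))) (b (l 16769320) (b (l 16783512) (l 16763840))))) (b (b (a (c (a (l 17196616) (l 17015416)) (a (l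 16863912) (l 16746352))) (a (l 16754176) (a (l 16760624) (l 16759976)))) (a (c (a (l 17156752) (l 22)) (l 22)) (a (l 22) (a (l 22) (l 16756392))))) (a (c (a (c (b (l 17177576) (l 17134656)) (l 22)) (l 22)) (l 22)) (b (a (l 22) (a (l 22) (b (l 16753808) (b (l 16752560) (l 16751744))))) (c (l 22) (c (l 22) (a (l 22) (a (l 22) (a (l 22) (a (l 22) (a (l 22) (b (l 16748760) (b (l 16747736) (l 16747064)))))))))))))))), by decide +kernel⟩

def k6_B00pm_012_s3 : ∃ t, chk3 f_B00pm_012_s3 t 29 30 1 = true :=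
  ⟨(b (c (a (a (l 17684296) (l 17514336)) (a (l 17153000) (b (l 17316880) (l 17041416)))) (a (b (l 16808232) (l 16804464)) (a (l 16784760) (l 16777272)))) (a (a (c (l 17193128) (b (l 16880040) (l 16786344))) (c (c (l 17614448) (b (l 17277320) (l 17094416))) (b (l 16780856) (l 16773808)))) (b (a (c (c (l 17554976) (l 17125704)) (l 16775048)) (l 16774344)) (a (a (l 16762968) (l 16773584)) (b (l 16770568) (l 16768240)))))), by decide +kernel⟩

def k7_B00pm_012_s3 : ∃ t, chk3 f_B00pm_012_s3 t 58 62 1 = true :=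
  ⟨(a (c (c (l 17350296) (b (l 17131808) (b (l 17056184) (l 16919792)))) (b (l 16770776) (b (l 16765304) (l 16761896)))) (a (c (c (l 17269936) (b (l 17111032) (l 16833176))) (b (l 16768736) (l 16762608))) (b (l 16745968) (b (l 16766840) (l 16763960))))), by decide +kernel⟩

def k8_B00pm_012_s3 : ∃ t, chk3 f_B00pm_012_s3 t 58 126 1 = true :=
  ⟨(b (b (a (c (c (l 17399400) (l 16879464)) (l 16759432)) (a (l 16762512) (l 16761896))) (a (c (c (l 17371416) (l 16768264)) (l 16757848)) (a (l 16761024) (l 16760584)))) (c (a (c (l 17244568) (l 22)) (l 22)) (a (a (l 16756152) (b (l 16756672) (l 16755272))) (a (b (l 16756472) (l 16755232)) (b (l 16756328) (l 16755256)))))), by decide +kernel⟩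

def k9_B00pm_012_s3 : ∃ t, chk3 f_B00pm_012_s3 t 58 254 1 = true :=
  ⟨(c (a (c (l 17101688) (l 22)) (l 22)) (a (b (a (l 16753832) (l 16753904)) (c (l 22) (a (l 16750912) (l 16751216)))) (a (b (l 16754040) (a (l 16752944) (l 16753112))) (b (a (l 16754320) (l 16754440)) (a (l 16753296) (l 16753496)))))), by decide +kernel⟩

def k10_B00pm_012_s3 : ∃ t, chk3 f_B00pm_012_s3 t 58 510 1 = true :=
  ⟨(a (c (c (l 16972384) (l 22)) (c (l 22) (a (a (l 16749560) (l 16749784)) (a (l 16750024) (l 16750280))))) (a (c (l 22) (c (l 22) (a (l 16750552) (l 16750832)))) (c (l 22) (a (c (l 22) (l 16751128)) (c (b (l 16753992) (l 16753512)) (l 16751440)))))), by decide +kernel⟩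

def k11_B00pm_012_s3 : ∃ t, chk3 f_B00pm_012_s3 t 58 511 1 = true :=
  ⟨(a (b (c (c (c (l 17286664) (l 22)) (l 22)) (c (l 22) (a (a (l 16748536) (c (l 22) (l 16748200))) (a (c (l 22) (l 16748512)) (c (l 16750056) (l 16748848)))))) (b (c (c (c (l 17274816) (l 22)) (l 22)) (c (l 22) (c (a (l 22) (a (l 22) (l 16749632))) (a (a (l 16747408) (l 16747744)) (a (l 16748096) (l 16748456)))))) (c (c (c (l 17266856) (l 22)) (l 22)) (c (l 22) (c (a (l 22) (a (l 22) (a (l 22) (c (l 22) (l 16749192))))) (a (a (a (l 16747024) (l 16747200)) (a (l 16747384) (l 16747560))) (a (a (l 16747752) (l 16747936)) (a (l 16748128) (l 16748328))))))))) (b (a (c (l 22) (c (l 22) (a (c (l 16750376) (l 16749192)) (c (l 16750704) (l 16749544))))) (c (l 22) (a (c (l 22) (c (l 16751040) (l 16749920))) (c (c (l 22) (l 16752496)) (c (l 16751392) (l 16750296)))))) (c (l 22) (b (c (a (l 22) (a (l 22) (a (l 22) (l 16752824)))) (a (a (c (l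 16749984) (l 16748832)) (c (l 16750344) (l 16749216))) (a (c (l 16750712) (l 16749616)) (c (l 16751096) (l 16750032))))) (a (c (l 22) (a (c (a (c (l 22) (l 16749376)) (l 16749848)) (a (l 16748520) (l 16748728))) (c (a (l 16750040) (l 16750232)) (a (l 16748928) (l 16749136))))) (c (a (l 22) (c (l 22) (a (l 22) (c (l 22) (l 16751816))))) (a (c (a (l 16750432) (l 16750632)) (a (l 16749352) (l 16749560))) (c (a (l 16750832) (l 16751040)) (a (l 16749776) (l 16750000)))))))))), by decide +kernel⟩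

def k12_B00pm_012_s3 : ∃ t, chk3 f_B00pm_012_s3 t 59 62 1 = true :=
  ⟨(b (a (a (l 16769824) (l 16768248)) (a (l 16756264) (b (l 16766248) (l 16764392)))) (a (b (a (l 16765696) (l 16764624)) (a (l 16763152) (l 16751928))) (b (a (l 16763624) (l 16762688)) (a (l 16756504) (c (l 16764080) (l 16758192)))))), by decide +kernel⟩

def k13_B00pm_012_s3 : ∃ t, chk3 f_B00pm_012_s3 t 59 126 1 = true :=
  ⟨(a (b (a (b (l 16761344) (l 16760200)) (c (l 16760672) (l 16757432))) (c (l 22) (a (b (l 16756248) (l 16755336)) (b (l 16756224) (l 16755472))))) (b (a (c (l 16762824) (l 16757224)) (b (l 16760064) (c (l 16762000) (l 16756816)))) (a (c (l 22) (b (l 16756256) (l 16755664))) (a (c (l 22) (l 16756312)) (c (l 16761136) (l 16756424)))))), by decide +kernel⟩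

def k14_B00pm_012_s3 : ∃ t, chk3 f_B00pm_012_s3 t 59 254 1 = true :=
  ⟨(c (a (l 22) (a (l 22) (a (l 22) (a (l 22) (b (l 16760256) (l 16759672)))))) (a (a (b (a (l 16754568) (l 16754712)) (a (l 16753704) (l 16753928))) (b (a (l 16754872) (l 16755048)) (a (l 16754168) (l 16754424)))) (a (b (a (l 16755232) (l 16755432)) (a (l 16754688) (c (l 16756024) (l 16753904)))) (b (a (l 16755640) (l 16755872)) (a (c (l 16756280) (l 16754224)) (c (l 16756552) (l 16754552))))))), by decide +kernel⟩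

def k15_B00pm_012_s3 : ∃ t, chk3 f_B00pm_012_s3 t 118 255 1 = true :=
  ⟨(b (c (l 22) (b (a (a (l 16753088) (l 16753368)) (a (l 16753664) (l 16753976))) (a (a (c (l 16753792) (l 16751576)) (c (l 16754088) (l 16751928))) (a (c (l 16754400) (l 16752296)) (c (l 16754720) (l 16752672)))))) (b (c (l 22) (a (a (c (c (l 22) (l 16752832)) (c (l 16751760) (l 16750696))) (c (c (l 22) (l 16753184)) (c (l 16752144) (l 16751104)))) (a (c (c (l 22) (l 16753544)) (c (l 16752528) (l 16751520))) (a (c (l 16754368) (l 16752384)) (c (l 16754552) (l 16752600)))))) (c (l 22) (b (a (a (a (c (l 16753000) (l 16750912)) (c (l 16753184) (l 16751120))) (a (c (l 16753368) (l 16751328)) (c (l 16753552) (l 16751544)))) (a (c (c (l 22) (l 16753304)) (c (l 16752320) (l 16751336))) (a (c (l 16754136) (l 16752208)) (c (l 16754336) (l 16752440))))) (a (a (c (c (l 22) (c (l 22) (a (l 16752016) (l 16752216)))) (c (a (l 16751248) (l 16751456))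 (l 16750288))) (c (c (l 22) (a (c (l 22) (l 16752424)) (l 16752880))) (a (l 16751176) (l 16751400)))) (a (c (c (l 22) (a (l 16753088) (l 16753296))) (a (l 16751632) (l 16751864))) (a (c (c (l 22) (l 16753512)) (l 16752096)) (c (c (c (l 22) (l 16754424)) (l 16753728)) (l 16752328))))))))), by decide +kernel⟩

def k16_B00pm_012_s3 : ∃ t, chk3 f_B00pm_012_s3 t 119 255 1 = true :=
  ⟨(b (c (c (l 22) (a (l 22) (a (l 22) (b (l 16758184) (l 16757944))))) (b (a (a (l 16754304) (l 16754640)) (a (c (l 16755960) (l 16754008)) (c (l 16756288) (l 16754400)))) (a (a (c (l 16755056) (l 16753064)) (c (l 16755400) (l 16753464))) (a (c (l 16755760) (l 16753880)) (c (l 16756128) (l 16754312)))))) (b (c (a (l 22) (a (l 22) (a (l 22) (c (l 22) (l 16757880))))) (a (a (a (c (l 16754744) (l 16752816)) (c (l 16754936) (l 16753032))) (a (c (l 16755128) (l 16753256)) (c (l 16755328) (l 16753480)))) (a (a (c (l 16755528) (l 16753712))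 (c (l 16755728) (l 16753944))) (a (c (l 16755936) (l 16754176)) (c (l 16756144) (l 16754408)))))) (c (c (l 22) (c (l 22) (c (l 22) (a (l 22) (a (l 22) (a (l 22) (a (l 22) (a (l 22) (l 16757152))))))))) (a (b (a (a (c (l 16754544) (l 16752672)) (c (l 16754744) (l 16752904))) (a (c (l 16754960) (l 16753136)) (c (l 16755168) (l 16753376)))) (c (a (c (c (l 22) (a (l 16754632) (l 16754848))) (a (l 16753944) (l 16754168))) (c (a (c (l 22) (l 16755064)) (c (l 16755720) (l 16755280))) (a (l 16754392) (l 16754624)))) (a (a (l 16752568) (l 16752816)) (a (l 16753064) (l 16753312))))) (b (a (c (a (l 16755384) (l 16755600)) (l 16753688)) (c (a (l 16755824) (l 16756048)) (l 16754176))) (a (a (c (c (c (l 16755936) (l 16755504)) (l 16754856)) (l 16753560)) (c (c (c (l 16756152) (l 16755728)) (l 16755088)) (l 16753816))) (a (c (c (c (l 16756376) (l 16755952)) (l 16755328)) (l 16754072)) (c (a (l 16755936) (l 16756056))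 (l 16754336))))))))), by decide +kernel⟩

def k17_B00pm_012_s3 : ∃ t, chk3 f_B00pm_012_s3 t 30 6 1 = true :=
  ⟨(l 6), by decide +kernel⟩

def k18_B00pm_012_s3 : ∃ t, chk3 f_B00pm_012_s3 t 30 14 1 = true :=
  ⟨(a (b (l 6) (b (a (c (l 17588464) (l 16790960)) (l 16803752)) (a (l 16762264) (b (l 16778872) (l 16774488))))) (b (b (l 6) (a (l 16874448) (l 16771512))) (a (b (l 16774496) (a (l 16770816) (l 16766960))) (b (l 16765248) (b (l 16761608) (l 16759800)))))), by decide +kernel⟩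

def k19_B00pm_012_s3 : ∃ t, chk3 f_B00pm_012_s3 t 30 30 1 = true :=
  ⟨(a (b (a (b (l 16777592) (l 16772888)) (b (l 16770592) (a (l 16769368) (l 16766608)))) (b (a (a (l 16771256) (l 16768688)) (a (l 16766192) (l 16764064))) (a (a (l 16767328) (l 16765408)) (a (l 16763552) (l 16756816))))) (b (a (b (a (l 16766192) (l 16763288)) (a (l 16763768) (l 16761504))) (b (l 16758456) (l 16757600))) (a (b (a (l 16761856) (l 16760224)) (a (b (l 16760744) (l 16760192)) (l 16759464))) (b (b (l 16757248) (l 16757192)) (b (l 16757264) (l 14)))))), by decide +kernel⟩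

def k20_B00pm_012_s3 : ∃ t, chk3 f_B00pm_012_s3 t 60 62 1 = true :=
  ⟨(a (b (a (b (l 16764736) (l 16763200)) (b (l 16763288) (l 16762072))) (b (a (l 16761816) (l 16761008)) (a (c (l 16763392) (l 16757784)) (b (l 16760296) (l 16759880))))) (b (a (b (l 16761912) (l 16761008)) (b (l 16760896) (l 16760304))) (a (b (b (l 16760424) (l 16760080)) (b (l 16759784) (l 16759512))) (b (a (l 16760176) (l 16759952)) (a (l 16759800) (l 14)))))), by decide +kernel⟩

def k21_B00pm_012_s3 : ∃ t, chk3 f_B00pm_012_s3 t 60 63 1 = true :=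
  ⟨(b (a (b (a (b (l 16754512) (c (l 16761712) (l 16756792))) (c (b (l 16761952) (l 16761480)) (b (l 16757032) (l 16756824)))) (a (c (a (l 16761136) (l 16758528)) (b (l 16756472) (a (l 16756392) (l 16756568)))) (b (a (l 16759160) (l 16759224)) (c (a (l 16760952) (l 16761032)) (a (l 16756752) (l 16756960)))))) (a (b (b (a (l 16759720) (l 16759656)) (c (l 16761288) (l 16756904))) (l 14)) (l 14))) (c (b (a (c (l 22) (a (b (a (l 16759232) (l 16759392)) (a (l 16758784) (l 16759024))) (b (a (l 16759568) (l 14)) (l 14)))) (l 14)) (b (c (a (l 22) (l 14)) (a (a (a (b (l 16758472) (l 16758272)) (b (l 16758768) (l 14))) (l 14)) (l 14))) (c (a (l 22) (l 14)) (a (a (a (a (b (l 16758072) (c (l 22) (b (l 16757512) (a (l 16757392) (l 14))))) (b (c (l 22) (l 16757840)) (l 14))) (l 14)) (l 14)) (l 14))))) (b (a (a (b (a (l 16756112) (l 16756360)) (a (c (l 16756840) (l 16754904)) (c (l 16757144) (l 16755256)))) (b (a (l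 16756624) (l 14)) (l 14))) (l 14)) (c (a (a (a (a (b (l 16756552) (b (l 16756360) (c (b (l 16756688) (l 16756624)) (l 16755832)))) (b (l 16756736) (b (l 16756576) (l 14)))) (b (b (l 16756992) (l 14)) (l 14))) (l 14)) (l 14)) (a (a (b (a (b (l 16754800) (l 16754744)) (b (l 16755216) (l 14))) (a (a (b (l 16754648) (l 16754600)) (b (l 16754896) (l 14))) (l 14))) (l 14)) (l 14)))))), by decide +kernel⟩

def k22_B00pm_012_s3 : ∃ t, chk3 f_B00pm_012_s3 t 61 31 1 = true :=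
  ⟨(b (a (b (a (b (l 16759768) (l 16759488)) (b (l 16759224) (l 14))) (l 14)) (l 14)) (l 14)), by decide +kernel⟩

def k23_B00pm_012_s3 : ∃ t, chk3 f_B00pm_012_s3 t 31 3 1 = true :=
  ⟨(b (l 6) (b (b (a (b (l 16735128) (a (l 16758368) (l 16745536))) (b (a (l 16734216) (l 16721240)) (a (l 16733704) (b (l 16722424) (l 16723736))))) (a (b (a (l 16754600) (l 16744200)) (a (b (l 16752808) (l 16752224)) (b (l 16744208) (l 16744800)))) (a (b (b (l 16734256) (l 16735176)) (b (l 16736512) (l 14))) (b (a (l 16728512) (l 14)) (l 14))))) (b (a (b (a (b (l 16752096) (b (l 16752280) (l 16752568))) (l 14)) (l 14)) (l 14)) (l 14)))), by decide +kernel⟩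

theorem t24_B00pm_012_s3 : ∃ t, chk3 f_B00pm_012_s3 t 60 31 1 = true := ex3_b k20_B00pm_012_s3 k21_B00pm_012_s3

theorem t25_B00pm_012_s3 : ∃ t, chk3 f_B00pm_012_s3 t 30 31 1 = true := ex3_a t24_B00pm_012_s3 k22_B00pm_012_s3

theorem t26_B00pm_012_s3 : ∃ t, chk3 f_B00pm_012_s3 t 30 15 1 = true := ex3_b k19_B00pm_012_s3 t25_B00pm_012_s3

theorem t27_B00pm_012_s3 : ∃ t, chk3 f_B00pm_012_s3 t 30 7 1 = true := ex3_b k18_B00pm_012_s3 t26_B00pm_012_s3

theorem t28_B00pm_012_s3 : ∃ t, chk3 f_B00pm_012_s3 t 30 3 1 = true := ex3_b k17_B00pm_012_s3 t27_B00pm_012_s3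

theorem t29_B00pm_012_s3 : ∃ t, chk3 f_B00pm_012_s3 t 15 3 1 = true := ex3_a t28_B00pm_012_s3 k23_B00pm_012_s3

theorem t30_B00pm_012_s3 : ∃ t, chk3 f_B00pm_012_s3 t 59 255 1 = true := ex3_a k15_B00pm_012_s3 k16_B00pm_012_s3

theorem t31_B00pm_012_s3 : ∃ t, chk3 f_B00pm_012_s3 t 59 127 1 = true := ex3_b k14_B00pm_012_s3 t30_B00pm_012_s3

theorem t32_B00pm_012_s3 : ∃ t, chk3 f_B00pm_012_s3 t 59 63 1 = true := ex3_b k13_B00pm_012_s3 t31_B00pm_012_s3

theorem t33_B00pm_012_s3 : ∃ t, chk3 f_B00pm_012_s3 t 59 31 1 = true := ex3_b k12_B00pm_012_s3 t32_B00pm_012_s3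

theorem t34_B00pm_012_s3 : ∃ t, chk3 f_B00pm_012_s3 t 58 255 1 = true := ex3_b k10_B00pm_012_s3 k11_B00pm_012_s3

theorem t35_B00pm_012_s3 : ∃ t, chk3 f_B00pm_012_s3 t 58 127 1 = true := ex3_b k9_B00pm_012_s3 t34_B00pm_012_s3

theorem t36_B00pm_012_s3 : ∃ t, chk3 f_B00pm_012_s3 t 58 63 1 = true := ex3_b k8_B00pm_012_s3 t35_B00pm_012_s3

theorem t37_B00pm_012_s3 : ∃ t, chk3 f_B00pm_012_s3 t 58 31 1 = true := ex3_b k7_B00pm_012_s3 t36_B00pm_012_s3

theorem t38_B00pm_012_s3 : ∃ t, chk3 f_B00pm_012_s3 t 29 31 1 = true := ex3_a t37_B00pm_012_s3 t33_B00pm_012_s3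

theorem t39_B00pm_012_s3 : ∃ t, chk3 f_B00pm_012_s3 t 29 15 1 = true := ex3_b k6_B00pm_012_s3 t38_B00pm_012_s3

theorem t40_B00pm_012_s3 : ∃ t, chk3 f_B00pm_012_s3 t 14 15 1 = true := ex3_a k5_B00pm_012_s3 t39_B00pm_012_s3

theorem t41_B00pm_012_s3 : ∃ t, chk3 f_B00pm_012_s3 t 14 7 1 = true := ex3_b k4_B00pm_012_s3 t40_B00pm_012_s3

theorem t42_B00pm_012_s3 : ∃ t, chk3 f_B00pm_012_s3 t 14 3 1 = true := ex3_b k3_B00pm_012_s3 t41_B00pm_012_s3

theorem t43_B00pm_012_s3 : ∃ t, chk3 f_B00pm_012_s3 t 7 3 1 = true := ex3_a t42_B00pm_012_s3 t29_B00pm_012_s3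

theorem t44_B00pm_012_s3 : ∃ t, chk3 f_B00pm_012_s3 t 3 3 1 = true := ex3_a k2_B00pm_012_s3 t43_B00pm_012_s3

theorem t45_B00pm_012_s3 : ∃ t, chk3 f_B00pm_012_s3 t 3 1 1 = true := ex3_b k1_B00pm_012_s3 t44_B00pm_012_s3

theorem t46_B00pm_012_s3 : ∃ t, chk3 f_B00pm_012_s3 t 1 1 1 = true := ex3_a k0_B00pm_012_s3 t45_B00pm_012_s3

theorem c_B00pm_012_s3 : CertF 0 536870912 0 536870912 67108864 67108864 false true false .pnp 0 1 2
    ndF0q0 ndF0q2 pcF1 cut_B00pm_012_s3 Ext.none :=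
  certFK2 (fam := false) (s1 := true) (s2 := false) (a := 0) (b := 1) (c := 2) (cn := .pnp) (n1 := ndF0q0) (n2 := ndF0q2) (pc := pcF1) (cut := cut_B00pm_012_s3) (xt := Ext.none) (P1 := 0) (W1 := 536870912) (P2 := 0) (W2 := 536870912) (P3 := 67108864) (W3 := 67108864)
    rfl rfl rfl (fun _ => rfl) t46_B00pm_012_s3

theorem s_B00pm_012_s3 {κ x : ℝ} (hκ : κ * h0 = ken x) (hx : ((67108864 : ℕ) : ℝ) / S ≤ x)
    (hx' : x ≤ (((67108864 : ℕ) : ℝ) + (67108864 : ℕ)) / S)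
    (H : CutB (VF κ) PP tKF tL pcF (Cut.of [[⟨0, 0, 0, 67108864⟩, ⟨1, 1, 0, 67108864⟩, ⟨2, 1, 0, 67108864⟩], [⟨0, 0, 1, 33554432⟩, ⟨1, 1, 2, 33554432⟩, ⟨2, 1, 0, 8388608⟩, ⟨0, 0, 0, 150994944⟩, ⟨0, 1, 0, 1023410176⟩, ⟨1, 0, 0, 1023410176⟩, ⟨1, 1, 0, 150994944⟩]]) 0 1 2 0 0 (sgb true) (sgb false) x) :
    AltB (VF κ) PP tKF tL pcF [⟨4, 0, 0, 2845415833⟩] 0 1 2 0 0 (sgb true) (sgb false) x :=
  strip_altB (m := 2845415833) false rfl hκ covF00 covF02 hx hx' c_B00pm_012_s3 H (noExt_B)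

noncomputable def cut_B00pm_022_s1 : Cut := Cut.of [[⟨4, 0, 0, 1449551462⟩], [⟨0, 0, 0, 67108864⟩, ⟨1, 1, 0, 67108864⟩, ⟨2, 1, 0, 67108864⟩]]

noncomputable def f_B00pm_022_s1 : ℕ → ℕ → ℕ → ℕ → Bool := onCell 1073741824 536870912 0 536870912 67108864 67108864
    (rowFK 2 false true false .pp 0 2 2 (qsf 0 536870912 0 536870912 2) ndF0q0 ndF0q2 pcF2 cut_B00pm_022_s1 Ext.none)

def k0_B00pm_022_s1 : ∃ t, chk3 f_B00pm_022_s1 t 1 1 1 = true :=
  ⟨(l 6), by decide +kernel⟩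

theorem c_B00pm_022_s1 : CertF 0 536870912 0 536870912 67108864 67108864 false true false .pp 0 2 2
    ndF0q0 ndF0q2 pcF2 cut_B00pm_022_s1 Ext.none :=
  certFK2 (fam := false) (s1 := true) (s2 := false) (a := 0) (b := 2) (c := 2) (cn := .pp) (n1 := ndF0q0) (n2 := ndF0q2) (pc := pcF2) (cut := cut_B00pm_022_s1) (xt := Ext.none) (P1 := 0) (W1 := 536870912) (P2 := 0) (W2 := 536870912) (P3 := 67108864) (W3 := 67108864)
    rfl rfl rfl (fun _ => rfl) k0_B00pm_022_s1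

theorem s_B00pm_022_s1 {κ x : ℝ} (hκ : κ * h0 = ken x) (hx : ((67108864 : ℕ) : ℝ) / S ≤ x)
    (hx' : x ≤ (((67108864 : ℕ) : ℝ) + (67108864 : ℕ)) / S)
    (H : CutB (VF κ) PP tKF tL pcF (Cut.of [[⟨0, 0, 0, 67108864⟩, ⟨1, 1, 0, 67108864⟩, ⟨2, 1, 0, 67108864⟩]]) 0 2 2 0 0 (sgb true) (sgb false) x) :
    AltB (VF κ) PP tKF tL pcF [⟨3, 0, 0, 1449551462⟩] 0 2 2 0 0 (sgb true) (sgb false) x :=
  strip_altB (m := 1449551462) true rfl hκ covF00 covF02 hx hx' c_B00pm_022_s1 H (noExt_B)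

noncomputable def cut_B00pm_022_s3 : Cut := Cut.of [[⟨3, 0, 0, 2845415833⟩], [⟨0, 0, 0, 67108864⟩, ⟨1, 1, 0, 67108864⟩, ⟨2, 1, 0, 67108864⟩]]

noncomputable def f_B00pm_022_s3 : ℕ → ℕ → ℕ → ℕ → Bool := onCell 0 536870912 0 536870912 67108864 67108864
    (rowFK 0 false true false .pp 0 2 2 (qsf 0 536870912 0 536870912 2) ndF0q0 ndF0q2 pcF2 cut_B00pm_022_s3 Ext.none)

def k0_B00pm_022_s3 : ∃ t, chk3 f_B00pm_022_s3 t 1 1 1 = true :=
  ⟨(a (b (l 6) (a (b (b (l 6) (b (a (a (a (a (b (l 16724872) (l 16725904)) (b (l 6) (l 16714120))) (b (l 6) (l 16779816))) (l 6)) (l 6)) (a (a (a (b (a (l 16727376) (l 16715448)) (a (l 16729312) (l 16717240))) (b (l 16780912) (l 16719584))) (a (b (l 16755432) (a (l 16679448) (l 16666256))) (b (l 6) (a (l 16652736) (l 16638872))))) (a (l 6) (l 1))))) (a (a (b (b (a (b (a (l 16731744) (l 16719544)) (a (a (l 16737792) (l 16731688)) (l 16722400))) (b (a (l 16707096) (l 16694368))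 (a (l 16709824) (l 16707456)))) (l 14)) (l 14)) (a (b (b (b (a (l 16681352) (l 16668024)) (b (a (l 16683152) (l 16669728)) (l 14))) (l 14)) (l 14)) (b (b (b (b (l 16688880) (a (l 16654864) (l 16640824))) (a (b (l 16655968) (l 14)) (b (a (l 16645432) (a (l 16640088) (l 16636496))) (a (l 14) (l 16639472))))) (a (l 14) (a (l 14) (l 1)))) (l 1)))) (b (a (b (a (b (a (b (a (l 16629224) (l 16621960)) (a (l 16630064) (l 16622760))) (b (l 16610856) (l 1))) (b (a (l 16669328) (l 1)) (l 1))) (l 1)) (l 1)) (l 1)) (l 1)))) (b (l 1) (l 1)))) (l 1)), by decide +kernel⟩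

theorem c_B00pm_022_s3 : CertF 0 536870912 0 536870912 67108864 67108864 false true false .pp 0 2 2
    ndF0q0 ndF0q2 pcF2 cut_B00pm_022_s3 Ext.none :=
  certFK0 (fam := false) (s1 := true) (s2 := false) (a := 0) (b := 2) (c := 2) (cn := .pp) (n1 := ndF0q0) (n2 := ndF0q2) (pc := pcF2) (cut := cut_B00pm_022_s3) (xt := Ext.none) (P1 := 0) (W1 := 536870912) (P2 := 0) (W2 := 536870912) (P3 := 67108864) (W3 := 67108864)
    rfl rfl rfl k0_B00pm_022_s3

theorem s_B00pm_022_s3 {κ x : ℝ} (hκ : κ * h0 = ken x) (hx : ((67108864 : ℕ) : ℝ) / S ≤ x)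
    (hx' : x ≤ (((67108864 : ℕ) : ℝ) + (67108864 : ℕ)) / S)
    (H : CutB (VF κ) PP tKF tL pcF (Cut.of [[⟨0, 0, 0, 67108864⟩, ⟨1, 1, 0, 67108864⟩, ⟨2, 1, 0, 67108864⟩]]) 0 2 2 0 0 (sgb true) (sgb false) x) :
    AltB (VF κ) PP tKF tL pcF [⟨4, 0, 0, 2845415833⟩] 0 2 2 0 0 (sgb true) (sgb false) x :=
  strip_altB (m := 2845415833) false rfl hκ covF00 covF02 hx hx' c_B00pm_022_s3 H (noExt_B)

noncomputable def cut_B00pm_101_s1 : Cut := Cut.of [[⟨4, 0, 0, 1449551462⟩], [⟨0, 1, 0, 67108864⟩, ⟨1, 0, 0, 67108864⟩, ⟨2, 1, 0, 67108864⟩]]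

noncomputable def f_B00pm_101_s1 : ℕ → ℕ → ℕ → ℕ → Bool := onCell 0 536870912 536870912 536870912 67108864 67108864
    (rowFK 2 false true false .npn 1 0 1 (qsf 536870912 536870912 536870912 536870912 0) ndF0q1 ndF0q1 pcF0 cut_B00pm_101_s1 Ext.none)

def k0_B00pm_101_s1 : ∃ t, chk3 f_B00pm_101_s1 t 1 1 1 = true :=
  ⟨(a (b (l 6) (a (b (l 6) (b (a (l 6) (l 6)) (a (b (b (b (a (a (l 17969584) (l 6)) (l 6)) (c (l 17984208) (a (a (l 17818160) (l 17889792)) (l 6)))) (a (a (a (l 14) (a (l 14) (l 17637824))) (l 17652464)) (l 17771424))) (b (a (a (l 14) (a (l 14) (l 17366184))) (a (l 17400512) (l 17529888))) (b (a (l 14) (l 17199256)) (a (l 14) (a (l 14) (l 17319800)))))) (b (l 6) (b (a (l 17595384) (l 17676488)) (a (b (l 17409064) (a (l 17229776) (l 17305512))) (c (l 17654168) (l 17855920)))))))) (b (l 6) (b (l 6) (a (a (b (l 6) (b (l 6) (l 17587312))) (l 6)) (l 6)))))) (l 6)), by decide +kernel⟩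

theorem c_B00pm_101_s1 : CertF 536870912 536870912 536870912 536870912 67108864 67108864 false true false .npn 1 0 1
    ndF0q1 ndF0q1 pcF0 cut_B00pm_101_s1 Ext.none :=
  certFK2 (fam := false) (s1 := true) (s2 := false) (a := 1) (b := 0) (c := 1) (cn := .npn) (n1 := ndF0q1) (n2 := ndF0q1) (pc := pcF0) (cut := cut_B00pm_101_s1) (xt := Ext.none) (P1 := 536870912) (W1 := 536870912) (P2 := 536870912) (W2 := 536870912) (P3 := 67108864) (W3 := 67108864)
    rfl rfl rfl (fun _ => rfl) k0_B00pm_101_s1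

theorem s_B00pm_101_s1 {κ x : ℝ} (hκ : κ * h0 = ken x) (hx : ((67108864 : ℕ) : ℝ) / S ≤ x)
    (hx' : x ≤ (((67108864 : ℕ) : ℝ) + (67108864 : ℕ)) / S)
    (H : CutB (VF κ) PP tKF tL pcF (Cut.of [[⟨0, 1, 0, 67108864⟩, ⟨1, 0, 0, 67108864⟩, ⟨2, 1, 0, 67108864⟩]]) 1 0 1 0 0 (sgb true) (sgb false) x) :
    AltB (VF κ) PP tKF tL pcF [⟨3, 0, 0, 1449551462⟩] 1 0 1 0 0 (sgb true) (sgb false) x :=
  strip_altB (m := 1449551462) true rfl hκ covF01 covF01 hx hx' c_B00pm_101_s1 H (noExt_B)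

noncomputable def cut_B00pm_101_s3 : Cut := Cut.of [[⟨3, 0, 0, 2845415833⟩], [⟨0, 1, 0, 67108864⟩, ⟨1, 0, 0, 67108864⟩, ⟨2, 1, 0, 67108864⟩]]

noncomputable def xt_B00pm_101_s3 : Ext := strExt dd false true false .u0 .u0m .s0m .npn 1 0 1 rfl rfl gl0 vv ndF0q1 ndF0q1

noncomputable def f_B00pm_101_s3 : ℕ → ℕ → ℕ → ℕ → Bool := onCell 536870912 536870912 536870912 536870912 67108864 67108864
    (rowFK 0 false true false .npn 1 0 1 (qsf 536870912 536870912 536870912 536870912 0) ndF0q1 ndF0q1 pcF0 cut_B00pm_101_s3 xt_B00pm_101_s3)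

def k0_B00pm_101_s3 : ∃ t, chk3 f_B00pm_101_s3 t 1 1 1 = true :=
  ⟨(a (b (a (b (b (l 547503375) (a (l 547064847) (l 546902287))) (b (a (l 546809103) (l 546671375)) (a (l 546590991) (l 546380815)))) (b (a (b (l 1) (l 546686735)) (l 1)) (b (a (l 546593039) (l 109020575703)) (a (l 546375439) (l 6))))) (b (a (a (b (l 545841423) (l 17613568)) (b (l 545763599) (l 6))) (l 6)) (l 6))) (b (a (b (l 1) (l 6)) (l 1)) (l 6))), by decide +kernel⟩

theorem c_B00pm_101_s3 : CertF 536870912 536870912 536870912 536870912 67108864 67108864 false true false .npn 1 0 1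
    ndF0q1 ndF0q1 pcF0 cut_B00pm_101_s3 xt_B00pm_101_s3 :=
  certFK0 (fam := false) (s1 := true) (s2 := false) (a := 1) (b := 0) (c := 1) (cn := .npn) (n1 := ndF0q1) (n2 := ndF0q1) (pc := pcF0) (cut := cut_B00pm_101_s3) (xt := xt_B00pm_101_s3) (P1 := 536870912) (W1 := 536870912) (P2 := 536870912) (W2 := 536870912) (P3 := 67108864) (W3 := 67108864)
    rfl rfl rfl k0_B00pm_101_s3

theorem s_B00pm_101_s3 {κ x : ℝ} (hκ : κ * h0 = ken x) (hx : ((67108864 : ℕ) : ℝ) / S ≤ x)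
    (hx' : x ≤ (((67108864 : ℕ) : ℝ) + (67108864 : ℕ)) / S)
    (H : CutB (VF κ) PP tKF tL pcF (Cut.of [[⟨0, 1, 0, 67108864⟩, ⟨1, 0, 0, 67108864⟩, ⟨2, 1, 0, 67108864⟩]]) 1 0 1 0 0 (sgb true) (sgb false) x) :
    AltB (VF κ) PP tKF tL pcF [⟨4, 0, 0, 2845415833⟩] 1 0 1 0 0 (sgb true) (sgb false) x :=
  strip_altB (m := 2845415833) false rfl hκ covF01 covF01 hx hx' c_B00pm_101_s3 H ((okx hx hx').extB (T := tt) (sideF hx hx') hκ rfl rfl (.O 1 true) (.O 1 false) (Or.inl rfl))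

noncomputable def cut_B00pm_102_s1 : Cut := Cut.of [[⟨4, 0, 0, 1449551462⟩], [⟨0, 1, 0, 16777216⟩, ⟨1, 0, 0, 16777216⟩, ⟨2, 1, 0, 16777216⟩]]

noncomputable def xt_B00pm_102_s1 : Ext := strExt dd false true false .u0 .u2 .u0m .npp 1 0 2 rfl rfl gf0 vv ndF0q1 ndF0q2

noncomputable def f_B00pm_102_s1 : ℕ → ℕ → ℕ → ℕ → Bool := onCell 536870912 536870912 0 536870912 67108864 67108864
    (rowFK 0 false true false .npp 1 0 2 (qsf 536870912 536870912 0 536870912 0) ndF0q1 ndF0q2 pcF0 cut_B00pm_102_s1 xt_B00pm_102_s1)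

def k0_B00pm_102_s1 : ∃ t, chk3 f_B00pm_102_s1 t 2 1 1 = true :=
  ⟨(b (a (b (l 2) (a (l 2) (l 403291458391))) (b (a (l 542024719) (b (l 3) (l 542786575))) (a (a (l 541714959) (l 542009871)) (l 543061519)))) (a (b (l 6) (l 6)) (b (a (b (l 17071848) (l 6)) (b (l 542282511) (l 17102456))) (l 6)))), by decide +kernel⟩

def k1_B00pm_102_s1 : ∃ t, chk3 f_B00pm_102_s1 t 3 2 1 = true :=
  ⟨(a (b (l 3) (a (l 543291663) (l 3))) (l 3)), by decide +kernel⟩

def k2_B00pm_102_s1 : ∃ t, chk3 f_B00pm_102_s1 t 3 3 1 = true :=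
  ⟨(b (b (a (a (l 543024399) (l 543770639)) (l 3)) (a (a (l 542904847) (a (l 543389967) (l 543723791))) (a (a (b (l 544069903) (l 543978511)) (a (a (l 544169487) (l 3)) (l 3))) (l 3)))) (a (a (b (a (l 17543416) (b (l 17075112) (l 17254576))) (l 6)) (a (b (b (l 17015480) (l 17184928)) (b (l 17418568) (l 17614224))) (b (b (l 17029840) (l 17012360)) (b (b (l 17167200) (l 17186264)) (l 17728288))))) (b (a (a (b (a (l 543774991) (l 543911439)) (b (l 17001952) (l 16952344))) (a (l 544044047) (l 544190223))) (b (l 3) (a (a (l 544192271) (l 545164815)) (l 3)))) (a (b (b (a (l 17081376) (l 544000015)) (a (b (l 17112232) (l 17151008)) (a (l 16969640) (l 16913280)))) (b (a (l 17251424) (a (l 17126384) (l 17138952))) (a (l 17471416) (b (l 17189320) (l 17341336))))) (b (a (a (l 544099087) (a (l 544096271) (l 544171535))) (a (a (l 545884687) (a (l 544240911) (l 3))) (l 3))) (a (b (b (a (l 16898552) (l 544598031)) (a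 (a (l 16936632) (l 16906208)) (a (l 16880072) (l 16849280)))) (b (a (l 16981240) (a (l 16998712) (l 16961400))) (a (l 17047520) (a (l 16983032) (l 17024744))))) (b (a (a (l 544340239) (a (l 544020239) (l 544077839))) (b (l 3) (a (a (l 545074447) (a (l 543943695) (l 3))) (l 3)))) (a (b (b (a (l 16840208) (b (l 16830456) (l 16855864))) (a (l 16935880) (a (l 16830008) (l 16814088)))) (b (a (l 16880472) (l 16900000)) (a (l 16912824) (a (l 16880288) (l 16942936))))) (b (a (a (a (l 543883023) (l 543909391)) (a (l 543946767) (l 545075983))) (b (l 3) (l 14))) (a (b (b (a (l 16809184) (b (l 16804064) (l 16816768))) (a (l 16856912) (l 14))) (a (b (l 16828984) (l 16844920)) (l 14))) (l 14))))))))))), by decide +kernel⟩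

theorem t3_B00pm_102_s1 : ∃ t, chk3 f_B00pm_102_s1 t 3 1 1 = true := ex3_b k1_B00pm_102_s1 k2_B00pm_102_s1

theorem t4_B00pm_102_s1 : ∃ t, chk3 f_B00pm_102_s1 t 1 1 1 = true := ex3_a k0_B00pm_102_s1 t3_B00pm_102_s1

theorem c_B00pm_102_s1 : CertF 536870912 536870912 0 536870912 67108864 67108864 false true false .npp 1 0 2
    ndF0q1 ndF0q2 pcF0 cut_B00pm_102_s1 xt_B00pm_102_s1 :=
  certFK0 (fam := false) (s1 := true) (s2 := false) (a := 1) (b := 0) (c := 2) (cn := .npp) (n1 := ndF0q1) (n2 := ndF0q2) (pc := pcF0) (cut := cut_B00pm_102_s1) (xt := xt_B00pm_102_s1) (P1 := 536870912) (W1 := 536870912) (P2 := 0) (W2 := 536870912) (P3 := 67108864) (W3 := 67108864)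
    rfl rfl rfl t4_B00pm_102_s1

theorem s_B00pm_102_s1 {κ x : ℝ} (hκ : κ * h0 = ken x) (hx : ((67108864 : ℕ) : ℝ) / S ≤ x)
    (hx' : x ≤ (((67108864 : ℕ) : ℝ) + (67108864 : ℕ)) / S)
    (H : CutB (VF κ) PP tKF tL pcF (Cut.of [[⟨0, 1, 0, 16777216⟩, ⟨1, 0, 0, 16777216⟩, ⟨2, 1, 0, 16777216⟩]]) 1 0 2 0 0 (sgb true) (sgb false) x) :
    AltB (VF κ) PP tKF tL pcF [⟨3, 0, 0, 1449551462⟩] 1 0 2 0 0 (sgb true) (sgb false) x :=
  strip_altB (m := 1449551462) true rfl hκ covF01 covF02 hx hx' c_B00pm_102_s1 H ((okx hx hx').extB (T := tt) (sideF hx hx') hκ rfl rfl (.O 1 true) (.O 2 false) (Or.inl rfl))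

noncomputable def cut_B00pm_102_s3 : Cut := Cut.of [[⟨3, 0, 0, 2845415833⟩], [⟨0, 1, 0, 16777216⟩, ⟨1, 0, 0, 16777216⟩, ⟨2, 1, 0, 16777216⟩]]

noncomputable def f_B00pm_102_s3 : ℕ → ℕ → ℕ → ℕ → Bool := onCell 536870912 536870912 0 536870912 67108864 67108864
    (rowFK 0 false true false .npp 1 0 2 (qsf 536870912 536870912 0 536870912 0) ndF0q1 ndF0q2 pcF0 cut_B00pm_102_s3 Ext.none)

def k0_B00pm_102_s3 : ∃ t, chk3 f_B00pm_102_s3 t 1 1 1 = true :=
  ⟨(l 6), by decide +kernel⟩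

theorem c_B00pm_102_s3 : CertF 536870912 536870912 0 536870912 67108864 67108864 false true false .npp 1 0 2
    ndF0q1 ndF0q2 pcF0 cut_B00pm_102_s3 Ext.none :=
  certFK0 (fam := false) (s1 := true) (s2 := false) (a := 1) (b := 0) (c := 2) (cn := .npp) (n1 := ndF0q1) (n2 := ndF0q2) (pc := pcF0) (cut := cut_B00pm_102_s3) (xt := Ext.none) (P1 := 536870912) (W1 := 536870912) (P2 := 0) (W2 := 536870912) (P3 := 67108864) (W3 := 67108864)
    rfl rfl rfl k0_B00pm_102_s3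

theorem s_B00pm_102_s3 {κ x : ℝ} (hκ : κ * h0 = ken x) (hx : ((67108864 : ℕ) : ℝ) / S ≤ x)
    (hx' : x ≤ (((67108864 : ℕ) : ℝ) + (67108864 : ℕ)) / S)
    (H : CutB (VF κ) PP tKF tL pcF (Cut.of [[⟨0, 1, 0, 16777216⟩, ⟨1, 0, 0, 16777216⟩, ⟨2, 1, 0, 16777216⟩]]) 1 0 2 0 0 (sgb true) (sgb false) x) :
    AltB (VF κ) PP tKF tL pcF [⟨4, 0, 0, 2845415833⟩] 1 0 2 0 0 (sgb true) (sgb false) x :=
  strip_altB (m := 2845415833) false rfl hκ covF01 covF02 hx hx' c_B00pm_102_s3 H (noExt_B)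

noncomputable def cut_B00pm_112_s1 : Cut := Cut.of [[⟨4, 0, 0, 1449551462⟩]]

noncomputable def xt_B00pm_112_s1 : Ext := strExt dd false true false .u0 .u2 .u0m .dn 1 1 2 rfl rfl gf1 vv ndF0q1 ndF0q2

noncomputable def f_B00pm_112_s1 : ℕ → ℕ → ℕ → ℕ → Bool := onCell 536870912 536870912 0 536870912 67108864 67108864
    (rowFK 0 false true false .dn 1 1 2 (qsf 536870912 536870912 0 536870912 1) ndF0q1 ndF0q2 pcF1 cut_B00pm_112_s1 xt_B00pm_112_s1)

def k0_B00pm_112_s1 : ∃ t, chk3 f_B00pm_112_s1 t 1 1 1 = true :=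
  ⟨(a (b (a (a (b (l 543259407) (l 543588367)) (b (l 543318543) (a (l 17327272) (l 543398927)))) (a (b (l 543683599) (a (l 543106319) (l 1))) (l 1))) (a (b (l 6) (l 6)) (b (l 1) (l 1)))) (l 1)), by decide +kernel⟩

theorem c_B00pm_112_s1 : CertF 536870912 536870912 0 536870912 67108864 67108864 false true false .dn 1 1 2
    ndF0q1 ndF0q2 pcF1 cut_B00pm_112_s1 xt_B00pm_112_s1 :=
  certFK0 (fam := false) (s1 := true) (s2 := false) (a := 1) (b := 1) (c := 2) (cn := .dn) (n1 := ndF0q1) (n2 := ndF0q2) (pc := pcF1) (cut := cut_B00pm_112_s1) (xt := xt_B00pm_112_s1) (P1 := 536870912) (W1 := 536870912) (P2 := 0) (W2 := 536870912) (P3 := 67108864) (W3 := 67108864)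
    rfl rfl rfl k0_B00pm_112_s1

theorem s_B00pm_112_s1 {κ x : ℝ} (hκ : κ * h0 = ken x) (hx : ((67108864 : ℕ) : ℝ) / S ≤ x)
    (hx' : x ≤ (((67108864 : ℕ) : ℝ) + (67108864 : ℕ)) / S) :
    AltB (VF κ) PP tKF tL pcF [⟨3, 0, 0, 1449551462⟩] 1 1 2 0 0 (sgb true) (sgb false) x :=
  strip_altB (m := 1449551462) true rfl hκ covF01 covF02 hx hx' c_B00pm_112_s1 cutB_nil ((okx hx hx').extB (T := tt) (sideF hx hx') hκ rfl rfl (.O 1 true) (.O 2 false) (Or.inr rfl))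

noncomputable def cut_B00pm_112_s3 : Cut := Cut.of [[⟨3, 0, 0, 2845415833⟩]]

noncomputable def f_B00pm_112_s3 : ℕ → ℕ → ℕ → ℕ → Bool := onCell 536870912 536870912 0 536870912 67108864 67108864
    (rowFK 0 false true false .dn 1 1 2 (qsf 536870912 536870912 0 536870912 1) ndF0q1 ndF0q2 pcF1 cut_B00pm_112_s3 Ext.none)

def k0_B00pm_112_s3 : ∃ t, chk3 f_B00pm_112_s3 t 1 1 1 = true :=
  ⟨(l 6), by decide +kernel⟩

theorem c_B00pm_112_s3 : CertF 536870912 536870912 0 536870912 67108864 67108864 false true false .dn 1 1 2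
    ndF0q1 ndF0q2 pcF1 cut_B00pm_112_s3 Ext.none :=
  certFK0 (fam := false) (s1 := true) (s2 := false) (a := 1) (b := 1) (c := 2) (cn := .dn) (n1 := ndF0q1) (n2 := ndF0q2) (pc := pcF1) (cut := cut_B00pm_112_s3) (xt := Ext.none) (P1 := 536870912) (W1 := 536870912) (P2 := 0) (W2 := 536870912) (P3 := 67108864) (W3 := 67108864)
    rfl rfl rfl k0_B00pm_112_s3

theorem s_B00pm_112_s3 {κ x : ℝ} (hκ : κ * h0 = ken x) (hx : ((67108864 : ℕ) : ℝ) / S ≤ x)
    (hx' : x ≤ (((67108864 : ℕ) : ℝ) + (67108864 : ℕ)) / S) :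
    AltB (VF κ) PP tKF tL pcF [⟨4, 0, 0, 2845415833⟩] 1 1 2 0 0 (sgb true) (sgb false) x :=
  strip_altB (m := 2845415833) false rfl hκ covF01 covF02 hx hx' c_B00pm_112_s3 cutB_nil (noExt_B)

noncomputable def cut_B00pm_202_s1 : Cut := Cut.of [[⟨4, 0, 0, 1449551462⟩], [⟨0, 1, 0, 67108864⟩, ⟨1, 0, 0, 67108864⟩, ⟨2, 1, 0, 67108864⟩]]

noncomputable def f_B00pm_202_s1 : ℕ → ℕ → ℕ → ℕ → Bool := onCell 0 536870912 0 536870912 67108864 67108864
    (rowFK 0 false true false .pp 2 0 2 (qsf 0 536870912 0 536870912 0) ndF0q2 ndF0q2 pcF0 cut_B00pm_202_s1 Ext.none)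

def k0_B00pm_202_s1 : ∃ t, chk3 f_B00pm_202_s1 t 1 1 1 = true :=
  ⟨(a (l 3) (b (l 3) (a (l 3) (b (l 3) (b (l 3) (a (l 3) (l 14))))))), by decide +kernel⟩

theorem c_B00pm_202_s1 : CertF 0 536870912 0 536870912 67108864 67108864 false true false .pp 2 0 2
    ndF0q2 ndF0q2 pcF0 cut_B00pm_202_s1 Ext.none :=
  certFK0 (fam := false) (s1 := true) (s2 := false) (a := 2) (b := 0) (c := 2) (cn := .pp) (n1 := ndF0q2) (n2 := ndF0q2) (pc := pcF0) (cut := cut_B00pm_202_s1) (xt := Ext.none) (P1 := 0) (W1 := 536870912) (P2 := 0) (W2 := 536870912) (P3 := 67108864) (W3 := 67108864)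
    rfl rfl rfl k0_B00pm_202_s1

theorem s_B00pm_202_s1 {κ x : ℝ} (hκ : κ * h0 = ken x) (hx : ((67108864 : ℕ) : ℝ) / S ≤ x)
    (hx' : x ≤ (((67108864 : ℕ) : ℝ) + (67108864 : ℕ)) / S)
    (H : CutB (VF κ) PP tKF tL pcF (Cut.of [[⟨0, 1, 0, 67108864⟩, ⟨1, 0, 0, 67108864⟩, ⟨2, 1, 0, 67108864⟩]]) 2 0 2 0 0 (sgb true) (sgb false) x) :
    AltB (VF κ) PP tKF tL pcF [⟨3, 0, 0, 1449551462⟩] 2 0 2 0 0 (sgb true) (sgb false) x :=
  strip_altB (m := 1449551462) true rfl hκ covF02 covF02 hx hx' c_B00pm_202_s1 H (noExt_B)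

noncomputable def cut_B00pm_202_s3 : Cut := Cut.of [[⟨3, 0, 0, 2845415833⟩], [⟨0, 1, 0, 67108864⟩, ⟨1, 0, 0, 67108864⟩, ⟨2, 1, 0, 67108864⟩]]

noncomputable def f_B00pm_202_s3 : ℕ → ℕ → ℕ → ℕ → Bool := onCell 0 536870912 0 536870912 67108864 67108864
    (rowFK 0 false true false .pp 2 0 2 (qsf 0 536870912 0 536870912 0) ndF0q2 ndF0q2 pcF0 cut_B00pm_202_s3 Ext.none)

def k0_B00pm_202_s3 : ∃ t, chk3 f_B00pm_202_s3 t 1 1 1 = true :=
  ⟨(l 6), by decide +kernel⟩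

theorem c_B00pm_202_s3 : CertF 0 536870912 0 536870912 67108864 67108864 false true false .pp 2 0 2
    ndF0q2 ndF0q2 pcF0 cut_B00pm_202_s3 Ext.none :=
  certFK0 (fam := false) (s1 := true) (s2 := false) (a := 2) (b := 0) (c := 2) (cn := .pp) (n1 := ndF0q2) (n2 := ndF0q2) (pc := pcF0) (cut := cut_B00pm_202_s3) (xt := Ext.none) (P1 := 0) (W1 := 536870912) (P2 := 0) (W2 := 536870912) (P3 := 67108864) (W3 := 67108864)
    rfl rfl rfl k0_B00pm_202_s3

theorem s_B00pm_202_s3 {κ x : ℝ} (hκ : κ * h0 = ken x) (hx : ((67108864 : ℕ) : ℝ) / S ≤ x)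
    (hx' : x ≤ (((67108864 : ℕ) : ℝ) + (67108864 : ℕ)) / S)
    (H : CutB (VF κ) PP tKF tL pcF (Cut.of [[⟨0, 1, 0, 67108864⟩, ⟨1, 0, 0, 67108864⟩, ⟨2, 1, 0, 67108864⟩]]) 2 0 2 0 0 (sgb true) (sgb false) x) :
    AltB (VF κ) PP tKF tL pcF [⟨4, 0, 0, 2845415833⟩] 2 0 2 0 0 (sgb true) (sgb false) x :=
  strip_altB (m := 2845415833) false rfl hκ covF02 covF02 hx hx' c_B00pm_202_s3 H (noExt_B)

noncomputable def cut_B00mm_001_s1 : Cut := Cut.of [[⟨4, 0, 0, 1449551462⟩]]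

noncomputable def f_B00mm_001_s1 : ℕ → ℕ → ℕ → ℕ → Bool := onCell 0 536870912 0 536870912 67108864 67108864
    (rowFK 1 false false false .up 0 0 1 (qsf 0 536870912 536870912 536870912 0) ndF0q0 ndF0q1 pcF0 cut_B00mm_001_s1 Ext.none)

def k0_B00mm_001_s1 : ∃ t, chk3 f_B00mm_001_s1 t 1 1 1 = true :=
  ⟨(l 3), by decide +kernel⟩

theorem c_B00mm_001_s1 : CertF 0 536870912 536870912 536870912 67108864 67108864 false false false .up 0 0 1
    ndF0q0 ndF0q1 pcF0 cut_B00mm_001_s1 Ext.none :=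
  certFK1 (fam := false) (s1 := false) (s2 := false) (a := 0) (b := 0) (c := 1) (cn := .up) (n1 := ndF0q0) (n2 := ndF0q1) (pc := pcF0) (cut := cut_B00mm_001_s1) (xt := Ext.none) (P1 := 0) (W1 := 536870912) (P2 := 536870912) (W2 := 536870912) (P3 := 67108864) (W3 := 67108864)
    rfl rfl rfl (fun _ => rfl) k0_B00mm_001_s1

theorem s_B00mm_001_s1 {κ x : ℝ} (hκ : κ * h0 = ken x) (hx : ((67108864 : ℕ) : ℝ) / S ≤ x)
    (hx' : x ≤ (((67108864 : ℕ) : ℝ) + (67108864 : ℕ)) / S) :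
    AltB (VF κ) PP tKF tL pcF [⟨3, 0, 0, 1449551462⟩] 0 0 1 0 0 (sgb false) (sgb false) x :=
  strip_altB (m := 1449551462) true rfl hκ covF00 covF01 hx hx' c_B00mm_001_s1 cutB_nil (noExt_B)

noncomputable def cut_B00mm_001_s3 : Cut := Cut.of [[⟨3, 0, 0, 2845415833⟩]]

noncomputable def f_B00mm_001_s3 : ℕ → ℕ → ℕ → ℕ → Bool := onCell 0 536870912 536870912 536870912 67108864 67108864
    (rowFK 0 false false false .up 0 0 1 (qsf 0 536870912 536870912 536870912 0) ndF0q0 ndF0q1 pcF0 cut_B00mm_001_s3 Ext.none)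

def k0_B00mm_001_s3 : ∃ t, chk3 f_B00mm_001_s3 t 1 1 1 = true :=
  ⟨(l 6), by decide +kernel⟩

theorem c_B00mm_001_s3 : CertF 0 536870912 536870912 536870912 67108864 67108864 false false false .up 0 0 1
    ndF0q0 ndF0q1 pcF0 cut_B00mm_001_s3 Ext.none :=
  certFK0 (fam := false) (s1 := false) (s2 := false) (a := 0) (b := 0) (c := 1) (cn := .up) (n1 := ndF0q0) (n2 := ndF0q1) (pc := pcF0) (cut := cut_B00mm_001_s3) (xt := Ext.none) (P1 := 0) (W1 := 536870912) (P2 := 536870912) (W2 := 536870912) (P3 := 67108864) (W3 := 67108864)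
    rfl rfl rfl k0_B00mm_001_s3

theorem s_B00mm_001_s3 {κ x : ℝ} (hκ : κ * h0 = ken x) (hx : ((67108864 : ℕ) : ℝ) / S ≤ x)
    (hx' : x ≤ (((67108864 : ℕ) : ℝ) + (67108864 : ℕ)) / S) :
    AltB (VF κ) PP tKF tL pcF [⟨4, 0, 0, 2845415833⟩] 0 0 1 0 0 (sgb false) (sgb false) x :=
  strip_altB (m := 2845415833) false rfl hκ covF00 covF01 hx hx' c_B00mm_001_s3 cutB_nil (noExt_B)

noncomputable def cut_B00mm_011_s1 : Cut := Cut.of [[⟨4, 0, 0, 1449551462⟩]]

noncomputable def f_B00mm_011_s1 : ℕ → ℕ → ℕ → ℕ → Bool := onCell 0 536870912 536870912 536870912 67108864 67108864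
    (rowFK 1 false false false .pnn 0 1 1 (qsf 0 536870912 536870912 536870912 1) ndF0q0 ndF0q1 pcF1 cut_B00mm_011_s1 Ext.none)

def k0_B00mm_011_s1 : ∃ t, chk3 f_B00mm_011_s1 t 1 1 1 = true :=
  ⟨(l 5), by decide +kernel⟩

theorem c_B00mm_011_s1 : CertF 0 536870912 536870912 536870912 67108864 67108864 false false false .pnn 0 1 1
    ndF0q0 ndF0q1 pcF1 cut_B00mm_011_s1 Ext.none :=
  certFK1 (fam := false) (s1 := false) (s2 := false) (a := 0) (b := 1) (c := 1) (cn := .pnn) (n1 := ndF0q0) (n2 := ndF0q1) (pc := pcF1) (cut := cut_B00mm_011_s1) (xt := Ext.none) (P1 := 0) (W1 := 536870912) (P2 := 536870912) (W2 := 536870912) (P3 := 67108864) (W3 := 67108864)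
    rfl rfl rfl (fun _ => rfl) k0_B00mm_011_s1

theorem s_B00mm_011_s1 {κ x : ℝ} (hκ : κ * h0 = ken x) (hx : ((67108864 : ℕ) : ℝ) / S ≤ x)
    (hx' : x ≤ (((67108864 : ℕ) : ℝ) + (67108864 : ℕ)) / S) :
    AltB (VF κ) PP tKF tL pcF [⟨3, 0, 0, 1449551462⟩] 0 1 1 0 0 (sgb false) (sgb false) x :=
  strip_altB (m := 1449551462) true rfl hκ covF00 covF01 hx hx' c_B00mm_011_s1 cutB_nil (noExt_B)

noncomputable def cut_B00mm_011_s3 : Cut := Cut.of [[⟨3, 0, 0, 2845415833⟩]]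

noncomputable def f_B00mm_011_s3 : ℕ → ℕ → ℕ → ℕ → Bool := onCell 0 536870912 536870912 536870912 67108864 67108864
    (rowFK 0 false false false .pnn 0 1 1 (qsf 0 536870912 536870912 536870912 1) ndF0q0 ndF0q1 pcF1 cut_B00mm_011_s3 Ext.none)

def k0_B00mm_011_s3 : ∃ t, chk3 f_B00mm_011_s3 t 1 1 1 = true :=
  ⟨(l 6), by decide +kernel⟩

theorem c_B00mm_011_s3 : CertF 0 536870912 536870912 536870912 67108864 67108864 false false false .pnn 0 1 1
    ndF0q0 ndF0q1 pcF1 cut_B00mm_011_s3 Ext.none :=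
  certFK0 (fam := false) (s1 := false) (s2 := false) (a := 0) (b := 1) (c := 1) (cn := .pnn) (n1 := ndF0q0) (n2 := ndF0q1) (pc := pcF1) (cut := cut_B00mm_011_s3) (xt := Ext.none) (P1 := 0) (W1 := 536870912) (P2 := 536870912) (W2 := 536870912) (P3 := 67108864) (W3 := 67108864)
    rfl rfl rfl k0_B00mm_011_s3

theorem s_B00mm_011_s3 {κ x : ℝ} (hκ : κ * h0 = ken x) (hx : ((67108864 : ℕ) : ℝ) / S ≤ x)
    (hx' : x ≤ (((67108864 : ℕ) : ℝ) + (67108864 : ℕ)) / S) :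
    AltB (VF κ) PP tKF tL pcF [⟨4, 0, 0, 2845415833⟩] 0 1 1 0 0 (sgb false) (sgb false) x :=
  strip_altB (m := 2845415833) false rfl hκ covF00 covF01 hx hx' c_B00mm_011_s3 cutB_nil (noExt_B)

noncomputable def cut_B00mm_012_s1 : Cut := Cut.of [[⟨4, 0, 0, 1449551462⟩]]

noncomputable def f_B00mm_012_s1 : ℕ → ℕ → ℕ → ℕ → Bool := onCell 0 536870912 0 536870912 67108864 67108864
    (rowFK 0 false false false .pnp 0 1 2 (qsf 0 536870912 0 536870912 1) ndF0q0 ndF0q2 pcF1 cut_B00mm_012_s1 Ext.none)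

def k0_B00mm_012_s1 : ∃ t, chk3 f_B00mm_012_s1 t 1 1 1 = true :=
  ⟨(l 5), by decide +kernel⟩

theorem c_B00mm_012_s1 : CertF 0 536870912 0 536870912 67108864 67108864 false false false .pnp 0 1 2
    ndF0q0 ndF0q2 pcF1 cut_B00mm_012_s1 Ext.none :=
  certFK0 (fam := false) (s1 := false) (s2 := false) (a := 0) (b := 1) (c := 2) (cn := .pnp) (n1 := ndF0q0) (n2 := ndF0q2) (pc := pcF1) (cut := cut_B00mm_012_s1) (xt := Ext.none) (P1 := 0) (W1 := 536870912) (P2 := 0) (W2 := 536870912) (P3 := 67108864) (W3 := 67108864)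
    rfl rfl rfl k0_B00mm_012_s1

theorem s_B00mm_012_s1 {κ x : ℝ} (hκ : κ * h0 = ken x) (hx : ((67108864 : ℕ) : ℝ) / S ≤ x)
    (hx' : x ≤ (((67108864 : ℕ) : ℝ) + (67108864 : ℕ)) / S) :
    AltB (VF κ) PP tKF tL pcF [⟨3, 0, 0, 1449551462⟩] 0 1 2 0 0 (sgb false) (sgb false) x :=
  strip_altB (m := 1449551462) true rfl hκ covF00 covF02 hx hx' c_B00mm_012_s1 cutB_nil (noExt_B)

noncomputable def cut_B00mm_012_s3 : Cut := Cut.of [[⟨3, 0, 0, 2845415833⟩]]

noncomputable def f_B00mm_012_s3 : ℕ → ℕ → ℕ → ℕ → Bool := onCell 0 536870912 0 536870912 67108864 67108864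
    (rowFK 0 false false false .pnp 0 1 2 (qsf 0 536870912 0 536870912 1) ndF0q0 ndF0q2 pcF1 cut_B00mm_012_s3 Ext.none)

def k0_B00mm_012_s3 : ∃ t, chk3 f_B00mm_012_s3 t 1 1 1 = true :=
  ⟨(l 5), by decide +kernel⟩

theorem c_B00mm_012_s3 : CertF 0 536870912 0 536870912 67108864 67108864 false false false .pnp 0 1 2
    ndF0q0 ndF0q2 pcF1 cut_B00mm_012_s3 Ext.none :=
  certFK0 (fam := false) (s1 := false) (s2 := false) (a := 0) (b := 1) (c := 2) (cn := .pnp) (n1 := ndF0q0) (n2 := ndF0q2) (pc := pcF1) (cut := cut_B00mm_012_s3) (xt := Ext.none) (P1 := 0) (W1 := 536870912) (P2 := 0) (W2 := 536870912) (P3 := 67108864) (W3 := 67108864)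
    rfl rfl rfl k0_B00mm_012_s3

theorem s_B00mm_012_s3 {κ x : ℝ} (hκ : κ * h0 = ken x) (hx : ((67108864 : ℕ) : ℝ) / S ≤ x)
    (hx' : x ≤ (((67108864 : ℕ) : ℝ) + (67108864 : ℕ)) / S) :
    AltB (VF κ) PP tKF tL pcF [⟨4, 0, 0, 2845415833⟩] 0 1 2 0 0 (sgb false) (sgb false) x :=
  strip_altB (m := 2845415833) false rfl hκ covF00 covF02 hx hx' c_B00mm_012_s3 cutB_nil (noExt_B)

noncomputable def cut_B00mm_022_s1 : Cut := Cut.of [[⟨4, 0, 0, 1449551462⟩]]

noncomputable def f_B00mm_022_s1 : ℕ → ℕ → ℕ → ℕ → Bool := onCell 0 536870912 0 536870912 67108864 67108864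
    (rowFK 0 false false false .pp 0 2 2 (qsf 0 536870912 0 536870912 2) ndF0q0 ndF0q2 pcF2 cut_B00mm_022_s1 Ext.none)

def k0_B00mm_022_s1 : ∃ t, chk3 f_B00mm_022_s1 t 1 1 1 = true :=
  ⟨(l 5), by decide +kernel⟩

theorem c_B00mm_022_s1 : CertF 0 536870912 0 536870912 67108864 67108864 false false false .pp 0 2 2
    ndF0q0 ndF0q2 pcF2 cut_B00mm_022_s1 Ext.none :=
  certFK0 (fam := false) (s1 := false) (s2 := false) (a := 0) (b := 2) (c := 2) (cn := .pp) (n1 := ndF0q0) (n2 := ndF0q2) (pc := pcF2) (cut := cut_B00mm_022_s1) (xt := Ext.none) (P1 := 0) (W1 := 536870912) (P2 := 0) (W2 := 536870912) (P3 := 67108864) (W3 := 67108864)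
    rfl rfl rfl k0_B00mm_022_s1

theorem s_B00mm_022_s1 {κ x : ℝ} (hκ : κ * h0 = ken x) (hx : ((67108864 : ℕ) : ℝ) / S ≤ x)
    (hx' : x ≤ (((67108864 : ℕ) : ℝ) + (67108864 : ℕ)) / S) :
    AltB (VF κ) PP tKF tL pcF [⟨3, 0, 0, 1449551462⟩] 0 2 2 0 0 (sgb false) (sgb false) x :=
  strip_altB (m := 1449551462) true rfl hκ covF00 covF02 hx hx' c_B00mm_022_s1 cutB_nil (noExt_B)

noncomputable def cut_B00mm_022_s3 : Cut := Cut.of [[⟨3, 0, 0, 2845415833⟩]]

noncomputable def f_B00mm_022_s3 : ℕ → ℕ → ℕ → ℕ → Bool := onCell 0 536870912 0 536870912 67108864 67108864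
    (rowFK 0 false false false .pp 0 2 2 (qsf 0 536870912 0 536870912 2) ndF0q0 ndF0q2 pcF2 cut_B00mm_022_s3 Ext.none)

def k0_B00mm_022_s3 : ∃ t, chk3 f_B00mm_022_s3 t 1 1 1 = true :=
  ⟨(l 5), by decide +kernel⟩

theorem c_B00mm_022_s3 : CertF 0 536870912 0 536870912 67108864 67108864 false false false .pp 0 2 2
    ndF0q0 ndF0q2 pcF2 cut_B00mm_022_s3 Ext.none :=
  certFK0 (fam := false) (s1 := false) (s2 := false) (a := 0) (b := 2) (c := 2) (cn := .pp) (n1 := ndF0q0) (n2 := ndF0q2) (pc := pcF2) (cut := cut_B00mm_022_s3) (xt := Ext.none) (P1 := 0) (W1 := 536870912) (P2 := 0) (W2 := 536870912) (P3 := 67108864) (W3 := 67108864)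
    rfl rfl rfl k0_B00mm_022_s3

theorem s_B00mm_022_s3 {κ x : ℝ} (hκ : κ * h0 = ken x) (hx : ((67108864 : ℕ) : ℝ) / S ≤ x)
    (hx' : x ≤ (((67108864 : ℕ) : ℝ) + (67108864 : ℕ)) / S) :
    AltB (VF κ) PP tKF tL pcF [⟨4, 0, 0, 2845415833⟩] 0 2 2 0 0 (sgb false) (sgb false) x :=
  strip_altB (m := 2845415833) false rfl hκ covF00 covF02 hx hx' c_B00mm_022_s3 cutB_nil (noExt_B)

noncomputable def cut_B00mm_101_s1 : Cut := Cut.of [[⟨4, 0, 0, 1449551462⟩]]

noncomputable def f_B00mm_101_s1 : ℕ → ℕ → ℕ → ℕ → Bool := onCell 536870912 536870912 536870912 536870912 67108864 67108864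
    (rowFK 0 false false false .npn 1 0 1 (qsf 536870912 536870912 536870912 536870912 0) ndF0q1 ndF0q1 pcF0 cut_B00mm_101_s1 Ext.none)

def k0_B00mm_101_s1 : ∃ t, chk3 f_B00mm_101_s1 t 1 1 1 = true :=
  ⟨(l 3), by decide +kernel⟩

theorem c_B00mm_101_s1 : CertF 536870912 536870912 536870912 536870912 67108864 67108864 false false false .npn 1 0 1
    ndF0q1 ndF0q1 pcF0 cut_B00mm_101_s1 Ext.none :=
  certFK0 (fam := false) (s1 := false) (s2 := false) (a := 1) (b := 0) (c := 1) (cn := .npn) (n1 := ndF0q1) (n2 := ndF0q1) (pc := pcF0) (cut := cut_B00mm_101_s1) (xt := Ext.none) (P1 := 536870912) (W1 := 536870912) (P2 := 536870912) (W2 := 536870912) (P3 := 67108864) (W3 := 67108864)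
    rfl rfl rfl k0_B00mm_101_s1

theorem s_B00mm_101_s1 {κ x : ℝ} (hκ : κ * h0 = ken x) (hx : ((67108864 : ℕ) : ℝ) / S ≤ x)
    (hx' : x ≤ (((67108864 : ℕ) : ℝ) + (67108864 : ℕ)) / S) :
    AltB (VF κ) PP tKF tL pcF [⟨3, 0, 0, 1449551462⟩] 1 0 1 0 0 (sgb false) (sgb false) x :=
  strip_altB (m := 1449551462) true rfl hκ covF01 covF01 hx hx' c_B00mm_101_s1 cutB_nil (noExt_B)

noncomputable def cut_B00mm_101_s3 : Cut := Cut.of [[⟨3, 0, 0, 2845415833⟩]]

noncomputable def f_B00mm_101_s3 : ℕ → ℕ → ℕ → ℕ → Bool := onCell 536870912 536870912 536870912 536870912 67108864 67108864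
    (rowFK 0 false false false .npn 1 0 1 (qsf 536870912 536870912 536870912 536870912 0) ndF0q1 ndF0q1 pcF0 cut_B00mm_101_s3 Ext.none)

def k0_B00mm_101_s3 : ∃ t, chk3 f_B00mm_101_s3 t 1 1 1 = true :=
  ⟨(l 3), by decide +kernel⟩

theorem c_B00mm_101_s3 : CertF 536870912 536870912 536870912 536870912 67108864 67108864 false false false .npn 1 0 1
    ndF0q1 ndF0q1 pcF0 cut_B00mm_101_s3 Ext.none :=
  certFK0 (fam := false) (s1 := false) (s2 := false) (a := 1) (b := 0) (c := 1) (cn := .npn) (n1 := ndF0q1) (n2 := ndF0q1) (pc := pcF0) (cut := cut_B00mm_101_s3) (xt := Ext.none) (P1 := 536870912) (W1 := 536870912) (P2 := 536870912) (W2 := 536870912) (P3 := 67108864) (W3 := 67108864)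
    rfl rfl rfl k0_B00mm_101_s3

theorem s_B00mm_101_s3 {κ x : ℝ} (hκ : κ * h0 = ken x) (hx : ((67108864 : ℕ) : ℝ) / S ≤ x)
    (hx' : x ≤ (((67108864 : ℕ) : ℝ) + (67108864 : ℕ)) / S) :
    AltB (VF κ) PP tKF tL pcF [⟨4, 0, 0, 2845415833⟩] 1 0 1 0 0 (sgb false) (sgb false) x :=
  strip_altB (m := 2845415833) false rfl hκ covF01 covF01 hx hx' c_B00mm_101_s3 cutB_nil (noExt_B)

noncomputable def cut_B00mm_102_s1 : Cut := Cut.of [[⟨4, 0, 0, 1449551462⟩]]

noncomputable def f_B00mm_102_s1 : ℕ → ℕ → ℕ → ℕ → Bool := onCell 536870912 536870912 0 536870912 67108864 67108864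
    (rowFK 0 false false false .npp 1 0 2 (qsf 536870912 536870912 0 536870912 0) ndF0q1 ndF0q2 pcF0 cut_B00mm_102_s1 Ext.none)

def k0_B00mm_102_s1 : ∃ t, chk3 f_B00mm_102_s1 t 1 1 1 = true :=
  ⟨(a (l 5) (l 3)), by decide +kernel⟩

theorem c_B00mm_102_s1 : CertF 536870912 536870912 0 536870912 67108864 67108864 false false false .npp 1 0 2
    ndF0q1 ndF0q2 pcF0 cut_B00mm_102_s1 Ext.none :=
  certFK0 (fam := false) (s1 := false) (s2 := false) (a := 1) (b := 0) (c := 2) (cn := .npp) (n1 := ndF0q1) (n2 := ndF0q2) (pc := pcF0) (cut := cut_B00mm_102_s1) (xt := Ext.none) (P1 := 536870912) (W1 := 536870912) (P2 := 0) (W2 := 536870912) (P3 := 67108864) (W3 := 67108864)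
    rfl rfl rfl k0_B00mm_102_s1

theorem s_B00mm_102_s1 {κ x : ℝ} (hκ : κ * h0 = ken x) (hx : ((67108864 : ℕ) : ℝ) / S ≤ x)
    (hx' : x ≤ (((67108864 : ℕ) : ℝ) + (67108864 : ℕ)) / S) :
    AltB (VF κ) PP tKF tL pcF [⟨3, 0, 0, 1449551462⟩] 1 0 2 0 0 (sgb false) (sgb false) x :=
  strip_altB (m := 1449551462) true rfl hκ covF01 covF02 hx hx' c_B00mm_102_s1 cutB_nil (noExt_B)

noncomputable def cut_B00mm_102_s3 : Cut := Cut.of [[⟨3, 0, 0, 2845415833⟩]]

noncomputable def f_B00mm_102_s3 : ℕ → ℕ → ℕ → ℕ → Bool := onCell 536870912 536870912 0 536870912 67108864 67108864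
    (rowFK 0 false false false .npp 1 0 2 (qsf 536870912 536870912 0 536870912 0) ndF0q1 ndF0q2 pcF0 cut_B00mm_102_s3 Ext.none)

def k0_B00mm_102_s3 : ∃ t, chk3 f_B00mm_102_s3 t 1 1 1 = true :=
  ⟨(l 6), by decide +kernel⟩

theorem c_B00mm_102_s3 : CertF 536870912 536870912 0 536870912 67108864 67108864 false false false .npp 1 0 2
    ndF0q1 ndF0q2 pcF0 cut_B00mm_102_s3 Ext.none :=
  certFK0 (fam := false) (s1 := false) (s2 := false) (a := 1) (b := 0) (c := 2) (cn := .npp) (n1 := ndF0q1) (n2 := ndF0q2) (pc := pcF0) (cut := cut_B00mm_102_s3) (xt := Ext.none) (P1 := 536870912) (W1 := 536870912) (P2 := 0) (W2 := 536870912) (P3 := 67108864) (W3 := 67108864)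
    rfl rfl rfl k0_B00mm_102_s3

theorem s_B00mm_102_s3 {κ x : ℝ} (hκ : κ * h0 = ken x) (hx : ((67108864 : ℕ) : ℝ) / S ≤ x)
    (hx' : x ≤ (((67108864 : ℕ) : ℝ) + (67108864 : ℕ)) / S) :
    AltB (VF κ) PP tKF tL pcF [⟨4, 0, 0, 2845415833⟩] 1 0 2 0 0 (sgb false) (sgb false) x :=
  strip_altB (m := 2845415833) false rfl hκ covF01 covF02 hx hx' c_B00mm_102_s3 cutB_nil (noExt_B)

noncomputable def cut_B00mm_112_s1 : Cut := Cut.of [[⟨4, 0, 0, 1449551462⟩]]

noncomputable def f_B00mm_112_s1 : ℕ → ℕ → ℕ → ℕ → Bool := onCell 536870912 536870912 0 536870912 67108864 67108864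
    (rowFK 2 false false false .dn 1 1 2 (qsf 536870912 536870912 0 536870912 1) ndF0q1 ndF0q2 pcF1 cut_B00mm_112_s1 Ext.none)

def k0_B00mm_112_s1 : ∃ t, chk3 f_B00mm_112_s1 t 1 1 1 = true :=
  ⟨(l 5), by decide +kernel⟩

theorem c_B00mm_112_s1 : CertF 536870912 536870912 0 536870912 67108864 67108864 false false false .dn 1 1 2
    ndF0q1 ndF0q2 pcF1 cut_B00mm_112_s1 Ext.none :=
  certFK2 (fam := false) (s1 := false) (s2 := false) (a := 1) (b := 1) (c := 2) (cn := .dn) (n1 := ndF0q1) (n2 := ndF0q2) (pc := pcF1) (cut := cut_B00mm_112_s1) (xt := Ext.none) (P1 := 536870912) (W1 := 536870912) (P2 := 0) (W2 := 536870912) (P3 := 67108864) (W3 := 67108864)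
    rfl rfl rfl (fun _ => rfl) k0_B00mm_112_s1

theorem s_B00mm_112_s1 {κ x : ℝ} (hκ : κ * h0 = ken x) (hx : ((67108864 : ℕ) : ℝ) / S ≤ x)
    (hx' : x ≤ (((67108864 : ℕ) : ℝ) + (67108864 : ℕ)) / S) :
    AltB (VF κ) PP tKF tL pcF [⟨3, 0, 0, 1449551462⟩] 1 1 2 0 0 (sgb false) (sgb false) x :=
  strip_altB (m := 1449551462) true rfl hκ covF01 covF02 hx hx' c_B00mm_112_s1 cutB_nil (noExt_B)

noncomputable def cut_B00mm_112_s3 : Cut := Cut.of [[⟨3, 0, 0, 2845415833⟩]]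

noncomputable def f_B00mm_112_s3 : ℕ → ℕ → ℕ → ℕ → Bool := onCell 536870912 536870912 0 536870912 67108864 67108864
    (rowFK 0 false false false .dn 1 1 2 (qsf 536870912 536870912 0 536870912 1) ndF0q1 ndF0q2 pcF1 cut_B00mm_112_s3 Ext.none)

def k0_B00mm_112_s3 : ∃ t, chk3 f_B00mm_112_s3 t 1 1 1 = true :=
  ⟨(l 6), by decide +kernel⟩

theorem c_B00mm_112_s3 : CertF 536870912 536870912 0 536870912 67108864 67108864 false false false .dn 1 1 2
    ndF0q1 ndF0q2 pcF1 cut_B00mm_112_s3 Ext.none :=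
  certFK0 (fam := false) (s1 := false) (s2 := false) (a := 1) (b := 1) (c := 2) (cn := .dn) (n1 := ndF0q1) (n2 := ndF0q2) (pc := pcF1) (cut := cut_B00mm_112_s3) (xt := Ext.none) (P1 := 536870912) (W1 := 536870912) (P2 := 0) (W2 := 536870912) (P3 := 67108864) (W3 := 67108864)
    rfl rfl rfl k0_B00mm_112_s3

theorem s_B00mm_112_s3 {κ x : ℝ} (hκ : κ * h0 = ken x) (hx : ((67108864 : ℕ) : ℝ) / S ≤ x)
    (hx' : x ≤ (((67108864 : ℕ) : ℝ) + (67108864 : ℕ)) / S) :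
    AltB (VF κ) PP tKF tL pcF [⟨4, 0, 0, 2845415833⟩] 1 1 2 0 0 (sgb false) (sgb false) x :=
  strip_altB (m := 2845415833) false rfl hκ covF01 covF02 hx hx' c_B00mm_112_s3 cutB_nil (noExt_B)

noncomputable def cut_B00mm_202_s1 : Cut := Cut.of [[⟨4, 0, 0, 1449551462⟩]]

noncomputable def f_B00mm_202_s1 : ℕ → ℕ → ℕ → ℕ → Bool := onCell 0 536870912 0 536870912 67108864 67108864
    (rowFK 0 false false false .pp 2 0 2 (qsf 0 536870912 0 536870912 0) ndF0q2 ndF0q2 pcF0 cut_B00mm_202_s1 Ext.none)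

def k0_B00mm_202_s1 : ∃ t, chk3 f_B00mm_202_s1 t 1 1 1 = true :=
  ⟨(l 3), by decide +kernel⟩

theorem c_B00mm_202_s1 : CertF 0 536870912 0 536870912 67108864 67108864 false false false .pp 2 0 2
    ndF0q2 ndF0q2 pcF0 cut_B00mm_202_s1 Ext.none :=
  certFK0 (fam := false) (s1 := false) (s2 := false) (a := 2) (b := 0) (c := 2) (cn := .pp) (n1 := ndF0q2) (n2 := ndF0q2) (pc := pcF0) (cut := cut_B00mm_202_s1) (xt := Ext.none) (P1 := 0) (W1 := 536870912) (P2 := 0) (W2 := 536870912) (P3 := 67108864) (W3 := 67108864)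
    rfl rfl rfl k0_B00mm_202_s1

theorem s_B00mm_202_s1 {κ x : ℝ} (hκ : κ * h0 = ken x) (hx : ((67108864 : ℕ) : ℝ) / S ≤ x)
    (hx' : x ≤ (((67108864 : ℕ) : ℝ) + (67108864 : ℕ)) / S) :
    AltB (VF κ) PP tKF tL pcF [⟨3, 0, 0, 1449551462⟩] 2 0 2 0 0 (sgb false) (sgb false) x :=
  strip_altB (m := 1449551462) true rfl hκ covF02 covF02 hx hx' c_B00mm_202_s1 cutB_nil (noExt_B)

noncomputable def cut_B00mm_202_s3 : Cut := Cut.of [[⟨3, 0, 0, 2845415833⟩]]

noncomputable def f_B00mm_202_s3 : ℕ → ℕ → ℕ → ℕ → Bool := onCell 0 536870912 0 536870912 67108864 67108864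
    (rowFK 0 false false false .pp 2 0 2 (qsf 0 536870912 0 536870912 0) ndF0q2 ndF0q2 pcF0 cut_B00mm_202_s3 Ext.none)

def k0_B00mm_202_s3 : ∃ t, chk3 f_B00mm_202_s3 t 1 1 1 = true :=
  ⟨(l 3), by decide +kernel⟩

theorem c_B00mm_202_s3 : CertF 0 536870912 0 536870912 67108864 67108864 false false false .pp 2 0 2
    ndF0q2 ndF0q2 pcF0 cut_B00mm_202_s3 Ext.none :=
  certFK0 (fam := false) (s1 := false) (s2 := false) (a := 2) (b := 0) (c := 2) (cn := .pp) (n1 := ndF0q2) (n2 := ndF0q2) (pc := pcF0) (cut := cut_B00mm_202_s3) (xt := Ext.none) (P1 := 0) (W1 := 536870912) (P2 := 0) (W2 := 536870912) (P3 := 67108864) (W3 := 67108864)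
    rfl rfl rfl k0_B00mm_202_s3

theorem s_B00mm_202_s3 {κ x : ℝ} (hκ : κ * h0 = ken x) (hx : ((67108864 : ℕ) : ℝ) / S ≤ x)
    (hx' : x ≤ (((67108864 : ℕ) : ℝ) + (67108864 : ℕ)) / S) :
    AltB (VF κ) PP tKF tL pcF [⟨4, 0, 0, 2845415833⟩] 2 0 2 0 0 (sgb false) (sgb false) x :=
  strip_altB (m := 2845415833) false rfl hκ covF02 covF02 hx hx' c_B00mm_202_s3 cutB_nil (noExt_B)

noncomputable def cut_B04pp_001_s1 : Cut := Cut.of [[⟨4, 0, 0, 1449551462⟩]]

noncomputable def f_B04pp_001_s1 : ℕ → ℕ → ℕ → ℕ → Bool := onCell 0 536870912 0 536870912 67108864 67108864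
    (rowFK 1 false true true .up 0 0 1 (qsf 0 536870912 536870912 536870912 0) ndF0q0 ndF4q1 pcF0 cut_B04pp_001_s1 Ext.none)

def k0_B04pp_001_s1 : ∃ t, chk3 f_B04pp_001_s1 t 1 1 1 = true :=
  ⟨(l 3), by decide +kernel⟩

theorem c_B04pp_001_s1 : CertF 0 536870912 536870912 536870912 67108864 67108864 false true true .up 0 0 1
    ndF0q0 ndF4q1 pcF0 cut_B04pp_001_s1 Ext.none :=
  certFK1 (fam := false) (s1 := true) (s2 := true) (a := 0) (b := 0) (c := 1) (cn := .up) (n1 := ndF0q0) (n2 := ndF4q1) (pc := pcF0) (cut := cut_B04pp_001_s1) (xt := Ext.none) (P1 := 0) (W1 := 536870912) (P2 := 536870912) (W2 := 536870912) (P3 := 67108864) (W3 := 67108864)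
    rfl rfl rfl (fun _ => rfl) k0_B04pp_001_s1

theorem s_B04pp_001_s1 {κ x : ℝ} (hκ : κ * h0 = ken x) (hx : ((67108864 : ℕ) : ℝ) / S ≤ x)
    (hx' : x ≤ (((67108864 : ℕ) : ℝ) + (67108864 : ℕ)) / S) :
    AltB (VF κ) PP tKF tL pcF [⟨3, 0, 0, 1449551462⟩] 0 0 1 0 4 (sgb true) (sgb true) x :=
  strip_altB (m := 1449551462) true rfl hκ covF00 covF41 hx hx' c_B04pp_001_s1 cutB_nil (noExt_B)

noncomputable def cut_B04pp_011_s1 : Cut := Cut.of [[⟨4, 0, 0, 1449551462⟩], [⟨0, 0, 0, 67108864⟩, ⟨1, 1, 0, 67108864⟩, ⟨2, 1, 0, 67108864⟩]]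

noncomputable def f_B04pp_011_s1 : ℕ → ℕ → ℕ → ℕ → Bool := onCell 0 536870912 536870912 536870912 67108864 67108864
    (rowFK 1 false true true .pnn 0 1 1 (qsf 0 536870912 536870912 536870912 1) ndF0q0 ndF4q1 pcF1 cut_B04pp_011_s1 Ext.none)

def k0_B04pp_011_s1 : ∃ t, chk3 f_B04pp_011_s1 t 1 1 1 = true :=
  ⟨(b (l 3) (a (b (l 3) (a (b (l 3) (a (b (l 3) (a (l 14) (l 3))) (l 3))) (l 3))) (l 3))), by decide +kernel⟩

theorem c_B04pp_011_s1 : CertF 0 536870912 536870912 536870912 67108864 67108864 false true true .pnn 0 1 1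
    ndF0q0 ndF4q1 pcF1 cut_B04pp_011_s1 Ext.none :=
  certFK1 (fam := false) (s1 := true) (s2 := true) (a := 0) (b := 1) (c := 1) (cn := .pnn) (n1 := ndF0q0) (n2 := ndF4q1) (pc := pcF1) (cut := cut_B04pp_011_s1) (xt := Ext.none) (P1 := 0) (W1 := 536870912) (P2 := 536870912) (W2 := 536870912) (P3 := 67108864) (W3 := 67108864)
    rfl rfl rfl (fun _ => rfl) k0_B04pp_011_s1

theorem s_B04pp_011_s1 {κ x : ℝ} (hκ : κ * h0 = ken x) (hx : ((67108864 : ℕ) : ℝ) / S ≤ x)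
    (hx' : x ≤ (((67108864 : ℕ) : ℝ) + (67108864 : ℕ)) / S)
    (H : CutB (VF κ) PP tKF tL pcF (Cut.of [[⟨0, 0, 0, 67108864⟩, ⟨1, 1, 0, 67108864⟩, ⟨2, 1, 0, 67108864⟩]]) 0 1 1 0 4 (sgb true) (sgb true) x) :
    AltB (VF κ) PP tKF tL pcF [⟨3, 0, 0, 1449551462⟩] 0 1 1 0 4 (sgb true) (sgb true) x :=
  strip_altB (m := 1449551462) true rfl hκ covF00 covF41 hx hx' c_B04pp_011_s1 H (noExt_B)

noncomputable def cut_B04pp_012_s1 : Cut := Cut.of [[⟨4, 0, 0, 1449551462⟩], [⟨0, 0, 0, 67108864⟩, ⟨1, 1, 0, 67108864⟩, ⟨2, 1, 0, 67108864⟩]]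

noncomputable def f_B04pp_012_s1 : ℕ → ℕ → ℕ → ℕ → Bool := onCell 0 536870912 536870912 536870912 67108864 67108864
    (rowFK 1 false true true .pnp 0 1 2 (qsf 0 536870912 1073741824 536870912 1) ndF0q0 ndF4q2 pcF1 cut_B04pp_012_s1 Ext.none)

def k0_B04pp_012_s1 : ∃ t, chk3 f_B04pp_012_s1 t 1 1 1 = true :=
  ⟨(b (l 3) (a (b (l 3) (a (a (a (b (l 1) (b (l 3) (l 14))) (l 3)) (l 3)) (l 3))) (l 3))), by decide +kernel⟩

theorem c_B04pp_012_s1 : CertF 0 536870912 1073741824 536870912 67108864 67108864 false true true .pnp 0 1 2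
    ndF0q0 ndF4q2 pcF1 cut_B04pp_012_s1 Ext.none :=
  certFK1 (fam := false) (s1 := true) (s2 := true) (a := 0) (b := 1) (c := 2) (cn := .pnp) (n1 := ndF0q0) (n2 := ndF4q2) (pc := pcF1) (cut := cut_B04pp_012_s1) (xt := Ext.none) (P1 := 0) (W1 := 536870912) (P2 := 1073741824) (W2 := 536870912) (P3 := 67108864) (W3 := 67108864)
    rfl rfl rfl (fun _ => rfl) k0_B04pp_012_s1

theorem s_B04pp_012_s1 {κ x : ℝ} (hκ : κ * h0 = ken x) (hx : ((67108864 : ℕ) : ℝ) / S ≤ x)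
    (hx' : x ≤ (((67108864 : ℕ) : ℝ) + (67108864 : ℕ)) / S)
    (H : CutB (VF κ) PP tKF tL pcF (Cut.of [[⟨0, 0, 0, 67108864⟩, ⟨1, 1, 0, 67108864⟩, ⟨2, 1, 0, 67108864⟩]]) 0 1 2 0 4 (sgb true) (sgb true) x) :
    AltB (VF κ) PP tKF tL pcF [⟨3, 0, 0, 1449551462⟩] 0 1 2 0 4 (sgb true) (sgb true) x :=
  strip_altB (m := 1449551462) true rfl hκ covF00 covF42 hx hx' c_B04pp_012_s1 H (noExt_B)

noncomputable def cut_B04pp_022_s1 : Cut := Cut.of [[⟨4, 0, 0, 1449551462⟩], [⟨0, 0, 0, 25165824⟩, ⟨1, 1, 0, 25165824⟩, ⟨2, 1, 0, 25165824⟩]]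

noncomputable def xt_B04pp_022_s1 : Ext := strExt dd false true true .u0 .s2 .u2 .pp 0 2 2 rfl rfl gf2 vv ndF0q0 ndF4q2

noncomputable def f_B04pp_022_s1 : ℕ → ℕ → ℕ → ℕ → Bool := onCell 0 536870912 1073741824 536870912 67108864 67108864
    (rowFK 1 false true true .pp 0 2 2 (qsf 0 536870912 1073741824 536870912 2) ndF0q0 ndF4q2 pcF2 cut_B04pp_022_s1 xt_B04pp_022_s1)

def k0_B04pp_022_s1 : ∃ t, chk3 f_B04pp_022_s1 t 32 32 1 = true :=
  ⟨(b (a (l 14) (a (l 14) (b (l 3) (a (l 14) (a (l 14) (b (l 3) (c (l 527747967) (l 527326847)))))))) (a (b (l 14) (b (l 14) (a (l 14) (a (l 14) (a (l 14) (b (l 14) (l 16757408))))))) (a (b (a (l 14) (a (l 14) (a (l 14) (b (l 14) (l 526897791))))) (b (a (a (l 14) (b (l 14) (l 16762448))) (a (b (l 16767584) (l 16763296)) (a (l 527192191) (l 526931583)))) (a (a (b (l 16759936) (l 16758264)) (b (l 16760784) (l 16759120))) (a (b (l 16761632) (l 16759968)) (b (l 16762472) (l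 16760816)))))) (a (a (b (b (l 14) (a (l 526905727) (l 526645119))) (a (b (l 526670975) (l 526703231)) (b (l 526678911) (l 526711167)))) (b (a (b (l 14) (l 526652799)) (b (l 526623359) (l 526660479))) (a (b (l 526686591) (l 526718847)) (b (l 526694527) (l 526726783))))) (a (b (b (c (l 528045951) (l 527623807)) (c (l 528083839) (l 527928703))) (b (l 528308863) (l 528072575))) (b (b (l 528254335) (l 528022911)) (b (l 527788415) (l 527820927)))))))), by decide +kernel⟩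

def k1_B04pp_022_s1 : ∃ t, chk3 f_B04pp_022_s1 t 33 32 1 = true :=
  ⟨(a (b (b (l 3) (a (a (a (b (l 3) (l 527956351)) (l 3)) (l 3)) (l 3))) (a (a (a (b (b (l 527733631) (l 527502463)) (b (l 527536511) (l 527300223))) (b (b (l 527481471) (l 527250303)) (b (l 527284095) (l 527048063)))) (b (a (b (l 527229055) (l 526997887)) (b (l 526976639) (l 526745471))) (a (c (l 527902079) (l 527207551)) (c (l 527650175) (l 526954623))))) (a (b (a (b (l 526724223) (l 526761599)) (b (l 3) (l 526777471))) (a (b (l 526795647) (l 526827903)) (l 527602815))) (b (b (l 3) (l 528399487)) (b (l 528433791) (l 528197759)))))) (b (l 3) (b (a (a (b (l 3) (l 527896703)) (l 3)) (l 3)) (a (a (a (l 527113599) (l 526861183)) (c (l 528032383) (l 527598975))) (a (l 528251775) (l 527747967)))))), by decide +kernel⟩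

def k2_B04pp_022_s1 : ∃ t, chk3 f_B04pp_022_s1 t 32 33 1 = true :=
  ⟨(a (b (a (b (a (l 14) (b (l 14) (l 16750336))) (a (a (l 16743216) (l 16746704)) (b (l 16744408) (l 16741104)))) (b (b (c (a (l 16755520) (l 16757272)) (a (l 16752544) (l 16754312))) (a (l 16752024) (l 16753776))) (b (a (l 16746120) (l 16747848)) (a (l 16742848) (l 16744552))))) (a (a (b (c (l 16739992) (l 16734088)) (l 16733096)) (b (l 16741408) (l 16729616))) (a (b (l 16743144) (l 16731368)) (b (l 16744840) (l 16733144))))) (b (a (b (b (a (c (l 16758976) (l 16758656)) (a (l 16762720) (l 16763568))) (a (l 16755504) (a (l 16754168) (l 16755016)))) (a (b (l 16749576) (l 16746280)) (b (l 16756536) (l 16748008)))) (b (a (a (b (l 16764408) (l 16755864)) (a (l 527554687) (l 527293823))) (a (b (l 528104319) (l 16757552)) (b (l 527583871) (l 16758384)))) (a (b (l 16758240) (l 16749712)) (b (l 16759928) (l 16751408))))) (c (b (a (b (a (l 16743272)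 (l 16744984)) (l 16743504)) (b (l 16750152) (l 16746928))) (a (a (l 16735136) (l 16736912)) (a (l 16738632) (l 16740344)))) (b (a (b (l 16743600) (l 16740304)) (a (l 16744544) (l 16746264))) (a (l 16740560) (l 16744104)))))), by decide +kernel⟩

def k3_B04pp_022_s1 : ∃ t, chk3 f_B04pp_022_s1 t 33 33 1 = true :=
  ⟨(a (a (a (b (a (b (b (l 527331967) (l 16769712)) (b (l 16755944) (l 16752672))) (b (l 528151935) (l 528220031))) (b (a (l 16758272) (l 16759112)) (l 16752224))) (b (a (b (l 527899775) (l 527699327)) (b (l 527378815) (l 527446911))) (b (b (l 16751512) (l 16748272)) (l 16753920)))) (b (a (a (b (l 527394943) (l 527194495)) (b (l 527142271) (l 527210623))) (a (b (l 526889855) (l 526958207)) (b (l 526905727) (l 526974079)))) (a (b (b (l 16753176) (l 16749944)) (l 16755592)) (b (b (l 16754824) (l 16751600)) (l 16757264))))) (a (b (a (b (c (l 528344447) (l 527910015)) (b (l 527520639) (l 16770176)))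 (b (l 528026751) (l 528363903))) (a (b (l 528395391) (l 16758912)) (b (l 528697471) (l 16760552)))) (b (a (b (l 527791743) (l 527860351)) (b (l 527288191) (l 527625343))) (a (b (l 527925887) (l 527184511)) (b (l 527690879) (l 527218047)))))), by decide +kernel⟩

def k4_B04pp_022_s1 : ∃ t, chk3 f_B04pp_022_s1 t 17 16 1 = true :=
  ⟨(a (b (b (l 3) (a (a (b (l 3) (a (l 527512703) (l 3))) (l 3)) (l 3))) (a (a (b (a (b (l 527053183) (l 527390335)) (b (l 527086463) (l 527692159))) (a (b (l 527455871) (l 527251583)) (b (l 527220863) (l 527285119)))) (b (b (a (l 527119999) (l 527153279)) (b (l 528257663) (l 528557183))) (b (a (l 527254399) (l 527288191)) (b (l 528381823) (l 16767760))))) (b (a (b (a (l 527187071) (l 3)) (c (a (l 527347071) (l 527381631)) (a (l 527165055) (l 527197823)))) (b (l 3) (b (a (l 527320703) (l 3)) (l 527893887)))) (a (b (a (l 527321983) (l 527355775)) (a (l 527386239) (l 527420287)))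 (b (a (l 527389823) (l 527424127)) (l 527728255)))))) (b (l 3) (a (b (a (b (l 3) (b (l 3) (l 527427967))) (l 3)) (a (l 528539007) (l 528072831))) (b (l 3) (a (l 527607167) (l 527679103)))))), by decide +kernel⟩

def k5_B04pp_022_s1 : ∃ t, chk3 f_B04pp_022_s1 t 9 16 1 = true :=
  ⟨(a (b (l 3) (a (b (l 3) (a (a (l 527751551) (l 3)) (l 3))) (l 3))) (l 3)), by decide +kernel⟩

def k6_B04pp_022_s1 : ∃ t, chk3 f_B04pp_022_s1 t 8 17 1 = true :=
  ⟨(b (a (b (b (a (a (a (a (l 16721328) (l 16723104)) (l 16730992)) (a (l 16734456) (l 16737984))) (a (a (l 16741416) (a (l 16738720) (l 16740400))) (a (a (l 16742064) (l 16743720)) (a (l 16745360) (l 16767952))))) (a (a (a (a (l 16714832) (l 16716640)) (l 16724560)) (a (l 16728128) (l 16726352))) (a (a (l 16729816) (l 16754192)) (a (l 16757552) (l 16760856))))) (a (a (a (a (l 16715208) (l 16717104)) (b (l 16712920) (l 16706504))) (b (a (l 16716544) (l 16719960)) (a (l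 16710144) (l 16713648)))) (a (a (a (l 16740464) (l 16742200)) (b (l 16726944) (l 16720720))) (a (b (l 16730328) (l 16724128)) (b (l 16733656) (l 16727488)))))) (a (a (a (a (b (l 528403071) (l 16753992)) (b (b (l 16771168) (l 16743952)) (l 16755632))) (b (b (a (l 16772752) (l 16763840)) (l 16767312)) (b (l 16740168) (l 16734048)))) (a (b (b (l 528795007) (l 16770464)) (b (l 16743344) (l 16737256))) (b (b (l 527523711) (l 16763072)) (l 528477567)))) (a (a (b (l 527876479) (l 527743359)) (b (l 527679103) (l 529636479))) (b (a (l 527750527) (l 529109119)) (a (l 538728319) (l 546455935)))))) (a (a (a (b (a (c (l 16704128) (l 16702744)) (l 16707264)) (a (l 16690536) (l 16684024))) (b (a (l 16711048) (l 16714720)) (a (l 16687952) (l 16691840)))) (a (a (b (a (l 16748552) (l 16749808)) (l 16695576)) (b (l 16753400) (l 16699512))) (a (b (l 16756848) (l 16702856)) (b (l 16760248) (l 16706312))))) (b (a (a (a (l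 16763600) (l 16766896)) (a (l 16770144) (l 16743184))) (a (a (l 16746096) (l 16779360)) (a (l 16761288) (l 16777512)))) (a (a (c (l 16752352) (l 16710664)) (l 16758120)) (a (l 16768656) (l 16765336)))))), by decide +kernel⟩

def k7_B04pp_022_s1 : ∃ t, chk3 f_B04pp_022_s1 t 9 17 1 = true :=
  ⟨(a (b (b (a (a (a (l 538287487) (l 546091135)) (c (l 587870591) (l 527955839))) (a (a (l 563277695) (l 567434111)) (l 3))) (c (a (a (l 587081599) (l 593438591)) (l 598664319)) (a (a (l 528477823) (l 537824383)) (a (l 548226943) (l 556156287))))) (c (a (a (b (l 593377407) (l 17062624)) (l 598284159)) (b (l 600353663) (l 601155711))) (a (a (b (l 538207359) (l 16833816)) (b (l 548508287) (l 16858856))) (a (b (l 556354943) (l 16784264)) (l 564864127))))) (a (b (b (l 3) (a (l 581589119) (l 3))) (a (l 584640895) (l 586681471))) (b (l 3) (l 588050303)))), by decide +kernel⟩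

def k8_B04pp_022_s1 : ∃ t, chk3 f_B04pp_022_s1 t 8 9 1 = true :=
  ⟨(b (b (b (b (b (c (c (c (a (a (a (l 16727632) (l 17047016)) (a (l 17217840) (l 17300152))) (a (l 17329448) (l 17281456))) (a (a (a (l 16675624) (l 16716360)) (a (l 16963912) (l 17102432))) (a (l 17191048) (l 17193752)))) (a (a (a (l 16674960) (l 16682800)) (a (l 16690320) (l 16805864))) (a (l 16815688) (l 17062216)))) (a (a (a (l 16673616) (l 16681480)) (a (l 16689032) (l 16696400))) (a (l 16706648) (l 16799160)))) (a (a (a (l 16671352) (l 16679264)) (a (l 16686904) (l 16694360))) (a (l 16709320) (l 16830320)))) (a (a (a (l 16666552) (l 16674584)) (a (l 16682440) (l 16722872))) (a (a (l 16873240) (l 16881616)) (l 16782256)))) (a (a (a (l 16667352) (l 16665152)) (a (l 16673272) (l 16771688))) (b (a (c (l 17102248) (l 16708944)) (l 16830600)) (a (l 16717576) (l 16963096))))) (a (a (b (a (l 16644328) (l 16652848)) (a (l 16631784) (l 16809848)))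 (a (a (l 16763064) (l 16843288)) (b (l 16855128) (l 17010496)))) (c (a (b (l 17342712) (l 17544048)) (l 17448896)) (b (a (l 16699264) (l 16924328)) (a (l 16738352) (l 17099952)))))) (a (a (c (b (a (b (l 17426000) (l 17712752)) (l 17607512)) (b (l 17905816) (l 18044848))) (b (a (l 16610784) (l 16730864)) (a (l 16958472) (l 17121672)))) (b (b (a (l 17073488) (l 17153840)) (l 17010248)) (a (l 17353192) (l 17547320)))) (a (b (a (l 17174024) (l 17189072)) (l 17468760)) (b (b (l 17390880) (l 17479248)) (l 17604144))))), by decide +kernel⟩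

def k9_B04pp_022_s1 : ∃ t, chk3 f_B04pp_022_s1 t 9 9 1 = true :=
  ⟨(b (a (a (b (b (a (l 16946008) (l 16941232)) (l 16860040)) (a (l 17076248) (l 17143984))) (b (b (c (l 17076768) (l 568994687)) (l 16994400)) (c (l 17295928) (l 17007032)))) (b (b (a (l 587504511) (b (l 588236159) (l 16831000))) (a (l 16943256) (l 16885176))) (a (l 16969136) (c (l 17128592) (l 578345599))))) (b (a (a (l 17397880) (l 17341720)) (a (l 17277680) (l 17211624))) (a (a (l 17547144) (l 17480064)) (l 17373680)))), by decide +kernel⟩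

def k10_B04pp_022_s1 : ∃ t, chk3 f_B04pp_022_s1 t 4 5 1 = true :=
  ⟨(b (b (b (a (c (a (a (l 18223016) (l 18157080)) (l 18006776)) (a (a (b (l 17310976) (l 17462400)) (l 17518760)) (a (l 17563224) (l 17559064)))) (a (l 17645904) (l 17490408))) (b (a (a (a (l 17984296) (l 17977048)) (l 17895776)) (a (l 17738904) (l 17575376))) (b (a (a (l 18057328) (l 17948104)) (l 17700520)) (a (a (l 18101392) (l 17982664)) (l 17731264))))) (a (a (b (l 18119576) (l 18345704)) (l 18119144)) (a (l 17935552) (l 17758224)))) (a (b (a (l 18515704) (l 18310264)) (l 18561816)) (b (l 18005560) (l 18124008)))), by decide +kernel⟩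

def k11_B04pp_022_s1 : ∃ t, chk3 f_B04pp_022_s1 t 5 2 1 = true :=
  ⟨(b (a (b (b (l 3) (a (b (l 3) (a (l 588530047) (l 3))) (l 3))) (b (b (b (a (a (l 587694719) (l 587115903)) (a (l 585922431) (l 3))) (a (a (l 587383935) (l 586327679)) (a (l 585014399) (l 583561855)))) (a (a (b (l 16895872) (l 17048056)) (b (l 585464703) (l 16988120))) (c (l 588565887) (a (l 577647999) (l 576804735))))) (a (b (a (l 17146744) (l 17084776)) (l 17237520)) (b (a (l 16942704) (l 580068479)) (l 17116680))))) (b (l 3) (b (b (l 3) (l 578565503)) (b (l 576612479) (a (l 575925887) (l 573161343)))))) (b (b (a (b (a (l 17350072) (l 17225288)) (b (a (l 17425944) (l 17300464)) (b (l 17399232) (b (l 17418496) (l 17432384))))) (b (a (l 17118488) (l 16944360)) (b (l 17059904) (b (l 17177664) (b (l 17193848) (l 17204736)))))) (a (a (l 17594176) (l 17457032)) (b (l 17251144) (l 17328200)))) (a (b (l 17671736) (l 17791016)) (l 17495296)))),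 by decide +kernel⟩

def k12_B04pp_022_s1 : ∃ t, chk3 f_B04pp_022_s1 t 2 3 1 = true :=
  ⟨(b (a (a (b (l 18774272) (l 6)) (b (l 18255800) (l 18359224))) (a (l 18340904) (l 18021944))) (l 6)), by decide +kernel⟩

def k13_B04pp_022_s1 : ∃ t, chk3 f_B04pp_022_s1 t 3 1 1 = true :=
  ⟨(b (a (b (b (l 3) (b (l 3) (a (b (l 571178367) (a (l 570646911) (l 568372351))) (b (l 3) (l 565426815))))) (b (b (b (a (a (l 569044095) (l 566912639)) (l 564177791)) (a (a (b (l 17022096) (b (l 17054640) (b (l 17070016) (l 17080040)))) (b (l 16957256) (b (l 16988944) (b (l 17003800) (l 17013432))))) (b (l 563527551) (b (l 562477439) (b (a (l 16948416) (l 16902352)) (l 17017456)))))) (a (b (l 17088752) (l 17161072)) (a (l 17033656) (l 16900760)))) (a (l 17571752) (b (l 17134104) (l 2))))) (b (b (l 3) (l 3)) (b (b (b (a (l 561563519) (l 2)) (l 2)) (l 2)) (l 2)))) (a (b (b (a (l 17514016) (l 2)) (l 2)) (l 2)) (l 2))), by decide +kernel⟩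

theorem t14_B04pp_022_s1 : ∃ t, chk3 f_B04pp_022_s1 t 4 9 1 = true := ex3_a k8_B04pp_022_s1 k9_B04pp_022_s1

theorem t15_B04pp_022_s1 : ∃ t, chk3 f_B04pp_022_s1 t 4 17 1 = true := ex3_a k6_B04pp_022_s1 k7_B04pp_022_s1

theorem t16_B04pp_022_s1 : ∃ t, chk3 f_B04pp_022_s1 t 16 33 1 = true := ex3_a k2_B04pp_022_s1 k3_B04pp_022_s1

theorem t17_B04pp_022_s1 : ∃ t, chk3 f_B04pp_022_s1 t 16 32 1 = true := ex3_a k0_B04pp_022_s1 k1_B04pp_022_s1

theorem t18_B04pp_022_s1 : ∃ t, chk3 f_B04pp_022_s1 t 16 16 1 = true := ex3_b t17_B04pp_022_s1 t16_B04pp_022_s1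

theorem t19_B04pp_022_s1 : ∃ t, chk3 f_B04pp_022_s1 t 8 16 1 = true := ex3_a t18_B04pp_022_s1 k4_B04pp_022_s1

theorem t20_B04pp_022_s1 : ∃ t, chk3 f_B04pp_022_s1 t 4 16 1 = true := ex3_a t19_B04pp_022_s1 k5_B04pp_022_s1

theorem t21_B04pp_022_s1 : ∃ t, chk3 f_B04pp_022_s1 t 4 8 1 = true := ex3_b t20_B04pp_022_s1 t15_B04pp_022_s1

theorem t22_B04pp_022_s1 : ∃ t, chk3 f_B04pp_022_s1 t 4 4 1 = true := ex3_b t21_B04pp_022_s1 t14_B04pp_022_s1

theorem t23_B04pp_022_s1 : ∃ t, chk3 f_B04pp_022_s1 t 4 2 1 = true := ex3_b t22_B04pp_022_s1 k10_B04pp_022_s1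

theorem t24_B04pp_022_s1 : ∃ t, chk3 f_B04pp_022_s1 t 2 2 1 = true := ex3_a t23_B04pp_022_s1 k11_B04pp_022_s1

theorem t25_B04pp_022_s1 : ∃ t, chk3 f_B04pp_022_s1 t 2 1 1 = true := ex3_b t24_B04pp_022_s1 k12_B04pp_022_s1

theorem t26_B04pp_022_s1 : ∃ t, chk3 f_B04pp_022_s1 t 1 1 1 = true := ex3_a t25_B04pp_022_s1 k13_B04pp_022_s1

theorem c_B04pp_022_s1 : CertF 0 536870912 1073741824 536870912 67108864 67108864 false true true .pp 0 2 2
    ndF0q0 ndF4q2 pcF2 cut_B04pp_022_s1 xt_B04pp_022_s1 :=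
  certFK1 (fam := false) (s1 := true) (s2 := true) (a := 0) (b := 2) (c := 2) (cn := .pp) (n1 := ndF0q0) (n2 := ndF4q2) (pc := pcF2) (cut := cut_B04pp_022_s1) (xt := xt_B04pp_022_s1) (P1 := 0) (W1 := 536870912) (P2 := 1073741824) (W2 := 536870912) (P3 := 67108864) (W3 := 67108864)
    rfl rfl rfl (fun _ => rfl) t26_B04pp_022_s1

theorem s_B04pp_022_s1 {κ x : ℝ} (hκ : κ * h0 = ken x) (hx : ((67108864 : ℕ) : ℝ) / S ≤ x)
    (hx' : x ≤ (((67108864 : ℕ) : ℝ) + (67108864 : ℕ)) / S)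
    (H : CutB (VF κ) PP tKF tL pcF (Cut.of [[⟨0, 0, 0, 25165824⟩, ⟨1, 1, 0, 25165824⟩, ⟨2, 1, 0, 25165824⟩]]) 0 2 2 0 4 (sgb true) (sgb true) x) :
    AltB (VF κ) PP tKF tL pcF [⟨3, 0, 0, 1449551462⟩] 0 2 2 0 4 (sgb true) (sgb true) x :=
  strip_altB (m := 1449551462) true rfl hκ covF00 covF42 hx hx' c_B04pp_022_s1 H ((okx hx hx').extB (T := tt) (sideF hx hx') hκ rfl rfl (.O 0 true) (.N 2 true) rfl)

noncomputable def cut_B04pp_023_s1 : Cut := Cut.of [[⟨4, 0, 0, 1449551462⟩]]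

noncomputable def xt_B04pp_023_s1 : Ext := strExt dd false true true .u0 .s2 .u2 .up 0 2 3 rfl rfl gf2 vv ndF0q0 ndF4q3

noncomputable def f_B04pp_023_s1 : ℕ → ℕ → ℕ → ℕ → Bool := onCell 1073741824 536870912 0 1230186008 67108864 67108864
    (rowFK 2 false true true .up 0 2 3 (qsf 0 536870912 0 1230186008 2) ndF0q0 ndF4q3 pcF2 cut_B04pp_023_s1 xt_B04pp_023_s1)

def k0_B04pp_023_s1 : ∃ t, chk3 f_B04pp_023_s1 t 1 1 1 = true :=
  ⟨(b (a (l 2) (a (l 2) (l 6))) (b (a (a (l 2) (a (l 2) (b (l 2) (l 440335889207)))) (a (b (l 341552360263) (a (l 17176456) (l 17371896))) (l 6))) (a (a (b (l 2) (l 3)) (a (b (a (a (l 3) (a (l 3) (a (b (l 2) (b (l 2) (l 553594495))) (b (l 2) (b (l 2) (a (a (l 552466815) (l 552545407)) (l 32312997879))))))) (b (l 440872058119) (a (a (b (l 219144010743) (l 16858768)) (l 16927440)) (l 16828280)))) (a (b (a (l 3) (a (b (l 556491903) (l 558296447)) (b (a (a (l 555694719) (l 555287935))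 (a (a (l 554896511) (l 16846840)) (l 16853560))) (b (a (l 556958847) (a (l 16860240) (l 16827808))) (a (l 557963647) (a (l 16831456) (l 16841384))))))) (a (b (l 560819071) (l 562044287)) (a (b (l 560102783) (l 561840767)) (b (a (a (l 16875456) (l 16844680)) (a (l 16939304) (l 16865944))) (a (l 16962032) (a (l 16895640) (l 16907056))))))) (b (b (a (a (l 16876000) (l 16870120)) (l 16924592)) (a (l 16815584) (l 16956760))) (a (b (l 16829560) (l 16958528)) (l 17107184))))) (b (b (l 549102175) (a (l 16905336) (l 17119648))) (a (b (l 17137040) (l 17238504)) (b (l 17203720) (l 17328520)))))) (a (b (a (b (l 17239064) (l 17314552)) (l 17517712)) (b (l 17822504) (a (l 17585720) (l 17919728)))) (l 6))))), by decide +kernel⟩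

theorem c_B04pp_023_s1 : CertF 0 536870912 0 1230186008 67108864 67108864 false true true .up 0 2 3
    ndF0q0 ndF4q3 pcF2 cut_B04pp_023_s1 xt_B04pp_023_s1 :=
  certFK2 (fam := false) (s1 := true) (s2 := true) (a := 0) (b := 2) (c := 3) (cn := .up) (n1 := ndF0q0) (n2 := ndF4q3) (pc := pcF2) (cut := cut_B04pp_023_s1) (xt := xt_B04pp_023_s1) (P1 := 0) (W1 := 536870912) (P2 := 0) (W2 := 1230186008) (P3 := 67108864) (W3 := 67108864)
    rfl rfl rfl (fun _ => rfl) k0_B04pp_023_s1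

theorem s_B04pp_023_s1 {κ x : ℝ} (hκ : κ * h0 = ken x) (hx : ((67108864 : ℕ) : ℝ) / S ≤ x)
    (hx' : x ≤ (((67108864 : ℕ) : ℝ) + (67108864 : ℕ)) / S) :
    AltB (VF κ) PP tKF tL pcF [⟨3, 0, 0, 1449551462⟩] 0 2 3 0 4 (sgb true) (sgb true) x :=
  strip_altB (m := 1449551462) true rfl hκ covF00 covF43 hx hx' c_B04pp_023_s1 cutB_nil ((okx hx hx').extB (T := tt) (sideF hx hx') hκ rfl rfl (.O 0 true) (.N 3 true) rfl)

noncomputable def cut_B04pp_033_s1 : Cut := Cut.of [[⟨4, 0, 0, 1449551462⟩]]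

noncomputable def f_B04pp_033_s1 : ℕ → ℕ → ℕ → ℕ → Bool := onCell 1610612736 536870912 0 1230186008 67108864 67108864
    (rowFK 2 false true true .pnn 0 3 3 (qsf 0 536870912 0 1230186008 3) ndF0q0 ndF4q3 pcF3 cut_B04pp_033_s1 Ext.none)

def k0_B04pp_033_s1 : ∃ t, chk3 f_B04pp_033_s1 t 1 1 1 = true :=
  ⟨(b (l 6) (l 6)), by decide +kernel⟩

theorem c_B04pp_033_s1 : CertF 0 536870912 0 1230186008 67108864 67108864 false true true .pnn 0 3 3
    ndF0q0 ndF4q3 pcF3 cut_B04pp_033_s1 Ext.none :=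
  certFK2 (fam := false) (s1 := true) (s2 := true) (a := 0) (b := 3) (c := 3) (cn := .pnn) (n1 := ndF0q0) (n2 := ndF4q3) (pc := pcF3) (cut := cut_B04pp_033_s1) (xt := Ext.none) (P1 := 0) (W1 := 536870912) (P2 := 0) (W2 := 1230186008) (P3 := 67108864) (W3 := 67108864)
    rfl rfl rfl (fun _ => rfl) k0_B04pp_033_s1

theorem s_B04pp_033_s1 {κ x : ℝ} (hκ : κ * h0 = ken x) (hx : ((67108864 : ℕ) : ℝ) / S ≤ x)
    (hx' : x ≤ (((67108864 : ℕ) : ℝ) + (67108864 : ℕ)) / S) :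
    AltB (VF κ) PP tKF tL pcF [⟨3, 0, 0, 1449551462⟩] 0 3 3 0 4 (sgb true) (sgb true) x :=
  strip_altB (m := 1449551462) true rfl hκ covF00 covF43 hx hx' c_B04pp_033_s1 cutB_nil (noExt_B)

noncomputable def cut_B04pp_101_s1 : Cut := Cut.of [[⟨4, 0, 0, 1449551462⟩]]

noncomputable def f_B04pp_101_s1 : ℕ → ℕ → ℕ → ℕ → Bool := onCell 536870912 536870912 536870912 536870912 67108864 67108864
    (rowFK 0 false true true .npn 1 0 1 (qsf 536870912 536870912 536870912 536870912 0) ndF0q1 ndF4q1 pcF0 cut_B04pp_101_s1 Ext.none)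

def k0_B04pp_101_s1 : ∃ t, chk3 f_B04pp_101_s1 t 1 1 1 = true :=
  ⟨(a (l 3) (l 5)), by decide +kernel⟩

theorem c_B04pp_101_s1 : CertF 536870912 536870912 536870912 536870912 67108864 67108864 false true true .npn 1 0 1
    ndF0q1 ndF4q1 pcF0 cut_B04pp_101_s1 Ext.none :=
  certFK0 (fam := false) (s1 := true) (s2 := true) (a := 1) (b := 0) (c := 1) (cn := .npn) (n1 := ndF0q1) (n2 := ndF4q1) (pc := pcF0) (cut := cut_B04pp_101_s1) (xt := Ext.none) (P1 := 536870912) (W1 := 536870912) (P2 := 536870912) (W2 := 536870912) (P3 := 67108864) (W3 := 67108864)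
    rfl rfl rfl k0_B04pp_101_s1

theorem s_B04pp_101_s1 {κ x : ℝ} (hκ : κ * h0 = ken x) (hx : ((67108864 : ℕ) : ℝ) / S ≤ x)
    (hx' : x ≤ (((67108864 : ℕ) : ℝ) + (67108864 : ℕ)) / S) :
    AltB (VF κ) PP tKF tL pcF [⟨3, 0, 0, 1449551462⟩] 1 0 1 0 4 (sgb true) (sgb true) x :=
  strip_altB (m := 1449551462) true rfl hκ covF01 covF41 hx hx' c_B04pp_101_s1 cutB_nil (noExt_B)

noncomputable def cut_B04pp_102_s1 : Cut := Cut.of [[⟨4, 0, 0, 1449551462⟩]]

noncomputable def f_B04pp_102_s1 : ℕ → ℕ → ℕ → ℕ → Bool := onCell 536870912 536870912 1073741824 536870912 67108864 67108864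
    (rowFK 0 false true true .npp 1 0 2 (qsf 536870912 536870912 1073741824 536870912 0) ndF0q1 ndF4q2 pcF0 cut_B04pp_102_s1 Ext.none)

def k0_B04pp_102_s1 : ∃ t, chk3 f_B04pp_102_s1 t 1 1 1 = true :=
  ⟨(a (l 3) (b (l 5) (l 3))), by decide +kernel⟩

theorem c_B04pp_102_s1 : CertF 536870912 536870912 1073741824 536870912 67108864 67108864 false true true .npp 1 0 2
    ndF0q1 ndF4q2 pcF0 cut_B04pp_102_s1 Ext.none :=
  certFK0 (fam := false) (s1 := true) (s2 := true) (a := 1) (b := 0) (c := 2) (cn := .npp) (n1 := ndF0q1) (n2 := ndF4q2) (pc := pcF0) (cut := cut_B04pp_102_s1) (xt := Ext.none) (P1 := 536870912) (W1 := 536870912) (P2 := 1073741824) (W2 := 536870912) (P3 := 67108864) (W3 := 67108864)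
    rfl rfl rfl k0_B04pp_102_s1

theorem s_B04pp_102_s1 {κ x : ℝ} (hκ : κ * h0 = ken x) (hx : ((67108864 : ℕ) : ℝ) / S ≤ x)
    (hx' : x ≤ (((67108864 : ℕ) : ℝ) + (67108864 : ℕ)) / S) :
    AltB (VF κ) PP tKF tL pcF [⟨3, 0, 0, 1449551462⟩] 1 0 2 0 4 (sgb true) (sgb true) x :=
  strip_altB (m := 1449551462) true rfl hκ covF01 covF42 hx hx' c_B04pp_102_s1 cutB_nil (noExt_B)

noncomputable def cut_B04pp_112_s1 : Cut := Cut.of [[⟨4, 0, 0, 1449551462⟩]]

noncomputable def f_B04pp_112_s1 : ℕ → ℕ → ℕ → ℕ → Bool := onCell 536870912 536870912 1073741824 536870912 67108864 67108864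
    (rowFK 0 false true true .dn 1 1 2 (qsf 536870912 536870912 1073741824 536870912 1) ndF0q1 ndF4q2 pcF1 cut_B04pp_112_s1 Ext.none)

def k0_B04pp_112_s1 : ∃ t, chk3 f_B04pp_112_s1 t 1 1 1 = true :=
  ⟨(a (l 3) (b (l 5) (l 3))), by decide +kernel⟩

theorem c_B04pp_112_s1 : CertF 536870912 536870912 1073741824 536870912 67108864 67108864 false true true .dn 1 1 2
    ndF0q1 ndF4q2 pcF1 cut_B04pp_112_s1 Ext.none :=
  certFK0 (fam := false) (s1 := true) (s2 := true) (a := 1) (b := 1) (c := 2) (cn := .dn) (n1 := ndF0q1) (n2 := ndF4q2) (pc := pcF1) (cut := cut_B04pp_112_s1) (xt := Ext.none) (P1 := 536870912) (W1 := 536870912) (P2 := 1073741824) (W2 := 536870912) (P3 := 67108864) (W3 := 67108864)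
    rfl rfl rfl k0_B04pp_112_s1

theorem s_B04pp_112_s1 {κ x : ℝ} (hκ : κ * h0 = ken x) (hx : ((67108864 : ℕ) : ℝ) / S ≤ x)
    (hx' : x ≤ (((67108864 : ℕ) : ℝ) + (67108864 : ℕ)) / S) :
    AltB (VF κ) PP tKF tL pcF [⟨3, 0, 0, 1449551462⟩] 1 1 2 0 4 (sgb true) (sgb true) x :=
  strip_altB (m := 1449551462) true rfl hκ covF01 covF42 hx hx' c_B04pp_112_s1 cutB_nil (noExt_B)

noncomputable def cut_B04pp_113_s1 : Cut := Cut.of [[⟨4, 0, 0, 1449551462⟩], [⟨0, 1, 0, 21338704⟩, ⟨1, 1, 0, 21338704⟩, ⟨2, 2, 0, 1685920⟩]]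

noncomputable def f_B04pp_113_s1 : ℕ → ℕ → ℕ → ℕ → Bool := onCell 536870912 536870912 0 1230186008 67108864 67108864
    (rowFK 2 false true true .nn 1 1 3 (qsf 536870912 536870912 0 1230186008 1) ndF0q1 ndF4q3 pcF1 cut_B04pp_113_s1 Ext.none)

def k0_B04pp_113_s1 : ∃ t, chk3 f_B04pp_113_s1 t 1 1 1 = true :=
  ⟨(b (a (l 2) (a (l 2) (b (a (l 2) (b (a (l 2) (b (a (l 2) (b (l 14) (l 3))) (l 3))) (l 3))) (l 3)))) (b (a (a (l 2) (b (l 2) (a (l 2) (l 3)))) (a (l 3) (l 3))) (a (a (b (l 2) (l 3)) (l 3)) (l 3)))), by decide +kernel⟩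

theorem c_B04pp_113_s1 : CertF 536870912 536870912 0 1230186008 67108864 67108864 false true true .nn 1 1 3
    ndF0q1 ndF4q3 pcF1 cut_B04pp_113_s1 Ext.none :=
  certFK2 (fam := false) (s1 := true) (s2 := true) (a := 1) (b := 1) (c := 3) (cn := .nn) (n1 := ndF0q1) (n2 := ndF4q3) (pc := pcF1) (cut := cut_B04pp_113_s1) (xt := Ext.none) (P1 := 536870912) (W1 := 536870912) (P2 := 0) (W2 := 1230186008) (P3 := 67108864) (W3 := 67108864)
    rfl rfl rfl (fun _ => rfl) k0_B04pp_113_s1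

theorem s_B04pp_113_s1 {κ x : ℝ} (hκ : κ * h0 = ken x) (hx : ((67108864 : ℕ) : ℝ) / S ≤ x)
    (hx' : x ≤ (((67108864 : ℕ) : ℝ) + (67108864 : ℕ)) / S)
    (H : CutB (VF κ) PP tKF tL pcF (Cut.of [[⟨0, 1, 0, 21338704⟩, ⟨1, 1, 0, 21338704⟩, ⟨2, 2, 0, 1685920⟩]]) 1 1 3 0 4 (sgb true) (sgb true) x) :
    AltB (VF κ) PP tKF tL pcF [⟨3, 0, 0, 1449551462⟩] 1 1 3 0 4 (sgb true) (sgb true) x :=
  strip_altB (m := 1449551462) true rfl hκ covF01 covF43 hx hx' c_B04pp_113_s1 H (noExt_B)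

noncomputable def cut_B04pp_123_s1 : Cut := Cut.of [[⟨4, 0, 0, 1449551462⟩], [⟨0, 1, 0, 21338704⟩, ⟨1, 1, 0, 21338704⟩, ⟨2, 2, 0, 1685920⟩]]

noncomputable def xt_B04pp_123_s1 : Ext := strExt dd false true true .u0 .s2 .u2 .npn 1 2 3 rfl rfl gf2 vv ndF0q1 ndF4q3

noncomputable def f_B04pp_123_s1 : ℕ → ℕ → ℕ → ℕ → Bool := onCell 1073741824 536870912 0 1230186008 67108864 67108864
    (rowFK 2 false true true .npn 1 2 3 (qsf 536870912 536870912 0 1230186008 2) ndF0q1 ndF4q3 pcF2 cut_B04pp_123_s1 xt_B04pp_123_s1)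

def k0_B04pp_123_s1 : ∃ t, chk3 f_B04pp_123_s1 t 1 2 1 = true :=
  ⟨(b (a (a (a (a (b (b (a (b (l 14) (b (l 14) (l 3))) (b (l 16882232) (a (b (a (b (l 16802736) (l 539245199)) (l 16828792)) (a (l 539246735) (l 539360655))) (b (l 16796936) (a (b (l 16783808) (l 16781856)) (l 16788288)))))) (a (l 3) (b (a (a (l 3) (l 539368335)) (l 539443343)) (l 3)))) (l 3)) (b (b (a (a (l 16808456) (l 16888296)) (l 16892752)) (b (a (a (b (l 16830784) (l 539707279)) (l 16922424)) (l 16895864)) (a (l 541027359) (a (b (l 16882472) (l 16790592)) (l 16894992))))) (b (a (a (l 3) (l 540027791)) (l 540263055)) (l 3)))) (b (a (b (l 16827584) (l 17114848)) (l 16840808)) (a (a (b (b (l 16945952) (l 540813711)) (b (l 540928143) (l 541072159))) (b (l 16997016) (l 541692559))) (b (l 17019112) (a (l 17010024) (l 16939200)))))) (a (b (l 16883216) (a (b (l 17216248) (l 17212584)) (l 16887656))) (l 17098640))) (a (l 6) (l 6))) (a (a (a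 (l 3) (a (b (b (a (l 3) (l 541726351)) (l 3)) (l 3)) (b (a (l 543363103) (b (l 17020952) (l 542367887))) (a (l 3) (l 543222415))))) (b (a (a (a (b (l 16861944) (l 16832496)) (a (l 17211216) (a (l 16875544) (l 17212552)))) (l 16893064)) (l 16924168)) (a (a (a (b (l 542644623) (l 543094927)) (a (b (l 16832008) (l 16850856)) (a (l 16919432) (a (l 16926680) (l 16847472))))) (l 17055064)) (l 17152536)))) (a (a (b (l 16945552) (l 17077592)) (l 6)) (l 6)))), by decide +kernel⟩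

def k1_B04pp_123_s1 : ∃ t, chk3 f_B04pp_123_s1 t 4 6 1 = true :=
  ⟨(l 3), by decide +kernel⟩

def k2_B04pp_123_s1 : ∃ t, chk3 f_B04pp_123_s1 t 10 6 1 = true :=
  ⟨(a (a (b (b (l 543551375) (l 3)) (l 3)) (b (b (a (l 543533855) (a (l 16845448) (a (l 16811624) (l 16817264)))) (a (a (l 543878031) (l 544290447)) (a (b (l 544499855) (l 544961167)) (a (a (b (l 16797712) (l 16790520)) (l 16818288)) (l 16801656))))) (a (l 3) (a (b (b (l 545533583) (a (l 3) (l 546573455))) (l 3)) (a (a (b (b (l 546142095) (l 547131023)) (l 548089423)) (a (b (b (l 16786416) (l 547420559)) (l 548084047)) (a (a (b (b (l 16787352) (l 547123087)) (l 548081743)) (a (b (b (l 16787632) (l 547122063)) (b (l 547763023) (l 3))) (a (b (b (l 16787768) (l 547121295)) (b (l 547762767) (l 3))) (b (b (l 16787864) (l 547120783)) (b (l 547762511) (l 3)))))) (b (b (l 16788280) (l 547115663)) (b (l 547761487) (l 548405839)))))) (a (a (b (b (l 16789392)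 (b (l 16785144) (l 16782680))) (b (l 547758895) (l 548402991))) (a (a (b (b (l 16790328) (l 16795400)) (b (b (l 16781552) (l 16785136)) (b (l 548231983) (l 548571695)))) (a (b (b (l 16790608) (l 16795688)) (b (b (l 16781848) (l 16780192)) (b (b (l 16779224) (l 16778736)) (b (l 16778376) (l 16778144))))) (a (b (b (l 16790744) (l 16785344)) (b (b (l 16781992) (l 16780344)) (b (l 16781760) (b (l 16778528) (l 16778304))))) (b (b (l 16790840) (l 16785440)) (b (b (l 16782088) (l 16780440)) (b (l 16779240) (b (l 16778632) (l 16778408)))))))) (b (b (l 16791256) (l 16785864)) (b (b (l 16782528) (l 16780888)) (b (b (l 16779928) (l 16779448)) (b (l 16779096) (l 16778872))))))) (b (b (l 16793112) (l 16787752)) (b (l 547749727) (l 548393823))))))))) (b (a (b (l 16842008) (l 16869264)) (l 16963416)) (a (a (b (b (l 16806360) (l 16822264)) (l 548033887)) (b (l 16827840) (l 16822672))) (b (l 16863256) (l 16860896))))),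 by decide +kernel⟩

def k3_B04pp_123_s1 : ∃ t, chk3 f_B04pp_123_s1 t 11 6 1 = true :=
  ⟨(b (a (l 16944992) (l 17030392)) (a (l 17102656) (l 17031368))), by decide +kernel⟩

def k4_B04pp_123_s1 : ∃ t, chk3 f_B04pp_123_s1 t 3 6 1 = true :=
  ⟨(a (b (a (l 17147016) (l 17288136)) (a (l 17177568) (l 17376888))) (l 6)), by decide +kernel⟩

def k5_B04pp_123_s1 : ∃ t, chk3 f_B04pp_123_s1 t 1 7 1 = true :=
  ⟨(a (a (b (l 3) (l 3)) (a (b (a (a (l 3) (a (l 3) (a (b (l 3) (b (a (l 3) (l 551247487)) (l 553594495))) (b (a (b (l 3) (l 549936703)) (a (a (b (l 549121583) (l 549926191)) (a (a (b (b (l 548930607) (l 549309999)) (b (l 549711919) (l 16780880))) (a (b (b (b (l 16778048) (l 16778096)) (b (l 16778288) (l 16778640))) (b (l 16782120) (l 16781224))) (a (b (b (b (l 16778208) (l 16778256)) (b (l 16778448) (l 16778800))) (b (b (l 16779312) (l 16780000)) (l 16781400))) (b (b (b (l 16778312) (l 16778360)) (b (l 16778560)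 (l 16778912))) (b (l 16785016) (l 16781512)))))) (b (b (b (l 16778784) (l 16778840)) (b (l 16779048) (l 16779400))) (b (l 16785520) (l 16782024))))) (b (l 549111647) (l 549915999)))) (a (b (a (l 550925439) (a (l 550897535) (l 550907775))) (a (l 552466815) (l 552545407))) (b (b (b (l 16789520) (l 16785752)) (l 16798968)) (a (l 16815120) (l 16840224)))))))) (b (l 549383519) (a (b (a (b (l 16824776) (l 16849944)) (l 16836680)) (a (l 16858840) (l 1))) (l 16870600)))) (a (b (a (l 3) (l 1)) (l 1)) (l 1))) (b (b (l 549102175) (l 1)) (l 1)))) (l 1)), by decide +kernel⟩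

theorem t6_B04pp_123_s1 : ∃ t, chk3 f_B04pp_123_s1 t 5 6 1 = true := ex3_a k2_B04pp_123_s1 k3_B04pp_123_s1

theorem t7_B04pp_123_s1 : ∃ t, chk3 f_B04pp_123_s1 t 2 6 1 = true := ex3_a k1_B04pp_123_s1 t6_B04pp_123_s1

theorem t8_B04pp_123_s1 : ∃ t, chk3 f_B04pp_123_s1 t 1 6 1 = true := ex3_a t7_B04pp_123_s1 k4_B04pp_123_s1

theorem t9_B04pp_123_s1 : ∃ t, chk3 f_B04pp_123_s1 t 1 3 1 = true := ex3_b t8_B04pp_123_s1 k5_B04pp_123_s1

theorem t10_B04pp_123_s1 : ∃ t, chk3 f_B04pp_123_s1 t 1 1 1 = true := ex3_b k0_B04pp_123_s1 t9_B04pp_123_s1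

theorem c_B04pp_123_s1 : CertF 536870912 536870912 0 1230186008 67108864 67108864 false true true .npn 1 2 3
    ndF0q1 ndF4q3 pcF2 cut_B04pp_123_s1 xt_B04pp_123_s1 :=
  certFK2 (fam := false) (s1 := true) (s2 := true) (a := 1) (b := 2) (c := 3) (cn := .npn) (n1 := ndF0q1) (n2 := ndF4q3) (pc := pcF2) (cut := cut_B04pp_123_s1) (xt := xt_B04pp_123_s1) (P1 := 536870912) (W1 := 536870912) (P2 := 0) (W2 := 1230186008) (P3 := 67108864) (W3 := 67108864)
    rfl rfl rfl (fun _ => rfl) t10_B04pp_123_s1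

theorem s_B04pp_123_s1 {κ x : ℝ} (hκ : κ * h0 = ken x) (hx : ((67108864 : ℕ) : ℝ) / S ≤ x)
    (hx' : x ≤ (((67108864 : ℕ) : ℝ) + (67108864 : ℕ)) / S)
    (H : CutB (VF κ) PP tKF tL pcF (Cut.of [[⟨0, 1, 0, 21338704⟩, ⟨1, 1, 0, 21338704⟩, ⟨2, 2, 0, 1685920⟩]]) 1 2 3 0 4 (sgb true) (sgb true) x) :
    AltB (VF κ) PP tKF tL pcF [⟨3, 0, 0, 1449551462⟩] 1 2 3 0 4 (sgb true) (sgb true) x :=
  strip_altB (m := 1449551462) true rfl hκ covF01 covF43 hx hx' c_B04pp_123_s1 H ((okx hx hx').extB (T := tt) (sideF hx hx') hκ rfl rfl (.O 1 true) (.N 3 true) rfl)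

noncomputable def cut_B04pp_133_s1 : Cut := Cut.of [[⟨4, 0, 0, 1449551462⟩]]

noncomputable def f_B04pp_133_s1 : ℕ → ℕ → ℕ → ℕ → Bool := onCell 1610612736 536870912 0 1230186008 67108864 67108864
    (rowFK 2 false true true .dn 1 3 3 (qsf 536870912 536870912 0 1230186008 3) ndF0q1 ndF4q3 pcF3 cut_B04pp_133_s1 Ext.none)

def k0_B04pp_133_s1 : ∃ t, chk3 f_B04pp_133_s1 t 1 1 1 = true :=
  ⟨(b (l 6) (l 1)), by decide +kernel⟩

theorem c_B04pp_133_s1 : CertF 536870912 536870912 0 1230186008 67108864 67108864 false true true .dn 1 3 3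
    ndF0q1 ndF4q3 pcF3 cut_B04pp_133_s1 Ext.none :=
  certFK2 (fam := false) (s1 := true) (s2 := true) (a := 1) (b := 3) (c := 3) (cn := .dn) (n1 := ndF0q1) (n2 := ndF4q3) (pc := pcF3) (cut := cut_B04pp_133_s1) (xt := Ext.none) (P1 := 536870912) (W1 := 536870912) (P2 := 0) (W2 := 1230186008) (P3 := 67108864) (W3 := 67108864)
    rfl rfl rfl (fun _ => rfl) k0_B04pp_133_s1

theorem s_B04pp_133_s1 {κ x : ℝ} (hκ : κ * h0 = ken x) (hx : ((67108864 : ℕ) : ℝ) / S ≤ x)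
    (hx' : x ≤ (((67108864 : ℕ) : ℝ) + (67108864 : ℕ)) / S) :
    AltB (VF κ) PP tKF tL pcF [⟨3, 0, 0, 1449551462⟩] 1 3 3 0 4 (sgb true) (sgb true) x :=
  strip_altB (m := 1449551462) true rfl hκ covF01 covF43 hx hx' c_B04pp_133_s1 cutB_nil (noExt_B)

noncomputable def cut_B04pp_202_s1 : Cut := Cut.of [[⟨4, 0, 0, 1449551462⟩]]

noncomputable def f_B04pp_202_s1 : ℕ → ℕ → ℕ → ℕ → Bool := onCell 0 536870912 1073741824 536870912 67108864 67108864
    (rowFK 0 false true true .pp 2 0 2 (qsf 0 536870912 1073741824 536870912 0) ndF0q2 ndF4q2 pcF0 cut_B04pp_202_s1 Ext.none)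

def k0_B04pp_202_s1 : ∃ t, chk3 f_B04pp_202_s1 t 1 1 1 = true :=
  ⟨(l 5), by decide +kernel⟩

theorem c_B04pp_202_s1 : CertF 0 536870912 1073741824 536870912 67108864 67108864 false true true .pp 2 0 2
    ndF0q2 ndF4q2 pcF0 cut_B04pp_202_s1 Ext.none :=
  certFK0 (fam := false) (s1 := true) (s2 := true) (a := 2) (b := 0) (c := 2) (cn := .pp) (n1 := ndF0q2) (n2 := ndF4q2) (pc := pcF0) (cut := cut_B04pp_202_s1) (xt := Ext.none) (P1 := 0) (W1 := 536870912) (P2 := 1073741824) (W2 := 536870912) (P3 := 67108864) (W3 := 67108864)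
    rfl rfl rfl k0_B04pp_202_s1

theorem s_B04pp_202_s1 {κ x : ℝ} (hκ : κ * h0 = ken x) (hx : ((67108864 : ℕ) : ℝ) / S ≤ x)
    (hx' : x ≤ (((67108864 : ℕ) : ℝ) + (67108864 : ℕ)) / S) :
    AltB (VF κ) PP tKF tL pcF [⟨3, 0, 0, 1449551462⟩] 2 0 2 0 4 (sgb true) (sgb true) x :=
  strip_altB (m := 1449551462) true rfl hκ covF02 covF42 hx hx' c_B04pp_202_s1 cutB_nil (noExt_B)

noncomputable def cut_B04pp_203_s1 : Cut := Cut.of [[⟨4, 0, 0, 1449551462⟩]]

noncomputable def f_B04pp_203_s1 : ℕ → ℕ → ℕ → ℕ → Bool := onCell 0 536870912 0 1230186008 67108864 67108864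
    (rowFK 0 false true true .up 2 0 3 (qsf 0 536870912 0 1230186008 0) ndF0q2 ndF4q3 pcF0 cut_B04pp_203_s1 Ext.none)

def k0_B04pp_203_s1 : ∃ t, chk3 f_B04pp_203_s1 t 1 1 1 = true :=
  ⟨(b (l 2) (b (l 2) (a (l 5) (l 3)))), by decide +kernel⟩

theorem c_B04pp_203_s1 : CertF 0 536870912 0 1230186008 67108864 67108864 false true true .up 2 0 3
    ndF0q2 ndF4q3 pcF0 cut_B04pp_203_s1 Ext.none :=
  certFK0 (fam := false) (s1 := true) (s2 := true) (a := 2) (b := 0) (c := 3) (cn := .up) (n1 := ndF0q2) (n2 := ndF4q3) (pc := pcF0) (cut := cut_B04pp_203_s1) (xt := Ext.none) (P1 := 0) (W1 := 536870912) (P2 := 0) (W2 := 1230186008) (P3 := 67108864) (W3 := 67108864)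
    rfl rfl rfl k0_B04pp_203_s1

theorem s_B04pp_203_s1 {κ x : ℝ} (hκ : κ * h0 = ken x) (hx : ((67108864 : ℕ) : ℝ) / S ≤ x)
    (hx' : x ≤ (((67108864 : ℕ) : ℝ) + (67108864 : ℕ)) / S) :
    AltB (VF κ) PP tKF tL pcF [⟨3, 0, 0, 1449551462⟩] 2 0 3 0 4 (sgb true) (sgb true) x :=
  strip_altB (m := 1449551462) true rfl hκ covF02 covF43 hx hx' c_B04pp_203_s1 cutB_nil (noExt_B)

noncomputable def cut_B04pp_213_s1 : Cut := Cut.of [[⟨4, 0, 0, 1449551462⟩], [⟨0, 1, 0, 21338704⟩, ⟨1, 1, 0, 21338704⟩, ⟨2, 2, 0, 1685920⟩]]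

noncomputable def f_B04pp_213_s1 : ℕ → ℕ → ℕ → ℕ → Bool := onCell 0 536870912 0 1230186008 67108864 67108864
    (rowFK 0 false true true .pnn 2 1 3 (qsf 0 536870912 0 1230186008 1) ndF0q2 ndF4q3 pcF1 cut_B04pp_213_s1 Ext.none)

def k0_B04pp_213_s1 : ∃ t, chk3 f_B04pp_213_s1 t 1 1 1 = true :=
  ⟨(a (b (l 3) (l 5)) (b (b (a (l 3) (b (a (l 3) (b (a (l 3) (b (a (l 3) (l 14)) (l 3))) (l 3))) (l 3))) (l 3)) (b (l 3) (l 3)))), by decide +kernel⟩

theorem c_B04pp_213_s1 : CertF 0 536870912 0 1230186008 67108864 67108864 false true true .pnn 2 1 3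
    ndF0q2 ndF4q3 pcF1 cut_B04pp_213_s1 Ext.none :=
  certFK0 (fam := false) (s1 := true) (s2 := true) (a := 2) (b := 1) (c := 3) (cn := .pnn) (n1 := ndF0q2) (n2 := ndF4q3) (pc := pcF1) (cut := cut_B04pp_213_s1) (xt := Ext.none) (P1 := 0) (W1 := 536870912) (P2 := 0) (W2 := 1230186008) (P3 := 67108864) (W3 := 67108864)
    rfl rfl rfl k0_B04pp_213_s1

theorem s_B04pp_213_s1 {κ x : ℝ} (hκ : κ * h0 = ken x) (hx : ((67108864 : ℕ) : ℝ) / S ≤ x)
    (hx' : x ≤ (((67108864 : ℕ) : ℝ) + (67108864 : ℕ)) / S)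
    (H : CutB (VF κ) PP tKF tL pcF (Cut.of [[⟨0, 1, 0, 21338704⟩, ⟨1, 1, 0, 21338704⟩, ⟨2, 2, 0, 1685920⟩]]) 2 1 3 0 4 (sgb true) (sgb true) x) :
    AltB (VF κ) PP tKF tL pcF [⟨3, 0, 0, 1449551462⟩] 2 1 3 0 4 (sgb true) (sgb true) x :=
  strip_altB (m := 1449551462) true rfl hκ covF02 covF43 hx hx' c_B04pp_213_s1 H (noExt_B)

noncomputable def cut_B04pm_001_s1 : Cut := Cut.of [[⟨4, 0, 0, 1449551462⟩]]

noncomputable def f_B04pm_001_s1 : ℕ → ℕ → ℕ → ℕ → Bool := onCell 0 536870912 536870912 536870912 67108864 67108864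
    (rowFK 0 false true false .up 0 0 1 (qsf 0 536870912 536870912 536870912 0) ndF0q0 ndF4q1 pcF0 cut_B04pm_001_s1 Ext.none)

def k0_B04pm_001_s1 : ∃ t, chk3 f_B04pm_001_s1 t 1 1 1 = true :=
  ⟨(l 4), by decide +kernel⟩

theorem c_B04pm_001_s1 : CertF 0 536870912 536870912 536870912 67108864 67108864 false true false .up 0 0 1
    ndF0q0 ndF4q1 pcF0 cut_B04pm_001_s1 Ext.none :=
  certFK0 (fam := false) (s1 := true) (s2 := false) (a := 0) (b := 0) (c := 1) (cn := .up) (n1 := ndF0q0) (n2 := ndF4q1) (pc := pcF0) (cut := cut_B04pm_001_s1) (xt := Ext.none) (P1 := 0) (W1 := 536870912) (P2 := 536870912) (W2 := 536870912) (P3 := 67108864) (W3 := 67108864)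
    rfl rfl rfl k0_B04pm_001_s1

theorem s_B04pm_001_s1 {κ x : ℝ} (hκ : κ * h0 = ken x) (hx : ((67108864 : ℕ) : ℝ) / S ≤ x)
    (hx' : x ≤ (((67108864 : ℕ) : ℝ) + (67108864 : ℕ)) / S) :
    AltB (VF κ) PP tKF tL pcF [⟨3, 0, 0, 1449551462⟩] 0 0 1 0 4 (sgb true) (sgb false) x :=
  strip_altB (m := 1449551462) true rfl hκ covF00 covF41 hx hx' c_B04pm_001_s1 cutB_nil (noExt_B)

noncomputable def cut_B04pm_011_s1 : Cut := Cut.of [[⟨4, 0, 0, 1449551462⟩]]

noncomputable def f_B04pm_011_s1 : ℕ → ℕ → ℕ → ℕ → Bool := onCell 0 536870912 536870912 536870912 67108864 67108864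
    (rowFK 0 false true false .pnn 0 1 1 (qsf 0 536870912 536870912 536870912 1) ndF0q0 ndF4q1 pcF1 cut_B04pm_011_s1 Ext.none)

def k0_B04pm_011_s1 : ∃ t, chk3 f_B04pm_011_s1 t 1 1 1 = true :=
  ⟨(l 4), by decide +kernel⟩

theorem c_B04pm_011_s1 : CertF 0 536870912 536870912 536870912 67108864 67108864 false true false .pnn 0 1 1
    ndF0q0 ndF4q1 pcF1 cut_B04pm_011_s1 Ext.none :=
  certFK0 (fam := false) (s1 := true) (s2 := false) (a := 0) (b := 1) (c := 1) (cn := .pnn) (n1 := ndF0q0) (n2 := ndF4q1) (pc := pcF1) (cut := cut_B04pm_011_s1) (xt := Ext.none) (P1 := 0) (W1 := 536870912) (P2 := 536870912) (W2 := 536870912) (P3 := 67108864) (W3 := 67108864)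
    rfl rfl rfl k0_B04pm_011_s1

theorem s_B04pm_011_s1 {κ x : ℝ} (hκ : κ * h0 = ken x) (hx : ((67108864 : ℕ) : ℝ) / S ≤ x)
    (hx' : x ≤ (((67108864 : ℕ) : ℝ) + (67108864 : ℕ)) / S) :
    AltB (VF κ) PP tKF tL pcF [⟨3, 0, 0, 1449551462⟩] 0 1 1 0 4 (sgb true) (sgb false) x :=
  strip_altB (m := 1449551462) true rfl hκ covF00 covF41 hx hx' c_B04pm_011_s1 cutB_nil (noExt_B)

noncomputable def cut_B04pm_012_s1 : Cut := Cut.of [[⟨4, 0, 0, 1449551462⟩]]

noncomputable def f_B04pm_012_s1 : ℕ → ℕ → ℕ → ℕ → Bool := onCell 0 536870912 1073741824 536870912 67108864 67108864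
    (rowFK 0 false true false .pnp 0 1 2 (qsf 0 536870912 1073741824 536870912 1) ndF0q0 ndF4q2 pcF1 cut_B04pm_012_s1 Ext.none)

def k0_B04pm_012_s1 : ∃ t, chk3 f_B04pm_012_s1 t 1 1 1 = true :=
  ⟨(l 4), by decide +kernel⟩

theorem c_B04pm_012_s1 : CertF 0 536870912 1073741824 536870912 67108864 67108864 false true false .pnp 0 1 2
    ndF0q0 ndF4q2 pcF1 cut_B04pm_012_s1 Ext.none :=
  certFK0 (fam := false) (s1 := true) (s2 := false) (a := 0) (b := 1) (c := 2) (cn := .pnp) (n1 := ndF0q0) (n2 := ndF4q2) (pc := pcF1) (cut := cut_B04pm_012_s1) (xt := Ext.none) (P1 := 0) (W1 := 536870912) (P2 := 1073741824) (W2 := 536870912) (P3 := 67108864) (W3 := 67108864)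
    rfl rfl rfl k0_B04pm_012_s1

theorem s_B04pm_012_s1 {κ x : ℝ} (hκ : κ * h0 = ken x) (hx : ((67108864 : ℕ) : ℝ) / S ≤ x)
    (hx' : x ≤ (((67108864 : ℕ) : ℝ) + (67108864 : ℕ)) / S) :
    AltB (VF κ) PP tKF tL pcF [⟨3, 0, 0, 1449551462⟩] 0 1 2 0 4 (sgb true) (sgb false) x :=
  strip_altB (m := 1449551462) true rfl hκ covF00 covF42 hx hx' c_B04pm_012_s1 cutB_nil (noExt_B)

noncomputable def cut_B04pm_022_s1 : Cut := Cut.of [[⟨4, 0, 0, 1449551462⟩]]

noncomputable def f_B04pm_022_s1 : ℕ → ℕ → ℕ → ℕ → Bool := onCell 0 536870912 1073741824 536870912 67108864 67108864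
    (rowFK 0 false true false .pp 0 2 2 (qsf 0 536870912 1073741824 536870912 2) ndF0q0 ndF4q2 pcF2 cut_B04pm_022_s1 Ext.none)

def k0_B04pm_022_s1 : ∃ t, chk3 f_B04pm_022_s1 t 1 1 1 = true :=
  ⟨(l 4), by decide +kernel⟩

theorem c_B04pm_022_s1 : CertF 0 536870912 1073741824 536870912 67108864 67108864 false true false .pp 0 2 2
    ndF0q0 ndF4q2 pcF2 cut_B04pm_022_s1 Ext.none :=
  certFK0 (fam := false) (s1 := true) (s2 := false) (a := 0) (b := 2) (c := 2) (cn := .pp) (n1 := ndF0q0) (n2 := ndF4q2) (pc := pcF2) (cut := cut_B04pm_022_s1) (xt := Ext.none) (P1 := 0) (W1 := 536870912) (P2 := 1073741824) (W2 := 536870912) (P3 := 67108864) (W3 := 67108864)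
    rfl rfl rfl k0_B04pm_022_s1

theorem s_B04pm_022_s1 {κ x : ℝ} (hκ : κ * h0 = ken x) (hx : ((67108864 : ℕ) : ℝ) / S ≤ x)
    (hx' : x ≤ (((67108864 : ℕ) : ℝ) + (67108864 : ℕ)) / S) :
    AltB (VF κ) PP tKF tL pcF [⟨3, 0, 0, 1449551462⟩] 0 2 2 0 4 (sgb true) (sgb false) x :=
  strip_altB (m := 1449551462) true rfl hκ covF00 covF42 hx hx' c_B04pm_022_s1 cutB_nil (noExt_B)

noncomputable def cut_B04pm_023_s1 : Cut := Cut.of [[⟨4, 0, 0, 1449551462⟩]]

noncomputable def f_B04pm_023_s1 : ℕ → ℕ → ℕ → ℕ → Bool := onCell 0 536870912 0 1230186008 67108864 67108864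
    (rowFK 0 false true false .up 0 2 3 (qsf 0 536870912 0 1230186008 2) ndF0q0 ndF4q3 pcF2 cut_B04pm_023_s1 Ext.none)

def k0_B04pm_023_s1 : ∃ t, chk3 f_B04pm_023_s1 t 1 1 1 = true :=
  ⟨(l 6), by decide +kernel⟩

theorem c_B04pm_023_s1 : CertF 0 536870912 0 1230186008 67108864 67108864 false true false .up 0 2 3
    ndF0q0 ndF4q3 pcF2 cut_B04pm_023_s1 Ext.none :=
  certFK0 (fam := false) (s1 := true) (s2 := false) (a := 0) (b := 2) (c := 3) (cn := .up) (n1 := ndF0q0) (n2 := ndF4q3) (pc := pcF2) (cut := cut_B04pm_023_s1) (xt := Ext.none) (P1 := 0) (W1 := 536870912) (P2 := 0) (W2 := 1230186008) (P3 := 67108864) (W3 := 67108864)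
    rfl rfl rfl k0_B04pm_023_s1

theorem s_B04pm_023_s1 {κ x : ℝ} (hκ : κ * h0 = ken x) (hx : ((67108864 : ℕ) : ℝ) / S ≤ x)
    (hx' : x ≤ (((67108864 : ℕ) : ℝ) + (67108864 : ℕ)) / S) :
    AltB (VF κ) PP tKF tL pcF [⟨3, 0, 0, 1449551462⟩] 0 2 3 0 4 (sgb true) (sgb false) x :=
  strip_altB (m := 1449551462) true rfl hκ covF00 covF43 hx hx' c_B04pm_023_s1 cutB_nil (noExt_B)

noncomputable def cut_B04pm_033_s1 : Cut := Cut.of [[⟨4, 0, 0, 1449551462⟩]]

noncomputable def f_B04pm_033_s1 : ℕ → ℕ → ℕ → ℕ → Bool := onCell 0 536870912 0 1230186008 67108864 67108864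
    (rowFK 0 false true false .pnn 0 3 3 (qsf 0 536870912 0 1230186008 3) ndF0q0 ndF4q3 pcF3 cut_B04pm_033_s1 Ext.none)

def k0_B04pm_033_s1 : ∃ t, chk3 f_B04pm_033_s1 t 1 1 1 = true :=
  ⟨(l 6), by decide +kernel⟩

theorem c_B04pm_033_s1 : CertF 0 536870912 0 1230186008 67108864 67108864 false true false .pnn 0 3 3
    ndF0q0 ndF4q3 pcF3 cut_B04pm_033_s1 Ext.none :=
  certFK0 (fam := false) (s1 := true) (s2 := false) (a := 0) (b := 3) (c := 3) (cn := .pnn) (n1 := ndF0q0) (n2 := ndF4q3) (pc := pcF3) (cut := cut_B04pm_033_s1) (xt := Ext.none) (P1 := 0) (W1 := 536870912) (P2 := 0) (W2 := 1230186008) (P3 := 67108864) (W3 := 67108864)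
    rfl rfl rfl k0_B04pm_033_s1

theorem s_B04pm_033_s1 {κ x : ℝ} (hκ : κ * h0 = ken x) (hx : ((67108864 : ℕ) : ℝ) / S ≤ x)
    (hx' : x ≤ (((67108864 : ℕ) : ℝ) + (67108864 : ℕ)) / S) :
    AltB (VF κ) PP tKF tL pcF [⟨3, 0, 0, 1449551462⟩] 0 3 3 0 4 (sgb true) (sgb false) x :=
  strip_altB (m := 1449551462) true rfl hκ covF00 covF43 hx hx' c_B04pm_033_s1 cutB_nil (noExt_B)

noncomputable def cut_B04pm_101_s1 : Cut := Cut.of [[⟨4, 0, 0, 1449551462⟩]]

noncomputable def f_B04pm_101_s1 : ℕ → ℕ → ℕ → ℕ → Bool := onCell 536870912 536870912 536870912 536870912 67108864 67108864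
    (rowFK 0 false true false .npn 1 0 1 (qsf 536870912 536870912 536870912 536870912 0) ndF0q1 ndF4q1 pcF0 cut_B04pm_101_s1 Ext.none)

def k0_B04pm_101_s1 : ∃ t, chk3 f_B04pm_101_s1 t 1 1 1 = true :=
  ⟨(l 4), by decide +kernel⟩

theorem c_B04pm_101_s1 : CertF 536870912 536870912 536870912 536870912 67108864 67108864 false true false .npn 1 0 1
    ndF0q1 ndF4q1 pcF0 cut_B04pm_101_s1 Ext.none :=
  certFK0 (fam := false) (s1 := true) (s2 := false) (a := 1) (b := 0) (c := 1) (cn := .npn) (n1 := ndF0q1) (n2 := ndF4q1) (pc := pcF0) (cut := cut_B04pm_101_s1) (xt := Ext.none) (P1 := 536870912) (W1 := 536870912) (P2 := 536870912) (W2 := 536870912) (P3 := 67108864) (W3 := 67108864)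
    rfl rfl rfl k0_B04pm_101_s1

theorem s_B04pm_101_s1 {κ x : ℝ} (hκ : κ * h0 = ken x) (hx : ((67108864 : ℕ) : ℝ) / S ≤ x)
    (hx' : x ≤ (((67108864 : ℕ) : ℝ) + (67108864 : ℕ)) / S) :
    AltB (VF κ) PP tKF tL pcF [⟨3, 0, 0, 1449551462⟩] 1 0 1 0 4 (sgb true) (sgb false) x :=
  strip_altB (m := 1449551462) true rfl hκ covF01 covF41 hx hx' c_B04pm_101_s1 cutB_nil (noExt_B)

noncomputable def cut_B04pm_102_s1 : Cut := Cut.of [[⟨4, 0, 0, 1449551462⟩]]

noncomputable def f_B04pm_102_s1 : ℕ → ℕ → ℕ → ℕ → Bool := onCell 536870912 536870912 1073741824 536870912 67108864 67108864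
    (rowFK 0 false true false .npp 1 0 2 (qsf 536870912 536870912 1073741824 536870912 0) ndF0q1 ndF4q2 pcF0 cut_B04pm_102_s1 Ext.none)

def k0_B04pm_102_s1 : ∃ t, chk3 f_B04pm_102_s1 t 1 1 1 = true :=
  ⟨(l 6), by decide +kernel⟩

theorem c_B04pm_102_s1 : CertF 536870912 536870912 1073741824 536870912 67108864 67108864 false true false .npp 1 0 2
    ndF0q1 ndF4q2 pcF0 cut_B04pm_102_s1 Ext.none :=
  certFK0 (fam := false) (s1 := true) (s2 := false) (a := 1) (b := 0) (c := 2) (cn := .npp) (n1 := ndF0q1) (n2 := ndF4q2) (pc := pcF0) (cut := cut_B04pm_102_s1) (xt := Ext.none) (P1 := 536870912) (W1 := 536870912) (P2 := 1073741824) (W2 := 536870912) (P3 := 67108864) (W3 := 67108864)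
    rfl rfl rfl k0_B04pm_102_s1

theorem s_B04pm_102_s1 {κ x : ℝ} (hκ : κ * h0 = ken x) (hx : ((67108864 : ℕ) : ℝ) / S ≤ x)
    (hx' : x ≤ (((67108864 : ℕ) : ℝ) + (67108864 : ℕ)) / S) :
    AltB (VF κ) PP tKF tL pcF [⟨3, 0, 0, 1449551462⟩] 1 0 2 0 4 (sgb true) (sgb false) x :=
  strip_altB (m := 1449551462) true rfl hκ covF01 covF42 hx hx' c_B04pm_102_s1 cutB_nil (noExt_B)

noncomputable def cut_B04pm_112_s1 : Cut := Cut.of [[⟨4, 0, 0, 1449551462⟩]]

noncomputable def f_B04pm_112_s1 : ℕ → ℕ → ℕ → ℕ → Bool := onCell 536870912 536870912 1073741824 536870912 67108864 67108864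
    (rowFK 0 false true false .dn 1 1 2 (qsf 536870912 536870912 1073741824 536870912 1) ndF0q1 ndF4q2 pcF1 cut_B04pm_112_s1 Ext.none)

def k0_B04pm_112_s1 : ∃ t, chk3 f_B04pm_112_s1 t 1 1 1 = true :=
  ⟨(l 6), by decide +kernel⟩

theorem c_B04pm_112_s1 : CertF 536870912 536870912 1073741824 536870912 67108864 67108864 false true false .dn 1 1 2
    ndF0q1 ndF4q2 pcF1 cut_B04pm_112_s1 Ext.none :=
  certFK0 (fam := false) (s1 := true) (s2 := false) (a := 1) (b := 1) (c := 2) (cn := .dn) (n1 := ndF0q1) (n2 := ndF4q2) (pc := pcF1) (cut := cut_B04pm_112_s1) (xt := Ext.none) (P1 := 536870912) (W1 := 536870912) (P2 := 1073741824) (W2 := 536870912) (P3 := 67108864) (W3 := 67108864)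
    rfl rfl rfl k0_B04pm_112_s1

theorem s_B04pm_112_s1 {κ x : ℝ} (hκ : κ * h0 = ken x) (hx : ((67108864 : ℕ) : ℝ) / S ≤ x)
    (hx' : x ≤ (((67108864 : ℕ) : ℝ) + (67108864 : ℕ)) / S) :
    AltB (VF κ) PP tKF tL pcF [⟨3, 0, 0, 1449551462⟩] 1 1 2 0 4 (sgb true) (sgb false) x :=
  strip_altB (m := 1449551462) true rfl hκ covF01 covF42 hx hx' c_B04pm_112_s1 cutB_nil (noExt_B)

noncomputable def cut_B04pm_113_s1 : Cut := Cut.of [[⟨4, 0, 0, 1449551462⟩], [⟨0, 1, 0, 21338704⟩, ⟨1, 1, 0, 21338704⟩, ⟨2, 2, 0, 1685920⟩]]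

noncomputable def f_B04pm_113_s1 : ℕ → ℕ → ℕ → ℕ → Bool := onCell 536870912 536870912 0 1230186008 67108864 67108864
    (rowFK 0 false true false .nn 1 1 3 (qsf 536870912 536870912 0 1230186008 1) ndF0q1 ndF4q3 pcF1 cut_B04pm_113_s1 Ext.none)

def k0_B04pm_113_s1 : ∃ t, chk3 f_B04pm_113_s1 t 1 1 1 = true :=
  ⟨(a (b (l 2) (l 6)) (b (a (l 2) (b (a (l 2) (b (a (l 2) (b (a (l 2) (b (l 14) (l 16801536))) (l 16834688))) (l 16915088))) (b (a (l 6) (l 16908480)) (l 6)))) (l 6))), by decide +kernel⟩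

theorem c_B04pm_113_s1 : CertF 536870912 536870912 0 1230186008 67108864 67108864 false true false .nn 1 1 3
    ndF0q1 ndF4q3 pcF1 cut_B04pm_113_s1 Ext.none :=
  certFK0 (fam := false) (s1 := true) (s2 := false) (a := 1) (b := 1) (c := 3) (cn := .nn) (n1 := ndF0q1) (n2 := ndF4q3) (pc := pcF1) (cut := cut_B04pm_113_s1) (xt := Ext.none) (P1 := 536870912) (W1 := 536870912) (P2 := 0) (W2 := 1230186008) (P3 := 67108864) (W3 := 67108864)
    rfl rfl rfl k0_B04pm_113_s1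

theorem s_B04pm_113_s1 {κ x : ℝ} (hκ : κ * h0 = ken x) (hx : ((67108864 : ℕ) : ℝ) / S ≤ x)
    (hx' : x ≤ (((67108864 : ℕ) : ℝ) + (67108864 : ℕ)) / S)
    (H : CutB (VF κ) PP tKF tL pcF (Cut.of [[⟨0, 1, 0, 21338704⟩, ⟨1, 1, 0, 21338704⟩, ⟨2, 2, 0, 1685920⟩]]) 1 1 3 0 4 (sgb true) (sgb false) x) :
    AltB (VF κ) PP tKF tL pcF [⟨3, 0, 0, 1449551462⟩] 1 1 3 0 4 (sgb true) (sgb false) x :=
  strip_altB (m := 1449551462) true rfl hκ covF01 covF43 hx hx' c_B04pm_113_s1 H (noExt_B)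

noncomputable def cut_B04pm_123_s1 : Cut := Cut.of [[⟨4, 0, 0, 1449551462⟩], [⟨0, 1, 0, 21338704⟩, ⟨1, 1, 0, 21338704⟩, ⟨2, 2, 0, 1685920⟩]]

noncomputable def f_B04pm_123_s1 : ℕ → ℕ → ℕ → ℕ → Bool := onCell 1073741824 536870912 0 1230186008 67108864 67108864
    (rowFK 2 false true false .npn 1 2 3 (qsf 536870912 536870912 0 1230186008 2) ndF0q1 ndF4q3 pcF2 cut_B04pm_123_s1 Ext.none)

def k0_B04pm_123_s1 : ∃ t, chk3 f_B04pm_123_s1 t 1 1 1 = true :=
  ⟨(b (a (b (a (a (a (b (b (a (b (l 14) (l 16795408)) (l 16803432)) (l 16818368)) (l 16874856)) (b (l 17144528) (l 16895432))) (b (l 16927248) (l 6))) (b (l 6) (l 6))) (b (l 6) (l 6))) (l 6)) (l 6)), by decide +kernel⟩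

theorem c_B04pm_123_s1 : CertF 536870912 536870912 0 1230186008 67108864 67108864 false true false .npn 1 2 3
    ndF0q1 ndF4q3 pcF2 cut_B04pm_123_s1 Ext.none :=
  certFK2 (fam := false) (s1 := true) (s2 := false) (a := 1) (b := 2) (c := 3) (cn := .npn) (n1 := ndF0q1) (n2 := ndF4q3) (pc := pcF2) (cut := cut_B04pm_123_s1) (xt := Ext.none) (P1 := 536870912) (W1 := 536870912) (P2 := 0) (W2 := 1230186008) (P3 := 67108864) (W3 := 67108864)
    rfl rfl rfl (fun _ => rfl) k0_B04pm_123_s1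

theorem s_B04pm_123_s1 {κ x : ℝ} (hκ : κ * h0 = ken x) (hx : ((67108864 : ℕ) : ℝ) / S ≤ x)
    (hx' : x ≤ (((67108864 : ℕ) : ℝ) + (67108864 : ℕ)) / S)
    (H : CutB (VF κ) PP tKF tL pcF (Cut.of [[⟨0, 1, 0, 21338704⟩, ⟨1, 1, 0, 21338704⟩, ⟨2, 2, 0, 1685920⟩]]) 1 2 3 0 4 (sgb true) (sgb false) x) :
    AltB (VF κ) PP tKF tL pcF [⟨3, 0, 0, 1449551462⟩] 1 2 3 0 4 (sgb true) (sgb false) x :=
  strip_altB (m := 1449551462) true rfl hκ covF01 covF43 hx hx' c_B04pm_123_s1 H (noExt_B)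

noncomputable def cut_B04pm_133_s1 : Cut := Cut.of [[⟨4, 0, 0, 1449551462⟩]]

noncomputable def f_B04pm_133_s1 : ℕ → ℕ → ℕ → ℕ → Bool := onCell 1610612736 536870912 0 1230186008 67108864 67108864
    (rowFK 2 false true false .dn 1 3 3 (qsf 536870912 536870912 0 1230186008 3) ndF0q1 ndF4q3 pcF3 cut_B04pm_133_s1 Ext.none)

def k0_B04pm_133_s1 : ∃ t, chk3 f_B04pm_133_s1 t 1 1 1 = true :=
  ⟨(l 6), by decide +kernel⟩

theorem c_B04pm_133_s1 : CertF 536870912 536870912 0 1230186008 67108864 67108864 false true false .dn 1 3 3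
    ndF0q1 ndF4q3 pcF3 cut_B04pm_133_s1 Ext.none :=
  certFK2 (fam := false) (s1 := true) (s2 := false) (a := 1) (b := 3) (c := 3) (cn := .dn) (n1 := ndF0q1) (n2 := ndF4q3) (pc := pcF3) (cut := cut_B04pm_133_s1) (xt := Ext.none) (P1 := 536870912) (W1 := 536870912) (P2 := 0) (W2 := 1230186008) (P3 := 67108864) (W3 := 67108864)
    rfl rfl rfl (fun _ => rfl) k0_B04pm_133_s1

theorem s_B04pm_133_s1 {κ x : ℝ} (hκ : κ * h0 = ken x) (hx : ((67108864 : ℕ) : ℝ) / S ≤ x)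
    (hx' : x ≤ (((67108864 : ℕ) : ℝ) + (67108864 : ℕ)) / S) :
    AltB (VF κ) PP tKF tL pcF [⟨3, 0, 0, 1449551462⟩] 1 3 3 0 4 (sgb true) (sgb false) x :=
  strip_altB (m := 1449551462) true rfl hκ covF01 covF43 hx hx' c_B04pm_133_s1 cutB_nil (noExt_B)

noncomputable def cut_B04pm_202_s1 : Cut := Cut.of [[⟨4, 0, 0, 1449551462⟩]]

noncomputable def f_B04pm_202_s1 : ℕ → ℕ → ℕ → ℕ → Bool := onCell 0 536870912 1073741824 536870912 67108864 67108864
    (rowFK 0 false true false .pp 2 0 2 (qsf 0 536870912 1073741824 536870912 0) ndF0q2 ndF4q2 pcF0 cut_B04pm_202_s1 Ext.none)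

def k0_B04pm_202_s1 : ∃ t, chk3 f_B04pm_202_s1 t 1 1 1 = true :=
  ⟨(a (b (l 6) (b (l 6) (l 6))) (l 6)), by decide +kernel⟩

theorem c_B04pm_202_s1 : CertF 0 536870912 1073741824 536870912 67108864 67108864 false true false .pp 2 0 2
    ndF0q2 ndF4q2 pcF0 cut_B04pm_202_s1 Ext.none :=
  certFK0 (fam := false) (s1 := true) (s2 := false) (a := 2) (b := 0) (c := 2) (cn := .pp) (n1 := ndF0q2) (n2 := ndF4q2) (pc := pcF0) (cut := cut_B04pm_202_s1) (xt := Ext.none) (P1 := 0) (W1 := 536870912) (P2 := 1073741824) (W2 := 536870912) (P3 := 67108864) (W3 := 67108864)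
    rfl rfl rfl k0_B04pm_202_s1

theorem s_B04pm_202_s1 {κ x : ℝ} (hκ : κ * h0 = ken x) (hx : ((67108864 : ℕ) : ℝ) / S ≤ x)
    (hx' : x ≤ (((67108864 : ℕ) : ℝ) + (67108864 : ℕ)) / S) :
    AltB (VF κ) PP tKF tL pcF [⟨3, 0, 0, 1449551462⟩] 2 0 2 0 4 (sgb true) (sgb false) x :=
  strip_altB (m := 1449551462) true rfl hκ covF02 covF42 hx hx' c_B04pm_202_s1 cutB_nil (noExt_B)

noncomputable def cut_B04pm_203_s1 : Cut := Cut.of [[⟨4, 0, 0, 1449551462⟩]]

noncomputable def f_B04pm_203_s1 : ℕ → ℕ → ℕ → ℕ → Bool := onCell 0 536870912 0 1230186008 67108864 67108864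
    (rowFK 0 false true false .up 2 0 3 (qsf 0 536870912 0 1230186008 0) ndF0q2 ndF4q3 pcF0 cut_B04pm_203_s1 Ext.none)

def k0_B04pm_203_s1 : ∃ t, chk3 f_B04pm_203_s1 t 1 1 1 = true :=
  ⟨(b (l 2) (b (l 2) (a (a (b (l 408123871575) (a (b (l 16997336) (b (l 17060752) (l 17078152))) (b (l 17034808) (l 6)))) (b (a (l 17055896) (l 6)) (l 6))) (l 6)))), by decide +kernel⟩

theorem c_B04pm_203_s1 : CertF 0 536870912 0 1230186008 67108864 67108864 false true false .up 2 0 3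
    ndF0q2 ndF4q3 pcF0 cut_B04pm_203_s1 Ext.none :=
  certFK0 (fam := false) (s1 := true) (s2 := false) (a := 2) (b := 0) (c := 3) (cn := .up) (n1 := ndF0q2) (n2 := ndF4q3) (pc := pcF0) (cut := cut_B04pm_203_s1) (xt := Ext.none) (P1 := 0) (W1 := 536870912) (P2 := 0) (W2 := 1230186008) (P3 := 67108864) (W3 := 67108864)
    rfl rfl rfl k0_B04pm_203_s1

theorem s_B04pm_203_s1 {κ x : ℝ} (hκ : κ * h0 = ken x) (hx : ((67108864 : ℕ) : ℝ) / S ≤ x)
    (hx' : x ≤ (((67108864 : ℕ) : ℝ) + (67108864 : ℕ)) / S) :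
    AltB (VF κ) PP tKF tL pcF [⟨3, 0, 0, 1449551462⟩] 2 0 3 0 4 (sgb true) (sgb false) x :=
  strip_altB (m := 1449551462) true rfl hκ covF02 covF43 hx hx' c_B04pm_203_s1 cutB_nil (noExt_B)

noncomputable def cut_B04pm_213_s1 : Cut := Cut.of [[⟨4, 0, 0, 1449551462⟩], [⟨0, 1, 0, 21338704⟩, ⟨1, 1, 0, 21338704⟩, ⟨2, 2, 0, 1685920⟩]]

noncomputable def xt_B04pm_213_s1 : Ext := strExt dd false true false .u2 .s2m .u0m .pnn 2 1 3 rfl rfl gf1 vv ndF0q2 ndF4q3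

noncomputable def f_B04pm_213_s1 : ℕ → ℕ → ℕ → ℕ → Bool := onCell 0 536870912 0 1230186008 67108864 67108864
    (rowFK 0 false true false .pnn 2 1 3 (qsf 0 536870912 0 1230186008 1) ndF0q2 ndF4q3 pcF1 cut_B04pm_213_s1 xt_B04pm_213_s1)

def k0_B04pm_213_s1 : ∃ t, chk3 f_B04pm_213_s1 t 1 1 1 = true :=
  ⟨(b (a (b (l 3) (a (l 3) (b (l 3) (l 545109007)))) (b (a (b (l 3) (a (l 3) (b (l 3) (l 541092367)))) (b (b (a (l 3) (a (a (l 3) (a (l 3) (l 537301263))) (b (a (a (l 3) (l 14)) (l 14)) (a (a (l 538260495) (a (l 536983823) (l 537361423))) (l 16801528))))) (a (a (l 3) (l 539038223)) (a (a (l 538109455) (a (l 537757199) (l 537542671))) (b (l 16822288) (l 16781760))))) (a (a (l 539854351) (b (l 539308047) (l 16820416))) (b (a (l 16797896) (l 16791424)) (l 16823096))))) (a (a (b (l 542757903) (l 543471375)) (b (a (l 541867791) (l 541250575)) (l 16991720))) (b (a (l 17142016) (l 16897080)) (l 17483192))))) (b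 (a (a (b (a (l 3) (l 546696463)) (a (l 547644431) (l 546901007))) (b (a (l 545980431) (l 545181455)) (a (l 546307855) (l 17263352)))) (a (b (a (l 17117400) (l 17229664)) (a (l 17416768) (l 6))) (b (l 6) (l 6)))) (a (a (b (b (l 547207951) (l 546934287)) (l 1)) (b (b (l 17413264) (l 17812648)) (l 6))) (l 6)))), by decide +kernel⟩

theorem c_B04pm_213_s1 : CertF 0 536870912 0 1230186008 67108864 67108864 false true false .pnn 2 1 3
    ndF0q2 ndF4q3 pcF1 cut_B04pm_213_s1 xt_B04pm_213_s1 :=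
  certFK0 (fam := false) (s1 := true) (s2 := false) (a := 2) (b := 1) (c := 3) (cn := .pnn) (n1 := ndF0q2) (n2 := ndF4q3) (pc := pcF1) (cut := cut_B04pm_213_s1) (xt := xt_B04pm_213_s1) (P1 := 0) (W1 := 536870912) (P2 := 0) (W2 := 1230186008) (P3 := 67108864) (W3 := 67108864)
    rfl rfl rfl k0_B04pm_213_s1

theorem s_B04pm_213_s1 {κ x : ℝ} (hκ : κ * h0 = ken x) (hx : ((67108864 : ℕ) : ℝ) / S ≤ x)
    (hx' : x ≤ (((67108864 : ℕ) : ℝ) + (67108864 : ℕ)) / S)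
    (H : CutB (VF κ) PP tKF tL pcF (Cut.of [[⟨0, 1, 0, 21338704⟩, ⟨1, 1, 0, 21338704⟩, ⟨2, 2, 0, 1685920⟩]]) 2 1 3 0 4 (sgb true) (sgb false) x) :
    AltB (VF κ) PP tKF tL pcF [⟨3, 0, 0, 1449551462⟩] 2 1 3 0 4 (sgb true) (sgb false) x :=
  strip_altB (m := 1449551462) true rfl hκ covF02 covF43 hx hx' c_B04pm_213_s1 H ((okx hx hx').extB (T := tt) (sideF hx hx') hκ rfl rfl (.O 2 true) (.N 3 false) (Or.inr rfl))

noncomputable def cut_B04mm_001_s1 : Cut := Cut.of [[⟨4, 0, 0, 1449551462⟩]]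

noncomputable def f_B04mm_001_s1 : ℕ → ℕ → ℕ → ℕ → Bool := onCell 0 536870912 0 536870912 67108864 67108864
    (rowFK 1 false false false .up 0 0 1 (qsf 0 536870912 536870912 536870912 0) ndF0q0 ndF4q1 pcF0 cut_B04mm_001_s1 Ext.none)

def k0_B04mm_001_s1 : ∃ t, chk3 f_B04mm_001_s1 t 1 1 1 = true :=
  ⟨(l 3), by decide +kernel⟩

theorem c_B04mm_001_s1 : CertF 0 536870912 536870912 536870912 67108864 67108864 false false false .up 0 0 1
    ndF0q0 ndF4q1 pcF0 cut_B04mm_001_s1 Ext.none :=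
  certFK1 (fam := false) (s1 := false) (s2 := false) (a := 0) (b := 0) (c := 1) (cn := .up) (n1 := ndF0q0) (n2 := ndF4q1) (pc := pcF0) (cut := cut_B04mm_001_s1) (xt := Ext.none) (P1 := 0) (W1 := 536870912) (P2 := 536870912) (W2 := 536870912) (P3 := 67108864) (W3 := 67108864)
    rfl rfl rfl (fun _ => rfl) k0_B04mm_001_s1

theorem s_B04mm_001_s1 {κ x : ℝ} (hκ : κ * h0 = ken x) (hx : ((67108864 : ℕ) : ℝ) / S ≤ x)
    (hx' : x ≤ (((67108864 : ℕ) : ℝ) + (67108864 : ℕ)) / S) :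
    AltB (VF κ) PP tKF tL pcF [⟨3, 0, 0, 1449551462⟩] 0 0 1 0 4 (sgb false) (sgb false) x :=
  strip_altB (m := 1449551462) true rfl hκ covF00 covF41 hx hx' c_B04mm_001_s1 cutB_nil (noExt_B)

noncomputable def cut_B04mm_011_s1 : Cut := Cut.of [[⟨4, 0, 0, 1449551462⟩]]

noncomputable def f_B04mm_011_s1 : ℕ → ℕ → ℕ → ℕ → Bool := onCell 0 536870912 536870912 536870912 67108864 67108864
    (rowFK 1 false false false .pnn 0 1 1 (qsf 0 536870912 536870912 536870912 1) ndF0q0 ndF4q1 pcF1 cut_B04mm_011_s1 Ext.none)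

def k0_B04mm_011_s1 : ∃ t, chk3 f_B04mm_011_s1 t 1 1 1 = true :=
  ⟨(l 5), by decide +kernel⟩

theorem c_B04mm_011_s1 : CertF 0 536870912 536870912 536870912 67108864 67108864 false false false .pnn 0 1 1
    ndF0q0 ndF4q1 pcF1 cut_B04mm_011_s1 Ext.none :=
  certFK1 (fam := false) (s1 := false) (s2 := false) (a := 0) (b := 1) (c := 1) (cn := .pnn) (n1 := ndF0q0) (n2 := ndF4q1) (pc := pcF1) (cut := cut_B04mm_011_s1) (xt := Ext.none) (P1 := 0) (W1 := 536870912) (P2 := 536870912) (W2 := 536870912) (P3 := 67108864) (W3 := 67108864)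
    rfl rfl rfl (fun _ => rfl) k0_B04mm_011_s1

theorem s_B04mm_011_s1 {κ x : ℝ} (hκ : κ * h0 = ken x) (hx : ((67108864 : ℕ) : ℝ) / S ≤ x)
    (hx' : x ≤ (((67108864 : ℕ) : ℝ) + (67108864 : ℕ)) / S) :
    AltB (VF κ) PP tKF tL pcF [⟨3, 0, 0, 1449551462⟩] 0 1 1 0 4 (sgb false) (sgb false) x :=
  strip_altB (m := 1449551462) true rfl hκ covF00 covF41 hx hx' c_B04mm_011_s1 cutB_nil (noExt_B)

noncomputable def cut_B04mm_012_s1 : Cut := Cut.of [[⟨4, 0, 0, 1449551462⟩]]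

noncomputable def f_B04mm_012_s1 : ℕ → ℕ → ℕ → ℕ → Bool := onCell 0 536870912 1073741824 536870912 67108864 67108864
    (rowFK 0 false false false .pnp 0 1 2 (qsf 0 536870912 1073741824 536870912 1) ndF0q0 ndF4q2 pcF1 cut_B04mm_012_s1 Ext.none)

def k0_B04mm_012_s1 : ∃ t, chk3 f_B04mm_012_s1 t 1 1 1 = true :=
  ⟨(l 5), by decide +kernel⟩

theorem c_B04mm_012_s1 : CertF 0 536870912 1073741824 536870912 67108864 67108864 false false false .pnp 0 1 2
    ndF0q0 ndF4q2 pcF1 cut_B04mm_012_s1 Ext.none :=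
  certFK0 (fam := false) (s1 := false) (s2 := false) (a := 0) (b := 1) (c := 2) (cn := .pnp) (n1 := ndF0q0) (n2 := ndF4q2) (pc := pcF1) (cut := cut_B04mm_012_s1) (xt := Ext.none) (P1 := 0) (W1 := 536870912) (P2 := 1073741824) (W2 := 536870912) (P3 := 67108864) (W3 := 67108864)
    rfl rfl rfl k0_B04mm_012_s1

theorem s_B04mm_012_s1 {κ x : ℝ} (hκ : κ * h0 = ken x) (hx : ((67108864 : ℕ) : ℝ) / S ≤ x)
    (hx' : x ≤ (((67108864 : ℕ) : ℝ) + (67108864 : ℕ)) / S) :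
    AltB (VF κ) PP tKF tL pcF [⟨3, 0, 0, 1449551462⟩] 0 1 2 0 4 (sgb false) (sgb false) x :=
  strip_altB (m := 1449551462) true rfl hκ covF00 covF42 hx hx' c_B04mm_012_s1 cutB_nil (noExt_B)

noncomputable def cut_B04mm_022_s1 : Cut := Cut.of [[⟨4, 0, 0, 1449551462⟩]]

noncomputable def f_B04mm_022_s1 : ℕ → ℕ → ℕ → ℕ → Bool := onCell 0 536870912 1073741824 536870912 67108864 67108864
    (rowFK 0 false false false .pp 0 2 2 (qsf 0 536870912 1073741824 536870912 2) ndF0q0 ndF4q2 pcF2 cut_B04mm_022_s1 Ext.none)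

def k0_B04mm_022_s1 : ∃ t, chk3 f_B04mm_022_s1 t 1 1 1 = true :=
  ⟨(l 5), by decide +kernel⟩

theorem c_B04mm_022_s1 : CertF 0 536870912 1073741824 536870912 67108864 67108864 false false false .pp 0 2 2
    ndF0q0 ndF4q2 pcF2 cut_B04mm_022_s1 Ext.none :=
  certFK0 (fam := false) (s1 := false) (s2 := false) (a := 0) (b := 2) (c := 2) (cn := .pp) (n1 := ndF0q0) (n2 := ndF4q2) (pc := pcF2) (cut := cut_B04mm_022_s1) (xt := Ext.none) (P1 := 0) (W1 := 536870912) (P2 := 1073741824) (W2 := 536870912) (P3 := 67108864) (W3 := 67108864)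
    rfl rfl rfl k0_B04mm_022_s1

theorem s_B04mm_022_s1 {κ x : ℝ} (hκ : κ * h0 = ken x) (hx : ((67108864 : ℕ) : ℝ) / S ≤ x)
    (hx' : x ≤ (((67108864 : ℕ) : ℝ) + (67108864 : ℕ)) / S) :
    AltB (VF κ) PP tKF tL pcF [⟨3, 0, 0, 1449551462⟩] 0 2 2 0 4 (sgb false) (sgb false) x :=
  strip_altB (m := 1449551462) true rfl hκ covF00 covF42 hx hx' c_B04mm_022_s1 cutB_nil (noExt_B)

noncomputable def cut_B04mm_023_s1 : Cut := Cut.of [[⟨4, 0, 0, 1449551462⟩]]

noncomputable def f_B04mm_023_s1 : ℕ → ℕ → ℕ → ℕ → Bool := onCell 0 536870912 0 1230186008 67108864 67108864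
    (rowFK 0 false false false .up 0 2 3 (qsf 0 536870912 0 1230186008 2) ndF0q0 ndF4q3 pcF2 cut_B04mm_023_s1 Ext.none)

def k0_B04mm_023_s1 : ∃ t, chk3 f_B04mm_023_s1 t 1 1 1 = true :=
  ⟨(l 5), by decide +kernel⟩

theorem c_B04mm_023_s1 : CertF 0 536870912 0 1230186008 67108864 67108864 false false false .up 0 2 3
    ndF0q0 ndF4q3 pcF2 cut_B04mm_023_s1 Ext.none :=
  certFK0 (fam := false) (s1 := false) (s2 := false) (a := 0) (b := 2) (c := 3) (cn := .up) (n1 := ndF0q0) (n2 := ndF4q3) (pc := pcF2) (cut := cut_B04mm_023_s1) (xt := Ext.none) (P1 := 0) (W1 := 536870912) (P2 := 0) (W2 := 1230186008) (P3 := 67108864) (W3 := 67108864)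
    rfl rfl rfl k0_B04mm_023_s1

theorem s_B04mm_023_s1 {κ x : ℝ} (hκ : κ * h0 = ken x) (hx : ((67108864 : ℕ) : ℝ) / S ≤ x)
    (hx' : x ≤ (((67108864 : ℕ) : ℝ) + (67108864 : ℕ)) / S) :
    AltB (VF κ) PP tKF tL pcF [⟨3, 0, 0, 1449551462⟩] 0 2 3 0 4 (sgb false) (sgb false) x :=
  strip_altB (m := 1449551462) true rfl hκ covF00 covF43 hx hx' c_B04mm_023_s1 cutB_nil (noExt_B)

noncomputable def cut_B04mm_033_s1 : Cut := Cut.of [[⟨4, 0, 0, 1449551462⟩]]

noncomputable def f_B04mm_033_s1 : ℕ → ℕ → ℕ → ℕ → Bool := onCell 0 536870912 0 1230186008 67108864 67108864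
    (rowFK 0 false false false .pnn 0 3 3 (qsf 0 536870912 0 1230186008 3) ndF0q0 ndF4q3 pcF3 cut_B04mm_033_s1 Ext.none)

def k0_B04mm_033_s1 : ∃ t, chk3 f_B04mm_033_s1 t 1 1 1 = true :=
  ⟨(l 5), by decide +kernel⟩

theorem c_B04mm_033_s1 : CertF 0 536870912 0 1230186008 67108864 67108864 false false false .pnn 0 3 3
    ndF0q0 ndF4q3 pcF3 cut_B04mm_033_s1 Ext.none :=
  certFK0 (fam := false) (s1 := false) (s2 := false) (a := 0) (b := 3) (c := 3) (cn := .pnn) (n1 := ndF0q0) (n2 := ndF4q3) (pc := pcF3) (cut := cut_B04mm_033_s1) (xt := Ext.none) (P1 := 0) (W1 := 536870912) (P2 := 0) (W2 := 1230186008) (P3 := 67108864) (W3 := 67108864)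
    rfl rfl rfl k0_B04mm_033_s1

theorem s_B04mm_033_s1 {κ x : ℝ} (hκ : κ * h0 = ken x) (hx : ((67108864 : ℕ) : ℝ) / S ≤ x)
    (hx' : x ≤ (((67108864 : ℕ) : ℝ) + (67108864 : ℕ)) / S) :
    AltB (VF κ) PP tKF tL pcF [⟨3, 0, 0, 1449551462⟩] 0 3 3 0 4 (sgb false) (sgb false) x :=
  strip_altB (m := 1449551462) true rfl hκ covF00 covF43 hx hx' c_B04mm_033_s1 cutB_nil (noExt_B)

noncomputable def cut_B04mm_101_s1 : Cut := Cut.of [[⟨4, 0, 0, 1449551462⟩], [⟨0, 1, 0, 67108864⟩, ⟨1, 0, 0, 67108864⟩, ⟨2, 1, 0, 67108864⟩]]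

noncomputable def f_B04mm_101_s1 : ℕ → ℕ → ℕ → ℕ → Bool := onCell 536870912 536870912 0 536870912 67108864 67108864
    (rowFK 1 false false false .npn 1 0 1 (qsf 536870912 536870912 536870912 536870912 0) ndF0q1 ndF4q1 pcF0 cut_B04mm_101_s1 Ext.none)

def k0_B04mm_101_s1 : ∃ t, chk3 f_B04mm_101_s1 t 1 1 1 = true :=
  ⟨(a (l 3) (b (b (a (l 3) (b (a (l 3) (a (l 3) (b (l 14) (l 3)))) (l 3))) (l 3)) (l 3))), by decide +kernel⟩

theorem c_B04mm_101_s1 : CertF 536870912 536870912 536870912 536870912 67108864 67108864 false false false .npn 1 0 1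
    ndF0q1 ndF4q1 pcF0 cut_B04mm_101_s1 Ext.none :=
  certFK1 (fam := false) (s1 := false) (s2 := false) (a := 1) (b := 0) (c := 1) (cn := .npn) (n1 := ndF0q1) (n2 := ndF4q1) (pc := pcF0) (cut := cut_B04mm_101_s1) (xt := Ext.none) (P1 := 536870912) (W1 := 536870912) (P2 := 536870912) (W2 := 536870912) (P3 := 67108864) (W3 := 67108864)
    rfl rfl rfl (fun _ => rfl) k0_B04mm_101_s1

theorem s_B04mm_101_s1 {κ x : ℝ} (hκ : κ * h0 = ken x) (hx : ((67108864 : ℕ) : ℝ) / S ≤ x)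
    (hx' : x ≤ (((67108864 : ℕ) : ℝ) + (67108864 : ℕ)) / S)
    (H : CutB (VF κ) PP tKF tL pcF (Cut.of [[⟨0, 1, 0, 67108864⟩, ⟨1, 0, 0, 67108864⟩, ⟨2, 1, 0, 67108864⟩]]) 1 0 1 0 4 (sgb false) (sgb false) x) :
    AltB (VF κ) PP tKF tL pcF [⟨3, 0, 0, 1449551462⟩] 1 0 1 0 4 (sgb false) (sgb false) x :=
  strip_altB (m := 1449551462) true rfl hκ covF01 covF41 hx hx' c_B04mm_101_s1 H (noExt_B)

noncomputable def cut_B04mm_102_s1 : Cut := Cut.of [[⟨4, 0, 0, 1449551462⟩], [⟨0, 1, 0, 67108864⟩, ⟨1, 0, 0, 67108864⟩, ⟨2, 1, 0, 67108864⟩]]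

noncomputable def f_B04mm_102_s1 : ℕ → ℕ → ℕ → ℕ → Bool := onCell 536870912 536870912 0 536870912 67108864 67108864
    (rowFK 1 false false false .npp 1 0 2 (qsf 536870912 536870912 1073741824 536870912 0) ndF0q1 ndF4q2 pcF0 cut_B04mm_102_s1 Ext.none)

def k0_B04mm_102_s1 : ∃ t, chk3 f_B04mm_102_s1 t 1 1 1 = true :=
  ⟨(b (a (l 3) (a (l 3) (b (b (a (l 3) (a (l 3) (b (l 14) (l 3)))) (l 3)) (l 3)))) (l 3)), by decide +kernel⟩

theorem c_B04mm_102_s1 : CertF 536870912 536870912 1073741824 536870912 67108864 67108864 false false false .npp 1 0 2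
    ndF0q1 ndF4q2 pcF0 cut_B04mm_102_s1 Ext.none :=
  certFK1 (fam := false) (s1 := false) (s2 := false) (a := 1) (b := 0) (c := 2) (cn := .npp) (n1 := ndF0q1) (n2 := ndF4q2) (pc := pcF0) (cut := cut_B04mm_102_s1) (xt := Ext.none) (P1 := 536870912) (W1 := 536870912) (P2 := 1073741824) (W2 := 536870912) (P3 := 67108864) (W3 := 67108864)
    rfl rfl rfl (fun _ => rfl) k0_B04mm_102_s1

theorem s_B04mm_102_s1 {κ x : ℝ} (hκ : κ * h0 = ken x) (hx : ((67108864 : ℕ) : ℝ) / S ≤ x)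
    (hx' : x ≤ (((67108864 : ℕ) : ℝ) + (67108864 : ℕ)) / S)
    (H : CutB (VF κ) PP tKF tL pcF (Cut.of [[⟨0, 1, 0, 67108864⟩, ⟨1, 0, 0, 67108864⟩, ⟨2, 1, 0, 67108864⟩]]) 1 0 2 0 4 (sgb false) (sgb false) x) :
    AltB (VF κ) PP tKF tL pcF [⟨3, 0, 0, 1449551462⟩] 1 0 2 0 4 (sgb false) (sgb false) x :=
  strip_altB (m := 1449551462) true rfl hκ covF01 covF42 hx hx' c_B04mm_102_s1 H (noExt_B)

noncomputable def cut_B04mm_112_s1 : Cut := Cut.of [[⟨4, 0, 0, 1449551462⟩]]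

noncomputable def f_B04mm_112_s1 : ℕ → ℕ → ℕ → ℕ → Bool := onCell 536870912 536870912 1073741824 536870912 67108864 67108864
    (rowFK 2 false false false .dn 1 1 2 (qsf 536870912 536870912 1073741824 536870912 1) ndF0q1 ndF4q2 pcF1 cut_B04mm_112_s1 Ext.none)

def k0_B04mm_112_s1 : ∃ t, chk3 f_B04mm_112_s1 t 1 1 1 = true :=
  ⟨(a (l 3) (l 5)), by decide +kernel⟩

theorem c_B04mm_112_s1 : CertF 536870912 536870912 1073741824 536870912 67108864 67108864 false false false .dn 1 1 2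
    ndF0q1 ndF4q2 pcF1 cut_B04mm_112_s1 Ext.none :=
  certFK2 (fam := false) (s1 := false) (s2 := false) (a := 1) (b := 1) (c := 2) (cn := .dn) (n1 := ndF0q1) (n2 := ndF4q2) (pc := pcF1) (cut := cut_B04mm_112_s1) (xt := Ext.none) (P1 := 536870912) (W1 := 536870912) (P2 := 1073741824) (W2 := 536870912) (P3 := 67108864) (W3 := 67108864)
    rfl rfl rfl (fun _ => rfl) k0_B04mm_112_s1

theorem s_B04mm_112_s1 {κ x : ℝ} (hκ : κ * h0 = ken x) (hx : ((67108864 : ℕ) : ℝ) / S ≤ x)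
    (hx' : x ≤ (((67108864 : ℕ) : ℝ) + (67108864 : ℕ)) / S) :
    AltB (VF κ) PP tKF tL pcF [⟨3, 0, 0, 1449551462⟩] 1 1 2 0 4 (sgb false) (sgb false) x :=
  strip_altB (m := 1449551462) true rfl hκ covF01 covF42 hx hx' c_B04mm_112_s1 cutB_nil (noExt_B)

noncomputable def cut_B04mm_113_s1 : Cut := Cut.of [[⟨4, 0, 0, 1449551462⟩]]

noncomputable def f_B04mm_113_s1 : ℕ → ℕ → ℕ → ℕ → Bool := onCell 536870912 536870912 0 1230186008 67108864 67108864
    (rowFK 0 false false false .nn 1 1 3 (qsf 536870912 536870912 0 1230186008 1) ndF0q1 ndF4q3 pcF1 cut_B04mm_113_s1 Ext.none)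

def k0_B04mm_113_s1 : ∃ t, chk3 f_B04mm_113_s1 t 1 1 1 = true :=
  ⟨(b (l 5) (a (l 5) (b (a (l 5) (l 3)) (l 3)))), by decide +kernel⟩

theorem c_B04mm_113_s1 : CertF 536870912 536870912 0 1230186008 67108864 67108864 false false false .nn 1 1 3
    ndF0q1 ndF4q3 pcF1 cut_B04mm_113_s1 Ext.none :=
  certFK0 (fam := false) (s1 := false) (s2 := false) (a := 1) (b := 1) (c := 3) (cn := .nn) (n1 := ndF0q1) (n2 := ndF4q3) (pc := pcF1) (cut := cut_B04mm_113_s1) (xt := Ext.none) (P1 := 536870912) (W1 := 536870912) (P2 := 0) (W2 := 1230186008) (P3 := 67108864) (W3 := 67108864)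
    rfl rfl rfl k0_B04mm_113_s1

theorem s_B04mm_113_s1 {κ x : ℝ} (hκ : κ * h0 = ken x) (hx : ((67108864 : ℕ) : ℝ) / S ≤ x)
    (hx' : x ≤ (((67108864 : ℕ) : ℝ) + (67108864 : ℕ)) / S) :
    AltB (VF κ) PP tKF tL pcF [⟨3, 0, 0, 1449551462⟩] 1 1 3 0 4 (sgb false) (sgb false) x :=
  strip_altB (m := 1449551462) true rfl hκ covF01 covF43 hx hx' c_B04mm_113_s1 cutB_nil (noExt_B)

noncomputable def cut_B04mm_123_s1 : Cut := Cut.of [[⟨4, 0, 0, 1449551462⟩]]

noncomputable def f_B04mm_123_s1 : ℕ → ℕ → ℕ → ℕ → Bool := onCell 1073741824 536870912 0 1230186008 67108864 67108864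
    (rowFK 2 false false false .npn 1 2 3 (qsf 536870912 536870912 0 1230186008 2) ndF0q1 ndF4q3 pcF2 cut_B04mm_123_s1 Ext.none)

def k0_B04mm_123_s1 : ∃ t, chk3 f_B04mm_123_s1 t 1 1 1 = true :=
  ⟨(b (l 5) (l 5)), by decide +kernel⟩

theorem c_B04mm_123_s1 : CertF 536870912 536870912 0 1230186008 67108864 67108864 false false false .npn 1 2 3
    ndF0q1 ndF4q3 pcF2 cut_B04mm_123_s1 Ext.none :=
  certFK2 (fam := false) (s1 := false) (s2 := false) (a := 1) (b := 2) (c := 3) (cn := .npn) (n1 := ndF0q1) (n2 := ndF4q3) (pc := pcF2) (cut := cut_B04mm_123_s1) (xt := Ext.none) (P1 := 536870912) (W1 := 536870912) (P2 := 0) (W2 := 1230186008) (P3 := 67108864) (W3 := 67108864)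
    rfl rfl rfl (fun _ => rfl) k0_B04mm_123_s1

theorem s_B04mm_123_s1 {κ x : ℝ} (hκ : κ * h0 = ken x) (hx : ((67108864 : ℕ) : ℝ) / S ≤ x)
    (hx' : x ≤ (((67108864 : ℕ) : ℝ) + (67108864 : ℕ)) / S) :
    AltB (VF κ) PP tKF tL pcF [⟨3, 0, 0, 1449551462⟩] 1 2 3 0 4 (sgb false) (sgb false) x :=
  strip_altB (m := 1449551462) true rfl hκ covF01 covF43 hx hx' c_B04mm_123_s1 cutB_nil (noExt_B)

noncomputable def cut_B04mm_133_s1 : Cut := Cut.of [[⟨4, 0, 0, 1449551462⟩]]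

noncomputable def f_B04mm_133_s1 : ℕ → ℕ → ℕ → ℕ → Bool := onCell 1610612736 536870912 0 1230186008 67108864 67108864
    (rowFK 2 false false false .dn 1 3 3 (qsf 536870912 536870912 0 1230186008 3) ndF0q1 ndF4q3 pcF3 cut_B04mm_133_s1 Ext.none)

def k0_B04mm_133_s1 : ∃ t, chk3 f_B04mm_133_s1 t 1 1 1 = true :=
  ⟨(l 5), by decide +kernel⟩

theorem c_B04mm_133_s1 : CertF 536870912 536870912 0 1230186008 67108864 67108864 false false false .dn 1 3 3
    ndF0q1 ndF4q3 pcF3 cut_B04mm_133_s1 Ext.none :=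
  certFK2 (fam := false) (s1 := false) (s2 := false) (a := 1) (b := 3) (c := 3) (cn := .dn) (n1 := ndF0q1) (n2 := ndF4q3) (pc := pcF3) (cut := cut_B04mm_133_s1) (xt := Ext.none) (P1 := 536870912) (W1 := 536870912) (P2 := 0) (W2 := 1230186008) (P3 := 67108864) (W3 := 67108864)
    rfl rfl rfl (fun _ => rfl) k0_B04mm_133_s1

theorem s_B04mm_133_s1 {κ x : ℝ} (hκ : κ * h0 = ken x) (hx : ((67108864 : ℕ) : ℝ) / S ≤ x)
    (hx' : x ≤ (((67108864 : ℕ) : ℝ) + (67108864 : ℕ)) / S) :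
    AltB (VF κ) PP tKF tL pcF [⟨3, 0, 0, 1449551462⟩] 1 3 3 0 4 (sgb false) (sgb false) x :=
  strip_altB (m := 1449551462) true rfl hκ covF01 covF43 hx hx' c_B04mm_133_s1 cutB_nil (noExt_B)

noncomputable def cut_B04mm_202_s1 : Cut := Cut.of [[⟨4, 0, 0, 1449551462⟩], [⟨0, 1, 0, 25165824⟩, ⟨1, 0, 0, 25165824⟩, ⟨2, 1, 0, 25165824⟩]]

noncomputable def xt_B04mm_202_s1 : Ext := strExt dd false false false .u2 .s2m .u0m .pp 2 0 2 rfl rfl gf0 vv ndF0q2 ndF4q2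

noncomputable def f_B04mm_202_s1 : ℕ → ℕ → ℕ → ℕ → Bool := onCell 0 536870912 0 536870912 67108864 67108864
    (rowFK 1 false false false .pp 2 0 2 (qsf 0 536870912 1073741824 536870912 0) ndF0q2 ndF4q2 pcF0 cut_B04mm_202_s1 xt_B04mm_202_s1)

def k0_B04mm_202_s1 : ∃ t, chk3 f_B04mm_202_s1 t 2 2 1 = true :=
  ⟨(a (b (l 6) (b (l 6) (a (l 6) (b (l 17571960) (l 17211000))))) (b (b (a (l 6) (l 18469784)) (a (l 17749048) (b (l 17620608) (l 17434848)))) (b (b (a (l 17516112) (l 17677072)) (a (l 17735744) (l 17528176))) (a (b (l 17534392) (l 17153040)) (l 17085744))))), by decide +kernel⟩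

def k1_B04mm_202_s1 : ∃ t, chk3 f_B04mm_202_s1 t 6 4 1 = true :=
  ⟨(b (b (a (l 17940760) (a (l 17626584) (l 17582680))) (a (l 17548664) (a (b (l 17323544) (l 17255504)) (b (l 17227888) (l 17123032))))) (a (b (l 17475592) (a (l 17447072) (l 17351336))) (b (a (l 17531160) (a (l 17263664) (l 17270624))) (a (b (l 17203592) (l 17146976)) (l 16965504))))), by decide +kernel⟩

def k2_B04mm_202_s1 : ∃ t, chk3 f_B04mm_202_s1 t 7 4 1 = true :=
  ⟨(b (a (b (a (b (l 17310992) (l 17101664)) (b (b (l 17162320) (l 17055968)) (a (l 17088760) (b (l 17047112) (l 17003264))))) (a (a (b (l 17101432) (l 17096888)) (b (l 17069816) (b (l 16900296) (l 16945288)))) (a (b (b (b (l 16945248) (l 16825888)) (l 16801720)) (l 17016416)) (b (b (l 16977896) (a (l 16786032) (l 16780792))) (l 16792408))))) (b (a (b (b (a (l 17018184) (b (l 16912008) (l 16901976))) (a (l 16914112) (a (l 16959816) (b (l 16901408) (a (l 16886496) (l 16864464))))))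 (a (a (b (l 16916528) (l 16959424)) (b (l 16944472) (l 16924656))) (a (b (a (l 16924600) (l 16910568)) (l 16776032)) (b (b (l 16870368) (l 16775128)) (l 16781152))))) (b (a (b (a (b (l 16847352) (l 16838160)) (l 14)) (b (a (a (l 16882768) (l 16857784)) (a (a (l 16859280) (l 16842216)) (b (l 14) (l 16775008)))) (a (a (l 16865072) (l 16848024)) (b (l 16775080) (l 16775456))))) (b (l 14) (a (a (b (l 14) (a (l 535882511) (l 535834127))) (l 14)) (l 14)))) (a (a (a (l 536902159) (a (l 536836879) (l 536791055))) (a (a (l 536744975) (l 537503759)) (a (l 537188623) (b (l 536108559) (l 3))))) (b (a (a (a (l 536060943) (a (l 536030991) (l 536007695))) (l 3)) (l 3)) (l 3))))) (a (a (a (l 539221519) (b (l 16793448) (l 537227791))) (a (b (b (l 16776736) (l 16787648)) (l 537052431)) (b (a (l 536838671) (l 536749583)) (a (l 536924687) (l 3))))) (b (a (a (a (l 536658959) (l 536566799)) (l 3)) (l 3)) (l 3))))) (a (a (b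 (a (a (l 17217368) (l 17018432)) (l 16834512)) (l 559077135)) (b (a (l 554891791) (l 553031951)) (a (l 559868175) (l 560224015)))) (b (a (a (l 549744399) (l 3)) (l 3)) (l 3)))), by decide +kernel⟩

def k3_B04mm_202_s1 : ∃ t, chk3 f_B04mm_202_s1 t 3 5 1 = true :=
  ⟨(a (b (a (b (a (l 17383032) (l 17160768)) (l 17335976)) (b (a (l 17050280) (a (l 16873192) (l 557492495))) (a (l 554177551) (l 556015375)))) (a (l 550397455) (a (l 552510223) (l 554203151)))) (b (a (a (b (l 559100687) (l 558124047)) (l 3)) (l 3)) (l 3))), by decide +kernel⟩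

def k4_B04mm_202_s1 : ∃ t, chk3 f_B04mm_202_s1 t 1 3 1 = true :=
  ⟨(a (a (b (b (b (a (l 6) (l 17151832)) (a (l 17133856) (l 17100664))) (a (b (l 17096784) (l 17054344)) (l 17003304))) (l 2)) (b (a (l 544825103) (l 547918095)) (a (l 2) (b (l 545554959) (l 2))))) (b (a (a (b (l 548815119) (l 3)) (l 3)) (l 3)) (l 3))), by decide +kernel⟩

theorem t5_B04mm_202_s1 : ∃ t, chk3 f_B04mm_202_s1 t 3 4 1 = true := ex3_a k1_B04mm_202_s1 k2_B04mm_202_s1

theorem t6_B04mm_202_s1 : ∃ t, chk3 f_B04mm_202_s1 t 3 2 1 = true := ex3_b t5_B04mm_202_s1 k3_B04mm_202_s1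

theorem t7_B04mm_202_s1 : ∃ t, chk3 f_B04mm_202_s1 t 1 2 1 = true := ex3_a k0_B04mm_202_s1 t6_B04mm_202_s1

theorem t8_B04mm_202_s1 : ∃ t, chk3 f_B04mm_202_s1 t 1 1 1 = true := ex3_b t7_B04mm_202_s1 k4_B04mm_202_s1

theorem c_B04mm_202_s1 : CertF 0 536870912 1073741824 536870912 67108864 67108864 false false false .pp 2 0 2
    ndF0q2 ndF4q2 pcF0 cut_B04mm_202_s1 xt_B04mm_202_s1 :=
  certFK1 (fam := false) (s1 := false) (s2 := false) (a := 2) (b := 0) (c := 2) (cn := .pp) (n1 := ndF0q2) (n2 := ndF4q2) (pc := pcF0) (cut := cut_B04mm_202_s1) (xt := xt_B04mm_202_s1) (P1 := 0) (W1 := 536870912) (P2 := 1073741824) (W2 := 536870912) (P3 := 67108864) (W3 := 67108864)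
    rfl rfl rfl (fun _ => rfl) t8_B04mm_202_s1

theorem s_B04mm_202_s1 {κ x : ℝ} (hκ : κ * h0 = ken x) (hx : ((67108864 : ℕ) : ℝ) / S ≤ x)
    (hx' : x ≤ (((67108864 : ℕ) : ℝ) + (67108864 : ℕ)) / S)
    (H : CutB (VF κ) PP tKF tL pcF (Cut.of [[⟨0, 1, 0, 25165824⟩, ⟨1, 0, 0, 25165824⟩, ⟨2, 1, 0, 25165824⟩]]) 2 0 2 0 4 (sgb false) (sgb false) x) :
    AltB (VF κ) PP tKF tL pcF [⟨3, 0, 0, 1449551462⟩] 2 0 2 0 4 (sgb false) (sgb false) x :=
  strip_altB (m := 1449551462) true rfl hκ covF02 covF42 hx hx' c_B04mm_202_s1 H ((okx hx hx').extB (T := tt) (sideF hx hx') hκ rfl rfl (.O 2 false) (.N 2 false) (Or.inl rfl))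

noncomputable def cut_B04mm_203_s1 : Cut := Cut.of [[⟨4, 0, 0, 1449551462⟩]]

noncomputable def xt_B04mm_203_s1 : Ext := strExt dd false false false .u2 .s2m .u0m .up 2 0 3 rfl rfl gf0 vv ndF0q2 ndF4q3

noncomputable def f_B04mm_203_s1 : ℕ → ℕ → ℕ → ℕ → Bool := onCell 0 536870912 0 1230186008 67108864 67108864
    (rowFK 0 false false false .up 2 0 3 (qsf 0 536870912 0 1230186008 0) ndF0q2 ndF4q3 pcF0 cut_B04mm_203_s1 xt_B04mm_203_s1)

def k0_B04mm_203_s1 : ∃ t, chk3 f_B04mm_203_s1 t 1 1 1 = true :=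
  ⟨(b (l 2) (b (l 2) (a (a (b (a (l 542390031) (l 543326735)) (b (l 542556175) (a (l 17018320) (l 17012320)))) (b (l 3) (b (a (l 544273167) (l 3)) (a (l 544329487) (l 545559311))))) (l 3)))), by decide +kernel⟩

theorem c_B04mm_203_s1 : CertF 0 536870912 0 1230186008 67108864 67108864 false false false .up 2 0 3
    ndF0q2 ndF4q3 pcF0 cut_B04mm_203_s1 xt_B04mm_203_s1 :=
  certFK0 (fam := false) (s1 := false) (s2 := false) (a := 2) (b := 0) (c := 3) (cn := .up) (n1 := ndF0q2) (n2 := ndF4q3) (pc := pcF0) (cut := cut_B04mm_203_s1) (xt := xt_B04mm_203_s1) (P1 := 0) (W1 := 536870912) (P2 := 0) (W2 := 1230186008) (P3 := 67108864) (W3 := 67108864)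
    rfl rfl rfl k0_B04mm_203_s1

theorem s_B04mm_203_s1 {κ x : ℝ} (hκ : κ * h0 = ken x) (hx : ((67108864 : ℕ) : ℝ) / S ≤ x)
    (hx' : x ≤ (((67108864 : ℕ) : ℝ) + (67108864 : ℕ)) / S) :
    AltB (VF κ) PP tKF tL pcF [⟨3, 0, 0, 1449551462⟩] 2 0 3 0 4 (sgb false) (sgb false) x :=
  strip_altB (m := 1449551462) true rfl hκ covF02 covF43 hx hx' c_B04mm_203_s1 cutB_nil ((okx hx hx').extB (T := tt) (sideF hx hx') hκ rfl rfl (.O 2 false) (.N 3 false) (Or.inl rfl))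

noncomputable def cut_B04mm_213_s1 : Cut := Cut.of [[⟨4, 0, 0, 1449551462⟩]]

noncomputable def xt_B04mm_213_s1 : Ext := strExt dd false false false .u2 .s2m .u0m .pnn 2 1 3 rfl rfl gf1 vv ndF0q2 ndF4q3

noncomputable def f_B04mm_213_s1 : ℕ → ℕ → ℕ → ℕ → Bool := onCell 0 536870912 0 1230186008 67108864 67108864
    (rowFK 0 false false false .pnn 2 1 3 (qsf 0 536870912 0 1230186008 1) ndF0q2 ndF4q3 pcF1 cut_B04mm_213_s1 xt_B04mm_213_s1)

def k0_B04mm_213_s1 : ∃ t, chk3 f_B04mm_213_s1 t 1 1 1 = true :=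
  ⟨(b (a (l 3) (b (l 5) (l 3))) (b (a (a (b (l 3) (l 3)) (l 3)) (l 3)) (a (b (a (b (l 548834319) (l 548668943)) (l 3)) (a (l 1) (b (a (l 1) (l 3)) (l 1)))) (l 3)))), by decide +kernel⟩

theorem c_B04mm_213_s1 : CertF 0 536870912 0 1230186008 67108864 67108864 false false false .pnn 2 1 3
    ndF0q2 ndF4q3 pcF1 cut_B04mm_213_s1 xt_B04mm_213_s1 :=
  certFK0 (fam := false) (s1 := false) (s2 := false) (a := 2) (b := 1) (c := 3) (cn := .pnn) (n1 := ndF0q2) (n2 := ndF4q3) (pc := pcF1) (cut := cut_B04mm_213_s1) (xt := xt_B04mm_213_s1) (P1 := 0) (W1 := 536870912) (P2 := 0) (W2 := 1230186008) (P3 := 67108864) (W3 := 67108864)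
    rfl rfl rfl k0_B04mm_213_s1

theorem s_B04mm_213_s1 {κ x : ℝ} (hκ : κ * h0 = ken x) (hx : ((67108864 : ℕ) : ℝ) / S ≤ x)
    (hx' : x ≤ (((67108864 : ℕ) : ℝ) + (67108864 : ℕ)) / S) :
    AltB (VF κ) PP tKF tL pcF [⟨3, 0, 0, 1449551462⟩] 2 1 3 0 4 (sgb false) (sgb false) x :=
  strip_altB (m := 1449551462) true rfl hκ covF02 covF43 hx hx' c_B04mm_213_s1 cutB_nil ((okx hx hx').extB (T := tt) (sideF hx hx') hκ rfl rfl (.O 2 false) (.N 3 false) (Or.inr rfl))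

noncomputable def cut_B40pp_001_s1 : Cut := Cut.of [[⟨4, 0, 0, 1449551462⟩]]

noncomputable def xt_B40pp_001_s1 : Ext := strExt dd false true true .s0 .u0 .u0m .up 0 0 1 rfl rfl gf0 vv ndF4q0 ndF0q1

noncomputable def f_B40pp_001_s1 : ℕ → ℕ → ℕ → ℕ → Bool := onCell 0 536870912 0 536870912 67108864 67108864
    (rowFK 1 false true true .up 0 0 1 (qsf 0 536870912 536870912 536870912 0) ndF4q0 ndF0q1 pcF0 cut_B40pp_001_s1 xt_B40pp_001_s1)

def k0_B40pp_001_s1 : ∃ t, chk3 f_B40pp_001_s1 t 1 1 1 = true :=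
  ⟨(b (l 3) (a (b (l 3) (a (l 3) (b (l 3) (l 558267151)))) (b (a (l 3) (b (a (l 3) (l 565163279)) (l 562083855))) (a (b (a (l 560458511) (l 559789583)) (l 557049359)) (b (l 558641167) (l 555130895)))))), by decide +kernel⟩

theorem c_B40pp_001_s1 : CertF 0 536870912 536870912 536870912 67108864 67108864 false true true .up 0 0 1
    ndF4q0 ndF0q1 pcF0 cut_B40pp_001_s1 xt_B40pp_001_s1 :=
  certFK1 (fam := false) (s1 := true) (s2 := true) (a := 0) (b := 0) (c := 1) (cn := .up) (n1 := ndF4q0) (n2 := ndF0q1) (pc := pcF0) (cut := cut_B40pp_001_s1) (xt := xt_B40pp_001_s1) (P1 := 0) (W1 := 536870912) (P2 := 536870912) (W2 := 536870912) (P3 := 67108864) (W3 := 67108864)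
    rfl rfl rfl (fun _ => rfl) k0_B40pp_001_s1

theorem s_B40pp_001_s1 {κ x : ℝ} (hκ : κ * h0 = ken x) (hx : ((67108864 : ℕ) : ℝ) / S ≤ x)
    (hx' : x ≤ (((67108864 : ℕ) : ℝ) + (67108864 : ℕ)) / S) :
    AltB (VF κ) PP tKF tL pcF [⟨3, 0, 0, 1449551462⟩] 0 0 1 4 0 (sgb true) (sgb true) x :=
  strip_altB (m := 1449551462) true rfl hκ covF40 covF01 hx hx' c_B40pp_001_s1 cutB_nil ((okx hx hx').extB (T := tt) (sideF hx hx') hκ rfl rfl (.N 0 true) (.O 1 true) (Or.inl rfl))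

noncomputable def cut_B40pp_011_s1 : Cut := Cut.of [[⟨4, 0, 0, 1449551462⟩]]

noncomputable def xt_B40pp_011_s1 : Ext := strExt dd false true true .s0 .u0 .u0m .pnn 0 1 1 rfl rfl gf1 vv ndF4q0 ndF0q1

noncomputable def f_B40pp_011_s1 : ℕ → ℕ → ℕ → ℕ → Bool := onCell 536870912 536870912 536870912 536870912 67108864 67108864
    (rowFK 2 false true true .pnn 0 1 1 (qsf 0 536870912 536870912 536870912 1) ndF4q0 ndF0q1 pcF1 cut_B40pp_011_s1 xt_B40pp_011_s1)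

def k0_B40pp_011_s1 : ∃ t, chk3 f_B40pp_011_s1 t 1 1 1 = true :=
  ⟨(a (b (a (b (l 550138639) (a (l 549548559) (l 548393487))) (b (a (l 550782991) (l 1)) (a (l 548307471) (l 17379584)))) (b (a (b (l 548061199) (l 17407072)) (b (l 17382736) (l 17496992))) (a (b (l 17486840) (l 6)) (l 6)))) (b (b (l 1) (a (a (l 17603336) (l 1)) (l 1))) (b (a (l 17842960) (l 6)) (l 6)))), by decide +kernel⟩

theorem c_B40pp_011_s1 : CertF 0 536870912 536870912 536870912 67108864 67108864 false true true .pnn 0 1 1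
    ndF4q0 ndF0q1 pcF1 cut_B40pp_011_s1 xt_B40pp_011_s1 :=
  certFK2 (fam := false) (s1 := true) (s2 := true) (a := 0) (b := 1) (c := 1) (cn := .pnn) (n1 := ndF4q0) (n2 := ndF0q1) (pc := pcF1) (cut := cut_B40pp_011_s1) (xt := xt_B40pp_011_s1) (P1 := 0) (W1 := 536870912) (P2 := 536870912) (W2 := 536870912) (P3 := 67108864) (W3 := 67108864)
    rfl rfl rfl (fun _ => rfl) k0_B40pp_011_s1

theorem s_B40pp_011_s1 {κ x : ℝ} (hκ : κ * h0 = ken x) (hx : ((67108864 : ℕ) : ℝ) / S ≤ x)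
    (hx' : x ≤ (((67108864 : ℕ) : ℝ) + (67108864 : ℕ)) / S) :
    AltB (VF κ) PP tKF tL pcF [⟨3, 0, 0, 1449551462⟩] 0 1 1 4 0 (sgb true) (sgb true) x :=
  strip_altB (m := 1449551462) true rfl hκ covF40 covF01 hx hx' c_B40pp_011_s1 cutB_nil ((okx hx hx').extB (T := tt) (sideF hx hx') hκ rfl rfl (.N 0 true) (.O 1 true) (Or.inr rfl))

noncomputable def cut_B40pp_012_s1 : Cut := Cut.of [[⟨4, 0, 0, 1449551462⟩]]

noncomputable def f_B40pp_012_s1 : ℕ → ℕ → ℕ → ℕ → Bool := onCell 0 536870912 0 536870912 67108864 67108864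
    (rowFK 0 false true true .pnp 0 1 2 (qsf 0 536870912 0 536870912 1) ndF4q0 ndF0q2 pcF1 cut_B40pp_012_s1 Ext.none)

def k0_B40pp_012_s1 : ∃ t, chk3 f_B40pp_012_s1 t 1 1 1 = true :=
  ⟨(a (l 6) (l 6)), by decide +kernel⟩

theorem c_B40pp_012_s1 : CertF 0 536870912 0 536870912 67108864 67108864 false true true .pnp 0 1 2
    ndF4q0 ndF0q2 pcF1 cut_B40pp_012_s1 Ext.none :=
  certFK0 (fam := false) (s1 := true) (s2 := true) (a := 0) (b := 1) (c := 2) (cn := .pnp) (n1 := ndF4q0) (n2 := ndF0q2) (pc := pcF1) (cut := cut_B40pp_012_s1) (xt := Ext.none) (P1 := 0) (W1 := 536870912) (P2 := 0) (W2 := 536870912) (P3 := 67108864) (W3 := 67108864)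
    rfl rfl rfl k0_B40pp_012_s1

theorem s_B40pp_012_s1 {κ x : ℝ} (hκ : κ * h0 = ken x) (hx : ((67108864 : ℕ) : ℝ) / S ≤ x)
    (hx' : x ≤ (((67108864 : ℕ) : ℝ) + (67108864 : ℕ)) / S) :
    AltB (VF κ) PP tKF tL pcF [⟨3, 0, 0, 1449551462⟩] 0 1 2 4 0 (sgb true) (sgb true) x :=
  strip_altB (m := 1449551462) true rfl hκ covF40 covF02 hx hx' c_B40pp_012_s1 cutB_nil (noExt_B)

noncomputable def cut_B40pp_022_s1 : Cut := Cut.of [[⟨4, 0, 0, 1449551462⟩]]

noncomputable def f_B40pp_022_s1 : ℕ → ℕ → ℕ → ℕ → Bool := onCell 1073741824 536870912 0 536870912 67108864 67108864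
    (rowFK 2 false true true .pp 0 2 2 (qsf 0 536870912 0 536870912 2) ndF4q0 ndF0q2 pcF2 cut_B40pp_022_s1 Ext.none)

def k0_B40pp_022_s1 : ∃ t, chk3 f_B40pp_022_s1 t 1 1 1 = true :=
  ⟨(l 6), by decide +kernel⟩

theorem c_B40pp_022_s1 : CertF 0 536870912 0 536870912 67108864 67108864 false true true .pp 0 2 2
    ndF4q0 ndF0q2 pcF2 cut_B40pp_022_s1 Ext.none :=
  certFK2 (fam := false) (s1 := true) (s2 := true) (a := 0) (b := 2) (c := 2) (cn := .pp) (n1 := ndF4q0) (n2 := ndF0q2) (pc := pcF2) (cut := cut_B40pp_022_s1) (xt := Ext.none) (P1 := 0) (W1 := 536870912) (P2 := 0) (W2 := 536870912) (P3 := 67108864) (W3 := 67108864)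
    rfl rfl rfl (fun _ => rfl) k0_B40pp_022_s1

theorem s_B40pp_022_s1 {κ x : ℝ} (hκ : κ * h0 = ken x) (hx : ((67108864 : ℕ) : ℝ) / S ≤ x)
    (hx' : x ≤ (((67108864 : ℕ) : ℝ) + (67108864 : ℕ)) / S) :
    AltB (VF κ) PP tKF tL pcF [⟨3, 0, 0, 1449551462⟩] 0 2 2 4 0 (sgb true) (sgb true) x :=
  strip_altB (m := 1449551462) true rfl hκ covF40 covF02 hx hx' c_B40pp_022_s1 cutB_nil (noExt_B)

noncomputable def cut_B40pp_101_s1 : Cut := Cut.of [[⟨4, 0, 0, 1449551462⟩], [⟨0, 1, 0, 25165824⟩, ⟨1, 0, 0, 25165824⟩, ⟨2, 1, 0, 25165824⟩]]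

noncomputable def xt_B40pp_101_s1 : Ext := strExt dd false true true .s0 .u0 .u0m .npn 1 0 1 rfl rfl gf0 vv ndF4q1 ndF0q1

noncomputable def f_B40pp_101_s1 : ℕ → ℕ → ℕ → ℕ → Bool := onCell 536870912 536870912 536870912 536870912 67108864 67108864
    (rowFK 0 false true true .npn 1 0 1 (qsf 536870912 536870912 536870912 536870912 0) ndF4q1 ndF0q1 pcF0 cut_B40pp_101_s1 xt_B40pp_101_s1)

def k0_B40pp_101_s1 : ∃ t, chk3 f_B40pp_101_s1 t 1 1 1 = true :=
  ⟨(a (b (l 3) (b (a (b (a (l 566751247) (l 3)) (a (l 562938383) (l 566363663))) (b (l 3) (a (b (l 3) (l 569050639)) (l 3)))) (a (b (a (l 559086863) (l 562132495)) (l 18495232)) (b (a (l 565633295) (a (l 568372495) (l 570383631))) (a (l 560738319) (l 563893263)))))) (b (l 3) (a (b (l 3) (b (b (l 3) (a (l 571687439) (a (l 571788559) (l 3)))) (a (a (l 565865743) (b (l 568400911) (l 17530272))) (b (a (l 567979791) (l 563781647)) (a (l 563998479) (l 559431695))))))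 (b (l 3) (b (l 3) (b (a (b (l 3) (a (l 547350543) (a (l 536031759) (l 3)))) (l 3)) (a (a (l 543943439) (a (l 537706767) (b (l 536966159) (l 536857359)))) (a (b (b (l 3) (a (l 536497935) (a (l 535971087) (l 3)))) (a (a (l 536558607) (l 536500751)) (a (l 537358095) (a (l 536422415) (l 537404687))))) (a (b (l 3) (b (b (l 3) (a (a (l 535694095) (l 535716879)) (a (l 535919375) (l 3)))) (a (a (l 536053775) (l 536077583)) (a (l 536213007) (l 14))))) (b (l 3) (l 14))))))))))), by decide +kernel⟩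

theorem c_B40pp_101_s1 : CertF 536870912 536870912 536870912 536870912 67108864 67108864 false true true .npn 1 0 1
    ndF4q1 ndF0q1 pcF0 cut_B40pp_101_s1 xt_B40pp_101_s1 :=
  certFK0 (fam := false) (s1 := true) (s2 := true) (a := 1) (b := 0) (c := 1) (cn := .npn) (n1 := ndF4q1) (n2 := ndF0q1) (pc := pcF0) (cut := cut_B40pp_101_s1) (xt := xt_B40pp_101_s1) (P1 := 536870912) (W1 := 536870912) (P2 := 536870912) (W2 := 536870912) (P3 := 67108864) (W3 := 67108864)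
    rfl rfl rfl k0_B40pp_101_s1

theorem s_B40pp_101_s1 {κ x : ℝ} (hκ : κ * h0 = ken x) (hx : ((67108864 : ℕ) : ℝ) / S ≤ x)
    (hx' : x ≤ (((67108864 : ℕ) : ℝ) + (67108864 : ℕ)) / S)
    (H : CutB (VF κ) PP tKF tL pcF (Cut.of [[⟨0, 1, 0, 25165824⟩, ⟨1, 0, 0, 25165824⟩, ⟨2, 1, 0, 25165824⟩]]) 1 0 1 4 0 (sgb true) (sgb true) x) :
    AltB (VF κ) PP tKF tL pcF [⟨3, 0, 0, 1449551462⟩] 1 0 1 4 0 (sgb true) (sgb true) x :=
  strip_altB (m := 1449551462) true rfl hκ covF41 covF01 hx hx' c_B40pp_101_s1 H ((okx hx hx').extB (T := tt) (sideF hx hx') hκ rfl rfl (.N 1 true) (.O 1 true) (Or.inl rfl))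

noncomputable def cut_B40pp_102_s1 : Cut := Cut.of [[⟨4, 0, 0, 1449551462⟩], [⟨0, 1, 0, 67108864⟩, ⟨1, 0, 0, 67108864⟩, ⟨2, 1, 0, 67108864⟩]]

noncomputable def f_B40pp_102_s1 : ℕ → ℕ → ℕ → ℕ → Bool := onCell 536870912 536870912 0 536870912 67108864 67108864
    (rowFK 0 false true true .npp 1 0 2 (qsf 536870912 536870912 0 536870912 0) ndF4q1 ndF0q2 pcF0 cut_B40pp_102_s1 Ext.none)

def k0_B40pp_102_s1 : ∃ t, chk3 f_B40pp_102_s1 t 1 1 1 = true :=
  ⟨(a (b (l 6) (b (l 6) (a (l 6) (b (l 6) (b (l 18249040) (l 18130304)))))) (b (l 6) (a (b (l 6) (a (b (l 18348400) (l 18328704)) (b (l 18187136) (b (l 17833960) (l 17566288))))) (b (b (l 6) (a (l 18710600) (a (b (l 6) (l 17867864)) (l 17589968)))) (b (a (b (l 17986696) (l 17633896)) (a (b (l 17349168) (l 17067032)) (a (b (l 17236848) (l 17057600)) (a (b (l 17249648) (l 17045944)) (l 17161744))))) (a (b (a (l 17450208) (l 17009768)) (a (l 17067144) (b (l 16818512)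 (l 16792192)))) (b (a (b (l 16933544) (l 16936448)) (b (a (l 16930608) (l 14)) (l 14))) (a (b (a (l 16811864) (l 16891264)) (a (l 16783928) (l 14))) (l 14))))))))), by decide +kernel⟩

theorem c_B40pp_102_s1 : CertF 536870912 536870912 0 536870912 67108864 67108864 false true true .npp 1 0 2
    ndF4q1 ndF0q2 pcF0 cut_B40pp_102_s1 Ext.none :=
  certFK0 (fam := false) (s1 := true) (s2 := true) (a := 1) (b := 0) (c := 2) (cn := .npp) (n1 := ndF4q1) (n2 := ndF0q2) (pc := pcF0) (cut := cut_B40pp_102_s1) (xt := Ext.none) (P1 := 536870912) (W1 := 536870912) (P2 := 0) (W2 := 536870912) (P3 := 67108864) (W3 := 67108864)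
    rfl rfl rfl k0_B40pp_102_s1

theorem s_B40pp_102_s1 {κ x : ℝ} (hκ : κ * h0 = ken x) (hx : ((67108864 : ℕ) : ℝ) / S ≤ x)
    (hx' : x ≤ (((67108864 : ℕ) : ℝ) + (67108864 : ℕ)) / S)
    (H : CutB (VF κ) PP tKF tL pcF (Cut.of [[⟨0, 1, 0, 67108864⟩, ⟨1, 0, 0, 67108864⟩, ⟨2, 1, 0, 67108864⟩]]) 1 0 2 4 0 (sgb true) (sgb true) x) :
    AltB (VF κ) PP tKF tL pcF [⟨3, 0, 0, 1449551462⟩] 1 0 2 4 0 (sgb true) (sgb true) x :=
  strip_altB (m := 1449551462) true rfl hκ covF41 covF02 hx hx' c_B40pp_102_s1 H (noExt_B)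

noncomputable def cut_B40pp_112_s1 : Cut := Cut.of [[⟨4, 0, 0, 1449551462⟩]]

noncomputable def f_B40pp_112_s1 : ℕ → ℕ → ℕ → ℕ → Bool := onCell 536870912 536870912 0 536870912 67108864 67108864
    (rowFK 2 false true true .dn 1 1 2 (qsf 536870912 536870912 0 536870912 1) ndF4q1 ndF0q2 pcF1 cut_B40pp_112_s1 Ext.none)

def k0_B40pp_112_s1 : ∃ t, chk3 f_B40pp_112_s1 t 1 1 1 = true :=
  ⟨(a (l 6) (l 1)), by decide +kernel⟩

theorem c_B40pp_112_s1 : CertF 536870912 536870912 0 536870912 67108864 67108864 false true true .dn 1 1 2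
    ndF4q1 ndF0q2 pcF1 cut_B40pp_112_s1 Ext.none :=
  certFK2 (fam := false) (s1 := true) (s2 := true) (a := 1) (b := 1) (c := 2) (cn := .dn) (n1 := ndF4q1) (n2 := ndF0q2) (pc := pcF1) (cut := cut_B40pp_112_s1) (xt := Ext.none) (P1 := 536870912) (W1 := 536870912) (P2 := 0) (W2 := 536870912) (P3 := 67108864) (W3 := 67108864)
    rfl rfl rfl (fun _ => rfl) k0_B40pp_112_s1

theorem s_B40pp_112_s1 {κ x : ℝ} (hκ : κ * h0 = ken x) (hx : ((67108864 : ℕ) : ℝ) / S ≤ x)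
    (hx' : x ≤ (((67108864 : ℕ) : ℝ) + (67108864 : ℕ)) / S) :
    AltB (VF κ) PP tKF tL pcF [⟨3, 0, 0, 1449551462⟩] 1 1 2 4 0 (sgb true) (sgb true) x :=
  strip_altB (m := 1449551462) true rfl hκ covF41 covF02 hx hx' c_B40pp_112_s1 cutB_nil (noExt_B)

noncomputable def cut_B40pp_202_s1 : Cut := Cut.of [[⟨4, 0, 0, 1449551462⟩], [⟨0, 1, 0, 67108864⟩, ⟨1, 0, 0, 67108864⟩, ⟨2, 1, 0, 67108864⟩]]

noncomputable def f_B40pp_202_s1 : ℕ → ℕ → ℕ → ℕ → Bool := onCell 0 536870912 0 536870912 67108864 67108864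
    (rowFK 2 false true true .pp 2 0 2 (qsf 1073741824 536870912 0 536870912 0) ndF4q2 ndF0q2 pcF0 cut_B40pp_202_s1 Ext.none)

def k0_B40pp_202_s1 : ∃ t, chk3 f_B40pp_202_s1 t 1 1 1 = true :=
  ⟨(a (b (a (l 6) (l 6)) (a (b (a (b (l 18112440) (a (l 17692320) (l 17615512))) (b (l 6) (a (l 17583488) (l 17904448)))) (a (b (a (b (l 17362920) (l 14)) (b (l 17279832) (a (l 14) (b (l 17111096) (l 17011672))))) (a (l 14) (a (l 14) (l 1)))) (b (b (a (l 17594776) (l 1)) (l 1)) (l 1)))) (b (l 1) (l 1)))) (l 1)), by decide +kernel⟩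

theorem c_B40pp_202_s1 : CertF 1073741824 536870912 0 536870912 67108864 67108864 false true true .pp 2 0 2
    ndF4q2 ndF0q2 pcF0 cut_B40pp_202_s1 Ext.none :=
  certFK2 (fam := false) (s1 := true) (s2 := true) (a := 2) (b := 0) (c := 2) (cn := .pp) (n1 := ndF4q2) (n2 := ndF0q2) (pc := pcF0) (cut := cut_B40pp_202_s1) (xt := Ext.none) (P1 := 1073741824) (W1 := 536870912) (P2 := 0) (W2 := 536870912) (P3 := 67108864) (W3 := 67108864)
    rfl rfl rfl (fun _ => rfl) k0_B40pp_202_s1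

theorem s_B40pp_202_s1 {κ x : ℝ} (hκ : κ * h0 = ken x) (hx : ((67108864 : ℕ) : ℝ) / S ≤ x)
    (hx' : x ≤ (((67108864 : ℕ) : ℝ) + (67108864 : ℕ)) / S)
    (H : CutB (VF κ) PP tKF tL pcF (Cut.of [[⟨0, 1, 0, 67108864⟩, ⟨1, 0, 0, 67108864⟩, ⟨2, 1, 0, 67108864⟩]]) 2 0 2 4 0 (sgb true) (sgb true) x) :
    AltB (VF κ) PP tKF tL pcF [⟨3, 0, 0, 1449551462⟩] 2 0 2 4 0 (sgb true) (sgb true) x :=
  strip_altB (m := 1449551462) true rfl hκ covF42 covF02 hx hx' c_B40pp_202_s1 H (noExt_B)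

noncomputable def cut_B40pm_001_s1 : Cut := Cut.of [[⟨4, 0, 0, 1449551462⟩]]

noncomputable def f_B40pm_001_s1 : ℕ → ℕ → ℕ → ℕ → Bool := onCell 0 536870912 536870912 536870912 67108864 67108864
    (rowFK 0 false true false .up 0 0 1 (qsf 0 536870912 536870912 536870912 0) ndF4q0 ndF0q1 pcF0 cut_B40pm_001_s1 Ext.none)

def k0_B40pm_001_s1 : ∃ t, chk3 f_B40pm_001_s1 t 1 1 1 = true :=
  ⟨(l 4), by decide +kernel⟩

theorem c_B40pm_001_s1 : CertF 0 536870912 536870912 536870912 67108864 67108864 false true false .up 0 0 1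
    ndF4q0 ndF0q1 pcF0 cut_B40pm_001_s1 Ext.none :=
  certFK0 (fam := false) (s1 := true) (s2 := false) (a := 0) (b := 0) (c := 1) (cn := .up) (n1 := ndF4q0) (n2 := ndF0q1) (pc := pcF0) (cut := cut_B40pm_001_s1) (xt := Ext.none) (P1 := 0) (W1 := 536870912) (P2 := 536870912) (W2 := 536870912) (P3 := 67108864) (W3 := 67108864)
    rfl rfl rfl k0_B40pm_001_s1

theorem s_B40pm_001_s1 {κ x : ℝ} (hκ : κ * h0 = ken x) (hx : ((67108864 : ℕ) : ℝ) / S ≤ x)
    (hx' : x ≤ (((67108864 : ℕ) : ℝ) + (67108864 : ℕ)) / S) :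
    AltB (VF κ) PP tKF tL pcF [⟨3, 0, 0, 1449551462⟩] 0 0 1 4 0 (sgb true) (sgb false) x :=
  strip_altB (m := 1449551462) true rfl hκ covF40 covF01 hx hx' c_B40pm_001_s1 cutB_nil (noExt_B)

noncomputable def cut_B40pm_011_s1 : Cut := Cut.of [[⟨4, 0, 0, 1449551462⟩]]

noncomputable def f_B40pm_011_s1 : ℕ → ℕ → ℕ → ℕ → Bool := onCell 0 536870912 536870912 536870912 67108864 67108864
    (rowFK 0 false true false .pnn 0 1 1 (qsf 0 536870912 536870912 536870912 1) ndF4q0 ndF0q1 pcF1 cut_B40pm_011_s1 Ext.none)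

def k0_B40pm_011_s1 : ∃ t, chk3 f_B40pm_011_s1 t 1 1 1 = true :=
  ⟨(l 4), by decide +kernel⟩

theorem c_B40pm_011_s1 : CertF 0 536870912 536870912 536870912 67108864 67108864 false true false .pnn 0 1 1
    ndF4q0 ndF0q1 pcF1 cut_B40pm_011_s1 Ext.none :=
  certFK0 (fam := false) (s1 := true) (s2 := false) (a := 0) (b := 1) (c := 1) (cn := .pnn) (n1 := ndF4q0) (n2 := ndF0q1) (pc := pcF1) (cut := cut_B40pm_011_s1) (xt := Ext.none) (P1 := 0) (W1 := 536870912) (P2 := 536870912) (W2 := 536870912) (P3 := 67108864) (W3 := 67108864)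
    rfl rfl rfl k0_B40pm_011_s1

theorem s_B40pm_011_s1 {κ x : ℝ} (hκ : κ * h0 = ken x) (hx : ((67108864 : ℕ) : ℝ) / S ≤ x)
    (hx' : x ≤ (((67108864 : ℕ) : ℝ) + (67108864 : ℕ)) / S) :
    AltB (VF κ) PP tKF tL pcF [⟨3, 0, 0, 1449551462⟩] 0 1 1 4 0 (sgb true) (sgb false) x :=
  strip_altB (m := 1449551462) true rfl hκ covF40 covF01 hx hx' c_B40pm_011_s1 cutB_nil (noExt_B)

noncomputable def cut_B40pm_012_s1 : Cut := Cut.of [[⟨4, 0, 0, 1449551462⟩]]

noncomputable def f_B40pm_012_s1 : ℕ → ℕ → ℕ → ℕ → Bool := onCell 0 536870912 0 536870912 67108864 67108864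
    (rowFK 0 false true false .pnp 0 1 2 (qsf 0 536870912 0 536870912 1) ndF4q0 ndF0q2 pcF1 cut_B40pm_012_s1 Ext.none)

def k0_B40pm_012_s1 : ∃ t, chk3 f_B40pm_012_s1 t 1 1 1 = true :=
  ⟨(l 6), by decide +kernel⟩

theorem c_B40pm_012_s1 : CertF 0 536870912 0 536870912 67108864 67108864 false true false .pnp 0 1 2
    ndF4q0 ndF0q2 pcF1 cut_B40pm_012_s1 Ext.none :=
  certFK0 (fam := false) (s1 := true) (s2 := false) (a := 0) (b := 1) (c := 2) (cn := .pnp) (n1 := ndF4q0) (n2 := ndF0q2) (pc := pcF1) (cut := cut_B40pm_012_s1) (xt := Ext.none) (P1 := 0) (W1 := 536870912) (P2 := 0) (W2 := 536870912) (P3 := 67108864) (W3 := 67108864)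
    rfl rfl rfl k0_B40pm_012_s1

theorem s_B40pm_012_s1 {κ x : ℝ} (hκ : κ * h0 = ken x) (hx : ((67108864 : ℕ) : ℝ) / S ≤ x)
    (hx' : x ≤ (((67108864 : ℕ) : ℝ) + (67108864 : ℕ)) / S) :
    AltB (VF κ) PP tKF tL pcF [⟨3, 0, 0, 1449551462⟩] 0 1 2 4 0 (sgb true) (sgb false) x :=
  strip_altB (m := 1449551462) true rfl hκ covF40 covF02 hx hx' c_B40pm_012_s1 cutB_nil (noExt_B)

noncomputable def cut_B40pm_022_s1 : Cut := Cut.of [[⟨4, 0, 0, 1449551462⟩]]

noncomputable def f_B40pm_022_s1 : ℕ → ℕ → ℕ → ℕ → Bool := onCell 0 536870912 0 536870912 67108864 67108864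
    (rowFK 0 false true false .pp 0 2 2 (qsf 0 536870912 0 536870912 2) ndF4q0 ndF0q2 pcF2 cut_B40pm_022_s1 Ext.none)

def k0_B40pm_022_s1 : ∃ t, chk3 f_B40pm_022_s1 t 1 1 1 = true :=
  ⟨(l 6), by decide +kernel⟩

theorem c_B40pm_022_s1 : CertF 0 536870912 0 536870912 67108864 67108864 false true false .pp 0 2 2
    ndF4q0 ndF0q2 pcF2 cut_B40pm_022_s1 Ext.none :=
  certFK0 (fam := false) (s1 := true) (s2 := false) (a := 0) (b := 2) (c := 2) (cn := .pp) (n1 := ndF4q0) (n2 := ndF0q2) (pc := pcF2) (cut := cut_B40pm_022_s1) (xt := Ext.none) (P1 := 0) (W1 := 536870912) (P2 := 0) (W2 := 536870912) (P3 := 67108864) (W3 := 67108864)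
    rfl rfl rfl k0_B40pm_022_s1

theorem s_B40pm_022_s1 {κ x : ℝ} (hκ : κ * h0 = ken x) (hx : ((67108864 : ℕ) : ℝ) / S ≤ x)
    (hx' : x ≤ (((67108864 : ℕ) : ℝ) + (67108864 : ℕ)) / S) :
    AltB (VF κ) PP tKF tL pcF [⟨3, 0, 0, 1449551462⟩] 0 2 2 4 0 (sgb true) (sgb false) x :=
  strip_altB (m := 1449551462) true rfl hκ covF40 covF02 hx hx' c_B40pm_022_s1 cutB_nil (noExt_B)

noncomputable def cut_B40pm_101_s1 : Cut := Cut.of [[⟨4, 0, 0, 1449551462⟩]]

noncomputable def f_B40pm_101_s1 : ℕ → ℕ → ℕ → ℕ → Bool := onCell 536870912 536870912 536870912 536870912 67108864 67108864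
    (rowFK 0 false true false .npn 1 0 1 (qsf 536870912 536870912 536870912 536870912 0) ndF4q1 ndF0q1 pcF0 cut_B40pm_101_s1 Ext.none)

def k0_B40pm_101_s1 : ∃ t, chk3 f_B40pm_101_s1 t 1 1 1 = true :=
  ⟨(l 4), by decide +kernel⟩

theorem c_B40pm_101_s1 : CertF 536870912 536870912 536870912 536870912 67108864 67108864 false true false .npn 1 0 1
    ndF4q1 ndF0q1 pcF0 cut_B40pm_101_s1 Ext.none :=
  certFK0 (fam := false) (s1 := true) (s2 := false) (a := 1) (b := 0) (c := 1) (cn := .npn) (n1 := ndF4q1) (n2 := ndF0q1) (pc := pcF0) (cut := cut_B40pm_101_s1) (xt := Ext.none) (P1 := 536870912) (W1 := 536870912) (P2 := 536870912) (W2 := 536870912) (P3 := 67108864) (W3 := 67108864)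
    rfl rfl rfl k0_B40pm_101_s1

theorem s_B40pm_101_s1 {κ x : ℝ} (hκ : κ * h0 = ken x) (hx : ((67108864 : ℕ) : ℝ) / S ≤ x)
    (hx' : x ≤ (((67108864 : ℕ) : ℝ) + (67108864 : ℕ)) / S) :
    AltB (VF κ) PP tKF tL pcF [⟨3, 0, 0, 1449551462⟩] 1 0 1 4 0 (sgb true) (sgb false) x :=
  strip_altB (m := 1449551462) true rfl hκ covF41 covF01 hx hx' c_B40pm_101_s1 cutB_nil (noExt_B)

noncomputable def cut_B40pm_102_s1 : Cut := Cut.of [[⟨4, 0, 0, 1449551462⟩]]

noncomputable def f_B40pm_102_s1 : ℕ → ℕ → ℕ → ℕ → Bool := onCell 536870912 536870912 0 536870912 67108864 67108864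
    (rowFK 0 false true false .npp 1 0 2 (qsf 536870912 536870912 0 536870912 0) ndF4q1 ndF0q2 pcF0 cut_B40pm_102_s1 Ext.none)

def k0_B40pm_102_s1 : ∃ t, chk3 f_B40pm_102_s1 t 1 1 1 = true :=
  ⟨(l 6), by decide +kernel⟩

theorem c_B40pm_102_s1 : CertF 536870912 536870912 0 536870912 67108864 67108864 false true false .npp 1 0 2
    ndF4q1 ndF0q2 pcF0 cut_B40pm_102_s1 Ext.none :=
  certFK0 (fam := false) (s1 := true) (s2 := false) (a := 1) (b := 0) (c := 2) (cn := .npp) (n1 := ndF4q1) (n2 := ndF0q2) (pc := pcF0) (cut := cut_B40pm_102_s1) (xt := Ext.none) (P1 := 536870912) (W1 := 536870912) (P2 := 0) (W2 := 536870912) (P3 := 67108864) (W3 := 67108864)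
    rfl rfl rfl k0_B40pm_102_s1

theorem s_B40pm_102_s1 {κ x : ℝ} (hκ : κ * h0 = ken x) (hx : ((67108864 : ℕ) : ℝ) / S ≤ x)
    (hx' : x ≤ (((67108864 : ℕ) : ℝ) + (67108864 : ℕ)) / S) :
    AltB (VF κ) PP tKF tL pcF [⟨3, 0, 0, 1449551462⟩] 1 0 2 4 0 (sgb true) (sgb false) x :=
  strip_altB (m := 1449551462) true rfl hκ covF41 covF02 hx hx' c_B40pm_102_s1 cutB_nil (noExt_B)

noncomputable def cut_B40pm_112_s1 : Cut := Cut.of [[⟨4, 0, 0, 1449551462⟩]]

noncomputable def f_B40pm_112_s1 : ℕ → ℕ → ℕ → ℕ → Bool := onCell 536870912 536870912 0 536870912 67108864 67108864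
    (rowFK 0 false true false .dn 1 1 2 (qsf 536870912 536870912 0 536870912 1) ndF4q1 ndF0q2 pcF1 cut_B40pm_112_s1 Ext.none)

def k0_B40pm_112_s1 : ∃ t, chk3 f_B40pm_112_s1 t 1 1 1 = true :=
  ⟨(l 6), by decide +kernel⟩

theorem c_B40pm_112_s1 : CertF 536870912 536870912 0 536870912 67108864 67108864 false true false .dn 1 1 2
    ndF4q1 ndF0q2 pcF1 cut_B40pm_112_s1 Ext.none :=
  certFK0 (fam := false) (s1 := true) (s2 := false) (a := 1) (b := 1) (c := 2) (cn := .dn) (n1 := ndF4q1) (n2 := ndF0q2) (pc := pcF1) (cut := cut_B40pm_112_s1) (xt := Ext.none) (P1 := 536870912) (W1 := 536870912) (P2 := 0) (W2 := 536870912) (P3 := 67108864) (W3 := 67108864)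
    rfl rfl rfl k0_B40pm_112_s1

theorem s_B40pm_112_s1 {κ x : ℝ} (hκ : κ * h0 = ken x) (hx : ((67108864 : ℕ) : ℝ) / S ≤ x)
    (hx' : x ≤ (((67108864 : ℕ) : ℝ) + (67108864 : ℕ)) / S) :
    AltB (VF κ) PP tKF tL pcF [⟨3, 0, 0, 1449551462⟩] 1 1 2 4 0 (sgb true) (sgb false) x :=
  strip_altB (m := 1449551462) true rfl hκ covF41 covF02 hx hx' c_B40pm_112_s1 cutB_nil (noExt_B)

noncomputable def cut_B40pm_202_s1 : Cut := Cut.of [[⟨4, 0, 0, 1449551462⟩]]

noncomputable def f_B40pm_202_s1 : ℕ → ℕ → ℕ → ℕ → Bool := onCell 0 536870912 0 536870912 67108864 67108864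
    (rowFK 2 false true false .pp 2 0 2 (qsf 1073741824 536870912 0 536870912 0) ndF4q2 ndF0q2 pcF0 cut_B40pm_202_s1 Ext.none)

def k0_B40pm_202_s1 : ∃ t, chk3 f_B40pm_202_s1 t 1 1 1 = true :=
  ⟨(l 6), by decide +kernel⟩

theorem c_B40pm_202_s1 : CertF 1073741824 536870912 0 536870912 67108864 67108864 false true false .pp 2 0 2
    ndF4q2 ndF0q2 pcF0 cut_B40pm_202_s1 Ext.none :=
  certFK2 (fam := false) (s1 := true) (s2 := false) (a := 2) (b := 0) (c := 2) (cn := .pp) (n1 := ndF4q2) (n2 := ndF0q2) (pc := pcF0) (cut := cut_B40pm_202_s1) (xt := Ext.none) (P1 := 1073741824) (W1 := 536870912) (P2 := 0) (W2 := 536870912) (P3 := 67108864) (W3 := 67108864)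
    rfl rfl rfl (fun _ => rfl) k0_B40pm_202_s1

theorem s_B40pm_202_s1 {κ x : ℝ} (hκ : κ * h0 = ken x) (hx : ((67108864 : ℕ) : ℝ) / S ≤ x)
    (hx' : x ≤ (((67108864 : ℕ) : ℝ) + (67108864 : ℕ)) / S) :
    AltB (VF κ) PP tKF tL pcF [⟨3, 0, 0, 1449551462⟩] 2 0 2 4 0 (sgb true) (sgb false) x :=
  strip_altB (m := 1449551462) true rfl hκ covF42 covF02 hx hx' c_B40pm_202_s1 cutB_nil (noExt_B)

noncomputable def cut_B40mm_001_s1 : Cut := Cut.of [[⟨4, 0, 0, 1449551462⟩]]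

noncomputable def f_B40mm_001_s1 : ℕ → ℕ → ℕ → ℕ → Bool := onCell 0 536870912 536870912 536870912 67108864 67108864
    (rowFK 0 false false false .up 0 0 1 (qsf 0 536870912 536870912 536870912 0) ndF4q0 ndF0q1 pcF0 cut_B40mm_001_s1 Ext.none)

def k0_B40mm_001_s1 : ∃ t, chk3 f_B40mm_001_s1 t 1 1 1 = true :=
  ⟨(l 5), by decide +kernel⟩

theorem c_B40mm_001_s1 : CertF 0 536870912 536870912 536870912 67108864 67108864 false false false .up 0 0 1
    ndF4q0 ndF0q1 pcF0 cut_B40mm_001_s1 Ext.none :=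
  certFK0 (fam := false) (s1 := false) (s2 := false) (a := 0) (b := 0) (c := 1) (cn := .up) (n1 := ndF4q0) (n2 := ndF0q1) (pc := pcF0) (cut := cut_B40mm_001_s1) (xt := Ext.none) (P1 := 0) (W1 := 536870912) (P2 := 536870912) (W2 := 536870912) (P3 := 67108864) (W3 := 67108864)
    rfl rfl rfl k0_B40mm_001_s1

theorem s_B40mm_001_s1 {κ x : ℝ} (hκ : κ * h0 = ken x) (hx : ((67108864 : ℕ) : ℝ) / S ≤ x)
    (hx' : x ≤ (((67108864 : ℕ) : ℝ) + (67108864 : ℕ)) / S) :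
    AltB (VF κ) PP tKF tL pcF [⟨3, 0, 0, 1449551462⟩] 0 0 1 4 0 (sgb false) (sgb false) x :=
  strip_altB (m := 1449551462) true rfl hκ covF40 covF01 hx hx' c_B40mm_001_s1 cutB_nil (noExt_B)

noncomputable def cut_B40mm_011_s1 : Cut := Cut.of [[⟨4, 0, 0, 1449551462⟩]]

noncomputable def f_B40mm_011_s1 : ℕ → ℕ → ℕ → ℕ → Bool := onCell 0 536870912 536870912 536870912 67108864 67108864
    (rowFK 0 false false false .pnn 0 1 1 (qsf 0 536870912 536870912 536870912 1) ndF4q0 ndF0q1 pcF1 cut_B40mm_011_s1 Ext.none)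

def k0_B40mm_011_s1 : ∃ t, chk3 f_B40mm_011_s1 t 1 1 1 = true :=
  ⟨(l 5), by decide +kernel⟩

theorem c_B40mm_011_s1 : CertF 0 536870912 536870912 536870912 67108864 67108864 false false false .pnn 0 1 1
    ndF4q0 ndF0q1 pcF1 cut_B40mm_011_s1 Ext.none :=
  certFK0 (fam := false) (s1 := false) (s2 := false) (a := 0) (b := 1) (c := 1) (cn := .pnn) (n1 := ndF4q0) (n2 := ndF0q1) (pc := pcF1) (cut := cut_B40mm_011_s1) (xt := Ext.none) (P1 := 0) (W1 := 536870912) (P2 := 536870912) (W2 := 536870912) (P3 := 67108864) (W3 := 67108864)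
    rfl rfl rfl k0_B40mm_011_s1

theorem s_B40mm_011_s1 {κ x : ℝ} (hκ : κ * h0 = ken x) (hx : ((67108864 : ℕ) : ℝ) / S ≤ x)
    (hx' : x ≤ (((67108864 : ℕ) : ℝ) + (67108864 : ℕ)) / S) :
    AltB (VF κ) PP tKF tL pcF [⟨3, 0, 0, 1449551462⟩] 0 1 1 4 0 (sgb false) (sgb false) x :=
  strip_altB (m := 1449551462) true rfl hκ covF40 covF01 hx hx' c_B40mm_011_s1 cutB_nil (noExt_B)

noncomputable def cut_B40mm_012_s1 : Cut := Cut.of [[⟨4, 0, 0, 1449551462⟩]]

noncomputable def f_B40mm_012_s1 : ℕ → ℕ → ℕ → ℕ → Bool := onCell 0 536870912 0 536870912 67108864 67108864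
    (rowFK 0 false false false .pnp 0 1 2 (qsf 0 536870912 0 536870912 1) ndF4q0 ndF0q2 pcF1 cut_B40mm_012_s1 Ext.none)

def k0_B40mm_012_s1 : ∃ t, chk3 f_B40mm_012_s1 t 1 1 1 = true :=
  ⟨(l 5), by decide +kernel⟩

theorem c_B40mm_012_s1 : CertF 0 536870912 0 536870912 67108864 67108864 false false false .pnp 0 1 2
    ndF4q0 ndF0q2 pcF1 cut_B40mm_012_s1 Ext.none :=
  certFK0 (fam := false) (s1 := false) (s2 := false) (a := 0) (b := 1) (c := 2) (cn := .pnp) (n1 := ndF4q0) (n2 := ndF0q2) (pc := pcF1) (cut := cut_B40mm_012_s1) (xt := Ext.none) (P1 := 0) (W1 := 536870912) (P2 := 0) (W2 := 536870912) (P3 := 67108864) (W3 := 67108864)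
    rfl rfl rfl k0_B40mm_012_s1

theorem s_B40mm_012_s1 {κ x : ℝ} (hκ : κ * h0 = ken x) (hx : ((67108864 : ℕ) : ℝ) / S ≤ x)
    (hx' : x ≤ (((67108864 : ℕ) : ℝ) + (67108864 : ℕ)) / S) :
    AltB (VF κ) PP tKF tL pcF [⟨3, 0, 0, 1449551462⟩] 0 1 2 4 0 (sgb false) (sgb false) x :=
  strip_altB (m := 1449551462) true rfl hκ covF40 covF02 hx hx' c_B40mm_012_s1 cutB_nil (noExt_B)

noncomputable def cut_B40mm_022_s1 : Cut := Cut.of [[⟨4, 0, 0, 1449551462⟩]]

noncomputable def f_B40mm_022_s1 : ℕ → ℕ → ℕ → ℕ → Bool := onCell 0 536870912 0 536870912 67108864 67108864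
    (rowFK 0 false false false .pp 0 2 2 (qsf 0 536870912 0 536870912 2) ndF4q0 ndF0q2 pcF2 cut_B40mm_022_s1 Ext.none)

def k0_B40mm_022_s1 : ∃ t, chk3 f_B40mm_022_s1 t 1 1 1 = true :=
  ⟨(l 5), by decide +kernel⟩

theorem c_B40mm_022_s1 : CertF 0 536870912 0 536870912 67108864 67108864 false false false .pp 0 2 2
    ndF4q0 ndF0q2 pcF2 cut_B40mm_022_s1 Ext.none :=
  certFK0 (fam := false) (s1 := false) (s2 := false) (a := 0) (b := 2) (c := 2) (cn := .pp) (n1 := ndF4q0) (n2 := ndF0q2) (pc := pcF2) (cut := cut_B40mm_022_s1) (xt := Ext.none) (P1 := 0) (W1 := 536870912) (P2 := 0) (W2 := 536870912) (P3 := 67108864) (W3 := 67108864)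
    rfl rfl rfl k0_B40mm_022_s1

theorem s_B40mm_022_s1 {κ x : ℝ} (hκ : κ * h0 = ken x) (hx : ((67108864 : ℕ) : ℝ) / S ≤ x)
    (hx' : x ≤ (((67108864 : ℕ) : ℝ) + (67108864 : ℕ)) / S) :
    AltB (VF κ) PP tKF tL pcF [⟨3, 0, 0, 1449551462⟩] 0 2 2 4 0 (sgb false) (sgb false) x :=
  strip_altB (m := 1449551462) true rfl hκ covF40 covF02 hx hx' c_B40mm_022_s1 cutB_nil (noExt_B)

noncomputable def cut_B40mm_101_s1 : Cut := Cut.of [[⟨4, 0, 0, 1449551462⟩]]

noncomputable def f_B40mm_101_s1 : ℕ → ℕ → ℕ → ℕ → Bool := onCell 0 536870912 536870912 536870912 67108864 67108864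
    (rowFK 2 false false false .npn 1 0 1 (qsf 536870912 536870912 536870912 536870912 0) ndF4q1 ndF0q1 pcF0 cut_B40mm_101_s1 Ext.none)

def k0_B40mm_101_s1 : ∃ t, chk3 f_B40mm_101_s1 t 1 1 1 = true :=
  ⟨(l 5), by decide +kernel⟩

theorem c_B40mm_101_s1 : CertF 536870912 536870912 536870912 536870912 67108864 67108864 false false false .npn 1 0 1
    ndF4q1 ndF0q1 pcF0 cut_B40mm_101_s1 Ext.none :=
  certFK2 (fam := false) (s1 := false) (s2 := false) (a := 1) (b := 0) (c := 1) (cn := .npn) (n1 := ndF4q1) (n2 := ndF0q1) (pc := pcF0) (cut := cut_B40mm_101_s1) (xt := Ext.none) (P1 := 536870912) (W1 := 536870912) (P2 := 536870912) (W2 := 536870912) (P3 := 67108864) (W3 := 67108864)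
    rfl rfl rfl (fun _ => rfl) k0_B40mm_101_s1

theorem s_B40mm_101_s1 {κ x : ℝ} (hκ : κ * h0 = ken x) (hx : ((67108864 : ℕ) : ℝ) / S ≤ x)
    (hx' : x ≤ (((67108864 : ℕ) : ℝ) + (67108864 : ℕ)) / S) :
    AltB (VF κ) PP tKF tL pcF [⟨3, 0, 0, 1449551462⟩] 1 0 1 4 0 (sgb false) (sgb false) x :=
  strip_altB (m := 1449551462) true rfl hκ covF41 covF01 hx hx' c_B40mm_101_s1 cutB_nil (noExt_B)

noncomputable def cut_B40mm_102_s1 : Cut := Cut.of [[⟨4, 0, 0, 1449551462⟩]]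

noncomputable def f_B40mm_102_s1 : ℕ → ℕ → ℕ → ℕ → Bool := onCell 536870912 536870912 0 536870912 67108864 67108864
    (rowFK 0 false false false .npp 1 0 2 (qsf 536870912 536870912 0 536870912 0) ndF4q1 ndF0q2 pcF0 cut_B40mm_102_s1 Ext.none)

def k0_B40mm_102_s1 : ∃ t, chk3 f_B40mm_102_s1 t 1 1 1 = true :=
  ⟨(l 5), by decide +kernel⟩

theorem c_B40mm_102_s1 : CertF 536870912 536870912 0 536870912 67108864 67108864 false false false .npp 1 0 2
    ndF4q1 ndF0q2 pcF0 cut_B40mm_102_s1 Ext.none :=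
  certFK0 (fam := false) (s1 := false) (s2 := false) (a := 1) (b := 0) (c := 2) (cn := .npp) (n1 := ndF4q1) (n2 := ndF0q2) (pc := pcF0) (cut := cut_B40mm_102_s1) (xt := Ext.none) (P1 := 536870912) (W1 := 536870912) (P2 := 0) (W2 := 536870912) (P3 := 67108864) (W3 := 67108864)
    rfl rfl rfl k0_B40mm_102_s1

theorem s_B40mm_102_s1 {κ x : ℝ} (hκ : κ * h0 = ken x) (hx : ((67108864 : ℕ) : ℝ) / S ≤ x)
    (hx' : x ≤ (((67108864 : ℕ) : ℝ) + (67108864 : ℕ)) / S) :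
    AltB (VF κ) PP tKF tL pcF [⟨3, 0, 0, 1449551462⟩] 1 0 2 4 0 (sgb false) (sgb false) x :=
  strip_altB (m := 1449551462) true rfl hκ covF41 covF02 hx hx' c_B40mm_102_s1 cutB_nil (noExt_B)

noncomputable def cut_B40mm_112_s1 : Cut := Cut.of [[⟨4, 0, 0, 1449551462⟩]]

noncomputable def f_B40mm_112_s1 : ℕ → ℕ → ℕ → ℕ → Bool := onCell 536870912 536870912 0 536870912 67108864 67108864
    (rowFK 0 false false false .dn 1 1 2 (qsf 536870912 536870912 0 536870912 1) ndF4q1 ndF0q2 pcF1 cut_B40mm_112_s1 Ext.none)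

def k0_B40mm_112_s1 : ∃ t, chk3 f_B40mm_112_s1 t 1 1 1 = true :=
  ⟨(l 5), by decide +kernel⟩

theorem c_B40mm_112_s1 : CertF 536870912 536870912 0 536870912 67108864 67108864 false false false .dn 1 1 2
    ndF4q1 ndF0q2 pcF1 cut_B40mm_112_s1 Ext.none :=
  certFK0 (fam := false) (s1 := false) (s2 := false) (a := 1) (b := 1) (c := 2) (cn := .dn) (n1 := ndF4q1) (n2 := ndF0q2) (pc := pcF1) (cut := cut_B40mm_112_s1) (xt := Ext.none) (P1 := 536870912) (W1 := 536870912) (P2 := 0) (W2 := 536870912) (P3 := 67108864) (W3 := 67108864)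
    rfl rfl rfl k0_B40mm_112_s1

theorem s_B40mm_112_s1 {κ x : ℝ} (hκ : κ * h0 = ken x) (hx : ((67108864 : ℕ) : ℝ) / S ≤ x)
    (hx' : x ≤ (((67108864 : ℕ) : ℝ) + (67108864 : ℕ)) / S) :
    AltB (VF κ) PP tKF tL pcF [⟨3, 0, 0, 1449551462⟩] 1 1 2 4 0 (sgb false) (sgb false) x :=
  strip_altB (m := 1449551462) true rfl hκ covF41 covF02 hx hx' c_B40mm_112_s1 cutB_nil (noExt_B)

noncomputable def cut_B40mm_202_s1 : Cut := Cut.of [[⟨4, 0, 0, 1449551462⟩]]

noncomputable def f_B40mm_202_s1 : ℕ → ℕ → ℕ → ℕ → Bool := onCell 1073741824 536870912 0 536870912 67108864 67108864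
    (rowFK 0 false false false .pp 2 0 2 (qsf 1073741824 536870912 0 536870912 0) ndF4q2 ndF0q2 pcF0 cut_B40mm_202_s1 Ext.none)

def k0_B40mm_202_s1 : ∃ t, chk3 f_B40mm_202_s1 t 1 1 1 = true :=
  ⟨(l 5), by decide +kernel⟩

theorem c_B40mm_202_s1 : CertF 1073741824 536870912 0 536870912 67108864 67108864 false false false .pp 2 0 2
    ndF4q2 ndF0q2 pcF0 cut_B40mm_202_s1 Ext.none :=
  certFK0 (fam := false) (s1 := false) (s2 := false) (a := 2) (b := 0) (c := 2) (cn := .pp) (n1 := ndF4q2) (n2 := ndF0q2) (pc := pcF0) (cut := cut_B40mm_202_s1) (xt := Ext.none) (P1 := 1073741824) (W1 := 536870912) (P2 := 0) (W2 := 536870912) (P3 := 67108864) (W3 := 67108864)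
    rfl rfl rfl k0_B40mm_202_s1

theorem s_B40mm_202_s1 {κ x : ℝ} (hκ : κ * h0 = ken x) (hx : ((67108864 : ℕ) : ℝ) / S ≤ x)
    (hx' : x ≤ (((67108864 : ℕ) : ℝ) + (67108864 : ℕ)) / S) :
    AltB (VF κ) PP tKF tL pcF [⟨3, 0, 0, 1449551462⟩] 2 0 2 4 0 (sgb false) (sgb false) x :=
  strip_altB (m := 1449551462) true rfl hκ covF42 covF02 hx hx' c_B40mm_202_s1 cutB_nil (noExt_B)

end Pool.Agent.Strip051.G.I1_16_1_8.Tab.St.C
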