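import Pool.Agent.Strip051.G.I1_16_1_8.Tab
import Pool.Agent.Strip051.PB.RowK

/-! # Certificates F3 (generated) -/

set_option linter.all false
set_option maxRecDepth 100000

namespace Pool.Agent.Strip051.G.I1_16_1_8.Tab.C.FB01

open Pool.Agent.Strip051.PB Pool.Agent.Strip051.PB.T
open Pool.Agent.Strip051.G.I1_16_1_8.Tab

noncomputable def cut_pm_022_a : Cut := Cut.of [[⟨0, 0, 0, 67108864⟩, ⟨1, 1, 0, 67108864⟩, ⟨2, 1, 0, 67108864⟩]]

noncomputable def f_pm_022_a : ℕ → ℕ → ℕ → ℕ → Bool := onCell 1073741824 536870912 0 536870912 67108864 67108864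
    (rowFK 2 false true false .pp 0 2 2 (qsf 0 536870912 0 536870912 2) ndF0q0 ndF1q2a pcF2 cut_pm_022_a Ext.none)

def k0_pm_022_a : ∃ t, chk3 f_pm_022_a t 4 2 1 = true :=
  ⟨(c (a (b (l 18820944) (b (a (l 18764288) (l 18640488)) (a (b (l 18600480) (l 18425296)) (l 18386488)))) (b (l 18631712) (b (l 18483960) (a (l 18277176) (b (l 18266176) (l 18101728)))))) (a (b (a (b (l 17861800) (l 17663880)) (b (l 17799008) (l 17723696))) (b (a (b (l 17573984) (a (l 17512312) (l 17496120))) (b (l 17593296) (l 17453832))) (a (b (a (c (l 17657328) (l 17005080)) (l 17298040)) (a (b (l 16986304) (l 16823728)) (l 16964264))) (b (l 17199984) (a (l 17010248) (l 17001472)))))) (b (a (l 17714960) (l 17692384)) (b (a (l 17465432) (l 17470544)) (a (b (l 17240448) (l 16981320)) (b (l 17241896) (a (l 17018040) (l 16953264)))))))), by decide +kernel⟩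

def k1_pm_022_a : ∃ t, chk3 f_pm_022_a t 4 6 1 = true :=
  ⟨(a (a (a (b (c (c (b (l 18596744) (l 18282184)) (b (l 17825432) (b (l 17539304) (a (l 17224848) (l 17287832))))) (b (a (l 16610376) (l 16664592)) (a (b (l 16504304) (l 16516224)) (l 16528960)))) (a (b (b (l 16596696) (a (l 16586680) (l 16564960))) (b (a (l 16617544) (l 16580336)) (c (a (l 16629552) (l 16597680)) (l 16585888)))) (b (b (l 16550760) (l 16563896)) (c (b (l 16691736) (l 16597112)) (l 16587560))))) (b (b (c (l 18122896) (l 16656416)) (b (c (l 17810848) (l 16519384)) (l 16689848))) (b (b (l 16592320) (a (l 16562584) (l 16566704))) (a (b (l 16578784) (b (l 16591752) (l 16600832))) (b (l 16586800) (l 16608144)))))) (b (b (c (c (l 18404936) (l 17705544)) (a (l 16654208) (l 16661304))) (a (c (c (l 18134664) (l 17326376)) (l 16565976)) (l 16739280))) (b (a (a (l 16593344) (a (l 16583384) (l 16590632))) (b (l 16599296) (l 16617336))) (a (b (c (l 16749496) (l 16608184)) (b (l 16624088) (l 16634872))) (b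 (l 16636584) (l 16662288)))))) (b (a (b (c (l 17852368) (a (l 16677000) (l 16700600))) (a (l 16784888) (l 16817192))) (b (c (a (l 17896752) (l 216394245255)) (a (l 16731408) (a (l 16738888) (l 153041774999)))) (a (a (l 32245707223) (a (a (l 16734272) (l 143378409111)) (l 162705881783))) (l 1)))) (a (b (a (l 16646496) (b (l 16653848) (a (l 16643648) (l 101501951047)))) (a (b (l 16663536) (a (l 16656056) (b (l 16663928) (l 104723176231)))) (b (a (l 88080192279) (l 1)) (l 1)))) (b (a (b (l 128345496247) (l 1)) (l 1)) (l 1))))), by decide +kernel⟩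

def k2_pm_022_a : ∃ t, chk3 f_pm_022_a t 4 7 1 = true :=
  ⟨(b (a (a (b (b (a (a (c (a (b (l 16590208) (l 16599384)) (l 16615584)) (l 16605216)) (b (l 16610280) (l 16619816))) (b (c (c (l 16617688) (l 16617696)) (l 16617704)) (a (l 16622216) (l 16636504)))) (b (a (b (a (a (l 16605864) (l 16605992)) (l 16627208)) (l 6)) (a (l 16634288) (l 16648432))) (l 6))) (l 6)) (b (a (a (b (l 16644792) (l 16668368)) (b (l 16658568) (l 16681880))) (b (a (l 16672080) (l 16685344)) (a (l 16695136) (b (a (l 16678040) (l 16695016)) (a (l 6) (l 152504731447)))))) (a (l 6) (a (l 6) (a (l 6) (l 1)))))) (a (b (a (b (a (b (l 16682368) (l 99354505431)) (l 156262815847)) (a (l 155189114535) (l 1))) (l 1)) (l 1)) (l 1))) (a (a (l 6) (a (l 6) (l 1))) (l 1))), by decide +kernel⟩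

def k3_pm_022_a : ∃ t, chk3 f_pm_022_a t 5 1 1 = true :=
  ⟨(b (a (b (a (a (l 18110184) (l 41374754359)) (l 274914167095)) (a (a (b (l 29026311575) (c (l 245385818903) (b (l 65532274967) (l 186865221751)))) (b (l 252902063511) (l 1))) (l 1))) (l 1)) (b (l 1) (l 1))), by decide +kernel⟩

def k4_pm_022_a : ∃ t, chk3 f_pm_022_a t 3 1 1 = true :=
  ⟨(l 1), by decide +kernel⟩

theorem s5_pm_022_a : ∃ t, chk3 f_pm_022_a t 4 3 1 = true := ex3_b k1_pm_022_a k2_pm_022_a

theorem s6_pm_022_a : ∃ t, chk3 f_pm_022_a t 4 1 1 = true := ex3_b k0_pm_022_a s5_pm_022_a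

theorem s7_pm_022_a : ∃ t, chk3 f_pm_022_a t 2 1 1 = true := ex3_a s6_pm_022_a k3_pm_022_a

theorem s8_pm_022_a : ∃ t, chk3 f_pm_022_a t 1 1 1 = true := ex3_a s7_pm_022_a k4_pm_022_a

theorem c_pm_022_a : CertF 0 536870912 0 536870912 67108864 67108864 false true false .pp 0 2 2
    ndF0q0 ndF1q2a pcF2 cut_pm_022_a Ext.none :=
  certFK2 (fam := false) (s1 := true) (s2 := false) (a := 0) (b := 2) (c := 2) (cn := .pp) (n1 := ndF0q0) (n2 := ndF1q2a) (pc := pcF2) (cut := cut_pm_022_a) (xt := Ext.none) (P1 := 0) (W1 := 536870912) (P2 := 0) (W2 := 536870912) (P3 := 67108864) (W3 := 67108864)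
    rfl rfl rfl (fun _ => rfl) s8_pm_022_a

noncomputable def cut_pm_022_b : Cut := Cut.of [[⟨0, 0, 0, 67108864⟩, ⟨1, 1, 0, 67108864⟩, ⟨2, 1, 0, 67108864⟩]]

noncomputable def f_pm_022_b : ℕ → ℕ → ℕ → ℕ → Bool := onCell 1073741824 536870912 1239849684 370763052 67108864 67108864
    (rowFK 2 false true false .pp 0 2 2 (qsf 0 536870912 1239849684 370763052 2) ndF0q0 ndF1q2b pcF2 cut_pm_022_b Ext.none)

def k0_pm_022_b : ∃ t, chk3 f_pm_022_b t 1 1 1 = true :=
  ⟨(a (b (a (a (b (b (b (a (l 18288872) (l 18458928)) (l 18763440)) (l 19029760)) (l 19271344)) (b (b (a (l 18365472) (l 18224728)) (l 18897536)) (l 19176088))) (b (b (a (a (l 11310538183) (a (l 252902507095) (l 285652137927))) (l 314106399639)) (a (l 18789776) (l 91305015639))) (a (l 19091136) (l 19010624)))) (a (b (l 19245936) (l 19063832)) (b (l 19169880) (l 19080352)))) (b (a (b (l 1) (a (l 18968440) (l 376921490567))) (l 1)) (a (b (l 19077624) (l 19062232)) (b (l 4) (l 18958400))))), by decide +kernel⟩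

theorem c_pm_022_b : CertF 0 536870912 1239849684 370763052 67108864 67108864 false true false .pp 0 2 2
    ndF0q0 ndF1q2b pcF2 cut_pm_022_b Ext.none :=
  certFK2 (fam := false) (s1 := true) (s2 := false) (a := 0) (b := 2) (c := 2) (cn := .pp) (n1 := ndF0q0) (n2 := ndF1q2b) (pc := pcF2) (cut := cut_pm_022_b) (xt := Ext.none) (P1 := 0) (W1 := 536870912) (P2 := 1239849684) (W2 := 370763052) (P3 := 67108864) (W3 := 67108864)
    rfl rfl rfl (fun _ => rfl) k0_pm_022_b

noncomputable def f_pm_023 : ℕ → ℕ → ℕ → ℕ → Bool := onCell 0 536870912 1073741824 536870912 67108864 67108864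
    (rowFK 1 false true false .up 0 2 3 (qsf 0 536870912 1610612736 536870912 2) ndF0q0 ndF1q3 pcF2 Cut.none Ext.none)

def k0_pm_023 : ∃ t, chk3 f_pm_023 t 1 1 1 = true :=
  ⟨(b (a (a (l 1) (b (l 1) (l 425240716519))) (a (b (l 19095848) (l 18895496)) (l 147676993127))) (a (b (a (l 445104839335) (l 19141224)) (a (l 404839724103) (l 18848128))) (b (a (l 18697792) (l 18219600)) (a (l 18380856) (l 17897352))))), by decide +kernel⟩

theorem c_pm_023 : CertF 0 536870912 1610612736 536870912 67108864 67108864 false true false .up 0 2 3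
    ndF0q0 ndF1q3 pcF2 Cut.none Ext.none :=
  certFK1 (fam := false) (s1 := true) (s2 := false) (a := 0) (b := 2) (c := 3) (cn := .up) (n1 := ndF0q0) (n2 := ndF1q3) (pc := pcF2) (cut := Cut.none) (xt := Ext.none) (P1 := 0) (W1 := 536870912) (P2 := 1610612736) (W2 := 536870912) (P3 := 67108864) (W3 := 67108864)
    rfl rfl rfl (fun _ => rfl) k0_pm_023

noncomputable def f_pm_033 : ℕ → ℕ → ℕ → ℕ → Bool := onCell 1610612736 536870912 1610612736 536870912 67108864 67108864
    (rowFK 2 false true false .pnn 0 3 3 (qsf 0 536870912 1610612736 536870912 3) ndF0q0 ndF1q3 pcF3 Cut.none Ext.none)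

def k0_pm_033 : ∃ t, chk3 f_pm_033 t 1 1 1 = true :=
  ⟨(a (b (a (b (l 4) (l 335783396887)) (l 4)) (a (b (l 19565424311) (a (l 17402448) (l 17660816))) (a (l 199416894759) (l 4)))) (l 4)), by decide +kernel⟩

theorem c_pm_033 : CertF 0 536870912 1610612736 536870912 67108864 67108864 false true false .pnn 0 3 3
    ndF0q0 ndF1q3 pcF3 Cut.none Ext.none :=
  certFK2 (fam := false) (s1 := true) (s2 := false) (a := 0) (b := 3) (c := 3) (cn := .pnn) (n1 := ndF0q0) (n2 := ndF1q3) (pc := pcF3) (cut := Cut.none) (xt := Ext.none) (P1 := 0) (W1 := 536870912) (P2 := 1610612736) (W2 := 536870912) (P3 := 67108864) (W3 := 67108864)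
    rfl rfl rfl (fun _ => rfl) k0_pm_033

noncomputable def f_pm_101 : ℕ → ℕ → ℕ → ℕ → Bool := onCell 0 536870912 536870912 536870912 67108864 67108864
    (rowFK 2 false true false .npn 1 0 1 (qsf 536870912 536870912 536870912 536870912 0) ndF0q1 ndF1q1 pcF0 Cut.none Ext.none)

def k0_pm_101 : ∃ t, chk3 f_pm_101 t 1 1 1 = true :=
  ⟨(a (b (l 4) (a (b (l 4) (b (l 18337864) (l 18861912))) (l 4))) (l 4)), by decide +kernel⟩

theorem c_pm_101 : CertF 536870912 536870912 536870912 536870912 67108864 67108864 false true false .npn 1 0 1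
    ndF0q1 ndF1q1 pcF0 Cut.none Ext.none :=
  certFK2 (fam := false) (s1 := true) (s2 := false) (a := 1) (b := 0) (c := 1) (cn := .npn) (n1 := ndF0q1) (n2 := ndF1q1) (pc := pcF0) (cut := Cut.none) (xt := Ext.none) (P1 := 536870912) (W1 := 536870912) (P2 := 536870912) (W2 := 536870912) (P3 := 67108864) (W3 := 67108864)
    rfl rfl rfl (fun _ => rfl) k0_pm_101

noncomputable def cut_pm_102_a : Cut := Cut.of [[⟨0, 1, 0, 67108864⟩, ⟨1, 0, 0, 67108864⟩, ⟨2, 1, 0, 67108864⟩]]

noncomputable def f_pm_102_a : ℕ → ℕ → ℕ → ℕ → Bool := onCell 536870912 536870912 0 536870912 67108864 67108864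
    (rowFK 0 false true false .npp 1 0 2 (qsf 536870912 536870912 0 536870912 0) ndF0q1 ndF1q2a pcF0 cut_pm_102_a Ext.none)

def k0_pm_102_a : ∃ t, chk3 f_pm_102_a t 2 1 1 = true :=
  ⟨(b (a (b (l 2) (a (l 2) (l 17387064))) (b (l 17282256) (a (l 17285968) (l 17206392)))) (a (b (a (l 2) (l 17722736)) (b (l 18274032) (a (l 18173184) (l 18153576)))) (b (a (l 17746824) (b (l 17343400) (l 17487336))) (b (a (l 17873416) (l 17705224)) (a (l 18215792) (b (l 17868760) (l 17980312))))))), by decide +kernel⟩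

def k1_pm_102_a : ∃ t, chk3 f_pm_102_a t 3 2 1 = true :=
  ⟨(a (a (b (l 17011200) (l 17097312)) (b (a (l 16957008) (b (a (l 123111594903) (l 128480425319)) (a (l 16960344) (l 16998320)))) (l 17168352))) (a (b (a (b (a (l 132238633223) (l 3)) (a (l 124722368519) (l 129554324119))) (l 3)) (a (b (a (l 17004680) (b (l 125259284487) (l 17043688))) (l 16996272)) (b (a (b (l 3) (l 128480572967)) (l 3)) (a (b (a (l 17053872) (l 121501211463)) (l 17030384)) (b (a (l 130628079383) (l 3)) (a (l 120427448999) (l 131164885527))))))) (l 3))), by decide +kernel⟩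

def k2_pm_102_a : ∃ t, chk3 f_pm_102_a t 6 3 1 = true :=
  ⟨(b (a (b (l 17180528) (a (l 17306160) (l 17214648))) (a (l 17280352) (l 17029576))) (b (a (l 17651176) (a (l 17392352) (b (l 17109088) (l 17184032)))) (a (b (l 17660120) (l 17910248)) (b (l 17605656) (a (l 17595168) (l 17455608)))))), by decide +kernel⟩

def k3_pm_102_a : ∃ t, chk3 f_pm_102_a t 7 6 1 = true :=
  ⟨(a (a (l 17141824) (b (a (l 16967104) (b (a (l 17027472) (b (l 127406758887) (l 16999856))) (l 16989336))) (a (l 16916776) (l 16974392)))) (a (b (a (b (a (b (l 3) (l 132775364711)) (l 3)) (c (a (l 111300672439) (l 132238714103)) (a (b (l 133849022087) (l 16947096)) (b (l 145123326215) (a (l 123648426039) (l 141902038343)))))) (l 3)) (a (b (a (l 16961792) (b (a (l 16990528) (c (l 108616298743) (b (l 139217633847) (l 123648344887)))) (l 16854208))) (a (l 16899680) (l 16905448))) (b (a (a (b (c (l 137607361511) (l 142438730567)) (c (l 109153117319) (a (l 126332576919) (b (l 141901905015) (l 127406332695)))))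 (b (l 3) (c (l 138681045591) (a (b (l 3) (l 141901793639)) (l 3))))) (l 3)) (a (b (a (l 16925080) (c (l 110763641831) (b (a (l 129553724439) (l 140827976391)) (a (l 16822104) (l 132238022999))))) (l 16820752)) (b (a (a (c (l 138680944007) (b (l 3) (b (l 139217396951) (l 140291096023)))) (l 3)) (l 3)) (a (b (c (l 135996430743) (a (b (l 134922387303) (l 16781512)) (b (l 137606717959) (a (l 134922367927) (l 138143588647))))) (a (l 16861288) (c (l 16899408) (b (a (l 16779296) (l 135459238359)) (l 16781128))))) (b (l 3) (a (c (l 138143863335) (b (l 137606716375) (a (l 135459237959) (l 138143587287)))) (l 3))))))))) (l 3))), by decide +kernel⟩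

def k4_pm_102_a : ∃ t, chk3 f_pm_102_a t 14 7 1 = true :=
  ⟨(b (a (b (l 17012456) (l 17125080)) (b (l 16925408) (l 17031384))) (b (a (l 17207544) (a (l 17078984) (l 17038752))) (a (l 17493776) (b (l 17163816) (l 17341272))))), by decide +kernel⟩

def k5_pm_102_a : ∃ t, chk3 f_pm_102_a t 30 14 1 = true :=
  ⟨(a (b (l 16870584) (l 16880672)) (b (a (l 16827904) (b (a (l 16824040) (b (c (a (l 122574449559) (c (l 137070289975) (l 137606805959))) (a (b (a (l 16778984) (l 128479907255)) (l 16780840)) (b (a (b (l 137069843831) (l 138680458055)) (l 3)) (a (l 127943035751) (a (l 134922361383) (l 137606714023)))))) (a (l 16795624) (b (c (l 16846512) (a (l 16778752) (l 126869293239))) (l 16782064))))) (a (l 16811536) (l 16795784)))) (a (l 16853192) (l 16867776)))), by decide +kernel⟩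

def k6_pm_102_a : ∃ t, chk3 f_pm_102_a t 62 28 1 = true :=
  ⟨(a (b (a (b (l 3) (a (c (c (l 119890357687) (b (l 141901793431) (l 134385548855))) (b (a (b (l 137606713591) (a (l 16772800) (l 138143584727))) (l 136532970583)) (a (l 16769496) (a (b (l 134922359079) (l 16772760)) (b (l 138680454087) (l 134922358919)))))) (a (b (l 3) (c (l 140828037751) (l 136532970007))) (l 3)))) (l 3)) (a (b (b (a (c (l 16830760) (l 16771424)) (c (c (l 138143913223) (l 140827960839)) (a (c (l 138680462455) (b (a (l 134385486759) (l 135996097879)) (a (l 16772168) (l 134385486679)))) (b (l 3) (l 136532969527))))) (a (l 16781888) (a (l 16775872) (a (b (c (l 131701206135) (b (l 137069841415) (l 130627387511))) (l 16773864)) (c (l 130627408135) (b (l 136532969495) (b (l 137069840679) (l 130090516279)))))))) (a (l 16787776) (b (l 16767368) (l 16781816)))) (b (a (b (l 3) (c (l 140291070167) (a (b (l 3) (c (l 137069841095) (a (l 135459226455) (l 3)))) (l 3)))) (l 3)) (a (a (b (b (c (l 142975444631)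 (c (l 138143584231) (a (b (l 135459227511) (l 16770792)) (l 135996097239)))) (c (l 136532996839) (c (l 137069845111) (a (l 16772256) (b (l 134385485671) (l 16770832)))))) (l 16775864)) (c (b (l 139754216695) (l 137069850551)) (a (b (b (l 3) (b (l 135996097783) (c (l 137606711991) (l 135459226359)))) (b (b (c (l 133848614151) (l 133848614775)) (l 16771376)) (l 16772856))) (b (l 3) (a (b (b (l 135996097687) (l 132774870359)) (l 16771408)) (b (l 135996097591) (b (l 132237999367) (l 16770936)))))))) (b (l 3) (c (l 138680457095) (a (b (l 3) (a (b (l 137069839303) (a (l 132237999367) (l 135996097511))) (l 3))) (l 3)))))))) (l 3)), by decide +kernel⟩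

def k7_pm_102_a : ∃ t, chk3 f_pm_102_a t 124 29 1 = true :=
  ⟨(b (a (l 16795544) (b (a (l 16769384) (a (b (b (c (l 140827941399) (b (c (l 137606712279) (a (l 130090515559) (l 135459225527))) (a (l 16771472) (a (l 131701128343) (l 135996097447))))) (c (l 119353100855) (c (l 128479904775) (a (l 16772456) (b (l 129553644583) (l 16771056)))))) (l 16775976)) (b (b (l 3) (c (l 139217326663) (a (c (l 137069840615) (b (l 135459225479) (a (l 130627386359) (l 134922354695)))) (l 3)))) (b (c (l 141364812199) (c (a (l 130627388215) (l 137069840599)) (a (b (l 129016773639) (l 16771128)) (a (b (l 134922354695) (l 130090515335)) (b (l 3) (l 134922354711)))))) (c (l 16773976) (c (l 16767344) (a (l 16772608) (l 126869289991)))))))) (a (l 16787808) (l 16769544)))) (a (l 16810880) (l 16795776))), by decide +kernel⟩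

def k8_pm_102_a : ∃ t, chk3 f_pm_102_a t 125 58 1 = true :=
  ⟨(a (b (a (a (b (l 3) (b (l 3) (c (l 139217326439) (c (a (l 137069840599) (l 136532968503)) (a (a (b (l 134922354727) (l 16769800)) (b (l 137069837815) (l 134385483847))) (l 137069837703)))))) (l 3)) (l 3)) (b (a (c (a (b (c (l 138143627239) (l 138143585847)) (l 16774064)) (b (l 137606712695) (l 139217328919))) (a (b (a (l 16766008) (c (l 135996098807) (a (b (l 134385483895) (l 16769896)) (b (l 135996095943) (l 134385483943))))) (l 16767048)) (b (c (l 136532968343) (a (l 136532966743) (l 3))) (c (a (b (l 136532968999) (l 132774871383)) (l 137606710183)) (a (a (b (l 134385483991) (l 16770000)) (b (l 135459225015) (l 134385484055))) (b (l 3) (l 135459224967))))))) (l 3)) (a (a (l 16776208) (a (l 16768048) (b (c (l 138680455895) (a (b (c (l 133848613175) (l 132237998855)) (l 16770512)) (b (l 135996096743) (c (l 133848613239) (l 131701128023))))) (l 16772368)))) (a (a (b (c (l 137606712519) (b (l 3) (c (l 136532968375)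 (l 135459224983)))) (c (l 138680455927) (b (c (l 136532969111) (a (l 131164257031) (l 134922354183))) (c (l 131701129527) (c (l 130090515943) (l 129016773415)))))) (b (l 3) (c (l 137606712439) (b (l 3) (c (l 135996097463) (l 135996095943)))))) (l 3))))) (l 3)), by decide +kernel⟩

def k9_pm_102_a : ∃ t, chk3 f_pm_102_a t 125 59 1 = true :=
  ⟨(a (a (b (l 16780320) (l 16788336)) (b (b (a (a (l 16773472) (b (c (l 139217326919) (a (b (l 130627386103) (l 16770744)) (b (a (l 135459226023) (l 137069838439)) (l 130090515287)))) (l 16772560))) (a (b (c (l 137606712391) (b (l 3) (c (l 135996097511) (c (l 135459225479) (l 134922353831))))) (c (b (l 140291067911) (l 16769264)) (b (a (l 129553644327) (a (l 134922355255) (l 135459225767))) (l 127406160759)))) (a (b (l 3) (c (l 138143583367) (b (l 3) (c (l 135996097719) (l 134385483559))))) (l 3)))) (a (l 16776568) (a (l 16773688) (b (a (c (l 16771952) (l 126869289879)) (c (l 139217326231) (b (c (l 135996097783) (l 134385483639))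 (l 16770072)))) (l 16772792))))) (l 16780736))) (b (b (l 3) (a (a (b (a (c (l 138143583287) (a (b (l 137069838391) (c (l 135996097863) (l 134385483735))) (l 137069838375))) (l 3)) (a (a (l 16768728) (c (l 139217326359) (b (c (l 135996097943) (l 133848612919)) (l 6)))) (c (l 138143583319) (b (l 136532967511) (l 6))))) (l 3)) (l 3))) (l 6))), by decide +kernel⟩

def k10_pm_102_a : ∃ t, chk3 f_pm_102_a t 63 14 1 = true :=
  ⟨(l 3), by decide +kernel⟩

def k11_pm_102_a : ∃ t, chk3 f_pm_102_a t 15 15 1 = true :=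
  ⟨(a (b (a (b (l 16901744) (l 16948016)) (b (l 16851952) (l 16866592))) (b (a (l 17010384) (a (l 16929576) (l 6))) (a (l 17109128) (l 6)))) (b (a (a (b (l 16818416) (l 6)) (l 6)) (l 6)) (l 6))), by decide +kernel⟩

theorem s12_pm_102_a : ∃ t, chk3 f_pm_102_a t 125 29 1 = true := ex3_b k8_pm_102_a k9_pm_102_a

theorem s13_pm_102_a : ∃ t, chk3 f_pm_102_a t 62 29 1 = true := ex3_a k7_pm_102_a s12_pm_102_a

theorem s14_pm_102_a : ∃ t, chk3 f_pm_102_a t 62 14 1 = true := ex3_b k6_pm_102_a s13_pm_102_a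

theorem s15_pm_102_a : ∃ t, chk3 f_pm_102_a t 31 14 1 = true := ex3_a s14_pm_102_a k10_pm_102_a

theorem s16_pm_102_a : ∃ t, chk3 f_pm_102_a t 15 14 1 = true := ex3_a k5_pm_102_a s15_pm_102_a

theorem s17_pm_102_a : ∃ t, chk3 f_pm_102_a t 15 7 1 = true := ex3_b s16_pm_102_a k11_pm_102_a

theorem s18_pm_102_a : ∃ t, chk3 f_pm_102_a t 7 7 1 = true := ex3_a k4_pm_102_a s17_pm_102_a

theorem s19_pm_102_a : ∃ t, chk3 f_pm_102_a t 7 3 1 = true := ex3_b k3_pm_102_a s18_pm_102_a

theorem s20_pm_102_a : ∃ t, chk3 f_pm_102_a t 3 3 1 = true := ex3_a k2_pm_102_a s19_pm_102_a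

theorem s21_pm_102_a : ∃ t, chk3 f_pm_102_a t 3 1 1 = true := ex3_b k1_pm_102_a s20_pm_102_a

theorem s22_pm_102_a : ∃ t, chk3 f_pm_102_a t 1 1 1 = true := ex3_a k0_pm_102_a s21_pm_102_a

theorem c_pm_102_a : CertF 536870912 536870912 0 536870912 67108864 67108864 false true false .npp 1 0 2
    ndF0q1 ndF1q2a pcF0 cut_pm_102_a Ext.none :=
  certFK0 (fam := false) (s1 := true) (s2 := false) (a := 1) (b := 0) (c := 2) (cn := .npp) (n1 := ndF0q1) (n2 := ndF1q2a) (pc := pcF0) (cut := cut_pm_102_a) (xt := Ext.none) (P1 := 536870912) (W1 := 536870912) (P2 := 0) (W2 := 536870912) (P3 := 67108864) (W3 := 67108864)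
    rfl rfl rfl s22_pm_102_a

noncomputable def cut_pm_102_b : Cut := Cut.of [[⟨0, 1, 0, 67108864⟩, ⟨1, 0, 0, 67108864⟩, ⟨2, 1, 0, 67108864⟩]]

noncomputable def f_pm_102_b : ℕ → ℕ → ℕ → ℕ → Bool := onCell 536870912 536870912 0 536870912 67108864 67108864
    (rowFK 1 false true false .npp 1 0 2 (qsf 536870912 536870912 1239849684 370763052 0) ndF0q1 ndF1q2b pcF0 cut_pm_102_b Ext.none)

def k0_pm_102_b : ∃ t, chk3 f_pm_102_b t 1 1 1 = true :=
  ⟨(a (b (l 1) (b (l 1) (a (l 1) (a (l 235184091207) (l 17270008))))) (a (b (l 1) (b (b (a (l 1) (a (b (l 1) (l 104186756311)) (a (b (l 1) (a (l 55331452375) (b (l 100562956423) (l 114521677287)))) (l 3)))) (a (l 158948107783) (a (b (l 16958632) (l 17020560)) (b (a (l 17021344) (l 285246979047)) (l 101637171015))))) (b (a (l 17010360) (a (l 17111248) (l 75867858279))) (a (l 17091840) (l 17230600))))) (a (b (l 3) (b (l 3) (a (b (l 286321164535) (l 101101002055)) (l 3)))) (l 3)))), by decide +kernel⟩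

theorem c_pm_102_b : CertF 536870912 536870912 1239849684 370763052 67108864 67108864 false true false .npp 1 0 2
    ndF0q1 ndF1q2b pcF0 cut_pm_102_b Ext.none :=
  certFK1 (fam := false) (s1 := true) (s2 := false) (a := 1) (b := 0) (c := 2) (cn := .npp) (n1 := ndF0q1) (n2 := ndF1q2b) (pc := pcF0) (cut := cut_pm_102_b) (xt := Ext.none) (P1 := 536870912) (W1 := 536870912) (P2 := 1239849684) (W2 := 370763052) (P3 := 67108864) (W3 := 67108864)
    rfl rfl rfl (fun _ => rfl) k0_pm_102_b

noncomputable def f_pm_112_a : ℕ → ℕ → ℕ → ℕ → Bool := onCell 536870912 536870912 0 536870912 67108864 67108864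
    (rowFK 2 false true false .dn 1 1 2 (qsf 536870912 536870912 0 536870912 1) ndF0q1 ndF1q2a pcF1 Cut.none Ext.none)

def k0_pm_112_a : ∃ t, chk3 f_pm_112_a t 1 1 1 = true :=
  ⟨(a (b (a (a (b (l 17262008) (l 17436688)) (l 17594400)) (a (l 17546336) (l 1))) (a (b (a (l 17748536) (l 17818160)) (b (l 18222240) (a (l 18476944) (l 1)))) (b (l 1) (l 1)))) (l 1)), by decide +kernel⟩

theorem c_pm_112_a : CertF 536870912 536870912 0 536870912 67108864 67108864 false true false .dn 1 1 2
    ndF0q1 ndF1q2a pcF1 Cut.none Ext.none :=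
  certFK2 (fam := false) (s1 := true) (s2 := false) (a := 1) (b := 1) (c := 2) (cn := .dn) (n1 := ndF0q1) (n2 := ndF1q2a) (pc := pcF1) (cut := Cut.none) (xt := Ext.none) (P1 := 536870912) (W1 := 536870912) (P2 := 0) (W2 := 536870912) (P3 := 67108864) (W3 := 67108864)
    rfl rfl rfl (fun _ => rfl) k0_pm_112_a

noncomputable def f_pm_112_b : ℕ → ℕ → ℕ → ℕ → Bool := onCell 536870912 536870912 536870912 536870912 67108864 67108864
    (rowFK 1 false true false .dn 1 1 2 (qsf 536870912 536870912 1239849684 370763052 1) ndF0q1 ndF1q2b pcF1 Cut.none Ext.none)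

def k0_pm_112_b : ∃ t, chk3 f_pm_112_b t 1 1 1 = true :=
  ⟨(a (b (a (b (a (l 306588388007) (l 285113261991)) (b (l 17335632) (l 17101224))) (b (a (l 17100408) (l 16903440)) (l 17052736))) (a (b (l 17421304) (b (l 17876960) (b (l 18135816) (l 18319592)))) (b (l 17284480) (l 17683608)))) (b (b (a (a (l 17065360) (b (l 17258344) (l 17255440))) (a (b (l 124186195463) (l 129555142007)) (l 3))) (a (l 17370088) (a (l 360342497431) (l 2)))) (a (b (l 17196552) (l 2)) (l 2)))), by decide +kernel⟩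

theorem c_pm_112_b : CertF 536870912 536870912 1239849684 370763052 67108864 67108864 false true false .dn 1 1 2
    ndF0q1 ndF1q2b pcF1 Cut.none Ext.none :=
  certFK1 (fam := false) (s1 := true) (s2 := false) (a := 1) (b := 1) (c := 2) (cn := .dn) (n1 := ndF0q1) (n2 := ndF1q2b) (pc := pcF1) (cut := Cut.none) (xt := Ext.none) (P1 := 536870912) (W1 := 536870912) (P2 := 1239849684) (W2 := 370763052) (P3 := 67108864) (W3 := 67108864)
    rfl rfl rfl (fun _ => rfl) k0_pm_112_b

noncomputable def cut_pm_113 : Cut := Cut.of [[⟨0, 1, 0, 21338704⟩, ⟨1, 1, 0, 21338704⟩, ⟨2, 2, 0, 1685920⟩]]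

noncomputable def f_pm_113 : ℕ → ℕ → ℕ → ℕ → Bool := onCell 536870912 536870912 536870912 536870912 67108864 67108864
    (rowFK 1 false true false .nn 1 1 3 (qsf 536870912 536870912 1610612736 536870912 1) ndF0q1 ndF1q3 pcF1 cut_pm_113 Ext.none)

def k0_pm_113 : ∃ t, chk3 f_pm_113 t 1 1 1 = true :=
  ⟨(a (b (a (l 1) (b (l 1) (l 296388398407))) (b (a (l 323768211911) (l 17447304)) (a (b (l 17328144) (b (l 17657176) (l 17897816))) (l 17399536)))) (b (b (a (b (l 1) (a (l 1) (l 244312061479))) (a (b (a (l 1) (l 3)) (a (a (l 227669049655) (b (l 213173574263) (l 17840600))) (a (a (b (b (l 1) (a (a (l 212636629015) (l 466173935751)) (l 3))) (l 100564726007)) (l 461342046855)) (l 3)))) (l 3))) (a (b (l 17926088) (l 17630864)) (a (b (a (l 17729608) (l 120965519335)) (l 17606048)) (b (l 3) (l 519323113063))))) (b (a (b (l 17439480) (l 17216904)) (a (b (l 17276512) (l 17046640)) (b (l 189147012407) (l 251424304071)))) (a (b (l 17167784) (l 17396152)) (a (l 17363200) (a (b (l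 17097296) (l 17079944)) (b (l 283099400087) (a (l 17082664) (b (l 300815920007) (a (l 16928168) (b (l 310479456151) (a (l 16868592) (b (a (l 16846944) (l 315847983607)) (a (l 16834832) (b (l 318532268247) (a (l 16816880) (b (l 319605977655) (a (l 16797144) (b (l 320142842327) (l 6)))))))))))))))))))), by decide +kernel⟩

theorem c_pm_113 : CertF 536870912 536870912 1610612736 536870912 67108864 67108864 false true false .nn 1 1 3
    ndF0q1 ndF1q3 pcF1 cut_pm_113 Ext.none :=
  certFK1 (fam := false) (s1 := true) (s2 := false) (a := 1) (b := 1) (c := 3) (cn := .nn) (n1 := ndF0q1) (n2 := ndF1q3) (pc := pcF1) (cut := cut_pm_113) (xt := Ext.none) (P1 := 536870912) (W1 := 536870912) (P2 := 1610612736) (W2 := 536870912) (P3 := 67108864) (W3 := 67108864)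
    rfl rfl rfl (fun _ => rfl) k0_pm_113

noncomputable def cut_pm_123 : Cut := Cut.of [[⟨0, 1, 0, 21338704⟩, ⟨1, 1, 0, 21338704⟩, ⟨2, 2, 0, 1685920⟩]]

noncomputable def f_pm_123 : ℕ → ℕ → ℕ → ℕ → Bool := onCell 1073741824 536870912 1610612736 536870912 67108864 67108864
    (rowFK 2 false true false .npn 1 2 3 (qsf 536870912 536870912 1610612736 536870912 2) ndF0q1 ndF1q3 pcF2 cut_pm_123 Ext.none)

def k0_pm_123 : ∃ t, chk3 f_pm_123 t 1 1 1 = true :=
  ⟨(a (b (a (b (l 18405472) (l 17996112)) (b (a (l 18625896) (l 1)) (a (l 18186008) (l 18306832)))) (a (a (a (b (l 17554672) (b (l 17251504) (b (l 17052816) (b (l 16931056) (a (b (l 16857632) (b (l 16821344) (b (l 16802656) (b (l 16814144) (l 6))))) (l 16845432)))))) (b (l 17598376) (b (l 17255120) (b (l 17052088) (l 17092160))))) (b (l 17750600) (b (l 17279632) (l 17097416)))) (b (l 17924104) (a (b (l 17346208) (l 17053808)) (l 17272728))))) (b (a (b (l 1) (a (l 18422584) (l 1))) (l 1)) (a (b (l 18220392) (b (l 17595160)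 (l 17270320))) (b (l 18399448) (l 17662112))))), by decide +kernel⟩

theorem c_pm_123 : CertF 536870912 536870912 1610612736 536870912 67108864 67108864 false true false .npn 1 2 3
    ndF0q1 ndF1q3 pcF2 cut_pm_123 Ext.none :=
  certFK2 (fam := false) (s1 := true) (s2 := false) (a := 1) (b := 2) (c := 3) (cn := .npn) (n1 := ndF0q1) (n2 := ndF1q3) (pc := pcF2) (cut := cut_pm_123) (xt := Ext.none) (P1 := 536870912) (W1 := 536870912) (P2 := 1610612736) (W2 := 536870912) (P3 := 67108864) (W3 := 67108864)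
    rfl rfl rfl (fun _ => rfl) k0_pm_123

noncomputable def f_pm_133 : ℕ → ℕ → ℕ → ℕ → Bool := onCell 536870912 536870912 1610612736 536870912 67108864 67108864
    (rowFK 0 false true false .dn 1 3 3 (qsf 536870912 536870912 1610612736 536870912 3) ndF0q1 ndF1q3 pcF3 Cut.none Ext.none)

def k0_pm_133 : ∃ t, chk3 f_pm_133 t 1 1 1 = true :=
  ⟨(a (b (l 1) (a (b (l 1) (a (l 17002832) (l 1))) (l 1))) (l 1)), by decide +kernel⟩

theorem c_pm_133 : CertF 536870912 536870912 1610612736 536870912 67108864 67108864 false true false .dn 1 3 3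
    ndF0q1 ndF1q3 pcF3 Cut.none Ext.none :=
  certFK0 (fam := false) (s1 := true) (s2 := false) (a := 1) (b := 3) (c := 3) (cn := .dn) (n1 := ndF0q1) (n2 := ndF1q3) (pc := pcF3) (cut := Cut.none) (xt := Ext.none) (P1 := 536870912) (W1 := 536870912) (P2 := 1610612736) (W2 := 536870912) (P3 := 67108864) (W3 := 67108864)
    rfl rfl rfl k0_pm_133

noncomputable def cut_pm_202_a : Cut := Cut.of [[⟨0, 1, 0, 67108864⟩, ⟨1, 0, 0, 67108864⟩, ⟨2, 1, 0, 67108864⟩]]

noncomputable def f_pm_202_a : ℕ → ℕ → ℕ → ℕ → Bool := onCell 0 536870912 0 536870912 67108864 67108864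
    (rowFK 0 false true false .pp 2 0 2 (qsf 0 536870912 0 536870912 0) ndF0q2 ndF1q2a pcF0 cut_pm_202_a Ext.none)

def k0_pm_202_a : ∃ t, chk3 f_pm_202_a t 1 1 1 = true :=
  ⟨(a (l 3) (b (l 3) (a (l 3) (b (l 3) (a (l 3) (b (l 3) (l 6))))))), by decide +kernel⟩

theorem c_pm_202_a : CertF 0 536870912 0 536870912 67108864 67108864 false true false .pp 2 0 2
    ndF0q2 ndF1q2a pcF0 cut_pm_202_a Ext.none :=
  certFK0 (fam := false) (s1 := true) (s2 := false) (a := 2) (b := 0) (c := 2) (cn := .pp) (n1 := ndF0q2) (n2 := ndF1q2a) (pc := pcF0) (cut := cut_pm_202_a) (xt := Ext.none) (P1 := 0) (W1 := 536870912) (P2 := 0) (W2 := 536870912) (P3 := 67108864) (W3 := 67108864)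
    rfl rfl rfl k0_pm_202_a

noncomputable def cut_pm_202_b : Cut := Cut.of [[⟨0, 1, 0, 67108864⟩, ⟨1, 0, 0, 67108864⟩, ⟨2, 1, 0, 67108864⟩]]

noncomputable def f_pm_202_b : ℕ → ℕ → ℕ → ℕ → Bool := onCell 0 536870912 1239849684 370763052 67108864 67108864
    (rowFK 0 false true false .pp 2 0 2 (qsf 0 536870912 1239849684 370763052 0) ndF0q2 ndF1q2b pcF0 cut_pm_202_b Ext.none)

def k0_pm_202_b : ∃ t, chk3 f_pm_202_b t 1 1 1 = true :=
  ⟨(l 3), by decide +kernel⟩

theorem c_pm_202_b : CertF 0 536870912 1239849684 370763052 67108864 67108864 false true false .pp 2 0 2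
    ndF0q2 ndF1q2b pcF0 cut_pm_202_b Ext.none :=
  certFK0 (fam := false) (s1 := true) (s2 := false) (a := 2) (b := 0) (c := 2) (cn := .pp) (n1 := ndF0q2) (n2 := ndF1q2b) (pc := pcF0) (cut := cut_pm_202_b) (xt := Ext.none) (P1 := 0) (W1 := 536870912) (P2 := 1239849684) (W2 := 370763052) (P3 := 67108864) (W3 := 67108864)
    rfl rfl rfl k0_pm_202_b

noncomputable def f_pm_203 : ℕ → ℕ → ℕ → ℕ → Bool := onCell 0 536870912 0 536870912 67108864 67108864
    (rowFK 1 false true false .up 2 0 3 (qsf 0 536870912 1610612736 536870912 0) ndF0q2 ndF1q3 pcF0 Cut.none Ext.none)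

def k0_pm_203 : ∃ t, chk3 f_pm_203 t 1 1 1 = true :=
  ⟨(l 3), by decide +kernel⟩

theorem c_pm_203 : CertF 0 536870912 1610612736 536870912 67108864 67108864 false true false .up 2 0 3
    ndF0q2 ndF1q3 pcF0 Cut.none Ext.none :=
  certFK1 (fam := false) (s1 := true) (s2 := false) (a := 2) (b := 0) (c := 3) (cn := .up) (n1 := ndF0q2) (n2 := ndF1q3) (pc := pcF0) (cut := Cut.none) (xt := Ext.none) (P1 := 0) (W1 := 536870912) (P2 := 1610612736) (W2 := 536870912) (P3 := 67108864) (W3 := 67108864)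
    rfl rfl rfl (fun _ => rfl) k0_pm_203

noncomputable def cut_pm_213 : Cut := Cut.of [[⟨0, 1, 0, 21338704⟩, ⟨1, 1, 0, 21338704⟩, ⟨2, 2, 0, 1685920⟩]]

noncomputable def f_pm_213 : ℕ → ℕ → ℕ → ℕ → Bool := onCell 0 536870912 1610612736 536870912 67108864 67108864
    (rowFK 0 false true false .pnn 2 1 3 (qsf 0 536870912 1610612736 536870912 1) ndF0q2 ndF1q3 pcF1 cut_pm_213 Ext.none)

def k0_pm_213 : ∃ t, chk3 f_pm_213 t 1 1 1 = true :=
  ⟨(b (l 3) (a (l 3) (b (l 3) (a (l 3) (a (l 3) (b (l 3) (a (l 3) (a (l 3) (b (l 3) (a (l 3) (b (l 3) (b (l 3) (b (l 3) (b (l 3) (b (l 3) (l 6)))))))))))))))), by decide +kernel⟩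

theorem c_pm_213 : CertF 0 536870912 1610612736 536870912 67108864 67108864 false true false .pnn 2 1 3
    ndF0q2 ndF1q3 pcF1 cut_pm_213 Ext.none :=
  certFK0 (fam := false) (s1 := true) (s2 := false) (a := 2) (b := 1) (c := 3) (cn := .pnn) (n1 := ndF0q2) (n2 := ndF1q3) (pc := pcF1) (cut := cut_pm_213) (xt := Ext.none) (P1 := 0) (W1 := 536870912) (P2 := 1610612736) (W2 := 536870912) (P3 := 67108864) (W3 := 67108864)
    rfl rfl rfl k0_pm_213

noncomputable def f_mm_001 : ℕ → ℕ → ℕ → ℕ → Bool := onCell 0 536870912 536870912 536870912 67108864 67108864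
    (rowFK 0 false false false .up 0 0 1 (qsf 0 536870912 536870912 536870912 0) ndF0q0 ndF1q1 pcF0 Cut.none Ext.none)

def k0_mm_001 : ∃ t, chk3 f_mm_001 t 1 1 1 = true :=
  ⟨(l 3), by decide +kernel⟩

theorem c_mm_001 : CertF 0 536870912 536870912 536870912 67108864 67108864 false false false .up 0 0 1
    ndF0q0 ndF1q1 pcF0 Cut.none Ext.none :=
  certFK0 (fam := false) (s1 := false) (s2 := false) (a := 0) (b := 0) (c := 1) (cn := .up) (n1 := ndF0q0) (n2 := ndF1q1) (pc := pcF0) (cut := Cut.none) (xt := Ext.none) (P1 := 0) (W1 := 536870912) (P2 := 536870912) (W2 := 536870912) (P3 := 67108864) (W3 := 67108864)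
    rfl rfl rfl k0_mm_001

noncomputable def f_mm_011 : ℕ → ℕ → ℕ → ℕ → Bool := onCell 0 536870912 536870912 536870912 67108864 67108864
    (rowFK 0 false false false .pnn 0 1 1 (qsf 0 536870912 536870912 536870912 1) ndF0q0 ndF1q1 pcF1 Cut.none Ext.none)

def k0_mm_011 : ∃ t, chk3 f_mm_011 t 1 1 1 = true :=
  ⟨(l 3), by decide +kernel⟩

theorem c_mm_011 : CertF 0 536870912 536870912 536870912 67108864 67108864 false false false .pnn 0 1 1
    ndF0q0 ndF1q1 pcF1 Cut.none Ext.none :=
  certFK0 (fam := false) (s1 := false) (s2 := false) (a := 0) (b := 1) (c := 1) (cn := .pnn) (n1 := ndF0q0) (n2 := ndF1q1) (pc := pcF1) (cut := Cut.none) (xt := Ext.none) (P1 := 0) (W1 := 536870912) (P2 := 536870912) (W2 := 536870912) (P3 := 67108864) (W3 := 67108864)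
    rfl rfl rfl k0_mm_011

noncomputable def f_mm_012_a : ℕ → ℕ → ℕ → ℕ → Bool := onCell 0 536870912 0 536870912 67108864 67108864
    (rowFK 0 false false false .pnp 0 1 2 (qsf 0 536870912 0 536870912 1) ndF0q0 ndF1q2a pcF1 Cut.none Ext.none)

def k0_mm_012_a : ∃ t, chk3 f_mm_012_a t 1 1 1 = true :=
  ⟨(l 5), by decide +kernel⟩

theorem c_mm_012_a : CertF 0 536870912 0 536870912 67108864 67108864 false false false .pnp 0 1 2
    ndF0q0 ndF1q2a pcF1 Cut.none Ext.none :=
  certFK0 (fam := false) (s1 := false) (s2 := false) (a := 0) (b := 1) (c := 2) (cn := .pnp) (n1 := ndF0q0) (n2 := ndF1q2a) (pc := pcF1) (cut := Cut.none) (xt := Ext.none) (P1 := 0) (W1 := 536870912) (P2 := 0) (W2 := 536870912) (P3 := 67108864) (W3 := 67108864)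
    rfl rfl rfl k0_mm_012_a

noncomputable def f_mm_012_b : ℕ → ℕ → ℕ → ℕ → Bool := onCell 0 536870912 1239849684 370763052 67108864 67108864
    (rowFK 0 false false false .pnp 0 1 2 (qsf 0 536870912 1239849684 370763052 1) ndF0q0 ndF1q2b pcF1 Cut.none Ext.none)

def k0_mm_012_b : ∃ t, chk3 f_mm_012_b t 1 1 1 = true :=
  ⟨(l 5), by decide +kernel⟩

theorem c_mm_012_b : CertF 0 536870912 1239849684 370763052 67108864 67108864 false false false .pnp 0 1 2
    ndF0q0 ndF1q2b pcF1 Cut.none Ext.none :=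
  certFK0 (fam := false) (s1 := false) (s2 := false) (a := 0) (b := 1) (c := 2) (cn := .pnp) (n1 := ndF0q0) (n2 := ndF1q2b) (pc := pcF1) (cut := Cut.none) (xt := Ext.none) (P1 := 0) (W1 := 536870912) (P2 := 1239849684) (W2 := 370763052) (P3 := 67108864) (W3 := 67108864)
    rfl rfl rfl k0_mm_012_b

noncomputable def f_mm_022_a : ℕ → ℕ → ℕ → ℕ → Bool := onCell 0 536870912 0 536870912 67108864 67108864
    (rowFK 0 false false false .pp 0 2 2 (qsf 0 536870912 0 536870912 2) ndF0q0 ndF1q2a pcF2 Cut.none Ext.none)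

def k0_mm_022_a : ∃ t, chk3 f_mm_022_a t 1 1 1 = true :=
  ⟨(l 5), by decide +kernel⟩

theorem c_mm_022_a : CertF 0 536870912 0 536870912 67108864 67108864 false false false .pp 0 2 2
    ndF0q0 ndF1q2a pcF2 Cut.none Ext.none :=
  certFK0 (fam := false) (s1 := false) (s2 := false) (a := 0) (b := 2) (c := 2) (cn := .pp) (n1 := ndF0q0) (n2 := ndF1q2a) (pc := pcF2) (cut := Cut.none) (xt := Ext.none) (P1 := 0) (W1 := 536870912) (P2 := 0) (W2 := 536870912) (P3 := 67108864) (W3 := 67108864)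
    rfl rfl rfl k0_mm_022_a

noncomputable def f_mm_022_b : ℕ → ℕ → ℕ → ℕ → Bool := onCell 0 536870912 1239849684 370763052 67108864 67108864
    (rowFK 0 false false false .pp 0 2 2 (qsf 0 536870912 1239849684 370763052 2) ndF0q0 ndF1q2b pcF2 Cut.none Ext.none)

def k0_mm_022_b : ∃ t, chk3 f_mm_022_b t 1 1 1 = true :=
  ⟨(l 5), by decide +kernel⟩

theorem c_mm_022_b : CertF 0 536870912 1239849684 370763052 67108864 67108864 false false false .pp 0 2 2
    ndF0q0 ndF1q2b pcF2 Cut.none Ext.none :=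
  certFK0 (fam := false) (s1 := false) (s2 := false) (a := 0) (b := 2) (c := 2) (cn := .pp) (n1 := ndF0q0) (n2 := ndF1q2b) (pc := pcF2) (cut := Cut.none) (xt := Ext.none) (P1 := 0) (W1 := 536870912) (P2 := 1239849684) (W2 := 370763052) (P3 := 67108864) (W3 := 67108864)
    rfl rfl rfl k0_mm_022_b

noncomputable def f_mm_023 : ℕ → ℕ → ℕ → ℕ → Bool := onCell 0 536870912 1610612736 536870912 67108864 67108864
    (rowFK 0 false false false .up 0 2 3 (qsf 0 536870912 1610612736 536870912 2) ndF0q0 ndF1q3 pcF2 Cut.none Ext.none)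

def k0_mm_023 : ∃ t, chk3 f_mm_023 t 1 1 1 = true :=
  ⟨(l 5), by decide +kernel⟩

theorem c_mm_023 : CertF 0 536870912 1610612736 536870912 67108864 67108864 false false false .up 0 2 3
    ndF0q0 ndF1q3 pcF2 Cut.none Ext.none :=
  certFK0 (fam := false) (s1 := false) (s2 := false) (a := 0) (b := 2) (c := 3) (cn := .up) (n1 := ndF0q0) (n2 := ndF1q3) (pc := pcF2) (cut := Cut.none) (xt := Ext.none) (P1 := 0) (W1 := 536870912) (P2 := 1610612736) (W2 := 536870912) (P3 := 67108864) (W3 := 67108864)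
    rfl rfl rfl k0_mm_023

noncomputable def f_mm_033 : ℕ → ℕ → ℕ → ℕ → Bool := onCell 0 536870912 1610612736 536870912 67108864 67108864
    (rowFK 0 false false false .pnn 0 3 3 (qsf 0 536870912 1610612736 536870912 3) ndF0q0 ndF1q3 pcF3 Cut.none Ext.none)

def k0_mm_033 : ∃ t, chk3 f_mm_033 t 1 1 1 = true :=
  ⟨(l 5), by decide +kernel⟩

theorem c_mm_033 : CertF 0 536870912 1610612736 536870912 67108864 67108864 false false false .pnn 0 3 3
    ndF0q0 ndF1q3 pcF3 Cut.none Ext.none :=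
  certFK0 (fam := false) (s1 := false) (s2 := false) (a := 0) (b := 3) (c := 3) (cn := .pnn) (n1 := ndF0q0) (n2 := ndF1q3) (pc := pcF3) (cut := Cut.none) (xt := Ext.none) (P1 := 0) (W1 := 536870912) (P2 := 1610612736) (W2 := 536870912) (P3 := 67108864) (W3 := 67108864)
    rfl rfl rfl k0_mm_033

noncomputable def f_mm_101 : ℕ → ℕ → ℕ → ℕ → Bool := onCell 536870912 536870912 536870912 536870912 67108864 67108864
    (rowFK 0 false false false .npn 1 0 1 (qsf 536870912 536870912 536870912 536870912 0) ndF0q1 ndF1q1 pcF0 Cut.none Ext.none)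

def k0_mm_101 : ∃ t, chk3 f_mm_101 t 1 1 1 = true :=
  ⟨(l 3), by decide +kernel⟩

theorem c_mm_101 : CertF 536870912 536870912 536870912 536870912 67108864 67108864 false false false .npn 1 0 1
    ndF0q1 ndF1q1 pcF0 Cut.none Ext.none :=
  certFK0 (fam := false) (s1 := false) (s2 := false) (a := 1) (b := 0) (c := 1) (cn := .npn) (n1 := ndF0q1) (n2 := ndF1q1) (pc := pcF0) (cut := Cut.none) (xt := Ext.none) (P1 := 536870912) (W1 := 536870912) (P2 := 536870912) (W2 := 536870912) (P3 := 67108864) (W3 := 67108864)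
    rfl rfl rfl k0_mm_101

noncomputable def f_mm_102_a : ℕ → ℕ → ℕ → ℕ → Bool := onCell 536870912 536870912 0 536870912 67108864 67108864
    (rowFK 0 false false false .npp 1 0 2 (qsf 536870912 536870912 0 536870912 0) ndF0q1 ndF1q2a pcF0 Cut.none Ext.none)

def k0_mm_102_a : ∃ t, chk3 f_mm_102_a t 1 1 1 = true :=
  ⟨(l 3), by decide +kernel⟩

theorem c_mm_102_a : CertF 536870912 536870912 0 536870912 67108864 67108864 false false false .npp 1 0 2
    ndF0q1 ndF1q2a pcF0 Cut.none Ext.none :=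
  certFK0 (fam := false) (s1 := false) (s2 := false) (a := 1) (b := 0) (c := 2) (cn := .npp) (n1 := ndF0q1) (n2 := ndF1q2a) (pc := pcF0) (cut := Cut.none) (xt := Ext.none) (P1 := 536870912) (W1 := 536870912) (P2 := 0) (W2 := 536870912) (P3 := 67108864) (W3 := 67108864)
    rfl rfl rfl k0_mm_102_a

noncomputable def f_mm_102_b : ℕ → ℕ → ℕ → ℕ → Bool := onCell 536870912 536870912 1239849684 370763052 67108864 67108864
    (rowFK 0 false false false .npp 1 0 2 (qsf 536870912 536870912 1239849684 370763052 0) ndF0q1 ndF1q2b pcF0 Cut.none Ext.none)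

def k0_mm_102_b : ∃ t, chk3 f_mm_102_b t 1 1 1 = true :=
  ⟨(l 5), by decide +kernel⟩

theorem c_mm_102_b : CertF 536870912 536870912 1239849684 370763052 67108864 67108864 false false false .npp 1 0 2
    ndF0q1 ndF1q2b pcF0 Cut.none Ext.none :=
  certFK0 (fam := false) (s1 := false) (s2 := false) (a := 1) (b := 0) (c := 2) (cn := .npp) (n1 := ndF0q1) (n2 := ndF1q2b) (pc := pcF0) (cut := Cut.none) (xt := Ext.none) (P1 := 536870912) (W1 := 536870912) (P2 := 1239849684) (W2 := 370763052) (P3 := 67108864) (W3 := 67108864)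
    rfl rfl rfl k0_mm_102_b

noncomputable def f_mm_112_a : ℕ → ℕ → ℕ → ℕ → Bool := onCell 536870912 536870912 0 536870912 67108864 67108864
    (rowFK 0 false false false .dn 1 1 2 (qsf 536870912 536870912 0 536870912 1) ndF0q1 ndF1q2a pcF1 Cut.none Ext.none)

def k0_mm_112_a : ∃ t, chk3 f_mm_112_a t 1 1 1 = true :=
  ⟨(l 3), by decide +kernel⟩

theorem c_mm_112_a : CertF 536870912 536870912 0 536870912 67108864 67108864 false false false .dn 1 1 2
    ndF0q1 ndF1q2a pcF1 Cut.none Ext.none :=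
  certFK0 (fam := false) (s1 := false) (s2 := false) (a := 1) (b := 1) (c := 2) (cn := .dn) (n1 := ndF0q1) (n2 := ndF1q2a) (pc := pcF1) (cut := Cut.none) (xt := Ext.none) (P1 := 536870912) (W1 := 536870912) (P2 := 0) (W2 := 536870912) (P3 := 67108864) (W3 := 67108864)
    rfl rfl rfl k0_mm_112_a

noncomputable def f_mm_112_b : ℕ → ℕ → ℕ → ℕ → Bool := onCell 536870912 536870912 1239849684 370763052 67108864 67108864
    (rowFK 0 false false false .dn 1 1 2 (qsf 536870912 536870912 1239849684 370763052 1) ndF0q1 ndF1q2b pcF1 Cut.none Ext.none)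

def k0_mm_112_b : ∃ t, chk3 f_mm_112_b t 1 1 1 = true :=
  ⟨(l 5), by decide +kernel⟩

theorem c_mm_112_b : CertF 536870912 536870912 1239849684 370763052 67108864 67108864 false false false .dn 1 1 2
    ndF0q1 ndF1q2b pcF1 Cut.none Ext.none :=
  certFK0 (fam := false) (s1 := false) (s2 := false) (a := 1) (b := 1) (c := 2) (cn := .dn) (n1 := ndF0q1) (n2 := ndF1q2b) (pc := pcF1) (cut := Cut.none) (xt := Ext.none) (P1 := 536870912) (W1 := 536870912) (P2 := 1239849684) (W2 := 370763052) (P3 := 67108864) (W3 := 67108864)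
    rfl rfl rfl k0_mm_112_b

noncomputable def f_mm_113 : ℕ → ℕ → ℕ → ℕ → Bool := onCell 536870912 536870912 1610612736 536870912 67108864 67108864
    (rowFK 0 false false false .nn 1 1 3 (qsf 536870912 536870912 1610612736 536870912 1) ndF0q1 ndF1q3 pcF1 Cut.none Ext.none)

def k0_mm_113 : ∃ t, chk3 f_mm_113 t 1 1 1 = true :=
  ⟨(l 5), by decide +kernel⟩

theorem c_mm_113 : CertF 536870912 536870912 1610612736 536870912 67108864 67108864 false false false .nn 1 1 3
    ndF0q1 ndF1q3 pcF1 Cut.none Ext.none :=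
  certFK0 (fam := false) (s1 := false) (s2 := false) (a := 1) (b := 1) (c := 3) (cn := .nn) (n1 := ndF0q1) (n2 := ndF1q3) (pc := pcF1) (cut := Cut.none) (xt := Ext.none) (P1 := 536870912) (W1 := 536870912) (P2 := 1610612736) (W2 := 536870912) (P3 := 67108864) (W3 := 67108864)
    rfl rfl rfl k0_mm_113

noncomputable def f_mm_123 : ℕ → ℕ → ℕ → ℕ → Bool := onCell 536870912 536870912 1610612736 536870912 67108864 67108864
    (rowFK 0 false false false .npn 1 2 3 (qsf 536870912 536870912 1610612736 536870912 2) ndF0q1 ndF1q3 pcF2 Cut.none Ext.none)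

def k0_mm_123 : ∃ t, chk3 f_mm_123 t 1 1 1 = true :=
  ⟨(l 5), by decide +kernel⟩

theorem c_mm_123 : CertF 536870912 536870912 1610612736 536870912 67108864 67108864 false false false .npn 1 2 3
    ndF0q1 ndF1q3 pcF2 Cut.none Ext.none :=
  certFK0 (fam := false) (s1 := false) (s2 := false) (a := 1) (b := 2) (c := 3) (cn := .npn) (n1 := ndF0q1) (n2 := ndF1q3) (pc := pcF2) (cut := Cut.none) (xt := Ext.none) (P1 := 536870912) (W1 := 536870912) (P2 := 1610612736) (W2 := 536870912) (P3 := 67108864) (W3 := 67108864)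
    rfl rfl rfl k0_mm_123

noncomputable def f_mm_133 : ℕ → ℕ → ℕ → ℕ → Bool := onCell 536870912 536870912 1610612736 536870912 67108864 67108864
    (rowFK 0 false false false .dn 1 3 3 (qsf 536870912 536870912 1610612736 536870912 3) ndF0q1 ndF1q3 pcF3 Cut.none Ext.none)

def k0_mm_133 : ∃ t, chk3 f_mm_133 t 1 1 1 = true :=
  ⟨(l 5), by decide +kernel⟩

theorem c_mm_133 : CertF 536870912 536870912 1610612736 536870912 67108864 67108864 false false false .dn 1 3 3
    ndF0q1 ndF1q3 pcF3 Cut.none Ext.none :=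
  certFK0 (fam := false) (s1 := false) (s2 := false) (a := 1) (b := 3) (c := 3) (cn := .dn) (n1 := ndF0q1) (n2 := ndF1q3) (pc := pcF3) (cut := Cut.none) (xt := Ext.none) (P1 := 536870912) (W1 := 536870912) (P2 := 1610612736) (W2 := 536870912) (P3 := 67108864) (W3 := 67108864)
    rfl rfl rfl k0_mm_133

noncomputable def f_mm_202_a : ℕ → ℕ → ℕ → ℕ → Bool := onCell 0 536870912 0 536870912 67108864 67108864
    (rowFK 0 false false false .pp 2 0 2 (qsf 0 536870912 0 536870912 0) ndF0q2 ndF1q2a pcF0 Cut.none Ext.none)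

def k0_mm_202_a : ∃ t, chk3 f_mm_202_a t 1 1 1 = true :=
  ⟨(l 3), by decide +kernel⟩

theorem c_mm_202_a : CertF 0 536870912 0 536870912 67108864 67108864 false false false .pp 2 0 2
    ndF0q2 ndF1q2a pcF0 Cut.none Ext.none :=
  certFK0 (fam := false) (s1 := false) (s2 := false) (a := 2) (b := 0) (c := 2) (cn := .pp) (n1 := ndF0q2) (n2 := ndF1q2a) (pc := pcF0) (cut := Cut.none) (xt := Ext.none) (P1 := 0) (W1 := 536870912) (P2 := 0) (W2 := 536870912) (P3 := 67108864) (W3 := 67108864)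
    rfl rfl rfl k0_mm_202_a

noncomputable def f_mm_202_b : ℕ → ℕ → ℕ → ℕ → Bool := onCell 0 536870912 1239849684 370763052 67108864 67108864
    (rowFK 0 false false false .pp 2 0 2 (qsf 0 536870912 1239849684 370763052 0) ndF0q2 ndF1q2b pcF0 Cut.none Ext.none)

def k0_mm_202_b : ∃ t, chk3 f_mm_202_b t 1 1 1 = true :=
  ⟨(l 3), by decide +kernel⟩

theorem c_mm_202_b : CertF 0 536870912 1239849684 370763052 67108864 67108864 false false false .pp 2 0 2
    ndF0q2 ndF1q2b pcF0 Cut.none Ext.none :=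
  certFK0 (fam := false) (s1 := false) (s2 := false) (a := 2) (b := 0) (c := 2) (cn := .pp) (n1 := ndF0q2) (n2 := ndF1q2b) (pc := pcF0) (cut := Cut.none) (xt := Ext.none) (P1 := 0) (W1 := 536870912) (P2 := 1239849684) (W2 := 370763052) (P3 := 67108864) (W3 := 67108864)
    rfl rfl rfl k0_mm_202_b

noncomputable def f_mm_203 : ℕ → ℕ → ℕ → ℕ → Bool := onCell 0 536870912 0 536870912 67108864 67108864
    (rowFK 1 false false false .up 2 0 3 (qsf 0 536870912 1610612736 536870912 0) ndF0q2 ndF1q3 pcF0 Cut.none Ext.none)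

def k0_mm_203 : ∃ t, chk3 f_mm_203 t 1 1 1 = true :=
  ⟨(l 3), by decide +kernel⟩

theorem c_mm_203 : CertF 0 536870912 1610612736 536870912 67108864 67108864 false false false .up 2 0 3
    ndF0q2 ndF1q3 pcF0 Cut.none Ext.none :=
  certFK1 (fam := false) (s1 := false) (s2 := false) (a := 2) (b := 0) (c := 3) (cn := .up) (n1 := ndF0q2) (n2 := ndF1q3) (pc := pcF0) (cut := Cut.none) (xt := Ext.none) (P1 := 0) (W1 := 536870912) (P2 := 1610612736) (W2 := 536870912) (P3 := 67108864) (W3 := 67108864)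
    rfl rfl rfl (fun _ => rfl) k0_mm_203

noncomputable def f_mm_213 : ℕ → ℕ → ℕ → ℕ → Bool := onCell 0 536870912 1610612736 536870912 67108864 67108864
    (rowFK 0 false false false .pnn 2 1 3 (qsf 0 536870912 1610612736 536870912 1) ndF0q2 ndF1q3 pcF1 Cut.none Ext.none)

def k0_mm_213 : ∃ t, chk3 f_mm_213 t 1 1 1 = true :=
  ⟨(a (l 3) (l 5)), by decide +kernel⟩

theorem c_mm_213 : CertF 0 536870912 1610612736 536870912 67108864 67108864 false false false .pnn 2 1 3
    ndF0q2 ndF1q3 pcF1 Cut.none Ext.none :=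
  certFK0 (fam := false) (s1 := false) (s2 := false) (a := 2) (b := 1) (c := 3) (cn := .pnn) (n1 := ndF0q2) (n2 := ndF1q3) (pc := pcF1) (cut := Cut.none) (xt := Ext.none) (P1 := 0) (W1 := 536870912) (P2 := 1610612736) (W2 := 536870912) (P3 := 67108864) (W3 := 67108864)
    rfl rfl rfl k0_mm_213

end Pool.Agent.Strip051.G.I1_16_1_8.Tab.C.FB01

namespace Pool.Agent.Strip051.G.I1_16_1_8.Tab.C.FB02

open Pool.Agent.Strip051.PB Pool.Agent.Strip051.PB.T
open Pool.Agent.Strip051.G.I1_16_1_8.Tab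

noncomputable def f_pp_001 : ℕ → ℕ → ℕ → ℕ → Bool := onCell 0 536870912 0 536870912 67108864 67108864
    (rowFK 1 false true true .up 0 0 1 (qsf 0 536870912 536870912 536870912 0) ndF0q0 ndF2q1 pcF0 Cut.none Ext.none)

def k0_pp_001 : ∃ t, chk3 f_pp_001 t 1 1 1 = true :=
  ⟨(l 3), by decide +kernel⟩

theorem c_pp_001 : CertF 0 536870912 536870912 536870912 67108864 67108864 false true true .up 0 0 1
    ndF0q0 ndF2q1 pcF0 Cut.none Ext.none :=
  certFK1 (fam := false) (s1 := true) (s2 := true) (a := 0) (b := 0) (c := 1) (cn := .up) (n1 := ndF0q0) (n2 := ndF2q1) (pc := pcF0) (cut := Cut.none) (xt := Ext.none) (P1 := 0) (W1 := 536870912) (P2 := 536870912) (W2 := 536870912) (P3 := 67108864) (W3 := 67108864)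
    rfl rfl rfl (fun _ => rfl) k0_pp_001

noncomputable def cut_pp_011 : Cut := Cut.of [[⟨0, 0, 0, 67108864⟩, ⟨1, 1, 0, 67108864⟩, ⟨2, 1, 0, 67108864⟩]]

noncomputable def f_pp_011 : ℕ → ℕ → ℕ → ℕ → Bool := onCell 0 536870912 536870912 536870912 67108864 67108864
    (rowFK 0 false true true .pnn 0 1 1 (qsf 0 536870912 536870912 536870912 1) ndF0q0 ndF2q1 pcF1 cut_pp_011 Ext.none)

def k0_pp_011 : ∃ t, chk3 f_pp_011 t 1 1 1 = true :=
  ⟨(a (b (l 3) (a (b (l 3) (b (l 3) (b (l 3) (a (a (a (l 6) (l 3)) (l 3)) (l 3))))) (l 3))) (l 3)), by decide +kernel⟩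

theorem c_pp_011 : CertF 0 536870912 536870912 536870912 67108864 67108864 false true true .pnn 0 1 1
    ndF0q0 ndF2q1 pcF1 cut_pp_011 Ext.none :=
  certFK0 (fam := false) (s1 := true) (s2 := true) (a := 0) (b := 1) (c := 1) (cn := .pnn) (n1 := ndF0q0) (n2 := ndF2q1) (pc := pcF1) (cut := cut_pp_011) (xt := Ext.none) (P1 := 0) (W1 := 536870912) (P2 := 536870912) (W2 := 536870912) (P3 := 67108864) (W3 := 67108864)
    rfl rfl rfl k0_pp_011

noncomputable def cut_pp_012_a : Cut := Cut.of [[⟨0, 0, 0, 67108864⟩, ⟨1, 1, 0, 67108864⟩, ⟨2, 1, 0, 67108864⟩], [⟨0, 0, 1, 33554432⟩, ⟨1, 1, 0, 16777216⟩, ⟨2, 1, 1, 33554432⟩, ⟨0, 0, 0, 150994944⟩, ⟨0, 1, 0, 1023410176⟩, ⟨2, 1, 0, 150994944⟩, ⟨2, 2, 0, 1023410176⟩]]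

noncomputable def f_pp_012_a : ℕ → ℕ → ℕ → ℕ → Bool := onCell 536870912 536870912 0 536870912 67108864 67108864
    (rowFK 2 false true true .pnp 0 1 2 (qsf 0 536870912 0 536870912 1) ndF0q0 ndF2q2a pcF1 cut_pp_012_a Ext.none)

def k0_pp_012_a : ∃ t, chk3 f_pp_012_a t 2 1 1 = true :=
  ⟨(l 3), by decide +kernel⟩

def k1_pp_012_a : ∃ t, chk3 f_pp_012_a t 6 1 1 = true :=
  ⟨(l 3), by decide +kernel⟩

def k2_pp_012_a : ∃ t, chk3 f_pp_012_a t 14 1 1 = true :=
  ⟨(l 3), by decide +kernel⟩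

def k3_pp_012_a : ∃ t, chk3 f_pp_012_a t 30 1 1 = true :=
  ⟨(l 3), by decide +kernel⟩

def k4_pp_012_a : ∃ t, chk3 f_pp_012_a t 62 1 1 = true :=
  ⟨(l 3), by decide +kernel⟩

def k5_pp_012_a : ∃ t, chk3 f_pp_012_a t 126 1 1 = true :=
  ⟨(l 3), by decide +kernel⟩

def k6_pp_012_a : ∃ t, chk3 f_pp_012_a t 127 2 1 = true :=
  ⟨(a (l 3) (a (l 3) (b (c (b (l 17642128) (l 17617768)) (b (b (l 17137904) (l 9295178327)) (c (l 17324160) (b (l 8758257767) (b (l 17123848) (l 17107928)))))) (b (c (l 17564288) (b (b (l 17105664) (l 17064320)) (c (l 17232544) (b (l 16998064) (l 14))))) (c (b (l 17497712) (l 17410072)) (c (b (b (l 17184528) (l 17145680)) (b (l 17058752) (l 14))) (l 14))))))), by decide +kernel⟩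

def k7_pp_012_a : ∃ t, chk3 f_pp_012_a t 127 3 1 = true :=
  ⟨(a (l 3) (b (a (l 3) (a (l 3) (b (c (b (c (l 17471368) (b (l 17239064) (l 17179056))) (c (l 17252768) (l 14))) (l 14)) (a (l 3) (a (l 3) (a (l 3) (a (b (l 3) (l 3)) (c (b (c (b (l 17219576) (l 14)) (l 14)) (l 14)) (c (b (l 14) (c (l 14) (b (b (l 14) (b (l 14) (b (l 14) (l 16752136)))) (b (b (b (l 16752312) (l 16752496)) (b (l 16752688) (l 16752872))) (b (b (l 16753072) (l 16753264)) (b (l 16753472) (l 16753672))))))) (b (b (b (l 14) (c (l 14) (c (l 14) (b (l 14126355319) (l 16746904))))) (b (c (l 14) (b (c (l 13589486887) (l 16747208)) (l 13589487527))) (b (c (l 14) (l 13589488087)) (b (l 8220781671) (l 8220782007))))) (b (b (b (b (l 16750632) (l 16750800)) (b (l 16750976) (l 16749848))) (b (b (l 16750032) (l 16750216)) (b (l 16750408) (l 16750600)))) (b (b (b (l 16750800) (l 16751000)) (b (l 16751208) (l 16751416))) (c (b (l 13589496119) (l 13589496887)) (b (l 16751224) (l 16751672))))))))))))))) (b (a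 (l 3) (a (l 3) (a (l 3) (a (l 3) (a (l 3) (b (a (l 3) (b (c (l 14) (b (c (c (b (b (l 16755448) (l 16754992)) (b (l 16755200) (l 16755408))) (b (b (l 16753880) (l 16754096)) (b (l 16754312) (l 16754536)))) (b (c (l 13589497847) (l 16752136)) (c (l 13589498759) (l 16752616)))) (c (b (b (l 7147051607) (l 7147052055)) (b (l 7147052503) (l 7147052967))) (b (c (l 16754600) (l 16753112)) (c (l 16755112) (l 16753632)))))) (b (b (b (c (c (l 14) (c (l 14) (c (l 14) (l 16757112)))) (c (l 16756760) (l 16754488))) (l 6)) (l 6)) (l 6)))) (l 6))))))) (l 6)))), by decide +kernel⟩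

theorem s8_pp_012_a : ∃ t, chk3 f_pp_012_a t 127 1 1 = true := ex3_b k6_pp_012_a k7_pp_012_a

theorem s9_pp_012_a : ∃ t, chk3 f_pp_012_a t 63 1 1 = true := ex3_a k5_pp_012_a s8_pp_012_a

theorem s10_pp_012_a : ∃ t, chk3 f_pp_012_a t 31 1 1 = true := ex3_a k4_pp_012_a s9_pp_012_a

theorem s11_pp_012_a : ∃ t, chk3 f_pp_012_a t 15 1 1 = true := ex3_a k3_pp_012_a s10_pp_012_a

theorem s12_pp_012_a : ∃ t, chk3 f_pp_012_a t 7 1 1 = true := ex3_a k2_pp_012_a s11_pp_012_a

theorem s13_pp_012_a : ∃ t, chk3 f_pp_012_a t 3 1 1 = true := ex3_a k1_pp_012_a s12_pp_012_a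

theorem s14_pp_012_a : ∃ t, chk3 f_pp_012_a t 1 1 1 = true := ex3_a k0_pp_012_a s13_pp_012_a

theorem c_pp_012_a : CertF 0 536870912 0 536870912 67108864 67108864 false true true .pnp 0 1 2
    ndF0q0 ndF2q2a pcF1 cut_pp_012_a Ext.none :=
  certFK2 (fam := false) (s1 := true) (s2 := true) (a := 0) (b := 1) (c := 2) (cn := .pnp) (n1 := ndF0q0) (n2 := ndF2q2a) (pc := pcF1) (cut := cut_pp_012_a) (xt := Ext.none) (P1 := 0) (W1 := 536870912) (P2 := 0) (W2 := 536870912) (P3 := 67108864) (W3 := 67108864)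
    rfl rfl rfl (fun _ => rfl) s14_pp_012_a

noncomputable def cut_pp_012_b : Cut := Cut.of [[⟨0, 0, 0, 67108864⟩, ⟨1, 1, 0, 67108864⟩, ⟨2, 1, 0, 67108864⟩], [⟨0, 0, 1, 33554432⟩, ⟨1, 1, 0, 16777216⟩, ⟨2, 1, 1, 33554432⟩, ⟨0, 0, 0, 150994944⟩, ⟨0, 1, 0, 1023410176⟩, ⟨2, 1, 0, 150994944⟩, ⟨2, 2, 0, 1023410176⟩]]

noncomputable def f_pp_012_b : ℕ → ℕ → ℕ → ℕ → Bool := onCell 536870912 536870912 1239849684 370763052 67108864 67108864
    (rowFK 2 false true true .pnp 0 1 2 (qsf 0 536870912 1239849684 370763052 1) ndF0q0 ndF2q2b pcF1 cut_pp_012_b Ext.none)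

def k0_pp_012_b : ∃ t, chk3 f_pp_012_b t 1 1 1 = true :=
  ⟨(a (l 3) (a (l 3) (a (l 3) (a (l 3) (a (l 3) (b (a (l 3) (a (l 3) (b (b (c (l 17738504) (c (l 17440888) (b (b (l 7684605879) (l 17280392)) (l 17372216)))) (l 17546632)) (b (l 17843696) (l 17909168))))) (b (l 88753645079) (l 17870104)))))))), by decide +kernel⟩

theorem c_pp_012_b : CertF 0 536870912 1239849684 370763052 67108864 67108864 false true true .pnp 0 1 2
    ndF0q0 ndF2q2b pcF1 cut_pp_012_b Ext.none :=
  certFK2 (fam := false) (s1 := true) (s2 := true) (a := 0) (b := 1) (c := 2) (cn := .pnp) (n1 := ndF0q0) (n2 := ndF2q2b) (pc := pcF1) (cut := cut_pp_012_b) (xt := Ext.none) (P1 := 0) (W1 := 536870912) (P2 := 1239849684) (W2 := 370763052) (P3 := 67108864) (W3 := 67108864)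
    rfl rfl rfl (fun _ => rfl) k0_pp_012_b

noncomputable def cut_pp_022_a : Cut := Cut.of [[⟨0, 0, 0, 67108864⟩, ⟨1, 1, 0, 67108864⟩, ⟨2, 1, 0, 67108864⟩], [⟨0, 0, 1, 33554432⟩, ⟨1, 1, 0, 16777216⟩, ⟨2, 1, 1, 33554432⟩, ⟨0, 0, 0, 150994944⟩, ⟨0, 1, 0, 1023410176⟩, ⟨2, 1, 0, 150994944⟩, ⟨2, 2, 0, 1023410176⟩]]

noncomputable def f_pp_022_a : ℕ → ℕ → ℕ → ℕ → Bool := onCell 1073741824 536870912 0 536870912 67108864 67108864
    (rowFK 2 false true true .pp 0 2 2 (qsf 0 536870912 0 536870912 2) ndF0q0 ndF2q2a pcF2 cut_pp_022_a Ext.none)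

def k0_pp_022_a : ∃ t, chk3 f_pp_022_a t 8 2 1 = true :=
  ⟨(a (b (c (a (b (l 17686256) (l 17661432)) (l 17748112)) (a (b (a (a (a (b (l 17159272) (l 17109168)) (b (l 17266792) (l 17258504))) (l 17203320)) (l 17275024)) (b (a (a (b (l 17140992) (l 17130344)) (l 17245176)) (l 17253016)) (a (a (b (l 17096328) (l 17059776)) (l 17218152)) (l 17224680)))) (b (l 17295104) (b (l 17271256) (l 17240360))))) (b (c (a (b (l 17624800) (l 17587112)) (l 17679000)) (a (a (c (b (l 17285800) (b (l 17250720) (l 17220104))) (b (a (b (l 17062904) (l 16998224)) (l 17050160)) (b (l 14) (l 14)))) (b (l 17058728) (b (l 17101976) (l 17024520)))) (b (l 17049480) (b (l 17109864) (l 17008576))))) (c (a (b (c (l 17657592) (l 17412296)) (a (c (l 17575680) (l 17174904)) (l 17479112))) (b (l 17603896) (l 17485592))) (a (c (b (a (b (l 17184568) (a (l 17142336) (l 17144424))) (l 17170304)) (a (c (b (l 17157656) (l 14)) (l 14)) (b (l 17097448) (l 17016952)))) (a (l 14) (b (b (l 16942168) (l 16847936))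 (b (l 16766136) (l 16737096))))) (b (b (l 16900920) (l 16764840)) (b (l 16703832) (a (l 16825152) (l 16880384)))))))) (b (a (a (b (l 17570232) (l 17368168)) (b (l 17556288) (c (l 17835512) (l 17290376)))) (a (b (l 17628856) (l 17382864)) (b (l 17659808) (l 17475840)))) (a (b (c (a (l 17736832) (l 17775488)) (a (b (l 17211736) (l 17143112)) (b (l 17202136) (a (l 17149808) (l 17154632))))) (c (a (l 17431384) (b (l 17696224) (l 17614432))) (a (b (l 16962752) (l 16788368)) (b (a (l 17050208) (l 17032056)) (a (l 16892104) (l 16849952)))))) (b (c (l 17835296) (a (b (l 17237280) (l 17099552)) (b (l 17252456) (l 17174744)))) (a (c (l 17485696) (b (l 16848264) (a (l 16871344) (l 16893168)))) (c (l 17672032) (b (l 16982648) (l 16748600)))))))), by decide +kernel⟩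

def k1_pp_022_a : ∃ t, chk3 f_pp_022_a t 9 2 1 = true :=
  ⟨(b (a (b (a (l 17644464) (l 17777104)) (c (l 18022304) (a (l 17313280) (l 17401136)))) (c (l 18224768) (b (l 17495320) (a (l 17452016) (l 17507904))))) (a (b (c (a (l 17921216) (l 18011464)) (a (b (l 17193904) (a (l 17188968) (l 17204784))) (b (l 17318408) (a (l 17222208) (l 17241240))))) (c (a (b (l 17838136) (l 17729800)) (b (l 17926840) (l 17836912))) (a (b (a (l 17035200) (l 17047584)) (a (l 16774688) (l 16760848))) (b (a (l 17040776) (l 17014768)) (a (l 16728048) (b (l 16977512) (l 16834344))))))) (b (c (l 17984440) (a (b (l 17364512) (c (l 17475408) (l 16965912))) (b (l 17395192) (a (l 17223896) (l 17144280))))) (c (b (l 18025280) (a (l 17927528) (a (l 17998280) (l 18039032)))) (b (c (a (l 17365312) (l 17400144)) (a (a (l 16922672) (l 16893216)) (a (b (l 16992048) (l 16905664)) (b (l 17009136) (l 16815984))))) (a (a (b (l 16929072) (l 16783040)) (b (l 16861536) (c (l 17172368) (l 16672616)))) (c (a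 (b (l 17292032) (l 17153928)) (b (l 17297608) (a (b (l 17240824) (l 17122736)) (l 17220888)))) (b (a (l 16740080) (b (l 16697336) (l 16576864))) (a (l 16585920) (a (b (l 16616112) (l 16578992)) (l 16586672))))))))))), by decide +kernel⟩

def k2_pp_022_a : ∃ t, chk3 f_pp_022_a t 5 2 1 = true :=
  ⟨(a (b (c (a (l 18415128) (l 18532712)) (a (a (b (l 17629352) (l 17547592)) (b (l 17702104) (a (l 17599200) (l 17653128)))) (l 70365085815))) (a (b (c (a (l 18297256) (l 18359696)) (a (c (b (l 17685472) (l 17597016)) (b (l 17134816) (a (l 16989424) (b (l 17190112) (a (l 17119288) (l 17126432)))))) (b (b (l 17323480) (l 41373567607)) (l 17228856)))) (a (a (c (l 93451277719) (b (c (l 17294944) (b (a (l 17022952) (l 16843568)) (a (b (l 16957472) (a (l 16906480) (l 16847128))) (b (l 16901880) (l 1))))) (c (l 17262056) (b (a (b (a (l 16726848) (l 1)) (l 1)) (l 1)) (l 1))))) (c (l 18141328) (b (c (l 17479960) (b (l 16936936) (l 1))) (l 1)))) (l 1))) (l 1))) (l 1)), by decide +kernel⟩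

def k3_pp_022_a : ∃ t, chk3 f_pp_022_a t 8 12 1 = true :=
  ⟨(a (a (b (c (b (a (l 17149880) (l 17407792)) (c (l 17484632) (a (a (l 17095560) (l 17184984)) (l 17194200)))) (a (l 14) (b (l 16727080) (l 16728504)))) (c (c (a (b (l 17407856) (l 17295360)) (l 17341848)) (a (l 14) (b (l 17009400) (b (l 17002248) (l 16907384))))) (b (a (l 14) (a (l 16724728) (l 16715992))) (b (a (a (l 14) (l 16734360)) (l 16731840)) (a (a (a (l 14) (l 16743984)) (l 16734872)) (l 16732448)))))) (a (b (c (l 17154448) (b (l 16785288) (l 16709344))) (c (c (l 17438200) (b (l 17123296) (l 16915584))) (b (l 16702976) (l 16725320)))) (c (b (l 17267520) (c (l 17473432) (b (l 17134520) (l 17004352)))) (b (l 16695448) (b (l 16685792) (l 16687432)))))) (b (a (c (a (l 17340344) (a (l 17469440) (l 17464952))) (a (l 16676928) (a (l 16721024) (l 16716144)))) (c (a (l 17322448) (l 17420792)) (a (b (l 16748264) (l 16648064)) (b (l 16765968) (l 16639272))))) (b (a (a (c (l 17266008) (l 16668776)) (c (a (l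 17349632) (l 17342888)) (a (l 16656144) (l 16647392)))) (c (a (l 17197192) (l 17291440)) (a (l 16654640) (l 16636864)))) (a (a (l 16731728) (a (l 16749368) (l 16726912))) (a (a (l 16726104) (l 16725920)) (c (c (l 17582064) (l 16984072)) (l 16639568))))))), by decide +kernel⟩

def k4_pp_022_a : ∃ t, chk3 f_pp_022_a t 8 26 1 = true :=
  ⟨(b (a (a (a (c (c (c (l 17337184) (l 14)) (l 14)) (a (a (c (l 14) (c (l 14) (b (a (b (l 14) (a (c (l 14) (a (b (l 14) (l 16746120)) (l 16745504))) (l 16745016))) (l 16743232)) (a (a (a (c (l 14) (b (b (l 16746256) (l 16746400)) (b (l 16746552) (l 16746704)))) (b (l 16746096) (l 16746384))) (b (l 16745304) (l 16745600))) (l 16743800))))) (b (l 16747096) (l 16747632))) (b (l 16735416) (l 16741248)))) (a (a (l 16736408) (l 16732088)) (l 16725632))) (a (a (l 16732800) (l 16703312)) (l 16701104))) (a (a (l 16694840) (a (l 16661432) (l 16673768))) (a (a (l 16665464) (l 16656728)) (a (l 16648248) (l 16641056))))) (a (b (a (a (c (l 14) (a (a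 (c (l 14) (c (a (l 14) (l 16748184)) (a (b (a (a (b (l 16747152) (l 16747312)) (l 16746688)) (l 16745904)) (a (a (b (l 16747464) (l 16747624)) (l 16747008)) (l 16746224))) (l 16744416)))) (l 16748208)) (l 16741888))) (a (l 16740696) (l 16721712))) (a (l 16730024) (l 16713312))) (a (a (c (l 14) (a (c (l 14) (a (a (a (a (c (c (l 14) (b (b (l 14) (l 16748808)) (b (l 16748976) (l 16749136)))) (b (b (l 16747792) (l 16747960)) (b (l 16748128) (l 16748304)))) (b (l 16747904) (l 16748232))) (b (l 16747120) (l 16747456))) (c (l 16748808) (l 16745088))) (l 16742528))) (l 16742576))) (a (l 16741368) (l 16722464))) (a (l 16730896) (l 16714344)))) (a (a (a (l 16701112) (l 16692928)) (a (l 16684792) (l 16676304))) (a (a (a (l 16670496) (l 16666240)) (l 16659560)) (a (l 16661720) (b (l 16643176) (l 16647864))))))), by decide +kernel⟩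

def k5_pp_022_a : ∃ t, chk3 f_pp_022_a t 64 27 1 = true :=
  ⟨(c (b (l 14) (l 14)) (a (a (a (b (b (c (l 14) (a (a (c (b (c (l 14) (b (l 16749304) (l 16749480))) (a (b (l 16750048) (l 16750224)) (l 16749856))) (b (b (l 16748480) (l 16748656)) (a (l 16750352) (l 16748784)))) (b (l 16748576) (l 16748928))) (b (l 16747800) (l 16748160)))) (b (c (l 14) (a (a (a (b (l 16751184) (l 16751376)) (l 16750992)) (l 16749304)) (l 16748536))) (c (a (c (l 14) (a (c (l 14) (b (l 14) (l 16751592))) (l 16751216))) (l 16750944)) (a (a (a (b (l 16751568) (l 16750448)) (l 16751376)) (l 16749680)) (l 16748920))))) (b (c (c (l 14) (a (a (b (c (l 14) (b (l 16751776) (l 16751968))) (c (b (l 14) (l 16753488)) (b (l 16752160) (l 16752352)))) (b (l 16751576) (l 16751952))) (b (l 16750800) (l 16751184)))) (b (a (a (a (b (l 16750648) (l 16750848)) (l 16751768)) (l 16750080)) (l 16749320)) (a (a (a (b (l 16751056) (l 16751264)) (l 16750872)) (l 16750496)) (l 16749736)))) (c (b (c (l 14) (a (a (a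 (b (l 16752912) (l 16753112)) (l 16753376)) (l 16752336)) (l 16751576))) (a (a (a (c (l 14) (b (l 16753320) (l 16753520))) (b (l 16753528) (l 16753728))) (b (l 16753144) (l 16753344))) (l 16752440))) (b (a (a (b (l 16752664) (l 16752880)) (l 16750920)) (l 16750168)) (a (a (b (l 16753104) (l 16752016)) (l 16751360)) (l 16750616)))))) (b (b (b (l 16749944) (l 16750288)) (b (l 16750640) (l 16751016))) (b (b (l 16751400) (l 16751800)) (b (l 16752208) (l 16752640))))) (b (b (c (l 16750536) (l 16743248)) (c (l 16751216) (l 16749264))) (b (b (l 16745720) (l 16746128)) (b (l 16746560) (l 16747000))))) (b (b (l 16743304) (l 16744096)) (b (l 16746248) (c (l 16746656) (l 16745000)))))), by decide +kernel⟩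

def k6_pp_022_a : ∃ t, chk3 f_pp_022_a t 65 27 1 = true :=
  ⟨(a (b (b (l 16736856) (l 16737632)) (b (l 16738456) (l 16741960))) (b (c (l 16732448) (l 16732120)) (b (l 16735528) (l 16736496)))), by decide +kernel⟩

def k7_pp_022_a : ∃ t, chk3 f_pp_022_a t 33 27 1 = true :=
  ⟨(b (b (a (l 16721336) (l 16715424)) (a (l 16722312) (l 16716560))) (b (a (l 16723344) (l 16717752)) (a (c (l 16725592) (l 16723280)) (l 16708520)))), by decide +kernel⟩

def k8_pp_022_a : ∃ t, chk3 f_pp_022_a t 17 27 1 = true :=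
  ⟨(b (a (a (a (l 16703384) (l 16695360)) (a (l 16687376) (c (l 16685344) (l 16678584)))) (a (a (c (l 16677920) (l 16660224)) (a (l 16665064) (l 16660952))) (a (b (l 16654064) (l 16657872)) (b (l 16652664) (l 16657568))))) (b (a (a (l 16701856) (a (l 16669080) (l 16681840))) (a (a (l 16673960) (l 16665640)) (a (l 16662984) (c (l 16662712) (l 16651960))))) (a (a (c (l 16703904) (l 16702640)) (a (l 16691592) (l 16683464))) (a (a (c (l 16675848) (l 16675464)) (b (l 16667184) (l 16669864))) (c (a (l 16663032) (l 16652168)) (a (l 16657664) (l 16651784))))))), by decide +kernel⟩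

def k9_pp_022_a : ∃ t, chk3 f_pp_022_a t 18 12 1 = true :=
  ⟨(b (c (a (a (l 17458024) (l 17496712)) (a (l 17494912) (l 17494584))) (a (a (b (l 16765040) (l 16632944)) (b (l 16766360) (l 16629056))) (b (a (l 16769928) (l 16733776)) (a (l 16627608) (l 16628568))))) (a (c (b (a (l 17324720) (l 17338712)) (c (l 17646056) (a (l 16979520) (l 16893240)))) (b (a (l 16621360) (l 16621584)) (a (l 16629344) (a (l 16628400) (l 16607464))))) (c (c (b (l 17840216) (l 17737512)) (b (a (l 17270800) (l 17277264)) (a (b (l 17164016) (l 16976736)) (a (l 16909672) (b (l 17194256) (l 16982632)))))) (b (a (l 16621728) (l 16608680)) (a (b (l 16605992) (l 16609720)) (b (l 16611048) (a (l 16608944) (l 16608800)))))))), by decide +kernel⟩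

def k10_pp_022_a : ∃ t, chk3 f_pp_022_a t 18 26 1 = true :=
  ⟨(a (a (a (b (l 16638408) (b (l 16643136) (l 16647728))) (b (l 16636832) (b (l 16643064) (l 16647568)))) (b (a (l 16642112) (a (l 16636680) (l 16636680))) (a (b (l 16642968) (l 16636880)) (b (l 16642832) (a (l 16626040) (l 16636416)))))) (b (b (a (a (l 16651184) (l 16632112)) (c (c (l 17663744) (c (l 17171128) (a (l 16839192) (l 16614960)))) (a (l 16612656) (c (l 16612928) (l 16614552))))) (a (a (l 16617584) (l 16620752)) (a (a (l 16619864) (b (l 16616136) (l 16618064))) (c (c (l 17594920) (c (a (b (l 17099288) (l 16981944)) (b (l 17104632) (l 17048088))) (a (l 16615888) (b (l 16615280) (l 16617176))))) (a (c (l 16616608) (l 16615616)) (a (b (l 16614960) (l 16615520)) (b (a (l 16614896) (l 16614856)) (l 1)))))))) (a (b (a (a (l 16621568) (l 16621488)) (a (l 16624024) (b (l 16620208) (l 16622232)))) (a (a (l 16628432) (b (l 16624528) (l 16626648))) (c (c (a (l 17239352) (a (l 17162080) (l 17123688))) (b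 (l 16626256) (a (l 16626880) (a (l 16626760) (b (l 16626152) (l 16627192)))))) (b (c (l 16624088) (l 16625912)) (a (l 16625728) (a (l 16625528) (b (a (l 16624896) (l 16624840)) (l 16625904)))))))) (a (b (c (c (l 17256696) (b (l 16619144) (a (l 16620080) (a (l 16622944) (l 16622472))))) (a (c (l 16623384) (l 14528759495)) (b (l 16619080) (a (b (l 16620544) (l 16621528)) (l 16620960))))) (a (c (c (l 17231864) (b (a (l 16622656) (l 16623352)) (l 16626632))) (b (a (c (l 16623704) (l 16622824)) (a (b (l 16622648) (l 1)) (l 16623120))) (l 16625272))) (l 1))) (a (a (b (b (c (c (l 17522600) (c (l 16943128) (l 16616256))) (b (l 16618416) (l 16619376))) (l 1)) (l 1)) (l 1)) (l 1)))))), by decide +kernel⟩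

def k11_pp_022_a : ∃ t, chk3 f_pp_022_a t 36 54 1 = true :=
  ⟨(a (a (b (l 16652424) (l 16641504)) (b (l 16646920) (c (l 16647024) (l 16640800)))) (a (b (a (l 16641248) (l 16641112)) (a (a (l 16645880) (l 16637928)) (c (l 16638688) (l 16637328)))) (a (b (l 16634408) (b (l 16635056) (c (l 16639912) (l 16635448)))) (b (b (l 16629096) (l 16633936)) (c (c (c (l 17298576) (b (l 16870264) (l 16636048))) (b (l 16633864) (l 16636136))) (b (l 16632920) (a (l 16635192) (c (l 16635384) (l 16634720))))))))), by decide +kernel⟩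

def k12_pp_022_a : ∃ t, chk3 f_pp_022_a t 37 54 1 = true :=
  ⟨(a (a (a (b (b (l 16631568) (a (l 16631136) (b (l 16630472) (l 16631568)))) (b (c (c (c (l 17338792) (a (l 16873528) (a (l 16770312) (b (l 16957816) (a (l 16794024) (l 16836272)))))) (a (l 16633696) (b (l 16633024) (c (l 16634312) (l 16633960))))) (a (l 16632680) (a (l 16632576) (b (l 16631928) (a (l 16631728) (l 16633008)))))) (b (a (c (a (l 16631712) (a (l 16634584) (l 16634736))) (c (l 16634664) (l 16633968))) (c (l 16632480) (l 16632864))) (a (a (c (l 16636840) (b (l 16635176) (l 1))) (l 1)) (l 1))))) (b (c (c (c (l 17436040) (a (l 16900544) (b (l 17083264) (a (l 16910304) (l 16911272))))) (b (l 16629144) (a (l 16631320) (b (l 16630664) (l 16631104))))) (b (l 16628064) (a (l 16630232) (a (l 16628816) (b (l 16629504) (l 16630576)))))) (a (b (c (c (c (l 17343672) (b (a (l 16875000) (l 16875744)) (l 16920616))) (b (c (l 16633120) (l 16632752)) (l 16634048))) (b (a (l 16631856) (a (l 16631808) (l 16631776)))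 (l 16632928))) (l 1)) (l 1)))) (b (a (a (c (c (c (l 17441952) (b (l 17086264) (l 16933184))) (b (l 16629008) (b (l 16630592) (l 1)))) (b (l 16627848) (a (b (l 16628128) (l 1)) (l 16629936)))) (b (c (c (l 17051200) (b (l 16628376) (l 16629440))) (b (l 16627176) (a (l 16626944) (l 16628192)))) (l 1))) (a (b (c (c (l 17220792) (l 16628864)) (c (l 16628032) (l 16627184))) (l 1)) (l 1))) (l 1))) (l 1)), by decide +kernel⟩

def k13_pp_022_a : ∃ t, chk3 f_pp_022_a t 72 55 1 = true :=
  ⟨(b (b (a (l 16650272) (c (l 16639728) (l 16638976))) (c (a (l 16642536) (l 16644800)) (a (l 16641984) (l 16643992)))) (b (a (c (l 16655544) (l 16644464)) (a (l 16646744) (c (l 16644312) (l 16643416)))) (a (c (l 16650232) (l 16649584)) (a (c (l 16647024) (l 16646200)) (a (c (l 16646800) (l 16645888)) (c (l 16648000) (b (l 16645056) (l 16646280)))))))), by decide +kernel⟩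

def k14_pp_022_a : ∃ t, chk3 f_pp_022_a t 146 55 1 = true :=
  ⟨(b (a (b (l 16641424) (c (l 16641680) (l 16640696))) (b (c (l 16639104) (l 16638040)) (a (c (l 16641488) (l 16640408)) (c (l 16641392) (c (l 16640544) (l 16639960)))))) (b (b (a (c (l 16643456) (l 16642440)) (a (c (l 16643256) (l 16642144)) (a (b (c (l 16642856) (l 16641704)) (a (c (l 16643472) (l 16642312)) (c (l 16643440) (l 16642272)))) (b (a (c (l 16642816) (l 16641640)) (c (l 16642792) (l 16641600))) (l 1))))) (a (c (l 16644680) (c (l 16643904) (l 16643376))) (a (a (a (c (l 16644496) (l 16643392)) (b (c (l 16644152) (l 16643040)) (c (l 16644760) (l 16642320)))) (b (a (c (l 16644128) (l 16642992)) (c (l 16644104) (l 16642952))) (l 1))) (l 1)))) (a (b (b (c (c (l 16645328) (l 16645328)) (c (l 16644808) (l 16644272))) (a (c (l 16646216) (l 16645184)) (a (c (c (l 16645976) (l 16645848)) (c (l 16645312) (l 16644760))) (c (l 16646056) (l 16644944))))) (b (a (c (c (l 16646696) (l 16646576)) (c (l 16646048)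 (l 16645520))) (c (l 16646720) (l 16645608))) (a (a (c (c (l 16647328) (l 16647216)) (c (l 16646696) (l 16646168))) (c (l 16647408) (l 16646336))) (l 1)))) (l 1)))), by decide +kernel⟩

def k15_pp_022_a : ∃ t, chk3 f_pp_022_a t 147 55 1 = true :=
  ⟨(b (a (a (b (c (l 16638936) (l 16637768)) (b (c (l 16640664) (l 16639472)) (a (b (c (l 16641560) (l 16640368)) (c (l 16642160) (c (l 16641256) (l 16640648)))) (a (b (c (l 16641520) (l 16640304)) (l 1)) (l 1))))) (b (c (l 16638848) (c (l 16637928) (l 16637312))) (b (a (b (c (l 16640280) (l 16639048)) (c (l 16640872) (l 16639624))) (c (l 16640536) (l 16639264))) (l 1)))) (b (a (b (c (l 16636832) (l 16636208)) (a (b (c (l 16639016) (l 16637736)) (c (l 16639600) (l 16638312))) (c (l 16639272) (l 16637952)))) (a (b (b (c (l 16637776) (l 16635136)) (l 1)) (l 1)) (l 1))) (l 1))) (l 1)), by decide +kernel⟩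

def k16_pp_022_a : ∃ t, chk3 f_pp_022_a t 37 55 1 = true :=
  ⟨(l 1), by decide +kernel⟩

def k17_pp_022_a : ∃ t, chk3 f_pp_022_a t 38 6 1 = true :=
  ⟨(b (c (b (b (l 17810280) (a (l 17662392) (l 17517024))) (b (c (l 17935392) (a (l 17138824) (a (b (l 17385224) (l 17123896)) (l 17274928)))) (c (a (l 17804840) (l 17828240)) (a (a (b (l 17165408) (b (l 17080208) (a (l 17010000) (l 16847880)))) (a (b (l 17175496) (b (l 16942208) (l 16914520))) (b (l 16992776) (l 17130376)))) (a (b (l 17165592) (l 1)) (l 1)))))) (a (b (b (l 16657880) (l 16600448)) (b (b (l 16598984) (a (l 16601824) (l 16601784))) (a (b (l 16605184) (c (l 16609184) (l 9160026567))) (b (a (l 16604992) (a (l 16604928) (b (l 16604016) (l 16605664)))) (a (b (l 16607472) (l 16607872)) (l 16608280)))))) (b (b (c (l 16807120) (l 16588296)) (b (l 16596112) (a (l 16595576) (l 16595624)))) (b (a (b (l 16598592) (a (l 16601640) (b (l 16600768) (l 16602336)))) (b (a (c (l 16598128) (l 16597768)) (l 16598480)) (l 1)))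 (a (b (a (b (l 16603992) (l 1)) (l 1)) (l 1)) (l 1)))))) (b (a (b (a (c (c (l 17648392) (b (c (a (l 17186448) (l 17190328)) (a (b (l 16836568) (a (b (l 16835848) (a (l 16785488) (l 16786064))) (b (l 16753352) (l 1)))) (b (a (b (l 16894920) (l 16867056)) (l 16882088)) (l 1)))) (a (l 16694584) (l 1)))) (b (a (a (l 16612136) (b (l 16611112) (l 16612912))) (a (b (l 16611056) (l 1)) (l 16611944))) (a (l 16615792) (l 1)))) (l 1)) (l 1)) (l 1)) (l 1))), by decide +kernel⟩

def k18_pp_022_a : ∃ t, chk3 f_pp_022_a t 39 6 1 = true :=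
  ⟨(b (b (c (a (b (l 17833936) (l 48890346903)) (l 17866312)) (a (b (c (a (l 16864280) (b (l 16990392) (a (l 16859880) (l 17051648)))) (a (l 16588144) (b (l 16586848) (a (l 16589320) (l 16589336))))) (a (b (a (l 16590720) (l 16592880)) (a (l 16591992) (l 1))) (l 1))) (a (b (c (l 17089496) (l 16588280)) (l 1)) (l 1)))) (l 1)) (l 1)), by decide +kernel⟩

def k19_pp_022_a : ∃ t, chk3 f_pp_022_a t 16 56 1 = true :=
  ⟨(a (a (a (a (c (b (l 14) (b (l 14) (c (l 14) (a (b (l 14) (a (a (l 14) (l 16756728)) (l 16755968))) (l 16756904))))) (b (a (c (a (a (c (c (l 14) (b (b (c (l 14) (l 16754176)) (c (l 16754600) (l 16754376))) (b (l 16755352) (l 16754912)))) (b (b (l 16754920) (l 16753816)) (b (l 16754040) (l 16754256)))) (b (b (l 16753552) (l 16753760)) (b (l 16753976) (l 16754192)))) (b (l 16752848) (l 16755896))) (b (a (a (b (l 16752248) (l 16752480)) (l 16751816)) (l 16751072)) (a (a (b (l 16752712) (l 16752952)) (l 16752288)) (l 16751552)))) (b (l 16753080) (l 16753544)))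 (b (a (a (a (b (c (a (b (l 16756304) (l 16756416)) (l 16754792)) (l 16753200)) (c (a (b (l 16756528) (l 16756640)) (l 16755008)) (l 16753448))) (c (b (l 16754416) (l 16754640)) (l 16752776))) (b (l 16755440) (l 16753056))) (l 16754016)) (a (a (a (b (c (a (b (l 16755448) (l 16755560)) (l 16755240)) (l 16753704)) (c (a (b (l 16755680) (l 16755792)) (l 16755472)) (l 16753960))) (b (a (l 16755472) (l 16753920)) (l 16756248))) (c (l 16756792) (l 16752552))) (l 16754504))))) (b (c (l 14) (b (l 16747464) (l 16747936))) (b (c (l 16754232) (l 16753672)) (c (l 16754640) (l 16754176))))) (a (c (b (l 16749320) (l 16752072)) (b (l 16748768) (l 16749752))) (b (l 16746312) (l 16748552)))) (a (c (b (l 16741688) (l 16742584)) (b (l 16744112) (l 16739960))) (b (l 16737512) (l 16733352)))) (a (b (c (l 16726648) (l 16724512)) (a (l 16730720) (l 16722888))) (a (b (l 16703280) (l 16715096)) (b (l 16695448) (l 16717832))))), by decide +kernel⟩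

def k20_pp_022_a : ∃ t, chk3 f_pp_022_a t 16 57 1 = true :=
  ⟨(b (b (b (b (a (a (a (c (c (l 14) (a (a (a (a (c (l 14) (c (l 14) (l 16756800))) (l 16756904)) (l 16756144)) (l 16754632)) (l 16751608))) (a (a (a (a (c (c (l 16756192) (l 16755384)) (l 16754176)) (l 16754488)) (l 16753752)) (l 16752280)) (l 16749336))) (l 16750128)) (c (l 16742080) (l 16742296))) (a (l 16727848) (l 16712360))) (l 6)) (l 6)) (l 6)) (l 6)), by decide +kernel⟩

def k21_pp_022_a : ∃ t, chk3 f_pp_022_a t 16 29 1 = true :=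
  ⟨(l 6), by decide +kernel⟩

def k22_pp_022_a : ∃ t, chk3 f_pp_022_a t 16 15 1 = true :=
  ⟨(l 6), by decide +kernel⟩

def k23_pp_022_a : ∃ t, chk3 f_pp_022_a t 17 7 1 = true :=
  ⟨(b (b (b (a (b (a (c (l 16694824) (l 16693712)) (a (l 16693192) (c (l 16685392) (l 16684896)))) (a (a (l 16710136) (l 16691984)) (a (l 16684368) (a (l 16689176) (l 16685312))))) (a (a (a (b (l 16679656) (l 16670984)) (b (l 16675616) (l 16664016))) (a (b (l 16673856) (c (l 16668976) (l 16668936))) (b (l 16663112) (b (l 16667016) (l 16669792))))) (a (b (c (a (l 16673416) (l 16662720)) (l 16659016)) (b (a (l 16666712) (l 16658536)) (a (l 16661600) (a (l 16663888) (l 16661096))))) (a (b (b (l 16650280) (l 16658168)) (b (c (l 16655840) (l 16655352)) (c (l 16661192) (l 16660648)))) (b (c (c (l 16654544) (l 16654280)) (l 16656496)) (b (c (l 16658192) (l 16657592)) (a (c (l 16659584) (l 16660272)) (b (c (l 16657384) (l 16656720)) (c (l 16658736) (l 16659352)))))))))) (a (b (b (b (a (l 16697136)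 (a (l 16696272) (l 16677872))) (l 6)) (l 6)) (l 6)) (a (b (b (a (c (l 16667712) (l 16673664)) (a (l 16672952) (l 16664736))) (l 6)) (l 6)) (b (a (b (a (c (l 16667176) (l 16666824)) (c (l 16664256) (l 16663776))) (l 6)) (a (b (b (c (l 16663184) (l 16661296)) (l 6)) (l 6)) (a (b (b (c (l 16660256) (l 16660896)) (l 6)) (l 6)) (b (b (b (c (l 16659744) (c (l 16659208) (l 16658840))) (b (c (c (l 16660424) (l 16660064)) (c (l 16659704) (l 16659336))) (a (l 6) (a (l 6) (l 1))))) (a (l 6) (l 1))) (l 1))))) (a (l 6) (a (l 6) (l 1))))))) (a (l 6) (a (l 6) (a (l 6) (l 1))))) (a (l 6) (l 1))), by decide +kernel⟩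

def k24_pp_022_a : ∃ t, chk3 f_pp_022_a t 72 112 1 = true :=
  ⟨(b (a (a (c (l 16650032) (l 16649408)) (c (l 16649800) (l 16649056))) (b (a (c (l 16648880) (l 16648016)) (b (c (c (l 16648552) (l 16648072)) (c (l 16647584) (l 16647088))) (a (c (l 16648944) (l 16647992)) (a (c (c (l 16649088) (l 16648592)) (c (l 16648096) (l 16647584))) (c (c (l 16649032) (l 16648528)) (c (l 16648008) (l 16647488))))))) (a (c (l 16650152) (c (l 16649496) (l 16649048))) (b (a (c (l 16649576) (l 16648608)) (c (c (l 16649704) (l 16649200)) (a (c (l 16648712) (l 16648200)) (l 1)))) (a (a (c (l 16650232) (l 16648696)) (c (c (l 16650408) (l 16649920)) (c (l 16649424) (l 16648920)))) (l 1)))))) (a (a (c (l 16655272) (l 16654600)) (b (c (l 16651688) (l 16650904)) (c (l 16654304) (c (l 16652392) (l 16651976))))) (a (b (a (c (l 16651440) (l 16650568)) (a (c (l 16651328) (l 16650408)) (b (c (l 16650928) (l 16649984)) (c (c (l 16651800) (l 16650680)) (a (b (l 16649816) (l 16650792)) (l 16650584))))))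 (b (a (c (l 16652392) (l 16651504)) (a (a (c (c (l 16652520) (l 16652064)) (c (l 16651600) (l 16651128))) (c (l 16652256) (l 16651312))) (l 1))) (a (a (c (l 16653056) (l 16652168)) (a (c (c (l 16653224) (l 16652776)) (c (l 16652328) (l 16651864))) (c (l 16652968) (l 16651392)))) (l 1)))) (a (a (b (b (c (c (l 16651104) (l 16650624)) (c (l 16649648) (c (l 16649768) (l 16649520)))) (l 1)) (l 1)) (l 1)) (l 1))))), by decide +kernel⟩

def k25_pp_022_a : ∃ t, chk3 f_pp_022_a t 144 113 1 = true :=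
  ⟨(a (b (a (c (l 16655296) (l 16657224)) (c (c (l 16655344) (l 16656288)) (c (l 16657224) (l 16656832)))) (a (b (c (l 16657240) (l 16656512)) (a (c (l 16658608) (c (l 16658056) (l 16657680))) (a (c (c (l 16658736) (l 16657704)) (c (l 16657320) (l 16657584))) (b (c (l 16658160) (l 16657384)) (b (c (c (l 16658848) (l 16658464)) (c (l 16658072) (l 16657672))) (l 1)))))) (b (a (c (l 16657120) (c (l 16656536) (l 16656144))) (a (c (c (l 16657256) (l 16656208)) (c (l 16655808) (l 16656056))) (b (c (l 16656672) (l 16655864)) (c (c (l 16657536) (l 16657136)) (c (l 16656072) (c (l 16656416) (l 16656208))))))) (a (b (a (c (c (l 16658312) (l 16657928)) (c (c (l 16657632) (l 16657432)) (l 16656888))) (b (c (a (l 16657264) (l 16657896)) (c (l 16657312) (l 16656904))) (l 1))) (l 1)) (l 1))))) (b (a (b (c (l 16654304) (l 16653504)) (b (c (l 16655280) (l 12381340391)) (a (c (l 16655960) (l 16655144)) (a (c (c (l 16656104) (l 16655696)) (c (l 16654616) (l 16654520))) (c (c (l 16656072)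 (l 16655656)) (c (l 16655224) (l 16654792))))))) (b (c (b (l 16653824) (a (l 16654496) (a (c (l 16654656) (l 16654232)) (c (l 16654624) (l 16654192))))) (a (l 10770725511) (b (l 16652912) (a (c (l 16653792) (l 16653016)) (c (l 16653744) (l 16653296)))))) (a (b (a (c (c (l 16655376) (l 16654960)) (c (l 16653872) (l 16653768))) (c (b (l 16654312) (l 1)) (c (l 16654480) (l 16654040)))) (l 1)) (l 1)))) (a (b (a (b (a (c (c (l 16656840) (l 16656432)) (c (l 16655696) (l 16655280))) (c (c (l 16656800) (l 16656392)) (c (l 16655976) (l 16655552)))) (l 1)) (l 1)) (l 1)) (l 1)))), by decide +kernel⟩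

def k26_pp_022_a : ∃ t, chk3 f_pp_022_a t 145 113 1 = true :=
  ⟨(b (a (a (b (a (b (a (c (c (l 16653944) (l 16653504)) (c (l 16653056) (l 16652600))) (c (l 16653688) (c (l 16653008) (l 16652552)))) (l 1)) (l 1)) (l 1)) (l 1)) (l 1)) (l 1)), by decide +kernel⟩

def k27_pp_022_a : ∃ t, chk3 f_pp_022_a t 73 56 1 = true :=
  ⟨(b (a (b (b (a (a (c (c (l 16648664) (l 16648136)) (c (l 16647600) (l 16647056))) (l 1)) (l 1)) (l 1)) (l 1)) (l 1)) (l 1)), by decide +kernel⟩

def k28_pp_022_a : ∃ t, chk3 f_pp_022_a t 36 57 1 = true :=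
  ⟨(a (b (a (b (b (b (a (a (a (a (c (c (l 16659808) (l 16659432)) (b (l 16658696) (c (l 16659224) (l 16658832)))) (b (c (c (l 16659592) (l 16659224)) (c (l 16658840) (l 16658448))) (l 1))) (l 1)) (l 1)) (l 1)) (l 1)) (l 1)) (l 1)) (l 1)) (l 1)) (l 1)), by decide +kernel⟩

def k29_pp_022_a : ∃ t, chk3 f_pp_022_a t 37 28 1 = true :=
  ⟨(l 1), by decide +kernel⟩

def k30_pp_022_a : ∃ t, chk3 f_pp_022_a t 18 29 1 = true :=
  ⟨(l 1), by decide +kernel⟩

def k31_pp_022_a : ∃ t, chk3 f_pp_022_a t 19 14 1 = true :=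
  ⟨(l 1), by decide +kernel⟩

def k32_pp_022_a : ∃ t, chk3 f_pp_022_a t 9 15 1 = true :=
  ⟨(l 1), by decide +kernel⟩

def k33_pp_022_a : ∃ t, chk3 f_pp_022_a t 5 3 1 = true :=
  ⟨(b (l 1) (l 1)), by decide +kernel⟩

def k34_pp_022_a : ∃ t, chk3 f_pp_022_a t 3 1 1 = true :=
  ⟨(l 1), by decide +kernel⟩

theorem s35_pp_022_a : ∃ t, chk3 f_pp_022_a t 72 113 1 = true := ex3_a k25_pp_022_a k26_pp_022_a

theorem s36_pp_022_a : ∃ t, chk3 f_pp_022_a t 72 56 1 = true := ex3_b k24_pp_022_a s35_pp_022_a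

theorem s37_pp_022_a : ∃ t, chk3 f_pp_022_a t 36 56 1 = true := ex3_a s36_pp_022_a k27_pp_022_a

theorem s38_pp_022_a : ∃ t, chk3 f_pp_022_a t 36 28 1 = true := ex3_b s37_pp_022_a k28_pp_022_a

theorem s39_pp_022_a : ∃ t, chk3 f_pp_022_a t 18 28 1 = true := ex3_a s38_pp_022_a k29_pp_022_a

theorem s40_pp_022_a : ∃ t, chk3 f_pp_022_a t 18 14 1 = true := ex3_b s39_pp_022_a k30_pp_022_a

theorem s41_pp_022_a : ∃ t, chk3 f_pp_022_a t 9 14 1 = true := ex3_a s40_pp_022_a k31_pp_022_a

theorem s42_pp_022_a : ∃ t, chk3 f_pp_022_a t 9 7 1 = true := ex3_b s41_pp_022_a k32_pp_022_a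

theorem s43_pp_022_a : ∃ t, chk3 f_pp_022_a t 16 28 1 = true := ex3_b k19_pp_022_a k20_pp_022_a

theorem s44_pp_022_a : ∃ t, chk3 f_pp_022_a t 16 14 1 = true := ex3_b s43_pp_022_a k21_pp_022_a

theorem s45_pp_022_a : ∃ t, chk3 f_pp_022_a t 16 7 1 = true := ex3_b s44_pp_022_a k22_pp_022_a

theorem s46_pp_022_a : ∃ t, chk3 f_pp_022_a t 8 7 1 = true := ex3_a s45_pp_022_a k23_pp_022_a

theorem s47_pp_022_a : ∃ t, chk3 f_pp_022_a t 4 7 1 = true := ex3_a s46_pp_022_a s42_pp_022_a

theorem s48_pp_022_a : ∃ t, chk3 f_pp_022_a t 19 6 1 = true := ex3_a k17_pp_022_a k18_pp_022_a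

theorem s49_pp_022_a : ∃ t, chk3 f_pp_022_a t 73 55 1 = true := ex3_a k14_pp_022_a k15_pp_022_a

theorem s50_pp_022_a : ∃ t, chk3 f_pp_022_a t 36 55 1 = true := ex3_a k13_pp_022_a s49_pp_022_a

theorem s51_pp_022_a : ∃ t, chk3 f_pp_022_a t 18 55 1 = true := ex3_a s50_pp_022_a k16_pp_022_a

theorem s52_pp_022_a : ∃ t, chk3 f_pp_022_a t 18 54 1 = true := ex3_a k11_pp_022_a k12_pp_022_a

theorem s53_pp_022_a : ∃ t, chk3 f_pp_022_a t 18 27 1 = true := ex3_b s52_pp_022_a s51_pp_022_a

theorem s54_pp_022_a : ∃ t, chk3 f_pp_022_a t 18 13 1 = true := ex3_b k10_pp_022_a s53_pp_022_a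

theorem s55_pp_022_a : ∃ t, chk3 f_pp_022_a t 18 6 1 = true := ex3_b k9_pp_022_a s54_pp_022_a

theorem s56_pp_022_a : ∃ t, chk3 f_pp_022_a t 9 6 1 = true := ex3_a s55_pp_022_a s48_pp_022_a

theorem s57_pp_022_a : ∃ t, chk3 f_pp_022_a t 32 27 1 = true := ex3_a k5_pp_022_a k6_pp_022_a

theorem s58_pp_022_a : ∃ t, chk3 f_pp_022_a t 16 27 1 = true := ex3_a s57_pp_022_a k7_pp_022_a

theorem s59_pp_022_a : ∃ t, chk3 f_pp_022_a t 8 27 1 = true := ex3_a s58_pp_022_a k8_pp_022_a

theorem s60_pp_022_a : ∃ t, chk3 f_pp_022_a t 8 13 1 = true := ex3_b k4_pp_022_a s59_pp_022_a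

theorem s61_pp_022_a : ∃ t, chk3 f_pp_022_a t 8 6 1 = true := ex3_b k3_pp_022_a s60_pp_022_a

theorem s62_pp_022_a : ∃ t, chk3 f_pp_022_a t 4 6 1 = true := ex3_a s61_pp_022_a s56_pp_022_a

theorem s63_pp_022_a : ∃ t, chk3 f_pp_022_a t 4 3 1 = true := ex3_b s62_pp_022_a s47_pp_022_a

theorem s64_pp_022_a : ∃ t, chk3 f_pp_022_a t 2 3 1 = true := ex3_a s63_pp_022_a k33_pp_022_a

theorem s65_pp_022_a : ∃ t, chk3 f_pp_022_a t 4 2 1 = true := ex3_a k0_pp_022_a k1_pp_022_a

theorem s66_pp_022_a : ∃ t, chk3 f_pp_022_a t 2 2 1 = true := ex3_a s65_pp_022_a k2_pp_022_a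

theorem s67_pp_022_a : ∃ t, chk3 f_pp_022_a t 2 1 1 = true := ex3_b s66_pp_022_a s64_pp_022_a

theorem s68_pp_022_a : ∃ t, chk3 f_pp_022_a t 1 1 1 = true := ex3_a s67_pp_022_a k34_pp_022_a

theorem c_pp_022_a : CertF 0 536870912 0 536870912 67108864 67108864 false true true .pp 0 2 2
    ndF0q0 ndF2q2a pcF2 cut_pp_022_a Ext.none :=
  certFK2 (fam := false) (s1 := true) (s2 := true) (a := 0) (b := 2) (c := 2) (cn := .pp) (n1 := ndF0q0) (n2 := ndF2q2a) (pc := pcF2) (cut := cut_pp_022_a) (xt := Ext.none) (P1 := 0) (W1 := 536870912) (P2 := 0) (W2 := 536870912) (P3 := 67108864) (W3 := 67108864)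
    rfl rfl rfl (fun _ => rfl) s68_pp_022_a

noncomputable def cut_pp_022_b : Cut := Cut.of [[⟨0, 0, 0, 67108864⟩, ⟨1, 1, 0, 67108864⟩, ⟨2, 1, 0, 67108864⟩], [⟨0, 0, 1, 33554432⟩, ⟨1, 1, 0, 16777216⟩, ⟨2, 1, 1, 33554432⟩, ⟨0, 0, 0, 150994944⟩, ⟨0, 1, 0, 1023410176⟩, ⟨2, 1, 0, 150994944⟩, ⟨2, 2, 0, 1023410176⟩]]

noncomputable def f_pp_022_b : ℕ → ℕ → ℕ → ℕ → Bool := onCell 1073741824 536870912 1239849684 370763052 67108864 67108864
    (rowFK 2 false true true .pp 0 2 2 (qsf 0 536870912 1239849684 370763052 2) ndF0q0 ndF2q2b pcF2 cut_pp_022_b Ext.none)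

def k0_pp_022_b : ∃ t, chk3 f_pp_022_b t 1 1 1 = true :=
  ⟨(a (a (a (a (b (a (b (c (b (b (l 17744144) (l 17831896)) (l 17928984)) (a (b (a (b (b (b (l 17118376) (l 17259856)) (l 17331800)) (l 17442416)) (b (l 17221912) (l 17472944))) (l 17483624)) (b (b (l 17296720) (l 17487880)) (l 17630608)))) (b (l 17859584) (l 17942872))) (b (b (b (a (l 17441952) (l 17512616)) (l 17712488)) (l 17829656)) (l 17961952))) (b (a (l 17974872) (l 18009256)) (l 17942080))) (b (b (b (a (a (b (l 17563416) (l 17758232)) (b (l 17572072) (l 17788456))) (b (a (l 17646200) (l 17720448)) (l 17834968))) (a (a (l 17873168) (l 17901536)) (l 17944736))) (a (l 17999552) (l 18053768))) (b (a (l 18034776) (l 18076696)) (l 18050448)))) (b (b (b (a (a (b (l 17559864) (l 17902416)) (b (l 17715376) (l 17973288))) (b (a (l 17789808) (l 17867192)) (l 18081360))) (a (a (l 18007208) (l 18072376)) (l 18169472))) (a (b (l 18101192) (l 18129104)) (l 18228224))) (b (l 18236840) (l 18042752)))) (b (b (a (a (b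 (b (c (l 18477456) (a (l 17757248) (l 17830384))) (l 18234808)) (l 18305192)) (b (a (b (l 153581082519) (l 18351976)) (l 160560641111)) (l 18431576))) (b (b (l 1) (l 18548304)) (l 18603816))) (a (b (l 18373768) (l 18351392)) (l 18537784))) (b (a (l 18289872) (l 18382976)) (l 18440144)))) (b (a (b (l 1) (b (l 18805864) (l 18722328))) (l 1)) (a (b (l 18558448) (l 18351864)) (l 18777160)))), by decide +kernel⟩

theorem c_pp_022_b : CertF 0 536870912 1239849684 370763052 67108864 67108864 false true true .pp 0 2 2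
    ndF0q0 ndF2q2b pcF2 cut_pp_022_b Ext.none :=
  certFK2 (fam := false) (s1 := true) (s2 := true) (a := 0) (b := 2) (c := 2) (cn := .pp) (n1 := ndF0q0) (n2 := ndF2q2b) (pc := pcF2) (cut := cut_pp_022_b) (xt := Ext.none) (P1 := 0) (W1 := 536870912) (P2 := 1239849684) (W2 := 370763052) (P3 := 67108864) (W3 := 67108864)
    rfl rfl rfl (fun _ => rfl) k0_pp_022_b

noncomputable def f_pp_023 : ℕ → ℕ → ℕ → ℕ → Bool := onCell 0 536870912 1073741824 536870912 67108864 67108864
    (rowFK 1 false true true .up 0 2 3 (qsf 0 536870912 1610612736 536870912 2) ndF0q0 ndF2q3 pcF2 Cut.none Ext.none)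

def k0_pp_023 : ∃ t, chk3 f_pp_023 t 1 1 1 = true :=
  ⟨(a (b (b (l 1) (a (l 1) (l 233575856327))) (b (a (l 265252695879) (l 307664774903)) (a (l 218545697255) (l 18788624)))) (a (b (b (b (l 1) (l 295315463959)) (b (l 284578006727) (l 18001496))) (b (l 18017480) (l 18026320))) (b (b (b (b (l 294778816007) (l 74124688311)) (l 132106421703)) (b (l 17734296) (l 17560928))) (b (l 17603336) (l 17615384))))), by decide +kernel⟩

theorem c_pp_023 : CertF 0 536870912 1610612736 536870912 67108864 67108864 false true true .up 0 2 3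
    ndF0q0 ndF2q3 pcF2 Cut.none Ext.none :=
  certFK1 (fam := false) (s1 := true) (s2 := true) (a := 0) (b := 2) (c := 3) (cn := .up) (n1 := ndF0q0) (n2 := ndF2q3) (pc := pcF2) (cut := Cut.none) (xt := Ext.none) (P1 := 0) (W1 := 536870912) (P2 := 1610612736) (W2 := 536870912) (P3 := 67108864) (W3 := 67108864)
    rfl rfl rfl (fun _ => rfl) k0_pp_023

noncomputable def f_pp_033 : ℕ → ℕ → ℕ → ℕ → Bool := onCell 1610612736 536870912 1610612736 536870912 67108864 67108864
    (rowFK 2 false true true .pnn 0 3 3 (qsf 0 536870912 1610612736 536870912 3) ndF0q0 ndF2q3 pcF3 Cut.none Ext.none)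

def k0_pp_033 : ∃ t, chk3 f_pp_033 t 1 1 1 = true :=
  ⟨(b (a (a (b (a (b (l 19271584) (l 18549616)) (b (l 19488632) (l 18785664))) (a (l 17714784) (l 18056048))) (b (a (l 256127084903) (l 1)) (a (l 18497432) (l 18905064)))) (a (b (l 1) (a (l 19247536) (l 1))) (l 1))) (a (a (b (l 17501376) (a (l 16984920) (l 17312432))) (b (l 40301849975) (a (l 17607976) (l 17782936)))) (a (b (a (l 18344296) (l 18330120)) (a (l 17862688) (l 4))) (l 4)))), by decide +kernel⟩

theorem c_pp_033 : CertF 0 536870912 1610612736 536870912 67108864 67108864 false true true .pnn 0 3 3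
    ndF0q0 ndF2q3 pcF3 Cut.none Ext.none :=
  certFK2 (fam := false) (s1 := true) (s2 := true) (a := 0) (b := 3) (c := 3) (cn := .pnn) (n1 := ndF0q0) (n2 := ndF2q3) (pc := pcF3) (cut := Cut.none) (xt := Ext.none) (P1 := 0) (W1 := 536870912) (P2 := 1610612736) (W2 := 536870912) (P3 := 67108864) (W3 := 67108864)
    rfl rfl rfl (fun _ => rfl) k0_pp_033

noncomputable def f_pp_101 : ℕ → ℕ → ℕ → ℕ → Bool := onCell 536870912 536870912 536870912 536870912 67108864 67108864
    (rowFK 0 false true true .npn 1 0 1 (qsf 536870912 536870912 536870912 536870912 0) ndF0q1 ndF2q1 pcF0 Cut.none Ext.none)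

def k0_pp_101 : ∃ t, chk3 f_pp_101 t 1 1 1 = true :=
  ⟨(a (l 3) (l 5)), by decide +kernel⟩

theorem c_pp_101 : CertF 536870912 536870912 536870912 536870912 67108864 67108864 false true true .npn 1 0 1
    ndF0q1 ndF2q1 pcF0 Cut.none Ext.none :=
  certFK0 (fam := false) (s1 := true) (s2 := true) (a := 1) (b := 0) (c := 1) (cn := .npn) (n1 := ndF0q1) (n2 := ndF2q1) (pc := pcF0) (cut := Cut.none) (xt := Ext.none) (P1 := 536870912) (W1 := 536870912) (P2 := 536870912) (W2 := 536870912) (P3 := 67108864) (W3 := 67108864)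
    rfl rfl rfl k0_pp_101

noncomputable def f_pp_102_a : ℕ → ℕ → ℕ → ℕ → Bool := onCell 536870912 536870912 0 536870912 67108864 67108864
    (rowFK 0 false true true .npp 1 0 2 (qsf 536870912 536870912 0 536870912 0) ndF0q1 ndF2q2a pcF0 Cut.none Ext.none)

def k0_pp_102_a : ∃ t, chk3 f_pp_102_a t 1 1 1 = true :=
  ⟨(l 3), by decide +kernel⟩

theorem c_pp_102_a : CertF 536870912 536870912 0 536870912 67108864 67108864 false true true .npp 1 0 2
    ndF0q1 ndF2q2a pcF0 Cut.none Ext.none :=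
  certFK0 (fam := false) (s1 := true) (s2 := true) (a := 1) (b := 0) (c := 2) (cn := .npp) (n1 := ndF0q1) (n2 := ndF2q2a) (pc := pcF0) (cut := Cut.none) (xt := Ext.none) (P1 := 536870912) (W1 := 536870912) (P2 := 0) (W2 := 536870912) (P3 := 67108864) (W3 := 67108864)
    rfl rfl rfl k0_pp_102_a

noncomputable def f_pp_102_b : ℕ → ℕ → ℕ → ℕ → Bool := onCell 536870912 536870912 0 536870912 67108864 67108864
    (rowFK 1 false true true .npp 1 0 2 (qsf 536870912 536870912 1239849684 370763052 0) ndF0q1 ndF2q2b pcF0 Cut.none Ext.none)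

def k0_pp_102_b : ∃ t, chk3 f_pp_102_b t 1 1 1 = true :=
  ⟨(l 3), by decide +kernel⟩

theorem c_pp_102_b : CertF 536870912 536870912 1239849684 370763052 67108864 67108864 false true true .npp 1 0 2
    ndF0q1 ndF2q2b pcF0 Cut.none Ext.none :=
  certFK1 (fam := false) (s1 := true) (s2 := true) (a := 1) (b := 0) (c := 2) (cn := .npp) (n1 := ndF0q1) (n2 := ndF2q2b) (pc := pcF0) (cut := Cut.none) (xt := Ext.none) (P1 := 536870912) (W1 := 536870912) (P2 := 1239849684) (W2 := 370763052) (P3 := 67108864) (W3 := 67108864)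
    rfl rfl rfl (fun _ => rfl) k0_pp_102_b

noncomputable def f_pp_112_a : ℕ → ℕ → ℕ → ℕ → Bool := onCell 536870912 536870912 0 536870912 67108864 67108864
    (rowFK 0 false true true .dn 1 1 2 (qsf 536870912 536870912 0 536870912 1) ndF0q1 ndF2q2a pcF1 Cut.none Ext.none)

def k0_pp_112_a : ∃ t, chk3 f_pp_112_a t 1 1 1 = true :=
  ⟨(l 3), by decide +kernel⟩

theorem c_pp_112_a : CertF 536870912 536870912 0 536870912 67108864 67108864 false true true .dn 1 1 2
    ndF0q1 ndF2q2a pcF1 Cut.none Ext.none :=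
  certFK0 (fam := false) (s1 := true) (s2 := true) (a := 1) (b := 1) (c := 2) (cn := .dn) (n1 := ndF0q1) (n2 := ndF2q2a) (pc := pcF1) (cut := Cut.none) (xt := Ext.none) (P1 := 536870912) (W1 := 536870912) (P2 := 0) (W2 := 536870912) (P3 := 67108864) (W3 := 67108864)
    rfl rfl rfl k0_pp_112_a

noncomputable def f_pp_112_b : ℕ → ℕ → ℕ → ℕ → Bool := onCell 536870912 536870912 1239849684 370763052 67108864 67108864
    (rowFK 0 false true true .dn 1 1 2 (qsf 536870912 536870912 1239849684 370763052 1) ndF0q1 ndF2q2b pcF1 Cut.none Ext.none)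

def k0_pp_112_b : ∃ t, chk3 f_pp_112_b t 1 1 1 = true :=
  ⟨(a (b (l 3) (a (b (l 3) (a (b (l 3) (l 148345894695)) (l 3))) (l 3))) (l 3)), by decide +kernel⟩

theorem c_pp_112_b : CertF 536870912 536870912 1239849684 370763052 67108864 67108864 false true true .dn 1 1 2
    ndF0q1 ndF2q2b pcF1 Cut.none Ext.none :=
  certFK0 (fam := false) (s1 := true) (s2 := true) (a := 1) (b := 1) (c := 2) (cn := .dn) (n1 := ndF0q1) (n2 := ndF2q2b) (pc := pcF1) (cut := Cut.none) (xt := Ext.none) (P1 := 536870912) (W1 := 536870912) (P2 := 1239849684) (W2 := 370763052) (P3 := 67108864) (W3 := 67108864)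
    rfl rfl rfl k0_pp_112_b

noncomputable def cut_pp_113 : Cut := Cut.of [[⟨0, 1, 0, 21338704⟩, ⟨1, 1, 0, 21338704⟩, ⟨2, 2, 0, 1685920⟩]]

noncomputable def f_pp_113 : ℕ → ℕ → ℕ → ℕ → Bool := onCell 536870912 536870912 536870912 536870912 67108864 67108864
    (rowFK 1 false true true .nn 1 1 3 (qsf 536870912 536870912 1610612736 536870912 1) ndF0q1 ndF2q3 pcF1 cut_pp_113 Ext.none)

def k0_pp_113 : ∃ t, chk3 f_pp_113 t 1 1 1 = true :=
  ⟨(b (l 3) (b (l 3) (b (a (l 3) (l 3)) (b (a (l 3) (l 3)) (a (a (b (l 3) (l 171432454039)) (a (l 17727344) (l 17692112))) (a (b (l 3) (a (l 17140216) (l 17104992))) (b (l 3) (b (l 3) (a (l 196126329943) (a (l 203642228935) (b (l 3) (a (l 215453242679) (b (l 3) (b (l 3) (b (l 3) (b (l 3) (a (l 16819296) (a (l 16799848) (a (l 227264191703) (a (l 227801051303) (l 6))))))))))))))))))))), by decide +kernel⟩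

theorem c_pp_113 : CertF 536870912 536870912 1610612736 536870912 67108864 67108864 false true true .nn 1 1 3
    ndF0q1 ndF2q3 pcF1 cut_pp_113 Ext.none :=
  certFK1 (fam := false) (s1 := true) (s2 := true) (a := 1) (b := 1) (c := 3) (cn := .nn) (n1 := ndF0q1) (n2 := ndF2q3) (pc := pcF1) (cut := cut_pp_113) (xt := Ext.none) (P1 := 536870912) (W1 := 536870912) (P2 := 1610612736) (W2 := 536870912) (P3 := 67108864) (W3 := 67108864)
    rfl rfl rfl (fun _ => rfl) k0_pp_113

noncomputable def cut_pp_123 : Cut := Cut.of [[⟨0, 1, 0, 21338704⟩, ⟨1, 1, 0, 21338704⟩, ⟨2, 2, 0, 1685920⟩]]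

noncomputable def f_pp_123 : ℕ → ℕ → ℕ → ℕ → Bool := onCell 1073741824 536870912 1610612736 536870912 67108864 67108864
    (rowFK 2 false true true .npn 1 2 3 (qsf 536870912 536870912 1610612736 536870912 2) ndF0q1 ndF2q3 pcF2 cut_pp_123 Ext.none)

def k0_pp_123 : ∃ t, chk3 f_pp_123 t 1 1 1 = true :=
  ⟨(a (b (a (a (a (b (b (l 17977712) (l 17798648)) (b (l 17568176) (l 17314912))) (b (b (l 17921808) (l 17749624)) (b (l 17522392) (l 17271352)))) (b (b (l 17841120) (l 17674440)) (b (l 17453376) (l 17201520)))) (b (a (l 176666389239) (l 1)) (a (l 17456472) (l 17488736)))) (a (a (a (b (b (l 17064448) (l 17042520)) (b (a (l 17088456) (l 17063696)) (b (a (a (l 16951592) (l 16979000)) (l 16988712)) (a (a (b (l 16853376) (a (b (l 16820600) (a (b (l 16800312) (a (b (l 16789128) (b (l 16783464) (l 6))) (l 16789648))) (l 16801704))) (l 16824712))) (l 16887592)) (l 16875808))))) (b (a (l 17280192) (l 17109520)) (b (l 17184744) (a (l 17002680) (l 16958136))))) (b (a (l 17125576)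 (l 17189920)) (b (l 17099056) (l 17184472)))) (b (a (l 17245576) (l 17305408)) (a (b (l 17176672) (l 17020184)) (l 17136960))))) (b (a (b (l 1) (b (l 1) (l 17688584))) (l 1)) (b (a (l 17474824) (l 346318052055)) (a (b (l 17341840) (l 17204288)) (l 17679016))))), by decide +kernel⟩

theorem c_pp_123 : CertF 536870912 536870912 1610612736 536870912 67108864 67108864 false true true .npn 1 2 3
    ndF0q1 ndF2q3 pcF2 cut_pp_123 Ext.none :=
  certFK2 (fam := false) (s1 := true) (s2 := true) (a := 1) (b := 2) (c := 3) (cn := .npn) (n1 := ndF0q1) (n2 := ndF2q3) (pc := pcF2) (cut := cut_pp_123) (xt := Ext.none) (P1 := 536870912) (W1 := 536870912) (P2 := 1610612736) (W2 := 536870912) (P3 := 67108864) (W3 := 67108864)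
    rfl rfl rfl (fun _ => rfl) k0_pp_123

noncomputable def f_pp_133 : ℕ → ℕ → ℕ → ℕ → Bool := onCell 1610612736 536870912 1610612736 536870912 67108864 67108864
    (rowFK 2 false true true .dn 1 3 3 (qsf 536870912 536870912 1610612736 536870912 3) ndF0q1 ndF2q3 pcF3 Cut.none Ext.none)

def k0_pp_133 : ∃ t, chk3 f_pp_133 t 1 1 1 = true :=
  ⟨(a (b (l 1) (a (b (l 1) (a (l 16997936) (l 1))) (l 1))) (l 1)), by decide +kernel⟩

theorem c_pp_133 : CertF 536870912 536870912 1610612736 536870912 67108864 67108864 false true true .dn 1 3 3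
    ndF0q1 ndF2q3 pcF3 Cut.none Ext.none :=
  certFK2 (fam := false) (s1 := true) (s2 := true) (a := 1) (b := 3) (c := 3) (cn := .dn) (n1 := ndF0q1) (n2 := ndF2q3) (pc := pcF3) (cut := Cut.none) (xt := Ext.none) (P1 := 536870912) (W1 := 536870912) (P2 := 1610612736) (W2 := 536870912) (P3 := 67108864) (W3 := 67108864)
    rfl rfl rfl (fun _ => rfl) k0_pp_133

noncomputable def f_pp_202_a : ℕ → ℕ → ℕ → ℕ → Bool := onCell 0 536870912 0 536870912 67108864 67108864
    (rowFK 0 false true true .pp 2 0 2 (qsf 0 536870912 0 536870912 0) ndF0q2 ndF2q2a pcF0 Cut.none Ext.none)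

def k0_pp_202_a : ∃ t, chk3 f_pp_202_a t 1 1 1 = true :=
  ⟨(l 3), by decide +kernel⟩

theorem c_pp_202_a : CertF 0 536870912 0 536870912 67108864 67108864 false true true .pp 2 0 2
    ndF0q2 ndF2q2a pcF0 Cut.none Ext.none :=
  certFK0 (fam := false) (s1 := true) (s2 := true) (a := 2) (b := 0) (c := 2) (cn := .pp) (n1 := ndF0q2) (n2 := ndF2q2a) (pc := pcF0) (cut := Cut.none) (xt := Ext.none) (P1 := 0) (W1 := 536870912) (P2 := 0) (W2 := 536870912) (P3 := 67108864) (W3 := 67108864)
    rfl rfl rfl k0_pp_202_a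

noncomputable def f_pp_202_b : ℕ → ℕ → ℕ → ℕ → Bool := onCell 0 536870912 1239849684 370763052 67108864 67108864
    (rowFK 0 false true true .pp 2 0 2 (qsf 0 536870912 1239849684 370763052 0) ndF0q2 ndF2q2b pcF0 Cut.none Ext.none)

def k0_pp_202_b : ∃ t, chk3 f_pp_202_b t 1 1 1 = true :=
  ⟨(l 3), by decide +kernel⟩

theorem c_pp_202_b : CertF 0 536870912 1239849684 370763052 67108864 67108864 false true true .pp 2 0 2
    ndF0q2 ndF2q2b pcF0 Cut.none Ext.none :=
  certFK0 (fam := false) (s1 := true) (s2 := true) (a := 2) (b := 0) (c := 2) (cn := .pp) (n1 := ndF0q2) (n2 := ndF2q2b) (pc := pcF0) (cut := Cut.none) (xt := Ext.none) (P1 := 0) (W1 := 536870912) (P2 := 1239849684) (W2 := 370763052) (P3 := 67108864) (W3 := 67108864)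
    rfl rfl rfl k0_pp_202_b

noncomputable def f_pp_203 : ℕ → ℕ → ℕ → ℕ → Bool := onCell 0 536870912 0 536870912 67108864 67108864
    (rowFK 1 false true true .up 2 0 3 (qsf 0 536870912 1610612736 536870912 0) ndF0q2 ndF2q3 pcF0 Cut.none Ext.none)

def k0_pp_203 : ∃ t, chk3 f_pp_203 t 1 1 1 = true :=
  ⟨(l 3), by decide +kernel⟩

theorem c_pp_203 : CertF 0 536870912 1610612736 536870912 67108864 67108864 false true true .up 2 0 3
    ndF0q2 ndF2q3 pcF0 Cut.none Ext.none :=
  certFK1 (fam := false) (s1 := true) (s2 := true) (a := 2) (b := 0) (c := 3) (cn := .up) (n1 := ndF0q2) (n2 := ndF2q3) (pc := pcF0) (cut := Cut.none) (xt := Ext.none) (P1 := 0) (W1 := 536870912) (P2 := 1610612736) (W2 := 536870912) (P3 := 67108864) (W3 := 67108864)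
    rfl rfl rfl (fun _ => rfl) k0_pp_203

noncomputable def cut_pp_213 : Cut := Cut.of [[⟨0, 1, 0, 21338704⟩, ⟨1, 1, 0, 21338704⟩, ⟨2, 2, 0, 1685920⟩]]

noncomputable def f_pp_213 : ℕ → ℕ → ℕ → ℕ → Bool := onCell 0 536870912 1610612736 536870912 67108864 67108864
    (rowFK 0 false true true .pnn 2 1 3 (qsf 0 536870912 1610612736 536870912 1) ndF0q2 ndF2q3 pcF1 cut_pp_213 Ext.none)

def k0_pp_213 : ∃ t, chk3 f_pp_213 t 1 1 1 = true :=
  ⟨(b (l 3) (a (l 3) (b (l 3) (a (l 3) (b (l 3) (a (l 3) (b (l 3) (a (l 3) (b (l 3) (a (l 3) (b (l 3) (b (l 3) (b (l 3) (b (l 3) (l 6))))))))))))))), by decide +kernel⟩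

theorem c_pp_213 : CertF 0 536870912 1610612736 536870912 67108864 67108864 false true true .pnn 2 1 3
    ndF0q2 ndF2q3 pcF1 cut_pp_213 Ext.none :=
  certFK0 (fam := false) (s1 := true) (s2 := true) (a := 2) (b := 1) (c := 3) (cn := .pnn) (n1 := ndF0q2) (n2 := ndF2q3) (pc := pcF1) (cut := cut_pp_213) (xt := Ext.none) (P1 := 0) (W1 := 536870912) (P2 := 1610612736) (W2 := 536870912) (P3 := 67108864) (W3 := 67108864)
    rfl rfl rfl k0_pp_213

noncomputable def f_pm_001 : ℕ → ℕ → ℕ → ℕ → Bool := onCell 0 536870912 536870912 536870912 67108864 67108864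
    (rowFK 0 false true false .up 0 0 1 (qsf 0 536870912 536870912 536870912 0) ndF0q0 ndF2q1 pcF0 Cut.none Ext.none)

def k0_pm_001 : ∃ t, chk3 f_pm_001 t 1 1 1 = true :=
  ⟨(l 4), by decide +kernel⟩

theorem c_pm_001 : CertF 0 536870912 536870912 536870912 67108864 67108864 false true false .up 0 0 1
    ndF0q0 ndF2q1 pcF0 Cut.none Ext.none :=
  certFK0 (fam := false) (s1 := true) (s2 := false) (a := 0) (b := 0) (c := 1) (cn := .up) (n1 := ndF0q0) (n2 := ndF2q1) (pc := pcF0) (cut := Cut.none) (xt := Ext.none) (P1 := 0) (W1 := 536870912) (P2 := 536870912) (W2 := 536870912) (P3 := 67108864) (W3 := 67108864)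
    rfl rfl rfl k0_pm_001

noncomputable def f_pm_011 : ℕ → ℕ → ℕ → ℕ → Bool := onCell 0 536870912 536870912 536870912 67108864 67108864
    (rowFK 0 false true false .pnn 0 1 1 (qsf 0 536870912 536870912 536870912 1) ndF0q0 ndF2q1 pcF1 Cut.none Ext.none)

def k0_pm_011 : ∃ t, chk3 f_pm_011 t 1 1 1 = true :=
  ⟨(l 4), by decide +kernel⟩

theorem c_pm_011 : CertF 0 536870912 536870912 536870912 67108864 67108864 false true false .pnn 0 1 1
    ndF0q0 ndF2q1 pcF1 Cut.none Ext.none :=
  certFK0 (fam := false) (s1 := true) (s2 := false) (a := 0) (b := 1) (c := 1) (cn := .pnn) (n1 := ndF0q0) (n2 := ndF2q1) (pc := pcF1) (cut := Cut.none) (xt := Ext.none) (P1 := 0) (W1 := 536870912) (P2 := 536870912) (W2 := 536870912) (P3 := 67108864) (W3 := 67108864)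
    rfl rfl rfl k0_pm_011

noncomputable def cut_pm_012_a : Cut := Cut.of [[⟨0, 0, 0, 67108864⟩, ⟨1, 1, 0, 67108864⟩, ⟨2, 1, 0, 67108864⟩], [⟨0, 0, 1, 33554432⟩, ⟨1, 1, 2, 33554432⟩, ⟨2, 1, 0, 16777216⟩, ⟨0, 0, 0, 150994944⟩, ⟨0, 1, 0, 1023410176⟩, ⟨1, 0, 0, 1023410176⟩, ⟨1, 1, 0, 150994944⟩]]

noncomputable def f_pm_012_a : ℕ → ℕ → ℕ → ℕ → Bool := onCell 536870912 536870912 0 536870912 67108864 67108864
    (rowFK 2 false true false .pnp 0 1 2 (qsf 0 536870912 0 536870912 1) ndF0q0 ndF2q2a pcF1 cut_pm_012_a Ext.none)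

def k0_pm_012_a : ∃ t, chk3 f_pm_012_a t 2 1 1 = true :=
  ⟨(b (a (l 17950584) (a (l 17629992) (l 17546856))) (b (a (l 18132088) (a (l 17813800) (l 17626296))) (a (b (l 18275024) (a (l 18309848) (l 18314376))) (b (a (l 17982888) (l 17768792)) (a (b (l 18097192) (l 18166048)) (a (l 17938864) (l 17785120))))))), by decide +kernel⟩

def k1_pm_012_a : ∃ t, chk3 f_pm_012_a t 3 2 1 = true :=
  ⟨(a (a (l 18164744) (b (l 18547264) (a (l 18372016) (l 18635680)))) (a (a (b (l 18821440) (l 18729816)) (b (l 18897496) (b (l 18823328) (l 18533632)))) (a (a (b (l 18911776) (b (l 18808448) (c (l 19049992) (l 18243512)))) (b (l 18802576) (b (a (l 18781904) (l 18753240)) (c (l 19044712) (a (l 18142360) (l 17949672)))))) (b (c (l 19326864) (a (l 18391448) (b (l 18281248) (a (l 18233016) (l 17996008))))) (c (b (l 19177992) (a (l 18988104) (b (l 18966712) (l 18620064)))) (b (a (b (l 18243896) (l 18130200)) (a (b (l 18093176) (l 17848440)) (c (l 18190680) (b (l 17654576) (b (l 17527960)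 (l 17386136)))))) (a (c (b (l 18249736) (l 18069216)) (b (l 17691648) (a (l 17584048) (l 17223632)))) (c (b (a (l 18076272) (l 17920736)) (a (l 17852344) (c (l 17838496) (b (l 17556352) (l 17314424))))) (b (a (l 17253368) (b (l 17082008) (a (l 17240736) (l 16947200)))) (b (a (l 17170280) (a (l 17009384) (l 16723856))) (a (l 16894040) (a (l 16797104) (l 16600920))))))))))))), by decide +kernel⟩

def k2_pm_012_a : ∃ t, chk3 f_pm_012_a t 6 3 1 = true :=
  ⟨(b (a (a (l 17819000) (l 18180640)) (a (b (l 18289528) (l 18177104)) (b (l 18500552) (a (l 18305352) (l 18339944))))) (b (a (b (l 17861336) (a (l 17741440) (l 17868152))) (a (b (l 18061840) (l 17954976)) (b (a (l 18134928) (l 18132928)) (a (a (l 17977960) (l 17726320)) (b (l 17999568) (l 17769384)))))) (a (a (l 17804560) (b (l 17793904) (a (l 17674096) (l 17698288)))) (a (b (l 17770896) (a (l 17653864) (a (l 17545144) (b (l 17689752) (l 17508528))))) (b (a (b (l 17847184) (l 17533568)) (c (l 17973480) (b (l 17523688)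 (a (l 17434688) (l 17320896))))) (a (a (c (l 17775160) (b (l 17470336) (b (l 17397632) (l 17328424)))) (c (l 17685240) (b (l 17327696) (c (l 17375664) (b (l 17201872) (a (l 17180552) (l 17010088))))))) (c (b (l 17761992) (b (l 17644184) (l 17498720))) (a (b (l 17077560) (c (b (l 17325968) (l 17257712)) (b (l 17013096) (b (l 16946952) (a (l 16981256) (l 14)))))) (b (c (l 17355904) (b (l 17134200) (l 17026864))) (c (b (l 17249392) (b (l 17196112) (l 17118992))) (b (b (l 16978456) (l 14)) (l 14)))))))))))), by decide +kernel⟩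

def k3_pm_012_a : ∃ t, chk3 f_pm_012_a t 14 6 1 = true :=
  ⟨(b (a (l 18541400) (a (l 18510136) (b (l 18531904) (l 18222768)))) (a (a (l 18107856) (b (l 18358224) (l 18113360))) (c (b (l 18648640) (a (l 18480416) (l 18409584))) (b (a (l 17947904) (a (l 17840448) (l 17750152))) (b (a (l 17798280) (a (l 17665792) (l 17554568))) (a (l 17682152) (a (l 17529744) (l 17254840)))))))), by decide +kernel⟩

def k4_pm_012_a : ∃ t, chk3 f_pm_012_a t 30 6 1 = true :=
  ⟨(b (c (a (l 18816456) (a (l 18770448) (l 18723280))) (b (a (l 17987184) (a (l 17887448) (l 17639776))) (a (a (l 17879008) (l 17713120)) (a (a (l 17641688) (l 17466928)) (c (l 17776544) (b (l 17294000) (l 17129304))))))) (a (c (b (l 18544392) (a (l 18321144) (l 18072752))) (b (c (a (l 17871800) (l 17758448)) (a (l 17346168) (b (l 17333776) (l 17172088)))) (b (a (l 17230736) (a (l 17235520) (l 17081152))) (a (c (l 17497080) (l 16931664)) (a (l 16959280) (l 16853368)))))) (c (b (a (l 18447944) (l 18315392)) (c (a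 (l 18435984) (l 18332496)) (a (b (l 17931544) (l 17738296)) (b (l 17775448) (l 17340368))))) (b (a (a (b (l 17469392) (l 17194952)) (b (l 17342320) (l 17076176))) (c (b (l 17537328) (l 17303856)) (b (l 16940496) (l 16723296)))) (a (a (b (l 16937760) (l 16777512)) (b (l 16887616) (l 16750800))) (b (l 16672368) (l 16621464))))))), by decide +kernel⟩

def k5_pm_012_a : ∃ t, chk3 f_pm_012_a t 31 12 1 = true :=
  ⟨(b (a (c (l 18738408) (c (a (l 17905256) (l 17708008)) (a (l 17076888) (b (l 17157688) (l 16882992))))) (c (c (l 18915784) (a (l 18255384) (b (l 18169936) (l 17999424)))) (b (c (a (l 17638736) (c (l 17596800) (a (l 17283408) (l 16995072)))) (a (a (l 17018656) (l 16817280)) (l 16542008))) (c (a (l 17214840) (c (a (l 17467256) (l 17265704)) (a (l 17015928) (b (l 16956536) (l 16793144))))) (a (l 16561960) (a (l 16539336) (l 16543208))))))) (b (c (a (l 18565192) (a (l 18262768) (c (l 18638440) (a (l 17858320) (l 17546368))))) (a (c (a (l 17696184) (l 17464328)) (a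 (l 17087880) (l 16708088))) (a (c (c (l 17453120) (a (l 17149728) (l 16961920))) (l 16541344)) (a (l 16572728) (l 16558376))))) (c (a (l 18173352) (c (l 18489832) (a (l 17691520) (c (l 17657008) (a (l 17396064) (b (l 17326984) (l 17016000))))))) (a (c (a (l 17528824) (a (l 17369320) (l 17162512))) (a (l 16853936) (l 16607072))) (a (l 16562496) (a (l 16557816) (b (l 16559480) (l 16564112)))))))), by decide +kernel⟩

def k6_pm_012_a : ∃ t, chk3 f_pm_012_a t 31 26 1 = true :=
  ⟨(a (c (c (l 18461688) (a (b (l 17996072) (l 17802712)) (b (l 17817592) (a (l 17647360) (l 17357536))))) (b (a (c (l 17188344) (l 16674248)) (l 16564856)) (a (l 16616760) (l 16572304)))) (a (c (c (b (l 18414128) (l 18188048)) (b (c (l 17791976) (a (l 17447880) (l 17175880))) (c (a (l 17598488) (l 17325672)) (a (l 16941448) (b (l 17057736) (l 16848712)))))) (b (a (l 16558968) (l 16563208)) (a (l 16569360) (l 16584240)))) (b (c (c (l 18009944) (c (a (l 17590320) (b (l 17506312) (l 17203256))) (a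 (b (l 17210432) (l 16930096)) (b (a (l 17054216) (l 16850960)) (a (l 16844624) (l 16694560)))))) (a (l 16577968) (b (l 16568984) (l 16574104)))) (b (a (c (c (l 18082960) (c (l 17364960) (l 16739512))) (l 16575048)) (c (c (l 17884808) (c (a (l 17206256) (l 16937608)) (l 16580560))) (l 16584728))) (a (a (l 16582168) (l 16589680)) (c (c (c (l 18052584) (l 17435936)) (l 16594872)) (l 16595616))))))), by decide +kernel⟩

def k7_pm_012_a : ∃ t, chk3 f_pm_012_a t 31 27 1 = true :=
  ⟨(a (a (c (c (b (l 18305152) (l 18079272)) (b (c (l 17758184) (l 17309672)) (c (l 17291104) (b (l 17189760) (l 16933496))))) (b (l 16572928) (b (l 16570792) (l 16577064)))) (b (c (c (l 18140376) (c (a (l 17587600) (l 17452568)) (a (l 17125504) (b (l 17107200) (l 16944488))))) (b (l 16569688) (l 16575536))) (a (a (l 16618752) (l 16619616)) (b (l 16586512) (l 16613816))))) (b (b (a (a (a (c (c (l 18076752) (l 17092432)) (l 16576280)) (l 16634576)) (l 16605376)) (a (a (l 16608824) (l 16596712)) (c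 (c (c (l 17883688) (a (l 17359504) (l 17045664))) (l 16601472)) (c (l 16597584) (l 16589752))))) (a (a (l 16606640) (a (l 16589152) (l 16591472))) (a (a (l 16614784) (a (l 16616544) (l 16601992))) (a (a (l 16604808) (b (l 16607928) (l 16611016))) (c (c (c (l 17646688) (c (l 17120496) (b (l 16947536) (l 16786224)))) (l 16602112)) (l 16598432)))))) (a (a (b (l 16612752) (a (l 16597000) (l 16599408))) (a (b (l 16595328) (l 16622776)) (b (l 16618664) (l 16625184)))) (a (b (a (l 16605312) (a (l 16612344) (l 16609608))) (a (l 16614488) (c (l 16611160) (l 16606944)))) (b (a (c (l 16611496) (l 16602568)) (c (a (l 16608960) (l 16615424)) (l 16615440))) (a (c (l 16618872) (l 16609360)) (a (c (l 16620728) (l 16611176)) (c (l 16621976) (l 16612392))))))))), by decide +kernel⟩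

def k8_pm_012_a : ∃ t, chk3 f_pm_012_a t 14 14 1 = true :=
  ⟨(c (a (b (l 18351128) (b (l 18189264) (a (l 18098080) (l 18012144)))) (b (a (l 18253064) (b (l 18213680) (l 17826816))) (a (b (l 18044944) (a (l 17918424) (l 17732168))) (b (c (l 18119016) (a (l 17698288) (l 17528680))) (a (b (l 17786992) (l 17622304)) (c (l 17866792) (b (l 17407376) (l 17226288)))))))) (a (b (a (l 17788120) (b (l 17721736) (l 17602264))) (b (a (l 17628344) (a (l 17514544) (l 17336888))) (a (b (l 17539200) (l 17475496)) (c (b (l 17534928) (l 17459800)) (b (l 17065752) (l 16926352)))))) (b (b (a (a (l 17600048) (l 17498712)) (a (l 17229856) (a (l 17205488) (l 17061120)))) (a (a (l 17462184) (l 17156720)) (a (a (l 17137568) (l 17018264)) (a (l 16911952) (l 16817616))))) (a (a (b (b (l 17349752) (l 17248376)) (b (l 17080256) (l 17013224))) (b (b (l 17157080) (l 17025360)) (b (l 16889216) (l 16853600)))) (b (a (b (l 16937416) (l 16836056)) (b (l 16788440) (l 16735368))) (b (a (l 16750424) (l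 16633968)) (a (l 16743544) (l 16614368)))))))), by decide +kernel⟩

def k9_pm_012_a : ∃ t, chk3 f_pm_012_a t 28 15 1 = true :=
  ⟨(c (b (a (b (l 17966048) (l 17816776)) (b (l 17858280) (a (l 17722968) (l 17517880)))) (b (a (a (l 17683288) (l 17576400)) (c (l 17537304) (a (l 17233872) (b (l 17322040) (l 17056152))))) (a (c (b (l 17656840) (l 17560344)) (b (l 17257736) (a (l 17339808) (b (l 17274856) (l 17189168))))) (c (b (l 17381368) (a (l 17445432) (b (l 17377992) (l 17280568)))) (b (a (l 17095744) (c (l 17146384) (l 14))) (a (c (b (l 17248080) (l 17200816)) (l 14)) (l 14))))))) (b (a (b (a (l 17416320) (l 17224224)) (a (l 17048448) (b (l 17156160) (l 16996496)))) (a (b (c (l 17391920) (l 16997496)) (c (l 17083024) (b (l 16941688) (l 16860952)))) (b (c (l 17283912) (l 16798248)) (b (l 16826288) (l 16757736))))) (b (a (c (a (l 17147016) (b (l 17215560) (l 17052096))) (b (a (l 17034232) (l 16854656)) (l 14))) (b (a (c (l 17040536) (l 16759456)) (l 16689008)) (a (l 14)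 (c (l 14) (l 16707464))))) (c (a (b (a (l 17055768) (c (l 17085952) (l 14))) (a (c (b (l 17169104) (l 17131400)) (l 14)) (l 14))) (l 14)) (c (l 14) (c (l 14) (a (l 14) (a (l 14) (a (l 14) (b (l 16726776) (b (l 16731024) (a (l 14) (a (l 14) (b (l 16738872) (b (l 16742616) (l 16745120)))))))))))))))), by decide +kernel⟩

def k10_pm_012_a : ∃ t, chk3 f_pm_012_a t 29 30 1 = true :=
  ⟨(a (c (c (b (l 17902144) (a (l 17742840) (l 17643696))) (b (a (l 17546904) (l 17365360)) (a (b (l 17401928) (l 17300192)) (b (l 17226024) (l 16904048))))) (b (a (c (l 16902552) (l 16690752)) (b (l 16792768) (l 16728408))) (a (b (l 16750184) (l 16714440)) (a (l 16674480) (l 16675248))))) (a (b (c (c (l 17758400) (b (l 17339432) (l 17097528))) (b (l 16626880) (l 16648176))) (b (c (c (l 17581960) (a (l 17147240) (l 17012784))) (a (l 16645776) (l 16646648))) (a (l 16729408) (l 16699944)))) (b (b (c (c (l 17692760) (l 16954192)) (b (l 16627472) (l 16636328))) (b (l 16694360) (l 16699048))) (b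 (a (l 16690008) (l 16691248)) (a (l 16709056) (l 16715176)))))), by decide +kernel⟩

def k11_pm_012_a : ∃ t, chk3 f_pm_012_a t 58 31 1 = true :=
  ⟨(c (c (b (a (l 17336544) (c (l 17428088) (b (l 17360928) (l 14)))) (b (a (l 17163664) (c (l 17216248) (l 14))) (a (c (b (l 17353704) (l 17293056)) (l 14)) (l 14)))) (b (b (a (l 17006832) (a (l 16998896) (l 16871080))) (l 14)) (l 14))) (b (a (b (a (l 16680160) (l 16680824)) (c (l 14) (l 16708720))) (b (l 16691792) (a (l 16711232) (l 16712000)))) (c (a (l 14) (a (l 14) (a (l 14) (a (l 14) (b (l 16732936) (b (l 16737368) (b (l 16744904) (c (l 14) (b (l 16748184) (c (l 14) (b (l 16749824) (l 16751088)))))))))))) (b (a (a (l 16728296) (l 16729024)) (a (l 16729800) (l 16730624))) (b (a (a (l 16737848) (l 16738568)) (a (l 16744584) (l 16745408))) (a (a (c (l 14) (b (l 16739488) (b (a (l 16743168) (l 16743536)) (b (a (l 16745048) (l 16745416)) (a (a (l 16746240) (l 16746424)) (a (l 16746608) (l 16746792))))))) (b (l 16746048) (b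 (a (l 16744496) (l 16744872)) (a (c (l 14) (a (l 16748320) (l 16749168))) (a (c (l 14) (l 16749368)) (c (c (l 14) (l 16749112)) (l 16749568))))))) (b (a (c (l 16747352) (l 16741040)) (c (l 16748144) (l 16741880))) (a (b (a (l 16745264) (l 16745672)) (b (a (l 16747152) (l 16747552)) (a (a (a (l 16750264) (l 16749712)) (a (l 16749808) (l 16751224))) (a (a (l 16751320) (l 16751424)) (a (l 16751528) (l 16751632)))))) (b (a (l 16746088) (l 16746512)) (b (a (l 16747968) (l 16748400)) (a (b (l 16750224) (a (l 16750784) (l 16750992))) (a (c (l 16750104) (l 16749064)) (l 16751440))))))))))))), by decide +kernel⟩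

def k12_pm_012_a : ∃ t, chk3 f_pm_012_a t 59 62 1 = true :=
  ⟨(a (b (a (a (l 16718984) (l 16705880)) (a (l 16706280) (l 16706688))) (c (l 14) (a (l 16712824) (l 16713696)))) (a (b (a (l 16707112) (l 16707552)) (c (l 14) (l 16714616))) (b (a (l 16728976) (l 16729440)) (c (c (l 14) (l 16717440)) (l 16715576))))), by decide +kernel⟩

def k13_pm_012_a : ∃ t, chk3 f_pm_012_a t 118 63 1 = true :=
  ⟨(c (l 14) (b (b (c (l 16727864) (l 16726264)) (a (l 16732016) (l 16732880))) (b (a (a (l 16741920) (l 16742344)) (a (l 16742784) (l 16743240))) (b (a (a (l 16749416) (l 16749848)) (a (l 16750288) (l 16750736))) (c (a (c (l 14) (b (a (l 16748448) (l 16748856)) (b (a (l 16750336) (l 16750752)) (a (b (l 16751288) (a (l 16751864) (l 16752064))) (a (l 16753264) (l 16753472)))))) (a (b (l 16749752) (c (l 14) (b (l 16751176) (a (l 16753688) (l 16752592))))) (b (l 16750168) (a (b (l 16752008) (c (l 14) (l 16752808))) (b (l 16752224) (c (a (l 14) (l 16754016)) (l 16753032))))))) (a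 (b (a (l 16746960) (l 16747408)) (a (b (l 16748840) (a (l 16751336) (l 16752872))) (b (l 16749288) (a (l 16753096) (l 16753328))))) (b (a (l 16747872) (l 16748352)) (a (b (l 16749752) (a (l 16750936) (l 16751176))) (b (l 16750232) (a (l 16751416) (l 16751656))))))))))), by decide +kernel⟩

def k14_pm_012_a : ∃ t, chk3 f_pm_012_a t 119 63 1 = true :=
  ⟨(a (c (l 14) (b (a (l 16734120) (l 16734600)) (b (a (l 16743704) (l 16744176)) (a (b (l 16751200) (a (b (l 16754896) (b (c (l 16752448) (l 16750648)) (c (c (a (l 16754120) (l 16754232)) (l 16753256)) (l 16751904)))) (b (l 16755136) (c (b (l 16752664) (b (l 16753616) (a (l 16755520) (l 16755632)))) (l 16754144))))) (b (l 16751672) (a (b (l 16755376) (b (l 16754312) (c (b (l 16753840) (a (l 16755744) (l 16755856))) (l 16752400)))) (b (l 16750368) (b (l 16754880) (c (c (c (l 16756344) (l 16754600)) (l 16753952)) (l 16752656)))))))))) (c (a (l 14) (a (l 14) (a (l 14) (c (l 14) (b (l 16737920) (b (l 16747680) (b (l 16750016)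 (c (l 14) (b (l 16753432) (b (l 16755336) (l 16757920))))))))))) (b (b (l 16719664) (l 16739984)) (b (a (l 16744664) (l 16745168)) (a (b (l 16752160) (a (b (l 16750616) (b (l 16755120) (c (a (l 16755880) (l 16756000)) (l 16752912)))) (b (l 16750864) (b (l 16755368) (c (a (l 16756112) (l 16756232)) (l 16753168)))))) (b (l 16752656) (c (b (l 16751976) (b (l 16755512) (a (a (l 16756352) (l 16756464)) (a (l 16756584) (l 16758016))))) (b (l 16750368) (a (l 16755424) (l 16755696)))))))))), by decide +kernel⟩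

def k15_pm_012_a : ∃ t, chk3 f_pm_012_a t 120 7 1 = true :=
  ⟨(b (b (b (c (l 18089848) (b (l 16932928) (l 16848808))) (c (l 17673568) (b (l 16778760) (l 16722400)))) (b (c (c (l 17970256) (b (l 17470136) (l 17245640))) (b (l 16637440) (l 16638680))) (b (c (c (l 17798080) (a (l 17273024) (l 17148208))) (b (l 16602000) (l 16606072))) (a (c (c (l 17710000) (l 17141904)) (l 16616952)) (l 16726464))))) (b (b (b (b (l 16688000) (a (l 16677536) (l 16640256))) (a (l 16673832) (a (l 16653936) (l 16654464)))) (a (b (l 16692176) (c (l 16733264) (l 16689064))) (b (l 16703632) (c (l 16715376) (l 16690120))))) (b (b (a (a (l 16719432) (l 16698944)) (a (l 16699448) (l 16699960))) (c (c (l 14) (a (l 16718288) (l 16721800))) (a (l 16716584) (l 16717624)))) (c (c (l 14) (a (c (l 14) (b (b (l 16722232) (l 16737408)) (a (b (l 16747504) (b (l 16749824) (b (l 16753624) (a (b (l 16755488) (a (l 16758032) (l 6))) (l 6))))) (b (l 16747960) (b (l 16750272) (l 6)))))) (b (b (l 16728664) (l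 16741232)) (a (b (l 16748768) (l 6)) (l 6))))) (b (b (a (l 16720656) (l 16732176)) (a (l 16740976) (l 16742000))) (a (b (a (l 16745680) (l 16746200)) (b (a (l 16753160) (l 16753680)) (a (a (b (l 16751616) (b (l 16756128) (c (c (l 16757272) (l 16755160)) (l 16753968)))) (b (l 16751880) (l 6))) (l 6)))) (a (b (l 16746736) (l 6)) (l 6)))))))), by decide +kernel⟩

def k16_pm_012_a : ∃ t, chk3 f_pm_012_a t 121 7 1 = true :=
  ⟨(b (b (c (c (l 18083104) (b (l 17690312) (b (l 17525896) (l 17279616)))) (b (a (l 16781544) (l 16721104)) (a (l 16635408) (l 16614032)))) (a (b (c (c (l 17871096) (b (l 17328848) (l 17195096))) (l 16605656)) (b (l 16695680) (c (c (l 17539144) (l 16898296)) (l 16620728)))) (b (b (c (c (l 17858128) (l 17219272)) (l 16602672)) (l 16684600)) (b (l 16660688) (b (l 16624632) (l 16629008)))))) (b (a (b (b (c (c (l 17345640) (l 16734600)) (l 16636672)) (b (l 16650280) (l 16659368))) (a (b (l 16673336) (l 16691992)) (b (l 16673880) (l 16692536)))) (b (b (c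 (c (l 17081216) (b (l 16638816) (l 16642728))) (l 16638152)) (b (l 16651672) (c (l 16689568) (l 16660488)))) (a (b (l 16674440) (l 16693088)) (b (l 16675096) (l 16693736))))) (b (b (a (a (l 16700480) (l 16701016)) (a (l 16701568) (l 16702208))) (a (c (a (l 16720760) (l 16722552)) (l 16721320)) (c (b (l 16711640) (l 16724064)) (c (l 16723160) (l 16719696))))) (a (b (b (c (l 16732728) (l 16733248)) (l 6)) (l 6)) (l 6))))), by decide +kernel⟩

def k17_pm_012_a : ∃ t, chk3 f_pm_012_a t 61 7 1 = true :=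
  ⟨(b (b (a (c (c (b (l 18155544) (l 17820656)) (b (a (l 17561456) (l 17461336)) (c (a (l 17473456) (l 17361768)) (a (l 16978632) (l 16825776))))) (a (b (l 16625368) (l 16598808)) (b (l 16589672) (l 16604008)))) (b (c (c (l 18006976) (b (l 17251360) (l 17002944))) (b (l 16572600) (l 16579336))) (b (l 16638168) (a (l 16613192) (l 16618680))))) (b (a (a (b (l 16692696) (a (l 16630496) (l 16618056))) (b (l 16614592) (l 16622480))) (a (b (l 16620456) (l 16628432)) (b (l 16626360) (l 16655400)))) (a (a (b (l 16677320) (l 16654024)) (b (b (l 16627928) (l 16632128)) (l 16638736))) (a (b (l 16657496) (l 16644872)) (b (c (l 16643152) (l 16642072)) (l 16651056)))))) (b (a (b (a (b (b (l 16639768) (c (l 16710144) (l 16644376))) (b (c (l 16653008) (l 16652800)) (l 16661984))) (b (b (l 16645520) (l 16650144)) (b (a (l 16654400) (l 16656416)) (l 16663816)))) (b (a (a (a (l 16675640) (l 16676016)) (c (l 16676832) (l 16676264))) (b (l 16672960) (l 16682192))) (a (a (l 16715344) (l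 16695176)) (b (l 16691496) (l 16700880))))) (a (b (b (b (l 16651728) (l 16656392)) (b (l 16661136) (b (l 16664752) (l 16667440)))) (b (b (l 16674312) (l 16683528)) (b (l 16692824) (l 6)))) (b (b (l 16686536) (c (l 16670008) (l 16669816))) (b (b (b (l 16676072) (l 16678568)) (l 6)) (l 6))))) (a (b (b (a (a (l 16704152) (l 16703624)) (a (l 16704304) (l 6))) (l 6)) (l 6)) (l 6)))), by decide +kernel⟩

def k18_pm_012_a : ∃ t, chk3 f_pm_012_a t 31 28 1 = true :=
  ⟨(a (b (b (a (b (l 16652816) (l 16626240)) (a (l 16593752) (l 16620456))) (a (a (l 16589128) (l 16594864)) (a (l 16621608) (l 16635296)))) (b (a (a (l 16617152) (l 16622968)) (a (l 16628832) (l 16624248))) (a (a (l 16624544) (l 16630456)) (a (l 16625920) (a (l 16640904) (l 16643912)))))) (b (b (a (a (a (l 16603712) (l 16606160)) (c (l 16614320) (l 16607912))) (a (c (a (l 16615440) (l 16623176)) (l 16623264)) (a (c (l 16625688) (l 16626952)) (b (c (l 16623632) (l 16616920)) (c (l 16627128) (l 16620552)))))) (a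 (c (a (l 16618368) (l 16623944)) (a (l 16610280) (l 16615200))) (a (a (b (l 16629120) (l 16632784)) (c (l 16630280) (l 16621400))) (a (c (c (l 16633760) (l 16631912)) (c (l 16624824) (l 16622968))) (b (c (l 16633328) (l 16624272)) (c (c (l 16632656) (l 16630824)) (l 16628072))))))) (a (b (a (a (l 16639088) (l 16641624)) (c (c (l 16632888) (l 16630480)) (l 16633312))) (c (a (c (l 16637520) (l 16638320)) (a (l 16653408) (l 16640288))) (a (l 16636200) (c (l 16642024) (l 16640552))))) (b (b (a (c (l 16634248) (l 16625624)) (a (c (l 16632880) (l 16629416)) (c (c (l 16638984) (l 16634600)) (l 16631960)))) (a (c (l 16639328) (l 16629536)) (a (c (l 16636688) (l 16633368)) (c (c (l 16642776) (l 16638464)) (l 16638552))))) (a (c (a (l 16642904) (c (l 16646304) (l 16644768))) (b (l 16633544) (l 16642872))) (a (b (c (l 16645824) (l 16637400)) (l 6)) (l 6))))))), by decide +kernel⟩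

def k19_pm_012_a : ∃ t, chk3 f_pm_012_a t 31 29 1 = true :=
  ⟨(b (a (a (a (b (l 16632312) (l 16661440)) (b (l 16659280) (c (l 16647416) (l 16624712)))) (a (b (l 16633864) (c (l 16643152) (l 16651728))) (b (c (l 16641128) (l 16638752)) (c (l 16649416) (l 16647320))))) (a (a (a (b (l 16644432) (c (l 16648792) (l 16641320))) (b (c (l 16658816) (l 16635280)) (c (l 16651488) (l 16654448)))) (a (b (c (l 16645728) (l 16637864)) (c (l 16656792) (l 16657072))) (b (c (l 16648376) (l 16650944)) (l 6)))) (b (b (a (a (a (l 16641248) (l 6)) (l 6)) (l 6)) (l 6)) (l 6)))) (a (b (a (c (a (l 16670344) (l 16645152)) (a (l 16648120) (l 16654208))) (a (a (l 16649112) (l 16653544)) (b (a (l 16642208) (l 16645344)) (l 16653488)))) (a (a (l 16678256) (a (l 16661992) (l 16665136))) (a (b (l 16667536) (l 16672232)) (l 6)))) (b (b (a (a (c (l 16655968) (l 16648720)) (l 6)) (l 6)) (l 6)) (l 6)))), by decide +kernel⟩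

def k20_pm_012_a : ∃ t, chk3 f_pm_012_a t 31 15 1 = true :=
  ⟨(b (a (b (a (b (c (a (l 16666976) (l 16657704)) (a (l 16666312) (l 16672592))) (a (b (l 16673872) (l 16678800)) (l 6))) (l 6)) (l 6)) (l 6)) (l 6)), by decide +kernel⟩

theorem s21_pm_012_a : ∃ t, chk3 f_pm_012_a t 31 14 1 = true := ex3_b k18_pm_012_a k19_pm_012_a

theorem s22_pm_012_a : ∃ t, chk3 f_pm_012_a t 31 7 1 = true := ex3_b s21_pm_012_a k20_pm_012_a

theorem s23_pm_012_a : ∃ t, chk3 f_pm_012_a t 60 7 1 = true := ex3_a k15_pm_012_a k16_pm_012_a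

theorem s24_pm_012_a : ∃ t, chk3 f_pm_012_a t 30 7 1 = true := ex3_a s23_pm_012_a k17_pm_012_a

theorem s25_pm_012_a : ∃ t, chk3 f_pm_012_a t 15 7 1 = true := ex3_a s24_pm_012_a s22_pm_012_a

theorem s26_pm_012_a : ∃ t, chk3 f_pm_012_a t 59 63 1 = true := ex3_a k13_pm_012_a k14_pm_012_a

theorem s27_pm_012_a : ∃ t, chk3 f_pm_012_a t 59 31 1 = true := ex3_b k12_pm_012_a s26_pm_012_a

theorem s28_pm_012_a : ∃ t, chk3 f_pm_012_a t 29 31 1 = true := ex3_a k11_pm_012_a s27_pm_012_a

theorem s29_pm_012_a : ∃ t, chk3 f_pm_012_a t 29 15 1 = true := ex3_b k10_pm_012_a s28_pm_012_a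

theorem s30_pm_012_a : ∃ t, chk3 f_pm_012_a t 14 15 1 = true := ex3_a k9_pm_012_a s29_pm_012_a

theorem s31_pm_012_a : ∃ t, chk3 f_pm_012_a t 14 7 1 = true := ex3_b k8_pm_012_a s30_pm_012_a

theorem s32_pm_012_a : ∃ t, chk3 f_pm_012_a t 7 7 1 = true := ex3_a s31_pm_012_a s25_pm_012_a

theorem s33_pm_012_a : ∃ t, chk3 f_pm_012_a t 31 13 1 = true := ex3_b k6_pm_012_a k7_pm_012_a

theorem s34_pm_012_a : ∃ t, chk3 f_pm_012_a t 31 6 1 = true := ex3_b k5_pm_012_a s33_pm_012_a

theorem s35_pm_012_a : ∃ t, chk3 f_pm_012_a t 15 6 1 = true := ex3_a k4_pm_012_a s34_pm_012_a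

theorem s36_pm_012_a : ∃ t, chk3 f_pm_012_a t 7 6 1 = true := ex3_a k3_pm_012_a s35_pm_012_a

theorem s37_pm_012_a : ∃ t, chk3 f_pm_012_a t 7 3 1 = true := ex3_b s36_pm_012_a s32_pm_012_a

theorem s38_pm_012_a : ∃ t, chk3 f_pm_012_a t 3 3 1 = true := ex3_a k2_pm_012_a s37_pm_012_a

theorem s39_pm_012_a : ∃ t, chk3 f_pm_012_a t 3 1 1 = true := ex3_b k1_pm_012_a s38_pm_012_a

theorem s40_pm_012_a : ∃ t, chk3 f_pm_012_a t 1 1 1 = true := ex3_a k0_pm_012_a s39_pm_012_a

theorem c_pm_012_a : CertF 0 536870912 0 536870912 67108864 67108864 false true false .pnp 0 1 2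
    ndF0q0 ndF2q2a pcF1 cut_pm_012_a Ext.none :=
  certFK2 (fam := false) (s1 := true) (s2 := false) (a := 0) (b := 1) (c := 2) (cn := .pnp) (n1 := ndF0q0) (n2 := ndF2q2a) (pc := pcF1) (cut := cut_pm_012_a) (xt := Ext.none) (P1 := 0) (W1 := 536870912) (P2 := 0) (W2 := 536870912) (P3 := 67108864) (W3 := 67108864)
    rfl rfl rfl (fun _ => rfl) s40_pm_012_a

noncomputable def cut_pm_012_b : Cut := Cut.of [[⟨0, 0, 0, 67108864⟩, ⟨1, 1, 0, 67108864⟩, ⟨2, 1, 0, 67108864⟩], [⟨0, 0, 1, 33554432⟩, ⟨1, 1, 2, 33554432⟩, ⟨2, 1, 0, 16777216⟩, ⟨0, 0, 0, 150994944⟩, ⟨0, 1, 0, 1023410176⟩, ⟨1, 0, 0, 1023410176⟩, ⟨1, 1, 0, 150994944⟩]]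

noncomputable def f_pm_012_b : ℕ → ℕ → ℕ → ℕ → Bool := onCell 536870912 536870912 1239849684 370763052 67108864 67108864
    (rowFK 2 false true false .pnp 0 1 2 (qsf 0 536870912 1239849684 370763052 1) ndF0q0 ndF2q2b pcF1 cut_pm_012_b Ext.none)

def k0_pm_012_b : ∃ t, chk3 f_pm_012_b t 1 1 1 = true :=
  ⟨(a (b (a (l 2) (b (a (l 17372928) (l 17383584)) (a (l 2) (l 17084816)))) (l 2)) (b (a (a (b (l 17878552) (l 17630520)) (b (a (l 18372264) (l 18726536)) (l 18367784))) (a (b (b (a (l 18890272) (l 19016352)) (l 19045736)) (l 18964392)) (a (b (b (a (l 19082712) (l 19125360)) (l 19300280)) (l 19308976)) (b (b (c (l 19564488) (b (a (l 18607272) (l 18507376)) (l 18844264))) (l 19435144)) (l 19525600))))) (a (a (l 2) (b (l 18105880) (l 2))) (a (b (l 18659112) (l 18219560)) (a (b (l 19060944) (l 18659552)) (l 19308544)))))), by decide +kernel⟩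

theorem c_pm_012_b : CertF 0 536870912 1239849684 370763052 67108864 67108864 false true false .pnp 0 1 2
    ndF0q0 ndF2q2b pcF1 cut_pm_012_b Ext.none :=
  certFK2 (fam := false) (s1 := true) (s2 := false) (a := 0) (b := 1) (c := 2) (cn := .pnp) (n1 := ndF0q0) (n2 := ndF2q2b) (pc := pcF1) (cut := cut_pm_012_b) (xt := Ext.none) (P1 := 0) (W1 := 536870912) (P2 := 1239849684) (W2 := 370763052) (P3 := 67108864) (W3 := 67108864)
    rfl rfl rfl (fun _ => rfl) k0_pm_012_b

noncomputable def cut_pm_022_a : Cut := Cut.of [[⟨0, 0, 0, 67108864⟩, ⟨1, 1, 0, 67108864⟩, ⟨2, 1, 0, 67108864⟩]]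

noncomputable def f_pm_022_a : ℕ → ℕ → ℕ → ℕ → Bool := onCell 1073741824 536870912 0 536870912 67108864 67108864
    (rowFK 2 false true false .pp 0 2 2 (qsf 0 536870912 0 536870912 2) ndF0q0 ndF2q2a pcF2 cut_pm_022_a Ext.none)

def k0_pm_022_a : ∃ t, chk3 f_pm_022_a t 8 2 1 = true :=
  ⟨(a (b (c (l 19216328) (b (l 18111392) (a (l 17778992) (l 17961312)))) (b (c (l 19012048) (c (b (l 18134432) (l 17975488)) (b (a (l 17435496) (l 17482048)) (a (b (l 17404512) (a (l 17248024) (l 17283880))) (l 17296952))))) (a (c (b (l 18849552) (l 18639976)) (b (c (l 17801048) (c (b (l 17345272) (a (l 17220648) (l 17194568))) (a (b (l 16803136) (a (b (l 16908880) (l 16765288)) (l 16857792))) (l 16748824)))) (c (b (l 17577672) (a (l 17240616) (l 17420192))) (a (a (b (c (l 16961488) (b (l 16636576) (l 16585144))) (b (c (l 16866520) (l 16547504)) (l 16539584))) (b (l 16743888) (l 16635288))) (b (l 16854232) (l 16664216)))))) (a (c (l 18672552) (c (b (l 17750456) (l 17471472)) (b (l 17066960)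 (l 16699896)))) (l 4))))) (b (l 4) (l 4))), by decide +kernel⟩

def k1_pm_022_a : ∃ t, chk3 f_pm_022_a t 32 12 1 = true :=
  ⟨(c (c (b (l 18761176) (l 18408928)) (b (b (l 18039256) (l 17854000)) (b (a (c (l 17874808) (l 17369880)) (l 17617856)) (c (a (l 17626360) (l 17589536)) (a (b (l 17148328) (a (c (l 17208288) (l 16843584)) (l 17075960))) (l 16984720)))))) (a (b (b (c (c (l 17458896) (b (l 17111688) (a (l 16946832) (l 16997792)))) (a (b (l 16542096) (l 16545336)) (l 16543536))) (a (c (c (l 17125288) (b (a (l 16748392) (l 16889592)) (l 16555408))) (b (l 16551384) (l 16556328))) (l 16568192))) (b (a (a (b (c (c (l 17005384) (l 16566184)) (l 16556248)) (c (c (l 16678064) (l 16563120)) (l 16560280))) (l 16565536)) (l 16560224)) (a (a (b (c (l 16570800) (l 16564544)) (c (l 16576120) (l 16569032))) (b (l 16566352) (l 16570808))) (l 16568808)))) (b (a (l 16556768) (l 16569200)) (b (l 16559896) (l 16578688))))), by decide +kernel⟩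

def k2_pm_022_a : ∃ t, chk3 f_pm_022_a t 64 26 1 = true :=
  ⟨(c (c (c (l 18081480) (b (l 17826856) (b (l 17589664) (l 17241784)))) (a (b (c (b (l 17416976) (l 17147376)) (b (a (b (l 16822760) (l 16693984)) (l 16815920)) (a (b (l 16623840) (l 16591056)) (l 16697584)))) (b (c (b (l 16991864) (b (l 16920608) (l 16808608))) (a (b (l 16595328) (l 16590488)) (l 16589336))) (a (b (l 16594712) (l 16597800)) (l 16595320)))) (b (c (l 17215288) (b (l 16912512) (l 16732848))) (l 16599104)))) (b (a (a (a (b (c (l 16579712) (l 16573744)) (c (c (l 16582712) (l 16581120)) (l 16578720))) (b (l 16575448) (l 16580368))) (b (l 16575496) (l 16580440))) (l 16588848)) (b (a (a (a (c (c (l 16593000) (l 16586240)) (l 16584440)) (l 16585544)) (l 16585648)) (l 16585864)) (a (a (b (c (l 16590920) (l 16588016)) (c (l 16593664) (l 16590832))) (l 16591120)) (l 16591392))))), by decide +kernel⟩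

def k3_pm_022_a : ∃ t, chk3 f_pm_022_a t 64 27 1 = true :=
  ⟨(b (a (c (c (c (l 17460608) (b (b (l 17227448) (l 16953176)) (c (b (l 17197992) (l 17060960)) (a (b (l 16737440) (l 16609032)) (l 16734344))))) (b (a (a (b (l 16599208) (l 16602008)) (l 16600768)) (l 16600840)) (a (a (b (l 16604880) (l 16607832)) (l 16606552)) (l 16606656)))) (a (b (b (c (l 16596480) (l 16593720)) (c (l 16599360) (l 16596688))) (b (c (l 16602976) (l 16599720)) (c (c (l 16605976) (l 16604720)) (l 16602824)))) (b (l 16596872) (l 16602920)))) (b (a (l 16605568) (l 16599824)) (c (l 16621584) (l 16603304)))) (a (a (c (a (b (b (c (c (l 17429888) (c (l 16858488) (l 16610384))) (l 16613472)) (c (c (l 17225784) (l 16614824)) (c (l 16614544) (l 16613360)))) (c (c (c (l 17237848) (b (l 16934488) (b (l 16829832) (l 16715192)))) (b (l 16618856) (l 16623360))) (c (b (l 16617704) (l 16620944)) (b (l 16616552) (l 16619832))))) (b (b (l 16612144) (l 16615216)) (b (l 16618368) (l 16621592)))) (b (c (a (b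 (l 16608392) (l 16611576)) (l 16610248)) (b (l 16606008) (l 16609264))) (c (a (b (l 16614824) (l 16618160)) (l 16616968)) (b (l 16612608) (l 16616016))))) (c (b (l 16616560) (l 16625536)) (b (l 16609264) (c (l 16617016) (l 16614832))))) (c (b (l 16614152) (l 16625672)) (b (l 16609688) (l 16626760))))), by decide +kernel⟩

def k4_pm_022_a : ∃ t, chk3 f_pm_022_a t 65 13 1 = true :=
  ⟨(b (a (b (l 16589288) (a (l 16597128) (l 16591096))) (b (l 16578976) (l 4))) (a (a (b (l 16613432) (c (l 16627088) (l 16623048))) (l 4)) (l 4))), by decide +kernel⟩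

def k5_pm_022_a : ∃ t, chk3 f_pm_022_a t 32 7 1 = true :=
  ⟨(a (b (b (b (a (a (b (a (c (c (b (b (l 16624992) (l 16626640)) (b (l 16629624) (l 16631312))) (b (c (l 16624256) (l 16623184)) (b (l 16626224) (l 16627952)))) (c (b (l 16621576) (l 16625400)) (b (l 16619424) (l 16622992)))) (b (c (l 16624904) (l 16620672)) (c (l 16630912) (l 16624216)))) (a (b (c (b (c (l 16633016) (l 16629704)) (c (c (l 16633928) (l 16632952)) (l 16631472))) (a (c (l 16628608) (l 16626592)) (l 16627696))) (c (c (a (b (l 16635160) (l 16636936)) (l 16636176)) (b (l 16633264) (l 16635072))) (c (c (l 16632792) (l 16631832)) (l 16630384)))) (b (c (l 16634392) (l 16627840)) (c (l 16639256) (l 16631552))))) (c (b (c (l 16633232) (l 16625960)) (b (l 16631960) (l 16635536))) (b (c (l 16623928) (l 16621888)) (b (l 16628136) (l 16631864))))) (a (c (b (l 16627208) (l 16634232)) (b (l 16623272) (l 16630592))) (b (l 16630112) (l 16639376)))) (b (b (b (b (a (a (c (a (c (l 16638296) (l 16636432)) (l 16637504))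 (c (l 16634656) (l 16632800))) (c (l 16637728) (l 16634152))) (c (l 16637248) (l 16633928))) (l 6)) (l 6)) (l 6)) (l 6))) (l 6)) (l 6)) (l 4)), by decide +kernel⟩

def k6_pm_022_a : ∃ t, chk3 f_pm_022_a t 33 3 1 = true :=
  ⟨(b (b (a (b (c (l 18114192) (l 16575784)) (l 4)) (l 4)) (l 4)) (l 4)), by decide +kernel⟩

def k7_pm_022_a : ∃ t, chk3 f_pm_022_a t 17 3 1 = true :=
  ⟨(l 4), by decide +kernel⟩

def k8_pm_022_a : ∃ t, chk3 f_pm_022_a t 9 1 1 = true :=
  ⟨(l 4), by decide +kernel⟩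

def k9_pm_022_a : ∃ t, chk3 f_pm_022_a t 5 1 1 = true :=
  ⟨(l 4), by decide +kernel⟩

def k10_pm_022_a : ∃ t, chk3 f_pm_022_a t 3 1 1 = true :=
  ⟨(l 1), by decide +kernel⟩

theorem s11_pm_022_a : ∃ t, chk3 f_pm_022_a t 64 13 1 = true := ex3_b k2_pm_022_a k3_pm_022_a

theorem s12_pm_022_a : ∃ t, chk3 f_pm_022_a t 32 13 1 = true := ex3_a s11_pm_022_a k4_pm_022_a

theorem s13_pm_022_a : ∃ t, chk3 f_pm_022_a t 32 6 1 = true := ex3_b k1_pm_022_a s12_pm_022_a

theorem s14_pm_022_a : ∃ t, chk3 f_pm_022_a t 32 3 1 = true := ex3_b s13_pm_022_a k5_pm_022_a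

theorem s15_pm_022_a : ∃ t, chk3 f_pm_022_a t 16 3 1 = true := ex3_a s14_pm_022_a k6_pm_022_a

theorem s16_pm_022_a : ∃ t, chk3 f_pm_022_a t 8 3 1 = true := ex3_a s15_pm_022_a k7_pm_022_a

theorem s17_pm_022_a : ∃ t, chk3 f_pm_022_a t 8 1 1 = true := ex3_b k0_pm_022_a s16_pm_022_a

theorem s18_pm_022_a : ∃ t, chk3 f_pm_022_a t 4 1 1 = true := ex3_a s17_pm_022_a k8_pm_022_a

theorem s19_pm_022_a : ∃ t, chk3 f_pm_022_a t 2 1 1 = true := ex3_a s18_pm_022_a k9_pm_022_a

theorem s20_pm_022_a : ∃ t, chk3 f_pm_022_a t 1 1 1 = true := ex3_a s19_pm_022_a k10_pm_022_a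

theorem c_pm_022_a : CertF 0 536870912 0 536870912 67108864 67108864 false true false .pp 0 2 2
    ndF0q0 ndF2q2a pcF2 cut_pm_022_a Ext.none :=
  certFK2 (fam := false) (s1 := true) (s2 := false) (a := 0) (b := 2) (c := 2) (cn := .pp) (n1 := ndF0q0) (n2 := ndF2q2a) (pc := pcF2) (cut := cut_pm_022_a) (xt := Ext.none) (P1 := 0) (W1 := 536870912) (P2 := 0) (W2 := 536870912) (P3 := 67108864) (W3 := 67108864)
    rfl rfl rfl (fun _ => rfl) s20_pm_022_a

noncomputable def cut_pm_022_b : Cut := Cut.of [[⟨0, 0, 0, 67108864⟩, ⟨1, 1, 0, 67108864⟩, ⟨2, 1, 0, 67108864⟩]]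

noncomputable def f_pm_022_b : ℕ → ℕ → ℕ → ℕ → Bool := onCell 1073741824 536870912 1239849684 370763052 67108864 67108864
    (rowFK 2 false true false .pp 0 2 2 (qsf 0 536870912 1239849684 370763052 2) ndF0q0 ndF2q2b pcF2 cut_pm_022_b Ext.none)

def k0_pm_022_b : ∃ t, chk3 f_pm_022_b t 1 1 1 = true :=
  ⟨(a (b (a (a (b (b (a (c (l 19545984) (b (b (l 18257472) (l 18477648)) (l 18743296))) (b (l 378195401191) (l 19040968))) (l 19407992)) (l 19628168)) (b (l 424904084727) (l 19477752))) (l 4)) (a (b (l 19525136) (l 19262760)) (b (l 19395672) (l 19313032)))) (l 4)), by decide +kernel⟩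

theorem c_pm_022_b : CertF 0 536870912 1239849684 370763052 67108864 67108864 false true false .pp 0 2 2
    ndF0q0 ndF2q2b pcF2 cut_pm_022_b Ext.none :=
  certFK2 (fam := false) (s1 := true) (s2 := false) (a := 0) (b := 2) (c := 2) (cn := .pp) (n1 := ndF0q0) (n2 := ndF2q2b) (pc := pcF2) (cut := cut_pm_022_b) (xt := Ext.none) (P1 := 0) (W1 := 536870912) (P2 := 1239849684) (W2 := 370763052) (P3 := 67108864) (W3 := 67108864)
    rfl rfl rfl (fun _ => rfl) k0_pm_022_b

noncomputable def f_pm_023 : ℕ → ℕ → ℕ → ℕ → Bool := onCell 0 536870912 1073741824 536870912 67108864 67108864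
    (rowFK 1 false true false .up 0 2 3 (qsf 0 536870912 1610612736 536870912 2) ndF0q0 ndF2q3 pcF2 Cut.none Ext.none)

def k0_pm_023 : ∃ t, chk3 f_pm_023 t 1 1 1 = true :=
  ⟨(b (a (b (l 1) (a (l 1) (l 339341917271))) (b (a (l 319478570263) (b (l 20210952) (l 19749608))) (a (l 254516399239) (l 19095632)))) (a (b (l 4) (l 4)) (b (a (l 18888720) (l 18414392)) (a (l 18412808) (l 17956000))))), by decide +kernel⟩

theorem c_pm_023 : CertF 0 536870912 1610612736 536870912 67108864 67108864 false true false .up 0 2 3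
    ndF0q0 ndF2q3 pcF2 Cut.none Ext.none :=
  certFK1 (fam := false) (s1 := true) (s2 := false) (a := 0) (b := 2) (c := 3) (cn := .up) (n1 := ndF0q0) (n2 := ndF2q3) (pc := pcF2) (cut := Cut.none) (xt := Ext.none) (P1 := 0) (W1 := 536870912) (P2 := 1610612736) (W2 := 536870912) (P3 := 67108864) (W3 := 67108864)
    rfl rfl rfl (fun _ => rfl) k0_pm_023

noncomputable def f_pm_033 : ℕ → ℕ → ℕ → ℕ → Bool := onCell 1610612736 536870912 1610612736 536870912 67108864 67108864
    (rowFK 2 false true false .pnn 0 3 3 (qsf 0 536870912 1610612736 536870912 3) ndF0q0 ndF2q3 pcF3 Cut.none Ext.none)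

def k0_pm_033 : ∃ t, chk3 f_pm_033 t 1 1 1 = true :=
  ⟨(a (b (l 4) (a (b (l 103317451879) (a (l 17537288) (l 17776560))) (b (l 4) (a (l 17925584) (l 4))))) (l 4)), by decide +kernel⟩

theorem c_pm_033 : CertF 0 536870912 1610612736 536870912 67108864 67108864 false true false .pnn 0 3 3
    ndF0q0 ndF2q3 pcF3 Cut.none Ext.none :=
  certFK2 (fam := false) (s1 := true) (s2 := false) (a := 0) (b := 3) (c := 3) (cn := .pnn) (n1 := ndF0q0) (n2 := ndF2q3) (pc := pcF3) (cut := Cut.none) (xt := Ext.none) (P1 := 0) (W1 := 536870912) (P2 := 1610612736) (W2 := 536870912) (P3 := 67108864) (W3 := 67108864)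
    rfl rfl rfl (fun _ => rfl) k0_pm_033

noncomputable def f_pm_101 : ℕ → ℕ → ℕ → ℕ → Bool := onCell 536870912 536870912 536870912 536870912 67108864 67108864
    (rowFK 0 false true false .npn 1 0 1 (qsf 536870912 536870912 536870912 536870912 0) ndF0q1 ndF2q1 pcF0 Cut.none Ext.none)

def k0_pm_101 : ∃ t, chk3 f_pm_101 t 1 1 1 = true :=
  ⟨(l 4), by decide +kernel⟩

theorem c_pm_101 : CertF 536870912 536870912 536870912 536870912 67108864 67108864 false true false .npn 1 0 1
    ndF0q1 ndF2q1 pcF0 Cut.none Ext.none :=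
  certFK0 (fam := false) (s1 := true) (s2 := false) (a := 1) (b := 0) (c := 1) (cn := .npn) (n1 := ndF0q1) (n2 := ndF2q1) (pc := pcF0) (cut := Cut.none) (xt := Ext.none) (P1 := 536870912) (W1 := 536870912) (P2 := 536870912) (W2 := 536870912) (P3 := 67108864) (W3 := 67108864)
    rfl rfl rfl k0_pm_101

noncomputable def cut_pm_102_a : Cut := Cut.of [[⟨0, 1, 0, 67108864⟩, ⟨1, 0, 0, 67108864⟩, ⟨2, 1, 0, 67108864⟩], [⟨0, 1, 0, 8388608⟩, ⟨1, 0, 1, 33554432⟩, ⟨2, 1, 1, 33554432⟩, ⟨1, 0, 0, 150994944⟩, ⟨1, 1, 0, 1023410176⟩, ⟨2, 1, 0, 150994944⟩, ⟨2, 2, 0, 1023410176⟩]]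

noncomputable def f_pm_102_a : ℕ → ℕ → ℕ → ℕ → Bool := onCell 536870912 536870912 0 536870912 67108864 67108864
    (rowFK 0 false true false .npp 1 0 2 (qsf 536870912 536870912 0 536870912 0) ndF0q1 ndF2q2a pcF0 cut_pm_102_a Ext.none)

def k0_pm_102_a : ∃ t, chk3 f_pm_102_a t 2 1 1 = true :=
  ⟨(b (a (b (l 2) (l 18186720)) (b (l 17906464) (l 18042376))) (b (a (a (l 2) (l 18178816)) (a (l 18070584) (l 17899560))) (b (a (a (l 18241880) (l 18211328)) (b (l 18055432) (l 18279816))) (a (a (l 18257232) (l 18241408)) (a (l 18158944) (l 18017616)))))), by decide +kernel⟩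

def k1_pm_102_a : ∃ t, chk3 f_pm_102_a t 3 2 1 = true :=
  ⟨(a (a (b (l 17554808) (l 17612600)) (b (l 17247664) (l 17467448))) (a (b (l 17135448) (a (l 17126680) (l 17124872))) (a (b (l 17293992) (l 17221848)) (a (b (l 17387936) (b (l 17335120) (l 17259560))) (b (a (l 17422928) (c (l 17617144) (a (l 17260168) (b (b (l 17206928) (l 17178216)) (a (l 17237552) (b (l 17158520) (l 17091504))))))) (a (b (l 17361080) (l 17266520)) (b (c (l 17555952) (a (l 17182512) (b (b (l 17092696) (l 17030944)) (a (l 17143864) (c (l 17235440) (b (l 17022184) (l 14))))))) (a (b (l 17292008) (l 17220536)) (c (b (l 17498080) (l 17412240)) (a (l 16777040) (c (b (l 17126152) (b (l 17082808) (l 14))) (l 14)))))))))))), by decide +kernel⟩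

def k2_pm_102_a : ∃ t, chk3 f_pm_102_a t 6 3 1 = true :=
  ⟨(b (a (b (l 17663920) (l 17702960)) (b (l 17360896) (l 17430848))) (b (a (l 17904216) (b (l 17458464) (l 17489840))) (a (b (l 17798816) (l 17827688)) (a (l 17626288) (l 17651536))))), by decide +kernel⟩

def k3_pm_102_a : ∃ t, chk3 f_pm_102_a t 7 6 1 = true :=
  ⟨(a (a (b (l 17127352) (l 17149960)) (b (l 17068336) (l 17120360))) (a (b (l 17108720) (l 17031552)) (a (b (l 17135456) (a (l 16955200) (l 16902976))) (b (a (l 16913280) (a (l 16809304) (c (b (b (l 17328576) (c (l 17447488) (l 17106968))) (a (l 17228600) (c (l 17339296) (a (l 16995152) (l 14))))) (l 14)))) (a (b (l 16905784) (l 16804632)) (a (b (l 16816768) (l 16777568)) (a (b (l 16763904) (l 16784992)) (b (c (c (b (l 17184040) (l 14)) (l 14)) (c (l 14) (a (l 16763504) (b (a (l 16750464) (b (l 14) (a (l 16749280) (c (l 14) (c (l 14) (b (l 16747144) (l 16747432))))))) (a (l 16751448) (a (l 16749768) (a (b (l 16748984) (l 16749592)) (b (c (l 14) (b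 (c (l 16748056) (l 16747456)) (l 16748064))) (b (c (l 14) (l 16748392)) (b (l 16749888) (l 16750704))))))))))) (c (l 14) (a (b (l 16757024) (l 16758128)) (a (b (l 16753688) (l 16754872)) (a (b (b (l 16752184) (l 16752832)) (b (l 16753528) (l 16754280))) (a (b (b (l 16751344) (l 16752000)) (b (l 16752712) (l 16753472))) (c (c (l 14) (b (b (l 14) (b (l 14) (b (l 14) (l 16752384)))) (b (b (b (l 16752560) (l 16752744)) (b (l 16752936) (l 16753120))) (b (b (l 16753312) (l 16753512)) (b (l 16753712) (l 16753920)))))) (b (b (b (b (l 16749568) (l 16749736)) (b (l 16749912) (l 16750096))) (b (b (l 16750280) (l 16750464)) (b (l 16750656) (l 16750848)))) (b (b (b (l 16751048) (l 16751248)) (b (l 16751448) (l 16751656))) (c (b (l 16752416) (l 16752840)) (b (l 16751464) (l 16751912))))))))))))))))))), by decide +kernel⟩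

def k4_pm_102_a : ∃ t, chk3 f_pm_102_a t 7 7 1 = true :=
  ⟨(b (a (b (a (l 17209040) (l 17081936)) (a (l 17246920) (a (l 17115784) (l 17040936)))) (a (b (l 16944128) (a (b (l 16953680) (l 16957872)) (l 16947936))) (b (a (l 16873784) (a (l 16822744) (a (l 16817976) (b (a (l 16767752) (c (l 14) (a (l 16759360) (a (l 16766672) (a (b (l 16755080) (l 16755944)) (a (b (l 16754288) (l 16755152)) (b (c (c (b (b (l 16755040) (l 16755240)) (b (l 16755448) (l 16755648))) (b (b (l 16754128) (l 16754336)) (b (l 16754552) (l 16754776)))) (c (b (l 16753280) (l 16753736)) (b (l 16752376) (l 16752856)))) (a (b (l 16754760) (l 16755232)) (b (b (c (l 16755952) (l 16753576)) (c (l 16756832) (l 16753824))) (c (b (l 16755744) (l 16755976)) (l 16755456))))))))))) (a (l 16768624) (b (a (l 16763256) (b (a (l 16760136) (b (a (l 16758496) (c (c (l 14) (c (l 14) (b (l 16757792) (l 16757904)))) (c (c (l 16757016) (l 16756200)) (l 16754976)))) (l 6))) (l 6))) (l 6))))))) (b (a (l 16855312) (a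 (l 16806416) (a (l 16781712) (l 6)))) (a (l 16854528) (a (l 16828200) (l 6))))))) (a (a (b (l 17296152) (l 17345496)) (b (l 17147488) (a (l 17221504) (l 17159344)))) (a (b (a (l 17006120) (b (l 16908304) (l 16937656))) (b (a (l 17033472) (l 16945680)) (a (l 17064752) (l 6)))) (b (a (b (l 16855728) (l 6)) (l 6)) (l 6))))), by decide +kernel⟩

theorem s5_pm_102_a : ∃ t, chk3 f_pm_102_a t 7 3 1 = true := ex3_b k3_pm_102_a k4_pm_102_a

theorem s6_pm_102_a : ∃ t, chk3 f_pm_102_a t 3 3 1 = true := ex3_a k2_pm_102_a s5_pm_102_a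

theorem s7_pm_102_a : ∃ t, chk3 f_pm_102_a t 3 1 1 = true := ex3_b k1_pm_102_a s6_pm_102_a

theorem s8_pm_102_a : ∃ t, chk3 f_pm_102_a t 1 1 1 = true := ex3_a k0_pm_102_a s7_pm_102_a

theorem c_pm_102_a : CertF 536870912 536870912 0 536870912 67108864 67108864 false true false .npp 1 0 2
    ndF0q1 ndF2q2a pcF0 cut_pm_102_a Ext.none :=
  certFK0 (fam := false) (s1 := true) (s2 := false) (a := 1) (b := 0) (c := 2) (cn := .npp) (n1 := ndF0q1) (n2 := ndF2q2a) (pc := pcF0) (cut := cut_pm_102_a) (xt := Ext.none) (P1 := 536870912) (W1 := 536870912) (P2 := 0) (W2 := 536870912) (P3 := 67108864) (W3 := 67108864)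
    rfl rfl rfl s8_pm_102_a

noncomputable def cut_pm_102_b : Cut := Cut.of [[⟨0, 1, 0, 67108864⟩, ⟨1, 0, 0, 67108864⟩, ⟨2, 1, 0, 67108864⟩], [⟨0, 1, 0, 8388608⟩, ⟨1, 0, 1, 33554432⟩, ⟨2, 1, 1, 33554432⟩, ⟨1, 0, 0, 150994944⟩, ⟨1, 1, 0, 1023410176⟩, ⟨2, 1, 0, 150994944⟩, ⟨2, 2, 0, 1023410176⟩]]

noncomputable def f_pm_102_b : ℕ → ℕ → ℕ → ℕ → Bool := onCell 536870912 536870912 1239849684 370763052 67108864 67108864
    (rowFK 0 false true false .npp 1 0 2 (qsf 536870912 536870912 1239849684 370763052 0) ndF0q1 ndF2q2b pcF0 cut_pm_102_b Ext.none)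

def k0_pm_102_b : ∃ t, chk3 f_pm_102_b t 1 1 1 = true :=
  ⟨(a (b (a (l 2) (b (a (l 17825128) (l 17635368)) (l 17443760))) (l 2)) (b (a (b (a (l 17560344) (b (l 17238416) (l 17149104))) (a (l 17190064) (l 17270960))) (a (b (a (l 17208848) (l 17321488)) (l 17473288)) (a (b (a (l 17423400) (l 17497024)) (l 17666632)) (b (a (b (l 17493728) (l 17637896)) (b (a (l 17541136) (c (l 17730232) (a (l 17403536) (b (b (b (l 17184488) (l 17282048)) (l 17351472)) (l 17437360))))) (a (l 17694496) (a (l 17721696) (l 17613168))))) (a (l 17777712) (b (l 17817720) (l 17883128))))))) (a (a (l 2) (l 17488576)) (a (b (l 17589720) (l 17624032)) (b (a (l 17755768) (a (l 17852104) (l 17920720))) (a (l 17755768) (l 17943016))))))), by decide +kernel⟩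

theorem c_pm_102_b : CertF 536870912 536870912 1239849684 370763052 67108864 67108864 false true false .npp 1 0 2
    ndF0q1 ndF2q2b pcF0 cut_pm_102_b Ext.none :=
  certFK0 (fam := false) (s1 := true) (s2 := false) (a := 1) (b := 0) (c := 2) (cn := .npp) (n1 := ndF0q1) (n2 := ndF2q2b) (pc := pcF0) (cut := cut_pm_102_b) (xt := Ext.none) (P1 := 536870912) (W1 := 536870912) (P2 := 1239849684) (W2 := 370763052) (P3 := 67108864) (W3 := 67108864)
    rfl rfl rfl k0_pm_102_b

noncomputable def f_pm_112_a : ℕ → ℕ → ℕ → ℕ → Bool := onCell 536870912 536870912 0 536870912 67108864 67108864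
    (rowFK 2 false true false .dn 1 1 2 (qsf 536870912 536870912 0 536870912 1) ndF0q1 ndF2q2a pcF1 Cut.none Ext.none)

def k0_pm_112_a : ∃ t, chk3 f_pm_112_a t 1 1 1 = true :=
  ⟨(a (b (a (l 17929648) (a (l 17630792) (l 1))) (b (a (l 18132336) (l 1)) (a (b (l 18360464) (a (l 18310464) (l 1))) (l 1)))) (l 1)), by decide +kernel⟩

theorem c_pm_112_a : CertF 536870912 536870912 0 536870912 67108864 67108864 false true false .dn 1 1 2
    ndF0q1 ndF2q2a pcF1 Cut.none Ext.none :=
  certFK2 (fam := false) (s1 := true) (s2 := false) (a := 1) (b := 1) (c := 2) (cn := .dn) (n1 := ndF0q1) (n2 := ndF2q2a) (pc := pcF1) (cut := Cut.none) (xt := Ext.none) (P1 := 536870912) (W1 := 536870912) (P2 := 0) (W2 := 536870912) (P3 := 67108864) (W3 := 67108864)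
    rfl rfl rfl (fun _ => rfl) k0_pm_112_a

noncomputable def f_pm_112_b : ℕ → ℕ → ℕ → ℕ → Bool := onCell 536870912 536870912 536870912 536870912 67108864 67108864
    (rowFK 1 false true false .dn 1 1 2 (qsf 536870912 536870912 1239849684 370763052 1) ndF0q1 ndF2q2b pcF1 Cut.none Ext.none)

def k0_pm_112_b : ∃ t, chk3 f_pm_112_b t 1 1 1 = true :=
  ⟨(a (b (a (b (a (b (l 1) (l 17976208)) (b (l 17949400) (l 17499080))) (b (l 284576651399) (l 17093144))) (b (a (l 17556464) (l 17087296)) (l 17243936))) (a (b (b (l 17415104) (l 17838192)) (b (l 18168656) (b (l 18337048) (l 18467504)))) (b (a (l 17179944) (l 17182696)) (b (l 17422384) (l 2))))) (b (a (b (a (l 17291912) (l 17582832)) (l 17647872)) (b (a (l 17767248) (b (l 17844672) (l 17765968))) (l 394703035207))) (a (b (l 17338104) (l 2)) (l 2)))), by decide +kernel⟩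

theorem c_pm_112_b : CertF 536870912 536870912 1239849684 370763052 67108864 67108864 false true false .dn 1 1 2
    ndF0q1 ndF2q2b pcF1 Cut.none Ext.none :=
  certFK1 (fam := false) (s1 := true) (s2 := false) (a := 1) (b := 1) (c := 2) (cn := .dn) (n1 := ndF0q1) (n2 := ndF2q2b) (pc := pcF1) (cut := Cut.none) (xt := Ext.none) (P1 := 536870912) (W1 := 536870912) (P2 := 1239849684) (W2 := 370763052) (P3 := 67108864) (W3 := 67108864)
    rfl rfl rfl (fun _ => rfl) k0_pm_112_b

noncomputable def cut_pm_113 : Cut := Cut.of [[⟨0, 1, 0, 21338704⟩, ⟨1, 1, 0, 21338704⟩, ⟨2, 2, 0, 1685920⟩]]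

noncomputable def f_pm_113 : ℕ → ℕ → ℕ → ℕ → Bool := onCell 536870912 536870912 536870912 536870912 67108864 67108864
    (rowFK 1 false true false .nn 1 1 3 (qsf 536870912 536870912 1610612736 536870912 1) ndF0q1 ndF2q3 pcF1 cut_pm_113 Ext.none)

def k0_pm_113 : ∃ t, chk3 f_pm_113 t 1 1 1 = true :=
  ⟨(a (b (b (l 1) (a (l 1) (l 123517212231))) (a (b (b (l 1) (l 19427504)) (b (l 19593056) (b (l 19626448) (l 19656136)))) (b (a (l 18743584) (l 18301576)) (b (l 18828206423) (b (l 18576448) (l 18582120)))))) (b (a (b (a (l 1) (l 17975080)) (b (l 17982856) (l 17947896))) (b (a (l 17987088) (b (l 18020104) (l 17870240))) (a (b (l 17815536) (l 17648552)) (b (l 17668112) (a (l 17488904) (l 17388256)))))) (a (b (a (l 17977344) (l 17668104)) (b (l 17661904) (l 17565032))) (b (a (b (l 17458232) (l 17261072)) (b (l 17324944) (a (l 17038288) (l 17082736)))) (a (b (l 17083432) (l 16962472)) (a (b (l 16997656) (l 16961872)) (b (l 17161752) (a (l 16956800) (a (b (l 16985536) (l 16869368))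 (b (l 16975544) (b (l 16860712) (a (l 16819480) (b (l 16825680) (a (l 16831600) (b (l 16792760) (b (l 16787400) (a (l 16788912) (a (l 16785920) (b (l 16781448) (l 6)))))))))))))))))))), by decide +kernel⟩

theorem c_pm_113 : CertF 536870912 536870912 1610612736 536870912 67108864 67108864 false true false .nn 1 1 3
    ndF0q1 ndF2q3 pcF1 cut_pm_113 Ext.none :=
  certFK1 (fam := false) (s1 := true) (s2 := false) (a := 1) (b := 1) (c := 3) (cn := .nn) (n1 := ndF0q1) (n2 := ndF2q3) (pc := pcF1) (cut := cut_pm_113) (xt := Ext.none) (P1 := 536870912) (W1 := 536870912) (P2 := 1610612736) (W2 := 536870912) (P3 := 67108864) (W3 := 67108864)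
    rfl rfl rfl (fun _ => rfl) k0_pm_113

noncomputable def cut_pm_123 : Cut := Cut.of [[⟨0, 1, 0, 21338704⟩, ⟨1, 1, 0, 21338704⟩, ⟨2, 2, 0, 1685920⟩]]

noncomputable def f_pm_123 : ℕ → ℕ → ℕ → ℕ → Bool := onCell 1073741824 536870912 1610612736 536870912 67108864 67108864
    (rowFK 2 false true false .npn 1 2 3 (qsf 536870912 536870912 1610612736 536870912 2) ndF0q1 ndF2q3 pcF2 cut_pm_123 Ext.none)

def k0_pm_123 : ∃ t, chk3 f_pm_123 t 1 1 1 = true :=
  ⟨(a (b (a (b (b (l 19858736) (l 19494360)) (b (l 19045632) (l 18524888))) (b (a (l 19466048) (l 1)) (l 33860977271))) (a (a (b (a (l 17616792) (l 17656168)) (a (b (l 16970392) (b (l 16871432) (b (l 16838288) (a (b (l 16812920) (b (l 16793352) (b (l 16782480) (b (l 16780960) (l 6))))) (l 16787488))))) (b (l 17001376) (b (l 16863320) (l 17048000))))) (b (l 17730568) (b (l 17077064) (l 17094784)))) (b (b (l 18133224) (l 17682456)) (b (l 17255616) (a (l 16931032) (l 17029968)))))) (b (a (b (l 1) (a (l 18731840) (l 1)))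 (l 1)) (a (b (l 106337251783) (b (l 17566392) (l 17219496))) (b (l 255587578775) (l 17677048))))), by decide +kernel⟩

theorem c_pm_123 : CertF 536870912 536870912 1610612736 536870912 67108864 67108864 false true false .npn 1 2 3
    ndF0q1 ndF2q3 pcF2 cut_pm_123 Ext.none :=
  certFK2 (fam := false) (s1 := true) (s2 := false) (a := 1) (b := 2) (c := 3) (cn := .npn) (n1 := ndF0q1) (n2 := ndF2q3) (pc := pcF2) (cut := cut_pm_123) (xt := Ext.none) (P1 := 536870912) (W1 := 536870912) (P2 := 1610612736) (W2 := 536870912) (P3 := 67108864) (W3 := 67108864)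
    rfl rfl rfl (fun _ => rfl) k0_pm_123

noncomputable def f_pm_133 : ℕ → ℕ → ℕ → ℕ → Bool := onCell 536870912 536870912 1610612736 536870912 67108864 67108864
    (rowFK 0 false true false .dn 1 3 3 (qsf 536870912 536870912 1610612736 536870912 3) ndF0q1 ndF2q3 pcF3 Cut.none Ext.none)

def k0_pm_133 : ∃ t, chk3 f_pm_133 t 1 1 1 = true :=
  ⟨(a (b (l 1) (a (b (l 1) (a (l 220151369751) (l 1))) (l 1))) (l 1)), by decide +kernel⟩

theorem c_pm_133 : CertF 536870912 536870912 1610612736 536870912 67108864 67108864 false true false .dn 1 3 3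
    ndF0q1 ndF2q3 pcF3 Cut.none Ext.none :=
  certFK0 (fam := false) (s1 := true) (s2 := false) (a := 1) (b := 3) (c := 3) (cn := .dn) (n1 := ndF0q1) (n2 := ndF2q3) (pc := pcF3) (cut := Cut.none) (xt := Ext.none) (P1 := 536870912) (W1 := 536870912) (P2 := 1610612736) (W2 := 536870912) (P3 := 67108864) (W3 := 67108864)
    rfl rfl rfl k0_pm_133

noncomputable def cut_pm_202_a : Cut := Cut.of [[⟨0, 1, 0, 67108864⟩, ⟨1, 0, 0, 67108864⟩, ⟨2, 1, 0, 67108864⟩], [⟨0, 1, 0, 8388608⟩, ⟨1, 0, 1, 33554432⟩, ⟨2, 1, 1, 33554432⟩, ⟨1, 0, 0, 150994944⟩, ⟨1, 1, 0, 1023410176⟩, ⟨2, 1, 0, 150994944⟩, ⟨2, 2, 0, 1023410176⟩]]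

noncomputable def f_pm_202_a : ℕ → ℕ → ℕ → ℕ → Bool := onCell 0 536870912 0 536870912 67108864 67108864
    (rowFK 0 false true false .pp 2 0 2 (qsf 0 536870912 0 536870912 0) ndF0q2 ndF2q2a pcF0 cut_pm_202_a Ext.none)

def k0_pm_202_a : ∃ t, chk3 f_pm_202_a t 2 1 1 = true :=
  ⟨(l 3), by decide +kernel⟩

def k1_pm_202_a : ∃ t, chk3 f_pm_202_a t 6 1 1 = true :=
  ⟨(l 3), by decide +kernel⟩

def k2_pm_202_a : ∃ t, chk3 f_pm_202_a t 14 1 1 = true :=
  ⟨(l 3), by decide +kernel⟩

def k3_pm_202_a : ∃ t, chk3 f_pm_202_a t 30 1 1 = true :=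
  ⟨(l 3), by decide +kernel⟩

def k4_pm_202_a : ∃ t, chk3 f_pm_202_a t 62 1 1 = true :=
  ⟨(l 3), by decide +kernel⟩

def k5_pm_202_a : ∃ t, chk3 f_pm_202_a t 63 2 1 = true :=
  ⟨(a (l 3) (a (l 3) (a (l 3) (b (c (l 17637528) (b (b (l 137607634327) (l 137607597111)) (c (l 17325400) (b (l 116132612279) (l 116669428167))))) (c (b (l 17572504) (b (l 17503792) (l 133849945639))) (c (b (b (l 17279960) (l 135997020407)) (b (l 135996881319) (c (l 135459945895) (l 14)))) (b (b (c (l 136533678343) (l 136533450055)) (b (l 14) (l 14))) (l 14)))))))), by decide +kernel⟩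

def k6_pm_202_a : ∃ t, chk3 f_pm_202_a t 63 3 1 = true :=
  ⟨(b (a (l 3) (a (l 3) (a (l 3) (b (c (b (b (l 134386683479) (b (l 134923453431) (l 134923289127))) (c (l 133312923431) (l 14))) (l 14)) (a (l 3) (a (l 3) (a (l 3) (a (b (l 3) (l 3)) (a (b (l 3) (l 3)) (c (b (c (c (l 135996799719) (l 14)) (l 14)) (l 14)) (c (b (l 14) (c (l 14) (b (b (l 14) (b (l 14) (b (l 14) (l 135459192695)))) (b (b (b (l 135459193063) (l 135459193431)) (b (l 135459193639) (l 135459194183))) (b (b (l 135459194567) (l 135459194807)) (b (l 135459195207) (l 135459195623))))))) (b (b (b (l 14) (c (l 14) (b (c (l 14) (l 134385439479)) (l 134922312167)))) (b (c (l 14) (b (l 134922312759) (l 134922313383))) (b (b (l 135459187047) (l 134922316295)) (b (l 134922316615) (l 134922316951))))) (b (b (b (b (l 134922317287) (l 134922317639)) (b (l 134922317831) (l 134922318199))) (b (b (l 134922318647) (l 134922318935)) (b (l 135459190231) (l 135459190615)))) (b (c (b (l 134922320423) (l 134922321207))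 (b (l 134922318407) (l 134922319255))) (c (b (l 134922322039) (l 134922322887)) (b (l 134922320135) (l 134922321031))))))))))))))))) (b (b (a (l 3) (a (l 3) (a (l 3) (a (l 3) (a (l 3) (a (l 3) (a (l 3) (a (l 3) (b (c (l 14) (b (b (b (c (c (l 135459197847) (l 135459196039)) (l 135459194119)) (c (c (l 135459198263) (l 135459196455)) (l 135459194599))) (b (c (c (l 135459198663) (l 135459196903)) (l 135459195063)) (c (l 135459199031) (l 135459195543)))) (b (c (b (l 135459199463) (l 135459199911)) (l 134922325671)) (c (b (l 135459200375) (l 135459200823)) (l 135459197591))))) (b (b (b (c (c (l 14) (c (l 14) (l 135459202903))) (c (l 135459201303) (l 135459198071))) (l 6)) (l 6)) (l 6))))))))))) (l 6)) (l 6))), by decide +kernel⟩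

theorem s7_pm_202_a : ∃ t, chk3 f_pm_202_a t 63 1 1 = true := ex3_b k5_pm_202_a k6_pm_202_a

theorem s8_pm_202_a : ∃ t, chk3 f_pm_202_a t 31 1 1 = true := ex3_a k4_pm_202_a s7_pm_202_a

theorem s9_pm_202_a : ∃ t, chk3 f_pm_202_a t 15 1 1 = true := ex3_a k3_pm_202_a s8_pm_202_a

theorem s10_pm_202_a : ∃ t, chk3 f_pm_202_a t 7 1 1 = true := ex3_a k2_pm_202_a s9_pm_202_a

theorem s11_pm_202_a : ∃ t, chk3 f_pm_202_a t 3 1 1 = true := ex3_a k1_pm_202_a s10_pm_202_a

theorem s12_pm_202_a : ∃ t, chk3 f_pm_202_a t 1 1 1 = true := ex3_a k0_pm_202_a s11_pm_202_a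

theorem c_pm_202_a : CertF 0 536870912 0 536870912 67108864 67108864 false true false .pp 2 0 2
    ndF0q2 ndF2q2a pcF0 cut_pm_202_a Ext.none :=
  certFK0 (fam := false) (s1 := true) (s2 := false) (a := 2) (b := 0) (c := 2) (cn := .pp) (n1 := ndF0q2) (n2 := ndF2q2a) (pc := pcF0) (cut := cut_pm_202_a) (xt := Ext.none) (P1 := 0) (W1 := 536870912) (P2 := 0) (W2 := 536870912) (P3 := 67108864) (W3 := 67108864)
    rfl rfl rfl s12_pm_202_a

noncomputable def cut_pm_202_b : Cut := Cut.of [[⟨0, 1, 0, 67108864⟩, ⟨1, 0, 0, 67108864⟩, ⟨2, 1, 0, 67108864⟩], [⟨0, 1, 0, 8388608⟩, ⟨1, 0, 1, 33554432⟩, ⟨2, 1, 1, 33554432⟩, ⟨1, 0, 0, 150994944⟩, ⟨1, 1, 0, 1023410176⟩, ⟨2, 1, 0, 150994944⟩, ⟨2, 2, 0, 1023410176⟩]]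

noncomputable def f_pm_202_b : ℕ → ℕ → ℕ → ℕ → Bool := onCell 0 536870912 1239849684 370763052 67108864 67108864
    (rowFK 0 false true false .pp 2 0 2 (qsf 0 536870912 1239849684 370763052 0) ndF0q2 ndF2q2b pcF0 cut_pm_202_b Ext.none)

def k0_pm_202_b : ∃ t, chk3 f_pm_202_b t 1 1 1 = true :=
  ⟨(a (l 3) (a (l 3) (a (l 3) (a (l 3) (b (a (l 3) (a (l 3) (a (l 3) (b (c (b (l 17757240) (l 17898184)) (b (b (b (c (l 17397800) (l 113985222311)) (l 138144783431)) (l 108617061383)) (l 107006309575))) (b (l 17857328) (l 17922144)))))) (b (l 119355464663) (l 129555918055))))))), by decide +kernel⟩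

theorem c_pm_202_b : CertF 0 536870912 1239849684 370763052 67108864 67108864 false true false .pp 2 0 2
    ndF0q2 ndF2q2b pcF0 cut_pm_202_b Ext.none :=
  certFK0 (fam := false) (s1 := true) (s2 := false) (a := 2) (b := 0) (c := 2) (cn := .pp) (n1 := ndF0q2) (n2 := ndF2q2b) (pc := pcF0) (cut := cut_pm_202_b) (xt := Ext.none) (P1 := 0) (W1 := 536870912) (P2 := 1239849684) (W2 := 370763052) (P3 := 67108864) (W3 := 67108864)
    rfl rfl rfl k0_pm_202_b

noncomputable def f_pm_203 : ℕ → ℕ → ℕ → ℕ → Bool := onCell 0 536870912 1610612736 536870912 67108864 67108864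
    (rowFK 0 false true false .up 2 0 3 (qsf 0 536870912 1610612736 536870912 0) ndF0q2 ndF2q3 pcF0 Cut.none Ext.none)

def k0_pm_203 : ∃ t, chk3 f_pm_203 t 1 1 1 = true :=
  ⟨(a (l 3) (a (l 3) (b (a (l 3) (b (b (l 170358245543) (l 2)) (l 2))) (l 2)))), by decide +kernel⟩

theorem c_pm_203 : CertF 0 536870912 1610612736 536870912 67108864 67108864 false true false .up 2 0 3
    ndF0q2 ndF2q3 pcF0 Cut.none Ext.none :=
  certFK0 (fam := false) (s1 := true) (s2 := false) (a := 2) (b := 0) (c := 3) (cn := .up) (n1 := ndF0q2) (n2 := ndF2q3) (pc := pcF0) (cut := Cut.none) (xt := Ext.none) (P1 := 0) (W1 := 536870912) (P2 := 1610612736) (W2 := 536870912) (P3 := 67108864) (W3 := 67108864)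
    rfl rfl rfl k0_pm_203

noncomputable def cut_pm_213 : Cut := Cut.of [[⟨0, 1, 0, 21338704⟩, ⟨1, 1, 0, 21338704⟩, ⟨2, 2, 0, 1685920⟩]]

noncomputable def f_pm_213 : ℕ → ℕ → ℕ → ℕ → Bool := onCell 0 536870912 1610612736 536870912 67108864 67108864
    (rowFK 0 false true false .pnn 2 1 3 (qsf 0 536870912 1610612736 536870912 1) ndF0q2 ndF2q3 pcF1 cut_pm_213 Ext.none)

def k0_pm_213 : ∃ t, chk3 f_pm_213 t 1 1 1 = true :=
  ⟨(a (l 3) (a (l 3) (b (a (l 3) (b (b (l 180558828071) (l 182169088535)) (b (l 184316113287) (l 198811140743)))) (a (l 3) (a (l 3) (b (b (l 17147560) (l 213843166359)) (a (l 3) (a (l 3) (b (l 232096705991) (b (l 256255583271) (b (l 268066549287) (a (l 3) (b (l 274508915495) (b (l 278266952247) (a (l 3) (b (l 279340671079) (b (l 280414401607) (l 6)))))))))))))))))), by decide +kernel⟩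

theorem c_pm_213 : CertF 0 536870912 1610612736 536870912 67108864 67108864 false true false .pnn 2 1 3
    ndF0q2 ndF2q3 pcF1 cut_pm_213 Ext.none :=
  certFK0 (fam := false) (s1 := true) (s2 := false) (a := 2) (b := 1) (c := 3) (cn := .pnn) (n1 := ndF0q2) (n2 := ndF2q3) (pc := pcF1) (cut := cut_pm_213) (xt := Ext.none) (P1 := 0) (W1 := 536870912) (P2 := 1610612736) (W2 := 536870912) (P3 := 67108864) (W3 := 67108864)
    rfl rfl rfl k0_pm_213

noncomputable def f_mm_001 : ℕ → ℕ → ℕ → ℕ → Bool := onCell 0 536870912 0 536870912 67108864 67108864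
    (rowFK 1 false false false .up 0 0 1 (qsf 0 536870912 536870912 536870912 0) ndF0q0 ndF2q1 pcF0 Cut.none Ext.none)

def k0_mm_001 : ∃ t, chk3 f_mm_001 t 1 1 1 = true :=
  ⟨(l 3), by decide +kernel⟩

theorem c_mm_001 : CertF 0 536870912 536870912 536870912 67108864 67108864 false false false .up 0 0 1
    ndF0q0 ndF2q1 pcF0 Cut.none Ext.none :=
  certFK1 (fam := false) (s1 := false) (s2 := false) (a := 0) (b := 0) (c := 1) (cn := .up) (n1 := ndF0q0) (n2 := ndF2q1) (pc := pcF0) (cut := Cut.none) (xt := Ext.none) (P1 := 0) (W1 := 536870912) (P2 := 536870912) (W2 := 536870912) (P3 := 67108864) (W3 := 67108864)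
    rfl rfl rfl (fun _ => rfl) k0_mm_001

noncomputable def f_mm_011 : ℕ → ℕ → ℕ → ℕ → Bool := onCell 0 536870912 536870912 536870912 67108864 67108864
    (rowFK 1 false false false .pnn 0 1 1 (qsf 0 536870912 536870912 536870912 1) ndF0q0 ndF2q1 pcF1 Cut.none Ext.none)

def k0_mm_011 : ∃ t, chk3 f_mm_011 t 1 1 1 = true :=
  ⟨(l 5), by decide +kernel⟩

theorem c_mm_011 : CertF 0 536870912 536870912 536870912 67108864 67108864 false false false .pnn 0 1 1
    ndF0q0 ndF2q1 pcF1 Cut.none Ext.none :=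
  certFK1 (fam := false) (s1 := false) (s2 := false) (a := 0) (b := 1) (c := 1) (cn := .pnn) (n1 := ndF0q0) (n2 := ndF2q1) (pc := pcF1) (cut := Cut.none) (xt := Ext.none) (P1 := 0) (W1 := 536870912) (P2 := 536870912) (W2 := 536870912) (P3 := 67108864) (W3 := 67108864)
    rfl rfl rfl (fun _ => rfl) k0_mm_011

noncomputable def f_mm_012_a : ℕ → ℕ → ℕ → ℕ → Bool := onCell 0 536870912 0 536870912 67108864 67108864
    (rowFK 0 false false false .pnp 0 1 2 (qsf 0 536870912 0 536870912 1) ndF0q0 ndF2q2a pcF1 Cut.none Ext.none)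

def k0_mm_012_a : ∃ t, chk3 f_mm_012_a t 1 1 1 = true :=
  ⟨(l 5), by decide +kernel⟩

theorem c_mm_012_a : CertF 0 536870912 0 536870912 67108864 67108864 false false false .pnp 0 1 2
    ndF0q0 ndF2q2a pcF1 Cut.none Ext.none :=
  certFK0 (fam := false) (s1 := false) (s2 := false) (a := 0) (b := 1) (c := 2) (cn := .pnp) (n1 := ndF0q0) (n2 := ndF2q2a) (pc := pcF1) (cut := Cut.none) (xt := Ext.none) (P1 := 0) (W1 := 536870912) (P2 := 0) (W2 := 536870912) (P3 := 67108864) (W3 := 67108864)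
    rfl rfl rfl k0_mm_012_a

noncomputable def f_mm_012_b : ℕ → ℕ → ℕ → ℕ → Bool := onCell 0 536870912 1239849684 370763052 67108864 67108864
    (rowFK 0 false false false .pnp 0 1 2 (qsf 0 536870912 1239849684 370763052 1) ndF0q0 ndF2q2b pcF1 Cut.none Ext.none)

def k0_mm_012_b : ∃ t, chk3 f_mm_012_b t 1 1 1 = true :=
  ⟨(l 5), by decide +kernel⟩

theorem c_mm_012_b : CertF 0 536870912 1239849684 370763052 67108864 67108864 false false false .pnp 0 1 2
    ndF0q0 ndF2q2b pcF1 Cut.none Ext.none :=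
  certFK0 (fam := false) (s1 := false) (s2 := false) (a := 0) (b := 1) (c := 2) (cn := .pnp) (n1 := ndF0q0) (n2 := ndF2q2b) (pc := pcF1) (cut := Cut.none) (xt := Ext.none) (P1 := 0) (W1 := 536870912) (P2 := 1239849684) (W2 := 370763052) (P3 := 67108864) (W3 := 67108864)
    rfl rfl rfl k0_mm_012_b

noncomputable def f_mm_022_a : ℕ → ℕ → ℕ → ℕ → Bool := onCell 0 536870912 0 536870912 67108864 67108864
    (rowFK 0 false false false .pp 0 2 2 (qsf 0 536870912 0 536870912 2) ndF0q0 ndF2q2a pcF2 Cut.none Ext.none)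

def k0_mm_022_a : ∃ t, chk3 f_mm_022_a t 1 1 1 = true :=
  ⟨(l 5), by decide +kernel⟩

theorem c_mm_022_a : CertF 0 536870912 0 536870912 67108864 67108864 false false false .pp 0 2 2
    ndF0q0 ndF2q2a pcF2 Cut.none Ext.none :=
  certFK0 (fam := false) (s1 := false) (s2 := false) (a := 0) (b := 2) (c := 2) (cn := .pp) (n1 := ndF0q0) (n2 := ndF2q2a) (pc := pcF2) (cut := Cut.none) (xt := Ext.none) (P1 := 0) (W1 := 536870912) (P2 := 0) (W2 := 536870912) (P3 := 67108864) (W3 := 67108864)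
    rfl rfl rfl k0_mm_022_a

noncomputable def f_mm_022_b : ℕ → ℕ → ℕ → ℕ → Bool := onCell 0 536870912 1239849684 370763052 67108864 67108864
    (rowFK 0 false false false .pp 0 2 2 (qsf 0 536870912 1239849684 370763052 2) ndF0q0 ndF2q2b pcF2 Cut.none Ext.none)

def k0_mm_022_b : ∃ t, chk3 f_mm_022_b t 1 1 1 = true :=
  ⟨(l 5), by decide +kernel⟩

theorem c_mm_022_b : CertF 0 536870912 1239849684 370763052 67108864 67108864 false false false .pp 0 2 2
    ndF0q0 ndF2q2b pcF2 Cut.none Ext.none :=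
  certFK0 (fam := false) (s1 := false) (s2 := false) (a := 0) (b := 2) (c := 2) (cn := .pp) (n1 := ndF0q0) (n2 := ndF2q2b) (pc := pcF2) (cut := Cut.none) (xt := Ext.none) (P1 := 0) (W1 := 536870912) (P2 := 1239849684) (W2 := 370763052) (P3 := 67108864) (W3 := 67108864)
    rfl rfl rfl k0_mm_022_b

noncomputable def f_mm_023 : ℕ → ℕ → ℕ → ℕ → Bool := onCell 0 536870912 1610612736 536870912 67108864 67108864
    (rowFK 0 false false false .up 0 2 3 (qsf 0 536870912 1610612736 536870912 2) ndF0q0 ndF2q3 pcF2 Cut.none Ext.none)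

def k0_mm_023 : ∃ t, chk3 f_mm_023 t 1 1 1 = true :=
  ⟨(l 5), by decide +kernel⟩

theorem c_mm_023 : CertF 0 536870912 1610612736 536870912 67108864 67108864 false false false .up 0 2 3
    ndF0q0 ndF2q3 pcF2 Cut.none Ext.none :=
  certFK0 (fam := false) (s1 := false) (s2 := false) (a := 0) (b := 2) (c := 3) (cn := .up) (n1 := ndF0q0) (n2 := ndF2q3) (pc := pcF2) (cut := Cut.none) (xt := Ext.none) (P1 := 0) (W1 := 536870912) (P2 := 1610612736) (W2 := 536870912) (P3 := 67108864) (W3 := 67108864)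
    rfl rfl rfl k0_mm_023

noncomputable def f_mm_033 : ℕ → ℕ → ℕ → ℕ → Bool := onCell 0 536870912 1610612736 536870912 67108864 67108864
    (rowFK 0 false false false .pnn 0 3 3 (qsf 0 536870912 1610612736 536870912 3) ndF0q0 ndF2q3 pcF3 Cut.none Ext.none)

def k0_mm_033 : ∃ t, chk3 f_mm_033 t 1 1 1 = true :=
  ⟨(l 5), by decide +kernel⟩

theorem c_mm_033 : CertF 0 536870912 1610612736 536870912 67108864 67108864 false false false .pnn 0 3 3
    ndF0q0 ndF2q3 pcF3 Cut.none Ext.none :=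
  certFK0 (fam := false) (s1 := false) (s2 := false) (a := 0) (b := 3) (c := 3) (cn := .pnn) (n1 := ndF0q0) (n2 := ndF2q3) (pc := pcF3) (cut := Cut.none) (xt := Ext.none) (P1 := 0) (W1 := 536870912) (P2 := 1610612736) (W2 := 536870912) (P3 := 67108864) (W3 := 67108864)
    rfl rfl rfl k0_mm_033

noncomputable def cut_mm_101 : Cut := Cut.of [[⟨0, 1, 0, 67108864⟩, ⟨1, 0, 0, 67108864⟩, ⟨2, 1, 0, 67108864⟩]]

noncomputable def f_mm_101 : ℕ → ℕ → ℕ → ℕ → Bool := onCell 0 536870912 536870912 536870912 67108864 67108864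
    (rowFK 2 false false false .npn 1 0 1 (qsf 536870912 536870912 536870912 536870912 0) ndF0q1 ndF2q1 pcF0 cut_mm_101 Ext.none)

def k0_mm_101 : ∃ t, chk3 f_mm_101 t 1 1 1 = true :=
  ⟨(a (b (l 3) (a (b (l 3) (b (l 3) (b (l 3) (a (a (a (l 6) (l 3)) (l 3)) (l 3))))) (l 3))) (l 3)), by decide +kernel⟩

theorem c_mm_101 : CertF 536870912 536870912 536870912 536870912 67108864 67108864 false false false .npn 1 0 1
    ndF0q1 ndF2q1 pcF0 cut_mm_101 Ext.none :=
  certFK2 (fam := false) (s1 := false) (s2 := false) (a := 1) (b := 0) (c := 1) (cn := .npn) (n1 := ndF0q1) (n2 := ndF2q1) (pc := pcF0) (cut := cut_mm_101) (xt := Ext.none) (P1 := 536870912) (W1 := 536870912) (P2 := 536870912) (W2 := 536870912) (P3 := 67108864) (W3 := 67108864)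
    rfl rfl rfl (fun _ => rfl) k0_mm_101

noncomputable def f_mm_102_a : ℕ → ℕ → ℕ → ℕ → Bool := onCell 536870912 536870912 0 536870912 67108864 67108864
    (rowFK 0 false false false .npp 1 0 2 (qsf 536870912 536870912 0 536870912 0) ndF0q1 ndF2q2a pcF0 Cut.none Ext.none)

def k0_mm_102_a : ∃ t, chk3 f_mm_102_a t 1 1 1 = true :=
  ⟨(l 3), by decide +kernel⟩

theorem c_mm_102_a : CertF 536870912 536870912 0 536870912 67108864 67108864 false false false .npp 1 0 2
    ndF0q1 ndF2q2a pcF0 Cut.none Ext.none :=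
  certFK0 (fam := false) (s1 := false) (s2 := false) (a := 1) (b := 0) (c := 2) (cn := .npp) (n1 := ndF0q1) (n2 := ndF2q2a) (pc := pcF0) (cut := Cut.none) (xt := Ext.none) (P1 := 536870912) (W1 := 536870912) (P2 := 0) (W2 := 536870912) (P3 := 67108864) (W3 := 67108864)
    rfl rfl rfl k0_mm_102_a

noncomputable def f_mm_102_b : ℕ → ℕ → ℕ → ℕ → Bool := onCell 536870912 536870912 0 536870912 67108864 67108864
    (rowFK 1 false false false .npp 1 0 2 (qsf 536870912 536870912 1239849684 370763052 0) ndF0q1 ndF2q2b pcF0 Cut.none Ext.none)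

def k0_mm_102_b : ∃ t, chk3 f_mm_102_b t 1 1 1 = true :=
  ⟨(l 3), by decide +kernel⟩

theorem c_mm_102_b : CertF 536870912 536870912 1239849684 370763052 67108864 67108864 false false false .npp 1 0 2
    ndF0q1 ndF2q2b pcF0 Cut.none Ext.none :=
  certFK1 (fam := false) (s1 := false) (s2 := false) (a := 1) (b := 0) (c := 2) (cn := .npp) (n1 := ndF0q1) (n2 := ndF2q2b) (pc := pcF0) (cut := Cut.none) (xt := Ext.none) (P1 := 536870912) (W1 := 536870912) (P2 := 1239849684) (W2 := 370763052) (P3 := 67108864) (W3 := 67108864)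
    rfl rfl rfl (fun _ => rfl) k0_mm_102_b

noncomputable def f_mm_112_a : ℕ → ℕ → ℕ → ℕ → Bool := onCell 536870912 536870912 0 536870912 67108864 67108864
    (rowFK 0 false false false .dn 1 1 2 (qsf 536870912 536870912 0 536870912 1) ndF0q1 ndF2q2a pcF1 Cut.none Ext.none)

def k0_mm_112_a : ∃ t, chk3 f_mm_112_a t 1 1 1 = true :=
  ⟨(l 3), by decide +kernel⟩

theorem c_mm_112_a : CertF 536870912 536870912 0 536870912 67108864 67108864 false false false .dn 1 1 2
    ndF0q1 ndF2q2a pcF1 Cut.none Ext.none :=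
  certFK0 (fam := false) (s1 := false) (s2 := false) (a := 1) (b := 1) (c := 2) (cn := .dn) (n1 := ndF0q1) (n2 := ndF2q2a) (pc := pcF1) (cut := Cut.none) (xt := Ext.none) (P1 := 536870912) (W1 := 536870912) (P2 := 0) (W2 := 536870912) (P3 := 67108864) (W3 := 67108864)
    rfl rfl rfl k0_mm_112_a

noncomputable def f_mm_112_b : ℕ → ℕ → ℕ → ℕ → Bool := onCell 536870912 536870912 536870912 536870912 67108864 67108864
    (rowFK 1 false false false .dn 1 1 2 (qsf 536870912 536870912 1239849684 370763052 1) ndF0q1 ndF2q2b pcF1 Cut.none Ext.none)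

def k0_mm_112_b : ∃ t, chk3 f_mm_112_b t 1 1 1 = true :=
  ⟨(l 5), by decide +kernel⟩

theorem c_mm_112_b : CertF 536870912 536870912 1239849684 370763052 67108864 67108864 false false false .dn 1 1 2
    ndF0q1 ndF2q2b pcF1 Cut.none Ext.none :=
  certFK1 (fam := false) (s1 := false) (s2 := false) (a := 1) (b := 1) (c := 2) (cn := .dn) (n1 := ndF0q1) (n2 := ndF2q2b) (pc := pcF1) (cut := Cut.none) (xt := Ext.none) (P1 := 536870912) (W1 := 536870912) (P2 := 1239849684) (W2 := 370763052) (P3 := 67108864) (W3 := 67108864)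
    rfl rfl rfl (fun _ => rfl) k0_mm_112_b

noncomputable def f_mm_113 : ℕ → ℕ → ℕ → ℕ → Bool := onCell 536870912 536870912 1610612736 536870912 67108864 67108864
    (rowFK 0 false false false .nn 1 1 3 (qsf 536870912 536870912 1610612736 536870912 1) ndF0q1 ndF2q3 pcF1 Cut.none Ext.none)

def k0_mm_113 : ∃ t, chk3 f_mm_113 t 1 1 1 = true :=
  ⟨(l 5), by decide +kernel⟩

theorem c_mm_113 : CertF 536870912 536870912 1610612736 536870912 67108864 67108864 false false false .nn 1 1 3
    ndF0q1 ndF2q3 pcF1 Cut.none Ext.none :=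
  certFK0 (fam := false) (s1 := false) (s2 := false) (a := 1) (b := 1) (c := 3) (cn := .nn) (n1 := ndF0q1) (n2 := ndF2q3) (pc := pcF1) (cut := Cut.none) (xt := Ext.none) (P1 := 536870912) (W1 := 536870912) (P2 := 1610612736) (W2 := 536870912) (P3 := 67108864) (W3 := 67108864)
    rfl rfl rfl k0_mm_113

noncomputable def f_mm_123 : ℕ → ℕ → ℕ → ℕ → Bool := onCell 536870912 536870912 1610612736 536870912 67108864 67108864
    (rowFK 0 false false false .npn 1 2 3 (qsf 536870912 536870912 1610612736 536870912 2) ndF0q1 ndF2q3 pcF2 Cut.none Ext.none)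

def k0_mm_123 : ∃ t, chk3 f_mm_123 t 1 1 1 = true :=
  ⟨(l 5), by decide +kernel⟩

theorem c_mm_123 : CertF 536870912 536870912 1610612736 536870912 67108864 67108864 false false false .npn 1 2 3
    ndF0q1 ndF2q3 pcF2 Cut.none Ext.none :=
  certFK0 (fam := false) (s1 := false) (s2 := false) (a := 1) (b := 2) (c := 3) (cn := .npn) (n1 := ndF0q1) (n2 := ndF2q3) (pc := pcF2) (cut := Cut.none) (xt := Ext.none) (P1 := 536870912) (W1 := 536870912) (P2 := 1610612736) (W2 := 536870912) (P3 := 67108864) (W3 := 67108864)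
    rfl rfl rfl k0_mm_123

noncomputable def f_mm_133 : ℕ → ℕ → ℕ → ℕ → Bool := onCell 536870912 536870912 1610612736 536870912 67108864 67108864
    (rowFK 0 false false false .dn 1 3 3 (qsf 536870912 536870912 1610612736 536870912 3) ndF0q1 ndF2q3 pcF3 Cut.none Ext.none)

def k0_mm_133 : ∃ t, chk3 f_mm_133 t 1 1 1 = true :=
  ⟨(l 5), by decide +kernel⟩

theorem c_mm_133 : CertF 536870912 536870912 1610612736 536870912 67108864 67108864 false false false .dn 1 3 3
    ndF0q1 ndF2q3 pcF3 Cut.none Ext.none :=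
  certFK0 (fam := false) (s1 := false) (s2 := false) (a := 1) (b := 3) (c := 3) (cn := .dn) (n1 := ndF0q1) (n2 := ndF2q3) (pc := pcF3) (cut := Cut.none) (xt := Ext.none) (P1 := 536870912) (W1 := 536870912) (P2 := 1610612736) (W2 := 536870912) (P3 := 67108864) (W3 := 67108864)
    rfl rfl rfl k0_mm_133

noncomputable def f_mm_202_a : ℕ → ℕ → ℕ → ℕ → Bool := onCell 0 536870912 0 536870912 67108864 67108864
    (rowFK 0 false false false .pp 2 0 2 (qsf 0 536870912 0 536870912 0) ndF0q2 ndF2q2a pcF0 Cut.none Ext.none)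

def k0_mm_202_a : ∃ t, chk3 f_mm_202_a t 1 1 1 = true :=
  ⟨(l 3), by decide +kernel⟩

theorem c_mm_202_a : CertF 0 536870912 0 536870912 67108864 67108864 false false false .pp 2 0 2
    ndF0q2 ndF2q2a pcF0 Cut.none Ext.none :=
  certFK0 (fam := false) (s1 := false) (s2 := false) (a := 2) (b := 0) (c := 2) (cn := .pp) (n1 := ndF0q2) (n2 := ndF2q2a) (pc := pcF0) (cut := Cut.none) (xt := Ext.none) (P1 := 0) (W1 := 536870912) (P2 := 0) (W2 := 536870912) (P3 := 67108864) (W3 := 67108864)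
    rfl rfl rfl k0_mm_202_a

noncomputable def f_mm_202_b : ℕ → ℕ → ℕ → ℕ → Bool := onCell 0 536870912 1239849684 370763052 67108864 67108864
    (rowFK 0 false false false .pp 2 0 2 (qsf 0 536870912 1239849684 370763052 0) ndF0q2 ndF2q2b pcF0 Cut.none Ext.none)

def k0_mm_202_b : ∃ t, chk3 f_mm_202_b t 1 1 1 = true :=
  ⟨(l 3), by decide +kernel⟩

theorem c_mm_202_b : CertF 0 536870912 1239849684 370763052 67108864 67108864 false false false .pp 2 0 2
    ndF0q2 ndF2q2b pcF0 Cut.none Ext.none :=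
  certFK0 (fam := false) (s1 := false) (s2 := false) (a := 2) (b := 0) (c := 2) (cn := .pp) (n1 := ndF0q2) (n2 := ndF2q2b) (pc := pcF0) (cut := Cut.none) (xt := Ext.none) (P1 := 0) (W1 := 536870912) (P2 := 1239849684) (W2 := 370763052) (P3 := 67108864) (W3 := 67108864)
    rfl rfl rfl k0_mm_202_b

noncomputable def f_mm_203 : ℕ → ℕ → ℕ → ℕ → Bool := onCell 0 536870912 0 536870912 67108864 67108864
    (rowFK 1 false false false .up 2 0 3 (qsf 0 536870912 1610612736 536870912 0) ndF0q2 ndF2q3 pcF0 Cut.none Ext.none)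

def k0_mm_203 : ∃ t, chk3 f_mm_203 t 1 1 1 = true :=
  ⟨(l 3), by decide +kernel⟩

theorem c_mm_203 : CertF 0 536870912 1610612736 536870912 67108864 67108864 false false false .up 2 0 3
    ndF0q2 ndF2q3 pcF0 Cut.none Ext.none :=
  certFK1 (fam := false) (s1 := false) (s2 := false) (a := 2) (b := 0) (c := 3) (cn := .up) (n1 := ndF0q2) (n2 := ndF2q3) (pc := pcF0) (cut := Cut.none) (xt := Ext.none) (P1 := 0) (W1 := 536870912) (P2 := 1610612736) (W2 := 536870912) (P3 := 67108864) (W3 := 67108864)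
    rfl rfl rfl (fun _ => rfl) k0_mm_203

noncomputable def f_mm_213 : ℕ → ℕ → ℕ → ℕ → Bool := onCell 0 536870912 1610612736 536870912 67108864 67108864
    (rowFK 0 false false false .pnn 2 1 3 (qsf 0 536870912 1610612736 536870912 1) ndF0q2 ndF2q3 pcF1 Cut.none Ext.none)

def k0_mm_213 : ∃ t, chk3 f_mm_213 t 1 1 1 = true :=
  ⟨(b (l 3) (a (l 3) (l 5))), by decide +kernel⟩

theorem c_mm_213 : CertF 0 536870912 1610612736 536870912 67108864 67108864 false false false .pnn 2 1 3
    ndF0q2 ndF2q3 pcF1 Cut.none Ext.none :=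
  certFK0 (fam := false) (s1 := false) (s2 := false) (a := 2) (b := 1) (c := 3) (cn := .pnn) (n1 := ndF0q2) (n2 := ndF2q3) (pc := pcF1) (cut := Cut.none) (xt := Ext.none) (P1 := 0) (W1 := 536870912) (P2 := 1610612736) (W2 := 536870912) (P3 := 67108864) (W3 := 67108864)
    rfl rfl rfl k0_mm_213

end Pool.Agent.Strip051.G.I1_16_1_8.Tab.C.FB02

namespace Pool.Agent.Strip051.G.I1_16_1_8.Tab.C.FB03

open Pool.Agent.Strip051.PB Pool.Agent.Strip051.PB.T
open Pool.Agent.Strip051.G.I1_16_1_8.Tab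

noncomputable def f_pp_001 : ℕ → ℕ → ℕ → ℕ → Bool := onCell 0 536870912 0 536870912 67108864 67108864
    (rowFK 1 false true true .up 0 0 1 (qsf 0 536870912 536870912 536870912 0) ndF0q0 ndF3q1 pcF0 Cut.none Ext.none)

def k0_pp_001 : ∃ t, chk3 f_pp_001 t 1 1 1 = true :=
  ⟨(l 3), by decide +kernel⟩

theorem c_pp_001 : CertF 0 536870912 536870912 536870912 67108864 67108864 false true true .up 0 0 1
    ndF0q0 ndF3q1 pcF0 Cut.none Ext.none :=
  certFK1 (fam := false) (s1 := true) (s2 := true) (a := 0) (b := 0) (c := 1) (cn := .up) (n1 := ndF0q0) (n2 := ndF3q1) (pc := pcF0) (cut := Cut.none) (xt := Ext.none) (P1 := 0) (W1 := 536870912) (P2 := 536870912) (W2 := 536870912) (P3 := 67108864) (W3 := 67108864)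
    rfl rfl rfl (fun _ => rfl) k0_pp_001

noncomputable def cut_pp_011 : Cut := Cut.of [[⟨0, 0, 0, 67108864⟩, ⟨1, 1, 0, 67108864⟩, ⟨2, 1, 0, 67108864⟩]]

noncomputable def f_pp_011 : ℕ → ℕ → ℕ → ℕ → Bool := onCell 0 536870912 536870912 536870912 67108864 67108864
    (rowFK 1 false true true .pnn 0 1 1 (qsf 0 536870912 536870912 536870912 1) ndF0q0 ndF3q1 pcF1 cut_pp_011 Ext.none)

def k0_pp_011 : ∃ t, chk3 f_pp_011 t 1 1 1 = true :=
  ⟨(b (l 3) (a (b (l 3) (a (b (l 3) (a (b (l 3) (a (l 6) (l 3))) (l 3))) (l 3))) (l 3))), by decide +kernel⟩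

theorem c_pp_011 : CertF 0 536870912 536870912 536870912 67108864 67108864 false true true .pnn 0 1 1
    ndF0q0 ndF3q1 pcF1 cut_pp_011 Ext.none :=
  certFK1 (fam := false) (s1 := true) (s2 := true) (a := 0) (b := 1) (c := 1) (cn := .pnn) (n1 := ndF0q0) (n2 := ndF3q1) (pc := pcF1) (cut := cut_pp_011) (xt := Ext.none) (P1 := 0) (W1 := 536870912) (P2 := 536870912) (W2 := 536870912) (P3 := 67108864) (W3 := 67108864)
    rfl rfl rfl (fun _ => rfl) k0_pp_011

noncomputable def f_pp_012 : ℕ → ℕ → ℕ → ℕ → Bool := onCell 0 536870912 536870912 536870912 67108864 67108864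
    (rowFK 1 false true true .pnp 0 1 2 (qsf 0 536870912 1073741824 536870912 1) ndF0q0 ndF3q2 pcF1 Cut.none Ext.none)

def k0_pp_012 : ∃ t, chk3 f_pp_012 t 1 1 1 = true :=
  ⟨(l 3), by decide +kernel⟩

theorem c_pp_012 : CertF 0 536870912 1073741824 536870912 67108864 67108864 false true true .pnp 0 1 2
    ndF0q0 ndF3q2 pcF1 Cut.none Ext.none :=
  certFK1 (fam := false) (s1 := true) (s2 := true) (a := 0) (b := 1) (c := 2) (cn := .pnp) (n1 := ndF0q0) (n2 := ndF3q2) (pc := pcF1) (cut := Cut.none) (xt := Ext.none) (P1 := 0) (W1 := 536870912) (P2 := 1073741824) (W2 := 536870912) (P3 := 67108864) (W3 := 67108864)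
    rfl rfl rfl (fun _ => rfl) k0_pp_012

noncomputable def f_pp_022 : ℕ → ℕ → ℕ → ℕ → Bool := onCell 0 536870912 1073741824 536870912 67108864 67108864
    (rowFK 1 false true true .pp 0 2 2 (qsf 0 536870912 1073741824 536870912 2) ndF0q0 ndF3q2 pcF2 Cut.none Ext.none)

def k0_pp_022 : ∃ t, chk3 f_pp_022 t 1 1 1 = true :=
  ⟨(a (b (b (l 3) (b (a (b (b (a (l 3) (a (l 585359096023) (l 18013344))) (b (a (a (c (l 18428016) (a (a (b (l 74257781367) (l 17707256)) (l 61909420999)) (l 17606488))) (l 82311244311)) (l 18095752)) (b (a (c (l 18448768) (a (a (l 17683288) (l 17901408)) (l 17953464))) (l 18125832)) (a (c (b (l 18468856) (l 18481920)) (b (a (a (l 17741440) (l 17931480)) (l 17976776)) (a (l 17925280) (l 17991944)))) (b (l 18140872) (l 18150832)))))) (a (c (l 18579360) (a (a (l 18069344) (l 18098272)) (l 18109032))) (l 18228920))) (b (b (a (l 17947048) (l 17845096)) (b (a (l 17992680) (l 17879672)) (b (l 18040752) (b (l 17967032) (l 17973896))))) (a (l 18094504) (l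 17962536)))) (a (a (b (l 18510000) (l 18628336)) (l 18396768)) (l 18154856)))) (a (b (a (l 18790216) (l 18576464)) (b (l 18701480) (l 18592720))) (b (l 18507624) (l 18267360)))) (b (b (b (l 3) (b (l 3) (a (b (l 3) (a (l 140292663799) (l 137608160503))) (a (b (l 3) (l 145124188407)) (l 2))))) (a (b (b (b (a (l 17737616) (l 17626656)) (b (l 17708216) (b (l 17721176) (a (l 17852296) (l 25335884471))))) (l 17772776)) (l 17852688)) (b (b (b (a (l 17512656) (l 2)) (l 2)) (l 2)) (l 2)))) (b (a (b (l 17876704) (l 2)) (l 2)) (l 2)))), by decide +kernel⟩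

theorem c_pp_022 : CertF 0 536870912 1073741824 536870912 67108864 67108864 false true true .pp 0 2 2
    ndF0q0 ndF3q2 pcF2 Cut.none Ext.none :=
  certFK1 (fam := false) (s1 := true) (s2 := true) (a := 0) (b := 2) (c := 2) (cn := .pp) (n1 := ndF0q0) (n2 := ndF3q2) (pc := pcF2) (cut := Cut.none) (xt := Ext.none) (P1 := 0) (W1 := 536870912) (P2 := 1073741824) (W2 := 536870912) (P3 := 67108864) (W3 := 67108864)
    rfl rfl rfl (fun _ => rfl) k0_pp_022

noncomputable def f_pp_023 : ℕ → ℕ → ℕ → ℕ → Bool := onCell 1073741824 536870912 0 1230186008 67108864 67108864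
    (rowFK 2 false true true .up 0 2 3 (qsf 0 536870912 0 1230186008 2) ndF0q0 ndF3q3 pcF2 Cut.none Ext.none)

def k0_pp_023 : ∃ t, chk3 f_pp_023 t 1 1 1 = true :=
  ⟨(a (b (l 2) (b (a (l 2) (a (l 2) (b (l 2) (l 17520976)))) (b (a (l 2) (a (a (a (l 17783416) (a (l 17799200) (a (l 17799920) (l 18029736)))) (l 17805728)) (l 17825216))) (a (a (l 3) (a (l 3) (b (l 202570792807) (a (l 3) (l 154789559815))))) (a (a (a (b (l 18006496) (l 18172520)) (a (l 18332592) (a (l 18191192) (a (l 18172736) (l 18132280))))) (b (l 18042336) (l 18203928))) (l 18253000)))))) (b (a (l 2) (b (l 17332296) (l 17384440))) (b (a (b (l 17314504) (l 17551536)) (b (l 17461224) (l 17640144))) (b (a (l 17811696) (l 17760688)) (a (a (l 18145808) (l 18096992)) (l 17966280)))))), by decide +kernel⟩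

theorem c_pp_023 : CertF 0 536870912 0 1230186008 67108864 67108864 false true true .up 0 2 3
    ndF0q0 ndF3q3 pcF2 Cut.none Ext.none :=
  certFK2 (fam := false) (s1 := true) (s2 := true) (a := 0) (b := 2) (c := 3) (cn := .up) (n1 := ndF0q0) (n2 := ndF3q3) (pc := pcF2) (cut := Cut.none) (xt := Ext.none) (P1 := 0) (W1 := 536870912) (P2 := 0) (W2 := 1230186008) (P3 := 67108864) (W3 := 67108864)
    rfl rfl rfl (fun _ => rfl) k0_pp_023

end Pool.Agent.Strip051.G.I1_16_1_8.Tab.C.FB03

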