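import Pool.Agent.Strip051.G.I1_16_1_8.Tab
import Pool.Agent.Strip051.PB.RowK

/-! # Certificates F4 (generated) -/

set_option linter.all false
set_option maxRecDepth 100000

namespace Pool.Agent.Strip051.G.I1_16_1_8.Tab.C.FB03

open Pool.Agent.Strip051.PB Pool.Agent.Strip051.PB.T
open Pool.Agent.Strip051.G.I1_16_1_8.Tab

noncomputable def f_pp_033 : ℕ → ℕ → ℕ → ℕ → Bool := onCell 1610612736 536870912 0 1230186008 67108864 67108864
    (rowFK 2 false true true .pnn 0 3 3 (qsf 0 536870912 0 1230186008 3) ndF0q0 ndF3q3 pcF3 Cut.none Ext.none)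

def k0_pp_033 : ∃ t, chk3 f_pp_033 t 1 1 1 = true :=
  ⟨(b (a (a (b (l 16991872) (a (b (l 17198872) (l 17324240)) (l 16997936))) (b (l 17473832) (a (l 17252280) (l 17560600)))) (a (a (l 17587816) (l 17763248)) (l 4))) (b (a (a (b (a (l 17237328) (l 17280920)) (a (l 17962080) (l 17634512))) (a (b (l 17159616) (l 17377088)) (b (l 17409280) (l 17364136)))) (a (a (b (l 17663728) (l 17515352)) (l 17724560)) (a (l 17814864) (l 1)))) (a (a (b (a (l 18886176) (l 18260224)) (a (b (l 18741656) (l 18296184)) (b (l 18559344) (l 18312840)))) (b (a (l 17876408) (l 17543952)) (b (l 17930856) (l 1)))) (l 1)))), by decide +kernel⟩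

theorem c_pp_033 : CertF 0 536870912 0 1230186008 67108864 67108864 false true true .pnn 0 3 3
    ndF0q0 ndF3q3 pcF3 Cut.none Ext.none :=
  certFK2 (fam := false) (s1 := true) (s2 := true) (a := 0) (b := 3) (c := 3) (cn := .pnn) (n1 := ndF0q0) (n2 := ndF3q3) (pc := pcF3) (cut := Cut.none) (xt := Ext.none) (P1 := 0) (W1 := 536870912) (P2 := 0) (W2 := 1230186008) (P3 := 67108864) (W3 := 67108864)
    rfl rfl rfl (fun _ => rfl) k0_pp_033

noncomputable def f_pp_101 : ℕ → ℕ → ℕ → ℕ → Bool := onCell 536870912 536870912 536870912 536870912 67108864 67108864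
    (rowFK 0 false true true .npn 1 0 1 (qsf 536870912 536870912 536870912 536870912 0) ndF0q1 ndF3q1 pcF0 Cut.none Ext.none)

def k0_pp_101 : ∃ t, chk3 f_pp_101 t 1 1 1 = true :=
  ⟨(a (l 3) (l 5)), by decide +kernel⟩

theorem c_pp_101 : CertF 536870912 536870912 536870912 536870912 67108864 67108864 false true true .npn 1 0 1
    ndF0q1 ndF3q1 pcF0 Cut.none Ext.none :=
  certFK0 (fam := false) (s1 := true) (s2 := true) (a := 1) (b := 0) (c := 1) (cn := .npn) (n1 := ndF0q1) (n2 := ndF3q1) (pc := pcF0) (cut := Cut.none) (xt := Ext.none) (P1 := 536870912) (W1 := 536870912) (P2 := 536870912) (W2 := 536870912) (P3 := 67108864) (W3 := 67108864)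
    rfl rfl rfl k0_pp_101

noncomputable def f_pp_102 : ℕ → ℕ → ℕ → ℕ → Bool := onCell 536870912 536870912 1073741824 536870912 67108864 67108864
    (rowFK 0 false true true .npp 1 0 2 (qsf 536870912 536870912 1073741824 536870912 0) ndF0q1 ndF3q2 pcF0 Cut.none Ext.none)

def k0_pp_102 : ∃ t, chk3 f_pp_102 t 1 1 1 = true :=
  ⟨(l 3), by decide +kernel⟩

theorem c_pp_102 : CertF 536870912 536870912 1073741824 536870912 67108864 67108864 false true true .npp 1 0 2
    ndF0q1 ndF3q2 pcF0 Cut.none Ext.none :=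
  certFK0 (fam := false) (s1 := true) (s2 := true) (a := 1) (b := 0) (c := 2) (cn := .npp) (n1 := ndF0q1) (n2 := ndF3q2) (pc := pcF0) (cut := Cut.none) (xt := Ext.none) (P1 := 536870912) (W1 := 536870912) (P2 := 1073741824) (W2 := 536870912) (P3 := 67108864) (W3 := 67108864)
    rfl rfl rfl k0_pp_102

noncomputable def f_pp_112 : ℕ → ℕ → ℕ → ℕ → Bool := onCell 536870912 536870912 1073741824 536870912 67108864 67108864
    (rowFK 0 false true true .dn 1 1 2 (qsf 536870912 536870912 1073741824 536870912 1) ndF0q1 ndF3q2 pcF1 Cut.none Ext.none)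

def k0_pp_112 : ∃ t, chk3 f_pp_112 t 1 1 1 = true :=
  ⟨(l 3), by decide +kernel⟩

theorem c_pp_112 : CertF 536870912 536870912 1073741824 536870912 67108864 67108864 false true true .dn 1 1 2
    ndF0q1 ndF3q2 pcF1 Cut.none Ext.none :=
  certFK0 (fam := false) (s1 := true) (s2 := true) (a := 1) (b := 1) (c := 2) (cn := .dn) (n1 := ndF0q1) (n2 := ndF3q2) (pc := pcF1) (cut := Cut.none) (xt := Ext.none) (P1 := 536870912) (W1 := 536870912) (P2 := 1073741824) (W2 := 536870912) (P3 := 67108864) (W3 := 67108864)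
    rfl rfl rfl k0_pp_112

noncomputable def cut_pp_113 : Cut := Cut.of [[⟨0, 1, 0, 21338704⟩, ⟨1, 1, 0, 21338704⟩, ⟨2, 2, 0, 1685920⟩]]

noncomputable def f_pp_113 : ℕ → ℕ → ℕ → ℕ → Bool := onCell 536870912 536870912 0 1230186008 67108864 67108864
    (rowFK 2 false true true .nn 1 1 3 (qsf 536870912 536870912 0 1230186008 1) ndF0q1 ndF3q3 pcF1 cut_pp_113 Ext.none)

def k0_pp_113 : ∃ t, chk3 f_pp_113 t 1 1 1 = true :=
  ⟨(b (a (l 2) (a (l 2) (b (a (l 2) (a (l 2) (a (l 3) (b (b (b (l 6) (l 3)) (l 3)) (l 3))))) (l 3)))) (a (b (l 3) (a (b (l 2) (l 3)) (l 3))) (b (l 3) (l 3)))), by decide +kernel⟩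

theorem c_pp_113 : CertF 536870912 536870912 0 1230186008 67108864 67108864 false true true .nn 1 1 3
    ndF0q1 ndF3q3 pcF1 cut_pp_113 Ext.none :=
  certFK2 (fam := false) (s1 := true) (s2 := true) (a := 1) (b := 1) (c := 3) (cn := .nn) (n1 := ndF0q1) (n2 := ndF3q3) (pc := pcF1) (cut := cut_pp_113) (xt := Ext.none) (P1 := 536870912) (W1 := 536870912) (P2 := 0) (W2 := 1230186008) (P3 := 67108864) (W3 := 67108864)
    rfl rfl rfl (fun _ => rfl) k0_pp_113

noncomputable def cut_pp_123 : Cut := Cut.of [[⟨0, 1, 0, 21338704⟩, ⟨1, 1, 0, 21338704⟩, ⟨2, 2, 0, 1685920⟩]]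

noncomputable def f_pp_123 : ℕ → ℕ → ℕ → ℕ → Bool := onCell 1073741824 536870912 0 1230186008 67108864 67108864
    (rowFK 2 false true true .npn 1 2 3 (qsf 536870912 536870912 0 1230186008 2) ndF0q1 ndF3q3 pcF2 cut_pp_123 Ext.none)

def k0_pp_123 : ∃ t, chk3 f_pp_123 t 1 2 1 = true :=
  ⟨(b (a (a (a (a (b (a (b (b (l 6) (b (l 6) (b (l 6) (a (l 3) (a (a (l 277193181959) (l 16781088)) (l 16786672)))))) (a (l 3) (b (a (b (a (b (l 305647345975) (l 3)) (l 245517804519)) (a (l 3) (l 309405431223))) (b (l 16804568) (l 226727328871))) (a (l 3) (a (l 309942308535) (l 239075359831)))))) (b (l 16797304) (a (a (b (l 16789872) (l 209547469143)) (l 16815456)) (l 16804232)))) (a (l 3) (a (b (b (l 255718390103) (l 273971980967)) (l 3)) (b (l 195052027911) (l 224043027207))))) (a (b (l 17048168) (a (b (l 16816664) (l 16863472)) (l 16957152))) (b (l 16820904) (l 16968232)))) (a (b (l 16832096) (l 16973408)) (l 16881256))) (a (l 16903280) (l 16934880))) (a (l 17099208)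 (l 17332264))) (a (a (a (a (b (l 3) (l 3)) (a (b (a (b (l 244444189895) (l 3)) (l 123111576439)) (l 3)) (b (b (l 17040232) (l 16917528)) (b (l 17026720) (l 223506747575))))) (a (b (b (l 17129976) (l 17156728)) (a (b (l 17052640) (l 17061344)) (b (l 17018016) (l 17106976)))) (b (l 16951112) (b (l 17035624) (l 17156584))))) (a (a (b (l 17213848) (a (l 17118568) (l 17177320))) (l 17051912)) (l 17266936))) (a (l 17370096) (l 17534304)))), by decide +kernel⟩

def k1_pp_123 : ∃ t, chk3 f_pp_123 t 1 3 1 = true :=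
  ⟨(b (a (a (a (b (l 3) (l 3)) (a (b (a (b (l 17142296) (l 209011654407)) (l 17243904)) (b (a (l 3) (l 17395984)) (l 193442756215))) (b (a (l 17372616) (l 17270744)) (a (l 17542320) (l 17653080))))) (a (a (a (b (l 17294232) (l 17524504)) (b (a (l 17301952) (l 17299136)) (a (l 17531352) (l 17527784)))) (b (l 17292104) (l 17527128))) (b (l 17276976) (l 17520896)))) (a (b (l 17377488) (a (l 17502624) (l 17508872))) (b (l 17473648) (l 1)))) (a (a (a (l 3) (b (b (a (l 194516776775) (l 17708584)) (a (l 3) (l 195590950807))) (a (l 3) (b (l 202033917639) (l 1))))) (b (a (a (a (l 17783376) (a (l 17799224) (a (l 17799984) (l 18050808)))) (l 17806256)) (l 17828960)) (a (a (a (l 107947751271) (l 1)) (l 1)) (l 1)))) (l 1))), by decide +kernel⟩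

theorem s2_pp_123 : ∃ t, chk3 f_pp_123 t 1 1 1 = true := ex3_b k0_pp_123 k1_pp_123

theorem c_pp_123 : CertF 536870912 536870912 0 1230186008 67108864 67108864 false true true .npn 1 2 3
    ndF0q1 ndF3q3 pcF2 cut_pp_123 Ext.none :=
  certFK2 (fam := false) (s1 := true) (s2 := true) (a := 1) (b := 2) (c := 3) (cn := .npn) (n1 := ndF0q1) (n2 := ndF3q3) (pc := pcF2) (cut := cut_pp_123) (xt := Ext.none) (P1 := 536870912) (W1 := 536870912) (P2 := 0) (W2 := 1230186008) (P3 := 67108864) (W3 := 67108864)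
    rfl rfl rfl (fun _ => rfl) s2_pp_123

noncomputable def f_pp_133 : ℕ → ℕ → ℕ → ℕ → Bool := onCell 1610612736 536870912 0 1230186008 67108864 67108864
    (rowFK 2 false true true .dn 1 3 3 (qsf 536870912 536870912 0 1230186008 3) ndF0q1 ndF3q3 pcF3 Cut.none Ext.none)

def k0_pp_133 : ∃ t, chk3 f_pp_133 t 1 1 1 = true :=
  ⟨(b (b (a (a (l 16998704) (l 1)) (l 1)) (l 1)) (l 1)), by decide +kernel⟩

theorem c_pp_133 : CertF 536870912 536870912 0 1230186008 67108864 67108864 false true true .dn 1 3 3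
    ndF0q1 ndF3q3 pcF3 Cut.none Ext.none :=
  certFK2 (fam := false) (s1 := true) (s2 := true) (a := 1) (b := 3) (c := 3) (cn := .dn) (n1 := ndF0q1) (n2 := ndF3q3) (pc := pcF3) (cut := Cut.none) (xt := Ext.none) (P1 := 536870912) (W1 := 536870912) (P2 := 0) (W2 := 1230186008) (P3 := 67108864) (W3 := 67108864)
    rfl rfl rfl (fun _ => rfl) k0_pp_133

noncomputable def f_pp_202 : ℕ → ℕ → ℕ → ℕ → Bool := onCell 0 536870912 1073741824 536870912 67108864 67108864
    (rowFK 0 false true true .pp 2 0 2 (qsf 0 536870912 1073741824 536870912 0) ndF0q2 ndF3q2 pcF0 Cut.none Ext.none)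

def k0_pp_202 : ∃ t, chk3 f_pp_202 t 1 1 1 = true :=
  ⟨(l 3), by decide +kernel⟩

theorem c_pp_202 : CertF 0 536870912 1073741824 536870912 67108864 67108864 false true true .pp 2 0 2
    ndF0q2 ndF3q2 pcF0 Cut.none Ext.none :=
  certFK0 (fam := false) (s1 := true) (s2 := true) (a := 2) (b := 0) (c := 2) (cn := .pp) (n1 := ndF0q2) (n2 := ndF3q2) (pc := pcF0) (cut := Cut.none) (xt := Ext.none) (P1 := 0) (W1 := 536870912) (P2 := 1073741824) (W2 := 536870912) (P3 := 67108864) (W3 := 67108864)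
    rfl rfl rfl k0_pp_202

noncomputable def f_pp_203 : ℕ → ℕ → ℕ → ℕ → Bool := onCell 0 536870912 0 1230186008 67108864 67108864
    (rowFK 0 false true true .up 2 0 3 (qsf 0 536870912 0 1230186008 0) ndF0q2 ndF3q3 pcF0 Cut.none Ext.none)

def k0_pp_203 : ∃ t, chk3 f_pp_203 t 1 1 1 = true :=
  ⟨(b (l 2) (l 3)), by decide +kernel⟩

theorem c_pp_203 : CertF 0 536870912 0 1230186008 67108864 67108864 false true true .up 2 0 3
    ndF0q2 ndF3q3 pcF0 Cut.none Ext.none :=
  certFK0 (fam := false) (s1 := true) (s2 := true) (a := 2) (b := 0) (c := 3) (cn := .up) (n1 := ndF0q2) (n2 := ndF3q3) (pc := pcF0) (cut := Cut.none) (xt := Ext.none) (P1 := 0) (W1 := 536870912) (P2 := 0) (W2 := 1230186008) (P3 := 67108864) (W3 := 67108864)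
    rfl rfl rfl k0_pp_203

noncomputable def cut_pp_213 : Cut := Cut.of [[⟨0, 1, 0, 21338704⟩, ⟨1, 1, 0, 21338704⟩, ⟨2, 2, 0, 1685920⟩]]

noncomputable def f_pp_213 : ℕ → ℕ → ℕ → ℕ → Bool := onCell 0 536870912 0 1230186008 67108864 67108864
    (rowFK 0 false true true .pnn 2 1 3 (qsf 0 536870912 0 1230186008 1) ndF0q2 ndF3q3 pcF1 cut_pp_213 Ext.none)

def k0_pp_213 : ∃ t, chk3 f_pp_213 t 1 1 1 = true :=
  ⟨(b (a (l 3) (b (a (l 3) (a (l 3) (b (a (l 3) (b (a (l 3) (b (l 6) (l 3))) (l 3))) (l 3)))) (l 3))) (l 3)), by decide +kernel⟩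

theorem c_pp_213 : CertF 0 536870912 0 1230186008 67108864 67108864 false true true .pnn 2 1 3
    ndF0q2 ndF3q3 pcF1 cut_pp_213 Ext.none :=
  certFK0 (fam := false) (s1 := true) (s2 := true) (a := 2) (b := 1) (c := 3) (cn := .pnn) (n1 := ndF0q2) (n2 := ndF3q3) (pc := pcF1) (cut := cut_pp_213) (xt := Ext.none) (P1 := 0) (W1 := 536870912) (P2 := 0) (W2 := 1230186008) (P3 := 67108864) (W3 := 67108864)
    rfl rfl rfl k0_pp_213

noncomputable def f_pm_001 : ℕ → ℕ → ℕ → ℕ → Bool := onCell 0 536870912 536870912 536870912 67108864 67108864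
    (rowFK 0 false true false .up 0 0 1 (qsf 0 536870912 536870912 536870912 0) ndF0q0 ndF3q1 pcF0 Cut.none Ext.none)

def k0_pm_001 : ∃ t, chk3 f_pm_001 t 1 1 1 = true :=
  ⟨(l 4), by decide +kernel⟩

theorem c_pm_001 : CertF 0 536870912 536870912 536870912 67108864 67108864 false true false .up 0 0 1
    ndF0q0 ndF3q1 pcF0 Cut.none Ext.none :=
  certFK0 (fam := false) (s1 := true) (s2 := false) (a := 0) (b := 0) (c := 1) (cn := .up) (n1 := ndF0q0) (n2 := ndF3q1) (pc := pcF0) (cut := Cut.none) (xt := Ext.none) (P1 := 0) (W1 := 536870912) (P2 := 536870912) (W2 := 536870912) (P3 := 67108864) (W3 := 67108864)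
    rfl rfl rfl k0_pm_001

noncomputable def f_pm_011 : ℕ → ℕ → ℕ → ℕ → Bool := onCell 0 536870912 536870912 536870912 67108864 67108864
    (rowFK 0 false true false .pnn 0 1 1 (qsf 0 536870912 536870912 536870912 1) ndF0q0 ndF3q1 pcF1 Cut.none Ext.none)

def k0_pm_011 : ∃ t, chk3 f_pm_011 t 1 1 1 = true :=
  ⟨(l 4), by decide +kernel⟩

theorem c_pm_011 : CertF 0 536870912 536870912 536870912 67108864 67108864 false true false .pnn 0 1 1
    ndF0q0 ndF3q1 pcF1 Cut.none Ext.none :=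
  certFK0 (fam := false) (s1 := true) (s2 := false) (a := 0) (b := 1) (c := 1) (cn := .pnn) (n1 := ndF0q0) (n2 := ndF3q1) (pc := pcF1) (cut := Cut.none) (xt := Ext.none) (P1 := 0) (W1 := 536870912) (P2 := 536870912) (W2 := 536870912) (P3 := 67108864) (W3 := 67108864)
    rfl rfl rfl k0_pm_011

noncomputable def f_pm_012 : ℕ → ℕ → ℕ → ℕ → Bool := onCell 0 536870912 1073741824 536870912 67108864 67108864
    (rowFK 0 false true false .pnp 0 1 2 (qsf 0 536870912 1073741824 536870912 1) ndF0q0 ndF3q2 pcF1 Cut.none Ext.none)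

def k0_pm_012 : ∃ t, chk3 f_pm_012 t 1 1 1 = true :=
  ⟨(l 4), by decide +kernel⟩

theorem c_pm_012 : CertF 0 536870912 1073741824 536870912 67108864 67108864 false true false .pnp 0 1 2
    ndF0q0 ndF3q2 pcF1 Cut.none Ext.none :=
  certFK0 (fam := false) (s1 := true) (s2 := false) (a := 0) (b := 1) (c := 2) (cn := .pnp) (n1 := ndF0q0) (n2 := ndF3q2) (pc := pcF1) (cut := Cut.none) (xt := Ext.none) (P1 := 0) (W1 := 536870912) (P2 := 1073741824) (W2 := 536870912) (P3 := 67108864) (W3 := 67108864)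
    rfl rfl rfl k0_pm_012

noncomputable def f_pm_022 : ℕ → ℕ → ℕ → ℕ → Bool := onCell 0 536870912 1073741824 536870912 67108864 67108864
    (rowFK 0 false true false .pp 0 2 2 (qsf 0 536870912 1073741824 536870912 2) ndF0q0 ndF3q2 pcF2 Cut.none Ext.none)

def k0_pm_022 : ∃ t, chk3 f_pm_022 t 1 1 1 = true :=
  ⟨(l 4), by decide +kernel⟩

theorem c_pm_022 : CertF 0 536870912 1073741824 536870912 67108864 67108864 false true false .pp 0 2 2
    ndF0q0 ndF3q2 pcF2 Cut.none Ext.none :=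
  certFK0 (fam := false) (s1 := true) (s2 := false) (a := 0) (b := 2) (c := 2) (cn := .pp) (n1 := ndF0q0) (n2 := ndF3q2) (pc := pcF2) (cut := Cut.none) (xt := Ext.none) (P1 := 0) (W1 := 536870912) (P2 := 1073741824) (W2 := 536870912) (P3 := 67108864) (W3 := 67108864)
    rfl rfl rfl k0_pm_022

noncomputable def f_pm_023 : ℕ → ℕ → ℕ → ℕ → Bool := onCell 0 536870912 0 1230186008 67108864 67108864
    (rowFK 0 false true false .up 0 2 3 (qsf 0 536870912 0 1230186008 2) ndF0q0 ndF3q3 pcF2 Cut.none Ext.none)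

def k0_pm_023 : ∃ t, chk3 f_pm_023 t 1 1 1 = true :=
  ⟨(a (b (l 2) (l 4)) (b (a (l 2) (b (l 17649288) (a (l 17908080) (l 17861472)))) (b (a (l 4) (a (l 4) (l 18535320))) (l 4)))), by decide +kernel⟩

theorem c_pm_023 : CertF 0 536870912 0 1230186008 67108864 67108864 false true false .up 0 2 3
    ndF0q0 ndF3q3 pcF2 Cut.none Ext.none :=
  certFK0 (fam := false) (s1 := true) (s2 := false) (a := 0) (b := 2) (c := 3) (cn := .up) (n1 := ndF0q0) (n2 := ndF3q3) (pc := pcF2) (cut := Cut.none) (xt := Ext.none) (P1 := 0) (W1 := 536870912) (P2 := 0) (W2 := 1230186008) (P3 := 67108864) (W3 := 67108864)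
    rfl rfl rfl k0_pm_023

noncomputable def f_pm_033 : ℕ → ℕ → ℕ → ℕ → Bool := onCell 1610612736 536870912 0 1230186008 67108864 67108864
    (rowFK 2 false true false .pnn 0 3 3 (qsf 0 536870912 0 1230186008 3) ndF0q0 ndF3q3 pcF3 Cut.none Ext.none)

def k0_pm_033 : ∃ t, chk3 f_pm_033 t 1 1 1 = true :=
  ⟨(b (a (a (b (l 17390496) (a (l 17847104) (l 17936968))) (b (l 17329712) (l 4))) (l 4)) (a (l 4) (l 4))), by decide +kernel⟩

theorem c_pm_033 : CertF 0 536870912 0 1230186008 67108864 67108864 false true false .pnn 0 3 3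
    ndF0q0 ndF3q3 pcF3 Cut.none Ext.none :=
  certFK2 (fam := false) (s1 := true) (s2 := false) (a := 0) (b := 3) (c := 3) (cn := .pnn) (n1 := ndF0q0) (n2 := ndF3q3) (pc := pcF3) (cut := Cut.none) (xt := Ext.none) (P1 := 0) (W1 := 536870912) (P2 := 0) (W2 := 1230186008) (P3 := 67108864) (W3 := 67108864)
    rfl rfl rfl (fun _ => rfl) k0_pm_033

noncomputable def f_pm_101 : ℕ → ℕ → ℕ → ℕ → Bool := onCell 536870912 536870912 536870912 536870912 67108864 67108864
    (rowFK 0 false true false .npn 1 0 1 (qsf 536870912 536870912 536870912 536870912 0) ndF0q1 ndF3q1 pcF0 Cut.none Ext.none)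

def k0_pm_101 : ∃ t, chk3 f_pm_101 t 1 1 1 = true :=
  ⟨(l 4), by decide +kernel⟩

theorem c_pm_101 : CertF 536870912 536870912 536870912 536870912 67108864 67108864 false true false .npn 1 0 1
    ndF0q1 ndF3q1 pcF0 Cut.none Ext.none :=
  certFK0 (fam := false) (s1 := true) (s2 := false) (a := 1) (b := 0) (c := 1) (cn := .npn) (n1 := ndF0q1) (n2 := ndF3q1) (pc := pcF0) (cut := Cut.none) (xt := Ext.none) (P1 := 536870912) (W1 := 536870912) (P2 := 536870912) (W2 := 536870912) (P3 := 67108864) (W3 := 67108864)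
    rfl rfl rfl k0_pm_101

noncomputable def f_pm_102 : ℕ → ℕ → ℕ → ℕ → Bool := onCell 536870912 536870912 0 536870912 67108864 67108864
    (rowFK 1 false true false .npp 1 0 2 (qsf 536870912 536870912 1073741824 536870912 0) ndF0q1 ndF3q2 pcF0 Cut.none Ext.none)

def k0_pm_102 : ∃ t, chk3 f_pm_102 t 1 1 1 = true :=
  ⟨(b (a (b (l 1) (a (l 1) (l 345246232135))) (a (b (l 237872787351) (l 18760608)) (b (b (l 19320408) (a (l 19040384) (l 18945840))) (b (a (l 18733304) (l 18523984)) (a (l 18382520) (l 18135064)))))) (a (a (l 4) (a (b (l 18698168) (l 18651040)) (b (l 18601656) (l 18345088)))) (b (a (b (l 18387904) (a (l 18272520) (l 17927328))) (b (a (l 18026256) (a (l 17929952) (l 17872744))) (a (a (l 17745520) (l 17821512)) (l 18000664)))) (a (b (a (l 18003064) (l 17627264)) (b (l 18126712) (l 17874928))) (b (a (l 18068912) (a (l 18025024) (l 17719336))) (a (a (l 18093976) (b (l 18173336) (l 18096552))) (l 17577800))))))), by decide +kernel⟩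

theorem c_pm_102 : CertF 536870912 536870912 1073741824 536870912 67108864 67108864 false true false .npp 1 0 2
    ndF0q1 ndF3q2 pcF0 Cut.none Ext.none :=
  certFK1 (fam := false) (s1 := true) (s2 := false) (a := 1) (b := 0) (c := 2) (cn := .npp) (n1 := ndF0q1) (n2 := ndF3q2) (pc := pcF0) (cut := Cut.none) (xt := Ext.none) (P1 := 536870912) (W1 := 536870912) (P2 := 1073741824) (W2 := 536870912) (P3 := 67108864) (W3 := 67108864)
    rfl rfl rfl (fun _ => rfl) k0_pm_102

noncomputable def f_pm_112 : ℕ → ℕ → ℕ → ℕ → Bool := onCell 536870912 536870912 1073741824 536870912 67108864 67108864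
    (rowFK 2 false true false .dn 1 1 2 (qsf 536870912 536870912 1073741824 536870912 1) ndF0q1 ndF3q2 pcF1 Cut.none Ext.none)

def k0_pm_112 : ∃ t, chk3 f_pm_112 t 1 1 1 = true :=
  ⟨(a (b (a (b (l 4) (l 18819368)) (l 4)) (a (b (a (b (a (l 18648528) (l 18706368)) (b (l 18550248) (l 17612848))) (b (l 18782400) (b (l 18728152) (a (l 18379680) (l 18616800))))) (a (b (b (a (l 17480496) (l 17193176)) (a (l 17769584) (l 17565168))) (l 17841840)) (b (b (a (l 17378536) (l 18011800)) (a (l 17331192) (l 17091504))) (a (l 17628872) (b (l 17365640) (l 17517832)))))) (b (l 18939144) (a (b (a (b (l 18473744) (l 17483328)) (l 18450832)) (b (a (l 17149448) (l 17111840)) (l 17243912))) (b (b (l 18903848) (l 18594376)) (a (l 17545584) (b (l 18455896) (l 17697768)))))))) (b (l 4) (b (a (l 4) (l 4)) (a (a (b (l 19058808) (a (l 18183784) (l 18479896))) (l 19256960)) (l 19604232))))), by decide +kernel⟩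

theorem c_pm_112 : CertF 536870912 536870912 1073741824 536870912 67108864 67108864 false true false .dn 1 1 2
    ndF0q1 ndF3q2 pcF1 Cut.none Ext.none :=
  certFK2 (fam := false) (s1 := true) (s2 := false) (a := 1) (b := 1) (c := 2) (cn := .dn) (n1 := ndF0q1) (n2 := ndF3q2) (pc := pcF1) (cut := Cut.none) (xt := Ext.none) (P1 := 536870912) (W1 := 536870912) (P2 := 1073741824) (W2 := 536870912) (P3 := 67108864) (W3 := 67108864)
    rfl rfl rfl (fun _ => rfl) k0_pm_112

noncomputable def cut_pm_113 : Cut := Cut.of [[⟨0, 1, 0, 21338704⟩, ⟨1, 1, 0, 21338704⟩, ⟨2, 2, 0, 1685920⟩]]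

noncomputable def f_pm_113 : ℕ → ℕ → ℕ → ℕ → Bool := onCell 536870912 536870912 0 1230186008 67108864 67108864
    (rowFK 2 false true false .nn 1 1 3 (qsf 536870912 536870912 0 1230186008 1) ndF0q1 ndF3q3 pcF1 cut_pm_113 Ext.none)

def k0_pm_113 : ∃ t, chk3 f_pm_113 t 1 1 1 = true :=
  ⟨(b (a (l 2) (a (l 2) (b (a (l 2) (a (l 2) (b (a (l 2) (b (b (l 6) (l 925666141479)) (l 863925982631))) (l 826345066695)))) (a (b (l 1435693889111) (l 951436605271)) (b (l 758699989447) (l 16975592)))))) (b (a (a (l 2) (b (l 2) (a (l 2) (b (l 2) (l 875739456471))))) (b (a (a (l 2) (b (l 1041631366807) (l 17505928))) (a (l 17293016) (a (l 17154472) (l 17028920)))) (a (a (l 791451012087) (b (l 17653048) (l 17766280))) (a (l 17441048) (a (l 17243000) (l 17264016)))))) (a (a (b (l 2) (a (b (l 2) (l 496174170599)) (b (l 543955307367) (l 18839576)))) (b (a (b (l 876813600263) (l 18465112)) (b (l 18211536) (l 18371800))) (a (l 18783936) (l 18393648)))) (b (a (a (b (l 18079712)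 (l 18084432)) (l 17726224)) (a (l 17418872) (a (l 17588616) (l 17856672)))) (a (b (l 18028888) (a (l 17983488) (a (l 17691368) (l 17815304)))) (a (l 18075280) (a (l 18279288) (l 18476440)))))))), by decide +kernel⟩

theorem c_pm_113 : CertF 536870912 536870912 0 1230186008 67108864 67108864 false true false .nn 1 1 3
    ndF0q1 ndF3q3 pcF1 cut_pm_113 Ext.none :=
  certFK2 (fam := false) (s1 := true) (s2 := false) (a := 1) (b := 1) (c := 3) (cn := .nn) (n1 := ndF0q1) (n2 := ndF3q3) (pc := pcF1) (cut := cut_pm_113) (xt := Ext.none) (P1 := 536870912) (W1 := 536870912) (P2 := 0) (W2 := 1230186008) (P3 := 67108864) (W3 := 67108864)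
    rfl rfl rfl (fun _ => rfl) k0_pm_113

noncomputable def cut_pm_123 : Cut := Cut.of [[⟨0, 1, 0, 21338704⟩, ⟨1, 1, 0, 21338704⟩, ⟨2, 2, 0, 1685920⟩]]

noncomputable def f_pm_123 : ℕ → ℕ → ℕ → ℕ → Bool := onCell 1073741824 536870912 0 1230186008 67108864 67108864
    (rowFK 2 false true false .npn 1 2 3 (qsf 536870912 536870912 0 1230186008 2) ndF0q1 ndF3q3 pcF2 cut_pm_123 Ext.none)

def k0_pm_123 : ∃ t, chk3 f_pm_123 t 1 1 1 = true :=
  ⟨(b (b (a (a (a (a (a (b (b (b (l 6) (l 16789368)) (l 16799136)) (l 16829848)) (l 16951856)) (a (l 16936904) (l 16849320))) (a (l 16862520) (l 16894360))) (a (l 16938888) (l 17021440))) (a (l 17201800) (l 17480032))) (a (a (a (a (l 17055296) (l 17197112)) (l 17147336)) (b (l 17161872) (l 17434400))) (a (l 17593488) (l 17818856)))) (b (a (a (b (l 17420992) (l 17817208)) (b (l 17770400) (l 18174680))) (a (b (l 18049640) (l 18427280)) (b (l 18191896) (l 1)))) (a (a (b (l 18278944) (l 18744064)) (b (l 18579896) (l 4))) (l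 1)))), by decide +kernel⟩

theorem c_pm_123 : CertF 536870912 536870912 0 1230186008 67108864 67108864 false true false .npn 1 2 3
    ndF0q1 ndF3q3 pcF2 cut_pm_123 Ext.none :=
  certFK2 (fam := false) (s1 := true) (s2 := false) (a := 1) (b := 2) (c := 3) (cn := .npn) (n1 := ndF0q1) (n2 := ndF3q3) (pc := pcF2) (cut := cut_pm_123) (xt := Ext.none) (P1 := 536870912) (W1 := 536870912) (P2 := 0) (W2 := 1230186008) (P3 := 67108864) (W3 := 67108864)
    rfl rfl rfl (fun _ => rfl) k0_pm_123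

noncomputable def f_pm_133 : ℕ → ℕ → ℕ → ℕ → Bool := onCell 1610612736 536870912 0 1230186008 67108864 67108864
    (rowFK 2 false true false .dn 1 3 3 (qsf 536870912 536870912 0 1230186008 3) ndF0q1 ndF3q3 pcF3 Cut.none Ext.none)

def k0_pm_133 : ∃ t, chk3 f_pm_133 t 1 1 1 = true :=
  ⟨(b (b (a (a (l 17418216) (l 1)) (l 1)) (l 1)) (l 1)), by decide +kernel⟩

theorem c_pm_133 : CertF 536870912 536870912 0 1230186008 67108864 67108864 false true false .dn 1 3 3
    ndF0q1 ndF3q3 pcF3 Cut.none Ext.none :=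
  certFK2 (fam := false) (s1 := true) (s2 := false) (a := 1) (b := 3) (c := 3) (cn := .dn) (n1 := ndF0q1) (n2 := ndF3q3) (pc := pcF3) (cut := Cut.none) (xt := Ext.none) (P1 := 536870912) (W1 := 536870912) (P2 := 0) (W2 := 1230186008) (P3 := 67108864) (W3 := 67108864)
    rfl rfl rfl (fun _ => rfl) k0_pm_133

noncomputable def f_pm_202 : ℕ → ℕ → ℕ → ℕ → Bool := onCell 0 536870912 0 536870912 67108864 67108864
    (rowFK 1 false true false .pp 2 0 2 (qsf 0 536870912 1073741824 536870912 0) ndF0q2 ndF3q2 pcF0 Cut.none Ext.none)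

def k0_pm_202 : ∃ t, chk3 f_pm_202 t 2 1 1 = true :=
  ⟨(a (b (l 3) (l 3)) (a (b (b (b (b (b (a (a (c (l 138146665703) (a (l 3) (b (b (a (b (l 132239724759) (l 3)) (a (a (l 17476824) (l 17598720)) (l 17633264))) (l 131703026727)) (l 132239904135)))) (c (l 18373352) (a (b (b (l 17626584) (a (l 17699488) (l 17682200))) (a (l 17744632) (l 17728472))) (b (l 17575520) (l 17706424))))) (l 17789848)) (a (a (l 3) (b (a (l 18013416) (l 18064840)) (l 17913624))) (a (b (l 18027456) (l 18050376)) (l 17931416)))) (a (a (l 3) (b (l 135998782039) (l 136535646935))) (a (b (a (l 18093368) (l 18054184)) (l 18093152)) (b (l 18036000) (l 18024560))))) (b (a (l 141904281383) (l 18067944)) (a (l 3) (l 139756316663)))) (a (l 3) (b (l 146198983543) (l 3)))) (l 3)) (b (b (b (b (a (l 17597784) (l 17246752)) (a (b (l 17881224) (l 18089872)) (l 17751448))) (b (a (b (l 17981128) (l 17965776)) (b (l 17851360) (l 17939552))) (a (l 18005720) (l 18009888)))) (b (a (l 17943496) (l 17923912))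 (l 145124983095))) (b (b (l 157472815367) (a (l 3) (l 164988786503))) (b (a (l 2) (l 240150432935)) (l 2)))))), by decide +kernel⟩

def k1_pm_202 : ∃ t, chk3 f_pm_202 t 3 1 1 = true :=
  ⟨(b (b (a (b (a (b (l 17716056) (l 17469696)) (b (l 18357888) (l 18044024))) (a (b (l 17705024) (a (b (l 17795176) (l 17880120)) (l 17755224))) (b (l 17773944) (l 17691192)))) (a (b (a (l 18681776) (l 18958944)) (l 18104952)) (b (l 19163968) (l 18658280)))) (b (a (a (b (b (l 17854184) (l 17994496)) (l 18036712)) (l 17881624)) (a (b (l 17793600) (l 17688632)) (l 18106848))) (a (a (a (l 17824232) (l 17765144)) (l 17753824)) (a (b (l 17680376) (l 17734456)) (a (l 17772856) (l 17893000)))))) (b (a (b (a (l 17728792) (a (l 17726080) (l 17692432))) (a (l 17625760) (l 17642456))) (b (a (a (l 17647592) (l 17532264)) (b (l 17765448) (l 17721296))) (a (l 17590784) (l 17653160)))) (a (a (b (l 138077949911) (l 2)) (l 148815853303)) (b (a (l 17559024) (l 17465056)) (a (l 17496152)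 (l 17478816)))))), by decide +kernel⟩

theorem s2_pm_202 : ∃ t, chk3 f_pm_202 t 1 1 1 = true := ex3_a k0_pm_202 k1_pm_202

theorem c_pm_202 : CertF 0 536870912 1073741824 536870912 67108864 67108864 false true false .pp 2 0 2
    ndF0q2 ndF3q2 pcF0 Cut.none Ext.none :=
  certFK1 (fam := false) (s1 := true) (s2 := false) (a := 2) (b := 0) (c := 2) (cn := .pp) (n1 := ndF0q2) (n2 := ndF3q2) (pc := pcF0) (cut := Cut.none) (xt := Ext.none) (P1 := 0) (W1 := 536870912) (P2 := 1073741824) (W2 := 536870912) (P3 := 67108864) (W3 := 67108864)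
    rfl rfl rfl (fun _ => rfl) s2_pm_202

noncomputable def f_pm_203 : ℕ → ℕ → ℕ → ℕ → Bool := onCell 0 536870912 0 1230186008 67108864 67108864
    (rowFK 0 false true false .up 2 0 3 (qsf 0 536870912 0 1230186008 0) ndF0q2 ndF3q3 pcF0 Cut.none Ext.none)

def k0_pm_203 : ∃ t, chk3 f_pm_203 t 1 1 1 = true :=
  ⟨(b (l 2) (b (l 2) (a (b (l 3) (a (l 3) (a (l 3) (b (l 3) (a (l 3) (l 184854086935)))))) (b (l 2) (a (a (b (l 167673920647) (l 21108519495)) (b (l 18056776) (l 18203352))) (a (l 18215256) (b (l 2) (l 18378840)))))))), by decide +kernel⟩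

theorem c_pm_203 : CertF 0 536870912 0 1230186008 67108864 67108864 false true false .up 2 0 3
    ndF0q2 ndF3q3 pcF0 Cut.none Ext.none :=
  certFK0 (fam := false) (s1 := true) (s2 := false) (a := 2) (b := 0) (c := 3) (cn := .up) (n1 := ndF0q2) (n2 := ndF3q3) (pc := pcF0) (cut := Cut.none) (xt := Ext.none) (P1 := 0) (W1 := 536870912) (P2 := 0) (W2 := 1230186008) (P3 := 67108864) (W3 := 67108864)
    rfl rfl rfl k0_pm_203

noncomputable def cut_pm_213 : Cut := Cut.of [[⟨0, 1, 0, 21338704⟩, ⟨1, 1, 0, 21338704⟩, ⟨2, 2, 0, 1685920⟩]]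

noncomputable def f_pm_213 : ℕ → ℕ → ℕ → ℕ → Bool := onCell 0 536870912 0 1230186008 67108864 67108864
    (rowFK 0 false true false .pnn 2 1 3 (qsf 0 536870912 0 1230186008 1) ndF0q2 ndF3q3 pcF1 cut_pm_213 Ext.none)

def k0_pm_213 : ∃ t, chk3 f_pm_213 t 1 1 1 = true :=
  ⟨(b (a (l 3) (b (a (l 3) (a (b (l 3) (l 3)) (b (a (l 3) (b (a (l 3) (b (l 6) (b (l 6) (a (a (l 301352365863) (l 274508817367)) (l 16779032))))) (a (b (a (l 3) (a (l 308331690247) (l 299741762727))) (b (l 279340686983) (l 273435090375))) (a (b (b (l 272898212855) (l 16782456)) (l 16786536)) (l 16782424))))) (a (b (a (l 3) (b (l 328732810199) (l 270750767047))) (b (l 269140201319) (l 261624040375))) (a (b (b (l 264308290967) (l 16805896)) (l 16830024)) (l 16813768)))))) (a (l 3) (a (b (a (l 3) (b (l 351281528167) (l 257329246007))) (a (b (l 333564974567) (l 246055197591)) (b (l 241223232663) (l 17093880)))) (b (a (b (l 249813012007) (l 16932736)) (l 16911416)) (a (l 17139456) (l 17100608)))))))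 (b (a (l 3) (a (b (a (l 3) (a (l 3) (b (l 302963666119) (l 216527714951)))) (a (l 3) (a (b (l 262161949063) (l 195590296983)) (b (l 179483747527) (l 17615344))))) (b (a (a (b (l 211695560103) (l 17322304)) (l 17370224)) (l 17424912)) (a (b (l 17541552) (l 17748504)) (l 17789904))))) (a (b (l 3) (b (l 3) (l 1))) (b (a (a (b (l 286321655943) (l 174652884423)) (b (a (l 17725264) (l 17823888)) (l 17987608))) (a (b (l 17969816) (l 18194464)) (l 18268640))) (a (b (a (a (l 188074845767) (l 18050720)) (l 18199552)) (l 1)) (b (l 18510120) (a (l 18581576) (l 18780864)))))))), by decide +kernel⟩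

theorem c_pm_213 : CertF 0 536870912 0 1230186008 67108864 67108864 false true false .pnn 2 1 3
    ndF0q2 ndF3q3 pcF1 cut_pm_213 Ext.none :=
  certFK0 (fam := false) (s1 := true) (s2 := false) (a := 2) (b := 1) (c := 3) (cn := .pnn) (n1 := ndF0q2) (n2 := ndF3q3) (pc := pcF1) (cut := cut_pm_213) (xt := Ext.none) (P1 := 0) (W1 := 536870912) (P2 := 0) (W2 := 1230186008) (P3 := 67108864) (W3 := 67108864)
    rfl rfl rfl k0_pm_213

noncomputable def f_mm_001 : ℕ → ℕ → ℕ → ℕ → Bool := onCell 0 536870912 0 536870912 67108864 67108864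
    (rowFK 1 false false false .up 0 0 1 (qsf 0 536870912 536870912 536870912 0) ndF0q0 ndF3q1 pcF0 Cut.none Ext.none)

def k0_mm_001 : ∃ t, chk3 f_mm_001 t 1 1 1 = true :=
  ⟨(l 3), by decide +kernel⟩

theorem c_mm_001 : CertF 0 536870912 536870912 536870912 67108864 67108864 false false false .up 0 0 1
    ndF0q0 ndF3q1 pcF0 Cut.none Ext.none :=
  certFK1 (fam := false) (s1 := false) (s2 := false) (a := 0) (b := 0) (c := 1) (cn := .up) (n1 := ndF0q0) (n2 := ndF3q1) (pc := pcF0) (cut := Cut.none) (xt := Ext.none) (P1 := 0) (W1 := 536870912) (P2 := 536870912) (W2 := 536870912) (P3 := 67108864) (W3 := 67108864)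
    rfl rfl rfl (fun _ => rfl) k0_mm_001

noncomputable def f_mm_011 : ℕ → ℕ → ℕ → ℕ → Bool := onCell 0 536870912 536870912 536870912 67108864 67108864
    (rowFK 1 false false false .pnn 0 1 1 (qsf 0 536870912 536870912 536870912 1) ndF0q0 ndF3q1 pcF1 Cut.none Ext.none)

def k0_mm_011 : ∃ t, chk3 f_mm_011 t 1 1 1 = true :=
  ⟨(l 5), by decide +kernel⟩

theorem c_mm_011 : CertF 0 536870912 536870912 536870912 67108864 67108864 false false false .pnn 0 1 1
    ndF0q0 ndF3q1 pcF1 Cut.none Ext.none :=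
  certFK1 (fam := false) (s1 := false) (s2 := false) (a := 0) (b := 1) (c := 1) (cn := .pnn) (n1 := ndF0q0) (n2 := ndF3q1) (pc := pcF1) (cut := Cut.none) (xt := Ext.none) (P1 := 0) (W1 := 536870912) (P2 := 536870912) (W2 := 536870912) (P3 := 67108864) (W3 := 67108864)
    rfl rfl rfl (fun _ => rfl) k0_mm_011

noncomputable def f_mm_012 : ℕ → ℕ → ℕ → ℕ → Bool := onCell 0 536870912 1073741824 536870912 67108864 67108864
    (rowFK 0 false false false .pnp 0 1 2 (qsf 0 536870912 1073741824 536870912 1) ndF0q0 ndF3q2 pcF1 Cut.none Ext.none)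

def k0_mm_012 : ∃ t, chk3 f_mm_012 t 1 1 1 = true :=
  ⟨(l 5), by decide +kernel⟩

theorem c_mm_012 : CertF 0 536870912 1073741824 536870912 67108864 67108864 false false false .pnp 0 1 2
    ndF0q0 ndF3q2 pcF1 Cut.none Ext.none :=
  certFK0 (fam := false) (s1 := false) (s2 := false) (a := 0) (b := 1) (c := 2) (cn := .pnp) (n1 := ndF0q0) (n2 := ndF3q2) (pc := pcF1) (cut := Cut.none) (xt := Ext.none) (P1 := 0) (W1 := 536870912) (P2 := 1073741824) (W2 := 536870912) (P3 := 67108864) (W3 := 67108864)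
    rfl rfl rfl k0_mm_012

noncomputable def f_mm_022 : ℕ → ℕ → ℕ → ℕ → Bool := onCell 0 536870912 1073741824 536870912 67108864 67108864
    (rowFK 0 false false false .pp 0 2 2 (qsf 0 536870912 1073741824 536870912 2) ndF0q0 ndF3q2 pcF2 Cut.none Ext.none)

def k0_mm_022 : ∃ t, chk3 f_mm_022 t 1 1 1 = true :=
  ⟨(l 5), by decide +kernel⟩

theorem c_mm_022 : CertF 0 536870912 1073741824 536870912 67108864 67108864 false false false .pp 0 2 2
    ndF0q0 ndF3q2 pcF2 Cut.none Ext.none :=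
  certFK0 (fam := false) (s1 := false) (s2 := false) (a := 0) (b := 2) (c := 2) (cn := .pp) (n1 := ndF0q0) (n2 := ndF3q2) (pc := pcF2) (cut := Cut.none) (xt := Ext.none) (P1 := 0) (W1 := 536870912) (P2 := 1073741824) (W2 := 536870912) (P3 := 67108864) (W3 := 67108864)
    rfl rfl rfl k0_mm_022

noncomputable def f_mm_023 : ℕ → ℕ → ℕ → ℕ → Bool := onCell 0 536870912 0 1230186008 67108864 67108864
    (rowFK 0 false false false .up 0 2 3 (qsf 0 536870912 0 1230186008 2) ndF0q0 ndF3q3 pcF2 Cut.none Ext.none)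

def k0_mm_023 : ∃ t, chk3 f_mm_023 t 1 1 1 = true :=
  ⟨(l 5), by decide +kernel⟩

theorem c_mm_023 : CertF 0 536870912 0 1230186008 67108864 67108864 false false false .up 0 2 3
    ndF0q0 ndF3q3 pcF2 Cut.none Ext.none :=
  certFK0 (fam := false) (s1 := false) (s2 := false) (a := 0) (b := 2) (c := 3) (cn := .up) (n1 := ndF0q0) (n2 := ndF3q3) (pc := pcF2) (cut := Cut.none) (xt := Ext.none) (P1 := 0) (W1 := 536870912) (P2 := 0) (W2 := 1230186008) (P3 := 67108864) (W3 := 67108864)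
    rfl rfl rfl k0_mm_023

noncomputable def f_mm_033 : ℕ → ℕ → ℕ → ℕ → Bool := onCell 0 536870912 0 1230186008 67108864 67108864
    (rowFK 0 false false false .pnn 0 3 3 (qsf 0 536870912 0 1230186008 3) ndF0q0 ndF3q3 pcF3 Cut.none Ext.none)

def k0_mm_033 : ∃ t, chk3 f_mm_033 t 1 1 1 = true :=
  ⟨(l 5), by decide +kernel⟩

theorem c_mm_033 : CertF 0 536870912 0 1230186008 67108864 67108864 false false false .pnn 0 3 3
    ndF0q0 ndF3q3 pcF3 Cut.none Ext.none :=
  certFK0 (fam := false) (s1 := false) (s2 := false) (a := 0) (b := 3) (c := 3) (cn := .pnn) (n1 := ndF0q0) (n2 := ndF3q3) (pc := pcF3) (cut := Cut.none) (xt := Ext.none) (P1 := 0) (W1 := 536870912) (P2 := 0) (W2 := 1230186008) (P3 := 67108864) (W3 := 67108864)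
    rfl rfl rfl k0_mm_033

noncomputable def cut_mm_101 : Cut := Cut.of [[⟨0, 1, 0, 67108864⟩, ⟨1, 0, 0, 67108864⟩, ⟨2, 1, 0, 67108864⟩]]

noncomputable def f_mm_101 : ℕ → ℕ → ℕ → ℕ → Bool := onCell 536870912 536870912 0 536870912 67108864 67108864
    (rowFK 1 false false false .npn 1 0 1 (qsf 536870912 536870912 536870912 536870912 0) ndF0q1 ndF3q1 pcF0 cut_mm_101 Ext.none)

def k0_mm_101 : ∃ t, chk3 f_mm_101 t 1 1 1 = true :=
  ⟨(a (l 3) (b (b (a (l 3) (b (a (l 3) (a (l 3) (b (l 6) (l 3)))) (l 3))) (l 3)) (l 3))), by decide +kernel⟩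

theorem c_mm_101 : CertF 536870912 536870912 536870912 536870912 67108864 67108864 false false false .npn 1 0 1
    ndF0q1 ndF3q1 pcF0 cut_mm_101 Ext.none :=
  certFK1 (fam := false) (s1 := false) (s2 := false) (a := 1) (b := 0) (c := 1) (cn := .npn) (n1 := ndF0q1) (n2 := ndF3q1) (pc := pcF0) (cut := cut_mm_101) (xt := Ext.none) (P1 := 536870912) (W1 := 536870912) (P2 := 536870912) (W2 := 536870912) (P3 := 67108864) (W3 := 67108864)
    rfl rfl rfl (fun _ => rfl) k0_mm_101

noncomputable def f_mm_102 : ℕ → ℕ → ℕ → ℕ → Bool := onCell 536870912 536870912 1073741824 536870912 67108864 67108864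
    (rowFK 0 false false false .npp 1 0 2 (qsf 536870912 536870912 1073741824 536870912 0) ndF0q1 ndF3q2 pcF0 Cut.none Ext.none)

def k0_mm_102 : ∃ t, chk3 f_mm_102 t 1 1 1 = true :=
  ⟨(l 3), by decide +kernel⟩

theorem c_mm_102 : CertF 536870912 536870912 1073741824 536870912 67108864 67108864 false false false .npp 1 0 2
    ndF0q1 ndF3q2 pcF0 Cut.none Ext.none :=
  certFK0 (fam := false) (s1 := false) (s2 := false) (a := 1) (b := 0) (c := 2) (cn := .npp) (n1 := ndF0q1) (n2 := ndF3q2) (pc := pcF0) (cut := Cut.none) (xt := Ext.none) (P1 := 536870912) (W1 := 536870912) (P2 := 1073741824) (W2 := 536870912) (P3 := 67108864) (W3 := 67108864)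
    rfl rfl rfl k0_mm_102

noncomputable def f_mm_112 : ℕ → ℕ → ℕ → ℕ → Bool := onCell 536870912 536870912 1073741824 536870912 67108864 67108864
    (rowFK 0 false false false .dn 1 1 2 (qsf 536870912 536870912 1073741824 536870912 1) ndF0q1 ndF3q2 pcF1 Cut.none Ext.none)

def k0_mm_112 : ∃ t, chk3 f_mm_112 t 1 1 1 = true :=
  ⟨(l 3), by decide +kernel⟩

theorem c_mm_112 : CertF 536870912 536870912 1073741824 536870912 67108864 67108864 false false false .dn 1 1 2
    ndF0q1 ndF3q2 pcF1 Cut.none Ext.none :=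
  certFK0 (fam := false) (s1 := false) (s2 := false) (a := 1) (b := 1) (c := 2) (cn := .dn) (n1 := ndF0q1) (n2 := ndF3q2) (pc := pcF1) (cut := Cut.none) (xt := Ext.none) (P1 := 536870912) (W1 := 536870912) (P2 := 1073741824) (W2 := 536870912) (P3 := 67108864) (W3 := 67108864)
    rfl rfl rfl k0_mm_112

noncomputable def f_mm_113 : ℕ → ℕ → ℕ → ℕ → Bool := onCell 536870912 536870912 0 1230186008 67108864 67108864
    (rowFK 0 false false false .nn 1 1 3 (qsf 536870912 536870912 0 1230186008 1) ndF0q1 ndF3q3 pcF1 Cut.none Ext.none)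

def k0_mm_113 : ∃ t, chk3 f_mm_113 t 1 1 1 = true :=
  ⟨(b (l 5) (a (l 5) (b (l 5) (l 3)))), by decide +kernel⟩

theorem c_mm_113 : CertF 536870912 536870912 0 1230186008 67108864 67108864 false false false .nn 1 1 3
    ndF0q1 ndF3q3 pcF1 Cut.none Ext.none :=
  certFK0 (fam := false) (s1 := false) (s2 := false) (a := 1) (b := 1) (c := 3) (cn := .nn) (n1 := ndF0q1) (n2 := ndF3q3) (pc := pcF1) (cut := Cut.none) (xt := Ext.none) (P1 := 536870912) (W1 := 536870912) (P2 := 0) (W2 := 1230186008) (P3 := 67108864) (W3 := 67108864)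
    rfl rfl rfl k0_mm_113

noncomputable def f_mm_123 : ℕ → ℕ → ℕ → ℕ → Bool := onCell 1073741824 536870912 0 1230186008 67108864 67108864
    (rowFK 2 false false false .npn 1 2 3 (qsf 536870912 536870912 0 1230186008 2) ndF0q1 ndF3q3 pcF2 Cut.none Ext.none)

def k0_mm_123 : ∃ t, chk3 f_mm_123 t 1 1 1 = true :=
  ⟨(b (l 5) (l 5)), by decide +kernel⟩

theorem c_mm_123 : CertF 536870912 536870912 0 1230186008 67108864 67108864 false false false .npn 1 2 3
    ndF0q1 ndF3q3 pcF2 Cut.none Ext.none :=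
  certFK2 (fam := false) (s1 := false) (s2 := false) (a := 1) (b := 2) (c := 3) (cn := .npn) (n1 := ndF0q1) (n2 := ndF3q3) (pc := pcF2) (cut := Cut.none) (xt := Ext.none) (P1 := 536870912) (W1 := 536870912) (P2 := 0) (W2 := 1230186008) (P3 := 67108864) (W3 := 67108864)
    rfl rfl rfl (fun _ => rfl) k0_mm_123

noncomputable def f_mm_133 : ℕ → ℕ → ℕ → ℕ → Bool := onCell 1610612736 536870912 0 1230186008 67108864 67108864
    (rowFK 2 false false false .dn 1 3 3 (qsf 536870912 536870912 0 1230186008 3) ndF0q1 ndF3q3 pcF3 Cut.none Ext.none)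

def k0_mm_133 : ∃ t, chk3 f_mm_133 t 1 1 1 = true :=
  ⟨(l 5), by decide +kernel⟩

theorem c_mm_133 : CertF 536870912 536870912 0 1230186008 67108864 67108864 false false false .dn 1 3 3
    ndF0q1 ndF3q3 pcF3 Cut.none Ext.none :=
  certFK2 (fam := false) (s1 := false) (s2 := false) (a := 1) (b := 3) (c := 3) (cn := .dn) (n1 := ndF0q1) (n2 := ndF3q3) (pc := pcF3) (cut := Cut.none) (xt := Ext.none) (P1 := 536870912) (W1 := 536870912) (P2 := 0) (W2 := 1230186008) (P3 := 67108864) (W3 := 67108864)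
    rfl rfl rfl (fun _ => rfl) k0_mm_133

noncomputable def f_mm_202 : ℕ → ℕ → ℕ → ℕ → Bool := onCell 0 536870912 1073741824 536870912 67108864 67108864
    (rowFK 0 false false false .pp 2 0 2 (qsf 0 536870912 1073741824 536870912 0) ndF0q2 ndF3q2 pcF0 Cut.none Ext.none)

def k0_mm_202 : ∃ t, chk3 f_mm_202 t 1 1 1 = true :=
  ⟨(l 3), by decide +kernel⟩

theorem c_mm_202 : CertF 0 536870912 1073741824 536870912 67108864 67108864 false false false .pp 2 0 2
    ndF0q2 ndF3q2 pcF0 Cut.none Ext.none :=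
  certFK0 (fam := false) (s1 := false) (s2 := false) (a := 2) (b := 0) (c := 2) (cn := .pp) (n1 := ndF0q2) (n2 := ndF3q2) (pc := pcF0) (cut := Cut.none) (xt := Ext.none) (P1 := 0) (W1 := 536870912) (P2 := 1073741824) (W2 := 536870912) (P3 := 67108864) (W3 := 67108864)
    rfl rfl rfl k0_mm_202

noncomputable def f_mm_203 : ℕ → ℕ → ℕ → ℕ → Bool := onCell 0 536870912 0 1230186008 67108864 67108864
    (rowFK 0 false false false .up 2 0 3 (qsf 0 536870912 0 1230186008 0) ndF0q2 ndF3q3 pcF0 Cut.none Ext.none)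

def k0_mm_203 : ∃ t, chk3 f_mm_203 t 1 1 1 = true :=
  ⟨(b (l 2) (l 3)), by decide +kernel⟩

theorem c_mm_203 : CertF 0 536870912 0 1230186008 67108864 67108864 false false false .up 2 0 3
    ndF0q2 ndF3q3 pcF0 Cut.none Ext.none :=
  certFK0 (fam := false) (s1 := false) (s2 := false) (a := 2) (b := 0) (c := 3) (cn := .up) (n1 := ndF0q2) (n2 := ndF3q3) (pc := pcF0) (cut := Cut.none) (xt := Ext.none) (P1 := 0) (W1 := 536870912) (P2 := 0) (W2 := 1230186008) (P3 := 67108864) (W3 := 67108864)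
    rfl rfl rfl k0_mm_203

noncomputable def f_mm_213 : ℕ → ℕ → ℕ → ℕ → Bool := onCell 0 536870912 0 1230186008 67108864 67108864
    (rowFK 0 false false false .pnn 2 1 3 (qsf 0 536870912 0 1230186008 1) ndF0q2 ndF3q3 pcF1 Cut.none Ext.none)

def k0_mm_213 : ∃ t, chk3 f_mm_213 t 1 1 1 = true :=
  ⟨(b (a (l 3) (l 5)) (l 3)), by decide +kernel⟩

theorem c_mm_213 : CertF 0 536870912 0 1230186008 67108864 67108864 false false false .pnn 2 1 3
    ndF0q2 ndF3q3 pcF1 Cut.none Ext.none :=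
  certFK0 (fam := false) (s1 := false) (s2 := false) (a := 2) (b := 1) (c := 3) (cn := .pnn) (n1 := ndF0q2) (n2 := ndF3q3) (pc := pcF1) (cut := Cut.none) (xt := Ext.none) (P1 := 0) (W1 := 536870912) (P2 := 0) (W2 := 1230186008) (P3 := 67108864) (W3 := 67108864)
    rfl rfl rfl k0_mm_213

end Pool.Agent.Strip051.G.I1_16_1_8.Tab.C.FB03

namespace Pool.Agent.Strip051.G.I1_16_1_8.Tab.C.FB04

open Pool.Agent.Strip051.PB Pool.Agent.Strip051.PB.T
open Pool.Agent.Strip051.G.I1_16_1_8.Tab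

noncomputable def cut_pp_001 : Cut := Cut.of [[⟨3, 0, 0, 1449551462⟩]]

noncomputable def f_pp_001 : ℕ → ℕ → ℕ → ℕ → Bool := onCell 0 536870912 536870912 536870912 67108864 67108864
    (rowFK 0 false true true .up 0 0 1 (qsf 0 536870912 536870912 536870912 0) ndF0q0 ndF4q1 pcF0 cut_pp_001 Ext.none)

def k0_pp_001 : ∃ t, chk3 f_pp_001 t 1 1 1 = true :=
  ⟨(l 6), by decide +kernel⟩

theorem c_pp_001 : CertF 0 536870912 536870912 536870912 67108864 67108864 false true true .up 0 0 1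
    ndF0q0 ndF4q1 pcF0 cut_pp_001 Ext.none :=
  certFK0 (fam := false) (s1 := true) (s2 := true) (a := 0) (b := 0) (c := 1) (cn := .up) (n1 := ndF0q0) (n2 := ndF4q1) (pc := pcF0) (cut := cut_pp_001) (xt := Ext.none) (P1 := 0) (W1 := 536870912) (P2 := 536870912) (W2 := 536870912) (P3 := 67108864) (W3 := 67108864)
    rfl rfl rfl k0_pp_001

noncomputable def cut_pp_011 : Cut := Cut.of [[⟨3, 0, 0, 1449551462⟩], [⟨0, 0, 0, 67108864⟩, ⟨1, 1, 0, 67108864⟩, ⟨2, 1, 0, 67108864⟩]]

noncomputable def f_pp_011 : ℕ → ℕ → ℕ → ℕ → Bool := onCell 0 536870912 536870912 536870912 67108864 67108864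
    (rowFK 0 false true true .pnn 0 1 1 (qsf 0 536870912 536870912 536870912 1) ndF0q0 ndF4q1 pcF1 cut_pp_011 Ext.none)

def k0_pp_011 : ∃ t, chk3 f_pp_011 t 1 1 1 = true :=
  ⟨(l 6), by decide +kernel⟩

theorem c_pp_011 : CertF 0 536870912 536870912 536870912 67108864 67108864 false true true .pnn 0 1 1
    ndF0q0 ndF4q1 pcF1 cut_pp_011 Ext.none :=
  certFK0 (fam := false) (s1 := true) (s2 := true) (a := 0) (b := 1) (c := 1) (cn := .pnn) (n1 := ndF0q0) (n2 := ndF4q1) (pc := pcF1) (cut := cut_pp_011) (xt := Ext.none) (P1 := 0) (W1 := 536870912) (P2 := 536870912) (W2 := 536870912) (P3 := 67108864) (W3 := 67108864)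
    rfl rfl rfl k0_pp_011

noncomputable def cut_pp_012 : Cut := Cut.of [[⟨3, 0, 0, 1449551462⟩], [⟨0, 0, 0, 67108864⟩, ⟨1, 1, 0, 67108864⟩, ⟨2, 1, 0, 67108864⟩]]

noncomputable def f_pp_012 : ℕ → ℕ → ℕ → ℕ → Bool := onCell 0 536870912 536870912 536870912 67108864 67108864
    (rowFK 1 false true true .pnp 0 1 2 (qsf 0 536870912 1073741824 536870912 1) ndF0q0 ndF4q2 pcF1 cut_pp_012 Ext.none)

def k0_pp_012 : ∃ t, chk3 f_pp_012 t 1 1 1 = true :=
  ⟨(l 6), by decide +kernel⟩

theorem c_pp_012 : CertF 0 536870912 1073741824 536870912 67108864 67108864 false true true .pnp 0 1 2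
    ndF0q0 ndF4q2 pcF1 cut_pp_012 Ext.none :=
  certFK1 (fam := false) (s1 := true) (s2 := true) (a := 0) (b := 1) (c := 2) (cn := .pnp) (n1 := ndF0q0) (n2 := ndF4q2) (pc := pcF1) (cut := cut_pp_012) (xt := Ext.none) (P1 := 0) (W1 := 536870912) (P2 := 1073741824) (W2 := 536870912) (P3 := 67108864) (W3 := 67108864)
    rfl rfl rfl (fun _ => rfl) k0_pp_012

noncomputable def cut_pp_022 : Cut := Cut.of [[⟨3, 0, 0, 1449551462⟩], [⟨0, 0, 0, 25165824⟩, ⟨1, 1, 0, 25165824⟩, ⟨2, 1, 0, 25165824⟩]]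

noncomputable def f_pp_022 : ℕ → ℕ → ℕ → ℕ → Bool := onCell 0 536870912 1073741824 536870912 67108864 67108864
    (rowFK 0 false true true .pp 0 2 2 (qsf 0 536870912 1073741824 536870912 2) ndF0q0 ndF4q2 pcF2 cut_pp_022 Ext.none)

def k0_pp_022 : ∃ t, chk3 f_pp_022 t 1 1 1 = true :=
  ⟨(a (b (l 6) (a (b (b (a (a (l 18784704) (l 6)) (l 6)) (a (l 18730416) (l 18169400))) (a (l 18769520) (l 18359224))) (b (l 6) (a (b (l 6) (l 18001432)) (l 6))))) (l 6)), by decide +kernel⟩

theorem c_pp_022 : CertF 0 536870912 1073741824 536870912 67108864 67108864 false true true .pp 0 2 2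
    ndF0q0 ndF4q2 pcF2 cut_pp_022 Ext.none :=
  certFK0 (fam := false) (s1 := true) (s2 := true) (a := 0) (b := 2) (c := 2) (cn := .pp) (n1 := ndF0q0) (n2 := ndF4q2) (pc := pcF2) (cut := cut_pp_022) (xt := Ext.none) (P1 := 0) (W1 := 536870912) (P2 := 1073741824) (W2 := 536870912) (P3 := 67108864) (W3 := 67108864)
    rfl rfl rfl k0_pp_022

noncomputable def cut_pp_023 : Cut := Cut.of [[⟨3, 0, 0, 1449551462⟩]]

noncomputable def f_pp_023 : ℕ → ℕ → ℕ → ℕ → Bool := onCell 1073741824 536870912 0 1230186008 67108864 67108864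
    (rowFK 2 false true true .up 0 2 3 (qsf 0 536870912 0 1230186008 2) ndF0q0 ndF4q3 pcF2 cut_pp_023 Ext.none)

def k0_pp_023 : ∃ t, chk3 f_pp_023 t 1 1 1 = true :=
  ⟨(a (b (l 2) (l 6)) (b (a (l 2) (b (l 17244816) (a (l 17128680) (l 17249064)))) (a (a (b (b (l 2) (l 6)) (l 6)) (b (b (l 17287648) (l 17371896)) (b (l 17517712) (l 18001696)))) (b (b (l 17569032) (b (l 17629808) (l 17697560))) (b (l 17864512) (b (l 18122800) (l 18396776))))))), by decide +kernel⟩

theorem c_pp_023 : CertF 0 536870912 0 1230186008 67108864 67108864 false true true .up 0 2 3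
    ndF0q0 ndF4q3 pcF2 cut_pp_023 Ext.none :=
  certFK2 (fam := false) (s1 := true) (s2 := true) (a := 0) (b := 2) (c := 3) (cn := .up) (n1 := ndF0q0) (n2 := ndF4q3) (pc := pcF2) (cut := cut_pp_023) (xt := Ext.none) (P1 := 0) (W1 := 536870912) (P2 := 0) (W2 := 1230186008) (P3 := 67108864) (W3 := 67108864)
    rfl rfl rfl (fun _ => rfl) k0_pp_023

noncomputable def cut_pp_033 : Cut := Cut.of [[⟨3, 0, 0, 1449551462⟩]]

noncomputable def f_pp_033 : ℕ → ℕ → ℕ → ℕ → Bool := onCell 1610612736 536870912 0 1230186008 67108864 67108864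
    (rowFK 2 false true true .pnn 0 3 3 (qsf 0 536870912 0 1230186008 3) ndF0q0 ndF4q3 pcF3 cut_pp_033 Ext.none)

def k0_pp_033 : ∃ t, chk3 f_pp_033 t 1 1 1 = true :=
  ⟨(b (a (a (b (b (l 16942264) (a (l 17196176) (l 16977592))) (b (a (l 17150544) (l 16960744)) (a (b (l 17989792) (l 18459624)) (l 17889536)))) (b (a (l 17278760) (l 17339840)) (a (b (l 16984008) (l 17555424)) (l 17624768)))) (a (b (l 17597648) (a (l 17598120) (l 17729928))) (a (l 17882208) (a (l 18042392) (b (l 4) (l 4)))))) (b (a (a (b (a (b (l 18349352) (l 17779064)) (b (l 18502088) (l 18266520))) (b (a (l 17477664) (l 17834664)) (l 17737552))) (a (b (b (l 18146136) (l 18487840)) (l 18256776)) (b (l 18098912) (l 18631912)))) (a (a (b (l 17824168) (l 18484944)) (l 297463492439)) (a (l 295316108295) (l 1)))) (a (a (b (l 18158016) (l 19072368)) (b (l 18569680) (a (l 19219544) (l 1)))) (l 1)))), by decide +kernel⟩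

theorem c_pp_033 : CertF 0 536870912 0 1230186008 67108864 67108864 false true true .pnn 0 3 3
    ndF0q0 ndF4q3 pcF3 cut_pp_033 Ext.none :=
  certFK2 (fam := false) (s1 := true) (s2 := true) (a := 0) (b := 3) (c := 3) (cn := .pnn) (n1 := ndF0q0) (n2 := ndF4q3) (pc := pcF3) (cut := cut_pp_033) (xt := Ext.none) (P1 := 0) (W1 := 536870912) (P2 := 0) (W2 := 1230186008) (P3 := 67108864) (W3 := 67108864)
    rfl rfl rfl (fun _ => rfl) k0_pp_033

noncomputable def cut_pp_101 : Cut := Cut.of [[⟨3, 0, 0, 1449551462⟩]]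

noncomputable def f_pp_101 : ℕ → ℕ → ℕ → ℕ → Bool := onCell 536870912 536870912 0 536870912 67108864 67108864
    (rowFK 1 false true true .npn 1 0 1 (qsf 536870912 536870912 536870912 536870912 0) ndF0q1 ndF4q1 pcF0 cut_pp_101 Ext.none)

def k0_pp_101 : ∃ t, chk3 f_pp_101 t 1 1 1 = true :=
  ⟨(l 6), by decide +kernel⟩

theorem c_pp_101 : CertF 536870912 536870912 536870912 536870912 67108864 67108864 false true true .npn 1 0 1
    ndF0q1 ndF4q1 pcF0 cut_pp_101 Ext.none :=
  certFK1 (fam := false) (s1 := true) (s2 := true) (a := 1) (b := 0) (c := 1) (cn := .npn) (n1 := ndF0q1) (n2 := ndF4q1) (pc := pcF0) (cut := cut_pp_101) (xt := Ext.none) (P1 := 536870912) (W1 := 536870912) (P2 := 536870912) (W2 := 536870912) (P3 := 67108864) (W3 := 67108864)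
    rfl rfl rfl (fun _ => rfl) k0_pp_101

noncomputable def cut_pp_102 : Cut := Cut.of [[⟨3, 0, 0, 1449551462⟩]]

noncomputable def f_pp_102 : ℕ → ℕ → ℕ → ℕ → Bool := onCell 536870912 536870912 1073741824 536870912 67108864 67108864
    (rowFK 0 false true true .npp 1 0 2 (qsf 536870912 536870912 1073741824 536870912 0) ndF0q1 ndF4q2 pcF0 cut_pp_102 Ext.none)

def k0_pp_102 : ∃ t, chk3 f_pp_102 t 1 1 1 = true :=
  ⟨(l 6), by decide +kernel⟩

theorem c_pp_102 : CertF 536870912 536870912 1073741824 536870912 67108864 67108864 false true true .npp 1 0 2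
    ndF0q1 ndF4q2 pcF0 cut_pp_102 Ext.none :=
  certFK0 (fam := false) (s1 := true) (s2 := true) (a := 1) (b := 0) (c := 2) (cn := .npp) (n1 := ndF0q1) (n2 := ndF4q2) (pc := pcF0) (cut := cut_pp_102) (xt := Ext.none) (P1 := 536870912) (W1 := 536870912) (P2 := 1073741824) (W2 := 536870912) (P3 := 67108864) (W3 := 67108864)
    rfl rfl rfl k0_pp_102

noncomputable def cut_pp_112 : Cut := Cut.of [[⟨3, 0, 0, 1449551462⟩]]

noncomputable def f_pp_112 : ℕ → ℕ → ℕ → ℕ → Bool := onCell 536870912 536870912 1073741824 536870912 67108864 67108864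
    (rowFK 0 false true true .dn 1 1 2 (qsf 536870912 536870912 1073741824 536870912 1) ndF0q1 ndF4q2 pcF1 cut_pp_112 Ext.none)

def k0_pp_112 : ∃ t, chk3 f_pp_112 t 1 1 1 = true :=
  ⟨(l 6), by decide +kernel⟩

theorem c_pp_112 : CertF 536870912 536870912 1073741824 536870912 67108864 67108864 false true true .dn 1 1 2
    ndF0q1 ndF4q2 pcF1 cut_pp_112 Ext.none :=
  certFK0 (fam := false) (s1 := true) (s2 := true) (a := 1) (b := 1) (c := 2) (cn := .dn) (n1 := ndF0q1) (n2 := ndF4q2) (pc := pcF1) (cut := cut_pp_112) (xt := Ext.none) (P1 := 536870912) (W1 := 536870912) (P2 := 1073741824) (W2 := 536870912) (P3 := 67108864) (W3 := 67108864)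
    rfl rfl rfl k0_pp_112

noncomputable def cut_pp_113 : Cut := Cut.of [[⟨3, 0, 0, 1449551462⟩], [⟨0, 1, 0, 21338704⟩, ⟨1, 1, 0, 21338704⟩, ⟨2, 2, 0, 1685920⟩]]

noncomputable def f_pp_113 : ℕ → ℕ → ℕ → ℕ → Bool := onCell 536870912 536870912 0 1230186008 67108864 67108864
    (rowFK 0 false true true .nn 1 1 3 (qsf 536870912 536870912 0 1230186008 1) ndF0q1 ndF4q3 pcF1 cut_pp_113 Ext.none)

def k0_pp_113 : ∃ t, chk3 f_pp_113 t 1 1 1 = true :=
  ⟨(a (b (l 2) (b (a (l 2) (l 6)) (l 6))) (b (a (l 2) (b (a (l 2) (l 6)) (l 6))) (l 6))), by decide +kernel⟩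

theorem c_pp_113 : CertF 536870912 536870912 0 1230186008 67108864 67108864 false true true .nn 1 1 3
    ndF0q1 ndF4q3 pcF1 cut_pp_113 Ext.none :=
  certFK0 (fam := false) (s1 := true) (s2 := true) (a := 1) (b := 1) (c := 3) (cn := .nn) (n1 := ndF0q1) (n2 := ndF4q3) (pc := pcF1) (cut := cut_pp_113) (xt := Ext.none) (P1 := 536870912) (W1 := 536870912) (P2 := 0) (W2 := 1230186008) (P3 := 67108864) (W3 := 67108864)
    rfl rfl rfl k0_pp_113

noncomputable def cut_pp_123 : Cut := Cut.of [[⟨3, 0, 0, 1449551462⟩], [⟨0, 1, 0, 21338704⟩, ⟨1, 1, 0, 21338704⟩, ⟨2, 2, 0, 1685920⟩]]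

noncomputable def f_pp_123 : ℕ → ℕ → ℕ → ℕ → Bool := onCell 1073741824 536870912 0 1230186008 67108864 67108864
    (rowFK 2 false true true .npn 1 2 3 (qsf 536870912 536870912 0 1230186008 2) ndF0q1 ndF4q3 pcF2 cut_pp_123 Ext.none)

def k0_pp_123 : ∃ t, chk3 f_pp_123 t 1 1 1 = true :=
  ⟨(a (b (b (a (a (l 6) (a (l 6) (b (l 16840808) (l 6)))) (a (b (l 16883216) (a (l 6) (l 16887656))) (l 17056696))) (a (l 6) (a (l 6) (b (l 16924168) (l 6))))) (l 6)) (b (a (b (b (l 17062176) (l 16959304)) (b (a (l 16945552) (l 17017080)) (a (l 17077592) (l 17105056)))) (b (l 17286736) (a (l 17149936) (l 17252104)))) (b (a (b (a (l 17147016) (l 17288136)) (a (l 6) (l 17376888))) (b (a (l 17410992) (l 1)) (l 1))) (l 1)))), by decide +kernel⟩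

theorem c_pp_123 : CertF 536870912 536870912 0 1230186008 67108864 67108864 false true true .npn 1 2 3
    ndF0q1 ndF4q3 pcF2 cut_pp_123 Ext.none :=
  certFK2 (fam := false) (s1 := true) (s2 := true) (a := 1) (b := 2) (c := 3) (cn := .npn) (n1 := ndF0q1) (n2 := ndF4q3) (pc := pcF2) (cut := cut_pp_123) (xt := Ext.none) (P1 := 536870912) (W1 := 536870912) (P2 := 0) (W2 := 1230186008) (P3 := 67108864) (W3 := 67108864)
    rfl rfl rfl (fun _ => rfl) k0_pp_123

noncomputable def cut_pp_133 : Cut := Cut.of [[⟨3, 0, 0, 1449551462⟩]]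

noncomputable def f_pp_133 : ℕ → ℕ → ℕ → ℕ → Bool := onCell 1610612736 536870912 0 1230186008 67108864 67108864
    (rowFK 2 false true true .dn 1 3 3 (qsf 536870912 536870912 0 1230186008 3) ndF0q1 ndF4q3 pcF3 cut_pp_133 Ext.none)

def k0_pp_133 : ∃ t, chk3 f_pp_133 t 1 1 1 = true :=
  ⟨(b (b (a (a (b (l 16946176) (l 1)) (l 1)) (l 1)) (l 1)) (l 1)), by decide +kernel⟩

theorem c_pp_133 : CertF 536870912 536870912 0 1230186008 67108864 67108864 false true true .dn 1 3 3
    ndF0q1 ndF4q3 pcF3 cut_pp_133 Ext.none :=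
  certFK2 (fam := false) (s1 := true) (s2 := true) (a := 1) (b := 3) (c := 3) (cn := .dn) (n1 := ndF0q1) (n2 := ndF4q3) (pc := pcF3) (cut := cut_pp_133) (xt := Ext.none) (P1 := 536870912) (W1 := 536870912) (P2 := 0) (W2 := 1230186008) (P3 := 67108864) (W3 := 67108864)
    rfl rfl rfl (fun _ => rfl) k0_pp_133

noncomputable def cut_pp_202 : Cut := Cut.of [[⟨3, 0, 0, 1449551462⟩]]

noncomputable def f_pp_202 : ℕ → ℕ → ℕ → ℕ → Bool := onCell 0 536870912 1073741824 536870912 67108864 67108864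
    (rowFK 0 false true true .pp 2 0 2 (qsf 0 536870912 1073741824 536870912 0) ndF0q2 ndF4q2 pcF0 cut_pp_202 Ext.none)

def k0_pp_202 : ∃ t, chk3 f_pp_202 t 1 1 1 = true :=
  ⟨(l 5), by decide +kernel⟩

theorem c_pp_202 : CertF 0 536870912 1073741824 536870912 67108864 67108864 false true true .pp 2 0 2
    ndF0q2 ndF4q2 pcF0 cut_pp_202 Ext.none :=
  certFK0 (fam := false) (s1 := true) (s2 := true) (a := 2) (b := 0) (c := 2) (cn := .pp) (n1 := ndF0q2) (n2 := ndF4q2) (pc := pcF0) (cut := cut_pp_202) (xt := Ext.none) (P1 := 0) (W1 := 536870912) (P2 := 1073741824) (W2 := 536870912) (P3 := 67108864) (W3 := 67108864)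
    rfl rfl rfl k0_pp_202

noncomputable def cut_pp_203 : Cut := Cut.of [[⟨3, 0, 0, 1449551462⟩]]

noncomputable def f_pp_203 : ℕ → ℕ → ℕ → ℕ → Bool := onCell 0 536870912 0 1230186008 67108864 67108864
    (rowFK 0 false true true .up 2 0 3 (qsf 0 536870912 0 1230186008 0) ndF0q2 ndF4q3 pcF0 cut_pp_203 Ext.none)

def k0_pp_203 : ∃ t, chk3 f_pp_203 t 1 1 1 = true :=
  ⟨(b (l 2) (a (l 5) (l 6))), by decide +kernel⟩

theorem c_pp_203 : CertF 0 536870912 0 1230186008 67108864 67108864 false true true .up 2 0 3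
    ndF0q2 ndF4q3 pcF0 cut_pp_203 Ext.none :=
  certFK0 (fam := false) (s1 := true) (s2 := true) (a := 2) (b := 0) (c := 3) (cn := .up) (n1 := ndF0q2) (n2 := ndF4q3) (pc := pcF0) (cut := cut_pp_203) (xt := Ext.none) (P1 := 0) (W1 := 536870912) (P2 := 0) (W2 := 1230186008) (P3 := 67108864) (W3 := 67108864)
    rfl rfl rfl k0_pp_203

noncomputable def cut_pp_213 : Cut := Cut.of [[⟨3, 0, 0, 1449551462⟩], [⟨0, 1, 0, 21338704⟩, ⟨1, 1, 0, 21338704⟩, ⟨2, 2, 0, 1685920⟩]]

noncomputable def f_pp_213 : ℕ → ℕ → ℕ → ℕ → Bool := onCell 0 536870912 0 1230186008 67108864 67108864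
    (rowFK 0 false true true .pnn 2 1 3 (qsf 0 536870912 0 1230186008 1) ndF0q2 ndF4q3 pcF1 cut_pp_213 Ext.none)

def k0_pp_213 : ∃ t, chk3 f_pp_213 t 1 1 1 = true :=
  ⟨(b (l 6) (a (l 5) (l 6))), by decide +kernel⟩

theorem c_pp_213 : CertF 0 536870912 0 1230186008 67108864 67108864 false true true .pnn 2 1 3
    ndF0q2 ndF4q3 pcF1 cut_pp_213 Ext.none :=
  certFK0 (fam := false) (s1 := true) (s2 := true) (a := 2) (b := 1) (c := 3) (cn := .pnn) (n1 := ndF0q2) (n2 := ndF4q3) (pc := pcF1) (cut := cut_pp_213) (xt := Ext.none) (P1 := 0) (W1 := 536870912) (P2 := 0) (W2 := 1230186008) (P3 := 67108864) (W3 := 67108864)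
    rfl rfl rfl k0_pp_213

noncomputable def cut_pm_001 : Cut := Cut.of [[⟨3, 0, 0, 1449551462⟩]]

noncomputable def f_pm_001 : ℕ → ℕ → ℕ → ℕ → Bool := onCell 0 536870912 536870912 536870912 67108864 67108864
    (rowFK 0 false true false .up 0 0 1 (qsf 0 536870912 536870912 536870912 0) ndF0q0 ndF4q1 pcF0 cut_pm_001 Ext.none)

def k0_pm_001 : ∃ t, chk3 f_pm_001 t 1 1 1 = true :=
  ⟨(l 4), by decide +kernel⟩

theorem c_pm_001 : CertF 0 536870912 536870912 536870912 67108864 67108864 false true false .up 0 0 1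
    ndF0q0 ndF4q1 pcF0 cut_pm_001 Ext.none :=
  certFK0 (fam := false) (s1 := true) (s2 := false) (a := 0) (b := 0) (c := 1) (cn := .up) (n1 := ndF0q0) (n2 := ndF4q1) (pc := pcF0) (cut := cut_pm_001) (xt := Ext.none) (P1 := 0) (W1 := 536870912) (P2 := 536870912) (W2 := 536870912) (P3 := 67108864) (W3 := 67108864)
    rfl rfl rfl k0_pm_001

noncomputable def cut_pm_011 : Cut := Cut.of [[⟨3, 0, 0, 1449551462⟩]]

noncomputable def f_pm_011 : ℕ → ℕ → ℕ → ℕ → Bool := onCell 0 536870912 536870912 536870912 67108864 67108864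
    (rowFK 0 false true false .pnn 0 1 1 (qsf 0 536870912 536870912 536870912 1) ndF0q0 ndF4q1 pcF1 cut_pm_011 Ext.none)

def k0_pm_011 : ∃ t, chk3 f_pm_011 t 1 1 1 = true :=
  ⟨(l 4), by decide +kernel⟩

theorem c_pm_011 : CertF 0 536870912 536870912 536870912 67108864 67108864 false true false .pnn 0 1 1
    ndF0q0 ndF4q1 pcF1 cut_pm_011 Ext.none :=
  certFK0 (fam := false) (s1 := true) (s2 := false) (a := 0) (b := 1) (c := 1) (cn := .pnn) (n1 := ndF0q0) (n2 := ndF4q1) (pc := pcF1) (cut := cut_pm_011) (xt := Ext.none) (P1 := 0) (W1 := 536870912) (P2 := 536870912) (W2 := 536870912) (P3 := 67108864) (W3 := 67108864)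
    rfl rfl rfl k0_pm_011

noncomputable def cut_pm_012 : Cut := Cut.of [[⟨3, 0, 0, 1449551462⟩]]

noncomputable def f_pm_012 : ℕ → ℕ → ℕ → ℕ → Bool := onCell 0 536870912 1073741824 536870912 67108864 67108864
    (rowFK 0 false true false .pnp 0 1 2 (qsf 0 536870912 1073741824 536870912 1) ndF0q0 ndF4q2 pcF1 cut_pm_012 Ext.none)

def k0_pm_012 : ∃ t, chk3 f_pm_012 t 1 1 1 = true :=
  ⟨(l 4), by decide +kernel⟩

theorem c_pm_012 : CertF 0 536870912 1073741824 536870912 67108864 67108864 false true false .pnp 0 1 2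
    ndF0q0 ndF4q2 pcF1 cut_pm_012 Ext.none :=
  certFK0 (fam := false) (s1 := true) (s2 := false) (a := 0) (b := 1) (c := 2) (cn := .pnp) (n1 := ndF0q0) (n2 := ndF4q2) (pc := pcF1) (cut := cut_pm_012) (xt := Ext.none) (P1 := 0) (W1 := 536870912) (P2 := 1073741824) (W2 := 536870912) (P3 := 67108864) (W3 := 67108864)
    rfl rfl rfl k0_pm_012

noncomputable def cut_pm_022 : Cut := Cut.of [[⟨3, 0, 0, 1449551462⟩]]

noncomputable def f_pm_022 : ℕ → ℕ → ℕ → ℕ → Bool := onCell 0 536870912 1073741824 536870912 67108864 67108864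
    (rowFK 0 false true false .pp 0 2 2 (qsf 0 536870912 1073741824 536870912 2) ndF0q0 ndF4q2 pcF2 cut_pm_022 Ext.none)

def k0_pm_022 : ∃ t, chk3 f_pm_022 t 1 1 1 = true :=
  ⟨(l 4), by decide +kernel⟩

theorem c_pm_022 : CertF 0 536870912 1073741824 536870912 67108864 67108864 false true false .pp 0 2 2
    ndF0q0 ndF4q2 pcF2 cut_pm_022 Ext.none :=
  certFK0 (fam := false) (s1 := true) (s2 := false) (a := 0) (b := 2) (c := 2) (cn := .pp) (n1 := ndF0q0) (n2 := ndF4q2) (pc := pcF2) (cut := cut_pm_022) (xt := Ext.none) (P1 := 0) (W1 := 536870912) (P2 := 1073741824) (W2 := 536870912) (P3 := 67108864) (W3 := 67108864)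
    rfl rfl rfl k0_pm_022

noncomputable def cut_pm_023 : Cut := Cut.of [[⟨3, 0, 0, 1449551462⟩]]

noncomputable def f_pm_023 : ℕ → ℕ → ℕ → ℕ → Bool := onCell 0 536870912 0 1230186008 67108864 67108864
    (rowFK 0 false true false .up 0 2 3 (qsf 0 536870912 0 1230186008 2) ndF0q0 ndF4q3 pcF2 cut_pm_023 Ext.none)

def k0_pm_023 : ∃ t, chk3 f_pm_023 t 1 1 1 = true :=
  ⟨(b (a (l 2) (a (l 2) (b (l 17598984) (l 17737128)))) (l 4)), by decide +kernel⟩

theorem c_pm_023 : CertF 0 536870912 0 1230186008 67108864 67108864 false true false .up 0 2 3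
    ndF0q0 ndF4q3 pcF2 cut_pm_023 Ext.none :=
  certFK0 (fam := false) (s1 := true) (s2 := false) (a := 0) (b := 2) (c := 3) (cn := .up) (n1 := ndF0q0) (n2 := ndF4q3) (pc := pcF2) (cut := cut_pm_023) (xt := Ext.none) (P1 := 0) (W1 := 536870912) (P2 := 0) (W2 := 1230186008) (P3 := 67108864) (W3 := 67108864)
    rfl rfl rfl k0_pm_023

noncomputable def cut_pm_033 : Cut := Cut.of [[⟨3, 0, 0, 1449551462⟩]]

noncomputable def f_pm_033 : ℕ → ℕ → ℕ → ℕ → Bool := onCell 1610612736 536870912 0 1230186008 67108864 67108864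
    (rowFK 2 false true false .pnn 0 3 3 (qsf 0 536870912 0 1230186008 3) ndF0q0 ndF4q3 pcF3 cut_pm_033 Ext.none)

def k0_pm_033 : ∃ t, chk3 f_pm_033 t 1 1 1 = true :=
  ⟨(b (a (b (a (a (l 17440160) (l 17618048)) (l 17501560)) (l 4)) (l 4)) (l 4)), by decide +kernel⟩

theorem c_pm_033 : CertF 0 536870912 0 1230186008 67108864 67108864 false true false .pnn 0 3 3
    ndF0q0 ndF4q3 pcF3 cut_pm_033 Ext.none :=
  certFK2 (fam := false) (s1 := true) (s2 := false) (a := 0) (b := 3) (c := 3) (cn := .pnn) (n1 := ndF0q0) (n2 := ndF4q3) (pc := pcF3) (cut := cut_pm_033) (xt := Ext.none) (P1 := 0) (W1 := 536870912) (P2 := 0) (W2 := 1230186008) (P3 := 67108864) (W3 := 67108864)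
    rfl rfl rfl (fun _ => rfl) k0_pm_033

noncomputable def cut_pm_101 : Cut := Cut.of [[⟨3, 0, 0, 1449551462⟩]]

noncomputable def f_pm_101 : ℕ → ℕ → ℕ → ℕ → Bool := onCell 536870912 536870912 536870912 536870912 67108864 67108864
    (rowFK 0 false true false .npn 1 0 1 (qsf 536870912 536870912 536870912 536870912 0) ndF0q1 ndF4q1 pcF0 cut_pm_101 Ext.none)

def k0_pm_101 : ∃ t, chk3 f_pm_101 t 1 1 1 = true :=
  ⟨(l 4), by decide +kernel⟩

theorem c_pm_101 : CertF 536870912 536870912 536870912 536870912 67108864 67108864 false true false .npn 1 0 1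
    ndF0q1 ndF4q1 pcF0 cut_pm_101 Ext.none :=
  certFK0 (fam := false) (s1 := true) (s2 := false) (a := 1) (b := 0) (c := 1) (cn := .npn) (n1 := ndF0q1) (n2 := ndF4q1) (pc := pcF0) (cut := cut_pm_101) (xt := Ext.none) (P1 := 536870912) (W1 := 536870912) (P2 := 536870912) (W2 := 536870912) (P3 := 67108864) (W3 := 67108864)
    rfl rfl rfl k0_pm_101

noncomputable def cut_pm_102 : Cut := Cut.of [[⟨3, 0, 0, 1449551462⟩]]

noncomputable def f_pm_102 : ℕ → ℕ → ℕ → ℕ → Bool := onCell 536870912 536870912 0 536870912 67108864 67108864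
    (rowFK 1 false true false .npp 1 0 2 (qsf 536870912 536870912 1073741824 536870912 0) ndF0q1 ndF4q2 pcF0 cut_pm_102 Ext.none)

def k0_pm_102 : ∃ t, chk3 f_pm_102 t 1 1 1 = true :=
  ⟨(b (l 4) (a (l 4) (b (l 4) (a (l 4) (a (l 4) (b (l 4) (l 18013064))))))), by decide +kernel⟩

theorem c_pm_102 : CertF 536870912 536870912 1073741824 536870912 67108864 67108864 false true false .npp 1 0 2
    ndF0q1 ndF4q2 pcF0 cut_pm_102 Ext.none :=
  certFK1 (fam := false) (s1 := true) (s2 := false) (a := 1) (b := 0) (c := 2) (cn := .npp) (n1 := ndF0q1) (n2 := ndF4q2) (pc := pcF0) (cut := cut_pm_102) (xt := Ext.none) (P1 := 536870912) (W1 := 536870912) (P2 := 1073741824) (W2 := 536870912) (P3 := 67108864) (W3 := 67108864)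
    rfl rfl rfl (fun _ => rfl) k0_pm_102

noncomputable def cut_pm_112 : Cut := Cut.of [[⟨3, 0, 0, 1449551462⟩]]

noncomputable def f_pm_112 : ℕ → ℕ → ℕ → ℕ → Bool := onCell 536870912 536870912 1073741824 536870912 67108864 67108864
    (rowFK 0 false true false .dn 1 1 2 (qsf 536870912 536870912 1073741824 536870912 1) ndF0q1 ndF4q2 pcF1 cut_pm_112 Ext.none)

def k0_pm_112 : ∃ t, chk3 f_pm_112 t 1 1 1 = true :=
  ⟨(a (l 4) (b (l 4) (b (l 4) (l 18915328)))), by decide +kernel⟩

theorem c_pm_112 : CertF 536870912 536870912 1073741824 536870912 67108864 67108864 false true false .dn 1 1 2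
    ndF0q1 ndF4q2 pcF1 cut_pm_112 Ext.none :=
  certFK0 (fam := false) (s1 := true) (s2 := false) (a := 1) (b := 1) (c := 2) (cn := .dn) (n1 := ndF0q1) (n2 := ndF4q2) (pc := pcF1) (cut := cut_pm_112) (xt := Ext.none) (P1 := 536870912) (W1 := 536870912) (P2 := 1073741824) (W2 := 536870912) (P3 := 67108864) (W3 := 67108864)
    rfl rfl rfl k0_pm_112

noncomputable def cut_pm_113 : Cut := Cut.of [[⟨3, 0, 0, 1449551462⟩], [⟨0, 1, 0, 21338704⟩, ⟨1, 1, 0, 21338704⟩, ⟨2, 2, 0, 1685920⟩]]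

noncomputable def f_pm_113 : ℕ → ℕ → ℕ → ℕ → Bool := onCell 536870912 536870912 0 1230186008 67108864 67108864
    (rowFK 2 false true false .nn 1 1 3 (qsf 536870912 536870912 0 1230186008 1) ndF0q1 ndF4q3 pcF1 cut_pm_113 Ext.none)

def k0_pm_113 : ∃ t, chk3 f_pm_113 t 1 1 1 = true :=
  ⟨(b (a (l 2) (a (l 2) (b (a (l 2) (b (l 6) (l 846209434503))) (b (a (l 1915656477575) (l 16836152)) (a (a (l 17107832) (l 16998208)) (a (l 16922320) (l 17137376))))))) (b (a (a (l 2) (b (l 2) (a (l 2) (l 1195177448535)))) (a (b (a (l 2) (b (l 17268408) (l 17201624))) (a (b (l 17458368) (l 17171640)) (b (l 17151520) (l 17846104)))) (a (b (b (l 16976280) (l 17292960)) (l 18106272)) (a (b (l 17513576) (l 18423736)) (l 18171392))))) (a (a (b (l 2) (b (a (l 2) (a (b (l 2) (b (a (l 2) (l 18219096)) (l 18361776))) (b (a (b (l 2) (l 18034728)) (l 18034576)) (l 18385096)))) (a (b (a (l 2) (a (b (l 2) (l 18403592)) (l 18400160))) (l 18499616)) (l 18559696)))) (b (a (b (l 17942208)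 (b (a (l 2) (a (l 677633515719) (l 17532760))) (a (b (a (l 2) (l 17494672)) (l 177270488311)) (l 17844192)))) (b (b (l 17556040) (a (a (l 17648568) (l 17299152)) (l 17340312))) (a (b (b (a (l 17427992) (l 17121432)) (l 17842112)) (l 17978832)) (l 18050192)))) (a (b (a (l 18172464) (l 18464864)) (l 18702040)) (l 18718056)))) (b (a (a (b (a (b (l 17296224) (l 17634128)) (l 17801696)) (l 18276512)) (l 18345240)) (l 18896432)) (l 4))))), by decide +kernel⟩

theorem c_pm_113 : CertF 536870912 536870912 0 1230186008 67108864 67108864 false true false .nn 1 1 3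
    ndF0q1 ndF4q3 pcF1 cut_pm_113 Ext.none :=
  certFK2 (fam := false) (s1 := true) (s2 := false) (a := 1) (b := 1) (c := 3) (cn := .nn) (n1 := ndF0q1) (n2 := ndF4q3) (pc := pcF1) (cut := cut_pm_113) (xt := Ext.none) (P1 := 536870912) (W1 := 536870912) (P2 := 0) (W2 := 1230186008) (P3 := 67108864) (W3 := 67108864)
    rfl rfl rfl (fun _ => rfl) k0_pm_113

noncomputable def cut_pm_123 : Cut := Cut.of [[⟨3, 0, 0, 1449551462⟩], [⟨0, 1, 0, 21338704⟩, ⟨1, 1, 0, 21338704⟩, ⟨2, 2, 0, 1685920⟩]]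

noncomputable def f_pm_123 : ℕ → ℕ → ℕ → ℕ → Bool := onCell 1073741824 536870912 0 1230186008 67108864 67108864
    (rowFK 2 false true false .npn 1 2 3 (qsf 536870912 536870912 0 1230186008 2) ndF0q1 ndF4q3 pcF2 cut_pm_123 Ext.none)

def k0_pm_123 : ∃ t, chk3 f_pm_123 t 1 1 1 = true :=
  ⟨(b (b (a (a (a (a (b (l 6) (l 16874856)) (b (a (l 6) (l 16834544)) (l 16895432))) (b (l 16885304) (l 16953200))) (a (l 17109896) (l 17090640))) (a (l 17256616) (l 17501784))) (a (a (a (a (l 17289144) (l 17523392)) (l 17442904)) (b (l 17453352) (l 17862784))) (a (l 17569480) (l 17678088)))) (b (a (a (b (l 18145368) (l 18637744)) (b (l 18235816) (l 4))) (l 4)) (l 4))), by decide +kernel⟩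

theorem c_pm_123 : CertF 536870912 536870912 0 1230186008 67108864 67108864 false true false .npn 1 2 3
    ndF0q1 ndF4q3 pcF2 cut_pm_123 Ext.none :=
  certFK2 (fam := false) (s1 := true) (s2 := false) (a := 1) (b := 2) (c := 3) (cn := .npn) (n1 := ndF0q1) (n2 := ndF4q3) (pc := pcF2) (cut := cut_pm_123) (xt := Ext.none) (P1 := 536870912) (W1 := 536870912) (P2 := 0) (W2 := 1230186008) (P3 := 67108864) (W3 := 67108864)
    rfl rfl rfl (fun _ => rfl) k0_pm_123

noncomputable def cut_pm_133 : Cut := Cut.of [[⟨3, 0, 0, 1449551462⟩]]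

noncomputable def f_pm_133 : ℕ → ℕ → ℕ → ℕ → Bool := onCell 536870912 536870912 0 1230186008 67108864 67108864
    (rowFK 0 false true false .dn 1 3 3 (qsf 536870912 536870912 0 1230186008 3) ndF0q1 ndF4q3 pcF3 cut_pm_133 Ext.none)

def k0_pm_133 : ∃ t, chk3 f_pm_133 t 1 1 1 = true :=
  ⟨(b (b (a (a (a (l 17144816) (l 1)) (l 1)) (l 1)) (l 1)) (l 1)), by decide +kernel⟩

theorem c_pm_133 : CertF 536870912 536870912 0 1230186008 67108864 67108864 false true false .dn 1 3 3
    ndF0q1 ndF4q3 pcF3 cut_pm_133 Ext.none :=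
  certFK0 (fam := false) (s1 := true) (s2 := false) (a := 1) (b := 3) (c := 3) (cn := .dn) (n1 := ndF0q1) (n2 := ndF4q3) (pc := pcF3) (cut := cut_pm_133) (xt := Ext.none) (P1 := 536870912) (W1 := 536870912) (P2 := 0) (W2 := 1230186008) (P3 := 67108864) (W3 := 67108864)
    rfl rfl rfl k0_pm_133

noncomputable def cut_pm_202 : Cut := Cut.of [[⟨3, 0, 0, 1449551462⟩]]

noncomputable def f_pm_202 : ℕ → ℕ → ℕ → ℕ → Bool := onCell 0 536870912 1073741824 536870912 67108864 67108864
    (rowFK 0 false true false .pp 2 0 2 (qsf 0 536870912 1073741824 536870912 0) ndF0q2 ndF4q2 pcF0 cut_pm_202 Ext.none)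

def k0_pm_202 : ∃ t, chk3 f_pm_202 t 1 1 1 = true :=
  ⟨(a (b (b (b (l 1) (l 19371744)) (a (b (l 19178184) (l 18918864)) (l 19102120))) (b (b (a (a (l 18447560) (l 18579456)) (l 18661600)) (a (a (l 17876832) (l 18132168)) (l 18157704))) (b (a (a (l 17708576) (l 17639952)) (l 17855304)) (a (b (l 17659992) (a (l 17112168) (l 17496416))) (l 17759600))))) (b (b (b (l 192240801463) (l 20080488)) (a (l 19167496) (l 19302240))) (b (a (l 18609120) (b (l 18938616) (l 18701184))) (a (b (l 18140768) (b (l 17752224) (l 17671464))) (b (l 18230816) (a (l 17791592) (l 18179784))))))), by decide +kernel⟩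

theorem c_pm_202 : CertF 0 536870912 1073741824 536870912 67108864 67108864 false true false .pp 2 0 2
    ndF0q2 ndF4q2 pcF0 cut_pm_202 Ext.none :=
  certFK0 (fam := false) (s1 := true) (s2 := false) (a := 2) (b := 0) (c := 2) (cn := .pp) (n1 := ndF0q2) (n2 := ndF4q2) (pc := pcF0) (cut := cut_pm_202) (xt := Ext.none) (P1 := 0) (W1 := 536870912) (P2 := 1073741824) (W2 := 536870912) (P3 := 67108864) (W3 := 67108864)
    rfl rfl rfl k0_pm_202

noncomputable def cut_pm_203 : Cut := Cut.of [[⟨3, 0, 0, 1449551462⟩]]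

noncomputable def f_pm_203 : ℕ → ℕ → ℕ → ℕ → Bool := onCell 0 536870912 0 1230186008 67108864 67108864
    (rowFK 0 false true false .up 2 0 3 (qsf 0 536870912 0 1230186008 0) ndF0q2 ndF4q3 pcF0 cut_pm_203 Ext.none)

def k0_pm_203 : ∃ t, chk3 f_pm_203 t 1 1 1 = true :=
  ⟨(b (l 2) (b (l 2) (b (a (a (l 385037919047) (b (l 2) (a (l 17076048) (l 17088400)))) (l 2)) (a (b (a (a (l 16997336) (l 17034808)) (a (l 17041168) (l 17217144))) (a (b (a (l 17060752) (l 17061712)) (a (l 17078152) (l 17195808))) (b (l 17490216) (l 17538944)))) (a (b (a (l 17608784) (b (l 2) (l 17889624))) (a (l 17736248) (b (l 17719624) (l 17364104)))) (b (a (b (l 2) (l 167606810999)) (l 2)) (b (a (l 17290040) (a (l 17370648) (l 2))) (a (l 17329968) (l 17692056))))))))), by decide +kernel⟩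

theorem c_pm_203 : CertF 0 536870912 0 1230186008 67108864 67108864 false true false .up 2 0 3
    ndF0q2 ndF4q3 pcF0 cut_pm_203 Ext.none :=
  certFK0 (fam := false) (s1 := true) (s2 := false) (a := 2) (b := 0) (c := 3) (cn := .up) (n1 := ndF0q2) (n2 := ndF4q3) (pc := pcF0) (cut := cut_pm_203) (xt := Ext.none) (P1 := 0) (W1 := 536870912) (P2 := 0) (W2 := 1230186008) (P3 := 67108864) (W3 := 67108864)
    rfl rfl rfl k0_pm_203

noncomputable def cut_pm_213 : Cut := Cut.of [[⟨3, 0, 0, 1449551462⟩], [⟨0, 1, 0, 21338704⟩, ⟨1, 1, 0, 21338704⟩, ⟨2, 2, 0, 1685920⟩]]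

noncomputable def f_pm_213 : ℕ → ℕ → ℕ → ℕ → Bool := onCell 0 536870912 0 1230186008 67108864 67108864
    (rowFK 0 false true false .pnn 2 1 3 (qsf 0 536870912 0 1230186008 1) ndF0q2 ndF4q3 pcF1 cut_pm_213 Ext.none)

def k0_pm_213 : ∃ t, chk3 f_pm_213 t 1 1 1 = true :=
  ⟨(b (a (l 6) (b (a (l 6) (l 6)) (a (b (l 6) (a (l 6) (l 16991720))) (b (a (l 17079104) (l 16897080)) (a (l 17055440) (l 17062768)))))) (b (a (b (l 6) (a (l 6) (b (a (l 6) (l 17184432)) (l 17294720)))) (b (a (a (l 17117400) (l 17229664)) (a (l 17302648) (l 17265328))) (a (b (l 17396888) (l 17563888)) (a (l 17576736) (l 17490944))))) (b (a (a (b (l 6) (a (l 6) (l 17292560))) (b (l 17413264) (l 17791680))) (a (b (l 17711888) (l 17934048)) (b (l 17730784) (a (b (l 17933992) (a (l 18068264) (l 18020864))) (b (a (l 17879872) (b (l 17763784) (l 17767584))) (a (l 17842872) (l 17461224))))))) (a (b (a (l 1) (l 17759304)) (l 1)) (a (b (a (l 18090576) (b (a (l 18137656) (l 18176760)) (l 18038912)))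 (l 1)) (b (a (b (a (l 18075464) (l 17817784)) (a (l 17558336) (l 17385168))) (b (a (l 17255488) (l 17800528)) (a (l 17991216) (l 18248088)))) (a (b (l 17916520) (l 1)) (b (a (l 18328560) (l 18384376)) (l 18426536))))))))), by decide +kernel⟩

theorem c_pm_213 : CertF 0 536870912 0 1230186008 67108864 67108864 false true false .pnn 2 1 3
    ndF0q2 ndF4q3 pcF1 cut_pm_213 Ext.none :=
  certFK0 (fam := false) (s1 := true) (s2 := false) (a := 2) (b := 1) (c := 3) (cn := .pnn) (n1 := ndF0q2) (n2 := ndF4q3) (pc := pcF1) (cut := cut_pm_213) (xt := Ext.none) (P1 := 0) (W1 := 536870912) (P2 := 0) (W2 := 1230186008) (P3 := 67108864) (W3 := 67108864)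
    rfl rfl rfl k0_pm_213

noncomputable def cut_mm_001 : Cut := Cut.of [[⟨3, 0, 0, 1449551462⟩]]

noncomputable def f_mm_001 : ℕ → ℕ → ℕ → ℕ → Bool := onCell 0 536870912 536870912 536870912 67108864 67108864
    (rowFK 0 false false false .up 0 0 1 (qsf 0 536870912 536870912 536870912 0) ndF0q0 ndF4q1 pcF0 cut_mm_001 Ext.none)

def k0_mm_001 : ∃ t, chk3 f_mm_001 t 1 1 1 = true :=
  ⟨(l 6), by decide +kernel⟩

theorem c_mm_001 : CertF 0 536870912 536870912 536870912 67108864 67108864 false false false .up 0 0 1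
    ndF0q0 ndF4q1 pcF0 cut_mm_001 Ext.none :=
  certFK0 (fam := false) (s1 := false) (s2 := false) (a := 0) (b := 0) (c := 1) (cn := .up) (n1 := ndF0q0) (n2 := ndF4q1) (pc := pcF0) (cut := cut_mm_001) (xt := Ext.none) (P1 := 0) (W1 := 536870912) (P2 := 536870912) (W2 := 536870912) (P3 := 67108864) (W3 := 67108864)
    rfl rfl rfl k0_mm_001

noncomputable def cut_mm_011 : Cut := Cut.of [[⟨3, 0, 0, 1449551462⟩]]

noncomputable def f_mm_011 : ℕ → ℕ → ℕ → ℕ → Bool := onCell 0 536870912 536870912 536870912 67108864 67108864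
    (rowFK 0 false false false .pnn 0 1 1 (qsf 0 536870912 536870912 536870912 1) ndF0q0 ndF4q1 pcF1 cut_mm_011 Ext.none)

def k0_mm_011 : ∃ t, chk3 f_mm_011 t 1 1 1 = true :=
  ⟨(l 6), by decide +kernel⟩

theorem c_mm_011 : CertF 0 536870912 536870912 536870912 67108864 67108864 false false false .pnn 0 1 1
    ndF0q0 ndF4q1 pcF1 cut_mm_011 Ext.none :=
  certFK0 (fam := false) (s1 := false) (s2 := false) (a := 0) (b := 1) (c := 1) (cn := .pnn) (n1 := ndF0q0) (n2 := ndF4q1) (pc := pcF1) (cut := cut_mm_011) (xt := Ext.none) (P1 := 0) (W1 := 536870912) (P2 := 536870912) (W2 := 536870912) (P3 := 67108864) (W3 := 67108864)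
    rfl rfl rfl k0_mm_011

noncomputable def cut_mm_012 : Cut := Cut.of [[⟨3, 0, 0, 1449551462⟩]]

noncomputable def f_mm_012 : ℕ → ℕ → ℕ → ℕ → Bool := onCell 0 536870912 1073741824 536870912 67108864 67108864
    (rowFK 0 false false false .pnp 0 1 2 (qsf 0 536870912 1073741824 536870912 1) ndF0q0 ndF4q2 pcF1 cut_mm_012 Ext.none)

def k0_mm_012 : ∃ t, chk3 f_mm_012 t 1 1 1 = true :=
  ⟨(l 5), by decide +kernel⟩

theorem c_mm_012 : CertF 0 536870912 1073741824 536870912 67108864 67108864 false false false .pnp 0 1 2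
    ndF0q0 ndF4q2 pcF1 cut_mm_012 Ext.none :=
  certFK0 (fam := false) (s1 := false) (s2 := false) (a := 0) (b := 1) (c := 2) (cn := .pnp) (n1 := ndF0q0) (n2 := ndF4q2) (pc := pcF1) (cut := cut_mm_012) (xt := Ext.none) (P1 := 0) (W1 := 536870912) (P2 := 1073741824) (W2 := 536870912) (P3 := 67108864) (W3 := 67108864)
    rfl rfl rfl k0_mm_012

noncomputable def cut_mm_022 : Cut := Cut.of [[⟨3, 0, 0, 1449551462⟩]]

noncomputable def f_mm_022 : ℕ → ℕ → ℕ → ℕ → Bool := onCell 0 536870912 1073741824 536870912 67108864 67108864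
    (rowFK 0 false false false .pp 0 2 2 (qsf 0 536870912 1073741824 536870912 2) ndF0q0 ndF4q2 pcF2 cut_mm_022 Ext.none)

def k0_mm_022 : ∃ t, chk3 f_mm_022 t 1 1 1 = true :=
  ⟨(l 5), by decide +kernel⟩

theorem c_mm_022 : CertF 0 536870912 1073741824 536870912 67108864 67108864 false false false .pp 0 2 2
    ndF0q0 ndF4q2 pcF2 cut_mm_022 Ext.none :=
  certFK0 (fam := false) (s1 := false) (s2 := false) (a := 0) (b := 2) (c := 2) (cn := .pp) (n1 := ndF0q0) (n2 := ndF4q2) (pc := pcF2) (cut := cut_mm_022) (xt := Ext.none) (P1 := 0) (W1 := 536870912) (P2 := 1073741824) (W2 := 536870912) (P3 := 67108864) (W3 := 67108864)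
    rfl rfl rfl k0_mm_022

noncomputable def cut_mm_023 : Cut := Cut.of [[⟨3, 0, 0, 1449551462⟩]]

noncomputable def f_mm_023 : ℕ → ℕ → ℕ → ℕ → Bool := onCell 0 536870912 0 1230186008 67108864 67108864
    (rowFK 0 false false false .up 0 2 3 (qsf 0 536870912 0 1230186008 2) ndF0q0 ndF4q3 pcF2 cut_mm_023 Ext.none)

def k0_mm_023 : ∃ t, chk3 f_mm_023 t 1 1 1 = true :=
  ⟨(l 5), by decide +kernel⟩

theorem c_mm_023 : CertF 0 536870912 0 1230186008 67108864 67108864 false false false .up 0 2 3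
    ndF0q0 ndF4q3 pcF2 cut_mm_023 Ext.none :=
  certFK0 (fam := false) (s1 := false) (s2 := false) (a := 0) (b := 2) (c := 3) (cn := .up) (n1 := ndF0q0) (n2 := ndF4q3) (pc := pcF2) (cut := cut_mm_023) (xt := Ext.none) (P1 := 0) (W1 := 536870912) (P2 := 0) (W2 := 1230186008) (P3 := 67108864) (W3 := 67108864)
    rfl rfl rfl k0_mm_023

noncomputable def cut_mm_033 : Cut := Cut.of [[⟨3, 0, 0, 1449551462⟩]]

noncomputable def f_mm_033 : ℕ → ℕ → ℕ → ℕ → Bool := onCell 0 536870912 0 1230186008 67108864 67108864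
    (rowFK 0 false false false .pnn 0 3 3 (qsf 0 536870912 0 1230186008 3) ndF0q0 ndF4q3 pcF3 cut_mm_033 Ext.none)

def k0_mm_033 : ∃ t, chk3 f_mm_033 t 1 1 1 = true :=
  ⟨(l 5), by decide +kernel⟩

theorem c_mm_033 : CertF 0 536870912 0 1230186008 67108864 67108864 false false false .pnn 0 3 3
    ndF0q0 ndF4q3 pcF3 cut_mm_033 Ext.none :=
  certFK0 (fam := false) (s1 := false) (s2 := false) (a := 0) (b := 3) (c := 3) (cn := .pnn) (n1 := ndF0q0) (n2 := ndF4q3) (pc := pcF3) (cut := cut_mm_033) (xt := Ext.none) (P1 := 0) (W1 := 536870912) (P2 := 0) (W2 := 1230186008) (P3 := 67108864) (W3 := 67108864)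
    rfl rfl rfl k0_mm_033

noncomputable def cut_mm_101 : Cut := Cut.of [[⟨3, 0, 0, 1449551462⟩], [⟨0, 1, 0, 67108864⟩, ⟨1, 0, 0, 67108864⟩, ⟨2, 1, 0, 67108864⟩]]

noncomputable def f_mm_101 : ℕ → ℕ → ℕ → ℕ → Bool := onCell 536870912 536870912 0 536870912 67108864 67108864
    (rowFK 1 false false false .npn 1 0 1 (qsf 536870912 536870912 536870912 536870912 0) ndF0q1 ndF4q1 pcF0 cut_mm_101 Ext.none)

def k0_mm_101 : ∃ t, chk3 f_mm_101 t 1 1 1 = true :=
  ⟨(l 6), by decide +kernel⟩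

theorem c_mm_101 : CertF 536870912 536870912 536870912 536870912 67108864 67108864 false false false .npn 1 0 1
    ndF0q1 ndF4q1 pcF0 cut_mm_101 Ext.none :=
  certFK1 (fam := false) (s1 := false) (s2 := false) (a := 1) (b := 0) (c := 1) (cn := .npn) (n1 := ndF0q1) (n2 := ndF4q1) (pc := pcF0) (cut := cut_mm_101) (xt := Ext.none) (P1 := 536870912) (W1 := 536870912) (P2 := 536870912) (W2 := 536870912) (P3 := 67108864) (W3 := 67108864)
    rfl rfl rfl (fun _ => rfl) k0_mm_101

noncomputable def cut_mm_102 : Cut := Cut.of [[⟨3, 0, 0, 1449551462⟩], [⟨0, 1, 0, 67108864⟩, ⟨1, 0, 0, 67108864⟩, ⟨2, 1, 0, 67108864⟩]]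

noncomputable def f_mm_102 : ℕ → ℕ → ℕ → ℕ → Bool := onCell 536870912 536870912 1073741824 536870912 67108864 67108864
    (rowFK 0 false false false .npp 1 0 2 (qsf 536870912 536870912 1073741824 536870912 0) ndF0q1 ndF4q2 pcF0 cut_mm_102 Ext.none)

def k0_mm_102 : ∃ t, chk3 f_mm_102 t 1 1 1 = true :=
  ⟨(l 6), by decide +kernel⟩

theorem c_mm_102 : CertF 536870912 536870912 1073741824 536870912 67108864 67108864 false false false .npp 1 0 2
    ndF0q1 ndF4q2 pcF0 cut_mm_102 Ext.none :=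
  certFK0 (fam := false) (s1 := false) (s2 := false) (a := 1) (b := 0) (c := 2) (cn := .npp) (n1 := ndF0q1) (n2 := ndF4q2) (pc := pcF0) (cut := cut_mm_102) (xt := Ext.none) (P1 := 536870912) (W1 := 536870912) (P2 := 1073741824) (W2 := 536870912) (P3 := 67108864) (W3 := 67108864)
    rfl rfl rfl k0_mm_102

noncomputable def cut_mm_112 : Cut := Cut.of [[⟨3, 0, 0, 1449551462⟩]]

noncomputable def f_mm_112 : ℕ → ℕ → ℕ → ℕ → Bool := onCell 536870912 536870912 1073741824 536870912 67108864 67108864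
    (rowFK 0 false false false .dn 1 1 2 (qsf 536870912 536870912 1073741824 536870912 1) ndF0q1 ndF4q2 pcF1 cut_mm_112 Ext.none)

def k0_mm_112 : ∃ t, chk3 f_mm_112 t 1 1 1 = true :=
  ⟨(l 6), by decide +kernel⟩

theorem c_mm_112 : CertF 536870912 536870912 1073741824 536870912 67108864 67108864 false false false .dn 1 1 2
    ndF0q1 ndF4q2 pcF1 cut_mm_112 Ext.none :=
  certFK0 (fam := false) (s1 := false) (s2 := false) (a := 1) (b := 1) (c := 2) (cn := .dn) (n1 := ndF0q1) (n2 := ndF4q2) (pc := pcF1) (cut := cut_mm_112) (xt := Ext.none) (P1 := 536870912) (W1 := 536870912) (P2 := 1073741824) (W2 := 536870912) (P3 := 67108864) (W3 := 67108864)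
    rfl rfl rfl k0_mm_112

noncomputable def cut_mm_113 : Cut := Cut.of [[⟨3, 0, 0, 1449551462⟩]]

noncomputable def f_mm_113 : ℕ → ℕ → ℕ → ℕ → Bool := onCell 536870912 536870912 0 1230186008 67108864 67108864
    (rowFK 0 false false false .nn 1 1 3 (qsf 536870912 536870912 0 1230186008 1) ndF0q1 ndF4q3 pcF1 cut_mm_113 Ext.none)

def k0_mm_113 : ∃ t, chk3 f_mm_113 t 1 1 1 = true :=
  ⟨(b (l 5) (a (l 5) (l 6))), by decide +kernel⟩

theorem c_mm_113 : CertF 536870912 536870912 0 1230186008 67108864 67108864 false false false .nn 1 1 3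
    ndF0q1 ndF4q3 pcF1 cut_mm_113 Ext.none :=
  certFK0 (fam := false) (s1 := false) (s2 := false) (a := 1) (b := 1) (c := 3) (cn := .nn) (n1 := ndF0q1) (n2 := ndF4q3) (pc := pcF1) (cut := cut_mm_113) (xt := Ext.none) (P1 := 536870912) (W1 := 536870912) (P2 := 0) (W2 := 1230186008) (P3 := 67108864) (W3 := 67108864)
    rfl rfl rfl k0_mm_113

noncomputable def cut_mm_123 : Cut := Cut.of [[⟨3, 0, 0, 1449551462⟩]]

noncomputable def f_mm_123 : ℕ → ℕ → ℕ → ℕ → Bool := onCell 1073741824 536870912 0 1230186008 67108864 67108864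
    (rowFK 2 false false false .npn 1 2 3 (qsf 536870912 536870912 0 1230186008 2) ndF0q1 ndF4q3 pcF2 cut_mm_123 Ext.none)

def k0_mm_123 : ∃ t, chk3 f_mm_123 t 1 1 1 = true :=
  ⟨(b (l 5) (l 5)), by decide +kernel⟩

theorem c_mm_123 : CertF 536870912 536870912 0 1230186008 67108864 67108864 false false false .npn 1 2 3
    ndF0q1 ndF4q3 pcF2 cut_mm_123 Ext.none :=
  certFK2 (fam := false) (s1 := false) (s2 := false) (a := 1) (b := 2) (c := 3) (cn := .npn) (n1 := ndF0q1) (n2 := ndF4q3) (pc := pcF2) (cut := cut_mm_123) (xt := Ext.none) (P1 := 536870912) (W1 := 536870912) (P2 := 0) (W2 := 1230186008) (P3 := 67108864) (W3 := 67108864)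
    rfl rfl rfl (fun _ => rfl) k0_mm_123

noncomputable def cut_mm_133 : Cut := Cut.of [[⟨3, 0, 0, 1449551462⟩]]

noncomputable def f_mm_133 : ℕ → ℕ → ℕ → ℕ → Bool := onCell 1610612736 536870912 0 1230186008 67108864 67108864
    (rowFK 2 false false false .dn 1 3 3 (qsf 536870912 536870912 0 1230186008 3) ndF0q1 ndF4q3 pcF3 cut_mm_133 Ext.none)

def k0_mm_133 : ∃ t, chk3 f_mm_133 t 1 1 1 = true :=
  ⟨(l 5), by decide +kernel⟩

theorem c_mm_133 : CertF 536870912 536870912 0 1230186008 67108864 67108864 false false false .dn 1 3 3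
    ndF0q1 ndF4q3 pcF3 cut_mm_133 Ext.none :=
  certFK2 (fam := false) (s1 := false) (s2 := false) (a := 1) (b := 3) (c := 3) (cn := .dn) (n1 := ndF0q1) (n2 := ndF4q3) (pc := pcF3) (cut := cut_mm_133) (xt := Ext.none) (P1 := 536870912) (W1 := 536870912) (P2 := 0) (W2 := 1230186008) (P3 := 67108864) (W3 := 67108864)
    rfl rfl rfl (fun _ => rfl) k0_mm_133

noncomputable def cut_mm_202 : Cut := Cut.of [[⟨3, 0, 0, 1449551462⟩], [⟨0, 1, 0, 25165824⟩, ⟨1, 0, 0, 25165824⟩, ⟨2, 1, 0, 25165824⟩]]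

noncomputable def f_mm_202 : ℕ → ℕ → ℕ → ℕ → Bool := onCell 0 536870912 0 536870912 67108864 67108864
    (rowFK 1 false false false .pp 2 0 2 (qsf 0 536870912 1073741824 536870912 0) ndF0q2 ndF4q2 pcF0 cut_mm_202 Ext.none)

def k0_mm_202 : ∃ t, chk3 f_mm_202 t 1 1 1 = true :=
  ⟨(b (b (a (b (a (b (l 19081440) (l 18833056)) (b (l 18533576) (l 18098960))) (a (b (l 18498336) (l 18108776)) (b (l 17782784) (a (l 17624872) (l 17434848))))) (b (a (a (b (l 17940760) (l 17548664)) (l 6)) (l 6)) (l 6))) (a (b (a (b (l 17810824) (l 17681088)) (b (a (l 17495144) (a (l 17358816) (l 6))) (a (a (l 17328368) (l 17302568)) (l 6)))) (a (b (l 17664336) (a (l 17522096) (l 17211000))) (a (b (a (l 17258088) (l 6)) (l 6)) (l 6)))) (l 6))) (a (a (b (b (b (a (l 17200952) (l 17151832)) (a (l 17133856) (l 17100664))) (b (a (l 17096784) (l 6)) (l 17013928))) (l 2)) (l 6)) (l 6))), by decide +kernel⟩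

theorem c_mm_202 : CertF 0 536870912 1073741824 536870912 67108864 67108864 false false false .pp 2 0 2
    ndF0q2 ndF4q2 pcF0 cut_mm_202 Ext.none :=
  certFK1 (fam := false) (s1 := false) (s2 := false) (a := 2) (b := 0) (c := 2) (cn := .pp) (n1 := ndF0q2) (n2 := ndF4q2) (pc := pcF0) (cut := cut_mm_202) (xt := Ext.none) (P1 := 0) (W1 := 536870912) (P2 := 1073741824) (W2 := 536870912) (P3 := 67108864) (W3 := 67108864)
    rfl rfl rfl (fun _ => rfl) k0_mm_202

noncomputable def cut_mm_203 : Cut := Cut.of [[⟨3, 0, 0, 1449551462⟩]]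

noncomputable def f_mm_203 : ℕ → ℕ → ℕ → ℕ → Bool := onCell 0 536870912 0 1230186008 67108864 67108864
    (rowFK 0 false false false .up 2 0 3 (qsf 0 536870912 0 1230186008 0) ndF0q2 ndF4q3 pcF0 cut_mm_203 Ext.none)

def k0_mm_203 : ∃ t, chk3 f_mm_203 t 1 1 1 = true :=
  ⟨(b (l 2) (b (l 2) (a (b (l 6) (a (b (l 6) (a (l 17018320) (l 6))) (l 6))) (l 3)))), by decide +kernel⟩

theorem c_mm_203 : CertF 0 536870912 0 1230186008 67108864 67108864 false false false .up 2 0 3
    ndF0q2 ndF4q3 pcF0 cut_mm_203 Ext.none :=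
  certFK0 (fam := false) (s1 := false) (s2 := false) (a := 2) (b := 0) (c := 3) (cn := .up) (n1 := ndF0q2) (n2 := ndF4q3) (pc := pcF0) (cut := cut_mm_203) (xt := Ext.none) (P1 := 0) (W1 := 536870912) (P2 := 0) (W2 := 1230186008) (P3 := 67108864) (W3 := 67108864)
    rfl rfl rfl k0_mm_203

noncomputable def cut_mm_213 : Cut := Cut.of [[⟨3, 0, 0, 1449551462⟩]]

noncomputable def f_mm_213 : ℕ → ℕ → ℕ → ℕ → Bool := onCell 0 536870912 0 1230186008 67108864 67108864
    (rowFK 0 false false false .pnn 2 1 3 (qsf 0 536870912 0 1230186008 1) ndF0q2 ndF4q3 pcF1 cut_mm_213 Ext.none)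

def k0_mm_213 : ∃ t, chk3 f_mm_213 t 1 1 1 = true :=
  ⟨(b (l 6) (b (l 6) (a (b (l 6) (a (l 1) (l 6))) (l 3)))), by decide +kernel⟩

theorem c_mm_213 : CertF 0 536870912 0 1230186008 67108864 67108864 false false false .pnn 2 1 3
    ndF0q2 ndF4q3 pcF1 cut_mm_213 Ext.none :=
  certFK0 (fam := false) (s1 := false) (s2 := false) (a := 2) (b := 1) (c := 3) (cn := .pnn) (n1 := ndF0q2) (n2 := ndF4q3) (pc := pcF1) (cut := cut_mm_213) (xt := Ext.none) (P1 := 0) (W1 := 536870912) (P2 := 0) (W2 := 1230186008) (P3 := 67108864) (W3 := 67108864)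
    rfl rfl rfl k0_mm_213

end Pool.Agent.Strip051.G.I1_16_1_8.Tab.C.FB04

namespace Pool.Agent.Strip051.G.I1_16_1_8.Tab.C.FB10

open Pool.Agent.Strip051.PB Pool.Agent.Strip051.PB.T
open Pool.Agent.Strip051.G.I1_16_1_8.Tab

noncomputable def f_pp_001 : ℕ → ℕ → ℕ → ℕ → Bool := onCell 0 536870912 0 536870912 67108864 67108864
    (rowFK 1 false true true .up 0 0 1 (qsf 0 536870912 536870912 536870912 0) ndF1q0 ndF0q1 pcF0 Cut.none Ext.none)

def k0_pp_001 : ∃ t, chk3 f_pp_001 t 1 1 1 = true :=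
  ⟨(l 3), by decide +kernel⟩

theorem c_pp_001 : CertF 0 536870912 536870912 536870912 67108864 67108864 false true true .up 0 0 1
    ndF1q0 ndF0q1 pcF0 Cut.none Ext.none :=
  certFK1 (fam := false) (s1 := true) (s2 := true) (a := 0) (b := 0) (c := 1) (cn := .up) (n1 := ndF1q0) (n2 := ndF0q1) (pc := pcF0) (cut := Cut.none) (xt := Ext.none) (P1 := 0) (W1 := 536870912) (P2 := 536870912) (W2 := 536870912) (P3 := 67108864) (W3 := 67108864)
    rfl rfl rfl (fun _ => rfl) k0_pp_001

noncomputable def cut_pp_011 : Cut := Cut.of [[⟨0, 0, 0, 67108864⟩, ⟨1, 1, 0, 67108864⟩, ⟨2, 1, 0, 67108864⟩]]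

noncomputable def f_pp_011 : ℕ → ℕ → ℕ → ℕ → Bool := onCell 0 536870912 536870912 536870912 67108864 67108864
    (rowFK 0 false true true .pnn 0 1 1 (qsf 0 536870912 536870912 536870912 1) ndF1q0 ndF0q1 pcF1 cut_pp_011 Ext.none)

def k0_pp_011 : ∃ t, chk3 f_pp_011 t 1 1 1 = true :=
  ⟨(a (b (l 3) (b (l 3) (a (b (l 3) (a (a (a (b (l 3) (l 6)) (l 3)) (l 3)) (l 3))) (l 3)))) (l 3)), by decide +kernel⟩

theorem c_pp_011 : CertF 0 536870912 536870912 536870912 67108864 67108864 false true true .pnn 0 1 1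
    ndF1q0 ndF0q1 pcF1 cut_pp_011 Ext.none :=
  certFK0 (fam := false) (s1 := true) (s2 := true) (a := 0) (b := 1) (c := 1) (cn := .pnn) (n1 := ndF1q0) (n2 := ndF0q1) (pc := pcF1) (cut := cut_pp_011) (xt := Ext.none) (P1 := 0) (W1 := 536870912) (P2 := 536870912) (W2 := 536870912) (P3 := 67108864) (W3 := 67108864)
    rfl rfl rfl k0_pp_011

noncomputable def cut_pp_012 : Cut := Cut.of [[⟨0, 0, 0, 67108864⟩, ⟨1, 1, 0, 67108864⟩, ⟨2, 1, 0, 67108864⟩]]

noncomputable def f_pp_012 : ℕ → ℕ → ℕ → ℕ → Bool := onCell 536870912 536870912 0 536870912 67108864 67108864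
    (rowFK 2 false true true .pnp 0 1 2 (qsf 0 536870912 0 536870912 1) ndF1q0 ndF0q2 pcF1 cut_pp_012 Ext.none)

def k0_pp_012 : ∃ t, chk3 f_pp_012 t 1 1 1 = true :=
  ⟨(a (b (a (b (l 2) (l 17164104)) (b (l 17179320) (l 16995568))) (a (b (b (l 17125976) (l 137071219383)) (l 3)) (b (b (l 16995872) (l 17286192)) (b (a (l 148345344263) (l 17216360)) (l 3))))) (a (b (b (l 17014496) (l 16882912)) (b (a (l 16966592) (l 16927608)) (b (a (l 17127104) (l 17039744)) (a (l 3) (l 150492268647))))) (b (a (l 17168680) (b (a (l 17685592) (l 17807376)) (l 17367024))) (b (a (b (l 17041624) (l 16917976)) (b (l 17252104) (a (l 17025120) (l 16862144)))) (b (a (l 17003968) (a (l 16886904) (b (l 16831368) (a (l 16846320) (l 16816320))))) (a (a (l 138144230119) (l 138144138231)) (b (a (l 16883528) (a (l 16844056) (l 6))) (a (l 139217683399) (l 6))))))))), by decide +kernel⟩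

theorem c_pp_012 : CertF 0 536870912 0 536870912 67108864 67108864 false true true .pnp 0 1 2
    ndF1q0 ndF0q2 pcF1 cut_pp_012 Ext.none :=
  certFK2 (fam := false) (s1 := true) (s2 := true) (a := 0) (b := 1) (c := 2) (cn := .pnp) (n1 := ndF1q0) (n2 := ndF0q2) (pc := pcF1) (cut := cut_pp_012) (xt := Ext.none) (P1 := 0) (W1 := 536870912) (P2 := 0) (W2 := 536870912) (P3 := 67108864) (W3 := 67108864)
    rfl rfl rfl (fun _ => rfl) k0_pp_012

noncomputable def cut_pp_022 : Cut := Cut.of [[⟨0, 0, 0, 67108864⟩, ⟨1, 1, 0, 67108864⟩, ⟨2, 1, 0, 67108864⟩]]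

noncomputable def f_pp_022 : ℕ → ℕ → ℕ → ℕ → Bool := onCell 0 536870912 0 536870912 67108864 67108864
    (rowFK 0 false true true .pp 0 2 2 (qsf 0 536870912 0 536870912 2) ndF1q0 ndF0q2 pcF2 cut_pp_022 Ext.none)

def k0_pp_022 : ∃ t, chk3 f_pp_022 t 1 1 1 = true :=
  ⟨(a (b (b (a (a (a (c (l 18418016) (b (l 17606480) (a (l 17456200) (l 17630000)))) (l 17959896)) (l 17902616)) (l 18189656)) (a (a (a (a (c (b (l 18336160) (l 18128576)) (b (b (b (l 17531168) (l 17462328)) (l 17367936)) (a (b (l 17313704) (l 17100560)) (l 17208080)))) (b (l 17860576) (l 17592848))) (b (l 17755816) (l 17488816))) (a (b (l 17668088) (a (l 17423312) (l 17402688))) (b (l 17653912) (l 17421152)))) (a (l 300146758855) (l 1)))) (a (b (a (b (a (b (a (c (l 17866416) (l 16774456)) (l 17270496)) (a (a (c (l 17437272) (l 16727112)) (l 17005464)) (l 16956944))) (a (l 17064296) (l 17029384))) (a (a (b (a (a (l 16720992) (l 16713504)) (l 16703304)) (a (b (l 16710368) (a (l 16721224) (l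 16703888))) (l 16720760))) (b (l 16727368) (a (l 16707840) (l 16710328)))) (a (b (l 16734040) (b (l 16731496) (l 16681200))) (b (l 16891496) (l 16727512))))) (b (a (a (b (l 17145328) (l 16901912)) (l 17048544)) (l 17142024)) (a (l 16876384) (l 16961064)))) (a (a (b (b (b (a (a (b (l 16728216) (l 16728840)) (l 16718024)) (a (l 16701976) (l 16710592))) (b (a (a (l 16730104) (l 16715752)) (l 16812824)) (l 6))) (l 6)) (l 6)) (a (b (b (l 16724360) (l 6)) (l 6)) (b (b (l 16783608) (l 114387295447)) (l 1)))) (b (a (b (l 16874016) (l 1)) (l 1)) (l 1)))) (b (l 1) (l 1)))) (l 1)), by decide +kernel⟩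

theorem c_pp_022 : CertF 0 536870912 0 536870912 67108864 67108864 false true true .pp 0 2 2
    ndF1q0 ndF0q2 pcF2 cut_pp_022 Ext.none :=
  certFK0 (fam := false) (s1 := true) (s2 := true) (a := 0) (b := 2) (c := 2) (cn := .pp) (n1 := ndF1q0) (n2 := ndF0q2) (pc := pcF2) (cut := cut_pp_022) (xt := Ext.none) (P1 := 0) (W1 := 536870912) (P2 := 0) (W2 := 536870912) (P3 := 67108864) (W3 := 67108864)
    rfl rfl rfl k0_pp_022

noncomputable def f_pp_101 : ℕ → ℕ → ℕ → ℕ → Bool := onCell 536870912 536870912 536870912 536870912 67108864 67108864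
    (rowFK 0 false true true .npn 1 0 1 (qsf 536870912 536870912 536870912 536870912 0) ndF1q1 ndF0q1 pcF0 Cut.none Ext.none)

def k0_pp_101 : ∃ t, chk3 f_pp_101 t 1 1 1 = true :=
  ⟨(l 3), by decide +kernel⟩

theorem c_pp_101 : CertF 536870912 536870912 536870912 536870912 67108864 67108864 false true true .npn 1 0 1
    ndF1q1 ndF0q1 pcF0 Cut.none Ext.none :=
  certFK0 (fam := false) (s1 := true) (s2 := true) (a := 1) (b := 0) (c := 1) (cn := .npn) (n1 := ndF1q1) (n2 := ndF0q1) (pc := pcF0) (cut := Cut.none) (xt := Ext.none) (P1 := 536870912) (W1 := 536870912) (P2 := 536870912) (W2 := 536870912) (P3 := 67108864) (W3 := 67108864)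
    rfl rfl rfl k0_pp_101

noncomputable def f_pp_102 : ℕ → ℕ → ℕ → ℕ → Bool := onCell 0 536870912 0 536870912 67108864 67108864
    (rowFK 2 false true true .npp 1 0 2 (qsf 536870912 536870912 0 536870912 0) ndF1q1 ndF0q2 pcF0 Cut.none Ext.none)

def k0_pp_102 : ∃ t, chk3 f_pp_102 t 1 1 1 = true :=
  ⟨(a (b (b (a (l 2) (a (b (a (l 17714896) (l 17867192)) (a (b (l 17635936) (l 164988770039)) (l 17826280))) (b (l 17694120) (l 17728200)))) (a (l 3) (b (a (a (l 3) (l 272363308855)) (a (l 154251725191) (l 17708776))) (l 3)))) (l 3)) (b (a (b (b (l 17243904) (l 17350672)) (a (l 151567473415) (l 17460200))) (b (l 17248048) (l 17608488))) (a (l 3) (b (b (l 168210130775) (l 3)) (l 3))))), by decide +kernel⟩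

theorem c_pp_102 : CertF 536870912 536870912 0 536870912 67108864 67108864 false true true .npp 1 0 2
    ndF1q1 ndF0q2 pcF0 Cut.none Ext.none :=
  certFK2 (fam := false) (s1 := true) (s2 := true) (a := 1) (b := 0) (c := 2) (cn := .npp) (n1 := ndF1q1) (n2 := ndF0q2) (pc := pcF0) (cut := Cut.none) (xt := Ext.none) (P1 := 536870912) (W1 := 536870912) (P2 := 0) (W2 := 536870912) (P3 := 67108864) (W3 := 67108864)
    rfl rfl rfl (fun _ => rfl) k0_pp_102

noncomputable def f_pp_112 : ℕ → ℕ → ℕ → ℕ → Bool := onCell 536870912 536870912 0 536870912 67108864 67108864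
    (rowFK 0 false true true .dn 1 1 2 (qsf 536870912 536870912 0 536870912 1) ndF1q1 ndF0q2 pcF1 Cut.none Ext.none)

def k0_pp_112 : ∃ t, chk3 f_pp_112 t 1 1 1 = true :=
  ⟨(a (b (a (b (l 17888992) (l 17704984)) (b (l 17820712) (a (l 17687216) (l 1)))) (b (a (b (l 17756632) (b (l 157473097959) (l 3))) (l 1)) (l 3))) (l 1)), by decide +kernel⟩

theorem c_pp_112 : CertF 536870912 536870912 0 536870912 67108864 67108864 false true true .dn 1 1 2
    ndF1q1 ndF0q2 pcF1 Cut.none Ext.none :=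
  certFK0 (fam := false) (s1 := true) (s2 := true) (a := 1) (b := 1) (c := 2) (cn := .dn) (n1 := ndF1q1) (n2 := ndF0q2) (pc := pcF1) (cut := Cut.none) (xt := Ext.none) (P1 := 536870912) (W1 := 536870912) (P2 := 0) (W2 := 536870912) (P3 := 67108864) (W3 := 67108864)
    rfl rfl rfl k0_pp_112

noncomputable def f_pp_202_a : ℕ → ℕ → ℕ → ℕ → Bool := onCell 0 536870912 0 536870912 67108864 67108864
    (rowFK 0 false true true .pp 2 0 2 (qsf 0 536870912 0 536870912 0) ndF1q2a ndF0q2 pcF0 Cut.none Ext.none)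

def k0_pp_202_a : ∃ t, chk3 f_pp_202_a t 1 1 1 = true :=
  ⟨(l 3), by decide +kernel⟩

theorem c_pp_202_a : CertF 0 536870912 0 536870912 67108864 67108864 false true true .pp 2 0 2
    ndF1q2a ndF0q2 pcF0 Cut.none Ext.none :=
  certFK0 (fam := false) (s1 := true) (s2 := true) (a := 2) (b := 0) (c := 2) (cn := .pp) (n1 := ndF1q2a) (n2 := ndF0q2) (pc := pcF0) (cut := Cut.none) (xt := Ext.none) (P1 := 0) (W1 := 536870912) (P2 := 0) (W2 := 536870912) (P3 := 67108864) (W3 := 67108864)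
    rfl rfl rfl k0_pp_202_a

noncomputable def f_pp_202_b : ℕ → ℕ → ℕ → ℕ → Bool := onCell 1239849684 370763052 0 536870912 67108864 67108864
    (rowFK 0 false true true .pp 2 0 2 (qsf 1239849684 370763052 0 536870912 0) ndF1q2b ndF0q2 pcF0 Cut.none Ext.none)

def k0_pp_202_b : ∃ t, chk3 f_pp_202_b t 1 1 1 = true :=
  ⟨(l 3), by decide +kernel⟩

theorem c_pp_202_b : CertF 1239849684 370763052 0 536870912 67108864 67108864 false true true .pp 2 0 2
    ndF1q2b ndF0q2 pcF0 Cut.none Ext.none :=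
  certFK0 (fam := false) (s1 := true) (s2 := true) (a := 2) (b := 0) (c := 2) (cn := .pp) (n1 := ndF1q2b) (n2 := ndF0q2) (pc := pcF0) (cut := Cut.none) (xt := Ext.none) (P1 := 1239849684) (W1 := 370763052) (P2 := 0) (W2 := 536870912) (P3 := 67108864) (W3 := 67108864)
    rfl rfl rfl k0_pp_202_b

noncomputable def f_pm_001 : ℕ → ℕ → ℕ → ℕ → Bool := onCell 0 536870912 0 536870912 67108864 67108864
    (rowFK 1 false true false .up 0 0 1 (qsf 0 536870912 536870912 536870912 0) ndF1q0 ndF0q1 pcF0 Cut.none Ext.none)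

def k0_pm_001 : ∃ t, chk3 f_pm_001 t 1 1 1 = true :=
  ⟨(a (l 4) (b (l 4) (b (l 4) (l 4)))), by decide +kernel⟩

theorem c_pm_001 : CertF 0 536870912 536870912 536870912 67108864 67108864 false true false .up 0 0 1
    ndF1q0 ndF0q1 pcF0 Cut.none Ext.none :=
  certFK1 (fam := false) (s1 := true) (s2 := false) (a := 0) (b := 0) (c := 1) (cn := .up) (n1 := ndF1q0) (n2 := ndF0q1) (pc := pcF0) (cut := Cut.none) (xt := Ext.none) (P1 := 0) (W1 := 536870912) (P2 := 536870912) (W2 := 536870912) (P3 := 67108864) (W3 := 67108864)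
    rfl rfl rfl (fun _ => rfl) k0_pm_001

noncomputable def cut_pm_011 : Cut := Cut.of [[⟨0, 0, 0, 67108864⟩, ⟨1, 1, 0, 67108864⟩, ⟨2, 1, 0, 67108864⟩]]

noncomputable def f_pm_011 : ℕ → ℕ → ℕ → ℕ → Bool := onCell 0 536870912 536870912 536870912 67108864 67108864
    (rowFK 0 false true false .pnn 0 1 1 (qsf 0 536870912 536870912 536870912 1) ndF1q0 ndF0q1 pcF1 cut_pm_011 Ext.none)

def k0_pm_011 : ∃ t, chk3 f_pm_011 t 1 1 1 = true :=
  ⟨(b (l 4) (a (b (l 4) (a (b (l 4) (a (b (l 4) (a (b (l 4) (l 6)) (l 4))) (l 4))) (l 4))) (l 4))), by decide +kernel⟩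

theorem c_pm_011 : CertF 0 536870912 536870912 536870912 67108864 67108864 false true false .pnn 0 1 1
    ndF1q0 ndF0q1 pcF1 cut_pm_011 Ext.none :=
  certFK0 (fam := false) (s1 := true) (s2 := false) (a := 0) (b := 1) (c := 1) (cn := .pnn) (n1 := ndF1q0) (n2 := ndF0q1) (pc := pcF1) (cut := cut_pm_011) (xt := Ext.none) (P1 := 0) (W1 := 536870912) (P2 := 536870912) (W2 := 536870912) (P3 := 67108864) (W3 := 67108864)
    rfl rfl rfl k0_pm_011

noncomputable def cut_pm_012 : Cut := Cut.of [[⟨0, 0, 0, 67108864⟩, ⟨1, 1, 0, 67108864⟩, ⟨2, 1, 0, 67108864⟩]]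

noncomputable def f_pm_012 : ℕ → ℕ → ℕ → ℕ → Bool := onCell 536870912 536870912 0 536870912 67108864 67108864
    (rowFK 2 false true false .pnp 0 1 2 (qsf 0 536870912 0 536870912 1) ndF1q0 ndF0q2 pcF1 cut_pm_012 Ext.none)

def k0_pm_012 : ∃ t, chk3 f_pm_012 t 1 1 1 = true :=
  ⟨(a (b (b (a (l 2) (l 17286088)) (b (a (l 2) (l 17325584)) (a (a (l 2) (b (l 2) (l 17624456))) (a (b (l 17500672) (l 17483360)) (l 17249752))))) (a (b (a (l 2) (b (b (l 17111216) (l 17780512)) (l 18270416))) (l 18308872)) (b (b (a (b (l 17385424) (l 17598904)) (a (b (l 17301728) (l 17498096)) (b (l 17370576) (l 17526800)))) (a (b (l 18211912) (l 18387792)) (b (l 18060696) (l 18339912)))) (l 18273720)))) (b (a (a (l 17287760) (l 17651208)) (a (b (l 17737624) (l 18112576)) (a (b (l 17945712) (l 18166128)) (b (l 18020928) (l 18065376))))) (a (a (b (a (b (l 17760712) (b (l 17924368) (l 18304456))) (b (l 17790120) (l 18040544))) (b (a (l 18282928) (l 18123864)) (l 17989720))) (b (b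 (l 18095040) (a (a (l 18089928) (l 18159128)) (l 18229648))) (b (a (b (l 18217640) (l 18100312)) (l 18053072)) (l 17703824)))) (a (b (a (l 18213672) (l 18119824)) (b (a (l 17877936) (b (l 17738760) (l 17400056))) (a (l 74860839703) (b (l 16936304) (l 4))))) (a (b (b (l 18074696) (a (l 17817080) (l 17584328))) (b (a (l 17135008) (l 16982072)) (b (a (b (l 16825880) (l 16822472)) (a (l 16793056) (l 16786888))) (b (l 16799280) (l 4))))) (b (b (l 17690400) (a (l 17196640) (l 16672072))) (b (a (l 16729648) (b (l 16696792) (l 16717552))) (b (a (l 16833784) (l 6)) (l 6))))))))), by decide +kernel⟩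

theorem c_pm_012 : CertF 0 536870912 0 536870912 67108864 67108864 false true false .pnp 0 1 2
    ndF1q0 ndF0q2 pcF1 cut_pm_012 Ext.none :=
  certFK2 (fam := false) (s1 := true) (s2 := false) (a := 0) (b := 1) (c := 2) (cn := .pnp) (n1 := ndF1q0) (n2 := ndF0q2) (pc := pcF1) (cut := cut_pm_012) (xt := Ext.none) (P1 := 0) (W1 := 536870912) (P2 := 0) (W2 := 536870912) (P3 := 67108864) (W3 := 67108864)
    rfl rfl rfl (fun _ => rfl) k0_pm_012

noncomputable def cut_pm_022 : Cut := Cut.of [[⟨0, 0, 0, 67108864⟩, ⟨1, 1, 0, 67108864⟩, ⟨2, 1, 0, 67108864⟩]]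

noncomputable def f_pm_022 : ℕ → ℕ → ℕ → ℕ → Bool := onCell 0 536870912 0 536870912 67108864 67108864
    (rowFK 0 false true false .pp 0 2 2 (qsf 0 536870912 0 536870912 2) ndF1q0 ndF0q2 pcF2 cut_pm_022 Ext.none)

def k0_pm_022 : ∃ t, chk3 f_pm_022 t 1 1 1 = true :=
  ⟨(a (b (a (a (b (a (b (l 17959624) (a (l 17943568) (l 18033688))) (l 18017192)) (a (a (b (c (l 18357552) (l 17338448)) (c (l 18155208) (b (l 17294312) (l 17086008)))) (b (l 17901848) (l 17642776))) (b (l 17884592) (l 17632856)))) (b (l 18035376) (b (l 17964984) (l 17756576)))) (b (l 18402872) (a (l 220690841831) (l 1)))) (a (b (a (a (a (b (b (c (l 17855176) (l 16802288)) (b (c (l 17666784) (l 16691168)) (l 16834912))) (a (b (b (l 16734568) (l 16735680)) (b (l 16737232) (l 16739248))) (b (l 16679848) (l 16682960)))) (b (l 17143544) (b (l 16627584) (l 16651648)))) (b (l 17125272) (b (l 16597360) (l 16639304)))) (b (a (l 17206160) (l 17386480)) (a (l 16729840) (l 16792776)))) (a (a (b (b (a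 (a (a (b (l 16729312) (l 16732368)) (l 16713808)) (l 16688096)) (l 16677840)) (l 6)) (l 6)) (b (b (l 16747528) (a (l 6) (l 16751640))) (a (l 6) (l 1)))) (b (a (b (l 16764176) (l 1)) (l 1)) (l 1)))) (b (l 1) (l 1)))) (l 1)), by decide +kernel⟩

theorem c_pm_022 : CertF 0 536870912 0 536870912 67108864 67108864 false true false .pp 0 2 2
    ndF1q0 ndF0q2 pcF2 cut_pm_022 Ext.none :=
  certFK0 (fam := false) (s1 := true) (s2 := false) (a := 0) (b := 2) (c := 2) (cn := .pp) (n1 := ndF1q0) (n2 := ndF0q2) (pc := pcF2) (cut := cut_pm_022) (xt := Ext.none) (P1 := 0) (W1 := 536870912) (P2 := 0) (W2 := 536870912) (P3 := 67108864) (W3 := 67108864)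
    rfl rfl rfl k0_pm_022

noncomputable def f_pm_101 : ℕ → ℕ → ℕ → ℕ → Bool := onCell 0 536870912 536870912 536870912 67108864 67108864
    (rowFK 2 false true false .npn 1 0 1 (qsf 536870912 536870912 536870912 536870912 0) ndF1q1 ndF0q1 pcF0 Cut.none Ext.none)

def k0_pm_101 : ∃ t, chk3 f_pm_101 t 1 1 1 = true :=
  ⟨(b (l 4) (b (l 4) (b (a (a (l 18069904) (l 4)) (l 4)) (a (a (l 18544136) (l 17923480)) (a (l 17625552) (l 4)))))), by decide +kernel⟩

theorem c_pm_101 : CertF 536870912 536870912 536870912 536870912 67108864 67108864 false true false .npn 1 0 1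
    ndF1q1 ndF0q1 pcF0 Cut.none Ext.none :=
  certFK2 (fam := false) (s1 := true) (s2 := false) (a := 1) (b := 0) (c := 1) (cn := .npn) (n1 := ndF1q1) (n2 := ndF0q1) (pc := pcF0) (cut := Cut.none) (xt := Ext.none) (P1 := 536870912) (W1 := 536870912) (P2 := 536870912) (W2 := 536870912) (P3 := 67108864) (W3 := 67108864)
    rfl rfl rfl (fun _ => rfl) k0_pm_101

noncomputable def f_pm_102 : ℕ → ℕ → ℕ → ℕ → Bool := onCell 0 536870912 0 536870912 67108864 67108864
    (rowFK 2 false true false .npp 1 0 2 (qsf 536870912 536870912 0 536870912 0) ndF1q1 ndF0q2 pcF0 Cut.none Ext.none)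

def k0_pm_102 : ∃ t, chk3 f_pm_102 t 1 1 1 = true :=
  ⟨(a (b (a (b (l 2) (a (l 2) (l 781788444311))) (a (b (b (l 288402016151) (l 17935112)) (l 18064648)) (b (b (l 17633160) (l 17603648)) (l 17653664)))) (a (b (a (l 2) (l 18892728)) (l 18946848)) (b (a (l 18313112) (l 17857360)) (l 18120512)))) (b (a (b (b (l 17156624) (l 17215304)) (a (l 17343600) (l 17196984))) (b (b (l 17028920) (l 17101472)) (a (l 17344192) (b (l 17499512) (l 17421528))))) (b (a (a (l 17477344) (l 17195216)) (b (a (l 17072272) (l 17322592)) (l 17227480))) (a (l 17640120) (a (l 17511528) (l 17515520)))))), by decide +kernel⟩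

theorem c_pm_102 : CertF 536870912 536870912 0 536870912 67108864 67108864 false true false .npp 1 0 2
    ndF1q1 ndF0q2 pcF0 Cut.none Ext.none :=
  certFK2 (fam := false) (s1 := true) (s2 := false) (a := 1) (b := 0) (c := 2) (cn := .npp) (n1 := ndF1q1) (n2 := ndF0q2) (pc := pcF0) (cut := Cut.none) (xt := Ext.none) (P1 := 536870912) (W1 := 536870912) (P2 := 0) (W2 := 536870912) (P3 := 67108864) (W3 := 67108864)
    rfl rfl rfl (fun _ => rfl) k0_pm_102

noncomputable def f_pm_112 : ℕ → ℕ → ℕ → ℕ → Bool := onCell 536870912 536870912 0 536870912 67108864 67108864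
    (rowFK 0 false true false .dn 1 1 2 (qsf 536870912 536870912 0 536870912 1) ndF1q1 ndF0q2 pcF1 Cut.none Ext.none)

def k0_pm_112 : ∃ t, chk3 f_pm_112 t 1 1 1 = true :=
  ⟨(a (b (a (b (l 18085240) (b (l 18298824) (a (b (l 18330688) (l 18217120)) (b (l 18388272) (l 17977200))))) (b (l 18156136) (a (b (l 18331312) (b (l 18204584) (l 17529968))) (l 1)))) (b (a (a (b (b (l 17580376) (l 17591016)) (l 17918200)) (b (b (l 17247400) (l 17693544)) (l 17894448))) (l 1)) (a (l 17853856) (l 1)))) (l 1)), by decide +kernel⟩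

theorem c_pm_112 : CertF 536870912 536870912 0 536870912 67108864 67108864 false true false .dn 1 1 2
    ndF1q1 ndF0q2 pcF1 Cut.none Ext.none :=
  certFK0 (fam := false) (s1 := true) (s2 := false) (a := 1) (b := 1) (c := 2) (cn := .dn) (n1 := ndF1q1) (n2 := ndF0q2) (pc := pcF1) (cut := Cut.none) (xt := Ext.none) (P1 := 536870912) (W1 := 536870912) (P2 := 0) (W2 := 536870912) (P3 := 67108864) (W3 := 67108864)
    rfl rfl rfl k0_pm_112

noncomputable def cut_pm_202_a : Cut := Cut.of [[⟨0, 1, 0, 67108864⟩, ⟨1, 0, 0, 67108864⟩, ⟨2, 1, 0, 67108864⟩]]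

noncomputable def f_pm_202_a : ℕ → ℕ → ℕ → ℕ → Bool := onCell 0 536870912 0 536870912 67108864 67108864
    (rowFK 0 false true false .pp 2 0 2 (qsf 0 536870912 0 536870912 0) ndF1q2a ndF0q2 pcF0 cut_pm_202_a Ext.none)

def k0_pm_202_a : ∃ t, chk3 f_pm_202_a t 1 1 1 = true :=
  ⟨(b (l 3) (b (l 3) (a (l 1) (a (l 3) (a (l 3) (b (l 3) (l 6))))))), by decide +kernel⟩

theorem c_pm_202_a : CertF 0 536870912 0 536870912 67108864 67108864 false true false .pp 2 0 2
    ndF1q2a ndF0q2 pcF0 cut_pm_202_a Ext.none :=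
  certFK0 (fam := false) (s1 := true) (s2 := false) (a := 2) (b := 0) (c := 2) (cn := .pp) (n1 := ndF1q2a) (n2 := ndF0q2) (pc := pcF0) (cut := cut_pm_202_a) (xt := Ext.none) (P1 := 0) (W1 := 536870912) (P2 := 0) (W2 := 536870912) (P3 := 67108864) (W3 := 67108864)
    rfl rfl rfl k0_pm_202_a

noncomputable def cut_pm_202_b : Cut := Cut.of [[⟨0, 1, 0, 67108864⟩, ⟨1, 0, 0, 67108864⟩, ⟨2, 1, 0, 67108864⟩]]

noncomputable def f_pm_202_b : ℕ → ℕ → ℕ → ℕ → Bool := onCell 1239849684 370763052 0 536870912 67108864 67108864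
    (rowFK 0 false true false .pp 2 0 2 (qsf 1239849684 370763052 0 536870912 0) ndF1q2b ndF0q2 pcF0 cut_pm_202_b Ext.none)

def k0_pm_202_b : ∃ t, chk3 f_pm_202_b t 1 1 1 = true :=
  ⟨(l 3), by decide +kernel⟩

theorem c_pm_202_b : CertF 1239849684 370763052 0 536870912 67108864 67108864 false true false .pp 2 0 2
    ndF1q2b ndF0q2 pcF0 cut_pm_202_b Ext.none :=
  certFK0 (fam := false) (s1 := true) (s2 := false) (a := 2) (b := 0) (c := 2) (cn := .pp) (n1 := ndF1q2b) (n2 := ndF0q2) (pc := pcF0) (cut := cut_pm_202_b) (xt := Ext.none) (P1 := 1239849684) (W1 := 370763052) (P2 := 0) (W2 := 536870912) (P3 := 67108864) (W3 := 67108864)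
    rfl rfl rfl k0_pm_202_b

noncomputable def f_mm_001 : ℕ → ℕ → ℕ → ℕ → Bool := onCell 0 536870912 536870912 536870912 67108864 67108864
    (rowFK 0 false false false .up 0 0 1 (qsf 0 536870912 536870912 536870912 0) ndF1q0 ndF0q1 pcF0 Cut.none Ext.none)

def k0_mm_001 : ∃ t, chk3 f_mm_001 t 1 1 1 = true :=
  ⟨(l 5), by decide +kernel⟩

theorem c_mm_001 : CertF 0 536870912 536870912 536870912 67108864 67108864 false false false .up 0 0 1
    ndF1q0 ndF0q1 pcF0 Cut.none Ext.none :=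
  certFK0 (fam := false) (s1 := false) (s2 := false) (a := 0) (b := 0) (c := 1) (cn := .up) (n1 := ndF1q0) (n2 := ndF0q1) (pc := pcF0) (cut := Cut.none) (xt := Ext.none) (P1 := 0) (W1 := 536870912) (P2 := 536870912) (W2 := 536870912) (P3 := 67108864) (W3 := 67108864)
    rfl rfl rfl k0_mm_001

noncomputable def f_mm_011 : ℕ → ℕ → ℕ → ℕ → Bool := onCell 0 536870912 536870912 536870912 67108864 67108864
    (rowFK 0 false false false .pnn 0 1 1 (qsf 0 536870912 536870912 536870912 1) ndF1q0 ndF0q1 pcF1 Cut.none Ext.none)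

def k0_mm_011 : ∃ t, chk3 f_mm_011 t 1 1 1 = true :=
  ⟨(l 5), by decide +kernel⟩

theorem c_mm_011 : CertF 0 536870912 536870912 536870912 67108864 67108864 false false false .pnn 0 1 1
    ndF1q0 ndF0q1 pcF1 Cut.none Ext.none :=
  certFK0 (fam := false) (s1 := false) (s2 := false) (a := 0) (b := 1) (c := 1) (cn := .pnn) (n1 := ndF1q0) (n2 := ndF0q1) (pc := pcF1) (cut := Cut.none) (xt := Ext.none) (P1 := 0) (W1 := 536870912) (P2 := 536870912) (W2 := 536870912) (P3 := 67108864) (W3 := 67108864)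
    rfl rfl rfl k0_mm_011

noncomputable def f_mm_012 : ℕ → ℕ → ℕ → ℕ → Bool := onCell 0 536870912 0 536870912 67108864 67108864
    (rowFK 0 false false false .pnp 0 1 2 (qsf 0 536870912 0 536870912 1) ndF1q0 ndF0q2 pcF1 Cut.none Ext.none)

def k0_mm_012 : ∃ t, chk3 f_mm_012 t 1 1 1 = true :=
  ⟨(l 5), by decide +kernel⟩

theorem c_mm_012 : CertF 0 536870912 0 536870912 67108864 67108864 false false false .pnp 0 1 2
    ndF1q0 ndF0q2 pcF1 Cut.none Ext.none :=
  certFK0 (fam := false) (s1 := false) (s2 := false) (a := 0) (b := 1) (c := 2) (cn := .pnp) (n1 := ndF1q0) (n2 := ndF0q2) (pc := pcF1) (cut := Cut.none) (xt := Ext.none) (P1 := 0) (W1 := 536870912) (P2 := 0) (W2 := 536870912) (P3 := 67108864) (W3 := 67108864)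
    rfl rfl rfl k0_mm_012

noncomputable def f_mm_022 : ℕ → ℕ → ℕ → ℕ → Bool := onCell 0 536870912 0 536870912 67108864 67108864
    (rowFK 0 false false false .pp 0 2 2 (qsf 0 536870912 0 536870912 2) ndF1q0 ndF0q2 pcF2 Cut.none Ext.none)

def k0_mm_022 : ∃ t, chk3 f_mm_022 t 1 1 1 = true :=
  ⟨(l 5), by decide +kernel⟩

theorem c_mm_022 : CertF 0 536870912 0 536870912 67108864 67108864 false false false .pp 0 2 2
    ndF1q0 ndF0q2 pcF2 Cut.none Ext.none :=
  certFK0 (fam := false) (s1 := false) (s2 := false) (a := 0) (b := 2) (c := 2) (cn := .pp) (n1 := ndF1q0) (n2 := ndF0q2) (pc := pcF2) (cut := Cut.none) (xt := Ext.none) (P1 := 0) (W1 := 536870912) (P2 := 0) (W2 := 536870912) (P3 := 67108864) (W3 := 67108864)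
    rfl rfl rfl k0_mm_022

noncomputable def f_mm_101 : ℕ → ℕ → ℕ → ℕ → Bool := onCell 536870912 536870912 536870912 536870912 67108864 67108864
    (rowFK 0 false false false .npn 1 0 1 (qsf 536870912 536870912 536870912 536870912 0) ndF1q1 ndF0q1 pcF0 Cut.none Ext.none)

def k0_mm_101 : ∃ t, chk3 f_mm_101 t 1 1 1 = true :=
  ⟨(l 3), by decide +kernel⟩

theorem c_mm_101 : CertF 536870912 536870912 536870912 536870912 67108864 67108864 false false false .npn 1 0 1
    ndF1q1 ndF0q1 pcF0 Cut.none Ext.none :=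
  certFK0 (fam := false) (s1 := false) (s2 := false) (a := 1) (b := 0) (c := 1) (cn := .npn) (n1 := ndF1q1) (n2 := ndF0q1) (pc := pcF0) (cut := Cut.none) (xt := Ext.none) (P1 := 536870912) (W1 := 536870912) (P2 := 536870912) (W2 := 536870912) (P3 := 67108864) (W3 := 67108864)
    rfl rfl rfl k0_mm_101

noncomputable def f_mm_102 : ℕ → ℕ → ℕ → ℕ → Bool := onCell 536870912 536870912 0 536870912 67108864 67108864
    (rowFK 0 false false false .npp 1 0 2 (qsf 536870912 536870912 0 536870912 0) ndF1q1 ndF0q2 pcF0 Cut.none Ext.none)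

def k0_mm_102 : ∃ t, chk3 f_mm_102 t 1 1 1 = true :=
  ⟨(l 5), by decide +kernel⟩

theorem c_mm_102 : CertF 536870912 536870912 0 536870912 67108864 67108864 false false false .npp 1 0 2
    ndF1q1 ndF0q2 pcF0 Cut.none Ext.none :=
  certFK0 (fam := false) (s1 := false) (s2 := false) (a := 1) (b := 0) (c := 2) (cn := .npp) (n1 := ndF1q1) (n2 := ndF0q2) (pc := pcF0) (cut := Cut.none) (xt := Ext.none) (P1 := 536870912) (W1 := 536870912) (P2 := 0) (W2 := 536870912) (P3 := 67108864) (W3 := 67108864)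
    rfl rfl rfl k0_mm_102

noncomputable def f_mm_112 : ℕ → ℕ → ℕ → ℕ → Bool := onCell 536870912 536870912 0 536870912 67108864 67108864
    (rowFK 0 false false false .dn 1 1 2 (qsf 536870912 536870912 0 536870912 1) ndF1q1 ndF0q2 pcF1 Cut.none Ext.none)

def k0_mm_112 : ∃ t, chk3 f_mm_112 t 1 1 1 = true :=
  ⟨(l 5), by decide +kernel⟩

theorem c_mm_112 : CertF 536870912 536870912 0 536870912 67108864 67108864 false false false .dn 1 1 2
    ndF1q1 ndF0q2 pcF1 Cut.none Ext.none :=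
  certFK0 (fam := false) (s1 := false) (s2 := false) (a := 1) (b := 1) (c := 2) (cn := .dn) (n1 := ndF1q1) (n2 := ndF0q2) (pc := pcF1) (cut := Cut.none) (xt := Ext.none) (P1 := 536870912) (W1 := 536870912) (P2 := 0) (W2 := 536870912) (P3 := 67108864) (W3 := 67108864)
    rfl rfl rfl k0_mm_112

noncomputable def f_mm_202_a : ℕ → ℕ → ℕ → ℕ → Bool := onCell 0 536870912 0 536870912 67108864 67108864
    (rowFK 0 false false false .pp 2 0 2 (qsf 0 536870912 0 536870912 0) ndF1q2a ndF0q2 pcF0 Cut.none Ext.none)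

def k0_mm_202_a : ∃ t, chk3 f_mm_202_a t 1 1 1 = true :=
  ⟨(l 3), by decide +kernel⟩

theorem c_mm_202_a : CertF 0 536870912 0 536870912 67108864 67108864 false false false .pp 2 0 2
    ndF1q2a ndF0q2 pcF0 Cut.none Ext.none :=
  certFK0 (fam := false) (s1 := false) (s2 := false) (a := 2) (b := 0) (c := 2) (cn := .pp) (n1 := ndF1q2a) (n2 := ndF0q2) (pc := pcF0) (cut := Cut.none) (xt := Ext.none) (P1 := 0) (W1 := 536870912) (P2 := 0) (W2 := 536870912) (P3 := 67108864) (W3 := 67108864)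
    rfl rfl rfl k0_mm_202_a

noncomputable def f_mm_202_b : ℕ → ℕ → ℕ → ℕ → Bool := onCell 1239849684 370763052 0 536870912 67108864 67108864
    (rowFK 0 false false false .pp 2 0 2 (qsf 1239849684 370763052 0 536870912 0) ndF1q2b ndF0q2 pcF0 Cut.none Ext.none)

def k0_mm_202_b : ∃ t, chk3 f_mm_202_b t 1 1 1 = true :=
  ⟨(l 3), by decide +kernel⟩

theorem c_mm_202_b : CertF 1239849684 370763052 0 536870912 67108864 67108864 false false false .pp 2 0 2
    ndF1q2b ndF0q2 pcF0 Cut.none Ext.none :=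
  certFK0 (fam := false) (s1 := false) (s2 := false) (a := 2) (b := 0) (c := 2) (cn := .pp) (n1 := ndF1q2b) (n2 := ndF0q2) (pc := pcF0) (cut := Cut.none) (xt := Ext.none) (P1 := 1239849684) (W1 := 370763052) (P2 := 0) (W2 := 536870912) (P3 := 67108864) (W3 := 67108864)
    rfl rfl rfl k0_mm_202_b

end Pool.Agent.Strip051.G.I1_16_1_8.Tab.C.FB10

namespace Pool.Agent.Strip051.G.I1_16_1_8.Tab.C.FB11

open Pool.Agent.Strip051.PB Pool.Agent.Strip051.PB.T
open Pool.Agent.Strip051.G.I1_16_1_8.Tab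

noncomputable def f_pp_001 : ℕ → ℕ → ℕ → ℕ → Bool := onCell 0 536870912 536870912 536870912 67108864 67108864
    (rowFK 0 false true true .up 0 0 1 (qsf 0 536870912 536870912 536870912 0) ndF1q0 ndF1q1 pcF0 Cut.none Ext.none)

def k0_pp_001 : ∃ t, chk3 f_pp_001 t 1 1 1 = true :=
  ⟨(l 3), by decide +kernel⟩

theorem c_pp_001 : CertF 0 536870912 536870912 536870912 67108864 67108864 false true true .up 0 0 1
    ndF1q0 ndF1q1 pcF0 Cut.none Ext.none :=
  certFK0 (fam := false) (s1 := true) (s2 := true) (a := 0) (b := 0) (c := 1) (cn := .up) (n1 := ndF1q0) (n2 := ndF1q1) (pc := pcF0) (cut := Cut.none) (xt := Ext.none) (P1 := 0) (W1 := 536870912) (P2 := 536870912) (W2 := 536870912) (P3 := 67108864) (W3 := 67108864)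
    rfl rfl rfl k0_pp_001

noncomputable def f_pp_011 : ℕ → ℕ → ℕ → ℕ → Bool := onCell 0 536870912 536870912 536870912 67108864 67108864
    (rowFK 0 false true true .pnn 0 1 1 (qsf 0 536870912 536870912 536870912 1) ndF1q0 ndF1q1 pcF1 Cut.none Ext.none)

def k0_pp_011 : ∃ t, chk3 f_pp_011 t 1 1 1 = true :=
  ⟨(l 3), by decide +kernel⟩

theorem c_pp_011 : CertF 0 536870912 536870912 536870912 67108864 67108864 false true true .pnn 0 1 1
    ndF1q0 ndF1q1 pcF1 Cut.none Ext.none :=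
  certFK0 (fam := false) (s1 := true) (s2 := true) (a := 0) (b := 1) (c := 1) (cn := .pnn) (n1 := ndF1q0) (n2 := ndF1q1) (pc := pcF1) (cut := Cut.none) (xt := Ext.none) (P1 := 0) (W1 := 536870912) (P2 := 536870912) (W2 := 536870912) (P3 := 67108864) (W3 := 67108864)
    rfl rfl rfl k0_pp_011

noncomputable def cut_pp_012_a : Cut := Cut.of [[⟨0, 0, 0, 67108864⟩, ⟨1, 1, 0, 67108864⟩, ⟨2, 1, 0, 67108864⟩]]

noncomputable def f_pp_012_a : ℕ → ℕ → ℕ → ℕ → Bool := onCell 536870912 536870912 0 536870912 67108864 67108864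
    (rowFK 2 false true true .pnp 0 1 2 (qsf 0 536870912 0 536870912 1) ndF1q0 ndF1q2a pcF1 cut_pp_012_a Ext.none)

def k0_pp_012_a : ∃ t, chk3 f_pp_012_a t 1 1 1 = true :=
  ⟨(a (a (b (l 147808714759) (l 3)) (b (l 17380872) (b (b (l 17258672) (l 3)) (l 3)))) (a (b (l 17218720) (b (l 17322896) (a (l 3) (l 223506749383)))) (b (a (l 17150128) (a (l 17389568) (l 17439992))) (b (a (l 17005496) (a (l 17096752) (b (l 17223504) (l 16927712)))) (a (b (l 17004896) (b (l 17002672) (l 3))) (b (a (l 16934904) (a (l 16885568) (l 16828208))) (a (b (l 16903640) (l 224043191815)) (b (a (l 16859952) (l 6)) (l 6))))))))), by decide +kernel⟩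

theorem c_pp_012_a : CertF 0 536870912 0 536870912 67108864 67108864 false true true .pnp 0 1 2
    ndF1q0 ndF1q2a pcF1 cut_pp_012_a Ext.none :=
  certFK2 (fam := false) (s1 := true) (s2 := true) (a := 0) (b := 1) (c := 2) (cn := .pnp) (n1 := ndF1q0) (n2 := ndF1q2a) (pc := pcF1) (cut := cut_pp_012_a) (xt := Ext.none) (P1 := 0) (W1 := 536870912) (P2 := 0) (W2 := 536870912) (P3 := 67108864) (W3 := 67108864)
    rfl rfl rfl (fun _ => rfl) k0_pp_012_a

noncomputable def cut_pp_012_b : Cut := Cut.of [[⟨0, 0, 0, 67108864⟩, ⟨1, 1, 0, 67108864⟩, ⟨2, 1, 0, 67108864⟩]]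

noncomputable def f_pp_012_b : ℕ → ℕ → ℕ → ℕ → Bool := onCell 536870912 536870912 1239849684 370763052 67108864 67108864
    (rowFK 2 false true true .pnp 0 1 2 (qsf 0 536870912 1239849684 370763052 1) ndF1q0 ndF1q2b pcF1 cut_pp_012_b Ext.none)

def k0_pp_012_b : ∃ t, chk3 f_pp_012_b t 1 1 1 = true :=
  ⟨(a (a (l 2) (b (l 17120024) (l 2))) (a (b (l 17254704) (l 17081200)) (b (a (l 17411328) (b (l 17744816) (l 17882320))) (l 17638648)))), by decide +kernel⟩

theorem c_pp_012_b : CertF 0 536870912 1239849684 370763052 67108864 67108864 false true true .pnp 0 1 2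
    ndF1q0 ndF1q2b pcF1 cut_pp_012_b Ext.none :=
  certFK2 (fam := false) (s1 := true) (s2 := true) (a := 0) (b := 1) (c := 2) (cn := .pnp) (n1 := ndF1q0) (n2 := ndF1q2b) (pc := pcF1) (cut := cut_pp_012_b) (xt := Ext.none) (P1 := 0) (W1 := 536870912) (P2 := 1239849684) (W2 := 370763052) (P3 := 67108864) (W3 := 67108864)
    rfl rfl rfl (fun _ => rfl) k0_pp_012_b

noncomputable def cut_pp_022_a : Cut := Cut.of [[⟨0, 0, 0, 67108864⟩, ⟨1, 1, 0, 67108864⟩, ⟨2, 1, 0, 67108864⟩]]

noncomputable def f_pp_022_a : ℕ → ℕ → ℕ → ℕ → Bool := onCell 0 536870912 0 536870912 67108864 67108864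
    (rowFK 0 false true true .pp 0 2 2 (qsf 0 536870912 0 536870912 2) ndF1q0 ndF1q2a pcF2 cut_pp_022_a Ext.none)

def k0_pp_022_a : ∃ t, chk3 f_pp_022_a t 1 1 1 = true :=
  ⟨(a (b (a (a (a (b (a (l 18058488) (l 17973608)) (a (b (l 17732752) (c (l 18090600) (a (l 17045168) (l 17117040)))) (b (l 17795880) (l 17533920)))) (b (l 17863896) (b (l 17690280) (l 17441928)))) (b (a (l 17753136) (a (l 17709976) (l 17683504))) (a (b (l 17591832) (a (l 17387272) (l 17362080))) (b (a (l 17556944) (l 17569336)) (l 17397872))))) (b (l 17872272) (a (l 17637376) (l 1)))) (b (a (a (a (b (a (a (c (b (l 17848984) (l 17370376)) (b (l 16757904) (l 16638088))) (l 16904720)) (l 16886968)) (a (a (a (b (l 16671728) (b (l 16657408) (l 16675128))) (b (l 16644480) (l 16679552))) (b (l 16657808) (l 16695656))) (b (l 16689184) (a (l 16706648) (l 16723808))))) (b (a (l 17037384) (b (l 17145488) (l 16889808))) (a (b (l 16785152) (a (l 16790040) (l 16730616))) (b (a (l 16707256) (l 16752520))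 (l 16775368))))) (a (b (a (b (l 17137000) (l 16922816)) (l 17070576)) (l 16848232)) (b (l 17178288) (l 16974344)))) (l 1)) (a (a (a (b (b (b (a (a (a (a (l 16684320) (l 16671016)) (l 16688720)) (l 16683688)) (b (l 16756288) (l 16805704))) (b (a (a (a (l 16689312) (l 16673232)) (l 16686216)) (a (l 16685424) (l 16718240))) (l 6))) (l 6)) (l 6)) (b (b (l 16827552) (a (l 6) (l 124050989463))) (a (l 6) (l 1)))) (b (a (b (l 16904656) (l 1)) (l 1)) (l 1))) (l 1)))) (l 1)), by decide +kernel⟩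

theorem c_pp_022_a : CertF 0 536870912 0 536870912 67108864 67108864 false true true .pp 0 2 2
    ndF1q0 ndF1q2a pcF2 cut_pp_022_a Ext.none :=
  certFK0 (fam := false) (s1 := true) (s2 := true) (a := 0) (b := 2) (c := 2) (cn := .pp) (n1 := ndF1q0) (n2 := ndF1q2a) (pc := pcF2) (cut := cut_pp_022_a) (xt := Ext.none) (P1 := 0) (W1 := 536870912) (P2 := 0) (W2 := 536870912) (P3 := 67108864) (W3 := 67108864)
    rfl rfl rfl k0_pp_022_a

noncomputable def cut_pp_022_b : Cut := Cut.of [[⟨0, 0, 0, 67108864⟩, ⟨1, 1, 0, 67108864⟩, ⟨2, 1, 0, 67108864⟩]]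

noncomputable def f_pp_022_b : ℕ → ℕ → ℕ → ℕ → Bool := onCell 0 536870912 1073741824 536870912 67108864 67108864
    (rowFK 1 false true true .pp 0 2 2 (qsf 0 536870912 1239849684 370763052 2) ndF1q0 ndF1q2b pcF2 cut_pp_022_b Ext.none)

def k0_pp_022_b : ∃ t, chk3 f_pp_022_b t 1 1 1 = true :=
  ⟨(a (b (b (b (a (a (l 1) (b (l 232498791063) (l 17446120))) (b (l 18046104) (l 18160176))) (a (a (b (l 324304296839) (l 397320039143)) (l 18080872)) (l 18299512))) (a (a (b (a (b (l 196530924903) (l 18399712)) (l 18370240)) (l 18659080)) (l 18532944)) (l 18448320))) (b (a (a (l 18850504) (l 18705760)) (l 18501000)) (a (l 18785400) (l 18458208)))) (b (b (b (b (l 18197536) (l 18202616)) (l 18211504)) (l 18211176)) (b (l 18158720) (l 2)))), by decide +kernel⟩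

theorem c_pp_022_b : CertF 0 536870912 1239849684 370763052 67108864 67108864 false true true .pp 0 2 2
    ndF1q0 ndF1q2b pcF2 cut_pp_022_b Ext.none :=
  certFK1 (fam := false) (s1 := true) (s2 := true) (a := 0) (b := 2) (c := 2) (cn := .pp) (n1 := ndF1q0) (n2 := ndF1q2b) (pc := pcF2) (cut := cut_pp_022_b) (xt := Ext.none) (P1 := 0) (W1 := 536870912) (P2 := 1239849684) (W2 := 370763052) (P3 := 67108864) (W3 := 67108864)
    rfl rfl rfl (fun _ => rfl) k0_pp_022_b

noncomputable def f_pp_023 : ℕ → ℕ → ℕ → ℕ → Bool := onCell 1073741824 536870912 1610612736 536870912 67108864 67108864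
    (rowFK 2 false true true .up 0 2 3 (qsf 0 536870912 1610612736 536870912 2) ndF1q0 ndF1q3 pcF2 Cut.none Ext.none)

def k0_pp_023 : ∃ t, chk3 f_pp_023 t 1 1 1 = true :=
  ⟨(a (b (b (l 18345528) (l 18150104)) (l 18053032)) (b (a (l 18236208) (l 18464312)) (a (l 17898224) (l 17900968)))), by decide +kernel⟩

theorem c_pp_023 : CertF 0 536870912 1610612736 536870912 67108864 67108864 false true true .up 0 2 3
    ndF1q0 ndF1q3 pcF2 Cut.none Ext.none :=
  certFK2 (fam := false) (s1 := true) (s2 := true) (a := 0) (b := 2) (c := 3) (cn := .up) (n1 := ndF1q0) (n2 := ndF1q3) (pc := pcF2) (cut := Cut.none) (xt := Ext.none) (P1 := 0) (W1 := 536870912) (P2 := 1610612736) (W2 := 536870912) (P3 := 67108864) (W3 := 67108864)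
    rfl rfl rfl (fun _ => rfl) k0_pp_023

noncomputable def f_pp_033 : ℕ → ℕ → ℕ → ℕ → Bool := onCell 1610612736 536870912 1610612736 536870912 67108864 67108864
    (rowFK 2 false true true .pnn 0 3 3 (qsf 0 536870912 1610612736 536870912 3) ndF1q0 ndF1q3 pcF3 Cut.none Ext.none)

def k0_pp_033 : ∃ t, chk3 f_pp_033 t 1 1 1 = true :=
  ⟨(a (b (a (b (a (l 17746832) (b (l 800510528183) (l 17918664))) (l 17928336)) (b (a (b (l 1) (l 17948776)) (l 1)) (a (l 18185112) (l 18270592)))) (a (b (l 17932016) (l 17719768)) (b (a (l 18165304) (l 18284304)) (l 4)))) (b (a (b (l 1) (a (b (l 1) (l 18461632)) (l 1))) (l 1)) (b (a (a (l 18392264) (l 18357744)) (a (b (l 1) (l 4)) (l 1))) (l 4)))), by decide +kernel⟩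

theorem c_pp_033 : CertF 0 536870912 1610612736 536870912 67108864 67108864 false true true .pnn 0 3 3
    ndF1q0 ndF1q3 pcF3 Cut.none Ext.none :=
  certFK2 (fam := false) (s1 := true) (s2 := true) (a := 0) (b := 3) (c := 3) (cn := .pnn) (n1 := ndF1q0) (n2 := ndF1q3) (pc := pcF3) (cut := Cut.none) (xt := Ext.none) (P1 := 0) (W1 := 536870912) (P2 := 1610612736) (W2 := 536870912) (P3 := 67108864) (W3 := 67108864)
    rfl rfl rfl (fun _ => rfl) k0_pp_033

noncomputable def f_pp_101 : ℕ → ℕ → ℕ → ℕ → Bool := onCell 536870912 536870912 536870912 536870912 67108864 67108864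
    (rowFK 0 false true true .npn 1 0 1 (qsf 536870912 536870912 536870912 536870912 0) ndF1q1 ndF1q1 pcF0 Cut.none Ext.none)

def k0_pp_101 : ∃ t, chk3 f_pp_101 t 1 1 1 = true :=
  ⟨(l 3), by decide +kernel⟩

theorem c_pp_101 : CertF 536870912 536870912 536870912 536870912 67108864 67108864 false true true .npn 1 0 1
    ndF1q1 ndF1q1 pcF0 Cut.none Ext.none :=
  certFK0 (fam := false) (s1 := true) (s2 := true) (a := 1) (b := 0) (c := 1) (cn := .npn) (n1 := ndF1q1) (n2 := ndF1q1) (pc := pcF0) (cut := Cut.none) (xt := Ext.none) (P1 := 536870912) (W1 := 536870912) (P2 := 536870912) (W2 := 536870912) (P3 := 67108864) (W3 := 67108864)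
    rfl rfl rfl k0_pp_101

noncomputable def f_pp_102_a : ℕ → ℕ → ℕ → ℕ → Bool := onCell 0 536870912 0 536870912 67108864 67108864
    (rowFK 2 false true true .npp 1 0 2 (qsf 536870912 536870912 0 536870912 0) ndF1q1 ndF1q2a pcF0 Cut.none Ext.none)

def k0_pp_102_a : ∃ t, chk3 f_pp_102_a t 1 1 1 = true :=
  ⟨(b (a (l 3) (a (l 3) (l 192369119575))) (l 3)), by decide +kernel⟩

theorem c_pp_102_a : CertF 536870912 536870912 0 536870912 67108864 67108864 false true true .npp 1 0 2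
    ndF1q1 ndF1q2a pcF0 Cut.none Ext.none :=
  certFK2 (fam := false) (s1 := true) (s2 := true) (a := 1) (b := 0) (c := 2) (cn := .npp) (n1 := ndF1q1) (n2 := ndF1q2a) (pc := pcF0) (cut := Cut.none) (xt := Ext.none) (P1 := 536870912) (W1 := 536870912) (P2 := 0) (W2 := 536870912) (P3 := 67108864) (W3 := 67108864)
    rfl rfl rfl (fun _ => rfl) k0_pp_102_a

noncomputable def f_pp_102_b : ℕ → ℕ → ℕ → ℕ → Bool := onCell 0 536870912 1239849684 370763052 67108864 67108864
    (rowFK 2 false true true .npp 1 0 2 (qsf 536870912 536870912 1239849684 370763052 0) ndF1q1 ndF1q2b pcF0 Cut.none Ext.none)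

def k0_pp_102_b : ∃ t, chk3 f_pp_102_b t 1 1 1 = true :=
  ⟨(a (l 3) (b (a (l 3) (a (l 3) (l 187000562359))) (a (l 3) (a (l 3) (b (l 17964696) (l 3)))))), by decide +kernel⟩

theorem c_pp_102_b : CertF 536870912 536870912 1239849684 370763052 67108864 67108864 false true true .npp 1 0 2
    ndF1q1 ndF1q2b pcF0 Cut.none Ext.none :=
  certFK2 (fam := false) (s1 := true) (s2 := true) (a := 1) (b := 0) (c := 2) (cn := .npp) (n1 := ndF1q1) (n2 := ndF1q2b) (pc := pcF0) (cut := Cut.none) (xt := Ext.none) (P1 := 536870912) (W1 := 536870912) (P2 := 1239849684) (W2 := 370763052) (P3 := 67108864) (W3 := 67108864)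
    rfl rfl rfl (fun _ => rfl) k0_pp_102_b

noncomputable def f_pp_112_a : ℕ → ℕ → ℕ → ℕ → Bool := onCell 536870912 536870912 0 536870912 67108864 67108864
    (rowFK 0 false true true .dn 1 1 2 (qsf 536870912 536870912 0 536870912 1) ndF1q1 ndF1q2a pcF1 Cut.none Ext.none)

def k0_pp_112_a : ∃ t, chk3 f_pp_112_a t 1 1 1 = true :=
  ⟨(a (b (a (a (l 17484248) (l 17684696)) (b (l 146735481559) (l 3))) (l 3)) (l 1)), by decide +kernel⟩

theorem c_pp_112_a : CertF 536870912 536870912 0 536870912 67108864 67108864 false true true .dn 1 1 2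
    ndF1q1 ndF1q2a pcF1 Cut.none Ext.none :=
  certFK0 (fam := false) (s1 := true) (s2 := true) (a := 1) (b := 1) (c := 2) (cn := .dn) (n1 := ndF1q1) (n2 := ndF1q2a) (pc := pcF1) (cut := Cut.none) (xt := Ext.none) (P1 := 536870912) (W1 := 536870912) (P2 := 0) (W2 := 536870912) (P3 := 67108864) (W3 := 67108864)
    rfl rfl rfl k0_pp_112_a

noncomputable def f_pp_112_b : ℕ → ℕ → ℕ → ℕ → Bool := onCell 536870912 536870912 1239849684 370763052 67108864 67108864
    (rowFK 2 false true true .dn 1 1 2 (qsf 536870912 536870912 1239849684 370763052 1) ndF1q1 ndF1q2b pcF1 Cut.none Ext.none)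

def k0_pp_112_b : ∃ t, chk3 f_pp_112_b t 1 1 1 = true :=
  ⟨(a (a (b (b (l 17370096) (l 17236176)) (a (l 204181228279) (l 17428048))) (b (l 17427176) (l 17107928))) (a (b (l 317325209991) (l 17147928)) (b (l 1) (l 17991200)))), by decide +kernel⟩

theorem c_pp_112_b : CertF 536870912 536870912 1239849684 370763052 67108864 67108864 false true true .dn 1 1 2
    ndF1q1 ndF1q2b pcF1 Cut.none Ext.none :=
  certFK2 (fam := false) (s1 := true) (s2 := true) (a := 1) (b := 1) (c := 2) (cn := .dn) (n1 := ndF1q1) (n2 := ndF1q2b) (pc := pcF1) (cut := Cut.none) (xt := Ext.none) (P1 := 536870912) (W1 := 536870912) (P2 := 1239849684) (W2 := 370763052) (P3 := 67108864) (W3 := 67108864)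
    rfl rfl rfl (fun _ => rfl) k0_pp_112_b

noncomputable def f_pp_113 : ℕ → ℕ → ℕ → ℕ → Bool := onCell 536870912 536870912 536870912 536870912 67108864 67108864
    (rowFK 1 false true true .nn 1 1 3 (qsf 536870912 536870912 1610612736 536870912 1) ndF1q1 ndF1q3 pcF1 Cut.none Ext.none)

def k0_pp_113 : ∃ t, chk3 f_pp_113 t 1 1 1 = true :=
  ⟨(a (b (b (l 1) (l 370476405367)) (b (l 471945747431) (a (l 18494984) (l 18104824)))) (b (b (a (l 17324856) (l 17556496)) (a (l 17207840) (l 17574800))) (b (a (l 17238824) (l 17521400)) (a (l 17469560) (b (l 17290680) (b (l 17067832) (l 16945040))))))), by decide +kernel⟩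

theorem c_pp_113 : CertF 536870912 536870912 1610612736 536870912 67108864 67108864 false true true .nn 1 1 3
    ndF1q1 ndF1q3 pcF1 Cut.none Ext.none :=
  certFK1 (fam := false) (s1 := true) (s2 := true) (a := 1) (b := 1) (c := 3) (cn := .nn) (n1 := ndF1q1) (n2 := ndF1q3) (pc := pcF1) (cut := Cut.none) (xt := Ext.none) (P1 := 536870912) (W1 := 536870912) (P2 := 1610612736) (W2 := 536870912) (P3 := 67108864) (W3 := 67108864)
    rfl rfl rfl (fun _ => rfl) k0_pp_113

noncomputable def f_pp_123 : ℕ → ℕ → ℕ → ℕ → Bool := onCell 1073741824 536870912 1610612736 536870912 67108864 67108864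
    (rowFK 2 false true true .npn 1 2 3 (qsf 536870912 536870912 1610612736 536870912 2) ndF1q1 ndF1q3 pcF2 Cut.none Ext.none)

def k0_pp_123 : ∃ t, chk3 f_pp_123 t 1 1 1 = true :=
  ⟨(a (b (a (l 18807728) (l 18696712)) (a (l 18104936) (l 18265640))) (b (a (l 18568640) (l 1)) (a (l 18459192) (l 18400664)))), by decide +kernel⟩

theorem c_pp_123 : CertF 536870912 536870912 1610612736 536870912 67108864 67108864 false true true .npn 1 2 3
    ndF1q1 ndF1q3 pcF2 Cut.none Ext.none :=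
  certFK2 (fam := false) (s1 := true) (s2 := true) (a := 1) (b := 2) (c := 3) (cn := .npn) (n1 := ndF1q1) (n2 := ndF1q3) (pc := pcF2) (cut := Cut.none) (xt := Ext.none) (P1 := 536870912) (W1 := 536870912) (P2 := 1610612736) (W2 := 536870912) (P3 := 67108864) (W3 := 67108864)
    rfl rfl rfl (fun _ => rfl) k0_pp_123

noncomputable def f_pp_133 : ℕ → ℕ → ℕ → ℕ → Bool := onCell 1610612736 536870912 1610612736 536870912 67108864 67108864
    (rowFK 2 false true true .dn 1 3 3 (qsf 536870912 536870912 1610612736 536870912 3) ndF1q1 ndF1q3 pcF3 Cut.none Ext.none)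

def k0_pp_133 : ∃ t, chk3 f_pp_133 t 1 1 1 = true :=
  ⟨(a (b (l 1) (a (b (l 1) (l 18081680)) (l 1))) (l 1)), by decide +kernel⟩

theorem c_pp_133 : CertF 536870912 536870912 1610612736 536870912 67108864 67108864 false true true .dn 1 3 3
    ndF1q1 ndF1q3 pcF3 Cut.none Ext.none :=
  certFK2 (fam := false) (s1 := true) (s2 := true) (a := 1) (b := 3) (c := 3) (cn := .dn) (n1 := ndF1q1) (n2 := ndF1q3) (pc := pcF3) (cut := Cut.none) (xt := Ext.none) (P1 := 536870912) (W1 := 536870912) (P2 := 1610612736) (W2 := 536870912) (P3 := 67108864) (W3 := 67108864)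
    rfl rfl rfl (fun _ => rfl) k0_pp_133

noncomputable def f_pp_202_aa : ℕ → ℕ → ℕ → ℕ → Bool := onCell 0 536870912 0 536870912 67108864 67108864
    (rowFK 0 false true true .pp 2 0 2 (qsf 0 536870912 0 536870912 0) ndF1q2a ndF1q2a pcF0 Cut.none Ext.none)

def k0_pp_202_aa : ∃ t, chk3 f_pp_202_aa t 1 1 1 = true :=
  ⟨(l 3), by decide +kernel⟩

theorem c_pp_202_aa : CertF 0 536870912 0 536870912 67108864 67108864 false true true .pp 2 0 2
    ndF1q2a ndF1q2a pcF0 Cut.none Ext.none :=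
  certFK0 (fam := false) (s1 := true) (s2 := true) (a := 2) (b := 0) (c := 2) (cn := .pp) (n1 := ndF1q2a) (n2 := ndF1q2a) (pc := pcF0) (cut := Cut.none) (xt := Ext.none) (P1 := 0) (W1 := 536870912) (P2 := 0) (W2 := 536870912) (P3 := 67108864) (W3 := 67108864)
    rfl rfl rfl k0_pp_202_aa

noncomputable def f_pp_202_ab : ℕ → ℕ → ℕ → ℕ → Bool := onCell 0 536870912 1239849684 370763052 67108864 67108864
    (rowFK 0 false true true .pp 2 0 2 (qsf 0 536870912 1239849684 370763052 0) ndF1q2a ndF1q2b pcF0 Cut.none Ext.none)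

def k0_pp_202_ab : ∃ t, chk3 f_pp_202_ab t 1 1 1 = true :=
  ⟨(l 3), by decide +kernel⟩

theorem c_pp_202_ab : CertF 0 536870912 1239849684 370763052 67108864 67108864 false true true .pp 2 0 2
    ndF1q2a ndF1q2b pcF0 Cut.none Ext.none :=
  certFK0 (fam := false) (s1 := true) (s2 := true) (a := 2) (b := 0) (c := 2) (cn := .pp) (n1 := ndF1q2a) (n2 := ndF1q2b) (pc := pcF0) (cut := Cut.none) (xt := Ext.none) (P1 := 0) (W1 := 536870912) (P2 := 1239849684) (W2 := 370763052) (P3 := 67108864) (W3 := 67108864)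
    rfl rfl rfl k0_pp_202_ab

noncomputable def f_pp_202_ba : ℕ → ℕ → ℕ → ℕ → Bool := onCell 1239849684 370763052 0 536870912 67108864 67108864
    (rowFK 0 false true true .pp 2 0 2 (qsf 1239849684 370763052 0 536870912 0) ndF1q2b ndF1q2a pcF0 Cut.none Ext.none)

def k0_pp_202_ba : ∃ t, chk3 f_pp_202_ba t 1 1 1 = true :=
  ⟨(l 3), by decide +kernel⟩

theorem c_pp_202_ba : CertF 1239849684 370763052 0 536870912 67108864 67108864 false true true .pp 2 0 2
    ndF1q2b ndF1q2a pcF0 Cut.none Ext.none :=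
  certFK0 (fam := false) (s1 := true) (s2 := true) (a := 2) (b := 0) (c := 2) (cn := .pp) (n1 := ndF1q2b) (n2 := ndF1q2a) (pc := pcF0) (cut := Cut.none) (xt := Ext.none) (P1 := 1239849684) (W1 := 370763052) (P2 := 0) (W2 := 536870912) (P3 := 67108864) (W3 := 67108864)
    rfl rfl rfl k0_pp_202_ba

noncomputable def f_pp_202_bb : ℕ → ℕ → ℕ → ℕ → Bool := onCell 1239849684 370763052 1239849684 370763052 67108864 67108864
    (rowFK 0 false true true .pp 2 0 2 (qsf 1239849684 370763052 1239849684 370763052 0) ndF1q2b ndF1q2b pcF0 Cut.none Ext.none)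

def k0_pp_202_bb : ∃ t, chk3 f_pp_202_bb t 1 1 1 = true :=
  ⟨(l 3), by decide +kernel⟩

theorem c_pp_202_bb : CertF 1239849684 370763052 1239849684 370763052 67108864 67108864 false true true .pp 2 0 2
    ndF1q2b ndF1q2b pcF0 Cut.none Ext.none :=
  certFK0 (fam := false) (s1 := true) (s2 := true) (a := 2) (b := 0) (c := 2) (cn := .pp) (n1 := ndF1q2b) (n2 := ndF1q2b) (pc := pcF0) (cut := Cut.none) (xt := Ext.none) (P1 := 1239849684) (W1 := 370763052) (P2 := 1239849684) (W2 := 370763052) (P3 := 67108864) (W3 := 67108864)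
    rfl rfl rfl k0_pp_202_bb

noncomputable def f_pp_203_a : ℕ → ℕ → ℕ → ℕ → Bool := onCell 0 536870912 0 536870912 67108864 67108864
    (rowFK 1 false true true .up 2 0 3 (qsf 0 536870912 1610612736 536870912 0) ndF1q2a ndF1q3 pcF0 Cut.none Ext.none)

def k0_pp_203_a : ∃ t, chk3 f_pp_203_a t 1 1 1 = true :=
  ⟨(l 3), by decide +kernel⟩

theorem c_pp_203_a : CertF 0 536870912 1610612736 536870912 67108864 67108864 false true true .up 2 0 3
    ndF1q2a ndF1q3 pcF0 Cut.none Ext.none :=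
  certFK1 (fam := false) (s1 := true) (s2 := true) (a := 2) (b := 0) (c := 3) (cn := .up) (n1 := ndF1q2a) (n2 := ndF1q3) (pc := pcF0) (cut := Cut.none) (xt := Ext.none) (P1 := 0) (W1 := 536870912) (P2 := 1610612736) (W2 := 536870912) (P3 := 67108864) (W3 := 67108864)
    rfl rfl rfl (fun _ => rfl) k0_pp_203_a

noncomputable def f_pp_203_b : ℕ → ℕ → ℕ → ℕ → Bool := onCell 1239849684 370763052 1610612736 536870912 67108864 67108864
    (rowFK 0 false true true .up 2 0 3 (qsf 1239849684 370763052 1610612736 536870912 0) ndF1q2b ndF1q3 pcF0 Cut.none Ext.none)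

def k0_pp_203_b : ∃ t, chk3 f_pp_203_b t 1 1 1 = true :=
  ⟨(l 3), by decide +kernel⟩

theorem c_pp_203_b : CertF 1239849684 370763052 1610612736 536870912 67108864 67108864 false true true .up 2 0 3
    ndF1q2b ndF1q3 pcF0 Cut.none Ext.none :=
  certFK0 (fam := false) (s1 := true) (s2 := true) (a := 2) (b := 0) (c := 3) (cn := .up) (n1 := ndF1q2b) (n2 := ndF1q3) (pc := pcF0) (cut := Cut.none) (xt := Ext.none) (P1 := 1239849684) (W1 := 370763052) (P2 := 1610612736) (W2 := 536870912) (P3 := 67108864) (W3 := 67108864)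
    rfl rfl rfl k0_pp_203_b

noncomputable def cut_pp_213_a : Cut := Cut.of [[⟨0, 1, 0, 21338704⟩, ⟨1, 1, 0, 21338704⟩, ⟨2, 2, 0, 1685920⟩]]

noncomputable def f_pp_213_a : ℕ → ℕ → ℕ → ℕ → Bool := onCell 0 536870912 1610612736 536870912 67108864 67108864
    (rowFK 0 false true true .pnn 2 1 3 (qsf 0 536870912 1610612736 536870912 1) ndF1q2a ndF1q3 pcF1 cut_pp_213_a Ext.none)

def k0_pp_213_a : ∃ t, chk3 f_pp_213_a t 1 1 1 = true :=
  ⟨(b (l 3) (a (l 3) (b (l 3) (a (l 3) (b (l 3) (b (l 3) (a (l 3) (b (l 3) (a (l 3) (b (l 3) (a (l 3) (b (l 3) (b (l 3) (b (l 3) (l 6))))))))))))))), by decide +kernel⟩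

theorem c_pp_213_a : CertF 0 536870912 1610612736 536870912 67108864 67108864 false true true .pnn 2 1 3
    ndF1q2a ndF1q3 pcF1 cut_pp_213_a Ext.none :=
  certFK0 (fam := false) (s1 := true) (s2 := true) (a := 2) (b := 1) (c := 3) (cn := .pnn) (n1 := ndF1q2a) (n2 := ndF1q3) (pc := pcF1) (cut := cut_pp_213_a) (xt := Ext.none) (P1 := 0) (W1 := 536870912) (P2 := 1610612736) (W2 := 536870912) (P3 := 67108864) (W3 := 67108864)
    rfl rfl rfl k0_pp_213_a

noncomputable def cut_pp_213_b : Cut := Cut.of [[⟨0, 1, 0, 21338704⟩, ⟨1, 1, 0, 21338704⟩, ⟨2, 2, 0, 1685920⟩]]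

noncomputable def f_pp_213_b : ℕ → ℕ → ℕ → ℕ → Bool := onCell 1239849684 370763052 1610612736 536870912 67108864 67108864
    (rowFK 0 false true true .pnn 2 1 3 (qsf 1239849684 370763052 1610612736 536870912 1) ndF1q2b ndF1q3 pcF1 cut_pp_213_b Ext.none)

def k0_pp_213_b : ∃ t, chk3 f_pp_213_b t 1 1 1 = true :=
  ⟨(l 3), by decide +kernel⟩

theorem c_pp_213_b : CertF 1239849684 370763052 1610612736 536870912 67108864 67108864 false true true .pnn 2 1 3
    ndF1q2b ndF1q3 pcF1 cut_pp_213_b Ext.none :=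
  certFK0 (fam := false) (s1 := true) (s2 := true) (a := 2) (b := 1) (c := 3) (cn := .pnn) (n1 := ndF1q2b) (n2 := ndF1q3) (pc := pcF1) (cut := cut_pp_213_b) (xt := Ext.none) (P1 := 1239849684) (W1 := 370763052) (P2 := 1610612736) (W2 := 536870912) (P3 := 67108864) (W3 := 67108864)
    rfl rfl rfl k0_pp_213_b

noncomputable def f_pp_303 : ℕ → ℕ → ℕ → ℕ → Bool := onCell 1610612736 536870912 1610612736 536870912 67108864 67108864
    (rowFK 0 false true true .npn 3 0 3 (qsf 1610612736 536870912 1610612736 536870912 0) ndF1q3 ndF1q3 pcF0 Cut.none Ext.none)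

def k0_pp_303 : ∃ t, chk3 f_pp_303 t 1 1 1 = true :=
  ⟨(l 3), by decide +kernel⟩

theorem c_pp_303 : CertF 1610612736 536870912 1610612736 536870912 67108864 67108864 false true true .npn 3 0 3
    ndF1q3 ndF1q3 pcF0 Cut.none Ext.none :=
  certFK0 (fam := false) (s1 := true) (s2 := true) (a := 3) (b := 0) (c := 3) (cn := .npn) (n1 := ndF1q3) (n2 := ndF1q3) (pc := pcF0) (cut := Cut.none) (xt := Ext.none) (P1 := 1610612736) (W1 := 536870912) (P2 := 1610612736) (W2 := 536870912) (P3 := 67108864) (W3 := 67108864)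
    rfl rfl rfl k0_pp_303

noncomputable def f_pp_313 : ℕ → ℕ → ℕ → ℕ → Bool := onCell 1610612736 536870912 1610612736 536870912 67108864 67108864
    (rowFK 0 false true true .dn 3 1 3 (qsf 1610612736 536870912 1610612736 536870912 1) ndF1q3 ndF1q3 pcF1 Cut.none Ext.none)

def k0_pp_313 : ∃ t, chk3 f_pp_313 t 1 1 1 = true :=
  ⟨(l 3), by decide +kernel⟩

theorem c_pp_313 : CertF 1610612736 536870912 1610612736 536870912 67108864 67108864 false true true .dn 3 1 3
    ndF1q3 ndF1q3 pcF1 Cut.none Ext.none :=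
  certFK0 (fam := false) (s1 := true) (s2 := true) (a := 3) (b := 1) (c := 3) (cn := .dn) (n1 := ndF1q3) (n2 := ndF1q3) (pc := pcF1) (cut := Cut.none) (xt := Ext.none) (P1 := 1610612736) (W1 := 536870912) (P2 := 1610612736) (W2 := 536870912) (P3 := 67108864) (W3 := 67108864)
    rfl rfl rfl k0_pp_313

noncomputable def f_pm_001 : ℕ → ℕ → ℕ → ℕ → Bool := onCell 0 536870912 536870912 536870912 67108864 67108864
    (rowFK 0 false true false .up 0 0 1 (qsf 0 536870912 536870912 536870912 0) ndF1q0 ndF1q1 pcF0 Cut.none Ext.none)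

def k0_pm_001 : ∃ t, chk3 f_pm_001 t 1 1 1 = true :=
  ⟨(l 4), by decide +kernel⟩

theorem c_pm_001 : CertF 0 536870912 536870912 536870912 67108864 67108864 false true false .up 0 0 1
    ndF1q0 ndF1q1 pcF0 Cut.none Ext.none :=
  certFK0 (fam := false) (s1 := true) (s2 := false) (a := 0) (b := 0) (c := 1) (cn := .up) (n1 := ndF1q0) (n2 := ndF1q1) (pc := pcF0) (cut := Cut.none) (xt := Ext.none) (P1 := 0) (W1 := 536870912) (P2 := 536870912) (W2 := 536870912) (P3 := 67108864) (W3 := 67108864)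
    rfl rfl rfl k0_pm_001

noncomputable def f_pm_011 : ℕ → ℕ → ℕ → ℕ → Bool := onCell 0 536870912 536870912 536870912 67108864 67108864
    (rowFK 0 false true false .pnn 0 1 1 (qsf 0 536870912 536870912 536870912 1) ndF1q0 ndF1q1 pcF1 Cut.none Ext.none)

def k0_pm_011 : ∃ t, chk3 f_pm_011 t 1 1 1 = true :=
  ⟨(l 4), by decide +kernel⟩

theorem c_pm_011 : CertF 0 536870912 536870912 536870912 67108864 67108864 false true false .pnn 0 1 1
    ndF1q0 ndF1q1 pcF1 Cut.none Ext.none :=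
  certFK0 (fam := false) (s1 := true) (s2 := false) (a := 0) (b := 1) (c := 1) (cn := .pnn) (n1 := ndF1q0) (n2 := ndF1q1) (pc := pcF1) (cut := Cut.none) (xt := Ext.none) (P1 := 0) (W1 := 536870912) (P2 := 536870912) (W2 := 536870912) (P3 := 67108864) (W3 := 67108864)
    rfl rfl rfl k0_pm_011

noncomputable def cut_pm_012_a : Cut := Cut.of [[⟨0, 0, 0, 67108864⟩, ⟨1, 1, 0, 67108864⟩, ⟨2, 1, 0, 67108864⟩]]

noncomputable def f_pm_012_a : ℕ → ℕ → ℕ → ℕ → Bool := onCell 536870912 536870912 0 536870912 67108864 67108864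
    (rowFK 2 false true false .pnp 0 1 2 (qsf 0 536870912 0 536870912 1) ndF1q0 ndF1q2a pcF1 cut_pm_012_a Ext.none)

def k0_pm_012_a : ∃ t, chk3 f_pm_012_a t 1 1 1 = true :=
  ⟨(a (b (a (b (l 2) (l 18424336)) (b (a (l 18268480) (l 18385432)) (l 18597792))) (a (l 18398000) (l 148951954535))) (b (a (a (a (b (l 18081816) (l 18459864)) (l 18289160)) (a (b (l 18449024) (l 18665336)) (l 18686584))) (a (a (l 18749664) (l 18773512)) (a (a (l 18755856) (l 18726184)) (b (l 18710848) (l 18508608))))) (a (b (l 18575136) (l 4)) (a (b (l 18451000) (l 4)) (a (b (a (l 18208848) (l 193510651463)) (l 4)) (b (b (l 17934368) (l 16820344)) (b (l 4) (b (l 4) (l 6))))))))), by decide +kernel⟩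

theorem c_pm_012_a : CertF 0 536870912 0 536870912 67108864 67108864 false true false .pnp 0 1 2
    ndF1q0 ndF1q2a pcF1 cut_pm_012_a Ext.none :=
  certFK2 (fam := false) (s1 := true) (s2 := false) (a := 0) (b := 1) (c := 2) (cn := .pnp) (n1 := ndF1q0) (n2 := ndF1q2a) (pc := pcF1) (cut := cut_pm_012_a) (xt := Ext.none) (P1 := 0) (W1 := 536870912) (P2 := 0) (W2 := 536870912) (P3 := 67108864) (W3 := 67108864)
    rfl rfl rfl (fun _ => rfl) k0_pm_012_a

noncomputable def cut_pm_012_b : Cut := Cut.of [[⟨0, 0, 0, 67108864⟩, ⟨1, 1, 0, 67108864⟩, ⟨2, 1, 0, 67108864⟩]]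

noncomputable def f_pm_012_b : ℕ → ℕ → ℕ → ℕ → Bool := onCell 536870912 536870912 1239849684 370763052 67108864 67108864
    (rowFK 2 false true false .pnp 0 1 2 (qsf 0 536870912 1239849684 370763052 1) ndF1q0 ndF1q2b pcF1 cut_pm_012_b Ext.none)

def k0_pm_012_b : ∃ t, chk3 f_pm_012_b t 1 1 1 = true :=
  ⟨(a (a (l 2) (b (a (l 17565976) (l 17694720)) (l 2))) (a (a (b (l 18030360) (l 2)) (b (b (l 18581736) (l 18734176)) (l 18653984))) (a (b (l 19094352) (l 19148680)) (a (b (l 19283360) (l 19384232)) (b (l 19388640) (l 19534344)))))), by decide +kernel⟩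

theorem c_pm_012_b : CertF 0 536870912 1239849684 370763052 67108864 67108864 false true false .pnp 0 1 2
    ndF1q0 ndF1q2b pcF1 cut_pm_012_b Ext.none :=
  certFK2 (fam := false) (s1 := true) (s2 := false) (a := 0) (b := 1) (c := 2) (cn := .pnp) (n1 := ndF1q0) (n2 := ndF1q2b) (pc := pcF1) (cut := cut_pm_012_b) (xt := Ext.none) (P1 := 0) (W1 := 536870912) (P2 := 1239849684) (W2 := 370763052) (P3 := 67108864) (W3 := 67108864)
    rfl rfl rfl (fun _ => rfl) k0_pm_012_b

noncomputable def cut_pm_022_a : Cut := Cut.of [[⟨0, 0, 0, 67108864⟩, ⟨1, 1, 0, 67108864⟩, ⟨2, 1, 0, 67108864⟩]]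

noncomputable def f_pm_022_a : ℕ → ℕ → ℕ → ℕ → Bool := onCell 0 536870912 0 536870912 67108864 67108864
    (rowFK 0 false true false .pp 0 2 2 (qsf 0 536870912 0 536870912 2) ndF1q0 ndF1q2a pcF2 cut_pm_022_a Ext.none)

def k0_pm_022_a : ∃ t, chk3 f_pm_022_a t 1 1 1 = true :=
  ⟨(a (a (b (a (a (b (a (l 17984816) (l 18099560)) (a (b (l 17807968) (b (l 17644088) (l 17336712))) (b (l 17923624) (l 17642728)))) (b (l 18138584) (l 17768496))) (b (l 18310648) (a (l 17956896) (l 18149336)))) (a (b (a (a (a (b (b (l 17159360) (l 16927320)) (b (l 16652592) (a (l 16676688) (l 16638088)))) (b (l 17127600) (l 16645368))) (b (l 17115728) (l 16677320))) (b (l 17141576) (l 16762064))) (a (b (b (a (a (a (l 16695112) (l 16677680)) (l 16660960)) (b (l 16660768) (l 16680752))) (l 6)) (l 6)) (b (b (l 16786864) (a (l 4) (l 4))) (l 4)))) (b (b (a (l 17276624) (l 17496520)) (a (l 16753960) (l 16823136))) (b (l 4) (l 1))))) (b (b (l 18841744) (a (l 230354797991) (l 1))) (b (l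 1) (l 1)))) (l 1)), by decide +kernel⟩

theorem c_pm_022_a : CertF 0 536870912 0 536870912 67108864 67108864 false true false .pp 0 2 2
    ndF1q0 ndF1q2a pcF2 cut_pm_022_a Ext.none :=
  certFK0 (fam := false) (s1 := true) (s2 := false) (a := 0) (b := 2) (c := 2) (cn := .pp) (n1 := ndF1q0) (n2 := ndF1q2a) (pc := pcF2) (cut := cut_pm_022_a) (xt := Ext.none) (P1 := 0) (W1 := 536870912) (P2 := 0) (W2 := 536870912) (P3 := 67108864) (W3 := 67108864)
    rfl rfl rfl k0_pm_022_a

noncomputable def cut_pm_022_b : Cut := Cut.of [[⟨0, 0, 0, 67108864⟩, ⟨1, 1, 0, 67108864⟩, ⟨2, 1, 0, 67108864⟩]]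

noncomputable def f_pm_022_b : ℕ → ℕ → ℕ → ℕ → Bool := onCell 0 536870912 1239849684 370763052 67108864 67108864
    (rowFK 0 false true false .pp 0 2 2 (qsf 0 536870912 1239849684 370763052 2) ndF1q0 ndF1q2b pcF2 cut_pm_022_b Ext.none)

def k0_pm_022_b : ∃ t, chk3 f_pm_022_b t 1 1 1 = true :=
  ⟨(a (b (a (b (a (b (a (b (l 18275816) (l 18491024)) (l 18437528)) (l 18735104)) (b (l 18577992) (l 18878040))) (a (l 18967360) (l 19079032))) (b (a (l 19009768) (l 19048864)) (l 19334704))) (a (b (a (l 19031720) (l 19112424)) (l 4)) (b (l 19276432) (l 19104664)))) (b (a (b (l 1) (l 19690568)) (l 1)) (a (b (l 19565272) (l 19324136)) (l 19673224)))), by decide +kernel⟩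

theorem c_pm_022_b : CertF 0 536870912 1239849684 370763052 67108864 67108864 false true false .pp 0 2 2
    ndF1q0 ndF1q2b pcF2 cut_pm_022_b Ext.none :=
  certFK0 (fam := false) (s1 := true) (s2 := false) (a := 0) (b := 2) (c := 2) (cn := .pp) (n1 := ndF1q0) (n2 := ndF1q2b) (pc := pcF2) (cut := cut_pm_022_b) (xt := Ext.none) (P1 := 0) (W1 := 536870912) (P2 := 1239849684) (W2 := 370763052) (P3 := 67108864) (W3 := 67108864)
    rfl rfl rfl k0_pm_022_b

noncomputable def f_pm_023 : ℕ → ℕ → ℕ → ℕ → Bool := onCell 1073741824 536870912 1610612736 536870912 67108864 67108864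
    (rowFK 2 false true false .up 0 2 3 (qsf 0 536870912 1610612736 536870912 2) ndF1q0 ndF1q3 pcF2 Cut.none Ext.none)

def k0_pm_023 : ∃ t, chk3 f_pm_023 t 1 1 1 = true :=
  ⟨(a (b (a (l 18906432) (l 18832480)) (a (l 2) (l 18421904))) (b (a (l 18763192) (l 4)) (a (l 18196128) (l 17998232)))), by decide +kernel⟩

theorem c_pm_023 : CertF 0 536870912 1610612736 536870912 67108864 67108864 false true false .up 0 2 3
    ndF1q0 ndF1q3 pcF2 Cut.none Ext.none :=
  certFK2 (fam := false) (s1 := true) (s2 := false) (a := 0) (b := 2) (c := 3) (cn := .up) (n1 := ndF1q0) (n2 := ndF1q3) (pc := pcF2) (cut := Cut.none) (xt := Ext.none) (P1 := 0) (W1 := 536870912) (P2 := 1610612736) (W2 := 536870912) (P3 := 67108864) (W3 := 67108864)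
    rfl rfl rfl (fun _ => rfl) k0_pm_023

noncomputable def f_pm_033 : ℕ → ℕ → ℕ → ℕ → Bool := onCell 0 536870912 1610612736 536870912 67108864 67108864
    (rowFK 0 false true false .pnn 0 3 3 (qsf 0 536870912 1610612736 536870912 3) ndF1q0 ndF1q3 pcF3 Cut.none Ext.none)

def k0_pm_033 : ∃ t, chk3 f_pm_033 t 1 1 1 = true :=
  ⟨(a (b (l 4) (l 4)) (b (a (b (l 1) (l 4)) (l 1)) (b (a (l 4) (a (l 4) (l 1))) (l 4)))), by decide +kernel⟩

theorem c_pm_033 : CertF 0 536870912 1610612736 536870912 67108864 67108864 false true false .pnn 0 3 3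
    ndF1q0 ndF1q3 pcF3 Cut.none Ext.none :=
  certFK0 (fam := false) (s1 := true) (s2 := false) (a := 0) (b := 3) (c := 3) (cn := .pnn) (n1 := ndF1q0) (n2 := ndF1q3) (pc := pcF3) (cut := Cut.none) (xt := Ext.none) (P1 := 0) (W1 := 536870912) (P2 := 1610612736) (W2 := 536870912) (P3 := 67108864) (W3 := 67108864)
    rfl rfl rfl k0_pm_033

noncomputable def f_pm_101 : ℕ → ℕ → ℕ → ℕ → Bool := onCell 536870912 536870912 536870912 536870912 67108864 67108864
    (rowFK 0 false true false .npn 1 0 1 (qsf 536870912 536870912 536870912 536870912 0) ndF1q1 ndF1q1 pcF0 Cut.none Ext.none)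

def k0_pm_101 : ∃ t, chk3 f_pm_101 t 1 1 1 = true :=
  ⟨(l 4), by decide +kernel⟩

theorem c_pm_101 : CertF 536870912 536870912 536870912 536870912 67108864 67108864 false true false .npn 1 0 1
    ndF1q1 ndF1q1 pcF0 Cut.none Ext.none :=
  certFK0 (fam := false) (s1 := true) (s2 := false) (a := 1) (b := 0) (c := 1) (cn := .npn) (n1 := ndF1q1) (n2 := ndF1q1) (pc := pcF0) (cut := Cut.none) (xt := Ext.none) (P1 := 536870912) (W1 := 536870912) (P2 := 536870912) (W2 := 536870912) (P3 := 67108864) (W3 := 67108864)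
    rfl rfl rfl k0_pm_101

noncomputable def f_pm_102_a : ℕ → ℕ → ℕ → ℕ → Bool := onCell 0 536870912 0 536870912 67108864 67108864
    (rowFK 2 false true false .npp 1 0 2 (qsf 536870912 536870912 0 536870912 0) ndF1q1 ndF1q2a pcF0 Cut.none Ext.none)

def k0_pm_102_a : ∃ t, chk3 f_pm_102_a t 1 1 1 = true :=
  ⟨(a (a (b (a (l 2) (l 540734637575)) (b (l 19173080) (l 18949280))) (b (a (l 18495584) (l 18046040)) (l 18216480))) (a (b (a (l 17656160) (l 17355344)) (b (l 17718320) (l 17777040))) (b (b (a (l 17010272) (l 17265168)) (l 17241848)) (b (l 17551128) (l 17726392))))), by decide +kernel⟩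

theorem c_pm_102_a : CertF 536870912 536870912 0 536870912 67108864 67108864 false true false .npp 1 0 2
    ndF1q1 ndF1q2a pcF0 Cut.none Ext.none :=
  certFK2 (fam := false) (s1 := true) (s2 := false) (a := 1) (b := 0) (c := 2) (cn := .npp) (n1 := ndF1q1) (n2 := ndF1q2a) (pc := pcF0) (cut := Cut.none) (xt := Ext.none) (P1 := 536870912) (W1 := 536870912) (P2 := 0) (W2 := 536870912) (P3 := 67108864) (W3 := 67108864)
    rfl rfl rfl (fun _ => rfl) k0_pm_102_a

noncomputable def f_pm_102_b : ℕ → ℕ → ℕ → ℕ → Bool := onCell 0 536870912 1239849684 370763052 67108864 67108864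
    (rowFK 2 false true false .npp 1 0 2 (qsf 536870912 536870912 1239849684 370763052 0) ndF1q1 ndF1q2b pcF0 Cut.none Ext.none)

def k0_pm_102_b : ∃ t, chk3 f_pm_102_b t 1 1 1 = true :=
  ⟨(b (a (a (l 2) (b (a (l 18481632) (l 18093928)) (a (l 2) (l 18518400)))) (a (b (l 17633048) (l 17865104)) (b (l 17040360) (l 17450048)))) (a (l 2) (a (a (l 2) (b (l 18046568) (l 2))) (b (a (l 17953024) (l 17911960)) (b (l 17995496) (l 18016536)))))), by decide +kernel⟩

theorem c_pm_102_b : CertF 536870912 536870912 1239849684 370763052 67108864 67108864 false true false .npp 1 0 2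
    ndF1q1 ndF1q2b pcF0 Cut.none Ext.none :=
  certFK2 (fam := false) (s1 := true) (s2 := false) (a := 1) (b := 0) (c := 2) (cn := .npp) (n1 := ndF1q1) (n2 := ndF1q2b) (pc := pcF0) (cut := Cut.none) (xt := Ext.none) (P1 := 536870912) (W1 := 536870912) (P2 := 1239849684) (W2 := 370763052) (P3 := 67108864) (W3 := 67108864)
    rfl rfl rfl (fun _ => rfl) k0_pm_102_b

noncomputable def f_pm_112_a : ℕ → ℕ → ℕ → ℕ → Bool := onCell 536870912 536870912 0 536870912 67108864 67108864
    (rowFK 0 false true false .dn 1 1 2 (qsf 536870912 536870912 0 536870912 1) ndF1q1 ndF1q2a pcF1 Cut.none Ext.none)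

def k0_pm_112_a : ∃ t, chk3 f_pm_112_a t 1 1 1 = true :=
  ⟨(a (b (b (a (a (l 18040832) (l 17992280)) (l 18179864)) (l 18075528)) (a (l 18227192) (l 17911880))) (l 1)), by decide +kernel⟩

theorem c_pm_112_a : CertF 536870912 536870912 0 536870912 67108864 67108864 false true false .dn 1 1 2
    ndF1q1 ndF1q2a pcF1 Cut.none Ext.none :=
  certFK0 (fam := false) (s1 := true) (s2 := false) (a := 1) (b := 1) (c := 2) (cn := .dn) (n1 := ndF1q1) (n2 := ndF1q2a) (pc := pcF1) (cut := Cut.none) (xt := Ext.none) (P1 := 536870912) (W1 := 536870912) (P2 := 0) (W2 := 536870912) (P3 := 67108864) (W3 := 67108864)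
    rfl rfl rfl k0_pm_112_a

noncomputable def f_pm_112_b : ℕ → ℕ → ℕ → ℕ → Bool := onCell 536870912 536870912 1239849684 370763052 67108864 67108864
    (rowFK 2 false true false .dn 1 1 2 (qsf 536870912 536870912 1239849684 370763052 1) ndF1q1 ndF1q2b pcF1 Cut.none Ext.none)

def k0_pm_112_b : ∃ t, chk3 f_pm_112_b t 1 1 1 = true :=
  ⟨(a (b (a (a (l 17374880) (l 17425712)) (a (l 17529264) (l 17712752))) (a (b (a (l 17216952) (l 17056840)) (a (l 18168464) (l 17527152))) (b (a (l 17101256) (l 17437264)) (l 16867832)))) (a (a (b (l 18301928) (l 18287568)) (b (l 485906505415) (l 18848800))) (a (l 434367702839) (a (l 453695512087) (l 476781213255))))), by decide +kernel⟩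

theorem c_pm_112_b : CertF 536870912 536870912 1239849684 370763052 67108864 67108864 false true false .dn 1 1 2
    ndF1q1 ndF1q2b pcF1 Cut.none Ext.none :=
  certFK2 (fam := false) (s1 := true) (s2 := false) (a := 1) (b := 1) (c := 2) (cn := .dn) (n1 := ndF1q1) (n2 := ndF1q2b) (pc := pcF1) (cut := Cut.none) (xt := Ext.none) (P1 := 536870912) (W1 := 536870912) (P2 := 1239849684) (W2 := 370763052) (P3 := 67108864) (W3 := 67108864)
    rfl rfl rfl (fun _ => rfl) k0_pm_112_b

noncomputable def f_pm_113 : ℕ → ℕ → ℕ → ℕ → Bool := onCell 536870912 536870912 536870912 536870912 67108864 67108864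
    (rowFK 1 false true false .nn 1 1 3 (qsf 536870912 536870912 1610612736 536870912 1) ndF1q1 ndF1q3 pcF1 Cut.none Ext.none)

def k0_pm_113 : ∃ t, chk3 f_pm_113 t 1 1 1 = true :=
  ⟨(a (b (b (l 1) (b (l 1) (a (l 1) (b (l 1) (l 17169504))))) (b (b (a (l 1) (l 17269800)) (l 18209224)) (b (l 18711608) (b (l 19012336) (l 19201496))))) (b (b (a (b (l 1) (a (l 1) (l 18062392))) (b (a (l 18627024) (l 19116304)) (l 18648232))) (a (b (a (l 17524616) (l 17838496)) (l 17375240)) (l 18115584))) (b (a (l 17420672) (l 17258024)) (b (l 17769704) (b (l 17946376) (l 18039288)))))), by decide +kernel⟩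

theorem c_pm_113 : CertF 536870912 536870912 1610612736 536870912 67108864 67108864 false true false .nn 1 1 3
    ndF1q1 ndF1q3 pcF1 Cut.none Ext.none :=
  certFK1 (fam := false) (s1 := true) (s2 := false) (a := 1) (b := 1) (c := 3) (cn := .nn) (n1 := ndF1q1) (n2 := ndF1q3) (pc := pcF1) (cut := Cut.none) (xt := Ext.none) (P1 := 536870912) (W1 := 536870912) (P2 := 1610612736) (W2 := 536870912) (P3 := 67108864) (W3 := 67108864)
    rfl rfl rfl (fun _ => rfl) k0_pm_113

noncomputable def f_pm_123 : ℕ → ℕ → ℕ → ℕ → Bool := onCell 1073741824 536870912 1610612736 536870912 67108864 67108864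
    (rowFK 2 false true false .npn 1 2 3 (qsf 536870912 536870912 1610612736 536870912 2) ndF1q1 ndF1q3 pcF2 Cut.none Ext.none)

def k0_pm_123 : ∃ t, chk3 f_pm_123 t 1 1 1 = true :=
  ⟨(a (b (a (l 19402968) (l 19284560)) (a (l 18577968) (l 18749928))) (b (a (l 18899312) (l 1)) (a (l 18763024) (l 18502712)))), by decide +kernel⟩

theorem c_pm_123 : CertF 536870912 536870912 1610612736 536870912 67108864 67108864 false true false .npn 1 2 3
    ndF1q1 ndF1q3 pcF2 Cut.none Ext.none :=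
  certFK2 (fam := false) (s1 := true) (s2 := false) (a := 1) (b := 2) (c := 3) (cn := .npn) (n1 := ndF1q1) (n2 := ndF1q3) (pc := pcF2) (cut := Cut.none) (xt := Ext.none) (P1 := 536870912) (W1 := 536870912) (P2 := 1610612736) (W2 := 536870912) (P3 := 67108864) (W3 := 67108864)
    rfl rfl rfl (fun _ => rfl) k0_pm_123

noncomputable def f_pm_133 : ℕ → ℕ → ℕ → ℕ → Bool := onCell 1610612736 536870912 1610612736 536870912 67108864 67108864
    (rowFK 2 false true false .dn 1 3 3 (qsf 536870912 536870912 1610612736 536870912 3) ndF1q1 ndF1q3 pcF3 Cut.none Ext.none)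

def k0_pm_133 : ∃ t, chk3 f_pm_133 t 1 1 1 = true :=
  ⟨(a (b (l 1) (l 4)) (l 1)), by decide +kernel⟩

theorem c_pm_133 : CertF 536870912 536870912 1610612736 536870912 67108864 67108864 false true false .dn 1 3 3
    ndF1q1 ndF1q3 pcF3 Cut.none Ext.none :=
  certFK2 (fam := false) (s1 := true) (s2 := false) (a := 1) (b := 3) (c := 3) (cn := .dn) (n1 := ndF1q1) (n2 := ndF1q3) (pc := pcF3) (cut := Cut.none) (xt := Ext.none) (P1 := 536870912) (W1 := 536870912) (P2 := 1610612736) (W2 := 536870912) (P3 := 67108864) (W3 := 67108864)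
    rfl rfl rfl (fun _ => rfl) k0_pm_133

noncomputable def cut_pm_202_aa : Cut := Cut.of [[⟨0, 1, 0, 67108864⟩, ⟨1, 0, 0, 67108864⟩, ⟨2, 1, 0, 67108864⟩]]

noncomputable def f_pm_202_aa : ℕ → ℕ → ℕ → ℕ → Bool := onCell 0 536870912 0 536870912 67108864 67108864
    (rowFK 0 false true false .pp 2 0 2 (qsf 0 536870912 0 536870912 0) ndF1q2a ndF1q2a pcF0 cut_pm_202_aa Ext.none)

def k0_pm_202_aa : ∃ t, chk3 f_pm_202_aa t 1 1 1 = true :=
  ⟨(b (l 3) (a (l 3) (a (l 3) (a (l 3) (b (l 3) (b (l 3) (l 6))))))), by decide +kernel⟩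

theorem c_pm_202_aa : CertF 0 536870912 0 536870912 67108864 67108864 false true false .pp 2 0 2
    ndF1q2a ndF1q2a pcF0 cut_pm_202_aa Ext.none :=
  certFK0 (fam := false) (s1 := true) (s2 := false) (a := 2) (b := 0) (c := 2) (cn := .pp) (n1 := ndF1q2a) (n2 := ndF1q2a) (pc := pcF0) (cut := cut_pm_202_aa) (xt := Ext.none) (P1 := 0) (W1 := 536870912) (P2 := 0) (W2 := 536870912) (P3 := 67108864) (W3 := 67108864)
    rfl rfl rfl k0_pm_202_aa

noncomputable def cut_pm_202_ab : Cut := Cut.of [[⟨0, 1, 0, 67108864⟩, ⟨1, 0, 0, 67108864⟩, ⟨2, 1, 0, 67108864⟩]]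

noncomputable def f_pm_202_ab : ℕ → ℕ → ℕ → ℕ → Bool := onCell 0 536870912 1239849684 370763052 67108864 67108864
    (rowFK 0 false true false .pp 2 0 2 (qsf 0 536870912 1239849684 370763052 0) ndF1q2a ndF1q2b pcF0 cut_pm_202_ab Ext.none)

def k0_pm_202_ab : ∃ t, chk3 f_pm_202_ab t 1 1 1 = true :=
  ⟨(l 3), by decide +kernel⟩

theorem c_pm_202_ab : CertF 0 536870912 1239849684 370763052 67108864 67108864 false true false .pp 2 0 2
    ndF1q2a ndF1q2b pcF0 cut_pm_202_ab Ext.none :=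
  certFK0 (fam := false) (s1 := true) (s2 := false) (a := 2) (b := 0) (c := 2) (cn := .pp) (n1 := ndF1q2a) (n2 := ndF1q2b) (pc := pcF0) (cut := cut_pm_202_ab) (xt := Ext.none) (P1 := 0) (W1 := 536870912) (P2 := 1239849684) (W2 := 370763052) (P3 := 67108864) (W3 := 67108864)
    rfl rfl rfl k0_pm_202_ab

noncomputable def cut_pm_202_ba : Cut := Cut.of [[⟨0, 1, 0, 67108864⟩, ⟨1, 0, 0, 67108864⟩, ⟨2, 1, 0, 67108864⟩]]

noncomputable def f_pm_202_ba : ℕ → ℕ → ℕ → ℕ → Bool := onCell 1239849684 370763052 0 536870912 67108864 67108864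
    (rowFK 0 false true false .pp 2 0 2 (qsf 1239849684 370763052 0 536870912 0) ndF1q2b ndF1q2a pcF0 cut_pm_202_ba Ext.none)

def k0_pm_202_ba : ∃ t, chk3 f_pm_202_ba t 1 1 1 = true :=
  ⟨(l 3), by decide +kernel⟩

theorem c_pm_202_ba : CertF 1239849684 370763052 0 536870912 67108864 67108864 false true false .pp 2 0 2
    ndF1q2b ndF1q2a pcF0 cut_pm_202_ba Ext.none :=
  certFK0 (fam := false) (s1 := true) (s2 := false) (a := 2) (b := 0) (c := 2) (cn := .pp) (n1 := ndF1q2b) (n2 := ndF1q2a) (pc := pcF0) (cut := cut_pm_202_ba) (xt := Ext.none) (P1 := 1239849684) (W1 := 370763052) (P2 := 0) (W2 := 536870912) (P3 := 67108864) (W3 := 67108864)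
    rfl rfl rfl k0_pm_202_ba

noncomputable def cut_pm_202_bb : Cut := Cut.of [[⟨0, 1, 0, 67108864⟩, ⟨1, 0, 0, 67108864⟩, ⟨2, 1, 0, 67108864⟩]]

noncomputable def f_pm_202_bb : ℕ → ℕ → ℕ → ℕ → Bool := onCell 1239849684 370763052 1239849684 370763052 67108864 67108864
    (rowFK 0 false true false .pp 2 0 2 (qsf 1239849684 370763052 1239849684 370763052 0) ndF1q2b ndF1q2b pcF0 cut_pm_202_bb Ext.none)

def k0_pm_202_bb : ∃ t, chk3 f_pm_202_bb t 1 1 1 = true :=
  ⟨(l 3), by decide +kernel⟩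

theorem c_pm_202_bb : CertF 1239849684 370763052 1239849684 370763052 67108864 67108864 false true false .pp 2 0 2
    ndF1q2b ndF1q2b pcF0 cut_pm_202_bb Ext.none :=
  certFK0 (fam := false) (s1 := true) (s2 := false) (a := 2) (b := 0) (c := 2) (cn := .pp) (n1 := ndF1q2b) (n2 := ndF1q2b) (pc := pcF0) (cut := cut_pm_202_bb) (xt := Ext.none) (P1 := 1239849684) (W1 := 370763052) (P2 := 1239849684) (W2 := 370763052) (P3 := 67108864) (W3 := 67108864)
    rfl rfl rfl k0_pm_202_bb

noncomputable def f_pm_203_a : ℕ → ℕ → ℕ → ℕ → Bool := onCell 0 536870912 0 536870912 67108864 67108864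
    (rowFK 1 false true false .up 2 0 3 (qsf 0 536870912 1610612736 536870912 0) ndF1q2a ndF1q3 pcF0 Cut.none Ext.none)

def k0_pm_203_a : ∃ t, chk3 f_pm_203_a t 1 1 1 = true :=
  ⟨(l 3), by decide +kernel⟩

theorem c_pm_203_a : CertF 0 536870912 1610612736 536870912 67108864 67108864 false true false .up 2 0 3
    ndF1q2a ndF1q3 pcF0 Cut.none Ext.none :=
  certFK1 (fam := false) (s1 := true) (s2 := false) (a := 2) (b := 0) (c := 3) (cn := .up) (n1 := ndF1q2a) (n2 := ndF1q3) (pc := pcF0) (cut := Cut.none) (xt := Ext.none) (P1 := 0) (W1 := 536870912) (P2 := 1610612736) (W2 := 536870912) (P3 := 67108864) (W3 := 67108864)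
    rfl rfl rfl (fun _ => rfl) k0_pm_203_a

noncomputable def f_pm_203_b : ℕ → ℕ → ℕ → ℕ → Bool := onCell 1239849684 370763052 1610612736 536870912 67108864 67108864
    (rowFK 0 false true false .up 2 0 3 (qsf 1239849684 370763052 1610612736 536870912 0) ndF1q2b ndF1q3 pcF0 Cut.none Ext.none)

def k0_pm_203_b : ∃ t, chk3 f_pm_203_b t 1 1 1 = true :=
  ⟨(l 3), by decide +kernel⟩

theorem c_pm_203_b : CertF 1239849684 370763052 1610612736 536870912 67108864 67108864 false true false .up 2 0 3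
    ndF1q2b ndF1q3 pcF0 Cut.none Ext.none :=
  certFK0 (fam := false) (s1 := true) (s2 := false) (a := 2) (b := 0) (c := 3) (cn := .up) (n1 := ndF1q2b) (n2 := ndF1q3) (pc := pcF0) (cut := Cut.none) (xt := Ext.none) (P1 := 1239849684) (W1 := 370763052) (P2 := 1610612736) (W2 := 536870912) (P3 := 67108864) (W3 := 67108864)
    rfl rfl rfl k0_pm_203_b

noncomputable def cut_pm_213_a : Cut := Cut.of [[⟨0, 1, 0, 21338704⟩, ⟨1, 1, 0, 21338704⟩, ⟨2, 2, 0, 1685920⟩]]

noncomputable def f_pm_213_a : ℕ → ℕ → ℕ → ℕ → Bool := onCell 0 536870912 1610612736 536870912 67108864 67108864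
    (rowFK 0 false true false .pnn 2 1 3 (qsf 0 536870912 1610612736 536870912 1) ndF1q2a ndF1q3 pcF1 cut_pm_213_a Ext.none)

def k0_pm_213_a : ∃ t, chk3 f_pm_213_a t 1 1 1 = true :=
  ⟨(b (l 3) (a (l 3) (b (l 3) (a (l 3) (b (l 3) (a (l 3) (a (l 3) (b (l 3) (b (l 3) (a (l 3) (b (l 3) (b (l 3) (b (l 3) (b (l 3) (l 6))))))))))))))), by decide +kernel⟩

theorem c_pm_213_a : CertF 0 536870912 1610612736 536870912 67108864 67108864 false true false .pnn 2 1 3
    ndF1q2a ndF1q3 pcF1 cut_pm_213_a Ext.none :=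
  certFK0 (fam := false) (s1 := true) (s2 := false) (a := 2) (b := 1) (c := 3) (cn := .pnn) (n1 := ndF1q2a) (n2 := ndF1q3) (pc := pcF1) (cut := cut_pm_213_a) (xt := Ext.none) (P1 := 0) (W1 := 536870912) (P2 := 1610612736) (W2 := 536870912) (P3 := 67108864) (W3 := 67108864)
    rfl rfl rfl k0_pm_213_a

noncomputable def cut_pm_213_b : Cut := Cut.of [[⟨0, 1, 0, 21338704⟩, ⟨1, 1, 0, 21338704⟩, ⟨2, 2, 0, 1685920⟩]]

noncomputable def f_pm_213_b : ℕ → ℕ → ℕ → ℕ → Bool := onCell 1239849684 370763052 1610612736 536870912 67108864 67108864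
    (rowFK 0 false true false .pnn 2 1 3 (qsf 1239849684 370763052 1610612736 536870912 1) ndF1q2b ndF1q3 pcF1 cut_pm_213_b Ext.none)

def k0_pm_213_b : ∃ t, chk3 f_pm_213_b t 1 1 1 = true :=
  ⟨(l 3), by decide +kernel⟩

theorem c_pm_213_b : CertF 1239849684 370763052 1610612736 536870912 67108864 67108864 false true false .pnn 2 1 3
    ndF1q2b ndF1q3 pcF1 cut_pm_213_b Ext.none :=
  certFK0 (fam := false) (s1 := true) (s2 := false) (a := 2) (b := 1) (c := 3) (cn := .pnn) (n1 := ndF1q2b) (n2 := ndF1q3) (pc := pcF1) (cut := cut_pm_213_b) (xt := Ext.none) (P1 := 1239849684) (W1 := 370763052) (P2 := 1610612736) (W2 := 536870912) (P3 := 67108864) (W3 := 67108864)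
    rfl rfl rfl k0_pm_213_b

noncomputable def f_pm_303 : ℕ → ℕ → ℕ → ℕ → Bool := onCell 1610612736 536870912 1610612736 536870912 67108864 67108864
    (rowFK 0 false true false .npn 3 0 3 (qsf 1610612736 536870912 1610612736 536870912 0) ndF1q3 ndF1q3 pcF0 Cut.none Ext.none)

def k0_pm_303 : ∃ t, chk3 f_pm_303 t 1 1 1 = true :=
  ⟨(l 3), by decide +kernel⟩

theorem c_pm_303 : CertF 1610612736 536870912 1610612736 536870912 67108864 67108864 false true false .npn 3 0 3
    ndF1q3 ndF1q3 pcF0 Cut.none Ext.none :=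
  certFK0 (fam := false) (s1 := true) (s2 := false) (a := 3) (b := 0) (c := 3) (cn := .npn) (n1 := ndF1q3) (n2 := ndF1q3) (pc := pcF0) (cut := Cut.none) (xt := Ext.none) (P1 := 1610612736) (W1 := 536870912) (P2 := 1610612736) (W2 := 536870912) (P3 := 67108864) (W3 := 67108864)
    rfl rfl rfl k0_pm_303

noncomputable def f_pm_313 : ℕ → ℕ → ℕ → ℕ → Bool := onCell 1610612736 536870912 1610612736 536870912 67108864 67108864
    (rowFK 0 false true false .dn 3 1 3 (qsf 1610612736 536870912 1610612736 536870912 1) ndF1q3 ndF1q3 pcF1 Cut.none Ext.none)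

def k0_pm_313 : ∃ t, chk3 f_pm_313 t 1 1 1 = true :=
  ⟨(l 3), by decide +kernel⟩

theorem c_pm_313 : CertF 1610612736 536870912 1610612736 536870912 67108864 67108864 false true false .dn 3 1 3
    ndF1q3 ndF1q3 pcF1 Cut.none Ext.none :=
  certFK0 (fam := false) (s1 := true) (s2 := false) (a := 3) (b := 1) (c := 3) (cn := .dn) (n1 := ndF1q3) (n2 := ndF1q3) (pc := pcF1) (cut := Cut.none) (xt := Ext.none) (P1 := 1610612736) (W1 := 536870912) (P2 := 1610612736) (W2 := 536870912) (P3 := 67108864) (W3 := 67108864)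
    rfl rfl rfl k0_pm_313

noncomputable def f_mm_001 : ℕ → ℕ → ℕ → ℕ → Bool := onCell 0 536870912 536870912 536870912 67108864 67108864
    (rowFK 0 false false false .up 0 0 1 (qsf 0 536870912 536870912 536870912 0) ndF1q0 ndF1q1 pcF0 Cut.none Ext.none)

def k0_mm_001 : ∃ t, chk3 f_mm_001 t 1 1 1 = true :=
  ⟨(l 3), by decide +kernel⟩

theorem c_mm_001 : CertF 0 536870912 536870912 536870912 67108864 67108864 false false false .up 0 0 1
    ndF1q0 ndF1q1 pcF0 Cut.none Ext.none :=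
  certFK0 (fam := false) (s1 := false) (s2 := false) (a := 0) (b := 0) (c := 1) (cn := .up) (n1 := ndF1q0) (n2 := ndF1q1) (pc := pcF0) (cut := Cut.none) (xt := Ext.none) (P1 := 0) (W1 := 536870912) (P2 := 536870912) (W2 := 536870912) (P3 := 67108864) (W3 := 67108864)
    rfl rfl rfl k0_mm_001

noncomputable def f_mm_011 : ℕ → ℕ → ℕ → ℕ → Bool := onCell 0 536870912 536870912 536870912 67108864 67108864
    (rowFK 0 false false false .pnn 0 1 1 (qsf 0 536870912 536870912 536870912 1) ndF1q0 ndF1q1 pcF1 Cut.none Ext.none)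

def k0_mm_011 : ∃ t, chk3 f_mm_011 t 1 1 1 = true :=
  ⟨(l 3), by decide +kernel⟩

theorem c_mm_011 : CertF 0 536870912 536870912 536870912 67108864 67108864 false false false .pnn 0 1 1
    ndF1q0 ndF1q1 pcF1 Cut.none Ext.none :=
  certFK0 (fam := false) (s1 := false) (s2 := false) (a := 0) (b := 1) (c := 1) (cn := .pnn) (n1 := ndF1q0) (n2 := ndF1q1) (pc := pcF1) (cut := Cut.none) (xt := Ext.none) (P1 := 0) (W1 := 536870912) (P2 := 536870912) (W2 := 536870912) (P3 := 67108864) (W3 := 67108864)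
    rfl rfl rfl k0_mm_011

noncomputable def f_mm_012_a : ℕ → ℕ → ℕ → ℕ → Bool := onCell 0 536870912 0 536870912 67108864 67108864
    (rowFK 0 false false false .pnp 0 1 2 (qsf 0 536870912 0 536870912 1) ndF1q0 ndF1q2a pcF1 Cut.none Ext.none)

def k0_mm_012_a : ∃ t, chk3 f_mm_012_a t 1 1 1 = true :=
  ⟨(l 5), by decide +kernel⟩

theorem c_mm_012_a : CertF 0 536870912 0 536870912 67108864 67108864 false false false .pnp 0 1 2
    ndF1q0 ndF1q2a pcF1 Cut.none Ext.none :=
  certFK0 (fam := false) (s1 := false) (s2 := false) (a := 0) (b := 1) (c := 2) (cn := .pnp) (n1 := ndF1q0) (n2 := ndF1q2a) (pc := pcF1) (cut := Cut.none) (xt := Ext.none) (P1 := 0) (W1 := 536870912) (P2 := 0) (W2 := 536870912) (P3 := 67108864) (W3 := 67108864)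
    rfl rfl rfl k0_mm_012_a

noncomputable def f_mm_012_b : ℕ → ℕ → ℕ → ℕ → Bool := onCell 0 536870912 1239849684 370763052 67108864 67108864
    (rowFK 0 false false false .pnp 0 1 2 (qsf 0 536870912 1239849684 370763052 1) ndF1q0 ndF1q2b pcF1 Cut.none Ext.none)

def k0_mm_012_b : ∃ t, chk3 f_mm_012_b t 1 1 1 = true :=
  ⟨(l 5), by decide +kernel⟩

theorem c_mm_012_b : CertF 0 536870912 1239849684 370763052 67108864 67108864 false false false .pnp 0 1 2
    ndF1q0 ndF1q2b pcF1 Cut.none Ext.none :=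
  certFK0 (fam := false) (s1 := false) (s2 := false) (a := 0) (b := 1) (c := 2) (cn := .pnp) (n1 := ndF1q0) (n2 := ndF1q2b) (pc := pcF1) (cut := Cut.none) (xt := Ext.none) (P1 := 0) (W1 := 536870912) (P2 := 1239849684) (W2 := 370763052) (P3 := 67108864) (W3 := 67108864)
    rfl rfl rfl k0_mm_012_b

noncomputable def f_mm_022_a : ℕ → ℕ → ℕ → ℕ → Bool := onCell 0 536870912 0 536870912 67108864 67108864
    (rowFK 0 false false false .pp 0 2 2 (qsf 0 536870912 0 536870912 2) ndF1q0 ndF1q2a pcF2 Cut.none Ext.none)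

def k0_mm_022_a : ∃ t, chk3 f_mm_022_a t 1 1 1 = true :=
  ⟨(l 5), by decide +kernel⟩

theorem c_mm_022_a : CertF 0 536870912 0 536870912 67108864 67108864 false false false .pp 0 2 2
    ndF1q0 ndF1q2a pcF2 Cut.none Ext.none :=
  certFK0 (fam := false) (s1 := false) (s2 := false) (a := 0) (b := 2) (c := 2) (cn := .pp) (n1 := ndF1q0) (n2 := ndF1q2a) (pc := pcF2) (cut := Cut.none) (xt := Ext.none) (P1 := 0) (W1 := 536870912) (P2 := 0) (W2 := 536870912) (P3 := 67108864) (W3 := 67108864)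
    rfl rfl rfl k0_mm_022_a

noncomputable def f_mm_022_b : ℕ → ℕ → ℕ → ℕ → Bool := onCell 0 536870912 1239849684 370763052 67108864 67108864
    (rowFK 0 false false false .pp 0 2 2 (qsf 0 536870912 1239849684 370763052 2) ndF1q0 ndF1q2b pcF2 Cut.none Ext.none)

def k0_mm_022_b : ∃ t, chk3 f_mm_022_b t 1 1 1 = true :=
  ⟨(l 5), by decide +kernel⟩

theorem c_mm_022_b : CertF 0 536870912 1239849684 370763052 67108864 67108864 false false false .pp 0 2 2
    ndF1q0 ndF1q2b pcF2 Cut.none Ext.none :=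
  certFK0 (fam := false) (s1 := false) (s2 := false) (a := 0) (b := 2) (c := 2) (cn := .pp) (n1 := ndF1q0) (n2 := ndF1q2b) (pc := pcF2) (cut := Cut.none) (xt := Ext.none) (P1 := 0) (W1 := 536870912) (P2 := 1239849684) (W2 := 370763052) (P3 := 67108864) (W3 := 67108864)
    rfl rfl rfl k0_mm_022_b

noncomputable def f_mm_023 : ℕ → ℕ → ℕ → ℕ → Bool := onCell 0 536870912 1610612736 536870912 67108864 67108864
    (rowFK 0 false false false .up 0 2 3 (qsf 0 536870912 1610612736 536870912 2) ndF1q0 ndF1q3 pcF2 Cut.none Ext.none)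

def k0_mm_023 : ∃ t, chk3 f_mm_023 t 1 1 1 = true :=
  ⟨(l 5), by decide +kernel⟩

theorem c_mm_023 : CertF 0 536870912 1610612736 536870912 67108864 67108864 false false false .up 0 2 3
    ndF1q0 ndF1q3 pcF2 Cut.none Ext.none :=
  certFK0 (fam := false) (s1 := false) (s2 := false) (a := 0) (b := 2) (c := 3) (cn := .up) (n1 := ndF1q0) (n2 := ndF1q3) (pc := pcF2) (cut := Cut.none) (xt := Ext.none) (P1 := 0) (W1 := 536870912) (P2 := 1610612736) (W2 := 536870912) (P3 := 67108864) (W3 := 67108864)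
    rfl rfl rfl k0_mm_023

noncomputable def f_mm_033 : ℕ → ℕ → ℕ → ℕ → Bool := onCell 0 536870912 1610612736 536870912 67108864 67108864
    (rowFK 0 false false false .pnn 0 3 3 (qsf 0 536870912 1610612736 536870912 3) ndF1q0 ndF1q3 pcF3 Cut.none Ext.none)

def k0_mm_033 : ∃ t, chk3 f_mm_033 t 1 1 1 = true :=
  ⟨(l 5), by decide +kernel⟩

theorem c_mm_033 : CertF 0 536870912 1610612736 536870912 67108864 67108864 false false false .pnn 0 3 3
    ndF1q0 ndF1q3 pcF3 Cut.none Ext.none :=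
  certFK0 (fam := false) (s1 := false) (s2 := false) (a := 0) (b := 3) (c := 3) (cn := .pnn) (n1 := ndF1q0) (n2 := ndF1q3) (pc := pcF3) (cut := Cut.none) (xt := Ext.none) (P1 := 0) (W1 := 536870912) (P2 := 1610612736) (W2 := 536870912) (P3 := 67108864) (W3 := 67108864)
    rfl rfl rfl k0_mm_033

noncomputable def f_mm_101 : ℕ → ℕ → ℕ → ℕ → Bool := onCell 536870912 536870912 536870912 536870912 67108864 67108864
    (rowFK 0 false false false .npn 1 0 1 (qsf 536870912 536870912 536870912 536870912 0) ndF1q1 ndF1q1 pcF0 Cut.none Ext.none)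

def k0_mm_101 : ∃ t, chk3 f_mm_101 t 1 1 1 = true :=
  ⟨(l 3), by decide +kernel⟩

theorem c_mm_101 : CertF 536870912 536870912 536870912 536870912 67108864 67108864 false false false .npn 1 0 1
    ndF1q1 ndF1q1 pcF0 Cut.none Ext.none :=
  certFK0 (fam := false) (s1 := false) (s2 := false) (a := 1) (b := 0) (c := 1) (cn := .npn) (n1 := ndF1q1) (n2 := ndF1q1) (pc := pcF0) (cut := Cut.none) (xt := Ext.none) (P1 := 536870912) (W1 := 536870912) (P2 := 536870912) (W2 := 536870912) (P3 := 67108864) (W3 := 67108864)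
    rfl rfl rfl k0_mm_101

noncomputable def f_mm_102_a : ℕ → ℕ → ℕ → ℕ → Bool := onCell 536870912 536870912 0 536870912 67108864 67108864
    (rowFK 0 false false false .npp 1 0 2 (qsf 536870912 536870912 0 536870912 0) ndF1q1 ndF1q2a pcF0 Cut.none Ext.none)

def k0_mm_102_a : ∃ t, chk3 f_mm_102_a t 1 1 1 = true :=
  ⟨(l 5), by decide +kernel⟩

theorem c_mm_102_a : CertF 536870912 536870912 0 536870912 67108864 67108864 false false false .npp 1 0 2
    ndF1q1 ndF1q2a pcF0 Cut.none Ext.none :=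
  certFK0 (fam := false) (s1 := false) (s2 := false) (a := 1) (b := 0) (c := 2) (cn := .npp) (n1 := ndF1q1) (n2 := ndF1q2a) (pc := pcF0) (cut := Cut.none) (xt := Ext.none) (P1 := 536870912) (W1 := 536870912) (P2 := 0) (W2 := 536870912) (P3 := 67108864) (W3 := 67108864)
    rfl rfl rfl k0_mm_102_a

noncomputable def f_mm_102_b : ℕ → ℕ → ℕ → ℕ → Bool := onCell 536870912 536870912 1239849684 370763052 67108864 67108864
    (rowFK 0 false false false .npp 1 0 2 (qsf 536870912 536870912 1239849684 370763052 0) ndF1q1 ndF1q2b pcF0 Cut.none Ext.none)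

def k0_mm_102_b : ∃ t, chk3 f_mm_102_b t 1 1 1 = true :=
  ⟨(l 5), by decide +kernel⟩

theorem c_mm_102_b : CertF 536870912 536870912 1239849684 370763052 67108864 67108864 false false false .npp 1 0 2
    ndF1q1 ndF1q2b pcF0 Cut.none Ext.none :=
  certFK0 (fam := false) (s1 := false) (s2 := false) (a := 1) (b := 0) (c := 2) (cn := .npp) (n1 := ndF1q1) (n2 := ndF1q2b) (pc := pcF0) (cut := Cut.none) (xt := Ext.none) (P1 := 536870912) (W1 := 536870912) (P2 := 1239849684) (W2 := 370763052) (P3 := 67108864) (W3 := 67108864)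
    rfl rfl rfl k0_mm_102_b

noncomputable def f_mm_112_a : ℕ → ℕ → ℕ → ℕ → Bool := onCell 536870912 536870912 0 536870912 67108864 67108864
    (rowFK 0 false false false .dn 1 1 2 (qsf 536870912 536870912 0 536870912 1) ndF1q1 ndF1q2a pcF1 Cut.none Ext.none)

def k0_mm_112_a : ∃ t, chk3 f_mm_112_a t 1 1 1 = true :=
  ⟨(l 5), by decide +kernel⟩

theorem c_mm_112_a : CertF 536870912 536870912 0 536870912 67108864 67108864 false false false .dn 1 1 2
    ndF1q1 ndF1q2a pcF1 Cut.none Ext.none :=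
  certFK0 (fam := false) (s1 := false) (s2 := false) (a := 1) (b := 1) (c := 2) (cn := .dn) (n1 := ndF1q1) (n2 := ndF1q2a) (pc := pcF1) (cut := Cut.none) (xt := Ext.none) (P1 := 536870912) (W1 := 536870912) (P2 := 0) (W2 := 536870912) (P3 := 67108864) (W3 := 67108864)
    rfl rfl rfl k0_mm_112_a

noncomputable def f_mm_112_b : ℕ → ℕ → ℕ → ℕ → Bool := onCell 536870912 536870912 1239849684 370763052 67108864 67108864
    (rowFK 0 false false false .dn 1 1 2 (qsf 536870912 536870912 1239849684 370763052 1) ndF1q1 ndF1q2b pcF1 Cut.none Ext.none)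

def k0_mm_112_b : ∃ t, chk3 f_mm_112_b t 1 1 1 = true :=
  ⟨(l 5), by decide +kernel⟩

theorem c_mm_112_b : CertF 536870912 536870912 1239849684 370763052 67108864 67108864 false false false .dn 1 1 2
    ndF1q1 ndF1q2b pcF1 Cut.none Ext.none :=
  certFK0 (fam := false) (s1 := false) (s2 := false) (a := 1) (b := 1) (c := 2) (cn := .dn) (n1 := ndF1q1) (n2 := ndF1q2b) (pc := pcF1) (cut := Cut.none) (xt := Ext.none) (P1 := 536870912) (W1 := 536870912) (P2 := 1239849684) (W2 := 370763052) (P3 := 67108864) (W3 := 67108864)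
    rfl rfl rfl k0_mm_112_b

noncomputable def f_mm_113 : ℕ → ℕ → ℕ → ℕ → Bool := onCell 536870912 536870912 1610612736 536870912 67108864 67108864
    (rowFK 0 false false false .nn 1 1 3 (qsf 536870912 536870912 1610612736 536870912 1) ndF1q1 ndF1q3 pcF1 Cut.none Ext.none)

def k0_mm_113 : ∃ t, chk3 f_mm_113 t 1 1 1 = true :=
  ⟨(l 5), by decide +kernel⟩

theorem c_mm_113 : CertF 536870912 536870912 1610612736 536870912 67108864 67108864 false false false .nn 1 1 3
    ndF1q1 ndF1q3 pcF1 Cut.none Ext.none :=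
  certFK0 (fam := false) (s1 := false) (s2 := false) (a := 1) (b := 1) (c := 3) (cn := .nn) (n1 := ndF1q1) (n2 := ndF1q3) (pc := pcF1) (cut := Cut.none) (xt := Ext.none) (P1 := 536870912) (W1 := 536870912) (P2 := 1610612736) (W2 := 536870912) (P3 := 67108864) (W3 := 67108864)
    rfl rfl rfl k0_mm_113

noncomputable def f_mm_123 : ℕ → ℕ → ℕ → ℕ → Bool := onCell 536870912 536870912 1610612736 536870912 67108864 67108864
    (rowFK 0 false false false .npn 1 2 3 (qsf 536870912 536870912 1610612736 536870912 2) ndF1q1 ndF1q3 pcF2 Cut.none Ext.none)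

def k0_mm_123 : ∃ t, chk3 f_mm_123 t 1 1 1 = true :=
  ⟨(l 5), by decide +kernel⟩

theorem c_mm_123 : CertF 536870912 536870912 1610612736 536870912 67108864 67108864 false false false .npn 1 2 3
    ndF1q1 ndF1q3 pcF2 Cut.none Ext.none :=
  certFK0 (fam := false) (s1 := false) (s2 := false) (a := 1) (b := 2) (c := 3) (cn := .npn) (n1 := ndF1q1) (n2 := ndF1q3) (pc := pcF2) (cut := Cut.none) (xt := Ext.none) (P1 := 536870912) (W1 := 536870912) (P2 := 1610612736) (W2 := 536870912) (P3 := 67108864) (W3 := 67108864)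
    rfl rfl rfl k0_mm_123

noncomputable def f_mm_133 : ℕ → ℕ → ℕ → ℕ → Bool := onCell 536870912 536870912 1610612736 536870912 67108864 67108864
    (rowFK 0 false false false .dn 1 3 3 (qsf 536870912 536870912 1610612736 536870912 3) ndF1q1 ndF1q3 pcF3 Cut.none Ext.none)

def k0_mm_133 : ∃ t, chk3 f_mm_133 t 1 1 1 = true :=
  ⟨(l 5), by decide +kernel⟩

theorem c_mm_133 : CertF 536870912 536870912 1610612736 536870912 67108864 67108864 false false false .dn 1 3 3
    ndF1q1 ndF1q3 pcF3 Cut.none Ext.none :=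
  certFK0 (fam := false) (s1 := false) (s2 := false) (a := 1) (b := 3) (c := 3) (cn := .dn) (n1 := ndF1q1) (n2 := ndF1q3) (pc := pcF3) (cut := Cut.none) (xt := Ext.none) (P1 := 536870912) (W1 := 536870912) (P2 := 1610612736) (W2 := 536870912) (P3 := 67108864) (W3 := 67108864)
    rfl rfl rfl k0_mm_133

noncomputable def f_mm_202_aa : ℕ → ℕ → ℕ → ℕ → Bool := onCell 0 536870912 0 536870912 67108864 67108864
    (rowFK 0 false false false .pp 2 0 2 (qsf 0 536870912 0 536870912 0) ndF1q2a ndF1q2a pcF0 Cut.none Ext.none)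

def k0_mm_202_aa : ∃ t, chk3 f_mm_202_aa t 1 1 1 = true :=
  ⟨(l 3), by decide +kernel⟩

theorem c_mm_202_aa : CertF 0 536870912 0 536870912 67108864 67108864 false false false .pp 2 0 2
    ndF1q2a ndF1q2a pcF0 Cut.none Ext.none :=
  certFK0 (fam := false) (s1 := false) (s2 := false) (a := 2) (b := 0) (c := 2) (cn := .pp) (n1 := ndF1q2a) (n2 := ndF1q2a) (pc := pcF0) (cut := Cut.none) (xt := Ext.none) (P1 := 0) (W1 := 536870912) (P2 := 0) (W2 := 536870912) (P3 := 67108864) (W3 := 67108864)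
    rfl rfl rfl k0_mm_202_aa

noncomputable def f_mm_202_ab : ℕ → ℕ → ℕ → ℕ → Bool := onCell 0 536870912 1239849684 370763052 67108864 67108864
    (rowFK 0 false false false .pp 2 0 2 (qsf 0 536870912 1239849684 370763052 0) ndF1q2a ndF1q2b pcF0 Cut.none Ext.none)

def k0_mm_202_ab : ∃ t, chk3 f_mm_202_ab t 1 1 1 = true :=
  ⟨(l 3), by decide +kernel⟩

theorem c_mm_202_ab : CertF 0 536870912 1239849684 370763052 67108864 67108864 false false false .pp 2 0 2
    ndF1q2a ndF1q2b pcF0 Cut.none Ext.none :=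
  certFK0 (fam := false) (s1 := false) (s2 := false) (a := 2) (b := 0) (c := 2) (cn := .pp) (n1 := ndF1q2a) (n2 := ndF1q2b) (pc := pcF0) (cut := Cut.none) (xt := Ext.none) (P1 := 0) (W1 := 536870912) (P2 := 1239849684) (W2 := 370763052) (P3 := 67108864) (W3 := 67108864)
    rfl rfl rfl k0_mm_202_ab

noncomputable def f_mm_202_ba : ℕ → ℕ → ℕ → ℕ → Bool := onCell 1239849684 370763052 0 536870912 67108864 67108864
    (rowFK 0 false false false .pp 2 0 2 (qsf 1239849684 370763052 0 536870912 0) ndF1q2b ndF1q2a pcF0 Cut.none Ext.none)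

def k0_mm_202_ba : ∃ t, chk3 f_mm_202_ba t 1 1 1 = true :=
  ⟨(l 3), by decide +kernel⟩

theorem c_mm_202_ba : CertF 1239849684 370763052 0 536870912 67108864 67108864 false false false .pp 2 0 2
    ndF1q2b ndF1q2a pcF0 Cut.none Ext.none :=
  certFK0 (fam := false) (s1 := false) (s2 := false) (a := 2) (b := 0) (c := 2) (cn := .pp) (n1 := ndF1q2b) (n2 := ndF1q2a) (pc := pcF0) (cut := Cut.none) (xt := Ext.none) (P1 := 1239849684) (W1 := 370763052) (P2 := 0) (W2 := 536870912) (P3 := 67108864) (W3 := 67108864)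
    rfl rfl rfl k0_mm_202_ba

noncomputable def f_mm_202_bb : ℕ → ℕ → ℕ → ℕ → Bool := onCell 1239849684 370763052 1239849684 370763052 67108864 67108864
    (rowFK 0 false false false .pp 2 0 2 (qsf 1239849684 370763052 1239849684 370763052 0) ndF1q2b ndF1q2b pcF0 Cut.none Ext.none)

def k0_mm_202_bb : ∃ t, chk3 f_mm_202_bb t 1 1 1 = true :=
  ⟨(l 3), by decide +kernel⟩

theorem c_mm_202_bb : CertF 1239849684 370763052 1239849684 370763052 67108864 67108864 false false false .pp 2 0 2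
    ndF1q2b ndF1q2b pcF0 Cut.none Ext.none :=
  certFK0 (fam := false) (s1 := false) (s2 := false) (a := 2) (b := 0) (c := 2) (cn := .pp) (n1 := ndF1q2b) (n2 := ndF1q2b) (pc := pcF0) (cut := Cut.none) (xt := Ext.none) (P1 := 1239849684) (W1 := 370763052) (P2 := 1239849684) (W2 := 370763052) (P3 := 67108864) (W3 := 67108864)
    rfl rfl rfl k0_mm_202_bb

noncomputable def f_mm_203_a : ℕ → ℕ → ℕ → ℕ → Bool := onCell 0 536870912 1610612736 536870912 67108864 67108864
    (rowFK 0 false false false .up 2 0 3 (qsf 0 536870912 1610612736 536870912 0) ndF1q2a ndF1q3 pcF0 Cut.none Ext.none)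

def k0_mm_203_a : ∃ t, chk3 f_mm_203_a t 1 1 1 = true :=
  ⟨(l 5), by decide +kernel⟩

theorem c_mm_203_a : CertF 0 536870912 1610612736 536870912 67108864 67108864 false false false .up 2 0 3
    ndF1q2a ndF1q3 pcF0 Cut.none Ext.none :=
  certFK0 (fam := false) (s1 := false) (s2 := false) (a := 2) (b := 0) (c := 3) (cn := .up) (n1 := ndF1q2a) (n2 := ndF1q3) (pc := pcF0) (cut := Cut.none) (xt := Ext.none) (P1 := 0) (W1 := 536870912) (P2 := 1610612736) (W2 := 536870912) (P3 := 67108864) (W3 := 67108864)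
    rfl rfl rfl k0_mm_203_a

noncomputable def f_mm_203_b : ℕ → ℕ → ℕ → ℕ → Bool := onCell 1239849684 370763052 1610612736 536870912 67108864 67108864
    (rowFK 0 false false false .up 2 0 3 (qsf 1239849684 370763052 1610612736 536870912 0) ndF1q2b ndF1q3 pcF0 Cut.none Ext.none)

def k0_mm_203_b : ∃ t, chk3 f_mm_203_b t 1 1 1 = true :=
  ⟨(l 3), by decide +kernel⟩

theorem c_mm_203_b : CertF 1239849684 370763052 1610612736 536870912 67108864 67108864 false false false .up 2 0 3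
    ndF1q2b ndF1q3 pcF0 Cut.none Ext.none :=
  certFK0 (fam := false) (s1 := false) (s2 := false) (a := 2) (b := 0) (c := 3) (cn := .up) (n1 := ndF1q2b) (n2 := ndF1q3) (pc := pcF0) (cut := Cut.none) (xt := Ext.none) (P1 := 1239849684) (W1 := 370763052) (P2 := 1610612736) (W2 := 536870912) (P3 := 67108864) (W3 := 67108864)
    rfl rfl rfl k0_mm_203_b

noncomputable def f_mm_213_a : ℕ → ℕ → ℕ → ℕ → Bool := onCell 0 536870912 1610612736 536870912 67108864 67108864
    (rowFK 0 false false false .pnn 2 1 3 (qsf 0 536870912 1610612736 536870912 1) ndF1q2a ndF1q3 pcF1 Cut.none Ext.none)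

def k0_mm_213_a : ∃ t, chk3 f_mm_213_a t 1 1 1 = true :=
  ⟨(l 5), by decide +kernel⟩

theorem c_mm_213_a : CertF 0 536870912 1610612736 536870912 67108864 67108864 false false false .pnn 2 1 3
    ndF1q2a ndF1q3 pcF1 Cut.none Ext.none :=
  certFK0 (fam := false) (s1 := false) (s2 := false) (a := 2) (b := 1) (c := 3) (cn := .pnn) (n1 := ndF1q2a) (n2 := ndF1q3) (pc := pcF1) (cut := Cut.none) (xt := Ext.none) (P1 := 0) (W1 := 536870912) (P2 := 1610612736) (W2 := 536870912) (P3 := 67108864) (W3 := 67108864)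
    rfl rfl rfl k0_mm_213_a

noncomputable def f_mm_213_b : ℕ → ℕ → ℕ → ℕ → Bool := onCell 1239849684 370763052 1610612736 536870912 67108864 67108864
    (rowFK 0 false false false .pnn 2 1 3 (qsf 1239849684 370763052 1610612736 536870912 1) ndF1q2b ndF1q3 pcF1 Cut.none Ext.none)

def k0_mm_213_b : ∃ t, chk3 f_mm_213_b t 1 1 1 = true :=
  ⟨(l 3), by decide +kernel⟩

theorem c_mm_213_b : CertF 1239849684 370763052 1610612736 536870912 67108864 67108864 false false false .pnn 2 1 3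
    ndF1q2b ndF1q3 pcF1 Cut.none Ext.none :=
  certFK0 (fam := false) (s1 := false) (s2 := false) (a := 2) (b := 1) (c := 3) (cn := .pnn) (n1 := ndF1q2b) (n2 := ndF1q3) (pc := pcF1) (cut := Cut.none) (xt := Ext.none) (P1 := 1239849684) (W1 := 370763052) (P2 := 1610612736) (W2 := 536870912) (P3 := 67108864) (W3 := 67108864)
    rfl rfl rfl k0_mm_213_b

noncomputable def f_mm_303 : ℕ → ℕ → ℕ → ℕ → Bool := onCell 1610612736 536870912 1610612736 536870912 67108864 67108864
    (rowFK 0 false false false .npn 3 0 3 (qsf 1610612736 536870912 1610612736 536870912 0) ndF1q3 ndF1q3 pcF0 Cut.none Ext.none)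

def k0_mm_303 : ∃ t, chk3 f_mm_303 t 1 1 1 = true :=
  ⟨(l 3), by decide +kernel⟩

theorem c_mm_303 : CertF 1610612736 536870912 1610612736 536870912 67108864 67108864 false false false .npn 3 0 3
    ndF1q3 ndF1q3 pcF0 Cut.none Ext.none :=
  certFK0 (fam := false) (s1 := false) (s2 := false) (a := 3) (b := 0) (c := 3) (cn := .npn) (n1 := ndF1q3) (n2 := ndF1q3) (pc := pcF0) (cut := Cut.none) (xt := Ext.none) (P1 := 1610612736) (W1 := 536870912) (P2 := 1610612736) (W2 := 536870912) (P3 := 67108864) (W3 := 67108864)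
    rfl rfl rfl k0_mm_303

noncomputable def f_mm_313 : ℕ → ℕ → ℕ → ℕ → Bool := onCell 1610612736 536870912 1610612736 536870912 67108864 67108864
    (rowFK 0 false false false .dn 3 1 3 (qsf 1610612736 536870912 1610612736 536870912 1) ndF1q3 ndF1q3 pcF1 Cut.none Ext.none)

def k0_mm_313 : ∃ t, chk3 f_mm_313 t 1 1 1 = true :=
  ⟨(l 3), by decide +kernel⟩

theorem c_mm_313 : CertF 1610612736 536870912 1610612736 536870912 67108864 67108864 false false false .dn 3 1 3
    ndF1q3 ndF1q3 pcF1 Cut.none Ext.none :=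
  certFK0 (fam := false) (s1 := false) (s2 := false) (a := 3) (b := 1) (c := 3) (cn := .dn) (n1 := ndF1q3) (n2 := ndF1q3) (pc := pcF1) (cut := Cut.none) (xt := Ext.none) (P1 := 1610612736) (W1 := 536870912) (P2 := 1610612736) (W2 := 536870912) (P3 := 67108864) (W3 := 67108864)
    rfl rfl rfl k0_mm_313

end Pool.Agent.Strip051.G.I1_16_1_8.Tab.C.FB11

namespace Pool.Agent.Strip051.G.I1_16_1_8.Tab.C.FB12

open Pool.Agent.Strip051.PB Pool.Agent.Strip051.PB.T
open Pool.Agent.Strip051.G.I1_16_1_8.Tab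

noncomputable def f_pp_001 : ℕ → ℕ → ℕ → ℕ → Bool := onCell 0 536870912 0 536870912 67108864 67108864
    (rowFK 1 false true true .up 0 0 1 (qsf 0 536870912 536870912 536870912 0) ndF1q0 ndF2q1 pcF0 Cut.none Ext.none)

def k0_pp_001 : ∃ t, chk3 f_pp_001 t 1 1 1 = true :=
  ⟨(l 3), by decide +kernel⟩

theorem c_pp_001 : CertF 0 536870912 536870912 536870912 67108864 67108864 false true true .up 0 0 1
    ndF1q0 ndF2q1 pcF0 Cut.none Ext.none :=
  certFK1 (fam := false) (s1 := true) (s2 := true) (a := 0) (b := 0) (c := 1) (cn := .up) (n1 := ndF1q0) (n2 := ndF2q1) (pc := pcF0) (cut := Cut.none) (xt := Ext.none) (P1 := 0) (W1 := 536870912) (P2 := 536870912) (W2 := 536870912) (P3 := 67108864) (W3 := 67108864)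
    rfl rfl rfl (fun _ => rfl) k0_pp_001

noncomputable def cut_pp_011 : Cut := Cut.of [[⟨0, 0, 0, 67108864⟩, ⟨1, 1, 0, 67108864⟩, ⟨2, 1, 0, 67108864⟩]]

noncomputable def f_pp_011 : ℕ → ℕ → ℕ → ℕ → Bool := onCell 0 536870912 536870912 536870912 67108864 67108864
    (rowFK 1 false true true .pnn 0 1 1 (qsf 0 536870912 536870912 536870912 1) ndF1q0 ndF2q1 pcF1 cut_pp_011 Ext.none)

def k0_pp_011 : ∃ t, chk3 f_pp_011 t 1 1 1 = true :=
  ⟨(a (b (l 3) (a (b (l 3) (a (b (l 3) (a (b (l 3) (l 6)) (l 3))) (l 3))) (l 3))) (l 3)), by decide +kernel⟩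

theorem c_pp_011 : CertF 0 536870912 536870912 536870912 67108864 67108864 false true true .pnn 0 1 1
    ndF1q0 ndF2q1 pcF1 cut_pp_011 Ext.none :=
  certFK1 (fam := false) (s1 := true) (s2 := true) (a := 0) (b := 1) (c := 1) (cn := .pnn) (n1 := ndF1q0) (n2 := ndF2q1) (pc := pcF1) (cut := cut_pp_011) (xt := Ext.none) (P1 := 0) (W1 := 536870912) (P2 := 536870912) (W2 := 536870912) (P3 := 67108864) (W3 := 67108864)
    rfl rfl rfl (fun _ => rfl) k0_pp_011

noncomputable def cut_pp_012_a : Cut := Cut.of [[⟨0, 0, 0, 67108864⟩, ⟨1, 1, 0, 67108864⟩, ⟨2, 1, 0, 67108864⟩]]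

noncomputable def f_pp_012_a : ℕ → ℕ → ℕ → ℕ → Bool := onCell 536870912 536870912 0 536870912 67108864 67108864
    (rowFK 2 false true true .pnp 0 1 2 (qsf 0 536870912 0 536870912 1) ndF1q0 ndF2q2a pcF1 cut_pp_012_a Ext.none)

def k0_pp_012_a : ∃ t, chk3 f_pp_012_a t 1 1 1 = true :=
  ⟨(a (l 3) (a (b (b (l 17219504) (l 17234032)) (b (b (l 17228848) (l 3)) (l 3))) (b (a (l 17281832) (b (l 17425560) (l 17338208))) (b (a (b (l 17082624) (l 17053280)) (b (l 17194616) (a (l 17026992) (a (l 16996160) (l 16902824))))) (b (b (a (l 17040176) (a (l 16972752) (l 16895584))) (a (l 17045648) (a (l 16948488) (b (l 16881440) (l 16932064))))) (a (l 3) (a (b (l 16915208) (l 3)) (b (a (l 16870792) (l 6)) (l 6))))))))), by decide +kernel⟩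

theorem c_pp_012_a : CertF 0 536870912 0 536870912 67108864 67108864 false true true .pnp 0 1 2
    ndF1q0 ndF2q2a pcF1 cut_pp_012_a Ext.none :=
  certFK2 (fam := false) (s1 := true) (s2 := true) (a := 0) (b := 1) (c := 2) (cn := .pnp) (n1 := ndF1q0) (n2 := ndF2q2a) (pc := pcF1) (cut := cut_pp_012_a) (xt := Ext.none) (P1 := 0) (W1 := 536870912) (P2 := 0) (W2 := 536870912) (P3 := 67108864) (W3 := 67108864)
    rfl rfl rfl (fun _ => rfl) k0_pp_012_a

noncomputable def cut_pp_012_b : Cut := Cut.of [[⟨0, 0, 0, 67108864⟩, ⟨1, 1, 0, 67108864⟩, ⟨2, 1, 0, 67108864⟩]]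

noncomputable def f_pp_012_b : ℕ → ℕ → ℕ → ℕ → Bool := onCell 536870912 536870912 1239849684 370763052 67108864 67108864
    (rowFK 2 false true true .pnp 0 1 2 (qsf 0 536870912 1239849684 370763052 1) ndF1q0 ndF2q2b pcF1 cut_pp_012_b Ext.none)

def k0_pp_012_b : ∃ t, chk3 f_pp_012_b t 1 1 1 = true :=
  ⟨(b (a (l 3) (a (b (l 17250488) (l 17170608)) (b (a (l 17275464) (l 17589048)) (l 17622896)))) (a (l 2) (a (l 17335680) (l 17767048)))), by decide +kernel⟩

theorem c_pp_012_b : CertF 0 536870912 1239849684 370763052 67108864 67108864 false true true .pnp 0 1 2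
    ndF1q0 ndF2q2b pcF1 cut_pp_012_b Ext.none :=
  certFK2 (fam := false) (s1 := true) (s2 := true) (a := 0) (b := 1) (c := 2) (cn := .pnp) (n1 := ndF1q0) (n2 := ndF2q2b) (pc := pcF1) (cut := cut_pp_012_b) (xt := Ext.none) (P1 := 0) (W1 := 536870912) (P2 := 1239849684) (W2 := 370763052) (P3 := 67108864) (W3 := 67108864)
    rfl rfl rfl (fun _ => rfl) k0_pp_012_b

noncomputable def cut_pp_022_a : Cut := Cut.of [[⟨0, 0, 0, 67108864⟩, ⟨1, 1, 0, 67108864⟩, ⟨2, 1, 0, 67108864⟩]]

noncomputable def f_pp_022_a : ℕ → ℕ → ℕ → ℕ → Bool := onCell 0 536870912 0 536870912 67108864 67108864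
    (rowFK 0 false true true .pp 0 2 2 (qsf 0 536870912 0 536870912 2) ndF1q0 ndF2q2a pcF2 cut_pp_022_a Ext.none)

def k0_pp_022_a : ∃ t, chk3 f_pp_022_a t 2 2 1 = true :=
  ⟨(a (a (b (a (a (c (l 18436000) (b (l 17683888) (a (l 17622376) (l 17578720)))) (l 17943928)) (l 17822168)) (a (a (b (c (l 18293472) (a (b (l 17264632) (b (l 17364576) (l 17170256))) (l 17398192))) (c (b (l 18145296) (l 17980024)) (a (c (b (l 17453720) (b (l 17314048) (l 17075832))) (a (b (b (l 17029664) (l 16846688)) (b (l 16648408) (l 16578992))) (l 16606120))) (l 16957512)))) (b (l 17768408) (l 17384032))) (b (l 17657640) (a (l 17446248) (l 17396240))))) (b (a (l 17687816) (l 17556696)) (a (b (l 17545904) (a (l 17362008) (b (l 17407096) (l 17278904)))) (b (a (l 17496976) (l 17512072)) (l 17367824))))) (a (b (l 17632600) (b (l 17593496) (l 17547496))) (l 1))), by decide +kernel⟩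

def k1_pp_022_a : ∃ t, chk3 f_pp_022_a t 4 6 1 = true :=
  ⟨(a (a (b (a (a (c (b (b (l 17887440) (l 17584200)) (c (l 17868520) (a (b (l 17243472) (b (l 17112704) (c (l 17282272) (l 16853160)))) (l 17243928)))) (a (a (b (b (c (l 16914416) (l 16587000)) (l 16599520)) (b (b (l 16597208) (l 16600352)) (b (l 16603680) (l 16607200)))) (b (l 16678760) (l 16622544))) (b (l 16713736) (l 16618904)))) (b (l 17115464) (l 16901440))) (b (l 17199464) (l 16899112))) (a (b (a (a (a (a (b (c (c (l 17646216) (c (b (l 17187400) (l 17075056)) (b (l 16766608) (l 16663744)))) (b (l 16611520) (l 16620688))) (c (c (c (l 17619776) (l 17063288)) (b (c (l 16825288) (l 16620728)) (l 16626440))) (b (c (l 16620048) (l 16624376)) (b (l 16622632) (l 16624864))))) (b (l 16616688) (l 16632544))) (b (l 16613912) (l 16620136))) (l 16652408)) (l 16672648)) (a (a (b (a (a (b (c (c (c (l 17441880) (l 16904800)) (l 16633640)) (b (l 16627152) (l 16629504))) (a (b (c (c (c (l 17342592) (l 16855216))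 (l 16633256)) (l 16632200)) (c (l 16635864) (l 16634672))) (l 16633720))) (l 16641920)) (l 16650592)) (a (a (b (b (c (l 16640760) (c (l 16637232) (l 16637272))) (c (l 16643288) (b (l 16638768) (l 16640088)))) (a (b (c (l 16646200) (b (l 16641704) (l 16643048))) (b (c (l 16645464) (l 16644416)) (c (l 16646808) (l 16645792)))) (l 16649328))) (b (l 16637816) (l 16643160))) (l 16661272))) (b (l 16647072) (l 16658096))) (l 16715160))) (a (b (l 16662656) (l 16752040)) (b (l 16648632) (l 16805936))))) (b (a (l 16848392) (b (l 17134176) (l 16888824))) (a (b (a (l 16681328) (l 16708632)) (a (l 16849800) (l 16750864))) (b (a (l 16773616) (l 16779968)) (l 16795056))))) (b (b (a (a (l 17126712) (l 17157736)) (l 17229752)) (l 17036152)) (a (b (l 16856032) (l 16885184)) (l 196529017431)))), by decide +kernel⟩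

def k2_pp_022_a : ∃ t, chk3 f_pp_022_a t 4 7 1 = true :=
  ⟨(b (a (a (b (b (a (a (a (a (a (a (b (b (b (c (l 16648168) (l 16647192)) (c (l 16649544) (l 16648600))) (a (b (c (l 16651104) (l 16650176)) (c (l 16652520) (l 16651784))) (l 16651144))) (b (b (c (l 16653792) (b (l 16652544) (l 16653280))) (c (l 16656552) (b (l 16654024) (l 16654768)))) (c (c (l 16660416) (b (l 16656520) (l 16658016))) (b (b (l 16655520) (l 16656272)) (c (l 16657640) (l 16657264)))))) (b (l 16654944) (l 16660856))) (b (l 16648792) (l 16675704))) (l 16673336)) (l 16691616)) (l 16718160)) (a (l 16727904) (l 16752440))) (b (b (b (b (a (a (a (a (a (a (a (c (l 16659440) (l 16658704)) (l 16658752)) (l 16658272)) (l 16657312)) (l 16655424)) (l 16652920)) (l 16673448)) (l 16810536)) (l 6)) (l 6)) (l 6)) (l 6))) (l 6)) (b (a (l 16767512) (l 16825472)) (b (l 16910744) (a (l 6) (l 16873960))))) (a (b (l 168611504135) (l 1)) (l 1))) (a (a (l 6) (a (l 6) (l 1))) (l 1))), by decide +kernel⟩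

def k3_pp_022_a : ∃ t, chk3 f_pp_022_a t 5 3 1 = true :=
  ⟨(b (l 1) (l 1)), by decide +kernel⟩

def k4_pp_022_a : ∃ t, chk3 f_pp_022_a t 3 1 1 = true :=
  ⟨(l 1), by decide +kernel⟩

theorem s5_pp_022_a : ∃ t, chk3 f_pp_022_a t 4 3 1 = true := ex3_b k1_pp_022_a k2_pp_022_a

theorem s6_pp_022_a : ∃ t, chk3 f_pp_022_a t 2 3 1 = true := ex3_a s5_pp_022_a k3_pp_022_a

theorem s7_pp_022_a : ∃ t, chk3 f_pp_022_a t 2 1 1 = true := ex3_b k0_pp_022_a s6_pp_022_a

theorem s8_pp_022_a : ∃ t, chk3 f_pp_022_a t 1 1 1 = true := ex3_a s7_pp_022_a k4_pp_022_a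

theorem c_pp_022_a : CertF 0 536870912 0 536870912 67108864 67108864 false true true .pp 0 2 2
    ndF1q0 ndF2q2a pcF2 cut_pp_022_a Ext.none :=
  certFK0 (fam := false) (s1 := true) (s2 := true) (a := 0) (b := 2) (c := 2) (cn := .pp) (n1 := ndF1q0) (n2 := ndF2q2a) (pc := pcF2) (cut := cut_pp_022_a) (xt := Ext.none) (P1 := 0) (W1 := 536870912) (P2 := 0) (W2 := 536870912) (P3 := 67108864) (W3 := 67108864)
    rfl rfl rfl s8_pp_022_a

noncomputable def cut_pp_022_b : Cut := Cut.of [[⟨0, 0, 0, 67108864⟩, ⟨1, 1, 0, 67108864⟩, ⟨2, 1, 0, 67108864⟩]]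

noncomputable def f_pp_022_b : ℕ → ℕ → ℕ → ℕ → Bool := onCell 1073741824 536870912 1239849684 370763052 67108864 67108864
    (rowFK 2 false true true .pp 0 2 2 (qsf 0 536870912 1239849684 370763052 2) ndF1q0 ndF2q2b pcF2 cut_pp_022_b Ext.none)

def k0_pp_022_b : ∃ t, chk3 f_pp_022_b t 1 1 1 = true :=
  ⟨(a (b (a (a (a (l 17965424) (b (l 17877016) (l 18071312))) (b (b (a (l 17885304) (l 18015752)) (l 18076552)) (l 18155296))) (b (b (a (a (b (a (l 18076592) (l 273303123367)) (l 18213648)) (b (a (a (l 493957604199) (l 485904723191)) (l 469798689527)) (l 18336816))) (a (l 495568777063) (l 1))) (a (l 18338480) (b (l 256124634807) (l 18605376)))) (a (l 18331400) (l 18509784)))) (a (a (a (l 18139248) (l 18133944)) (l 18151816)) (l 18339104))) (b (a (b (l 1) (a (l 548182568343) (b (l 1) (l 599185995111)))) (l 1)) (a (b (l 18528408) (l 18336984)) (b (a (l 625492057015) (l 1)) (l 18524944))))), by decide +kernel⟩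

theorem c_pp_022_b : CertF 0 536870912 1239849684 370763052 67108864 67108864 false true true .pp 0 2 2
    ndF1q0 ndF2q2b pcF2 cut_pp_022_b Ext.none :=
  certFK2 (fam := false) (s1 := true) (s2 := true) (a := 0) (b := 2) (c := 2) (cn := .pp) (n1 := ndF1q0) (n2 := ndF2q2b) (pc := pcF2) (cut := cut_pp_022_b) (xt := Ext.none) (P1 := 0) (W1 := 536870912) (P2 := 1239849684) (W2 := 370763052) (P3 := 67108864) (W3 := 67108864)
    rfl rfl rfl (fun _ => rfl) k0_pp_022_b

noncomputable def f_pp_023 : ℕ → ℕ → ℕ → ℕ → Bool := onCell 0 536870912 1073741824 536870912 67108864 67108864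
    (rowFK 1 false true true .up 0 2 3 (qsf 0 536870912 1610612736 536870912 2) ndF1q0 ndF2q3 pcF2 Cut.none Ext.none)

def k0_pp_023 : ∃ t, chk3 f_pp_023 t 1 1 1 = true :=
  ⟨(a (b (b (l 1) (a (l 1) (l 481610844455))) (b (a (l 537983130343) (l 18700184)) (a (l 400008113335) (l 18631064)))) (b (b (b (b (l 18510424) (l 380678431799)) (l 432217811831)) (a (l 18102144) (l 17739328))) (b (a (l 18152872) (l 17888584)) (a (l 18101072) (l 17852088))))), by decide +kernel⟩

theorem c_pp_023 : CertF 0 536870912 1610612736 536870912 67108864 67108864 false true true .up 0 2 3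
    ndF1q0 ndF2q3 pcF2 Cut.none Ext.none :=
  certFK1 (fam := false) (s1 := true) (s2 := true) (a := 0) (b := 2) (c := 3) (cn := .up) (n1 := ndF1q0) (n2 := ndF2q3) (pc := pcF2) (cut := Cut.none) (xt := Ext.none) (P1 := 0) (W1 := 536870912) (P2 := 1610612736) (W2 := 536870912) (P3 := 67108864) (W3 := 67108864)
    rfl rfl rfl (fun _ => rfl) k0_pp_023

noncomputable def f_pp_033 : ℕ → ℕ → ℕ → ℕ → Bool := onCell 0 536870912 1610612736 536870912 67108864 67108864
    (rowFK 0 false true true .pnn 0 3 3 (qsf 0 536870912 1610612736 536870912 3) ndF1q0 ndF2q3 pcF3 Cut.none Ext.none)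

def k0_pp_033 : ∃ t, chk3 f_pp_033 t 1 1 1 = true :=
  ⟨(a (b (b (a (b (a (l 18984880) (l 18449136)) (a (l 18557296) (l 18086648))) (b (l 1) (l 17518624))) (a (b (l 18363360) (l 18515608)) (b (l 17569864) (l 17730160)))) (b (a (a (b (l 18438400) (l 18031240)) (b (l 18225552) (l 18089688))) (b (l 17855384) (l 18030728))) (a (l 4) (b (a (l 4) (l 17755632)) (l 4))))) (b (a (b (l 1) (b (l 1) (l 17141024))) (l 1)) (b (a (b (l 17371496) (l 17582296)) (b (l 1) (l 17259488))) (a (b (l 17824496) (l 4)) (b (l 17526200) (l 17717752)))))), by decide +kernel⟩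

theorem c_pp_033 : CertF 0 536870912 1610612736 536870912 67108864 67108864 false true true .pnn 0 3 3
    ndF1q0 ndF2q3 pcF3 Cut.none Ext.none :=
  certFK0 (fam := false) (s1 := true) (s2 := true) (a := 0) (b := 3) (c := 3) (cn := .pnn) (n1 := ndF1q0) (n2 := ndF2q3) (pc := pcF3) (cut := Cut.none) (xt := Ext.none) (P1 := 0) (W1 := 536870912) (P2 := 1610612736) (W2 := 536870912) (P3 := 67108864) (W3 := 67108864)
    rfl rfl rfl k0_pp_033

noncomputable def f_pp_101 : ℕ → ℕ → ℕ → ℕ → Bool := onCell 536870912 536870912 536870912 536870912 67108864 67108864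
    (rowFK 0 false true true .npn 1 0 1 (qsf 536870912 536870912 536870912 536870912 0) ndF1q1 ndF2q1 pcF0 Cut.none Ext.none)

def k0_pp_101 : ∃ t, chk3 f_pp_101 t 1 1 1 = true :=
  ⟨(l 3), by decide +kernel⟩

theorem c_pp_101 : CertF 536870912 536870912 536870912 536870912 67108864 67108864 false true true .npn 1 0 1
    ndF1q1 ndF2q1 pcF0 Cut.none Ext.none :=
  certFK0 (fam := false) (s1 := true) (s2 := true) (a := 1) (b := 0) (c := 1) (cn := .npn) (n1 := ndF1q1) (n2 := ndF2q1) (pc := pcF0) (cut := Cut.none) (xt := Ext.none) (P1 := 536870912) (W1 := 536870912) (P2 := 536870912) (W2 := 536870912) (P3 := 67108864) (W3 := 67108864)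
    rfl rfl rfl k0_pp_101

noncomputable def f_pp_102_a : ℕ → ℕ → ℕ → ℕ → Bool := onCell 536870912 536870912 0 536870912 67108864 67108864
    (rowFK 0 false true true .npp 1 0 2 (qsf 536870912 536870912 0 536870912 0) ndF1q1 ndF2q2a pcF0 Cut.none Ext.none)

def k0_pp_102_a : ∃ t, chk3 f_pp_102_a t 1 1 1 = true :=
  ⟨(l 3), by decide +kernel⟩

theorem c_pp_102_a : CertF 536870912 536870912 0 536870912 67108864 67108864 false true true .npp 1 0 2
    ndF1q1 ndF2q2a pcF0 Cut.none Ext.none :=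
  certFK0 (fam := false) (s1 := true) (s2 := true) (a := 1) (b := 0) (c := 2) (cn := .npp) (n1 := ndF1q1) (n2 := ndF2q2a) (pc := pcF0) (cut := Cut.none) (xt := Ext.none) (P1 := 536870912) (W1 := 536870912) (P2 := 0) (W2 := 536870912) (P3 := 67108864) (W3 := 67108864)
    rfl rfl rfl k0_pp_102_a

noncomputable def f_pp_102_b : ℕ → ℕ → ℕ → ℕ → Bool := onCell 536870912 536870912 0 536870912 67108864 67108864
    (rowFK 1 false true true .npp 1 0 2 (qsf 536870912 536870912 1239849684 370763052 0) ndF1q1 ndF2q2b pcF0 Cut.none Ext.none)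

def k0_pp_102_b : ∃ t, chk3 f_pp_102_b t 1 1 1 = true :=
  ⟨(l 3), by decide +kernel⟩

theorem c_pp_102_b : CertF 536870912 536870912 1239849684 370763052 67108864 67108864 false true true .npp 1 0 2
    ndF1q1 ndF2q2b pcF0 Cut.none Ext.none :=
  certFK1 (fam := false) (s1 := true) (s2 := true) (a := 1) (b := 0) (c := 2) (cn := .npp) (n1 := ndF1q1) (n2 := ndF2q2b) (pc := pcF0) (cut := Cut.none) (xt := Ext.none) (P1 := 536870912) (W1 := 536870912) (P2 := 1239849684) (W2 := 370763052) (P3 := 67108864) (W3 := 67108864)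
    rfl rfl rfl (fun _ => rfl) k0_pp_102_b

noncomputable def f_pp_112_a : ℕ → ℕ → ℕ → ℕ → Bool := onCell 536870912 536870912 0 536870912 67108864 67108864
    (rowFK 0 false true true .dn 1 1 2 (qsf 536870912 536870912 0 536870912 1) ndF1q1 ndF2q2a pcF1 Cut.none Ext.none)

def k0_pp_112_a : ∃ t, chk3 f_pp_112_a t 1 1 1 = true :=
  ⟨(l 3), by decide +kernel⟩

theorem c_pp_112_a : CertF 536870912 536870912 0 536870912 67108864 67108864 false true true .dn 1 1 2
    ndF1q1 ndF2q2a pcF1 Cut.none Ext.none :=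
  certFK0 (fam := false) (s1 := true) (s2 := true) (a := 1) (b := 1) (c := 2) (cn := .dn) (n1 := ndF1q1) (n2 := ndF2q2a) (pc := pcF1) (cut := Cut.none) (xt := Ext.none) (P1 := 536870912) (W1 := 536870912) (P2 := 0) (W2 := 536870912) (P3 := 67108864) (W3 := 67108864)
    rfl rfl rfl k0_pp_112_a

noncomputable def f_pp_112_b : ℕ → ℕ → ℕ → ℕ → Bool := onCell 536870912 536870912 1239849684 370763052 67108864 67108864
    (rowFK 2 false true true .dn 1 1 2 (qsf 536870912 536870912 1239849684 370763052 1) ndF1q1 ndF2q2b pcF1 Cut.none Ext.none)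

def k0_pp_112_b : ∃ t, chk3 f_pp_112_b t 1 1 1 = true :=
  ⟨(a (a (l 3) (b (l 3) (l 595021839831))) (a (b (a (l 250216297703) (l 248605769271)) (l 17480504)) (b (l 1) (l 18266136)))), by decide +kernel⟩

theorem c_pp_112_b : CertF 536870912 536870912 1239849684 370763052 67108864 67108864 false true true .dn 1 1 2
    ndF1q1 ndF2q2b pcF1 Cut.none Ext.none :=
  certFK2 (fam := false) (s1 := true) (s2 := true) (a := 1) (b := 1) (c := 2) (cn := .dn) (n1 := ndF1q1) (n2 := ndF2q2b) (pc := pcF1) (cut := Cut.none) (xt := Ext.none) (P1 := 536870912) (W1 := 536870912) (P2 := 1239849684) (W2 := 370763052) (P3 := 67108864) (W3 := 67108864)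
    rfl rfl rfl (fun _ => rfl) k0_pp_112_b

noncomputable def f_pp_113 : ℕ → ℕ → ℕ → ℕ → Bool := onCell 536870912 536870912 536870912 536870912 67108864 67108864
    (rowFK 1 false true true .nn 1 1 3 (qsf 536870912 536870912 1610612736 536870912 1) ndF1q1 ndF2q3 pcF1 Cut.none Ext.none)

def k0_pp_113 : ∃ t, chk3 f_pp_113 t 1 1 1 = true :=
  ⟨(b (b (l 3) (a (a (l 1) (l 417185542167)) (a (l 289008044103) (b (l 3) (l 18327200))))) (a (b (a (l 417721556071) (l 304442012919)) (a (l 406446925847) (b (l 17415840) (l 17314264)))) (b (a (b (l 17959824) (l 17593000)) (b (l 17960224) (l 17549272))) (a (b (l 17169448) (l 17412992)) (b (l 17109608) (b (l 17077592) (l 17232680))))))), by decide +kernel⟩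

theorem c_pp_113 : CertF 536870912 536870912 1610612736 536870912 67108864 67108864 false true true .nn 1 1 3
    ndF1q1 ndF2q3 pcF1 Cut.none Ext.none :=
  certFK1 (fam := false) (s1 := true) (s2 := true) (a := 1) (b := 1) (c := 3) (cn := .nn) (n1 := ndF1q1) (n2 := ndF2q3) (pc := pcF1) (cut := Cut.none) (xt := Ext.none) (P1 := 536870912) (W1 := 536870912) (P2 := 1610612736) (W2 := 536870912) (P3 := 67108864) (W3 := 67108864)
    rfl rfl rfl (fun _ => rfl) k0_pp_113

noncomputable def f_pp_123 : ℕ → ℕ → ℕ → ℕ → Bool := onCell 1073741824 536870912 1610612736 536870912 67108864 67108864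
    (rowFK 2 false true true .npn 1 2 3 (qsf 536870912 536870912 1610612736 536870912 2) ndF1q1 ndF2q3 pcF2 Cut.none Ext.none)

def k0_pp_123 : ∃ t, chk3 f_pp_123 t 1 1 1 = true :=
  ⟨(a (b (a (a (a (l 17651272) (l 17764264)) (l 18018624)) (l 408058657767)) (a (b (l 18010344) (l 17769600)) (l 30102008407))) (b (b (l 1) (l 454766672055)) (a (l 18452336) (l 18344528)))), by decide +kernel⟩

theorem c_pp_123 : CertF 536870912 536870912 1610612736 536870912 67108864 67108864 false true true .npn 1 2 3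
    ndF1q1 ndF2q3 pcF2 Cut.none Ext.none :=
  certFK2 (fam := false) (s1 := true) (s2 := true) (a := 1) (b := 2) (c := 3) (cn := .npn) (n1 := ndF1q1) (n2 := ndF2q3) (pc := pcF2) (cut := Cut.none) (xt := Ext.none) (P1 := 536870912) (W1 := 536870912) (P2 := 1610612736) (W2 := 536870912) (P3 := 67108864) (W3 := 67108864)
    rfl rfl rfl (fun _ => rfl) k0_pp_123

noncomputable def f_pp_133 : ℕ → ℕ → ℕ → ℕ → Bool := onCell 1610612736 536870912 1610612736 536870912 67108864 67108864
    (rowFK 2 false true true .dn 1 3 3 (qsf 536870912 536870912 1610612736 536870912 3) ndF1q1 ndF2q3 pcF3 Cut.none Ext.none)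

def k0_pp_133 : ∃ t, chk3 f_pp_133 t 1 1 1 = true :=
  ⟨(a (b (l 1) (a (b (l 1) (l 17958656)) (l 1))) (l 1)), by decide +kernel⟩

theorem c_pp_133 : CertF 536870912 536870912 1610612736 536870912 67108864 67108864 false true true .dn 1 3 3
    ndF1q1 ndF2q3 pcF3 Cut.none Ext.none :=
  certFK2 (fam := false) (s1 := true) (s2 := true) (a := 1) (b := 3) (c := 3) (cn := .dn) (n1 := ndF1q1) (n2 := ndF2q3) (pc := pcF3) (cut := Cut.none) (xt := Ext.none) (P1 := 536870912) (W1 := 536870912) (P2 := 1610612736) (W2 := 536870912) (P3 := 67108864) (W3 := 67108864)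
    rfl rfl rfl (fun _ => rfl) k0_pp_133

noncomputable def f_pp_202_aa : ℕ → ℕ → ℕ → ℕ → Bool := onCell 0 536870912 0 536870912 67108864 67108864
    (rowFK 0 false true true .pp 2 0 2 (qsf 0 536870912 0 536870912 0) ndF1q2a ndF2q2a pcF0 Cut.none Ext.none)

def k0_pp_202_aa : ∃ t, chk3 f_pp_202_aa t 1 1 1 = true :=
  ⟨(l 3), by decide +kernel⟩

theorem c_pp_202_aa : CertF 0 536870912 0 536870912 67108864 67108864 false true true .pp 2 0 2
    ndF1q2a ndF2q2a pcF0 Cut.none Ext.none :=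
  certFK0 (fam := false) (s1 := true) (s2 := true) (a := 2) (b := 0) (c := 2) (cn := .pp) (n1 := ndF1q2a) (n2 := ndF2q2a) (pc := pcF0) (cut := Cut.none) (xt := Ext.none) (P1 := 0) (W1 := 536870912) (P2 := 0) (W2 := 536870912) (P3 := 67108864) (W3 := 67108864)
    rfl rfl rfl k0_pp_202_aa

noncomputable def f_pp_202_ab : ℕ → ℕ → ℕ → ℕ → Bool := onCell 0 536870912 1239849684 370763052 67108864 67108864
    (rowFK 0 false true true .pp 2 0 2 (qsf 0 536870912 1239849684 370763052 0) ndF1q2a ndF2q2b pcF0 Cut.none Ext.none)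

def k0_pp_202_ab : ∃ t, chk3 f_pp_202_ab t 1 1 1 = true :=
  ⟨(l 3), by decide +kernel⟩

theorem c_pp_202_ab : CertF 0 536870912 1239849684 370763052 67108864 67108864 false true true .pp 2 0 2
    ndF1q2a ndF2q2b pcF0 Cut.none Ext.none :=
  certFK0 (fam := false) (s1 := true) (s2 := true) (a := 2) (b := 0) (c := 2) (cn := .pp) (n1 := ndF1q2a) (n2 := ndF2q2b) (pc := pcF0) (cut := Cut.none) (xt := Ext.none) (P1 := 0) (W1 := 536870912) (P2 := 1239849684) (W2 := 370763052) (P3 := 67108864) (W3 := 67108864)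
    rfl rfl rfl k0_pp_202_ab

noncomputable def f_pp_202_ba : ℕ → ℕ → ℕ → ℕ → Bool := onCell 1239849684 370763052 0 536870912 67108864 67108864
    (rowFK 0 false true true .pp 2 0 2 (qsf 1239849684 370763052 0 536870912 0) ndF1q2b ndF2q2a pcF0 Cut.none Ext.none)

def k0_pp_202_ba : ∃ t, chk3 f_pp_202_ba t 1 1 1 = true :=
  ⟨(l 3), by decide +kernel⟩

theorem c_pp_202_ba : CertF 1239849684 370763052 0 536870912 67108864 67108864 false true true .pp 2 0 2
    ndF1q2b ndF2q2a pcF0 Cut.none Ext.none :=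
  certFK0 (fam := false) (s1 := true) (s2 := true) (a := 2) (b := 0) (c := 2) (cn := .pp) (n1 := ndF1q2b) (n2 := ndF2q2a) (pc := pcF0) (cut := Cut.none) (xt := Ext.none) (P1 := 1239849684) (W1 := 370763052) (P2 := 0) (W2 := 536870912) (P3 := 67108864) (W3 := 67108864)
    rfl rfl rfl k0_pp_202_ba

noncomputable def f_pp_202_bb : ℕ → ℕ → ℕ → ℕ → Bool := onCell 1239849684 370763052 1239849684 370763052 67108864 67108864
    (rowFK 0 false true true .pp 2 0 2 (qsf 1239849684 370763052 1239849684 370763052 0) ndF1q2b ndF2q2b pcF0 Cut.none Ext.none)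

def k0_pp_202_bb : ∃ t, chk3 f_pp_202_bb t 1 1 1 = true :=
  ⟨(l 3), by decide +kernel⟩

theorem c_pp_202_bb : CertF 1239849684 370763052 1239849684 370763052 67108864 67108864 false true true .pp 2 0 2
    ndF1q2b ndF2q2b pcF0 Cut.none Ext.none :=
  certFK0 (fam := false) (s1 := true) (s2 := true) (a := 2) (b := 0) (c := 2) (cn := .pp) (n1 := ndF1q2b) (n2 := ndF2q2b) (pc := pcF0) (cut := Cut.none) (xt := Ext.none) (P1 := 1239849684) (W1 := 370763052) (P2 := 1239849684) (W2 := 370763052) (P3 := 67108864) (W3 := 67108864)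
    rfl rfl rfl k0_pp_202_bb

noncomputable def f_pp_203_a : ℕ → ℕ → ℕ → ℕ → Bool := onCell 0 536870912 0 536870912 67108864 67108864
    (rowFK 1 false true true .up 2 0 3 (qsf 0 536870912 1610612736 536870912 0) ndF1q2a ndF2q3 pcF0 Cut.none Ext.none)

def k0_pp_203_a : ∃ t, chk3 f_pp_203_a t 1 1 1 = true :=
  ⟨(l 3), by decide +kernel⟩

theorem c_pp_203_a : CertF 0 536870912 1610612736 536870912 67108864 67108864 false true true .up 2 0 3
    ndF1q2a ndF2q3 pcF0 Cut.none Ext.none :=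
  certFK1 (fam := false) (s1 := true) (s2 := true) (a := 2) (b := 0) (c := 3) (cn := .up) (n1 := ndF1q2a) (n2 := ndF2q3) (pc := pcF0) (cut := Cut.none) (xt := Ext.none) (P1 := 0) (W1 := 536870912) (P2 := 1610612736) (W2 := 536870912) (P3 := 67108864) (W3 := 67108864)
    rfl rfl rfl (fun _ => rfl) k0_pp_203_a

noncomputable def f_pp_203_b : ℕ → ℕ → ℕ → ℕ → Bool := onCell 1239849684 370763052 1610612736 536870912 67108864 67108864
    (rowFK 0 false true true .up 2 0 3 (qsf 1239849684 370763052 1610612736 536870912 0) ndF1q2b ndF2q3 pcF0 Cut.none Ext.none)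

def k0_pp_203_b : ∃ t, chk3 f_pp_203_b t 1 1 1 = true :=
  ⟨(l 3), by decide +kernel⟩

theorem c_pp_203_b : CertF 1239849684 370763052 1610612736 536870912 67108864 67108864 false true true .up 2 0 3
    ndF1q2b ndF2q3 pcF0 Cut.none Ext.none :=
  certFK0 (fam := false) (s1 := true) (s2 := true) (a := 2) (b := 0) (c := 3) (cn := .up) (n1 := ndF1q2b) (n2 := ndF2q3) (pc := pcF0) (cut := Cut.none) (xt := Ext.none) (P1 := 1239849684) (W1 := 370763052) (P2 := 1610612736) (W2 := 536870912) (P3 := 67108864) (W3 := 67108864)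
    rfl rfl rfl k0_pp_203_b

noncomputable def cut_pp_213_a : Cut := Cut.of [[⟨0, 1, 0, 21338704⟩, ⟨1, 1, 0, 21338704⟩, ⟨2, 2, 0, 1685920⟩]]

noncomputable def f_pp_213_a : ℕ → ℕ → ℕ → ℕ → Bool := onCell 0 536870912 1610612736 536870912 67108864 67108864
    (rowFK 0 false true true .pnn 2 1 3 (qsf 0 536870912 1610612736 536870912 1) ndF1q2a ndF2q3 pcF1 cut_pp_213_a Ext.none)

def k0_pp_213_a : ∃ t, chk3 f_pp_213_a t 1 1 1 = true :=
  ⟨(b (l 3) (b (l 3) (a (l 3) (a (l 3) (b (l 3) (b (l 3) (a (l 3) (b (l 3) (a (l 3) (b (l 3) (a (l 3) (b (l 3) (b (l 3) (b (l 3) (l 6))))))))))))))), by decide +kernel⟩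

theorem c_pp_213_a : CertF 0 536870912 1610612736 536870912 67108864 67108864 false true true .pnn 2 1 3
    ndF1q2a ndF2q3 pcF1 cut_pp_213_a Ext.none :=
  certFK0 (fam := false) (s1 := true) (s2 := true) (a := 2) (b := 1) (c := 3) (cn := .pnn) (n1 := ndF1q2a) (n2 := ndF2q3) (pc := pcF1) (cut := cut_pp_213_a) (xt := Ext.none) (P1 := 0) (W1 := 536870912) (P2 := 1610612736) (W2 := 536870912) (P3 := 67108864) (W3 := 67108864)
    rfl rfl rfl k0_pp_213_a

noncomputable def cut_pp_213_b : Cut := Cut.of [[⟨0, 1, 0, 21338704⟩, ⟨1, 1, 0, 21338704⟩, ⟨2, 2, 0, 1685920⟩]]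

noncomputable def f_pp_213_b : ℕ → ℕ → ℕ → ℕ → Bool := onCell 1239849684 370763052 1610612736 536870912 67108864 67108864
    (rowFK 0 false true true .pnn 2 1 3 (qsf 1239849684 370763052 1610612736 536870912 1) ndF1q2b ndF2q3 pcF1 cut_pp_213_b Ext.none)

def k0_pp_213_b : ∃ t, chk3 f_pp_213_b t 1 1 1 = true :=
  ⟨(l 3), by decide +kernel⟩

theorem c_pp_213_b : CertF 1239849684 370763052 1610612736 536870912 67108864 67108864 false true true .pnn 2 1 3
    ndF1q2b ndF2q3 pcF1 cut_pp_213_b Ext.none :=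
  certFK0 (fam := false) (s1 := true) (s2 := true) (a := 2) (b := 1) (c := 3) (cn := .pnn) (n1 := ndF1q2b) (n2 := ndF2q3) (pc := pcF1) (cut := cut_pp_213_b) (xt := Ext.none) (P1 := 1239849684) (W1 := 370763052) (P2 := 1610612736) (W2 := 536870912) (P3 := 67108864) (W3 := 67108864)
    rfl rfl rfl k0_pp_213_b

noncomputable def f_pp_303 : ℕ → ℕ → ℕ → ℕ → Bool := onCell 1610612736 536870912 1610612736 536870912 67108864 67108864
    (rowFK 0 false true true .npn 3 0 3 (qsf 1610612736 536870912 1610612736 536870912 0) ndF1q3 ndF2q3 pcF0 Cut.none Ext.none)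

def k0_pp_303 : ∃ t, chk3 f_pp_303 t 1 1 1 = true :=
  ⟨(l 3), by decide +kernel⟩

theorem c_pp_303 : CertF 1610612736 536870912 1610612736 536870912 67108864 67108864 false true true .npn 3 0 3
    ndF1q3 ndF2q3 pcF0 Cut.none Ext.none :=
  certFK0 (fam := false) (s1 := true) (s2 := true) (a := 3) (b := 0) (c := 3) (cn := .npn) (n1 := ndF1q3) (n2 := ndF2q3) (pc := pcF0) (cut := Cut.none) (xt := Ext.none) (P1 := 1610612736) (W1 := 536870912) (P2 := 1610612736) (W2 := 536870912) (P3 := 67108864) (W3 := 67108864)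
    rfl rfl rfl k0_pp_303

noncomputable def f_pp_313 : ℕ → ℕ → ℕ → ℕ → Bool := onCell 1610612736 536870912 1610612736 536870912 67108864 67108864
    (rowFK 0 false true true .dn 3 1 3 (qsf 1610612736 536870912 1610612736 536870912 1) ndF1q3 ndF2q3 pcF1 Cut.none Ext.none)

def k0_pp_313 : ∃ t, chk3 f_pp_313 t 1 1 1 = true :=
  ⟨(l 3), by decide +kernel⟩

theorem c_pp_313 : CertF 1610612736 536870912 1610612736 536870912 67108864 67108864 false true true .dn 3 1 3
    ndF1q3 ndF2q3 pcF1 Cut.none Ext.none :=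
  certFK0 (fam := false) (s1 := true) (s2 := true) (a := 3) (b := 1) (c := 3) (cn := .dn) (n1 := ndF1q3) (n2 := ndF2q3) (pc := pcF1) (cut := Cut.none) (xt := Ext.none) (P1 := 1610612736) (W1 := 536870912) (P2 := 1610612736) (W2 := 536870912) (P3 := 67108864) (W3 := 67108864)
    rfl rfl rfl k0_pp_313

noncomputable def f_pm_001 : ℕ → ℕ → ℕ → ℕ → Bool := onCell 0 536870912 536870912 536870912 67108864 67108864
    (rowFK 0 false true false .up 0 0 1 (qsf 0 536870912 536870912 536870912 0) ndF1q0 ndF2q1 pcF0 Cut.none Ext.none)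

def k0_pm_001 : ∃ t, chk3 f_pm_001 t 1 1 1 = true :=
  ⟨(l 4), by decide +kernel⟩

theorem c_pm_001 : CertF 0 536870912 536870912 536870912 67108864 67108864 false true false .up 0 0 1
    ndF1q0 ndF2q1 pcF0 Cut.none Ext.none :=
  certFK0 (fam := false) (s1 := true) (s2 := false) (a := 0) (b := 0) (c := 1) (cn := .up) (n1 := ndF1q0) (n2 := ndF2q1) (pc := pcF0) (cut := Cut.none) (xt := Ext.none) (P1 := 0) (W1 := 536870912) (P2 := 536870912) (W2 := 536870912) (P3 := 67108864) (W3 := 67108864)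
    rfl rfl rfl k0_pm_001

noncomputable def f_pm_011 : ℕ → ℕ → ℕ → ℕ → Bool := onCell 0 536870912 536870912 536870912 67108864 67108864
    (rowFK 0 false true false .pnn 0 1 1 (qsf 0 536870912 536870912 536870912 1) ndF1q0 ndF2q1 pcF1 Cut.none Ext.none)

def k0_pm_011 : ∃ t, chk3 f_pm_011 t 1 1 1 = true :=
  ⟨(l 4), by decide +kernel⟩

theorem c_pm_011 : CertF 0 536870912 536870912 536870912 67108864 67108864 false true false .pnn 0 1 1
    ndF1q0 ndF2q1 pcF1 Cut.none Ext.none :=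
  certFK0 (fam := false) (s1 := true) (s2 := false) (a := 0) (b := 1) (c := 1) (cn := .pnn) (n1 := ndF1q0) (n2 := ndF2q1) (pc := pcF1) (cut := Cut.none) (xt := Ext.none) (P1 := 0) (W1 := 536870912) (P2 := 536870912) (W2 := 536870912) (P3 := 67108864) (W3 := 67108864)
    rfl rfl rfl k0_pm_011

noncomputable def cut_pm_012_a : Cut := Cut.of [[⟨0, 0, 0, 67108864⟩, ⟨1, 1, 0, 67108864⟩, ⟨2, 1, 0, 67108864⟩]]

noncomputable def f_pm_012_a : ℕ → ℕ → ℕ → ℕ → Bool := onCell 0 536870912 0 536870912 67108864 67108864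
    (rowFK 0 false true false .pnp 0 1 2 (qsf 0 536870912 0 536870912 1) ndF1q0 ndF2q2a pcF1 cut_pm_012_a Ext.none)

def k0_pm_012_a : ∃ t, chk3 f_pm_012_a t 1 1 1 = true :=
  ⟨(a (b (l 4) (a (b (l 4) (a (b (l 4) (a (l 6) (l 4))) (l 4))) (l 4))) (b (l 4) (l 4))), by decide +kernel⟩

theorem c_pm_012_a : CertF 0 536870912 0 536870912 67108864 67108864 false true false .pnp 0 1 2
    ndF1q0 ndF2q2a pcF1 cut_pm_012_a Ext.none :=
  certFK0 (fam := false) (s1 := true) (s2 := false) (a := 0) (b := 1) (c := 2) (cn := .pnp) (n1 := ndF1q0) (n2 := ndF2q2a) (pc := pcF1) (cut := cut_pm_012_a) (xt := Ext.none) (P1 := 0) (W1 := 536870912) (P2 := 0) (W2 := 536870912) (P3 := 67108864) (W3 := 67108864)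
    rfl rfl rfl k0_pm_012_a

noncomputable def cut_pm_012_b : Cut := Cut.of [[⟨0, 0, 0, 67108864⟩, ⟨1, 1, 0, 67108864⟩, ⟨2, 1, 0, 67108864⟩]]

noncomputable def f_pm_012_b : ℕ → ℕ → ℕ → ℕ → Bool := onCell 0 536870912 1239849684 370763052 67108864 67108864
    (rowFK 0 false true false .pnp 0 1 2 (qsf 0 536870912 1239849684 370763052 1) ndF1q0 ndF2q2b pcF1 cut_pm_012_b Ext.none)

def k0_pm_012_b : ∃ t, chk3 f_pm_012_b t 1 1 1 = true :=
  ⟨(a (l 4) (l 4)), by decide +kernel⟩

theorem c_pm_012_b : CertF 0 536870912 1239849684 370763052 67108864 67108864 false true false .pnp 0 1 2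
    ndF1q0 ndF2q2b pcF1 cut_pm_012_b Ext.none :=
  certFK0 (fam := false) (s1 := true) (s2 := false) (a := 0) (b := 1) (c := 2) (cn := .pnp) (n1 := ndF1q0) (n2 := ndF2q2b) (pc := pcF1) (cut := cut_pm_012_b) (xt := Ext.none) (P1 := 0) (W1 := 536870912) (P2 := 1239849684) (W2 := 370763052) (P3 := 67108864) (W3 := 67108864)
    rfl rfl rfl k0_pm_012_b

noncomputable def cut_pm_022_a : Cut := Cut.of [[⟨0, 0, 0, 67108864⟩, ⟨1, 1, 0, 67108864⟩, ⟨2, 1, 0, 67108864⟩]]

noncomputable def f_pm_022_a : ℕ → ℕ → ℕ → ℕ → Bool := onCell 0 536870912 0 536870912 67108864 67108864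
    (rowFK 0 false true false .pp 0 2 2 (qsf 0 536870912 0 536870912 2) ndF1q0 ndF2q2a pcF2 cut_pm_022_a Ext.none)

def k0_pm_022_a : ∃ t, chk3 f_pm_022_a t 1 1 1 = true :=
  ⟨(a (b (l 4) (b (l 4) (b (l 4) (a (a (a (l 6) (l 4)) (l 1)) (l 1))))) (l 1)), by decide +kernel⟩

theorem c_pm_022_a : CertF 0 536870912 0 536870912 67108864 67108864 false true false .pp 0 2 2
    ndF1q0 ndF2q2a pcF2 cut_pm_022_a Ext.none :=
  certFK0 (fam := false) (s1 := true) (s2 := false) (a := 0) (b := 2) (c := 2) (cn := .pp) (n1 := ndF1q0) (n2 := ndF2q2a) (pc := pcF2) (cut := cut_pm_022_a) (xt := Ext.none) (P1 := 0) (W1 := 536870912) (P2 := 0) (W2 := 536870912) (P3 := 67108864) (W3 := 67108864)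
    rfl rfl rfl k0_pm_022_a

noncomputable def cut_pm_022_b : Cut := Cut.of [[⟨0, 0, 0, 67108864⟩, ⟨1, 1, 0, 67108864⟩, ⟨2, 1, 0, 67108864⟩]]

noncomputable def f_pm_022_b : ℕ → ℕ → ℕ → ℕ → Bool := onCell 0 536870912 1239849684 370763052 67108864 67108864
    (rowFK 0 false true false .pp 0 2 2 (qsf 0 536870912 1239849684 370763052 2) ndF1q0 ndF2q2b pcF2 cut_pm_022_b Ext.none)

def k0_pm_022_b : ∃ t, chk3 f_pm_022_b t 1 1 1 = true :=
  ⟨(a (l 4) (l 4)), by decide +kernel⟩

theorem c_pm_022_b : CertF 0 536870912 1239849684 370763052 67108864 67108864 false true false .pp 0 2 2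
    ndF1q0 ndF2q2b pcF2 cut_pm_022_b Ext.none :=
  certFK0 (fam := false) (s1 := true) (s2 := false) (a := 0) (b := 2) (c := 2) (cn := .pp) (n1 := ndF1q0) (n2 := ndF2q2b) (pc := pcF2) (cut := cut_pm_022_b) (xt := Ext.none) (P1 := 0) (W1 := 536870912) (P2 := 1239849684) (W2 := 370763052) (P3 := 67108864) (W3 := 67108864)
    rfl rfl rfl k0_pm_022_b

noncomputable def f_pm_023 : ℕ → ℕ → ℕ → ℕ → Bool := onCell 0 536870912 1610612736 536870912 67108864 67108864
    (rowFK 0 false true false .up 0 2 3 (qsf 0 536870912 1610612736 536870912 2) ndF1q0 ndF2q3 pcF2 Cut.none Ext.none)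

def k0_pm_023 : ∃ t, chk3 f_pm_023 t 1 1 1 = true :=
  ⟨(a (l 4) (b (l 4) (l 4))), by decide +kernel⟩

theorem c_pm_023 : CertF 0 536870912 1610612736 536870912 67108864 67108864 false true false .up 0 2 3
    ndF1q0 ndF2q3 pcF2 Cut.none Ext.none :=
  certFK0 (fam := false) (s1 := true) (s2 := false) (a := 0) (b := 2) (c := 3) (cn := .up) (n1 := ndF1q0) (n2 := ndF2q3) (pc := pcF2) (cut := Cut.none) (xt := Ext.none) (P1 := 0) (W1 := 536870912) (P2 := 1610612736) (W2 := 536870912) (P3 := 67108864) (W3 := 67108864)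
    rfl rfl rfl k0_pm_023

noncomputable def f_pm_033 : ℕ → ℕ → ℕ → ℕ → Bool := onCell 0 536870912 1610612736 536870912 67108864 67108864
    (rowFK 0 false true false .pnn 0 3 3 (qsf 0 536870912 1610612736 536870912 3) ndF1q0 ndF2q3 pcF3 Cut.none Ext.none)

def k0_pm_033 : ∃ t, chk3 f_pm_033 t 1 1 1 = true :=
  ⟨(a (l 4) (b (l 4) (l 4))), by decide +kernel⟩

theorem c_pm_033 : CertF 0 536870912 1610612736 536870912 67108864 67108864 false true false .pnn 0 3 3
    ndF1q0 ndF2q3 pcF3 Cut.none Ext.none :=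
  certFK0 (fam := false) (s1 := true) (s2 := false) (a := 0) (b := 3) (c := 3) (cn := .pnn) (n1 := ndF1q0) (n2 := ndF2q3) (pc := pcF3) (cut := Cut.none) (xt := Ext.none) (P1 := 0) (W1 := 536870912) (P2 := 1610612736) (W2 := 536870912) (P3 := 67108864) (W3 := 67108864)
    rfl rfl rfl k0_pm_033

noncomputable def f_pm_101 : ℕ → ℕ → ℕ → ℕ → Bool := onCell 536870912 536870912 536870912 536870912 67108864 67108864
    (rowFK 0 false true false .npn 1 0 1 (qsf 536870912 536870912 536870912 536870912 0) ndF1q1 ndF2q1 pcF0 Cut.none Ext.none)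

def k0_pm_101 : ∃ t, chk3 f_pm_101 t 1 1 1 = true :=
  ⟨(l 4), by decide +kernel⟩

theorem c_pm_101 : CertF 536870912 536870912 536870912 536870912 67108864 67108864 false true false .npn 1 0 1
    ndF1q1 ndF2q1 pcF0 Cut.none Ext.none :=
  certFK0 (fam := false) (s1 := true) (s2 := false) (a := 1) (b := 0) (c := 1) (cn := .npn) (n1 := ndF1q1) (n2 := ndF2q1) (pc := pcF0) (cut := Cut.none) (xt := Ext.none) (P1 := 536870912) (W1 := 536870912) (P2 := 536870912) (W2 := 536870912) (P3 := 67108864) (W3 := 67108864)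
    rfl rfl rfl k0_pm_101

noncomputable def f_pm_102_a : ℕ → ℕ → ℕ → ℕ → Bool := onCell 536870912 536870912 0 536870912 67108864 67108864
    (rowFK 0 false true false .npp 1 0 2 (qsf 536870912 536870912 0 536870912 0) ndF1q1 ndF2q2a pcF0 Cut.none Ext.none)

def k0_pm_102_a : ∃ t, chk3 f_pm_102_a t 1 1 1 = true :=
  ⟨(a (b (a (l 4) (l 18141880)) (a (b (l 4) (b (l 4) (l 4))) (b (l 17951872) (b (l 17862440) (l 17810888))))) (b (a (l 18017504) (l 18380184)) (b (a (l 18026000) (l 18508232)) (b (a (l 18042600) (l 18623824)) (a (l 18086184) (l 18749464)))))), by decide +kernel⟩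

theorem c_pm_102_a : CertF 536870912 536870912 0 536870912 67108864 67108864 false true false .npp 1 0 2
    ndF1q1 ndF2q2a pcF0 Cut.none Ext.none :=
  certFK0 (fam := false) (s1 := true) (s2 := false) (a := 1) (b := 0) (c := 2) (cn := .npp) (n1 := ndF1q1) (n2 := ndF2q2a) (pc := pcF0) (cut := Cut.none) (xt := Ext.none) (P1 := 536870912) (W1 := 536870912) (P2 := 0) (W2 := 536870912) (P3 := 67108864) (W3 := 67108864)
    rfl rfl rfl k0_pm_102_a

noncomputable def f_pm_102_b : ℕ → ℕ → ℕ → ℕ → Bool := onCell 0 536870912 1239849684 370763052 67108864 67108864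
    (rowFK 2 false true false .npp 1 0 2 (qsf 536870912 536870912 1239849684 370763052 0) ndF1q1 ndF2q2b pcF0 Cut.none Ext.none)

def k0_pm_102_b : ∃ t, chk3 f_pm_102_b t 1 1 1 = true :=
  ⟨(a (a (l 2) (b (b (l 18479128) (a (l 2) (l 18466688))) (l 2))) (a (b (b (l 17949536) (l 17883888)) (a (l 2) (b (l 18366896) (l 2)))) (b (a (l 17755552) (l 17842528)) (b (l 17705360) (a (l 18557424) (l 99961874743)))))), by decide +kernel⟩

theorem c_pm_102_b : CertF 536870912 536870912 1239849684 370763052 67108864 67108864 false true false .npp 1 0 2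
    ndF1q1 ndF2q2b pcF0 Cut.none Ext.none :=
  certFK2 (fam := false) (s1 := true) (s2 := false) (a := 1) (b := 0) (c := 2) (cn := .npp) (n1 := ndF1q1) (n2 := ndF2q2b) (pc := pcF0) (cut := Cut.none) (xt := Ext.none) (P1 := 536870912) (W1 := 536870912) (P2 := 1239849684) (W2 := 370763052) (P3 := 67108864) (W3 := 67108864)
    rfl rfl rfl (fun _ => rfl) k0_pm_102_b

noncomputable def f_pm_112_a : ℕ → ℕ → ℕ → ℕ → Bool := onCell 536870912 536870912 0 536870912 67108864 67108864
    (rowFK 2 false true false .dn 1 1 2 (qsf 536870912 536870912 0 536870912 1) ndF1q1 ndF2q2a pcF1 Cut.none Ext.none)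

def k0_pm_112_a : ∃ t, chk3 f_pm_112_a t 1 1 1 = true :=
  ⟨(a (a (b (l 4) (l 4)) (l 4)) (l 1)), by decide +kernel⟩

theorem c_pm_112_a : CertF 536870912 536870912 0 536870912 67108864 67108864 false true false .dn 1 1 2
    ndF1q1 ndF2q2a pcF1 Cut.none Ext.none :=
  certFK2 (fam := false) (s1 := true) (s2 := false) (a := 1) (b := 1) (c := 2) (cn := .dn) (n1 := ndF1q1) (n2 := ndF2q2a) (pc := pcF1) (cut := Cut.none) (xt := Ext.none) (P1 := 536870912) (W1 := 536870912) (P2 := 0) (W2 := 536870912) (P3 := 67108864) (W3 := 67108864)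
    rfl rfl rfl (fun _ => rfl) k0_pm_112_a

noncomputable def f_pm_112_b : ℕ → ℕ → ℕ → ℕ → Bool := onCell 536870912 536870912 1239849684 370763052 67108864 67108864
    (rowFK 2 false true false .dn 1 1 2 (qsf 536870912 536870912 1239849684 370763052 1) ndF1q1 ndF2q2b pcF1 Cut.none Ext.none)

def k0_pm_112_b : ∃ t, chk3 f_pm_112_b t 1 1 1 = true :=
  ⟨(a (a (b (l 18216056) (a (b (l 18054720) (a (l 17890904) (l 17981864))) (l 18121576))) (l 427050792039)) (b (l 4) (l 19267880))), by decide +kernel⟩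

theorem c_pm_112_b : CertF 536870912 536870912 1239849684 370763052 67108864 67108864 false true false .dn 1 1 2
    ndF1q1 ndF2q2b pcF1 Cut.none Ext.none :=
  certFK2 (fam := false) (s1 := true) (s2 := false) (a := 1) (b := 1) (c := 2) (cn := .dn) (n1 := ndF1q1) (n2 := ndF2q2b) (pc := pcF1) (cut := Cut.none) (xt := Ext.none) (P1 := 536870912) (W1 := 536870912) (P2 := 1239849684) (W2 := 370763052) (P3 := 67108864) (W3 := 67108864)
    rfl rfl rfl (fun _ => rfl) k0_pm_112_b

noncomputable def f_pm_113 : ℕ → ℕ → ℕ → ℕ → Bool := onCell 536870912 536870912 536870912 536870912 67108864 67108864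
    (rowFK 1 false true false .nn 1 1 3 (qsf 536870912 536870912 1610612736 536870912 1) ndF1q1 ndF2q3 pcF1 Cut.none Ext.none)

def k0_pm_113 : ∃ t, chk3 f_pm_113 t 1 1 1 = true :=
  ⟨(a (b (b (l 1) (l 364038771463)) (b (l 386051472391) (b (l 232171098935) (b (l 205327631367) (l 20546088))))) (b (b (a (l 19652712) (b (a (l 19569800) (a (l 19381472) (l 18997936))) (b (a (l 19508992) (l 18653528)) (a (l 19357536) (a (l 18564624) (l 17575136)))))) (a (b (l 19757440) (a (l 19862760) (a (l 19625032) (l 19396264)))) (b (a (l 19102488) (b (a (l 17975240) (l 17539984)) (l 17589160))) (b (a (l 18233936) (l 17503896)) (l 17923456))))) (a (b (b (a (l 19584088) (l 18785888)) (l 19350736)) (b (l 19101776) (b (l 18923344) (l 18809536)))) (b (b (a (l 18088040) (l 17171056)) (l 17572976)) (b (l 17433496) (b (l 17325856) (l 17305280))))))), by decide +kernel⟩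

theorem c_pm_113 : CertF 536870912 536870912 1610612736 536870912 67108864 67108864 false true false .nn 1 1 3
    ndF1q1 ndF2q3 pcF1 Cut.none Ext.none :=
  certFK1 (fam := false) (s1 := true) (s2 := false) (a := 1) (b := 1) (c := 3) (cn := .nn) (n1 := ndF1q1) (n2 := ndF2q3) (pc := pcF1) (cut := Cut.none) (xt := Ext.none) (P1 := 536870912) (W1 := 536870912) (P2 := 1610612736) (W2 := 536870912) (P3 := 67108864) (W3 := 67108864)
    rfl rfl rfl (fun _ => rfl) k0_pm_113

noncomputable def f_pm_123 : ℕ → ℕ → ℕ → ℕ → Bool := onCell 1073741824 536870912 1610612736 536870912 67108864 67108864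
    (rowFK 2 false true false .npn 1 2 3 (qsf 536870912 536870912 1610612736 536870912 2) ndF1q1 ndF2q3 pcF2 Cut.none Ext.none)

def k0_pm_123 : ∃ t, chk3 f_pm_123 t 1 1 1 = true :=
  ⟨(a (b (a (l 230560098151) (l 4)) (a (b (l 18998720) (l 17815528)) (b (l 19098808) (l 18288392)))) (b (l 4) (a (l 18706288) (l 18504008)))), by decide +kernel⟩

theorem c_pm_123 : CertF 536870912 536870912 1610612736 536870912 67108864 67108864 false true false .npn 1 2 3
    ndF1q1 ndF2q3 pcF2 Cut.none Ext.none :=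
  certFK2 (fam := false) (s1 := true) (s2 := false) (a := 1) (b := 2) (c := 3) (cn := .npn) (n1 := ndF1q1) (n2 := ndF2q3) (pc := pcF2) (cut := Cut.none) (xt := Ext.none) (P1 := 536870912) (W1 := 536870912) (P2 := 1610612736) (W2 := 536870912) (P3 := 67108864) (W3 := 67108864)
    rfl rfl rfl (fun _ => rfl) k0_pm_123

noncomputable def f_pm_133 : ℕ → ℕ → ℕ → ℕ → Bool := onCell 1610612736 536870912 1610612736 536870912 67108864 67108864
    (rowFK 2 false true false .dn 1 3 3 (qsf 536870912 536870912 1610612736 536870912 3) ndF1q1 ndF2q3 pcF3 Cut.none Ext.none)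

def k0_pm_133 : ∃ t, chk3 f_pm_133 t 1 1 1 = true :=
  ⟨(a (b (l 1) (l 4)) (l 1)), by decide +kernel⟩

theorem c_pm_133 : CertF 536870912 536870912 1610612736 536870912 67108864 67108864 false true false .dn 1 3 3
    ndF1q1 ndF2q3 pcF3 Cut.none Ext.none :=
  certFK2 (fam := false) (s1 := true) (s2 := false) (a := 1) (b := 3) (c := 3) (cn := .dn) (n1 := ndF1q1) (n2 := ndF2q3) (pc := pcF3) (cut := Cut.none) (xt := Ext.none) (P1 := 536870912) (W1 := 536870912) (P2 := 1610612736) (W2 := 536870912) (P3 := 67108864) (W3 := 67108864)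
    rfl rfl rfl (fun _ => rfl) k0_pm_133

noncomputable def cut_pm_202_aa : Cut := Cut.of [[⟨0, 1, 0, 67108864⟩, ⟨1, 0, 0, 67108864⟩, ⟨2, 1, 0, 67108864⟩], [⟨0, 1, 0, 16777216⟩, ⟨1, 0, 1, 33554432⟩, ⟨2, 1, 1, 33554432⟩, ⟨1, 0, 0, 150994944⟩, ⟨1, 1, 0, 1023410176⟩, ⟨2, 1, 0, 150994944⟩, ⟨2, 2, 0, 1023410176⟩]]

noncomputable def f_pm_202_aa : ℕ → ℕ → ℕ → ℕ → Bool := onCell 0 536870912 0 536870912 67108864 67108864
    (rowFK 0 false true false .pp 2 0 2 (qsf 0 536870912 0 536870912 0) ndF1q2a ndF2q2a pcF0 cut_pm_202_aa Ext.none)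

def k0_pm_202_aa : ∃ t, chk3 f_pm_202_aa t 2 1 1 = true :=
  ⟨(l 3), by decide +kernel⟩

def k1_pm_202_aa : ∃ t, chk3 f_pm_202_aa t 6 1 1 = true :=
  ⟨(l 3), by decide +kernel⟩

def k2_pm_202_aa : ∃ t, chk3 f_pm_202_aa t 14 1 1 = true :=
  ⟨(l 3), by decide +kernel⟩

def k3_pm_202_aa : ∃ t, chk3 f_pm_202_aa t 30 1 1 = true :=
  ⟨(b (l 3) (l 3)), by decide +kernel⟩

def k4_pm_202_aa : ∃ t, chk3 f_pm_202_aa t 62 1 1 = true :=
  ⟨(b (l 3) (l 3)), by decide +kernel⟩

def k5_pm_202_aa : ∃ t, chk3 f_pm_202_aa t 126 1 1 = true :=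
  ⟨(b (l 3) (b (l 3) (l 3))), by decide +kernel⟩

def k6_pm_202_aa : ∃ t, chk3 f_pm_202_aa t 254 1 1 = true :=
  ⟨(b (b (l 3) (l 3)) (b (l 3) (l 3))), by decide +kernel⟩

def k7_pm_202_aa : ∃ t, chk3 f_pm_202_aa t 255 2 1 = true :=
  ⟨(c (b (l 17640640) (b (l 17575488) (b (l 17506568) (l 118280694215)))) (b (b (b (l 76404352215) (l 76941164839)) (c (l 17326712) (b (l 78014777943) (l 79625335303)))) (b (b (a (l 3) (b (l 81772886727) (l 123648733943))) (c (l 123111865831) (b (l 14) (l 14)))) (c (b (l 123111917383) (c (l 123111873623) (l 14))) (l 14))))), by decide +kernel⟩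

def k8_pm_202_aa : ∃ t, chk3 f_pm_202_aa t 255 3 1 = true :=
  ⟨(b (a (l 3) (b (c (b (b (l 120428040599) (b (l 122038552295) (l 122575258839))) (c (l 120427623863) (l 14))) (l 14)) (a (l 3) (a (l 3) (a (b (l 3) (l 3)) (a (b (l 3) (l 3)) (c (b (c (c (l 122575032295) (l 14)) (l 14)) (l 14)) (c (b (l 14) (c (l 14) (b (b (l 14) (b (l 14) (b (l 14) (l 126332386935)))) (b (b (b (l 126332387303) (l 126332387671)) (b (l 126332388039) (l 126869259335))) (b (b (l 126869259719) (l 126869260119)) (b (l 126869260519) (l 126869260855))))))) (b (b (b (l 14) (c (l 14) (c (l 14) (b (l 123648020983) (l 124184892487))))) (b (c (l 14) (b (l 124721765255) (l 124721765879))) (a (l 3) (b (b (l 125795510455) (l 126332381687)) (b (l 126332382007) (l 126332382343)))))) (b (b (b (b (l 126332382439) (l 126332382871)) (b (l 126332383143) (l 126332383511))) (b (b (l 126332383879) (l 126332384247)) (b (l 126332384631) (l 126332384855)))) (b (c (b (l 125795514663) (l 125795515447))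 (b (l 125258641751) (l 125258642583))) (c (b (l 125795516279) (l 125795517127)) (b (l 125258643463) (l 125795515351)))))))))))))) (b (b (a (l 3) (a (l 3) (a (l 3) (a (l 3) (a (l 3) (b (c (l 14) (b (c (c (b (b (l 127406134087) (l 127406134407)) (b (l 127406134887) (l 127406135223))) (b (b (l 126869261351) (l 126869261783)) (b (l 126869262055) (l 126869262487)))) (c (b (l 126332389079) (l 126332389991)) (b (l 125795516279) (l 125795517255)))) (b (b (c (l 127943006615) (l 127406132263)) (c (l 127943006887) (l 127406132759))) (c (b (l 128479878263) (l 128479878727)) (l 127406133735))))) (b (b (b (c (c (l 14) (c (l 14) (c (l 14) (l 127943009143)))) (c (l 128479879191) (l 127943005047))) (l 6)) (l 6)) (l 6)))))))) (l 6)) (l 6))), by decide +kernel⟩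

theorem s9_pm_202_aa : ∃ t, chk3 f_pm_202_aa t 255 1 1 = true := ex3_b k7_pm_202_aa k8_pm_202_aa

theorem s10_pm_202_aa : ∃ t, chk3 f_pm_202_aa t 127 1 1 = true := ex3_a k6_pm_202_aa s9_pm_202_aa

theorem s11_pm_202_aa : ∃ t, chk3 f_pm_202_aa t 63 1 1 = true := ex3_a k5_pm_202_aa s10_pm_202_aa

theorem s12_pm_202_aa : ∃ t, chk3 f_pm_202_aa t 31 1 1 = true := ex3_a k4_pm_202_aa s11_pm_202_aa

theorem s13_pm_202_aa : ∃ t, chk3 f_pm_202_aa t 15 1 1 = true := ex3_a k3_pm_202_aa s12_pm_202_aa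

theorem s14_pm_202_aa : ∃ t, chk3 f_pm_202_aa t 7 1 1 = true := ex3_a k2_pm_202_aa s13_pm_202_aa

theorem s15_pm_202_aa : ∃ t, chk3 f_pm_202_aa t 3 1 1 = true := ex3_a k1_pm_202_aa s14_pm_202_aa

theorem s16_pm_202_aa : ∃ t, chk3 f_pm_202_aa t 1 1 1 = true := ex3_a k0_pm_202_aa s15_pm_202_aa

theorem c_pm_202_aa : CertF 0 536870912 0 536870912 67108864 67108864 false true false .pp 2 0 2
    ndF1q2a ndF2q2a pcF0 cut_pm_202_aa Ext.none :=
  certFK0 (fam := false) (s1 := true) (s2 := false) (a := 2) (b := 0) (c := 2) (cn := .pp) (n1 := ndF1q2a) (n2 := ndF2q2a) (pc := pcF0) (cut := cut_pm_202_aa) (xt := Ext.none) (P1 := 0) (W1 := 536870912) (P2 := 0) (W2 := 536870912) (P3 := 67108864) (W3 := 67108864)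
    rfl rfl rfl s16_pm_202_aa

noncomputable def cut_pm_202_ab : Cut := Cut.of [[⟨0, 1, 0, 67108864⟩, ⟨1, 0, 0, 67108864⟩, ⟨2, 1, 0, 67108864⟩], [⟨0, 1, 0, 16777216⟩, ⟨1, 0, 1, 33554432⟩, ⟨2, 1, 1, 33554432⟩, ⟨1, 0, 0, 150994944⟩, ⟨1, 1, 0, 1023410176⟩, ⟨2, 1, 0, 150994944⟩, ⟨2, 2, 0, 1023410176⟩]]

noncomputable def f_pm_202_ab : ℕ → ℕ → ℕ → ℕ → Bool := onCell 0 536870912 1239849684 370763052 67108864 67108864
    (rowFK 0 false true false .pp 2 0 2 (qsf 0 536870912 1239849684 370763052 0) ndF1q2a ndF2q2b pcF0 cut_pm_202_ab Ext.none)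

def k0_pm_202_ab : ∃ t, chk3 f_pm_202_ab t 1 1 1 = true :=
  ⟨(a (l 3) (a (l 3) (a (l 3) (b (a (l 3) (b (a (l 3) (a (l 3) (a (l 3) (b (c (l 17758856) (b (b (b (l 73719975863) (l 70498928039)) (l 64593470359)) (l 17418880))) (l 17624792))))) (b (l 49561630695) (l 17935888)))) (b (c (l 18066144) (l 50636265783)) (l 59226165815)))))), by decide +kernel⟩

theorem c_pm_202_ab : CertF 0 536870912 1239849684 370763052 67108864 67108864 false true false .pp 2 0 2
    ndF1q2a ndF2q2b pcF0 cut_pm_202_ab Ext.none :=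
  certFK0 (fam := false) (s1 := true) (s2 := false) (a := 2) (b := 0) (c := 2) (cn := .pp) (n1 := ndF1q2a) (n2 := ndF2q2b) (pc := pcF0) (cut := cut_pm_202_ab) (xt := Ext.none) (P1 := 0) (W1 := 536870912) (P2 := 1239849684) (W2 := 370763052) (P3 := 67108864) (W3 := 67108864)
    rfl rfl rfl k0_pm_202_ab

noncomputable def cut_pm_202_ba : Cut := Cut.of [[⟨0, 1, 0, 67108864⟩, ⟨1, 0, 0, 67108864⟩, ⟨2, 1, 0, 67108864⟩], [⟨0, 1, 0, 16777216⟩, ⟨1, 0, 1, 33554432⟩, ⟨2, 1, 1, 33554432⟩, ⟨1, 0, 0, 150994944⟩, ⟨1, 1, 0, 1023410176⟩, ⟨2, 1, 0, 150994944⟩, ⟨2, 2, 0, 1023410176⟩]]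

noncomputable def f_pm_202_ba : ℕ → ℕ → ℕ → ℕ → Bool := onCell 1239849684 370763052 0 536870912 67108864 67108864
    (rowFK 0 false true false .pp 2 0 2 (qsf 1239849684 370763052 0 536870912 0) ndF1q2b ndF2q2a pcF0 cut_pm_202_ba Ext.none)

def k0_pm_202_ba : ∃ t, chk3 f_pm_202_ba t 1 1 1 = true :=
  ⟨(l 3), by decide +kernel⟩

theorem c_pm_202_ba : CertF 1239849684 370763052 0 536870912 67108864 67108864 false true false .pp 2 0 2
    ndF1q2b ndF2q2a pcF0 cut_pm_202_ba Ext.none :=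
  certFK0 (fam := false) (s1 := true) (s2 := false) (a := 2) (b := 0) (c := 2) (cn := .pp) (n1 := ndF1q2b) (n2 := ndF2q2a) (pc := pcF0) (cut := cut_pm_202_ba) (xt := Ext.none) (P1 := 1239849684) (W1 := 370763052) (P2 := 0) (W2 := 536870912) (P3 := 67108864) (W3 := 67108864)
    rfl rfl rfl k0_pm_202_ba

noncomputable def cut_pm_202_bb : Cut := Cut.of [[⟨0, 1, 0, 67108864⟩, ⟨1, 0, 0, 67108864⟩, ⟨2, 1, 0, 67108864⟩], [⟨0, 1, 0, 16777216⟩, ⟨1, 0, 1, 33554432⟩, ⟨2, 1, 1, 33554432⟩, ⟨1, 0, 0, 150994944⟩, ⟨1, 1, 0, 1023410176⟩, ⟨2, 1, 0, 150994944⟩, ⟨2, 2, 0, 1023410176⟩]]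

noncomputable def f_pm_202_bb : ℕ → ℕ → ℕ → ℕ → Bool := onCell 1239849684 370763052 1239849684 370763052 67108864 67108864
    (rowFK 0 false true false .pp 2 0 2 (qsf 1239849684 370763052 1239849684 370763052 0) ndF1q2b ndF2q2b pcF0 cut_pm_202_bb Ext.none)

def k0_pm_202_bb : ∃ t, chk3 f_pm_202_bb t 1 1 1 = true :=
  ⟨(l 3), by decide +kernel⟩

theorem c_pm_202_bb : CertF 1239849684 370763052 1239849684 370763052 67108864 67108864 false true false .pp 2 0 2
    ndF1q2b ndF2q2b pcF0 cut_pm_202_bb Ext.none :=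
  certFK0 (fam := false) (s1 := true) (s2 := false) (a := 2) (b := 0) (c := 2) (cn := .pp) (n1 := ndF1q2b) (n2 := ndF2q2b) (pc := pcF0) (cut := cut_pm_202_bb) (xt := Ext.none) (P1 := 1239849684) (W1 := 370763052) (P2 := 1239849684) (W2 := 370763052) (P3 := 67108864) (W3 := 67108864)
    rfl rfl rfl k0_pm_202_bb

noncomputable def f_pm_203_a : ℕ → ℕ → ℕ → ℕ → Bool := onCell 0 536870912 1610612736 536870912 67108864 67108864
    (rowFK 0 false true false .up 2 0 3 (qsf 0 536870912 1610612736 536870912 0) ndF1q2a ndF2q3 pcF0 Cut.none Ext.none)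

def k0_pm_203_a : ∃ t, chk3 f_pm_203_a t 1 1 1 = true :=
  ⟨(a (l 3) (b (a (l 3) (b (b (l 111839257895) (l 110228360247)) (l 2))) (l 2))), by decide +kernel⟩

theorem c_pm_203_a : CertF 0 536870912 1610612736 536870912 67108864 67108864 false true false .up 2 0 3
    ndF1q2a ndF2q3 pcF0 Cut.none Ext.none :=
  certFK0 (fam := false) (s1 := true) (s2 := false) (a := 2) (b := 0) (c := 3) (cn := .up) (n1 := ndF1q2a) (n2 := ndF2q3) (pc := pcF0) (cut := Cut.none) (xt := Ext.none) (P1 := 0) (W1 := 536870912) (P2 := 1610612736) (W2 := 536870912) (P3 := 67108864) (W3 := 67108864)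
    rfl rfl rfl k0_pm_203_a

noncomputable def f_pm_203_b : ℕ → ℕ → ℕ → ℕ → Bool := onCell 1239849684 370763052 1610612736 536870912 67108864 67108864
    (rowFK 0 false true false .up 2 0 3 (qsf 1239849684 370763052 1610612736 536870912 0) ndF1q2b ndF2q3 pcF0 Cut.none Ext.none)

def k0_pm_203_b : ∃ t, chk3 f_pm_203_b t 1 1 1 = true :=
  ⟨(l 3), by decide +kernel⟩

theorem c_pm_203_b : CertF 1239849684 370763052 1610612736 536870912 67108864 67108864 false true false .up 2 0 3
    ndF1q2b ndF2q3 pcF0 Cut.none Ext.none :=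
  certFK0 (fam := false) (s1 := true) (s2 := false) (a := 2) (b := 0) (c := 3) (cn := .up) (n1 := ndF1q2b) (n2 := ndF2q3) (pc := pcF0) (cut := Cut.none) (xt := Ext.none) (P1 := 1239849684) (W1 := 370763052) (P2 := 1610612736) (W2 := 536870912) (P3 := 67108864) (W3 := 67108864)
    rfl rfl rfl k0_pm_203_b

noncomputable def cut_pm_213_a : Cut := Cut.of [[⟨0, 1, 0, 21338704⟩, ⟨1, 1, 0, 21338704⟩, ⟨2, 2, 0, 1685920⟩]]

noncomputable def f_pm_213_a : ℕ → ℕ → ℕ → ℕ → Bool := onCell 0 536870912 1610612736 536870912 67108864 67108864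
    (rowFK 0 false true false .pnn 2 1 3 (qsf 0 536870912 1610612736 536870912 1) ndF1q2a ndF2q3 pcF1 cut_pm_213_a Ext.none)

def k0_pm_213_a : ∃ t, chk3 f_pm_213_a t 1 1 1 = true :=
  ⟨(a (l 3) (b (a (l 3) (a (l 3) (b (b (l 17981888) (l 17804800)) (b (l 17575184) (l 85531347351))))) (a (l 3) (a (l 3) (b (b (l 17133104) (l 119353988727)) (a (l 3) (a (l 3) (b (l 128480642263) (b (l 152639563799) (b (l 158544866487) (a (l 3) (b (l 160692284631) (a (l 3) (b (l 162839706023) (b (l 163913426407) (b (a (l 3) (l 164450284503)) (l 6))))))))))))))))), by decide +kernel⟩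

theorem c_pm_213_a : CertF 0 536870912 1610612736 536870912 67108864 67108864 false true false .pnn 2 1 3
    ndF1q2a ndF2q3 pcF1 cut_pm_213_a Ext.none :=
  certFK0 (fam := false) (s1 := true) (s2 := false) (a := 2) (b := 1) (c := 3) (cn := .pnn) (n1 := ndF1q2a) (n2 := ndF2q3) (pc := pcF1) (cut := cut_pm_213_a) (xt := Ext.none) (P1 := 0) (W1 := 536870912) (P2 := 1610612736) (W2 := 536870912) (P3 := 67108864) (W3 := 67108864)
    rfl rfl rfl k0_pm_213_a

noncomputable def cut_pm_213_b : Cut := Cut.of [[⟨0, 1, 0, 21338704⟩, ⟨1, 1, 0, 21338704⟩, ⟨2, 2, 0, 1685920⟩]]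

noncomputable def f_pm_213_b : ℕ → ℕ → ℕ → ℕ → Bool := onCell 1239849684 370763052 1610612736 536870912 67108864 67108864
    (rowFK 0 false true false .pnn 2 1 3 (qsf 1239849684 370763052 1610612736 536870912 1) ndF1q2b ndF2q3 pcF1 cut_pm_213_b Ext.none)

def k0_pm_213_b : ∃ t, chk3 f_pm_213_b t 1 1 1 = true :=
  ⟨(l 3), by decide +kernel⟩

theorem c_pm_213_b : CertF 1239849684 370763052 1610612736 536870912 67108864 67108864 false true false .pnn 2 1 3
    ndF1q2b ndF2q3 pcF1 cut_pm_213_b Ext.none :=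
  certFK0 (fam := false) (s1 := true) (s2 := false) (a := 2) (b := 1) (c := 3) (cn := .pnn) (n1 := ndF1q2b) (n2 := ndF2q3) (pc := pcF1) (cut := cut_pm_213_b) (xt := Ext.none) (P1 := 1239849684) (W1 := 370763052) (P2 := 1610612736) (W2 := 536870912) (P3 := 67108864) (W3 := 67108864)
    rfl rfl rfl k0_pm_213_b

noncomputable def f_pm_303 : ℕ → ℕ → ℕ → ℕ → Bool := onCell 1610612736 536870912 1610612736 536870912 67108864 67108864
    (rowFK 0 false true false .npn 3 0 3 (qsf 1610612736 536870912 1610612736 536870912 0) ndF1q3 ndF2q3 pcF0 Cut.none Ext.none)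

def k0_pm_303 : ∃ t, chk3 f_pm_303 t 1 1 1 = true :=
  ⟨(l 3), by decide +kernel⟩

theorem c_pm_303 : CertF 1610612736 536870912 1610612736 536870912 67108864 67108864 false true false .npn 3 0 3
    ndF1q3 ndF2q3 pcF0 Cut.none Ext.none :=
  certFK0 (fam := false) (s1 := true) (s2 := false) (a := 3) (b := 0) (c := 3) (cn := .npn) (n1 := ndF1q3) (n2 := ndF2q3) (pc := pcF0) (cut := Cut.none) (xt := Ext.none) (P1 := 1610612736) (W1 := 536870912) (P2 := 1610612736) (W2 := 536870912) (P3 := 67108864) (W3 := 67108864)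
    rfl rfl rfl k0_pm_303

noncomputable def f_pm_313 : ℕ → ℕ → ℕ → ℕ → Bool := onCell 1610612736 536870912 1610612736 536870912 67108864 67108864
    (rowFK 0 false true false .dn 3 1 3 (qsf 1610612736 536870912 1610612736 536870912 1) ndF1q3 ndF2q3 pcF1 Cut.none Ext.none)

def k0_pm_313 : ∃ t, chk3 f_pm_313 t 1 1 1 = true :=
  ⟨(l 3), by decide +kernel⟩

theorem c_pm_313 : CertF 1610612736 536870912 1610612736 536870912 67108864 67108864 false true false .dn 3 1 3
    ndF1q3 ndF2q3 pcF1 Cut.none Ext.none :=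
  certFK0 (fam := false) (s1 := true) (s2 := false) (a := 3) (b := 1) (c := 3) (cn := .dn) (n1 := ndF1q3) (n2 := ndF2q3) (pc := pcF1) (cut := Cut.none) (xt := Ext.none) (P1 := 1610612736) (W1 := 536870912) (P2 := 1610612736) (W2 := 536870912) (P3 := 67108864) (W3 := 67108864)
    rfl rfl rfl k0_pm_313

noncomputable def f_mm_001 : ℕ → ℕ → ℕ → ℕ → Bool := onCell 0 536870912 0 536870912 67108864 67108864
    (rowFK 1 false false false .up 0 0 1 (qsf 0 536870912 536870912 536870912 0) ndF1q0 ndF2q1 pcF0 Cut.none Ext.none)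

def k0_mm_001 : ∃ t, chk3 f_mm_001 t 1 1 1 = true :=
  ⟨(l 3), by decide +kernel⟩

theorem c_mm_001 : CertF 0 536870912 536870912 536870912 67108864 67108864 false false false .up 0 0 1
    ndF1q0 ndF2q1 pcF0 Cut.none Ext.none :=
  certFK1 (fam := false) (s1 := false) (s2 := false) (a := 0) (b := 0) (c := 1) (cn := .up) (n1 := ndF1q0) (n2 := ndF2q1) (pc := pcF0) (cut := Cut.none) (xt := Ext.none) (P1 := 0) (W1 := 536870912) (P2 := 536870912) (W2 := 536870912) (P3 := 67108864) (W3 := 67108864)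
    rfl rfl rfl (fun _ => rfl) k0_mm_001

noncomputable def f_mm_011 : ℕ → ℕ → ℕ → ℕ → Bool := onCell 0 536870912 536870912 536870912 67108864 67108864
    (rowFK 1 false false false .pnn 0 1 1 (qsf 0 536870912 536870912 536870912 1) ndF1q0 ndF2q1 pcF1 Cut.none Ext.none)

def k0_mm_011 : ∃ t, chk3 f_mm_011 t 1 1 1 = true :=
  ⟨(l 5), by decide +kernel⟩

theorem c_mm_011 : CertF 0 536870912 536870912 536870912 67108864 67108864 false false false .pnn 0 1 1
    ndF1q0 ndF2q1 pcF1 Cut.none Ext.none :=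
  certFK1 (fam := false) (s1 := false) (s2 := false) (a := 0) (b := 1) (c := 1) (cn := .pnn) (n1 := ndF1q0) (n2 := ndF2q1) (pc := pcF1) (cut := Cut.none) (xt := Ext.none) (P1 := 0) (W1 := 536870912) (P2 := 536870912) (W2 := 536870912) (P3 := 67108864) (W3 := 67108864)
    rfl rfl rfl (fun _ => rfl) k0_mm_011

noncomputable def f_mm_012_a : ℕ → ℕ → ℕ → ℕ → Bool := onCell 0 536870912 0 536870912 67108864 67108864
    (rowFK 0 false false false .pnp 0 1 2 (qsf 0 536870912 0 536870912 1) ndF1q0 ndF2q2a pcF1 Cut.none Ext.none)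

def k0_mm_012_a : ∃ t, chk3 f_mm_012_a t 1 1 1 = true :=
  ⟨(l 5), by decide +kernel⟩

theorem c_mm_012_a : CertF 0 536870912 0 536870912 67108864 67108864 false false false .pnp 0 1 2
    ndF1q0 ndF2q2a pcF1 Cut.none Ext.none :=
  certFK0 (fam := false) (s1 := false) (s2 := false) (a := 0) (b := 1) (c := 2) (cn := .pnp) (n1 := ndF1q0) (n2 := ndF2q2a) (pc := pcF1) (cut := Cut.none) (xt := Ext.none) (P1 := 0) (W1 := 536870912) (P2 := 0) (W2 := 536870912) (P3 := 67108864) (W3 := 67108864)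
    rfl rfl rfl k0_mm_012_a

noncomputable def f_mm_012_b : ℕ → ℕ → ℕ → ℕ → Bool := onCell 0 536870912 1239849684 370763052 67108864 67108864
    (rowFK 0 false false false .pnp 0 1 2 (qsf 0 536870912 1239849684 370763052 1) ndF1q0 ndF2q2b pcF1 Cut.none Ext.none)

def k0_mm_012_b : ∃ t, chk3 f_mm_012_b t 1 1 1 = true :=
  ⟨(l 5), by decide +kernel⟩

theorem c_mm_012_b : CertF 0 536870912 1239849684 370763052 67108864 67108864 false false false .pnp 0 1 2
    ndF1q0 ndF2q2b pcF1 Cut.none Ext.none :=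
  certFK0 (fam := false) (s1 := false) (s2 := false) (a := 0) (b := 1) (c := 2) (cn := .pnp) (n1 := ndF1q0) (n2 := ndF2q2b) (pc := pcF1) (cut := Cut.none) (xt := Ext.none) (P1 := 0) (W1 := 536870912) (P2 := 1239849684) (W2 := 370763052) (P3 := 67108864) (W3 := 67108864)
    rfl rfl rfl k0_mm_012_b

noncomputable def f_mm_022_a : ℕ → ℕ → ℕ → ℕ → Bool := onCell 0 536870912 0 536870912 67108864 67108864
    (rowFK 0 false false false .pp 0 2 2 (qsf 0 536870912 0 536870912 2) ndF1q0 ndF2q2a pcF2 Cut.none Ext.none)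

def k0_mm_022_a : ∃ t, chk3 f_mm_022_a t 1 1 1 = true :=
  ⟨(l 5), by decide +kernel⟩

theorem c_mm_022_a : CertF 0 536870912 0 536870912 67108864 67108864 false false false .pp 0 2 2
    ndF1q0 ndF2q2a pcF2 Cut.none Ext.none :=
  certFK0 (fam := false) (s1 := false) (s2 := false) (a := 0) (b := 2) (c := 2) (cn := .pp) (n1 := ndF1q0) (n2 := ndF2q2a) (pc := pcF2) (cut := Cut.none) (xt := Ext.none) (P1 := 0) (W1 := 536870912) (P2 := 0) (W2 := 536870912) (P3 := 67108864) (W3 := 67108864)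
    rfl rfl rfl k0_mm_022_a

noncomputable def f_mm_022_b : ℕ → ℕ → ℕ → ℕ → Bool := onCell 0 536870912 1239849684 370763052 67108864 67108864
    (rowFK 0 false false false .pp 0 2 2 (qsf 0 536870912 1239849684 370763052 2) ndF1q0 ndF2q2b pcF2 Cut.none Ext.none)

def k0_mm_022_b : ∃ t, chk3 f_mm_022_b t 1 1 1 = true :=
  ⟨(l 5), by decide +kernel⟩

theorem c_mm_022_b : CertF 0 536870912 1239849684 370763052 67108864 67108864 false false false .pp 0 2 2
    ndF1q0 ndF2q2b pcF2 Cut.none Ext.none :=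
  certFK0 (fam := false) (s1 := false) (s2 := false) (a := 0) (b := 2) (c := 2) (cn := .pp) (n1 := ndF1q0) (n2 := ndF2q2b) (pc := pcF2) (cut := Cut.none) (xt := Ext.none) (P1 := 0) (W1 := 536870912) (P2 := 1239849684) (W2 := 370763052) (P3 := 67108864) (W3 := 67108864)
    rfl rfl rfl k0_mm_022_b

noncomputable def f_mm_023 : ℕ → ℕ → ℕ → ℕ → Bool := onCell 0 536870912 1610612736 536870912 67108864 67108864
    (rowFK 0 false false false .up 0 2 3 (qsf 0 536870912 1610612736 536870912 2) ndF1q0 ndF2q3 pcF2 Cut.none Ext.none)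

def k0_mm_023 : ∃ t, chk3 f_mm_023 t 1 1 1 = true :=
  ⟨(l 5), by decide +kernel⟩

theorem c_mm_023 : CertF 0 536870912 1610612736 536870912 67108864 67108864 false false false .up 0 2 3
    ndF1q0 ndF2q3 pcF2 Cut.none Ext.none :=
  certFK0 (fam := false) (s1 := false) (s2 := false) (a := 0) (b := 2) (c := 3) (cn := .up) (n1 := ndF1q0) (n2 := ndF2q3) (pc := pcF2) (cut := Cut.none) (xt := Ext.none) (P1 := 0) (W1 := 536870912) (P2 := 1610612736) (W2 := 536870912) (P3 := 67108864) (W3 := 67108864)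
    rfl rfl rfl k0_mm_023

noncomputable def f_mm_033 : ℕ → ℕ → ℕ → ℕ → Bool := onCell 0 536870912 1610612736 536870912 67108864 67108864
    (rowFK 0 false false false .pnn 0 3 3 (qsf 0 536870912 1610612736 536870912 3) ndF1q0 ndF2q3 pcF3 Cut.none Ext.none)

def k0_mm_033 : ∃ t, chk3 f_mm_033 t 1 1 1 = true :=
  ⟨(l 5), by decide +kernel⟩

theorem c_mm_033 : CertF 0 536870912 1610612736 536870912 67108864 67108864 false false false .pnn 0 3 3
    ndF1q0 ndF2q3 pcF3 Cut.none Ext.none :=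
  certFK0 (fam := false) (s1 := false) (s2 := false) (a := 0) (b := 3) (c := 3) (cn := .pnn) (n1 := ndF1q0) (n2 := ndF2q3) (pc := pcF3) (cut := Cut.none) (xt := Ext.none) (P1 := 0) (W1 := 536870912) (P2 := 1610612736) (W2 := 536870912) (P3 := 67108864) (W3 := 67108864)
    rfl rfl rfl k0_mm_033

noncomputable def f_mm_101 : ℕ → ℕ → ℕ → ℕ → Bool := onCell 536870912 536870912 536870912 536870912 67108864 67108864
    (rowFK 0 false false false .npn 1 0 1 (qsf 536870912 536870912 536870912 536870912 0) ndF1q1 ndF2q1 pcF0 Cut.none Ext.none)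

def k0_mm_101 : ∃ t, chk3 f_mm_101 t 1 1 1 = true :=
  ⟨(l 3), by decide +kernel⟩

theorem c_mm_101 : CertF 536870912 536870912 536870912 536870912 67108864 67108864 false false false .npn 1 0 1
    ndF1q1 ndF2q1 pcF0 Cut.none Ext.none :=
  certFK0 (fam := false) (s1 := false) (s2 := false) (a := 1) (b := 0) (c := 1) (cn := .npn) (n1 := ndF1q1) (n2 := ndF2q1) (pc := pcF0) (cut := Cut.none) (xt := Ext.none) (P1 := 536870912) (W1 := 536870912) (P2 := 536870912) (W2 := 536870912) (P3 := 67108864) (W3 := 67108864)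
    rfl rfl rfl k0_mm_101

noncomputable def f_mm_102_a : ℕ → ℕ → ℕ → ℕ → Bool := onCell 536870912 536870912 0 536870912 67108864 67108864
    (rowFK 0 false false false .npp 1 0 2 (qsf 536870912 536870912 0 536870912 0) ndF1q1 ndF2q2a pcF0 Cut.none Ext.none)

def k0_mm_102_a : ∃ t, chk3 f_mm_102_a t 1 1 1 = true :=
  ⟨(l 3), by decide +kernel⟩

theorem c_mm_102_a : CertF 536870912 536870912 0 536870912 67108864 67108864 false false false .npp 1 0 2
    ndF1q1 ndF2q2a pcF0 Cut.none Ext.none :=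
  certFK0 (fam := false) (s1 := false) (s2 := false) (a := 1) (b := 0) (c := 2) (cn := .npp) (n1 := ndF1q1) (n2 := ndF2q2a) (pc := pcF0) (cut := Cut.none) (xt := Ext.none) (P1 := 536870912) (W1 := 536870912) (P2 := 0) (W2 := 536870912) (P3 := 67108864) (W3 := 67108864)
    rfl rfl rfl k0_mm_102_a

noncomputable def f_mm_102_b : ℕ → ℕ → ℕ → ℕ → Bool := onCell 536870912 536870912 1239849684 370763052 67108864 67108864
    (rowFK 0 false false false .npp 1 0 2 (qsf 536870912 536870912 1239849684 370763052 0) ndF1q1 ndF2q2b pcF0 Cut.none Ext.none)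

def k0_mm_102_b : ∃ t, chk3 f_mm_102_b t 1 1 1 = true :=
  ⟨(l 5), by decide +kernel⟩

theorem c_mm_102_b : CertF 536870912 536870912 1239849684 370763052 67108864 67108864 false false false .npp 1 0 2
    ndF1q1 ndF2q2b pcF0 Cut.none Ext.none :=
  certFK0 (fam := false) (s1 := false) (s2 := false) (a := 1) (b := 0) (c := 2) (cn := .npp) (n1 := ndF1q1) (n2 := ndF2q2b) (pc := pcF0) (cut := Cut.none) (xt := Ext.none) (P1 := 536870912) (W1 := 536870912) (P2 := 1239849684) (W2 := 370763052) (P3 := 67108864) (W3 := 67108864)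
    rfl rfl rfl k0_mm_102_b

noncomputable def f_mm_112_a : ℕ → ℕ → ℕ → ℕ → Bool := onCell 536870912 536870912 0 536870912 67108864 67108864
    (rowFK 0 false false false .dn 1 1 2 (qsf 536870912 536870912 0 536870912 1) ndF1q1 ndF2q2a pcF1 Cut.none Ext.none)

def k0_mm_112_a : ∃ t, chk3 f_mm_112_a t 1 1 1 = true :=
  ⟨(l 3), by decide +kernel⟩

theorem c_mm_112_a : CertF 536870912 536870912 0 536870912 67108864 67108864 false false false .dn 1 1 2
    ndF1q1 ndF2q2a pcF1 Cut.none Ext.none :=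
  certFK0 (fam := false) (s1 := false) (s2 := false) (a := 1) (b := 1) (c := 2) (cn := .dn) (n1 := ndF1q1) (n2 := ndF2q2a) (pc := pcF1) (cut := Cut.none) (xt := Ext.none) (P1 := 536870912) (W1 := 536870912) (P2 := 0) (W2 := 536870912) (P3 := 67108864) (W3 := 67108864)
    rfl rfl rfl k0_mm_112_a

noncomputable def f_mm_112_b : ℕ → ℕ → ℕ → ℕ → Bool := onCell 536870912 536870912 1239849684 370763052 67108864 67108864
    (rowFK 0 false false false .dn 1 1 2 (qsf 536870912 536870912 1239849684 370763052 1) ndF1q1 ndF2q2b pcF1 Cut.none Ext.none)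

def k0_mm_112_b : ∃ t, chk3 f_mm_112_b t 1 1 1 = true :=
  ⟨(l 5), by decide +kernel⟩

theorem c_mm_112_b : CertF 536870912 536870912 1239849684 370763052 67108864 67108864 false false false .dn 1 1 2
    ndF1q1 ndF2q2b pcF1 Cut.none Ext.none :=
  certFK0 (fam := false) (s1 := false) (s2 := false) (a := 1) (b := 1) (c := 2) (cn := .dn) (n1 := ndF1q1) (n2 := ndF2q2b) (pc := pcF1) (cut := Cut.none) (xt := Ext.none) (P1 := 536870912) (W1 := 536870912) (P2 := 1239849684) (W2 := 370763052) (P3 := 67108864) (W3 := 67108864)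
    rfl rfl rfl k0_mm_112_b

noncomputable def f_mm_113 : ℕ → ℕ → ℕ → ℕ → Bool := onCell 536870912 536870912 1610612736 536870912 67108864 67108864
    (rowFK 0 false false false .nn 1 1 3 (qsf 536870912 536870912 1610612736 536870912 1) ndF1q1 ndF2q3 pcF1 Cut.none Ext.none)

def k0_mm_113 : ∃ t, chk3 f_mm_113 t 1 1 1 = true :=
  ⟨(l 5), by decide +kernel⟩

theorem c_mm_113 : CertF 536870912 536870912 1610612736 536870912 67108864 67108864 false false false .nn 1 1 3
    ndF1q1 ndF2q3 pcF1 Cut.none Ext.none :=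
  certFK0 (fam := false) (s1 := false) (s2 := false) (a := 1) (b := 1) (c := 3) (cn := .nn) (n1 := ndF1q1) (n2 := ndF2q3) (pc := pcF1) (cut := Cut.none) (xt := Ext.none) (P1 := 536870912) (W1 := 536870912) (P2 := 1610612736) (W2 := 536870912) (P3 := 67108864) (W3 := 67108864)
    rfl rfl rfl k0_mm_113

noncomputable def f_mm_123 : ℕ → ℕ → ℕ → ℕ → Bool := onCell 536870912 536870912 1610612736 536870912 67108864 67108864
    (rowFK 0 false false false .npn 1 2 3 (qsf 536870912 536870912 1610612736 536870912 2) ndF1q1 ndF2q3 pcF2 Cut.none Ext.none)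

def k0_mm_123 : ∃ t, chk3 f_mm_123 t 1 1 1 = true :=
  ⟨(l 5), by decide +kernel⟩

theorem c_mm_123 : CertF 536870912 536870912 1610612736 536870912 67108864 67108864 false false false .npn 1 2 3
    ndF1q1 ndF2q3 pcF2 Cut.none Ext.none :=
  certFK0 (fam := false) (s1 := false) (s2 := false) (a := 1) (b := 2) (c := 3) (cn := .npn) (n1 := ndF1q1) (n2 := ndF2q3) (pc := pcF2) (cut := Cut.none) (xt := Ext.none) (P1 := 536870912) (W1 := 536870912) (P2 := 1610612736) (W2 := 536870912) (P3 := 67108864) (W3 := 67108864)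
    rfl rfl rfl k0_mm_123

noncomputable def f_mm_133 : ℕ → ℕ → ℕ → ℕ → Bool := onCell 536870912 536870912 1610612736 536870912 67108864 67108864
    (rowFK 0 false false false .dn 1 3 3 (qsf 536870912 536870912 1610612736 536870912 3) ndF1q1 ndF2q3 pcF3 Cut.none Ext.none)

def k0_mm_133 : ∃ t, chk3 f_mm_133 t 1 1 1 = true :=
  ⟨(l 5), by decide +kernel⟩

theorem c_mm_133 : CertF 536870912 536870912 1610612736 536870912 67108864 67108864 false false false .dn 1 3 3
    ndF1q1 ndF2q3 pcF3 Cut.none Ext.none :=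
  certFK0 (fam := false) (s1 := false) (s2 := false) (a := 1) (b := 3) (c := 3) (cn := .dn) (n1 := ndF1q1) (n2 := ndF2q3) (pc := pcF3) (cut := Cut.none) (xt := Ext.none) (P1 := 536870912) (W1 := 536870912) (P2 := 1610612736) (W2 := 536870912) (P3 := 67108864) (W3 := 67108864)
    rfl rfl rfl k0_mm_133

noncomputable def f_mm_202_aa : ℕ → ℕ → ℕ → ℕ → Bool := onCell 0 536870912 0 536870912 67108864 67108864
    (rowFK 0 false false false .pp 2 0 2 (qsf 0 536870912 0 536870912 0) ndF1q2a ndF2q2a pcF0 Cut.none Ext.none)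

def k0_mm_202_aa : ∃ t, chk3 f_mm_202_aa t 1 1 1 = true :=
  ⟨(l 3), by decide +kernel⟩

theorem c_mm_202_aa : CertF 0 536870912 0 536870912 67108864 67108864 false false false .pp 2 0 2
    ndF1q2a ndF2q2a pcF0 Cut.none Ext.none :=
  certFK0 (fam := false) (s1 := false) (s2 := false) (a := 2) (b := 0) (c := 2) (cn := .pp) (n1 := ndF1q2a) (n2 := ndF2q2a) (pc := pcF0) (cut := Cut.none) (xt := Ext.none) (P1 := 0) (W1 := 536870912) (P2 := 0) (W2 := 536870912) (P3 := 67108864) (W3 := 67108864)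
    rfl rfl rfl k0_mm_202_aa

noncomputable def f_mm_202_ab : ℕ → ℕ → ℕ → ℕ → Bool := onCell 0 536870912 1239849684 370763052 67108864 67108864
    (rowFK 0 false false false .pp 2 0 2 (qsf 0 536870912 1239849684 370763052 0) ndF1q2a ndF2q2b pcF0 Cut.none Ext.none)

def k0_mm_202_ab : ∃ t, chk3 f_mm_202_ab t 1 1 1 = true :=
  ⟨(l 3), by decide +kernel⟩

theorem c_mm_202_ab : CertF 0 536870912 1239849684 370763052 67108864 67108864 false false false .pp 2 0 2
    ndF1q2a ndF2q2b pcF0 Cut.none Ext.none :=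
  certFK0 (fam := false) (s1 := false) (s2 := false) (a := 2) (b := 0) (c := 2) (cn := .pp) (n1 := ndF1q2a) (n2 := ndF2q2b) (pc := pcF0) (cut := Cut.none) (xt := Ext.none) (P1 := 0) (W1 := 536870912) (P2 := 1239849684) (W2 := 370763052) (P3 := 67108864) (W3 := 67108864)
    rfl rfl rfl k0_mm_202_ab

noncomputable def f_mm_202_ba : ℕ → ℕ → ℕ → ℕ → Bool := onCell 1239849684 370763052 0 536870912 67108864 67108864
    (rowFK 0 false false false .pp 2 0 2 (qsf 1239849684 370763052 0 536870912 0) ndF1q2b ndF2q2a pcF0 Cut.none Ext.none)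

def k0_mm_202_ba : ∃ t, chk3 f_mm_202_ba t 1 1 1 = true :=
  ⟨(l 3), by decide +kernel⟩

theorem c_mm_202_ba : CertF 1239849684 370763052 0 536870912 67108864 67108864 false false false .pp 2 0 2
    ndF1q2b ndF2q2a pcF0 Cut.none Ext.none :=
  certFK0 (fam := false) (s1 := false) (s2 := false) (a := 2) (b := 0) (c := 2) (cn := .pp) (n1 := ndF1q2b) (n2 := ndF2q2a) (pc := pcF0) (cut := Cut.none) (xt := Ext.none) (P1 := 1239849684) (W1 := 370763052) (P2 := 0) (W2 := 536870912) (P3 := 67108864) (W3 := 67108864)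
    rfl rfl rfl k0_mm_202_ba

noncomputable def f_mm_202_bb : ℕ → ℕ → ℕ → ℕ → Bool := onCell 1239849684 370763052 1239849684 370763052 67108864 67108864
    (rowFK 0 false false false .pp 2 0 2 (qsf 1239849684 370763052 1239849684 370763052 0) ndF1q2b ndF2q2b pcF0 Cut.none Ext.none)

def k0_mm_202_bb : ∃ t, chk3 f_mm_202_bb t 1 1 1 = true :=
  ⟨(l 3), by decide +kernel⟩

theorem c_mm_202_bb : CertF 1239849684 370763052 1239849684 370763052 67108864 67108864 false false false .pp 2 0 2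
    ndF1q2b ndF2q2b pcF0 Cut.none Ext.none :=
  certFK0 (fam := false) (s1 := false) (s2 := false) (a := 2) (b := 0) (c := 2) (cn := .pp) (n1 := ndF1q2b) (n2 := ndF2q2b) (pc := pcF0) (cut := Cut.none) (xt := Ext.none) (P1 := 1239849684) (W1 := 370763052) (P2 := 1239849684) (W2 := 370763052) (P3 := 67108864) (W3 := 67108864)
    rfl rfl rfl k0_mm_202_bb

noncomputable def f_mm_203_a : ℕ → ℕ → ℕ → ℕ → Bool := onCell 0 536870912 0 536870912 67108864 67108864
    (rowFK 1 false false false .up 2 0 3 (qsf 0 536870912 1610612736 536870912 0) ndF1q2a ndF2q3 pcF0 Cut.none Ext.none)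

def k0_mm_203_a : ∃ t, chk3 f_mm_203_a t 1 1 1 = true :=
  ⟨(l 3), by decide +kernel⟩

theorem c_mm_203_a : CertF 0 536870912 1610612736 536870912 67108864 67108864 false false false .up 2 0 3
    ndF1q2a ndF2q3 pcF0 Cut.none Ext.none :=
  certFK1 (fam := false) (s1 := false) (s2 := false) (a := 2) (b := 0) (c := 3) (cn := .up) (n1 := ndF1q2a) (n2 := ndF2q3) (pc := pcF0) (cut := Cut.none) (xt := Ext.none) (P1 := 0) (W1 := 536870912) (P2 := 1610612736) (W2 := 536870912) (P3 := 67108864) (W3 := 67108864)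
    rfl rfl rfl (fun _ => rfl) k0_mm_203_a

noncomputable def f_mm_203_b : ℕ → ℕ → ℕ → ℕ → Bool := onCell 1239849684 370763052 1610612736 536870912 67108864 67108864
    (rowFK 0 false false false .up 2 0 3 (qsf 1239849684 370763052 1610612736 536870912 0) ndF1q2b ndF2q3 pcF0 Cut.none Ext.none)

def k0_mm_203_b : ∃ t, chk3 f_mm_203_b t 1 1 1 = true :=
  ⟨(l 3), by decide +kernel⟩

theorem c_mm_203_b : CertF 1239849684 370763052 1610612736 536870912 67108864 67108864 false false false .up 2 0 3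
    ndF1q2b ndF2q3 pcF0 Cut.none Ext.none :=
  certFK0 (fam := false) (s1 := false) (s2 := false) (a := 2) (b := 0) (c := 3) (cn := .up) (n1 := ndF1q2b) (n2 := ndF2q3) (pc := pcF0) (cut := Cut.none) (xt := Ext.none) (P1 := 1239849684) (W1 := 370763052) (P2 := 1610612736) (W2 := 536870912) (P3 := 67108864) (W3 := 67108864)
    rfl rfl rfl k0_mm_203_b

noncomputable def f_mm_213_a : ℕ → ℕ → ℕ → ℕ → Bool := onCell 0 536870912 1610612736 536870912 67108864 67108864
    (rowFK 0 false false false .pnn 2 1 3 (qsf 0 536870912 1610612736 536870912 1) ndF1q2a ndF2q3 pcF1 Cut.none Ext.none)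

def k0_mm_213_a : ∃ t, chk3 f_mm_213_a t 1 1 1 = true :=
  ⟨(b (l 3) (l 5)), by decide +kernel⟩

theorem c_mm_213_a : CertF 0 536870912 1610612736 536870912 67108864 67108864 false false false .pnn 2 1 3
    ndF1q2a ndF2q3 pcF1 Cut.none Ext.none :=
  certFK0 (fam := false) (s1 := false) (s2 := false) (a := 2) (b := 1) (c := 3) (cn := .pnn) (n1 := ndF1q2a) (n2 := ndF2q3) (pc := pcF1) (cut := Cut.none) (xt := Ext.none) (P1 := 0) (W1 := 536870912) (P2 := 1610612736) (W2 := 536870912) (P3 := 67108864) (W3 := 67108864)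
    rfl rfl rfl k0_mm_213_a

noncomputable def f_mm_213_b : ℕ → ℕ → ℕ → ℕ → Bool := onCell 1239849684 370763052 1610612736 536870912 67108864 67108864
    (rowFK 0 false false false .pnn 2 1 3 (qsf 1239849684 370763052 1610612736 536870912 1) ndF1q2b ndF2q3 pcF1 Cut.none Ext.none)

def k0_mm_213_b : ∃ t, chk3 f_mm_213_b t 1 1 1 = true :=
  ⟨(l 3), by decide +kernel⟩

theorem c_mm_213_b : CertF 1239849684 370763052 1610612736 536870912 67108864 67108864 false false false .pnn 2 1 3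
    ndF1q2b ndF2q3 pcF1 Cut.none Ext.none :=
  certFK0 (fam := false) (s1 := false) (s2 := false) (a := 2) (b := 1) (c := 3) (cn := .pnn) (n1 := ndF1q2b) (n2 := ndF2q3) (pc := pcF1) (cut := Cut.none) (xt := Ext.none) (P1 := 1239849684) (W1 := 370763052) (P2 := 1610612736) (W2 := 536870912) (P3 := 67108864) (W3 := 67108864)
    rfl rfl rfl k0_mm_213_b

noncomputable def f_mm_303 : ℕ → ℕ → ℕ → ℕ → Bool := onCell 1610612736 536870912 1610612736 536870912 67108864 67108864
    (rowFK 0 false false false .npn 3 0 3 (qsf 1610612736 536870912 1610612736 536870912 0) ndF1q3 ndF2q3 pcF0 Cut.none Ext.none)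

def k0_mm_303 : ∃ t, chk3 f_mm_303 t 1 1 1 = true :=
  ⟨(l 3), by decide +kernel⟩

theorem c_mm_303 : CertF 1610612736 536870912 1610612736 536870912 67108864 67108864 false false false .npn 3 0 3
    ndF1q3 ndF2q3 pcF0 Cut.none Ext.none :=
  certFK0 (fam := false) (s1 := false) (s2 := false) (a := 3) (b := 0) (c := 3) (cn := .npn) (n1 := ndF1q3) (n2 := ndF2q3) (pc := pcF0) (cut := Cut.none) (xt := Ext.none) (P1 := 1610612736) (W1 := 536870912) (P2 := 1610612736) (W2 := 536870912) (P3 := 67108864) (W3 := 67108864)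
    rfl rfl rfl k0_mm_303

noncomputable def f_mm_313 : ℕ → ℕ → ℕ → ℕ → Bool := onCell 1610612736 536870912 1610612736 536870912 67108864 67108864
    (rowFK 0 false false false .dn 3 1 3 (qsf 1610612736 536870912 1610612736 536870912 1) ndF1q3 ndF2q3 pcF1 Cut.none Ext.none)

def k0_mm_313 : ∃ t, chk3 f_mm_313 t 1 1 1 = true :=
  ⟨(l 3), by decide +kernel⟩

theorem c_mm_313 : CertF 1610612736 536870912 1610612736 536870912 67108864 67108864 false false false .dn 3 1 3
    ndF1q3 ndF2q3 pcF1 Cut.none Ext.none :=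
  certFK0 (fam := false) (s1 := false) (s2 := false) (a := 3) (b := 1) (c := 3) (cn := .dn) (n1 := ndF1q3) (n2 := ndF2q3) (pc := pcF1) (cut := Cut.none) (xt := Ext.none) (P1 := 1610612736) (W1 := 536870912) (P2 := 1610612736) (W2 := 536870912) (P3 := 67108864) (W3 := 67108864)
    rfl rfl rfl k0_mm_313

end Pool.Agent.Strip051.G.I1_16_1_8.Tab.C.FB12

namespace Pool.Agent.Strip051.G.I1_16_1_8.Tab.C.FB13

open Pool.Agent.Strip051.PB Pool.Agent.Strip051.PB.T
open Pool.Agent.Strip051.G.I1_16_1_8.Tab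

noncomputable def f_pp_001 : ℕ → ℕ → ℕ → ℕ → Bool := onCell 0 536870912 0 536870912 67108864 67108864
    (rowFK 1 false true true .up 0 0 1 (qsf 0 536870912 536870912 536870912 0) ndF1q0 ndF3q1 pcF0 Cut.none Ext.none)

def k0_pp_001 : ∃ t, chk3 f_pp_001 t 1 1 1 = true :=
  ⟨(l 3), by decide +kernel⟩

theorem c_pp_001 : CertF 0 536870912 536870912 536870912 67108864 67108864 false true true .up 0 0 1
    ndF1q0 ndF3q1 pcF0 Cut.none Ext.none :=
  certFK1 (fam := false) (s1 := true) (s2 := true) (a := 0) (b := 0) (c := 1) (cn := .up) (n1 := ndF1q0) (n2 := ndF3q1) (pc := pcF0) (cut := Cut.none) (xt := Ext.none) (P1 := 0) (W1 := 536870912) (P2 := 536870912) (W2 := 536870912) (P3 := 67108864) (W3 := 67108864)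
    rfl rfl rfl (fun _ => rfl) k0_pp_001

noncomputable def cut_pp_011 : Cut := Cut.of [[⟨0, 0, 0, 67108864⟩, ⟨1, 1, 0, 67108864⟩, ⟨2, 1, 0, 67108864⟩]]

noncomputable def f_pp_011 : ℕ → ℕ → ℕ → ℕ → Bool := onCell 0 536870912 536870912 536870912 67108864 67108864
    (rowFK 1 false true true .pnn 0 1 1 (qsf 0 536870912 536870912 536870912 1) ndF1q0 ndF3q1 pcF1 cut_pp_011 Ext.none)

def k0_pp_011 : ∃ t, chk3 f_pp_011 t 1 1 1 = true :=
  ⟨(b (l 3) (b (l 3) (a (a (b (l 3) (a (b (l 3) (a (l 6) (l 3))) (l 3))) (l 3)) (l 2)))), by decide +kernel⟩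

theorem c_pp_011 : CertF 0 536870912 536870912 536870912 67108864 67108864 false true true .pnn 0 1 1
    ndF1q0 ndF3q1 pcF1 cut_pp_011 Ext.none :=
  certFK1 (fam := false) (s1 := true) (s2 := true) (a := 0) (b := 1) (c := 1) (cn := .pnn) (n1 := ndF1q0) (n2 := ndF3q1) (pc := pcF1) (cut := cut_pp_011) (xt := Ext.none) (P1 := 0) (W1 := 536870912) (P2 := 536870912) (W2 := 536870912) (P3 := 67108864) (W3 := 67108864)
    rfl rfl rfl (fun _ => rfl) k0_pp_011

noncomputable def f_pp_012 : ℕ → ℕ → ℕ → ℕ → Bool := onCell 0 536870912 536870912 536870912 67108864 67108864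
    (rowFK 1 false true true .pnp 0 1 2 (qsf 0 536870912 1073741824 536870912 1) ndF1q0 ndF3q2 pcF1 Cut.none Ext.none)

def k0_pp_012 : ∃ t, chk3 f_pp_012 t 1 1 1 = true :=
  ⟨(b (l 3) (a (l 3) (b (l 3) (a (l 3) (l 334639766935))))), by decide +kernel⟩

theorem c_pp_012 : CertF 0 536870912 1073741824 536870912 67108864 67108864 false true true .pnp 0 1 2
    ndF1q0 ndF3q2 pcF1 Cut.none Ext.none :=
  certFK1 (fam := false) (s1 := true) (s2 := true) (a := 0) (b := 1) (c := 2) (cn := .pnp) (n1 := ndF1q0) (n2 := ndF3q2) (pc := pcF1) (cut := Cut.none) (xt := Ext.none) (P1 := 0) (W1 := 536870912) (P2 := 1073741824) (W2 := 536870912) (P3 := 67108864) (W3 := 67108864)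
    rfl rfl rfl (fun _ => rfl) k0_pp_012

noncomputable def f_pp_022 : ℕ → ℕ → ℕ → ℕ → Bool := onCell 0 536870912 1073741824 536870912 67108864 67108864
    (rowFK 1 false true true .pp 0 2 2 (qsf 0 536870912 1073741824 536870912 2) ndF1q0 ndF3q2 pcF2 Cut.none Ext.none)

def k0_pp_022 : ∃ t, chk3 f_pp_022 t 1 1 1 = true :=
  ⟨(b (b (a (b (l 3) (a (a (l 3) (b (l 3) (l 604686386759))) (b (l 17730152) (l 17874080)))) (a (b (l 17566888) (b (l 17724400) (l 17783520))) (b (b (l 17531488) (l 17591576)) (l 17755624)))) (a (a (b (b (b (a (a (l 969759005783) (l 18027576)) (l 18032368)) (a (b (a (a (a (c (l 18429944) (b (l 74257770567) (l 17723072))) (l 18093120)) (l 18112728)) (l 18124128)) (a (b (a (c (l 18482288) (l 17674152)) (l 18168464)) (a (b (b (l 18072952) (l 18146136)) (l 18182240)) (b (l 18194752) (l 18211744)))) (b (l 18167832) (l 18195792)))) (b (l 18096928) (b (l 18127408) (l 18147496))))) (a (a (a (c (l 18646336) (l 18062168)) (l 18340488)) (l 18308216))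 (l 18230480))) (a (a (l 18612432) (l 18523240)) (l 18393552))) (b (b (b (l 17972872) (b (l 18006360) (b (l 18009808) (l 18017000)))) (l 18055824)) (l 18118504))) (b (b (b (l 17748600) (l 17876872)) (l 17746648)) (l 17787336)))) (a (a (b (a (l 18796600) (l 18503640)) (a (l 18745632) (l 18371808))) (b (l 18264744) (l 18067808))) (b (a (l 17795360) (l 2)) (l 2)))), by decide +kernel⟩

theorem c_pp_022 : CertF 0 536870912 1073741824 536870912 67108864 67108864 false true true .pp 0 2 2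
    ndF1q0 ndF3q2 pcF2 Cut.none Ext.none :=
  certFK1 (fam := false) (s1 := true) (s2 := true) (a := 0) (b := 2) (c := 2) (cn := .pp) (n1 := ndF1q0) (n2 := ndF3q2) (pc := pcF2) (cut := Cut.none) (xt := Ext.none) (P1 := 0) (W1 := 536870912) (P2 := 1073741824) (W2 := 536870912) (P3 := 67108864) (W3 := 67108864)
    rfl rfl rfl (fun _ => rfl) k0_pp_022

noncomputable def f_pp_023 : ℕ → ℕ → ℕ → ℕ → Bool := onCell 1073741824 536870912 0 1230186008 67108864 67108864
    (rowFK 2 false true true .up 0 2 3 (qsf 0 536870912 0 1230186008 2) ndF1q0 ndF3q3 pcF2 Cut.none Ext.none)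

def k0_pp_023 : ∃ t, chk3 f_pp_023 t 1 1 1 = true :=
  ⟨(b (a (l 2) (a (l 2) (l 17604560))) (b (a (a (l 2) (l 17843424)) (a (l 17697864) (l 17637000))) (a (a (a (a (l 18391264) (b (l 2) (l 18346960))) (l 18400704)) (b (l 17962984) (a (l 18176536) (l 18067672)))) (b (l 17746000) (a (l 17967592) (l 17835560)))))), by decide +kernel⟩

theorem c_pp_023 : CertF 0 536870912 0 1230186008 67108864 67108864 false true true .up 0 2 3
    ndF1q0 ndF3q3 pcF2 Cut.none Ext.none :=
  certFK2 (fam := false) (s1 := true) (s2 := true) (a := 0) (b := 2) (c := 3) (cn := .up) (n1 := ndF1q0) (n2 := ndF3q3) (pc := pcF2) (cut := Cut.none) (xt := Ext.none) (P1 := 0) (W1 := 536870912) (P2 := 0) (W2 := 1230186008) (P3 := 67108864) (W3 := 67108864)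
    rfl rfl rfl (fun _ => rfl) k0_pp_023

noncomputable def f_pp_033 : ℕ → ℕ → ℕ → ℕ → Bool := onCell 1610612736 536870912 0 1230186008 67108864 67108864
    (rowFK 2 false true true .pnn 0 3 3 (qsf 0 536870912 0 1230186008 3) ndF1q0 ndF3q3 pcF3 Cut.none Ext.none)

def k0_pp_033 : ∃ t, chk3 f_pp_033 t 1 1 1 = true :=
  ⟨(b (b (a (a (l 17529840) (l 4)) (l 4)) (a (a (l 17298528) (a (l 17506560) (l 17613056))) (a (l 17575208) (l 4)))) (b (a (a (b (l 17246384) (l 17716600)) (b (l 17395520) (a (l 17414272) (l 17336208)))) (a (a (l 648575778247) (l 696357385351)) (b (a (l 17862968) (l 1)) (l 1)))) (a (b (a (b (l 17467016) (l 18042688)) (a (l 17743184) (b (l 17498432) (l 1)))) (a (a (b (l 18625736) (b (l 18552672) (l 18035616))) (b (b (l 18445312) (l 18519896)) (b (l 18112392) (l 1)))) (b (a (b (l 18305656) (l 1)) (l 1)) (l 1)))) (l 1)))), by decide +kernel⟩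

theorem c_pp_033 : CertF 0 536870912 0 1230186008 67108864 67108864 false true true .pnn 0 3 3
    ndF1q0 ndF3q3 pcF3 Cut.none Ext.none :=
  certFK2 (fam := false) (s1 := true) (s2 := true) (a := 0) (b := 3) (c := 3) (cn := .pnn) (n1 := ndF1q0) (n2 := ndF3q3) (pc := pcF3) (cut := Cut.none) (xt := Ext.none) (P1 := 0) (W1 := 536870912) (P2 := 0) (W2 := 1230186008) (P3 := 67108864) (W3 := 67108864)
    rfl rfl rfl (fun _ => rfl) k0_pp_033

noncomputable def f_pp_101 : ℕ → ℕ → ℕ → ℕ → Bool := onCell 536870912 536870912 536870912 536870912 67108864 67108864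
    (rowFK 0 false true true .npn 1 0 1 (qsf 536870912 536870912 536870912 536870912 0) ndF1q1 ndF3q1 pcF0 Cut.none Ext.none)

def k0_pp_101 : ∃ t, chk3 f_pp_101 t 1 1 1 = true :=
  ⟨(l 3), by decide +kernel⟩

theorem c_pp_101 : CertF 536870912 536870912 536870912 536870912 67108864 67108864 false true true .npn 1 0 1
    ndF1q1 ndF3q1 pcF0 Cut.none Ext.none :=
  certFK0 (fam := false) (s1 := true) (s2 := true) (a := 1) (b := 0) (c := 1) (cn := .npn) (n1 := ndF1q1) (n2 := ndF3q1) (pc := pcF0) (cut := Cut.none) (xt := Ext.none) (P1 := 536870912) (W1 := 536870912) (P2 := 536870912) (W2 := 536870912) (P3 := 67108864) (W3 := 67108864)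
    rfl rfl rfl k0_pp_101

noncomputable def f_pp_102 : ℕ → ℕ → ℕ → ℕ → Bool := onCell 536870912 536870912 0 536870912 67108864 67108864
    (rowFK 1 false true true .npp 1 0 2 (qsf 536870912 536870912 1073741824 536870912 0) ndF1q1 ndF3q2 pcF0 Cut.none Ext.none)

def k0_pp_102 : ∃ t, chk3 f_pp_102 t 1 1 1 = true :=
  ⟨(l 3), by decide +kernel⟩

theorem c_pp_102 : CertF 536870912 536870912 1073741824 536870912 67108864 67108864 false true true .npp 1 0 2
    ndF1q1 ndF3q2 pcF0 Cut.none Ext.none :=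
  certFK1 (fam := false) (s1 := true) (s2 := true) (a := 1) (b := 0) (c := 2) (cn := .npp) (n1 := ndF1q1) (n2 := ndF3q2) (pc := pcF0) (cut := Cut.none) (xt := Ext.none) (P1 := 536870912) (W1 := 536870912) (P2 := 1073741824) (W2 := 536870912) (P3 := 67108864) (W3 := 67108864)
    rfl rfl rfl (fun _ => rfl) k0_pp_102

noncomputable def f_pp_112 : ℕ → ℕ → ℕ → ℕ → Bool := onCell 536870912 536870912 1073741824 536870912 67108864 67108864
    (rowFK 2 false true true .dn 1 1 2 (qsf 536870912 536870912 1073741824 536870912 1) ndF1q1 ndF3q2 pcF1 Cut.none Ext.none)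

def k0_pp_112 : ∃ t, chk3 f_pp_112 t 1 1 1 = true :=
  ⟨(a (l 3) (b (l 3) (a (l 3) (b (l 3) (l 364704689335))))), by decide +kernel⟩

theorem c_pp_112 : CertF 536870912 536870912 1073741824 536870912 67108864 67108864 false true true .dn 1 1 2
    ndF1q1 ndF3q2 pcF1 Cut.none Ext.none :=
  certFK2 (fam := false) (s1 := true) (s2 := true) (a := 1) (b := 1) (c := 2) (cn := .dn) (n1 := ndF1q1) (n2 := ndF3q2) (pc := pcF1) (cut := Cut.none) (xt := Ext.none) (P1 := 536870912) (W1 := 536870912) (P2 := 1073741824) (W2 := 536870912) (P3 := 67108864) (W3 := 67108864)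
    rfl rfl rfl (fun _ => rfl) k0_pp_112

noncomputable def f_pp_113 : ℕ → ℕ → ℕ → ℕ → Bool := onCell 536870912 536870912 0 1230186008 67108864 67108864
    (rowFK 2 false true true .nn 1 1 3 (qsf 536870912 536870912 0 1230186008 1) ndF1q1 ndF3q3 pcF1 Cut.none Ext.none)

def k0_pp_113 : ∃ t, chk3 f_pp_113 t 1 1 1 = true :=
  ⟨(a (b (l 2) (b (b (l 2) (l 3)) (a (l 3) (l 3)))) (b (a (l 2) (b (a (l 2) (a (l 2) (l 16903472))) (l 17266240))) (b (a (b (l 720046362615) (l 270215285575)) (b (l 17321144) (l 17817384))) (a (b (l 17956224) (l 3)) (b (l 18312160) (l 203109291799)))))), by decide +kernel⟩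

theorem c_pp_113 : CertF 536870912 536870912 0 1230186008 67108864 67108864 false true true .nn 1 1 3
    ndF1q1 ndF3q3 pcF1 Cut.none Ext.none :=
  certFK2 (fam := false) (s1 := true) (s2 := true) (a := 1) (b := 1) (c := 3) (cn := .nn) (n1 := ndF1q1) (n2 := ndF3q3) (pc := pcF1) (cut := Cut.none) (xt := Ext.none) (P1 := 536870912) (W1 := 536870912) (P2 := 0) (W2 := 1230186008) (P3 := 67108864) (W3 := 67108864)
    rfl rfl rfl (fun _ => rfl) k0_pp_113

noncomputable def f_pp_123 : ℕ → ℕ → ℕ → ℕ → Bool := onCell 1073741824 536870912 0 1230186008 67108864 67108864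
    (rowFK 2 false true true .npn 1 2 3 (qsf 536870912 536870912 0 1230186008 2) ndF1q1 ndF3q3 pcF2 Cut.none Ext.none)

def k0_pp_123 : ∃ t, chk3 f_pp_123 t 1 1 1 = true :=
  ⟨(b (a (a (a (a (l 17259544) (l 17399624)) (l 17623072)) (l 18137152)) (a (l 18235376) (l 18189816))) (b (a (a (a (a (l 18087704) (l 18142040)) (l 18226248)) (l 18323232)) (a (l 18276528) (l 18008968))) (a (a (a (a (l 18848728) (b (l 18680864) (l 18877160))) (l 275989657559)) (b (l 18538344) (l 219080839527))) (l 1)))), by decide +kernel⟩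

theorem c_pp_123 : CertF 536870912 536870912 0 1230186008 67108864 67108864 false true true .npn 1 2 3
    ndF1q1 ndF3q3 pcF2 Cut.none Ext.none :=
  certFK2 (fam := false) (s1 := true) (s2 := true) (a := 1) (b := 2) (c := 3) (cn := .npn) (n1 := ndF1q1) (n2 := ndF3q3) (pc := pcF2) (cut := Cut.none) (xt := Ext.none) (P1 := 536870912) (W1 := 536870912) (P2 := 0) (W2 := 1230186008) (P3 := 67108864) (W3 := 67108864)
    rfl rfl rfl (fun _ => rfl) k0_pp_123

noncomputable def f_pp_133 : ℕ → ℕ → ℕ → ℕ → Bool := onCell 536870912 536870912 0 1230186008 67108864 67108864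
    (rowFK 0 false true true .dn 1 3 3 (qsf 536870912 536870912 0 1230186008 3) ndF1q1 ndF3q3 pcF3 Cut.none Ext.none)

def k0_pp_133 : ∃ t, chk3 f_pp_133 t 1 1 1 = true :=
  ⟨(b (b (a (a (l 18052000) (l 1)) (l 1)) (l 1)) (l 1)), by decide +kernel⟩

theorem c_pp_133 : CertF 536870912 536870912 0 1230186008 67108864 67108864 false true true .dn 1 3 3
    ndF1q1 ndF3q3 pcF3 Cut.none Ext.none :=
  certFK0 (fam := false) (s1 := true) (s2 := true) (a := 1) (b := 3) (c := 3) (cn := .dn) (n1 := ndF1q1) (n2 := ndF3q3) (pc := pcF3) (cut := Cut.none) (xt := Ext.none) (P1 := 536870912) (W1 := 536870912) (P2 := 0) (W2 := 1230186008) (P3 := 67108864) (W3 := 67108864)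
    rfl rfl rfl k0_pp_133

noncomputable def f_pp_202_a : ℕ → ℕ → ℕ → ℕ → Bool := onCell 0 536870912 1073741824 536870912 67108864 67108864
    (rowFK 0 false true true .pp 2 0 2 (qsf 0 536870912 1073741824 536870912 0) ndF1q2a ndF3q2 pcF0 Cut.none Ext.none)

def k0_pp_202_a : ∃ t, chk3 f_pp_202_a t 1 1 1 = true :=
  ⟨(l 3), by decide +kernel⟩

theorem c_pp_202_a : CertF 0 536870912 1073741824 536870912 67108864 67108864 false true true .pp 2 0 2
    ndF1q2a ndF3q2 pcF0 Cut.none Ext.none :=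
  certFK0 (fam := false) (s1 := true) (s2 := true) (a := 2) (b := 0) (c := 2) (cn := .pp) (n1 := ndF1q2a) (n2 := ndF3q2) (pc := pcF0) (cut := Cut.none) (xt := Ext.none) (P1 := 0) (W1 := 536870912) (P2 := 1073741824) (W2 := 536870912) (P3 := 67108864) (W3 := 67108864)
    rfl rfl rfl k0_pp_202_a

noncomputable def f_pp_202_b : ℕ → ℕ → ℕ → ℕ → Bool := onCell 1239849684 370763052 1073741824 536870912 67108864 67108864
    (rowFK 0 false true true .pp 2 0 2 (qsf 1239849684 370763052 1073741824 536870912 0) ndF1q2b ndF3q2 pcF0 Cut.none Ext.none)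

def k0_pp_202_b : ∃ t, chk3 f_pp_202_b t 1 1 1 = true :=
  ⟨(l 3), by decide +kernel⟩

theorem c_pp_202_b : CertF 1239849684 370763052 1073741824 536870912 67108864 67108864 false true true .pp 2 0 2
    ndF1q2b ndF3q2 pcF0 Cut.none Ext.none :=
  certFK0 (fam := false) (s1 := true) (s2 := true) (a := 2) (b := 0) (c := 2) (cn := .pp) (n1 := ndF1q2b) (n2 := ndF3q2) (pc := pcF0) (cut := Cut.none) (xt := Ext.none) (P1 := 1239849684) (W1 := 370763052) (P2 := 1073741824) (W2 := 536870912) (P3 := 67108864) (W3 := 67108864)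
    rfl rfl rfl k0_pp_202_b

noncomputable def f_pp_203_a : ℕ → ℕ → ℕ → ℕ → Bool := onCell 0 536870912 0 1230186008 67108864 67108864
    (rowFK 0 false true true .up 2 0 3 (qsf 0 536870912 0 1230186008 0) ndF1q2a ndF3q3 pcF0 Cut.none Ext.none)

def k0_pp_203_a : ∃ t, chk3 f_pp_203_a t 1 1 1 = true :=
  ⟨(b (l 2) (l 3)), by decide +kernel⟩

theorem c_pp_203_a : CertF 0 536870912 0 1230186008 67108864 67108864 false true true .up 2 0 3
    ndF1q2a ndF3q3 pcF0 Cut.none Ext.none :=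
  certFK0 (fam := false) (s1 := true) (s2 := true) (a := 2) (b := 0) (c := 3) (cn := .up) (n1 := ndF1q2a) (n2 := ndF3q3) (pc := pcF0) (cut := Cut.none) (xt := Ext.none) (P1 := 0) (W1 := 536870912) (P2 := 0) (W2 := 1230186008) (P3 := 67108864) (W3 := 67108864)
    rfl rfl rfl k0_pp_203_a

noncomputable def f_pp_203_b : ℕ → ℕ → ℕ → ℕ → Bool := onCell 1239849684 370763052 0 1230186008 67108864 67108864
    (rowFK 0 false true true .up 2 0 3 (qsf 1239849684 370763052 0 1230186008 0) ndF1q2b ndF3q3 pcF0 Cut.none Ext.none)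

def k0_pp_203_b : ∃ t, chk3 f_pp_203_b t 1 1 1 = true :=
  ⟨(b (l 3) (l 3)), by decide +kernel⟩

theorem c_pp_203_b : CertF 1239849684 370763052 0 1230186008 67108864 67108864 false true true .up 2 0 3
    ndF1q2b ndF3q3 pcF0 Cut.none Ext.none :=
  certFK0 (fam := false) (s1 := true) (s2 := true) (a := 2) (b := 0) (c := 3) (cn := .up) (n1 := ndF1q2b) (n2 := ndF3q3) (pc := pcF0) (cut := Cut.none) (xt := Ext.none) (P1 := 1239849684) (W1 := 370763052) (P2 := 0) (W2 := 1230186008) (P3 := 67108864) (W3 := 67108864)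
    rfl rfl rfl k0_pp_203_b

noncomputable def cut_pp_213_a : Cut := Cut.of [[⟨0, 1, 0, 21338704⟩, ⟨1, 1, 0, 21338704⟩, ⟨2, 2, 0, 1685920⟩]]

noncomputable def f_pp_213_a : ℕ → ℕ → ℕ → ℕ → Bool := onCell 0 536870912 0 1230186008 67108864 67108864
    (rowFK 0 false true true .pnn 2 1 3 (qsf 0 536870912 0 1230186008 1) ndF1q2a ndF3q3 pcF1 cut_pp_213_a Ext.none)

def k0_pp_213_a : ∃ t, chk3 f_pp_213_a t 1 1 1 = true :=
  ⟨(b (a (l 3) (b (a (l 3) (b (a (l 3) (b (a (l 3) (b (a (l 3) (l 6)) (l 3))) (l 3))) (l 3))) (l 3))) (l 3)), by decide +kernel⟩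

theorem c_pp_213_a : CertF 0 536870912 0 1230186008 67108864 67108864 false true true .pnn 2 1 3
    ndF1q2a ndF3q3 pcF1 cut_pp_213_a Ext.none :=
  certFK0 (fam := false) (s1 := true) (s2 := true) (a := 2) (b := 1) (c := 3) (cn := .pnn) (n1 := ndF1q2a) (n2 := ndF3q3) (pc := pcF1) (cut := cut_pp_213_a) (xt := Ext.none) (P1 := 0) (W1 := 536870912) (P2 := 0) (W2 := 1230186008) (P3 := 67108864) (W3 := 67108864)
    rfl rfl rfl k0_pp_213_a

noncomputable def cut_pp_213_b : Cut := Cut.of [[⟨0, 1, 0, 21338704⟩, ⟨1, 1, 0, 21338704⟩, ⟨2, 2, 0, 1685920⟩]]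

noncomputable def f_pp_213_b : ℕ → ℕ → ℕ → ℕ → Bool := onCell 1239849684 370763052 0 1230186008 67108864 67108864
    (rowFK 0 false true true .pnn 2 1 3 (qsf 1239849684 370763052 0 1230186008 1) ndF1q2b ndF3q3 pcF1 cut_pp_213_b Ext.none)

def k0_pp_213_b : ∃ t, chk3 f_pp_213_b t 1 1 1 = true :=
  ⟨(b (l 3) (l 3)), by decide +kernel⟩

theorem c_pp_213_b : CertF 1239849684 370763052 0 1230186008 67108864 67108864 false true true .pnn 2 1 3
    ndF1q2b ndF3q3 pcF1 cut_pp_213_b Ext.none :=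
  certFK0 (fam := false) (s1 := true) (s2 := true) (a := 2) (b := 1) (c := 3) (cn := .pnn) (n1 := ndF1q2b) (n2 := ndF3q3) (pc := pcF1) (cut := cut_pp_213_b) (xt := Ext.none) (P1 := 1239849684) (W1 := 370763052) (P2 := 0) (W2 := 1230186008) (P3 := 67108864) (W3 := 67108864)
    rfl rfl rfl k0_pp_213_b

noncomputable def f_pp_303 : ℕ → ℕ → ℕ → ℕ → Bool := onCell 1610612736 536870912 0 1230186008 67108864 67108864
    (rowFK 0 false true true .npn 3 0 3 (qsf 1610612736 536870912 0 1230186008 0) ndF1q3 ndF3q3 pcF0 Cut.none Ext.none)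

def k0_pp_303 : ∃ t, chk3 f_pp_303 t 1 1 1 = true :=
  ⟨(b (l 3) (l 3)), by decide +kernel⟩

theorem c_pp_303 : CertF 1610612736 536870912 0 1230186008 67108864 67108864 false true true .npn 3 0 3
    ndF1q3 ndF3q3 pcF0 Cut.none Ext.none :=
  certFK0 (fam := false) (s1 := true) (s2 := true) (a := 3) (b := 0) (c := 3) (cn := .npn) (n1 := ndF1q3) (n2 := ndF3q3) (pc := pcF0) (cut := Cut.none) (xt := Ext.none) (P1 := 1610612736) (W1 := 536870912) (P2 := 0) (W2 := 1230186008) (P3 := 67108864) (W3 := 67108864)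
    rfl rfl rfl k0_pp_303

noncomputable def f_pp_313 : ℕ → ℕ → ℕ → ℕ → Bool := onCell 1610612736 536870912 0 1230186008 67108864 67108864
    (rowFK 0 false true true .dn 3 1 3 (qsf 1610612736 536870912 0 1230186008 1) ndF1q3 ndF3q3 pcF1 Cut.none Ext.none)

def k0_pp_313 : ∃ t, chk3 f_pp_313 t 1 1 1 = true :=
  ⟨(b (l 3) (l 1)), by decide +kernel⟩

theorem c_pp_313 : CertF 1610612736 536870912 0 1230186008 67108864 67108864 false true true .dn 3 1 3
    ndF1q3 ndF3q3 pcF1 Cut.none Ext.none :=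
  certFK0 (fam := false) (s1 := true) (s2 := true) (a := 3) (b := 1) (c := 3) (cn := .dn) (n1 := ndF1q3) (n2 := ndF3q3) (pc := pcF1) (cut := Cut.none) (xt := Ext.none) (P1 := 1610612736) (W1 := 536870912) (P2 := 0) (W2 := 1230186008) (P3 := 67108864) (W3 := 67108864)
    rfl rfl rfl k0_pp_313

noncomputable def f_pm_001 : ℕ → ℕ → ℕ → ℕ → Bool := onCell 0 536870912 536870912 536870912 67108864 67108864
    (rowFK 0 false true false .up 0 0 1 (qsf 0 536870912 536870912 536870912 0) ndF1q0 ndF3q1 pcF0 Cut.none Ext.none)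

def k0_pm_001 : ∃ t, chk3 f_pm_001 t 1 1 1 = true :=
  ⟨(l 4), by decide +kernel⟩

theorem c_pm_001 : CertF 0 536870912 536870912 536870912 67108864 67108864 false true false .up 0 0 1
    ndF1q0 ndF3q1 pcF0 Cut.none Ext.none :=
  certFK0 (fam := false) (s1 := true) (s2 := false) (a := 0) (b := 0) (c := 1) (cn := .up) (n1 := ndF1q0) (n2 := ndF3q1) (pc := pcF0) (cut := Cut.none) (xt := Ext.none) (P1 := 0) (W1 := 536870912) (P2 := 536870912) (W2 := 536870912) (P3 := 67108864) (W3 := 67108864)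
    rfl rfl rfl k0_pm_001

noncomputable def f_pm_011 : ℕ → ℕ → ℕ → ℕ → Bool := onCell 0 536870912 536870912 536870912 67108864 67108864
    (rowFK 0 false true false .pnn 0 1 1 (qsf 0 536870912 536870912 536870912 1) ndF1q0 ndF3q1 pcF1 Cut.none Ext.none)

def k0_pm_011 : ∃ t, chk3 f_pm_011 t 1 1 1 = true :=
  ⟨(l 4), by decide +kernel⟩

theorem c_pm_011 : CertF 0 536870912 536870912 536870912 67108864 67108864 false true false .pnn 0 1 1
    ndF1q0 ndF3q1 pcF1 Cut.none Ext.none :=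
  certFK0 (fam := false) (s1 := true) (s2 := false) (a := 0) (b := 1) (c := 1) (cn := .pnn) (n1 := ndF1q0) (n2 := ndF3q1) (pc := pcF1) (cut := Cut.none) (xt := Ext.none) (P1 := 0) (W1 := 536870912) (P2 := 536870912) (W2 := 536870912) (P3 := 67108864) (W3 := 67108864)
    rfl rfl rfl k0_pm_011

noncomputable def f_pm_012 : ℕ → ℕ → ℕ → ℕ → Bool := onCell 0 536870912 1073741824 536870912 67108864 67108864
    (rowFK 0 false true false .pnp 0 1 2 (qsf 0 536870912 1073741824 536870912 1) ndF1q0 ndF3q2 pcF1 Cut.none Ext.none)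

def k0_pm_012 : ∃ t, chk3 f_pm_012 t 1 1 1 = true :=
  ⟨(l 4), by decide +kernel⟩

theorem c_pm_012 : CertF 0 536870912 1073741824 536870912 67108864 67108864 false true false .pnp 0 1 2
    ndF1q0 ndF3q2 pcF1 Cut.none Ext.none :=
  certFK0 (fam := false) (s1 := true) (s2 := false) (a := 0) (b := 1) (c := 2) (cn := .pnp) (n1 := ndF1q0) (n2 := ndF3q2) (pc := pcF1) (cut := Cut.none) (xt := Ext.none) (P1 := 0) (W1 := 536870912) (P2 := 1073741824) (W2 := 536870912) (P3 := 67108864) (W3 := 67108864)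
    rfl rfl rfl k0_pm_012

noncomputable def f_pm_022 : ℕ → ℕ → ℕ → ℕ → Bool := onCell 0 536870912 1073741824 536870912 67108864 67108864
    (rowFK 0 false true false .pp 0 2 2 (qsf 0 536870912 1073741824 536870912 2) ndF1q0 ndF3q2 pcF2 Cut.none Ext.none)

def k0_pm_022 : ∃ t, chk3 f_pm_022 t 1 1 1 = true :=
  ⟨(l 4), by decide +kernel⟩

theorem c_pm_022 : CertF 0 536870912 1073741824 536870912 67108864 67108864 false true false .pp 0 2 2
    ndF1q0 ndF3q2 pcF2 Cut.none Ext.none :=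
  certFK0 (fam := false) (s1 := true) (s2 := false) (a := 0) (b := 2) (c := 2) (cn := .pp) (n1 := ndF1q0) (n2 := ndF3q2) (pc := pcF2) (cut := Cut.none) (xt := Ext.none) (P1 := 0) (W1 := 536870912) (P2 := 1073741824) (W2 := 536870912) (P3 := 67108864) (W3 := 67108864)
    rfl rfl rfl k0_pm_022

noncomputable def f_pm_023 : ℕ → ℕ → ℕ → ℕ → Bool := onCell 0 536870912 0 1230186008 67108864 67108864
    (rowFK 0 false true false .up 0 2 3 (qsf 0 536870912 0 1230186008 2) ndF1q0 ndF3q3 pcF2 Cut.none Ext.none)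

def k0_pm_023 : ∃ t, chk3 f_pm_023 t 1 1 1 = true :=
  ⟨(b (b (a (l 2) (l 4)) (l 4)) (l 4)), by decide +kernel⟩

theorem c_pm_023 : CertF 0 536870912 0 1230186008 67108864 67108864 false true false .up 0 2 3
    ndF1q0 ndF3q3 pcF2 Cut.none Ext.none :=
  certFK0 (fam := false) (s1 := true) (s2 := false) (a := 0) (b := 2) (c := 3) (cn := .up) (n1 := ndF1q0) (n2 := ndF3q3) (pc := pcF2) (cut := Cut.none) (xt := Ext.none) (P1 := 0) (W1 := 536870912) (P2 := 0) (W2 := 1230186008) (P3 := 67108864) (W3 := 67108864)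
    rfl rfl rfl k0_pm_023

noncomputable def f_pm_033 : ℕ → ℕ → ℕ → ℕ → Bool := onCell 0 536870912 0 1230186008 67108864 67108864
    (rowFK 0 false true false .pnn 0 3 3 (qsf 0 536870912 0 1230186008 3) ndF1q0 ndF3q3 pcF3 Cut.none Ext.none)

def k0_pm_033 : ∃ t, chk3 f_pm_033 t 1 1 1 = true :=
  ⟨(b (a (l 4) (b (l 4) (l 4))) (l 4)), by decide +kernel⟩

theorem c_pm_033 : CertF 0 536870912 0 1230186008 67108864 67108864 false true false .pnn 0 3 3
    ndF1q0 ndF3q3 pcF3 Cut.none Ext.none :=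
  certFK0 (fam := false) (s1 := true) (s2 := false) (a := 0) (b := 3) (c := 3) (cn := .pnn) (n1 := ndF1q0) (n2 := ndF3q3) (pc := pcF3) (cut := Cut.none) (xt := Ext.none) (P1 := 0) (W1 := 536870912) (P2 := 0) (W2 := 1230186008) (P3 := 67108864) (W3 := 67108864)
    rfl rfl rfl k0_pm_033

noncomputable def f_pm_101 : ℕ → ℕ → ℕ → ℕ → Bool := onCell 536870912 536870912 536870912 536870912 67108864 67108864
    (rowFK 0 false true false .npn 1 0 1 (qsf 536870912 536870912 536870912 536870912 0) ndF1q1 ndF3q1 pcF0 Cut.none Ext.none)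

def k0_pm_101 : ∃ t, chk3 f_pm_101 t 1 1 1 = true :=
  ⟨(l 4), by decide +kernel⟩

theorem c_pm_101 : CertF 536870912 536870912 536870912 536870912 67108864 67108864 false true false .npn 1 0 1
    ndF1q1 ndF3q1 pcF0 Cut.none Ext.none :=
  certFK0 (fam := false) (s1 := true) (s2 := false) (a := 1) (b := 0) (c := 1) (cn := .npn) (n1 := ndF1q1) (n2 := ndF3q1) (pc := pcF0) (cut := Cut.none) (xt := Ext.none) (P1 := 536870912) (W1 := 536870912) (P2 := 536870912) (W2 := 536870912) (P3 := 67108864) (W3 := 67108864)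
    rfl rfl rfl k0_pm_101

noncomputable def f_pm_102 : ℕ → ℕ → ℕ → ℕ → Bool := onCell 536870912 536870912 1073741824 536870912 67108864 67108864
    (rowFK 0 false true false .npp 1 0 2 (qsf 536870912 536870912 1073741824 536870912 0) ndF1q1 ndF3q2 pcF0 Cut.none Ext.none)

def k0_pm_102 : ∃ t, chk3 f_pm_102 t 1 1 1 = true :=
  ⟨(l 4), by decide +kernel⟩

theorem c_pm_102 : CertF 536870912 536870912 1073741824 536870912 67108864 67108864 false true false .npp 1 0 2
    ndF1q1 ndF3q2 pcF0 Cut.none Ext.none :=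
  certFK0 (fam := false) (s1 := true) (s2 := false) (a := 1) (b := 0) (c := 2) (cn := .npp) (n1 := ndF1q1) (n2 := ndF3q2) (pc := pcF0) (cut := Cut.none) (xt := Ext.none) (P1 := 536870912) (W1 := 536870912) (P2 := 1073741824) (W2 := 536870912) (P3 := 67108864) (W3 := 67108864)
    rfl rfl rfl k0_pm_102

noncomputable def f_pm_112 : ℕ → ℕ → ℕ → ℕ → Bool := onCell 536870912 536870912 1073741824 536870912 67108864 67108864
    (rowFK 0 false true false .dn 1 1 2 (qsf 536870912 536870912 1073741824 536870912 1) ndF1q1 ndF3q2 pcF1 Cut.none Ext.none)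

def k0_pm_112 : ∃ t, chk3 f_pm_112 t 1 1 1 = true :=
  ⟨(l 4), by decide +kernel⟩

theorem c_pm_112 : CertF 536870912 536870912 1073741824 536870912 67108864 67108864 false true false .dn 1 1 2
    ndF1q1 ndF3q2 pcF1 Cut.none Ext.none :=
  certFK0 (fam := false) (s1 := true) (s2 := false) (a := 1) (b := 1) (c := 2) (cn := .dn) (n1 := ndF1q1) (n2 := ndF3q2) (pc := pcF1) (cut := Cut.none) (xt := Ext.none) (P1 := 536870912) (W1 := 536870912) (P2 := 1073741824) (W2 := 536870912) (P3 := 67108864) (W3 := 67108864)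
    rfl rfl rfl k0_pm_112

noncomputable def f_pm_113 : ℕ → ℕ → ℕ → ℕ → Bool := onCell 536870912 536870912 0 1230186008 67108864 67108864
    (rowFK 2 false true false .nn 1 1 3 (qsf 536870912 536870912 0 1230186008 1) ndF1q1 ndF3q3 pcF1 Cut.none Ext.none)

def k0_pm_113 : ∃ t, chk3 f_pm_113 t 1 1 1 = true :=
  ⟨(b (a (l 2) (a (l 2) (a (b (l 2) (l 17098592)) (a (b (l 2) (l 17224216)) (l 17146928))))) (b (a (a (l 2) (b (l 2) (a (l 2) (b (l 2) (l 17663688))))) (a (a (b (l 2) (l 128951734023)) (b (l 17038208) (l 17564736))) (a (l 17788672) (a (l 18159672) (l 18395088))))) (a (b (a (l 2) (a (b (l 18072776) (l 17588352)) (l 17311768))) (l 17632696)) (l 18276760)))), by decide +kernel⟩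

theorem c_pm_113 : CertF 536870912 536870912 0 1230186008 67108864 67108864 false true false .nn 1 1 3
    ndF1q1 ndF3q3 pcF1 Cut.none Ext.none :=
  certFK2 (fam := false) (s1 := true) (s2 := false) (a := 1) (b := 1) (c := 3) (cn := .nn) (n1 := ndF1q1) (n2 := ndF3q3) (pc := pcF1) (cut := Cut.none) (xt := Ext.none) (P1 := 536870912) (W1 := 536870912) (P2 := 0) (W2 := 1230186008) (P3 := 67108864) (W3 := 67108864)
    rfl rfl rfl (fun _ => rfl) k0_pm_113

noncomputable def f_pm_123 : ℕ → ℕ → ℕ → ℕ → Bool := onCell 1073741824 536870912 0 1230186008 67108864 67108864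
    (rowFK 2 false true false .npn 1 2 3 (qsf 536870912 536870912 0 1230186008 2) ndF1q1 ndF3q3 pcF2 Cut.none Ext.none)

def k0_pm_123 : ∃ t, chk3 f_pm_123 t 1 1 1 = true :=
  ⟨(b (a (a (l 17817944) (l 18253728)) (a (l 18139880) (l 18165320))) (a (b (a (l 18672032) (l 4)) (l 4)) (l 4))), by decide +kernel⟩

theorem c_pm_123 : CertF 536870912 536870912 0 1230186008 67108864 67108864 false true false .npn 1 2 3
    ndF1q1 ndF3q3 pcF2 Cut.none Ext.none :=
  certFK2 (fam := false) (s1 := true) (s2 := false) (a := 1) (b := 2) (c := 3) (cn := .npn) (n1 := ndF1q1) (n2 := ndF3q3) (pc := pcF2) (cut := Cut.none) (xt := Ext.none) (P1 := 536870912) (W1 := 536870912) (P2 := 0) (W2 := 1230186008) (P3 := 67108864) (W3 := 67108864)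
    rfl rfl rfl (fun _ => rfl) k0_pm_123

noncomputable def f_pm_133 : ℕ → ℕ → ℕ → ℕ → Bool := onCell 1610612736 536870912 0 1230186008 67108864 67108864
    (rowFK 2 false true false .dn 1 3 3 (qsf 536870912 536870912 0 1230186008 3) ndF1q1 ndF3q3 pcF3 Cut.none Ext.none)

def k0_pm_133 : ∃ t, chk3 f_pm_133 t 1 1 1 = true :=
  ⟨(a (b (b (l 4) (l 1)) (l 1)) (l 1)), by decide +kernel⟩

theorem c_pm_133 : CertF 536870912 536870912 0 1230186008 67108864 67108864 false true false .dn 1 3 3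
    ndF1q1 ndF3q3 pcF3 Cut.none Ext.none :=
  certFK2 (fam := false) (s1 := true) (s2 := false) (a := 1) (b := 3) (c := 3) (cn := .dn) (n1 := ndF1q1) (n2 := ndF3q3) (pc := pcF3) (cut := Cut.none) (xt := Ext.none) (P1 := 536870912) (W1 := 536870912) (P2 := 0) (W2 := 1230186008) (P3 := 67108864) (W3 := 67108864)
    rfl rfl rfl (fun _ => rfl) k0_pm_133

noncomputable def f_pm_202_a : ℕ → ℕ → ℕ → ℕ → Bool := onCell 0 536870912 0 536870912 67108864 67108864
    (rowFK 1 false true false .pp 2 0 2 (qsf 0 536870912 1073741824 536870912 0) ndF1q2a ndF3q2 pcF0 Cut.none Ext.none)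

def k0_pm_202_a : ∃ t, chk3 f_pm_202_a t 1 1 1 = true :=
  ⟨(b (b (a (b (b (l 18101152) (l 17796056)) (a (l 17924032) (l 17796680))) (b (a (b (l 18909584) (l 18558048)) (l 19108984)) (a (l 18059680) (b (l 18782640) (l 18486776))))) (a (b (a (b (l 18020760) (l 17951264)) (l 17828400)) (a (b (l 17964168) (l 17932392)) (l 17937720))) (b (a (l 17908184) (l 18070368)) (a (b (l 17720592) (l 17638368)) (a (l 17728768) (l 17873992)))))) (b (a (b (a (l 17845496) (l 17758480)) (l 17730984)) (b (a (l 17747536) (b (l 17784560) (l 17676488))) (a (a (l 17718176) (l 17672464)) (a (l 17543776) (l 17639120))))) (a (l 1162964587703) (b (a (l 17631800) (l 17503368)) (a (l 2) (l 17503664)))))), by decide +kernel⟩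

theorem c_pm_202_a : CertF 0 536870912 1073741824 536870912 67108864 67108864 false true false .pp 2 0 2
    ndF1q2a ndF3q2 pcF0 Cut.none Ext.none :=
  certFK1 (fam := false) (s1 := true) (s2 := false) (a := 2) (b := 0) (c := 2) (cn := .pp) (n1 := ndF1q2a) (n2 := ndF3q2) (pc := pcF0) (cut := Cut.none) (xt := Ext.none) (P1 := 0) (W1 := 536870912) (P2 := 1073741824) (W2 := 536870912) (P3 := 67108864) (W3 := 67108864)
    rfl rfl rfl (fun _ => rfl) k0_pm_202_a

noncomputable def f_pm_202_b : ℕ → ℕ → ℕ → ℕ → Bool := onCell 1239849684 370763052 0 536870912 67108864 67108864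
    (rowFK 1 false true false .pp 2 0 2 (qsf 1239849684 370763052 1073741824 536870912 0) ndF1q2b ndF3q2 pcF0 Cut.none Ext.none)

def k0_pm_202_b : ∃ t, chk3 f_pm_202_b t 1 1 1 = true :=
  ⟨(b (b (a (b (a (l 17893328) (b (l 18309760) (l 18603488))) (a (b (l 18194648) (l 18412752)) (b (l 18509936) (l 18372352)))) (b (a (b (l 18791072) (l 18681920)) (l 18736880)) (l 18473520))) (a (b (a (b (l 18133592) (l 18161192)) (l 18297184)) (l 18048416)) (b (l 18441048) (l 2)))) (b (a (b (l 17884448) (l 17804624)) (l 2)) (l 2))), by decide +kernel⟩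

theorem c_pm_202_b : CertF 1239849684 370763052 1073741824 536870912 67108864 67108864 false true false .pp 2 0 2
    ndF1q2b ndF3q2 pcF0 Cut.none Ext.none :=
  certFK1 (fam := false) (s1 := true) (s2 := false) (a := 2) (b := 0) (c := 2) (cn := .pp) (n1 := ndF1q2b) (n2 := ndF3q2) (pc := pcF0) (cut := Cut.none) (xt := Ext.none) (P1 := 1239849684) (W1 := 370763052) (P2 := 1073741824) (W2 := 536870912) (P3 := 67108864) (W3 := 67108864)
    rfl rfl rfl (fun _ => rfl) k0_pm_202_b

noncomputable def f_pm_203_a : ℕ → ℕ → ℕ → ℕ → Bool := onCell 0 536870912 0 1230186008 67108864 67108864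
    (rowFK 0 false true false .up 2 0 3 (qsf 0 536870912 0 1230186008 0) ndF1q2a ndF3q3 pcF0 Cut.none Ext.none)

def k0_pm_203_a : ∃ t, chk3 f_pm_203_a t 1 1 1 = true :=
  ⟨(b (l 2) (b (l 2) (a (b (a (l 286858861447) (l 17995240)) (b (l 18060072) (l 18212264))) (b (l 2) (a (l 18208608) (b (l 18257088) (l 18333840))))))), by decide +kernel⟩

theorem c_pm_203_a : CertF 0 536870912 0 1230186008 67108864 67108864 false true false .up 2 0 3
    ndF1q2a ndF3q3 pcF0 Cut.none Ext.none :=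
  certFK0 (fam := false) (s1 := true) (s2 := false) (a := 2) (b := 0) (c := 3) (cn := .up) (n1 := ndF1q2a) (n2 := ndF3q3) (pc := pcF0) (cut := Cut.none) (xt := Ext.none) (P1 := 0) (W1 := 536870912) (P2 := 0) (W2 := 1230186008) (P3 := 67108864) (W3 := 67108864)
    rfl rfl rfl k0_pm_203_a

noncomputable def f_pm_203_b : ℕ → ℕ → ℕ → ℕ → Bool := onCell 1239849684 370763052 0 1230186008 67108864 67108864
    (rowFK 0 false true false .up 2 0 3 (qsf 1239849684 370763052 0 1230186008 0) ndF1q2b ndF3q3 pcF0 Cut.none Ext.none)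

def k0_pm_203_b : ∃ t, chk3 f_pm_203_b t 1 1 1 = true :=
  ⟨(b (l 3) (b (l 3) (a (b (a (l 3) (l 3)) (a (b (l 18044760) (l 18214664)) (b (l 3) (l 18192680)))) (b (l 3) (a (l 3) (l 3)))))), by decide +kernel⟩

theorem c_pm_203_b : CertF 1239849684 370763052 0 1230186008 67108864 67108864 false true false .up 2 0 3
    ndF1q2b ndF3q3 pcF0 Cut.none Ext.none :=
  certFK0 (fam := false) (s1 := true) (s2 := false) (a := 2) (b := 0) (c := 3) (cn := .up) (n1 := ndF1q2b) (n2 := ndF3q3) (pc := pcF0) (cut := Cut.none) (xt := Ext.none) (P1 := 1239849684) (W1 := 370763052) (P2 := 0) (W2 := 1230186008) (P3 := 67108864) (W3 := 67108864)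
    rfl rfl rfl k0_pm_203_b

noncomputable def cut_pm_213_a : Cut := Cut.of [[⟨0, 1, 0, 21338704⟩, ⟨1, 1, 0, 21338704⟩, ⟨2, 2, 0, 1685920⟩]]

noncomputable def f_pm_213_a : ℕ → ℕ → ℕ → ℕ → Bool := onCell 0 536870912 0 1230186008 67108864 67108864
    (rowFK 0 false true false .pnn 2 1 3 (qsf 0 536870912 0 1230186008 1) ndF1q2a ndF3q3 pcF1 cut_pm_213_a Ext.none)

def k0_pm_213_a : ∃ t, chk3 f_pm_213_a t 1 1 1 = true :=
  ⟨(b (a (b (l 3) (l 3)) (b (a (l 3) (b (a (l 3) (a (l 308331767063) (b (b (a (l 3) (l 6)) (l 167671553207)) (l 152102328695)))) (a (b (l 313700481751) (l 184314637975)) (b (l 152102465463) (l 16839072))))) (a (b (a (l 3) (l 249276153607)) (a (l 295447318727) (l 17219144))) (a (b (l 165524468375) (l 17120744)) (b (l 16963624) (l 17111864)))))) (b (a (b (a (l 3) (l 279878475191)) (a (l 3) (a (l 274510782119) (l 17613192)))) (b (a (a (l 17415744) (l 17339136)) (l 17610560)) (a (b (l 17578016) (l 17782384)) (l 17869088)))) (a (b (a (b (l 17653536)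 (l 17889456)) (b (l 17828008) (l 18039720))) (a (l 1) (l 445640052967))) (b (a (l 18341528) (l 18279424)) (a (l 18581312) (b (l 18616680) (l 18791032))))))), by decide +kernel⟩

theorem c_pm_213_a : CertF 0 536870912 0 1230186008 67108864 67108864 false true false .pnn 2 1 3
    ndF1q2a ndF3q3 pcF1 cut_pm_213_a Ext.none :=
  certFK0 (fam := false) (s1 := true) (s2 := false) (a := 2) (b := 1) (c := 3) (cn := .pnn) (n1 := ndF1q2a) (n2 := ndF3q3) (pc := pcF1) (cut := cut_pm_213_a) (xt := Ext.none) (P1 := 0) (W1 := 536870912) (P2 := 0) (W2 := 1230186008) (P3 := 67108864) (W3 := 67108864)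
    rfl rfl rfl k0_pm_213_a

noncomputable def cut_pm_213_b : Cut := Cut.of [[⟨0, 1, 0, 21338704⟩, ⟨1, 1, 0, 21338704⟩, ⟨2, 2, 0, 1685920⟩]]

noncomputable def f_pm_213_b : ℕ → ℕ → ℕ → ℕ → Bool := onCell 1239849684 370763052 0 1230186008 67108864 67108864
    (rowFK 0 false true false .pnn 2 1 3 (qsf 1239849684 370763052 0 1230186008 1) ndF1q2b ndF3q3 pcF1 cut_pm_213_b Ext.none)

def k0_pm_213_b : ∃ t, chk3 f_pm_213_b t 1 1 1 = true :=
  ⟨(b (l 3) (b (l 3) (a (b (a (l 3) (l 1)) (l 1)) (l 1)))), by decide +kernel⟩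

theorem c_pm_213_b : CertF 1239849684 370763052 0 1230186008 67108864 67108864 false true false .pnn 2 1 3
    ndF1q2b ndF3q3 pcF1 cut_pm_213_b Ext.none :=
  certFK0 (fam := false) (s1 := true) (s2 := false) (a := 2) (b := 1) (c := 3) (cn := .pnn) (n1 := ndF1q2b) (n2 := ndF3q3) (pc := pcF1) (cut := cut_pm_213_b) (xt := Ext.none) (P1 := 1239849684) (W1 := 370763052) (P2 := 0) (W2 := 1230186008) (P3 := 67108864) (W3 := 67108864)
    rfl rfl rfl k0_pm_213_b

noncomputable def f_pm_303 : ℕ → ℕ → ℕ → ℕ → Bool := onCell 1610612736 536870912 0 1230186008 67108864 67108864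
    (rowFK 0 false true false .npn 3 0 3 (qsf 1610612736 536870912 0 1230186008 0) ndF1q3 ndF3q3 pcF0 Cut.none Ext.none)

def k0_pm_303 : ∃ t, chk3 f_pm_303 t 1 1 1 = true :=
  ⟨(b (l 3) (b (l 3) (a (l 3) (l 1)))), by decide +kernel⟩

theorem c_pm_303 : CertF 1610612736 536870912 0 1230186008 67108864 67108864 false true false .npn 3 0 3
    ndF1q3 ndF3q3 pcF0 Cut.none Ext.none :=
  certFK0 (fam := false) (s1 := true) (s2 := false) (a := 3) (b := 0) (c := 3) (cn := .npn) (n1 := ndF1q3) (n2 := ndF3q3) (pc := pcF0) (cut := Cut.none) (xt := Ext.none) (P1 := 1610612736) (W1 := 536870912) (P2 := 0) (W2 := 1230186008) (P3 := 67108864) (W3 := 67108864)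
    rfl rfl rfl k0_pm_303

noncomputable def f_pm_313 : ℕ → ℕ → ℕ → ℕ → Bool := onCell 1610612736 536870912 0 1230186008 67108864 67108864
    (rowFK 0 false true false .dn 3 1 3 (qsf 1610612736 536870912 0 1230186008 1) ndF1q3 ndF3q3 pcF1 Cut.none Ext.none)

def k0_pm_313 : ∃ t, chk3 f_pm_313 t 1 1 1 = true :=
  ⟨(b (l 3) (l 1)), by decide +kernel⟩

theorem c_pm_313 : CertF 1610612736 536870912 0 1230186008 67108864 67108864 false true false .dn 3 1 3
    ndF1q3 ndF3q3 pcF1 Cut.none Ext.none :=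
  certFK0 (fam := false) (s1 := true) (s2 := false) (a := 3) (b := 1) (c := 3) (cn := .dn) (n1 := ndF1q3) (n2 := ndF3q3) (pc := pcF1) (cut := Cut.none) (xt := Ext.none) (P1 := 1610612736) (W1 := 536870912) (P2 := 0) (W2 := 1230186008) (P3 := 67108864) (W3 := 67108864)
    rfl rfl rfl k0_pm_313

noncomputable def f_mm_001 : ℕ → ℕ → ℕ → ℕ → Bool := onCell 0 536870912 0 536870912 67108864 67108864
    (rowFK 1 false false false .up 0 0 1 (qsf 0 536870912 536870912 536870912 0) ndF1q0 ndF3q1 pcF0 Cut.none Ext.none)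

def k0_mm_001 : ∃ t, chk3 f_mm_001 t 1 1 1 = true :=
  ⟨(l 3), by decide +kernel⟩

theorem c_mm_001 : CertF 0 536870912 536870912 536870912 67108864 67108864 false false false .up 0 0 1
    ndF1q0 ndF3q1 pcF0 Cut.none Ext.none :=
  certFK1 (fam := false) (s1 := false) (s2 := false) (a := 0) (b := 0) (c := 1) (cn := .up) (n1 := ndF1q0) (n2 := ndF3q1) (pc := pcF0) (cut := Cut.none) (xt := Ext.none) (P1 := 0) (W1 := 536870912) (P2 := 536870912) (W2 := 536870912) (P3 := 67108864) (W3 := 67108864)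
    rfl rfl rfl (fun _ => rfl) k0_mm_001

noncomputable def f_mm_011 : ℕ → ℕ → ℕ → ℕ → Bool := onCell 0 536870912 536870912 536870912 67108864 67108864
    (rowFK 1 false false false .pnn 0 1 1 (qsf 0 536870912 536870912 536870912 1) ndF1q0 ndF3q1 pcF1 Cut.none Ext.none)

def k0_mm_011 : ∃ t, chk3 f_mm_011 t 1 1 1 = true :=
  ⟨(l 5), by decide +kernel⟩

theorem c_mm_011 : CertF 0 536870912 536870912 536870912 67108864 67108864 false false false .pnn 0 1 1
    ndF1q0 ndF3q1 pcF1 Cut.none Ext.none :=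
  certFK1 (fam := false) (s1 := false) (s2 := false) (a := 0) (b := 1) (c := 1) (cn := .pnn) (n1 := ndF1q0) (n2 := ndF3q1) (pc := pcF1) (cut := Cut.none) (xt := Ext.none) (P1 := 0) (W1 := 536870912) (P2 := 536870912) (W2 := 536870912) (P3 := 67108864) (W3 := 67108864)
    rfl rfl rfl (fun _ => rfl) k0_mm_011

noncomputable def f_mm_012 : ℕ → ℕ → ℕ → ℕ → Bool := onCell 0 536870912 1073741824 536870912 67108864 67108864
    (rowFK 0 false false false .pnp 0 1 2 (qsf 0 536870912 1073741824 536870912 1) ndF1q0 ndF3q2 pcF1 Cut.none Ext.none)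

def k0_mm_012 : ∃ t, chk3 f_mm_012 t 1 1 1 = true :=
  ⟨(l 5), by decide +kernel⟩

theorem c_mm_012 : CertF 0 536870912 1073741824 536870912 67108864 67108864 false false false .pnp 0 1 2
    ndF1q0 ndF3q2 pcF1 Cut.none Ext.none :=
  certFK0 (fam := false) (s1 := false) (s2 := false) (a := 0) (b := 1) (c := 2) (cn := .pnp) (n1 := ndF1q0) (n2 := ndF3q2) (pc := pcF1) (cut := Cut.none) (xt := Ext.none) (P1 := 0) (W1 := 536870912) (P2 := 1073741824) (W2 := 536870912) (P3 := 67108864) (W3 := 67108864)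
    rfl rfl rfl k0_mm_012

noncomputable def f_mm_022 : ℕ → ℕ → ℕ → ℕ → Bool := onCell 0 536870912 1073741824 536870912 67108864 67108864
    (rowFK 0 false false false .pp 0 2 2 (qsf 0 536870912 1073741824 536870912 2) ndF1q0 ndF3q2 pcF2 Cut.none Ext.none)

def k0_mm_022 : ∃ t, chk3 f_mm_022 t 1 1 1 = true :=
  ⟨(l 5), by decide +kernel⟩

theorem c_mm_022 : CertF 0 536870912 1073741824 536870912 67108864 67108864 false false false .pp 0 2 2
    ndF1q0 ndF3q2 pcF2 Cut.none Ext.none :=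
  certFK0 (fam := false) (s1 := false) (s2 := false) (a := 0) (b := 2) (c := 2) (cn := .pp) (n1 := ndF1q0) (n2 := ndF3q2) (pc := pcF2) (cut := Cut.none) (xt := Ext.none) (P1 := 0) (W1 := 536870912) (P2 := 1073741824) (W2 := 536870912) (P3 := 67108864) (W3 := 67108864)
    rfl rfl rfl k0_mm_022

noncomputable def f_mm_023 : ℕ → ℕ → ℕ → ℕ → Bool := onCell 0 536870912 0 1230186008 67108864 67108864
    (rowFK 0 false false false .up 0 2 3 (qsf 0 536870912 0 1230186008 2) ndF1q0 ndF3q3 pcF2 Cut.none Ext.none)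

def k0_mm_023 : ∃ t, chk3 f_mm_023 t 1 1 1 = true :=
  ⟨(l 5), by decide +kernel⟩

theorem c_mm_023 : CertF 0 536870912 0 1230186008 67108864 67108864 false false false .up 0 2 3
    ndF1q0 ndF3q3 pcF2 Cut.none Ext.none :=
  certFK0 (fam := false) (s1 := false) (s2 := false) (a := 0) (b := 2) (c := 3) (cn := .up) (n1 := ndF1q0) (n2 := ndF3q3) (pc := pcF2) (cut := Cut.none) (xt := Ext.none) (P1 := 0) (W1 := 536870912) (P2 := 0) (W2 := 1230186008) (P3 := 67108864) (W3 := 67108864)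
    rfl rfl rfl k0_mm_023

noncomputable def f_mm_033 : ℕ → ℕ → ℕ → ℕ → Bool := onCell 0 536870912 0 1230186008 67108864 67108864
    (rowFK 0 false false false .pnn 0 3 3 (qsf 0 536870912 0 1230186008 3) ndF1q0 ndF3q3 pcF3 Cut.none Ext.none)

def k0_mm_033 : ∃ t, chk3 f_mm_033 t 1 1 1 = true :=
  ⟨(l 5), by decide +kernel⟩

theorem c_mm_033 : CertF 0 536870912 0 1230186008 67108864 67108864 false false false .pnn 0 3 3
    ndF1q0 ndF3q3 pcF3 Cut.none Ext.none :=
  certFK0 (fam := false) (s1 := false) (s2 := false) (a := 0) (b := 3) (c := 3) (cn := .pnn) (n1 := ndF1q0) (n2 := ndF3q3) (pc := pcF3) (cut := Cut.none) (xt := Ext.none) (P1 := 0) (W1 := 536870912) (P2 := 0) (W2 := 1230186008) (P3 := 67108864) (W3 := 67108864)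
    rfl rfl rfl k0_mm_033

noncomputable def f_mm_101 : ℕ → ℕ → ℕ → ℕ → Bool := onCell 536870912 536870912 536870912 536870912 67108864 67108864
    (rowFK 0 false false false .npn 1 0 1 (qsf 536870912 536870912 536870912 536870912 0) ndF1q1 ndF3q1 pcF0 Cut.none Ext.none)

def k0_mm_101 : ∃ t, chk3 f_mm_101 t 1 1 1 = true :=
  ⟨(l 3), by decide +kernel⟩

theorem c_mm_101 : CertF 536870912 536870912 536870912 536870912 67108864 67108864 false false false .npn 1 0 1
    ndF1q1 ndF3q1 pcF0 Cut.none Ext.none :=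
  certFK0 (fam := false) (s1 := false) (s2 := false) (a := 1) (b := 0) (c := 1) (cn := .npn) (n1 := ndF1q1) (n2 := ndF3q1) (pc := pcF0) (cut := Cut.none) (xt := Ext.none) (P1 := 536870912) (W1 := 536870912) (P2 := 536870912) (W2 := 536870912) (P3 := 67108864) (W3 := 67108864)
    rfl rfl rfl k0_mm_101

noncomputable def f_mm_102 : ℕ → ℕ → ℕ → ℕ → Bool := onCell 536870912 536870912 1073741824 536870912 67108864 67108864
    (rowFK 0 false false false .npp 1 0 2 (qsf 536870912 536870912 1073741824 536870912 0) ndF1q1 ndF3q2 pcF0 Cut.none Ext.none)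

def k0_mm_102 : ∃ t, chk3 f_mm_102 t 1 1 1 = true :=
  ⟨(l 5), by decide +kernel⟩

theorem c_mm_102 : CertF 536870912 536870912 1073741824 536870912 67108864 67108864 false false false .npp 1 0 2
    ndF1q1 ndF3q2 pcF0 Cut.none Ext.none :=
  certFK0 (fam := false) (s1 := false) (s2 := false) (a := 1) (b := 0) (c := 2) (cn := .npp) (n1 := ndF1q1) (n2 := ndF3q2) (pc := pcF0) (cut := Cut.none) (xt := Ext.none) (P1 := 536870912) (W1 := 536870912) (P2 := 1073741824) (W2 := 536870912) (P3 := 67108864) (W3 := 67108864)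
    rfl rfl rfl k0_mm_102

noncomputable def f_mm_112 : ℕ → ℕ → ℕ → ℕ → Bool := onCell 536870912 536870912 1073741824 536870912 67108864 67108864
    (rowFK 0 false false false .dn 1 1 2 (qsf 536870912 536870912 1073741824 536870912 1) ndF1q1 ndF3q2 pcF1 Cut.none Ext.none)

def k0_mm_112 : ∃ t, chk3 f_mm_112 t 1 1 1 = true :=
  ⟨(l 5), by decide +kernel⟩

theorem c_mm_112 : CertF 536870912 536870912 1073741824 536870912 67108864 67108864 false false false .dn 1 1 2
    ndF1q1 ndF3q2 pcF1 Cut.none Ext.none :=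
  certFK0 (fam := false) (s1 := false) (s2 := false) (a := 1) (b := 1) (c := 2) (cn := .dn) (n1 := ndF1q1) (n2 := ndF3q2) (pc := pcF1) (cut := Cut.none) (xt := Ext.none) (P1 := 536870912) (W1 := 536870912) (P2 := 1073741824) (W2 := 536870912) (P3 := 67108864) (W3 := 67108864)
    rfl rfl rfl k0_mm_112

noncomputable def f_mm_113 : ℕ → ℕ → ℕ → ℕ → Bool := onCell 536870912 536870912 0 1230186008 67108864 67108864
    (rowFK 0 false false false .nn 1 1 3 (qsf 536870912 536870912 0 1230186008 1) ndF1q1 ndF3q3 pcF1 Cut.none Ext.none)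

def k0_mm_113 : ∃ t, chk3 f_mm_113 t 1 1 1 = true :=
  ⟨(l 5), by decide +kernel⟩

theorem c_mm_113 : CertF 536870912 536870912 0 1230186008 67108864 67108864 false false false .nn 1 1 3
    ndF1q1 ndF3q3 pcF1 Cut.none Ext.none :=
  certFK0 (fam := false) (s1 := false) (s2 := false) (a := 1) (b := 1) (c := 3) (cn := .nn) (n1 := ndF1q1) (n2 := ndF3q3) (pc := pcF1) (cut := Cut.none) (xt := Ext.none) (P1 := 536870912) (W1 := 536870912) (P2 := 0) (W2 := 1230186008) (P3 := 67108864) (W3 := 67108864)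
    rfl rfl rfl k0_mm_113

noncomputable def f_mm_123 : ℕ → ℕ → ℕ → ℕ → Bool := onCell 536870912 536870912 0 1230186008 67108864 67108864
    (rowFK 0 false false false .npn 1 2 3 (qsf 536870912 536870912 0 1230186008 2) ndF1q1 ndF3q3 pcF2 Cut.none Ext.none)

def k0_mm_123 : ∃ t, chk3 f_mm_123 t 1 1 1 = true :=
  ⟨(l 5), by decide +kernel⟩

theorem c_mm_123 : CertF 536870912 536870912 0 1230186008 67108864 67108864 false false false .npn 1 2 3
    ndF1q1 ndF3q3 pcF2 Cut.none Ext.none :=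
  certFK0 (fam := false) (s1 := false) (s2 := false) (a := 1) (b := 2) (c := 3) (cn := .npn) (n1 := ndF1q1) (n2 := ndF3q3) (pc := pcF2) (cut := Cut.none) (xt := Ext.none) (P1 := 536870912) (W1 := 536870912) (P2 := 0) (W2 := 1230186008) (P3 := 67108864) (W3 := 67108864)
    rfl rfl rfl k0_mm_123

noncomputable def f_mm_133 : ℕ → ℕ → ℕ → ℕ → Bool := onCell 536870912 536870912 0 1230186008 67108864 67108864
    (rowFK 0 false false false .dn 1 3 3 (qsf 536870912 536870912 0 1230186008 3) ndF1q1 ndF3q3 pcF3 Cut.none Ext.none)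

def k0_mm_133 : ∃ t, chk3 f_mm_133 t 1 1 1 = true :=
  ⟨(l 5), by decide +kernel⟩

theorem c_mm_133 : CertF 536870912 536870912 0 1230186008 67108864 67108864 false false false .dn 1 3 3
    ndF1q1 ndF3q3 pcF3 Cut.none Ext.none :=
  certFK0 (fam := false) (s1 := false) (s2 := false) (a := 1) (b := 3) (c := 3) (cn := .dn) (n1 := ndF1q1) (n2 := ndF3q3) (pc := pcF3) (cut := Cut.none) (xt := Ext.none) (P1 := 536870912) (W1 := 536870912) (P2 := 0) (W2 := 1230186008) (P3 := 67108864) (W3 := 67108864)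
    rfl rfl rfl k0_mm_133

noncomputable def f_mm_202_a : ℕ → ℕ → ℕ → ℕ → Bool := onCell 0 536870912 1073741824 536870912 67108864 67108864
    (rowFK 0 false false false .pp 2 0 2 (qsf 0 536870912 1073741824 536870912 0) ndF1q2a ndF3q2 pcF0 Cut.none Ext.none)

def k0_mm_202_a : ∃ t, chk3 f_mm_202_a t 1 1 1 = true :=
  ⟨(l 3), by decide +kernel⟩

theorem c_mm_202_a : CertF 0 536870912 1073741824 536870912 67108864 67108864 false false false .pp 2 0 2
    ndF1q2a ndF3q2 pcF0 Cut.none Ext.none :=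
  certFK0 (fam := false) (s1 := false) (s2 := false) (a := 2) (b := 0) (c := 2) (cn := .pp) (n1 := ndF1q2a) (n2 := ndF3q2) (pc := pcF0) (cut := Cut.none) (xt := Ext.none) (P1 := 0) (W1 := 536870912) (P2 := 1073741824) (W2 := 536870912) (P3 := 67108864) (W3 := 67108864)
    rfl rfl rfl k0_mm_202_a

noncomputable def f_mm_202_b : ℕ → ℕ → ℕ → ℕ → Bool := onCell 1239849684 370763052 1073741824 536870912 67108864 67108864
    (rowFK 0 false false false .pp 2 0 2 (qsf 1239849684 370763052 1073741824 536870912 0) ndF1q2b ndF3q2 pcF0 Cut.none Ext.none)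

def k0_mm_202_b : ∃ t, chk3 f_mm_202_b t 1 1 1 = true :=
  ⟨(l 3), by decide +kernel⟩

theorem c_mm_202_b : CertF 1239849684 370763052 1073741824 536870912 67108864 67108864 false false false .pp 2 0 2
    ndF1q2b ndF3q2 pcF0 Cut.none Ext.none :=
  certFK0 (fam := false) (s1 := false) (s2 := false) (a := 2) (b := 0) (c := 2) (cn := .pp) (n1 := ndF1q2b) (n2 := ndF3q2) (pc := pcF0) (cut := Cut.none) (xt := Ext.none) (P1 := 1239849684) (W1 := 370763052) (P2 := 1073741824) (W2 := 536870912) (P3 := 67108864) (W3 := 67108864)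
    rfl rfl rfl k0_mm_202_b

noncomputable def f_mm_203_a : ℕ → ℕ → ℕ → ℕ → Bool := onCell 0 536870912 0 1230186008 67108864 67108864
    (rowFK 0 false false false .up 2 0 3 (qsf 0 536870912 0 1230186008 0) ndF1q2a ndF3q3 pcF0 Cut.none Ext.none)

def k0_mm_203_a : ∃ t, chk3 f_mm_203_a t 1 1 1 = true :=
  ⟨(b (l 2) (l 3)), by decide +kernel⟩

theorem c_mm_203_a : CertF 0 536870912 0 1230186008 67108864 67108864 false false false .up 2 0 3
    ndF1q2a ndF3q3 pcF0 Cut.none Ext.none :=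
  certFK0 (fam := false) (s1 := false) (s2 := false) (a := 2) (b := 0) (c := 3) (cn := .up) (n1 := ndF1q2a) (n2 := ndF3q3) (pc := pcF0) (cut := Cut.none) (xt := Ext.none) (P1 := 0) (W1 := 536870912) (P2 := 0) (W2 := 1230186008) (P3 := 67108864) (W3 := 67108864)
    rfl rfl rfl k0_mm_203_a

noncomputable def f_mm_203_b : ℕ → ℕ → ℕ → ℕ → Bool := onCell 1239849684 370763052 0 1230186008 67108864 67108864
    (rowFK 0 false false false .up 2 0 3 (qsf 1239849684 370763052 0 1230186008 0) ndF1q2b ndF3q3 pcF0 Cut.none Ext.none)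

def k0_mm_203_b : ∃ t, chk3 f_mm_203_b t 1 1 1 = true :=
  ⟨(b (l 3) (l 3)), by decide +kernel⟩

theorem c_mm_203_b : CertF 1239849684 370763052 0 1230186008 67108864 67108864 false false false .up 2 0 3
    ndF1q2b ndF3q3 pcF0 Cut.none Ext.none :=
  certFK0 (fam := false) (s1 := false) (s2 := false) (a := 2) (b := 0) (c := 3) (cn := .up) (n1 := ndF1q2b) (n2 := ndF3q3) (pc := pcF0) (cut := Cut.none) (xt := Ext.none) (P1 := 1239849684) (W1 := 370763052) (P2 := 0) (W2 := 1230186008) (P3 := 67108864) (W3 := 67108864)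
    rfl rfl rfl k0_mm_203_b

noncomputable def f_mm_213_a : ℕ → ℕ → ℕ → ℕ → Bool := onCell 0 536870912 0 1230186008 67108864 67108864
    (rowFK 0 false false false .pnn 2 1 3 (qsf 0 536870912 0 1230186008 1) ndF1q2a ndF3q3 pcF1 Cut.none Ext.none)

def k0_mm_213_a : ∃ t, chk3 f_mm_213_a t 1 1 1 = true :=
  ⟨(b (l 5) (l 3)), by decide +kernel⟩

theorem c_mm_213_a : CertF 0 536870912 0 1230186008 67108864 67108864 false false false .pnn 2 1 3
    ndF1q2a ndF3q3 pcF1 Cut.none Ext.none :=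
  certFK0 (fam := false) (s1 := false) (s2 := false) (a := 2) (b := 1) (c := 3) (cn := .pnn) (n1 := ndF1q2a) (n2 := ndF3q3) (pc := pcF1) (cut := Cut.none) (xt := Ext.none) (P1 := 0) (W1 := 536870912) (P2 := 0) (W2 := 1230186008) (P3 := 67108864) (W3 := 67108864)
    rfl rfl rfl k0_mm_213_a

noncomputable def f_mm_213_b : ℕ → ℕ → ℕ → ℕ → Bool := onCell 1239849684 370763052 0 1230186008 67108864 67108864
    (rowFK 0 false false false .pnn 2 1 3 (qsf 1239849684 370763052 0 1230186008 1) ndF1q2b ndF3q3 pcF1 Cut.none Ext.none)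

def k0_mm_213_b : ∃ t, chk3 f_mm_213_b t 1 1 1 = true :=
  ⟨(b (l 3) (l 3)), by decide +kernel⟩

theorem c_mm_213_b : CertF 1239849684 370763052 0 1230186008 67108864 67108864 false false false .pnn 2 1 3
    ndF1q2b ndF3q3 pcF1 Cut.none Ext.none :=
  certFK0 (fam := false) (s1 := false) (s2 := false) (a := 2) (b := 1) (c := 3) (cn := .pnn) (n1 := ndF1q2b) (n2 := ndF3q3) (pc := pcF1) (cut := Cut.none) (xt := Ext.none) (P1 := 1239849684) (W1 := 370763052) (P2 := 0) (W2 := 1230186008) (P3 := 67108864) (W3 := 67108864)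
    rfl rfl rfl k0_mm_213_b

noncomputable def f_mm_303 : ℕ → ℕ → ℕ → ℕ → Bool := onCell 1610612736 536870912 0 1230186008 67108864 67108864
    (rowFK 0 false false false .npn 3 0 3 (qsf 1610612736 536870912 0 1230186008 0) ndF1q3 ndF3q3 pcF0 Cut.none Ext.none)

def k0_mm_303 : ∃ t, chk3 f_mm_303 t 1 1 1 = true :=
  ⟨(b (l 3) (l 3)), by decide +kernel⟩

theorem c_mm_303 : CertF 1610612736 536870912 0 1230186008 67108864 67108864 false false false .npn 3 0 3
    ndF1q3 ndF3q3 pcF0 Cut.none Ext.none :=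
  certFK0 (fam := false) (s1 := false) (s2 := false) (a := 3) (b := 0) (c := 3) (cn := .npn) (n1 := ndF1q3) (n2 := ndF3q3) (pc := pcF0) (cut := Cut.none) (xt := Ext.none) (P1 := 1610612736) (W1 := 536870912) (P2 := 0) (W2 := 1230186008) (P3 := 67108864) (W3 := 67108864)
    rfl rfl rfl k0_mm_303

noncomputable def f_mm_313 : ℕ → ℕ → ℕ → ℕ → Bool := onCell 1610612736 536870912 0 1230186008 67108864 67108864
    (rowFK 0 false false false .dn 3 1 3 (qsf 1610612736 536870912 0 1230186008 1) ndF1q3 ndF3q3 pcF1 Cut.none Ext.none)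

def k0_mm_313 : ∃ t, chk3 f_mm_313 t 1 1 1 = true :=
  ⟨(b (l 3) (l 1)), by decide +kernel⟩

theorem c_mm_313 : CertF 1610612736 536870912 0 1230186008 67108864 67108864 false false false .dn 3 1 3
    ndF1q3 ndF3q3 pcF1 Cut.none Ext.none :=
  certFK0 (fam := false) (s1 := false) (s2 := false) (a := 3) (b := 1) (c := 3) (cn := .dn) (n1 := ndF1q3) (n2 := ndF3q3) (pc := pcF1) (cut := Cut.none) (xt := Ext.none) (P1 := 1610612736) (W1 := 536870912) (P2 := 0) (W2 := 1230186008) (P3 := 67108864) (W3 := 67108864)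
    rfl rfl rfl k0_mm_313

end Pool.Agent.Strip051.G.I1_16_1_8.Tab.C.FB13

namespace Pool.Agent.Strip051.G.I1_16_1_8.Tab.C.FB14

open Pool.Agent.Strip051.PB Pool.Agent.Strip051.PB.T
open Pool.Agent.Strip051.G.I1_16_1_8.Tab

noncomputable def f_pp_001 : ℕ → ℕ → ℕ → ℕ → Bool := onCell 0 536870912 0 536870912 67108864 67108864
    (rowFK 1 false true true .up 0 0 1 (qsf 0 536870912 536870912 536870912 0) ndF1q0 ndF4q1 pcF0 Cut.none Ext.none)

def k0_pp_001 : ∃ t, chk3 f_pp_001 t 1 1 1 = true :=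
  ⟨(l 3), by decide +kernel⟩

theorem c_pp_001 : CertF 0 536870912 536870912 536870912 67108864 67108864 false true true .up 0 0 1
    ndF1q0 ndF4q1 pcF0 Cut.none Ext.none :=
  certFK1 (fam := false) (s1 := true) (s2 := true) (a := 0) (b := 0) (c := 1) (cn := .up) (n1 := ndF1q0) (n2 := ndF4q1) (pc := pcF0) (cut := Cut.none) (xt := Ext.none) (P1 := 0) (W1 := 536870912) (P2 := 536870912) (W2 := 536870912) (P3 := 67108864) (W3 := 67108864)
    rfl rfl rfl (fun _ => rfl) k0_pp_001

noncomputable def cut_pp_011 : Cut := Cut.of [[⟨0, 0, 0, 67108864⟩, ⟨1, 1, 0, 67108864⟩, ⟨2, 1, 0, 67108864⟩]]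

noncomputable def f_pp_011 : ℕ → ℕ → ℕ → ℕ → Bool := onCell 0 536870912 536870912 536870912 67108864 67108864
    (rowFK 1 false true true .pnn 0 1 1 (qsf 0 536870912 536870912 536870912 1) ndF1q0 ndF4q1 pcF1 cut_pp_011 Ext.none)

def k0_pp_011 : ∃ t, chk3 f_pp_011 t 1 1 1 = true :=
  ⟨(b (l 3) (b (l 3) (a (b (l 3) (a (a (b (l 3) (a (l 6) (l 3))) (l 3)) (l 2))) (l 2)))), by decide +kernel⟩

theorem c_pp_011 : CertF 0 536870912 536870912 536870912 67108864 67108864 false true true .pnn 0 1 1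
    ndF1q0 ndF4q1 pcF1 cut_pp_011 Ext.none :=
  certFK1 (fam := false) (s1 := true) (s2 := true) (a := 0) (b := 1) (c := 1) (cn := .pnn) (n1 := ndF1q0) (n2 := ndF4q1) (pc := pcF1) (cut := cut_pp_011) (xt := Ext.none) (P1 := 0) (W1 := 536870912) (P2 := 536870912) (W2 := 536870912) (P3 := 67108864) (W3 := 67108864)
    rfl rfl rfl (fun _ => rfl) k0_pp_011

noncomputable def cut_pp_012 : Cut := Cut.of [[⟨0, 0, 0, 67108864⟩, ⟨1, 1, 0, 67108864⟩, ⟨2, 1, 0, 67108864⟩]]

noncomputable def f_pp_012 : ℕ → ℕ → ℕ → ℕ → Bool := onCell 0 536870912 536870912 536870912 67108864 67108864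
    (rowFK 1 false true true .pnp 0 1 2 (qsf 0 536870912 1073741824 536870912 1) ndF1q0 ndF4q2 pcF1 cut_pp_012 Ext.none)

def k0_pp_012 : ∃ t, chk3 f_pp_012 t 1 1 1 = true :=
  ⟨(b (l 3) (a (b (l 3) (a (a (a (b (l 1) (b (l 3) (l 6))) (l 3)) (l 3)) (l 3))) (l 3))), by decide +kernel⟩

theorem c_pp_012 : CertF 0 536870912 1073741824 536870912 67108864 67108864 false true true .pnp 0 1 2
    ndF1q0 ndF4q2 pcF1 cut_pp_012 Ext.none :=
  certFK1 (fam := false) (s1 := true) (s2 := true) (a := 0) (b := 1) (c := 2) (cn := .pnp) (n1 := ndF1q0) (n2 := ndF4q2) (pc := pcF1) (cut := cut_pp_012) (xt := Ext.none) (P1 := 0) (W1 := 536870912) (P2 := 1073741824) (W2 := 536870912) (P3 := 67108864) (W3 := 67108864)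
    rfl rfl rfl (fun _ => rfl) k0_pp_012

noncomputable def cut_pp_022 : Cut := Cut.of [[⟨0, 0, 0, 67108864⟩, ⟨1, 1, 0, 67108864⟩, ⟨2, 1, 0, 67108864⟩]]

noncomputable def f_pp_022 : ℕ → ℕ → ℕ → ℕ → Bool := onCell 0 536870912 1073741824 536870912 67108864 67108864
    (rowFK 1 false true true .pp 0 2 2 (qsf 0 536870912 1073741824 536870912 2) ndF1q0 ndF4q2 pcF2 cut_pp_022 Ext.none)

def k0_pp_022 : ∃ t, chk3 f_pp_022 t 2 1 1 = true :=
  ⟨(b (a (a (a (b (b (b (b (l 6) (a (l 6) (a (l 6) (l 16835192)))) (b (b (a (l 6) (l 16784744)) (a (a (l 6) (l 16706712)) (l 16764912))) (a (a (a (b (l 6) (l 16686848)) (l 16715376)) (a (l 16716248) (l 16683312))) (a (l 16681248) (l 16727472))))) (b (a (b (a (a (l 16682584) (l 16674344)) (l 16690320)) (a (a (l 16652320) (l 16649240)) (l 16756080))) (b (l 16662208) (l 17023416))) (a (b (a (a (l 16855248) (l 17081216)) (l 17197408)) (a (c (l 17961800) (l 16952496)) (l 17540320))) (b (l 17340904) (l 17604208))))) (b (b (b (a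 (a (c (l 18228288) (l 17331048)) (l 17811824)) (l 17823368)) (a (b (l 17977752) (l 18080920)) (b (l 17963784) (l 18048584)))) (a (l 18300064) (l 18232296))) (b (l 18506680) (l 18669280)))) (b (b (b (l 3) (a (b (l 16835976) (l 16766272)) (l 16872320))) (b (b (a (l 16940944) (l 17056808)) (l 17227024)) (b (l 17428680) (l 17610760)))) (b (b (b (l 17772104) (b (l 17881616) (b (l 17933384) (l 17968264)))) (l 18102552)) (l 18360632)))) (b (b (l 3) (b (a (b (l 17094752) (l 17234040)) (l 17114152)) (a (l 17452656) (l 17350864)))) (b (b (b (l 17583736) (b (l 17667264) (b (l 17706960) (b (l 17726440) (l 17739344))))) (l 17838728)) (l 18061528)))) (b (b (l 3) (b (l 3) (a (l 17211080) (l 3)))) (b (b (b (l 17266944) (b (l 17330680) (b (l 17361560) (l 17381024)))) (l 17464576)) (l 17821608)))) (a (b (a (b (a (l 18807576) (l 18554256)) (l 18760120)) (l 18318552)) (a (l 18760584) (l 18414384))) (b (a (l 18019904) (l 17807296)) (a (l 18150384) (l 2))))), by decide +kernel⟩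

def k1_pp_022 : ∃ t, chk3 f_pp_022 t 3 1 1 = true :=
  ⟨(b (a (b (l 3) (b (b (b (l 3) (b (l 3) (l 17158064))) (l 17232024)) (l 17389312))) (b (l 3) (b (b (b (l 17081120) (l 2)) (l 2)) (l 2)))) (a (b (a (l 17665192) (l 2)) (l 2)) (l 2))), by decide +kernel⟩

theorem s2_pp_022 : ∃ t, chk3 f_pp_022 t 1 1 1 = true := ex3_a k0_pp_022 k1_pp_022

theorem c_pp_022 : CertF 0 536870912 1073741824 536870912 67108864 67108864 false true true .pp 0 2 2
    ndF1q0 ndF4q2 pcF2 cut_pp_022 Ext.none :=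
  certFK1 (fam := false) (s1 := true) (s2 := true) (a := 0) (b := 2) (c := 2) (cn := .pp) (n1 := ndF1q0) (n2 := ndF4q2) (pc := pcF2) (cut := cut_pp_022) (xt := Ext.none) (P1 := 0) (W1 := 536870912) (P2 := 1073741824) (W2 := 536870912) (P3 := 67108864) (W3 := 67108864)
    rfl rfl rfl (fun _ => rfl) s2_pp_022

noncomputable def f_pp_023 : ℕ → ℕ → ℕ → ℕ → Bool := onCell 1073741824 536870912 0 1230186008 67108864 67108864
    (rowFK 2 false true true .up 0 2 3 (qsf 0 536870912 0 1230186008 2) ndF1q0 ndF4q3 pcF2 Cut.none Ext.none)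

def k0_pp_023 : ∃ t, chk3 f_pp_023 t 1 1 1 = true :=
  ⟨(a (b (l 2) (b (a (l 2) (a (l 2) (l 17357816))) (a (b (l 2) (l 3)) (b (a (a (a (l 17223000) (l 17252448)) (l 17268776)) (l 17342296)) (a (a (a (l 17078304) (l 17308864)) (l 17193928)) (l 17351048)))))) (b (a (l 2) (l 84928071463)) (b (a (l 17320040) (l 17401152)) (b (b (l 17622744) (l 17735728)) (a (l 17702664) (l 18226960)))))), by decide +kernel⟩

theorem c_pp_023 : CertF 0 536870912 0 1230186008 67108864 67108864 false true true .up 0 2 3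
    ndF1q0 ndF4q3 pcF2 Cut.none Ext.none :=
  certFK2 (fam := false) (s1 := true) (s2 := true) (a := 0) (b := 2) (c := 3) (cn := .up) (n1 := ndF1q0) (n2 := ndF4q3) (pc := pcF2) (cut := Cut.none) (xt := Ext.none) (P1 := 0) (W1 := 536870912) (P2 := 0) (W2 := 1230186008) (P3 := 67108864) (W3 := 67108864)
    rfl rfl rfl (fun _ => rfl) k0_pp_023

noncomputable def f_pp_033 : ℕ → ℕ → ℕ → ℕ → Bool := onCell 0 536870912 0 1230186008 67108864 67108864
    (rowFK 0 false true true .pnn 0 3 3 (qsf 0 536870912 0 1230186008 3) ndF1q0 ndF4q3 pcF3 Cut.none Ext.none)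

def k0_pp_033 : ∃ t, chk3 f_pp_033 t 1 1 1 = true :=
  ⟨(b (a (a (b (l 4) (a (b (l 4) (l 17847896)) (l 17835936))) (b (l 17435664) (b (l 17371752) (b (l 17333392) (l 17181824))))) (a (b (a (l 17161672) (l 17023864)) (b (l 17139776) (b (l 17127400) (l 17208856)))) (b (b (l 17504656) (l 17217176)) (b (l 17119776) (b (l 17455576) (l 17202512)))))) (b (a (a (b (a (l 17918840) (l 17823088)) (b (b (l 18280192) (l 18552656)) (a (l 18441184) (l 18417136)))) (b (b (l 17293080) (l 17865304)) (b (b (l 18429776) (l 18704600)) (l 18300000)))) (a (b (b (l 17261512) (l 18008920)) (b (a (l 18655808) (l 18657632)) (l 18066696))) (b (l 18020704) (l 1)))) (a (b (a (b (b (l 18251832) (l 18240296)) (l 18325976)) (b (l 17797720) (l 17672760))) (a (l 18806160) (l 17869480))) (l 1)))), by decide +kernel⟩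

theorem c_pp_033 : CertF 0 536870912 0 1230186008 67108864 67108864 false true true .pnn 0 3 3
    ndF1q0 ndF4q3 pcF3 Cut.none Ext.none :=
  certFK0 (fam := false) (s1 := true) (s2 := true) (a := 0) (b := 3) (c := 3) (cn := .pnn) (n1 := ndF1q0) (n2 := ndF4q3) (pc := pcF3) (cut := Cut.none) (xt := Ext.none) (P1 := 0) (W1 := 536870912) (P2 := 0) (W2 := 1230186008) (P3 := 67108864) (W3 := 67108864)
    rfl rfl rfl k0_pp_033

noncomputable def f_pp_101 : ℕ → ℕ → ℕ → ℕ → Bool := onCell 536870912 536870912 536870912 536870912 67108864 67108864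
    (rowFK 0 false true true .npn 1 0 1 (qsf 536870912 536870912 536870912 536870912 0) ndF1q1 ndF4q1 pcF0 Cut.none Ext.none)

def k0_pp_101 : ∃ t, chk3 f_pp_101 t 1 1 1 = true :=
  ⟨(l 3), by decide +kernel⟩

theorem c_pp_101 : CertF 536870912 536870912 536870912 536870912 67108864 67108864 false true true .npn 1 0 1
    ndF1q1 ndF4q1 pcF0 Cut.none Ext.none :=
  certFK0 (fam := false) (s1 := true) (s2 := true) (a := 1) (b := 0) (c := 1) (cn := .npn) (n1 := ndF1q1) (n2 := ndF4q1) (pc := pcF0) (cut := Cut.none) (xt := Ext.none) (P1 := 536870912) (W1 := 536870912) (P2 := 536870912) (W2 := 536870912) (P3 := 67108864) (W3 := 67108864)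
    rfl rfl rfl k0_pp_101

noncomputable def f_pp_102 : ℕ → ℕ → ℕ → ℕ → Bool := onCell 536870912 536870912 1073741824 536870912 67108864 67108864
    (rowFK 0 false true true .npp 1 0 2 (qsf 536870912 536870912 1073741824 536870912 0) ndF1q1 ndF4q2 pcF0 Cut.none Ext.none)

def k0_pp_102 : ∃ t, chk3 f_pp_102 t 1 1 1 = true :=
  ⟨(l 3), by decide +kernel⟩

theorem c_pp_102 : CertF 536870912 536870912 1073741824 536870912 67108864 67108864 false true true .npp 1 0 2
    ndF1q1 ndF4q2 pcF0 Cut.none Ext.none :=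
  certFK0 (fam := false) (s1 := true) (s2 := true) (a := 1) (b := 0) (c := 2) (cn := .npp) (n1 := ndF1q1) (n2 := ndF4q2) (pc := pcF0) (cut := Cut.none) (xt := Ext.none) (P1 := 536870912) (W1 := 536870912) (P2 := 1073741824) (W2 := 536870912) (P3 := 67108864) (W3 := 67108864)
    rfl rfl rfl k0_pp_102

noncomputable def f_pp_112 : ℕ → ℕ → ℕ → ℕ → Bool := onCell 536870912 536870912 1073741824 536870912 67108864 67108864
    (rowFK 0 false true true .dn 1 1 2 (qsf 536870912 536870912 1073741824 536870912 1) ndF1q1 ndF4q2 pcF1 Cut.none Ext.none)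

def k0_pp_112 : ∃ t, chk3 f_pp_112 t 1 1 1 = true :=
  ⟨(l 3), by decide +kernel⟩

theorem c_pp_112 : CertF 536870912 536870912 1073741824 536870912 67108864 67108864 false true true .dn 1 1 2
    ndF1q1 ndF4q2 pcF1 Cut.none Ext.none :=
  certFK0 (fam := false) (s1 := true) (s2 := true) (a := 1) (b := 1) (c := 2) (cn := .dn) (n1 := ndF1q1) (n2 := ndF4q2) (pc := pcF1) (cut := Cut.none) (xt := Ext.none) (P1 := 536870912) (W1 := 536870912) (P2 := 1073741824) (W2 := 536870912) (P3 := 67108864) (W3 := 67108864)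
    rfl rfl rfl k0_pp_112

noncomputable def f_pp_113 : ℕ → ℕ → ℕ → ℕ → Bool := onCell 536870912 536870912 0 1230186008 67108864 67108864
    (rowFK 2 false true true .nn 1 1 3 (qsf 536870912 536870912 0 1230186008 1) ndF1q1 ndF4q3 pcF1 Cut.none Ext.none)

def k0_pp_113 : ∃ t, chk3 f_pp_113 t 1 1 1 = true :=
  ⟨(a (b (l 2) (b (l 3) (l 3))) (b (a (l 2) (b (a (l 2) (a (l 2) (l 16906616))) (a (l 17327560) (l 16872688)))) (b (a (l 3) (b (l 285783965191) (l 3))) (l 3)))), by decide +kernel⟩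

theorem c_pp_113 : CertF 536870912 536870912 0 1230186008 67108864 67108864 false true true .nn 1 1 3
    ndF1q1 ndF4q3 pcF1 Cut.none Ext.none :=
  certFK2 (fam := false) (s1 := true) (s2 := true) (a := 1) (b := 1) (c := 3) (cn := .nn) (n1 := ndF1q1) (n2 := ndF4q3) (pc := pcF1) (cut := Cut.none) (xt := Ext.none) (P1 := 536870912) (W1 := 536870912) (P2 := 0) (W2 := 1230186008) (P3 := 67108864) (W3 := 67108864)
    rfl rfl rfl (fun _ => rfl) k0_pp_113

noncomputable def f_pp_123 : ℕ → ℕ → ℕ → ℕ → Bool := onCell 1073741824 536870912 0 1230186008 67108864 67108864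
    (rowFK 2 false true true .npn 1 2 3 (qsf 536870912 536870912 0 1230186008 2) ndF1q1 ndF4q3 pcF2 Cut.none Ext.none)

def k0_pp_123 : ∃ t, chk3 f_pp_123 t 1 1 1 = true :=
  ⟨(b (b (a (a (a (a (l 17011752) (l 17163400)) (l 17387952)) (l 17782728)) (a (l 18122344) (l 18218192))) (a (a (a (a (l 17161312) (l 17273248)) (l 17449296)) (l 17740056)) (a (l 17943840) (l 17972992)))) (b (a (a (a (a (l 17448792) (l 17769344)) (b (l 17619208) (l 17766384))) (a (b (l 17791456) (a (a (l 17839064) (l 17841872)) (l 17873096))) (l 17890000))) (a (l 17898632) (l 17774728))) (a (a (b (a (l 3) (l 17676616)) (l 3)) (a (a (a (l 272766229015) (b (l 17950376) (l 1))) (l 276524395879)) (l 279745694823))) (l 1)))), by decide +kernel⟩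

theorem c_pp_123 : CertF 536870912 536870912 0 1230186008 67108864 67108864 false true true .npn 1 2 3
    ndF1q1 ndF4q3 pcF2 Cut.none Ext.none :=
  certFK2 (fam := false) (s1 := true) (s2 := true) (a := 1) (b := 2) (c := 3) (cn := .npn) (n1 := ndF1q1) (n2 := ndF4q3) (pc := pcF2) (cut := Cut.none) (xt := Ext.none) (P1 := 536870912) (W1 := 536870912) (P2 := 0) (W2 := 1230186008) (P3 := 67108864) (W3 := 67108864)
    rfl rfl rfl (fun _ => rfl) k0_pp_123

noncomputable def f_pp_133 : ℕ → ℕ → ℕ → ℕ → Bool := onCell 536870912 536870912 0 1230186008 67108864 67108864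
    (rowFK 0 false true true .dn 1 3 3 (qsf 536870912 536870912 0 1230186008 3) ndF1q1 ndF4q3 pcF3 Cut.none Ext.none)

def k0_pp_133 : ∃ t, chk3 f_pp_133 t 1 1 1 = true :=
  ⟨(b (b (a (a (l 17772520) (l 1)) (l 1)) (l 1)) (l 1)), by decide +kernel⟩

theorem c_pp_133 : CertF 536870912 536870912 0 1230186008 67108864 67108864 false true true .dn 1 3 3
    ndF1q1 ndF4q3 pcF3 Cut.none Ext.none :=
  certFK0 (fam := false) (s1 := true) (s2 := true) (a := 1) (b := 3) (c := 3) (cn := .dn) (n1 := ndF1q1) (n2 := ndF4q3) (pc := pcF3) (cut := Cut.none) (xt := Ext.none) (P1 := 536870912) (W1 := 536870912) (P2 := 0) (W2 := 1230186008) (P3 := 67108864) (W3 := 67108864)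
    rfl rfl rfl k0_pp_133

noncomputable def f_pp_202_a : ℕ → ℕ → ℕ → ℕ → Bool := onCell 0 536870912 1073741824 536870912 67108864 67108864
    (rowFK 0 false true true .pp 2 0 2 (qsf 0 536870912 1073741824 536870912 0) ndF1q2a ndF4q2 pcF0 Cut.none Ext.none)

def k0_pp_202_a : ∃ t, chk3 f_pp_202_a t 1 1 1 = true :=
  ⟨(l 5), by decide +kernel⟩

theorem c_pp_202_a : CertF 0 536870912 1073741824 536870912 67108864 67108864 false true true .pp 2 0 2
    ndF1q2a ndF4q2 pcF0 Cut.none Ext.none :=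
  certFK0 (fam := false) (s1 := true) (s2 := true) (a := 2) (b := 0) (c := 2) (cn := .pp) (n1 := ndF1q2a) (n2 := ndF4q2) (pc := pcF0) (cut := Cut.none) (xt := Ext.none) (P1 := 0) (W1 := 536870912) (P2 := 1073741824) (W2 := 536870912) (P3 := 67108864) (W3 := 67108864)
    rfl rfl rfl k0_pp_202_a

noncomputable def f_pp_202_b : ℕ → ℕ → ℕ → ℕ → Bool := onCell 1239849684 370763052 1073741824 536870912 67108864 67108864
    (rowFK 0 false true true .pp 2 0 2 (qsf 1239849684 370763052 1073741824 536870912 0) ndF1q2b ndF4q2 pcF0 Cut.none Ext.none)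

def k0_pp_202_b : ∃ t, chk3 f_pp_202_b t 1 1 1 = true :=
  ⟨(l 5), by decide +kernel⟩

theorem c_pp_202_b : CertF 1239849684 370763052 1073741824 536870912 67108864 67108864 false true true .pp 2 0 2
    ndF1q2b ndF4q2 pcF0 Cut.none Ext.none :=
  certFK0 (fam := false) (s1 := true) (s2 := true) (a := 2) (b := 0) (c := 2) (cn := .pp) (n1 := ndF1q2b) (n2 := ndF4q2) (pc := pcF0) (cut := Cut.none) (xt := Ext.none) (P1 := 1239849684) (W1 := 370763052) (P2 := 1073741824) (W2 := 536870912) (P3 := 67108864) (W3 := 67108864)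
    rfl rfl rfl k0_pp_202_b

noncomputable def f_pp_203_a : ℕ → ℕ → ℕ → ℕ → Bool := onCell 0 536870912 0 1230186008 67108864 67108864
    (rowFK 0 false true true .up 2 0 3 (qsf 0 536870912 0 1230186008 0) ndF1q2a ndF4q3 pcF0 Cut.none Ext.none)

def k0_pp_203_a : ∃ t, chk3 f_pp_203_a t 1 1 1 = true :=
  ⟨(b (l 2) (l 3)), by decide +kernel⟩

theorem c_pp_203_a : CertF 0 536870912 0 1230186008 67108864 67108864 false true true .up 2 0 3
    ndF1q2a ndF4q3 pcF0 Cut.none Ext.none :=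
  certFK0 (fam := false) (s1 := true) (s2 := true) (a := 2) (b := 0) (c := 3) (cn := .up) (n1 := ndF1q2a) (n2 := ndF4q3) (pc := pcF0) (cut := Cut.none) (xt := Ext.none) (P1 := 0) (W1 := 536870912) (P2 := 0) (W2 := 1230186008) (P3 := 67108864) (W3 := 67108864)
    rfl rfl rfl k0_pp_203_a

noncomputable def f_pp_203_b : ℕ → ℕ → ℕ → ℕ → Bool := onCell 0 536870912 0 1230186008 67108864 67108864
    (rowFK 2 false true true .up 2 0 3 (qsf 1239849684 370763052 0 1230186008 0) ndF1q2b ndF4q3 pcF0 Cut.none Ext.none)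

def k0_pp_203_b : ∃ t, chk3 f_pp_203_b t 1 1 1 = true :=
  ⟨(b (l 3) (l 5)), by decide +kernel⟩

theorem c_pp_203_b : CertF 1239849684 370763052 0 1230186008 67108864 67108864 false true true .up 2 0 3
    ndF1q2b ndF4q3 pcF0 Cut.none Ext.none :=
  certFK2 (fam := false) (s1 := true) (s2 := true) (a := 2) (b := 0) (c := 3) (cn := .up) (n1 := ndF1q2b) (n2 := ndF4q3) (pc := pcF0) (cut := Cut.none) (xt := Ext.none) (P1 := 1239849684) (W1 := 370763052) (P2 := 0) (W2 := 1230186008) (P3 := 67108864) (W3 := 67108864)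
    rfl rfl rfl (fun _ => rfl) k0_pp_203_b

noncomputable def cut_pp_213_a : Cut := Cut.of [[⟨0, 1, 0, 21338704⟩, ⟨1, 1, 0, 21338704⟩, ⟨2, 2, 0, 1685920⟩]]

noncomputable def f_pp_213_a : ℕ → ℕ → ℕ → ℕ → Bool := onCell 0 536870912 0 1230186008 67108864 67108864
    (rowFK 0 false true true .pnn 2 1 3 (qsf 0 536870912 0 1230186008 1) ndF1q2a ndF4q3 pcF1 cut_pp_213_a Ext.none)

def k0_pp_213_a : ∃ t, chk3 f_pp_213_a t 1 1 1 = true :=
  ⟨(b (a (l 3) (b (a (l 3) (b (b (a (l 3) (a (l 3) (a (l 3) (b (l 6) (l 3))))) (l 3)) (l 3))) (l 3))) (l 3)), by decide +kernel⟩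

theorem c_pp_213_a : CertF 0 536870912 0 1230186008 67108864 67108864 false true true .pnn 2 1 3
    ndF1q2a ndF4q3 pcF1 cut_pp_213_a Ext.none :=
  certFK0 (fam := false) (s1 := true) (s2 := true) (a := 2) (b := 1) (c := 3) (cn := .pnn) (n1 := ndF1q2a) (n2 := ndF4q3) (pc := pcF1) (cut := cut_pp_213_a) (xt := Ext.none) (P1 := 0) (W1 := 536870912) (P2 := 0) (W2 := 1230186008) (P3 := 67108864) (W3 := 67108864)
    rfl rfl rfl k0_pp_213_a

noncomputable def cut_pp_213_b : Cut := Cut.of [[⟨0, 1, 0, 21338704⟩, ⟨1, 1, 0, 21338704⟩, ⟨2, 2, 0, 1685920⟩]]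

noncomputable def f_pp_213_b : ℕ → ℕ → ℕ → ℕ → Bool := onCell 1239849684 370763052 0 1230186008 67108864 67108864
    (rowFK 0 false true true .pnn 2 1 3 (qsf 1239849684 370763052 0 1230186008 1) ndF1q2b ndF4q3 pcF1 cut_pp_213_b Ext.none)

def k0_pp_213_b : ∃ t, chk3 f_pp_213_b t 1 1 1 = true :=
  ⟨(b (l 3) (b (l 3) (l 3))), by decide +kernel⟩

theorem c_pp_213_b : CertF 1239849684 370763052 0 1230186008 67108864 67108864 false true true .pnn 2 1 3
    ndF1q2b ndF4q3 pcF1 cut_pp_213_b Ext.none :=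
  certFK0 (fam := false) (s1 := true) (s2 := true) (a := 2) (b := 1) (c := 3) (cn := .pnn) (n1 := ndF1q2b) (n2 := ndF4q3) (pc := pcF1) (cut := cut_pp_213_b) (xt := Ext.none) (P1 := 1239849684) (W1 := 370763052) (P2 := 0) (W2 := 1230186008) (P3 := 67108864) (W3 := 67108864)
    rfl rfl rfl k0_pp_213_b

noncomputable def f_pp_303 : ℕ → ℕ → ℕ → ℕ → Bool := onCell 1610612736 536870912 0 1230186008 67108864 67108864
    (rowFK 0 false true true .npn 3 0 3 (qsf 1610612736 536870912 0 1230186008 0) ndF1q3 ndF4q3 pcF0 Cut.none Ext.none)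

def k0_pp_303 : ∃ t, chk3 f_pp_303 t 1 1 1 = true :=
  ⟨(b (l 3) (l 5)), by decide +kernel⟩

theorem c_pp_303 : CertF 1610612736 536870912 0 1230186008 67108864 67108864 false true true .npn 3 0 3
    ndF1q3 ndF4q3 pcF0 Cut.none Ext.none :=
  certFK0 (fam := false) (s1 := true) (s2 := true) (a := 3) (b := 0) (c := 3) (cn := .npn) (n1 := ndF1q3) (n2 := ndF4q3) (pc := pcF0) (cut := Cut.none) (xt := Ext.none) (P1 := 1610612736) (W1 := 536870912) (P2 := 0) (W2 := 1230186008) (P3 := 67108864) (W3 := 67108864)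
    rfl rfl rfl k0_pp_303

noncomputable def f_pp_313 : ℕ → ℕ → ℕ → ℕ → Bool := onCell 1610612736 536870912 0 1230186008 67108864 67108864
    (rowFK 0 false true true .dn 3 1 3 (qsf 1610612736 536870912 0 1230186008 1) ndF1q3 ndF4q3 pcF1 Cut.none Ext.none)

def k0_pp_313 : ∃ t, chk3 f_pp_313 t 1 1 1 = true :=
  ⟨(b (l 3) (l 1)), by decide +kernel⟩

theorem c_pp_313 : CertF 1610612736 536870912 0 1230186008 67108864 67108864 false true true .dn 3 1 3
    ndF1q3 ndF4q3 pcF1 Cut.none Ext.none :=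
  certFK0 (fam := false) (s1 := true) (s2 := true) (a := 3) (b := 1) (c := 3) (cn := .dn) (n1 := ndF1q3) (n2 := ndF4q3) (pc := pcF1) (cut := Cut.none) (xt := Ext.none) (P1 := 1610612736) (W1 := 536870912) (P2 := 0) (W2 := 1230186008) (P3 := 67108864) (W3 := 67108864)
    rfl rfl rfl k0_pp_313

noncomputable def f_pm_001 : ℕ → ℕ → ℕ → ℕ → Bool := onCell 0 536870912 536870912 536870912 67108864 67108864
    (rowFK 0 false true false .up 0 0 1 (qsf 0 536870912 536870912 536870912 0) ndF1q0 ndF4q1 pcF0 Cut.none Ext.none)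

def k0_pm_001 : ∃ t, chk3 f_pm_001 t 1 1 1 = true :=
  ⟨(l 4), by decide +kernel⟩

theorem c_pm_001 : CertF 0 536870912 536870912 536870912 67108864 67108864 false true false .up 0 0 1
    ndF1q0 ndF4q1 pcF0 Cut.none Ext.none :=
  certFK0 (fam := false) (s1 := true) (s2 := false) (a := 0) (b := 0) (c := 1) (cn := .up) (n1 := ndF1q0) (n2 := ndF4q1) (pc := pcF0) (cut := Cut.none) (xt := Ext.none) (P1 := 0) (W1 := 536870912) (P2 := 536870912) (W2 := 536870912) (P3 := 67108864) (W3 := 67108864)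
    rfl rfl rfl k0_pm_001

noncomputable def f_pm_011 : ℕ → ℕ → ℕ → ℕ → Bool := onCell 0 536870912 536870912 536870912 67108864 67108864
    (rowFK 0 false true false .pnn 0 1 1 (qsf 0 536870912 536870912 536870912 1) ndF1q0 ndF4q1 pcF1 Cut.none Ext.none)

def k0_pm_011 : ∃ t, chk3 f_pm_011 t 1 1 1 = true :=
  ⟨(l 4), by decide +kernel⟩

theorem c_pm_011 : CertF 0 536870912 536870912 536870912 67108864 67108864 false true false .pnn 0 1 1
    ndF1q0 ndF4q1 pcF1 Cut.none Ext.none :=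
  certFK0 (fam := false) (s1 := true) (s2 := false) (a := 0) (b := 1) (c := 1) (cn := .pnn) (n1 := ndF1q0) (n2 := ndF4q1) (pc := pcF1) (cut := Cut.none) (xt := Ext.none) (P1 := 0) (W1 := 536870912) (P2 := 536870912) (W2 := 536870912) (P3 := 67108864) (W3 := 67108864)
    rfl rfl rfl k0_pm_011

noncomputable def f_pm_012 : ℕ → ℕ → ℕ → ℕ → Bool := onCell 0 536870912 1073741824 536870912 67108864 67108864
    (rowFK 0 false true false .pnp 0 1 2 (qsf 0 536870912 1073741824 536870912 1) ndF1q0 ndF4q2 pcF1 Cut.none Ext.none)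

def k0_pm_012 : ∃ t, chk3 f_pm_012 t 1 1 1 = true :=
  ⟨(l 4), by decide +kernel⟩

theorem c_pm_012 : CertF 0 536870912 1073741824 536870912 67108864 67108864 false true false .pnp 0 1 2
    ndF1q0 ndF4q2 pcF1 Cut.none Ext.none :=
  certFK0 (fam := false) (s1 := true) (s2 := false) (a := 0) (b := 1) (c := 2) (cn := .pnp) (n1 := ndF1q0) (n2 := ndF4q2) (pc := pcF1) (cut := Cut.none) (xt := Ext.none) (P1 := 0) (W1 := 536870912) (P2 := 1073741824) (W2 := 536870912) (P3 := 67108864) (W3 := 67108864)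
    rfl rfl rfl k0_pm_012

noncomputable def f_pm_022 : ℕ → ℕ → ℕ → ℕ → Bool := onCell 0 536870912 1073741824 536870912 67108864 67108864
    (rowFK 0 false true false .pp 0 2 2 (qsf 0 536870912 1073741824 536870912 2) ndF1q0 ndF4q2 pcF2 Cut.none Ext.none)

def k0_pm_022 : ∃ t, chk3 f_pm_022 t 1 1 1 = true :=
  ⟨(l 4), by decide +kernel⟩

theorem c_pm_022 : CertF 0 536870912 1073741824 536870912 67108864 67108864 false true false .pp 0 2 2
    ndF1q0 ndF4q2 pcF2 Cut.none Ext.none :=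
  certFK0 (fam := false) (s1 := true) (s2 := false) (a := 0) (b := 2) (c := 2) (cn := .pp) (n1 := ndF1q0) (n2 := ndF4q2) (pc := pcF2) (cut := Cut.none) (xt := Ext.none) (P1 := 0) (W1 := 536870912) (P2 := 1073741824) (W2 := 536870912) (P3 := 67108864) (W3 := 67108864)
    rfl rfl rfl k0_pm_022

noncomputable def f_pm_023 : ℕ → ℕ → ℕ → ℕ → Bool := onCell 0 536870912 0 1230186008 67108864 67108864
    (rowFK 0 false true false .up 0 2 3 (qsf 0 536870912 0 1230186008 2) ndF1q0 ndF4q3 pcF2 Cut.none Ext.none)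

def k0_pm_023 : ∃ t, chk3 f_pm_023 t 1 1 1 = true :=
  ⟨(b (a (l 2) (l 4)) (l 4)), by decide +kernel⟩

theorem c_pm_023 : CertF 0 536870912 0 1230186008 67108864 67108864 false true false .up 0 2 3
    ndF1q0 ndF4q3 pcF2 Cut.none Ext.none :=
  certFK0 (fam := false) (s1 := true) (s2 := false) (a := 0) (b := 2) (c := 3) (cn := .up) (n1 := ndF1q0) (n2 := ndF4q3) (pc := pcF2) (cut := Cut.none) (xt := Ext.none) (P1 := 0) (W1 := 536870912) (P2 := 0) (W2 := 1230186008) (P3 := 67108864) (W3 := 67108864)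
    rfl rfl rfl k0_pm_023

noncomputable def f_pm_033 : ℕ → ℕ → ℕ → ℕ → Bool := onCell 0 536870912 0 1230186008 67108864 67108864
    (rowFK 0 false true false .pnn 0 3 3 (qsf 0 536870912 0 1230186008 3) ndF1q0 ndF4q3 pcF3 Cut.none Ext.none)

def k0_pm_033 : ∃ t, chk3 f_pm_033 t 1 1 1 = true :=
  ⟨(b (a (l 4) (l 4)) (l 4)), by decide +kernel⟩

theorem c_pm_033 : CertF 0 536870912 0 1230186008 67108864 67108864 false true false .pnn 0 3 3
    ndF1q0 ndF4q3 pcF3 Cut.none Ext.none :=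
  certFK0 (fam := false) (s1 := true) (s2 := false) (a := 0) (b := 3) (c := 3) (cn := .pnn) (n1 := ndF1q0) (n2 := ndF4q3) (pc := pcF3) (cut := Cut.none) (xt := Ext.none) (P1 := 0) (W1 := 536870912) (P2 := 0) (W2 := 1230186008) (P3 := 67108864) (W3 := 67108864)
    rfl rfl rfl k0_pm_033

noncomputable def f_pm_101 : ℕ → ℕ → ℕ → ℕ → Bool := onCell 536870912 536870912 536870912 536870912 67108864 67108864
    (rowFK 0 false true false .npn 1 0 1 (qsf 536870912 536870912 536870912 536870912 0) ndF1q1 ndF4q1 pcF0 Cut.none Ext.none)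

def k0_pm_101 : ∃ t, chk3 f_pm_101 t 1 1 1 = true :=
  ⟨(l 4), by decide +kernel⟩

theorem c_pm_101 : CertF 536870912 536870912 536870912 536870912 67108864 67108864 false true false .npn 1 0 1
    ndF1q1 ndF4q1 pcF0 Cut.none Ext.none :=
  certFK0 (fam := false) (s1 := true) (s2 := false) (a := 1) (b := 0) (c := 1) (cn := .npn) (n1 := ndF1q1) (n2 := ndF4q1) (pc := pcF0) (cut := Cut.none) (xt := Ext.none) (P1 := 536870912) (W1 := 536870912) (P2 := 536870912) (W2 := 536870912) (P3 := 67108864) (W3 := 67108864)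
    rfl rfl rfl k0_pm_101

noncomputable def f_pm_102 : ℕ → ℕ → ℕ → ℕ → Bool := onCell 536870912 536870912 1073741824 536870912 67108864 67108864
    (rowFK 0 false true false .npp 1 0 2 (qsf 536870912 536870912 1073741824 536870912 0) ndF1q1 ndF4q2 pcF0 Cut.none Ext.none)

def k0_pm_102 : ∃ t, chk3 f_pm_102 t 1 1 1 = true :=
  ⟨(l 4), by decide +kernel⟩

theorem c_pm_102 : CertF 536870912 536870912 1073741824 536870912 67108864 67108864 false true false .npp 1 0 2
    ndF1q1 ndF4q2 pcF0 Cut.none Ext.none :=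
  certFK0 (fam := false) (s1 := true) (s2 := false) (a := 1) (b := 0) (c := 2) (cn := .npp) (n1 := ndF1q1) (n2 := ndF4q2) (pc := pcF0) (cut := Cut.none) (xt := Ext.none) (P1 := 536870912) (W1 := 536870912) (P2 := 1073741824) (W2 := 536870912) (P3 := 67108864) (W3 := 67108864)
    rfl rfl rfl k0_pm_102

noncomputable def f_pm_112 : ℕ → ℕ → ℕ → ℕ → Bool := onCell 536870912 536870912 1073741824 536870912 67108864 67108864
    (rowFK 0 false true false .dn 1 1 2 (qsf 536870912 536870912 1073741824 536870912 1) ndF1q1 ndF4q2 pcF1 Cut.none Ext.none)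

def k0_pm_112 : ∃ t, chk3 f_pm_112 t 1 1 1 = true :=
  ⟨(l 4), by decide +kernel⟩

theorem c_pm_112 : CertF 536870912 536870912 1073741824 536870912 67108864 67108864 false true false .dn 1 1 2
    ndF1q1 ndF4q2 pcF1 Cut.none Ext.none :=
  certFK0 (fam := false) (s1 := true) (s2 := false) (a := 1) (b := 1) (c := 2) (cn := .dn) (n1 := ndF1q1) (n2 := ndF4q2) (pc := pcF1) (cut := Cut.none) (xt := Ext.none) (P1 := 536870912) (W1 := 536870912) (P2 := 1073741824) (W2 := 536870912) (P3 := 67108864) (W3 := 67108864)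
    rfl rfl rfl k0_pm_112

noncomputable def f_pm_113 : ℕ → ℕ → ℕ → ℕ → Bool := onCell 536870912 536870912 0 1230186008 67108864 67108864
    (rowFK 0 false true false .nn 1 1 3 (qsf 536870912 536870912 0 1230186008 1) ndF1q1 ndF4q3 pcF1 Cut.none Ext.none)

def k0_pm_113 : ∃ t, chk3 f_pm_113 t 1 1 1 = true :=
  ⟨(b (a (l 2) (a (l 2) (b (l 18049040) (b (a (l 18302704) (b (l 17705112) (a (l 17947608) (a (b (l 17756280) (l 17806064)) (l 17667776))))) (l 18034776))))) (l 4)), by decide +kernel⟩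

theorem c_pm_113 : CertF 536870912 536870912 0 1230186008 67108864 67108864 false true false .nn 1 1 3
    ndF1q1 ndF4q3 pcF1 Cut.none Ext.none :=
  certFK0 (fam := false) (s1 := true) (s2 := false) (a := 1) (b := 1) (c := 3) (cn := .nn) (n1 := ndF1q1) (n2 := ndF4q3) (pc := pcF1) (cut := Cut.none) (xt := Ext.none) (P1 := 536870912) (W1 := 536870912) (P2 := 0) (W2 := 1230186008) (P3 := 67108864) (W3 := 67108864)
    rfl rfl rfl k0_pm_113

noncomputable def f_pm_123 : ℕ → ℕ → ℕ → ℕ → Bool := onCell 1073741824 536870912 0 1230186008 67108864 67108864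
    (rowFK 2 false true false .npn 1 2 3 (qsf 536870912 536870912 0 1230186008 2) ndF1q1 ndF4q3 pcF2 Cut.none Ext.none)

def k0_pm_123 : ∃ t, chk3 f_pm_123 t 1 1 1 = true :=
  ⟨(b (a (a (b (l 17628872) (l 18221288)) (l 17894760)) (a (l 18112008) (l 18159256))) (l 4)), by decide +kernel⟩

theorem c_pm_123 : CertF 536870912 536870912 0 1230186008 67108864 67108864 false true false .npn 1 2 3
    ndF1q1 ndF4q3 pcF2 Cut.none Ext.none :=
  certFK2 (fam := false) (s1 := true) (s2 := false) (a := 1) (b := 2) (c := 3) (cn := .npn) (n1 := ndF1q1) (n2 := ndF4q3) (pc := pcF2) (cut := Cut.none) (xt := Ext.none) (P1 := 536870912) (W1 := 536870912) (P2 := 0) (W2 := 1230186008) (P3 := 67108864) (W3 := 67108864)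
    rfl rfl rfl (fun _ => rfl) k0_pm_123

noncomputable def f_pm_133 : ℕ → ℕ → ℕ → ℕ → Bool := onCell 1610612736 536870912 0 1230186008 67108864 67108864
    (rowFK 2 false true false .dn 1 3 3 (qsf 536870912 536870912 0 1230186008 3) ndF1q1 ndF4q3 pcF3 Cut.none Ext.none)

def k0_pm_133 : ∃ t, chk3 f_pm_133 t 1 1 1 = true :=
  ⟨(b (a (a (l 4) (l 1)) (l 1)) (l 1)), by decide +kernel⟩

theorem c_pm_133 : CertF 536870912 536870912 0 1230186008 67108864 67108864 false true false .dn 1 3 3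
    ndF1q1 ndF4q3 pcF3 Cut.none Ext.none :=
  certFK2 (fam := false) (s1 := true) (s2 := false) (a := 1) (b := 3) (c := 3) (cn := .dn) (n1 := ndF1q1) (n2 := ndF4q3) (pc := pcF3) (cut := Cut.none) (xt := Ext.none) (P1 := 536870912) (W1 := 536870912) (P2 := 0) (W2 := 1230186008) (P3 := 67108864) (W3 := 67108864)
    rfl rfl rfl (fun _ => rfl) k0_pm_133

noncomputable def f_pm_202_a : ℕ → ℕ → ℕ → ℕ → Bool := onCell 0 536870912 1073741824 536870912 67108864 67108864
    (rowFK 0 false true false .pp 2 0 2 (qsf 0 536870912 1073741824 536870912 0) ndF1q2a ndF4q2 pcF0 Cut.none Ext.none)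

def k0_pm_202_a : ∃ t, chk3 f_pm_202_a t 1 1 1 = true :=
  ⟨(a (b (b (b (l 1) (l 19439800)) (l 19127024)) (b (l 18654472) (b (l 18141824) (l 17762360)))) (b (l 4) (b (a (l 18757496) (l 18986800)) (a (l 18112016) (b (l 18543144) (l 18188536)))))), by decide +kernel⟩

theorem c_pm_202_a : CertF 0 536870912 1073741824 536870912 67108864 67108864 false true false .pp 2 0 2
    ndF1q2a ndF4q2 pcF0 Cut.none Ext.none :=
  certFK0 (fam := false) (s1 := true) (s2 := false) (a := 2) (b := 0) (c := 2) (cn := .pp) (n1 := ndF1q2a) (n2 := ndF4q2) (pc := pcF0) (cut := Cut.none) (xt := Ext.none) (P1 := 0) (W1 := 536870912) (P2 := 1073741824) (W2 := 536870912) (P3 := 67108864) (W3 := 67108864)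
    rfl rfl rfl k0_pm_202_a

noncomputable def f_pm_202_b : ℕ → ℕ → ℕ → ℕ → Bool := onCell 0 536870912 1073741824 536870912 67108864 67108864
    (rowFK 2 false true false .pp 2 0 2 (qsf 1239849684 370763052 1073741824 536870912 0) ndF1q2b ndF4q2 pcF0 Cut.none Ext.none)

def k0_pm_202_b : ∃ t, chk3 f_pm_202_b t 1 1 1 = true :=
  ⟨(a (b (b (l 1) (l 329140717895)) (b (l 275452514071) (a (l 18201448) (l 18014344)))) (b (l 1) (b (l 1) (a (b (l 17939136) (l 17612624)) (l 1))))), by decide +kernel⟩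

theorem c_pm_202_b : CertF 1239849684 370763052 1073741824 536870912 67108864 67108864 false true false .pp 2 0 2
    ndF1q2b ndF4q2 pcF0 Cut.none Ext.none :=
  certFK2 (fam := false) (s1 := true) (s2 := false) (a := 2) (b := 0) (c := 2) (cn := .pp) (n1 := ndF1q2b) (n2 := ndF4q2) (pc := pcF0) (cut := Cut.none) (xt := Ext.none) (P1 := 1239849684) (W1 := 370763052) (P2 := 1073741824) (W2 := 536870912) (P3 := 67108864) (W3 := 67108864)
    rfl rfl rfl (fun _ => rfl) k0_pm_202_b

noncomputable def f_pm_203_a : ℕ → ℕ → ℕ → ℕ → Bool := onCell 0 536870912 0 1230186008 67108864 67108864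
    (rowFK 0 false true false .up 2 0 3 (qsf 0 536870912 0 1230186008 0) ndF1q2a ndF4q3 pcF0 Cut.none Ext.none)

def k0_pm_203_a : ∃ t, chk3 f_pm_203_a t 1 1 1 = true :=
  ⟨(b (l 2) (b (l 2) (b (a (b (l 2) (l 17328392)) (l 2)) (a (b (a (b (l 17643792) (l 17765320)) (b (l 17776016) (l 17541032))) (l 17667736)) (a (b (b (l 17604656) (l 17340320)) (b (l 17403768) (l 17439512))) (b (b (l 2) (a (l 17529096) (l 2))) (l 17535440))))))), by decide +kernel⟩

theorem c_pm_203_a : CertF 0 536870912 0 1230186008 67108864 67108864 false true false .up 2 0 3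
    ndF1q2a ndF4q3 pcF0 Cut.none Ext.none :=
  certFK0 (fam := false) (s1 := true) (s2 := false) (a := 2) (b := 0) (c := 3) (cn := .up) (n1 := ndF1q2a) (n2 := ndF4q3) (pc := pcF0) (cut := Cut.none) (xt := Ext.none) (P1 := 0) (W1 := 536870912) (P2 := 0) (W2 := 1230186008) (P3 := 67108864) (W3 := 67108864)
    rfl rfl rfl k0_pm_203_a

noncomputable def f_pm_203_b : ℕ → ℕ → ℕ → ℕ → Bool := onCell 0 536870912 0 1230186008 67108864 67108864
    (rowFK 2 false true false .up 2 0 3 (qsf 1239849684 370763052 0 1230186008 0) ndF1q2b ndF4q3 pcF0 Cut.none Ext.none)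

def k0_pm_203_b : ∃ t, chk3 f_pm_203_b t 1 1 1 = true :=
  ⟨(b (a (l 2) (l 3)) (a (b (a (l 2) (l 607304229767)) (a (b (l 2) (a (l 17573320) (l 17473472))) (b (a (l 18101688) (l 17787648)) (b (l 17432464) (l 17548792))))) (b (a (l 133313989687) (b (l 17394152) (l 17480744))) (a (b (b (l 17665088) (l 17328880)) (b (l 17442808) (l 17457000))) (b (b (l 17412600) (l 17099048)) (a (l 17669376) (b (l 17685624) (l 1)))))))), by decide +kernel⟩

theorem c_pm_203_b : CertF 1239849684 370763052 0 1230186008 67108864 67108864 false true false .up 2 0 3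
    ndF1q2b ndF4q3 pcF0 Cut.none Ext.none :=
  certFK2 (fam := false) (s1 := true) (s2 := false) (a := 2) (b := 0) (c := 3) (cn := .up) (n1 := ndF1q2b) (n2 := ndF4q3) (pc := pcF0) (cut := Cut.none) (xt := Ext.none) (P1 := 1239849684) (W1 := 370763052) (P2 := 0) (W2 := 1230186008) (P3 := 67108864) (W3 := 67108864)
    rfl rfl rfl (fun _ => rfl) k0_pm_203_b

noncomputable def cut_pm_213_a : Cut := Cut.of [[⟨0, 1, 0, 21338704⟩, ⟨1, 1, 0, 21338704⟩, ⟨2, 2, 0, 1685920⟩]]

noncomputable def f_pm_213_a : ℕ → ℕ → ℕ → ℕ → Bool := onCell 0 536870912 0 1230186008 67108864 67108864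
    (rowFK 0 false true false .pnn 2 1 3 (qsf 0 536870912 0 1230186008 1) ndF1q2a ndF4q3 pcF1 cut_pm_213_a Ext.none)

def k0_pm_213_a : ∃ t, chk3 f_pm_213_a t 1 1 1 = true :=
  ⟨(b (a (b (b (l 3) (a (l 3) (l 291688832839))) (b (a (l 307795043175) (l 234781134967)) (a (l 17050928) (l 17106712)))) (b (a (b (l 3) (b (l 264308406919) (l 193978498631))) (b (a (b (l 3) (l 266992681271)) (b (a (l 285783138071) (b (a (l 291151828471) (l 6)) (l 16801104))) (l 16874224))) (a (l 16972752) (l 16842088)))) (a (b (l 17022712) (l 17157560)) (b (l 17041016) (l 17115256))))) (b (a (b (l 17330104) (a (l 17612752) (l 17725488))) (b (a (l 17434656) (l 17445528)) (a (l 17734992) (l 17572712)))) (b (a (b (l 17914160) (l 18171176)) (b (l 17890328) (a (b (l 18184832) (l 18169344)) (a (b (l 18054744) (l 17876208)) (b (l 17784552) (l 17419208)))))) (a (b (b (a (l 1) (l 18255504)) (l 1)) (l 1)) (a (b (b (l 17745472) (l 17556168)) (l 1)) (b (a (b (l 17312976) (l 18083664)) (b (l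 17865832) (l 18255952))) (l 18360088))))))), by decide +kernel⟩

theorem c_pm_213_a : CertF 0 536870912 0 1230186008 67108864 67108864 false true false .pnn 2 1 3
    ndF1q2a ndF4q3 pcF1 cut_pm_213_a Ext.none :=
  certFK0 (fam := false) (s1 := true) (s2 := false) (a := 2) (b := 1) (c := 3) (cn := .pnn) (n1 := ndF1q2a) (n2 := ndF4q3) (pc := pcF1) (cut := cut_pm_213_a) (xt := Ext.none) (P1 := 0) (W1 := 536870912) (P2 := 0) (W2 := 1230186008) (P3 := 67108864) (W3 := 67108864)
    rfl rfl rfl k0_pm_213_a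

noncomputable def cut_pm_213_b : Cut := Cut.of [[⟨0, 1, 0, 21338704⟩, ⟨1, 1, 0, 21338704⟩, ⟨2, 2, 0, 1685920⟩]]

noncomputable def f_pm_213_b : ℕ → ℕ → ℕ → ℕ → Bool := onCell 1239849684 370763052 0 1230186008 67108864 67108864
    (rowFK 0 false true false .pnn 2 1 3 (qsf 1239849684 370763052 0 1230186008 1) ndF1q2b ndF4q3 pcF1 cut_pm_213_b Ext.none)

def k0_pm_213_b : ∃ t, chk3 f_pm_213_b t 1 1 1 = true :=
  ⟨(b (b (l 3) (a (b (l 3) (a (b (l 235317802023) (l 17048200)) (l 229412502791))) (l 3))) (b (a (b (a (l 17262312) (l 17343224)) (a (l 17604272) (l 17700008))) (b (a (l 17576744) (l 1)) (l 1))) (a (b (b (l 17924824) (a (l 18114928) (l 1))) (l 1)) (l 1)))), by decide +kernel⟩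

theorem c_pm_213_b : CertF 1239849684 370763052 0 1230186008 67108864 67108864 false true false .pnn 2 1 3
    ndF1q2b ndF4q3 pcF1 cut_pm_213_b Ext.none :=
  certFK0 (fam := false) (s1 := true) (s2 := false) (a := 2) (b := 1) (c := 3) (cn := .pnn) (n1 := ndF1q2b) (n2 := ndF4q3) (pc := pcF1) (cut := cut_pm_213_b) (xt := Ext.none) (P1 := 1239849684) (W1 := 370763052) (P2 := 0) (W2 := 1230186008) (P3 := 67108864) (W3 := 67108864)
    rfl rfl rfl k0_pm_213_b

noncomputable def f_pm_303 : ℕ → ℕ → ℕ → ℕ → Bool := onCell 0 536870912 0 1230186008 67108864 67108864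
    (rowFK 2 false true false .npn 3 0 3 (qsf 1610612736 536870912 0 1230186008 0) ndF1q3 ndF4q3 pcF0 Cut.none Ext.none)

def k0_pm_303 : ∃ t, chk3 f_pm_303 t 1 1 1 = true :=
  ⟨(b (a (l 3) (l 3)) (a (b (a (b (l 3) (a (b (l 3) (l 18232968)) (l 18002392))) (l 174115986343)) (a (b (a (l 17798056) (l 17759688)) (a (l 17213928) (l 17034416))) (b (a (b (l 17574664) (l 17234344)) (l 17403200)) (b (l 16906888) (l 1))))) (b (a (b (l 183241485239) (l 17116056)) (b (l 17295264) (l 1))) (l 1)))), by decide +kernel⟩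

theorem c_pm_303 : CertF 1610612736 536870912 0 1230186008 67108864 67108864 false true false .npn 3 0 3
    ndF1q3 ndF4q3 pcF0 Cut.none Ext.none :=
  certFK2 (fam := false) (s1 := true) (s2 := false) (a := 3) (b := 0) (c := 3) (cn := .npn) (n1 := ndF1q3) (n2 := ndF4q3) (pc := pcF0) (cut := Cut.none) (xt := Ext.none) (P1 := 1610612736) (W1 := 536870912) (P2 := 0) (W2 := 1230186008) (P3 := 67108864) (W3 := 67108864)
    rfl rfl rfl (fun _ => rfl) k0_pm_303

noncomputable def f_pm_313 : ℕ → ℕ → ℕ → ℕ → Bool := onCell 1610612736 536870912 0 1230186008 67108864 67108864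
    (rowFK 0 false true false .dn 3 1 3 (qsf 1610612736 536870912 0 1230186008 1) ndF1q3 ndF4q3 pcF1 Cut.none Ext.none)

def k0_pm_313 : ∃ t, chk3 f_pm_313 t 1 1 1 = true :=
  ⟨(b (l 3) (l 1)), by decide +kernel⟩

theorem c_pm_313 : CertF 1610612736 536870912 0 1230186008 67108864 67108864 false true false .dn 3 1 3
    ndF1q3 ndF4q3 pcF1 Cut.none Ext.none :=
  certFK0 (fam := false) (s1 := true) (s2 := false) (a := 3) (b := 1) (c := 3) (cn := .dn) (n1 := ndF1q3) (n2 := ndF4q3) (pc := pcF1) (cut := Cut.none) (xt := Ext.none) (P1 := 1610612736) (W1 := 536870912) (P2 := 0) (W2 := 1230186008) (P3 := 67108864) (W3 := 67108864)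
    rfl rfl rfl k0_pm_313

noncomputable def f_mm_001 : ℕ → ℕ → ℕ → ℕ → Bool := onCell 0 536870912 0 536870912 67108864 67108864
    (rowFK 1 false false false .up 0 0 1 (qsf 0 536870912 536870912 536870912 0) ndF1q0 ndF4q1 pcF0 Cut.none Ext.none)

def k0_mm_001 : ∃ t, chk3 f_mm_001 t 1 1 1 = true :=
  ⟨(l 3), by decide +kernel⟩

theorem c_mm_001 : CertF 0 536870912 536870912 536870912 67108864 67108864 false false false .up 0 0 1
    ndF1q0 ndF4q1 pcF0 Cut.none Ext.none :=
  certFK1 (fam := false) (s1 := false) (s2 := false) (a := 0) (b := 0) (c := 1) (cn := .up) (n1 := ndF1q0) (n2 := ndF4q1) (pc := pcF0) (cut := Cut.none) (xt := Ext.none) (P1 := 0) (W1 := 536870912) (P2 := 536870912) (W2 := 536870912) (P3 := 67108864) (W3 := 67108864)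
    rfl rfl rfl (fun _ => rfl) k0_mm_001

noncomputable def f_mm_011 : ℕ → ℕ → ℕ → ℕ → Bool := onCell 0 536870912 536870912 536870912 67108864 67108864
    (rowFK 1 false false false .pnn 0 1 1 (qsf 0 536870912 536870912 536870912 1) ndF1q0 ndF4q1 pcF1 Cut.none Ext.none)

def k0_mm_011 : ∃ t, chk3 f_mm_011 t 1 1 1 = true :=
  ⟨(l 5), by decide +kernel⟩

theorem c_mm_011 : CertF 0 536870912 536870912 536870912 67108864 67108864 false false false .pnn 0 1 1
    ndF1q0 ndF4q1 pcF1 Cut.none Ext.none :=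
  certFK1 (fam := false) (s1 := false) (s2 := false) (a := 0) (b := 1) (c := 1) (cn := .pnn) (n1 := ndF1q0) (n2 := ndF4q1) (pc := pcF1) (cut := Cut.none) (xt := Ext.none) (P1 := 0) (W1 := 536870912) (P2 := 536870912) (W2 := 536870912) (P3 := 67108864) (W3 := 67108864)
    rfl rfl rfl (fun _ => rfl) k0_mm_011

noncomputable def f_mm_012 : ℕ → ℕ → ℕ → ℕ → Bool := onCell 0 536870912 1073741824 536870912 67108864 67108864
    (rowFK 0 false false false .pnp 0 1 2 (qsf 0 536870912 1073741824 536870912 1) ndF1q0 ndF4q2 pcF1 Cut.none Ext.none)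

def k0_mm_012 : ∃ t, chk3 f_mm_012 t 1 1 1 = true :=
  ⟨(l 5), by decide +kernel⟩

theorem c_mm_012 : CertF 0 536870912 1073741824 536870912 67108864 67108864 false false false .pnp 0 1 2
    ndF1q0 ndF4q2 pcF1 Cut.none Ext.none :=
  certFK0 (fam := false) (s1 := false) (s2 := false) (a := 0) (b := 1) (c := 2) (cn := .pnp) (n1 := ndF1q0) (n2 := ndF4q2) (pc := pcF1) (cut := Cut.none) (xt := Ext.none) (P1 := 0) (W1 := 536870912) (P2 := 1073741824) (W2 := 536870912) (P3 := 67108864) (W3 := 67108864)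
    rfl rfl rfl k0_mm_012

noncomputable def f_mm_022 : ℕ → ℕ → ℕ → ℕ → Bool := onCell 0 536870912 1073741824 536870912 67108864 67108864
    (rowFK 0 false false false .pp 0 2 2 (qsf 0 536870912 1073741824 536870912 2) ndF1q0 ndF4q2 pcF2 Cut.none Ext.none)

def k0_mm_022 : ∃ t, chk3 f_mm_022 t 1 1 1 = true :=
  ⟨(l 5), by decide +kernel⟩

theorem c_mm_022 : CertF 0 536870912 1073741824 536870912 67108864 67108864 false false false .pp 0 2 2
    ndF1q0 ndF4q2 pcF2 Cut.none Ext.none :=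
  certFK0 (fam := false) (s1 := false) (s2 := false) (a := 0) (b := 2) (c := 2) (cn := .pp) (n1 := ndF1q0) (n2 := ndF4q2) (pc := pcF2) (cut := Cut.none) (xt := Ext.none) (P1 := 0) (W1 := 536870912) (P2 := 1073741824) (W2 := 536870912) (P3 := 67108864) (W3 := 67108864)
    rfl rfl rfl k0_mm_022

noncomputable def f_mm_023 : ℕ → ℕ → ℕ → ℕ → Bool := onCell 0 536870912 0 1230186008 67108864 67108864
    (rowFK 0 false false false .up 0 2 3 (qsf 0 536870912 0 1230186008 2) ndF1q0 ndF4q3 pcF2 Cut.none Ext.none)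

def k0_mm_023 : ∃ t, chk3 f_mm_023 t 1 1 1 = true :=
  ⟨(l 5), by decide +kernel⟩

theorem c_mm_023 : CertF 0 536870912 0 1230186008 67108864 67108864 false false false .up 0 2 3
    ndF1q0 ndF4q3 pcF2 Cut.none Ext.none :=
  certFK0 (fam := false) (s1 := false) (s2 := false) (a := 0) (b := 2) (c := 3) (cn := .up) (n1 := ndF1q0) (n2 := ndF4q3) (pc := pcF2) (cut := Cut.none) (xt := Ext.none) (P1 := 0) (W1 := 536870912) (P2 := 0) (W2 := 1230186008) (P3 := 67108864) (W3 := 67108864)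
    rfl rfl rfl k0_mm_023

noncomputable def f_mm_033 : ℕ → ℕ → ℕ → ℕ → Bool := onCell 0 536870912 0 1230186008 67108864 67108864
    (rowFK 0 false false false .pnn 0 3 3 (qsf 0 536870912 0 1230186008 3) ndF1q0 ndF4q3 pcF3 Cut.none Ext.none)

def k0_mm_033 : ∃ t, chk3 f_mm_033 t 1 1 1 = true :=
  ⟨(l 5), by decide +kernel⟩

theorem c_mm_033 : CertF 0 536870912 0 1230186008 67108864 67108864 false false false .pnn 0 3 3
    ndF1q0 ndF4q3 pcF3 Cut.none Ext.none :=
  certFK0 (fam := false) (s1 := false) (s2 := false) (a := 0) (b := 3) (c := 3) (cn := .pnn) (n1 := ndF1q0) (n2 := ndF4q3) (pc := pcF3) (cut := Cut.none) (xt := Ext.none) (P1 := 0) (W1 := 536870912) (P2 := 0) (W2 := 1230186008) (P3 := 67108864) (W3 := 67108864)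
    rfl rfl rfl k0_mm_033

noncomputable def f_mm_101 : ℕ → ℕ → ℕ → ℕ → Bool := onCell 536870912 536870912 536870912 536870912 67108864 67108864
    (rowFK 0 false false false .npn 1 0 1 (qsf 536870912 536870912 536870912 536870912 0) ndF1q1 ndF4q1 pcF0 Cut.none Ext.none)

def k0_mm_101 : ∃ t, chk3 f_mm_101 t 1 1 1 = true :=
  ⟨(l 3), by decide +kernel⟩

theorem c_mm_101 : CertF 536870912 536870912 536870912 536870912 67108864 67108864 false false false .npn 1 0 1
    ndF1q1 ndF4q1 pcF0 Cut.none Ext.none :=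
  certFK0 (fam := false) (s1 := false) (s2 := false) (a := 1) (b := 0) (c := 1) (cn := .npn) (n1 := ndF1q1) (n2 := ndF4q1) (pc := pcF0) (cut := Cut.none) (xt := Ext.none) (P1 := 536870912) (W1 := 536870912) (P2 := 536870912) (W2 := 536870912) (P3 := 67108864) (W3 := 67108864)
    rfl rfl rfl k0_mm_101

noncomputable def f_mm_102 : ℕ → ℕ → ℕ → ℕ → Bool := onCell 536870912 536870912 1073741824 536870912 67108864 67108864
    (rowFK 0 false false false .npp 1 0 2 (qsf 536870912 536870912 1073741824 536870912 0) ndF1q1 ndF4q2 pcF0 Cut.none Ext.none)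

def k0_mm_102 : ∃ t, chk3 f_mm_102 t 1 1 1 = true :=
  ⟨(l 3), by decide +kernel⟩

theorem c_mm_102 : CertF 536870912 536870912 1073741824 536870912 67108864 67108864 false false false .npp 1 0 2
    ndF1q1 ndF4q2 pcF0 Cut.none Ext.none :=
  certFK0 (fam := false) (s1 := false) (s2 := false) (a := 1) (b := 0) (c := 2) (cn := .npp) (n1 := ndF1q1) (n2 := ndF4q2) (pc := pcF0) (cut := Cut.none) (xt := Ext.none) (P1 := 536870912) (W1 := 536870912) (P2 := 1073741824) (W2 := 536870912) (P3 := 67108864) (W3 := 67108864)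
    rfl rfl rfl k0_mm_102

noncomputable def f_mm_112 : ℕ → ℕ → ℕ → ℕ → Bool := onCell 536870912 536870912 1073741824 536870912 67108864 67108864
    (rowFK 0 false false false .dn 1 1 2 (qsf 536870912 536870912 1073741824 536870912 1) ndF1q1 ndF4q2 pcF1 Cut.none Ext.none)

def k0_mm_112 : ∃ t, chk3 f_mm_112 t 1 1 1 = true :=
  ⟨(l 3), by decide +kernel⟩

theorem c_mm_112 : CertF 536870912 536870912 1073741824 536870912 67108864 67108864 false false false .dn 1 1 2
    ndF1q1 ndF4q2 pcF1 Cut.none Ext.none :=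
  certFK0 (fam := false) (s1 := false) (s2 := false) (a := 1) (b := 1) (c := 2) (cn := .dn) (n1 := ndF1q1) (n2 := ndF4q2) (pc := pcF1) (cut := Cut.none) (xt := Ext.none) (P1 := 536870912) (W1 := 536870912) (P2 := 1073741824) (W2 := 536870912) (P3 := 67108864) (W3 := 67108864)
    rfl rfl rfl k0_mm_112

noncomputable def f_mm_113 : ℕ → ℕ → ℕ → ℕ → Bool := onCell 536870912 536870912 0 1230186008 67108864 67108864
    (rowFK 0 false false false .nn 1 1 3 (qsf 536870912 536870912 0 1230186008 1) ndF1q1 ndF4q3 pcF1 Cut.none Ext.none)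

def k0_mm_113 : ∃ t, chk3 f_mm_113 t 1 1 1 = true :=
  ⟨(l 5), by decide +kernel⟩

theorem c_mm_113 : CertF 536870912 536870912 0 1230186008 67108864 67108864 false false false .nn 1 1 3
    ndF1q1 ndF4q3 pcF1 Cut.none Ext.none :=
  certFK0 (fam := false) (s1 := false) (s2 := false) (a := 1) (b := 1) (c := 3) (cn := .nn) (n1 := ndF1q1) (n2 := ndF4q3) (pc := pcF1) (cut := Cut.none) (xt := Ext.none) (P1 := 536870912) (W1 := 536870912) (P2 := 0) (W2 := 1230186008) (P3 := 67108864) (W3 := 67108864)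
    rfl rfl rfl k0_mm_113

noncomputable def f_mm_123 : ℕ → ℕ → ℕ → ℕ → Bool := onCell 536870912 536870912 0 1230186008 67108864 67108864
    (rowFK 0 false false false .npn 1 2 3 (qsf 536870912 536870912 0 1230186008 2) ndF1q1 ndF4q3 pcF2 Cut.none Ext.none)

def k0_mm_123 : ∃ t, chk3 f_mm_123 t 1 1 1 = true :=
  ⟨(l 5), by decide +kernel⟩

theorem c_mm_123 : CertF 536870912 536870912 0 1230186008 67108864 67108864 false false false .npn 1 2 3
    ndF1q1 ndF4q3 pcF2 Cut.none Ext.none :=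
  certFK0 (fam := false) (s1 := false) (s2 := false) (a := 1) (b := 2) (c := 3) (cn := .npn) (n1 := ndF1q1) (n2 := ndF4q3) (pc := pcF2) (cut := Cut.none) (xt := Ext.none) (P1 := 536870912) (W1 := 536870912) (P2 := 0) (W2 := 1230186008) (P3 := 67108864) (W3 := 67108864)
    rfl rfl rfl k0_mm_123

noncomputable def f_mm_133 : ℕ → ℕ → ℕ → ℕ → Bool := onCell 536870912 536870912 0 1230186008 67108864 67108864
    (rowFK 0 false false false .dn 1 3 3 (qsf 536870912 536870912 0 1230186008 3) ndF1q1 ndF4q3 pcF3 Cut.none Ext.none)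

def k0_mm_133 : ∃ t, chk3 f_mm_133 t 1 1 1 = true :=
  ⟨(l 5), by decide +kernel⟩

theorem c_mm_133 : CertF 536870912 536870912 0 1230186008 67108864 67108864 false false false .dn 1 3 3
    ndF1q1 ndF4q3 pcF3 Cut.none Ext.none :=
  certFK0 (fam := false) (s1 := false) (s2 := false) (a := 1) (b := 3) (c := 3) (cn := .dn) (n1 := ndF1q1) (n2 := ndF4q3) (pc := pcF3) (cut := Cut.none) (xt := Ext.none) (P1 := 536870912) (W1 := 536870912) (P2 := 0) (W2 := 1230186008) (P3 := 67108864) (W3 := 67108864)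
    rfl rfl rfl k0_mm_133

noncomputable def cut_mm_202_a : Cut := Cut.of [[⟨0, 1, 0, 67108864⟩, ⟨1, 0, 0, 67108864⟩, ⟨2, 1, 0, 67108864⟩]]

noncomputable def f_mm_202_a : ℕ → ℕ → ℕ → ℕ → Bool := onCell 0 536870912 0 536870912 67108864 67108864
    (rowFK 1 false false false .pp 2 0 2 (qsf 0 536870912 1073741824 536870912 0) ndF1q2a ndF4q2 pcF0 cut_mm_202_a Ext.none)

def k0_mm_202_a : ∃ t, chk3 f_mm_202_a t 1 2 1 = true :=
  ⟨(b (a (b (a (b (l 17584440) (b (l 17819640) (a (l 17823144) (l 17872872)))) (a (b (l 17680576) (b (l 17859080) (l 17783160))) (b (b (l 17422256) (b (l 17648816) (l 17722640))) (b (b (l 17715264) (l 17724248)) (l 17690880))))) (a (b (b (l 17796504) (a (l 17708632) (l 17729616))) (l 17622608)) (b (a (l 17701048) (a (l 17622888) (l 125259821975))) (a (l 221896636615) (l 3))))) (b (a (b (a (b (a (l 17252448) (b (l 16876160) (l 17163848))) (a (b (l 17512008) (l 17543216)) (b (b (l 17289008) (l 17331656)) (l 17395144)))) (b (b (a (l 16739200)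 (b (l 16737944) (l 16708904))) (b (a (l 16809512) (l 16719312)) (a (l 16942592) (l 16699800)))) (a (b (a (l 17134176) (l 17001488)) (l 17020328)) (b (a (l 16837320) (l 16683760)) (a (l 16872104) (l 138143516327)))))) (a (a (b (l 17580200) (l 17559240)) (b (b (l 17434848) (l 17409392)) (c (l 17641424) (l 255182385399)))) (b (b (a (c (l 17558280) (l 141901587159)) (a (c (l 265919622007) (l 195051815351)) (l 3))) (a (c (l 276657323671) (l 239612720615)) (l 3))) (l 3)))) (b (a (b (a (b (a (l 16770048) (b (l 16714848) (l 16727024))) (a (b (l 16717456) (l 16666712)) (b (l 16710584) (l 16704792)))) (b (b (l 6) (a (l 16736216) (l 6))) (a (b (l 16713896) (a (l 16696784) (l 133311710503))) (b (l 6) (a (l 146196552807) (l 6)))))) (a (b (a (b (l 16675288) (l 16704520)) (b (l 135459182631) (l 193978012839))) (a (l 197199246407) (l 3))) (b (a (b (l 197199276951) (l 3)) (l 3)) (l 3)))) (b (l 6) (l 3))) (l 3))) (a (b (a (a (l 273973306679) (l 3)) (l 3)) (l 3)) (l 3))))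 (a (b (a (b (l 190221289255) (l 197737340055)) (l 3)) (a (b (l 228875568423) (l 3)) (l 3))) (l 3))), by decide +kernel⟩

def k1_mm_202_a : ∃ t, chk3 f_mm_202_a t 1 3 1 = true :=
  ⟨(l 3), by decide +kernel⟩

theorem s2_mm_202_a : ∃ t, chk3 f_mm_202_a t 1 1 1 = true := ex3_b k0_mm_202_a k1_mm_202_a

theorem c_mm_202_a : CertF 0 536870912 1073741824 536870912 67108864 67108864 false false false .pp 2 0 2
    ndF1q2a ndF4q2 pcF0 cut_mm_202_a Ext.none :=
  certFK1 (fam := false) (s1 := false) (s2 := false) (a := 2) (b := 0) (c := 2) (cn := .pp) (n1 := ndF1q2a) (n2 := ndF4q2) (pc := pcF0) (cut := cut_mm_202_a) (xt := Ext.none) (P1 := 0) (W1 := 536870912) (P2 := 1073741824) (W2 := 536870912) (P3 := 67108864) (W3 := 67108864)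
    rfl rfl rfl (fun _ => rfl) s2_mm_202_a

noncomputable def cut_mm_202_b : Cut := Cut.of [[⟨0, 1, 0, 67108864⟩, ⟨1, 0, 0, 67108864⟩, ⟨2, 1, 0, 67108864⟩]]

noncomputable def f_mm_202_b : ℕ → ℕ → ℕ → ℕ → Bool := onCell 1239849684 370763052 0 536870912 67108864 67108864
    (rowFK 1 false false false .pp 2 0 2 (qsf 1239849684 370763052 1073741824 536870912 0) ndF1q2b ndF4q2 pcF0 cut_mm_202_b Ext.none)

def k0_mm_202_b : ∃ t, chk3 f_mm_202_b t 1 1 1 = true :=
  ⟨(b (b (a (b (a (b (l 17973992) (a (l 17970216) (l 18322568))) (b (b (l 18672688) (l 18666296)) (l 18454336))) (a (b (b (l 18063712) (l 18133864)) (a (l 17771984) (l 17960176))) (b (l 18255616) (l 18002928)))) (b (a (b (l 18758320) (l 3)) (l 3)) (l 3))) (a (a (b (b (l 11444405751) (a (l 17461560) (l 3))) (b (b (l 262162566151) (l 3)) (l 3))) (l 3)) (l 3))) (a (b (l 3) (l 2)) (l 2))), by decide +kernel⟩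

theorem c_mm_202_b : CertF 1239849684 370763052 1073741824 536870912 67108864 67108864 false false false .pp 2 0 2
    ndF1q2b ndF4q2 pcF0 cut_mm_202_b Ext.none :=
  certFK1 (fam := false) (s1 := false) (s2 := false) (a := 2) (b := 0) (c := 2) (cn := .pp) (n1 := ndF1q2b) (n2 := ndF4q2) (pc := pcF0) (cut := cut_mm_202_b) (xt := Ext.none) (P1 := 1239849684) (W1 := 370763052) (P2 := 1073741824) (W2 := 536870912) (P3 := 67108864) (W3 := 67108864)
    rfl rfl rfl (fun _ => rfl) k0_mm_202_b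

noncomputable def f_mm_203_a : ℕ → ℕ → ℕ → ℕ → Bool := onCell 0 536870912 0 1230186008 67108864 67108864
    (rowFK 0 false false false .up 2 0 3 (qsf 0 536870912 0 1230186008 0) ndF1q2a ndF4q3 pcF0 Cut.none Ext.none)

def k0_mm_203_a : ∃ t, chk3 f_mm_203_a t 1 1 1 = true :=
  ⟨(b (l 2) (l 3)), by decide +kernel⟩

theorem c_mm_203_a : CertF 0 536870912 0 1230186008 67108864 67108864 false false false .up 2 0 3
    ndF1q2a ndF4q3 pcF0 Cut.none Ext.none :=
  certFK0 (fam := false) (s1 := false) (s2 := false) (a := 2) (b := 0) (c := 3) (cn := .up) (n1 := ndF1q2a) (n2 := ndF4q3) (pc := pcF0) (cut := Cut.none) (xt := Ext.none) (P1 := 0) (W1 := 536870912) (P2 := 0) (W2 := 1230186008) (P3 := 67108864) (W3 := 67108864)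
    rfl rfl rfl k0_mm_203_a

noncomputable def f_mm_203_b : ℕ → ℕ → ℕ → ℕ → Bool := onCell 1239849684 370763052 0 1230186008 67108864 67108864
    (rowFK 0 false false false .up 2 0 3 (qsf 1239849684 370763052 0 1230186008 0) ndF1q2b ndF4q3 pcF0 Cut.none Ext.none)

def k0_mm_203_b : ∃ t, chk3 f_mm_203_b t 1 1 1 = true :=
  ⟨(b (l 3) (b (l 3) (l 3))), by decide +kernel⟩

theorem c_mm_203_b : CertF 1239849684 370763052 0 1230186008 67108864 67108864 false false false .up 2 0 3
    ndF1q2b ndF4q3 pcF0 Cut.none Ext.none :=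
  certFK0 (fam := false) (s1 := false) (s2 := false) (a := 2) (b := 0) (c := 3) (cn := .up) (n1 := ndF1q2b) (n2 := ndF4q3) (pc := pcF0) (cut := Cut.none) (xt := Ext.none) (P1 := 1239849684) (W1 := 370763052) (P2 := 0) (W2 := 1230186008) (P3 := 67108864) (W3 := 67108864)
    rfl rfl rfl k0_mm_203_b

noncomputable def f_mm_213_a : ℕ → ℕ → ℕ → ℕ → Bool := onCell 0 536870912 0 1230186008 67108864 67108864
    (rowFK 0 false false false .pnn 2 1 3 (qsf 0 536870912 0 1230186008 1) ndF1q2a ndF4q3 pcF1 Cut.none Ext.none)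

def k0_mm_213_a : ∃ t, chk3 f_mm_213_a t 1 1 1 = true :=
  ⟨(b (a (l 3) (l 5)) (l 3)), by decide +kernel⟩

theorem c_mm_213_a : CertF 0 536870912 0 1230186008 67108864 67108864 false false false .pnn 2 1 3
    ndF1q2a ndF4q3 pcF1 Cut.none Ext.none :=
  certFK0 (fam := false) (s1 := false) (s2 := false) (a := 2) (b := 1) (c := 3) (cn := .pnn) (n1 := ndF1q2a) (n2 := ndF4q3) (pc := pcF1) (cut := Cut.none) (xt := Ext.none) (P1 := 0) (W1 := 536870912) (P2 := 0) (W2 := 1230186008) (P3 := 67108864) (W3 := 67108864)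
    rfl rfl rfl k0_mm_213_a

noncomputable def f_mm_213_b : ℕ → ℕ → ℕ → ℕ → Bool := onCell 1239849684 370763052 0 1230186008 67108864 67108864
    (rowFK 0 false false false .pnn 2 1 3 (qsf 1239849684 370763052 0 1230186008 1) ndF1q2b ndF4q3 pcF1 Cut.none Ext.none)

def k0_mm_213_b : ∃ t, chk3 f_mm_213_b t 1 1 1 = true :=
  ⟨(b (l 3) (b (l 3) (l 3))), by decide +kernel⟩

theorem c_mm_213_b : CertF 1239849684 370763052 0 1230186008 67108864 67108864 false false false .pnn 2 1 3
    ndF1q2b ndF4q3 pcF1 Cut.none Ext.none :=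
  certFK0 (fam := false) (s1 := false) (s2 := false) (a := 2) (b := 1) (c := 3) (cn := .pnn) (n1 := ndF1q2b) (n2 := ndF4q3) (pc := pcF1) (cut := Cut.none) (xt := Ext.none) (P1 := 1239849684) (W1 := 370763052) (P2 := 0) (W2 := 1230186008) (P3 := 67108864) (W3 := 67108864)
    rfl rfl rfl k0_mm_213_b

noncomputable def f_mm_303 : ℕ → ℕ → ℕ → ℕ → Bool := onCell 0 536870912 0 1230186008 67108864 67108864
    (rowFK 2 false false false .npn 3 0 3 (qsf 1610612736 536870912 0 1230186008 0) ndF1q3 ndF4q3 pcF0 Cut.none Ext.none)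

def k0_mm_303 : ∃ t, chk3 f_mm_303 t 1 1 1 = true :=
  ⟨(b (l 3) (a (l 3) (l 3))), by decide +kernel⟩

theorem c_mm_303 : CertF 1610612736 536870912 0 1230186008 67108864 67108864 false false false .npn 3 0 3
    ndF1q3 ndF4q3 pcF0 Cut.none Ext.none :=
  certFK2 (fam := false) (s1 := false) (s2 := false) (a := 3) (b := 0) (c := 3) (cn := .npn) (n1 := ndF1q3) (n2 := ndF4q3) (pc := pcF0) (cut := Cut.none) (xt := Ext.none) (P1 := 1610612736) (W1 := 536870912) (P2 := 0) (W2 := 1230186008) (P3 := 67108864) (W3 := 67108864)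
    rfl rfl rfl (fun _ => rfl) k0_mm_303

noncomputable def f_mm_313 : ℕ → ℕ → ℕ → ℕ → Bool := onCell 1610612736 536870912 0 1230186008 67108864 67108864
    (rowFK 0 false false false .dn 3 1 3 (qsf 1610612736 536870912 0 1230186008 1) ndF1q3 ndF4q3 pcF1 Cut.none Ext.none)

def k0_mm_313 : ∃ t, chk3 f_mm_313 t 1 1 1 = true :=
  ⟨(b (l 3) (l 1)), by decide +kernel⟩

theorem c_mm_313 : CertF 1610612736 536870912 0 1230186008 67108864 67108864 false false false .dn 3 1 3
    ndF1q3 ndF4q3 pcF1 Cut.none Ext.none :=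
  certFK0 (fam := false) (s1 := false) (s2 := false) (a := 3) (b := 1) (c := 3) (cn := .dn) (n1 := ndF1q3) (n2 := ndF4q3) (pc := pcF1) (cut := Cut.none) (xt := Ext.none) (P1 := 1610612736) (W1 := 536870912) (P2 := 0) (W2 := 1230186008) (P3 := 67108864) (W3 := 67108864)
    rfl rfl rfl k0_mm_313

end Pool.Agent.Strip051.G.I1_16_1_8.Tab.C.FB14

namespace Pool.Agent.Strip051.G.I1_16_1_8.Tab.C.FB20

open Pool.Agent.Strip051.PB Pool.Agent.Strip051.PB.T
open Pool.Agent.Strip051.G.I1_16_1_8.Tab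

noncomputable def f_pp_001 : ℕ → ℕ → ℕ → ℕ → Bool := onCell 0 536870912 0 536870912 67108864 67108864
    (rowFK 1 false true true .up 0 0 1 (qsf 0 536870912 536870912 536870912 0) ndF2q0 ndF0q1 pcF0 Cut.none Ext.none)

def k0_pp_001 : ∃ t, chk3 f_pp_001 t 1 1 1 = true :=
  ⟨(a (l 3) (b (l 3) (b (l 3) (a (l 3) (b (l 3) (a (l 3) (b (l 3) (l 171432025095)))))))), by decide +kernel⟩

theorem c_pp_001 : CertF 0 536870912 536870912 536870912 67108864 67108864 false true true .up 0 0 1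
    ndF2q0 ndF0q1 pcF0 Cut.none Ext.none :=
  certFK1 (fam := false) (s1 := true) (s2 := true) (a := 0) (b := 0) (c := 1) (cn := .up) (n1 := ndF2q0) (n2 := ndF0q1) (pc := pcF0) (cut := Cut.none) (xt := Ext.none) (P1 := 0) (W1 := 536870912) (P2 := 536870912) (W2 := 536870912) (P3 := 67108864) (W3 := 67108864)
    rfl rfl rfl (fun _ => rfl) k0_pp_001

noncomputable def cut_pp_011 : Cut := Cut.of [[⟨0, 0, 0, 67108864⟩, ⟨1, 1, 0, 67108864⟩, ⟨2, 1, 0, 67108864⟩]]

noncomputable def f_pp_011 : ℕ → ℕ → ℕ → ℕ → Bool := onCell 0 536870912 536870912 536870912 67108864 67108864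
    (rowFK 0 false true true .pnn 0 1 1 (qsf 0 536870912 536870912 536870912 1) ndF2q0 ndF0q1 pcF1 cut_pp_011 Ext.none)

def k0_pp_011 : ∃ t, chk3 f_pp_011 t 1 1 1 = true :=
  ⟨(b (l 3) (b (l 3) (b (l 3) (a (b (l 3) (a (b (l 3) (a (a (l 6) (a (l 106468634167) (l 17072152))) (a (l 17154480) (l 17354768)))) (a (l 135460820375) (l 140293141895)))) (b (l 3) (a (a (l 144588479191) (l 148346830247)) (a (l 143515124535) (l 167674309463)))))))), by decide +kernel⟩

theorem c_pp_011 : CertF 0 536870912 536870912 536870912 67108864 67108864 false true true .pnn 0 1 1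
    ndF2q0 ndF0q1 pcF1 cut_pp_011 Ext.none :=
  certFK0 (fam := false) (s1 := true) (s2 := true) (a := 0) (b := 1) (c := 1) (cn := .pnn) (n1 := ndF2q0) (n2 := ndF0q1) (pc := pcF1) (cut := cut_pp_011) (xt := Ext.none) (P1 := 0) (W1 := 536870912) (P2 := 536870912) (W2 := 536870912) (P3 := 67108864) (W3 := 67108864)
    rfl rfl rfl k0_pp_011

noncomputable def cut_pp_012 : Cut := Cut.of [[⟨0, 0, 0, 67108864⟩, ⟨1, 1, 0, 67108864⟩, ⟨2, 1, 0, 67108864⟩]]

noncomputable def f_pp_012 : ℕ → ℕ → ℕ → ℕ → Bool := onCell 536870912 536870912 0 536870912 67108864 67108864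
    (rowFK 2 false true true .pnp 0 1 2 (qsf 0 536870912 0 536870912 1) ndF2q0 ndF0q2 pcF1 cut_pp_012 Ext.none)

def k0_pp_012 : ∃ t, chk3 f_pp_012 t 1 1 1 = true :=
  ⟨(a (b (a (b (l 2) (l 17794784)) (b (l 17637144) (l 17753952))) (a (b (l 17992984) (b (l 18133120) (a (l 18214392) (l 18204904)))) (b (l 17914152) (b (l 18023904) (a (l 18134528) (l 18009712)))))) (b (a (b (l 17761760) (l 17664496)) (a (b (l 17746016) (l 17517192)) (a (l 17882024) (l 17694520)))) (a (b (l 17691800) (b (l 17725896) (a (l 17831368) (l 17599152)))) (b (a (l 17448144) (b (l 17503328) (a (l 17360840) (l 17216216)))) (a (b (l 17385424) (b (l 17340144) (a (l 17377976) (l 17223976)))) (b (a (l 17212904) (b (l 17125120) (a (l 17096280) (l 17011824)))) (a (b (l 17117496) (b (l 17077304) (l 17006744))) (b (a (l 17019512) (l 6)) (l 6))))))))), by decide +kernel⟩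

theorem c_pp_012 : CertF 0 536870912 0 536870912 67108864 67108864 false true true .pnp 0 1 2
    ndF2q0 ndF0q2 pcF1 cut_pp_012 Ext.none :=
  certFK2 (fam := false) (s1 := true) (s2 := true) (a := 0) (b := 1) (c := 2) (cn := .pnp) (n1 := ndF2q0) (n2 := ndF0q2) (pc := pcF1) (cut := cut_pp_012) (xt := Ext.none) (P1 := 0) (W1 := 536870912) (P2 := 0) (W2 := 536870912) (P3 := 67108864) (W3 := 67108864)
    rfl rfl rfl (fun _ => rfl) k0_pp_012

noncomputable def cut_pp_022 : Cut := Cut.of [[⟨0, 0, 0, 67108864⟩, ⟨1, 1, 0, 67108864⟩, ⟨2, 1, 0, 67108864⟩]]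

noncomputable def f_pp_022 : ℕ → ℕ → ℕ → ℕ → Bool := onCell 0 536870912 0 536870912 67108864 67108864
    (rowFK 0 false true true .pp 0 2 2 (qsf 0 536870912 0 536870912 2) ndF2q0 ndF0q2 pcF2 cut_pp_022 Ext.none)

def k0_pp_022 : ∃ t, chk3 f_pp_022 t 1 1 1 = true :=
  ⟨(a (b (a (b (a (a (a (c (l 18448768) (b (l 17744536) (a (l 17654496) (l 17654624)))) (l 17981032)) (l 17883128)) (l 17926848)) (a (a (a (a (c (b (l 18347352) (l 18142504)) (b (b (b (l 17605632) (l 17537272)) (l 17505968)) (b (l 17303320) (l 17090000)))) (b (l 17892088) (l 17627048))) (b (l 17806120) (l 17542168))) (b (l 17682176) (l 17429400))) (b (l 17718288) (a (l 17438688) (l 17632168))))) (b (l 18589136) (a (l 18137664) (l 1)))) (a (b (a (a (b (a (a (c (b (l 17881200) (l 17405560)) (b (l 16845640) (l 16715456))) (l 17146072)) (l 17075440)) (a (a (b (a (l 16714968) (l 16695168)) (a (b (l 16706896) (l 16725680)) (l 16709944))) (b (l 16665760) (l 16703992))) (b (l 16685680) (l 16888936))))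 (b (a (l 17022872) (l 17028424)) (a (b (l 16746480) (b (l 16787552) (l 16825656))) (b (l 16940312) (l 16934176))))) (b (a (a (l 17193992) (l 17230768)) (l 17495344)) (a (l 17099552) (l 17415192)))) (a (a (b (b (a (a (a (b (b (l 16703296) (l 16724560)) (l 16733224)) (l 16756224)) (a (l 16733528) (l 16733632))) (a (l 16895016) (b (l 16736864) (l 16792024)))) (l 6)) (l 6)) (b (b (l 16925784) (a (l 6) (l 17036928))) (a (l 6) (l 1)))) (b (a (b (l 17176064) (l 1)) (l 1)) (l 1)))) (b (l 1) (l 1)))) (l 1)), by decide +kernel⟩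

theorem c_pp_022 : CertF 0 536870912 0 536870912 67108864 67108864 false true true .pp 0 2 2
    ndF2q0 ndF0q2 pcF2 cut_pp_022 Ext.none :=
  certFK0 (fam := false) (s1 := true) (s2 := true) (a := 0) (b := 2) (c := 2) (cn := .pp) (n1 := ndF2q0) (n2 := ndF0q2) (pc := pcF2) (cut := cut_pp_022) (xt := Ext.none) (P1 := 0) (W1 := 536870912) (P2 := 0) (W2 := 536870912) (P3 := 67108864) (W3 := 67108864)
    rfl rfl rfl k0_pp_022

noncomputable def cut_pp_101 : Cut := Cut.of [[⟨0, 1, 0, 67108864⟩, ⟨1, 0, 0, 67108864⟩, ⟨2, 1, 0, 67108864⟩], [⟨0, 1, 2, 33554432⟩, ⟨1, 0, 1, 33554432⟩, ⟨2, 1, 0, 16777216⟩, ⟨0, 0, 0, 1023410176⟩, ⟨0, 1, 0, 150994944⟩, ⟨1, 0, 0, 150994944⟩, ⟨1, 1, 0, 1023410176⟩]]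

noncomputable def f_pp_101 : ℕ → ℕ → ℕ → ℕ → Bool := onCell 536870912 536870912 536870912 536870912 67108864 67108864
    (rowFK 0 false true true .npn 1 0 1 (qsf 536870912 536870912 536870912 536870912 0) ndF2q1 ndF0q1 pcF0 cut_pp_101 Ext.none)

def k0_pp_101 : ∃ t, chk3 f_pp_101 t 1 2 1 = true :=
  ⟨(l 3), by decide +kernel⟩

def k1_pp_101 : ∃ t, chk3 f_pp_101 t 1 6 1 = true :=
  ⟨(l 3), by decide +kernel⟩

def k2_pp_101 : ∃ t, chk3 f_pp_101 t 1 14 1 = true :=
  ⟨(l 3), by decide +kernel⟩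

def k3_pp_101 : ∃ t, chk3 f_pp_101 t 1 30 1 = true :=
  ⟨(l 3), by decide +kernel⟩

def k4_pp_101 : ∃ t, chk3 f_pp_101 t 1 62 1 = true :=
  ⟨(a (l 3) (l 3)), by decide +kernel⟩

def k5_pp_101 : ∃ t, chk3 f_pp_101 t 1 126 1 = true :=
  ⟨(a (l 3) (l 3)), by decide +kernel⟩

def k6_pp_101 : ∃ t, chk3 f_pp_101 t 2 127 1 = true :=
  ⟨(a (a (l 18436760) (l 18391336)) (a (l 18227320) (l 236930136839))), by decide +kernel⟩

def k7_pp_101 : ∃ t, chk3 f_pp_101 t 3 254 1 = true :=
  ⟨(a (l 3) (l 3)), by decide +kernel⟩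

def k8_pp_101 : ∃ t, chk3 f_pp_101 t 3 510 1 = true :=
  ⟨(a (l 3) (l 3)), by decide +kernel⟩

def k9_pp_101 : ∃ t, chk3 f_pp_101 t 6 511 1 = true :=
  ⟨(a (l 229950773079) (b (l 3) (a (c (l 17687016) (l 165525139991)) (a (c (l 17618872) (c (l 17211272) (a (l 17200400) (l 145123499159)))) (c (l 17449040) (c (a (l 144049773207) (l 145123643895)) (a (a (l 141365323015) (l 14)) (l 14)))))))), by decide +kernel⟩

def k10_pp_101 : ∃ t, chk3 f_pp_101 t 7 1022 1 = true :=
  ⟨(a (l 3) (l 3)), by decide +kernel⟩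

def k11_pp_101 : ∃ t, chk3 f_pp_101 t 14 1023 1 = true :=
  ⟨(b (l 3) (a (b (l 3) (c (a (c (l 17508784) (l 147270935239)) (c (l 149955427479) (a (c (l 17176184) (l 14)) (l 14)))) (a (c (a (c (l 17111968) (l 14)) (l 14)) (l 14)) (a (l 14) (c (l 14) (a (l 14) (a (l 14) (a (l 14) (c (l 14) (l 138680407031)))))))))) (b (l 3) (b (l 3) (b (a (l 3) (l 3)) (b (a (l 3) (l 3)) (a (a (b (l 3) (c (c (c (l 17262776) (l 14)) (l 14)) (c (l 14) (a (c (l 14) (a (l 139217279111) (l 139217279815))) (a (c (l 14) (l 139217280567)) (a (l 138143541607) (l 138143542007))))))) (c (l 14) (c (a (l 14) (a (l 14) (a (l 14) (c (l 14) (l 138143547127))))) (a (a (a (l 138143542423) (l 138143542823)) (a (l 138143543063) (l 138143543479))) (c (a (l 139217286023) (l 139217286775)) (a (l 139754154727) (l 139754155607))))))) (a (c (l 14) (c (a (c (l 14) (a (c (l 14) (l 139217288647)) (a (l 138143548343) (l 138143548775)))) (c (a (l 14) (a (l 14) (l 138143552343))) (a (a (l 138143549191)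 (l 138680420535)) (c (l 139754163063) (l 139754162135))))) (a (c (a (l 139217287623) (l 139754159415)) (a (l 139754156519) (l 139754157447))) (a (l 139217289431) (l 139754161287))))) (c (c (l 14) (a (l 14) (a (l 14) (a (l 14) (c (l 14) (l 138143557351)))))) (c (a (a (a (c (l 138143552775) (l 138680421863)) (c (l 138143553191) (l 138680422151))) (a (l 138143553415) (l 138143553863))) (a (a (l 138143554327) (l 138143554791)) (a (l 138143555255) (l 138680426647)))) (a (a (l 139754162183) (l 140291034087)) (a (l 140291035015) (l 140291036055))))))))))))), by decide +kernel⟩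

def k12_pp_101 : ∃ t, chk3 f_pp_101 t 15 1023 1 = true :=
  ⟨(a (a (a (a (a (a (a (a (b (l 3) (c (c (l 14) (c (l 14) (l 138143557879))) (c (l 138680426391) (l 933249372935)))) (l 6)) (l 6)) (l 6)) (l 6)) (l 6)) (l 6)) (l 6)) (l 6)), by decide +kernel⟩

theorem s13_pp_101 : ∃ t, chk3 f_pp_101 t 7 1023 1 = true := ex3_a k11_pp_101 k12_pp_101

theorem s14_pp_101 : ∃ t, chk3 f_pp_101 t 7 511 1 = true := ex3_b k10_pp_101 s13_pp_101

theorem s15_pp_101 : ∃ t, chk3 f_pp_101 t 3 511 1 = true := ex3_a k9_pp_101 s14_pp_101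

theorem s16_pp_101 : ∃ t, chk3 f_pp_101 t 3 255 1 = true := ex3_b k8_pp_101 s15_pp_101

theorem s17_pp_101 : ∃ t, chk3 f_pp_101 t 3 127 1 = true := ex3_b k7_pp_101 s16_pp_101

theorem s18_pp_101 : ∃ t, chk3 f_pp_101 t 1 127 1 = true := ex3_a k6_pp_101 s17_pp_101

theorem s19_pp_101 : ∃ t, chk3 f_pp_101 t 1 63 1 = true := ex3_b k5_pp_101 s18_pp_101

theorem s20_pp_101 : ∃ t, chk3 f_pp_101 t 1 31 1 = true := ex3_b k4_pp_101 s19_pp_101

theorem s21_pp_101 : ∃ t, chk3 f_pp_101 t 1 15 1 = true := ex3_b k3_pp_101 s20_pp_101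

theorem s22_pp_101 : ∃ t, chk3 f_pp_101 t 1 7 1 = true := ex3_b k2_pp_101 s21_pp_101

theorem s23_pp_101 : ∃ t, chk3 f_pp_101 t 1 3 1 = true := ex3_b k1_pp_101 s22_pp_101

theorem s24_pp_101 : ∃ t, chk3 f_pp_101 t 1 1 1 = true := ex3_b k0_pp_101 s23_pp_101

theorem c_pp_101 : CertF 536870912 536870912 536870912 536870912 67108864 67108864 false true true .npn 1 0 1
    ndF2q1 ndF0q1 pcF0 cut_pp_101 Ext.none :=
  certFK0 (fam := false) (s1 := true) (s2 := true) (a := 1) (b := 0) (c := 1) (cn := .npn) (n1 := ndF2q1) (n2 := ndF0q1) (pc := pcF0) (cut := cut_pp_101) (xt := Ext.none) (P1 := 536870912) (W1 := 536870912) (P2 := 536870912) (W2 := 536870912) (P3 := 67108864) (W3 := 67108864)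
    rfl rfl rfl s24_pp_101

noncomputable def cut_pp_102 : Cut := Cut.of [[⟨0, 1, 0, 67108864⟩, ⟨1, 0, 0, 67108864⟩, ⟨2, 1, 0, 67108864⟩], [⟨0, 1, 2, 33554432⟩, ⟨1, 0, 1, 33554432⟩, ⟨2, 1, 0, 16777216⟩, ⟨0, 0, 0, 1023410176⟩, ⟨0, 1, 0, 150994944⟩, ⟨1, 0, 0, 150994944⟩, ⟨1, 1, 0, 1023410176⟩]]

noncomputable def f_pp_102 : ℕ → ℕ → ℕ → ℕ → Bool := onCell 536870912 536870912 0 536870912 67108864 67108864
    (rowFK 0 false true true .npp 1 0 2 (qsf 536870912 536870912 0 536870912 0) ndF2q1 ndF0q2 pcF0 cut_pp_102 Ext.none)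

def k0_pp_102 : ∃ t, chk3 f_pp_102 t 2 1 1 = true :=
  ⟨(b (a (b (l 2) (l 211093275095)) (a (b (a (b (l 17197496) (l 17075048)) (b (l 17102096) (l 17214640))) (l 17094240)) (b (b (l 17079848) (l 17399104)) (b (l 17311816) (l 17251464))))) (b (a (b (l 17973448) (l 18047664)) (b (a (l 17583960) (l 17314864)) (l 17593928))) (a (b (l 18162808) (a (l 18334816) (l 18273952))) (b (l 17975008) (a (b (l 18046824) (l 18156224)) (a (l 17897928) (l 17820464))))))), by decide +kernel⟩

def k1_pp_102 : ∃ t, chk3 f_pp_102 t 3 2 1 = true :=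
  ⟨(a (a (b (l 17762640) (l 18063656)) (b (l 18497680) (l 18608728))) (a (b (l 18990376) (l 18828504)) (a (b (l 19192536) (l 19008128)) (b (l 19294920) (l 19073648))))), by decide +kernel⟩

def k2_pp_102 : ∃ t, chk3 f_pp_102 t 6 3 1 = true :=
  ⟨(b (a (b (l 17760040) (l 17754064)) (b (l 18359008) (a (l 18066360) (l 18260760)))) (b (a (l 17736512) (a (l 17922728) (l 17984096))) (a (b (l 17694904) (a (l 17630544) (b (l 17691304) (l 17649504)))) (b (a (l 17778432) (l 17708376)) (a (b (l 17692376) (a (l 17648272) (a (l 17616928) (l 17455240)))) (b (a (l 17598816) (l 17482032)) (a (c (l 17686504) (b (l 17332672) (b (l 17303024) (c (l 17373520) (a (l 17252280) (b (l 17135880) (l 17064144))))))) (b (l 17367088) (c (l 17471904) (b (l 17109432) (a (c (l 17236976) (a (l 16955920) (l 14))) (c (l 17093984) (l 14))))))))))))), by decide +kernel⟩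

def k3_pp_102 : ∃ t, chk3 f_pp_102 t 7 6 1 = true :=
  ⟨(a (b (l 18610496) (a (l 18268704) (b (l 18321056) (l 18063200)))) (a (b (l 18539112) (b (l 18185408) (l 17804312))) (b (l 18483464) (a (l 17691568) (l 17545344))))), by decide +kernel⟩

def k4_pp_102 : ∃ t, chk3 f_pp_102 t 14 14 1 = true :=
  ⟨(a (b (l 17981752) (l 17746168)) (b (l 17756440) (l 17396560))), by decide +kernel⟩

def k5_pp_102 : ∃ t, chk3 f_pp_102 t 14 30 1 = true :=
  ⟨(a (l 17317720) (b (l 17080000) (l 16846712))), by decide +kernel⟩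

def k6_pp_102 : ∃ t, chk3 f_pp_102 t 28 31 1 = true :=
  ⟨(a (b (l 17331176) (b (l 17183488) (c (b (l 17442256) (c (l 17532672) (a (l 17315240) (l 17185304)))) (a (b (l 16964120) (a (c (l 17026200) (l 14)) (l 14))) (l 14))))) (b (l 17122176) (b (l 17001448) (b (l 16841192) (a (c (c (l 17415656) (a (l 17088648) (l 14))) (l 14)) (b (l 16809192) (c (c (l 17306824) (l 14)) (b (l 16739912) (c (l 14) (b (l 16742472) (a (l 14) (a (l 14) (a (l 14) (c (l 14) (l 16748072))))))))))))))), by decide +kernel⟩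

def k7_pp_102 : ∃ t, chk3 f_pp_102 t 29 62 1 = true :=
  ⟨(a (l 16822216) (l 16712904)), by decide +kernel⟩

def k8_pp_102 : ∃ t, chk3 f_pp_102 t 58 63 1 = true :=
  ⟨(b (l 16708496) (b (l 16739416) (b (l 16754776) (b (a (l 16743328) (l 16744504)) (a (c (c (c (l 17269472) (l 14)) (l 14)) (c (l 14) (b (l 16743768) (b (l 16750872) (c (a (l 14) (a (l 14) (a (l 14) (l 16748728)))) (a (a (a (l 16746248) (l 16746432)) (a (l 16746616) (l 16746808))) (a (a (l 16747000) (l 16747192)) (l 16748776)))))))) (b (l 16753544) (b (a (l 16753128) (l 16753784)) (c (l 14) (b (a (l 16749272) (l 16750040)) (c (a (l 14) (a (l 14) (a (l 14) (c (l 14) (l 16751672))))) (a (a (a (l 16749976) (l 16750176)) (a (l 16750376) (l 16749272))) (a (a (l 16749480) (l 16749696)) (a (l 16749912) (l 16750128)))))))))))))), by decide +kernel⟩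

def k9_pp_102 : ∃ t, chk3 f_pp_102 t 59 63 1 = true :=
  ⟨(b (l 16731912) (b (l 16751616) (b (a (l 16738312) (l 16739840)) (a (c (l 14) (c (b (l 16744960) (b (l 16748664) (a (c (l 14) (b (l 16750416) (a (a (l 16751560) (l 16751768)) (a (l 16751976) (l 16752184))))) (a (c (l 14) (a (l 16753096) (l 16753312))) (a (c (l 14) (l 16754848)) (c (a (l 14) (l 16754728)) (l 16755072))))))) (b (l 16743224) (b (l 16746848) (a (a (a (l 16752064) (l 16752288)) (a (l 16752520) (l 16752752))) (a (a (l 16752984) (l 16753224)) (a (l 16753464) (l 16753704)))))))) (a (c (l 14) (b (l 16746256) (b (l 16749888) (b (l 16751696) (b (l 16752608) (a (c (a (c (l 16754488) (l 16753584)) (c (l 16754704) (l 16753816))) (l 16753616)) (b (l 16753520) (c (a (l 16755624) (l 16756176)) (l 16752952))))))))) (b (l 16748728) (b (l 16752416) (b (l 16759504) (c (c (l 14) (c (l 14) (a (l 14) (a (l 14) (a (l 14) (l 16756632)))))) (b (l 16758792) (a (c (a (l 16756256) (l 16756488)) (l 16754624))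 (c (a (l 16756720) (l 16756960)) (l 16753832))))))))))))), by decide +kernel⟩

def k10_pp_102 : ∃ t, chk3 f_pp_102 t 15 7 1 = true :=
  ⟨(a (a (b (b (l 17427016) (l 16874264)) (b (l 16797024) (b (l 16778800) (a (b (l 16718112) (b (l 16747704) (b (l 16741424) (b (l 16759232) (a (a (a (b (l 16753328) (a (c (c (l 14) (c (l 14) (b (l 16755512) (l 16756744)))) (c (l 16757560) (l 16753360))) (l 6))) (l 6)) (l 6)) (l 6)))))) (b (l 16723360) (l 6)))))) (b (b (l 17096680) (a (l 16872336) (l 16906872))) (b (a (l 16820320) (l 16851712)) (b (b (l 16834600) (l 6)) (l 6))))) (b (b (a (l 17140376) (l 17340472)) (a (b (l 16997824) (l 16912224)) (a (l 17001928) (l 17037472)))) (b (a (b (l 16850128) (l 6)) (l 6)) (l 6)))), by decide +kernel⟩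

theorem s11_pp_102 : ∃ t, chk3 f_pp_102 t 29 63 1 = true := ex3_a k8_pp_102 k9_pp_102

theorem s12_pp_102 : ∃ t, chk3 f_pp_102 t 29 31 1 = true := ex3_b k7_pp_102 s11_pp_102

theorem s13_pp_102 : ∃ t, chk3 f_pp_102 t 14 31 1 = true := ex3_a k6_pp_102 s12_pp_102

theorem s14_pp_102 : ∃ t, chk3 f_pp_102 t 14 15 1 = true := ex3_b k5_pp_102 s13_pp_102

theorem s15_pp_102 : ∃ t, chk3 f_pp_102 t 14 7 1 = true := ex3_b k4_pp_102 s14_pp_102

theorem s16_pp_102 : ∃ t, chk3 f_pp_102 t 7 7 1 = true := ex3_a s15_pp_102 k10_pp_102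

theorem s17_pp_102 : ∃ t, chk3 f_pp_102 t 7 3 1 = true := ex3_b k3_pp_102 s16_pp_102

theorem s18_pp_102 : ∃ t, chk3 f_pp_102 t 3 3 1 = true := ex3_a k2_pp_102 s17_pp_102

theorem s19_pp_102 : ∃ t, chk3 f_pp_102 t 3 1 1 = true := ex3_b k1_pp_102 s18_pp_102

theorem s20_pp_102 : ∃ t, chk3 f_pp_102 t 1 1 1 = true := ex3_a k0_pp_102 s19_pp_102

theorem c_pp_102 : CertF 536870912 536870912 0 536870912 67108864 67108864 false true true .npp 1 0 2
    ndF2q1 ndF0q2 pcF0 cut_pp_102 Ext.none :=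
  certFK0 (fam := false) (s1 := true) (s2 := true) (a := 1) (b := 0) (c := 2) (cn := .npp) (n1 := ndF2q1) (n2 := ndF0q2) (pc := pcF0) (cut := cut_pp_102) (xt := Ext.none) (P1 := 536870912) (W1 := 536870912) (P2 := 0) (W2 := 536870912) (P3 := 67108864) (W3 := 67108864)
    rfl rfl rfl s20_pp_102

noncomputable def f_pp_112 : ℕ → ℕ → ℕ → ℕ → Bool := onCell 536870912 536870912 0 536870912 67108864 67108864
    (rowFK 2 false true true .dn 1 1 2 (qsf 536870912 536870912 0 536870912 1) ndF2q1 ndF0q2 pcF1 Cut.none Ext.none)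

def k0_pp_112 : ∃ t, chk3 f_pp_112 t 1 1 1 = true :=
  ⟨(a (b (a (b (b (a (a (l 18291024) (l 18534560)) (a (b (l 18678752) (l 18695600)) (l 18678072))) (l 18630816)) (l 18522616)) (b (l 18436256) (l 18423560))) (a (b (l 18458360) (a (b (l 18413192) (l 18386312)) (l 524022459623))) (b (l 1) (l 1)))) (l 1)), by decide +kernel⟩

theorem c_pp_112 : CertF 536870912 536870912 0 536870912 67108864 67108864 false true true .dn 1 1 2
    ndF2q1 ndF0q2 pcF1 Cut.none Ext.none :=
  certFK2 (fam := false) (s1 := true) (s2 := true) (a := 1) (b := 1) (c := 2) (cn := .dn) (n1 := ndF2q1) (n2 := ndF0q2) (pc := pcF1) (cut := Cut.none) (xt := Ext.none) (P1 := 536870912) (W1 := 536870912) (P2 := 0) (W2 := 536870912) (P3 := 67108864) (W3 := 67108864)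
    rfl rfl rfl (fun _ => rfl) k0_pp_112

noncomputable def f_pp_202_a : ℕ → ℕ → ℕ → ℕ → Bool := onCell 0 536870912 0 536870912 67108864 67108864
    (rowFK 0 false true true .pp 2 0 2 (qsf 0 536870912 0 536870912 0) ndF2q2a ndF0q2 pcF0 Cut.none Ext.none)

def k0_pp_202_a : ∃ t, chk3 f_pp_202_a t 1 1 1 = true :=
  ⟨(l 3), by decide +kernel⟩

theorem c_pp_202_a : CertF 0 536870912 0 536870912 67108864 67108864 false true true .pp 2 0 2
    ndF2q2a ndF0q2 pcF0 Cut.none Ext.none :=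
  certFK0 (fam := false) (s1 := true) (s2 := true) (a := 2) (b := 0) (c := 2) (cn := .pp) (n1 := ndF2q2a) (n2 := ndF0q2) (pc := pcF0) (cut := Cut.none) (xt := Ext.none) (P1 := 0) (W1 := 536870912) (P2 := 0) (W2 := 536870912) (P3 := 67108864) (W3 := 67108864)
    rfl rfl rfl k0_pp_202_a

noncomputable def f_pp_202_b : ℕ → ℕ → ℕ → ℕ → Bool := onCell 1239849684 370763052 0 536870912 67108864 67108864
    (rowFK 0 false true true .pp 2 0 2 (qsf 1239849684 370763052 0 536870912 0) ndF2q2b ndF0q2 pcF0 Cut.none Ext.none)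

def k0_pp_202_b : ∃ t, chk3 f_pp_202_b t 1 1 1 = true :=
  ⟨(l 3), by decide +kernel⟩

theorem c_pp_202_b : CertF 1239849684 370763052 0 536870912 67108864 67108864 false true true .pp 2 0 2
    ndF2q2b ndF0q2 pcF0 Cut.none Ext.none :=
  certFK0 (fam := false) (s1 := true) (s2 := true) (a := 2) (b := 0) (c := 2) (cn := .pp) (n1 := ndF2q2b) (n2 := ndF0q2) (pc := pcF0) (cut := Cut.none) (xt := Ext.none) (P1 := 1239849684) (W1 := 370763052) (P2 := 0) (W2 := 536870912) (P3 := 67108864) (W3 := 67108864)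
    rfl rfl rfl k0_pp_202_b

noncomputable def f_pm_001 : ℕ → ℕ → ℕ → ℕ → Bool := onCell 0 536870912 0 536870912 67108864 67108864
    (rowFK 1 false true false .up 0 0 1 (qsf 0 536870912 536870912 536870912 0) ndF2q0 ndF0q1 pcF0 Cut.none Ext.none)

def k0_pm_001 : ∃ t, chk3 f_pm_001 t 1 1 1 = true :=
  ⟨(a (l 4) (l 4)), by decide +kernel⟩

theorem c_pm_001 : CertF 0 536870912 536870912 536870912 67108864 67108864 false true false .up 0 0 1
    ndF2q0 ndF0q1 pcF0 Cut.none Ext.none :=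
  certFK1 (fam := false) (s1 := true) (s2 := false) (a := 0) (b := 0) (c := 1) (cn := .up) (n1 := ndF2q0) (n2 := ndF0q1) (pc := pcF0) (cut := Cut.none) (xt := Ext.none) (P1 := 0) (W1 := 536870912) (P2 := 536870912) (W2 := 536870912) (P3 := 67108864) (W3 := 67108864)
    rfl rfl rfl (fun _ => rfl) k0_pm_001

noncomputable def cut_pm_011 : Cut := Cut.of [[⟨0, 0, 0, 67108864⟩, ⟨1, 1, 0, 67108864⟩, ⟨2, 1, 0, 67108864⟩]]

noncomputable def f_pm_011 : ℕ → ℕ → ℕ → ℕ → Bool := onCell 0 536870912 536870912 536870912 67108864 67108864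
    (rowFK 0 false true false .pnn 0 1 1 (qsf 0 536870912 536870912 536870912 1) ndF2q0 ndF0q1 pcF1 cut_pm_011 Ext.none)

def k0_pm_011 : ∃ t, chk3 f_pm_011 t 1 1 1 = true :=
  ⟨(a (b (l 4) (a (b (l 4) (a (b (l 4) (a (b (l 4) (a (l 6) (l 4))) (l 4))) (l 4))) (l 4))) (l 4)), by decide +kernel⟩

theorem c_pm_011 : CertF 0 536870912 536870912 536870912 67108864 67108864 false true false .pnn 0 1 1
    ndF2q0 ndF0q1 pcF1 cut_pm_011 Ext.none :=
  certFK0 (fam := false) (s1 := true) (s2 := false) (a := 0) (b := 1) (c := 1) (cn := .pnn) (n1 := ndF2q0) (n2 := ndF0q1) (pc := pcF1) (cut := cut_pm_011) (xt := Ext.none) (P1 := 0) (W1 := 536870912) (P2 := 536870912) (W2 := 536870912) (P3 := 67108864) (W3 := 67108864)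
    rfl rfl rfl k0_pm_011

noncomputable def cut_pm_012 : Cut := Cut.of [[⟨0, 0, 0, 67108864⟩, ⟨1, 1, 0, 67108864⟩, ⟨2, 1, 0, 67108864⟩]]

noncomputable def f_pm_012 : ℕ → ℕ → ℕ → ℕ → Bool := onCell 536870912 536870912 0 536870912 67108864 67108864
    (rowFK 2 false true false .pnp 0 1 2 (qsf 0 536870912 0 536870912 1) ndF2q0 ndF0q2 pcF1 cut_pm_012 Ext.none)

def k0_pm_012 : ∃ t, chk3 f_pm_012 t 1 1 1 = true :=
  ⟨(a (b (a (b (l 2) (l 19015632)) (a (b (a (b (l 17772824) (l 18626312)) (l 17996464)) (b (b (l 18948128) (l 19072216)) (l 19077776))) (a (b (l 17965984) (l 18796928)) (b (l 17948424) (l 18702816))))) (b (l 19117952) (l 4))) (b (a (a (a (b (l 18038184) (b (b (l 18168112) (l 18738888)) (l 18749856))) (b (l 17923096) (l 18620552))) (b (l 18141576) (l 18856136))) (a (b (l 18249912) (l 18622000)) (a (l 18410752) (b (l 18341992) (l 18410984))))) (a (b (a (l 18900648) (l 70032417255)) (l 4)) (a (a (b (l 18557768) (l 4)) (b (l 18436048) (l 4))) (a (b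 (a (l 18284472) (b (l 18334888) (l 17870952))) (b (a (l 17278400) (l 17191360)) (l 4))) (b (b (l 18055008) (l 17286776)) (a (b (l 17096408) (l 4)) (b (b (l 17042688) (l 16973096)) (l 6))))))))), by decide +kernel⟩

theorem c_pm_012 : CertF 0 536870912 0 536870912 67108864 67108864 false true false .pnp 0 1 2
    ndF2q0 ndF0q2 pcF1 cut_pm_012 Ext.none :=
  certFK2 (fam := false) (s1 := true) (s2 := false) (a := 0) (b := 1) (c := 2) (cn := .pnp) (n1 := ndF2q0) (n2 := ndF0q2) (pc := pcF1) (cut := cut_pm_012) (xt := Ext.none) (P1 := 0) (W1 := 536870912) (P2 := 0) (W2 := 536870912) (P3 := 67108864) (W3 := 67108864)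
    rfl rfl rfl (fun _ => rfl) k0_pm_012

noncomputable def cut_pm_022 : Cut := Cut.of [[⟨0, 0, 0, 67108864⟩, ⟨1, 1, 0, 67108864⟩, ⟨2, 1, 0, 67108864⟩]]

noncomputable def f_pm_022 : ℕ → ℕ → ℕ → ℕ → Bool := onCell 0 536870912 0 536870912 67108864 67108864
    (rowFK 0 false true false .pp 0 2 2 (qsf 0 536870912 0 536870912 2) ndF2q0 ndF0q2 pcF2 cut_pm_022 Ext.none)

def k0_pm_022 : ∃ t, chk3 f_pm_022 t 1 1 1 = true :=
  ⟨(a (b (a (a (a (b (a (b (l 18109600) (l 17922488)) (l 18002024)) (a (b (c (l 18337240) (l 17273376)) (c (l 18133976) (b (l 17270256) (l 17061088)))) (l 17721592))) (b (l 17943888) (l 17704872))) (b (l 18063168) (l 17971304))) (b (l 18818008) (a (l 18667984) (l 1)))) (a (b (b (a (a (a (b (c (l 17853840) (l 16776248)) (b (l 16901272) (l 16830160))) (l 17092168)) (l 17104944)) (l 17561576)) (a (a (a (a (b (b (l 16739896) (l 16741048)) (b (l 16721680) (l 16723752))) (l 16696552)) (l 16714784)) (l 16871960)) (a (l 17064216) (l 17300960))))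 (a (b (b (a (a (a (a (b (l 16721632) (l 16745688)) (l 16690576)) (l 16661904)) (l 16700392)) (l 16887816)) (a (l 6) (a (l 6) (l 16979800)))) (a (l 6) (a (l 6) (l 1)))) (b (a (b (l 17106336) (l 1)) (l 1)) (l 1)))) (b (l 1) (l 1)))) (l 1)), by decide +kernel⟩

theorem c_pm_022 : CertF 0 536870912 0 536870912 67108864 67108864 false true false .pp 0 2 2
    ndF2q0 ndF0q2 pcF2 cut_pm_022 Ext.none :=
  certFK0 (fam := false) (s1 := true) (s2 := false) (a := 0) (b := 2) (c := 2) (cn := .pp) (n1 := ndF2q0) (n2 := ndF0q2) (pc := pcF2) (cut := cut_pm_022) (xt := Ext.none) (P1 := 0) (W1 := 536870912) (P2 := 0) (W2 := 536870912) (P3 := 67108864) (W3 := 67108864)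
    rfl rfl rfl k0_pm_022

noncomputable def f_pm_101 : ℕ → ℕ → ℕ → ℕ → Bool := onCell 536870912 536870912 536870912 536870912 67108864 67108864
    (rowFK 0 false true false .npn 1 0 1 (qsf 536870912 536870912 536870912 536870912 0) ndF2q1 ndF0q1 pcF0 Cut.none Ext.none)

def k0_pm_101 : ∃ t, chk3 f_pm_101 t 1 1 1 = true :=
  ⟨(l 4), by decide +kernel⟩

theorem c_pm_101 : CertF 536870912 536870912 536870912 536870912 67108864 67108864 false true false .npn 1 0 1
    ndF2q1 ndF0q1 pcF0 Cut.none Ext.none :=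
  certFK0 (fam := false) (s1 := true) (s2 := false) (a := 1) (b := 0) (c := 1) (cn := .npn) (n1 := ndF2q1) (n2 := ndF0q1) (pc := pcF0) (cut := Cut.none) (xt := Ext.none) (P1 := 536870912) (W1 := 536870912) (P2 := 536870912) (W2 := 536870912) (P3 := 67108864) (W3 := 67108864)
    rfl rfl rfl k0_pm_101

noncomputable def f_pm_102 : ℕ → ℕ → ℕ → ℕ → Bool := onCell 0 536870912 0 536870912 67108864 67108864
    (rowFK 2 false true false .npp 1 0 2 (qsf 536870912 536870912 0 536870912 0) ndF2q1 ndF0q2 pcF0 Cut.none Ext.none)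

def k0_pm_102 : ∃ t, chk3 f_pm_102 t 1 1 1 = true :=
  ⟨(a (b (a (l 19891760) (a (b (l 19399472) (a (l 19465480) (b (l 19859536) (l 19486848)))) (b (l 19283136) (l 19330824)))) (l 4)) (b (b (a (a (l 18798040) (l 18102608)) (b (a (l 17140664) (l 17119288)) (l 16948160))) (a (a (l 18828576) (l 18186792)) (l 17560872))) (a (l 4) (l 4)))), by decide +kernel⟩

theorem c_pm_102 : CertF 536870912 536870912 0 536870912 67108864 67108864 false true false .npp 1 0 2
    ndF2q1 ndF0q2 pcF0 Cut.none Ext.none :=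
  certFK2 (fam := false) (s1 := true) (s2 := false) (a := 1) (b := 0) (c := 2) (cn := .npp) (n1 := ndF2q1) (n2 := ndF0q2) (pc := pcF0) (cut := Cut.none) (xt := Ext.none) (P1 := 536870912) (W1 := 536870912) (P2 := 0) (W2 := 536870912) (P3 := 67108864) (W3 := 67108864)
    rfl rfl rfl (fun _ => rfl) k0_pm_102

noncomputable def f_pm_112 : ℕ → ℕ → ℕ → ℕ → Bool := onCell 536870912 536870912 0 536870912 67108864 67108864
    (rowFK 0 false true false .dn 1 1 2 (qsf 536870912 536870912 0 536870912 1) ndF2q1 ndF0q2 pcF1 Cut.none Ext.none)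

def k0_pm_112 : ∃ t, chk3 f_pm_112 t 1 1 1 = true :=
  ⟨(a (b (a (a (b (b (a (b (l 18625016) (l 18435384)) (b (l 18601368) (l 18079248))) (b (l 17540632) (l 17560456))) (b (b (l 17747432) (l 17758416)) (l 17744296))) (b (b (a (l 18001312) (l 17469968)) (a (l 17477984) (l 17546552))) (l 17688200))) (b (a (b (l 17139384) (l 17639992)) (l 1)) (l 17791336))) (a (l 17607328) (l 4))) (l 1)), by decide +kernel⟩

theorem c_pm_112 : CertF 536870912 536870912 0 536870912 67108864 67108864 false true false .dn 1 1 2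
    ndF2q1 ndF0q2 pcF1 Cut.none Ext.none :=
  certFK0 (fam := false) (s1 := true) (s2 := false) (a := 1) (b := 1) (c := 2) (cn := .dn) (n1 := ndF2q1) (n2 := ndF0q2) (pc := pcF1) (cut := Cut.none) (xt := Ext.none) (P1 := 536870912) (W1 := 536870912) (P2 := 0) (W2 := 536870912) (P3 := 67108864) (W3 := 67108864)
    rfl rfl rfl k0_pm_112

noncomputable def cut_pm_202_a : Cut := Cut.of [[⟨0, 1, 0, 67108864⟩, ⟨1, 0, 0, 67108864⟩, ⟨2, 1, 0, 67108864⟩]]

noncomputable def f_pm_202_a : ℕ → ℕ → ℕ → ℕ → Bool := onCell 0 536870912 0 536870912 67108864 67108864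
    (rowFK 0 false true false .pp 2 0 2 (qsf 0 536870912 0 536870912 0) ndF2q2a ndF0q2 pcF0 cut_pm_202_a Ext.none)

def k0_pm_202_a : ∃ t, chk3 f_pm_202_a t 1 1 1 = true :=
  ⟨(b (l 3) (b (l 3) (b (l 3) (a (l 1) (a (l 1) (a (b (l 3) (l 1)) (l 6))))))), by decide +kernel⟩

theorem c_pm_202_a : CertF 0 536870912 0 536870912 67108864 67108864 false true false .pp 2 0 2
    ndF2q2a ndF0q2 pcF0 cut_pm_202_a Ext.none :=
  certFK0 (fam := false) (s1 := true) (s2 := false) (a := 2) (b := 0) (c := 2) (cn := .pp) (n1 := ndF2q2a) (n2 := ndF0q2) (pc := pcF0) (cut := cut_pm_202_a) (xt := Ext.none) (P1 := 0) (W1 := 536870912) (P2 := 0) (W2 := 536870912) (P3 := 67108864) (W3 := 67108864)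
    rfl rfl rfl k0_pm_202_a

noncomputable def cut_pm_202_b : Cut := Cut.of [[⟨0, 1, 0, 67108864⟩, ⟨1, 0, 0, 67108864⟩, ⟨2, 1, 0, 67108864⟩]]

noncomputable def f_pm_202_b : ℕ → ℕ → ℕ → ℕ → Bool := onCell 1239849684 370763052 0 536870912 67108864 67108864
    (rowFK 0 false true false .pp 2 0 2 (qsf 1239849684 370763052 0 536870912 0) ndF2q2b ndF0q2 pcF0 cut_pm_202_b Ext.none)

def k0_pm_202_b : ∃ t, chk3 f_pm_202_b t 1 1 1 = true :=
  ⟨(b (l 3) (l 1)), by decide +kernel⟩

theorem c_pm_202_b : CertF 1239849684 370763052 0 536870912 67108864 67108864 false true false .pp 2 0 2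
    ndF2q2b ndF0q2 pcF0 cut_pm_202_b Ext.none :=
  certFK0 (fam := false) (s1 := true) (s2 := false) (a := 2) (b := 0) (c := 2) (cn := .pp) (n1 := ndF2q2b) (n2 := ndF0q2) (pc := pcF0) (cut := cut_pm_202_b) (xt := Ext.none) (P1 := 1239849684) (W1 := 370763052) (P2 := 0) (W2 := 536870912) (P3 := 67108864) (W3 := 67108864)
    rfl rfl rfl k0_pm_202_b

noncomputable def f_mm_001 : ℕ → ℕ → ℕ → ℕ → Bool := onCell 0 536870912 536870912 536870912 67108864 67108864
    (rowFK 0 false false false .up 0 0 1 (qsf 0 536870912 536870912 536870912 0) ndF2q0 ndF0q1 pcF0 Cut.none Ext.none)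

def k0_mm_001 : ∃ t, chk3 f_mm_001 t 1 1 1 = true :=
  ⟨(l 5), by decide +kernel⟩

theorem c_mm_001 : CertF 0 536870912 536870912 536870912 67108864 67108864 false false false .up 0 0 1
    ndF2q0 ndF0q1 pcF0 Cut.none Ext.none :=
  certFK0 (fam := false) (s1 := false) (s2 := false) (a := 0) (b := 0) (c := 1) (cn := .up) (n1 := ndF2q0) (n2 := ndF0q1) (pc := pcF0) (cut := Cut.none) (xt := Ext.none) (P1 := 0) (W1 := 536870912) (P2 := 536870912) (W2 := 536870912) (P3 := 67108864) (W3 := 67108864)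
    rfl rfl rfl k0_mm_001

noncomputable def f_mm_011 : ℕ → ℕ → ℕ → ℕ → Bool := onCell 0 536870912 536870912 536870912 67108864 67108864
    (rowFK 0 false false false .pnn 0 1 1 (qsf 0 536870912 536870912 536870912 1) ndF2q0 ndF0q1 pcF1 Cut.none Ext.none)

def k0_mm_011 : ∃ t, chk3 f_mm_011 t 1 1 1 = true :=
  ⟨(l 5), by decide +kernel⟩

theorem c_mm_011 : CertF 0 536870912 536870912 536870912 67108864 67108864 false false false .pnn 0 1 1
    ndF2q0 ndF0q1 pcF1 Cut.none Ext.none :=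
  certFK0 (fam := false) (s1 := false) (s2 := false) (a := 0) (b := 1) (c := 1) (cn := .pnn) (n1 := ndF2q0) (n2 := ndF0q1) (pc := pcF1) (cut := Cut.none) (xt := Ext.none) (P1 := 0) (W1 := 536870912) (P2 := 536870912) (W2 := 536870912) (P3 := 67108864) (W3 := 67108864)
    rfl rfl rfl k0_mm_011

noncomputable def f_mm_012 : ℕ → ℕ → ℕ → ℕ → Bool := onCell 0 536870912 0 536870912 67108864 67108864
    (rowFK 0 false false false .pnp 0 1 2 (qsf 0 536870912 0 536870912 1) ndF2q0 ndF0q2 pcF1 Cut.none Ext.none)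

def k0_mm_012 : ∃ t, chk3 f_mm_012 t 1 1 1 = true :=
  ⟨(l 5), by decide +kernel⟩

theorem c_mm_012 : CertF 0 536870912 0 536870912 67108864 67108864 false false false .pnp 0 1 2
    ndF2q0 ndF0q2 pcF1 Cut.none Ext.none :=
  certFK0 (fam := false) (s1 := false) (s2 := false) (a := 0) (b := 1) (c := 2) (cn := .pnp) (n1 := ndF2q0) (n2 := ndF0q2) (pc := pcF1) (cut := Cut.none) (xt := Ext.none) (P1 := 0) (W1 := 536870912) (P2 := 0) (W2 := 536870912) (P3 := 67108864) (W3 := 67108864)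
    rfl rfl rfl k0_mm_012

noncomputable def f_mm_022 : ℕ → ℕ → ℕ → ℕ → Bool := onCell 0 536870912 0 536870912 67108864 67108864
    (rowFK 0 false false false .pp 0 2 2 (qsf 0 536870912 0 536870912 2) ndF2q0 ndF0q2 pcF2 Cut.none Ext.none)

def k0_mm_022 : ∃ t, chk3 f_mm_022 t 1 1 1 = true :=
  ⟨(l 5), by decide +kernel⟩

theorem c_mm_022 : CertF 0 536870912 0 536870912 67108864 67108864 false false false .pp 0 2 2
    ndF2q0 ndF0q2 pcF2 Cut.none Ext.none :=
  certFK0 (fam := false) (s1 := false) (s2 := false) (a := 0) (b := 2) (c := 2) (cn := .pp) (n1 := ndF2q0) (n2 := ndF0q2) (pc := pcF2) (cut := Cut.none) (xt := Ext.none) (P1 := 0) (W1 := 536870912) (P2 := 0) (W2 := 536870912) (P3 := 67108864) (W3 := 67108864)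
    rfl rfl rfl k0_mm_022

noncomputable def f_mm_101 : ℕ → ℕ → ℕ → ℕ → Bool := onCell 536870912 536870912 0 536870912 67108864 67108864
    (rowFK 1 false false false .npn 1 0 1 (qsf 536870912 536870912 536870912 536870912 0) ndF2q1 ndF0q1 pcF0 Cut.none Ext.none)

def k0_mm_101 : ∃ t, chk3 f_mm_101 t 1 1 1 = true :=
  ⟨(a (l 5) (l 5)), by decide +kernel⟩

theorem c_mm_101 : CertF 536870912 536870912 536870912 536870912 67108864 67108864 false false false .npn 1 0 1
    ndF2q1 ndF0q1 pcF0 Cut.none Ext.none :=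
  certFK1 (fam := false) (s1 := false) (s2 := false) (a := 1) (b := 0) (c := 1) (cn := .npn) (n1 := ndF2q1) (n2 := ndF0q1) (pc := pcF0) (cut := Cut.none) (xt := Ext.none) (P1 := 536870912) (W1 := 536870912) (P2 := 536870912) (W2 := 536870912) (P3 := 67108864) (W3 := 67108864)
    rfl rfl rfl (fun _ => rfl) k0_mm_101

noncomputable def f_mm_102 : ℕ → ℕ → ℕ → ℕ → Bool := onCell 536870912 536870912 0 536870912 67108864 67108864
    (rowFK 0 false false false .npp 1 0 2 (qsf 536870912 536870912 0 536870912 0) ndF2q1 ndF0q2 pcF0 Cut.none Ext.none)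

def k0_mm_102 : ∃ t, chk3 f_mm_102 t 1 1 1 = true :=
  ⟨(l 5), by decide +kernel⟩

theorem c_mm_102 : CertF 536870912 536870912 0 536870912 67108864 67108864 false false false .npp 1 0 2
    ndF2q1 ndF0q2 pcF0 Cut.none Ext.none :=
  certFK0 (fam := false) (s1 := false) (s2 := false) (a := 1) (b := 0) (c := 2) (cn := .npp) (n1 := ndF2q1) (n2 := ndF0q2) (pc := pcF0) (cut := Cut.none) (xt := Ext.none) (P1 := 536870912) (W1 := 536870912) (P2 := 0) (W2 := 536870912) (P3 := 67108864) (W3 := 67108864)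
    rfl rfl rfl k0_mm_102

noncomputable def f_mm_112 : ℕ → ℕ → ℕ → ℕ → Bool := onCell 536870912 536870912 0 536870912 67108864 67108864
    (rowFK 0 false false false .dn 1 1 2 (qsf 536870912 536870912 0 536870912 1) ndF2q1 ndF0q2 pcF1 Cut.none Ext.none)

def k0_mm_112 : ∃ t, chk3 f_mm_112 t 1 1 1 = true :=
  ⟨(l 5), by decide +kernel⟩

theorem c_mm_112 : CertF 536870912 536870912 0 536870912 67108864 67108864 false false false .dn 1 1 2
    ndF2q1 ndF0q2 pcF1 Cut.none Ext.none :=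
  certFK0 (fam := false) (s1 := false) (s2 := false) (a := 1) (b := 1) (c := 2) (cn := .dn) (n1 := ndF2q1) (n2 := ndF0q2) (pc := pcF1) (cut := Cut.none) (xt := Ext.none) (P1 := 536870912) (W1 := 536870912) (P2 := 0) (W2 := 536870912) (P3 := 67108864) (W3 := 67108864)
    rfl rfl rfl k0_mm_112

noncomputable def f_mm_202_a : ℕ → ℕ → ℕ → ℕ → Bool := onCell 0 536870912 0 536870912 67108864 67108864
    (rowFK 0 false false false .pp 2 0 2 (qsf 0 536870912 0 536870912 0) ndF2q2a ndF0q2 pcF0 Cut.none Ext.none)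

def k0_mm_202_a : ∃ t, chk3 f_mm_202_a t 1 1 1 = true :=
  ⟨(l 3), by decide +kernel⟩

theorem c_mm_202_a : CertF 0 536870912 0 536870912 67108864 67108864 false false false .pp 2 0 2
    ndF2q2a ndF0q2 pcF0 Cut.none Ext.none :=
  certFK0 (fam := false) (s1 := false) (s2 := false) (a := 2) (b := 0) (c := 2) (cn := .pp) (n1 := ndF2q2a) (n2 := ndF0q2) (pc := pcF0) (cut := Cut.none) (xt := Ext.none) (P1 := 0) (W1 := 536870912) (P2 := 0) (W2 := 536870912) (P3 := 67108864) (W3 := 67108864)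
    rfl rfl rfl k0_mm_202_a

noncomputable def f_mm_202_b : ℕ → ℕ → ℕ → ℕ → Bool := onCell 1239849684 370763052 0 536870912 67108864 67108864
    (rowFK 0 false false false .pp 2 0 2 (qsf 1239849684 370763052 0 536870912 0) ndF2q2b ndF0q2 pcF0 Cut.none Ext.none)

def k0_mm_202_b : ∃ t, chk3 f_mm_202_b t 1 1 1 = true :=
  ⟨(l 3), by decide +kernel⟩

theorem c_mm_202_b : CertF 1239849684 370763052 0 536870912 67108864 67108864 false false false .pp 2 0 2
    ndF2q2b ndF0q2 pcF0 Cut.none Ext.none :=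
  certFK0 (fam := false) (s1 := false) (s2 := false) (a := 2) (b := 0) (c := 2) (cn := .pp) (n1 := ndF2q2b) (n2 := ndF0q2) (pc := pcF0) (cut := Cut.none) (xt := Ext.none) (P1 := 1239849684) (W1 := 370763052) (P2 := 0) (W2 := 536870912) (P3 := 67108864) (W3 := 67108864)
    rfl rfl rfl k0_mm_202_b

end Pool.Agent.Strip051.G.I1_16_1_8.Tab.C.FB20

namespace Pool.Agent.Strip051.G.I1_16_1_8.Tab.C.FB21

open Pool.Agent.Strip051.PB Pool.Agent.Strip051.PB.T
open Pool.Agent.Strip051.G.I1_16_1_8.Tab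

noncomputable def f_pp_001 : ℕ → ℕ → ℕ → ℕ → Bool := onCell 0 536870912 536870912 536870912 67108864 67108864
    (rowFK 0 false true true .up 0 0 1 (qsf 0 536870912 536870912 536870912 0) ndF2q0 ndF1q1 pcF0 Cut.none Ext.none)

def k0_pp_001 : ∃ t, chk3 f_pp_001 t 1 1 1 = true :=
  ⟨(l 3), by decide +kernel⟩

theorem c_pp_001 : CertF 0 536870912 536870912 536870912 67108864 67108864 false true true .up 0 0 1
    ndF2q0 ndF1q1 pcF0 Cut.none Ext.none :=
  certFK0 (fam := false) (s1 := true) (s2 := true) (a := 0) (b := 0) (c := 1) (cn := .up) (n1 := ndF2q0) (n2 := ndF1q1) (pc := pcF0) (cut := Cut.none) (xt := Ext.none) (P1 := 0) (W1 := 536870912) (P2 := 536870912) (W2 := 536870912) (P3 := 67108864) (W3 := 67108864)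
    rfl rfl rfl k0_pp_001

noncomputable def f_pp_011 : ℕ → ℕ → ℕ → ℕ → Bool := onCell 0 536870912 536870912 536870912 67108864 67108864
    (rowFK 0 false true true .pnn 0 1 1 (qsf 0 536870912 536870912 536870912 1) ndF2q0 ndF1q1 pcF1 Cut.none Ext.none)

def k0_pp_011 : ∃ t, chk3 f_pp_011 t 1 1 1 = true :=
  ⟨(l 3), by decide +kernel⟩

theorem c_pp_011 : CertF 0 536870912 536870912 536870912 67108864 67108864 false true true .pnn 0 1 1
    ndF2q0 ndF1q1 pcF1 Cut.none Ext.none :=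
  certFK0 (fam := false) (s1 := true) (s2 := true) (a := 0) (b := 1) (c := 1) (cn := .pnn) (n1 := ndF2q0) (n2 := ndF1q1) (pc := pcF1) (cut := Cut.none) (xt := Ext.none) (P1 := 0) (W1 := 536870912) (P2 := 536870912) (W2 := 536870912) (P3 := 67108864) (W3 := 67108864)
    rfl rfl rfl k0_pp_011

noncomputable def cut_pp_012_a : Cut := Cut.of [[⟨0, 0, 0, 67108864⟩, ⟨1, 1, 0, 67108864⟩, ⟨2, 1, 0, 67108864⟩]]

noncomputable def f_pp_012_a : ℕ → ℕ → ℕ → ℕ → Bool := onCell 536870912 536870912 0 536870912 67108864 67108864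
    (rowFK 2 false true true .pnp 0 1 2 (qsf 0 536870912 0 536870912 1) ndF2q0 ndF1q2a pcF1 cut_pp_012_a Ext.none)

def k0_pp_012_a : ∃ t, chk3 f_pp_012_a t 1 1 1 = true :=
  ⟨(a (b (a (l 18162808) (l 18108256)) (a (b (l 18256376) (a (l 18264296) (l 18257608))) (b (l 18168992) (a (l 18190728) (l 18069672))))) (a (b (l 17904464) (b (l 17893368) (b (l 17826360) (a (l 17868328) (l 17628536))))) (b (a (l 17673504) (l 17690584)) (b (a (l 17575400) (a (l 17462288) (b (l 17521128) (l 17289096)))) (a (b (l 17450096) (a (l 17416104) (l 17200208))) (b (a (l 17241664) (b (l 17168616) (l 16977576))) (a (b (l 17137888) (b (l 17086952) (l 17009816))) (b (a (l 17033840) (l 6)) (l 6))))))))), by decide +kernel⟩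

theorem c_pp_012_a : CertF 0 536870912 0 536870912 67108864 67108864 false true true .pnp 0 1 2
    ndF2q0 ndF1q2a pcF1 cut_pp_012_a Ext.none :=
  certFK2 (fam := false) (s1 := true) (s2 := true) (a := 0) (b := 1) (c := 2) (cn := .pnp) (n1 := ndF2q0) (n2 := ndF1q2a) (pc := pcF1) (cut := cut_pp_012_a) (xt := Ext.none) (P1 := 0) (W1 := 536870912) (P2 := 0) (W2 := 536870912) (P3 := 67108864) (W3 := 67108864)
    rfl rfl rfl (fun _ => rfl) k0_pp_012_a

noncomputable def cut_pp_012_b : Cut := Cut.of [[⟨0, 0, 0, 67108864⟩, ⟨1, 1, 0, 67108864⟩, ⟨2, 1, 0, 67108864⟩]]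

noncomputable def f_pp_012_b : ℕ → ℕ → ℕ → ℕ → Bool := onCell 536870912 536870912 1239849684 370763052 67108864 67108864
    (rowFK 2 false true true .pnp 0 1 2 (qsf 0 536870912 1239849684 370763052 1) ndF2q0 ndF1q2b pcF1 cut_pp_012_b Ext.none)

def k0_pp_012_b : ∃ t, chk3 f_pp_012_b t 1 1 1 = true :=
  ⟨(a (a (l 2) (b (l 18207320) (l 2))) (a (b (l 18098136) (l 18254592)) (b (b (a (l 17826360) (l 17833416)) (l 18021952)) (a (l 18219376) (a (l 18185640) (l 18161024)))))), by decide +kernel⟩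

theorem c_pp_012_b : CertF 0 536870912 1239849684 370763052 67108864 67108864 false true true .pnp 0 1 2
    ndF2q0 ndF1q2b pcF1 cut_pp_012_b Ext.none :=
  certFK2 (fam := false) (s1 := true) (s2 := true) (a := 0) (b := 1) (c := 2) (cn := .pnp) (n1 := ndF2q0) (n2 := ndF1q2b) (pc := pcF1) (cut := cut_pp_012_b) (xt := Ext.none) (P1 := 0) (W1 := 536870912) (P2 := 1239849684) (W2 := 370763052) (P3 := 67108864) (W3 := 67108864)
    rfl rfl rfl (fun _ => rfl) k0_pp_012_b

noncomputable def cut_pp_022_a : Cut := Cut.of [[⟨0, 0, 0, 67108864⟩, ⟨1, 1, 0, 67108864⟩, ⟨2, 1, 0, 67108864⟩]]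

noncomputable def f_pp_022_a : ℕ → ℕ → ℕ → ℕ → Bool := onCell 0 536870912 0 536870912 67108864 67108864
    (rowFK 0 false true true .pp 0 2 2 (qsf 0 536870912 0 536870912 2) ndF2q0 ndF1q2a pcF2 cut_pp_022_a Ext.none)

def k0_pp_022_a : ∃ t, chk3 f_pp_022_a t 1 1 1 = true :=
  ⟨(a (b (a (a (a (b (a (l 18038896) (l 17921312)) (a (b (l 17692088) (a (c (l 18106328) (l 17034768)) (l 17562360))) (l 17618056))) (b (l 17786376) (a (l 17535520) (l 17487920)))) (b (a (l 17706800) (l 17742248)) (a (a (l 17481176) (l 17501008)) (b (a (l 17641632) (l 17724328)) (l 17604624))))) (a (l 17983416) (l 1))) (a (b (a (a (b (a (a (c (b (l 17838504) (l 17338720)) (b (l 16747200) (l 16647392))) (l 17086152)) (l 17032632)) (a (a (a (b (l 16665696) (b (l 16672352) (l 16679576))) (a (l 16727096) (l 16720936))) (a (l 16730832) (l 16720520))) (b (l 16708216) (l 16933928)))) (b (a (l 17001680) (l 17026600)) (a (b (l 16808504) (a (l 16816064) (l 16890320))) (b (l 17136552) (l 16981328)))))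 (a (b (a (b (l 17200224) (l 17045608)) (l 17267856)) (l 17154904)) (b (l 17528920) (l 17482536)))) (a (a (b (b (a (a (a (b (a (l 16686552) (l 16682896)) (b (l 16688512) (l 6))) (l 16725312)) (a (l 16759256) (l 16786416))) (b (l 16922616) (b (l 16916128) (l 6)))) (l 6)) (l 6)) (b (b (l 16957136) (a (l 6) (l 17055056))) (a (l 6) (l 1)))) (b (a (b (l 17207456) (l 1)) (l 1)) (l 1)))) (b (l 1) (l 1)))) (l 1)), by decide +kernel⟩

theorem c_pp_022_a : CertF 0 536870912 0 536870912 67108864 67108864 false true true .pp 0 2 2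
    ndF2q0 ndF1q2a pcF2 cut_pp_022_a Ext.none :=
  certFK0 (fam := false) (s1 := true) (s2 := true) (a := 0) (b := 2) (c := 2) (cn := .pp) (n1 := ndF2q0) (n2 := ndF1q2a) (pc := pcF2) (cut := cut_pp_022_a) (xt := Ext.none) (P1 := 0) (W1 := 536870912) (P2 := 0) (W2 := 536870912) (P3 := 67108864) (W3 := 67108864)
    rfl rfl rfl k0_pp_022_a

noncomputable def cut_pp_022_b : Cut := Cut.of [[⟨0, 0, 0, 67108864⟩, ⟨1, 1, 0, 67108864⟩, ⟨2, 1, 0, 67108864⟩]]

noncomputable def f_pp_022_b : ℕ → ℕ → ℕ → ℕ → Bool := onCell 0 536870912 1239849684 370763052 67108864 67108864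
    (rowFK 0 false true true .pp 0 2 2 (qsf 0 536870912 1239849684 370763052 2) ndF2q0 ndF1q2b pcF2 cut_pp_022_b Ext.none)

def k0_pp_022_b : ∃ t, chk3 f_pp_022_b t 1 1 1 = true :=
  ⟨(a (b (a (a (b (a (b (a (l 18325712) (l 18210416)) (l 18564104)) (l 18233600)) (l 18681752)) (b (b (a (l 17935232) (l 17901376)) (l 18146568)) (l 18353920))) (a (b (b (a (b (a (l 17897384) (l 17957256)) (l 17988448)) (l 18060984)) (a (l 18075776) (l 18099776))) (l 18176944)) (l 18377128))) (a (a (l 18918720) (l 18505040)) (l 18176848))) (b (a (l 18564504) (l 1)) (a (l 17997744) (l 18306448)))), by decide +kernel⟩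

theorem c_pp_022_b : CertF 0 536870912 1239849684 370763052 67108864 67108864 false true true .pp 0 2 2
    ndF2q0 ndF1q2b pcF2 cut_pp_022_b Ext.none :=
  certFK0 (fam := false) (s1 := true) (s2 := true) (a := 0) (b := 2) (c := 2) (cn := .pp) (n1 := ndF2q0) (n2 := ndF1q2b) (pc := pcF2) (cut := cut_pp_022_b) (xt := Ext.none) (P1 := 0) (W1 := 536870912) (P2 := 1239849684) (W2 := 370763052) (P3 := 67108864) (W3 := 67108864)
    rfl rfl rfl k0_pp_022_b

noncomputable def f_pp_023 : ℕ → ℕ → ℕ → ℕ → Bool := onCell 1073741824 536870912 1610612736 536870912 67108864 67108864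
    (rowFK 2 false true true .up 0 2 3 (qsf 0 536870912 1610612736 536870912 2) ndF2q0 ndF1q3 pcF2 Cut.none Ext.none)

def k0_pp_023 : ∃ t, chk3 f_pp_023 t 1 1 1 = true :=
  ⟨(a (b (a (l 17732040) (l 17718592)) (a (l 2) (l 17314384))) (b (a (b (l 17785096) (l 17470392)) (b (l 18238176) (l 17646064))) (a (l 17276992) (b (l 17248720) (l 4))))), by decide +kernel⟩

theorem c_pp_023 : CertF 0 536870912 1610612736 536870912 67108864 67108864 false true true .up 0 2 3
    ndF2q0 ndF1q3 pcF2 Cut.none Ext.none :=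
  certFK2 (fam := false) (s1 := true) (s2 := true) (a := 0) (b := 2) (c := 3) (cn := .up) (n1 := ndF2q0) (n2 := ndF1q3) (pc := pcF2) (cut := Cut.none) (xt := Ext.none) (P1 := 0) (W1 := 536870912) (P2 := 1610612736) (W2 := 536870912) (P3 := 67108864) (W3 := 67108864)
    rfl rfl rfl (fun _ => rfl) k0_pp_023

noncomputable def f_pp_033 : ℕ → ℕ → ℕ → ℕ → Bool := onCell 0 536870912 1610612736 536870912 67108864 67108864
    (rowFK 0 false true true .pnn 0 3 3 (qsf 0 536870912 1610612736 536870912 3) ndF2q0 ndF1q3 pcF3 Cut.none Ext.none)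

def k0_pp_033 : ∃ t, chk3 f_pp_033 t 1 1 1 = true :=
  ⟨(a (b (b (a (b (l 17859480) (l 17743960)) (b (l 1) (l 17320848))) (a (a (l 18268656) (l 17926880)) (b (l 17445024) (l 17610992)))) (b (b (a (a (l 18344136) (l 18069160)) (l 17664904)) (l 4)) (l 4))) (b (a (b (l 1) (b (l 1) (l 17234352))) (l 1)) (b (a (b (l 17308672) (l 4)) (b (l 1) (l 17318192))) (l 4)))), by decide +kernel⟩

theorem c_pp_033 : CertF 0 536870912 1610612736 536870912 67108864 67108864 false true true .pnn 0 3 3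
    ndF2q0 ndF1q3 pcF3 Cut.none Ext.none :=
  certFK0 (fam := false) (s1 := true) (s2 := true) (a := 0) (b := 3) (c := 3) (cn := .pnn) (n1 := ndF2q0) (n2 := ndF1q3) (pc := pcF3) (cut := Cut.none) (xt := Ext.none) (P1 := 0) (W1 := 536870912) (P2 := 1610612736) (W2 := 536870912) (P3 := 67108864) (W3 := 67108864)
    rfl rfl rfl k0_pp_033

noncomputable def f_pp_101 : ℕ → ℕ → ℕ → ℕ → Bool := onCell 536870912 536870912 536870912 536870912 67108864 67108864
    (rowFK 0 false true true .npn 1 0 1 (qsf 536870912 536870912 536870912 536870912 0) ndF2q1 ndF1q1 pcF0 Cut.none Ext.none)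

def k0_pp_101 : ∃ t, chk3 f_pp_101 t 1 1 1 = true :=
  ⟨(l 3), by decide +kernel⟩

theorem c_pp_101 : CertF 536870912 536870912 536870912 536870912 67108864 67108864 false true true .npn 1 0 1
    ndF2q1 ndF1q1 pcF0 Cut.none Ext.none :=
  certFK0 (fam := false) (s1 := true) (s2 := true) (a := 1) (b := 0) (c := 1) (cn := .npn) (n1 := ndF2q1) (n2 := ndF1q1) (pc := pcF0) (cut := Cut.none) (xt := Ext.none) (P1 := 536870912) (W1 := 536870912) (P2 := 536870912) (W2 := 536870912) (P3 := 67108864) (W3 := 67108864)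
    rfl rfl rfl k0_pp_101

noncomputable def cut_pp_102_a : Cut := Cut.of [[⟨0, 1, 0, 67108864⟩, ⟨1, 0, 0, 67108864⟩, ⟨2, 1, 0, 67108864⟩], [⟨0, 1, 2, 33554432⟩, ⟨1, 0, 1, 33554432⟩, ⟨2, 1, 0, 16777216⟩, ⟨0, 0, 0, 1023410176⟩, ⟨0, 1, 0, 150994944⟩, ⟨1, 0, 0, 150994944⟩, ⟨1, 1, 0, 1023410176⟩]]

noncomputable def f_pp_102_a : ℕ → ℕ → ℕ → ℕ → Bool := onCell 536870912 536870912 0 536870912 67108864 67108864
    (rowFK 0 false true true .npp 1 0 2 (qsf 536870912 536870912 0 536870912 0) ndF2q1 ndF1q2a pcF0 cut_pp_102_a Ext.none)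

def k0_pp_102_a : ∃ t, chk3 f_pp_102_a t 2 1 1 = true :=
  ⟨(b (a (l 17882328) (a (l 17556392) (l 17412088))) (a (b (l 18021480) (b (l 18181376) (a (l 18340160) (l 18286376)))) (b (l 17889792) (b (l 18038696) (a (l 18120840) (a (l 17922368) (l 17763952))))))), by decide +kernel⟩

def k1_pp_102_a : ∃ t, chk3 f_pp_102_a t 3 2 1 = true :=
  ⟨(a (b (a (l 17884216) (l 18539584)) (a (l 17911144) (l 18492520))) (a (b (l 18911368) (l 18977848)) (a (b (l 18995568) (b (l 18863752) (l 18677720))) (b (b (l 19028024) (l 18945424)) (b (l 18779032) (l 18480408)))))), by decide +kernel⟩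

def k2_pp_102_a : ∃ t, chk3 f_pp_102_a t 6 3 1 = true :=
  ⟨(b (a (l 17885696) (a (l 18210104) (l 18408640))) (a (b (l 17806416) (b (l 17728208) (a (l 17644496) (a (l 17667248) (l 17690776))))) (b (a (l 17984888) (b (l 18119336) (l 17947048))) (a (b (l 17812376) (a (l 17645592) (a (l 17515256) (b (l 17676576) (l 17503568))))) (a (b (l 17774304) (b (l 17617096) (c (l 17692392) (b (l 17343672) (a (l 17325048) (c (l 17341880) (b (l 17155920) (l 16965792)))))))) (b (l 17695936) (b (l 17354096) (c (b (l 17637272) (l 17496160)) (b (l 17096992) (b (a (l 17157656) (l 17049960)) (a (c (l 17238984) (a (l 16979120) (l 14))) (c (l 17117088) (l 14))))))))))))), by decide +kernel⟩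

def k3_pp_102_a : ∃ t, chk3 f_pp_102_a t 14 6 1 = true :=
  ⟨(a (l 18419568) (b (l 18502272) (l 18160536))), by decide +kernel⟩

def k4_pp_102_a : ∃ t, chk3 f_pp_102_a t 14 14 1 = true :=
  ⟨(a (b (l 18023472) (l 17784512)) (b (l 17772944) (a (l 17538680) (l 17275904)))), by decide +kernel⟩

def k5_pp_102_a : ∃ t, chk3 f_pp_102_a t 14 30 1 = true :=
  ⟨(a (b (l 17573568) (a (l 17502312) (l 17318936))) (a (b (l 17260256) (l 17055112)) (l 16705992))), by decide +kernel⟩

def k6_pp_102_a : ∃ t, chk3 f_pp_102_a t 28 31 1 = true :=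
  ⟨(b (c (a (l 17638752) (l 17480960)) (a (l 17063688) (l 16805784))) (b (c (a (l 17512216) (l 17148704)) (a (l 16877832) (l 16721344))) (c (a (c (l 17557736) (b (l 17314296) (a (l 17317208) (l 17187392)))) (a (c (l 17442488) (b (l 17168064) (c (l 17199000) (l 14)))) (c (b (l 17373360) (l 17278928)) (l 14)))) (c (a (b (l 16921800) (a (c (l 17129464) (l 14)) (l 14))) (l 14)) (a (l 14) (a (l 14) (a (l 14) (b (l 16724824) (b (l 16735880) (b (l 16741408) (a (l 14) (a (l 14) (a (l 14) (c (l 14) (l 16747536))))))))))))))), by decide +kernel⟩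

def k7_pp_102_a : ∃ t, chk3 f_pp_102_a t 29 62 1 = true :=
  ⟨(a (l 16734240) (b (l 16676832) (l 16718888))), by decide +kernel⟩

def k8_pp_102_a : ∃ t, chk3 f_pp_102_a t 58 63 1 = true :=
  ⟨(b (l 16725232) (b (l 16747672) (b (a (l 16739752) (l 16740968)) (c (c (a (c (l 17277112) (l 14)) (l 14)) (l 14)) (b (a (l 16743128) (l 16749744)) (a (c (l 14) (a (c (l 14) (b (l 16744272) (a (a (l 16745952) (l 16746136)) (a (l 16746328) (l 16746512))))) (b (l 16745600) (b (l 16746968) (a (c (l 14) (c (l 16747520) (l 16746936))) (c (a (l 14) (l 16748888)) (l 16747624))))))) (a (c (l 14) (b (l 16746384) (b (l 16747744) (a (c (c (l 14) (l 16750176)) (l 16748024)) (a (l 16750232) (l 16751752)))))) (b (l 16748240) (b (l 16752224) (a (c (l 14) (a (l 16751960) (l 16749552))) (a (c (l 14) (l 16749768)) (c (c (l 14) (l 16751520)) (l 16749984))))))))))))), by decide +kernel⟩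

def k9_pp_102_a : ∃ t, chk3 f_pp_102_a t 59 63 1 = true :=
  ⟨(b (l 16742960) (b (a (l 16731328) (l 16753896)) (b (a (l 16752808) (l 16754280)) (b (a (c (l 14) (l 16756504)) (c (l 16756056) (l 16758136))) (a (c (l 14) (a (c (c (l 14) (b (l 16749544) (a (a (b (l 16750816) (l 16751728)) (l 16752784)) (a (l 16752992) (l 16753208))))) (b (l 16748096) (a (a (l 16752376) (l 16752608)) (a (l 16752832) (l 16750440))))) (b (l 16749928) (c (a (c (l 14) (a (l 16753416) (l 16752328))) (a (c (l 14) (l 16752544)) (c (b (l 16753224) (l 16755448)) (l 16752768)))) (a (a (l 16750680) (l 16750912)) (a (l 16751152) (l 16751400))))))) (b (a (l 16756488) (l 16757328)) (c (c (l 14) (a (l 14) (a (l 14) (a (l 14) (a (l 14) (c (l 14) (l 16757656))))))) (a (a (b (l 16752160) (a (c (a (l 16755160) (l 16755272)) (l 16752088)) (c (a (l 16755384) (l 16755496)) (l 16752336)))) (a (c (a (l 16755488) (l 16755272)) (l 16752144)) (c (a (l 16755384) (l 16755504)) (l 16752400)))) (b (c (l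 16753936) (l 16752304)) (a (b (l 16753792) (c (a (l 16756336) (l 16756568)) (l 16753392))) (c (a (l 16756576) (l 16756816)) (l 16755000)))))))))))), by decide +kernel⟩

def k10_pp_102_a : ∃ t, chk3 f_pp_102_a t 15 3 1 = true :=
  ⟨(a (a (a (b (l 18209392) (b (l 17195488) (b (l 16694616) (b (l 16713408) (b (b (l 16726840) (l 16720232)) (b (l 16755552) (b (l 16755808) (a (b (l 16751584) (a (a (b (l 16754304) (a (c (c (l 14) (c (l 14) (l 16757768))) (c (l 16757880) (l 16753664))) (l 6))) (l 6)) (l 6))) (l 6))))))))) (b (l 18138512) (b (l 17027680) (b (l 16705040) (b (l 16704560) (b (l 16737080) (l 6))))))) (b (b (l 18285000) (l 17688560)) (b (b (l 16953008) (l 16778984)) (b (a (l 16716304) (l 16703968)) (b (a (l 16727992) (l 6)) (l 6)))))) (b (b (a (l 18086816) (l 17783440)) (a (l 17281840) (l 16781928))) (b (b (l 16759440) (a (l 16721760) (l 16738568))) (b (a (b (l 16719552) (l 6)) (l 6)) (l 6))))), by decide +kernel⟩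

theorem s11_pp_102_a : ∃ t, chk3 f_pp_102_a t 29 63 1 = true := ex3_a k8_pp_102_a k9_pp_102_a

theorem s12_pp_102_a : ∃ t, chk3 f_pp_102_a t 29 31 1 = true := ex3_b k7_pp_102_a s11_pp_102_a

theorem s13_pp_102_a : ∃ t, chk3 f_pp_102_a t 14 31 1 = true := ex3_a k6_pp_102_a s12_pp_102_a

theorem s14_pp_102_a : ∃ t, chk3 f_pp_102_a t 14 15 1 = true := ex3_b k5_pp_102_a s13_pp_102_a

theorem s15_pp_102_a : ∃ t, chk3 f_pp_102_a t 14 7 1 = true := ex3_b k4_pp_102_a s14_pp_102_a

theorem s16_pp_102_a : ∃ t, chk3 f_pp_102_a t 14 3 1 = true := ex3_b k3_pp_102_a s15_pp_102_a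

theorem s17_pp_102_a : ∃ t, chk3 f_pp_102_a t 7 3 1 = true := ex3_a s16_pp_102_a k10_pp_102_a

theorem s18_pp_102_a : ∃ t, chk3 f_pp_102_a t 3 3 1 = true := ex3_a k2_pp_102_a s17_pp_102_a

theorem s19_pp_102_a : ∃ t, chk3 f_pp_102_a t 3 1 1 = true := ex3_b k1_pp_102_a s18_pp_102_a

theorem s20_pp_102_a : ∃ t, chk3 f_pp_102_a t 1 1 1 = true := ex3_a k0_pp_102_a s19_pp_102_a

theorem c_pp_102_a : CertF 536870912 536870912 0 536870912 67108864 67108864 false true true .npp 1 0 2
    ndF2q1 ndF1q2a pcF0 cut_pp_102_a Ext.none :=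
  certFK0 (fam := false) (s1 := true) (s2 := true) (a := 1) (b := 0) (c := 2) (cn := .npp) (n1 := ndF2q1) (n2 := ndF1q2a) (pc := pcF0) (cut := cut_pp_102_a) (xt := Ext.none) (P1 := 536870912) (W1 := 536870912) (P2 := 0) (W2 := 536870912) (P3 := 67108864) (W3 := 67108864)
    rfl rfl rfl s20_pp_102_a

noncomputable def cut_pp_102_b : Cut := Cut.of [[⟨0, 1, 0, 67108864⟩, ⟨1, 0, 0, 67108864⟩, ⟨2, 1, 0, 67108864⟩], [⟨0, 1, 2, 33554432⟩, ⟨1, 0, 1, 33554432⟩, ⟨2, 1, 0, 16777216⟩, ⟨0, 0, 0, 1023410176⟩, ⟨0, 1, 0, 150994944⟩, ⟨1, 0, 0, 150994944⟩, ⟨1, 1, 0, 1023410176⟩]]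

noncomputable def f_pp_102_b : ℕ → ℕ → ℕ → ℕ → Bool := onCell 536870912 536870912 1239849684 370763052 67108864 67108864
    (rowFK 0 false true true .npp 1 0 2 (qsf 536870912 536870912 1239849684 370763052 0) ndF2q1 ndF1q2b pcF0 cut_pp_102_b Ext.none)

def k0_pp_102_b : ∃ t, chk3 f_pp_102_b t 1 1 1 = true :=
  ⟨(a (b (a (l 2) (a (l 17269128) (l 17320912))) (l 2)) (b (a (a (l 17963496) (b (l 18674800) (l 18785160))) (a (b (l 19120888) (l 19271440)) (a (b (l 19272328) (l 19459096)) (b (b (l 19221064) (l 19431480)) (l 19561984))))) (a (a (l 2) (l 18721536)) (a (l 19202544) (a (l 19384760) (l 19483216)))))), by decide +kernel⟩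

theorem c_pp_102_b : CertF 536870912 536870912 1239849684 370763052 67108864 67108864 false true true .npp 1 0 2
    ndF2q1 ndF1q2b pcF0 cut_pp_102_b Ext.none :=
  certFK0 (fam := false) (s1 := true) (s2 := true) (a := 1) (b := 0) (c := 2) (cn := .npp) (n1 := ndF2q1) (n2 := ndF1q2b) (pc := pcF0) (cut := cut_pp_102_b) (xt := Ext.none) (P1 := 536870912) (W1 := 536870912) (P2 := 1239849684) (W2 := 370763052) (P3 := 67108864) (W3 := 67108864)
    rfl rfl rfl k0_pp_102_b

noncomputable def f_pp_112_a : ℕ → ℕ → ℕ → ℕ → Bool := onCell 536870912 536870912 0 536870912 67108864 67108864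
    (rowFK 2 false true true .dn 1 1 2 (qsf 536870912 536870912 0 536870912 1) ndF2q1 ndF1q2a pcF1 Cut.none Ext.none)

def k0_pp_112_a : ∃ t, chk3 f_pp_112_a t 1 1 1 = true :=
  ⟨(a (a (b (l 18207624) (a (b (l 18232616) (l 18338328)) (l 455840430791))) (b (l 18167560) (b (l 1) (l 1)))) (l 1)), by decide +kernel⟩

theorem c_pp_112_a : CertF 536870912 536870912 0 536870912 67108864 67108864 false true true .dn 1 1 2
    ndF2q1 ndF1q2a pcF1 Cut.none Ext.none :=
  certFK2 (fam := false) (s1 := true) (s2 := true) (a := 1) (b := 1) (c := 2) (cn := .dn) (n1 := ndF2q1) (n2 := ndF1q2a) (pc := pcF1) (cut := Cut.none) (xt := Ext.none) (P1 := 536870912) (W1 := 536870912) (P2 := 0) (W2 := 536870912) (P3 := 67108864) (W3 := 67108864)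
    rfl rfl rfl (fun _ => rfl) k0_pp_112_a

noncomputable def f_pp_112_b : ℕ → ℕ → ℕ → ℕ → Bool := onCell 536870912 536870912 536870912 536870912 67108864 67108864
    (rowFK 1 false true true .dn 1 1 2 (qsf 536870912 536870912 1239849684 370763052 1) ndF2q1 ndF1q2b pcF1 Cut.none Ext.none)

def k0_pp_112_b : ∃ t, chk3 f_pp_112_b t 1 1 1 = true :=
  ⟨(a (b (b (a (l 18374520) (l 17610024)) (a (l 17955728) (l 17172464))) (b (a (l 17423032) (l 17136544)) (b (l 18102264) (b (l 18590968) (l 18904496))))) (b (a (b (l 18523472) (l 18393488)) (a (l 19493896) (a (l 19727800) (l 19856936)))) (a (b (l 17917584) (l 2)) (l 2)))), by decide +kernel⟩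

theorem c_pp_112_b : CertF 536870912 536870912 1239849684 370763052 67108864 67108864 false true true .dn 1 1 2
    ndF2q1 ndF1q2b pcF1 Cut.none Ext.none :=
  certFK1 (fam := false) (s1 := true) (s2 := true) (a := 1) (b := 1) (c := 2) (cn := .dn) (n1 := ndF2q1) (n2 := ndF1q2b) (pc := pcF1) (cut := Cut.none) (xt := Ext.none) (P1 := 536870912) (W1 := 536870912) (P2 := 1239849684) (W2 := 370763052) (P3 := 67108864) (W3 := 67108864)
    rfl rfl rfl (fun _ => rfl) k0_pp_112_b

end Pool.Agent.Strip051.G.I1_16_1_8.Tab.C.FB21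

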