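import Pool.Agent.Strip051.G.I1_16_1_8.Tab
import Pool.Agent.Strip051.PB.RowK

/-! # Certificates F5 (generated) -/

set_option linter.all false
set_option maxRecDepth 100000

namespace Pool.Agent.Strip051.G.I1_16_1_8.Tab.C.FB21

open Pool.Agent.Strip051.PB Pool.Agent.Strip051.PB.T
open Pool.Agent.Strip051.G.I1_16_1_8.Tab

noncomputable def f_pp_113 : ℕ → ℕ → ℕ → ℕ → Bool := onCell 536870912 536870912 536870912 536870912 67108864 67108864
    (rowFK 1 false true true .nn 1 1 3 (qsf 536870912 536870912 1610612736 536870912 1) ndF2q1 ndF1q3 pcF1 Cut.none Ext.none)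

def k0_pp_113 : ∃ t, chk3 f_pp_113 t 1 1 1 = true :=
  ⟨(a (b (b (l 1) (l 774203838823)) (b (a (l 18274096) (l 17714144)) (b (l 781721880647) (b (l 18977544) (l 19216176))))) (b (a (b (l 17792792) (l 17828240)) (a (l 19012944) (a (l 19346744) (l 19546456)))) (a (b (l 17623288) (b (l 17395736) (b (l 17481872) (l 17528288)))) (b (a (l 18419848) (a (l 18509920) (l 18520032))) (a (b (l 17838552) (b (l 17592208) (l 17423096))) (b (a (l 17763792) (l 17645976)) (a (b (l 17456200) (l 17244160)) (b (l 17288952) (l 17037000))))))))), by decide +kernel⟩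

theorem c_pp_113 : CertF 536870912 536870912 1610612736 536870912 67108864 67108864 false true true .nn 1 1 3
    ndF2q1 ndF1q3 pcF1 Cut.none Ext.none :=
  certFK1 (fam := false) (s1 := true) (s2 := true) (a := 1) (b := 1) (c := 3) (cn := .nn) (n1 := ndF2q1) (n2 := ndF1q3) (pc := pcF1) (cut := Cut.none) (xt := Ext.none) (P1 := 536870912) (W1 := 536870912) (P2 := 1610612736) (W2 := 536870912) (P3 := 67108864) (W3 := 67108864)
    rfl rfl rfl (fun _ => rfl) k0_pp_113

noncomputable def f_pp_123 : ℕ → ℕ → ℕ → ℕ → Bool := onCell 536870912 536870912 1610612736 536870912 67108864 67108864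
    (rowFK 0 false true true .npn 1 2 3 (qsf 536870912 536870912 1610612736 536870912 2) ndF2q1 ndF1q3 pcF2 Cut.none Ext.none)

def k0_pp_123 : ∃ t, chk3 f_pp_123 t 1 1 1 = true :=
  ⟨(a (b (a (b (l 19831552) (l 19557744)) (l 550868633703)) (a (b (l 19323432) (l 19134648)) (b (l 18740688) (l 18460232)))) (b (a (l 652872397223) (l 1)) (a (b (l 17664088) (l 17421248)) (a (l 17527376) (a (l 17436976) (l 17448824)))))), by decide +kernel⟩

theorem c_pp_123 : CertF 536870912 536870912 1610612736 536870912 67108864 67108864 false true true .npn 1 2 3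
    ndF2q1 ndF1q3 pcF2 Cut.none Ext.none :=
  certFK0 (fam := false) (s1 := true) (s2 := true) (a := 1) (b := 2) (c := 3) (cn := .npn) (n1 := ndF2q1) (n2 := ndF1q3) (pc := pcF2) (cut := Cut.none) (xt := Ext.none) (P1 := 536870912) (W1 := 536870912) (P2 := 1610612736) (W2 := 536870912) (P3 := 67108864) (W3 := 67108864)
    rfl rfl rfl k0_pp_123

noncomputable def f_pp_133 : ℕ → ℕ → ℕ → ℕ → Bool := onCell 1610612736 536870912 1610612736 536870912 67108864 67108864
    (rowFK 2 false true true .dn 1 3 3 (qsf 536870912 536870912 1610612736 536870912 3) ndF2q1 ndF1q3 pcF3 Cut.none Ext.none)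

def k0_pp_133 : ∃ t, chk3 f_pp_133 t 1 1 1 = true :=
  ⟨(a (b (l 1) (b (l 1) (l 4))) (l 1)), by decide +kernel⟩

theorem c_pp_133 : CertF 536870912 536870912 1610612736 536870912 67108864 67108864 false true true .dn 1 3 3
    ndF2q1 ndF1q3 pcF3 Cut.none Ext.none :=
  certFK2 (fam := false) (s1 := true) (s2 := true) (a := 1) (b := 3) (c := 3) (cn := .dn) (n1 := ndF2q1) (n2 := ndF1q3) (pc := pcF3) (cut := Cut.none) (xt := Ext.none) (P1 := 536870912) (W1 := 536870912) (P2 := 1610612736) (W2 := 536870912) (P3 := 67108864) (W3 := 67108864)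
    rfl rfl rfl (fun _ => rfl) k0_pp_133

noncomputable def f_pp_202_aa : ℕ → ℕ → ℕ → ℕ → Bool := onCell 0 536870912 0 536870912 67108864 67108864
    (rowFK 0 false true true .pp 2 0 2 (qsf 0 536870912 0 536870912 0) ndF2q2a ndF1q2a pcF0 Cut.none Ext.none)

def k0_pp_202_aa : ∃ t, chk3 f_pp_202_aa t 1 1 1 = true :=
  ⟨(l 3), by decide +kernel⟩

theorem c_pp_202_aa : CertF 0 536870912 0 536870912 67108864 67108864 false true true .pp 2 0 2
    ndF2q2a ndF1q2a pcF0 Cut.none Ext.none :=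
  certFK0 (fam := false) (s1 := true) (s2 := true) (a := 2) (b := 0) (c := 2) (cn := .pp) (n1 := ndF2q2a) (n2 := ndF1q2a) (pc := pcF0) (cut := Cut.none) (xt := Ext.none) (P1 := 0) (W1 := 536870912) (P2 := 0) (W2 := 536870912) (P3 := 67108864) (W3 := 67108864)
    rfl rfl rfl k0_pp_202_aa

noncomputable def f_pp_202_ab : ℕ → ℕ → ℕ → ℕ → Bool := onCell 0 536870912 1239849684 370763052 67108864 67108864
    (rowFK 0 false true true .pp 2 0 2 (qsf 0 536870912 1239849684 370763052 0) ndF2q2a ndF1q2b pcF0 Cut.none Ext.none)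

def k0_pp_202_ab : ∃ t, chk3 f_pp_202_ab t 1 1 1 = true :=
  ⟨(l 3), by decide +kernel⟩

theorem c_pp_202_ab : CertF 0 536870912 1239849684 370763052 67108864 67108864 false true true .pp 2 0 2
    ndF2q2a ndF1q2b pcF0 Cut.none Ext.none :=
  certFK0 (fam := false) (s1 := true) (s2 := true) (a := 2) (b := 0) (c := 2) (cn := .pp) (n1 := ndF2q2a) (n2 := ndF1q2b) (pc := pcF0) (cut := Cut.none) (xt := Ext.none) (P1 := 0) (W1 := 536870912) (P2 := 1239849684) (W2 := 370763052) (P3 := 67108864) (W3 := 67108864)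
    rfl rfl rfl k0_pp_202_ab

noncomputable def f_pp_202_ba : ℕ → ℕ → ℕ → ℕ → Bool := onCell 1239849684 370763052 0 536870912 67108864 67108864
    (rowFK 0 false true true .pp 2 0 2 (qsf 1239849684 370763052 0 536870912 0) ndF2q2b ndF1q2a pcF0 Cut.none Ext.none)

def k0_pp_202_ba : ∃ t, chk3 f_pp_202_ba t 1 1 1 = true :=
  ⟨(l 3), by decide +kernel⟩

theorem c_pp_202_ba : CertF 1239849684 370763052 0 536870912 67108864 67108864 false true true .pp 2 0 2
    ndF2q2b ndF1q2a pcF0 Cut.none Ext.none :=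
  certFK0 (fam := false) (s1 := true) (s2 := true) (a := 2) (b := 0) (c := 2) (cn := .pp) (n1 := ndF2q2b) (n2 := ndF1q2a) (pc := pcF0) (cut := Cut.none) (xt := Ext.none) (P1 := 1239849684) (W1 := 370763052) (P2 := 0) (W2 := 536870912) (P3 := 67108864) (W3 := 67108864)
    rfl rfl rfl k0_pp_202_ba

noncomputable def f_pp_202_bb : ℕ → ℕ → ℕ → ℕ → Bool := onCell 1239849684 370763052 1239849684 370763052 67108864 67108864
    (rowFK 0 false true true .pp 2 0 2 (qsf 1239849684 370763052 1239849684 370763052 0) ndF2q2b ndF1q2b pcF0 Cut.none Ext.none)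

def k0_pp_202_bb : ∃ t, chk3 f_pp_202_bb t 1 1 1 = true :=
  ⟨(l 3), by decide +kernel⟩

theorem c_pp_202_bb : CertF 1239849684 370763052 1239849684 370763052 67108864 67108864 false true true .pp 2 0 2
    ndF2q2b ndF1q2b pcF0 Cut.none Ext.none :=
  certFK0 (fam := false) (s1 := true) (s2 := true) (a := 2) (b := 0) (c := 2) (cn := .pp) (n1 := ndF2q2b) (n2 := ndF1q2b) (pc := pcF0) (cut := Cut.none) (xt := Ext.none) (P1 := 1239849684) (W1 := 370763052) (P2 := 1239849684) (W2 := 370763052) (P3 := 67108864) (W3 := 67108864)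
    rfl rfl rfl k0_pp_202_bb

noncomputable def f_pp_203_a : ℕ → ℕ → ℕ → ℕ → Bool := onCell 0 536870912 0 536870912 67108864 67108864
    (rowFK 1 false true true .up 2 0 3 (qsf 0 536870912 1610612736 536870912 0) ndF2q2a ndF1q3 pcF0 Cut.none Ext.none)

def k0_pp_203_a : ∃ t, chk3 f_pp_203_a t 1 1 1 = true :=
  ⟨(l 3), by decide +kernel⟩

theorem c_pp_203_a : CertF 0 536870912 1610612736 536870912 67108864 67108864 false true true .up 2 0 3
    ndF2q2a ndF1q3 pcF0 Cut.none Ext.none :=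
  certFK1 (fam := false) (s1 := true) (s2 := true) (a := 2) (b := 0) (c := 3) (cn := .up) (n1 := ndF2q2a) (n2 := ndF1q3) (pc := pcF0) (cut := Cut.none) (xt := Ext.none) (P1 := 0) (W1 := 536870912) (P2 := 1610612736) (W2 := 536870912) (P3 := 67108864) (W3 := 67108864)
    rfl rfl rfl (fun _ => rfl) k0_pp_203_a

noncomputable def f_pp_203_b : ℕ → ℕ → ℕ → ℕ → Bool := onCell 1239849684 370763052 1610612736 536870912 67108864 67108864
    (rowFK 0 false true true .up 2 0 3 (qsf 1239849684 370763052 1610612736 536870912 0) ndF2q2b ndF1q3 pcF0 Cut.none Ext.none)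

def k0_pp_203_b : ∃ t, chk3 f_pp_203_b t 1 1 1 = true :=
  ⟨(l 3), by decide +kernel⟩

theorem c_pp_203_b : CertF 1239849684 370763052 1610612736 536870912 67108864 67108864 false true true .up 2 0 3
    ndF2q2b ndF1q3 pcF0 Cut.none Ext.none :=
  certFK0 (fam := false) (s1 := true) (s2 := true) (a := 2) (b := 0) (c := 3) (cn := .up) (n1 := ndF2q2b) (n2 := ndF1q3) (pc := pcF0) (cut := Cut.none) (xt := Ext.none) (P1 := 1239849684) (W1 := 370763052) (P2 := 1610612736) (W2 := 536870912) (P3 := 67108864) (W3 := 67108864)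
    rfl rfl rfl k0_pp_203_b

noncomputable def cut_pp_213_a : Cut := Cut.of [[⟨0, 1, 0, 21338704⟩, ⟨1, 1, 0, 21338704⟩, ⟨2, 2, 0, 1685920⟩]]

noncomputable def f_pp_213_a : ℕ → ℕ → ℕ → ℕ → Bool := onCell 0 536870912 1610612736 536870912 67108864 67108864
    (rowFK 0 false true true .pnn 2 1 3 (qsf 0 536870912 1610612736 536870912 1) ndF2q2a ndF1q3 pcF1 cut_pp_213_a Ext.none)

def k0_pp_213_a : ∃ t, chk3 f_pp_213_a t 1 1 1 = true :=
  ⟨(a (l 3) (b (l 3) (a (l 3) (b (l 3) (a (l 3) (b (l 3) (b (l 3) (b (l 3) (b (l 3) (b (l 3) (a (l 3) (a (l 3) (b (l 3) (b (l 3) (l 6))))))))))))))), by decide +kernel⟩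

theorem c_pp_213_a : CertF 0 536870912 1610612736 536870912 67108864 67108864 false true true .pnn 2 1 3
    ndF2q2a ndF1q3 pcF1 cut_pp_213_a Ext.none :=
  certFK0 (fam := false) (s1 := true) (s2 := true) (a := 2) (b := 1) (c := 3) (cn := .pnn) (n1 := ndF2q2a) (n2 := ndF1q3) (pc := pcF1) (cut := cut_pp_213_a) (xt := Ext.none) (P1 := 0) (W1 := 536870912) (P2 := 1610612736) (W2 := 536870912) (P3 := 67108864) (W3 := 67108864)
    rfl rfl rfl k0_pp_213_a

noncomputable def cut_pp_213_b : Cut := Cut.of [[⟨0, 1, 0, 21338704⟩, ⟨1, 1, 0, 21338704⟩, ⟨2, 2, 0, 1685920⟩]]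

noncomputable def f_pp_213_b : ℕ → ℕ → ℕ → ℕ → Bool := onCell 1239849684 370763052 1610612736 536870912 67108864 67108864
    (rowFK 0 false true true .pnn 2 1 3 (qsf 1239849684 370763052 1610612736 536870912 1) ndF2q2b ndF1q3 pcF1 cut_pp_213_b Ext.none)

def k0_pp_213_b : ∃ t, chk3 f_pp_213_b t 1 1 1 = true :=
  ⟨(l 3), by decide +kernel⟩

theorem c_pp_213_b : CertF 1239849684 370763052 1610612736 536870912 67108864 67108864 false true true .pnn 2 1 3
    ndF2q2b ndF1q3 pcF1 cut_pp_213_b Ext.none :=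
  certFK0 (fam := false) (s1 := true) (s2 := true) (a := 2) (b := 1) (c := 3) (cn := .pnn) (n1 := ndF2q2b) (n2 := ndF1q3) (pc := pcF1) (cut := cut_pp_213_b) (xt := Ext.none) (P1 := 1239849684) (W1 := 370763052) (P2 := 1610612736) (W2 := 536870912) (P3 := 67108864) (W3 := 67108864)
    rfl rfl rfl k0_pp_213_b

noncomputable def f_pp_303 : ℕ → ℕ → ℕ → ℕ → Bool := onCell 1610612736 536870912 1610612736 536870912 67108864 67108864
    (rowFK 0 false true true .npn 3 0 3 (qsf 1610612736 536870912 1610612736 536870912 0) ndF2q3 ndF1q3 pcF0 Cut.none Ext.none)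

def k0_pp_303 : ∃ t, chk3 f_pp_303 t 1 1 1 = true :=
  ⟨(l 3), by decide +kernel⟩

theorem c_pp_303 : CertF 1610612736 536870912 1610612736 536870912 67108864 67108864 false true true .npn 3 0 3
    ndF2q3 ndF1q3 pcF0 Cut.none Ext.none :=
  certFK0 (fam := false) (s1 := true) (s2 := true) (a := 3) (b := 0) (c := 3) (cn := .npn) (n1 := ndF2q3) (n2 := ndF1q3) (pc := pcF0) (cut := Cut.none) (xt := Ext.none) (P1 := 1610612736) (W1 := 536870912) (P2 := 1610612736) (W2 := 536870912) (P3 := 67108864) (W3 := 67108864)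
    rfl rfl rfl k0_pp_303

noncomputable def f_pp_313 : ℕ → ℕ → ℕ → ℕ → Bool := onCell 1610612736 536870912 1610612736 536870912 67108864 67108864
    (rowFK 0 false true true .dn 3 1 3 (qsf 1610612736 536870912 1610612736 536870912 1) ndF2q3 ndF1q3 pcF1 Cut.none Ext.none)

def k0_pp_313 : ∃ t, chk3 f_pp_313 t 1 1 1 = true :=
  ⟨(l 3), by decide +kernel⟩

theorem c_pp_313 : CertF 1610612736 536870912 1610612736 536870912 67108864 67108864 false true true .dn 3 1 3
    ndF2q3 ndF1q3 pcF1 Cut.none Ext.none :=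
  certFK0 (fam := false) (s1 := true) (s2 := true) (a := 3) (b := 1) (c := 3) (cn := .dn) (n1 := ndF2q3) (n2 := ndF1q3) (pc := pcF1) (cut := Cut.none) (xt := Ext.none) (P1 := 1610612736) (W1 := 536870912) (P2 := 1610612736) (W2 := 536870912) (P3 := 67108864) (W3 := 67108864)
    rfl rfl rfl k0_pp_313

noncomputable def f_pm_001 : ℕ → ℕ → ℕ → ℕ → Bool := onCell 0 536870912 536870912 536870912 67108864 67108864
    (rowFK 0 false true false .up 0 0 1 (qsf 0 536870912 536870912 536870912 0) ndF2q0 ndF1q1 pcF0 Cut.none Ext.none)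

def k0_pm_001 : ∃ t, chk3 f_pm_001 t 1 1 1 = true :=
  ⟨(l 4), by decide +kernel⟩

theorem c_pm_001 : CertF 0 536870912 536870912 536870912 67108864 67108864 false true false .up 0 0 1
    ndF2q0 ndF1q1 pcF0 Cut.none Ext.none :=
  certFK0 (fam := false) (s1 := true) (s2 := false) (a := 0) (b := 0) (c := 1) (cn := .up) (n1 := ndF2q0) (n2 := ndF1q1) (pc := pcF0) (cut := Cut.none) (xt := Ext.none) (P1 := 0) (W1 := 536870912) (P2 := 536870912) (W2 := 536870912) (P3 := 67108864) (W3 := 67108864)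
    rfl rfl rfl k0_pm_001

noncomputable def f_pm_011 : ℕ → ℕ → ℕ → ℕ → Bool := onCell 0 536870912 536870912 536870912 67108864 67108864
    (rowFK 0 false true false .pnn 0 1 1 (qsf 0 536870912 536870912 536870912 1) ndF2q0 ndF1q1 pcF1 Cut.none Ext.none)

def k0_pm_011 : ∃ t, chk3 f_pm_011 t 1 1 1 = true :=
  ⟨(l 4), by decide +kernel⟩

theorem c_pm_011 : CertF 0 536870912 536870912 536870912 67108864 67108864 false true false .pnn 0 1 1
    ndF2q0 ndF1q1 pcF1 Cut.none Ext.none :=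
  certFK0 (fam := false) (s1 := true) (s2 := false) (a := 0) (b := 1) (c := 1) (cn := .pnn) (n1 := ndF2q0) (n2 := ndF1q1) (pc := pcF1) (cut := Cut.none) (xt := Ext.none) (P1 := 0) (W1 := 536870912) (P2 := 536870912) (W2 := 536870912) (P3 := 67108864) (W3 := 67108864)
    rfl rfl rfl k0_pm_011

noncomputable def cut_pm_012_a : Cut := Cut.of [[⟨0, 0, 0, 67108864⟩, ⟨1, 1, 0, 67108864⟩, ⟨2, 1, 0, 67108864⟩]]

noncomputable def f_pm_012_a : ℕ → ℕ → ℕ → ℕ → Bool := onCell 536870912 536870912 0 536870912 67108864 67108864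
    (rowFK 2 false true false .pnp 0 1 2 (qsf 0 536870912 0 536870912 1) ndF2q0 ndF1q2a pcF1 cut_pm_012_a Ext.none)

def k0_pm_012_a : ∃ t, chk3 f_pm_012_a t 1 1 1 = true :=
  ⟨(a (b (l 4) (l 4)) (a (b (l 4) (l 4)) (a (b (l 19005888) (l 4)) (a (b (l 71643579063) (l 4)) (b (l 93655069207) (b (l 4) (b (l 4) (b (l 4) (l 6))))))))), by decide +kernel⟩

theorem c_pm_012_a : CertF 0 536870912 0 536870912 67108864 67108864 false true false .pnp 0 1 2
    ndF2q0 ndF1q2a pcF1 cut_pm_012_a Ext.none :=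
  certFK2 (fam := false) (s1 := true) (s2 := false) (a := 0) (b := 1) (c := 2) (cn := .pnp) (n1 := ndF2q0) (n2 := ndF1q2a) (pc := pcF1) (cut := cut_pm_012_a) (xt := Ext.none) (P1 := 0) (W1 := 536870912) (P2 := 0) (W2 := 536870912) (P3 := 67108864) (W3 := 67108864)
    rfl rfl rfl (fun _ => rfl) k0_pm_012_a

noncomputable def cut_pm_012_b : Cut := Cut.of [[⟨0, 0, 0, 67108864⟩, ⟨1, 1, 0, 67108864⟩, ⟨2, 1, 0, 67108864⟩]]

noncomputable def f_pm_012_b : ℕ → ℕ → ℕ → ℕ → Bool := onCell 536870912 536870912 1239849684 370763052 67108864 67108864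
    (rowFK 2 false true false .pnp 0 1 2 (qsf 0 536870912 1239849684 370763052 1) ndF2q0 ndF1q2b pcF1 cut_pm_012_b Ext.none)

def k0_pm_012_b : ∃ t, chk3 f_pm_012_b t 1 1 1 = true :=
  ⟨(a (l 4) (b (a (l 4) (a (l 19234024) (a (l 19331184) (b (l 19330416) (l 4))))) (l 4))), by decide +kernel⟩

theorem c_pm_012_b : CertF 0 536870912 1239849684 370763052 67108864 67108864 false true false .pnp 0 1 2
    ndF2q0 ndF1q2b pcF1 cut_pm_012_b Ext.none :=
  certFK2 (fam := false) (s1 := true) (s2 := false) (a := 0) (b := 1) (c := 2) (cn := .pnp) (n1 := ndF2q0) (n2 := ndF1q2b) (pc := pcF1) (cut := cut_pm_012_b) (xt := Ext.none) (P1 := 0) (W1 := 536870912) (P2 := 1239849684) (W2 := 370763052) (P3 := 67108864) (W3 := 67108864)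
    rfl rfl rfl (fun _ => rfl) k0_pm_012_b

noncomputable def cut_pm_022_a : Cut := Cut.of [[⟨0, 0, 0, 67108864⟩, ⟨1, 1, 0, 67108864⟩, ⟨2, 1, 0, 67108864⟩]]

noncomputable def f_pm_022_a : ℕ → ℕ → ℕ → ℕ → Bool := onCell 0 536870912 0 536870912 67108864 67108864
    (rowFK 0 false true false .pp 0 2 2 (qsf 0 536870912 0 536870912 2) ndF2q0 ndF1q2a pcF2 cut_pm_022_a Ext.none)

def k0_pm_022_a : ∃ t, chk3 f_pm_022_a t 1 1 1 = true :=
  ⟨(a (b (b (a (a (a (a (l 17964080) (l 18047280)) (l 18071520)) (l 18342440)) (l 19234440)) (a (a (a (a (b (l 17786488) (b (l 17642824) (l 17313776))) (l 17734328)) (l 17779232)) (l 18130088)) (l 4))) (a (a (b (a (b (a (b (l 17024096) (l 16785016)) (l 17066984)) (a (a (a (b (l 16653736) (a (l 16677240) (l 16639712))) (l 16648696)) (l 16695792)) (l 16731288))) (b (l 17125792) (l 4))) (a (b (b (a (a (a (a (l 16695656) (l 16679256)) (l 16670248)) (l 16687912)) (l 16750976)) (l 6)) (l 6)) (l 4))) (l 4)) (l 4))) (l 1)), by decide +kernel⟩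

theorem c_pm_022_a : CertF 0 536870912 0 536870912 67108864 67108864 false true false .pp 0 2 2
    ndF2q0 ndF1q2a pcF2 cut_pm_022_a Ext.none :=
  certFK0 (fam := false) (s1 := true) (s2 := false) (a := 0) (b := 2) (c := 2) (cn := .pp) (n1 := ndF2q0) (n2 := ndF1q2a) (pc := pcF2) (cut := cut_pm_022_a) (xt := Ext.none) (P1 := 0) (W1 := 536870912) (P2 := 0) (W2 := 536870912) (P3 := 67108864) (W3 := 67108864)
    rfl rfl rfl k0_pm_022_a

noncomputable def cut_pm_022_b : Cut := Cut.of [[⟨0, 0, 0, 67108864⟩, ⟨1, 1, 0, 67108864⟩, ⟨2, 1, 0, 67108864⟩]]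

noncomputable def f_pm_022_b : ℕ → ℕ → ℕ → ℕ → Bool := onCell 0 536870912 1239849684 370763052 67108864 67108864
    (rowFK 0 false true false .pp 0 2 2 (qsf 0 536870912 1239849684 370763052 2) ndF2q0 ndF1q2b pcF2 cut_pm_022_b Ext.none)

def k0_pm_022_b : ∃ t, chk3 f_pm_022_b t 1 1 1 = true :=
  ⟨(a (b (a (b (a (a (b (a (l 18366824) (l 18348400)) (l 18677976)) (l 18541920)) (l 18678680)) (a (l 19109144) (l 18904976))) (b (a (l 19057400) (l 19205728)) (l 19117080))) (a (b (a (l 18951128) (l 4)) (l 4)) (l 4))) (l 4)), by decide +kernel⟩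

theorem c_pm_022_b : CertF 0 536870912 1239849684 370763052 67108864 67108864 false true false .pp 0 2 2
    ndF2q0 ndF1q2b pcF2 cut_pm_022_b Ext.none :=
  certFK0 (fam := false) (s1 := true) (s2 := false) (a := 0) (b := 2) (c := 2) (cn := .pp) (n1 := ndF2q0) (n2 := ndF1q2b) (pc := pcF2) (cut := cut_pm_022_b) (xt := Ext.none) (P1 := 0) (W1 := 536870912) (P2 := 1239849684) (W2 := 370763052) (P3 := 67108864) (W3 := 67108864)
    rfl rfl rfl k0_pm_022_b

noncomputable def f_pm_023 : ℕ → ℕ → ℕ → ℕ → Bool := onCell 0 536870912 1610612736 536870912 67108864 67108864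
    (rowFK 0 false true false .up 0 2 3 (qsf 0 536870912 1610612736 536870912 2) ndF2q0 ndF1q3 pcF2 Cut.none Ext.none)

def k0_pm_023 : ∃ t, chk3 f_pm_023 t 1 1 1 = true :=
  ⟨(a (l 4) (l 4)), by decide +kernel⟩

theorem c_pm_023 : CertF 0 536870912 1610612736 536870912 67108864 67108864 false true false .up 0 2 3
    ndF2q0 ndF1q3 pcF2 Cut.none Ext.none :=
  certFK0 (fam := false) (s1 := true) (s2 := false) (a := 0) (b := 2) (c := 3) (cn := .up) (n1 := ndF2q0) (n2 := ndF1q3) (pc := pcF2) (cut := Cut.none) (xt := Ext.none) (P1 := 0) (W1 := 536870912) (P2 := 1610612736) (W2 := 536870912) (P3 := 67108864) (W3 := 67108864)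
    rfl rfl rfl k0_pm_023

noncomputable def f_pm_033 : ℕ → ℕ → ℕ → ℕ → Bool := onCell 0 536870912 1610612736 536870912 67108864 67108864
    (rowFK 0 false true false .pnn 0 3 3 (qsf 0 536870912 1610612736 536870912 3) ndF2q0 ndF1q3 pcF3 Cut.none Ext.none)

def k0_pm_033 : ∃ t, chk3 f_pm_033 t 1 1 1 = true :=
  ⟨(a (l 4) (l 4)), by decide +kernel⟩

theorem c_pm_033 : CertF 0 536870912 1610612736 536870912 67108864 67108864 false true false .pnn 0 3 3
    ndF2q0 ndF1q3 pcF3 Cut.none Ext.none :=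
  certFK0 (fam := false) (s1 := true) (s2 := false) (a := 0) (b := 3) (c := 3) (cn := .pnn) (n1 := ndF2q0) (n2 := ndF1q3) (pc := pcF3) (cut := Cut.none) (xt := Ext.none) (P1 := 0) (W1 := 536870912) (P2 := 1610612736) (W2 := 536870912) (P3 := 67108864) (W3 := 67108864)
    rfl rfl rfl k0_pm_033

noncomputable def f_pm_101 : ℕ → ℕ → ℕ → ℕ → Bool := onCell 536870912 536870912 536870912 536870912 67108864 67108864
    (rowFK 0 false true false .npn 1 0 1 (qsf 536870912 536870912 536870912 536870912 0) ndF2q1 ndF1q1 pcF0 Cut.none Ext.none)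

def k0_pm_101 : ∃ t, chk3 f_pm_101 t 1 1 1 = true :=
  ⟨(l 4), by decide +kernel⟩

theorem c_pm_101 : CertF 536870912 536870912 536870912 536870912 67108864 67108864 false true false .npn 1 0 1
    ndF2q1 ndF1q1 pcF0 Cut.none Ext.none :=
  certFK0 (fam := false) (s1 := true) (s2 := false) (a := 1) (b := 0) (c := 1) (cn := .npn) (n1 := ndF2q1) (n2 := ndF1q1) (pc := pcF0) (cut := Cut.none) (xt := Ext.none) (P1 := 536870912) (W1 := 536870912) (P2 := 536870912) (W2 := 536870912) (P3 := 67108864) (W3 := 67108864)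
    rfl rfl rfl k0_pm_101

noncomputable def f_pm_102_a : ℕ → ℕ → ℕ → ℕ → Bool := onCell 536870912 536870912 0 536870912 67108864 67108864
    (rowFK 0 false true false .npp 1 0 2 (qsf 536870912 536870912 0 536870912 0) ndF2q1 ndF1q2a pcF0 Cut.none Ext.none)

def k0_pm_102_a : ∃ t, chk3 f_pm_102_a t 1 1 1 = true :=
  ⟨(l 4), by decide +kernel⟩

theorem c_pm_102_a : CertF 536870912 536870912 0 536870912 67108864 67108864 false true false .npp 1 0 2
    ndF2q1 ndF1q2a pcF0 Cut.none Ext.none :=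
  certFK0 (fam := false) (s1 := true) (s2 := false) (a := 1) (b := 0) (c := 2) (cn := .npp) (n1 := ndF2q1) (n2 := ndF1q2a) (pc := pcF0) (cut := Cut.none) (xt := Ext.none) (P1 := 536870912) (W1 := 536870912) (P2 := 0) (W2 := 536870912) (P3 := 67108864) (W3 := 67108864)
    rfl rfl rfl k0_pm_102_a

noncomputable def f_pm_102_b : ℕ → ℕ → ℕ → ℕ → Bool := onCell 536870912 536870912 1239849684 370763052 67108864 67108864
    (rowFK 0 false true false .npp 1 0 2 (qsf 536870912 536870912 1239849684 370763052 0) ndF2q1 ndF1q2b pcF0 Cut.none Ext.none)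

def k0_pm_102_b : ∃ t, chk3 f_pm_102_b t 1 1 1 = true :=
  ⟨(l 4), by decide +kernel⟩

theorem c_pm_102_b : CertF 536870912 536870912 1239849684 370763052 67108864 67108864 false true false .npp 1 0 2
    ndF2q1 ndF1q2b pcF0 Cut.none Ext.none :=
  certFK0 (fam := false) (s1 := true) (s2 := false) (a := 1) (b := 0) (c := 2) (cn := .npp) (n1 := ndF2q1) (n2 := ndF1q2b) (pc := pcF0) (cut := Cut.none) (xt := Ext.none) (P1 := 536870912) (W1 := 536870912) (P2 := 1239849684) (W2 := 370763052) (P3 := 67108864) (W3 := 67108864)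
    rfl rfl rfl k0_pm_102_b

noncomputable def f_pm_112_a : ℕ → ℕ → ℕ → ℕ → Bool := onCell 536870912 536870912 0 536870912 67108864 67108864
    (rowFK 0 false true false .dn 1 1 2 (qsf 536870912 536870912 0 536870912 1) ndF2q1 ndF1q2a pcF1 Cut.none Ext.none)

def k0_pm_112_a : ∃ t, chk3 f_pm_112_a t 1 1 1 = true :=
  ⟨(l 4), by decide +kernel⟩

theorem c_pm_112_a : CertF 536870912 536870912 0 536870912 67108864 67108864 false true false .dn 1 1 2
    ndF2q1 ndF1q2a pcF1 Cut.none Ext.none :=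
  certFK0 (fam := false) (s1 := true) (s2 := false) (a := 1) (b := 1) (c := 2) (cn := .dn) (n1 := ndF2q1) (n2 := ndF1q2a) (pc := pcF1) (cut := Cut.none) (xt := Ext.none) (P1 := 536870912) (W1 := 536870912) (P2 := 0) (W2 := 536870912) (P3 := 67108864) (W3 := 67108864)
    rfl rfl rfl k0_pm_112_a

noncomputable def f_pm_112_b : ℕ → ℕ → ℕ → ℕ → Bool := onCell 536870912 536870912 1239849684 370763052 67108864 67108864
    (rowFK 0 false true false .dn 1 1 2 (qsf 536870912 536870912 1239849684 370763052 1) ndF2q1 ndF1q2b pcF1 Cut.none Ext.none)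

def k0_pm_112_b : ∃ t, chk3 f_pm_112_b t 1 1 1 = true :=
  ⟨(l 4), by decide +kernel⟩

theorem c_pm_112_b : CertF 536870912 536870912 1239849684 370763052 67108864 67108864 false true false .dn 1 1 2
    ndF2q1 ndF1q2b pcF1 Cut.none Ext.none :=
  certFK0 (fam := false) (s1 := true) (s2 := false) (a := 1) (b := 1) (c := 2) (cn := .dn) (n1 := ndF2q1) (n2 := ndF1q2b) (pc := pcF1) (cut := Cut.none) (xt := Ext.none) (P1 := 536870912) (W1 := 536870912) (P2 := 1239849684) (W2 := 370763052) (P3 := 67108864) (W3 := 67108864)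
    rfl rfl rfl k0_pm_112_b

noncomputable def f_pm_113 : ℕ → ℕ → ℕ → ℕ → Bool := onCell 536870912 536870912 1610612736 536870912 67108864 67108864
    (rowFK 0 false true false .nn 1 1 3 (qsf 536870912 536870912 1610612736 536870912 1) ndF2q1 ndF1q3 pcF1 Cut.none Ext.none)

def k0_pm_113 : ∃ t, chk3 f_pm_113 t 1 1 1 = true :=
  ⟨(a (l 4) (b (l 4) (a (l 4) (b (l 4) (a (l 4) (b (l 4) (a (l 4) (b (l 4) (l 16906536))))))))), by decide +kernel⟩

theorem c_pm_113 : CertF 536870912 536870912 1610612736 536870912 67108864 67108864 false true false .nn 1 1 3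
    ndF2q1 ndF1q3 pcF1 Cut.none Ext.none :=
  certFK0 (fam := false) (s1 := true) (s2 := false) (a := 1) (b := 1) (c := 3) (cn := .nn) (n1 := ndF2q1) (n2 := ndF1q3) (pc := pcF1) (cut := Cut.none) (xt := Ext.none) (P1 := 536870912) (W1 := 536870912) (P2 := 1610612736) (W2 := 536870912) (P3 := 67108864) (W3 := 67108864)
    rfl rfl rfl k0_pm_113

noncomputable def f_pm_123 : ℕ → ℕ → ℕ → ℕ → Bool := onCell 536870912 536870912 1610612736 536870912 67108864 67108864
    (rowFK 0 false true false .npn 1 2 3 (qsf 536870912 536870912 1610612736 536870912 2) ndF2q1 ndF1q3 pcF2 Cut.none Ext.none)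

def k0_pm_123 : ∃ t, chk3 f_pm_123 t 1 1 1 = true :=
  ⟨(a (l 4) (b (l 4) (a (l 4) (a (l 4) (a (l 4) (l 17522736)))))), by decide +kernel⟩

theorem c_pm_123 : CertF 536870912 536870912 1610612736 536870912 67108864 67108864 false true false .npn 1 2 3
    ndF2q1 ndF1q3 pcF2 Cut.none Ext.none :=
  certFK0 (fam := false) (s1 := true) (s2 := false) (a := 1) (b := 2) (c := 3) (cn := .npn) (n1 := ndF2q1) (n2 := ndF1q3) (pc := pcF2) (cut := Cut.none) (xt := Ext.none) (P1 := 536870912) (W1 := 536870912) (P2 := 1610612736) (W2 := 536870912) (P3 := 67108864) (W3 := 67108864)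
    rfl rfl rfl k0_pm_123

noncomputable def f_pm_133 : ℕ → ℕ → ℕ → ℕ → Bool := onCell 536870912 536870912 1610612736 536870912 67108864 67108864
    (rowFK 0 false true false .dn 1 3 3 (qsf 536870912 536870912 1610612736 536870912 3) ndF2q1 ndF1q3 pcF3 Cut.none Ext.none)

def k0_pm_133 : ∃ t, chk3 f_pm_133 t 1 1 1 = true :=
  ⟨(a (l 4) (l 1)), by decide +kernel⟩

theorem c_pm_133 : CertF 536870912 536870912 1610612736 536870912 67108864 67108864 false true false .dn 1 3 3
    ndF2q1 ndF1q3 pcF3 Cut.none Ext.none :=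
  certFK0 (fam := false) (s1 := true) (s2 := false) (a := 1) (b := 3) (c := 3) (cn := .dn) (n1 := ndF2q1) (n2 := ndF1q3) (pc := pcF3) (cut := Cut.none) (xt := Ext.none) (P1 := 536870912) (W1 := 536870912) (P2 := 1610612736) (W2 := 536870912) (P3 := 67108864) (W3 := 67108864)
    rfl rfl rfl k0_pm_133

noncomputable def cut_pm_202_aa : Cut := Cut.of [[⟨0, 1, 0, 67108864⟩, ⟨1, 0, 0, 67108864⟩, ⟨2, 1, 0, 67108864⟩]]

noncomputable def f_pm_202_aa : ℕ → ℕ → ℕ → ℕ → Bool := onCell 0 536870912 0 536870912 67108864 67108864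
    (rowFK 0 false true false .pp 2 0 2 (qsf 0 536870912 0 536870912 0) ndF2q2a ndF1q2a pcF0 cut_pm_202_aa Ext.none)

def k0_pm_202_aa : ∃ t, chk3 f_pm_202_aa t 1 1 1 = true :=
  ⟨(b (l 3) (b (l 3) (b (l 3) (a (l 1) (a (l 1) (a (b (l 3) (l 1)) (l 6))))))), by decide +kernel⟩

theorem c_pm_202_aa : CertF 0 536870912 0 536870912 67108864 67108864 false true false .pp 2 0 2
    ndF2q2a ndF1q2a pcF0 cut_pm_202_aa Ext.none :=
  certFK0 (fam := false) (s1 := true) (s2 := false) (a := 2) (b := 0) (c := 2) (cn := .pp) (n1 := ndF2q2a) (n2 := ndF1q2a) (pc := pcF0) (cut := cut_pm_202_aa) (xt := Ext.none) (P1 := 0) (W1 := 536870912) (P2 := 0) (W2 := 536870912) (P3 := 67108864) (W3 := 67108864)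
    rfl rfl rfl k0_pm_202_aa

noncomputable def cut_pm_202_ab : Cut := Cut.of [[⟨0, 1, 0, 67108864⟩, ⟨1, 0, 0, 67108864⟩, ⟨2, 1, 0, 67108864⟩]]

noncomputable def f_pm_202_ab : ℕ → ℕ → ℕ → ℕ → Bool := onCell 0 536870912 1239849684 370763052 67108864 67108864
    (rowFK 0 false true false .pp 2 0 2 (qsf 0 536870912 1239849684 370763052 0) ndF2q2a ndF1q2b pcF0 cut_pm_202_ab Ext.none)

def k0_pm_202_ab : ∃ t, chk3 f_pm_202_ab t 1 1 1 = true :=
  ⟨(l 3), by decide +kernel⟩

theorem c_pm_202_ab : CertF 0 536870912 1239849684 370763052 67108864 67108864 false true false .pp 2 0 2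
    ndF2q2a ndF1q2b pcF0 cut_pm_202_ab Ext.none :=
  certFK0 (fam := false) (s1 := true) (s2 := false) (a := 2) (b := 0) (c := 2) (cn := .pp) (n1 := ndF2q2a) (n2 := ndF1q2b) (pc := pcF0) (cut := cut_pm_202_ab) (xt := Ext.none) (P1 := 0) (W1 := 536870912) (P2 := 1239849684) (W2 := 370763052) (P3 := 67108864) (W3 := 67108864)
    rfl rfl rfl k0_pm_202_ab

noncomputable def cut_pm_202_ba : Cut := Cut.of [[⟨0, 1, 0, 67108864⟩, ⟨1, 0, 0, 67108864⟩, ⟨2, 1, 0, 67108864⟩]]

noncomputable def f_pm_202_ba : ℕ → ℕ → ℕ → ℕ → Bool := onCell 1239849684 370763052 0 536870912 67108864 67108864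
    (rowFK 0 false true false .pp 2 0 2 (qsf 1239849684 370763052 0 536870912 0) ndF2q2b ndF1q2a pcF0 cut_pm_202_ba Ext.none)

def k0_pm_202_ba : ∃ t, chk3 f_pm_202_ba t 1 1 1 = true :=
  ⟨(b (l 3) (l 1)), by decide +kernel⟩

theorem c_pm_202_ba : CertF 1239849684 370763052 0 536870912 67108864 67108864 false true false .pp 2 0 2
    ndF2q2b ndF1q2a pcF0 cut_pm_202_ba Ext.none :=
  certFK0 (fam := false) (s1 := true) (s2 := false) (a := 2) (b := 0) (c := 2) (cn := .pp) (n1 := ndF2q2b) (n2 := ndF1q2a) (pc := pcF0) (cut := cut_pm_202_ba) (xt := Ext.none) (P1 := 1239849684) (W1 := 370763052) (P2 := 0) (W2 := 536870912) (P3 := 67108864) (W3 := 67108864)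
    rfl rfl rfl k0_pm_202_ba

noncomputable def cut_pm_202_bb : Cut := Cut.of [[⟨0, 1, 0, 67108864⟩, ⟨1, 0, 0, 67108864⟩, ⟨2, 1, 0, 67108864⟩]]

noncomputable def f_pm_202_bb : ℕ → ℕ → ℕ → ℕ → Bool := onCell 1239849684 370763052 1239849684 370763052 67108864 67108864
    (rowFK 0 false true false .pp 2 0 2 (qsf 1239849684 370763052 1239849684 370763052 0) ndF2q2b ndF1q2b pcF0 cut_pm_202_bb Ext.none)

def k0_pm_202_bb : ∃ t, chk3 f_pm_202_bb t 1 1 1 = true :=
  ⟨(l 3), by decide +kernel⟩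

theorem c_pm_202_bb : CertF 1239849684 370763052 1239849684 370763052 67108864 67108864 false true false .pp 2 0 2
    ndF2q2b ndF1q2b pcF0 cut_pm_202_bb Ext.none :=
  certFK0 (fam := false) (s1 := true) (s2 := false) (a := 2) (b := 0) (c := 2) (cn := .pp) (n1 := ndF2q2b) (n2 := ndF1q2b) (pc := pcF0) (cut := cut_pm_202_bb) (xt := Ext.none) (P1 := 1239849684) (W1 := 370763052) (P2 := 1239849684) (W2 := 370763052) (P3 := 67108864) (W3 := 67108864)
    rfl rfl rfl k0_pm_202_bb

noncomputable def f_pm_203_a : ℕ → ℕ → ℕ → ℕ → Bool := onCell 0 536870912 0 536870912 67108864 67108864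
    (rowFK 1 false true false .up 2 0 3 (qsf 0 536870912 1610612736 536870912 0) ndF2q2a ndF1q3 pcF0 Cut.none Ext.none)

def k0_pm_203_a : ∃ t, chk3 f_pm_203_a t 1 1 1 = true :=
  ⟨(l 3), by decide +kernel⟩

theorem c_pm_203_a : CertF 0 536870912 1610612736 536870912 67108864 67108864 false true false .up 2 0 3
    ndF2q2a ndF1q3 pcF0 Cut.none Ext.none :=
  certFK1 (fam := false) (s1 := true) (s2 := false) (a := 2) (b := 0) (c := 3) (cn := .up) (n1 := ndF2q2a) (n2 := ndF1q3) (pc := pcF0) (cut := Cut.none) (xt := Ext.none) (P1 := 0) (W1 := 536870912) (P2 := 1610612736) (W2 := 536870912) (P3 := 67108864) (W3 := 67108864)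
    rfl rfl rfl (fun _ => rfl) k0_pm_203_a

noncomputable def f_pm_203_b : ℕ → ℕ → ℕ → ℕ → Bool := onCell 1239849684 370763052 1610612736 536870912 67108864 67108864
    (rowFK 0 false true false .up 2 0 3 (qsf 1239849684 370763052 1610612736 536870912 0) ndF2q2b ndF1q3 pcF0 Cut.none Ext.none)

def k0_pm_203_b : ∃ t, chk3 f_pm_203_b t 1 1 1 = true :=
  ⟨(l 3), by decide +kernel⟩

theorem c_pm_203_b : CertF 1239849684 370763052 1610612736 536870912 67108864 67108864 false true false .up 2 0 3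
    ndF2q2b ndF1q3 pcF0 Cut.none Ext.none :=
  certFK0 (fam := false) (s1 := true) (s2 := false) (a := 2) (b := 0) (c := 3) (cn := .up) (n1 := ndF2q2b) (n2 := ndF1q3) (pc := pcF0) (cut := Cut.none) (xt := Ext.none) (P1 := 1239849684) (W1 := 370763052) (P2 := 1610612736) (W2 := 536870912) (P3 := 67108864) (W3 := 67108864)
    rfl rfl rfl k0_pm_203_b

noncomputable def cut_pm_213_a : Cut := Cut.of [[⟨0, 1, 0, 21338704⟩, ⟨1, 1, 0, 21338704⟩, ⟨2, 2, 0, 1685920⟩]]

noncomputable def f_pm_213_a : ℕ → ℕ → ℕ → ℕ → Bool := onCell 0 536870912 1610612736 536870912 67108864 67108864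
    (rowFK 0 false true false .pnn 2 1 3 (qsf 0 536870912 1610612736 536870912 1) ndF2q2a ndF1q3 pcF1 cut_pm_213_a Ext.none)

def k0_pm_213_a : ∃ t, chk3 f_pm_213_a t 1 1 1 = true :=
  ⟨(a (l 3) (b (l 3) (a (l 3) (a (l 3) (b (l 3) (b (l 3) (b (l 3) (b (l 3) (a (l 3) (b (l 3) (b (l 3) (a (l 3) (b (l 3) (b (l 3) (l 6))))))))))))))), by decide +kernel⟩

theorem c_pm_213_a : CertF 0 536870912 1610612736 536870912 67108864 67108864 false true false .pnn 2 1 3
    ndF2q2a ndF1q3 pcF1 cut_pm_213_a Ext.none :=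
  certFK0 (fam := false) (s1 := true) (s2 := false) (a := 2) (b := 1) (c := 3) (cn := .pnn) (n1 := ndF2q2a) (n2 := ndF1q3) (pc := pcF1) (cut := cut_pm_213_a) (xt := Ext.none) (P1 := 0) (W1 := 536870912) (P2 := 1610612736) (W2 := 536870912) (P3 := 67108864) (W3 := 67108864)
    rfl rfl rfl k0_pm_213_a

noncomputable def cut_pm_213_b : Cut := Cut.of [[⟨0, 1, 0, 21338704⟩, ⟨1, 1, 0, 21338704⟩, ⟨2, 2, 0, 1685920⟩]]

noncomputable def f_pm_213_b : ℕ → ℕ → ℕ → ℕ → Bool := onCell 1239849684 370763052 1610612736 536870912 67108864 67108864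
    (rowFK 0 false true false .pnn 2 1 3 (qsf 1239849684 370763052 1610612736 536870912 1) ndF2q2b ndF1q3 pcF1 cut_pm_213_b Ext.none)

def k0_pm_213_b : ∃ t, chk3 f_pm_213_b t 1 1 1 = true :=
  ⟨(l 3), by decide +kernel⟩

theorem c_pm_213_b : CertF 1239849684 370763052 1610612736 536870912 67108864 67108864 false true false .pnn 2 1 3
    ndF2q2b ndF1q3 pcF1 cut_pm_213_b Ext.none :=
  certFK0 (fam := false) (s1 := true) (s2 := false) (a := 2) (b := 1) (c := 3) (cn := .pnn) (n1 := ndF2q2b) (n2 := ndF1q3) (pc := pcF1) (cut := cut_pm_213_b) (xt := Ext.none) (P1 := 1239849684) (W1 := 370763052) (P2 := 1610612736) (W2 := 536870912) (P3 := 67108864) (W3 := 67108864)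
    rfl rfl rfl k0_pm_213_b

noncomputable def f_pm_303 : ℕ → ℕ → ℕ → ℕ → Bool := onCell 1610612736 536870912 1610612736 536870912 67108864 67108864
    (rowFK 0 false true false .npn 3 0 3 (qsf 1610612736 536870912 1610612736 536870912 0) ndF2q3 ndF1q3 pcF0 Cut.none Ext.none)

def k0_pm_303 : ∃ t, chk3 f_pm_303 t 1 1 1 = true :=
  ⟨(l 3), by decide +kernel⟩

theorem c_pm_303 : CertF 1610612736 536870912 1610612736 536870912 67108864 67108864 false true false .npn 3 0 3
    ndF2q3 ndF1q3 pcF0 Cut.none Ext.none :=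
  certFK0 (fam := false) (s1 := true) (s2 := false) (a := 3) (b := 0) (c := 3) (cn := .npn) (n1 := ndF2q3) (n2 := ndF1q3) (pc := pcF0) (cut := Cut.none) (xt := Ext.none) (P1 := 1610612736) (W1 := 536870912) (P2 := 1610612736) (W2 := 536870912) (P3 := 67108864) (W3 := 67108864)
    rfl rfl rfl k0_pm_303

noncomputable def f_pm_313 : ℕ → ℕ → ℕ → ℕ → Bool := onCell 1610612736 536870912 1610612736 536870912 67108864 67108864
    (rowFK 0 false true false .dn 3 1 3 (qsf 1610612736 536870912 1610612736 536870912 1) ndF2q3 ndF1q3 pcF1 Cut.none Ext.none)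

def k0_pm_313 : ∃ t, chk3 f_pm_313 t 1 1 1 = true :=
  ⟨(l 3), by decide +kernel⟩

theorem c_pm_313 : CertF 1610612736 536870912 1610612736 536870912 67108864 67108864 false true false .dn 3 1 3
    ndF2q3 ndF1q3 pcF1 Cut.none Ext.none :=
  certFK0 (fam := false) (s1 := true) (s2 := false) (a := 3) (b := 1) (c := 3) (cn := .dn) (n1 := ndF2q3) (n2 := ndF1q3) (pc := pcF1) (cut := Cut.none) (xt := Ext.none) (P1 := 1610612736) (W1 := 536870912) (P2 := 1610612736) (W2 := 536870912) (P3 := 67108864) (W3 := 67108864)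
    rfl rfl rfl k0_pm_313

noncomputable def f_mm_001 : ℕ → ℕ → ℕ → ℕ → Bool := onCell 0 536870912 536870912 536870912 67108864 67108864
    (rowFK 0 false false false .up 0 0 1 (qsf 0 536870912 536870912 536870912 0) ndF2q0 ndF1q1 pcF0 Cut.none Ext.none)

def k0_mm_001 : ∃ t, chk3 f_mm_001 t 1 1 1 = true :=
  ⟨(l 3), by decide +kernel⟩

theorem c_mm_001 : CertF 0 536870912 536870912 536870912 67108864 67108864 false false false .up 0 0 1
    ndF2q0 ndF1q1 pcF0 Cut.none Ext.none :=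
  certFK0 (fam := false) (s1 := false) (s2 := false) (a := 0) (b := 0) (c := 1) (cn := .up) (n1 := ndF2q0) (n2 := ndF1q1) (pc := pcF0) (cut := Cut.none) (xt := Ext.none) (P1 := 0) (W1 := 536870912) (P2 := 536870912) (W2 := 536870912) (P3 := 67108864) (W3 := 67108864)
    rfl rfl rfl k0_mm_001

noncomputable def f_mm_011 : ℕ → ℕ → ℕ → ℕ → Bool := onCell 0 536870912 536870912 536870912 67108864 67108864
    (rowFK 0 false false false .pnn 0 1 1 (qsf 0 536870912 536870912 536870912 1) ndF2q0 ndF1q1 pcF1 Cut.none Ext.none)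

def k0_mm_011 : ∃ t, chk3 f_mm_011 t 1 1 1 = true :=
  ⟨(l 3), by decide +kernel⟩

theorem c_mm_011 : CertF 0 536870912 536870912 536870912 67108864 67108864 false false false .pnn 0 1 1
    ndF2q0 ndF1q1 pcF1 Cut.none Ext.none :=
  certFK0 (fam := false) (s1 := false) (s2 := false) (a := 0) (b := 1) (c := 1) (cn := .pnn) (n1 := ndF2q0) (n2 := ndF1q1) (pc := pcF1) (cut := Cut.none) (xt := Ext.none) (P1 := 0) (W1 := 536870912) (P2 := 536870912) (W2 := 536870912) (P3 := 67108864) (W3 := 67108864)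
    rfl rfl rfl k0_mm_011

noncomputable def f_mm_012_a : ℕ → ℕ → ℕ → ℕ → Bool := onCell 0 536870912 0 536870912 67108864 67108864
    (rowFK 0 false false false .pnp 0 1 2 (qsf 0 536870912 0 536870912 1) ndF2q0 ndF1q2a pcF1 Cut.none Ext.none)

def k0_mm_012_a : ∃ t, chk3 f_mm_012_a t 1 1 1 = true :=
  ⟨(l 5), by decide +kernel⟩

theorem c_mm_012_a : CertF 0 536870912 0 536870912 67108864 67108864 false false false .pnp 0 1 2
    ndF2q0 ndF1q2a pcF1 Cut.none Ext.none :=
  certFK0 (fam := false) (s1 := false) (s2 := false) (a := 0) (b := 1) (c := 2) (cn := .pnp) (n1 := ndF2q0) (n2 := ndF1q2a) (pc := pcF1) (cut := Cut.none) (xt := Ext.none) (P1 := 0) (W1 := 536870912) (P2 := 0) (W2 := 536870912) (P3 := 67108864) (W3 := 67108864)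
    rfl rfl rfl k0_mm_012_a

noncomputable def f_mm_012_b : ℕ → ℕ → ℕ → ℕ → Bool := onCell 0 536870912 1239849684 370763052 67108864 67108864
    (rowFK 0 false false false .pnp 0 1 2 (qsf 0 536870912 1239849684 370763052 1) ndF2q0 ndF1q2b pcF1 Cut.none Ext.none)

def k0_mm_012_b : ∃ t, chk3 f_mm_012_b t 1 1 1 = true :=
  ⟨(l 5), by decide +kernel⟩

theorem c_mm_012_b : CertF 0 536870912 1239849684 370763052 67108864 67108864 false false false .pnp 0 1 2
    ndF2q0 ndF1q2b pcF1 Cut.none Ext.none :=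
  certFK0 (fam := false) (s1 := false) (s2 := false) (a := 0) (b := 1) (c := 2) (cn := .pnp) (n1 := ndF2q0) (n2 := ndF1q2b) (pc := pcF1) (cut := Cut.none) (xt := Ext.none) (P1 := 0) (W1 := 536870912) (P2 := 1239849684) (W2 := 370763052) (P3 := 67108864) (W3 := 67108864)
    rfl rfl rfl k0_mm_012_b

noncomputable def f_mm_022_a : ℕ → ℕ → ℕ → ℕ → Bool := onCell 0 536870912 0 536870912 67108864 67108864
    (rowFK 0 false false false .pp 0 2 2 (qsf 0 536870912 0 536870912 2) ndF2q0 ndF1q2a pcF2 Cut.none Ext.none)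

def k0_mm_022_a : ∃ t, chk3 f_mm_022_a t 1 1 1 = true :=
  ⟨(l 5), by decide +kernel⟩

theorem c_mm_022_a : CertF 0 536870912 0 536870912 67108864 67108864 false false false .pp 0 2 2
    ndF2q0 ndF1q2a pcF2 Cut.none Ext.none :=
  certFK0 (fam := false) (s1 := false) (s2 := false) (a := 0) (b := 2) (c := 2) (cn := .pp) (n1 := ndF2q0) (n2 := ndF1q2a) (pc := pcF2) (cut := Cut.none) (xt := Ext.none) (P1 := 0) (W1 := 536870912) (P2 := 0) (W2 := 536870912) (P3 := 67108864) (W3 := 67108864)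
    rfl rfl rfl k0_mm_022_a

noncomputable def f_mm_022_b : ℕ → ℕ → ℕ → ℕ → Bool := onCell 0 536870912 1239849684 370763052 67108864 67108864
    (rowFK 0 false false false .pp 0 2 2 (qsf 0 536870912 1239849684 370763052 2) ndF2q0 ndF1q2b pcF2 Cut.none Ext.none)

def k0_mm_022_b : ∃ t, chk3 f_mm_022_b t 1 1 1 = true :=
  ⟨(l 5), by decide +kernel⟩

theorem c_mm_022_b : CertF 0 536870912 1239849684 370763052 67108864 67108864 false false false .pp 0 2 2
    ndF2q0 ndF1q2b pcF2 Cut.none Ext.none :=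
  certFK0 (fam := false) (s1 := false) (s2 := false) (a := 0) (b := 2) (c := 2) (cn := .pp) (n1 := ndF2q0) (n2 := ndF1q2b) (pc := pcF2) (cut := Cut.none) (xt := Ext.none) (P1 := 0) (W1 := 536870912) (P2 := 1239849684) (W2 := 370763052) (P3 := 67108864) (W3 := 67108864)
    rfl rfl rfl k0_mm_022_b

noncomputable def f_mm_023 : ℕ → ℕ → ℕ → ℕ → Bool := onCell 0 536870912 1610612736 536870912 67108864 67108864
    (rowFK 0 false false false .up 0 2 3 (qsf 0 536870912 1610612736 536870912 2) ndF2q0 ndF1q3 pcF2 Cut.none Ext.none)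

def k0_mm_023 : ∃ t, chk3 f_mm_023 t 1 1 1 = true :=
  ⟨(l 5), by decide +kernel⟩

theorem c_mm_023 : CertF 0 536870912 1610612736 536870912 67108864 67108864 false false false .up 0 2 3
    ndF2q0 ndF1q3 pcF2 Cut.none Ext.none :=
  certFK0 (fam := false) (s1 := false) (s2 := false) (a := 0) (b := 2) (c := 3) (cn := .up) (n1 := ndF2q0) (n2 := ndF1q3) (pc := pcF2) (cut := Cut.none) (xt := Ext.none) (P1 := 0) (W1 := 536870912) (P2 := 1610612736) (W2 := 536870912) (P3 := 67108864) (W3 := 67108864)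
    rfl rfl rfl k0_mm_023

noncomputable def f_mm_033 : ℕ → ℕ → ℕ → ℕ → Bool := onCell 0 536870912 1610612736 536870912 67108864 67108864
    (rowFK 0 false false false .pnn 0 3 3 (qsf 0 536870912 1610612736 536870912 3) ndF2q0 ndF1q3 pcF3 Cut.none Ext.none)

def k0_mm_033 : ∃ t, chk3 f_mm_033 t 1 1 1 = true :=
  ⟨(l 5), by decide +kernel⟩

theorem c_mm_033 : CertF 0 536870912 1610612736 536870912 67108864 67108864 false false false .pnn 0 3 3
    ndF2q0 ndF1q3 pcF3 Cut.none Ext.none :=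
  certFK0 (fam := false) (s1 := false) (s2 := false) (a := 0) (b := 3) (c := 3) (cn := .pnn) (n1 := ndF2q0) (n2 := ndF1q3) (pc := pcF3) (cut := Cut.none) (xt := Ext.none) (P1 := 0) (W1 := 536870912) (P2 := 1610612736) (W2 := 536870912) (P3 := 67108864) (W3 := 67108864)
    rfl rfl rfl k0_mm_033

noncomputable def f_mm_101 : ℕ → ℕ → ℕ → ℕ → Bool := onCell 536870912 536870912 536870912 536870912 67108864 67108864
    (rowFK 0 false false false .npn 1 0 1 (qsf 536870912 536870912 536870912 536870912 0) ndF2q1 ndF1q1 pcF0 Cut.none Ext.none)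

def k0_mm_101 : ∃ t, chk3 f_mm_101 t 1 1 1 = true :=
  ⟨(l 3), by decide +kernel⟩

theorem c_mm_101 : CertF 536870912 536870912 536870912 536870912 67108864 67108864 false false false .npn 1 0 1
    ndF2q1 ndF1q1 pcF0 Cut.none Ext.none :=
  certFK0 (fam := false) (s1 := false) (s2 := false) (a := 1) (b := 0) (c := 1) (cn := .npn) (n1 := ndF2q1) (n2 := ndF1q1) (pc := pcF0) (cut := Cut.none) (xt := Ext.none) (P1 := 536870912) (W1 := 536870912) (P2 := 536870912) (W2 := 536870912) (P3 := 67108864) (W3 := 67108864)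
    rfl rfl rfl k0_mm_101

noncomputable def f_mm_102_a : ℕ → ℕ → ℕ → ℕ → Bool := onCell 536870912 536870912 0 536870912 67108864 67108864
    (rowFK 0 false false false .npp 1 0 2 (qsf 536870912 536870912 0 536870912 0) ndF2q1 ndF1q2a pcF0 Cut.none Ext.none)

def k0_mm_102_a : ∃ t, chk3 f_mm_102_a t 1 1 1 = true :=
  ⟨(l 5), by decide +kernel⟩

theorem c_mm_102_a : CertF 536870912 536870912 0 536870912 67108864 67108864 false false false .npp 1 0 2
    ndF2q1 ndF1q2a pcF0 Cut.none Ext.none :=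
  certFK0 (fam := false) (s1 := false) (s2 := false) (a := 1) (b := 0) (c := 2) (cn := .npp) (n1 := ndF2q1) (n2 := ndF1q2a) (pc := pcF0) (cut := Cut.none) (xt := Ext.none) (P1 := 536870912) (W1 := 536870912) (P2 := 0) (W2 := 536870912) (P3 := 67108864) (W3 := 67108864)
    rfl rfl rfl k0_mm_102_a

noncomputable def f_mm_102_b : ℕ → ℕ → ℕ → ℕ → Bool := onCell 536870912 536870912 1239849684 370763052 67108864 67108864
    (rowFK 0 false false false .npp 1 0 2 (qsf 536870912 536870912 1239849684 370763052 0) ndF2q1 ndF1q2b pcF0 Cut.none Ext.none)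

def k0_mm_102_b : ∃ t, chk3 f_mm_102_b t 1 1 1 = true :=
  ⟨(l 5), by decide +kernel⟩

theorem c_mm_102_b : CertF 536870912 536870912 1239849684 370763052 67108864 67108864 false false false .npp 1 0 2
    ndF2q1 ndF1q2b pcF0 Cut.none Ext.none :=
  certFK0 (fam := false) (s1 := false) (s2 := false) (a := 1) (b := 0) (c := 2) (cn := .npp) (n1 := ndF2q1) (n2 := ndF1q2b) (pc := pcF0) (cut := Cut.none) (xt := Ext.none) (P1 := 536870912) (W1 := 536870912) (P2 := 1239849684) (W2 := 370763052) (P3 := 67108864) (W3 := 67108864)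
    rfl rfl rfl k0_mm_102_b

noncomputable def f_mm_112_a : ℕ → ℕ → ℕ → ℕ → Bool := onCell 536870912 536870912 0 536870912 67108864 67108864
    (rowFK 0 false false false .dn 1 1 2 (qsf 536870912 536870912 0 536870912 1) ndF2q1 ndF1q2a pcF1 Cut.none Ext.none)

def k0_mm_112_a : ∃ t, chk3 f_mm_112_a t 1 1 1 = true :=
  ⟨(l 5), by decide +kernel⟩

theorem c_mm_112_a : CertF 536870912 536870912 0 536870912 67108864 67108864 false false false .dn 1 1 2
    ndF2q1 ndF1q2a pcF1 Cut.none Ext.none :=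
  certFK0 (fam := false) (s1 := false) (s2 := false) (a := 1) (b := 1) (c := 2) (cn := .dn) (n1 := ndF2q1) (n2 := ndF1q2a) (pc := pcF1) (cut := Cut.none) (xt := Ext.none) (P1 := 536870912) (W1 := 536870912) (P2 := 0) (W2 := 536870912) (P3 := 67108864) (W3 := 67108864)
    rfl rfl rfl k0_mm_112_a

noncomputable def f_mm_112_b : ℕ → ℕ → ℕ → ℕ → Bool := onCell 536870912 536870912 1239849684 370763052 67108864 67108864
    (rowFK 0 false false false .dn 1 1 2 (qsf 536870912 536870912 1239849684 370763052 1) ndF2q1 ndF1q2b pcF1 Cut.none Ext.none)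

def k0_mm_112_b : ∃ t, chk3 f_mm_112_b t 1 1 1 = true :=
  ⟨(l 5), by decide +kernel⟩

theorem c_mm_112_b : CertF 536870912 536870912 1239849684 370763052 67108864 67108864 false false false .dn 1 1 2
    ndF2q1 ndF1q2b pcF1 Cut.none Ext.none :=
  certFK0 (fam := false) (s1 := false) (s2 := false) (a := 1) (b := 1) (c := 2) (cn := .dn) (n1 := ndF2q1) (n2 := ndF1q2b) (pc := pcF1) (cut := Cut.none) (xt := Ext.none) (P1 := 536870912) (W1 := 536870912) (P2 := 1239849684) (W2 := 370763052) (P3 := 67108864) (W3 := 67108864)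
    rfl rfl rfl k0_mm_112_b

noncomputable def f_mm_113 : ℕ → ℕ → ℕ → ℕ → Bool := onCell 536870912 536870912 1610612736 536870912 67108864 67108864
    (rowFK 0 false false false .nn 1 1 3 (qsf 536870912 536870912 1610612736 536870912 1) ndF2q1 ndF1q3 pcF1 Cut.none Ext.none)

def k0_mm_113 : ∃ t, chk3 f_mm_113 t 1 1 1 = true :=
  ⟨(l 5), by decide +kernel⟩

theorem c_mm_113 : CertF 536870912 536870912 1610612736 536870912 67108864 67108864 false false false .nn 1 1 3
    ndF2q1 ndF1q3 pcF1 Cut.none Ext.none :=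
  certFK0 (fam := false) (s1 := false) (s2 := false) (a := 1) (b := 1) (c := 3) (cn := .nn) (n1 := ndF2q1) (n2 := ndF1q3) (pc := pcF1) (cut := Cut.none) (xt := Ext.none) (P1 := 536870912) (W1 := 536870912) (P2 := 1610612736) (W2 := 536870912) (P3 := 67108864) (W3 := 67108864)
    rfl rfl rfl k0_mm_113

noncomputable def f_mm_123 : ℕ → ℕ → ℕ → ℕ → Bool := onCell 536870912 536870912 1610612736 536870912 67108864 67108864
    (rowFK 0 false false false .npn 1 2 3 (qsf 536870912 536870912 1610612736 536870912 2) ndF2q1 ndF1q3 pcF2 Cut.none Ext.none)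

def k0_mm_123 : ∃ t, chk3 f_mm_123 t 1 1 1 = true :=
  ⟨(l 5), by decide +kernel⟩

theorem c_mm_123 : CertF 536870912 536870912 1610612736 536870912 67108864 67108864 false false false .npn 1 2 3
    ndF2q1 ndF1q3 pcF2 Cut.none Ext.none :=
  certFK0 (fam := false) (s1 := false) (s2 := false) (a := 1) (b := 2) (c := 3) (cn := .npn) (n1 := ndF2q1) (n2 := ndF1q3) (pc := pcF2) (cut := Cut.none) (xt := Ext.none) (P1 := 536870912) (W1 := 536870912) (P2 := 1610612736) (W2 := 536870912) (P3 := 67108864) (W3 := 67108864)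
    rfl rfl rfl k0_mm_123

noncomputable def f_mm_133 : ℕ → ℕ → ℕ → ℕ → Bool := onCell 536870912 536870912 1610612736 536870912 67108864 67108864
    (rowFK 0 false false false .dn 1 3 3 (qsf 536870912 536870912 1610612736 536870912 3) ndF2q1 ndF1q3 pcF3 Cut.none Ext.none)

def k0_mm_133 : ∃ t, chk3 f_mm_133 t 1 1 1 = true :=
  ⟨(l 5), by decide +kernel⟩

theorem c_mm_133 : CertF 536870912 536870912 1610612736 536870912 67108864 67108864 false false false .dn 1 3 3
    ndF2q1 ndF1q3 pcF3 Cut.none Ext.none :=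
  certFK0 (fam := false) (s1 := false) (s2 := false) (a := 1) (b := 3) (c := 3) (cn := .dn) (n1 := ndF2q1) (n2 := ndF1q3) (pc := pcF3) (cut := Cut.none) (xt := Ext.none) (P1 := 536870912) (W1 := 536870912) (P2 := 1610612736) (W2 := 536870912) (P3 := 67108864) (W3 := 67108864)
    rfl rfl rfl k0_mm_133

noncomputable def f_mm_202_aa : ℕ → ℕ → ℕ → ℕ → Bool := onCell 0 536870912 0 536870912 67108864 67108864
    (rowFK 0 false false false .pp 2 0 2 (qsf 0 536870912 0 536870912 0) ndF2q2a ndF1q2a pcF0 Cut.none Ext.none)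

def k0_mm_202_aa : ∃ t, chk3 f_mm_202_aa t 1 1 1 = true :=
  ⟨(l 3), by decide +kernel⟩

theorem c_mm_202_aa : CertF 0 536870912 0 536870912 67108864 67108864 false false false .pp 2 0 2
    ndF2q2a ndF1q2a pcF0 Cut.none Ext.none :=
  certFK0 (fam := false) (s1 := false) (s2 := false) (a := 2) (b := 0) (c := 2) (cn := .pp) (n1 := ndF2q2a) (n2 := ndF1q2a) (pc := pcF0) (cut := Cut.none) (xt := Ext.none) (P1 := 0) (W1 := 536870912) (P2 := 0) (W2 := 536870912) (P3 := 67108864) (W3 := 67108864)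
    rfl rfl rfl k0_mm_202_aa

noncomputable def f_mm_202_ab : ℕ → ℕ → ℕ → ℕ → Bool := onCell 0 536870912 1239849684 370763052 67108864 67108864
    (rowFK 0 false false false .pp 2 0 2 (qsf 0 536870912 1239849684 370763052 0) ndF2q2a ndF1q2b pcF0 Cut.none Ext.none)

def k0_mm_202_ab : ∃ t, chk3 f_mm_202_ab t 1 1 1 = true :=
  ⟨(l 3), by decide +kernel⟩

theorem c_mm_202_ab : CertF 0 536870912 1239849684 370763052 67108864 67108864 false false false .pp 2 0 2
    ndF2q2a ndF1q2b pcF0 Cut.none Ext.none :=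
  certFK0 (fam := false) (s1 := false) (s2 := false) (a := 2) (b := 0) (c := 2) (cn := .pp) (n1 := ndF2q2a) (n2 := ndF1q2b) (pc := pcF0) (cut := Cut.none) (xt := Ext.none) (P1 := 0) (W1 := 536870912) (P2 := 1239849684) (W2 := 370763052) (P3 := 67108864) (W3 := 67108864)
    rfl rfl rfl k0_mm_202_ab

noncomputable def f_mm_202_ba : ℕ → ℕ → ℕ → ℕ → Bool := onCell 1239849684 370763052 0 536870912 67108864 67108864
    (rowFK 0 false false false .pp 2 0 2 (qsf 1239849684 370763052 0 536870912 0) ndF2q2b ndF1q2a pcF0 Cut.none Ext.none)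

def k0_mm_202_ba : ∃ t, chk3 f_mm_202_ba t 1 1 1 = true :=
  ⟨(l 3), by decide +kernel⟩

theorem c_mm_202_ba : CertF 1239849684 370763052 0 536870912 67108864 67108864 false false false .pp 2 0 2
    ndF2q2b ndF1q2a pcF0 Cut.none Ext.none :=
  certFK0 (fam := false) (s1 := false) (s2 := false) (a := 2) (b := 0) (c := 2) (cn := .pp) (n1 := ndF2q2b) (n2 := ndF1q2a) (pc := pcF0) (cut := Cut.none) (xt := Ext.none) (P1 := 1239849684) (W1 := 370763052) (P2 := 0) (W2 := 536870912) (P3 := 67108864) (W3 := 67108864)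
    rfl rfl rfl k0_mm_202_ba

noncomputable def f_mm_202_bb : ℕ → ℕ → ℕ → ℕ → Bool := onCell 1239849684 370763052 1239849684 370763052 67108864 67108864
    (rowFK 0 false false false .pp 2 0 2 (qsf 1239849684 370763052 1239849684 370763052 0) ndF2q2b ndF1q2b pcF0 Cut.none Ext.none)

def k0_mm_202_bb : ∃ t, chk3 f_mm_202_bb t 1 1 1 = true :=
  ⟨(l 3), by decide +kernel⟩

theorem c_mm_202_bb : CertF 1239849684 370763052 1239849684 370763052 67108864 67108864 false false false .pp 2 0 2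
    ndF2q2b ndF1q2b pcF0 Cut.none Ext.none :=
  certFK0 (fam := false) (s1 := false) (s2 := false) (a := 2) (b := 0) (c := 2) (cn := .pp) (n1 := ndF2q2b) (n2 := ndF1q2b) (pc := pcF0) (cut := Cut.none) (xt := Ext.none) (P1 := 1239849684) (W1 := 370763052) (P2 := 1239849684) (W2 := 370763052) (P3 := 67108864) (W3 := 67108864)
    rfl rfl rfl k0_mm_202_bb

noncomputable def f_mm_203_a : ℕ → ℕ → ℕ → ℕ → Bool := onCell 0 536870912 1610612736 536870912 67108864 67108864
    (rowFK 0 false false false .up 2 0 3 (qsf 0 536870912 1610612736 536870912 0) ndF2q2a ndF1q3 pcF0 Cut.none Ext.none)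

def k0_mm_203_a : ∃ t, chk3 f_mm_203_a t 1 1 1 = true :=
  ⟨(l 5), by decide +kernel⟩

theorem c_mm_203_a : CertF 0 536870912 1610612736 536870912 67108864 67108864 false false false .up 2 0 3
    ndF2q2a ndF1q3 pcF0 Cut.none Ext.none :=
  certFK0 (fam := false) (s1 := false) (s2 := false) (a := 2) (b := 0) (c := 3) (cn := .up) (n1 := ndF2q2a) (n2 := ndF1q3) (pc := pcF0) (cut := Cut.none) (xt := Ext.none) (P1 := 0) (W1 := 536870912) (P2 := 1610612736) (W2 := 536870912) (P3 := 67108864) (W3 := 67108864)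
    rfl rfl rfl k0_mm_203_a

noncomputable def f_mm_203_b : ℕ → ℕ → ℕ → ℕ → Bool := onCell 1239849684 370763052 1610612736 536870912 67108864 67108864
    (rowFK 0 false false false .up 2 0 3 (qsf 1239849684 370763052 1610612736 536870912 0) ndF2q2b ndF1q3 pcF0 Cut.none Ext.none)

def k0_mm_203_b : ∃ t, chk3 f_mm_203_b t 1 1 1 = true :=
  ⟨(l 3), by decide +kernel⟩

theorem c_mm_203_b : CertF 1239849684 370763052 1610612736 536870912 67108864 67108864 false false false .up 2 0 3
    ndF2q2b ndF1q3 pcF0 Cut.none Ext.none :=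
  certFK0 (fam := false) (s1 := false) (s2 := false) (a := 2) (b := 0) (c := 3) (cn := .up) (n1 := ndF2q2b) (n2 := ndF1q3) (pc := pcF0) (cut := Cut.none) (xt := Ext.none) (P1 := 1239849684) (W1 := 370763052) (P2 := 1610612736) (W2 := 536870912) (P3 := 67108864) (W3 := 67108864)
    rfl rfl rfl k0_mm_203_b

noncomputable def f_mm_213_a : ℕ → ℕ → ℕ → ℕ → Bool := onCell 0 536870912 1610612736 536870912 67108864 67108864
    (rowFK 0 false false false .pnn 2 1 3 (qsf 0 536870912 1610612736 536870912 1) ndF2q2a ndF1q3 pcF1 Cut.none Ext.none)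

def k0_mm_213_a : ∃ t, chk3 f_mm_213_a t 1 1 1 = true :=
  ⟨(l 5), by decide +kernel⟩

theorem c_mm_213_a : CertF 0 536870912 1610612736 536870912 67108864 67108864 false false false .pnn 2 1 3
    ndF2q2a ndF1q3 pcF1 Cut.none Ext.none :=
  certFK0 (fam := false) (s1 := false) (s2 := false) (a := 2) (b := 1) (c := 3) (cn := .pnn) (n1 := ndF2q2a) (n2 := ndF1q3) (pc := pcF1) (cut := Cut.none) (xt := Ext.none) (P1 := 0) (W1 := 536870912) (P2 := 1610612736) (W2 := 536870912) (P3 := 67108864) (W3 := 67108864)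
    rfl rfl rfl k0_mm_213_a

noncomputable def f_mm_213_b : ℕ → ℕ → ℕ → ℕ → Bool := onCell 1239849684 370763052 1610612736 536870912 67108864 67108864
    (rowFK 0 false false false .pnn 2 1 3 (qsf 1239849684 370763052 1610612736 536870912 1) ndF2q2b ndF1q3 pcF1 Cut.none Ext.none)

def k0_mm_213_b : ∃ t, chk3 f_mm_213_b t 1 1 1 = true :=
  ⟨(l 3), by decide +kernel⟩

theorem c_mm_213_b : CertF 1239849684 370763052 1610612736 536870912 67108864 67108864 false false false .pnn 2 1 3
    ndF2q2b ndF1q3 pcF1 Cut.none Ext.none :=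
  certFK0 (fam := false) (s1 := false) (s2 := false) (a := 2) (b := 1) (c := 3) (cn := .pnn) (n1 := ndF2q2b) (n2 := ndF1q3) (pc := pcF1) (cut := Cut.none) (xt := Ext.none) (P1 := 1239849684) (W1 := 370763052) (P2 := 1610612736) (W2 := 536870912) (P3 := 67108864) (W3 := 67108864)
    rfl rfl rfl k0_mm_213_b

noncomputable def f_mm_303 : ℕ → ℕ → ℕ → ℕ → Bool := onCell 1610612736 536870912 1610612736 536870912 67108864 67108864
    (rowFK 0 false false false .npn 3 0 3 (qsf 1610612736 536870912 1610612736 536870912 0) ndF2q3 ndF1q3 pcF0 Cut.none Ext.none)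

def k0_mm_303 : ∃ t, chk3 f_mm_303 t 1 1 1 = true :=
  ⟨(l 3), by decide +kernel⟩

theorem c_mm_303 : CertF 1610612736 536870912 1610612736 536870912 67108864 67108864 false false false .npn 3 0 3
    ndF2q3 ndF1q3 pcF0 Cut.none Ext.none :=
  certFK0 (fam := false) (s1 := false) (s2 := false) (a := 3) (b := 0) (c := 3) (cn := .npn) (n1 := ndF2q3) (n2 := ndF1q3) (pc := pcF0) (cut := Cut.none) (xt := Ext.none) (P1 := 1610612736) (W1 := 536870912) (P2 := 1610612736) (W2 := 536870912) (P3 := 67108864) (W3 := 67108864)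
    rfl rfl rfl k0_mm_303

noncomputable def f_mm_313 : ℕ → ℕ → ℕ → ℕ → Bool := onCell 1610612736 536870912 1610612736 536870912 67108864 67108864
    (rowFK 0 false false false .dn 3 1 3 (qsf 1610612736 536870912 1610612736 536870912 1) ndF2q3 ndF1q3 pcF1 Cut.none Ext.none)

def k0_mm_313 : ∃ t, chk3 f_mm_313 t 1 1 1 = true :=
  ⟨(l 3), by decide +kernel⟩

theorem c_mm_313 : CertF 1610612736 536870912 1610612736 536870912 67108864 67108864 false false false .dn 3 1 3
    ndF2q3 ndF1q3 pcF1 Cut.none Ext.none :=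
  certFK0 (fam := false) (s1 := false) (s2 := false) (a := 3) (b := 1) (c := 3) (cn := .dn) (n1 := ndF2q3) (n2 := ndF1q3) (pc := pcF1) (cut := Cut.none) (xt := Ext.none) (P1 := 1610612736) (W1 := 536870912) (P2 := 1610612736) (W2 := 536870912) (P3 := 67108864) (W3 := 67108864)
    rfl rfl rfl k0_mm_313

end Pool.Agent.Strip051.G.I1_16_1_8.Tab.C.FB21

namespace Pool.Agent.Strip051.G.I1_16_1_8.Tab.C.FB22

open Pool.Agent.Strip051.PB Pool.Agent.Strip051.PB.T
open Pool.Agent.Strip051.G.I1_16_1_8.Tab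

noncomputable def f_pp_001 : ℕ → ℕ → ℕ → ℕ → Bool := onCell 0 536870912 0 536870912 67108864 67108864
    (rowFK 1 false true true .up 0 0 1 (qsf 0 536870912 536870912 536870912 0) ndF2q0 ndF2q1 pcF0 Cut.none Ext.none)

def k0_pp_001 : ∃ t, chk3 f_pp_001 t 1 1 1 = true :=
  ⟨(l 3), by decide +kernel⟩

theorem c_pp_001 : CertF 0 536870912 536870912 536870912 67108864 67108864 false true true .up 0 0 1
    ndF2q0 ndF2q1 pcF0 Cut.none Ext.none :=
  certFK1 (fam := false) (s1 := true) (s2 := true) (a := 0) (b := 0) (c := 1) (cn := .up) (n1 := ndF2q0) (n2 := ndF2q1) (pc := pcF0) (cut := Cut.none) (xt := Ext.none) (P1 := 0) (W1 := 536870912) (P2 := 536870912) (W2 := 536870912) (P3 := 67108864) (W3 := 67108864)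
    rfl rfl rfl (fun _ => rfl) k0_pp_001

noncomputable def cut_pp_011 : Cut := Cut.of [[⟨0, 0, 0, 67108864⟩, ⟨1, 1, 0, 67108864⟩, ⟨2, 1, 0, 67108864⟩]]

noncomputable def f_pp_011 : ℕ → ℕ → ℕ → ℕ → Bool := onCell 0 536870912 536870912 536870912 67108864 67108864
    (rowFK 1 false true true .pnn 0 1 1 (qsf 0 536870912 536870912 536870912 1) ndF2q0 ndF2q1 pcF1 cut_pp_011 Ext.none)

def k0_pp_011 : ∃ t, chk3 f_pp_011 t 1 1 1 = true :=
  ⟨(a (b (l 3) (a (b (l 3) (a (b (l 3) (a (b (l 3) (l 6)) (l 3))) (l 3))) (l 3))) (l 3)), by decide +kernel⟩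

theorem c_pp_011 : CertF 0 536870912 536870912 536870912 67108864 67108864 false true true .pnn 0 1 1
    ndF2q0 ndF2q1 pcF1 cut_pp_011 Ext.none :=
  certFK1 (fam := false) (s1 := true) (s2 := true) (a := 0) (b := 1) (c := 1) (cn := .pnn) (n1 := ndF2q0) (n2 := ndF2q1) (pc := pcF1) (cut := cut_pp_011) (xt := Ext.none) (P1 := 0) (W1 := 536870912) (P2 := 536870912) (W2 := 536870912) (P3 := 67108864) (W3 := 67108864)
    rfl rfl rfl (fun _ => rfl) k0_pp_011

noncomputable def cut_pp_012_a : Cut := Cut.of [[⟨0, 0, 0, 67108864⟩, ⟨1, 1, 0, 67108864⟩, ⟨2, 1, 0, 67108864⟩]]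

noncomputable def f_pp_012_a : ℕ → ℕ → ℕ → ℕ → Bool := onCell 536870912 536870912 0 536870912 67108864 67108864
    (rowFK 2 false true true .pnp 0 1 2 (qsf 0 536870912 0 536870912 1) ndF2q0 ndF2q2a pcF1 cut_pp_012_a Ext.none)

def k0_pp_012_a : ∃ t, chk3 f_pp_012_a t 1 1 1 = true :=
  ⟨(a (b (a (l 18432288) (l 18378080)) (b (a (l 18392144) (l 18297984)) (b (a (l 18339992) (l 18404680)) (a (a (l 18295888) (l 18287192)) (a (l 18213240) (l 18081600)))))) (b (a (l 18116448) (a (l 17799712) (b (l 17660904) (l 17616096)))) (b (a (l 18217184) (a (l 17623912) (b (l 17548184) (a (l 17403016) (l 17314320))))) (b (a (a (l 17971392) (l 17741712)) (a (l 17717264) (a (l 17493024) (a (l 17392768) (b (l 17137728) (l 17043256)))))) (a (a (l 17893472) (l 17648640)) (a (a (l 17431872) (l 17212856)) (a (b (l 17152024) (b (l 17093928) (l 17012112))) (b (a (l 17039576) (l 6)) (l 6))))))))), by decide +kernel⟩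

theorem c_pp_012_a : CertF 0 536870912 0 536870912 67108864 67108864 false true true .pnp 0 1 2
    ndF2q0 ndF2q2a pcF1 cut_pp_012_a Ext.none :=
  certFK2 (fam := false) (s1 := true) (s2 := true) (a := 0) (b := 1) (c := 2) (cn := .pnp) (n1 := ndF2q0) (n2 := ndF2q2a) (pc := pcF1) (cut := cut_pp_012_a) (xt := Ext.none) (P1 := 0) (W1 := 536870912) (P2 := 0) (W2 := 536870912) (P3 := 67108864) (W3 := 67108864)
    rfl rfl rfl (fun _ => rfl) k0_pp_012_a

noncomputable def cut_pp_012_b : Cut := Cut.of [[⟨0, 0, 0, 67108864⟩, ⟨1, 1, 0, 67108864⟩, ⟨2, 1, 0, 67108864⟩]]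

noncomputable def f_pp_012_b : ℕ → ℕ → ℕ → ℕ → Bool := onCell 536870912 536870912 1239849684 370763052 67108864 67108864
    (rowFK 2 false true true .pnp 0 1 2 (qsf 0 536870912 1239849684 370763052 1) ndF2q0 ndF2q2b pcF1 cut_pp_012_b Ext.none)

def k0_pp_012_b : ∃ t, chk3 f_pp_012_b t 1 1 1 = true :=
  ⟨(a (b (a (l 2) (l 18291336)) (l 2)) (b (a (l 18211960) (b (a (l 17891224) (l 17734200)) (l 17900312))) (a (l 18009304) (l 17925904)))), by decide +kernel⟩

theorem c_pp_012_b : CertF 0 536870912 1239849684 370763052 67108864 67108864 false true true .pnp 0 1 2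
    ndF2q0 ndF2q2b pcF1 cut_pp_012_b Ext.none :=
  certFK2 (fam := false) (s1 := true) (s2 := true) (a := 0) (b := 1) (c := 2) (cn := .pnp) (n1 := ndF2q0) (n2 := ndF2q2b) (pc := pcF1) (cut := cut_pp_012_b) (xt := Ext.none) (P1 := 0) (W1 := 536870912) (P2 := 1239849684) (W2 := 370763052) (P3 := 67108864) (W3 := 67108864)
    rfl rfl rfl (fun _ => rfl) k0_pp_012_b

noncomputable def cut_pp_022_a : Cut := Cut.of [[⟨0, 0, 0, 67108864⟩, ⟨1, 1, 0, 67108864⟩, ⟨2, 1, 0, 67108864⟩]]

noncomputable def f_pp_022_a : ℕ → ℕ → ℕ → ℕ → Bool := onCell 0 536870912 0 536870912 67108864 67108864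
    (rowFK 0 false true true .pp 0 2 2 (qsf 0 536870912 0 536870912 2) ndF2q0 ndF2q2a pcF2 cut_pp_022_a Ext.none)

def k0_pp_022_a : ∃ t, chk3 f_pp_022_a t 2 2 1 = true :=
  ⟨(a (a (b (a (a (c (l 18416376) (a (b (l 17697920) (l 17612384)) (l 17587896))) (l 17892576)) (l 17747976)) (a (a (b (c (l 18273776) (a (b (l 17233608) (b (l 17354472) (l 17160096))) (l 17370288))) (a (c (b (l 18162832) (l 18017648)) (a (b (c (l 17458040) (b (l 17024432) (l 16820432))) (b (c (l 17317616) (l 16643072)) (c (l 17204488) (l 16584072)))) (l 17004824))) (l 17516256))) (b (l 17718760) (l 17462664))) (b (l 17594088) (l 17369496)))) (b (a (l 17648848) (l 17713928)) (a (a (l 17451336) (b (l 17564016) (l 17414544))) (b (a (l 17593008) (l 17679592)) (l 17583520))))) (b (l 17941200) (a (l 17874392) (l 1)))), by decide +kernel⟩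

def k1_pp_022_a : ∃ t, chk3 f_pp_022_a t 4 6 1 = true :=
  ⟨(a (a (b (a (a (a (c (c (b (l 18119640) (l 17877256)) (b (l 17454104) (b (l 17217016) (b (l 17107160) (b (l 17055840) (l 16941944)))))) (a (b (a (b (c (l 16935936) (l 16586224)) (l 16597904)) (l 16657400)) (b (b (l 16594328) (l 16597472)) (b (l 16606040) (l 16609560)))) (b (l 16712592) (l 16613840)))) (b (l 17082824) (l 16923312))) (b (l 17213248) (l 16894648))) (l 16996136)) (a (b (a (a (a (c (b (c (l 17640120) (b (c (l 17182288) (l 16720272)) (c (l 17070152) (l 16617672)))) (c (c (l 17613568) (a (l 17061832) (l 17242648))) (b (c (l 16736752) (l 16622328)) (l 16630096)))) (b (b (l 16615912) (a (l 16619256) (l 16609776))) (b (b (l 16620096) (l 16622224)) (b (l 16624400) (l 16627944))))) (l 16641440)) (l 16639288)) (l 16677248)) (a (a (b (a (a (a (a (c (c (c (l 17293664) (b (l 16947896) (c (l 17001200) (l 16637192)))) (b (l 16632408) (l 16638448))) (b (b (l 16627240) (l 16629584)) (b (l 16631992) (l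 16634456)))) (b (l 16628304) (l 16633080))) (l 16640592)) (l 16647896)) (l 16641520)) (a (a (b (b (c (l 16639200) (b (l 16637376) (l 16638656))) (c (l 16643040) (b (l 16639952) (l 16641264)))) (a (a (c (b (l 16645976) (l 16647976)) (b (c (l 16642528) (l 16642136)) (b (l 16644200) (l 16645576)))) (l 16648672)) (l 16641840))) (l 16658432)) (l 16652184))) (l 16703256)) (l 16768832))) (b (a (l 16672400) (l 16751168)) (b (l 16778896) (l 16886688))))) (b (a (l 16992896) (a (l 17012880) (l 17043608))) (a (b (a (l 16813840) (l 16871944)) (a (b (l 16840248) (l 16861024)) (l 16910248))) (b (a (l 16926768) (l 17004832)) (l 17000688))))) (b (a (a (b (l 17196216) (l 17074640)) (l 17276016)) (l 17529024)) (a (l 17168896) (l 17496824)))), by decide +kernel⟩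

def k2_pp_022_a : ∃ t, chk3 f_pp_022_a t 4 7 1 = true :=
  ⟨(b (b (a (a (a (b (a (a (b (a (a (a (a (b (b (c (l 16647944) (l 16646976)) (c (l 16649320) (l 16648384))) (b (c (l 16650720) (l 16649984)) (c (l 16652128) (c (l 16651480) (l 16651040))))) (l 16654272)) (l 16668416)) (l 16665248)) (l 16658904)) (a (a (a (b (b (c (l 16655632) (b (l 16653136) (l 16653544))) (c (l 16655776) (a (b (l 16653808) (l 16654552)) (l 16653184)))) (a (b (c (l 16657792) (b (l 16655304) (l 16656056))) (c (c (l 16658144) (l 16657784)) (b (l 16656816) (l 16657576)))) (l 16655912))) (l 16663848)) (l 16671192)) (l 16667288))) (l 16679928)) (l 16738736)) (b (b (b (b (a (a (a (a (a (a (c (l 16659056) (l 16658672)) (l 16657624)) (l 16656016)) (l 16652800)) (l 16652808)) (l 16673320)) (l 16714560)) (l 6)) (l 6)) (l 6)) (l 6))) (a (a (l 16865496) (l 16890664)) (b (l 16809200) (l 16835304)))) (l 16988800)) (a (l 17217856) (l 1))) (a (a (l 6) (a (l 6) (l 17141960))) (l 1))) (a (a (l 6) (a (l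 6) (l 1))) (l 1))), by decide +kernel⟩

def k3_pp_022_a : ∃ t, chk3 f_pp_022_a t 5 3 1 = true :=
  ⟨(b (l 1) (l 1)), by decide +kernel⟩

def k4_pp_022_a : ∃ t, chk3 f_pp_022_a t 3 1 1 = true :=
  ⟨(l 1), by decide +kernel⟩

theorem s5_pp_022_a : ∃ t, chk3 f_pp_022_a t 4 3 1 = true := ex3_b k1_pp_022_a k2_pp_022_a

theorem s6_pp_022_a : ∃ t, chk3 f_pp_022_a t 2 3 1 = true := ex3_a s5_pp_022_a k3_pp_022_a

theorem s7_pp_022_a : ∃ t, chk3 f_pp_022_a t 2 1 1 = true := ex3_b k0_pp_022_a s6_pp_022_a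

theorem s8_pp_022_a : ∃ t, chk3 f_pp_022_a t 1 1 1 = true := ex3_a s7_pp_022_a k4_pp_022_a

theorem c_pp_022_a : CertF 0 536870912 0 536870912 67108864 67108864 false true true .pp 0 2 2
    ndF2q0 ndF2q2a pcF2 cut_pp_022_a Ext.none :=
  certFK0 (fam := false) (s1 := true) (s2 := true) (a := 0) (b := 2) (c := 2) (cn := .pp) (n1 := ndF2q0) (n2 := ndF2q2a) (pc := pcF2) (cut := cut_pp_022_a) (xt := Ext.none) (P1 := 0) (W1 := 536870912) (P2 := 0) (W2 := 536870912) (P3 := 67108864) (W3 := 67108864)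
    rfl rfl rfl s8_pp_022_a

noncomputable def cut_pp_022_b : Cut := Cut.of [[⟨0, 0, 0, 67108864⟩, ⟨1, 1, 0, 67108864⟩, ⟨2, 1, 0, 67108864⟩]]

noncomputable def f_pp_022_b : ℕ → ℕ → ℕ → ℕ → Bool := onCell 0 536870912 1073741824 536870912 67108864 67108864
    (rowFK 1 false true true .pp 0 2 2 (qsf 0 536870912 1239849684 370763052 2) ndF2q0 ndF2q2b pcF2 cut_pp_022_b Ext.none)

def k0_pp_022_b : ∃ t, chk3 f_pp_022_b t 1 1 1 = true :=
  ⟨(a (b (a (b (b (a (l 1) (b (a (l 1) (l 17568456)) (l 526705949991))) (a (b (a (l 1) (l 556769739303)) (a (l 620657742167) (l 17811480))) (a (l 17905144) (l 17918968)))) (a (b (a (a (a (b (b (l 1) (l 213173888423)) (l 18201968)) (b (l 179350382407) (l 18349304))) (b (l 18059288) (l 18341624))) (l 18223520)) (a (l 18578464) (l 18445336))) (b (l 18157832) (l 18245240)))) (b (b (b (l 17996304) (l 17904736)) (l 17923544)) (l 18102648))) (b (a (a (l 18559728) (l 18242928)) (l 17829496)) (a (a (l 18492840) (l 18192168)) (l 17698072))))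 (b (b (b (b (l 17826136) (l 17737336)) (l 17723632)) (a (l 17574624) (l 17451872))) (b (a (l 17436192) (l 2)) (l 2)))), by decide +kernel⟩

theorem c_pp_022_b : CertF 0 536870912 1239849684 370763052 67108864 67108864 false true true .pp 0 2 2
    ndF2q0 ndF2q2b pcF2 cut_pp_022_b Ext.none :=
  certFK1 (fam := false) (s1 := true) (s2 := true) (a := 0) (b := 2) (c := 2) (cn := .pp) (n1 := ndF2q0) (n2 := ndF2q2b) (pc := pcF2) (cut := cut_pp_022_b) (xt := Ext.none) (P1 := 0) (W1 := 536870912) (P2 := 1239849684) (W2 := 370763052) (P3 := 67108864) (W3 := 67108864)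
    rfl rfl rfl (fun _ => rfl) k0_pp_022_b

noncomputable def f_pp_023 : ℕ → ℕ → ℕ → ℕ → Bool := onCell 1073741824 536870912 1610612736 536870912 67108864 67108864
    (rowFK 2 false true true .up 0 2 3 (qsf 0 536870912 1610612736 536870912 2) ndF2q0 ndF2q3 pcF2 Cut.none Ext.none)

def k0_pp_023 : ∃ t, chk3 f_pp_023 t 1 1 1 = true :=
  ⟨(a (b (b (l 18891664) (l 18233104)) (b (l 17435296) (l 2))) (b (b (a (l 18287336) (b (l 19194632) (l 18513616))) (a (l 17978040) (l 17832264))) (a (b (l 17366176) (l 16998848)) (b (l 17192568) (l 16897040))))), by decide +kernel⟩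

theorem c_pp_023 : CertF 0 536870912 1610612736 536870912 67108864 67108864 false true true .up 0 2 3
    ndF2q0 ndF2q3 pcF2 Cut.none Ext.none :=
  certFK2 (fam := false) (s1 := true) (s2 := true) (a := 0) (b := 2) (c := 3) (cn := .up) (n1 := ndF2q0) (n2 := ndF2q3) (pc := pcF2) (cut := Cut.none) (xt := Ext.none) (P1 := 0) (W1 := 536870912) (P2 := 1610612736) (W2 := 536870912) (P3 := 67108864) (W3 := 67108864)
    rfl rfl rfl (fun _ => rfl) k0_pp_023

noncomputable def f_pp_033 : ℕ → ℕ → ℕ → ℕ → Bool := onCell 0 536870912 1610612736 536870912 67108864 67108864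
    (rowFK 0 false true true .pnn 0 3 3 (qsf 0 536870912 1610612736 536870912 3) ndF2q0 ndF2q3 pcF3 Cut.none Ext.none)

def k0_pp_033 : ∃ t, chk3 f_pp_033 t 1 1 1 = true :=
  ⟨(a (b (b (a (a (b (a (l 19025816) (l 18558760)) (l 18571712)) (b (l 17953304) (l 17929288))) (b (l 1) (l 17305776))) (a (a (a (l 18610160) (l 18394112)) (l 18061736)) (b (l 17381328) (l 17479944)))) (b (b (a (a (l 18379784) (l 18050560)) (l 17552920)) (a (l 4) (a (l 17571336) (l 17334576)))) (l 4))) (b (a (b (l 1) (l 571803362487)) (l 1)) (b (a (b (l 17190408) (l 17045848)) (b (l 1) (l 17159336))) (a (l 4) (b (l 17086320) (l 4)))))), by decide +kernel⟩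

theorem c_pp_033 : CertF 0 536870912 1610612736 536870912 67108864 67108864 false true true .pnn 0 3 3
    ndF2q0 ndF2q3 pcF3 Cut.none Ext.none :=
  certFK0 (fam := false) (s1 := true) (s2 := true) (a := 0) (b := 3) (c := 3) (cn := .pnn) (n1 := ndF2q0) (n2 := ndF2q3) (pc := pcF3) (cut := Cut.none) (xt := Ext.none) (P1 := 0) (W1 := 536870912) (P2 := 1610612736) (W2 := 536870912) (P3 := 67108864) (W3 := 67108864)
    rfl rfl rfl k0_pp_033

noncomputable def f_pp_101 : ℕ → ℕ → ℕ → ℕ → Bool := onCell 536870912 536870912 536870912 536870912 67108864 67108864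
    (rowFK 0 false true true .npn 1 0 1 (qsf 536870912 536870912 536870912 536870912 0) ndF2q1 ndF2q1 pcF0 Cut.none Ext.none)

def k0_pp_101 : ∃ t, chk3 f_pp_101 t 1 1 1 = true :=
  ⟨(l 3), by decide +kernel⟩

theorem c_pp_101 : CertF 536870912 536870912 536870912 536870912 67108864 67108864 false true true .npn 1 0 1
    ndF2q1 ndF2q1 pcF0 Cut.none Ext.none :=
  certFK0 (fam := false) (s1 := true) (s2 := true) (a := 1) (b := 0) (c := 1) (cn := .npn) (n1 := ndF2q1) (n2 := ndF2q1) (pc := pcF0) (cut := Cut.none) (xt := Ext.none) (P1 := 536870912) (W1 := 536870912) (P2 := 536870912) (W2 := 536870912) (P3 := 67108864) (W3 := 67108864)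
    rfl rfl rfl k0_pp_101

noncomputable def cut_pp_102_a : Cut := Cut.of [[⟨0, 1, 0, 67108864⟩, ⟨1, 0, 0, 67108864⟩, ⟨2, 1, 0, 67108864⟩], [⟨0, 1, 2, 33554432⟩, ⟨1, 0, 1, 33554432⟩, ⟨2, 1, 0, 16777216⟩, ⟨0, 0, 0, 1023410176⟩, ⟨0, 1, 0, 150994944⟩, ⟨1, 0, 0, 150994944⟩, ⟨1, 1, 0, 1023410176⟩]]

noncomputable def f_pp_102_a : ℕ → ℕ → ℕ → ℕ → Bool := onCell 536870912 536870912 0 536870912 67108864 67108864
    (rowFK 0 false true true .npp 1 0 2 (qsf 536870912 536870912 0 536870912 0) ndF2q1 ndF2q2a pcF0 cut_pp_102_a Ext.none)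

def k0_pp_102_a : ∃ t, chk3 f_pp_102_a t 2 1 1 = true :=
  ⟨(b (a (l 17864072) (a (l 17630832) (l 17570160))) (b (a (l 18048216) (a (l 17809368) (l 17595912))) (b (a (l 18211056) (a (l 17978280) (l 17726112))) (a (a (l 18343800) (l 18294792)) (a (l 18134104) (b (l 17828536) (l 17895968))))))), by decide +kernel⟩

def k1_pp_102_a : ∃ t, chk3 f_pp_102_a t 3 2 1 = true :=
  ⟨(a (a (l 18039576) (b (l 18654952) (l 18630352))) (a (b (l 18980384) (a (l 18803576) (b (l 18889760) (l 18754648)))) (a (a (b (l 18978240) (b (l 18864960) (l 18692040))) (b (l 18968624) (b (l 18828960) (a (l 18635088) (l 18582408))))) (b (c (l 19382624) (l 18268440)) (c (b (l 19225640) (a (l 19028464) (l 18917344))) (b (a (l 18235288) (l 18003632)) (a (l 17819600) (b (l 17725208) (l 17206176))))))))), by decide +kernel⟩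

def k2_pp_102_a : ∃ t, chk3 f_pp_102_a t 6 3 1 = true :=
  ⟨(b (a (b (l 17994328) (l 17931816)) (b (a (l 18340840) (l 18557616)) (a (l 18207472) (a (l 18339472) (l 18372760))))) (b (a (b (l 17873560) (l 17815696)) (a (b (l 18077528) (l 17962664)) (b (a (l 18152224) (l 18148976)) (a (l 17944776) (b (l 18008344) (l 17899896)))))) (a (a (l 17676704) (a (l 17727168) (a (l 17751704) (l 17761736)))) (a (b (l 17835840) (a (l 17674808) (a (l 17565736) (b (l 17689224) (l 17508072))))) (b (c (a (l 18010208) (l 17977152)) (a (l 17478256) (b (l 17521112) (l 17375160)))) (a (c (b (l 17830296) (l 17696576)) (b (l 17177816) (a (b (l 17395712) (l 17327704)) (c (l 17374472) (b (l 17199136) (a (l 17179544) (l 17009016))))))) (c (b (l 17762208) (b (l 17643816) (l 17519464))) (b (c (l 17390024) (b (l 17173656) (l 16922072))) (b (c (l 17245080) (a (l 17093992) (l 16875392))) (a (c (l 17256952) (b (l 17008192) (a (l 16980672) (l 14)))) (c (b (l 17194896) (l 17118568)) (l 14)))))))))))),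 by decide +kernel⟩

def k3_pp_102_a : ∃ t, chk3 f_pp_102_a t 7 6 1 = true :=
  ⟨(a (a (b (l 18588280) (b (l 18410400) (l 18209184))) (a (b (l 18548832) (b (l 18326768) (l 18021416))) (b (l 18496016) (c (l 18535832) (b (l 17816952) (b (l 17625896) (l 17477632))))))) (a (a (b (b (l 18495224) (l 18104416)) (c (b (l 18567688) (l 18196016)) (b (a (l 17657608) (l 17523240)) (a (l 17259352) (l 16935048))))) (b (c (l 18788224) (a (l 17568352) (b (l 17796536) (l 17519152)))) (a (c (b (l 18469592) (l 18129904)) (b (l 17317448) (b (l 17062936) (l 16827192)))) (c (b (l 18378296) (b (l 18117144) (l 17904880))) (b (l 17156408) (l 16675400)))))) (b (b (c (a (l 18770896) (l 18578056)) (a (l 17519528) (a (l 17236744) (l 16949664)))) (c (a (l 18522952) (c (l 18646952) (a (l 17945080) (l 17711040)))) (a (a (l 17328840) (l 17092616)) (l 16598208)))) (b (a (c (a (l 18260264) (l 17853304)) (l 16610648)) (a (c (c (l 18325360) (l 17241024)) (l 16595856)) (l 16627320))) (b (a (a (c (l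 17956424) (l 16590960)) (l 16815592)) (a (l 16608976) (l 16615416))) (a (l 16614936) (a (l 16617720) (l 16624792)))))))), by decide +kernel⟩

def k4_pp_102_a : ∃ t, chk3 f_pp_102_a t 14 14 1 = true :=
  ⟨(a (b (a (l 18090128) (c (l 18339888) (l 17665328))) (c (b (l 18198992) (l 18066800)) (b (a (l 17629624) (l 17469240)) (a (l 17504288) (b (l 17360568) (l 17283560)))))) (b (c (a (l 18265128) (b (l 18225424) (l 18065464))) (a (b (l 17557280) (l 17408200)) (b (l 17122400) (a (l 17205584) (l 17034488))))) (a (c (b (l 18051104) (l 17841240)) (b (a (l 17307440) (l 17172720)) (b (l 17026128) (l 16931856)))) (c (b (a (l 17931776) (l 17826856)) (c (l 17925152) (a (l 17501384) (l 17158848)))) (b (a (l 17010120) (l 16812088)) (b (a (l 16851136) (l 16629768)) (l 16624336))))))), by decide +kernel⟩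

def k5_pp_102_a : ∃ t, chk3 f_pp_102_a t 14 30 1 = true :=
  ⟨(a (c (a (l 17852056) (b (l 17859856) (l 17474944))) (a (b (l 17328296) (a (l 17274296) (l 17070856))) (b (a (l 17221168) (l 17098488)) (a (l 16912832) (l 16796056))))) (a (c (b (a (l 17743696) (l 17622704)) (c (l 17590720) (a (l 17348368) (l 16957024)))) (b (a (l 16951960) (l 16775320)) (a (l 16735952) (l 16662952)))) (a (b (c (l 17267616) (l 16623896)) (b (l 16773792) (l 16732128))) (b (l 16702752) (b (b (l 16656008) (l 16663568)) (l 16700336)))))), by decide +kernel⟩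

def k6_pp_102_a : ∃ t, chk3 f_pp_102_a t 14 62 1 = true :=
  ⟨(a (c (a (l 17462688) (c (l 17662464) (a (l 17378360) (b (l 17319352) (l 17221392))))) (a (a (a (l 16967512) (l 16875480)) (b (l 17019544) (l 16838840))) (b (a (l 16894576) (l 16788136)) (a (l 14) (l 16701072))))) (a (a (c (c (l 17482080) (b (l 17192512) (l 14))) (b (l 16671784) (l 16714560))) (b (l 16739040) (a (l 16740840) (l 16719144)))) (b (a (l 16724536) (a (l 16700960) (l 16702216))) (a (c (l 14) (l 16708064)) (a (l 16711832) (l 16712960)))))), by decide +kernel⟩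

def k7_pp_102_a : ∃ t, chk3 f_pp_102_a t 14 63 2 = true :=
  ⟨(a (b (a (l 17330584) (c (l 17464432) (a (l 17198880) (b (l 17147976) (l 14))))) (a (c (l 17560128) (a (l 17339272) (b (l 17273952) (l 17188848)))) (c (a (l 17445088) (b (l 17377384) (l 17301320))) (a (c (b (l 17247200) (l 17200504)) (l 14)) (l 14))))) (c (a (b (a (l 17267368) (c (l 17320000) (l 14))) (a (c (b (l 17353112) (l 17292840)) (l 14)) (l 14))) (l 14)) (c (l 14) (c (l 14) (a (l 14) (a (l 14) (a (l 14) (a (l 14) (a (l 14) (b (l 16745712) (b (l 16740808) (b (l 16748880) (b (l 16752920) (b (l 16754944) (l 16756952))))))))))))))), by decide +kernel⟩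

def k8_pp_102_a : ∃ t, chk3 f_pp_102_a t 28 63 3 = true :=
  ⟨(c (a (b (a (l 17158288) (b (l 17073816) (l 14))) (a (c (b (l 17167904) (l 17130984)) (l 14)) (l 14))) (l 14)) (c (l 14) (a (l 14) (a (l 14) (a (l 14) (b (l 16713184) (b (l 16729704) (b (l 16737992) (a (l 14) (a (l 14) (a (l 14) (b (l 16742592) (l 16747984))))))))))))), by decide +kernel⟩

def k9_pp_102_a : ∃ t, chk3 f_pp_102_a t 58 63 3 = true :=
  ⟨(a (c (l 14) (b (l 16730272) (b (a (l 16731056) (l 16731864)) (b (a (l 16739320) (l 16740088)) (b (a (l 16743464) (l 16744208)) (c (c (l 14) (a (l 14) (a (l 14) (a (l 14) (l 16750304))))) (a (b (l 16744936) (a (a (l 16746176) (l 16746360)) (a (l 16746544) (l 16746736)))) (a (a (l 16748864) (l 16749056)) (a (l 16749256) (l 16749456)))))))))) (a (c (l 14) (b (l 16726928) (b (l 16732728) (b (l 16740904) (b (l 16745000) (b (a (l 16746984) (l 16747392)) (a (a (a (l 16750864) (l 16750968)) (a (l 16751064) (l 16751168))) (b (l 16748416) (a (l 16750344) (l 16751856))))))))))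 (b (l 16728792) (b (l 16739832) (b (l 16748008) (a (b (l 16746816) (c (l 14) (b (l 16747816) (a (l 16751072) (l 16750632))))) (b (l 16747224) (a (c (l 14) (c (l 16750688) (l 16748336))) (b (l 16749416) (c (a (l 14) (c (l 14) (l 16751352))) (l 16752376))))))))))), by decide +kernel⟩

def k10_pp_102_a : ∃ t, chk3 f_pp_102_a t 59 63 3 = true :=
  ⟨(b (a (b (l 16724120) (l 16734872)) (a (l 16731888) (l 16732992))) (b (a (a (l 16745976) (l 16746912)) (a (l 16747896) (l 16748920))) (b (a (a (l 16748864) (l 16749752)) (a (l 16752008) (c (l 16752456) (l 16750880)))) (c (a (a (c (l 14) (b (l 16753416) (b (a (l 16750192) (l 16750608)) (a (a (l 16752808) (l 16753008)) (a (l 16753216) (l 16752120)))))) (b (a (l 16749464) (l 16749896)) (b (a (l 16751504) (l 16751936)) (a (c (l 14) (a (l 16752328) (l 16752544))) (a (c (l 14) (l 16752768)) (c (c (l 14) (l 16753680)) (l 16752992))))))) (a (b (a (l 16750344) (l 16750800)) (a (b (l 16752368) (b (l 16754696) (a (a (l 16755272)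 (l 16755384)) (a (l 16755496) (l 16755608))))) (b (l 16752824) (a (a (l 16755384) (l 16755496)) (a (l 16755608) (l 16755728)))))) (b (a (l 16751264) (l 16751744)) (a (b (l 16753280) (a (a (l 16755840) (l 16755960)) (c (l 16756536) (l 16754392)))) (b (l 16753752) (b (l 16754760) (a (l 16756688) (l 16756928)))))))) (a (a (b (l 16751960) (b (a (l 16748696) (l 16749152)) (a (a (l 16752600) (l 16750200)) (a (l 16750432) (l 16750664))))) (b (l 16752888) (a (a (c (l 16753320) (l 16749744)) (l 16753080)) (a (l 16753320) (l 16753568))))) (a (b (l 16751240) (a (a (l 16753808) (l 16754064)) (a (l 16754312) (l 16754568)))) (b (c (l 16752648) (l 16749224)) (a (a (l 16754824) (l 16755088)) (a (l 16755352) (l 16755616)))))))))), by decide +kernel⟩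

def k11_pp_102_a : ∃ t, chk3 f_pp_102_a t 15 14 1 = true :=
  ⟨(a (a (a (b (c (l 17754104) (b (l 17052600) (l 16825168))) (b (c (l 17526144) (l 16615944)) (b (l 16807912) (l 16791456)))) (b (c (b (l 17988040) (l 17688904)) (b (l 16830880) (l 16614376))) (b (l 16663296) (b (l 16661976) (l 16638216))))) (b (a (b (c (l 17760136) (l 16593264)) (l 16666784)) (b (l 16806464) (l 16611776))) (a (b (b (l 16678232) (l 16637488)) (a (l 16655232) (l 16660000))) (b (l 16644688) (b (l 16630776) (l 16637376)))))) (b (a (b (a (l 16610512) (l 16619488)) (a (l 16621128) (l 16651768))) (b (a (l 16627976) (l 16648808)) (a (b (l 16635480) (l 16641672)) (a (l 16646208) (l 16671440))))) (a (b (a (l 16654752) (b (l 16638608) (l 16645368))) (b (a (l 16662392) (l 16662824)) (a (l 16648392) (l 16670160)))) (a (b (b (l 16648304) (l 16665888)) (b (c (l 16674504) (l 16671912)) (l 6))) (a (a (b (l 16680552) (l 6)) (l 6)) (l 6)))))), by decide +kernel⟩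

def k12_pp_102_a : ∃ t, chk3 f_pp_102_a t 15 15 1 = true :=
  ⟨(a (a (b (b (a (b (l 16641040) (b (l 16639144) (l 16645568))) (b (l 16644984) (l 16694112))) (a (b (l 16682032) (a (l 16682544) (l 16683984))) (b (a (l 16664872) (l 16666800)) (c (l 16687080) (l 16685112))))) (b (a (a (b (l 16703504) (l 16714128)) (b (l 16704824) (l 16715320))) (a (b (l 16706168) (l 16719168)) (b (l 16707856) (c (l 16721472) (l 16717368))))) (b (b (a (a (l 16740512) (l 16741616)) (a (l 16732264) (l 6))) (a (a (l 16735440) (l 16739104)) (l 6))) (a (a (c (c (l 14) (c (l 14) (b (l 16746472) (b (l 16754520) (a (b (l 16753392) (a (c (l 14) (b (l 16755176) (l 16757832))) (l 6))) (l 6)))))) (b (l 16749976) (b (c (l 16753424) (l 16751952)) (a (b (l 16751456) (a (b (l 16753392) (a (c (l 16755480) (l 16753880)) (l 6))) (l 6))) (l 6))))) (b (b (l 16744448) (l 6)) (l 6))) (l 6))))) (b (a (b (a (l 16656184) (l 16661352)) (b (a (b (l 16665824) (l 16673616)) (b (l 16650264) (l 16675936))) (a (l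 16688896) (b (l 16686040) (l 16675208))))) (b (b (l 16665872) (l 16673832)) (b (l 16671744) (a (l 16692856) (l 6))))) (b (b (a (a (b (l 16704224) (l 16714504)) (l 16711480)) (l 6)) (l 6)) (l 6)))) (b (a (b (a (b (l 16677256) (l 16675088)) (l 6)) (l 6)) (l 6)) (l 6))), by decide +kernel⟩

theorem s13_pp_102_a : ∃ t, chk3 f_pp_102_a t 15 7 1 = true := ex3_b k11_pp_102_a k12_pp_102_a

theorem s14_pp_102_a : ∃ t, chk3 f_pp_102_a t 29 63 3 = true := ex3_a k9_pp_102_a k10_pp_102_a

theorem s15_pp_102_a : ∃ t, chk3 f_pp_102_a t 14 63 3 = true := ex3_a k8_pp_102_a s14_pp_102_a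

theorem s16_pp_102_a : ∃ t, chk3 f_pp_102_a t 14 63 1 = true := ex3_c k7_pp_102_a s15_pp_102_a

theorem s17_pp_102_a : ∃ t, chk3 f_pp_102_a t 14 31 1 = true := ex3_b k6_pp_102_a s16_pp_102_a

theorem s18_pp_102_a : ∃ t, chk3 f_pp_102_a t 14 15 1 = true := ex3_b k5_pp_102_a s17_pp_102_a

theorem s19_pp_102_a : ∃ t, chk3 f_pp_102_a t 14 7 1 = true := ex3_b k4_pp_102_a s18_pp_102_a

theorem s20_pp_102_a : ∃ t, chk3 f_pp_102_a t 7 7 1 = true := ex3_a s19_pp_102_a s13_pp_102_a

theorem s21_pp_102_a : ∃ t, chk3 f_pp_102_a t 7 3 1 = true := ex3_b k3_pp_102_a s20_pp_102_a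

theorem s22_pp_102_a : ∃ t, chk3 f_pp_102_a t 3 3 1 = true := ex3_a k2_pp_102_a s21_pp_102_a

theorem s23_pp_102_a : ∃ t, chk3 f_pp_102_a t 3 1 1 = true := ex3_b k1_pp_102_a s22_pp_102_a

theorem s24_pp_102_a : ∃ t, chk3 f_pp_102_a t 1 1 1 = true := ex3_a k0_pp_102_a s23_pp_102_a

theorem c_pp_102_a : CertF 536870912 536870912 0 536870912 67108864 67108864 false true true .npp 1 0 2
    ndF2q1 ndF2q2a pcF0 cut_pp_102_a Ext.none :=
  certFK0 (fam := false) (s1 := true) (s2 := true) (a := 1) (b := 0) (c := 2) (cn := .npp) (n1 := ndF2q1) (n2 := ndF2q2a) (pc := pcF0) (cut := cut_pp_102_a) (xt := Ext.none) (P1 := 536870912) (W1 := 536870912) (P2 := 0) (W2 := 536870912) (P3 := 67108864) (W3 := 67108864)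
    rfl rfl rfl s24_pp_102_a

noncomputable def cut_pp_102_b : Cut := Cut.of [[⟨0, 1, 0, 67108864⟩, ⟨1, 0, 0, 67108864⟩, ⟨2, 1, 0, 67108864⟩], [⟨0, 1, 2, 33554432⟩, ⟨1, 0, 1, 33554432⟩, ⟨2, 1, 0, 16777216⟩, ⟨0, 0, 0, 1023410176⟩, ⟨0, 1, 0, 150994944⟩, ⟨1, 0, 0, 150994944⟩, ⟨1, 1, 0, 1023410176⟩]]

noncomputable def f_pp_102_b : ℕ → ℕ → ℕ → ℕ → Bool := onCell 536870912 536870912 1239849684 370763052 67108864 67108864
    (rowFK 0 false true true .npp 1 0 2 (qsf 536870912 536870912 1239849684 370763052 0) ndF2q1 ndF2q2b pcF0 cut_pp_102_b Ext.none)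

def k0_pp_102_b : ∃ t, chk3 f_pp_102_b t 1 1 1 = true :=
  ⟨(a (b (a (l 2) (b (a (l 17391096) (l 17433816)) (l 17202304))) (l 2)) (b (a (b (a (l 18009824) (l 18734400)) (a (l 17900336) (l 18731840))) (a (b (b (l 19106960) (l 19234568)) (l 19275528)) (a (b (a (l 19292256) (l 19352240)) (l 19535400)) (b (b (b (l 19085352) (l 19321000)) (l 19542400)) (l 19700000))))) (a (a (l 2) (l 18542120)) (a (l 19244848) (a (l 19360312) (l 19528528)))))), by decide +kernel⟩

theorem c_pp_102_b : CertF 536870912 536870912 1239849684 370763052 67108864 67108864 false true true .npp 1 0 2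
    ndF2q1 ndF2q2b pcF0 cut_pp_102_b Ext.none :=
  certFK0 (fam := false) (s1 := true) (s2 := true) (a := 1) (b := 0) (c := 2) (cn := .npp) (n1 := ndF2q1) (n2 := ndF2q2b) (pc := pcF0) (cut := cut_pp_102_b) (xt := Ext.none) (P1 := 536870912) (W1 := 536870912) (P2 := 1239849684) (W2 := 370763052) (P3 := 67108864) (W3 := 67108864)
    rfl rfl rfl k0_pp_102_b

noncomputable def f_pp_112_a : ℕ → ℕ → ℕ → ℕ → Bool := onCell 536870912 536870912 0 536870912 67108864 67108864
    (rowFK 2 false true true .dn 1 1 2 (qsf 536870912 536870912 0 536870912 1) ndF2q1 ndF2q2a pcF1 Cut.none Ext.none)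

def k0_pp_112_a : ∃ t, chk3 f_pp_112_a t 1 1 1 = true :=
  ⟨(a (a (b (l 17950072) (b (l 18124680) (b (l 18228144) (a (l 18330296) (l 1))))) (b (l 17922328) (b (l 1) (l 1)))) (l 1)), by decide +kernel⟩

theorem c_pp_112_a : CertF 536870912 536870912 0 536870912 67108864 67108864 false true true .dn 1 1 2
    ndF2q1 ndF2q2a pcF1 Cut.none Ext.none :=
  certFK2 (fam := false) (s1 := true) (s2 := true) (a := 1) (b := 1) (c := 2) (cn := .dn) (n1 := ndF2q1) (n2 := ndF2q2a) (pc := pcF1) (cut := Cut.none) (xt := Ext.none) (P1 := 536870912) (W1 := 536870912) (P2 := 0) (W2 := 536870912) (P3 := 67108864) (W3 := 67108864)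
    rfl rfl rfl (fun _ => rfl) k0_pp_112_a

noncomputable def f_pp_112_b : ℕ → ℕ → ℕ → ℕ → Bool := onCell 536870912 536870912 1239849684 370763052 67108864 67108864
    (rowFK 0 false true true .dn 1 1 2 (qsf 536870912 536870912 1239849684 370763052 1) ndF2q1 ndF2q2b pcF1 Cut.none Ext.none)

def k0_pp_112_b : ∃ t, chk3 f_pp_112_b t 1 1 1 = true :=
  ⟨(a (b (a (b (l 17883304) (l 17618440)) (b (a (l 17549568) (l 17454544)) (l 17155184))) (a (b (l 17585248) (l 18179920)) (b (l 16914912) (l 17086944)))) (b (a (b (l 1) (l 472483567367)) (l 1)) (a (a (l 17738360) (l 18640440)) (a (l 19239000) (a (l 19523448) (l 19700160)))))), by decide +kernel⟩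

theorem c_pp_112_b : CertF 536870912 536870912 1239849684 370763052 67108864 67108864 false true true .dn 1 1 2
    ndF2q1 ndF2q2b pcF1 Cut.none Ext.none :=
  certFK0 (fam := false) (s1 := true) (s2 := true) (a := 1) (b := 1) (c := 2) (cn := .dn) (n1 := ndF2q1) (n2 := ndF2q2b) (pc := pcF1) (cut := Cut.none) (xt := Ext.none) (P1 := 536870912) (W1 := 536870912) (P2 := 1239849684) (W2 := 370763052) (P3 := 67108864) (W3 := 67108864)
    rfl rfl rfl k0_pp_112_b

noncomputable def f_pp_113 : ℕ → ℕ → ℕ → ℕ → Bool := onCell 536870912 536870912 536870912 536870912 67108864 67108864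
    (rowFK 1 false true true .nn 1 1 3 (qsf 536870912 536870912 1610612736 536870912 1) ndF2q1 ndF2q3 pcF1 Cut.none Ext.none)

def k0_pp_113 : ∃ t, chk3 f_pp_113 t 1 1 1 = true :=
  ⟨(a (b (b (l 1) (a (l 1) (l 18337120))) (b (a (l 17505272) (l 18005936)) (b (a (l 17237032) (l 17514680)) (b (l 473018600615) (l 17819592))))) (b (a (b (l 440274093079) (l 278675560455)) (a (b (l 20581864) (l 20151664)) (a (b (l 20704960) (l 20164816)) (b (l 20744864) (l 20132464))))) (a (b (b (l 19077384) (l 18605928)) (b (l 18011440) (b (l 17525552) (l 17246032)))) (b (a (l 19134600) (a (l 18935392) (l 18782168))) (a (b (l 18022264) (b (l 17512456) (l 17221216))) (b (a (l 17737488) (l 17520432)) (a (b (l 17253680) (l 17007776)) (b (l 17073152) (l 16873176))))))))), by decide +kernel⟩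

theorem c_pp_113 : CertF 536870912 536870912 1610612736 536870912 67108864 67108864 false true true .nn 1 1 3
    ndF2q1 ndF2q3 pcF1 Cut.none Ext.none :=
  certFK1 (fam := false) (s1 := true) (s2 := true) (a := 1) (b := 1) (c := 3) (cn := .nn) (n1 := ndF2q1) (n2 := ndF2q3) (pc := pcF1) (cut := Cut.none) (xt := Ext.none) (P1 := 536870912) (W1 := 536870912) (P2 := 1610612736) (W2 := 536870912) (P3 := 67108864) (W3 := 67108864)
    rfl rfl rfl (fun _ => rfl) k0_pp_113

noncomputable def f_pp_123 : ℕ → ℕ → ℕ → ℕ → Bool := onCell 536870912 536870912 1610612736 536870912 67108864 67108864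
    (rowFK 0 false true true .npn 1 2 3 (qsf 536870912 536870912 1610612736 536870912 2) ndF2q1 ndF2q3 pcF2 Cut.none Ext.none)

def k0_pp_123 : ∃ t, chk3 f_pp_123 t 1 1 1 = true :=
  ⟨(a (b (a (b (l 18239200) (l 18906376)) (b (l 17556976) (l 18129600))) (b (a (l 19219704) (l 18612840)) (a (b (l 19149512) (l 4)) (l 18571400)))) (b (a (b (l 1) (l 822522552055)) (l 1)) (a (b (l 17538960) (l 17587832)) (a (b (l 17649096) (l 17026792)) (a (l 923452989719) (l 941169759431)))))), by decide +kernel⟩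

theorem c_pp_123 : CertF 536870912 536870912 1610612736 536870912 67108864 67108864 false true true .npn 1 2 3
    ndF2q1 ndF2q3 pcF2 Cut.none Ext.none :=
  certFK0 (fam := false) (s1 := true) (s2 := true) (a := 1) (b := 2) (c := 3) (cn := .npn) (n1 := ndF2q1) (n2 := ndF2q3) (pc := pcF2) (cut := Cut.none) (xt := Ext.none) (P1 := 536870912) (W1 := 536870912) (P2 := 1610612736) (W2 := 536870912) (P3 := 67108864) (W3 := 67108864)
    rfl rfl rfl k0_pp_123

noncomputable def f_pp_133 : ℕ → ℕ → ℕ → ℕ → Bool := onCell 1610612736 536870912 1610612736 536870912 67108864 67108864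
    (rowFK 2 false true true .dn 1 3 3 (qsf 536870912 536870912 1610612736 536870912 3) ndF2q1 ndF2q3 pcF3 Cut.none Ext.none)

def k0_pp_133 : ∃ t, chk3 f_pp_133 t 1 1 1 = true :=
  ⟨(a (b (l 1) (a (b (l 1) (l 4)) (l 1))) (l 1)), by decide +kernel⟩

theorem c_pp_133 : CertF 536870912 536870912 1610612736 536870912 67108864 67108864 false true true .dn 1 3 3
    ndF2q1 ndF2q3 pcF3 Cut.none Ext.none :=
  certFK2 (fam := false) (s1 := true) (s2 := true) (a := 1) (b := 3) (c := 3) (cn := .dn) (n1 := ndF2q1) (n2 := ndF2q3) (pc := pcF3) (cut := Cut.none) (xt := Ext.none) (P1 := 536870912) (W1 := 536870912) (P2 := 1610612736) (W2 := 536870912) (P3 := 67108864) (W3 := 67108864)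
    rfl rfl rfl (fun _ => rfl) k0_pp_133

noncomputable def f_pp_202_aa : ℕ → ℕ → ℕ → ℕ → Bool := onCell 0 536870912 0 536870912 67108864 67108864
    (rowFK 0 false true true .pp 2 0 2 (qsf 0 536870912 0 536870912 0) ndF2q2a ndF2q2a pcF0 Cut.none Ext.none)

def k0_pp_202_aa : ∃ t, chk3 f_pp_202_aa t 1 1 1 = true :=
  ⟨(l 3), by decide +kernel⟩

theorem c_pp_202_aa : CertF 0 536870912 0 536870912 67108864 67108864 false true true .pp 2 0 2
    ndF2q2a ndF2q2a pcF0 Cut.none Ext.none :=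
  certFK0 (fam := false) (s1 := true) (s2 := true) (a := 2) (b := 0) (c := 2) (cn := .pp) (n1 := ndF2q2a) (n2 := ndF2q2a) (pc := pcF0) (cut := Cut.none) (xt := Ext.none) (P1 := 0) (W1 := 536870912) (P2 := 0) (W2 := 536870912) (P3 := 67108864) (W3 := 67108864)
    rfl rfl rfl k0_pp_202_aa

noncomputable def f_pp_202_ab : ℕ → ℕ → ℕ → ℕ → Bool := onCell 0 536870912 1239849684 370763052 67108864 67108864
    (rowFK 0 false true true .pp 2 0 2 (qsf 0 536870912 1239849684 370763052 0) ndF2q2a ndF2q2b pcF0 Cut.none Ext.none)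

def k0_pp_202_ab : ∃ t, chk3 f_pp_202_ab t 1 1 1 = true :=
  ⟨(l 3), by decide +kernel⟩

theorem c_pp_202_ab : CertF 0 536870912 1239849684 370763052 67108864 67108864 false true true .pp 2 0 2
    ndF2q2a ndF2q2b pcF0 Cut.none Ext.none :=
  certFK0 (fam := false) (s1 := true) (s2 := true) (a := 2) (b := 0) (c := 2) (cn := .pp) (n1 := ndF2q2a) (n2 := ndF2q2b) (pc := pcF0) (cut := Cut.none) (xt := Ext.none) (P1 := 0) (W1 := 536870912) (P2 := 1239849684) (W2 := 370763052) (P3 := 67108864) (W3 := 67108864)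
    rfl rfl rfl k0_pp_202_ab

noncomputable def f_pp_202_ba : ℕ → ℕ → ℕ → ℕ → Bool := onCell 1239849684 370763052 0 536870912 67108864 67108864
    (rowFK 0 false true true .pp 2 0 2 (qsf 1239849684 370763052 0 536870912 0) ndF2q2b ndF2q2a pcF0 Cut.none Ext.none)

def k0_pp_202_ba : ∃ t, chk3 f_pp_202_ba t 1 1 1 = true :=
  ⟨(l 3), by decide +kernel⟩

theorem c_pp_202_ba : CertF 1239849684 370763052 0 536870912 67108864 67108864 false true true .pp 2 0 2
    ndF2q2b ndF2q2a pcF0 Cut.none Ext.none :=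
  certFK0 (fam := false) (s1 := true) (s2 := true) (a := 2) (b := 0) (c := 2) (cn := .pp) (n1 := ndF2q2b) (n2 := ndF2q2a) (pc := pcF0) (cut := Cut.none) (xt := Ext.none) (P1 := 1239849684) (W1 := 370763052) (P2 := 0) (W2 := 536870912) (P3 := 67108864) (W3 := 67108864)
    rfl rfl rfl k0_pp_202_ba

noncomputable def f_pp_202_bb : ℕ → ℕ → ℕ → ℕ → Bool := onCell 1239849684 370763052 1239849684 370763052 67108864 67108864
    (rowFK 0 false true true .pp 2 0 2 (qsf 1239849684 370763052 1239849684 370763052 0) ndF2q2b ndF2q2b pcF0 Cut.none Ext.none)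

def k0_pp_202_bb : ∃ t, chk3 f_pp_202_bb t 1 1 1 = true :=
  ⟨(l 3), by decide +kernel⟩

theorem c_pp_202_bb : CertF 1239849684 370763052 1239849684 370763052 67108864 67108864 false true true .pp 2 0 2
    ndF2q2b ndF2q2b pcF0 Cut.none Ext.none :=
  certFK0 (fam := false) (s1 := true) (s2 := true) (a := 2) (b := 0) (c := 2) (cn := .pp) (n1 := ndF2q2b) (n2 := ndF2q2b) (pc := pcF0) (cut := Cut.none) (xt := Ext.none) (P1 := 1239849684) (W1 := 370763052) (P2 := 1239849684) (W2 := 370763052) (P3 := 67108864) (W3 := 67108864)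
    rfl rfl rfl k0_pp_202_bb

noncomputable def f_pp_203_a : ℕ → ℕ → ℕ → ℕ → Bool := onCell 0 536870912 0 536870912 67108864 67108864
    (rowFK 1 false true true .up 2 0 3 (qsf 0 536870912 1610612736 536870912 0) ndF2q2a ndF2q3 pcF0 Cut.none Ext.none)

def k0_pp_203_a : ∃ t, chk3 f_pp_203_a t 1 1 1 = true :=
  ⟨(l 3), by decide +kernel⟩

theorem c_pp_203_a : CertF 0 536870912 1610612736 536870912 67108864 67108864 false true true .up 2 0 3
    ndF2q2a ndF2q3 pcF0 Cut.none Ext.none :=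
  certFK1 (fam := false) (s1 := true) (s2 := true) (a := 2) (b := 0) (c := 3) (cn := .up) (n1 := ndF2q2a) (n2 := ndF2q3) (pc := pcF0) (cut := Cut.none) (xt := Ext.none) (P1 := 0) (W1 := 536870912) (P2 := 1610612736) (W2 := 536870912) (P3 := 67108864) (W3 := 67108864)
    rfl rfl rfl (fun _ => rfl) k0_pp_203_a

noncomputable def f_pp_203_b : ℕ → ℕ → ℕ → ℕ → Bool := onCell 1239849684 370763052 1610612736 536870912 67108864 67108864
    (rowFK 0 false true true .up 2 0 3 (qsf 1239849684 370763052 1610612736 536870912 0) ndF2q2b ndF2q3 pcF0 Cut.none Ext.none)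

def k0_pp_203_b : ∃ t, chk3 f_pp_203_b t 1 1 1 = true :=
  ⟨(l 3), by decide +kernel⟩

theorem c_pp_203_b : CertF 1239849684 370763052 1610612736 536870912 67108864 67108864 false true true .up 2 0 3
    ndF2q2b ndF2q3 pcF0 Cut.none Ext.none :=
  certFK0 (fam := false) (s1 := true) (s2 := true) (a := 2) (b := 0) (c := 3) (cn := .up) (n1 := ndF2q2b) (n2 := ndF2q3) (pc := pcF0) (cut := Cut.none) (xt := Ext.none) (P1 := 1239849684) (W1 := 370763052) (P2 := 1610612736) (W2 := 536870912) (P3 := 67108864) (W3 := 67108864)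
    rfl rfl rfl k0_pp_203_b

noncomputable def cut_pp_213_a : Cut := Cut.of [[⟨0, 1, 0, 21338704⟩, ⟨1, 1, 0, 21338704⟩, ⟨2, 2, 0, 1685920⟩]]

noncomputable def f_pp_213_a : ℕ → ℕ → ℕ → ℕ → Bool := onCell 0 536870912 1610612736 536870912 67108864 67108864
    (rowFK 0 false true true .pnn 2 1 3 (qsf 0 536870912 1610612736 536870912 1) ndF2q2a ndF2q3 pcF1 cut_pp_213_a Ext.none)

def k0_pp_213_a : ∃ t, chk3 f_pp_213_a t 1 1 1 = true :=
  ⟨(a (l 3) (b (l 3) (a (l 3) (b (l 3) (a (l 3) (b (l 3) (b (l 3) (b (l 3) (b (l 3) (b (l 3) (a (l 3) (a (l 3) (b (l 3) (b (l 3) (l 6))))))))))))))), by decide +kernel⟩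

theorem c_pp_213_a : CertF 0 536870912 1610612736 536870912 67108864 67108864 false true true .pnn 2 1 3
    ndF2q2a ndF2q3 pcF1 cut_pp_213_a Ext.none :=
  certFK0 (fam := false) (s1 := true) (s2 := true) (a := 2) (b := 1) (c := 3) (cn := .pnn) (n1 := ndF2q2a) (n2 := ndF2q3) (pc := pcF1) (cut := cut_pp_213_a) (xt := Ext.none) (P1 := 0) (W1 := 536870912) (P2 := 1610612736) (W2 := 536870912) (P3 := 67108864) (W3 := 67108864)
    rfl rfl rfl k0_pp_213_a

noncomputable def cut_pp_213_b : Cut := Cut.of [[⟨0, 1, 0, 21338704⟩, ⟨1, 1, 0, 21338704⟩, ⟨2, 2, 0, 1685920⟩]]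

noncomputable def f_pp_213_b : ℕ → ℕ → ℕ → ℕ → Bool := onCell 1239849684 370763052 1610612736 536870912 67108864 67108864
    (rowFK 0 false true true .pnn 2 1 3 (qsf 1239849684 370763052 1610612736 536870912 1) ndF2q2b ndF2q3 pcF1 cut_pp_213_b Ext.none)

def k0_pp_213_b : ∃ t, chk3 f_pp_213_b t 1 1 1 = true :=
  ⟨(l 3), by decide +kernel⟩

theorem c_pp_213_b : CertF 1239849684 370763052 1610612736 536870912 67108864 67108864 false true true .pnn 2 1 3
    ndF2q2b ndF2q3 pcF1 cut_pp_213_b Ext.none :=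
  certFK0 (fam := false) (s1 := true) (s2 := true) (a := 2) (b := 1) (c := 3) (cn := .pnn) (n1 := ndF2q2b) (n2 := ndF2q3) (pc := pcF1) (cut := cut_pp_213_b) (xt := Ext.none) (P1 := 1239849684) (W1 := 370763052) (P2 := 1610612736) (W2 := 536870912) (P3 := 67108864) (W3 := 67108864)
    rfl rfl rfl k0_pp_213_b

noncomputable def f_pp_303 : ℕ → ℕ → ℕ → ℕ → Bool := onCell 1610612736 536870912 1610612736 536870912 67108864 67108864
    (rowFK 0 false true true .npn 3 0 3 (qsf 1610612736 536870912 1610612736 536870912 0) ndF2q3 ndF2q3 pcF0 Cut.none Ext.none)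

def k0_pp_303 : ∃ t, chk3 f_pp_303 t 1 1 1 = true :=
  ⟨(l 3), by decide +kernel⟩

theorem c_pp_303 : CertF 1610612736 536870912 1610612736 536870912 67108864 67108864 false true true .npn 3 0 3
    ndF2q3 ndF2q3 pcF0 Cut.none Ext.none :=
  certFK0 (fam := false) (s1 := true) (s2 := true) (a := 3) (b := 0) (c := 3) (cn := .npn) (n1 := ndF2q3) (n2 := ndF2q3) (pc := pcF0) (cut := Cut.none) (xt := Ext.none) (P1 := 1610612736) (W1 := 536870912) (P2 := 1610612736) (W2 := 536870912) (P3 := 67108864) (W3 := 67108864)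
    rfl rfl rfl k0_pp_303

noncomputable def f_pp_313 : ℕ → ℕ → ℕ → ℕ → Bool := onCell 1610612736 536870912 1610612736 536870912 67108864 67108864
    (rowFK 0 false true true .dn 3 1 3 (qsf 1610612736 536870912 1610612736 536870912 1) ndF2q3 ndF2q3 pcF1 Cut.none Ext.none)

def k0_pp_313 : ∃ t, chk3 f_pp_313 t 1 1 1 = true :=
  ⟨(l 3), by decide +kernel⟩

theorem c_pp_313 : CertF 1610612736 536870912 1610612736 536870912 67108864 67108864 false true true .dn 3 1 3
    ndF2q3 ndF2q3 pcF1 Cut.none Ext.none :=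
  certFK0 (fam := false) (s1 := true) (s2 := true) (a := 3) (b := 1) (c := 3) (cn := .dn) (n1 := ndF2q3) (n2 := ndF2q3) (pc := pcF1) (cut := Cut.none) (xt := Ext.none) (P1 := 1610612736) (W1 := 536870912) (P2 := 1610612736) (W2 := 536870912) (P3 := 67108864) (W3 := 67108864)
    rfl rfl rfl k0_pp_313

noncomputable def f_pm_001 : ℕ → ℕ → ℕ → ℕ → Bool := onCell 0 536870912 536870912 536870912 67108864 67108864
    (rowFK 0 false true false .up 0 0 1 (qsf 0 536870912 536870912 536870912 0) ndF2q0 ndF2q1 pcF0 Cut.none Ext.none)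

def k0_pm_001 : ∃ t, chk3 f_pm_001 t 1 1 1 = true :=
  ⟨(l 4), by decide +kernel⟩

theorem c_pm_001 : CertF 0 536870912 536870912 536870912 67108864 67108864 false true false .up 0 0 1
    ndF2q0 ndF2q1 pcF0 Cut.none Ext.none :=
  certFK0 (fam := false) (s1 := true) (s2 := false) (a := 0) (b := 0) (c := 1) (cn := .up) (n1 := ndF2q0) (n2 := ndF2q1) (pc := pcF0) (cut := Cut.none) (xt := Ext.none) (P1 := 0) (W1 := 536870912) (P2 := 536870912) (W2 := 536870912) (P3 := 67108864) (W3 := 67108864)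
    rfl rfl rfl k0_pm_001

noncomputable def f_pm_011 : ℕ → ℕ → ℕ → ℕ → Bool := onCell 0 536870912 536870912 536870912 67108864 67108864
    (rowFK 0 false true false .pnn 0 1 1 (qsf 0 536870912 536870912 536870912 1) ndF2q0 ndF2q1 pcF1 Cut.none Ext.none)

def k0_pm_011 : ∃ t, chk3 f_pm_011 t 1 1 1 = true :=
  ⟨(l 4), by decide +kernel⟩

theorem c_pm_011 : CertF 0 536870912 536870912 536870912 67108864 67108864 false true false .pnn 0 1 1
    ndF2q0 ndF2q1 pcF1 Cut.none Ext.none :=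
  certFK0 (fam := false) (s1 := true) (s2 := false) (a := 0) (b := 1) (c := 1) (cn := .pnn) (n1 := ndF2q0) (n2 := ndF2q1) (pc := pcF1) (cut := Cut.none) (xt := Ext.none) (P1 := 0) (W1 := 536870912) (P2 := 536870912) (W2 := 536870912) (P3 := 67108864) (W3 := 67108864)
    rfl rfl rfl k0_pm_011

noncomputable def cut_pm_012_a : Cut := Cut.of [[⟨0, 0, 0, 67108864⟩, ⟨1, 1, 0, 67108864⟩, ⟨2, 1, 0, 67108864⟩]]

noncomputable def f_pm_012_a : ℕ → ℕ → ℕ → ℕ → Bool := onCell 0 536870912 0 536870912 67108864 67108864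
    (rowFK 0 false true false .pnp 0 1 2 (qsf 0 536870912 0 536870912 1) ndF2q0 ndF2q2a pcF1 cut_pm_012_a Ext.none)

def k0_pm_012_a : ∃ t, chk3 f_pm_012_a t 1 1 1 = true :=
  ⟨(a (b (l 4) (a (b (l 4) (a (b (l 4) (a (l 6) (l 4))) (l 4))) (l 4))) (l 4)), by decide +kernel⟩

theorem c_pm_012_a : CertF 0 536870912 0 536870912 67108864 67108864 false true false .pnp 0 1 2
    ndF2q0 ndF2q2a pcF1 cut_pm_012_a Ext.none :=
  certFK0 (fam := false) (s1 := true) (s2 := false) (a := 0) (b := 1) (c := 2) (cn := .pnp) (n1 := ndF2q0) (n2 := ndF2q2a) (pc := pcF1) (cut := cut_pm_012_a) (xt := Ext.none) (P1 := 0) (W1 := 536870912) (P2 := 0) (W2 := 536870912) (P3 := 67108864) (W3 := 67108864)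
    rfl rfl rfl k0_pm_012_a

noncomputable def cut_pm_012_b : Cut := Cut.of [[⟨0, 0, 0, 67108864⟩, ⟨1, 1, 0, 67108864⟩, ⟨2, 1, 0, 67108864⟩]]

noncomputable def f_pm_012_b : ℕ → ℕ → ℕ → ℕ → Bool := onCell 0 536870912 1239849684 370763052 67108864 67108864
    (rowFK 0 false true false .pnp 0 1 2 (qsf 0 536870912 1239849684 370763052 1) ndF2q0 ndF2q2b pcF1 cut_pm_012_b Ext.none)

def k0_pm_012_b : ∃ t, chk3 f_pm_012_b t 1 1 1 = true :=
  ⟨(l 4), by decide +kernel⟩

theorem c_pm_012_b : CertF 0 536870912 1239849684 370763052 67108864 67108864 false true false .pnp 0 1 2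
    ndF2q0 ndF2q2b pcF1 cut_pm_012_b Ext.none :=
  certFK0 (fam := false) (s1 := true) (s2 := false) (a := 0) (b := 1) (c := 2) (cn := .pnp) (n1 := ndF2q0) (n2 := ndF2q2b) (pc := pcF1) (cut := cut_pm_012_b) (xt := Ext.none) (P1 := 0) (W1 := 536870912) (P2 := 1239849684) (W2 := 370763052) (P3 := 67108864) (W3 := 67108864)
    rfl rfl rfl k0_pm_012_b

noncomputable def cut_pm_022_a : Cut := Cut.of [[⟨0, 0, 0, 67108864⟩, ⟨1, 1, 0, 67108864⟩, ⟨2, 1, 0, 67108864⟩]]

noncomputable def f_pm_022_a : ℕ → ℕ → ℕ → ℕ → Bool := onCell 0 536870912 0 536870912 67108864 67108864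
    (rowFK 0 false true false .pp 0 2 2 (qsf 0 536870912 0 536870912 2) ndF2q0 ndF2q2a pcF2 cut_pm_022_a Ext.none)

def k0_pm_022_a : ∃ t, chk3 f_pm_022_a t 1 1 1 = true :=
  ⟨(a (b (l 4) (b (l 4) (b (l 4) (a (a (a (l 6) (l 4)) (l 1)) (l 1))))) (l 1)), by decide +kernel⟩

theorem c_pm_022_a : CertF 0 536870912 0 536870912 67108864 67108864 false true false .pp 0 2 2
    ndF2q0 ndF2q2a pcF2 cut_pm_022_a Ext.none :=
  certFK0 (fam := false) (s1 := true) (s2 := false) (a := 0) (b := 2) (c := 2) (cn := .pp) (n1 := ndF2q0) (n2 := ndF2q2a) (pc := pcF2) (cut := cut_pm_022_a) (xt := Ext.none) (P1 := 0) (W1 := 536870912) (P2 := 0) (W2 := 536870912) (P3 := 67108864) (W3 := 67108864)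
    rfl rfl rfl k0_pm_022_a

noncomputable def cut_pm_022_b : Cut := Cut.of [[⟨0, 0, 0, 67108864⟩, ⟨1, 1, 0, 67108864⟩, ⟨2, 1, 0, 67108864⟩]]

noncomputable def f_pm_022_b : ℕ → ℕ → ℕ → ℕ → Bool := onCell 0 536870912 1239849684 370763052 67108864 67108864
    (rowFK 0 false true false .pp 0 2 2 (qsf 0 536870912 1239849684 370763052 2) ndF2q0 ndF2q2b pcF2 cut_pm_022_b Ext.none)

def k0_pm_022_b : ∃ t, chk3 f_pm_022_b t 1 1 1 = true :=
  ⟨(l 4), by decide +kernel⟩

theorem c_pm_022_b : CertF 0 536870912 1239849684 370763052 67108864 67108864 false true false .pp 0 2 2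
    ndF2q0 ndF2q2b pcF2 cut_pm_022_b Ext.none :=
  certFK0 (fam := false) (s1 := true) (s2 := false) (a := 0) (b := 2) (c := 2) (cn := .pp) (n1 := ndF2q0) (n2 := ndF2q2b) (pc := pcF2) (cut := cut_pm_022_b) (xt := Ext.none) (P1 := 0) (W1 := 536870912) (P2 := 1239849684) (W2 := 370763052) (P3 := 67108864) (W3 := 67108864)
    rfl rfl rfl k0_pm_022_b

noncomputable def f_pm_023 : ℕ → ℕ → ℕ → ℕ → Bool := onCell 0 536870912 1610612736 536870912 67108864 67108864
    (rowFK 0 false true false .up 0 2 3 (qsf 0 536870912 1610612736 536870912 2) ndF2q0 ndF2q3 pcF2 Cut.none Ext.none)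

def k0_pm_023 : ∃ t, chk3 f_pm_023 t 1 1 1 = true :=
  ⟨(l 4), by decide +kernel⟩

theorem c_pm_023 : CertF 0 536870912 1610612736 536870912 67108864 67108864 false true false .up 0 2 3
    ndF2q0 ndF2q3 pcF2 Cut.none Ext.none :=
  certFK0 (fam := false) (s1 := true) (s2 := false) (a := 0) (b := 2) (c := 3) (cn := .up) (n1 := ndF2q0) (n2 := ndF2q3) (pc := pcF2) (cut := Cut.none) (xt := Ext.none) (P1 := 0) (W1 := 536870912) (P2 := 1610612736) (W2 := 536870912) (P3 := 67108864) (W3 := 67108864)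
    rfl rfl rfl k0_pm_023

noncomputable def f_pm_033 : ℕ → ℕ → ℕ → ℕ → Bool := onCell 0 536870912 1610612736 536870912 67108864 67108864
    (rowFK 0 false true false .pnn 0 3 3 (qsf 0 536870912 1610612736 536870912 3) ndF2q0 ndF2q3 pcF3 Cut.none Ext.none)

def k0_pm_033 : ∃ t, chk3 f_pm_033 t 1 1 1 = true :=
  ⟨(l 4), by decide +kernel⟩

theorem c_pm_033 : CertF 0 536870912 1610612736 536870912 67108864 67108864 false true false .pnn 0 3 3
    ndF2q0 ndF2q3 pcF3 Cut.none Ext.none :=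
  certFK0 (fam := false) (s1 := true) (s2 := false) (a := 0) (b := 3) (c := 3) (cn := .pnn) (n1 := ndF2q0) (n2 := ndF2q3) (pc := pcF3) (cut := Cut.none) (xt := Ext.none) (P1 := 0) (W1 := 536870912) (P2 := 1610612736) (W2 := 536870912) (P3 := 67108864) (W3 := 67108864)
    rfl rfl rfl k0_pm_033

noncomputable def f_pm_101 : ℕ → ℕ → ℕ → ℕ → Bool := onCell 536870912 536870912 536870912 536870912 67108864 67108864
    (rowFK 0 false true false .npn 1 0 1 (qsf 536870912 536870912 536870912 536870912 0) ndF2q1 ndF2q1 pcF0 Cut.none Ext.none)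

def k0_pm_101 : ∃ t, chk3 f_pm_101 t 1 1 1 = true :=
  ⟨(l 4), by decide +kernel⟩

theorem c_pm_101 : CertF 536870912 536870912 536870912 536870912 67108864 67108864 false true false .npn 1 0 1
    ndF2q1 ndF2q1 pcF0 Cut.none Ext.none :=
  certFK0 (fam := false) (s1 := true) (s2 := false) (a := 1) (b := 0) (c := 1) (cn := .npn) (n1 := ndF2q1) (n2 := ndF2q1) (pc := pcF0) (cut := Cut.none) (xt := Ext.none) (P1 := 536870912) (W1 := 536870912) (P2 := 536870912) (W2 := 536870912) (P3 := 67108864) (W3 := 67108864)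
    rfl rfl rfl k0_pm_101

noncomputable def f_pm_102_a : ℕ → ℕ → ℕ → ℕ → Bool := onCell 536870912 536870912 0 536870912 67108864 67108864
    (rowFK 0 false true false .npp 1 0 2 (qsf 536870912 536870912 0 536870912 0) ndF2q1 ndF2q2a pcF0 Cut.none Ext.none)

def k0_pm_102_a : ∃ t, chk3 f_pm_102_a t 1 1 1 = true :=
  ⟨(l 4), by decide +kernel⟩

theorem c_pm_102_a : CertF 536870912 536870912 0 536870912 67108864 67108864 false true false .npp 1 0 2
    ndF2q1 ndF2q2a pcF0 Cut.none Ext.none :=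
  certFK0 (fam := false) (s1 := true) (s2 := false) (a := 1) (b := 0) (c := 2) (cn := .npp) (n1 := ndF2q1) (n2 := ndF2q2a) (pc := pcF0) (cut := Cut.none) (xt := Ext.none) (P1 := 536870912) (W1 := 536870912) (P2 := 0) (W2 := 536870912) (P3 := 67108864) (W3 := 67108864)
    rfl rfl rfl k0_pm_102_a

noncomputable def f_pm_102_b : ℕ → ℕ → ℕ → ℕ → Bool := onCell 536870912 536870912 1239849684 370763052 67108864 67108864
    (rowFK 0 false true false .npp 1 0 2 (qsf 536870912 536870912 1239849684 370763052 0) ndF2q1 ndF2q2b pcF0 Cut.none Ext.none)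

def k0_pm_102_b : ∃ t, chk3 f_pm_102_b t 1 1 1 = true :=
  ⟨(l 4), by decide +kernel⟩

theorem c_pm_102_b : CertF 536870912 536870912 1239849684 370763052 67108864 67108864 false true false .npp 1 0 2
    ndF2q1 ndF2q2b pcF0 Cut.none Ext.none :=
  certFK0 (fam := false) (s1 := true) (s2 := false) (a := 1) (b := 0) (c := 2) (cn := .npp) (n1 := ndF2q1) (n2 := ndF2q2b) (pc := pcF0) (cut := Cut.none) (xt := Ext.none) (P1 := 536870912) (W1 := 536870912) (P2 := 1239849684) (W2 := 370763052) (P3 := 67108864) (W3 := 67108864)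
    rfl rfl rfl k0_pm_102_b

noncomputable def f_pm_112_a : ℕ → ℕ → ℕ → ℕ → Bool := onCell 536870912 536870912 0 536870912 67108864 67108864
    (rowFK 0 false true false .dn 1 1 2 (qsf 536870912 536870912 0 536870912 1) ndF2q1 ndF2q2a pcF1 Cut.none Ext.none)

def k0_pm_112_a : ∃ t, chk3 f_pm_112_a t 1 1 1 = true :=
  ⟨(l 4), by decide +kernel⟩

theorem c_pm_112_a : CertF 536870912 536870912 0 536870912 67108864 67108864 false true false .dn 1 1 2
    ndF2q1 ndF2q2a pcF1 Cut.none Ext.none :=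
  certFK0 (fam := false) (s1 := true) (s2 := false) (a := 1) (b := 1) (c := 2) (cn := .dn) (n1 := ndF2q1) (n2 := ndF2q2a) (pc := pcF1) (cut := Cut.none) (xt := Ext.none) (P1 := 536870912) (W1 := 536870912) (P2 := 0) (W2 := 536870912) (P3 := 67108864) (W3 := 67108864)
    rfl rfl rfl k0_pm_112_a

noncomputable def f_pm_112_b : ℕ → ℕ → ℕ → ℕ → Bool := onCell 536870912 536870912 1239849684 370763052 67108864 67108864
    (rowFK 0 false true false .dn 1 1 2 (qsf 536870912 536870912 1239849684 370763052 1) ndF2q1 ndF2q2b pcF1 Cut.none Ext.none)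

def k0_pm_112_b : ∃ t, chk3 f_pm_112_b t 1 1 1 = true :=
  ⟨(l 4), by decide +kernel⟩

theorem c_pm_112_b : CertF 536870912 536870912 1239849684 370763052 67108864 67108864 false true false .dn 1 1 2
    ndF2q1 ndF2q2b pcF1 Cut.none Ext.none :=
  certFK0 (fam := false) (s1 := true) (s2 := false) (a := 1) (b := 1) (c := 2) (cn := .dn) (n1 := ndF2q1) (n2 := ndF2q2b) (pc := pcF1) (cut := Cut.none) (xt := Ext.none) (P1 := 536870912) (W1 := 536870912) (P2 := 1239849684) (W2 := 370763052) (P3 := 67108864) (W3 := 67108864)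
    rfl rfl rfl k0_pm_112_b

noncomputable def f_pm_113 : ℕ → ℕ → ℕ → ℕ → Bool := onCell 536870912 536870912 1610612736 536870912 67108864 67108864
    (rowFK 0 false true false .nn 1 1 3 (qsf 536870912 536870912 1610612736 536870912 1) ndF2q1 ndF2q3 pcF1 Cut.none Ext.none)

def k0_pm_113 : ∃ t, chk3 f_pm_113 t 1 1 1 = true :=
  ⟨(a (l 4) (b (l 4) (a (l 4) (b (l 4) (a (l 4) (b (l 4) (a (l 4) (b (l 4) (l 16871416))))))))), by decide +kernel⟩

theorem c_pm_113 : CertF 536870912 536870912 1610612736 536870912 67108864 67108864 false true false .nn 1 1 3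
    ndF2q1 ndF2q3 pcF1 Cut.none Ext.none :=
  certFK0 (fam := false) (s1 := true) (s2 := false) (a := 1) (b := 1) (c := 3) (cn := .nn) (n1 := ndF2q1) (n2 := ndF2q3) (pc := pcF1) (cut := Cut.none) (xt := Ext.none) (P1 := 536870912) (W1 := 536870912) (P2 := 1610612736) (W2 := 536870912) (P3 := 67108864) (W3 := 67108864)
    rfl rfl rfl k0_pm_113

noncomputable def f_pm_123 : ℕ → ℕ → ℕ → ℕ → Bool := onCell 536870912 536870912 1610612736 536870912 67108864 67108864
    (rowFK 0 false true false .npn 1 2 3 (qsf 536870912 536870912 1610612736 536870912 2) ndF2q1 ndF2q3 pcF2 Cut.none Ext.none)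

def k0_pm_123 : ∃ t, chk3 f_pm_123 t 1 1 1 = true :=
  ⟨(a (l 4) (b (l 4) (a (l 4) (a (l 4) (a (l 17428808) (l 17174192)))))), by decide +kernel⟩

theorem c_pm_123 : CertF 536870912 536870912 1610612736 536870912 67108864 67108864 false true false .npn 1 2 3
    ndF2q1 ndF2q3 pcF2 Cut.none Ext.none :=
  certFK0 (fam := false) (s1 := true) (s2 := false) (a := 1) (b := 2) (c := 3) (cn := .npn) (n1 := ndF2q1) (n2 := ndF2q3) (pc := pcF2) (cut := Cut.none) (xt := Ext.none) (P1 := 536870912) (W1 := 536870912) (P2 := 1610612736) (W2 := 536870912) (P3 := 67108864) (W3 := 67108864)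
    rfl rfl rfl k0_pm_123

noncomputable def f_pm_133 : ℕ → ℕ → ℕ → ℕ → Bool := onCell 536870912 536870912 1610612736 536870912 67108864 67108864
    (rowFK 0 false true false .dn 1 3 3 (qsf 536870912 536870912 1610612736 536870912 3) ndF2q1 ndF2q3 pcF3 Cut.none Ext.none)

def k0_pm_133 : ∃ t, chk3 f_pm_133 t 1 1 1 = true :=
  ⟨(a (l 4) (l 1)), by decide +kernel⟩

theorem c_pm_133 : CertF 536870912 536870912 1610612736 536870912 67108864 67108864 false true false .dn 1 3 3
    ndF2q1 ndF2q3 pcF3 Cut.none Ext.none :=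
  certFK0 (fam := false) (s1 := true) (s2 := false) (a := 1) (b := 3) (c := 3) (cn := .dn) (n1 := ndF2q1) (n2 := ndF2q3) (pc := pcF3) (cut := Cut.none) (xt := Ext.none) (P1 := 536870912) (W1 := 536870912) (P2 := 1610612736) (W2 := 536870912) (P3 := 67108864) (W3 := 67108864)
    rfl rfl rfl k0_pm_133

noncomputable def cut_pm_202_aa : Cut := Cut.of [[⟨0, 1, 0, 67108864⟩, ⟨1, 0, 0, 67108864⟩, ⟨2, 1, 0, 67108864⟩], [⟨0, 1, 0, 16777216⟩, ⟨1, 0, 1, 33554432⟩, ⟨2, 1, 1, 33554432⟩, ⟨1, 0, 0, 150994944⟩, ⟨1, 1, 0, 1023410176⟩, ⟨2, 1, 0, 150994944⟩, ⟨2, 2, 0, 1023410176⟩]]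

noncomputable def f_pm_202_aa : ℕ → ℕ → ℕ → ℕ → Bool := onCell 0 536870912 0 536870912 67108864 67108864
    (rowFK 0 false true false .pp 2 0 2 (qsf 0 536870912 0 536870912 0) ndF2q2a ndF2q2a pcF0 cut_pm_202_aa Ext.none)

def k0_pm_202_aa : ∃ t, chk3 f_pm_202_aa t 2 1 1 = true :=
  ⟨(b (l 3) (b (l 3) (l 1))), by decide +kernel⟩

def k1_pm_202_aa : ∃ t, chk3 f_pm_202_aa t 3 2 1 = true :=
  ⟨(a (l 3) (a (l 3) (a (b (l 3) (l 3)) (a (b (l 3) (l 3)) (a (b (l 3) (b (l 3) (l 3))) (b (c (l 17647480) (b (b (l 17224232) (l 17174032)) (b (l 17136184) (l 17047000)))) (b (c (l 17582016) (b (b (l 17104736) (l 17062352)) (c (l 17233704) (b (l 14) (l 14))))) (c (b (l 17512624) (l 17422456)) (c (b (l 17037200) (b (l 17053296) (l 14))) (l 14)))))))))), by decide +kernel⟩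

def k2_pm_202_aa : ∃ t, chk3 f_pm_202_aa t 6 3 1 = true :=
  ⟨(b (l 3) (b (l 3) (l 1))), by decide +kernel⟩

def k3_pm_202_aa : ∃ t, chk3 f_pm_202_aa t 14 3 1 = true :=
  ⟨(b (l 3) (b (l 3) (a (l 1) (l 6)))), by decide +kernel⟩

def k4_pm_202_aa : ∃ t, chk3 f_pm_202_aa t 15 6 1 = true :=
  ⟨(a (l 3) (b (a (l 3) (a (l 3) (c (b (c (l 17485256) (b (l 17242544) (l 17159280))) (c (l 17242072) (l 14))) (b (l 14) (a (l 3) (l 14)))))) (a (l 3) (a (l 3) (a (b (l 3) (l 3)) (a (b (l 3) (l 3)) (a (b (l 3) (b (l 3) (l 3))) (a (b (b (l 3) (l 3)) (b (l 3) (l 3))) (a (b (b (l 3) (l 3)) (b (b (l 3) (l 3)) (b (l 3) (l 3)))) (c (b (c (c (l 17149688) (l 14)) (l 14)) (l 14)) (b (c (l 14) (c (b (l 14) (b (l 14) (c (l 14) (b (l 16749456) (l 16749120))))) (b (c (l 14) (b (b (l 14) (l 16746120)) (b (l 16746408) (l 16746704)))) (b (b (l 16748616) (l 16747616)) (b (l 16747944) (l 16748280)))))) (c (b (b (l 14) (b (l 14) (b (l 14) (c (l 14) (l 16751936))))) (a (b (l 3) (l 3)) (c (l 14)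 (b (b (b (l 16752200) (l 16752384)) (b (l 16752576) (l 16752768))) (b (b (l 16752960) (l 16753160)) (b (l 16753360) (l 16753568))))))) (b (b (b (b (l 16750432) (l 16749296)) (b (l 16749472) (l 16749648))) (b (b (l 16749832) (l 16750024)) (b (l 16750216) (l 16750408)))) (b (c (b (l 16751832) (l 16751576)) (b (l 16750176) (l 16750592))) (c (b (l 16751984) (l 16752408)) (b (l 16751032) (l 16751480))))))))))))))))), by decide +kernel⟩

def k5_pm_202_aa : ∃ t, chk3 f_pm_202_aa t 15 7 1 = true :=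
  ⟨(b (b (a (l 3) (a (l 3) (a (l 3) (a (l 3) (a (l 3) (a (b (l 3) (l 3)) (a (b (l 3) (l 3)) (b (a (b (l 3) (l 3)) (a (b (l 3) (l 3)) (c (l 14) (b (c (c (b (b (l 16754688) (l 16754888)) (b (l 16755088) (l 16755296))) (b (b (l 16753776) (l 16753992)) (b (l 16754208) (l 16754424)))) (c (b (l 16752936) (l 16753392)) (b (l 16752032) (l 16752512)))) (b (c (b (l 16756392) (l 16756616)) (l 16754744)) (c (b (l 16755528) (l 16755760)) (l 16755248))))))) (b (b (b (b (c (c (l 14) (c (l 14) (l 16756920))) (c (l 16755712) (l 16754096))) (l 6)) (l 6)) (l 6)) (l 6)))))))))) (l 6)) (l 6)), by decide +kernel⟩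

theorem s6_pm_202_aa : ∃ t, chk3 f_pm_202_aa t 15 3 1 = true := ex3_b k4_pm_202_aa k5_pm_202_aa

theorem s7_pm_202_aa : ∃ t, chk3 f_pm_202_aa t 7 3 1 = true := ex3_a k3_pm_202_aa s6_pm_202_aa

theorem s8_pm_202_aa : ∃ t, chk3 f_pm_202_aa t 3 3 1 = true := ex3_a k2_pm_202_aa s7_pm_202_aa

theorem s9_pm_202_aa : ∃ t, chk3 f_pm_202_aa t 3 1 1 = true := ex3_b k1_pm_202_aa s8_pm_202_aa

theorem s10_pm_202_aa : ∃ t, chk3 f_pm_202_aa t 1 1 1 = true := ex3_a k0_pm_202_aa s9_pm_202_aa

theorem c_pm_202_aa : CertF 0 536870912 0 536870912 67108864 67108864 false true false .pp 2 0 2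
    ndF2q2a ndF2q2a pcF0 cut_pm_202_aa Ext.none :=
  certFK0 (fam := false) (s1 := true) (s2 := false) (a := 2) (b := 0) (c := 2) (cn := .pp) (n1 := ndF2q2a) (n2 := ndF2q2a) (pc := pcF0) (cut := cut_pm_202_aa) (xt := Ext.none) (P1 := 0) (W1 := 536870912) (P2 := 0) (W2 := 536870912) (P3 := 67108864) (W3 := 67108864)
    rfl rfl rfl s10_pm_202_aa

noncomputable def cut_pm_202_ab : Cut := Cut.of [[⟨0, 1, 0, 67108864⟩, ⟨1, 0, 0, 67108864⟩, ⟨2, 1, 0, 67108864⟩], [⟨0, 1, 0, 16777216⟩, ⟨1, 0, 1, 33554432⟩, ⟨2, 1, 1, 33554432⟩, ⟨1, 0, 0, 150994944⟩, ⟨1, 1, 0, 1023410176⟩, ⟨2, 1, 0, 150994944⟩, ⟨2, 2, 0, 1023410176⟩]]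

noncomputable def f_pm_202_ab : ℕ → ℕ → ℕ → ℕ → Bool := onCell 0 536870912 1239849684 370763052 67108864 67108864
    (rowFK 0 false true false .pp 2 0 2 (qsf 0 536870912 1239849684 370763052 0) ndF2q2a ndF2q2b pcF0 cut_pm_202_ab Ext.none)

def k0_pm_202_ab : ∃ t, chk3 f_pm_202_ab t 1 1 1 = true :=
  ⟨(a (b (l 3) (l 3)) (b (a (b (l 3) (l 3)) (a (b (l 3) (l 3)) (a (b (l 3) (l 3)) (b (a (a (l 3) (l 3)) (c (b (l 17777496) (l 17916376)) (b (a (l 3) (b (b (b (l 17182104) (l 17281768)) (l 17353856)) (l 17464616))) (l 17548944)))) (b (l 17884872) (l 17945728)))))) (a (l 3) (a (l 3) (b (l 17993416) (l 17940280)))))), by decide +kernel⟩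

theorem c_pm_202_ab : CertF 0 536870912 1239849684 370763052 67108864 67108864 false true false .pp 2 0 2
    ndF2q2a ndF2q2b pcF0 cut_pm_202_ab Ext.none :=
  certFK0 (fam := false) (s1 := true) (s2 := false) (a := 2) (b := 0) (c := 2) (cn := .pp) (n1 := ndF2q2a) (n2 := ndF2q2b) (pc := pcF0) (cut := cut_pm_202_ab) (xt := Ext.none) (P1 := 0) (W1 := 536870912) (P2 := 1239849684) (W2 := 370763052) (P3 := 67108864) (W3 := 67108864)
    rfl rfl rfl k0_pm_202_ab

noncomputable def cut_pm_202_ba : Cut := Cut.of [[⟨0, 1, 0, 67108864⟩, ⟨1, 0, 0, 67108864⟩, ⟨2, 1, 0, 67108864⟩], [⟨0, 1, 0, 16777216⟩, ⟨1, 0, 1, 33554432⟩, ⟨2, 1, 1, 33554432⟩, ⟨1, 0, 0, 150994944⟩, ⟨1, 1, 0, 1023410176⟩, ⟨2, 1, 0, 150994944⟩, ⟨2, 2, 0, 1023410176⟩]]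

noncomputable def f_pm_202_ba : ℕ → ℕ → ℕ → ℕ → Bool := onCell 1239849684 370763052 0 536870912 67108864 67108864
    (rowFK 0 false true false .pp 2 0 2 (qsf 1239849684 370763052 0 536870912 0) ndF2q2b ndF2q2a pcF0 cut_pm_202_ba Ext.none)

def k0_pm_202_ba : ∃ t, chk3 f_pm_202_ba t 1 1 1 = true :=
  ⟨(b (a (l 3) (l 1)) (l 1)), by decide +kernel⟩

theorem c_pm_202_ba : CertF 1239849684 370763052 0 536870912 67108864 67108864 false true false .pp 2 0 2
    ndF2q2b ndF2q2a pcF0 cut_pm_202_ba Ext.none :=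
  certFK0 (fam := false) (s1 := true) (s2 := false) (a := 2) (b := 0) (c := 2) (cn := .pp) (n1 := ndF2q2b) (n2 := ndF2q2a) (pc := pcF0) (cut := cut_pm_202_ba) (xt := Ext.none) (P1 := 1239849684) (W1 := 370763052) (P2 := 0) (W2 := 536870912) (P3 := 67108864) (W3 := 67108864)
    rfl rfl rfl k0_pm_202_ba

noncomputable def cut_pm_202_bb : Cut := Cut.of [[⟨0, 1, 0, 67108864⟩, ⟨1, 0, 0, 67108864⟩, ⟨2, 1, 0, 67108864⟩], [⟨0, 1, 0, 16777216⟩, ⟨1, 0, 1, 33554432⟩, ⟨2, 1, 1, 33554432⟩, ⟨1, 0, 0, 150994944⟩, ⟨1, 1, 0, 1023410176⟩, ⟨2, 1, 0, 150994944⟩, ⟨2, 2, 0, 1023410176⟩]]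

noncomputable def f_pm_202_bb : ℕ → ℕ → ℕ → ℕ → Bool := onCell 1239849684 370763052 1239849684 370763052 67108864 67108864
    (rowFK 0 false true false .pp 2 0 2 (qsf 1239849684 370763052 1239849684 370763052 0) ndF2q2b ndF2q2b pcF0 cut_pm_202_bb Ext.none)

def k0_pm_202_bb : ∃ t, chk3 f_pm_202_bb t 1 1 1 = true :=
  ⟨(a (b (a (l 3) (l 3)) (l 3)) (b (l 3) (l 3))), by decide +kernel⟩

theorem c_pm_202_bb : CertF 1239849684 370763052 1239849684 370763052 67108864 67108864 false true false .pp 2 0 2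
    ndF2q2b ndF2q2b pcF0 cut_pm_202_bb Ext.none :=
  certFK0 (fam := false) (s1 := true) (s2 := false) (a := 2) (b := 0) (c := 2) (cn := .pp) (n1 := ndF2q2b) (n2 := ndF2q2b) (pc := pcF0) (cut := cut_pm_202_bb) (xt := Ext.none) (P1 := 1239849684) (W1 := 370763052) (P2 := 1239849684) (W2 := 370763052) (P3 := 67108864) (W3 := 67108864)
    rfl rfl rfl k0_pm_202_bb

noncomputable def f_pm_203_a : ℕ → ℕ → ℕ → ℕ → Bool := onCell 0 536870912 0 536870912 67108864 67108864
    (rowFK 1 false true false .up 2 0 3 (qsf 0 536870912 1610612736 536870912 0) ndF2q2a ndF2q3 pcF0 Cut.none Ext.none)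

def k0_pm_203_a : ∃ t, chk3 f_pm_203_a t 1 1 1 = true :=
  ⟨(b (l 1) (a (l 3) (a (l 3) (b (l 1) (a (l 3) (l 134791265303)))))), by decide +kernel⟩

theorem c_pm_203_a : CertF 0 536870912 1610612736 536870912 67108864 67108864 false true false .up 2 0 3
    ndF2q2a ndF2q3 pcF0 Cut.none Ext.none :=
  certFK1 (fam := false) (s1 := true) (s2 := false) (a := 2) (b := 0) (c := 3) (cn := .up) (n1 := ndF2q2a) (n2 := ndF2q3) (pc := pcF0) (cut := Cut.none) (xt := Ext.none) (P1 := 0) (W1 := 536870912) (P2 := 1610612736) (W2 := 536870912) (P3 := 67108864) (W3 := 67108864)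
    rfl rfl rfl (fun _ => rfl) k0_pm_203_a

noncomputable def f_pm_203_b : ℕ → ℕ → ℕ → ℕ → Bool := onCell 1239849684 370763052 1610612736 536870912 67108864 67108864
    (rowFK 0 false true false .up 2 0 3 (qsf 1239849684 370763052 1610612736 536870912 0) ndF2q2b ndF2q3 pcF0 Cut.none Ext.none)

def k0_pm_203_b : ∃ t, chk3 f_pm_203_b t 1 1 1 = true :=
  ⟨(b (a (l 3) (l 3)) (l 3)), by decide +kernel⟩

theorem c_pm_203_b : CertF 1239849684 370763052 1610612736 536870912 67108864 67108864 false true false .up 2 0 3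
    ndF2q2b ndF2q3 pcF0 Cut.none Ext.none :=
  certFK0 (fam := false) (s1 := true) (s2 := false) (a := 2) (b := 0) (c := 3) (cn := .up) (n1 := ndF2q2b) (n2 := ndF2q3) (pc := pcF0) (cut := Cut.none) (xt := Ext.none) (P1 := 1239849684) (W1 := 370763052) (P2 := 1610612736) (W2 := 536870912) (P3 := 67108864) (W3 := 67108864)
    rfl rfl rfl k0_pm_203_b

noncomputable def cut_pm_213_a : Cut := Cut.of [[⟨0, 1, 0, 21338704⟩, ⟨1, 1, 0, 21338704⟩, ⟨2, 2, 0, 1685920⟩]]

noncomputable def f_pm_213_a : ℕ → ℕ → ℕ → ℕ → Bool := onCell 0 536870912 1610612736 536870912 67108864 67108864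
    (rowFK 0 false true false .pnn 2 1 3 (qsf 0 536870912 1610612736 536870912 1) ndF2q2a ndF2q3 pcF1 cut_pm_213_a Ext.none)

def k0_pm_213_a : ∃ t, chk3 f_pm_213_a t 1 1 1 = true :=
  ⟨(a (b (l 3) (l 3)) (b (a (l 3) (a (b (l 3) (l 3)) (b (b (l 17975224) (l 17797424)) (b (l 17567616) (l 17314368))))) (a (l 3) (b (a (l 3) (b (l 17063600) (l 17058528))) (a (l 3) (a (l 3) (a (l 3) (b (l 17062792) (a (l 3) (b (l 16971216) (b (l 16894576) (b (l 16821736) (b (l 22179528023) (a (l 3) (b (l 25400728823) (b (l 26474459703) (l 6))))))))))))))))), by decide +kernel⟩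

theorem c_pm_213_a : CertF 0 536870912 1610612736 536870912 67108864 67108864 false true false .pnn 2 1 3
    ndF2q2a ndF2q3 pcF1 cut_pm_213_a Ext.none :=
  certFK0 (fam := false) (s1 := true) (s2 := false) (a := 2) (b := 1) (c := 3) (cn := .pnn) (n1 := ndF2q2a) (n2 := ndF2q3) (pc := pcF1) (cut := cut_pm_213_a) (xt := Ext.none) (P1 := 0) (W1 := 536870912) (P2 := 1610612736) (W2 := 536870912) (P3 := 67108864) (W3 := 67108864)
    rfl rfl rfl k0_pm_213_a

noncomputable def cut_pm_213_b : Cut := Cut.of [[⟨0, 1, 0, 21338704⟩, ⟨1, 1, 0, 21338704⟩, ⟨2, 2, 0, 1685920⟩]]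

noncomputable def f_pm_213_b : ℕ → ℕ → ℕ → ℕ → Bool := onCell 1239849684 370763052 1610612736 536870912 67108864 67108864
    (rowFK 0 false true false .pnn 2 1 3 (qsf 1239849684 370763052 1610612736 536870912 1) ndF2q2b ndF2q3 pcF1 cut_pm_213_b Ext.none)

def k0_pm_213_b : ∃ t, chk3 f_pm_213_b t 1 1 1 = true :=
  ⟨(b (a (l 3) (l 1)) (l 3)), by decide +kernel⟩

theorem c_pm_213_b : CertF 1239849684 370763052 1610612736 536870912 67108864 67108864 false true false .pnn 2 1 3
    ndF2q2b ndF2q3 pcF1 cut_pm_213_b Ext.none :=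
  certFK0 (fam := false) (s1 := true) (s2 := false) (a := 2) (b := 1) (c := 3) (cn := .pnn) (n1 := ndF2q2b) (n2 := ndF2q3) (pc := pcF1) (cut := cut_pm_213_b) (xt := Ext.none) (P1 := 1239849684) (W1 := 370763052) (P2 := 1610612736) (W2 := 536870912) (P3 := 67108864) (W3 := 67108864)
    rfl rfl rfl k0_pm_213_b

noncomputable def f_pm_303 : ℕ → ℕ → ℕ → ℕ → Bool := onCell 1610612736 536870912 1610612736 536870912 67108864 67108864
    (rowFK 0 false true false .npn 3 0 3 (qsf 1610612736 536870912 1610612736 536870912 0) ndF2q3 ndF2q3 pcF0 Cut.none Ext.none)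

def k0_pm_303 : ∃ t, chk3 f_pm_303 t 1 1 1 = true :=
  ⟨(a (l 3) (l 3)), by decide +kernel⟩

theorem c_pm_303 : CertF 1610612736 536870912 1610612736 536870912 67108864 67108864 false true false .npn 3 0 3
    ndF2q3 ndF2q3 pcF0 Cut.none Ext.none :=
  certFK0 (fam := false) (s1 := true) (s2 := false) (a := 3) (b := 0) (c := 3) (cn := .npn) (n1 := ndF2q3) (n2 := ndF2q3) (pc := pcF0) (cut := Cut.none) (xt := Ext.none) (P1 := 1610612736) (W1 := 536870912) (P2 := 1610612736) (W2 := 536870912) (P3 := 67108864) (W3 := 67108864)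
    rfl rfl rfl k0_pm_303

noncomputable def f_pm_313 : ℕ → ℕ → ℕ → ℕ → Bool := onCell 1610612736 536870912 1610612736 536870912 67108864 67108864
    (rowFK 0 false true false .dn 3 1 3 (qsf 1610612736 536870912 1610612736 536870912 1) ndF2q3 ndF2q3 pcF1 Cut.none Ext.none)

def k0_pm_313 : ∃ t, chk3 f_pm_313 t 1 1 1 = true :=
  ⟨(a (l 3) (l 1)), by decide +kernel⟩

theorem c_pm_313 : CertF 1610612736 536870912 1610612736 536870912 67108864 67108864 false true false .dn 3 1 3
    ndF2q3 ndF2q3 pcF1 Cut.none Ext.none :=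
  certFK0 (fam := false) (s1 := true) (s2 := false) (a := 3) (b := 1) (c := 3) (cn := .dn) (n1 := ndF2q3) (n2 := ndF2q3) (pc := pcF1) (cut := Cut.none) (xt := Ext.none) (P1 := 1610612736) (W1 := 536870912) (P2 := 1610612736) (W2 := 536870912) (P3 := 67108864) (W3 := 67108864)
    rfl rfl rfl k0_pm_313

noncomputable def f_mm_001 : ℕ → ℕ → ℕ → ℕ → Bool := onCell 0 536870912 0 536870912 67108864 67108864
    (rowFK 1 false false false .up 0 0 1 (qsf 0 536870912 536870912 536870912 0) ndF2q0 ndF2q1 pcF0 Cut.none Ext.none)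

def k0_mm_001 : ∃ t, chk3 f_mm_001 t 1 1 1 = true :=
  ⟨(l 3), by decide +kernel⟩

theorem c_mm_001 : CertF 0 536870912 536870912 536870912 67108864 67108864 false false false .up 0 0 1
    ndF2q0 ndF2q1 pcF0 Cut.none Ext.none :=
  certFK1 (fam := false) (s1 := false) (s2 := false) (a := 0) (b := 0) (c := 1) (cn := .up) (n1 := ndF2q0) (n2 := ndF2q1) (pc := pcF0) (cut := Cut.none) (xt := Ext.none) (P1 := 0) (W1 := 536870912) (P2 := 536870912) (W2 := 536870912) (P3 := 67108864) (W3 := 67108864)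
    rfl rfl rfl (fun _ => rfl) k0_mm_001

noncomputable def f_mm_011 : ℕ → ℕ → ℕ → ℕ → Bool := onCell 0 536870912 536870912 536870912 67108864 67108864
    (rowFK 1 false false false .pnn 0 1 1 (qsf 0 536870912 536870912 536870912 1) ndF2q0 ndF2q1 pcF1 Cut.none Ext.none)

def k0_mm_011 : ∃ t, chk3 f_mm_011 t 1 1 1 = true :=
  ⟨(l 5), by decide +kernel⟩

theorem c_mm_011 : CertF 0 536870912 536870912 536870912 67108864 67108864 false false false .pnn 0 1 1
    ndF2q0 ndF2q1 pcF1 Cut.none Ext.none :=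
  certFK1 (fam := false) (s1 := false) (s2 := false) (a := 0) (b := 1) (c := 1) (cn := .pnn) (n1 := ndF2q0) (n2 := ndF2q1) (pc := pcF1) (cut := Cut.none) (xt := Ext.none) (P1 := 0) (W1 := 536870912) (P2 := 536870912) (W2 := 536870912) (P3 := 67108864) (W3 := 67108864)
    rfl rfl rfl (fun _ => rfl) k0_mm_011

noncomputable def f_mm_012_a : ℕ → ℕ → ℕ → ℕ → Bool := onCell 0 536870912 0 536870912 67108864 67108864
    (rowFK 0 false false false .pnp 0 1 2 (qsf 0 536870912 0 536870912 1) ndF2q0 ndF2q2a pcF1 Cut.none Ext.none)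

def k0_mm_012_a : ∃ t, chk3 f_mm_012_a t 1 1 1 = true :=
  ⟨(l 5), by decide +kernel⟩

theorem c_mm_012_a : CertF 0 536870912 0 536870912 67108864 67108864 false false false .pnp 0 1 2
    ndF2q0 ndF2q2a pcF1 Cut.none Ext.none :=
  certFK0 (fam := false) (s1 := false) (s2 := false) (a := 0) (b := 1) (c := 2) (cn := .pnp) (n1 := ndF2q0) (n2 := ndF2q2a) (pc := pcF1) (cut := Cut.none) (xt := Ext.none) (P1 := 0) (W1 := 536870912) (P2 := 0) (W2 := 536870912) (P3 := 67108864) (W3 := 67108864)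
    rfl rfl rfl k0_mm_012_a

noncomputable def f_mm_012_b : ℕ → ℕ → ℕ → ℕ → Bool := onCell 0 536870912 1239849684 370763052 67108864 67108864
    (rowFK 0 false false false .pnp 0 1 2 (qsf 0 536870912 1239849684 370763052 1) ndF2q0 ndF2q2b pcF1 Cut.none Ext.none)

def k0_mm_012_b : ∃ t, chk3 f_mm_012_b t 1 1 1 = true :=
  ⟨(l 5), by decide +kernel⟩

theorem c_mm_012_b : CertF 0 536870912 1239849684 370763052 67108864 67108864 false false false .pnp 0 1 2
    ndF2q0 ndF2q2b pcF1 Cut.none Ext.none :=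
  certFK0 (fam := false) (s1 := false) (s2 := false) (a := 0) (b := 1) (c := 2) (cn := .pnp) (n1 := ndF2q0) (n2 := ndF2q2b) (pc := pcF1) (cut := Cut.none) (xt := Ext.none) (P1 := 0) (W1 := 536870912) (P2 := 1239849684) (W2 := 370763052) (P3 := 67108864) (W3 := 67108864)
    rfl rfl rfl k0_mm_012_b

noncomputable def f_mm_022_a : ℕ → ℕ → ℕ → ℕ → Bool := onCell 0 536870912 0 536870912 67108864 67108864
    (rowFK 0 false false false .pp 0 2 2 (qsf 0 536870912 0 536870912 2) ndF2q0 ndF2q2a pcF2 Cut.none Ext.none)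

def k0_mm_022_a : ∃ t, chk3 f_mm_022_a t 1 1 1 = true :=
  ⟨(l 5), by decide +kernel⟩

theorem c_mm_022_a : CertF 0 536870912 0 536870912 67108864 67108864 false false false .pp 0 2 2
    ndF2q0 ndF2q2a pcF2 Cut.none Ext.none :=
  certFK0 (fam := false) (s1 := false) (s2 := false) (a := 0) (b := 2) (c := 2) (cn := .pp) (n1 := ndF2q0) (n2 := ndF2q2a) (pc := pcF2) (cut := Cut.none) (xt := Ext.none) (P1 := 0) (W1 := 536870912) (P2 := 0) (W2 := 536870912) (P3 := 67108864) (W3 := 67108864)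
    rfl rfl rfl k0_mm_022_a

noncomputable def f_mm_022_b : ℕ → ℕ → ℕ → ℕ → Bool := onCell 0 536870912 1239849684 370763052 67108864 67108864
    (rowFK 0 false false false .pp 0 2 2 (qsf 0 536870912 1239849684 370763052 2) ndF2q0 ndF2q2b pcF2 Cut.none Ext.none)

def k0_mm_022_b : ∃ t, chk3 f_mm_022_b t 1 1 1 = true :=
  ⟨(l 5), by decide +kernel⟩

theorem c_mm_022_b : CertF 0 536870912 1239849684 370763052 67108864 67108864 false false false .pp 0 2 2
    ndF2q0 ndF2q2b pcF2 Cut.none Ext.none :=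
  certFK0 (fam := false) (s1 := false) (s2 := false) (a := 0) (b := 2) (c := 2) (cn := .pp) (n1 := ndF2q0) (n2 := ndF2q2b) (pc := pcF2) (cut := Cut.none) (xt := Ext.none) (P1 := 0) (W1 := 536870912) (P2 := 1239849684) (W2 := 370763052) (P3 := 67108864) (W3 := 67108864)
    rfl rfl rfl k0_mm_022_b

noncomputable def f_mm_023 : ℕ → ℕ → ℕ → ℕ → Bool := onCell 0 536870912 1610612736 536870912 67108864 67108864
    (rowFK 0 false false false .up 0 2 3 (qsf 0 536870912 1610612736 536870912 2) ndF2q0 ndF2q3 pcF2 Cut.none Ext.none)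

def k0_mm_023 : ∃ t, chk3 f_mm_023 t 1 1 1 = true :=
  ⟨(l 5), by decide +kernel⟩

theorem c_mm_023 : CertF 0 536870912 1610612736 536870912 67108864 67108864 false false false .up 0 2 3
    ndF2q0 ndF2q3 pcF2 Cut.none Ext.none :=
  certFK0 (fam := false) (s1 := false) (s2 := false) (a := 0) (b := 2) (c := 3) (cn := .up) (n1 := ndF2q0) (n2 := ndF2q3) (pc := pcF2) (cut := Cut.none) (xt := Ext.none) (P1 := 0) (W1 := 536870912) (P2 := 1610612736) (W2 := 536870912) (P3 := 67108864) (W3 := 67108864)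
    rfl rfl rfl k0_mm_023

noncomputable def f_mm_033 : ℕ → ℕ → ℕ → ℕ → Bool := onCell 0 536870912 1610612736 536870912 67108864 67108864
    (rowFK 0 false false false .pnn 0 3 3 (qsf 0 536870912 1610612736 536870912 3) ndF2q0 ndF2q3 pcF3 Cut.none Ext.none)

def k0_mm_033 : ∃ t, chk3 f_mm_033 t 1 1 1 = true :=
  ⟨(l 5), by decide +kernel⟩

theorem c_mm_033 : CertF 0 536870912 1610612736 536870912 67108864 67108864 false false false .pnn 0 3 3
    ndF2q0 ndF2q3 pcF3 Cut.none Ext.none :=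
  certFK0 (fam := false) (s1 := false) (s2 := false) (a := 0) (b := 3) (c := 3) (cn := .pnn) (n1 := ndF2q0) (n2 := ndF2q3) (pc := pcF3) (cut := Cut.none) (xt := Ext.none) (P1 := 0) (W1 := 536870912) (P2 := 1610612736) (W2 := 536870912) (P3 := 67108864) (W3 := 67108864)
    rfl rfl rfl k0_mm_033

noncomputable def f_mm_101 : ℕ → ℕ → ℕ → ℕ → Bool := onCell 536870912 536870912 536870912 536870912 67108864 67108864
    (rowFK 0 false false false .npn 1 0 1 (qsf 536870912 536870912 536870912 536870912 0) ndF2q1 ndF2q1 pcF0 Cut.none Ext.none)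

def k0_mm_101 : ∃ t, chk3 f_mm_101 t 1 1 1 = true :=
  ⟨(l 3), by decide +kernel⟩

theorem c_mm_101 : CertF 536870912 536870912 536870912 536870912 67108864 67108864 false false false .npn 1 0 1
    ndF2q1 ndF2q1 pcF0 Cut.none Ext.none :=
  certFK0 (fam := false) (s1 := false) (s2 := false) (a := 1) (b := 0) (c := 1) (cn := .npn) (n1 := ndF2q1) (n2 := ndF2q1) (pc := pcF0) (cut := Cut.none) (xt := Ext.none) (P1 := 536870912) (W1 := 536870912) (P2 := 536870912) (W2 := 536870912) (P3 := 67108864) (W3 := 67108864)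
    rfl rfl rfl k0_mm_101

noncomputable def f_mm_102_a : ℕ → ℕ → ℕ → ℕ → Bool := onCell 536870912 536870912 0 536870912 67108864 67108864
    (rowFK 0 false false false .npp 1 0 2 (qsf 536870912 536870912 0 536870912 0) ndF2q1 ndF2q2a pcF0 Cut.none Ext.none)

def k0_mm_102_a : ∃ t, chk3 f_mm_102_a t 1 1 1 = true :=
  ⟨(l 5), by decide +kernel⟩

theorem c_mm_102_a : CertF 536870912 536870912 0 536870912 67108864 67108864 false false false .npp 1 0 2
    ndF2q1 ndF2q2a pcF0 Cut.none Ext.none :=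
  certFK0 (fam := false) (s1 := false) (s2 := false) (a := 1) (b := 0) (c := 2) (cn := .npp) (n1 := ndF2q1) (n2 := ndF2q2a) (pc := pcF0) (cut := Cut.none) (xt := Ext.none) (P1 := 536870912) (W1 := 536870912) (P2 := 0) (W2 := 536870912) (P3 := 67108864) (W3 := 67108864)
    rfl rfl rfl k0_mm_102_a

noncomputable def f_mm_102_b : ℕ → ℕ → ℕ → ℕ → Bool := onCell 536870912 536870912 1239849684 370763052 67108864 67108864
    (rowFK 0 false false false .npp 1 0 2 (qsf 536870912 536870912 1239849684 370763052 0) ndF2q1 ndF2q2b pcF0 Cut.none Ext.none)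

def k0_mm_102_b : ∃ t, chk3 f_mm_102_b t 1 1 1 = true :=
  ⟨(l 5), by decide +kernel⟩

theorem c_mm_102_b : CertF 536870912 536870912 1239849684 370763052 67108864 67108864 false false false .npp 1 0 2
    ndF2q1 ndF2q2b pcF0 Cut.none Ext.none :=
  certFK0 (fam := false) (s1 := false) (s2 := false) (a := 1) (b := 0) (c := 2) (cn := .npp) (n1 := ndF2q1) (n2 := ndF2q2b) (pc := pcF0) (cut := Cut.none) (xt := Ext.none) (P1 := 536870912) (W1 := 536870912) (P2 := 1239849684) (W2 := 370763052) (P3 := 67108864) (W3 := 67108864)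
    rfl rfl rfl k0_mm_102_b

noncomputable def f_mm_112_a : ℕ → ℕ → ℕ → ℕ → Bool := onCell 536870912 536870912 0 536870912 67108864 67108864
    (rowFK 0 false false false .dn 1 1 2 (qsf 536870912 536870912 0 536870912 1) ndF2q1 ndF2q2a pcF1 Cut.none Ext.none)

def k0_mm_112_a : ∃ t, chk3 f_mm_112_a t 1 1 1 = true :=
  ⟨(l 5), by decide +kernel⟩

theorem c_mm_112_a : CertF 536870912 536870912 0 536870912 67108864 67108864 false false false .dn 1 1 2
    ndF2q1 ndF2q2a pcF1 Cut.none Ext.none :=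
  certFK0 (fam := false) (s1 := false) (s2 := false) (a := 1) (b := 1) (c := 2) (cn := .dn) (n1 := ndF2q1) (n2 := ndF2q2a) (pc := pcF1) (cut := Cut.none) (xt := Ext.none) (P1 := 536870912) (W1 := 536870912) (P2 := 0) (W2 := 536870912) (P3 := 67108864) (W3 := 67108864)
    rfl rfl rfl k0_mm_112_a

noncomputable def f_mm_112_b : ℕ → ℕ → ℕ → ℕ → Bool := onCell 536870912 536870912 1239849684 370763052 67108864 67108864
    (rowFK 0 false false false .dn 1 1 2 (qsf 536870912 536870912 1239849684 370763052 1) ndF2q1 ndF2q2b pcF1 Cut.none Ext.none)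

def k0_mm_112_b : ∃ t, chk3 f_mm_112_b t 1 1 1 = true :=
  ⟨(l 5), by decide +kernel⟩

theorem c_mm_112_b : CertF 536870912 536870912 1239849684 370763052 67108864 67108864 false false false .dn 1 1 2
    ndF2q1 ndF2q2b pcF1 Cut.none Ext.none :=
  certFK0 (fam := false) (s1 := false) (s2 := false) (a := 1) (b := 1) (c := 2) (cn := .dn) (n1 := ndF2q1) (n2 := ndF2q2b) (pc := pcF1) (cut := Cut.none) (xt := Ext.none) (P1 := 536870912) (W1 := 536870912) (P2 := 1239849684) (W2 := 370763052) (P3 := 67108864) (W3 := 67108864)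
    rfl rfl rfl k0_mm_112_b

noncomputable def f_mm_113 : ℕ → ℕ → ℕ → ℕ → Bool := onCell 536870912 536870912 1610612736 536870912 67108864 67108864
    (rowFK 0 false false false .nn 1 1 3 (qsf 536870912 536870912 1610612736 536870912 1) ndF2q1 ndF2q3 pcF1 Cut.none Ext.none)

def k0_mm_113 : ∃ t, chk3 f_mm_113 t 1 1 1 = true :=
  ⟨(l 5), by decide +kernel⟩

theorem c_mm_113 : CertF 536870912 536870912 1610612736 536870912 67108864 67108864 false false false .nn 1 1 3
    ndF2q1 ndF2q3 pcF1 Cut.none Ext.none :=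
  certFK0 (fam := false) (s1 := false) (s2 := false) (a := 1) (b := 1) (c := 3) (cn := .nn) (n1 := ndF2q1) (n2 := ndF2q3) (pc := pcF1) (cut := Cut.none) (xt := Ext.none) (P1 := 536870912) (W1 := 536870912) (P2 := 1610612736) (W2 := 536870912) (P3 := 67108864) (W3 := 67108864)
    rfl rfl rfl k0_mm_113

noncomputable def f_mm_123 : ℕ → ℕ → ℕ → ℕ → Bool := onCell 536870912 536870912 1610612736 536870912 67108864 67108864
    (rowFK 0 false false false .npn 1 2 3 (qsf 536870912 536870912 1610612736 536870912 2) ndF2q1 ndF2q3 pcF2 Cut.none Ext.none)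

def k0_mm_123 : ∃ t, chk3 f_mm_123 t 1 1 1 = true :=
  ⟨(l 5), by decide +kernel⟩

theorem c_mm_123 : CertF 536870912 536870912 1610612736 536870912 67108864 67108864 false false false .npn 1 2 3
    ndF2q1 ndF2q3 pcF2 Cut.none Ext.none :=
  certFK0 (fam := false) (s1 := false) (s2 := false) (a := 1) (b := 2) (c := 3) (cn := .npn) (n1 := ndF2q1) (n2 := ndF2q3) (pc := pcF2) (cut := Cut.none) (xt := Ext.none) (P1 := 536870912) (W1 := 536870912) (P2 := 1610612736) (W2 := 536870912) (P3 := 67108864) (W3 := 67108864)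
    rfl rfl rfl k0_mm_123

noncomputable def f_mm_133 : ℕ → ℕ → ℕ → ℕ → Bool := onCell 536870912 536870912 1610612736 536870912 67108864 67108864
    (rowFK 0 false false false .dn 1 3 3 (qsf 536870912 536870912 1610612736 536870912 3) ndF2q1 ndF2q3 pcF3 Cut.none Ext.none)

def k0_mm_133 : ∃ t, chk3 f_mm_133 t 1 1 1 = true :=
  ⟨(l 5), by decide +kernel⟩

theorem c_mm_133 : CertF 536870912 536870912 1610612736 536870912 67108864 67108864 false false false .dn 1 3 3
    ndF2q1 ndF2q3 pcF3 Cut.none Ext.none :=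
  certFK0 (fam := false) (s1 := false) (s2 := false) (a := 1) (b := 3) (c := 3) (cn := .dn) (n1 := ndF2q1) (n2 := ndF2q3) (pc := pcF3) (cut := Cut.none) (xt := Ext.none) (P1 := 536870912) (W1 := 536870912) (P2 := 1610612736) (W2 := 536870912) (P3 := 67108864) (W3 := 67108864)
    rfl rfl rfl k0_mm_133

noncomputable def f_mm_202_aa : ℕ → ℕ → ℕ → ℕ → Bool := onCell 0 536870912 0 536870912 67108864 67108864
    (rowFK 0 false false false .pp 2 0 2 (qsf 0 536870912 0 536870912 0) ndF2q2a ndF2q2a pcF0 Cut.none Ext.none)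

def k0_mm_202_aa : ∃ t, chk3 f_mm_202_aa t 1 1 1 = true :=
  ⟨(l 3), by decide +kernel⟩

theorem c_mm_202_aa : CertF 0 536870912 0 536870912 67108864 67108864 false false false .pp 2 0 2
    ndF2q2a ndF2q2a pcF0 Cut.none Ext.none :=
  certFK0 (fam := false) (s1 := false) (s2 := false) (a := 2) (b := 0) (c := 2) (cn := .pp) (n1 := ndF2q2a) (n2 := ndF2q2a) (pc := pcF0) (cut := Cut.none) (xt := Ext.none) (P1 := 0) (W1 := 536870912) (P2 := 0) (W2 := 536870912) (P3 := 67108864) (W3 := 67108864)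
    rfl rfl rfl k0_mm_202_aa

noncomputable def f_mm_202_ab : ℕ → ℕ → ℕ → ℕ → Bool := onCell 0 536870912 1239849684 370763052 67108864 67108864
    (rowFK 0 false false false .pp 2 0 2 (qsf 0 536870912 1239849684 370763052 0) ndF2q2a ndF2q2b pcF0 Cut.none Ext.none)

def k0_mm_202_ab : ∃ t, chk3 f_mm_202_ab t 1 1 1 = true :=
  ⟨(l 3), by decide +kernel⟩

theorem c_mm_202_ab : CertF 0 536870912 1239849684 370763052 67108864 67108864 false false false .pp 2 0 2
    ndF2q2a ndF2q2b pcF0 Cut.none Ext.none :=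
  certFK0 (fam := false) (s1 := false) (s2 := false) (a := 2) (b := 0) (c := 2) (cn := .pp) (n1 := ndF2q2a) (n2 := ndF2q2b) (pc := pcF0) (cut := Cut.none) (xt := Ext.none) (P1 := 0) (W1 := 536870912) (P2 := 1239849684) (W2 := 370763052) (P3 := 67108864) (W3 := 67108864)
    rfl rfl rfl k0_mm_202_ab

noncomputable def f_mm_202_ba : ℕ → ℕ → ℕ → ℕ → Bool := onCell 1239849684 370763052 0 536870912 67108864 67108864
    (rowFK 0 false false false .pp 2 0 2 (qsf 1239849684 370763052 0 536870912 0) ndF2q2b ndF2q2a pcF0 Cut.none Ext.none)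

def k0_mm_202_ba : ∃ t, chk3 f_mm_202_ba t 1 1 1 = true :=
  ⟨(l 3), by decide +kernel⟩

theorem c_mm_202_ba : CertF 1239849684 370763052 0 536870912 67108864 67108864 false false false .pp 2 0 2
    ndF2q2b ndF2q2a pcF0 Cut.none Ext.none :=
  certFK0 (fam := false) (s1 := false) (s2 := false) (a := 2) (b := 0) (c := 2) (cn := .pp) (n1 := ndF2q2b) (n2 := ndF2q2a) (pc := pcF0) (cut := Cut.none) (xt := Ext.none) (P1 := 1239849684) (W1 := 370763052) (P2 := 0) (W2 := 536870912) (P3 := 67108864) (W3 := 67108864)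
    rfl rfl rfl k0_mm_202_ba

noncomputable def f_mm_202_bb : ℕ → ℕ → ℕ → ℕ → Bool := onCell 1239849684 370763052 1239849684 370763052 67108864 67108864
    (rowFK 0 false false false .pp 2 0 2 (qsf 1239849684 370763052 1239849684 370763052 0) ndF2q2b ndF2q2b pcF0 Cut.none Ext.none)

def k0_mm_202_bb : ∃ t, chk3 f_mm_202_bb t 1 1 1 = true :=
  ⟨(l 3), by decide +kernel⟩

theorem c_mm_202_bb : CertF 1239849684 370763052 1239849684 370763052 67108864 67108864 false false false .pp 2 0 2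
    ndF2q2b ndF2q2b pcF0 Cut.none Ext.none :=
  certFK0 (fam := false) (s1 := false) (s2 := false) (a := 2) (b := 0) (c := 2) (cn := .pp) (n1 := ndF2q2b) (n2 := ndF2q2b) (pc := pcF0) (cut := Cut.none) (xt := Ext.none) (P1 := 1239849684) (W1 := 370763052) (P2 := 1239849684) (W2 := 370763052) (P3 := 67108864) (W3 := 67108864)
    rfl rfl rfl k0_mm_202_bb

noncomputable def f_mm_203_a : ℕ → ℕ → ℕ → ℕ → Bool := onCell 0 536870912 1610612736 536870912 67108864 67108864
    (rowFK 0 false false false .up 2 0 3 (qsf 0 536870912 1610612736 536870912 0) ndF2q2a ndF2q3 pcF0 Cut.none Ext.none)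

def k0_mm_203_a : ∃ t, chk3 f_mm_203_a t 1 1 1 = true :=
  ⟨(l 5), by decide +kernel⟩

theorem c_mm_203_a : CertF 0 536870912 1610612736 536870912 67108864 67108864 false false false .up 2 0 3
    ndF2q2a ndF2q3 pcF0 Cut.none Ext.none :=
  certFK0 (fam := false) (s1 := false) (s2 := false) (a := 2) (b := 0) (c := 3) (cn := .up) (n1 := ndF2q2a) (n2 := ndF2q3) (pc := pcF0) (cut := Cut.none) (xt := Ext.none) (P1 := 0) (W1 := 536870912) (P2 := 1610612736) (W2 := 536870912) (P3 := 67108864) (W3 := 67108864)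
    rfl rfl rfl k0_mm_203_a

noncomputable def f_mm_203_b : ℕ → ℕ → ℕ → ℕ → Bool := onCell 1239849684 370763052 1610612736 536870912 67108864 67108864
    (rowFK 0 false false false .up 2 0 3 (qsf 1239849684 370763052 1610612736 536870912 0) ndF2q2b ndF2q3 pcF0 Cut.none Ext.none)

def k0_mm_203_b : ∃ t, chk3 f_mm_203_b t 1 1 1 = true :=
  ⟨(l 3), by decide +kernel⟩

theorem c_mm_203_b : CertF 1239849684 370763052 1610612736 536870912 67108864 67108864 false false false .up 2 0 3
    ndF2q2b ndF2q3 pcF0 Cut.none Ext.none :=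
  certFK0 (fam := false) (s1 := false) (s2 := false) (a := 2) (b := 0) (c := 3) (cn := .up) (n1 := ndF2q2b) (n2 := ndF2q3) (pc := pcF0) (cut := Cut.none) (xt := Ext.none) (P1 := 1239849684) (W1 := 370763052) (P2 := 1610612736) (W2 := 536870912) (P3 := 67108864) (W3 := 67108864)
    rfl rfl rfl k0_mm_203_b

noncomputable def f_mm_213_a : ℕ → ℕ → ℕ → ℕ → Bool := onCell 0 536870912 1610612736 536870912 67108864 67108864
    (rowFK 0 false false false .pnn 2 1 3 (qsf 0 536870912 1610612736 536870912 1) ndF2q2a ndF2q3 pcF1 Cut.none Ext.none)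

def k0_mm_213_a : ∃ t, chk3 f_mm_213_a t 1 1 1 = true :=
  ⟨(l 5), by decide +kernel⟩

theorem c_mm_213_a : CertF 0 536870912 1610612736 536870912 67108864 67108864 false false false .pnn 2 1 3
    ndF2q2a ndF2q3 pcF1 Cut.none Ext.none :=
  certFK0 (fam := false) (s1 := false) (s2 := false) (a := 2) (b := 1) (c := 3) (cn := .pnn) (n1 := ndF2q2a) (n2 := ndF2q3) (pc := pcF1) (cut := Cut.none) (xt := Ext.none) (P1 := 0) (W1 := 536870912) (P2 := 1610612736) (W2 := 536870912) (P3 := 67108864) (W3 := 67108864)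
    rfl rfl rfl k0_mm_213_a

noncomputable def f_mm_213_b : ℕ → ℕ → ℕ → ℕ → Bool := onCell 1239849684 370763052 1610612736 536870912 67108864 67108864
    (rowFK 0 false false false .pnn 2 1 3 (qsf 1239849684 370763052 1610612736 536870912 1) ndF2q2b ndF2q3 pcF1 Cut.none Ext.none)

def k0_mm_213_b : ∃ t, chk3 f_mm_213_b t 1 1 1 = true :=
  ⟨(l 3), by decide +kernel⟩

theorem c_mm_213_b : CertF 1239849684 370763052 1610612736 536870912 67108864 67108864 false false false .pnn 2 1 3
    ndF2q2b ndF2q3 pcF1 Cut.none Ext.none :=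
  certFK0 (fam := false) (s1 := false) (s2 := false) (a := 2) (b := 1) (c := 3) (cn := .pnn) (n1 := ndF2q2b) (n2 := ndF2q3) (pc := pcF1) (cut := Cut.none) (xt := Ext.none) (P1 := 1239849684) (W1 := 370763052) (P2 := 1610612736) (W2 := 536870912) (P3 := 67108864) (W3 := 67108864)
    rfl rfl rfl k0_mm_213_b

noncomputable def f_mm_303 : ℕ → ℕ → ℕ → ℕ → Bool := onCell 1610612736 536870912 1610612736 536870912 67108864 67108864
    (rowFK 0 false false false .npn 3 0 3 (qsf 1610612736 536870912 1610612736 536870912 0) ndF2q3 ndF2q3 pcF0 Cut.none Ext.none)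

def k0_mm_303 : ∃ t, chk3 f_mm_303 t 1 1 1 = true :=
  ⟨(l 3), by decide +kernel⟩

theorem c_mm_303 : CertF 1610612736 536870912 1610612736 536870912 67108864 67108864 false false false .npn 3 0 3
    ndF2q3 ndF2q3 pcF0 Cut.none Ext.none :=
  certFK0 (fam := false) (s1 := false) (s2 := false) (a := 3) (b := 0) (c := 3) (cn := .npn) (n1 := ndF2q3) (n2 := ndF2q3) (pc := pcF0) (cut := Cut.none) (xt := Ext.none) (P1 := 1610612736) (W1 := 536870912) (P2 := 1610612736) (W2 := 536870912) (P3 := 67108864) (W3 := 67108864)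
    rfl rfl rfl k0_mm_303

noncomputable def f_mm_313 : ℕ → ℕ → ℕ → ℕ → Bool := onCell 1610612736 536870912 1610612736 536870912 67108864 67108864
    (rowFK 0 false false false .dn 3 1 3 (qsf 1610612736 536870912 1610612736 536870912 1) ndF2q3 ndF2q3 pcF1 Cut.none Ext.none)

def k0_mm_313 : ∃ t, chk3 f_mm_313 t 1 1 1 = true :=
  ⟨(l 3), by decide +kernel⟩

theorem c_mm_313 : CertF 1610612736 536870912 1610612736 536870912 67108864 67108864 false false false .dn 3 1 3
    ndF2q3 ndF2q3 pcF1 Cut.none Ext.none :=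
  certFK0 (fam := false) (s1 := false) (s2 := false) (a := 3) (b := 1) (c := 3) (cn := .dn) (n1 := ndF2q3) (n2 := ndF2q3) (pc := pcF1) (cut := Cut.none) (xt := Ext.none) (P1 := 1610612736) (W1 := 536870912) (P2 := 1610612736) (W2 := 536870912) (P3 := 67108864) (W3 := 67108864)
    rfl rfl rfl k0_mm_313

end Pool.Agent.Strip051.G.I1_16_1_8.Tab.C.FB22

namespace Pool.Agent.Strip051.G.I1_16_1_8.Tab.C.FB23

open Pool.Agent.Strip051.PB Pool.Agent.Strip051.PB.T
open Pool.Agent.Strip051.G.I1_16_1_8.Tab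

noncomputable def f_pp_001 : ℕ → ℕ → ℕ → ℕ → Bool := onCell 0 536870912 0 536870912 67108864 67108864
    (rowFK 1 false true true .up 0 0 1 (qsf 0 536870912 536870912 536870912 0) ndF2q0 ndF3q1 pcF0 Cut.none Ext.none)

def k0_pp_001 : ∃ t, chk3 f_pp_001 t 1 1 1 = true :=
  ⟨(l 3), by decide +kernel⟩

theorem c_pp_001 : CertF 0 536870912 536870912 536870912 67108864 67108864 false true true .up 0 0 1
    ndF2q0 ndF3q1 pcF0 Cut.none Ext.none :=
  certFK1 (fam := false) (s1 := true) (s2 := true) (a := 0) (b := 0) (c := 1) (cn := .up) (n1 := ndF2q0) (n2 := ndF3q1) (pc := pcF0) (cut := Cut.none) (xt := Ext.none) (P1 := 0) (W1 := 536870912) (P2 := 536870912) (W2 := 536870912) (P3 := 67108864) (W3 := 67108864)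
    rfl rfl rfl (fun _ => rfl) k0_pp_001

noncomputable def cut_pp_011 : Cut := Cut.of [[⟨0, 0, 0, 67108864⟩, ⟨1, 1, 0, 67108864⟩, ⟨2, 1, 0, 67108864⟩]]

noncomputable def f_pp_011 : ℕ → ℕ → ℕ → ℕ → Bool := onCell 0 536870912 536870912 536870912 67108864 67108864
    (rowFK 1 false true true .pnn 0 1 1 (qsf 0 536870912 536870912 536870912 1) ndF2q0 ndF3q1 pcF1 cut_pp_011 Ext.none)

def k0_pp_011 : ∃ t, chk3 f_pp_011 t 1 1 1 = true :=
  ⟨(b (l 3) (b (l 3) (a (a (b (l 3) (a (b (l 3) (a (l 6) (l 3))) (l 3))) (l 3)) (l 2)))), by decide +kernel⟩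

theorem c_pp_011 : CertF 0 536870912 536870912 536870912 67108864 67108864 false true true .pnn 0 1 1
    ndF2q0 ndF3q1 pcF1 cut_pp_011 Ext.none :=
  certFK1 (fam := false) (s1 := true) (s2 := true) (a := 0) (b := 1) (c := 1) (cn := .pnn) (n1 := ndF2q0) (n2 := ndF3q1) (pc := pcF1) (cut := cut_pp_011) (xt := Ext.none) (P1 := 0) (W1 := 536870912) (P2 := 536870912) (W2 := 536870912) (P3 := 67108864) (W3 := 67108864)
    rfl rfl rfl (fun _ => rfl) k0_pp_011

noncomputable def f_pp_012 : ℕ → ℕ → ℕ → ℕ → Bool := onCell 0 536870912 536870912 536870912 67108864 67108864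
    (rowFK 1 false true true .pnp 0 1 2 (qsf 0 536870912 1073741824 536870912 1) ndF2q0 ndF3q2 pcF1 Cut.none Ext.none)

def k0_pp_012 : ∃ t, chk3 f_pp_012 t 1 1 1 = true :=
  ⟨(b (l 3) (a (l 3) (b (l 3) (a (l 312629792583) (l 18298728))))), by decide +kernel⟩

theorem c_pp_012 : CertF 0 536870912 1073741824 536870912 67108864 67108864 false true true .pnp 0 1 2
    ndF2q0 ndF3q2 pcF1 Cut.none Ext.none :=
  certFK1 (fam := false) (s1 := true) (s2 := true) (a := 0) (b := 1) (c := 2) (cn := .pnp) (n1 := ndF2q0) (n2 := ndF3q2) (pc := pcF1) (cut := Cut.none) (xt := Ext.none) (P1 := 0) (W1 := 536870912) (P2 := 1073741824) (W2 := 536870912) (P3 := 67108864) (W3 := 67108864)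
    rfl rfl rfl (fun _ => rfl) k0_pp_012

noncomputable def f_pp_022 : ℕ → ℕ → ℕ → ℕ → Bool := onCell 0 536870912 1073741824 536870912 67108864 67108864
    (rowFK 1 false true true .pp 0 2 2 (qsf 0 536870912 1073741824 536870912 2) ndF2q0 ndF3q2 pcF2 Cut.none Ext.none)

def k0_pp_022 : ∃ t, chk3 f_pp_022 t 1 1 1 = true :=
  ⟨(a (b (a (b (b (l 3) (a (b (l 3) (a (l 3) (l 17637120))) (b (l 3) (l 17761064)))) (b (b (b (a (a (l 991770633815) (l 17934184)) (l 17890328)) (a (b (a (a (a (c (l 18419792) (b (l 74257748231) (l 17712048))) (l 18063120)) (l 18057456)) (l 18028328)) (a (b (a (c (l 18462688) (l 17590144)) (l 18113392)) (a (b (b (l 18052720) (l 18125952)) (l 18162128)) (b (l 18139800) (l 18156880)))) (b (l 18071192) (l 18098664)))) (b (l 17948632) (b (l 17970368) (l 17985776))))) (a (a (a (c (l 18627496) (l 18000264)) (l 18286328)) (l 18209376)) (l 18053896))) (a (a (l 18576824) (l 18422168)) (l 18182232)))) (b (b (b (l 17623560) (a (l 3) (l 17628272))) (b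 (l 17768016) (l 17707368))) (b (b (b (l 17743496) (b (l 17743016) (l 17772648))) (l 17724816)) (l 17699840)))) (b (a (a (a (l 18814176) (l 18600696)) (b (l 18246128) (l 18206480))) (l 17648008)) (a (a (b (l 18701992) (l 18547656)) (l 18136760)) (l 17595904)))) (b (b (b (b (l 18144968) (a (l 17889840) (l 18065504))) (a (l 17860672) (l 17954560))) (a (b (l 17637232) (l 17482584)) (l 17743656))) (b (a (l 17309056) (l 2)) (l 2)))), by decide +kernel⟩

theorem c_pp_022 : CertF 0 536870912 1073741824 536870912 67108864 67108864 false true true .pp 0 2 2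
    ndF2q0 ndF3q2 pcF2 Cut.none Ext.none :=
  certFK1 (fam := false) (s1 := true) (s2 := true) (a := 0) (b := 2) (c := 2) (cn := .pp) (n1 := ndF2q0) (n2 := ndF3q2) (pc := pcF2) (cut := Cut.none) (xt := Ext.none) (P1 := 0) (W1 := 536870912) (P2 := 1073741824) (W2 := 536870912) (P3 := 67108864) (W3 := 67108864)
    rfl rfl rfl (fun _ => rfl) k0_pp_022

noncomputable def f_pp_023 : ℕ → ℕ → ℕ → ℕ → Bool := onCell 1073741824 536870912 0 1230186008 67108864 67108864
    (rowFK 2 false true true .up 0 2 3 (qsf 0 536870912 0 1230186008 2) ndF2q0 ndF3q3 pcF2 Cut.none Ext.none)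

def k0_pp_023 : ∃ t, chk3 f_pp_023 t 1 1 1 = true :=
  ⟨(b (a (l 2) (a (l 2) (l 17153848))) (b (a (a (l 2) (l 17066608)) (a (l 16872296) (l 16889120))) (a (a (a (a (l 17608304) (l 17477432)) (l 17319928)) (b (l 17002952) (l 17197768))) (b (a (l 16948928) (l 17198016)) (a (l 17370720) (b (l 17535368) (l 17751600))))))), by decide +kernel⟩

theorem c_pp_023 : CertF 0 536870912 0 1230186008 67108864 67108864 false true true .up 0 2 3
    ndF2q0 ndF3q3 pcF2 Cut.none Ext.none :=
  certFK2 (fam := false) (s1 := true) (s2 := true) (a := 0) (b := 2) (c := 3) (cn := .up) (n1 := ndF2q0) (n2 := ndF3q3) (pc := pcF2) (cut := Cut.none) (xt := Ext.none) (P1 := 0) (W1 := 536870912) (P2 := 0) (W2 := 1230186008) (P3 := 67108864) (W3 := 67108864)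
    rfl rfl rfl (fun _ => rfl) k0_pp_023

noncomputable def f_pp_033 : ℕ → ℕ → ℕ → ℕ → Bool := onCell 0 536870912 0 1230186008 67108864 67108864
    (rowFK 0 false true true .pnn 0 3 3 (qsf 0 536870912 0 1230186008 3) ndF2q0 ndF3q3 pcF3 Cut.none Ext.none)

def k0_pp_033 : ∃ t, chk3 f_pp_033 t 1 1 1 = true :=
  ⟨(b (b (l 4) (a (a (l 4) (a (l 17185928) (l 17265248))) (a (b (l 4) (l 17153600)) (b (l 17009648) (l 17082704))))) (b (a (a (b (a (l 17605224) (l 17425400)) (b (l 17322232) (a (l 17306136) (l 17548856)))) (b (a (l 17139472) (l 17095440)) (l 17630328))) (b (a (l 17300496) (l 17416416)) (a (l 17844168) (l 1)))) (a (b (a (b (a (l 17437912) (l 17755712)) (a (l 17792976) (l 17439096))) (b (l 18064440) (l 17741136))) (a (b (a (b (l 18253432) (l 18521544)) (l 18052208)) (a (b (l 18709952) (l 18411792)) (l 426313103911))) (b (l 17504952) (l 1)))) (l 1)))), by decide +kernel⟩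

theorem c_pp_033 : CertF 0 536870912 0 1230186008 67108864 67108864 false true true .pnn 0 3 3
    ndF2q0 ndF3q3 pcF3 Cut.none Ext.none :=
  certFK0 (fam := false) (s1 := true) (s2 := true) (a := 0) (b := 3) (c := 3) (cn := .pnn) (n1 := ndF2q0) (n2 := ndF3q3) (pc := pcF3) (cut := Cut.none) (xt := Ext.none) (P1 := 0) (W1 := 536870912) (P2 := 0) (W2 := 1230186008) (P3 := 67108864) (W3 := 67108864)
    rfl rfl rfl k0_pp_033

noncomputable def f_pp_101 : ℕ → ℕ → ℕ → ℕ → Bool := onCell 536870912 536870912 536870912 536870912 67108864 67108864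
    (rowFK 0 false true true .npn 1 0 1 (qsf 536870912 536870912 536870912 536870912 0) ndF2q1 ndF3q1 pcF0 Cut.none Ext.none)

def k0_pp_101 : ∃ t, chk3 f_pp_101 t 1 1 1 = true :=
  ⟨(l 3), by decide +kernel⟩

theorem c_pp_101 : CertF 536870912 536870912 536870912 536870912 67108864 67108864 false true true .npn 1 0 1
    ndF2q1 ndF3q1 pcF0 Cut.none Ext.none :=
  certFK0 (fam := false) (s1 := true) (s2 := true) (a := 1) (b := 0) (c := 1) (cn := .npn) (n1 := ndF2q1) (n2 := ndF3q1) (pc := pcF0) (cut := Cut.none) (xt := Ext.none) (P1 := 536870912) (W1 := 536870912) (P2 := 536870912) (W2 := 536870912) (P3 := 67108864) (W3 := 67108864)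
    rfl rfl rfl k0_pp_101

noncomputable def f_pp_102 : ℕ → ℕ → ℕ → ℕ → Bool := onCell 536870912 536870912 0 536870912 67108864 67108864
    (rowFK 1 false true true .npp 1 0 2 (qsf 536870912 536870912 1073741824 536870912 0) ndF2q1 ndF3q2 pcF0 Cut.none Ext.none)

def k0_pp_102 : ∃ t, chk3 f_pp_102 t 1 1 1 = true :=
  ⟨(l 3), by decide +kernel⟩

theorem c_pp_102 : CertF 536870912 536870912 1073741824 536870912 67108864 67108864 false true true .npp 1 0 2
    ndF2q1 ndF3q2 pcF0 Cut.none Ext.none :=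
  certFK1 (fam := false) (s1 := true) (s2 := true) (a := 1) (b := 0) (c := 2) (cn := .npp) (n1 := ndF2q1) (n2 := ndF3q2) (pc := pcF0) (cut := Cut.none) (xt := Ext.none) (P1 := 536870912) (W1 := 536870912) (P2 := 1073741824) (W2 := 536870912) (P3 := 67108864) (W3 := 67108864)
    rfl rfl rfl (fun _ => rfl) k0_pp_102

noncomputable def f_pp_112 : ℕ → ℕ → ℕ → ℕ → Bool := onCell 536870912 536870912 1073741824 536870912 67108864 67108864
    (rowFK 0 false true true .dn 1 1 2 (qsf 536870912 536870912 1073741824 536870912 1) ndF2q1 ndF3q2 pcF1 Cut.none Ext.none)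

def k0_pp_112 : ∃ t, chk3 f_pp_112 t 1 1 1 = true :=
  ⟨(b (l 3) (a (b (l 3) (a (b (l 17426136) (l 17833944)) (a (l 17004656) (l 17303784)))) (a (b (l 3) (l 635289859303)) (l 3)))), by decide +kernel⟩

theorem c_pp_112 : CertF 536870912 536870912 1073741824 536870912 67108864 67108864 false true true .dn 1 1 2
    ndF2q1 ndF3q2 pcF1 Cut.none Ext.none :=
  certFK0 (fam := false) (s1 := true) (s2 := true) (a := 1) (b := 1) (c := 2) (cn := .dn) (n1 := ndF2q1) (n2 := ndF3q2) (pc := pcF1) (cut := Cut.none) (xt := Ext.none) (P1 := 536870912) (W1 := 536870912) (P2 := 1073741824) (W2 := 536870912) (P3 := 67108864) (W3 := 67108864)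
    rfl rfl rfl k0_pp_112

noncomputable def f_pp_113 : ℕ → ℕ → ℕ → ℕ → Bool := onCell 536870912 536870912 0 1230186008 67108864 67108864
    (rowFK 0 false true true .nn 1 1 3 (qsf 536870912 536870912 0 1230186008 1) ndF2q1 ndF3q3 pcF1 Cut.none Ext.none)

def k0_pp_113 : ∃ t, chk3 f_pp_113 t 1 1 1 = true :=
  ⟨(a (b (l 2) (b (a (l 2) (b (l 2) (a (l 2) (l 18871648)))) (b (a (l 2) (a (l 19226896) (l 18406728))) (a (b (a (l 2) (l 19447120)) (l 19379464)) (b (l 18502320) (l 18356048)))))) (a (b (l 2) (b (b (b (l 17699368) (a (l 2) (a (l 17255864) (b (l 17320256) (l 17401528))))) (a (b (l 17911416) (l 17776712)) (l 17327368))) (b (a (l 17678616) (l 17488584)) (a (l 17744112) (l 17823776))))) (a (b (b (l 2) (b (l 16942696) (a (l 17119432) (b (l 17216096) (a (l 17352376) (l 17350192)))))) (b (b (b (a (b (l 17359496) (a (l 17412824) (l 17525024))) (l 17649104)) (l 17761992)) (l 17943544)) (b (l 18063944) (l 18138424)))) (b (b (a (l 2) (l 16912344)) (b (a (l 17156160)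 (b (l 17199752) (l 17206112))) (a (b (a (l 17347680) (l 17403496)) (l 17626016)) (l 17645680)))) (b (b (a (l 18024712) (l 18229296)) (a (l 18242296) (l 18422512))) (a (b (l 18327440) (l 18389016)) (b (l 18481736) (l 18539848)))))))), by decide +kernel⟩

theorem c_pp_113 : CertF 536870912 536870912 0 1230186008 67108864 67108864 false true true .nn 1 1 3
    ndF2q1 ndF3q3 pcF1 Cut.none Ext.none :=
  certFK0 (fam := false) (s1 := true) (s2 := true) (a := 1) (b := 1) (c := 3) (cn := .nn) (n1 := ndF2q1) (n2 := ndF3q3) (pc := pcF1) (cut := Cut.none) (xt := Ext.none) (P1 := 536870912) (W1 := 536870912) (P2 := 0) (W2 := 1230186008) (P3 := 67108864) (W3 := 67108864)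
    rfl rfl rfl k0_pp_113

noncomputable def f_pp_123 : ℕ → ℕ → ℕ → ℕ → Bool := onCell 1073741824 536870912 0 1230186008 67108864 67108864
    (rowFK 2 false true true .npn 1 2 3 (qsf 536870912 536870912 0 1230186008 2) ndF2q1 ndF3q3 pcF2 Cut.none Ext.none)

def k0_pp_123 : ∃ t, chk3 f_pp_123 t 1 1 1 = true :=
  ⟨(a (a (b (a (b (a (a (l 16867288) (b (l 16794392) (l 16993400))) (l 17004288)) (b (l 17267224) (l 17036536))) (b (l 16803104) (l 17186720))) (b (b (l 17701888) (l 18455944)) (a (a (l 19341328) (l 19453216)) (l 19520584)))) (b (b (l 17454216) (l 18026016)) (b (l 18870384) (b (l 19331672) (l 19345696))))) (b (a (l 18627192) (l 18756384)) (b (a (l 19157720) (l 18971064)) (l 1)))), by decide +kernel⟩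

theorem c_pp_123 : CertF 536870912 536870912 0 1230186008 67108864 67108864 false true true .npn 1 2 3
    ndF2q1 ndF3q3 pcF2 Cut.none Ext.none :=
  certFK2 (fam := false) (s1 := true) (s2 := true) (a := 1) (b := 2) (c := 3) (cn := .npn) (n1 := ndF2q1) (n2 := ndF3q3) (pc := pcF2) (cut := Cut.none) (xt := Ext.none) (P1 := 536870912) (W1 := 536870912) (P2 := 0) (W2 := 1230186008) (P3 := 67108864) (W3 := 67108864)
    rfl rfl rfl (fun _ => rfl) k0_pp_123

noncomputable def f_pp_133 : ℕ → ℕ → ℕ → ℕ → Bool := onCell 1610612736 536870912 0 1230186008 67108864 67108864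
    (rowFK 2 false true true .dn 1 3 3 (qsf 536870912 536870912 0 1230186008 3) ndF2q1 ndF3q3 pcF3 Cut.none Ext.none)

def k0_pp_133 : ∃ t, chk3 f_pp_133 t 1 1 1 = true :=
  ⟨(b (a (a (l 957814492519) (l 1)) (l 1)) (l 1)), by decide +kernel⟩

theorem c_pp_133 : CertF 536870912 536870912 0 1230186008 67108864 67108864 false true true .dn 1 3 3
    ndF2q1 ndF3q3 pcF3 Cut.none Ext.none :=
  certFK2 (fam := false) (s1 := true) (s2 := true) (a := 1) (b := 3) (c := 3) (cn := .dn) (n1 := ndF2q1) (n2 := ndF3q3) (pc := pcF3) (cut := Cut.none) (xt := Ext.none) (P1 := 536870912) (W1 := 536870912) (P2 := 0) (W2 := 1230186008) (P3 := 67108864) (W3 := 67108864)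
    rfl rfl rfl (fun _ => rfl) k0_pp_133

noncomputable def f_pp_202_a : ℕ → ℕ → ℕ → ℕ → Bool := onCell 0 536870912 1073741824 536870912 67108864 67108864
    (rowFK 0 false true true .pp 2 0 2 (qsf 0 536870912 1073741824 536870912 0) ndF2q2a ndF3q2 pcF0 Cut.none Ext.none)

def k0_pp_202_a : ∃ t, chk3 f_pp_202_a t 1 1 1 = true :=
  ⟨(l 3), by decide +kernel⟩

theorem c_pp_202_a : CertF 0 536870912 1073741824 536870912 67108864 67108864 false true true .pp 2 0 2
    ndF2q2a ndF3q2 pcF0 Cut.none Ext.none :=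
  certFK0 (fam := false) (s1 := true) (s2 := true) (a := 2) (b := 0) (c := 2) (cn := .pp) (n1 := ndF2q2a) (n2 := ndF3q2) (pc := pcF0) (cut := Cut.none) (xt := Ext.none) (P1 := 0) (W1 := 536870912) (P2 := 1073741824) (W2 := 536870912) (P3 := 67108864) (W3 := 67108864)
    rfl rfl rfl k0_pp_202_a

noncomputable def f_pp_202_b : ℕ → ℕ → ℕ → ℕ → Bool := onCell 1239849684 370763052 1073741824 536870912 67108864 67108864
    (rowFK 0 false true true .pp 2 0 2 (qsf 1239849684 370763052 1073741824 536870912 0) ndF2q2b ndF3q2 pcF0 Cut.none Ext.none)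

def k0_pp_202_b : ∃ t, chk3 f_pp_202_b t 1 1 1 = true :=
  ⟨(l 3), by decide +kernel⟩

theorem c_pp_202_b : CertF 1239849684 370763052 1073741824 536870912 67108864 67108864 false true true .pp 2 0 2
    ndF2q2b ndF3q2 pcF0 Cut.none Ext.none :=
  certFK0 (fam := false) (s1 := true) (s2 := true) (a := 2) (b := 0) (c := 2) (cn := .pp) (n1 := ndF2q2b) (n2 := ndF3q2) (pc := pcF0) (cut := Cut.none) (xt := Ext.none) (P1 := 1239849684) (W1 := 370763052) (P2 := 1073741824) (W2 := 536870912) (P3 := 67108864) (W3 := 67108864)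
    rfl rfl rfl k0_pp_202_b

noncomputable def f_pp_203_a : ℕ → ℕ → ℕ → ℕ → Bool := onCell 0 536870912 0 1230186008 67108864 67108864
    (rowFK 0 false true true .up 2 0 3 (qsf 0 536870912 0 1230186008 0) ndF2q2a ndF3q3 pcF0 Cut.none Ext.none)

def k0_pp_203_a : ∃ t, chk3 f_pp_203_a t 1 1 1 = true :=
  ⟨(b (l 2) (l 3)), by decide +kernel⟩

theorem c_pp_203_a : CertF 0 536870912 0 1230186008 67108864 67108864 false true true .up 2 0 3
    ndF2q2a ndF3q3 pcF0 Cut.none Ext.none :=
  certFK0 (fam := false) (s1 := true) (s2 := true) (a := 2) (b := 0) (c := 3) (cn := .up) (n1 := ndF2q2a) (n2 := ndF3q3) (pc := pcF0) (cut := Cut.none) (xt := Ext.none) (P1 := 0) (W1 := 536870912) (P2 := 0) (W2 := 1230186008) (P3 := 67108864) (W3 := 67108864)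
    rfl rfl rfl k0_pp_203_a

noncomputable def f_pp_203_b : ℕ → ℕ → ℕ → ℕ → Bool := onCell 1239849684 370763052 0 1230186008 67108864 67108864
    (rowFK 0 false true true .up 2 0 3 (qsf 1239849684 370763052 0 1230186008 0) ndF2q2b ndF3q3 pcF0 Cut.none Ext.none)

def k0_pp_203_b : ∃ t, chk3 f_pp_203_b t 1 1 1 = true :=
  ⟨(b (l 3) (l 3)), by decide +kernel⟩

theorem c_pp_203_b : CertF 1239849684 370763052 0 1230186008 67108864 67108864 false true true .up 2 0 3
    ndF2q2b ndF3q3 pcF0 Cut.none Ext.none :=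
  certFK0 (fam := false) (s1 := true) (s2 := true) (a := 2) (b := 0) (c := 3) (cn := .up) (n1 := ndF2q2b) (n2 := ndF3q3) (pc := pcF0) (cut := Cut.none) (xt := Ext.none) (P1 := 1239849684) (W1 := 370763052) (P2 := 0) (W2 := 1230186008) (P3 := 67108864) (W3 := 67108864)
    rfl rfl rfl k0_pp_203_b

noncomputable def cut_pp_213_a : Cut := Cut.of [[⟨0, 1, 0, 21338704⟩, ⟨1, 1, 0, 21338704⟩, ⟨2, 2, 0, 1685920⟩]]

noncomputable def f_pp_213_a : ℕ → ℕ → ℕ → ℕ → Bool := onCell 0 536870912 0 1230186008 67108864 67108864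
    (rowFK 0 false true true .pnn 2 1 3 (qsf 0 536870912 0 1230186008 1) ndF2q2a ndF3q3 pcF1 cut_pp_213_a Ext.none)

def k0_pp_213_a : ∃ t, chk3 f_pp_213_a t 1 1 1 = true :=
  ⟨(b (b (a (l 3) (a (l 3) (a (l 3) (b (b (a (l 3) (a (l 3) (b (l 6) (l 3)))) (l 3)) (l 3))))) (l 3)) (l 3)), by decide +kernel⟩

theorem c_pp_213_a : CertF 0 536870912 0 1230186008 67108864 67108864 false true true .pnn 2 1 3
    ndF2q2a ndF3q3 pcF1 cut_pp_213_a Ext.none :=
  certFK0 (fam := false) (s1 := true) (s2 := true) (a := 2) (b := 1) (c := 3) (cn := .pnn) (n1 := ndF2q2a) (n2 := ndF3q3) (pc := pcF1) (cut := cut_pp_213_a) (xt := Ext.none) (P1 := 0) (W1 := 536870912) (P2 := 0) (W2 := 1230186008) (P3 := 67108864) (W3 := 67108864)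
    rfl rfl rfl k0_pp_213_a

noncomputable def cut_pp_213_b : Cut := Cut.of [[⟨0, 1, 0, 21338704⟩, ⟨1, 1, 0, 21338704⟩, ⟨2, 2, 0, 1685920⟩]]

noncomputable def f_pp_213_b : ℕ → ℕ → ℕ → ℕ → Bool := onCell 1239849684 370763052 0 1230186008 67108864 67108864
    (rowFK 0 false true true .pnn 2 1 3 (qsf 1239849684 370763052 0 1230186008 1) ndF2q2b ndF3q3 pcF1 cut_pp_213_b Ext.none)

def k0_pp_213_b : ∃ t, chk3 f_pp_213_b t 1 1 1 = true :=
  ⟨(b (l 3) (l 3)), by decide +kernel⟩

theorem c_pp_213_b : CertF 1239849684 370763052 0 1230186008 67108864 67108864 false true true .pnn 2 1 3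
    ndF2q2b ndF3q3 pcF1 cut_pp_213_b Ext.none :=
  certFK0 (fam := false) (s1 := true) (s2 := true) (a := 2) (b := 1) (c := 3) (cn := .pnn) (n1 := ndF2q2b) (n2 := ndF3q3) (pc := pcF1) (cut := cut_pp_213_b) (xt := Ext.none) (P1 := 1239849684) (W1 := 370763052) (P2 := 0) (W2 := 1230186008) (P3 := 67108864) (W3 := 67108864)
    rfl rfl rfl k0_pp_213_b

noncomputable def f_pp_303 : ℕ → ℕ → ℕ → ℕ → Bool := onCell 1610612736 536870912 0 1230186008 67108864 67108864
    (rowFK 0 false true true .npn 3 0 3 (qsf 1610612736 536870912 0 1230186008 0) ndF2q3 ndF3q3 pcF0 Cut.none Ext.none)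

def k0_pp_303 : ∃ t, chk3 f_pp_303 t 1 1 1 = true :=
  ⟨(b (l 3) (l 3)), by decide +kernel⟩

theorem c_pp_303 : CertF 1610612736 536870912 0 1230186008 67108864 67108864 false true true .npn 3 0 3
    ndF2q3 ndF3q3 pcF0 Cut.none Ext.none :=
  certFK0 (fam := false) (s1 := true) (s2 := true) (a := 3) (b := 0) (c := 3) (cn := .npn) (n1 := ndF2q3) (n2 := ndF3q3) (pc := pcF0) (cut := Cut.none) (xt := Ext.none) (P1 := 1610612736) (W1 := 536870912) (P2 := 0) (W2 := 1230186008) (P3 := 67108864) (W3 := 67108864)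
    rfl rfl rfl k0_pp_303

noncomputable def f_pp_313 : ℕ → ℕ → ℕ → ℕ → Bool := onCell 1610612736 536870912 0 1230186008 67108864 67108864
    (rowFK 0 false true true .dn 3 1 3 (qsf 1610612736 536870912 0 1230186008 1) ndF2q3 ndF3q3 pcF1 Cut.none Ext.none)

def k0_pp_313 : ∃ t, chk3 f_pp_313 t 1 1 1 = true :=
  ⟨(b (l 3) (l 1)), by decide +kernel⟩

theorem c_pp_313 : CertF 1610612736 536870912 0 1230186008 67108864 67108864 false true true .dn 3 1 3
    ndF2q3 ndF3q3 pcF1 Cut.none Ext.none :=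
  certFK0 (fam := false) (s1 := true) (s2 := true) (a := 3) (b := 1) (c := 3) (cn := .dn) (n1 := ndF2q3) (n2 := ndF3q3) (pc := pcF1) (cut := Cut.none) (xt := Ext.none) (P1 := 1610612736) (W1 := 536870912) (P2 := 0) (W2 := 1230186008) (P3 := 67108864) (W3 := 67108864)
    rfl rfl rfl k0_pp_313

noncomputable def f_pm_001 : ℕ → ℕ → ℕ → ℕ → Bool := onCell 0 536870912 536870912 536870912 67108864 67108864
    (rowFK 0 false true false .up 0 0 1 (qsf 0 536870912 536870912 536870912 0) ndF2q0 ndF3q1 pcF0 Cut.none Ext.none)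

def k0_pm_001 : ∃ t, chk3 f_pm_001 t 1 1 1 = true :=
  ⟨(l 4), by decide +kernel⟩

theorem c_pm_001 : CertF 0 536870912 536870912 536870912 67108864 67108864 false true false .up 0 0 1
    ndF2q0 ndF3q1 pcF0 Cut.none Ext.none :=
  certFK0 (fam := false) (s1 := true) (s2 := false) (a := 0) (b := 0) (c := 1) (cn := .up) (n1 := ndF2q0) (n2 := ndF3q1) (pc := pcF0) (cut := Cut.none) (xt := Ext.none) (P1 := 0) (W1 := 536870912) (P2 := 536870912) (W2 := 536870912) (P3 := 67108864) (W3 := 67108864)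
    rfl rfl rfl k0_pm_001

noncomputable def f_pm_011 : ℕ → ℕ → ℕ → ℕ → Bool := onCell 0 536870912 536870912 536870912 67108864 67108864
    (rowFK 0 false true false .pnn 0 1 1 (qsf 0 536870912 536870912 536870912 1) ndF2q0 ndF3q1 pcF1 Cut.none Ext.none)

def k0_pm_011 : ∃ t, chk3 f_pm_011 t 1 1 1 = true :=
  ⟨(l 4), by decide +kernel⟩

theorem c_pm_011 : CertF 0 536870912 536870912 536870912 67108864 67108864 false true false .pnn 0 1 1
    ndF2q0 ndF3q1 pcF1 Cut.none Ext.none :=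
  certFK0 (fam := false) (s1 := true) (s2 := false) (a := 0) (b := 1) (c := 1) (cn := .pnn) (n1 := ndF2q0) (n2 := ndF3q1) (pc := pcF1) (cut := Cut.none) (xt := Ext.none) (P1 := 0) (W1 := 536870912) (P2 := 536870912) (W2 := 536870912) (P3 := 67108864) (W3 := 67108864)
    rfl rfl rfl k0_pm_011

noncomputable def f_pm_012 : ℕ → ℕ → ℕ → ℕ → Bool := onCell 0 536870912 1073741824 536870912 67108864 67108864
    (rowFK 0 false true false .pnp 0 1 2 (qsf 0 536870912 1073741824 536870912 1) ndF2q0 ndF3q2 pcF1 Cut.none Ext.none)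

def k0_pm_012 : ∃ t, chk3 f_pm_012 t 1 1 1 = true :=
  ⟨(l 4), by decide +kernel⟩

theorem c_pm_012 : CertF 0 536870912 1073741824 536870912 67108864 67108864 false true false .pnp 0 1 2
    ndF2q0 ndF3q2 pcF1 Cut.none Ext.none :=
  certFK0 (fam := false) (s1 := true) (s2 := false) (a := 0) (b := 1) (c := 2) (cn := .pnp) (n1 := ndF2q0) (n2 := ndF3q2) (pc := pcF1) (cut := Cut.none) (xt := Ext.none) (P1 := 0) (W1 := 536870912) (P2 := 1073741824) (W2 := 536870912) (P3 := 67108864) (W3 := 67108864)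
    rfl rfl rfl k0_pm_012

noncomputable def f_pm_022 : ℕ → ℕ → ℕ → ℕ → Bool := onCell 0 536870912 1073741824 536870912 67108864 67108864
    (rowFK 0 false true false .pp 0 2 2 (qsf 0 536870912 1073741824 536870912 2) ndF2q0 ndF3q2 pcF2 Cut.none Ext.none)

def k0_pm_022 : ∃ t, chk3 f_pm_022 t 1 1 1 = true :=
  ⟨(l 4), by decide +kernel⟩

theorem c_pm_022 : CertF 0 536870912 1073741824 536870912 67108864 67108864 false true false .pp 0 2 2
    ndF2q0 ndF3q2 pcF2 Cut.none Ext.none :=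
  certFK0 (fam := false) (s1 := true) (s2 := false) (a := 0) (b := 2) (c := 2) (cn := .pp) (n1 := ndF2q0) (n2 := ndF3q2) (pc := pcF2) (cut := Cut.none) (xt := Ext.none) (P1 := 0) (W1 := 536870912) (P2 := 1073741824) (W2 := 536870912) (P3 := 67108864) (W3 := 67108864)
    rfl rfl rfl k0_pm_022

noncomputable def f_pm_023 : ℕ → ℕ → ℕ → ℕ → Bool := onCell 0 536870912 0 1230186008 67108864 67108864
    (rowFK 0 false true false .up 0 2 3 (qsf 0 536870912 0 1230186008 2) ndF2q0 ndF3q3 pcF2 Cut.none Ext.none)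

def k0_pm_023 : ∃ t, chk3 f_pm_023 t 1 1 1 = true :=
  ⟨(b (l 4) (l 4)), by decide +kernel⟩

theorem c_pm_023 : CertF 0 536870912 0 1230186008 67108864 67108864 false true false .up 0 2 3
    ndF2q0 ndF3q3 pcF2 Cut.none Ext.none :=
  certFK0 (fam := false) (s1 := true) (s2 := false) (a := 0) (b := 2) (c := 3) (cn := .up) (n1 := ndF2q0) (n2 := ndF3q3) (pc := pcF2) (cut := Cut.none) (xt := Ext.none) (P1 := 0) (W1 := 536870912) (P2 := 0) (W2 := 1230186008) (P3 := 67108864) (W3 := 67108864)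
    rfl rfl rfl k0_pm_023

noncomputable def f_pm_033 : ℕ → ℕ → ℕ → ℕ → Bool := onCell 0 536870912 0 1230186008 67108864 67108864
    (rowFK 0 false true false .pnn 0 3 3 (qsf 0 536870912 0 1230186008 3) ndF2q0 ndF3q3 pcF3 Cut.none Ext.none)

def k0_pm_033 : ∃ t, chk3 f_pm_033 t 1 1 1 = true :=
  ⟨(b (l 4) (l 4)), by decide +kernel⟩

theorem c_pm_033 : CertF 0 536870912 0 1230186008 67108864 67108864 false true false .pnn 0 3 3
    ndF2q0 ndF3q3 pcF3 Cut.none Ext.none :=
  certFK0 (fam := false) (s1 := true) (s2 := false) (a := 0) (b := 3) (c := 3) (cn := .pnn) (n1 := ndF2q0) (n2 := ndF3q3) (pc := pcF3) (cut := Cut.none) (xt := Ext.none) (P1 := 0) (W1 := 536870912) (P2 := 0) (W2 := 1230186008) (P3 := 67108864) (W3 := 67108864)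
    rfl rfl rfl k0_pm_033

noncomputable def f_pm_101 : ℕ → ℕ → ℕ → ℕ → Bool := onCell 536870912 536870912 536870912 536870912 67108864 67108864
    (rowFK 0 false true false .npn 1 0 1 (qsf 536870912 536870912 536870912 536870912 0) ndF2q1 ndF3q1 pcF0 Cut.none Ext.none)

def k0_pm_101 : ∃ t, chk3 f_pm_101 t 1 1 1 = true :=
  ⟨(l 4), by decide +kernel⟩

theorem c_pm_101 : CertF 536870912 536870912 536870912 536870912 67108864 67108864 false true false .npn 1 0 1
    ndF2q1 ndF3q1 pcF0 Cut.none Ext.none :=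
  certFK0 (fam := false) (s1 := true) (s2 := false) (a := 1) (b := 0) (c := 1) (cn := .npn) (n1 := ndF2q1) (n2 := ndF3q1) (pc := pcF0) (cut := Cut.none) (xt := Ext.none) (P1 := 536870912) (W1 := 536870912) (P2 := 536870912) (W2 := 536870912) (P3 := 67108864) (W3 := 67108864)
    rfl rfl rfl k0_pm_101

noncomputable def f_pm_102 : ℕ → ℕ → ℕ → ℕ → Bool := onCell 536870912 536870912 1073741824 536870912 67108864 67108864
    (rowFK 0 false true false .npp 1 0 2 (qsf 536870912 536870912 1073741824 536870912 0) ndF2q1 ndF3q2 pcF0 Cut.none Ext.none)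

def k0_pm_102 : ∃ t, chk3 f_pm_102 t 1 1 1 = true :=
  ⟨(l 4), by decide +kernel⟩

theorem c_pm_102 : CertF 536870912 536870912 1073741824 536870912 67108864 67108864 false true false .npp 1 0 2
    ndF2q1 ndF3q2 pcF0 Cut.none Ext.none :=
  certFK0 (fam := false) (s1 := true) (s2 := false) (a := 1) (b := 0) (c := 2) (cn := .npp) (n1 := ndF2q1) (n2 := ndF3q2) (pc := pcF0) (cut := Cut.none) (xt := Ext.none) (P1 := 536870912) (W1 := 536870912) (P2 := 1073741824) (W2 := 536870912) (P3 := 67108864) (W3 := 67108864)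
    rfl rfl rfl k0_pm_102

noncomputable def f_pm_112 : ℕ → ℕ → ℕ → ℕ → Bool := onCell 536870912 536870912 1073741824 536870912 67108864 67108864
    (rowFK 0 false true false .dn 1 1 2 (qsf 536870912 536870912 1073741824 536870912 1) ndF2q1 ndF3q2 pcF1 Cut.none Ext.none)

def k0_pm_112 : ∃ t, chk3 f_pm_112 t 1 1 1 = true :=
  ⟨(l 4), by decide +kernel⟩

theorem c_pm_112 : CertF 536870912 536870912 1073741824 536870912 67108864 67108864 false true false .dn 1 1 2
    ndF2q1 ndF3q2 pcF1 Cut.none Ext.none :=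
  certFK0 (fam := false) (s1 := true) (s2 := false) (a := 1) (b := 1) (c := 2) (cn := .dn) (n1 := ndF2q1) (n2 := ndF3q2) (pc := pcF1) (cut := Cut.none) (xt := Ext.none) (P1 := 536870912) (W1 := 536870912) (P2 := 1073741824) (W2 := 536870912) (P3 := 67108864) (W3 := 67108864)
    rfl rfl rfl k0_pm_112

noncomputable def f_pm_113 : ℕ → ℕ → ℕ → ℕ → Bool := onCell 536870912 536870912 0 1230186008 67108864 67108864
    (rowFK 0 false true false .nn 1 1 3 (qsf 536870912 536870912 0 1230186008 1) ndF2q1 ndF3q3 pcF1 Cut.none Ext.none)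

def k0_pm_113 : ∃ t, chk3 f_pm_113 t 1 1 1 = true :=
  ⟨(b (b (a (l 2) (a (l 2) (a (l 2) (a (l 2) (l 16838920))))) (l 4)) (l 4)), by decide +kernel⟩

theorem c_pm_113 : CertF 536870912 536870912 0 1230186008 67108864 67108864 false true false .nn 1 1 3
    ndF2q1 ndF3q3 pcF1 Cut.none Ext.none :=
  certFK0 (fam := false) (s1 := true) (s2 := false) (a := 1) (b := 1) (c := 3) (cn := .nn) (n1 := ndF2q1) (n2 := ndF3q3) (pc := pcF1) (cut := Cut.none) (xt := Ext.none) (P1 := 536870912) (W1 := 536870912) (P2 := 0) (W2 := 1230186008) (P3 := 67108864) (W3 := 67108864)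
    rfl rfl rfl k0_pm_113

noncomputable def f_pm_123 : ℕ → ℕ → ℕ → ℕ → Bool := onCell 536870912 536870912 0 1230186008 67108864 67108864
    (rowFK 0 false true false .npn 1 2 3 (qsf 536870912 536870912 0 1230186008 2) ndF2q1 ndF3q3 pcF2 Cut.none Ext.none)

def k0_pm_123 : ∃ t, chk3 f_pm_123 t 1 1 1 = true :=
  ⟨(b (a (l 4) (a (l 4) (a (l 17195552) (a (l 17021664) (l 17005272))))) (l 4)), by decide +kernel⟩

theorem c_pm_123 : CertF 536870912 536870912 0 1230186008 67108864 67108864 false true false .npn 1 2 3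
    ndF2q1 ndF3q3 pcF2 Cut.none Ext.none :=
  certFK0 (fam := false) (s1 := true) (s2 := false) (a := 1) (b := 2) (c := 3) (cn := .npn) (n1 := ndF2q1) (n2 := ndF3q3) (pc := pcF2) (cut := Cut.none) (xt := Ext.none) (P1 := 536870912) (W1 := 536870912) (P2 := 0) (W2 := 1230186008) (P3 := 67108864) (W3 := 67108864)
    rfl rfl rfl k0_pm_123

noncomputable def f_pm_133 : ℕ → ℕ → ℕ → ℕ → Bool := onCell 1610612736 536870912 0 1230186008 67108864 67108864
    (rowFK 2 false true false .dn 1 3 3 (qsf 536870912 536870912 0 1230186008 3) ndF2q1 ndF3q3 pcF3 Cut.none Ext.none)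

def k0_pm_133 : ∃ t, chk3 f_pm_133 t 1 1 1 = true :=
  ⟨(b (a (l 4) (l 1)) (l 1)), by decide +kernel⟩

theorem c_pm_133 : CertF 536870912 536870912 0 1230186008 67108864 67108864 false true false .dn 1 3 3
    ndF2q1 ndF3q3 pcF3 Cut.none Ext.none :=
  certFK2 (fam := false) (s1 := true) (s2 := false) (a := 1) (b := 3) (c := 3) (cn := .dn) (n1 := ndF2q1) (n2 := ndF3q3) (pc := pcF3) (cut := Cut.none) (xt := Ext.none) (P1 := 536870912) (W1 := 536870912) (P2 := 0) (W2 := 1230186008) (P3 := 67108864) (W3 := 67108864)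
    rfl rfl rfl (fun _ => rfl) k0_pm_133

noncomputable def f_pm_202_a : ℕ → ℕ → ℕ → ℕ → Bool := onCell 0 536870912 0 536870912 67108864 67108864
    (rowFK 1 false true false .pp 2 0 2 (qsf 0 536870912 1073741824 536870912 0) ndF2q2a ndF3q2 pcF0 Cut.none Ext.none)

def k0_pm_202_a : ∃ t, chk3 f_pm_202_a t 1 1 1 = true :=
  ⟨(a (b (b (b (l 18788952) (l 18276360)) (b (l 17839112) (l 17752688))) (b (b (l 17602672) (l 17699456)) (a (l 2) (l 17623880)))) (b (a (b (b (l 18954928) (l 18494152)) (b (l 17940568) (l 17700928))) (b (a (b (l 19075920) (l 18673120)) (b (l 19214088) (l 18820000))) (a (b (l 18100928) (l 17792824)) (l 18232576)))) (a (b (b (l 17589424) (l 17531816)) (l 17569776)) (b (a (b (l 17728512) (l 17530976)) (b (l 17842504) (l 17718120))) (a (l 17520896) (l 17456360)))))), by decide +kernel⟩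

theorem c_pm_202_a : CertF 0 536870912 1073741824 536870912 67108864 67108864 false true false .pp 2 0 2
    ndF2q2a ndF3q2 pcF0 Cut.none Ext.none :=
  certFK1 (fam := false) (s1 := true) (s2 := false) (a := 2) (b := 0) (c := 2) (cn := .pp) (n1 := ndF2q2a) (n2 := ndF3q2) (pc := pcF0) (cut := Cut.none) (xt := Ext.none) (P1 := 0) (W1 := 536870912) (P2 := 1073741824) (W2 := 536870912) (P3 := 67108864) (W3 := 67108864)
    rfl rfl rfl (fun _ => rfl) k0_pm_202_a

noncomputable def f_pm_202_b : ℕ → ℕ → ℕ → ℕ → Bool := onCell 1239849684 370763052 0 536870912 67108864 67108864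
    (rowFK 1 false true false .pp 2 0 2 (qsf 1239849684 370763052 1073741824 536870912 0) ndF2q2b ndF3q2 pcF0 Cut.none Ext.none)

def k0_pm_202_b : ∃ t, chk3 f_pm_202_b t 1 1 1 = true :=
  ⟨(b (b (a (b (a (l 18436360) (l 17824592)) (a (l 17866688) (l 17577480))) (b (a (l 17418392) (l 17931120)) (a (l 17892576) (l 211094013047)))) (a (b (a (l 17688840) (l 17770144)) (a (l 17671712) (l 17805072))) (b (a (l 17964176) (l 2)) (l 2)))) (a (b (b (l 17875080) (a (l 17569336) (l 2))) (l 2)) (l 2))), by decide +kernel⟩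

theorem c_pm_202_b : CertF 1239849684 370763052 1073741824 536870912 67108864 67108864 false true false .pp 2 0 2
    ndF2q2b ndF3q2 pcF0 Cut.none Ext.none :=
  certFK1 (fam := false) (s1 := true) (s2 := false) (a := 2) (b := 0) (c := 2) (cn := .pp) (n1 := ndF2q2b) (n2 := ndF3q2) (pc := pcF0) (cut := Cut.none) (xt := Ext.none) (P1 := 1239849684) (W1 := 370763052) (P2 := 1073741824) (W2 := 536870912) (P3 := 67108864) (W3 := 67108864)
    rfl rfl rfl (fun _ => rfl) k0_pm_202_b

noncomputable def f_pm_203_a : ℕ → ℕ → ℕ → ℕ → Bool := onCell 0 536870912 0 1230186008 67108864 67108864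
    (rowFK 0 false true false .up 2 0 3 (qsf 0 536870912 0 1230186008 0) ndF2q2a ndF3q3 pcF0 Cut.none Ext.none)

def k0_pm_203_a : ∃ t, chk3 f_pm_203_a t 1 1 1 = true :=
  ⟨(b (l 2) (b (l 2) (b (a (l 17961848) (l 2)) (a (b (l 18150608) (l 18219720)) (a (l 18193368) (a (l 18258992) (l 18341160))))))), by decide +kernel⟩

theorem c_pm_203_a : CertF 0 536870912 0 1230186008 67108864 67108864 false true false .up 2 0 3
    ndF2q2a ndF3q3 pcF0 Cut.none Ext.none :=
  certFK0 (fam := false) (s1 := true) (s2 := false) (a := 2) (b := 0) (c := 3) (cn := .up) (n1 := ndF2q2a) (n2 := ndF3q3) (pc := pcF0) (cut := Cut.none) (xt := Ext.none) (P1 := 0) (W1 := 536870912) (P2 := 0) (W2 := 1230186008) (P3 := 67108864) (W3 := 67108864)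
    rfl rfl rfl k0_pm_203_a

noncomputable def f_pm_203_b : ℕ → ℕ → ℕ → ℕ → Bool := onCell 0 536870912 0 1230186008 67108864 67108864
    (rowFK 2 false true false .up 2 0 3 (qsf 1239849684 370763052 0 1230186008 0) ndF2q2b ndF3q3 pcF0 Cut.none Ext.none)

def k0_pm_203_b : ∃ t, chk3 f_pm_203_b t 1 1 1 = true :=
  ⟨(b (a (l 2) (l 3)) (b (a (l 3) (a (l 169820406215) (b (l 3) (l 17456544)))) (a (b (a (l 2) (l 17537864)) (a (a (l 17919760) (l 17804184)) (b (l 17808848) (l 17924728)))) (b (a (l 17633936) (l 17993232)) (a (b (l 17922288) (l 18055112)) (b (a (l 18043632) (l 18118208)) (a (l 18202880) (l 1)))))))), by decide +kernel⟩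

theorem c_pm_203_b : CertF 1239849684 370763052 0 1230186008 67108864 67108864 false true false .up 2 0 3
    ndF2q2b ndF3q3 pcF0 Cut.none Ext.none :=
  certFK2 (fam := false) (s1 := true) (s2 := false) (a := 2) (b := 0) (c := 3) (cn := .up) (n1 := ndF2q2b) (n2 := ndF3q3) (pc := pcF0) (cut := Cut.none) (xt := Ext.none) (P1 := 1239849684) (W1 := 370763052) (P2 := 0) (W2 := 1230186008) (P3 := 67108864) (W3 := 67108864)
    rfl rfl rfl (fun _ => rfl) k0_pm_203_b

noncomputable def cut_pm_213_a : Cut := Cut.of [[⟨0, 1, 0, 21338704⟩, ⟨1, 1, 0, 21338704⟩, ⟨2, 2, 0, 1685920⟩]]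

noncomputable def f_pm_213_a : ℕ → ℕ → ℕ → ℕ → Bool := onCell 0 536870912 0 1230186008 67108864 67108864
    (rowFK 0 false true false .pnn 2 1 3 (qsf 0 536870912 0 1230186008 1) ndF2q2a ndF3q3 pcF1 cut_pm_213_a Ext.none)

def k0_pm_213_a : ∃ t, chk3 f_pm_213_a t 1 1 1 = true :=
  ⟨(b (a (b (l 3) (b (l 17227704) (l 17174960))) (a (b (b (l 3) (l 297058044887)) (b (l 17054632) (l 17140968))) (a (b (b (b (l 3) (l 302963520055)) (l 7147748311)) (b (l 16997096) (l 17129280))) (b (b (a (l 290614994311) (a (l 284172579927) (b (b (l 6) (l 16780904)) (l 16785976)))) (l 16851496)) (b (l 16932624) (l 17127344)))))) (b (a (b (l 17447160) (l 17832104)) (a (b (l 17504544) (l 17839072)) (a (b (l 17473680) (l 17842776)) (b (l 17435112) (l 17857592))))) (a (b (l 18260600) (b (l 18541024) (l 1))) (b (a (l 18294336) (a (l 18318856) (l 18350320))) (a (l 18705112) (a (l 18753224) (l 18800824))))))), by decide +kernel⟩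

theorem c_pm_213_a : CertF 0 536870912 0 1230186008 67108864 67108864 false true false .pnn 2 1 3
    ndF2q2a ndF3q3 pcF1 cut_pm_213_a Ext.none :=
  certFK0 (fam := false) (s1 := true) (s2 := false) (a := 2) (b := 1) (c := 3) (cn := .pnn) (n1 := ndF2q2a) (n2 := ndF3q3) (pc := pcF1) (cut := cut_pm_213_a) (xt := Ext.none) (P1 := 0) (W1 := 536870912) (P2 := 0) (W2 := 1230186008) (P3 := 67108864) (W3 := 67108864)
    rfl rfl rfl k0_pm_213_a

noncomputable def cut_pm_213_b : Cut := Cut.of [[⟨0, 1, 0, 21338704⟩, ⟨1, 1, 0, 21338704⟩, ⟨2, 2, 0, 1685920⟩]]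

noncomputable def f_pm_213_b : ℕ → ℕ → ℕ → ℕ → Bool := onCell 1239849684 370763052 0 1230186008 67108864 67108864
    (rowFK 0 false true false .pnn 2 1 3 (qsf 1239849684 370763052 0 1230186008 1) ndF2q2b ndF3q3 pcF1 cut_pm_213_b Ext.none)

def k0_pm_213_b : ∃ t, chk3 f_pm_213_b t 1 1 1 = true :=
  ⟨(b (a (b (l 3) (a (b (l 3) (l 17077336)) (l 3))) (l 3)) (b (a (b (a (l 17337936) (l 17220608)) (a (l 17704176) (l 17544240))) (b (l 3) (l 1))) (a (b (a (l 18115776) (l 1)) (l 1)) (l 1)))), by decide +kernel⟩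

theorem c_pm_213_b : CertF 1239849684 370763052 0 1230186008 67108864 67108864 false true false .pnn 2 1 3
    ndF2q2b ndF3q3 pcF1 cut_pm_213_b Ext.none :=
  certFK0 (fam := false) (s1 := true) (s2 := false) (a := 2) (b := 1) (c := 3) (cn := .pnn) (n1 := ndF2q2b) (n2 := ndF3q3) (pc := pcF1) (cut := cut_pm_213_b) (xt := Ext.none) (P1 := 1239849684) (W1 := 370763052) (P2 := 0) (W2 := 1230186008) (P3 := 67108864) (W3 := 67108864)
    rfl rfl rfl k0_pm_213_b

noncomputable def f_pm_303 : ℕ → ℕ → ℕ → ℕ → Bool := onCell 0 536870912 0 1230186008 67108864 67108864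
    (rowFK 2 false true false .npn 3 0 3 (qsf 1610612736 536870912 0 1230186008 0) ndF2q3 ndF3q3 pcF0 Cut.none Ext.none)

def k0_pm_303 : ∃ t, chk3 f_pm_303 t 1 1 1 = true :=
  ⟨(b (a (l 3) (l 3)) (a (b (l 3) (b (a (b (l 3) (l 18614960)) (l 104325499335)) (a (a (b (l 18687840) (l 18706584)) (b (l 18871960) (l 18977600))) (b (l 19165288) (l 1))))) (b (b (l 3) (a (l 141906294935) (l 1))) (l 1)))), by decide +kernel⟩

theorem c_pm_303 : CertF 1610612736 536870912 0 1230186008 67108864 67108864 false true false .npn 3 0 3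
    ndF2q3 ndF3q3 pcF0 Cut.none Ext.none :=
  certFK2 (fam := false) (s1 := true) (s2 := false) (a := 3) (b := 0) (c := 3) (cn := .npn) (n1 := ndF2q3) (n2 := ndF3q3) (pc := pcF0) (cut := Cut.none) (xt := Ext.none) (P1 := 1610612736) (W1 := 536870912) (P2 := 0) (W2 := 1230186008) (P3 := 67108864) (W3 := 67108864)
    rfl rfl rfl (fun _ => rfl) k0_pm_303

noncomputable def f_pm_313 : ℕ → ℕ → ℕ → ℕ → Bool := onCell 1610612736 536870912 0 1230186008 67108864 67108864
    (rowFK 0 false true false .dn 3 1 3 (qsf 1610612736 536870912 0 1230186008 1) ndF2q3 ndF3q3 pcF1 Cut.none Ext.none)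

def k0_pm_313 : ∃ t, chk3 f_pm_313 t 1 1 1 = true :=
  ⟨(b (l 3) (l 1)), by decide +kernel⟩

theorem c_pm_313 : CertF 1610612736 536870912 0 1230186008 67108864 67108864 false true false .dn 3 1 3
    ndF2q3 ndF3q3 pcF1 Cut.none Ext.none :=
  certFK0 (fam := false) (s1 := true) (s2 := false) (a := 3) (b := 1) (c := 3) (cn := .dn) (n1 := ndF2q3) (n2 := ndF3q3) (pc := pcF1) (cut := Cut.none) (xt := Ext.none) (P1 := 1610612736) (W1 := 536870912) (P2 := 0) (W2 := 1230186008) (P3 := 67108864) (W3 := 67108864)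
    rfl rfl rfl k0_pm_313

noncomputable def f_mm_001 : ℕ → ℕ → ℕ → ℕ → Bool := onCell 0 536870912 0 536870912 67108864 67108864
    (rowFK 1 false false false .up 0 0 1 (qsf 0 536870912 536870912 536870912 0) ndF2q0 ndF3q1 pcF0 Cut.none Ext.none)

def k0_mm_001 : ∃ t, chk3 f_mm_001 t 1 1 1 = true :=
  ⟨(l 3), by decide +kernel⟩

theorem c_mm_001 : CertF 0 536870912 536870912 536870912 67108864 67108864 false false false .up 0 0 1
    ndF2q0 ndF3q1 pcF0 Cut.none Ext.none :=
  certFK1 (fam := false) (s1 := false) (s2 := false) (a := 0) (b := 0) (c := 1) (cn := .up) (n1 := ndF2q0) (n2 := ndF3q1) (pc := pcF0) (cut := Cut.none) (xt := Ext.none) (P1 := 0) (W1 := 536870912) (P2 := 536870912) (W2 := 536870912) (P3 := 67108864) (W3 := 67108864)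
    rfl rfl rfl (fun _ => rfl) k0_mm_001

noncomputable def f_mm_011 : ℕ → ℕ → ℕ → ℕ → Bool := onCell 0 536870912 536870912 536870912 67108864 67108864
    (rowFK 1 false false false .pnn 0 1 1 (qsf 0 536870912 536870912 536870912 1) ndF2q0 ndF3q1 pcF1 Cut.none Ext.none)

def k0_mm_011 : ∃ t, chk3 f_mm_011 t 1 1 1 = true :=
  ⟨(l 5), by decide +kernel⟩

theorem c_mm_011 : CertF 0 536870912 536870912 536870912 67108864 67108864 false false false .pnn 0 1 1
    ndF2q0 ndF3q1 pcF1 Cut.none Ext.none :=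
  certFK1 (fam := false) (s1 := false) (s2 := false) (a := 0) (b := 1) (c := 1) (cn := .pnn) (n1 := ndF2q0) (n2 := ndF3q1) (pc := pcF1) (cut := Cut.none) (xt := Ext.none) (P1 := 0) (W1 := 536870912) (P2 := 536870912) (W2 := 536870912) (P3 := 67108864) (W3 := 67108864)
    rfl rfl rfl (fun _ => rfl) k0_mm_011

noncomputable def f_mm_012 : ℕ → ℕ → ℕ → ℕ → Bool := onCell 0 536870912 1073741824 536870912 67108864 67108864
    (rowFK 0 false false false .pnp 0 1 2 (qsf 0 536870912 1073741824 536870912 1) ndF2q0 ndF3q2 pcF1 Cut.none Ext.none)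

def k0_mm_012 : ∃ t, chk3 f_mm_012 t 1 1 1 = true :=
  ⟨(l 5), by decide +kernel⟩

theorem c_mm_012 : CertF 0 536870912 1073741824 536870912 67108864 67108864 false false false .pnp 0 1 2
    ndF2q0 ndF3q2 pcF1 Cut.none Ext.none :=
  certFK0 (fam := false) (s1 := false) (s2 := false) (a := 0) (b := 1) (c := 2) (cn := .pnp) (n1 := ndF2q0) (n2 := ndF3q2) (pc := pcF1) (cut := Cut.none) (xt := Ext.none) (P1 := 0) (W1 := 536870912) (P2 := 1073741824) (W2 := 536870912) (P3 := 67108864) (W3 := 67108864)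
    rfl rfl rfl k0_mm_012

noncomputable def f_mm_022 : ℕ → ℕ → ℕ → ℕ → Bool := onCell 0 536870912 1073741824 536870912 67108864 67108864
    (rowFK 0 false false false .pp 0 2 2 (qsf 0 536870912 1073741824 536870912 2) ndF2q0 ndF3q2 pcF2 Cut.none Ext.none)

def k0_mm_022 : ∃ t, chk3 f_mm_022 t 1 1 1 = true :=
  ⟨(l 5), by decide +kernel⟩

theorem c_mm_022 : CertF 0 536870912 1073741824 536870912 67108864 67108864 false false false .pp 0 2 2
    ndF2q0 ndF3q2 pcF2 Cut.none Ext.none :=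
  certFK0 (fam := false) (s1 := false) (s2 := false) (a := 0) (b := 2) (c := 2) (cn := .pp) (n1 := ndF2q0) (n2 := ndF3q2) (pc := pcF2) (cut := Cut.none) (xt := Ext.none) (P1 := 0) (W1 := 536870912) (P2 := 1073741824) (W2 := 536870912) (P3 := 67108864) (W3 := 67108864)
    rfl rfl rfl k0_mm_022

noncomputable def f_mm_023 : ℕ → ℕ → ℕ → ℕ → Bool := onCell 0 536870912 0 1230186008 67108864 67108864
    (rowFK 0 false false false .up 0 2 3 (qsf 0 536870912 0 1230186008 2) ndF2q0 ndF3q3 pcF2 Cut.none Ext.none)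

def k0_mm_023 : ∃ t, chk3 f_mm_023 t 1 1 1 = true :=
  ⟨(l 5), by decide +kernel⟩

theorem c_mm_023 : CertF 0 536870912 0 1230186008 67108864 67108864 false false false .up 0 2 3
    ndF2q0 ndF3q3 pcF2 Cut.none Ext.none :=
  certFK0 (fam := false) (s1 := false) (s2 := false) (a := 0) (b := 2) (c := 3) (cn := .up) (n1 := ndF2q0) (n2 := ndF3q3) (pc := pcF2) (cut := Cut.none) (xt := Ext.none) (P1 := 0) (W1 := 536870912) (P2 := 0) (W2 := 1230186008) (P3 := 67108864) (W3 := 67108864)
    rfl rfl rfl k0_mm_023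

noncomputable def f_mm_033 : ℕ → ℕ → ℕ → ℕ → Bool := onCell 0 536870912 0 1230186008 67108864 67108864
    (rowFK 0 false false false .pnn 0 3 3 (qsf 0 536870912 0 1230186008 3) ndF2q0 ndF3q3 pcF3 Cut.none Ext.none)

def k0_mm_033 : ∃ t, chk3 f_mm_033 t 1 1 1 = true :=
  ⟨(l 5), by decide +kernel⟩

theorem c_mm_033 : CertF 0 536870912 0 1230186008 67108864 67108864 false false false .pnn 0 3 3
    ndF2q0 ndF3q3 pcF3 Cut.none Ext.none :=
  certFK0 (fam := false) (s1 := false) (s2 := false) (a := 0) (b := 3) (c := 3) (cn := .pnn) (n1 := ndF2q0) (n2 := ndF3q3) (pc := pcF3) (cut := Cut.none) (xt := Ext.none) (P1 := 0) (W1 := 536870912) (P2 := 0) (W2 := 1230186008) (P3 := 67108864) (W3 := 67108864)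
    rfl rfl rfl k0_mm_033

noncomputable def f_mm_101 : ℕ → ℕ → ℕ → ℕ → Bool := onCell 536870912 536870912 536870912 536870912 67108864 67108864
    (rowFK 0 false false false .npn 1 0 1 (qsf 536870912 536870912 536870912 536870912 0) ndF2q1 ndF3q1 pcF0 Cut.none Ext.none)

def k0_mm_101 : ∃ t, chk3 f_mm_101 t 1 1 1 = true :=
  ⟨(l 3), by decide +kernel⟩

theorem c_mm_101 : CertF 536870912 536870912 536870912 536870912 67108864 67108864 false false false .npn 1 0 1
    ndF2q1 ndF3q1 pcF0 Cut.none Ext.none :=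
  certFK0 (fam := false) (s1 := false) (s2 := false) (a := 1) (b := 0) (c := 1) (cn := .npn) (n1 := ndF2q1) (n2 := ndF3q1) (pc := pcF0) (cut := Cut.none) (xt := Ext.none) (P1 := 536870912) (W1 := 536870912) (P2 := 536870912) (W2 := 536870912) (P3 := 67108864) (W3 := 67108864)
    rfl rfl rfl k0_mm_101

noncomputable def f_mm_102 : ℕ → ℕ → ℕ → ℕ → Bool := onCell 536870912 536870912 1073741824 536870912 67108864 67108864
    (rowFK 0 false false false .npp 1 0 2 (qsf 536870912 536870912 1073741824 536870912 0) ndF2q1 ndF3q2 pcF0 Cut.none Ext.none)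

def k0_mm_102 : ∃ t, chk3 f_mm_102 t 1 1 1 = true :=
  ⟨(l 5), by decide +kernel⟩

theorem c_mm_102 : CertF 536870912 536870912 1073741824 536870912 67108864 67108864 false false false .npp 1 0 2
    ndF2q1 ndF3q2 pcF0 Cut.none Ext.none :=
  certFK0 (fam := false) (s1 := false) (s2 := false) (a := 1) (b := 0) (c := 2) (cn := .npp) (n1 := ndF2q1) (n2 := ndF3q2) (pc := pcF0) (cut := Cut.none) (xt := Ext.none) (P1 := 536870912) (W1 := 536870912) (P2 := 1073741824) (W2 := 536870912) (P3 := 67108864) (W3 := 67108864)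
    rfl rfl rfl k0_mm_102

noncomputable def f_mm_112 : ℕ → ℕ → ℕ → ℕ → Bool := onCell 536870912 536870912 1073741824 536870912 67108864 67108864
    (rowFK 0 false false false .dn 1 1 2 (qsf 536870912 536870912 1073741824 536870912 1) ndF2q1 ndF3q2 pcF1 Cut.none Ext.none)

def k0_mm_112 : ∃ t, chk3 f_mm_112 t 1 1 1 = true :=
  ⟨(l 5), by decide +kernel⟩

theorem c_mm_112 : CertF 536870912 536870912 1073741824 536870912 67108864 67108864 false false false .dn 1 1 2
    ndF2q1 ndF3q2 pcF1 Cut.none Ext.none :=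
  certFK0 (fam := false) (s1 := false) (s2 := false) (a := 1) (b := 1) (c := 2) (cn := .dn) (n1 := ndF2q1) (n2 := ndF3q2) (pc := pcF1) (cut := Cut.none) (xt := Ext.none) (P1 := 536870912) (W1 := 536870912) (P2 := 1073741824) (W2 := 536870912) (P3 := 67108864) (W3 := 67108864)
    rfl rfl rfl k0_mm_112

noncomputable def f_mm_113 : ℕ → ℕ → ℕ → ℕ → Bool := onCell 536870912 536870912 0 1230186008 67108864 67108864
    (rowFK 0 false false false .nn 1 1 3 (qsf 536870912 536870912 0 1230186008 1) ndF2q1 ndF3q3 pcF1 Cut.none Ext.none)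

def k0_mm_113 : ∃ t, chk3 f_mm_113 t 1 1 1 = true :=
  ⟨(l 5), by decide +kernel⟩

theorem c_mm_113 : CertF 536870912 536870912 0 1230186008 67108864 67108864 false false false .nn 1 1 3
    ndF2q1 ndF3q3 pcF1 Cut.none Ext.none :=
  certFK0 (fam := false) (s1 := false) (s2 := false) (a := 1) (b := 1) (c := 3) (cn := .nn) (n1 := ndF2q1) (n2 := ndF3q3) (pc := pcF1) (cut := Cut.none) (xt := Ext.none) (P1 := 536870912) (W1 := 536870912) (P2 := 0) (W2 := 1230186008) (P3 := 67108864) (W3 := 67108864)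
    rfl rfl rfl k0_mm_113

noncomputable def f_mm_123 : ℕ → ℕ → ℕ → ℕ → Bool := onCell 536870912 536870912 0 1230186008 67108864 67108864
    (rowFK 0 false false false .npn 1 2 3 (qsf 536870912 536870912 0 1230186008 2) ndF2q1 ndF3q3 pcF2 Cut.none Ext.none)

def k0_mm_123 : ∃ t, chk3 f_mm_123 t 1 1 1 = true :=
  ⟨(l 5), by decide +kernel⟩

theorem c_mm_123 : CertF 536870912 536870912 0 1230186008 67108864 67108864 false false false .npn 1 2 3
    ndF2q1 ndF3q3 pcF2 Cut.none Ext.none :=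
  certFK0 (fam := false) (s1 := false) (s2 := false) (a := 1) (b := 2) (c := 3) (cn := .npn) (n1 := ndF2q1) (n2 := ndF3q3) (pc := pcF2) (cut := Cut.none) (xt := Ext.none) (P1 := 536870912) (W1 := 536870912) (P2 := 0) (W2 := 1230186008) (P3 := 67108864) (W3 := 67108864)
    rfl rfl rfl k0_mm_123

noncomputable def f_mm_133 : ℕ → ℕ → ℕ → ℕ → Bool := onCell 536870912 536870912 0 1230186008 67108864 67108864
    (rowFK 0 false false false .dn 1 3 3 (qsf 536870912 536870912 0 1230186008 3) ndF2q1 ndF3q3 pcF3 Cut.none Ext.none)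

def k0_mm_133 : ∃ t, chk3 f_mm_133 t 1 1 1 = true :=
  ⟨(l 5), by decide +kernel⟩

theorem c_mm_133 : CertF 536870912 536870912 0 1230186008 67108864 67108864 false false false .dn 1 3 3
    ndF2q1 ndF3q3 pcF3 Cut.none Ext.none :=
  certFK0 (fam := false) (s1 := false) (s2 := false) (a := 1) (b := 3) (c := 3) (cn := .dn) (n1 := ndF2q1) (n2 := ndF3q3) (pc := pcF3) (cut := Cut.none) (xt := Ext.none) (P1 := 536870912) (W1 := 536870912) (P2 := 0) (W2 := 1230186008) (P3 := 67108864) (W3 := 67108864)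
    rfl rfl rfl k0_mm_133

noncomputable def f_mm_202_a : ℕ → ℕ → ℕ → ℕ → Bool := onCell 0 536870912 1073741824 536870912 67108864 67108864
    (rowFK 0 false false false .pp 2 0 2 (qsf 0 536870912 1073741824 536870912 0) ndF2q2a ndF3q2 pcF0 Cut.none Ext.none)

def k0_mm_202_a : ∃ t, chk3 f_mm_202_a t 1 1 1 = true :=
  ⟨(l 3), by decide +kernel⟩

theorem c_mm_202_a : CertF 0 536870912 1073741824 536870912 67108864 67108864 false false false .pp 2 0 2
    ndF2q2a ndF3q2 pcF0 Cut.none Ext.none :=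
  certFK0 (fam := false) (s1 := false) (s2 := false) (a := 2) (b := 0) (c := 2) (cn := .pp) (n1 := ndF2q2a) (n2 := ndF3q2) (pc := pcF0) (cut := Cut.none) (xt := Ext.none) (P1 := 0) (W1 := 536870912) (P2 := 1073741824) (W2 := 536870912) (P3 := 67108864) (W3 := 67108864)
    rfl rfl rfl k0_mm_202_a

noncomputable def f_mm_202_b : ℕ → ℕ → ℕ → ℕ → Bool := onCell 1239849684 370763052 1073741824 536870912 67108864 67108864
    (rowFK 0 false false false .pp 2 0 2 (qsf 1239849684 370763052 1073741824 536870912 0) ndF2q2b ndF3q2 pcF0 Cut.none Ext.none)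

def k0_mm_202_b : ∃ t, chk3 f_mm_202_b t 1 1 1 = true :=
  ⟨(l 3), by decide +kernel⟩

theorem c_mm_202_b : CertF 1239849684 370763052 1073741824 536870912 67108864 67108864 false false false .pp 2 0 2
    ndF2q2b ndF3q2 pcF0 Cut.none Ext.none :=
  certFK0 (fam := false) (s1 := false) (s2 := false) (a := 2) (b := 0) (c := 2) (cn := .pp) (n1 := ndF2q2b) (n2 := ndF3q2) (pc := pcF0) (cut := Cut.none) (xt := Ext.none) (P1 := 1239849684) (W1 := 370763052) (P2 := 1073741824) (W2 := 536870912) (P3 := 67108864) (W3 := 67108864)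
    rfl rfl rfl k0_mm_202_b

noncomputable def f_mm_203_a : ℕ → ℕ → ℕ → ℕ → Bool := onCell 0 536870912 0 1230186008 67108864 67108864
    (rowFK 0 false false false .up 2 0 3 (qsf 0 536870912 0 1230186008 0) ndF2q2a ndF3q3 pcF0 Cut.none Ext.none)

def k0_mm_203_a : ∃ t, chk3 f_mm_203_a t 1 1 1 = true :=
  ⟨(b (l 2) (l 3)), by decide +kernel⟩

theorem c_mm_203_a : CertF 0 536870912 0 1230186008 67108864 67108864 false false false .up 2 0 3
    ndF2q2a ndF3q3 pcF0 Cut.none Ext.none :=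
  certFK0 (fam := false) (s1 := false) (s2 := false) (a := 2) (b := 0) (c := 3) (cn := .up) (n1 := ndF2q2a) (n2 := ndF3q3) (pc := pcF0) (cut := Cut.none) (xt := Ext.none) (P1 := 0) (W1 := 536870912) (P2 := 0) (W2 := 1230186008) (P3 := 67108864) (W3 := 67108864)
    rfl rfl rfl k0_mm_203_a

noncomputable def f_mm_203_b : ℕ → ℕ → ℕ → ℕ → Bool := onCell 1239849684 370763052 0 1230186008 67108864 67108864
    (rowFK 0 false false false .up 2 0 3 (qsf 1239849684 370763052 0 1230186008 0) ndF2q2b ndF3q3 pcF0 Cut.none Ext.none)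

def k0_mm_203_b : ∃ t, chk3 f_mm_203_b t 1 1 1 = true :=
  ⟨(b (l 3) (l 3)), by decide +kernel⟩

theorem c_mm_203_b : CertF 1239849684 370763052 0 1230186008 67108864 67108864 false false false .up 2 0 3
    ndF2q2b ndF3q3 pcF0 Cut.none Ext.none :=
  certFK0 (fam := false) (s1 := false) (s2 := false) (a := 2) (b := 0) (c := 3) (cn := .up) (n1 := ndF2q2b) (n2 := ndF3q3) (pc := pcF0) (cut := Cut.none) (xt := Ext.none) (P1 := 1239849684) (W1 := 370763052) (P2 := 0) (W2 := 1230186008) (P3 := 67108864) (W3 := 67108864)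
    rfl rfl rfl k0_mm_203_b

noncomputable def f_mm_213_a : ℕ → ℕ → ℕ → ℕ → Bool := onCell 0 536870912 0 1230186008 67108864 67108864
    (rowFK 0 false false false .pnn 2 1 3 (qsf 0 536870912 0 1230186008 1) ndF2q2a ndF3q3 pcF1 Cut.none Ext.none)

def k0_mm_213_a : ∃ t, chk3 f_mm_213_a t 1 1 1 = true :=
  ⟨(b (l 5) (l 3)), by decide +kernel⟩

theorem c_mm_213_a : CertF 0 536870912 0 1230186008 67108864 67108864 false false false .pnn 2 1 3
    ndF2q2a ndF3q3 pcF1 Cut.none Ext.none :=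
  certFK0 (fam := false) (s1 := false) (s2 := false) (a := 2) (b := 1) (c := 3) (cn := .pnn) (n1 := ndF2q2a) (n2 := ndF3q3) (pc := pcF1) (cut := Cut.none) (xt := Ext.none) (P1 := 0) (W1 := 536870912) (P2 := 0) (W2 := 1230186008) (P3 := 67108864) (W3 := 67108864)
    rfl rfl rfl k0_mm_213_a

noncomputable def f_mm_213_b : ℕ → ℕ → ℕ → ℕ → Bool := onCell 1239849684 370763052 0 1230186008 67108864 67108864
    (rowFK 0 false false false .pnn 2 1 3 (qsf 1239849684 370763052 0 1230186008 1) ndF2q2b ndF3q3 pcF1 Cut.none Ext.none)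

def k0_mm_213_b : ∃ t, chk3 f_mm_213_b t 1 1 1 = true :=
  ⟨(b (l 3) (l 3)), by decide +kernel⟩

theorem c_mm_213_b : CertF 1239849684 370763052 0 1230186008 67108864 67108864 false false false .pnn 2 1 3
    ndF2q2b ndF3q3 pcF1 Cut.none Ext.none :=
  certFK0 (fam := false) (s1 := false) (s2 := false) (a := 2) (b := 1) (c := 3) (cn := .pnn) (n1 := ndF2q2b) (n2 := ndF3q3) (pc := pcF1) (cut := Cut.none) (xt := Ext.none) (P1 := 1239849684) (W1 := 370763052) (P2 := 0) (W2 := 1230186008) (P3 := 67108864) (W3 := 67108864)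
    rfl rfl rfl k0_mm_213_b

noncomputable def f_mm_303 : ℕ → ℕ → ℕ → ℕ → Bool := onCell 1610612736 536870912 0 1230186008 67108864 67108864
    (rowFK 0 false false false .npn 3 0 3 (qsf 1610612736 536870912 0 1230186008 0) ndF2q3 ndF3q3 pcF0 Cut.none Ext.none)

def k0_mm_303 : ∃ t, chk3 f_mm_303 t 1 1 1 = true :=
  ⟨(b (l 3) (l 3)), by decide +kernel⟩

theorem c_mm_303 : CertF 1610612736 536870912 0 1230186008 67108864 67108864 false false false .npn 3 0 3
    ndF2q3 ndF3q3 pcF0 Cut.none Ext.none :=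
  certFK0 (fam := false) (s1 := false) (s2 := false) (a := 3) (b := 0) (c := 3) (cn := .npn) (n1 := ndF2q3) (n2 := ndF3q3) (pc := pcF0) (cut := Cut.none) (xt := Ext.none) (P1 := 1610612736) (W1 := 536870912) (P2 := 0) (W2 := 1230186008) (P3 := 67108864) (W3 := 67108864)
    rfl rfl rfl k0_mm_303

noncomputable def f_mm_313 : ℕ → ℕ → ℕ → ℕ → Bool := onCell 1610612736 536870912 0 1230186008 67108864 67108864
    (rowFK 0 false false false .dn 3 1 3 (qsf 1610612736 536870912 0 1230186008 1) ndF2q3 ndF3q3 pcF1 Cut.none Ext.none)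

def k0_mm_313 : ∃ t, chk3 f_mm_313 t 1 1 1 = true :=
  ⟨(b (l 3) (l 1)), by decide +kernel⟩

theorem c_mm_313 : CertF 1610612736 536870912 0 1230186008 67108864 67108864 false false false .dn 3 1 3
    ndF2q3 ndF3q3 pcF1 Cut.none Ext.none :=
  certFK0 (fam := false) (s1 := false) (s2 := false) (a := 3) (b := 1) (c := 3) (cn := .dn) (n1 := ndF2q3) (n2 := ndF3q3) (pc := pcF1) (cut := Cut.none) (xt := Ext.none) (P1 := 1610612736) (W1 := 536870912) (P2 := 0) (W2 := 1230186008) (P3 := 67108864) (W3 := 67108864)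
    rfl rfl rfl k0_mm_313

end Pool.Agent.Strip051.G.I1_16_1_8.Tab.C.FB23

namespace Pool.Agent.Strip051.G.I1_16_1_8.Tab.C.FB24

open Pool.Agent.Strip051.PB Pool.Agent.Strip051.PB.T
open Pool.Agent.Strip051.G.I1_16_1_8.Tab

noncomputable def f_pp_001 : ℕ → ℕ → ℕ → ℕ → Bool := onCell 0 536870912 0 536870912 67108864 67108864
    (rowFK 1 false true true .up 0 0 1 (qsf 0 536870912 536870912 536870912 0) ndF2q0 ndF4q1 pcF0 Cut.none Ext.none)

def k0_pp_001 : ∃ t, chk3 f_pp_001 t 1 1 1 = true :=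
  ⟨(l 3), by decide +kernel⟩

theorem c_pp_001 : CertF 0 536870912 536870912 536870912 67108864 67108864 false true true .up 0 0 1
    ndF2q0 ndF4q1 pcF0 Cut.none Ext.none :=
  certFK1 (fam := false) (s1 := true) (s2 := true) (a := 0) (b := 0) (c := 1) (cn := .up) (n1 := ndF2q0) (n2 := ndF4q1) (pc := pcF0) (cut := Cut.none) (xt := Ext.none) (P1 := 0) (W1 := 536870912) (P2 := 536870912) (W2 := 536870912) (P3 := 67108864) (W3 := 67108864)
    rfl rfl rfl (fun _ => rfl) k0_pp_001

noncomputable def cut_pp_011 : Cut := Cut.of [[⟨0, 0, 0, 67108864⟩, ⟨1, 1, 0, 67108864⟩, ⟨2, 1, 0, 67108864⟩]]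

noncomputable def f_pp_011 : ℕ → ℕ → ℕ → ℕ → Bool := onCell 0 536870912 536870912 536870912 67108864 67108864
    (rowFK 1 false true true .pnn 0 1 1 (qsf 0 536870912 536870912 536870912 1) ndF2q0 ndF4q1 pcF1 cut_pp_011 Ext.none)

def k0_pp_011 : ∃ t, chk3 f_pp_011 t 1 1 1 = true :=
  ⟨(a (b (l 3) (b (l 3) (a (b (l 3) (a (b (l 3) (a (l 6) (l 3))) (l 3))) (l 3)))) (l 3)), by decide +kernel⟩

theorem c_pp_011 : CertF 0 536870912 536870912 536870912 67108864 67108864 false true true .pnn 0 1 1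
    ndF2q0 ndF4q1 pcF1 cut_pp_011 Ext.none :=
  certFK1 (fam := false) (s1 := true) (s2 := true) (a := 0) (b := 1) (c := 1) (cn := .pnn) (n1 := ndF2q0) (n2 := ndF4q1) (pc := pcF1) (cut := cut_pp_011) (xt := Ext.none) (P1 := 0) (W1 := 536870912) (P2 := 536870912) (W2 := 536870912) (P3 := 67108864) (W3 := 67108864)
    rfl rfl rfl (fun _ => rfl) k0_pp_011

noncomputable def cut_pp_012 : Cut := Cut.of [[⟨0, 0, 0, 67108864⟩, ⟨1, 1, 0, 67108864⟩, ⟨2, 1, 0, 67108864⟩]]

noncomputable def f_pp_012 : ℕ → ℕ → ℕ → ℕ → Bool := onCell 0 536870912 536870912 536870912 67108864 67108864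
    (rowFK 1 false true true .pnp 0 1 2 (qsf 0 536870912 1073741824 536870912 1) ndF2q0 ndF4q2 pcF1 cut_pp_012 Ext.none)

def k0_pp_012 : ∃ t, chk3 f_pp_012 t 1 1 1 = true :=
  ⟨(b (l 3) (a (b (l 3) (a (a (a (b (l 1) (b (l 3) (l 6))) (l 3)) (l 3)) (l 3))) (l 3))), by decide +kernel⟩

theorem c_pp_012 : CertF 0 536870912 1073741824 536870912 67108864 67108864 false true true .pnp 0 1 2
    ndF2q0 ndF4q2 pcF1 cut_pp_012 Ext.none :=
  certFK1 (fam := false) (s1 := true) (s2 := true) (a := 0) (b := 1) (c := 2) (cn := .pnp) (n1 := ndF2q0) (n2 := ndF4q2) (pc := pcF1) (cut := cut_pp_012) (xt := Ext.none) (P1 := 0) (W1 := 536870912) (P2 := 1073741824) (W2 := 536870912) (P3 := 67108864) (W3 := 67108864)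
    rfl rfl rfl (fun _ => rfl) k0_pp_012

noncomputable def cut_pp_022 : Cut := Cut.of [[⟨0, 0, 0, 67108864⟩, ⟨1, 1, 0, 67108864⟩, ⟨2, 1, 0, 67108864⟩]]

noncomputable def f_pp_022 : ℕ → ℕ → ℕ → ℕ → Bool := onCell 0 536870912 1073741824 536870912 67108864 67108864
    (rowFK 1 false true true .pp 0 2 2 (qsf 0 536870912 1073741824 536870912 2) ndF2q0 ndF4q2 pcF2 cut_pp_022 Ext.none)

def k0_pp_022 : ∃ t, chk3 f_pp_022 t 1 1 1 = true :=
  ⟨(a (b (a (b (a (b (b (a (a (l 6) (a (l 6) (l 3))) (l 3)) (b (a (b (a (l 6) (l 16860208)) (a (a (l 6) (l 16750040)) (l 16840048))) (l 3)) (a (a (a (a (b (l 6) (l 16690840)) (l 16743776)) (l 16742704)) (l 16872616)) (a (l 16934648) (l 3))))) (b (a (b (a (a (a (a (l 16674880) (l 16666944)) (l 16683096)) (b (l 16692688) (l 16672544))) (l 16770184)) (a (a (a (l 16645808) (l 16629424)) (l 16726672)) (l 16978424))) (a (l 17029624) (l 17138088))) (a (a (a (b (a (l 16849264) (l 17064648)) (c (l 17951200) (l 16941184))) (b (l 17167464)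 (l 17511048))) (b (l 17292592) (l 17554216))) (a (l 17459304) (l 17446192))))) (b (l 3) (b (l 180557941351) (l 17466568)))) (b (b (b (a (a (a (a (c (l 18218048) (l 17320248)) (l 17782928)) (l 17772072)) (l 17691640)) (l 17501848)) (a (b (a (a (l 17958016) (l 17911968)) (l 17795960)) (a (a (l 18061448) (l 17996576)) (b (l 17846136) (b (l 17870336) (l 17886680))))) (b (l 17564472) (b (l 17595240) (l 17614632))))) (a (a (a (l 18281056) (l 18179344)) (l 18006376)) (l 17698504))) (a (a (b (l 18469240) (l 18630376)) (l 18258392)) (l 17886560)))) (b (a (l 3) (l 3)) (b (b (b (l 17552488) (b (l 17523248) (a (l 17432584) (l 17613408)))) (l 17466816)) (l 17541960)))) (a (b (a (a (b (l 18770344) (l 18844560)) (l 18521784)) (l 18114344)) (a (l 18691776) (l 18193584))) (b (a (l 17689616) (l 17383656)) (a (l 17727536) (l 2))))) (b (a (b (l 3) (b (b (b (l 17943296) (l 17889824)) (l 17809472)) (l 17641984))) (b (b (l 3) (l 305650300295)) (a (b (l 17954136) (l 2)) (l 2)))) (a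 (b (a (l 17276472) (l 2)) (l 2)) (l 2)))), by decide +kernel⟩

theorem c_pp_022 : CertF 0 536870912 1073741824 536870912 67108864 67108864 false true true .pp 0 2 2
    ndF2q0 ndF4q2 pcF2 cut_pp_022 Ext.none :=
  certFK1 (fam := false) (s1 := true) (s2 := true) (a := 0) (b := 2) (c := 2) (cn := .pp) (n1 := ndF2q0) (n2 := ndF4q2) (pc := pcF2) (cut := cut_pp_022) (xt := Ext.none) (P1 := 0) (W1 := 536870912) (P2 := 1073741824) (W2 := 536870912) (P3 := 67108864) (W3 := 67108864)
    rfl rfl rfl (fun _ => rfl) k0_pp_022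

noncomputable def f_pp_023 : ℕ → ℕ → ℕ → ℕ → Bool := onCell 1073741824 536870912 0 1230186008 67108864 67108864
    (rowFK 2 false true true .up 0 2 3 (qsf 0 536870912 0 1230186008 2) ndF2q0 ndF4q3 pcF2 Cut.none Ext.none)

def k0_pp_023 : ∃ t, chk3 f_pp_023 t 1 1 1 = true :=
  ⟨(a (b (l 2) (b (a (l 2) (l 17471440)) (b (a (l 2) (a (l 17810168) (l 17697568))) (a (a (l 18276048) (l 18146824)) (a (a (l 70500821191) (l 17888488)) (l 17685112)))))) (b (a (l 2) (l 17158688)) (b (b (l 17232000) (l 17498728)) (b (a (l 17381512) (l 17232384)) (a (b (l 17283640) (l 17356880)) (b (l 17649224) (l 18143888))))))), by decide +kernel⟩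

theorem c_pp_023 : CertF 0 536870912 0 1230186008 67108864 67108864 false true true .up 0 2 3
    ndF2q0 ndF4q3 pcF2 Cut.none Ext.none :=
  certFK2 (fam := false) (s1 := true) (s2 := true) (a := 0) (b := 2) (c := 3) (cn := .up) (n1 := ndF2q0) (n2 := ndF4q3) (pc := pcF2) (cut := Cut.none) (xt := Ext.none) (P1 := 0) (W1 := 536870912) (P2 := 0) (W2 := 1230186008) (P3 := 67108864) (W3 := 67108864)
    rfl rfl rfl (fun _ => rfl) k0_pp_023

noncomputable def f_pp_033 : ℕ → ℕ → ℕ → ℕ → Bool := onCell 0 536870912 0 1230186008 67108864 67108864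
    (rowFK 0 false true true .pnn 0 3 3 (qsf 0 536870912 0 1230186008 3) ndF2q0 ndF4q3 pcF3 Cut.none Ext.none)

def k0_pp_033 : ∃ t, chk3 f_pp_033 t 1 1 1 = true :=
  ⟨(b (b (a (l 4) (a (l 4) (l 17786328))) (a (a (a (b (l 4) (l 17764688)) (b (l 17404360) (l 17375896))) (b (l 17144704) (a (l 17048752) (l 17115640)))) (a (b (l 17143328) (l 17524008)) (b (l 17411912) (l 17923016))))) (b (a (a (b (a (l 17819272) (b (l 17241816) (l 17397392))) (a (b (l 18242704) (l 18343672)) (b (l 17964264) (l 18324144)))) (b (b (l 17287032) (l 17116744)) (b (l 17472248) (a (l 18261408) (l 18094904))))) (b (a (b (l 17877272) (l 17543872)) (l 18033496)) (a (b (l 16842256) (l 17684400)) (l 1)))) (a (a (b (a (b (l 18390776) (l 18384656)) (b (l 17996464) (a (l 17982544) (l 17696648)))) (a (l 18666408) (l 18076520))) (b (a (b (l 17780320) (l 17365280)) (b (l 17852968) (l 1))) (b (l 17101032) (l 1)))) (l 1)))), by decide +kernel⟩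

theorem c_pp_033 : CertF 0 536870912 0 1230186008 67108864 67108864 false true true .pnn 0 3 3
    ndF2q0 ndF4q3 pcF3 Cut.none Ext.none :=
  certFK0 (fam := false) (s1 := true) (s2 := true) (a := 0) (b := 3) (c := 3) (cn := .pnn) (n1 := ndF2q0) (n2 := ndF4q3) (pc := pcF3) (cut := Cut.none) (xt := Ext.none) (P1 := 0) (W1 := 536870912) (P2 := 0) (W2 := 1230186008) (P3 := 67108864) (W3 := 67108864)
    rfl rfl rfl k0_pp_033

noncomputable def f_pp_101 : ℕ → ℕ → ℕ → ℕ → Bool := onCell 536870912 536870912 536870912 536870912 67108864 67108864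
    (rowFK 0 false true true .npn 1 0 1 (qsf 536870912 536870912 536870912 536870912 0) ndF2q1 ndF4q1 pcF0 Cut.none Ext.none)

def k0_pp_101 : ∃ t, chk3 f_pp_101 t 1 1 1 = true :=
  ⟨(l 3), by decide +kernel⟩

theorem c_pp_101 : CertF 536870912 536870912 536870912 536870912 67108864 67108864 false true true .npn 1 0 1
    ndF2q1 ndF4q1 pcF0 Cut.none Ext.none :=
  certFK0 (fam := false) (s1 := true) (s2 := true) (a := 1) (b := 0) (c := 1) (cn := .npn) (n1 := ndF2q1) (n2 := ndF4q1) (pc := pcF0) (cut := Cut.none) (xt := Ext.none) (P1 := 536870912) (W1 := 536870912) (P2 := 536870912) (W2 := 536870912) (P3 := 67108864) (W3 := 67108864)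
    rfl rfl rfl k0_pp_101

noncomputable def f_pp_102 : ℕ → ℕ → ℕ → ℕ → Bool := onCell 536870912 536870912 1073741824 536870912 67108864 67108864
    (rowFK 0 false true true .npp 1 0 2 (qsf 536870912 536870912 1073741824 536870912 0) ndF2q1 ndF4q2 pcF0 Cut.none Ext.none)

def k0_pp_102 : ∃ t, chk3 f_pp_102 t 1 1 1 = true :=
  ⟨(l 3), by decide +kernel⟩

theorem c_pp_102 : CertF 536870912 536870912 1073741824 536870912 67108864 67108864 false true true .npp 1 0 2
    ndF2q1 ndF4q2 pcF0 Cut.none Ext.none :=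
  certFK0 (fam := false) (s1 := true) (s2 := true) (a := 1) (b := 0) (c := 2) (cn := .npp) (n1 := ndF2q1) (n2 := ndF4q2) (pc := pcF0) (cut := Cut.none) (xt := Ext.none) (P1 := 536870912) (W1 := 536870912) (P2 := 1073741824) (W2 := 536870912) (P3 := 67108864) (W3 := 67108864)
    rfl rfl rfl k0_pp_102

noncomputable def f_pp_112 : ℕ → ℕ → ℕ → ℕ → Bool := onCell 536870912 536870912 1073741824 536870912 67108864 67108864
    (rowFK 0 false true true .dn 1 1 2 (qsf 536870912 536870912 1073741824 536870912 1) ndF2q1 ndF4q2 pcF1 Cut.none Ext.none)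

def k0_pp_112 : ∃ t, chk3 f_pp_112 t 1 1 1 = true :=
  ⟨(l 3), by decide +kernel⟩

theorem c_pp_112 : CertF 536870912 536870912 1073741824 536870912 67108864 67108864 false true true .dn 1 1 2
    ndF2q1 ndF4q2 pcF1 Cut.none Ext.none :=
  certFK0 (fam := false) (s1 := true) (s2 := true) (a := 1) (b := 1) (c := 2) (cn := .dn) (n1 := ndF2q1) (n2 := ndF4q2) (pc := pcF1) (cut := Cut.none) (xt := Ext.none) (P1 := 536870912) (W1 := 536870912) (P2 := 1073741824) (W2 := 536870912) (P3 := 67108864) (W3 := 67108864)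
    rfl rfl rfl k0_pp_112

noncomputable def f_pp_113 : ℕ → ℕ → ℕ → ℕ → Bool := onCell 536870912 536870912 0 1230186008 67108864 67108864
    (rowFK 0 false true true .nn 1 1 3 (qsf 536870912 536870912 0 1230186008 1) ndF2q1 ndF4q3 pcF1 Cut.none Ext.none)

def k0_pp_113 : ∃ t, chk3 f_pp_113 t 1 1 1 = true :=
  ⟨(b (a (l 2) (a (l 2) (a (b (l 2) (b (l 17209640) (a (l 17487232) (l 17710432)))) (b (a (l 2) (l 17057184)) (b (a (l 17526656) (b (l 17596960) (l 17858112))) (a (l 17940488) (l 18121008))))))) (b (a (a (l 2) (b (l 2) (a (l 2) (l 17951024)))) (a (b (a (l 2) (l 17459160)) (a (l 17072112) (l 17870896))) (a (b (l 18030616) (l 18381336)) (a (b (l 18279480) (l 18579368)) (l 287397979863))))) (a (b (a (l 2) (b (l 17862584) (l 17522528))) (a (b (a (l 2) (l 17995096)) (l 3)) (l 3))) (b (a (a (l 17461144) (l 18413440)) (l 3)) (l 3))))), by decide +kernel⟩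

theorem c_pp_113 : CertF 536870912 536870912 0 1230186008 67108864 67108864 false true true .nn 1 1 3
    ndF2q1 ndF4q3 pcF1 Cut.none Ext.none :=
  certFK0 (fam := false) (s1 := true) (s2 := true) (a := 1) (b := 1) (c := 3) (cn := .nn) (n1 := ndF2q1) (n2 := ndF4q3) (pc := pcF1) (cut := Cut.none) (xt := Ext.none) (P1 := 536870912) (W1 := 536870912) (P2 := 0) (W2 := 1230186008) (P3 := 67108864) (W3 := 67108864)
    rfl rfl rfl k0_pp_113

noncomputable def f_pp_123 : ℕ → ℕ → ℕ → ℕ → Bool := onCell 1073741824 536870912 0 1230186008 67108864 67108864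
    (rowFK 2 false true true .npn 1 2 3 (qsf 536870912 536870912 0 1230186008 2) ndF2q1 ndF4q3 pcF2 Cut.none Ext.none)

def k0_pp_123 : ∃ t, chk3 f_pp_123 t 1 1 1 = true :=
  ⟨(a (a (a (b (b (a (a (l 16964424) (b (l 16842680) (l 17149904))) (l 17091680)) (b (l 17537696) (l 17443752))) (b (a (b (l 17405064) (l 17240768)) (b (l 17067624) (l 17499176))) (b (a (l 17820776) (l 18021968)) (l 18051664)))) (b (b (l 16869440) (l 17175488)) (b (l 17644736) (b (l 18274400) (l 18351584))))) (b (b (l 17385128) (l 17666224)) (a (b (l 18099840) (a (a (l 409132792567) (a (l 342561194087) (l 505232970775))) (l 486979012263))) (b (l 18412424) (l 483221528919))))) (b (a (b (l 18373360) (l 18509088)) (l 18765064)) (b (a (l 18685504) (l 18629392)) (l 1)))), by decide +kernel⟩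

theorem c_pp_123 : CertF 536870912 536870912 0 1230186008 67108864 67108864 false true true .npn 1 2 3
    ndF2q1 ndF4q3 pcF2 Cut.none Ext.none :=
  certFK2 (fam := false) (s1 := true) (s2 := true) (a := 1) (b := 2) (c := 3) (cn := .npn) (n1 := ndF2q1) (n2 := ndF4q3) (pc := pcF2) (cut := Cut.none) (xt := Ext.none) (P1 := 536870912) (W1 := 536870912) (P2 := 0) (W2 := 1230186008) (P3 := 67108864) (W3 := 67108864)
    rfl rfl rfl (fun _ => rfl) k0_pp_123

noncomputable def f_pp_133 : ℕ → ℕ → ℕ → ℕ → Bool := onCell 1610612736 536870912 0 1230186008 67108864 67108864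
    (rowFK 2 false true true .dn 1 3 3 (qsf 536870912 536870912 0 1230186008 3) ndF2q1 ndF4q3 pcF3 Cut.none Ext.none)

def k0_pp_133 : ∃ t, chk3 f_pp_133 t 1 1 1 = true :=
  ⟨(b (b (b (l 4) (l 1)) (l 1)) (l 1)), by decide +kernel⟩

theorem c_pp_133 : CertF 536870912 536870912 0 1230186008 67108864 67108864 false true true .dn 1 3 3
    ndF2q1 ndF4q3 pcF3 Cut.none Ext.none :=
  certFK2 (fam := false) (s1 := true) (s2 := true) (a := 1) (b := 3) (c := 3) (cn := .dn) (n1 := ndF2q1) (n2 := ndF4q3) (pc := pcF3) (cut := Cut.none) (xt := Ext.none) (P1 := 536870912) (W1 := 536870912) (P2 := 0) (W2 := 1230186008) (P3 := 67108864) (W3 := 67108864)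
    rfl rfl rfl (fun _ => rfl) k0_pp_133

noncomputable def f_pp_202_a : ℕ → ℕ → ℕ → ℕ → Bool := onCell 0 536870912 1073741824 536870912 67108864 67108864
    (rowFK 0 false true true .pp 2 0 2 (qsf 0 536870912 1073741824 536870912 0) ndF2q2a ndF4q2 pcF0 Cut.none Ext.none)

def k0_pp_202_a : ∃ t, chk3 f_pp_202_a t 1 1 1 = true :=
  ⟨(l 5), by decide +kernel⟩

theorem c_pp_202_a : CertF 0 536870912 1073741824 536870912 67108864 67108864 false true true .pp 2 0 2
    ndF2q2a ndF4q2 pcF0 Cut.none Ext.none :=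
  certFK0 (fam := false) (s1 := true) (s2 := true) (a := 2) (b := 0) (c := 2) (cn := .pp) (n1 := ndF2q2a) (n2 := ndF4q2) (pc := pcF0) (cut := Cut.none) (xt := Ext.none) (P1 := 0) (W1 := 536870912) (P2 := 1073741824) (W2 := 536870912) (P3 := 67108864) (W3 := 67108864)
    rfl rfl rfl k0_pp_202_a

noncomputable def f_pp_202_b : ℕ → ℕ → ℕ → ℕ → Bool := onCell 1239849684 370763052 1073741824 536870912 67108864 67108864
    (rowFK 0 false true true .pp 2 0 2 (qsf 1239849684 370763052 1073741824 536870912 0) ndF2q2b ndF4q2 pcF0 Cut.none Ext.none)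

def k0_pp_202_b : ∃ t, chk3 f_pp_202_b t 1 1 1 = true :=
  ⟨(l 5), by decide +kernel⟩

theorem c_pp_202_b : CertF 1239849684 370763052 1073741824 536870912 67108864 67108864 false true true .pp 2 0 2
    ndF2q2b ndF4q2 pcF0 Cut.none Ext.none :=
  certFK0 (fam := false) (s1 := true) (s2 := true) (a := 2) (b := 0) (c := 2) (cn := .pp) (n1 := ndF2q2b) (n2 := ndF4q2) (pc := pcF0) (cut := Cut.none) (xt := Ext.none) (P1 := 1239849684) (W1 := 370763052) (P2 := 1073741824) (W2 := 536870912) (P3 := 67108864) (W3 := 67108864)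
    rfl rfl rfl k0_pp_202_b

noncomputable def f_pp_203_a : ℕ → ℕ → ℕ → ℕ → Bool := onCell 0 536870912 0 1230186008 67108864 67108864
    (rowFK 0 false true true .up 2 0 3 (qsf 0 536870912 0 1230186008 0) ndF2q2a ndF4q3 pcF0 Cut.none Ext.none)

def k0_pp_203_a : ∃ t, chk3 f_pp_203_a t 1 1 1 = true :=
  ⟨(b (l 2) (l 3)), by decide +kernel⟩

theorem c_pp_203_a : CertF 0 536870912 0 1230186008 67108864 67108864 false true true .up 2 0 3
    ndF2q2a ndF4q3 pcF0 Cut.none Ext.none :=
  certFK0 (fam := false) (s1 := true) (s2 := true) (a := 2) (b := 0) (c := 3) (cn := .up) (n1 := ndF2q2a) (n2 := ndF4q3) (pc := pcF0) (cut := Cut.none) (xt := Ext.none) (P1 := 0) (W1 := 536870912) (P2 := 0) (W2 := 1230186008) (P3 := 67108864) (W3 := 67108864)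
    rfl rfl rfl k0_pp_203_a

noncomputable def f_pp_203_b : ℕ → ℕ → ℕ → ℕ → Bool := onCell 1239849684 370763052 0 1230186008 67108864 67108864
    (rowFK 0 false true true .up 2 0 3 (qsf 1239849684 370763052 0 1230186008 0) ndF2q2b ndF4q3 pcF0 Cut.none Ext.none)

def k0_pp_203_b : ∃ t, chk3 f_pp_203_b t 1 1 1 = true :=
  ⟨(b (l 3) (l 3)), by decide +kernel⟩

theorem c_pp_203_b : CertF 1239849684 370763052 0 1230186008 67108864 67108864 false true true .up 2 0 3
    ndF2q2b ndF4q3 pcF0 Cut.none Ext.none :=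
  certFK0 (fam := false) (s1 := true) (s2 := true) (a := 2) (b := 0) (c := 3) (cn := .up) (n1 := ndF2q2b) (n2 := ndF4q3) (pc := pcF0) (cut := Cut.none) (xt := Ext.none) (P1 := 1239849684) (W1 := 370763052) (P2 := 0) (W2 := 1230186008) (P3 := 67108864) (W3 := 67108864)
    rfl rfl rfl k0_pp_203_b

noncomputable def cut_pp_213_a : Cut := Cut.of [[⟨0, 1, 0, 21338704⟩, ⟨1, 1, 0, 21338704⟩, ⟨2, 2, 0, 1685920⟩]]

noncomputable def f_pp_213_a : ℕ → ℕ → ℕ → ℕ → Bool := onCell 0 536870912 0 1230186008 67108864 67108864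
    (rowFK 0 false true true .pnn 2 1 3 (qsf 0 536870912 0 1230186008 1) ndF2q2a ndF4q3 pcF1 cut_pp_213_a Ext.none)

def k0_pp_213_a : ∃ t, chk3 f_pp_213_a t 1 1 1 = true :=
  ⟨(b (b (a (l 3) (a (l 3) (a (l 3) (b (b (b (a (l 3) (a (l 3) (l 6))) (l 3)) (l 3)) (l 3))))) (l 3)) (l 3)), by decide +kernel⟩

theorem c_pp_213_a : CertF 0 536870912 0 1230186008 67108864 67108864 false true true .pnn 2 1 3
    ndF2q2a ndF4q3 pcF1 cut_pp_213_a Ext.none :=
  certFK0 (fam := false) (s1 := true) (s2 := true) (a := 2) (b := 1) (c := 3) (cn := .pnn) (n1 := ndF2q2a) (n2 := ndF4q3) (pc := pcF1) (cut := cut_pp_213_a) (xt := Ext.none) (P1 := 0) (W1 := 536870912) (P2 := 0) (W2 := 1230186008) (P3 := 67108864) (W3 := 67108864)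
    rfl rfl rfl k0_pp_213_a

noncomputable def cut_pp_213_b : Cut := Cut.of [[⟨0, 1, 0, 21338704⟩, ⟨1, 1, 0, 21338704⟩, ⟨2, 2, 0, 1685920⟩]]

noncomputable def f_pp_213_b : ℕ → ℕ → ℕ → ℕ → Bool := onCell 1239849684 370763052 0 1230186008 67108864 67108864
    (rowFK 0 false true true .pnn 2 1 3 (qsf 1239849684 370763052 0 1230186008 1) ndF2q2b ndF4q3 pcF1 cut_pp_213_b Ext.none)

def k0_pp_213_b : ∃ t, chk3 f_pp_213_b t 1 1 1 = true :=
  ⟨(b (l 3) (l 3)), by decide +kernel⟩

theorem c_pp_213_b : CertF 1239849684 370763052 0 1230186008 67108864 67108864 false true true .pnn 2 1 3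
    ndF2q2b ndF4q3 pcF1 cut_pp_213_b Ext.none :=
  certFK0 (fam := false) (s1 := true) (s2 := true) (a := 2) (b := 1) (c := 3) (cn := .pnn) (n1 := ndF2q2b) (n2 := ndF4q3) (pc := pcF1) (cut := cut_pp_213_b) (xt := Ext.none) (P1 := 1239849684) (W1 := 370763052) (P2 := 0) (W2 := 1230186008) (P3 := 67108864) (W3 := 67108864)
    rfl rfl rfl k0_pp_213_b

noncomputable def f_pp_303 : ℕ → ℕ → ℕ → ℕ → Bool := onCell 0 536870912 0 1230186008 67108864 67108864
    (rowFK 2 false true true .npn 3 0 3 (qsf 1610612736 536870912 0 1230186008 0) ndF2q3 ndF4q3 pcF0 Cut.none Ext.none)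

def k0_pp_303 : ∃ t, chk3 f_pp_303 t 1 1 1 = true :=
  ⟨(b (l 3) (l 3)), by decide +kernel⟩

theorem c_pp_303 : CertF 1610612736 536870912 0 1230186008 67108864 67108864 false true true .npn 3 0 3
    ndF2q3 ndF4q3 pcF0 Cut.none Ext.none :=
  certFK2 (fam := false) (s1 := true) (s2 := true) (a := 3) (b := 0) (c := 3) (cn := .npn) (n1 := ndF2q3) (n2 := ndF4q3) (pc := pcF0) (cut := Cut.none) (xt := Ext.none) (P1 := 1610612736) (W1 := 536870912) (P2 := 0) (W2 := 1230186008) (P3 := 67108864) (W3 := 67108864)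
    rfl rfl rfl (fun _ => rfl) k0_pp_303

noncomputable def f_pp_313 : ℕ → ℕ → ℕ → ℕ → Bool := onCell 1610612736 536870912 0 1230186008 67108864 67108864
    (rowFK 0 false true true .dn 3 1 3 (qsf 1610612736 536870912 0 1230186008 1) ndF2q3 ndF4q3 pcF1 Cut.none Ext.none)

def k0_pp_313 : ∃ t, chk3 f_pp_313 t 1 1 1 = true :=
  ⟨(b (l 3) (l 1)), by decide +kernel⟩

theorem c_pp_313 : CertF 1610612736 536870912 0 1230186008 67108864 67108864 false true true .dn 3 1 3
    ndF2q3 ndF4q3 pcF1 Cut.none Ext.none :=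
  certFK0 (fam := false) (s1 := true) (s2 := true) (a := 3) (b := 1) (c := 3) (cn := .dn) (n1 := ndF2q3) (n2 := ndF4q3) (pc := pcF1) (cut := Cut.none) (xt := Ext.none) (P1 := 1610612736) (W1 := 536870912) (P2 := 0) (W2 := 1230186008) (P3 := 67108864) (W3 := 67108864)
    rfl rfl rfl k0_pp_313

noncomputable def f_pm_001 : ℕ → ℕ → ℕ → ℕ → Bool := onCell 0 536870912 536870912 536870912 67108864 67108864
    (rowFK 0 false true false .up 0 0 1 (qsf 0 536870912 536870912 536870912 0) ndF2q0 ndF4q1 pcF0 Cut.none Ext.none)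

def k0_pm_001 : ∃ t, chk3 f_pm_001 t 1 1 1 = true :=
  ⟨(l 4), by decide +kernel⟩

theorem c_pm_001 : CertF 0 536870912 536870912 536870912 67108864 67108864 false true false .up 0 0 1
    ndF2q0 ndF4q1 pcF0 Cut.none Ext.none :=
  certFK0 (fam := false) (s1 := true) (s2 := false) (a := 0) (b := 0) (c := 1) (cn := .up) (n1 := ndF2q0) (n2 := ndF4q1) (pc := pcF0) (cut := Cut.none) (xt := Ext.none) (P1 := 0) (W1 := 536870912) (P2 := 536870912) (W2 := 536870912) (P3 := 67108864) (W3 := 67108864)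
    rfl rfl rfl k0_pm_001

noncomputable def f_pm_011 : ℕ → ℕ → ℕ → ℕ → Bool := onCell 0 536870912 536870912 536870912 67108864 67108864
    (rowFK 0 false true false .pnn 0 1 1 (qsf 0 536870912 536870912 536870912 1) ndF2q0 ndF4q1 pcF1 Cut.none Ext.none)

def k0_pm_011 : ∃ t, chk3 f_pm_011 t 1 1 1 = true :=
  ⟨(l 4), by decide +kernel⟩

theorem c_pm_011 : CertF 0 536870912 536870912 536870912 67108864 67108864 false true false .pnn 0 1 1
    ndF2q0 ndF4q1 pcF1 Cut.none Ext.none :=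
  certFK0 (fam := false) (s1 := true) (s2 := false) (a := 0) (b := 1) (c := 1) (cn := .pnn) (n1 := ndF2q0) (n2 := ndF4q1) (pc := pcF1) (cut := Cut.none) (xt := Ext.none) (P1 := 0) (W1 := 536870912) (P2 := 536870912) (W2 := 536870912) (P3 := 67108864) (W3 := 67108864)
    rfl rfl rfl k0_pm_011

noncomputable def f_pm_012 : ℕ → ℕ → ℕ → ℕ → Bool := onCell 0 536870912 1073741824 536870912 67108864 67108864
    (rowFK 0 false true false .pnp 0 1 2 (qsf 0 536870912 1073741824 536870912 1) ndF2q0 ndF4q2 pcF1 Cut.none Ext.none)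

def k0_pm_012 : ∃ t, chk3 f_pm_012 t 1 1 1 = true :=
  ⟨(l 4), by decide +kernel⟩

theorem c_pm_012 : CertF 0 536870912 1073741824 536870912 67108864 67108864 false true false .pnp 0 1 2
    ndF2q0 ndF4q2 pcF1 Cut.none Ext.none :=
  certFK0 (fam := false) (s1 := true) (s2 := false) (a := 0) (b := 1) (c := 2) (cn := .pnp) (n1 := ndF2q0) (n2 := ndF4q2) (pc := pcF1) (cut := Cut.none) (xt := Ext.none) (P1 := 0) (W1 := 536870912) (P2 := 1073741824) (W2 := 536870912) (P3 := 67108864) (W3 := 67108864)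
    rfl rfl rfl k0_pm_012

noncomputable def f_pm_022 : ℕ → ℕ → ℕ → ℕ → Bool := onCell 0 536870912 1073741824 536870912 67108864 67108864
    (rowFK 0 false true false .pp 0 2 2 (qsf 0 536870912 1073741824 536870912 2) ndF2q0 ndF4q2 pcF2 Cut.none Ext.none)

def k0_pm_022 : ∃ t, chk3 f_pm_022 t 1 1 1 = true :=
  ⟨(l 4), by decide +kernel⟩

theorem c_pm_022 : CertF 0 536870912 1073741824 536870912 67108864 67108864 false true false .pp 0 2 2
    ndF2q0 ndF4q2 pcF2 Cut.none Ext.none :=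
  certFK0 (fam := false) (s1 := true) (s2 := false) (a := 0) (b := 2) (c := 2) (cn := .pp) (n1 := ndF2q0) (n2 := ndF4q2) (pc := pcF2) (cut := Cut.none) (xt := Ext.none) (P1 := 0) (W1 := 536870912) (P2 := 1073741824) (W2 := 536870912) (P3 := 67108864) (W3 := 67108864)
    rfl rfl rfl k0_pm_022

noncomputable def f_pm_023 : ℕ → ℕ → ℕ → ℕ → Bool := onCell 0 536870912 0 1230186008 67108864 67108864
    (rowFK 0 false true false .up 0 2 3 (qsf 0 536870912 0 1230186008 2) ndF2q0 ndF4q3 pcF2 Cut.none Ext.none)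

def k0_pm_023 : ∃ t, chk3 f_pm_023 t 1 1 1 = true :=
  ⟨(b (l 4) (l 4)), by decide +kernel⟩

theorem c_pm_023 : CertF 0 536870912 0 1230186008 67108864 67108864 false true false .up 0 2 3
    ndF2q0 ndF4q3 pcF2 Cut.none Ext.none :=
  certFK0 (fam := false) (s1 := true) (s2 := false) (a := 0) (b := 2) (c := 3) (cn := .up) (n1 := ndF2q0) (n2 := ndF4q3) (pc := pcF2) (cut := Cut.none) (xt := Ext.none) (P1 := 0) (W1 := 536870912) (P2 := 0) (W2 := 1230186008) (P3 := 67108864) (W3 := 67108864)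
    rfl rfl rfl k0_pm_023

noncomputable def f_pm_033 : ℕ → ℕ → ℕ → ℕ → Bool := onCell 0 536870912 0 1230186008 67108864 67108864
    (rowFK 0 false true false .pnn 0 3 3 (qsf 0 536870912 0 1230186008 3) ndF2q0 ndF4q3 pcF3 Cut.none Ext.none)

def k0_pm_033 : ∃ t, chk3 f_pm_033 t 1 1 1 = true :=
  ⟨(b (l 4) (l 4)), by decide +kernel⟩

theorem c_pm_033 : CertF 0 536870912 0 1230186008 67108864 67108864 false true false .pnn 0 3 3
    ndF2q0 ndF4q3 pcF3 Cut.none Ext.none :=
  certFK0 (fam := false) (s1 := true) (s2 := false) (a := 0) (b := 3) (c := 3) (cn := .pnn) (n1 := ndF2q0) (n2 := ndF4q3) (pc := pcF3) (cut := Cut.none) (xt := Ext.none) (P1 := 0) (W1 := 536870912) (P2 := 0) (W2 := 1230186008) (P3 := 67108864) (W3 := 67108864)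
    rfl rfl rfl k0_pm_033

noncomputable def f_pm_101 : ℕ → ℕ → ℕ → ℕ → Bool := onCell 536870912 536870912 536870912 536870912 67108864 67108864
    (rowFK 0 false true false .npn 1 0 1 (qsf 536870912 536870912 536870912 536870912 0) ndF2q1 ndF4q1 pcF0 Cut.none Ext.none)

def k0_pm_101 : ∃ t, chk3 f_pm_101 t 1 1 1 = true :=
  ⟨(l 4), by decide +kernel⟩

theorem c_pm_101 : CertF 536870912 536870912 536870912 536870912 67108864 67108864 false true false .npn 1 0 1
    ndF2q1 ndF4q1 pcF0 Cut.none Ext.none :=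
  certFK0 (fam := false) (s1 := true) (s2 := false) (a := 1) (b := 0) (c := 1) (cn := .npn) (n1 := ndF2q1) (n2 := ndF4q1) (pc := pcF0) (cut := Cut.none) (xt := Ext.none) (P1 := 536870912) (W1 := 536870912) (P2 := 536870912) (W2 := 536870912) (P3 := 67108864) (W3 := 67108864)
    rfl rfl rfl k0_pm_101

noncomputable def f_pm_102 : ℕ → ℕ → ℕ → ℕ → Bool := onCell 536870912 536870912 1073741824 536870912 67108864 67108864
    (rowFK 0 false true false .npp 1 0 2 (qsf 536870912 536870912 1073741824 536870912 0) ndF2q1 ndF4q2 pcF0 Cut.none Ext.none)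

def k0_pm_102 : ∃ t, chk3 f_pm_102 t 1 1 1 = true :=
  ⟨(l 4), by decide +kernel⟩

theorem c_pm_102 : CertF 536870912 536870912 1073741824 536870912 67108864 67108864 false true false .npp 1 0 2
    ndF2q1 ndF4q2 pcF0 Cut.none Ext.none :=
  certFK0 (fam := false) (s1 := true) (s2 := false) (a := 1) (b := 0) (c := 2) (cn := .npp) (n1 := ndF2q1) (n2 := ndF4q2) (pc := pcF0) (cut := Cut.none) (xt := Ext.none) (P1 := 536870912) (W1 := 536870912) (P2 := 1073741824) (W2 := 536870912) (P3 := 67108864) (W3 := 67108864)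
    rfl rfl rfl k0_pm_102

noncomputable def f_pm_112 : ℕ → ℕ → ℕ → ℕ → Bool := onCell 536870912 536870912 1073741824 536870912 67108864 67108864
    (rowFK 0 false true false .dn 1 1 2 (qsf 536870912 536870912 1073741824 536870912 1) ndF2q1 ndF4q2 pcF1 Cut.none Ext.none)

def k0_pm_112 : ∃ t, chk3 f_pm_112 t 1 1 1 = true :=
  ⟨(l 4), by decide +kernel⟩

theorem c_pm_112 : CertF 536870912 536870912 1073741824 536870912 67108864 67108864 false true false .dn 1 1 2
    ndF2q1 ndF4q2 pcF1 Cut.none Ext.none :=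
  certFK0 (fam := false) (s1 := true) (s2 := false) (a := 1) (b := 1) (c := 2) (cn := .dn) (n1 := ndF2q1) (n2 := ndF4q2) (pc := pcF1) (cut := Cut.none) (xt := Ext.none) (P1 := 536870912) (W1 := 536870912) (P2 := 1073741824) (W2 := 536870912) (P3 := 67108864) (W3 := 67108864)
    rfl rfl rfl k0_pm_112

noncomputable def f_pm_113 : ℕ → ℕ → ℕ → ℕ → Bool := onCell 536870912 536870912 0 1230186008 67108864 67108864
    (rowFK 0 false true false .nn 1 1 3 (qsf 536870912 536870912 0 1230186008 1) ndF2q1 ndF4q3 pcF1 Cut.none Ext.none)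

def k0_pm_113 : ∃ t, chk3 f_pm_113 t 1 1 1 = true :=
  ⟨(b (b (a (l 2) (a (l 2) (a (l 2) (a (l 2) (l 16903072))))) (l 4)) (l 4)), by decide +kernel⟩

theorem c_pm_113 : CertF 536870912 536870912 0 1230186008 67108864 67108864 false true false .nn 1 1 3
    ndF2q1 ndF4q3 pcF1 Cut.none Ext.none :=
  certFK0 (fam := false) (s1 := true) (s2 := false) (a := 1) (b := 1) (c := 3) (cn := .nn) (n1 := ndF2q1) (n2 := ndF4q3) (pc := pcF1) (cut := Cut.none) (xt := Ext.none) (P1 := 536870912) (W1 := 536870912) (P2 := 0) (W2 := 1230186008) (P3 := 67108864) (W3 := 67108864)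
    rfl rfl rfl k0_pm_113

noncomputable def f_pm_123 : ℕ → ℕ → ℕ → ℕ → Bool := onCell 536870912 536870912 0 1230186008 67108864 67108864
    (rowFK 0 false true false .npn 1 2 3 (qsf 536870912 536870912 0 1230186008 2) ndF2q1 ndF4q3 pcF2 Cut.none Ext.none)

def k0_pm_123 : ∃ t, chk3 f_pm_123 t 1 1 1 = true :=
  ⟨(b (a (l 4) (a (l 4) (a (l 17634056) (a (l 17684640) (l 17688416))))) (l 4)), by decide +kernel⟩

theorem c_pm_123 : CertF 536870912 536870912 0 1230186008 67108864 67108864 false true false .npn 1 2 3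
    ndF2q1 ndF4q3 pcF2 Cut.none Ext.none :=
  certFK0 (fam := false) (s1 := true) (s2 := false) (a := 1) (b := 2) (c := 3) (cn := .npn) (n1 := ndF2q1) (n2 := ndF4q3) (pc := pcF2) (cut := Cut.none) (xt := Ext.none) (P1 := 536870912) (W1 := 536870912) (P2 := 0) (W2 := 1230186008) (P3 := 67108864) (W3 := 67108864)
    rfl rfl rfl k0_pm_123

noncomputable def f_pm_133 : ℕ → ℕ → ℕ → ℕ → Bool := onCell 1610612736 536870912 0 1230186008 67108864 67108864
    (rowFK 2 false true false .dn 1 3 3 (qsf 536870912 536870912 0 1230186008 3) ndF2q1 ndF4q3 pcF3 Cut.none Ext.none)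

def k0_pm_133 : ∃ t, chk3 f_pm_133 t 1 1 1 = true :=
  ⟨(b (a (l 4) (l 1)) (l 1)), by decide +kernel⟩

theorem c_pm_133 : CertF 536870912 536870912 0 1230186008 67108864 67108864 false true false .dn 1 3 3
    ndF2q1 ndF4q3 pcF3 Cut.none Ext.none :=
  certFK2 (fam := false) (s1 := true) (s2 := false) (a := 1) (b := 3) (c := 3) (cn := .dn) (n1 := ndF2q1) (n2 := ndF4q3) (pc := pcF3) (cut := Cut.none) (xt := Ext.none) (P1 := 536870912) (W1 := 536870912) (P2 := 0) (W2 := 1230186008) (P3 := 67108864) (W3 := 67108864)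
    rfl rfl rfl (fun _ => rfl) k0_pm_133

noncomputable def f_pm_202_a : ℕ → ℕ → ℕ → ℕ → Bool := onCell 0 536870912 1073741824 536870912 67108864 67108864
    (rowFK 0 false true false .pp 2 0 2 (qsf 0 536870912 1073741824 536870912 0) ndF2q2a ndF4q2 pcF0 Cut.none Ext.none)

def k0_pm_202_a : ∃ t, chk3 f_pm_202_a t 1 1 1 = true :=
  ⟨(b (l 4) (b (l 4) (a (l 18275752) (a (l 18347472) (a (l 18429088) (l 18508848)))))), by decide +kernel⟩

theorem c_pm_202_a : CertF 0 536870912 1073741824 536870912 67108864 67108864 false true false .pp 2 0 2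
    ndF2q2a ndF4q2 pcF0 Cut.none Ext.none :=
  certFK0 (fam := false) (s1 := true) (s2 := false) (a := 2) (b := 0) (c := 2) (cn := .pp) (n1 := ndF2q2a) (n2 := ndF4q2) (pc := pcF0) (cut := Cut.none) (xt := Ext.none) (P1 := 0) (W1 := 536870912) (P2 := 1073741824) (W2 := 536870912) (P3 := 67108864) (W3 := 67108864)
    rfl rfl rfl k0_pm_202_a

noncomputable def f_pm_202_b : ℕ → ℕ → ℕ → ℕ → Bool := onCell 1239849684 370763052 1073741824 536870912 67108864 67108864
    (rowFK 0 false true false .pp 2 0 2 (qsf 1239849684 370763052 1073741824 536870912 0) ndF2q2b ndF4q2 pcF0 Cut.none Ext.none)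

def k0_pm_202_b : ∃ t, chk3 f_pm_202_b t 1 1 1 = true :=
  ⟨(b (l 4) (a (b (a (l 4) (l 18409728)) (b (l 18202848) (l 17955392))) (b (a (b (l 1) (l 18037936)) (l 1)) (b (l 17928176) (l 17710152))))), by decide +kernel⟩

theorem c_pm_202_b : CertF 1239849684 370763052 1073741824 536870912 67108864 67108864 false true false .pp 2 0 2
    ndF2q2b ndF4q2 pcF0 Cut.none Ext.none :=
  certFK0 (fam := false) (s1 := true) (s2 := false) (a := 2) (b := 0) (c := 2) (cn := .pp) (n1 := ndF2q2b) (n2 := ndF4q2) (pc := pcF0) (cut := Cut.none) (xt := Ext.none) (P1 := 1239849684) (W1 := 370763052) (P2 := 1073741824) (W2 := 536870912) (P3 := 67108864) (W3 := 67108864)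
    rfl rfl rfl k0_pm_202_b

noncomputable def f_pm_203_a : ℕ → ℕ → ℕ → ℕ → Bool := onCell 0 536870912 0 1230186008 67108864 67108864
    (rowFK 0 false true false .up 2 0 3 (qsf 0 536870912 0 1230186008 0) ndF2q2a ndF4q3 pcF0 Cut.none Ext.none)

def k0_pm_203_a : ∃ t, chk3 f_pm_203_a t 1 1 1 = true :=
  ⟨(b (l 2) (b (l 2) (a (b (b (l 2) (a (l 17165816) (l 300213517031))) (b (b (l 17621648) (l 17422840)) (l 17647528))) (b (l 2) (a (b (l 17501416) (l 17671848)) (a (b (l 17500944) (l 17709672)) (b (l 2) (l 17760024)))))))), by decide +kernel⟩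

theorem c_pm_203_a : CertF 0 536870912 0 1230186008 67108864 67108864 false true false .up 2 0 3
    ndF2q2a ndF4q3 pcF0 Cut.none Ext.none :=
  certFK0 (fam := false) (s1 := true) (s2 := false) (a := 2) (b := 0) (c := 3) (cn := .up) (n1 := ndF2q2a) (n2 := ndF4q3) (pc := pcF0) (cut := Cut.none) (xt := Ext.none) (P1 := 0) (W1 := 536870912) (P2 := 0) (W2 := 1230186008) (P3 := 67108864) (W3 := 67108864)
    rfl rfl rfl k0_pm_203_a

noncomputable def f_pm_203_b : ℕ → ℕ → ℕ → ℕ → Bool := onCell 1239849684 370763052 0 1230186008 67108864 67108864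
    (rowFK 0 false true false .up 2 0 3 (qsf 1239849684 370763052 0 1230186008 0) ndF2q2b ndF4q3 pcF0 Cut.none Ext.none)

def k0_pm_203_b : ∃ t, chk3 f_pm_203_b t 1 1 1 = true :=
  ⟨(b (a (l 2) (b (l 3) (a (l 1162427128663) (l 249813692439)))) (b (a (b (a (l 2) (l 17174128)) (b (l 17132184) (l 17019800))) (b (l 17375280) (b (l 17153600) (a (l 16805624) (l 16855352))))) (b (a (a (b (b (l 17423872) (l 17556352)) (l 17336776)) (b (b (l 17331960) (l 17323256)) (l 17080080))) (b (a (l 16864768) (l 17014064)) (a (l 16967704) (l 16942752)))) (a (b (a (l 17382968) (l 17194120)) (l 17593128)) (b (a (l 17180880) (l 17286272)) (l 17523672)))))), by decide +kernel⟩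

theorem c_pm_203_b : CertF 1239849684 370763052 0 1230186008 67108864 67108864 false true false .up 2 0 3
    ndF2q2b ndF4q3 pcF0 Cut.none Ext.none :=
  certFK0 (fam := false) (s1 := true) (s2 := false) (a := 2) (b := 0) (c := 3) (cn := .up) (n1 := ndF2q2b) (n2 := ndF4q3) (pc := pcF0) (cut := Cut.none) (xt := Ext.none) (P1 := 1239849684) (W1 := 370763052) (P2 := 0) (W2 := 1230186008) (P3 := 67108864) (W3 := 67108864)
    rfl rfl rfl k0_pm_203_b

noncomputable def cut_pm_213_a : Cut := Cut.of [[⟨0, 1, 0, 21338704⟩, ⟨1, 1, 0, 21338704⟩, ⟨2, 2, 0, 1685920⟩]]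

noncomputable def f_pm_213_a : ℕ → ℕ → ℕ → ℕ → Bool := onCell 0 536870912 0 1230186008 67108864 67108864
    (rowFK 0 false true false .pnn 2 1 3 (qsf 0 536870912 0 1230186008 1) ndF2q2a ndF4q3 pcF1 cut_pm_213_a Ext.none)

def k0_pm_213_a : ∃ t, chk3 f_pm_213_a t 1 1 1 = true :=
  ⟨(b (b (a (b (l 3) (l 222970002119)) (a (b (b (l 3) (l 17004264)) (l 17015936)) (a (b (b (b (l 3) (l 17027616)) (l 16994864)) (l 16959168)) (b (b (a (l 272361375351) (a (l 268603252071) (b (l 6) (l 16778112)))) (l 16796608)) (l 16828984))))) (a (b (l 17096000) (l 17344288)) (a (b (l 17037112) (l 17259128)) (a (b (l 16973368) (l 17170936)) (b (l 16923576) (l 17100576)))))) (b (a (b (l 17665920) (l 17972032)) (a (b (l 17553592) (l 17796232)) (b (a (l 17437408) (l 17321200)) (a (l 17612832) (l 17451136))))) (a (b (b (b (l 18268928) (l 18348024)) (b (l 17956368) (l 17238912))) (b (b (l 17908656) (l 1)) (l 1))) (b (a (b (l 18118440) (b (l 17964512) (l 17210840))) (a (b (l 17886768) (b (l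 17890960) (l 17189248))) (b (l 17687160) (b (l 17751984) (l 17178440))))) (a (b (l 18004320) (l 1)) (b (a (l 18082912) (b (l 18089216) (l 18306920))) (a (l 18307272) (l 18381320)))))))), by decide +kernel⟩

theorem c_pm_213_a : CertF 0 536870912 0 1230186008 67108864 67108864 false true false .pnn 2 1 3
    ndF2q2a ndF4q3 pcF1 cut_pm_213_a Ext.none :=
  certFK0 (fam := false) (s1 := true) (s2 := false) (a := 2) (b := 1) (c := 3) (cn := .pnn) (n1 := ndF2q2a) (n2 := ndF4q3) (pc := pcF1) (cut := cut_pm_213_a) (xt := Ext.none) (P1 := 0) (W1 := 536870912) (P2 := 0) (W2 := 1230186008) (P3 := 67108864) (W3 := 67108864)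
    rfl rfl rfl k0_pm_213_a

noncomputable def cut_pm_213_b : Cut := Cut.of [[⟨0, 1, 0, 21338704⟩, ⟨1, 1, 0, 21338704⟩, ⟨2, 2, 0, 1685920⟩]]

noncomputable def f_pm_213_b : ℕ → ℕ → ℕ → ℕ → Bool := onCell 1239849684 370763052 0 1230186008 67108864 67108864
    (rowFK 0 false true false .pnn 2 1 3 (qsf 1239849684 370763052 0 1230186008 1) ndF2q2b ndF4q3 pcF1 cut_pm_213_b Ext.none)

def k0_pm_213_b : ∃ t, chk3 f_pm_213_b t 1 1 1 = true :=
  ⟨(b (a (b (b (l 3) (a (l 16996592) (l 3))) (b (a (l 17038920) (l 16958464)) (a (l 17315568) (l 17234304)))) (b (l 3) (a (b (l 16976176) (l 17156648)) (b (l 3) (l 17146896))))) (b (a (b (a (l 17660936) (l 17588240)) (b (l 17908144) (l 18179016))) (b (a (l 17504928) (l 1)) (l 1))) (a (b (a (b (b (l 18387352) (l 18361376)) (b (l 17738984) (l 17271664))) (l 1)) (l 1)) (l 1)))), by decide +kernel⟩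

theorem c_pm_213_b : CertF 1239849684 370763052 0 1230186008 67108864 67108864 false true false .pnn 2 1 3
    ndF2q2b ndF4q3 pcF1 cut_pm_213_b Ext.none :=
  certFK0 (fam := false) (s1 := true) (s2 := false) (a := 2) (b := 1) (c := 3) (cn := .pnn) (n1 := ndF2q2b) (n2 := ndF4q3) (pc := pcF1) (cut := cut_pm_213_b) (xt := Ext.none) (P1 := 1239849684) (W1 := 370763052) (P2 := 0) (W2 := 1230186008) (P3 := 67108864) (W3 := 67108864)
    rfl rfl rfl k0_pm_213_b

noncomputable def f_pm_303 : ℕ → ℕ → ℕ → ℕ → Bool := onCell 0 536870912 0 1230186008 67108864 67108864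
    (rowFK 2 false true false .npn 3 0 3 (qsf 1610612736 536870912 0 1230186008 0) ndF2q3 ndF4q3 pcF0 Cut.none Ext.none)

def k0_pm_303 : ∃ t, chk3 f_pm_303 t 1 1 1 = true :=
  ⟨(b (b (l 3) (a (l 3) (a (b (l 3) (l 210088051095)) (l 207940478887)))) (a (b (a (b (l 149420824647) (b (a (l 18408064) (l 18550768)) (l 18388320))) (b (l 18649632) (b (a (l 18642992) (l 18687048)) (l 18540000)))) (a (b (a (l 17698696) (l 18049192)) (l 18650744)) (b (b (l 18596600) (l 18426184)) (b (l 18561672) (l 1))))) (b (a (b (l 18753976) (a (l 18933528) (l 18713512))) (b (l 18787296) (l 1))) (l 1)))), by decide +kernel⟩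

theorem c_pm_303 : CertF 1610612736 536870912 0 1230186008 67108864 67108864 false true false .npn 3 0 3
    ndF2q3 ndF4q3 pcF0 Cut.none Ext.none :=
  certFK2 (fam := false) (s1 := true) (s2 := false) (a := 3) (b := 0) (c := 3) (cn := .npn) (n1 := ndF2q3) (n2 := ndF4q3) (pc := pcF0) (cut := Cut.none) (xt := Ext.none) (P1 := 1610612736) (W1 := 536870912) (P2 := 0) (W2 := 1230186008) (P3 := 67108864) (W3 := 67108864)
    rfl rfl rfl (fun _ => rfl) k0_pm_303

noncomputable def f_pm_313 : ℕ → ℕ → ℕ → ℕ → Bool := onCell 1610612736 536870912 0 1230186008 67108864 67108864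
    (rowFK 0 false true false .dn 3 1 3 (qsf 1610612736 536870912 0 1230186008 1) ndF2q3 ndF4q3 pcF1 Cut.none Ext.none)

def k0_pm_313 : ∃ t, chk3 f_pm_313 t 1 1 1 = true :=
  ⟨(b (b (l 3) (l 1)) (l 1)), by decide +kernel⟩

theorem c_pm_313 : CertF 1610612736 536870912 0 1230186008 67108864 67108864 false true false .dn 3 1 3
    ndF2q3 ndF4q3 pcF1 Cut.none Ext.none :=
  certFK0 (fam := false) (s1 := true) (s2 := false) (a := 3) (b := 1) (c := 3) (cn := .dn) (n1 := ndF2q3) (n2 := ndF4q3) (pc := pcF1) (cut := Cut.none) (xt := Ext.none) (P1 := 1610612736) (W1 := 536870912) (P2 := 0) (W2 := 1230186008) (P3 := 67108864) (W3 := 67108864)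
    rfl rfl rfl k0_pm_313

noncomputable def f_mm_001 : ℕ → ℕ → ℕ → ℕ → Bool := onCell 0 536870912 0 536870912 67108864 67108864
    (rowFK 1 false false false .up 0 0 1 (qsf 0 536870912 536870912 536870912 0) ndF2q0 ndF4q1 pcF0 Cut.none Ext.none)

def k0_mm_001 : ∃ t, chk3 f_mm_001 t 1 1 1 = true :=
  ⟨(l 3), by decide +kernel⟩

theorem c_mm_001 : CertF 0 536870912 536870912 536870912 67108864 67108864 false false false .up 0 0 1
    ndF2q0 ndF4q1 pcF0 Cut.none Ext.none :=
  certFK1 (fam := false) (s1 := false) (s2 := false) (a := 0) (b := 0) (c := 1) (cn := .up) (n1 := ndF2q0) (n2 := ndF4q1) (pc := pcF0) (cut := Cut.none) (xt := Ext.none) (P1 := 0) (W1 := 536870912) (P2 := 536870912) (W2 := 536870912) (P3 := 67108864) (W3 := 67108864)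
    rfl rfl rfl (fun _ => rfl) k0_mm_001

noncomputable def f_mm_011 : ℕ → ℕ → ℕ → ℕ → Bool := onCell 0 536870912 536870912 536870912 67108864 67108864
    (rowFK 1 false false false .pnn 0 1 1 (qsf 0 536870912 536870912 536870912 1) ndF2q0 ndF4q1 pcF1 Cut.none Ext.none)

def k0_mm_011 : ∃ t, chk3 f_mm_011 t 1 1 1 = true :=
  ⟨(l 5), by decide +kernel⟩

theorem c_mm_011 : CertF 0 536870912 536870912 536870912 67108864 67108864 false false false .pnn 0 1 1
    ndF2q0 ndF4q1 pcF1 Cut.none Ext.none :=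
  certFK1 (fam := false) (s1 := false) (s2 := false) (a := 0) (b := 1) (c := 1) (cn := .pnn) (n1 := ndF2q0) (n2 := ndF4q1) (pc := pcF1) (cut := Cut.none) (xt := Ext.none) (P1 := 0) (W1 := 536870912) (P2 := 536870912) (W2 := 536870912) (P3 := 67108864) (W3 := 67108864)
    rfl rfl rfl (fun _ => rfl) k0_mm_011

noncomputable def f_mm_012 : ℕ → ℕ → ℕ → ℕ → Bool := onCell 0 536870912 1073741824 536870912 67108864 67108864
    (rowFK 0 false false false .pnp 0 1 2 (qsf 0 536870912 1073741824 536870912 1) ndF2q0 ndF4q2 pcF1 Cut.none Ext.none)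

def k0_mm_012 : ∃ t, chk3 f_mm_012 t 1 1 1 = true :=
  ⟨(l 5), by decide +kernel⟩

theorem c_mm_012 : CertF 0 536870912 1073741824 536870912 67108864 67108864 false false false .pnp 0 1 2
    ndF2q0 ndF4q2 pcF1 Cut.none Ext.none :=
  certFK0 (fam := false) (s1 := false) (s2 := false) (a := 0) (b := 1) (c := 2) (cn := .pnp) (n1 := ndF2q0) (n2 := ndF4q2) (pc := pcF1) (cut := Cut.none) (xt := Ext.none) (P1 := 0) (W1 := 536870912) (P2 := 1073741824) (W2 := 536870912) (P3 := 67108864) (W3 := 67108864)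
    rfl rfl rfl k0_mm_012

noncomputable def f_mm_022 : ℕ → ℕ → ℕ → ℕ → Bool := onCell 0 536870912 1073741824 536870912 67108864 67108864
    (rowFK 0 false false false .pp 0 2 2 (qsf 0 536870912 1073741824 536870912 2) ndF2q0 ndF4q2 pcF2 Cut.none Ext.none)

def k0_mm_022 : ∃ t, chk3 f_mm_022 t 1 1 1 = true :=
  ⟨(l 5), by decide +kernel⟩

theorem c_mm_022 : CertF 0 536870912 1073741824 536870912 67108864 67108864 false false false .pp 0 2 2
    ndF2q0 ndF4q2 pcF2 Cut.none Ext.none :=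
  certFK0 (fam := false) (s1 := false) (s2 := false) (a := 0) (b := 2) (c := 2) (cn := .pp) (n1 := ndF2q0) (n2 := ndF4q2) (pc := pcF2) (cut := Cut.none) (xt := Ext.none) (P1 := 0) (W1 := 536870912) (P2 := 1073741824) (W2 := 536870912) (P3 := 67108864) (W3 := 67108864)
    rfl rfl rfl k0_mm_022

noncomputable def f_mm_023 : ℕ → ℕ → ℕ → ℕ → Bool := onCell 0 536870912 0 1230186008 67108864 67108864
    (rowFK 0 false false false .up 0 2 3 (qsf 0 536870912 0 1230186008 2) ndF2q0 ndF4q3 pcF2 Cut.none Ext.none)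

def k0_mm_023 : ∃ t, chk3 f_mm_023 t 1 1 1 = true :=
  ⟨(l 5), by decide +kernel⟩

theorem c_mm_023 : CertF 0 536870912 0 1230186008 67108864 67108864 false false false .up 0 2 3
    ndF2q0 ndF4q3 pcF2 Cut.none Ext.none :=
  certFK0 (fam := false) (s1 := false) (s2 := false) (a := 0) (b := 2) (c := 3) (cn := .up) (n1 := ndF2q0) (n2 := ndF4q3) (pc := pcF2) (cut := Cut.none) (xt := Ext.none) (P1 := 0) (W1 := 536870912) (P2 := 0) (W2 := 1230186008) (P3 := 67108864) (W3 := 67108864)
    rfl rfl rfl k0_mm_023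

noncomputable def f_mm_033 : ℕ → ℕ → ℕ → ℕ → Bool := onCell 0 536870912 0 1230186008 67108864 67108864
    (rowFK 0 false false false .pnn 0 3 3 (qsf 0 536870912 0 1230186008 3) ndF2q0 ndF4q3 pcF3 Cut.none Ext.none)

def k0_mm_033 : ∃ t, chk3 f_mm_033 t 1 1 1 = true :=
  ⟨(l 5), by decide +kernel⟩

theorem c_mm_033 : CertF 0 536870912 0 1230186008 67108864 67108864 false false false .pnn 0 3 3
    ndF2q0 ndF4q3 pcF3 Cut.none Ext.none :=
  certFK0 (fam := false) (s1 := false) (s2 := false) (a := 0) (b := 3) (c := 3) (cn := .pnn) (n1 := ndF2q0) (n2 := ndF4q3) (pc := pcF3) (cut := Cut.none) (xt := Ext.none) (P1 := 0) (W1 := 536870912) (P2 := 0) (W2 := 1230186008) (P3 := 67108864) (W3 := 67108864)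
    rfl rfl rfl k0_mm_033

noncomputable def f_mm_101 : ℕ → ℕ → ℕ → ℕ → Bool := onCell 536870912 536870912 536870912 536870912 67108864 67108864
    (rowFK 0 false false false .npn 1 0 1 (qsf 536870912 536870912 536870912 536870912 0) ndF2q1 ndF4q1 pcF0 Cut.none Ext.none)

def k0_mm_101 : ∃ t, chk3 f_mm_101 t 1 1 1 = true :=
  ⟨(l 3), by decide +kernel⟩

theorem c_mm_101 : CertF 536870912 536870912 536870912 536870912 67108864 67108864 false false false .npn 1 0 1
    ndF2q1 ndF4q1 pcF0 Cut.none Ext.none :=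
  certFK0 (fam := false) (s1 := false) (s2 := false) (a := 1) (b := 0) (c := 1) (cn := .npn) (n1 := ndF2q1) (n2 := ndF4q1) (pc := pcF0) (cut := Cut.none) (xt := Ext.none) (P1 := 536870912) (W1 := 536870912) (P2 := 536870912) (W2 := 536870912) (P3 := 67108864) (W3 := 67108864)
    rfl rfl rfl k0_mm_101

noncomputable def f_mm_102 : ℕ → ℕ → ℕ → ℕ → Bool := onCell 536870912 536870912 1073741824 536870912 67108864 67108864
    (rowFK 0 false false false .npp 1 0 2 (qsf 536870912 536870912 1073741824 536870912 0) ndF2q1 ndF4q2 pcF0 Cut.none Ext.none)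

def k0_mm_102 : ∃ t, chk3 f_mm_102 t 1 1 1 = true :=
  ⟨(l 3), by decide +kernel⟩

theorem c_mm_102 : CertF 536870912 536870912 1073741824 536870912 67108864 67108864 false false false .npp 1 0 2
    ndF2q1 ndF4q2 pcF0 Cut.none Ext.none :=
  certFK0 (fam := false) (s1 := false) (s2 := false) (a := 1) (b := 0) (c := 2) (cn := .npp) (n1 := ndF2q1) (n2 := ndF4q2) (pc := pcF0) (cut := Cut.none) (xt := Ext.none) (P1 := 536870912) (W1 := 536870912) (P2 := 1073741824) (W2 := 536870912) (P3 := 67108864) (W3 := 67108864)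
    rfl rfl rfl k0_mm_102

noncomputable def f_mm_112 : ℕ → ℕ → ℕ → ℕ → Bool := onCell 536870912 536870912 1073741824 536870912 67108864 67108864
    (rowFK 0 false false false .dn 1 1 2 (qsf 536870912 536870912 1073741824 536870912 1) ndF2q1 ndF4q2 pcF1 Cut.none Ext.none)

def k0_mm_112 : ∃ t, chk3 f_mm_112 t 1 1 1 = true :=
  ⟨(l 3), by decide +kernel⟩

theorem c_mm_112 : CertF 536870912 536870912 1073741824 536870912 67108864 67108864 false false false .dn 1 1 2
    ndF2q1 ndF4q2 pcF1 Cut.none Ext.none :=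
  certFK0 (fam := false) (s1 := false) (s2 := false) (a := 1) (b := 1) (c := 2) (cn := .dn) (n1 := ndF2q1) (n2 := ndF4q2) (pc := pcF1) (cut := Cut.none) (xt := Ext.none) (P1 := 536870912) (W1 := 536870912) (P2 := 1073741824) (W2 := 536870912) (P3 := 67108864) (W3 := 67108864)
    rfl rfl rfl k0_mm_112

noncomputable def f_mm_113 : ℕ → ℕ → ℕ → ℕ → Bool := onCell 536870912 536870912 0 1230186008 67108864 67108864
    (rowFK 0 false false false .nn 1 1 3 (qsf 536870912 536870912 0 1230186008 1) ndF2q1 ndF4q3 pcF1 Cut.none Ext.none)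

def k0_mm_113 : ∃ t, chk3 f_mm_113 t 1 1 1 = true :=
  ⟨(l 5), by decide +kernel⟩

theorem c_mm_113 : CertF 536870912 536870912 0 1230186008 67108864 67108864 false false false .nn 1 1 3
    ndF2q1 ndF4q3 pcF1 Cut.none Ext.none :=
  certFK0 (fam := false) (s1 := false) (s2 := false) (a := 1) (b := 1) (c := 3) (cn := .nn) (n1 := ndF2q1) (n2 := ndF4q3) (pc := pcF1) (cut := Cut.none) (xt := Ext.none) (P1 := 536870912) (W1 := 536870912) (P2 := 0) (W2 := 1230186008) (P3 := 67108864) (W3 := 67108864)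
    rfl rfl rfl k0_mm_113

noncomputable def f_mm_123 : ℕ → ℕ → ℕ → ℕ → Bool := onCell 536870912 536870912 0 1230186008 67108864 67108864
    (rowFK 0 false false false .npn 1 2 3 (qsf 536870912 536870912 0 1230186008 2) ndF2q1 ndF4q3 pcF2 Cut.none Ext.none)

def k0_mm_123 : ∃ t, chk3 f_mm_123 t 1 1 1 = true :=
  ⟨(l 5), by decide +kernel⟩

theorem c_mm_123 : CertF 536870912 536870912 0 1230186008 67108864 67108864 false false false .npn 1 2 3
    ndF2q1 ndF4q3 pcF2 Cut.none Ext.none :=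
  certFK0 (fam := false) (s1 := false) (s2 := false) (a := 1) (b := 2) (c := 3) (cn := .npn) (n1 := ndF2q1) (n2 := ndF4q3) (pc := pcF2) (cut := Cut.none) (xt := Ext.none) (P1 := 536870912) (W1 := 536870912) (P2 := 0) (W2 := 1230186008) (P3 := 67108864) (W3 := 67108864)
    rfl rfl rfl k0_mm_123

noncomputable def f_mm_133 : ℕ → ℕ → ℕ → ℕ → Bool := onCell 536870912 536870912 0 1230186008 67108864 67108864
    (rowFK 0 false false false .dn 1 3 3 (qsf 536870912 536870912 0 1230186008 3) ndF2q1 ndF4q3 pcF3 Cut.none Ext.none)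

def k0_mm_133 : ∃ t, chk3 f_mm_133 t 1 1 1 = true :=
  ⟨(l 5), by decide +kernel⟩

theorem c_mm_133 : CertF 536870912 536870912 0 1230186008 67108864 67108864 false false false .dn 1 3 3
    ndF2q1 ndF4q3 pcF3 Cut.none Ext.none :=
  certFK0 (fam := false) (s1 := false) (s2 := false) (a := 1) (b := 3) (c := 3) (cn := .dn) (n1 := ndF2q1) (n2 := ndF4q3) (pc := pcF3) (cut := Cut.none) (xt := Ext.none) (P1 := 536870912) (W1 := 536870912) (P2 := 0) (W2 := 1230186008) (P3 := 67108864) (W3 := 67108864)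
    rfl rfl rfl k0_mm_133

noncomputable def cut_mm_202_a : Cut := Cut.of [[⟨0, 1, 0, 67108864⟩, ⟨1, 0, 0, 67108864⟩, ⟨2, 1, 0, 67108864⟩]]

noncomputable def f_mm_202_a : ℕ → ℕ → ℕ → ℕ → Bool := onCell 0 536870912 0 536870912 67108864 67108864
    (rowFK 1 false false false .pp 2 0 2 (qsf 0 536870912 1073741824 536870912 0) ndF2q2a ndF4q2 pcF0 cut_mm_202_a Ext.none)

def k0_mm_202_a : ∃ t, chk3 f_mm_202_a t 1 1 1 = true :=
  ⟨(a (l 3) (b (a (l 3) (b (a (l 3) (b (b (b (l 6) (l 3)) (l 3)) (l 3))) (l 3))) (l 3))), by decide +kernel⟩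

theorem c_mm_202_a : CertF 0 536870912 1073741824 536870912 67108864 67108864 false false false .pp 2 0 2
    ndF2q2a ndF4q2 pcF0 cut_mm_202_a Ext.none :=
  certFK1 (fam := false) (s1 := false) (s2 := false) (a := 2) (b := 0) (c := 2) (cn := .pp) (n1 := ndF2q2a) (n2 := ndF4q2) (pc := pcF0) (cut := cut_mm_202_a) (xt := Ext.none) (P1 := 0) (W1 := 536870912) (P2 := 1073741824) (W2 := 536870912) (P3 := 67108864) (W3 := 67108864)
    rfl rfl rfl (fun _ => rfl) k0_mm_202_a

noncomputable def cut_mm_202_b : Cut := Cut.of [[⟨0, 1, 0, 67108864⟩, ⟨1, 0, 0, 67108864⟩, ⟨2, 1, 0, 67108864⟩]]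

noncomputable def f_mm_202_b : ℕ → ℕ → ℕ → ℕ → Bool := onCell 1239849684 370763052 0 536870912 67108864 67108864
    (rowFK 1 false false false .pp 2 0 2 (qsf 1239849684 370763052 1073741824 536870912 0) ndF2q2b ndF4q2 pcF0 cut_mm_202_b Ext.none)

def k0_mm_202_b : ∃ t, chk3 f_mm_202_b t 1 1 1 = true :=
  ⟨(b (l 3) (a (l 3) (l 2))), by decide +kernel⟩

theorem c_mm_202_b : CertF 1239849684 370763052 1073741824 536870912 67108864 67108864 false false false .pp 2 0 2
    ndF2q2b ndF4q2 pcF0 cut_mm_202_b Ext.none :=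
  certFK1 (fam := false) (s1 := false) (s2 := false) (a := 2) (b := 0) (c := 2) (cn := .pp) (n1 := ndF2q2b) (n2 := ndF4q2) (pc := pcF0) (cut := cut_mm_202_b) (xt := Ext.none) (P1 := 1239849684) (W1 := 370763052) (P2 := 1073741824) (W2 := 536870912) (P3 := 67108864) (W3 := 67108864)
    rfl rfl rfl (fun _ => rfl) k0_mm_202_b

noncomputable def f_mm_203_a : ℕ → ℕ → ℕ → ℕ → Bool := onCell 0 536870912 0 1230186008 67108864 67108864
    (rowFK 0 false false false .up 2 0 3 (qsf 0 536870912 0 1230186008 0) ndF2q2a ndF4q3 pcF0 Cut.none Ext.none)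

def k0_mm_203_a : ∃ t, chk3 f_mm_203_a t 1 1 1 = true :=
  ⟨(b (l 2) (l 3)), by decide +kernel⟩

theorem c_mm_203_a : CertF 0 536870912 0 1230186008 67108864 67108864 false false false .up 2 0 3
    ndF2q2a ndF4q3 pcF0 Cut.none Ext.none :=
  certFK0 (fam := false) (s1 := false) (s2 := false) (a := 2) (b := 0) (c := 3) (cn := .up) (n1 := ndF2q2a) (n2 := ndF4q3) (pc := pcF0) (cut := Cut.none) (xt := Ext.none) (P1 := 0) (W1 := 536870912) (P2 := 0) (W2 := 1230186008) (P3 := 67108864) (W3 := 67108864)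
    rfl rfl rfl k0_mm_203_a

noncomputable def f_mm_203_b : ℕ → ℕ → ℕ → ℕ → Bool := onCell 1239849684 370763052 0 1230186008 67108864 67108864
    (rowFK 0 false false false .up 2 0 3 (qsf 1239849684 370763052 0 1230186008 0) ndF2q2b ndF4q3 pcF0 Cut.none Ext.none)

def k0_mm_203_b : ∃ t, chk3 f_mm_203_b t 1 1 1 = true :=
  ⟨(b (l 3) (l 3)), by decide +kernel⟩

theorem c_mm_203_b : CertF 1239849684 370763052 0 1230186008 67108864 67108864 false false false .up 2 0 3
    ndF2q2b ndF4q3 pcF0 Cut.none Ext.none :=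
  certFK0 (fam := false) (s1 := false) (s2 := false) (a := 2) (b := 0) (c := 3) (cn := .up) (n1 := ndF2q2b) (n2 := ndF4q3) (pc := pcF0) (cut := Cut.none) (xt := Ext.none) (P1 := 1239849684) (W1 := 370763052) (P2 := 0) (W2 := 1230186008) (P3 := 67108864) (W3 := 67108864)
    rfl rfl rfl k0_mm_203_b

noncomputable def f_mm_213_a : ℕ → ℕ → ℕ → ℕ → Bool := onCell 0 536870912 0 1230186008 67108864 67108864
    (rowFK 0 false false false .pnn 2 1 3 (qsf 0 536870912 0 1230186008 1) ndF2q2a ndF4q3 pcF1 Cut.none Ext.none)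

def k0_mm_213_a : ∃ t, chk3 f_mm_213_a t 1 1 1 = true :=
  ⟨(b (l 5) (l 3)), by decide +kernel⟩

theorem c_mm_213_a : CertF 0 536870912 0 1230186008 67108864 67108864 false false false .pnn 2 1 3
    ndF2q2a ndF4q3 pcF1 Cut.none Ext.none :=
  certFK0 (fam := false) (s1 := false) (s2 := false) (a := 2) (b := 1) (c := 3) (cn := .pnn) (n1 := ndF2q2a) (n2 := ndF4q3) (pc := pcF1) (cut := Cut.none) (xt := Ext.none) (P1 := 0) (W1 := 536870912) (P2 := 0) (W2 := 1230186008) (P3 := 67108864) (W3 := 67108864)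
    rfl rfl rfl k0_mm_213_a

noncomputable def f_mm_213_b : ℕ → ℕ → ℕ → ℕ → Bool := onCell 1239849684 370763052 0 1230186008 67108864 67108864
    (rowFK 0 false false false .pnn 2 1 3 (qsf 1239849684 370763052 0 1230186008 1) ndF2q2b ndF4q3 pcF1 Cut.none Ext.none)

def k0_mm_213_b : ∃ t, chk3 f_mm_213_b t 1 1 1 = true :=
  ⟨(b (l 3) (l 3)), by decide +kernel⟩

theorem c_mm_213_b : CertF 1239849684 370763052 0 1230186008 67108864 67108864 false false false .pnn 2 1 3
    ndF2q2b ndF4q3 pcF1 Cut.none Ext.none :=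
  certFK0 (fam := false) (s1 := false) (s2 := false) (a := 2) (b := 1) (c := 3) (cn := .pnn) (n1 := ndF2q2b) (n2 := ndF4q3) (pc := pcF1) (cut := Cut.none) (xt := Ext.none) (P1 := 1239849684) (W1 := 370763052) (P2 := 0) (W2 := 1230186008) (P3 := 67108864) (W3 := 67108864)
    rfl rfl rfl k0_mm_213_b

noncomputable def f_mm_303 : ℕ → ℕ → ℕ → ℕ → Bool := onCell 0 536870912 0 1230186008 67108864 67108864
    (rowFK 2 false false false .npn 3 0 3 (qsf 1610612736 536870912 0 1230186008 0) ndF2q3 ndF4q3 pcF0 Cut.none Ext.none)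

def k0_mm_303 : ∃ t, chk3 f_mm_303 t 1 1 1 = true :=
  ⟨(b (l 3) (l 3)), by decide +kernel⟩

theorem c_mm_303 : CertF 1610612736 536870912 0 1230186008 67108864 67108864 false false false .npn 3 0 3
    ndF2q3 ndF4q3 pcF0 Cut.none Ext.none :=
  certFK2 (fam := false) (s1 := false) (s2 := false) (a := 3) (b := 0) (c := 3) (cn := .npn) (n1 := ndF2q3) (n2 := ndF4q3) (pc := pcF0) (cut := Cut.none) (xt := Ext.none) (P1 := 1610612736) (W1 := 536870912) (P2 := 0) (W2 := 1230186008) (P3 := 67108864) (W3 := 67108864)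
    rfl rfl rfl (fun _ => rfl) k0_mm_303

noncomputable def f_mm_313 : ℕ → ℕ → ℕ → ℕ → Bool := onCell 1610612736 536870912 0 1230186008 67108864 67108864
    (rowFK 0 false false false .dn 3 1 3 (qsf 1610612736 536870912 0 1230186008 1) ndF2q3 ndF4q3 pcF1 Cut.none Ext.none)

def k0_mm_313 : ∃ t, chk3 f_mm_313 t 1 1 1 = true :=
  ⟨(b (l 3) (l 1)), by decide +kernel⟩

theorem c_mm_313 : CertF 1610612736 536870912 0 1230186008 67108864 67108864 false false false .dn 3 1 3
    ndF2q3 ndF4q3 pcF1 Cut.none Ext.none :=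
  certFK0 (fam := false) (s1 := false) (s2 := false) (a := 3) (b := 1) (c := 3) (cn := .dn) (n1 := ndF2q3) (n2 := ndF4q3) (pc := pcF1) (cut := Cut.none) (xt := Ext.none) (P1 := 1610612736) (W1 := 536870912) (P2 := 0) (W2 := 1230186008) (P3 := 67108864) (W3 := 67108864)
    rfl rfl rfl k0_mm_313

end Pool.Agent.Strip051.G.I1_16_1_8.Tab.C.FB24

namespace Pool.Agent.Strip051.G.I1_16_1_8.Tab.C.FB30

open Pool.Agent.Strip051.PB Pool.Agent.Strip051.PB.T
open Pool.Agent.Strip051.G.I1_16_1_8.Tab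

noncomputable def f_pp_001 : ℕ → ℕ → ℕ → ℕ → Bool := onCell 0 536870912 0 536870912 67108864 67108864
    (rowFK 1 false true true .up 0 0 1 (qsf 0 536870912 536870912 536870912 0) ndF3q0 ndF0q1 pcF0 Cut.none Ext.none)

def k0_pp_001 : ∃ t, chk3 f_pp_001 t 1 1 1 = true :=
  ⟨(a (l 3) (b (l 3) (b (l 3) (a (l 3) (b (b (l 3) (a (l 3) (a (l 3) (l 239077377911)))) (a (l 256793436775) (b (a (l 231560836327) (l 145661617943)) (l 149419749447)))))))), by decide +kernel⟩

theorem c_pp_001 : CertF 0 536870912 536870912 536870912 67108864 67108864 false true true .up 0 0 1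
    ndF3q0 ndF0q1 pcF0 Cut.none Ext.none :=
  certFK1 (fam := false) (s1 := true) (s2 := true) (a := 0) (b := 0) (c := 1) (cn := .up) (n1 := ndF3q0) (n2 := ndF0q1) (pc := pcF0) (cut := Cut.none) (xt := Ext.none) (P1 := 0) (W1 := 536870912) (P2 := 536870912) (W2 := 536870912) (P3 := 67108864) (W3 := 67108864)
    rfl rfl rfl (fun _ => rfl) k0_pp_001

noncomputable def f_pp_011 : ℕ → ℕ → ℕ → ℕ → Bool := onCell 0 536870912 536870912 536870912 67108864 67108864
    (rowFK 0 false true true .pnn 0 1 1 (qsf 0 536870912 536870912 536870912 1) ndF3q0 ndF0q1 pcF1 Cut.none Ext.none)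

def k0_pp_011 : ∃ t, chk3 f_pp_011 t 1 1 1 = true :=
  ⟨(b (l 3) (a (b (a (b (l 3) (l 3)) (l 3)) (a (b (b (a (a (b (a (b (l 136000052487) (l 18784904)) (l 141368657639)) (l 18801448)) (l 84996923927)) (l 155326724631)) (a (l 18832096) (l 18500336))) (a (b (l 18987696) (l 19155360)) (l 18673920))) (a (b (a (l 108081647191) (l 114523759383)) (l 18298288)) (b (l 183780235927) (l 17947664))))) (b (l 3) (a (b (a (l 156399298151) (l 178410583847)) (a (l 17641768) (l 17386776))) (b (b (l 3) (a (l 206327795975) (l 614215648375))) (a (l 17403920) (b (l 17862288) (l 17590528)))))))), by decide +kernel⟩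

theorem c_pp_011 : CertF 0 536870912 536870912 536870912 67108864 67108864 false true true .pnn 0 1 1
    ndF3q0 ndF0q1 pcF1 Cut.none Ext.none :=
  certFK0 (fam := false) (s1 := true) (s2 := true) (a := 0) (b := 1) (c := 1) (cn := .pnn) (n1 := ndF3q0) (n2 := ndF0q1) (pc := pcF1) (cut := Cut.none) (xt := Ext.none) (P1 := 0) (W1 := 536870912) (P2 := 536870912) (W2 := 536870912) (P3 := 67108864) (W3 := 67108864)
    rfl rfl rfl k0_pp_011

noncomputable def f_pp_012 : ℕ → ℕ → ℕ → ℕ → Bool := onCell 536870912 536870912 0 536870912 67108864 67108864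
    (rowFK 2 false true true .pnp 0 1 2 (qsf 0 536870912 0 536870912 1) ndF3q0 ndF0q2 pcF1 Cut.none Ext.none)

def k0_pp_012 : ∃ t, chk3 f_pp_012 t 1 1 1 = true :=
  ⟨(a (b (a (a (l 2) (b (l 2) (l 18025488))) (b (b (a (b (l 17204344) (l 17345640)) (a (b (l 17133640) (l 17107952)) (l 17237128))) (a (b (l 17578936) (l 17636024)) (l 17033176))) (l 17333664))) (a (b (l 17937232) (a (l 17761328) (l 17450368))) (b (l 17228864) (a (l 17122376) (l 17380728))))) (b (a (a (b (l 17607176) (l 17072192)) (l 17812952)) (a (l 18313256) (a (l 18586688) (l 18735408)))) (b (a (a (l 17242336) (l 17641552)) (a (l 18103888) (a (l 18473528) (l 18726904)))) (a (b (l 17759144) (l 18039288)) (b (l 18642120) (l 19016152)))))), by decide +kernel⟩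

theorem c_pp_012 : CertF 0 536870912 0 536870912 67108864 67108864 false true true .pnp 0 1 2
    ndF3q0 ndF0q2 pcF1 Cut.none Ext.none :=
  certFK2 (fam := false) (s1 := true) (s2 := true) (a := 0) (b := 1) (c := 2) (cn := .pnp) (n1 := ndF3q0) (n2 := ndF0q2) (pc := pcF1) (cut := Cut.none) (xt := Ext.none) (P1 := 0) (W1 := 536870912) (P2 := 0) (W2 := 536870912) (P3 := 67108864) (W3 := 67108864)
    rfl rfl rfl (fun _ => rfl) k0_pp_012

noncomputable def f_pp_022 : ℕ → ℕ → ℕ → ℕ → Bool := onCell 0 536870912 0 536870912 67108864 67108864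
    (rowFK 0 false true true .pp 0 2 2 (qsf 0 536870912 0 536870912 2) ndF3q0 ndF0q2 pcF2 Cut.none Ext.none)

def k0_pp_022 : ∃ t, chk3 f_pp_022 t 1 1 1 = true :=
  ⟨(a (b (a (l 19062224) (l 19133440)) (b (a (l 19116416) (l 1)) (a (b (a (a (b (l 19246504) (l 19330928)) (l 19216712)) (l 19156912)) (l 19308016)) (l 1)))) (l 1)), by decide +kernel⟩

theorem c_pp_022 : CertF 0 536870912 0 536870912 67108864 67108864 false true true .pp 0 2 2
    ndF3q0 ndF0q2 pcF2 Cut.none Ext.none :=
  certFK0 (fam := false) (s1 := true) (s2 := true) (a := 0) (b := 2) (c := 2) (cn := .pp) (n1 := ndF3q0) (n2 := ndF0q2) (pc := pcF2) (cut := Cut.none) (xt := Ext.none) (P1 := 0) (W1 := 536870912) (P2 := 0) (W2 := 536870912) (P3 := 67108864) (W3 := 67108864)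
    rfl rfl rfl k0_pp_022

noncomputable def cut_pp_101 : Cut := Cut.of [[⟨0, 1, 0, 67108864⟩, ⟨1, 0, 0, 67108864⟩, ⟨2, 1, 0, 67108864⟩]]

noncomputable def f_pp_101 : ℕ → ℕ → ℕ → ℕ → Bool := onCell 0 536870912 536870912 536870912 67108864 67108864
    (rowFK 2 false true true .npn 1 0 1 (qsf 536870912 536870912 536870912 536870912 0) ndF3q1 ndF0q1 pcF0 cut_pp_101 Ext.none)

def k0_pp_101 : ∃ t, chk3 f_pp_101 t 1 2 1 = true :=
  ⟨(l 3), by decide +kernel⟩

def k1_pp_101 : ∃ t, chk3 f_pp_101 t 1 6 1 = true :=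
  ⟨(l 3), by decide +kernel⟩

def k2_pp_101 : ∃ t, chk3 f_pp_101 t 1 14 1 = true :=
  ⟨(a (l 3) (a (l 3) (b (l 3) (a (l 206864951815) (l 377455951319))))), by decide +kernel⟩

def k3_pp_101 : ∃ t, chk3 f_pp_101 t 1 30 1 = true :=
  ⟨(a (a (l 3) (a (l 3) (b (l 3) (a (b (l 3) (l 226728585031)) (l 148345596615))))) (a (a (b (l 3) (a (l 146735182135) (l 17670456))) (b (l 212233632231) (l 17809624))) (a (l 138145475767) (l 18011312)))), by decide +kernel⟩

def k4_pp_101 : ∃ t, chk3 f_pp_101 t 2 62 1 = true :=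
  ⟨(a (a (l 3) (a (l 3) (b (l 3) (b (l 3) (b (a (l 3) (c (l 256792987303) (a (c (l 211695309239) (a (l 3) (a (l 3) (a (l 170355854039) (b (l 3) (l 157470983575)))))) (c (l 125796083527) (b (a (l 3) (l 189683410231)) (a (a (b (l 3) (l 132238050727)) (l 131701213623)) (l 131164430135))))))) (a (a (l 3) (c (l 241223472215) (b (l 3) (a (a (c (l 180019685799) (l 139217242743)) (b (l 3) (c (l 132238187319) (l 138143501975)))) (c (l 131701308231) (b (a (l 138680379143) (l 136532889511)) (a (l 137069764599) (l 16755904)))))))) (c (l 124185777431) (a (c (a (l 131164570935) (l 121500844071)) (b (a (b (a (l 3) (l 158544641863)) (a (c (l 164987238231) (l 138680376935)) (c (l 134922409239) (l 136532906871)))) (b (a (a (l 133311713223) (l 133311729719)) (l 133311753991)) (l 16783904))) (a (a (l 127942953511) (l 16793736)) (l 16819360)))) (c (l 17035944) (b (l 16791904) (l 16869072))))))))))) (a (a (a (b (l 3) (c (l 131702238311) (c (b (l 220822385191) (l 118279850583)) (b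 (b (l 3) (a (l 204179059975) (l 124185400535))) (a (a (b (l 130090772327) (l 16919344)) (l 16953416)) (l 16995808)))))) (b (c (l 272899333239) (l 219748661735)) (b (c (l 17406176) (a (l 124185549703) (l 119890475623))) (l 17214648)))) (a (b (a (l 139755138487) (l 138144686295)) (l 17184240)) (b (l 135997227623) (l 17450648)))) (a (b (c (l 17593648) (l 124185871479)) (l 17552960)) (l 17634488)))), by decide +kernel⟩

def k5_pp_101 : ∃ t, chk3 f_pp_101 t 8 63 1 = true :=
  ⟨(a (l 6) (b (a (l 3) (b (l 3) (b (l 3) (b (a (l 3) (b (a (l 3) (a (l 3) (c (c (a (l 138143579479) (l 133311744663)) (l 141364740919)) (l 141364740327)))) (a (a (l 3) (b (l 3) (c (c (l 137069830359) (l 141364744903)) (l 137069780071)))) (c (c (a (c (b (l 135459234023) (l 126869302119)) (l 132774829143)) (l 126332416727)) (l 131701075527)) (l 127406101735))))) (a (a (l 3) (a (l 6) (c (a (b (l 3) (l 6)) (b (l 141364770615) (l 120426784039))) (l 142438512199)))) (a (c (b (c (b (a (l 138680434967)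 (l 129016768071)) (a (a (l 132237964167) (l 127406156343)) (l 16738616))) (l 140291014535)) (a (l 16739632) (l 16738736))) (l 137606659479)) (c (l 16762856) (l 16736768)))))))) (a (l 6) (b (a (a (l 6) (a (l 6) (b (l 16742648) (l 6)))) (a (b (l 16739608) (l 16740664)) (l 16738400))) (b (l 16742608) (l 16743752)))))), by decide +kernel⟩

def k6_pp_101 : ∃ t, chk3 f_pp_101 t 36 126 1 = true :=
  ⟨(a (b (l 3) (b (b (l 3) (a (b (l 3) (c (c (a (l 146196648087) (c (l 127406299527) (l 132774864967))) (a (l 140827868807) (l 141364736519))) (l 141364748055))) (a (c (c (c (l 125795707047) (b (l 147807284951) (l 127943024263))) (b (l 140290993399) (l 129553575399))) (l 140827863159)) (b (c (c (c (l 124185279623) (l 137606753719)) (l 132774797783)) (l 139217250855)) (l 16753272))))) (b (a (b (c (c (a (c (l 125258723079) (l 122574277575)) (l 16784040)) (l 130090451415)) (l 127942967687)) (l 16755880)) (l 16754104)) (l 16734512)))) (b (a (l 3) (a (l 3) (b (l 3) (b (l 3) (c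 (c (l 202568527463) (l 141901653399)) (l 140291005271)))))) (b (a (a (c (b (b (l 3) (c (a (l 176798424023) (l 133848777975)) (l 135996042823))) (c (l 125258687351) (l 16747280))) (b (l 140827860471) (l 16731048))) (b (c (c (c (l 125259132007) (l 134385590919)) (b (l 139754138183) (l 120426783911))) (l 140291007559)) (l 16751608))) (b (c (c (c (l 122037825575) (b (l 124185166567) (l 16912088))) (b (a (l 133848576167) (l 124184903783)) (l 16730152))) (a (l 140290984135) (l 129553566567))) (l 16729568))) (l 16752200)))), by decide +kernel⟩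

def k7_pp_101 : ∃ t, chk3 f_pp_101 t 37 126 1 = true :=
  ⟨(b (b (b (l 3) (a (l 3) (a (l 3) (b (c (l 230485802135) (a (l 3) (l 138680378231))) (c (c (l 17143736) (l 183777858167)) (a (l 139217260375) (l 131164194615))))))) (b (a (b (l 3) (a (l 3) (c (c (l 220822295767) (a (l 167671545175) (c (l 132775171063) (l 135459293591)))) (a (l 139217236247) (l 139754125367))))) (c (c (l 121501029591) (a (a (a (l 133311847527) (l 133848761303)) (l 133848793655)) (l 16880560))) (a (a (a (l 139754140199) (l 139754139079)) (b (l 139754132391) (l 16723128))) (a (l 127406104039) (l 16721832))))) (a (a (c (c (l 124722231607) (b (c (l 173040367383) (l 137606667127)) (a (l 138143569687) (l 16756976)))) (c (b (l 139754115367) (l 133311678983)) (l 140290985127))) (b (c (c (l 17067728) (a (l 135996110375) (l 16841008))) (a (l 131164173799) (l 16724680))) (l 16754840))) (a (l 16753808) (l 16810024))))) (b (a (a (c (c (l 17021640) (l 16758456)) (l 16727400)) (l 16747672)) (l 16788760))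 (l 16727616))), by decide +kernel⟩

def k8_pp_101 : ∃ t, chk3 f_pp_101 t 18 127 1 = true :=
  ⟨(b (a (a (l 16736024) (l 16733272)) (l 16729992)) (a (l 16737368) (l 16733400))), by decide +kernel⟩

def k9_pp_101 : ∃ t, chk3 f_pp_101 t 19 63 1 = true :=
  ⟨(b (b (a (c (a (c (l 120964334295) (b (a (l 131701440759) (l 121501094391)) (l 17002840))) (c (l 17271240) (l 118279757767))) (b (a (b (b (a (l 3) (a (l 3) (c (c (l 187535964887) (l 159618476471)) (l 138680371095)))) (a (a (l 3) (a (l 138680396471) (l 135996038215))) (a (c (c (l 134922467271) (l 135996108167)) (l 139217221959)) (c (l 16787752) (l 16718296))))) (a (b (a (c (l 135996048551) (l 139217225047)) (c (l 136532959895) (l 130627290311))) (l 16741512)) (l 16739048))) (b (b (a (c (c (l 16926800) (l 134385557671)) (a (l 131701047351) (l 16717048))) (l 16808304)) (l 16743256)) (l 16798264))) (a (l 16720920) (l 16780896)))) (c (l 17273904) (a (l 16806160) (l 16940392)))) (a (l 16794296) (l 17085312))) (b (l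 16938528) (l 16939280))), by decide +kernel⟩

def k10_pp_101 : ∃ t, chk3 f_pp_101 t 5 63 1 = true :=
  ⟨(a (a (b (a (l 17030256) (l 17330480)) (l 17295096)) (b (l 17469912) (l 17517880))) (a (l 17648056) (l 17767432))), by decide +kernel⟩

def k11_pp_101 : ∃ t, chk3 f_pp_101 t 3 31 1 = true :=
  ⟨(a (b (a (l 17776064) (l 17925744)) (l 17976320)) (l 18140512)), by decide +kernel⟩

theorem s12_pp_101 : ∃ t, chk3 f_pp_101 t 18 126 1 = true := ex3_a k6_pp_101 k7_pp_101

theorem s13_pp_101 : ∃ t, chk3 f_pp_101 t 18 63 1 = true := ex3_b s12_pp_101 k8_pp_101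

theorem s14_pp_101 : ∃ t, chk3 f_pp_101 t 9 63 1 = true := ex3_a s13_pp_101 k9_pp_101

theorem s15_pp_101 : ∃ t, chk3 f_pp_101 t 4 63 1 = true := ex3_a k5_pp_101 s14_pp_101

theorem s16_pp_101 : ∃ t, chk3 f_pp_101 t 2 63 1 = true := ex3_a s15_pp_101 k10_pp_101

theorem s17_pp_101 : ∃ t, chk3 f_pp_101 t 2 31 1 = true := ex3_b k4_pp_101 s16_pp_101

theorem s18_pp_101 : ∃ t, chk3 f_pp_101 t 1 31 1 = true := ex3_a s17_pp_101 k11_pp_101

theorem s19_pp_101 : ∃ t, chk3 f_pp_101 t 1 15 1 = true := ex3_b k3_pp_101 s18_pp_101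

theorem s20_pp_101 : ∃ t, chk3 f_pp_101 t 1 7 1 = true := ex3_b k2_pp_101 s19_pp_101

theorem s21_pp_101 : ∃ t, chk3 f_pp_101 t 1 3 1 = true := ex3_b k1_pp_101 s20_pp_101

theorem s22_pp_101 : ∃ t, chk3 f_pp_101 t 1 1 1 = true := ex3_b k0_pp_101 s21_pp_101

theorem c_pp_101 : CertF 536870912 536870912 536870912 536870912 67108864 67108864 false true true .npn 1 0 1
    ndF3q1 ndF0q1 pcF0 cut_pp_101 Ext.none :=
  certFK2 (fam := false) (s1 := true) (s2 := true) (a := 1) (b := 0) (c := 1) (cn := .npn) (n1 := ndF3q1) (n2 := ndF0q1) (pc := pcF0) (cut := cut_pp_101) (xt := Ext.none) (P1 := 536870912) (W1 := 536870912) (P2 := 536870912) (W2 := 536870912) (P3 := 67108864) (W3 := 67108864)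
    rfl rfl rfl (fun _ => rfl) s22_pp_101

noncomputable def cut_pp_102 : Cut := Cut.of [[⟨0, 1, 0, 67108864⟩, ⟨1, 0, 0, 67108864⟩, ⟨2, 1, 0, 67108864⟩]]

noncomputable def f_pp_102 : ℕ → ℕ → ℕ → ℕ → Bool := onCell 0 536870912 0 536870912 67108864 67108864
    (rowFK 2 false true true .npp 1 0 2 (qsf 536870912 536870912 0 536870912 0) ndF3q1 ndF0q2 pcF0 cut_pp_102 Ext.none)

def k0_pp_102 : ∃ t, chk3 f_pp_102 t 1 1 1 = true :=
  ⟨(a (b (a (b (l 2) (a (l 2) (b (l 2) (l 18981784)))) (b (l 19382408) (a (l 19070408) (l 18962280)))) (a (b (a (l 2) (b (l 18276176) (a (l 17601584) (b (l 17917272) (l 17531384))))) (a (a (b (l 2) (l 6)) (a (b (b (l 2) (l 6)) (l 6)) (b (b (l 17292240) (b (l 17158584) (l 17106360))) (b (b (l 16955264) (l 16834448)) (b (l 16776488) (b (l 16760208) (l 16749592))))))) (b (a (b (a (l 17345776) (l 17282648)) (a (b (l 17055736) (l 16950896)) (l 16974464))) (b (l 17547072) (l 17096024))) (b (a (a (b (l 16851784) (l 16807992)) (l 16831848)) (l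 16984944)) (b (a (l 16773752) (l 16937368)) (a (b (l 16755080) (l 16763816)) (l 16918192))))))) (b (a (b (l 18562248) (a (b (l 18233152) (l 18015600)) (l 18325584))) (b (l 18681448) (l 18448680))) (b (a (b (l 17932984) (a (l 17621520) (l 17887144))) (l 18155824)) (b (a (l 17630472) (l 17967328)) (a (b (l 17527824) (a (l 17324328) (l 17572616))) (l 17840192))))))) (b (a (a (l 19037456) (l 18813608)) (a (l 18845960) (a (l 18643952) (l 18771760)))) (a (a (b (b (l 18737376) (l 18464952)) (b (l 18268600) (l 18074832))) (b (b (l 18691712) (l 18457816)) (l 18245464))) (b (b (l 18587848) (l 18422664)) (l 18520488))))), by decide +kernel⟩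

theorem c_pp_102 : CertF 536870912 536870912 0 536870912 67108864 67108864 false true true .npp 1 0 2
    ndF3q1 ndF0q2 pcF0 cut_pp_102 Ext.none :=
  certFK2 (fam := false) (s1 := true) (s2 := true) (a := 1) (b := 0) (c := 2) (cn := .npp) (n1 := ndF3q1) (n2 := ndF0q2) (pc := pcF0) (cut := cut_pp_102) (xt := Ext.none) (P1 := 536870912) (W1 := 536870912) (P2 := 0) (W2 := 536870912) (P3 := 67108864) (W3 := 67108864)
    rfl rfl rfl (fun _ => rfl) k0_pp_102

noncomputable def f_pp_112 : ℕ → ℕ → ℕ → ℕ → Bool := onCell 536870912 536870912 0 536870912 67108864 67108864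
    (rowFK 0 false true true .dn 1 1 2 (qsf 536870912 536870912 0 536870912 1) ndF3q1 ndF0q2 pcF1 Cut.none Ext.none)

def k0_pp_112 : ∃ t, chk3 f_pp_112 t 1 1 1 = true :=
  ⟨(a (b (a (b (a (a (l 17924512) (l 17983176)) (b (l 18543072) (b (l 17880360) (l 17764872)))) (l 17806704)) (a (b (b (l 18782960) (l 18060056)) (b (l 17930632) (l 17989944))) (l 1))) (a (b (l 17984808) (b (l 18089328) (l 18114216))) (b (l 1) (l 1)))) (l 1)), by decide +kernel⟩

theorem c_pp_112 : CertF 536870912 536870912 0 536870912 67108864 67108864 false true true .dn 1 1 2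
    ndF3q1 ndF0q2 pcF1 Cut.none Ext.none :=
  certFK0 (fam := false) (s1 := true) (s2 := true) (a := 1) (b := 1) (c := 2) (cn := .dn) (n1 := ndF3q1) (n2 := ndF0q2) (pc := pcF1) (cut := Cut.none) (xt := Ext.none) (P1 := 536870912) (W1 := 536870912) (P2 := 0) (W2 := 536870912) (P3 := 67108864) (W3 := 67108864)
    rfl rfl rfl k0_pp_112

noncomputable def f_pp_202 : ℕ → ℕ → ℕ → ℕ → Bool := onCell 1073741824 536870912 0 536870912 67108864 67108864
    (rowFK 0 false true true .pp 2 0 2 (qsf 1073741824 536870912 0 536870912 0) ndF3q2 ndF0q2 pcF0 Cut.none Ext.none)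

def k0_pp_202 : ∃ t, chk3 f_pp_202 t 1 1 1 = true :=
  ⟨(l 3), by decide +kernel⟩

theorem c_pp_202 : CertF 1073741824 536870912 0 536870912 67108864 67108864 false true true .pp 2 0 2
    ndF3q2 ndF0q2 pcF0 Cut.none Ext.none :=
  certFK0 (fam := false) (s1 := true) (s2 := true) (a := 2) (b := 0) (c := 2) (cn := .pp) (n1 := ndF3q2) (n2 := ndF0q2) (pc := pcF0) (cut := Cut.none) (xt := Ext.none) (P1 := 1073741824) (W1 := 536870912) (P2 := 0) (W2 := 536870912) (P3 := 67108864) (W3 := 67108864)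
    rfl rfl rfl k0_pp_202

noncomputable def f_pm_001 : ℕ → ℕ → ℕ → ℕ → Bool := onCell 0 536870912 536870912 536870912 67108864 67108864
    (rowFK 0 false true false .up 0 0 1 (qsf 0 536870912 536870912 536870912 0) ndF3q0 ndF0q1 pcF0 Cut.none Ext.none)

def k0_pm_001 : ∃ t, chk3 f_pm_001 t 1 1 1 = true :=
  ⟨(l 4), by decide +kernel⟩

theorem c_pm_001 : CertF 0 536870912 536870912 536870912 67108864 67108864 false true false .up 0 0 1
    ndF3q0 ndF0q1 pcF0 Cut.none Ext.none :=
  certFK0 (fam := false) (s1 := true) (s2 := false) (a := 0) (b := 0) (c := 1) (cn := .up) (n1 := ndF3q0) (n2 := ndF0q1) (pc := pcF0) (cut := Cut.none) (xt := Ext.none) (P1 := 0) (W1 := 536870912) (P2 := 536870912) (W2 := 536870912) (P3 := 67108864) (W3 := 67108864)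
    rfl rfl rfl k0_pm_001

noncomputable def f_pm_011 : ℕ → ℕ → ℕ → ℕ → Bool := onCell 0 536870912 536870912 536870912 67108864 67108864
    (rowFK 0 false true false .pnn 0 1 1 (qsf 0 536870912 536870912 536870912 1) ndF3q0 ndF0q1 pcF1 Cut.none Ext.none)

def k0_pm_011 : ∃ t, chk3 f_pm_011 t 1 1 1 = true :=
  ⟨(l 4), by decide +kernel⟩

theorem c_pm_011 : CertF 0 536870912 536870912 536870912 67108864 67108864 false true false .pnn 0 1 1
    ndF3q0 ndF0q1 pcF1 Cut.none Ext.none :=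
  certFK0 (fam := false) (s1 := true) (s2 := false) (a := 0) (b := 1) (c := 1) (cn := .pnn) (n1 := ndF3q0) (n2 := ndF0q1) (pc := pcF1) (cut := Cut.none) (xt := Ext.none) (P1 := 0) (W1 := 536870912) (P2 := 536870912) (W2 := 536870912) (P3 := 67108864) (W3 := 67108864)
    rfl rfl rfl k0_pm_011

noncomputable def f_pm_012 : ℕ → ℕ → ℕ → ℕ → Bool := onCell 536870912 536870912 0 536870912 67108864 67108864
    (rowFK 2 false true false .pnp 0 1 2 (qsf 0 536870912 0 536870912 1) ndF3q0 ndF0q2 pcF1 Cut.none Ext.none)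

def k0_pm_012 : ∃ t, chk3 f_pm_012 t 1 1 1 = true :=
  ⟨(b (a (b (a (l 2) (a (a (l 17633384) (l 17715640)) (l 17952752))) (l 18117968)) (a (a (a (l 18269296) (l 18149480)) (l 18718216)) (a (l 18950928) (a (l 19138968) (l 19238952))))) (l 4)), by decide +kernel⟩

theorem c_pm_012 : CertF 0 536870912 0 536870912 67108864 67108864 false true false .pnp 0 1 2
    ndF3q0 ndF0q2 pcF1 Cut.none Ext.none :=
  certFK2 (fam := false) (s1 := true) (s2 := false) (a := 0) (b := 1) (c := 2) (cn := .pnp) (n1 := ndF3q0) (n2 := ndF0q2) (pc := pcF1) (cut := Cut.none) (xt := Ext.none) (P1 := 0) (W1 := 536870912) (P2 := 0) (W2 := 536870912) (P3 := 67108864) (W3 := 67108864)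
    rfl rfl rfl (fun _ => rfl) k0_pm_012

noncomputable def f_pm_022 : ℕ → ℕ → ℕ → ℕ → Bool := onCell 0 536870912 0 536870912 67108864 67108864
    (rowFK 0 false true false .pp 0 2 2 (qsf 0 536870912 0 536870912 2) ndF3q0 ndF0q2 pcF2 Cut.none Ext.none)

def k0_pm_022 : ∃ t, chk3 f_pm_022 t 1 1 1 = true :=
  ⟨(a (b (a (b (l 19121144) (l 19145800)) (l 19327264)) (l 4)) (l 1)), by decide +kernel⟩

theorem c_pm_022 : CertF 0 536870912 0 536870912 67108864 67108864 false true false .pp 0 2 2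
    ndF3q0 ndF0q2 pcF2 Cut.none Ext.none :=
  certFK0 (fam := false) (s1 := true) (s2 := false) (a := 0) (b := 2) (c := 2) (cn := .pp) (n1 := ndF3q0) (n2 := ndF0q2) (pc := pcF2) (cut := Cut.none) (xt := Ext.none) (P1 := 0) (W1 := 536870912) (P2 := 0) (W2 := 536870912) (P3 := 67108864) (W3 := 67108864)
    rfl rfl rfl k0_pm_022

noncomputable def f_pm_101 : ℕ → ℕ → ℕ → ℕ → Bool := onCell 536870912 536870912 536870912 536870912 67108864 67108864
    (rowFK 0 false true false .npn 1 0 1 (qsf 536870912 536870912 536870912 536870912 0) ndF3q1 ndF0q1 pcF0 Cut.none Ext.none)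

def k0_pm_101 : ∃ t, chk3 f_pm_101 t 1 1 1 = true :=
  ⟨(l 4), by decide +kernel⟩

theorem c_pm_101 : CertF 536870912 536870912 536870912 536870912 67108864 67108864 false true false .npn 1 0 1
    ndF3q1 ndF0q1 pcF0 Cut.none Ext.none :=
  certFK0 (fam := false) (s1 := true) (s2 := false) (a := 1) (b := 0) (c := 1) (cn := .npn) (n1 := ndF3q1) (n2 := ndF0q1) (pc := pcF0) (cut := Cut.none) (xt := Ext.none) (P1 := 536870912) (W1 := 536870912) (P2 := 536870912) (W2 := 536870912) (P3 := 67108864) (W3 := 67108864)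
    rfl rfl rfl k0_pm_101

noncomputable def f_pm_102 : ℕ → ℕ → ℕ → ℕ → Bool := onCell 0 536870912 0 536870912 67108864 67108864
    (rowFK 2 false true false .npp 1 0 2 (qsf 536870912 536870912 0 536870912 0) ndF3q1 ndF0q2 pcF0 Cut.none Ext.none)

def k0_pm_102 : ∃ t, chk3 f_pm_102 t 1 1 1 = true :=
  ⟨(a (b (a (l 19843104) (l 19362072)) (a (l 20028304) (l 4))) (b (a (l 18899656) (b (l 18532432) (l 18999600))) (l 4))), by decide +kernel⟩

theorem c_pm_102 : CertF 536870912 536870912 0 536870912 67108864 67108864 false true false .npp 1 0 2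
    ndF3q1 ndF0q2 pcF0 Cut.none Ext.none :=
  certFK2 (fam := false) (s1 := true) (s2 := false) (a := 1) (b := 0) (c := 2) (cn := .npp) (n1 := ndF3q1) (n2 := ndF0q2) (pc := pcF0) (cut := Cut.none) (xt := Ext.none) (P1 := 536870912) (W1 := 536870912) (P2 := 0) (W2 := 536870912) (P3 := 67108864) (W3 := 67108864)
    rfl rfl rfl (fun _ => rfl) k0_pm_102

noncomputable def f_pm_112 : ℕ → ℕ → ℕ → ℕ → Bool := onCell 536870912 536870912 0 536870912 67108864 67108864
    (rowFK 0 false true false .dn 1 1 2 (qsf 536870912 536870912 0 536870912 1) ndF3q1 ndF0q2 pcF1 Cut.none Ext.none)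

def k0_pm_112 : ∃ t, chk3 f_pm_112 t 1 1 1 = true :=
  ⟨(a (b (a (b (b (b (l 18982816) (l 19072608)) (l 19057768)) (l 19110632)) (l 19091288)) (l 4)) (l 1)), by decide +kernel⟩

theorem c_pm_112 : CertF 536870912 536870912 0 536870912 67108864 67108864 false true false .dn 1 1 2
    ndF3q1 ndF0q2 pcF1 Cut.none Ext.none :=
  certFK0 (fam := false) (s1 := true) (s2 := false) (a := 1) (b := 1) (c := 2) (cn := .dn) (n1 := ndF3q1) (n2 := ndF0q2) (pc := pcF1) (cut := Cut.none) (xt := Ext.none) (P1 := 536870912) (W1 := 536870912) (P2 := 0) (W2 := 536870912) (P3 := 67108864) (W3 := 67108864)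
    rfl rfl rfl k0_pm_112

noncomputable def f_pm_202 : ℕ → ℕ → ℕ → ℕ → Bool := onCell 0 536870912 0 536870912 67108864 67108864
    (rowFK 2 false true false .pp 2 0 2 (qsf 1073741824 536870912 0 536870912 0) ndF3q2 ndF0q2 pcF0 Cut.none Ext.none)

def k0_pm_202 : ∃ t, chk3 f_pm_202 t 1 1 1 = true :=
  ⟨(a (b (a (b (b (l 3) (b (l 3) (a (a (l 3) (b (l 3) (a (l 194517311031) (l 135998265447)))) (a (l 135998041895) (l 133313613143))))) (a (a (b (a (b (b (c (l 132241137367) (a (b (l 3) (a (a (b (l 132239719623) (l 17546888)) (b (l 132239786903) (l 17583408))) (b (l 133312994071) (l 17631144)))) (l 132239596487))) (a (a (l 17916056) (l 17810408)) (b (a (l 17839704) (l 17949624)) (l 17894648)))) (l 17652696)) (b (a (c (l 128483019655) (b (l 132239622391) (b (l 17528560) (l 17501096)))) (b (l 136535286919) (l 17856424))) (l 17696200))) (l 17146064)) (b (b (a (b (l 17730792) (b (l 17837208) (l 17802400))) (l 17787296)) (b (a (l 17749696) (l 17696464)) (l 17607080)))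 (l 17396576))) (a (b (b (l 17709368) (b (l 17633728) (l 17578672))) (b (l 17486584) (l 17407376))) (b (b (l 17644792) (l 17578672)) (b (l 17518248) (l 17547184)))))) (a (b (b (l 3) (a (b (l 135461088487) (l 17668336)) (l 1))) (b (l 17662576) (b (l 17685888) (a (l 17718648) (l 1))))) (l 1))) (a (a (b (b (l 17833288) (l 18398536)) (b (l 19020176) (l 19326960))) (b (b (b (l 17604368) (l 17830904)) (l 18343088)) (b (l 18788680) (l 1)))) (b (l 1) (l 1)))) (l 1)), by decide +kernel⟩

theorem c_pm_202 : CertF 1073741824 536870912 0 536870912 67108864 67108864 false true false .pp 2 0 2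
    ndF3q2 ndF0q2 pcF0 Cut.none Ext.none :=
  certFK2 (fam := false) (s1 := true) (s2 := false) (a := 2) (b := 0) (c := 2) (cn := .pp) (n1 := ndF3q2) (n2 := ndF0q2) (pc := pcF0) (cut := Cut.none) (xt := Ext.none) (P1 := 1073741824) (W1 := 536870912) (P2 := 0) (W2 := 536870912) (P3 := 67108864) (W3 := 67108864)
    rfl rfl rfl (fun _ => rfl) k0_pm_202

noncomputable def f_mm_001 : ℕ → ℕ → ℕ → ℕ → Bool := onCell 0 536870912 536870912 536870912 67108864 67108864
    (rowFK 0 false false false .up 0 0 1 (qsf 0 536870912 536870912 536870912 0) ndF3q0 ndF0q1 pcF0 Cut.none Ext.none)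

def k0_mm_001 : ∃ t, chk3 f_mm_001 t 1 1 1 = true :=
  ⟨(l 5), by decide +kernel⟩

theorem c_mm_001 : CertF 0 536870912 536870912 536870912 67108864 67108864 false false false .up 0 0 1
    ndF3q0 ndF0q1 pcF0 Cut.none Ext.none :=
  certFK0 (fam := false) (s1 := false) (s2 := false) (a := 0) (b := 0) (c := 1) (cn := .up) (n1 := ndF3q0) (n2 := ndF0q1) (pc := pcF0) (cut := Cut.none) (xt := Ext.none) (P1 := 0) (W1 := 536870912) (P2 := 536870912) (W2 := 536870912) (P3 := 67108864) (W3 := 67108864)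
    rfl rfl rfl k0_mm_001

noncomputable def f_mm_011 : ℕ → ℕ → ℕ → ℕ → Bool := onCell 0 536870912 536870912 536870912 67108864 67108864
    (rowFK 0 false false false .pnn 0 1 1 (qsf 0 536870912 536870912 536870912 1) ndF3q0 ndF0q1 pcF1 Cut.none Ext.none)

def k0_mm_011 : ∃ t, chk3 f_mm_011 t 1 1 1 = true :=
  ⟨(l 5), by decide +kernel⟩

theorem c_mm_011 : CertF 0 536870912 536870912 536870912 67108864 67108864 false false false .pnn 0 1 1
    ndF3q0 ndF0q1 pcF1 Cut.none Ext.none :=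
  certFK0 (fam := false) (s1 := false) (s2 := false) (a := 0) (b := 1) (c := 1) (cn := .pnn) (n1 := ndF3q0) (n2 := ndF0q1) (pc := pcF1) (cut := Cut.none) (xt := Ext.none) (P1 := 0) (W1 := 536870912) (P2 := 536870912) (W2 := 536870912) (P3 := 67108864) (W3 := 67108864)
    rfl rfl rfl k0_mm_011

noncomputable def f_mm_012 : ℕ → ℕ → ℕ → ℕ → Bool := onCell 0 536870912 0 536870912 67108864 67108864
    (rowFK 0 false false false .pnp 0 1 2 (qsf 0 536870912 0 536870912 1) ndF3q0 ndF0q2 pcF1 Cut.none Ext.none)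

def k0_mm_012 : ∃ t, chk3 f_mm_012 t 1 1 1 = true :=
  ⟨(l 5), by decide +kernel⟩

theorem c_mm_012 : CertF 0 536870912 0 536870912 67108864 67108864 false false false .pnp 0 1 2
    ndF3q0 ndF0q2 pcF1 Cut.none Ext.none :=
  certFK0 (fam := false) (s1 := false) (s2 := false) (a := 0) (b := 1) (c := 2) (cn := .pnp) (n1 := ndF3q0) (n2 := ndF0q2) (pc := pcF1) (cut := Cut.none) (xt := Ext.none) (P1 := 0) (W1 := 536870912) (P2 := 0) (W2 := 536870912) (P3 := 67108864) (W3 := 67108864)
    rfl rfl rfl k0_mm_012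

noncomputable def f_mm_022 : ℕ → ℕ → ℕ → ℕ → Bool := onCell 0 536870912 0 536870912 67108864 67108864
    (rowFK 0 false false false .pp 0 2 2 (qsf 0 536870912 0 536870912 2) ndF3q0 ndF0q2 pcF2 Cut.none Ext.none)

def k0_mm_022 : ∃ t, chk3 f_mm_022 t 1 1 1 = true :=
  ⟨(l 5), by decide +kernel⟩

theorem c_mm_022 : CertF 0 536870912 0 536870912 67108864 67108864 false false false .pp 0 2 2
    ndF3q0 ndF0q2 pcF2 Cut.none Ext.none :=
  certFK0 (fam := false) (s1 := false) (s2 := false) (a := 0) (b := 2) (c := 2) (cn := .pp) (n1 := ndF3q0) (n2 := ndF0q2) (pc := pcF2) (cut := Cut.none) (xt := Ext.none) (P1 := 0) (W1 := 536870912) (P2 := 0) (W2 := 536870912) (P3 := 67108864) (W3 := 67108864)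
    rfl rfl rfl k0_mm_022

noncomputable def f_mm_101 : ℕ → ℕ → ℕ → ℕ → Bool := onCell 0 536870912 536870912 536870912 67108864 67108864
    (rowFK 2 false false false .npn 1 0 1 (qsf 536870912 536870912 536870912 536870912 0) ndF3q1 ndF0q1 pcF0 Cut.none Ext.none)

def k0_mm_101 : ∃ t, chk3 f_mm_101 t 1 1 1 = true :=
  ⟨(b (l 3) (l 5)), by decide +kernel⟩

theorem c_mm_101 : CertF 536870912 536870912 536870912 536870912 67108864 67108864 false false false .npn 1 0 1
    ndF3q1 ndF0q1 pcF0 Cut.none Ext.none :=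
  certFK2 (fam := false) (s1 := false) (s2 := false) (a := 1) (b := 0) (c := 1) (cn := .npn) (n1 := ndF3q1) (n2 := ndF0q1) (pc := pcF0) (cut := Cut.none) (xt := Ext.none) (P1 := 536870912) (W1 := 536870912) (P2 := 536870912) (W2 := 536870912) (P3 := 67108864) (W3 := 67108864)
    rfl rfl rfl (fun _ => rfl) k0_mm_101

noncomputable def f_mm_102 : ℕ → ℕ → ℕ → ℕ → Bool := onCell 536870912 536870912 0 536870912 67108864 67108864
    (rowFK 0 false false false .npp 1 0 2 (qsf 536870912 536870912 0 536870912 0) ndF3q1 ndF0q2 pcF0 Cut.none Ext.none)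

def k0_mm_102 : ∃ t, chk3 f_mm_102 t 1 1 1 = true :=
  ⟨(l 5), by decide +kernel⟩

theorem c_mm_102 : CertF 536870912 536870912 0 536870912 67108864 67108864 false false false .npp 1 0 2
    ndF3q1 ndF0q2 pcF0 Cut.none Ext.none :=
  certFK0 (fam := false) (s1 := false) (s2 := false) (a := 1) (b := 0) (c := 2) (cn := .npp) (n1 := ndF3q1) (n2 := ndF0q2) (pc := pcF0) (cut := Cut.none) (xt := Ext.none) (P1 := 536870912) (W1 := 536870912) (P2 := 0) (W2 := 536870912) (P3 := 67108864) (W3 := 67108864)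
    rfl rfl rfl k0_mm_102

noncomputable def f_mm_112 : ℕ → ℕ → ℕ → ℕ → Bool := onCell 536870912 536870912 0 536870912 67108864 67108864
    (rowFK 0 false false false .dn 1 1 2 (qsf 536870912 536870912 0 536870912 1) ndF3q1 ndF0q2 pcF1 Cut.none Ext.none)

def k0_mm_112 : ∃ t, chk3 f_mm_112 t 1 1 1 = true :=
  ⟨(l 5), by decide +kernel⟩

theorem c_mm_112 : CertF 536870912 536870912 0 536870912 67108864 67108864 false false false .dn 1 1 2
    ndF3q1 ndF0q2 pcF1 Cut.none Ext.none :=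
  certFK0 (fam := false) (s1 := false) (s2 := false) (a := 1) (b := 1) (c := 2) (cn := .dn) (n1 := ndF3q1) (n2 := ndF0q2) (pc := pcF1) (cut := Cut.none) (xt := Ext.none) (P1 := 536870912) (W1 := 536870912) (P2 := 0) (W2 := 536870912) (P3 := 67108864) (W3 := 67108864)
    rfl rfl rfl k0_mm_112

noncomputable def f_mm_202 : ℕ → ℕ → ℕ → ℕ → Bool := onCell 1073741824 536870912 0 536870912 67108864 67108864
    (rowFK 0 false false false .pp 2 0 2 (qsf 1073741824 536870912 0 536870912 0) ndF3q2 ndF0q2 pcF0 Cut.none Ext.none)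

def k0_mm_202 : ∃ t, chk3 f_mm_202 t 1 1 1 = true :=
  ⟨(l 3), by decide +kernel⟩

theorem c_mm_202 : CertF 1073741824 536870912 0 536870912 67108864 67108864 false false false .pp 2 0 2
    ndF3q2 ndF0q2 pcF0 Cut.none Ext.none :=
  certFK0 (fam := false) (s1 := false) (s2 := false) (a := 2) (b := 0) (c := 2) (cn := .pp) (n1 := ndF3q2) (n2 := ndF0q2) (pc := pcF0) (cut := Cut.none) (xt := Ext.none) (P1 := 1073741824) (W1 := 536870912) (P2 := 0) (W2 := 536870912) (P3 := 67108864) (W3 := 67108864)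
    rfl rfl rfl k0_mm_202

end Pool.Agent.Strip051.G.I1_16_1_8.Tab.C.FB30

namespace Pool.Agent.Strip051.G.I1_16_1_8.Tab.C.FB31

open Pool.Agent.Strip051.PB Pool.Agent.Strip051.PB.T
open Pool.Agent.Strip051.G.I1_16_1_8.Tab

noncomputable def f_pp_001 : ℕ → ℕ → ℕ → ℕ → Bool := onCell 0 536870912 536870912 536870912 67108864 67108864
    (rowFK 0 false true true .up 0 0 1 (qsf 0 536870912 536870912 536870912 0) ndF3q0 ndF1q1 pcF0 Cut.none Ext.none)

def k0_pp_001 : ∃ t, chk3 f_pp_001 t 1 1 1 = true :=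
  ⟨(l 3), by decide +kernel⟩

theorem c_pp_001 : CertF 0 536870912 536870912 536870912 67108864 67108864 false true true .up 0 0 1
    ndF3q0 ndF1q1 pcF0 Cut.none Ext.none :=
  certFK0 (fam := false) (s1 := true) (s2 := true) (a := 0) (b := 0) (c := 1) (cn := .up) (n1 := ndF3q0) (n2 := ndF1q1) (pc := pcF0) (cut := Cut.none) (xt := Ext.none) (P1 := 0) (W1 := 536870912) (P2 := 536870912) (W2 := 536870912) (P3 := 67108864) (W3 := 67108864)
    rfl rfl rfl k0_pp_001

noncomputable def f_pp_011 : ℕ → ℕ → ℕ → ℕ → Bool := onCell 0 536870912 536870912 536870912 67108864 67108864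
    (rowFK 0 false true true .pnn 0 1 1 (qsf 0 536870912 536870912 536870912 1) ndF3q0 ndF1q1 pcF1 Cut.none Ext.none)

def k0_pp_011 : ∃ t, chk3 f_pp_011 t 1 1 1 = true :=
  ⟨(l 3), by decide +kernel⟩

theorem c_pp_011 : CertF 0 536870912 536870912 536870912 67108864 67108864 false true true .pnn 0 1 1
    ndF3q0 ndF1q1 pcF1 Cut.none Ext.none :=
  certFK0 (fam := false) (s1 := true) (s2 := true) (a := 0) (b := 1) (c := 1) (cn := .pnn) (n1 := ndF3q0) (n2 := ndF1q1) (pc := pcF1) (cut := Cut.none) (xt := Ext.none) (P1 := 0) (W1 := 536870912) (P2 := 536870912) (W2 := 536870912) (P3 := 67108864) (W3 := 67108864)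
    rfl rfl rfl k0_pp_011

noncomputable def f_pp_012_a : ℕ → ℕ → ℕ → ℕ → Bool := onCell 536870912 536870912 0 536870912 67108864 67108864
    (rowFK 2 false true true .pnp 0 1 2 (qsf 0 536870912 0 536870912 1) ndF3q0 ndF1q2a pcF1 Cut.none Ext.none)

def k0_pp_012_a : ∃ t, chk3 f_pp_012_a t 1 1 1 = true :=
  ⟨(a (b (a (l 17940160) (l 17291832)) (a (b (l 17741432) (l 17609056)) (b (l 17077832) (l 17331984)))) (b (a (l 17301432) (a (l 17898144) (a (l 18247416) (l 18490032)))) (a (b (l 17608472) (l 18135168)) (b (l 18435552) (b (l 18692288) (l 18905976)))))), by decide +kernel⟩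

theorem c_pp_012_a : CertF 0 536870912 0 536870912 67108864 67108864 false true true .pnp 0 1 2
    ndF3q0 ndF1q2a pcF1 Cut.none Ext.none :=
  certFK2 (fam := false) (s1 := true) (s2 := true) (a := 0) (b := 1) (c := 2) (cn := .pnp) (n1 := ndF3q0) (n2 := ndF1q2a) (pc := pcF1) (cut := Cut.none) (xt := Ext.none) (P1 := 0) (W1 := 536870912) (P2 := 0) (W2 := 536870912) (P3 := 67108864) (W3 := 67108864)
    rfl rfl rfl (fun _ => rfl) k0_pp_012_a

noncomputable def f_pp_012_b : ℕ → ℕ → ℕ → ℕ → Bool := onCell 536870912 536870912 1239849684 370763052 67108864 67108864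
    (rowFK 2 false true true .pnp 0 1 2 (qsf 0 536870912 1239849684 370763052 1) ndF3q0 ndF1q2b pcF1 Cut.none Ext.none)

def k0_pp_012_b : ∃ t, chk3 f_pp_012_b t 1 1 1 = true :=
  ⟨(a (a (l 2) (l 17505000)) (a (b (b (l 17049008) (l 16979512)) (l 17271488)) (a (b (l 17610152) (l 18028960)) (a (b (l 17946688) (l 18349592)) (b (l 18155336) (l 18550296)))))), by decide +kernel⟩

theorem c_pp_012_b : CertF 0 536870912 1239849684 370763052 67108864 67108864 false true true .pnp 0 1 2
    ndF3q0 ndF1q2b pcF1 Cut.none Ext.none :=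
  certFK2 (fam := false) (s1 := true) (s2 := true) (a := 0) (b := 1) (c := 2) (cn := .pnp) (n1 := ndF3q0) (n2 := ndF1q2b) (pc := pcF1) (cut := Cut.none) (xt := Ext.none) (P1 := 0) (W1 := 536870912) (P2 := 1239849684) (W2 := 370763052) (P3 := 67108864) (W3 := 67108864)
    rfl rfl rfl (fun _ => rfl) k0_pp_012_b

noncomputable def f_pp_022_a : ℕ → ℕ → ℕ → ℕ → Bool := onCell 1073741824 536870912 0 536870912 67108864 67108864
    (rowFK 2 false true true .pp 0 2 2 (qsf 0 536870912 0 536870912 2) ndF3q0 ndF1q2a pcF2 Cut.none Ext.none)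

def k0_pp_022_a : ∃ t, chk3 f_pp_022_a t 1 1 1 = true :=
  ⟨(a (b (a (l 18926688) (a (l 19053048) (l 1))) (a (a (a (b (l 19002320) (l 19320376)) (b (l 19076160) (l 490739251239))) (b (l 19156360) (l 536909739255))) (b (l 1) (l 1)))) (l 1)), by decide +kernel⟩

theorem c_pp_022_a : CertF 0 536870912 0 536870912 67108864 67108864 false true true .pp 0 2 2
    ndF3q0 ndF1q2a pcF2 Cut.none Ext.none :=
  certFK2 (fam := false) (s1 := true) (s2 := true) (a := 0) (b := 2) (c := 2) (cn := .pp) (n1 := ndF3q0) (n2 := ndF1q2a) (pc := pcF2) (cut := Cut.none) (xt := Ext.none) (P1 := 0) (W1 := 536870912) (P2 := 0) (W2 := 536870912) (P3 := 67108864) (W3 := 67108864)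
    rfl rfl rfl (fun _ => rfl) k0_pp_022_a

noncomputable def f_pp_022_b : ℕ → ℕ → ℕ → ℕ → Bool := onCell 0 536870912 1239849684 370763052 67108864 67108864
    (rowFK 0 false true true .pp 0 2 2 (qsf 0 536870912 1239849684 370763052 2) ndF3q0 ndF1q2b pcF2 Cut.none Ext.none)

def k0_pp_022_b : ∃ t, chk3 f_pp_022_b t 1 1 1 = true :=
  ⟨(a (b (a (l 18718576) (l 18654448)) (a (l 18515928) (l 18243848))) (b (a (l 19061088) (l 1)) (a (l 18581792) (l 18986816)))), by decide +kernel⟩

theorem c_pp_022_b : CertF 0 536870912 1239849684 370763052 67108864 67108864 false true true .pp 0 2 2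
    ndF3q0 ndF1q2b pcF2 Cut.none Ext.none :=
  certFK0 (fam := false) (s1 := true) (s2 := true) (a := 0) (b := 2) (c := 2) (cn := .pp) (n1 := ndF3q0) (n2 := ndF1q2b) (pc := pcF2) (cut := Cut.none) (xt := Ext.none) (P1 := 0) (W1 := 536870912) (P2 := 1239849684) (W2 := 370763052) (P3 := 67108864) (W3 := 67108864)
    rfl rfl rfl k0_pp_022_b

noncomputable def f_pp_023 : ℕ → ℕ → ℕ → ℕ → Bool := onCell 1073741824 536870912 1610612736 536870912 67108864 67108864
    (rowFK 2 false true true .up 0 2 3 (qsf 0 536870912 1610612736 536870912 2) ndF3q0 ndF1q3 pcF2 Cut.none Ext.none)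

def k0_pp_023 : ∃ t, chk3 f_pp_023 t 1 1 1 = true :=
  ⟨(a (b (l 37150103959) (l 19247432)) (b (a (l 18225936) (l 17466096)) (a (l 18635952) (l 4)))), by decide +kernel⟩

theorem c_pp_023 : CertF 0 536870912 1610612736 536870912 67108864 67108864 false true true .up 0 2 3
    ndF3q0 ndF1q3 pcF2 Cut.none Ext.none :=
  certFK2 (fam := false) (s1 := true) (s2 := true) (a := 0) (b := 2) (c := 3) (cn := .up) (n1 := ndF3q0) (n2 := ndF1q3) (pc := pcF2) (cut := Cut.none) (xt := Ext.none) (P1 := 0) (W1 := 536870912) (P2 := 1610612736) (W2 := 536870912) (P3 := 67108864) (W3 := 67108864)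
    rfl rfl rfl (fun _ => rfl) k0_pp_023

noncomputable def f_pp_033 : ℕ → ℕ → ℕ → ℕ → Bool := onCell 0 536870912 1610612736 536870912 67108864 67108864
    (rowFK 0 false true true .pnn 0 3 3 (qsf 0 536870912 1610612736 536870912 3) ndF3q0 ndF1q3 pcF3 Cut.none Ext.none)

def k0_pp_033 : ∃ t, chk3 f_pp_033 t 1 1 1 = true :=
  ⟨(a (b (a (b (b (l 17319696) (l 17425320)) (l 4)) (b (b (l 1) (l 17479032)) (b (l 17411024) (l 4)))) (l 4)) (b (a (b (l 1) (b (l 1) (l 18011568))) (l 1)) (b (a (l 4) (b (l 1) (l 4))) (l 4)))), by decide +kernel⟩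

theorem c_pp_033 : CertF 0 536870912 1610612736 536870912 67108864 67108864 false true true .pnn 0 3 3
    ndF3q0 ndF1q3 pcF3 Cut.none Ext.none :=
  certFK0 (fam := false) (s1 := true) (s2 := true) (a := 0) (b := 3) (c := 3) (cn := .pnn) (n1 := ndF3q0) (n2 := ndF1q3) (pc := pcF3) (cut := Cut.none) (xt := Ext.none) (P1 := 0) (W1 := 536870912) (P2 := 1610612736) (W2 := 536870912) (P3 := 67108864) (W3 := 67108864)
    rfl rfl rfl k0_pp_033

noncomputable def f_pp_101 : ℕ → ℕ → ℕ → ℕ → Bool := onCell 536870912 536870912 536870912 536870912 67108864 67108864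
    (rowFK 0 false true true .npn 1 0 1 (qsf 536870912 536870912 536870912 536870912 0) ndF3q1 ndF1q1 pcF0 Cut.none Ext.none)

def k0_pp_101 : ∃ t, chk3 f_pp_101 t 1 1 1 = true :=
  ⟨(l 3), by decide +kernel⟩

theorem c_pp_101 : CertF 536870912 536870912 536870912 536870912 67108864 67108864 false true true .npn 1 0 1
    ndF3q1 ndF1q1 pcF0 Cut.none Ext.none :=
  certFK0 (fam := false) (s1 := true) (s2 := true) (a := 1) (b := 0) (c := 1) (cn := .npn) (n1 := ndF3q1) (n2 := ndF1q1) (pc := pcF0) (cut := Cut.none) (xt := Ext.none) (P1 := 536870912) (W1 := 536870912) (P2 := 536870912) (W2 := 536870912) (P3 := 67108864) (W3 := 67108864)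
    rfl rfl rfl k0_pp_101

noncomputable def cut_pp_102_a : Cut := Cut.of [[⟨0, 1, 0, 67108864⟩, ⟨1, 0, 0, 67108864⟩, ⟨2, 1, 0, 67108864⟩]]

noncomputable def f_pp_102_a : ℕ → ℕ → ℕ → ℕ → Bool := onCell 536870912 536870912 0 536870912 67108864 67108864
    (rowFK 0 false true true .npp 1 0 2 (qsf 536870912 536870912 0 536870912 0) ndF3q1 ndF1q2a pcF0 cut_pp_102_a Ext.none)

def k0_pp_102_a : ∃ t, chk3 f_pp_102_a t 1 1 1 = true :=
  ⟨(a (b (a (l 18455704) (l 18627840)) (b (a (l 18464544) (l 18531216)) (a (b (l 18408032) (l 18311136)) (b (l 18377104) (a (l 18221544) (l 18128496)))))) (a (b (b (l 18822416) (l 18753464)) (b (a (l 18559128) (l 18548496)) (b (a (l 18297336) (l 18166456)) (a (b (l 18078096) (l 17885872)) (b (l 17851920) (a (l 17678552) (l 17251080))))))) (b (a (b (l 18966512) (l 18824984)) (b (a (l 19011336) (l 19001984)) (a (l 18783104) (l 18652208)))) (a (b (b (l 18585400) (l 18287824)) (b (a (l 17938144) (b (l 17793096) (l 17426480))) (a (b (l 17485088)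 (b (l 17206704) (l 17009912))) (b (l 16778320) (b (l 16737696) (b (l 16736472) (l 16736560))))))) (b (a (b (l 18376680) (l 17846912)) (b (a (l 18105232) (l 17793360)) (a (l 17297064) (l 16789856)))) (b (a (b (l 17209488) (l 16749904)) (a (l 16772160) (b (l 16752120) (l 16745808)))) (b (a (a (l 16741680) (l 16742152)) (a (b (l 16743608) (l 6)) (l 6))) (a (b (a (l 16739960) (l 16743736)) (a (b (l 16741344) (l 16743200)) (l 6))) (l 6))))))))), by decide +kernel⟩

theorem c_pp_102_a : CertF 536870912 536870912 0 536870912 67108864 67108864 false true true .npp 1 0 2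
    ndF3q1 ndF1q2a pcF0 cut_pp_102_a Ext.none :=
  certFK0 (fam := false) (s1 := true) (s2 := true) (a := 1) (b := 0) (c := 2) (cn := .npp) (n1 := ndF3q1) (n2 := ndF1q2a) (pc := pcF0) (cut := cut_pp_102_a) (xt := Ext.none) (P1 := 536870912) (W1 := 536870912) (P2 := 0) (W2 := 536870912) (P3 := 67108864) (W3 := 67108864)
    rfl rfl rfl k0_pp_102_a

noncomputable def cut_pp_102_b : Cut := Cut.of [[⟨0, 1, 0, 67108864⟩, ⟨1, 0, 0, 67108864⟩, ⟨2, 1, 0, 67108864⟩]]

noncomputable def f_pp_102_b : ℕ → ℕ → ℕ → ℕ → Bool := onCell 536870912 536870912 1239849684 370763052 67108864 67108864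
    (rowFK 0 false true true .npp 1 0 2 (qsf 536870912 536870912 1239849684 370763052 0) ndF3q1 ndF1q2b pcF0 cut_pp_102_b Ext.none)

def k0_pp_102_b : ∃ t, chk3 f_pp_102_b t 1 1 1 = true :=
  ⟨(a (b (a (l 2) (l 18735144)) (l 2)) (b (a (b (l 18959248) (l 19021840)) (b (a (l 19162512) (b (l 19208128) (l 19390608))) (l 19572536))) (a (l 18925720) (l 19335960)))), by decide +kernel⟩

theorem c_pp_102_b : CertF 536870912 536870912 1239849684 370763052 67108864 67108864 false true true .npp 1 0 2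
    ndF3q1 ndF1q2b pcF0 cut_pp_102_b Ext.none :=
  certFK0 (fam := false) (s1 := true) (s2 := true) (a := 1) (b := 0) (c := 2) (cn := .npp) (n1 := ndF3q1) (n2 := ndF1q2b) (pc := pcF0) (cut := cut_pp_102_b) (xt := Ext.none) (P1 := 536870912) (W1 := 536870912) (P2 := 1239849684) (W2 := 370763052) (P3 := 67108864) (W3 := 67108864)
    rfl rfl rfl k0_pp_102_b

noncomputable def f_pp_112_a : ℕ → ℕ → ℕ → ℕ → Bool := onCell 536870912 536870912 0 536870912 67108864 67108864
    (rowFK 2 false true true .dn 1 1 2 (qsf 536870912 536870912 0 536870912 1) ndF3q1 ndF1q2a pcF1 Cut.none Ext.none)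

def k0_pp_112_a : ∃ t, chk3 f_pp_112_a t 1 1 1 = true :=
  ⟨(a (b (a (l 18202064) (l 18096296)) (a (l 18186664) (l 18186944))) (l 1)), by decide +kernel⟩

theorem c_pp_112_a : CertF 536870912 536870912 0 536870912 67108864 67108864 false true true .dn 1 1 2
    ndF3q1 ndF1q2a pcF1 Cut.none Ext.none :=
  certFK2 (fam := false) (s1 := true) (s2 := true) (a := 1) (b := 1) (c := 2) (cn := .dn) (n1 := ndF3q1) (n2 := ndF1q2a) (pc := pcF1) (cut := Cut.none) (xt := Ext.none) (P1 := 536870912) (W1 := 536870912) (P2 := 0) (W2 := 536870912) (P3 := 67108864) (W3 := 67108864)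
    rfl rfl rfl (fun _ => rfl) k0_pp_112_a

noncomputable def f_pp_112_b : ℕ → ℕ → ℕ → ℕ → Bool := onCell 536870912 536870912 1239849684 370763052 67108864 67108864
    (rowFK 2 false true true .dn 1 1 2 (qsf 536870912 536870912 1239849684 370763052 1) ndF3q1 ndF1q2b pcF1 Cut.none Ext.none)

def k0_pp_112_b : ∃ t, chk3 f_pp_112_b t 1 1 1 = true :=
  ⟨(a (a (b (l 18539096) (l 19368768)) (l 18687352)) (a (l 441881946663) (a (l 18363592) (a (l 18409624) (l 18450920))))), by decide +kernel⟩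

theorem c_pp_112_b : CertF 536870912 536870912 1239849684 370763052 67108864 67108864 false true true .dn 1 1 2
    ndF3q1 ndF1q2b pcF1 Cut.none Ext.none :=
  certFK2 (fam := false) (s1 := true) (s2 := true) (a := 1) (b := 1) (c := 2) (cn := .dn) (n1 := ndF3q1) (n2 := ndF1q2b) (pc := pcF1) (cut := Cut.none) (xt := Ext.none) (P1 := 536870912) (W1 := 536870912) (P2 := 1239849684) (W2 := 370763052) (P3 := 67108864) (W3 := 67108864)
    rfl rfl rfl (fun _ => rfl) k0_pp_112_b

noncomputable def f_pp_113 : ℕ → ℕ → ℕ → ℕ → Bool := onCell 536870912 536870912 536870912 536870912 67108864 67108864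
    (rowFK 1 false true true .nn 1 1 3 (qsf 536870912 536870912 1610612736 536870912 1) ndF3q1 ndF1q3 pcF1 Cut.none Ext.none)

def k0_pp_113 : ∃ t, chk3 f_pp_113 t 1 1 1 = true :=
  ⟨(a (b (b (l 1) (l 17705544)) (b (l 424164155687) (b (l 17795984) (b (l 17764984) (l 17757480))))) (b (a (l 18503344) (l 357058181815)) (b (l 18346288) (b (l 17832168) (b (l 17622176) (l 17471896)))))), by decide +kernel⟩

theorem c_pp_113 : CertF 536870912 536870912 1610612736 536870912 67108864 67108864 false true true .nn 1 1 3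
    ndF3q1 ndF1q3 pcF1 Cut.none Ext.none :=
  certFK1 (fam := false) (s1 := true) (s2 := true) (a := 1) (b := 1) (c := 3) (cn := .nn) (n1 := ndF3q1) (n2 := ndF1q3) (pc := pcF1) (cut := Cut.none) (xt := Ext.none) (P1 := 536870912) (W1 := 536870912) (P2 := 1610612736) (W2 := 536870912) (P3 := 67108864) (W3 := 67108864)
    rfl rfl rfl (fun _ => rfl) k0_pp_113

noncomputable def f_pp_123 : ℕ → ℕ → ℕ → ℕ → Bool := onCell 1073741824 536870912 1610612736 536870912 67108864 67108864
    (rowFK 2 false true true .npn 1 2 3 (qsf 536870912 536870912 1610612736 536870912 2) ndF3q1 ndF1q3 pcF2 Cut.none Ext.none)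

def k0_pp_123 : ∃ t, chk3 f_pp_123 t 1 1 1 = true :=
  ⟨(a (b (a (l 17842800) (l 17745688)) (a (l 17346128) (l 17333872))) (b (a (l 17574040) (l 1)) (a (l 17347312) (l 4)))), by decide +kernel⟩

theorem c_pp_123 : CertF 536870912 536870912 1610612736 536870912 67108864 67108864 false true true .npn 1 2 3
    ndF3q1 ndF1q3 pcF2 Cut.none Ext.none :=
  certFK2 (fam := false) (s1 := true) (s2 := true) (a := 1) (b := 2) (c := 3) (cn := .npn) (n1 := ndF3q1) (n2 := ndF1q3) (pc := pcF2) (cut := Cut.none) (xt := Ext.none) (P1 := 536870912) (W1 := 536870912) (P2 := 1610612736) (W2 := 536870912) (P3 := 67108864) (W3 := 67108864)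
    rfl rfl rfl (fun _ => rfl) k0_pp_123

noncomputable def f_pp_133 : ℕ → ℕ → ℕ → ℕ → Bool := onCell 1610612736 536870912 1610612736 536870912 67108864 67108864
    (rowFK 2 false true true .dn 1 3 3 (qsf 536870912 536870912 1610612736 536870912 3) ndF3q1 ndF1q3 pcF3 Cut.none Ext.none)

def k0_pp_133 : ∃ t, chk3 f_pp_133 t 1 1 1 = true :=
  ⟨(a (b (l 1) (l 4)) (l 1)), by decide +kernel⟩

theorem c_pp_133 : CertF 536870912 536870912 1610612736 536870912 67108864 67108864 false true true .dn 1 3 3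
    ndF3q1 ndF1q3 pcF3 Cut.none Ext.none :=
  certFK2 (fam := false) (s1 := true) (s2 := true) (a := 1) (b := 3) (c := 3) (cn := .dn) (n1 := ndF3q1) (n2 := ndF1q3) (pc := pcF3) (cut := Cut.none) (xt := Ext.none) (P1 := 536870912) (W1 := 536870912) (P2 := 1610612736) (W2 := 536870912) (P3 := 67108864) (W3 := 67108864)
    rfl rfl rfl (fun _ => rfl) k0_pp_133

noncomputable def f_pp_202_a : ℕ → ℕ → ℕ → ℕ → Bool := onCell 1073741824 536870912 0 536870912 67108864 67108864
    (rowFK 0 false true true .pp 2 0 2 (qsf 1073741824 536870912 0 536870912 0) ndF3q2 ndF1q2a pcF0 Cut.none Ext.none)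

def k0_pp_202_a : ∃ t, chk3 f_pp_202_a t 1 1 1 = true :=
  ⟨(l 3), by decide +kernel⟩

theorem c_pp_202_a : CertF 1073741824 536870912 0 536870912 67108864 67108864 false true true .pp 2 0 2
    ndF3q2 ndF1q2a pcF0 Cut.none Ext.none :=
  certFK0 (fam := false) (s1 := true) (s2 := true) (a := 2) (b := 0) (c := 2) (cn := .pp) (n1 := ndF3q2) (n2 := ndF1q2a) (pc := pcF0) (cut := Cut.none) (xt := Ext.none) (P1 := 1073741824) (W1 := 536870912) (P2 := 0) (W2 := 536870912) (P3 := 67108864) (W3 := 67108864)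
    rfl rfl rfl k0_pp_202_a

noncomputable def f_pp_202_b : ℕ → ℕ → ℕ → ℕ → Bool := onCell 1073741824 536870912 1239849684 370763052 67108864 67108864
    (rowFK 0 false true true .pp 2 0 2 (qsf 1073741824 536870912 1239849684 370763052 0) ndF3q2 ndF1q2b pcF0 Cut.none Ext.none)

def k0_pp_202_b : ∃ t, chk3 f_pp_202_b t 1 1 1 = true :=
  ⟨(l 3), by decide +kernel⟩

theorem c_pp_202_b : CertF 1073741824 536870912 1239849684 370763052 67108864 67108864 false true true .pp 2 0 2
    ndF3q2 ndF1q2b pcF0 Cut.none Ext.none :=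
  certFK0 (fam := false) (s1 := true) (s2 := true) (a := 2) (b := 0) (c := 2) (cn := .pp) (n1 := ndF3q2) (n2 := ndF1q2b) (pc := pcF0) (cut := Cut.none) (xt := Ext.none) (P1 := 1073741824) (W1 := 536870912) (P2 := 1239849684) (W2 := 370763052) (P3 := 67108864) (W3 := 67108864)
    rfl rfl rfl k0_pp_202_b

noncomputable def f_pp_203 : ℕ → ℕ → ℕ → ℕ → Bool := onCell 1073741824 536870912 0 536870912 67108864 67108864
    (rowFK 1 false true true .up 2 0 3 (qsf 1073741824 536870912 1610612736 536870912 0) ndF3q2 ndF1q3 pcF0 Cut.none Ext.none)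

def k0_pp_203 : ∃ t, chk3 f_pp_203 t 1 1 1 = true :=
  ⟨(l 3), by decide +kernel⟩

theorem c_pp_203 : CertF 1073741824 536870912 1610612736 536870912 67108864 67108864 false true true .up 2 0 3
    ndF3q2 ndF1q3 pcF0 Cut.none Ext.none :=
  certFK1 (fam := false) (s1 := true) (s2 := true) (a := 2) (b := 0) (c := 3) (cn := .up) (n1 := ndF3q2) (n2 := ndF1q3) (pc := pcF0) (cut := Cut.none) (xt := Ext.none) (P1 := 1073741824) (W1 := 536870912) (P2 := 1610612736) (W2 := 536870912) (P3 := 67108864) (W3 := 67108864)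
    rfl rfl rfl (fun _ => rfl) k0_pp_203

noncomputable def f_pp_213 : ℕ → ℕ → ℕ → ℕ → Bool := onCell 536870912 536870912 1610612736 536870912 67108864 67108864
    (rowFK 2 false true true .pnn 2 1 3 (qsf 1073741824 536870912 1610612736 536870912 1) ndF3q2 ndF1q3 pcF1 Cut.none Ext.none)

def k0_pp_213 : ∃ t, chk3 f_pp_213 t 1 1 1 = true :=
  ⟨(a (a (l 3) (b (l 3) (b (l 17551704) (l 17288256)))) (b (a (b (l 1) (l 17740864)) (l 1)) (a (b (l 17634824) (l 17324480)) (b (l 17668664) (l 17269648))))), by decide +kernel⟩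

theorem c_pp_213 : CertF 1073741824 536870912 1610612736 536870912 67108864 67108864 false true true .pnn 2 1 3
    ndF3q2 ndF1q3 pcF1 Cut.none Ext.none :=
  certFK2 (fam := false) (s1 := true) (s2 := true) (a := 2) (b := 1) (c := 3) (cn := .pnn) (n1 := ndF3q2) (n2 := ndF1q3) (pc := pcF1) (cut := Cut.none) (xt := Ext.none) (P1 := 1073741824) (W1 := 536870912) (P2 := 1610612736) (W2 := 536870912) (P3 := 67108864) (W3 := 67108864)
    rfl rfl rfl (fun _ => rfl) k0_pp_213

noncomputable def f_pp_303 : ℕ → ℕ → ℕ → ℕ → Bool := onCell 0 1230186008 1610612736 536870912 67108864 67108864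
    (rowFK 0 false true true .npn 3 0 3 (qsf 0 1230186008 1610612736 536870912 0) ndF3q3 ndF1q3 pcF0 Cut.none Ext.none)

def k0_pp_303 : ∃ t, chk3 f_pp_303 t 1 1 1 = true :=
  ⟨(a (l 3) (l 3)), by decide +kernel⟩

theorem c_pp_303 : CertF 0 1230186008 1610612736 536870912 67108864 67108864 false true true .npn 3 0 3
    ndF3q3 ndF1q3 pcF0 Cut.none Ext.none :=
  certFK0 (fam := false) (s1 := true) (s2 := true) (a := 3) (b := 0) (c := 3) (cn := .npn) (n1 := ndF3q3) (n2 := ndF1q3) (pc := pcF0) (cut := Cut.none) (xt := Ext.none) (P1 := 0) (W1 := 1230186008) (P2 := 1610612736) (W2 := 536870912) (P3 := 67108864) (W3 := 67108864)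
    rfl rfl rfl k0_pp_303

noncomputable def f_pp_313 : ℕ → ℕ → ℕ → ℕ → Bool := onCell 0 1230186008 1610612736 536870912 67108864 67108864
    (rowFK 0 false true true .dn 3 1 3 (qsf 0 1230186008 1610612736 536870912 1) ndF3q3 ndF1q3 pcF1 Cut.none Ext.none)

def k0_pp_313 : ∃ t, chk3 f_pp_313 t 1 1 1 = true :=
  ⟨(a (l 1) (l 3)), by decide +kernel⟩

theorem c_pp_313 : CertF 0 1230186008 1610612736 536870912 67108864 67108864 false true true .dn 3 1 3
    ndF3q3 ndF1q3 pcF1 Cut.none Ext.none :=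
  certFK0 (fam := false) (s1 := true) (s2 := true) (a := 3) (b := 1) (c := 3) (cn := .dn) (n1 := ndF3q3) (n2 := ndF1q3) (pc := pcF1) (cut := Cut.none) (xt := Ext.none) (P1 := 0) (W1 := 1230186008) (P2 := 1610612736) (W2 := 536870912) (P3 := 67108864) (W3 := 67108864)
    rfl rfl rfl k0_pp_313

noncomputable def f_pm_001 : ℕ → ℕ → ℕ → ℕ → Bool := onCell 0 536870912 536870912 536870912 67108864 67108864
    (rowFK 0 false true false .up 0 0 1 (qsf 0 536870912 536870912 536870912 0) ndF3q0 ndF1q1 pcF0 Cut.none Ext.none)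

def k0_pm_001 : ∃ t, chk3 f_pm_001 t 1 1 1 = true :=
  ⟨(l 4), by decide +kernel⟩

theorem c_pm_001 : CertF 0 536870912 536870912 536870912 67108864 67108864 false true false .up 0 0 1
    ndF3q0 ndF1q1 pcF0 Cut.none Ext.none :=
  certFK0 (fam := false) (s1 := true) (s2 := false) (a := 0) (b := 0) (c := 1) (cn := .up) (n1 := ndF3q0) (n2 := ndF1q1) (pc := pcF0) (cut := Cut.none) (xt := Ext.none) (P1 := 0) (W1 := 536870912) (P2 := 536870912) (W2 := 536870912) (P3 := 67108864) (W3 := 67108864)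
    rfl rfl rfl k0_pm_001

noncomputable def f_pm_011 : ℕ → ℕ → ℕ → ℕ → Bool := onCell 0 536870912 536870912 536870912 67108864 67108864
    (rowFK 0 false true false .pnn 0 1 1 (qsf 0 536870912 536870912 536870912 1) ndF3q0 ndF1q1 pcF1 Cut.none Ext.none)

def k0_pm_011 : ∃ t, chk3 f_pm_011 t 1 1 1 = true :=
  ⟨(l 4), by decide +kernel⟩

theorem c_pm_011 : CertF 0 536870912 536870912 536870912 67108864 67108864 false true false .pnn 0 1 1
    ndF3q0 ndF1q1 pcF1 Cut.none Ext.none :=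
  certFK0 (fam := false) (s1 := true) (s2 := false) (a := 0) (b := 1) (c := 1) (cn := .pnn) (n1 := ndF3q0) (n2 := ndF1q1) (pc := pcF1) (cut := Cut.none) (xt := Ext.none) (P1 := 0) (W1 := 536870912) (P2 := 536870912) (W2 := 536870912) (P3 := 67108864) (W3 := 67108864)
    rfl rfl rfl k0_pm_011

noncomputable def f_pm_012_a : ℕ → ℕ → ℕ → ℕ → Bool := onCell 0 536870912 0 536870912 67108864 67108864
    (rowFK 0 false true false .pnp 0 1 2 (qsf 0 536870912 0 536870912 1) ndF3q0 ndF1q2a pcF1 Cut.none Ext.none)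

def k0_pm_012_a : ∃ t, chk3 f_pm_012_a t 1 1 1 = true :=
  ⟨(l 4), by decide +kernel⟩

theorem c_pm_012_a : CertF 0 536870912 0 536870912 67108864 67108864 false true false .pnp 0 1 2
    ndF3q0 ndF1q2a pcF1 Cut.none Ext.none :=
  certFK0 (fam := false) (s1 := true) (s2 := false) (a := 0) (b := 1) (c := 2) (cn := .pnp) (n1 := ndF3q0) (n2 := ndF1q2a) (pc := pcF1) (cut := Cut.none) (xt := Ext.none) (P1 := 0) (W1 := 536870912) (P2 := 0) (W2 := 536870912) (P3 := 67108864) (W3 := 67108864)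
    rfl rfl rfl k0_pm_012_a

noncomputable def f_pm_012_b : ℕ → ℕ → ℕ → ℕ → Bool := onCell 0 536870912 1239849684 370763052 67108864 67108864
    (rowFK 0 false true false .pnp 0 1 2 (qsf 0 536870912 1239849684 370763052 1) ndF3q0 ndF1q2b pcF1 Cut.none Ext.none)

def k0_pm_012_b : ∃ t, chk3 f_pm_012_b t 1 1 1 = true :=
  ⟨(l 4), by decide +kernel⟩

theorem c_pm_012_b : CertF 0 536870912 1239849684 370763052 67108864 67108864 false true false .pnp 0 1 2
    ndF3q0 ndF1q2b pcF1 Cut.none Ext.none :=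
  certFK0 (fam := false) (s1 := true) (s2 := false) (a := 0) (b := 1) (c := 2) (cn := .pnp) (n1 := ndF3q0) (n2 := ndF1q2b) (pc := pcF1) (cut := Cut.none) (xt := Ext.none) (P1 := 0) (W1 := 536870912) (P2 := 1239849684) (W2 := 370763052) (P3 := 67108864) (W3 := 67108864)
    rfl rfl rfl k0_pm_012_b

noncomputable def f_pm_022_a : ℕ → ℕ → ℕ → ℕ → Bool := onCell 0 536870912 0 536870912 67108864 67108864
    (rowFK 0 false true false .pp 0 2 2 (qsf 0 536870912 0 536870912 2) ndF3q0 ndF1q2a pcF2 Cut.none Ext.none)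

def k0_pm_022_a : ∃ t, chk3 f_pm_022_a t 1 1 1 = true :=
  ⟨(l 4), by decide +kernel⟩

theorem c_pm_022_a : CertF 0 536870912 0 536870912 67108864 67108864 false true false .pp 0 2 2
    ndF3q0 ndF1q2a pcF2 Cut.none Ext.none :=
  certFK0 (fam := false) (s1 := true) (s2 := false) (a := 0) (b := 2) (c := 2) (cn := .pp) (n1 := ndF3q0) (n2 := ndF1q2a) (pc := pcF2) (cut := Cut.none) (xt := Ext.none) (P1 := 0) (W1 := 536870912) (P2 := 0) (W2 := 536870912) (P3 := 67108864) (W3 := 67108864)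
    rfl rfl rfl k0_pm_022_a

noncomputable def f_pm_022_b : ℕ → ℕ → ℕ → ℕ → Bool := onCell 0 536870912 1239849684 370763052 67108864 67108864
    (rowFK 0 false true false .pp 0 2 2 (qsf 0 536870912 1239849684 370763052 2) ndF3q0 ndF1q2b pcF2 Cut.none Ext.none)

def k0_pm_022_b : ∃ t, chk3 f_pm_022_b t 1 1 1 = true :=
  ⟨(l 4), by decide +kernel⟩

theorem c_pm_022_b : CertF 0 536870912 1239849684 370763052 67108864 67108864 false true false .pp 0 2 2
    ndF3q0 ndF1q2b pcF2 Cut.none Ext.none :=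
  certFK0 (fam := false) (s1 := true) (s2 := false) (a := 0) (b := 2) (c := 2) (cn := .pp) (n1 := ndF3q0) (n2 := ndF1q2b) (pc := pcF2) (cut := Cut.none) (xt := Ext.none) (P1 := 0) (W1 := 536870912) (P2 := 1239849684) (W2 := 370763052) (P3 := 67108864) (W3 := 67108864)
    rfl rfl rfl k0_pm_022_b

noncomputable def f_pm_023 : ℕ → ℕ → ℕ → ℕ → Bool := onCell 0 536870912 1610612736 536870912 67108864 67108864
    (rowFK 0 false true false .up 0 2 3 (qsf 0 536870912 1610612736 536870912 2) ndF3q0 ndF1q3 pcF2 Cut.none Ext.none)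

def k0_pm_023 : ∃ t, chk3 f_pm_023 t 1 1 1 = true :=
  ⟨(l 4), by decide +kernel⟩

theorem c_pm_023 : CertF 0 536870912 1610612736 536870912 67108864 67108864 false true false .up 0 2 3
    ndF3q0 ndF1q3 pcF2 Cut.none Ext.none :=
  certFK0 (fam := false) (s1 := true) (s2 := false) (a := 0) (b := 2) (c := 3) (cn := .up) (n1 := ndF3q0) (n2 := ndF1q3) (pc := pcF2) (cut := Cut.none) (xt := Ext.none) (P1 := 0) (W1 := 536870912) (P2 := 1610612736) (W2 := 536870912) (P3 := 67108864) (W3 := 67108864)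
    rfl rfl rfl k0_pm_023

noncomputable def f_pm_033 : ℕ → ℕ → ℕ → ℕ → Bool := onCell 0 536870912 1610612736 536870912 67108864 67108864
    (rowFK 0 false true false .pnn 0 3 3 (qsf 0 536870912 1610612736 536870912 3) ndF3q0 ndF1q3 pcF3 Cut.none Ext.none)

def k0_pm_033 : ∃ t, chk3 f_pm_033 t 1 1 1 = true :=
  ⟨(l 4), by decide +kernel⟩

theorem c_pm_033 : CertF 0 536870912 1610612736 536870912 67108864 67108864 false true false .pnn 0 3 3
    ndF3q0 ndF1q3 pcF3 Cut.none Ext.none :=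
  certFK0 (fam := false) (s1 := true) (s2 := false) (a := 0) (b := 3) (c := 3) (cn := .pnn) (n1 := ndF3q0) (n2 := ndF1q3) (pc := pcF3) (cut := Cut.none) (xt := Ext.none) (P1 := 0) (W1 := 536870912) (P2 := 1610612736) (W2 := 536870912) (P3 := 67108864) (W3 := 67108864)
    rfl rfl rfl k0_pm_033

noncomputable def f_pm_101 : ℕ → ℕ → ℕ → ℕ → Bool := onCell 536870912 536870912 536870912 536870912 67108864 67108864
    (rowFK 0 false true false .npn 1 0 1 (qsf 536870912 536870912 536870912 536870912 0) ndF3q1 ndF1q1 pcF0 Cut.none Ext.none)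

def k0_pm_101 : ∃ t, chk3 f_pm_101 t 1 1 1 = true :=
  ⟨(l 4), by decide +kernel⟩

theorem c_pm_101 : CertF 536870912 536870912 536870912 536870912 67108864 67108864 false true false .npn 1 0 1
    ndF3q1 ndF1q1 pcF0 Cut.none Ext.none :=
  certFK0 (fam := false) (s1 := true) (s2 := false) (a := 1) (b := 0) (c := 1) (cn := .npn) (n1 := ndF3q1) (n2 := ndF1q1) (pc := pcF0) (cut := Cut.none) (xt := Ext.none) (P1 := 536870912) (W1 := 536870912) (P2 := 536870912) (W2 := 536870912) (P3 := 67108864) (W3 := 67108864)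
    rfl rfl rfl k0_pm_101

noncomputable def f_pm_102_a : ℕ → ℕ → ℕ → ℕ → Bool := onCell 536870912 536870912 0 536870912 67108864 67108864
    (rowFK 0 false true false .npp 1 0 2 (qsf 536870912 536870912 0 536870912 0) ndF3q1 ndF1q2a pcF0 Cut.none Ext.none)

def k0_pm_102_a : ∃ t, chk3 f_pm_102_a t 1 1 1 = true :=
  ⟨(l 4), by decide +kernel⟩

theorem c_pm_102_a : CertF 536870912 536870912 0 536870912 67108864 67108864 false true false .npp 1 0 2
    ndF3q1 ndF1q2a pcF0 Cut.none Ext.none :=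
  certFK0 (fam := false) (s1 := true) (s2 := false) (a := 1) (b := 0) (c := 2) (cn := .npp) (n1 := ndF3q1) (n2 := ndF1q2a) (pc := pcF0) (cut := Cut.none) (xt := Ext.none) (P1 := 536870912) (W1 := 536870912) (P2 := 0) (W2 := 536870912) (P3 := 67108864) (W3 := 67108864)
    rfl rfl rfl k0_pm_102_a

noncomputable def f_pm_102_b : ℕ → ℕ → ℕ → ℕ → Bool := onCell 536870912 536870912 1239849684 370763052 67108864 67108864
    (rowFK 0 false true false .npp 1 0 2 (qsf 536870912 536870912 1239849684 370763052 0) ndF3q1 ndF1q2b pcF0 Cut.none Ext.none)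

def k0_pm_102_b : ∃ t, chk3 f_pm_102_b t 1 1 1 = true :=
  ⟨(l 4), by decide +kernel⟩

theorem c_pm_102_b : CertF 536870912 536870912 1239849684 370763052 67108864 67108864 false true false .npp 1 0 2
    ndF3q1 ndF1q2b pcF0 Cut.none Ext.none :=
  certFK0 (fam := false) (s1 := true) (s2 := false) (a := 1) (b := 0) (c := 2) (cn := .npp) (n1 := ndF3q1) (n2 := ndF1q2b) (pc := pcF0) (cut := Cut.none) (xt := Ext.none) (P1 := 536870912) (W1 := 536870912) (P2 := 1239849684) (W2 := 370763052) (P3 := 67108864) (W3 := 67108864)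
    rfl rfl rfl k0_pm_102_b

noncomputable def f_pm_112_a : ℕ → ℕ → ℕ → ℕ → Bool := onCell 536870912 536870912 0 536870912 67108864 67108864
    (rowFK 0 false true false .dn 1 1 2 (qsf 536870912 536870912 0 536870912 1) ndF3q1 ndF1q2a pcF1 Cut.none Ext.none)

def k0_pm_112_a : ∃ t, chk3 f_pm_112_a t 1 1 1 = true :=
  ⟨(l 4), by decide +kernel⟩

theorem c_pm_112_a : CertF 536870912 536870912 0 536870912 67108864 67108864 false true false .dn 1 1 2
    ndF3q1 ndF1q2a pcF1 Cut.none Ext.none :=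
  certFK0 (fam := false) (s1 := true) (s2 := false) (a := 1) (b := 1) (c := 2) (cn := .dn) (n1 := ndF3q1) (n2 := ndF1q2a) (pc := pcF1) (cut := Cut.none) (xt := Ext.none) (P1 := 536870912) (W1 := 536870912) (P2 := 0) (W2 := 536870912) (P3 := 67108864) (W3 := 67108864)
    rfl rfl rfl k0_pm_112_a

noncomputable def f_pm_112_b : ℕ → ℕ → ℕ → ℕ → Bool := onCell 536870912 536870912 1239849684 370763052 67108864 67108864
    (rowFK 0 false true false .dn 1 1 2 (qsf 536870912 536870912 1239849684 370763052 1) ndF3q1 ndF1q2b pcF1 Cut.none Ext.none)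

def k0_pm_112_b : ∃ t, chk3 f_pm_112_b t 1 1 1 = true :=
  ⟨(l 4), by decide +kernel⟩

theorem c_pm_112_b : CertF 536870912 536870912 1239849684 370763052 67108864 67108864 false true false .dn 1 1 2
    ndF3q1 ndF1q2b pcF1 Cut.none Ext.none :=
  certFK0 (fam := false) (s1 := true) (s2 := false) (a := 1) (b := 1) (c := 2) (cn := .dn) (n1 := ndF3q1) (n2 := ndF1q2b) (pc := pcF1) (cut := Cut.none) (xt := Ext.none) (P1 := 536870912) (W1 := 536870912) (P2 := 1239849684) (W2 := 370763052) (P3 := 67108864) (W3 := 67108864)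
    rfl rfl rfl k0_pm_112_b

noncomputable def f_pm_113 : ℕ → ℕ → ℕ → ℕ → Bool := onCell 536870912 536870912 536870912 536870912 67108864 67108864
    (rowFK 1 false true false .nn 1 1 3 (qsf 536870912 536870912 1610612736 536870912 1) ndF3q1 ndF1q3 pcF1 Cut.none Ext.none)

def k0_pm_113 : ∃ t, chk3 f_pm_113 t 1 1 1 = true :=
  ⟨(b (l 4) (b (l 4) (b (l 4) (b (l 315917482791) (l 292295084903))))), by decide +kernel⟩

theorem c_pm_113 : CertF 536870912 536870912 1610612736 536870912 67108864 67108864 false true false .nn 1 1 3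
    ndF3q1 ndF1q3 pcF1 Cut.none Ext.none :=
  certFK1 (fam := false) (s1 := true) (s2 := false) (a := 1) (b := 1) (c := 3) (cn := .nn) (n1 := ndF3q1) (n2 := ndF1q3) (pc := pcF1) (cut := Cut.none) (xt := Ext.none) (P1 := 536870912) (W1 := 536870912) (P2 := 1610612736) (W2 := 536870912) (P3 := 67108864) (W3 := 67108864)
    rfl rfl rfl (fun _ => rfl) k0_pm_113

noncomputable def f_pm_123 : ℕ → ℕ → ℕ → ℕ → Bool := onCell 536870912 536870912 1610612736 536870912 67108864 67108864
    (rowFK 0 false true false .npn 1 2 3 (qsf 536870912 536870912 1610612736 536870912 2) ndF3q1 ndF1q3 pcF2 Cut.none Ext.none)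

def k0_pm_123 : ∃ t, chk3 f_pm_123 t 1 1 1 = true :=
  ⟨(b (l 4) (a (l 4) (a (l 4) (l 883926322551)))), by decide +kernel⟩

theorem c_pm_123 : CertF 536870912 536870912 1610612736 536870912 67108864 67108864 false true false .npn 1 2 3
    ndF3q1 ndF1q3 pcF2 Cut.none Ext.none :=
  certFK0 (fam := false) (s1 := true) (s2 := false) (a := 1) (b := 2) (c := 3) (cn := .npn) (n1 := ndF3q1) (n2 := ndF1q3) (pc := pcF2) (cut := Cut.none) (xt := Ext.none) (P1 := 536870912) (W1 := 536870912) (P2 := 1610612736) (W2 := 536870912) (P3 := 67108864) (W3 := 67108864)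
    rfl rfl rfl k0_pm_123

noncomputable def f_pm_133 : ℕ → ℕ → ℕ → ℕ → Bool := onCell 536870912 536870912 1610612736 536870912 67108864 67108864
    (rowFK 0 false true false .dn 1 3 3 (qsf 536870912 536870912 1610612736 536870912 3) ndF3q1 ndF1q3 pcF3 Cut.none Ext.none)

def k0_pm_133 : ∃ t, chk3 f_pm_133 t 1 1 1 = true :=
  ⟨(a (l 4) (l 1)), by decide +kernel⟩

theorem c_pm_133 : CertF 536870912 536870912 1610612736 536870912 67108864 67108864 false true false .dn 1 3 3
    ndF3q1 ndF1q3 pcF3 Cut.none Ext.none :=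
  certFK0 (fam := false) (s1 := true) (s2 := false) (a := 1) (b := 3) (c := 3) (cn := .dn) (n1 := ndF3q1) (n2 := ndF1q3) (pc := pcF3) (cut := Cut.none) (xt := Ext.none) (P1 := 536870912) (W1 := 536870912) (P2 := 1610612736) (W2 := 536870912) (P3 := 67108864) (W3 := 67108864)
    rfl rfl rfl k0_pm_133

noncomputable def f_pm_202_a : ℕ → ℕ → ℕ → ℕ → Bool := onCell 0 536870912 0 536870912 67108864 67108864
    (rowFK 2 false true false .pp 2 0 2 (qsf 1073741824 536870912 0 536870912 0) ndF3q2 ndF1q2a pcF0 Cut.none Ext.none)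

def k0_pm_202_a : ∃ t, chk3 f_pm_202_a t 1 1 1 = true :=
  ⟨(a (a (b (a (b (l 17928496) (l 18409816)) (l 18088264)) (a (b (l 18929344) (l 19277816)) (b (l 18717032) (l 19153464)))) (b (a (b (l 18018792) (l 18173672)) (l 1)) (b (l 1) (l 1)))) (l 1)), by decide +kernel⟩

theorem c_pm_202_a : CertF 1073741824 536870912 0 536870912 67108864 67108864 false true false .pp 2 0 2
    ndF3q2 ndF1q2a pcF0 Cut.none Ext.none :=
  certFK2 (fam := false) (s1 := true) (s2 := false) (a := 2) (b := 0) (c := 2) (cn := .pp) (n1 := ndF3q2) (n2 := ndF1q2a) (pc := pcF0) (cut := Cut.none) (xt := Ext.none) (P1 := 1073741824) (W1 := 536870912) (P2 := 0) (W2 := 536870912) (P3 := 67108864) (W3 := 67108864)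
    rfl rfl rfl (fun _ => rfl) k0_pm_202_a

noncomputable def f_pm_202_b : ℕ → ℕ → ℕ → ℕ → Bool := onCell 0 536870912 1239849684 370763052 67108864 67108864
    (rowFK 2 false true false .pp 2 0 2 (qsf 1073741824 536870912 1239849684 370763052 0) ndF3q2 ndF1q2b pcF0 Cut.none Ext.none)

def k0_pm_202_b : ∃ t, chk3 f_pm_202_b t 1 1 1 = true :=
  ⟨(a (a (b (a (l 18016856) (b (l 17965568) (l 18347904))) (a (b (l 18758040) (l 18768616)) (b (l 18714872) (l 18703928)))) (b (a (b (l 18058088) (l 18199472)) (l 18348144)) (b (a (l 18464744) (l 18337904)) (l 18468016)))) (a (b (b (l 1) (l 18230088)) (l 18194056)) (b (l 1) (l 18159608)))), by decide +kernel⟩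

theorem c_pm_202_b : CertF 1073741824 536870912 1239849684 370763052 67108864 67108864 false true false .pp 2 0 2
    ndF3q2 ndF1q2b pcF0 Cut.none Ext.none :=
  certFK2 (fam := false) (s1 := true) (s2 := false) (a := 2) (b := 0) (c := 2) (cn := .pp) (n1 := ndF3q2) (n2 := ndF1q2b) (pc := pcF0) (cut := Cut.none) (xt := Ext.none) (P1 := 1073741824) (W1 := 536870912) (P2 := 1239849684) (W2 := 370763052) (P3 := 67108864) (W3 := 67108864)
    rfl rfl rfl (fun _ => rfl) k0_pm_202_b

noncomputable def f_pm_203 : ℕ → ℕ → ℕ → ℕ → Bool := onCell 0 536870912 1610612736 536870912 67108864 67108864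
    (rowFK 2 false true false .up 2 0 3 (qsf 1073741824 536870912 1610612736 536870912 0) ndF3q2 ndF1q3 pcF0 Cut.none Ext.none)

def k0_pm_203 : ∃ t, chk3 f_pm_203 t 1 1 1 = true :=
  ⟨(b (a (a (b (l 18258392) (l 3)) (b (l 18237920) (l 18037984))) (a (l 18283328) (b (l 18194040) (l 17886816)))) (a (a (l 2) (l 3)) (a (b (l 3) (l 3)) (l 145124867943)))), by decide +kernel⟩

theorem c_pm_203 : CertF 1073741824 536870912 1610612736 536870912 67108864 67108864 false true false .up 2 0 3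
    ndF3q2 ndF1q3 pcF0 Cut.none Ext.none :=
  certFK2 (fam := false) (s1 := true) (s2 := false) (a := 2) (b := 0) (c := 3) (cn := .up) (n1 := ndF3q2) (n2 := ndF1q3) (pc := pcF0) (cut := Cut.none) (xt := Ext.none) (P1 := 1073741824) (W1 := 536870912) (P2 := 1610612736) (W2 := 536870912) (P3 := 67108864) (W3 := 67108864)
    rfl rfl rfl (fun _ => rfl) k0_pm_203

noncomputable def f_pm_213 : ℕ → ℕ → ℕ → ℕ → Bool := onCell 536870912 536870912 1610612736 536870912 67108864 67108864
    (rowFK 2 false true false .pnn 2 1 3 (qsf 1073741824 536870912 1610612736 536870912 1) ndF3q2 ndF1q3 pcF1 Cut.none Ext.none)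

def k0_pm_213 : ∃ t, chk3 f_pm_213 t 1 1 1 = true :=
  ⟨(a (b (a (b (l 18679824) (l 18123352)) (b (l 18834416) (l 18164328))) (a (b (l 17642512) (l 173041929831)) (b (l 17635040) (l 17257536)))) (b (a (l 402690506471) (l 1)) (a (l 17335312) (b (l 17198200) (l 16945168))))), by decide +kernel⟩

theorem c_pm_213 : CertF 1073741824 536870912 1610612736 536870912 67108864 67108864 false true false .pnn 2 1 3
    ndF3q2 ndF1q3 pcF1 Cut.none Ext.none :=
  certFK2 (fam := false) (s1 := true) (s2 := false) (a := 2) (b := 1) (c := 3) (cn := .pnn) (n1 := ndF3q2) (n2 := ndF1q3) (pc := pcF1) (cut := Cut.none) (xt := Ext.none) (P1 := 1073741824) (W1 := 536870912) (P2 := 1610612736) (W2 := 536870912) (P3 := 67108864) (W3 := 67108864)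
    rfl rfl rfl (fun _ => rfl) k0_pm_213

noncomputable def f_pm_303 : ℕ → ℕ → ℕ → ℕ → Bool := onCell 0 1230186008 1610612736 536870912 67108864 67108864
    (rowFK 0 false true false .npn 3 0 3 (qsf 0 1230186008 1610612736 536870912 0) ndF3q3 ndF1q3 pcF0 Cut.none Ext.none)

def k0_pm_303 : ∃ t, chk3 f_pm_303 t 1 1 1 = true :=
  ⟨(a (l 3) (a (l 3) (b (l 3) (l 3)))), by decide +kernel⟩

theorem c_pm_303 : CertF 0 1230186008 1610612736 536870912 67108864 67108864 false true false .npn 3 0 3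
    ndF3q3 ndF1q3 pcF0 Cut.none Ext.none :=
  certFK0 (fam := false) (s1 := true) (s2 := false) (a := 3) (b := 0) (c := 3) (cn := .npn) (n1 := ndF3q3) (n2 := ndF1q3) (pc := pcF0) (cut := Cut.none) (xt := Ext.none) (P1 := 0) (W1 := 1230186008) (P2 := 1610612736) (W2 := 536870912) (P3 := 67108864) (W3 := 67108864)
    rfl rfl rfl k0_pm_303

noncomputable def f_pm_313 : ℕ → ℕ → ℕ → ℕ → Bool := onCell 0 1230186008 1610612736 536870912 67108864 67108864
    (rowFK 0 false true false .dn 3 1 3 (qsf 0 1230186008 1610612736 536870912 1) ndF3q3 ndF1q3 pcF1 Cut.none Ext.none)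

def k0_pm_313 : ∃ t, chk3 f_pm_313 t 1 1 1 = true :=
  ⟨(a (l 1) (b (l 1) (l 3))), by decide +kernel⟩

theorem c_pm_313 : CertF 0 1230186008 1610612736 536870912 67108864 67108864 false true false .dn 3 1 3
    ndF3q3 ndF1q3 pcF1 Cut.none Ext.none :=
  certFK0 (fam := false) (s1 := true) (s2 := false) (a := 3) (b := 1) (c := 3) (cn := .dn) (n1 := ndF3q3) (n2 := ndF1q3) (pc := pcF1) (cut := Cut.none) (xt := Ext.none) (P1 := 0) (W1 := 1230186008) (P2 := 1610612736) (W2 := 536870912) (P3 := 67108864) (W3 := 67108864)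
    rfl rfl rfl k0_pm_313

noncomputable def f_mm_001 : ℕ → ℕ → ℕ → ℕ → Bool := onCell 0 536870912 536870912 536870912 67108864 67108864
    (rowFK 0 false false false .up 0 0 1 (qsf 0 536870912 536870912 536870912 0) ndF3q0 ndF1q1 pcF0 Cut.none Ext.none)

def k0_mm_001 : ∃ t, chk3 f_mm_001 t 1 1 1 = true :=
  ⟨(l 3), by decide +kernel⟩

theorem c_mm_001 : CertF 0 536870912 536870912 536870912 67108864 67108864 false false false .up 0 0 1
    ndF3q0 ndF1q1 pcF0 Cut.none Ext.none :=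
  certFK0 (fam := false) (s1 := false) (s2 := false) (a := 0) (b := 0) (c := 1) (cn := .up) (n1 := ndF3q0) (n2 := ndF1q1) (pc := pcF0) (cut := Cut.none) (xt := Ext.none) (P1 := 0) (W1 := 536870912) (P2 := 536870912) (W2 := 536870912) (P3 := 67108864) (W3 := 67108864)
    rfl rfl rfl k0_mm_001

noncomputable def f_mm_011 : ℕ → ℕ → ℕ → ℕ → Bool := onCell 0 536870912 536870912 536870912 67108864 67108864
    (rowFK 0 false false false .pnn 0 1 1 (qsf 0 536870912 536870912 536870912 1) ndF3q0 ndF1q1 pcF1 Cut.none Ext.none)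

def k0_mm_011 : ∃ t, chk3 f_mm_011 t 1 1 1 = true :=
  ⟨(l 3), by decide +kernel⟩

theorem c_mm_011 : CertF 0 536870912 536870912 536870912 67108864 67108864 false false false .pnn 0 1 1
    ndF3q0 ndF1q1 pcF1 Cut.none Ext.none :=
  certFK0 (fam := false) (s1 := false) (s2 := false) (a := 0) (b := 1) (c := 1) (cn := .pnn) (n1 := ndF3q0) (n2 := ndF1q1) (pc := pcF1) (cut := Cut.none) (xt := Ext.none) (P1 := 0) (W1 := 536870912) (P2 := 536870912) (W2 := 536870912) (P3 := 67108864) (W3 := 67108864)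
    rfl rfl rfl k0_mm_011

noncomputable def f_mm_012_a : ℕ → ℕ → ℕ → ℕ → Bool := onCell 0 536870912 0 536870912 67108864 67108864
    (rowFK 0 false false false .pnp 0 1 2 (qsf 0 536870912 0 536870912 1) ndF3q0 ndF1q2a pcF1 Cut.none Ext.none)

def k0_mm_012_a : ∃ t, chk3 f_mm_012_a t 1 1 1 = true :=
  ⟨(l 5), by decide +kernel⟩

theorem c_mm_012_a : CertF 0 536870912 0 536870912 67108864 67108864 false false false .pnp 0 1 2
    ndF3q0 ndF1q2a pcF1 Cut.none Ext.none :=
  certFK0 (fam := false) (s1 := false) (s2 := false) (a := 0) (b := 1) (c := 2) (cn := .pnp) (n1 := ndF3q0) (n2 := ndF1q2a) (pc := pcF1) (cut := Cut.none) (xt := Ext.none) (P1 := 0) (W1 := 536870912) (P2 := 0) (W2 := 536870912) (P3 := 67108864) (W3 := 67108864)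
    rfl rfl rfl k0_mm_012_a

noncomputable def f_mm_012_b : ℕ → ℕ → ℕ → ℕ → Bool := onCell 0 536870912 1239849684 370763052 67108864 67108864
    (rowFK 0 false false false .pnp 0 1 2 (qsf 0 536870912 1239849684 370763052 1) ndF3q0 ndF1q2b pcF1 Cut.none Ext.none)

def k0_mm_012_b : ∃ t, chk3 f_mm_012_b t 1 1 1 = true :=
  ⟨(l 5), by decide +kernel⟩

theorem c_mm_012_b : CertF 0 536870912 1239849684 370763052 67108864 67108864 false false false .pnp 0 1 2
    ndF3q0 ndF1q2b pcF1 Cut.none Ext.none :=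
  certFK0 (fam := false) (s1 := false) (s2 := false) (a := 0) (b := 1) (c := 2) (cn := .pnp) (n1 := ndF3q0) (n2 := ndF1q2b) (pc := pcF1) (cut := Cut.none) (xt := Ext.none) (P1 := 0) (W1 := 536870912) (P2 := 1239849684) (W2 := 370763052) (P3 := 67108864) (W3 := 67108864)
    rfl rfl rfl k0_mm_012_b

noncomputable def f_mm_022_a : ℕ → ℕ → ℕ → ℕ → Bool := onCell 0 536870912 0 536870912 67108864 67108864
    (rowFK 0 false false false .pp 0 2 2 (qsf 0 536870912 0 536870912 2) ndF3q0 ndF1q2a pcF2 Cut.none Ext.none)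

def k0_mm_022_a : ∃ t, chk3 f_mm_022_a t 1 1 1 = true :=
  ⟨(l 5), by decide +kernel⟩

theorem c_mm_022_a : CertF 0 536870912 0 536870912 67108864 67108864 false false false .pp 0 2 2
    ndF3q0 ndF1q2a pcF2 Cut.none Ext.none :=
  certFK0 (fam := false) (s1 := false) (s2 := false) (a := 0) (b := 2) (c := 2) (cn := .pp) (n1 := ndF3q0) (n2 := ndF1q2a) (pc := pcF2) (cut := Cut.none) (xt := Ext.none) (P1 := 0) (W1 := 536870912) (P2 := 0) (W2 := 536870912) (P3 := 67108864) (W3 := 67108864)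
    rfl rfl rfl k0_mm_022_a

noncomputable def f_mm_022_b : ℕ → ℕ → ℕ → ℕ → Bool := onCell 0 536870912 1239849684 370763052 67108864 67108864
    (rowFK 0 false false false .pp 0 2 2 (qsf 0 536870912 1239849684 370763052 2) ndF3q0 ndF1q2b pcF2 Cut.none Ext.none)

def k0_mm_022_b : ∃ t, chk3 f_mm_022_b t 1 1 1 = true :=
  ⟨(l 5), by decide +kernel⟩

theorem c_mm_022_b : CertF 0 536870912 1239849684 370763052 67108864 67108864 false false false .pp 0 2 2
    ndF3q0 ndF1q2b pcF2 Cut.none Ext.none :=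
  certFK0 (fam := false) (s1 := false) (s2 := false) (a := 0) (b := 2) (c := 2) (cn := .pp) (n1 := ndF3q0) (n2 := ndF1q2b) (pc := pcF2) (cut := Cut.none) (xt := Ext.none) (P1 := 0) (W1 := 536870912) (P2 := 1239849684) (W2 := 370763052) (P3 := 67108864) (W3 := 67108864)
    rfl rfl rfl k0_mm_022_b

noncomputable def f_mm_023 : ℕ → ℕ → ℕ → ℕ → Bool := onCell 0 536870912 1610612736 536870912 67108864 67108864
    (rowFK 0 false false false .up 0 2 3 (qsf 0 536870912 1610612736 536870912 2) ndF3q0 ndF1q3 pcF2 Cut.none Ext.none)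

def k0_mm_023 : ∃ t, chk3 f_mm_023 t 1 1 1 = true :=
  ⟨(l 5), by decide +kernel⟩

theorem c_mm_023 : CertF 0 536870912 1610612736 536870912 67108864 67108864 false false false .up 0 2 3
    ndF3q0 ndF1q3 pcF2 Cut.none Ext.none :=
  certFK0 (fam := false) (s1 := false) (s2 := false) (a := 0) (b := 2) (c := 3) (cn := .up) (n1 := ndF3q0) (n2 := ndF1q3) (pc := pcF2) (cut := Cut.none) (xt := Ext.none) (P1 := 0) (W1 := 536870912) (P2 := 1610612736) (W2 := 536870912) (P3 := 67108864) (W3 := 67108864)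
    rfl rfl rfl k0_mm_023

noncomputable def f_mm_033 : ℕ → ℕ → ℕ → ℕ → Bool := onCell 0 536870912 1610612736 536870912 67108864 67108864
    (rowFK 0 false false false .pnn 0 3 3 (qsf 0 536870912 1610612736 536870912 3) ndF3q0 ndF1q3 pcF3 Cut.none Ext.none)

def k0_mm_033 : ∃ t, chk3 f_mm_033 t 1 1 1 = true :=
  ⟨(l 5), by decide +kernel⟩

theorem c_mm_033 : CertF 0 536870912 1610612736 536870912 67108864 67108864 false false false .pnn 0 3 3
    ndF3q0 ndF1q3 pcF3 Cut.none Ext.none :=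
  certFK0 (fam := false) (s1 := false) (s2 := false) (a := 0) (b := 3) (c := 3) (cn := .pnn) (n1 := ndF3q0) (n2 := ndF1q3) (pc := pcF3) (cut := Cut.none) (xt := Ext.none) (P1 := 0) (W1 := 536870912) (P2 := 1610612736) (W2 := 536870912) (P3 := 67108864) (W3 := 67108864)
    rfl rfl rfl k0_mm_033

noncomputable def f_mm_101 : ℕ → ℕ → ℕ → ℕ → Bool := onCell 536870912 536870912 536870912 536870912 67108864 67108864
    (rowFK 0 false false false .npn 1 0 1 (qsf 536870912 536870912 536870912 536870912 0) ndF3q1 ndF1q1 pcF0 Cut.none Ext.none)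

def k0_mm_101 : ∃ t, chk3 f_mm_101 t 1 1 1 = true :=
  ⟨(l 3), by decide +kernel⟩

theorem c_mm_101 : CertF 536870912 536870912 536870912 536870912 67108864 67108864 false false false .npn 1 0 1
    ndF3q1 ndF1q1 pcF0 Cut.none Ext.none :=
  certFK0 (fam := false) (s1 := false) (s2 := false) (a := 1) (b := 0) (c := 1) (cn := .npn) (n1 := ndF3q1) (n2 := ndF1q1) (pc := pcF0) (cut := Cut.none) (xt := Ext.none) (P1 := 536870912) (W1 := 536870912) (P2 := 536870912) (W2 := 536870912) (P3 := 67108864) (W3 := 67108864)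
    rfl rfl rfl k0_mm_101

noncomputable def f_mm_102_a : ℕ → ℕ → ℕ → ℕ → Bool := onCell 536870912 536870912 0 536870912 67108864 67108864
    (rowFK 0 false false false .npp 1 0 2 (qsf 536870912 536870912 0 536870912 0) ndF3q1 ndF1q2a pcF0 Cut.none Ext.none)

def k0_mm_102_a : ∃ t, chk3 f_mm_102_a t 1 1 1 = true :=
  ⟨(l 5), by decide +kernel⟩

theorem c_mm_102_a : CertF 536870912 536870912 0 536870912 67108864 67108864 false false false .npp 1 0 2
    ndF3q1 ndF1q2a pcF0 Cut.none Ext.none :=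
  certFK0 (fam := false) (s1 := false) (s2 := false) (a := 1) (b := 0) (c := 2) (cn := .npp) (n1 := ndF3q1) (n2 := ndF1q2a) (pc := pcF0) (cut := Cut.none) (xt := Ext.none) (P1 := 536870912) (W1 := 536870912) (P2 := 0) (W2 := 536870912) (P3 := 67108864) (W3 := 67108864)
    rfl rfl rfl k0_mm_102_a

noncomputable def f_mm_102_b : ℕ → ℕ → ℕ → ℕ → Bool := onCell 536870912 536870912 1239849684 370763052 67108864 67108864
    (rowFK 0 false false false .npp 1 0 2 (qsf 536870912 536870912 1239849684 370763052 0) ndF3q1 ndF1q2b pcF0 Cut.none Ext.none)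

def k0_mm_102_b : ∃ t, chk3 f_mm_102_b t 1 1 1 = true :=
  ⟨(l 5), by decide +kernel⟩

theorem c_mm_102_b : CertF 536870912 536870912 1239849684 370763052 67108864 67108864 false false false .npp 1 0 2
    ndF3q1 ndF1q2b pcF0 Cut.none Ext.none :=
  certFK0 (fam := false) (s1 := false) (s2 := false) (a := 1) (b := 0) (c := 2) (cn := .npp) (n1 := ndF3q1) (n2 := ndF1q2b) (pc := pcF0) (cut := Cut.none) (xt := Ext.none) (P1 := 536870912) (W1 := 536870912) (P2 := 1239849684) (W2 := 370763052) (P3 := 67108864) (W3 := 67108864)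
    rfl rfl rfl k0_mm_102_b

noncomputable def f_mm_112_a : ℕ → ℕ → ℕ → ℕ → Bool := onCell 536870912 536870912 0 536870912 67108864 67108864
    (rowFK 0 false false false .dn 1 1 2 (qsf 536870912 536870912 0 536870912 1) ndF3q1 ndF1q2a pcF1 Cut.none Ext.none)

def k0_mm_112_a : ∃ t, chk3 f_mm_112_a t 1 1 1 = true :=
  ⟨(l 5), by decide +kernel⟩

theorem c_mm_112_a : CertF 536870912 536870912 0 536870912 67108864 67108864 false false false .dn 1 1 2
    ndF3q1 ndF1q2a pcF1 Cut.none Ext.none :=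
  certFK0 (fam := false) (s1 := false) (s2 := false) (a := 1) (b := 1) (c := 2) (cn := .dn) (n1 := ndF3q1) (n2 := ndF1q2a) (pc := pcF1) (cut := Cut.none) (xt := Ext.none) (P1 := 536870912) (W1 := 536870912) (P2 := 0) (W2 := 536870912) (P3 := 67108864) (W3 := 67108864)
    rfl rfl rfl k0_mm_112_a

noncomputable def f_mm_112_b : ℕ → ℕ → ℕ → ℕ → Bool := onCell 536870912 536870912 1239849684 370763052 67108864 67108864
    (rowFK 0 false false false .dn 1 1 2 (qsf 536870912 536870912 1239849684 370763052 1) ndF3q1 ndF1q2b pcF1 Cut.none Ext.none)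

def k0_mm_112_b : ∃ t, chk3 f_mm_112_b t 1 1 1 = true :=
  ⟨(l 5), by decide +kernel⟩

theorem c_mm_112_b : CertF 536870912 536870912 1239849684 370763052 67108864 67108864 false false false .dn 1 1 2
    ndF3q1 ndF1q2b pcF1 Cut.none Ext.none :=
  certFK0 (fam := false) (s1 := false) (s2 := false) (a := 1) (b := 1) (c := 2) (cn := .dn) (n1 := ndF3q1) (n2 := ndF1q2b) (pc := pcF1) (cut := Cut.none) (xt := Ext.none) (P1 := 536870912) (W1 := 536870912) (P2 := 1239849684) (W2 := 370763052) (P3 := 67108864) (W3 := 67108864)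
    rfl rfl rfl k0_mm_112_b

noncomputable def f_mm_113 : ℕ → ℕ → ℕ → ℕ → Bool := onCell 536870912 536870912 1610612736 536870912 67108864 67108864
    (rowFK 0 false false false .nn 1 1 3 (qsf 536870912 536870912 1610612736 536870912 1) ndF3q1 ndF1q3 pcF1 Cut.none Ext.none)

def k0_mm_113 : ∃ t, chk3 f_mm_113 t 1 1 1 = true :=
  ⟨(l 5), by decide +kernel⟩

theorem c_mm_113 : CertF 536870912 536870912 1610612736 536870912 67108864 67108864 false false false .nn 1 1 3
    ndF3q1 ndF1q3 pcF1 Cut.none Ext.none :=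
  certFK0 (fam := false) (s1 := false) (s2 := false) (a := 1) (b := 1) (c := 3) (cn := .nn) (n1 := ndF3q1) (n2 := ndF1q3) (pc := pcF1) (cut := Cut.none) (xt := Ext.none) (P1 := 536870912) (W1 := 536870912) (P2 := 1610612736) (W2 := 536870912) (P3 := 67108864) (W3 := 67108864)
    rfl rfl rfl k0_mm_113

noncomputable def f_mm_123 : ℕ → ℕ → ℕ → ℕ → Bool := onCell 536870912 536870912 1610612736 536870912 67108864 67108864
    (rowFK 0 false false false .npn 1 2 3 (qsf 536870912 536870912 1610612736 536870912 2) ndF3q1 ndF1q3 pcF2 Cut.none Ext.none)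

def k0_mm_123 : ∃ t, chk3 f_mm_123 t 1 1 1 = true :=
  ⟨(l 5), by decide +kernel⟩

theorem c_mm_123 : CertF 536870912 536870912 1610612736 536870912 67108864 67108864 false false false .npn 1 2 3
    ndF3q1 ndF1q3 pcF2 Cut.none Ext.none :=
  certFK0 (fam := false) (s1 := false) (s2 := false) (a := 1) (b := 2) (c := 3) (cn := .npn) (n1 := ndF3q1) (n2 := ndF1q3) (pc := pcF2) (cut := Cut.none) (xt := Ext.none) (P1 := 536870912) (W1 := 536870912) (P2 := 1610612736) (W2 := 536870912) (P3 := 67108864) (W3 := 67108864)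
    rfl rfl rfl k0_mm_123

noncomputable def f_mm_133 : ℕ → ℕ → ℕ → ℕ → Bool := onCell 536870912 536870912 1610612736 536870912 67108864 67108864
    (rowFK 0 false false false .dn 1 3 3 (qsf 536870912 536870912 1610612736 536870912 3) ndF3q1 ndF1q3 pcF3 Cut.none Ext.none)

def k0_mm_133 : ∃ t, chk3 f_mm_133 t 1 1 1 = true :=
  ⟨(l 5), by decide +kernel⟩

theorem c_mm_133 : CertF 536870912 536870912 1610612736 536870912 67108864 67108864 false false false .dn 1 3 3
    ndF3q1 ndF1q3 pcF3 Cut.none Ext.none :=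
  certFK0 (fam := false) (s1 := false) (s2 := false) (a := 1) (b := 3) (c := 3) (cn := .dn) (n1 := ndF3q1) (n2 := ndF1q3) (pc := pcF3) (cut := Cut.none) (xt := Ext.none) (P1 := 536870912) (W1 := 536870912) (P2 := 1610612736) (W2 := 536870912) (P3 := 67108864) (W3 := 67108864)
    rfl rfl rfl k0_mm_133

noncomputable def f_mm_202_a : ℕ → ℕ → ℕ → ℕ → Bool := onCell 1073741824 536870912 0 536870912 67108864 67108864
    (rowFK 0 false false false .pp 2 0 2 (qsf 1073741824 536870912 0 536870912 0) ndF3q2 ndF1q2a pcF0 Cut.none Ext.none)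

def k0_mm_202_a : ∃ t, chk3 f_mm_202_a t 1 1 1 = true :=
  ⟨(l 3), by decide +kernel⟩

theorem c_mm_202_a : CertF 1073741824 536870912 0 536870912 67108864 67108864 false false false .pp 2 0 2
    ndF3q2 ndF1q2a pcF0 Cut.none Ext.none :=
  certFK0 (fam := false) (s1 := false) (s2 := false) (a := 2) (b := 0) (c := 2) (cn := .pp) (n1 := ndF3q2) (n2 := ndF1q2a) (pc := pcF0) (cut := Cut.none) (xt := Ext.none) (P1 := 1073741824) (W1 := 536870912) (P2 := 0) (W2 := 536870912) (P3 := 67108864) (W3 := 67108864)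
    rfl rfl rfl k0_mm_202_a

noncomputable def f_mm_202_b : ℕ → ℕ → ℕ → ℕ → Bool := onCell 1073741824 536870912 1239849684 370763052 67108864 67108864
    (rowFK 0 false false false .pp 2 0 2 (qsf 1073741824 536870912 1239849684 370763052 0) ndF3q2 ndF1q2b pcF0 Cut.none Ext.none)

def k0_mm_202_b : ∃ t, chk3 f_mm_202_b t 1 1 1 = true :=
  ⟨(l 3), by decide +kernel⟩

theorem c_mm_202_b : CertF 1073741824 536870912 1239849684 370763052 67108864 67108864 false false false .pp 2 0 2
    ndF3q2 ndF1q2b pcF0 Cut.none Ext.none :=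
  certFK0 (fam := false) (s1 := false) (s2 := false) (a := 2) (b := 0) (c := 2) (cn := .pp) (n1 := ndF3q2) (n2 := ndF1q2b) (pc := pcF0) (cut := Cut.none) (xt := Ext.none) (P1 := 1073741824) (W1 := 536870912) (P2 := 1239849684) (W2 := 370763052) (P3 := 67108864) (W3 := 67108864)
    rfl rfl rfl k0_mm_202_b

noncomputable def f_mm_203 : ℕ → ℕ → ℕ → ℕ → Bool := onCell 1073741824 536870912 1610612736 536870912 67108864 67108864
    (rowFK 0 false false false .up 2 0 3 (qsf 1073741824 536870912 1610612736 536870912 0) ndF3q2 ndF1q3 pcF0 Cut.none Ext.none)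

def k0_mm_203 : ∃ t, chk3 f_mm_203 t 1 1 1 = true :=
  ⟨(l 5), by decide +kernel⟩

theorem c_mm_203 : CertF 1073741824 536870912 1610612736 536870912 67108864 67108864 false false false .up 2 0 3
    ndF3q2 ndF1q3 pcF0 Cut.none Ext.none :=
  certFK0 (fam := false) (s1 := false) (s2 := false) (a := 2) (b := 0) (c := 3) (cn := .up) (n1 := ndF3q2) (n2 := ndF1q3) (pc := pcF0) (cut := Cut.none) (xt := Ext.none) (P1 := 1073741824) (W1 := 536870912) (P2 := 1610612736) (W2 := 536870912) (P3 := 67108864) (W3 := 67108864)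
    rfl rfl rfl k0_mm_203

noncomputable def f_mm_213 : ℕ → ℕ → ℕ → ℕ → Bool := onCell 1073741824 536870912 1610612736 536870912 67108864 67108864
    (rowFK 0 false false false .pnn 2 1 3 (qsf 1073741824 536870912 1610612736 536870912 1) ndF3q2 ndF1q3 pcF1 Cut.none Ext.none)

def k0_mm_213 : ∃ t, chk3 f_mm_213 t 1 1 1 = true :=
  ⟨(l 5), by decide +kernel⟩

theorem c_mm_213 : CertF 1073741824 536870912 1610612736 536870912 67108864 67108864 false false false .pnn 2 1 3
    ndF3q2 ndF1q3 pcF1 Cut.none Ext.none :=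
  certFK0 (fam := false) (s1 := false) (s2 := false) (a := 2) (b := 1) (c := 3) (cn := .pnn) (n1 := ndF3q2) (n2 := ndF1q3) (pc := pcF1) (cut := Cut.none) (xt := Ext.none) (P1 := 1073741824) (W1 := 536870912) (P2 := 1610612736) (W2 := 536870912) (P3 := 67108864) (W3 := 67108864)
    rfl rfl rfl k0_mm_213

noncomputable def f_mm_303 : ℕ → ℕ → ℕ → ℕ → Bool := onCell 0 1230186008 1610612736 536870912 67108864 67108864
    (rowFK 0 false false false .npn 3 0 3 (qsf 0 1230186008 1610612736 536870912 0) ndF3q3 ndF1q3 pcF0 Cut.none Ext.none)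

def k0_mm_303 : ∃ t, chk3 f_mm_303 t 1 1 1 = true :=
  ⟨(a (l 3) (l 3)), by decide +kernel⟩

theorem c_mm_303 : CertF 0 1230186008 1610612736 536870912 67108864 67108864 false false false .npn 3 0 3
    ndF3q3 ndF1q3 pcF0 Cut.none Ext.none :=
  certFK0 (fam := false) (s1 := false) (s2 := false) (a := 3) (b := 0) (c := 3) (cn := .npn) (n1 := ndF3q3) (n2 := ndF1q3) (pc := pcF0) (cut := Cut.none) (xt := Ext.none) (P1 := 0) (W1 := 1230186008) (P2 := 1610612736) (W2 := 536870912) (P3 := 67108864) (W3 := 67108864)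
    rfl rfl rfl k0_mm_303

noncomputable def f_mm_313 : ℕ → ℕ → ℕ → ℕ → Bool := onCell 0 1230186008 1610612736 536870912 67108864 67108864
    (rowFK 0 false false false .dn 3 1 3 (qsf 0 1230186008 1610612736 536870912 1) ndF3q3 ndF1q3 pcF1 Cut.none Ext.none)

def k0_mm_313 : ∃ t, chk3 f_mm_313 t 1 1 1 = true :=
  ⟨(a (l 1) (l 3)), by decide +kernel⟩

theorem c_mm_313 : CertF 0 1230186008 1610612736 536870912 67108864 67108864 false false false .dn 3 1 3
    ndF3q3 ndF1q3 pcF1 Cut.none Ext.none :=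
  certFK0 (fam := false) (s1 := false) (s2 := false) (a := 3) (b := 1) (c := 3) (cn := .dn) (n1 := ndF3q3) (n2 := ndF1q3) (pc := pcF1) (cut := Cut.none) (xt := Ext.none) (P1 := 0) (W1 := 1230186008) (P2 := 1610612736) (W2 := 536870912) (P3 := 67108864) (W3 := 67108864)
    rfl rfl rfl k0_mm_313

end Pool.Agent.Strip051.G.I1_16_1_8.Tab.C.FB31

namespace Pool.Agent.Strip051.G.I1_16_1_8.Tab.C.FB32

open Pool.Agent.Strip051.PB Pool.Agent.Strip051.PB.T
open Pool.Agent.Strip051.G.I1_16_1_8.Tab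

noncomputable def f_pp_001 : ℕ → ℕ → ℕ → ℕ → Bool := onCell 0 536870912 536870912 536870912 67108864 67108864
    (rowFK 0 false true true .up 0 0 1 (qsf 0 536870912 536870912 536870912 0) ndF3q0 ndF2q1 pcF0 Cut.none Ext.none)

def k0_pp_001 : ∃ t, chk3 f_pp_001 t 1 1 1 = true :=
  ⟨(l 3), by decide +kernel⟩

theorem c_pp_001 : CertF 0 536870912 536870912 536870912 67108864 67108864 false true true .up 0 0 1
    ndF3q0 ndF2q1 pcF0 Cut.none Ext.none :=
  certFK0 (fam := false) (s1 := true) (s2 := true) (a := 0) (b := 0) (c := 1) (cn := .up) (n1 := ndF3q0) (n2 := ndF2q1) (pc := pcF0) (cut := Cut.none) (xt := Ext.none) (P1 := 0) (W1 := 536870912) (P2 := 536870912) (W2 := 536870912) (P3 := 67108864) (W3 := 67108864)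
    rfl rfl rfl k0_pp_001

noncomputable def f_pp_011 : ℕ → ℕ → ℕ → ℕ → Bool := onCell 0 536870912 536870912 536870912 67108864 67108864
    (rowFK 0 false true true .pnn 0 1 1 (qsf 0 536870912 536870912 536870912 1) ndF3q0 ndF2q1 pcF1 Cut.none Ext.none)

def k0_pp_011 : ∃ t, chk3 f_pp_011 t 1 1 1 = true :=
  ⟨(l 3), by decide +kernel⟩

theorem c_pp_011 : CertF 0 536870912 536870912 536870912 67108864 67108864 false true true .pnn 0 1 1
    ndF3q0 ndF2q1 pcF1 Cut.none Ext.none :=
  certFK0 (fam := false) (s1 := true) (s2 := true) (a := 0) (b := 1) (c := 1) (cn := .pnn) (n1 := ndF3q0) (n2 := ndF2q1) (pc := pcF1) (cut := Cut.none) (xt := Ext.none) (P1 := 0) (W1 := 536870912) (P2 := 536870912) (W2 := 536870912) (P3 := 67108864) (W3 := 67108864)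
    rfl rfl rfl k0_pp_011

noncomputable def f_pp_012_a : ℕ → ℕ → ℕ → ℕ → Bool := onCell 536870912 536870912 0 536870912 67108864 67108864
    (rowFK 2 false true true .pnp 0 1 2 (qsf 0 536870912 0 536870912 1) ndF3q0 ndF2q2a pcF1 Cut.none Ext.none)

def k0_pp_012_a : ∃ t, chk3 f_pp_012_a t 1 1 1 = true :=
  ⟨(a (b (a (l 17681032) (l 17079232)) (b (a (l 17614576) (l 17184672)) (b (a (l 17541664) (l 17307176)) (a (l 17468080) (l 17446384))))) (b (a (l 17499376) (l 18218096)) (b (a (l 17701504) (l 18467536)) (b (a (l 17898920) (l 18698600)) (a (l 18095624) (l 18916992)))))), by decide +kernel⟩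

theorem c_pp_012_a : CertF 0 536870912 0 536870912 67108864 67108864 false true true .pnp 0 1 2
    ndF3q0 ndF2q2a pcF1 Cut.none Ext.none :=
  certFK2 (fam := false) (s1 := true) (s2 := true) (a := 0) (b := 1) (c := 2) (cn := .pnp) (n1 := ndF3q0) (n2 := ndF2q2a) (pc := pcF1) (cut := Cut.none) (xt := Ext.none) (P1 := 0) (W1 := 536870912) (P2 := 0) (W2 := 536870912) (P3 := 67108864) (W3 := 67108864)
    rfl rfl rfl (fun _ => rfl) k0_pp_012_a

noncomputable def f_pp_012_b : ℕ → ℕ → ℕ → ℕ → Bool := onCell 536870912 536870912 1239849684 370763052 67108864 67108864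
    (rowFK 2 false true true .pnp 0 1 2 (qsf 0 536870912 1239849684 370763052 1) ndF3q0 ndF2q2b pcF1 Cut.none Ext.none)

def k0_pp_012_b : ∃ t, chk3 f_pp_012_b t 1 1 1 = true :=
  ⟨(a (a (l 2) (b (l 17263928) (l 2))) (a (b (b (l 17162200) (l 16985856)) (l 17330728)) (b (b (l 17834648) (l 17679240)) (a (l 17827760) (a (l 18118080) (l 18322640)))))), by decide +kernel⟩

theorem c_pp_012_b : CertF 0 536870912 1239849684 370763052 67108864 67108864 false true true .pnp 0 1 2
    ndF3q0 ndF2q2b pcF1 Cut.none Ext.none :=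
  certFK2 (fam := false) (s1 := true) (s2 := true) (a := 0) (b := 1) (c := 2) (cn := .pnp) (n1 := ndF3q0) (n2 := ndF2q2b) (pc := pcF1) (cut := Cut.none) (xt := Ext.none) (P1 := 0) (W1 := 536870912) (P2 := 1239849684) (W2 := 370763052) (P3 := 67108864) (W3 := 67108864)
    rfl rfl rfl (fun _ => rfl) k0_pp_012_b

noncomputable def f_pp_022_a : ℕ → ℕ → ℕ → ℕ → Bool := onCell 1073741824 536870912 0 536870912 67108864 67108864
    (rowFK 2 false true true .pp 0 2 2 (qsf 0 536870912 0 536870912 2) ndF3q0 ndF2q2a pcF2 Cut.none Ext.none)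

def k0_pp_022_a : ∃ t, chk3 f_pp_022_a t 1 1 1 = true :=
  ⟨(a (b (a (a (a (l 18711656) (l 18797944)) (l 18911552)) (a (l 19016408) (l 1))) (a (b (a (a (l 18964624) (l 19046752)) (l 19132616)) (a (b (a (l 19209312) (l 19262880)) (a (l 19415240) (l 19460056))) (b (l 19419776) (l 1)))) (b (l 1) (l 1)))) (l 1)), by decide +kernel⟩

theorem c_pp_022_a : CertF 0 536870912 0 536870912 67108864 67108864 false true true .pp 0 2 2
    ndF3q0 ndF2q2a pcF2 Cut.none Ext.none :=
  certFK2 (fam := false) (s1 := true) (s2 := true) (a := 0) (b := 2) (c := 2) (cn := .pp) (n1 := ndF3q0) (n2 := ndF2q2a) (pc := pcF2) (cut := Cut.none) (xt := Ext.none) (P1 := 0) (W1 := 536870912) (P2 := 0) (W2 := 536870912) (P3 := 67108864) (W3 := 67108864)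
    rfl rfl rfl (fun _ => rfl) k0_pp_022_a

noncomputable def f_pp_022_b : ℕ → ℕ → ℕ → ℕ → Bool := onCell 0 536870912 1239849684 370763052 67108864 67108864
    (rowFK 0 false true true .pp 0 2 2 (qsf 0 536870912 1239849684 370763052 2) ndF3q0 ndF2q2b pcF2 Cut.none Ext.none)

def k0_pp_022_b : ∃ t, chk3 f_pp_022_b t 1 1 1 = true :=
  ⟨(a (b (a (b (a (l 18672200) (l 18538344)) (l 18234600)) (a (a (b (a (l 18448416) (l 18413976)) (l 18106440)) (l 18211952)) (l 18310632))) (a (l 17874376) (l 17792176))) (b (a (l 18629800) (l 1)) (a (l 18272280) (l 18735128)))), by decide +kernel⟩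

theorem c_pp_022_b : CertF 0 536870912 1239849684 370763052 67108864 67108864 false true true .pp 0 2 2
    ndF3q0 ndF2q2b pcF2 Cut.none Ext.none :=
  certFK0 (fam := false) (s1 := true) (s2 := true) (a := 0) (b := 2) (c := 2) (cn := .pp) (n1 := ndF3q0) (n2 := ndF2q2b) (pc := pcF2) (cut := Cut.none) (xt := Ext.none) (P1 := 0) (W1 := 536870912) (P2 := 1239849684) (W2 := 370763052) (P3 := 67108864) (W3 := 67108864)
    rfl rfl rfl k0_pp_022_b

noncomputable def f_pp_023 : ℕ → ℕ → ℕ → ℕ → Bool := onCell 1073741824 536870912 1610612736 536870912 67108864 67108864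
    (rowFK 2 false true true .up 0 2 3 (qsf 0 536870912 1610612736 536870912 2) ndF3q0 ndF2q3 pcF2 Cut.none Ext.none)

def k0_pp_023 : ∃ t, chk3 f_pp_023 t 1 1 1 = true :=
  ⟨(a (b (b (l 18173208) (l 18574504)) (b (l 19102496) (l 2))) (b (b (a (l 18489720) (l 18725336)) (a (l 18283904) (l 17970096))) (a (l 18674920) (l 17863496)))), by decide +kernel⟩

theorem c_pp_023 : CertF 0 536870912 1610612736 536870912 67108864 67108864 false true true .up 0 2 3
    ndF3q0 ndF2q3 pcF2 Cut.none Ext.none :=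
  certFK2 (fam := false) (s1 := true) (s2 := true) (a := 0) (b := 2) (c := 3) (cn := .up) (n1 := ndF3q0) (n2 := ndF2q3) (pc := pcF2) (cut := Cut.none) (xt := Ext.none) (P1 := 0) (W1 := 536870912) (P2 := 1610612736) (W2 := 536870912) (P3 := 67108864) (W3 := 67108864)
    rfl rfl rfl (fun _ => rfl) k0_pp_023

noncomputable def f_pp_033 : ℕ → ℕ → ℕ → ℕ → Bool := onCell 0 536870912 1610612736 536870912 67108864 67108864
    (rowFK 0 false true true .pnn 0 3 3 (qsf 0 536870912 1610612736 536870912 3) ndF3q0 ndF2q3 pcF3 Cut.none Ext.none)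

def k0_pp_033 : ∃ t, chk3 f_pp_033 t 1 1 1 = true :=
  ⟨(b (a (b (a (b (l 18461184) (l 18298800)) (l 529391798199)) (a (b (l 18043472) (a (l 4) (l 17665040))) (b (l 17952296) (l 17633024)))) (a (b (l 1) (b (l 1) (l 17927976))) (l 1))) (b (a (l 4) (a (b (l 17805824) (l 4)) (b (l 1) (l 18236320)))) (l 4))), by decide +kernel⟩

theorem c_pp_033 : CertF 0 536870912 1610612736 536870912 67108864 67108864 false true true .pnn 0 3 3
    ndF3q0 ndF2q3 pcF3 Cut.none Ext.none :=
  certFK0 (fam := false) (s1 := true) (s2 := true) (a := 0) (b := 3) (c := 3) (cn := .pnn) (n1 := ndF3q0) (n2 := ndF2q3) (pc := pcF3) (cut := Cut.none) (xt := Ext.none) (P1 := 0) (W1 := 536870912) (P2 := 1610612736) (W2 := 536870912) (P3 := 67108864) (W3 := 67108864)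
    rfl rfl rfl k0_pp_033

noncomputable def f_pp_101 : ℕ → ℕ → ℕ → ℕ → Bool := onCell 536870912 536870912 536870912 536870912 67108864 67108864
    (rowFK 0 false true true .npn 1 0 1 (qsf 536870912 536870912 536870912 536870912 0) ndF3q1 ndF2q1 pcF0 Cut.none Ext.none)

def k0_pp_101 : ∃ t, chk3 f_pp_101 t 1 1 1 = true :=
  ⟨(l 3), by decide +kernel⟩

theorem c_pp_101 : CertF 536870912 536870912 536870912 536870912 67108864 67108864 false true true .npn 1 0 1
    ndF3q1 ndF2q1 pcF0 Cut.none Ext.none :=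
  certFK0 (fam := false) (s1 := true) (s2 := true) (a := 1) (b := 0) (c := 1) (cn := .npn) (n1 := ndF3q1) (n2 := ndF2q1) (pc := pcF0) (cut := Cut.none) (xt := Ext.none) (P1 := 536870912) (W1 := 536870912) (P2 := 536870912) (W2 := 536870912) (P3 := 67108864) (W3 := 67108864)
    rfl rfl rfl k0_pp_101

noncomputable def cut_pp_102_a : Cut := Cut.of [[⟨0, 1, 0, 67108864⟩, ⟨1, 0, 0, 67108864⟩, ⟨2, 1, 0, 67108864⟩]]

noncomputable def f_pp_102_a : ℕ → ℕ → ℕ → ℕ → Bool := onCell 536870912 536870912 0 536870912 67108864 67108864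
    (rowFK 0 false true true .npp 1 0 2 (qsf 536870912 536870912 0 536870912 0) ndF3q1 ndF2q2a pcF0 cut_pp_102_a Ext.none)

def k0_pp_102_a : ∃ t, chk3 f_pp_102_a t 2 1 1 = true :=
  ⟨(b (a (l 18584256) (l 18711056)) (b (a (l 18519864) (l 18569376)) (b (a (l 18423536) (l 18385400)) (a (l 18324392) (a (l 18232936) (l 18139640)))))), by decide +kernel⟩

def k1_pp_102_a : ∃ t, chk3 f_pp_102_a t 3 2 1 = true :=
  ⟨(a (b (l 18891072) (l 18825192)) (a (b (l 19012232) (l 18876728)) (b (a (l 19003432) (c (l 19394280) (l 18238088))) (a (b (l 18877296) (l 18686136)) (c (b (l 19237328) (a (l 19045528) (l 18923120))) (b (a (l 18251912) (l 18009496)) (a (l 17940808) (b (l 17731168) (a (l 17573528) (l 17341384)))))))))), by decide +kernel⟩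

def k2_pp_102_a : ∃ t, chk3 f_pp_102_a t 3 6 1 = true :=
  ⟨(a (a (l 18591152) (b (l 18690664) (l 18491328))) (a (b (a (l 18655640) (l 18571368)) (a (l 18382648) (b (l 18323040) (l 17907952)))) (a (b (c (l 18850880) (a (l 17987400) (l 17567400))) (c (b (l 18533288) (a (l 18326640) (l 18086416))) (b (a (l 17617232) (l 17282296)) (a (l 17276248) (l 16833928))))) (b (a (c (l 18583072) (b (l 17577368) (l 17190584))) (b (c (l 18583952) (a (l 17245360) (l 16952968))) (c (c (l 18652864) (a (l 17953600) (l 17714272))) (l 16604464)))) (a (b (c (a (l 18278296) (l 18118304)) (l 16729816)) (a (l 16868520) (l 16718832))) (b (a (c (c (l 18333800) (l 17480208)) (l 16606776)) (l 16609760)) (a (l 16627048) (b (l 16619120) (l 16628480))))))))), by decide +kernel⟩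

def k3_pp_102_a : ∃ t, chk3 f_pp_102_a t 3 7 1 = true :=
  ⟨(a (b (a (l 18305264) (b (l 18283376) (l 17906960))) (a (b (l 18095072) (l 17892296)) (b (l 17682072) (a (l 17686120) (l 17343672))))) (b (a (b (a (l 18089808) (a (l 17898072) (l 17468072))) (a (b (l 17901528) (l 17755280)) (b (a (l 17658592) (l 17405432)) (a (l 17472304) (l 17175880))))) (b (a (a (b (l 17472096) (l 17264488)) (l 16685312)) (a (b (l 16639664) (l 16650496)) (b (a (l 16639096) (a (l 16639248) (l 16639504))) (a (l 16651000) (a (l 16651672) (l 16662768)))))) (a (a (b (l 17023152) (l 16722864)) (b (l 16663000) (l 16696088))) (a (b (a (l 16663080) (l 16663752)) (a (l 16697320) (l 16698752))) (a (b (b (l 16659288) (l 16666344)) (b (l 16673624) (l 6))) (b (a (l 16687104) (l 6)) (l 6))))))) (a (a (b (a (l 17588752) (l 17406792)) (b (l 17220176) (l 17015696))) (b (a (l 17152272) (l 16778504)) (b (a (l 16794248) (l 16713328)) (a (l 16727144) (l 16729928))))) (b (a (a (b (l 16685352) (l 16699896))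 (b (l 16686912) (a (l 16702088) (l 16704152)))) (a (a (b (l 16689352) (l 6)) (l 6)) (l 6))) (a (b (a (l 16716256) (a (l 16719672) (l 6))) (a (b (l 16729720) (l 16739368)) (l 6))) (l 6)))))), by decide +kernel⟩

theorem s4_pp_102_a : ∃ t, chk3 f_pp_102_a t 3 3 1 = true := ex3_b k2_pp_102_a k3_pp_102_a

theorem s5_pp_102_a : ∃ t, chk3 f_pp_102_a t 3 1 1 = true := ex3_b k1_pp_102_a s4_pp_102_a

theorem s6_pp_102_a : ∃ t, chk3 f_pp_102_a t 1 1 1 = true := ex3_a k0_pp_102_a s5_pp_102_a

theorem c_pp_102_a : CertF 536870912 536870912 0 536870912 67108864 67108864 false true true .npp 1 0 2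
    ndF3q1 ndF2q2a pcF0 cut_pp_102_a Ext.none :=
  certFK0 (fam := false) (s1 := true) (s2 := true) (a := 1) (b := 0) (c := 2) (cn := .npp) (n1 := ndF3q1) (n2 := ndF2q2a) (pc := pcF0) (cut := cut_pp_102_a) (xt := Ext.none) (P1 := 536870912) (W1 := 536870912) (P2 := 0) (W2 := 536870912) (P3 := 67108864) (W3 := 67108864)
    rfl rfl rfl s6_pp_102_a

noncomputable def cut_pp_102_b : Cut := Cut.of [[⟨0, 1, 0, 67108864⟩, ⟨1, 0, 0, 67108864⟩, ⟨2, 1, 0, 67108864⟩]]

noncomputable def f_pp_102_b : ℕ → ℕ → ℕ → ℕ → Bool := onCell 536870912 536870912 1239849684 370763052 67108864 67108864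
    (rowFK 0 false true true .npp 1 0 2 (qsf 536870912 536870912 1239849684 370763052 0) ndF3q1 ndF2q2b pcF0 cut_pp_102_b Ext.none)

def k0_pp_102_b : ∃ t, chk3 f_pp_102_b t 1 1 1 = true :=
  ⟨(a (b (a (l 2) (b (l 18715712) (l 18616720))) (l 2)) (b (a (b (l 18967016) (l 18957728)) (b (a (l 19217360) (b (a (l 19221056) (b (l 19096920) (l 19332448))) (l 19496720))) (a (l 19310904) (l 19619952)))) (a (b (l 18842240) (l 2)) (b (l 19363864) (l 19193592))))), by decide +kernel⟩

theorem c_pp_102_b : CertF 536870912 536870912 1239849684 370763052 67108864 67108864 false true true .npp 1 0 2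
    ndF3q1 ndF2q2b pcF0 cut_pp_102_b Ext.none :=
  certFK0 (fam := false) (s1 := true) (s2 := true) (a := 1) (b := 0) (c := 2) (cn := .npp) (n1 := ndF3q1) (n2 := ndF2q2b) (pc := pcF0) (cut := cut_pp_102_b) (xt := Ext.none) (P1 := 536870912) (W1 := 536870912) (P2 := 1239849684) (W2 := 370763052) (P3 := 67108864) (W3 := 67108864)
    rfl rfl rfl k0_pp_102_b

noncomputable def f_pp_112_a : ℕ → ℕ → ℕ → ℕ → Bool := onCell 536870912 536870912 0 536870912 67108864 67108864
    (rowFK 0 false true true .dn 1 1 2 (qsf 536870912 536870912 0 536870912 1) ndF3q1 ndF2q2a pcF1 Cut.none Ext.none)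

def k0_pp_112_a : ∃ t, chk3 f_pp_112_a t 1 1 1 = true :=
  ⟨(a (a (b (l 18453672) (b (l 18376624) (b (l 18279912) (l 18187024)))) (b (l 18632896) (b (l 1) (l 1)))) (l 1)), by decide +kernel⟩

theorem c_pp_112_a : CertF 536870912 536870912 0 536870912 67108864 67108864 false true true .dn 1 1 2
    ndF3q1 ndF2q2a pcF1 Cut.none Ext.none :=
  certFK0 (fam := false) (s1 := true) (s2 := true) (a := 1) (b := 1) (c := 2) (cn := .dn) (n1 := ndF3q1) (n2 := ndF2q2a) (pc := pcF1) (cut := Cut.none) (xt := Ext.none) (P1 := 536870912) (W1 := 536870912) (P2 := 0) (W2 := 536870912) (P3 := 67108864) (W3 := 67108864)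
    rfl rfl rfl k0_pp_112_a

noncomputable def f_pp_112_b : ℕ → ℕ → ℕ → ℕ → Bool := onCell 536870912 536870912 1239849684 370763052 67108864 67108864
    (rowFK 2 false true true .dn 1 1 2 (qsf 536870912 536870912 1239849684 370763052 1) ndF3q1 ndF2q2b pcF1 Cut.none Ext.none)

def k0_pp_112_b : ∃ t, chk3 f_pp_112_b t 1 1 1 = true :=
  ⟨(a (a (b (l 18589728) (l 19020752)) (l 18614704)) (a (l 18156016) (a (l 18102936) (a (l 18122304) (l 18148920))))), by decide +kernel⟩

theorem c_pp_112_b : CertF 536870912 536870912 1239849684 370763052 67108864 67108864 false true true .dn 1 1 2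
    ndF3q1 ndF2q2b pcF1 Cut.none Ext.none :=
  certFK2 (fam := false) (s1 := true) (s2 := true) (a := 1) (b := 1) (c := 2) (cn := .dn) (n1 := ndF3q1) (n2 := ndF2q2b) (pc := pcF1) (cut := Cut.none) (xt := Ext.none) (P1 := 536870912) (W1 := 536870912) (P2 := 1239849684) (W2 := 370763052) (P3 := 67108864) (W3 := 67108864)
    rfl rfl rfl (fun _ => rfl) k0_pp_112_b

noncomputable def f_pp_113 : ℕ → ℕ → ℕ → ℕ → Bool := onCell 536870912 536870912 1610612736 536870912 67108864 67108864
    (rowFK 2 false true true .nn 1 1 3 (qsf 536870912 536870912 1610612736 536870912 1) ndF3q1 ndF2q3 pcF1 Cut.none Ext.none)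

def k0_pp_113 : ∃ t, chk3 f_pp_113 t 1 1 1 = true :=
  ⟨(a (b (a (b (l 20769544) (l 20955784)) (l 20193040)) (a (l 2) (b (l 20056976) (l 2)))) (b (a (b (l 19663616) (l 19292792)) (a (l 19054264) (a (l 18926248) (l 18846328)))) (a (b (l 18744456) (l 18253632)) (a (l 17586680) (a (l 17382560) (l 17284856)))))), by decide +kernel⟩

theorem c_pp_113 : CertF 536870912 536870912 1610612736 536870912 67108864 67108864 false true true .nn 1 1 3
    ndF3q1 ndF2q3 pcF1 Cut.none Ext.none :=
  certFK2 (fam := false) (s1 := true) (s2 := true) (a := 1) (b := 1) (c := 3) (cn := .nn) (n1 := ndF3q1) (n2 := ndF2q3) (pc := pcF1) (cut := Cut.none) (xt := Ext.none) (P1 := 536870912) (W1 := 536870912) (P2 := 1610612736) (W2 := 536870912) (P3 := 67108864) (W3 := 67108864)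
    rfl rfl rfl (fun _ => rfl) k0_pp_113

noncomputable def f_pp_123 : ℕ → ℕ → ℕ → ℕ → Bool := onCell 1073741824 536870912 1610612736 536870912 67108864 67108864
    (rowFK 2 false true true .npn 1 2 3 (qsf 536870912 536870912 1610612736 536870912 2) ndF3q1 ndF2q3 pcF2 Cut.none Ext.none)

def k0_pp_123 : ∃ t, chk3 f_pp_123 t 1 1 1 = true :=
  ⟨(a (b (b (l 19016232) (l 18298272)) (b (l 17466744) (l 17207768))) (b (b (l 1) (l 18114784)) (a (b (l 17387968) (l 4)) (l 17366144)))), by decide +kernel⟩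

theorem c_pp_123 : CertF 536870912 536870912 1610612736 536870912 67108864 67108864 false true true .npn 1 2 3
    ndF3q1 ndF2q3 pcF2 Cut.none Ext.none :=
  certFK2 (fam := false) (s1 := true) (s2 := true) (a := 1) (b := 2) (c := 3) (cn := .npn) (n1 := ndF3q1) (n2 := ndF2q3) (pc := pcF2) (cut := Cut.none) (xt := Ext.none) (P1 := 536870912) (W1 := 536870912) (P2 := 1610612736) (W2 := 536870912) (P3 := 67108864) (W3 := 67108864)
    rfl rfl rfl (fun _ => rfl) k0_pp_123

noncomputable def f_pp_133 : ℕ → ℕ → ℕ → ℕ → Bool := onCell 1610612736 536870912 1610612736 536870912 67108864 67108864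
    (rowFK 2 false true true .dn 1 3 3 (qsf 536870912 536870912 1610612736 536870912 3) ndF3q1 ndF2q3 pcF3 Cut.none Ext.none)

def k0_pp_133 : ∃ t, chk3 f_pp_133 t 1 1 1 = true :=
  ⟨(a (b (l 1) (b (l 1) (l 4))) (l 1)), by decide +kernel⟩

theorem c_pp_133 : CertF 536870912 536870912 1610612736 536870912 67108864 67108864 false true true .dn 1 3 3
    ndF3q1 ndF2q3 pcF3 Cut.none Ext.none :=
  certFK2 (fam := false) (s1 := true) (s2 := true) (a := 1) (b := 3) (c := 3) (cn := .dn) (n1 := ndF3q1) (n2 := ndF2q3) (pc := pcF3) (cut := Cut.none) (xt := Ext.none) (P1 := 536870912) (W1 := 536870912) (P2 := 1610612736) (W2 := 536870912) (P3 := 67108864) (W3 := 67108864)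
    rfl rfl rfl (fun _ => rfl) k0_pp_133

noncomputable def f_pp_202_a : ℕ → ℕ → ℕ → ℕ → Bool := onCell 1073741824 536870912 0 536870912 67108864 67108864
    (rowFK 0 false true true .pp 2 0 2 (qsf 1073741824 536870912 0 536870912 0) ndF3q2 ndF2q2a pcF0 Cut.none Ext.none)

def k0_pp_202_a : ∃ t, chk3 f_pp_202_a t 1 1 1 = true :=
  ⟨(l 3), by decide +kernel⟩

theorem c_pp_202_a : CertF 1073741824 536870912 0 536870912 67108864 67108864 false true true .pp 2 0 2
    ndF3q2 ndF2q2a pcF0 Cut.none Ext.none :=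
  certFK0 (fam := false) (s1 := true) (s2 := true) (a := 2) (b := 0) (c := 2) (cn := .pp) (n1 := ndF3q2) (n2 := ndF2q2a) (pc := pcF0) (cut := Cut.none) (xt := Ext.none) (P1 := 1073741824) (W1 := 536870912) (P2 := 0) (W2 := 536870912) (P3 := 67108864) (W3 := 67108864)
    rfl rfl rfl k0_pp_202_a

noncomputable def f_pp_202_b : ℕ → ℕ → ℕ → ℕ → Bool := onCell 1073741824 536870912 1239849684 370763052 67108864 67108864
    (rowFK 0 false true true .pp 2 0 2 (qsf 1073741824 536870912 1239849684 370763052 0) ndF3q2 ndF2q2b pcF0 Cut.none Ext.none)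

def k0_pp_202_b : ∃ t, chk3 f_pp_202_b t 1 1 1 = true :=
  ⟨(l 3), by decide +kernel⟩

theorem c_pp_202_b : CertF 1073741824 536870912 1239849684 370763052 67108864 67108864 false true true .pp 2 0 2
    ndF3q2 ndF2q2b pcF0 Cut.none Ext.none :=
  certFK0 (fam := false) (s1 := true) (s2 := true) (a := 2) (b := 0) (c := 2) (cn := .pp) (n1 := ndF3q2) (n2 := ndF2q2b) (pc := pcF0) (cut := Cut.none) (xt := Ext.none) (P1 := 1073741824) (W1 := 536870912) (P2 := 1239849684) (W2 := 370763052) (P3 := 67108864) (W3 := 67108864)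
    rfl rfl rfl k0_pp_202_b

noncomputable def f_pp_203 : ℕ → ℕ → ℕ → ℕ → Bool := onCell 1073741824 536870912 0 536870912 67108864 67108864
    (rowFK 1 false true true .up 2 0 3 (qsf 1073741824 536870912 1610612736 536870912 0) ndF3q2 ndF2q3 pcF0 Cut.none Ext.none)

def k0_pp_203 : ∃ t, chk3 f_pp_203 t 1 1 1 = true :=
  ⟨(l 3), by decide +kernel⟩

theorem c_pp_203 : CertF 1073741824 536870912 1610612736 536870912 67108864 67108864 false true true .up 2 0 3
    ndF3q2 ndF2q3 pcF0 Cut.none Ext.none :=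
  certFK1 (fam := false) (s1 := true) (s2 := true) (a := 2) (b := 0) (c := 3) (cn := .up) (n1 := ndF3q2) (n2 := ndF2q3) (pc := pcF0) (cut := Cut.none) (xt := Ext.none) (P1 := 1073741824) (W1 := 536870912) (P2 := 1610612736) (W2 := 536870912) (P3 := 67108864) (W3 := 67108864)
    rfl rfl rfl (fun _ => rfl) k0_pp_203

noncomputable def f_pp_213 : ℕ → ℕ → ℕ → ℕ → Bool := onCell 1073741824 536870912 1610612736 536870912 67108864 67108864
    (rowFK 0 false true true .pnn 2 1 3 (qsf 1073741824 536870912 1610612736 536870912 1) ndF3q2 ndF2q3 pcF1 Cut.none Ext.none)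

def k0_pp_213 : ∃ t, chk3 f_pp_213 t 1 1 1 = true :=
  ⟨(b (l 3) (a (b (a (b (l 3) (l 294911611447)) (l 3)) (a (b (l 17302488) (l 17050880)) (b (l 17427616) (l 17200424)))) (b (l 3) (a (b (l 3) (l 17241568)) (l 3))))), by decide +kernel⟩

theorem c_pp_213 : CertF 1073741824 536870912 1610612736 536870912 67108864 67108864 false true true .pnn 2 1 3
    ndF3q2 ndF2q3 pcF1 Cut.none Ext.none :=
  certFK0 (fam := false) (s1 := true) (s2 := true) (a := 2) (b := 1) (c := 3) (cn := .pnn) (n1 := ndF3q2) (n2 := ndF2q3) (pc := pcF1) (cut := Cut.none) (xt := Ext.none) (P1 := 1073741824) (W1 := 536870912) (P2 := 1610612736) (W2 := 536870912) (P3 := 67108864) (W3 := 67108864)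
    rfl rfl rfl k0_pp_213

noncomputable def f_pp_303 : ℕ → ℕ → ℕ → ℕ → Bool := onCell 0 1230186008 1610612736 536870912 67108864 67108864
    (rowFK 0 false true true .npn 3 0 3 (qsf 0 1230186008 1610612736 536870912 0) ndF3q3 ndF2q3 pcF0 Cut.none Ext.none)

def k0_pp_303 : ∃ t, chk3 f_pp_303 t 1 1 1 = true :=
  ⟨(a (l 3) (l 3)), by decide +kernel⟩

theorem c_pp_303 : CertF 0 1230186008 1610612736 536870912 67108864 67108864 false true true .npn 3 0 3
    ndF3q3 ndF2q3 pcF0 Cut.none Ext.none :=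
  certFK0 (fam := false) (s1 := true) (s2 := true) (a := 3) (b := 0) (c := 3) (cn := .npn) (n1 := ndF3q3) (n2 := ndF2q3) (pc := pcF0) (cut := Cut.none) (xt := Ext.none) (P1 := 0) (W1 := 1230186008) (P2 := 1610612736) (W2 := 536870912) (P3 := 67108864) (W3 := 67108864)
    rfl rfl rfl k0_pp_303

noncomputable def f_pp_313 : ℕ → ℕ → ℕ → ℕ → Bool := onCell 0 1230186008 1610612736 536870912 67108864 67108864
    (rowFK 0 false true true .dn 3 1 3 (qsf 0 1230186008 1610612736 536870912 1) ndF3q3 ndF2q3 pcF1 Cut.none Ext.none)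

def k0_pp_313 : ∃ t, chk3 f_pp_313 t 1 1 1 = true :=
  ⟨(a (l 1) (l 3)), by decide +kernel⟩

theorem c_pp_313 : CertF 0 1230186008 1610612736 536870912 67108864 67108864 false true true .dn 3 1 3
    ndF3q3 ndF2q3 pcF1 Cut.none Ext.none :=
  certFK0 (fam := false) (s1 := true) (s2 := true) (a := 3) (b := 1) (c := 3) (cn := .dn) (n1 := ndF3q3) (n2 := ndF2q3) (pc := pcF1) (cut := Cut.none) (xt := Ext.none) (P1 := 0) (W1 := 1230186008) (P2 := 1610612736) (W2 := 536870912) (P3 := 67108864) (W3 := 67108864)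
    rfl rfl rfl k0_pp_313

noncomputable def f_pm_001 : ℕ → ℕ → ℕ → ℕ → Bool := onCell 0 536870912 536870912 536870912 67108864 67108864
    (rowFK 0 false true false .up 0 0 1 (qsf 0 536870912 536870912 536870912 0) ndF3q0 ndF2q1 pcF0 Cut.none Ext.none)

def k0_pm_001 : ∃ t, chk3 f_pm_001 t 1 1 1 = true :=
  ⟨(l 4), by decide +kernel⟩

theorem c_pm_001 : CertF 0 536870912 536870912 536870912 67108864 67108864 false true false .up 0 0 1
    ndF3q0 ndF2q1 pcF0 Cut.none Ext.none :=
  certFK0 (fam := false) (s1 := true) (s2 := false) (a := 0) (b := 0) (c := 1) (cn := .up) (n1 := ndF3q0) (n2 := ndF2q1) (pc := pcF0) (cut := Cut.none) (xt := Ext.none) (P1 := 0) (W1 := 536870912) (P2 := 536870912) (W2 := 536870912) (P3 := 67108864) (W3 := 67108864)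
    rfl rfl rfl k0_pm_001

noncomputable def f_pm_011 : ℕ → ℕ → ℕ → ℕ → Bool := onCell 0 536870912 536870912 536870912 67108864 67108864
    (rowFK 0 false true false .pnn 0 1 1 (qsf 0 536870912 536870912 536870912 1) ndF3q0 ndF2q1 pcF1 Cut.none Ext.none)

def k0_pm_011 : ∃ t, chk3 f_pm_011 t 1 1 1 = true :=
  ⟨(l 4), by decide +kernel⟩

theorem c_pm_011 : CertF 0 536870912 536870912 536870912 67108864 67108864 false true false .pnn 0 1 1
    ndF3q0 ndF2q1 pcF1 Cut.none Ext.none :=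
  certFK0 (fam := false) (s1 := true) (s2 := false) (a := 0) (b := 1) (c := 1) (cn := .pnn) (n1 := ndF3q0) (n2 := ndF2q1) (pc := pcF1) (cut := Cut.none) (xt := Ext.none) (P1 := 0) (W1 := 536870912) (P2 := 536870912) (W2 := 536870912) (P3 := 67108864) (W3 := 67108864)
    rfl rfl rfl k0_pm_011

noncomputable def f_pm_012_a : ℕ → ℕ → ℕ → ℕ → Bool := onCell 0 536870912 0 536870912 67108864 67108864
    (rowFK 0 false true false .pnp 0 1 2 (qsf 0 536870912 0 536870912 1) ndF3q0 ndF2q2a pcF1 Cut.none Ext.none)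

def k0_pm_012_a : ∃ t, chk3 f_pm_012_a t 1 1 1 = true :=
  ⟨(l 4), by decide +kernel⟩

theorem c_pm_012_a : CertF 0 536870912 0 536870912 67108864 67108864 false true false .pnp 0 1 2
    ndF3q0 ndF2q2a pcF1 Cut.none Ext.none :=
  certFK0 (fam := false) (s1 := true) (s2 := false) (a := 0) (b := 1) (c := 2) (cn := .pnp) (n1 := ndF3q0) (n2 := ndF2q2a) (pc := pcF1) (cut := Cut.none) (xt := Ext.none) (P1 := 0) (W1 := 536870912) (P2 := 0) (W2 := 536870912) (P3 := 67108864) (W3 := 67108864)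
    rfl rfl rfl k0_pm_012_a

noncomputable def f_pm_012_b : ℕ → ℕ → ℕ → ℕ → Bool := onCell 0 536870912 1239849684 370763052 67108864 67108864
    (rowFK 0 false true false .pnp 0 1 2 (qsf 0 536870912 1239849684 370763052 1) ndF3q0 ndF2q2b pcF1 Cut.none Ext.none)

def k0_pm_012_b : ∃ t, chk3 f_pm_012_b t 1 1 1 = true :=
  ⟨(l 4), by decide +kernel⟩

theorem c_pm_012_b : CertF 0 536870912 1239849684 370763052 67108864 67108864 false true false .pnp 0 1 2
    ndF3q0 ndF2q2b pcF1 Cut.none Ext.none :=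
  certFK0 (fam := false) (s1 := true) (s2 := false) (a := 0) (b := 1) (c := 2) (cn := .pnp) (n1 := ndF3q0) (n2 := ndF2q2b) (pc := pcF1) (cut := Cut.none) (xt := Ext.none) (P1 := 0) (W1 := 536870912) (P2 := 1239849684) (W2 := 370763052) (P3 := 67108864) (W3 := 67108864)
    rfl rfl rfl k0_pm_012_b

noncomputable def f_pm_022_a : ℕ → ℕ → ℕ → ℕ → Bool := onCell 0 536870912 0 536870912 67108864 67108864
    (rowFK 0 false true false .pp 0 2 2 (qsf 0 536870912 0 536870912 2) ndF3q0 ndF2q2a pcF2 Cut.none Ext.none)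

def k0_pm_022_a : ∃ t, chk3 f_pm_022_a t 1 1 1 = true :=
  ⟨(l 4), by decide +kernel⟩

theorem c_pm_022_a : CertF 0 536870912 0 536870912 67108864 67108864 false true false .pp 0 2 2
    ndF3q0 ndF2q2a pcF2 Cut.none Ext.none :=
  certFK0 (fam := false) (s1 := true) (s2 := false) (a := 0) (b := 2) (c := 2) (cn := .pp) (n1 := ndF3q0) (n2 := ndF2q2a) (pc := pcF2) (cut := Cut.none) (xt := Ext.none) (P1 := 0) (W1 := 536870912) (P2 := 0) (W2 := 536870912) (P3 := 67108864) (W3 := 67108864)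
    rfl rfl rfl k0_pm_022_a

noncomputable def f_pm_022_b : ℕ → ℕ → ℕ → ℕ → Bool := onCell 0 536870912 1239849684 370763052 67108864 67108864
    (rowFK 0 false true false .pp 0 2 2 (qsf 0 536870912 1239849684 370763052 2) ndF3q0 ndF2q2b pcF2 Cut.none Ext.none)

def k0_pm_022_b : ∃ t, chk3 f_pm_022_b t 1 1 1 = true :=
  ⟨(l 4), by decide +kernel⟩

theorem c_pm_022_b : CertF 0 536870912 1239849684 370763052 67108864 67108864 false true false .pp 0 2 2
    ndF3q0 ndF2q2b pcF2 Cut.none Ext.none :=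
  certFK0 (fam := false) (s1 := true) (s2 := false) (a := 0) (b := 2) (c := 2) (cn := .pp) (n1 := ndF3q0) (n2 := ndF2q2b) (pc := pcF2) (cut := Cut.none) (xt := Ext.none) (P1 := 0) (W1 := 536870912) (P2 := 1239849684) (W2 := 370763052) (P3 := 67108864) (W3 := 67108864)
    rfl rfl rfl k0_pm_022_b

noncomputable def f_pm_023 : ℕ → ℕ → ℕ → ℕ → Bool := onCell 0 536870912 1610612736 536870912 67108864 67108864
    (rowFK 0 false true false .up 0 2 3 (qsf 0 536870912 1610612736 536870912 2) ndF3q0 ndF2q3 pcF2 Cut.none Ext.none)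

def k0_pm_023 : ∃ t, chk3 f_pm_023 t 1 1 1 = true :=
  ⟨(l 4), by decide +kernel⟩

theorem c_pm_023 : CertF 0 536870912 1610612736 536870912 67108864 67108864 false true false .up 0 2 3
    ndF3q0 ndF2q3 pcF2 Cut.none Ext.none :=
  certFK0 (fam := false) (s1 := true) (s2 := false) (a := 0) (b := 2) (c := 3) (cn := .up) (n1 := ndF3q0) (n2 := ndF2q3) (pc := pcF2) (cut := Cut.none) (xt := Ext.none) (P1 := 0) (W1 := 536870912) (P2 := 1610612736) (W2 := 536870912) (P3 := 67108864) (W3 := 67108864)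
    rfl rfl rfl k0_pm_023

noncomputable def f_pm_033 : ℕ → ℕ → ℕ → ℕ → Bool := onCell 0 536870912 1610612736 536870912 67108864 67108864
    (rowFK 0 false true false .pnn 0 3 3 (qsf 0 536870912 1610612736 536870912 3) ndF3q0 ndF2q3 pcF3 Cut.none Ext.none)

def k0_pm_033 : ∃ t, chk3 f_pm_033 t 1 1 1 = true :=
  ⟨(l 4), by decide +kernel⟩

theorem c_pm_033 : CertF 0 536870912 1610612736 536870912 67108864 67108864 false true false .pnn 0 3 3
    ndF3q0 ndF2q3 pcF3 Cut.none Ext.none :=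
  certFK0 (fam := false) (s1 := true) (s2 := false) (a := 0) (b := 3) (c := 3) (cn := .pnn) (n1 := ndF3q0) (n2 := ndF2q3) (pc := pcF3) (cut := Cut.none) (xt := Ext.none) (P1 := 0) (W1 := 536870912) (P2 := 1610612736) (W2 := 536870912) (P3 := 67108864) (W3 := 67108864)
    rfl rfl rfl k0_pm_033

noncomputable def f_pm_101 : ℕ → ℕ → ℕ → ℕ → Bool := onCell 536870912 536870912 536870912 536870912 67108864 67108864
    (rowFK 0 false true false .npn 1 0 1 (qsf 536870912 536870912 536870912 536870912 0) ndF3q1 ndF2q1 pcF0 Cut.none Ext.none)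

def k0_pm_101 : ∃ t, chk3 f_pm_101 t 1 1 1 = true :=
  ⟨(l 4), by decide +kernel⟩

theorem c_pm_101 : CertF 536870912 536870912 536870912 536870912 67108864 67108864 false true false .npn 1 0 1
    ndF3q1 ndF2q1 pcF0 Cut.none Ext.none :=
  certFK0 (fam := false) (s1 := true) (s2 := false) (a := 1) (b := 0) (c := 1) (cn := .npn) (n1 := ndF3q1) (n2 := ndF2q1) (pc := pcF0) (cut := Cut.none) (xt := Ext.none) (P1 := 536870912) (W1 := 536870912) (P2 := 536870912) (W2 := 536870912) (P3 := 67108864) (W3 := 67108864)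
    rfl rfl rfl k0_pm_101

noncomputable def f_pm_102_a : ℕ → ℕ → ℕ → ℕ → Bool := onCell 536870912 536870912 0 536870912 67108864 67108864
    (rowFK 0 false true false .npp 1 0 2 (qsf 536870912 536870912 0 536870912 0) ndF3q1 ndF2q2a pcF0 Cut.none Ext.none)

def k0_pm_102_a : ∃ t, chk3 f_pm_102_a t 1 1 1 = true :=
  ⟨(l 4), by decide +kernel⟩

theorem c_pm_102_a : CertF 536870912 536870912 0 536870912 67108864 67108864 false true false .npp 1 0 2
    ndF3q1 ndF2q2a pcF0 Cut.none Ext.none :=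
  certFK0 (fam := false) (s1 := true) (s2 := false) (a := 1) (b := 0) (c := 2) (cn := .npp) (n1 := ndF3q1) (n2 := ndF2q2a) (pc := pcF0) (cut := Cut.none) (xt := Ext.none) (P1 := 536870912) (W1 := 536870912) (P2 := 0) (W2 := 536870912) (P3 := 67108864) (W3 := 67108864)
    rfl rfl rfl k0_pm_102_a

noncomputable def f_pm_102_b : ℕ → ℕ → ℕ → ℕ → Bool := onCell 536870912 536870912 1239849684 370763052 67108864 67108864
    (rowFK 0 false true false .npp 1 0 2 (qsf 536870912 536870912 1239849684 370763052 0) ndF3q1 ndF2q2b pcF0 Cut.none Ext.none)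

def k0_pm_102_b : ∃ t, chk3 f_pm_102_b t 1 1 1 = true :=
  ⟨(l 4), by decide +kernel⟩

theorem c_pm_102_b : CertF 536870912 536870912 1239849684 370763052 67108864 67108864 false true false .npp 1 0 2
    ndF3q1 ndF2q2b pcF0 Cut.none Ext.none :=
  certFK0 (fam := false) (s1 := true) (s2 := false) (a := 1) (b := 0) (c := 2) (cn := .npp) (n1 := ndF3q1) (n2 := ndF2q2b) (pc := pcF0) (cut := Cut.none) (xt := Ext.none) (P1 := 536870912) (W1 := 536870912) (P2 := 1239849684) (W2 := 370763052) (P3 := 67108864) (W3 := 67108864)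
    rfl rfl rfl k0_pm_102_b

noncomputable def f_pm_112_a : ℕ → ℕ → ℕ → ℕ → Bool := onCell 536870912 536870912 0 536870912 67108864 67108864
    (rowFK 0 false true false .dn 1 1 2 (qsf 536870912 536870912 0 536870912 1) ndF3q1 ndF2q2a pcF1 Cut.none Ext.none)

def k0_pm_112_a : ∃ t, chk3 f_pm_112_a t 1 1 1 = true :=
  ⟨(l 4), by decide +kernel⟩

theorem c_pm_112_a : CertF 536870912 536870912 0 536870912 67108864 67108864 false true false .dn 1 1 2
    ndF3q1 ndF2q2a pcF1 Cut.none Ext.none :=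
  certFK0 (fam := false) (s1 := true) (s2 := false) (a := 1) (b := 1) (c := 2) (cn := .dn) (n1 := ndF3q1) (n2 := ndF2q2a) (pc := pcF1) (cut := Cut.none) (xt := Ext.none) (P1 := 536870912) (W1 := 536870912) (P2 := 0) (W2 := 536870912) (P3 := 67108864) (W3 := 67108864)
    rfl rfl rfl k0_pm_112_a

noncomputable def f_pm_112_b : ℕ → ℕ → ℕ → ℕ → Bool := onCell 536870912 536870912 1239849684 370763052 67108864 67108864
    (rowFK 0 false true false .dn 1 1 2 (qsf 536870912 536870912 1239849684 370763052 1) ndF3q1 ndF2q2b pcF1 Cut.none Ext.none)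

def k0_pm_112_b : ∃ t, chk3 f_pm_112_b t 1 1 1 = true :=
  ⟨(l 4), by decide +kernel⟩

theorem c_pm_112_b : CertF 536870912 536870912 1239849684 370763052 67108864 67108864 false true false .dn 1 1 2
    ndF3q1 ndF2q2b pcF1 Cut.none Ext.none :=
  certFK0 (fam := false) (s1 := true) (s2 := false) (a := 1) (b := 1) (c := 2) (cn := .dn) (n1 := ndF3q1) (n2 := ndF2q2b) (pc := pcF1) (cut := Cut.none) (xt := Ext.none) (P1 := 536870912) (W1 := 536870912) (P2 := 1239849684) (W2 := 370763052) (P3 := 67108864) (W3 := 67108864)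
    rfl rfl rfl k0_pm_112_b

noncomputable def f_pm_113 : ℕ → ℕ → ℕ → ℕ → Bool := onCell 536870912 536870912 1610612736 536870912 67108864 67108864
    (rowFK 0 false true false .nn 1 1 3 (qsf 536870912 536870912 1610612736 536870912 1) ndF3q1 ndF2q3 pcF1 Cut.none Ext.none)

def k0_pm_113 : ∃ t, chk3 f_pm_113 t 1 1 1 = true :=
  ⟨(a (l 4) (b (l 4) (b (l 4) (b (l 4) (b (l 4) (l 17096088)))))), by decide +kernel⟩

theorem c_pm_113 : CertF 536870912 536870912 1610612736 536870912 67108864 67108864 false true false .nn 1 1 3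
    ndF3q1 ndF2q3 pcF1 Cut.none Ext.none :=
  certFK0 (fam := false) (s1 := true) (s2 := false) (a := 1) (b := 1) (c := 3) (cn := .nn) (n1 := ndF3q1) (n2 := ndF2q3) (pc := pcF1) (cut := Cut.none) (xt := Ext.none) (P1 := 536870912) (W1 := 536870912) (P2 := 1610612736) (W2 := 536870912) (P3 := 67108864) (W3 := 67108864)
    rfl rfl rfl k0_pm_113

noncomputable def f_pm_123 : ℕ → ℕ → ℕ → ℕ → Bool := onCell 1073741824 536870912 1610612736 536870912 67108864 67108864
    (rowFK 2 false true false .npn 1 2 3 (qsf 536870912 536870912 1610612736 536870912 2) ndF3q1 ndF2q3 pcF2 Cut.none Ext.none)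

def k0_pm_123 : ∃ t, chk3 f_pm_123 t 1 1 1 = true :=
  ⟨(a (b (l 4) (a (l 17219280) (l 4))) (l 4)), by decide +kernel⟩

theorem c_pm_123 : CertF 536870912 536870912 1610612736 536870912 67108864 67108864 false true false .npn 1 2 3
    ndF3q1 ndF2q3 pcF2 Cut.none Ext.none :=
  certFK2 (fam := false) (s1 := true) (s2 := false) (a := 1) (b := 2) (c := 3) (cn := .npn) (n1 := ndF3q1) (n2 := ndF2q3) (pc := pcF2) (cut := Cut.none) (xt := Ext.none) (P1 := 536870912) (W1 := 536870912) (P2 := 1610612736) (W2 := 536870912) (P3 := 67108864) (W3 := 67108864)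
    rfl rfl rfl (fun _ => rfl) k0_pm_123

noncomputable def f_pm_133 : ℕ → ℕ → ℕ → ℕ → Bool := onCell 536870912 536870912 1610612736 536870912 67108864 67108864
    (rowFK 0 false true false .dn 1 3 3 (qsf 536870912 536870912 1610612736 536870912 3) ndF3q1 ndF2q3 pcF3 Cut.none Ext.none)

def k0_pm_133 : ∃ t, chk3 f_pm_133 t 1 1 1 = true :=
  ⟨(a (l 4) (l 1)), by decide +kernel⟩

theorem c_pm_133 : CertF 536870912 536870912 1610612736 536870912 67108864 67108864 false true false .dn 1 3 3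
    ndF3q1 ndF2q3 pcF3 Cut.none Ext.none :=
  certFK0 (fam := false) (s1 := true) (s2 := false) (a := 1) (b := 3) (c := 3) (cn := .dn) (n1 := ndF3q1) (n2 := ndF2q3) (pc := pcF3) (cut := Cut.none) (xt := Ext.none) (P1 := 536870912) (W1 := 536870912) (P2 := 1610612736) (W2 := 536870912) (P3 := 67108864) (W3 := 67108864)
    rfl rfl rfl k0_pm_133

noncomputable def f_pm_202_a : ℕ → ℕ → ℕ → ℕ → Bool := onCell 1073741824 536870912 0 536870912 67108864 67108864
    (rowFK 0 false true false .pp 2 0 2 (qsf 1073741824 536870912 0 536870912 0) ndF3q2 ndF2q2a pcF0 Cut.none Ext.none)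

def k0_pm_202_a : ∃ t, chk3 f_pm_202_a t 1 1 1 = true :=
  ⟨(a (b (a (a (b (l 18669896) (l 18792640)) (l 18894840)) (l 18941328)) (a (b (l 19038568) (b (l 19210600) (l 19350432))) (b (l 1) (l 1)))) (l 1)), by decide +kernel⟩

theorem c_pm_202_a : CertF 1073741824 536870912 0 536870912 67108864 67108864 false true false .pp 2 0 2
    ndF3q2 ndF2q2a pcF0 Cut.none Ext.none :=
  certFK0 (fam := false) (s1 := true) (s2 := false) (a := 2) (b := 0) (c := 2) (cn := .pp) (n1 := ndF3q2) (n2 := ndF2q2a) (pc := pcF0) (cut := Cut.none) (xt := Ext.none) (P1 := 1073741824) (W1 := 536870912) (P2 := 0) (W2 := 536870912) (P3 := 67108864) (W3 := 67108864)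
    rfl rfl rfl k0_pm_202_a

noncomputable def f_pm_202_b : ℕ → ℕ → ℕ → ℕ → Bool := onCell 0 536870912 1239849684 370763052 67108864 67108864
    (rowFK 2 false true false .pp 2 0 2 (qsf 1073741824 536870912 1239849684 370763052 0) ndF3q2 ndF2q2b pcF0 Cut.none Ext.none)

def k0_pm_202_b : ∃ t, chk3 f_pm_202_b t 1 1 1 = true :=
  ⟨(a (b (a (a (b (l 18623304) (l 18072504)) (l 18405896)) (b (l 18527152) (l 17921960))) (a (a (l 17503816) (l 17712968)) (b (l 17796784) (l 17917304)))) (a (b (l 253977162295) (a (l 17855344) (l 17750184))) (b (l 1) (b (l 17925912) (l 17710624))))), by decide +kernel⟩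

theorem c_pm_202_b : CertF 1073741824 536870912 1239849684 370763052 67108864 67108864 false true false .pp 2 0 2
    ndF3q2 ndF2q2b pcF0 Cut.none Ext.none :=
  certFK2 (fam := false) (s1 := true) (s2 := false) (a := 2) (b := 0) (c := 2) (cn := .pp) (n1 := ndF3q2) (n2 := ndF2q2b) (pc := pcF0) (cut := Cut.none) (xt := Ext.none) (P1 := 1073741824) (W1 := 536870912) (P2 := 1239849684) (W2 := 370763052) (P3 := 67108864) (W3 := 67108864)
    rfl rfl rfl (fun _ => rfl) k0_pm_202_b

noncomputable def f_pm_203 : ℕ → ℕ → ℕ → ℕ → Bool := onCell 0 536870912 1610612736 536870912 67108864 67108864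
    (rowFK 2 false true false .up 2 0 3 (qsf 1073741824 536870912 1610612736 536870912 0) ndF3q2 ndF2q3 pcF0 Cut.none Ext.none)

def k0_pm_203 : ∃ t, chk3 f_pm_203 t 1 1 1 = true :=
  ⟨(a (b (b (a (a (l 310417747223) (l 19088296)) (a (l 18758144) (l 18461448))) (a (l 410274597111) (l 18458984))) (b (a (l 2) (l 594955907767)) (l 2))) (b (a (b (b (l 18190976) (l 18085080)) (l 18095440)) (b (l 18078176) (b (l 17694968) (l 17726320)))) (a (b (l 17797136) (l 3)) (b (l 17631072) (l 210085504903))))), by decide +kernel⟩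

theorem c_pm_203 : CertF 1073741824 536870912 1610612736 536870912 67108864 67108864 false true false .up 2 0 3
    ndF3q2 ndF2q3 pcF0 Cut.none Ext.none :=
  certFK2 (fam := false) (s1 := true) (s2 := false) (a := 2) (b := 0) (c := 3) (cn := .up) (n1 := ndF3q2) (n2 := ndF2q3) (pc := pcF0) (cut := Cut.none) (xt := Ext.none) (P1 := 1073741824) (W1 := 536870912) (P2 := 1610612736) (W2 := 536870912) (P3 := 67108864) (W3 := 67108864)
    rfl rfl rfl (fun _ => rfl) k0_pm_203

noncomputable def f_pm_213 : ℕ → ℕ → ℕ → ℕ → Bool := onCell 536870912 536870912 1610612736 536870912 67108864 67108864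
    (rowFK 2 false true false .pnn 2 1 3 (qsf 1073741824 536870912 1610612736 536870912 1) ndF3q2 ndF2q3 pcF1 Cut.none Ext.none)

def k0_pm_213 : ∃ t, chk3 f_pm_213 t 1 1 1 = true :=
  ⟨(a (b (a (b (l 17645120) (l 17941768)) (b (l 17524960) (l 17628232))) (a (b (l 17804744) (l 149419701911)) (b (l 17784688) (l 17438952)))) (b (a (b (l 1) (a (l 17225728) (l 1))) (l 1)) (a (b (l 17578776) (l 17418376)) (b (a (l 17308512) (l 1)) (l 17240504))))), by decide +kernel⟩

theorem c_pm_213 : CertF 1073741824 536870912 1610612736 536870912 67108864 67108864 false true false .pnn 2 1 3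
    ndF3q2 ndF2q3 pcF1 Cut.none Ext.none :=
  certFK2 (fam := false) (s1 := true) (s2 := false) (a := 2) (b := 1) (c := 3) (cn := .pnn) (n1 := ndF3q2) (n2 := ndF2q3) (pc := pcF1) (cut := Cut.none) (xt := Ext.none) (P1 := 1073741824) (W1 := 536870912) (P2 := 1610612736) (W2 := 536870912) (P3 := 67108864) (W3 := 67108864)
    rfl rfl rfl (fun _ => rfl) k0_pm_213

noncomputable def f_pm_303 : ℕ → ℕ → ℕ → ℕ → Bool := onCell 0 1230186008 1610612736 536870912 67108864 67108864
    (rowFK 0 false true false .npn 3 0 3 (qsf 0 1230186008 1610612736 536870912 0) ndF3q3 ndF2q3 pcF0 Cut.none Ext.none)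

def k0_pm_303 : ∃ t, chk3 f_pm_303 t 1 1 1 = true :=
  ⟨(a (l 3) (a (b (l 3) (l 3)) (b (a (b (l 1) (l 3)) (b (a (b (l 1) (b (l 18969040) (l 18551496))) (b (a (l 18314960) (l 18268760)) (b (l 18495896) (l 18132296)))) (a (l 245520277447) (l 17519528)))) (a (l 3) (b (l 3) (l 3)))))), by decide +kernel⟩

theorem c_pm_303 : CertF 0 1230186008 1610612736 536870912 67108864 67108864 false true false .npn 3 0 3
    ndF3q3 ndF2q3 pcF0 Cut.none Ext.none :=
  certFK0 (fam := false) (s1 := true) (s2 := false) (a := 3) (b := 0) (c := 3) (cn := .npn) (n1 := ndF3q3) (n2 := ndF2q3) (pc := pcF0) (cut := Cut.none) (xt := Ext.none) (P1 := 0) (W1 := 1230186008) (P2 := 1610612736) (W2 := 536870912) (P3 := 67108864) (W3 := 67108864)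
    rfl rfl rfl k0_pm_303

noncomputable def f_pm_313 : ℕ → ℕ → ℕ → ℕ → Bool := onCell 0 1230186008 1610612736 536870912 67108864 67108864
    (rowFK 0 false true false .dn 3 1 3 (qsf 0 1230186008 1610612736 536870912 1) ndF3q3 ndF2q3 pcF1 Cut.none Ext.none)

def k0_pm_313 : ∃ t, chk3 f_pm_313 t 1 1 1 = true :=
  ⟨(a (l 1) (b (l 1) (b (l 1) (l 3)))), by decide +kernel⟩

theorem c_pm_313 : CertF 0 1230186008 1610612736 536870912 67108864 67108864 false true false .dn 3 1 3
    ndF3q3 ndF2q3 pcF1 Cut.none Ext.none :=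
  certFK0 (fam := false) (s1 := true) (s2 := false) (a := 3) (b := 1) (c := 3) (cn := .dn) (n1 := ndF3q3) (n2 := ndF2q3) (pc := pcF1) (cut := Cut.none) (xt := Ext.none) (P1 := 0) (W1 := 1230186008) (P2 := 1610612736) (W2 := 536870912) (P3 := 67108864) (W3 := 67108864)
    rfl rfl rfl k0_pm_313

noncomputable def f_mm_001 : ℕ → ℕ → ℕ → ℕ → Bool := onCell 0 536870912 536870912 536870912 67108864 67108864
    (rowFK 0 false false false .up 0 0 1 (qsf 0 536870912 536870912 536870912 0) ndF3q0 ndF2q1 pcF0 Cut.none Ext.none)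

def k0_mm_001 : ∃ t, chk3 f_mm_001 t 1 1 1 = true :=
  ⟨(l 3), by decide +kernel⟩

theorem c_mm_001 : CertF 0 536870912 536870912 536870912 67108864 67108864 false false false .up 0 0 1
    ndF3q0 ndF2q1 pcF0 Cut.none Ext.none :=
  certFK0 (fam := false) (s1 := false) (s2 := false) (a := 0) (b := 0) (c := 1) (cn := .up) (n1 := ndF3q0) (n2 := ndF2q1) (pc := pcF0) (cut := Cut.none) (xt := Ext.none) (P1 := 0) (W1 := 536870912) (P2 := 536870912) (W2 := 536870912) (P3 := 67108864) (W3 := 67108864)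
    rfl rfl rfl k0_mm_001

noncomputable def f_mm_011 : ℕ → ℕ → ℕ → ℕ → Bool := onCell 0 536870912 536870912 536870912 67108864 67108864
    (rowFK 0 false false false .pnn 0 1 1 (qsf 0 536870912 536870912 536870912 1) ndF3q0 ndF2q1 pcF1 Cut.none Ext.none)

def k0_mm_011 : ∃ t, chk3 f_mm_011 t 1 1 1 = true :=
  ⟨(l 3), by decide +kernel⟩

theorem c_mm_011 : CertF 0 536870912 536870912 536870912 67108864 67108864 false false false .pnn 0 1 1
    ndF3q0 ndF2q1 pcF1 Cut.none Ext.none :=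
  certFK0 (fam := false) (s1 := false) (s2 := false) (a := 0) (b := 1) (c := 1) (cn := .pnn) (n1 := ndF3q0) (n2 := ndF2q1) (pc := pcF1) (cut := Cut.none) (xt := Ext.none) (P1 := 0) (W1 := 536870912) (P2 := 536870912) (W2 := 536870912) (P3 := 67108864) (W3 := 67108864)
    rfl rfl rfl k0_mm_011

noncomputable def f_mm_012_a : ℕ → ℕ → ℕ → ℕ → Bool := onCell 0 536870912 0 536870912 67108864 67108864
    (rowFK 0 false false false .pnp 0 1 2 (qsf 0 536870912 0 536870912 1) ndF3q0 ndF2q2a pcF1 Cut.none Ext.none)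

def k0_mm_012_a : ∃ t, chk3 f_mm_012_a t 1 1 1 = true :=
  ⟨(l 5), by decide +kernel⟩

theorem c_mm_012_a : CertF 0 536870912 0 536870912 67108864 67108864 false false false .pnp 0 1 2
    ndF3q0 ndF2q2a pcF1 Cut.none Ext.none :=
  certFK0 (fam := false) (s1 := false) (s2 := false) (a := 0) (b := 1) (c := 2) (cn := .pnp) (n1 := ndF3q0) (n2 := ndF2q2a) (pc := pcF1) (cut := Cut.none) (xt := Ext.none) (P1 := 0) (W1 := 536870912) (P2 := 0) (W2 := 536870912) (P3 := 67108864) (W3 := 67108864)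
    rfl rfl rfl k0_mm_012_a

noncomputable def f_mm_012_b : ℕ → ℕ → ℕ → ℕ → Bool := onCell 0 536870912 1239849684 370763052 67108864 67108864
    (rowFK 0 false false false .pnp 0 1 2 (qsf 0 536870912 1239849684 370763052 1) ndF3q0 ndF2q2b pcF1 Cut.none Ext.none)

def k0_mm_012_b : ∃ t, chk3 f_mm_012_b t 1 1 1 = true :=
  ⟨(l 5), by decide +kernel⟩

theorem c_mm_012_b : CertF 0 536870912 1239849684 370763052 67108864 67108864 false false false .pnp 0 1 2
    ndF3q0 ndF2q2b pcF1 Cut.none Ext.none :=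
  certFK0 (fam := false) (s1 := false) (s2 := false) (a := 0) (b := 1) (c := 2) (cn := .pnp) (n1 := ndF3q0) (n2 := ndF2q2b) (pc := pcF1) (cut := Cut.none) (xt := Ext.none) (P1 := 0) (W1 := 536870912) (P2 := 1239849684) (W2 := 370763052) (P3 := 67108864) (W3 := 67108864)
    rfl rfl rfl k0_mm_012_b

noncomputable def f_mm_022_a : ℕ → ℕ → ℕ → ℕ → Bool := onCell 0 536870912 0 536870912 67108864 67108864
    (rowFK 0 false false false .pp 0 2 2 (qsf 0 536870912 0 536870912 2) ndF3q0 ndF2q2a pcF2 Cut.none Ext.none)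

def k0_mm_022_a : ∃ t, chk3 f_mm_022_a t 1 1 1 = true :=
  ⟨(l 5), by decide +kernel⟩

theorem c_mm_022_a : CertF 0 536870912 0 536870912 67108864 67108864 false false false .pp 0 2 2
    ndF3q0 ndF2q2a pcF2 Cut.none Ext.none :=
  certFK0 (fam := false) (s1 := false) (s2 := false) (a := 0) (b := 2) (c := 2) (cn := .pp) (n1 := ndF3q0) (n2 := ndF2q2a) (pc := pcF2) (cut := Cut.none) (xt := Ext.none) (P1 := 0) (W1 := 536870912) (P2 := 0) (W2 := 536870912) (P3 := 67108864) (W3 := 67108864)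
    rfl rfl rfl k0_mm_022_a

noncomputable def f_mm_022_b : ℕ → ℕ → ℕ → ℕ → Bool := onCell 0 536870912 1239849684 370763052 67108864 67108864
    (rowFK 0 false false false .pp 0 2 2 (qsf 0 536870912 1239849684 370763052 2) ndF3q0 ndF2q2b pcF2 Cut.none Ext.none)

def k0_mm_022_b : ∃ t, chk3 f_mm_022_b t 1 1 1 = true :=
  ⟨(l 5), by decide +kernel⟩

theorem c_mm_022_b : CertF 0 536870912 1239849684 370763052 67108864 67108864 false false false .pp 0 2 2
    ndF3q0 ndF2q2b pcF2 Cut.none Ext.none :=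
  certFK0 (fam := false) (s1 := false) (s2 := false) (a := 0) (b := 2) (c := 2) (cn := .pp) (n1 := ndF3q0) (n2 := ndF2q2b) (pc := pcF2) (cut := Cut.none) (xt := Ext.none) (P1 := 0) (W1 := 536870912) (P2 := 1239849684) (W2 := 370763052) (P3 := 67108864) (W3 := 67108864)
    rfl rfl rfl k0_mm_022_b

noncomputable def f_mm_023 : ℕ → ℕ → ℕ → ℕ → Bool := onCell 0 536870912 1610612736 536870912 67108864 67108864
    (rowFK 0 false false false .up 0 2 3 (qsf 0 536870912 1610612736 536870912 2) ndF3q0 ndF2q3 pcF2 Cut.none Ext.none)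

def k0_mm_023 : ∃ t, chk3 f_mm_023 t 1 1 1 = true :=
  ⟨(l 5), by decide +kernel⟩

theorem c_mm_023 : CertF 0 536870912 1610612736 536870912 67108864 67108864 false false false .up 0 2 3
    ndF3q0 ndF2q3 pcF2 Cut.none Ext.none :=
  certFK0 (fam := false) (s1 := false) (s2 := false) (a := 0) (b := 2) (c := 3) (cn := .up) (n1 := ndF3q0) (n2 := ndF2q3) (pc := pcF2) (cut := Cut.none) (xt := Ext.none) (P1 := 0) (W1 := 536870912) (P2 := 1610612736) (W2 := 536870912) (P3 := 67108864) (W3 := 67108864)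
    rfl rfl rfl k0_mm_023

noncomputable def f_mm_033 : ℕ → ℕ → ℕ → ℕ → Bool := onCell 0 536870912 1610612736 536870912 67108864 67108864
    (rowFK 0 false false false .pnn 0 3 3 (qsf 0 536870912 1610612736 536870912 3) ndF3q0 ndF2q3 pcF3 Cut.none Ext.none)

def k0_mm_033 : ∃ t, chk3 f_mm_033 t 1 1 1 = true :=
  ⟨(l 5), by decide +kernel⟩

theorem c_mm_033 : CertF 0 536870912 1610612736 536870912 67108864 67108864 false false false .pnn 0 3 3
    ndF3q0 ndF2q3 pcF3 Cut.none Ext.none :=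
  certFK0 (fam := false) (s1 := false) (s2 := false) (a := 0) (b := 3) (c := 3) (cn := .pnn) (n1 := ndF3q0) (n2 := ndF2q3) (pc := pcF3) (cut := Cut.none) (xt := Ext.none) (P1 := 0) (W1 := 536870912) (P2 := 1610612736) (W2 := 536870912) (P3 := 67108864) (W3 := 67108864)
    rfl rfl rfl k0_mm_033

noncomputable def f_mm_101 : ℕ → ℕ → ℕ → ℕ → Bool := onCell 536870912 536870912 536870912 536870912 67108864 67108864
    (rowFK 0 false false false .npn 1 0 1 (qsf 536870912 536870912 536870912 536870912 0) ndF3q1 ndF2q1 pcF0 Cut.none Ext.none)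

def k0_mm_101 : ∃ t, chk3 f_mm_101 t 1 1 1 = true :=
  ⟨(l 3), by decide +kernel⟩

theorem c_mm_101 : CertF 536870912 536870912 536870912 536870912 67108864 67108864 false false false .npn 1 0 1
    ndF3q1 ndF2q1 pcF0 Cut.none Ext.none :=
  certFK0 (fam := false) (s1 := false) (s2 := false) (a := 1) (b := 0) (c := 1) (cn := .npn) (n1 := ndF3q1) (n2 := ndF2q1) (pc := pcF0) (cut := Cut.none) (xt := Ext.none) (P1 := 536870912) (W1 := 536870912) (P2 := 536870912) (W2 := 536870912) (P3 := 67108864) (W3 := 67108864)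
    rfl rfl rfl k0_mm_101

noncomputable def f_mm_102_a : ℕ → ℕ → ℕ → ℕ → Bool := onCell 536870912 536870912 0 536870912 67108864 67108864
    (rowFK 0 false false false .npp 1 0 2 (qsf 536870912 536870912 0 536870912 0) ndF3q1 ndF2q2a pcF0 Cut.none Ext.none)

def k0_mm_102_a : ∃ t, chk3 f_mm_102_a t 1 1 1 = true :=
  ⟨(l 5), by decide +kernel⟩

theorem c_mm_102_a : CertF 536870912 536870912 0 536870912 67108864 67108864 false false false .npp 1 0 2
    ndF3q1 ndF2q2a pcF0 Cut.none Ext.none :=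
  certFK0 (fam := false) (s1 := false) (s2 := false) (a := 1) (b := 0) (c := 2) (cn := .npp) (n1 := ndF3q1) (n2 := ndF2q2a) (pc := pcF0) (cut := Cut.none) (xt := Ext.none) (P1 := 536870912) (W1 := 536870912) (P2 := 0) (W2 := 536870912) (P3 := 67108864) (W3 := 67108864)
    rfl rfl rfl k0_mm_102_a

noncomputable def f_mm_102_b : ℕ → ℕ → ℕ → ℕ → Bool := onCell 536870912 536870912 1239849684 370763052 67108864 67108864
    (rowFK 0 false false false .npp 1 0 2 (qsf 536870912 536870912 1239849684 370763052 0) ndF3q1 ndF2q2b pcF0 Cut.none Ext.none)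

def k0_mm_102_b : ∃ t, chk3 f_mm_102_b t 1 1 1 = true :=
  ⟨(l 5), by decide +kernel⟩

theorem c_mm_102_b : CertF 536870912 536870912 1239849684 370763052 67108864 67108864 false false false .npp 1 0 2
    ndF3q1 ndF2q2b pcF0 Cut.none Ext.none :=
  certFK0 (fam := false) (s1 := false) (s2 := false) (a := 1) (b := 0) (c := 2) (cn := .npp) (n1 := ndF3q1) (n2 := ndF2q2b) (pc := pcF0) (cut := Cut.none) (xt := Ext.none) (P1 := 536870912) (W1 := 536870912) (P2 := 1239849684) (W2 := 370763052) (P3 := 67108864) (W3 := 67108864)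
    rfl rfl rfl k0_mm_102_b

noncomputable def f_mm_112_a : ℕ → ℕ → ℕ → ℕ → Bool := onCell 536870912 536870912 0 536870912 67108864 67108864
    (rowFK 0 false false false .dn 1 1 2 (qsf 536870912 536870912 0 536870912 1) ndF3q1 ndF2q2a pcF1 Cut.none Ext.none)

def k0_mm_112_a : ∃ t, chk3 f_mm_112_a t 1 1 1 = true :=
  ⟨(l 5), by decide +kernel⟩

theorem c_mm_112_a : CertF 536870912 536870912 0 536870912 67108864 67108864 false false false .dn 1 1 2
    ndF3q1 ndF2q2a pcF1 Cut.none Ext.none :=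
  certFK0 (fam := false) (s1 := false) (s2 := false) (a := 1) (b := 1) (c := 2) (cn := .dn) (n1 := ndF3q1) (n2 := ndF2q2a) (pc := pcF1) (cut := Cut.none) (xt := Ext.none) (P1 := 536870912) (W1 := 536870912) (P2 := 0) (W2 := 536870912) (P3 := 67108864) (W3 := 67108864)
    rfl rfl rfl k0_mm_112_a

noncomputable def f_mm_112_b : ℕ → ℕ → ℕ → ℕ → Bool := onCell 536870912 536870912 1239849684 370763052 67108864 67108864
    (rowFK 0 false false false .dn 1 1 2 (qsf 536870912 536870912 1239849684 370763052 1) ndF3q1 ndF2q2b pcF1 Cut.none Ext.none)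

def k0_mm_112_b : ∃ t, chk3 f_mm_112_b t 1 1 1 = true :=
  ⟨(l 5), by decide +kernel⟩

theorem c_mm_112_b : CertF 536870912 536870912 1239849684 370763052 67108864 67108864 false false false .dn 1 1 2
    ndF3q1 ndF2q2b pcF1 Cut.none Ext.none :=
  certFK0 (fam := false) (s1 := false) (s2 := false) (a := 1) (b := 1) (c := 2) (cn := .dn) (n1 := ndF3q1) (n2 := ndF2q2b) (pc := pcF1) (cut := Cut.none) (xt := Ext.none) (P1 := 536870912) (W1 := 536870912) (P2 := 1239849684) (W2 := 370763052) (P3 := 67108864) (W3 := 67108864)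
    rfl rfl rfl k0_mm_112_b

noncomputable def f_mm_113 : ℕ → ℕ → ℕ → ℕ → Bool := onCell 536870912 536870912 1610612736 536870912 67108864 67108864
    (rowFK 0 false false false .nn 1 1 3 (qsf 536870912 536870912 1610612736 536870912 1) ndF3q1 ndF2q3 pcF1 Cut.none Ext.none)

def k0_mm_113 : ∃ t, chk3 f_mm_113 t 1 1 1 = true :=
  ⟨(l 5), by decide +kernel⟩

theorem c_mm_113 : CertF 536870912 536870912 1610612736 536870912 67108864 67108864 false false false .nn 1 1 3
    ndF3q1 ndF2q3 pcF1 Cut.none Ext.none :=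
  certFK0 (fam := false) (s1 := false) (s2 := false) (a := 1) (b := 1) (c := 3) (cn := .nn) (n1 := ndF3q1) (n2 := ndF2q3) (pc := pcF1) (cut := Cut.none) (xt := Ext.none) (P1 := 536870912) (W1 := 536870912) (P2 := 1610612736) (W2 := 536870912) (P3 := 67108864) (W3 := 67108864)
    rfl rfl rfl k0_mm_113

noncomputable def f_mm_123 : ℕ → ℕ → ℕ → ℕ → Bool := onCell 536870912 536870912 1610612736 536870912 67108864 67108864
    (rowFK 0 false false false .npn 1 2 3 (qsf 536870912 536870912 1610612736 536870912 2) ndF3q1 ndF2q3 pcF2 Cut.none Ext.none)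

def k0_mm_123 : ∃ t, chk3 f_mm_123 t 1 1 1 = true :=
  ⟨(l 5), by decide +kernel⟩

theorem c_mm_123 : CertF 536870912 536870912 1610612736 536870912 67108864 67108864 false false false .npn 1 2 3
    ndF3q1 ndF2q3 pcF2 Cut.none Ext.none :=
  certFK0 (fam := false) (s1 := false) (s2 := false) (a := 1) (b := 2) (c := 3) (cn := .npn) (n1 := ndF3q1) (n2 := ndF2q3) (pc := pcF2) (cut := Cut.none) (xt := Ext.none) (P1 := 536870912) (W1 := 536870912) (P2 := 1610612736) (W2 := 536870912) (P3 := 67108864) (W3 := 67108864)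
    rfl rfl rfl k0_mm_123

noncomputable def f_mm_133 : ℕ → ℕ → ℕ → ℕ → Bool := onCell 536870912 536870912 1610612736 536870912 67108864 67108864
    (rowFK 0 false false false .dn 1 3 3 (qsf 536870912 536870912 1610612736 536870912 3) ndF3q1 ndF2q3 pcF3 Cut.none Ext.none)

def k0_mm_133 : ∃ t, chk3 f_mm_133 t 1 1 1 = true :=
  ⟨(l 5), by decide +kernel⟩

theorem c_mm_133 : CertF 536870912 536870912 1610612736 536870912 67108864 67108864 false false false .dn 1 3 3
    ndF3q1 ndF2q3 pcF3 Cut.none Ext.none :=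
  certFK0 (fam := false) (s1 := false) (s2 := false) (a := 1) (b := 3) (c := 3) (cn := .dn) (n1 := ndF3q1) (n2 := ndF2q3) (pc := pcF3) (cut := Cut.none) (xt := Ext.none) (P1 := 536870912) (W1 := 536870912) (P2 := 1610612736) (W2 := 536870912) (P3 := 67108864) (W3 := 67108864)
    rfl rfl rfl k0_mm_133

noncomputable def f_mm_202_a : ℕ → ℕ → ℕ → ℕ → Bool := onCell 1073741824 536870912 0 536870912 67108864 67108864
    (rowFK 0 false false false .pp 2 0 2 (qsf 1073741824 536870912 0 536870912 0) ndF3q2 ndF2q2a pcF0 Cut.none Ext.none)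

def k0_mm_202_a : ∃ t, chk3 f_mm_202_a t 1 1 1 = true :=
  ⟨(l 3), by decide +kernel⟩

theorem c_mm_202_a : CertF 1073741824 536870912 0 536870912 67108864 67108864 false false false .pp 2 0 2
    ndF3q2 ndF2q2a pcF0 Cut.none Ext.none :=
  certFK0 (fam := false) (s1 := false) (s2 := false) (a := 2) (b := 0) (c := 2) (cn := .pp) (n1 := ndF3q2) (n2 := ndF2q2a) (pc := pcF0) (cut := Cut.none) (xt := Ext.none) (P1 := 1073741824) (W1 := 536870912) (P2 := 0) (W2 := 536870912) (P3 := 67108864) (W3 := 67108864)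
    rfl rfl rfl k0_mm_202_a

noncomputable def f_mm_202_b : ℕ → ℕ → ℕ → ℕ → Bool := onCell 1073741824 536870912 1239849684 370763052 67108864 67108864
    (rowFK 0 false false false .pp 2 0 2 (qsf 1073741824 536870912 1239849684 370763052 0) ndF3q2 ndF2q2b pcF0 Cut.none Ext.none)

def k0_mm_202_b : ∃ t, chk3 f_mm_202_b t 1 1 1 = true :=
  ⟨(l 3), by decide +kernel⟩

theorem c_mm_202_b : CertF 1073741824 536870912 1239849684 370763052 67108864 67108864 false false false .pp 2 0 2
    ndF3q2 ndF2q2b pcF0 Cut.none Ext.none :=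
  certFK0 (fam := false) (s1 := false) (s2 := false) (a := 2) (b := 0) (c := 2) (cn := .pp) (n1 := ndF3q2) (n2 := ndF2q2b) (pc := pcF0) (cut := Cut.none) (xt := Ext.none) (P1 := 1073741824) (W1 := 536870912) (P2 := 1239849684) (W2 := 370763052) (P3 := 67108864) (W3 := 67108864)
    rfl rfl rfl k0_mm_202_b

noncomputable def f_mm_203 : ℕ → ℕ → ℕ → ℕ → Bool := onCell 1073741824 536870912 1610612736 536870912 67108864 67108864
    (rowFK 0 false false false .up 2 0 3 (qsf 1073741824 536870912 1610612736 536870912 0) ndF3q2 ndF2q3 pcF0 Cut.none Ext.none)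

def k0_mm_203 : ∃ t, chk3 f_mm_203 t 1 1 1 = true :=
  ⟨(l 5), by decide +kernel⟩

theorem c_mm_203 : CertF 1073741824 536870912 1610612736 536870912 67108864 67108864 false false false .up 2 0 3
    ndF3q2 ndF2q3 pcF0 Cut.none Ext.none :=
  certFK0 (fam := false) (s1 := false) (s2 := false) (a := 2) (b := 0) (c := 3) (cn := .up) (n1 := ndF3q2) (n2 := ndF2q3) (pc := pcF0) (cut := Cut.none) (xt := Ext.none) (P1 := 1073741824) (W1 := 536870912) (P2 := 1610612736) (W2 := 536870912) (P3 := 67108864) (W3 := 67108864)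
    rfl rfl rfl k0_mm_203

noncomputable def f_mm_213 : ℕ → ℕ → ℕ → ℕ → Bool := onCell 1073741824 536870912 1610612736 536870912 67108864 67108864
    (rowFK 0 false false false .pnn 2 1 3 (qsf 1073741824 536870912 1610612736 536870912 1) ndF3q2 ndF2q3 pcF1 Cut.none Ext.none)

def k0_mm_213 : ∃ t, chk3 f_mm_213 t 1 1 1 = true :=
  ⟨(l 5), by decide +kernel⟩

theorem c_mm_213 : CertF 1073741824 536870912 1610612736 536870912 67108864 67108864 false false false .pnn 2 1 3
    ndF3q2 ndF2q3 pcF1 Cut.none Ext.none :=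
  certFK0 (fam := false) (s1 := false) (s2 := false) (a := 2) (b := 1) (c := 3) (cn := .pnn) (n1 := ndF3q2) (n2 := ndF2q3) (pc := pcF1) (cut := Cut.none) (xt := Ext.none) (P1 := 1073741824) (W1 := 536870912) (P2 := 1610612736) (W2 := 536870912) (P3 := 67108864) (W3 := 67108864)
    rfl rfl rfl k0_mm_213

noncomputable def f_mm_303 : ℕ → ℕ → ℕ → ℕ → Bool := onCell 0 1230186008 1610612736 536870912 67108864 67108864
    (rowFK 0 false false false .npn 3 0 3 (qsf 0 1230186008 1610612736 536870912 0) ndF3q3 ndF2q3 pcF0 Cut.none Ext.none)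

def k0_mm_303 : ∃ t, chk3 f_mm_303 t 1 1 1 = true :=
  ⟨(a (l 3) (l 3)), by decide +kernel⟩

theorem c_mm_303 : CertF 0 1230186008 1610612736 536870912 67108864 67108864 false false false .npn 3 0 3
    ndF3q3 ndF2q3 pcF0 Cut.none Ext.none :=
  certFK0 (fam := false) (s1 := false) (s2 := false) (a := 3) (b := 0) (c := 3) (cn := .npn) (n1 := ndF3q3) (n2 := ndF2q3) (pc := pcF0) (cut := Cut.none) (xt := Ext.none) (P1 := 0) (W1 := 1230186008) (P2 := 1610612736) (W2 := 536870912) (P3 := 67108864) (W3 := 67108864)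
    rfl rfl rfl k0_mm_303

noncomputable def f_mm_313 : ℕ → ℕ → ℕ → ℕ → Bool := onCell 0 1230186008 1610612736 536870912 67108864 67108864
    (rowFK 0 false false false .dn 3 1 3 (qsf 0 1230186008 1610612736 536870912 1) ndF3q3 ndF2q3 pcF1 Cut.none Ext.none)

def k0_mm_313 : ∃ t, chk3 f_mm_313 t 1 1 1 = true :=
  ⟨(a (l 1) (l 3)), by decide +kernel⟩

theorem c_mm_313 : CertF 0 1230186008 1610612736 536870912 67108864 67108864 false false false .dn 3 1 3
    ndF3q3 ndF2q3 pcF1 Cut.none Ext.none :=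
  certFK0 (fam := false) (s1 := false) (s2 := false) (a := 3) (b := 1) (c := 3) (cn := .dn) (n1 := ndF3q3) (n2 := ndF2q3) (pc := pcF1) (cut := Cut.none) (xt := Ext.none) (P1 := 0) (W1 := 1230186008) (P2 := 1610612736) (W2 := 536870912) (P3 := 67108864) (W3 := 67108864)
    rfl rfl rfl k0_mm_313

end Pool.Agent.Strip051.G.I1_16_1_8.Tab.C.FB32

namespace Pool.Agent.Strip051.G.I1_16_1_8.Tab.C.FB33

open Pool.Agent.Strip051.PB Pool.Agent.Strip051.PB.T
open Pool.Agent.Strip051.G.I1_16_1_8.Tab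

noncomputable def f_pp_001 : ℕ → ℕ → ℕ → ℕ → Bool := onCell 0 536870912 536870912 536870912 67108864 67108864
    (rowFK 0 false true true .up 0 0 1 (qsf 0 536870912 536870912 536870912 0) ndF3q0 ndF3q1 pcF0 Cut.none Ext.none)

def k0_pp_001 : ∃ t, chk3 f_pp_001 t 1 1 1 = true :=
  ⟨(l 3), by decide +kernel⟩

theorem c_pp_001 : CertF 0 536870912 536870912 536870912 67108864 67108864 false true true .up 0 0 1
    ndF3q0 ndF3q1 pcF0 Cut.none Ext.none :=
  certFK0 (fam := false) (s1 := true) (s2 := true) (a := 0) (b := 0) (c := 1) (cn := .up) (n1 := ndF3q0) (n2 := ndF3q1) (pc := pcF0) (cut := Cut.none) (xt := Ext.none) (P1 := 0) (W1 := 536870912) (P2 := 536870912) (W2 := 536870912) (P3 := 67108864) (W3 := 67108864)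
    rfl rfl rfl k0_pp_001

noncomputable def f_pp_011 : ℕ → ℕ → ℕ → ℕ → Bool := onCell 0 536870912 536870912 536870912 67108864 67108864
    (rowFK 0 false true true .pnn 0 1 1 (qsf 0 536870912 536870912 536870912 1) ndF3q0 ndF3q1 pcF1 Cut.none Ext.none)

def k0_pp_011 : ∃ t, chk3 f_pp_011 t 1 1 1 = true :=
  ⟨(l 3), by decide +kernel⟩

theorem c_pp_011 : CertF 0 536870912 536870912 536870912 67108864 67108864 false true true .pnn 0 1 1
    ndF3q0 ndF3q1 pcF1 Cut.none Ext.none :=
  certFK0 (fam := false) (s1 := true) (s2 := true) (a := 0) (b := 1) (c := 1) (cn := .pnn) (n1 := ndF3q0) (n2 := ndF3q1) (pc := pcF1) (cut := Cut.none) (xt := Ext.none) (P1 := 0) (W1 := 536870912) (P2 := 536870912) (W2 := 536870912) (P3 := 67108864) (W3 := 67108864)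
    rfl rfl rfl k0_pp_011

noncomputable def f_pp_012 : ℕ → ℕ → ℕ → ℕ → Bool := onCell 0 536870912 536870912 536870912 67108864 67108864
    (rowFK 1 false true true .pnp 0 1 2 (qsf 0 536870912 1073741824 536870912 1) ndF3q0 ndF3q2 pcF1 Cut.none Ext.none)

def k0_pp_012 : ∃ t, chk3 f_pp_012 t 1 1 1 = true :=
  ⟨(b (l 3) (a (b (l 3) (a (l 418395064615) (l 226731135015))) (b (a (l 397455082327) (l 245518928439)) (a (l 17884632) (l 17473272))))), by decide +kernel⟩

theorem c_pp_012 : CertF 0 536870912 1073741824 536870912 67108864 67108864 false true true .pnp 0 1 2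
    ndF3q0 ndF3q2 pcF1 Cut.none Ext.none :=
  certFK1 (fam := false) (s1 := true) (s2 := true) (a := 0) (b := 1) (c := 2) (cn := .pnp) (n1 := ndF3q0) (n2 := ndF3q2) (pc := pcF1) (cut := Cut.none) (xt := Ext.none) (P1 := 0) (W1 := 536870912) (P2 := 1073741824) (W2 := 536870912) (P3 := 67108864) (W3 := 67108864)
    rfl rfl rfl (fun _ => rfl) k0_pp_012

noncomputable def f_pp_022 : ℕ → ℕ → ℕ → ℕ → Bool := onCell 0 536870912 1073741824 536870912 67108864 67108864
    (rowFK 1 false true true .pp 0 2 2 (qsf 0 536870912 1073741824 536870912 2) ndF3q0 ndF3q2 pcF2 Cut.none Ext.none)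

def k0_pp_022 : ∃ t, chk3 f_pp_022 t 1 1 1 = true :=
  ⟨(a (b (b (b (b (a (l 19054920) (l 18314032)) (a (a (l 19145456) (l 18775872)) (l 18217224))) (a (b (l 18878152) (l 18756544)) (l 18094040))) (a (b (a (l 18769152) (l 18428952)) (l 18340536)) (l 17840688))) (b (a (l 18061456) (l 17550848)) (a (l 17777360) (l 17317640)))) (b (b (b (b (l 17770928) (l 17801880)) (l 17857112)) (l 18032800)) (b (a (l 17686440) (l 2)) (l 2)))), by decide +kernel⟩

theorem c_pp_022 : CertF 0 536870912 1073741824 536870912 67108864 67108864 false true true .pp 0 2 2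
    ndF3q0 ndF3q2 pcF2 Cut.none Ext.none :=
  certFK1 (fam := false) (s1 := true) (s2 := true) (a := 0) (b := 2) (c := 2) (cn := .pp) (n1 := ndF3q0) (n2 := ndF3q2) (pc := pcF2) (cut := Cut.none) (xt := Ext.none) (P1 := 0) (W1 := 536870912) (P2 := 1073741824) (W2 := 536870912) (P3 := 67108864) (W3 := 67108864)
    rfl rfl rfl (fun _ => rfl) k0_pp_022

noncomputable def f_pp_023 : ℕ → ℕ → ℕ → ℕ → Bool := onCell 1073741824 536870912 0 1230186008 67108864 67108864
    (rowFK 2 false true true .up 0 2 3 (qsf 0 536870912 0 1230186008 2) ndF3q0 ndF3q3 pcF2 Cut.none Ext.none)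

def k0_pp_023 : ∃ t, chk3 f_pp_023 t 1 1 1 = true :=
  ⟨(b (a (l 2) (l 166533956951)) (b (a (l 19091592) (a (l 18452488) (l 17849304))) (a (a (a (a (l 19218192) (l 19089680)) (l 18882200)) (l 18411168)) (b (l 17612080) (a (l 17412600) (l 17255784)))))), by decide +kernel⟩

theorem c_pp_023 : CertF 0 536870912 0 1230186008 67108864 67108864 false true true .up 0 2 3
    ndF3q0 ndF3q3 pcF2 Cut.none Ext.none :=
  certFK2 (fam := false) (s1 := true) (s2 := true) (a := 0) (b := 2) (c := 3) (cn := .up) (n1 := ndF3q0) (n2 := ndF3q3) (pc := pcF2) (cut := Cut.none) (xt := Ext.none) (P1 := 0) (W1 := 536870912) (P2 := 0) (W2 := 1230186008) (P3 := 67108864) (W3 := 67108864)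
    rfl rfl rfl (fun _ => rfl) k0_pp_023

noncomputable def f_pp_033 : ℕ → ℕ → ℕ → ℕ → Bool := onCell 1610612736 536870912 0 1230186008 67108864 67108864
    (rowFK 2 false true true .pnn 0 3 3 (qsf 0 536870912 0 1230186008 3) ndF3q0 ndF3q3 pcF3 Cut.none Ext.none)

def k0_pp_033 : ∃ t, chk3 f_pp_033 t 1 1 1 = true :=
  ⟨(b (a (a (b (l 4) (l 4)) (l 4)) (l 4)) (b (a (a (b (l 17217896) (l 17258824)) (a (l 17288536) (l 17841112))) (a (a (l 18009688) (l 18151368)) (b (a (l 4) (l 1)) (l 1)))) (a (b (a (l 17973456) (l 18272480)) (a (b (l 18473224) (a (l 18165912) (l 18031256))) (b (a (l 18504056) (l 1)) (l 1)))) (l 1)))), by decide +kernel⟩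

theorem c_pp_033 : CertF 0 536870912 0 1230186008 67108864 67108864 false true true .pnn 0 3 3
    ndF3q0 ndF3q3 pcF3 Cut.none Ext.none :=
  certFK2 (fam := false) (s1 := true) (s2 := true) (a := 0) (b := 3) (c := 3) (cn := .pnn) (n1 := ndF3q0) (n2 := ndF3q3) (pc := pcF3) (cut := Cut.none) (xt := Ext.none) (P1 := 0) (W1 := 536870912) (P2 := 0) (W2 := 1230186008) (P3 := 67108864) (W3 := 67108864)
    rfl rfl rfl (fun _ => rfl) k0_pp_033

noncomputable def f_pp_101 : ℕ → ℕ → ℕ → ℕ → Bool := onCell 536870912 536870912 536870912 536870912 67108864 67108864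
    (rowFK 0 false true true .npn 1 0 1 (qsf 536870912 536870912 536870912 536870912 0) ndF3q1 ndF3q1 pcF0 Cut.none Ext.none)

def k0_pp_101 : ∃ t, chk3 f_pp_101 t 1 1 1 = true :=
  ⟨(l 3), by decide +kernel⟩

theorem c_pp_101 : CertF 536870912 536870912 536870912 536870912 67108864 67108864 false true true .npn 1 0 1
    ndF3q1 ndF3q1 pcF0 Cut.none Ext.none :=
  certFK0 (fam := false) (s1 := true) (s2 := true) (a := 1) (b := 0) (c := 1) (cn := .npn) (n1 := ndF3q1) (n2 := ndF3q1) (pc := pcF0) (cut := Cut.none) (xt := Ext.none) (P1 := 536870912) (W1 := 536870912) (P2 := 536870912) (W2 := 536870912) (P3 := 67108864) (W3 := 67108864)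
    rfl rfl rfl k0_pp_101

noncomputable def f_pp_102 : ℕ → ℕ → ℕ → ℕ → Bool := onCell 536870912 536870912 0 536870912 67108864 67108864
    (rowFK 1 false true true .npp 1 0 2 (qsf 536870912 536870912 1073741824 536870912 0) ndF3q1 ndF3q2 pcF0 Cut.none Ext.none)

def k0_pp_102 : ∃ t, chk3 f_pp_102 t 1 1 1 = true :=
  ⟨(l 3), by decide +kernel⟩

theorem c_pp_102 : CertF 536870912 536870912 1073741824 536870912 67108864 67108864 false true true .npp 1 0 2
    ndF3q1 ndF3q2 pcF0 Cut.none Ext.none :=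
  certFK1 (fam := false) (s1 := true) (s2 := true) (a := 1) (b := 0) (c := 2) (cn := .npp) (n1 := ndF3q1) (n2 := ndF3q2) (pc := pcF0) (cut := Cut.none) (xt := Ext.none) (P1 := 536870912) (W1 := 536870912) (P2 := 1073741824) (W2 := 536870912) (P3 := 67108864) (W3 := 67108864)
    rfl rfl rfl (fun _ => rfl) k0_pp_102

noncomputable def f_pp_112 : ℕ → ℕ → ℕ → ℕ → Bool := onCell 536870912 536870912 1073741824 536870912 67108864 67108864
    (rowFK 2 false true true .dn 1 1 2 (qsf 536870912 536870912 1073741824 536870912 1) ndF3q1 ndF3q2 pcF1 Cut.none Ext.none)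

def k0_pp_112 : ∃ t, chk3 f_pp_112 t 1 1 1 = true :=
  ⟨(a (b (l 3) (a (l 3) (l 18851872))) (b (a (l 374908091127) (l 1)) (a (l 18596848) (l 18413896)))), by decide +kernel⟩

theorem c_pp_112 : CertF 536870912 536870912 1073741824 536870912 67108864 67108864 false true true .dn 1 1 2
    ndF3q1 ndF3q2 pcF1 Cut.none Ext.none :=
  certFK2 (fam := false) (s1 := true) (s2 := true) (a := 1) (b := 1) (c := 2) (cn := .dn) (n1 := ndF3q1) (n2 := ndF3q2) (pc := pcF1) (cut := Cut.none) (xt := Ext.none) (P1 := 536870912) (W1 := 536870912) (P2 := 1073741824) (W2 := 536870912) (P3 := 67108864) (W3 := 67108864)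
    rfl rfl rfl (fun _ => rfl) k0_pp_112

noncomputable def f_pp_113 : ℕ → ℕ → ℕ → ℕ → Bool := onCell 536870912 536870912 0 1230186008 67108864 67108864
    (rowFK 2 false true true .nn 1 1 3 (qsf 536870912 536870912 0 1230186008 1) ndF3q1 ndF3q3 pcF1 Cut.none Ext.none)

def k0_pp_113 : ∃ t, chk3 f_pp_113 t 1 1 1 = true :=
  ⟨(a (b (l 2) (b (a (l 2) (l 19334552)) (a (b (l 2) (l 18649784)) (b (l 18558160) (l 18069816))))) (a (b (l 2) (b (l 18463680) (l 17800848))) (b (a (b (l 2) (l 17798624)) (a (l 17292504) (l 17166808))) (b (a (l 17869488) (a (l 17605360) (l 17440472))) (l 17354384))))), by decide +kernel⟩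

theorem c_pp_113 : CertF 536870912 536870912 0 1230186008 67108864 67108864 false true true .nn 1 1 3
    ndF3q1 ndF3q3 pcF1 Cut.none Ext.none :=
  certFK2 (fam := false) (s1 := true) (s2 := true) (a := 1) (b := 1) (c := 3) (cn := .nn) (n1 := ndF3q1) (n2 := ndF3q3) (pc := pcF1) (cut := Cut.none) (xt := Ext.none) (P1 := 536870912) (W1 := 536870912) (P2 := 0) (W2 := 1230186008) (P3 := 67108864) (W3 := 67108864)
    rfl rfl rfl (fun _ => rfl) k0_pp_113

noncomputable def f_pp_123 : ℕ → ℕ → ℕ → ℕ → Bool := onCell 1073741824 536870912 0 1230186008 67108864 67108864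
    (rowFK 2 false true true .npn 1 2 3 (qsf 536870912 536870912 0 1230186008 2) ndF3q1 ndF3q3 pcF2 Cut.none Ext.none)

def k0_pp_123 : ∃ t, chk3 f_pp_123 t 1 1 1 = true :=
  ⟨(b (a (a (l 16982488) (l 16936848)) (a (l 16939328) (l 17206080))) (b (a (l 17248760) (a (l 16904008) (l 16814136))) (a (a (a (a (l 17554360) (l 17480424)) (l 17371520)) (l 17151184)) (l 1)))), by decide +kernel⟩

theorem c_pp_123 : CertF 536870912 536870912 0 1230186008 67108864 67108864 false true true .npn 1 2 3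
    ndF3q1 ndF3q3 pcF2 Cut.none Ext.none :=
  certFK2 (fam := false) (s1 := true) (s2 := true) (a := 1) (b := 2) (c := 3) (cn := .npn) (n1 := ndF3q1) (n2 := ndF3q3) (pc := pcF2) (cut := Cut.none) (xt := Ext.none) (P1 := 536870912) (W1 := 536870912) (P2 := 0) (W2 := 1230186008) (P3 := 67108864) (W3 := 67108864)
    rfl rfl rfl (fun _ => rfl) k0_pp_123

noncomputable def f_pp_133 : ℕ → ℕ → ℕ → ℕ → Bool := onCell 1610612736 536870912 0 1230186008 67108864 67108864
    (rowFK 2 false true true .dn 1 3 3 (qsf 536870912 536870912 0 1230186008 3) ndF3q1 ndF3q3 pcF3 Cut.none Ext.none)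

def k0_pp_133 : ∃ t, chk3 f_pp_133 t 1 1 1 = true :=
  ⟨(b (b (l 4) (l 1)) (l 1)), by decide +kernel⟩

theorem c_pp_133 : CertF 536870912 536870912 0 1230186008 67108864 67108864 false true true .dn 1 3 3
    ndF3q1 ndF3q3 pcF3 Cut.none Ext.none :=
  certFK2 (fam := false) (s1 := true) (s2 := true) (a := 1) (b := 3) (c := 3) (cn := .dn) (n1 := ndF3q1) (n2 := ndF3q3) (pc := pcF3) (cut := Cut.none) (xt := Ext.none) (P1 := 536870912) (W1 := 536870912) (P2 := 0) (W2 := 1230186008) (P3 := 67108864) (W3 := 67108864)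
    rfl rfl rfl (fun _ => rfl) k0_pp_133

noncomputable def f_pp_202 : ℕ → ℕ → ℕ → ℕ → Bool := onCell 1073741824 536870912 1073741824 536870912 67108864 67108864
    (rowFK 0 false true true .pp 2 0 2 (qsf 1073741824 536870912 1073741824 536870912 0) ndF3q2 ndF3q2 pcF0 Cut.none Ext.none)

def k0_pp_202 : ∃ t, chk3 f_pp_202 t 1 1 1 = true :=
  ⟨(l 3), by decide +kernel⟩

theorem c_pp_202 : CertF 1073741824 536870912 1073741824 536870912 67108864 67108864 false true true .pp 2 0 2
    ndF3q2 ndF3q2 pcF0 Cut.none Ext.none :=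
  certFK0 (fam := false) (s1 := true) (s2 := true) (a := 2) (b := 0) (c := 2) (cn := .pp) (n1 := ndF3q2) (n2 := ndF3q2) (pc := pcF0) (cut := Cut.none) (xt := Ext.none) (P1 := 1073741824) (W1 := 536870912) (P2 := 1073741824) (W2 := 536870912) (P3 := 67108864) (W3 := 67108864)
    rfl rfl rfl k0_pp_202

noncomputable def f_pp_203 : ℕ → ℕ → ℕ → ℕ → Bool := onCell 0 536870912 0 1230186008 67108864 67108864
    (rowFK 2 false true true .up 2 0 3 (qsf 1073741824 536870912 0 1230186008 0) ndF3q2 ndF3q3 pcF0 Cut.none Ext.none)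

def k0_pp_203 : ∃ t, chk3 f_pp_203 t 1 1 1 = true :=
  ⟨(b (a (l 2) (l 3)) (l 3)), by decide +kernel⟩

theorem c_pp_203 : CertF 1073741824 536870912 0 1230186008 67108864 67108864 false true true .up 2 0 3
    ndF3q2 ndF3q3 pcF0 Cut.none Ext.none :=
  certFK2 (fam := false) (s1 := true) (s2 := true) (a := 2) (b := 0) (c := 3) (cn := .up) (n1 := ndF3q2) (n2 := ndF3q3) (pc := pcF0) (cut := Cut.none) (xt := Ext.none) (P1 := 1073741824) (W1 := 536870912) (P2 := 0) (W2 := 1230186008) (P3 := 67108864) (W3 := 67108864)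
    rfl rfl rfl (fun _ => rfl) k0_pp_203

noncomputable def f_pp_213 : ℕ → ℕ → ℕ → ℕ → Bool := onCell 1073741824 536870912 0 1230186008 67108864 67108864
    (rowFK 0 false true true .pnn 2 1 3 (qsf 1073741824 536870912 0 1230186008 1) ndF3q2 ndF3q3 pcF1 Cut.none Ext.none)

def k0_pp_213 : ∃ t, chk3 f_pp_213 t 1 1 1 = true :=
  ⟨(b (a (a (b (l 16971392) (b (l 17003352) (l 239076335047))) (b (l 17095608) (b (l 17047128) (l 3)))) (b (a (l 17230864) (l 3)) (l 3))) (b (a (l 3) (l 3)) (l 3))), by decide +kernel⟩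

theorem c_pp_213 : CertF 1073741824 536870912 0 1230186008 67108864 67108864 false true true .pnn 2 1 3
    ndF3q2 ndF3q3 pcF1 Cut.none Ext.none :=
  certFK0 (fam := false) (s1 := true) (s2 := true) (a := 2) (b := 1) (c := 3) (cn := .pnn) (n1 := ndF3q2) (n2 := ndF3q3) (pc := pcF1) (cut := Cut.none) (xt := Ext.none) (P1 := 1073741824) (W1 := 536870912) (P2 := 0) (W2 := 1230186008) (P3 := 67108864) (W3 := 67108864)
    rfl rfl rfl k0_pp_213

noncomputable def f_pp_303 : ℕ → ℕ → ℕ → ℕ → Bool := onCell 0 1230186008 0 1230186008 67108864 67108864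
    (rowFK 0 false true true .npn 3 0 3 (qsf 0 1230186008 0 1230186008 0) ndF3q3 ndF3q3 pcF0 Cut.none Ext.none)

def k0_pp_303 : ∃ t, chk3 f_pp_303 t 1 1 1 = true :=
  ⟨(a (b (l 3) (l 3)) (b (l 3) (l 3))), by decide +kernel⟩

theorem c_pp_303 : CertF 0 1230186008 0 1230186008 67108864 67108864 false true true .npn 3 0 3
    ndF3q3 ndF3q3 pcF0 Cut.none Ext.none :=
  certFK0 (fam := false) (s1 := true) (s2 := true) (a := 3) (b := 0) (c := 3) (cn := .npn) (n1 := ndF3q3) (n2 := ndF3q3) (pc := pcF0) (cut := Cut.none) (xt := Ext.none) (P1 := 0) (W1 := 1230186008) (P2 := 0) (W2 := 1230186008) (P3 := 67108864) (W3 := 67108864)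
    rfl rfl rfl k0_pp_303

noncomputable def f_pp_313 : ℕ → ℕ → ℕ → ℕ → Bool := onCell 0 1230186008 0 1230186008 67108864 67108864
    (rowFK 0 false true true .dn 3 1 3 (qsf 0 1230186008 0 1230186008 1) ndF3q3 ndF3q3 pcF1 Cut.none Ext.none)

def k0_pp_313 : ∃ t, chk3 f_pp_313 t 1 1 1 = true :=
  ⟨(a (l 1) (b (l 3) (l 1))), by decide +kernel⟩

theorem c_pp_313 : CertF 0 1230186008 0 1230186008 67108864 67108864 false true true .dn 3 1 3
    ndF3q3 ndF3q3 pcF1 Cut.none Ext.none :=
  certFK0 (fam := false) (s1 := true) (s2 := true) (a := 3) (b := 1) (c := 3) (cn := .dn) (n1 := ndF3q3) (n2 := ndF3q3) (pc := pcF1) (cut := Cut.none) (xt := Ext.none) (P1 := 0) (W1 := 1230186008) (P2 := 0) (W2 := 1230186008) (P3 := 67108864) (W3 := 67108864)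
    rfl rfl rfl k0_pp_313

noncomputable def f_pm_001 : ℕ → ℕ → ℕ → ℕ → Bool := onCell 0 536870912 536870912 536870912 67108864 67108864
    (rowFK 0 false true false .up 0 0 1 (qsf 0 536870912 536870912 536870912 0) ndF3q0 ndF3q1 pcF0 Cut.none Ext.none)

def k0_pm_001 : ∃ t, chk3 f_pm_001 t 1 1 1 = true :=
  ⟨(l 4), by decide +kernel⟩

theorem c_pm_001 : CertF 0 536870912 536870912 536870912 67108864 67108864 false true false .up 0 0 1
    ndF3q0 ndF3q1 pcF0 Cut.none Ext.none :=
  certFK0 (fam := false) (s1 := true) (s2 := false) (a := 0) (b := 0) (c := 1) (cn := .up) (n1 := ndF3q0) (n2 := ndF3q1) (pc := pcF0) (cut := Cut.none) (xt := Ext.none) (P1 := 0) (W1 := 536870912) (P2 := 536870912) (W2 := 536870912) (P3 := 67108864) (W3 := 67108864)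
    rfl rfl rfl k0_pm_001

noncomputable def f_pm_011 : ℕ → ℕ → ℕ → ℕ → Bool := onCell 0 536870912 536870912 536870912 67108864 67108864
    (rowFK 0 false true false .pnn 0 1 1 (qsf 0 536870912 536870912 536870912 1) ndF3q0 ndF3q1 pcF1 Cut.none Ext.none)

def k0_pm_011 : ∃ t, chk3 f_pm_011 t 1 1 1 = true :=
  ⟨(l 4), by decide +kernel⟩

theorem c_pm_011 : CertF 0 536870912 536870912 536870912 67108864 67108864 false true false .pnn 0 1 1
    ndF3q0 ndF3q1 pcF1 Cut.none Ext.none :=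
  certFK0 (fam := false) (s1 := true) (s2 := false) (a := 0) (b := 1) (c := 1) (cn := .pnn) (n1 := ndF3q0) (n2 := ndF3q1) (pc := pcF1) (cut := Cut.none) (xt := Ext.none) (P1 := 0) (W1 := 536870912) (P2 := 536870912) (W2 := 536870912) (P3 := 67108864) (W3 := 67108864)
    rfl rfl rfl k0_pm_011

noncomputable def f_pm_012 : ℕ → ℕ → ℕ → ℕ → Bool := onCell 0 536870912 1073741824 536870912 67108864 67108864
    (rowFK 0 false true false .pnp 0 1 2 (qsf 0 536870912 1073741824 536870912 1) ndF3q0 ndF3q2 pcF1 Cut.none Ext.none)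

def k0_pm_012 : ∃ t, chk3 f_pm_012 t 1 1 1 = true :=
  ⟨(l 4), by decide +kernel⟩

theorem c_pm_012 : CertF 0 536870912 1073741824 536870912 67108864 67108864 false true false .pnp 0 1 2
    ndF3q0 ndF3q2 pcF1 Cut.none Ext.none :=
  certFK0 (fam := false) (s1 := true) (s2 := false) (a := 0) (b := 1) (c := 2) (cn := .pnp) (n1 := ndF3q0) (n2 := ndF3q2) (pc := pcF1) (cut := Cut.none) (xt := Ext.none) (P1 := 0) (W1 := 536870912) (P2 := 1073741824) (W2 := 536870912) (P3 := 67108864) (W3 := 67108864)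
    rfl rfl rfl k0_pm_012

noncomputable def f_pm_022 : ℕ → ℕ → ℕ → ℕ → Bool := onCell 0 536870912 1073741824 536870912 67108864 67108864
    (rowFK 0 false true false .pp 0 2 2 (qsf 0 536870912 1073741824 536870912 2) ndF3q0 ndF3q2 pcF2 Cut.none Ext.none)

def k0_pm_022 : ∃ t, chk3 f_pm_022 t 1 1 1 = true :=
  ⟨(l 4), by decide +kernel⟩

theorem c_pm_022 : CertF 0 536870912 1073741824 536870912 67108864 67108864 false true false .pp 0 2 2
    ndF3q0 ndF3q2 pcF2 Cut.none Ext.none :=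
  certFK0 (fam := false) (s1 := true) (s2 := false) (a := 0) (b := 2) (c := 2) (cn := .pp) (n1 := ndF3q0) (n2 := ndF3q2) (pc := pcF2) (cut := Cut.none) (xt := Ext.none) (P1 := 0) (W1 := 536870912) (P2 := 1073741824) (W2 := 536870912) (P3 := 67108864) (W3 := 67108864)
    rfl rfl rfl k0_pm_022

noncomputable def f_pm_023 : ℕ → ℕ → ℕ → ℕ → Bool := onCell 0 536870912 0 1230186008 67108864 67108864
    (rowFK 0 false true false .up 0 2 3 (qsf 0 536870912 0 1230186008 2) ndF3q0 ndF3q3 pcF2 Cut.none Ext.none)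

def k0_pm_023 : ∃ t, chk3 f_pm_023 t 1 1 1 = true :=
  ⟨(b (l 4) (l 4)), by decide +kernel⟩

theorem c_pm_023 : CertF 0 536870912 0 1230186008 67108864 67108864 false true false .up 0 2 3
    ndF3q0 ndF3q3 pcF2 Cut.none Ext.none :=
  certFK0 (fam := false) (s1 := true) (s2 := false) (a := 0) (b := 2) (c := 3) (cn := .up) (n1 := ndF3q0) (n2 := ndF3q3) (pc := pcF2) (cut := Cut.none) (xt := Ext.none) (P1 := 0) (W1 := 536870912) (P2 := 0) (W2 := 1230186008) (P3 := 67108864) (W3 := 67108864)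
    rfl rfl rfl k0_pm_023

noncomputable def f_pm_033 : ℕ → ℕ → ℕ → ℕ → Bool := onCell 0 536870912 0 1230186008 67108864 67108864
    (rowFK 0 false true false .pnn 0 3 3 (qsf 0 536870912 0 1230186008 3) ndF3q0 ndF3q3 pcF3 Cut.none Ext.none)

def k0_pm_033 : ∃ t, chk3 f_pm_033 t 1 1 1 = true :=
  ⟨(b (l 4) (l 4)), by decide +kernel⟩

theorem c_pm_033 : CertF 0 536870912 0 1230186008 67108864 67108864 false true false .pnn 0 3 3
    ndF3q0 ndF3q3 pcF3 Cut.none Ext.none :=
  certFK0 (fam := false) (s1 := true) (s2 := false) (a := 0) (b := 3) (c := 3) (cn := .pnn) (n1 := ndF3q0) (n2 := ndF3q3) (pc := pcF3) (cut := Cut.none) (xt := Ext.none) (P1 := 0) (W1 := 536870912) (P2 := 0) (W2 := 1230186008) (P3 := 67108864) (W3 := 67108864)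
    rfl rfl rfl k0_pm_033

noncomputable def f_pm_101 : ℕ → ℕ → ℕ → ℕ → Bool := onCell 536870912 536870912 536870912 536870912 67108864 67108864
    (rowFK 0 false true false .npn 1 0 1 (qsf 536870912 536870912 536870912 536870912 0) ndF3q1 ndF3q1 pcF0 Cut.none Ext.none)

def k0_pm_101 : ∃ t, chk3 f_pm_101 t 1 1 1 = true :=
  ⟨(l 4), by decide +kernel⟩

theorem c_pm_101 : CertF 536870912 536870912 536870912 536870912 67108864 67108864 false true false .npn 1 0 1
    ndF3q1 ndF3q1 pcF0 Cut.none Ext.none :=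
  certFK0 (fam := false) (s1 := true) (s2 := false) (a := 1) (b := 0) (c := 1) (cn := .npn) (n1 := ndF3q1) (n2 := ndF3q1) (pc := pcF0) (cut := Cut.none) (xt := Ext.none) (P1 := 536870912) (W1 := 536870912) (P2 := 536870912) (W2 := 536870912) (P3 := 67108864) (W3 := 67108864)
    rfl rfl rfl k0_pm_101

noncomputable def f_pm_102 : ℕ → ℕ → ℕ → ℕ → Bool := onCell 536870912 536870912 1073741824 536870912 67108864 67108864
    (rowFK 0 false true false .npp 1 0 2 (qsf 536870912 536870912 1073741824 536870912 0) ndF3q1 ndF3q2 pcF0 Cut.none Ext.none)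

def k0_pm_102 : ∃ t, chk3 f_pm_102 t 1 1 1 = true :=
  ⟨(l 4), by decide +kernel⟩

theorem c_pm_102 : CertF 536870912 536870912 1073741824 536870912 67108864 67108864 false true false .npp 1 0 2
    ndF3q1 ndF3q2 pcF0 Cut.none Ext.none :=
  certFK0 (fam := false) (s1 := true) (s2 := false) (a := 1) (b := 0) (c := 2) (cn := .npp) (n1 := ndF3q1) (n2 := ndF3q2) (pc := pcF0) (cut := Cut.none) (xt := Ext.none) (P1 := 536870912) (W1 := 536870912) (P2 := 1073741824) (W2 := 536870912) (P3 := 67108864) (W3 := 67108864)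
    rfl rfl rfl k0_pm_102

noncomputable def f_pm_112 : ℕ → ℕ → ℕ → ℕ → Bool := onCell 536870912 536870912 1073741824 536870912 67108864 67108864
    (rowFK 0 false true false .dn 1 1 2 (qsf 536870912 536870912 1073741824 536870912 1) ndF3q1 ndF3q2 pcF1 Cut.none Ext.none)

def k0_pm_112 : ∃ t, chk3 f_pm_112 t 1 1 1 = true :=
  ⟨(l 4), by decide +kernel⟩

theorem c_pm_112 : CertF 536870912 536870912 1073741824 536870912 67108864 67108864 false true false .dn 1 1 2
    ndF3q1 ndF3q2 pcF1 Cut.none Ext.none :=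
  certFK0 (fam := false) (s1 := true) (s2 := false) (a := 1) (b := 1) (c := 2) (cn := .dn) (n1 := ndF3q1) (n2 := ndF3q2) (pc := pcF1) (cut := Cut.none) (xt := Ext.none) (P1 := 536870912) (W1 := 536870912) (P2 := 1073741824) (W2 := 536870912) (P3 := 67108864) (W3 := 67108864)
    rfl rfl rfl k0_pm_112

noncomputable def f_pm_113 : ℕ → ℕ → ℕ → ℕ → Bool := onCell 536870912 536870912 0 1230186008 67108864 67108864
    (rowFK 0 false true false .nn 1 1 3 (qsf 536870912 536870912 0 1230186008 1) ndF3q1 ndF3q3 pcF1 Cut.none Ext.none)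

def k0_pm_113 : ∃ t, chk3 f_pm_113 t 1 1 1 = true :=
  ⟨(b (a (l 2) (b (l 17002536) (l 4))) (l 4)), by decide +kernel⟩

theorem c_pm_113 : CertF 536870912 536870912 0 1230186008 67108864 67108864 false true false .nn 1 1 3
    ndF3q1 ndF3q3 pcF1 Cut.none Ext.none :=
  certFK0 (fam := false) (s1 := true) (s2 := false) (a := 1) (b := 1) (c := 3) (cn := .nn) (n1 := ndF3q1) (n2 := ndF3q3) (pc := pcF1) (cut := Cut.none) (xt := Ext.none) (P1 := 536870912) (W1 := 536870912) (P2 := 0) (W2 := 1230186008) (P3 := 67108864) (W3 := 67108864)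
    rfl rfl rfl k0_pm_113

noncomputable def f_pm_123 : ℕ → ℕ → ℕ → ℕ → Bool := onCell 1073741824 536870912 0 1230186008 67108864 67108864
    (rowFK 2 false true false .npn 1 2 3 (qsf 536870912 536870912 0 1230186008 2) ndF3q1 ndF3q3 pcF2 Cut.none Ext.none)

def k0_pm_123 : ∃ t, chk3 f_pm_123 t 1 1 1 = true :=
  ⟨(b (a (l 17548520) (l 4)) (l 4)), by decide +kernel⟩

theorem c_pm_123 : CertF 536870912 536870912 0 1230186008 67108864 67108864 false true false .npn 1 2 3
    ndF3q1 ndF3q3 pcF2 Cut.none Ext.none :=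
  certFK2 (fam := false) (s1 := true) (s2 := false) (a := 1) (b := 2) (c := 3) (cn := .npn) (n1 := ndF3q1) (n2 := ndF3q3) (pc := pcF2) (cut := Cut.none) (xt := Ext.none) (P1 := 536870912) (W1 := 536870912) (P2 := 0) (W2 := 1230186008) (P3 := 67108864) (W3 := 67108864)
    rfl rfl rfl (fun _ => rfl) k0_pm_123

noncomputable def f_pm_133 : ℕ → ℕ → ℕ → ℕ → Bool := onCell 1610612736 536870912 0 1230186008 67108864 67108864
    (rowFK 2 false true false .dn 1 3 3 (qsf 536870912 536870912 0 1230186008 3) ndF3q1 ndF3q3 pcF3 Cut.none Ext.none)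

def k0_pm_133 : ∃ t, chk3 f_pm_133 t 1 1 1 = true :=
  ⟨(b (l 4) (l 1)), by decide +kernel⟩

theorem c_pm_133 : CertF 536870912 536870912 0 1230186008 67108864 67108864 false true false .dn 1 3 3
    ndF3q1 ndF3q3 pcF3 Cut.none Ext.none :=
  certFK2 (fam := false) (s1 := true) (s2 := false) (a := 1) (b := 3) (c := 3) (cn := .dn) (n1 := ndF3q1) (n2 := ndF3q3) (pc := pcF3) (cut := Cut.none) (xt := Ext.none) (P1 := 536870912) (W1 := 536870912) (P2 := 0) (W2 := 1230186008) (P3 := 67108864) (W3 := 67108864)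
    rfl rfl rfl (fun _ => rfl) k0_pm_133

noncomputable def f_pm_202 : ℕ → ℕ → ℕ → ℕ → Bool := onCell 0 536870912 1073741824 536870912 67108864 67108864
    (rowFK 2 false true false .pp 2 0 2 (qsf 1073741824 536870912 1073741824 536870912 0) ndF3q2 ndF3q2 pcF0 Cut.none Ext.none)

def k0_pm_202 : ∃ t, chk3 f_pm_202 t 1 1 1 = true :=
  ⟨(b (a (a (l 18955816) (l 211230181559)) (l 4)) (a (a (l 18013424) (l 17997352)) (a (b (l 18426456) (l 17770856)) (b (a (l 18556008) (l 1)) (l 17895424))))), by decide +kernel⟩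

theorem c_pm_202 : CertF 1073741824 536870912 1073741824 536870912 67108864 67108864 false true false .pp 2 0 2
    ndF3q2 ndF3q2 pcF0 Cut.none Ext.none :=
  certFK2 (fam := false) (s1 := true) (s2 := false) (a := 2) (b := 0) (c := 2) (cn := .pp) (n1 := ndF3q2) (n2 := ndF3q2) (pc := pcF0) (cut := Cut.none) (xt := Ext.none) (P1 := 1073741824) (W1 := 536870912) (P2 := 1073741824) (W2 := 536870912) (P3 := 67108864) (W3 := 67108864)
    rfl rfl rfl (fun _ => rfl) k0_pm_202

noncomputable def f_pm_203 : ℕ → ℕ → ℕ → ℕ → Bool := onCell 0 536870912 0 1230186008 67108864 67108864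
    (rowFK 2 false true false .up 2 0 3 (qsf 1073741824 536870912 0 1230186008 0) ndF3q2 ndF3q3 pcF0 Cut.none Ext.none)

def k0_pm_203 : ∃ t, chk3 f_pm_203 t 1 1 1 = true :=
  ⟨(b (a (l 2) (a (l 2) (l 213844113735))) (a (b (a (l 2) (l 661527769783)) (a (b (l 2) (a (l 17413496) (l 17294872))) (b (l 17563504) (l 17205112)))) (b (a (b (l 17688128) (l 17572072)) (b (l 17410240) (l 17475208))) (a (b (l 17372104) (l 17614344)) (a (l 17632632) (b (l 17370232) (l 18207944))))))), by decide +kernel⟩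

theorem c_pm_203 : CertF 1073741824 536870912 0 1230186008 67108864 67108864 false true false .up 2 0 3
    ndF3q2 ndF3q3 pcF0 Cut.none Ext.none :=
  certFK2 (fam := false) (s1 := true) (s2 := false) (a := 2) (b := 0) (c := 3) (cn := .up) (n1 := ndF3q2) (n2 := ndF3q3) (pc := pcF0) (cut := Cut.none) (xt := Ext.none) (P1 := 1073741824) (W1 := 536870912) (P2 := 0) (W2 := 1230186008) (P3 := 67108864) (W3 := 67108864)
    rfl rfl rfl (fun _ => rfl) k0_pm_203

noncomputable def f_pm_213 : ℕ → ℕ → ℕ → ℕ → Bool := onCell 536870912 536870912 0 1230186008 67108864 67108864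
    (rowFK 2 false true false .pnn 2 1 3 (qsf 1073741824 536870912 0 1230186008 1) ndF3q2 ndF3q3 pcF1 Cut.none Ext.none)

def k0_pm_213 : ∃ t, chk3 f_pm_213 t 1 1 1 = true :=
  ⟨(b (b (a (a (l 194516476695) (l 17250136)) (a (l 17211216) (l 17005136))) (a (a (l 17669144) (l 17669920)) (a (b (l 17441128) (l 17632920)) (a (l 17268856) (a (l 17117928) (l 16994736)))))) (b (a (a (l 18322512) (b (l 18135472) (l 18436248))) (a (a (l 17964408) (l 17621088)) (a (l 17510632) (l 1)))) (a (b (a (b (a (l 19083096) (l 19036344)) (l 18661856)) (b (l 18723104) (a (l 18560168) (l 1)))) (b (a (a (l 17657608) (l 17788800)) (a (l 380678348039) (l 1))) (l 234648919335))) (l 1)))), by decide +kernel⟩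

theorem c_pm_213 : CertF 1073741824 536870912 0 1230186008 67108864 67108864 false true false .pnn 2 1 3
    ndF3q2 ndF3q3 pcF1 Cut.none Ext.none :=
  certFK2 (fam := false) (s1 := true) (s2 := false) (a := 2) (b := 1) (c := 3) (cn := .pnn) (n1 := ndF3q2) (n2 := ndF3q3) (pc := pcF1) (cut := Cut.none) (xt := Ext.none) (P1 := 1073741824) (W1 := 536870912) (P2 := 0) (W2 := 1230186008) (P3 := 67108864) (W3 := 67108864)
    rfl rfl rfl (fun _ => rfl) k0_pm_213

noncomputable def f_pm_303 : ℕ → ℕ → ℕ → ℕ → Bool := onCell 0 1230186008 0 1230186008 67108864 67108864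
    (rowFK 0 false true false .npn 3 0 3 (qsf 0 1230186008 0 1230186008 0) ndF3q3 ndF3q3 pcF0 Cut.none Ext.none)

def k0_pm_303 : ∃ t, chk3 f_pm_303 t 1 1 1 = true :=
  ⟨(a (b (l 3) (b (l 3) (l 1))) (b (a (l 3) (a (l 3) (b (l 3) (l 233708508231)))) (a (b (b (l 3) (b (l 3) (a (l 1) (b (l 3) (l 160693637063))))) (a (l 1) (b (a (l 1) (b (l 17664152) (l 1))) (l 1)))) (b (a (b (l 17301320) (b (l 17416976) (l 17710024))) (b (l 17619552) (a (l 17781792) (l 17951376)))) (a (b (b (a (l 17736584) (l 17873536)) (a (l 18228272) (l 18246240))) (a (l 1) (b (l 18672968) (l 1)))) (b (b (l 18132552) (l 18357272)) (a (b (l 18582192) (l 18651768)) (b (l 18574088) (l 18639376))))))))), by decide +kernel⟩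

theorem c_pm_303 : CertF 0 1230186008 0 1230186008 67108864 67108864 false true false .npn 3 0 3
    ndF3q3 ndF3q3 pcF0 Cut.none Ext.none :=
  certFK0 (fam := false) (s1 := true) (s2 := false) (a := 3) (b := 0) (c := 3) (cn := .npn) (n1 := ndF3q3) (n2 := ndF3q3) (pc := pcF0) (cut := Cut.none) (xt := Ext.none) (P1 := 0) (W1 := 1230186008) (P2 := 0) (W2 := 1230186008) (P3 := 67108864) (W3 := 67108864)
    rfl rfl rfl k0_pm_303

noncomputable def f_pm_313 : ℕ → ℕ → ℕ → ℕ → Bool := onCell 0 1230186008 0 1230186008 67108864 67108864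
    (rowFK 0 false true false .dn 3 1 3 (qsf 0 1230186008 0 1230186008 1) ndF3q3 ndF3q3 pcF1 Cut.none Ext.none)

def k0_pm_313 : ∃ t, chk3 f_pm_313 t 1 1 1 = true :=
  ⟨(a (l 1) (b (b (l 3) (l 1)) (l 1))), by decide +kernel⟩

theorem c_pm_313 : CertF 0 1230186008 0 1230186008 67108864 67108864 false true false .dn 3 1 3
    ndF3q3 ndF3q3 pcF1 Cut.none Ext.none :=
  certFK0 (fam := false) (s1 := true) (s2 := false) (a := 3) (b := 1) (c := 3) (cn := .dn) (n1 := ndF3q3) (n2 := ndF3q3) (pc := pcF1) (cut := Cut.none) (xt := Ext.none) (P1 := 0) (W1 := 1230186008) (P2 := 0) (W2 := 1230186008) (P3 := 67108864) (W3 := 67108864)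
    rfl rfl rfl k0_pm_313

noncomputable def f_mm_001 : ℕ → ℕ → ℕ → ℕ → Bool := onCell 0 536870912 536870912 536870912 67108864 67108864
    (rowFK 0 false false false .up 0 0 1 (qsf 0 536870912 536870912 536870912 0) ndF3q0 ndF3q1 pcF0 Cut.none Ext.none)

def k0_mm_001 : ∃ t, chk3 f_mm_001 t 1 1 1 = true :=
  ⟨(l 3), by decide +kernel⟩

theorem c_mm_001 : CertF 0 536870912 536870912 536870912 67108864 67108864 false false false .up 0 0 1
    ndF3q0 ndF3q1 pcF0 Cut.none Ext.none :=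
  certFK0 (fam := false) (s1 := false) (s2 := false) (a := 0) (b := 0) (c := 1) (cn := .up) (n1 := ndF3q0) (n2 := ndF3q1) (pc := pcF0) (cut := Cut.none) (xt := Ext.none) (P1 := 0) (W1 := 536870912) (P2 := 536870912) (W2 := 536870912) (P3 := 67108864) (W3 := 67108864)
    rfl rfl rfl k0_mm_001

noncomputable def f_mm_011 : ℕ → ℕ → ℕ → ℕ → Bool := onCell 0 536870912 536870912 536870912 67108864 67108864
    (rowFK 0 false false false .pnn 0 1 1 (qsf 0 536870912 536870912 536870912 1) ndF3q0 ndF3q1 pcF1 Cut.none Ext.none)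

def k0_mm_011 : ∃ t, chk3 f_mm_011 t 1 1 1 = true :=
  ⟨(l 3), by decide +kernel⟩

theorem c_mm_011 : CertF 0 536870912 536870912 536870912 67108864 67108864 false false false .pnn 0 1 1
    ndF3q0 ndF3q1 pcF1 Cut.none Ext.none :=
  certFK0 (fam := false) (s1 := false) (s2 := false) (a := 0) (b := 1) (c := 1) (cn := .pnn) (n1 := ndF3q0) (n2 := ndF3q1) (pc := pcF1) (cut := Cut.none) (xt := Ext.none) (P1 := 0) (W1 := 536870912) (P2 := 536870912) (W2 := 536870912) (P3 := 67108864) (W3 := 67108864)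
    rfl rfl rfl k0_mm_011

noncomputable def f_mm_012 : ℕ → ℕ → ℕ → ℕ → Bool := onCell 0 536870912 1073741824 536870912 67108864 67108864
    (rowFK 0 false false false .pnp 0 1 2 (qsf 0 536870912 1073741824 536870912 1) ndF3q0 ndF3q2 pcF1 Cut.none Ext.none)

def k0_mm_012 : ∃ t, chk3 f_mm_012 t 1 1 1 = true :=
  ⟨(l 5), by decide +kernel⟩

theorem c_mm_012 : CertF 0 536870912 1073741824 536870912 67108864 67108864 false false false .pnp 0 1 2
    ndF3q0 ndF3q2 pcF1 Cut.none Ext.none :=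
  certFK0 (fam := false) (s1 := false) (s2 := false) (a := 0) (b := 1) (c := 2) (cn := .pnp) (n1 := ndF3q0) (n2 := ndF3q2) (pc := pcF1) (cut := Cut.none) (xt := Ext.none) (P1 := 0) (W1 := 536870912) (P2 := 1073741824) (W2 := 536870912) (P3 := 67108864) (W3 := 67108864)
    rfl rfl rfl k0_mm_012

noncomputable def f_mm_022 : ℕ → ℕ → ℕ → ℕ → Bool := onCell 0 536870912 1073741824 536870912 67108864 67108864
    (rowFK 0 false false false .pp 0 2 2 (qsf 0 536870912 1073741824 536870912 2) ndF3q0 ndF3q2 pcF2 Cut.none Ext.none)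

def k0_mm_022 : ∃ t, chk3 f_mm_022 t 1 1 1 = true :=
  ⟨(l 5), by decide +kernel⟩

theorem c_mm_022 : CertF 0 536870912 1073741824 536870912 67108864 67108864 false false false .pp 0 2 2
    ndF3q0 ndF3q2 pcF2 Cut.none Ext.none :=
  certFK0 (fam := false) (s1 := false) (s2 := false) (a := 0) (b := 2) (c := 2) (cn := .pp) (n1 := ndF3q0) (n2 := ndF3q2) (pc := pcF2) (cut := Cut.none) (xt := Ext.none) (P1 := 0) (W1 := 536870912) (P2 := 1073741824) (W2 := 536870912) (P3 := 67108864) (W3 := 67108864)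
    rfl rfl rfl k0_mm_022

noncomputable def f_mm_023 : ℕ → ℕ → ℕ → ℕ → Bool := onCell 0 536870912 0 1230186008 67108864 67108864
    (rowFK 0 false false false .up 0 2 3 (qsf 0 536870912 0 1230186008 2) ndF3q0 ndF3q3 pcF2 Cut.none Ext.none)

def k0_mm_023 : ∃ t, chk3 f_mm_023 t 1 1 1 = true :=
  ⟨(l 5), by decide +kernel⟩

theorem c_mm_023 : CertF 0 536870912 0 1230186008 67108864 67108864 false false false .up 0 2 3
    ndF3q0 ndF3q3 pcF2 Cut.none Ext.none :=
  certFK0 (fam := false) (s1 := false) (s2 := false) (a := 0) (b := 2) (c := 3) (cn := .up) (n1 := ndF3q0) (n2 := ndF3q3) (pc := pcF2) (cut := Cut.none) (xt := Ext.none) (P1 := 0) (W1 := 536870912) (P2 := 0) (W2 := 1230186008) (P3 := 67108864) (W3 := 67108864)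
    rfl rfl rfl k0_mm_023

noncomputable def f_mm_033 : ℕ → ℕ → ℕ → ℕ → Bool := onCell 0 536870912 0 1230186008 67108864 67108864
    (rowFK 0 false false false .pnn 0 3 3 (qsf 0 536870912 0 1230186008 3) ndF3q0 ndF3q3 pcF3 Cut.none Ext.none)

def k0_mm_033 : ∃ t, chk3 f_mm_033 t 1 1 1 = true :=
  ⟨(l 5), by decide +kernel⟩

theorem c_mm_033 : CertF 0 536870912 0 1230186008 67108864 67108864 false false false .pnn 0 3 3
    ndF3q0 ndF3q3 pcF3 Cut.none Ext.none :=
  certFK0 (fam := false) (s1 := false) (s2 := false) (a := 0) (b := 3) (c := 3) (cn := .pnn) (n1 := ndF3q0) (n2 := ndF3q3) (pc := pcF3) (cut := Cut.none) (xt := Ext.none) (P1 := 0) (W1 := 536870912) (P2 := 0) (W2 := 1230186008) (P3 := 67108864) (W3 := 67108864)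
    rfl rfl rfl k0_mm_033

noncomputable def f_mm_101 : ℕ → ℕ → ℕ → ℕ → Bool := onCell 536870912 536870912 536870912 536870912 67108864 67108864
    (rowFK 0 false false false .npn 1 0 1 (qsf 536870912 536870912 536870912 536870912 0) ndF3q1 ndF3q1 pcF0 Cut.none Ext.none)

def k0_mm_101 : ∃ t, chk3 f_mm_101 t 1 1 1 = true :=
  ⟨(l 3), by decide +kernel⟩

theorem c_mm_101 : CertF 536870912 536870912 536870912 536870912 67108864 67108864 false false false .npn 1 0 1
    ndF3q1 ndF3q1 pcF0 Cut.none Ext.none :=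
  certFK0 (fam := false) (s1 := false) (s2 := false) (a := 1) (b := 0) (c := 1) (cn := .npn) (n1 := ndF3q1) (n2 := ndF3q1) (pc := pcF0) (cut := Cut.none) (xt := Ext.none) (P1 := 536870912) (W1 := 536870912) (P2 := 536870912) (W2 := 536870912) (P3 := 67108864) (W3 := 67108864)
    rfl rfl rfl k0_mm_101

noncomputable def f_mm_102 : ℕ → ℕ → ℕ → ℕ → Bool := onCell 536870912 536870912 1073741824 536870912 67108864 67108864
    (rowFK 0 false false false .npp 1 0 2 (qsf 536870912 536870912 1073741824 536870912 0) ndF3q1 ndF3q2 pcF0 Cut.none Ext.none)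

def k0_mm_102 : ∃ t, chk3 f_mm_102 t 1 1 1 = true :=
  ⟨(l 5), by decide +kernel⟩

theorem c_mm_102 : CertF 536870912 536870912 1073741824 536870912 67108864 67108864 false false false .npp 1 0 2
    ndF3q1 ndF3q2 pcF0 Cut.none Ext.none :=
  certFK0 (fam := false) (s1 := false) (s2 := false) (a := 1) (b := 0) (c := 2) (cn := .npp) (n1 := ndF3q1) (n2 := ndF3q2) (pc := pcF0) (cut := Cut.none) (xt := Ext.none) (P1 := 536870912) (W1 := 536870912) (P2 := 1073741824) (W2 := 536870912) (P3 := 67108864) (W3 := 67108864)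
    rfl rfl rfl k0_mm_102

noncomputable def f_mm_112 : ℕ → ℕ → ℕ → ℕ → Bool := onCell 536870912 536870912 1073741824 536870912 67108864 67108864
    (rowFK 0 false false false .dn 1 1 2 (qsf 536870912 536870912 1073741824 536870912 1) ndF3q1 ndF3q2 pcF1 Cut.none Ext.none)

def k0_mm_112 : ∃ t, chk3 f_mm_112 t 1 1 1 = true :=
  ⟨(l 5), by decide +kernel⟩

theorem c_mm_112 : CertF 536870912 536870912 1073741824 536870912 67108864 67108864 false false false .dn 1 1 2
    ndF3q1 ndF3q2 pcF1 Cut.none Ext.none :=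
  certFK0 (fam := false) (s1 := false) (s2 := false) (a := 1) (b := 1) (c := 2) (cn := .dn) (n1 := ndF3q1) (n2 := ndF3q2) (pc := pcF1) (cut := Cut.none) (xt := Ext.none) (P1 := 536870912) (W1 := 536870912) (P2 := 1073741824) (W2 := 536870912) (P3 := 67108864) (W3 := 67108864)
    rfl rfl rfl k0_mm_112

noncomputable def f_mm_113 : ℕ → ℕ → ℕ → ℕ → Bool := onCell 536870912 536870912 0 1230186008 67108864 67108864
    (rowFK 0 false false false .nn 1 1 3 (qsf 536870912 536870912 0 1230186008 1) ndF3q1 ndF3q3 pcF1 Cut.none Ext.none)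

def k0_mm_113 : ∃ t, chk3 f_mm_113 t 1 1 1 = true :=
  ⟨(l 5), by decide +kernel⟩

theorem c_mm_113 : CertF 536870912 536870912 0 1230186008 67108864 67108864 false false false .nn 1 1 3
    ndF3q1 ndF3q3 pcF1 Cut.none Ext.none :=
  certFK0 (fam := false) (s1 := false) (s2 := false) (a := 1) (b := 1) (c := 3) (cn := .nn) (n1 := ndF3q1) (n2 := ndF3q3) (pc := pcF1) (cut := Cut.none) (xt := Ext.none) (P1 := 536870912) (W1 := 536870912) (P2 := 0) (W2 := 1230186008) (P3 := 67108864) (W3 := 67108864)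
    rfl rfl rfl k0_mm_113

noncomputable def f_mm_123 : ℕ → ℕ → ℕ → ℕ → Bool := onCell 536870912 536870912 0 1230186008 67108864 67108864
    (rowFK 0 false false false .npn 1 2 3 (qsf 536870912 536870912 0 1230186008 2) ndF3q1 ndF3q3 pcF2 Cut.none Ext.none)

def k0_mm_123 : ∃ t, chk3 f_mm_123 t 1 1 1 = true :=
  ⟨(l 5), by decide +kernel⟩

theorem c_mm_123 : CertF 536870912 536870912 0 1230186008 67108864 67108864 false false false .npn 1 2 3
    ndF3q1 ndF3q3 pcF2 Cut.none Ext.none :=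
  certFK0 (fam := false) (s1 := false) (s2 := false) (a := 1) (b := 2) (c := 3) (cn := .npn) (n1 := ndF3q1) (n2 := ndF3q3) (pc := pcF2) (cut := Cut.none) (xt := Ext.none) (P1 := 536870912) (W1 := 536870912) (P2 := 0) (W2 := 1230186008) (P3 := 67108864) (W3 := 67108864)
    rfl rfl rfl k0_mm_123

noncomputable def f_mm_133 : ℕ → ℕ → ℕ → ℕ → Bool := onCell 536870912 536870912 0 1230186008 67108864 67108864
    (rowFK 0 false false false .dn 1 3 3 (qsf 536870912 536870912 0 1230186008 3) ndF3q1 ndF3q3 pcF3 Cut.none Ext.none)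

def k0_mm_133 : ∃ t, chk3 f_mm_133 t 1 1 1 = true :=
  ⟨(l 5), by decide +kernel⟩

theorem c_mm_133 : CertF 536870912 536870912 0 1230186008 67108864 67108864 false false false .dn 1 3 3
    ndF3q1 ndF3q3 pcF3 Cut.none Ext.none :=
  certFK0 (fam := false) (s1 := false) (s2 := false) (a := 1) (b := 3) (c := 3) (cn := .dn) (n1 := ndF3q1) (n2 := ndF3q3) (pc := pcF3) (cut := Cut.none) (xt := Ext.none) (P1 := 536870912) (W1 := 536870912) (P2 := 0) (W2 := 1230186008) (P3 := 67108864) (W3 := 67108864)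
    rfl rfl rfl k0_mm_133

noncomputable def f_mm_202 : ℕ → ℕ → ℕ → ℕ → Bool := onCell 1073741824 536870912 1073741824 536870912 67108864 67108864
    (rowFK 0 false false false .pp 2 0 2 (qsf 1073741824 536870912 1073741824 536870912 0) ndF3q2 ndF3q2 pcF0 Cut.none Ext.none)

def k0_mm_202 : ∃ t, chk3 f_mm_202 t 1 1 1 = true :=
  ⟨(l 3), by decide +kernel⟩

theorem c_mm_202 : CertF 1073741824 536870912 1073741824 536870912 67108864 67108864 false false false .pp 2 0 2
    ndF3q2 ndF3q2 pcF0 Cut.none Ext.none :=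
  certFK0 (fam := false) (s1 := false) (s2 := false) (a := 2) (b := 0) (c := 2) (cn := .pp) (n1 := ndF3q2) (n2 := ndF3q2) (pc := pcF0) (cut := Cut.none) (xt := Ext.none) (P1 := 1073741824) (W1 := 536870912) (P2 := 1073741824) (W2 := 536870912) (P3 := 67108864) (W3 := 67108864)
    rfl rfl rfl k0_mm_202

noncomputable def f_mm_203 : ℕ → ℕ → ℕ → ℕ → Bool := onCell 1073741824 536870912 0 1230186008 67108864 67108864
    (rowFK 0 false false false .up 2 0 3 (qsf 1073741824 536870912 0 1230186008 0) ndF3q2 ndF3q3 pcF0 Cut.none Ext.none)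

def k0_mm_203 : ∃ t, chk3 f_mm_203 t 1 1 1 = true :=
  ⟨(b (l 5) (b (l 5) (l 3))), by decide +kernel⟩

theorem c_mm_203 : CertF 1073741824 536870912 0 1230186008 67108864 67108864 false false false .up 2 0 3
    ndF3q2 ndF3q3 pcF0 Cut.none Ext.none :=
  certFK0 (fam := false) (s1 := false) (s2 := false) (a := 2) (b := 0) (c := 3) (cn := .up) (n1 := ndF3q2) (n2 := ndF3q3) (pc := pcF0) (cut := Cut.none) (xt := Ext.none) (P1 := 1073741824) (W1 := 536870912) (P2 := 0) (W2 := 1230186008) (P3 := 67108864) (W3 := 67108864)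
    rfl rfl rfl k0_mm_203

noncomputable def f_mm_213 : ℕ → ℕ → ℕ → ℕ → Bool := onCell 536870912 536870912 0 1230186008 67108864 67108864
    (rowFK 2 false false false .pnn 2 1 3 (qsf 1073741824 536870912 0 1230186008 1) ndF3q2 ndF3q3 pcF1 Cut.none Ext.none)

def k0_mm_213 : ∃ t, chk3 f_mm_213 t 1 1 1 = true :=
  ⟨(b (l 5) (l 5)), by decide +kernel⟩

theorem c_mm_213 : CertF 1073741824 536870912 0 1230186008 67108864 67108864 false false false .pnn 2 1 3
    ndF3q2 ndF3q3 pcF1 Cut.none Ext.none :=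
  certFK2 (fam := false) (s1 := false) (s2 := false) (a := 2) (b := 1) (c := 3) (cn := .pnn) (n1 := ndF3q2) (n2 := ndF3q3) (pc := pcF1) (cut := Cut.none) (xt := Ext.none) (P1 := 1073741824) (W1 := 536870912) (P2 := 0) (W2 := 1230186008) (P3 := 67108864) (W3 := 67108864)
    rfl rfl rfl (fun _ => rfl) k0_mm_213

noncomputable def f_mm_303 : ℕ → ℕ → ℕ → ℕ → Bool := onCell 0 1230186008 0 1230186008 67108864 67108864
    (rowFK 0 false false false .npn 3 0 3 (qsf 0 1230186008 0 1230186008 0) ndF3q3 ndF3q3 pcF0 Cut.none Ext.none)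

def k0_mm_303 : ∃ t, chk3 f_mm_303 t 1 1 1 = true :=
  ⟨(a (b (l 3) (l 3)) (b (l 3) (l 3))), by decide +kernel⟩

theorem c_mm_303 : CertF 0 1230186008 0 1230186008 67108864 67108864 false false false .npn 3 0 3
    ndF3q3 ndF3q3 pcF0 Cut.none Ext.none :=
  certFK0 (fam := false) (s1 := false) (s2 := false) (a := 3) (b := 0) (c := 3) (cn := .npn) (n1 := ndF3q3) (n2 := ndF3q3) (pc := pcF0) (cut := Cut.none) (xt := Ext.none) (P1 := 0) (W1 := 1230186008) (P2 := 0) (W2 := 1230186008) (P3 := 67108864) (W3 := 67108864)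
    rfl rfl rfl k0_mm_303

noncomputable def f_mm_313 : ℕ → ℕ → ℕ → ℕ → Bool := onCell 0 1230186008 0 1230186008 67108864 67108864
    (rowFK 0 false false false .dn 3 1 3 (qsf 0 1230186008 0 1230186008 1) ndF3q3 ndF3q3 pcF1 Cut.none Ext.none)

def k0_mm_313 : ∃ t, chk3 f_mm_313 t 1 1 1 = true :=
  ⟨(a (l 1) (b (l 3) (l 1))), by decide +kernel⟩

theorem c_mm_313 : CertF 0 1230186008 0 1230186008 67108864 67108864 false false false .dn 3 1 3
    ndF3q3 ndF3q3 pcF1 Cut.none Ext.none :=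
  certFK0 (fam := false) (s1 := false) (s2 := false) (a := 3) (b := 1) (c := 3) (cn := .dn) (n1 := ndF3q3) (n2 := ndF3q3) (pc := pcF1) (cut := Cut.none) (xt := Ext.none) (P1 := 0) (W1 := 1230186008) (P2 := 0) (W2 := 1230186008) (P3 := 67108864) (W3 := 67108864)
    rfl rfl rfl k0_mm_313

end Pool.Agent.Strip051.G.I1_16_1_8.Tab.C.FB33

namespace Pool.Agent.Strip051.G.I1_16_1_8.Tab.C.FB34

open Pool.Agent.Strip051.PB Pool.Agent.Strip051.PB.T
open Pool.Agent.Strip051.G.I1_16_1_8.Tab

noncomputable def f_pp_001 : ℕ → ℕ → ℕ → ℕ → Bool := onCell 0 536870912 536870912 536870912 67108864 67108864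
    (rowFK 0 false true true .up 0 0 1 (qsf 0 536870912 536870912 536870912 0) ndF3q0 ndF4q1 pcF0 Cut.none Ext.none)

def k0_pp_001 : ∃ t, chk3 f_pp_001 t 1 1 1 = true :=
  ⟨(l 3), by decide +kernel⟩

theorem c_pp_001 : CertF 0 536870912 536870912 536870912 67108864 67108864 false true true .up 0 0 1
    ndF3q0 ndF4q1 pcF0 Cut.none Ext.none :=
  certFK0 (fam := false) (s1 := true) (s2 := true) (a := 0) (b := 0) (c := 1) (cn := .up) (n1 := ndF3q0) (n2 := ndF4q1) (pc := pcF0) (cut := Cut.none) (xt := Ext.none) (P1 := 0) (W1 := 536870912) (P2 := 536870912) (W2 := 536870912) (P3 := 67108864) (W3 := 67108864)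
    rfl rfl rfl k0_pp_001

noncomputable def f_pp_011 : ℕ → ℕ → ℕ → ℕ → Bool := onCell 0 536870912 536870912 536870912 67108864 67108864
    (rowFK 0 false true true .pnn 0 1 1 (qsf 0 536870912 536870912 536870912 1) ndF3q0 ndF4q1 pcF1 Cut.none Ext.none)

def k0_pp_011 : ∃ t, chk3 f_pp_011 t 1 1 1 = true :=
  ⟨(l 3), by decide +kernel⟩

theorem c_pp_011 : CertF 0 536870912 536870912 536870912 67108864 67108864 false true true .pnn 0 1 1
    ndF3q0 ndF4q1 pcF1 Cut.none Ext.none :=
  certFK0 (fam := false) (s1 := true) (s2 := true) (a := 0) (b := 1) (c := 1) (cn := .pnn) (n1 := ndF3q0) (n2 := ndF4q1) (pc := pcF1) (cut := Cut.none) (xt := Ext.none) (P1 := 0) (W1 := 536870912) (P2 := 536870912) (W2 := 536870912) (P3 := 67108864) (W3 := 67108864)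
    rfl rfl rfl k0_pp_011

noncomputable def f_pp_012 : ℕ → ℕ → ℕ → ℕ → Bool := onCell 0 536870912 536870912 536870912 67108864 67108864
    (rowFK 1 false true true .pnp 0 1 2 (qsf 0 536870912 1073741824 536870912 1) ndF3q0 ndF4q2 pcF1 Cut.none Ext.none)

def k0_pp_012 : ∃ t, chk3 f_pp_012 t 1 1 1 = true :=
  ⟨(b (l 3) (l 3)), by decide +kernel⟩

theorem c_pp_012 : CertF 0 536870912 1073741824 536870912 67108864 67108864 false true true .pnp 0 1 2
    ndF3q0 ndF4q2 pcF1 Cut.none Ext.none :=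
  certFK1 (fam := false) (s1 := true) (s2 := true) (a := 0) (b := 1) (c := 2) (cn := .pnp) (n1 := ndF3q0) (n2 := ndF4q2) (pc := pcF1) (cut := Cut.none) (xt := Ext.none) (P1 := 0) (W1 := 536870912) (P2 := 1073741824) (W2 := 536870912) (P3 := 67108864) (W3 := 67108864)
    rfl rfl rfl (fun _ => rfl) k0_pp_012

noncomputable def f_pp_022 : ℕ → ℕ → ℕ → ℕ → Bool := onCell 0 536870912 1073741824 536870912 67108864 67108864
    (rowFK 1 false true true .pp 0 2 2 (qsf 0 536870912 1073741824 536870912 2) ndF3q0 ndF4q2 pcF2 Cut.none Ext.none)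

def k0_pp_022 : ∃ t, chk3 f_pp_022 t 1 1 1 = true :=
  ⟨(a (b (a (b (l 3) (b (b (b (l 3) (b (l 18984536) (l 18959720))) (l 18898872)) (l 18749152))) (b (l 3) (b (b (b (l 18348040) (l 18376960)) (l 18217408)) (l 18045552)))) (a (b (l 18445144) (a (l 18121440) (l 17780432))) (b (a (l 17885216) (l 17522664)) (b (l 17362656) (l 2))))) (b (a (b (b (l 3) (l 17754568)) (b (b (b (l 17626088) (l 17581760)) (l 17499368)) (l 17389880))) (b (b (l 17336576) (l 17540800)) (b (b (l 17591920) (l 2)) (l 2)))) (a (b (b (l 17305152) (l 2)) (l 2)) (l 2)))), by decide +kernel⟩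

theorem c_pp_022 : CertF 0 536870912 1073741824 536870912 67108864 67108864 false true true .pp 0 2 2
    ndF3q0 ndF4q2 pcF2 Cut.none Ext.none :=
  certFK1 (fam := false) (s1 := true) (s2 := true) (a := 0) (b := 2) (c := 2) (cn := .pp) (n1 := ndF3q0) (n2 := ndF4q2) (pc := pcF2) (cut := Cut.none) (xt := Ext.none) (P1 := 0) (W1 := 536870912) (P2 := 1073741824) (W2 := 536870912) (P3 := 67108864) (W3 := 67108864)
    rfl rfl rfl (fun _ => rfl) k0_pp_022

noncomputable def f_pp_023 : ℕ → ℕ → ℕ → ℕ → Bool := onCell 1073741824 536870912 0 1230186008 67108864 67108864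
    (rowFK 2 false true true .up 0 2 3 (qsf 0 536870912 0 1230186008 2) ndF3q0 ndF4q3 pcF2 Cut.none Ext.none)

def k0_pp_023 : ∃ t, chk3 f_pp_023 t 1 1 1 = true :=
  ⟨(b (a (l 2) (a (l 2) (l 17974696))) (b (a (a (l 2) (l 18250640)) (a (l 17915912) (l 17498176))) (a (a (a (a (l 17862048) (l 204718284423)) (b (l 2) (l 17588728))) (b (l 17806896) (a (b (l 17637136) (l 17453080)) (l 17389904)))) (b (l 17233272) (a (l 17331704) (l 17546744)))))), by decide +kernel⟩

theorem c_pp_023 : CertF 0 536870912 0 1230186008 67108864 67108864 false true true .up 0 2 3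
    ndF3q0 ndF4q3 pcF2 Cut.none Ext.none :=
  certFK2 (fam := false) (s1 := true) (s2 := true) (a := 0) (b := 2) (c := 3) (cn := .up) (n1 := ndF3q0) (n2 := ndF4q3) (pc := pcF2) (cut := Cut.none) (xt := Ext.none) (P1 := 0) (W1 := 536870912) (P2 := 0) (W2 := 1230186008) (P3 := 67108864) (W3 := 67108864)
    rfl rfl rfl (fun _ => rfl) k0_pp_023

noncomputable def f_pp_033 : ℕ → ℕ → ℕ → ℕ → Bool := onCell 1610612736 536870912 0 1230186008 67108864 67108864
    (rowFK 2 false true true .pnn 0 3 3 (qsf 0 536870912 0 1230186008 3) ndF3q0 ndF4q3 pcF3 Cut.none Ext.none)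

def k0_pp_033 : ∃ t, chk3 f_pp_033 t 1 1 1 = true :=
  ⟨(b (b (a (l 4) (l 4)) (a (a (l 17222616) (l 17306872)) (a (l 17630064) (l 4)))) (b (a (a (b (l 17274536) (l 17417912)) (b (l 17383272) (b (l 17684568) (l 17605632)))) (a (a (l 702263024295) (l 723200788535)) (b (a (l 17985088) (l 1)) (l 1)))) (a (b (b (a (l 17113360) (l 17433704)) (a (a (l 17904536) (l 17842120)) (a (l 17808088) (l 1)))) (a (a (b (l 17799592) (l 18125264)) (b (l 17773664) (l 700653061367))) (b (a (l 17896008) (l 1)) (l 1)))) (l 1)))), by decide +kernel⟩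

theorem c_pp_033 : CertF 0 536870912 0 1230186008 67108864 67108864 false true true .pnn 0 3 3
    ndF3q0 ndF4q3 pcF3 Cut.none Ext.none :=
  certFK2 (fam := false) (s1 := true) (s2 := true) (a := 0) (b := 3) (c := 3) (cn := .pnn) (n1 := ndF3q0) (n2 := ndF4q3) (pc := pcF3) (cut := Cut.none) (xt := Ext.none) (P1 := 0) (W1 := 536870912) (P2 := 0) (W2 := 1230186008) (P3 := 67108864) (W3 := 67108864)
    rfl rfl rfl (fun _ => rfl) k0_pp_033

noncomputable def f_pp_101 : ℕ → ℕ → ℕ → ℕ → Bool := onCell 536870912 536870912 536870912 536870912 67108864 67108864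
    (rowFK 0 false true true .npn 1 0 1 (qsf 536870912 536870912 536870912 536870912 0) ndF3q1 ndF4q1 pcF0 Cut.none Ext.none)

def k0_pp_101 : ∃ t, chk3 f_pp_101 t 1 1 1 = true :=
  ⟨(l 3), by decide +kernel⟩

theorem c_pp_101 : CertF 536870912 536870912 536870912 536870912 67108864 67108864 false true true .npn 1 0 1
    ndF3q1 ndF4q1 pcF0 Cut.none Ext.none :=
  certFK0 (fam := false) (s1 := true) (s2 := true) (a := 1) (b := 0) (c := 1) (cn := .npn) (n1 := ndF3q1) (n2 := ndF4q1) (pc := pcF0) (cut := Cut.none) (xt := Ext.none) (P1 := 536870912) (W1 := 536870912) (P2 := 536870912) (W2 := 536870912) (P3 := 67108864) (W3 := 67108864)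
    rfl rfl rfl k0_pp_101

noncomputable def f_pp_102 : ℕ → ℕ → ℕ → ℕ → Bool := onCell 536870912 536870912 1073741824 536870912 67108864 67108864
    (rowFK 0 false true true .npp 1 0 2 (qsf 536870912 536870912 1073741824 536870912 0) ndF3q1 ndF4q2 pcF0 Cut.none Ext.none)

def k0_pp_102 : ∃ t, chk3 f_pp_102 t 1 1 1 = true :=
  ⟨(l 3), by decide +kernel⟩

theorem c_pp_102 : CertF 536870912 536870912 1073741824 536870912 67108864 67108864 false true true .npp 1 0 2
    ndF3q1 ndF4q2 pcF0 Cut.none Ext.none :=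
  certFK0 (fam := false) (s1 := true) (s2 := true) (a := 1) (b := 0) (c := 2) (cn := .npp) (n1 := ndF3q1) (n2 := ndF4q2) (pc := pcF0) (cut := Cut.none) (xt := Ext.none) (P1 := 536870912) (W1 := 536870912) (P2 := 1073741824) (W2 := 536870912) (P3 := 67108864) (W3 := 67108864)
    rfl rfl rfl k0_pp_102

noncomputable def f_pp_112 : ℕ → ℕ → ℕ → ℕ → Bool := onCell 536870912 536870912 1073741824 536870912 67108864 67108864
    (rowFK 0 false true true .dn 1 1 2 (qsf 536870912 536870912 1073741824 536870912 1) ndF3q1 ndF4q2 pcF1 Cut.none Ext.none)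

def k0_pp_112 : ∃ t, chk3 f_pp_112 t 1 1 1 = true :=
  ⟨(l 3), by decide +kernel⟩

theorem c_pp_112 : CertF 536870912 536870912 1073741824 536870912 67108864 67108864 false true true .dn 1 1 2
    ndF3q1 ndF4q2 pcF1 Cut.none Ext.none :=
  certFK0 (fam := false) (s1 := true) (s2 := true) (a := 1) (b := 1) (c := 2) (cn := .dn) (n1 := ndF3q1) (n2 := ndF4q2) (pc := pcF1) (cut := Cut.none) (xt := Ext.none) (P1 := 536870912) (W1 := 536870912) (P2 := 1073741824) (W2 := 536870912) (P3 := 67108864) (W3 := 67108864)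
    rfl rfl rfl k0_pp_112

noncomputable def f_pp_113 : ℕ → ℕ → ℕ → ℕ → Bool := onCell 536870912 536870912 0 1230186008 67108864 67108864
    (rowFK 2 false true true .nn 1 1 3 (qsf 536870912 536870912 0 1230186008 1) ndF3q1 ndF4q3 pcF1 Cut.none Ext.none)

def k0_pp_113 : ∃ t, chk3 f_pp_113 t 1 1 1 = true :=
  ⟨(a (b (l 2) (b (a (l 2) (l 269146007991)) (l 3))) (a (b (l 2) (b (l 18653128) (b (l 18683992) (l 3)))) (b (a (b (l 2) (l 18219112)) (a (b (l 2) (l 17908616)) (l 17361280))) (b (l 18139648) (b (l 18325888) (l 18543232)))))), by decide +kernel⟩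

theorem c_pp_113 : CertF 536870912 536870912 0 1230186008 67108864 67108864 false true true .nn 1 1 3
    ndF3q1 ndF4q3 pcF1 Cut.none Ext.none :=
  certFK2 (fam := false) (s1 := true) (s2 := true) (a := 1) (b := 1) (c := 3) (cn := .nn) (n1 := ndF3q1) (n2 := ndF4q3) (pc := pcF1) (cut := Cut.none) (xt := Ext.none) (P1 := 536870912) (W1 := 536870912) (P2 := 0) (W2 := 1230186008) (P3 := 67108864) (W3 := 67108864)
    rfl rfl rfl (fun _ => rfl) k0_pp_113

noncomputable def f_pp_123 : ℕ → ℕ → ℕ → ℕ → Bool := onCell 1073741824 536870912 0 1230186008 67108864 67108864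
    (rowFK 2 false true true .npn 1 2 3 (qsf 536870912 536870912 0 1230186008 2) ndF3q1 ndF4q3 pcF2 Cut.none Ext.none)

def k0_pp_123 : ∃ t, chk3 f_pp_123 t 1 1 1 = true :=
  ⟨(a (b (b (l 16915904) (l 17263360)) (b (a (a (a (l 17844464) (l 17794920)) (l 17716256)) (l 17564656)) (a (a (a (l 18295384) (b (l 18073608) (l 18314592))) (b (l 17984848) (l 18220304))) (b (l 17814400) (l 373698719079))))) (b (a (l 17143096) (l 17196184)) (b (b (l 17251096) (l 17347504)) (l 1)))), by decide +kernel⟩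

theorem c_pp_123 : CertF 536870912 536870912 0 1230186008 67108864 67108864 false true true .npn 1 2 3
    ndF3q1 ndF4q3 pcF2 Cut.none Ext.none :=
  certFK2 (fam := false) (s1 := true) (s2 := true) (a := 1) (b := 2) (c := 3) (cn := .npn) (n1 := ndF3q1) (n2 := ndF4q3) (pc := pcF2) (cut := Cut.none) (xt := Ext.none) (P1 := 536870912) (W1 := 536870912) (P2 := 0) (W2 := 1230186008) (P3 := 67108864) (W3 := 67108864)
    rfl rfl rfl (fun _ => rfl) k0_pp_123

noncomputable def f_pp_133 : ℕ → ℕ → ℕ → ℕ → Bool := onCell 1610612736 536870912 0 1230186008 67108864 67108864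
    (rowFK 2 false true true .dn 1 3 3 (qsf 536870912 536870912 0 1230186008 3) ndF3q1 ndF4q3 pcF3 Cut.none Ext.none)

def k0_pp_133 : ∃ t, chk3 f_pp_133 t 1 1 1 = true :=
  ⟨(b (a (a (l 1061966794807) (l 1)) (l 1)) (l 1)), by decide +kernel⟩

theorem c_pp_133 : CertF 536870912 536870912 0 1230186008 67108864 67108864 false true true .dn 1 3 3
    ndF3q1 ndF4q3 pcF3 Cut.none Ext.none :=
  certFK2 (fam := false) (s1 := true) (s2 := true) (a := 1) (b := 3) (c := 3) (cn := .dn) (n1 := ndF3q1) (n2 := ndF4q3) (pc := pcF3) (cut := Cut.none) (xt := Ext.none) (P1 := 536870912) (W1 := 536870912) (P2 := 0) (W2 := 1230186008) (P3 := 67108864) (W3 := 67108864)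
    rfl rfl rfl (fun _ => rfl) k0_pp_133

noncomputable def f_pp_202 : ℕ → ℕ → ℕ → ℕ → Bool := onCell 1073741824 536870912 1073741824 536870912 67108864 67108864
    (rowFK 0 false true true .pp 2 0 2 (qsf 1073741824 536870912 1073741824 536870912 0) ndF3q2 ndF4q2 pcF0 Cut.none Ext.none)

def k0_pp_202 : ∃ t, chk3 f_pp_202 t 1 1 1 = true :=
  ⟨(l 3), by decide +kernel⟩

theorem c_pp_202 : CertF 1073741824 536870912 1073741824 536870912 67108864 67108864 false true true .pp 2 0 2
    ndF3q2 ndF4q2 pcF0 Cut.none Ext.none :=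
  certFK0 (fam := false) (s1 := true) (s2 := true) (a := 2) (b := 0) (c := 2) (cn := .pp) (n1 := ndF3q2) (n2 := ndF4q2) (pc := pcF0) (cut := Cut.none) (xt := Ext.none) (P1 := 1073741824) (W1 := 536870912) (P2 := 1073741824) (W2 := 536870912) (P3 := 67108864) (W3 := 67108864)
    rfl rfl rfl k0_pp_202

noncomputable def f_pp_203 : ℕ → ℕ → ℕ → ℕ → Bool := onCell 0 536870912 0 1230186008 67108864 67108864
    (rowFK 2 false true true .up 2 0 3 (qsf 1073741824 536870912 0 1230186008 0) ndF3q2 ndF4q3 pcF0 Cut.none Ext.none)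

def k0_pp_203 : ∃ t, chk3 f_pp_203 t 1 1 1 = true :=
  ⟨(b (a (l 2) (l 3)) (l 3)), by decide +kernel⟩

theorem c_pp_203 : CertF 1073741824 536870912 0 1230186008 67108864 67108864 false true true .up 2 0 3
    ndF3q2 ndF4q3 pcF0 Cut.none Ext.none :=
  certFK2 (fam := false) (s1 := true) (s2 := true) (a := 2) (b := 0) (c := 3) (cn := .up) (n1 := ndF3q2) (n2 := ndF4q3) (pc := pcF0) (cut := Cut.none) (xt := Ext.none) (P1 := 1073741824) (W1 := 536870912) (P2 := 0) (W2 := 1230186008) (P3 := 67108864) (W3 := 67108864)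
    rfl rfl rfl (fun _ => rfl) k0_pp_203

noncomputable def f_pp_213 : ℕ → ℕ → ℕ → ℕ → Bool := onCell 536870912 536870912 0 1230186008 67108864 67108864
    (rowFK 2 false true true .pnn 2 1 3 (qsf 1073741824 536870912 0 1230186008 1) ndF3q2 ndF4q3 pcF1 Cut.none Ext.none)

def k0_pp_213 : ∃ t, chk3 f_pp_213 t 1 1 1 = true :=
  ⟨(b (a (a (l 3) (b (l 268604732119) (l 3))) (a (b (l 235855405607) (l 3)) (b (l 17125864) (l 363093654439)))) (l 3)), by decide +kernel⟩

theorem c_pp_213 : CertF 1073741824 536870912 0 1230186008 67108864 67108864 false true true .pnn 2 1 3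
    ndF3q2 ndF4q3 pcF1 Cut.none Ext.none :=
  certFK2 (fam := false) (s1 := true) (s2 := true) (a := 2) (b := 1) (c := 3) (cn := .pnn) (n1 := ndF3q2) (n2 := ndF4q3) (pc := pcF1) (cut := Cut.none) (xt := Ext.none) (P1 := 1073741824) (W1 := 536870912) (P2 := 0) (W2 := 1230186008) (P3 := 67108864) (W3 := 67108864)
    rfl rfl rfl (fun _ => rfl) k0_pp_213

noncomputable def f_pp_303 : ℕ → ℕ → ℕ → ℕ → Bool := onCell 0 1230186008 0 1230186008 67108864 67108864
    (rowFK 0 false true true .npn 3 0 3 (qsf 0 1230186008 0 1230186008 0) ndF3q3 ndF4q3 pcF0 Cut.none Ext.none)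

def k0_pp_303 : ∃ t, chk3 f_pp_303 t 1 1 1 = true :=
  ⟨(a (b (l 3) (l 5)) (a (l 3) (l 3))), by decide +kernel⟩

theorem c_pp_303 : CertF 0 1230186008 0 1230186008 67108864 67108864 false true true .npn 3 0 3
    ndF3q3 ndF4q3 pcF0 Cut.none Ext.none :=
  certFK0 (fam := false) (s1 := true) (s2 := true) (a := 3) (b := 0) (c := 3) (cn := .npn) (n1 := ndF3q3) (n2 := ndF4q3) (pc := pcF0) (cut := Cut.none) (xt := Ext.none) (P1 := 0) (W1 := 1230186008) (P2 := 0) (W2 := 1230186008) (P3 := 67108864) (W3 := 67108864)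
    rfl rfl rfl k0_pp_303

noncomputable def f_pp_313 : ℕ → ℕ → ℕ → ℕ → Bool := onCell 0 1230186008 0 1230186008 67108864 67108864
    (rowFK 0 false true true .dn 3 1 3 (qsf 0 1230186008 0 1230186008 1) ndF3q3 ndF4q3 pcF1 Cut.none Ext.none)

def k0_pp_313 : ∃ t, chk3 f_pp_313 t 1 1 1 = true :=
  ⟨(a (l 1) (b (l 3) (l 1))), by decide +kernel⟩

theorem c_pp_313 : CertF 0 1230186008 0 1230186008 67108864 67108864 false true true .dn 3 1 3
    ndF3q3 ndF4q3 pcF1 Cut.none Ext.none :=
  certFK0 (fam := false) (s1 := true) (s2 := true) (a := 3) (b := 1) (c := 3) (cn := .dn) (n1 := ndF3q3) (n2 := ndF4q3) (pc := pcF1) (cut := Cut.none) (xt := Ext.none) (P1 := 0) (W1 := 1230186008) (P2 := 0) (W2 := 1230186008) (P3 := 67108864) (W3 := 67108864)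
    rfl rfl rfl k0_pp_313

noncomputable def f_pm_001 : ℕ → ℕ → ℕ → ℕ → Bool := onCell 0 536870912 536870912 536870912 67108864 67108864
    (rowFK 0 false true false .up 0 0 1 (qsf 0 536870912 536870912 536870912 0) ndF3q0 ndF4q1 pcF0 Cut.none Ext.none)

def k0_pm_001 : ∃ t, chk3 f_pm_001 t 1 1 1 = true :=
  ⟨(l 4), by decide +kernel⟩

theorem c_pm_001 : CertF 0 536870912 536870912 536870912 67108864 67108864 false true false .up 0 0 1
    ndF3q0 ndF4q1 pcF0 Cut.none Ext.none :=
  certFK0 (fam := false) (s1 := true) (s2 := false) (a := 0) (b := 0) (c := 1) (cn := .up) (n1 := ndF3q0) (n2 := ndF4q1) (pc := pcF0) (cut := Cut.none) (xt := Ext.none) (P1 := 0) (W1 := 536870912) (P2 := 536870912) (W2 := 536870912) (P3 := 67108864) (W3 := 67108864)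
    rfl rfl rfl k0_pm_001

noncomputable def f_pm_011 : ℕ → ℕ → ℕ → ℕ → Bool := onCell 0 536870912 536870912 536870912 67108864 67108864
    (rowFK 0 false true false .pnn 0 1 1 (qsf 0 536870912 536870912 536870912 1) ndF3q0 ndF4q1 pcF1 Cut.none Ext.none)

def k0_pm_011 : ∃ t, chk3 f_pm_011 t 1 1 1 = true :=
  ⟨(l 4), by decide +kernel⟩

theorem c_pm_011 : CertF 0 536870912 536870912 536870912 67108864 67108864 false true false .pnn 0 1 1
    ndF3q0 ndF4q1 pcF1 Cut.none Ext.none :=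
  certFK0 (fam := false) (s1 := true) (s2 := false) (a := 0) (b := 1) (c := 1) (cn := .pnn) (n1 := ndF3q0) (n2 := ndF4q1) (pc := pcF1) (cut := Cut.none) (xt := Ext.none) (P1 := 0) (W1 := 536870912) (P2 := 536870912) (W2 := 536870912) (P3 := 67108864) (W3 := 67108864)
    rfl rfl rfl k0_pm_011

noncomputable def f_pm_012 : ℕ → ℕ → ℕ → ℕ → Bool := onCell 0 536870912 1073741824 536870912 67108864 67108864
    (rowFK 0 false true false .pnp 0 1 2 (qsf 0 536870912 1073741824 536870912 1) ndF3q0 ndF4q2 pcF1 Cut.none Ext.none)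

def k0_pm_012 : ∃ t, chk3 f_pm_012 t 1 1 1 = true :=
  ⟨(l 4), by decide +kernel⟩

theorem c_pm_012 : CertF 0 536870912 1073741824 536870912 67108864 67108864 false true false .pnp 0 1 2
    ndF3q0 ndF4q2 pcF1 Cut.none Ext.none :=
  certFK0 (fam := false) (s1 := true) (s2 := false) (a := 0) (b := 1) (c := 2) (cn := .pnp) (n1 := ndF3q0) (n2 := ndF4q2) (pc := pcF1) (cut := Cut.none) (xt := Ext.none) (P1 := 0) (W1 := 536870912) (P2 := 1073741824) (W2 := 536870912) (P3 := 67108864) (W3 := 67108864)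
    rfl rfl rfl k0_pm_012

noncomputable def f_pm_022 : ℕ → ℕ → ℕ → ℕ → Bool := onCell 0 536870912 1073741824 536870912 67108864 67108864
    (rowFK 0 false true false .pp 0 2 2 (qsf 0 536870912 1073741824 536870912 2) ndF3q0 ndF4q2 pcF2 Cut.none Ext.none)

def k0_pm_022 : ∃ t, chk3 f_pm_022 t 1 1 1 = true :=
  ⟨(l 4), by decide +kernel⟩

theorem c_pm_022 : CertF 0 536870912 1073741824 536870912 67108864 67108864 false true false .pp 0 2 2
    ndF3q0 ndF4q2 pcF2 Cut.none Ext.none :=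
  certFK0 (fam := false) (s1 := true) (s2 := false) (a := 0) (b := 2) (c := 2) (cn := .pp) (n1 := ndF3q0) (n2 := ndF4q2) (pc := pcF2) (cut := Cut.none) (xt := Ext.none) (P1 := 0) (W1 := 536870912) (P2 := 1073741824) (W2 := 536870912) (P3 := 67108864) (W3 := 67108864)
    rfl rfl rfl k0_pm_022

noncomputable def f_pm_023 : ℕ → ℕ → ℕ → ℕ → Bool := onCell 0 536870912 0 1230186008 67108864 67108864
    (rowFK 0 false true false .up 0 2 3 (qsf 0 536870912 0 1230186008 2) ndF3q0 ndF4q3 pcF2 Cut.none Ext.none)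

def k0_pm_023 : ∃ t, chk3 f_pm_023 t 1 1 1 = true :=
  ⟨(l 4), by decide +kernel⟩

theorem c_pm_023 : CertF 0 536870912 0 1230186008 67108864 67108864 false true false .up 0 2 3
    ndF3q0 ndF4q3 pcF2 Cut.none Ext.none :=
  certFK0 (fam := false) (s1 := true) (s2 := false) (a := 0) (b := 2) (c := 3) (cn := .up) (n1 := ndF3q0) (n2 := ndF4q3) (pc := pcF2) (cut := Cut.none) (xt := Ext.none) (P1 := 0) (W1 := 536870912) (P2 := 0) (W2 := 1230186008) (P3 := 67108864) (W3 := 67108864)
    rfl rfl rfl k0_pm_023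

noncomputable def f_pm_033 : ℕ → ℕ → ℕ → ℕ → Bool := onCell 0 536870912 0 1230186008 67108864 67108864
    (rowFK 0 false true false .pnn 0 3 3 (qsf 0 536870912 0 1230186008 3) ndF3q0 ndF4q3 pcF3 Cut.none Ext.none)

def k0_pm_033 : ∃ t, chk3 f_pm_033 t 1 1 1 = true :=
  ⟨(l 4), by decide +kernel⟩

theorem c_pm_033 : CertF 0 536870912 0 1230186008 67108864 67108864 false true false .pnn 0 3 3
    ndF3q0 ndF4q3 pcF3 Cut.none Ext.none :=
  certFK0 (fam := false) (s1 := true) (s2 := false) (a := 0) (b := 3) (c := 3) (cn := .pnn) (n1 := ndF3q0) (n2 := ndF4q3) (pc := pcF3) (cut := Cut.none) (xt := Ext.none) (P1 := 0) (W1 := 536870912) (P2 := 0) (W2 := 1230186008) (P3 := 67108864) (W3 := 67108864)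
    rfl rfl rfl k0_pm_033

noncomputable def f_pm_101 : ℕ → ℕ → ℕ → ℕ → Bool := onCell 536870912 536870912 536870912 536870912 67108864 67108864
    (rowFK 0 false true false .npn 1 0 1 (qsf 536870912 536870912 536870912 536870912 0) ndF3q1 ndF4q1 pcF0 Cut.none Ext.none)

def k0_pm_101 : ∃ t, chk3 f_pm_101 t 1 1 1 = true :=
  ⟨(l 4), by decide +kernel⟩

theorem c_pm_101 : CertF 536870912 536870912 536870912 536870912 67108864 67108864 false true false .npn 1 0 1
    ndF3q1 ndF4q1 pcF0 Cut.none Ext.none :=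
  certFK0 (fam := false) (s1 := true) (s2 := false) (a := 1) (b := 0) (c := 1) (cn := .npn) (n1 := ndF3q1) (n2 := ndF4q1) (pc := pcF0) (cut := Cut.none) (xt := Ext.none) (P1 := 536870912) (W1 := 536870912) (P2 := 536870912) (W2 := 536870912) (P3 := 67108864) (W3 := 67108864)
    rfl rfl rfl k0_pm_101

noncomputable def f_pm_102 : ℕ → ℕ → ℕ → ℕ → Bool := onCell 536870912 536870912 1073741824 536870912 67108864 67108864
    (rowFK 0 false true false .npp 1 0 2 (qsf 536870912 536870912 1073741824 536870912 0) ndF3q1 ndF4q2 pcF0 Cut.none Ext.none)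

def k0_pm_102 : ∃ t, chk3 f_pm_102 t 1 1 1 = true :=
  ⟨(l 4), by decide +kernel⟩

theorem c_pm_102 : CertF 536870912 536870912 1073741824 536870912 67108864 67108864 false true false .npp 1 0 2
    ndF3q1 ndF4q2 pcF0 Cut.none Ext.none :=
  certFK0 (fam := false) (s1 := true) (s2 := false) (a := 1) (b := 0) (c := 2) (cn := .npp) (n1 := ndF3q1) (n2 := ndF4q2) (pc := pcF0) (cut := Cut.none) (xt := Ext.none) (P1 := 536870912) (W1 := 536870912) (P2 := 1073741824) (W2 := 536870912) (P3 := 67108864) (W3 := 67108864)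
    rfl rfl rfl k0_pm_102

noncomputable def f_pm_112 : ℕ → ℕ → ℕ → ℕ → Bool := onCell 536870912 536870912 1073741824 536870912 67108864 67108864
    (rowFK 0 false true false .dn 1 1 2 (qsf 536870912 536870912 1073741824 536870912 1) ndF3q1 ndF4q2 pcF1 Cut.none Ext.none)

def k0_pm_112 : ∃ t, chk3 f_pm_112 t 1 1 1 = true :=
  ⟨(l 4), by decide +kernel⟩

theorem c_pm_112 : CertF 536870912 536870912 1073741824 536870912 67108864 67108864 false true false .dn 1 1 2
    ndF3q1 ndF4q2 pcF1 Cut.none Ext.none :=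
  certFK0 (fam := false) (s1 := true) (s2 := false) (a := 1) (b := 1) (c := 2) (cn := .dn) (n1 := ndF3q1) (n2 := ndF4q2) (pc := pcF1) (cut := Cut.none) (xt := Ext.none) (P1 := 536870912) (W1 := 536870912) (P2 := 1073741824) (W2 := 536870912) (P3 := 67108864) (W3 := 67108864)
    rfl rfl rfl k0_pm_112

noncomputable def f_pm_113 : ℕ → ℕ → ℕ → ℕ → Bool := onCell 536870912 536870912 0 1230186008 67108864 67108864
    (rowFK 0 false true false .nn 1 1 3 (qsf 536870912 536870912 0 1230186008 1) ndF3q1 ndF4q3 pcF1 Cut.none Ext.none)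

def k0_pm_113 : ∃ t, chk3 f_pm_113 t 1 1 1 = true :=
  ⟨(b (a (l 2) (b (l 16935072) (l 4))) (l 4)), by decide +kernel⟩

theorem c_pm_113 : CertF 536870912 536870912 0 1230186008 67108864 67108864 false true false .nn 1 1 3
    ndF3q1 ndF4q3 pcF1 Cut.none Ext.none :=
  certFK0 (fam := false) (s1 := true) (s2 := false) (a := 1) (b := 1) (c := 3) (cn := .nn) (n1 := ndF3q1) (n2 := ndF4q3) (pc := pcF1) (cut := Cut.none) (xt := Ext.none) (P1 := 536870912) (W1 := 536870912) (P2 := 0) (W2 := 1230186008) (P3 := 67108864) (W3 := 67108864)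
    rfl rfl rfl k0_pm_113

noncomputable def f_pm_123 : ℕ → ℕ → ℕ → ℕ → Bool := onCell 1073741824 536870912 0 1230186008 67108864 67108864
    (rowFK 2 false true false .npn 1 2 3 (qsf 536870912 536870912 0 1230186008 2) ndF3q1 ndF4q3 pcF2 Cut.none Ext.none)

def k0_pm_123 : ∃ t, chk3 f_pm_123 t 1 1 1 = true :=
  ⟨(b (a (l 22248845175) (l 4)) (l 4)), by decide +kernel⟩

theorem c_pm_123 : CertF 536870912 536870912 0 1230186008 67108864 67108864 false true false .npn 1 2 3
    ndF3q1 ndF4q3 pcF2 Cut.none Ext.none :=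
  certFK2 (fam := false) (s1 := true) (s2 := false) (a := 1) (b := 2) (c := 3) (cn := .npn) (n1 := ndF3q1) (n2 := ndF4q3) (pc := pcF2) (cut := Cut.none) (xt := Ext.none) (P1 := 536870912) (W1 := 536870912) (P2 := 0) (W2 := 1230186008) (P3 := 67108864) (W3 := 67108864)
    rfl rfl rfl (fun _ => rfl) k0_pm_123

noncomputable def f_pm_133 : ℕ → ℕ → ℕ → ℕ → Bool := onCell 1610612736 536870912 0 1230186008 67108864 67108864
    (rowFK 2 false true false .dn 1 3 3 (qsf 536870912 536870912 0 1230186008 3) ndF3q1 ndF4q3 pcF3 Cut.none Ext.none)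

def k0_pm_133 : ∃ t, chk3 f_pm_133 t 1 1 1 = true :=
  ⟨(b (l 4) (l 1)), by decide +kernel⟩

theorem c_pm_133 : CertF 536870912 536870912 0 1230186008 67108864 67108864 false true false .dn 1 3 3
    ndF3q1 ndF4q3 pcF3 Cut.none Ext.none :=
  certFK2 (fam := false) (s1 := true) (s2 := false) (a := 1) (b := 3) (c := 3) (cn := .dn) (n1 := ndF3q1) (n2 := ndF4q3) (pc := pcF3) (cut := Cut.none) (xt := Ext.none) (P1 := 536870912) (W1 := 536870912) (P2 := 0) (W2 := 1230186008) (P3 := 67108864) (W3 := 67108864)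
    rfl rfl rfl (fun _ => rfl) k0_pm_133

noncomputable def f_pm_202 : ℕ → ℕ → ℕ → ℕ → Bool := onCell 1073741824 536870912 1073741824 536870912 67108864 67108864
    (rowFK 0 false true false .pp 2 0 2 (qsf 1073741824 536870912 1073741824 536870912 0) ndF3q2 ndF4q2 pcF0 Cut.none Ext.none)

def k0_pm_202 : ∃ t, chk3 f_pm_202 t 1 1 1 = true :=
  ⟨(l 4), by decide +kernel⟩

theorem c_pm_202 : CertF 1073741824 536870912 1073741824 536870912 67108864 67108864 false true false .pp 2 0 2
    ndF3q2 ndF4q2 pcF0 Cut.none Ext.none :=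
  certFK0 (fam := false) (s1 := true) (s2 := false) (a := 2) (b := 0) (c := 2) (cn := .pp) (n1 := ndF3q2) (n2 := ndF4q2) (pc := pcF0) (cut := Cut.none) (xt := Ext.none) (P1 := 1073741824) (W1 := 536870912) (P2 := 1073741824) (W2 := 536870912) (P3 := 67108864) (W3 := 67108864)
    rfl rfl rfl k0_pm_202

noncomputable def f_pm_203 : ℕ → ℕ → ℕ → ℕ → Bool := onCell 0 536870912 0 1230186008 67108864 67108864
    (rowFK 2 false true false .up 2 0 3 (qsf 1073741824 536870912 0 1230186008 0) ndF3q2 ndF4q3 pcF0 Cut.none Ext.none)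

def k0_pm_203 : ∃ t, chk3 f_pm_203 t 1 1 1 = true :=
  ⟨(b (a (l 2) (a (l 2) (b (l 253035239351) (b (l 17443984) (l 17264936))))) (b (a (a (l 2) (b (l 2) (l 16988448))) (a (b (l 17105632) (l 17074088)) (b (l 17231320) (l 17184008)))) (a (b (l 17166536) (l 17658488)) (a (l 17377256) (b (l 17343888) (l 4)))))), by decide +kernel⟩

theorem c_pm_203 : CertF 1073741824 536870912 0 1230186008 67108864 67108864 false true false .up 2 0 3
    ndF3q2 ndF4q3 pcF0 Cut.none Ext.none :=
  certFK2 (fam := false) (s1 := true) (s2 := false) (a := 2) (b := 0) (c := 3) (cn := .up) (n1 := ndF3q2) (n2 := ndF4q3) (pc := pcF0) (cut := Cut.none) (xt := Ext.none) (P1 := 1073741824) (W1 := 536870912) (P2 := 0) (W2 := 1230186008) (P3 := 67108864) (W3 := 67108864)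
    rfl rfl rfl (fun _ => rfl) k0_pm_203

noncomputable def f_pm_213 : ℕ → ℕ → ℕ → ℕ → Bool := onCell 536870912 536870912 0 1230186008 67108864 67108864
    (rowFK 2 false true false .pnn 2 1 3 (qsf 1073741824 536870912 0 1230186008 1) ndF3q2 ndF4q3 pcF1 Cut.none Ext.none)

def k0_pm_213 : ∃ t, chk3 f_pm_213 t 1 1 1 = true :=
  ⟨(b (b (a (a (l 193979948135) (l 17431264)) (b (a (l 17199792) (l 16986352)) (a (l 17364808) (a (l 17120408) (a (l 16954360) (l 16821896)))))) (a (a (l 17974096) (l 17745680)) (a (b (l 17365152) (l 17050472)) (a (l 17041416) (a (l 17239656) (l 17349248)))))) (b (a (a (b (b (b (l 18474416) (l 18304744)) (b (l 17399368) (a (l 17083968) (l 17334336)))) (a (b (l 17436536) (l 17509560)) (l 17587288))) (b (b (a (l 17639448) (l 17318640)) (a (l 17096296) (l 17290512))) (l 17745480))) (b (a (a (b (l 17086768) (l 17510032)) (l 17561704)) (a (l 17837592) (l 1))) (l 18046592))) (a (l 188679957575) (l 1)))), by decide +kernel⟩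

theorem c_pm_213 : CertF 1073741824 536870912 0 1230186008 67108864 67108864 false true false .pnn 2 1 3
    ndF3q2 ndF4q3 pcF1 Cut.none Ext.none :=
  certFK2 (fam := false) (s1 := true) (s2 := false) (a := 2) (b := 1) (c := 3) (cn := .pnn) (n1 := ndF3q2) (n2 := ndF4q3) (pc := pcF1) (cut := Cut.none) (xt := Ext.none) (P1 := 1073741824) (W1 := 536870912) (P2 := 0) (W2 := 1230186008) (P3 := 67108864) (W3 := 67108864)
    rfl rfl rfl (fun _ => rfl) k0_pm_213

noncomputable def f_pm_303 : ℕ → ℕ → ℕ → ℕ → Bool := onCell 0 1230186008 0 1230186008 67108864 67108864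
    (rowFK 0 false true false .npn 3 0 3 (qsf 0 1230186008 0 1230186008 0) ndF3q3 ndF4q3 pcF0 Cut.none Ext.none)

def k0_pm_303 : ∃ t, chk3 f_pm_303 t 1 1 1 = true :=
  ⟨(a (b (l 3) (b (b (b (l 3) (l 1)) (l 1)) (l 1))) (b (a (b (l 3) (a (l 3) (l 237465893063))) (b (a (l 3) (l 273973650183)) (a (b (l 17096088) (b (l 17061168) (l 17167472))) (b (l 17436400) (a (l 17502264) (l 17712312)))))) (a (b (a (b (b (l 17708008) (l 17440688)) (b (l 17410480) (l 1))) (b (b (l 17356216) (l 17045672)) (b (l 17420080) (a (l 17767016) (l 17771576))))) (a (l 1) (b (b (l 17660848) (l 1)) (l 1)))) (b (a (b (b (a (l 17030680) (l 17290024)) (l 17349760)) (b (l 17655904) (l 17752176))) (b (l 17894192) (l 17806352))) (b (a (l 17582800) (l 17627248)) (a (a (l 1) (b (l 17285064) (l 1))) (l 17291520))))))), by decide +kernel⟩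

theorem c_pm_303 : CertF 0 1230186008 0 1230186008 67108864 67108864 false true false .npn 3 0 3
    ndF3q3 ndF4q3 pcF0 Cut.none Ext.none :=
  certFK0 (fam := false) (s1 := true) (s2 := false) (a := 3) (b := 0) (c := 3) (cn := .npn) (n1 := ndF3q3) (n2 := ndF4q3) (pc := pcF0) (cut := Cut.none) (xt := Ext.none) (P1 := 0) (W1 := 1230186008) (P2 := 0) (W2 := 1230186008) (P3 := 67108864) (W3 := 67108864)
    rfl rfl rfl k0_pm_303

noncomputable def f_pm_313 : ℕ → ℕ → ℕ → ℕ → Bool := onCell 0 1230186008 0 1230186008 67108864 67108864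
    (rowFK 0 false true false .dn 3 1 3 (qsf 0 1230186008 0 1230186008 1) ndF3q3 ndF4q3 pcF1 Cut.none Ext.none)

def k0_pm_313 : ∃ t, chk3 f_pm_313 t 1 1 1 = true :=
  ⟨(a (l 1) (b (b (b (l 3) (l 1)) (l 1)) (l 1))), by decide +kernel⟩

theorem c_pm_313 : CertF 0 1230186008 0 1230186008 67108864 67108864 false true false .dn 3 1 3
    ndF3q3 ndF4q3 pcF1 Cut.none Ext.none :=
  certFK0 (fam := false) (s1 := true) (s2 := false) (a := 3) (b := 1) (c := 3) (cn := .dn) (n1 := ndF3q3) (n2 := ndF4q3) (pc := pcF1) (cut := Cut.none) (xt := Ext.none) (P1 := 0) (W1 := 1230186008) (P2 := 0) (W2 := 1230186008) (P3 := 67108864) (W3 := 67108864)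
    rfl rfl rfl k0_pm_313

noncomputable def f_mm_001 : ℕ → ℕ → ℕ → ℕ → Bool := onCell 0 536870912 536870912 536870912 67108864 67108864
    (rowFK 0 false false false .up 0 0 1 (qsf 0 536870912 536870912 536870912 0) ndF3q0 ndF4q1 pcF0 Cut.none Ext.none)

def k0_mm_001 : ∃ t, chk3 f_mm_001 t 1 1 1 = true :=
  ⟨(l 3), by decide +kernel⟩

theorem c_mm_001 : CertF 0 536870912 536870912 536870912 67108864 67108864 false false false .up 0 0 1
    ndF3q0 ndF4q1 pcF0 Cut.none Ext.none :=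
  certFK0 (fam := false) (s1 := false) (s2 := false) (a := 0) (b := 0) (c := 1) (cn := .up) (n1 := ndF3q0) (n2 := ndF4q1) (pc := pcF0) (cut := Cut.none) (xt := Ext.none) (P1 := 0) (W1 := 536870912) (P2 := 536870912) (W2 := 536870912) (P3 := 67108864) (W3 := 67108864)
    rfl rfl rfl k0_mm_001

noncomputable def f_mm_011 : ℕ → ℕ → ℕ → ℕ → Bool := onCell 0 536870912 536870912 536870912 67108864 67108864
    (rowFK 0 false false false .pnn 0 1 1 (qsf 0 536870912 536870912 536870912 1) ndF3q0 ndF4q1 pcF1 Cut.none Ext.none)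

def k0_mm_011 : ∃ t, chk3 f_mm_011 t 1 1 1 = true :=
  ⟨(l 3), by decide +kernel⟩

theorem c_mm_011 : CertF 0 536870912 536870912 536870912 67108864 67108864 false false false .pnn 0 1 1
    ndF3q0 ndF4q1 pcF1 Cut.none Ext.none :=
  certFK0 (fam := false) (s1 := false) (s2 := false) (a := 0) (b := 1) (c := 1) (cn := .pnn) (n1 := ndF3q0) (n2 := ndF4q1) (pc := pcF1) (cut := Cut.none) (xt := Ext.none) (P1 := 0) (W1 := 536870912) (P2 := 536870912) (W2 := 536870912) (P3 := 67108864) (W3 := 67108864)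
    rfl rfl rfl k0_mm_011

noncomputable def f_mm_012 : ℕ → ℕ → ℕ → ℕ → Bool := onCell 0 536870912 1073741824 536870912 67108864 67108864
    (rowFK 0 false false false .pnp 0 1 2 (qsf 0 536870912 1073741824 536870912 1) ndF3q0 ndF4q2 pcF1 Cut.none Ext.none)

def k0_mm_012 : ∃ t, chk3 f_mm_012 t 1 1 1 = true :=
  ⟨(l 5), by decide +kernel⟩

theorem c_mm_012 : CertF 0 536870912 1073741824 536870912 67108864 67108864 false false false .pnp 0 1 2
    ndF3q0 ndF4q2 pcF1 Cut.none Ext.none :=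
  certFK0 (fam := false) (s1 := false) (s2 := false) (a := 0) (b := 1) (c := 2) (cn := .pnp) (n1 := ndF3q0) (n2 := ndF4q2) (pc := pcF1) (cut := Cut.none) (xt := Ext.none) (P1 := 0) (W1 := 536870912) (P2 := 1073741824) (W2 := 536870912) (P3 := 67108864) (W3 := 67108864)
    rfl rfl rfl k0_mm_012

noncomputable def f_mm_022 : ℕ → ℕ → ℕ → ℕ → Bool := onCell 0 536870912 1073741824 536870912 67108864 67108864
    (rowFK 0 false false false .pp 0 2 2 (qsf 0 536870912 1073741824 536870912 2) ndF3q0 ndF4q2 pcF2 Cut.none Ext.none)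

def k0_mm_022 : ∃ t, chk3 f_mm_022 t 1 1 1 = true :=
  ⟨(l 5), by decide +kernel⟩

theorem c_mm_022 : CertF 0 536870912 1073741824 536870912 67108864 67108864 false false false .pp 0 2 2
    ndF3q0 ndF4q2 pcF2 Cut.none Ext.none :=
  certFK0 (fam := false) (s1 := false) (s2 := false) (a := 0) (b := 2) (c := 2) (cn := .pp) (n1 := ndF3q0) (n2 := ndF4q2) (pc := pcF2) (cut := Cut.none) (xt := Ext.none) (P1 := 0) (W1 := 536870912) (P2 := 1073741824) (W2 := 536870912) (P3 := 67108864) (W3 := 67108864)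
    rfl rfl rfl k0_mm_022

noncomputable def f_mm_023 : ℕ → ℕ → ℕ → ℕ → Bool := onCell 0 536870912 0 1230186008 67108864 67108864
    (rowFK 0 false false false .up 0 2 3 (qsf 0 536870912 0 1230186008 2) ndF3q0 ndF4q3 pcF2 Cut.none Ext.none)

def k0_mm_023 : ∃ t, chk3 f_mm_023 t 1 1 1 = true :=
  ⟨(l 5), by decide +kernel⟩

theorem c_mm_023 : CertF 0 536870912 0 1230186008 67108864 67108864 false false false .up 0 2 3
    ndF3q0 ndF4q3 pcF2 Cut.none Ext.none :=
  certFK0 (fam := false) (s1 := false) (s2 := false) (a := 0) (b := 2) (c := 3) (cn := .up) (n1 := ndF3q0) (n2 := ndF4q3) (pc := pcF2) (cut := Cut.none) (xt := Ext.none) (P1 := 0) (W1 := 536870912) (P2 := 0) (W2 := 1230186008) (P3 := 67108864) (W3 := 67108864)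
    rfl rfl rfl k0_mm_023

noncomputable def f_mm_033 : ℕ → ℕ → ℕ → ℕ → Bool := onCell 0 536870912 0 1230186008 67108864 67108864
    (rowFK 0 false false false .pnn 0 3 3 (qsf 0 536870912 0 1230186008 3) ndF3q0 ndF4q3 pcF3 Cut.none Ext.none)

def k0_mm_033 : ∃ t, chk3 f_mm_033 t 1 1 1 = true :=
  ⟨(l 5), by decide +kernel⟩

theorem c_mm_033 : CertF 0 536870912 0 1230186008 67108864 67108864 false false false .pnn 0 3 3
    ndF3q0 ndF4q3 pcF3 Cut.none Ext.none :=
  certFK0 (fam := false) (s1 := false) (s2 := false) (a := 0) (b := 3) (c := 3) (cn := .pnn) (n1 := ndF3q0) (n2 := ndF4q3) (pc := pcF3) (cut := Cut.none) (xt := Ext.none) (P1 := 0) (W1 := 536870912) (P2 := 0) (W2 := 1230186008) (P3 := 67108864) (W3 := 67108864)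
    rfl rfl rfl k0_mm_033

noncomputable def f_mm_101 : ℕ → ℕ → ℕ → ℕ → Bool := onCell 536870912 536870912 536870912 536870912 67108864 67108864
    (rowFK 0 false false false .npn 1 0 1 (qsf 536870912 536870912 536870912 536870912 0) ndF3q1 ndF4q1 pcF0 Cut.none Ext.none)

def k0_mm_101 : ∃ t, chk3 f_mm_101 t 1 1 1 = true :=
  ⟨(l 3), by decide +kernel⟩

theorem c_mm_101 : CertF 536870912 536870912 536870912 536870912 67108864 67108864 false false false .npn 1 0 1
    ndF3q1 ndF4q1 pcF0 Cut.none Ext.none :=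
  certFK0 (fam := false) (s1 := false) (s2 := false) (a := 1) (b := 0) (c := 1) (cn := .npn) (n1 := ndF3q1) (n2 := ndF4q1) (pc := pcF0) (cut := Cut.none) (xt := Ext.none) (P1 := 536870912) (W1 := 536870912) (P2 := 536870912) (W2 := 536870912) (P3 := 67108864) (W3 := 67108864)
    rfl rfl rfl k0_mm_101

noncomputable def f_mm_102 : ℕ → ℕ → ℕ → ℕ → Bool := onCell 536870912 536870912 1073741824 536870912 67108864 67108864
    (rowFK 0 false false false .npp 1 0 2 (qsf 536870912 536870912 1073741824 536870912 0) ndF3q1 ndF4q2 pcF0 Cut.none Ext.none)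

def k0_mm_102 : ∃ t, chk3 f_mm_102 t 1 1 1 = true :=
  ⟨(l 3), by decide +kernel⟩

theorem c_mm_102 : CertF 536870912 536870912 1073741824 536870912 67108864 67108864 false false false .npp 1 0 2
    ndF3q1 ndF4q2 pcF0 Cut.none Ext.none :=
  certFK0 (fam := false) (s1 := false) (s2 := false) (a := 1) (b := 0) (c := 2) (cn := .npp) (n1 := ndF3q1) (n2 := ndF4q2) (pc := pcF0) (cut := Cut.none) (xt := Ext.none) (P1 := 536870912) (W1 := 536870912) (P2 := 1073741824) (W2 := 536870912) (P3 := 67108864) (W3 := 67108864)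
    rfl rfl rfl k0_mm_102

noncomputable def f_mm_112 : ℕ → ℕ → ℕ → ℕ → Bool := onCell 536870912 536870912 1073741824 536870912 67108864 67108864
    (rowFK 0 false false false .dn 1 1 2 (qsf 536870912 536870912 1073741824 536870912 1) ndF3q1 ndF4q2 pcF1 Cut.none Ext.none)

def k0_mm_112 : ∃ t, chk3 f_mm_112 t 1 1 1 = true :=
  ⟨(l 3), by decide +kernel⟩

theorem c_mm_112 : CertF 536870912 536870912 1073741824 536870912 67108864 67108864 false false false .dn 1 1 2
    ndF3q1 ndF4q2 pcF1 Cut.none Ext.none :=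
  certFK0 (fam := false) (s1 := false) (s2 := false) (a := 1) (b := 1) (c := 2) (cn := .dn) (n1 := ndF3q1) (n2 := ndF4q2) (pc := pcF1) (cut := Cut.none) (xt := Ext.none) (P1 := 536870912) (W1 := 536870912) (P2 := 1073741824) (W2 := 536870912) (P3 := 67108864) (W3 := 67108864)
    rfl rfl rfl k0_mm_112

noncomputable def f_mm_113 : ℕ → ℕ → ℕ → ℕ → Bool := onCell 536870912 536870912 0 1230186008 67108864 67108864
    (rowFK 0 false false false .nn 1 1 3 (qsf 536870912 536870912 0 1230186008 1) ndF3q1 ndF4q3 pcF1 Cut.none Ext.none)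

def k0_mm_113 : ∃ t, chk3 f_mm_113 t 1 1 1 = true :=
  ⟨(l 5), by decide +kernel⟩

theorem c_mm_113 : CertF 536870912 536870912 0 1230186008 67108864 67108864 false false false .nn 1 1 3
    ndF3q1 ndF4q3 pcF1 Cut.none Ext.none :=
  certFK0 (fam := false) (s1 := false) (s2 := false) (a := 1) (b := 1) (c := 3) (cn := .nn) (n1 := ndF3q1) (n2 := ndF4q3) (pc := pcF1) (cut := Cut.none) (xt := Ext.none) (P1 := 536870912) (W1 := 536870912) (P2 := 0) (W2 := 1230186008) (P3 := 67108864) (W3 := 67108864)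
    rfl rfl rfl k0_mm_113

noncomputable def f_mm_123 : ℕ → ℕ → ℕ → ℕ → Bool := onCell 536870912 536870912 0 1230186008 67108864 67108864
    (rowFK 0 false false false .npn 1 2 3 (qsf 536870912 536870912 0 1230186008 2) ndF3q1 ndF4q3 pcF2 Cut.none Ext.none)

def k0_mm_123 : ∃ t, chk3 f_mm_123 t 1 1 1 = true :=
  ⟨(l 5), by decide +kernel⟩

theorem c_mm_123 : CertF 536870912 536870912 0 1230186008 67108864 67108864 false false false .npn 1 2 3
    ndF3q1 ndF4q3 pcF2 Cut.none Ext.none :=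
  certFK0 (fam := false) (s1 := false) (s2 := false) (a := 1) (b := 2) (c := 3) (cn := .npn) (n1 := ndF3q1) (n2 := ndF4q3) (pc := pcF2) (cut := Cut.none) (xt := Ext.none) (P1 := 536870912) (W1 := 536870912) (P2 := 0) (W2 := 1230186008) (P3 := 67108864) (W3 := 67108864)
    rfl rfl rfl k0_mm_123

noncomputable def f_mm_133 : ℕ → ℕ → ℕ → ℕ → Bool := onCell 536870912 536870912 0 1230186008 67108864 67108864
    (rowFK 0 false false false .dn 1 3 3 (qsf 536870912 536870912 0 1230186008 3) ndF3q1 ndF4q3 pcF3 Cut.none Ext.none)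

def k0_mm_133 : ∃ t, chk3 f_mm_133 t 1 1 1 = true :=
  ⟨(l 5), by decide +kernel⟩

theorem c_mm_133 : CertF 536870912 536870912 0 1230186008 67108864 67108864 false false false .dn 1 3 3
    ndF3q1 ndF4q3 pcF3 Cut.none Ext.none :=
  certFK0 (fam := false) (s1 := false) (s2 := false) (a := 1) (b := 3) (c := 3) (cn := .dn) (n1 := ndF3q1) (n2 := ndF4q3) (pc := pcF3) (cut := Cut.none) (xt := Ext.none) (P1 := 536870912) (W1 := 536870912) (P2 := 0) (W2 := 1230186008) (P3 := 67108864) (W3 := 67108864)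
    rfl rfl rfl k0_mm_133

noncomputable def f_mm_202 : ℕ → ℕ → ℕ → ℕ → Bool := onCell 1073741824 536870912 1073741824 536870912 67108864 67108864
    (rowFK 0 false false false .pp 2 0 2 (qsf 1073741824 536870912 1073741824 536870912 0) ndF3q2 ndF4q2 pcF0 Cut.none Ext.none)

def k0_mm_202 : ∃ t, chk3 f_mm_202 t 1 1 1 = true :=
  ⟨(l 3), by decide +kernel⟩

theorem c_mm_202 : CertF 1073741824 536870912 1073741824 536870912 67108864 67108864 false false false .pp 2 0 2
    ndF3q2 ndF4q2 pcF0 Cut.none Ext.none :=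
  certFK0 (fam := false) (s1 := false) (s2 := false) (a := 2) (b := 0) (c := 2) (cn := .pp) (n1 := ndF3q2) (n2 := ndF4q2) (pc := pcF0) (cut := Cut.none) (xt := Ext.none) (P1 := 1073741824) (W1 := 536870912) (P2 := 1073741824) (W2 := 536870912) (P3 := 67108864) (W3 := 67108864)
    rfl rfl rfl k0_mm_202

noncomputable def f_mm_203 : ℕ → ℕ → ℕ → ℕ → Bool := onCell 1073741824 536870912 0 1230186008 67108864 67108864
    (rowFK 0 false false false .up 2 0 3 (qsf 1073741824 536870912 0 1230186008 0) ndF3q2 ndF4q3 pcF0 Cut.none Ext.none)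

def k0_mm_203 : ∃ t, chk3 f_mm_203 t 1 1 1 = true :=
  ⟨(b (l 5) (l 3)), by decide +kernel⟩

theorem c_mm_203 : CertF 1073741824 536870912 0 1230186008 67108864 67108864 false false false .up 2 0 3
    ndF3q2 ndF4q3 pcF0 Cut.none Ext.none :=
  certFK0 (fam := false) (s1 := false) (s2 := false) (a := 2) (b := 0) (c := 3) (cn := .up) (n1 := ndF3q2) (n2 := ndF4q3) (pc := pcF0) (cut := Cut.none) (xt := Ext.none) (P1 := 1073741824) (W1 := 536870912) (P2 := 0) (W2 := 1230186008) (P3 := 67108864) (W3 := 67108864)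
    rfl rfl rfl k0_mm_203

noncomputable def f_mm_213 : ℕ → ℕ → ℕ → ℕ → Bool := onCell 1073741824 536870912 0 1230186008 67108864 67108864
    (rowFK 0 false false false .pnn 2 1 3 (qsf 1073741824 536870912 0 1230186008 1) ndF3q2 ndF4q3 pcF1 Cut.none Ext.none)

def k0_mm_213 : ∃ t, chk3 f_mm_213 t 1 1 1 = true :=
  ⟨(b (l 5) (l 3)), by decide +kernel⟩

theorem c_mm_213 : CertF 1073741824 536870912 0 1230186008 67108864 67108864 false false false .pnn 2 1 3
    ndF3q2 ndF4q3 pcF1 Cut.none Ext.none :=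
  certFK0 (fam := false) (s1 := false) (s2 := false) (a := 2) (b := 1) (c := 3) (cn := .pnn) (n1 := ndF3q2) (n2 := ndF4q3) (pc := pcF1) (cut := Cut.none) (xt := Ext.none) (P1 := 1073741824) (W1 := 536870912) (P2 := 0) (W2 := 1230186008) (P3 := 67108864) (W3 := 67108864)
    rfl rfl rfl k0_mm_213

noncomputable def f_mm_303 : ℕ → ℕ → ℕ → ℕ → Bool := onCell 0 1230186008 0 1230186008 67108864 67108864
    (rowFK 0 false false false .npn 3 0 3 (qsf 0 1230186008 0 1230186008 0) ndF3q3 ndF4q3 pcF0 Cut.none Ext.none)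

def k0_mm_303 : ∃ t, chk3 f_mm_303 t 1 1 1 = true :=
  ⟨(a (b (l 3) (b (l 3) (l 1))) (a (l 3) (l 3))), by decide +kernel⟩

theorem c_mm_303 : CertF 0 1230186008 0 1230186008 67108864 67108864 false false false .npn 3 0 3
    ndF3q3 ndF4q3 pcF0 Cut.none Ext.none :=
  certFK0 (fam := false) (s1 := false) (s2 := false) (a := 3) (b := 0) (c := 3) (cn := .npn) (n1 := ndF3q3) (n2 := ndF4q3) (pc := pcF0) (cut := Cut.none) (xt := Ext.none) (P1 := 0) (W1 := 1230186008) (P2 := 0) (W2 := 1230186008) (P3 := 67108864) (W3 := 67108864)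
    rfl rfl rfl k0_mm_303

noncomputable def f_mm_313 : ℕ → ℕ → ℕ → ℕ → Bool := onCell 0 1230186008 0 1230186008 67108864 67108864
    (rowFK 0 false false false .dn 3 1 3 (qsf 0 1230186008 0 1230186008 1) ndF3q3 ndF4q3 pcF1 Cut.none Ext.none)

def k0_mm_313 : ∃ t, chk3 f_mm_313 t 1 1 1 = true :=
  ⟨(a (l 1) (b (l 3) (l 1))), by decide +kernel⟩

theorem c_mm_313 : CertF 0 1230186008 0 1230186008 67108864 67108864 false false false .dn 3 1 3
    ndF3q3 ndF4q3 pcF1 Cut.none Ext.none :=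
  certFK0 (fam := false) (s1 := false) (s2 := false) (a := 3) (b := 1) (c := 3) (cn := .dn) (n1 := ndF3q3) (n2 := ndF4q3) (pc := pcF1) (cut := Cut.none) (xt := Ext.none) (P1 := 0) (W1 := 1230186008) (P2 := 0) (W2 := 1230186008) (P3 := 67108864) (W3 := 67108864)
    rfl rfl rfl k0_mm_313

end Pool.Agent.Strip051.G.I1_16_1_8.Tab.C.FB34

namespace Pool.Agent.Strip051.G.I1_16_1_8.Tab.C.FB40

open Pool.Agent.Strip051.PB Pool.Agent.Strip051.PB.T
open Pool.Agent.Strip051.G.I1_16_1_8.Tab

noncomputable def cut_pp_001 : Cut := Cut.of [[⟨3, 0, 0, 1449551462⟩]]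

noncomputable def f_pp_001 : ℕ → ℕ → ℕ → ℕ → Bool := onCell 0 536870912 0 536870912 67108864 67108864
    (rowFK 1 false true true .up 0 0 1 (qsf 0 536870912 536870912 536870912 0) ndF4q0 ndF0q1 pcF0 cut_pp_001 Ext.none)

def k0_pp_001 : ∃ t, chk3 f_pp_001 t 1 1 1 = true :=
  ⟨(a (l 6) (b (l 3) (b (l 6) (a (l 6) (b (l 6) (a (b (l 6) (l 17671976)) (l 17888952))))))), by decide +kernel⟩

theorem c_pp_001 : CertF 0 536870912 536870912 536870912 67108864 67108864 false true true .up 0 0 1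
    ndF4q0 ndF0q1 pcF0 cut_pp_001 Ext.none :=
  certFK1 (fam := false) (s1 := true) (s2 := true) (a := 0) (b := 0) (c := 1) (cn := .up) (n1 := ndF4q0) (n2 := ndF0q1) (pc := pcF0) (cut := cut_pp_001) (xt := Ext.none) (P1 := 0) (W1 := 536870912) (P2 := 536870912) (W2 := 536870912) (P3 := 67108864) (W3 := 67108864)
    rfl rfl rfl (fun _ => rfl) k0_pp_001

noncomputable def cut_pp_011 : Cut := Cut.of [[⟨3, 0, 0, 1449551462⟩]]

noncomputable def f_pp_011 : ℕ → ℕ → ℕ → ℕ → Bool := onCell 536870912 536870912 536870912 536870912 67108864 67108864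
    (rowFK 2 false true true .pnn 0 1 1 (qsf 0 536870912 536870912 536870912 1) ndF4q0 ndF0q1 pcF1 cut_pp_011 Ext.none)

def k0_pp_011 : ∃ t, chk3 f_pp_011 t 1 1 1 = true :=
  ⟨(a (b (a (l 6) (b (l 6) (b (l 6) (l 17351528)))) (b (a (b (l 6) (l 17365128)) (a (l 17377744) (l 17513832))) (a (b (l 17486840) (l 17673368)) (l 17684480)))) (b (a (b (l 1) (a (l 17561392) (l 1))) (l 1)) (b (a (l 17842960) (l 18751016)) (a (b (l 17963280) (l 18134584)) (a (l 18572968) (a (l 18881048) (l 19122128))))))), by decide +kernel⟩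

theorem c_pp_011 : CertF 0 536870912 536870912 536870912 67108864 67108864 false true true .pnn 0 1 1
    ndF4q0 ndF0q1 pcF1 cut_pp_011 Ext.none :=
  certFK2 (fam := false) (s1 := true) (s2 := true) (a := 0) (b := 1) (c := 1) (cn := .pnn) (n1 := ndF4q0) (n2 := ndF0q1) (pc := pcF1) (cut := cut_pp_011) (xt := Ext.none) (P1 := 0) (W1 := 536870912) (P2 := 536870912) (W2 := 536870912) (P3 := 67108864) (W3 := 67108864)
    rfl rfl rfl (fun _ => rfl) k0_pp_011

noncomputable def cut_pp_012 : Cut := Cut.of [[⟨3, 0, 0, 1449551462⟩]]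

noncomputable def f_pp_012 : ℕ → ℕ → ℕ → ℕ → Bool := onCell 536870912 536870912 0 536870912 67108864 67108864
    (rowFK 2 false true true .pnp 0 1 2 (qsf 0 536870912 0 536870912 1) ndF4q0 ndF0q2 pcF1 cut_pp_012 Ext.none)

def k0_pp_012 : ∃ t, chk3 f_pp_012 t 1 1 1 = true :=
  ⟨(a (b (a (b (l 2) (b (l 2) (l 17950016))) (b (l 19022544) (b (a (l 18701776) (l 18722296)) (b (l 18197112) (l 17876968))))) (a (b (l 17739560) (l 17776192)) (b (l 17840064) (l 17838760)))) (b (b (l 19193416) (a (a (b (l 18868808) (l 18478528)) (l 18952704)) (a (l 19228744) (a (l 19354376) (l 19433400))))) (a (b (l 18483560) (l 18479872)) (a (l 19000824) (a (l 19203168) (l 19337480)))))), by decide +kernel⟩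

theorem c_pp_012 : CertF 0 536870912 0 536870912 67108864 67108864 false true true .pnp 0 1 2
    ndF4q0 ndF0q2 pcF1 cut_pp_012 Ext.none :=
  certFK2 (fam := false) (s1 := true) (s2 := true) (a := 0) (b := 1) (c := 2) (cn := .pnp) (n1 := ndF4q0) (n2 := ndF0q2) (pc := pcF1) (cut := cut_pp_012) (xt := Ext.none) (P1 := 0) (W1 := 536870912) (P2 := 0) (W2 := 536870912) (P3 := 67108864) (W3 := 67108864)
    rfl rfl rfl (fun _ => rfl) k0_pp_012

noncomputable def cut_pp_022 : Cut := Cut.of [[⟨3, 0, 0, 1449551462⟩]]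

noncomputable def f_pp_022 : ℕ → ℕ → ℕ → ℕ → Bool := onCell 0 536870912 0 536870912 67108864 67108864
    (rowFK 0 false true true .pp 0 2 2 (qsf 0 536870912 0 536870912 2) ndF4q0 ndF0q2 pcF2 cut_pp_022 Ext.none)

def k0_pp_022 : ∃ t, chk3 f_pp_022 t 1 1 1 = true :=
  ⟨(a (b (a (l 19285296) (l 19612872)) (a (b (l 19611576) (l 19677496)) (l 547111499143))) (l 1)), by decide +kernel⟩

theorem c_pp_022 : CertF 0 536870912 0 536870912 67108864 67108864 false true true .pp 0 2 2
    ndF4q0 ndF0q2 pcF2 cut_pp_022 Ext.none :=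
  certFK0 (fam := false) (s1 := true) (s2 := true) (a := 0) (b := 2) (c := 2) (cn := .pp) (n1 := ndF4q0) (n2 := ndF0q2) (pc := pcF2) (cut := cut_pp_022) (xt := Ext.none) (P1 := 0) (W1 := 536870912) (P2 := 0) (W2 := 536870912) (P3 := 67108864) (W3 := 67108864)
    rfl rfl rfl k0_pp_022

noncomputable def cut_pp_101 : Cut := Cut.of [[⟨3, 0, 0, 1449551462⟩], [⟨0, 1, 0, 25165824⟩, ⟨1, 0, 0, 25165824⟩, ⟨2, 1, 0, 25165824⟩]]

noncomputable def f_pp_101 : ℕ → ℕ → ℕ → ℕ → Bool := onCell 0 536870912 536870912 536870912 67108864 67108864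
    (rowFK 2 false true true .npn 1 0 1 (qsf 536870912 536870912 536870912 536870912 0) ndF4q1 ndF0q1 pcF0 cut_pp_101 Ext.none)

def k0_pp_101 : ∃ t, chk3 f_pp_101 t 1 1 1 = true :=
  ⟨(b (l 6) (a (l 6) (b (l 6) (a (b (l 6) (b (l 6) (l 17942048))) (b (l 374234899495) (l 18026616)))))), by decide +kernel⟩

theorem c_pp_101 : CertF 536870912 536870912 536870912 536870912 67108864 67108864 false true true .npn 1 0 1
    ndF4q1 ndF0q1 pcF0 cut_pp_101 Ext.none :=
  certFK2 (fam := false) (s1 := true) (s2 := true) (a := 1) (b := 0) (c := 1) (cn := .npn) (n1 := ndF4q1) (n2 := ndF0q1) (pc := pcF0) (cut := cut_pp_101) (xt := Ext.none) (P1 := 536870912) (W1 := 536870912) (P2 := 536870912) (W2 := 536870912) (P3 := 67108864) (W3 := 67108864)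
    rfl rfl rfl (fun _ => rfl) k0_pp_101

noncomputable def cut_pp_102 : Cut := Cut.of [[⟨3, 0, 0, 1449551462⟩], [⟨0, 1, 0, 67108864⟩, ⟨1, 0, 0, 67108864⟩, ⟨2, 1, 0, 67108864⟩]]

noncomputable def f_pp_102 : ℕ → ℕ → ℕ → ℕ → Bool := onCell 0 536870912 0 536870912 67108864 67108864
    (rowFK 2 false true true .npp 1 0 2 (qsf 536870912 536870912 0 536870912 0) ndF4q1 ndF0q2 pcF0 cut_pp_102 Ext.none)

def k0_pp_102 : ∃ t, chk3 f_pp_102 t 1 1 1 = true :=
  ⟨(a (b (a (b (l 2) (a (l 2) (l 19176768))) (b (l 19254776) (a (l 19092200) (l 18998632)))) (a (b (a (l 2) (b (l 18240176) (a (l 17586152) (b (l 17949416) (l 17619256))))) (l 6)) (b (a (b (l 18665576) (a (l 18123824) (l 18373008))) (b (l 18772120) (l 18542680))) (b (a (a (l 17727528) (l 17995688)) (l 18212552)) (a (l 6) (l 17922176)))))) (b (a (b (l 18877784) (l 18853680)) (a (l 18688776) (a (l 18622632) (l 18573600)))) (a (b (b (l 18866000) (l 18684832)) (b (l 18408512) (l 18381816))) (b (b (l 18935728) (l 18741024))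 (b (l 18501848) (l 18289152)))))), by decide +kernel⟩

theorem c_pp_102 : CertF 536870912 536870912 0 536870912 67108864 67108864 false true true .npp 1 0 2
    ndF4q1 ndF0q2 pcF0 cut_pp_102 Ext.none :=
  certFK2 (fam := false) (s1 := true) (s2 := true) (a := 1) (b := 0) (c := 2) (cn := .npp) (n1 := ndF4q1) (n2 := ndF0q2) (pc := pcF0) (cut := cut_pp_102) (xt := Ext.none) (P1 := 536870912) (W1 := 536870912) (P2 := 0) (W2 := 536870912) (P3 := 67108864) (W3 := 67108864)
    rfl rfl rfl (fun _ => rfl) k0_pp_102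

noncomputable def cut_pp_112 : Cut := Cut.of [[⟨3, 0, 0, 1449551462⟩]]

noncomputable def f_pp_112 : ℕ → ℕ → ℕ → ℕ → Bool := onCell 536870912 536870912 0 536870912 67108864 67108864
    (rowFK 2 false true true .dn 1 1 2 (qsf 536870912 536870912 0 536870912 1) ndF4q1 ndF0q2 pcF1 cut_pp_112 Ext.none)

def k0_pp_112 : ∃ t, chk3 f_pp_112 t 1 1 1 = true :=
  ⟨(a (b (a (b (l 19001144) (b (a (l 18674384) (l 18723760)) (l 17892304))) (a (b (l 19002064) (b (l 18656552) (l 17912552))) (l 1))) (a (b (l 17719472) (l 17755184)) (l 602942126903))) (l 1)), by decide +kernel⟩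

theorem c_pp_112 : CertF 536870912 536870912 0 536870912 67108864 67108864 false true true .dn 1 1 2
    ndF4q1 ndF0q2 pcF1 cut_pp_112 Ext.none :=
  certFK2 (fam := false) (s1 := true) (s2 := true) (a := 1) (b := 1) (c := 2) (cn := .dn) (n1 := ndF4q1) (n2 := ndF0q2) (pc := pcF1) (cut := cut_pp_112) (xt := Ext.none) (P1 := 536870912) (W1 := 536870912) (P2 := 0) (W2 := 536870912) (P3 := 67108864) (W3 := 67108864)
    rfl rfl rfl (fun _ => rfl) k0_pp_112

noncomputable def cut_pp_202 : Cut := Cut.of [[⟨3, 0, 0, 1449551462⟩], [⟨0, 1, 0, 67108864⟩, ⟨1, 0, 0, 67108864⟩, ⟨2, 1, 0, 67108864⟩]]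

noncomputable def f_pp_202 : ℕ → ℕ → ℕ → ℕ → Bool := onCell 0 536870912 0 536870912 67108864 67108864
    (rowFK 2 false true true .pp 2 0 2 (qsf 1073741824 536870912 0 536870912 0) ndF4q2 ndF0q2 pcF0 cut_pp_202 Ext.none)

def k0_pp_202 : ∃ t, chk3 f_pp_202 t 1 1 1 = true :=
  ⟨(a (b (a (b (a (l 19156752) (l 19304688)) (a (l 19014608) (l 18842504))) (b (l 19462560) (l 19504408))) (a (b (a (b (l 18112440) (a (l 6) (l 17615512))) (b (l 18223416) (a (l 17583488) (l 566971156439)))) (l 6)) (b (l 1) (l 1)))) (l 1)), by decide +kernel⟩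

theorem c_pp_202 : CertF 1073741824 536870912 0 536870912 67108864 67108864 false true true .pp 2 0 2
    ndF4q2 ndF0q2 pcF0 cut_pp_202 Ext.none :=
  certFK2 (fam := false) (s1 := true) (s2 := true) (a := 2) (b := 0) (c := 2) (cn := .pp) (n1 := ndF4q2) (n2 := ndF0q2) (pc := pcF0) (cut := cut_pp_202) (xt := Ext.none) (P1 := 1073741824) (W1 := 536870912) (P2 := 0) (W2 := 536870912) (P3 := 67108864) (W3 := 67108864)
    rfl rfl rfl (fun _ => rfl) k0_pp_202

noncomputable def cut_pm_001 : Cut := Cut.of [[⟨3, 0, 0, 1449551462⟩]]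

noncomputable def f_pm_001 : ℕ → ℕ → ℕ → ℕ → Bool := onCell 0 536870912 536870912 536870912 67108864 67108864
    (rowFK 0 false true false .up 0 0 1 (qsf 0 536870912 536870912 536870912 0) ndF4q0 ndF0q1 pcF0 cut_pm_001 Ext.none)

def k0_pm_001 : ∃ t, chk3 f_pm_001 t 1 1 1 = true :=
  ⟨(l 4), by decide +kernel⟩

theorem c_pm_001 : CertF 0 536870912 536870912 536870912 67108864 67108864 false true false .up 0 0 1
    ndF4q0 ndF0q1 pcF0 cut_pm_001 Ext.none :=
  certFK0 (fam := false) (s1 := true) (s2 := false) (a := 0) (b := 0) (c := 1) (cn := .up) (n1 := ndF4q0) (n2 := ndF0q1) (pc := pcF0) (cut := cut_pm_001) (xt := Ext.none) (P1 := 0) (W1 := 536870912) (P2 := 536870912) (W2 := 536870912) (P3 := 67108864) (W3 := 67108864)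
    rfl rfl rfl k0_pm_001

noncomputable def cut_pm_011 : Cut := Cut.of [[⟨3, 0, 0, 1449551462⟩]]

noncomputable def f_pm_011 : ℕ → ℕ → ℕ → ℕ → Bool := onCell 0 536870912 536870912 536870912 67108864 67108864
    (rowFK 0 false true false .pnn 0 1 1 (qsf 0 536870912 536870912 536870912 1) ndF4q0 ndF0q1 pcF1 cut_pm_011 Ext.none)

def k0_pm_011 : ∃ t, chk3 f_pm_011 t 1 1 1 = true :=
  ⟨(l 4), by decide +kernel⟩

theorem c_pm_011 : CertF 0 536870912 536870912 536870912 67108864 67108864 false true false .pnn 0 1 1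
    ndF4q0 ndF0q1 pcF1 cut_pm_011 Ext.none :=
  certFK0 (fam := false) (s1 := true) (s2 := false) (a := 0) (b := 1) (c := 1) (cn := .pnn) (n1 := ndF4q0) (n2 := ndF0q1) (pc := pcF1) (cut := cut_pm_011) (xt := Ext.none) (P1 := 0) (W1 := 536870912) (P2 := 536870912) (W2 := 536870912) (P3 := 67108864) (W3 := 67108864)
    rfl rfl rfl k0_pm_011

noncomputable def cut_pm_012 : Cut := Cut.of [[⟨3, 0, 0, 1449551462⟩]]

noncomputable def f_pm_012 : ℕ → ℕ → ℕ → ℕ → Bool := onCell 0 536870912 0 536870912 67108864 67108864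
    (rowFK 0 false true false .pnp 0 1 2 (qsf 0 536870912 0 536870912 1) ndF4q0 ndF0q2 pcF1 cut_pm_012 Ext.none)

def k0_pm_012 : ∃ t, chk3 f_pm_012 t 1 1 1 = true :=
  ⟨(a (l 4) (l 4)), by decide +kernel⟩

theorem c_pm_012 : CertF 0 536870912 0 536870912 67108864 67108864 false true false .pnp 0 1 2
    ndF4q0 ndF0q2 pcF1 cut_pm_012 Ext.none :=
  certFK0 (fam := false) (s1 := true) (s2 := false) (a := 0) (b := 1) (c := 2) (cn := .pnp) (n1 := ndF4q0) (n2 := ndF0q2) (pc := pcF1) (cut := cut_pm_012) (xt := Ext.none) (P1 := 0) (W1 := 536870912) (P2 := 0) (W2 := 536870912) (P3 := 67108864) (W3 := 67108864)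
    rfl rfl rfl k0_pm_012

noncomputable def cut_pm_022 : Cut := Cut.of [[⟨3, 0, 0, 1449551462⟩]]

noncomputable def f_pm_022 : ℕ → ℕ → ℕ → ℕ → Bool := onCell 1073741824 536870912 0 536870912 67108864 67108864
    (rowFK 2 false true false .pp 0 2 2 (qsf 0 536870912 0 536870912 2) ndF4q0 ndF0q2 pcF2 cut_pm_022 Ext.none)

def k0_pm_022 : ∃ t, chk3 f_pm_022 t 1 1 1 = true :=
  ⟨(l 4), by decide +kernel⟩

theorem c_pm_022 : CertF 0 536870912 0 536870912 67108864 67108864 false true false .pp 0 2 2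
    ndF4q0 ndF0q2 pcF2 cut_pm_022 Ext.none :=
  certFK2 (fam := false) (s1 := true) (s2 := false) (a := 0) (b := 2) (c := 2) (cn := .pp) (n1 := ndF4q0) (n2 := ndF0q2) (pc := pcF2) (cut := cut_pm_022) (xt := Ext.none) (P1 := 0) (W1 := 536870912) (P2 := 0) (W2 := 536870912) (P3 := 67108864) (W3 := 67108864)
    rfl rfl rfl (fun _ => rfl) k0_pm_022

noncomputable def cut_pm_101 : Cut := Cut.of [[⟨3, 0, 0, 1449551462⟩]]

noncomputable def f_pm_101 : ℕ → ℕ → ℕ → ℕ → Bool := onCell 536870912 536870912 536870912 536870912 67108864 67108864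
    (rowFK 0 false true false .npn 1 0 1 (qsf 536870912 536870912 536870912 536870912 0) ndF4q1 ndF0q1 pcF0 cut_pm_101 Ext.none)

def k0_pm_101 : ∃ t, chk3 f_pm_101 t 1 1 1 = true :=
  ⟨(l 4), by decide +kernel⟩

theorem c_pm_101 : CertF 536870912 536870912 536870912 536870912 67108864 67108864 false true false .npn 1 0 1
    ndF4q1 ndF0q1 pcF0 cut_pm_101 Ext.none :=
  certFK0 (fam := false) (s1 := true) (s2 := false) (a := 1) (b := 0) (c := 1) (cn := .npn) (n1 := ndF4q1) (n2 := ndF0q1) (pc := pcF0) (cut := cut_pm_101) (xt := Ext.none) (P1 := 536870912) (W1 := 536870912) (P2 := 536870912) (W2 := 536870912) (P3 := 67108864) (W3 := 67108864)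
    rfl rfl rfl k0_pm_101

noncomputable def cut_pm_102 : Cut := Cut.of [[⟨3, 0, 0, 1449551462⟩]]

noncomputable def f_pm_102 : ℕ → ℕ → ℕ → ℕ → Bool := onCell 0 536870912 0 536870912 67108864 67108864
    (rowFK 2 false true false .npp 1 0 2 (qsf 536870912 536870912 0 536870912 0) ndF4q1 ndF0q2 pcF0 cut_pm_102 Ext.none)

def k0_pm_102 : ∃ t, chk3 f_pm_102 t 1 1 1 = true :=
  ⟨(a (b (a (l 19836192) (l 19376672)) (a (l 20035600) (l 4))) (b (a (l 18915280) (a (l 18609232) (l 18429104))) (l 4))), by decide +kernel⟩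

theorem c_pm_102 : CertF 536870912 536870912 0 536870912 67108864 67108864 false true false .npp 1 0 2
    ndF4q1 ndF0q2 pcF0 cut_pm_102 Ext.none :=
  certFK2 (fam := false) (s1 := true) (s2 := false) (a := 1) (b := 0) (c := 2) (cn := .npp) (n1 := ndF4q1) (n2 := ndF0q2) (pc := pcF0) (cut := cut_pm_102) (xt := Ext.none) (P1 := 536870912) (W1 := 536870912) (P2 := 0) (W2 := 536870912) (P3 := 67108864) (W3 := 67108864)
    rfl rfl rfl (fun _ => rfl) k0_pm_102

noncomputable def cut_pm_112 : Cut := Cut.of [[⟨3, 0, 0, 1449551462⟩]]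

noncomputable def f_pm_112 : ℕ → ℕ → ℕ → ℕ → Bool := onCell 536870912 536870912 0 536870912 67108864 67108864
    (rowFK 0 false true false .dn 1 1 2 (qsf 536870912 536870912 0 536870912 1) ndF4q1 ndF0q2 pcF1 cut_pm_112 Ext.none)

def k0_pm_112 : ∃ t, chk3 f_pm_112 t 1 1 1 = true :=
  ⟨(a (b (l 19038696) (l 4)) (l 1)), by decide +kernel⟩

theorem c_pm_112 : CertF 536870912 536870912 0 536870912 67108864 67108864 false true false .dn 1 1 2
    ndF4q1 ndF0q2 pcF1 cut_pm_112 Ext.none :=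
  certFK0 (fam := false) (s1 := true) (s2 := false) (a := 1) (b := 1) (c := 2) (cn := .dn) (n1 := ndF4q1) (n2 := ndF0q2) (pc := pcF1) (cut := cut_pm_112) (xt := Ext.none) (P1 := 536870912) (W1 := 536870912) (P2 := 0) (W2 := 536870912) (P3 := 67108864) (W3 := 67108864)
    rfl rfl rfl k0_pm_112

noncomputable def cut_pm_202 : Cut := Cut.of [[⟨3, 0, 0, 1449551462⟩]]

noncomputable def f_pm_202 : ℕ → ℕ → ℕ → ℕ → Bool := onCell 0 536870912 0 536870912 67108864 67108864
    (rowFK 2 false true false .pp 2 0 2 (qsf 1073741824 536870912 0 536870912 0) ndF4q2 ndF0q2 pcF0 cut_pm_202 Ext.none)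

def k0_pm_202 : ∃ t, chk3 f_pm_202 t 1 1 1 = true :=
  ⟨(a (b (a (l 19390640) (l 19648176)) (a (l 20288464) (l 4))) (l 1)), by decide +kernel⟩

theorem c_pm_202 : CertF 1073741824 536870912 0 536870912 67108864 67108864 false true false .pp 2 0 2
    ndF4q2 ndF0q2 pcF0 cut_pm_202 Ext.none :=
  certFK2 (fam := false) (s1 := true) (s2 := false) (a := 2) (b := 0) (c := 2) (cn := .pp) (n1 := ndF4q2) (n2 := ndF0q2) (pc := pcF0) (cut := cut_pm_202) (xt := Ext.none) (P1 := 1073741824) (W1 := 536870912) (P2 := 0) (W2 := 536870912) (P3 := 67108864) (W3 := 67108864)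
    rfl rfl rfl (fun _ => rfl) k0_pm_202

noncomputable def cut_mm_001 : Cut := Cut.of [[⟨3, 0, 0, 1449551462⟩]]

noncomputable def f_mm_001 : ℕ → ℕ → ℕ → ℕ → Bool := onCell 0 536870912 536870912 536870912 67108864 67108864
    (rowFK 0 false false false .up 0 0 1 (qsf 0 536870912 536870912 536870912 0) ndF4q0 ndF0q1 pcF0 cut_mm_001 Ext.none)

def k0_mm_001 : ∃ t, chk3 f_mm_001 t 1 1 1 = true :=
  ⟨(l 5), by decide +kernel⟩

theorem c_mm_001 : CertF 0 536870912 536870912 536870912 67108864 67108864 false false false .up 0 0 1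
    ndF4q0 ndF0q1 pcF0 cut_mm_001 Ext.none :=
  certFK0 (fam := false) (s1 := false) (s2 := false) (a := 0) (b := 0) (c := 1) (cn := .up) (n1 := ndF4q0) (n2 := ndF0q1) (pc := pcF0) (cut := cut_mm_001) (xt := Ext.none) (P1 := 0) (W1 := 536870912) (P2 := 536870912) (W2 := 536870912) (P3 := 67108864) (W3 := 67108864)
    rfl rfl rfl k0_mm_001

noncomputable def cut_mm_011 : Cut := Cut.of [[⟨3, 0, 0, 1449551462⟩]]

noncomputable def f_mm_011 : ℕ → ℕ → ℕ → ℕ → Bool := onCell 0 536870912 536870912 536870912 67108864 67108864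
    (rowFK 0 false false false .pnn 0 1 1 (qsf 0 536870912 536870912 536870912 1) ndF4q0 ndF0q1 pcF1 cut_mm_011 Ext.none)

def k0_mm_011 : ∃ t, chk3 f_mm_011 t 1 1 1 = true :=
  ⟨(l 5), by decide +kernel⟩

theorem c_mm_011 : CertF 0 536870912 536870912 536870912 67108864 67108864 false false false .pnn 0 1 1
    ndF4q0 ndF0q1 pcF1 cut_mm_011 Ext.none :=
  certFK0 (fam := false) (s1 := false) (s2 := false) (a := 0) (b := 1) (c := 1) (cn := .pnn) (n1 := ndF4q0) (n2 := ndF0q1) (pc := pcF1) (cut := cut_mm_011) (xt := Ext.none) (P1 := 0) (W1 := 536870912) (P2 := 536870912) (W2 := 536870912) (P3 := 67108864) (W3 := 67108864)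
    rfl rfl rfl k0_mm_011

noncomputable def cut_mm_012 : Cut := Cut.of [[⟨3, 0, 0, 1449551462⟩]]

noncomputable def f_mm_012 : ℕ → ℕ → ℕ → ℕ → Bool := onCell 0 536870912 0 536870912 67108864 67108864
    (rowFK 0 false false false .pnp 0 1 2 (qsf 0 536870912 0 536870912 1) ndF4q0 ndF0q2 pcF1 cut_mm_012 Ext.none)

def k0_mm_012 : ∃ t, chk3 f_mm_012 t 1 1 1 = true :=
  ⟨(l 5), by decide +kernel⟩

theorem c_mm_012 : CertF 0 536870912 0 536870912 67108864 67108864 false false false .pnp 0 1 2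
    ndF4q0 ndF0q2 pcF1 cut_mm_012 Ext.none :=
  certFK0 (fam := false) (s1 := false) (s2 := false) (a := 0) (b := 1) (c := 2) (cn := .pnp) (n1 := ndF4q0) (n2 := ndF0q2) (pc := pcF1) (cut := cut_mm_012) (xt := Ext.none) (P1 := 0) (W1 := 536870912) (P2 := 0) (W2 := 536870912) (P3 := 67108864) (W3 := 67108864)
    rfl rfl rfl k0_mm_012

noncomputable def cut_mm_022 : Cut := Cut.of [[⟨3, 0, 0, 1449551462⟩]]

noncomputable def f_mm_022 : ℕ → ℕ → ℕ → ℕ → Bool := onCell 0 536870912 0 536870912 67108864 67108864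
    (rowFK 0 false false false .pp 0 2 2 (qsf 0 536870912 0 536870912 2) ndF4q0 ndF0q2 pcF2 cut_mm_022 Ext.none)

def k0_mm_022 : ∃ t, chk3 f_mm_022 t 1 1 1 = true :=
  ⟨(l 5), by decide +kernel⟩

theorem c_mm_022 : CertF 0 536870912 0 536870912 67108864 67108864 false false false .pp 0 2 2
    ndF4q0 ndF0q2 pcF2 cut_mm_022 Ext.none :=
  certFK0 (fam := false) (s1 := false) (s2 := false) (a := 0) (b := 2) (c := 2) (cn := .pp) (n1 := ndF4q0) (n2 := ndF0q2) (pc := pcF2) (cut := cut_mm_022) (xt := Ext.none) (P1 := 0) (W1 := 536870912) (P2 := 0) (W2 := 536870912) (P3 := 67108864) (W3 := 67108864)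
    rfl rfl rfl k0_mm_022

noncomputable def cut_mm_101 : Cut := Cut.of [[⟨3, 0, 0, 1449551462⟩]]

noncomputable def f_mm_101 : ℕ → ℕ → ℕ → ℕ → Bool := onCell 0 536870912 536870912 536870912 67108864 67108864
    (rowFK 2 false false false .npn 1 0 1 (qsf 536870912 536870912 536870912 536870912 0) ndF4q1 ndF0q1 pcF0 cut_mm_101 Ext.none)

def k0_mm_101 : ∃ t, chk3 f_mm_101 t 1 1 1 = true :=
  ⟨(l 5), by decide +kernel⟩

theorem c_mm_101 : CertF 536870912 536870912 536870912 536870912 67108864 67108864 false false false .npn 1 0 1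
    ndF4q1 ndF0q1 pcF0 cut_mm_101 Ext.none :=
  certFK2 (fam := false) (s1 := false) (s2 := false) (a := 1) (b := 0) (c := 1) (cn := .npn) (n1 := ndF4q1) (n2 := ndF0q1) (pc := pcF0) (cut := cut_mm_101) (xt := Ext.none) (P1 := 536870912) (W1 := 536870912) (P2 := 536870912) (W2 := 536870912) (P3 := 67108864) (W3 := 67108864)
    rfl rfl rfl (fun _ => rfl) k0_mm_101

noncomputable def cut_mm_102 : Cut := Cut.of [[⟨3, 0, 0, 1449551462⟩]]

noncomputable def f_mm_102 : ℕ → ℕ → ℕ → ℕ → Bool := onCell 536870912 536870912 0 536870912 67108864 67108864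
    (rowFK 0 false false false .npp 1 0 2 (qsf 536870912 536870912 0 536870912 0) ndF4q1 ndF0q2 pcF0 cut_mm_102 Ext.none)

def k0_mm_102 : ∃ t, chk3 f_mm_102 t 1 1 1 = true :=
  ⟨(l 5), by decide +kernel⟩

theorem c_mm_102 : CertF 536870912 536870912 0 536870912 67108864 67108864 false false false .npp 1 0 2
    ndF4q1 ndF0q2 pcF0 cut_mm_102 Ext.none :=
  certFK0 (fam := false) (s1 := false) (s2 := false) (a := 1) (b := 0) (c := 2) (cn := .npp) (n1 := ndF4q1) (n2 := ndF0q2) (pc := pcF0) (cut := cut_mm_102) (xt := Ext.none) (P1 := 536870912) (W1 := 536870912) (P2 := 0) (W2 := 536870912) (P3 := 67108864) (W3 := 67108864)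
    rfl rfl rfl k0_mm_102

noncomputable def cut_mm_112 : Cut := Cut.of [[⟨3, 0, 0, 1449551462⟩]]

noncomputable def f_mm_112 : ℕ → ℕ → ℕ → ℕ → Bool := onCell 536870912 536870912 0 536870912 67108864 67108864
    (rowFK 0 false false false .dn 1 1 2 (qsf 536870912 536870912 0 536870912 1) ndF4q1 ndF0q2 pcF1 cut_mm_112 Ext.none)

def k0_mm_112 : ∃ t, chk3 f_mm_112 t 1 1 1 = true :=
  ⟨(l 5), by decide +kernel⟩

theorem c_mm_112 : CertF 536870912 536870912 0 536870912 67108864 67108864 false false false .dn 1 1 2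
    ndF4q1 ndF0q2 pcF1 cut_mm_112 Ext.none :=
  certFK0 (fam := false) (s1 := false) (s2 := false) (a := 1) (b := 1) (c := 2) (cn := .dn) (n1 := ndF4q1) (n2 := ndF0q2) (pc := pcF1) (cut := cut_mm_112) (xt := Ext.none) (P1 := 536870912) (W1 := 536870912) (P2 := 0) (W2 := 536870912) (P3 := 67108864) (W3 := 67108864)
    rfl rfl rfl k0_mm_112

noncomputable def cut_mm_202 : Cut := Cut.of [[⟨3, 0, 0, 1449551462⟩]]

noncomputable def f_mm_202 : ℕ → ℕ → ℕ → ℕ → Bool := onCell 1073741824 536870912 0 536870912 67108864 67108864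
    (rowFK 0 false false false .pp 2 0 2 (qsf 1073741824 536870912 0 536870912 0) ndF4q2 ndF0q2 pcF0 cut_mm_202 Ext.none)

def k0_mm_202 : ∃ t, chk3 f_mm_202 t 1 1 1 = true :=
  ⟨(l 5), by decide +kernel⟩

theorem c_mm_202 : CertF 1073741824 536870912 0 536870912 67108864 67108864 false false false .pp 2 0 2
    ndF4q2 ndF0q2 pcF0 cut_mm_202 Ext.none :=
  certFK0 (fam := false) (s1 := false) (s2 := false) (a := 2) (b := 0) (c := 2) (cn := .pp) (n1 := ndF4q2) (n2 := ndF0q2) (pc := pcF0) (cut := cut_mm_202) (xt := Ext.none) (P1 := 1073741824) (W1 := 536870912) (P2 := 0) (W2 := 536870912) (P3 := 67108864) (W3 := 67108864)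
    rfl rfl rfl k0_mm_202

end Pool.Agent.Strip051.G.I1_16_1_8.Tab.C.FB40

namespace Pool.Agent.Strip051.G.I1_16_1_8.Tab.C.FB41

open Pool.Agent.Strip051.PB Pool.Agent.Strip051.PB.T
open Pool.Agent.Strip051.G.I1_16_1_8.Tab

noncomputable def f_pp_001 : ℕ → ℕ → ℕ → ℕ → Bool := onCell 0 536870912 0 536870912 67108864 67108864
    (rowFK 1 false true true .up 0 0 1 (qsf 0 536870912 536870912 536870912 0) ndF4q0 ndF1q1 pcF0 Cut.none Ext.none)

def k0_pp_001 : ∃ t, chk3 f_pp_001 t 1 1 1 = true :=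
  ⟨(l 3), by decide +kernel⟩

theorem c_pp_001 : CertF 0 536870912 536870912 536870912 67108864 67108864 false true true .up 0 0 1
    ndF4q0 ndF1q1 pcF0 Cut.none Ext.none :=
  certFK1 (fam := false) (s1 := true) (s2 := true) (a := 0) (b := 0) (c := 1) (cn := .up) (n1 := ndF4q0) (n2 := ndF1q1) (pc := pcF0) (cut := Cut.none) (xt := Ext.none) (P1 := 0) (W1 := 536870912) (P2 := 536870912) (W2 := 536870912) (P3 := 67108864) (W3 := 67108864)
    rfl rfl rfl (fun _ => rfl) k0_pp_001

noncomputable def f_pp_011 : ℕ → ℕ → ℕ → ℕ → Bool := onCell 536870912 536870912 536870912 536870912 67108864 67108864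
    (rowFK 2 false true true .pnn 0 1 1 (qsf 0 536870912 536870912 536870912 1) ndF4q0 ndF1q1 pcF1 Cut.none Ext.none)

def k0_pp_011 : ∃ t, chk3 f_pp_011 t 1 1 1 = true :=
  ⟨(a (l 3) (a (l 3) (b (l 1) (b (l 18197952) (l 18675920))))), by decide +kernel⟩

theorem c_pp_011 : CertF 0 536870912 536870912 536870912 67108864 67108864 false true true .pnn 0 1 1
    ndF4q0 ndF1q1 pcF1 Cut.none Ext.none :=
  certFK2 (fam := false) (s1 := true) (s2 := true) (a := 0) (b := 1) (c := 1) (cn := .pnn) (n1 := ndF4q0) (n2 := ndF1q1) (pc := pcF1) (cut := Cut.none) (xt := Ext.none) (P1 := 0) (W1 := 536870912) (P2 := 536870912) (W2 := 536870912) (P3 := 67108864) (W3 := 67108864)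
    rfl rfl rfl (fun _ => rfl) k0_pp_011

noncomputable def f_pp_012_a : ℕ → ℕ → ℕ → ℕ → Bool := onCell 536870912 536870912 0 536870912 67108864 67108864
    (rowFK 2 false true true .pnp 0 1 2 (qsf 0 536870912 0 536870912 1) ndF4q0 ndF1q2a pcF1 Cut.none Ext.none)

def k0_pp_012_a : ∃ t, chk3 f_pp_012_a t 1 1 1 = true :=
  ⟨(a (b (a (l 18062984) (l 17994584)) (a (b (l 18005432) (l 17869560)) (l 17926360))) (a (b (l 18414880) (b (l 18343872) (l 18297712))) (a (b (l 18895096) (l 18831528)) (a (l 19152584) (l 19222872))))), by decide +kernel⟩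

theorem c_pp_012_a : CertF 0 536870912 0 536870912 67108864 67108864 false true true .pnp 0 1 2
    ndF4q0 ndF1q2a pcF1 Cut.none Ext.none :=
  certFK2 (fam := false) (s1 := true) (s2 := true) (a := 0) (b := 1) (c := 2) (cn := .pnp) (n1 := ndF4q0) (n2 := ndF1q2a) (pc := pcF1) (cut := Cut.none) (xt := Ext.none) (P1 := 0) (W1 := 536870912) (P2 := 0) (W2 := 536870912) (P3 := 67108864) (W3 := 67108864)
    rfl rfl rfl (fun _ => rfl) k0_pp_012_a

noncomputable def f_pp_012_b : ℕ → ℕ → ℕ → ℕ → Bool := onCell 536870912 536870912 1239849684 370763052 67108864 67108864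
    (rowFK 2 false true true .pnp 0 1 2 (qsf 0 536870912 1239849684 370763052 1) ndF4q0 ndF1q2b pcF1 Cut.none Ext.none)

def k0_pp_012_b : ∃ t, chk3 f_pp_012_b t 1 1 1 = true :=
  ⟨(a (b (a (l 2) (l 18330616)) (l 2)) (b (a (l 18668448) (a (l 18825640) (a (l 18923472) (l 18989376)))) (a (b (l 18461208) (l 2)) (a (l 18479440) (a (l 18483960) (l 18498216)))))), by decide +kernel⟩

theorem c_pp_012_b : CertF 0 536870912 1239849684 370763052 67108864 67108864 false true true .pnp 0 1 2
    ndF4q0 ndF1q2b pcF1 Cut.none Ext.none :=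
  certFK2 (fam := false) (s1 := true) (s2 := true) (a := 0) (b := 1) (c := 2) (cn := .pnp) (n1 := ndF4q0) (n2 := ndF1q2b) (pc := pcF1) (cut := Cut.none) (xt := Ext.none) (P1 := 0) (W1 := 536870912) (P2 := 1239849684) (W2 := 370763052) (P3 := 67108864) (W3 := 67108864)
    rfl rfl rfl (fun _ => rfl) k0_pp_012_b

noncomputable def f_pp_022_a : ℕ → ℕ → ℕ → ℕ → Bool := onCell 0 536870912 0 536870912 67108864 67108864
    (rowFK 0 false true true .pp 0 2 2 (qsf 0 536870912 0 536870912 2) ndF4q0 ndF1q2a pcF2 Cut.none Ext.none)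

def k0_pp_022_a : ∃ t, chk3 f_pp_022_a t 1 1 1 = true :=
  ⟨(a (b (l 19522232) (a (l 19568984) (l 19686608))) (l 1)), by decide +kernel⟩

theorem c_pp_022_a : CertF 0 536870912 0 536870912 67108864 67108864 false true true .pp 0 2 2
    ndF4q0 ndF1q2a pcF2 Cut.none Ext.none :=
  certFK0 (fam := false) (s1 := true) (s2 := true) (a := 0) (b := 2) (c := 2) (cn := .pp) (n1 := ndF4q0) (n2 := ndF1q2a) (pc := pcF2) (cut := Cut.none) (xt := Ext.none) (P1 := 0) (W1 := 536870912) (P2 := 0) (W2 := 536870912) (P3 := 67108864) (W3 := 67108864)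
    rfl rfl rfl k0_pp_022_a

noncomputable def f_pp_022_b : ℕ → ℕ → ℕ → ℕ → Bool := onCell 0 536870912 1073741824 536870912 67108864 67108864
    (rowFK 1 false true true .pp 0 2 2 (qsf 0 536870912 1239849684 370763052 2) ndF4q0 ndF1q2b pcF2 Cut.none Ext.none)

def k0_pp_022_b : ∃ t, chk3 f_pp_022_b t 1 1 1 = true :=
  ⟨(b (a (b (l 19440192) (l 18923384)) (b (l 18546144) (l 4))) (l 4)), by decide +kernel⟩

theorem c_pp_022_b : CertF 0 536870912 1239849684 370763052 67108864 67108864 false true true .pp 0 2 2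
    ndF4q0 ndF1q2b pcF2 Cut.none Ext.none :=
  certFK1 (fam := false) (s1 := true) (s2 := true) (a := 0) (b := 2) (c := 2) (cn := .pp) (n1 := ndF4q0) (n2 := ndF1q2b) (pc := pcF2) (cut := Cut.none) (xt := Ext.none) (P1 := 0) (W1 := 536870912) (P2 := 1239849684) (W2 := 370763052) (P3 := 67108864) (W3 := 67108864)
    rfl rfl rfl (fun _ => rfl) k0_pp_022_b

noncomputable def f_pp_023 : ℕ → ℕ → ℕ → ℕ → Bool := onCell 0 536870912 1610612736 536870912 67108864 67108864
    (rowFK 0 false true true .up 0 2 3 (qsf 0 536870912 1610612736 536870912 2) ndF4q0 ndF1q3 pcF2 Cut.none Ext.none)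

def k0_pp_023 : ∃ t, chk3 f_pp_023 t 1 1 1 = true :=
  ⟨(a (l 4) (b (b (a (l 4) (l 18328520)) (l 4)) (l 4))), by decide +kernel⟩

theorem c_pp_023 : CertF 0 536870912 1610612736 536870912 67108864 67108864 false true true .up 0 2 3
    ndF4q0 ndF1q3 pcF2 Cut.none Ext.none :=
  certFK0 (fam := false) (s1 := true) (s2 := true) (a := 0) (b := 2) (c := 3) (cn := .up) (n1 := ndF4q0) (n2 := ndF1q3) (pc := pcF2) (cut := Cut.none) (xt := Ext.none) (P1 := 0) (W1 := 536870912) (P2 := 1610612736) (W2 := 536870912) (P3 := 67108864) (W3 := 67108864)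
    rfl rfl rfl k0_pp_023

noncomputable def f_pp_033 : ℕ → ℕ → ℕ → ℕ → Bool := onCell 1610612736 536870912 1610612736 536870912 67108864 67108864
    (rowFK 2 false true true .pnn 0 3 3 (qsf 0 536870912 1610612736 536870912 3) ndF4q0 ndF1q3 pcF3 Cut.none Ext.none)

def k0_pp_033 : ∃ t, chk3 f_pp_033 t 1 1 1 = true :=
  ⟨(l 4), by decide +kernel⟩

theorem c_pp_033 : CertF 0 536870912 1610612736 536870912 67108864 67108864 false true true .pnn 0 3 3
    ndF4q0 ndF1q3 pcF3 Cut.none Ext.none :=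
  certFK2 (fam := false) (s1 := true) (s2 := true) (a := 0) (b := 3) (c := 3) (cn := .pnn) (n1 := ndF4q0) (n2 := ndF1q3) (pc := pcF3) (cut := Cut.none) (xt := Ext.none) (P1 := 0) (W1 := 536870912) (P2 := 1610612736) (W2 := 536870912) (P3 := 67108864) (W3 := 67108864)
    rfl rfl rfl (fun _ => rfl) k0_pp_033

noncomputable def f_pp_101 : ℕ → ℕ → ℕ → ℕ → Bool := onCell 536870912 536870912 536870912 536870912 67108864 67108864
    (rowFK 0 false true true .npn 1 0 1 (qsf 536870912 536870912 536870912 536870912 0) ndF4q1 ndF1q1 pcF0 Cut.none Ext.none)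

def k0_pp_101 : ∃ t, chk3 f_pp_101 t 1 1 1 = true :=
  ⟨(l 3), by decide +kernel⟩

theorem c_pp_101 : CertF 536870912 536870912 536870912 536870912 67108864 67108864 false true true .npn 1 0 1
    ndF4q1 ndF1q1 pcF0 Cut.none Ext.none :=
  certFK0 (fam := false) (s1 := true) (s2 := true) (a := 1) (b := 0) (c := 1) (cn := .npn) (n1 := ndF4q1) (n2 := ndF1q1) (pc := pcF0) (cut := Cut.none) (xt := Ext.none) (P1 := 536870912) (W1 := 536870912) (P2 := 536870912) (W2 := 536870912) (P3 := 67108864) (W3 := 67108864)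
    rfl rfl rfl k0_pp_101

noncomputable def cut_pp_102_a : Cut := Cut.of [[⟨0, 1, 0, 67108864⟩, ⟨1, 0, 0, 67108864⟩, ⟨2, 1, 0, 67108864⟩]]

noncomputable def f_pp_102_a : ℕ → ℕ → ℕ → ℕ → Bool := onCell 536870912 536870912 0 536870912 67108864 67108864
    (rowFK 0 false true true .npp 1 0 2 (qsf 536870912 536870912 0 536870912 0) ndF4q1 ndF1q2a pcF0 cut_pp_102_a Ext.none)

def k0_pp_102_a : ∃ t, chk3 f_pp_102_a t 1 1 1 = true :=
  ⟨(a (b (a (l 18692968) (l 18814192)) (a (b (l 18518448) (l 18350040)) (b (l 18577960) (b (l 18393984) (l 18201024))))) (b (a (b (l 18956976) (l 18832104)) (a (b (l 19018960) (l 18863016)) (b (a (l 19036480) (l 19010880)) (a (l 18809624) (l 18665584))))) (a (b (a (l 18593928) (l 18575840)) (b (a (l 18317712) (l 18181064)) (a (l 18002584) (b (l 17857912) (l 17577608))))) (b (a (b (l 18606416) (l 18302608)) (a (b (l 18393360) (l 17859600)) (b (l 17985296) (a (l 17310016) (l 16791608))))) (a (b (a (l 17945832) (l 17619040)) (b (a (l 17478984)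 (l 16955312)) (a (l 17081480) (b (l 16782376) (l 16780480))))) (a (b (b (l 17216752) (l 16778528)) (b (a (l 16773816) (l 16765104)) (b (a (l 16771192) (l 16765968)) (a (l 16772872) (l 6))))) (b (a (l 16765680) (b (l 16757000) (l 16750528))) (b (a (b (l 16757408) (l 6)) (l 6)) (l 6))))))))), by decide +kernel⟩

theorem c_pp_102_a : CertF 536870912 536870912 0 536870912 67108864 67108864 false true true .npp 1 0 2
    ndF4q1 ndF1q2a pcF0 cut_pp_102_a Ext.none :=
  certFK0 (fam := false) (s1 := true) (s2 := true) (a := 1) (b := 0) (c := 2) (cn := .npp) (n1 := ndF4q1) (n2 := ndF1q2a) (pc := pcF0) (cut := cut_pp_102_a) (xt := Ext.none) (P1 := 536870912) (W1 := 536870912) (P2 := 0) (W2 := 536870912) (P3 := 67108864) (W3 := 67108864)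
    rfl rfl rfl k0_pp_102_a

noncomputable def cut_pp_102_b : Cut := Cut.of [[⟨0, 1, 0, 67108864⟩, ⟨1, 0, 0, 67108864⟩, ⟨2, 1, 0, 67108864⟩]]

noncomputable def f_pp_102_b : ℕ → ℕ → ℕ → ℕ → Bool := onCell 536870912 536870912 1239849684 370763052 67108864 67108864
    (rowFK 0 false true true .npp 1 0 2 (qsf 536870912 536870912 1239849684 370763052 0) ndF4q1 ndF1q2b pcF0 cut_pp_102_b Ext.none)

def k0_pp_102_b : ∃ t, chk3 f_pp_102_b t 1 1 1 = true :=
  ⟨(a (b (a (l 2) (l 18875408)) (l 2)) (b (a (b (l 19058256) (l 19041632)) (b (a (l 19190592) (b (a (l 19200080) (l 19239608)) (l 19391128))) (a (l 19269152) (l 19489656)))) (a (l 18877072) (l 19254280)))), by decide +kernel⟩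

theorem c_pp_102_b : CertF 536870912 536870912 1239849684 370763052 67108864 67108864 false true true .npp 1 0 2
    ndF4q1 ndF1q2b pcF0 cut_pp_102_b Ext.none :=
  certFK0 (fam := false) (s1 := true) (s2 := true) (a := 1) (b := 0) (c := 2) (cn := .npp) (n1 := ndF4q1) (n2 := ndF1q2b) (pc := pcF0) (cut := cut_pp_102_b) (xt := Ext.none) (P1 := 536870912) (W1 := 536870912) (P2 := 1239849684) (W2 := 370763052) (P3 := 67108864) (W3 := 67108864)
    rfl rfl rfl k0_pp_102_b

noncomputable def f_pp_112_a : ℕ → ℕ → ℕ → ℕ → Bool := onCell 536870912 536870912 0 536870912 67108864 67108864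
    (rowFK 2 false true true .dn 1 1 2 (qsf 536870912 536870912 0 536870912 1) ndF4q1 ndF1q2a pcF1 Cut.none Ext.none)

def k0_pp_112_a : ∃ t, chk3 f_pp_112_a t 1 1 1 = true :=
  ⟨(a (b (l 17964688) (a (l 18055288) (l 17893096))) (l 1)), by decide +kernel⟩

theorem c_pp_112_a : CertF 536870912 536870912 0 536870912 67108864 67108864 false true true .dn 1 1 2
    ndF4q1 ndF1q2a pcF1 Cut.none Ext.none :=
  certFK2 (fam := false) (s1 := true) (s2 := true) (a := 1) (b := 1) (c := 2) (cn := .dn) (n1 := ndF4q1) (n2 := ndF1q2a) (pc := pcF1) (cut := Cut.none) (xt := Ext.none) (P1 := 536870912) (W1 := 536870912) (P2 := 0) (W2 := 536870912) (P3 := 67108864) (W3 := 67108864)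
    rfl rfl rfl (fun _ => rfl) k0_pp_112_a

noncomputable def f_pp_112_b : ℕ → ℕ → ℕ → ℕ → Bool := onCell 536870912 536870912 1239849684 370763052 67108864 67108864
    (rowFK 2 false true true .dn 1 1 2 (qsf 536870912 536870912 1239849684 370763052 1) ndF4q1 ndF1q2b pcF1 Cut.none Ext.none)

def k0_pp_112_b : ∃ t, chk3 f_pp_112_b t 1 1 1 = true :=
  ⟨(a (b (a (l 18498328) (l 18223360)) (a (l 19428960) (l 18777624))) (a (b (l 18428016) (l 18426032)) (a (l 18619064) (a (l 18683152) (l 18724576))))), by decide +kernel⟩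

theorem c_pp_112_b : CertF 536870912 536870912 1239849684 370763052 67108864 67108864 false true true .dn 1 1 2
    ndF4q1 ndF1q2b pcF1 Cut.none Ext.none :=
  certFK2 (fam := false) (s1 := true) (s2 := true) (a := 1) (b := 1) (c := 2) (cn := .dn) (n1 := ndF4q1) (n2 := ndF1q2b) (pc := pcF1) (cut := Cut.none) (xt := Ext.none) (P1 := 536870912) (W1 := 536870912) (P2 := 1239849684) (W2 := 370763052) (P3 := 67108864) (W3 := 67108864)
    rfl rfl rfl (fun _ => rfl) k0_pp_112_b

noncomputable def f_pp_113 : ℕ → ℕ → ℕ → ℕ → Bool := onCell 536870912 536870912 536870912 536870912 67108864 67108864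
    (rowFK 1 false true true .nn 1 1 3 (qsf 536870912 536870912 1610612736 536870912 1) ndF4q1 ndF1q3 pcF1 Cut.none Ext.none)

def k0_pp_113 : ∃ t, chk3 f_pp_113 t 1 1 1 = true :=
  ⟨(a (b (b (l 1) (l 17677184)) (b (l 435438620007) (b (l 18232824) (b (l 18200512) (l 18149856))))) (b (a (l 18528464) (l 253442147671)) (b (l 18296720) (b (l 17757584) (b (l 17557648) (l 17417008)))))), by decide +kernel⟩

theorem c_pp_113 : CertF 536870912 536870912 1610612736 536870912 67108864 67108864 false true true .nn 1 1 3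
    ndF4q1 ndF1q3 pcF1 Cut.none Ext.none :=
  certFK1 (fam := false) (s1 := true) (s2 := true) (a := 1) (b := 1) (c := 3) (cn := .nn) (n1 := ndF4q1) (n2 := ndF1q3) (pc := pcF1) (cut := Cut.none) (xt := Ext.none) (P1 := 536870912) (W1 := 536870912) (P2 := 1610612736) (W2 := 536870912) (P3 := 67108864) (W3 := 67108864)
    rfl rfl rfl (fun _ => rfl) k0_pp_113

noncomputable def f_pp_123 : ℕ → ℕ → ℕ → ℕ → Bool := onCell 1073741824 536870912 1610612736 536870912 67108864 67108864
    (rowFK 2 false true true .npn 1 2 3 (qsf 536870912 536870912 1610612736 536870912 2) ndF4q1 ndF1q3 pcF2 Cut.none Ext.none)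

def k0_pp_123 : ∃ t, chk3 f_pp_123 t 1 1 1 = true :=
  ⟨(a (b (a (l 18167664) (l 4)) (a (l 17324192) (l 4))) (l 4)), by decide +kernel⟩

theorem c_pp_123 : CertF 536870912 536870912 1610612736 536870912 67108864 67108864 false true true .npn 1 2 3
    ndF4q1 ndF1q3 pcF2 Cut.none Ext.none :=
  certFK2 (fam := false) (s1 := true) (s2 := true) (a := 1) (b := 2) (c := 3) (cn := .npn) (n1 := ndF4q1) (n2 := ndF1q3) (pc := pcF2) (cut := Cut.none) (xt := Ext.none) (P1 := 536870912) (W1 := 536870912) (P2 := 1610612736) (W2 := 536870912) (P3 := 67108864) (W3 := 67108864)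
    rfl rfl rfl (fun _ => rfl) k0_pp_123

noncomputable def f_pp_133 : ℕ → ℕ → ℕ → ℕ → Bool := onCell 1610612736 536870912 1610612736 536870912 67108864 67108864
    (rowFK 2 false true true .dn 1 3 3 (qsf 536870912 536870912 1610612736 536870912 3) ndF4q1 ndF1q3 pcF3 Cut.none Ext.none)

def k0_pp_133 : ∃ t, chk3 f_pp_133 t 1 1 1 = true :=
  ⟨(l 4), by decide +kernel⟩

theorem c_pp_133 : CertF 536870912 536870912 1610612736 536870912 67108864 67108864 false true true .dn 1 3 3
    ndF4q1 ndF1q3 pcF3 Cut.none Ext.none :=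
  certFK2 (fam := false) (s1 := true) (s2 := true) (a := 1) (b := 3) (c := 3) (cn := .dn) (n1 := ndF4q1) (n2 := ndF1q3) (pc := pcF3) (cut := Cut.none) (xt := Ext.none) (P1 := 536870912) (W1 := 536870912) (P2 := 1610612736) (W2 := 536870912) (P3 := 67108864) (W3 := 67108864)
    rfl rfl rfl (fun _ => rfl) k0_pp_133

noncomputable def cut_pp_202_a : Cut := Cut.of [[⟨0, 1, 0, 67108864⟩, ⟨1, 0, 0, 67108864⟩, ⟨2, 1, 0, 67108864⟩]]

noncomputable def f_pp_202_a : ℕ → ℕ → ℕ → ℕ → Bool := onCell 0 536870912 0 536870912 67108864 67108864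
    (rowFK 2 false true true .pp 2 0 2 (qsf 1073741824 536870912 0 536870912 0) ndF4q2 ndF1q2a pcF0 cut_pp_202_a Ext.none)

def k0_pp_202_a : ∃ t, chk3 f_pp_202_a t 1 1 1 = true :=
  ⟨(a (a (b (a (b (l 17720128) (a (l 17446120) (b (l 17834224) (l 17637064)))) (b (a (l 18234072) (l 18533272)) (a (b (l 18110472) (l 17858536)) (b (l 18394520) (l 18136544))))) (a (b (a (b (b (l 17097936) (l 16940336)) (a (b (l 16771296) (l 16802632)) (b (l 16813808) (l 16841024)))) (b (a (l 17091256) (l 17172640)) (b (l 16955184) (l 16842376)))) (a (b (b (a (a (l 16731440) (l 16781224)) (b (l 16829952) (a (l 16702048) (l 16703912)))) (l 6)) (l 6)) (b (b (a (l 16716712) (l 16740384)) (a (l 6) (l 16757888))) (a (l 6) (l 1))))) (b (b (a (l 17328256) (l 17577976)) (a (b (l 16774792) (l 16771728)) (l 16831720))) (b (a (b (l 16776416) (l 1)) (l 1)) (l 1))))) (b (a (b (b (l 19018776) (l 18954520)) (l 18912920)) (l 1)) (b (l 1) (l 1)))) (l 1)), by decide +kernel⟩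

theorem c_pp_202_a : CertF 1073741824 536870912 0 536870912 67108864 67108864 false true true .pp 2 0 2
    ndF4q2 ndF1q2a pcF0 cut_pp_202_a Ext.none :=
  certFK2 (fam := false) (s1 := true) (s2 := true) (a := 2) (b := 0) (c := 2) (cn := .pp) (n1 := ndF4q2) (n2 := ndF1q2a) (pc := pcF0) (cut := cut_pp_202_a) (xt := Ext.none) (P1 := 1073741824) (W1 := 536870912) (P2 := 0) (W2 := 536870912) (P3 := 67108864) (W3 := 67108864)
    rfl rfl rfl (fun _ => rfl) k0_pp_202_a

noncomputable def cut_pp_202_b : Cut := Cut.of [[⟨0, 1, 0, 67108864⟩, ⟨1, 0, 0, 67108864⟩, ⟨2, 1, 0, 67108864⟩]]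

noncomputable def f_pp_202_b : ℕ → ℕ → ℕ → ℕ → Bool := onCell 0 536870912 1239849684 370763052 67108864 67108864
    (rowFK 2 false true true .pp 2 0 2 (qsf 1073741824 536870912 1239849684 370763052 0) ndF4q2 ndF1q2b pcF0 cut_pp_202_b Ext.none)

def k0_pp_202_b : ∃ t, chk3 f_pp_202_b t 1 1 1 = true :=
  ⟨(a (a (b (a (b (l 18137216) (l 18762424)) (b (a (l 18526560) (l 18784056)) (l 18929800))) (b (a (l 19012120) (l 19075224)) (l 248206957927))) (b (b (a (a (l 18981384) (l 19188224)) (l 19216920)) (a (l 19142312) (l 19373368))) (a (b (l 19193320) (l 19098080)) (b (l 19311176) (l 19157168))))) (a (b (l 211029728087) (b (l 19482096) (l 19286576))) (b (l 1) (l 19561808)))), by decide +kernel⟩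

theorem c_pp_202_b : CertF 1073741824 536870912 1239849684 370763052 67108864 67108864 false true true .pp 2 0 2
    ndF4q2 ndF1q2b pcF0 cut_pp_202_b Ext.none :=
  certFK2 (fam := false) (s1 := true) (s2 := true) (a := 2) (b := 0) (c := 2) (cn := .pp) (n1 := ndF4q2) (n2 := ndF1q2b) (pc := pcF0) (cut := cut_pp_202_b) (xt := Ext.none) (P1 := 1073741824) (W1 := 536870912) (P2 := 1239849684) (W2 := 370763052) (P3 := 67108864) (W3 := 67108864)
    rfl rfl rfl (fun _ => rfl) k0_pp_202_b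

noncomputable def f_pp_203 : ℕ → ℕ → ℕ → ℕ → Bool := onCell 1073741824 536870912 0 536870912 67108864 67108864
    (rowFK 1 false true true .up 2 0 3 (qsf 1073741824 536870912 1610612736 536870912 0) ndF4q2 ndF1q3 pcF0 Cut.none Ext.none)

def k0_pp_203 : ∃ t, chk3 f_pp_203 t 1 1 1 = true :=
  ⟨(b (a (b (l 1) (a (l 1) (l 608850770535))) (b (b (a (l 1) (l 19272512)) (a (l 512750877687) (l 19073144))) (a (l 19186616) (l 18764976)))) (a (a (l 435977816327) (b (l 19105600) (l 18828504))) (a (b (l 18811000) (l 18464888)) (b (l 18407384) (l 18035160))))), by decide +kernel⟩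

theorem c_pp_203 : CertF 1073741824 536870912 1610612736 536870912 67108864 67108864 false true true .up 2 0 3
    ndF4q2 ndF1q3 pcF0 Cut.none Ext.none :=
  certFK1 (fam := false) (s1 := true) (s2 := true) (a := 2) (b := 0) (c := 3) (cn := .up) (n1 := ndF4q2) (n2 := ndF1q3) (pc := pcF0) (cut := Cut.none) (xt := Ext.none) (P1 := 1073741824) (W1 := 536870912) (P2 := 1610612736) (W2 := 536870912) (P3 := 67108864) (W3 := 67108864)
    rfl rfl rfl (fun _ => rfl) k0_pp_203

noncomputable def f_pp_213 : ℕ → ℕ → ℕ → ℕ → Bool := onCell 536870912 536870912 1610612736 536870912 67108864 67108864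
    (rowFK 2 false true true .pnn 2 1 3 (qsf 1073741824 536870912 1610612736 536870912 1) ndF4q2 ndF1q3 pcF1 Cut.none Ext.none)

def k0_pp_213 : ∃ t, chk3 f_pp_213 t 1 1 1 = true :=
  ⟨(a (b (a (b (l 19754088) (l 19494696)) (l 19572760)) (a (b (l 19112880) (l 18606184)) (l 19177392))) (b (a (l 18884632) (l 1)) (a (a (l 18543824) (l 18056144)) (a (l 17745128) (a (l 17651416) (l 17624376)))))), by decide +kernel⟩

theorem c_pp_213 : CertF 1073741824 536870912 1610612736 536870912 67108864 67108864 false true true .pnn 2 1 3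
    ndF4q2 ndF1q3 pcF1 Cut.none Ext.none :=
  certFK2 (fam := false) (s1 := true) (s2 := true) (a := 2) (b := 1) (c := 3) (cn := .pnn) (n1 := ndF4q2) (n2 := ndF1q3) (pc := pcF1) (cut := Cut.none) (xt := Ext.none) (P1 := 1073741824) (W1 := 536870912) (P2 := 1610612736) (W2 := 536870912) (P3 := 67108864) (W3 := 67108864)
    rfl rfl rfl (fun _ => rfl) k0_pp_213

noncomputable def f_pp_303 : ℕ → ℕ → ℕ → ℕ → Bool := onCell 0 1230186008 1610612736 536870912 67108864 67108864
    (rowFK 0 false true true .npn 3 0 3 (qsf 0 1230186008 1610612736 536870912 0) ndF4q3 ndF1q3 pcF0 Cut.none Ext.none)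

def k0_pp_303 : ∃ t, chk3 f_pp_303 t 1 1 1 = true :=
  ⟨(a (l 3) (a (l 3) (b (b (l 3) (a (l 3) (a (l 3) (l 18453088)))) (a (b (l 3) (l 386717025623)) (b (l 238541122343) (l 17837912)))))), by decide +kernel⟩

theorem c_pp_303 : CertF 0 1230186008 1610612736 536870912 67108864 67108864 false true true .npn 3 0 3
    ndF4q3 ndF1q3 pcF0 Cut.none Ext.none :=
  certFK0 (fam := false) (s1 := true) (s2 := true) (a := 3) (b := 0) (c := 3) (cn := .npn) (n1 := ndF4q3) (n2 := ndF1q3) (pc := pcF0) (cut := Cut.none) (xt := Ext.none) (P1 := 0) (W1 := 1230186008) (P2 := 1610612736) (W2 := 536870912) (P3 := 67108864) (W3 := 67108864)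
    rfl rfl rfl k0_pp_303

noncomputable def f_pp_313 : ℕ → ℕ → ℕ → ℕ → Bool := onCell 0 1230186008 1610612736 536870912 67108864 67108864
    (rowFK 0 false true true .dn 3 1 3 (qsf 0 1230186008 1610612736 536870912 1) ndF4q3 ndF1q3 pcF1 Cut.none Ext.none)

def k0_pp_313 : ∃ t, chk3 f_pp_313 t 1 1 1 = true :=
  ⟨(a (l 1) (a (l 1) (b (l 1) (a (l 1) (b (l 1) (a (l 1) (l 18019464))))))), by decide +kernel⟩

theorem c_pp_313 : CertF 0 1230186008 1610612736 536870912 67108864 67108864 false true true .dn 3 1 3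
    ndF4q3 ndF1q3 pcF1 Cut.none Ext.none :=
  certFK0 (fam := false) (s1 := true) (s2 := true) (a := 3) (b := 1) (c := 3) (cn := .dn) (n1 := ndF4q3) (n2 := ndF1q3) (pc := pcF1) (cut := Cut.none) (xt := Ext.none) (P1 := 0) (W1 := 1230186008) (P2 := 1610612736) (W2 := 536870912) (P3 := 67108864) (W3 := 67108864)
    rfl rfl rfl k0_pp_313

noncomputable def f_pm_001 : ℕ → ℕ → ℕ → ℕ → Bool := onCell 0 536870912 536870912 536870912 67108864 67108864
    (rowFK 0 false true false .up 0 0 1 (qsf 0 536870912 536870912 536870912 0) ndF4q0 ndF1q1 pcF0 Cut.none Ext.none)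

def k0_pm_001 : ∃ t, chk3 f_pm_001 t 1 1 1 = true :=
  ⟨(l 4), by decide +kernel⟩

theorem c_pm_001 : CertF 0 536870912 536870912 536870912 67108864 67108864 false true false .up 0 0 1
    ndF4q0 ndF1q1 pcF0 Cut.none Ext.none :=
  certFK0 (fam := false) (s1 := true) (s2 := false) (a := 0) (b := 0) (c := 1) (cn := .up) (n1 := ndF4q0) (n2 := ndF1q1) (pc := pcF0) (cut := Cut.none) (xt := Ext.none) (P1 := 0) (W1 := 536870912) (P2 := 536870912) (W2 := 536870912) (P3 := 67108864) (W3 := 67108864)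
    rfl rfl rfl k0_pm_001

noncomputable def f_pm_011 : ℕ → ℕ → ℕ → ℕ → Bool := onCell 0 536870912 536870912 536870912 67108864 67108864
    (rowFK 0 false true false .pnn 0 1 1 (qsf 0 536870912 536870912 536870912 1) ndF4q0 ndF1q1 pcF1 Cut.none Ext.none)

def k0_pm_011 : ∃ t, chk3 f_pm_011 t 1 1 1 = true :=
  ⟨(l 4), by decide +kernel⟩

theorem c_pm_011 : CertF 0 536870912 536870912 536870912 67108864 67108864 false true false .pnn 0 1 1
    ndF4q0 ndF1q1 pcF1 Cut.none Ext.none :=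
  certFK0 (fam := false) (s1 := true) (s2 := false) (a := 0) (b := 1) (c := 1) (cn := .pnn) (n1 := ndF4q0) (n2 := ndF1q1) (pc := pcF1) (cut := Cut.none) (xt := Ext.none) (P1 := 0) (W1 := 536870912) (P2 := 536870912) (W2 := 536870912) (P3 := 67108864) (W3 := 67108864)
    rfl rfl rfl k0_pm_011

noncomputable def f_pm_012_a : ℕ → ℕ → ℕ → ℕ → Bool := onCell 0 536870912 0 536870912 67108864 67108864
    (rowFK 0 false true false .pnp 0 1 2 (qsf 0 536870912 0 536870912 1) ndF4q0 ndF1q2a pcF1 Cut.none Ext.none)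

def k0_pm_012_a : ∃ t, chk3 f_pm_012_a t 1 1 1 = true :=
  ⟨(l 4), by decide +kernel⟩

theorem c_pm_012_a : CertF 0 536870912 0 536870912 67108864 67108864 false true false .pnp 0 1 2
    ndF4q0 ndF1q2a pcF1 Cut.none Ext.none :=
  certFK0 (fam := false) (s1 := true) (s2 := false) (a := 0) (b := 1) (c := 2) (cn := .pnp) (n1 := ndF4q0) (n2 := ndF1q2a) (pc := pcF1) (cut := Cut.none) (xt := Ext.none) (P1 := 0) (W1 := 536870912) (P2 := 0) (W2 := 536870912) (P3 := 67108864) (W3 := 67108864)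
    rfl rfl rfl k0_pm_012_a

noncomputable def f_pm_012_b : ℕ → ℕ → ℕ → ℕ → Bool := onCell 0 536870912 1239849684 370763052 67108864 67108864
    (rowFK 0 false true false .pnp 0 1 2 (qsf 0 536870912 1239849684 370763052 1) ndF4q0 ndF1q2b pcF1 Cut.none Ext.none)

def k0_pm_012_b : ∃ t, chk3 f_pm_012_b t 1 1 1 = true :=
  ⟨(l 4), by decide +kernel⟩

theorem c_pm_012_b : CertF 0 536870912 1239849684 370763052 67108864 67108864 false true false .pnp 0 1 2
    ndF4q0 ndF1q2b pcF1 Cut.none Ext.none :=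
  certFK0 (fam := false) (s1 := true) (s2 := false) (a := 0) (b := 1) (c := 2) (cn := .pnp) (n1 := ndF4q0) (n2 := ndF1q2b) (pc := pcF1) (cut := Cut.none) (xt := Ext.none) (P1 := 0) (W1 := 536870912) (P2 := 1239849684) (W2 := 370763052) (P3 := 67108864) (W3 := 67108864)
    rfl rfl rfl k0_pm_012_b

noncomputable def f_pm_022_a : ℕ → ℕ → ℕ → ℕ → Bool := onCell 0 536870912 0 536870912 67108864 67108864
    (rowFK 0 false true false .pp 0 2 2 (qsf 0 536870912 0 536870912 2) ndF4q0 ndF1q2a pcF2 Cut.none Ext.none)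

def k0_pm_022_a : ∃ t, chk3 f_pm_022_a t 1 1 1 = true :=
  ⟨(l 4), by decide +kernel⟩

theorem c_pm_022_a : CertF 0 536870912 0 536870912 67108864 67108864 false true false .pp 0 2 2
    ndF4q0 ndF1q2a pcF2 Cut.none Ext.none :=
  certFK0 (fam := false) (s1 := true) (s2 := false) (a := 0) (b := 2) (c := 2) (cn := .pp) (n1 := ndF4q0) (n2 := ndF1q2a) (pc := pcF2) (cut := Cut.none) (xt := Ext.none) (P1 := 0) (W1 := 536870912) (P2 := 0) (W2 := 536870912) (P3 := 67108864) (W3 := 67108864)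
    rfl rfl rfl k0_pm_022_a

noncomputable def f_pm_022_b : ℕ → ℕ → ℕ → ℕ → Bool := onCell 0 536870912 1239849684 370763052 67108864 67108864
    (rowFK 0 false true false .pp 0 2 2 (qsf 0 536870912 1239849684 370763052 2) ndF4q0 ndF1q2b pcF2 Cut.none Ext.none)

def k0_pm_022_b : ∃ t, chk3 f_pm_022_b t 1 1 1 = true :=
  ⟨(l 4), by decide +kernel⟩

theorem c_pm_022_b : CertF 0 536870912 1239849684 370763052 67108864 67108864 false true false .pp 0 2 2
    ndF4q0 ndF1q2b pcF2 Cut.none Ext.none :=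
  certFK0 (fam := false) (s1 := true) (s2 := false) (a := 0) (b := 2) (c := 2) (cn := .pp) (n1 := ndF4q0) (n2 := ndF1q2b) (pc := pcF2) (cut := Cut.none) (xt := Ext.none) (P1 := 0) (W1 := 536870912) (P2 := 1239849684) (W2 := 370763052) (P3 := 67108864) (W3 := 67108864)
    rfl rfl rfl k0_pm_022_b

noncomputable def f_pm_023 : ℕ → ℕ → ℕ → ℕ → Bool := onCell 0 536870912 1610612736 536870912 67108864 67108864
    (rowFK 0 false true false .up 0 2 3 (qsf 0 536870912 1610612736 536870912 2) ndF4q0 ndF1q3 pcF2 Cut.none Ext.none)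

def k0_pm_023 : ∃ t, chk3 f_pm_023 t 1 1 1 = true :=
  ⟨(l 4), by decide +kernel⟩

theorem c_pm_023 : CertF 0 536870912 1610612736 536870912 67108864 67108864 false true false .up 0 2 3
    ndF4q0 ndF1q3 pcF2 Cut.none Ext.none :=
  certFK0 (fam := false) (s1 := true) (s2 := false) (a := 0) (b := 2) (c := 3) (cn := .up) (n1 := ndF4q0) (n2 := ndF1q3) (pc := pcF2) (cut := Cut.none) (xt := Ext.none) (P1 := 0) (W1 := 536870912) (P2 := 1610612736) (W2 := 536870912) (P3 := 67108864) (W3 := 67108864)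
    rfl rfl rfl k0_pm_023

noncomputable def f_pm_033 : ℕ → ℕ → ℕ → ℕ → Bool := onCell 0 536870912 1610612736 536870912 67108864 67108864
    (rowFK 0 false true false .pnn 0 3 3 (qsf 0 536870912 1610612736 536870912 3) ndF4q0 ndF1q3 pcF3 Cut.none Ext.none)

def k0_pm_033 : ∃ t, chk3 f_pm_033 t 1 1 1 = true :=
  ⟨(l 4), by decide +kernel⟩

theorem c_pm_033 : CertF 0 536870912 1610612736 536870912 67108864 67108864 false true false .pnn 0 3 3
    ndF4q0 ndF1q3 pcF3 Cut.none Ext.none :=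
  certFK0 (fam := false) (s1 := true) (s2 := false) (a := 0) (b := 3) (c := 3) (cn := .pnn) (n1 := ndF4q0) (n2 := ndF1q3) (pc := pcF3) (cut := Cut.none) (xt := Ext.none) (P1 := 0) (W1 := 536870912) (P2 := 1610612736) (W2 := 536870912) (P3 := 67108864) (W3 := 67108864)
    rfl rfl rfl k0_pm_033

noncomputable def f_pm_101 : ℕ → ℕ → ℕ → ℕ → Bool := onCell 536870912 536870912 536870912 536870912 67108864 67108864
    (rowFK 0 false true false .npn 1 0 1 (qsf 536870912 536870912 536870912 536870912 0) ndF4q1 ndF1q1 pcF0 Cut.none Ext.none)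

def k0_pm_101 : ∃ t, chk3 f_pm_101 t 1 1 1 = true :=
  ⟨(l 4), by decide +kernel⟩

theorem c_pm_101 : CertF 536870912 536870912 536870912 536870912 67108864 67108864 false true false .npn 1 0 1
    ndF4q1 ndF1q1 pcF0 Cut.none Ext.none :=
  certFK0 (fam := false) (s1 := true) (s2 := false) (a := 1) (b := 0) (c := 1) (cn := .npn) (n1 := ndF4q1) (n2 := ndF1q1) (pc := pcF0) (cut := Cut.none) (xt := Ext.none) (P1 := 536870912) (W1 := 536870912) (P2 := 536870912) (W2 := 536870912) (P3 := 67108864) (W3 := 67108864)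
    rfl rfl rfl k0_pm_101

noncomputable def f_pm_102_a : ℕ → ℕ → ℕ → ℕ → Bool := onCell 536870912 536870912 0 536870912 67108864 67108864
    (rowFK 0 false true false .npp 1 0 2 (qsf 536870912 536870912 0 536870912 0) ndF4q1 ndF1q2a pcF0 Cut.none Ext.none)

def k0_pm_102_a : ∃ t, chk3 f_pm_102_a t 1 1 1 = true :=
  ⟨(l 4), by decide +kernel⟩

theorem c_pm_102_a : CertF 536870912 536870912 0 536870912 67108864 67108864 false true false .npp 1 0 2
    ndF4q1 ndF1q2a pcF0 Cut.none Ext.none :=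
  certFK0 (fam := false) (s1 := true) (s2 := false) (a := 1) (b := 0) (c := 2) (cn := .npp) (n1 := ndF4q1) (n2 := ndF1q2a) (pc := pcF0) (cut := Cut.none) (xt := Ext.none) (P1 := 536870912) (W1 := 536870912) (P2 := 0) (W2 := 536870912) (P3 := 67108864) (W3 := 67108864)
    rfl rfl rfl k0_pm_102_a

noncomputable def f_pm_102_b : ℕ → ℕ → ℕ → ℕ → Bool := onCell 536870912 536870912 1239849684 370763052 67108864 67108864
    (rowFK 0 false true false .npp 1 0 2 (qsf 536870912 536870912 1239849684 370763052 0) ndF4q1 ndF1q2b pcF0 Cut.none Ext.none)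

def k0_pm_102_b : ∃ t, chk3 f_pm_102_b t 1 1 1 = true :=
  ⟨(l 4), by decide +kernel⟩

theorem c_pm_102_b : CertF 536870912 536870912 1239849684 370763052 67108864 67108864 false true false .npp 1 0 2
    ndF4q1 ndF1q2b pcF0 Cut.none Ext.none :=
  certFK0 (fam := false) (s1 := true) (s2 := false) (a := 1) (b := 0) (c := 2) (cn := .npp) (n1 := ndF4q1) (n2 := ndF1q2b) (pc := pcF0) (cut := Cut.none) (xt := Ext.none) (P1 := 536870912) (W1 := 536870912) (P2 := 1239849684) (W2 := 370763052) (P3 := 67108864) (W3 := 67108864)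
    rfl rfl rfl k0_pm_102_b

noncomputable def f_pm_112_a : ℕ → ℕ → ℕ → ℕ → Bool := onCell 536870912 536870912 0 536870912 67108864 67108864
    (rowFK 0 false true false .dn 1 1 2 (qsf 536870912 536870912 0 536870912 1) ndF4q1 ndF1q2a pcF1 Cut.none Ext.none)

def k0_pm_112_a : ∃ t, chk3 f_pm_112_a t 1 1 1 = true :=
  ⟨(l 4), by decide +kernel⟩

theorem c_pm_112_a : CertF 536870912 536870912 0 536870912 67108864 67108864 false true false .dn 1 1 2
    ndF4q1 ndF1q2a pcF1 Cut.none Ext.none :=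
  certFK0 (fam := false) (s1 := true) (s2 := false) (a := 1) (b := 1) (c := 2) (cn := .dn) (n1 := ndF4q1) (n2 := ndF1q2a) (pc := pcF1) (cut := Cut.none) (xt := Ext.none) (P1 := 536870912) (W1 := 536870912) (P2 := 0) (W2 := 536870912) (P3 := 67108864) (W3 := 67108864)
    rfl rfl rfl k0_pm_112_a

noncomputable def f_pm_112_b : ℕ → ℕ → ℕ → ℕ → Bool := onCell 536870912 536870912 1239849684 370763052 67108864 67108864
    (rowFK 0 false true false .dn 1 1 2 (qsf 536870912 536870912 1239849684 370763052 1) ndF4q1 ndF1q2b pcF1 Cut.none Ext.none)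

def k0_pm_112_b : ∃ t, chk3 f_pm_112_b t 1 1 1 = true :=
  ⟨(l 4), by decide +kernel⟩

theorem c_pm_112_b : CertF 536870912 536870912 1239849684 370763052 67108864 67108864 false true false .dn 1 1 2
    ndF4q1 ndF1q2b pcF1 Cut.none Ext.none :=
  certFK0 (fam := false) (s1 := true) (s2 := false) (a := 1) (b := 1) (c := 2) (cn := .dn) (n1 := ndF4q1) (n2 := ndF1q2b) (pc := pcF1) (cut := Cut.none) (xt := Ext.none) (P1 := 536870912) (W1 := 536870912) (P2 := 1239849684) (W2 := 370763052) (P3 := 67108864) (W3 := 67108864)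
    rfl rfl rfl k0_pm_112_b

noncomputable def f_pm_113 : ℕ → ℕ → ℕ → ℕ → Bool := onCell 536870912 536870912 1610612736 536870912 67108864 67108864
    (rowFK 0 false true false .nn 1 1 3 (qsf 536870912 536870912 1610612736 536870912 1) ndF4q1 ndF1q3 pcF1 Cut.none Ext.none)

def k0_pm_113 : ∃ t, chk3 f_pm_113 t 1 1 1 = true :=
  ⟨(a (l 4) (b (l 4) (b (l 4) (b (l 4) (b (l 4) (l 16869816)))))), by decide +kernel⟩

theorem c_pm_113 : CertF 536870912 536870912 1610612736 536870912 67108864 67108864 false true false .nn 1 1 3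
    ndF4q1 ndF1q3 pcF1 Cut.none Ext.none :=
  certFK0 (fam := false) (s1 := true) (s2 := false) (a := 1) (b := 1) (c := 3) (cn := .nn) (n1 := ndF4q1) (n2 := ndF1q3) (pc := pcF1) (cut := Cut.none) (xt := Ext.none) (P1 := 536870912) (W1 := 536870912) (P2 := 1610612736) (W2 := 536870912) (P3 := 67108864) (W3 := 67108864)
    rfl rfl rfl k0_pm_113

noncomputable def f_pm_123 : ℕ → ℕ → ℕ → ℕ → Bool := onCell 1073741824 536870912 1610612736 536870912 67108864 67108864
    (rowFK 2 false true false .npn 1 2 3 (qsf 536870912 536870912 1610612736 536870912 2) ndF4q1 ndF1q3 pcF2 Cut.none Ext.none)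

def k0_pm_123 : ∃ t, chk3 f_pm_123 t 1 1 1 = true :=
  ⟨(a (b (l 4) (a (l 17311976) (l 4))) (l 4)), by decide +kernel⟩

theorem c_pm_123 : CertF 536870912 536870912 1610612736 536870912 67108864 67108864 false true false .npn 1 2 3
    ndF4q1 ndF1q3 pcF2 Cut.none Ext.none :=
  certFK2 (fam := false) (s1 := true) (s2 := false) (a := 1) (b := 2) (c := 3) (cn := .npn) (n1 := ndF4q1) (n2 := ndF1q3) (pc := pcF2) (cut := Cut.none) (xt := Ext.none) (P1 := 536870912) (W1 := 536870912) (P2 := 1610612736) (W2 := 536870912) (P3 := 67108864) (W3 := 67108864)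
    rfl rfl rfl (fun _ => rfl) k0_pm_123

noncomputable def f_pm_133 : ℕ → ℕ → ℕ → ℕ → Bool := onCell 1610612736 536870912 1610612736 536870912 67108864 67108864
    (rowFK 2 false true false .dn 1 3 3 (qsf 536870912 536870912 1610612736 536870912 3) ndF4q1 ndF1q3 pcF3 Cut.none Ext.none)

def k0_pm_133 : ∃ t, chk3 f_pm_133 t 1 1 1 = true :=
  ⟨(l 4), by decide +kernel⟩

theorem c_pm_133 : CertF 536870912 536870912 1610612736 536870912 67108864 67108864 false true false .dn 1 3 3
    ndF4q1 ndF1q3 pcF3 Cut.none Ext.none :=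
  certFK2 (fam := false) (s1 := true) (s2 := false) (a := 1) (b := 3) (c := 3) (cn := .dn) (n1 := ndF4q1) (n2 := ndF1q3) (pc := pcF3) (cut := Cut.none) (xt := Ext.none) (P1 := 536870912) (W1 := 536870912) (P2 := 1610612736) (W2 := 536870912) (P3 := 67108864) (W3 := 67108864)
    rfl rfl rfl (fun _ => rfl) k0_pm_133

noncomputable def f_pm_202_a : ℕ → ℕ → ℕ → ℕ → Bool := onCell 0 536870912 0 536870912 67108864 67108864
    (rowFK 2 false true false .pp 2 0 2 (qsf 1073741824 536870912 0 536870912 0) ndF4q2 ndF1q2a pcF0 Cut.none Ext.none)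

def k0_pm_202_a : ∃ t, chk3 f_pm_202_a t 1 1 1 = true :=
  ⟨(a (a (b (l 19580040) (l 4)) (l 4)) (l 1)), by decide +kernel⟩

theorem c_pm_202_a : CertF 1073741824 536870912 0 536870912 67108864 67108864 false true false .pp 2 0 2
    ndF4q2 ndF1q2a pcF0 Cut.none Ext.none :=
  certFK2 (fam := false) (s1 := true) (s2 := false) (a := 2) (b := 0) (c := 2) (cn := .pp) (n1 := ndF4q2) (n2 := ndF1q2a) (pc := pcF0) (cut := Cut.none) (xt := Ext.none) (P1 := 1073741824) (W1 := 536870912) (P2 := 0) (W2 := 536870912) (P3 := 67108864) (W3 := 67108864)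
    rfl rfl rfl (fun _ => rfl) k0_pm_202_a

noncomputable def f_pm_202_b : ℕ → ℕ → ℕ → ℕ → Bool := onCell 0 536870912 1239849684 370763052 67108864 67108864
    (rowFK 2 false true false .pp 2 0 2 (qsf 1073741824 536870912 1239849684 370763052 0) ndF4q2 ndF1q2b pcF0 Cut.none Ext.none)

def k0_pm_202_b : ∃ t, chk3 f_pm_202_b t 1 1 1 = true :=
  ⟨(b (a (a (l 19072392) (l 19369240)) (l 4)) (a (a (l 18371600) (l 18596280)) (a (l 18871672) (l 19168648)))), by decide +kernel⟩

theorem c_pm_202_b : CertF 1073741824 536870912 1239849684 370763052 67108864 67108864 false true false .pp 2 0 2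
    ndF4q2 ndF1q2b pcF0 Cut.none Ext.none :=
  certFK2 (fam := false) (s1 := true) (s2 := false) (a := 2) (b := 0) (c := 2) (cn := .pp) (n1 := ndF4q2) (n2 := ndF1q2b) (pc := pcF0) (cut := Cut.none) (xt := Ext.none) (P1 := 1073741824) (W1 := 536870912) (P2 := 1239849684) (W2 := 370763052) (P3 := 67108864) (W3 := 67108864)
    rfl rfl rfl (fun _ => rfl) k0_pm_202_b

noncomputable def f_pm_203 : ℕ → ℕ → ℕ → ℕ → Bool := onCell 1073741824 536870912 0 536870912 67108864 67108864
    (rowFK 1 false true false .up 2 0 3 (qsf 1073741824 536870912 1610612736 536870912 0) ndF4q2 ndF1q3 pcF0 Cut.none Ext.none)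

def k0_pm_203 : ∃ t, chk3 f_pm_203 t 1 1 1 = true :=
  ⟨(b (a (b (l 1) (l 18857600)) (a (b (l 17736072) (l 17892688)) (b (b (l 17499120) (l 17348184)) (l 17635176)))) (a (b (l 18873944) (l 18908480)) (b (a (l 18083752) (l 17771544)) (a (l 17940536) (b (l 17570272) (l 17676968)))))), by decide +kernel⟩

theorem c_pm_203 : CertF 1073741824 536870912 1610612736 536870912 67108864 67108864 false true false .up 2 0 3
    ndF4q2 ndF1q3 pcF0 Cut.none Ext.none :=
  certFK1 (fam := false) (s1 := true) (s2 := false) (a := 2) (b := 0) (c := 3) (cn := .up) (n1 := ndF4q2) (n2 := ndF1q3) (pc := pcF0) (cut := Cut.none) (xt := Ext.none) (P1 := 1073741824) (W1 := 536870912) (P2 := 1610612736) (W2 := 536870912) (P3 := 67108864) (W3 := 67108864)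
    rfl rfl rfl (fun _ => rfl) k0_pm_203

noncomputable def f_pm_213 : ℕ → ℕ → ℕ → ℕ → Bool := onCell 536870912 536870912 1610612736 536870912 67108864 67108864
    (rowFK 2 false true false .pnn 2 1 3 (qsf 1073741824 536870912 1610612736 536870912 1) ndF4q2 ndF1q3 pcF1 Cut.none Ext.none)

def k0_pm_213 : ∃ t, chk3 f_pm_213 t 1 1 1 = true :=
  ⟨(a (b (a (b (l 18592232) (a (l 18287840) (l 17878120))) (l 18386944)) (a (b (b (a (l 17854600) (l 17864424)) (l 18869984)) (a (l 18639704) (l 18698920))) (b (a (a (l 18415848) (l 17698680)) (l 17644328)) (b (a (l 18268976) (l 18008624)) (l 18429520))))) (b (l 4) (a (a (b (l 17538072) (b (l 17519800) (l 17835824))) (b (l 17411384) (l 17142920))) (b (l 4) (a (l 17021128) (a (l 17063816) (l 17058208))))))), by decide +kernel⟩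

theorem c_pm_213 : CertF 1073741824 536870912 1610612736 536870912 67108864 67108864 false true false .pnn 2 1 3
    ndF4q2 ndF1q3 pcF1 Cut.none Ext.none :=
  certFK2 (fam := false) (s1 := true) (s2 := false) (a := 2) (b := 1) (c := 3) (cn := .pnn) (n1 := ndF4q2) (n2 := ndF1q3) (pc := pcF1) (cut := Cut.none) (xt := Ext.none) (P1 := 1073741824) (W1 := 536870912) (P2 := 1610612736) (W2 := 536870912) (P3 := 67108864) (W3 := 67108864)
    rfl rfl rfl (fun _ => rfl) k0_pm_213

noncomputable def f_pm_303 : ℕ → ℕ → ℕ → ℕ → Bool := onCell 0 1230186008 1610612736 536870912 67108864 67108864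
    (rowFK 0 false true false .npn 3 0 3 (qsf 0 1230186008 1610612736 536870912 0) ndF4q3 ndF1q3 pcF0 Cut.none Ext.none)

def k0_pm_303 : ∃ t, chk3 f_pm_303 t 1 1 1 = true :=
  ⟨(a (l 3) (a (b (a (l 1) (b (l 1) (a (l 1) (b (l 1) (l 233172858519))))) (b (a (l 3) (b (a (l 3) (l 18393152)) (l 3))) (l 3))) (b (a (b (l 1) (b (a (l 598108618519) (l 17138704)) (a (l 18033024) (l 17863464)))) (b (b (l 17491816) (a (l 17298000) (l 17262504))) (b (a (l 17228000) (l 17343544)) (l 17639632)))) (a (b (b (a (l 18329168) (l 18279760)) (l 18170688)) (l 17825592)) (b (b (l 17754792) (l 18102144)) (a (l 17602168) (l 17568856))))))), by decide +kernel⟩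

theorem c_pm_303 : CertF 0 1230186008 1610612736 536870912 67108864 67108864 false true false .npn 3 0 3
    ndF4q3 ndF1q3 pcF0 Cut.none Ext.none :=
  certFK0 (fam := false) (s1 := true) (s2 := false) (a := 3) (b := 0) (c := 3) (cn := .npn) (n1 := ndF4q3) (n2 := ndF1q3) (pc := pcF0) (cut := Cut.none) (xt := Ext.none) (P1 := 0) (W1 := 1230186008) (P2 := 1610612736) (W2 := 536870912) (P3 := 67108864) (W3 := 67108864)
    rfl rfl rfl k0_pm_303

noncomputable def f_pm_313 : ℕ → ℕ → ℕ → ℕ → Bool := onCell 0 1230186008 1610612736 536870912 67108864 67108864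
    (rowFK 0 false true false .dn 3 1 3 (qsf 0 1230186008 1610612736 536870912 1) ndF4q3 ndF1q3 pcF1 Cut.none Ext.none)

def k0_pm_313 : ∃ t, chk3 f_pm_313 t 1 1 1 = true :=
  ⟨(a (l 1) (a (l 1) (b (l 1) (a (l 1) (b (l 1) (a (l 1) (l 18327344))))))), by decide +kernel⟩

theorem c_pm_313 : CertF 0 1230186008 1610612736 536870912 67108864 67108864 false true false .dn 3 1 3
    ndF4q3 ndF1q3 pcF1 Cut.none Ext.none :=
  certFK0 (fam := false) (s1 := true) (s2 := false) (a := 3) (b := 1) (c := 3) (cn := .dn) (n1 := ndF4q3) (n2 := ndF1q3) (pc := pcF1) (cut := Cut.none) (xt := Ext.none) (P1 := 0) (W1 := 1230186008) (P2 := 1610612736) (W2 := 536870912) (P3 := 67108864) (W3 := 67108864)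
    rfl rfl rfl k0_pm_313

noncomputable def f_mm_001 : ℕ → ℕ → ℕ → ℕ → Bool := onCell 0 536870912 536870912 536870912 67108864 67108864
    (rowFK 0 false false false .up 0 0 1 (qsf 0 536870912 536870912 536870912 0) ndF4q0 ndF1q1 pcF0 Cut.none Ext.none)

def k0_mm_001 : ∃ t, chk3 f_mm_001 t 1 1 1 = true :=
  ⟨(l 5), by decide +kernel⟩

theorem c_mm_001 : CertF 0 536870912 536870912 536870912 67108864 67108864 false false false .up 0 0 1
    ndF4q0 ndF1q1 pcF0 Cut.none Ext.none :=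
  certFK0 (fam := false) (s1 := false) (s2 := false) (a := 0) (b := 0) (c := 1) (cn := .up) (n1 := ndF4q0) (n2 := ndF1q1) (pc := pcF0) (cut := Cut.none) (xt := Ext.none) (P1 := 0) (W1 := 536870912) (P2 := 536870912) (W2 := 536870912) (P3 := 67108864) (W3 := 67108864)
    rfl rfl rfl k0_mm_001

noncomputable def f_mm_011 : ℕ → ℕ → ℕ → ℕ → Bool := onCell 0 536870912 536870912 536870912 67108864 67108864
    (rowFK 0 false false false .pnn 0 1 1 (qsf 0 536870912 536870912 536870912 1) ndF4q0 ndF1q1 pcF1 Cut.none Ext.none)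

def k0_mm_011 : ∃ t, chk3 f_mm_011 t 1 1 1 = true :=
  ⟨(l 5), by decide +kernel⟩

theorem c_mm_011 : CertF 0 536870912 536870912 536870912 67108864 67108864 false false false .pnn 0 1 1
    ndF4q0 ndF1q1 pcF1 Cut.none Ext.none :=
  certFK0 (fam := false) (s1 := false) (s2 := false) (a := 0) (b := 1) (c := 1) (cn := .pnn) (n1 := ndF4q0) (n2 := ndF1q1) (pc := pcF1) (cut := Cut.none) (xt := Ext.none) (P1 := 0) (W1 := 536870912) (P2 := 536870912) (W2 := 536870912) (P3 := 67108864) (W3 := 67108864)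
    rfl rfl rfl k0_mm_011

noncomputable def f_mm_012_a : ℕ → ℕ → ℕ → ℕ → Bool := onCell 0 536870912 0 536870912 67108864 67108864
    (rowFK 0 false false false .pnp 0 1 2 (qsf 0 536870912 0 536870912 1) ndF4q0 ndF1q2a pcF1 Cut.none Ext.none)

def k0_mm_012_a : ∃ t, chk3 f_mm_012_a t 1 1 1 = true :=
  ⟨(l 5), by decide +kernel⟩

theorem c_mm_012_a : CertF 0 536870912 0 536870912 67108864 67108864 false false false .pnp 0 1 2
    ndF4q0 ndF1q2a pcF1 Cut.none Ext.none :=
  certFK0 (fam := false) (s1 := false) (s2 := false) (a := 0) (b := 1) (c := 2) (cn := .pnp) (n1 := ndF4q0) (n2 := ndF1q2a) (pc := pcF1) (cut := Cut.none) (xt := Ext.none) (P1 := 0) (W1 := 536870912) (P2 := 0) (W2 := 536870912) (P3 := 67108864) (W3 := 67108864)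
    rfl rfl rfl k0_mm_012_a

noncomputable def f_mm_012_b : ℕ → ℕ → ℕ → ℕ → Bool := onCell 0 536870912 1239849684 370763052 67108864 67108864
    (rowFK 0 false false false .pnp 0 1 2 (qsf 0 536870912 1239849684 370763052 1) ndF4q0 ndF1q2b pcF1 Cut.none Ext.none)

def k0_mm_012_b : ∃ t, chk3 f_mm_012_b t 1 1 1 = true :=
  ⟨(l 5), by decide +kernel⟩

theorem c_mm_012_b : CertF 0 536870912 1239849684 370763052 67108864 67108864 false false false .pnp 0 1 2
    ndF4q0 ndF1q2b pcF1 Cut.none Ext.none :=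
  certFK0 (fam := false) (s1 := false) (s2 := false) (a := 0) (b := 1) (c := 2) (cn := .pnp) (n1 := ndF4q0) (n2 := ndF1q2b) (pc := pcF1) (cut := Cut.none) (xt := Ext.none) (P1 := 0) (W1 := 536870912) (P2 := 1239849684) (W2 := 370763052) (P3 := 67108864) (W3 := 67108864)
    rfl rfl rfl k0_mm_012_b

noncomputable def f_mm_022_a : ℕ → ℕ → ℕ → ℕ → Bool := onCell 0 536870912 0 536870912 67108864 67108864
    (rowFK 0 false false false .pp 0 2 2 (qsf 0 536870912 0 536870912 2) ndF4q0 ndF1q2a pcF2 Cut.none Ext.none)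

def k0_mm_022_a : ∃ t, chk3 f_mm_022_a t 1 1 1 = true :=
  ⟨(l 5), by decide +kernel⟩

theorem c_mm_022_a : CertF 0 536870912 0 536870912 67108864 67108864 false false false .pp 0 2 2
    ndF4q0 ndF1q2a pcF2 Cut.none Ext.none :=
  certFK0 (fam := false) (s1 := false) (s2 := false) (a := 0) (b := 2) (c := 2) (cn := .pp) (n1 := ndF4q0) (n2 := ndF1q2a) (pc := pcF2) (cut := Cut.none) (xt := Ext.none) (P1 := 0) (W1 := 536870912) (P2 := 0) (W2 := 536870912) (P3 := 67108864) (W3 := 67108864)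
    rfl rfl rfl k0_mm_022_a

noncomputable def f_mm_022_b : ℕ → ℕ → ℕ → ℕ → Bool := onCell 0 536870912 1239849684 370763052 67108864 67108864
    (rowFK 0 false false false .pp 0 2 2 (qsf 0 536870912 1239849684 370763052 2) ndF4q0 ndF1q2b pcF2 Cut.none Ext.none)

def k0_mm_022_b : ∃ t, chk3 f_mm_022_b t 1 1 1 = true :=
  ⟨(l 5), by decide +kernel⟩

theorem c_mm_022_b : CertF 0 536870912 1239849684 370763052 67108864 67108864 false false false .pp 0 2 2
    ndF4q0 ndF1q2b pcF2 Cut.none Ext.none :=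
  certFK0 (fam := false) (s1 := false) (s2 := false) (a := 0) (b := 2) (c := 2) (cn := .pp) (n1 := ndF4q0) (n2 := ndF1q2b) (pc := pcF2) (cut := Cut.none) (xt := Ext.none) (P1 := 0) (W1 := 536870912) (P2 := 1239849684) (W2 := 370763052) (P3 := 67108864) (W3 := 67108864)
    rfl rfl rfl k0_mm_022_b

noncomputable def f_mm_023 : ℕ → ℕ → ℕ → ℕ → Bool := onCell 0 536870912 1610612736 536870912 67108864 67108864
    (rowFK 0 false false false .up 0 2 3 (qsf 0 536870912 1610612736 536870912 2) ndF4q0 ndF1q3 pcF2 Cut.none Ext.none)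

def k0_mm_023 : ∃ t, chk3 f_mm_023 t 1 1 1 = true :=
  ⟨(l 5), by decide +kernel⟩

theorem c_mm_023 : CertF 0 536870912 1610612736 536870912 67108864 67108864 false false false .up 0 2 3
    ndF4q0 ndF1q3 pcF2 Cut.none Ext.none :=
  certFK0 (fam := false) (s1 := false) (s2 := false) (a := 0) (b := 2) (c := 3) (cn := .up) (n1 := ndF4q0) (n2 := ndF1q3) (pc := pcF2) (cut := Cut.none) (xt := Ext.none) (P1 := 0) (W1 := 536870912) (P2 := 1610612736) (W2 := 536870912) (P3 := 67108864) (W3 := 67108864)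
    rfl rfl rfl k0_mm_023

noncomputable def f_mm_033 : ℕ → ℕ → ℕ → ℕ → Bool := onCell 0 536870912 1610612736 536870912 67108864 67108864
    (rowFK 0 false false false .pnn 0 3 3 (qsf 0 536870912 1610612736 536870912 3) ndF4q0 ndF1q3 pcF3 Cut.none Ext.none)

def k0_mm_033 : ∃ t, chk3 f_mm_033 t 1 1 1 = true :=
  ⟨(l 5), by decide +kernel⟩

theorem c_mm_033 : CertF 0 536870912 1610612736 536870912 67108864 67108864 false false false .pnn 0 3 3
    ndF4q0 ndF1q3 pcF3 Cut.none Ext.none :=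
  certFK0 (fam := false) (s1 := false) (s2 := false) (a := 0) (b := 3) (c := 3) (cn := .pnn) (n1 := ndF4q0) (n2 := ndF1q3) (pc := pcF3) (cut := Cut.none) (xt := Ext.none) (P1 := 0) (W1 := 536870912) (P2 := 1610612736) (W2 := 536870912) (P3 := 67108864) (W3 := 67108864)
    rfl rfl rfl k0_mm_033

noncomputable def f_mm_101 : ℕ → ℕ → ℕ → ℕ → Bool := onCell 536870912 536870912 536870912 536870912 67108864 67108864
    (rowFK 0 false false false .npn 1 0 1 (qsf 536870912 536870912 536870912 536870912 0) ndF4q1 ndF1q1 pcF0 Cut.none Ext.none)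

def k0_mm_101 : ∃ t, chk3 f_mm_101 t 1 1 1 = true :=
  ⟨(l 3), by decide +kernel⟩

theorem c_mm_101 : CertF 536870912 536870912 536870912 536870912 67108864 67108864 false false false .npn 1 0 1
    ndF4q1 ndF1q1 pcF0 Cut.none Ext.none :=
  certFK0 (fam := false) (s1 := false) (s2 := false) (a := 1) (b := 0) (c := 1) (cn := .npn) (n1 := ndF4q1) (n2 := ndF1q1) (pc := pcF0) (cut := Cut.none) (xt := Ext.none) (P1 := 536870912) (W1 := 536870912) (P2 := 536870912) (W2 := 536870912) (P3 := 67108864) (W3 := 67108864)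
    rfl rfl rfl k0_mm_101

noncomputable def f_mm_102_a : ℕ → ℕ → ℕ → ℕ → Bool := onCell 536870912 536870912 0 536870912 67108864 67108864
    (rowFK 0 false false false .npp 1 0 2 (qsf 536870912 536870912 0 536870912 0) ndF4q1 ndF1q2a pcF0 Cut.none Ext.none)

def k0_mm_102_a : ∃ t, chk3 f_mm_102_a t 1 1 1 = true :=
  ⟨(l 5), by decide +kernel⟩

theorem c_mm_102_a : CertF 536870912 536870912 0 536870912 67108864 67108864 false false false .npp 1 0 2
    ndF4q1 ndF1q2a pcF0 Cut.none Ext.none :=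
  certFK0 (fam := false) (s1 := false) (s2 := false) (a := 1) (b := 0) (c := 2) (cn := .npp) (n1 := ndF4q1) (n2 := ndF1q2a) (pc := pcF0) (cut := Cut.none) (xt := Ext.none) (P1 := 536870912) (W1 := 536870912) (P2 := 0) (W2 := 536870912) (P3 := 67108864) (W3 := 67108864)
    rfl rfl rfl k0_mm_102_a

noncomputable def f_mm_102_b : ℕ → ℕ → ℕ → ℕ → Bool := onCell 536870912 536870912 1239849684 370763052 67108864 67108864
    (rowFK 0 false false false .npp 1 0 2 (qsf 536870912 536870912 1239849684 370763052 0) ndF4q1 ndF1q2b pcF0 Cut.none Ext.none)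

def k0_mm_102_b : ∃ t, chk3 f_mm_102_b t 1 1 1 = true :=
  ⟨(l 5), by decide +kernel⟩

theorem c_mm_102_b : CertF 536870912 536870912 1239849684 370763052 67108864 67108864 false false false .npp 1 0 2
    ndF4q1 ndF1q2b pcF0 Cut.none Ext.none :=
  certFK0 (fam := false) (s1 := false) (s2 := false) (a := 1) (b := 0) (c := 2) (cn := .npp) (n1 := ndF4q1) (n2 := ndF1q2b) (pc := pcF0) (cut := Cut.none) (xt := Ext.none) (P1 := 536870912) (W1 := 536870912) (P2 := 1239849684) (W2 := 370763052) (P3 := 67108864) (W3 := 67108864)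
    rfl rfl rfl k0_mm_102_b

noncomputable def f_mm_112_a : ℕ → ℕ → ℕ → ℕ → Bool := onCell 536870912 536870912 0 536870912 67108864 67108864
    (rowFK 0 false false false .dn 1 1 2 (qsf 536870912 536870912 0 536870912 1) ndF4q1 ndF1q2a pcF1 Cut.none Ext.none)

def k0_mm_112_a : ∃ t, chk3 f_mm_112_a t 1 1 1 = true :=
  ⟨(l 5), by decide +kernel⟩

theorem c_mm_112_a : CertF 536870912 536870912 0 536870912 67108864 67108864 false false false .dn 1 1 2
    ndF4q1 ndF1q2a pcF1 Cut.none Ext.none :=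
  certFK0 (fam := false) (s1 := false) (s2 := false) (a := 1) (b := 1) (c := 2) (cn := .dn) (n1 := ndF4q1) (n2 := ndF1q2a) (pc := pcF1) (cut := Cut.none) (xt := Ext.none) (P1 := 536870912) (W1 := 536870912) (P2 := 0) (W2 := 536870912) (P3 := 67108864) (W3 := 67108864)
    rfl rfl rfl k0_mm_112_a

noncomputable def f_mm_112_b : ℕ → ℕ → ℕ → ℕ → Bool := onCell 536870912 536870912 1239849684 370763052 67108864 67108864
    (rowFK 0 false false false .dn 1 1 2 (qsf 536870912 536870912 1239849684 370763052 1) ndF4q1 ndF1q2b pcF1 Cut.none Ext.none)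

def k0_mm_112_b : ∃ t, chk3 f_mm_112_b t 1 1 1 = true :=
  ⟨(l 5), by decide +kernel⟩

theorem c_mm_112_b : CertF 536870912 536870912 1239849684 370763052 67108864 67108864 false false false .dn 1 1 2
    ndF4q1 ndF1q2b pcF1 Cut.none Ext.none :=
  certFK0 (fam := false) (s1 := false) (s2 := false) (a := 1) (b := 1) (c := 2) (cn := .dn) (n1 := ndF4q1) (n2 := ndF1q2b) (pc := pcF1) (cut := Cut.none) (xt := Ext.none) (P1 := 536870912) (W1 := 536870912) (P2 := 1239849684) (W2 := 370763052) (P3 := 67108864) (W3 := 67108864)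
    rfl rfl rfl k0_mm_112_b

noncomputable def f_mm_113 : ℕ → ℕ → ℕ → ℕ → Bool := onCell 536870912 536870912 1610612736 536870912 67108864 67108864
    (rowFK 0 false false false .nn 1 1 3 (qsf 536870912 536870912 1610612736 536870912 1) ndF4q1 ndF1q3 pcF1 Cut.none Ext.none)

def k0_mm_113 : ∃ t, chk3 f_mm_113 t 1 1 1 = true :=
  ⟨(l 5), by decide +kernel⟩

theorem c_mm_113 : CertF 536870912 536870912 1610612736 536870912 67108864 67108864 false false false .nn 1 1 3
    ndF4q1 ndF1q3 pcF1 Cut.none Ext.none :=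
  certFK0 (fam := false) (s1 := false) (s2 := false) (a := 1) (b := 1) (c := 3) (cn := .nn) (n1 := ndF4q1) (n2 := ndF1q3) (pc := pcF1) (cut := Cut.none) (xt := Ext.none) (P1 := 536870912) (W1 := 536870912) (P2 := 1610612736) (W2 := 536870912) (P3 := 67108864) (W3 := 67108864)
    rfl rfl rfl k0_mm_113

noncomputable def f_mm_123 : ℕ → ℕ → ℕ → ℕ → Bool := onCell 536870912 536870912 1610612736 536870912 67108864 67108864
    (rowFK 0 false false false .npn 1 2 3 (qsf 536870912 536870912 1610612736 536870912 2) ndF4q1 ndF1q3 pcF2 Cut.none Ext.none)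

def k0_mm_123 : ∃ t, chk3 f_mm_123 t 1 1 1 = true :=
  ⟨(l 5), by decide +kernel⟩

theorem c_mm_123 : CertF 536870912 536870912 1610612736 536870912 67108864 67108864 false false false .npn 1 2 3
    ndF4q1 ndF1q3 pcF2 Cut.none Ext.none :=
  certFK0 (fam := false) (s1 := false) (s2 := false) (a := 1) (b := 2) (c := 3) (cn := .npn) (n1 := ndF4q1) (n2 := ndF1q3) (pc := pcF2) (cut := Cut.none) (xt := Ext.none) (P1 := 536870912) (W1 := 536870912) (P2 := 1610612736) (W2 := 536870912) (P3 := 67108864) (W3 := 67108864)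
    rfl rfl rfl k0_mm_123

noncomputable def f_mm_133 : ℕ → ℕ → ℕ → ℕ → Bool := onCell 536870912 536870912 1610612736 536870912 67108864 67108864
    (rowFK 0 false false false .dn 1 3 3 (qsf 536870912 536870912 1610612736 536870912 3) ndF4q1 ndF1q3 pcF3 Cut.none Ext.none)

def k0_mm_133 : ∃ t, chk3 f_mm_133 t 1 1 1 = true :=
  ⟨(l 5), by decide +kernel⟩

theorem c_mm_133 : CertF 536870912 536870912 1610612736 536870912 67108864 67108864 false false false .dn 1 3 3
    ndF4q1 ndF1q3 pcF3 Cut.none Ext.none :=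
  certFK0 (fam := false) (s1 := false) (s2 := false) (a := 1) (b := 3) (c := 3) (cn := .dn) (n1 := ndF4q1) (n2 := ndF1q3) (pc := pcF3) (cut := Cut.none) (xt := Ext.none) (P1 := 536870912) (W1 := 536870912) (P2 := 1610612736) (W2 := 536870912) (P3 := 67108864) (W3 := 67108864)
    rfl rfl rfl k0_mm_133

noncomputable def f_mm_202_a : ℕ → ℕ → ℕ → ℕ → Bool := onCell 1073741824 536870912 0 536870912 67108864 67108864
    (rowFK 0 false false false .pp 2 0 2 (qsf 1073741824 536870912 0 536870912 0) ndF4q2 ndF1q2a pcF0 Cut.none Ext.none)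

def k0_mm_202_a : ∃ t, chk3 f_mm_202_a t 1 1 1 = true :=
  ⟨(l 5), by decide +kernel⟩

theorem c_mm_202_a : CertF 1073741824 536870912 0 536870912 67108864 67108864 false false false .pp 2 0 2
    ndF4q2 ndF1q2a pcF0 Cut.none Ext.none :=
  certFK0 (fam := false) (s1 := false) (s2 := false) (a := 2) (b := 0) (c := 2) (cn := .pp) (n1 := ndF4q2) (n2 := ndF1q2a) (pc := pcF0) (cut := Cut.none) (xt := Ext.none) (P1 := 1073741824) (W1 := 536870912) (P2 := 0) (W2 := 536870912) (P3 := 67108864) (W3 := 67108864)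
    rfl rfl rfl k0_mm_202_a

noncomputable def f_mm_202_b : ℕ → ℕ → ℕ → ℕ → Bool := onCell 1073741824 536870912 1239849684 370763052 67108864 67108864
    (rowFK 0 false false false .pp 2 0 2 (qsf 1073741824 536870912 1239849684 370763052 0) ndF4q2 ndF1q2b pcF0 Cut.none Ext.none)

def k0_mm_202_b : ∃ t, chk3 f_mm_202_b t 1 1 1 = true :=
  ⟨(l 5), by decide +kernel⟩

theorem c_mm_202_b : CertF 1073741824 536870912 1239849684 370763052 67108864 67108864 false false false .pp 2 0 2
    ndF4q2 ndF1q2b pcF0 Cut.none Ext.none :=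
  certFK0 (fam := false) (s1 := false) (s2 := false) (a := 2) (b := 0) (c := 2) (cn := .pp) (n1 := ndF4q2) (n2 := ndF1q2b) (pc := pcF0) (cut := Cut.none) (xt := Ext.none) (P1 := 1073741824) (W1 := 536870912) (P2 := 1239849684) (W2 := 370763052) (P3 := 67108864) (W3 := 67108864)
    rfl rfl rfl k0_mm_202_b

noncomputable def f_mm_203 : ℕ → ℕ → ℕ → ℕ → Bool := onCell 1073741824 536870912 1610612736 536870912 67108864 67108864
    (rowFK 0 false false false .up 2 0 3 (qsf 1073741824 536870912 1610612736 536870912 0) ndF4q2 ndF1q3 pcF0 Cut.none Ext.none)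

def k0_mm_203 : ∃ t, chk3 f_mm_203 t 1 1 1 = true :=
  ⟨(l 5), by decide +kernel⟩

theorem c_mm_203 : CertF 1073741824 536870912 1610612736 536870912 67108864 67108864 false false false .up 2 0 3
    ndF4q2 ndF1q3 pcF0 Cut.none Ext.none :=
  certFK0 (fam := false) (s1 := false) (s2 := false) (a := 2) (b := 0) (c := 3) (cn := .up) (n1 := ndF4q2) (n2 := ndF1q3) (pc := pcF0) (cut := Cut.none) (xt := Ext.none) (P1 := 1073741824) (W1 := 536870912) (P2 := 1610612736) (W2 := 536870912) (P3 := 67108864) (W3 := 67108864)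
    rfl rfl rfl k0_mm_203

noncomputable def f_mm_213 : ℕ → ℕ → ℕ → ℕ → Bool := onCell 1073741824 536870912 1610612736 536870912 67108864 67108864
    (rowFK 0 false false false .pnn 2 1 3 (qsf 1073741824 536870912 1610612736 536870912 1) ndF4q2 ndF1q3 pcF1 Cut.none Ext.none)

def k0_mm_213 : ∃ t, chk3 f_mm_213 t 1 1 1 = true :=
  ⟨(l 5), by decide +kernel⟩

theorem c_mm_213 : CertF 1073741824 536870912 1610612736 536870912 67108864 67108864 false false false .pnn 2 1 3
    ndF4q2 ndF1q3 pcF1 Cut.none Ext.none :=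
  certFK0 (fam := false) (s1 := false) (s2 := false) (a := 2) (b := 1) (c := 3) (cn := .pnn) (n1 := ndF4q2) (n2 := ndF1q3) (pc := pcF1) (cut := Cut.none) (xt := Ext.none) (P1 := 1073741824) (W1 := 536870912) (P2 := 1610612736) (W2 := 536870912) (P3 := 67108864) (W3 := 67108864)
    rfl rfl rfl k0_mm_213

noncomputable def f_mm_303 : ℕ → ℕ → ℕ → ℕ → Bool := onCell 0 1230186008 1610612736 536870912 67108864 67108864
    (rowFK 0 false false false .npn 3 0 3 (qsf 0 1230186008 1610612736 536870912 0) ndF4q3 ndF1q3 pcF0 Cut.none Ext.none)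

def k0_mm_303 : ∃ t, chk3 f_mm_303 t 1 1 1 = true :=
  ⟨(a (l 3) (l 5)), by decide +kernel⟩

theorem c_mm_303 : CertF 0 1230186008 1610612736 536870912 67108864 67108864 false false false .npn 3 0 3
    ndF4q3 ndF1q3 pcF0 Cut.none Ext.none :=
  certFK0 (fam := false) (s1 := false) (s2 := false) (a := 3) (b := 0) (c := 3) (cn := .npn) (n1 := ndF4q3) (n2 := ndF1q3) (pc := pcF0) (cut := Cut.none) (xt := Ext.none) (P1 := 0) (W1 := 1230186008) (P2 := 1610612736) (W2 := 536870912) (P3 := 67108864) (W3 := 67108864)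
    rfl rfl rfl k0_mm_303

noncomputable def f_mm_313 : ℕ → ℕ → ℕ → ℕ → Bool := onCell 0 1230186008 1610612736 536870912 67108864 67108864
    (rowFK 0 false false false .dn 3 1 3 (qsf 0 1230186008 1610612736 536870912 1) ndF4q3 ndF1q3 pcF1 Cut.none Ext.none)

def k0_mm_313 : ∃ t, chk3 f_mm_313 t 1 1 1 = true :=
  ⟨(a (l 1) (l 5)), by decide +kernel⟩

theorem c_mm_313 : CertF 0 1230186008 1610612736 536870912 67108864 67108864 false false false .dn 3 1 3
    ndF4q3 ndF1q3 pcF1 Cut.none Ext.none :=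
  certFK0 (fam := false) (s1 := false) (s2 := false) (a := 3) (b := 1) (c := 3) (cn := .dn) (n1 := ndF4q3) (n2 := ndF1q3) (pc := pcF1) (cut := Cut.none) (xt := Ext.none) (P1 := 0) (W1 := 1230186008) (P2 := 1610612736) (W2 := 536870912) (P3 := 67108864) (W3 := 67108864)
    rfl rfl rfl k0_mm_313

end Pool.Agent.Strip051.G.I1_16_1_8.Tab.C.FB41

namespace Pool.Agent.Strip051.G.I1_16_1_8.Tab.C.FB42

open Pool.Agent.Strip051.PB Pool.Agent.Strip051.PB.T
open Pool.Agent.Strip051.G.I1_16_1_8.Tab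

noncomputable def f_pp_001 : ℕ → ℕ → ℕ → ℕ → Bool := onCell 0 536870912 536870912 536870912 67108864 67108864
    (rowFK 0 false true true .up 0 0 1 (qsf 0 536870912 536870912 536870912 0) ndF4q0 ndF2q1 pcF0 Cut.none Ext.none)

def k0_pp_001 : ∃ t, chk3 f_pp_001 t 1 1 1 = true :=
  ⟨(l 3), by decide +kernel⟩

theorem c_pp_001 : CertF 0 536870912 536870912 536870912 67108864 67108864 false true true .up 0 0 1
    ndF4q0 ndF2q1 pcF0 Cut.none Ext.none :=
  certFK0 (fam := false) (s1 := true) (s2 := true) (a := 0) (b := 0) (c := 1) (cn := .up) (n1 := ndF4q0) (n2 := ndF2q1) (pc := pcF0) (cut := Cut.none) (xt := Ext.none) (P1 := 0) (W1 := 536870912) (P2 := 536870912) (W2 := 536870912) (P3 := 67108864) (W3 := 67108864)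
    rfl rfl rfl k0_pp_001

noncomputable def f_pp_011 : ℕ → ℕ → ℕ → ℕ → Bool := onCell 0 536870912 536870912 536870912 67108864 67108864
    (rowFK 0 false true true .pnn 0 1 1 (qsf 0 536870912 536870912 536870912 1) ndF4q0 ndF2q1 pcF1 Cut.none Ext.none)

def k0_pp_011 : ∃ t, chk3 f_pp_011 t 1 1 1 = true :=
  ⟨(l 3), by decide +kernel⟩

theorem c_pp_011 : CertF 0 536870912 536870912 536870912 67108864 67108864 false true true .pnn 0 1 1
    ndF4q0 ndF2q1 pcF1 Cut.none Ext.none :=
  certFK0 (fam := false) (s1 := true) (s2 := true) (a := 0) (b := 1) (c := 1) (cn := .pnn) (n1 := ndF4q0) (n2 := ndF2q1) (pc := pcF1) (cut := Cut.none) (xt := Ext.none) (P1 := 0) (W1 := 536870912) (P2 := 536870912) (W2 := 536870912) (P3 := 67108864) (W3 := 67108864)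
    rfl rfl rfl k0_pp_011

end Pool.Agent.Strip051.G.I1_16_1_8.Tab.C.FB42

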