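import Pool.Agent.Strip051.G.I1_16_1_8.Tab
import Pool.Agent.Strip051.PB.RowK

/-! # Certificates F6 (generated) -/

set_option linter.all false
set_option maxRecDepth 100000

namespace Pool.Agent.Strip051.G.I1_16_1_8.Tab.C.FB42

open Pool.Agent.Strip051.PB Pool.Agent.Strip051.PB.T
open Pool.Agent.Strip051.G.I1_16_1_8.Tab

noncomputable def f_pp_012_a : ℕ → ℕ → ℕ → ℕ → Bool := onCell 536870912 536870912 0 536870912 67108864 67108864
    (rowFK 2 false true true .pnp 0 1 2 (qsf 0 536870912 0 536870912 1) ndF4q0 ndF2q2a pcF1 Cut.none Ext.none)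

def k0_pp_012_a : ∃ t, chk3 f_pp_012_a t 1 1 1 = true :=
  ⟨(a (b (a (l 18330848) (l 18122264)) (b (a (l 18139944) (l 18005408)) (b (a (l 17972600) (l 17908552)) (a (l 17854864) (l 17857424))))) (b (a (l 18235152) (a (l 18563568) (a (l 18758952) (l 18900688)))) (a (b (l 18221888) (b (l 18224064) (l 18259000))) (b (a (l 18626656) (a (l 18853448) (l 19014240))) (a (b (l 18698400) (l 18792984)) (b (a (l 18952984) (l 19130832)) (a (l 19070816) (l 19263864)))))))), by decide +kernel⟩

theorem c_pp_012_a : CertF 0 536870912 0 536870912 67108864 67108864 false true true .pnp 0 1 2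
    ndF4q0 ndF2q2a pcF1 Cut.none Ext.none :=
  certFK2 (fam := false) (s1 := true) (s2 := true) (a := 0) (b := 1) (c := 2) (cn := .pnp) (n1 := ndF4q0) (n2 := ndF2q2a) (pc := pcF1) (cut := Cut.none) (xt := Ext.none) (P1 := 0) (W1 := 536870912) (P2 := 0) (W2 := 536870912) (P3 := 67108864) (W3 := 67108864)
    rfl rfl rfl (fun _ => rfl) k0_pp_012_a

noncomputable def f_pp_012_b : ℕ → ℕ → ℕ → ℕ → Bool := onCell 536870912 536870912 1239849684 370763052 67108864 67108864
    (rowFK 2 false true true .pnp 0 1 2 (qsf 0 536870912 1239849684 370763052 1) ndF4q0 ndF2q2b pcF1 Cut.none Ext.none)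

def k0_pp_012_b : ∃ t, chk3 f_pp_012_b t 1 1 1 = true :=
  ⟨(a (b (a (l 2) (b (l 18185168) (l 18311240))) (l 2)) (b (a (l 18184720) (a (l 18323680) (a (l 18451768) (l 18555712)))) (a (b (l 18139448) (l 2)) (a (l 18067776) (a (l 18068904) (l 18097432)))))), by decide +kernel⟩

theorem c_pp_012_b : CertF 0 536870912 1239849684 370763052 67108864 67108864 false true true .pnp 0 1 2
    ndF4q0 ndF2q2b pcF1 Cut.none Ext.none :=
  certFK2 (fam := false) (s1 := true) (s2 := true) (a := 0) (b := 1) (c := 2) (cn := .pnp) (n1 := ndF4q0) (n2 := ndF2q2b) (pc := pcF1) (cut := Cut.none) (xt := Ext.none) (P1 := 0) (W1 := 536870912) (P2 := 1239849684) (W2 := 370763052) (P3 := 67108864) (W3 := 67108864)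
    rfl rfl rfl (fun _ => rfl) k0_pp_012_b

noncomputable def f_pp_022_a : ℕ → ℕ → ℕ → ℕ → Bool := onCell 0 536870912 0 536870912 67108864 67108864
    (rowFK 0 false true true .pp 0 2 2 (qsf 0 536870912 0 536870912 2) ndF4q0 ndF2q2a pcF2 Cut.none Ext.none)

def k0_pp_022_a : ∃ t, chk3 f_pp_022_a t 1 1 1 = true :=
  ⟨(a (b (l 19318136) (b (l 19472448) (b (l 19617344) (l 19765600)))) (l 1)), by decide +kernel⟩

theorem c_pp_022_a : CertF 0 536870912 0 536870912 67108864 67108864 false true true .pp 0 2 2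
    ndF4q0 ndF2q2a pcF2 Cut.none Ext.none :=
  certFK0 (fam := false) (s1 := true) (s2 := true) (a := 0) (b := 2) (c := 2) (cn := .pp) (n1 := ndF4q0) (n2 := ndF2q2a) (pc := pcF2) (cut := Cut.none) (xt := Ext.none) (P1 := 0) (W1 := 536870912) (P2 := 0) (W2 := 536870912) (P3 := 67108864) (W3 := 67108864)
    rfl rfl rfl k0_pp_022_a

noncomputable def f_pp_022_b : ℕ → ℕ → ℕ → ℕ → Bool := onCell 1073741824 536870912 1239849684 370763052 67108864 67108864
    (rowFK 2 false true true .pp 0 2 2 (qsf 0 536870912 1239849684 370763052 2) ndF4q0 ndF2q2b pcF2 Cut.none Ext.none)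

def k0_pp_022_b : ∃ t, chk3 f_pp_022_b t 1 1 1 = true :=
  ⟨(a (b (a (l 18882064) (l 18735248)) (a (l 18332328) (l 18312600))) (a (b (l 18314680) (l 18146752)) (b (l 1) (l 4)))), by decide +kernel⟩

theorem c_pp_022_b : CertF 0 536870912 1239849684 370763052 67108864 67108864 false true true .pp 0 2 2
    ndF4q0 ndF2q2b pcF2 Cut.none Ext.none :=
  certFK2 (fam := false) (s1 := true) (s2 := true) (a := 0) (b := 2) (c := 2) (cn := .pp) (n1 := ndF4q0) (n2 := ndF2q2b) (pc := pcF2) (cut := Cut.none) (xt := Ext.none) (P1 := 0) (W1 := 536870912) (P2 := 1239849684) (W2 := 370763052) (P3 := 67108864) (W3 := 67108864)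
    rfl rfl rfl (fun _ => rfl) k0_pp_022_b

noncomputable def f_pp_023 : ℕ → ℕ → ℕ → ℕ → Bool := onCell 0 536870912 1073741824 536870912 67108864 67108864
    (rowFK 1 false true true .up 0 2 3 (qsf 0 536870912 1610612736 536870912 2) ndF4q0 ndF2q3 pcF2 Cut.none Ext.none)

def k0_pp_023 : ∃ t, chk3 f_pp_023 t 1 1 1 = true :=
  ⟨(b (a (l 482687059975) (b (l 19513672) (l 566973644903))) (a (b (l 612609287799) (l 4)) (b (a (l 18478760) (l 17660488)) (l 4)))), by decide +kernel⟩

theorem c_pp_023 : CertF 0 536870912 1610612736 536870912 67108864 67108864 false true true .up 0 2 3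
    ndF4q0 ndF2q3 pcF2 Cut.none Ext.none :=
  certFK1 (fam := false) (s1 := true) (s2 := true) (a := 0) (b := 2) (c := 3) (cn := .up) (n1 := ndF4q0) (n2 := ndF2q3) (pc := pcF2) (cut := Cut.none) (xt := Ext.none) (P1 := 0) (W1 := 536870912) (P2 := 1610612736) (W2 := 536870912) (P3 := 67108864) (W3 := 67108864)
    rfl rfl rfl (fun _ => rfl) k0_pp_023

noncomputable def f_pp_033 : ℕ → ℕ → ℕ → ℕ → Bool := onCell 1610612736 536870912 1610612736 536870912 67108864 67108864
    (rowFK 2 false true true .pnn 0 3 3 (qsf 0 536870912 1610612736 536870912 3) ndF4q0 ndF2q3 pcF3 Cut.none Ext.none)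

def k0_pp_033 : ∃ t, chk3 f_pp_033 t 1 1 1 = true :=
  ⟨(l 4), by decide +kernel⟩

theorem c_pp_033 : CertF 0 536870912 1610612736 536870912 67108864 67108864 false true true .pnn 0 3 3
    ndF4q0 ndF2q3 pcF3 Cut.none Ext.none :=
  certFK2 (fam := false) (s1 := true) (s2 := true) (a := 0) (b := 3) (c := 3) (cn := .pnn) (n1 := ndF4q0) (n2 := ndF2q3) (pc := pcF3) (cut := Cut.none) (xt := Ext.none) (P1 := 0) (W1 := 536870912) (P2 := 1610612736) (W2 := 536870912) (P3 := 67108864) (W3 := 67108864)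
    rfl rfl rfl (fun _ => rfl) k0_pp_033

noncomputable def f_pp_101 : ℕ → ℕ → ℕ → ℕ → Bool := onCell 536870912 536870912 536870912 536870912 67108864 67108864
    (rowFK 0 false true true .npn 1 0 1 (qsf 536870912 536870912 536870912 536870912 0) ndF4q1 ndF2q1 pcF0 Cut.none Ext.none)

def k0_pp_101 : ∃ t, chk3 f_pp_101 t 1 1 1 = true :=
  ⟨(l 3), by decide +kernel⟩

theorem c_pp_101 : CertF 536870912 536870912 536870912 536870912 67108864 67108864 false true true .npn 1 0 1
    ndF4q1 ndF2q1 pcF0 Cut.none Ext.none :=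
  certFK0 (fam := false) (s1 := true) (s2 := true) (a := 1) (b := 0) (c := 1) (cn := .npn) (n1 := ndF4q1) (n2 := ndF2q1) (pc := pcF0) (cut := Cut.none) (xt := Ext.none) (P1 := 536870912) (W1 := 536870912) (P2 := 536870912) (W2 := 536870912) (P3 := 67108864) (W3 := 67108864)
    rfl rfl rfl k0_pp_101

noncomputable def cut_pp_102_a : Cut := Cut.of [[⟨0, 1, 0, 67108864⟩, ⟨1, 0, 0, 67108864⟩, ⟨2, 1, 0, 67108864⟩]]

noncomputable def f_pp_102_a : ℕ → ℕ → ℕ → ℕ → Bool := onCell 536870912 536870912 0 536870912 67108864 67108864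
    (rowFK 0 false true true .npp 1 0 2 (qsf 536870912 536870912 0 536870912 0) ndF4q1 ndF2q2a pcF0 cut_pp_102_a Ext.none)

def k0_pp_102_a : ∃ t, chk3 f_pp_102_a t 2 1 1 = true :=
  ⟨(b (a (l 18500232) (l 18700336)) (b (a (l 18450200) (l 18568616)) (b (a (l 18372952) (l 18395424)) (a (l 18292504) (l 18212040))))), by decide +kernel⟩

def k1_pp_102_a : ∃ t, chk3 f_pp_102_a t 3 1 1 = true :=
  ⟨(b (a (a (l 18828440) (l 18905832)) (a (b (l 19026584) (l 18890944)) (a (b (l 19013408) (b (l 18887392) (l 18696392))) (a (b (l 18939128) (b (l 18763648) (l 18374456))) (b (l 18814696) (c (b (l 19203160) (l 18925856)) (b (l 17991864) (a (l 17704440) (b (l 17632864) (l 17343432)))))))))) (b (a (a (l 18608584) (l 18595776)) (a (b (l 18636416) (a (l 18395088) (l 18219824))) (a (b (a (l 18446424) (l 18248672)) (a (b (l 18117064) (l 17809856)) (b (l 17875632) (l 17437088)))) (b (b (a (l 18022216) (c (l 18586944) (a (l 17250800) (l 16955176)))) (a (c (l 18546240) (l 17241088)) (c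 (c (l 18655832) (a (l 17958336) (l 17716216))) (l 16608800)))) (a (b (c (l 18210824) (l 16780472)) (a (l 17107320) (l 16768224))) (b (a (l 16870160) (l 16633064)) (a (l 16634552) (b (l 16621632) (l 16630960))))))))) (a (b (a (l 18324912) (b (l 18297872) (l 18107056))) (a (l 18014360) (b (l 17876056) (l 17585576)))) (b (a (a (b (l 18098248) (l 17828888)) (b (l 17813704) (b (l 17545776) (l 17335984)))) (b (a (a (l 17407000) (l 16943488)) (a (b (l 16654456) (l 16665080)) (a (b (l 16646440) (l 16658232)) (b (a (l 16642904) (l 16640720)) (a (l 16655272) (b (l 16648840) (l 16655424))))))) (a (a (l 16875096) (b (l 16687008) (l 16698744))) (a (b (l 16677696) (a (l 16692784) (l 16689464))) (a (b (l 16672040) (b (l 16680632) (l 6))) (a (b (l 16669672) (l 6)) (l 6))))))) (a (a (b (l 17497848) (l 17091464)) (b (l 16971768) (b (l 16757488) (l 16772360)))) (b (a (a (l 16724944) (l 16749472)) (a (a (l 16734960) (l 6)) (l 6))) (a (a (b (l 16747608) (l 16765200)) (b (l 16743328)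 (l 6))) (l 6)))))))), by decide +kernel⟩

theorem s2_pp_102_a : ∃ t, chk3 f_pp_102_a t 1 1 1 = true := ex3_a k0_pp_102_a k1_pp_102_a

theorem c_pp_102_a : CertF 536870912 536870912 0 536870912 67108864 67108864 false true true .npp 1 0 2
    ndF4q1 ndF2q2a pcF0 cut_pp_102_a Ext.none :=
  certFK0 (fam := false) (s1 := true) (s2 := true) (a := 1) (b := 0) (c := 2) (cn := .npp) (n1 := ndF4q1) (n2 := ndF2q2a) (pc := pcF0) (cut := cut_pp_102_a) (xt := Ext.none) (P1 := 536870912) (W1 := 536870912) (P2 := 0) (W2 := 536870912) (P3 := 67108864) (W3 := 67108864)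
    rfl rfl rfl s2_pp_102_a

noncomputable def cut_pp_102_b : Cut := Cut.of [[⟨0, 1, 0, 67108864⟩, ⟨1, 0, 0, 67108864⟩, ⟨2, 1, 0, 67108864⟩]]

noncomputable def f_pp_102_b : ℕ → ℕ → ℕ → ℕ → Bool := onCell 536870912 536870912 1239849684 370763052 67108864 67108864
    (rowFK 0 false true true .npp 1 0 2 (qsf 536870912 536870912 1239849684 370763052 0) ndF4q1 ndF2q2b pcF0 cut_pp_102_b Ext.none)

def k0_pp_102_b : ∃ t, chk3 f_pp_102_b t 1 1 1 = true :=
  ⟨(a (b (a (l 2) (b (l 18696024) (l 18590088))) (l 2)) (b (a (b (l 18981168) (l 18969096)) (b (a (l 19231352) (b (a (l 19230616) (b (l 19101504) (l 19336608))) (l 19503512))) (a (l 19323984) (l 19626032)))) (a (b (l 18854992) (l 2)) (b (l 19397184) (l 19208368))))), by decide +kernel⟩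

theorem c_pp_102_b : CertF 536870912 536870912 1239849684 370763052 67108864 67108864 false true true .npp 1 0 2
    ndF4q1 ndF2q2b pcF0 cut_pp_102_b Ext.none :=
  certFK0 (fam := false) (s1 := true) (s2 := true) (a := 1) (b := 0) (c := 2) (cn := .npp) (n1 := ndF4q1) (n2 := ndF2q2b) (pc := pcF0) (cut := cut_pp_102_b) (xt := Ext.none) (P1 := 536870912) (W1 := 536870912) (P2 := 1239849684) (W2 := 370763052) (P3 := 67108864) (W3 := 67108864)
    rfl rfl rfl k0_pp_102_b

noncomputable def f_pp_112_a : ℕ → ℕ → ℕ → ℕ → Bool := onCell 536870912 536870912 0 536870912 67108864 67108864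
    (rowFK 2 false true true .dn 1 1 2 (qsf 536870912 536870912 0 536870912 1) ndF4q1 ndF2q2a pcF1 Cut.none Ext.none)

def k0_pp_112_a : ∃ t, chk3 f_pp_112_a t 1 1 1 = true :=
  ⟨(a (b (a (l 18303944) (l 18105200)) (b (a (l 18119048) (l 1)) (b (l 18134976) (l 17817672)))) (l 1)), by decide +kernel⟩

theorem c_pp_112_a : CertF 536870912 536870912 0 536870912 67108864 67108864 false true true .dn 1 1 2
    ndF4q1 ndF2q2a pcF1 Cut.none Ext.none :=
  certFK2 (fam := false) (s1 := true) (s2 := true) (a := 1) (b := 1) (c := 2) (cn := .dn) (n1 := ndF4q1) (n2 := ndF2q2a) (pc := pcF1) (cut := Cut.none) (xt := Ext.none) (P1 := 536870912) (W1 := 536870912) (P2 := 0) (W2 := 536870912) (P3 := 67108864) (W3 := 67108864)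
    rfl rfl rfl (fun _ => rfl) k0_pp_112_a

noncomputable def f_pp_112_b : ℕ → ℕ → ℕ → ℕ → Bool := onCell 536870912 536870912 1239849684 370763052 67108864 67108864
    (rowFK 2 false true true .dn 1 1 2 (qsf 536870912 536870912 1239849684 370763052 1) ndF4q1 ndF2q2b pcF1 Cut.none Ext.none)

def k0_pp_112_b : ∃ t, chk3 f_pp_112_b t 1 1 1 = true :=
  ⟨(a (a (b (l 18539624) (l 19074280)) (b (l 18201480) (l 18534344))) (a (b (l 18110656) (l 18127496)) (a (l 18142616) (a (l 18223624) (l 18294512))))), by decide +kernel⟩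

theorem c_pp_112_b : CertF 536870912 536870912 1239849684 370763052 67108864 67108864 false true true .dn 1 1 2
    ndF4q1 ndF2q2b pcF1 Cut.none Ext.none :=
  certFK2 (fam := false) (s1 := true) (s2 := true) (a := 1) (b := 1) (c := 2) (cn := .dn) (n1 := ndF4q1) (n2 := ndF2q2b) (pc := pcF1) (cut := Cut.none) (xt := Ext.none) (P1 := 536870912) (W1 := 536870912) (P2 := 1239849684) (W2 := 370763052) (P3 := 67108864) (W3 := 67108864)
    rfl rfl rfl (fun _ => rfl) k0_pp_112_b

noncomputable def f_pp_113 : ℕ → ℕ → ℕ → ℕ → Bool := onCell 536870912 536870912 1610612736 536870912 67108864 67108864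
    (rowFK 2 false true true .nn 1 1 3 (qsf 536870912 536870912 1610612736 536870912 1) ndF4q1 ndF2q3 pcF1 Cut.none Ext.none)

def k0_pp_113 : ∃ t, chk3 f_pp_113 t 1 1 1 = true :=
  ⟨(a (b (a (b (l 20777616) (l 20810320)) (l 20424408)) (a (l 2) (b (l 19987848) (l 2)))) (b (a (b (l 19611528) (l 19237472)) (a (l 18964904) (a (l 18818648) (l 18746480)))) (a (b (l 18740912) (l 18336048)) (a (l 17572728) (a (l 17345352) (l 17238256)))))), by decide +kernel⟩

theorem c_pp_113 : CertF 536870912 536870912 1610612736 536870912 67108864 67108864 false true true .nn 1 1 3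
    ndF4q1 ndF2q3 pcF1 Cut.none Ext.none :=
  certFK2 (fam := false) (s1 := true) (s2 := true) (a := 1) (b := 1) (c := 3) (cn := .nn) (n1 := ndF4q1) (n2 := ndF2q3) (pc := pcF1) (cut := Cut.none) (xt := Ext.none) (P1 := 536870912) (W1 := 536870912) (P2 := 1610612736) (W2 := 536870912) (P3 := 67108864) (W3 := 67108864)
    rfl rfl rfl (fun _ => rfl) k0_pp_113

noncomputable def f_pp_123 : ℕ → ℕ → ℕ → ℕ → Bool := onCell 1073741824 536870912 1610612736 536870912 67108864 67108864
    (rowFK 2 false true true .npn 1 2 3 (qsf 536870912 536870912 1610612736 536870912 2) ndF4q1 ndF2q3 pcF2 Cut.none Ext.none)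

def k0_pp_123 : ∃ t, chk3 f_pp_123 t 1 1 1 = true :=
  ⟨(a (b (b (l 18950008) (l 18196384)) (a (b (l 17438160) (l 17036032)) (b (l 17345224) (l 4)))) (b (a (l 18474784) (l 1)) (l 4))), by decide +kernel⟩

theorem c_pp_123 : CertF 536870912 536870912 1610612736 536870912 67108864 67108864 false true true .npn 1 2 3
    ndF4q1 ndF2q3 pcF2 Cut.none Ext.none :=
  certFK2 (fam := false) (s1 := true) (s2 := true) (a := 1) (b := 2) (c := 3) (cn := .npn) (n1 := ndF4q1) (n2 := ndF2q3) (pc := pcF2) (cut := Cut.none) (xt := Ext.none) (P1 := 536870912) (W1 := 536870912) (P2 := 1610612736) (W2 := 536870912) (P3 := 67108864) (W3 := 67108864)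
    rfl rfl rfl (fun _ => rfl) k0_pp_123

noncomputable def f_pp_133 : ℕ → ℕ → ℕ → ℕ → Bool := onCell 1610612736 536870912 1610612736 536870912 67108864 67108864
    (rowFK 2 false true true .dn 1 3 3 (qsf 536870912 536870912 1610612736 536870912 3) ndF4q1 ndF2q3 pcF3 Cut.none Ext.none)

def k0_pp_133 : ∃ t, chk3 f_pp_133 t 1 1 1 = true :=
  ⟨(l 4), by decide +kernel⟩

theorem c_pp_133 : CertF 536870912 536870912 1610612736 536870912 67108864 67108864 false true true .dn 1 3 3
    ndF4q1 ndF2q3 pcF3 Cut.none Ext.none :=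
  certFK2 (fam := false) (s1 := true) (s2 := true) (a := 1) (b := 3) (c := 3) (cn := .dn) (n1 := ndF4q1) (n2 := ndF2q3) (pc := pcF3) (cut := Cut.none) (xt := Ext.none) (P1 := 536870912) (W1 := 536870912) (P2 := 1610612736) (W2 := 536870912) (P3 := 67108864) (W3 := 67108864)
    rfl rfl rfl (fun _ => rfl) k0_pp_133

noncomputable def cut_pp_202_a : Cut := Cut.of [[⟨0, 1, 0, 67108864⟩, ⟨1, 0, 0, 67108864⟩, ⟨2, 1, 0, 67108864⟩]]

noncomputable def f_pp_202_a : ℕ → ℕ → ℕ → ℕ → Bool := onCell 1073741824 536870912 0 536870912 67108864 67108864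
    (rowFK 0 false true true .pp 2 0 2 (qsf 1073741824 536870912 0 536870912 0) ndF4q2 ndF2q2a pcF0 cut_pp_202_a Ext.none)

def k0_pp_202_a : ∃ t, chk3 f_pp_202_a t 1 1 1 = true :=
  ⟨(a (a (a (a (b (b (c (l 19232600) (b (l 18129568) (a (l 18059760) (l 17946272)))) (b (c (l 18919528) (a (b (l 17882664) (l 17705648)) (c (l 112912651703) (b (l 17465640) (l 102710660135))))) (a (c (l 18595968) (b (l 17241960) (c (l 17430184) (l 16578440)))) (a (c (l 124725115911) (b (c (l 17753640) (l 16881648)) (c (l 109153959831) (l 99488426519)))) (l 3))))) (b (b (b (c (c (l 129020150951) (a (l 109691239383) (l 669111107799))) (a (a (l 16760208) (l 16570048)) (a (b (l 104320749671) (l 170355466311)) (l 3)))) (a (c (c (l 120429634039) (a (b (l 17670512) (l 17407128)) (b (l 17538040) (c (l 17592416) (l 105395185639))))) (a (l 16583592) (b (l 16565608) (l 98951644583)))) (l 3))) (a (b (a (b (l 16596008) (l 16613856)) (a (b (l 16595608) (l 102709775911)) (b (l 156396815303) (l 3))))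 (a (b (a (l 16615368) (b (l 16605776) (l 16610400))) (a (l 16625200) (b (l 16625880) (l 101636081879)))) (a (a (b (l 103783539255) (b (l 141901362599) (l 3))) (l 3)) (l 3)))) (l 3))) (b (b (a (a (b (b (a (l 16632680) (a (l 16627952) (l 104320447015))) (a (l 16638608) (a (l 102172977783) (l 137069581095)))) (b (b (a (l 16643032) (a (l 103783596199) (l 3))) (l 6)) (l 6))) (l 3)) (l 3)) (l 6)) (l 6)))) (b (b (l 3) (l 3)) (l 3))) (l 3)) (l 3)) (l 1)), by decide +kernel⟩

theorem c_pp_202_a : CertF 1073741824 536870912 0 536870912 67108864 67108864 false true true .pp 2 0 2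
    ndF4q2 ndF2q2a pcF0 cut_pp_202_a Ext.none :=
  certFK0 (fam := false) (s1 := true) (s2 := true) (a := 2) (b := 0) (c := 2) (cn := .pp) (n1 := ndF4q2) (n2 := ndF2q2a) (pc := pcF0) (cut := cut_pp_202_a) (xt := Ext.none) (P1 := 1073741824) (W1 := 536870912) (P2 := 0) (W2 := 536870912) (P3 := 67108864) (W3 := 67108864)
    rfl rfl rfl k0_pp_202_a

noncomputable def cut_pp_202_b : Cut := Cut.of [[⟨0, 1, 0, 67108864⟩, ⟨1, 0, 0, 67108864⟩, ⟨2, 1, 0, 67108864⟩]]

noncomputable def f_pp_202_b : ℕ → ℕ → ℕ → ℕ → Bool := onCell 1073741824 536870912 1239849684 370763052 67108864 67108864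
    (rowFK 0 false true true .pp 2 0 2 (qsf 1073741824 536870912 1239849684 370763052 0) ndF4q2 ndF2q2b pcF0 cut_pp_202_b Ext.none)

def k0_pp_202_b : ∃ t, chk3 f_pp_202_b t 1 1 1 = true :=
  ⟨(a (b (a (b (a (b (b (c (l 147275011751) (a (a (l 18445440) (l 18348328)) (l 669111818887))) (a (l 19227552) (l 144053202391))) (a (l 19519920) (l 19358944))) (b (l 3) (l 731927416855))) (a (l 19694992) (b (l 166602492919) (l 19533208)))) (l 3)) (a (b (l 19615912) (l 19453328)) (b (a (l 19432200) (l 3)) (l 184856803655)))) (l 3)), by decide +kernel⟩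

theorem c_pp_202_b : CertF 1073741824 536870912 1239849684 370763052 67108864 67108864 false true true .pp 2 0 2
    ndF4q2 ndF2q2b pcF0 cut_pp_202_b Ext.none :=
  certFK0 (fam := false) (s1 := true) (s2 := true) (a := 2) (b := 0) (c := 2) (cn := .pp) (n1 := ndF4q2) (n2 := ndF2q2b) (pc := pcF0) (cut := cut_pp_202_b) (xt := Ext.none) (P1 := 1073741824) (W1 := 536870912) (P2 := 1239849684) (W2 := 370763052) (P3 := 67108864) (W3 := 67108864)
    rfl rfl rfl k0_pp_202_b

noncomputable def f_pp_203 : ℕ → ℕ → ℕ → ℕ → Bool := onCell 1073741824 536870912 0 536870912 67108864 67108864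
    (rowFK 1 false true true .up 2 0 3 (qsf 1073741824 536870912 1610612736 536870912 0) ndF4q2 ndF2q3 pcF0 Cut.none Ext.none)

def k0_pp_203 : ∃ t, chk3 f_pp_203 t 1 1 1 = true :=
  ⟨(b (a (b (l 1) (a (l 1) (l 449399643351))) (a (l 3) (l 3))) (a (b (a (l 525637666871) (l 480539112903)) (a (l 20224184) (l 19287856))) (b (a (l 18892232) (l 18397368)) (a (l 18562312) (l 18056336))))), by decide +kernel⟩

theorem c_pp_203 : CertF 1073741824 536870912 1610612736 536870912 67108864 67108864 false true true .up 2 0 3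
    ndF4q2 ndF2q3 pcF0 Cut.none Ext.none :=
  certFK1 (fam := false) (s1 := true) (s2 := true) (a := 2) (b := 0) (c := 3) (cn := .up) (n1 := ndF4q2) (n2 := ndF2q3) (pc := pcF0) (cut := Cut.none) (xt := Ext.none) (P1 := 1073741824) (W1 := 536870912) (P2 := 1610612736) (W2 := 536870912) (P3 := 67108864) (W3 := 67108864)
    rfl rfl rfl (fun _ => rfl) k0_pp_203

noncomputable def f_pp_213 : ℕ → ℕ → ℕ → ℕ → Bool := onCell 536870912 536870912 1610612736 536870912 67108864 67108864
    (rowFK 2 false true true .pnn 2 1 3 (qsf 1073741824 536870912 1610612736 536870912 1) ndF4q2 ndF2q3 pcF1 Cut.none Ext.none)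

def k0_pp_213 : ∃ t, chk3 f_pp_213 t 1 1 1 = true :=
  ⟨(a (b (a (b (l 20788104) (l 19730648)) (b (l 21485768) (l 20147896))) (a (b (l 18953616) (l 18498544)) (b (l 19144488) (l 18494552)))) (b (a (b (l 1) (l 20098096)) (l 1)) (a (b (l 18751408) (l 17867120)) (a (l 701189246583) (a (l 699041451527) (l 17437128)))))), by decide +kernel⟩

theorem c_pp_213 : CertF 1073741824 536870912 1610612736 536870912 67108864 67108864 false true true .pnn 2 1 3
    ndF4q2 ndF2q3 pcF1 Cut.none Ext.none :=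
  certFK2 (fam := false) (s1 := true) (s2 := true) (a := 2) (b := 1) (c := 3) (cn := .pnn) (n1 := ndF4q2) (n2 := ndF2q3) (pc := pcF1) (cut := Cut.none) (xt := Ext.none) (P1 := 1073741824) (W1 := 536870912) (P2 := 1610612736) (W2 := 536870912) (P3 := 67108864) (W3 := 67108864)
    rfl rfl rfl (fun _ => rfl) k0_pp_213

noncomputable def f_pp_303 : ℕ → ℕ → ℕ → ℕ → Bool := onCell 0 1230186008 1610612736 536870912 67108864 67108864
    (rowFK 0 false true true .npn 3 0 3 (qsf 0 1230186008 1610612736 536870912 0) ndF4q3 ndF2q3 pcF0 Cut.none Ext.none)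

def k0_pp_303 : ∃ t, chk3 f_pp_303 t 1 1 1 = true :=
  ⟨(a (l 3) (a (l 3) (b (l 3) (a (b (l 3) (l 364705192327)) (b (l 372222263511) (l 189685765815)))))), by decide +kernel⟩

theorem c_pp_303 : CertF 0 1230186008 1610612736 536870912 67108864 67108864 false true true .npn 3 0 3
    ndF4q3 ndF2q3 pcF0 Cut.none Ext.none :=
  certFK0 (fam := false) (s1 := true) (s2 := true) (a := 3) (b := 0) (c := 3) (cn := .npn) (n1 := ndF4q3) (n2 := ndF2q3) (pc := pcF0) (cut := Cut.none) (xt := Ext.none) (P1 := 0) (W1 := 1230186008) (P2 := 1610612736) (W2 := 536870912) (P3 := 67108864) (W3 := 67108864)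
    rfl rfl rfl k0_pp_303

noncomputable def f_pp_313 : ℕ → ℕ → ℕ → ℕ → Bool := onCell 0 1230186008 1610612736 536870912 67108864 67108864
    (rowFK 0 false true true .dn 3 1 3 (qsf 0 1230186008 1610612736 536870912 1) ndF4q3 ndF2q3 pcF1 Cut.none Ext.none)

def k0_pp_313 : ∃ t, chk3 f_pp_313 t 1 1 1 = true :=
  ⟨(a (l 1) (a (l 1) (b (l 1) (a (l 1) (b (l 1) (a (l 1) (l 18207640))))))), by decide +kernel⟩

theorem c_pp_313 : CertF 0 1230186008 1610612736 536870912 67108864 67108864 false true true .dn 3 1 3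
    ndF4q3 ndF2q3 pcF1 Cut.none Ext.none :=
  certFK0 (fam := false) (s1 := true) (s2 := true) (a := 3) (b := 1) (c := 3) (cn := .dn) (n1 := ndF4q3) (n2 := ndF2q3) (pc := pcF1) (cut := Cut.none) (xt := Ext.none) (P1 := 0) (W1 := 1230186008) (P2 := 1610612736) (W2 := 536870912) (P3 := 67108864) (W3 := 67108864)
    rfl rfl rfl k0_pp_313

noncomputable def f_pm_001 : ℕ → ℕ → ℕ → ℕ → Bool := onCell 0 536870912 536870912 536870912 67108864 67108864
    (rowFK 0 false true false .up 0 0 1 (qsf 0 536870912 536870912 536870912 0) ndF4q0 ndF2q1 pcF0 Cut.none Ext.none)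

def k0_pm_001 : ∃ t, chk3 f_pm_001 t 1 1 1 = true :=
  ⟨(l 4), by decide +kernel⟩

theorem c_pm_001 : CertF 0 536870912 536870912 536870912 67108864 67108864 false true false .up 0 0 1
    ndF4q0 ndF2q1 pcF0 Cut.none Ext.none :=
  certFK0 (fam := false) (s1 := true) (s2 := false) (a := 0) (b := 0) (c := 1) (cn := .up) (n1 := ndF4q0) (n2 := ndF2q1) (pc := pcF0) (cut := Cut.none) (xt := Ext.none) (P1 := 0) (W1 := 536870912) (P2 := 536870912) (W2 := 536870912) (P3 := 67108864) (W3 := 67108864)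
    rfl rfl rfl k0_pm_001

noncomputable def f_pm_011 : ℕ → ℕ → ℕ → ℕ → Bool := onCell 0 536870912 536870912 536870912 67108864 67108864
    (rowFK 0 false true false .pnn 0 1 1 (qsf 0 536870912 536870912 536870912 1) ndF4q0 ndF2q1 pcF1 Cut.none Ext.none)

def k0_pm_011 : ∃ t, chk3 f_pm_011 t 1 1 1 = true :=
  ⟨(l 4), by decide +kernel⟩

theorem c_pm_011 : CertF 0 536870912 536870912 536870912 67108864 67108864 false true false .pnn 0 1 1
    ndF4q0 ndF2q1 pcF1 Cut.none Ext.none :=
  certFK0 (fam := false) (s1 := true) (s2 := false) (a := 0) (b := 1) (c := 1) (cn := .pnn) (n1 := ndF4q0) (n2 := ndF2q1) (pc := pcF1) (cut := Cut.none) (xt := Ext.none) (P1 := 0) (W1 := 536870912) (P2 := 536870912) (W2 := 536870912) (P3 := 67108864) (W3 := 67108864)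
    rfl rfl rfl k0_pm_011

noncomputable def f_pm_012_a : ℕ → ℕ → ℕ → ℕ → Bool := onCell 0 536870912 0 536870912 67108864 67108864
    (rowFK 0 false true false .pnp 0 1 2 (qsf 0 536870912 0 536870912 1) ndF4q0 ndF2q2a pcF1 Cut.none Ext.none)

def k0_pm_012_a : ∃ t, chk3 f_pm_012_a t 1 1 1 = true :=
  ⟨(l 4), by decide +kernel⟩

theorem c_pm_012_a : CertF 0 536870912 0 536870912 67108864 67108864 false true false .pnp 0 1 2
    ndF4q0 ndF2q2a pcF1 Cut.none Ext.none :=
  certFK0 (fam := false) (s1 := true) (s2 := false) (a := 0) (b := 1) (c := 2) (cn := .pnp) (n1 := ndF4q0) (n2 := ndF2q2a) (pc := pcF1) (cut := Cut.none) (xt := Ext.none) (P1 := 0) (W1 := 536870912) (P2 := 0) (W2 := 536870912) (P3 := 67108864) (W3 := 67108864)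
    rfl rfl rfl k0_pm_012_a

noncomputable def f_pm_012_b : ℕ → ℕ → ℕ → ℕ → Bool := onCell 0 536870912 1239849684 370763052 67108864 67108864
    (rowFK 0 false true false .pnp 0 1 2 (qsf 0 536870912 1239849684 370763052 1) ndF4q0 ndF2q2b pcF1 Cut.none Ext.none)

def k0_pm_012_b : ∃ t, chk3 f_pm_012_b t 1 1 1 = true :=
  ⟨(l 4), by decide +kernel⟩

theorem c_pm_012_b : CertF 0 536870912 1239849684 370763052 67108864 67108864 false true false .pnp 0 1 2
    ndF4q0 ndF2q2b pcF1 Cut.none Ext.none :=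
  certFK0 (fam := false) (s1 := true) (s2 := false) (a := 0) (b := 1) (c := 2) (cn := .pnp) (n1 := ndF4q0) (n2 := ndF2q2b) (pc := pcF1) (cut := Cut.none) (xt := Ext.none) (P1 := 0) (W1 := 536870912) (P2 := 1239849684) (W2 := 370763052) (P3 := 67108864) (W3 := 67108864)
    rfl rfl rfl k0_pm_012_b

noncomputable def f_pm_022_a : ℕ → ℕ → ℕ → ℕ → Bool := onCell 0 536870912 0 536870912 67108864 67108864
    (rowFK 0 false true false .pp 0 2 2 (qsf 0 536870912 0 536870912 2) ndF4q0 ndF2q2a pcF2 Cut.none Ext.none)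

def k0_pm_022_a : ∃ t, chk3 f_pm_022_a t 1 1 1 = true :=
  ⟨(l 4), by decide +kernel⟩

theorem c_pm_022_a : CertF 0 536870912 0 536870912 67108864 67108864 false true false .pp 0 2 2
    ndF4q0 ndF2q2a pcF2 Cut.none Ext.none :=
  certFK0 (fam := false) (s1 := true) (s2 := false) (a := 0) (b := 2) (c := 2) (cn := .pp) (n1 := ndF4q0) (n2 := ndF2q2a) (pc := pcF2) (cut := Cut.none) (xt := Ext.none) (P1 := 0) (W1 := 536870912) (P2 := 0) (W2 := 536870912) (P3 := 67108864) (W3 := 67108864)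
    rfl rfl rfl k0_pm_022_a

noncomputable def f_pm_022_b : ℕ → ℕ → ℕ → ℕ → Bool := onCell 0 536870912 1239849684 370763052 67108864 67108864
    (rowFK 0 false true false .pp 0 2 2 (qsf 0 536870912 1239849684 370763052 2) ndF4q0 ndF2q2b pcF2 Cut.none Ext.none)

def k0_pm_022_b : ∃ t, chk3 f_pm_022_b t 1 1 1 = true :=
  ⟨(l 4), by decide +kernel⟩

theorem c_pm_022_b : CertF 0 536870912 1239849684 370763052 67108864 67108864 false true false .pp 0 2 2
    ndF4q0 ndF2q2b pcF2 Cut.none Ext.none :=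
  certFK0 (fam := false) (s1 := true) (s2 := false) (a := 0) (b := 2) (c := 2) (cn := .pp) (n1 := ndF4q0) (n2 := ndF2q2b) (pc := pcF2) (cut := Cut.none) (xt := Ext.none) (P1 := 0) (W1 := 536870912) (P2 := 1239849684) (W2 := 370763052) (P3 := 67108864) (W3 := 67108864)
    rfl rfl rfl k0_pm_022_b

noncomputable def f_pm_023 : ℕ → ℕ → ℕ → ℕ → Bool := onCell 0 536870912 1610612736 536870912 67108864 67108864
    (rowFK 0 false true false .up 0 2 3 (qsf 0 536870912 1610612736 536870912 2) ndF4q0 ndF2q3 pcF2 Cut.none Ext.none)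

def k0_pm_023 : ∃ t, chk3 f_pm_023 t 1 1 1 = true :=
  ⟨(l 4), by decide +kernel⟩

theorem c_pm_023 : CertF 0 536870912 1610612736 536870912 67108864 67108864 false true false .up 0 2 3
    ndF4q0 ndF2q3 pcF2 Cut.none Ext.none :=
  certFK0 (fam := false) (s1 := true) (s2 := false) (a := 0) (b := 2) (c := 3) (cn := .up) (n1 := ndF4q0) (n2 := ndF2q3) (pc := pcF2) (cut := Cut.none) (xt := Ext.none) (P1 := 0) (W1 := 536870912) (P2 := 1610612736) (W2 := 536870912) (P3 := 67108864) (W3 := 67108864)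
    rfl rfl rfl k0_pm_023

noncomputable def f_pm_033 : ℕ → ℕ → ℕ → ℕ → Bool := onCell 0 536870912 1610612736 536870912 67108864 67108864
    (rowFK 0 false true false .pnn 0 3 3 (qsf 0 536870912 1610612736 536870912 3) ndF4q0 ndF2q3 pcF3 Cut.none Ext.none)

def k0_pm_033 : ∃ t, chk3 f_pm_033 t 1 1 1 = true :=
  ⟨(l 4), by decide +kernel⟩

theorem c_pm_033 : CertF 0 536870912 1610612736 536870912 67108864 67108864 false true false .pnn 0 3 3
    ndF4q0 ndF2q3 pcF3 Cut.none Ext.none :=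
  certFK0 (fam := false) (s1 := true) (s2 := false) (a := 0) (b := 3) (c := 3) (cn := .pnn) (n1 := ndF4q0) (n2 := ndF2q3) (pc := pcF3) (cut := Cut.none) (xt := Ext.none) (P1 := 0) (W1 := 536870912) (P2 := 1610612736) (W2 := 536870912) (P3 := 67108864) (W3 := 67108864)
    rfl rfl rfl k0_pm_033

noncomputable def f_pm_101 : ℕ → ℕ → ℕ → ℕ → Bool := onCell 536870912 536870912 536870912 536870912 67108864 67108864
    (rowFK 0 false true false .npn 1 0 1 (qsf 536870912 536870912 536870912 536870912 0) ndF4q1 ndF2q1 pcF0 Cut.none Ext.none)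

def k0_pm_101 : ∃ t, chk3 f_pm_101 t 1 1 1 = true :=
  ⟨(l 4), by decide +kernel⟩

theorem c_pm_101 : CertF 536870912 536870912 536870912 536870912 67108864 67108864 false true false .npn 1 0 1
    ndF4q1 ndF2q1 pcF0 Cut.none Ext.none :=
  certFK0 (fam := false) (s1 := true) (s2 := false) (a := 1) (b := 0) (c := 1) (cn := .npn) (n1 := ndF4q1) (n2 := ndF2q1) (pc := pcF0) (cut := Cut.none) (xt := Ext.none) (P1 := 536870912) (W1 := 536870912) (P2 := 536870912) (W2 := 536870912) (P3 := 67108864) (W3 := 67108864)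
    rfl rfl rfl k0_pm_101

noncomputable def f_pm_102_a : ℕ → ℕ → ℕ → ℕ → Bool := onCell 536870912 536870912 0 536870912 67108864 67108864
    (rowFK 0 false true false .npp 1 0 2 (qsf 536870912 536870912 0 536870912 0) ndF4q1 ndF2q2a pcF0 Cut.none Ext.none)

def k0_pm_102_a : ∃ t, chk3 f_pm_102_a t 1 1 1 = true :=
  ⟨(l 4), by decide +kernel⟩

theorem c_pm_102_a : CertF 536870912 536870912 0 536870912 67108864 67108864 false true false .npp 1 0 2
    ndF4q1 ndF2q2a pcF0 Cut.none Ext.none :=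
  certFK0 (fam := false) (s1 := true) (s2 := false) (a := 1) (b := 0) (c := 2) (cn := .npp) (n1 := ndF4q1) (n2 := ndF2q2a) (pc := pcF0) (cut := Cut.none) (xt := Ext.none) (P1 := 536870912) (W1 := 536870912) (P2 := 0) (W2 := 536870912) (P3 := 67108864) (W3 := 67108864)
    rfl rfl rfl k0_pm_102_a

noncomputable def f_pm_102_b : ℕ → ℕ → ℕ → ℕ → Bool := onCell 536870912 536870912 1239849684 370763052 67108864 67108864
    (rowFK 0 false true false .npp 1 0 2 (qsf 536870912 536870912 1239849684 370763052 0) ndF4q1 ndF2q2b pcF0 Cut.none Ext.none)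

def k0_pm_102_b : ∃ t, chk3 f_pm_102_b t 1 1 1 = true :=
  ⟨(l 4), by decide +kernel⟩

theorem c_pm_102_b : CertF 536870912 536870912 1239849684 370763052 67108864 67108864 false true false .npp 1 0 2
    ndF4q1 ndF2q2b pcF0 Cut.none Ext.none :=
  certFK0 (fam := false) (s1 := true) (s2 := false) (a := 1) (b := 0) (c := 2) (cn := .npp) (n1 := ndF4q1) (n2 := ndF2q2b) (pc := pcF0) (cut := Cut.none) (xt := Ext.none) (P1 := 536870912) (W1 := 536870912) (P2 := 1239849684) (W2 := 370763052) (P3 := 67108864) (W3 := 67108864)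
    rfl rfl rfl k0_pm_102_b

noncomputable def f_pm_112_a : ℕ → ℕ → ℕ → ℕ → Bool := onCell 536870912 536870912 0 536870912 67108864 67108864
    (rowFK 0 false true false .dn 1 1 2 (qsf 536870912 536870912 0 536870912 1) ndF4q1 ndF2q2a pcF1 Cut.none Ext.none)

def k0_pm_112_a : ∃ t, chk3 f_pm_112_a t 1 1 1 = true :=
  ⟨(l 4), by decide +kernel⟩

theorem c_pm_112_a : CertF 536870912 536870912 0 536870912 67108864 67108864 false true false .dn 1 1 2
    ndF4q1 ndF2q2a pcF1 Cut.none Ext.none :=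
  certFK0 (fam := false) (s1 := true) (s2 := false) (a := 1) (b := 1) (c := 2) (cn := .dn) (n1 := ndF4q1) (n2 := ndF2q2a) (pc := pcF1) (cut := Cut.none) (xt := Ext.none) (P1 := 536870912) (W1 := 536870912) (P2 := 0) (W2 := 536870912) (P3 := 67108864) (W3 := 67108864)
    rfl rfl rfl k0_pm_112_a

noncomputable def f_pm_112_b : ℕ → ℕ → ℕ → ℕ → Bool := onCell 536870912 536870912 1239849684 370763052 67108864 67108864
    (rowFK 0 false true false .dn 1 1 2 (qsf 536870912 536870912 1239849684 370763052 1) ndF4q1 ndF2q2b pcF1 Cut.none Ext.none)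

def k0_pm_112_b : ∃ t, chk3 f_pm_112_b t 1 1 1 = true :=
  ⟨(l 4), by decide +kernel⟩

theorem c_pm_112_b : CertF 536870912 536870912 1239849684 370763052 67108864 67108864 false true false .dn 1 1 2
    ndF4q1 ndF2q2b pcF1 Cut.none Ext.none :=
  certFK0 (fam := false) (s1 := true) (s2 := false) (a := 1) (b := 1) (c := 2) (cn := .dn) (n1 := ndF4q1) (n2 := ndF2q2b) (pc := pcF1) (cut := Cut.none) (xt := Ext.none) (P1 := 536870912) (W1 := 536870912) (P2 := 1239849684) (W2 := 370763052) (P3 := 67108864) (W3 := 67108864)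
    rfl rfl rfl k0_pm_112_b

noncomputable def f_pm_113 : ℕ → ℕ → ℕ → ℕ → Bool := onCell 536870912 536870912 1610612736 536870912 67108864 67108864
    (rowFK 0 false true false .nn 1 1 3 (qsf 536870912 536870912 1610612736 536870912 1) ndF4q1 ndF2q3 pcF1 Cut.none Ext.none)

def k0_pm_113 : ∃ t, chk3 f_pm_113 t 1 1 1 = true :=
  ⟨(a (l 4) (b (l 4) (b (l 4) (b (l 4) (b (l 4) (l 17020752)))))), by decide +kernel⟩

theorem c_pm_113 : CertF 536870912 536870912 1610612736 536870912 67108864 67108864 false true false .nn 1 1 3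
    ndF4q1 ndF2q3 pcF1 Cut.none Ext.none :=
  certFK0 (fam := false) (s1 := true) (s2 := false) (a := 1) (b := 1) (c := 3) (cn := .nn) (n1 := ndF4q1) (n2 := ndF2q3) (pc := pcF1) (cut := Cut.none) (xt := Ext.none) (P1 := 536870912) (W1 := 536870912) (P2 := 1610612736) (W2 := 536870912) (P3 := 67108864) (W3 := 67108864)
    rfl rfl rfl k0_pm_113

noncomputable def f_pm_123 : ℕ → ℕ → ℕ → ℕ → Bool := onCell 1073741824 536870912 1610612736 536870912 67108864 67108864
    (rowFK 2 false true false .npn 1 2 3 (qsf 536870912 536870912 1610612736 536870912 2) ndF4q1 ndF2q3 pcF2 Cut.none Ext.none)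

def k0_pm_123 : ∃ t, chk3 f_pm_123 t 1 1 1 = true :=
  ⟨(a (b (l 4) (a (l 17244592) (l 4))) (l 4)), by decide +kernel⟩

theorem c_pm_123 : CertF 536870912 536870912 1610612736 536870912 67108864 67108864 false true false .npn 1 2 3
    ndF4q1 ndF2q3 pcF2 Cut.none Ext.none :=
  certFK2 (fam := false) (s1 := true) (s2 := false) (a := 1) (b := 2) (c := 3) (cn := .npn) (n1 := ndF4q1) (n2 := ndF2q3) (pc := pcF2) (cut := Cut.none) (xt := Ext.none) (P1 := 536870912) (W1 := 536870912) (P2 := 1610612736) (W2 := 536870912) (P3 := 67108864) (W3 := 67108864)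
    rfl rfl rfl (fun _ => rfl) k0_pm_123

noncomputable def f_pm_133 : ℕ → ℕ → ℕ → ℕ → Bool := onCell 1610612736 536870912 1610612736 536870912 67108864 67108864
    (rowFK 2 false true false .dn 1 3 3 (qsf 536870912 536870912 1610612736 536870912 3) ndF4q1 ndF2q3 pcF3 Cut.none Ext.none)

def k0_pm_133 : ∃ t, chk3 f_pm_133 t 1 1 1 = true :=
  ⟨(l 4), by decide +kernel⟩

theorem c_pm_133 : CertF 536870912 536870912 1610612736 536870912 67108864 67108864 false true false .dn 1 3 3
    ndF4q1 ndF2q3 pcF3 Cut.none Ext.none :=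
  certFK2 (fam := false) (s1 := true) (s2 := false) (a := 1) (b := 3) (c := 3) (cn := .dn) (n1 := ndF4q1) (n2 := ndF2q3) (pc := pcF3) (cut := Cut.none) (xt := Ext.none) (P1 := 536870912) (W1 := 536870912) (P2 := 1610612736) (W2 := 536870912) (P3 := 67108864) (W3 := 67108864)
    rfl rfl rfl (fun _ => rfl) k0_pm_133

noncomputable def f_pm_202_a : ℕ → ℕ → ℕ → ℕ → Bool := onCell 0 536870912 0 536870912 67108864 67108864
    (rowFK 2 false true false .pp 2 0 2 (qsf 1073741824 536870912 0 536870912 0) ndF4q2 ndF2q2a pcF0 Cut.none Ext.none)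

def k0_pm_202_a : ∃ t, chk3 f_pm_202_a t 1 1 1 = true :=
  ⟨(l 4), by decide +kernel⟩

theorem c_pm_202_a : CertF 1073741824 536870912 0 536870912 67108864 67108864 false true false .pp 2 0 2
    ndF4q2 ndF2q2a pcF0 Cut.none Ext.none :=
  certFK2 (fam := false) (s1 := true) (s2 := false) (a := 2) (b := 0) (c := 2) (cn := .pp) (n1 := ndF4q2) (n2 := ndF2q2a) (pc := pcF0) (cut := Cut.none) (xt := Ext.none) (P1 := 1073741824) (W1 := 536870912) (P2 := 0) (W2 := 536870912) (P3 := 67108864) (W3 := 67108864)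
    rfl rfl rfl (fun _ => rfl) k0_pm_202_a

noncomputable def f_pm_202_b : ℕ → ℕ → ℕ → ℕ → Bool := onCell 0 536870912 1239849684 370763052 67108864 67108864
    (rowFK 2 false true false .pp 2 0 2 (qsf 1073741824 536870912 1239849684 370763052 0) ndF4q2 ndF2q2b pcF0 Cut.none Ext.none)

def k0_pm_202_b : ∃ t, chk3 f_pm_202_b t 1 1 1 = true :=
  ⟨(a (b (l 4) (a (l 18086488) (l 18456336))) (l 4)), by decide +kernel⟩

theorem c_pm_202_b : CertF 1073741824 536870912 1239849684 370763052 67108864 67108864 false true false .pp 2 0 2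
    ndF4q2 ndF2q2b pcF0 Cut.none Ext.none :=
  certFK2 (fam := false) (s1 := true) (s2 := false) (a := 2) (b := 0) (c := 2) (cn := .pp) (n1 := ndF4q2) (n2 := ndF2q2b) (pc := pcF0) (cut := Cut.none) (xt := Ext.none) (P1 := 1073741824) (W1 := 536870912) (P2 := 1239849684) (W2 := 370763052) (P3 := 67108864) (W3 := 67108864)
    rfl rfl rfl (fun _ => rfl) k0_pm_202_b

noncomputable def f_pm_203 : ℕ → ℕ → ℕ → ℕ → Bool := onCell 1073741824 536870912 0 536870912 67108864 67108864
    (rowFK 1 false true false .up 2 0 3 (qsf 1073741824 536870912 1610612736 536870912 0) ndF4q2 ndF2q3 pcF0 Cut.none Ext.none)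

def k0_pm_203 : ∃ t, chk3 f_pm_203 t 1 1 1 = true :=
  ⟨(b (a (l 4) (b (a (l 19851144) (l 19163264)) (a (l 19251192) (b (l 18620480) (l 18162768))))) (a (b (l 574155515831) (a (l 4) (l 18293520))) (b (a (l 18314384) (l 17896552)) (a (l 17973160) (b (l 17537648) (l 17698928)))))), by decide +kernel⟩

theorem c_pm_203 : CertF 1073741824 536870912 1610612736 536870912 67108864 67108864 false true false .up 2 0 3
    ndF4q2 ndF2q3 pcF0 Cut.none Ext.none :=
  certFK1 (fam := false) (s1 := true) (s2 := false) (a := 2) (b := 0) (c := 3) (cn := .up) (n1 := ndF4q2) (n2 := ndF2q3) (pc := pcF0) (cut := Cut.none) (xt := Ext.none) (P1 := 1073741824) (W1 := 536870912) (P2 := 1610612736) (W2 := 536870912) (P3 := 67108864) (W3 := 67108864)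
    rfl rfl rfl (fun _ => rfl) k0_pm_203

noncomputable def f_pm_213 : ℕ → ℕ → ℕ → ℕ → Bool := onCell 536870912 536870912 1610612736 536870912 67108864 67108864
    (rowFK 2 false true false .pnn 2 1 3 (qsf 1073741824 536870912 1610612736 536870912 1) ndF4q2 ndF2q3 pcF1 Cut.none Ext.none)

def k0_pm_213 : ∃ t, chk3 f_pm_213 t 1 1 1 = true :=
  ⟨(a (b (b (l 4) (l 18213448)) (a (b (b (l 17544072) (a (l 17655024) (l 17668032))) (b (a (l 18508000) (l 18521312)) (l 18578264))) (b (a (l 17733520) (l 17359488)) (b (a (l 18175256) (l 17991464)) (a (l 18602552) (l 17996016)))))) (b (l 4) (b (l 17421760) (a (a (b (l 17379968) (l 17688120)) (l 17363608)) (a (l 17211720) (a (l 17199768) (l 17224840))))))), by decide +kernel⟩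

theorem c_pm_213 : CertF 1073741824 536870912 1610612736 536870912 67108864 67108864 false true false .pnn 2 1 3
    ndF4q2 ndF2q3 pcF1 Cut.none Ext.none :=
  certFK2 (fam := false) (s1 := true) (s2 := false) (a := 2) (b := 1) (c := 3) (cn := .pnn) (n1 := ndF4q2) (n2 := ndF2q3) (pc := pcF1) (cut := Cut.none) (xt := Ext.none) (P1 := 1073741824) (W1 := 536870912) (P2 := 1610612736) (W2 := 536870912) (P3 := 67108864) (W3 := 67108864)
    rfl rfl rfl (fun _ => rfl) k0_pm_213

noncomputable def f_pm_303 : ℕ → ℕ → ℕ → ℕ → Bool := onCell 0 1230186008 1610612736 536870912 67108864 67108864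
    (rowFK 0 false true false .npn 3 0 3 (qsf 0 1230186008 1610612736 536870912 0) ndF4q3 ndF2q3 pcF0 Cut.none Ext.none)

def k0_pm_303 : ∃ t, chk3 f_pm_303 t 1 1 1 = true :=
  ⟨(b (a (l 1) (a (a (l 1) (b (l 1) (b (l 1) (a (l 1) (l 17591856))))) (a (b (l 1) (b (a (b (l 1) (l 17424096)) (l 17848800)) (a (l 17550288) (l 17520184)))) (b (a (l 18213872) (l 18572832)) (a (b (l 18075536) (l 17594128)) (b (l 18119392) (l 17675840))))))) (a (l 3) (a (b (a (l 3) (b (b (l 18535192) (l 247132006295)) (l 18285096))) (a (l 3) (l 261089211495))) (a (b (b (l 18055536) (a (l 18020792) (l 17914120))) (a (l 17688472) (l 17507720))) (b (a (b (l 17557808) (l 17465424)) (l 17514848)) (a (l 17504600) (l 17526152))))))), by decide +kernel⟩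

theorem c_pm_303 : CertF 0 1230186008 1610612736 536870912 67108864 67108864 false true false .npn 3 0 3
    ndF4q3 ndF2q3 pcF0 Cut.none Ext.none :=
  certFK0 (fam := false) (s1 := true) (s2 := false) (a := 3) (b := 0) (c := 3) (cn := .npn) (n1 := ndF4q3) (n2 := ndF2q3) (pc := pcF0) (cut := Cut.none) (xt := Ext.none) (P1 := 0) (W1 := 1230186008) (P2 := 1610612736) (W2 := 536870912) (P3 := 67108864) (W3 := 67108864)
    rfl rfl rfl k0_pm_303

noncomputable def f_pm_313 : ℕ → ℕ → ℕ → ℕ → Bool := onCell 0 1230186008 1610612736 536870912 67108864 67108864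
    (rowFK 0 false true false .dn 3 1 3 (qsf 0 1230186008 1610612736 536870912 1) ndF4q3 ndF2q3 pcF1 Cut.none Ext.none)

def k0_pm_313 : ∃ t, chk3 f_pm_313 t 1 1 1 = true :=
  ⟨(a (l 1) (a (l 1) (b (l 1) (a (l 1) (b (l 1) (a (l 1) (l 18285576))))))), by decide +kernel⟩

theorem c_pm_313 : CertF 0 1230186008 1610612736 536870912 67108864 67108864 false true false .dn 3 1 3
    ndF4q3 ndF2q3 pcF1 Cut.none Ext.none :=
  certFK0 (fam := false) (s1 := true) (s2 := false) (a := 3) (b := 1) (c := 3) (cn := .dn) (n1 := ndF4q3) (n2 := ndF2q3) (pc := pcF1) (cut := Cut.none) (xt := Ext.none) (P1 := 0) (W1 := 1230186008) (P2 := 1610612736) (W2 := 536870912) (P3 := 67108864) (W3 := 67108864)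
    rfl rfl rfl k0_pm_313

noncomputable def f_mm_001 : ℕ → ℕ → ℕ → ℕ → Bool := onCell 0 536870912 536870912 536870912 67108864 67108864
    (rowFK 0 false false false .up 0 0 1 (qsf 0 536870912 536870912 536870912 0) ndF4q0 ndF2q1 pcF0 Cut.none Ext.none)

def k0_mm_001 : ∃ t, chk3 f_mm_001 t 1 1 1 = true :=
  ⟨(l 3), by decide +kernel⟩

theorem c_mm_001 : CertF 0 536870912 536870912 536870912 67108864 67108864 false false false .up 0 0 1
    ndF4q0 ndF2q1 pcF0 Cut.none Ext.none :=
  certFK0 (fam := false) (s1 := false) (s2 := false) (a := 0) (b := 0) (c := 1) (cn := .up) (n1 := ndF4q0) (n2 := ndF2q1) (pc := pcF0) (cut := Cut.none) (xt := Ext.none) (P1 := 0) (W1 := 536870912) (P2 := 536870912) (W2 := 536870912) (P3 := 67108864) (W3 := 67108864)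
    rfl rfl rfl k0_mm_001

noncomputable def f_mm_011 : ℕ → ℕ → ℕ → ℕ → Bool := onCell 0 536870912 536870912 536870912 67108864 67108864
    (rowFK 0 false false false .pnn 0 1 1 (qsf 0 536870912 536870912 536870912 1) ndF4q0 ndF2q1 pcF1 Cut.none Ext.none)

def k0_mm_011 : ∃ t, chk3 f_mm_011 t 1 1 1 = true :=
  ⟨(l 3), by decide +kernel⟩

theorem c_mm_011 : CertF 0 536870912 536870912 536870912 67108864 67108864 false false false .pnn 0 1 1
    ndF4q0 ndF2q1 pcF1 Cut.none Ext.none :=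
  certFK0 (fam := false) (s1 := false) (s2 := false) (a := 0) (b := 1) (c := 1) (cn := .pnn) (n1 := ndF4q0) (n2 := ndF2q1) (pc := pcF1) (cut := Cut.none) (xt := Ext.none) (P1 := 0) (W1 := 536870912) (P2 := 536870912) (W2 := 536870912) (P3 := 67108864) (W3 := 67108864)
    rfl rfl rfl k0_mm_011

noncomputable def f_mm_012_a : ℕ → ℕ → ℕ → ℕ → Bool := onCell 0 536870912 0 536870912 67108864 67108864
    (rowFK 0 false false false .pnp 0 1 2 (qsf 0 536870912 0 536870912 1) ndF4q0 ndF2q2a pcF1 Cut.none Ext.none)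

def k0_mm_012_a : ∃ t, chk3 f_mm_012_a t 1 1 1 = true :=
  ⟨(l 5), by decide +kernel⟩

theorem c_mm_012_a : CertF 0 536870912 0 536870912 67108864 67108864 false false false .pnp 0 1 2
    ndF4q0 ndF2q2a pcF1 Cut.none Ext.none :=
  certFK0 (fam := false) (s1 := false) (s2 := false) (a := 0) (b := 1) (c := 2) (cn := .pnp) (n1 := ndF4q0) (n2 := ndF2q2a) (pc := pcF1) (cut := Cut.none) (xt := Ext.none) (P1 := 0) (W1 := 536870912) (P2 := 0) (W2 := 536870912) (P3 := 67108864) (W3 := 67108864)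
    rfl rfl rfl k0_mm_012_a

noncomputable def f_mm_012_b : ℕ → ℕ → ℕ → ℕ → Bool := onCell 0 536870912 1239849684 370763052 67108864 67108864
    (rowFK 0 false false false .pnp 0 1 2 (qsf 0 536870912 1239849684 370763052 1) ndF4q0 ndF2q2b pcF1 Cut.none Ext.none)

def k0_mm_012_b : ∃ t, chk3 f_mm_012_b t 1 1 1 = true :=
  ⟨(l 5), by decide +kernel⟩

theorem c_mm_012_b : CertF 0 536870912 1239849684 370763052 67108864 67108864 false false false .pnp 0 1 2
    ndF4q0 ndF2q2b pcF1 Cut.none Ext.none :=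
  certFK0 (fam := false) (s1 := false) (s2 := false) (a := 0) (b := 1) (c := 2) (cn := .pnp) (n1 := ndF4q0) (n2 := ndF2q2b) (pc := pcF1) (cut := Cut.none) (xt := Ext.none) (P1 := 0) (W1 := 536870912) (P2 := 1239849684) (W2 := 370763052) (P3 := 67108864) (W3 := 67108864)
    rfl rfl rfl k0_mm_012_b

noncomputable def f_mm_022_a : ℕ → ℕ → ℕ → ℕ → Bool := onCell 0 536870912 0 536870912 67108864 67108864
    (rowFK 0 false false false .pp 0 2 2 (qsf 0 536870912 0 536870912 2) ndF4q0 ndF2q2a pcF2 Cut.none Ext.none)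

def k0_mm_022_a : ∃ t, chk3 f_mm_022_a t 1 1 1 = true :=
  ⟨(l 5), by decide +kernel⟩

theorem c_mm_022_a : CertF 0 536870912 0 536870912 67108864 67108864 false false false .pp 0 2 2
    ndF4q0 ndF2q2a pcF2 Cut.none Ext.none :=
  certFK0 (fam := false) (s1 := false) (s2 := false) (a := 0) (b := 2) (c := 2) (cn := .pp) (n1 := ndF4q0) (n2 := ndF2q2a) (pc := pcF2) (cut := Cut.none) (xt := Ext.none) (P1 := 0) (W1 := 536870912) (P2 := 0) (W2 := 536870912) (P3 := 67108864) (W3 := 67108864)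
    rfl rfl rfl k0_mm_022_a

noncomputable def f_mm_022_b : ℕ → ℕ → ℕ → ℕ → Bool := onCell 0 536870912 1239849684 370763052 67108864 67108864
    (rowFK 0 false false false .pp 0 2 2 (qsf 0 536870912 1239849684 370763052 2) ndF4q0 ndF2q2b pcF2 Cut.none Ext.none)

def k0_mm_022_b : ∃ t, chk3 f_mm_022_b t 1 1 1 = true :=
  ⟨(l 5), by decide +kernel⟩

theorem c_mm_022_b : CertF 0 536870912 1239849684 370763052 67108864 67108864 false false false .pp 0 2 2
    ndF4q0 ndF2q2b pcF2 Cut.none Ext.none :=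
  certFK0 (fam := false) (s1 := false) (s2 := false) (a := 0) (b := 2) (c := 2) (cn := .pp) (n1 := ndF4q0) (n2 := ndF2q2b) (pc := pcF2) (cut := Cut.none) (xt := Ext.none) (P1 := 0) (W1 := 536870912) (P2 := 1239849684) (W2 := 370763052) (P3 := 67108864) (W3 := 67108864)
    rfl rfl rfl k0_mm_022_b

noncomputable def f_mm_023 : ℕ → ℕ → ℕ → ℕ → Bool := onCell 0 536870912 1610612736 536870912 67108864 67108864
    (rowFK 0 false false false .up 0 2 3 (qsf 0 536870912 1610612736 536870912 2) ndF4q0 ndF2q3 pcF2 Cut.none Ext.none)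

def k0_mm_023 : ∃ t, chk3 f_mm_023 t 1 1 1 = true :=
  ⟨(l 5), by decide +kernel⟩

theorem c_mm_023 : CertF 0 536870912 1610612736 536870912 67108864 67108864 false false false .up 0 2 3
    ndF4q0 ndF2q3 pcF2 Cut.none Ext.none :=
  certFK0 (fam := false) (s1 := false) (s2 := false) (a := 0) (b := 2) (c := 3) (cn := .up) (n1 := ndF4q0) (n2 := ndF2q3) (pc := pcF2) (cut := Cut.none) (xt := Ext.none) (P1 := 0) (W1 := 536870912) (P2 := 1610612736) (W2 := 536870912) (P3 := 67108864) (W3 := 67108864)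
    rfl rfl rfl k0_mm_023

noncomputable def f_mm_033 : ℕ → ℕ → ℕ → ℕ → Bool := onCell 0 536870912 1610612736 536870912 67108864 67108864
    (rowFK 0 false false false .pnn 0 3 3 (qsf 0 536870912 1610612736 536870912 3) ndF4q0 ndF2q3 pcF3 Cut.none Ext.none)

def k0_mm_033 : ∃ t, chk3 f_mm_033 t 1 1 1 = true :=
  ⟨(l 5), by decide +kernel⟩

theorem c_mm_033 : CertF 0 536870912 1610612736 536870912 67108864 67108864 false false false .pnn 0 3 3
    ndF4q0 ndF2q3 pcF3 Cut.none Ext.none :=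
  certFK0 (fam := false) (s1 := false) (s2 := false) (a := 0) (b := 3) (c := 3) (cn := .pnn) (n1 := ndF4q0) (n2 := ndF2q3) (pc := pcF3) (cut := Cut.none) (xt := Ext.none) (P1 := 0) (W1 := 536870912) (P2 := 1610612736) (W2 := 536870912) (P3 := 67108864) (W3 := 67108864)
    rfl rfl rfl k0_mm_033

noncomputable def f_mm_101 : ℕ → ℕ → ℕ → ℕ → Bool := onCell 536870912 536870912 536870912 536870912 67108864 67108864
    (rowFK 0 false false false .npn 1 0 1 (qsf 536870912 536870912 536870912 536870912 0) ndF4q1 ndF2q1 pcF0 Cut.none Ext.none)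

def k0_mm_101 : ∃ t, chk3 f_mm_101 t 1 1 1 = true :=
  ⟨(l 3), by decide +kernel⟩

theorem c_mm_101 : CertF 536870912 536870912 536870912 536870912 67108864 67108864 false false false .npn 1 0 1
    ndF4q1 ndF2q1 pcF0 Cut.none Ext.none :=
  certFK0 (fam := false) (s1 := false) (s2 := false) (a := 1) (b := 0) (c := 1) (cn := .npn) (n1 := ndF4q1) (n2 := ndF2q1) (pc := pcF0) (cut := Cut.none) (xt := Ext.none) (P1 := 536870912) (W1 := 536870912) (P2 := 536870912) (W2 := 536870912) (P3 := 67108864) (W3 := 67108864)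
    rfl rfl rfl k0_mm_101

noncomputable def f_mm_102_a : ℕ → ℕ → ℕ → ℕ → Bool := onCell 536870912 536870912 0 536870912 67108864 67108864
    (rowFK 0 false false false .npp 1 0 2 (qsf 536870912 536870912 0 536870912 0) ndF4q1 ndF2q2a pcF0 Cut.none Ext.none)

def k0_mm_102_a : ∃ t, chk3 f_mm_102_a t 1 1 1 = true :=
  ⟨(l 5), by decide +kernel⟩

theorem c_mm_102_a : CertF 536870912 536870912 0 536870912 67108864 67108864 false false false .npp 1 0 2
    ndF4q1 ndF2q2a pcF0 Cut.none Ext.none :=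
  certFK0 (fam := false) (s1 := false) (s2 := false) (a := 1) (b := 0) (c := 2) (cn := .npp) (n1 := ndF4q1) (n2 := ndF2q2a) (pc := pcF0) (cut := Cut.none) (xt := Ext.none) (P1 := 536870912) (W1 := 536870912) (P2 := 0) (W2 := 536870912) (P3 := 67108864) (W3 := 67108864)
    rfl rfl rfl k0_mm_102_a

noncomputable def f_mm_102_b : ℕ → ℕ → ℕ → ℕ → Bool := onCell 536870912 536870912 1239849684 370763052 67108864 67108864
    (rowFK 0 false false false .npp 1 0 2 (qsf 536870912 536870912 1239849684 370763052 0) ndF4q1 ndF2q2b pcF0 Cut.none Ext.none)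

def k0_mm_102_b : ∃ t, chk3 f_mm_102_b t 1 1 1 = true :=
  ⟨(l 5), by decide +kernel⟩

theorem c_mm_102_b : CertF 536870912 536870912 1239849684 370763052 67108864 67108864 false false false .npp 1 0 2
    ndF4q1 ndF2q2b pcF0 Cut.none Ext.none :=
  certFK0 (fam := false) (s1 := false) (s2 := false) (a := 1) (b := 0) (c := 2) (cn := .npp) (n1 := ndF4q1) (n2 := ndF2q2b) (pc := pcF0) (cut := Cut.none) (xt := Ext.none) (P1 := 536870912) (W1 := 536870912) (P2 := 1239849684) (W2 := 370763052) (P3 := 67108864) (W3 := 67108864)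
    rfl rfl rfl k0_mm_102_b

noncomputable def f_mm_112_a : ℕ → ℕ → ℕ → ℕ → Bool := onCell 536870912 536870912 0 536870912 67108864 67108864
    (rowFK 0 false false false .dn 1 1 2 (qsf 536870912 536870912 0 536870912 1) ndF4q1 ndF2q2a pcF1 Cut.none Ext.none)

def k0_mm_112_a : ∃ t, chk3 f_mm_112_a t 1 1 1 = true :=
  ⟨(l 5), by decide +kernel⟩

theorem c_mm_112_a : CertF 536870912 536870912 0 536870912 67108864 67108864 false false false .dn 1 1 2
    ndF4q1 ndF2q2a pcF1 Cut.none Ext.none :=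
  certFK0 (fam := false) (s1 := false) (s2 := false) (a := 1) (b := 1) (c := 2) (cn := .dn) (n1 := ndF4q1) (n2 := ndF2q2a) (pc := pcF1) (cut := Cut.none) (xt := Ext.none) (P1 := 536870912) (W1 := 536870912) (P2 := 0) (W2 := 536870912) (P3 := 67108864) (W3 := 67108864)
    rfl rfl rfl k0_mm_112_a

noncomputable def f_mm_112_b : ℕ → ℕ → ℕ → ℕ → Bool := onCell 536870912 536870912 1239849684 370763052 67108864 67108864
    (rowFK 0 false false false .dn 1 1 2 (qsf 536870912 536870912 1239849684 370763052 1) ndF4q1 ndF2q2b pcF1 Cut.none Ext.none)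

def k0_mm_112_b : ∃ t, chk3 f_mm_112_b t 1 1 1 = true :=
  ⟨(l 5), by decide +kernel⟩

theorem c_mm_112_b : CertF 536870912 536870912 1239849684 370763052 67108864 67108864 false false false .dn 1 1 2
    ndF4q1 ndF2q2b pcF1 Cut.none Ext.none :=
  certFK0 (fam := false) (s1 := false) (s2 := false) (a := 1) (b := 1) (c := 2) (cn := .dn) (n1 := ndF4q1) (n2 := ndF2q2b) (pc := pcF1) (cut := Cut.none) (xt := Ext.none) (P1 := 536870912) (W1 := 536870912) (P2 := 1239849684) (W2 := 370763052) (P3 := 67108864) (W3 := 67108864)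
    rfl rfl rfl k0_mm_112_b

noncomputable def f_mm_113 : ℕ → ℕ → ℕ → ℕ → Bool := onCell 536870912 536870912 1610612736 536870912 67108864 67108864
    (rowFK 0 false false false .nn 1 1 3 (qsf 536870912 536870912 1610612736 536870912 1) ndF4q1 ndF2q3 pcF1 Cut.none Ext.none)

def k0_mm_113 : ∃ t, chk3 f_mm_113 t 1 1 1 = true :=
  ⟨(l 5), by decide +kernel⟩

theorem c_mm_113 : CertF 536870912 536870912 1610612736 536870912 67108864 67108864 false false false .nn 1 1 3
    ndF4q1 ndF2q3 pcF1 Cut.none Ext.none :=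
  certFK0 (fam := false) (s1 := false) (s2 := false) (a := 1) (b := 1) (c := 3) (cn := .nn) (n1 := ndF4q1) (n2 := ndF2q3) (pc := pcF1) (cut := Cut.none) (xt := Ext.none) (P1 := 536870912) (W1 := 536870912) (P2 := 1610612736) (W2 := 536870912) (P3 := 67108864) (W3 := 67108864)
    rfl rfl rfl k0_mm_113

noncomputable def f_mm_123 : ℕ → ℕ → ℕ → ℕ → Bool := onCell 536870912 536870912 1610612736 536870912 67108864 67108864
    (rowFK 0 false false false .npn 1 2 3 (qsf 536870912 536870912 1610612736 536870912 2) ndF4q1 ndF2q3 pcF2 Cut.none Ext.none)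

def k0_mm_123 : ∃ t, chk3 f_mm_123 t 1 1 1 = true :=
  ⟨(l 5), by decide +kernel⟩

theorem c_mm_123 : CertF 536870912 536870912 1610612736 536870912 67108864 67108864 false false false .npn 1 2 3
    ndF4q1 ndF2q3 pcF2 Cut.none Ext.none :=
  certFK0 (fam := false) (s1 := false) (s2 := false) (a := 1) (b := 2) (c := 3) (cn := .npn) (n1 := ndF4q1) (n2 := ndF2q3) (pc := pcF2) (cut := Cut.none) (xt := Ext.none) (P1 := 536870912) (W1 := 536870912) (P2 := 1610612736) (W2 := 536870912) (P3 := 67108864) (W3 := 67108864)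
    rfl rfl rfl k0_mm_123

noncomputable def f_mm_133 : ℕ → ℕ → ℕ → ℕ → Bool := onCell 536870912 536870912 1610612736 536870912 67108864 67108864
    (rowFK 0 false false false .dn 1 3 3 (qsf 536870912 536870912 1610612736 536870912 3) ndF4q1 ndF2q3 pcF3 Cut.none Ext.none)

def k0_mm_133 : ∃ t, chk3 f_mm_133 t 1 1 1 = true :=
  ⟨(l 5), by decide +kernel⟩

theorem c_mm_133 : CertF 536870912 536870912 1610612736 536870912 67108864 67108864 false false false .dn 1 3 3
    ndF4q1 ndF2q3 pcF3 Cut.none Ext.none :=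
  certFK0 (fam := false) (s1 := false) (s2 := false) (a := 1) (b := 3) (c := 3) (cn := .dn) (n1 := ndF4q1) (n2 := ndF2q3) (pc := pcF3) (cut := Cut.none) (xt := Ext.none) (P1 := 536870912) (W1 := 536870912) (P2 := 1610612736) (W2 := 536870912) (P3 := 67108864) (W3 := 67108864)
    rfl rfl rfl k0_mm_133

noncomputable def f_mm_202_a : ℕ → ℕ → ℕ → ℕ → Bool := onCell 1073741824 536870912 0 536870912 67108864 67108864
    (rowFK 0 false false false .pp 2 0 2 (qsf 1073741824 536870912 0 536870912 0) ndF4q2 ndF2q2a pcF0 Cut.none Ext.none)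

def k0_mm_202_a : ∃ t, chk3 f_mm_202_a t 1 1 1 = true :=
  ⟨(l 5), by decide +kernel⟩

theorem c_mm_202_a : CertF 1073741824 536870912 0 536870912 67108864 67108864 false false false .pp 2 0 2
    ndF4q2 ndF2q2a pcF0 Cut.none Ext.none :=
  certFK0 (fam := false) (s1 := false) (s2 := false) (a := 2) (b := 0) (c := 2) (cn := .pp) (n1 := ndF4q2) (n2 := ndF2q2a) (pc := pcF0) (cut := Cut.none) (xt := Ext.none) (P1 := 1073741824) (W1 := 536870912) (P2 := 0) (W2 := 536870912) (P3 := 67108864) (W3 := 67108864)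
    rfl rfl rfl k0_mm_202_a

noncomputable def f_mm_202_b : ℕ → ℕ → ℕ → ℕ → Bool := onCell 1073741824 536870912 1239849684 370763052 67108864 67108864
    (rowFK 0 false false false .pp 2 0 2 (qsf 1073741824 536870912 1239849684 370763052 0) ndF4q2 ndF2q2b pcF0 Cut.none Ext.none)

def k0_mm_202_b : ∃ t, chk3 f_mm_202_b t 1 1 1 = true :=
  ⟨(l 5), by decide +kernel⟩

theorem c_mm_202_b : CertF 1073741824 536870912 1239849684 370763052 67108864 67108864 false false false .pp 2 0 2
    ndF4q2 ndF2q2b pcF0 Cut.none Ext.none :=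
  certFK0 (fam := false) (s1 := false) (s2 := false) (a := 2) (b := 0) (c := 2) (cn := .pp) (n1 := ndF4q2) (n2 := ndF2q2b) (pc := pcF0) (cut := Cut.none) (xt := Ext.none) (P1 := 1073741824) (W1 := 536870912) (P2 := 1239849684) (W2 := 370763052) (P3 := 67108864) (W3 := 67108864)
    rfl rfl rfl k0_mm_202_b

noncomputable def f_mm_203 : ℕ → ℕ → ℕ → ℕ → Bool := onCell 1073741824 536870912 1610612736 536870912 67108864 67108864
    (rowFK 0 false false false .up 2 0 3 (qsf 1073741824 536870912 1610612736 536870912 0) ndF4q2 ndF2q3 pcF0 Cut.none Ext.none)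

def k0_mm_203 : ∃ t, chk3 f_mm_203 t 1 1 1 = true :=
  ⟨(l 5), by decide +kernel⟩

theorem c_mm_203 : CertF 1073741824 536870912 1610612736 536870912 67108864 67108864 false false false .up 2 0 3
    ndF4q2 ndF2q3 pcF0 Cut.none Ext.none :=
  certFK0 (fam := false) (s1 := false) (s2 := false) (a := 2) (b := 0) (c := 3) (cn := .up) (n1 := ndF4q2) (n2 := ndF2q3) (pc := pcF0) (cut := Cut.none) (xt := Ext.none) (P1 := 1073741824) (W1 := 536870912) (P2 := 1610612736) (W2 := 536870912) (P3 := 67108864) (W3 := 67108864)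
    rfl rfl rfl k0_mm_203

noncomputable def f_mm_213 : ℕ → ℕ → ℕ → ℕ → Bool := onCell 1073741824 536870912 1610612736 536870912 67108864 67108864
    (rowFK 0 false false false .pnn 2 1 3 (qsf 1073741824 536870912 1610612736 536870912 1) ndF4q2 ndF2q3 pcF1 Cut.none Ext.none)

def k0_mm_213 : ∃ t, chk3 f_mm_213 t 1 1 1 = true :=
  ⟨(l 5), by decide +kernel⟩

theorem c_mm_213 : CertF 1073741824 536870912 1610612736 536870912 67108864 67108864 false false false .pnn 2 1 3
    ndF4q2 ndF2q3 pcF1 Cut.none Ext.none :=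
  certFK0 (fam := false) (s1 := false) (s2 := false) (a := 2) (b := 1) (c := 3) (cn := .pnn) (n1 := ndF4q2) (n2 := ndF2q3) (pc := pcF1) (cut := Cut.none) (xt := Ext.none) (P1 := 1073741824) (W1 := 536870912) (P2 := 1610612736) (W2 := 536870912) (P3 := 67108864) (W3 := 67108864)
    rfl rfl rfl k0_mm_213

noncomputable def f_mm_303 : ℕ → ℕ → ℕ → ℕ → Bool := onCell 0 1230186008 1610612736 536870912 67108864 67108864
    (rowFK 0 false false false .npn 3 0 3 (qsf 0 1230186008 1610612736 536870912 0) ndF4q3 ndF2q3 pcF0 Cut.none Ext.none)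

def k0_mm_303 : ∃ t, chk3 f_mm_303 t 1 1 1 = true :=
  ⟨(a (l 3) (a (l 3) (l 5))), by decide +kernel⟩

theorem c_mm_303 : CertF 0 1230186008 1610612736 536870912 67108864 67108864 false false false .npn 3 0 3
    ndF4q3 ndF2q3 pcF0 Cut.none Ext.none :=
  certFK0 (fam := false) (s1 := false) (s2 := false) (a := 3) (b := 0) (c := 3) (cn := .npn) (n1 := ndF4q3) (n2 := ndF2q3) (pc := pcF0) (cut := Cut.none) (xt := Ext.none) (P1 := 0) (W1 := 1230186008) (P2 := 1610612736) (W2 := 536870912) (P3 := 67108864) (W3 := 67108864)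
    rfl rfl rfl k0_mm_303

noncomputable def f_mm_313 : ℕ → ℕ → ℕ → ℕ → Bool := onCell 0 1230186008 1610612736 536870912 67108864 67108864
    (rowFK 0 false false false .dn 3 1 3 (qsf 0 1230186008 1610612736 536870912 1) ndF4q3 ndF2q3 pcF1 Cut.none Ext.none)

def k0_mm_313 : ∃ t, chk3 f_mm_313 t 1 1 1 = true :=
  ⟨(a (l 1) (a (l 1) (l 5))), by decide +kernel⟩

theorem c_mm_313 : CertF 0 1230186008 1610612736 536870912 67108864 67108864 false false false .dn 3 1 3
    ndF4q3 ndF2q3 pcF1 Cut.none Ext.none :=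
  certFK0 (fam := false) (s1 := false) (s2 := false) (a := 3) (b := 1) (c := 3) (cn := .dn) (n1 := ndF4q3) (n2 := ndF2q3) (pc := pcF1) (cut := Cut.none) (xt := Ext.none) (P1 := 0) (W1 := 1230186008) (P2 := 1610612736) (W2 := 536870912) (P3 := 67108864) (W3 := 67108864)
    rfl rfl rfl k0_mm_313

end Pool.Agent.Strip051.G.I1_16_1_8.Tab.C.FB42

namespace Pool.Agent.Strip051.G.I1_16_1_8.Tab.C.FB43

open Pool.Agent.Strip051.PB Pool.Agent.Strip051.PB.T
open Pool.Agent.Strip051.G.I1_16_1_8.Tab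

noncomputable def f_pp_001 : ℕ → ℕ → ℕ → ℕ → Bool := onCell 0 536870912 536870912 536870912 67108864 67108864
    (rowFK 0 false true true .up 0 0 1 (qsf 0 536870912 536870912 536870912 0) ndF4q0 ndF3q1 pcF0 Cut.none Ext.none)

def k0_pp_001 : ∃ t, chk3 f_pp_001 t 1 1 1 = true :=
  ⟨(l 3), by decide +kernel⟩

theorem c_pp_001 : CertF 0 536870912 536870912 536870912 67108864 67108864 false true true .up 0 0 1
    ndF4q0 ndF3q1 pcF0 Cut.none Ext.none :=
  certFK0 (fam := false) (s1 := true) (s2 := true) (a := 0) (b := 0) (c := 1) (cn := .up) (n1 := ndF4q0) (n2 := ndF3q1) (pc := pcF0) (cut := Cut.none) (xt := Ext.none) (P1 := 0) (W1 := 536870912) (P2 := 536870912) (W2 := 536870912) (P3 := 67108864) (W3 := 67108864)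
    rfl rfl rfl k0_pp_001

noncomputable def f_pp_011 : ℕ → ℕ → ℕ → ℕ → Bool := onCell 0 536870912 536870912 536870912 67108864 67108864
    (rowFK 0 false true true .pnn 0 1 1 (qsf 0 536870912 536870912 536870912 1) ndF4q0 ndF3q1 pcF1 Cut.none Ext.none)

def k0_pp_011 : ∃ t, chk3 f_pp_011 t 1 1 1 = true :=
  ⟨(l 3), by decide +kernel⟩

theorem c_pp_011 : CertF 0 536870912 536870912 536870912 67108864 67108864 false true true .pnn 0 1 1
    ndF4q0 ndF3q1 pcF1 Cut.none Ext.none :=
  certFK0 (fam := false) (s1 := true) (s2 := true) (a := 0) (b := 1) (c := 1) (cn := .pnn) (n1 := ndF4q0) (n2 := ndF3q1) (pc := pcF1) (cut := Cut.none) (xt := Ext.none) (P1 := 0) (W1 := 536870912) (P2 := 536870912) (W2 := 536870912) (P3 := 67108864) (W3 := 67108864)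
    rfl rfl rfl k0_pp_011

noncomputable def f_pp_012 : ℕ → ℕ → ℕ → ℕ → Bool := onCell 0 536870912 536870912 536870912 67108864 67108864
    (rowFK 1 false true true .pnp 0 1 2 (qsf 0 536870912 1073741824 536870912 1) ndF4q0 ndF3q2 pcF1 Cut.none Ext.none)

def k0_pp_012 : ∃ t, chk3 f_pp_012 t 1 1 1 = true :=
  ⟨(b (a (b (l 1) (l 529392689863)) (b (l 3) (a (l 18678336) (l 18651336)))) (a (b (l 381753479767) (l 274379155735)) (b (a (l 18544976) (l 18492672)) (l 18388656)))), by decide +kernel⟩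

theorem c_pp_012 : CertF 0 536870912 1073741824 536870912 67108864 67108864 false true true .pnp 0 1 2
    ndF4q0 ndF3q2 pcF1 Cut.none Ext.none :=
  certFK1 (fam := false) (s1 := true) (s2 := true) (a := 0) (b := 1) (c := 2) (cn := .pnp) (n1 := ndF4q0) (n2 := ndF3q2) (pc := pcF1) (cut := Cut.none) (xt := Ext.none) (P1 := 0) (W1 := 536870912) (P2 := 1073741824) (W2 := 536870912) (P3 := 67108864) (W3 := 67108864)
    rfl rfl rfl (fun _ => rfl) k0_pp_012

noncomputable def f_pp_022 : ℕ → ℕ → ℕ → ℕ → Bool := onCell 0 536870912 1073741824 536870912 67108864 67108864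
    (rowFK 1 false true true .pp 0 2 2 (qsf 0 536870912 1073741824 536870912 2) ndF4q0 ndF3q2 pcF2 Cut.none Ext.none)

def k0_pp_022 : ∃ t, chk3 f_pp_022 t 1 1 1 = true :=
  ⟨(a (b (b (b (b (l 18862320) (l 18739816)) (l 18572048)) (l 18290288)) (b (l 18056720) (l 17768704))) (b (b (b (b (l 18305744) (l 18225976)) (l 18107392)) (l 17873448)) (b (l 17550024) (l 2)))), by decide +kernel⟩

theorem c_pp_022 : CertF 0 536870912 1073741824 536870912 67108864 67108864 false true true .pp 0 2 2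
    ndF4q0 ndF3q2 pcF2 Cut.none Ext.none :=
  certFK1 (fam := false) (s1 := true) (s2 := true) (a := 0) (b := 2) (c := 2) (cn := .pp) (n1 := ndF4q0) (n2 := ndF3q2) (pc := pcF2) (cut := Cut.none) (xt := Ext.none) (P1 := 0) (W1 := 536870912) (P2 := 1073741824) (W2 := 536870912) (P3 := 67108864) (W3 := 67108864)
    rfl rfl rfl (fun _ => rfl) k0_pp_022

noncomputable def f_pp_023 : ℕ → ℕ → ℕ → ℕ → Bool := onCell 1073741824 536870912 0 1230186008 67108864 67108864
    (rowFK 2 false true true .up 0 2 3 (qsf 0 536870912 0 1230186008 2) ndF4q0 ndF3q3 pcF2 Cut.none Ext.none)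

def k0_pp_023 : ∃ t, chk3 f_pp_023 t 1 1 1 = true :=
  ⟨(a (b (l 2) (a (b (l 2) (b (l 2) (l 17859824))) (b (l 17211200) (l 17713752)))) (b (a (l 2) (l 4)) (b (a (l 17144776) (l 16985520)) (a (l 17323536) (l 17012856))))), by decide +kernel⟩

theorem c_pp_023 : CertF 0 536870912 0 1230186008 67108864 67108864 false true true .up 0 2 3
    ndF4q0 ndF3q3 pcF2 Cut.none Ext.none :=
  certFK2 (fam := false) (s1 := true) (s2 := true) (a := 0) (b := 2) (c := 3) (cn := .up) (n1 := ndF4q0) (n2 := ndF3q3) (pc := pcF2) (cut := Cut.none) (xt := Ext.none) (P1 := 0) (W1 := 536870912) (P2 := 0) (W2 := 1230186008) (P3 := 67108864) (W3 := 67108864)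
    rfl rfl rfl (fun _ => rfl) k0_pp_023

noncomputable def f_pp_033 : ℕ → ℕ → ℕ → ℕ → Bool := onCell 1610612736 536870912 0 1230186008 67108864 67108864
    (rowFK 2 false true true .pnn 0 3 3 (qsf 0 536870912 0 1230186008 3) ndF4q0 ndF3q3 pcF3 Cut.none Ext.none)

def k0_pp_033 : ∃ t, chk3 f_pp_033 t 1 1 1 = true :=
  ⟨(b (l 4) (a (b (l 4) (a (b (l 17103064) (l 17299128)) (a (l 4) (l 4)))) (l 4))), by decide +kernel⟩

theorem c_pp_033 : CertF 0 536870912 0 1230186008 67108864 67108864 false true true .pnn 0 3 3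
    ndF4q0 ndF3q3 pcF3 Cut.none Ext.none :=
  certFK2 (fam := false) (s1 := true) (s2 := true) (a := 0) (b := 3) (c := 3) (cn := .pnn) (n1 := ndF4q0) (n2 := ndF3q3) (pc := pcF3) (cut := Cut.none) (xt := Ext.none) (P1 := 0) (W1 := 536870912) (P2 := 0) (W2 := 1230186008) (P3 := 67108864) (W3 := 67108864)
    rfl rfl rfl (fun _ => rfl) k0_pp_033

noncomputable def f_pp_101 : ℕ → ℕ → ℕ → ℕ → Bool := onCell 536870912 536870912 536870912 536870912 67108864 67108864
    (rowFK 0 false true true .npn 1 0 1 (qsf 536870912 536870912 536870912 536870912 0) ndF4q1 ndF3q1 pcF0 Cut.none Ext.none)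

def k0_pp_101 : ∃ t, chk3 f_pp_101 t 1 1 1 = true :=
  ⟨(l 3), by decide +kernel⟩

theorem c_pp_101 : CertF 536870912 536870912 536870912 536870912 67108864 67108864 false true true .npn 1 0 1
    ndF4q1 ndF3q1 pcF0 Cut.none Ext.none :=
  certFK0 (fam := false) (s1 := true) (s2 := true) (a := 1) (b := 0) (c := 1) (cn := .npn) (n1 := ndF4q1) (n2 := ndF3q1) (pc := pcF0) (cut := Cut.none) (xt := Ext.none) (P1 := 536870912) (W1 := 536870912) (P2 := 536870912) (W2 := 536870912) (P3 := 67108864) (W3 := 67108864)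
    rfl rfl rfl k0_pp_101

noncomputable def f_pp_102 : ℕ → ℕ → ℕ → ℕ → Bool := onCell 0 536870912 1073741824 536870912 67108864 67108864
    (rowFK 2 false true true .npp 1 0 2 (qsf 536870912 536870912 1073741824 536870912 0) ndF4q1 ndF3q2 pcF0 Cut.none Ext.none)

def k0_pp_102 : ∃ t, chk3 f_pp_102 t 1 1 1 = true :=
  ⟨(l 3), by decide +kernel⟩

theorem c_pp_102 : CertF 536870912 536870912 1073741824 536870912 67108864 67108864 false true true .npp 1 0 2
    ndF4q1 ndF3q2 pcF0 Cut.none Ext.none :=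
  certFK2 (fam := false) (s1 := true) (s2 := true) (a := 1) (b := 0) (c := 2) (cn := .npp) (n1 := ndF4q1) (n2 := ndF3q2) (pc := pcF0) (cut := Cut.none) (xt := Ext.none) (P1 := 536870912) (W1 := 536870912) (P2 := 1073741824) (W2 := 536870912) (P3 := 67108864) (W3 := 67108864)
    rfl rfl rfl (fun _ => rfl) k0_pp_102

noncomputable def f_pp_112 : ℕ → ℕ → ℕ → ℕ → Bool := onCell 536870912 536870912 1073741824 536870912 67108864 67108864
    (rowFK 2 false true true .dn 1 1 2 (qsf 536870912 536870912 1073741824 536870912 1) ndF4q1 ndF3q2 pcF1 Cut.none Ext.none)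

def k0_pp_112 : ∃ t, chk3 f_pp_112 t 1 1 1 = true :=
  ⟨(a (b (a (l 3) (l 18835728)) (a (l 872588382087) (l 18842632))) (b (a (l 18541928) (l 1)) (a (l 18521224) (l 18314136)))), by decide +kernel⟩

theorem c_pp_112 : CertF 536870912 536870912 1073741824 536870912 67108864 67108864 false true true .dn 1 1 2
    ndF4q1 ndF3q2 pcF1 Cut.none Ext.none :=
  certFK2 (fam := false) (s1 := true) (s2 := true) (a := 1) (b := 1) (c := 2) (cn := .dn) (n1 := ndF4q1) (n2 := ndF3q2) (pc := pcF1) (cut := Cut.none) (xt := Ext.none) (P1 := 536870912) (W1 := 536870912) (P2 := 1073741824) (W2 := 536870912) (P3 := 67108864) (W3 := 67108864)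
    rfl rfl rfl (fun _ => rfl) k0_pp_112

noncomputable def f_pp_113 : ℕ → ℕ → ℕ → ℕ → Bool := onCell 536870912 536870912 0 1230186008 67108864 67108864
    (rowFK 2 false true true .nn 1 1 3 (qsf 536870912 536870912 0 1230186008 1) ndF4q1 ndF3q3 pcF1 Cut.none Ext.none)

def k0_pp_113 : ∃ t, chk3 f_pp_113 t 1 1 1 = true :=
  ⟨(a (b (l 2) (b (a (l 2) (l 19210040)) (a (b (l 2) (l 18655696)) (b (l 18566752) (l 18117680))))) (a (b (l 2) (b (l 18476488) (l 17904352))) (a (b (b (l 2) (l 17825576)) (b (l 17875744) (l 17429432))) (b (a (l 17298760) (l 17155384)) (b (a (l 17583856) (l 17396160)) (a (l 17463600) (l 17604776))))))), by decide +kernel⟩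

theorem c_pp_113 : CertF 536870912 536870912 0 1230186008 67108864 67108864 false true true .nn 1 1 3
    ndF4q1 ndF3q3 pcF1 Cut.none Ext.none :=
  certFK2 (fam := false) (s1 := true) (s2 := true) (a := 1) (b := 1) (c := 3) (cn := .nn) (n1 := ndF4q1) (n2 := ndF3q3) (pc := pcF1) (cut := Cut.none) (xt := Ext.none) (P1 := 536870912) (W1 := 536870912) (P2 := 0) (W2 := 1230186008) (P3 := 67108864) (W3 := 67108864)
    rfl rfl rfl (fun _ => rfl) k0_pp_113

noncomputable def f_pp_123 : ℕ → ℕ → ℕ → ℕ → Bool := onCell 1073741824 536870912 0 1230186008 67108864 67108864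
    (rowFK 2 false true true .npn 1 2 3 (qsf 536870912 536870912 0 1230186008 2) ndF4q1 ndF3q3 pcF2 Cut.none Ext.none)

def k0_pp_123 : ∃ t, chk3 f_pp_123 t 1 1 1 = true :=
  ⟨(b (a (a (l 16969440) (l 16898328)) (a (l 16878112) (l 4))) (b (a (a (l 17223464) (l 17255856)) (a (l 17204808) (l 17031096))) (a (a (l 17780824) (l 17607504)) (l 1)))), by decide +kernel⟩

theorem c_pp_123 : CertF 536870912 536870912 0 1230186008 67108864 67108864 false true true .npn 1 2 3
    ndF4q1 ndF3q3 pcF2 Cut.none Ext.none :=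
  certFK2 (fam := false) (s1 := true) (s2 := true) (a := 1) (b := 2) (c := 3) (cn := .npn) (n1 := ndF4q1) (n2 := ndF3q3) (pc := pcF2) (cut := Cut.none) (xt := Ext.none) (P1 := 536870912) (W1 := 536870912) (P2 := 0) (W2 := 1230186008) (P3 := 67108864) (W3 := 67108864)
    rfl rfl rfl (fun _ => rfl) k0_pp_123

noncomputable def f_pp_133 : ℕ → ℕ → ℕ → ℕ → Bool := onCell 1610612736 536870912 0 1230186008 67108864 67108864
    (rowFK 2 false true true .dn 1 3 3 (qsf 536870912 536870912 0 1230186008 3) ndF4q1 ndF3q3 pcF3 Cut.none Ext.none)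

def k0_pp_133 : ∃ t, chk3 f_pp_133 t 1 1 1 = true :=
  ⟨(b (l 4) (l 1)), by decide +kernel⟩

theorem c_pp_133 : CertF 536870912 536870912 0 1230186008 67108864 67108864 false true true .dn 1 3 3
    ndF4q1 ndF3q3 pcF3 Cut.none Ext.none :=
  certFK2 (fam := false) (s1 := true) (s2 := true) (a := 1) (b := 3) (c := 3) (cn := .dn) (n1 := ndF4q1) (n2 := ndF3q3) (pc := pcF3) (cut := Cut.none) (xt := Ext.none) (P1 := 536870912) (W1 := 536870912) (P2 := 0) (W2 := 1230186008) (P3 := 67108864) (W3 := 67108864)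
    rfl rfl rfl (fun _ => rfl) k0_pp_133

noncomputable def f_pp_202 : ℕ → ℕ → ℕ → ℕ → Bool := onCell 1073741824 536870912 1073741824 536870912 67108864 67108864
    (rowFK 0 false true true .pp 2 0 2 (qsf 1073741824 536870912 1073741824 536870912 0) ndF4q2 ndF3q2 pcF0 Cut.none Ext.none)

def k0_pp_202 : ∃ t, chk3 f_pp_202 t 1 1 1 = true :=
  ⟨(l 3), by decide +kernel⟩

theorem c_pp_202 : CertF 1073741824 536870912 1073741824 536870912 67108864 67108864 false true true .pp 2 0 2
    ndF4q2 ndF3q2 pcF0 Cut.none Ext.none :=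
  certFK0 (fam := false) (s1 := true) (s2 := true) (a := 2) (b := 0) (c := 2) (cn := .pp) (n1 := ndF4q2) (n2 := ndF3q2) (pc := pcF0) (cut := Cut.none) (xt := Ext.none) (P1 := 1073741824) (W1 := 536870912) (P2 := 1073741824) (W2 := 536870912) (P3 := 67108864) (W3 := 67108864)
    rfl rfl rfl k0_pp_202

noncomputable def f_pp_203 : ℕ → ℕ → ℕ → ℕ → Bool := onCell 0 536870912 0 1230186008 67108864 67108864
    (rowFK 2 false true true .up 2 0 3 (qsf 1073741824 536870912 0 1230186008 0) ndF4q2 ndF3q3 pcF0 Cut.none Ext.none)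

def k0_pp_203 : ∃ t, chk3 f_pp_203 t 1 1 1 = true :=
  ⟨(a (b (l 2) (l 3)) (b (a (l 2) (b (l 17652808) (l 17832544))) (b (a (l 3) (b (l 18161744) (l 3))) (l 3)))), by decide +kernel⟩

theorem c_pp_203 : CertF 1073741824 536870912 0 1230186008 67108864 67108864 false true true .up 2 0 3
    ndF4q2 ndF3q3 pcF0 Cut.none Ext.none :=
  certFK2 (fam := false) (s1 := true) (s2 := true) (a := 2) (b := 0) (c := 3) (cn := .up) (n1 := ndF4q2) (n2 := ndF3q3) (pc := pcF0) (cut := Cut.none) (xt := Ext.none) (P1 := 1073741824) (W1 := 536870912) (P2 := 0) (W2 := 1230186008) (P3 := 67108864) (W3 := 67108864)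
    rfl rfl rfl (fun _ => rfl) k0_pp_203

noncomputable def f_pp_213 : ℕ → ℕ → ℕ → ℕ → Bool := onCell 536870912 536870912 0 1230186008 67108864 67108864
    (rowFK 2 false true true .pnn 2 1 3 (qsf 1073741824 536870912 0 1230186008 1) ndF4q2 ndF3q3 pcF1 Cut.none Ext.none)

def k0_pp_213 : ∃ t, chk3 f_pp_213 t 1 1 1 = true :=
  ⟨(a (b (a (b (l 18327056) (l 18235504)) (b (l 18384992) (l 18437832))) (b (a (l 18427456) (l 18562776)) (a (b (l 18571776) (l 18650224)) (l 249682650359)))) (b (a (b (l 17787080) (l 18221424)) (a (b (l 17174160) (l 17742104)) (a (l 17292992) (l 17210824)))) (b (a (l 18473696) (a (l 18186184) (l 1))) (l 1)))), by decide +kernel⟩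

theorem c_pp_213 : CertF 1073741824 536870912 0 1230186008 67108864 67108864 false true true .pnn 2 1 3
    ndF4q2 ndF3q3 pcF1 Cut.none Ext.none :=
  certFK2 (fam := false) (s1 := true) (s2 := true) (a := 2) (b := 1) (c := 3) (cn := .pnn) (n1 := ndF4q2) (n2 := ndF3q3) (pc := pcF1) (cut := Cut.none) (xt := Ext.none) (P1 := 1073741824) (W1 := 536870912) (P2 := 0) (W2 := 1230186008) (P3 := 67108864) (W3 := 67108864)
    rfl rfl rfl (fun _ => rfl) k0_pp_213

noncomputable def f_pp_303 : ℕ → ℕ → ℕ → ℕ → Bool := onCell 0 1230186008 0 1230186008 67108864 67108864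
    (rowFK 0 false true true .npn 3 0 3 (qsf 0 1230186008 0 1230186008 0) ndF4q3 ndF3q3 pcF0 Cut.none Ext.none)

def k0_pp_303 : ∃ t, chk3 f_pp_303 t 1 1 1 = true :=
  ⟨(b (a (l 3) (a (l 3) (a (b (l 17558480) (l 3)) (b (l 17638728) (l 311555388727))))) (b (l 3) (l 3))), by decide +kernel⟩

theorem c_pp_303 : CertF 0 1230186008 0 1230186008 67108864 67108864 false true true .npn 3 0 3
    ndF4q3 ndF3q3 pcF0 Cut.none Ext.none :=
  certFK0 (fam := false) (s1 := true) (s2 := true) (a := 3) (b := 0) (c := 3) (cn := .npn) (n1 := ndF4q3) (n2 := ndF3q3) (pc := pcF0) (cut := Cut.none) (xt := Ext.none) (P1 := 0) (W1 := 1230186008) (P2 := 0) (W2 := 1230186008) (P3 := 67108864) (W3 := 67108864)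
    rfl rfl rfl k0_pp_303

noncomputable def f_pp_313 : ℕ → ℕ → ℕ → ℕ → Bool := onCell 0 1230186008 0 1230186008 67108864 67108864
    (rowFK 0 false true true .dn 3 1 3 (qsf 0 1230186008 0 1230186008 1) ndF4q3 ndF3q3 pcF1 Cut.none Ext.none)

def k0_pp_313 : ∃ t, chk3 f_pp_313 t 1 1 1 = true :=
  ⟨(a (l 1) (b (a (l 1) (a (l 1) (b (l 17861864) (l 1)))) (l 1))), by decide +kernel⟩

theorem c_pp_313 : CertF 0 1230186008 0 1230186008 67108864 67108864 false true true .dn 3 1 3
    ndF4q3 ndF3q3 pcF1 Cut.none Ext.none :=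
  certFK0 (fam := false) (s1 := true) (s2 := true) (a := 3) (b := 1) (c := 3) (cn := .dn) (n1 := ndF4q3) (n2 := ndF3q3) (pc := pcF1) (cut := Cut.none) (xt := Ext.none) (P1 := 0) (W1 := 1230186008) (P2 := 0) (W2 := 1230186008) (P3 := 67108864) (W3 := 67108864)
    rfl rfl rfl k0_pp_313

noncomputable def f_pm_001 : ℕ → ℕ → ℕ → ℕ → Bool := onCell 0 536870912 536870912 536870912 67108864 67108864
    (rowFK 0 false true false .up 0 0 1 (qsf 0 536870912 536870912 536870912 0) ndF4q0 ndF3q1 pcF0 Cut.none Ext.none)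

def k0_pm_001 : ∃ t, chk3 f_pm_001 t 1 1 1 = true :=
  ⟨(l 4), by decide +kernel⟩

theorem c_pm_001 : CertF 0 536870912 536870912 536870912 67108864 67108864 false true false .up 0 0 1
    ndF4q0 ndF3q1 pcF0 Cut.none Ext.none :=
  certFK0 (fam := false) (s1 := true) (s2 := false) (a := 0) (b := 0) (c := 1) (cn := .up) (n1 := ndF4q0) (n2 := ndF3q1) (pc := pcF0) (cut := Cut.none) (xt := Ext.none) (P1 := 0) (W1 := 536870912) (P2 := 536870912) (W2 := 536870912) (P3 := 67108864) (W3 := 67108864)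
    rfl rfl rfl k0_pm_001

noncomputable def f_pm_011 : ℕ → ℕ → ℕ → ℕ → Bool := onCell 0 536870912 536870912 536870912 67108864 67108864
    (rowFK 0 false true false .pnn 0 1 1 (qsf 0 536870912 536870912 536870912 1) ndF4q0 ndF3q1 pcF1 Cut.none Ext.none)

def k0_pm_011 : ∃ t, chk3 f_pm_011 t 1 1 1 = true :=
  ⟨(l 4), by decide +kernel⟩

theorem c_pm_011 : CertF 0 536870912 536870912 536870912 67108864 67108864 false true false .pnn 0 1 1
    ndF4q0 ndF3q1 pcF1 Cut.none Ext.none :=
  certFK0 (fam := false) (s1 := true) (s2 := false) (a := 0) (b := 1) (c := 1) (cn := .pnn) (n1 := ndF4q0) (n2 := ndF3q1) (pc := pcF1) (cut := Cut.none) (xt := Ext.none) (P1 := 0) (W1 := 536870912) (P2 := 536870912) (W2 := 536870912) (P3 := 67108864) (W3 := 67108864)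
    rfl rfl rfl k0_pm_011

noncomputable def f_pm_012 : ℕ → ℕ → ℕ → ℕ → Bool := onCell 0 536870912 1073741824 536870912 67108864 67108864
    (rowFK 0 false true false .pnp 0 1 2 (qsf 0 536870912 1073741824 536870912 1) ndF4q0 ndF3q2 pcF1 Cut.none Ext.none)

def k0_pm_012 : ∃ t, chk3 f_pm_012 t 1 1 1 = true :=
  ⟨(l 4), by decide +kernel⟩

theorem c_pm_012 : CertF 0 536870912 1073741824 536870912 67108864 67108864 false true false .pnp 0 1 2
    ndF4q0 ndF3q2 pcF1 Cut.none Ext.none :=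
  certFK0 (fam := false) (s1 := true) (s2 := false) (a := 0) (b := 1) (c := 2) (cn := .pnp) (n1 := ndF4q0) (n2 := ndF3q2) (pc := pcF1) (cut := Cut.none) (xt := Ext.none) (P1 := 0) (W1 := 536870912) (P2 := 1073741824) (W2 := 536870912) (P3 := 67108864) (W3 := 67108864)
    rfl rfl rfl k0_pm_012

noncomputable def f_pm_022 : ℕ → ℕ → ℕ → ℕ → Bool := onCell 0 536870912 1073741824 536870912 67108864 67108864
    (rowFK 0 false true false .pp 0 2 2 (qsf 0 536870912 1073741824 536870912 2) ndF4q0 ndF3q2 pcF2 Cut.none Ext.none)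

def k0_pm_022 : ∃ t, chk3 f_pm_022 t 1 1 1 = true :=
  ⟨(l 4), by decide +kernel⟩

theorem c_pm_022 : CertF 0 536870912 1073741824 536870912 67108864 67108864 false true false .pp 0 2 2
    ndF4q0 ndF3q2 pcF2 Cut.none Ext.none :=
  certFK0 (fam := false) (s1 := true) (s2 := false) (a := 0) (b := 2) (c := 2) (cn := .pp) (n1 := ndF4q0) (n2 := ndF3q2) (pc := pcF2) (cut := Cut.none) (xt := Ext.none) (P1 := 0) (W1 := 536870912) (P2 := 1073741824) (W2 := 536870912) (P3 := 67108864) (W3 := 67108864)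
    rfl rfl rfl k0_pm_022

noncomputable def f_pm_023 : ℕ → ℕ → ℕ → ℕ → Bool := onCell 0 536870912 0 1230186008 67108864 67108864
    (rowFK 0 false true false .up 0 2 3 (qsf 0 536870912 0 1230186008 2) ndF4q0 ndF3q3 pcF2 Cut.none Ext.none)

def k0_pm_023 : ∃ t, chk3 f_pm_023 t 1 1 1 = true :=
  ⟨(b (l 4) (l 4)), by decide +kernel⟩

theorem c_pm_023 : CertF 0 536870912 0 1230186008 67108864 67108864 false true false .up 0 2 3
    ndF4q0 ndF3q3 pcF2 Cut.none Ext.none :=
  certFK0 (fam := false) (s1 := true) (s2 := false) (a := 0) (b := 2) (c := 3) (cn := .up) (n1 := ndF4q0) (n2 := ndF3q3) (pc := pcF2) (cut := Cut.none) (xt := Ext.none) (P1 := 0) (W1 := 536870912) (P2 := 0) (W2 := 1230186008) (P3 := 67108864) (W3 := 67108864)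
    rfl rfl rfl k0_pm_023

noncomputable def f_pm_033 : ℕ → ℕ → ℕ → ℕ → Bool := onCell 0 536870912 0 1230186008 67108864 67108864
    (rowFK 0 false true false .pnn 0 3 3 (qsf 0 536870912 0 1230186008 3) ndF4q0 ndF3q3 pcF3 Cut.none Ext.none)

def k0_pm_033 : ∃ t, chk3 f_pm_033 t 1 1 1 = true :=
  ⟨(b (l 4) (l 4)), by decide +kernel⟩

theorem c_pm_033 : CertF 0 536870912 0 1230186008 67108864 67108864 false true false .pnn 0 3 3
    ndF4q0 ndF3q3 pcF3 Cut.none Ext.none :=
  certFK0 (fam := false) (s1 := true) (s2 := false) (a := 0) (b := 3) (c := 3) (cn := .pnn) (n1 := ndF4q0) (n2 := ndF3q3) (pc := pcF3) (cut := Cut.none) (xt := Ext.none) (P1 := 0) (W1 := 536870912) (P2 := 0) (W2 := 1230186008) (P3 := 67108864) (W3 := 67108864)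
    rfl rfl rfl k0_pm_033

noncomputable def f_pm_101 : ℕ → ℕ → ℕ → ℕ → Bool := onCell 536870912 536870912 536870912 536870912 67108864 67108864
    (rowFK 0 false true false .npn 1 0 1 (qsf 536870912 536870912 536870912 536870912 0) ndF4q1 ndF3q1 pcF0 Cut.none Ext.none)

def k0_pm_101 : ∃ t, chk3 f_pm_101 t 1 1 1 = true :=
  ⟨(l 4), by decide +kernel⟩

theorem c_pm_101 : CertF 536870912 536870912 536870912 536870912 67108864 67108864 false true false .npn 1 0 1
    ndF4q1 ndF3q1 pcF0 Cut.none Ext.none :=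
  certFK0 (fam := false) (s1 := true) (s2 := false) (a := 1) (b := 0) (c := 1) (cn := .npn) (n1 := ndF4q1) (n2 := ndF3q1) (pc := pcF0) (cut := Cut.none) (xt := Ext.none) (P1 := 536870912) (W1 := 536870912) (P2 := 536870912) (W2 := 536870912) (P3 := 67108864) (W3 := 67108864)
    rfl rfl rfl k0_pm_101

noncomputable def f_pm_102 : ℕ → ℕ → ℕ → ℕ → Bool := onCell 536870912 536870912 1073741824 536870912 67108864 67108864
    (rowFK 0 false true false .npp 1 0 2 (qsf 536870912 536870912 1073741824 536870912 0) ndF4q1 ndF3q2 pcF0 Cut.none Ext.none)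

def k0_pm_102 : ∃ t, chk3 f_pm_102 t 1 1 1 = true :=
  ⟨(l 4), by decide +kernel⟩

theorem c_pm_102 : CertF 536870912 536870912 1073741824 536870912 67108864 67108864 false true false .npp 1 0 2
    ndF4q1 ndF3q2 pcF0 Cut.none Ext.none :=
  certFK0 (fam := false) (s1 := true) (s2 := false) (a := 1) (b := 0) (c := 2) (cn := .npp) (n1 := ndF4q1) (n2 := ndF3q2) (pc := pcF0) (cut := Cut.none) (xt := Ext.none) (P1 := 536870912) (W1 := 536870912) (P2 := 1073741824) (W2 := 536870912) (P3 := 67108864) (W3 := 67108864)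
    rfl rfl rfl k0_pm_102

noncomputable def f_pm_112 : ℕ → ℕ → ℕ → ℕ → Bool := onCell 536870912 536870912 1073741824 536870912 67108864 67108864
    (rowFK 0 false true false .dn 1 1 2 (qsf 536870912 536870912 1073741824 536870912 1) ndF4q1 ndF3q2 pcF1 Cut.none Ext.none)

def k0_pm_112 : ∃ t, chk3 f_pm_112 t 1 1 1 = true :=
  ⟨(l 4), by decide +kernel⟩

theorem c_pm_112 : CertF 536870912 536870912 1073741824 536870912 67108864 67108864 false true false .dn 1 1 2
    ndF4q1 ndF3q2 pcF1 Cut.none Ext.none :=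
  certFK0 (fam := false) (s1 := true) (s2 := false) (a := 1) (b := 1) (c := 2) (cn := .dn) (n1 := ndF4q1) (n2 := ndF3q2) (pc := pcF1) (cut := Cut.none) (xt := Ext.none) (P1 := 536870912) (W1 := 536870912) (P2 := 1073741824) (W2 := 536870912) (P3 := 67108864) (W3 := 67108864)
    rfl rfl rfl k0_pm_112

noncomputable def f_pm_113 : ℕ → ℕ → ℕ → ℕ → Bool := onCell 536870912 536870912 0 1230186008 67108864 67108864
    (rowFK 0 false true false .nn 1 1 3 (qsf 536870912 536870912 0 1230186008 1) ndF4q1 ndF3q3 pcF1 Cut.none Ext.none)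

def k0_pm_113 : ∃ t, chk3 f_pm_113 t 1 1 1 = true :=
  ⟨(b (a (l 2) (b (l 16919208) (l 4))) (l 4)), by decide +kernel⟩

theorem c_pm_113 : CertF 536870912 536870912 0 1230186008 67108864 67108864 false true false .nn 1 1 3
    ndF4q1 ndF3q3 pcF1 Cut.none Ext.none :=
  certFK0 (fam := false) (s1 := true) (s2 := false) (a := 1) (b := 1) (c := 3) (cn := .nn) (n1 := ndF4q1) (n2 := ndF3q3) (pc := pcF1) (cut := Cut.none) (xt := Ext.none) (P1 := 536870912) (W1 := 536870912) (P2 := 0) (W2 := 1230186008) (P3 := 67108864) (W3 := 67108864)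
    rfl rfl rfl k0_pm_113

noncomputable def f_pm_123 : ℕ → ℕ → ℕ → ℕ → Bool := onCell 1073741824 536870912 0 1230186008 67108864 67108864
    (rowFK 2 false true false .npn 1 2 3 (qsf 536870912 536870912 0 1230186008 2) ndF4q1 ndF3q3 pcF2 Cut.none Ext.none)

def k0_pm_123 : ∃ t, chk3 f_pm_123 t 1 1 1 = true :=
  ⟨(b (a (a (l 17079432) (l 4)) (l 4)) (l 4)), by decide +kernel⟩

theorem c_pm_123 : CertF 536870912 536870912 0 1230186008 67108864 67108864 false true false .npn 1 2 3
    ndF4q1 ndF3q3 pcF2 Cut.none Ext.none :=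
  certFK2 (fam := false) (s1 := true) (s2 := false) (a := 1) (b := 2) (c := 3) (cn := .npn) (n1 := ndF4q1) (n2 := ndF3q3) (pc := pcF2) (cut := Cut.none) (xt := Ext.none) (P1 := 536870912) (W1 := 536870912) (P2 := 0) (W2 := 1230186008) (P3 := 67108864) (W3 := 67108864)
    rfl rfl rfl (fun _ => rfl) k0_pm_123

noncomputable def f_pm_133 : ℕ → ℕ → ℕ → ℕ → Bool := onCell 1610612736 536870912 0 1230186008 67108864 67108864
    (rowFK 2 false true false .dn 1 3 3 (qsf 536870912 536870912 0 1230186008 3) ndF4q1 ndF3q3 pcF3 Cut.none Ext.none)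

def k0_pm_133 : ∃ t, chk3 f_pm_133 t 1 1 1 = true :=
  ⟨(b (l 4) (l 1)), by decide +kernel⟩

theorem c_pm_133 : CertF 536870912 536870912 0 1230186008 67108864 67108864 false true false .dn 1 3 3
    ndF4q1 ndF3q3 pcF3 Cut.none Ext.none :=
  certFK2 (fam := false) (s1 := true) (s2 := false) (a := 1) (b := 3) (c := 3) (cn := .dn) (n1 := ndF4q1) (n2 := ndF3q3) (pc := pcF3) (cut := Cut.none) (xt := Ext.none) (P1 := 536870912) (W1 := 536870912) (P2 := 0) (W2 := 1230186008) (P3 := 67108864) (W3 := 67108864)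
    rfl rfl rfl (fun _ => rfl) k0_pm_133

noncomputable def f_pm_202 : ℕ → ℕ → ℕ → ℕ → Bool := onCell 1073741824 536870912 1073741824 536870912 67108864 67108864
    (rowFK 0 false true false .pp 2 0 2 (qsf 1073741824 536870912 1073741824 536870912 0) ndF4q2 ndF3q2 pcF0 Cut.none Ext.none)

def k0_pm_202 : ∃ t, chk3 f_pm_202 t 1 1 1 = true :=
  ⟨(l 4), by decide +kernel⟩

theorem c_pm_202 : CertF 1073741824 536870912 1073741824 536870912 67108864 67108864 false true false .pp 2 0 2
    ndF4q2 ndF3q2 pcF0 Cut.none Ext.none :=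
  certFK0 (fam := false) (s1 := true) (s2 := false) (a := 2) (b := 0) (c := 2) (cn := .pp) (n1 := ndF4q2) (n2 := ndF3q2) (pc := pcF0) (cut := Cut.none) (xt := Ext.none) (P1 := 1073741824) (W1 := 536870912) (P2 := 1073741824) (W2 := 536870912) (P3 := 67108864) (W3 := 67108864)
    rfl rfl rfl k0_pm_202

noncomputable def f_pm_203 : ℕ → ℕ → ℕ → ℕ → Bool := onCell 1073741824 536870912 0 1230186008 67108864 67108864
    (rowFK 0 false true false .up 2 0 3 (qsf 1073741824 536870912 0 1230186008 0) ndF4q2 ndF3q3 pcF0 Cut.none Ext.none)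

def k0_pm_203 : ∃ t, chk3 f_pm_203 t 1 1 1 = true :=
  ⟨(a (b (l 2) (b (l 4) (l 4))) (a (b (l 2) (b (b (l 17958744) (l 18040120)) (l 4))) (b (b (l 17474280) (a (l 17611240) (l 17255736))) (b (b (l 17508080) (l 17481752)) (b (l 17346040) (l 4)))))), by decide +kernel⟩

theorem c_pm_203 : CertF 1073741824 536870912 0 1230186008 67108864 67108864 false true false .up 2 0 3
    ndF4q2 ndF3q3 pcF0 Cut.none Ext.none :=
  certFK0 (fam := false) (s1 := true) (s2 := false) (a := 2) (b := 0) (c := 3) (cn := .up) (n1 := ndF4q2) (n2 := ndF3q3) (pc := pcF0) (cut := Cut.none) (xt := Ext.none) (P1 := 1073741824) (W1 := 536870912) (P2 := 0) (W2 := 1230186008) (P3 := 67108864) (W3 := 67108864)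
    rfl rfl rfl k0_pm_203

noncomputable def f_pm_213 : ℕ → ℕ → ℕ → ℕ → Bool := onCell 536870912 536870912 0 1230186008 67108864 67108864
    (rowFK 2 false true false .pnn 2 1 3 (qsf 1073741824 536870912 0 1230186008 1) ndF4q2 ndF3q3 pcF1 Cut.none Ext.none)

def k0_pm_213 : ∃ t, chk3 f_pm_213 t 1 1 1 = true :=
  ⟨(b (b (a (a (l 18487856) (b (l 18370960) (l 17992064))) (a (a (l 17437768) (l 17085288)) (a (l 16897040) (a (l 16867048) (l 16879808))))) (b (a (a (a (l 18341648) (a (l 18349104) (l 18052464))) (a (l 17964656) (l 17769400))) (a (l 17193416) (l 4))) (a (a (a (l 17402168) (l 17440648)) (l 17712168)) (l 17331656)))) (b (a (a (l 17398536) (l 17669208)) (l 4)) (l 4))), by decide +kernel⟩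

theorem c_pm_213 : CertF 1073741824 536870912 0 1230186008 67108864 67108864 false true false .pnn 2 1 3
    ndF4q2 ndF3q3 pcF1 Cut.none Ext.none :=
  certFK2 (fam := false) (s1 := true) (s2 := false) (a := 2) (b := 1) (c := 3) (cn := .pnn) (n1 := ndF4q2) (n2 := ndF3q3) (pc := pcF1) (cut := Cut.none) (xt := Ext.none) (P1 := 1073741824) (W1 := 536870912) (P2 := 0) (W2 := 1230186008) (P3 := 67108864) (W3 := 67108864)
    rfl rfl rfl (fun _ => rfl) k0_pm_213

noncomputable def f_pm_303 : ℕ → ℕ → ℕ → ℕ → Bool := onCell 0 1230186008 0 1230186008 67108864 67108864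
    (rowFK 0 false true false .npn 3 0 3 (qsf 0 1230186008 0 1230186008 0) ndF4q3 ndF3q3 pcF0 Cut.none Ext.none)

def k0_pm_303 : ∃ t, chk3 f_pm_303 t 1 1 1 = true :=
  ⟨(a (b (l 3) (b (b (l 3) (l 1)) (l 1))) (b (b (a (l 292764331335) (a (l 17592512) (a (l 17344376) (l 17366216)))) (a (a (l 246056329239) (b (l 17663232) (a (l 17679344) (l 17662816)))) (a (b (l 17398328) (b (l 17505272) (l 17210360))) (a (l 17639584) (l 17149800))))) (a (b (a (b (b (l 17672920) (l 17624424)) (b (l 17380496) (l 1))) (b (b (l 17559792) (l 16977160)) (b (l 17385480) (a (l 17887064) (l 17767312))))) (a (l 1) (b (b (l 17947256) (l 1)) (l 1)))) (b (a (b (b (l 17169736) (l 17051512)) (a (b (l 17384400) (l 17582512)) (l 17196992))) (b (l 17123792) (a (l 17043056) (l 17036960)))) (a (b (l 17568744) (a (l 1) (b (l 17524736) (l 1)))) (b (l 17130744) (l 17262496))))))), by decide +kernel⟩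

theorem c_pm_303 : CertF 0 1230186008 0 1230186008 67108864 67108864 false true false .npn 3 0 3
    ndF4q3 ndF3q3 pcF0 Cut.none Ext.none :=
  certFK0 (fam := false) (s1 := true) (s2 := false) (a := 3) (b := 0) (c := 3) (cn := .npn) (n1 := ndF4q3) (n2 := ndF3q3) (pc := pcF0) (cut := Cut.none) (xt := Ext.none) (P1 := 0) (W1 := 1230186008) (P2 := 0) (W2 := 1230186008) (P3 := 67108864) (W3 := 67108864)
    rfl rfl rfl k0_pm_303

noncomputable def f_pm_313 : ℕ → ℕ → ℕ → ℕ → Bool := onCell 0 1230186008 0 1230186008 67108864 67108864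
    (rowFK 0 false true false .dn 3 1 3 (qsf 0 1230186008 0 1230186008 1) ndF4q3 ndF3q3 pcF1 Cut.none Ext.none)

def k0_pm_313 : ∃ t, chk3 f_pm_313 t 1 1 1 = true :=
  ⟨(a (l 1) (b (a (l 1) (a (l 1) (b (l 18123632) (l 1)))) (l 1))), by decide +kernel⟩

theorem c_pm_313 : CertF 0 1230186008 0 1230186008 67108864 67108864 false true false .dn 3 1 3
    ndF4q3 ndF3q3 pcF1 Cut.none Ext.none :=
  certFK0 (fam := false) (s1 := true) (s2 := false) (a := 3) (b := 1) (c := 3) (cn := .dn) (n1 := ndF4q3) (n2 := ndF3q3) (pc := pcF1) (cut := Cut.none) (xt := Ext.none) (P1 := 0) (W1 := 1230186008) (P2 := 0) (W2 := 1230186008) (P3 := 67108864) (W3 := 67108864)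
    rfl rfl rfl k0_pm_313

noncomputable def f_mm_001 : ℕ → ℕ → ℕ → ℕ → Bool := onCell 0 536870912 536870912 536870912 67108864 67108864
    (rowFK 0 false false false .up 0 0 1 (qsf 0 536870912 536870912 536870912 0) ndF4q0 ndF3q1 pcF0 Cut.none Ext.none)

def k0_mm_001 : ∃ t, chk3 f_mm_001 t 1 1 1 = true :=
  ⟨(l 3), by decide +kernel⟩

theorem c_mm_001 : CertF 0 536870912 536870912 536870912 67108864 67108864 false false false .up 0 0 1
    ndF4q0 ndF3q1 pcF0 Cut.none Ext.none :=
  certFK0 (fam := false) (s1 := false) (s2 := false) (a := 0) (b := 0) (c := 1) (cn := .up) (n1 := ndF4q0) (n2 := ndF3q1) (pc := pcF0) (cut := Cut.none) (xt := Ext.none) (P1 := 0) (W1 := 536870912) (P2 := 536870912) (W2 := 536870912) (P3 := 67108864) (W3 := 67108864)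
    rfl rfl rfl k0_mm_001

noncomputable def f_mm_011 : ℕ → ℕ → ℕ → ℕ → Bool := onCell 0 536870912 536870912 536870912 67108864 67108864
    (rowFK 0 false false false .pnn 0 1 1 (qsf 0 536870912 536870912 536870912 1) ndF4q0 ndF3q1 pcF1 Cut.none Ext.none)

def k0_mm_011 : ∃ t, chk3 f_mm_011 t 1 1 1 = true :=
  ⟨(l 3), by decide +kernel⟩

theorem c_mm_011 : CertF 0 536870912 536870912 536870912 67108864 67108864 false false false .pnn 0 1 1
    ndF4q0 ndF3q1 pcF1 Cut.none Ext.none :=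
  certFK0 (fam := false) (s1 := false) (s2 := false) (a := 0) (b := 1) (c := 1) (cn := .pnn) (n1 := ndF4q0) (n2 := ndF3q1) (pc := pcF1) (cut := Cut.none) (xt := Ext.none) (P1 := 0) (W1 := 536870912) (P2 := 536870912) (W2 := 536870912) (P3 := 67108864) (W3 := 67108864)
    rfl rfl rfl k0_mm_011

noncomputable def f_mm_012 : ℕ → ℕ → ℕ → ℕ → Bool := onCell 0 536870912 1073741824 536870912 67108864 67108864
    (rowFK 0 false false false .pnp 0 1 2 (qsf 0 536870912 1073741824 536870912 1) ndF4q0 ndF3q2 pcF1 Cut.none Ext.none)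

def k0_mm_012 : ∃ t, chk3 f_mm_012 t 1 1 1 = true :=
  ⟨(l 5), by decide +kernel⟩

theorem c_mm_012 : CertF 0 536870912 1073741824 536870912 67108864 67108864 false false false .pnp 0 1 2
    ndF4q0 ndF3q2 pcF1 Cut.none Ext.none :=
  certFK0 (fam := false) (s1 := false) (s2 := false) (a := 0) (b := 1) (c := 2) (cn := .pnp) (n1 := ndF4q0) (n2 := ndF3q2) (pc := pcF1) (cut := Cut.none) (xt := Ext.none) (P1 := 0) (W1 := 536870912) (P2 := 1073741824) (W2 := 536870912) (P3 := 67108864) (W3 := 67108864)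
    rfl rfl rfl k0_mm_012

noncomputable def f_mm_022 : ℕ → ℕ → ℕ → ℕ → Bool := onCell 0 536870912 1073741824 536870912 67108864 67108864
    (rowFK 0 false false false .pp 0 2 2 (qsf 0 536870912 1073741824 536870912 2) ndF4q0 ndF3q2 pcF2 Cut.none Ext.none)

def k0_mm_022 : ∃ t, chk3 f_mm_022 t 1 1 1 = true :=
  ⟨(l 5), by decide +kernel⟩

theorem c_mm_022 : CertF 0 536870912 1073741824 536870912 67108864 67108864 false false false .pp 0 2 2
    ndF4q0 ndF3q2 pcF2 Cut.none Ext.none :=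
  certFK0 (fam := false) (s1 := false) (s2 := false) (a := 0) (b := 2) (c := 2) (cn := .pp) (n1 := ndF4q0) (n2 := ndF3q2) (pc := pcF2) (cut := Cut.none) (xt := Ext.none) (P1 := 0) (W1 := 536870912) (P2 := 1073741824) (W2 := 536870912) (P3 := 67108864) (W3 := 67108864)
    rfl rfl rfl k0_mm_022

noncomputable def f_mm_023 : ℕ → ℕ → ℕ → ℕ → Bool := onCell 0 536870912 0 1230186008 67108864 67108864
    (rowFK 0 false false false .up 0 2 3 (qsf 0 536870912 0 1230186008 2) ndF4q0 ndF3q3 pcF2 Cut.none Ext.none)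

def k0_mm_023 : ∃ t, chk3 f_mm_023 t 1 1 1 = true :=
  ⟨(l 5), by decide +kernel⟩

theorem c_mm_023 : CertF 0 536870912 0 1230186008 67108864 67108864 false false false .up 0 2 3
    ndF4q0 ndF3q3 pcF2 Cut.none Ext.none :=
  certFK0 (fam := false) (s1 := false) (s2 := false) (a := 0) (b := 2) (c := 3) (cn := .up) (n1 := ndF4q0) (n2 := ndF3q3) (pc := pcF2) (cut := Cut.none) (xt := Ext.none) (P1 := 0) (W1 := 536870912) (P2 := 0) (W2 := 1230186008) (P3 := 67108864) (W3 := 67108864)
    rfl rfl rfl k0_mm_023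

noncomputable def f_mm_033 : ℕ → ℕ → ℕ → ℕ → Bool := onCell 0 536870912 0 1230186008 67108864 67108864
    (rowFK 0 false false false .pnn 0 3 3 (qsf 0 536870912 0 1230186008 3) ndF4q0 ndF3q3 pcF3 Cut.none Ext.none)

def k0_mm_033 : ∃ t, chk3 f_mm_033 t 1 1 1 = true :=
  ⟨(l 5), by decide +kernel⟩

theorem c_mm_033 : CertF 0 536870912 0 1230186008 67108864 67108864 false false false .pnn 0 3 3
    ndF4q0 ndF3q3 pcF3 Cut.none Ext.none :=
  certFK0 (fam := false) (s1 := false) (s2 := false) (a := 0) (b := 3) (c := 3) (cn := .pnn) (n1 := ndF4q0) (n2 := ndF3q3) (pc := pcF3) (cut := Cut.none) (xt := Ext.none) (P1 := 0) (W1 := 536870912) (P2 := 0) (W2 := 1230186008) (P3 := 67108864) (W3 := 67108864)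
    rfl rfl rfl k0_mm_033

noncomputable def f_mm_101 : ℕ → ℕ → ℕ → ℕ → Bool := onCell 536870912 536870912 536870912 536870912 67108864 67108864
    (rowFK 0 false false false .npn 1 0 1 (qsf 536870912 536870912 536870912 536870912 0) ndF4q1 ndF3q1 pcF0 Cut.none Ext.none)

def k0_mm_101 : ∃ t, chk3 f_mm_101 t 1 1 1 = true :=
  ⟨(l 3), by decide +kernel⟩

theorem c_mm_101 : CertF 536870912 536870912 536870912 536870912 67108864 67108864 false false false .npn 1 0 1
    ndF4q1 ndF3q1 pcF0 Cut.none Ext.none :=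
  certFK0 (fam := false) (s1 := false) (s2 := false) (a := 1) (b := 0) (c := 1) (cn := .npn) (n1 := ndF4q1) (n2 := ndF3q1) (pc := pcF0) (cut := Cut.none) (xt := Ext.none) (P1 := 536870912) (W1 := 536870912) (P2 := 536870912) (W2 := 536870912) (P3 := 67108864) (W3 := 67108864)
    rfl rfl rfl k0_mm_101

noncomputable def f_mm_102 : ℕ → ℕ → ℕ → ℕ → Bool := onCell 536870912 536870912 1073741824 536870912 67108864 67108864
    (rowFK 0 false false false .npp 1 0 2 (qsf 536870912 536870912 1073741824 536870912 0) ndF4q1 ndF3q2 pcF0 Cut.none Ext.none)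

def k0_mm_102 : ∃ t, chk3 f_mm_102 t 1 1 1 = true :=
  ⟨(l 5), by decide +kernel⟩

theorem c_mm_102 : CertF 536870912 536870912 1073741824 536870912 67108864 67108864 false false false .npp 1 0 2
    ndF4q1 ndF3q2 pcF0 Cut.none Ext.none :=
  certFK0 (fam := false) (s1 := false) (s2 := false) (a := 1) (b := 0) (c := 2) (cn := .npp) (n1 := ndF4q1) (n2 := ndF3q2) (pc := pcF0) (cut := Cut.none) (xt := Ext.none) (P1 := 536870912) (W1 := 536870912) (P2 := 1073741824) (W2 := 536870912) (P3 := 67108864) (W3 := 67108864)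
    rfl rfl rfl k0_mm_102

noncomputable def f_mm_112 : ℕ → ℕ → ℕ → ℕ → Bool := onCell 536870912 536870912 1073741824 536870912 67108864 67108864
    (rowFK 0 false false false .dn 1 1 2 (qsf 536870912 536870912 1073741824 536870912 1) ndF4q1 ndF3q2 pcF1 Cut.none Ext.none)

def k0_mm_112 : ∃ t, chk3 f_mm_112 t 1 1 1 = true :=
  ⟨(l 5), by decide +kernel⟩

theorem c_mm_112 : CertF 536870912 536870912 1073741824 536870912 67108864 67108864 false false false .dn 1 1 2
    ndF4q1 ndF3q2 pcF1 Cut.none Ext.none :=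
  certFK0 (fam := false) (s1 := false) (s2 := false) (a := 1) (b := 1) (c := 2) (cn := .dn) (n1 := ndF4q1) (n2 := ndF3q2) (pc := pcF1) (cut := Cut.none) (xt := Ext.none) (P1 := 536870912) (W1 := 536870912) (P2 := 1073741824) (W2 := 536870912) (P3 := 67108864) (W3 := 67108864)
    rfl rfl rfl k0_mm_112

noncomputable def f_mm_113 : ℕ → ℕ → ℕ → ℕ → Bool := onCell 536870912 536870912 0 1230186008 67108864 67108864
    (rowFK 0 false false false .nn 1 1 3 (qsf 536870912 536870912 0 1230186008 1) ndF4q1 ndF3q3 pcF1 Cut.none Ext.none)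

def k0_mm_113 : ∃ t, chk3 f_mm_113 t 1 1 1 = true :=
  ⟨(l 5), by decide +kernel⟩

theorem c_mm_113 : CertF 536870912 536870912 0 1230186008 67108864 67108864 false false false .nn 1 1 3
    ndF4q1 ndF3q3 pcF1 Cut.none Ext.none :=
  certFK0 (fam := false) (s1 := false) (s2 := false) (a := 1) (b := 1) (c := 3) (cn := .nn) (n1 := ndF4q1) (n2 := ndF3q3) (pc := pcF1) (cut := Cut.none) (xt := Ext.none) (P1 := 536870912) (W1 := 536870912) (P2 := 0) (W2 := 1230186008) (P3 := 67108864) (W3 := 67108864)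
    rfl rfl rfl k0_mm_113

noncomputable def f_mm_123 : ℕ → ℕ → ℕ → ℕ → Bool := onCell 536870912 536870912 0 1230186008 67108864 67108864
    (rowFK 0 false false false .npn 1 2 3 (qsf 536870912 536870912 0 1230186008 2) ndF4q1 ndF3q3 pcF2 Cut.none Ext.none)

def k0_mm_123 : ∃ t, chk3 f_mm_123 t 1 1 1 = true :=
  ⟨(l 5), by decide +kernel⟩

theorem c_mm_123 : CertF 536870912 536870912 0 1230186008 67108864 67108864 false false false .npn 1 2 3
    ndF4q1 ndF3q3 pcF2 Cut.none Ext.none :=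
  certFK0 (fam := false) (s1 := false) (s2 := false) (a := 1) (b := 2) (c := 3) (cn := .npn) (n1 := ndF4q1) (n2 := ndF3q3) (pc := pcF2) (cut := Cut.none) (xt := Ext.none) (P1 := 536870912) (W1 := 536870912) (P2 := 0) (W2 := 1230186008) (P3 := 67108864) (W3 := 67108864)
    rfl rfl rfl k0_mm_123

noncomputable def f_mm_133 : ℕ → ℕ → ℕ → ℕ → Bool := onCell 536870912 536870912 0 1230186008 67108864 67108864
    (rowFK 0 false false false .dn 1 3 3 (qsf 536870912 536870912 0 1230186008 3) ndF4q1 ndF3q3 pcF3 Cut.none Ext.none)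

def k0_mm_133 : ∃ t, chk3 f_mm_133 t 1 1 1 = true :=
  ⟨(l 5), by decide +kernel⟩

theorem c_mm_133 : CertF 536870912 536870912 0 1230186008 67108864 67108864 false false false .dn 1 3 3
    ndF4q1 ndF3q3 pcF3 Cut.none Ext.none :=
  certFK0 (fam := false) (s1 := false) (s2 := false) (a := 1) (b := 3) (c := 3) (cn := .dn) (n1 := ndF4q1) (n2 := ndF3q3) (pc := pcF3) (cut := Cut.none) (xt := Ext.none) (P1 := 536870912) (W1 := 536870912) (P2 := 0) (W2 := 1230186008) (P3 := 67108864) (W3 := 67108864)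
    rfl rfl rfl k0_mm_133

noncomputable def f_mm_202 : ℕ → ℕ → ℕ → ℕ → Bool := onCell 1073741824 536870912 1073741824 536870912 67108864 67108864
    (rowFK 0 false false false .pp 2 0 2 (qsf 1073741824 536870912 1073741824 536870912 0) ndF4q2 ndF3q2 pcF0 Cut.none Ext.none)

def k0_mm_202 : ∃ t, chk3 f_mm_202 t 1 1 1 = true :=
  ⟨(l 3), by decide +kernel⟩

theorem c_mm_202 : CertF 1073741824 536870912 1073741824 536870912 67108864 67108864 false false false .pp 2 0 2
    ndF4q2 ndF3q2 pcF0 Cut.none Ext.none :=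
  certFK0 (fam := false) (s1 := false) (s2 := false) (a := 2) (b := 0) (c := 2) (cn := .pp) (n1 := ndF4q2) (n2 := ndF3q2) (pc := pcF0) (cut := Cut.none) (xt := Ext.none) (P1 := 1073741824) (W1 := 536870912) (P2 := 1073741824) (W2 := 536870912) (P3 := 67108864) (W3 := 67108864)
    rfl rfl rfl k0_mm_202

noncomputable def f_mm_203 : ℕ → ℕ → ℕ → ℕ → Bool := onCell 1073741824 536870912 0 1230186008 67108864 67108864
    (rowFK 0 false false false .up 2 0 3 (qsf 1073741824 536870912 0 1230186008 0) ndF4q2 ndF3q3 pcF0 Cut.none Ext.none)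

def k0_mm_203 : ∃ t, chk3 f_mm_203 t 1 1 1 = true :=
  ⟨(l 5), by decide +kernel⟩

theorem c_mm_203 : CertF 1073741824 536870912 0 1230186008 67108864 67108864 false false false .up 2 0 3
    ndF4q2 ndF3q3 pcF0 Cut.none Ext.none :=
  certFK0 (fam := false) (s1 := false) (s2 := false) (a := 2) (b := 0) (c := 3) (cn := .up) (n1 := ndF4q2) (n2 := ndF3q3) (pc := pcF0) (cut := Cut.none) (xt := Ext.none) (P1 := 1073741824) (W1 := 536870912) (P2 := 0) (W2 := 1230186008) (P3 := 67108864) (W3 := 67108864)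
    rfl rfl rfl k0_mm_203

noncomputable def f_mm_213 : ℕ → ℕ → ℕ → ℕ → Bool := onCell 1073741824 536870912 0 1230186008 67108864 67108864
    (rowFK 0 false false false .pnn 2 1 3 (qsf 1073741824 536870912 0 1230186008 1) ndF4q2 ndF3q3 pcF1 Cut.none Ext.none)

def k0_mm_213 : ∃ t, chk3 f_mm_213 t 1 1 1 = true :=
  ⟨(l 5), by decide +kernel⟩

theorem c_mm_213 : CertF 1073741824 536870912 0 1230186008 67108864 67108864 false false false .pnn 2 1 3
    ndF4q2 ndF3q3 pcF1 Cut.none Ext.none :=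
  certFK0 (fam := false) (s1 := false) (s2 := false) (a := 2) (b := 1) (c := 3) (cn := .pnn) (n1 := ndF4q2) (n2 := ndF3q3) (pc := pcF1) (cut := Cut.none) (xt := Ext.none) (P1 := 1073741824) (W1 := 536870912) (P2 := 0) (W2 := 1230186008) (P3 := 67108864) (W3 := 67108864)
    rfl rfl rfl k0_mm_213

noncomputable def f_mm_303 : ℕ → ℕ → ℕ → ℕ → Bool := onCell 0 1230186008 0 1230186008 67108864 67108864
    (rowFK 0 false false false .npn 3 0 3 (qsf 0 1230186008 0 1230186008 0) ndF4q3 ndF3q3 pcF0 Cut.none Ext.none)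

def k0_mm_303 : ∃ t, chk3 f_mm_303 t 1 1 1 = true :=
  ⟨(b (a (l 3) (l 5)) (b (l 3) (l 3))), by decide +kernel⟩

theorem c_mm_303 : CertF 0 1230186008 0 1230186008 67108864 67108864 false false false .npn 3 0 3
    ndF4q3 ndF3q3 pcF0 Cut.none Ext.none :=
  certFK0 (fam := false) (s1 := false) (s2 := false) (a := 3) (b := 0) (c := 3) (cn := .npn) (n1 := ndF4q3) (n2 := ndF3q3) (pc := pcF0) (cut := Cut.none) (xt := Ext.none) (P1 := 0) (W1 := 1230186008) (P2 := 0) (W2 := 1230186008) (P3 := 67108864) (W3 := 67108864)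
    rfl rfl rfl k0_mm_303

noncomputable def f_mm_313 : ℕ → ℕ → ℕ → ℕ → Bool := onCell 0 1230186008 0 1230186008 67108864 67108864
    (rowFK 0 false false false .dn 3 1 3 (qsf 0 1230186008 0 1230186008 1) ndF4q3 ndF3q3 pcF1 Cut.none Ext.none)

def k0_mm_313 : ∃ t, chk3 f_mm_313 t 1 1 1 = true :=
  ⟨(a (l 1) (b (l 5) (l 1))), by decide +kernel⟩

theorem c_mm_313 : CertF 0 1230186008 0 1230186008 67108864 67108864 false false false .dn 3 1 3
    ndF4q3 ndF3q3 pcF1 Cut.none Ext.none :=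
  certFK0 (fam := false) (s1 := false) (s2 := false) (a := 3) (b := 1) (c := 3) (cn := .dn) (n1 := ndF4q3) (n2 := ndF3q3) (pc := pcF1) (cut := Cut.none) (xt := Ext.none) (P1 := 0) (W1 := 1230186008) (P2 := 0) (W2 := 1230186008) (P3 := 67108864) (W3 := 67108864)
    rfl rfl rfl k0_mm_313

end Pool.Agent.Strip051.G.I1_16_1_8.Tab.C.FB43

namespace Pool.Agent.Strip051.G.I1_16_1_8.Tab.C.FB44

open Pool.Agent.Strip051.PB Pool.Agent.Strip051.PB.T
open Pool.Agent.Strip051.G.I1_16_1_8.Tab

noncomputable def f_pp_001 : ℕ → ℕ → ℕ → ℕ → Bool := onCell 0 536870912 536870912 536870912 67108864 67108864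
    (rowFK 0 false true true .up 0 0 1 (qsf 0 536870912 536870912 536870912 0) ndF4q0 ndF4q1 pcF0 Cut.none Ext.none)

def k0_pp_001 : ∃ t, chk3 f_pp_001 t 1 1 1 = true :=
  ⟨(l 3), by decide +kernel⟩

theorem c_pp_001 : CertF 0 536870912 536870912 536870912 67108864 67108864 false true true .up 0 0 1
    ndF4q0 ndF4q1 pcF0 Cut.none Ext.none :=
  certFK0 (fam := false) (s1 := true) (s2 := true) (a := 0) (b := 0) (c := 1) (cn := .up) (n1 := ndF4q0) (n2 := ndF4q1) (pc := pcF0) (cut := Cut.none) (xt := Ext.none) (P1 := 0) (W1 := 536870912) (P2 := 536870912) (W2 := 536870912) (P3 := 67108864) (W3 := 67108864)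
    rfl rfl rfl k0_pp_001

noncomputable def f_pp_011 : ℕ → ℕ → ℕ → ℕ → Bool := onCell 0 536870912 536870912 536870912 67108864 67108864
    (rowFK 0 false true true .pnn 0 1 1 (qsf 0 536870912 536870912 536870912 1) ndF4q0 ndF4q1 pcF1 Cut.none Ext.none)

def k0_pp_011 : ∃ t, chk3 f_pp_011 t 1 1 1 = true :=
  ⟨(l 3), by decide +kernel⟩

theorem c_pp_011 : CertF 0 536870912 536870912 536870912 67108864 67108864 false true true .pnn 0 1 1
    ndF4q0 ndF4q1 pcF1 Cut.none Ext.none :=
  certFK0 (fam := false) (s1 := true) (s2 := true) (a := 0) (b := 1) (c := 1) (cn := .pnn) (n1 := ndF4q0) (n2 := ndF4q1) (pc := pcF1) (cut := Cut.none) (xt := Ext.none) (P1 := 0) (W1 := 536870912) (P2 := 536870912) (W2 := 536870912) (P3 := 67108864) (W3 := 67108864)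
    rfl rfl rfl k0_pp_011

noncomputable def f_pp_012 : ℕ → ℕ → ℕ → ℕ → Bool := onCell 0 536870912 536870912 536870912 67108864 67108864
    (rowFK 1 false true true .pnp 0 1 2 (qsf 0 536870912 1073741824 536870912 1) ndF4q0 ndF4q2 pcF1 Cut.none Ext.none)

def k0_pp_012 : ∃ t, chk3 f_pp_012 t 1 1 1 = true :=
  ⟨(b (l 3) (a (l 3) (b (l 3) (a (l 3) (l 18868928))))), by decide +kernel⟩

theorem c_pp_012 : CertF 0 536870912 1073741824 536870912 67108864 67108864 false true true .pnp 0 1 2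
    ndF4q0 ndF4q2 pcF1 Cut.none Ext.none :=
  certFK1 (fam := false) (s1 := true) (s2 := true) (a := 0) (b := 1) (c := 2) (cn := .pnp) (n1 := ndF4q0) (n2 := ndF4q2) (pc := pcF1) (cut := Cut.none) (xt := Ext.none) (P1 := 0) (W1 := 536870912) (P2 := 1073741824) (W2 := 536870912) (P3 := 67108864) (W3 := 67108864)
    rfl rfl rfl (fun _ => rfl) k0_pp_012

noncomputable def f_pp_022 : ℕ → ℕ → ℕ → ℕ → Bool := onCell 1073741824 536870912 1073741824 536870912 67108864 67108864
    (rowFK 2 false true true .pp 0 2 2 (qsf 0 536870912 1073741824 536870912 2) ndF4q0 ndF4q2 pcF2 Cut.none Ext.none)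

def k0_pp_022 : ∃ t, chk3 f_pp_022 t 1 1 1 = true :=
  ⟨(a (b (a (b (l 243913205031) (l 218142831399)) (a (a (a (b (l 19452456) (l 19149584)) (b (l 1) (l 19123216))) (l 94528295607)) (b (l 1) (l 18933608)))) (a (a (a (l 18881064) (b (l 18816536) (l 18512696))) (b (l 18761360) (l 18421104))) (b (a (l 18936272) (l 18582688)) (l 18255752)))) (b (b (l 1) (a (l 18798608) (l 1))) (b (a (l 18273112) (l 17980736)) (a (l 17998416) (l 17744664))))), by decide +kernel⟩

theorem c_pp_022 : CertF 0 536870912 1073741824 536870912 67108864 67108864 false true true .pp 0 2 2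
    ndF4q0 ndF4q2 pcF2 Cut.none Ext.none :=
  certFK2 (fam := false) (s1 := true) (s2 := true) (a := 0) (b := 2) (c := 2) (cn := .pp) (n1 := ndF4q0) (n2 := ndF4q2) (pc := pcF2) (cut := Cut.none) (xt := Ext.none) (P1 := 0) (W1 := 536870912) (P2 := 1073741824) (W2 := 536870912) (P3 := 67108864) (W3 := 67108864)
    rfl rfl rfl (fun _ => rfl) k0_pp_022

noncomputable def f_pp_023 : ℕ → ℕ → ℕ → ℕ → Bool := onCell 1073741824 536870912 0 1230186008 67108864 67108864
    (rowFK 2 false true true .up 0 2 3 (qsf 0 536870912 0 1230186008 2) ndF4q0 ndF4q3 pcF2 Cut.none Ext.none)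

def k0_pp_023 : ∃ t, chk3 f_pp_023 t 1 1 1 = true :=
  ⟨(a (b (l 2) (b (a (l 2) (l 457516811799)) (b (a (l 2) (l 17727712)) (a (a (a (l 18309872) (l 18235760)) (l 18134896)) (l 17942280))))) (b (a (l 2) (l 17197416)) (b (a (l 17265896) (l 17022248)) (b (l 17388680) (l 17665472))))), by decide +kernel⟩

theorem c_pp_023 : CertF 0 536870912 0 1230186008 67108864 67108864 false true true .up 0 2 3
    ndF4q0 ndF4q3 pcF2 Cut.none Ext.none :=
  certFK2 (fam := false) (s1 := true) (s2 := true) (a := 0) (b := 2) (c := 3) (cn := .up) (n1 := ndF4q0) (n2 := ndF4q3) (pc := pcF2) (cut := Cut.none) (xt := Ext.none) (P1 := 0) (W1 := 536870912) (P2 := 0) (W2 := 1230186008) (P3 := 67108864) (W3 := 67108864)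
    rfl rfl rfl (fun _ => rfl) k0_pp_023

noncomputable def f_pp_033 : ℕ → ℕ → ℕ → ℕ → Bool := onCell 1610612736 536870912 0 1230186008 67108864 67108864
    (rowFK 2 false true true .pnn 0 3 3 (qsf 0 536870912 0 1230186008 3) ndF4q0 ndF4q3 pcF3 Cut.none Ext.none)

def k0_pp_033 : ∃ t, chk3 f_pp_033 t 1 1 1 = true :=
  ⟨(b (a (a (b (l 4) (l 17696080)) (l 4)) (l 4)) (b (a (a (b (l 16917120) (l 17010048)) (l 17353232)) (l 4)) (a (a (b (l 17145288) (a (l 16920280) (l 16969872))) (b (l 16877248) (a (l 16922600) (l 1)))) (l 1)))), by decide +kernel⟩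

theorem c_pp_033 : CertF 0 536870912 0 1230186008 67108864 67108864 false true true .pnn 0 3 3
    ndF4q0 ndF4q3 pcF3 Cut.none Ext.none :=
  certFK2 (fam := false) (s1 := true) (s2 := true) (a := 0) (b := 3) (c := 3) (cn := .pnn) (n1 := ndF4q0) (n2 := ndF4q3) (pc := pcF3) (cut := Cut.none) (xt := Ext.none) (P1 := 0) (W1 := 536870912) (P2 := 0) (W2 := 1230186008) (P3 := 67108864) (W3 := 67108864)
    rfl rfl rfl (fun _ => rfl) k0_pp_033

noncomputable def f_pp_101 : ℕ → ℕ → ℕ → ℕ → Bool := onCell 536870912 536870912 536870912 536870912 67108864 67108864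
    (rowFK 0 false true true .npn 1 0 1 (qsf 536870912 536870912 536870912 536870912 0) ndF4q1 ndF4q1 pcF0 Cut.none Ext.none)

def k0_pp_101 : ∃ t, chk3 f_pp_101 t 1 1 1 = true :=
  ⟨(l 3), by decide +kernel⟩

theorem c_pp_101 : CertF 536870912 536870912 536870912 536870912 67108864 67108864 false true true .npn 1 0 1
    ndF4q1 ndF4q1 pcF0 Cut.none Ext.none :=
  certFK0 (fam := false) (s1 := true) (s2 := true) (a := 1) (b := 0) (c := 1) (cn := .npn) (n1 := ndF4q1) (n2 := ndF4q1) (pc := pcF0) (cut := Cut.none) (xt := Ext.none) (P1 := 536870912) (W1 := 536870912) (P2 := 536870912) (W2 := 536870912) (P3 := 67108864) (W3 := 67108864)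
    rfl rfl rfl k0_pp_101

noncomputable def f_pp_102 : ℕ → ℕ → ℕ → ℕ → Bool := onCell 536870912 536870912 0 536870912 67108864 67108864
    (rowFK 1 false true true .npp 1 0 2 (qsf 536870912 536870912 1073741824 536870912 0) ndF4q1 ndF4q2 pcF0 Cut.none Ext.none)

def k0_pp_102 : ∃ t, chk3 f_pp_102 t 1 1 1 = true :=
  ⟨(l 3), by decide +kernel⟩

theorem c_pp_102 : CertF 536870912 536870912 1073741824 536870912 67108864 67108864 false true true .npp 1 0 2
    ndF4q1 ndF4q2 pcF0 Cut.none Ext.none :=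
  certFK1 (fam := false) (s1 := true) (s2 := true) (a := 1) (b := 0) (c := 2) (cn := .npp) (n1 := ndF4q1) (n2 := ndF4q2) (pc := pcF0) (cut := Cut.none) (xt := Ext.none) (P1 := 536870912) (W1 := 536870912) (P2 := 1073741824) (W2 := 536870912) (P3 := 67108864) (W3 := 67108864)
    rfl rfl rfl (fun _ => rfl) k0_pp_102

noncomputable def f_pp_112 : ℕ → ℕ → ℕ → ℕ → Bool := onCell 536870912 536870912 1073741824 536870912 67108864 67108864
    (rowFK 2 false true true .dn 1 1 2 (qsf 536870912 536870912 1073741824 536870912 1) ndF4q1 ndF4q2 pcF1 Cut.none Ext.none)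

def k0_pp_112 : ∃ t, chk3 f_pp_112 t 1 1 1 = true :=
  ⟨(a (l 3) (b (l 3) (a (l 3) (l 392088210375)))), by decide +kernel⟩

theorem c_pp_112 : CertF 536870912 536870912 1073741824 536870912 67108864 67108864 false true true .dn 1 1 2
    ndF4q1 ndF4q2 pcF1 Cut.none Ext.none :=
  certFK2 (fam := false) (s1 := true) (s2 := true) (a := 1) (b := 1) (c := 2) (cn := .dn) (n1 := ndF4q1) (n2 := ndF4q2) (pc := pcF1) (cut := Cut.none) (xt := Ext.none) (P1 := 536870912) (W1 := 536870912) (P2 := 1073741824) (W2 := 536870912) (P3 := 67108864) (W3 := 67108864)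
    rfl rfl rfl (fun _ => rfl) k0_pp_112

noncomputable def f_pp_113 : ℕ → ℕ → ℕ → ℕ → Bool := onCell 536870912 536870912 0 1230186008 67108864 67108864
    (rowFK 2 false true true .nn 1 1 3 (qsf 536870912 536870912 0 1230186008 1) ndF4q1 ndF4q3 pcF1 Cut.none Ext.none)

def k0_pp_113 : ∃ t, chk3 f_pp_113 t 1 1 1 = true :=
  ⟨(a (b (l 2) (b (b (l 2) (l 3)) (l 3))) (a (b (l 2) (b (l 18661352) (b (l 18703880) (l 3)))) (b (a (b (l 2) (l 18222304)) (a (b (l 2) (l 17912488)) (l 17398960))) (b (l 18155056) (b (l 18308336) (l 18487784)))))), by decide +kernel⟩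

theorem c_pp_113 : CertF 536870912 536870912 0 1230186008 67108864 67108864 false true true .nn 1 1 3
    ndF4q1 ndF4q3 pcF1 Cut.none Ext.none :=
  certFK2 (fam := false) (s1 := true) (s2 := true) (a := 1) (b := 1) (c := 3) (cn := .nn) (n1 := ndF4q1) (n2 := ndF4q3) (pc := pcF1) (cut := Cut.none) (xt := Ext.none) (P1 := 536870912) (W1 := 536870912) (P2 := 0) (W2 := 1230186008) (P3 := 67108864) (W3 := 67108864)
    rfl rfl rfl (fun _ => rfl) k0_pp_113

noncomputable def f_pp_123 : ℕ → ℕ → ℕ → ℕ → Bool := onCell 1073741824 536870912 0 1230186008 67108864 67108864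
    (rowFK 2 false true true .npn 1 2 3 (qsf 536870912 536870912 0 1230186008 2) ndF4q1 ndF4q3 pcF2 Cut.none Ext.none)

def k0_pp_123 : ∃ t, chk3 f_pp_123 t 1 1 1 = true :=
  ⟨(b (a (b (l 17290792) (l 17190248)) (a (l 17109304) (l 17115232))) (b (a (a (a (a (l 17815816) (l 17753528)) (l 17655072)) (l 17454000)) (a (l 17206816) (l 16986128))) (a (a (a (a (l 18180328) (l 18110248)) (l 18004376)) (l 17839760)) (l 1)))), by decide +kernel⟩

theorem c_pp_123 : CertF 536870912 536870912 0 1230186008 67108864 67108864 false true true .npn 1 2 3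
    ndF4q1 ndF4q3 pcF2 Cut.none Ext.none :=
  certFK2 (fam := false) (s1 := true) (s2 := true) (a := 1) (b := 2) (c := 3) (cn := .npn) (n1 := ndF4q1) (n2 := ndF4q3) (pc := pcF2) (cut := Cut.none) (xt := Ext.none) (P1 := 536870912) (W1 := 536870912) (P2 := 0) (W2 := 1230186008) (P3 := 67108864) (W3 := 67108864)
    rfl rfl rfl (fun _ => rfl) k0_pp_123

noncomputable def f_pp_133 : ℕ → ℕ → ℕ → ℕ → Bool := onCell 1610612736 536870912 0 1230186008 67108864 67108864
    (rowFK 2 false true true .dn 1 3 3 (qsf 536870912 536870912 0 1230186008 3) ndF4q1 ndF4q3 pcF3 Cut.none Ext.none)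

def k0_pp_133 : ∃ t, chk3 f_pp_133 t 1 1 1 = true :=
  ⟨(b (b (l 4) (l 1)) (l 1)), by decide +kernel⟩

theorem c_pp_133 : CertF 536870912 536870912 0 1230186008 67108864 67108864 false true true .dn 1 3 3
    ndF4q1 ndF4q3 pcF3 Cut.none Ext.none :=
  certFK2 (fam := false) (s1 := true) (s2 := true) (a := 1) (b := 3) (c := 3) (cn := .dn) (n1 := ndF4q1) (n2 := ndF4q3) (pc := pcF3) (cut := Cut.none) (xt := Ext.none) (P1 := 536870912) (W1 := 536870912) (P2 := 0) (W2 := 1230186008) (P3 := 67108864) (W3 := 67108864)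
    rfl rfl rfl (fun _ => rfl) k0_pp_133

noncomputable def f_pp_202 : ℕ → ℕ → ℕ → ℕ → Bool := onCell 1073741824 536870912 1073741824 536870912 67108864 67108864
    (rowFK 0 false true true .pp 2 0 2 (qsf 1073741824 536870912 1073741824 536870912 0) ndF4q2 ndF4q2 pcF0 Cut.none Ext.none)

def k0_pp_202 : ∃ t, chk3 f_pp_202 t 1 1 1 = true :=
  ⟨(l 3), by decide +kernel⟩

theorem c_pp_202 : CertF 1073741824 536870912 1073741824 536870912 67108864 67108864 false true true .pp 2 0 2
    ndF4q2 ndF4q2 pcF0 Cut.none Ext.none :=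
  certFK0 (fam := false) (s1 := true) (s2 := true) (a := 2) (b := 0) (c := 2) (cn := .pp) (n1 := ndF4q2) (n2 := ndF4q2) (pc := pcF0) (cut := Cut.none) (xt := Ext.none) (P1 := 1073741824) (W1 := 536870912) (P2 := 1073741824) (W2 := 536870912) (P3 := 67108864) (W3 := 67108864)
    rfl rfl rfl k0_pp_202

noncomputable def f_pp_203 : ℕ → ℕ → ℕ → ℕ → Bool := onCell 0 536870912 0 1230186008 67108864 67108864
    (rowFK 2 false true true .up 2 0 3 (qsf 1073741824 536870912 0 1230186008 0) ndF4q2 ndF4q3 pcF0 Cut.none Ext.none)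

def k0_pp_203 : ∃ t, chk3 f_pp_203 t 1 1 1 = true :=
  ⟨(b (a (l 2) (a (l 2) (a (l 309944632407) (l 279343113671)))) (l 3)), by decide +kernel⟩

theorem c_pp_203 : CertF 1073741824 536870912 0 1230186008 67108864 67108864 false true true .up 2 0 3
    ndF4q2 ndF4q3 pcF0 Cut.none Ext.none :=
  certFK2 (fam := false) (s1 := true) (s2 := true) (a := 2) (b := 0) (c := 3) (cn := .up) (n1 := ndF4q2) (n2 := ndF4q3) (pc := pcF0) (cut := Cut.none) (xt := Ext.none) (P1 := 1073741824) (W1 := 536870912) (P2 := 0) (W2 := 1230186008) (P3 := 67108864) (W3 := 67108864)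
    rfl rfl rfl (fun _ => rfl) k0_pp_203

noncomputable def f_pp_213 : ℕ → ℕ → ℕ → ℕ → Bool := onCell 536870912 536870912 0 1230186008 67108864 67108864
    (rowFK 2 false true true .pnn 2 1 3 (qsf 1073741824 536870912 0 1230186008 1) ndF4q2 ndF4q3 pcF1 Cut.none Ext.none)

def k0_pp_213 : ∃ t, chk3 f_pp_213 t 1 1 1 = true :=
  ⟨(b (a (a (b (l 18270424) (l 271290471847)) (b (l 18244776) (l 18346952))) (a (b (b (l 17786080) (l 18113048)) (b (l 18233392) (l 18312568))) (a (b (l 17425784) (l 18115432)) (a (b (l 17232824) (l 17984552)) (l 1764730132199))))) (a (b (a (l 3) (b (l 18314328) (l 3))) (l 3)) (b (a (l 200424926775) (l 18937832)) (l 1)))), by decide +kernel⟩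

theorem c_pp_213 : CertF 1073741824 536870912 0 1230186008 67108864 67108864 false true true .pnn 2 1 3
    ndF4q2 ndF4q3 pcF1 Cut.none Ext.none :=
  certFK2 (fam := false) (s1 := true) (s2 := true) (a := 2) (b := 1) (c := 3) (cn := .pnn) (n1 := ndF4q2) (n2 := ndF4q3) (pc := pcF1) (cut := Cut.none) (xt := Ext.none) (P1 := 1073741824) (W1 := 536870912) (P2 := 0) (W2 := 1230186008) (P3 := 67108864) (W3 := 67108864)
    rfl rfl rfl (fun _ => rfl) k0_pp_213

noncomputable def f_pp_303 : ℕ → ℕ → ℕ → ℕ → Bool := onCell 0 1230186008 0 1230186008 67108864 67108864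
    (rowFK 0 false true true .npn 3 0 3 (qsf 0 1230186008 0 1230186008 0) ndF4q3 ndF4q3 pcF0 Cut.none Ext.none)

def k0_pp_303 : ∃ t, chk3 f_pp_303 t 1 1 1 = true :=
  ⟨(a (b (l 3) (a (l 1) (l 3))) (b (a (l 3) (b (a (l 326050439527) (l 17646296)) (l 3))) (l 3))), by decide +kernel⟩

theorem c_pp_303 : CertF 0 1230186008 0 1230186008 67108864 67108864 false true true .npn 3 0 3
    ndF4q3 ndF4q3 pcF0 Cut.none Ext.none :=
  certFK0 (fam := false) (s1 := true) (s2 := true) (a := 3) (b := 0) (c := 3) (cn := .npn) (n1 := ndF4q3) (n2 := ndF4q3) (pc := pcF0) (cut := Cut.none) (xt := Ext.none) (P1 := 0) (W1 := 1230186008) (P2 := 0) (W2 := 1230186008) (P3 := 67108864) (W3 := 67108864)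
    rfl rfl rfl k0_pp_303

noncomputable def f_pp_313 : ℕ → ℕ → ℕ → ℕ → Bool := onCell 0 1230186008 0 1230186008 67108864 67108864
    (rowFK 0 false true true .dn 3 1 3 (qsf 0 1230186008 0 1230186008 1) ndF4q3 ndF4q3 pcF1 Cut.none Ext.none)

def k0_pp_313 : ∃ t, chk3 f_pp_313 t 1 1 1 = true :=
  ⟨(a (l 1) (b (a (l 1) (a (l 1) (b (l 4501161863767) (l 1)))) (l 1))), by decide +kernel⟩

theorem c_pp_313 : CertF 0 1230186008 0 1230186008 67108864 67108864 false true true .dn 3 1 3
    ndF4q3 ndF4q3 pcF1 Cut.none Ext.none :=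
  certFK0 (fam := false) (s1 := true) (s2 := true) (a := 3) (b := 1) (c := 3) (cn := .dn) (n1 := ndF4q3) (n2 := ndF4q3) (pc := pcF1) (cut := Cut.none) (xt := Ext.none) (P1 := 0) (W1 := 1230186008) (P2 := 0) (W2 := 1230186008) (P3 := 67108864) (W3 := 67108864)
    rfl rfl rfl k0_pp_313

noncomputable def f_pm_001 : ℕ → ℕ → ℕ → ℕ → Bool := onCell 0 536870912 536870912 536870912 67108864 67108864
    (rowFK 0 false true false .up 0 0 1 (qsf 0 536870912 536870912 536870912 0) ndF4q0 ndF4q1 pcF0 Cut.none Ext.none)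

def k0_pm_001 : ∃ t, chk3 f_pm_001 t 1 1 1 = true :=
  ⟨(l 4), by decide +kernel⟩

theorem c_pm_001 : CertF 0 536870912 536870912 536870912 67108864 67108864 false true false .up 0 0 1
    ndF4q0 ndF4q1 pcF0 Cut.none Ext.none :=
  certFK0 (fam := false) (s1 := true) (s2 := false) (a := 0) (b := 0) (c := 1) (cn := .up) (n1 := ndF4q0) (n2 := ndF4q1) (pc := pcF0) (cut := Cut.none) (xt := Ext.none) (P1 := 0) (W1 := 536870912) (P2 := 536870912) (W2 := 536870912) (P3 := 67108864) (W3 := 67108864)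
    rfl rfl rfl k0_pm_001

noncomputable def f_pm_011 : ℕ → ℕ → ℕ → ℕ → Bool := onCell 0 536870912 536870912 536870912 67108864 67108864
    (rowFK 0 false true false .pnn 0 1 1 (qsf 0 536870912 536870912 536870912 1) ndF4q0 ndF4q1 pcF1 Cut.none Ext.none)

def k0_pm_011 : ∃ t, chk3 f_pm_011 t 1 1 1 = true :=
  ⟨(l 4), by decide +kernel⟩

theorem c_pm_011 : CertF 0 536870912 536870912 536870912 67108864 67108864 false true false .pnn 0 1 1
    ndF4q0 ndF4q1 pcF1 Cut.none Ext.none :=
  certFK0 (fam := false) (s1 := true) (s2 := false) (a := 0) (b := 1) (c := 1) (cn := .pnn) (n1 := ndF4q0) (n2 := ndF4q1) (pc := pcF1) (cut := Cut.none) (xt := Ext.none) (P1 := 0) (W1 := 536870912) (P2 := 536870912) (W2 := 536870912) (P3 := 67108864) (W3 := 67108864)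
    rfl rfl rfl k0_pm_011

noncomputable def f_pm_012 : ℕ → ℕ → ℕ → ℕ → Bool := onCell 0 536870912 1073741824 536870912 67108864 67108864
    (rowFK 0 false true false .pnp 0 1 2 (qsf 0 536870912 1073741824 536870912 1) ndF4q0 ndF4q2 pcF1 Cut.none Ext.none)

def k0_pm_012 : ∃ t, chk3 f_pm_012 t 1 1 1 = true :=
  ⟨(l 4), by decide +kernel⟩

theorem c_pm_012 : CertF 0 536870912 1073741824 536870912 67108864 67108864 false true false .pnp 0 1 2
    ndF4q0 ndF4q2 pcF1 Cut.none Ext.none :=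
  certFK0 (fam := false) (s1 := true) (s2 := false) (a := 0) (b := 1) (c := 2) (cn := .pnp) (n1 := ndF4q0) (n2 := ndF4q2) (pc := pcF1) (cut := Cut.none) (xt := Ext.none) (P1 := 0) (W1 := 536870912) (P2 := 1073741824) (W2 := 536870912) (P3 := 67108864) (W3 := 67108864)
    rfl rfl rfl k0_pm_012

noncomputable def f_pm_022 : ℕ → ℕ → ℕ → ℕ → Bool := onCell 0 536870912 1073741824 536870912 67108864 67108864
    (rowFK 0 false true false .pp 0 2 2 (qsf 0 536870912 1073741824 536870912 2) ndF4q0 ndF4q2 pcF2 Cut.none Ext.none)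

def k0_pm_022 : ∃ t, chk3 f_pm_022 t 1 1 1 = true :=
  ⟨(l 4), by decide +kernel⟩

theorem c_pm_022 : CertF 0 536870912 1073741824 536870912 67108864 67108864 false true false .pp 0 2 2
    ndF4q0 ndF4q2 pcF2 Cut.none Ext.none :=
  certFK0 (fam := false) (s1 := true) (s2 := false) (a := 0) (b := 2) (c := 2) (cn := .pp) (n1 := ndF4q0) (n2 := ndF4q2) (pc := pcF2) (cut := Cut.none) (xt := Ext.none) (P1 := 0) (W1 := 536870912) (P2 := 1073741824) (W2 := 536870912) (P3 := 67108864) (W3 := 67108864)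
    rfl rfl rfl k0_pm_022

noncomputable def f_pm_023 : ℕ → ℕ → ℕ → ℕ → Bool := onCell 0 536870912 0 1230186008 67108864 67108864
    (rowFK 0 false true false .up 0 2 3 (qsf 0 536870912 0 1230186008 2) ndF4q0 ndF4q3 pcF2 Cut.none Ext.none)

def k0_pm_023 : ∃ t, chk3 f_pm_023 t 1 1 1 = true :=
  ⟨(l 4), by decide +kernel⟩

theorem c_pm_023 : CertF 0 536870912 0 1230186008 67108864 67108864 false true false .up 0 2 3
    ndF4q0 ndF4q3 pcF2 Cut.none Ext.none :=
  certFK0 (fam := false) (s1 := true) (s2 := false) (a := 0) (b := 2) (c := 3) (cn := .up) (n1 := ndF4q0) (n2 := ndF4q3) (pc := pcF2) (cut := Cut.none) (xt := Ext.none) (P1 := 0) (W1 := 536870912) (P2 := 0) (W2 := 1230186008) (P3 := 67108864) (W3 := 67108864)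
    rfl rfl rfl k0_pm_023

noncomputable def f_pm_033 : ℕ → ℕ → ℕ → ℕ → Bool := onCell 0 536870912 0 1230186008 67108864 67108864
    (rowFK 0 false true false .pnn 0 3 3 (qsf 0 536870912 0 1230186008 3) ndF4q0 ndF4q3 pcF3 Cut.none Ext.none)

def k0_pm_033 : ∃ t, chk3 f_pm_033 t 1 1 1 = true :=
  ⟨(l 4), by decide +kernel⟩

theorem c_pm_033 : CertF 0 536870912 0 1230186008 67108864 67108864 false true false .pnn 0 3 3
    ndF4q0 ndF4q3 pcF3 Cut.none Ext.none :=
  certFK0 (fam := false) (s1 := true) (s2 := false) (a := 0) (b := 3) (c := 3) (cn := .pnn) (n1 := ndF4q0) (n2 := ndF4q3) (pc := pcF3) (cut := Cut.none) (xt := Ext.none) (P1 := 0) (W1 := 536870912) (P2 := 0) (W2 := 1230186008) (P3 := 67108864) (W3 := 67108864)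
    rfl rfl rfl k0_pm_033

noncomputable def f_pm_101 : ℕ → ℕ → ℕ → ℕ → Bool := onCell 536870912 536870912 536870912 536870912 67108864 67108864
    (rowFK 0 false true false .npn 1 0 1 (qsf 536870912 536870912 536870912 536870912 0) ndF4q1 ndF4q1 pcF0 Cut.none Ext.none)

def k0_pm_101 : ∃ t, chk3 f_pm_101 t 1 1 1 = true :=
  ⟨(l 4), by decide +kernel⟩

theorem c_pm_101 : CertF 536870912 536870912 536870912 536870912 67108864 67108864 false true false .npn 1 0 1
    ndF4q1 ndF4q1 pcF0 Cut.none Ext.none :=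
  certFK0 (fam := false) (s1 := true) (s2 := false) (a := 1) (b := 0) (c := 1) (cn := .npn) (n1 := ndF4q1) (n2 := ndF4q1) (pc := pcF0) (cut := Cut.none) (xt := Ext.none) (P1 := 536870912) (W1 := 536870912) (P2 := 536870912) (W2 := 536870912) (P3 := 67108864) (W3 := 67108864)
    rfl rfl rfl k0_pm_101

noncomputable def f_pm_102 : ℕ → ℕ → ℕ → ℕ → Bool := onCell 536870912 536870912 1073741824 536870912 67108864 67108864
    (rowFK 0 false true false .npp 1 0 2 (qsf 536870912 536870912 1073741824 536870912 0) ndF4q1 ndF4q2 pcF0 Cut.none Ext.none)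

def k0_pm_102 : ∃ t, chk3 f_pm_102 t 1 1 1 = true :=
  ⟨(l 4), by decide +kernel⟩

theorem c_pm_102 : CertF 536870912 536870912 1073741824 536870912 67108864 67108864 false true false .npp 1 0 2
    ndF4q1 ndF4q2 pcF0 Cut.none Ext.none :=
  certFK0 (fam := false) (s1 := true) (s2 := false) (a := 1) (b := 0) (c := 2) (cn := .npp) (n1 := ndF4q1) (n2 := ndF4q2) (pc := pcF0) (cut := Cut.none) (xt := Ext.none) (P1 := 536870912) (W1 := 536870912) (P2 := 1073741824) (W2 := 536870912) (P3 := 67108864) (W3 := 67108864)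
    rfl rfl rfl k0_pm_102

noncomputable def f_pm_112 : ℕ → ℕ → ℕ → ℕ → Bool := onCell 536870912 536870912 1073741824 536870912 67108864 67108864
    (rowFK 0 false true false .dn 1 1 2 (qsf 536870912 536870912 1073741824 536870912 1) ndF4q1 ndF4q2 pcF1 Cut.none Ext.none)

def k0_pm_112 : ∃ t, chk3 f_pm_112 t 1 1 1 = true :=
  ⟨(l 4), by decide +kernel⟩

theorem c_pm_112 : CertF 536870912 536870912 1073741824 536870912 67108864 67108864 false true false .dn 1 1 2
    ndF4q1 ndF4q2 pcF1 Cut.none Ext.none :=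
  certFK0 (fam := false) (s1 := true) (s2 := false) (a := 1) (b := 1) (c := 2) (cn := .dn) (n1 := ndF4q1) (n2 := ndF4q2) (pc := pcF1) (cut := Cut.none) (xt := Ext.none) (P1 := 536870912) (W1 := 536870912) (P2 := 1073741824) (W2 := 536870912) (P3 := 67108864) (W3 := 67108864)
    rfl rfl rfl k0_pm_112

noncomputable def f_pm_113 : ℕ → ℕ → ℕ → ℕ → Bool := onCell 536870912 536870912 0 1230186008 67108864 67108864
    (rowFK 0 false true false .nn 1 1 3 (qsf 536870912 536870912 0 1230186008 1) ndF4q1 ndF4q3 pcF1 Cut.none Ext.none)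

def k0_pm_113 : ∃ t, chk3 f_pm_113 t 1 1 1 = true :=
  ⟨(b (b (a (l 2) (l 16912528)) (l 4)) (l 4)), by decide +kernel⟩

theorem c_pm_113 : CertF 536870912 536870912 0 1230186008 67108864 67108864 false true false .nn 1 1 3
    ndF4q1 ndF4q3 pcF1 Cut.none Ext.none :=
  certFK0 (fam := false) (s1 := true) (s2 := false) (a := 1) (b := 1) (c := 3) (cn := .nn) (n1 := ndF4q1) (n2 := ndF4q3) (pc := pcF1) (cut := Cut.none) (xt := Ext.none) (P1 := 536870912) (W1 := 536870912) (P2 := 0) (W2 := 1230186008) (P3 := 67108864) (W3 := 67108864)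
    rfl rfl rfl k0_pm_113

noncomputable def f_pm_123 : ℕ → ℕ → ℕ → ℕ → Bool := onCell 536870912 536870912 0 1230186008 67108864 67108864
    (rowFK 0 false true false .npn 1 2 3 (qsf 536870912 536870912 0 1230186008 2) ndF4q1 ndF4q3 pcF2 Cut.none Ext.none)

def k0_pm_123 : ∃ t, chk3 f_pm_123 t 1 1 1 = true :=
  ⟨(b (a (l 4) (b (l 17533416) (l 4))) (l 4)), by decide +kernel⟩

theorem c_pm_123 : CertF 536870912 536870912 0 1230186008 67108864 67108864 false true false .npn 1 2 3
    ndF4q1 ndF4q3 pcF2 Cut.none Ext.none :=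
  certFK0 (fam := false) (s1 := true) (s2 := false) (a := 1) (b := 2) (c := 3) (cn := .npn) (n1 := ndF4q1) (n2 := ndF4q3) (pc := pcF2) (cut := Cut.none) (xt := Ext.none) (P1 := 536870912) (W1 := 536870912) (P2 := 0) (W2 := 1230186008) (P3 := 67108864) (W3 := 67108864)
    rfl rfl rfl k0_pm_123

noncomputable def f_pm_133 : ℕ → ℕ → ℕ → ℕ → Bool := onCell 1610612736 536870912 0 1230186008 67108864 67108864
    (rowFK 2 false true false .dn 1 3 3 (qsf 536870912 536870912 0 1230186008 3) ndF4q1 ndF4q3 pcF3 Cut.none Ext.none)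

def k0_pm_133 : ∃ t, chk3 f_pm_133 t 1 1 1 = true :=
  ⟨(l 4), by decide +kernel⟩

theorem c_pm_133 : CertF 536870912 536870912 0 1230186008 67108864 67108864 false true false .dn 1 3 3
    ndF4q1 ndF4q3 pcF3 Cut.none Ext.none :=
  certFK2 (fam := false) (s1 := true) (s2 := false) (a := 1) (b := 3) (c := 3) (cn := .dn) (n1 := ndF4q1) (n2 := ndF4q3) (pc := pcF3) (cut := Cut.none) (xt := Ext.none) (P1 := 536870912) (W1 := 536870912) (P2 := 0) (W2 := 1230186008) (P3 := 67108864) (W3 := 67108864)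
    rfl rfl rfl (fun _ => rfl) k0_pm_133

noncomputable def f_pm_202 : ℕ → ℕ → ℕ → ℕ → Bool := onCell 1073741824 536870912 1073741824 536870912 67108864 67108864
    (rowFK 0 false true false .pp 2 0 2 (qsf 1073741824 536870912 1073741824 536870912 0) ndF4q2 ndF4q2 pcF0 Cut.none Ext.none)

def k0_pm_202 : ∃ t, chk3 f_pm_202 t 1 1 1 = true :=
  ⟨(l 4), by decide +kernel⟩

theorem c_pm_202 : CertF 1073741824 536870912 1073741824 536870912 67108864 67108864 false true false .pp 2 0 2
    ndF4q2 ndF4q2 pcF0 Cut.none Ext.none :=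
  certFK0 (fam := false) (s1 := true) (s2 := false) (a := 2) (b := 0) (c := 2) (cn := .pp) (n1 := ndF4q2) (n2 := ndF4q2) (pc := pcF0) (cut := Cut.none) (xt := Ext.none) (P1 := 1073741824) (W1 := 536870912) (P2 := 1073741824) (W2 := 536870912) (P3 := 67108864) (W3 := 67108864)
    rfl rfl rfl k0_pm_202

noncomputable def f_pm_203 : ℕ → ℕ → ℕ → ℕ → Bool := onCell 1073741824 536870912 0 1230186008 67108864 67108864
    (rowFK 0 false true false .up 2 0 3 (qsf 1073741824 536870912 0 1230186008 0) ndF4q2 ndF4q3 pcF0 Cut.none Ext.none)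

def k0_pm_203 : ∃ t, chk3 f_pm_203 t 1 1 1 = true :=
  ⟨(a (b (l 2) (l 4)) (b (a (l 2) (a (b (l 2) (l 17578656)) (b (l 17463952) (l 17365344)))) (b (a (l 4) (l 4)) (l 4)))), by decide +kernel⟩

theorem c_pm_203 : CertF 1073741824 536870912 0 1230186008 67108864 67108864 false true false .up 2 0 3
    ndF4q2 ndF4q3 pcF0 Cut.none Ext.none :=
  certFK0 (fam := false) (s1 := true) (s2 := false) (a := 2) (b := 0) (c := 3) (cn := .up) (n1 := ndF4q2) (n2 := ndF4q3) (pc := pcF0) (cut := Cut.none) (xt := Ext.none) (P1 := 1073741824) (W1 := 536870912) (P2 := 0) (W2 := 1230186008) (P3 := 67108864) (W3 := 67108864)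
    rfl rfl rfl k0_pm_203

noncomputable def f_pm_213 : ℕ → ℕ → ℕ → ℕ → Bool := onCell 536870912 536870912 0 1230186008 67108864 67108864
    (rowFK 2 false true false .pnn 2 1 3 (qsf 1073741824 536870912 0 1230186008 1) ndF4q2 ndF4q3 pcF1 Cut.none Ext.none)

def k0_pm_213 : ∃ t, chk3 f_pm_213 t 1 1 1 = true :=
  ⟨(b (b (a (a (b (l 18460000) (a (l 18185592) (b (l 18193408) (l 17171024)))) (a (b (l 18469080) (l 17846400)) (l 17949808))) (a (a (l 17500464) (l 17284288)) (a (l 16928248) (a (l 16913576) (l 16936752))))) (a (a (a (a (l 17289008) (l 17316160)) (l 17494216)) (l 16960488)) (l 4))) (b (l 4) (l 4))), by decide +kernel⟩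

theorem c_pm_213 : CertF 1073741824 536870912 0 1230186008 67108864 67108864 false true false .pnn 2 1 3
    ndF4q2 ndF4q3 pcF1 Cut.none Ext.none :=
  certFK2 (fam := false) (s1 := true) (s2 := false) (a := 2) (b := 1) (c := 3) (cn := .pnn) (n1 := ndF4q2) (n2 := ndF4q3) (pc := pcF1) (cut := Cut.none) (xt := Ext.none) (P1 := 1073741824) (W1 := 536870912) (P2 := 0) (W2 := 1230186008) (P3 := 67108864) (W3 := 67108864)
    rfl rfl rfl (fun _ => rfl) k0_pm_213

noncomputable def f_pm_303 : ℕ → ℕ → ℕ → ℕ → Bool := onCell 0 1230186008 0 1230186008 67108864 67108864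
    (rowFK 0 false true false .npn 3 0 3 (qsf 0 1230186008 0 1230186008 0) ndF4q3 ndF4q3 pcF0 Cut.none Ext.none)

def k0_pm_303 : ∃ t, chk3 f_pm_303 t 1 1 1 = true :=
  ⟨(a (b (b (l 3) (a (l 3) (b (l 275584170967) (a (b (l 3) (l 1)) (b (l 17730984) (l 17577104)))))) (a (l 1) (b (a (l 1) (b (b (l 17028672) (l 1)) (l 1))) (l 1)))) (b (a (b (a (l 313164926855) (l 236929490183)) (a (b (b (l 17684888) (l 17571744)) (b (l 17565480) (l 16875840))) (b (b (l 17483184) (l 17406520)) (b (l 16917352) (l 17106456))))) (a (b (b (l 17571824) (l 17367448)) (b (l 17002648) (l 16949936))) (b (a (l 17374992) (l 17479304)) (a (l 16997576) (l 17152288))))) (a (b (a (b (b (l 17397552) (l 17605712)) (l 17446392)) (b (b (l 17192624) (l 17317624)) (l 17140584))) (a (l 1) (b (b (l 16932424) (l 1)) (l 1)))) (b (a (l 16963344) (b (l 17036920) (l 17048784))) (a (b (l 17227528) (l 4)) (l 4)))))), by decide +kernel⟩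

theorem c_pm_303 : CertF 0 1230186008 0 1230186008 67108864 67108864 false true false .npn 3 0 3
    ndF4q3 ndF4q3 pcF0 Cut.none Ext.none :=
  certFK0 (fam := false) (s1 := true) (s2 := false) (a := 3) (b := 0) (c := 3) (cn := .npn) (n1 := ndF4q3) (n2 := ndF4q3) (pc := pcF0) (cut := Cut.none) (xt := Ext.none) (P1 := 0) (W1 := 1230186008) (P2 := 0) (W2 := 1230186008) (P3 := 67108864) (W3 := 67108864)
    rfl rfl rfl k0_pm_303

noncomputable def f_pm_313 : ℕ → ℕ → ℕ → ℕ → Bool := onCell 0 1230186008 0 1230186008 67108864 67108864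
    (rowFK 0 false true false .dn 3 1 3 (qsf 0 1230186008 0 1230186008 1) ndF4q3 ndF4q3 pcF1 Cut.none Ext.none)

def k0_pm_313 : ∃ t, chk3 f_pm_313 t 1 1 1 = true :=
  ⟨(a (l 1) (b (a (l 1) (a (l 1) (b (b (l 18115472) (l 1)) (l 1)))) (l 1))), by decide +kernel⟩

theorem c_pm_313 : CertF 0 1230186008 0 1230186008 67108864 67108864 false true false .dn 3 1 3
    ndF4q3 ndF4q3 pcF1 Cut.none Ext.none :=
  certFK0 (fam := false) (s1 := true) (s2 := false) (a := 3) (b := 1) (c := 3) (cn := .dn) (n1 := ndF4q3) (n2 := ndF4q3) (pc := pcF1) (cut := Cut.none) (xt := Ext.none) (P1 := 0) (W1 := 1230186008) (P2 := 0) (W2 := 1230186008) (P3 := 67108864) (W3 := 67108864)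
    rfl rfl rfl k0_pm_313

noncomputable def f_mm_001 : ℕ → ℕ → ℕ → ℕ → Bool := onCell 0 536870912 536870912 536870912 67108864 67108864
    (rowFK 0 false false false .up 0 0 1 (qsf 0 536870912 536870912 536870912 0) ndF4q0 ndF4q1 pcF0 Cut.none Ext.none)

def k0_mm_001 : ∃ t, chk3 f_mm_001 t 1 1 1 = true :=
  ⟨(l 3), by decide +kernel⟩

theorem c_mm_001 : CertF 0 536870912 536870912 536870912 67108864 67108864 false false false .up 0 0 1
    ndF4q0 ndF4q1 pcF0 Cut.none Ext.none :=
  certFK0 (fam := false) (s1 := false) (s2 := false) (a := 0) (b := 0) (c := 1) (cn := .up) (n1 := ndF4q0) (n2 := ndF4q1) (pc := pcF0) (cut := Cut.none) (xt := Ext.none) (P1 := 0) (W1 := 536870912) (P2 := 536870912) (W2 := 536870912) (P3 := 67108864) (W3 := 67108864)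
    rfl rfl rfl k0_mm_001

noncomputable def f_mm_011 : ℕ → ℕ → ℕ → ℕ → Bool := onCell 0 536870912 536870912 536870912 67108864 67108864
    (rowFK 0 false false false .pnn 0 1 1 (qsf 0 536870912 536870912 536870912 1) ndF4q0 ndF4q1 pcF1 Cut.none Ext.none)

def k0_mm_011 : ∃ t, chk3 f_mm_011 t 1 1 1 = true :=
  ⟨(l 3), by decide +kernel⟩

theorem c_mm_011 : CertF 0 536870912 536870912 536870912 67108864 67108864 false false false .pnn 0 1 1
    ndF4q0 ndF4q1 pcF1 Cut.none Ext.none :=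
  certFK0 (fam := false) (s1 := false) (s2 := false) (a := 0) (b := 1) (c := 1) (cn := .pnn) (n1 := ndF4q0) (n2 := ndF4q1) (pc := pcF1) (cut := Cut.none) (xt := Ext.none) (P1 := 0) (W1 := 536870912) (P2 := 536870912) (W2 := 536870912) (P3 := 67108864) (W3 := 67108864)
    rfl rfl rfl k0_mm_011

noncomputable def f_mm_012 : ℕ → ℕ → ℕ → ℕ → Bool := onCell 0 536870912 1073741824 536870912 67108864 67108864
    (rowFK 0 false false false .pnp 0 1 2 (qsf 0 536870912 1073741824 536870912 1) ndF4q0 ndF4q2 pcF1 Cut.none Ext.none)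

def k0_mm_012 : ∃ t, chk3 f_mm_012 t 1 1 1 = true :=
  ⟨(l 5), by decide +kernel⟩

theorem c_mm_012 : CertF 0 536870912 1073741824 536870912 67108864 67108864 false false false .pnp 0 1 2
    ndF4q0 ndF4q2 pcF1 Cut.none Ext.none :=
  certFK0 (fam := false) (s1 := false) (s2 := false) (a := 0) (b := 1) (c := 2) (cn := .pnp) (n1 := ndF4q0) (n2 := ndF4q2) (pc := pcF1) (cut := Cut.none) (xt := Ext.none) (P1 := 0) (W1 := 536870912) (P2 := 1073741824) (W2 := 536870912) (P3 := 67108864) (W3 := 67108864)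
    rfl rfl rfl k0_mm_012

noncomputable def f_mm_022 : ℕ → ℕ → ℕ → ℕ → Bool := onCell 0 536870912 1073741824 536870912 67108864 67108864
    (rowFK 0 false false false .pp 0 2 2 (qsf 0 536870912 1073741824 536870912 2) ndF4q0 ndF4q2 pcF2 Cut.none Ext.none)

def k0_mm_022 : ∃ t, chk3 f_mm_022 t 1 1 1 = true :=
  ⟨(l 5), by decide +kernel⟩

theorem c_mm_022 : CertF 0 536870912 1073741824 536870912 67108864 67108864 false false false .pp 0 2 2
    ndF4q0 ndF4q2 pcF2 Cut.none Ext.none :=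
  certFK0 (fam := false) (s1 := false) (s2 := false) (a := 0) (b := 2) (c := 2) (cn := .pp) (n1 := ndF4q0) (n2 := ndF4q2) (pc := pcF2) (cut := Cut.none) (xt := Ext.none) (P1 := 0) (W1 := 536870912) (P2 := 1073741824) (W2 := 536870912) (P3 := 67108864) (W3 := 67108864)
    rfl rfl rfl k0_mm_022

noncomputable def f_mm_023 : ℕ → ℕ → ℕ → ℕ → Bool := onCell 0 536870912 0 1230186008 67108864 67108864
    (rowFK 0 false false false .up 0 2 3 (qsf 0 536870912 0 1230186008 2) ndF4q0 ndF4q3 pcF2 Cut.none Ext.none)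

def k0_mm_023 : ∃ t, chk3 f_mm_023 t 1 1 1 = true :=
  ⟨(l 5), by decide +kernel⟩

theorem c_mm_023 : CertF 0 536870912 0 1230186008 67108864 67108864 false false false .up 0 2 3
    ndF4q0 ndF4q3 pcF2 Cut.none Ext.none :=
  certFK0 (fam := false) (s1 := false) (s2 := false) (a := 0) (b := 2) (c := 3) (cn := .up) (n1 := ndF4q0) (n2 := ndF4q3) (pc := pcF2) (cut := Cut.none) (xt := Ext.none) (P1 := 0) (W1 := 536870912) (P2 := 0) (W2 := 1230186008) (P3 := 67108864) (W3 := 67108864)
    rfl rfl rfl k0_mm_023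

noncomputable def f_mm_033 : ℕ → ℕ → ℕ → ℕ → Bool := onCell 0 536870912 0 1230186008 67108864 67108864
    (rowFK 0 false false false .pnn 0 3 3 (qsf 0 536870912 0 1230186008 3) ndF4q0 ndF4q3 pcF3 Cut.none Ext.none)

def k0_mm_033 : ∃ t, chk3 f_mm_033 t 1 1 1 = true :=
  ⟨(l 5), by decide +kernel⟩

theorem c_mm_033 : CertF 0 536870912 0 1230186008 67108864 67108864 false false false .pnn 0 3 3
    ndF4q0 ndF4q3 pcF3 Cut.none Ext.none :=
  certFK0 (fam := false) (s1 := false) (s2 := false) (a := 0) (b := 3) (c := 3) (cn := .pnn) (n1 := ndF4q0) (n2 := ndF4q3) (pc := pcF3) (cut := Cut.none) (xt := Ext.none) (P1 := 0) (W1 := 536870912) (P2 := 0) (W2 := 1230186008) (P3 := 67108864) (W3 := 67108864)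
    rfl rfl rfl k0_mm_033

noncomputable def f_mm_101 : ℕ → ℕ → ℕ → ℕ → Bool := onCell 536870912 536870912 536870912 536870912 67108864 67108864
    (rowFK 0 false false false .npn 1 0 1 (qsf 536870912 536870912 536870912 536870912 0) ndF4q1 ndF4q1 pcF0 Cut.none Ext.none)

def k0_mm_101 : ∃ t, chk3 f_mm_101 t 1 1 1 = true :=
  ⟨(l 3), by decide +kernel⟩

theorem c_mm_101 : CertF 536870912 536870912 536870912 536870912 67108864 67108864 false false false .npn 1 0 1
    ndF4q1 ndF4q1 pcF0 Cut.none Ext.none :=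
  certFK0 (fam := false) (s1 := false) (s2 := false) (a := 1) (b := 0) (c := 1) (cn := .npn) (n1 := ndF4q1) (n2 := ndF4q1) (pc := pcF0) (cut := Cut.none) (xt := Ext.none) (P1 := 536870912) (W1 := 536870912) (P2 := 536870912) (W2 := 536870912) (P3 := 67108864) (W3 := 67108864)
    rfl rfl rfl k0_mm_101

noncomputable def f_mm_102 : ℕ → ℕ → ℕ → ℕ → Bool := onCell 536870912 536870912 0 536870912 67108864 67108864
    (rowFK 1 false false false .npp 1 0 2 (qsf 536870912 536870912 1073741824 536870912 0) ndF4q1 ndF4q2 pcF0 Cut.none Ext.none)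

def k0_mm_102 : ∃ t, chk3 f_mm_102 t 1 1 1 = true :=
  ⟨(l 3), by decide +kernel⟩

theorem c_mm_102 : CertF 536870912 536870912 1073741824 536870912 67108864 67108864 false false false .npp 1 0 2
    ndF4q1 ndF4q2 pcF0 Cut.none Ext.none :=
  certFK1 (fam := false) (s1 := false) (s2 := false) (a := 1) (b := 0) (c := 2) (cn := .npp) (n1 := ndF4q1) (n2 := ndF4q2) (pc := pcF0) (cut := Cut.none) (xt := Ext.none) (P1 := 536870912) (W1 := 536870912) (P2 := 1073741824) (W2 := 536870912) (P3 := 67108864) (W3 := 67108864)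
    rfl rfl rfl (fun _ => rfl) k0_mm_102

noncomputable def f_mm_112 : ℕ → ℕ → ℕ → ℕ → Bool := onCell 536870912 536870912 536870912 536870912 67108864 67108864
    (rowFK 1 false false false .dn 1 1 2 (qsf 536870912 536870912 1073741824 536870912 1) ndF4q1 ndF4q2 pcF1 Cut.none Ext.none)

def k0_mm_112 : ∃ t, chk3 f_mm_112 t 1 1 1 = true :=
  ⟨(l 5), by decide +kernel⟩

theorem c_mm_112 : CertF 536870912 536870912 1073741824 536870912 67108864 67108864 false false false .dn 1 1 2
    ndF4q1 ndF4q2 pcF1 Cut.none Ext.none :=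
  certFK1 (fam := false) (s1 := false) (s2 := false) (a := 1) (b := 1) (c := 2) (cn := .dn) (n1 := ndF4q1) (n2 := ndF4q2) (pc := pcF1) (cut := Cut.none) (xt := Ext.none) (P1 := 536870912) (W1 := 536870912) (P2 := 1073741824) (W2 := 536870912) (P3 := 67108864) (W3 := 67108864)
    rfl rfl rfl (fun _ => rfl) k0_mm_112

noncomputable def f_mm_113 : ℕ → ℕ → ℕ → ℕ → Bool := onCell 536870912 536870912 0 1230186008 67108864 67108864
    (rowFK 0 false false false .nn 1 1 3 (qsf 536870912 536870912 0 1230186008 1) ndF4q1 ndF4q3 pcF1 Cut.none Ext.none)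

def k0_mm_113 : ∃ t, chk3 f_mm_113 t 1 1 1 = true :=
  ⟨(l 5), by decide +kernel⟩

theorem c_mm_113 : CertF 536870912 536870912 0 1230186008 67108864 67108864 false false false .nn 1 1 3
    ndF4q1 ndF4q3 pcF1 Cut.none Ext.none :=
  certFK0 (fam := false) (s1 := false) (s2 := false) (a := 1) (b := 1) (c := 3) (cn := .nn) (n1 := ndF4q1) (n2 := ndF4q3) (pc := pcF1) (cut := Cut.none) (xt := Ext.none) (P1 := 536870912) (W1 := 536870912) (P2 := 0) (W2 := 1230186008) (P3 := 67108864) (W3 := 67108864)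
    rfl rfl rfl k0_mm_113

noncomputable def f_mm_123 : ℕ → ℕ → ℕ → ℕ → Bool := onCell 536870912 536870912 0 1230186008 67108864 67108864
    (rowFK 0 false false false .npn 1 2 3 (qsf 536870912 536870912 0 1230186008 2) ndF4q1 ndF4q3 pcF2 Cut.none Ext.none)

def k0_mm_123 : ∃ t, chk3 f_mm_123 t 1 1 1 = true :=
  ⟨(l 5), by decide +kernel⟩

theorem c_mm_123 : CertF 536870912 536870912 0 1230186008 67108864 67108864 false false false .npn 1 2 3
    ndF4q1 ndF4q3 pcF2 Cut.none Ext.none :=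
  certFK0 (fam := false) (s1 := false) (s2 := false) (a := 1) (b := 2) (c := 3) (cn := .npn) (n1 := ndF4q1) (n2 := ndF4q3) (pc := pcF2) (cut := Cut.none) (xt := Ext.none) (P1 := 536870912) (W1 := 536870912) (P2 := 0) (W2 := 1230186008) (P3 := 67108864) (W3 := 67108864)
    rfl rfl rfl k0_mm_123

noncomputable def f_mm_133 : ℕ → ℕ → ℕ → ℕ → Bool := onCell 536870912 536870912 0 1230186008 67108864 67108864
    (rowFK 0 false false false .dn 1 3 3 (qsf 536870912 536870912 0 1230186008 3) ndF4q1 ndF4q3 pcF3 Cut.none Ext.none)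

def k0_mm_133 : ∃ t, chk3 f_mm_133 t 1 1 1 = true :=
  ⟨(l 5), by decide +kernel⟩

theorem c_mm_133 : CertF 536870912 536870912 0 1230186008 67108864 67108864 false false false .dn 1 3 3
    ndF4q1 ndF4q3 pcF3 Cut.none Ext.none :=
  certFK0 (fam := false) (s1 := false) (s2 := false) (a := 1) (b := 3) (c := 3) (cn := .dn) (n1 := ndF4q1) (n2 := ndF4q3) (pc := pcF3) (cut := Cut.none) (xt := Ext.none) (P1 := 536870912) (W1 := 536870912) (P2 := 0) (W2 := 1230186008) (P3 := 67108864) (W3 := 67108864)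
    rfl rfl rfl k0_mm_133

noncomputable def f_mm_202 : ℕ → ℕ → ℕ → ℕ → Bool := onCell 1073741824 536870912 1073741824 536870912 67108864 67108864
    (rowFK 0 false false false .pp 2 0 2 (qsf 1073741824 536870912 1073741824 536870912 0) ndF4q2 ndF4q2 pcF0 Cut.none Ext.none)

def k0_mm_202 : ∃ t, chk3 f_mm_202 t 1 1 1 = true :=
  ⟨(l 3), by decide +kernel⟩

theorem c_mm_202 : CertF 1073741824 536870912 1073741824 536870912 67108864 67108864 false false false .pp 2 0 2
    ndF4q2 ndF4q2 pcF0 Cut.none Ext.none :=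
  certFK0 (fam := false) (s1 := false) (s2 := false) (a := 2) (b := 0) (c := 2) (cn := .pp) (n1 := ndF4q2) (n2 := ndF4q2) (pc := pcF0) (cut := Cut.none) (xt := Ext.none) (P1 := 1073741824) (W1 := 536870912) (P2 := 1073741824) (W2 := 536870912) (P3 := 67108864) (W3 := 67108864)
    rfl rfl rfl k0_mm_202

noncomputable def f_mm_203 : ℕ → ℕ → ℕ → ℕ → Bool := onCell 1073741824 536870912 0 1230186008 67108864 67108864
    (rowFK 0 false false false .up 2 0 3 (qsf 1073741824 536870912 0 1230186008 0) ndF4q2 ndF4q3 pcF0 Cut.none Ext.none)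

def k0_mm_203 : ∃ t, chk3 f_mm_203 t 1 1 1 = true :=
  ⟨(b (l 5) (b (l 5) (l 3))), by decide +kernel⟩

theorem c_mm_203 : CertF 1073741824 536870912 0 1230186008 67108864 67108864 false false false .up 2 0 3
    ndF4q2 ndF4q3 pcF0 Cut.none Ext.none :=
  certFK0 (fam := false) (s1 := false) (s2 := false) (a := 2) (b := 0) (c := 3) (cn := .up) (n1 := ndF4q2) (n2 := ndF4q3) (pc := pcF0) (cut := Cut.none) (xt := Ext.none) (P1 := 1073741824) (W1 := 536870912) (P2 := 0) (W2 := 1230186008) (P3 := 67108864) (W3 := 67108864)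
    rfl rfl rfl k0_mm_203

noncomputable def f_mm_213 : ℕ → ℕ → ℕ → ℕ → Bool := onCell 536870912 536870912 0 1230186008 67108864 67108864
    (rowFK 2 false false false .pnn 2 1 3 (qsf 1073741824 536870912 0 1230186008 1) ndF4q2 ndF4q3 pcF1 Cut.none Ext.none)

def k0_mm_213 : ∃ t, chk3 f_mm_213 t 1 1 1 = true :=
  ⟨(b (l 5) (l 5)), by decide +kernel⟩

theorem c_mm_213 : CertF 1073741824 536870912 0 1230186008 67108864 67108864 false false false .pnn 2 1 3
    ndF4q2 ndF4q3 pcF1 Cut.none Ext.none :=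
  certFK2 (fam := false) (s1 := false) (s2 := false) (a := 2) (b := 1) (c := 3) (cn := .pnn) (n1 := ndF4q2) (n2 := ndF4q3) (pc := pcF1) (cut := Cut.none) (xt := Ext.none) (P1 := 1073741824) (W1 := 536870912) (P2 := 0) (W2 := 1230186008) (P3 := 67108864) (W3 := 67108864)
    rfl rfl rfl (fun _ => rfl) k0_mm_213

noncomputable def f_mm_303 : ℕ → ℕ → ℕ → ℕ → Bool := onCell 0 1230186008 0 1230186008 67108864 67108864
    (rowFK 0 false false false .npn 3 0 3 (qsf 0 1230186008 0 1230186008 0) ndF4q3 ndF4q3 pcF0 Cut.none Ext.none)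

def k0_mm_303 : ∃ t, chk3 f_mm_303 t 1 1 1 = true :=
  ⟨(a (b (l 3) (a (l 1) (l 3))) (b (a (l 3) (l 5)) (l 3))), by decide +kernel⟩

theorem c_mm_303 : CertF 0 1230186008 0 1230186008 67108864 67108864 false false false .npn 3 0 3
    ndF4q3 ndF4q3 pcF0 Cut.none Ext.none :=
  certFK0 (fam := false) (s1 := false) (s2 := false) (a := 3) (b := 0) (c := 3) (cn := .npn) (n1 := ndF4q3) (n2 := ndF4q3) (pc := pcF0) (cut := Cut.none) (xt := Ext.none) (P1 := 0) (W1 := 1230186008) (P2 := 0) (W2 := 1230186008) (P3 := 67108864) (W3 := 67108864)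
    rfl rfl rfl k0_mm_303

noncomputable def f_mm_313 : ℕ → ℕ → ℕ → ℕ → Bool := onCell 0 1230186008 0 1230186008 67108864 67108864
    (rowFK 0 false false false .dn 3 1 3 (qsf 0 1230186008 0 1230186008 1) ndF4q3 ndF4q3 pcF1 Cut.none Ext.none)

def k0_mm_313 : ∃ t, chk3 f_mm_313 t 1 1 1 = true :=
  ⟨(a (l 1) (b (a (l 1) (l 5)) (l 1))), by decide +kernel⟩

theorem c_mm_313 : CertF 0 1230186008 0 1230186008 67108864 67108864 false false false .dn 3 1 3
    ndF4q3 ndF4q3 pcF1 Cut.none Ext.none :=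
  certFK0 (fam := false) (s1 := false) (s2 := false) (a := 3) (b := 1) (c := 3) (cn := .dn) (n1 := ndF4q3) (n2 := ndF4q3) (pc := pcF1) (cut := Cut.none) (xt := Ext.none) (P1 := 0) (W1 := 1230186008) (P2 := 0) (W2 := 1230186008) (P3 := 67108864) (W3 := 67108864)
    rfl rfl rfl k0_mm_313

end Pool.Agent.Strip051.G.I1_16_1_8.Tab.C.FB44

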