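import Pool.Agent.Strip051.G.I1_16_1_8.AsmH
import Pool.Agent.Strip051.G.I1_16_1_8.TrF6

/-! # Rows from certificates (generated) -/

set_option linter.all false
set_option maxRecDepth 100000

namespace Pool.Agent.Strip051.G.I1_16_1_8.Tab

open Pool.Agent.Strip051.PB Pool.Agent.StripNear Pool.Agent.Strip051.LC

theorem FB44_pp_001 {κ x : ℝ} (hκ : κ * h0 = ken x) (hx : ((67108864 : ℕ) : ℝ) / S ≤ x) (hx' : x ≤ (((67108864 : ℕ) : ℝ) + (67108864 : ℕ)) / S) :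
    TriB PP.cur (farS κ (h0 * x) (tbl tKF x) (tbl tL x)) 0 0 1 4 4 1 1 :=
  (sideF hx hx').farB (Or.inl rfl) (Or.inl rfl) fun y y' F =>
    farB_cert (s1 := true) (s2 := true) rfl hκ covF40 covF41 hx hx'
        Pool.Agent.Strip051.G.I1_16_1_8.Tab.C.FB44.c_pp_001 noCut_B noExt_B F trivial trivial

theorem FB44_pp_011 {κ x : ℝ} (hκ : κ * h0 = ken x) (hx : ((67108864 : ℕ) : ℝ) / S ≤ x) (hx' : x ≤ (((67108864 : ℕ) : ℝ) + (67108864 : ℕ)) / S) :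
    TriB PP.cur (farS κ (h0 * x) (tbl tKF x) (tbl tL x)) 0 1 1 4 4 1 1 :=
  (sideF hx hx').farB (Or.inl rfl) (Or.inl rfl) fun y y' F =>
    farB_cert (s1 := true) (s2 := true) rfl hκ covF40 covF41 hx hx'
        Pool.Agent.Strip051.G.I1_16_1_8.Tab.C.FB44.c_pp_011 noCut_B noExt_B F trivial trivial

theorem FB44_pp_012 {κ x : ℝ} (hκ : κ * h0 = ken x) (hx : ((67108864 : ℕ) : ℝ) / S ≤ x) (hx' : x ≤ (((67108864 : ℕ) : ℝ) + (67108864 : ℕ)) / S) :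
    TriB PP.cur (farS κ (h0 * x) (tbl tKF x) (tbl tL x)) 0 1 2 4 4 1 1 :=
  (sideF hx hx').farB (Or.inl rfl) (Or.inl rfl) fun y y' F =>
    farB_cert (s1 := true) (s2 := true) rfl hκ covF40 covF42 hx hx'
        Pool.Agent.Strip051.G.I1_16_1_8.Tab.C.FB44.c_pp_012 noCut_B noExt_B F trivial trivial

theorem FB44_pp_022 {κ x : ℝ} (hκ : κ * h0 = ken x) (hx : ((67108864 : ℕ) : ℝ) / S ≤ x) (hx' : x ≤ (((67108864 : ℕ) : ℝ) + (67108864 : ℕ)) / S) :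
    TriB PP.cur (farS κ (h0 * x) (tbl tKF x) (tbl tL x)) 0 2 2 4 4 1 1 :=
  (sideF hx hx').farB (Or.inl rfl) (Or.inl rfl) fun y y' F =>
    farB_cert (s1 := true) (s2 := true) rfl hκ covF40 covF42 hx hx'
        Pool.Agent.Strip051.G.I1_16_1_8.Tab.C.FB44.c_pp_022 noCut_B noExt_B F trivial trivial

theorem FB44_pp_023 {κ x : ℝ} (hκ : κ * h0 = ken x) (hx : ((67108864 : ℕ) : ℝ) / S ≤ x) (hx' : x ≤ (((67108864 : ℕ) : ℝ) + (67108864 : ℕ)) / S) :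
    TriB PP.cur (farS κ (h0 * x) (tbl tKF x) (tbl tL x)) 0 2 3 4 4 1 1 :=
  (sideF hx hx').farB (Or.inl rfl) (Or.inl rfl) fun y y' F =>
    farB_cert (s1 := true) (s2 := true) rfl hκ covF40 covF43 hx hx'
        Pool.Agent.Strip051.G.I1_16_1_8.Tab.C.FB44.c_pp_023 noCut_B noExt_B F trivial trivial

theorem FB44_pp_033 {κ x : ℝ} (hκ : κ * h0 = ken x) (hx : ((67108864 : ℕ) : ℝ) / S ≤ x) (hx' : x ≤ (((67108864 : ℕ) : ℝ) + (67108864 : ℕ)) / S) :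
    TriB PP.cur (farS κ (h0 * x) (tbl tKF x) (tbl tL x)) 0 3 3 4 4 1 1 :=
  (sideF hx hx').farB (Or.inl rfl) (Or.inl rfl) fun y y' F =>
    farB_cert (s1 := true) (s2 := true) rfl hκ covF40 covF43 hx hx'
        Pool.Agent.Strip051.G.I1_16_1_8.Tab.C.FB44.c_pp_033 noCut_B noExt_B F trivial trivial

theorem FB44_pp_101 {κ x : ℝ} (hκ : κ * h0 = ken x) (hx : ((67108864 : ℕ) : ℝ) / S ≤ x) (hx' : x ≤ (((67108864 : ℕ) : ℝ) + (67108864 : ℕ)) / S) :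
    TriB PP.cur (farS κ (h0 * x) (tbl tKF x) (tbl tL x)) 1 0 1 4 4 1 1 :=
  (sideF hx hx').farB (Or.inl rfl) (Or.inl rfl) fun y y' F =>
    farB_cert (s1 := true) (s2 := true) rfl hκ covF41 covF41 hx hx'
        Pool.Agent.Strip051.G.I1_16_1_8.Tab.C.FB44.c_pp_101 noCut_B noExt_B F trivial trivial

theorem FB44_pp_102 {κ x : ℝ} (hκ : κ * h0 = ken x) (hx : ((67108864 : ℕ) : ℝ) / S ≤ x) (hx' : x ≤ (((67108864 : ℕ) : ℝ) + (67108864 : ℕ)) / S) :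
    TriB PP.cur (farS κ (h0 * x) (tbl tKF x) (tbl tL x)) 1 0 2 4 4 1 1 :=
  (sideF hx hx').farB (Or.inl rfl) (Or.inl rfl) fun y y' F =>
    farB_cert (s1 := true) (s2 := true) rfl hκ covF41 covF42 hx hx'
        Pool.Agent.Strip051.G.I1_16_1_8.Tab.C.FB44.c_pp_102 noCut_B noExt_B F trivial trivial

theorem FB44_pp_112 {κ x : ℝ} (hκ : κ * h0 = ken x) (hx : ((67108864 : ℕ) : ℝ) / S ≤ x) (hx' : x ≤ (((67108864 : ℕ) : ℝ) + (67108864 : ℕ)) / S) :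
    TriB PP.cur (farS κ (h0 * x) (tbl tKF x) (tbl tL x)) 1 1 2 4 4 1 1 :=
  (sideF hx hx').farB (Or.inl rfl) (Or.inl rfl) fun y y' F =>
    farB_cert (s1 := true) (s2 := true) rfl hκ covF41 covF42 hx hx'
        Pool.Agent.Strip051.G.I1_16_1_8.Tab.C.FB44.c_pp_112 noCut_B noExt_B F trivial trivial

theorem FB44_pp_113 {κ x : ℝ} (hκ : κ * h0 = ken x) (hx : ((67108864 : ℕ) : ℝ) / S ≤ x) (hx' : x ≤ (((67108864 : ℕ) : ℝ) + (67108864 : ℕ)) / S) :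
    TriB PP.cur (farS κ (h0 * x) (tbl tKF x) (tbl tL x)) 1 1 3 4 4 1 1 :=
  (sideF hx hx').farB (Or.inl rfl) (Or.inl rfl) fun y y' F =>
    farB_cert (s1 := true) (s2 := true) rfl hκ covF41 covF43 hx hx'
        Pool.Agent.Strip051.G.I1_16_1_8.Tab.C.FB44.c_pp_113 noCut_B noExt_B F trivial trivial

theorem FB44_pp_123 {κ x : ℝ} (hκ : κ * h0 = ken x) (hx : ((67108864 : ℕ) : ℝ) / S ≤ x) (hx' : x ≤ (((67108864 : ℕ) : ℝ) + (67108864 : ℕ)) / S) :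
    TriB PP.cur (farS κ (h0 * x) (tbl tKF x) (tbl tL x)) 1 2 3 4 4 1 1 :=
  (sideF hx hx').farB (Or.inl rfl) (Or.inl rfl) fun y y' F =>
    farB_cert (s1 := true) (s2 := true) rfl hκ covF41 covF43 hx hx'
        Pool.Agent.Strip051.G.I1_16_1_8.Tab.C.FB44.c_pp_123 noCut_B noExt_B F trivial trivial

theorem FB44_pp_133 {κ x : ℝ} (hκ : κ * h0 = ken x) (hx : ((67108864 : ℕ) : ℝ) / S ≤ x) (hx' : x ≤ (((67108864 : ℕ) : ℝ) + (67108864 : ℕ)) / S) :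
    TriB PP.cur (farS κ (h0 * x) (tbl tKF x) (tbl tL x)) 1 3 3 4 4 1 1 :=
  (sideF hx hx').farB (Or.inl rfl) (Or.inl rfl) fun y y' F =>
    farB_cert (s1 := true) (s2 := true) rfl hκ covF41 covF43 hx hx'
        Pool.Agent.Strip051.G.I1_16_1_8.Tab.C.FB44.c_pp_133 noCut_B noExt_B F trivial trivial

theorem FB44_pp_202 {κ x : ℝ} (hκ : κ * h0 = ken x) (hx : ((67108864 : ℕ) : ℝ) / S ≤ x) (hx' : x ≤ (((67108864 : ℕ) : ℝ) + (67108864 : ℕ)) / S) :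
    TriB PP.cur (farS κ (h0 * x) (tbl tKF x) (tbl tL x)) 2 0 2 4 4 1 1 :=
  (sideF hx hx').farB (Or.inl rfl) (Or.inl rfl) fun y y' F =>
    farB_cert (s1 := true) (s2 := true) rfl hκ covF42 covF42 hx hx'
        Pool.Agent.Strip051.G.I1_16_1_8.Tab.C.FB44.c_pp_202 noCut_B noExt_B F trivial trivial

theorem FB44_pp_203 {κ x : ℝ} (hκ : κ * h0 = ken x) (hx : ((67108864 : ℕ) : ℝ) / S ≤ x) (hx' : x ≤ (((67108864 : ℕ) : ℝ) + (67108864 : ℕ)) / S) :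
    TriB PP.cur (farS κ (h0 * x) (tbl tKF x) (tbl tL x)) 2 0 3 4 4 1 1 :=
  (sideF hx hx').farB (Or.inl rfl) (Or.inl rfl) fun y y' F =>
    farB_cert (s1 := true) (s2 := true) rfl hκ covF42 covF43 hx hx'
        Pool.Agent.Strip051.G.I1_16_1_8.Tab.C.FB44.c_pp_203 noCut_B noExt_B F trivial trivial

theorem FB44_pp_213 {κ x : ℝ} (hκ : κ * h0 = ken x) (hx : ((67108864 : ℕ) : ℝ) / S ≤ x) (hx' : x ≤ (((67108864 : ℕ) : ℝ) + (67108864 : ℕ)) / S) :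
    TriB PP.cur (farS κ (h0 * x) (tbl tKF x) (tbl tL x)) 2 1 3 4 4 1 1 :=
  (sideF hx hx').farB (Or.inl rfl) (Or.inl rfl) fun y y' F =>
    farB_cert (s1 := true) (s2 := true) rfl hκ covF42 covF43 hx hx'
        Pool.Agent.Strip051.G.I1_16_1_8.Tab.C.FB44.c_pp_213 noCut_B noExt_B F trivial trivial

theorem FB44_pp_303 {κ x : ℝ} (hκ : κ * h0 = ken x) (hx : ((67108864 : ℕ) : ℝ) / S ≤ x) (hx' : x ≤ (((67108864 : ℕ) : ℝ) + (67108864 : ℕ)) / S) :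
    TriB PP.cur (farS κ (h0 * x) (tbl tKF x) (tbl tL x)) 3 0 3 4 4 1 1 :=
  (sideF hx hx').farB (Or.inl rfl) (Or.inl rfl) fun y y' F =>
    farB_cert (s1 := true) (s2 := true) rfl hκ covF43 covF43 hx hx'
        Pool.Agent.Strip051.G.I1_16_1_8.Tab.C.FB44.c_pp_303 noCut_B noExt_B F trivial trivial

theorem FB44_pp_313 {κ x : ℝ} (hκ : κ * h0 = ken x) (hx : ((67108864 : ℕ) : ℝ) / S ≤ x) (hx' : x ≤ (((67108864 : ℕ) : ℝ) + (67108864 : ℕ)) / S) :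
    TriB PP.cur (farS κ (h0 * x) (tbl tKF x) (tbl tL x)) 3 1 3 4 4 1 1 :=
  (sideF hx hx').farB (Or.inl rfl) (Or.inl rfl) fun y y' F =>
    farB_cert (s1 := true) (s2 := true) rfl hκ covF43 covF43 hx hx'
        Pool.Agent.Strip051.G.I1_16_1_8.Tab.C.FB44.c_pp_313 noCut_B noExt_B F trivial trivial

theorem FB44_pm_001 {κ x : ℝ} (hκ : κ * h0 = ken x) (hx : ((67108864 : ℕ) : ℝ) / S ≤ x) (hx' : x ≤ (((67108864 : ℕ) : ℝ) + (67108864 : ℕ)) / S) :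
    TriB PP.cur (farS κ (h0 * x) (tbl tKF x) (tbl tL x)) 0 0 1 4 4 1 (-1) :=
  (sideF hx hx').farB (Or.inl rfl) (Or.inr rfl) fun y y' F =>
    farB_cert (s1 := true) (s2 := false) rfl hκ covF40 covF41 hx hx'
        Pool.Agent.Strip051.G.I1_16_1_8.Tab.C.FB44.c_pm_001 noCut_B noExt_B F trivial trivial

theorem FB44_pm_011 {κ x : ℝ} (hκ : κ * h0 = ken x) (hx : ((67108864 : ℕ) : ℝ) / S ≤ x) (hx' : x ≤ (((67108864 : ℕ) : ℝ) + (67108864 : ℕ)) / S) :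
    TriB PP.cur (farS κ (h0 * x) (tbl tKF x) (tbl tL x)) 0 1 1 4 4 1 (-1) :=
  (sideF hx hx').farB (Or.inl rfl) (Or.inr rfl) fun y y' F =>
    farB_cert (s1 := true) (s2 := false) rfl hκ covF40 covF41 hx hx'
        Pool.Agent.Strip051.G.I1_16_1_8.Tab.C.FB44.c_pm_011 noCut_B noExt_B F trivial trivial

theorem FB44_pm_012 {κ x : ℝ} (hκ : κ * h0 = ken x) (hx : ((67108864 : ℕ) : ℝ) / S ≤ x) (hx' : x ≤ (((67108864 : ℕ) : ℝ) + (67108864 : ℕ)) / S) :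
    TriB PP.cur (farS κ (h0 * x) (tbl tKF x) (tbl tL x)) 0 1 2 4 4 1 (-1) :=
  (sideF hx hx').farB (Or.inl rfl) (Or.inr rfl) fun y y' F =>
    farB_cert (s1 := true) (s2 := false) rfl hκ covF40 covF42 hx hx'
        Pool.Agent.Strip051.G.I1_16_1_8.Tab.C.FB44.c_pm_012 noCut_B noExt_B F trivial trivial

theorem FB44_pm_022 {κ x : ℝ} (hκ : κ * h0 = ken x) (hx : ((67108864 : ℕ) : ℝ) / S ≤ x) (hx' : x ≤ (((67108864 : ℕ) : ℝ) + (67108864 : ℕ)) / S) :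
    TriB PP.cur (farS κ (h0 * x) (tbl tKF x) (tbl tL x)) 0 2 2 4 4 1 (-1) :=
  (sideF hx hx').farB (Or.inl rfl) (Or.inr rfl) fun y y' F =>
    farB_cert (s1 := true) (s2 := false) rfl hκ covF40 covF42 hx hx'
        Pool.Agent.Strip051.G.I1_16_1_8.Tab.C.FB44.c_pm_022 noCut_B noExt_B F trivial trivial

theorem FB44_pm_023 {κ x : ℝ} (hκ : κ * h0 = ken x) (hx : ((67108864 : ℕ) : ℝ) / S ≤ x) (hx' : x ≤ (((67108864 : ℕ) : ℝ) + (67108864 : ℕ)) / S) :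
    TriB PP.cur (farS κ (h0 * x) (tbl tKF x) (tbl tL x)) 0 2 3 4 4 1 (-1) :=
  (sideF hx hx').farB (Or.inl rfl) (Or.inr rfl) fun y y' F =>
    farB_cert (s1 := true) (s2 := false) rfl hκ covF40 covF43 hx hx'
        Pool.Agent.Strip051.G.I1_16_1_8.Tab.C.FB44.c_pm_023 noCut_B noExt_B F trivial trivial

theorem FB44_pm_033 {κ x : ℝ} (hκ : κ * h0 = ken x) (hx : ((67108864 : ℕ) : ℝ) / S ≤ x) (hx' : x ≤ (((67108864 : ℕ) : ℝ) + (67108864 : ℕ)) / S) :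
    TriB PP.cur (farS κ (h0 * x) (tbl tKF x) (tbl tL x)) 0 3 3 4 4 1 (-1) :=
  (sideF hx hx').farB (Or.inl rfl) (Or.inr rfl) fun y y' F =>
    farB_cert (s1 := true) (s2 := false) rfl hκ covF40 covF43 hx hx'
        Pool.Agent.Strip051.G.I1_16_1_8.Tab.C.FB44.c_pm_033 noCut_B noExt_B F trivial trivial

theorem FB44_pm_101 {κ x : ℝ} (hκ : κ * h0 = ken x) (hx : ((67108864 : ℕ) : ℝ) / S ≤ x) (hx' : x ≤ (((67108864 : ℕ) : ℝ) + (67108864 : ℕ)) / S) :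
    TriB PP.cur (farS κ (h0 * x) (tbl tKF x) (tbl tL x)) 1 0 1 4 4 1 (-1) :=
  (sideF hx hx').farB (Or.inl rfl) (Or.inr rfl) fun y y' F =>
    farB_cert (s1 := true) (s2 := false) rfl hκ covF41 covF41 hx hx'
        Pool.Agent.Strip051.G.I1_16_1_8.Tab.C.FB44.c_pm_101 noCut_B noExt_B F trivial trivial

theorem FB44_pm_102 {κ x : ℝ} (hκ : κ * h0 = ken x) (hx : ((67108864 : ℕ) : ℝ) / S ≤ x) (hx' : x ≤ (((67108864 : ℕ) : ℝ) + (67108864 : ℕ)) / S) :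
    TriB PP.cur (farS κ (h0 * x) (tbl tKF x) (tbl tL x)) 1 0 2 4 4 1 (-1) :=
  (sideF hx hx').farB (Or.inl rfl) (Or.inr rfl) fun y y' F =>
    farB_cert (s1 := true) (s2 := false) rfl hκ covF41 covF42 hx hx'
        Pool.Agent.Strip051.G.I1_16_1_8.Tab.C.FB44.c_pm_102 noCut_B noExt_B F trivial trivial

theorem FB44_pm_112 {κ x : ℝ} (hκ : κ * h0 = ken x) (hx : ((67108864 : ℕ) : ℝ) / S ≤ x) (hx' : x ≤ (((67108864 : ℕ) : ℝ) + (67108864 : ℕ)) / S) :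
    TriB PP.cur (farS κ (h0 * x) (tbl tKF x) (tbl tL x)) 1 1 2 4 4 1 (-1) :=
  (sideF hx hx').farB (Or.inl rfl) (Or.inr rfl) fun y y' F =>
    farB_cert (s1 := true) (s2 := false) rfl hκ covF41 covF42 hx hx'
        Pool.Agent.Strip051.G.I1_16_1_8.Tab.C.FB44.c_pm_112 noCut_B noExt_B F trivial trivial

theorem FB44_pm_113 {κ x : ℝ} (hκ : κ * h0 = ken x) (hx : ((67108864 : ℕ) : ℝ) / S ≤ x) (hx' : x ≤ (((67108864 : ℕ) : ℝ) + (67108864 : ℕ)) / S) :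
    TriB PP.cur (farS κ (h0 * x) (tbl tKF x) (tbl tL x)) 1 1 3 4 4 1 (-1) :=
  (sideF hx hx').farB (Or.inl rfl) (Or.inr rfl) fun y y' F =>
    farB_cert (s1 := true) (s2 := false) rfl hκ covF41 covF43 hx hx'
        Pool.Agent.Strip051.G.I1_16_1_8.Tab.C.FB44.c_pm_113 noCut_B noExt_B F trivial trivial

theorem FB44_pm_123 {κ x : ℝ} (hκ : κ * h0 = ken x) (hx : ((67108864 : ℕ) : ℝ) / S ≤ x) (hx' : x ≤ (((67108864 : ℕ) : ℝ) + (67108864 : ℕ)) / S) :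
    TriB PP.cur (farS κ (h0 * x) (tbl tKF x) (tbl tL x)) 1 2 3 4 4 1 (-1) :=
  (sideF hx hx').farB (Or.inl rfl) (Or.inr rfl) fun y y' F =>
    farB_cert (s1 := true) (s2 := false) rfl hκ covF41 covF43 hx hx'
        Pool.Agent.Strip051.G.I1_16_1_8.Tab.C.FB44.c_pm_123 noCut_B noExt_B F trivial trivial

theorem FB44_pm_133 {κ x : ℝ} (hκ : κ * h0 = ken x) (hx : ((67108864 : ℕ) : ℝ) / S ≤ x) (hx' : x ≤ (((67108864 : ℕ) : ℝ) + (67108864 : ℕ)) / S) :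
    TriB PP.cur (farS κ (h0 * x) (tbl tKF x) (tbl tL x)) 1 3 3 4 4 1 (-1) :=
  (sideF hx hx').farB (Or.inl rfl) (Or.inr rfl) fun y y' F =>
    farB_cert (s1 := true) (s2 := false) rfl hκ covF41 covF43 hx hx'
        Pool.Agent.Strip051.G.I1_16_1_8.Tab.C.FB44.c_pm_133 noCut_B noExt_B F trivial trivial

theorem FB44_pm_202 {κ x : ℝ} (hκ : κ * h0 = ken x) (hx : ((67108864 : ℕ) : ℝ) / S ≤ x) (hx' : x ≤ (((67108864 : ℕ) : ℝ) + (67108864 : ℕ)) / S) :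
    TriB PP.cur (farS κ (h0 * x) (tbl tKF x) (tbl tL x)) 2 0 2 4 4 1 (-1) :=
  (sideF hx hx').farB (Or.inl rfl) (Or.inr rfl) fun y y' F =>
    farB_cert (s1 := true) (s2 := false) rfl hκ covF42 covF42 hx hx'
        Pool.Agent.Strip051.G.I1_16_1_8.Tab.C.FB44.c_pm_202 noCut_B noExt_B F trivial trivial

theorem FB44_pm_203 {κ x : ℝ} (hκ : κ * h0 = ken x) (hx : ((67108864 : ℕ) : ℝ) / S ≤ x) (hx' : x ≤ (((67108864 : ℕ) : ℝ) + (67108864 : ℕ)) / S) :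
    TriB PP.cur (farS κ (h0 * x) (tbl tKF x) (tbl tL x)) 2 0 3 4 4 1 (-1) :=
  (sideF hx hx').farB (Or.inl rfl) (Or.inr rfl) fun y y' F =>
    farB_cert (s1 := true) (s2 := false) rfl hκ covF42 covF43 hx hx'
        Pool.Agent.Strip051.G.I1_16_1_8.Tab.C.FB44.c_pm_203 noCut_B noExt_B F trivial trivial

theorem FB44_pm_213 {κ x : ℝ} (hκ : κ * h0 = ken x) (hx : ((67108864 : ℕ) : ℝ) / S ≤ x) (hx' : x ≤ (((67108864 : ℕ) : ℝ) + (67108864 : ℕ)) / S) :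
    TriB PP.cur (farS κ (h0 * x) (tbl tKF x) (tbl tL x)) 2 1 3 4 4 1 (-1) :=
  (sideF hx hx').farB (Or.inl rfl) (Or.inr rfl) fun y y' F =>
    farB_cert (s1 := true) (s2 := false) rfl hκ covF42 covF43 hx hx'
        Pool.Agent.Strip051.G.I1_16_1_8.Tab.C.FB44.c_pm_213 noCut_B noExt_B F trivial trivial

theorem FB44_pm_303 {κ x : ℝ} (hκ : κ * h0 = ken x) (hx : ((67108864 : ℕ) : ℝ) / S ≤ x) (hx' : x ≤ (((67108864 : ℕ) : ℝ) + (67108864 : ℕ)) / S) :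
    TriB PP.cur (farS κ (h0 * x) (tbl tKF x) (tbl tL x)) 3 0 3 4 4 1 (-1) :=
  (sideF hx hx').farB (Or.inl rfl) (Or.inr rfl) fun y y' F =>
    farB_cert (s1 := true) (s2 := false) rfl hκ covF43 covF43 hx hx'
        Pool.Agent.Strip051.G.I1_16_1_8.Tab.C.FB44.c_pm_303 noCut_B noExt_B F trivial trivial

theorem FB44_pm_313 {κ x : ℝ} (hκ : κ * h0 = ken x) (hx : ((67108864 : ℕ) : ℝ) / S ≤ x) (hx' : x ≤ (((67108864 : ℕ) : ℝ) + (67108864 : ℕ)) / S) :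
    TriB PP.cur (farS κ (h0 * x) (tbl tKF x) (tbl tL x)) 3 1 3 4 4 1 (-1) :=
  (sideF hx hx').farB (Or.inl rfl) (Or.inr rfl) fun y y' F =>
    farB_cert (s1 := true) (s2 := false) rfl hκ covF43 covF43 hx hx'
        Pool.Agent.Strip051.G.I1_16_1_8.Tab.C.FB44.c_pm_313 noCut_B noExt_B F trivial trivial

theorem FB44_mm_001 {κ x : ℝ} (hκ : κ * h0 = ken x) (hx : ((67108864 : ℕ) : ℝ) / S ≤ x) (hx' : x ≤ (((67108864 : ℕ) : ℝ) + (67108864 : ℕ)) / S) :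
    TriB PP.cur (farS κ (h0 * x) (tbl tKF x) (tbl tL x)) 0 0 1 4 4 (-1) (-1) :=
  (sideF hx hx').farB (Or.inr rfl) (Or.inr rfl) fun y y' F =>
    farB_cert (s1 := false) (s2 := false) rfl hκ covF40 covF41 hx hx'
        Pool.Agent.Strip051.G.I1_16_1_8.Tab.C.FB44.c_mm_001 noCut_B noExt_B F trivial trivial

theorem FB44_mm_011 {κ x : ℝ} (hκ : κ * h0 = ken x) (hx : ((67108864 : ℕ) : ℝ) / S ≤ x) (hx' : x ≤ (((67108864 : ℕ) : ℝ) + (67108864 : ℕ)) / S) :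
    TriB PP.cur (farS κ (h0 * x) (tbl tKF x) (tbl tL x)) 0 1 1 4 4 (-1) (-1) :=
  (sideF hx hx').farB (Or.inr rfl) (Or.inr rfl) fun y y' F =>
    farB_cert (s1 := false) (s2 := false) rfl hκ covF40 covF41 hx hx'
        Pool.Agent.Strip051.G.I1_16_1_8.Tab.C.FB44.c_mm_011 noCut_B noExt_B F trivial trivial

theorem FB44_mm_012 {κ x : ℝ} (hκ : κ * h0 = ken x) (hx : ((67108864 : ℕ) : ℝ) / S ≤ x) (hx' : x ≤ (((67108864 : ℕ) : ℝ) + (67108864 : ℕ)) / S) :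
    TriB PP.cur (farS κ (h0 * x) (tbl tKF x) (tbl tL x)) 0 1 2 4 4 (-1) (-1) :=
  (sideF hx hx').farB (Or.inr rfl) (Or.inr rfl) fun y y' F =>
    farB_cert (s1 := false) (s2 := false) rfl hκ covF40 covF42 hx hx'
        Pool.Agent.Strip051.G.I1_16_1_8.Tab.C.FB44.c_mm_012 noCut_B noExt_B F trivial trivial

theorem FB44_mm_022 {κ x : ℝ} (hκ : κ * h0 = ken x) (hx : ((67108864 : ℕ) : ℝ) / S ≤ x) (hx' : x ≤ (((67108864 : ℕ) : ℝ) + (67108864 : ℕ)) / S) :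
    TriB PP.cur (farS κ (h0 * x) (tbl tKF x) (tbl tL x)) 0 2 2 4 4 (-1) (-1) :=
  (sideF hx hx').farB (Or.inr rfl) (Or.inr rfl) fun y y' F =>
    farB_cert (s1 := false) (s2 := false) rfl hκ covF40 covF42 hx hx'
        Pool.Agent.Strip051.G.I1_16_1_8.Tab.C.FB44.c_mm_022 noCut_B noExt_B F trivial trivial

theorem FB44_mm_023 {κ x : ℝ} (hκ : κ * h0 = ken x) (hx : ((67108864 : ℕ) : ℝ) / S ≤ x) (hx' : x ≤ (((67108864 : ℕ) : ℝ) + (67108864 : ℕ)) / S) :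
    TriB PP.cur (farS κ (h0 * x) (tbl tKF x) (tbl tL x)) 0 2 3 4 4 (-1) (-1) :=
  (sideF hx hx').farB (Or.inr rfl) (Or.inr rfl) fun y y' F =>
    farB_cert (s1 := false) (s2 := false) rfl hκ covF40 covF43 hx hx'
        Pool.Agent.Strip051.G.I1_16_1_8.Tab.C.FB44.c_mm_023 noCut_B noExt_B F trivial trivial

theorem FB44_mm_033 {κ x : ℝ} (hκ : κ * h0 = ken x) (hx : ((67108864 : ℕ) : ℝ) / S ≤ x) (hx' : x ≤ (((67108864 : ℕ) : ℝ) + (67108864 : ℕ)) / S) :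
    TriB PP.cur (farS κ (h0 * x) (tbl tKF x) (tbl tL x)) 0 3 3 4 4 (-1) (-1) :=
  (sideF hx hx').farB (Or.inr rfl) (Or.inr rfl) fun y y' F =>
    farB_cert (s1 := false) (s2 := false) rfl hκ covF40 covF43 hx hx'
        Pool.Agent.Strip051.G.I1_16_1_8.Tab.C.FB44.c_mm_033 noCut_B noExt_B F trivial trivial

theorem FB44_mm_101 {κ x : ℝ} (hκ : κ * h0 = ken x) (hx : ((67108864 : ℕ) : ℝ) / S ≤ x) (hx' : x ≤ (((67108864 : ℕ) : ℝ) + (67108864 : ℕ)) / S) :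
    TriB PP.cur (farS κ (h0 * x) (tbl tKF x) (tbl tL x)) 1 0 1 4 4 (-1) (-1) :=
  (sideF hx hx').farB (Or.inr rfl) (Or.inr rfl) fun y y' F =>
    farB_cert (s1 := false) (s2 := false) rfl hκ covF41 covF41 hx hx'
        Pool.Agent.Strip051.G.I1_16_1_8.Tab.C.FB44.c_mm_101 noCut_B noExt_B F trivial trivial

theorem FB44_mm_102 {κ x : ℝ} (hκ : κ * h0 = ken x) (hx : ((67108864 : ℕ) : ℝ) / S ≤ x) (hx' : x ≤ (((67108864 : ℕ) : ℝ) + (67108864 : ℕ)) / S) :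
    TriB PP.cur (farS κ (h0 * x) (tbl tKF x) (tbl tL x)) 1 0 2 4 4 (-1) (-1) :=
  (sideF hx hx').farB (Or.inr rfl) (Or.inr rfl) fun y y' F =>
    farB_cert (s1 := false) (s2 := false) rfl hκ covF41 covF42 hx hx'
        Pool.Agent.Strip051.G.I1_16_1_8.Tab.C.FB44.c_mm_102 noCut_B noExt_B F trivial trivial

theorem FB44_mm_112 {κ x : ℝ} (hκ : κ * h0 = ken x) (hx : ((67108864 : ℕ) : ℝ) / S ≤ x) (hx' : x ≤ (((67108864 : ℕ) : ℝ) + (67108864 : ℕ)) / S) :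
    TriB PP.cur (farS κ (h0 * x) (tbl tKF x) (tbl tL x)) 1 1 2 4 4 (-1) (-1) :=
  (sideF hx hx').farB (Or.inr rfl) (Or.inr rfl) fun y y' F =>
    farB_cert (s1 := false) (s2 := false) rfl hκ covF41 covF42 hx hx'
        Pool.Agent.Strip051.G.I1_16_1_8.Tab.C.FB44.c_mm_112 noCut_B noExt_B F trivial trivial

theorem FB44_mm_113 {κ x : ℝ} (hκ : κ * h0 = ken x) (hx : ((67108864 : ℕ) : ℝ) / S ≤ x) (hx' : x ≤ (((67108864 : ℕ) : ℝ) + (67108864 : ℕ)) / S) :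
    TriB PP.cur (farS κ (h0 * x) (tbl tKF x) (tbl tL x)) 1 1 3 4 4 (-1) (-1) :=
  (sideF hx hx').farB (Or.inr rfl) (Or.inr rfl) fun y y' F =>
    farB_cert (s1 := false) (s2 := false) rfl hκ covF41 covF43 hx hx'
        Pool.Agent.Strip051.G.I1_16_1_8.Tab.C.FB44.c_mm_113 noCut_B noExt_B F trivial trivial

theorem FB44_mm_123 {κ x : ℝ} (hκ : κ * h0 = ken x) (hx : ((67108864 : ℕ) : ℝ) / S ≤ x) (hx' : x ≤ (((67108864 : ℕ) : ℝ) + (67108864 : ℕ)) / S) :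
    TriB PP.cur (farS κ (h0 * x) (tbl tKF x) (tbl tL x)) 1 2 3 4 4 (-1) (-1) :=
  (sideF hx hx').farB (Or.inr rfl) (Or.inr rfl) fun y y' F =>
    farB_cert (s1 := false) (s2 := false) rfl hκ covF41 covF43 hx hx'
        Pool.Agent.Strip051.G.I1_16_1_8.Tab.C.FB44.c_mm_123 noCut_B noExt_B F trivial trivial

theorem FB44_mm_133 {κ x : ℝ} (hκ : κ * h0 = ken x) (hx : ((67108864 : ℕ) : ℝ) / S ≤ x) (hx' : x ≤ (((67108864 : ℕ) : ℝ) + (67108864 : ℕ)) / S) :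
    TriB PP.cur (farS κ (h0 * x) (tbl tKF x) (tbl tL x)) 1 3 3 4 4 (-1) (-1) :=
  (sideF hx hx').farB (Or.inr rfl) (Or.inr rfl) fun y y' F =>
    farB_cert (s1 := false) (s2 := false) rfl hκ covF41 covF43 hx hx'
        Pool.Agent.Strip051.G.I1_16_1_8.Tab.C.FB44.c_mm_133 noCut_B noExt_B F trivial trivial

theorem FB44_mm_202 {κ x : ℝ} (hκ : κ * h0 = ken x) (hx : ((67108864 : ℕ) : ℝ) / S ≤ x) (hx' : x ≤ (((67108864 : ℕ) : ℝ) + (67108864 : ℕ)) / S) :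
    TriB PP.cur (farS κ (h0 * x) (tbl tKF x) (tbl tL x)) 2 0 2 4 4 (-1) (-1) :=
  (sideF hx hx').farB (Or.inr rfl) (Or.inr rfl) fun y y' F =>
    farB_cert (s1 := false) (s2 := false) rfl hκ covF42 covF42 hx hx'
        Pool.Agent.Strip051.G.I1_16_1_8.Tab.C.FB44.c_mm_202 noCut_B noExt_B F trivial trivial

theorem FB44_mm_203 {κ x : ℝ} (hκ : κ * h0 = ken x) (hx : ((67108864 : ℕ) : ℝ) / S ≤ x) (hx' : x ≤ (((67108864 : ℕ) : ℝ) + (67108864 : ℕ)) / S) :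
    TriB PP.cur (farS κ (h0 * x) (tbl tKF x) (tbl tL x)) 2 0 3 4 4 (-1) (-1) :=
  (sideF hx hx').farB (Or.inr rfl) (Or.inr rfl) fun y y' F =>
    farB_cert (s1 := false) (s2 := false) rfl hκ covF42 covF43 hx hx'
        Pool.Agent.Strip051.G.I1_16_1_8.Tab.C.FB44.c_mm_203 noCut_B noExt_B F trivial trivial

theorem FB44_mm_213 {κ x : ℝ} (hκ : κ * h0 = ken x) (hx : ((67108864 : ℕ) : ℝ) / S ≤ x) (hx' : x ≤ (((67108864 : ℕ) : ℝ) + (67108864 : ℕ)) / S) :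
    TriB PP.cur (farS κ (h0 * x) (tbl tKF x) (tbl tL x)) 2 1 3 4 4 (-1) (-1) :=
  (sideF hx hx').farB (Or.inr rfl) (Or.inr rfl) fun y y' F =>
    farB_cert (s1 := false) (s2 := false) rfl hκ covF42 covF43 hx hx'
        Pool.Agent.Strip051.G.I1_16_1_8.Tab.C.FB44.c_mm_213 noCut_B noExt_B F trivial trivial

theorem FB44_mm_303 {κ x : ℝ} (hκ : κ * h0 = ken x) (hx : ((67108864 : ℕ) : ℝ) / S ≤ x) (hx' : x ≤ (((67108864 : ℕ) : ℝ) + (67108864 : ℕ)) / S) :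
    TriB PP.cur (farS κ (h0 * x) (tbl tKF x) (tbl tL x)) 3 0 3 4 4 (-1) (-1) :=
  (sideF hx hx').farB (Or.inr rfl) (Or.inr rfl) fun y y' F =>
    farB_cert (s1 := false) (s2 := false) rfl hκ covF43 covF43 hx hx'
        Pool.Agent.Strip051.G.I1_16_1_8.Tab.C.FB44.c_mm_303 noCut_B noExt_B F trivial trivial

theorem FB44_mm_313 {κ x : ℝ} (hκ : κ * h0 = ken x) (hx : ((67108864 : ℕ) : ℝ) / S ≤ x) (hx' : x ≤ (((67108864 : ℕ) : ℝ) + (67108864 : ℕ)) / S) :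
    TriB PP.cur (farS κ (h0 * x) (tbl tKF x) (tbl tL x)) 3 1 3 4 4 (-1) (-1) :=
  (sideF hx hx').farB (Or.inr rfl) (Or.inr rfl) fun y y' F =>
    farB_cert (s1 := false) (s2 := false) rfl hκ covF43 covF43 hx hx'
        Pool.Agent.Strip051.G.I1_16_1_8.Tab.C.FB44.c_mm_313 noCut_B noExt_B F trivial trivial

theorem FB44 {κ x : ℝ} (hκ : κ * h0 = ken x) (hx : ((67108864 : ℕ) : ℝ) / S ≤ x) (hx' : x ≤ (((67108864 : ℕ) : ℝ) + (67108864 : ℕ)) / S) : AllTB PP.cur (farS κ (h0 * x) (tbl tKF x) (tbl tL x)) 4 4 where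
  pp := all17 (Q := fun a b c => TriB PP.cur (farS κ (h0 * x) (tbl tKF x) (tbl tL x)) a b c 4 4 1 1)
    (FB44_pp_001 hκ hx hx') (FB44_pp_011 hκ hx hx') (FB44_pp_012 hκ hx hx') (FB44_pp_022 hκ hx hx') (FB44_pp_023 hκ hx hx') (FB44_pp_033 hκ hx hx') (FB44_pp_101 hκ hx hx') (FB44_pp_102 hκ hx hx') (FB44_pp_112 hκ hx hx') (FB44_pp_113 hκ hx hx') (FB44_pp_123 hκ hx hx') (FB44_pp_133 hκ hx hx') (FB44_pp_202 hκ hx hx') (FB44_pp_203 hκ hx hx') (FB44_pp_213 hκ hx hx') (FB44_pp_303 hκ hx hx') (FB44_pp_313 hκ hx hx')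
  pm := all17 (Q := fun a b c => TriB PP.cur (farS κ (h0 * x) (tbl tKF x) (tbl tL x)) a b c 4 4 1 (-1))
    (FB44_pm_001 hκ hx hx') (FB44_pm_011 hκ hx hx') (FB44_pm_012 hκ hx hx') (FB44_pm_022 hκ hx hx') (FB44_pm_023 hκ hx hx') (FB44_pm_033 hκ hx hx') (FB44_pm_101 hκ hx hx') (FB44_pm_102 hκ hx hx') (FB44_pm_112 hκ hx hx') (FB44_pm_113 hκ hx hx') (FB44_pm_123 hκ hx hx') (FB44_pm_133 hκ hx hx') (FB44_pm_202 hκ hx hx') (FB44_pm_203 hκ hx hx') (FB44_pm_213 hκ hx hx') (FB44_pm_303 hκ hx hx') (FB44_pm_313 hκ hx hx')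
  mm := all17 (Q := fun a b c => TriB PP.cur (farS κ (h0 * x) (tbl tKF x) (tbl tL x)) a b c 4 4 (-1) (-1))
    (FB44_mm_001 hκ hx hx') (FB44_mm_011 hκ hx hx') (FB44_mm_012 hκ hx hx') (FB44_mm_022 hκ hx hx') (FB44_mm_023 hκ hx hx') (FB44_mm_033 hκ hx hx') (FB44_mm_101 hκ hx hx') (FB44_mm_102 hκ hx hx') (FB44_mm_112 hκ hx hx') (FB44_mm_113 hκ hx hx') (FB44_mm_123 hκ hx hx') (FB44_mm_133 hκ hx hx') (FB44_mm_202 hκ hx hx') (FB44_mm_203 hκ hx hx') (FB44_mm_213 hκ hx hx') (FB44_mm_303 hκ hx hx') (FB44_mm_313 hκ hx hx')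

end Pool.Agent.Strip051.G.I1_16_1_8.Tab
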