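import Pool.Agent.Strip051.G.I1_16_1_8.Gn
import Pool.Agent.Strip051.PB.Corns
import Pool.Agent.Strip051.PB.CornK

/-! # Certificates of the aligned corners (generated) -/

set_option linter.all false

namespace Pool.Agent.Strip051.G.I1_16_1_8.Tab.CN

open Pool.Agent.Strip051.PB

def A012E_001_1_2_1 :
    ∃ t, chk3 (onCell 0 67108864 0 1073741824 67108864 67108864 (corTK [[⟨0, 0, 1, 33554432⟩, ⟨1, 1, 0, 8388608⟩, ⟨2, 1, 1, 33554432⟩, ⟨0, 0, 0, 150994944⟩, ⟨0, 1, 0, 1023410176⟩, ⟨2, 1, 0, 150994944⟩, ⟨2, 2, 0, 1023410176⟩]] false 3 c0N cA012E gN0q0 gN0q1 gN1q2 gN2q2 true true)) t 1 2 1 = true :=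
  ⟨(T.l 1), by decide +kernel⟩

def A012E_001_1_6_1 :
    ∃ t, chk3 (onCell 0 67108864 0 1073741824 67108864 67108864 (corTK [[⟨0, 0, 1, 33554432⟩, ⟨1, 1, 0, 8388608⟩, ⟨2, 1, 1, 33554432⟩, ⟨0, 0, 0, 150994944⟩, ⟨0, 1, 0, 1023410176⟩, ⟨2, 1, 0, 150994944⟩, ⟨2, 2, 0, 1023410176⟩]] false 3 c0N cA012E gN0q0 gN0q1 gN1q2 gN2q2 true true)) t 1 6 1 = true :=
  ⟨(T.b (T.l 1) (T.b (T.l 1) (T.b (T.b (T.a (T.l 1) (T.a (T.b (T.l 1) (T.b (T.l 1) (T.a (T.c (T.l 884) (T.l 816)) (T.c (T.l 884) (T.l 816))))) (T.a (T.c (T.l 884) (T.l 820)) (T.c (T.l 884) (T.l 816))))) (T.a (T.a (T.l 816) (T.a (T.a (T.l 816) (T.c (T.l 816) (T.l 816))) (T.a (T.l 884) (T.l 884)))) (T.a (T.a (T.a (T.l 884) (T.l 884)) (T.c (T.c (T.l 884) (T.l 884)) (T.l 884))) (T.a (T.c (T.l 884) (T.l 884)) (T.c (T.l 884) (T.l 820)))))) (T.b (T.a (T.a (T.l 816) (T.a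 (T.a (T.l 816) (T.c (T.l 816) (T.l 816))) (T.a (T.c (T.l 816) (T.l 816)) (T.l 884)))) (T.a (T.a (T.a (T.l 884) (T.c (T.l 816) (T.l 816))) (T.c (T.c (T.l 884) (T.l 884)) (T.c (T.l 884) (T.l 816)))) (T.a (T.c (T.l 884) (T.l 884)) (T.c (T.l 884) (T.l 884))))) (T.a (T.a (T.l 816) (T.a (T.a (T.l 816) (T.c (T.l 816) (T.l 816))) (T.a (T.c (T.l 816) (T.l 816)) (T.c (T.l 816) (T.l 816))))) (T.a (T.a (T.a (T.l 884) (T.c (T.l 816) (T.l 816))) (T.c (T.c (T.l 884) (T.l 884)) (T.c (T.l 884) (T.l 884)))) (T.a (T.a (T.l 884) (T.l 884)) (T.a (T.l 884) (T.c (T.l 884) (T.l 884)))))))))), by decide +kernel⟩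

def A012E_001_1_28_1 :
    ∃ t, chk3 (onCell 0 67108864 0 1073741824 67108864 67108864 (corTK [[⟨0, 0, 1, 33554432⟩, ⟨1, 1, 0, 8388608⟩, ⟨2, 1, 1, 33554432⟩, ⟨0, 0, 0, 150994944⟩, ⟨0, 1, 0, 1023410176⟩, ⟨2, 1, 0, 150994944⟩, ⟨2, 2, 0, 1023410176⟩]] false 3 c0N cA012E gN0q0 gN0q1 gN1q2 gN2q2 true true)) t 1 28 1 = true :=
  ⟨(T.b (T.b (T.a (T.a (T.l 816) (T.a (T.a (T.l 816) (T.c (T.l 816) (T.l 816))) (T.a (T.c (T.l 816) (T.l 816)) (T.c (T.l 816) (T.l 816))))) (T.a (T.a (T.a (T.c (T.l 816) (T.l 816)) (T.l 884)) (T.a (T.c (T.l 884) (T.l 816)) (T.c (T.l 884) (T.l 816)))) (T.a (T.c (T.c (T.l 884) (T.l 884)) (T.l 884)) (T.a (T.l 884) (T.c (T.l 884) (T.l 884)))))) (T.a (T.a (T.l 816) (T.a (T.a (T.c (T.l 816) (T.l 816)) (T.c (T.l 880) (T.l 816))) (T.a (T.c (T.l 816) (T.l 816)) (T.c (T.l 816) (T.l 816))))) (T.a (T.a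 (T.a (T.c (T.l 816) (T.l 816)) (T.c (T.l 816) (T.l 816))) (T.a (T.c (T.l 884) (T.l 816)) (T.c (T.l 884) (T.l 816)))) (T.a (T.c (T.c (T.l 884) (T.l 884)) (T.c (T.l 884) (T.l 884))) (T.a (T.l 884) (T.a (T.l 884) (T.l 884))))))) (T.b (T.a (T.a (T.l 816) (T.a (T.a (T.c (T.l 880) (T.l 816)) (T.c (T.l 884) (T.l 816))) (T.a (T.c (T.l 880) (T.l 816)) (T.c (T.l 816) (T.l 816))))) (T.a (T.a (T.a (T.c (T.l 816) (T.l 816)) (T.c (T.l 816) (T.l 816))) (T.a (T.c (T.l 884) (T.l 816)) (T.c (T.l 884) (T.l 816)))) (T.a (T.c (T.c (T.l 884) (T.l 884)) (T.c (T.l 884) (T.l 884))) (T.a (T.c (T.l 884) (T.l 816)) (T.c (T.c (T.l 884) (T.l 884)) (T.l 884)))))) (T.a (T.a (T.l 816) (T.a (T.a (T.a (T.l 816) (T.l 880)) (T.c (T.c (T.l 816) (T.l 816)) (T.l 816))) (T.a (T.c (T.l 884) (T.l 816)) (T.c (T.l 884) (T.l 816))))) (T.a (T.a (T.a (T.c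 (T.l 884) (T.l 816)) (T.c (T.l 884) (T.l 816))) (T.a (T.c (T.l 884) (T.l 816)) (T.c (T.l 884) (T.l 816)))) (T.a (T.c (T.a (T.l 884) (T.l 884)) (T.c (T.l 884) (T.l 884))) (T.a (T.a (T.l 884) (T.c (T.l 884) (T.l 884))) (T.c (T.c (T.l 884) (T.l 884)) (T.c (T.l 884) (T.l 884))))))))), by decide +kernel⟩

def A012E_001_1_29_1 :
    ∃ t, chk3 (onCell 0 67108864 0 1073741824 67108864 67108864 (corTK [[⟨0, 0, 1, 33554432⟩, ⟨1, 1, 0, 8388608⟩, ⟨2, 1, 1, 33554432⟩, ⟨0, 0, 0, 150994944⟩, ⟨0, 1, 0, 1023410176⟩, ⟨2, 1, 0, 150994944⟩, ⟨2, 2, 0, 1023410176⟩]] false 3 c0N cA012E gN0q0 gN0q1 gN1q2 gN2q2 true true)) t 1 29 1 = true :=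
  ⟨(T.b (T.b (T.a (T.a (T.l 816) (T.a (T.a (T.c (T.c (T.l 816) (T.l 816)) (T.l 816)) (T.c (T.c (T.l 816) (T.l 816)) (T.l 816))) (T.a (T.c (T.l 884) (T.l 816)) (T.c (T.l 884) (T.l 816))))) (T.a (T.a (T.a (T.c (T.l 884) (T.l 816)) (T.c (T.l 884) (T.l 816))) (T.a (T.c (T.l 884) (T.l 816)) (T.c (T.l 884) (T.l 816)))) (T.a (T.a (T.c (T.l 884) (T.l 816)) (T.c (T.l 884) (T.l 884))) (T.a (T.a (T.c (T.l 884) (T.l 884)) (T.c (T.l 884) (T.l 884))) (T.c (T.b (T.l 884) (T.l 884)) (T.c (T.l 884) (T.l 884))))))) (T.b (T.b (T.a (T.a (T.l 816) (T.a (T.a (T.c (T.l 880) (T.l 816)) (T.c (T.l 880) (T.l 816))) (T.a (T.c (T.l 880) (T.l 816)) (T.c (T.l 816) (T.l 816))))) (T.a (T.a (T.a (T.c (T.l 816) (T.l 816)) (T.c (T.l 816) (T.l 816))) (T.a (T.c (T.l 884) (T.l 816)) (T.c (T.l 884) (T.l 816)))) (T.a (T.c (T.c (T.l 884) (T.l 884)) (T.l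 884)) (T.a (T.a (T.l 884) (T.l 884)) (T.c (T.l 884) (T.l 884)))))) (T.a (T.a (T.l 816) (T.a (T.a (T.c (T.l 880) (T.l 816)) (T.c (T.l 884) (T.l 816))) (T.a (T.c (T.l 880) (T.l 816)) (T.c (T.l 816) (T.l 816))))) (T.a (T.a (T.a (T.c (T.l 816) (T.l 816)) (T.c (T.l 816) (T.l 816))) (T.a (T.c (T.l 884) (T.l 816)) (T.c (T.l 884) (T.l 816)))) (T.a (T.c (T.c (T.l 884) (T.l 884)) (T.l 884)) (T.a (T.a (T.l 884) (T.l 884)) (T.c (T.l 884) (T.l 884))))))) (T.b (T.a (T.a (T.l 816) (T.a (T.a (T.c (T.l 880) (T.l 816)) (T.c (T.l 884) (T.l 816))) (T.a (T.c (T.l 880) (T.l 816)) (T.c (T.l 880) (T.l 816))))) (T.a (T.a (T.a (T.c (T.l 880) (T.l 816)) (T.c (T.l 880) (T.l 816))) (T.a (T.c (T.l 884) (T.l 816)) (T.c (T.l 884) (T.l 816)))) (T.a (T.c (T.c (T.l 884) (T.l 884)) (T.c (T.l 884) (T.l 884))) (T.a (T.a (T.l 884) (T.l 884)) (T.c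 (T.l 884) (T.l 884)))))) (T.a (T.a (T.l 816) (T.a (T.a (T.a (T.l 816) (T.l 880)) (T.c (T.l 884) (T.l 816))) (T.a (T.c (T.l 880) (T.l 816)) (T.c (T.l 880) (T.l 816))))) (T.a (T.a (T.a (T.c (T.l 880) (T.l 816)) (T.c (T.l 880) (T.l 816))) (T.a (T.c (T.l 884) (T.l 816)) (T.c (T.l 884) (T.l 816)))) (T.a (T.c (T.c (T.l 884) (T.l 884)) (T.c (T.l 884) (T.l 884))) (T.a (T.a (T.l 884) (T.l 884)) (T.c (T.l 884) (T.l 884))))))))) (T.b (T.b (T.b (T.a (T.a (T.l 816) (T.a (T.a (T.a (T.l 816) (T.l 880)) (T.c (T.c (T.l 816) (T.l 816)) (T.l 816))) (T.a (T.c (T.l 884) (T.l 816)) (T.c (T.l 880) (T.l 816))))) (T.a (T.a (T.a (T.c (T.l 880) (T.l 816)) (T.c (T.l 884) (T.l 816))) (T.a (T.c (T.l 884) (T.l 816)) (T.c (T.l 884) (T.l 816)))) (T.a (T.c (T.c (T.l 884) (T.l 884)) (T.c (T.l 884) (T.l 884))) (T.a (T.a (T.l 884) (T.l 884)) (T.c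 (T.l 884) (T.l 884)))))) (T.a (T.a (T.l 816) (T.a (T.a (T.a (T.l 816) (T.l 880)) (T.c (T.c (T.l 816) (T.l 816)) (T.l 816))) (T.a (T.c (T.l 884) (T.l 816)) (T.c (T.l 880) (T.l 816))))) (T.a (T.a (T.a (T.c (T.l 884) (T.l 816)) (T.c (T.l 884) (T.l 816))) (T.a (T.c (T.l 884) (T.l 816)) (T.c (T.l 884) (T.l 816)))) (T.a (T.c (T.c (T.l 884) (T.l 884)) (T.c (T.l 884) (T.l 884))) (T.a (T.a (T.l 884) (T.l 884)) (T.c (T.l 884) (T.l 884))))))) (T.b (T.a (T.a (T.l 816) (T.a (T.a (T.c (T.c (T.l 816) (T.l 816)) (T.l 816)) (T.c (T.c (T.l 816) (T.l 816)) (T.l 816))) (T.a (T.c (T.l 884) (T.l 816)) (T.c (T.l 884) (T.l 816))))) (T.a (T.a (T.a (T.c (T.l 884) (T.l 816)) (T.c (T.l 884) (T.l 816))) (T.a (T.c (T.l 884) (T.l 816)) (T.c (T.l 884) (T.l 816)))) (T.a (T.c (T.c (T.l 884) (T.l 884)) (T.c (T.l 884) (T.l 884))) (T.a (T.a (T.c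 (T.l 884) (T.l 816)) (T.l 884)) (T.a (T.l 884) (T.l 884)))))) (T.a (T.a (T.l 816) (T.a (T.a (T.c (T.c (T.l 816) (T.l 816)) (T.l 816)) (T.c (T.c (T.l 816) (T.l 816)) (T.l 816))) (T.a (T.c (T.l 884) (T.l 816)) (T.c (T.l 884) (T.l 816))))) (T.a (T.a (T.a (T.c (T.l 884) (T.l 816)) (T.c (T.l 884) (T.l 816))) (T.a (T.c (T.l 884) (T.l 816)) (T.c (T.l 884) (T.l 816)))) (T.a (T.a (T.c (T.l 884) (T.l 816)) (T.a (T.l 884) (T.c (T.l 884) (T.l 816)))) (T.a (T.a (T.c (T.l 884) (T.l 816)) (T.l 884)) (T.a (T.l 884) (T.l 884)))))))) (T.b (T.b (T.a (T.a (T.l 816) (T.a (T.a (T.c (T.c (T.l 816) (T.l 816)) (T.l 816)) (T.c (T.c (T.l 816) (T.l 816)) (T.l 816))) (T.a (T.c (T.l 884) (T.l 816)) (T.c (T.l 884) (T.l 816))))) (T.a (T.a (T.a (T.c (T.l 884) (T.l 816)) (T.c (T.l 884) (T.l 816))) (T.a (T.c (T.l 884) (T.l 816)) (T.c (T.l 884)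 (T.l 880)))) (T.a (T.a (T.c (T.l 884) (T.l 816)) (T.a (T.l 884) (T.c (T.l 884) (T.l 884)))) (T.a (T.a (T.c (T.l 884) (T.l 816)) (T.l 884)) (T.a (T.l 884) (T.l 884)))))) (T.a (T.a (T.l 816) (T.a (T.a (T.c (T.c (T.l 816) (T.l 816)) (T.l 816)) (T.c (T.c (T.l 816) (T.l 816)) (T.l 816))) (T.a (T.c (T.l 884) (T.l 816)) (T.c (T.l 884) (T.l 816))))) (T.a (T.a (T.a (T.c (T.l 884) (T.l 816)) (T.c (T.l 884) (T.l 816))) (T.a (T.c (T.l 884) (T.l 880)) (T.c (T.l 884) (T.l 880)))) (T.a (T.a (T.c (T.l 884) (T.l 880)) (T.a (T.l 884) (T.c (T.l 884) (T.l 884)))) (T.a (T.c (T.c (T.l 884) (T.l 884)) (T.c (T.l 884) (T.l 884))) (T.a (T.l 884) (T.l 884))))))) (T.b (T.a (T.a (T.l 816) (T.a (T.a (T.c (T.c (T.l 880) (T.l 816)) (T.l 816)) (T.c (T.c (T.l 880) (T.l 816)) (T.l 816))) (T.a (T.c (T.c (T.l 816) (T.l 816)) (T.l 816)) (T.c (T.l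 884) (T.l 816))))) (T.a (T.a (T.a (T.c (T.l 884) (T.l 816)) (T.c (T.l 884) (T.l 816))) (T.a (T.c (T.l 884) (T.l 880)) (T.c (T.l 884) (T.l 884)))) (T.a (T.a (T.c (T.l 884) (T.l 884)) (T.a (T.l 884) (T.c (T.l 884) (T.l 884)))) (T.a (T.c (T.c (T.l 1024) (T.l 884)) (T.c (T.l 884) (T.l 884))) (T.c (T.c (T.l 884) (T.l 884)) (T.l 884)))))) (T.a (T.a (T.l 816) (T.a (T.a (T.c (T.c (T.l 880) (T.l 816)) (T.l 880)) (T.c (T.c (T.l 880) (T.l 816)) (T.l 880))) (T.a (T.c (T.c (T.l 816) (T.l 816)) (T.l 816)) (T.c (T.l 884) (T.l 816))))) (T.a (T.a (T.a (T.c (T.l 884) (T.l 816)) (T.c (T.l 884) (T.l 816))) (T.a (T.c (T.l 884) (T.l 880)) (T.c (T.l 884) (T.l 884)))) (T.a (T.a (T.c (T.l 884) (T.l 884)) (T.a (T.l 884) (T.c (T.l 884) (T.l 884)))) (T.a (T.c (T.c (T.l 1024) (T.l 884)) (T.c (T.l 884) (T.l 884))) (T.c (T.c (T.l 884) (T.l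 884)) (T.c (T.l 884) (T.l 884))))))))))), by decide +kernel⟩

def A012E_001_1_60_1 :
    ∃ t, chk3 (onCell 0 67108864 0 1073741824 67108864 67108864 (corTK [[⟨0, 0, 1, 33554432⟩, ⟨1, 1, 0, 8388608⟩, ⟨2, 1, 1, 33554432⟩, ⟨0, 0, 0, 150994944⟩, ⟨0, 1, 0, 1023410176⟩, ⟨2, 1, 0, 150994944⟩, ⟨2, 2, 0, 1023410176⟩]] false 3 c0N cA012E gN0q0 gN0q1 gN1q2 gN2q2 true true)) t 1 60 1 = true :=
  ⟨(T.b (T.b (T.b (T.a (T.a (T.l 816) (T.a (T.a (T.c (T.c (T.l 880) (T.l 816)) (T.l 880)) (T.c (T.c (T.l 880) (T.l 816)) (T.l 880))) (T.a (T.c (T.c (T.l 816) (T.l 816)) (T.l 816)) (T.c (T.l 884) (T.l 816))))) (T.a (T.a (T.a (T.c (T.l 884) (T.l 816)) (T.c (T.l 884) (T.l 816))) (T.a (T.c (T.l 884) (T.l 884)) (T.c (T.l 884) (T.l 884)))) (T.a (T.a (T.c (T.l 884) (T.l 884)) (T.a (T.l 884) (T.c (T.l 884) (T.l 884)))) (T.a (T.a (T.c (T.l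 884) (T.l 884)) (T.c (T.l 884) (T.l 884))) (T.c (T.c (T.l 884) (T.l 884)) (T.c (T.l 884) (T.l 884))))))) (T.a (T.a (T.l 816) (T.a (T.a (T.c (T.c (T.l 880) (T.l 816)) (T.l 880)) (T.c (T.c (T.l 880) (T.l 816)) (T.l 880))) (T.a (T.c (T.c (T.l 816) (T.l 816)) (T.l 816)) (T.c (T.l 884) (T.l 816))))) (T.a (T.a (T.a (T.c (T.l 884) (T.l 816)) (T.c (T.l 884) (T.l 816))) (T.a (T.c (T.l 884) (T.l 884)) (T.c (T.l 884) (T.l 884)))) (T.a (T.a (T.c (T.l 884) (T.l 884)) (T.a (T.l 884) (T.c (T.l 884) (T.l 884)))) (T.a (T.a (T.c (T.l 884) (T.l 884)) (T.c (T.l 884) (T.l 884))) (T.c (T.c (T.l 1024) (T.l 884)) (T.c (T.l 884) (T.l 884)))))))) (T.b (T.a (T.a (T.l 816) (T.a (T.a (T.c (T.c (T.l 880) (T.l 816)) (T.l 880)) (T.c (T.c (T.l 880) (T.l 816)) (T.l 884))) (T.a (T.c (T.c (T.l 880) (T.l 816)) (T.l 816)) (T.c (T.l 884) (T.l 816)))))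 (T.a (T.a (T.a (T.c (T.l 884) (T.l 816)) (T.c (T.l 884) (T.l 816))) (T.a (T.c (T.l 884) (T.l 884)) (T.c (T.l 884) (T.l 884)))) (T.a (T.a (T.c (T.l 884) (T.l 884)) (T.a (T.c (T.l 884) (T.l 816)) (T.c (T.l 884) (T.l 884)))) (T.a (T.a (T.c (T.l 884) (T.l 884)) (T.c (T.l 884) (T.l 884))) (T.c (T.c (T.l 1024) (T.l 884)) (T.c (T.l 884) (T.l 884))))))) (T.a (T.a (T.l 816) (T.a (T.a (T.c (T.c (T.l 880) (T.l 816)) (T.c (T.l 816) (T.l 816))) (T.c (T.c (T.l 880) (T.l 816)) (T.l 884))) (T.a (T.c (T.c (T.l 880) (T.l 816)) (T.l 816)) (T.c (T.c (T.l 880) (T.l 816)) (T.l 816))))) (T.a (T.a (T.a (T.c (T.l 884) (T.l 816)) (T.c (T.l 884) (T.l 816))) (T.a (T.c (T.l 884) (T.l 884)) (T.c (T.l 884) (T.l 884)))) (T.a (T.a (T.c (T.l 884) (T.l 884)) (T.a (T.c (T.l 884) (T.l 884)) (T.c (T.l 884) (T.l 884)))) (T.a (T.a (T.c (T.l 884) (T.l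 884)) (T.c (T.l 884) (T.l 884))) (T.c (T.a (T.l 884) (T.l 884)) (T.c (T.l 884) (T.l 884))))))))) (T.b (T.b (T.a (T.a (T.l 816) (T.a (T.a (T.c (T.a (T.l 816) (T.l 816)) (T.c (T.l 816) (T.l 816))) (T.c (T.c (T.l 880) (T.l 816)) (T.c (T.l 816) (T.l 816)))) (T.a (T.c (T.c (T.l 880) (T.l 816)) (T.l 880)) (T.c (T.c (T.l 880) (T.l 816)) (T.l 816))))) (T.a (T.a (T.a (T.c (T.l 884) (T.l 816)) (T.c (T.l 884) (T.l 816))) (T.a (T.c (T.c (T.l 884) (T.l 880)) (T.l 884)) (T.c (T.l 884) (T.l 884)))) (T.a (T.a (T.c (T.l 884) (T.l 884)) (T.a (T.c (T.l 884) (T.l 884)) (T.c (T.l 884) (T.l 884)))) (T.a (T.a (T.c (T.l 884) (T.l 884)) (T.c (T.l 884) (T.l 884))) (T.c (T.a (T.l 884) (T.l 884)) (T.c (T.l 884) (T.l 884))))))) (T.a (T.a (T.l 816) (T.a (T.a (T.c (T.a (T.l 816) (T.l 816)) (T.c (T.l 816) (T.l 816))) (T.c (T.c (T.l 880) (T.l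 816)) (T.c (T.l 816) (T.l 816)))) (T.a (T.c (T.c (T.l 880) (T.l 816)) (T.l 880)) (T.c (T.c (T.l 880) (T.l 816)) (T.l 816))))) (T.a (T.a (T.a (T.c (T.c (T.l 880) (T.l 816)) (T.l 816)) (T.c (T.l 884) (T.l 880))) (T.a (T.c (T.c (T.l 884) (T.l 880)) (T.l 884)) (T.c (T.l 884) (T.l 884)))) (T.a (T.a (T.c (T.l 884) (T.l 884)) (T.a (T.c (T.l 884) (T.l 884)) (T.c (T.l 884) (T.l 884)))) (T.a (T.a (T.c (T.l 884) (T.l 884)) (T.c (T.l 884) (T.l 884))) (T.c (T.a (T.l 884) (T.l 884)) (T.a (T.l 884) (T.l 884)))))))) (T.b (T.a (T.a (T.l 816) (T.a (T.a (T.c (T.a (T.l 816) (T.l 816)) (T.c (T.l 816) (T.l 816))) (T.c (T.c (T.l 884) (T.l 880)) (T.c (T.l 816) (T.l 816)))) (T.a (T.c (T.c (T.l 880) (T.l 816)) (T.l 884)) (T.c (T.c (T.l 880) (T.l 816)) (T.l 880))))) (T.a (T.a (T.a (T.c (T.c (T.l 884) (T.l 816)) (T.l 880)) (T.c (T.l 884)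 (T.l 880))) (T.a (T.c (T.c (T.l 884) (T.l 884)) (T.l 884)) (T.c (T.c (T.l 884) (T.l 884)) (T.l 884)))) (T.a (T.a (T.c (T.l 884) (T.l 884)) (T.a (T.c (T.l 884) (T.l 884)) (T.c (T.l 884) (T.l 884)))) (T.a (T.a (T.c (T.l 884) (T.l 884)) (T.c (T.l 884) (T.l 884))) (T.c (T.a (T.l 884) (T.l 884)) (T.a (T.l 884) (T.l 884))))))) (T.a (T.a (T.l 816) (T.a (T.a (T.c (T.a (T.l 816) (T.l 816)) (T.c (T.l 816) (T.l 816))) (T.c (T.a (T.l 816) (T.l 816)) (T.c (T.l 816) (T.l 816)))) (T.a (T.c (T.c (T.l 880) (T.l 816)) (T.l 884)) (T.c (T.c (T.l 880) (T.l 816)) (T.l 880))))) (T.a (T.a (T.a (T.c (T.c (T.l 884) (T.l 816)) (T.l 880)) (T.c (T.c (T.l 884) (T.l 816)) (T.l 884))) (T.a (T.c (T.c (T.l 884) (T.l 884)) (T.l 884)) (T.c (T.c (T.l 884) (T.l 884)) (T.l 884)))) (T.a (T.a (T.c (T.l 884) (T.l 884)) (T.a (T.c (T.l 884) (T.l 884))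 (T.c (T.l 884) (T.l 884)))) (T.a (T.a (T.c (T.l 884) (T.l 884)) (T.c (T.l 884) (T.l 884))) (T.a (T.c (T.l 884) (T.l 884)) (T.c (T.l 884) (T.l 884)))))))))), by decide +kernel⟩

def A012E_001_1_61_1 :
    ∃ t, chk3 (onCell 0 67108864 0 1073741824 67108864 67108864 (corTK [[⟨0, 0, 1, 33554432⟩, ⟨1, 1, 0, 8388608⟩, ⟨2, 1, 1, 33554432⟩, ⟨0, 0, 0, 150994944⟩, ⟨0, 1, 0, 1023410176⟩, ⟨2, 1, 0, 150994944⟩, ⟨2, 2, 0, 1023410176⟩]] false 3 c0N cA012E gN0q0 gN0q1 gN1q2 gN2q2 true true)) t 1 61 1 = true :=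
  ⟨(T.b (T.b (T.b (T.a (T.a (T.l 816) (T.a (T.a (T.c (T.a (T.l 816) (T.l 816)) (T.c (T.l 816) (T.l 816))) (T.c (T.a (T.l 816) (T.l 816)) (T.c (T.l 816) (T.l 816)))) (T.a (T.c (T.c (T.l 884) (T.l 816)) (T.l 884)) (T.c (T.c (T.l 884) (T.l 816)) (T.l 884))))) (T.a (T.a (T.a (T.c (T.c (T.l 884) (T.l 816)) (T.l 884)) (T.c (T.c (T.l 884) (T.l 816)) (T.l 884))) (T.a (T.c (T.c (T.l 884) (T.l 884)) (T.l 884)) (T.c (T.c (T.l 884) (T.l 884)) (T.l 884)))) (T.a (T.a (T.c (T.l 884) (T.l 884)) (T.a (T.c (T.l 884) (T.l 884)) (T.c (T.l 884) (T.l 884)))) (T.a (T.a (T.c (T.l 884) (T.l 884)) (T.c (T.l 884) (T.l 884))) (T.a (T.c (T.l 884) (T.l 884)) (T.c (T.l 884) (T.l 884))))))) (T.a (T.a (T.l 816) (T.a (T.a (T.c (T.a (T.l 816) (T.l 816)) (T.c (T.l 816) (T.l 816))) (T.c (T.a (T.l 816) (T.l 816)) (T.c (T.l 816) (T.l 816)))) (T.a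 (T.c (T.c (T.l 884) (T.l 816)) (T.l 884)) (T.c (T.c (T.l 884) (T.l 816)) (T.l 884))))) (T.a (T.a (T.a (T.c (T.c (T.l 884) (T.l 816)) (T.l 884)) (T.c (T.c (T.l 884) (T.l 880)) (T.l 884))) (T.a (T.c (T.c (T.l 884) (T.l 884)) (T.l 884)) (T.c (T.c (T.l 884) (T.l 884)) (T.l 884)))) (T.a (T.a (T.c (T.l 884) (T.l 884)) (T.a (T.c (T.c (T.l 884) (T.l 884)) (T.l 884)) (T.c (T.l 884) (T.l 884)))) (T.a (T.a (T.c (T.l 884) (T.l 884)) (T.c (T.l 884) (T.l 884))) (T.a (T.c (T.l 884) (T.l 884)) (T.c (T.l 884) (T.l 884)))))))) (T.b (T.a (T.a (T.l 816) (T.a (T.a (T.c (T.a (T.l 816) (T.l 816)) (T.c (T.l 816) (T.l 816))) (T.c (T.a (T.l 816) (T.l 816)) (T.c (T.l 816) (T.l 816)))) (T.a (T.c (T.c (T.l 884) (T.l 880)) (T.c (T.l 816) (T.l 816))) (T.c (T.c (T.l 884) (T.l 816)) (T.l 884))))) (T.a (T.a (T.a (T.c (T.c (T.l 884) (T.l 816))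 (T.l 884)) (T.c (T.c (T.l 884) (T.l 880)) (T.l 884))) (T.a (T.c (T.c (T.l 884) (T.l 884)) (T.l 884)) (T.c (T.c (T.l 884) (T.l 884)) (T.l 884)))) (T.a (T.a (T.c (T.c (T.l 884) (T.l 884)) (T.l 884)) (T.a (T.c (T.c (T.l 884) (T.l 884)) (T.l 884)) (T.c (T.l 884) (T.l 884)))) (T.a (T.a (T.c (T.l 884) (T.l 884)) (T.c (T.l 884) (T.l 884))) (T.a (T.c (T.l 884) (T.l 884)) (T.c (T.l 884) (T.l 884))))))) (T.a (T.a (T.l 816) (T.a (T.a (T.c (T.a (T.l 816) (T.l 816)) (T.c (T.l 816) (T.l 816))) (T.c (T.a (T.l 816) (T.l 816)) (T.c (T.l 816) (T.l 816)))) (T.a (T.c (T.c (T.l 884) (T.l 880)) (T.c (T.l 816) (T.l 816))) (T.c (T.c (T.l 884) (T.l 880)) (T.l 884))))) (T.a (T.a (T.a (T.c (T.c (T.l 884) (T.l 880)) (T.l 884)) (T.c (T.c (T.l 884) (T.l 884)) (T.l 884))) (T.a (T.c (T.c (T.l 884) (T.l 884)) (T.c (T.l 880) (T.l 816))) (T.c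 (T.c (T.l 884) (T.l 884)) (T.l 884)))) (T.a (T.a (T.c (T.c (T.l 884) (T.l 884)) (T.l 884)) (T.a (T.c (T.c (T.l 884) (T.l 884)) (T.l 884)) (T.c (T.l 884) (T.l 884)))) (T.a (T.a (T.c (T.l 884) (T.l 884)) (T.c (T.l 884) (T.l 884))) (T.a (T.c (T.l 884) (T.l 884)) (T.c (T.l 884) (T.l 884))))))))) (T.b (T.b (T.a (T.a (T.l 816) (T.a (T.a (T.c (T.a (T.l 816) (T.l 816)) (T.c (T.l 816) (T.l 816))) (T.c (T.a (T.l 816) (T.l 816)) (T.c (T.l 816) (T.l 816)))) (T.a (T.c (T.a (T.l 816) (T.l 816)) (T.c (T.l 816) (T.l 816))) (T.c (T.c (T.l 884) (T.l 880)) (T.l 884))))) (T.a (T.a (T.a (T.c (T.c (T.l 884) (T.l 880)) (T.l 884)) (T.c (T.c (T.l 884) (T.l 884)) (T.l 884))) (T.a (T.c (T.c (T.l 884) (T.l 884)) (T.c (T.l 884) (T.l 816))) (T.c (T.c (T.l 884) (T.l 884)) (T.c (T.l 884) (T.l 880))))) (T.a (T.a (T.a (T.c (T.l 884) (T.l 884))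 (T.c (T.c (T.l 884) (T.l 884)) (T.c (T.l 884) (T.l 884)))) (T.a (T.c (T.c (T.l 884) (T.l 884)) (T.l 884)) (T.c (T.c (T.l 1024) (T.l 884)) (T.l 884)))) (T.a (T.a (T.c (T.l 884) (T.l 884)) (T.c (T.l 884) (T.l 884))) (T.a (T.c (T.l 884) (T.l 884)) (T.c (T.l 884) (T.l 884))))))) (T.a (T.a (T.l 816) (T.a (T.a (T.c (T.a (T.l 816) (T.l 816)) (T.c (T.l 880) (T.l 816))) (T.c (T.a (T.l 816) (T.l 816)) (T.c (T.l 880) (T.l 816)))) (T.a (T.c (T.a (T.l 816) (T.l 816)) (T.c (T.l 816) (T.l 816))) (T.c (T.c (T.l 884) (T.l 880)) (T.l 884))))) (T.a (T.a (T.a (T.c (T.c (T.l 884) (T.l 880)) (T.l 884)) (T.c (T.c (T.l 884) (T.l 884)) (T.l 884))) (T.a (T.c (T.c (T.l 884) (T.l 884)) (T.c (T.l 884) (T.l 816))) (T.c (T.c (T.l 884) (T.l 884)) (T.c (T.l 884) (T.l 880))))) (T.a (T.a (T.a (T.c (T.l 884) (T.l 884)) (T.c (T.c (T.l 884) (T.l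 884)) (T.c (T.l 884) (T.l 884)))) (T.a (T.c (T.c (T.l 1024) (T.l 884)) (T.l 884)) (T.c (T.c (T.l 1024) (T.l 884)) (T.l 884)))) (T.a (T.a (T.c (T.c (T.l 1024) (T.l 884)) (T.l 884)) (T.c (T.l 884) (T.l 884))) (T.a (T.c (T.l 884) (T.l 884)) (T.c (T.l 884) (T.l 884)))))))) (T.b (T.a (T.a (T.l 816) (T.a (T.a (T.c (T.a (T.l 816) (T.l 816)) (T.c (T.l 880) (T.l 816))) (T.c (T.a (T.l 816) (T.l 816)) (T.c (T.l 880) (T.l 816)))) (T.a (T.c (T.a (T.l 816) (T.l 816)) (T.c (T.l 816) (T.l 816))) (T.c (T.c (T.l 884) (T.l 880)) (T.c (T.l 816) (T.l 816)))))) (T.a (T.a (T.a (T.c (T.c (T.l 884) (T.l 884)) (T.l 884)) (T.c (T.c (T.l 884) (T.l 884)) (T.l 884))) (T.a (T.c (T.c (T.l 884) (T.l 884)) (T.c (T.l 884) (T.l 816))) (T.c (T.c (T.l 884) (T.l 884)) (T.c (T.l 884) (T.l 884))))) (T.a (T.a (T.a (T.c (T.l 884) (T.l 884)) (T.c (T.a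 (T.l 884) (T.l 884)) (T.c (T.l 884) (T.l 884)))) (T.a (T.c (T.c (T.l 1024) (T.l 884)) (T.l 884)) (T.c (T.c (T.l 1024) (T.l 884)) (T.l 884)))) (T.a (T.a (T.c (T.c (T.l 1024) (T.l 884)) (T.l 884)) (T.c (T.c (T.l 1024) (T.l 884)) (T.l 884))) (T.a (T.c (T.l 884) (T.l 884)) (T.c (T.l 884) (T.l 884))))))) (T.a (T.a (T.l 816) (T.a (T.a (T.c (T.a (T.l 816) (T.l 816)) (T.c (T.l 880) (T.l 816))) (T.c (T.a (T.l 880) (T.l 880)) (T.c (T.l 880) (T.l 816)))) (T.a (T.c (T.a (T.l 880) (T.l 880)) (T.c (T.l 816) (T.l 816))) (T.c (T.a (T.l 880) (T.l 880)) (T.c (T.l 816) (T.l 816)))))) (T.a (T.a (T.a (T.c (T.c (T.l 884) (T.l 884)) (T.c (T.l 816) (T.l 816))) (T.c (T.c (T.l 884) (T.l 884)) (T.l 884))) (T.a (T.c (T.a (T.l 884) (T.l 884)) (T.c (T.l 884) (T.l 880))) (T.c (T.c (T.l 884) (T.l 884)) (T.c (T.l 884) (T.l 884))))) (T.a (T.a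 (T.a (T.c (T.l 884) (T.l 884)) (T.c (T.a (T.l 884) (T.l 884)) (T.c (T.l 884) (T.l 884)))) (T.a (T.c (T.c (T.l 1024) (T.l 884)) (T.c (T.l 884) (T.l 884))) (T.c (T.c (T.l 1024) (T.l 884)) (T.l 884)))) (T.a (T.a (T.c (T.c (T.l 1024) (T.l 884)) (T.l 884)) (T.c (T.c (T.l 1024) (T.l 884)) (T.l 884))) (T.a (T.c (T.c (T.l 1024) (T.l 884)) (T.l 884)) (T.c (T.c (T.l 1024) (T.l 884)) (T.l 884)))))))))), by decide +kernel⟩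

def A012E_001_1_124_1 :
    ∃ t, chk3 (onCell 0 67108864 0 1073741824 67108864 67108864 (corTK [[⟨0, 0, 1, 33554432⟩, ⟨1, 1, 0, 8388608⟩, ⟨2, 1, 1, 33554432⟩, ⟨0, 0, 0, 150994944⟩, ⟨0, 1, 0, 1023410176⟩, ⟨2, 1, 0, 150994944⟩, ⟨2, 2, 0, 1023410176⟩]] false 3 c0N cA012E gN0q0 gN0q1 gN1q2 gN2q2 true true)) t 1 124 1 = true :=
  ⟨(T.b (T.b (T.a (T.a (T.l 816) (T.a (T.a (T.c (T.a (T.l 816) (T.l 816)) (T.a (T.l 816) (T.l 816))) (T.c (T.a (T.l 880) (T.l 880)) (T.c (T.l 880) (T.l 816)))) (T.a (T.c (T.a (T.l 880) (T.l 880)) (T.c (T.l 816) (T.l 816))) (T.c (T.a (T.l 880) (T.l 880)) (T.c (T.l 816) (T.l 816)))))) (T.a (T.a (T.a (T.c (T.a (T.l 884) (T.l 884)) (T.c (T.l 816) (T.l 816))) (T.c (T.c (T.l 884) (T.l 884)) (T.c (T.l 880) (T.l 816)))) (T.a (T.c (T.a (T.l 884) (T.l 884)) (T.c (T.l 884) (T.l 880))) (T.c (T.a (T.l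 884) (T.l 884)) (T.c (T.l 884) (T.l 884))))) (T.a (T.a (T.a (T.c (T.l 884) (T.l 884)) (T.c (T.a (T.l 884) (T.l 884)) (T.c (T.l 884) (T.l 884)))) (T.a (T.c (T.c (T.l 1024) (T.l 884)) (T.c (T.l 884) (T.l 884))) (T.c (T.c (T.l 1024) (T.l 884)) (T.c (T.l 884) (T.l 884))))) (T.a (T.a (T.c (T.c (T.l 1024) (T.l 884)) (T.l 884)) (T.c (T.c (T.l 1024) (T.l 884)) (T.l 884))) (T.a (T.c (T.c (T.l 1024) (T.l 884)) (T.l 884)) (T.c (T.c (T.l 1024) (T.l 884)) (T.l 884))))))) (T.a (T.a (T.l 816) (T.a (T.a (T.c (T.a (T.l 880) (T.l 816)) (T.a (T.l 816) (T.l 816))) (T.c (T.a (T.l 880) (T.l 880)) (T.c (T.l 884) (T.l 816)))) (T.a (T.c (T.a (T.l 880) (T.l 880)) (T.c (T.l 880) (T.l 816))) (T.c (T.a (T.l 880) (T.l 880)) (T.c (T.l 816) (T.l 816)))))) (T.a (T.a (T.a (T.c (T.a (T.l 884) (T.l 884)) (T.c (T.l 816) (T.l 816))) (T.c (T.a (T.l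 884) (T.l 884)) (T.c (T.l 880) (T.l 816)))) (T.a (T.c (T.a (T.l 884) (T.l 884)) (T.c (T.l 884) (T.l 880))) (T.c (T.a (T.l 884) (T.l 884)) (T.c (T.l 884) (T.l 884))))) (T.a (T.a (T.a (T.c (T.l 884) (T.l 884)) (T.c (T.a (T.l 884) (T.l 884)) (T.c (T.l 884) (T.l 884)))) (T.a (T.c (T.c (T.l 1024) (T.l 884)) (T.c (T.l 884) (T.l 884))) (T.c (T.c (T.l 1024) (T.l 884)) (T.c (T.l 884) (T.l 884))))) (T.a (T.a (T.c (T.c (T.l 1024) (T.l 884)) (T.c (T.l 884) (T.l 884))) (T.c (T.c (T.l 1024) (T.l 884)) (T.c (T.l 884) (T.l 884)))) (T.a (T.c (T.c (T.l 1024) (T.l 884)) (T.l 884)) (T.c (T.c (T.l 1024) (T.l 884)) (T.l 884)))))))) (T.b (T.a (T.a (T.l 816) (T.a (T.a (T.c (T.a (T.l 880) (T.l 816)) (T.a (T.l 816) (T.l 816))) (T.c (T.a (T.l 880) (T.l 880)) (T.a (T.l 816) (T.l 816)))) (T.a (T.c (T.a (T.l 880) (T.l 880)) (T.c (T.l 880)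 (T.l 816))) (T.c (T.a (T.l 880) (T.l 880)) (T.c (T.l 816) (T.l 816)))))) (T.a (T.a (T.a (T.c (T.a (T.l 884) (T.l 884)) (T.c (T.l 880) (T.l 816))) (T.c (T.a (T.l 884) (T.l 884)) (T.c (T.l 884) (T.l 816)))) (T.a (T.c (T.a (T.l 884) (T.l 884)) (T.c (T.l 884) (T.l 884))) (T.c (T.a (T.l 884) (T.l 884)) (T.c (T.l 884) (T.l 884))))) (T.a (T.a (T.a (T.c (T.l 884) (T.l 884)) (T.c (T.a (T.l 884) (T.l 884)) (T.a (T.l 884) (T.l 884)))) (T.a (T.c (T.c (T.l 1024) (T.l 884)) (T.c (T.l 884) (T.l 884))) (T.c (T.c (T.l 1024) (T.l 884)) (T.c (T.l 884) (T.l 884))))) (T.a (T.a (T.c (T.c (T.l 1024) (T.l 884)) (T.c (T.l 884) (T.l 884))) (T.c (T.c (T.l 1024) (T.l 884)) (T.c (T.l 884) (T.l 884)))) (T.a (T.c (T.c (T.l 1024) (T.l 884)) (T.c (T.l 884) (T.l 884))) (T.c (T.c (T.l 1024) (T.l 884)) (T.l 884))))))) (T.a (T.a (T.l 880) (T.a (T.a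 (T.c (T.a (T.l 880) (T.l 880)) (T.a (T.l 816) (T.l 816))) (T.c (T.a (T.l 880) (T.l 880)) (T.a (T.l 816) (T.l 816)))) (T.a (T.c (T.a (T.l 880) (T.l 880)) (T.c (T.l 880) (T.l 816))) (T.c (T.a (T.l 880) (T.l 884)) (T.c (T.l 880) (T.l 816)))))) (T.a (T.a (T.a (T.c (T.a (T.l 884) (T.l 884)) (T.c (T.l 880) (T.l 816))) (T.c (T.a (T.l 884) (T.l 884)) (T.c (T.l 884) (T.l 816)))) (T.a (T.c (T.a (T.l 884) (T.c (T.l 884) (T.l 880))) (T.c (T.l 884) (T.l 884))) (T.c (T.c (T.c (T.l 884) (T.l 884)) (T.c (T.l 884) (T.l 884))) (T.c (T.l 884) (T.l 884))))) (T.a (T.a (T.a (T.c (T.l 884) (T.l 884)) (T.c (T.a (T.c (T.l 884) (T.l 884)) (T.l 884)) (T.a (T.l 884) (T.l 884)))) (T.a (T.c (T.a (T.l 884) (T.l 884)) (T.c (T.l 884) (T.l 884))) (T.c (T.a (T.l 884) (T.l 884)) (T.c (T.l 884) (T.l 884))))) (T.a (T.a (T.c (T.c (T.l 1024) (T.l 884))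 (T.c (T.l 884) (T.l 884))) (T.c (T.c (T.l 1024) (T.l 884)) (T.c (T.l 884) (T.l 884)))) (T.a (T.c (T.c (T.l 1024) (T.l 884)) (T.c (T.l 884) (T.l 884))) (T.c (T.c (T.l 1024) (T.l 884)) (T.c (T.l 884) (T.l 884)))))))))), by decide +kernel⟩

def A012E_001_1_125_1 :
    ∃ t, chk3 (onCell 0 67108864 0 1073741824 67108864 67108864 (corTK [[⟨0, 0, 1, 33554432⟩, ⟨1, 1, 0, 8388608⟩, ⟨2, 1, 1, 33554432⟩, ⟨0, 0, 0, 150994944⟩, ⟨0, 1, 0, 1023410176⟩, ⟨2, 1, 0, 150994944⟩, ⟨2, 2, 0, 1023410176⟩]] false 3 c0N cA012E gN0q0 gN0q1 gN1q2 gN2q2 true true)) t 1 125 1 = true :=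
  ⟨(T.b (T.b (T.a (T.a (T.l 880) (T.a (T.a (T.c (T.a (T.l 880) (T.l 880)) (T.a (T.l 816) (T.l 816))) (T.c (T.a (T.l 880) (T.l 880)) (T.a (T.l 816) (T.l 816)))) (T.a (T.c (T.a (T.l 880) (T.l 880)) (T.c (T.l 880) (T.l 816))) (T.c (T.a (T.l 880) (T.l 884)) (T.c (T.l 880) (T.l 816)))))) (T.a (T.a (T.a (T.c (T.a (T.l 884) (T.l 884)) (T.c (T.l 884) (T.l 816))) (T.c (T.a (T.l 884) (T.l 884)) (T.c (T.l 884) (T.l 816)))) (T.a (T.c (T.a (T.l 884) (T.c (T.l 884) (T.l 884))) (T.c (T.l 884) (T.l 884))) (T.c (T.c (T.a (T.l 884) (T.l 884)) (T.c (T.l 884) (T.l 884))) (T.c (T.l 884) (T.l 884))))) (T.a (T.a (T.a (T.c (T.c (T.l 884) (T.l 884)) (T.l 884)) (T.c (T.a (T.c (T.l 884) (T.l 884)) (T.c (T.l 1024) (T.l 884))) (T.a (T.l 884) (T.l 884)))) (T.a (T.c (T.a (T.l 884) (T.l 884)) (T.c (T.l 884) (T.l 884))) (T.c (T.a (T.l 884) (T.l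 884)) (T.c (T.l 884) (T.l 884))))) (T.a (T.a (T.c (T.a (T.l 884) (T.l 884)) (T.c (T.l 884) (T.l 884))) (T.c (T.c (T.l 1024) (T.l 884)) (T.c (T.l 884) (T.l 884)))) (T.a (T.c (T.c (T.l 1024) (T.l 884)) (T.c (T.l 884) (T.l 884))) (T.c (T.c (T.l 1024) (T.l 884)) (T.c (T.l 884) (T.l 884)))))))) (T.a (T.a (T.a (T.l 816) (T.a (T.l 816) (T.a (T.l 816) (T.c (T.c (T.l 816) (T.l 816)) (T.l 816))))) (T.a (T.a (T.c (T.a (T.c (T.l 816) (T.l 816)) (T.l 880)) (T.a (T.l 816) (T.l 816))) (T.c (T.a (T.c (T.l 816) (T.l 816)) (T.l 880)) (T.a (T.l 816) (T.l 816)))) (T.a (T.c (T.a (T.l 880) (T.l 880)) (T.c (T.l 884) (T.l 816))) (T.c (T.a (T.l 884) (T.l 884)) (T.c (T.l 884) (T.l 816)))))) (T.a (T.a (T.a (T.c (T.a (T.l 884) (T.l 884)) (T.c (T.l 884) (T.l 816))) (T.c (T.a (T.l 884) (T.c (T.l 884) (T.l 816))) (T.c (T.l 884) (T.l 816))))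 (T.a (T.c (T.a (T.c (T.l 884) (T.l 880)) (T.c (T.l 884) (T.l 884))) (T.a (T.l 880) (T.l 884))) (T.c (T.c (T.a (T.l 884) (T.l 884)) (T.c (T.l 884) (T.l 884))) (T.a (T.l 884) (T.l 884))))) (T.a (T.a (T.a (T.c (T.a (T.l 884) (T.c (T.l 884) (T.l 884))) (T.a (T.l 884) (T.l 884))) (T.c (T.a (T.c (T.l 884) (T.l 884)) (T.c (T.l 1024) (T.l 884))) (T.a (T.l 884) (T.l 884)))) (T.a (T.c (T.c (T.l 1024) (T.a (T.l 884) (T.l 884))) (T.a (T.l 884) (T.l 884))) (T.c (T.c (T.l 1024) (T.c (T.l 884) (T.l 884))) (T.a (T.l 884) (T.l 884))))) (T.a (T.a (T.c (T.a (T.l 884) (T.l 884)) (T.c (T.l 884) (T.l 884))) (T.c (T.a (T.l 884) (T.l 884)) (T.c (T.l 884) (T.l 884)))) (T.a (T.c (T.a (T.l 884) (T.l 884)) (T.c (T.l 884) (T.l 884))) (T.c (T.c (T.l 1024) (T.l 884)) (T.c (T.l 884) (T.l 884))))))))) (T.b (T.a (T.c (T.a (T.a (T.l 816) (T.a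 (T.l 816) (T.a (T.l 816) (T.c (T.l 816) (T.l 816))))) (T.a (T.a (T.a (T.c (T.l 816) (T.l 816)) (T.l 880)) (T.a (T.c (T.l 816) (T.l 816)) (T.c (T.l 816) (T.l 816)))) (T.a (T.a (T.c (T.l 816) (T.l 816)) (T.l 880)) (T.a (T.l 884) (T.c (T.l 816) (T.l 816)))))) (T.a (T.a (T.l 816) (T.a (T.l 816) (T.a (T.l 816) (T.l 816)))) (T.a (T.a (T.a (T.l 816) (T.l 816)) (T.a (T.l 816) (T.l 816))) (T.a (T.a (T.l 816) (T.l 816)) (T.c (T.l 884) (T.l 816)))))) (T.a (T.a (T.a (T.c (T.a (T.c (T.l 816) (T.l 816)) (T.c (T.l 880) (T.l 816))) (T.c (T.l 884) (T.l 816))) (T.c (T.a (T.c (T.l 884) (T.l 816)) (T.c (T.l 884) (T.l 816))) (T.c (T.l 884) (T.l 880)))) (T.a (T.c (T.a (T.c (T.l 884) (T.l 880)) (T.c (T.l 884) (T.l 884))) (T.a (T.l 884) (T.l 884))) (T.c (T.c (T.a (T.l 884) (T.l 884)) (T.a (T.l 884) (T.l 884))) (T.a (T.l 884) (T.l 884)))))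 (T.a (T.a (T.a (T.c (T.a (T.l 884) (T.c (T.l 884) (T.l 884))) (T.a (T.l 884) (T.l 884))) (T.c (T.c (T.l 1024) (T.a (T.l 884) (T.l 884))) (T.a (T.l 884) (T.l 884)))) (T.a (T.c (T.c (T.l 1024) (T.a (T.l 884) (T.l 884))) (T.a (T.l 884) (T.l 884))) (T.c (T.c (T.l 1024) (T.a (T.l 884) (T.l 884))) (T.a (T.l 884) (T.l 884))))) (T.a (T.a (T.c (T.c (T.l 1024) (T.a (T.l 884) (T.l 884))) (T.a (T.l 884) (T.l 884))) (T.c (T.c (T.l 1024) (T.c (T.l 884) (T.l 884))) (T.a (T.l 884) (T.l 884)))) (T.a (T.c (T.c (T.l 1024) (T.c (T.l 1024) (T.l 884))) (T.c (T.l 884) (T.l 884))) (T.c (T.a (T.l 884) (T.l 884)) (T.c (T.l 884) (T.l 884)))))))) (T.a (T.c (T.a (T.a (T.l 816) (T.a (T.l 816) (T.a (T.l 816) (T.c (T.l 816) (T.l 816))))) (T.a (T.a (T.a (T.c (T.l 816) (T.l 816)) (T.c (T.l 816) (T.l 816))) (T.a (T.c (T.l 816) (T.l 816)) (T.c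 (T.l 816) (T.l 816)))) (T.a (T.a (T.c (T.l 816) (T.l 816)) (T.c (T.l 816) (T.l 816))) (T.a (T.c (T.l 816) (T.l 816)) (T.c (T.l 816) (T.l 816)))))) (T.a (T.a (T.l 816) (T.a (T.l 816) (T.a (T.l 816) (T.l 816)))) (T.a (T.a (T.a (T.l 816) (T.l 816)) (T.a (T.l 816) (T.l 816))) (T.a (T.a (T.l 816) (T.l 816)) (T.c (T.l 884) (T.l 816)))))) (T.a (T.a (T.a (T.c (T.a (T.c (T.l 880) (T.l 816)) (T.c (T.l 880) (T.l 816))) (T.c (T.l 884) (T.l 816))) (T.c (T.a (T.c (T.l 884) (T.l 816)) (T.c (T.l 884) (T.l 816))) (T.c (T.l 884) (T.l 884)))) (T.a (T.c (T.a (T.c (T.l 884) (T.l 880)) (T.c (T.l 884) (T.l 884))) (T.a (T.l 884) (T.l 884))) (T.c (T.a (T.c (T.l 884) (T.l 884)) (T.c (T.l 884) (T.l 884))) (T.a (T.l 884) (T.l 884))))) (T.a (T.a (T.a (T.c (T.a (T.l 884) (T.c (T.l 884) (T.l 884))) (T.a (T.l 884) (T.l 884))) (T.c (T.c (T.l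 1024) (T.a (T.l 884) (T.l 884))) (T.a (T.l 884) (T.l 884)))) (T.a (T.c (T.c (T.l 1024) (T.a (T.l 884) (T.l 884))) (T.a (T.l 884) (T.l 884))) (T.c (T.c (T.l 1024) (T.a (T.l 884) (T.l 884))) (T.a (T.l 884) (T.l 884))))) (T.a (T.a (T.c (T.c (T.l 1024) (T.a (T.l 884) (T.l 884))) (T.a (T.l 884) (T.l 884))) (T.c (T.c (T.l 1024) (T.a (T.l 884) (T.l 884))) (T.a (T.l 884) (T.l 884)))) (T.a (T.c (T.c (T.l 1024) (T.c (T.l 1024) (T.l 884))) (T.a (T.l 884) (T.l 884))) (T.c (T.c (T.l 1024) (T.c (T.l 1024) (T.l 884))) (T.a (T.l 884) (T.l 884)))))))))), by decide +kernel⟩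

def A012E_001_1_252_1 :
    ∃ t, chk3 (onCell 0 67108864 0 1073741824 67108864 67108864 (corTK [[⟨0, 0, 1, 33554432⟩, ⟨1, 1, 0, 8388608⟩, ⟨2, 1, 1, 33554432⟩, ⟨0, 0, 0, 150994944⟩, ⟨0, 1, 0, 1023410176⟩, ⟨2, 1, 0, 150994944⟩, ⟨2, 2, 0, 1023410176⟩]] false 3 c0N cA012E gN0q0 gN0q1 gN1q2 gN2q2 true true)) t 1 252 1 = true :=
  ⟨(T.b (T.a (T.c (T.a (T.a (T.l 816) (T.a (T.l 816) (T.a (T.l 816) (T.c (T.l 816) (T.l 816))))) (T.a (T.a (T.a (T.c (T.l 816) (T.l 816)) (T.c (T.l 816) (T.l 816))) (T.a (T.c (T.l 816) (T.l 816)) (T.c (T.l 816) (T.l 816)))) (T.a (T.a (T.c (T.l 816) (T.l 816)) (T.c (T.l 816) (T.l 816))) (T.a (T.c (T.l 816) (T.l 816)) (T.c (T.l 816) (T.l 816)))))) (T.b (T.a (T.a (T.l 816) (T.a (T.l 816) (T.a (T.l 816) (T.l 816)))) (T.a (T.a (T.a (T.l 816) (T.l 816)) (T.a (T.l 816) (T.l 816))) (T.a (T.a (T.l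 816) (T.l 816)) (T.c (T.l 884) (T.l 816))))) (T.a (T.a (T.l 816) (T.a (T.l 816) (T.a (T.l 816) (T.l 816)))) (T.a (T.a (T.a (T.l 816) (T.l 816)) (T.a (T.l 816) (T.l 816))) (T.a (T.a (T.l 816) (T.l 816)) (T.c (T.l 884) (T.l 816))))))) (T.a (T.a (T.a (T.c (T.a (T.c (T.l 880) (T.l 816)) (T.c (T.l 880) (T.l 816))) (T.c (T.l 884) (T.l 880))) (T.c (T.a (T.c (T.l 884) (T.l 816)) (T.c (T.l 884) (T.l 880))) (T.a (T.l 880) (T.l 884)))) (T.a (T.c (T.a (T.c (T.l 884) (T.l 884)) (T.c (T.l 884) (T.l 884))) (T.a (T.l 884) (T.l 884))) (T.c (T.a (T.c (T.l 884) (T.l 884)) (T.c (T.l 884) (T.l 884))) (T.a (T.l 884) (T.c (T.l 884) (T.l 816)))))) (T.a (T.a (T.a (T.c (T.a (T.c (T.l 884) (T.l 884)) (T.c (T.c (T.l 884) (T.l 884)) (T.l 884))) (T.a (T.l 884) (T.c (T.l 884) (T.l 884)))) (T.c (T.c (T.l 1024) (T.a (T.l 884) (T.l 884))) (T.a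 (T.l 884) (T.l 884)))) (T.a (T.c (T.c (T.l 1024) (T.a (T.l 884) (T.l 884))) (T.a (T.l 884) (T.l 884))) (T.c (T.c (T.l 1024) (T.a (T.l 884) (T.l 884))) (T.a (T.l 884) (T.l 884))))) (T.a (T.a (T.c (T.c (T.l 1024) (T.a (T.l 884) (T.l 884))) (T.a (T.l 884) (T.l 884))) (T.c (T.c (T.l 1024) (T.a (T.l 884) (T.l 884))) (T.a (T.l 884) (T.l 884)))) (T.a (T.c (T.c (T.l 1024) (T.a (T.l 884) (T.l 884))) (T.a (T.l 884) (T.l 884))) (T.c (T.c (T.l 1024) (T.a (T.l 884) (T.l 884))) (T.a (T.l 884) (T.l 884)))))))) (T.a (T.c (T.b (T.a (T.a (T.l 816) (T.a (T.l 816) (T.a (T.l 816) (T.c (T.l 816) (T.l 816))))) (T.a (T.a (T.a (T.c (T.l 816) (T.l 816)) (T.c (T.l 816) (T.l 816))) (T.a (T.c (T.l 816) (T.l 816)) (T.c (T.l 816) (T.l 816)))) (T.a (T.a (T.c (T.l 816) (T.l 816)) (T.c (T.l 816) (T.l 816))) (T.a (T.c (T.l 816) (T.l 816)) (T.c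 (T.l 816) (T.l 816)))))) (T.a (T.a (T.l 816) (T.a (T.l 816) (T.a (T.l 816) (T.c (T.l 816) (T.l 816))))) (T.a (T.a (T.a (T.c (T.l 816) (T.l 816)) (T.c (T.l 816) (T.l 816))) (T.a (T.c (T.l 816) (T.l 816)) (T.c (T.l 816) (T.l 816)))) (T.a (T.a (T.c (T.l 816) (T.l 816)) (T.c (T.l 816) (T.l 816))) (T.a (T.c (T.l 816) (T.l 816)) (T.c (T.l 816) (T.l 816))))))) (T.b (T.a (T.a (T.l 816) (T.a (T.l 816) (T.a (T.l 816) (T.l 816)))) (T.a (T.a (T.a (T.l 816) (T.l 816)) (T.a (T.l 816) (T.l 816))) (T.a (T.a (T.l 816) (T.l 816)) (T.c (T.l 884) (T.l 816))))) (T.a (T.a (T.l 816) (T.a (T.l 816) (T.a (T.l 816) (T.l 816)))) (T.a (T.a (T.a (T.l 816) (T.l 816)) (T.a (T.l 816) (T.l 816))) (T.a (T.a (T.l 816) (T.l 816)) (T.a (T.l 816) (T.l 816))))))) (T.a (T.a (T.a (T.c (T.a (T.c (T.l 880) (T.l 816)) (T.c (T.l 884) (T.l 816))) (T.a (T.l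 816) (T.l 816))) (T.c (T.a (T.c (T.l 884) (T.l 816)) (T.c (T.l 884) (T.l 880))) (T.a (T.l 880) (T.l 884)))) (T.a (T.c (T.a (T.c (T.l 884) (T.l 884)) (T.c (T.l 884) (T.l 884))) (T.a (T.l 884) (T.c (T.l 880) (T.l 816)))) (T.c (T.a (T.c (T.l 884) (T.l 884)) (T.c (T.l 884) (T.l 884))) (T.a (T.c (T.l 884) (T.l 816)) (T.c (T.l 884) (T.l 880)))))) (T.a (T.a (T.a (T.c (T.a (T.c (T.l 884) (T.l 884)) (T.c (T.c (T.l 884) (T.l 884)) (T.l 884))) (T.a (T.l 884) (T.c (T.l 884) (T.l 884)))) (T.c (T.c (T.l 1024) (T.a (T.l 884) (T.l 884))) (T.a (T.c (T.l 884) (T.l 884)) (T.c (T.l 884) (T.l 884))))) (T.a (T.c (T.c (T.l 1024) (T.a (T.l 884) (T.l 884))) (T.a (T.c (T.l 884) (T.l 884)) (T.c (T.l 884) (T.l 884)))) (T.c (T.c (T.l 1024) (T.a (T.l 884) (T.l 884))) (T.a (T.c (T.l 884) (T.l 884)) (T.c (T.l 884) (T.l 884)))))) (T.a (T.a (T.c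 (T.c (T.l 1024) (T.a (T.l 884) (T.l 884))) (T.a (T.c (T.l 884) (T.l 884)) (T.c (T.l 884) (T.l 884)))) (T.c (T.c (T.l 1024) (T.a (T.l 884) (T.l 884))) (T.c (T.a (T.l 884) (T.l 884)) (T.c (T.l 884) (T.l 884))))) (T.a (T.c (T.c (T.l 1024) (T.a (T.l 884) (T.l 884))) (T.c (T.a (T.l 884) (T.l 884)) (T.c (T.l 884) (T.l 884)))) (T.c (T.c (T.l 1024) (T.a (T.l 884) (T.l 884))) (T.c (T.a (T.l 884) (T.l 884)) (T.c (T.l 884) (T.l 884)))))))))), by decide +kernel⟩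

def A012E_001_1_253_1 :
    ∃ t, chk3 (onCell 0 67108864 0 1073741824 67108864 67108864 (corTK [[⟨0, 0, 1, 33554432⟩, ⟨1, 1, 0, 8388608⟩, ⟨2, 1, 1, 33554432⟩, ⟨0, 0, 0, 150994944⟩, ⟨0, 1, 0, 1023410176⟩, ⟨2, 1, 0, 150994944⟩, ⟨2, 2, 0, 1023410176⟩]] false 3 c0N cA012E gN0q0 gN0q1 gN1q2 gN2q2 true true)) t 1 253 1 = true :=
  ⟨(T.b (T.a (T.c (T.b (T.a (T.a (T.l 816) (T.a (T.l 816) (T.a (T.l 816) (T.c (T.l 816) (T.l 816))))) (T.a (T.a (T.a (T.c (T.l 816) (T.l 816)) (T.c (T.l 816) (T.l 816))) (T.a (T.c (T.l 816) (T.l 816)) (T.c (T.l 816) (T.l 816)))) (T.a (T.a (T.c (T.l 816) (T.l 816)) (T.c (T.l 816) (T.l 816))) (T.a (T.c (T.l 816) (T.l 816)) (T.c (T.l 880) (T.l 816)))))) (T.a (T.a (T.l 816) (T.a (T.l 816) (T.a (T.l 816) (T.c (T.l 816) (T.l 816))))) (T.a (T.a (T.a (T.c (T.l 816) (T.l 816)) (T.c (T.l 816) (T.l 816)))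 (T.a (T.c (T.l 816) (T.l 816)) (T.c (T.l 816) (T.l 816)))) (T.a (T.a (T.c (T.l 816) (T.l 816)) (T.c (T.l 816) (T.l 816))) (T.a (T.c (T.l 816) (T.l 816)) (T.c (T.l 880) (T.l 816))))))) (T.b (T.a (T.a (T.l 816) (T.a (T.l 816) (T.a (T.l 816) (T.l 816)))) (T.a (T.a (T.a (T.l 816) (T.l 816)) (T.a (T.l 816) (T.l 816))) (T.a (T.a (T.l 816) (T.l 816)) (T.a (T.l 816) (T.l 816))))) (T.a (T.a (T.l 816) (T.a (T.l 816) (T.a (T.l 816) (T.l 816)))) (T.a (T.a (T.a (T.l 816) (T.l 816)) (T.a (T.l 816) (T.l 816))) (T.a (T.a (T.l 816) (T.l 816)) (T.a (T.l 816) (T.l 816))))))) (T.a (T.a (T.a (T.c (T.a (T.c (T.l 880) (T.l 816)) (T.c (T.l 884) (T.l 816))) (T.a (T.l 816) (T.l 880))) (T.c (T.a (T.c (T.l 884) (T.l 880)) (T.c (T.l 884) (T.l 884))) (T.a (T.l 884) (T.l 884)))) (T.a (T.c (T.a (T.c (T.l 884) (T.l 884)) (T.c (T.c (T.l 884)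 (T.l 884)) (T.l 884))) (T.a (T.l 884) (T.c (T.l 884) (T.l 816)))) (T.c (T.a (T.c (T.c (T.l 884) (T.l 884)) (T.l 884)) (T.c (T.c (T.l 884) (T.l 884)) (T.l 884))) (T.a (T.c (T.l 884) (T.l 816)) (T.c (T.l 884) (T.l 884)))))) (T.a (T.a (T.a (T.c (T.a (T.c (T.a (T.l 884) (T.l 884)) (T.c (T.l 884) (T.l 884))) (T.c (T.a (T.l 884) (T.l 1024)) (T.c (T.l 884) (T.l 884)))) (T.a (T.c (T.l 884) (T.l 884)) (T.c (T.l 884) (T.l 884)))) (T.c (T.c (T.l 1024) (T.a (T.l 884) (T.l 884))) (T.a (T.c (T.l 884) (T.l 884)) (T.c (T.l 884) (T.l 884))))) (T.a (T.c (T.c (T.l 1024) (T.a (T.l 884) (T.l 884))) (T.a (T.c (T.l 884) (T.l 884)) (T.c (T.l 884) (T.l 884)))) (T.c (T.c (T.l 1024) (T.a (T.l 884) (T.l 884))) (T.a (T.c (T.l 884) (T.l 884)) (T.c (T.l 884) (T.l 884)))))) (T.a (T.a (T.c (T.c (T.l 1024) (T.a (T.l 884) (T.l 884))) (T.a (T.c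 (T.l 884) (T.l 884)) (T.c (T.l 884) (T.l 884)))) (T.c (T.c (T.l 1024) (T.a (T.l 884) (T.l 884))) (T.c (T.a (T.l 884) (T.l 884)) (T.c (T.l 884) (T.l 884))))) (T.a (T.c (T.c (T.l 1024) (T.a (T.l 884) (T.l 884))) (T.c (T.a (T.l 884) (T.l 884)) (T.c (T.l 884) (T.l 884)))) (T.c (T.c (T.l 1024) (T.a (T.l 884) (T.l 884))) (T.c (T.a (T.l 884) (T.l 884)) (T.c (T.l 884) (T.l 884))))))))) (T.a (T.c (T.b (T.a (T.a (T.l 816) (T.a (T.l 816) (T.a (T.l 816) (T.c (T.l 816) (T.l 816))))) (T.a (T.a (T.a (T.c (T.l 816) (T.l 816)) (T.c (T.l 816) (T.l 816))) (T.a (T.c (T.l 816) (T.l 816)) (T.c (T.l 816) (T.l 816)))) (T.a (T.a (T.c (T.l 816) (T.l 816)) (T.c (T.l 816) (T.l 816))) (T.a (T.c (T.l 816) (T.l 816)) (T.c (T.l 880) (T.l 816)))))) (T.a (T.a (T.l 816) (T.a (T.l 816) (T.a (T.l 816) (T.c (T.l 816) (T.l 816))))) (T.a (T.a (T.a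 (T.c (T.l 816) (T.l 816)) (T.c (T.l 816) (T.l 816))) (T.a (T.c (T.l 816) (T.l 816)) (T.c (T.l 816) (T.l 816)))) (T.a (T.a (T.c (T.l 816) (T.l 816)) (T.c (T.l 816) (T.l 816))) (T.a (T.c (T.l 816) (T.l 816)) (T.c (T.l 880) (T.l 816))))))) (T.b (T.a (T.a (T.l 816) (T.a (T.l 816) (T.a (T.l 816) (T.l 816)))) (T.a (T.a (T.a (T.l 816) (T.l 816)) (T.a (T.l 816) (T.l 816))) (T.a (T.a (T.l 816) (T.l 816)) (T.a (T.l 816) (T.l 816))))) (T.a (T.a (T.l 816) (T.a (T.l 816) (T.a (T.l 816) (T.l 816)))) (T.a (T.a (T.a (T.l 816) (T.l 816)) (T.a (T.l 816) (T.l 816))) (T.a (T.a (T.l 816) (T.l 816)) (T.a (T.l 816) (T.l 816))))))) (T.c (T.a (T.a (T.a (T.a (T.c (T.l 880) (T.l 816)) (T.c (T.l 884) (T.l 816))) (T.a (T.c (T.l 884) (T.l 880)) (T.c (T.l 884) (T.l 884)))) (T.a (T.a (T.c (T.l 884) (T.l 884)) (T.c (T.c (T.l 884) (T.l 884))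 (T.l 884))) (T.a (T.c (T.c (T.l 884) (T.l 884)) (T.l 884)) (T.c (T.c (T.l 884) (T.l 884)) (T.c (T.l 884) (T.l 884)))))) (T.a (T.a (T.a (T.a (T.c (T.a (T.l 884) (T.l 884)) (T.c (T.l 884) (T.l 884))) (T.c (T.l 1024) (T.c (T.l 884) (T.l 884)))) (T.c (T.l 1024) (T.a (T.c (T.l 884) (T.l 884)) (T.c (T.l 884) (T.l 884))))) (T.c (T.l 1024) (T.a (T.a (T.c (T.l 884) (T.l 884)) (T.c (T.l 884) (T.l 884))) (T.a (T.c (T.l 884) (T.l 884)) (T.c (T.l 884) (T.l 884)))))) (T.c (T.l 1024) (T.a (T.a (T.a (T.c (T.l 884) (T.l 884)) (T.c (T.l 884) (T.l 884))) (T.c (T.l 1024) (T.a (T.l 884) (T.l 884)))) (T.c (T.l 1024) (T.a (T.a (T.l 884) (T.l 884)) (T.a (T.l 884) (T.l 884)))))))) (T.a (T.a (T.a (T.a (T.l 816) (T.l 880)) (T.a (T.l 884) (T.l 884))) (T.a (T.a (T.l 884) (T.c (T.l 884) (T.l 816))) (T.a (T.c (T.l 884) (T.l 880)) (T.c (T.l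 884) (T.l 884))))) (T.a (T.a (T.a (T.a (T.c (T.l 884) (T.l 884)) (T.c (T.l 884) (T.l 884))) (T.a (T.c (T.l 884) (T.l 884)) (T.c (T.l 884) (T.l 884)))) (T.a (T.a (T.c (T.l 884) (T.l 884)) (T.c (T.l 884) (T.l 884))) (T.a (T.c (T.l 884) (T.l 884)) (T.c (T.l 884) (T.l 884))))) (T.a (T.a (T.a (T.c (T.l 884) (T.l 884)) (T.c (T.l 884) (T.l 884))) (T.c (T.a (T.l 884) (T.l 884)) (T.a (T.l 884) (T.l 884)))) (T.a (T.c (T.a (T.l 884) (T.l 884)) (T.a (T.l 884) (T.l 884))) (T.c (T.a (T.l 884) (T.l 884)) (T.a (T.l 884) (T.l 884)))))))))), by decide +kernel⟩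

def A012E_001_1_508_1 :
    ∃ t, chk3 (onCell 0 67108864 0 1073741824 67108864 67108864 (corTK [[⟨0, 0, 1, 33554432⟩, ⟨1, 1, 0, 8388608⟩, ⟨2, 1, 1, 33554432⟩, ⟨0, 0, 0, 150994944⟩, ⟨0, 1, 0, 1023410176⟩, ⟨2, 1, 0, 150994944⟩, ⟨2, 2, 0, 1023410176⟩]] false 3 c0N cA012E gN0q0 gN0q1 gN1q2 gN2q2 true true)) t 1 508 1 = true :=
  ⟨(T.a (T.c (T.b (T.a (T.a (T.l 816) (T.a (T.l 816) (T.a (T.l 816) (T.c (T.l 816) (T.l 816))))) (T.a (T.a (T.a (T.c (T.l 816) (T.l 816)) (T.c (T.l 816) (T.l 816))) (T.a (T.c (T.l 816) (T.l 816)) (T.c (T.l 816) (T.l 816)))) (T.a (T.a (T.c (T.l 816) (T.l 816)) (T.c (T.l 816) (T.l 816))) (T.a (T.c (T.l 880) (T.l 816)) (T.c (T.l 880) (T.l 816)))))) (T.a (T.a (T.l 816) (T.a (T.l 816) (T.a (T.l 816) (T.c (T.l 816) (T.l 816))))) (T.a (T.a (T.a (T.c (T.l 816) (T.l 816)) (T.c (T.l 816) (T.l 816)))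 (T.a (T.c (T.l 816) (T.l 816)) (T.c (T.l 816) (T.l 816)))) (T.a (T.a (T.c (T.l 816) (T.l 816)) (T.c (T.l 816) (T.l 816))) (T.a (T.c (T.l 880) (T.l 816)) (T.c (T.l 880) (T.l 816))))))) (T.b (T.a (T.a (T.l 816) (T.a (T.l 816) (T.a (T.l 816) (T.l 816)))) (T.a (T.a (T.a (T.l 816) (T.l 816)) (T.a (T.l 816) (T.l 816))) (T.a (T.a (T.l 816) (T.l 816)) (T.a (T.l 816) (T.l 816))))) (T.a (T.a (T.l 816) (T.a (T.l 816) (T.a (T.l 816) (T.l 816)))) (T.a (T.a (T.a (T.l 816) (T.l 816)) (T.a (T.l 816) (T.l 816))) (T.a (T.a (T.l 816) (T.l 816)) (T.a (T.l 816) (T.l 816))))))) (T.c (T.a (T.a (T.a (T.a (T.c (T.l 884) (T.l 816)) (T.c (T.l 884) (T.l 816))) (T.a (T.c (T.l 884) (T.l 880)) (T.c (T.c (T.l 884) (T.l 884)) (T.l 884)))) (T.a (T.a (T.c (T.c (T.l 884) (T.l 884)) (T.l 884)) (T.c (T.c (T.l 884) (T.l 884)) (T.l 884))) (T.a (T.c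 (T.a (T.l 884) (T.l 884)) (T.c (T.l 884) (T.l 884))) (T.c (T.a (T.l 884) (T.l 884)) (T.c (T.l 884) (T.l 884)))))) (T.a (T.a (T.a (T.a (T.c (T.a (T.l 884) (T.c (T.l 884) (T.l 884))) (T.a (T.l 884) (T.l 884))) (T.c (T.l 1024) (T.a (T.l 884) (T.l 884)))) (T.c (T.l 1024) (T.a (T.a (T.l 884) (T.l 884)) (T.a (T.l 884) (T.l 884))))) (T.c (T.l 1024) (T.a (T.a (T.a (T.l 884) (T.l 884)) (T.c (T.l 884) (T.l 884))) (T.a (T.c (T.l 884) (T.l 884)) (T.c (T.l 884) (T.l 884)))))) (T.c (T.l 1024) (T.a (T.a (T.a (T.c (T.l 884) (T.l 884)) (T.c (T.l 1024) (T.l 884))) (T.c (T.l 1024) (T.a (T.l 884) (T.l 884)))) (T.c (T.l 1024) (T.a (T.a (T.l 884) (T.l 884)) (T.a (T.l 884) (T.l 884)))))))) (T.a (T.a (T.a (T.a (T.l 816) (T.l 880)) (T.a (T.l 884) (T.l 884))) (T.a (T.a (T.c (T.l 880) (T.l 816)) (T.c (T.l 884) (T.l 816))) (T.a (T.c (T.l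 884) (T.l 880)) (T.c (T.l 884) (T.l 884))))) (T.a (T.a (T.a (T.a (T.c (T.c (T.l 884) (T.l 884)) (T.l 884)) (T.c (T.l 884) (T.l 884))) (T.a (T.c (T.l 884) (T.l 884)) (T.c (T.l 884) (T.l 884)))) (T.a (T.a (T.c (T.l 884) (T.l 884)) (T.c (T.l 884) (T.l 884))) (T.a (T.c (T.l 884) (T.l 884)) (T.c (T.l 884) (T.l 884))))) (T.a (T.a (T.a (T.c (T.l 884) (T.l 884)) (T.c (T.l 884) (T.l 884))) (T.c (T.a (T.l 884) (T.l 884)) (T.a (T.l 884) (T.l 884)))) (T.a (T.c (T.a (T.l 884) (T.l 884)) (T.a (T.l 884) (T.l 884))) (T.c (T.a (T.l 884) (T.l 884)) (T.a (T.l 884) (T.l 884))))))))), by decide +kernel⟩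

def A012E_001_1_509_1 :
    ∃ t, chk3 (onCell 0 67108864 0 1073741824 67108864 67108864 (corTK [[⟨0, 0, 1, 33554432⟩, ⟨1, 1, 0, 8388608⟩, ⟨2, 1, 1, 33554432⟩, ⟨0, 0, 0, 150994944⟩, ⟨0, 1, 0, 1023410176⟩, ⟨2, 1, 0, 150994944⟩, ⟨2, 2, 0, 1023410176⟩]] false 3 c0N cA012E gN0q0 gN0q1 gN1q2 gN2q2 true true)) t 1 509 1 = true :=
  ⟨(T.a (T.c (T.b (T.a (T.a (T.l 816) (T.a (T.l 816) (T.a (T.l 816) (T.c (T.l 816) (T.l 816))))) (T.a (T.a (T.a (T.c (T.l 816) (T.l 816)) (T.c (T.l 816) (T.l 816))) (T.a (T.c (T.l 816) (T.l 816)) (T.c (T.l 816) (T.l 816)))) (T.a (T.a (T.c (T.l 816) (T.l 816)) (T.c (T.l 816) (T.l 816))) (T.a (T.c (T.l 880) (T.l 816)) (T.c (T.l 880) (T.l 816)))))) (T.a (T.a (T.l 816) (T.a (T.l 816) (T.a (T.l 816) (T.c (T.l 816) (T.l 816))))) (T.a (T.a (T.a (T.c (T.l 816) (T.l 816)) (T.c (T.l 816) (T.l 816)))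 (T.a (T.c (T.l 816) (T.l 816)) (T.c (T.l 816) (T.l 816)))) (T.a (T.a (T.c (T.l 816) (T.l 816)) (T.c (T.l 816) (T.l 816))) (T.a (T.c (T.l 880) (T.l 816)) (T.c (T.l 880) (T.l 816))))))) (T.b (T.a (T.a (T.l 816) (T.a (T.l 816) (T.a (T.l 816) (T.l 816)))) (T.a (T.a (T.a (T.l 816) (T.l 816)) (T.a (T.l 816) (T.l 816))) (T.a (T.a (T.l 816) (T.l 816)) (T.a (T.l 816) (T.l 816))))) (T.a (T.a (T.l 816) (T.a (T.l 816) (T.a (T.l 816) (T.l 816)))) (T.a (T.a (T.a (T.l 816) (T.l 816)) (T.a (T.l 816) (T.l 816))) (T.a (T.a (T.l 816) (T.l 816)) (T.a (T.l 816) (T.l 816))))))) (T.c (T.b (T.a (T.a (T.a (T.a (T.c (T.l 880) (T.l 816)) (T.c (T.l 884) (T.l 816))) (T.a (T.c (T.l 884) (T.l 880)) (T.c (T.c (T.l 884) (T.l 884)) (T.l 884)))) (T.a (T.a (T.c (T.c (T.l 884) (T.l 884)) (T.l 884)) (T.c (T.c (T.l 884) (T.l 884)) (T.l 884))) (T.a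 (T.c (T.a (T.l 884) (T.l 884)) (T.c (T.l 884) (T.l 884))) (T.c (T.a (T.l 884) (T.l 884)) (T.c (T.l 884) (T.l 884)))))) (T.a (T.a (T.a (T.a (T.c (T.a (T.c (T.l 884) (T.l 884)) (T.c (T.l 884) (T.l 884))) (T.a (T.l 884) (T.l 884))) (T.c (T.l 1024) (T.c (T.l 884) (T.l 884)))) (T.c (T.l 1024) (T.a (T.c (T.l 884) (T.l 884)) (T.c (T.l 884) (T.l 884))))) (T.c (T.l 1024) (T.a (T.a (T.c (T.l 884) (T.l 884)) (T.c (T.l 884) (T.l 884))) (T.a (T.c (T.l 884) (T.l 884)) (T.c (T.l 884) (T.l 884)))))) (T.c (T.l 1024) (T.a (T.a (T.a (T.c (T.l 884) (T.l 884)) (T.c (T.l 1024) (T.l 884))) (T.c (T.l 1024) (T.a (T.l 884) (T.l 884)))) (T.c (T.l 1024) (T.a (T.a (T.l 884) (T.l 884)) (T.a (T.l 884) (T.l 884)))))))) (T.a (T.a (T.a (T.a (T.c (T.l 884) (T.l 816)) (T.c (T.l 884) (T.l 816))) (T.a (T.c (T.c (T.l 884) (T.l 880)) (T.l 880)) (T.c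 (T.c (T.l 884) (T.l 884)) (T.l 884)))) (T.a (T.a (T.c (T.c (T.l 884) (T.l 884)) (T.l 884)) (T.c (T.a (T.l 884) (T.l 884)) (T.c (T.l 884) (T.l 884)))) (T.a (T.c (T.c (T.c (T.l 884) (T.l 884)) (T.l 884)) (T.c (T.l 884) (T.l 884))) (T.c (T.c (T.a (T.l 884) (T.l 884)) (T.c (T.l 884) (T.l 884))) (T.c (T.l 884) (T.l 884)))))) (T.a (T.a (T.a (T.a (T.c (T.a (T.c (T.l 884) (T.l 884)) (T.l 1024)) (T.a (T.l 884) (T.l 884))) (T.c (T.l 1024) (T.a (T.l 884) (T.l 884)))) (T.c (T.l 1024) (T.a (T.a (T.l 884) (T.l 884)) (T.a (T.l 884) (T.l 884))))) (T.c (T.l 1024) (T.a (T.a (T.a (T.l 884) (T.l 884)) (T.a (T.l 884) (T.l 884))) (T.a (T.a (T.l 884) (T.l 884)) (T.a (T.l 884) (T.l 884)))))) (T.c (T.l 1024) (T.a (T.a (T.a (T.a (T.l 884) (T.l 884)) (T.c (T.l 1024) (T.l 884))) (T.c (T.l 1024) (T.a (T.l 884) (T.l 884)))) (T.c (T.l 1024)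 (T.a (T.a (T.l 884) (T.l 884)) (T.a (T.l 884) (T.l 884))))))))) (T.b (T.a (T.a (T.a (T.a (T.l 816) (T.l 880)) (T.a (T.l 884) (T.l 884))) (T.a (T.a (T.c (T.l 816) (T.l 816)) (T.c (T.l 884) (T.l 816))) (T.a (T.c (T.l 884) (T.l 880)) (T.c (T.l 884) (T.l 884))))) (T.a (T.a (T.a (T.a (T.c (T.l 884) (T.l 884)) (T.c (T.l 884) (T.l 884))) (T.a (T.c (T.l 884) (T.l 884)) (T.c (T.l 884) (T.l 884)))) (T.a (T.a (T.c (T.l 884) (T.l 884)) (T.c (T.l 884) (T.l 884))) (T.a (T.c (T.l 884) (T.l 884)) (T.c (T.l 884) (T.l 884))))) (T.a (T.a (T.c (T.a (T.l 884) (T.l 884)) (T.a (T.l 884) (T.l 884))) (T.c (T.a (T.l 884) (T.l 884)) (T.a (T.l 884) (T.l 884)))) (T.a (T.c (T.a (T.l 884) (T.l 884)) (T.a (T.l 884) (T.l 884))) (T.c (T.a (T.l 884) (T.l 884)) (T.a (T.l 884) (T.l 884))))))) (T.a (T.a (T.a (T.a (T.l 816) (T.l 880)) (T.a (T.l 884)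 (T.l 884))) (T.a (T.a (T.c (T.l 880) (T.l 816)) (T.c (T.l 884) (T.l 816))) (T.a (T.c (T.l 884) (T.l 880)) (T.c (T.l 884) (T.l 884))))) (T.a (T.a (T.a (T.a (T.c (T.c (T.l 884) (T.l 884)) (T.l 884)) (T.c (T.l 884) (T.l 884))) (T.a (T.c (T.l 884) (T.l 884)) (T.c (T.l 884) (T.l 884)))) (T.a (T.a (T.c (T.l 884) (T.l 884)) (T.c (T.l 884) (T.l 884))) (T.a (T.c (T.l 884) (T.l 884)) (T.c (T.l 884) (T.l 884))))) (T.a (T.a (T.c (T.a (T.l 884) (T.l 884)) (T.a (T.l 884) (T.l 884))) (T.c (T.a (T.l 884) (T.l 884)) (T.a (T.l 884) (T.l 884)))) (T.a (T.c (T.a (T.l 884) (T.l 884)) (T.a (T.l 884) (T.l 884))) (T.c (T.a (T.l 884) (T.l 884)) (T.a (T.l 884) (T.l 884)))))))))), by decide +kernel⟩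

end Pool.Agent.Strip051.G.I1_16_1_8.Tab.CN
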