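import Pool.Agent.Strip051.G.I1_16_1_8.Gn
import Pool.Agent.Strip051.PB.Corns
import Pool.Agent.Strip051.PB.CornK

/-! # Certificates of the aligned corners (generated) -/

set_option linter.all false

namespace Pool.Agent.Strip051.G.I1_16_1_8.Tab.CN

open Pool.Agent.Strip051.PB

def A202R_003_1_4_1 :
    ∃ t, chk3 (onCell 0 67108864 0 1073741824 67108864 67108864 (corTK [] false 3 c0N cA202R gN0q2 gN0q0 gN3q2 gN4q2 false true)) t 1 4 1 = true :=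
  ⟨(T.l 2), by decide +kernel⟩

def A202R_003_1_20_1 :
    ∃ t, chk3 (onCell 0 67108864 0 1073741824 67108864 67108864 (corTK [] false 3 c0N cA202R gN0q2 gN0q0 gN3q2 gN4q2 false true)) t 1 20 1 = true :=
  ⟨(T.l 2), by decide +kernel⟩

def A202R_003_1_84_1 :
    ∃ t, chk3 (onCell 0 67108864 0 1073741824 67108864 67108864 (corTK [] false 3 c0N cA202R gN0q2 gN0q0 gN3q2 gN4q2 false true)) t 1 84 1 = true :=
  ⟨(T.a (T.l 2) (T.b (T.l 2) (T.b (T.l 2) (T.c (T.b (T.l 2) (T.a (T.a (T.l 2) (T.a (T.l 2) (T.a (T.l 2) (T.a (T.l 2) (T.c (T.b (T.l 2) (T.c (T.b (T.l 2) (T.l 748)) (T.b (T.l 2) (T.l 204)))) (T.b (T.l 2) (T.c (T.b (T.l 2) (T.l 204)) (T.b (T.l 2) (T.l 204))))))))) (T.a (T.c (T.b (T.a (T.l 2) (T.a (T.l 2) (T.a (T.l 2) (T.a (T.l 2) (T.a (T.l 2) (T.c (T.b (T.l 2) (T.l 748)) (T.b (T.l 2) (T.l 204)))))))) (T.a (T.c (T.b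 (T.a (T.l 2) (T.c (T.b (T.l 2) (T.l 204)) (T.b (T.l 2) (T.l 204)))) (T.a (T.l 204) (T.l 204))) (T.b (T.a (T.l 2) (T.a (T.l 2) (T.l 748))) (T.a (T.l 204) (T.l 204)))) (T.a (T.c (T.a (T.l 204) (T.l 204)) (T.l 204)) (T.l 204)))) (T.b (T.a (T.l 2) (T.a (T.l 2) (T.a (T.l 2) (T.a (T.l 2) (T.c (T.b (T.l 2) (T.l 204)) (T.b (T.l 2) (T.l 204))))))) (T.a (T.c (T.b (T.a (T.l 2) (T.a (T.l 2) (T.l 204))) (T.a (T.l 204) (T.l 204))) (T.b (T.a (T.l 2) (T.a (T.l 2) (T.l 204))) (T.a (T.l 204) (T.l 204)))) (T.a (T.l 204) (T.l 204))))) (T.a (T.c (T.b (T.c (T.b (T.l 2) (T.a (T.a (T.l 748) (T.l 204)) (T.l 204))) (T.b (T.l 2) (T.a (T.l 748) (T.l 204)))) (T.l 204)) (T.b (T.c (T.b (T.l 2) (T.a (T.l 204) (T.l 204))) (T.b (T.l 2) (T.a (T.l 204) (T.l 204)))) (T.l 204))) (T.c (T.a (T.b (T.c (T.a (T.b (T.c (T.b (T.l 2) (T.l 204)) (T.l 748))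 (T.l 204)) (T.l 204)) (T.a (T.b (T.l 748) (T.l 204)) (T.l 204))) (T.l 204)) (T.l 204)) (T.a (T.c (T.a (T.l 204) (T.l 204)) (T.l 204)) (T.l 204))))))) (T.b (T.l 2) (T.a (T.a (T.l 2) (T.a (T.l 2) (T.a (T.l 2) (T.a (T.l 2) (T.c (T.b (T.l 2) (T.c (T.b (T.l 2) (T.l 204)) (T.b (T.l 2) (T.l 204)))) (T.b (T.l 2) (T.c (T.b (T.l 2) (T.l 204)) (T.b (T.l 2) (T.l 204))))))))) (T.a (T.c (T.b (T.a (T.l 2) (T.a (T.l 2) (T.a (T.l 2) (T.c (T.b (T.l 2) (T.l 204)) (T.b (T.l 2) (T.l 204)))))) (T.a (T.c (T.b (T.a (T.l 2) (T.l 748)) (T.l 204)) (T.b (T.a (T.l 2) (T.l 204)) (T.l 204))) (T.a (T.l 204) (T.l 204)))) (T.b (T.a (T.l 2) (T.a (T.l 2) (T.c (T.b (T.l 2) (T.l 204)) (T.b (T.l 2) (T.l 204))))) (T.a (T.c (T.b (T.a (T.l 2) (T.l 204)) (T.l 204)) (T.a (T.b (T.l 2) (T.l 204)) (T.l 204))) (T.c (T.l 204) (T.l 204))))) (T.a (T.c (T.b (T.c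 (T.b (T.l 2) (T.a (T.l 204) (T.l 204))) (T.b (T.l 2) (T.l 204))) (T.l 204)) (T.b (T.c (T.b (T.l 2) (T.l 204)) (T.b (T.l 2) (T.l 204))) (T.l 204))) (T.a (T.c (T.l 204) (T.l 204)) (T.l 204)))))))))), by decide +kernel⟩

def A202R_003_1_85_1 :
    ∃ t, chk3 (onCell 0 67108864 0 1073741824 67108864 67108864 (corTK [] false 3 c0N cA202R gN0q2 gN0q0 gN3q2 gN4q2 false true)) t 1 85 1 = true :=
  ⟨(T.b (T.a (T.b (T.a (T.a (T.l 2) (T.c (T.b (T.l 2) (T.c (T.b (T.l 2) (T.c (T.b (T.l 2) (T.a (T.a (T.l 2) (T.a (T.l 2) (T.l 204))) (T.l 204))) (T.b (T.l 2) (T.a (T.a (T.l 2) (T.a (T.l 2) (T.l 204))) (T.l 204))))) (T.b (T.l 2) (T.c (T.b (T.l 2) (T.a (T.a (T.l 2) (T.l 204)) (T.l 204))) (T.b (T.l 2) (T.a (T.a (T.l 2) (T.l 204)) (T.l 204))))))) (T.b (T.l 2) (T.c (T.b (T.l 2) (T.c (T.b (T.l 2) (T.a (T.a (T.l 2) (T.l 204)) (T.l 204)))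 (T.b (T.l 2) (T.a (T.a (T.l 2) (T.l 204)) (T.l 204))))) (T.b (T.l 2) (T.c (T.b (T.l 2) (T.a (T.a (T.l 2) (T.l 204)) (T.l 204))) (T.b (T.l 2) (T.l 204)))))))) (T.c (T.b (T.a (T.l 2) (T.a (T.l 2) (T.c (T.b (T.l 2) (T.c (T.b (T.l 2) (T.a (T.a (T.l 2) (T.l 748)) (T.c (T.l 204) (T.l 204)))) (T.b (T.l 2) (T.a (T.a (T.l 2) (T.l 204)) (T.l 204))))) (T.b (T.l 2) (T.c (T.b (T.l 2) (T.a (T.l 748) (T.l 204))) (T.b (T.l 2) (T.a (T.l 204) (T.l 204)))))))) (T.a (T.c (T.b (T.a (T.l 2) (T.c (T.b (T.l 2) (T.a (T.l 204) (T.l 204))) (T.b (T.l 2) (T.l 204)))) (T.l 204)) (T.b (T.a (T.l 2) (T.c (T.b (T.l 2) (T.l 204)) (T.b (T.l 2) (T.l 204)))) (T.l 204))) (T.a (T.a (T.c (T.a (T.b (T.c (T.b (T.l 2) (T.l 204)) (T.b (T.l 2) (T.l 204))) (T.l 204)) (T.l 204)) (T.l 204)) (T.l 204)) (T.a (T.l 204) (T.l 204))))) (T.b (T.a (T.l 2) (T.a (T.l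 2) (T.c (T.b (T.l 2) (T.c (T.b (T.l 2) (T.a (T.l 204) (T.l 204))) (T.b (T.l 2) (T.a (T.l 204) (T.l 204))))) (T.b (T.l 2) (T.c (T.b (T.l 2) (T.a (T.l 204) (T.l 204))) (T.b (T.l 2) (T.a (T.l 204) (T.l 204)))))))) (T.a (T.c (T.b (T.a (T.l 2) (T.c (T.b (T.l 2) (T.l 204)) (T.b (T.l 2) (T.l 204)))) (T.l 204)) (T.b (T.a (T.l 2) (T.c (T.b (T.l 2) (T.l 204)) (T.b (T.l 2) (T.l 204)))) (T.l 204))) (T.a (T.l 204) (T.a (T.l 204) (T.l 204))))))) (T.a (T.c (T.b (T.a (T.c (T.b (T.a (T.a (T.l 2) (T.c (T.b (T.l 2) (T.l 204)) (T.b (T.l 2) (T.l 204)))) (T.c (T.b (T.c (T.b (T.l 2) (T.l 204)) (T.a (T.l 2) (T.l 204))) (T.l 204)) (T.a (T.b (T.l 2) (T.l 204)) (T.l 204)))) (T.l 204)) (T.b (T.a (T.c (T.b (T.l 2) (T.a (T.l 2) (T.l 204))) (T.b (T.l 2) (T.a (T.l 2) (T.l 204)))) (T.a (T.c (T.b (T.l 2) (T.l 204)) (T.b (T.l 2) (T.l 204))) (T.l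 204))) (T.l 204))) (T.l 204)) (T.l 204)) (T.a (T.b (T.c (T.b (T.a (T.c (T.b (T.l 2) (T.l 204)) (T.b (T.l 2) (T.l 204))) (T.c (T.a (T.b (T.l 2) (T.l 204)) (T.l 204)) (T.l 204))) (T.l 204)) (T.a (T.b (T.c (T.b (T.l 2) (T.l 204)) (T.b (T.l 2) (T.l 204))) (T.l 204)) (T.l 204))) (T.l 204)) (T.l 204))) (T.a (T.l 204) (T.a (T.l 204) (T.a (T.l 204) (T.c (T.l 204) (T.l 204))))))) (T.a (T.a (T.a (T.c (T.b (T.b (T.c (T.b (T.l 2) (T.a (T.c (T.b (T.l 2) (T.l 204)) (T.b (T.l 2) (T.l 204))) (T.a (T.c (T.l 204) (T.l 204)) (T.l 204)))) (T.b (T.l 2) (T.a (T.c (T.b (T.l 2) (T.l 204)) (T.b (T.l 2) (T.l 204))) (T.c (T.l 204) (T.l 204))))) (T.c (T.l 204) (T.l 204))) (T.c (T.l 204) (T.l 204))) (T.b (T.b (T.c (T.b (T.l 2) (T.a (T.c (T.b (T.l 2) (T.l 204)) (T.a (T.l 204) (T.l 204))) (T.l 204))) (T.b (T.l 2) (T.a (T.a (T.l 204) (T.l 204))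 (T.l 204)))) (T.c (T.l 204) (T.l 204))) (T.c (T.l 204) (T.l 204)))) (T.c (T.b (T.b (T.c (T.b (T.a (T.l 2) (T.c (T.b (T.l 2) (T.c (T.b (T.l 2) (T.l 204)) (T.a (T.l 748) (T.l 204)))) (T.b (T.l 2) (T.a (T.l 204) (T.l 204))))) (T.a (T.l 204) (T.l 204))) (T.b (T.a (T.l 2) (T.c (T.b (T.l 2) (T.l 748)) (T.b (T.l 2) (T.l 204)))) (T.a (T.l 204) (T.l 204)))) (T.l 204)) (T.l 204)) (T.b (T.b (T.c (T.b (T.a (T.l 2) (T.c (T.b (T.l 2) (T.l 204)) (T.b (T.l 2) (T.l 204)))) (T.c (T.l 204) (T.l 204))) (T.b (T.a (T.l 2) (T.c (T.b (T.l 2) (T.l 204)) (T.b (T.l 2) (T.l 204)))) (T.c (T.l 204) (T.l 204)))) (T.l 204)) (T.l 204)))) (T.a (T.c (T.b (T.b (T.c (T.b (T.c (T.b (T.a (T.l 2) (T.c (T.b (T.l 2) (T.l 204)) (T.b (T.l 2) (T.l 204)))) (T.a (T.l 204) (T.l 204))) (T.b (T.a (T.l 2) (T.c (T.b (T.l 2) (T.l 204)) (T.a (T.l 748) (T.l 204))))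 (T.a (T.l 204) (T.l 204)))) (T.l 204)) (T.b (T.c (T.b (T.a (T.l 2) (T.a (T.l 748) (T.l 204))) (T.a (T.l 204) (T.l 204))) (T.b (T.a (T.l 2) (T.l 748)) (T.l 204))) (T.l 204))) (T.l 204)) (T.l 204)) (T.b (T.b (T.c (T.b (T.a (T.c (T.b (T.l 2) (T.l 204)) (T.b (T.l 2) (T.l 204))) (T.c (T.l 204) (T.l 204))) (T.l 204)) (T.a (T.a (T.c (T.c (T.a (T.l 204) (T.l 204)) (T.l 204)) (T.l 204)) (T.l 204)) (T.l 204))) (T.l 204)) (T.l 204))) (T.c (T.b (T.b (T.a (T.c (T.c (T.l 204) (T.l 204)) (T.l 204)) (T.l 204)) (T.l 204)) (T.l 204)) (T.b (T.a (T.c (T.l 204) (T.l 204)) (T.l 204)) (T.l 204))))) (T.a (T.c (T.a (T.c (T.l 204) (T.l 204)) (T.l 204)) (T.a (T.c (T.l 204) (T.l 204)) (T.l 204))) (T.c (T.a (T.l 204) (T.l 204)) (T.a (T.l 204) (T.l 204)))))) (T.a (T.a (T.c (T.l 204) (T.l 204)) (T.a (T.l 204) (T.a (T.l 204) (T.a (T.l 204) (T.c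 (T.l 204) (T.l 204)))))) (T.a (T.a (T.a (T.c (T.l 476) (T.l 204)) (T.c (T.l 204) (T.l 204))) (T.a (T.c (T.l 204) (T.l 204)) (T.c (T.l 204) (T.l 204)))) (T.a (T.c (T.c (T.l 272) (T.l 16)) (T.c (T.l 0) (T.l 0))) (T.a (T.l 476) (T.l 476)))))), by decide +kernel⟩

def A202R_003_1_43_1 :
    ∃ t, chk3 (onCell 0 67108864 0 1073741824 67108864 67108864 (corTK [] false 3 c0N cA202R gN0q2 gN0q0 gN3q2 gN4q2 false true)) t 1 43 1 = true :=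
  ⟨(T.b (T.b (T.a (T.a (T.l 204) (T.a (T.l 204) (T.a (T.l 204) (T.c (T.l 0) (T.l 0))))) (T.a (T.a (T.a (T.c (T.l 0) (T.l 0)) (T.c (T.l 0) (T.l 0))) (T.a (T.c (T.l 204) (T.l 204)) (T.l 272))) (T.a (T.c (T.l 272) (T.l 0)) (T.c (T.l 0) (T.l 0))))) (T.a (T.a (T.l 204) (T.a (T.l 204) (T.a (T.l 0) (T.c (T.l 0) (T.l 0))))) (T.a (T.a (T.a (T.c (T.l 0) (T.l 0)) (T.c (T.l 0) (T.l 0))) (T.c (T.l 272) (T.l 0))) (T.a (T.c (T.l 0) (T.l 0)) (T.c (T.l 0) (T.l 0)))))) (T.a (T.a (T.l 0) (T.a (T.l 0) (T.a (T.l 0) (T.c (T.l 0) (T.l 0))))) (T.a (T.a (T.a (T.c (T.l 0) (T.l 0)) (T.c (T.l 0) (T.l 0))) (T.c (T.c (T.l 0) (T.l 0)) (T.l 272))) (T.a (T.a (T.l 0) (T.l 16)) (T.a (T.l 0) (T.l 0)))))), by decide +kernel⟩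

def A202R_003_1_11_1 :
    ∃ t, chk3 (onCell 0 67108864 0 1073741824 67108864 67108864 (corTK [] false 3 c0N cA202R gN0q2 gN0q0 gN3q2 gN4q2 false true)) t 1 11 1 = true :=
  ⟨(T.b (T.b (T.a (T.a (T.l 816) (T.a (T.l 816) (T.a (T.c (T.l 0) (T.l 0)) (T.c (T.l 0) (T.l 0))))) (T.a (T.a (T.a (T.c (T.l 0) (T.l 0)) (T.c (T.l 0) (T.l 0))) (T.a (T.c (T.l 0) (T.l 0)) (T.c (T.l 0) (T.l 0)))) (T.a (T.a (T.c (T.l 0) (T.l 0)) (T.c (T.l 0) (T.l 0))) (T.b (T.c (T.l 0) (T.l 0)) (T.c (T.l 816) (T.l 816)))))) (T.a (T.a (T.c (T.l 816) (T.l 816)) (T.a (T.a (T.l 816) (T.c (T.l 816) (T.l 816))) (T.a (T.c (T.l 816) (T.l 816)) (T.c (T.l 816) (T.l 816))))) (T.a (T.a (T.a (T.c (T.l 816) (T.l 816)) (T.c (T.l 816) (T.l 816))) (T.a (T.l 884) (T.c (T.l 816) (T.l 816)))) (T.a (T.a (T.c (T.l 816) (T.l 816)) (T.l 884)) (T.a (T.l 884) (T.l 884))))))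 (T.a (T.a (T.b (T.c (T.l 816) (T.l 816)) (T.c (T.l 816) (T.l 816))) (T.a (T.a (T.b (T.l 816) (T.l 816)) (T.b (T.c (T.l 816) (T.l 816)) (T.c (T.l 816) (T.l 816)))) (T.a (T.b (T.l 884) (T.l 884)) (T.b (T.c (T.l 816) (T.l 816)) (T.l 884))))) (T.a (T.a (T.a (T.b (T.l 884) (T.l 884)) (T.b (T.l 884) (T.l 884))) (T.b (T.a (T.l 884) (T.l 884)) (T.a (T.l 884) (T.l 884)))) (T.a (T.b (T.a (T.l 884) (T.l 884)) (T.c (T.l 884) (T.l 884))) (T.b (T.c (T.l 884) (T.l 884)) (T.c (T.l 884) (T.l 820))))))), by decide +kernel⟩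

def A202R_003_1_3_1 :
    ∃ t, chk3 (onCell 0 67108864 0 1073741824 67108864 67108864 (corTK [] false 3 c0N cA202R gN0q2 gN0q0 gN3q2 gN4q2 false true)) t 1 3 1 = true :=
  ⟨(T.b (T.b (T.a (T.a (T.a (T.b (T.b (T.l 816) (T.l 880)) (T.c (T.b (T.l 816) (T.l 816)) (T.l 816))) (T.a (T.b (T.l 816) (T.l 884)) (T.b (T.l 816) (T.b (T.l 816) (T.l 816))))) (T.a (T.a (T.b (T.b (T.c (T.l 884) (T.l 816)) (T.c (T.l 884) (T.l 816))) (T.b (T.c (T.l 820) (T.l 816)) (T.c (T.l 820) (T.l 816)))) (T.b (T.b (T.c (T.l 816) (T.l 816)) (T.c (T.l 816) (T.l 816))) (T.b (T.l 884) (T.l 884)))) (T.a (T.b (T.b (T.l 884) (T.l 820)) (T.b (T.l 820) (T.l 816))) (T.b (T.b (T.l 884) (T.l 884)) (T.b (T.l 884) (T.l 820)))))) (T.a (T.a (T.b (T.a (T.b (T.l 820) (T.l 816)) (T.b (T.l 884) (T.l 820))) (T.a (T.b (T.l 884) (T.l 884)) (T.b (T.l 884) (T.l 820))))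 (T.b (T.a (T.b (T.l 884) (T.l 884)) (T.b (T.l 884) (T.l 820))) (T.a (T.b (T.l 816) (T.l 816)) (T.b (T.l 816) (T.l 816))))) (T.b (T.a (T.b (T.c (T.l 884) (T.l 884)) (T.c (T.l 884) (T.l 884))) (T.b (T.c (T.l 820) (T.l 816)) (T.l 884))) (T.a (T.b (T.c (T.l 820) (T.l 884)) (T.c (T.l 820) (T.l 880))) (T.b (T.l 884) (T.l 884)))))) (T.a (T.a (T.a (T.b (T.c (T.b (T.l 816) (T.l 816)) (T.b (T.l 816) (T.l 816))) (T.c (T.a (T.b (T.l 816) (T.l 816)) (T.l 816)) (T.b (T.l 816) (T.l 816)))) (T.a (T.b (T.l 884) (T.b (T.l 816) (T.l 816))) (T.b (T.a (T.l 816) (T.b (T.l 884) (T.l 884))) (T.a (T.a (T.l 816) (T.b (T.l 816) (T.l 816))) (T.b (T.l 884) (T.l 884)))))) (T.a (T.a (T.b (T.a (T.b (T.l 816) (T.l 816)) (T.b (T.l 816) (T.l 816))) (T.a (T.b (T.l 816) (T.l 816)) (T.b (T.l 816) (T.l 816)))) (T.b (T.b (T.l 884) (T.l 884)) (T.b (T.l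 884) (T.l 884)))) (T.a (T.b (T.b (T.l 816) (T.l 816)) (T.b (T.l 816) (T.l 884))) (T.b (T.b (T.l 884) (T.l 884)) (T.b (T.l 884) (T.l 884)))))) (T.a (T.a (T.b (T.a (T.b (T.l 884) (T.l 884)) (T.b (T.l 816) (T.l 816))) (T.a (T.b (T.l 884) (T.l 820)) (T.b (T.l 816) (T.l 816)))) (T.b (T.a (T.b (T.l 816) (T.l 816)) (T.l 884)) (T.a (T.b (T.l 816) (T.l 816)) (T.l 884)))) (T.a (T.b (T.a (T.l 884) (T.l 884)) (T.b (T.l 884) (T.l 884))) (T.b (T.b (T.l 884) (T.l 884)) (T.b (T.l 816) (T.l 816))))))) (T.a (T.a (T.a (T.b (T.b (T.b (T.c (T.b (T.l 816) (T.l 816)) (T.l 816)) (T.a (T.c (T.b (T.l 816) (T.l 816)) (T.l 816)) (T.l 880))) (T.b (T.c (T.a (T.b (T.l 816) (T.l 816)) (T.l 816)) (T.b (T.l 816) (T.l 816))) (T.c (T.a (T.b (T.l 816) (T.l 816)) (T.l 816)) (T.a (T.l 816) (T.l 816))))) (T.b (T.b (T.c (T.a (T.b (T.l 816) (T.c (T.l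 816) (T.l 816))) (T.l 816)) (T.a (T.b (T.l 816) (T.l 816)) (T.l 816))) (T.c (T.a (T.a (T.b (T.l 816) (T.l 816)) (T.l 816)) (T.l 816)) (T.a (T.b (T.l 816) (T.l 816)) (T.l 816)))) (T.b (T.c (T.a (T.a (T.c (T.b (T.l 816) (T.l 816)) (T.l 816)) (T.l 816)) (T.l 816)) (T.a (T.c (T.b (T.l 816) (T.l 816)) (T.l 816)) (T.l 816))) (T.c (T.a (T.a (T.c (T.b (T.l 816) (T.l 816)) (T.b (T.l 816) (T.l 816))) (T.l 816)) (T.l 816)) (T.a (T.a (T.c (T.b (T.l 816) (T.l 816)) (T.l 816)) (T.l 816)) (T.l 816)))))) (T.a (T.b (T.a (T.b (T.l 880) (T.l 880)) (T.b (T.l 816) (T.a (T.l 816) (T.b (T.l 816) (T.l 816))))) (T.a (T.b (T.b (T.l 816) (T.l 816)) (T.b (T.l 816) (T.l 816))) (T.b (T.c (T.b (T.l 816) (T.l 816)) (T.b (T.l 880) (T.l 880))) (T.c (T.b (T.l 816) (T.l 816)) (T.a (T.l 880) (T.l 816)))))) (T.b (T.a (T.b (T.c (T.b (T.l 816) (T.l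 816)) (T.b (T.l 816) (T.l 816))) (T.c (T.b (T.l 816) (T.l 816)) (T.b (T.l 816) (T.l 816)))) (T.b (T.b (T.l 884) (T.l 884)) (T.b (T.l 884) (T.l 880)))) (T.a (T.b (T.c (T.b (T.l 816) (T.l 816)) (T.b (T.l 816) (T.l 816))) (T.c (T.b (T.l 816) (T.l 816)) (T.b (T.l 816) (T.l 816)))) (T.b (T.b (T.l 880) (T.l 880)) (T.b (T.l 880) (T.c (T.l 816) (T.l 816)))))))) (T.a (T.a (T.b (T.b (T.a (T.b (T.l 816) (T.l 816)) (T.b (T.l 816) (T.l 816))) (T.a (T.b (T.l 816) (T.l 816)) (T.b (T.l 816) (T.l 816)))) (T.b (T.a (T.b (T.l 816) (T.l 816)) (T.b (T.l 816) (T.l 816))) (T.a (T.b (T.l 816) (T.l 816)) (T.b (T.l 816) (T.l 816))))) (T.b (T.b (T.b (T.l 884) (T.l 884)) (T.a (T.l 884) (T.b (T.l 816) (T.l 816)))) (T.b (T.a (T.l 884) (T.b (T.l 816) (T.l 816))) (T.a (T.b (T.l 816) (T.l 816)) (T.b (T.l 816) (T.l 816)))))) (T.b (T.a (T.b (T.a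 (T.l 884) (T.l 884)) (T.a (T.b (T.l 816) (T.l 816)) (T.l 884))) (T.b (T.b (T.l 884) (T.l 884)) (T.b (T.l 884) (T.l 884)))) (T.a (T.b (T.a (T.b (T.l 816) (T.l 816)) (T.l 884)) (T.a (T.b (T.l 816) (T.l 816)) (T.b (T.l 816) (T.l 816)))) (T.b (T.a (T.l 880) (T.l 880)) (T.a (T.l 880) (T.l 880))))))) (T.a (T.a (T.b (T.a (T.b (T.b (T.l 816) (T.l 816)) (T.b (T.l 816) (T.l 816))) (T.b (T.b (T.l 816) (T.l 816)) (T.b (T.l 816) (T.l 816)))) (T.a (T.b (T.b (T.l 816) (T.l 816)) (T.b (T.l 880) (T.l 880))) (T.b (T.b (T.l 816) (T.l 816)) (T.b (T.l 816) (T.l 816))))) (T.b (T.b (T.a (T.l 884) (T.l 884)) (T.a (T.b (T.l 816) (T.l 816)) (T.l 884))) (T.b (T.a (T.b (T.l 816) (T.l 816)) (T.l 884)) (T.a (T.b (T.l 816) (T.l 816)) (T.l 880))))) (T.b (T.a (T.b (T.b (T.l 884) (T.l 884)) (T.b (T.l 884) (T.l 884))) (T.b (T.b (T.l 816) (T.l 816))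 (T.b (T.l 816) (T.l 816)))) (T.a (T.b (T.a (T.l 880) (T.l 816)) (T.a (T.l 880) (T.l 816))) (T.b (T.b (T.l 816) (T.l 816)) (T.b (T.l 816) (T.l 816)))))))), by decide +kernel⟩

theorem A202R_003_1_42_1 :
    ∃ t, chk3 (onCell 0 67108864 0 1073741824 67108864 67108864 (corTK [] false 3 c0N cA202R gN0q2 gN0q0 gN3q2 gN4q2 false true)) t 1 42 1 = true :=
  ex3_b A202R_003_1_84_1 A202R_003_1_85_1
theorem A202R_003_1_21_1 :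
    ∃ t, chk3 (onCell 0 67108864 0 1073741824 67108864 67108864 (corTK [] false 3 c0N cA202R gN0q2 gN0q0 gN3q2 gN4q2 false true)) t 1 21 1 = true :=
  ex3_b A202R_003_1_42_1 A202R_003_1_43_1
theorem A202R_003_1_10_1 :
    ∃ t, chk3 (onCell 0 67108864 0 1073741824 67108864 67108864 (corTK [] false 3 c0N cA202R gN0q2 gN0q0 gN3q2 gN4q2 false true)) t 1 10 1 = true :=
  ex3_b A202R_003_1_20_1 A202R_003_1_21_1
theorem A202R_003_1_5_1 :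
    ∃ t, chk3 (onCell 0 67108864 0 1073741824 67108864 67108864 (corTK [] false 3 c0N cA202R gN0q2 gN0q0 gN3q2 gN4q2 false true)) t 1 5 1 = true :=
  ex3_b A202R_003_1_10_1 A202R_003_1_11_1
theorem A202R_003_1_2_1 :
    ∃ t, chk3 (onCell 0 67108864 0 1073741824 67108864 67108864 (corTK [] false 3 c0N cA202R gN0q2 gN0q0 gN3q2 gN4q2 false true)) t 1 2 1 = true :=
  ex3_b A202R_003_1_4_1 A202R_003_1_5_1
theorem A202R_003 :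
    ∃ t, chk3 (onCell 0 67108864 0 1073741824 67108864 67108864 (corTK [] false 3 c0N cA202R gN0q2 gN0q0 gN3q2 gN4q2 false true)) t 1 1 1 = true :=
  ex3_b A202R_003_1_2_1 A202R_003_1_3_1

def A202R_013 :
    ∃ t, chk3 (onCell 0 67108864 0 1073741824 67108864 67108864 (corTK [] false 3 c0N cA202R gN0q2 gN1q0 gN3q2 gN4q2 false true)) t 1 1 1 = true :=
  ⟨(T.b (T.l 2) (T.b (T.b (T.b (T.a (T.l 2) (T.a (T.l 204) (T.l 204))) (T.a (T.a (T.a (T.l 204) (T.l 204)) (T.l 204)) (T.a (T.l 204) (T.l 204)))) (T.a (T.a (T.a (T.l 204) (T.l 0)) (T.b (T.l 0) (T.l 0))) (T.a (T.b (T.l 0) (T.l 0)) (T.l 0)))) (T.b (T.a (T.a (T.a (T.l 0) (T.b (T.l 0) (T.l 0))) (T.a (T.l 0) (T.l 0))) (T.a (T.b (T.l 0) (T.l 0)) (T.b (T.l 0) (T.l 0)))) (T.a (T.a (T.a (T.b (T.l 816) (T.b (T.l 816) (T.b (T.l 816) (T.b (T.l 816) (T.b (T.l 816) (T.a (T.c (T.c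 (T.l 816) (T.l 816)) (T.c (T.l 816) (T.l 816))) (T.l 816))))))) (T.a (T.b (T.l 0) (T.b (T.l 816) (T.a (T.c (T.l 816) (T.l 816)) (T.b (T.l 816) (T.c (T.l 816) (T.l 816)))))) (T.b (T.l 816) (T.b (T.l 816) (T.b (T.l 816) (T.a (T.c (T.l 816) (T.l 816)) (T.l 816))))))) (T.a (T.b (T.l 0) (T.a (T.b (T.l 816) (T.a (T.c (T.l 816) (T.l 816)) (T.l 816))) (T.b (T.l 816) (T.a (T.l 880) (T.l 816))))) (T.b (T.l 816) (T.b (T.l 816) (T.a (T.c (T.l 816) (T.l 816)) (T.c (T.l 816) (T.l 816))))))) (T.a (T.a (T.b (T.l 816) (T.b (T.l 816) (T.a (T.l 880) (T.l 816)))) (T.b (T.l 816) (T.b (T.l 816) (T.a (T.l 816) (T.l 816))))) (T.b (T.b (T.l 816) (T.l 816)) (T.a (T.a (T.l 816) (T.l 816)) (T.b (T.l 816) (T.l 816))))))))), by decide +kernel⟩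

def A202R_023 :
    ∃ t, chk3 (onCell 0 67108864 0 1073741824 67108864 67108864 (corTK [] false 3 c0N cA202R gN0q2 gN2q0 gN3q2 gN4q2 false true)) t 1 1 1 = true :=
  ⟨(T.b (T.l 2) (T.b (T.b (T.l 2) (T.b (T.a (T.a (T.a (T.l 204) (T.l 204)) (T.l 204)) (T.a (T.l 204) (T.l 204))) (T.a (T.a (T.a (T.l 204) (T.l 204)) (T.l 0)) (T.a (T.l 204) (T.l 204))))) (T.b (T.b (T.a (T.a (T.a (T.l 204) (T.l 0)) (T.l 0)) (T.a (T.l 204) (T.l 0))) (T.a (T.a (T.a (T.l 204) (T.l 0)) (T.b (T.l 0) (T.l 0))) (T.a (T.l 0) (T.l 0)))) (T.a (T.a (T.a (T.b (T.l 0) (T.b (T.l 816) (T.b (T.l 816) (T.b (T.l 816) (T.b (T.l 816) (T.c (T.a (T.c (T.c (T.l 816) (T.l 816)) (T.l 816)) (T.l 816)) (T.c (T.a (T.l 816) (T.l 816)) (T.l 816)))))))) (T.b (T.b (T.l 0) (T.l 0)) (T.a (T.b (T.l 816) (T.b (T.l 816) (T.a (T.l 816) (T.c (T.l 816) (T.l 880))))) (T.b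 (T.l 816) (T.b (T.l 816) (T.b (T.l 816) (T.a (T.l 880) (T.l 816)))))))) (T.a (T.b (T.l 0) (T.b (T.l 816) (T.a (T.b (T.l 816) (T.c (T.l 816) (T.l 816))) (T.b (T.l 816) (T.c (T.l 816) (T.l 816)))))) (T.b (T.l 0) (T.b (T.l 816) (T.b (T.l 816) (T.a (T.l 880) (T.l 816))))))) (T.a (T.b (T.b (T.l 0) (T.l 0)) (T.a (T.b (T.l 816) (T.a (T.c (T.l 816) (T.l 816)) (T.l 816))) (T.b (T.l 816) (T.a (T.l 816) (T.l 816))))) (T.b (T.l 0) (T.b (T.l 816) (T.a (T.c (T.l 816) (T.l 816)) (T.l 816))))))))), by decide +kernel⟩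

def A202R_113 :
    ∃ t, chk3 (onCell 0 67108864 0 1073741824 67108864 67108864 (corTK [] false 3 c0N cA202R gN1q2 gN1q0 gN3q2 gN4q2 false true)) t 1 1 1 = true :=
  ⟨(T.b (T.l 2) (T.b (T.l 2) (T.b (T.l 2) (T.a (T.b (T.a (T.l 0) (T.b (T.l 2) (T.l 0))) (T.a (T.a (T.l 0) (T.a (T.l 0) (T.l 0))) (T.a (T.b (T.l 0) (T.l 816)) (T.l 0)))) (T.a (T.b (T.l 0) (T.a (T.l 0) (T.l 0))) (T.a (T.b (T.l 0) (T.l 0)) (T.l 4))))))), by decide +kernel⟩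

def A202R_123 :
    ∃ t, chk3 (onCell 0 67108864 0 1073741824 67108864 67108864 (corTK [] false 3 c0N cA202R gN1q2 gN2q0 gN3q2 gN4q2 false true)) t 1 1 1 = true :=
  ⟨(T.b (T.l 2) (T.b (T.l 2) (T.b (T.l 2) (T.b (T.a (T.a (T.l 2) (T.l 0)) (T.a (T.l 0) (T.l 0))) (T.a (T.a (T.a (T.l 0) (T.a (T.l 0) (T.l 0))) (T.a (T.b (T.l 0) (T.l 0)) (T.b (T.l 0) (T.l 0)))) (T.a (T.a (T.l 0) (T.l 0)) (T.b (T.l 0) (T.l 0)))))))), by decide +kernel⟩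

def A202R_223 :
    ∃ t, chk3 (onCell 0 67108864 0 1073741824 67108864 67108864 (corTK [] false 3 c0N cA202R gN2q2 gN2q0 gN3q2 gN4q2 false true)) t 1 1 1 = true :=
  ⟨(T.l 2), by decide +kernel⟩

def B011E_000 :
    ∃ t, chk3 (onCell 0 67108864 0 1073741824 67108864 67108864 (corTK [] false 3 c0N cB011E gN0q0 gN0q1 gN0q1 gN1q1 true false)) t 1 1 1 = true :=
  ⟨(T.l 1), by decide +kernel⟩

def B011E_100 :
    ∃ t, chk3 (onCell 0 67108864 0 1073741824 67108864 67108864 (corTK [] false 3 c0N cB011E gN1q0 gN0q1 gN0q1 gN1q1 true false)) t 1 1 1 = true :=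
  ⟨(T.l 1), by decide +kernel⟩

def B011E_200 :
    ∃ t, chk3 (onCell 0 67108864 0 1073741824 67108864 67108864 (corTK [] false 3 c0N cB011E gN2q0 gN0q1 gN0q1 gN1q1 true false)) t 1 1 1 = true :=
  ⟨(T.b (T.b (T.b (T.b (T.b (T.a (T.a (T.a (T.l 816) (T.l 816)) (T.l 816)) (T.l 816)) (T.l 1)) (T.l 1)) (T.l 1)) (T.l 1)) (T.l 1)), by decide +kernel⟩

def B011L_020 :
    ∃ t, chk3 (onCell 0 67108864 0 1073741824 67108864 67108864 (corTK [] false 3 c0N cB011L gN0q0 gN2q1 gN0q1 gN1q1 true false)) t 1 1 1 = true :=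
  ⟨(T.l 1), by decide +kernel⟩

def B011L_030 :
    ∃ t, chk3 (onCell 0 67108864 0 1073741824 67108864 67108864 (corTK [] false 3 c0N cB011L gN0q0 gN3q1 gN0q1 gN1q1 true false)) t 1 1 1 = true :=
  ⟨(T.l 1), by decide +kernel⟩

def B011L_040 :
    ∃ t, chk3 (onCell 0 67108864 0 1073741824 67108864 67108864 (corTK [] false 3 c0N cB011L gN0q0 gN4q1 gN0q1 gN1q1 true false)) t 1 1 1 = true :=
  ⟨(T.l 1), by decide +kernel⟩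

def B011L_120 :
    ∃ t, chk3 (onCell 0 67108864 0 1073741824 67108864 67108864 (corTK [] false 3 c0N cB011L gN1q0 gN2q1 gN0q1 gN1q1 true false)) t 1 1 1 = true :=
  ⟨(T.l 1), by decide +kernel⟩

def B011L_130 :
    ∃ t, chk3 (onCell 0 67108864 0 1073741824 67108864 67108864 (corTK [] false 3 c0N cB011L gN1q0 gN3q1 gN0q1 gN1q1 true false)) t 1 1 1 = true :=
  ⟨(T.l 1), by decide +kernel⟩

def B011L_140 :
    ∃ t, chk3 (onCell 0 67108864 0 1073741824 67108864 67108864 (corTK [] false 3 c0N cB011L gN1q0 gN4q1 gN0q1 gN1q1 true false)) t 1 1 1 = true :=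
  ⟨(T.l 1), by decide +kernel⟩

def B011L_220 :
    ∃ t, chk3 (onCell 0 67108864 0 1073741824 67108864 67108864 (corTK [] false 3 c0N cB011L gN2q0 gN2q1 gN0q1 gN1q1 true false)) t 1 1 1 = true :=
  ⟨(T.l 1), by decide +kernel⟩

def B011L_230 :
    ∃ t, chk3 (onCell 0 67108864 0 1073741824 67108864 67108864 (corTK [] false 3 c0N cB011L gN2q0 gN3q1 gN0q1 gN1q1 true false)) t 1 1 1 = true :=
  ⟨(T.l 1), by decide +kernel⟩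

def B011L_240 :
    ∃ t, chk3 (onCell 0 67108864 0 1073741824 67108864 67108864 (corTK [] false 3 c0N cB011L gN2q0 gN4q1 gN0q1 gN1q1 true false)) t 1 1 1 = true :=
  ⟨(T.l 1), by decide +kernel⟩

def B011R_001 :
    ∃ t, chk3 (onCell 0 67108864 0 1073741824 67108864 67108864 (corTK [[⟨0, 0, 1, 33554432⟩, ⟨1, 1, 2, 33554432⟩, ⟨2, 1, 0, 8388608⟩, ⟨0, 0, 0, 150994944⟩, ⟨0, 1, 0, 1023410176⟩, ⟨1, 0, 0, 1023410176⟩, ⟨1, 1, 0, 150994944⟩]] false 3 c0N cB011R gN0q0 gN0q1 gN1q1 gN2q1 false true)) t 1 1 1 = true :=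
  ⟨(T.b (T.b (T.b (T.b (T.b (T.b (T.b (T.b (T.a (T.c (T.b (T.a (T.a (T.l 204) (T.a (T.l 204) (T.a (T.l 204) (T.l 204)))) (T.c (T.b (T.a (T.c (T.b (T.a (T.a (T.l 204) (T.l 204)) (T.a (T.l 204) (T.l 476))) (T.l 2)) (T.b (T.a (T.a (T.l 204) (T.l 204)) (T.a (T.l 204) (T.l 460))) (T.l 2))) (T.c (T.b (T.a (T.a (T.l 476) (T.c (T.l 476) (T.l 476))) (T.c (T.b (T.a (T.a (T.l 476) (T.l 476)) (T.a (T.l 476) (T.l 476))) (T.l 2)) (T.b (T.a (T.a (T.l 476) (T.l 476)) (T.a (T.l 476) (T.l 476))) (T.l 2)))) (T.l 2)) (T.b (T.a (T.a (T.l 476) (T.c (T.l 476) (T.l 476))) (T.c (T.b (T.a (T.a (T.l 476) (T.l 476)) (T.a (T.l 476) (T.l 476))) (T.l 2)) (T.a (T.l 476) (T.a (T.l 476) (T.l 476))))) (T.l 2)))) (T.l 2)) (T.b (T.a (T.c (T.b (T.a (T.a (T.l 204) (T.l 204)) (T.a (T.l 204) (T.l 204))) (T.l 2)) (T.b (T.a (T.a (T.l 204) (T.l 204)) (T.a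 (T.l 204) (T.l 204))) (T.l 2))) (T.c (T.b (T.a (T.a (T.l 460) (T.l 476)) (T.c (T.a (T.l 476) (T.l 476)) (T.a (T.l 476) (T.l 476)))) (T.l 2)) (T.b (T.a (T.a (T.l 460) (T.l 460)) (T.a (T.l 476) (T.l 476))) (T.l 2)))) (T.l 2)))) (T.l 2)) (T.b (T.a (T.a (T.l 204) (T.a (T.l 204) (T.a (T.l 204) (T.l 204)))) (T.c (T.b (T.a (T.c (T.b (T.a (T.a (T.l 204) (T.l 204)) (T.a (T.l 204) (T.l 204))) (T.l 2)) (T.b (T.a (T.a (T.l 204) (T.l 204)) (T.a (T.l 204) (T.l 204))) (T.l 2))) (T.c (T.b (T.a (T.a (T.l 204) (T.l 460)) (T.a (T.l 460) (T.l 460))) (T.l 2)) (T.b (T.a (T.a (T.l 204) (T.l 204)) (T.a (T.l 204) (T.l 460))) (T.l 2)))) (T.l 2)) (T.b (T.a (T.c (T.b (T.a (T.a (T.l 204) (T.l 204)) (T.a (T.l 204) (T.l 204))) (T.l 2)) (T.b (T.a (T.a (T.l 204) (T.l 204)) (T.a (T.l 204) (T.l 204))) (T.l 2))) (T.c (T.b (T.a (T.a (T.l 204) (T.l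 204)) (T.a (T.l 204) (T.l 204))) (T.l 2)) (T.b (T.a (T.a (T.l 204) (T.l 204)) (T.a (T.l 204) (T.l 204))) (T.l 2)))) (T.l 2)))) (T.l 2))) (T.c (T.b (T.a (T.c (T.b (T.a (T.c (T.b (T.a (T.c (T.b (T.a (T.a (T.l 476) (T.l 476)) (T.a (T.l 476) (T.l 476))) (T.l 2)) (T.b (T.a (T.a (T.l 476) (T.l 476)) (T.a (T.l 476) (T.l 476))) (T.l 2))) (T.c (T.b (T.a (T.a (T.l 476) (T.l 476)) (T.a (T.l 476) (T.l 476))) (T.l 2)) (T.b (T.a (T.a (T.l 476) (T.l 476)) (T.a (T.l 476) (T.l 476))) (T.l 2)))) (T.l 2)) (T.b (T.a (T.c (T.b (T.a (T.a (T.l 476) (T.l 476)) (T.a (T.l 476) (T.l 476))) (T.l 2)) (T.b (T.a (T.a (T.l 476) (T.l 476)) (T.a (T.l 476) (T.l 476))) (T.l 2))) (T.c (T.b (T.a (T.a (T.l 476) (T.l 476)) (T.a (T.l 476) (T.l 476))) (T.l 2)) (T.a (T.l 476) (T.l 476)))) (T.l 2))) (T.c (T.b (T.a (T.c (T.b (T.a (T.a (T.l 476) (T.l 476))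 (T.a (T.l 476) (T.l 476))) (T.l 2)) (T.b (T.a (T.a (T.l 476) (T.l 476)) (T.a (T.l 476) (T.l 476))) (T.l 2))) (T.c (T.b (T.a (T.a (T.l 476) (T.l 476)) (T.a (T.l 476) (T.a (T.l 476) (T.l 476)))) (T.l 2)) (T.b (T.a (T.a (T.l 476) (T.l 476)) (T.a (T.l 476) (T.c (T.l 476) (T.l 476)))) (T.l 2)))) (T.l 2)) (T.b (T.a (T.c (T.a (T.l 476) (T.a (T.l 476) (T.l 476))) (T.a (T.l 476) (T.l 476))) (T.c (T.a (T.l 476) (T.a (T.l 476) (T.l 476))) (T.a (T.l 476) (T.a (T.l 476) (T.l 476))))) (T.l 2)))) (T.l 2)) (T.b (T.a (T.c (T.b (T.a (T.c (T.a (T.l 476) (T.l 476)) (T.a (T.l 476) (T.l 476))) (T.a (T.c (T.l 476) (T.l 476)) (T.l 476))) (T.l 2)) (T.b (T.a (T.a (T.l 476) (T.l 476)) (T.a (T.l 476) (T.l 476))) (T.l 2))) (T.c (T.b (T.a (T.a (T.l 476) (T.c (T.l 476) (T.l 476))) (T.a (T.l 476) (T.a (T.l 476) (T.l 476)))) (T.l 2)) (T.b (T.a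 (T.a (T.l 476) (T.l 476)) (T.a (T.l 476) (T.a (T.l 476) (T.l 476)))) (T.l 2)))) (T.l 2))) (T.c (T.a (T.a (T.a (T.a (T.a (T.c (T.c (T.l 476) (T.l 476)) (T.l 476)) (T.l 1024)) (T.l 1024)) (T.l 1024)) (T.l 1024)) (T.l 1024)) (T.b (T.a (T.c (T.b (T.a (T.c (T.b (T.a (T.a (T.l 476) (T.l 476)) (T.a (T.l 476) (T.l 476))) (T.l 2)) (T.b (T.a (T.a (T.l 476) (T.l 476)) (T.a (T.l 476) (T.l 476))) (T.l 2))) (T.c (T.a (T.a (T.l 476) (T.l 1024)) (T.l 1024)) (T.b (T.a (T.a (T.l 476) (T.l 476)) (T.a (T.l 476) (T.l 476))) (T.l 2)))) (T.l 2)) (T.b (T.a (T.c (T.b (T.a (T.a (T.l 476) (T.l 476)) (T.a (T.l 476) (T.l 476))) (T.l 2)) (T.a (T.a (T.l 476) (T.l 476)) (T.l 476))) (T.c (T.a (T.l 476) (T.l 476)) (T.a (T.l 476) (T.l 476)))) (T.l 2))) (T.c (T.a (T.a (T.a (T.l 476) (T.l 1024)) (T.l 1024)) (T.l 1024)) (T.b (T.a (T.c (T.b (T.a (T.l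 476) (T.a (T.l 476) (T.l 476))) (T.l 2)) (T.a (T.l 476) (T.l 476))) (T.c (T.a (T.a (T.l 476) (T.l 1024)) (T.l 1024)) (T.a (T.l 476) (T.l 476)))) (T.l 2)))) (T.l 2)))) (T.l 2)) (T.b (T.a (T.c (T.b (T.a (T.c (T.b (T.a (T.a (T.l 476) (T.l 476)) (T.a (T.l 476) (T.l 476))) (T.l 2)) (T.b (T.a (T.a (T.l 460) (T.l 460)) (T.a (T.l 460) (T.l 460))) (T.l 2))) (T.c (T.b (T.a (T.a (T.l 476) (T.l 476)) (T.a (T.l 476) (T.a (T.l 476) (T.l 476)))) (T.l 2)) (T.b (T.a (T.a (T.l 460) (T.l 476)) (T.a (T.l 476) (T.c (T.l 476) (T.l 476)))) (T.l 2)))) (T.l 2)) (T.b (T.a (T.c (T.a (T.a (T.l 204) (T.l 204)) (T.l 476)) (T.a (T.a (T.l 204) (T.l 204)) (T.l 476))) (T.c (T.b (T.a (T.a (T.l 204) (T.l 204)) (T.a (T.l 204) (T.l 476))) (T.l 2)) (T.a (T.l 476) (T.a (T.l 204) (T.l 476))))) (T.l 2))) (T.c (T.b (T.a (T.c (T.b (T.a (T.a (T.c (T.l 476)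 (T.l 476)) (T.l 476)) (T.a (T.l 476) (T.l 476))) (T.l 2)) (T.b (T.a (T.a (T.l 476) (T.l 476)) (T.a (T.l 476) (T.l 476))) (T.l 2))) (T.c (T.b (T.a (T.a (T.l 476) (T.l 476)) (T.a (T.l 476) (T.l 476))) (T.l 2)) (T.b (T.a (T.a (T.l 476) (T.l 476)) (T.a (T.l 476) (T.l 476))) (T.l 2)))) (T.l 2)) (T.b (T.a (T.c (T.b (T.a (T.a (T.l 476) (T.l 476)) (T.a (T.l 476) (T.l 476))) (T.l 2)) (T.b (T.a (T.a (T.l 476) (T.l 476)) (T.a (T.l 476) (T.l 476))) (T.l 2))) (T.c (T.b (T.a (T.a (T.l 476) (T.l 476)) (T.a (T.l 476) (T.l 476))) (T.l 2)) (T.b (T.a (T.a (T.l 476) (T.l 476)) (T.a (T.l 476) (T.l 476))) (T.l 2)))) (T.l 2)))) (T.l 2)))) (T.l 2)) (T.l 2)) (T.l 2)) (T.l 2)) (T.l 2)) (T.l 2)) (T.l 2)) (T.l 2)), by decide +kernel⟩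

end Pool.Agent.Strip051.G.I1_16_1_8.Tab.CN
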