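import Pool.Agent.Strip051.G.I1_16_1_8.Tab
import Pool.Agent.Strip051.PB.RowK

/-! # Certificates N0 (generated) -/

set_option linter.all false
set_option maxRecDepth 100000

namespace Pool.Agent.Strip051.G.I1_16_1_8.Tab.C.NA00

open Pool.Agent.Strip051.PB Pool.Agent.Strip051.PB.T
open Pool.Agent.Strip051.G.I1_16_1_8.Tab

noncomputable def f_pp_001 : ℕ → ℕ → ℕ → ℕ → Bool := onCell 0 536870912 0 536870912 67108864 67108864
    (rowNK 3 0 true true true .up 0 0 1 (qsf 0 536870912 0 536870912 1) ndN0q0 ndN0q0 pcN1 Cut.none Ext.none)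

def k0_pp_001 : ∃ t, chk3 f_pp_001 t 1 1 1 = true :=
  ⟨(l 4), by decide +kernel⟩

theorem c_pp_001 : CertN 0 536870912 0 536870912 67108864 67108864 3 true true true .up 0 0 1
    ndN0q0 ndN0q0 pcN1 Cut.none Ext.none :=
  certNK0 (fam := true) (s1 := true) (s2 := true) (a := 0) (b := 0) (c := 1) (cn := .up) (n1 := ndN0q0) (n2 := ndN0q0) (pc := pcN1) (cut := Cut.none) (xt := Ext.none) (P1 := 0) (W1 := 536870912) (P2 := 0) (W2 := 536870912) (P3 := 67108864) (W3 := 67108864) (N0 := 3)
    rfl rfl rfl k0_pp_001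

noncomputable def cut_pp_011 : Cut := Cut.of [[⟨0, 0, 0, 67108864⟩, ⟨1, 1, 0, 67108864⟩, ⟨2, 1, 0, 67108864⟩]]

noncomputable def f_pp_011 : ℕ → ℕ → ℕ → ℕ → Bool := onCell 0 536870912 536870912 536870912 67108864 67108864
    (rowNK 3 0 true true true .pnn 0 1 1 (qsf 0 536870912 536870912 536870912 1) ndN0q0 ndN0q1 pcN1 cut_pp_011 Ext.none)

def k0_pp_011 : ∃ t, chk3 f_pp_011 t 1 1 1 = true :=
  ⟨(a (b (l 4) (b (l 4) (b (l 4) (b (l 4) (a (a (a (l 6) (l 4)) (l 2)) (l 2)))))) (l 4)), by decide +kernel⟩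

theorem c_pp_011 : CertN 0 536870912 536870912 536870912 67108864 67108864 3 true true true .pnn 0 1 1
    ndN0q0 ndN0q1 pcN1 cut_pp_011 Ext.none :=
  certNK0 (fam := true) (s1 := true) (s2 := true) (a := 0) (b := 1) (c := 1) (cn := .pnn) (n1 := ndN0q0) (n2 := ndN0q1) (pc := pcN1) (cut := cut_pp_011) (xt := Ext.none) (P1 := 0) (W1 := 536870912) (P2 := 536870912) (W2 := 536870912) (P3 := 67108864) (W3 := 67108864) (N0 := 3)
    rfl rfl rfl k0_pp_011

noncomputable def cut_pp_012 : Cut := Cut.of [[⟨0, 0, 0, 67108864⟩, ⟨1, 1, 0, 67108864⟩, ⟨2, 1, 0, 67108864⟩]]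

noncomputable def f_pp_012 : ℕ → ℕ → ℕ → ℕ → Bool := onCell 0 536870912 536870912 536870912 67108864 67108864
    (rowNK 3 0 true true true .pnp 0 1 2 (qsf 0 536870912 536870912 536870912 2) ndN0q0 ndN0q1 pcN2 cut_pp_012 Ext.none)

def k0_pp_012 : ∃ t, chk3 f_pp_012 t 1 1 1 = true :=
  ⟨(a (b (l 4) (b (l 4) (a (b (l 4) (a (b (l 4) (a (l 6) (l 4))) (l 4))) (l 4)))) (l 4)), by decide +kernel⟩

theorem c_pp_012 : CertN 0 536870912 536870912 536870912 67108864 67108864 3 true true true .pnp 0 1 2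
    ndN0q0 ndN0q1 pcN2 cut_pp_012 Ext.none :=
  certNK0 (fam := true) (s1 := true) (s2 := true) (a := 0) (b := 1) (c := 2) (cn := .pnp) (n1 := ndN0q0) (n2 := ndN0q1) (pc := pcN2) (cut := cut_pp_012) (xt := Ext.none) (P1 := 0) (W1 := 536870912) (P2 := 536870912) (W2 := 536870912) (P3 := 67108864) (W3 := 67108864) (N0 := 3)
    rfl rfl rfl k0_pp_012

noncomputable def cut_pp_022 : Cut := Cut.of [[⟨0, 0, 0, 67108864⟩, ⟨1, 1, 0, 67108864⟩, ⟨2, 1, 0, 67108864⟩]]

noncomputable def f_pp_022 : ℕ → ℕ → ℕ → ℕ → Bool := onCell 0 536870912 0 536870912 67108864 67108864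
    (rowNK 3 0 true true true .pp 0 2 2 (qsf 0 536870912 0 536870912 2) ndN0q0 ndN0q2 pcN2 cut_pp_022 Ext.none)

def k0_pp_022 : ∃ t, chk3 f_pp_022 t 2 2 1 = true :=
  ⟨(a (a (a (b (b (l 18043576) (a (l 18081344) (l 18127480))) (c (b (l 18348440) (a (l 18183040) (l 18155752))) (b (a (b (l 17665872) (l 17564872)) (l 17710000)) (a (b (l 17180312) (a (l 17169296) (l 17314696))) (b (l 17567000) (l 17436592)))))) (b (l 18112488) (b (l 17978848) (a (l 17665248) (l 17802976))))) (b (a (l 18017456) (l 17908168)) (a (b (l 17875872) (l 17726616)) (b (l 17753464) (l 17601728))))) (a (b (l 17742048) (b (l 17568424) (a (l 17472880) (l 17346888)))) (b (l 17530248) (b (l 17338856) (a (l 17228168) (l 17034080)))))), by decide +kernel⟩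

def k1_pp_022 : ∃ t, chk3 f_pp_022 t 4 6 1 = true :=
  ⟨(a (b (a (a (a (b (c (l 17939192) (l 16873200)) (c (a (l 17443240) (l 17656800)) (l 16703152))) (c (b (l 17969960) (l 17703984)) (b (l 17104928) (l 16828080)))) (c (b (l 17973368) (l 17722096)) (b (a (l 17225400) (l 17310056)) (a (l 16955112) (l 17116480))))) (a (b (l 17492512) (a (l 17268704) (l 17432544))) (b (l 17647512) (l 17411912)))) (a (a (b (a (b (l 16749592) (l 16712680)) (a (l 16777128) (c (l 17326296) (l 16713152)))) (a (b (l 16715568) (a (l 16717936) (l 16720184))) (b (l 16719984) (l 16723384)))) (b (c (a (b (l 17632720) (l 17499560)) (l 17604128)) (a (l 16716288) (l 16831248))) (b (a (l 16801296) (l 16888584)) (a (l 16727400) (l 16793456))))) (b (a (c (l 17549640) (a (l 16951496) (l 17075816))) (a (l 17191376) (l 17298896))) (a (a (b (l 16963864) (l 16854264)) (b (l 17064248) (l 16931016))) (b (l 16978656) (a (l 17017056) (l 17101032))))))) (b (a (b (l 17581952) (a (l 17487040) (l 17437648))) (b (l 17459688)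 (l 17346640))) (b (a (a (l 17220976) (l 17304608)) (a (l 17248592) (l 17186136))) (b (a (a (l 17208408) (l 17193952)) (a (l 17141008) (l 17079800))) (a (a (l 17019440) (l 17114888)) (a (l 17064032) (l 16982576))))))), by decide +kernel⟩

def k2_pp_022 : ∃ t, chk3 f_pp_022 t 8 14 1 = true :=
  ⟨(a (b (a (a (b (a (l 16722056) (l 16724264)) (a (c (l 16729304) (l 16724360)) (l 16729008))) (b (a (l 16726392) (l 16728432)) (a (l 16731080) (l 16733072)))) (a (b (l 16731328) (a (l 16734984) (l 16736816))) (b (l 16734920) (l 16744616)))) (a (a (a (l 6) (a (l 6) (b (l 16734984) (l 6)))) (b (a (a (l 16735992) (l 16736984)) (b (l 16737008) (l 16739864))) (a (l 6) (b (l 16742904) (l 6))))) (b (a (a (b (l 16738880) (l 16741696)) (l 16742024)) (b (l 16743160) (l 16745896))) (a (a (b (l 16744704) (l 6)) (b (l 16746424) (l 16749592))) (b (a (l 16748048) (l 16749592)) (a (l 16751184) (l 16752688))))))) (b (b (a (a (l 16775784) (l 16811904)) (a (l 16891448) (l 16942888))) (a (a (l 16742528) (l 16741920))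 (a (l 16785664) (l 16805432)))) (a (b (a (b (l 16746216) (l 16748888)) (b (l 16748936) (l 16751536))) (a (b (l 16756976) (a (l 16754104) (l 16755440))) (b (l 16754304) (c (l 16761216) (l 16761720))))) (b (a (b (l 16814696) (l 16789232)) (b (l 16863160) (l 16800552))) (a (b (l 16756944) (a (l 16759152) (l 16760504))) (b (l 16764216) (a (l 16766744) (l 16786768)))))))), by decide +kernel⟩

def k3_pp_022 : ∃ t, chk3 f_pp_022 t 16 15 1 = true :=
  ⟨(b (a (l 6) (b (a (l 6) (a (b (l 16759752) (l 6)) (b (l 16755976) (a (l 16759136) (l 16759824))))) (l 6))) (l 6)), by decide +kernel⟩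

def k4_pp_022 : ∃ t, chk3 f_pp_022 t 34 60 1 = true :=
  ⟨(a (b (a (l 16757360) (l 16758648)) (a (a (l 16760496) (l 16761136)) (a (l 16767008) (l 16764984)))) (a (b (l 16762472) (a (l 16765568) (l 16766128))) (b (c (l 16772264) (l 16760464)) (b (l 16763456) (l 16775648))))), by decide +kernel⟩

def k5_pp_022 : ∃ t, chk3 f_pp_022 t 34 122 1 = true :=
  ⟨(b (a (a (l 16766168) (l 16767384)) (a (l 16768504) (c (l 16777528) (l 16777288)))) (a (a (l 6) (a (l 16766336) (l 16777400))) (a (a (l 16777944) (l 16778472)) (b (l 16778768) (a (l 16779440) (c (l 16791920) (l 16781264))))))), by decide +kernel⟩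

def k6_pp_022 : ∃ t, chk3 f_pp_022 t 68 123 1 = true :=
  ⟨(a (l 6) (a (l 6) (b (c (l 16779384) (l 16779224)) (l 6)))), by decide +kernel⟩

def k7_pp_022 : ∃ t, chk3 f_pp_022 t 69 246 1 = true :=
  ⟨(a (b (c (l 16779648) (l 16779592)) (b (a (l 16780088) (l 16781776)) (a (c (l 16791040) (l 16780584)) (l 16783904)))) (b (b (a (l 16781032) (c (l 16795152) (l 16784432))) (a (l 16783168) (l 16781448))) (a (b (a (l 16784416) (l 16786184)) (l 16782192)) (a (l 16783776) (b (l 16784448) (b (l 16783392) (a (c (l 16782216) (l 16781184)) (b (a (c (l 16781880) (l 16781496)) (c (l 73249336455) (l 72712464855))) (c (c (l 89892332791) (l 90429203319)) (l 85597367015)))))))))), by decide +kernel⟩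

def k8_pp_022 : ∃ t, chk3 f_pp_022 t 69 494 1 = true :=
  ⟨(b (a (a (l 16782520) (c (l 16786160) (l 16780680))) (a (c (l 16781864) (l 16781544)) (a (b (b (l 16782536) (a (l 16780976) (a (l 16782888) (a (a (l 16782928) (l 71101853175)) (l 82913013303))))) (a (a (c (a (l 16782248) (b (l 16781552) (l 66806884759))) (l 29225919271)) (b (c (c (l 43184564231) (l 16781736)) (l 16781448)) (l 87744851607))) (b (a (c (l 79154916199) (l 78081173831)) (l 98482269527)) (l 4)))) (a (a (b (b (b (l 16783056) (l 75396820567)) (l 92576689927)) (l 4)) (c (l 95797915719) (l 97408525095))) (l 4))))) (a (a (l 16779408) (l 16782928)) (a (b (a (l 16782408) (a (c (l 16781248) (l 16780888)) (b (a (l 16782728) (b (c (l 16781848) (l 16781472)) (l 82913013079))) (a (c (c (l 75396819255) (l 75396819079)) (l 74859948151)) (l 99019140199))))) (a (b (l 16783184) (a (l 16780656) (a (l 16781264) (b (l 16782824) (c (l 77007431847) (l 76470560279)))))) (b (a (a (a (l 16782776) (c (l 60364433575) (l 59290691095)))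 (c (l 83986754119) (l 83986753495))) (l 4)) (c (l 96334783559) (l 97945395591))))) (a (a (c (l 97408525831) (l 99019137847)) (l 4)) (l 4))))), by decide +kernel⟩

def k9_pp_022 : ∃ t, chk3 f_pp_022 t 69 495 1 = true :=
  ⟨(a (a (l 6) (b (b (l 16781896) (a (l 16782080) (a (l 16782056) (b (a (l 16781104) (b (l 16782680) (c (l 72712464167) (l 72175592663)))) (a (b (c (l 55532594871) (l 16781240)) (l 84523625207)) (l 98482268823)))))) (b (b (a (l 16782864) (a (a (a (l 16781168) (c (l 49090143751) (l 16781160))) (a (b (l 16782712) (l 92576688615)) (l 90429205255))) (l 97945398087))) (a (l 6) (a (c (l 92039818071) (l 93113556599)) (l 4)))) (a (l 6) (l 4))))) (a (a (b (b (b (a (c (c (l 16781416) (l 16781232)) (l 16780968)) (a (a (c (l 65196271703) (l 64122529255)) (l 84523625415)) (l 99019139959))) (a (a (a (l 16782624) (c (l 54995724167) (l 16781952))) (c (l 80765528471) (l 80228656887))) (l 97945398327))) (a (c (l 94724173047) (l 96334782471)) (l 4))) (l 4)) (l 4)) (l 4))), by decide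 +kernel⟩

def k10_pp_022 : ∃ t, chk3 f_pp_022 t 35 60 1 = true :=
  ⟨(b (a (a (c (l 16779848) (l 16761808)) (c (l 16796536) (l 16763200))) (a (c (l 16783032) (l 16775048)) (a (l 16776304) (l 16778560)))) (a (b (a (l 16764672) (l 16786912)) (a (l 16776840) (c (l 16782272) (l 16778032)))) (b (a (l 16777656) (c (l 16778320) (b (l 16788936) (l 16791312)))) (b (a (a (l 16789064) (l 16790664)) (b (l 16784160) (a (l 16795120) (l 16788008)))) (b (a (c (l 16786808) (l 16792112)) (c (l 16784808) (l 16783064))) (a (l 16783880) (a (l 16783696) (a (l 16783560) (b (a (l 16781616) (b (l 16784720) (l 71101854999))) (b (a (a (l 16782120) (l 68954370663)) (l 97408525751)) (l 89355467319))))))))))), by decide +kernel⟩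

def k11_pp_022 : ∃ t, chk3 f_pp_022 t 70 122 1 = true :=
  ⟨(b (b (a (l 16778144) (a (c (l 16774920) (l 16789560)) (l 16782040))) (a (a (l 16789200) (a (l 16789664) (l 16790904))) (a (l 16782952) (c (l 16778064) (l 16786192))))) (a (a (b (c (l 16791040) (l 16780400)) (b (c (l 16794280) (l 16783576)) (l 16785824))) (b (l 16783856) (c (l 16783064) (l 16782744)))) (a (a (b (l 16786400) (a (l 16782384) (b (l 16779536) (a (c (l 19025374183) (l 16782512)) (b (l 16781296) (b (l 49090146183) (l 89355464871))))))) (b (l 16782848) (b (c (l 16782288) (l 16783208)) (b (a (a (l 16782992) (b (l 16781816) (l 73249337815))) (b (a (a (l 16783360) (l 74859950135)) (l 92039819511)) (l 99556011815))) (c (c (l 93113561655) (l 93650429543)) (l 94724173415)))))) (a (b (l 16784536) (b (a (b (l 16782784) (b (a (l 16783280) (l 76470563319)) (l 90429208775))) (b (b (a (l 16781792) (l 57680081111)) (a (l 67343757767) (l 92576690503))) (l 99019141143))) (l 4))) (b (b (l 16785144) (b (c (l 16782952) (l 16782552))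 (b (a (l 16781784) (c (l 77544304727) (l 76470562151))) (a (a (l 16783352) (l 79691788839)) (l 99019143687))))) (b (c (l 95261045607) (l 97408525863)) (l 4))))))), by decide +kernel⟩

def k12_pp_022 : ∃ t, chk3 f_pp_022 t 71 122 1 = true :=
  ⟨(b (a (b (c (l 16782104) (a (l 16785280) (l 16783376))) (b (a (l 16783400) (a (l 16783280) (b (c (c (l 26004696391) (l 24930954311)) (l 24394083271)) (a (b (c (l 16782264) (l 16781840)) (c (l 72712466615) (l 71101853175))) (l 92039821831))))) (a (a (l 16784696) (c (c (c (l 16877890727) (l 16341019591)) (l 16341019447)) (l 16782856))) (a (a (b (c (l 16783280) (l 16781552)) (b (c (l 69491241111) (l 68417498615)) (l 97945401831))) (b (b (a (l 16782064) (l 72175595959)) (l 84523627543)) (l 4))) (l 98482273559))))) (a (b (a (b (l 16784992) (a (l 16783384) (b (l 16781696) (b (a (l 16782184) (l 79691789031)) (l 89355465703))))) (a (b (l 16780984) (b (b (c (l 16783032) (l 16781952)) (l 78081176743)) (l 99019138711))) (b (b (l 16781272) (a (l 16783344)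 (a (l 57143210727) (l 69491242023)))) (l 95797918647)))) (a (a (b (b (a (l 78081176871) (l 96871660071)) (l 4)) (l 4)) (l 4)) (l 4))) (b (a (b (b (a (a (l 16781840) (c (l 46405791447) (l 16781960))) (b (l 68417500359) (l 95797912983))) (c (l 90966080583) (l 92576692503))) (l 4)) (l 97945403559)) (l 4)))) (a (b (a (b (a (a (l 16783752) (b (l 16781416) (b (a (l 16781936) (l 65196274039)) (l 80228660295)))) (b (a (b (l 16783232) (a (l 16783472) (l 86134239895))) (c (l 89892338455) (l 90966074231))) (l 96871660359))) (a (a (b (b (a (l 16783416) (l 82376143447)) (l 94187305319)) (l 4)) (l 97945399799)) (l 4))) (l 4)) (l 4)) (l 4))), by decide +kernel⟩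

def k13_pp_022 : ∃ t, chk3 f_pp_022 t 35 123 1 = true :=
  ⟨(a (b (a (b (b (a (l 16782720) (a (l 16785248) (b (l 16783088) (a (c (c (c (l 28689050007) (l 28152179063)) (l 28152179095)) (l 27078437159)) (b (a (c (l 53921983479) (l 16781784)) (l 86671110231)) (l 96871657095)))))) (a (c (l 16782408) (l 16782048)) (a (b (b (l 16782272) (a (l 16781392) (a (c (l 16782768) (l 16781720)) (l 83986755911)))) (a (b (a (l 16781672) (c (l 60901305479) (l 59290691943))) (a (c (l 71101852823) (l 70028110343)) (l 92576690151))) (c (l 95797913111) (l 97408525079)))) (b (b (a (c (c (l 80228658807) (l 80228658423)) (l 80228658343)) (l 4)) (l 97945399335)) (l 4))))) (b (a (b (a (l 16785592) (a (c (c (l 23857211863) (l 16782296)) (l 16782656)) (b (a (c (l 16782040) (l 16781648)) (c (l 80228658327) (l 79154915783))) (c (l 93650429191) (l 94724170263))))) (a (a (l 16780968) (b (l 16782816) (a (c (l 16781968) (l 16781576)) (c (l 76470562007) (l 75933690391))))) (a (b (a (a (l 60364435111) (l 80765529991))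 (l 92576690231)) (l 98482269799)) (l 4)))) (a (c (l 97408526615) (l 99019138631)) (l 4))) (a (a (b (a (a (b (l 16781512) (b (l 16783136) (l 79691787927))) (b (b (l 16781752) (l 67880627799)) (l 92576690119))) (c (l 93113560967) (l 94724170327))) (c (l 97408526087) (l 99556008999))) (l 4)) (l 4)))) (b (b (a (a (b (a (b (a (l 16781824) (c (l 68954369383) (l 67880626791))) (c (l 82376142679) (l 81839271095))) (l 98482270087)) (l 97945399591)) (l 4)) (l 4)) (l 4)) (l 4))) (l 4)) (l 4)), by decide +kernel⟩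

def k14_pp_022 : ∃ t, chk3 f_pp_022 t 17 31 1 = true :=
  ⟨(b (a (b (a (l 6) (a (a (l 6) (a (l 6) (l 4))) (l 4))) (l 4)) (l 4)) (l 4)), by decide +kernel⟩

def k15_pp_022 : ∃ t, chk3 f_pp_022 t 18 14 1 = true :=
  ⟨(b (a (b (a (l 16995552) (l 17034288)) (a (l 16843368) (l 16885784))) (b (l 16886168) (a (l 16895768) (l 16876824)))) (b (b (a (a (l 16884376) (l 16886976)) (a (l 16876824) (l 16857952))) (a (a (l 16824032) (l 16827424)) (a (l 16796256) (c (l 16825848) (l 16790656))))) (a (a (a (b (l 16827184) (l 16778056)) (b (l 16812592) (l 16784040))) (a (b (l 16814160) (c (l 16800456) (l 16790216))) (b (l 16811800) (b (l 16809680) (l 16785824))))) (a (a (b (l 16806224) (b (l 16782496) (a (l 16791488) (a (l 16788520) (b (l 16789688) (b (l 16784832) (l 26004697607))))))) (b (l 16787552) (b (l 16784152) (b (a (l 16786264) (a (b (l 16784376) (b (l 28689050903) (l 54995725351))) (b (l 31373406695) (l 81839278967)))) (a (a (b (l 18488502919) (b (l 52311371287) (l 90966074215))) (b (b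 (l 35668371799) (l 71638726247)) (l 4))) (l 95261053415)))))) (b (b (a (l 16817592) (l 16784792)) (a (l 16779136) (b (l 16781864) (a (l 16781744) (a (b (l 16784488) (a (l 41037082279) (l 63585659351))) (b (l 42110824391) (l 92576686215))))))) (b (a (b (a (l 16790616) (a (l 16786392) (a (l 16784304) (b (l 16784768) (l 45332050007))))) (b (a (l 16782312) (a (a (l 34057759671) (a (l 51774498327) (l 74323079831))) (l 86134246039))) (a (a (l 16782888) (a (l 49090146743) (l 73249343879))) (l 97408525623)))) (b (a (b (a (l 16782776) (l 65196274407)) (l 82913015319)) (l 4)) (l 4))) (a (b (a (a (b (b (l 71101857127) (l 94724170391)) (l 4)) (l 4)) (l 4)) (l 4)) (l 4)))))))), by decide +kernel⟩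

def k16_pp_022 : ∃ t, chk3 f_pp_022 t 19 14 1 = true :=
  ⟨(b (b (a (b (l 17004280) (l 16963560)) (a (l 16918320) (l 16865824))) (a (b (l 16859528) (a (l 16894920) (l 16845728))) (a (b (l 16877720) (b (l 16846520) (l 16804664))) (b (l 16803992) (b (l 16793528) (a (l 16780600) (b (c (l 16341014311) (l 16779760)) (a (a (l 16780936) (l 35668368375)) (l 89892346839))))))))) (b (a (a (b (l 16812200) (a (l 16789648) (a (l 16789816) (l 16782648)))) (a (b (l 16811928) (b (l 16781552) (b (b (l 16784896) (a (l 16788984) (a (l 16780304) (l 55532595527)))) (a (b (l 22783469863) (a (l 39963339527) (l 77007438519))) (l 83449890055))))) (b (l 16786392) (b (b (l 16781856) (a (c (l 20635985239) (l 16781168)) (a (b (l 16783096) (l 70028115719)) (l 74859953975)))) (a (a (b (b (l 44795177047) (l 4)) (l 4)) (l 105461608967)) (l 4)))))) (b (a (a (a (l 16785224) (b (l 16808728) (b (l 16793184) (a (l 20099113399) (a (l 36742112439) (l 49090142951)))))) (b (c (l 11509177591) (l 16781360)) (b (a (b (l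 16787824) (l 32447144727)) (c (b (l 49090143111) (l 4)) (l 67880630087))) (l 104387867527)))) (b (a (b (a (l 16779416) (b (l 16780512) (l 51774498327))) (a (b (l 35131498279) (l 79154929799)) (l 4))) (l 124252088839)) (l 4))) (a (b (a (a (b (b (l 29225919959) (l 64659400695)) (l 4)) (l 112977801143)) (l 4)) (l 4)) (l 4)))) (a (b (a (b (b (a (l 16786776) (a (l 15804148583) (a (b (l 16783992) (l 62511918823)) (b (l 51774499991) (l 4))))) (b (a (l 16779864) (a (a (l 35131501703) (l 73249342583)) (l 4))) (a (a (l 16789216) (a (l 16784304) (l 46942662247))) (l 101703502775)))) (a (b (b (a (l 16784888) (a (l 57680081399) (l 4))) (a (a (l 30299663799) (l 69491241351)) (l 4))) (l 101703503895)) (l 4))) (b (a (l 119957115591) (l 4)) (l 4))) (l 4)) (l 4)))), by decide +kernel⟩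

def k17_pp_022 : ∃ t, chk3 f_pp_022 t 36 120 1 = true :=
  ⟨(b (a (a (l 16784352) (l 16789408)) (a (l 16778792) (b (l 16787648) (a (l 16784152) (a (a (l 16782560) (b (l 16782904) (b (l 16781752) (l 68417500551)))) (b (l 16783304) (a (b (l 57143210999) (l 96334783655)) (l 92576697847)))))))) (a (a (l 16778560) (l 16782640)) (b (a (a (l 16783832) (c (l 16783232) (l 16784336))) (a (a (b (l 16781936) (b (c (l 37815856135) (l 16782824)) (c (l 81839274519) (l 76470559367)))) (b (a (l 28689052119) (b (l 16783352) (l 86134246663))) (l 95797923799))) (c (l 90966084167) (l 92576693527)))) (a (a (a (l 16781360) (a (l 14193537511) (b (l 16781376) (b (l 16781912) (l 78081177143))))) (b (a (c (l 26004697191) (l 16782656)) (a (b (a (l 16782024) (l 57680081735)) (l 90966074583)) (l 88281725351))) (b (a (a (l 69491242695) (l 97408525719)) (l 4)) (l 4)))) (l 4))))), by decide +kernel⟩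

def k18_pp_022 : ∃ t, chk3 f_pp_022 t 36 121 1 = true :=
  ⟨(a (b (a (b (l 16787288) (c (l 16783712) (a (l 16785832) (l 16783912)))) (b (a (l 16785016) (b (l 16785768) (a (c (l 20635987767) (l 16783808)) (b (a (l 36205244711) (l 74323080967)) (l 88818596375))))) (b (b (a (l 16783184) (a (a (a (l 16783712) (l 71638725943)) (l 92039821831)) (l 4))) (a (a (l 16780792) (a (l 16783256) (a (l 63048791319) (l 81839273175)))) (l 98482273703))) (a (a (b (l 23857213319) (a (a (l 16783472) (l 66270016791)) (l 89355467223))) (c (l 89355467991) (l 88281725351))) (l 4))))) (a (a (a (b (l 16784208) (b (a (c (l 22783471239) (l 16784072)) (b (c (l 16782152) (l 16781720)) (c (l 83449887463) (l 79154917735)))) (l 94187306087))) (b (a (l 16785448) (b (l 16779976) (a (l 23857212311) (b (l 16781712) (l 73249338775))))) (a (b (b (b (l 60364436519) (l 86671111319)) (l 4)) (l 4)) (l 97945403159)))) (b (a (b (l 16783808) (b (a (b (l 16782016) (l 63585662055)) (l 86134241703)) (l 94724176711))) (b (b (a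 (l 16781840) (a (l 57680082087) (l 77544306039))) (a (a (l 70028113271) (l 87207982247)) (l 98482267831))) (l 4))) (l 4))) (b (a (c (l 96871662407) (l 99019145319)) (l 4)) (l 4)))) (b (a (b (a (a (b (b (c (l 30299662887) (l 16781728)) (a (a (l 55532598247) (l 76470564183)) (l 95261042071))) (l 98482268279)) (l 92576693815)) (l 4)) (l 4)) (l 4)) (l 4))), by decide +kernel⟩

def k19_pp_022 : ∃ t, chk3 f_pp_022 t 37 60 1 = true :=
  ⟨(b (a (b (a (b (a (b (l 16784064) (b (l 20635988519) (a (l 16782080) (a (l 62511920119) (l 92039816119))))) (b (c (a (a (l 16782512) (l 45868920951)) (a (l 72175597655) (l 96334784007))) (a (l 35131502055) (l 79691784599))) (l 91502956487))) (b (b (a (a (a (l 16781904) (l 71638725671)) (l 99019138359)) (l 4)) (l 90966083703)) (l 4))) (l 4)) (l 4)) (l 4)) (l 4)), by decide +kernel⟩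

def k20_pp_022 : ∃ t, chk3 f_pp_022 t 18 61 1 = true :=
  ⟨(l 4), by decide +kernel⟩

def k21_pp_022 : ∃ t, chk3 f_pp_022 t 19 30 1 = true :=
  ⟨(l 4), by decide +kernel⟩

def k22_pp_022 : ∃ t, chk3 f_pp_022 t 9 31 1 = true :=
  ⟨(l 4), by decide +kernel⟩

def k23_pp_022 : ∃ t, chk3 f_pp_022 t 5 6 1 = true :=
  ⟨(a (b (a (b (l 17329248) (l 17216496)) (b (l 17201160) (l 17004024))) (b (a (a (l 17121472) (l 17035448)) (a (l 16907992) (b (l 16963096) (b (l 16912848) (l 16857040))))) (a (b (a (l 17015528) (l 16929592)) (a (l 16834536) (a (l 16848800) (b (l 16877688) (b (l 16848440) (l 16807616)))))) (b (a (b (l 16904576) (a (l 16883520) (l 16830768))) (b (a (l 16857504) (b (l 16835976) (l 16796800))) (a (l 16778576) (b (a (l 16785912) (l 23857210487)) (a (l 34594631223) (l 83449900471)))))) (a (b (a (l 16824448) (c (b (l 16808368) (l 9361692823)) (l 8824822487))) (a (a (l 16793280) (b (l 16787184) (b (l 16782824) (a (l 16782096) (l 53921987783))))) (b (a (b (l 16786720) (l 26541563719))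 (b (l 48016406599) (l 4))) (l 104924752215)))) (b (a (b (a (l 16778880) (b (l 16781416) (l 56069482871))) (a (b (l 33520887399) (l 77544318167)) (l 4))) (l 4)) (l 4))))))) (b (b (a (l 17080928) (b (l 16996848) (l 16880328))) (a (b (l 16976416) (a (l 16966568) (l 16887848))) (b (b (l 16838296) (l 16809248)) (a (l 16811672) (b (a (l 16808240) (l 16782680)) (a (l 29762799223) (l 88818613175))))))) (b (a (b (a (l 16860960) (a (l 16817512) (l 16789376))) (a (b (a (l 16867536) (l 16817160)) (a (l 16811768) (b (l 16791224) (l 27078440919)))) (b (a (l 16783248) (b (l 37278991495) (a (l 60364451479) (l 4)))) (a (b (l 55532609399) (l 95797937495)) (l 4))))) (b (a (b (b (l 16783208) (a (l 16791088) (l 48553284535))) (a (b (l 16782872) (l 74323095351)) (b (l 92576711207) (l 4)))) (b (a (b (l 79154934535) (l 4)) (l 4)) (l 4))) (l 4))) (a (b (a (b (a (b (l 16785040) (a (l 16784816) (l 55532613847))) (c (l 94187365831) (l 95261106999))) (a (l 104924767159) (l 4))) (l 4)) (l 4)) (l 4))))), by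 decide +kernel⟩

def k24_pp_022 : ∃ t, chk3 f_pp_022 t 5 7 1 = true :=
  ⟨(a (b (b (a (b (a (a (a (l 16862656) (l 16825464)) (b (l 16842584) (a (l 16809680) (l 16788128)))) (b (a (b (l 16841160) (a (l 16829024) (l 16791632))) (b (l 6677344343) (a (c (l 10972303735) (l 16780112)) (b (a (l 16778680) (l 45332045687)) (l 80765543383))))) (a (b (b (l 16784424) (a (l 16803264) (a (l 16780448) (a (l 17414754583) (l 43721432135))))) (a (b (l 9898563847) (a (l 17414754759) (a (l 44795173287) (l 4)))) (a (a (b (l 31373399719) (l 4)) (l 87207994967)) (l 4)))) (b (a (b (a (c (l 24930948039) (l 24394077127)) (l 74859962023)) (l 4)) (l 4)) (l 4))))) (a (b (a (b (l 16802952) (a (l 16790120) (a (l 16777816) (a (l 16782144) (b (l 16793808) (l 24930946887)))))) (b (a (l 16778384) (b (c (a (l 16784608) (l 27615302247)) (l 22246593703)) (a (a (l 21172850087) (l 46405784695)) (l 4)))) (a (b (a (l 16779792) (a (l 35131494663) (l 85597377927))) (l 101166647159)) (l 4)))) (a (b (a (a (l 16783592) (b (l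 16780680) (a (l 30299657623) (l 64659403751)))) (a (b (a (l 16779776) (l 39426462471)) (l 4)) (l 112440927287))) (a (a (a (b (l 44795173239) (l 4)) (l 112977796967)) (l 4)) (l 4))) (l 4))) (b (a (b (l 116199033575) (l 4)) (l 4)) (l 4)))) (b (a (b (a (b (a (b (c (l 17951626679) (l 16779648)) (l 69491259703)) (l 95797933495)) (l 4)) (l 4)) (l 4)) (l 4)) (l 4))) (l 4)) (l 4)) (l 4)), by decide +kernel⟩

def k25_pp_022 : ∃ t, chk3 f_pp_022 t 3 1 1 = true :=
  ⟨(b (a (b (a (l 17169752) (b (l 17223616) (l 17292496))) (a (a (b (l 17185104) (b (l 17062176) (l 16886096))) (b (l 17091096) (b (l 16947072) (a (l 16836088) (l 16791272))))) (b (a (l 16898632) (b (l 16960256) (l 16862712))) (a (b (l 16797256) (b (a (l 16813976) (l 58753866391)) (a (b (l 39426490551) (l 87207992455)) (l 4)))) (b (b (a (l 16821112) (l 47479565063)) (a (l 51774538167) (l 103850996519))) (a (l 118883410631) (l 4))))))) (b (l 2) (b (l 2) (b (l 2) (l 4))))) (a (b (b (a (a (b (a (b (l 16919744) (l 16824400)) (b (l 16850120)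 (b (l 16789600) (l 33520905975)))) (b (a (b (l 16803576) (a (l 16808128) (l 66270018215))) (b (l 85597429815) (l 4))) (a (l 106535413415) (l 4)))) (b (b (a (l 20099129671) (b (l 49090173927) (l 96871663847))) (a (b (l 63048838887) (l 101703503415)) (l 4))) (l 4))) (l 4)) (l 4)) (l 4)) (l 4))), by decide +kernel⟩

theorem s26_pp_022 : ∃ t, chk3 f_pp_022 t 5 3 1 = true := ex3_b k23_pp_022 k24_pp_022

theorem s27_pp_022 : ∃ t, chk3 f_pp_022 t 36 60 1 = true := ex3_b k17_pp_022 k18_pp_022

theorem s28_pp_022 : ∃ t, chk3 f_pp_022 t 18 60 1 = true := ex3_a s27_pp_022 k19_pp_022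

theorem s29_pp_022 : ∃ t, chk3 f_pp_022 t 18 30 1 = true := ex3_b s28_pp_022 k20_pp_022

theorem s30_pp_022 : ∃ t, chk3 f_pp_022 t 9 30 1 = true := ex3_a s29_pp_022 k21_pp_022

theorem s31_pp_022 : ∃ t, chk3 f_pp_022 t 9 15 1 = true := ex3_b s30_pp_022 k22_pp_022

theorem s32_pp_022 : ∃ t, chk3 f_pp_022 t 9 14 1 = true := ex3_a k15_pp_022 k16_pp_022

theorem s33_pp_022 : ∃ t, chk3 f_pp_022 t 9 7 1 = true := ex3_b s32_pp_022 s31_pp_022

theorem s34_pp_022 : ∃ t, chk3 f_pp_022 t 35 122 1 = true := ex3_a k11_pp_022 k12_pp_022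

theorem s35_pp_022 : ∃ t, chk3 f_pp_022 t 35 61 1 = true := ex3_b s34_pp_022 k13_pp_022

theorem s36_pp_022 : ∃ t, chk3 f_pp_022 t 35 30 1 = true := ex3_b k10_pp_022 s35_pp_022

theorem s37_pp_022 : ∃ t, chk3 f_pp_022 t 69 247 1 = true := ex3_b k8_pp_022 k9_pp_022

theorem s38_pp_022 : ∃ t, chk3 f_pp_022 t 69 123 1 = true := ex3_b k7_pp_022 s37_pp_022

theorem s39_pp_022 : ∃ t, chk3 f_pp_022 t 34 123 1 = true := ex3_a k6_pp_022 s38_pp_022

theorem s40_pp_022 : ∃ t, chk3 f_pp_022 t 34 61 1 = true := ex3_b k5_pp_022 s39_pp_022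

theorem s41_pp_022 : ∃ t, chk3 f_pp_022 t 34 30 1 = true := ex3_b k4_pp_022 s40_pp_022

theorem s42_pp_022 : ∃ t, chk3 f_pp_022 t 17 30 1 = true := ex3_a s41_pp_022 s36_pp_022

theorem s43_pp_022 : ∃ t, chk3 f_pp_022 t 17 15 1 = true := ex3_b s42_pp_022 k14_pp_022

theorem s44_pp_022 : ∃ t, chk3 f_pp_022 t 8 15 1 = true := ex3_a k3_pp_022 s43_pp_022

theorem s45_pp_022 : ∃ t, chk3 f_pp_022 t 8 7 1 = true := ex3_b k2_pp_022 s44_pp_022

theorem s46_pp_022 : ∃ t, chk3 f_pp_022 t 4 7 1 = true := ex3_a s45_pp_022 s33_pp_022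

theorem s47_pp_022 : ∃ t, chk3 f_pp_022 t 4 3 1 = true := ex3_b k1_pp_022 s46_pp_022

theorem s48_pp_022 : ∃ t, chk3 f_pp_022 t 2 3 1 = true := ex3_a s47_pp_022 s26_pp_022

theorem s49_pp_022 : ∃ t, chk3 f_pp_022 t 2 1 1 = true := ex3_b k0_pp_022 s48_pp_022

theorem s50_pp_022 : ∃ t, chk3 f_pp_022 t 1 1 1 = true := ex3_a s49_pp_022 k25_pp_022

theorem c_pp_022 : CertN 0 536870912 0 536870912 67108864 67108864 3 true true true .pp 0 2 2
    ndN0q0 ndN0q2 pcN2 cut_pp_022 Ext.none :=
  certNK0 (fam := true) (s1 := true) (s2 := true) (a := 0) (b := 2) (c := 2) (cn := .pp) (n1 := ndN0q0) (n2 := ndN0q2) (pc := pcN2) (cut := cut_pp_022) (xt := Ext.none) (P1 := 0) (W1 := 536870912) (P2 := 0) (W2 := 536870912) (P3 := 67108864) (W3 := 67108864) (N0 := 3)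
    rfl rfl rfl s50_pp_022

noncomputable def f_pp_023 : ℕ → ℕ → ℕ → ℕ → Bool := onCell 1610612736 536870912 0 536870912 67108864 67108864
    (rowNK 3 2 true true true .up 0 2 3 (qsf 0 536870912 0 536870912 3) ndN0q0 ndN0q2 pcN3 Cut.none Ext.none)

def k0_pp_023 : ∃ t, chk3 f_pp_023 t 1 1 1 = true :=
  ⟨(a (b (a (b (a (b (l 17417320) (b (l 17273520) (a (l 17132720) (l 17019968)))) (b (a (l 17203216) (b (l 17145344) (l 17014904))) (b (a (l 17031232) (b (l 16930416) (l 16893392))) (a (a (l 16915808) (l 16882432)) (a (b (l 16839168) (l 54458932647)) (l 76470715959)))))) (a (b (a (b (b (l 17034792) (l 16966784)) (b (a (l 16924920) (l 16837224)) (a (l 16852640) (b (l 32447225159) (l 66270070823))))) (b (b (a (l 16950520) (l 16895152)) (a (l 16861928) (l 38352839943))) (a (b (b (l 16831216) (l 51237686999)) (l 104387892071)) (l 107609197111)))) (a (a (b (a (l 91503095319) (l 107072279415)) (l 4)) (l 4)) (l 4))) (b (b (a (a (b (l 16841088) (l 74323155543)) (l 91503098119)) (l 4)) (l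 4)) (l 4)))) (a (b (b (a (b (l 17035464) (l 16908152)) (l 2)) (a (b (a (b (l 16872696) (l 16829152)) (b (l 16823720) (l 85597420487))) (a (l 108146024727) (l 4))) (l 2))) (l 4)) (l 2))) (l 4)) (l 2)), by decide +kernel⟩

theorem c_pp_023 : CertN 0 536870912 0 536870912 67108864 67108864 3 true true true .up 0 2 3
    ndN0q0 ndN0q2 pcN3 Cut.none Ext.none :=
  certNK2 (fam := true) (s1 := true) (s2 := true) (a := 0) (b := 2) (c := 3) (cn := .up) (n1 := ndN0q0) (n2 := ndN0q2) (pc := pcN3) (cut := Cut.none) (xt := Ext.none) (P1 := 0) (W1 := 536870912) (P2 := 0) (W2 := 536870912) (P3 := 67108864) (W3 := 67108864) (N0 := 3)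
    rfl rfl rfl (fun _ => rfl) k0_pp_023

noncomputable def f_pp_101 : ℕ → ℕ → ℕ → ℕ → Bool := onCell 536870912 536870912 0 536870912 67108864 67108864
    (rowNK 3 0 true true true .npn 1 0 1 (qsf 536870912 536870912 0 536870912 1) ndN0q1 ndN0q0 pcN1 Cut.none Ext.none)

def k0_pp_101 : ∃ t, chk3 f_pp_101 t 1 1 1 = true :=
  ⟨(a (l 4) (l 5)), by decide +kernel⟩

theorem c_pp_101 : CertN 536870912 536870912 0 536870912 67108864 67108864 3 true true true .npn 1 0 1
    ndN0q1 ndN0q0 pcN1 Cut.none Ext.none :=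
  certNK0 (fam := true) (s1 := true) (s2 := true) (a := 1) (b := 0) (c := 1) (cn := .npn) (n1 := ndN0q1) (n2 := ndN0q0) (pc := pcN1) (cut := Cut.none) (xt := Ext.none) (P1 := 536870912) (W1 := 536870912) (P2 := 0) (W2 := 536870912) (P3 := 67108864) (W3 := 67108864) (N0 := 3)
    rfl rfl rfl k0_pp_101

noncomputable def f_pp_102 : ℕ → ℕ → ℕ → ℕ → Bool := onCell 536870912 536870912 0 536870912 67108864 67108864
    (rowNK 3 0 true true true .npp 1 0 2 (qsf 536870912 536870912 0 536870912 2) ndN0q1 ndN0q0 pcN2 Cut.none Ext.none)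

def k0_pp_102 : ∃ t, chk3 f_pp_102 t 1 1 1 = true :=
  ⟨(b (l 5) (l 4)), by decide +kernel⟩

theorem c_pp_102 : CertN 536870912 536870912 0 536870912 67108864 67108864 3 true true true .npp 1 0 2
    ndN0q1 ndN0q0 pcN2 Cut.none Ext.none :=
  certNK0 (fam := true) (s1 := true) (s2 := true) (a := 1) (b := 0) (c := 2) (cn := .npp) (n1 := ndN0q1) (n2 := ndN0q0) (pc := pcN2) (cut := Cut.none) (xt := Ext.none) (P1 := 536870912) (W1 := 536870912) (P2 := 0) (W2 := 536870912) (P3 := 67108864) (W3 := 67108864) (N0 := 3)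
    rfl rfl rfl k0_pp_102

noncomputable def f_pp_112 : ℕ → ℕ → ℕ → ℕ → Bool := onCell 536870912 536870912 536870912 536870912 67108864 67108864
    (rowNK 3 0 true true true .dn 1 1 2 (qsf 536870912 536870912 536870912 536870912 2) ndN0q1 ndN0q1 pcN2 Cut.none Ext.none)

def k0_pp_112 : ∃ t, chk3 f_pp_112 t 1 1 1 = true :=
  ⟨(l 4), by decide +kernel⟩

theorem c_pp_112 : CertN 536870912 536870912 536870912 536870912 67108864 67108864 3 true true true .dn 1 1 2
    ndN0q1 ndN0q1 pcN2 Cut.none Ext.none :=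
  certNK0 (fam := true) (s1 := true) (s2 := true) (a := 1) (b := 1) (c := 2) (cn := .dn) (n1 := ndN0q1) (n2 := ndN0q1) (pc := pcN2) (cut := Cut.none) (xt := Ext.none) (P1 := 536870912) (W1 := 536870912) (P2 := 536870912) (W2 := 536870912) (P3 := 67108864) (W3 := 67108864) (N0 := 3)
    rfl rfl rfl k0_pp_112

noncomputable def f_pp_113 : ℕ → ℕ → ℕ → ℕ → Bool := onCell 536870912 536870912 536870912 536870912 67108864 67108864
    (rowNK 3 0 true true true .nn 1 1 3 (qsf 536870912 536870912 536870912 536870912 3) ndN0q1 ndN0q1 pcN3 Cut.none Ext.none)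

def k0_pp_113 : ∃ t, chk3 f_pp_113 t 1 1 1 = true :=
  ⟨(l 4), by decide +kernel⟩

theorem c_pp_113 : CertN 536870912 536870912 536870912 536870912 67108864 67108864 3 true true true .nn 1 1 3
    ndN0q1 ndN0q1 pcN3 Cut.none Ext.none :=
  certNK0 (fam := true) (s1 := true) (s2 := true) (a := 1) (b := 1) (c := 3) (cn := .nn) (n1 := ndN0q1) (n2 := ndN0q1) (pc := pcN3) (cut := Cut.none) (xt := Ext.none) (P1 := 536870912) (W1 := 536870912) (P2 := 536870912) (W2 := 536870912) (P3 := 67108864) (W3 := 67108864) (N0 := 3)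
    rfl rfl rfl k0_pp_113

noncomputable def f_pp_123 : ℕ → ℕ → ℕ → ℕ → Bool := onCell 536870912 536870912 0 536870912 67108864 67108864
    (rowNK 3 0 true true true .npn 1 2 3 (qsf 536870912 536870912 0 536870912 3) ndN0q1 ndN0q2 pcN3 Cut.none Ext.none)

def k0_pp_123 : ∃ t, chk3 f_pp_123 t 1 1 1 = true :=
  ⟨(a (b (b (a (a (b (a (b (a (l 16962336) (l 16911336)) (b (l 16883096) (a (l 16837176) (l 64122597143)))) (a (b (l 16861832) (l 86134341095)) (b (l 49627118583) (l 4)))) (a (b (a (l 88818696455) (l 4)) (l 4)) (l 4))) (b (a (b (a (l 85597469991) (l 4)) (l 4)) (l 4)) (l 4))) (l 4)) (l 4)) (l 4)) (l 4)), by decide +kernel⟩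

theorem c_pp_123 : CertN 536870912 536870912 0 536870912 67108864 67108864 3 true true true .npn 1 2 3
    ndN0q1 ndN0q2 pcN3 Cut.none Ext.none :=
  certNK0 (fam := true) (s1 := true) (s2 := true) (a := 1) (b := 2) (c := 3) (cn := .npn) (n1 := ndN0q1) (n2 := ndN0q2) (pc := pcN3) (cut := Cut.none) (xt := Ext.none) (P1 := 536870912) (W1 := 536870912) (P2 := 0) (W2 := 536870912) (P3 := 67108864) (W3 := 67108864) (N0 := 3)
    rfl rfl rfl k0_pp_123

noncomputable def f_pp_202 : ℕ → ℕ → ℕ → ℕ → Bool := onCell 0 536870912 0 536870912 67108864 67108864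
    (rowNK 3 0 true true true .pp 2 0 2 (qsf 0 536870912 0 536870912 2) ndN0q2 ndN0q0 pcN2 Cut.none Ext.none)

def k0_pp_202 : ∃ t, chk3 f_pp_202 t 1 1 1 = true :=
  ⟨(l 5), by decide +kernel⟩

theorem c_pp_202 : CertN 0 536870912 0 536870912 67108864 67108864 3 true true true .pp 2 0 2
    ndN0q2 ndN0q0 pcN2 Cut.none Ext.none :=
  certNK0 (fam := true) (s1 := true) (s2 := true) (a := 2) (b := 0) (c := 2) (cn := .pp) (n1 := ndN0q2) (n2 := ndN0q0) (pc := pcN2) (cut := Cut.none) (xt := Ext.none) (P1 := 0) (W1 := 536870912) (P2 := 0) (W2 := 536870912) (P3 := 67108864) (W3 := 67108864) (N0 := 3)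
    rfl rfl rfl k0_pp_202

noncomputable def f_pp_203 : ℕ → ℕ → ℕ → ℕ → Bool := onCell 0 536870912 0 536870912 67108864 67108864
    (rowNK 3 0 true true true .up 2 0 3 (qsf 0 536870912 0 536870912 3) ndN0q2 ndN0q0 pcN3 Cut.none Ext.none)

def k0_pp_203 : ∃ t, chk3 f_pp_203 t 1 1 1 = true :=
  ⟨(l 5), by decide +kernel⟩

theorem c_pp_203 : CertN 0 536870912 0 536870912 67108864 67108864 3 true true true .up 2 0 3
    ndN0q2 ndN0q0 pcN3 Cut.none Ext.none :=
  certNK0 (fam := true) (s1 := true) (s2 := true) (a := 2) (b := 0) (c := 3) (cn := .up) (n1 := ndN0q2) (n2 := ndN0q0) (pc := pcN3) (cut := Cut.none) (xt := Ext.none) (P1 := 0) (W1 := 536870912) (P2 := 0) (W2 := 536870912) (P3 := 67108864) (W3 := 67108864) (N0 := 3)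
    rfl rfl rfl k0_pp_203

noncomputable def f_pp_213 : ℕ → ℕ → ℕ → ℕ → Bool := onCell 0 536870912 536870912 536870912 67108864 67108864
    (rowNK 3 0 true true true .pnn 2 1 3 (qsf 0 536870912 536870912 536870912 3) ndN0q2 ndN0q1 pcN3 Cut.none Ext.none)

def k0_pp_213 : ∃ t, chk3 f_pp_213 t 1 1 1 = true :=
  ⟨(a (l 5) (l 4)), by decide +kernel⟩

theorem c_pp_213 : CertN 0 536870912 536870912 536870912 67108864 67108864 3 true true true .pnn 2 1 3
    ndN0q2 ndN0q1 pcN3 Cut.none Ext.none :=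
  certNK0 (fam := true) (s1 := true) (s2 := true) (a := 2) (b := 1) (c := 3) (cn := .pnn) (n1 := ndN0q2) (n2 := ndN0q1) (pc := pcN3) (cut := Cut.none) (xt := Ext.none) (P1 := 0) (W1 := 536870912) (P2 := 536870912) (W2 := 536870912) (P3 := 67108864) (W3 := 67108864) (N0 := 3)
    rfl rfl rfl k0_pp_213

noncomputable def f_pm_001 : ℕ → ℕ → ℕ → ℕ → Bool := onCell 0 536870912 0 536870912 67108864 67108864
    (rowNK 3 0 true true false .up 0 0 1 (qsf 0 536870912 0 536870912 1) ndN0q0 ndN0q0 pcN1 Cut.none Ext.none)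

def k0_pm_001 : ∃ t, chk3 f_pm_001 t 1 1 1 = true :=
  ⟨(l 3), by decide +kernel⟩

theorem c_pm_001 : CertN 0 536870912 0 536870912 67108864 67108864 3 true true false .up 0 0 1
    ndN0q0 ndN0q0 pcN1 Cut.none Ext.none :=
  certNK0 (fam := true) (s1 := true) (s2 := false) (a := 0) (b := 0) (c := 1) (cn := .up) (n1 := ndN0q0) (n2 := ndN0q0) (pc := pcN1) (cut := Cut.none) (xt := Ext.none) (P1 := 0) (W1 := 536870912) (P2 := 0) (W2 := 536870912) (P3 := 67108864) (W3 := 67108864) (N0 := 3)
    rfl rfl rfl k0_pm_001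

noncomputable def cut_pm_011 : Cut := Cut.of [[⟨0, 0, 0, 67108864⟩, ⟨1, 1, 0, 67108864⟩, ⟨2, 1, 0, 67108864⟩]]

noncomputable def f_pm_011 : ℕ → ℕ → ℕ → ℕ → Bool := onCell 536870912 536870912 536870912 536870912 67108864 67108864
    (rowNK 3 2 true true false .pnn 0 1 1 (qsf 0 536870912 536870912 536870912 1) ndN0q0 ndN0q1 pcN1 cut_pm_011 Ext.none)

def k0_pm_011 : ∃ t, chk3 f_pm_011 t 1 1 1 = true :=
  ⟨(a (l 3) (b (l 3) (a (l 3) (b (l 3) (a (l 3) (b (l 3) (a (l 3) (b (l 3) (l 6))))))))), by decide +kernel⟩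

theorem c_pm_011 : CertN 0 536870912 536870912 536870912 67108864 67108864 3 true true false .pnn 0 1 1
    ndN0q0 ndN0q1 pcN1 cut_pm_011 Ext.none :=
  certNK2 (fam := true) (s1 := true) (s2 := false) (a := 0) (b := 1) (c := 1) (cn := .pnn) (n1 := ndN0q0) (n2 := ndN0q1) (pc := pcN1) (cut := cut_pm_011) (xt := Ext.none) (P1 := 0) (W1 := 536870912) (P2 := 536870912) (W2 := 536870912) (P3 := 67108864) (W3 := 67108864) (N0 := 3)
    rfl rfl rfl (fun _ => rfl) k0_pm_011

noncomputable def cut_pm_012 : Cut := Cut.of [[⟨0, 0, 0, 67108864⟩, ⟨1, 1, 0, 67108864⟩, ⟨2, 1, 0, 67108864⟩], [⟨0, 0, 1, 33554432⟩, ⟨1, 1, 0, 8388608⟩, ⟨2, 1, 1, 33554432⟩, ⟨0, 0, 0, 150994944⟩, ⟨0, 1, 0, 1023410176⟩, ⟨2, 1, 0, 150994944⟩, ⟨2, 2, 0, 1023410176⟩]]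

noncomputable def f_pm_012 : ℕ → ℕ → ℕ → ℕ → Bool := onCell 1073741824 536870912 536870912 536870912 67108864 67108864
    (rowNK 3 2 true true false .pnp 0 1 2 (qsf 0 536870912 536870912 536870912 2) ndN0q0 ndN0q1 pcN2 cut_pm_012 Ext.none)

def k0_pm_012 : ∃ t, chk3 f_pm_012 t 2 2 1 = true :=
  ⟨(a (b (l 3) (l 3)) (b (a (a (a (l 3) (l 2)) (l 2)) (l 2)) (a (a (a (b (l 3) (b (l 3) (a (l 3) (l 122037618887)))) (a (b (b (l 3) (l 130090658407)) (b (l 118816386039) (l 16843960))) (a (b (b (l 16822768) (l 16834880)) (l 16879856)) (b (a (l 16873064) (l 16846672)) (a (l 16862656) (l 16845768)))))) (b (a (l 16870832) (l 16841768)) (a (l 16888280) (l 16864952)))) (b (l 17071968) (b (l 16935680) (l 16968288)))))), by decide +kernel⟩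

def k1_pm_012 : ∃ t, chk3 f_pm_012 t 4 6 1 = true :=
  ⟨(a (l 3) (a (b (l 3) (a (l 3) (b (l 3) (a (l 3) (b (l 3) (a (l 3) (b (l 3) (a (l 110763240247) (l 88214675591))))))))) (b (a (l 3) (b (l 3) (a (b (l 3) (l 123111309591)) (b (l 122574427671) (l 83919755095))))) (a (b (a (l 3) (b (l 3) (a (l 122037552231) (l 114521341367)))) (a (b (b (l 120963812423) (a (l 120963803175) (l 115595076487))) (a (b (l 116668817703) (l 16812968)) (b (l 16802320) (l 16814480)))) (b (b (l 78551020311) (l 16815128)) (b (l 16821952) (l 16839632))))) (b (a (b (a (l 106468290631) (l 16828344)) (a (l 16823384) (l 16809256))) (b (l 16827400) (l 16831368))) (b (a (l 16829976) (l 16862816)) (a (l 16864888) (l 16898864)))))))), by decide +kernel⟩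

def k2_pm_012 : ∃ t, chk3 f_pm_012 t 16 7 1 = true :=
  ⟨(b (l 3) (b (a (l 3) (b (l 3) (a (l 3) (b (l 3) (a (l 3) (b (l 3) (b (a (l 3) (a (a (l 3) (a (l 3) (b (l 3) (l 115058159191)))) (b (a (l 3) (a (l 116668772695) (l 110226325959))) (b (a (l 115058158583) (a (l 74792842967) (l 16782176))) (b (a (l 79624681159) (l 16781848)) (l 22179492087)))))) (a (b (l 3) (l 6)) (a (a (b (b (l 116668771607) (a (l 6) (l 73719100487))) (l 6)) (b (a (b (l 89825228215) (l 16783120)) (l 27548201191)) (l 16780504))) (l 16782712)))))))))) (b (a (l 6) (a (l 6) (b (a (l 6) (b (b (a (l 6) (c (l 16782992) (l 16782760))) (l 6)) (l 6))) (l 6)))) (l 6)))), by decide +kernel⟩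

def k3_pm_012 : ∃ t, chk3 f_pm_012 t 17 14 1 = true :=
  ⟨(b (l 3) (a (l 3) (b (l 3) (a (b (l 3) (a (l 3) (b (l 3) (b (a (l 3) (a (l 3) (b (l 117205663671) (l 118816273111)))) (b (a (l 3) (a (l 114521306183) (a (l 103783888007) (l 16791160)))) (a (c (l 111836955399) (l 120963758455)) (a (a (l 100025792679) (l 16790432)) (l 16791008)))))))) (b (a (b (l 3) (a (l 3) (a (l 3) (b (l 3) (a (l 117205667703) (l 114521311255)))))) (b (a (l 3) (a (b (l 3) (c (l 110763219127) (l 116668796231))) (b (c (l 111836963719) (l 118279411527)) (c (l 81235323623) (b (l 107541993255) (l 16794120)))))) (b (a (c (a (l 112910703783) (l 116131924231)) (a (l 119890022647) (b (l 116668795079) (l 106468249287)))) (a (b (l 16794152) (l 16795064)) (l 16794632))) (a (a (b (a (l 113447569143) (l 16794416)) (l 16793096)) (l 16794416)) (l 16793680))))) (b (a (b (b (a (l 3) (a (l 115595052807) (a (l 103247020487) (l 16792760)))) (a (c (l 113984444119) (l 121500634055)) (a (a (l 113447566823) (l 106468245847)) (l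 16793592)))) (a (a (c (l 111836957111) (l 119353147271)) (b (l 113447566391) (a (l 105931374087) (l 16791768)))) (b (a (l 16792128) (l 16792512)) (l 16791848)))) (a (a (l 16791872) (l 16793256)) (l 16797440))) (a (a (b (a (b (a (l 109152598295) (l 16791496)) (l 16791592)) (l 16791760)) (l 16789720)) (l 16791544)) (l 16800392)))))))), by decide +kernel⟩

def k4_pm_012 : ∃ t, chk3 f_pm_012 t 34 60 1 = true :=
  ⟨(a (l 3) (b (l 3) (a (a (l 3) (b (l 3) (b (a (l 3) (a (l 3) (c (l 112373814775) (l 122037489607)))) (b (a (l 118279393575) (a (a (l 116131907415) (l 84993399127)) (c (l 58686723671) (l 16787248)))) (a (a (l 115595036359) (a (l 82845915127) (l 16788664))) (l 16787984)))))) (b (a (b (l 3) (a (l 3) (b (l 115058170535) (a (l 117742522487) (l 80698432855))))) (a (b (b (l 3) (l 118816266503)) (b (a (l 109689458551) (l 16789440)) (l 16789408))) (b (a (b (l 115058170647) (l 83919659031)) (b (l 99488916023) (l 16787752))) (l 16786104)))) (a (b (a (b (c (l 107541975383) (l 115058166615))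 (a (l 76940335799) (l 16786376))) (a (b (l 61907950599) (l 16785736)) (l 16785736))) (l 16786448)) (l 16787352)))))), by decide +kernel⟩

def k5_pm_012 : ∃ t, chk3 f_pm_012 t 68 61 1 = true :=
  ⟨(b (a (b (l 3) (a (l 3) (a (l 3) (a (l 3) (b (l 3) (b (l 3) (l 116131903895))))))) (b (a (l 3) (b (l 3) (b (a (l 3) (c (l 112373811639) (l 122574357639))) (b (a (l 3) (a (l 113984421863) (l 77477203383))) (a (l 114521294023) (a (l 84456525175) (l 16784576))))))) (a (a (b (l 3) (b (a (l 3) (c (l 106468227719) (l 114521290327))) (b (a (l 113447548231) (c (l 56002363175) (l 16783536))) (c (l 32380040823) (l 16783904))))) (b (b (l 3) (a (l 117742518023) (a (l 111836936487) (l 79624686695)))) (a (b (b (l 83382782087) (l 16786448)) (l 16782792)) (l 16785408)))) (b (a (b (a (l 115595034055) (b (l 90362105239) (l 16786448))) (c (l 24863851271) (l 16786248))) (l 16785776)) (l 16785992))))) (b (a (a (b (l 3) (b (a (l 3) (a (c (l 111836935959) (l 121500611399)) (b (l 115595030711) (a (l 82845907927)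 (l 16785496))))) (a (a (l 3) (b (l 117742514663) (l 81235295735))) (b (a (c (l 75329715271) (l 74792843735)) (l 16782408)) (l 16782040))))) (a (a (b (b (l 3) (a (l 117205644791) (l 110226327159))) (b (c (l 29158815639) (l 16785168)) (l 16781256))) (b (b (l 117205646055) (b (l 86067135255) (a (l 16784496) (l 16782944)))) (l 16786496))) (b (b (a (b (l 118279386727) (l 80161555351)) (b (a (l 88214618327) (l 16783560)) (l 16783136))) (l 16785040)) (l 16785256)))) (b (a (l 16786048) (l 16787896)) (a (l 16787960) (l 16784528)))) (a (a (b (b (a (a (b (c (l 86604004039) (l 87677745207)) (a (l 65666037527) (l 16782200))) (l 16784656)) (l 16780872)) (l 16785312)) (l 16782832)) (b (l 16782784) (c (l 16784784) (l 16784584)))) (a (a (l 16782472) (l 16782064)) (b (l 16781152) (l 16778608)))))), by decide +kernel⟩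

def k6_pm_012 : ∃ t, chk3 f_pm_012 t 69 61 1 = true :=
  ⟨(b (b (a (a (a (a (b (l 3) (b (c (l 79087817783) (l 79087816647)) (l 16784264))) (b (b (l 3) (a (l 118279390071) (l 91972719815))) (l 16785176))) (b (b (a (l 118816262151) (a (l 111836938871) (l 80161560135))) (b (a (l 84993397415) (l 16785296)) (l 16786280))) (l 16783120))) (b (c (c (l 16786752) (l 16786648)) (l 16786856)) (l 16791096))) (a (l 16789320) (l 16785800))) (a (c (a (l 16784464) (l 16779808)) (a (l 16784040) (l 16785848))) (c (l 16776944) (c (l 16780680) (l 16780560))))) (a (b (a (b (l 16784432) (l 16781048)) (c (c (l 16794160) (l 16789752)) (l 16779152))) (c (a (l 16777944) (l 16787728)) (l 16771224))) (a (b (b (l 16787880) (l 16787040)) (l 16776432)) (b (l 16786360) (l 16775744))))), by decide +kernel⟩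

def k7_pm_012 : ∃ t, chk3 f_pm_012 t 34 31 1 = true :=
  ⟨(b (b (b (a (b (a (a (a (l 16785592) (a (l 16784320) (l 16783472))) (l 16781344)) (a (l 16779216) (l 16778424))) (a (a (l 16781424) (l 16779800)) (a (l 16778984) (l 16767720)))) (a (c (a (l 16767224) (l 16766544)) (l 16767832)) (a (l 16766952) (l 16764968)))) (b (a (a (a (l 6) (l 16779520)) (c (l 16769304) (l 16767672))) (a (l 16767648) (l 16764960))) (a (a (l 6) (a (l 16767920) (l 16767152))) (a (l 16768016) (l 16764696))))) (a (a (l 6) (a (l 6) (b (b (l 16766816) (l 6)) (l 6)))) (b (b (a (a (l 16766088) (l 16765384)) (l 16765704)) (a (c (l 16765784) (l 16764936)) (a (l 16764304) (l 16767544)))) (a (b (a (l 6) (l 16764648)) (l 6)) (a (b (l 16764168) (l 16763896)) (b (l 16763560) (l 16763368))))))) (a (l 6) (b (b (b (a (l 6) (a (l 6) (l 16763128))) (l 6)) (l 6)) (l 6)))), by decide +kernel⟩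

def k8_pm_012 : ∃ t, chk3 f_pm_012 t 35 30 1 = true :=
  ⟨(b (a (a (a (b (b (l 3) (a (b (l 3) (b (l 115595043751) (a (l 118279395751) (l 86604014295)))) (b (b (l 3) (l 119353139703)) (b (a (l 102173271431) (l 16788416)) (l 16788192))))) (b (b (b (b (a (l 16789640) (l 16787192)) (l 16787192)) (l 16786080)) (l 16783680)) (l 16789104))) (b (b (b (l 3) (a (c (l 111300082087) (l 121500627159)) (b (l 115595045927) (a (l 112373818007) (l 89825241367))))) (b (b (c (a (l 114521302103) (l 16789952)) (a (l 118816267495) (l 16789016))) (a (a (l 88751498663) (l 16789136)) (l 16788272))) (l 16789432))) (b (l 16792392) (l 16777392)))) (b (b (a (a (b (b (l 3) (l 119353141895)) (b (a (l 105394498743) (l 16789680)) (l 16789592))) (b (c (b (l 113984433511) (l 16792960)) (b (l 117742527831) (l 69961019015))) (l 16789000))) (a (a (b (l 16790600) (l 16787880)) (l 16788624)) (l 16787560))) (c (l 16788184) (l 16788272))) (b (l 16786368) (l 16782928)))) (b (a (b (l 16793088) (l 16796248)) (l 16783160))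 (a (b (l 16797024) (l 16794368)) (a (l 16785848) (l 16793840))))) (a (b (a (b (c (l 16803128) (l 16790776)) (c (l 16781960) (a (l 16785776) (l 16784912)))) (b (l 16785088) (l 16784016))) (a (a (b (l 16785680) (l 16764592)) (b (l 16764056) (l 16763960))) (b (l 16780168) (a (l 16763360) (l 16762792))))) (b (b (a (l 16787216) (l 16803568)) (a (l 16774304) (l 16792576))) (b (a (l 16782992) (l 16775088)) (a (l 16763304) (l 16761048)))))), by decide +kernel⟩

def k9_pm_012 : ∃ t, chk3 f_pm_012 t 35 62 1 = true :=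
  ⟨(a (b (a (a (b (l 16764320) (l 16763896)) (b (l 16763712) (l 16763304))) (b (a (l 16763128) (l 16762576)) (a (l 16765520) (b (l 16762320) (l 16762160))))) (b (a (a (b (c (l 16768984) (l 16767904)) (l 16765768)) (b (l 16768216) (l 16762736))) (b (l 16765944) (l 16764568))) (b (a (a (l 16763056) (l 16762544)) (l 16764328)) (c (a (l 16765896) (l 16762296)) (a (l 16761744) (l 16760544)))))) (b (b (a (l 16763120) (a (l 16761328) (a (l 16761008) (l 16771232)))) (b (a (a (l 16761952) (l 16761384)) (l 16760576)) (a (l 16763888) (l 16760544)))) (b (a (a (l 16761416) (l 16760960)) (a (l 16760520) (l 16760080))) (b (a (l 16763360) (l 16759808)) (a (l 16763056) (l 16762104)))))), by decide +kernel⟩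

def k10_pm_012 : ∃ t, chk3 f_pm_012 t 70 63 1 = true :=
  ⟨(b (a (b (b (a (l 16762608) (l 16762056)) (a (l 16764944) (l 16761752))) (a (l 6) (b (c (l 16762384) (l 16760424)) (l 6)))) (a (b (b (l 16761536) (l 16761216)) (b (l 16764144) (c (l 16761568) (l 16759376)))) (b (b (l 16761024) (l 16760696)) (b (l 16762952) (c (l 16761072) (l 16758768)))))) (a (l 6) (a (l 6) (b (b (b (l 16762216) (l 6)) (l 6)) (l 6))))), by decide +kernel⟩

def k11_pm_012 : ∃ t, chk3 f_pm_012 t 71 63 1 = true :=
  ⟨(b (b (b (c (a (l 16761144) (l 16760288)) (a (l 16759048) (l 16757968))) (c (a (l 16763448) (l 16759952)) (a (l 16758616) (l 16757512)))) (b (a (a (l 16762424) (l 16761896)) (a (l 16761384) (l 16760872))) (b (c (a (l 16762808) (l 16759272)) (a (l 16757768) (l 16756632))) (c (a (l 16762600) (l 16761680)) (a (l 16757504) (l 16756360)))))) (a (a (b (b (c (l 16762152) (l 16757664)) (a (l 6) (b (l 16761120) (l 6)))) (l 6)) (b (b (c (l 16761008) (l 16757056)) (b (a (l 16760840) (l 16760560)) (c (l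 16759128) (l 16756352)))) (a (l 6) (b (b (c (l 16758840) (l 16755968)) (l 6)) (l 6))))) (c (b (a (b (l 16760520) (a (l 16760256) (l 16760008))) (b (l 16758736) (a (l 16759760) (l 16759520)))) (c (l 14) (c (l 14) (b (a (b (l 16757280) (l 16757000)) (b (l 16756744) (l 16756456))) (a (a (l 6) (b (l 16756656) (l 6))) (c (l 14) (b (a (l 16756176) (l 16755896)) (b (a (l 16755952) (l 16755672)) (a (l 6) (a (l 16755608) (l 16755464))))))))))) (b (a (b (l 16756464) (a (l 16756112) (l 16755808))) (b (l 16755880) (a (l 16755512) (l 16755208)))) (b (a (b (l 16755440) (c (l 16755880) (l 16754368))) (b (l 16754832) (c (l 16755288) (l 16753728)))) (b (b (a (c (l 16755648) (l 16754112)) (c (l 16755056) (l 16753472))) (a (l 6) (a (l 16755632) (l 16755328)))) (a (l 6) (b (a (c (l 16754960) (l 16753360)) (c (l 16754656) (l 16753032))) (a (l 6) (c (b (l 16754536) (a (l 6) (l 16754400))) (l 16752856))))))))))), by decide +kernel⟩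

def k12_pm_012 : ∃ t, chk3 f_pm_012 t 18 28 1 = true :=
  ⟨(a (b (l 3) (a (l 3) (b (a (l 3) (b (l 3) (a (l 3) (l 115595072215)))) (a (b (l 3) (a (l 3) (b (l 118279424407) (l 114521322551)))) (b (a (l 115595069767) (b (l 121500644439) (l 16798432))) (a (a (l 89825268039) (l 16797992)) (l 16800168))))))) (b (a (b (l 3) (a (b (l 3) (l 116131951927)) (b (l 124185008679) (a (l 112910713639) (l 16799536))))) (a (a (b (l 121500656279) (l 16812040)) (b (l 102173295639) (l 16805544))) (b (l 49023094759) (l 16816880)))) (a (b (b (a (a (l 117205687175) (l 110763228167)) (l 16801368)) (a (a (l 104857646167) (l 16800432)) (l 16807320))) (a (b (c (l 16804184) (l 16799416)) (l 16809392)) (l 16821392))) (b (l 16806728) (l 16848872))))), by decide +kernel⟩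

def k13_pm_012 : ∃ t, chk3 f_pm_012 t 18 29 1 = true :=
  ⟨(a (a (a (b (b (l 3) (b (a (l 3) (a (l 3) (b (l 3) (l 111300093607)))) (a (b (c (l 116668809047) (a (l 3) (l 123111254231))) (c (a (l 112373837367) (l 111300093031)) (a (l 119353155879) (b (l 114521315351) (l 93583355351))))) (a (b (c (l 107541997111) (l 113447573975)) (c (l 16796424) (l 16795320))) (b (b (l 107541996759) (l 16796080)) (l 16796928)))))) (b (b (a (b (a (b (l 111836960183) (l 16795248)) (l 16796352)) (l 16795352)) (l 16797360)) (l 16800608)) (l 16790832))) (b (b (b (l 3) (a (b (l 3) (c (l 115595068343) (l 122574386455))) (b (l 116131934855) (a (l 107005125831) (l 16797000))))) (a (a (b (b (l 117205675335) (c (l 94120229751) (l 102710160135))) (l 16796832)) (b (b (c (l 89825263783) (l 117742541063)) (l 16797032)) (l 16798264))) (b (b (l 16798512) (l 16798096)) (l 16802712)))) (b (l 16790696) (l 16807496)))) (b (b (a (b (b (a (l 117205679719) (l 86604039831)) (a (c (l 118279417911) (l 124184994583)) (l 16799408)))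 (a (a (a (l 79087844471) (l 16797536)) (l 16798528)) (l 16800976))) (b (l 16803192) (l 16811880))) (a (l 16799200) (l 16826888))) (b (a (l 16828768) (l 16847080)) (a (l 16846520) (l 16865536))))) (b (a (b (l 16791344) (l 16833816)) (b (l 16870984) (l 16893360))) (a (b (l 16854872) (l 16832368)) (b (l 16915344) (l 16915152))))), by decide +kernel⟩

def k14_pm_012 : ∃ t, chk3 f_pm_012 t 144 15 1 = true :=
  ⟨(b (b (b (l 16792368) (a (l 16802448) (l 16811584))) (b (a (l 16780848) (l 16782264)) (b (l 16777928) (l 16776904)))) (b (b (b (b (l 16770752) (l 16759944)) (l 16762104)) (a (b (l 16759648) (l 16761056)) (b (l 16759232) (l 16759952)))) (b (b (b (l 16760808) (a (l 16758184) (l 16757704))) (b (a (l 16760376) (l 16757264)) (c (c (l 16760864) (l 16760176)) (c (l 16756112) (l 16754656))))) (a (b (b (c (l 16758264) (l 16755304)) (c (a (l 16757960) (l 14)) (c (l 16755480) (l 16753936)))) (a (c (a (c (l 14) (b (l 16756744) (a (b (l 16756352) (b (l 16756128) (c (l 14) (l 16755568))))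 (l 14)))) (l 14)) (b (b (l 16754448) (l 16754128)) (b (c (l 16754608) (l 16752976)) (b (c (l 16754360) (l 16752712)) (c (b (l 16754240) (a (l 16754248) (l 16754096))) (l 16752536)))))) (c (l 14) (b (b (l 16754144) (l 16753824)) (b (c (l 16754312) (l 16752656)) (b (c (l 16754072) (l 16752392)) (c (b (l 16753944) (a (l 16753952) (l 16753800))) (l 16752216)))))))) (b (b (c (l 16757800) (l 16754728)) (c (l 14) (c (l 16754920) (l 16753320)))) (c (l 14) (b (b (l 16753640) (c (l 16754144) (l 16752480))) (a (b (c (l 16754024) (l 16752344)) (b (c (l 16753776) (l 16752072)) (c (b (l 16753648) (a (l 16753656) (l 16754824))) (l 16751896)))) (b (c (l 16753736) (l 16752032)) (b (c (l 16753488) (l 16751760)) (c (b (l 16753360) (a (l 16754672) (l 16754528))) (l 16751576)))))))))))), by decide +kernel⟩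

def k15_pm_012 : ∃ t, chk3 f_pm_012 t 145 15 1 = true :=
  ⟨(b (b (b (l 16799504) (l 16784192)) (b (c (l 16881592) (l 16758560)) (b (l 16782736) (a (l 16777832) (l 16771768))))) (b (b (b (l 16758696) (l 16760336)) (b (a (l 16758816) (l 16758408)) (a (l 16759512) (l 16759080)))) (b (b (b (l 16759896) (c (l 16758136) (l 16755392))) (b (c (l 16757512) (l 16754864)) (c (a (l 16757816) (l 16757376)) (l 16758232)))) (c (b (b (a (l 16757344) (l 16756896)) (l 14)) (l 14)) (a (b (b (l 16754168) (c (l 16754376) (l 16752720))) (b (b (l 16753064) (c (l 16753584) (l 16751864))) (a (b (c (l 16753456) (l 16751720)) (b (c (l 16753200) (l 16751440)) (c (c (a (l 16753560) (l 16753416)) (l 16752592)) (l 16751264)))) (b (c (l 16753168) (l 16751408)) (b (c (l 16752912) (l 16751128)) (c (c (c (l 14) (l 16752968)) (l 16752296)) (l 16750944))))))) (b (b (l 16753608) (c (l 16753832) (l 16752128))) (b (b (l 16752488) (c (l 16753032) (l 16751256))) (a (b (c (l 16752888) (l 16751096)) (b (c (l 16752632)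 (l 16750824)) (c (c (c (l 14) (l 16752848)) (l 16752000)) (l 16750632)))) (b (c (l 16752608) (l 16750792)) (b (c (l 16752344) (l 16750512)) (c (c (a (l 16752720) (l 16752904)) (l 16751712)) (l 16750328)))))))))))), by decide +kernel⟩

def k16_pm_012 : ∃ t, chk3 f_pm_012 t 146 15 1 = true :=
  ⟨(b (b (b (l 16839472) (l 16783864)) (b (a (l 16795600) (l 16786688)) (b (l 16788904) (l 16763696)))) (b (b (b (l 16772304) (a (l 16773376) (l 16772376))) (a (b (l 16758008) (l 16757344)) (b (l 16757616) (l 16756920)))) (b (b (b (l 16759016) (a (l 16756304) (l 16755856))) (b (a (l 16755824) (l 16755368)) (c (l 16758456) (l 16758480)))) (c (b (b (a (l 16756456) (l 16754992)) (l 14)) (l 14)) (a (b (b (l 16753064) (c (l 16753304) (l 16751544))) (b (b (l 16751920) (c (l 16752480) (l 16750656))) (a (b (c (l 16752328) (l 16750488)) (b (c (l 16752064) (l 16750208)) (c (c (c (l 14) (c (l 14) (l 16752008))) (l 16751752)) (l 16751328)))) (b (c (l 16752056) (l 16750184)) (b (c (l 16751792) (l 16749904))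 (c (c (l 14) (a (l 16751224) (l 16751080))) (l 16751024))))))) (b (b (l 16752520) (c (l 16752776) (l 16750960))) (b (b (l 16751360) (c (l 16751944) (l 16750064))) (c (c (l 14) (b (c (l 16751352) (l 16750880)) (b (c (l 16751088) (l 16750608)) (a (c (l 16751096) (l 16750616)) (c (l 16750816) (l 16750328)))))) (c (b (l 16750168) (b (l 16749880) (a (l 16749896) (l 16749600)))) (b (l 16749208) (a (l 16749024) (l 16748720)))))))))))), by decide +kernel⟩

def k17_pm_012 : ∃ t, chk3 f_pm_012 t 147 15 1 = true :=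
  ⟨(b (b (b (l 16859472) (l 16805552)) (c (b (l 16979056) (b (l 16990432) (l 16994416))) (b (l 16777632) (b (l 16768352) (l 16757264))))) (b (b (b (c (l 16952576) (l 16756824)) (l 16768032)) (b (l 16758952) (a (l 16756512) (l 16756104)))) (b (b (b (l 16755544) (l 16757680)) (b (a (l 16754912) (l 16754464)) (a (l 16756336) (l 16755880)))) (b (b (a (b (l 16753944) (l 16756272)) (b (l 16753472) (l 16755136))) (c (l 14) (a (l 16753288) (l 16753408)))) (c (l 14) (b (b (a (l 16750800) (l 16750256)) (a (c (l 16751408) (l 16749480)) (c (l 16750888) (l 16748904)))) (c (c (l 14) (c (a (a (b (l 16750992) (b (l 16750720) (l 16750544))) (l 14)) (l 14)) (a (b (l 16750320) (b (l 16750048) (a (l 16750048) (l 16749768)))) (b (l 16749776) (b (l 16749488) (a (l 16749488) (l 16749208))))))) (c (a (b (l 16749592) (b (l 16749304) (a (l 16749304) (l 16749016)))) (b (l 16749024) (b (l 16748728) (a (l 16748728) (l 16748440))))) (a (b (l 16748608) (a (l 16748416) (l 16748112))) (b (l 16748008) (a (l 16747808)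 (l 16747512)))))))))))), by decide +kernel⟩

def k18_pm_012 : ∃ t, chk3 f_pm_012 t 74 30 1 = true :=
  ⟨(b (a (b (l 16859208) (l 16827936)) (b (l 16901360) (l 16871736))) (c (b (b (l 17014904) (l 17026016)) (b (l 17014400) (l 17000344))) (b (b (l 16838480) (l 16765608)) (b (l 16761032) (l 16753520))))), by decide +kernel⟩

def k19_pm_012 : ∃ t, chk3 f_pm_012 t 74 31 1 = true :=
  ⟨(b (b (b (c (l 16920296) (l 16755480)) (c (a (l 16964680) (l 17022376)) (l 16760008))) (c (c (b (l 17134040) (l 17114328)) (b (a (l 16884840) (l 16968704)) (a (l 16753368) (l 16863784)))) (b (a (l 16754664) (l 16753832)) (a (l 16753760) (l 16752888))))) (b (a (b (b (l 16755272) (l 16755520)) (a (b (l 16754024) (l 16754768)) (b (l 16753584) (l 16754328)))) (b (c (c (l 17154152) (l 16755120)) (l 16751792)) (a (b (l 16753160) (l 16753888)) (b (l 16752288) (l 16753456))))) (c (b (b (a (c (l 16945888) (l 16754032)) (c (l 17110824) (l 16752592))) (l 14)) (l 14)) (b (a (a (b (l 16750944) (l 16752880)) (b (l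 16750432) (l 16752360))) (a (b (l 16749936) (l 16751848)) (b (l 16749440) (l 16748720)))) (a (a (c (a (b (l 16750720) (a (b (l 16750256) (b (l 16749976) (c (l 14) (l 16749272)))) (l 14))) (l 14)) (b (a (l 16748704) (l 16748424)) (c (b (l 16748456) (b (l 16748168) (a (l 16748152) (l 16747872)))) (b (l 16747424) (a (l 16747216) (l 16746920)))))) (c (l 14) (b (a (l 16748144) (l 16747864)) (c (b (l 16747904) (b (l 16747608) (a (l 16747592) (l 16747312)))) (b (l 16746848) (b (l 16746536) (a (l 16746520) (l 16746232)))))))) (c (l 14) (b (c (a (l 16747952) (l 16747424)) (a (l 16746880) (l 16746328))) (c (a (b (l 16747360) (b (l 16747064) (a (c (l 16747312) (l 16746760)) (c (l 14) (l 16746488))))) (c (l 14) (b (l 16746552) (b (l 16746240) (a (l 16746208) (l 16745936)))))) (a (b (l 16746272) (b (l 16745968) (a (l 16745936) (l 16745648)))) (b (l 16745712) (b (l 16745400) (a (l 16745368) (l 16745080))))))))))))), by decide +kernel⟩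

def k20_pm_012 : ∃ t, chk3 f_pm_012 t 75 15 1 = true :=
  ⟨(b (b (b (l 16870712) (a (l 16894776) (l 16875912))) (c (b (l 17075088) (l 17077944)) (b (a (l 16763488) (l 16850576)) (b (l 16821192) (l 16783056))))) (b (b (a (c (l 17035312) (l 16756208)) (c (l 17131176) (l 16754096))) (c (c (l 17213024) (b (l 16944592) (a (l 16971960) (l 17035992)))) (b (c (l 16755728) (l 16756656)) (a (l 16752040) (l 16751224))))) (b (b (c (c (l 17220376) (a (b (l 16954912) (l 16898832)) (l 16954720))) (a (l 16750904) (l 16750048))) (c (c (l 17197816) (a (b (l 16840232) (l 16757840)) (b (l 16956640) (l 16878080)))) (a (a (l 16749984) (l 16749520)) (a (l 16749064) (l 16748616))))) (b (c (b (c (l 17192176) (b (a (l 16783144) (l 16864600)) (l 14))) (c (l 17122968) (l 14))) (a (b (l 16752520) (a (l 16748224) (l 16747736))) (b (l 16750280) (a (l 16747256) (l 16746784))))) (c (c (c (l 17273904) (l 14)) (l 14)) (c (l 14) (c (a (a (b (l 16746904) (a (a (b (l 16746536) (b (l 16746232) (l 16746024))) (l 14))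 (l 14))) (l 14)) (l 14)) (a (b (a (l 16745784) (l 16745240)) (b (a (l 16745160) (l 16744616)) (b (a (l 16744840) (l 16744288)) (a (a (l 16744800) (l 16744520)) (a (l 16744248) (l 16743976)))))) (b (a (l 16744712) (l 16744192)) (b (a (l 16744072) (l 16743544)) (b (a (l 16743752) (l 16743216)) (a (a (l 16743696) (l 16743432)) (c (l 14) (a (l 16742856) (l 16742584))))))))))))))), by decide +kernel⟩

def k21_pm_012 : ∃ t, chk3 f_pm_012 t 19 14 1 = true :=
  ⟨(a (b (a (b (b (l 16823744) (l 16843296)) (l 16854344)) (b (l 16869136) (l 16912376))) (b (a (l 16899728) (l 16958752)) (a (b (l 16955112) (l 16977224)) (l 16985184)))) (b (b (l 16901200) (l 16945360)) (b (l 16993000) (a (b (l 17032608) (l 17057008)) (l 17061568))))), by decide +kernel⟩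

def k22_pm_012 : ∃ t, chk3 f_pm_012 t 38 15 1 = true :=
  ⟨(a (b (b (b (l 16976720) (a (l 16878008) (l 16963880))) (c (b (l 17127312) (l 17155656)) (b (b (l 16931288) (l 16926096)) (b (l 16875920) (l 16822088))))) (b (c (b (l 17157416) (a (l 17069192) (l 17188280))) (b (b (l 16763872) (l 16752864)) (b (l 16753968) (a (l 16761448) (l 16765096))))) (c (c (b (l 17303568) (b (l 17308088) (l 17219896))) (b (b (a (l 17063384) (l 17106536)) (a (l 16916968) (l 17091184))) (b (b (a (l 16916904) (l 17053896)) (l 14)) (l 14)))) (b (b (a (l 16749216) (l 16745096)) (a (a (l 16748176) (l 16747744)) (c (l 16748536) (l 16745808)))) (b (b (a (l 16749376) (l 16745888)) (a (a (l 16746320) (l 14)) (l 14))) (a (a (a (c (l 14) (b (l 16744440) (c (l 14) (c (l 14) (b (l 16742872) (c (l 14) (l 16742272))))))) (l 14)) (l 14)) (l 14))))))) (b (b (b (l 16977112) (l 16997704)) (c (l 17193432) (b (l 16935448) (b (l 16971384) (l 16900968))))) (b (c (b (l 17237200) (l 17216904)) (b (b (l 16848120) (l 16749224))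 (c (b (l 16960480) (a (l 16965520) (l 17004864))) (b (l 16749568) (l 16749288))))) (b (b (c (l 17226496) (a (l 16747120) (c (l 16942096) (l 16739416)))) (c (l 17123608) (a (a (l 16747072) (l 16742824)) (c (b (l 16943160) (l 16864624)) (l 16744112))))) (c (c (l 17395136) (b (a (l 17077400) (l 17166744)) (c (l 17169552) (l 14)))) (b (b (a (l 16747040) (c (l 16742064) (l 16742896))) (l 14)) (l 14))))))), by decide +kernel⟩

def k23_pm_012 : ∃ t, chk3 f_pm_012 t 39 15 1 = true :=
  ⟨(b (b (a (b (l 17081568) (l 17104344)) (l 17092064)) (a (b (l 17040688) (c (l 17258960) (l 16885240))) (b (l 17148328) (l 17063400)))) (c (b (a (b (l 17291416) (l 17319464)) (l 17358288)) (a (c (l 17457112) (b (l 17238960) (b (l 17231744) (l 17094720)))) (b (l 17402288) (l 17317216)))) (b (a (b (b (l 16949856) (l 16856224)) (b (a (l 16888416) (l 16964592)) (c (l 17060288) (l 16746040)))) (b (a (l 17010600) (l 17080752)) (b (l 16908456) (a (l 16942200) (l 16997424))))) (b (b (c (a (a (l 17025536) (l 17064816))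 (l 17119784)) (a (a (l 16744208) (l 16788528)) (a (l 16851528) (l 16933344)))) (c (a (a (l 16919040) (l 17046536)) (l 17065160)) (a (a (l 16744000) (l 16741416)) (a (l 16741216) (b (l 16913496) (l 16856424)))))) (b (b (c (a (a (l 16897576) (l 17007912)) (l 17073392)) (a (a (l 16737848) (l 16740112)) (a (l 16739000) (l 16776720)))) (c (a (l 14) (l 16979264)) (l 14))) (c (a (l 14) (c (a (l 17102848) (l 17148512)) (l 14))) (l 14))))))), by decide +kernel⟩

def k24_pm_012 : ∃ t, chk3 f_pm_012 t 5 6 1 = true :=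
  ⟨(a (a (a (b (b (b (a (l 124185049463) (l 16827608)) (l 82309181847)) (a (b (l 16824464) (l 16811088)) (l 16806968))) (b (a (b (l 16834512) (l 16862808)) (l 16836832)) (b (l 16890200) (l 16947760)))) (a (b (b (l 16816736) (l 16856256)) (b (l 16908224) (l 16974144))) (a (b (b (l 16835216) (l 16876216)) (b (l 16928784) (l 16995048))) (b (a (b (l 16843752) (l 16885416)) (l 16864144)) (b (a (l 16938416) (l 16944680)) (a (l 17005776) (l 17013128))))))) (b (b (a (l 16874272) (l 16916688)) (l 16877408)) (b (l 16995552) (a (l 17042200) (l 17089088))))) (b (b (l 17070920) (l 17118320)) (a (b (l 17077712) (l 17150128)) (l 17325480)))), by decide +kernel⟩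

def k25_pm_012 : ∃ t, chk3 f_pm_012 t 10 7 1 = true :=
  ⟨(b (a (a (b (b (l 16988512) (a (l 17017216) (l 17047656))) (a (b (l 17065496) (l 17119184)) (b (l 17098880) (l 17153800)))) (a (b (b (l 17031840) (l 17079608)) (b (l 17132704) (l 17188744))) (a (b (l 17080232) (l 17186872)) (b (a (l 17093632) (l 17103592)) (l 17205656))))) (b (a (l 17136632) (l 17188536)) (a (l 17246704) (l 17304520)))) (a (b (a (a (b (l 17173008) (a (l 17128936) (l 17192048))) (b (l 17210040) (l 17117648))) (a (b (l 17246648) (l 17261864)) (c (l 17403960) (b (l 17203888) (l 17239712))))) (a (c (b (l 17375432) (a (b (l 17457504) (l 17485536)) (l 17524384))) (a (b (b (l 17100136) (a (l 16992752) (l 17106784))) (b (c (l 17183912) (b (a (l 16992208) (l 17028352)) (a (l 16885080) (l 16987592)))) (c (b (l 17169792) (a (l 17133944) (l 17175504))) (b (b (a (l 16884976) (l 16969600)) (l 14)) (l 14))))) (b (b (l 17171520) (l 17065616)) (c (b (l 17246760) (b (l 17240888) (l 17232816))) (b (a (l 16971160) (l 17089256))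 (b (a (l 16962264) (l 17064264)) (a (a (l 14) (l 16905304)) (a (l 16989656) (l 17052400))))))))) (b (a (b (l 17322320) (l 17177424)) (c (l 17529616) (a (l 17252856) (l 17211104)))) (a (c (l 17570528) (a (b (l 17204072) (b (l 17171896) (l 17013272))) (b (l 17229864) (c (l 17312888) (l 16994128))))) (c (l 17613032) (a (b (l 17254744) (l 17076744)) (a (b (l 17272808) (l 17222840)) (b (l 17284600) (l 17131200))))))))) (b (b (l 17368632) (a (l 17397520) (l 17463240))) (c (b (l 17619168) (l 17706392)) (b (a (l 17199240) (l 17400072)) (a (b (l 17336008) (a (l 17247144) (l 17358496))) (b (l 17419024) (l 17424992)))))))), by decide +kernel⟩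

def k26_pm_012 : ∃ t, chk3 f_pm_012 t 11 7 1 = true :=
  ⟨(b (b (a (l 17254936) (l 17323176)) (a (l 17379112) (l 17457136))) (b (a (a (l 17488040) (l 17538232)) (l 17601760)) (b (a (l 17616360) (l 17712336)) (a (a (l 17607488) (l 17708504)) (l 17782976))))), by decide +kernel⟩

def k27_pm_012 : ∃ t, chk3 f_pm_012 t 3 1 1 = true :=
  ⟨(b (a (b (l 2) (b (l 2) (a (l 17051232) (l 2)))) (l 2)) (b (a (b (a (l 17132424) (l 17186776)) (a (b (l 17212480) (l 17280824)) (l 17312184))) (b (l 2) (l 17545632))) (a (b (b (a (l 17386096) (l 17414384)) (a (l 17533392) (l 17570416))) (b (a (l 17690816) (l 17742128)) (a (a (l 17822352) (l 17875008)) (l 17918808)))) (b (a (b (l 17401280) (l 17550424)) (l 17552896)) (a (b (l 17732848) (l 17921808)) (b (l 17678144) (l 17875608))))))), by decide +kernel⟩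

theorem s28_pm_012 : ∃ t, chk3 f_pm_012 t 5 7 1 = true := ex3_a k25_pm_012 k26_pm_012

theorem s29_pm_012 : ∃ t, chk3 f_pm_012 t 5 3 1 = true := ex3_b k24_pm_012 s28_pm_012

theorem s30_pm_012 : ∃ t, chk3 f_pm_012 t 19 15 1 = true := ex3_a k22_pm_012 k23_pm_012

theorem s31_pm_012 : ∃ t, chk3 f_pm_012 t 19 7 1 = true := ex3_b k21_pm_012 s30_pm_012

theorem s32_pm_012 : ∃ t, chk3 f_pm_012 t 74 15 1 = true := ex3_b k18_pm_012 k19_pm_012

theorem s33_pm_012 : ∃ t, chk3 f_pm_012 t 37 15 1 = true := ex3_a s32_pm_012 k20_pm_012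

theorem s34_pm_012 : ∃ t, chk3 f_pm_012 t 73 15 1 = true := ex3_a k16_pm_012 k17_pm_012

theorem s35_pm_012 : ∃ t, chk3 f_pm_012 t 72 15 1 = true := ex3_a k14_pm_012 k15_pm_012

theorem s36_pm_012 : ∃ t, chk3 f_pm_012 t 36 15 1 = true := ex3_a s35_pm_012 s34_pm_012

theorem s37_pm_012 : ∃ t, chk3 f_pm_012 t 18 15 1 = true := ex3_a s36_pm_012 s33_pm_012

theorem s38_pm_012 : ∃ t, chk3 f_pm_012 t 18 14 1 = true := ex3_b k12_pm_012 k13_pm_012

theorem s39_pm_012 : ∃ t, chk3 f_pm_012 t 18 7 1 = true := ex3_b s38_pm_012 s37_pm_012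

theorem s40_pm_012 : ∃ t, chk3 f_pm_012 t 9 7 1 = true := ex3_a s39_pm_012 s31_pm_012

theorem s41_pm_012 : ∃ t, chk3 f_pm_012 t 35 63 1 = true := ex3_a k10_pm_012 k11_pm_012

theorem s42_pm_012 : ∃ t, chk3 f_pm_012 t 35 31 1 = true := ex3_b k9_pm_012 s41_pm_012

theorem s43_pm_012 : ∃ t, chk3 f_pm_012 t 35 15 1 = true := ex3_b k8_pm_012 s42_pm_012

theorem s44_pm_012 : ∃ t, chk3 f_pm_012 t 34 61 1 = true := ex3_a k5_pm_012 k6_pm_012

theorem s45_pm_012 : ∃ t, chk3 f_pm_012 t 34 30 1 = true := ex3_b k4_pm_012 s44_pm_012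

theorem s46_pm_012 : ∃ t, chk3 f_pm_012 t 34 15 1 = true := ex3_b s45_pm_012 k7_pm_012

theorem s47_pm_012 : ∃ t, chk3 f_pm_012 t 17 15 1 = true := ex3_a s46_pm_012 s43_pm_012

theorem s48_pm_012 : ∃ t, chk3 f_pm_012 t 17 7 1 = true := ex3_b k3_pm_012 s47_pm_012

theorem s49_pm_012 : ∃ t, chk3 f_pm_012 t 8 7 1 = true := ex3_a k2_pm_012 s48_pm_012

theorem s50_pm_012 : ∃ t, chk3 f_pm_012 t 4 7 1 = true := ex3_a s49_pm_012 s40_pm_012

theorem s51_pm_012 : ∃ t, chk3 f_pm_012 t 4 3 1 = true := ex3_b k1_pm_012 s50_pm_012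

theorem s52_pm_012 : ∃ t, chk3 f_pm_012 t 2 3 1 = true := ex3_a s51_pm_012 s29_pm_012

theorem s53_pm_012 : ∃ t, chk3 f_pm_012 t 2 1 1 = true := ex3_b k0_pm_012 s52_pm_012

theorem s54_pm_012 : ∃ t, chk3 f_pm_012 t 1 1 1 = true := ex3_a s53_pm_012 k27_pm_012

theorem c_pm_012 : CertN 0 536870912 536870912 536870912 67108864 67108864 3 true true false .pnp 0 1 2
    ndN0q0 ndN0q1 pcN2 cut_pm_012 Ext.none :=
  certNK2 (fam := true) (s1 := true) (s2 := false) (a := 0) (b := 1) (c := 2) (cn := .pnp) (n1 := ndN0q0) (n2 := ndN0q1) (pc := pcN2) (cut := cut_pm_012) (xt := Ext.none) (P1 := 0) (W1 := 536870912) (P2 := 536870912) (W2 := 536870912) (P3 := 67108864) (W3 := 67108864) (N0 := 3)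
    rfl rfl rfl (fun _ => rfl) s54_pm_012

noncomputable def cut_pm_022 : Cut := Cut.of [[⟨0, 0, 0, 67108864⟩, ⟨1, 1, 0, 67108864⟩, ⟨2, 1, 0, 67108864⟩], [⟨0, 0, 1, 33554432⟩, ⟨1, 1, 0, 8388608⟩, ⟨2, 1, 1, 33554432⟩, ⟨0, 0, 0, 150994944⟩, ⟨0, 1, 0, 1023410176⟩, ⟨2, 1, 0, 150994944⟩, ⟨2, 2, 0, 1023410176⟩]]

noncomputable def f_pm_022 : ℕ → ℕ → ℕ → ℕ → Bool := onCell 1073741824 536870912 0 536870912 67108864 67108864
    (rowNK 3 2 true true false .pp 0 2 2 (qsf 0 536870912 0 536870912 2) ndN0q0 ndN0q2 pcN2 cut_pm_022 Ext.none)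

def k0_pm_022 : ∃ t, chk3 f_pm_022 t 2 2 1 = true :=
  ⟨(a (a (l 1) (b (l 1) (a (l 1) (b (l 1) (a (l 1) (c (l 17803800) (b (l 1) (a (l 1) (b (l 17122824) (l 17097336)))))))))) (b (a (a (a (l 1) (b (l 18115432) (c (l 18470680) (l 17707464)))) (b (l 18161856) (l 17946864))) (a (l 18161640) (l 18094520))) (a (a (a (b (a (l 1) (b (l 17961936) (l 17675688))) (c (l 18214224) (b (a (l 17328760) (l 17462160)) (a (l 17253888) (l 17402152))))) (b (a (b (l 17836288) (l 17997752)) (l 17832808)) (b (l 17815392) (l 17710880)))) (a (b (l 17913296) (l 17940736)) (b (l 18125288) (l 18043168)))) (a (b (l 18124864) (l 18064888)) (l 18068192))))), by decide +kernel⟩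

def k1_pm_022 : ∃ t, chk3 f_pm_022 t 8 3 1 = true :=
  ⟨(b (l 1) (b (a (l 1) (a (b (l 1) (l 6)) (b (a (l 1) (b (l 1) (b (a (l 1) (c (l 16695632) (l 16693080))) (a (l 6) (l 16692864))))) (a (l 6) (a (l 6) (b (l 16698448) (c (l 16693032) (l 16686920)))))))) (a (l 6) (a (l 6) (a (l 6) (a (l 6) (b (b (c (l 16691848) (l 16704840)) (b (l 16714176) (l 16725696))) (a (l 6) (a (l 6) (a (l 6) (a (l 6) (b (b (l 16737008) (l 16748344)) (b (c (l 16750432) (l 16737120)) (b (c (l 16748384) (l 16745320)) (b (c (l 16752592) (l 16749408)) (b (c (l 16757312) (l 16751456)) (a (l 6) (c (c (l 14) (c (l 14) (l 16756160))) (c (l 16754928) (l 16751968)))))))))))))))))))), by decide +kernel⟩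

def k2_pm_022 : ∃ t, chk3 f_pm_022 t 9 6 1 = true :=
  ⟨(b (a (l 1) (a (b (c (l 17658640) (l 16721512)) (a (b (l 1) (l 16699888)) (c (b (l 17717904) (l 17679632)) (b (l 16707176) (l 16698352))))) (c (b (a (l 17907416) (l 18011752)) (l 17751320)) (b (a (l 16725680) (l 16992120)) (l 16718688))))) (a (a (b (l 1) (a (l 1) (b (l 16695384) (b (a (l 16692512) (l 16689800)) (a (l 16690208) (l 16687232)))))) (b (a (b (l 1) (l 16696496)) (b (l 16699608) (l 16692544))) (b (a (b (l 16692000) (l 16689040)) (l 16685544)) (a (l 16684640) (l 16678552))))) (a (a (b (b (l 16696272) (l 16798040)) (b (l 16776680) (l 16758776))) (c (b (l 17420848) (b (l 17542808) (l 17458120))) (b (l 16685400) (l 16678624)))) (c (b (c (l 18013792) (l 17554672)) (a (l 17538872) (l 17739600))) (b (a (l 16760448) (l 16952192)) (b (l 16750624) (l 16736112))))))), by decide +kernel⟩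

def k3_pm_022 : ∃ t, chk3 f_pm_022 t 18 14 1 = true :=
  ⟨(a (b (b (a (b (a (l 1) (l 16691112)) (a (l 16701680) (l 16689080))) (b (l 16686888) (l 16684464))) (a (b (l 16700176) (l 16698272)) (c (l 16692456) (l 16679624)))) (b (a (a (b (l 16687128) (l 16685280)) (l 16702808)) (a (l 16677376) (l 16672864))) (a (c (b (l 16703344) (l 16701072)) (l 16696176)) (b (l 16692864) (l 16690192))))) (b (b (a (l 16689192) (l 16671512)) (a (a (l 16674200) (l 16670144)) (l 16706304))) (b (a (b (l 16668056) (l 16685888)) (l 16719904)) (a (b (l 16682688) (l 16679400)) (b (l 16672360) (l 16668696)))))), by decide +kernel⟩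

def k4_pm_022 : ∃ t, chk3 f_pm_022 t 36 30 1 = true :=
  ⟨(b (a (c (b (l 16698736) (a (l 16701536) (l 16699952))) (l 16691640)) (b (c (a (l 16689472) (l 16684608)) (l 16687424)) (l 16743312))) (a (b (b (l 16707928) (l 16713808)) (a (l 16724312) (l 16722904))) (a (b (l 16709648) (l 16721392)) (b (l 16708080) (l 16719848))))), by decide +kernel⟩

def k5_pm_022 : ∃ t, chk3 f_pm_022 t 36 62 1 = true :=
  ⟨(a (b (a (l 16725392) (l 16723960)) (a (b (l 16744400) (l 16750024)) (a (l 16748400) (l 16745744)))) (a (b (l 16732984) (a (l 16745056) (l 16744376))) (b (l 16731544) (a (l 16743704) (l 16743040))))), by decide +kernel⟩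

def k6_pm_022 : ∃ t, chk3 f_pm_022 t 36 126 1 = true :=
  ⟨(a (b (a (l 16739904) (l 16738624)) (a (a (l 16746096) (l 16745456)) (a (l 16744832) (l 16744216)))) (b (a (l 16737368) (l 16736136)) (c (l 14) (a (l 16736152) (l 16734880))))), by decide +kernel⟩

def k7_pm_022 : ∃ t, chk3 f_pm_022 t 36 127 2 = true :=
  ⟨(c (l 14) (c (l 14) (a (a (b (l 16751464) (a (b (l 16750984) (b (l 16753064) (a (b (l 16754320) (a (l 16755760) (l 14))) (l 14)))) (b (l 16750416) (l 14)))) (b (l 16750336) (l 14))) (l 14)))), by decide +kernel⟩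

def k8_pm_022 : ∃ t, chk3 f_pm_022 t 72 127 3 = true :=
  ⟨(a (a (b (l 16750096) (b (l 16754200) (c (b (l 16751832) (b (l 16754176) (a (a (l 16755176) (l 16755024)) (a (l 16754872) (l 16754728))))) (b (l 16750176) (a (l 16753072) (l 16752752)))))) (b (l 16744200) (b (l 16753568) (b (c (l 16751240) (l 16749536)) (a (b (l 16754256) (c (c (c (l 16753816) (l 16753392)) (l 16752744)) (l 16751456))) (b (l 16753952) (c (c (c (l 16754192) (l 16753104)) (l 16752448)) (l 16751136)))))))) (a (b (l 16743560) (b (l 16752944) (b (c (l 16750648) (l 16748896)) (b (c (l 16753000) (l 16749920)) (a (c (b (l 16752424) (a (l 16754168) (l 16754024))) (l 16750824)) (c (c (c (l 14) (l 16752528)) (l 16751856)) (l 16750504))))))) (b (l 16742920) (b (l 16752328) (c (b (l 16750072) (b (l 16752432) (c (c (l 14) (a (l 16752240) (l 16751960))) (a (l 16751560) (l 16751272))))) (b (l 16748264) (b (l 16749296) (a (l 16750192) (l 16749880))))))))), by decide +kernel⟩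

def k9_pm_022 : ∃ t, chk3 f_pm_022 t 73 127 3 = true :=
  ⟨(a (a (b (l 16742288) (b (l 16751720) (b (c (l 16749496) (l 16747640)) (b (c (l 16751864) (l 16748680)) (a (c (c (a (l 16752000) (l 14)) (l 16750984)) (l 16749576)) (c (c (l 14) (l 16750696)) (l 16750576))))))) (b (l 16741664) (b (l 16745872) (c (b (l 16748936) (b (l 16751304) (c (l 14) (a (l 16751720) (l 16750776))))) (b (l 16747024) (b (l 16748064) (a (l 16750272) (l 16749968)))))))) (b (c (l 16746736) (l 16739608)) (b (a (l 16745280) (l 16744696)) (c (c (l 14) (b (a (l 16747888) (l 16747328)) (b (a (l 16748952) (l 16748392)) (b (a (l 16749480) (l 16748928)) (a (a (l 16750024) (l 16749744)) (a (l 16749464) (l 16749848))))))) (a (b (l 16746416) (a (c (l 16749816) (l 16747512)) (c (l 16749520) (l 16747208)))) (b (l 16745816) (b (l 16746872) (b (l 16747392) (a (l 16749248) (l 16748952)))))))))), by decide +kernel⟩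

def k10_pm_022 : ∃ t, chk3 f_pm_022 t 37 15 1 = true :=
  ⟨(b (b (a (c (b (l 16796736) (l 16797936)) (l 16683480)) (b (l 16677440) (c (l 16866376) (l 16688656)))) (b (a (l 16725976) (l 16722896)) (a (c (l 16763224) (l 16715624)) (l 16745536)))) (b (a (b (a (l 16730128) (l 16728744)) (c (a (l 16745744) (l 16764448)) (l 16728416))) (a (b (l 16727376) (a (l 16739824) (l 16739208))) (b (l 16726048) (l 16743408)))) (c (b (b (a (b (l 16730408) (l 16738120)) (c (l 17109776) (l 16728568))) (c (a (l 14) (l 17063608)) (l 14))) (a (l 14) (c (c (l 17230328) (l 14)) (l 14)))) (b (a (a (l 16741256) (l 16740016)) (a (l 16738800) (l 16737616))) (a (a (b (l 16747232) (b (a (l 16744120) (l 16743552)) (c (a (c (l 14) (c (l 14) (b (l 16746512) (c (l 14) (a (l 16748648) (l 14)))))) (l 14)) (b (a (l 16745224) (l 16744640)) (a (b (l 16746280) (a (c (l 16747696) (l 16746648)) (c (l 16747408) (l 16746352)))) (b (l 16745704) (a (a (l 16749296) (l 16747848)) (a (l 16747704) (l 16747560))))))))) (b (l 16743464)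 (c (l 14) (b (l 16746720) (b (a (l 16744064) (l 16743496)) (a (b (l 16745128) (a (a (l 16747416) (l 16747272)) (c (l 16747608) (l 16745184)))) (c (c (l 14) (a (l 16746696) (l 16746416))) (a (l 16744544) (l 16745568))))))))) (c (l 14) (a (b (l 16736000) (b (l 16740352) (b (a (l 16742936) (l 16742384)) (b (a (l 16744016) (l 16743472)) (a (a (c (a (l 16745560) (l 14)) (l 16744328)) (c (l 14) (l 16744048))) (c (l 14) (a (l 16743776) (l 16743496)))))))) (b (l 16734864) (c (l 14) (b (l 16738656) (b (l 16740840) (b (a (l 16742328) (l 16741792)) (a (a (l 16743224) (l 16742952)) (a (l 16742680) (l 16743728))))))))))))))), by decide +kernel⟩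

def k11_pm_022 : ∃ t, chk3 f_pm_022 t 19 7 1 = true :=
  ⟨(a (a (b (b (b (l 16765720) (l 16756024)) (b (l 16751176) (l 16730552))) (b (b (b (l 16755360) (l 16759696)) (b (l 16765496) (l 16751808))) (b (b (a (l 16736864) (l 16761744)) (b (l 16747248) (b (l 16751368) (l 16743752)))) (c (c (b (l 17316880) (a (l 17276640) (l 17331560))) (b (b (l 16806496) (l 14)) (l 14))) (a (b (l 16731224) (c (l 14) (b (l 16733752) (b (l 16738192) (a (c (l 14) (b (l 16740160) (a (a (l 16743168) (l 16743032)) (l 14)))) (l 14)))))) (b (l 16730104) (b (l 16739160) (l 14)))))))) (b (b (c (b (l 17396424) (l 17358208)) (b (l 16654904) (l 16646168))) (c (b (l 17301872) (l 17227664)) (b (l 16658520) (l 16650648)))) (b (c (c (l 17455928) (b (l 17130760) (l 17013592))) (b (l 16675768) (b (l 16673496) (l 16685904)))) (b (c (c (l 17444368) (b (l 17112168) (l 17046440))) (b (l 16698264) (l 16721064))) (c (c (l 17370416) (a (b (l 17035072) (l 14)) (b (l 17137424) (a (l 14) (l 17149632))))) (b (b (l 16719800) (l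 14)) (l 14))))))) (b (c (b (b (l 17547376) (l 17527976)) (b (l 17447720) (l 17348776))) (b (b (l 16725080) (l 16738848)) (b (a (l 16712240) (l 16877384)) (a (l 16717448) (l 16875736))))) (a (c (b (b (l 17435536) (l 17322336)) (b (l 17191336) (c (l 17497656) (b (l 17218632) (a (l 17189272) (l 17238592)))))) (b (b (l 16727760) (b (l 16738984) (l 16748192))) (b (b (l 16758792) (l 16728840)) (b (a (l 16728656) (l 16726120)) (l 14))))) (b (c (b (l 17526504) (l 17494808)) (b (l 16857528) (l 16760072))) (c (b (l 17465768) (a (l 17378208) (l 17458072))) (b (b (l 16831688) (l 16755104)) (c (b (l 16877040) (c (a (l 14) (l 17137432)) (l 14))) (b (l 16725840) (l 14))))))))), by decide +kernel⟩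

def k12_pm_022 : ∃ t, chk3 f_pm_022 t 5 6 1 = true :=
  ⟨(b (a (a (c (a (l 18059704) (l 18135792)) (a (b (l 17030648) (a (l 17158040) (l 17285248))) (b (l 17491320) (l 17435552)))) (b (l 17781864) (l 17663264))) (a (l 17988568) (l 18006480))) (a (c (a (a (b (l 17931912) (l 17846680)) (l 17979976)) (l 18057296)) (a (a (b (a (l 17106680) (l 17232488)) (b (l 17075648) (l 17034480))) (b (l 17361640) (l 17124456))) (b (l 17560408) (a (l 17478328) (l 17581376))))) (a (b (l 17926624) (l 17883256)) (l 17947928)))), by decide +kernel⟩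

def k13_pm_022 : ∃ t, chk3 f_pm_022 t 5 7 1 = true :=
  ⟨(a (a (c (a (b (b (l 17764680) (l 17687664)) (b (b (l 17634600) (l 17601296)) (b (l 17570040) (a (l 17509608) (l 17569968))))) (b (b (l 17865928) (l 17792056)) (b (l 17722568) (b (l 17674520) (a (l 17621088) (l 17666256)))))) (a (b (b (b (l 17016824) (l 16980984)) (b (l 16906280) (a (l 17007752) (l 17118944)))) (a (b (b (l 16963096) (l 16838576)) (b (a (a (l 16803640) (l 16851920)) (l 16807072)) (c (b (l 17143696) (a (l 17122096) (l 17166568))) (b (b (l 16869912) (l 14)) (l 14))))) (b (b (l 17112272) (l 17004264)) (b (a (l 16939752) (l 17048032)) (c (b (l 17229080) (a (l 17208008) (l 17246720))) (b (l 16890528) (a (l 14) (a (l 14) (a (l 14) (b (l 17040264) (l 17022568))))))))))) (b (b (b (l 17302136) (l 17282952)) (b (l 17265928) (l 17209320))) (b (b (l 17113336) (a (l 17193608) (l 17264040))) (a (b (l 17042608) (b (l 17083536) (a (a (b (l 17164168) (l 16997288)) (l 17117896)) (l 17120688)))) (b (l 17234776) (b (l 17251568)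 (a (l 17172224) (a (l 17257232) (l 17187792)))))))))) (a (b (b (l 17475040) (a (l 17460712) (l 17631968))) (c (b (l 17801440) (l 17740720)) (b (b (l 17369408) (l 17355160)) (b (l 17280360) (a (l 17181624) (l 17359640)))))) (b (b (l 17760768) (l 17689656)) (b (l 17454224) (b (l 17590736) (l 17425008)))))) (a (b (b (l 17839832) (l 17797640)) (b (l 17590416) (a (l 17461816) (l 17751848)))) (b (l 17887304) (b (l 17847496) (l 17825128))))), by decide +kernel⟩

def k14_pm_022 : ∃ t, chk3 f_pm_022 t 3 1 1 = true :=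
  ⟨(b (a (b (a (l 17970016) (l 17792016)) (a (b (l 18006056) (l 18003096)) (l 17878888))) (b (a (l 17616088) (l 17447016)) (a (l 17742120) (l 17596128)))) (a (b (a (b (l 17986672) (l 17963608)) (l 17919704)) (b (a (b (l 17946920) (l 17936864)) (l 17950080)) (a (b (l 17929712) (l 17927072)) (l 17980632)))) (b (a (l 17833248) (l 17718432)) (b (l 17936240) (a (l 17972880) (l 17917752)))))), by decide +kernel⟩

theorem s15_pm_022 : ∃ t, chk3 f_pm_022 t 5 3 1 = true := ex3_b k12_pm_022 k13_pm_022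

theorem s16_pm_022 : ∃ t, chk3 f_pm_022 t 36 127 3 = true := ex3_a k8_pm_022 k9_pm_022

theorem s17_pm_022 : ∃ t, chk3 f_pm_022 t 36 127 1 = true := ex3_c k7_pm_022 s16_pm_022

theorem s18_pm_022 : ∃ t, chk3 f_pm_022 t 36 63 1 = true := ex3_b k6_pm_022 s17_pm_022

theorem s19_pm_022 : ∃ t, chk3 f_pm_022 t 36 31 1 = true := ex3_b k5_pm_022 s18_pm_022

theorem s20_pm_022 : ∃ t, chk3 f_pm_022 t 36 15 1 = true := ex3_b k4_pm_022 s19_pm_022

theorem s21_pm_022 : ∃ t, chk3 f_pm_022 t 18 15 1 = true := ex3_a s20_pm_022 k10_pm_022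

theorem s22_pm_022 : ∃ t, chk3 f_pm_022 t 18 7 1 = true := ex3_b k3_pm_022 s21_pm_022

theorem s23_pm_022 : ∃ t, chk3 f_pm_022 t 9 7 1 = true := ex3_a s22_pm_022 k11_pm_022

theorem s24_pm_022 : ∃ t, chk3 f_pm_022 t 9 3 1 = true := ex3_b k2_pm_022 s23_pm_022

theorem s25_pm_022 : ∃ t, chk3 f_pm_022 t 4 3 1 = true := ex3_a k1_pm_022 s24_pm_022

theorem s26_pm_022 : ∃ t, chk3 f_pm_022 t 2 3 1 = true := ex3_a s25_pm_022 s15_pm_022

theorem s27_pm_022 : ∃ t, chk3 f_pm_022 t 2 1 1 = true := ex3_b k0_pm_022 s26_pm_022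

theorem s28_pm_022 : ∃ t, chk3 f_pm_022 t 1 1 1 = true := ex3_a s27_pm_022 k14_pm_022

theorem c_pm_022 : CertN 0 536870912 0 536870912 67108864 67108864 3 true true false .pp 0 2 2
    ndN0q0 ndN0q2 pcN2 cut_pm_022 Ext.none :=
  certNK2 (fam := true) (s1 := true) (s2 := false) (a := 0) (b := 2) (c := 2) (cn := .pp) (n1 := ndN0q0) (n2 := ndN0q2) (pc := pcN2) (cut := cut_pm_022) (xt := Ext.none) (P1 := 0) (W1 := 536870912) (P2 := 0) (W2 := 536870912) (P3 := 67108864) (W3 := 67108864) (N0 := 3)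
    rfl rfl rfl (fun _ => rfl) s28_pm_022

noncomputable def f_pm_023 : ℕ → ℕ → ℕ → ℕ → Bool := onCell 1610612736 536870912 0 536870912 67108864 67108864
    (rowNK 3 2 true true false .up 0 2 3 (qsf 0 536870912 0 536870912 3) ndN0q0 ndN0q2 pcN3 Cut.none Ext.none)

def k0_pm_023 : ∃ t, chk3 f_pm_023 t 1 1 1 = true :=
  ⟨(a (a (b (b (a (b (l 17599184) (l 17821096)) (b (l 17362632) (l 17575504))) (a (b (l 18050200) (l 18305872)) (b (l 17794904) (l 18025552)))) (b (b (a (l 18442696) (l 18311136)) (a (l 17856568) (l 17815376))) (b (a (l 17626912) (l 17533704)) (a (b (l 17515696) (l 17962152)) (l 2))))) (b (a (b (b (a (l 17189840) (l 2)) (l 17333736)) (a (l 17941896) (l 2))) (l 2)) (b (l 2) (l 2)))) (l 2)), by decide +kernel⟩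

theorem c_pm_023 : CertN 0 536870912 0 536870912 67108864 67108864 3 true true false .up 0 2 3
    ndN0q0 ndN0q2 pcN3 Cut.none Ext.none :=
  certNK2 (fam := true) (s1 := true) (s2 := false) (a := 0) (b := 2) (c := 3) (cn := .up) (n1 := ndN0q0) (n2 := ndN0q2) (pc := pcN3) (cut := Cut.none) (xt := Ext.none) (P1 := 0) (W1 := 536870912) (P2 := 0) (W2 := 536870912) (P3 := 67108864) (W3 := 67108864) (N0 := 3)
    rfl rfl rfl (fun _ => rfl) k0_pm_023

noncomputable def cut_pm_101 : Cut := Cut.of [[⟨0, 1, 0, 67108864⟩, ⟨1, 0, 0, 67108864⟩, ⟨2, 1, 0, 67108864⟩]]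

noncomputable def f_pm_101 : ℕ → ℕ → ℕ → ℕ → Bool := onCell 536870912 536870912 536870912 536870912 67108864 67108864
    (rowNK 3 1 true true false .npn 1 0 1 (qsf 536870912 536870912 0 536870912 1) ndN0q1 ndN0q0 pcN1 cut_pm_101 Ext.none)

def k0_pm_101 : ∃ t, chk3 f_pm_101 t 1 1 1 = true :=
  ⟨(b (l 3) (a (l 3) (b (l 3) (a (l 3) (b (l 3) (a (l 3) (b (l 3) (a (l 3) (l 6))))))))), by decide +kernel⟩

theorem c_pm_101 : CertN 536870912 536870912 0 536870912 67108864 67108864 3 true true false .npn 1 0 1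
    ndN0q1 ndN0q0 pcN1 cut_pm_101 Ext.none :=
  certNK1 (fam := true) (s1 := true) (s2 := false) (a := 1) (b := 0) (c := 1) (cn := .npn) (n1 := ndN0q1) (n2 := ndN0q0) (pc := pcN1) (cut := cut_pm_101) (xt := Ext.none) (P1 := 536870912) (W1 := 536870912) (P2 := 0) (W2 := 536870912) (P3 := 67108864) (W3 := 67108864) (N0 := 3)
    rfl rfl rfl (fun _ => rfl) k0_pm_101

end Pool.Agent.Strip051.G.I1_16_1_8.Tab.C.NA00

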