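import Pool.Agent.Strip051.G.I1_16_1_8.Tab
import Pool.Agent.Strip051.PB.RowK

/-! # Certificates N1 (generated) -/

set_option linter.all false
set_option maxRecDepth 100000

namespace Pool.Agent.Strip051.G.I1_16_1_8.Tab.C.NA00

open Pool.Agent.Strip051.PB Pool.Agent.Strip051.PB.T
open Pool.Agent.Strip051.G.I1_16_1_8.Tab

noncomputable def cut_pm_102 : Cut := Cut.of [[⟨0, 1, 0, 67108864⟩, ⟨1, 0, 0, 67108864⟩, ⟨2, 1, 0, 67108864⟩], [⟨0, 1, 0, 8388608⟩, ⟨1, 0, 1, 33554432⟩, ⟨2, 1, 1, 33554432⟩, ⟨1, 0, 0, 150994944⟩, ⟨1, 1, 0, 1023410176⟩, ⟨2, 1, 0, 150994944⟩, ⟨2, 2, 0, 1023410176⟩]]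

noncomputable def f_pm_102 : ℕ → ℕ → ℕ → ℕ → Bool := onCell 536870912 536870912 1073741824 536870912 67108864 67108864
    (rowNK 3 1 true true false .npp 1 0 2 (qsf 536870912 536870912 0 536870912 2) ndN0q1 ndN0q0 pcN2 cut_pm_102 Ext.none)

def k0_pm_102 : ∃ t, chk3 f_pm_102 t 2 1 1 = true :=
  ⟨(b (b (a (l 3) (l 3)) (a (b (b (b (l 3) (l 2)) (l 2)) (l 2)) (b (b (b (a (l 3) (a (l 3) (b (l 3) (l 122037618887)))) (b (a (a (l 3) (l 130090658407)) (a (l 118816386039) (l 16843960))) (b (a (a (l 16822768) (l 16834880)) (l 16879856)) (a (b (l 16873064) (l 16846672)) (b (l 16862656) (l 16845768)))))) (a (b (l 16870832) (l 16841768)) (b (l 16888280) (l 16864952)))) (a (l 17071968) (a (l 16935680) (l 16968288)))))) (a (l 2) (b (a (l 2) (b (l 17051232) (l 2))) (l 2)))), by decide +kernel⟩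

def k1_pm_102 : ∃ t, chk3 f_pm_102 t 6 2 1 = true :=
  ⟨(b (b (l 3) (b (a (l 3) (b (l 3) (a (l 3) (b (l 3) (a (l 3) (b (l 3) (a (l 3) (b (l 110763240247) (l 88214675591))))))))) (a (b (l 3) (a (l 3) (b (a (l 3) (l 123111309591)) (a (l 122574427671) (l 83919755095))))) (b (a (b (l 3) (a (l 3) (b (l 122037552231) (l 114521341367)))) (b (a (a (l 120963812423) (b (l 120963803175) (l 115595076487))) (b (a (l 116668817703) (l 16812968)) (a (l 16802320) (l 16814480)))) (a (a (l 78551020311) (l 16815128)) (a (l 16821952) (l 16839632))))) (a (b (a (b (l 106468290631) (l 16828344)) (b (l 16823384) (l 16809256))) (a (l 16827400) (l 16831368))) (a (b (l 16829976) (l 16862816)) (b (l 16864888) (l 16898864)))))))) (b (b (b (a (a (a (b (l 124185049463) (l 16827608)) (l 82309181847)) (b (a (l 16824464) (l 16811088)) (l 16806968))) (a (b (a (l 16834512) (l 16862808)) (l 16836832)) (a (l 16890200) (l 16947760)))) (b (a (a (l 16816736) (l 16856256)) (a (l 16908224) (l 16974144))) (b (a (a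 (l 16835216) (l 16876216)) (a (l 16928784) (l 16995048))) (a (b (a (l 16843752) (l 16885416)) (l 16864144)) (a (b (l 16938416) (l 16944680)) (b (l 17005776) (l 17013128))))))) (a (a (b (l 16874272) (l 16916688)) (l 16877408)) (a (l 16995552) (b (l 17042200) (l 17089088))))) (a (a (l 17070920) (l 17118320)) (a (l 17196560) (a (l 17163296) (l 17205856)))))), by decide +kernel⟩

def k2_pm_102 : ∃ t, chk3 f_pm_102 t 7 16 1 = true :=
  ⟨(a (l 3) (a (b (l 3) (a (l 3) (b (l 3) (a (l 3) (b (l 3) (a (l 3) (a (b (l 3) (a (a (l 3) (b (l 3) (b (l 3) (l 109689454583)))) (a (b (l 3) (b (l 115058158583) (b (l 74792842967) (l 16782176)))) (b (b (l 3) (l 116131900551)) (a (b (l 79624681159) (l 16781848)) (l 22179492087)))))) (b (a (l 3) (l 6)) (b (b (a (a (l 116668771607) (a (l 95730808327) (l 6))) (l 6)) (a (b (a (l 89825228215) (l 16783120)) (l 27548201191)) (l 16780504))) (l 16782712)))))))))) (a (b (l 6) (b (l 6) (a (b (l 6) (a (a (b (l 6) (c (l 16782992) (l 16782760))) (l 6)) (l 6)))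 (l 6)))) (l 6)))), by decide +kernel⟩

def k3_pm_102 : ∃ t, chk3 f_pm_102 t 14 17 1 = true :=
  ⟨(a (l 3) (b (l 3) (a (l 3) (b (a (l 3) (b (l 3) (a (l 3) (a (b (l 3) (b (l 3) (a (l 117205663671) (l 118816273111)))) (a (b (l 3) (b (l 114521306183) (a (l 96804566519) (l 16790848)))) (b (a (l 3) (l 116668791479)) (b (a (l 107541984935) (l 91435856311)) (l 16791008)))))))) (a (b (a (l 3) (a (l 3) (a (l 3) (b (l 3) (b (l 3) (l 113984439639)))))) (a (b (l 3) (b (a (l 3) (c (l 110763219127) (l 116668796231))) (a (c (l 111836963719) (l 118279411527)) (c (l 81235323623) (a (l 107541993255) (l 16794120)))))) (a (b (c (b (l 112910703783) (l 116131924231)) (b (l 119890022647) (a (l 116668795079) (l 106468249287)))) (a (b (l 16794152) (l 16795216)) (l 16794592))) (b (b (a (a (l 112910698167) (l 102710150951)) (l 16793096)) (l 16794416)) (l 16793680))))) (a (b (a (a (b (l 3) (b (l 115595052807) (a (l 105931376599) (l 16792704)))) (b (c (l 113984444119) (l 121500634055)) (b (a (l 112373824935)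 (l 105931375287)) (l 16793592)))) (b (a (b (l 3) (l 113447566391)) (b (l 115058179527) (a (l 105394503223) (l 16791664)))) (a (b (l 16792128) (l 16792512)) (l 16791848)))) (a (b (l 16792576) (l 16795944)) (l 16795880))) (b (a (b (b (a (a (l 108078856759) (l 102710147431)) (l 16791592)) (l 16791760)) (l 16790704)) (l 16790256)) (l 16800392)))))))), by decide +kernel⟩

def k4_pm_102 : ∃ t, chk3 f_pm_102 t 60 34 1 = true :=
  ⟨(b (l 3) (a (l 3) (b (b (l 3) (a (l 3) (a (a (l 3) (b (l 3) (a (l 115595039511) (l 117742521351)))) (a (b (l 118279393575) (b (a (l 117205649607) (l 82309044135)) (c (l 58686723671) (l 16787248)))) (b (b (l 115595036359) (a (l 89825236919) (l 16785912))) (l 16787984)))))) (a (b (a (l 3) (b (l 3) (a (l 115058170535) (a (l 116131909687) (l 82309045735))))) (b (a (a (l 3) (l 118816266503)) (a (b (l 109689458551) (l 16789440)) (l 16789408))) (a (b (a (l 115058170647) (l 83919659031)) (a (l 99488916023) (l 16787752))) (l 16786104)))) (b (a (b (a (c (l 107541975383)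 (l 115058166615)) (b (l 76940335799) (l 16786376))) (a (b (l 61907950599) (l 16786432)) (l 16785376))) (l 16786448)) (l 16787352)))))), by decide +kernel⟩

def k5_pm_102 : ∃ t, chk3 f_pm_102 t 61 68 1 = true :=
  ⟨(a (b (a (l 3) (b (l 3) (b (l 3) (a (l 3) (a (l 3) (b (l 3) (l 116131903895))))))) (a (b (l 3) (a (l 3) (a (a (l 3) (b (l 3) (l 117205648215))) (a (b (l 3) (b (l 113984421863) (l 77477203383))) (b (l 114521294023) (b (l 84456525175) (l 16784576))))))) (b (b (a (l 3) (a (a (l 113984421927) (b (l 3) (l 89288362007))) (a (b (l 113447548231) (c (l 56002363175) (l 16783536))) (c (l 32380040823) (l 16783904))))) (a (a (l 3) (b (l 117742518023) (a (l 117742516903) (l 76403460295)))) (b (a (a (l 83382782087) (l 16786448)) (l 16782792)) (l 16785408)))) (a (b (a (b (l 115595034055) (a (l 90362105239) (l 16786448))) (c (l 24863851271) (l 16786248))) (l 16785776)) (l 16785992))))) (a (b (b (a (l 3) (a (b (l 3) (a (c (l 111300064983) (l 120426869511)) (b (l 117205643591) (a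 (l 80161553367) (l 57076103255))))) (b (b (l 3) (a (l 117742514663) (l 81235295735))) (a (b (c (l 75329715271) (l 74792843735)) (l 16782408)) (l 16782040))))) (b (b (a (a (l 3) (a (l 3) (l 109689450567))) (a (c (l 29158815639) (l 16785168)) (l 16781256))) (a (a (l 117205646055) (a (l 86067135255) (a (l 61371071399) (l 16782936)))) (l 16786496))) (a (a (b (a (l 118279386727) (l 80161555351)) (a (a (l 84993393031) (l 16784856)) (l 16783136))) (l 16785040)) (l 16785256)))) (a (b (l 16786048) (l 16787896)) (b (l 16787960) (l 16784528)))) (b (a (b (a (b (b (a (c (l 86604004039) (l 87677745207)) (b (l 65666037527) (l 16782200))) (l 16784656)) (l 16780872)) (l 16785312)) (l 16782784)) (b (l 16782832) (c (l 16784784) (l 16784584)))) (b (b (l 16782472) (l 16782064)) (a (l 16781152) (l 16778608)))))), by decide +kernel⟩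

def k6_pm_102 : ∃ t, chk3 f_pm_102 t 61 69 1 = true :=
  ⟨(a (a (b (b (b (b (a (l 3) (a (c (l 79087817783) (l 79087816647)) (l 16784264))) (a (a (l 3) (a (l 115058165015) (l 90898977447))) (l 16785176))) (a (a (b (l 118816262151) (a (l 116668777431) (l 76940333719))) (a (b (l 84993397415) (l 16785296)) (l 16786280))) (l 16783120))) (a (c (c (l 16786752) (l 16786648)) (l 16786856)) (l 16791096))) (a (l 16789280) (l 16785872))) (b (c (b (l 16784464) (l 16779808)) (b (l 16784040) (l 16785848))) (c (l 16776944) (c (l 16780680) (l 16780560))))) (b (a (b (a (l 16784432) (l 16781048)) (c (c (l 16794160) (l 16789752)) (l 16779152))) (c (b (l 16777944) (l 16787728)) (l 16771224))) (b (a (a (l 16787880) (l 16787040)) (l 16776432)) (a (l 16786360) (l 16775744))))), by decide +kernel⟩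

def k7_pm_102 : ∃ t, chk3 f_pm_102 t 31 34 1 = true :=
  ⟨(a (a (a (b (a (b (b (a (l 16785584) (b (l 16784760) (l 16783064))) (l 16781344)) (b (l 16779216) (l 16778424))) (b (b (l 16781424) (l 16779800)) (b (l 16778984) (l 16767720)))) (b (c (a (l 16777432) (l 16766792)) (l 16767832)) (a (l 16775864) (l 16765192)))) (a (b (b (b (l 6) (l 16779520)) (c (l 16769304) (l 16767672))) (b (l 16767648) (l 16764960))) (b (b (l 6) (a (l 16768920) (l 16768752))) (b (l 16768016) (l 16764696))))) (b (b (l 6) (b (l 6) (a (a (l 16766816) (l 6)) (l 6)))) (a (a (b (a (l 16765816) (l 16765640)) (l 16765704)) (b (c (l 16765784) (l 16764936)) (b (l 16764304) (l 16767544)))) (b (a (a (l 16766296) (l 6)) (l 6)) (a (b (l 16764168) (l 16763560)) (a (l 16766232) (l 16766112))))))) (b (l 6) (a (a (a (a (b (l 6) (l 16767288)) (l 6)) (l 6)) (l 6)) (l 6)))), by decide +kernel⟩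

def k8_pm_102 : ∃ t, chk3 f_pm_102 t 30 35 1 = true :=
  ⟨(a (b (b (b (a (a (l 3) (b (a (l 3) (a (l 115595043751) (a (l 117742524791) (l 88214627095)))) (a (a (l 3) (l 119353139703)) (a (a (l 95730820983) (l 75866596199)) (l 16788192))))) (a (a (a (a (b (l 16789640) (l 16787192)) (l 16787192)) (l 16786080)) (l 16783680)) (l 16789104))) (a (a (a (l 3) (a (b (l 3) (l 115595045927)) (b (l 116668788231) (a (l 117205656167) (l 91972725303))))) (a (a (c (b (l 114521302103) (l 16789952)) (b (l 118816267495) (l 16789016))) (b (a (l 83919660871) (l 16789096)) (l 16788272))) (l 16789432))) (a (l 16792392) (l 16777392)))) (a (a (b (b (a (a (l 3) (l 119353141895)) (a (a (l 98415177383) (l 16792080)) (l 16789592))) (a (c (a (l 113984433511) (l 16792960)) (a (l 117742527831) (l 69961019015))) (l 16789000))) (a (a (b (l 16790888) (l 16789720)) (l 16789000)) (l 16787152))) (c (l 16788184) (l 16788272))) (a (l 16786368) (l 16782928)))) (a (b (a (l 16793088) (l 16796248)) (l 16783160)) (a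 (a (l 16787992) (l 16787784)) (b (l 16794368) (l 16809400))))) (b (a (b (a (c (l 16803128) (l 16790776)) (c (l 16781960) (b (l 16785776) (l 16784912)))) (a (l 16785088) (l 16784016))) (b (a (a (l 16785344) (l 16785328)) (a (l 16764304) (l 16764216))) (a (l 16780168) (a (l 16763096) (l 16763024))))) (a (a (b (l 16787216) (l 16803568)) (b (l 16774304) (l 16792576))) (a (b (l 16782992) (l 16775088)) (b (l 16763304) (l 16761048)))))), by decide +kernel⟩

def k9_pm_102 : ∃ t, chk3 f_pm_102 t 62 35 1 = true :=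
  ⟨(b (a (b (a (a (l 16764080) (l 16763912)) (a (l 16763704) (l 16763464))) (a (a (l 16762912) (l 16762760)) (a (l 16762576) (a (l 16762568) (l 16764992))))) (a (b (a (b (c (l 16768984) (l 16767904)) (l 16768216)) (a (l 16765312) (l 16762904))) (a (l 16765944) (l 16764568))) (a (b (a (l 16762800) (l 16762696)) (l 16764328)) (c (b (l 16765896) (l 16762296)) (b (l 16761744) (l 16760544)))))) (a (a (b (l 16763120) (a (l 16760952) (a (l 16761048) (l 16760832)))) (a (b (a (l 16761784) (l 16772072)) (l 16760576)) (b (l 16763888) (l 16760544)))) (a (a (b (l 16761224) (l 16760336)) (b (l 16761000) (l 16760088))) (a (b (l 16763360) (l 16759808)) (b (l 16763056) (l 16762104)))))), by decide +kernel⟩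

def k10_pm_102 : ∃ t, chk3 f_pm_102 t 63 70 1 = true :=
  ⟨(a (b (a (a (a (l 16764928) (l 16766096)) (b (l 16764944) (l 16761752))) (b (l 6) (a (c (l 16762384) (l 16760424)) (l 6)))) (b (a (a (l 16761536) (l 16761216)) (a (l 16764144) (c (l 16761568) (l 16759376)))) (a (a (l 16761024) (l 16760696)) (a (l 16762952) (c (l 16761072) (l 16758768)))))) (b (l 6) (b (l 6) (a (a (a (l 16762216) (l 6)) (l 6)) (l 6))))), by decide +kernel⟩

def k11_pm_102 : ∃ t, chk3 f_pm_102 t 63 71 1 = true :=
  ⟨(a (a (a (c (b (l 16761144) (l 16760288)) (b (l 16759048) (l 16757968))) (c (b (l 16763448) (l 16759952)) (b (l 16758616) (l 16757512)))) (a (b (b (l 16762424) (l 16761896)) (b (l 16761384) (l 16760872))) (a (c (b (l 16762808) (l 16759272)) (b (l 16757768) (l 16756632))) (c (b (l 16762600) (l 16761680)) (b (l 16757504) (l 16756360)))))) (b (b (a (a (c (l 16762152) (l 16757664)) (a (a (l 16761896) (l 6)) (l 6))) (l 6)) (a (a (c (l 16761008) (l 16757056)) (a (b (l 16760840) (l 16760560))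 (c (l 16759128) (l 16756352)))) (b (l 6) (a (a (c (l 16758840) (l 16755968)) (l 6)) (l 6))))) (c (a (b (a (l 16760520) (a (l 16758872) (l 16758632))) (a (l 16758736) (a (l 16758384) (l 16758136)))) (c (l 14) (c (l 14) (a (b (a (l 16757280) (l 16757000)) (a (l 16756744) (l 16756456))) (b (a (a (l 16756784) (l 6)) (l 6)) (c (l 14) (a (b (l 16756176) (l 16755896)) (a (b (l 16755952) (l 16755672)) (b (l 6) (a (l 16755552) (l 16755480))))))))))) (a (b (a (l 16756464) (a (l 16756040) (l 16755744))) (a (l 16755880) (a (l 16755448) (l 16755144)))) (a (a (b (l 16755440) (l 16754832)) (b (c (l 16755880) (l 16754368)) (c (l 16755288) (l 16753728)))) (a (a (b (c (l 16755648) (l 16754112)) (c (l 16755056) (l 16753472))) (b (l 6) (b (l 16755632) (l 16755328)))) (b (l 6) (a (b (c (l 16754960) (l 16753360)) (c (l 16754656) (l 16753032))) (b (l 6) (c (a (l 16754536) (b (l 6) (l 16754400))) (l 16752856))))))))))), by decide +kernel⟩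

def k12_pm_102 : ∃ t, chk3 f_pm_102 t 28 18 1 = true :=
  ⟨(b (a (l 3) (b (l 3) (a (b (l 3) (a (l 3) (b (l 3) (l 115595072215)))) (b (a (l 3) (b (l 3) (a (l 118279424407) (l 114521322551)))) (a (b (l 115595069767) (a (l 121500644439) (l 16798432))) (b (a (l 92509622263) (l 16797960)) (l 16800168))))))) (a (b (a (l 3) (b (a (l 3) (l 116131951927)) (a (l 124185008679) (b (l 112910713639) (l 16799536))))) (b (a (a (l 116668818743) (l 109152616903)) (a (l 16801000) (l 16805832))) (a (l 49023094759) (l 16816880)))) (b (a (a (b (b (l 117205687175) (l 110763228167)) (l 16801368)) (b (b (l 104857646167) (l 16800432)) (l 16807320))) (b (a (c (l 16804184) (l 16799416)) (l 16809392)) (l 16821392))) (a (l 16806728) (l 16848872))))), by decide +kernel⟩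

def k13_pm_102 : ∃ t, chk3 f_pm_102 t 29 18 1 = true :=
  ⟨(b (b (b (a (a (l 3) (a (a (l 3) (b (l 3) (b (l 3) (l 111300093607)))) (b (a (c (l 116668809047) (b (l 3) (l 123111254231))) (c (b (l 112373837367) (l 111300093031)) (b (l 119353155879) (a (l 114521315351) (l 93583355351))))) (b (a (c (l 107541997111) (l 113447573975)) (c (l 16796424) (l 16795320))) (a (a (l 107541996759) (l 16796080)) (l 16796928)))))) (a (a (b (a (b (a (l 111836960183) (l 16795248)) (l 16796352)) (l 16795352)) (l 16797360)) (l 16800608)) (l 16790832))) (a (a (a (l 3) (b (a (l 3) (c (l 115595068343) (l 122574386455))) (a (l 116131934855) (b (l 107005125831) (l 16797000))))) (b (b (a (a (l 117205675335) (c (l 94120229751) (l 102710160135))) (l 16796832)) (a (a (c (l 89825263783) (l 117742541063)) (l 16797032)) (l 16798264))) (a (a (l 16798512) (l 16798096)) (l 16802712)))) (a (l 16790696) (l 16807496)))) (a (a (b (a (a (b (l 117205679719) (l 86604039831)) (b (c (l 118279417911) (l 124184994583))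 (l 16799408))) (a (b (a (l 87677777735) (l 16797400)) (l 16799632)) (l 16799840))) (a (l 16803192) (l 16811880))) (b (l 16799200) (l 16826888))) (a (b (l 16828768) (l 16847080)) (b (l 16846520) (l 16865536))))) (a (b (a (l 16791344) (l 16833816)) (a (l 16870984) (l 16893360))) (b (a (l 16854872) (l 16832368)) (a (l 16915344) (l 16915152))))), by decide +kernel⟩

def k14_pm_102 : ∃ t, chk3 f_pm_102 t 15 144 1 = true :=
  ⟨(a (a (a (l 16792368) (a (l 16827904) (l 16806168))) (a (a (l 16801744) (l 16792712)) (a (l 16777928) (l 16776904)))) (a (a (a (a (l 16770752) (l 16759944)) (l 16762104)) (a (a (l 16759480) (l 16759208)) (a (l 16758904) (l 16761184)))) (a (a (a (l 16760808) (a (l 16757880) (l 16760288))) (a (a (l 16760056) (l 16761136)) (c (c (l 16760864) (l 16760176)) (c (l 16756112) (l 16754656))))) (b (a (a (c (l 16758264) (l 16755304)) (c (a (l 16757904) (l 16757648)) (c (l 16755480) (l 16753936)))) (b (c (b (c (l 14) (a (l 16756744) (a (l 16756312) (a (l 16756088) (a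 (l 16756800) (c (l 14) (l 16755488))))))) (l 14)) (a (a (l 16754448) (l 16754128)) (a (c (l 16754608) (l 16752976)) (a (c (l 16754360) (l 16752712)) (c (a (l 16754240) (b (l 16754248) (l 16754096))) (l 16752536)))))) (c (l 14) (a (a (l 16754144) (l 16753824)) (a (c (l 16754312) (l 16752656)) (a (c (l 16754072) (l 16752392)) (c (a (l 16753944) (b (l 16753952) (l 16753800))) (l 16752216)))))))) (a (a (c (l 16757800) (l 16754728)) (c (l 14) (c (l 16754920) (l 16753320)))) (c (l 14) (a (a (l 16753640) (c (l 16754144) (l 16752480))) (a (b (c (l 16754024) (l 16752344)) (c (l 16753736) (l 16752032))) (a (b (c (l 16753776) (l 16752072)) (c (l 16753488) (l 16751760))) (b (c (a (l 16753648) (b (l 16753656) (l 16754824))) (l 16751896)) (c (a (l 16753360) (b (l 16754672) (l 16754528))) (l 16751576)))))))))))), by decide +kernel⟩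

def k15_pm_102 : ∃ t, chk3 f_pm_102 t 15 145 1 = true :=
  ⟨(a (a (a (l 16799504) (l 16784192)) (a (c (l 16881592) (l 16758560)) (a (l 16782736) (a (l 16790536) (l 16779408))))) (a (a (a (l 16758696) (l 16760336)) (a (a (l 16758656) (l 16758368)) (a (l 16758040) (l 16757680)))) (a (a (a (l 16759896) (c (l 16758136) (l 16755392))) (a (c (l 16757512) (l 16754864)) (c (a (l 16757520) (l 16757288)) (l 16758232)))) (c (a (a (a (l 16757040) (l 14)) (l 14)) (l 14)) (b (a (a (l 16754168) (c (l 16754376) (l 16752720))) (a (a (l 16753064) (c (l 16753584) (l 16751864))) (a (b (c (l 16753456) (l 16751720)) (c (l 16753168) (l 16751408))) (a (b (c (l 16753200) (l 16751440)) (c (l 16752912) (l 16751128))) (b (c (c (b (l 16753560) (l 16753416)) (l 16752592)) (l 16751264)) (c (c (c (l 14) (l 16752968)) (l 16752296)) (l 16750944))))))) (a (a (l 16753608) (c (l 16753832) (l 16752128))) (a (a (l 16752488) (c (l 16753032) (l 16751256))) (a (b (c (l 16752888) (l 16751096)) (c (l 16752608) (l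 16750792))) (a (b (c (l 16752632) (l 16750824)) (c (l 16752344) (l 16750512))) (b (c (c (c (l 14) (l 16752688)) (l 16752000)) (l 16750632)) (c (c (b (l 16752720) (l 16752904)) (l 16751712)) (l 16750328)))))))))))), by decide +kernel⟩

def k16_pm_102 : ∃ t, chk3 f_pm_102 t 15 146 1 = true :=
  ⟨(a (a (a (l 16839472) (l 16783864)) (a (a (l 16824640) (l 16819488)) (a (l 16788904) (l 16763696)))) (a (a (a (l 16772304) (a (l 16771008) (l 16774024))) (a (a (l 16757872) (l 16757552)) (a (l 16757200) (l 16756816)))) (a (a (a (l 16759016) (a (l 16756056) (l 16755816))) (a (a (l 16758184) (l 16757928)) (c (l 16758456) (l 16758480)))) (c (a (a (a (l 16757344) (l 14)) (l 14)) (l 14)) (b (a (a (l 16753064) (c (l 16753304) (l 16751544))) (a (a (l 16751920) (c (l 16752480) (l 16750656))) (a (b (c (l 16752328) (l 16750488)) (c (l 16752056) (l 16750184))) (a (b (c (l 16752064) (l 16750208)) (c (l 16751792) (l 16749904))) (b (c (c (c (l 14) (c (l 14) (l 16752008))) (l 16751752)) (l 16751328))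 (c (c (l 14) (a (l 16751184) (l 16751096))) (l 16751024))))))) (a (a (l 16752520) (c (l 16752776) (l 16750960))) (a (a (l 16751360) (c (l 16751944) (l 16750064))) (c (c (l 14) (a (c (l 16751352) (l 16750880)) (a (c (l 16751088) (l 16750608)) (b (c (l 16751096) (l 16750616)) (c (l 16750816) (l 16750328)))))) (c (a (l 16750168) (a (l 16749880) (b (l 16749896) (l 16749600)))) (a (l 16749208) (b (l 16749024) (l 16748720)))))))))))), by decide +kernel⟩

def k17_pm_102 : ∃ t, chk3 f_pm_102 t 15 147 1 = true :=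
  ⟨(a (a (a (l 16859472) (l 16805552)) (c (a (l 16979056) (a (l 16990432) (l 16994416))) (a (l 16777632) (a (l 16768352) (l 16757264))))) (a (a (a (c (l 16952576) (l 16756824)) (l 16768032)) (a (l 16758952) (a (l 16756400) (l 16755984)))) (a (a (a (l 16755544) (l 16757680)) (a (a (l 16754672) (l 16757024)) (b (l 16756336) (l 16755880)))) (a (a (a (b (l 16753944) (l 16753472)) (b (l 16756272) (l 16755136))) (c (l 14) (b (l 16753288) (l 16753408)))) (c (l 14) (a (a (b (l 16750800) (l 16750256)) (b (c (l 16751408) (l 16749480)) (c (l 16750888) (l 16748904)))) (c (c (l 14) (c (b (a (l 16750808) (b (a (l 16750720) (l 16750544)) (l 14))) (l 14)) (b (a (l 16750320) (a (l 16750048) (b (l 16750048) (l 16749768)))) (a (l 16749776) (a (l 16749488) (b (l 16749488) (l 16749208))))))) (c (b (a (l 16749592) (a (l 16749304) (b (l 16749304) (l 16749016)))) (a (l 16749024) (a (l 16748728) (b (l 16748728) (l 16748440))))) (b (a (l 16748608) (b (l 16748416) (l 16748112))) (a (l 16748008) (b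 (l 16747808) (l 16747512)))))))))))), by decide +kernel⟩

def k18_pm_102 : ∃ t, chk3 f_pm_102 t 30 74 1 = true :=
  ⟨(a (a (a (l 16886992) (l 16873176)) (a (l 16858000) (l 16841104))) (c (a (a (l 17014904) (l 17026016)) (a (l 17014400) (l 17000344))) (a (a (l 16838480) (l 16765608)) (a (l 16761032) (l 16753520))))), by decide +kernel⟩

def k19_pm_102 : ∃ t, chk3 f_pm_102 t 31 74 1 = true :=
  ⟨(a (a (a (c (l 16920296) (l 16755480)) (c (a (l 16962616) (l 16919488)) (l 16760008))) (c (c (a (l 17134040) (l 17114328)) (a (b (l 16884840) (l 16968704)) (b (l 16753368) (l 16863784)))) (a (b (l 16754664) (l 16753832)) (b (l 16753760) (l 16752888))))) (a (b (a (a (l 16755272) (l 16755520)) (a (a (l 16753808) (l 16756152)) (b (l 16754768) (l 16754328)))) (a (c (c (l 17154152) (l 16755120)) (l 16751792)) (a (a (l 16754456) (l 16752688)) (b (l 16753888) (l 16753456))))) (c (a (a (b (c (l 16945888) (l 16754032)) (c (l 17110824) (l 16752592))) (l 14)) (l 14)) (a (b (b (a (l 16750944) (l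 16752880)) (a (l 16750432) (l 16752360))) (a (c (l 16750576) (l 16748520)) (b (l 16751848) (l 16748720)))) (b (b (c (b (a (l 16750720) (a (l 16750176) (b (a (l 16749976) (c (l 14) (l 16749272))) (l 14)))) (l 14)) (a (a (l 16748712) (l 16748336)) (c (a (l 16748456) (a (l 16748168) (b (l 16748152) (l 16747872)))) (a (l 16747424) (b (l 16747216) (l 16746920)))))) (c (l 14) (a (a (l 16748160) (l 16747776)) (c (a (l 16747904) (a (l 16747608) (b (l 16747592) (l 16747312)))) (a (l 16746848) (a (l 16746536) (b (l 16746520) (l 16746232)))))))) (c (l 14) (c (a (b (l 16747952) (l 16747424)) (b (a (l 16747360) (a (l 16747064) (b (c (l 16747312) (l 16746760)) (c (l 14) (l 16746488))))) (c (l 14) (a (l 16746552) (a (l 16746240) (b (l 16746208) (l 16745936))))))) (a (b (l 16746880) (l 16746328)) (a (b (l 16746272) (l 16745712)) (b (a (l 16745968) (b (l 16745936) (l 16745648))) (a (l 16745400) (b (l 16745368) (l 16745080))))))))))))), by decide +kernel⟩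

def k20_pm_102 : ∃ t, chk3 f_pm_102 t 15 75 1 = true :=
  ⟨(a (a (a (l 16870712) (a (l 16924096) (l 16804288))) (c (a (l 17075088) (l 17077944)) (a (b (l 16763488) (l 16850576)) (a (l 16821192) (l 16783056))))) (a (a (a (c (l 17111832) (l 16755120)) (c (l 17054112) (l 16757240))) (c (c (l 17213024) (a (l 16944592) (b (l 16971960) (l 17035992)))) (a (c (l 16755728) (l 16756656)) (b (l 16752040) (l 16751224))))) (a (a (c (c (l 17220376) (b (a (l 16954912) (l 16898832)) (l 16954720))) (b (l 16750904) (l 16750048))) (c (c (l 17197816) (a (b (l 16840232) (l 16956640)) (b (l 16757840) (l 16878080)))) (b (a (l 16749960) (l 16749296)) (a (l 16749072) (l 16748384))))) (a (c (a (c (l 17192176) (a (b (l 16783144) (l 16864600)) (l 14))) (c (l 17122968) (l 14))) (b (a (l 16752520) (b (l 16748224) (l 16747736))) (a (l 16750280) (b (l 16747256) (l 16746784))))) (c (c (c (l 17273904) (l 14)) (l 14)) (c (l 14) (c (b (b (a (l 16746904) (a (l 16746296) (b (a (l 16746160) (a (l 16746000) (l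 16745896))) (l 14)))) (l 14)) (l 14)) (b (a (b (l 16745784) (l 16745240)) (a (b (l 16745160) (l 16744616)) (a (b (l 16744840) (l 16744288)) (b (b (l 16744800) (l 16744520)) (b (l 16744248) (l 16743976)))))) (a (b (l 16744712) (l 16744192)) (a (b (l 16744072) (l 16743544)) (a (b (l 16743752) (l 16743216)) (b (b (l 16743696) (l 16743432)) (c (l 14) (b (l 16742856) (l 16742584))))))))))))))), by decide +kernel⟩

def k21_pm_102 : ∃ t, chk3 f_pm_102 t 14 19 1 = true :=
  ⟨(b (a (b (a (a (l 16823744) (l 16843296)) (l 16854344)) (a (l 16869136) (l 16912376))) (a (b (l 16899728) (l 16958752)) (b (a (l 16955112) (l 16977224)) (l 16985184)))) (a (a (l 16901200) (l 16945360)) (a (l 16993000) (b (a (l 17032608) (l 17057008)) (l 17061568))))), by decide +kernel⟩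

def k22_pm_102 : ∃ t, chk3 f_pm_102 t 30 19 1 = true :=
  ⟨(a (b (b (a (l 16976720) (a (l 16948296) (l 16914288))) (a (l 16977112) (l 16997704))) (b (a (l 17081568) (l 17104344)) (l 17092064))) (a (b (c (l 17089704) (b (a (l 16931288) (l 16926096)) (l 16935448))) (b (l 17040688) (l 17148328))) (b (c (b (l 17155656) (l 17209040)) (b (a (l 16875920) (l 16822088)) (a (l 16971384) (l 16900968)))) (b (c (l 17258960) (l 16885240)) (l 17063400))))), by decide +kernel⟩

def k23_pm_102 : ∃ t, chk3 f_pm_102 t 31 19 2 = true :=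
  ⟨(b (b (a (a (l 17157416) (a (l 17168624) (l 17088280))) (c (a (l 17303568) (a (l 17308088) (l 17240872))) (a (a (b (l 17063384) (l 17106536)) (b (l 16916968) (l 17091184))) (a (a (b (l 16916904) (l 17053896)) (l 14)) (l 14))))) (a (a (l 17237200) (l 17216904)) (a (a (l 17226496) (l 17123608)) (c (l 17395136) (a (a (l 17126608) (l 17054680)) (c (l 17190528) (l 14))))))) (b (a (a (l 17291416) (l 17319464)) (c (l 17457112) (a (l 17238960) (a (l 17231744) (l 17115688))))) (a (l 17358288) (a (l 17402288) (l 17317216))))), by decide +kernel⟩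

def k24_pm_102 : ∃ t, chk3 f_pm_102 t 31 19 3 = true :=
  ⟨(a (b (a (b (a (l 16763872) (l 16752864)) (a (l 16848120) (l 16749224))) (b (a (l 16753968) (a (l 16751944) (l 16753200))) (c (a (l 16960480) (b (l 16965520) (l 17004864))) (a (l 16749568) (l 16749288))))) (b (a (a (l 16949856) (l 16856224)) (a (a (l 16888424) (l 16859616)) (c (l 17060288) (l 16746040)))) (a (a (l 17069080) (l 17021728)) (a (l 16908456) (b (l 16942200) (l 16997424)))))) (b (a (a (b (b (l 16749216) (l 16745096)) (b (l 16747120) (c (l 16942096) (l 16739416)))) (b (a (a (l 16750224) (l 16751176)) (b (l 16747504) (l 16746648))) (b (a (l 16741192) (l 16742880)) (c (a (l 16943160) (l 16864624)) (l 16744112))))) (b (a (a (b (l 16749376) (l 16745888)) (b (a (l 16746176) (l 16748408)) (l 14))) (b (b (b (c (l 14) (a (l 16744440) (c (l 14) (c (l 14) (a (l 16742872) (c (l 14) (l 16742272))))))) (l 14)) (l 14)) (l 14))) (a (a (b (l 16747040) (c (l 16742064) (l 16742896))) (l 14)) (l 14)))) (a (a (c (b (b (l 17025536)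 (l 17064816)) (l 17119784)) (b (b (l 16744208) (l 16788528)) (b (l 16851528) (l 16933344)))) (c (b (b (l 16919040) (l 17046536)) (l 17065160)) (b (b (l 16744000) (l 16741416)) (b (l 16741216) (a (l 16913496) (l 16856424)))))) (a (a (c (b (b (l 16897576) (l 17007912)) (l 17073392)) (a (a (b (l 16743208) (l 16738832)) (l 14)) (l 14))) (c (b (l 14) (l 16979264)) (l 14))) (c (b (l 14) (c (l 17042088) (l 14))) (l 14)))))), by decide +kernel⟩

def k25_pm_102 : ∃ t, chk3 f_pm_102 t 7 10 1 = true :=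
  ⟨(a (b (b (a (a (l 16988512) (b (l 17017216) (l 17047656))) (b (a (l 17065496) (l 17119184)) (a (l 17098880) (l 17153800)))) (b (a (a (l 17031840) (l 17079608)) (a (l 17132704) (l 17188744))) (a (b (l 17080232) (b (l 17093632) (l 17103592))) (a (l 17168512) (l 17225256))))) (a (b (l 17136632) (l 17188536)) (b (l 17246704) (l 17304520)))) (b (a (b (a (b (l 17173008) (l 17210040)) (b (a (l 17211552) (l 17192784)) (l 17117648))) (b (a (l 17246648) (l 17261864)) (c (l 17403960) (a (l 17203888) (l 17239712))))) (a (b (c (l 17375432) (a (b (l 17100136) (l 17171520)) (b (a (l 17094904) (l 17004072)) (l 17065616)))) (b (a (l 17322320) (l 17177424)) (c (l 17529616) (b (l 17252856) (l 17211104))))) (b (c (b (a (l 17457504) (l 17485536)) (l 17524384)) (b (a (c (l 17183912) (a (b (l 16992208) (l 17028352)) (b (l 16885080) (l 16987592)))) (c (a (l 17169792) (b (l 17133944) (l 17175504))) (a (a (b (l 16884976) (l 16969600)) (l 14)) (l 14)))) (c (a (l 17246760) (a (l 17240888) (l 17232816)))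 (a (b (l 16971160) (l 17089256)) (a (b (l 16962264) (l 17064264)) (a (b (l 16964216) (l 17048040)) (b (l 14) (l 16972808)))))))) (b (c (l 17570528) (a (a (l 17218920) (l 17109600)) (c (l 17299288) (b (a (l 17098288) (l 17037088)) (l 17015096))))) (c (l 17613032) (b (a (l 17254744) (l 17076744)) (a (a (l 17279112) (l 17236040)) (b (l 17222840) (l 17131200))))))))) (a (a (l 17368632) (a (l 17415696) (l 17425808))) (c (a (l 17619168) (l 17706392)) (a (b (l 17199240) (l 17400072)) (a (a (l 17335144) (l 17233320)) (b (a (l 17335840) (l 17249064)) (l 17424992)))))))), by decide +kernel⟩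

def k26_pm_102 : ∃ t, chk3 f_pm_102 t 7 11 1 = true :=
  ⟨(a (a (b (l 17254936) (l 17323176)) (b (l 17379112) (l 17457136))) (a (b (a (l 17479520) (l 17548344)) (l 17601760)) (a (b (l 17616360) (l 17712336)) (b (a (l 17664792) (l 17652576)) (l 17782976))))), by decide +kernel⟩

def k27_pm_102 : ∃ t, chk3 f_pm_102 t 3 3 1 = true :=
  ⟨(a (b (a (b (l 17132424) (l 17186776)) (b (a (l 17212480) (l 17280824)) (l 17312184))) (a (l 2) (l 17545632))) (b (a (a (b (l 17386096) (l 17414384)) (b (l 17533392) (l 17570416))) (a (b (l 17690816) (l 17742128)) (b (b (l 17822352) (l 17875008)) (l 17918808)))) (a (b (a (l 17401280) (l 17550424)) (l 17552896)) (b (a (l 17732848) (l 17921808)) (a (l 17678144) (l 17875608)))))), by decide +kernel⟩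

theorem s28_pm_102 : ∃ t, chk3 f_pm_102 t 7 5 1 = true := ex3_b k25_pm_102 k26_pm_102

theorem s29_pm_102 : ∃ t, chk3 f_pm_102 t 31 19 1 = true := ex3_c k23_pm_102 k24_pm_102

theorem s30_pm_102 : ∃ t, chk3 f_pm_102 t 15 19 1 = true := ex3_a k22_pm_102 s29_pm_102

theorem s31_pm_102 : ∃ t, chk3 f_pm_102 t 7 19 1 = true := ex3_a k21_pm_102 s30_pm_102

theorem s32_pm_102 : ∃ t, chk3 f_pm_102 t 15 74 1 = true := ex3_a k18_pm_102 k19_pm_102

theorem s33_pm_102 : ∃ t, chk3 f_pm_102 t 15 37 1 = true := ex3_b s32_pm_102 k20_pm_102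

theorem s34_pm_102 : ∃ t, chk3 f_pm_102 t 15 73 1 = true := ex3_b k16_pm_102 k17_pm_102

theorem s35_pm_102 : ∃ t, chk3 f_pm_102 t 15 72 1 = true := ex3_b k14_pm_102 k15_pm_102

theorem s36_pm_102 : ∃ t, chk3 f_pm_102 t 15 36 1 = true := ex3_b s35_pm_102 s34_pm_102

theorem s37_pm_102 : ∃ t, chk3 f_pm_102 t 15 18 1 = true := ex3_b s36_pm_102 s33_pm_102

theorem s38_pm_102 : ∃ t, chk3 f_pm_102 t 14 18 1 = true := ex3_a k12_pm_102 k13_pm_102

theorem s39_pm_102 : ∃ t, chk3 f_pm_102 t 7 18 1 = true := ex3_a s38_pm_102 s37_pm_102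

theorem s40_pm_102 : ∃ t, chk3 f_pm_102 t 7 9 1 = true := ex3_b s39_pm_102 s31_pm_102

theorem s41_pm_102 : ∃ t, chk3 f_pm_102 t 63 35 1 = true := ex3_b k10_pm_102 k11_pm_102

theorem s42_pm_102 : ∃ t, chk3 f_pm_102 t 31 35 1 = true := ex3_a k9_pm_102 s41_pm_102

theorem s43_pm_102 : ∃ t, chk3 f_pm_102 t 15 35 1 = true := ex3_a k8_pm_102 s42_pm_102

theorem s44_pm_102 : ∃ t, chk3 f_pm_102 t 61 34 1 = true := ex3_b k5_pm_102 k6_pm_102

theorem s45_pm_102 : ∃ t, chk3 f_pm_102 t 30 34 1 = true := ex3_a k4_pm_102 s44_pm_102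

theorem s46_pm_102 : ∃ t, chk3 f_pm_102 t 15 34 1 = true := ex3_a s45_pm_102 k7_pm_102

theorem s47_pm_102 : ∃ t, chk3 f_pm_102 t 15 17 1 = true := ex3_b s46_pm_102 s43_pm_102

theorem s48_pm_102 : ∃ t, chk3 f_pm_102 t 7 17 1 = true := ex3_a k3_pm_102 s47_pm_102

theorem s49_pm_102 : ∃ t, chk3 f_pm_102 t 7 8 1 = true := ex3_b k2_pm_102 s48_pm_102

theorem s50_pm_102 : ∃ t, chk3 f_pm_102 t 7 4 1 = true := ex3_b s49_pm_102 s40_pm_102

theorem s51_pm_102 : ∃ t, chk3 f_pm_102 t 7 2 1 = true := ex3_b s50_pm_102 s28_pm_102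

theorem s52_pm_102 : ∃ t, chk3 f_pm_102 t 3 2 1 = true := ex3_a k1_pm_102 s51_pm_102

theorem s53_pm_102 : ∃ t, chk3 f_pm_102 t 3 1 1 = true := ex3_b s52_pm_102 k27_pm_102

theorem s54_pm_102 : ∃ t, chk3 f_pm_102 t 1 1 1 = true := ex3_a k0_pm_102 s53_pm_102

theorem c_pm_102 : CertN 536870912 536870912 0 536870912 67108864 67108864 3 true true false .npp 1 0 2
    ndN0q1 ndN0q0 pcN2 cut_pm_102 Ext.none :=
  certNK1 (fam := true) (s1 := true) (s2 := false) (a := 1) (b := 0) (c := 2) (cn := .npp) (n1 := ndN0q1) (n2 := ndN0q0) (pc := pcN2) (cut := cut_pm_102) (xt := Ext.none) (P1 := 536870912) (W1 := 536870912) (P2 := 0) (W2 := 536870912) (P3 := 67108864) (W3 := 67108864) (N0 := 3)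
    rfl rfl rfl (fun _ => rfl) s54_pm_102

noncomputable def f_pm_112 : ℕ → ℕ → ℕ → ℕ → Bool := onCell 536870912 536870912 1073741824 536870912 67108864 67108864
    (rowNK 3 1 true true false .dn 1 1 2 (qsf 536870912 536870912 536870912 536870912 2) ndN0q1 ndN0q1 pcN2 Cut.none Ext.none)

def k0_pm_112 : ∃ t, chk3 f_pm_112 t 1 1 1 = true :=
  ⟨(a (b (b (a (l 3) (l 3)) (a (b (b (b (l 3) (b (l 3) (b (a (l 102173476023) (l 3)) (a (b (l 16880648) (l 16853904)) (b (l 16862728) (l 16857200)))))) (a (b (l 16869856) (l 16838216)) (l 16890784))) (a (b (l 16923656) (l 16965584)) (l 17059696))) (a (b (b (b (l 3) (b (a (l 3) (l 1)) (b (a (l 16843768) (l 1)) (b (l 16883728) (l 16867808))))) (b (l 16870816) (l 16841728))) (l 17051032)) (b (b (l 1) (l 161095288567)) (b (l 16939952) (l 16980608)))))) (a (b (a (b (l 17109048) (l 17236128)) (b (l 17024432) (l 17144376))) (b (a (b (l 17315432) (l 17415800)) (l 17251072)) (a (a (l 17865024) (l 17506496)) (a (l 17382872) (l 17305656))))) (b (a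 (b (l 17002128) (l 17084128)) (l 17338336)) (a (l 17290784) (l 17269056))))) (b (a (b (l 1) (b (l 1) (a (l 111703349319) (l 1)))) (l 1)) (b (a (a (l 103114092247) (b (l 17373032) (l 17270328))) (a (b (l 1) (l 113852056183)) (l 1))) (a (b (l 17399256) (l 17343432)) (a (b (l 17705064) (l 17448008)) (b (a (l 17733544) (l 1)) (l 20974068503))))))), by decide +kernel⟩

theorem c_pm_112 : CertN 536870912 536870912 536870912 536870912 67108864 67108864 3 true true false .dn 1 1 2
    ndN0q1 ndN0q1 pcN2 Cut.none Ext.none :=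
  certNK1 (fam := true) (s1 := true) (s2 := false) (a := 1) (b := 1) (c := 2) (cn := .dn) (n1 := ndN0q1) (n2 := ndN0q1) (pc := pcN2) (cut := Cut.none) (xt := Ext.none) (P1 := 536870912) (W1 := 536870912) (P2 := 536870912) (W2 := 536870912) (P3 := 67108864) (W3 := 67108864) (N0 := 3)
    rfl rfl rfl (fun _ => rfl) k0_pm_112

noncomputable def cut_pm_113 : Cut := Cut.of [[⟨0, 1, 0, 21338704⟩, ⟨1, 1, 0, 21338704⟩, ⟨2, 2, 0, 1685920⟩]]

noncomputable def f_pm_113 : ℕ → ℕ → ℕ → ℕ → Bool := onCell 536870912 536870912 536870912 536870912 67108864 67108864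
    (rowNK 3 0 true true false .nn 1 1 3 (qsf 536870912 536870912 536870912 536870912 3) ndN0q1 ndN0q1 pcN3 cut_pm_113 Ext.none)

def k0_pm_113 : ∃ t, chk3 f_pm_113 t 2 1 1 = true :=
  ⟨(b (a (l 1) (b (l 1) (a (l 1) (l 124588921639)))) (b (a (a (l 1) (b (l 1) (l 17776584))) (a (b (l 17437072) (l 17608840)) (l 17599256))) (a (b (b (a (l 1) (l 18135504)) (a (l 217468679655) (b (l 17985592) (l 17612680)))) (b (a (l 177202484999) (l 17507632)) (a (b (l 17647624) (l 17947304)) (b (l 17559304) (l 17824704))))) (b (b (a (l 17692680) (l 17459384)) (a (a (l 17881864) (l 17696872)) (a (l 17510112) (l 17372120)))) (b (a (l 17455168) (b (l 17290536) (l 17138792))) (a (b (l 17439728) (l 17697264)) (a (l 17546648) (l 17425296)))))))), by decide +kernel⟩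

def k1_pm_113 : ∃ t, chk3 f_pm_113 t 3 2 1 = true :=
  ⟨(a (b (b (l 1) (a (l 1) (l 17776584))) (b (a (l 17437072) (l 17608840)) (l 17599256))) (b (a (a (b (l 1) (l 18135504)) (b (l 217468679655) (a (l 17985592) (l 17612680)))) (a (b (l 61775238919) (l 17507632)) (b (a (l 17647624) (l 17947304)) (a (l 17559304) (l 17824704))))) (a (a (b (l 17692680) (l 17459384)) (b (b (l 17881864) (l 17696872)) (b (l 17510112) (l 17372120)))) (a (b (l 17455168) (a (l 17290536) (l 17138792))) (b (a (l 17439728) (l 17697264)) (b (l 17546648) (l 17425296))))))), by decide +kernel⟩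

def k2_pm_113 : ∃ t, chk3 f_pm_113 t 6 3 1 = true :=
  ⟨(b (a (l 17326808) (l 17273416)) (b (a (l 17224512) (l 17044640)) (a (b (a (l 17169824) (l 17093592)) (b (l 17202344) (l 17309688))) (b (b (l 17064576) (l 17102296)) (b (l 17177680) (l 17297704)))))), by decide +kernel⟩

def k3_pm_113 : ∃ t, chk3 f_pm_113 t 7 6 1 = true :=
  ⟨(a (b (l 17224512) (l 17044640)) (b (a (b (l 17169824) (l 17093592)) (a (l 17202344) (l 17309688))) (a (a (l 17064576) (l 17102296)) (a (l 17177680) (l 17297704))))), by decide +kernel⟩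

def k4_pm_113 : ∃ t, chk3 f_pm_113 t 14 7 1 = true :=
  ⟨(b (l 16976600) (b (a (l 17071480) (l 17005784)) (a (b (l 17109904) (l 17093792)) (b (b (l 17078408) (l 17145920)) (b (l 17123696) (l 17061608)))))), by decide +kernel⟩

def k5_pm_113 : ∃ t, chk3 f_pm_113 t 15 14 1 = true :=
  ⟨(a (b (l 17071480) (l 17005784)) (b (a (l 17109904) (l 17093792)) (a (a (l 17078408) (l 17145920)) (a (l 17123696) (l 17061608))))), by decide +kernel⟩

def k6_pm_113 : ∃ t, chk3 f_pm_113 t 15 30 1 = true :=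
  ⟨(a (l 16920592) (a (b (b (l 17028128) (l 16992600)) (l 16929920)) (b (a (b (l 17025536) (l 17036688)) (l 16996104)) (a (b (l 17014464) (a (l 16960816) (l 16972480))) (a (l 17004056) (l 16948160)))))), by decide +kernel⟩

def k7_pm_113 : ∃ t, chk3 f_pm_113 t 30 31 1 = true :=
  ⟨(b (a (a (l 17028128) (l 16992600)) (l 16929920)) (a (b (a (l 17025536) (l 17036688)) (l 16996104)) (b (a (l 17014464) (b (l 16960816) (l 16972480))) (b (l 17004056) (l 16948160))))), by decide +kernel⟩

def k8_pm_113 : ∃ t, chk3 f_pm_113 t 62 31 1 = true :=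
  ⟨(b (l 16869688) (b (a (a (l 17144088) (l 16908584)) (l 16865408)) (b (a (a (l 16946832) (l 16939472)) (a (l 16944960) (l 17046808))) (b (a (l 16849400) (l 16917936)) (l 16981408))))), by decide +kernel⟩

def k9_pm_113 : ∃ t, chk3 f_pm_113 t 63 31 1 = true :=
  ⟨(a (b (b (b (l 17144088) (l 16908584)) (l 16865408)) (b (l 16844296) (b (a (l 17001384) (l 16824624)) (b (a (l 16917616) (a (l 16865984) (a (l 16837120) (l 16850960)))) (b (a (l 16813824) (l 16859784)) (l 16886848)))))) (a (b (b (a (l 16937560) (l 16903288)) (b (l 16944960) (l 17046808))) (b (b (l 17001384) (l 16824624)) (b (l 16810712) (b (a (a (l 16893992) (l 16815248)) (l 16822768)) (b (a (l 16859616) (a (l 16833384) (a (l 16829160) (l 16825384)))) (b (l 16839064) (l 16832640))))))) (b (a (b (l 16849400) (l 16917936)) (l 16981408)) (a (b (b (l 16917616) (a (l 16860528) (a (l 16863544) (l 16859192)))) (b (a (l 16807184) (b (l 16821864) (l 16805400))) (b (l 16804440) (b (a (a (l 16835976) (l 16796704)) (l 16810704))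 (b (a (l 16818864) (a (l 16816120) (a (l 16813936) (l 16811992)))) (b (l 16808152) (l 16805088))))))) (b (a (b (l 16813824) (l 16859784)) (l 16886848)) (b (a (b (l 16859616) (a (l 16830560) (a (l 16832040) (l 16829680)))) (a (l 16839064) (l 16832640))) (a (a (b (l 16792544) (b (l 16782696) (b (a (l 16806688) (l 16787080)) (b (l 16798152) (l 16789952))))) (b (b (l 16800112) (l 16791576)) (b (l 16782184) (b (l 16794016) (b (a (l 16796752) (a (l 16795640) (l 16794656))) (a (l 16794608) (l 6))))))) (b (a (b (l 16818864) (b (l 16816120) (a (l 16792024) (l 16792704)))) (a (l 16808152) (l 16805088))) (a (b (b (a (l 16787328) (l 16788808)) (l 16794016)) (b (l 16789264) (l 6))) (b (a (b (l 16798152) (b (l 16796752) (a (l 16784680) (l 16785016)))) (a (l 16792688) (l 16791192))) (l 6))))))))))), by decide +kernel⟩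

theorem s10_pm_113 : ∃ t, chk3 f_pm_113 t 31 31 1 = true := ex3_a k8_pm_113 k9_pm_113

theorem s11_pm_113 : ∃ t, chk3 f_pm_113 t 15 31 1 = true := ex3_a k7_pm_113 s10_pm_113

theorem s12_pm_113 : ∃ t, chk3 f_pm_113 t 15 15 1 = true := ex3_b k6_pm_113 s11_pm_113

theorem s13_pm_113 : ∃ t, chk3 f_pm_113 t 15 7 1 = true := ex3_b k5_pm_113 s12_pm_113

theorem s14_pm_113 : ∃ t, chk3 f_pm_113 t 7 7 1 = true := ex3_a k4_pm_113 s13_pm_113

theorem s15_pm_113 : ∃ t, chk3 f_pm_113 t 7 3 1 = true := ex3_b k3_pm_113 s14_pm_113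

theorem s16_pm_113 : ∃ t, chk3 f_pm_113 t 3 3 1 = true := ex3_a k2_pm_113 s15_pm_113

theorem s17_pm_113 : ∃ t, chk3 f_pm_113 t 3 1 1 = true := ex3_b k1_pm_113 s16_pm_113

theorem s18_pm_113 : ∃ t, chk3 f_pm_113 t 1 1 1 = true := ex3_a k0_pm_113 s17_pm_113

theorem c_pm_113 : CertN 536870912 536870912 536870912 536870912 67108864 67108864 3 true true false .nn 1 1 3
    ndN0q1 ndN0q1 pcN3 cut_pm_113 Ext.none :=
  certNK0 (fam := true) (s1 := true) (s2 := false) (a := 1) (b := 1) (c := 3) (cn := .nn) (n1 := ndN0q1) (n2 := ndN0q1) (pc := pcN3) (cut := cut_pm_113) (xt := Ext.none) (P1 := 536870912) (W1 := 536870912) (P2 := 536870912) (W2 := 536870912) (P3 := 67108864) (W3 := 67108864) (N0 := 3)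
    rfl rfl rfl s18_pm_113

noncomputable def cut_pm_123 : Cut := Cut.of [[⟨0, 1, 0, 21338704⟩, ⟨1, 1, 0, 21338704⟩, ⟨2, 2, 0, 1685920⟩]]

noncomputable def f_pm_123 : ℕ → ℕ → ℕ → ℕ → Bool := onCell 1610612736 536870912 0 536870912 67108864 67108864
    (rowNK 3 2 true true false .npn 1 2 3 (qsf 536870912 536870912 0 536870912 3) ndN0q1 ndN0q2 pcN3 cut_pm_123 Ext.none)

def k0_pm_123 : ∃ t, chk3 f_pm_123 t 2 1 1 = true :=
  ⟨(b (a (b (l 1) (a (l 1) (l 128885342551))) (a (b (b (a (l 17189904) (l 17079784)) (l 17375824)) (b (l 17539360) (l 17902480))) (b (b (b (a (l 16885904) (b (l 76470785095) (l 16853080))) (a (l 17021832) (a (l 16944648) (l 16894976)))) (a (l 17161720) (l 17177600))) (b (a (l 17353864) (l 17233272)) (l 17697256))))) (a (b (a (l 1) (b (l 18353536) (l 17815584))) (b (a (l 17669464) (l 17533720)) (a (b (l 17515472) (l 17983032)) (b (l 17396000) (l 17890328))))) (b (a (b (b (l 17928144) (l 18144648)) (l 17831624)) (b (a (l 17764280) (l 17624592)) (b (l 17880032)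 (l 17620936)))) (b (a (l 17628232) (b (l 17457192) (l 17272304))) (a (b (l 17244160) (b (l 17495856) (l 17670664))) (b (l 17082624) (l 17588144))))))), by decide +kernel⟩

def k1_pm_123 : ∃ t, chk3 f_pm_123 t 6 1 1 = true :=
  ⟨(b (a (b (b (a (a (b (l 92039900839) (l 16847224)) (b (l 4) (l 56606427479))) (b (l 4) (a (l 100629839175) (l 4)))) (b (a (l 16885328) (a (l 16835864) (l 70028226967))) (a (l 16989640) (a (l 16913976) (l 16844608))))) (b (a (l 17117352) (b (l 16988256) (l 17046848))) (a (l 17293272) (l 17167184)))) (b (b (l 4) (a (b (a (l 114588453639) (l 4)) (a (b (l 45868975863) (l 16816304)) (l 89355581975))) (b (l 4) (l 4)))) (a (b (a (l 17064344) (b (l 16843744) (l 16913072))) (l 17171360)) (b (b (a (l 89355656199) (l 114588492183)) (a (l 16905272) (b (l 46405852887) (l 16810928)))) (a (l 16981448) (b (l 16877176) (l 16937768))))))) (b (a (b (a (l 17478576) (l 17334216)) (a (l 17636008) (l 17522896))) (b (a (l 17192960) (l 17165096)) (a (l 17434376) (l 17315616))))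 (a (b (b (l 17384256) (l 17277608)) (b (l 17061384) (l 17297408))) (b (a (l 17243328) (l 17329152)) (b (l 17069000) (a (l 17022200) (l 16976848))))))), by decide +kernel⟩

def k2_pm_123 : ∃ t, chk3 f_pm_123 t 14 1 1 = true :=
  ⟨(b (b (l 4) (a (b (b (l 4) (a (l 95798050599) (l 4))) (b (a (a (l 16841360) (l 16818672)) (b (l 99019210167) (l 68954477463))) (a (l 16885728) (l 16837672)))) (b (l 4) (a (b (b (l 4) (l 130157706199)) (b (l 83449991191) (a (l 16816608) (l 16795584)))) (b (l 4) (a (l 125862749575) (l 4))))))) (b (a (b (a (l 16969816) (l 16997928)) (l 17198120)) (b (a (b (l 16840232) (l 16886216)) (b (a (l 22783501223) (b (l 98482288199) (l 16796904))) (l 16805944))) (a (l 16976424) (b (l 16877776) (l 16918320))))) (b (a (b (l 17116120) (l 17080200)) (b (l 17094032) (l 17062816))) (b (a (l 17011288) (l 16965088)) (b (l 16984472) (a (l 16919824) (a (l 16903160) (l 16896160)))))))), by decide +kernel⟩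

def k3_pm_123 : ∃ t, chk3 f_pm_123 t 15 2 1 = true :=
  ⟨(l 4), by decide +kernel⟩

def k4_pm_123 : ∃ t, chk3 f_pm_123 t 15 6 1 = true :=
  ⟨(a (b (a (b (a (b (l 4) (l 99556049143)) (l 4)) (b (a (l 16795760) (l 105461629031)) (a (l 16813936) (a (l 16798456) (l 16788560))))) (b (l 4) (a (b (l 4) (a (l 83449917303) (l 158074946263))) (l 4)))) (a (b (a (l 16840816) (l 16797224)) (l 16884296)) (b (a (b (l 83449953927) (l 16784080)) (b (a (l 114051561255) (l 4)) (a (l 16790280) (b (l 104387860951) (l 16794728))))) (a (l 16847952) (b (l 16798896) (l 16811880)))))) (a (b (l 4) (a (b (b (l 4) (a (b (l 4) (l 132842024535)) (l 4))) (b (a (l 81839313207) (a (l 93650453271) (b (l 4) (l 129083925383)))) (a (l 16796560) (b (l 78618072695) (l 16789912))))) (b (l 4) (b (l 4) (a (a (b (l 105998473287) (l 16783152)) (b (l 4) (l 81839286567))) (b (l 4) (a (l 186529121383) (l 4)))))))) (l 4))), by decide +kernel⟩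

def k5_pm_123 : ∃ t, chk3 f_pm_123 t 30 7 1 = true :=
  ⟨(b (a (b (l 16897384) (l 16924040)) (b (a (l 16855904) (l 16830800)) (a (l 16882904) (l 16855176)))) (b (a (l 16917176) (l 16878568)) (a (a (l 17075920) (l 17069008)) (b (l 16873256) (l 17075072))))), by decide +kernel⟩

def k6_pm_123 : ∃ t, chk3 f_pm_123 t 62 7 1 = true :=
  ⟨(b (b (a (b (l 16781920) (l 16813712)) (a (b (b (l 16785984) (l 16790848)) (l 16797944)) (b (b (a (b (l 98482279175) (l 16791000)) (b (l 4) (l 161833052951))) (a (l 16805064) (l 95261058439))) (b (l 16786320) (l 16790576))))) (a (l 16829288) (a (l 16811488) (l 16821552)))) (b (a (l 16845112) (l 16862984)) (a (l 17001080) (a (l 16951416) (l 16925048))))), by decide +kernel⟩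

def k7_pm_123 : ∃ t, chk3 f_pm_123 t 126 7 1 = true :=
  ⟨(b (b (a (b (a (a (b (l 4) (b (l 4) (l 109219698311))) (l 4)) (l 4)) (a (b (c (l 95797929111) (l 94724186951)) (l 16804816)) (a (b (b (l 4) (l 108682827527)) (l 16791136)) (b (l 4) (b (l 113514666167) (l 16789992)))))) (b (l 4) (a (a (b (l 4) (b (l 4) (l 123178343303))) (l 4)) (l 4)))) (a (a (l 16808760) (b (l 16795504) (l 16791808))) (b (a (b (a (l 86671116055) (a (l 97945402711) (b (l 216593864119) (l 95261042967)))) (l 16782456)) (a (a (b (b (l 4) (l 130694525191)) (l 16779888)) (b (l 4) (l 94187305719))) (b (l 4) (a (b (l 172570458183) (l 16783816)) (b (l 4) (l 111367171527)))))) (a (l 16808088) (a (l 16783792) (b (l 16785576) (l 16783088))))))) (b (a (l 16845200) (b (l 16811472) (l 16816288))) (b (l 16849392) (a (l 16900312) (a (l 16875320) (l 16851608)))))), by decide +kernel⟩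

def k8_pm_123 : ∃ t, chk3 f_pm_123 t 254 7 1 = true :=
  ⟨(b (b (l 4) (b (a (a (a (b (l 4) (b (l 4) (l 232700003111))) (l 4)) (l 4)) (l 4)) (b (a (b (a (a (l 96871655415) (b (l 4) (l 125325815319))) (l 4)) (a (l 16783584) (a (l 117272751927) (b (l 4) (l 245584903335))))) (l 4)) (a (a (l 16781000) (a (l 16779504) (b (l 83986754119) (l 16789632)))) (a (a (b (a (b (l 4) (l 104924716263)) (l 4)) (l 93113558791)) (b (l 4) (b (c (l 249879871159) (l 260617278599)) (l 118883364295)))) (l 4)))))) (b (b (a (c (l 16794200) (l 16793904)) (a (b (b (l 87207981143) (l 16779944)) (l 16781504)) (b (b (a (a (l 100629750119) (b (l 4) (l 103850974567))) (l 4)) (a (l 16783736) (a (l 96871653143) (b (l 279944640903) (l 101703489303))))) (c (l 16784792) (l 16784672))))) (a (l 16787936) (a (l 16784384) (l 16792640)))) (b (a (l 16813776) (c (l 16808200) (l 16813040))) (a (l 16843584) (a (l 16825728) (l 16819080)))))), by decide +kernel⟩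

def k9_pm_123 : ∃ t, chk3 f_pm_123 t 255 14 1 = true :=
  ⟨(l 4), by decide +kernel⟩

def k10_pm_123 : ∃ t, chk3 f_pm_123 t 255 30 1 = true :=
  ⟨(b (a (a (b (a (a (b (l 4) (b (l 4) (c (l 267059736055) (l 278870888023)))) (l 4)) (l 4)) (b (b (a (a (l 98482263671) (a (l 224110058727) (l 4))) (l 4)) (a (l 93113556871) (a (a (l 109219683719) (l 4)) (l 4)))) (a (l 16778520) (a (l 93113555895) (a (l 101166620695) (b (l 4) (l 16779512))))))) (b (l 4) (a (a (a (b (l 4) (b (l 4) (c (l 228941896983) (l 109756554743)))) (l 4)) (l 4)) (l 4)))) (l 4)) (a (a (a (l 16785808) (b (l 16781448) (l 16780344))) (b (a (b (a (l 93113556647) (a (c (l 101703492311) (l 101703492599)) (b (l 4) (l 102240360199)))) (l 16783520)) (b (a (a (a (b (l 4) (l 285313342839)) (l 4)) (l 4)) (l 4)) (b (a (l 101166620615) (a (c (l 341684785303) (l 358864654231)) (l 4))) (a (l 16777776) (c (l 102777234327) (l 101703492775)))))) (a (l 16784584) (b (c (l 16781024) (l 16780648)) (l 16778704))))) (b (l 4) (a (a (b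 (b (a (a (l 100629748391) (b (l 4) (l 118883359655))) (l 4)) (a (l 91502941703) (a (b (l 380339495063) (l 102240359415)) (l 4)))) (a (l 16783248) (a (l 16780272) (b (l 101703490407) (l 16777584))))) (b (l 4) (a (b (a (a (b (l 4) (l 108145939895)) (l 4)) (l 4)) (a (l 94187296023) (b (l 4) (l 114051521415)))) (l 4)))) (l 4))))), by decide +kernel⟩

def k11_pm_123 : ∃ t, chk3 f_pm_123 t 255 31 1 = true :=
  ⟨(b (a (a (a (l 16804216) (l 16797640)) (b (l 16785360) (l 16794120))) (b (a (a (l 16782536) (b (a (c (l 87744846375) (l 83986749943)) (a (b (a (l 99556005799) (b (l 4) (l 104387843287))) (l 16780048)) (b (l 4) (a (l 95261037703) (l 6))))) (l 6))) (b (b (l 4) (l 4)) (l 6))) (a (a (l 16784840) (l 6)) (l 6)))) (a (a (b (l 16785512) (l 16813336)) (b (l 16793752) (a (l 16801752) (l 16801032)))) (a (a (b (l 16791640) (c (l 16800320) (l 16795072))) (l 6)) (l 6)))), by decide +kernel⟩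

theorem s12_pm_123 : ∃ t, chk3 f_pm_123 t 255 15 1 = true := ex3_b k10_pm_123 k11_pm_123

theorem s13_pm_123 : ∃ t, chk3 f_pm_123 t 255 7 1 = true := ex3_b k9_pm_123 s12_pm_123

theorem s14_pm_123 : ∃ t, chk3 f_pm_123 t 127 7 1 = true := ex3_a k8_pm_123 s13_pm_123

theorem s15_pm_123 : ∃ t, chk3 f_pm_123 t 63 7 1 = true := ex3_a k7_pm_123 s14_pm_123

theorem s16_pm_123 : ∃ t, chk3 f_pm_123 t 31 7 1 = true := ex3_a k6_pm_123 s15_pm_123

theorem s17_pm_123 : ∃ t, chk3 f_pm_123 t 15 7 1 = true := ex3_a k5_pm_123 s16_pm_123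

theorem s18_pm_123 : ∃ t, chk3 f_pm_123 t 15 3 1 = true := ex3_b k4_pm_123 s17_pm_123

theorem s19_pm_123 : ∃ t, chk3 f_pm_123 t 15 1 1 = true := ex3_b k3_pm_123 s18_pm_123

theorem s20_pm_123 : ∃ t, chk3 f_pm_123 t 7 1 1 = true := ex3_a k2_pm_123 s19_pm_123

theorem s21_pm_123 : ∃ t, chk3 f_pm_123 t 3 1 1 = true := ex3_a k1_pm_123 s20_pm_123

theorem s22_pm_123 : ∃ t, chk3 f_pm_123 t 1 1 1 = true := ex3_a k0_pm_123 s21_pm_123

theorem c_pm_123 : CertN 536870912 536870912 0 536870912 67108864 67108864 3 true true false .npn 1 2 3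
    ndN0q1 ndN0q2 pcN3 cut_pm_123 Ext.none :=
  certNK2 (fam := true) (s1 := true) (s2 := false) (a := 1) (b := 2) (c := 3) (cn := .npn) (n1 := ndN0q1) (n2 := ndN0q2) (pc := pcN3) (cut := cut_pm_123) (xt := Ext.none) (P1 := 536870912) (W1 := 536870912) (P2 := 0) (W2 := 536870912) (P3 := 67108864) (W3 := 67108864) (N0 := 3)
    rfl rfl rfl (fun _ => rfl) s22_pm_123

noncomputable def cut_pm_202 : Cut := Cut.of [[⟨0, 1, 0, 67108864⟩, ⟨1, 0, 0, 67108864⟩, ⟨2, 1, 0, 67108864⟩], [⟨0, 1, 0, 8388608⟩, ⟨1, 0, 1, 33554432⟩, ⟨2, 1, 1, 33554432⟩, ⟨1, 0, 0, 150994944⟩, ⟨1, 1, 0, 1023410176⟩, ⟨2, 1, 0, 150994944⟩, ⟨2, 2, 0, 1023410176⟩]]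

noncomputable def f_pm_202 : ℕ → ℕ → ℕ → ℕ → Bool := onCell 0 536870912 1073741824 536870912 67108864 67108864
    (rowNK 3 1 true true false .pp 2 0 2 (qsf 0 536870912 0 536870912 2) ndN0q2 ndN0q0 pcN2 cut_pm_202 Ext.none)

def k0_pm_202 : ∃ t, chk3 f_pm_202 t 2 1 1 = true :=
  ⟨(b (b (b (l 1) (a (l 1) (a (l 1) (a (l 1) (b (l 1) (b (l 1) (b (l 1) (c (l 18081760) (a (l 17122808) (l 17055376)))))))))) (b (a (b (b (l 1) (a (l 17904920) (a (l 18110504) (l 17865416)))) (a (l 18077968) (c (l 18467696) (l 17886112)))) (a (b (b (b (l 1) (a (l 17857048) (a (l 17877088) (l 17729640)))) (a (a (l 17870792) (l 17955696)) (l 17853000))) (a (l 18011976) (l 18098720))) (a (b (b (c (l 18252176) (b (a (l 17341952) (l 17317776)) (l 17462112))) (l 17794416)) (l 18053120)) (b (c (l 18224400) (b (b (l 17169960) (l 17402152)) (l 17548216))) (l 17919144))))) (a (b (l 18161640) (l 18094520)) (b (a (l 18124864) (l 18064888)) (l 18068192))))) (b (a (b (l 17970016) (l 17792016)) (b (a (l 18006056)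 (l 18003096)) (l 17878888))) (a (b (l 17616088) (l 17447016)) (b (l 17742120) (l 17596128))))), by decide +kernel⟩

def k1_pm_202 : ∃ t, chk3 f_pm_202 t 3 8 1 = true :=
  ⟨(a (l 1) (a (b (l 1) (b (a (l 1) (l 6)) (a (b (l 1) (a (l 1) (a (b (l 1) (a (l 16694744) (l 16693992))) (b (l 6) (l 16692864))))) (b (l 6) (b (l 6) (a (l 16698448) (c (l 16693032) (l 16686920)))))))) (b (l 6) (b (l 6) (b (l 6) (b (l 6) (a (a (c (l 16691848) (l 16704840)) (a (l 16714176) (l 16725696))) (b (l 6) (b (l 6) (b (l 6) (b (l 6) (a (a (l 16737008) (l 16748344)) (a (c (l 16750432) (l 16737120)) (a (c (l 16748384) (l 16745320)) (a (c (l 16752592) (l 16749408)) (a (c (l 16757312) (l 16751456)) (c (c (l 14) (c (l 14) (c (l 14) (l 16754664)))) (c (l 16755272) (l 16751992))))))))))))))))))), by decide +kernel⟩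

def k2_pm_202 : ∃ t, chk3 f_pm_202 t 6 9 1 = true :=
  ⟨(b (a (l 1) (b (a (l 1) (b (l 1) (a (b (l 1) (l 16693680)) (a (b (l 16692512) (l 16689800)) (b (l 16690208) (l 16687232)))))) (a (b (a (l 1) (l 16696496)) (a (l 16699608) (b (l 16693208) (l 16691216)))) (a (b (a (l 16692000) (l 16689040)) (l 16685544)) (b (l 16684640) (l 16678552)))))) (b (b (a (a (l 1) (a (l 1) (l 16699880))) (a (a (l 16696264) (l 16777072)) (a (l 16776680) (l 16758776)))) (a (a (c (l 17753848) (l 16720824)) (c (a (l 17675904) (l 17679616)) (a (l 16707176) (l 16698352)))) (c (a (l 17378912) (a (l 17542808) (l 17458120))) (a (l 16685400) (l 16678624))))) (a (c (a (b (l 17865208) (l 18011696)) (l 17709376)) (a (b (l 16725648) (l 16908216)) (l 16718688))) (c (a (c (l 18013792) (l 17512736)) (b (l 17517904) (l 17739600))) (a (b (l 16760448) (l 16931224)) (a (l 16750624) (l 16736112))))))), by decide +kernel⟩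

def k3_pm_202 : ∃ t, chk3 f_pm_202 t 14 18 1 = true :=
  ⟨(b (a (a (b (a (b (l 1) (l 16696352)) (b (c (l 16693944) (l 16691008)) (l 16689080))) (a (l 16686888) (l 16684464))) (b (a (l 16700176) (l 16698272)) (c (l 16692456) (l 16690112)))) (a (b (b (l 16691480) (l 16723776)) (b (l 16677376) (l 16672864))) (b (c (a (l 16703344) (l 16701072)) (l 16696176)) (a (l 16692864) (l 16690192))))) (a (a (b (l 16689192) (l 16671512)) (b (a (l 16674176) (l 16671136)) (l 16706304))) (a (b (a (l 16668056) (l 16685888)) (l 16719904)) (b (a (l 16682688) (l 16679400)) (a (l 16672360) (l 16668696)))))), by decide +kernel⟩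

def k4_pm_202 : ∃ t, chk3 f_pm_202 t 30 36 1 = true :=
  ⟨(a (b (c (a (l 16698736) (b (l 16701536) (l 16699952))) (l 16691640)) (a (c (b (l 16689472) (l 16684608)) (l 16687424)) (l 16738072))) (b (a (a (l 16707928) (l 16713808)) (b (l 16724312) (l 16722904))) (b (a (l 16709648) (l 16721392)) (a (l 16708080) (l 16719848))))), by decide +kernel⟩

def k5_pm_202 : ∃ t, chk3 f_pm_202 t 62 36 1 = true :=
  ⟨(b (a (b (l 16725392) (l 16723960)) (a (c (l 16733424) (l 16730904)) (b (l 16750024) (l 16748688)))) (b (a (l 16732984) (a (l 16720656) (l 16747368))) (a (l 16731544) (a (l 16719304) (l 16746080))))), by decide +kernel⟩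

def k6_pm_202 : ∃ t, chk3 f_pm_202 t 126 36 1 = true :=
  ⟨(a (b (b (l 16739904) (l 16738624)) (b (l 16737368) (l 16736136))) (b (a (b (l 16749344) (l 16748112)) (b (l 16746896) (l 16745688))) (c (l 14) (a (l 16743768) (l 16746584))))), by decide +kernel⟩

def k7_pm_202 : ∃ t, chk3 f_pm_202 t 127 36 2 = true :=
  ⟨(c (l 14) (c (l 14) (b (b (a (l 16751464) (b (a (l 16750984) (a (l 16753064) (a (l 16754112) (b (b (l 16755760) (l 14)) (l 14))))) (a (l 16750416) (l 14)))) (a (l 16750336) (l 14))) (l 14)))), by decide +kernel⟩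

def k8_pm_202 : ∃ t, chk3 f_pm_202 t 127 36 3 = true :=
  ⟨(b (b (b (a (l 16744856) (a (l 16754200) (c (a (l 16751832) (a (l 16754176) (b (b (l 16755176) (l 16755024)) (b (l 16754872) (l 16754728))))) (a (l 16750184) (b (l 16753072) (l 16752752)))))) (a (l 16744200) (a (l 16753568) (a (c (l 16751240) (l 16749536)) (b (a (l 16754256) (c (c (c (l 16753816) (l 16753392)) (l 16752744)) (l 16751456))) (a (l 16753952) (c (c (c (l 16754192) (l 16753104)) (l 16752448)) (l 16751136)))))))) (b (a (l 16743560) (a (l 16752944) (a (c (l 16750648) (l 16748896)) (a (c (l 16753000) (l 16749920)) (b (c (a (l 16752424) (b (l 16754168) (l 16754024))) (l 16750824)) (c (c (c (l 14) (l 16752528)) (l 16751856)) (l 16750504))))))) (a (l 16742920) (a (l 16752328) (c (a (l 16750072) (a (l 16752432) (c (c (l 14) (b (l 16752240) (l 16751960))) (b (l 16751560) (l 16751272))))) (a (l 16748264) (a (l 16749296) (b (l 16750192) (l 16749880))))))))) (b (b (a (l 16742288) (a (l 16746480) (a (c (l 16749496)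 (l 16747640)) (a (c (l 16751864) (l 16748680)) (b (c (c (b (l 16752000) (l 14)) (l 16750984)) (l 16749576)) (c (c (l 14) (l 16750696)) (l 16751888))))))) (a (l 16741664) (a (l 16745872) (c (a (l 16748936) (a (l 16751304) (c (l 14) (b (l 16751720) (l 16750776))))) (a (l 16747024) (a (l 16748064) (b (l 16750272) (l 16749968)))))))) (a (c (l 16746736) (l 16739608)) (a (b (l 16745280) (l 16744696)) (c (c (l 14) (a (b (l 16747888) (l 16747328)) (b (b (b (l 16750880) (l 16750744)) (b (l 16750600) (l 16750464))) (a (l 16748392) (a (l 16748928) (b (l 16749464) (l 16749848))))))) (b (a (l 16746416) (a (l 16747464) (b (l 16749664) (l 16749368)))) (a (l 16745816) (b (c (l 16749224) (l 16746904)) (b (l 16748512) (l 16749016)))))))))), by decide +kernel⟩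

def k9_pm_202 : ∃ t, chk3 f_pm_202 t 15 37 1 = true :=
  ⟨(a (a (b (c (a (l 16796736) (l 16797936)) (l 16683480)) (a (l 16677440) (c (l 16887352) (l 16688656)))) (a (b (l 16725976) (l 16722896)) (b (c (l 16763224) (l 16715624)) (l 16735048)))) (a (b (a (a (l 16725824) (l 16721248)) (c (b (l 16745744) (l 16764448)) (l 16728416))) (a (a (l 16723160) (l 16729192)) (b (l 16744616) (l 16743408)))) (a (a (b (b (l 16740176) (l 16749480)) (b (l 16748336) (l 16747216))) (b (c (l 14) (c (l 16743808) (l 16741896))) (c (c (l 17063608) (l 14)) (l 16740608)))) (b (c (l 14) (b (a (l 16747232) (a (b (l 16744120) (l 16743552)) (c (b (c (l 14) (c (l 14) (a (l 16746512) (c (l 14) (b (l 16749304) (l 14)))))) (l 14)) (a (b (l 16745224) (l 16744640)) (b (a (l 16746280) (b (c (l 16747696) (l 16746648)) (c (l 16747408) (l 16746352)))) (a (l 16745704) (b (c (l 16747128) (l 16746056)) (b (l 16747704) (l 16747560))))))))) (a (l 16743464) (c (l 14) (a (l 16746720) (b (a (l 16744064) (a (l 16745128)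 (b (b (l 16747416) (l 16747272)) (c (l 16747608) (l 16745184))))) (a (l 16743496) (c (c (l 14) (b (l 16746696) (l 16746416))) (b (l 16744544) (l 16745568)))))))))) (c (c (c (l 17251296) (l 14)) (l 14)) (c (l 14) (b (a (l 16736000) (a (l 16740352) (a (b (l 16742936) (l 16742384)) (a (b (l 16744016) (l 16743472)) (b (b (c (c (l 14) (l 16745192)) (l 16744328)) (c (l 14) (l 16744048))) (c (l 14) (b (l 16743776) (l 16743496)))))))) (a (l 16734864) (c (l 14) (a (l 16738656) (a (l 16740840) (a (b (l 16742328) (l 16741792)) (b (b (l 16743224) (l 16742952)) (b (l 16742680) (l 16743728))))))))))))))), by decide +kernel⟩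

def k10_pm_202 : ∃ t, chk3 f_pm_202 t 7 19 1 = true :=
  ⟨(b (b (a (a (a (l 16744744) (l 16756024)) (a (l 16751176) (l 16730552))) (a (a (a (l 16755360) (l 16759696)) (a (l 16765496) (l 16751808))) (a (a (a (l 16758272) (l 16763056)) (a (l 16747248) (a (l 16751368) (l 16743752)))) (c (c (a (l 17316880) (b (l 17276640) (l 17331560))) (a (a (l 16806496) (l 14)) (l 14))) (b (a (l 16731224) (c (l 14) (a (l 16733752) (a (l 16738192) (b (c (l 14) (a (l 16740160) (b (b (l 16743168) (l 16743032)) (l 14)))) (l 14)))))) (a (l 16730104) (a (l 16739160) (l 14)))))))) (c (a (a (a (l 17396424) (l 17358208)) (a (l 17301872) (l 17227664))) (a (c (l 17497872) (a (l 17130760) (l 17034560))) (c (a (l 17444368) (l 17391376)) (b (a (l 16973360) (a (l 17035072) (l 14))) (a (l 17141800) (a (l 17137424) (l 17009928))))))) (a (a (a (l 16654904) (l 16646168)) (a (l 16658520) (l 16650648))) (a (a (l 16675768) (a (l 16673496) (l 16685904))) (a (a (l 16698264) (l 16721064)) (a (a (l 16719800) (l 14))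 (l 14))))))) (a (c (a (a (l 17547376) (l 17527976)) (a (l 17447720) (l 17348776))) (a (a (l 16725080) (l 16738848)) (a (b (l 16712240) (l 16877384)) (b (l 16717448) (l 16875736))))) (b (a (c (a (l 17435536) (l 17322336)) (a (l 16727760) (l 16732944))) (a (c (l 17212304) (a (l 16758792) (l 16728840))) (c (c (l 17497640) (a (l 17218632) (b (l 17189272) (l 17238592)))) (a (a (l 16738752) (l 14)) (l 14))))) (a (c (l 17300208) (a (l 16857528) (l 16760072))) (c (a (l 17465768) (a (l 17445872) (l 17412368))) (a (a (l 16831688) (l 16755104)) (c (a (l 16898008) (c (b (l 14) (l 17137432)) (l 14))) (a (l 16725840) (l 14))))))))), by decide +kernel⟩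

def k11_pm_202 : ∃ t, chk3 f_pm_202 t 6 5 1 = true :=
  ⟨(a (b (b (c (b (l 17954848) (l 18135792)) (b (a (b (l 17214904) (l 17342496)) (b (l 17158040) (l 17285248))) (a (l 17491320) (l 17435552)))) (a (l 17781864) (l 17663264))) (b (l 17988568) (l 18006480))) (b (c (b (b (a (l 17931912) (l 17846680)) (l 17979976)) (l 18057296)) (b (b (a (b (l 17106680) (l 17232488)) (a (l 17075648) (l 17034480))) (a (l 17361640) (l 17124456))) (a (l 17560408) (b (l 17478328) (l 17581376))))) (b (a (l 17926624) (l 17883256)) (l 17947928)))), by decide +kernel⟩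

def k12_pm_202 : ∃ t, chk3 f_pm_202 t 7 5 1 = true :=
  ⟨(b (b (c (a (a (b (l 17764680) (l 17865928)) (b (l 17687664) (l 17792056))) (a (b (l 17407552) (l 17722568)) (a (b (l 17570040) (l 17674520)) (b (b (l 17509592) (l 17569960)) (b (l 17621080) (l 17666248)))))) (b (a (a (a (l 17016824) (l 16980984)) (a (l 16906280) (b (l 17007752) (l 17118944)))) (b (a (a (l 16963096) (l 16859552)) (a (b (l 16754472) (l 16849008)) (c (a (l 17143696) (b (l 17122096) (l 17166568))) (a (a (l 16869912) (l 14)) (l 14))))) (a (a (l 17112272) (l 17004264)) (a (a (l 17067224) (l 16984496)) (c (a (l 17229080) (b (l 17208008) (l 17246720))) (a (l 16890528) (a (l 16874968) (b (l 14) (a (l 17026288) (a (l 17027656) (l 16965656))))))))))) (a (a (a (l 17302136) (l 17282952)) (a (l 17265928) (l 17209320))) (a (a (l 17113336) (b (l 17193608) (l 17264040))) (b (a (l 17063584) (a (l 17083536) (a (l 17083736) (a (l 17084032) (b (l 17026528) (l 17183784)))))) (a (l 17234776) (a (l 17251568) (b (l 17172224)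 (b (l 17257224) (l 17187784)))))))))) (b (a (a (l 17475040) (a (l 17602464) (l 17534776))) (c (a (l 17801440) (l 17740680)) (a (a (l 17369408) (l 17355160)) (a (l 17280360) (a (l 17336168) (l 17227432)))))) (a (a (l 17760768) (l 17689656)) (a (l 17454224) (a (l 17590736) (l 17425000)))))) (a (b (a (l 17839832) (l 17797640)) (l 17887304)) (a (b (l 17611392) (l 17847496)) (b (a (l 17731824) (l 17548160)) (l 17825096))))), by decide +kernel⟩

def k13_pm_202 : ∃ t, chk3 f_pm_202 t 3 3 1 = true :=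
  ⟨(b (a (b (a (l 17986672) (l 17963608)) (l 17919704)) (a (b (a (l 17946920) (l 17936864)) (l 17950080)) (b (a (l 17929712) (l 17927040)) (l 17980576)))) (a (b (l 17833248) (l 17718432)) (a (l 17936240) (b (l 17972872) (l 17917760))))), by decide +kernel⟩

theorem s14_pm_202 : ∃ t, chk3 f_pm_202 t 3 5 1 = true := ex3_a k11_pm_202 k12_pm_202

theorem s15_pm_202 : ∃ t, chk3 f_pm_202 t 127 36 1 = true := ex3_c k7_pm_202 k8_pm_202

theorem s16_pm_202 : ∃ t, chk3 f_pm_202 t 63 36 1 = true := ex3_a k6_pm_202 s15_pm_202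

theorem s17_pm_202 : ∃ t, chk3 f_pm_202 t 31 36 1 = true := ex3_a k5_pm_202 s16_pm_202

theorem s18_pm_202 : ∃ t, chk3 f_pm_202 t 15 36 1 = true := ex3_a k4_pm_202 s17_pm_202

theorem s19_pm_202 : ∃ t, chk3 f_pm_202 t 15 18 1 = true := ex3_b s18_pm_202 k9_pm_202

theorem s20_pm_202 : ∃ t, chk3 f_pm_202 t 7 18 1 = true := ex3_a k3_pm_202 s19_pm_202

theorem s21_pm_202 : ∃ t, chk3 f_pm_202 t 7 9 1 = true := ex3_b s20_pm_202 k10_pm_202

theorem s22_pm_202 : ∃ t, chk3 f_pm_202 t 3 9 1 = true := ex3_a k2_pm_202 s21_pm_202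

theorem s23_pm_202 : ∃ t, chk3 f_pm_202 t 3 4 1 = true := ex3_b k1_pm_202 s22_pm_202

theorem s24_pm_202 : ∃ t, chk3 f_pm_202 t 3 2 1 = true := ex3_b s23_pm_202 s14_pm_202

theorem s25_pm_202 : ∃ t, chk3 f_pm_202 t 3 1 1 = true := ex3_b s24_pm_202 k13_pm_202

theorem s26_pm_202 : ∃ t, chk3 f_pm_202 t 1 1 1 = true := ex3_a k0_pm_202 s25_pm_202

theorem c_pm_202 : CertN 0 536870912 0 536870912 67108864 67108864 3 true true false .pp 2 0 2
    ndN0q2 ndN0q0 pcN2 cut_pm_202 Ext.none :=
  certNK1 (fam := true) (s1 := true) (s2 := false) (a := 2) (b := 0) (c := 2) (cn := .pp) (n1 := ndN0q2) (n2 := ndN0q0) (pc := pcN2) (cut := cut_pm_202) (xt := Ext.none) (P1 := 0) (W1 := 536870912) (P2 := 0) (W2 := 536870912) (P3 := 67108864) (W3 := 67108864) (N0 := 3)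
    rfl rfl rfl (fun _ => rfl) s26_pm_202

noncomputable def f_pm_203 : ℕ → ℕ → ℕ → ℕ → Bool := onCell 0 536870912 1610612736 536870912 67108864 67108864
    (rowNK 3 1 true true false .up 2 0 3 (qsf 0 536870912 0 536870912 3) ndN0q2 ndN0q0 pcN3 Cut.none Ext.none)

def k0_pm_203 : ∃ t, chk3 f_pm_203 t 1 1 1 = true :=
  ⟨(b (b (a (a (b (a (l 17599184) (l 17821096)) (a (l 17362632) (l 17575504))) (b (a (l 18050200) (l 18305872)) (a (l 17794904) (l 18025552)))) (a (a (b (l 18442696) (l 18311136)) (b (l 17856568) (l 17815376))) (a (b (l 17626912) (l 17533704)) (b (a (l 17515696) (l 17962152)) (l 2))))) (a (b (a (a (a (l 106401970759) (l 17184296)) (l 17333736)) (b (l 17941896) (l 2))) (l 2)) (a (l 2) (l 2)))) (l 2)), by decide +kernel⟩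

theorem c_pm_203 : CertN 0 536870912 0 536870912 67108864 67108864 3 true true false .up 2 0 3
    ndN0q2 ndN0q0 pcN3 Cut.none Ext.none :=
  certNK1 (fam := true) (s1 := true) (s2 := false) (a := 2) (b := 0) (c := 3) (cn := .up) (n1 := ndN0q2) (n2 := ndN0q0) (pc := pcN3) (cut := Cut.none) (xt := Ext.none) (P1 := 0) (W1 := 536870912) (P2 := 0) (W2 := 536870912) (P3 := 67108864) (W3 := 67108864) (N0 := 3)
    rfl rfl rfl (fun _ => rfl) k0_pm_203

noncomputable def cut_pm_213 : Cut := Cut.of [[⟨0, 1, 0, 21338704⟩, ⟨1, 1, 0, 21338704⟩, ⟨2, 2, 0, 1685920⟩]]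

noncomputable def f_pm_213 : ℕ → ℕ → ℕ → ℕ → Bool := onCell 0 536870912 1610612736 536870912 67108864 67108864
    (rowNK 3 1 true true false .pnn 2 1 3 (qsf 0 536870912 536870912 536870912 3) ndN0q2 ndN0q1 pcN3 cut_pm_213 Ext.none)

def k0_pm_213 : ∃ t, chk3 f_pm_213 t 1 2 1 = true :=
  ⟨(a (b (a (l 1) (b (l 1) (l 128885342551))) (b (a (a (b (l 17189904) (l 17079784)) (l 17375824)) (a (l 17539360) (l 17902480))) (a (a (a (b (l 16885904) (a (l 76470785095) (l 16853080))) (b (l 17021832) (b (l 16944648) (l 16894976)))) (b (l 17161720) (l 17177600))) (a (b (l 17353864) (l 17233272)) (l 17697256))))) (b (a (b (l 1) (a (l 18353536) (l 17815584))) (a (b (l 17669464) (l 17533720)) (b (a (l 17515472) (l 17983032)) (a (l 17396000) (l 17890328))))) (a (b (a (a (l 17928144) (l 18144648)) (l 17831624)) (a (b (l 17764280) (l 17624592)) (a (l 17880032) (l 17620936)))) (a (b (l 17628232) (a (l 17457192) (l 17272304))) (b (a (l 17244160) (a (l 17495856) (l 17670664))) (a (l 17082624) (l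 17588144))))))), by decide +kernel⟩

def k1_pm_213 : ∃ t, chk3 f_pm_213 t 1 6 1 = true :=
  ⟨(a (b (a (a (b (a (b (l 92039900839) (l 4)) (b (l 16847224) (l 56606427399))) (a (l 4) (b (l 100629839175) (l 4)))) (a (b (l 16885328) (b (l 16835864) (l 70028226967))) (b (l 16989640) (b (l 16913976) (l 16844608))))) (a (b (l 17117352) (a (l 16988256) (l 17046848))) (b (l 17293272) (l 17167184)))) (a (a (l 4) (b (a (b (l 114588453639) (l 4)) (b (a (l 45868975863) (l 16816304)) (l 89355581975))) (a (l 4) (l 4)))) (b (a (b (l 17064344) (a (l 16843744) (l 16913072))) (l 17171360)) (a (a (b (l 89355656199) (l 114588492183)) (b (l 16905272) (a (l 46405852887) (l 16810928)))) (b (l 16981448) (a (l 16877176) (l 16937768))))))) (a (b (a (b (l 17478576) (l 17334216)) (b (l 17636008) (l 17522896))) (a (b (l 17192960) (l 17165096)) (b (l 17413400) (l 17315616)))) (b (a (a (l 17384256) (l 17277608)) (a (l 17061384) (l 17297408))) (a (b (l 17243328) (l 17329152)) (a (l 17069000) (b (l 17022200)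 (l 16976848))))))), by decide +kernel⟩

def k2_pm_213 : ∃ t, chk3 f_pm_213 t 1 14 1 = true :=
  ⟨(a (a (l 4) (b (a (a (l 4) (b (l 95798050599) (l 4))) (a (b (b (l 16841360) (l 16818672)) (a (l 99019210167) (l 68954477463))) (b (l 16885728) (l 16837672)))) (a (l 4) (b (a (a (l 4) (l 130157706199)) (a (l 83449991191) (a (l 85597484631) (l 16811616)))) (a (l 4) (b (l 125862749575) (l 4))))))) (a (b (a (b (l 16969816) (l 16997928)) (l 17198120)) (a (b (a (l 16840232) (l 16886216)) (a (b (l 22246628663) (a (l 98482288199) (l 16796904))) (l 16805944))) (b (l 16976424) (a (l 16877776) (l 16918320))))) (a (b (a (l 17116120) (l 17080200)) (a (l 17094032) (l 17062816))) (a (b (l 17011288) (l 16965088)) (a (l 16984472) (a (l 16936888) (b (l 16897104) (l 16934376)))))))), by decide +kernel⟩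

def k3_pm_213 : ∃ t, chk3 f_pm_213 t 2 15 1 = true :=
  ⟨(l 4), by decide +kernel⟩

def k4_pm_213 : ∃ t, chk3 f_pm_213 t 3 30 1 = true :=
  ⟨(a (a (b (a (b (a (l 4) (l 99556049143)) (l 4)) (a (b (l 16795760) (l 105461629031)) (b (l 16813936) (b (l 16798456) (l 16788560))))) (a (l 4) (b (a (l 4) (b (l 83449917303) (l 158074946263))) (l 4)))) (b (a (b (l 16840816) (l 16797224)) (l 16884296)) (a (b (a (l 83449953927) (l 16784080)) (a (b (l 114051561255) (l 4)) (b (l 16790280) (a (l 104387860951) (l 16794728))))) (b (l 16847952) (a (l 16798896) (l 16811880)))))) (a (b (a (l 16897384) (l 16924040)) (a (b (l 16855904) (l 16830800)) (b (l 16882904) (l 16855176)))) (a (b (l 16917176) (l 16878568)) (a (l 16908976) (a (l 16881864) (a (l 16878456) (l 17078760))))))), by decide +kernel⟩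

def k5_pm_213 : ∃ t, chk3 f_pm_213 t 3 62 1 = true :=
  ⟨(a (a (l 4) (b (a (a (l 4) (b (a (l 4) (l 132842024535)) (l 4))) (a (b (l 81839313207) (b (l 93650453271) (a (l 4) (l 129083925383)))) (b (l 16796560) (a (l 78618072695) (l 16789912))))) (a (l 4) (a (l 4) (b (a (b (l 105998473287) (l 4)) (b (l 16783152) (l 81302415655))) (a (l 4) (b (l 186529121383) (l 4)))))))) (a (a (b (a (l 16781920) (l 16813712)) (b (a (a (l 16785984) (l 16790848)) (l 16797944)) (a (a (b (a (l 98482279175) (l 16791000)) (a (l 4) (l 161833052951))) (b (l 16805064) (l 95261058599))) (a (l 16786320) (l 16790576))))) (b (l 16829288) (a (l 16801824) (l 16789248)))) (a (b (l 16845112) (l 16862984)) (b (l 17001080) (b (l 16951416) (l 16925048)))))), by decide +kernel⟩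

def k6_pm_213 : ∃ t, chk3 f_pm_213 t 6 63 1 = true :=
  ⟨(l 4), by decide +kernel⟩

def k7_pm_213 : ∃ t, chk3 f_pm_213 t 7 126 1 = true :=
  ⟨(a (a (b (a (b (b (a (l 4) (a (l 4) (l 109219698311))) (l 4)) (l 4)) (b (a (c (l 95261058199) (l 94724186951)) (l 16804816)) (b (a (a (l 4) (l 108682827527)) (l 16791136)) (a (l 4) (a (l 113514666167) (l 16789992)))))) (a (l 4) (b (b (a (l 4) (a (l 4) (l 123178343303))) (l 4)) (l 4)))) (b (a (a (l 16795960) (l 16789080)) (l 16815224)) (a (b (a (b (l 86671116055) (a (a (l 205856456023) (l 116735891095)) (l 91502950023))) (l 16782456)) (b (b (a (a (l 4) (l 130694525191)) (l 16779888)) (a (l 4) (l 94187305719))) (a (l 4) (b (a (l 172570458183) (l 16783816)) (a (l 4) (l 111367171527)))))) (a (a (b (l 16784856) (l 16785896)) (l 16794720)) (l 16796880))))) (a (b (l 16845200) (a (l 16811472) (l 16816288))) (a (l 16849392) (a (l 16809040) (b (l 16901112) (l 16874920)))))), by decide +kernel⟩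

def k8_pm_213 : ∃ t, chk3 f_pm_213 t 7 254 1 = true :=
  ⟨(a (a (l 4) (a (b (b (b (a (l 4) (a (l 4) (l 232700003111))) (l 4)) (l 4)) (l 4)) (a (b (a (b (b (l 96871655415) (a (l 4) (l 125325815319))) (l 4)) (b (l 16783584) (b (l 117272751927) (a (l 4) (l 245584903335))))) (l 4)) (b (a (b (l 16790856) (c (l 94187304663) (l 94724176103))) (l 16785888)) (b (b (a (a (l 4) (a (l 243974289255) (l 112977781271))) (l 93113558791)) (a (l 4) (a (c (l 249879871159) (l 260617278599)) (l 118883364295)))) (l 4)))))) (a (a (b (c (l 16794200) (l 16793904)) (b (a (a (l 87207981143) (l 16779944)) (l 16781504)) (a (a (b (b (l 100629750119) (a (l 4) (l 103850974567))) (l 4)) (b (l 16783736) (b (l 96871653143) (a (l 279944640903) (l 101703489303))))) (c (l 16784792) (l 16784672))))) (b (l 16787936) (a (l 16792888) (l 16784176)))) (a (b (l 16813776) (c (l 16808200) (l 16813040))) (a (l 16813504) (b (l 16849808) (l 16827304)))))), by decide +kernel⟩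

def k9_pm_213 : ∃ t, chk3 f_pm_213 t 14 255 1 = true :=
  ⟨(l 4), by decide +kernel⟩

def k10_pm_213 : ∃ t, chk3 f_pm_213 t 30 255 1 = true :=
  ⟨(a (b (b (a (b (b (a (l 4) (a (l 4) (c (l 267059736055) (l 278870888023)))) (l 4)) (l 4)) (a (a (b (b (l 98482263671) (a (l 4) (l 227868155063))) (l 4)) (b (l 93113556871) (b (a (l 4) (l 116199005911)) (l 4)))) (b (l 16778520) (b (l 92576684983) (b (l 101166620695) (a (l 4) (l 16779512))))))) (a (l 4) (b (b (b (a (l 4) (a (l 4) (c (l 228941896983) (l 109756554743)))) (l 4)) (l 4)) (l 4)))) (l 4)) (b (b (a (a (l 16784160) (l 16790216)) (l 16791360)) (a (b (a (b (l 93113556647) (b (c (l 101703492311) (l 101703492599)) (a (l 4) (l 102240360199)))) (l 16783520)) (a (b (b (a (l 4) (a (l 4) (l 109219682455))) (l 4)) (l 4)) (a (b (l 101166620615) (b (c (l 341684785303) (l 359401525143)) (l 4))) (b (l 16777776) (c (l 102777234327) (l 101703492775)))))) (a (b (l 16779000) (c (l 16781024) (l 16780648))) (l 16784448)))) (a (l 4) (b (b (a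 (a (b (b (l 100629748391) (a (l 4) (l 118883359655))) (l 4)) (b (l 91502941703) (b (a (l 380339495063) (l 102240359415)) (l 4)))) (b (l 16783248) (a (b (l 16780120) (l 101703490407)) (l 16782944)))) (a (l 4) (b (a (b (b (a (l 4) (l 108145939895)) (l 4)) (l 4)) (b (l 94187296023) (a (l 4) (l 114051521415)))) (l 4)))) (l 4))))), by decide +kernel⟩

def k11_pm_213 : ∃ t, chk3 f_pm_213 t 31 255 1 = true :=
  ⟨(a (b (b (a (l 16782296) (l 16804832)) (a (l 16785360) (l 16794120))) (b (b (a (l 16782536) (l 16784840)) (a (a (b (a (l 86671103575) (l 16783032)) (b (a (b (l 99556005799) (a (l 4) (l 104387843287))) (l 16780048)) (a (l 4) (b (l 95261037703) (l 6))))) (l 6)) (l 6))) (a (a (a (l 4) (l 4)) (l 6)) (l 6)))) (b (b (a (l 16785512) (l 16813336)) (a (l 16793752) (a (l 16783952) (l 16803096)))) (b (b (a (l 16791640) (c (l 16800320) (l 16795072))) (l 6)) (l 6)))), by decide +kernel⟩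

theorem s12_pm_213 : ∃ t, chk3 f_pm_213 t 15 255 1 = true := ex3_a k10_pm_213 k11_pm_213

theorem s13_pm_213 : ∃ t, chk3 f_pm_213 t 7 255 1 = true := ex3_a k9_pm_213 s12_pm_213

theorem s14_pm_213 : ∃ t, chk3 f_pm_213 t 7 127 1 = true := ex3_b k8_pm_213 s13_pm_213

theorem s15_pm_213 : ∃ t, chk3 f_pm_213 t 7 63 1 = true := ex3_b k7_pm_213 s14_pm_213

theorem s16_pm_213 : ∃ t, chk3 f_pm_213 t 3 63 1 = true := ex3_a k6_pm_213 s15_pm_213

theorem s17_pm_213 : ∃ t, chk3 f_pm_213 t 3 31 1 = true := ex3_b k5_pm_213 s16_pm_213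

theorem s18_pm_213 : ∃ t, chk3 f_pm_213 t 3 15 1 = true := ex3_b k4_pm_213 s17_pm_213

theorem s19_pm_213 : ∃ t, chk3 f_pm_213 t 1 15 1 = true := ex3_a k3_pm_213 s18_pm_213

theorem s20_pm_213 : ∃ t, chk3 f_pm_213 t 1 7 1 = true := ex3_b k2_pm_213 s19_pm_213

theorem s21_pm_213 : ∃ t, chk3 f_pm_213 t 1 3 1 = true := ex3_b k1_pm_213 s20_pm_213

theorem s22_pm_213 : ∃ t, chk3 f_pm_213 t 1 1 1 = true := ex3_b k0_pm_213 s21_pm_213

theorem c_pm_213 : CertN 0 536870912 536870912 536870912 67108864 67108864 3 true true false .pnn 2 1 3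
    ndN0q2 ndN0q1 pcN3 cut_pm_213 Ext.none :=
  certNK1 (fam := true) (s1 := true) (s2 := false) (a := 2) (b := 1) (c := 3) (cn := .pnn) (n1 := ndN0q2) (n2 := ndN0q1) (pc := pcN3) (cut := cut_pm_213) (xt := Ext.none) (P1 := 0) (W1 := 536870912) (P2 := 536870912) (W2 := 536870912) (P3 := 67108864) (W3 := 67108864) (N0 := 3)
    rfl rfl rfl (fun _ => rfl) s22_pm_213

noncomputable def f_mm_001 : ℕ → ℕ → ℕ → ℕ → Bool := onCell 0 536870912 0 536870912 67108864 67108864
    (rowNK 3 0 true false false .up 0 0 1 (qsf 0 536870912 0 536870912 1) ndN0q0 ndN0q0 pcN1 Cut.none Ext.none)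

def k0_mm_001 : ∃ t, chk3 f_mm_001 t 1 1 1 = true :=
  ⟨(l 4), by decide +kernel⟩

theorem c_mm_001 : CertN 0 536870912 0 536870912 67108864 67108864 3 true false false .up 0 0 1
    ndN0q0 ndN0q0 pcN1 Cut.none Ext.none :=
  certNK0 (fam := true) (s1 := false) (s2 := false) (a := 0) (b := 0) (c := 1) (cn := .up) (n1 := ndN0q0) (n2 := ndN0q0) (pc := pcN1) (cut := Cut.none) (xt := Ext.none) (P1 := 0) (W1 := 536870912) (P2 := 0) (W2 := 536870912) (P3 := 67108864) (W3 := 67108864) (N0 := 3)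
    rfl rfl rfl k0_mm_001

noncomputable def f_mm_011 : ℕ → ℕ → ℕ → ℕ → Bool := onCell 0 536870912 536870912 536870912 67108864 67108864
    (rowNK 3 0 true false false .pnn 0 1 1 (qsf 0 536870912 536870912 536870912 1) ndN0q0 ndN0q1 pcN1 Cut.none Ext.none)

def k0_mm_011 : ∃ t, chk3 f_mm_011 t 1 1 1 = true :=
  ⟨(a (l 5) (l 4)), by decide +kernel⟩

theorem c_mm_011 : CertN 0 536870912 536870912 536870912 67108864 67108864 3 true false false .pnn 0 1 1
    ndN0q0 ndN0q1 pcN1 Cut.none Ext.none :=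
  certNK0 (fam := true) (s1 := false) (s2 := false) (a := 0) (b := 1) (c := 1) (cn := .pnn) (n1 := ndN0q0) (n2 := ndN0q1) (pc := pcN1) (cut := Cut.none) (xt := Ext.none) (P1 := 0) (W1 := 536870912) (P2 := 536870912) (W2 := 536870912) (P3 := 67108864) (W3 := 67108864) (N0 := 3)
    rfl rfl rfl k0_mm_011

noncomputable def f_mm_012 : ℕ → ℕ → ℕ → ℕ → Bool := onCell 0 536870912 536870912 536870912 67108864 67108864
    (rowNK 3 0 true false false .pnp 0 1 2 (qsf 0 536870912 536870912 536870912 2) ndN0q0 ndN0q1 pcN2 Cut.none Ext.none)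

def k0_mm_012 : ∃ t, chk3 f_mm_012 t 1 1 1 = true :=
  ⟨(a (l 5) (l 4)), by decide +kernel⟩

theorem c_mm_012 : CertN 0 536870912 536870912 536870912 67108864 67108864 3 true false false .pnp 0 1 2
    ndN0q0 ndN0q1 pcN2 Cut.none Ext.none :=
  certNK0 (fam := true) (s1 := false) (s2 := false) (a := 0) (b := 1) (c := 2) (cn := .pnp) (n1 := ndN0q0) (n2 := ndN0q1) (pc := pcN2) (cut := Cut.none) (xt := Ext.none) (P1 := 0) (W1 := 536870912) (P2 := 536870912) (W2 := 536870912) (P3 := 67108864) (W3 := 67108864) (N0 := 3)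
    rfl rfl rfl k0_mm_012

noncomputable def f_mm_022 : ℕ → ℕ → ℕ → ℕ → Bool := onCell 0 536870912 0 536870912 67108864 67108864
    (rowNK 3 0 true false false .pp 0 2 2 (qsf 0 536870912 0 536870912 2) ndN0q0 ndN0q2 pcN2 Cut.none Ext.none)

def k0_mm_022 : ∃ t, chk3 f_mm_022 t 1 1 1 = true :=
  ⟨(l 5), by decide +kernel⟩

theorem c_mm_022 : CertN 0 536870912 0 536870912 67108864 67108864 3 true false false .pp 0 2 2
    ndN0q0 ndN0q2 pcN2 Cut.none Ext.none :=
  certNK0 (fam := true) (s1 := false) (s2 := false) (a := 0) (b := 2) (c := 2) (cn := .pp) (n1 := ndN0q0) (n2 := ndN0q2) (pc := pcN2) (cut := Cut.none) (xt := Ext.none) (P1 := 0) (W1 := 536870912) (P2 := 0) (W2 := 536870912) (P3 := 67108864) (W3 := 67108864) (N0 := 3)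
    rfl rfl rfl k0_mm_022

noncomputable def f_mm_023 : ℕ → ℕ → ℕ → ℕ → Bool := onCell 0 536870912 0 536870912 67108864 67108864
    (rowNK 3 0 true false false .up 0 2 3 (qsf 0 536870912 0 536870912 3) ndN0q0 ndN0q2 pcN3 Cut.none Ext.none)

def k0_mm_023 : ∃ t, chk3 f_mm_023 t 1 1 1 = true :=
  ⟨(l 5), by decide +kernel⟩

theorem c_mm_023 : CertN 0 536870912 0 536870912 67108864 67108864 3 true false false .up 0 2 3
    ndN0q0 ndN0q2 pcN3 Cut.none Ext.none :=
  certNK0 (fam := true) (s1 := false) (s2 := false) (a := 0) (b := 2) (c := 3) (cn := .up) (n1 := ndN0q0) (n2 := ndN0q2) (pc := pcN3) (cut := Cut.none) (xt := Ext.none) (P1 := 0) (W1 := 536870912) (P2 := 0) (W2 := 536870912) (P3 := 67108864) (W3 := 67108864) (N0 := 3)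
    rfl rfl rfl k0_mm_023

noncomputable def cut_mm_101 : Cut := Cut.of [[⟨0, 1, 0, 67108864⟩, ⟨1, 0, 0, 67108864⟩, ⟨2, 1, 0, 67108864⟩]]

noncomputable def f_mm_101 : ℕ → ℕ → ℕ → ℕ → Bool := onCell 536870912 536870912 0 536870912 67108864 67108864
    (rowNK 3 0 true false false .npn 1 0 1 (qsf 536870912 536870912 0 536870912 1) ndN0q1 ndN0q0 pcN1 cut_mm_101 Ext.none)

def k0_mm_101 : ∃ t, chk3 f_mm_101 t 1 1 1 = true :=
  ⟨(a (l 4) (b (a (l 4) (a (l 4) (a (l 4) (b (b (b (l 6) (l 4)) (l 2)) (l 2))))) (l 4))), by decide +kernel⟩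

theorem c_mm_101 : CertN 536870912 536870912 0 536870912 67108864 67108864 3 true false false .npn 1 0 1
    ndN0q1 ndN0q0 pcN1 cut_mm_101 Ext.none :=
  certNK0 (fam := true) (s1 := false) (s2 := false) (a := 1) (b := 0) (c := 1) (cn := .npn) (n1 := ndN0q1) (n2 := ndN0q0) (pc := pcN1) (cut := cut_mm_101) (xt := Ext.none) (P1 := 536870912) (W1 := 536870912) (P2 := 0) (W2 := 536870912) (P3 := 67108864) (W3 := 67108864) (N0 := 3)
    rfl rfl rfl k0_mm_101

noncomputable def cut_mm_102 : Cut := Cut.of [[⟨0, 1, 0, 67108864⟩, ⟨1, 0, 0, 67108864⟩, ⟨2, 1, 0, 67108864⟩]]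

noncomputable def f_mm_102 : ℕ → ℕ → ℕ → ℕ → Bool := onCell 536870912 536870912 0 536870912 67108864 67108864
    (rowNK 3 0 true false false .npp 1 0 2 (qsf 536870912 536870912 0 536870912 2) ndN0q1 ndN0q0 pcN2 cut_mm_102 Ext.none)

def k0_mm_102 : ∃ t, chk3 f_mm_102 t 1 1 1 = true :=
  ⟨(b (a (l 4) (a (l 4) (b (a (l 4) (b (a (l 4) (b (l 6) (l 4))) (l 4))) (l 4)))) (l 4)), by decide +kernel⟩

theorem c_mm_102 : CertN 536870912 536870912 0 536870912 67108864 67108864 3 true false false .npp 1 0 2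
    ndN0q1 ndN0q0 pcN2 cut_mm_102 Ext.none :=
  certNK0 (fam := true) (s1 := false) (s2 := false) (a := 1) (b := 0) (c := 2) (cn := .npp) (n1 := ndN0q1) (n2 := ndN0q0) (pc := pcN2) (cut := cut_mm_102) (xt := Ext.none) (P1 := 536870912) (W1 := 536870912) (P2 := 0) (W2 := 536870912) (P3 := 67108864) (W3 := 67108864) (N0 := 3)
    rfl rfl rfl k0_mm_102

noncomputable def f_mm_112 : ℕ → ℕ → ℕ → ℕ → Bool := onCell 536870912 536870912 536870912 536870912 67108864 67108864
    (rowNK 3 0 true false false .dn 1 1 2 (qsf 536870912 536870912 536870912 536870912 2) ndN0q1 ndN0q1 pcN2 Cut.none Ext.none)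

def k0_mm_112 : ∃ t, chk3 f_mm_112 t 1 1 1 = true :=
  ⟨(l 4), by decide +kernel⟩

theorem c_mm_112 : CertN 536870912 536870912 536870912 536870912 67108864 67108864 3 true false false .dn 1 1 2
    ndN0q1 ndN0q1 pcN2 Cut.none Ext.none :=
  certNK0 (fam := true) (s1 := false) (s2 := false) (a := 1) (b := 1) (c := 2) (cn := .dn) (n1 := ndN0q1) (n2 := ndN0q1) (pc := pcN2) (cut := Cut.none) (xt := Ext.none) (P1 := 536870912) (W1 := 536870912) (P2 := 536870912) (W2 := 536870912) (P3 := 67108864) (W3 := 67108864) (N0 := 3)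
    rfl rfl rfl k0_mm_112

noncomputable def f_mm_113 : ℕ → ℕ → ℕ → ℕ → Bool := onCell 536870912 536870912 536870912 536870912 67108864 67108864
    (rowNK 3 0 true false false .nn 1 1 3 (qsf 536870912 536870912 536870912 536870912 3) ndN0q1 ndN0q1 pcN3 Cut.none Ext.none)

def k0_mm_113 : ∃ t, chk3 f_mm_113 t 1 1 1 = true :=
  ⟨(l 4), by decide +kernel⟩

theorem c_mm_113 : CertN 536870912 536870912 536870912 536870912 67108864 67108864 3 true false false .nn 1 1 3
    ndN0q1 ndN0q1 pcN3 Cut.none Ext.none :=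
  certNK0 (fam := true) (s1 := false) (s2 := false) (a := 1) (b := 1) (c := 3) (cn := .nn) (n1 := ndN0q1) (n2 := ndN0q1) (pc := pcN3) (cut := Cut.none) (xt := Ext.none) (P1 := 536870912) (W1 := 536870912) (P2 := 536870912) (W2 := 536870912) (P3 := 67108864) (W3 := 67108864) (N0 := 3)
    rfl rfl rfl k0_mm_113

noncomputable def f_mm_123 : ℕ → ℕ → ℕ → ℕ → Bool := onCell 536870912 536870912 0 536870912 67108864 67108864
    (rowNK 3 0 true false false .npn 1 2 3 (qsf 536870912 536870912 0 536870912 3) ndN0q1 ndN0q2 pcN3 Cut.none Ext.none)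

def k0_mm_123 : ∃ t, chk3 f_mm_123 t 1 1 1 = true :=
  ⟨(a (l 5) (l 4)), by decide +kernel⟩

theorem c_mm_123 : CertN 536870912 536870912 0 536870912 67108864 67108864 3 true false false .npn 1 2 3
    ndN0q1 ndN0q2 pcN3 Cut.none Ext.none :=
  certNK0 (fam := true) (s1 := false) (s2 := false) (a := 1) (b := 2) (c := 3) (cn := .npn) (n1 := ndN0q1) (n2 := ndN0q2) (pc := pcN3) (cut := Cut.none) (xt := Ext.none) (P1 := 536870912) (W1 := 536870912) (P2 := 0) (W2 := 536870912) (P3 := 67108864) (W3 := 67108864) (N0 := 3)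
    rfl rfl rfl k0_mm_123

noncomputable def cut_mm_202 : Cut := Cut.of [[⟨0, 1, 0, 67108864⟩, ⟨1, 0, 0, 67108864⟩, ⟨2, 1, 0, 67108864⟩]]

noncomputable def f_mm_202 : ℕ → ℕ → ℕ → ℕ → Bool := onCell 0 536870912 0 536870912 67108864 67108864
    (rowNK 3 0 true false false .pp 2 0 2 (qsf 0 536870912 0 536870912 2) ndN0q2 ndN0q0 pcN2 cut_mm_202 Ext.none)

def k0_mm_202 : ∃ t, chk3 f_mm_202 t 2 2 1 = true :=
  ⟨(b (b (a (b (a (c (l 18499160) (l 17880000)) (b (l 17955312) (l 18127480))) (a (l 18145440) (l 18083064))) (b (a (c (l 18348096) (b (a (l 17665856) (l 17564848)) (l 17710000))) (c (b (a (l 18243664) (l 18121048)) (l 18155752)) (b (a (b (l 17380584) (l 17475392)) (b (l 17085376) (l 17314696))) (a (l 17567000) (l 17436592))))) (a (l 17957880) (b (c (l 18092464) (l 17572264)) (l 17802976))))) (a (b (l 18017456) (l 17908168)) (a (b (l 17875872) (l 17753464)) (b (l 17726616) (l 17601728))))) (b (a (l 17742048) (a (l 17568424) (b (l 17472880) (l 17346888)))) (a (l 17530248)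 (a (l 17338856) (b (l 17228168) (l 17034080)))))), by decide +kernel⟩

def k1_mm_202 : ∃ t, chk3 f_mm_202 t 6 4 1 = true :=
  ⟨(b (a (a (b (c (b (b (l 17939088) (l 17969960)) (l 17973368)) (b (b (l 16747344) (l 17042008)) (b (l 17225400) (l 17310056)))) (b (l 17471536) (l 17647512))) (b (c (b (b (a (l 17767664) (l 17395488)) (l 17641072)) (l 17659176)) (b (a (l 16702344) (l 16706312)) (b (l 16892200) (l 17074536)))) (b (a (l 17425432) (a (l 17385168) (l 17299624))) (l 17369968)))) (b (b (a (a (b (l 16707648) (c (l 17486472) (l 16710752))) (b (l 16712680) (l 16774184))) (b (a (l 16715568) (b (l 16717936) (l 16720184))) (a (l 16719984) (l 16723384)))) (a (c (b (a (l 17632720) (l 17478584)) (l 17562192)) (a (l 16722424) (l 16719592))) (a (b (l 16801296) (l 16867616)) (b (l 16727400) (l 16772488))))) (b (a (c (l 17465752) (b (l 16888576) (l 17054840))) (a (b (l 16963864) (l 17064248)) (b (l 16854264) (l 16931016)))) (a (a (l 17361880) (l 17173384)) (c (a (l 17437104) (l 17336064))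 (a (l 17001472) (l 16764840))))))) (a (b (a (l 17581952) (b (l 17487040) (l 17437648))) (a (l 17459688) (l 17346640))) (a (b (b (l 17200008) (l 17304608)) (b (l 17248592) (l 17186136))) (a (b (b (l 17208408) (l 17193952)) (b (l 17141008) (l 17079800))) (b (b (l 16998464) (l 17114888)) (b (l 17064032) (l 16982576))))))), by decide +kernel⟩

def k2_mm_202 : ∃ t, chk3 f_mm_202 t 14 8 1 = true :=
  ⟨(b (a (b (b (a (b (l 16722056) (l 16724264)) (b (a (l 16725584) (l 16728160)) (l 16729008))) (a (b (l 16726392) (l 16728432)) (b (l 16731080) (l 16733072)))) (b (a (l 16731328) (a (l 16734688) (l 16737136))) (a (l 16734920) (a (l 16738208) (l 16740600))))) (b (b (a (b (l 6) (a (l 16733032) (l 6))) (l 6)) (a (b (a (l 16735064) (l 16737944)) (a (l 16737008) (l 16739864))) (b (l 6) (a (l 16742904) (l 6))))) (a (a (b (l 16739760) (l 16743160)) (b (a (l 16741856) (l 16743304)) (l 16745896))) (b (a (b (l 16744704) (l 16746424)) (b (l 6) (l 16749592))) (a (b (l 16748048) (l 16749592)) (b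 (l 16751184) (l 16752688))))))) (a (b (a (b (l 16754816) (l 16811904)) (b (l 16742528) (l 16741920))) (a (b (l 16870480) (l 16942888)) (b (l 16764696) (l 16805432)))) (b (a (b (a (l 16746216) (l 16748888)) (a (l 16748936) (l 16751536))) (b (a (l 16756976) (b (l 16754104) (l 16755440))) (a (l 16754304) (a (l 16756512) (l 16758040))))) (a (b (a (l 16814696) (l 16789232)) (a (l 16842192) (l 16800552))) (b (a (l 16756944) (b (l 16759152) (l 16760504))) (a (l 16764216) (a (l 16784008) (l 16772432)))))))), by decide +kernel⟩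

def k3_mm_202 : ∃ t, chk3 f_mm_202 t 15 16 1 = true :=
  ⟨(a (b (l 6) (a (b (l 6) (a (b (l 16759752) (l 16761224)) (b (l 6) (a (l 16758584) (l 16760384))))) (l 6))) (l 6)), by decide +kernel⟩

def k4_mm_202 : ∃ t, chk3 f_mm_202 t 60 34 1 = true :=
  ⟨(b (a (b (l 16757360) (l 16758648)) (a (b (l 16759936) (l 16761192)) (b (l 16761712) (l 16762952)))) (b (a (l 16762472) (a (l 16762360) (l 16764096))) (a (c (l 16772264) (l 16760464)) (a (l 16763456) (l 16775648))))), by decide +kernel⟩

def k5_mm_202 : ∃ t, chk3 f_mm_202 t 122 34 1 = true :=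
  ⟨(a (b (b (l 16766168) (l 16767384)) (b (l 16768504) (c (l 16777528) (l 16777288)))) (b (b (l 6) (a (l 16766152) (l 16772344))) (b (a (l 16777744) (l 16778024)) (a (l 16778768) (b (l 16779440) (c (l 16791920) (l 16781264))))))), by decide +kernel⟩

def k6_mm_202 : ∃ t, chk3 f_mm_202 t 123 68 1 = true :=
  ⟨(b (l 6) (b (l 6) (a (c (l 16779384) (l 16773984)) (l 6)))), by decide +kernel⟩

def k7_mm_202 : ∃ t, chk3 f_mm_202 t 246 69 1 = true :=
  ⟨(b (a (c (l 16779648) (l 16779592)) (a (b (l 16780088) (l 16781776)) (b (c (l 16791040) (l 16780584)) (l 16783904)))) (a (a (b (l 16781032) (c (l 16795152) (l 16784432))) (b (l 16783168) (l 16781448))) (b (a (b (l 16784416) (l 16786184)) (l 16782192)) (b (l 16783776) (a (l 16784448) (a (l 16783392) (b (c (l 16782216) (l 16781184)) (a (b (c (l 16781880) (l 16781496)) (c (l 73249336455) (l 72712464855))) (c (c (l 89892332791) (l 90429203319)) (l 85597367015)))))))))), by decide +kernel⟩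

def k8_mm_202 : ∃ t, chk3 f_mm_202 t 494 69 1 = true :=
  ⟨(a (b (b (l 16782520) (c (l 16786160) (l 16780680))) (b (c (l 16781864) (l 16781544)) (b (a (a (l 16782536) (b (l 16780976) (b (l 16782888) (a (a (l 16781760) (l 70028111191)) (l 86671109687))))) (b (b (c (b (l 16782248) (a (l 16781552) (l 66806884759))) (l 29225919271)) (a (c (c (l 43184564231) (l 16781736)) (l 16781448)) (l 87744851607))) (a (b (c (l 79154916199) (l 78081173831)) (l 98482269527)) (l 4)))) (a (a (b (b (a (l 16783056) (l 75396820567)) (l 90966077287)) (l 4)) (c (l 97408525815) (l 100092879623))) (l 4))))) (b (b (l 16779408) (l 16782928)) (b (a (b (l 16782408) (b (c (l 16781248) (l 16780888)) (a (b (l 16782728) (a (c (l 16781848) (l 16781472)) (l 82913013079))) (b (c (c (l 75396819255) (l 75396819079)) (l 74859948151)) (l 99019140199))))) (b (a (l 16783184) (b (l 16780656) (b (l 16781264) (a (l 16782824) (c (l 77007431847) (l 76470560279)))))) (a (b (b (a (l 16781448) (c (l 64122529895) (l 16782088)))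 (c (l 83986754119) (l 83986753495))) (l 4)) (c (l 96334783559) (l 97945395591))))) (a (b (c (l 97408525799) (l 99019137815)) (l 4)) (l 4))))), by decide +kernel⟩

def k9_mm_202 : ∃ t, chk3 f_mm_202 t 495 69 1 = true :=
  ⟨(b (b (l 6) (a (a (l 16781896) (b (l 16782080) (b (l 16782056) (a (b (l 16781104) (a (l 16782680) (c (l 72712464167) (l 72175592663)))) (b (a (c (l 55532594871) (l 16781240)) (l 84523625207)) (l 98482268823)))))) (a (a (b (l 16782864) (b (b (a (l 16781144) (c (l 52311369255) (l 16781176))) (a (a (l 64659401255) (l 80765528759)) (l 91502947095))) (l 97945398087))) (b (l 6) (b (c (l 92039818071) (l 93113556599)) (l 4)))) (b (l 6) (l 4))))) (b (a (b (a (a (b (c (c (l 16781416) (l 16781232)) (l 16780968)) (b (a (c (l 61438175191) (l 16782032)) (l 88281721815)) (l 99019139959))) (b (b (a (l 16781296) (c (l 58216949575) (l 16781312))) (c (l 80765528471) (l 80228656887))) (l 97945398327))) (b (c (l 94724173047) (l 96334782471)) (l 4))) (l 4)) (l 4)) (l 4))), by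 decide +kernel⟩

def k10_mm_202 : ∃ t, chk3 f_mm_202 t 60 35 1 = true :=
  ⟨(a (b (c (b (l 16779848) (l 16775568)) (a (l 16761664) (l 16765976))) (a (c (l 16793880) (l 16774896)) (b (l 16786552) (l 16788864)))) (b (a (b (l 16764672) (l 16776424)) (b (l 16776840) (c (l 16782272) (l 16778032)))) (a (b (l 16777656) (c (l 16778320) (a (l 16788936) (l 16791312)))) (a (b (b (l 16789064) (l 16790664)) (a (l 16784160) (b (l 16795120) (l 16788008)))) (a (b (a (l 16791672) (l 16782264)) (c (l 16784808) (l 16783064))) (b (l 16783880) (b (l 16783696) (b (l 16783560) (b (b (c (l 28689051415) (l 16782984)) (a (l 16781800) (l 79154918759))) (a (a (l 16784720) (l 71101854999)) (l 97945396807))))))))))), by decide +kernel⟩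

def k11_mm_202 : ∃ t, chk3 f_mm_202 t 122 70 1 = true :=
  ⟨(a (a (b (l 16778144) (b (c (l 16774920) (l 16789560)) (l 16782040))) (b (a (l 16778800) (b (l 16789424) (l 16791128))) (b (l 16782952) (c (l 16778064) (l 16786192))))) (b (a (b (c (l 16791040) (l 16780400)) (l 16783856)) (a (b (c (l 16794280) (l 16783576)) (l 16787072)) (b (l 16785824) (l 16783968)))) (b (b (a (l 16786400) (b (l 16782384) (a (l 16779536) (b (c (l 19025374183) (l 16782512)) (a (l 16781296) (a (l 49090146183) (l 89355464871))))))) (a (l 16782848) (a (c (l 16782288) (l 16783208)) (a (b (a (l 16781632) (b (l 16781904) (l 73249337815))) (a (a (b (l 16782032) (l 90966077479)) (l 83986756087)) (l 99556011815))) (c (c (l 93113561655) (l 93650429543)) (l 94724173415)))))) (b (a (l 16784536) (a (b (a (l 16782784) (a (b (l 16783280) (l 76470563319)) (l 90429208775))) (a (a (b (l 16781792) (l 57143210199)) (b (l 67343757767) (l 92576690503))) (l 99019141143))) (l 4))) (a (a (l 16785144) (a (c (l 16782952)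 (l 16782552)) (a (b (l 16781784) (a (l 74323079719) (l 88818594455))) (b (b (l 16783352) (l 79691788839)) (l 99019143687))))) (a (c (l 95261045607) (l 97408525863)) (l 4))))))), by decide +kernel⟩

def k12_mm_202 : ∃ t, chk3 f_mm_202 t 122 71 1 = true :=
  ⟨(a (b (a (c (l 16782104) (b (l 16785280) (l 16783376))) (a (b (l 16783400) (b (l 16783280) (a (c (c (c (l 26004696439) (l 25467825383)) (l 24930954311)) (l 24394083271)) (b (a (c (l 16782264) (l 16781840)) (c (l 72712466615) (l 71101853175))) (l 92039821831))))) (b (b (l 16784696) (c (c (c (l 16877890727) (l 16341019591)) (l 16341019447)) (l 16782856))) (b (b (a (c (l 16783280) (l 16781552)) (a (c (l 69491241111) (l 68954369543)) (l 97945401831))) (a (a (a (l 16783432) (l 65733145319)) (l 84523627543)) (l 4))) (l 98482273559))))) (b (a (b (a (l 16784992) (b (l 16783384) (a (l 16781696) (a (a (l 54458855959) (l 72175596295)) (l 89355465703))))) (b (a (l 16780984) (a (a (c (l 16783032) (l 16781952)) (l 78081176743)) (l 99019138711)))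 (a (a (l 16781272) (a (l 16781984) (a (l 57680081527) (l 74859950839)))) (l 95797918647)))) (a (a (a (b (b (l 75396822151) (l 4)) (l 4)) (l 97945402727)) (l 4)) (l 4))) (a (b (a (a (a (b (l 16781792) (l 68417500359)) (b (a (l 16782120) (l 59827565207)) (l 95797912983))) (c (l 90966080583) (l 92576692503))) (l 4)) (l 97945403559)) (l 4)))) (b (a (b (a (b (a (l 16783640) (a (c (l 24930953527) (l 16781544)) (b (l 16783160) (l 80228660295)))) (a (b (a (l 16783232) (b (l 16783472) (l 86134239895))) (c (l 89892338455) (l 90966074231))) (l 96871660359))) (b (a (a (b (b (l 16783416) (l 82376143447)) (l 98482267591)) (l 94724176471)) (l 4)) (l 4))) (l 4)) (l 4)) (l 4))), by decide +kernel⟩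

def k13_mm_202 : ∃ t, chk3 f_mm_202 t 123 35 1 = true :=
  ⟨(b (a (a (a (b (b (l 16782720) (b (l 16785248) (a (l 16783088) (b (c (c (c (l 28689050007) (l 28152179063)) (l 28152179095)) (l 27078437159)) (a (b (c (l 53921983479) (l 16781784)) (l 86671110231)) (l 96871657095)))))) (b (b (a (b (a (b (l 16781824) (c (l 68954369383) (l 67880626791))) (b (l 78618046839) (l 92576690327))) (l 98482270087)) (l 97945399591)) (l 4)) (l 4))) (b (b (c (l 16782408) (l 16782048)) (b (a (a (l 16782272) (b (l 16781392) (b (c (l 16782768) (l 16781720)) (l 83986755911)))) (b (a (b (l 16781672) (c (l 60901305479) (l 59290691943))) (b (c (l 71101852823) (l 70028110343)) (l 92576690151))) (c (l 95797913111) (l 97408525079)))) (a (a (b (c (c (l 80228658807) (l 80228658423)) (l 80228658343)) (l 4)) (l 97945399335)) (l 4)))) (l 4))) (b (a (b (a (b (l 16785592) (b (c (c (l 23857211863) (l 16782296)) (l 16782656)) (b (a (c (l 16782040) (l 16781648)) (l 88818593767)) (c (c (l 88818593735) (l 89892332567))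 (l 90429205527))))) (b (b (l 16780968) (a (l 16782816) (b (a (l 16781664) (l 16783176)) (c (l 76470562007) (l 75933690391))))) (b (a (b (a (l 16783208) (l 83986755303)) (l 92576690231)) (l 98482269799)) (l 4)))) (b (c (l 97408526615) (l 99019138631)) (l 4))) (b (b (a (b (b (a (l 16781512) (a (l 16783136) (l 79691787927))) (a (a (l 16781752) (l 67880627799)) (l 92576690119))) (c (l 93113560967) (l 94724170327))) (c (l 97408526087) (l 99556008999))) (l 4)) (l 4))) (l 4))) (l 4)) (l 4)), by decide +kernel⟩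

def k14_mm_202 : ∃ t, chk3 f_mm_202 t 31 17 1 = true :=
  ⟨(a (b (a (b (l 6) (b (b (l 6) (b (l 6) (l 4))) (l 4))) (l 4)) (l 4)) (l 4)), by decide +kernel⟩

def k15_mm_202 : ∃ t, chk3 f_mm_202 t 14 18 1 = true :=
  ⟨(a (b (a (b (l 16995552) (l 17034288)) (b (l 16843368) (l 16864816))) (a (l 16865192) (b (l 16874800) (l 16855856)))) (a (a (b (b (l 16884376) (l 16886976)) (b (l 16876824) (l 16857952))) (b (b (l 16824032) (l 16827424)) (b (l 16796256) (c (l 16825848) (l 16769688))))) (b (b (a (c (l 16887432) (l 16761784)) (b (l 16778056) (l 16778800))) (b (a (l 16814160) (c (l 16800456) (l 16779728))) (a (l 16811800) (a (l 16809680) (l 16785824))))) (b (b (a (l 16785256) (a (l 16782496) (b (l 16791488) (a (l 16790776) (a (l 16785888) (b (l 16783968) (l 26004697607))))))) (a (l 16784928) (a (l 16784152) (a (b (l 16786264) (a (b (l 16784376) (l 31373406695)) (b (a (l 28689050903) (l 54995725351)) (l 81839278967)))) (b (a (a (c (l 24930954935) (l 16783576)) (b (l 16782272) (l 71638726247)))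 (a (b (l 52311371287) (l 4)) (l 92039826967))) (l 95261053415)))))) (a (a (b (l 16817592) (l 16784792)) (b (l 16779136) (a (l 16781864) (b (l 16781744) (a (b (l 16784488) (l 42110824391)) (b (b (l 41037082279) (l 63585659351)) (l 92576686215))))))) (a (b (a (b (l 16790616) (a (l 16786904) (a (l 16784088) (b (l 16783656) (l 46942661351))))) (a (b (l 16782312) (a (c (b (l 35131501239) (l 87207977463)) (l 52311371751)) (l 75933693255))) (b (b (l 16782888) (a (l 42647694087) (l 83986762231))) (l 97408525623)))) (a (b (a (b (l 16782776) (l 65196274407)) (l 82913015319)) (l 4)) (l 4))) (b (a (a (a (b (b (l 71101857127) (l 4)) (l 4)) (l 96871665975)) (l 4)) (l 4)) (l 4)))))))), by decide +kernel⟩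

def k16_mm_202 : ∃ t, chk3 f_mm_202 t 14 19 1 = true :=
  ⟨(a (a (a (b (l 17004280) (l 16944080)) (b (l 16963560) (l 16840432))) (b (a (l 16859528) (b (l 16894920) (l 16845728))) (b (a (l 16877720) (a (l 16846520) (l 16804664))) (a (l 16803992) (a (l 16793528) (b (l 16780600) (a (c (l 16341014311) (l 16779760)) (b (a (l 16781520) (l 37815851943)) (l 89892346839))))))))) (a (b (b (a (l 16812200) (a (l 16782216) (b (l 16790504) (l 16781768)))) (b (a (l 16811928) (a (l 16781552) (a (a (l 16784896) (b (l 16788984) (a (l 28152178775) (l 49090144823)))) (b (a (l 22783469863) (b (l 39963339351) (l 77007438519))) (l 83449890055))))) (a (l 16786392) (a (a (l 16781856) (b (c (l 20635985239) (l 16781168)) (a (a (l 31910274471) (l 52311369607)) (l 79154921575)))) (a (a (a (b (l 51237627975) (l 4)) (l 92039834775)) (l 4)) (l 4)))))) (a (b (b (b (l 16785224) (a (l 16808728) (a (l 16793184) (a (l 16785544) (a (l 35668370231) (l 54458853847)))))) (a (c (l 11509177591) (l 16781360)) (a (a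 (b (l 16787824) (a (l 38889594823) (l 59827566807))) (b (l 32447144727) (l 4))) (l 104387867527)))) (a (b (a (a (l 16341015815) (b (l 16787312) (l 51774498327))) (a (b (l 35131498279) (l 4)) (l 101166638055))) (l 124252088839)) (l 4))) (b (a (b (a (b (a (l 29225919959) (l 64659400695)) (l 94724188647)) (l 4)) (l 4)) (l 4)) (l 4)))) (b (a (b (a (a (b (l 16786776) (b (l 15804148583) (a (b (l 16783992) (l 51774499991)) (a (l 66270015111) (l 87207976167))))) (a (b (l 16779864) (b (b (l 35131501703) (l 73249342583)) (l 4))) (b (b (l 16789216) (b (l 16784304) (l 46942662407))) (l 101703502775)))) (b (a (a (b (l 16784888) (b (l 57680081399) (l 4))) (b (b (l 30299663799) (l 69491241351)) (l 4))) (l 101703503895)) (l 4))) (a (b (l 119957115591) (l 4)) (l 4))) (l 4)) (l 4)))), by decide +kernel⟩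

def k17_mm_202 : ∃ t, chk3 f_mm_202 t 120 36 1 = true :=
  ⟨(a (b (b (l 16784352) (l 16789408)) (b (l 16778792) (a (l 16787648) (b (l 16784152) (b (a (l 16783248) (c (c (l 31373406183) (l 30836534951)) (l 29762792967))) (a (l 16783304) (a (b (l 57143210999) (l 89355461623)) (l 96871654775)))))))) (b (b (l 16778560) (l 16782640)) (a (b (a (l 16784112) (b (l 16783040) (l 16784392))) (b (b (a (l 16781936) (a (c (l 37815856135) (l 16782992)) (c (l 81839274519) (l 76470559367)))) (a (b (l 28689052279) (a (l 16783352) (l 86134246663))) (l 95797923799))) (c (l 90966084167) (l 92576696151)))) (b (b (b (l 16781360) (b (l 14193537511) (a (l 16781376) (a (l 16781912) (l 78081177143))))) (a (b (c (l 26004697191) (l 16782656)) (a (a (b (l 16781976) (l 75396821991)) (l 74323081319)) (l 93113568919))) (a (b (b (l 69491242695) (l 97408525719)) (l 4)) (l 4)))) (l 4))))), by decide +kernel⟩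

def k18_mm_202 : ∃ t, chk3 f_mm_202 t 121 36 1 = true :=
  ⟨(b (a (b (a (l 16787288) (c (l 16783712) (b (l 16785832) (l 16783912)))) (a (b (l 16785016) (a (l 16785768) (a (b (l 16780904) (b (l 36205244711) (l 74323080967))) (b (l 28152181367) (l 88818596375))))) (a (a (b (l 16783184) (b (a (b (l 16782200) (l 87207982199)) (l 83986758007)) (l 4))) (b (b (l 16780792) (b (l 16783256) (a (l 58753823655) (l 85060498535)))) (l 98482273703))) (b (b (a (l 23857213319) (b (a (l 16782120) (l 68954371335)) (l 89355467223))) (c (l 89355467991) (l 88281725351))) (l 4))))) (b (b (b (a (l 16784208) (a (b (c (l 22783471239) (l 16784072)) (a (c (l 16782152) (l 16781720)) (c (l 83449887463) (l 79154917735)))) (l 94187306087))) (a (b (l 16785448) (a (l 16779976) (b (l 23857212311) (a (l 16781712) (l 73249338775))))) (b (a (a (a (l 60364436519) (l 86671111319)) (l 4)) (l 4)) (l 97945403159)))) (a (a (b (l 16783808) (a (b (l 16781840) (a (l 52311372583) (l 80765531383))) (a (b (l 66270016695)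 (l 99019138599)) (l 94187305671)))) (a (b (b (a (l 16782016) (l 63585662055)) (l 86134241703)) (l 4)) (l 94724177255))) (l 4))) (a (b (c (l 96871662407) (l 99019145319)) (l 4)) (l 4)))) (a (b (a (b (b (a (a (c (l 30299662887) (l 16781728)) (a (b (l 16784896) (l 92576690999)) (l 86671112599))) (l 98482268279)) (l 92576693815)) (l 4)) (l 4)) (l 4)) (l 4))), by decide +kernel⟩

def k19_mm_202 : ∃ t, chk3 f_mm_202 t 60 37 1 = true :=
  ⟨(a (b (a (b (a (b (a (l 16784064) (a (l 21172859431) (b (l 16782080) (a (l 66806887799) (l 83986762823))))) (a (c (a (b (l 16784104) (l 77007441047)) (b (l 48553273831) (l 4))) (b (l 35131502055) (l 79691784599))) (l 91502956487))) (a (a (b (b (b (l 16781904) (l 71638725671)) (l 99019138359)) (l 4)) (l 90966083703)) (l 4))) (l 4)) (l 4)) (l 4)) (l 4)), by decide +kernel⟩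

def k20_mm_202 : ∃ t, chk3 f_mm_202 t 61 18 1 = true :=
  ⟨(l 4), by decide +kernel⟩

def k21_mm_202 : ∃ t, chk3 f_mm_202 t 30 19 1 = true :=
  ⟨(l 4), by decide +kernel⟩

def k22_mm_202 : ∃ t, chk3 f_mm_202 t 31 9 1 = true :=
  ⟨(l 4), by decide +kernel⟩

def k23_mm_202 : ∃ t, chk3 f_mm_202 t 6 10 1 = true :=
  ⟨(a (b (a (l 17329248) (l 17216496)) (a (l 17201160) (l 16983048))) (a (b (b (l 17121472) (l 17035448)) (b (l 16887016) (a (l 16963096) (a (l 16912848) (l 16857040))))) (b (a (b (l 17015528) (l 16929592)) (a (b (l 16958944) (l 16852016)) (b (l 16898896) (b (l 16871168) (a (l 16848440) (l 16807616)))))) (a (b (a (l 16904576) (b (l 16883520) (l 16830768))) (a (b (l 16857504) (a (l 16835976) (l 16796800))) (b (l 16778576) (a (b (l 16785912) (l 23857210487)) (b (l 34594631223) (l 83449900471)))))) (b (a (b (l 16824448) (c (a (l 16808368) (l 9361692823)) (l 8824822487))) (b (b (l 16793280) (a (l 16787184) (a (l 16782824) (b (l 16782096) (l 53921987783))))) (a (a (b (l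 16786720) (l 48016406599)) (b (l 26541563719) (l 4))) (l 104924752215)))) (a (b (a (b (l 16778880) (a (l 16781424) (l 56069482871))) (b (a (l 33520887399) (l 77544318167)) (l 4))) (l 4)) (l 4))))))), by decide +kernel⟩

def k24_mm_202 : ∃ t, chk3 f_mm_202 t 6 11 1 = true :=
  ⟨(a (a (b (l 17080928) (a (l 16996848) (l 16880328))) (b (a (l 16976416) (b (l 16966568) (l 16887848))) (a (a (l 16838296) (l 16809248)) (b (l 16811672) (a (b (l 16808240) (l 16782680)) (b (l 29762799223) (l 88818613175))))))) (a (b (a (b (l 16860960) (b (l 16817512) (l 16789376))) (b (a (b (l 16867536) (l 16817160)) (b (l 16811768) (a (l 16791224) (l 27078440919)))) (a (b (l 16783248) (a (l 37278991495) (b (l 60364451479) (l 4)))) (b (a (l 55532609399) (l 95797937495)) (l 4))))) (a (b (a (a (l 16783208) (b (l 16791088) (l 48553284535))) (b (a (l 16782872) (l 74323095351)) (a (l 92576711207) (l 4)))) (a (b (a (l 79154934535) (l 4)) (l 4)) (l 4))) (l 4))) (b (a (b (a (b (a (l 16785040) (b (l 16784816)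 (l 55532613847))) (c (l 94187365831) (l 95261106999))) (b (l 104924767159) (l 4))) (l 4)) (l 4)) (l 4)))), by decide +kernel⟩

def k25_mm_202 : ∃ t, chk3 f_mm_202 t 7 5 1 = true :=
  ⟨(b (a (a (b (a (b (a (b (l 16896016) (l 16842584)) (b (l 16834128) (a (l 16811912) (l 16791152)))) (a (b (a (l 16841160) (b (l 16829024) (l 16791632))) (a (l 6677344343) (b (c (l 10972303735) (l 16780112)) (a (b (l 16778680) (l 45332045687)) (l 80765543383))))) (b (a (a (l 16784424) (b (l 16803264) (a (l 16779280) (b (l 16777856) (l 46405786775))))) (b (a (l 9898563847) (b (l 17414754759) (a (l 40500205991) (l 4)))) (a (a (b (l 25467818967) (l 4)) (l 4)) (l 4)))) (a (b (a (b (c (l 24930948039) (l 24394077127)) (l 74859962023)) (l 4)) (l 4)) (l 4))))) (b (a (b (a (l 16802952) (b (l 16790120) (a (l 16779000) (a (l 16781568) (b (l 16790880) (l 26004688519)))))) (a (b (l 16778384) (a (c (b (l 16784608) (l 27615302247)) (l 22246593703)) (a (b (l 16779216) (l 4)) (l 93650443575)))) (b (a (b (l 16779792)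 (a (l 29762785079) (l 90966087079))) (l 101166647159)) (l 4)))) (b (a (b (a (l 16784784) (b (l 16783568) (a (l 24394076967) (l 74859950087)))) (a (a (b (l 16780360) (l 88818602919)) (l 94187328023)) (l 4))) (b (a (a (b (l 39426463511) (l 4)) (l 4)) (l 4)) (l 4))) (l 4))) (a (b (a (l 116199033575) (l 4)) (l 4)) (l 4)))) (a (b (a (b (a (b (a (c (l 17951626679) (l 16779648)) (l 69491259703)) (l 95797933495)) (l 4)) (l 4)) (l 4)) (l 4)) (l 4))) (l 4)) (l 4)) (l 4)), by decide +kernel⟩

def k26_mm_202 : ∃ t, chk3 f_mm_202 t 1 3 1 = true :=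
  ⟨(a (b (a (b (a (l 17396736) (l 17278952)) (a (l 17223616) (l 17292496))) (b (b (a (l 17185104) (a (l 17062176) (l 16886096))) (a (l 17091096) (a (l 16947072) (b (l 16836088) (l 16791272))))) (a (b (a (l 17042088) (l 16964744)) (a (l 16960256) (l 16862712))) (b (a (l 16797256) (a (b (l 16813976) (l 58753866391)) (b (a (l 39426490551) (l 87207992455)) (l 4)))) (a (a (b (l 16821112) (l 42110855943)) (b (l 51774538167) (l 103850996519))) (b (l 118883410631) (l 4))))))) (a (l 2) (a (l 2) (a (l 2) (l 4))))) (b (a (a (b (b (a (b (a (l 16919744) (l 16824400)) (a (l 16850120) (a (l 16789600) (l 33520905975)))) (a (b (a (l 16803576) (b (l 16808128) (l 66270018215))) (a (l 85597429815) (l 4))) (b (l 106535413415) (l 4)))) (a (a (b (l 20099129671) (a (l 49090173927) (l 96871663847))) (b (a (l 63048838887) (l 101703503415)) (l 4))) (l 4))) (l 4)) (l 4)) (l 4)) (l 4))), by decide +kernel⟩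

theorem s27_mm_202 : ∃ t, chk3 f_mm_202 t 6 5 1 = true := ex3_b k23_mm_202 k24_mm_202

theorem s28_mm_202 : ∃ t, chk3 f_mm_202 t 3 5 1 = true := ex3_a s27_mm_202 k25_mm_202

theorem s29_mm_202 : ∃ t, chk3 f_mm_202 t 60 36 1 = true := ex3_a k17_mm_202 k18_mm_202

theorem s30_mm_202 : ∃ t, chk3 f_mm_202 t 60 18 1 = true := ex3_b s29_mm_202 k19_mm_202

theorem s31_mm_202 : ∃ t, chk3 f_mm_202 t 30 18 1 = true := ex3_a s30_mm_202 k20_mm_202

theorem s32_mm_202 : ∃ t, chk3 f_mm_202 t 30 9 1 = true := ex3_b s31_mm_202 k21_mm_202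

theorem s33_mm_202 : ∃ t, chk3 f_mm_202 t 15 9 1 = true := ex3_a s32_mm_202 k22_mm_202

theorem s34_mm_202 : ∃ t, chk3 f_mm_202 t 14 9 1 = true := ex3_b k15_mm_202 k16_mm_202

theorem s35_mm_202 : ∃ t, chk3 f_mm_202 t 7 9 1 = true := ex3_a s34_mm_202 s33_mm_202

theorem s36_mm_202 : ∃ t, chk3 f_mm_202 t 122 35 1 = true := ex3_b k11_mm_202 k12_mm_202

theorem s37_mm_202 : ∃ t, chk3 f_mm_202 t 61 35 1 = true := ex3_a s36_mm_202 k13_mm_202

theorem s38_mm_202 : ∃ t, chk3 f_mm_202 t 30 35 1 = true := ex3_a k10_mm_202 s37_mm_202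

theorem s39_mm_202 : ∃ t, chk3 f_mm_202 t 247 69 1 = true := ex3_a k8_mm_202 k9_mm_202

theorem s40_mm_202 : ∃ t, chk3 f_mm_202 t 123 69 1 = true := ex3_a k7_mm_202 s39_mm_202

theorem s41_mm_202 : ∃ t, chk3 f_mm_202 t 123 34 1 = true := ex3_b k6_mm_202 s40_mm_202

theorem s42_mm_202 : ∃ t, chk3 f_mm_202 t 61 34 1 = true := ex3_a k5_mm_202 s41_mm_202

theorem s43_mm_202 : ∃ t, chk3 f_mm_202 t 30 34 1 = true := ex3_a k4_mm_202 s42_mm_202

theorem s44_mm_202 : ∃ t, chk3 f_mm_202 t 30 17 1 = true := ex3_b s43_mm_202 s38_mm_202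

theorem s45_mm_202 : ∃ t, chk3 f_mm_202 t 15 17 1 = true := ex3_a s44_mm_202 k14_mm_202

theorem s46_mm_202 : ∃ t, chk3 f_mm_202 t 15 8 1 = true := ex3_b k3_mm_202 s45_mm_202

theorem s47_mm_202 : ∃ t, chk3 f_mm_202 t 7 8 1 = true := ex3_a k2_mm_202 s46_mm_202

theorem s48_mm_202 : ∃ t, chk3 f_mm_202 t 7 4 1 = true := ex3_b s47_mm_202 s35_mm_202

theorem s49_mm_202 : ∃ t, chk3 f_mm_202 t 3 4 1 = true := ex3_a k1_mm_202 s48_mm_202

theorem s50_mm_202 : ∃ t, chk3 f_mm_202 t 3 2 1 = true := ex3_b s49_mm_202 s28_mm_202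

theorem s51_mm_202 : ∃ t, chk3 f_mm_202 t 1 2 1 = true := ex3_a k0_mm_202 s50_mm_202

theorem s52_mm_202 : ∃ t, chk3 f_mm_202 t 1 1 1 = true := ex3_b s51_mm_202 k26_mm_202

theorem c_mm_202 : CertN 0 536870912 0 536870912 67108864 67108864 3 true false false .pp 2 0 2
    ndN0q2 ndN0q0 pcN2 cut_mm_202 Ext.none :=
  certNK0 (fam := true) (s1 := false) (s2 := false) (a := 2) (b := 0) (c := 2) (cn := .pp) (n1 := ndN0q2) (n2 := ndN0q0) (pc := pcN2) (cut := cut_mm_202) (xt := Ext.none) (P1 := 0) (W1 := 536870912) (P2 := 0) (W2 := 536870912) (P3 := 67108864) (W3 := 67108864) (N0 := 3)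
    rfl rfl rfl s52_mm_202

noncomputable def f_mm_203 : ℕ → ℕ → ℕ → ℕ → Bool := onCell 0 536870912 1610612736 536870912 67108864 67108864
    (rowNK 3 1 true false false .up 2 0 3 (qsf 0 536870912 0 536870912 3) ndN0q2 ndN0q0 pcN3 Cut.none Ext.none)

def k0_mm_203 : ∃ t, chk3 f_mm_203 t 1 1 1 = true :=
  ⟨(b (a (b (a (b (a (l 17417320) (a (l 17273520) (b (l 17132720) (l 17019968)))) (a (b (l 17203216) (a (l 17145344) (l 17014904))) (a (b (l 17031232) (a (l 16930416) (l 16893392))) (b (b (l 16915808) (l 16882432)) (b (a (l 16839168) (l 54458932647)) (l 76470715959)))))) (b (a (b (a (a (l 17034792) (l 16966784)) (a (b (l 16924920) (l 16837224)) (b (l 16852640) (a (l 32447225159) (l 66270070823))))) (a (a (b (l 16950520) (l 16895152)) (b (l 16861928) (l 38352839943))) (b (a (a (l 16831216) (l 51237686999)) (l 104387892071)) (l 107609197111)))) (a (b (b (b (l 91503095319) (l 107072279415)) (l 4)) (l 4)) (l 4))) (a (a (b (b (a (l 16841088) (l 74323155543)) (l 91503098119)) (l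 4)) (l 4)) (l 4)))) (b (a (a (b (a (l 17035464) (l 16908152)) (l 2)) (b (a (b (a (l 16872696) (l 16829152)) (a (l 16823720) (l 85597420487))) (b (l 108146024727) (l 4))) (l 2))) (l 4)) (l 2))) (l 4)) (l 2)), by decide +kernel⟩

theorem c_mm_203 : CertN 0 536870912 0 536870912 67108864 67108864 3 true false false .up 2 0 3
    ndN0q2 ndN0q0 pcN3 Cut.none Ext.none :=
  certNK1 (fam := true) (s1 := false) (s2 := false) (a := 2) (b := 0) (c := 3) (cn := .up) (n1 := ndN0q2) (n2 := ndN0q0) (pc := pcN3) (cut := Cut.none) (xt := Ext.none) (P1 := 0) (W1 := 536870912) (P2 := 0) (W2 := 536870912) (P3 := 67108864) (W3 := 67108864) (N0 := 3)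
    rfl rfl rfl (fun _ => rfl) k0_mm_203

noncomputable def f_mm_213 : ℕ → ℕ → ℕ → ℕ → Bool := onCell 0 536870912 536870912 536870912 67108864 67108864
    (rowNK 3 0 true false false .pnn 2 1 3 (qsf 0 536870912 536870912 536870912 3) ndN0q2 ndN0q1 pcN3 Cut.none Ext.none)

def k0_mm_213 : ∃ t, chk3 f_mm_213 t 1 1 1 = true :=
  ⟨(a (b (a (b (b (a (b (a (b (l 16962336) (l 16911336)) (a (l 16883096) (b (l 16837176) (l 64122597143)))) (a (b (l 16861832) (l 49627118583)) (b (l 86134341095) (l 4)))) (b (a (b (l 88818696455) (l 4)) (l 4)) (l 4))) (a (b (a (b (l 85597469991) (l 4)) (l 4)) (l 4)) (l 4))) (l 4)) (l 4)) (l 4)) (l 4)), by decide +kernel⟩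

theorem c_mm_213 : CertN 0 536870912 536870912 536870912 67108864 67108864 3 true false false .pnn 2 1 3
    ndN0q2 ndN0q1 pcN3 Cut.none Ext.none :=
  certNK0 (fam := true) (s1 := false) (s2 := false) (a := 2) (b := 1) (c := 3) (cn := .pnn) (n1 := ndN0q2) (n2 := ndN0q1) (pc := pcN3) (cut := Cut.none) (xt := Ext.none) (P1 := 0) (W1 := 536870912) (P2 := 536870912) (W2 := 536870912) (P3 := 67108864) (W3 := 67108864) (N0 := 3)
    rfl rfl rfl k0_mm_213

end Pool.Agent.Strip051.G.I1_16_1_8.Tab.C.NA00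

namespace Pool.Agent.Strip051.G.I1_16_1_8.Tab.C.NA01

open Pool.Agent.Strip051.PB Pool.Agent.Strip051.PB.T
open Pool.Agent.Strip051.G.I1_16_1_8.Tab

noncomputable def f_pp_001 : ℕ → ℕ → ℕ → ℕ → Bool := onCell 0 536870912 0 536870912 67108864 67108864
    (rowNK 3 0 true true true .up 0 0 1 (qsf 0 536870912 0 536870912 1) ndN0q0 ndN1q0 pcN1 Cut.none Ext.none)

def k0_pp_001 : ∃ t, chk3 f_pp_001 t 1 1 1 = true :=
  ⟨(l 4), by decide +kernel⟩

theorem c_pp_001 : CertN 0 536870912 0 536870912 67108864 67108864 3 true true true .up 0 0 1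
    ndN0q0 ndN1q0 pcN1 Cut.none Ext.none :=
  certNK0 (fam := true) (s1 := true) (s2 := true) (a := 0) (b := 0) (c := 1) (cn := .up) (n1 := ndN0q0) (n2 := ndN1q0) (pc := pcN1) (cut := Cut.none) (xt := Ext.none) (P1 := 0) (W1 := 536870912) (P2 := 0) (W2 := 536870912) (P3 := 67108864) (W3 := 67108864) (N0 := 3)
    rfl rfl rfl k0_pp_001

noncomputable def f_pp_011 : ℕ → ℕ → ℕ → ℕ → Bool := onCell 0 536870912 536870912 536870912 67108864 67108864
    (rowNK 3 0 true true true .pnn 0 1 1 (qsf 0 536870912 536870912 536870912 1) ndN0q0 ndN1q1 pcN1 Cut.none Ext.none)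

def k0_pp_011 : ∃ t, chk3 f_pp_011 t 1 1 1 = true :=
  ⟨(l 4), by decide +kernel⟩

theorem c_pp_011 : CertN 0 536870912 536870912 536870912 67108864 67108864 3 true true true .pnn 0 1 1
    ndN0q0 ndN1q1 pcN1 Cut.none Ext.none :=
  certNK0 (fam := true) (s1 := true) (s2 := true) (a := 0) (b := 1) (c := 1) (cn := .pnn) (n1 := ndN0q0) (n2 := ndN1q1) (pc := pcN1) (cut := Cut.none) (xt := Ext.none) (P1 := 0) (W1 := 536870912) (P2 := 536870912) (W2 := 536870912) (P3 := 67108864) (W3 := 67108864) (N0 := 3)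
    rfl rfl rfl k0_pp_011

noncomputable def f_pp_012 : ℕ → ℕ → ℕ → ℕ → Bool := onCell 0 536870912 536870912 536870912 67108864 67108864
    (rowNK 3 0 true true true .pnp 0 1 2 (qsf 0 536870912 536870912 536870912 2) ndN0q0 ndN1q1 pcN2 Cut.none Ext.none)

def k0_pp_012 : ∃ t, chk3 f_pp_012 t 1 1 1 = true :=
  ⟨(l 4), by decide +kernel⟩

theorem c_pp_012 : CertN 0 536870912 536870912 536870912 67108864 67108864 3 true true true .pnp 0 1 2
    ndN0q0 ndN1q1 pcN2 Cut.none Ext.none :=
  certNK0 (fam := true) (s1 := true) (s2 := true) (a := 0) (b := 1) (c := 2) (cn := .pnp) (n1 := ndN0q0) (n2 := ndN1q1) (pc := pcN2) (cut := Cut.none) (xt := Ext.none) (P1 := 0) (W1 := 536870912) (P2 := 536870912) (W2 := 536870912) (P3 := 67108864) (W3 := 67108864) (N0 := 3)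
    rfl rfl rfl k0_pp_012

noncomputable def cut_pp_022_a : Cut := Cut.of [[⟨0, 0, 0, 67108864⟩, ⟨1, 1, 0, 67108864⟩, ⟨2, 1, 0, 67108864⟩]]

noncomputable def f_pp_022_a : ℕ → ℕ → ℕ → ℕ → Bool := onCell 0 536870912 0 536870912 67108864 67108864
    (rowNK 3 0 true true true .pp 0 2 2 (qsf 0 536870912 0 536870912 2) ndN0q0 ndN1q2a pcN2 cut_pp_022_a Ext.none)

def k0_pp_022_a : ∃ t, chk3 f_pp_022_a t 4 1 1 = true :=
  ⟨(a (a (a (b (b (c (l 18475472) (l 17745888)) (c (b (l 18346848) (l 18153952)) (b (l 17453648) (b (l 17309040) (a (l 17121360) (l 17255552)))))) (b (b (c (b (l 17672152) (a (c (l 17943672) (l 17330112)) (l 17729144))) (b (a (l 16861208) (l 17044016)) (a (l 16620328) (l 16765576)))) (b (a (l 16651688) (b (l 16869600) (l 16785568))) (a (b (l 16649160) (l 16669096)) (b (l 16653344) (l 16662688))))) (b (b (a (b (a (l 16667936) (l 16669992)) (a (l 16689720) (l 16691720))) (b (l 16683408) (a (l 16725112) (l 16705992)))) (a (b (a (l 6) (l 16703936)) (l 6)) (b (a (l 16705808)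 (l 16707792)) (b (a (l 6) (l 16728904)) (l 6))))) (l 6)))) (b (b (l 18088072) (b (l 17958680) (b (l 17834984) (l 17490200)))) (b (b (c (b (l 17929248) (l 17764376)) (b (l 17031328) (a (l 16945752) (l 17070816)))) (b (c (a (l 17319704) (l 17564632)) (a (l 16653160) (l 16834040))) (a (b (l 16782872) (l 16666472)) (b (l 16854928) (l 16765208))))) (b (b (a (a (b (l 16675728) (l 16708024)) (b (l 16677744) (l 16712072))) (b (l 30836429687) (l 4))) (a (a (b (l 16714328) (l 4)) (l 4)) (l 4))) (l 4))))) (b (b (l 17997432) (b (l 17887496) (a (l 17703696) (l 17717728)))) (b (a (b (b (l 17498912) (a (l 17284424) (l 17423072))) (b (c (l 17461864) (a (l 16916496) (l 17042528))) (a (a (b (l 16996064) (l 4)) (l 4)) (l 4)))) (b (a (l 68418479303) (l 17381352)) (l 4))) (l 4)))) (b (b (a (l 17836552) (l 17667280)) (a (b (l 17733704) (l 17610968)) (l 58755087319))) (b (b (a (b (l 17486944) (l 4)) (l 4)) (l 4)) (l 4)))), by decide +kernel⟩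

def k1_pp_022_a : ∃ t, chk3 f_pp_022_a t 5 1 1 = true :=
  ⟨(b (a (b (a (l 17505248) (l 17354136)) (l 4)) (b (l 59828651175) (l 4))) (l 4)), by decide +kernel⟩

def k2_pp_022_a : ∃ t, chk3 f_pp_022_a t 3 1 1 = true :=
  ⟨(l 4), by decide +kernel⟩

theorem s3_pp_022_a : ∃ t, chk3 f_pp_022_a t 2 1 1 = true := ex3_a k0_pp_022_a k1_pp_022_a

theorem s4_pp_022_a : ∃ t, chk3 f_pp_022_a t 1 1 1 = true := ex3_a s3_pp_022_a k2_pp_022_a

theorem c_pp_022_a : CertN 0 536870912 0 536870912 67108864 67108864 3 true true true .pp 0 2 2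
    ndN0q0 ndN1q2a pcN2 cut_pp_022_a Ext.none :=
  certNK0 (fam := true) (s1 := true) (s2 := true) (a := 0) (b := 2) (c := 2) (cn := .pp) (n1 := ndN0q0) (n2 := ndN1q2a) (pc := pcN2) (cut := cut_pp_022_a) (xt := Ext.none) (P1 := 0) (W1 := 536870912) (P2 := 0) (W2 := 536870912) (P3 := 67108864) (W3 := 67108864) (N0 := 3)
    rfl rfl rfl s4_pp_022_a

noncomputable def cut_pp_022_b : Cut := Cut.of [[⟨0, 0, 0, 67108864⟩, ⟨1, 1, 0, 67108864⟩, ⟨2, 1, 0, 67108864⟩]]

noncomputable def f_pp_022_b : ℕ → ℕ → ℕ → ℕ → Bool := onCell 0 536870912 1239849684 370763052 67108864 67108864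
    (rowNK 3 0 true true true .pp 0 2 2 (qsf 0 536870912 1239849684 370763052 2) ndN0q0 ndN1q2b pcN2 cut_pp_022_b Ext.none)

def k0_pp_022_b : ∃ t, chk3 f_pp_022_b t 1 1 1 = true :=
  ⟨(a (b (a (b (a (a (b (b (a (l 18275920) (l 18225208)) (l 18429232)) (l 18619248)) (b (l 18184560) (l 18405064))) (b (a (l 18002352) (l 17824072)) (l 18099056))) (a (b (l 18662472) (l 18748488)) (b (l 18225288) (l 18301640)))) (b (a (b (a (l 17657288) (l 17501856)) (l 17742688)) (a (b (l 17361128) (l 4)) (l 4))) (l 4))) (a (b (a (l 18781192) (l 4)) (l 4)) (l 4))) (l 4)), by decide +kernel⟩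

theorem c_pp_022_b : CertN 0 536870912 1239849684 370763052 67108864 67108864 3 true true true .pp 0 2 2
    ndN0q0 ndN1q2b pcN2 cut_pp_022_b Ext.none :=
  certNK0 (fam := true) (s1 := true) (s2 := true) (a := 0) (b := 2) (c := 2) (cn := .pp) (n1 := ndN0q0) (n2 := ndN1q2b) (pc := pcN2) (cut := cut_pp_022_b) (xt := Ext.none) (P1 := 0) (W1 := 536870912) (P2 := 1239849684) (W2 := 370763052) (P3 := 67108864) (W3 := 67108864) (N0 := 3)
    rfl rfl rfl k0_pp_022_b

noncomputable def f_pp_023_a : ℕ → ℕ → ℕ → ℕ → Bool := onCell 0 536870912 0 536870912 67108864 67108864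
    (rowNK 3 0 true true true .up 0 2 3 (qsf 0 536870912 0 536870912 3) ndN0q0 ndN1q2a pcN3 Cut.none Ext.none)

def k0_pp_023_a : ∃ t, chk3 f_pp_023_a t 1 1 1 = true :=
  ⟨(a (l 1) (l 4)), by decide +kernel⟩

theorem c_pp_023_a : CertN 0 536870912 0 536870912 67108864 67108864 3 true true true .up 0 2 3
    ndN0q0 ndN1q2a pcN3 Cut.none Ext.none :=
  certNK0 (fam := true) (s1 := true) (s2 := true) (a := 0) (b := 2) (c := 3) (cn := .up) (n1 := ndN0q0) (n2 := ndN1q2a) (pc := pcN3) (cut := Cut.none) (xt := Ext.none) (P1 := 0) (W1 := 536870912) (P2 := 0) (W2 := 536870912) (P3 := 67108864) (W3 := 67108864) (N0 := 3)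
    rfl rfl rfl k0_pp_023_a

noncomputable def f_pp_023_b : ℕ → ℕ → ℕ → ℕ → Bool := onCell 0 536870912 1610612736 536870912 67108864 67108864
    (rowNK 3 1 true true true .up 0 2 3 (qsf 0 536870912 1239849684 370763052 3) ndN0q0 ndN1q2b pcN3 Cut.none Ext.none)

def k0_pp_023_b : ∃ t, chk3 f_pp_023_b t 1 1 1 = true :=
  ⟨(b (l 4) (l 4)), by decide +kernel⟩

theorem c_pp_023_b : CertN 0 536870912 1239849684 370763052 67108864 67108864 3 true true true .up 0 2 3
    ndN0q0 ndN1q2b pcN3 Cut.none Ext.none :=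
  certNK1 (fam := true) (s1 := true) (s2 := true) (a := 0) (b := 2) (c := 3) (cn := .up) (n1 := ndN0q0) (n2 := ndN1q2b) (pc := pcN3) (cut := Cut.none) (xt := Ext.none) (P1 := 0) (W1 := 536870912) (P2 := 1239849684) (W2 := 370763052) (P3 := 67108864) (W3 := 67108864) (N0 := 3)
    rfl rfl rfl (fun _ => rfl) k0_pp_023_b

noncomputable def f_pp_033 : ℕ → ℕ → ℕ → ℕ → Bool := onCell 0 536870912 1610612736 536870912 67108864 67108864
    (rowNK 3 0 true true true .pnn 0 3 3 (qsf 0 536870912 1610612736 536870912 3) ndN0q0 ndN1q3 pcN3 Cut.none Ext.none)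

def k0_pp_033 : ∃ t, chk3 f_pp_033 t 1 1 1 = true :=
  ⟨(a (l 4) (l 4)), by decide +kernel⟩

theorem c_pp_033 : CertN 0 536870912 1610612736 536870912 67108864 67108864 3 true true true .pnn 0 3 3
    ndN0q0 ndN1q3 pcN3 Cut.none Ext.none :=
  certNK0 (fam := true) (s1 := true) (s2 := true) (a := 0) (b := 3) (c := 3) (cn := .pnn) (n1 := ndN0q0) (n2 := ndN1q3) (pc := pcN3) (cut := Cut.none) (xt := Ext.none) (P1 := 0) (W1 := 536870912) (P2 := 1610612736) (W2 := 536870912) (P3 := 67108864) (W3 := 67108864) (N0 := 3)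
    rfl rfl rfl k0_pp_033

noncomputable def f_pp_101 : ℕ → ℕ → ℕ → ℕ → Bool := onCell 536870912 536870912 0 536870912 67108864 67108864
    (rowNK 3 0 true true true .npn 1 0 1 (qsf 536870912 536870912 0 536870912 1) ndN0q1 ndN1q0 pcN1 Cut.none Ext.none)

def k0_pp_101 : ∃ t, chk3 f_pp_101 t 1 1 1 = true :=
  ⟨(l 5), by decide +kernel⟩

theorem c_pp_101 : CertN 536870912 536870912 0 536870912 67108864 67108864 3 true true true .npn 1 0 1
    ndN0q1 ndN1q0 pcN1 Cut.none Ext.none :=
  certNK0 (fam := true) (s1 := true) (s2 := true) (a := 1) (b := 0) (c := 1) (cn := .npn) (n1 := ndN0q1) (n2 := ndN1q0) (pc := pcN1) (cut := Cut.none) (xt := Ext.none) (P1 := 536870912) (W1 := 536870912) (P2 := 0) (W2 := 536870912) (P3 := 67108864) (W3 := 67108864) (N0 := 3)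
    rfl rfl rfl k0_pp_101

noncomputable def f_pp_102 : ℕ → ℕ → ℕ → ℕ → Bool := onCell 536870912 536870912 0 536870912 67108864 67108864
    (rowNK 3 0 true true true .npp 1 0 2 (qsf 536870912 536870912 0 536870912 2) ndN0q1 ndN1q0 pcN2 Cut.none Ext.none)

def k0_pp_102 : ∃ t, chk3 f_pp_102 t 1 1 1 = true :=
  ⟨(l 5), by decide +kernel⟩

theorem c_pp_102 : CertN 536870912 536870912 0 536870912 67108864 67108864 3 true true true .npp 1 0 2
    ndN0q1 ndN1q0 pcN2 Cut.none Ext.none :=
  certNK0 (fam := true) (s1 := true) (s2 := true) (a := 1) (b := 0) (c := 2) (cn := .npp) (n1 := ndN0q1) (n2 := ndN1q0) (pc := pcN2) (cut := Cut.none) (xt := Ext.none) (P1 := 536870912) (W1 := 536870912) (P2 := 0) (W2 := 536870912) (P3 := 67108864) (W3 := 67108864) (N0 := 3)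
    rfl rfl rfl k0_pp_102

noncomputable def f_pp_112 : ℕ → ℕ → ℕ → ℕ → Bool := onCell 536870912 536870912 536870912 536870912 67108864 67108864
    (rowNK 3 0 true true true .dn 1 1 2 (qsf 536870912 536870912 536870912 536870912 2) ndN0q1 ndN1q1 pcN2 Cut.none Ext.none)

def k0_pp_112 : ∃ t, chk3 f_pp_112 t 1 1 1 = true :=
  ⟨(l 4), by decide +kernel⟩

theorem c_pp_112 : CertN 536870912 536870912 536870912 536870912 67108864 67108864 3 true true true .dn 1 1 2
    ndN0q1 ndN1q1 pcN2 Cut.none Ext.none :=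
  certNK0 (fam := true) (s1 := true) (s2 := true) (a := 1) (b := 1) (c := 2) (cn := .dn) (n1 := ndN0q1) (n2 := ndN1q1) (pc := pcN2) (cut := Cut.none) (xt := Ext.none) (P1 := 536870912) (W1 := 536870912) (P2 := 536870912) (W2 := 536870912) (P3 := 67108864) (W3 := 67108864) (N0 := 3)
    rfl rfl rfl k0_pp_112

noncomputable def f_pp_113 : ℕ → ℕ → ℕ → ℕ → Bool := onCell 536870912 536870912 536870912 536870912 67108864 67108864
    (rowNK 3 0 true true true .nn 1 1 3 (qsf 536870912 536870912 536870912 536870912 3) ndN0q1 ndN1q1 pcN3 Cut.none Ext.none)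

def k0_pp_113 : ∃ t, chk3 f_pp_113 t 1 1 1 = true :=
  ⟨(l 4), by decide +kernel⟩

theorem c_pp_113 : CertN 536870912 536870912 536870912 536870912 67108864 67108864 3 true true true .nn 1 1 3
    ndN0q1 ndN1q1 pcN3 Cut.none Ext.none :=
  certNK0 (fam := true) (s1 := true) (s2 := true) (a := 1) (b := 1) (c := 3) (cn := .nn) (n1 := ndN0q1) (n2 := ndN1q1) (pc := pcN3) (cut := Cut.none) (xt := Ext.none) (P1 := 536870912) (W1 := 536870912) (P2 := 536870912) (W2 := 536870912) (P3 := 67108864) (W3 := 67108864) (N0 := 3)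
    rfl rfl rfl k0_pp_113

noncomputable def f_pp_123_a : ℕ → ℕ → ℕ → ℕ → Bool := onCell 536870912 536870912 0 536870912 67108864 67108864
    (rowNK 3 0 true true true .npn 1 2 3 (qsf 536870912 536870912 0 536870912 3) ndN0q1 ndN1q2a pcN3 Cut.none Ext.none)

def k0_pp_123_a : ∃ t, chk3 f_pp_123_a t 1 1 1 = true :=
  ⟨(l 4), by decide +kernel⟩

theorem c_pp_123_a : CertN 536870912 536870912 0 536870912 67108864 67108864 3 true true true .npn 1 2 3
    ndN0q1 ndN1q2a pcN3 Cut.none Ext.none :=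
  certNK0 (fam := true) (s1 := true) (s2 := true) (a := 1) (b := 2) (c := 3) (cn := .npn) (n1 := ndN0q1) (n2 := ndN1q2a) (pc := pcN3) (cut := Cut.none) (xt := Ext.none) (P1 := 536870912) (W1 := 536870912) (P2 := 0) (W2 := 536870912) (P3 := 67108864) (W3 := 67108864) (N0 := 3)
    rfl rfl rfl k0_pp_123_a

noncomputable def f_pp_123_b : ℕ → ℕ → ℕ → ℕ → Bool := onCell 536870912 536870912 1239849684 370763052 67108864 67108864
    (rowNK 3 0 true true true .npn 1 2 3 (qsf 536870912 536870912 1239849684 370763052 3) ndN0q1 ndN1q2b pcN3 Cut.none Ext.none)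

def k0_pp_123_b : ∃ t, chk3 f_pp_123_b t 1 1 1 = true :=
  ⟨(l 4), by decide +kernel⟩

theorem c_pp_123_b : CertN 536870912 536870912 1239849684 370763052 67108864 67108864 3 true true true .npn 1 2 3
    ndN0q1 ndN1q2b pcN3 Cut.none Ext.none :=
  certNK0 (fam := true) (s1 := true) (s2 := true) (a := 1) (b := 2) (c := 3) (cn := .npn) (n1 := ndN0q1) (n2 := ndN1q2b) (pc := pcN3) (cut := Cut.none) (xt := Ext.none) (P1 := 536870912) (W1 := 536870912) (P2 := 1239849684) (W2 := 370763052) (P3 := 67108864) (W3 := 67108864) (N0 := 3)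
    rfl rfl rfl k0_pp_123_b

noncomputable def f_pp_133 : ℕ → ℕ → ℕ → ℕ → Bool := onCell 536870912 536870912 1610612736 536870912 67108864 67108864
    (rowNK 3 0 true true true .dn 1 3 3 (qsf 536870912 536870912 1610612736 536870912 3) ndN0q1 ndN1q3 pcN3 Cut.none Ext.none)

def k0_pp_133 : ∃ t, chk3 f_pp_133 t 1 1 1 = true :=
  ⟨(l 4), by decide +kernel⟩

theorem c_pp_133 : CertN 536870912 536870912 1610612736 536870912 67108864 67108864 3 true true true .dn 1 3 3
    ndN0q1 ndN1q3 pcN3 Cut.none Ext.none :=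
  certNK0 (fam := true) (s1 := true) (s2 := true) (a := 1) (b := 3) (c := 3) (cn := .dn) (n1 := ndN0q1) (n2 := ndN1q3) (pc := pcN3) (cut := Cut.none) (xt := Ext.none) (P1 := 536870912) (W1 := 536870912) (P2 := 1610612736) (W2 := 536870912) (P3 := 67108864) (W3 := 67108864) (N0 := 3)
    rfl rfl rfl k0_pp_133

noncomputable def f_pp_202 : ℕ → ℕ → ℕ → ℕ → Bool := onCell 0 536870912 0 536870912 67108864 67108864
    (rowNK 3 0 true true true .pp 2 0 2 (qsf 0 536870912 0 536870912 2) ndN0q2 ndN1q0 pcN2 Cut.none Ext.none)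

def k0_pp_202 : ∃ t, chk3 f_pp_202 t 1 1 1 = true :=
  ⟨(l 5), by decide +kernel⟩

theorem c_pp_202 : CertN 0 536870912 0 536870912 67108864 67108864 3 true true true .pp 2 0 2
    ndN0q2 ndN1q0 pcN2 Cut.none Ext.none :=
  certNK0 (fam := true) (s1 := true) (s2 := true) (a := 2) (b := 0) (c := 2) (cn := .pp) (n1 := ndN0q2) (n2 := ndN1q0) (pc := pcN2) (cut := Cut.none) (xt := Ext.none) (P1 := 0) (W1 := 536870912) (P2 := 0) (W2 := 536870912) (P3 := 67108864) (W3 := 67108864) (N0 := 3)
    rfl rfl rfl k0_pp_202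

noncomputable def f_pp_203 : ℕ → ℕ → ℕ → ℕ → Bool := onCell 0 536870912 0 536870912 67108864 67108864
    (rowNK 3 0 true true true .up 2 0 3 (qsf 0 536870912 0 536870912 3) ndN0q2 ndN1q0 pcN3 Cut.none Ext.none)

def k0_pp_203 : ∃ t, chk3 f_pp_203 t 1 1 1 = true :=
  ⟨(l 5), by decide +kernel⟩

theorem c_pp_203 : CertN 0 536870912 0 536870912 67108864 67108864 3 true true true .up 2 0 3
    ndN0q2 ndN1q0 pcN3 Cut.none Ext.none :=
  certNK0 (fam := true) (s1 := true) (s2 := true) (a := 2) (b := 0) (c := 3) (cn := .up) (n1 := ndN0q2) (n2 := ndN1q0) (pc := pcN3) (cut := Cut.none) (xt := Ext.none) (P1 := 0) (W1 := 536870912) (P2 := 0) (W2 := 536870912) (P3 := 67108864) (W3 := 67108864) (N0 := 3)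
    rfl rfl rfl k0_pp_203

noncomputable def f_pp_213 : ℕ → ℕ → ℕ → ℕ → Bool := onCell 0 536870912 536870912 536870912 67108864 67108864
    (rowNK 3 0 true true true .pnn 2 1 3 (qsf 0 536870912 536870912 536870912 3) ndN0q2 ndN1q1 pcN3 Cut.none Ext.none)

def k0_pp_213 : ∃ t, chk3 f_pp_213 t 1 1 1 = true :=
  ⟨(l 4), by decide +kernel⟩

theorem c_pp_213 : CertN 0 536870912 536870912 536870912 67108864 67108864 3 true true true .pnn 2 1 3
    ndN0q2 ndN1q1 pcN3 Cut.none Ext.none :=
  certNK0 (fam := true) (s1 := true) (s2 := true) (a := 2) (b := 1) (c := 3) (cn := .pnn) (n1 := ndN0q2) (n2 := ndN1q1) (pc := pcN3) (cut := Cut.none) (xt := Ext.none) (P1 := 0) (W1 := 536870912) (P2 := 536870912) (W2 := 536870912) (P3 := 67108864) (W3 := 67108864) (N0 := 3)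
    rfl rfl rfl k0_pp_213

noncomputable def f_pm_001 : ℕ → ℕ → ℕ → ℕ → Bool := onCell 0 536870912 0 536870912 67108864 67108864
    (rowNK 3 0 true true false .up 0 0 1 (qsf 0 536870912 0 536870912 1) ndN0q0 ndN1q0 pcN1 Cut.none Ext.none)

def k0_pm_001 : ∃ t, chk3 f_pm_001 t 1 1 1 = true :=
  ⟨(l 3), by decide +kernel⟩

theorem c_pm_001 : CertN 0 536870912 0 536870912 67108864 67108864 3 true true false .up 0 0 1
    ndN0q0 ndN1q0 pcN1 Cut.none Ext.none :=
  certNK0 (fam := true) (s1 := true) (s2 := false) (a := 0) (b := 0) (c := 1) (cn := .up) (n1 := ndN0q0) (n2 := ndN1q0) (pc := pcN1) (cut := Cut.none) (xt := Ext.none) (P1 := 0) (W1 := 536870912) (P2 := 0) (W2 := 536870912) (P3 := 67108864) (W3 := 67108864) (N0 := 3)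
    rfl rfl rfl k0_pm_001

noncomputable def f_pm_011 : ℕ → ℕ → ℕ → ℕ → Bool := onCell 0 536870912 536870912 536870912 67108864 67108864
    (rowNK 3 1 true true false .pnn 0 1 1 (qsf 0 536870912 536870912 536870912 1) ndN0q0 ndN1q1 pcN1 Cut.none Ext.none)

def k0_pm_011 : ∃ t, chk3 f_pm_011 t 1 1 1 = true :=
  ⟨(l 3), by decide +kernel⟩

theorem c_pm_011 : CertN 0 536870912 536870912 536870912 67108864 67108864 3 true true false .pnn 0 1 1
    ndN0q0 ndN1q1 pcN1 Cut.none Ext.none :=
  certNK1 (fam := true) (s1 := true) (s2 := false) (a := 0) (b := 1) (c := 1) (cn := .pnn) (n1 := ndN0q0) (n2 := ndN1q1) (pc := pcN1) (cut := Cut.none) (xt := Ext.none) (P1 := 0) (W1 := 536870912) (P2 := 536870912) (W2 := 536870912) (P3 := 67108864) (W3 := 67108864) (N0 := 3)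
    rfl rfl rfl (fun _ => rfl) k0_pm_011

noncomputable def f_pm_012 : ℕ → ℕ → ℕ → ℕ → Bool := onCell 1073741824 536870912 536870912 536870912 67108864 67108864
    (rowNK 3 2 true true false .pnp 0 1 2 (qsf 0 536870912 536870912 536870912 2) ndN0q0 ndN1q1 pcN2 Cut.none Ext.none)

def k0_pm_012 : ∃ t, chk3 f_pm_012 t 1 1 1 = true :=
  ⟨(a (a (a (l 3) (b (b (a (l 159620934471) (l 17684688)) (a (l 3) (l 17745744))) (b (a (l 3) (l 225655743975)) (l 3)))) (b (a (b (a (a (l 17603352) (l 2)) (l 2)) (a (a (l 17662016) (a (l 17620848) (l 17655568))) (l 17525688))) (b (l 2) (l 17352712))) (b (a (a (a (l 17587696) (a (l 17539080) (a (l 17527912) (l 17711240)))) (l 17508760)) (l 17635072)) (a (b (a (a (l 17747264) (a (l 17775552) (a (l 17790040) (l 17801080)))) (l 17849576)) (a (a (l 3) (a (b (l 17868568) (l 17846176)) (b (a (l 17908536) (l 17934840)) (a (l 17919680) (a (l 17954216) (l 17976480)))))) (b (l 18042144) (l 18142832)))) (b (l 17952512) (b (l 18246928) (l 18455440)))))))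 (b (a (b (l 2) (a (l 17140648) (l 2))) (l 2)) (b (a (a (l 17452656) (l 17380496)) (a (l 17247296) (l 2))) (a (b (l 18040656) (a (l 18512168) (l 18553424))) (b (l 17923240) (l 18484640)))))), by decide +kernel⟩

theorem c_pm_012 : CertN 0 536870912 536870912 536870912 67108864 67108864 3 true true false .pnp 0 1 2
    ndN0q0 ndN1q1 pcN2 Cut.none Ext.none :=
  certNK2 (fam := true) (s1 := true) (s2 := false) (a := 0) (b := 1) (c := 2) (cn := .pnp) (n1 := ndN0q0) (n2 := ndN1q1) (pc := pcN2) (cut := Cut.none) (xt := Ext.none) (P1 := 0) (W1 := 536870912) (P2 := 536870912) (W2 := 536870912) (P3 := 67108864) (W3 := 67108864) (N0 := 3)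
    rfl rfl rfl (fun _ => rfl) k0_pm_012

end Pool.Agent.Strip051.G.I1_16_1_8.Tab.C.NA01

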