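import Pool.Agent.Strip051.G.I1_16_1_8.Tab
import Pool.Agent.Strip051.PB.RowK

/-! # Certificates N2 (generated) -/

set_option linter.all false
set_option maxRecDepth 100000

namespace Pool.Agent.Strip051.G.I1_16_1_8.Tab.C.NA01

open Pool.Agent.Strip051.PB Pool.Agent.Strip051.PB.T
open Pool.Agent.Strip051.G.I1_16_1_8.Tab

noncomputable def cut_pm_022_a : Cut := Cut.of [[⟨0, 0, 0, 67108864⟩, ⟨1, 1, 0, 67108864⟩, ⟨2, 1, 0, 67108864⟩], [⟨0, 0, 1, 33554432⟩, ⟨1, 1, 0, 16777216⟩, ⟨2, 1, 1, 33554432⟩, ⟨0, 0, 0, 150994944⟩, ⟨0, 1, 0, 1023410176⟩, ⟨2, 1, 0, 150994944⟩, ⟨2, 2, 0, 1023410176⟩]]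

noncomputable def f_pm_022_a : ℕ → ℕ → ℕ → ℕ → Bool := onCell 1073741824 536870912 0 536870912 67108864 67108864
    (rowNK 3 2 true true false .pp 0 2 2 (qsf 0 536870912 0 536870912 2) ndN0q0 ndN1q2a pcN2 cut_pm_022_a Ext.none)

def k0_pm_022_a : ∃ t, chk3 f_pm_022_a t 2 2 1 = true :=
  ⟨(a (a (l 1) (b (l 1) (a (l 1) (b (l 1) (a (l 1) (b (l 1) (a (l 1) (c (l 18047640) (l 17010464))))))))) (a (a (b (a (l 1) (c (l 18472736) (l 17564296))) (c (b (l 18341216) (a (l 18204896) (l 18314664))) (a (b (l 17339592) (b (l 17098760) (l 17173160))) (b (l 17615896) (l 17547456))))) (b (c (l 18546048) (l 17909240)) (b (l 18162040) (l 17999472)))) (b (l 18291104) (a (l 18203024) (l 18226640))))), by decide +kernel⟩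

def k1_pm_022_a : ∃ t, chk3 f_pm_022_a t 8 3 1 = true :=
  ⟨(b (l 1) (b (a (l 1) (b (a (l 1) (a (l 1) (b (l 1) (a (b (l 1) (l 6)) (b (l 16677856) (l 16673176)))))) (a (l 6) (a (l 6) (a (l 6) (b (l 16679112) (l 16680952))))))) (a (l 6) (a (l 6) (a (l 6) (a (l 6) (a (l 6) (b (b (l 16703496) (l 16717072)) (a (l 6) (a (l 6) (b (b (l 16718152) (l 16728624)) (b (l 16746992) (b (l 16752344) (b (c (l 16752712) (l 16749544)) (b (c (l 16754760) (l 16751536)) (a (l 6) (c (c (l 14) (c (l 14) (l 16756192))) (c (l 16754960) (l 16752000))))))))))))))))))), by decide +kernel⟩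

def k2_pm_022_a : ∃ t, chk3 f_pm_022_a t 18 6 1 = true :=
  ⟨(b (l 1) (a (b (l 1) (a (l 1) (b (l 16655224) (a (l 16662488) (l 16652856))))) (b (a (l 16657224) (b (l 16639328) (l 16638952))) (a (b (a (l 16648368) (l 16644224)) (l 16646800)) (b (l 16638408) (l 16637632)))))), by decide +kernel⟩

def k3_pm_022_a : ∃ t, chk3 f_pm_022_a t 18 14 1 = true :=
  ⟨(a (b (a (b (a (b (l 1) (l 16667296)) (b (l 16662216) (l 16662576))) (a (l 16673224) (l 16662984))) (b (l 16666632) (l 16666672))) (a (a (b (l 16689528) (l 16689664)) (b (l 16684160) (l 16683896))) (b (a (l 16678736) (l 16673256)) (b (l 16676192) (l 16682136))))) (b (a (b (l 16667408) (l 16666696)) (b (l 16636544) (l 16656056))) (a (b (l 16686528) (b (l 16669008) (l 16679200))) (b (l 16654080) (l 16671032))))), by decide +kernel⟩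

def k4_pm_022_a : ∃ t, chk3 f_pm_022_a t 72 15 1 = true :=
  ⟨(a (b (b (b (l 16697000) (l 16706960)) (a (l 16715072) (l 16714416))) (b (b (l 16738000) (l 16737968)) (b (b (l 16745864) (l 16748560)) (b (b (l 16749952) (a (l 16753224) (l 16752632))) (c (a (c (l 14) (b (l 16751480) (b (l 16753520) (a (b (l 16754752) (a (c (l 14) (l 16756416)) (l 14))) (l 14))))) (b (l 16754376) (l 14))) (a (b (l 16749056) (b (l 16753672) (c (b (l 16752888) (a (c (l 16754848) (l 16753360)) (c (l 16754560) (l 16753056)))) (a (l 16754400) (l 16754072))))) (b (l 16748432) (b (l 16753056) (c (b (l 16752296) (a (a (l 16754584) (l 16754440)) (c (c (l 16753544) (l 16753112)) (l 16752456)))) (a (l 16753752) (l 16753432))))))))))) (b (b (l 16721384) (c (l 16714136) (l 16720000))) (b (b (l 16736664) (l 16736664)) (b (b (l 16744632) (l 16744752)) (b (b (l 16748800) (a (l 16752056) (l 16751480))) (c (l 14) (a (b (l 16747808) (b (l 16752448) (c (b (l 16751720) (c (b (l 16753976) (a (l 16753216)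 (l 16753584))) (a (l 16752160) (l 16751864)))) (a (l 16751808) (l 16751488))))) (b (l 16747200) (b (l 16751840) (c (b (l 16751144) (c (c (l 14) (a (l 16752256) (l 16751968))) (a (l 16751568) (l 16751280)))) (a (l 16751176) (c (l 16750016) (l 16749096))))))))))))), by decide +kernel⟩

def k5_pm_022_a : ∃ t, chk3 f_pm_022_a t 73 15 1 = true :=
  ⟨(b (b (b (l 16692240) (l 16702536)) (b (l 16712888) (l 16712784))) (b (a (b (l 16735288) (l 16730144)) (b (l 16712976) (l 16734136))) (b (a (b (l 16732936) (l 16743592)) (a (l 16743824) (l 16742904))) (c (l 14) (a (b (l 16747272) (a (b (l 16746592) (b (l 16751248) (a (b (l 16752464) (c (c (c (l 14) (l 16751688)) (l 16750992)) (l 16749584))) (b (l 16752168) (c (c (l 14) (l 16750704)) (l 16749272)))))) (b (l 16746000) (b (l 16750656) (c (b (l 16750024) (c (l 14) (a (l 16750416) (l 16751448)))) (b (l 16748096) (a (l 16748968) (l 16749976)))))))) (b (l 16746080) (b (c (l 16748520) (l 16749192)) (b (a (l 16750080) (l 16749504))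 (b (a (c (l 16749472) (l 16747488)) (c (l 16751552) (l 16746896))) (c (c (l 14) (a (a (l 16751160) (c (l 14) (l 16749320))) (b (l 16748944) (a (l 16749472) (l 16749192))))) (a (a (l 16749680) (l 16749376)) (a (l 16749080) (c (l 16747992) (l 16746960)))))))))))))), by decide +kernel⟩

def k6_pm_022_a : ∃ t, chk3 f_pm_022_a t 37 15 1 = true :=
  ⟨(b (b (a (a (l 16696032) (l 16694512)) (l 16717840)) (a (a (l 16706288) (l 16704856)) (b (l 16707352) (l 16718032)))) (b (a (b (l 16720800) (c (l 14) (l 16729912))) (b (l 16728872) (a (l 16741008) (l 16739864)))) (a (c (l 14) (a (b (l 16741984) (b (l 16744920) (b (c (l 16750064) (l 16742768)) (a (b (l 16748944) (a (c (c (l 14) (a (l 16749792) (a (l 16749696) (l 14)))) (c (l 16748672) (l 16746320))) (c (l 14) (a (l 16747944) (l 16748456))))) (b (l 16748384) (c (l 14) (b (l 16745736) (a (c (l 16747144) (l 16746072)) (c (l 16746864) (l 16745776)))))))))) (b (l 16740784) (b (l 16743784) (c (l 14) (b (l 16741616) (b (a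 (l 16744128) (l 16743560)) (b (a (l 16745168) (l 16744600)) (a (a (c (l 16746584) (l 16745488)) (c (l 16746304) (l 16745200))) (a (c (l 16747344) (l 16744912)) (c (l 16746416) (l 16744624)))))))))))) (b (b (l 16735120) (a (l 16744456) (l 16743432))) (c (c (c (l 17274008) (l 14)) (l 14)) (c (l 14) (a (b (l 16736344) (b (l 16740504) (a (b (l 16743008) (a (c (a (l 16746528) (l 16746400)) (l 16744000)) (c (l 14) (l 16745024)))) (b (l 16742456) (c (l 14) (a (l 16744744) (l 16744472))))))) (b (l 16735216) (c (l 14) (b (l 16738824) (b (l 16740920) (b (a (l 16742368) (l 16741824)) (a (a (l 16743232) (l 16742968)) (a (l 16742696) (l 16742424))))))))))))))), by decide +kernel⟩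

def k7_pm_022_a : ∃ t, chk3 f_pm_022_a t 19 3 1 = true :=
  ⟨(b (b (a (b (a (l 1) (l 16885200)) (a (l 16636304) (c (b (l 17679904) (l 17652800)) (l 16624360)))) (c (b (a (l 17872568) (l 17996320)) (l 17850872)) (b (a (l 16613008) (l 16984368)) (l 16622952)))) (b (a (a (b (l 16663088) (l 16777600)) (c (l 17535880) (l 16621896))) (c (l 17732488) (a (l 16721888) (l 16927912)))) (a (b (l 16643880) (a (l 16759160) (l 16865744))) (c (l 17549056) (a (l 16710208) (l 16905472)))))) (b (a (b (a (b (l 16753080) (l 16749664)) (b (l 16851360) (l 16839088))) (b (a (l 16749424) (l 16829280)) (b (l 16729928) (l 16708552)))) (c (b (a (l 17583688) (l 17686704)) (a (l 17425280) (l 17607760))) (b (b (l 16804760) (l 16802088)) (b (l 16802112) (l 16742280))))) (b (a (a (b (l 16739208) (b (l 16768632) (l 16754808))) (c (b (l 17257664) (l 17124272)) (b (l 16684304) (l 16705736)))) (c (b (l 17379752) (c (l 17630928) (l 17224792))) (b (a (l 16731192) (l 16886296)) (a (l 16746808)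 (l 16829560))))) (b (a (a (b (l 16742248) (l 16727088)) (c (c (l 17455792) (b (l 17120016) (l 17094272))) (b (l 16701248) (l 16712448)))) (b (c (l 17297632) (l 16712080)) (c (l 17197160) (a (l 14) (l 16800808))))) (c (a (c (a (b (l 17322064) (l 17201496)) (l 17416552)) (a (l 14) (c (b (l 17190240) (l 17162200)) (l 14)))) (c (l 17476928) (a (b (l 17223240) (l 17048080)) (l 17291512)))) (c (a (l 14) (a (l 14) (a (l 14) (b (l 17074680) (l 16949736))))) (a (a (b (l 16735192) (a (c (l 14) (b (l 16733520) (b (l 16737736) (b (l 16739856) (a (a (a (l 16741880) (l 16743064)) (l 14)) (l 14)))))) (b (l 16733064) (l 14)))) (b (l 16733064) (l 14))) (l 14)))))))), by decide +kernel⟩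

def k8_pm_022_a : ∃ t, chk3 f_pm_022_a t 5 3 1 = true :=
  ⟨(a (b (a (b (a (c (l 18080168) (b (l 17241344) (l 17162320))) (a (l 17537264) (l 17860136))) (a (c (l 17821488) (b (l 17084440) (l 16946512))) (b (l 17593560) (l 17470144)))) (b (a (l 17942144) (l 18018528)) (a (l 17657592) (l 17906944)))) (a (c (b (a (b (l 17805784) (l 17723616)) (l 17874792)) (b (a (l 17600680) (l 17751656)) (a (b (l 17584008) (a (l 17514400) (l 17575080))) (b (l 17690256) (a (l 17626472) (l 17671872)))))) (b (a (b (b (l 17113472) (l 17100688)) (b (l 17068704) (l 16975864))) (b (l 17318592) (l 17030192))) (b (a (b (l 16822472) (a (l 16952824) (l 17100008))) (b (l 17258088) (l 17139448))) (a (a (b (a (l 16844112) (l 16918480)) (c (b (l 17147872) (a (l 17123496) (l 17168088))) (l 14))) (b (l 16865600) (a (c (l 17211488) (l 14)) (b (l 17096096) (c (l 17248456) (a (l 14) (a (l 14) (l 16980128)))))))) (a (b (l 17135280) (b (l 17130032) (a (b (l 17153688) (l 17006104)) (l 17122272))))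 (b (l 17265376) (b (l 17256536) (a (l 17194840) (a (l 17258920) (l 17210472)))))))))) (b (b (l 17589720) (a (l 17628400) (l 17755320))) (c (b (l 17867904) (l 17788800)) (a (b (l 17361056) (b (l 17354104) (a (l 17227192) (l 17363520)))) (b (l 17486656) (b (l 17454328) (l 17434568)))))))) (a (b (b (l 18088888) (l 17988976)) (b (b (l 17907248) (l 17849600)) (b (l 17791640) (a (l 17536184) (l 17764176))))) (b (l 18090752) (b (l 17958104) (b (l 17886016) (l 17838696)))))), by decide +kernel⟩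

def k9_pm_022_a : ∃ t, chk3 f_pm_022_a t 3 1 1 = true :=
  ⟨(b (a (a (b (l 18244296) (l 18213704)) (l 18143648)) (l 18103280)) (a (b (a (l 18118752) (l 18100400)) (b (a (l 18025152) (l 18049904)) (a (b (l 17974968) (l 17942880)) (l 18016632)))) (b (l 17994976) (a (l 18012784) (l 17950816))))), by decide +kernel⟩

theorem s10_pm_022_a : ∃ t, chk3 f_pm_022_a t 36 15 1 = true := ex3_a k4_pm_022_a k5_pm_022_a

theorem s11_pm_022_a : ∃ t, chk3 f_pm_022_a t 18 15 1 = true := ex3_a s10_pm_022_a k6_pm_022_a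

theorem s12_pm_022_a : ∃ t, chk3 f_pm_022_a t 18 7 1 = true := ex3_b k3_pm_022_a s11_pm_022_a

theorem s13_pm_022_a : ∃ t, chk3 f_pm_022_a t 18 3 1 = true := ex3_b k2_pm_022_a s12_pm_022_a

theorem s14_pm_022_a : ∃ t, chk3 f_pm_022_a t 9 3 1 = true := ex3_a s13_pm_022_a k7_pm_022_a

theorem s15_pm_022_a : ∃ t, chk3 f_pm_022_a t 4 3 1 = true := ex3_a k1_pm_022_a s14_pm_022_a

theorem s16_pm_022_a : ∃ t, chk3 f_pm_022_a t 2 3 1 = true := ex3_a s15_pm_022_a k8_pm_022_a

theorem s17_pm_022_a : ∃ t, chk3 f_pm_022_a t 2 1 1 = true := ex3_b k0_pm_022_a s16_pm_022_a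

theorem s18_pm_022_a : ∃ t, chk3 f_pm_022_a t 1 1 1 = true := ex3_a s17_pm_022_a k9_pm_022_a

theorem c_pm_022_a : CertN 0 536870912 0 536870912 67108864 67108864 3 true true false .pp 0 2 2
    ndN0q0 ndN1q2a pcN2 cut_pm_022_a Ext.none :=
  certNK2 (fam := true) (s1 := true) (s2 := false) (a := 0) (b := 2) (c := 2) (cn := .pp) (n1 := ndN0q0) (n2 := ndN1q2a) (pc := pcN2) (cut := cut_pm_022_a) (xt := Ext.none) (P1 := 0) (W1 := 536870912) (P2 := 0) (W2 := 536870912) (P3 := 67108864) (W3 := 67108864) (N0 := 3)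
    rfl rfl rfl (fun _ => rfl) s18_pm_022_a

noncomputable def cut_pm_022_b : Cut := Cut.of [[⟨0, 0, 0, 67108864⟩, ⟨1, 1, 0, 67108864⟩, ⟨2, 1, 0, 67108864⟩], [⟨0, 0, 1, 33554432⟩, ⟨1, 1, 0, 16777216⟩, ⟨2, 1, 1, 33554432⟩, ⟨0, 0, 0, 150994944⟩, ⟨0, 1, 0, 1023410176⟩, ⟨2, 1, 0, 150994944⟩, ⟨2, 2, 0, 1023410176⟩]]

noncomputable def f_pm_022_b : ℕ → ℕ → ℕ → ℕ → Bool := onCell 0 536870912 1239849684 370763052 67108864 67108864
    (rowNK 3 0 true true false .pp 0 2 2 (qsf 0 536870912 1239849684 370763052 2) ndN0q0 ndN1q2b pcN2 cut_pm_022_b Ext.none)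

def k0_pm_022_b : ∃ t, chk3 f_pm_022_b t 1 1 1 = true :=
  ⟨(a (b (a (a (b (b (a (b (l 18346648) (l 18508976)) (l 18427944)) (l 18640832)) (l 18790672)) (b (l 18436040) (l 18595360))) (b (l 18222168) (l 18315784))) (a (b (l 18756464) (l 18742984)) (b (l 18335912) (l 2)))) (b (a (b (l 17919912) (l 17977344)) (l 2)) (l 2))), by decide +kernel⟩

theorem c_pm_022_b : CertN 0 536870912 1239849684 370763052 67108864 67108864 3 true true false .pp 0 2 2
    ndN0q0 ndN1q2b pcN2 cut_pm_022_b Ext.none :=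
  certNK0 (fam := true) (s1 := true) (s2 := false) (a := 0) (b := 2) (c := 2) (cn := .pp) (n1 := ndN0q0) (n2 := ndN1q2b) (pc := pcN2) (cut := cut_pm_022_b) (xt := Ext.none) (P1 := 0) (W1 := 536870912) (P2 := 1239849684) (W2 := 370763052) (P3 := 67108864) (W3 := 67108864) (N0 := 3)
    rfl rfl rfl k0_pm_022_b

noncomputable def f_pm_023_a : ℕ → ℕ → ℕ → ℕ → Bool := onCell 0 536870912 0 536870912 67108864 67108864
    (rowNK 3 0 true true false .up 0 2 3 (qsf 0 536870912 0 536870912 3) ndN0q0 ndN1q2a pcN3 Cut.none Ext.none)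

def k0_pm_023_a : ∃ t, chk3 f_pm_023_a t 1 1 1 = true :=
  ⟨(a (l 1) (b (a (b (l 18200440) (l 66608532775)) (b (a (l 18144784) (l 18068280)) (l 18140312))) (b (a (l 1) (a (l 17670584) (l 17586688))) (a (l 1) (b (a (l 17553768) (l 17472568)) (a (l 1) (b (l 17809880) (l 18047088)))))))), by decide +kernel⟩

theorem c_pm_023_a : CertN 0 536870912 0 536870912 67108864 67108864 3 true true false .up 0 2 3
    ndN0q0 ndN1q2a pcN3 Cut.none Ext.none :=
  certNK0 (fam := true) (s1 := true) (s2 := false) (a := 0) (b := 2) (c := 3) (cn := .up) (n1 := ndN0q0) (n2 := ndN1q2a) (pc := pcN3) (cut := Cut.none) (xt := Ext.none) (P1 := 0) (W1 := 536870912) (P2 := 0) (W2 := 536870912) (P3 := 67108864) (W3 := 67108864) (N0 := 3)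
    rfl rfl rfl k0_pm_023_a

noncomputable def f_pm_023_b : ℕ → ℕ → ℕ → ℕ → Bool := onCell 1610612736 536870912 1239849684 370763052 67108864 67108864
    (rowNK 3 2 true true false .up 0 2 3 (qsf 0 536870912 1239849684 370763052 3) ndN0q0 ndN1q2b pcN3 Cut.none Ext.none)

def k0_pm_023_b : ∃ t, chk3 f_pm_023_b t 1 1 1 = true :=
  ⟨(a (a (b (b (a (l 18359568) (l 18212160)) (l 18494360)) (b (l 18159120) (l 18105656))) (b (b (a (l 17977928) (l 17709736)) (l 17857544)) (b (l 17920888) (l 18022400)))) (a (b (b (l 2) (a (l 17522816) (l 17311880))) (a (l 17725384) (l 17629168))) (b (l 2) (a (l 17521776) (l 4))))), by decide +kernel⟩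

theorem c_pm_023_b : CertN 0 536870912 1239849684 370763052 67108864 67108864 3 true true false .up 0 2 3
    ndN0q0 ndN1q2b pcN3 Cut.none Ext.none :=
  certNK2 (fam := true) (s1 := true) (s2 := false) (a := 0) (b := 2) (c := 3) (cn := .up) (n1 := ndN0q0) (n2 := ndN1q2b) (pc := pcN3) (cut := Cut.none) (xt := Ext.none) (P1 := 0) (W1 := 536870912) (P2 := 1239849684) (W2 := 370763052) (P3 := 67108864) (W3 := 67108864) (N0 := 3)
    rfl rfl rfl (fun _ => rfl) k0_pm_023_b

noncomputable def f_pm_033 : ℕ → ℕ → ℕ → ℕ → Bool := onCell 1610612736 536870912 1610612736 536870912 67108864 67108864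
    (rowNK 3 2 true true false .pnn 0 3 3 (qsf 0 536870912 1610612736 536870912 3) ndN0q0 ndN1q3 pcN3 Cut.none Ext.none)

def k0_pm_033 : ∃ t, chk3 f_pm_033 t 1 1 1 = true :=
  ⟨(a (b (a (b (l 17831696) (l 17973944)) (b (l 17734456) (l 18289096))) (a (l 1) (a (l 1) (b (l 18835216) (l 1))))) (a (b (b (a (l 17553968) (l 17361504)) (a (l 18158624) (l 4))) (b (a (l 18660488) (l 4)) (l 4))) (l 4))), by decide +kernel⟩

theorem c_pm_033 : CertN 0 536870912 1610612736 536870912 67108864 67108864 3 true true false .pnn 0 3 3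
    ndN0q0 ndN1q3 pcN3 Cut.none Ext.none :=
  certNK2 (fam := true) (s1 := true) (s2 := false) (a := 0) (b := 3) (c := 3) (cn := .pnn) (n1 := ndN0q0) (n2 := ndN1q3) (pc := pcN3) (cut := Cut.none) (xt := Ext.none) (P1 := 0) (W1 := 536870912) (P2 := 1610612736) (W2 := 536870912) (P3 := 67108864) (W3 := 67108864) (N0 := 3)
    rfl rfl rfl (fun _ => rfl) k0_pm_033

noncomputable def cut_pm_101 : Cut := Cut.of [[⟨0, 1, 0, 67108864⟩, ⟨1, 0, 0, 67108864⟩, ⟨2, 1, 0, 67108864⟩]]

noncomputable def f_pm_101 : ℕ → ℕ → ℕ → ℕ → Bool := onCell 536870912 536870912 0 536870912 67108864 67108864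
    (rowNK 3 2 true true false .npn 1 0 1 (qsf 536870912 536870912 0 536870912 1) ndN0q1 ndN1q0 pcN1 cut_pm_101 Ext.none)

def k0_pm_101 : ∃ t, chk3 f_pm_101 t 1 1 1 = true :=
  ⟨(a (l 3) (b (a (l 3) (b (a (l 3) (a (l 3) (b (a (l 3) (b (l 6) (l 3))) (l 3)))) (l 3))) (l 3))), by decide +kernel⟩

theorem c_pm_101 : CertN 536870912 536870912 0 536870912 67108864 67108864 3 true true false .npn 1 0 1
    ndN0q1 ndN1q0 pcN1 cut_pm_101 Ext.none :=
  certNK2 (fam := true) (s1 := true) (s2 := false) (a := 1) (b := 0) (c := 1) (cn := .npn) (n1 := ndN0q1) (n2 := ndN1q0) (pc := pcN1) (cut := cut_pm_101) (xt := Ext.none) (P1 := 536870912) (W1 := 536870912) (P2 := 0) (W2 := 536870912) (P3 := 67108864) (W3 := 67108864) (N0 := 3)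
    rfl rfl rfl (fun _ => rfl) k0_pm_101

noncomputable def cut_pm_102 : Cut := Cut.of [[⟨0, 1, 0, 67108864⟩, ⟨1, 0, 0, 67108864⟩, ⟨2, 1, 0, 67108864⟩]]

noncomputable def f_pm_102 : ℕ → ℕ → ℕ → ℕ → Bool := onCell 536870912 536870912 1073741824 536870912 67108864 67108864
    (rowNK 3 1 true true false .npp 1 0 2 (qsf 536870912 536870912 0 536870912 2) ndN0q1 ndN1q0 pcN2 cut_pm_102 Ext.none)

def k0_pm_102 : ∃ t, chk3 f_pm_102 t 1 1 1 = true :=
  ⟨(a (b (b (b (a (l 3) (b (l 3) (l 159620486215))) (a (b (l 17571112) (l 17614272)) (b (l 17620520) (l 17793200)))) (b (a (b (b (l 17640824) (l 2)) (l 2)) (b (b (l 17700032) (l 17709872)) (l 17689632))) (a (l 2) (l 17657640)))) (a (l 2) (b (l 17527800) (l 2)))) (b (b (b (b (a (a (l 3) (l 132238936247)) (a (a (l 118280019463) (a (l 111300602471) (l 104858014103))) (a (b (b (l 144049570631) (l 16980424)) (l 17019304)) (b (l 6) (a (l 16916064) (l 6)))))) (a (a (l 17483568) (b (l 17362512) (l 17405080))) (b (a (b (l 17200360)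 (l 17222568)) (a (b (l 17054656) (l 17075584)) (a (l 17055704) (b (l 6) (l 16951272))))) (a (l 17358736) (a (l 17256488) (a (l 17060864) (l 16991328))))))) (a (b (b (l 17676288) (l 17599856)) (a (l 17615280) (l 17529696))) (b (a (l 17531984) (a (l 17198768) (b (l 17088936) (l 17153976)))) (a (l 17392184) (l 17484736))))) (b (a (b (b (l 17626216) (l 17776096)) (l 17620520)) (a (b (b (l 17456456) (l 17472832)) (l 17475768)) (l 17485432))) (a (l 17590704) (l 17463512)))) (b (a (l 17510960) (l 17476936)) (a (l 17581712) (l 17455664))))), by decide +kernel⟩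

theorem c_pm_102 : CertN 536870912 536870912 0 536870912 67108864 67108864 3 true true false .npp 1 0 2
    ndN0q1 ndN1q0 pcN2 cut_pm_102 Ext.none :=
  certNK1 (fam := true) (s1 := true) (s2 := false) (a := 1) (b := 0) (c := 2) (cn := .npp) (n1 := ndN0q1) (n2 := ndN1q0) (pc := pcN2) (cut := cut_pm_102) (xt := Ext.none) (P1 := 536870912) (W1 := 536870912) (P2 := 0) (W2 := 536870912) (P3 := 67108864) (W3 := 67108864) (N0 := 3)
    rfl rfl rfl (fun _ => rfl) k0_pm_102

noncomputable def f_pm_112 : ℕ → ℕ → ℕ → ℕ → Bool := onCell 536870912 536870912 1073741824 536870912 67108864 67108864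
    (rowNK 3 1 true true false .dn 1 1 2 (qsf 536870912 536870912 536870912 536870912 2) ndN0q1 ndN1q1 pcN2 Cut.none Ext.none)

def k0_pm_112 : ∃ t, chk3 f_pm_112 t 1 1 1 = true :=
  ⟨(a (b (b (b (a (l 3) (l 1)) (a (b (l 17833960) (l 17637816)) (b (l 1) (l 256659388455)))) (b (b (a (b (l 17592104) (b (l 17565784) (l 17609256))) (b (l 17285408) (l 17532360))) (a (l 17494576) (l 17272960))) (a (l 17349848) (l 17227624)))) (a (b (a (l 17326240) (l 17006768)) (a (l 18089912) (l 17410944))) (b (l 17167808) (a (l 16936552) (l 17202008))))) (b (a (b (l 1) (b (l 1) (l 17016280))) (l 1)) (a (b (l 17418464) (l 17539880)) (b (l 17883328) (l 17915016))))), by decide +kernel⟩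

theorem c_pm_112 : CertN 536870912 536870912 536870912 536870912 67108864 67108864 3 true true false .dn 1 1 2
    ndN0q1 ndN1q1 pcN2 Cut.none Ext.none :=
  certNK1 (fam := true) (s1 := true) (s2 := false) (a := 1) (b := 1) (c := 2) (cn := .dn) (n1 := ndN0q1) (n2 := ndN1q1) (pc := pcN2) (cut := Cut.none) (xt := Ext.none) (P1 := 536870912) (W1 := 536870912) (P2 := 536870912) (W2 := 536870912) (P3 := 67108864) (W3 := 67108864) (N0 := 3)
    rfl rfl rfl (fun _ => rfl) k0_pm_112

noncomputable def f_pm_113 : ℕ → ℕ → ℕ → ℕ → Bool := onCell 536870912 536870912 1610612736 536870912 67108864 67108864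
    (rowNK 3 1 true true false .nn 1 1 3 (qsf 536870912 536870912 536870912 536870912 3) ndN0q1 ndN1q1 pcN3 Cut.none Ext.none)

def k0_pm_113 : ∃ t, chk3 f_pm_113 t 1 1 1 = true :=
  ⟨(b (a (b (a (b (a (l 18215336) (l 17955936)) (a (a (l 2) (l 18594984)) (l 18321328))) (a (l 18424880) (b (l 18173936) (l 18261904)))) (a (b (a (l 2) (a (l 2) (l 18653672))) (l 2)) (b (a (l 18670176) (l 18339912)) (a (a (l 2) (l 18878696)) (l 18441080))))) (b (a (a (l 17453368) (l 17412808)) (a (b (l 18216296) (l 18404632)) (b (l 19002824) (l 18925664)))) (a (a (l 17483112) (a (l 17398488) (l 17747056))) (a (b (l 18367184) (l 18059944)) (b (l 18629296) (l 18194224)))))) (b (a (a (l 2) (b (a (l 2) (l 18626248)) (l 2))) (a (b (a (l 17620928) (l 17333912)) (a (l 17887616) (l 17237624))) (b (a (l 17597648) (l 17729448)) (l 17306112)))) (a (l 2) (a (a (l 2) (b (l 17719848) (l 2))) (b (l 17050376) (b (l 17369936) (l 4))))))), by decide +kernel⟩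

theorem c_pm_113 : CertN 536870912 536870912 536870912 536870912 67108864 67108864 3 true true false .nn 1 1 3
    ndN0q1 ndN1q1 pcN3 Cut.none Ext.none :=
  certNK1 (fam := true) (s1 := true) (s2 := false) (a := 1) (b := 1) (c := 3) (cn := .nn) (n1 := ndN0q1) (n2 := ndN1q1) (pc := pcN3) (cut := Cut.none) (xt := Ext.none) (P1 := 536870912) (W1 := 536870912) (P2 := 536870912) (W2 := 536870912) (P3 := 67108864) (W3 := 67108864) (N0 := 3)
    rfl rfl rfl (fun _ => rfl) k0_pm_113

noncomputable def cut_pm_123_a : Cut := Cut.of [[⟨0, 1, 0, 21338704⟩, ⟨1, 1, 0, 21338704⟩, ⟨2, 2, 0, 1685920⟩]]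

noncomputable def f_pm_123_a : ℕ → ℕ → ℕ → ℕ → Bool := onCell 1610612736 536870912 0 536870912 67108864 67108864
    (rowNK 3 2 true true false .npn 1 2 3 (qsf 536870912 536870912 0 536870912 3) ndN0q1 ndN1q2a pcN3 cut_pm_123_a Ext.none)

def k0_pm_123_a : ∃ t, chk3 f_pm_123_a t 1 1 1 = true :=
  ⟨(a (a (b (b (l 1) (a (l 1) (l 17863456))) (b (a (l 1) (l 17552504)) (a (b (l 17463920) (b (l 17763904) (l 17984448))) (b (l 17332256) (b (l 17626104) (l 17843544)))))) (b (a (b (l 17988328) (l 17810040)) (b (l 17772744) (l 17738288))) (b (a (l 17505576) (l 17509136)) (b (a (l 17168496) (l 17161288)) (a (b (l 17445720) (l 17652192)) (b (l 17247280) (l 17508536))))))) (a (b (a (b (l 17502344) (l 17570336)) (a (l 17403872) (l 17208768))) (b (a (b (l 17478704) (l 17338888)) (b (l 17393960) (l 17253200))) (a (b (l 17153392) (b (l 17053208) (l 17233912))) (b (l 17120064) (b (l 16993480) (l 17236344)))))) (a (b (a (l 17120288) (l 16962448)) (b (a (l 17194144) (l 17034536))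 (b (l 17100672) (b (l 16972040) (a (l 16994048) (b (l 16925608) (l 16979504))))))) (b (a (l 90429850647) (a (l 17009440) (l 4))) (a (b (l 17020560) (b (l 16925232) (b (l 16904368) (b (l 16890440) (a (l 16883448) (l 17076232)))))) (a (b (l 16856152) (b (l 16853896) (b (l 16848192) (b (l 16843856) (a (l 16981704) (l 16951984)))))) (a (b (l 16847080) (b (l 16873304) (b (l 16817176) (b (l 16813368) (a (l 16902632) (l 16876328)))))) (b (a (l 16806816) (l 4)) (b (a (l 16828896) (a (l 16811560) (b (l 4) (l 4)))) (b (a (l 16799736) (a (l 16846984) (a (l 16799152) (l 16926088)))) (b (a (l 16797992) (a (l 16789640) (a (l 16828944) (b (l 16890584) (l 6))))) (a (a (l 16851160) (a (l 16828032) (l 16821352))) (a (b (l 16787448) (a (l 16814424) (a (l 16802824) (l 16802080)))) (a (a (b (l 16783872) (l 16795448)) (l 6)) (l 6))))))))))))))), by decide +kernel⟩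

theorem c_pm_123_a : CertN 536870912 536870912 0 536870912 67108864 67108864 3 true true false .npn 1 2 3
    ndN0q1 ndN1q2a pcN3 cut_pm_123_a Ext.none :=
  certNK2 (fam := true) (s1 := true) (s2 := false) (a := 1) (b := 2) (c := 3) (cn := .npn) (n1 := ndN0q1) (n2 := ndN1q2a) (pc := pcN3) (cut := cut_pm_123_a) (xt := Ext.none) (P1 := 536870912) (W1 := 536870912) (P2 := 0) (W2 := 536870912) (P3 := 67108864) (W3 := 67108864) (N0 := 3)
    rfl rfl rfl (fun _ => rfl) k0_pm_123_a

noncomputable def cut_pm_123_b : Cut := Cut.of [[⟨0, 1, 0, 21338704⟩, ⟨1, 1, 0, 21338704⟩, ⟨2, 2, 0, 1685920⟩]]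

noncomputable def f_pm_123_b : ℕ → ℕ → ℕ → ℕ → Bool := onCell 1610612736 536870912 1239849684 370763052 67108864 67108864
    (rowNK 3 2 true true false .npn 1 2 3 (qsf 536870912 536870912 1239849684 370763052 3) ndN0q1 ndN1q2b pcN3 cut_pm_123_b Ext.none)

def k0_pm_123_b : ∃ t, chk3 f_pm_123_b t 1 1 1 = true :=
  ⟨(a (b (a (l 1) (b (a (l 17981168) (l 17752096)) (a (l 1) (l 17751472)))) (l 1)) (a (b (a (b (l 17535248) (l 17524000)) (b (b (l 17191448) (l 17235256)) (l 17311800))) (a (l 1) (b (l 17460128) (l 1)))) (b (a (b (a (l 17050360) (l 16984576)) (l 17158400)) (b (l 4) (l 4))) (a (b (l 17295040) (l 4)) (l 4))))), by decide +kernel⟩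

theorem c_pm_123_b : CertN 536870912 536870912 1239849684 370763052 67108864 67108864 3 true true false .npn 1 2 3
    ndN0q1 ndN1q2b pcN3 cut_pm_123_b Ext.none :=
  certNK2 (fam := true) (s1 := true) (s2 := false) (a := 1) (b := 2) (c := 3) (cn := .npn) (n1 := ndN0q1) (n2 := ndN1q2b) (pc := pcN3) (cut := cut_pm_123_b) (xt := Ext.none) (P1 := 536870912) (W1 := 536870912) (P2 := 1239849684) (W2 := 370763052) (P3 := 67108864) (W3 := 67108864) (N0 := 3)
    rfl rfl rfl (fun _ => rfl) k0_pm_123_b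

noncomputable def f_pm_133 : ℕ → ℕ → ℕ → ℕ → Bool := onCell 536870912 536870912 1610612736 536870912 67108864 67108864
    (rowNK 3 0 true true false .dn 1 3 3 (qsf 536870912 536870912 1610612736 536870912 3) ndN0q1 ndN1q3 pcN3 Cut.none Ext.none)

def k0_pm_133 : ∃ t, chk3 f_pm_133 t 1 1 1 = true :=
  ⟨(l 4), by decide +kernel⟩

theorem c_pm_133 : CertN 536870912 536870912 1610612736 536870912 67108864 67108864 3 true true false .dn 1 3 3
    ndN0q1 ndN1q3 pcN3 Cut.none Ext.none :=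
  certNK0 (fam := true) (s1 := true) (s2 := false) (a := 1) (b := 3) (c := 3) (cn := .dn) (n1 := ndN0q1) (n2 := ndN1q3) (pc := pcN3) (cut := Cut.none) (xt := Ext.none) (P1 := 536870912) (W1 := 536870912) (P2 := 1610612736) (W2 := 536870912) (P3 := 67108864) (W3 := 67108864) (N0 := 3)
    rfl rfl rfl k0_pm_133

noncomputable def cut_pm_202 : Cut := Cut.of [[⟨0, 1, 0, 67108864⟩, ⟨1, 0, 0, 67108864⟩, ⟨2, 1, 0, 67108864⟩]]

noncomputable def f_pm_202 : ℕ → ℕ → ℕ → ℕ → Bool := onCell 0 536870912 0 536870912 67108864 67108864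
    (rowNK 3 0 true true false .pp 2 0 2 (qsf 0 536870912 0 536870912 2) ndN0q2 ndN1q0 pcN2 cut_pm_202 Ext.none)

def k0_pm_202 : ∃ t, chk3 f_pm_202 t 1 1 1 = true :=
  ⟨(a (b (b (b (b (a (b (a (l 18174744) (l 18006744)) (l 18133032)) (b (a (b (a (l 17908416) (l 17798304)) (l 18032144)) (c (l 18150568) (b (a (l 17418592) (l 17174392)) (l 17422712)))) (a (l 18046360) (l 17886064)))) (a (l 18072000) (l 17983640))) (a (l 17892408) (l 17904352))) (b (l 17670976) (l 17443624))) (b (b (l 17296824) (l 17348320)) (b (l 17360632) (l 2)))) (b (a (b (b (b (a (b (b (c (a (l 17958352) (b (l 17491312) (l 17738824))) (a (l 16861688) (l 16691088))) (a (l 17563624) (l 17307568))) (l 17337024)) (b (b (a (b (l 16689696) (l 16775752)) (a (l 16697784) (l 16707784))) (a (l 16952152) (l 16666904))) (a (l 17219440) (l 16847936)))) (a (l 17757944) (b (l 17332160) (l 17515928)))) (b (a (l 17835176) (l 17671128)) (l 17793448))) (b (l 17753224) (l 17620048))) (b (a (b (b (a (b (b (b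 (b (a (l 16709528) (l 16713600)) (l 16727968)) (l 16715992)) (l 16712648)) (l 16762528)) (b (b (a (b (l 6) (l 16698968)) (l 6)) (a (l 16709176) (l 16758416))) (a (l 16743896) (l 16809464)))) (a (l 17038536) (b (a (l 16757928) (l 16783464)) (l 16871816)))) (b (a (l 17478744) (l 17303592)) (l 17614696))) (b (a (b (b (l 6) (b (l 6) (l 16944328))) (b (l 16992056) (l 16869872))) (b (l 6) (b (a (b (l 6) (l 16872352)) (l 6)) (a (l 16909752) (l 16954856))))) (b (a (l 17082080) (b (l 16972104) (l 17040184))) (a (l 17472240) (l 17364560))))) (b (a (l 17713232) (l 17640552)) (l 17674968)))) (b (a (l 17384928) (l 17623176)) (a (l 17413240) (b (l 17442736) (l 17441152)))))), by decide +kernel⟩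

theorem c_pm_202 : CertN 0 536870912 0 536870912 67108864 67108864 3 true true false .pp 2 0 2
    ndN0q2 ndN1q0 pcN2 cut_pm_202 Ext.none :=
  certNK0 (fam := true) (s1 := true) (s2 := false) (a := 2) (b := 0) (c := 2) (cn := .pp) (n1 := ndN0q2) (n2 := ndN1q0) (pc := pcN2) (cut := cut_pm_202) (xt := Ext.none) (P1 := 0) (W1 := 536870912) (P2 := 0) (W2 := 536870912) (P3 := 67108864) (W3 := 67108864) (N0 := 3)
    rfl rfl rfl k0_pm_202

noncomputable def f_pm_203 : ℕ → ℕ → ℕ → ℕ → Bool := onCell 0 536870912 1610612736 536870912 67108864 67108864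
    (rowNK 3 1 true true false .up 2 0 3 (qsf 0 536870912 0 536870912 3) ndN0q2 ndN1q0 pcN3 Cut.none Ext.none)

def k0_pm_203 : ∃ t, chk3 f_pm_203 t 1 1 1 = true :=
  ⟨(b (b (a (b (l 51775682151) (l 17302056)) (a (l 17283464) (b (l 17867672) (l 17648040)))) (a (b (l 17252440) (l 2)) (a (l 2) (l 2)))) (l 2)), by decide +kernel⟩

theorem c_pm_203 : CertN 0 536870912 0 536870912 67108864 67108864 3 true true false .up 2 0 3
    ndN0q2 ndN1q0 pcN3 Cut.none Ext.none :=
  certNK1 (fam := true) (s1 := true) (s2 := false) (a := 2) (b := 0) (c := 3) (cn := .up) (n1 := ndN0q2) (n2 := ndN1q0) (pc := pcN3) (cut := Cut.none) (xt := Ext.none) (P1 := 0) (W1 := 536870912) (P2 := 0) (W2 := 536870912) (P3 := 67108864) (W3 := 67108864) (N0 := 3)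
    rfl rfl rfl (fun _ => rfl) k0_pm_203

noncomputable def f_pm_213 : ℕ → ℕ → ℕ → ℕ → Bool := onCell 0 536870912 1610612736 536870912 67108864 67108864
    (rowNK 3 1 true true false .pnn 2 1 3 (qsf 0 536870912 536870912 536870912 3) ndN0q2 ndN1q1 pcN3 Cut.none Ext.none)

def k0_pm_213 : ∃ t, chk3 f_pm_213 t 1 1 1 = true :=
  ⟨(a (b (b (b (l 1) (l 17736304)) (b (l 17729424) (l 4))) (l 4)) (b (b (a (l 18310808) (b (l 18909360) (l 18699592))) (b (l 18451304) (a (l 17863832) (l 18081440)))) (b (b (a (l 17692680) (l 17747320)) (l 60903432423)) (l 4)))), by decide +kernel⟩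

theorem c_pm_213 : CertN 0 536870912 536870912 536870912 67108864 67108864 3 true true false .pnn 2 1 3
    ndN0q2 ndN1q1 pcN3 Cut.none Ext.none :=
  certNK1 (fam := true) (s1 := true) (s2 := false) (a := 2) (b := 1) (c := 3) (cn := .pnn) (n1 := ndN0q2) (n2 := ndN1q1) (pc := pcN3) (cut := Cut.none) (xt := Ext.none) (P1 := 0) (W1 := 536870912) (P2 := 536870912) (W2 := 536870912) (P3 := 67108864) (W3 := 67108864) (N0 := 3)
    rfl rfl rfl (fun _ => rfl) k0_pm_213

noncomputable def f_mm_001 : ℕ → ℕ → ℕ → ℕ → Bool := onCell 0 536870912 0 536870912 67108864 67108864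
    (rowNK 3 0 true false false .up 0 0 1 (qsf 0 536870912 0 536870912 1) ndN0q0 ndN1q0 pcN1 Cut.none Ext.none)

def k0_mm_001 : ∃ t, chk3 f_mm_001 t 1 1 1 = true :=
  ⟨(l 4), by decide +kernel⟩

theorem c_mm_001 : CertN 0 536870912 0 536870912 67108864 67108864 3 true false false .up 0 0 1
    ndN0q0 ndN1q0 pcN1 Cut.none Ext.none :=
  certNK0 (fam := true) (s1 := false) (s2 := false) (a := 0) (b := 0) (c := 1) (cn := .up) (n1 := ndN0q0) (n2 := ndN1q0) (pc := pcN1) (cut := Cut.none) (xt := Ext.none) (P1 := 0) (W1 := 536870912) (P2 := 0) (W2 := 536870912) (P3 := 67108864) (W3 := 67108864) (N0 := 3)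
    rfl rfl rfl k0_mm_001

noncomputable def f_mm_011 : ℕ → ℕ → ℕ → ℕ → Bool := onCell 0 536870912 536870912 536870912 67108864 67108864
    (rowNK 3 0 true false false .pnn 0 1 1 (qsf 0 536870912 536870912 536870912 1) ndN0q0 ndN1q1 pcN1 Cut.none Ext.none)

def k0_mm_011 : ∃ t, chk3 f_mm_011 t 1 1 1 = true :=
  ⟨(l 4), by decide +kernel⟩

theorem c_mm_011 : CertN 0 536870912 536870912 536870912 67108864 67108864 3 true false false .pnn 0 1 1
    ndN0q0 ndN1q1 pcN1 Cut.none Ext.none :=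
  certNK0 (fam := true) (s1 := false) (s2 := false) (a := 0) (b := 1) (c := 1) (cn := .pnn) (n1 := ndN0q0) (n2 := ndN1q1) (pc := pcN1) (cut := Cut.none) (xt := Ext.none) (P1 := 0) (W1 := 536870912) (P2 := 536870912) (W2 := 536870912) (P3 := 67108864) (W3 := 67108864) (N0 := 3)
    rfl rfl rfl k0_mm_011

noncomputable def f_mm_012 : ℕ → ℕ → ℕ → ℕ → Bool := onCell 0 536870912 536870912 536870912 67108864 67108864
    (rowNK 3 0 true false false .pnp 0 1 2 (qsf 0 536870912 536870912 536870912 2) ndN0q0 ndN1q1 pcN2 Cut.none Ext.none)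

def k0_mm_012 : ∃ t, chk3 f_mm_012 t 1 1 1 = true :=
  ⟨(l 4), by decide +kernel⟩

theorem c_mm_012 : CertN 0 536870912 536870912 536870912 67108864 67108864 3 true false false .pnp 0 1 2
    ndN0q0 ndN1q1 pcN2 Cut.none Ext.none :=
  certNK0 (fam := true) (s1 := false) (s2 := false) (a := 0) (b := 1) (c := 2) (cn := .pnp) (n1 := ndN0q0) (n2 := ndN1q1) (pc := pcN2) (cut := Cut.none) (xt := Ext.none) (P1 := 0) (W1 := 536870912) (P2 := 536870912) (W2 := 536870912) (P3 := 67108864) (W3 := 67108864) (N0 := 3)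
    rfl rfl rfl k0_mm_012

noncomputable def f_mm_022_a : ℕ → ℕ → ℕ → ℕ → Bool := onCell 0 536870912 0 536870912 67108864 67108864
    (rowNK 3 0 true false false .pp 0 2 2 (qsf 0 536870912 0 536870912 2) ndN0q0 ndN1q2a pcN2 Cut.none Ext.none)

def k0_mm_022_a : ∃ t, chk3 f_mm_022_a t 1 1 1 = true :=
  ⟨(l 5), by decide +kernel⟩

theorem c_mm_022_a : CertN 0 536870912 0 536870912 67108864 67108864 3 true false false .pp 0 2 2
    ndN0q0 ndN1q2a pcN2 Cut.none Ext.none :=
  certNK0 (fam := true) (s1 := false) (s2 := false) (a := 0) (b := 2) (c := 2) (cn := .pp) (n1 := ndN0q0) (n2 := ndN1q2a) (pc := pcN2) (cut := Cut.none) (xt := Ext.none) (P1 := 0) (W1 := 536870912) (P2 := 0) (W2 := 536870912) (P3 := 67108864) (W3 := 67108864) (N0 := 3)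
    rfl rfl rfl k0_mm_022_a

noncomputable def f_mm_022_b : ℕ → ℕ → ℕ → ℕ → Bool := onCell 0 536870912 1239849684 370763052 67108864 67108864
    (rowNK 3 0 true false false .pp 0 2 2 (qsf 0 536870912 1239849684 370763052 2) ndN0q0 ndN1q2b pcN2 Cut.none Ext.none)

def k0_mm_022_b : ∃ t, chk3 f_mm_022_b t 1 1 1 = true :=
  ⟨(l 5), by decide +kernel⟩

theorem c_mm_022_b : CertN 0 536870912 1239849684 370763052 67108864 67108864 3 true false false .pp 0 2 2
    ndN0q0 ndN1q2b pcN2 Cut.none Ext.none :=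
  certNK0 (fam := true) (s1 := false) (s2 := false) (a := 0) (b := 2) (c := 2) (cn := .pp) (n1 := ndN0q0) (n2 := ndN1q2b) (pc := pcN2) (cut := Cut.none) (xt := Ext.none) (P1 := 0) (W1 := 536870912) (P2 := 1239849684) (W2 := 370763052) (P3 := 67108864) (W3 := 67108864) (N0 := 3)
    rfl rfl rfl k0_mm_022_b

noncomputable def f_mm_023_a : ℕ → ℕ → ℕ → ℕ → Bool := onCell 0 536870912 0 536870912 67108864 67108864
    (rowNK 3 0 true false false .up 0 2 3 (qsf 0 536870912 0 536870912 3) ndN0q0 ndN1q2a pcN3 Cut.none Ext.none)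

def k0_mm_023_a : ∃ t, chk3 f_mm_023_a t 1 1 1 = true :=
  ⟨(l 5), by decide +kernel⟩

theorem c_mm_023_a : CertN 0 536870912 0 536870912 67108864 67108864 3 true false false .up 0 2 3
    ndN0q0 ndN1q2a pcN3 Cut.none Ext.none :=
  certNK0 (fam := true) (s1 := false) (s2 := false) (a := 0) (b := 2) (c := 3) (cn := .up) (n1 := ndN0q0) (n2 := ndN1q2a) (pc := pcN3) (cut := Cut.none) (xt := Ext.none) (P1 := 0) (W1 := 536870912) (P2 := 0) (W2 := 536870912) (P3 := 67108864) (W3 := 67108864) (N0 := 3)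
    rfl rfl rfl k0_mm_023_a

noncomputable def f_mm_023_b : ℕ → ℕ → ℕ → ℕ → Bool := onCell 0 536870912 1239849684 370763052 67108864 67108864
    (rowNK 3 0 true false false .up 0 2 3 (qsf 0 536870912 1239849684 370763052 3) ndN0q0 ndN1q2b pcN3 Cut.none Ext.none)

def k0_mm_023_b : ∃ t, chk3 f_mm_023_b t 1 1 1 = true :=
  ⟨(l 5), by decide +kernel⟩

theorem c_mm_023_b : CertN 0 536870912 1239849684 370763052 67108864 67108864 3 true false false .up 0 2 3
    ndN0q0 ndN1q2b pcN3 Cut.none Ext.none :=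
  certNK0 (fam := true) (s1 := false) (s2 := false) (a := 0) (b := 2) (c := 3) (cn := .up) (n1 := ndN0q0) (n2 := ndN1q2b) (pc := pcN3) (cut := Cut.none) (xt := Ext.none) (P1 := 0) (W1 := 536870912) (P2 := 1239849684) (W2 := 370763052) (P3 := 67108864) (W3 := 67108864) (N0 := 3)
    rfl rfl rfl k0_mm_023_b

noncomputable def f_mm_033 : ℕ → ℕ → ℕ → ℕ → Bool := onCell 0 536870912 1610612736 536870912 67108864 67108864
    (rowNK 3 0 true false false .pnn 0 3 3 (qsf 0 536870912 1610612736 536870912 3) ndN0q0 ndN1q3 pcN3 Cut.none Ext.none)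

def k0_mm_033 : ∃ t, chk3 f_mm_033 t 1 1 1 = true :=
  ⟨(l 5), by decide +kernel⟩

theorem c_mm_033 : CertN 0 536870912 1610612736 536870912 67108864 67108864 3 true false false .pnn 0 3 3
    ndN0q0 ndN1q3 pcN3 Cut.none Ext.none :=
  certNK0 (fam := true) (s1 := false) (s2 := false) (a := 0) (b := 3) (c := 3) (cn := .pnn) (n1 := ndN0q0) (n2 := ndN1q3) (pc := pcN3) (cut := Cut.none) (xt := Ext.none) (P1 := 0) (W1 := 536870912) (P2 := 1610612736) (W2 := 536870912) (P3 := 67108864) (W3 := 67108864) (N0 := 3)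
    rfl rfl rfl k0_mm_033

noncomputable def cut_mm_101 : Cut := Cut.of [[⟨0, 1, 0, 67108864⟩, ⟨1, 0, 0, 67108864⟩, ⟨2, 1, 0, 67108864⟩]]

noncomputable def f_mm_101 : ℕ → ℕ → ℕ → ℕ → Bool := onCell 536870912 536870912 0 536870912 67108864 67108864
    (rowNK 3 0 true false false .npn 1 0 1 (qsf 536870912 536870912 0 536870912 1) ndN0q1 ndN1q0 pcN1 cut_mm_101 Ext.none)

def k0_mm_101 : ∃ t, chk3 f_mm_101 t 1 1 1 = true :=
  ⟨(a (l 4) (b (a (l 4) (b (a (l 4) (a (l 4) (b (b (l 6) (l 4)) (l 2)))) (l 4))) (l 4))), by decide +kernel⟩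

theorem c_mm_101 : CertN 536870912 536870912 0 536870912 67108864 67108864 3 true false false .npn 1 0 1
    ndN0q1 ndN1q0 pcN1 cut_mm_101 Ext.none :=
  certNK0 (fam := true) (s1 := false) (s2 := false) (a := 1) (b := 0) (c := 1) (cn := .npn) (n1 := ndN0q1) (n2 := ndN1q0) (pc := pcN1) (cut := cut_mm_101) (xt := Ext.none) (P1 := 536870912) (W1 := 536870912) (P2 := 0) (W2 := 536870912) (P3 := 67108864) (W3 := 67108864) (N0 := 3)
    rfl rfl rfl k0_mm_101

noncomputable def cut_mm_102 : Cut := Cut.of [[⟨0, 1, 0, 67108864⟩, ⟨1, 0, 0, 67108864⟩, ⟨2, 1, 0, 67108864⟩]]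

noncomputable def f_mm_102 : ℕ → ℕ → ℕ → ℕ → Bool := onCell 536870912 536870912 0 536870912 67108864 67108864
    (rowNK 3 0 true false false .npp 1 0 2 (qsf 536870912 536870912 0 536870912 2) ndN0q1 ndN1q0 pcN2 cut_mm_102 Ext.none)

def k0_mm_102 : ∃ t, chk3 f_mm_102 t 1 1 1 = true :=
  ⟨(a (l 4) (b (a (l 4) (b (a (l 4) (a (l 4) (b (b (l 6) (l 4)) (l 4)))) (l 4))) (l 4))), by decide +kernel⟩

theorem c_mm_102 : CertN 536870912 536870912 0 536870912 67108864 67108864 3 true false false .npp 1 0 2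
    ndN0q1 ndN1q0 pcN2 cut_mm_102 Ext.none :=
  certNK0 (fam := true) (s1 := false) (s2 := false) (a := 1) (b := 0) (c := 2) (cn := .npp) (n1 := ndN0q1) (n2 := ndN1q0) (pc := pcN2) (cut := cut_mm_102) (xt := Ext.none) (P1 := 536870912) (W1 := 536870912) (P2 := 0) (W2 := 536870912) (P3 := 67108864) (W3 := 67108864) (N0 := 3)
    rfl rfl rfl k0_mm_102

noncomputable def f_mm_112 : ℕ → ℕ → ℕ → ℕ → Bool := onCell 536870912 536870912 536870912 536870912 67108864 67108864
    (rowNK 3 0 true false false .dn 1 1 2 (qsf 536870912 536870912 536870912 536870912 2) ndN0q1 ndN1q1 pcN2 Cut.none Ext.none)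

def k0_mm_112 : ∃ t, chk3 f_mm_112 t 1 1 1 = true :=
  ⟨(l 4), by decide +kernel⟩

theorem c_mm_112 : CertN 536870912 536870912 536870912 536870912 67108864 67108864 3 true false false .dn 1 1 2
    ndN0q1 ndN1q1 pcN2 Cut.none Ext.none :=
  certNK0 (fam := true) (s1 := false) (s2 := false) (a := 1) (b := 1) (c := 2) (cn := .dn) (n1 := ndN0q1) (n2 := ndN1q1) (pc := pcN2) (cut := Cut.none) (xt := Ext.none) (P1 := 536870912) (W1 := 536870912) (P2 := 536870912) (W2 := 536870912) (P3 := 67108864) (W3 := 67108864) (N0 := 3)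
    rfl rfl rfl k0_mm_112

noncomputable def f_mm_113 : ℕ → ℕ → ℕ → ℕ → Bool := onCell 536870912 536870912 536870912 536870912 67108864 67108864
    (rowNK 3 0 true false false .nn 1 1 3 (qsf 536870912 536870912 536870912 536870912 3) ndN0q1 ndN1q1 pcN3 Cut.none Ext.none)

def k0_mm_113 : ∃ t, chk3 f_mm_113 t 1 1 1 = true :=
  ⟨(l 4), by decide +kernel⟩

theorem c_mm_113 : CertN 536870912 536870912 536870912 536870912 67108864 67108864 3 true false false .nn 1 1 3
    ndN0q1 ndN1q1 pcN3 Cut.none Ext.none :=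
  certNK0 (fam := true) (s1 := false) (s2 := false) (a := 1) (b := 1) (c := 3) (cn := .nn) (n1 := ndN0q1) (n2 := ndN1q1) (pc := pcN3) (cut := Cut.none) (xt := Ext.none) (P1 := 536870912) (W1 := 536870912) (P2 := 536870912) (W2 := 536870912) (P3 := 67108864) (W3 := 67108864) (N0 := 3)
    rfl rfl rfl k0_mm_113

noncomputable def f_mm_123_a : ℕ → ℕ → ℕ → ℕ → Bool := onCell 536870912 536870912 0 536870912 67108864 67108864
    (rowNK 3 0 true false false .npn 1 2 3 (qsf 536870912 536870912 0 536870912 3) ndN0q1 ndN1q2a pcN3 Cut.none Ext.none)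

def k0_mm_123_a : ∃ t, chk3 f_mm_123_a t 1 1 1 = true :=
  ⟨(l 4), by decide +kernel⟩

theorem c_mm_123_a : CertN 536870912 536870912 0 536870912 67108864 67108864 3 true false false .npn 1 2 3
    ndN0q1 ndN1q2a pcN3 Cut.none Ext.none :=
  certNK0 (fam := true) (s1 := false) (s2 := false) (a := 1) (b := 2) (c := 3) (cn := .npn) (n1 := ndN0q1) (n2 := ndN1q2a) (pc := pcN3) (cut := Cut.none) (xt := Ext.none) (P1 := 536870912) (W1 := 536870912) (P2 := 0) (W2 := 536870912) (P3 := 67108864) (W3 := 67108864) (N0 := 3)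
    rfl rfl rfl k0_mm_123_a

noncomputable def f_mm_123_b : ℕ → ℕ → ℕ → ℕ → Bool := onCell 536870912 536870912 1239849684 370763052 67108864 67108864
    (rowNK 3 0 true false false .npn 1 2 3 (qsf 536870912 536870912 1239849684 370763052 3) ndN0q1 ndN1q2b pcN3 Cut.none Ext.none)

def k0_mm_123_b : ∃ t, chk3 f_mm_123_b t 1 1 1 = true :=
  ⟨(l 4), by decide +kernel⟩

theorem c_mm_123_b : CertN 536870912 536870912 1239849684 370763052 67108864 67108864 3 true false false .npn 1 2 3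
    ndN0q1 ndN1q2b pcN3 Cut.none Ext.none :=
  certNK0 (fam := true) (s1 := false) (s2 := false) (a := 1) (b := 2) (c := 3) (cn := .npn) (n1 := ndN0q1) (n2 := ndN1q2b) (pc := pcN3) (cut := Cut.none) (xt := Ext.none) (P1 := 536870912) (W1 := 536870912) (P2 := 1239849684) (W2 := 370763052) (P3 := 67108864) (W3 := 67108864) (N0 := 3)
    rfl rfl rfl k0_mm_123_b

noncomputable def f_mm_133 : ℕ → ℕ → ℕ → ℕ → Bool := onCell 536870912 536870912 1610612736 536870912 67108864 67108864
    (rowNK 3 0 true false false .dn 1 3 3 (qsf 536870912 536870912 1610612736 536870912 3) ndN0q1 ndN1q3 pcN3 Cut.none Ext.none)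

def k0_mm_133 : ∃ t, chk3 f_mm_133 t 1 1 1 = true :=
  ⟨(l 4), by decide +kernel⟩

theorem c_mm_133 : CertN 536870912 536870912 1610612736 536870912 67108864 67108864 3 true false false .dn 1 3 3
    ndN0q1 ndN1q3 pcN3 Cut.none Ext.none :=
  certNK0 (fam := true) (s1 := false) (s2 := false) (a := 1) (b := 3) (c := 3) (cn := .dn) (n1 := ndN0q1) (n2 := ndN1q3) (pc := pcN3) (cut := Cut.none) (xt := Ext.none) (P1 := 536870912) (W1 := 536870912) (P2 := 1610612736) (W2 := 536870912) (P3 := 67108864) (W3 := 67108864) (N0 := 3)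
    rfl rfl rfl k0_mm_133

noncomputable def cut_mm_202 : Cut := Cut.of [[⟨0, 1, 0, 67108864⟩, ⟨1, 0, 0, 67108864⟩, ⟨2, 1, 0, 67108864⟩]]

noncomputable def f_mm_202 : ℕ → ℕ → ℕ → ℕ → Bool := onCell 0 536870912 0 536870912 67108864 67108864
    (rowNK 3 0 true false false .pp 2 0 2 (qsf 0 536870912 0 536870912 2) ndN0q2 ndN1q0 pcN2 cut_mm_202 Ext.none)

def k0_mm_202 : ∃ t, chk3 f_mm_202 t 1 1 1 = true :=
  ⟨(b (a (b (b (a (b (b (a (l 18165328) (l 17955400)) (l 18100632)) (l 18017448)) (b (b (b (a (c (l 18368360) (l 17397528)) (c (l 18169416) (a (l 17367024) (l 17071040)))) (a (l 17973312) (l 17714608))) (a (l 17959944) (l 17773024))) (a (l 17885680) (l 17730520)))) (a (l 17795384) (b (l 17669528) (l 17512072)))) (b (a (l 17490112) (l 17291520)) (a (l 17247736) (l 17230504)))) (b (a (b (a (b (b (b (a (c (l 17927144) (l 16752968)) (c (a (l 17755040) (l 17382320)) (l 16685760))) (a (l 17503336) (l 17261648))) (a (l 17565464) (l 17376552))) (l 17505512)) (b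 (b (a (b (b (l 16711904) (l 16781488)) (l 16936032)) (b (b (a (l 16705608) (l 16709152)) (l 16691856)) (l 16689080))) (a (l 17134984) (l 16825072))) (b (l 17152032) (l 17208712)))) (b (a (l 17418952) (l 17193808)) (l 17192016))) (b (a (b (a (b (b (b (a (l 16713328) (b (l 16721976) (l 16714384))) (l 16700328)) (l 16697704)) (b (l 16685552) (l 16736152))) (b (b (b (l 6) (l 16732568)) (a (l 16705976) (l 16728152))) (a (l 16736888) (l 16823464)))) (b (a (l 16813208) (l 16856176)) (l 16911808))) (b (a (b (l 6) (b (l 6) (l 16834488))) (l 6)) (a (b (l 4) (l 4)) (l 4)))) (a (b (l 17082056) (l 4)) (l 4)))) (a (b (l 63586860711) (l 4)) (l 4)))) (a (b (a (l 17402328) (l 4)) (l 4)) (l 4))), by decide +kernel⟩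

theorem c_mm_202 : CertN 0 536870912 0 536870912 67108864 67108864 3 true false false .pp 2 0 2
    ndN0q2 ndN1q0 pcN2 cut_mm_202 Ext.none :=
  certNK0 (fam := true) (s1 := false) (s2 := false) (a := 2) (b := 0) (c := 2) (cn := .pp) (n1 := ndN0q2) (n2 := ndN1q0) (pc := pcN2) (cut := cut_mm_202) (xt := Ext.none) (P1 := 0) (W1 := 536870912) (P2 := 0) (W2 := 536870912) (P3 := 67108864) (W3 := 67108864) (N0 := 3)
    rfl rfl rfl k0_mm_202

noncomputable def f_mm_203 : ℕ → ℕ → ℕ → ℕ → Bool := onCell 0 536870912 1610612736 536870912 67108864 67108864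
    (rowNK 3 1 true false false .up 2 0 3 (qsf 0 536870912 0 536870912 3) ndN0q2 ndN1q0 pcN3 Cut.none Ext.none)

def k0_mm_203 : ∃ t, chk3 f_mm_203 t 1 1 1 = true :=
  ⟨(a (b (l 4) (l 2)) (l 4)), by decide +kernel⟩

theorem c_mm_203 : CertN 0 536870912 0 536870912 67108864 67108864 3 true false false .up 2 0 3
    ndN0q2 ndN1q0 pcN3 Cut.none Ext.none :=
  certNK1 (fam := true) (s1 := false) (s2 := false) (a := 2) (b := 0) (c := 3) (cn := .up) (n1 := ndN0q2) (n2 := ndN1q0) (pc := pcN3) (cut := Cut.none) (xt := Ext.none) (P1 := 0) (W1 := 536870912) (P2 := 0) (W2 := 536870912) (P3 := 67108864) (W3 := 67108864) (N0 := 3)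
    rfl rfl rfl (fun _ => rfl) k0_mm_203

noncomputable def f_mm_213 : ℕ → ℕ → ℕ → ℕ → Bool := onCell 0 536870912 536870912 536870912 67108864 67108864
    (rowNK 3 0 true false false .pnn 2 1 3 (qsf 0 536870912 536870912 536870912 3) ndN0q2 ndN1q1 pcN3 Cut.none Ext.none)

def k0_mm_213 : ∃ t, chk3 f_mm_213 t 1 1 1 = true :=
  ⟨(l 4), by decide +kernel⟩

theorem c_mm_213 : CertN 0 536870912 536870912 536870912 67108864 67108864 3 true false false .pnn 2 1 3
    ndN0q2 ndN1q1 pcN3 Cut.none Ext.none :=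
  certNK0 (fam := true) (s1 := false) (s2 := false) (a := 2) (b := 1) (c := 3) (cn := .pnn) (n1 := ndN0q2) (n2 := ndN1q1) (pc := pcN3) (cut := Cut.none) (xt := Ext.none) (P1 := 0) (W1 := 536870912) (P2 := 536870912) (W2 := 536870912) (P3 := 67108864) (W3 := 67108864) (N0 := 3)
    rfl rfl rfl k0_mm_213

end Pool.Agent.Strip051.G.I1_16_1_8.Tab.C.NA01

namespace Pool.Agent.Strip051.G.I1_16_1_8.Tab.C.NA02

open Pool.Agent.Strip051.PB Pool.Agent.Strip051.PB.T
open Pool.Agent.Strip051.G.I1_16_1_8.Tab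

noncomputable def f_pp_001 : ℕ → ℕ → ℕ → ℕ → Bool := onCell 0 536870912 0 536870912 67108864 67108864
    (rowNK 3 0 true true true .up 0 0 1 (qsf 0 536870912 0 536870912 1) ndN0q0 ndN2q0 pcN1 Cut.none Ext.none)

def k0_pp_001 : ∃ t, chk3 f_pp_001 t 1 1 1 = true :=
  ⟨(l 4), by decide +kernel⟩

theorem c_pp_001 : CertN 0 536870912 0 536870912 67108864 67108864 3 true true true .up 0 0 1
    ndN0q0 ndN2q0 pcN1 Cut.none Ext.none :=
  certNK0 (fam := true) (s1 := true) (s2 := true) (a := 0) (b := 0) (c := 1) (cn := .up) (n1 := ndN0q0) (n2 := ndN2q0) (pc := pcN1) (cut := Cut.none) (xt := Ext.none) (P1 := 0) (W1 := 536870912) (P2 := 0) (W2 := 536870912) (P3 := 67108864) (W3 := 67108864) (N0 := 3)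
    rfl rfl rfl k0_pp_001

noncomputable def f_pp_011 : ℕ → ℕ → ℕ → ℕ → Bool := onCell 0 536870912 536870912 536870912 67108864 67108864
    (rowNK 3 0 true true true .pnn 0 1 1 (qsf 0 536870912 536870912 536870912 1) ndN0q0 ndN2q1 pcN1 Cut.none Ext.none)

def k0_pp_011 : ∃ t, chk3 f_pp_011 t 1 1 1 = true :=
  ⟨(l 4), by decide +kernel⟩

theorem c_pp_011 : CertN 0 536870912 536870912 536870912 67108864 67108864 3 true true true .pnn 0 1 1
    ndN0q0 ndN2q1 pcN1 Cut.none Ext.none :=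
  certNK0 (fam := true) (s1 := true) (s2 := true) (a := 0) (b := 1) (c := 1) (cn := .pnn) (n1 := ndN0q0) (n2 := ndN2q1) (pc := pcN1) (cut := Cut.none) (xt := Ext.none) (P1 := 0) (W1 := 536870912) (P2 := 536870912) (W2 := 536870912) (P3 := 67108864) (W3 := 67108864) (N0 := 3)
    rfl rfl rfl k0_pp_011

noncomputable def f_pp_012 : ℕ → ℕ → ℕ → ℕ → Bool := onCell 0 536870912 536870912 536870912 67108864 67108864
    (rowNK 3 0 true true true .pnp 0 1 2 (qsf 0 536870912 536870912 536870912 2) ndN0q0 ndN2q1 pcN2 Cut.none Ext.none)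

def k0_pp_012 : ∃ t, chk3 f_pp_012 t 1 1 1 = true :=
  ⟨(l 4), by decide +kernel⟩

theorem c_pp_012 : CertN 0 536870912 536870912 536870912 67108864 67108864 3 true true true .pnp 0 1 2
    ndN0q0 ndN2q1 pcN2 Cut.none Ext.none :=
  certNK0 (fam := true) (s1 := true) (s2 := true) (a := 0) (b := 1) (c := 2) (cn := .pnp) (n1 := ndN0q0) (n2 := ndN2q1) (pc := pcN2) (cut := Cut.none) (xt := Ext.none) (P1 := 0) (W1 := 536870912) (P2 := 536870912) (W2 := 536870912) (P3 := 67108864) (W3 := 67108864) (N0 := 3)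
    rfl rfl rfl k0_pp_012

noncomputable def cut_pp_022_a : Cut := Cut.of [[⟨0, 0, 0, 67108864⟩, ⟨1, 1, 0, 67108864⟩, ⟨2, 1, 0, 67108864⟩]]

noncomputable def f_pp_022_a : ℕ → ℕ → ℕ → ℕ → Bool := onCell 0 536870912 0 536870912 67108864 67108864
    (rowNK 3 0 true true true .pp 0 2 2 (qsf 0 536870912 0 536870912 2) ndN0q0 ndN2q2a pcN2 cut_pp_022_a Ext.none)

def k0_pp_022_a : ∃ t, chk3 f_pp_022_a t 1 1 1 = true :=
  ⟨(a (b (l 4) (a (b (l 4) (b (l 4) (a (a (b (l 4) (l 6)) (l 4)) (l 4)))) (l 4))) (l 4)), by decide +kernel⟩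

theorem c_pp_022_a : CertN 0 536870912 0 536870912 67108864 67108864 3 true true true .pp 0 2 2
    ndN0q0 ndN2q2a pcN2 cut_pp_022_a Ext.none :=
  certNK0 (fam := true) (s1 := true) (s2 := true) (a := 0) (b := 2) (c := 2) (cn := .pp) (n1 := ndN0q0) (n2 := ndN2q2a) (pc := pcN2) (cut := cut_pp_022_a) (xt := Ext.none) (P1 := 0) (W1 := 536870912) (P2 := 0) (W2 := 536870912) (P3 := 67108864) (W3 := 67108864) (N0 := 3)
    rfl rfl rfl k0_pp_022_a

noncomputable def cut_pp_022_b : Cut := Cut.of [[⟨0, 0, 0, 67108864⟩, ⟨1, 1, 0, 67108864⟩, ⟨2, 1, 0, 67108864⟩]]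

noncomputable def f_pp_022_b : ℕ → ℕ → ℕ → ℕ → Bool := onCell 0 536870912 1239849684 370763052 67108864 67108864
    (rowNK 3 0 true true true .pp 0 2 2 (qsf 0 536870912 1239849684 370763052 2) ndN0q0 ndN2q2b pcN2 cut_pp_022_b Ext.none)

def k0_pp_022_b : ∃ t, chk3 f_pp_022_b t 1 1 1 = true :=
  ⟨(l 4), by decide +kernel⟩

theorem c_pp_022_b : CertN 0 536870912 1239849684 370763052 67108864 67108864 3 true true true .pp 0 2 2
    ndN0q0 ndN2q2b pcN2 cut_pp_022_b Ext.none :=
  certNK0 (fam := true) (s1 := true) (s2 := true) (a := 0) (b := 2) (c := 2) (cn := .pp) (n1 := ndN0q0) (n2 := ndN2q2b) (pc := pcN2) (cut := cut_pp_022_b) (xt := Ext.none) (P1 := 0) (W1 := 536870912) (P2 := 1239849684) (W2 := 370763052) (P3 := 67108864) (W3 := 67108864) (N0 := 3)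
    rfl rfl rfl k0_pp_022_b

noncomputable def f_pp_023_a : ℕ → ℕ → ℕ → ℕ → Bool := onCell 1610612736 536870912 0 536870912 67108864 67108864
    (rowNK 3 2 true true true .up 0 2 3 (qsf 0 536870912 0 536870912 3) ndN0q0 ndN2q2a pcN3 Cut.none Ext.none)

def k0_pp_023_a : ∃ t, chk3 f_pp_023_a t 1 1 1 = true :=
  ⟨(l 4), by decide +kernel⟩

theorem c_pp_023_a : CertN 0 536870912 0 536870912 67108864 67108864 3 true true true .up 0 2 3
    ndN0q0 ndN2q2a pcN3 Cut.none Ext.none :=
  certNK2 (fam := true) (s1 := true) (s2 := true) (a := 0) (b := 2) (c := 3) (cn := .up) (n1 := ndN0q0) (n2 := ndN2q2a) (pc := pcN3) (cut := Cut.none) (xt := Ext.none) (P1 := 0) (W1 := 536870912) (P2 := 0) (W2 := 536870912) (P3 := 67108864) (W3 := 67108864) (N0 := 3)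
    rfl rfl rfl (fun _ => rfl) k0_pp_023_a

noncomputable def f_pp_023_b : ℕ → ℕ → ℕ → ℕ → Bool := onCell 0 536870912 1239849684 370763052 67108864 67108864
    (rowNK 3 0 true true true .up 0 2 3 (qsf 0 536870912 1239849684 370763052 3) ndN0q0 ndN2q2b pcN3 Cut.none Ext.none)

def k0_pp_023_b : ∃ t, chk3 f_pp_023_b t 1 1 1 = true :=
  ⟨(l 4), by decide +kernel⟩

theorem c_pp_023_b : CertN 0 536870912 1239849684 370763052 67108864 67108864 3 true true true .up 0 2 3
    ndN0q0 ndN2q2b pcN3 Cut.none Ext.none :=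
  certNK0 (fam := true) (s1 := true) (s2 := true) (a := 0) (b := 2) (c := 3) (cn := .up) (n1 := ndN0q0) (n2 := ndN2q2b) (pc := pcN3) (cut := Cut.none) (xt := Ext.none) (P1 := 0) (W1 := 536870912) (P2 := 1239849684) (W2 := 370763052) (P3 := 67108864) (W3 := 67108864) (N0 := 3)
    rfl rfl rfl k0_pp_023_b

noncomputable def f_pp_033 : ℕ → ℕ → ℕ → ℕ → Bool := onCell 0 536870912 1610612736 536870912 67108864 67108864
    (rowNK 3 0 true true true .pnn 0 3 3 (qsf 0 536870912 1610612736 536870912 3) ndN0q0 ndN2q3 pcN3 Cut.none Ext.none)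

def k0_pp_033 : ∃ t, chk3 f_pp_033 t 1 1 1 = true :=
  ⟨(l 4), by decide +kernel⟩

theorem c_pp_033 : CertN 0 536870912 1610612736 536870912 67108864 67108864 3 true true true .pnn 0 3 3
    ndN0q0 ndN2q3 pcN3 Cut.none Ext.none :=
  certNK0 (fam := true) (s1 := true) (s2 := true) (a := 0) (b := 3) (c := 3) (cn := .pnn) (n1 := ndN0q0) (n2 := ndN2q3) (pc := pcN3) (cut := Cut.none) (xt := Ext.none) (P1 := 0) (W1 := 536870912) (P2 := 1610612736) (W2 := 536870912) (P3 := 67108864) (W3 := 67108864) (N0 := 3)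
    rfl rfl rfl k0_pp_033

noncomputable def f_pp_101 : ℕ → ℕ → ℕ → ℕ → Bool := onCell 536870912 536870912 0 536870912 67108864 67108864
    (rowNK 3 0 true true true .npn 1 0 1 (qsf 536870912 536870912 0 536870912 1) ndN0q1 ndN2q0 pcN1 Cut.none Ext.none)

def k0_pp_101 : ∃ t, chk3 f_pp_101 t 1 1 1 = true :=
  ⟨(l 5), by decide +kernel⟩

theorem c_pp_101 : CertN 536870912 536870912 0 536870912 67108864 67108864 3 true true true .npn 1 0 1
    ndN0q1 ndN2q0 pcN1 Cut.none Ext.none :=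
  certNK0 (fam := true) (s1 := true) (s2 := true) (a := 1) (b := 0) (c := 1) (cn := .npn) (n1 := ndN0q1) (n2 := ndN2q0) (pc := pcN1) (cut := Cut.none) (xt := Ext.none) (P1 := 536870912) (W1 := 536870912) (P2 := 0) (W2 := 536870912) (P3 := 67108864) (W3 := 67108864) (N0 := 3)
    rfl rfl rfl k0_pp_101

noncomputable def f_pp_102 : ℕ → ℕ → ℕ → ℕ → Bool := onCell 536870912 536870912 0 536870912 67108864 67108864
    (rowNK 3 0 true true true .npp 1 0 2 (qsf 536870912 536870912 0 536870912 2) ndN0q1 ndN2q0 pcN2 Cut.none Ext.none)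

def k0_pp_102 : ∃ t, chk3 f_pp_102 t 1 1 1 = true :=
  ⟨(l 5), by decide +kernel⟩

theorem c_pp_102 : CertN 536870912 536870912 0 536870912 67108864 67108864 3 true true true .npp 1 0 2
    ndN0q1 ndN2q0 pcN2 Cut.none Ext.none :=
  certNK0 (fam := true) (s1 := true) (s2 := true) (a := 1) (b := 0) (c := 2) (cn := .npp) (n1 := ndN0q1) (n2 := ndN2q0) (pc := pcN2) (cut := Cut.none) (xt := Ext.none) (P1 := 536870912) (W1 := 536870912) (P2 := 0) (W2 := 536870912) (P3 := 67108864) (W3 := 67108864) (N0 := 3)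
    rfl rfl rfl k0_pp_102

noncomputable def f_pp_112 : ℕ → ℕ → ℕ → ℕ → Bool := onCell 536870912 536870912 536870912 536870912 67108864 67108864
    (rowNK 3 0 true true true .dn 1 1 2 (qsf 536870912 536870912 536870912 536870912 2) ndN0q1 ndN2q1 pcN2 Cut.none Ext.none)

def k0_pp_112 : ∃ t, chk3 f_pp_112 t 1 1 1 = true :=
  ⟨(l 4), by decide +kernel⟩

theorem c_pp_112 : CertN 536870912 536870912 536870912 536870912 67108864 67108864 3 true true true .dn 1 1 2
    ndN0q1 ndN2q1 pcN2 Cut.none Ext.none :=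
  certNK0 (fam := true) (s1 := true) (s2 := true) (a := 1) (b := 1) (c := 2) (cn := .dn) (n1 := ndN0q1) (n2 := ndN2q1) (pc := pcN2) (cut := Cut.none) (xt := Ext.none) (P1 := 536870912) (W1 := 536870912) (P2 := 536870912) (W2 := 536870912) (P3 := 67108864) (W3 := 67108864) (N0 := 3)
    rfl rfl rfl k0_pp_112

noncomputable def f_pp_113 : ℕ → ℕ → ℕ → ℕ → Bool := onCell 536870912 536870912 536870912 536870912 67108864 67108864
    (rowNK 3 0 true true true .nn 1 1 3 (qsf 536870912 536870912 536870912 536870912 3) ndN0q1 ndN2q1 pcN3 Cut.none Ext.none)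

def k0_pp_113 : ∃ t, chk3 f_pp_113 t 1 1 1 = true :=
  ⟨(l 4), by decide +kernel⟩

theorem c_pp_113 : CertN 536870912 536870912 536870912 536870912 67108864 67108864 3 true true true .nn 1 1 3
    ndN0q1 ndN2q1 pcN3 Cut.none Ext.none :=
  certNK0 (fam := true) (s1 := true) (s2 := true) (a := 1) (b := 1) (c := 3) (cn := .nn) (n1 := ndN0q1) (n2 := ndN2q1) (pc := pcN3) (cut := Cut.none) (xt := Ext.none) (P1 := 536870912) (W1 := 536870912) (P2 := 536870912) (W2 := 536870912) (P3 := 67108864) (W3 := 67108864) (N0 := 3)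
    rfl rfl rfl k0_pp_113

noncomputable def f_pp_123_a : ℕ → ℕ → ℕ → ℕ → Bool := onCell 536870912 536870912 0 536870912 67108864 67108864
    (rowNK 3 0 true true true .npn 1 2 3 (qsf 536870912 536870912 0 536870912 3) ndN0q1 ndN2q2a pcN3 Cut.none Ext.none)

def k0_pp_123_a : ∃ t, chk3 f_pp_123_a t 1 1 1 = true :=
  ⟨(l 4), by decide +kernel⟩

theorem c_pp_123_a : CertN 536870912 536870912 0 536870912 67108864 67108864 3 true true true .npn 1 2 3
    ndN0q1 ndN2q2a pcN3 Cut.none Ext.none :=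
  certNK0 (fam := true) (s1 := true) (s2 := true) (a := 1) (b := 2) (c := 3) (cn := .npn) (n1 := ndN0q1) (n2 := ndN2q2a) (pc := pcN3) (cut := Cut.none) (xt := Ext.none) (P1 := 536870912) (W1 := 536870912) (P2 := 0) (W2 := 536870912) (P3 := 67108864) (W3 := 67108864) (N0 := 3)
    rfl rfl rfl k0_pp_123_a

noncomputable def f_pp_123_b : ℕ → ℕ → ℕ → ℕ → Bool := onCell 536870912 536870912 1239849684 370763052 67108864 67108864
    (rowNK 3 0 true true true .npn 1 2 3 (qsf 536870912 536870912 1239849684 370763052 3) ndN0q1 ndN2q2b pcN3 Cut.none Ext.none)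

def k0_pp_123_b : ∃ t, chk3 f_pp_123_b t 1 1 1 = true :=
  ⟨(l 4), by decide +kernel⟩

theorem c_pp_123_b : CertN 536870912 536870912 1239849684 370763052 67108864 67108864 3 true true true .npn 1 2 3
    ndN0q1 ndN2q2b pcN3 Cut.none Ext.none :=
  certNK0 (fam := true) (s1 := true) (s2 := true) (a := 1) (b := 2) (c := 3) (cn := .npn) (n1 := ndN0q1) (n2 := ndN2q2b) (pc := pcN3) (cut := Cut.none) (xt := Ext.none) (P1 := 536870912) (W1 := 536870912) (P2 := 1239849684) (W2 := 370763052) (P3 := 67108864) (W3 := 67108864) (N0 := 3)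
    rfl rfl rfl k0_pp_123_b

noncomputable def f_pp_133 : ℕ → ℕ → ℕ → ℕ → Bool := onCell 536870912 536870912 1610612736 536870912 67108864 67108864
    (rowNK 3 0 true true true .dn 1 3 3 (qsf 536870912 536870912 1610612736 536870912 3) ndN0q1 ndN2q3 pcN3 Cut.none Ext.none)

def k0_pp_133 : ∃ t, chk3 f_pp_133 t 1 1 1 = true :=
  ⟨(l 4), by decide +kernel⟩

theorem c_pp_133 : CertN 536870912 536870912 1610612736 536870912 67108864 67108864 3 true true true .dn 1 3 3
    ndN0q1 ndN2q3 pcN3 Cut.none Ext.none :=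
  certNK0 (fam := true) (s1 := true) (s2 := true) (a := 1) (b := 3) (c := 3) (cn := .dn) (n1 := ndN0q1) (n2 := ndN2q3) (pc := pcN3) (cut := Cut.none) (xt := Ext.none) (P1 := 536870912) (W1 := 536870912) (P2 := 1610612736) (W2 := 536870912) (P3 := 67108864) (W3 := 67108864) (N0 := 3)
    rfl rfl rfl k0_pp_133

noncomputable def f_pp_202 : ℕ → ℕ → ℕ → ℕ → Bool := onCell 0 536870912 0 536870912 67108864 67108864
    (rowNK 3 0 true true true .pp 2 0 2 (qsf 0 536870912 0 536870912 2) ndN0q2 ndN2q0 pcN2 Cut.none Ext.none)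

def k0_pp_202 : ∃ t, chk3 f_pp_202 t 1 1 1 = true :=
  ⟨(l 5), by decide +kernel⟩

theorem c_pp_202 : CertN 0 536870912 0 536870912 67108864 67108864 3 true true true .pp 2 0 2
    ndN0q2 ndN2q0 pcN2 Cut.none Ext.none :=
  certNK0 (fam := true) (s1 := true) (s2 := true) (a := 2) (b := 0) (c := 2) (cn := .pp) (n1 := ndN0q2) (n2 := ndN2q0) (pc := pcN2) (cut := Cut.none) (xt := Ext.none) (P1 := 0) (W1 := 536870912) (P2 := 0) (W2 := 536870912) (P3 := 67108864) (W3 := 67108864) (N0 := 3)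
    rfl rfl rfl k0_pp_202

noncomputable def f_pp_203 : ℕ → ℕ → ℕ → ℕ → Bool := onCell 0 536870912 0 536870912 67108864 67108864
    (rowNK 3 0 true true true .up 2 0 3 (qsf 0 536870912 0 536870912 3) ndN0q2 ndN2q0 pcN3 Cut.none Ext.none)

def k0_pp_203 : ∃ t, chk3 f_pp_203 t 1 1 1 = true :=
  ⟨(l 5), by decide +kernel⟩

theorem c_pp_203 : CertN 0 536870912 0 536870912 67108864 67108864 3 true true true .up 2 0 3
    ndN0q2 ndN2q0 pcN3 Cut.none Ext.none :=
  certNK0 (fam := true) (s1 := true) (s2 := true) (a := 2) (b := 0) (c := 3) (cn := .up) (n1 := ndN0q2) (n2 := ndN2q0) (pc := pcN3) (cut := Cut.none) (xt := Ext.none) (P1 := 0) (W1 := 536870912) (P2 := 0) (W2 := 536870912) (P3 := 67108864) (W3 := 67108864) (N0 := 3)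
    rfl rfl rfl k0_pp_203

noncomputable def f_pp_213 : ℕ → ℕ → ℕ → ℕ → Bool := onCell 0 536870912 536870912 536870912 67108864 67108864
    (rowNK 3 0 true true true .pnn 2 1 3 (qsf 0 536870912 536870912 536870912 3) ndN0q2 ndN2q1 pcN3 Cut.none Ext.none)

def k0_pp_213 : ∃ t, chk3 f_pp_213 t 1 1 1 = true :=
  ⟨(l 4), by decide +kernel⟩

theorem c_pp_213 : CertN 0 536870912 536870912 536870912 67108864 67108864 3 true true true .pnn 2 1 3
    ndN0q2 ndN2q1 pcN3 Cut.none Ext.none :=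
  certNK0 (fam := true) (s1 := true) (s2 := true) (a := 2) (b := 1) (c := 3) (cn := .pnn) (n1 := ndN0q2) (n2 := ndN2q1) (pc := pcN3) (cut := Cut.none) (xt := Ext.none) (P1 := 0) (W1 := 536870912) (P2 := 536870912) (W2 := 536870912) (P3 := 67108864) (W3 := 67108864) (N0 := 3)
    rfl rfl rfl k0_pp_213

noncomputable def f_pm_001 : ℕ → ℕ → ℕ → ℕ → Bool := onCell 536870912 536870912 0 536870912 67108864 67108864
    (rowNK 3 2 true true false .up 0 0 1 (qsf 0 536870912 0 536870912 1) ndN0q0 ndN2q0 pcN1 Cut.none Ext.none)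

def k0_pm_001 : ∃ t, chk3 f_pm_001 t 1 1 1 = true :=
  ⟨(a (l 3) (a (l 3) (b (l 2) (a (l 3) (a (l 3) (a (l 3) (b (l 2) (l 118282959255)))))))), by decide +kernel⟩

theorem c_pm_001 : CertN 0 536870912 0 536870912 67108864 67108864 3 true true false .up 0 0 1
    ndN0q0 ndN2q0 pcN1 Cut.none Ext.none :=
  certNK2 (fam := true) (s1 := true) (s2 := false) (a := 0) (b := 0) (c := 1) (cn := .up) (n1 := ndN0q0) (n2 := ndN2q0) (pc := pcN1) (cut := Cut.none) (xt := Ext.none) (P1 := 0) (W1 := 536870912) (P2 := 0) (W2 := 536870912) (P3 := 67108864) (W3 := 67108864) (N0 := 3)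
    rfl rfl rfl (fun _ => rfl) k0_pm_001

noncomputable def cut_pm_011 : Cut := Cut.of [[⟨0, 0, 0, 67108864⟩, ⟨1, 1, 0, 67108864⟩, ⟨2, 1, 0, 67108864⟩], [⟨0, 0, 1, 33554432⟩, ⟨1, 1, 2, 33554432⟩, ⟨2, 1, 0, 16777216⟩, ⟨0, 0, 0, 150994944⟩, ⟨0, 1, 0, 1023410176⟩, ⟨1, 0, 0, 1023410176⟩, ⟨1, 1, 0, 150994944⟩]]

noncomputable def f_pm_011 : ℕ → ℕ → ℕ → ℕ → Bool := onCell 536870912 536870912 536870912 536870912 67108864 67108864
    (rowNK 3 2 true true false .pnn 0 1 1 (qsf 0 536870912 536870912 536870912 1) ndN0q0 ndN2q1 pcN1 cut_pm_011 Ext.none)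

def k0_pm_011 : ∃ t, chk3 f_pm_011 t 2 1 1 = true :=
  ⟨(l 3), by decide +kernel⟩

def k1_pm_011 : ∃ t, chk3 f_pm_011 t 3 2 1 = true :=
  ⟨(a (l 3) (a (l 3) (a (l 3) (b (b (l 220288656215) (l 232099687767)) (b (l 242299844695) (l 247130976263)))))), by decide +kernel⟩

def k2_pm_011 : ∃ t, chk3 f_pm_011 t 6 3 1 = true :=
  ⟨(l 3), by decide +kernel⟩

def k3_pm_011 : ∃ t, chk3 f_pm_011 t 14 3 1 = true :=
  ⟨(l 3), by decide +kernel⟩

def k4_pm_011 : ∃ t, chk3 f_pm_011 t 30 3 1 = true :=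
  ⟨(l 3), by decide +kernel⟩

def k5_pm_011 : ∃ t, chk3 f_pm_011 t 62 3 1 = true :=
  ⟨(l 3), by decide +kernel⟩

def k6_pm_011 : ∃ t, chk3 f_pm_011 t 63 6 1 = true :=
  ⟨(a (l 3) (a (l 3) (b (l 236930155383) (b (b (l 17609160) (l 17489704)) (b (c (l 17602336) (c (l 29696493383) (b (l 17241952) (b (l 17148824) (l 16973016))))) (c (l 17451224) (b (c (l 17207904) (b (l 7147328151) (l 14))) (c (l 12516207399) (l 14))))))))), by decide +kernel⟩

def k7_pm_011 : ∃ t, chk3 f_pm_011 t 126 7 1 = true :=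
  ⟨(l 3), by decide +kernel⟩

def k8_pm_011 : ∃ t, chk3 f_pm_011 t 254 7 1 = true :=
  ⟨(l 3), by decide +kernel⟩

def k9_pm_011 : ∃ t, chk3 f_pm_011 t 510 7 1 = true :=
  ⟨(l 3), by decide +kernel⟩

def k10_pm_011 : ∃ t, chk3 f_pm_011 t 1022 7 1 = true :=
  ⟨(b (l 3) (l 3)), by decide +kernel⟩

def k11_pm_011 : ∃ t, chk3 f_pm_011 t 2046 7 1 = true :=
  ⟨(b (l 3) (l 3)), by decide +kernel⟩

def k12_pm_011 : ∃ t, chk3 f_pm_011 t 4094 14 1 = true :=
  ⟨(l 3), by decide +kernel⟩

def k13_pm_011 : ∃ t, chk3 f_pm_011 t 4095 28 1 = true :=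
  ⟨(c (b (c (l 17515456) (l 21643148935)) (c (l 17179888) (b (c (l 17178616) (l 14)) (l 14)))) (b (c (b (c (l 17113256) (l 14)) (l 14)) (l 14)) (b (l 14) (c (l 14) (b (l 14) (b (l 14) (b (l 14) (c (l 14) (l 2315188871))))))))), by decide +kernel⟩

def k14_pm_011 : ∃ t, chk3 f_pm_011 t 4095 29 1 = true :=
  ⟨(a (l 3) (a (l 3) (a (b (l 3) (l 3)) (a (b (l 3) (l 3)) (b (b (c (c (c (l 17266192) (l 14)) (l 14)) (c (l 14) (b (c (l 14) (c (b (l 14) (l 4999543927)) (b (l 16742592) (l 16743136)))) (c (b (l 14) (b (l 14) (l 16745864))) (b (c (l 16744280) (l 16743688)) (l 16745192)))))) (c (l 14) (c (b (l 14) (b (l 14) (b (l 14) (c (l 14) (l 16749120))))) (b (b (c (c (l 14) (l 16746280)) (l 16745096)) (b (l 2852066663) (l 16747712))) (b (b (l 16748000) (l 16746968)) (b (l 16747256) (l 16747552))))))) (b (c (l 14) (c (b (c (l 14) (b (b (l 16749392) (l 16749664)) (b (l 16749936) (l 16750216)))) (c (b (l 14) (b (l 14) (l 16752288))) (b (b (l 16750496) (l 16750784)) (b (l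 16751064) (l 16751352))))) (b (b (b (l 16747840) (l 16748136)) (b (l 16748432) (l 16748728))) (c (b (l 16750272) (l 16750208)) (b (l 16748640) (l 16749256)))))) (c (c (l 14) (b (l 14) (b (l 14) (b (l 14) (c (l 14) (l 2852083879)))))) (c (b (c (b (b (l 16752568) (l 16752840)) (b (l 16753120) (l 16753400))) (b (b (l 16751640) (l 16751928)) (b (l 16752224) (l 16752520)))) (b (b (c (l 16753688) (l 16752816)) (c (l 16753976) (l 16753112))) (b (l 3388952519) (l 16755440)))) (b (c (b (l 16750808) (l 16751416)) (b (l 16749888) (l 16750520))) (c (b (l 16752032) (l 16752656)) (b (l 16751160) (l 16751808)))))))))))), by decide +kernel⟩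

def k15_pm_011 : ∃ t, chk3 f_pm_011 t 2047 15 1 = true :=
  ⟨(b (a (l 3) (b (b (b (b (b (b (c (c (l 14) (c (l 14) (l 1241472823))) (c (l 1778342103) (l 16753016))) (l 6)) (l 6)) (l 6)) (l 6)) (l 6)) (l 6))) (l 6)), by decide +kernel⟩

theorem s16_pm_011 : ∃ t, chk3 f_pm_011 t 4095 14 1 = true := ex3_b k13_pm_011 k14_pm_011

theorem s17_pm_011 : ∃ t, chk3 f_pm_011 t 2047 14 1 = true := ex3_a k12_pm_011 s16_pm_011

theorem s18_pm_011 : ∃ t, chk3 f_pm_011 t 2047 7 1 = true := ex3_b s17_pm_011 k15_pm_011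

theorem s19_pm_011 : ∃ t, chk3 f_pm_011 t 1023 7 1 = true := ex3_a k11_pm_011 s18_pm_011

theorem s20_pm_011 : ∃ t, chk3 f_pm_011 t 511 7 1 = true := ex3_a k10_pm_011 s19_pm_011

theorem s21_pm_011 : ∃ t, chk3 f_pm_011 t 255 7 1 = true := ex3_a k9_pm_011 s20_pm_011

theorem s22_pm_011 : ∃ t, chk3 f_pm_011 t 127 7 1 = true := ex3_a k8_pm_011 s21_pm_011

theorem s23_pm_011 : ∃ t, chk3 f_pm_011 t 63 7 1 = true := ex3_a k7_pm_011 s22_pm_011

theorem s24_pm_011 : ∃ t, chk3 f_pm_011 t 63 3 1 = true := ex3_b k6_pm_011 s23_pm_011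

theorem s25_pm_011 : ∃ t, chk3 f_pm_011 t 31 3 1 = true := ex3_a k5_pm_011 s24_pm_011

theorem s26_pm_011 : ∃ t, chk3 f_pm_011 t 15 3 1 = true := ex3_a k4_pm_011 s25_pm_011

theorem s27_pm_011 : ∃ t, chk3 f_pm_011 t 7 3 1 = true := ex3_a k3_pm_011 s26_pm_011

theorem s28_pm_011 : ∃ t, chk3 f_pm_011 t 3 3 1 = true := ex3_a k2_pm_011 s27_pm_011

theorem s29_pm_011 : ∃ t, chk3 f_pm_011 t 3 1 1 = true := ex3_b k1_pm_011 s28_pm_011

theorem s30_pm_011 : ∃ t, chk3 f_pm_011 t 1 1 1 = true := ex3_a k0_pm_011 s29_pm_011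

theorem c_pm_011 : CertN 0 536870912 536870912 536870912 67108864 67108864 3 true true false .pnn 0 1 1
    ndN0q0 ndN2q1 pcN1 cut_pm_011 Ext.none :=
  certNK2 (fam := true) (s1 := true) (s2 := false) (a := 0) (b := 1) (c := 1) (cn := .pnn) (n1 := ndN0q0) (n2 := ndN2q1) (pc := pcN1) (cut := cut_pm_011) (xt := Ext.none) (P1 := 0) (W1 := 536870912) (P2 := 536870912) (W2 := 536870912) (P3 := 67108864) (W3 := 67108864) (N0 := 3)
    rfl rfl rfl (fun _ => rfl) s30_pm_011

noncomputable def cut_pm_012 : Cut := Cut.of [[⟨0, 0, 0, 67108864⟩, ⟨1, 1, 0, 67108864⟩, ⟨2, 1, 0, 67108864⟩], [⟨0, 0, 1, 33554432⟩, ⟨1, 1, 2, 33554432⟩, ⟨2, 1, 0, 16777216⟩, ⟨0, 0, 0, 150994944⟩, ⟨0, 1, 0, 1023410176⟩, ⟨1, 0, 0, 1023410176⟩, ⟨1, 1, 0, 150994944⟩]]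

noncomputable def f_pm_012 : ℕ → ℕ → ℕ → ℕ → Bool := onCell 1073741824 536870912 536870912 536870912 67108864 67108864
    (rowNK 3 2 true true false .pnp 0 1 2 (qsf 0 536870912 536870912 536870912 2) ndN0q0 ndN2q1 pcN2 cut_pm_012 Ext.none)

def k0_pm_012 : ∃ t, chk3 f_pm_012 t 2 2 1 = true :=
  ⟨(a (a (a (b (b (l 18558904) (l 18497128)) (b (l 18310360) (a (l 18022144) (l 17968880)))) (b (l 18644616) (b (l 18171168) (l 18077872)))) (a (b (l 18286616) (l 18109688)) (b (l 18160760) (l 17802616)))) (b (a (l 17971376) (l 2)) (a (b (l 17726344) (l 17561312)) (b (l 17456368) (l 17413688))))), by decide +kernel⟩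

def k1_pm_012 : ∃ t, chk3 f_pm_012 t 4 6 1 = true :=
  ⟨(a (a (b (b (l 17714248) (a (l 17686592) (l 17780712))) (b (a (a (b (l 17664320) (l 17490208)) (l 17691760)) (l 17789424)) (a (b (c (a (l 17692336) (l 17801112)) (a (b (l 17248672) (c (l 17369656) (a (b (l 17181304) (l 16985032)) (l 17188080)))) (b (l 17451168) (l 17297616)))) (c (a (c (l 17709832) (l 17350544)) (l 17723192)) (a (c (a (b (l 17253736) (a (l 17117024) (l 17186296))) (l 17080408)) (a (b (a (b (l 16977248) (l 14)) (l 16935848)) (l 14)) (b (l 17013032) (b (l 16984920) (l 14))))) (c (l 17227448) (b (l 17107688) (a (l 16989456) (l 17084128))))))) (c (b (l 17958424) (l 17911344)) (a (b (l 17495400) (b (l 17376656) (l 17235712))) (b (l 17583848) (l 17449896))))))) (b (a (b (l 17726984) (l 17852448)) (l 17863136)) (b (a (a (l 17905064) (l 17964448)) (l 18049312)) (b (a (a (l 17889912) (l 17978392)) (l 18104112)) (a (a (l 17719808) (l 17932376)) (l 18021728)))))) (b (a (l 17929080) (l 18019640))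 (b (a (l 18198968) (l 18386792)) (a (b (l 18325056) (l 18329712)) (l 18620112))))), by decide +kernel⟩

def k2_pm_012 : ∃ t, chk3 f_pm_012 t 16 28 1 = true :=
  ⟨(a (a (c (b (c (l 17594624) (b (l 17263016) (a (a (l 17208288) (l 17263128)) (l 17314792)))) (c (b (l 17416848) (a (l 17152704) (l 17427736))) (b (a (c (l 17111344) (l 14)) (l 17108416)) (a (l 14) (c (l 17134528) (l 14)))))) (c (b (a (b (c (a (l 17128632) (l 17157824)) (l 14)) (l 14)) (b (l 17052608) (c (l 17080104) (l 14)))) (l 14)) (b (l 14) (b (l 14) (b (l 14) (b (l 14) (b (l 14) (a (a (a (c (l 14) (a (c (l 14) (a (l 16741712) (l 16740736))) (l 16739584))) (l 16737272)) (l 16731392)) (l 16719584))))))))) (b (c (c (l 17745456) (l 17377920)) (c (b (l 17184576) (a (l 17008016) (l 17156272))) (a (l 14) (b (l 16978704) (l 16834784))))) (c (c (l 17497800) (b (l 17240224) (a (l 17002280) (l 17249592)))) (a (b (l 14) (l 16713848)) (b (l 16748784) (l 16718440)))))) (c (a (b (l 17745400) (b (l 17639264)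 (l 17382528))) (b (l 17882432) (l 17669904))) (b (a (b (l 16998232) (a (l 16943704) (l 17071216))) (b (l 17329576) (l 17127288))) (b (a (c (l 17017104) (l 16725984)) (l 16928512)) (a (a (l 16769952) (l 16823960)) (l 16792208)))))), by decide +kernel⟩

def k3_pm_012 : ∃ t, chk3 f_pm_012 t 64 58 1 = true :=
  ⟨(c (c (b (a (c (l 17249824) (l 14)) (l 17168456)) (a (l 14) (c (l 17216080) (l 14)))) (l 14)) (a (c (c (l 14) (b (l 14) (b (l 14) (b (l 14) (a (a (a (c (l 14) (a (c (l 14) (b (l 14) (l 16748216))) (l 16747192))) (l 16745992)) (l 16743072)) (l 16737208)))))) (b (a (a (b (c (l 14) (a (a (b (a (b (l 16743848) (l 16742808)) (l 16742152)) (a (b (l 16743072) (l 16743344)) (l 16742688))) (b (l 16741424) (l 16741960))) (b (l 16739960) (l 16740496)))) (b (a (a (c (l 14) (a (b (l 16743616) (l 16743896)) (l 16743232))) (l 16743096)) (l 16741632)) (a (a (b (c (l 14) (l 16745240)) (c (c (l 14) (l 16745888)) (l 16745520))) (l 16743640)) (l 16742176)))) (b (l 16743016)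 (l 16744080))) (b (l 16731904) (l 16738224))) (b (a (a (b (a (a (c (c (l 14) (b (l 16746656) (l 16745616))) (b (l 16744488) (l 16744776))) (l 16744184)) (l 16742728)) (a (a (c (a (b (l 16746416) (l 16746688)) (l 16746024)) (b (l 16745056) (l 16745344))) (l 16744744)) (l 16743288))) (l 16745176)) (l 16739328)) (a (a (a (a (a (b (b (b (l 16747672) (l 16747816)) (c (l 16747248) (l 16746168))) (b (c (l 16747528) (l 16746464)) (c (l 16747808) (l 16746760)))) (b (l 16747352) (l 16747928))) (b (l 16745312) (l 16745888))) (b (l 16743856) (l 16744432))) (l 16745648)) (l 16740464))))) (b (b (l 16731744) (l 16732800)) (b (l 16733880) (l 16734992))))), by decide +kernel⟩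

def k4_pm_012 : ∃ t, chk3 f_pm_012 t 64 118 1 = true :=
  ⟨(c (l 14) (a (a (a (c (b (c (l 14) (a (a (b (a (c (l 14) (b (l 16748872) (l 16749144))) (l 16748728)) (b (c (l 14) (l 16749840)) (a (l 16750608) (l 16749472)))) (b (l 16748000) (l 16748552))) (b (l 16746544) (l 16747096)))) (b (a (c (l 14) (a (a (b (l 16751544) (l 16750520)) (l 16749840)) (l 16749112))) (l 16748136)) (a (a (b (a (c (l 14) (l 16750800)) (l 16750792)) (a (c (b (l 14) (l 16752112)) (l 16751088)) (l 16751072))) (c (l 16750616) (l 16749680))) (l 16748688)))) (b (b (a (a (b (c (l 16749160) (l 16746816)) (c (l 16749448) (l 16747120))) (l 16746472)) (l 16745016)) (a (a (a (b (l 16749480) (l 16749776)) (l 16747784)) (l 16747056)) (l 16745608))) (b (a (a (a (b (l 16750080) (l 16749072)) (l 16748384)) (l 16747656)) (l 16746208)) (a (a (a (b (l 16749376) (l 16749680)) (l 16748992)) (l 16748264)) (l 16746816))))) (b (b (l 16748360) (l 16748928)) (b (l 16749504) (l 16750088)))) (b (c (l 16743584)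 (l 16746880)) (c (l 16744672) (l 16748072)))) (b (l 16736128) (c (l 16738184) (l 16736408))))), by decide +kernel⟩

def k5_pm_012 : ∃ t, chk3 f_pm_012 t 64 119 1 = true :=
  ⟨(b (c (l 14) (b (a (a (a (a (a (a (c (c (c (l 14) (b (l 16752072) (l 16752352))) (b (l 16751376) (l 16751672))) (b (l 16749984) (l 16750296))) (c (b (l 16751352) (l 16751640)) (l 16749600))) (c (a (l 16752264) (l 16750472)) (l 16748880))) (c (l 16749256) (l 16747432))) (l 16750680)) (l 16744864)) (l 16738424)) (a (a (a (c (a (a (b (a (c (c (l 14) (l 16752632)) (l 16751960)) (l 16751928)) (a (c (c (l 16753360) (l 16752920)) (l 16752256)) (l 16752216))) (c (l 16751728) (l 16750840))) (l 16749824)) (a (a (b (l 16751680) (l 16751992)) (l 16749504)) (l 16748056))) (l 16751280)) (l 16745464)) (l 16739040)))) (c (b (l 14) (b (l 14) (b (l 14) (a (a (c (l 14) (a (a (a (c (l 14) (c (l 14) (l 16755416))) (l 16754408)) (l 16752944)) (l 16750024))) (l 16750208)) (l 16738440))))) (b (a (a (a (a (c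 (a (b (a (c (c (l 16753640) (l 16753208)) (l 16752552)) (l 16752504)) (c (b (l 16754400) (l 16754864)) (l 16753920))) (l 16753168)) (a (b (l 16752312) (l 16752632)) (l 16750128))) (c (l 16750408) (l 16748688))) (l 16751888)) (l 16746080)) (l 16739672)) (a (a (a (c (a (a (b (a (c (l 16754656) (l 16753152)) (l 16753088)) (a (c (l 16754944) (l 16753456)) (l 16753392))) (l 16753752)) (l 16750992)) (a (a (b (l 16754256) (l 16754584)) (l 16750768)) (l 16749328))) (l 16752504)) (l 16746704)) (l 16740304))))), by decide +kernel⟩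

def k6_pm_012 : ∃ t, chk3 f_pm_012 t 65 29 1 = true :=
  ⟨(b (b (c (c (l 17307448) (a (l 14) (l 16925640))) (a (l 16715864) (l 16699920))) (a (c (c (b (l 17312120) (l 17176176)) (l 14)) (l 16723216)) (b (l 16743136) (l 16715648)))) (b (a (c (l 14) (a (l 16724080) (l 16716200))) (b (l 16727240) (l 16707408))) (b (a (a (l 16738840) (l 16730944)) (l 16708568)) (a (c (l 16727032) (l 16724088)) (l 16709752))))), by decide +kernel⟩

def k7_pm_012 : ∃ t, chk3 f_pm_012 t 33 29 1 = true :=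
  ⟨(b (c (c (a (b (l 17638920) (l 17505832)) (l 17772752)) (a (b (a (l 17159304) (l 17288752)) (a (l 16854944) (l 17055680))) (b (l 17419432) (l 17136528)))) (a (b (l 16686296) (l 16691216)) (b (l 16734024) (l 16656192)))) (b (b (a (a (l 16700736) (l 16746944)) (c (c (l 17634848) (l 17118944)) (l 16658896))) (a (a (l 16701912) (l 16685824)) (l 16711104))) (a (a (b (l 16703112) (l 16704328)) (b (l 16687056) (l 16688312))) (a (a (l 16695384) (l 16687280)) (l 16712208))))), by decide +kernel⟩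

def k8_pm_012 : ∃ t, chk3 f_pm_012 t 17 14 1 = true :=
  ⟨(b (a (c (a (b (l 18013608) (l 17904640)) (l 17867192)) (a (b (l 17261560) (b (l 17216792) (l 17030608))) (b (l 17467944) (a (l 17141152) (l 17275688))))) (b (a (l 17848944) (l 18066320)) (c (l 18243608) (a (b (l 17532080) (l 17434504)) (l 17620512))))) (a (b (c (a (b (l 17789176) (l 17626992)) (l 17721856)) (a (b (l 16862472) (l 16769136)) (b (a (l 17114736) (l 17197440)) (a (l 16952248) (l 17044520))))) (a (c (c (b (l 17807808) (l 17680440)) (b (l 17240840) (b (l 17191944) (l 17068776)))) (b (a (l 16634192) (l 16649000)) (l 16628672))) (c (b (l 17552560) (a (l 17411176) (l 17601816))) (a (b (l 16755216) (l 16603936)) (b (l 16859520) (l 16633376)))))) (a (c (b (l 18070112) (b (l 17946632) (l 17712544))) (b (b (l 17213560) (l 16969656)) (b (l 16759976) (l 16671144)))) (c (b (l 18218296) (l 18013976)) (b (b (l 17473696) (l 17330952)) (b (l 17079624) (l 16860216))))))), by decide +kernel⟩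

def k9_pm_012 : ∃ t, chk3 f_pm_012 t 16 60 1 = true :=
  ⟨(a (b (a (a (b (b (c (a (c (l 14) (a (c (l 14) (a (c (l 14) (b (a (a (l 16755688) (l 16754712)) (l 16753984)) (l 6))) (l 16752792))) (l 16752896))) (l 16750448)) (a (a (a (b (a (b (c (c (l 16755592) (l 16753456)) (l 16752224)) (l 6)) (l 16754768)) (l 6)) (c (l 16751584) (l 16749968))) (l 16753128)) (l 16747328))) (a (a (l 6) (c (c (l 14) (l 16753448)) (l 16753760))) (c (l 16751632) (l 16747968)))) (b (a (l 6) (a (l 6) (l 16748120))) (l 6))) (a (b (b (l 16741096) (l 16744312)) (b (l 16744912) (l 16745512))) (b (l 16737184) (a (l 16736360) (l 16732456))))) (b (a (c (l 16728096) (l 16725360)) (l 16710952)) (a (c (l 16730496) (l 16726648)) (l 16712176)))) (a (a (l 6) (a (l 6) (b (c (l 16736816) (l 16739600)) (l 6)))) (b (a (b (l 16729240) (l 16729880)) (l 16716024)) (a (a (l 6) (l 16726744)) (c (l 16715976) (l 16724480)))))) (b (b (a (a (l 16705568) (l 16689584)) (a (l 16673504) (l 16657312))) (a (a (l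 16727792) (l 16690872)) (a (l 16674824) (l 16658672)))) (a (b (a (c (l 16709080) (l 16707088)) (l 16692176)) (a (c (l 16710608) (l 16708792)) (l 16714800))) (a (c (b (l 16676984) (l 16678584)) (l 16675280)) (c (a (l 16661032) (b (l 16841648) (l 16678312))) (l 16659264)))))), by decide +kernel⟩

def k10_pm_012 : ∃ t, chk3 f_pm_012 t 16 61 1 = true :=
  ⟨(a (b (a (l 6) (a (l 6) (b (c (l 16717152) (l 16715360)) (l 6)))) (l 6)) (a (b (b (a (c (l 16701328) (l 16710192)) (a (l 16699128) (l 16691176))) (a (l 16702304) (l 16696992))) (a (l 6) (a (l 6) (l 16680640)))) (b (b (a (b (l 16679208) (l 16680024)) (l 16663176)) (a (c (l 16681648) (l 16680528)) (a (l 16669088) (l 16661056)))) (b (a (l 16682472) (a (l 16670496) (l 16665296))) (a (a (l 6) (a (l 6) (l 16679272))) (l 16673912)))))), by decide +kernel⟩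

def k11_pm_012 : ∃ t, chk3 f_pm_012 t 16 31 1 = true :=
  ⟨(a (l 6) (b (a (l 6) (b (a (l 6) (b (l 16680456) (l 6))) (l 6))) (l 6))), by decide +kernel⟩

def k12_pm_012 : ∃ t, chk3 f_pm_012 t 17 15 1 = true :=
  ⟨(b (a (a (b (b (a (l 16703048) (l 16676168)) (c (b (c (l 17194384) (l 16696168)) (l 16736952)) (a (l 16643144) (b (l 16626952) (l 16631816))))) (b (b (c (l 16694664) (a (l 16646568) (l 16638064))) (a (a (l 16654672) (l 16650552)) (l 16644408))) (b (a (l 16659008) (l 16650720)) (b (l 16659632) (l 16662824))))) (b (a (b (l 16706384) (a (l 16687192) (l 16662320))) (b (c (c (l 17819504) (l 17193448)) (l 16602792)) (b (l 16741248) (l 16617024)))) (b (a (b (l 16630560) (l 16636320)) (b (l 16623144) (l 16628792))) (a (l 16666608) (l 16679912))))) (a (b (a (b (c (l 17435288) (l 16595264)) (l 16677968)) (c (c (l 17873320) (b (l 17474408) (l 17211040))) (b (l 16621600) (l 16599408)))) (b (b (a (l 16615432) (l 16740592)) (l 16621008)) (a (l 16650992) (l 16622648))))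 (b (c (c (l 18139864) (b (l 17641032) (l 17277712))) (b (l 16727112) (l 16600536))) (b (b (c (c (l 17971384) (l 17304784)) (l 16597536)) (l 16718640)) (a (l 16615120) (l 16656512)))))) (a (a (b (b (a (a (l 16666776) (l 16662496)) (c (l 16656912) (l 16665792))) (b (c (l 16673504) (l 16669192)) (l 6))) (l 6)) (b (b (a (b (l 16655056) (l 16640384)) (b (l 16647240) (l 16653448))) (a (a (l 16662504) (l 16658232)) (a (l 16653992) (l 16649872)))) (a (l 6) (b (b (l 16661400) (l 6)) (l 6))))) (b (b (a (a (b (l 16639152) (l 16645264)) (l 16655592)) (a (l 16626888) (l 16619336))) (b (a (c (l 16650016) (l 16647008)) (l 16633448)) (a (c (l 16656208) (l 16653048)) (l 16639368)))) (b (a (a (b (l 16663432) (l 16658224)) (a (l 16649216) (l 16645160))) (b (l 16644976) (l 16650008))) (a (a (l 6) (b (l 16655432) (l 6))) (a (b (l 16657672) (l 16652328)) (b (l 16628624) (l 16644160)))))))), by decide +kernel⟩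

def k13_pm_012 : ∃ t, chk3 f_pm_012 t 9 14 1 = true :=
  ⟨(a (a (b (c (l 18503296) (b (l 17927704) (l 17810024))) (c (b (l 18419656) (l 18299024)) (a (b (l 17466328) (b (l 17388072) (l 17129552))) (b (l 17717632) (b (l 17559016) (l 17426504)))))) (b (l 18184744) (c (l 18642360) (b (l 17919704) (b (l 17793496) (l 17625608)))))) (b (l 18649808) (b (l 18501968) (a (l 18228304) (l 18661232))))), by decide +kernel⟩

def k14_pm_012 : ∃ t, chk3 f_pm_012 t 9 30 1 = true :=
  ⟨(c (a (b (a (a (b (l 18112952) (l 17933544)) (l 18061552)) (l 18502568)) (b (a (a (b (l 17824720) (l 17634920)) (l 17974448)) (l 18382448)) (a (c (l 17917784) (a (l 17074864) (l 17575376))) (c (l 18591800) (l 17952024))))) (b (l 18908320) (b (l 18859336) (l 18811128)))) (a (b (b (a (a (l 16900688) (l 17161104)) (a (l 17467264) (l 17652544))) (a (a (l 16713008) (l 16859960)) (a (l 17152976) (l 17509928)))) (a (b (a (l 16597744) (l 16639424)) (a (l 16575264) (l 16560984))) (a (b (a (l 16925800)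 (l 17052704)) (l 16840856)) (b (l 17084864) (l 17059248))))) (b (a (b (l 17902760) (l 17749744)) (l 18155896)) (a (b (a (l 17492392) (l 17753888)) (a (l 17353560) (l 17601528))) (b (l 18018312) (l 17901320)))))), by decide +kernel⟩

def k15_pm_012 : ∃ t, chk3 f_pm_012 t 9 31 1 = true :=
  ⟨(a (b (a (b (a (l 16609472) (c (c (l 18111696) (l 17098112)) (l 16571696))) (b (a (l 16618024) (l 16663072)) (a (l 16623752) (l 16587944)))) (c (c (a (l 18273248) (l 18538528)) (a (b (l 17634424) (b (l 17447536) (l 17279536))) (b (l 17903112) (l 17696472)))) (b (a (l 16557768) (l 16857472)) (l 16600600)))) (a (a (b (a (l 16623800) (l 16616192)) (b (l 16638872) (c (l 16635712) (l 16641344)))) (b (a (l 16598264) (l 16590992)) (b (l 16644424) (l 16617680)))) (b (a (l 16591560) (c (c (l 18303288) (b (l 17501584) (l 17284320))) (l 16563968))) (a (b (l 16587792) (l 16602784)) (l 16591672))))) (c (a (a (b (l 18177192) (c (l 18348600) (b (l 17760856) (a (l 17173968) (l 17508736)))))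 (b (l 18614464) (c (l 18750536) (b (l 18049160) (l 17764088))))) (c (l 19132960) (b (l 18580384) (b (l 18413256) (l 18257888))))) (b (a (a (b (l 17048128) (l 16835520)) (b (l 17353120) (l 17039968))) (c (l 17853176) (b (l 17470400) (l 17121616)))) (a (b (l 16576280) (a (l 16558696) (l 16545664))) (c (b (l 17571624) (a (l 17200160) (l 17635280))) (b (l 16768320) (l 16543712))))))), by decide +kernel⟩

def k16_pm_012 : ∃ t, chk3 f_pm_012 t 5 3 1 = true :=
  ⟨(b (b (a (l 18068352) (l 18032504)) (a (b (l 18554040) (l 18885592)) (l 18828912))) (b (a (b (l 18999088) (a (l 18941096) (l 19161528))) (l 19514200)) (b (b (a (a (l 18740880) (l 19196336)) (l 19440968)) (a (a (c (l 19309928) (b (l 18446408) (l 18381272))) (l 19220096)) (l 19515104))) (a (a (c (a (b (l 19167376) (l 19077624)) (l 19381656)) (a (b (l 17851536) (c (b (l 18181136) (l 18027104)) (b (l 17559904) (a (l 17201576) (l 17479752))))) (b (l 18412232) (c (l 18503776) (l 17842976))))) (c (l 19648528)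 (b (l 18790776) (l 18701800)))) (l 19598912))))), by decide +kernel⟩

def k17_pm_012 : ∃ t, chk3 f_pm_012 t 3 1 1 = true :=
  ⟨(b (a (b (l 2) (b (l 2) (l 17239048))) (l 2)) (a (b (b (l 17960952) (l 18863592)) (b (l 19595320) (b (l 19655344) (l 19817896)))) (b (b (l 2) (l 18756952)) (b (l 19309488) (b (l 19544928) (l 19697936)))))), by decide +kernel⟩

theorem s18_pm_012 : ∃ t, chk3 f_pm_012 t 9 15 1 = true := ex3_b k14_pm_012 k15_pm_012

theorem s19_pm_012 : ∃ t, chk3 f_pm_012 t 9 7 1 = true := ex3_b k13_pm_012 s18_pm_012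

theorem s20_pm_012 : ∃ t, chk3 f_pm_012 t 16 30 1 = true := ex3_b k9_pm_012 k10_pm_012

theorem s21_pm_012 : ∃ t, chk3 f_pm_012 t 16 15 1 = true := ex3_b s20_pm_012 k11_pm_012

theorem s22_pm_012 : ∃ t, chk3 f_pm_012 t 8 15 1 = true := ex3_a s21_pm_012 k12_pm_012

theorem s23_pm_012 : ∃ t, chk3 f_pm_012 t 64 59 1 = true := ex3_b k4_pm_012 k5_pm_012

theorem s24_pm_012 : ∃ t, chk3 f_pm_012 t 64 29 1 = true := ex3_b k3_pm_012 s23_pm_012

theorem s25_pm_012 : ∃ t, chk3 f_pm_012 t 32 29 1 = true := ex3_a s24_pm_012 k6_pm_012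

theorem s26_pm_012 : ∃ t, chk3 f_pm_012 t 16 29 1 = true := ex3_a s25_pm_012 k7_pm_012

theorem s27_pm_012 : ∃ t, chk3 f_pm_012 t 16 14 1 = true := ex3_b k2_pm_012 s26_pm_012

theorem s28_pm_012 : ∃ t, chk3 f_pm_012 t 8 14 1 = true := ex3_a s27_pm_012 k8_pm_012

theorem s29_pm_012 : ∃ t, chk3 f_pm_012 t 8 7 1 = true := ex3_b s28_pm_012 s22_pm_012

theorem s30_pm_012 : ∃ t, chk3 f_pm_012 t 4 7 1 = true := ex3_a s29_pm_012 s19_pm_012

theorem s31_pm_012 : ∃ t, chk3 f_pm_012 t 4 3 1 = true := ex3_b k1_pm_012 s30_pm_012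

theorem s32_pm_012 : ∃ t, chk3 f_pm_012 t 2 3 1 = true := ex3_a s31_pm_012 k16_pm_012

theorem s33_pm_012 : ∃ t, chk3 f_pm_012 t 2 1 1 = true := ex3_b k0_pm_012 s32_pm_012

theorem s34_pm_012 : ∃ t, chk3 f_pm_012 t 1 1 1 = true := ex3_a s33_pm_012 k17_pm_012

theorem c_pm_012 : CertN 0 536870912 536870912 536870912 67108864 67108864 3 true true false .pnp 0 1 2
    ndN0q0 ndN2q1 pcN2 cut_pm_012 Ext.none :=
  certNK2 (fam := true) (s1 := true) (s2 := false) (a := 0) (b := 1) (c := 2) (cn := .pnp) (n1 := ndN0q0) (n2 := ndN2q1) (pc := pcN2) (cut := cut_pm_012) (xt := Ext.none) (P1 := 0) (W1 := 536870912) (P2 := 536870912) (W2 := 536870912) (P3 := 67108864) (W3 := 67108864) (N0 := 3)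
    rfl rfl rfl (fun _ => rfl) s34_pm_012

noncomputable def cut_pm_022_a : Cut := Cut.of [[⟨0, 0, 0, 67108864⟩, ⟨1, 1, 0, 67108864⟩, ⟨2, 1, 0, 67108864⟩], [⟨0, 0, 1, 33554432⟩, ⟨1, 1, 0, 16777216⟩, ⟨2, 1, 1, 33554432⟩, ⟨0, 0, 0, 150994944⟩, ⟨0, 1, 0, 1023410176⟩, ⟨2, 1, 0, 150994944⟩, ⟨2, 2, 0, 1023410176⟩]]

noncomputable def f_pm_022_a : ℕ → ℕ → ℕ → ℕ → Bool := onCell 1073741824 536870912 0 536870912 67108864 67108864
    (rowNK 3 2 true true false .pp 0 2 2 (qsf 0 536870912 0 536870912 2) ndN0q0 ndN2q2a pcN2 cut_pm_022_a Ext.none)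

def k0_pm_022_a : ∃ t, chk3 f_pm_022_a t 2 2 1 = true :=
  ⟨(b (a (l 1) (a (a (a (l 1) (b (l 17985296) (l 119757789383))) (a (l 18142328) (l 18283336))) (l 18369376))) (a (a (l 1) (a (l 1) (b (l 1) (b (l 1) (a (l 1) (c (l 17851072) (a (l 1) (b (l 16969320) (l 16901112))))))))) (a (c (a (b (a (l 18255600) (l 18420704)) (a (l 18119008) (l 18334592))) (l 18470504)) (a (b (a (b (l 17296216) (a (l 1) (l 17369568))) (b (l 17605584) (l 17581480))) (a (b (a (l 17035576) (l 17352112)) (a (l 17040008) (l 17326288))) (b (l 17554504) (l 17523760)))) (b (l 17863280) (l 17613624)))) (b (l 18328536) (l 18267544))))), by decide +kernel⟩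

def k1_pm_022_a : ∃ t, chk3 f_pm_022_a t 4 6 1 = true :=
  ⟨(a (l 1) (a (b (l 1) (a (b (l 1) (a (l 1) (b (a (l 1) (l 16640656)) (b (a (l 16636536) (l 16636440)) (a (l 16644216) (l 16632216)))))) (b (a (b (l 1) (a (l 1) (l 16623040))) (b (a (l 1) (l 16611264)) (b (l 16620392) (l 16621144)))) (b (a (a (b (l 16623920) (l 16630128)) (l 16629536)) (a (l 16635376) (l 16630024))) (a (a (l 16668976) (l 16642528)) (b (l 16633696) (l 16634312))))))) (b (a (b (a (l 1) (c (l 17675720) (l 16584008))) (a (b (l 1) (a (l 16687928) (b (l 16736832) (l 16734072)))) (c (b (l 56943137223) (l 17451440)) (b (l 16585320) (l 16586520))))) (c (b (a (l 17689216) (l 17990680)) (c (l 18130544) (l 17485744))) (b (a (b (l 16719440) (l 16694576)) (l 16763272)) (a (l 16646544) (l 16849736))))) (a (a (b (b (a (b (l 16685464) (l 16683640)) (l 16749224)) (l 16671904)) (b (l 16688024) (l 16705512))) (c (b (a (l 17342240) (l 17592936)) (b (l 17505304) (l 17472976))) (b (l 16610728) (b (l 16610584)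 (l 16611384))))) (c (b (a (l 17741944) (l 17858248)) (a (l 17546032) (l 17784152))) (b (b (l 16671040) (l 16707392)) (b (l 16723752) (l 16720472)))))))), by decide +kernel⟩

def k2_pm_022_a : ∃ t, chk3 f_pm_022_a t 8 7 1 = true :=
  ⟨(b (a (l 1) (b (a (l 1) (a (l 1) (b (l 1) (a (b (l 1) (l 6)) (b (a (l 16664328) (l 16661536)) (l 16667264)))))) (a (l 6) (a (l 6) (a (l 6) (b (b (l 16681744) (l 16683104)) (b (l 16689208) (l 16697760)))))))) (a (l 6) (a (l 6) (a (l 6) (a (l 6) (a (l 6) (b (b (l 16710280) (l 16720216)) (a (l 6) (a (l 6) (b (b (l 16721080) (l 16730608)) (b (l 16745504) (b (l 16752888) (b (c (l 16752984) (l 16749800)) (b (c (l 16754896) (l 16751656)) (a (l 6) (c (c (l 14) (c (l 14) (l 16756232))) (c (l 16755000) (l 16752048)))))))))))))))))), by decide +kernel⟩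

def k3_pm_022_a : ∃ t, chk3 f_pm_022_a t 9 14 1 = true :=
  ⟨(a (b (a (b (b (a (a (l 1) (c (l 16650232) (l 16648816))) (l 3791396311)) (a (a (a (l 16657408) (l 16654640)) (l 16666448)) (a (l 16660816) (l 16655136)))) (a (b (b (l 16663104) (l 16663680)) (a (l 16674592) (l 16668760))) (b (a (l 16661864) (l 16656056)) (a (l 16662880) (l 16657632))))) (b (a (b (l 16646440) (l 16647208)) (b (l 16634880) (l 16635400))) (a (b (l 16647944) (l 16654144)) (b (l 16642624) (l 16650800))))) (a (b (a (b (a (l 16675840) (l 16669880)) (a (l 16679104) (l 16677240))) (b (a (l 16667432) (l 16665592)) (l 16697304))) (a (b (a (l 16687400) (l 16685656)) (l 16686272)) (b (a (l 16683984) (l 16682376)) (l 16691272)))) (b (a (b (l 16662272) (l 16670592)) (b (l 16659168) (l 16667736))) (b (a (l 16679424) (l 16676712)) (a (l 16688648) (l 16664952)))))) (b (a (b (a (l 16703712) (c (l 17440288) (l 16622064))) (a (l 16682960) (c (l 17365592) (l 16638032)))) (c (b (l 17654720) (l 17595480))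 (b (l 16697752) (l 16682008)))) (a (b (a (b (l 16747408) (l 16749488)) (c (l 17269920) (l 16654096))) (b (b (l 16733040) (l 16733048)) (l 16704488))) (c (b (l 17451696) (b (l 17570544) (l 17551344))) (b (b (l 16804016) (l 16805632)) (b (l 16786936) (l 16810904))))))), by decide +kernel⟩

def k4_pm_022_a : ∃ t, chk3 f_pm_022_a t 9 30 1 = true :=
  ⟨(a (b (a (a (a (l 16700976) (l 16696920)) (a (l 16706040) (l 16704736))) (a (c (l 16696264) (l 16700760)) (l 16714984))) (b (a (a (l 16712600) (l 16718168)) (a (l 16715616) (l 16692056))) (a (a (c (l 16720376) (l 16718160)) (l 16716920)) (a (l 16724936) (l 16722496))))) (a (a (b (l 16720880) (l 16709584)) (c (b (l 17249280) (l 17134800)) (b (l 16671168) (l 16689976)))) (c (b (l 17396248) (l 17231640)) (b (a (l 16734392) (l 16892568)) (a (l 16750120) (l 16835112)))))), by decide +kernel⟩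

def k5_pm_022_a : ∃ t, chk3 f_pm_022_a t 9 62 1 = true :=
  ⟨(a (a (a (a (b (l 16740944) (l 16739976)) (b (l 16739672) (l 16733472))) (b (l 16729632) (a (l 16732240) (l 16736272)))) (a (b (l 16724008) (c (l 14) (l 16732024))) (b (l 16732208) (a (l 16722312) (l 16721208))))) (a (a (b (l 16724016) (l 16728016)) (c (c (l 17464592) (b (l 17126400) (l 17120144))) (b (l 16704688) (l 16714808)))) (c (a (l 17294408) (l 17487336)) (a (l 16722464) (l 16717736))))), by decide +kernel⟩

def k6_pm_022_a : ∃ t, chk3 f_pm_022_a t 36 126 1 = true :=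
  ⟨(b (a (a (l 16747216) (l 16746016)) (a (l 16734352) (l 16733200))) (a (a (l 16749504) (l 16745720)) (a (l 16744576) (l 16743464)))), by decide +kernel⟩

def k7_pm_022_a : ∃ t, chk3 f_pm_022_a t 36 127 1 = true :=
  ⟨(c (c (l 14) (c (l 14) (a (a (b (l 16752240) (a (b (l 16751344) (b (l 16753240) (a (b (l 16754408) (c (l 14) (l 16755488))) (l 14)))) (b (l 16750784) (l 14)))) (b (l 16751144) (l 14))) (l 14)))) (a (a (a (b (l 16745608) (b (l 16749312) (b (l 16753800) (c (b (l 16752952) (a (a (l 16755200) (l 16755056)) (a (l 16754904) (l 16754752)))) (a (l 16751816) (l 16751496)))))) (b (l 16744976) (b (l 16748688) (b (l 16753184) (c (b (l 16752360) (a (c (l 16754288) (l 16752776)) (a (l 16754312) (l 16754168)))) (a (l 16753800) (l 16753480))))))) (a (b (l 16744344) (b (l 16748072) (b (l 16752576) (c (a (c (a (l 16754144) (l 16754000)) (l 16753176)) (c (a (l 16753864) (l 16753720)) (l 16752880))) (a (l 16753160) (l 16752848)))))) (b (l 16743720) (b (l 16747464)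 (b (l 16751976) (a (c (c (a (l 16753576) (l 16753272)) (l 16752256)) (l 16751224)) (b (l 16752832) (c (c (a (l 16752312) (l 16752168)) (l 16751304)) (l 16749912))))))))) (a (b (l 16747824) (a (b (l 16746864) (b (l 16751376) (a (b (l 16752528) (c (c (a (l 16752032) (l 14)) (l 16751016)) (l 16749608))) (b (l 16752240) (c (c (l 14) (l 16750728)) (l 16749296)))))) (b (l 16746272) (b (l 16750792) (c (b (l 16750088) (c (l 14) (a (l 16750440) (l 16750160)))) (b (l 16748160) (a (l 16748992) (l 16748688)))))))) (b (l 16746648) (b (c (l 16748800) (l 16749464)) (b (a (l 16750216) (l 16749640)) (b (a (c (l 16749544) (l 16747560)) (c (l 16749000) (l 16746968))) (c (c (l 14) (a (a (l 16749880) (l 16750904)) (b (l 16748976) (a (l 16749480) (l 16749208))))) (a (a (l 16749704) (l 16749400)) (a (l 16749104) (l 16748808))))))))))), by decide +kernel⟩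

def k8_pm_022_a : ∃ t, chk3 f_pm_022_a t 37 63 1 = true :=
  ⟨(c (a (l 14) (c (c (b (l 17294032) (l 17275448)) (l 14)) (l 14))) (b (a (b (l 16739424) (l 16741808)) (a (l 16740864) (l 16729256))) (b (a (a (l 16745496) (l 16744376)) (a (l 16743288) (l 16736984))) (c (c (l 14) (c (l 14) (a (a (b (l 16744336) (a (b (l 16746720) (a (l 16749176) (l 14))) (l 14))) (l 14)) (l 14)))) (a (b (a (l 16743048) (l 16741904)) (a (b (a (l 16745424) (l 16744840)) (a (a (c (l 16748720) (l 16746368)) (c (l 16748432) (l 16746072))) (a (a (l 16747704) (l 16747888)) (b (l 16745704) (a (l 16749048) (l 16748904)))))) (b (a (l 16744272) (l 16743704)) (b (a (l 16745232) (l 16744672)) (a (a (a (l 16747448) (l 16747312)) (a (l 16747168) (l 16747024))) (a (a (l 16746888) (l 16746744)) (c (l 16747096) (l 16744648)))))))) (b (a (l 16740792) (l 16739712)) (a (b (c (l 16744624) (l 16742160)) (a (a (b (l 16744296) (c (l 16746504) (l 16744368))) (c (l 14) (l 16743760))) (c (l 14) (a (l 16743488)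 (l 16744520))))) (c (l 14) (b (l 16741064) (a (a (l 16744248) (c (l 14) (l 16742360))) (b (l 16741904) (a (l 16742720) (l 16742456))))))))))))), by decide +kernel⟩

def k9_pm_022_a : ∃ t, chk3 f_pm_022_a t 19 63 1 = true :=
  ⟨(c (a (c (a (b (l 17326256) (l 17244944)) (l 17419872)) (a (l 14) (c (b (l 17193792) (l 17184464)) (l 14)))) (c (l 17543656) (a (b (l 17227016) (l 17133328)) (l 17315480)))) (c (a (l 14) (a (l 14) (c (b (l 17119000) (l 17073720)) (l 14)))) (a (a (b (l 16736480) (a (c (l 14) (b (l 16734136) (b (l 16738040) (b (l 16740008) (a (a (c (l 14) (l 16741544)) (l 14)) (l 14)))))) (b (l 16733696) (l 14)))) (b (l 16734400) (l 14))) (l 14)))), by decide +kernel⟩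

def k10_pm_022_a : ∃ t, chk3 f_pm_022_a t 5 6 1 = true :=
  ⟨(a (b (a (c (a (b (l 18127560) (l 18062048)) (l 18215976)) (a (b (a (l 17141864) (l 17297896)) (a (l 17116776) (l 17267856))) (b (l 17489680) (l 17453088)))) (b (l 18029136) (l 17976584))) (a (a (c (b (l 17990408) (l 17913288)) (b (b (l 17132808) (l 17139944)) (b (l 17126472) (l 17113512)))) (c (l 18068880) (b (l 17414672) (l 17228200)))) (b (l 17835216) (c (l 18146520) (l 17607416))))) (b (a (l 18147592) (l 18211232)) (b (l 18113040) (l 18056920)))), by decide +kernel⟩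

def k11_pm_022_a : ∃ t, chk3 f_pm_022_a t 5 7 1 = true :=
  ⟨(b (a (a (a (b (c (l 17830512) (b (l 17059264) (l 16963840))) (c (b (l 17769264) (l 17726048)) (b (b (l 17103160) (l 17098288)) (b (l 17051920) (l 17068928))))) (b (b (l 17492872) (l 17419576)) (c (l 17858880) (b (l 17307040) (b (l 17294264) (l 17285424)))))) (b (a (l 17615544) (l 17851448)) (b (l 17635232) (c (l 17959328) (l 17386352))))) (b (a (l 17947912) (l 18032096)) (b (l 17950520) (l 17854896)))) (b (a (a (c (a (l 17661192) (l 17772816)) (a (b (a (l 17025704) (l 17138808)) (a (l 16960328) (l 17109240))) (b (l 17272128) (l 17150488)))) (c (l 17892200) (a (l 17397048) (l 17503824)))) (a (l 17815712) (l 17913520))) (a (a (b (c (a (l 17594568) (l 17702016)) (a (a (a (l 16869952) (l 16944872)) (l 16913728)) (a (l 17163192) (l 17272896)))) (a (c (a (l 17518112) (l 17579016)) (a (c (b (l 17151328) (a (l 17124680) (l 17169360))) (l 14)) (a (c (l 17214128) (l 14)) (c (l 17253704) (b (l 17024936)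 (b (l 17026808) (l 16965336))))))) (a (c (l 17630592) (b (l 17133736) (a (l 16965784) (l 17144544)))) (c (l 17676144) (b (l 17260520) (a (l 17196176) (a (l 17260288) (l 17211864)))))))) (c (l 17797896) (a (b (l 17362456) (a (l 17230072) (l 17366576))) (a (l 17385288) (l 17472736))))) (a (a (l 17565696) (l 17773312)) (l 17848664))))), by decide +kernel⟩

def k12_pm_022_a : ∃ t, chk3 f_pm_022_a t 3 1 1 = true :=
  ⟨(b (a (b (l 18362576) (a (l 18332776) (l 18304024))) (l 18445584)) (b (a (b (l 18250816) (a (l 18165656) (l 18176272))) (b (l 18149536) (l 18102736))) (b (a (a (b (l 18102160) (l 18051160)) (l 18257080)) (b (l 18074248) (l 18049264))) (a (a (b (l 18007024) (l 17954344)) (l 18042144)) (a (l 18040936) (l 17990408)))))), by decide +kernel⟩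

theorem s13_pm_022_a : ∃ t, chk3 f_pm_022_a t 5 3 1 = true := ex3_b k10_pm_022_a k11_pm_022_a

theorem s14_pm_022_a : ∃ t, chk3 f_pm_022_a t 36 63 1 = true := ex3_b k6_pm_022_a k7_pm_022_a

theorem s15_pm_022_a : ∃ t, chk3 f_pm_022_a t 18 63 1 = true := ex3_a s14_pm_022_a k8_pm_022_a

theorem s16_pm_022_a : ∃ t, chk3 f_pm_022_a t 9 63 1 = true := ex3_a s15_pm_022_a k9_pm_022_a

theorem s17_pm_022_a : ∃ t, chk3 f_pm_022_a t 9 31 1 = true := ex3_b k5_pm_022_a s16_pm_022_a

theorem s18_pm_022_a : ∃ t, chk3 f_pm_022_a t 9 15 1 = true := ex3_b k4_pm_022_a s17_pm_022_a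

theorem s19_pm_022_a : ∃ t, chk3 f_pm_022_a t 9 7 1 = true := ex3_b k3_pm_022_a s18_pm_022_a

theorem s20_pm_022_a : ∃ t, chk3 f_pm_022_a t 4 7 1 = true := ex3_a k2_pm_022_a s19_pm_022_a

theorem s21_pm_022_a : ∃ t, chk3 f_pm_022_a t 4 3 1 = true := ex3_b k1_pm_022_a s20_pm_022_a

theorem s22_pm_022_a : ∃ t, chk3 f_pm_022_a t 2 3 1 = true := ex3_a s21_pm_022_a s13_pm_022_a

theorem s23_pm_022_a : ∃ t, chk3 f_pm_022_a t 2 1 1 = true := ex3_b k0_pm_022_a s22_pm_022_a

theorem s24_pm_022_a : ∃ t, chk3 f_pm_022_a t 1 1 1 = true := ex3_a s23_pm_022_a k12_pm_022_a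

theorem c_pm_022_a : CertN 0 536870912 0 536870912 67108864 67108864 3 true true false .pp 0 2 2
    ndN0q0 ndN2q2a pcN2 cut_pm_022_a Ext.none :=
  certNK2 (fam := true) (s1 := true) (s2 := false) (a := 0) (b := 2) (c := 2) (cn := .pp) (n1 := ndN0q0) (n2 := ndN2q2a) (pc := pcN2) (cut := cut_pm_022_a) (xt := Ext.none) (P1 := 0) (W1 := 536870912) (P2 := 0) (W2 := 536870912) (P3 := 67108864) (W3 := 67108864) (N0 := 3)
    rfl rfl rfl (fun _ => rfl) s24_pm_022_a

noncomputable def cut_pm_022_b : Cut := Cut.of [[⟨0, 0, 0, 67108864⟩, ⟨1, 1, 0, 67108864⟩, ⟨2, 1, 0, 67108864⟩], [⟨0, 0, 1, 33554432⟩, ⟨1, 1, 0, 16777216⟩, ⟨2, 1, 1, 33554432⟩, ⟨0, 0, 0, 150994944⟩, ⟨0, 1, 0, 1023410176⟩, ⟨2, 1, 0, 150994944⟩, ⟨2, 2, 0, 1023410176⟩]]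

noncomputable def f_pm_022_b : ℕ → ℕ → ℕ → ℕ → Bool := onCell 0 536870912 1239849684 370763052 67108864 67108864
    (rowNK 3 0 true true false .pp 0 2 2 (qsf 0 536870912 1239849684 370763052 2) ndN0q0 ndN2q2b pcN2 cut_pm_022_b Ext.none)

def k0_pm_022_b : ∃ t, chk3 f_pm_022_b t 1 1 1 = true :=
  ⟨(a (b (a (b (a (b (a (b (l 18113472) (l 18517304)) (l 18468976)) (l 18611560)) (l 18471944)) (a (l 18638432) (l 18451024))) (b (l 18313336) (l 18199088))) (a (b (l 18445864) (l 18360056)) (b (l 18068648) (l 2)))) (b (a (b (l 18046896) (l 17843424)) (l 2)) (l 2))), by decide +kernel⟩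

theorem c_pm_022_b : CertN 0 536870912 1239849684 370763052 67108864 67108864 3 true true false .pp 0 2 2
    ndN0q0 ndN2q2b pcN2 cut_pm_022_b Ext.none :=
  certNK0 (fam := true) (s1 := true) (s2 := false) (a := 0) (b := 2) (c := 2) (cn := .pp) (n1 := ndN0q0) (n2 := ndN2q2b) (pc := pcN2) (cut := cut_pm_022_b) (xt := Ext.none) (P1 := 0) (W1 := 536870912) (P2 := 1239849684) (W2 := 370763052) (P3 := 67108864) (W3 := 67108864) (N0 := 3)
    rfl rfl rfl k0_pm_022_b

noncomputable def f_pm_023_a : ℕ → ℕ → ℕ → ℕ → Bool := onCell 0 536870912 0 536870912 67108864 67108864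
    (rowNK 3 0 true true false .up 0 2 3 (qsf 0 536870912 0 536870912 3) ndN0q0 ndN2q2a pcN3 Cut.none Ext.none)

def k0_pm_023_a : ∃ t, chk3 f_pm_023_a t 1 1 1 = true :=
  ⟨(a (l 1) (a (b (l 143917844423) (b (l 1) (l 1))) (b (b (l 17620720) (l 17652840)) (b (a (l 17689960) (l 17587272)) (b (a (l 17875848) (l 17795312)) (a (l 1) (l 18103888))))))), by decide +kernel⟩

theorem c_pm_023_a : CertN 0 536870912 0 536870912 67108864 67108864 3 true true false .up 0 2 3
    ndN0q0 ndN2q2a pcN3 Cut.none Ext.none :=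
  certNK0 (fam := true) (s1 := true) (s2 := false) (a := 0) (b := 2) (c := 3) (cn := .up) (n1 := ndN0q0) (n2 := ndN2q2a) (pc := pcN3) (cut := Cut.none) (xt := Ext.none) (P1 := 0) (W1 := 536870912) (P2 := 0) (W2 := 536870912) (P3 := 67108864) (W3 := 67108864) (N0 := 3)
    rfl rfl rfl k0_pm_023_a

noncomputable def f_pm_023_b : ℕ → ℕ → ℕ → ℕ → Bool := onCell 1610612736 536870912 1239849684 370763052 67108864 67108864
    (rowNK 3 2 true true false .up 0 2 3 (qsf 0 536870912 1239849684 370763052 3) ndN0q0 ndN2q2b pcN3 Cut.none Ext.none)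

def k0_pm_023_b : ∃ t, chk3 f_pm_023_b t 1 1 1 = true :=
  ⟨(a (a (b (b (a (l 17860064) (l 17699904)) (l 18016160)) (b (l 18030688) (l 17987728))) (b (b (a (l 17585664) (l 17500952)) (a (l 17703008) (l 17595632))) (a (l 17987800) (l 17792392)))) (a (b (b (l 2) (a (l 17484520) (l 17286192))) (a (l 17582784) (l 17281560))) (b (l 2) (a (l 17130096) (a (l 16953144) (l 4)))))), by decide +kernel⟩

theorem c_pm_023_b : CertN 0 536870912 1239849684 370763052 67108864 67108864 3 true true false .up 0 2 3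
    ndN0q0 ndN2q2b pcN3 Cut.none Ext.none :=
  certNK2 (fam := true) (s1 := true) (s2 := false) (a := 0) (b := 2) (c := 3) (cn := .up) (n1 := ndN0q0) (n2 := ndN2q2b) (pc := pcN3) (cut := Cut.none) (xt := Ext.none) (P1 := 0) (W1 := 536870912) (P2 := 1239849684) (W2 := 370763052) (P3 := 67108864) (W3 := 67108864) (N0 := 3)
    rfl rfl rfl (fun _ => rfl) k0_pm_023_b

noncomputable def f_pm_033 : ℕ → ℕ → ℕ → ℕ → Bool := onCell 1610612736 536870912 1610612736 536870912 67108864 67108864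
    (rowNK 3 2 true true false .pnn 0 3 3 (qsf 0 536870912 1610612736 536870912 3) ndN0q0 ndN2q3 pcN3 Cut.none Ext.none)

def k0_pm_033 : ∃ t, chk3 f_pm_033 t 1 1 1 = true :=
  ⟨(a (b (a (b (a (b (l 19228664) (l 18786808)) (l 19073064)) (a (l 1) (l 18538728))) (b (b (l 19126840) (l 19004728)) (l 18905176))) (a (l 1) (b (a (l 1) (l 18714584)) (l 1)))) (a (b (b (a (l 19103200) (l 19018704)) (a (l 18922240) (l 18826448))) (b (a (l 18697328) (l 18392576)) (a (l 1) (l 4)))) (b (a (b (l 18848744) (l 4)) (l 4)) (l 4)))), by decide +kernel⟩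

theorem c_pm_033 : CertN 0 536870912 1610612736 536870912 67108864 67108864 3 true true false .pnn 0 3 3
    ndN0q0 ndN2q3 pcN3 Cut.none Ext.none :=
  certNK2 (fam := true) (s1 := true) (s2 := false) (a := 0) (b := 3) (c := 3) (cn := .pnn) (n1 := ndN0q0) (n2 := ndN2q3) (pc := pcN3) (cut := Cut.none) (xt := Ext.none) (P1 := 0) (W1 := 536870912) (P2 := 1610612736) (W2 := 536870912) (P3 := 67108864) (W3 := 67108864) (N0 := 3)
    rfl rfl rfl (fun _ => rfl) k0_pm_033

noncomputable def cut_pm_101 : Cut := Cut.of [[⟨0, 1, 0, 67108864⟩, ⟨1, 0, 0, 67108864⟩, ⟨2, 1, 0, 67108864⟩]]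

noncomputable def f_pm_101 : ℕ → ℕ → ℕ → ℕ → Bool := onCell 536870912 536870912 0 536870912 67108864 67108864
    (rowNK 3 2 true true false .npn 1 0 1 (qsf 536870912 536870912 0 536870912 1) ndN0q1 ndN2q0 pcN1 cut_pm_101 Ext.none)

def k0_pm_101 : ∃ t, chk3 f_pm_101 t 1 1 1 = true :=
  ⟨(a (l 3) (a (l 3) (a (b (l 3) (l 3)) (a (b (l 3) (l 3)) (b (b (a (l 3) (a (l 3) (b (b (l 6) (l 16961480)) (l 86604787527)))) (b (l 113986147799) (l 98417150999))) (a (l 3) (b (b (l 18174168) (l 18324728)) (l 118819835511)))))))), by decide +kernel⟩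

theorem c_pm_101 : CertN 536870912 536870912 0 536870912 67108864 67108864 3 true true false .npn 1 0 1
    ndN0q1 ndN2q0 pcN1 cut_pm_101 Ext.none :=
  certNK2 (fam := true) (s1 := true) (s2 := false) (a := 1) (b := 0) (c := 1) (cn := .npn) (n1 := ndN0q1) (n2 := ndN2q0) (pc := pcN1) (cut := cut_pm_101) (xt := Ext.none) (P1 := 536870912) (W1 := 536870912) (P2 := 0) (W2 := 536870912) (P3 := 67108864) (W3 := 67108864) (N0 := 3)
    rfl rfl rfl (fun _ => rfl) k0_pm_101

noncomputable def cut_pm_102 : Cut := Cut.of [[⟨0, 1, 0, 67108864⟩, ⟨1, 0, 0, 67108864⟩, ⟨2, 1, 0, 67108864⟩]]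

noncomputable def f_pm_102 : ℕ → ℕ → ℕ → ℕ → Bool := onCell 536870912 536870912 1073741824 536870912 67108864 67108864
    (rowNK 3 1 true true false .npp 1 0 2 (qsf 536870912 536870912 0 536870912 2) ndN0q1 ndN2q0 pcN2 cut_pm_102 Ext.none)

def k0_pm_102 : ∃ t, chk3 f_pm_102 t 1 1 1 = true :=
  ⟨(a (b (b (b (b (a (a (l 18536592) (l 18531824)) (a (l 18449392) (l 18297704))) (a (b (l 18618560) (l 18673592)) (b (l 18478848) (l 18549232)))) (a (b (l 18723928) (l 18791856)) (b (l 18625216) (l 18731112)))) (b (a (l 18802360) (l 18806168)) (a (l 2) (l 18800360)))) (b (a (l 2) (l 18692720)) (l 2))) (b (b (b (b (a (a (l 18078480) (l 17708136)) (a (a (l 17537840) (l 17207320)) (a (b (b (l 17011200) (l 17139160)) (l 17205456)) (b (l 6) (a (l 17056840) (l 6)))))) (a (b (a (l 18186640) (l 17908168)) (l 18143048)) (a (b (l 17569896) (l 17662584)) (b (a (l 17284664) (a (l 17161560) (l 17204800))) (a (l 17381512) (l 17315880)))))) (a (b (l 18264760) (l 18386736)) (a (b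 (l 17779224) (l 17946056)) (b (a (l 17507736) (l 17397352)) (l 17603400))))) (a (b (l 18527936) (l 18629984)) (b (a (l 18133360) (l 17806232)) (l 18179920)))) (b (a (l 18709680) (l 18470832)) (a (l 18640304) (l 18638696))))), by decide +kernel⟩

theorem c_pm_102 : CertN 536870912 536870912 0 536870912 67108864 67108864 3 true true false .npp 1 0 2
    ndN0q1 ndN2q0 pcN2 cut_pm_102 Ext.none :=
  certNK1 (fam := true) (s1 := true) (s2 := false) (a := 1) (b := 0) (c := 2) (cn := .npp) (n1 := ndN0q1) (n2 := ndN2q0) (pc := pcN2) (cut := cut_pm_102) (xt := Ext.none) (P1 := 536870912) (W1 := 536870912) (P2 := 0) (W2 := 536870912) (P3 := 67108864) (W3 := 67108864) (N0 := 3)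
    rfl rfl rfl (fun _ => rfl) k0_pm_102

noncomputable def f_pm_112 : ℕ → ℕ → ℕ → ℕ → Bool := onCell 1073741824 536870912 536870912 536870912 67108864 67108864
    (rowNK 3 2 true true false .dn 1 1 2 (qsf 536870912 536870912 536870912 536870912 2) ndN0q1 ndN2q1 pcN2 Cut.none Ext.none)

def k0_pm_112 : ∃ t, chk3 f_pm_112 t 1 1 1 = true :=
  ⟨(a (b (b (a (a (a (b (l 18559496) (l 1)) (l 30638977063)) (l 22048691527)) (a (l 17971848) (l 17735848))) (a (a (l 1) (b (l 18041768) (l 1))) (a (b (l 17727040) (l 17561792)) (b (l 17456312) (l 17413808))))) (a (l 1) (b (b (l 375309366151) (l 1)) (l 1)))) (a (b (b (a (l 17534000) (l 17395960)) (b (l 17098240) (l 17239104))) (b (b (l 17960992) (l 18843408)) (b (l 19662360) (l 1)))) (b (b (b (l 17929920) (l 17512360)) (b (l 17103144) (l 17156992))) (b (b (l 17888840) (l 18757112)) (b (l 19309656) (b (l 19546064) (l 19701192))))))), by decide +kernel⟩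

theorem c_pm_112 : CertN 536870912 536870912 536870912 536870912 67108864 67108864 3 true true false .dn 1 1 2
    ndN0q1 ndN2q1 pcN2 Cut.none Ext.none :=
  certNK2 (fam := true) (s1 := true) (s2 := false) (a := 1) (b := 1) (c := 2) (cn := .dn) (n1 := ndN0q1) (n2 := ndN2q1) (pc := pcN2) (cut := Cut.none) (xt := Ext.none) (P1 := 536870912) (W1 := 536870912) (P2 := 536870912) (W2 := 536870912) (P3 := 67108864) (W3 := 67108864) (N0 := 3)
    rfl rfl rfl (fun _ => rfl) k0_pm_112

noncomputable def f_pm_113 : ℕ → ℕ → ℕ → ℕ → Bool := onCell 1610612736 536870912 536870912 536870912 67108864 67108864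
    (rowNK 3 2 true true false .nn 1 1 3 (qsf 536870912 536870912 536870912 536870912 3) ndN0q1 ndN2q1 pcN3 Cut.none Ext.none)

def k0_pm_113 : ∃ t, chk3 f_pm_113 t 1 1 1 = true :=
  ⟨(a (b (a (b (a (l 18829368) (b (l 18801680) (l 18519752))) (a (l 18309792) (l 18028264))) (b (a (b (l 2) (a (l 18482560) (l 2))) (l 2)) (a (l 17824904) (b (l 18742928) (l 17529400))))) (a (b (a (b (l 17938096) (l 17778008)) (b (l 17591000) (l 17634720))) (b (a (l 18205792) (l 18067240)) (b (l 18617584) (l 18644952)))) (b (a (l 17630200) (b (l 17241672) (l 18015120))) (b (l 18365256) (b (l 18487632) (l 18561808)))))) (b (a (b (l 2) (b (l 2) (l 4))) (l 2)) (a (b (a (b (l 4) (l 17927592)) (l 4)) (b (l 18077096) (b (l 18245032) (l 18343328)))) (b (l 4) (l 4))))), by decide +kernel⟩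

theorem c_pm_113 : CertN 536870912 536870912 536870912 536870912 67108864 67108864 3 true true false .nn 1 1 3
    ndN0q1 ndN2q1 pcN3 Cut.none Ext.none :=
  certNK2 (fam := true) (s1 := true) (s2 := false) (a := 1) (b := 1) (c := 3) (cn := .nn) (n1 := ndN0q1) (n2 := ndN2q1) (pc := pcN3) (cut := Cut.none) (xt := Ext.none) (P1 := 536870912) (W1 := 536870912) (P2 := 536870912) (W2 := 536870912) (P3 := 67108864) (W3 := 67108864) (N0 := 3)
    rfl rfl rfl (fun _ => rfl) k0_pm_113

noncomputable def cut_pm_123_a : Cut := Cut.of [[⟨0, 1, 0, 21338704⟩, ⟨1, 1, 0, 21338704⟩, ⟨2, 2, 0, 1685920⟩]]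

noncomputable def f_pm_123_a : ℕ → ℕ → ℕ → ℕ → Bool := onCell 1610612736 536870912 0 536870912 67108864 67108864
    (rowNK 3 2 true true false .npn 1 2 3 (qsf 536870912 536870912 0 536870912 3) ndN0q1 ndN2q2a pcN3 cut_pm_123_a Ext.none)

def k0_pm_123_a : ∃ t, chk3 f_pm_123_a t 1 1 1 = true :=
  ⟨(a (b (a (b (l 1) (l 17754760)) (b (l 17483792) (l 17430256))) (b (a (a (l 1) (l 17451496)) (a (l 17325072) (l 17239736))) (a (b (a (l 17785880) (l 17634504)) (a (l 17986472) (l 17839168))) (b (a (l 17436264) (l 17304664)) (a (b (l 17582128) (l 17697952)) (l 17605832)))))) (b (a (b (l 17372640) (l 17465928)) (a (b (l 17180824) (l 17165296)) (a (l 17066008) (a (l 16948448) (a (l 16996576) (l 4)))))) (a (b (a (l 17223280) (l 17186856)) (b (a (l 17253184) (l 17239224)) (a (l 17337008) (b (l 16959192) (l 17125504))))) (b (a (l 17305272) (a (l 17100512) (a (l 17025440) (a (l 17029680) (a (l 16997904) (a (l 16995008) (l 4))))))) (b (a (b (l 17036200) (l 16997264)) (a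 (l 17121304) (a (l 17102672) (a (b (l 16845064) (l 16832360)) (a (b (l 16829216) (l 16815936)) (b (a (l 16806952) (l 4)) (a (l 16806064) (a (l 16811992) (l 4))))))))) (b (a (l 16962376) (a (l 16910808) (a (l 16859992) (a (l 16828040) (a (l 16812328) (a (l 16803728) (a (l 16795056) (l 16863408)))))))) (a (a (l 16927024) (l 17049864)) (b (a (l 16893384) (a (l 16849600) (a (l 16819744) (a (l 16802992) (a (l 16794384) (a (l 16791104) (l 16907248))))))) (a (b (l 16884248) (l 17080864)) (a (a (l 16983448) (l 16974912)) (a (a (l 16904696) (a (l 16879760) (l 16856048))) (a (a (l 16853224) (a (l 16830080) (l 16826000))) (a (b (l 16790440) (a (l 16815416) (b (l 16787032) (l 16804096)))) (a (a (b (l 16786760) (b (l 16784760) (l 16796392))) (l 6)) (l 6))))))))))))))), by decide +kernel⟩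

theorem c_pm_123_a : CertN 536870912 536870912 0 536870912 67108864 67108864 3 true true false .npn 1 2 3
    ndN0q1 ndN2q2a pcN3 cut_pm_123_a Ext.none :=
  certNK2 (fam := true) (s1 := true) (s2 := false) (a := 1) (b := 2) (c := 3) (cn := .npn) (n1 := ndN0q1) (n2 := ndN2q2a) (pc := pcN3) (cut := cut_pm_123_a) (xt := Ext.none) (P1 := 536870912) (W1 := 536870912) (P2 := 0) (W2 := 536870912) (P3 := 67108864) (W3 := 67108864) (N0 := 3)
    rfl rfl rfl (fun _ => rfl) k0_pm_123_a

noncomputable def cut_pm_123_b : Cut := Cut.of [[⟨0, 1, 0, 21338704⟩, ⟨1, 1, 0, 21338704⟩, ⟨2, 2, 0, 1685920⟩]]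

noncomputable def f_pm_123_b : ℕ → ℕ → ℕ → ℕ → Bool := onCell 1610612736 536870912 1239849684 370763052 67108864 67108864
    (rowNK 3 2 true true false .npn 1 2 3 (qsf 536870912 536870912 1239849684 370763052 3) ndN0q1 ndN2q2b pcN3 cut_pm_123_b Ext.none)

def k0_pm_123_b : ∃ t, chk3 f_pm_123_b t 1 1 1 = true :=
  ⟨(a (b (a (l 1) (b (a (l 17588688) (l 17501352)) (a (l 1) (l 17600760)))) (l 1)) (a (b (a (b (l 17428280) (l 17485664)) (b (l 17322296) (l 17286120))) (a (l 1) (b (l 17268688) (l 1)))) (a (b (b (l 17328736) (l 17055568)) (b (l 17057664) (l 17130032))) (b (a (b (l 16947688) (l 16937768)) (a (l 16979816) (a (l 16927224) (l 4)))) (a (l 16953064) (l 4)))))), by decide +kernel⟩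

theorem c_pm_123_b : CertN 536870912 536870912 1239849684 370763052 67108864 67108864 3 true true false .npn 1 2 3
    ndN0q1 ndN2q2b pcN3 cut_pm_123_b Ext.none :=
  certNK2 (fam := true) (s1 := true) (s2 := false) (a := 1) (b := 2) (c := 3) (cn := .npn) (n1 := ndN0q1) (n2 := ndN2q2b) (pc := pcN3) (cut := cut_pm_123_b) (xt := Ext.none) (P1 := 536870912) (W1 := 536870912) (P2 := 1239849684) (W2 := 370763052) (P3 := 67108864) (W3 := 67108864) (N0 := 3)
    rfl rfl rfl (fun _ => rfl) k0_pm_123_b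

noncomputable def f_pm_133 : ℕ → ℕ → ℕ → ℕ → Bool := onCell 536870912 536870912 1610612736 536870912 67108864 67108864
    (rowNK 3 0 true true false .dn 1 3 3 (qsf 536870912 536870912 1610612736 536870912 3) ndN0q1 ndN2q3 pcN3 Cut.none Ext.none)

def k0_pm_133 : ∃ t, chk3 f_pm_133 t 1 1 1 = true :=
  ⟨(a (l 4) (l 2)), by decide +kernel⟩

theorem c_pm_133 : CertN 536870912 536870912 1610612736 536870912 67108864 67108864 3 true true false .dn 1 3 3
    ndN0q1 ndN2q3 pcN3 Cut.none Ext.none :=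
  certNK0 (fam := true) (s1 := true) (s2 := false) (a := 1) (b := 3) (c := 3) (cn := .dn) (n1 := ndN0q1) (n2 := ndN2q3) (pc := pcN3) (cut := Cut.none) (xt := Ext.none) (P1 := 536870912) (W1 := 536870912) (P2 := 1610612736) (W2 := 536870912) (P3 := 67108864) (W3 := 67108864) (N0 := 3)
    rfl rfl rfl k0_pm_133

noncomputable def cut_pm_202 : Cut := Cut.of [[⟨0, 1, 0, 67108864⟩, ⟨1, 0, 0, 67108864⟩, ⟨2, 1, 0, 67108864⟩]]

noncomputable def f_pm_202 : ℕ → ℕ → ℕ → ℕ → Bool := onCell 0 536870912 0 536870912 67108864 67108864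
    (rowNK 3 0 true true false .pp 2 0 2 (qsf 0 536870912 0 536870912 2) ndN0q2 ndN2q0 pcN2 cut_pm_202 Ext.none)

def k0_pm_202 : ∃ t, chk3 f_pm_202 t 1 1 1 = true :=
  ⟨(a (b (b (b (b (a (b (a (l 18160184) (l 17970880)) (l 18092752)) (b (a (b (a (l 17879880) (l 17791192)) (l 18010904)) (b (c (l 18194688) (a (l 17411120) (l 17166704))) (l 17802872))) (a (l 18005800) (l 17847272)))) (a (l 17999904) (l 17912712))) (a (l 17778088) (l 17793424))) (b (l 17587240) (l 17747976))) (b (b (l 18007208) (l 18182408)) (l 389335474311))) (b (a (b (b (b (a (b (b (a (c (l 17951032) (l 16853712)) (b (c (l 17487416) (l 16693024)) (l 17177680))) (l 17356976)) (l 17552248)) (b (b (a (b (l 16685112) (l 16763680)) (a (l 16688528) (b (l 16699680) (l 16652912)))) (l 16726680)) (l 16824064))) (a (l 17698064) (l 17394096))) (b (l 17691352) (l 17719360))) (b (l 17675096) (l 17755176))) (b (a (b (b (b (a (b (b (a (l 16701376) (l 16716064)) (l 16701864)) (l 16738056)) (b (a (b (l 6)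 (l 16707952)) (l 6)) (b (l 16803592) (l 16781592)))) (a (l 16779016) (l 16936472))) (b (a (l 16836888) (l 16877264)) (l 17046336))) (b (l 17417200) (l 17639760))) (b (a (b (b (l 6) (a (b (l 6) (l 16845800)) (l 6))) (b (l 16998512) (l 17030312))) (b (l 6) (b (b (l 6) (l 17119880)) (l 17195224)))) (b (a (l 17216176) (l 17309944)) (l 17576296)))) (b (a (l 17712104) (l 17713480)) (l 17819008)))) (b (a (l 18164032) (l 18408864)) (a (l 18631184) (l 18525688))))), by decide +kernel⟩

theorem c_pm_202 : CertN 0 536870912 0 536870912 67108864 67108864 3 true true false .pp 2 0 2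
    ndN0q2 ndN2q0 pcN2 cut_pm_202 Ext.none :=
  certNK0 (fam := true) (s1 := true) (s2 := false) (a := 2) (b := 0) (c := 2) (cn := .pp) (n1 := ndN0q2) (n2 := ndN2q0) (pc := pcN2) (cut := cut_pm_202) (xt := Ext.none) (P1 := 0) (W1 := 536870912) (P2 := 0) (W2 := 536870912) (P3 := 67108864) (W3 := 67108864) (N0 := 3)
    rfl rfl rfl k0_pm_202

noncomputable def f_pm_203 : ℕ → ℕ → ℕ → ℕ → Bool := onCell 0 536870912 1610612736 536870912 67108864 67108864
    (rowNK 3 1 true true false .up 2 0 3 (qsf 0 536870912 0 536870912 3) ndN0q2 ndN2q0 pcN3 Cut.none Ext.none)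

def k0_pm_203 : ∃ t, chk3 f_pm_203 t 1 1 1 = true :=
  ⟨(b (b (a (b (l 18240568) (l 4)) (b (l 18132008) (l 18293840))) (a (l 4) (b (l 18254536) (l 2)))) (l 2)), by decide +kernel⟩

theorem c_pm_203 : CertN 0 536870912 0 536870912 67108864 67108864 3 true true false .up 2 0 3
    ndN0q2 ndN2q0 pcN3 Cut.none Ext.none :=
  certNK1 (fam := true) (s1 := true) (s2 := false) (a := 2) (b := 0) (c := 3) (cn := .up) (n1 := ndN0q2) (n2 := ndN2q0) (pc := pcN3) (cut := Cut.none) (xt := Ext.none) (P1 := 0) (W1 := 536870912) (P2 := 0) (W2 := 536870912) (P3 := 67108864) (W3 := 67108864) (N0 := 3)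
    rfl rfl rfl (fun _ => rfl) k0_pm_203

noncomputable def f_pm_213 : ℕ → ℕ → ℕ → ℕ → Bool := onCell 0 536870912 1610612736 536870912 67108864 67108864
    (rowNK 3 1 true true false .pnn 2 1 3 (qsf 0 536870912 536870912 536870912 3) ndN0q2 ndN2q1 pcN3 Cut.none Ext.none)

def k0_pm_213 : ∃ t, chk3 f_pm_213 t 1 1 1 = true :=
  ⟨(b (b (a (b (l 1) (l 4)) (b (l 18763336) (l 18537880))) (a (l 4) (b (l 18324152) (l 4)))) (l 4)), by decide +kernel⟩

theorem c_pm_213 : CertN 0 536870912 536870912 536870912 67108864 67108864 3 true true false .pnn 2 1 3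
    ndN0q2 ndN2q1 pcN3 Cut.none Ext.none :=
  certNK1 (fam := true) (s1 := true) (s2 := false) (a := 2) (b := 1) (c := 3) (cn := .pnn) (n1 := ndN0q2) (n2 := ndN2q1) (pc := pcN3) (cut := Cut.none) (xt := Ext.none) (P1 := 0) (W1 := 536870912) (P2 := 536870912) (W2 := 536870912) (P3 := 67108864) (W3 := 67108864) (N0 := 3)
    rfl rfl rfl (fun _ => rfl) k0_pm_213

noncomputable def f_mm_001 : ℕ → ℕ → ℕ → ℕ → Bool := onCell 0 536870912 0 536870912 67108864 67108864
    (rowNK 3 0 true false false .up 0 0 1 (qsf 0 536870912 0 536870912 1) ndN0q0 ndN2q0 pcN1 Cut.none Ext.none)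

def k0_mm_001 : ∃ t, chk3 f_mm_001 t 1 1 1 = true :=
  ⟨(l 4), by decide +kernel⟩

theorem c_mm_001 : CertN 0 536870912 0 536870912 67108864 67108864 3 true false false .up 0 0 1
    ndN0q0 ndN2q0 pcN1 Cut.none Ext.none :=
  certNK0 (fam := true) (s1 := false) (s2 := false) (a := 0) (b := 0) (c := 1) (cn := .up) (n1 := ndN0q0) (n2 := ndN2q0) (pc := pcN1) (cut := Cut.none) (xt := Ext.none) (P1 := 0) (W1 := 536870912) (P2 := 0) (W2 := 536870912) (P3 := 67108864) (W3 := 67108864) (N0 := 3)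
    rfl rfl rfl k0_mm_001

noncomputable def f_mm_011 : ℕ → ℕ → ℕ → ℕ → Bool := onCell 0 536870912 536870912 536870912 67108864 67108864
    (rowNK 3 0 true false false .pnn 0 1 1 (qsf 0 536870912 536870912 536870912 1) ndN0q0 ndN2q1 pcN1 Cut.none Ext.none)

def k0_mm_011 : ∃ t, chk3 f_mm_011 t 1 1 1 = true :=
  ⟨(l 4), by decide +kernel⟩

theorem c_mm_011 : CertN 0 536870912 536870912 536870912 67108864 67108864 3 true false false .pnn 0 1 1
    ndN0q0 ndN2q1 pcN1 Cut.none Ext.none :=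
  certNK0 (fam := true) (s1 := false) (s2 := false) (a := 0) (b := 1) (c := 1) (cn := .pnn) (n1 := ndN0q0) (n2 := ndN2q1) (pc := pcN1) (cut := Cut.none) (xt := Ext.none) (P1 := 0) (W1 := 536870912) (P2 := 536870912) (W2 := 536870912) (P3 := 67108864) (W3 := 67108864) (N0 := 3)
    rfl rfl rfl k0_mm_011

noncomputable def f_mm_012 : ℕ → ℕ → ℕ → ℕ → Bool := onCell 0 536870912 536870912 536870912 67108864 67108864
    (rowNK 3 0 true false false .pnp 0 1 2 (qsf 0 536870912 536870912 536870912 2) ndN0q0 ndN2q1 pcN2 Cut.none Ext.none)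

def k0_mm_012 : ∃ t, chk3 f_mm_012 t 1 1 1 = true :=
  ⟨(l 4), by decide +kernel⟩

theorem c_mm_012 : CertN 0 536870912 536870912 536870912 67108864 67108864 3 true false false .pnp 0 1 2
    ndN0q0 ndN2q1 pcN2 Cut.none Ext.none :=
  certNK0 (fam := true) (s1 := false) (s2 := false) (a := 0) (b := 1) (c := 2) (cn := .pnp) (n1 := ndN0q0) (n2 := ndN2q1) (pc := pcN2) (cut := Cut.none) (xt := Ext.none) (P1 := 0) (W1 := 536870912) (P2 := 536870912) (W2 := 536870912) (P3 := 67108864) (W3 := 67108864) (N0 := 3)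
    rfl rfl rfl k0_mm_012

noncomputable def f_mm_022_a : ℕ → ℕ → ℕ → ℕ → Bool := onCell 0 536870912 0 536870912 67108864 67108864
    (rowNK 3 0 true false false .pp 0 2 2 (qsf 0 536870912 0 536870912 2) ndN0q0 ndN2q2a pcN2 Cut.none Ext.none)

def k0_mm_022_a : ∃ t, chk3 f_mm_022_a t 1 1 1 = true :=
  ⟨(l 5), by decide +kernel⟩

theorem c_mm_022_a : CertN 0 536870912 0 536870912 67108864 67108864 3 true false false .pp 0 2 2
    ndN0q0 ndN2q2a pcN2 Cut.none Ext.none :=
  certNK0 (fam := true) (s1 := false) (s2 := false) (a := 0) (b := 2) (c := 2) (cn := .pp) (n1 := ndN0q0) (n2 := ndN2q2a) (pc := pcN2) (cut := Cut.none) (xt := Ext.none) (P1 := 0) (W1 := 536870912) (P2 := 0) (W2 := 536870912) (P3 := 67108864) (W3 := 67108864) (N0 := 3)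
    rfl rfl rfl k0_mm_022_a

noncomputable def f_mm_022_b : ℕ → ℕ → ℕ → ℕ → Bool := onCell 0 536870912 1239849684 370763052 67108864 67108864
    (rowNK 3 0 true false false .pp 0 2 2 (qsf 0 536870912 1239849684 370763052 2) ndN0q0 ndN2q2b pcN2 Cut.none Ext.none)

def k0_mm_022_b : ∃ t, chk3 f_mm_022_b t 1 1 1 = true :=
  ⟨(l 4), by decide +kernel⟩

theorem c_mm_022_b : CertN 0 536870912 1239849684 370763052 67108864 67108864 3 true false false .pp 0 2 2
    ndN0q0 ndN2q2b pcN2 Cut.none Ext.none :=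
  certNK0 (fam := true) (s1 := false) (s2 := false) (a := 0) (b := 2) (c := 2) (cn := .pp) (n1 := ndN0q0) (n2 := ndN2q2b) (pc := pcN2) (cut := Cut.none) (xt := Ext.none) (P1 := 0) (W1 := 536870912) (P2 := 1239849684) (W2 := 370763052) (P3 := 67108864) (W3 := 67108864) (N0 := 3)
    rfl rfl rfl k0_mm_022_b

noncomputable def f_mm_023_a : ℕ → ℕ → ℕ → ℕ → Bool := onCell 0 536870912 0 536870912 67108864 67108864
    (rowNK 3 0 true false false .up 0 2 3 (qsf 0 536870912 0 536870912 3) ndN0q0 ndN2q2a pcN3 Cut.none Ext.none)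

def k0_mm_023_a : ∃ t, chk3 f_mm_023_a t 1 1 1 = true :=
  ⟨(l 5), by decide +kernel⟩

theorem c_mm_023_a : CertN 0 536870912 0 536870912 67108864 67108864 3 true false false .up 0 2 3
    ndN0q0 ndN2q2a pcN3 Cut.none Ext.none :=
  certNK0 (fam := true) (s1 := false) (s2 := false) (a := 0) (b := 2) (c := 3) (cn := .up) (n1 := ndN0q0) (n2 := ndN2q2a) (pc := pcN3) (cut := Cut.none) (xt := Ext.none) (P1 := 0) (W1 := 536870912) (P2 := 0) (W2 := 536870912) (P3 := 67108864) (W3 := 67108864) (N0 := 3)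
    rfl rfl rfl k0_mm_023_a

noncomputable def f_mm_023_b : ℕ → ℕ → ℕ → ℕ → Bool := onCell 0 536870912 1239849684 370763052 67108864 67108864
    (rowNK 3 0 true false false .up 0 2 3 (qsf 0 536870912 1239849684 370763052 3) ndN0q0 ndN2q2b pcN3 Cut.none Ext.none)

def k0_mm_023_b : ∃ t, chk3 f_mm_023_b t 1 1 1 = true :=
  ⟨(l 4), by decide +kernel⟩

theorem c_mm_023_b : CertN 0 536870912 1239849684 370763052 67108864 67108864 3 true false false .up 0 2 3
    ndN0q0 ndN2q2b pcN3 Cut.none Ext.none :=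
  certNK0 (fam := true) (s1 := false) (s2 := false) (a := 0) (b := 2) (c := 3) (cn := .up) (n1 := ndN0q0) (n2 := ndN2q2b) (pc := pcN3) (cut := Cut.none) (xt := Ext.none) (P1 := 0) (W1 := 536870912) (P2 := 1239849684) (W2 := 370763052) (P3 := 67108864) (W3 := 67108864) (N0 := 3)
    rfl rfl rfl k0_mm_023_b

noncomputable def f_mm_033 : ℕ → ℕ → ℕ → ℕ → Bool := onCell 0 536870912 1610612736 536870912 67108864 67108864
    (rowNK 3 0 true false false .pnn 0 3 3 (qsf 0 536870912 1610612736 536870912 3) ndN0q0 ndN2q3 pcN3 Cut.none Ext.none)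

def k0_mm_033 : ∃ t, chk3 f_mm_033 t 1 1 1 = true :=
  ⟨(l 4), by decide +kernel⟩

theorem c_mm_033 : CertN 0 536870912 1610612736 536870912 67108864 67108864 3 true false false .pnn 0 3 3
    ndN0q0 ndN2q3 pcN3 Cut.none Ext.none :=
  certNK0 (fam := true) (s1 := false) (s2 := false) (a := 0) (b := 3) (c := 3) (cn := .pnn) (n1 := ndN0q0) (n2 := ndN2q3) (pc := pcN3) (cut := Cut.none) (xt := Ext.none) (P1 := 0) (W1 := 536870912) (P2 := 1610612736) (W2 := 536870912) (P3 := 67108864) (W3 := 67108864) (N0 := 3)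
    rfl rfl rfl k0_mm_033

noncomputable def cut_mm_101 : Cut := Cut.of [[⟨0, 1, 0, 67108864⟩, ⟨1, 0, 0, 67108864⟩, ⟨2, 1, 0, 67108864⟩]]

noncomputable def f_mm_101 : ℕ → ℕ → ℕ → ℕ → Bool := onCell 536870912 536870912 0 536870912 67108864 67108864
    (rowNK 3 0 true false false .npn 1 0 1 (qsf 536870912 536870912 0 536870912 1) ndN0q1 ndN2q0 pcN1 cut_mm_101 Ext.none)

def k0_mm_101 : ∃ t, chk3 f_mm_101 t 1 1 1 = true :=
  ⟨(a (l 4) (b (a (l 4) (b (a (l 4) (a (l 4) (b (b (l 6) (l 4)) (l 2)))) (l 4))) (l 4))), by decide +kernel⟩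

theorem c_mm_101 : CertN 536870912 536870912 0 536870912 67108864 67108864 3 true false false .npn 1 0 1
    ndN0q1 ndN2q0 pcN1 cut_mm_101 Ext.none :=
  certNK0 (fam := true) (s1 := false) (s2 := false) (a := 1) (b := 0) (c := 1) (cn := .npn) (n1 := ndN0q1) (n2 := ndN2q0) (pc := pcN1) (cut := cut_mm_101) (xt := Ext.none) (P1 := 536870912) (W1 := 536870912) (P2 := 0) (W2 := 536870912) (P3 := 67108864) (W3 := 67108864) (N0 := 3)
    rfl rfl rfl k0_mm_101

noncomputable def cut_mm_102 : Cut := Cut.of [[⟨0, 1, 0, 67108864⟩, ⟨1, 0, 0, 67108864⟩, ⟨2, 1, 0, 67108864⟩]]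

noncomputable def f_mm_102 : ℕ → ℕ → ℕ → ℕ → Bool := onCell 536870912 536870912 0 536870912 67108864 67108864
    (rowNK 3 0 true false false .npp 1 0 2 (qsf 536870912 536870912 0 536870912 2) ndN0q1 ndN2q0 pcN2 cut_mm_102 Ext.none)

def k0_mm_102 : ∃ t, chk3 f_mm_102 t 1 1 1 = true :=
  ⟨(a (l 4) (b (a (l 4) (b (a (l 4) (a (l 4) (b (b (l 6) (l 4)) (l 4)))) (l 4))) (l 4))), by decide +kernel⟩

theorem c_mm_102 : CertN 536870912 536870912 0 536870912 67108864 67108864 3 true false false .npp 1 0 2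
    ndN0q1 ndN2q0 pcN2 cut_mm_102 Ext.none :=
  certNK0 (fam := true) (s1 := false) (s2 := false) (a := 1) (b := 0) (c := 2) (cn := .npp) (n1 := ndN0q1) (n2 := ndN2q0) (pc := pcN2) (cut := cut_mm_102) (xt := Ext.none) (P1 := 536870912) (W1 := 536870912) (P2 := 0) (W2 := 536870912) (P3 := 67108864) (W3 := 67108864) (N0 := 3)
    rfl rfl rfl k0_mm_102

noncomputable def f_mm_112 : ℕ → ℕ → ℕ → ℕ → Bool := onCell 536870912 536870912 536870912 536870912 67108864 67108864
    (rowNK 3 0 true false false .dn 1 1 2 (qsf 536870912 536870912 536870912 536870912 2) ndN0q1 ndN2q1 pcN2 Cut.none Ext.none)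

def k0_mm_112 : ∃ t, chk3 f_mm_112 t 1 1 1 = true :=
  ⟨(l 4), by decide +kernel⟩

theorem c_mm_112 : CertN 536870912 536870912 536870912 536870912 67108864 67108864 3 true false false .dn 1 1 2
    ndN0q1 ndN2q1 pcN2 Cut.none Ext.none :=
  certNK0 (fam := true) (s1 := false) (s2 := false) (a := 1) (b := 1) (c := 2) (cn := .dn) (n1 := ndN0q1) (n2 := ndN2q1) (pc := pcN2) (cut := Cut.none) (xt := Ext.none) (P1 := 536870912) (W1 := 536870912) (P2 := 536870912) (W2 := 536870912) (P3 := 67108864) (W3 := 67108864) (N0 := 3)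
    rfl rfl rfl k0_mm_112

noncomputable def f_mm_113 : ℕ → ℕ → ℕ → ℕ → Bool := onCell 536870912 536870912 536870912 536870912 67108864 67108864
    (rowNK 3 0 true false false .nn 1 1 3 (qsf 536870912 536870912 536870912 536870912 3) ndN0q1 ndN2q1 pcN3 Cut.none Ext.none)

def k0_mm_113 : ∃ t, chk3 f_mm_113 t 1 1 1 = true :=
  ⟨(l 4), by decide +kernel⟩

theorem c_mm_113 : CertN 536870912 536870912 536870912 536870912 67108864 67108864 3 true false false .nn 1 1 3
    ndN0q1 ndN2q1 pcN3 Cut.none Ext.none :=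
  certNK0 (fam := true) (s1 := false) (s2 := false) (a := 1) (b := 1) (c := 3) (cn := .nn) (n1 := ndN0q1) (n2 := ndN2q1) (pc := pcN3) (cut := Cut.none) (xt := Ext.none) (P1 := 536870912) (W1 := 536870912) (P2 := 536870912) (W2 := 536870912) (P3 := 67108864) (W3 := 67108864) (N0 := 3)
    rfl rfl rfl k0_mm_113

noncomputable def f_mm_123_a : ℕ → ℕ → ℕ → ℕ → Bool := onCell 536870912 536870912 0 536870912 67108864 67108864
    (rowNK 3 0 true false false .npn 1 2 3 (qsf 536870912 536870912 0 536870912 3) ndN0q1 ndN2q2a pcN3 Cut.none Ext.none)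

def k0_mm_123_a : ∃ t, chk3 f_mm_123_a t 1 1 1 = true :=
  ⟨(l 4), by decide +kernel⟩

theorem c_mm_123_a : CertN 536870912 536870912 0 536870912 67108864 67108864 3 true false false .npn 1 2 3
    ndN0q1 ndN2q2a pcN3 Cut.none Ext.none :=
  certNK0 (fam := true) (s1 := false) (s2 := false) (a := 1) (b := 2) (c := 3) (cn := .npn) (n1 := ndN0q1) (n2 := ndN2q2a) (pc := pcN3) (cut := Cut.none) (xt := Ext.none) (P1 := 536870912) (W1 := 536870912) (P2 := 0) (W2 := 536870912) (P3 := 67108864) (W3 := 67108864) (N0 := 3)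
    rfl rfl rfl k0_mm_123_a

noncomputable def f_mm_123_b : ℕ → ℕ → ℕ → ℕ → Bool := onCell 536870912 536870912 1239849684 370763052 67108864 67108864
    (rowNK 3 0 true false false .npn 1 2 3 (qsf 536870912 536870912 1239849684 370763052 3) ndN0q1 ndN2q2b pcN3 Cut.none Ext.none)

def k0_mm_123_b : ∃ t, chk3 f_mm_123_b t 1 1 1 = true :=
  ⟨(l 4), by decide +kernel⟩

theorem c_mm_123_b : CertN 536870912 536870912 1239849684 370763052 67108864 67108864 3 true false false .npn 1 2 3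
    ndN0q1 ndN2q2b pcN3 Cut.none Ext.none :=
  certNK0 (fam := true) (s1 := false) (s2 := false) (a := 1) (b := 2) (c := 3) (cn := .npn) (n1 := ndN0q1) (n2 := ndN2q2b) (pc := pcN3) (cut := Cut.none) (xt := Ext.none) (P1 := 536870912) (W1 := 536870912) (P2 := 1239849684) (W2 := 370763052) (P3 := 67108864) (W3 := 67108864) (N0 := 3)
    rfl rfl rfl k0_mm_123_b

noncomputable def f_mm_133 : ℕ → ℕ → ℕ → ℕ → Bool := onCell 536870912 536870912 1610612736 536870912 67108864 67108864
    (rowNK 3 0 true false false .dn 1 3 3 (qsf 536870912 536870912 1610612736 536870912 3) ndN0q1 ndN2q3 pcN3 Cut.none Ext.none)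

def k0_mm_133 : ∃ t, chk3 f_mm_133 t 1 1 1 = true :=
  ⟨(l 4), by decide +kernel⟩

theorem c_mm_133 : CertN 536870912 536870912 1610612736 536870912 67108864 67108864 3 true false false .dn 1 3 3
    ndN0q1 ndN2q3 pcN3 Cut.none Ext.none :=
  certNK0 (fam := true) (s1 := false) (s2 := false) (a := 1) (b := 3) (c := 3) (cn := .dn) (n1 := ndN0q1) (n2 := ndN2q3) (pc := pcN3) (cut := Cut.none) (xt := Ext.none) (P1 := 536870912) (W1 := 536870912) (P2 := 1610612736) (W2 := 536870912) (P3 := 67108864) (W3 := 67108864) (N0 := 3)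
    rfl rfl rfl k0_mm_133

noncomputable def cut_mm_202 : Cut := Cut.of [[⟨0, 1, 0, 67108864⟩, ⟨1, 0, 0, 67108864⟩, ⟨2, 1, 0, 67108864⟩]]

noncomputable def f_mm_202 : ℕ → ℕ → ℕ → ℕ → Bool := onCell 0 536870912 0 536870912 67108864 67108864
    (rowNK 3 0 true false false .pp 2 0 2 (qsf 0 536870912 0 536870912 2) ndN0q2 ndN2q0 pcN2 cut_mm_202 Ext.none)

def k0_mm_202 : ∃ t, chk3 f_mm_202 t 1 1 1 = true :=
  ⟨(b (a (b (b (a (b (b (a (l 18150800) (l 17919656)) (l 18060952)) (l 17947648)) (b (b (b (a (c (l 18361240) (l 17367680)) (c (l 18161744) (a (l 17357608) (l 17061120)))) (a (l 17951128) (l 17733160))) (l 17763232)) (l 17743152))) (a (l 17693656) (l 17693192))) (b (a (l 17502856) (l 17483280)) (l 17928568))) (b (a (b (a (b (b (b (a (c (l 17918816) (l 16742384)) (c (a (l 17746272) (l 17373192)) (l 16694744))) (l 17234688)) (l 17431936)) (l 17453544)) (b (b (b (a (b (l 16716280) (l 16765552)) (b (a (l 16699544) (l 16703128)) (l 16673496))) (l 16683016)) (a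 (l 17095648) (l 16788720))) (b (l 17117168) (l 17191856)))) (b (l 17358688) (l 17287184))) (b (a (a (b (b (b (b (a (l 16728312) (b (l 16719016) (l 16705424))) (l 16703144)) (l 16681264)) (l 16835088)) (l 17052248)) (b (a (b (b (b (l 6) (l 16690488)) (l 16717152)) (l 16831224)) (b (b (l 6) (l 16724696)) (l 16850928))) (l 16998752))) (b (a (b (l 6) (b (l 6) (l 4))) (l 6)) (l 4))) (l 4))) (l 4))) (a (l 4) (l 4))), by decide +kernel⟩

theorem c_mm_202 : CertN 0 536870912 0 536870912 67108864 67108864 3 true false false .pp 2 0 2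
    ndN0q2 ndN2q0 pcN2 cut_mm_202 Ext.none :=
  certNK0 (fam := true) (s1 := false) (s2 := false) (a := 2) (b := 0) (c := 2) (cn := .pp) (n1 := ndN0q2) (n2 := ndN2q0) (pc := pcN2) (cut := cut_mm_202) (xt := Ext.none) (P1 := 0) (W1 := 536870912) (P2 := 0) (W2 := 536870912) (P3 := 67108864) (W3 := 67108864) (N0 := 3)
    rfl rfl rfl k0_mm_202

noncomputable def f_mm_203 : ℕ → ℕ → ℕ → ℕ → Bool := onCell 0 536870912 1610612736 536870912 67108864 67108864
    (rowNK 3 1 true false false .up 2 0 3 (qsf 0 536870912 0 536870912 3) ndN0q2 ndN2q0 pcN3 Cut.none Ext.none)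

def k0_mm_203 : ∃ t, chk3 f_mm_203 t 1 1 1 = true :=
  ⟨(l 4), by decide +kernel⟩

theorem c_mm_203 : CertN 0 536870912 0 536870912 67108864 67108864 3 true false false .up 2 0 3
    ndN0q2 ndN2q0 pcN3 Cut.none Ext.none :=
  certNK1 (fam := true) (s1 := false) (s2 := false) (a := 2) (b := 0) (c := 3) (cn := .up) (n1 := ndN0q2) (n2 := ndN2q0) (pc := pcN3) (cut := Cut.none) (xt := Ext.none) (P1 := 0) (W1 := 536870912) (P2 := 0) (W2 := 536870912) (P3 := 67108864) (W3 := 67108864) (N0 := 3)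
    rfl rfl rfl (fun _ => rfl) k0_mm_203

noncomputable def f_mm_213 : ℕ → ℕ → ℕ → ℕ → Bool := onCell 0 536870912 536870912 536870912 67108864 67108864
    (rowNK 3 0 true false false .pnn 2 1 3 (qsf 0 536870912 536870912 536870912 3) ndN0q2 ndN2q1 pcN3 Cut.none Ext.none)

def k0_mm_213 : ∃ t, chk3 f_mm_213 t 1 1 1 = true :=
  ⟨(l 4), by decide +kernel⟩

theorem c_mm_213 : CertN 0 536870912 536870912 536870912 67108864 67108864 3 true false false .pnn 2 1 3
    ndN0q2 ndN2q1 pcN3 Cut.none Ext.none :=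
  certNK0 (fam := true) (s1 := false) (s2 := false) (a := 2) (b := 1) (c := 3) (cn := .pnn) (n1 := ndN0q2) (n2 := ndN2q1) (pc := pcN3) (cut := Cut.none) (xt := Ext.none) (P1 := 0) (W1 := 536870912) (P2 := 536870912) (W2 := 536870912) (P3 := 67108864) (W3 := 67108864) (N0 := 3)
    rfl rfl rfl k0_mm_213

end Pool.Agent.Strip051.G.I1_16_1_8.Tab.C.NA02

namespace Pool.Agent.Strip051.G.I1_16_1_8.Tab.C.NA03

open Pool.Agent.Strip051.PB Pool.Agent.Strip051.PB.T
open Pool.Agent.Strip051.G.I1_16_1_8.Tab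

noncomputable def f_pp_001 : ℕ → ℕ → ℕ → ℕ → Bool := onCell 0 536870912 0 536870912 67108864 67108864
    (rowNK 3 0 true true true .up 0 0 1 (qsf 0 536870912 0 536870912 1) ndN0q0 ndN3q0 pcN1 Cut.none Ext.none)

def k0_pp_001 : ∃ t, chk3 f_pp_001 t 1 1 1 = true :=
  ⟨(l 4), by decide +kernel⟩

theorem c_pp_001 : CertN 0 536870912 0 536870912 67108864 67108864 3 true true true .up 0 0 1
    ndN0q0 ndN3q0 pcN1 Cut.none Ext.none :=
  certNK0 (fam := true) (s1 := true) (s2 := true) (a := 0) (b := 0) (c := 1) (cn := .up) (n1 := ndN0q0) (n2 := ndN3q0) (pc := pcN1) (cut := Cut.none) (xt := Ext.none) (P1 := 0) (W1 := 536870912) (P2 := 0) (W2 := 536870912) (P3 := 67108864) (W3 := 67108864) (N0 := 3)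
    rfl rfl rfl k0_pp_001

noncomputable def f_pp_011 : ℕ → ℕ → ℕ → ℕ → Bool := onCell 0 536870912 536870912 536870912 67108864 67108864
    (rowNK 3 0 true true true .pnn 0 1 1 (qsf 0 536870912 536870912 536870912 1) ndN0q0 ndN3q1 pcN1 Cut.none Ext.none)

def k0_pp_011 : ∃ t, chk3 f_pp_011 t 1 1 1 = true :=
  ⟨(l 4), by decide +kernel⟩

theorem c_pp_011 : CertN 0 536870912 536870912 536870912 67108864 67108864 3 true true true .pnn 0 1 1
    ndN0q0 ndN3q1 pcN1 Cut.none Ext.none :=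
  certNK0 (fam := true) (s1 := true) (s2 := true) (a := 0) (b := 1) (c := 1) (cn := .pnn) (n1 := ndN0q0) (n2 := ndN3q1) (pc := pcN1) (cut := Cut.none) (xt := Ext.none) (P1 := 0) (W1 := 536870912) (P2 := 536870912) (W2 := 536870912) (P3 := 67108864) (W3 := 67108864) (N0 := 3)
    rfl rfl rfl k0_pp_011

noncomputable def f_pp_012 : ℕ → ℕ → ℕ → ℕ → Bool := onCell 0 536870912 536870912 536870912 67108864 67108864
    (rowNK 3 0 true true true .pnp 0 1 2 (qsf 0 536870912 536870912 536870912 2) ndN0q0 ndN3q1 pcN2 Cut.none Ext.none)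

def k0_pp_012 : ∃ t, chk3 f_pp_012 t 1 1 1 = true :=
  ⟨(l 4), by decide +kernel⟩

theorem c_pp_012 : CertN 0 536870912 536870912 536870912 67108864 67108864 3 true true true .pnp 0 1 2
    ndN0q0 ndN3q1 pcN2 Cut.none Ext.none :=
  certNK0 (fam := true) (s1 := true) (s2 := true) (a := 0) (b := 1) (c := 2) (cn := .pnp) (n1 := ndN0q0) (n2 := ndN3q1) (pc := pcN2) (cut := Cut.none) (xt := Ext.none) (P1 := 0) (W1 := 536870912) (P2 := 536870912) (W2 := 536870912) (P3 := 67108864) (W3 := 67108864) (N0 := 3)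
    rfl rfl rfl k0_pp_012

noncomputable def f_pp_022 : ℕ → ℕ → ℕ → ℕ → Bool := onCell 0 536870912 1073741824 536870912 67108864 67108864
    (rowNK 3 0 true true true .pp 0 2 2 (qsf 0 536870912 1073741824 536870912 2) ndN0q0 ndN3q2 pcN2 Cut.none Ext.none)

def k0_pp_022 : ∃ t, chk3 f_pp_022 t 1 1 1 = true :=
  ⟨(l 4), by decide +kernel⟩

theorem c_pp_022 : CertN 0 536870912 1073741824 536870912 67108864 67108864 3 true true true .pp 0 2 2
    ndN0q0 ndN3q2 pcN2 Cut.none Ext.none :=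
  certNK0 (fam := true) (s1 := true) (s2 := true) (a := 0) (b := 2) (c := 2) (cn := .pp) (n1 := ndN0q0) (n2 := ndN3q2) (pc := pcN2) (cut := Cut.none) (xt := Ext.none) (P1 := 0) (W1 := 536870912) (P2 := 1073741824) (W2 := 536870912) (P3 := 67108864) (W3 := 67108864) (N0 := 3)
    rfl rfl rfl k0_pp_022

noncomputable def f_pp_023 : ℕ → ℕ → ℕ → ℕ → Bool := onCell 0 536870912 1073741824 536870912 67108864 67108864
    (rowNK 3 0 true true true .up 0 2 3 (qsf 0 536870912 1073741824 536870912 3) ndN0q0 ndN3q2 pcN3 Cut.none Ext.none)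

def k0_pp_023 : ∃ t, chk3 f_pp_023 t 1 1 1 = true :=
  ⟨(l 4), by decide +kernel⟩

theorem c_pp_023 : CertN 0 536870912 1073741824 536870912 67108864 67108864 3 true true true .up 0 2 3
    ndN0q0 ndN3q2 pcN3 Cut.none Ext.none :=
  certNK0 (fam := true) (s1 := true) (s2 := true) (a := 0) (b := 2) (c := 3) (cn := .up) (n1 := ndN0q0) (n2 := ndN3q2) (pc := pcN3) (cut := Cut.none) (xt := Ext.none) (P1 := 0) (W1 := 536870912) (P2 := 1073741824) (W2 := 536870912) (P3 := 67108864) (W3 := 67108864) (N0 := 3)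
    rfl rfl rfl k0_pp_023

noncomputable def f_pp_033 : ℕ → ℕ → ℕ → ℕ → Bool := onCell 0 536870912 0 1230186008 67108864 67108864
    (rowNK 3 0 true true true .pnn 0 3 3 (qsf 0 536870912 0 1230186008 3) ndN0q0 ndN3q3 pcN3 Cut.none Ext.none)

def k0_pp_033 : ∃ t, chk3 f_pp_033 t 1 1 1 = true :=
  ⟨(b (l 4) (l 4)), by decide +kernel⟩

theorem c_pp_033 : CertN 0 536870912 0 1230186008 67108864 67108864 3 true true true .pnn 0 3 3
    ndN0q0 ndN3q3 pcN3 Cut.none Ext.none :=
  certNK0 (fam := true) (s1 := true) (s2 := true) (a := 0) (b := 3) (c := 3) (cn := .pnn) (n1 := ndN0q0) (n2 := ndN3q3) (pc := pcN3) (cut := Cut.none) (xt := Ext.none) (P1 := 0) (W1 := 536870912) (P2 := 0) (W2 := 1230186008) (P3 := 67108864) (W3 := 67108864) (N0 := 3)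
    rfl rfl rfl k0_pp_033

noncomputable def f_pp_101 : ℕ → ℕ → ℕ → ℕ → Bool := onCell 536870912 536870912 0 536870912 67108864 67108864
    (rowNK 3 0 true true true .npn 1 0 1 (qsf 536870912 536870912 0 536870912 1) ndN0q1 ndN3q0 pcN1 Cut.none Ext.none)

def k0_pp_101 : ∃ t, chk3 f_pp_101 t 1 1 1 = true :=
  ⟨(l 4), by decide +kernel⟩

theorem c_pp_101 : CertN 536870912 536870912 0 536870912 67108864 67108864 3 true true true .npn 1 0 1
    ndN0q1 ndN3q0 pcN1 Cut.none Ext.none :=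
  certNK0 (fam := true) (s1 := true) (s2 := true) (a := 1) (b := 0) (c := 1) (cn := .npn) (n1 := ndN0q1) (n2 := ndN3q0) (pc := pcN1) (cut := Cut.none) (xt := Ext.none) (P1 := 536870912) (W1 := 536870912) (P2 := 0) (W2 := 536870912) (P3 := 67108864) (W3 := 67108864) (N0 := 3)
    rfl rfl rfl k0_pp_101

noncomputable def f_pp_102 : ℕ → ℕ → ℕ → ℕ → Bool := onCell 536870912 536870912 0 536870912 67108864 67108864
    (rowNK 3 0 true true true .npp 1 0 2 (qsf 536870912 536870912 0 536870912 2) ndN0q1 ndN3q0 pcN2 Cut.none Ext.none)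

def k0_pp_102 : ∃ t, chk3 f_pp_102 t 1 1 1 = true :=
  ⟨(l 4), by decide +kernel⟩

theorem c_pp_102 : CertN 536870912 536870912 0 536870912 67108864 67108864 3 true true true .npp 1 0 2
    ndN0q1 ndN3q0 pcN2 Cut.none Ext.none :=
  certNK0 (fam := true) (s1 := true) (s2 := true) (a := 1) (b := 0) (c := 2) (cn := .npp) (n1 := ndN0q1) (n2 := ndN3q0) (pc := pcN2) (cut := Cut.none) (xt := Ext.none) (P1 := 536870912) (W1 := 536870912) (P2 := 0) (W2 := 536870912) (P3 := 67108864) (W3 := 67108864) (N0 := 3)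
    rfl rfl rfl k0_pp_102

noncomputable def f_pp_112 : ℕ → ℕ → ℕ → ℕ → Bool := onCell 536870912 536870912 536870912 536870912 67108864 67108864
    (rowNK 3 0 true true true .dn 1 1 2 (qsf 536870912 536870912 536870912 536870912 2) ndN0q1 ndN3q1 pcN2 Cut.none Ext.none)

def k0_pp_112 : ∃ t, chk3 f_pp_112 t 1 1 1 = true :=
  ⟨(l 4), by decide +kernel⟩

theorem c_pp_112 : CertN 536870912 536870912 536870912 536870912 67108864 67108864 3 true true true .dn 1 1 2
    ndN0q1 ndN3q1 pcN2 Cut.none Ext.none :=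
  certNK0 (fam := true) (s1 := true) (s2 := true) (a := 1) (b := 1) (c := 2) (cn := .dn) (n1 := ndN0q1) (n2 := ndN3q1) (pc := pcN2) (cut := Cut.none) (xt := Ext.none) (P1 := 536870912) (W1 := 536870912) (P2 := 536870912) (W2 := 536870912) (P3 := 67108864) (W3 := 67108864) (N0 := 3)
    rfl rfl rfl k0_pp_112

noncomputable def f_pp_113 : ℕ → ℕ → ℕ → ℕ → Bool := onCell 536870912 536870912 536870912 536870912 67108864 67108864
    (rowNK 3 0 true true true .nn 1 1 3 (qsf 536870912 536870912 536870912 536870912 3) ndN0q1 ndN3q1 pcN3 Cut.none Ext.none)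

def k0_pp_113 : ∃ t, chk3 f_pp_113 t 1 1 1 = true :=
  ⟨(l 4), by decide +kernel⟩

theorem c_pp_113 : CertN 536870912 536870912 536870912 536870912 67108864 67108864 3 true true true .nn 1 1 3
    ndN0q1 ndN3q1 pcN3 Cut.none Ext.none :=
  certNK0 (fam := true) (s1 := true) (s2 := true) (a := 1) (b := 1) (c := 3) (cn := .nn) (n1 := ndN0q1) (n2 := ndN3q1) (pc := pcN3) (cut := Cut.none) (xt := Ext.none) (P1 := 536870912) (W1 := 536870912) (P2 := 536870912) (W2 := 536870912) (P3 := 67108864) (W3 := 67108864) (N0 := 3)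
    rfl rfl rfl k0_pp_113

noncomputable def f_pp_123 : ℕ → ℕ → ℕ → ℕ → Bool := onCell 536870912 536870912 1073741824 536870912 67108864 67108864
    (rowNK 3 0 true true true .npn 1 2 3 (qsf 536870912 536870912 1073741824 536870912 3) ndN0q1 ndN3q2 pcN3 Cut.none Ext.none)

def k0_pp_123 : ∃ t, chk3 f_pp_123 t 1 1 1 = true :=
  ⟨(l 4), by decide +kernel⟩

theorem c_pp_123 : CertN 536870912 536870912 1073741824 536870912 67108864 67108864 3 true true true .npn 1 2 3
    ndN0q1 ndN3q2 pcN3 Cut.none Ext.none :=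
  certNK0 (fam := true) (s1 := true) (s2 := true) (a := 1) (b := 2) (c := 3) (cn := .npn) (n1 := ndN0q1) (n2 := ndN3q2) (pc := pcN3) (cut := Cut.none) (xt := Ext.none) (P1 := 536870912) (W1 := 536870912) (P2 := 1073741824) (W2 := 536870912) (P3 := 67108864) (W3 := 67108864) (N0 := 3)
    rfl rfl rfl k0_pp_123

noncomputable def f_pp_133 : ℕ → ℕ → ℕ → ℕ → Bool := onCell 536870912 536870912 0 1230186008 67108864 67108864
    (rowNK 3 0 true true true .dn 1 3 3 (qsf 536870912 536870912 0 1230186008 3) ndN0q1 ndN3q3 pcN3 Cut.none Ext.none)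

def k0_pp_133 : ∃ t, chk3 f_pp_133 t 1 1 1 = true :=
  ⟨(l 4), by decide +kernel⟩

theorem c_pp_133 : CertN 536870912 536870912 0 1230186008 67108864 67108864 3 true true true .dn 1 3 3
    ndN0q1 ndN3q3 pcN3 Cut.none Ext.none :=
  certNK0 (fam := true) (s1 := true) (s2 := true) (a := 1) (b := 3) (c := 3) (cn := .dn) (n1 := ndN0q1) (n2 := ndN3q3) (pc := pcN3) (cut := Cut.none) (xt := Ext.none) (P1 := 536870912) (W1 := 536870912) (P2 := 0) (W2 := 1230186008) (P3 := 67108864) (W3 := 67108864) (N0 := 3)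
    rfl rfl rfl k0_pp_133

noncomputable def f_pp_202 : ℕ → ℕ → ℕ → ℕ → Bool := onCell 0 536870912 0 536870912 67108864 67108864
    (rowNK 3 0 true true true .pp 2 0 2 (qsf 0 536870912 0 536870912 2) ndN0q2 ndN3q0 pcN2 Cut.none Ext.none)

def k0_pp_202 : ∃ t, chk3 f_pp_202 t 1 1 1 = true :=
  ⟨(l 5), by decide +kernel⟩

theorem c_pp_202 : CertN 0 536870912 0 536870912 67108864 67108864 3 true true true .pp 2 0 2
    ndN0q2 ndN3q0 pcN2 Cut.none Ext.none :=
  certNK0 (fam := true) (s1 := true) (s2 := true) (a := 2) (b := 0) (c := 2) (cn := .pp) (n1 := ndN0q2) (n2 := ndN3q0) (pc := pcN2) (cut := Cut.none) (xt := Ext.none) (P1 := 0) (W1 := 536870912) (P2 := 0) (W2 := 536870912) (P3 := 67108864) (W3 := 67108864) (N0 := 3)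
    rfl rfl rfl k0_pp_202

noncomputable def f_pp_203 : ℕ → ℕ → ℕ → ℕ → Bool := onCell 0 536870912 0 536870912 67108864 67108864
    (rowNK 3 0 true true true .up 2 0 3 (qsf 0 536870912 0 536870912 3) ndN0q2 ndN3q0 pcN3 Cut.none Ext.none)

def k0_pp_203 : ∃ t, chk3 f_pp_203 t 1 1 1 = true :=
  ⟨(l 5), by decide +kernel⟩

theorem c_pp_203 : CertN 0 536870912 0 536870912 67108864 67108864 3 true true true .up 2 0 3
    ndN0q2 ndN3q0 pcN3 Cut.none Ext.none :=
  certNK0 (fam := true) (s1 := true) (s2 := true) (a := 2) (b := 0) (c := 3) (cn := .up) (n1 := ndN0q2) (n2 := ndN3q0) (pc := pcN3) (cut := Cut.none) (xt := Ext.none) (P1 := 0) (W1 := 536870912) (P2 := 0) (W2 := 536870912) (P3 := 67108864) (W3 := 67108864) (N0 := 3)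
    rfl rfl rfl k0_pp_203

noncomputable def f_pp_213 : ℕ → ℕ → ℕ → ℕ → Bool := onCell 0 536870912 536870912 536870912 67108864 67108864
    (rowNK 3 0 true true true .pnn 2 1 3 (qsf 0 536870912 536870912 536870912 3) ndN0q2 ndN3q1 pcN3 Cut.none Ext.none)

def k0_pp_213 : ∃ t, chk3 f_pp_213 t 1 1 1 = true :=
  ⟨(l 4), by decide +kernel⟩

theorem c_pp_213 : CertN 0 536870912 536870912 536870912 67108864 67108864 3 true true true .pnn 2 1 3
    ndN0q2 ndN3q1 pcN3 Cut.none Ext.none :=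
  certNK0 (fam := true) (s1 := true) (s2 := true) (a := 2) (b := 1) (c := 3) (cn := .pnn) (n1 := ndN0q2) (n2 := ndN3q1) (pc := pcN3) (cut := Cut.none) (xt := Ext.none) (P1 := 0) (W1 := 536870912) (P2 := 536870912) (W2 := 536870912) (P3 := 67108864) (W3 := 67108864) (N0 := 3)
    rfl rfl rfl k0_pp_213

noncomputable def f_pm_001 : ℕ → ℕ → ℕ → ℕ → Bool := onCell 0 536870912 0 536870912 67108864 67108864
    (rowNK 3 0 true true false .up 0 0 1 (qsf 0 536870912 0 536870912 1) ndN0q0 ndN3q0 pcN1 Cut.none Ext.none)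

def k0_pm_001 : ∃ t, chk3 f_pm_001 t 1 1 1 = true :=
  ⟨(a (l 3) (b (l 3) (a (l 3) (b (l 3) (a (b (l 3) (l 258405566375)) (b (l 237466877831) (a (l 144588581847) (l 17926512)))))))), by decide +kernel⟩

theorem c_pm_001 : CertN 0 536870912 0 536870912 67108864 67108864 3 true true false .up 0 0 1
    ndN0q0 ndN3q0 pcN1 Cut.none Ext.none :=
  certNK0 (fam := true) (s1 := true) (s2 := false) (a := 0) (b := 0) (c := 1) (cn := .up) (n1 := ndN0q0) (n2 := ndN3q0) (pc := pcN1) (cut := Cut.none) (xt := Ext.none) (P1 := 0) (W1 := 536870912) (P2 := 0) (W2 := 536870912) (P3 := 67108864) (W3 := 67108864) (N0 := 3)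
    rfl rfl rfl k0_pm_001

noncomputable def cut_pm_011 : Cut := Cut.of [[⟨0, 0, 0, 67108864⟩, ⟨1, 1, 0, 67108864⟩, ⟨2, 1, 0, 67108864⟩]]

noncomputable def f_pm_011 : ℕ → ℕ → ℕ → ℕ → Bool := onCell 0 536870912 536870912 536870912 67108864 67108864
    (rowNK 3 1 true true false .pnn 0 1 1 (qsf 0 536870912 536870912 536870912 1) ndN0q0 ndN3q1 pcN1 cut_pm_011 Ext.none)

def k0_pm_011 : ∃ t, chk3 f_pm_011 t 1 2 1 = true :=
  ⟨(l 3), by decide +kernel⟩

def k1_pm_011 : ∃ t, chk3 f_pm_011 t 1 6 1 = true :=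
  ⟨(l 3), by decide +kernel⟩

def k2_pm_011 : ∃ t, chk3 f_pm_011 t 1 14 1 = true :=
  ⟨(a (l 3) (a (l 3) (a (l 263236195031) (l 223910602631)))), by decide +kernel⟩

def k3_pm_011 : ∃ t, chk3 f_pm_011 t 4 30 1 = true :=
  ⟨(l 3), by decide +kernel⟩

def k4_pm_011 : ∃ t, chk3 f_pm_011 t 4 62 1 = true :=
  ⟨(a (l 3) (b (l 3) (b (l 3) (a (l 3) (a (b (l 3) (c (l 228875494695) (a (l 3) (l 10905138455)))) (c (l 17252040) (a (a (l 16757408) (l 16821784)) (a (l 16874808) (l 16947920))))))))), by decide +kernel⟩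

def k5_pm_011 : ∃ t, chk3 f_pm_011 t 8 63 1 = true :=
  ⟨(a (l 6) (a (b (l 3) (l 6)) (b (b (l 3) (b (l 3) (a (a (l 3) (b (l 3) (c (l 16747808) (l 16744568)))) (a (c (a (b (l 3) (l 16763336)) (b (l 16763128) (l 16761400))) (l 16744200)) (c (c (b (l 16765672) (l 16758616)) (l 16740824)) (l 16742928)))))) (a (b (a (l 6) (b (a (l 6) (b (l 16744736) (l 6))) (l 6))) (l 6)) (b (c (b (a (c (c (b (l 16760752) (l 16758872)) (l 16741288)) (l 16741024)) (c (b (l 16756728) (l 16754856)) (l 16739696))) (b (c (a (l 16756920) (l 16752992)) (l 16738864)) (c (a (l 16755072) (l 16751144)) (l 16737000)))) (b (c (l 16741320) (l 16740952)) (l 16737344))) (c (b (a (a (l 6) (l 16732792)) (b (l 16749112) (l 16747280))) (a (l 6) (a (l 16727208) (l 16725888)))) (b (l 16733608) (l 16729912)))))))), by decide +kernel⟩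

def k6_pm_011 : ∃ t, chk3 f_pm_011 t 18 126 1 = true :=
  ⟨(a (b (b (l 3) (a (l 3) (a (l 3) (a (l 3) (b (l 3) (l 6610185927)))))) (a (b (b (l 3) (c (a (l 16764632) (l 16760232)) (l 16739680))) (c (b (a (l 16764200) (l 16762768)) (a (l 16764928) (l 16760872))) (l 16738216))) (b (c (a (a (l 16759744) (l 16767128)) (c (l 16919856) (l 16759944))) (l 16734064)) (c (a (c (l 16790840) (l 16747024)) (c (l 16871288) (l 16742848))) (l 16728616))))) (a (b (b (l 3) (c (c (l 16991080) (a (l 16775048) (l 16801816))) (c (l 3388900215) (l 16727480)))) (c (b (c (l 16953592) (a (l 16773512) (l 16805768))) (c (l 16912496) (a (l 16766000) (l 16804688)))) (c (b (l 16724160) (l 16720328)) (l 16725760)))) (a (b (b (l 3) (c (c (l 17119440) (l 16868920)) (l 16737000))) (a (b (l 16759528) (l 16756072)) (b (l 16759360) (l 16758936)))) (c (c (l 17167104) (b (l 16874032) (l 16795224))) (b (b (l 16736216) (l 16732584)) (b (l 16728712) (l 16724888))))))), by decide +kernel⟩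

def k7_pm_011 : ∃ t, chk3 f_pm_011 t 18 127 1 = true :=
  ⟨(c (a (b (b (a (a (b (l 16763032) (l 16761160)) (a (l 16759064) (l 16767512))) (a (c (l 16771904) (l 16743248)) (l 16762288))) (a (a (b (l 16748808) (l 16746960)) (a (l 16765832) (l 16763792))) (a (a (l 16761744) (l 16759688)) (l 16761376)))) (a (b (b (a (l 16745128) (l 16741096)) (a (l 16743304) (l 16739280))) (b (a (l 16741504) (l 16737480)) (a (a (l 16719736) (l 16717736)) (a (l 16736696) (l 16734672))))) (b (a (a (l 16758096) (l 16756040)) (a (l 16753968) (l 16755816))) (a (b (l 16754368) (l 16752584)) (a (l 16760864) (l 16758784)))))) (a (a (b (c (b (l 16963688) (l 16911072)) (b (l 16730992) (l 16731152))) (b (l 16756128) (a (l 16754416) (l 16758512)))) (c (b (l 16894304) (b (l 16986888) (l 16909296))) (b (b (l 16798056) (l 16764208)) (b (l 16723344) (l 16751120))))) (c (b (l 16999336) (b (l 17104128) (l 16994280))) (b (b (l 16765160) (l 16757632)) (b (l 16756408) (a (l 16762784) (l 16801648)))))))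 (a (b (b (a (l 16733080) (l 16724808)) (a (l 16729304) (l 16721048))) (a (b (l 16725576) (l 16721904)) (b (l 16717344) (l 16713688)))) (b (a (a (l 16716584) (l 16712288)) (c (b (l 16723576) (l 16719872)) (l 16705512))) (b (a (l 16714136) (l 16726440)) (a (l 16705264) (a (l 16693544) (l 16689160))))))), by decide +kernel⟩

def k8_pm_011 : ∃ t, chk3 f_pm_011 t 19 63 1 = true :=
  ⟨(a (b (a (c (c (l 17227560) (b (a (l 16999040) (l 17038680)) (a (l 16927656) (l 17036736)))) (b (a (a (l 16749432) (l 16749752)) (a (l 16750616) (l 16751128))) (b (a (l 16724216) (l 16731896)) (l 16739120)))) (b (c (l 17146800) (b (l 16750184) (l 16752080))) (c (l 17106512) (b (l 16762408) (l 16758592))))) (c (c (a (b (l 17266784) (l 17281696)) (l 17368936)) (a (b (b (l 16918280) (l 16885024)) (b (l 16847760) (a (l 16833984) (l 16923448)))) (b (l 17015248) (b (l 17068880) (l 16995728))))) (b (a (b (l 16735368) (l 16731664)) (b (l 16729768) (l 16717496))) (a (b (l 16728024) (a (l 16705688)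 (l 16701184))) (b (l 16718872) (a (l 16696624) (l 16712968))))))) (a (c (b (l 17209144) (b (l 17290200) (l 17182736))) (a (b (b (l 16768632) (l 16779368)) (b (l 16777336) (l 16749536))) (b (b (l 16806688) (l 16802904)) (b (l 16787840) (l 16759312))))) (c (b (l 17337120) (l 17337464)) (b (c (b (l 17054672) (l 17051344)) (b (l 16814392) (l 16806072))) (a (b (l 16816448) (l 16775616)) (b (l 16842400) (l 16788312))))))), by decide +kernel⟩

def k9_pm_011 : ∃ t, chk3 f_pm_011 t 5 15 1 = true :=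
  ⟨(b (a (l 3) (b (l 3) (a (l 17180456) (l 17485336)))) (b (a (a (a (b (l 3) (c (l 17338568) (a (b (l 16987688) (l 16972008)) (l 17003352)))) (c (l 17383920) (b (l 17082504) (l 17058232)))) (a (a (l 17160752) (l 17305440)) (l 17361400))) (a (l 17461488) (l 17637976))) (a (a (c (a (b (l 17424560) (l 17502760)) (l 17570744)) (a (a (b (b (l 16950408) (l 16901560)) (c (b (l 17123560) (l 17114784)) (b (l 16860376) (l 16760072)))) (b (a (l 16998536) (l 17093592)) (b (l 17009352) (a (l 16954552) (l 17039536))))) (b (a (l 17118376) (l 17217120)) (a (b (l 17165592) (l 17078600)) (l 17170736))))) (c (l 17698480) (a (b (l 17294760) (l 17283408)) (l 17408984)))) (a (l 17471440) (l 17797728))))), by decide +kernel⟩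

def k10_pm_011 : ∃ t, chk3 f_pm_011 t 3 15 1 = true :=
  ⟨(a (b (a (b (l 3) (l 17632680)) (l 17731656)) (a (a (l 17811656) (l 17893448)) (l 17998160))) (b (a (l 17876672) (l 18002480)) (l 18172848))), by decide +kernel⟩

theorem s11_pm_011 : ∃ t, chk3 f_pm_011 t 18 63 1 = true := ex3_b k6_pm_011 k7_pm_011

theorem s12_pm_011 : ∃ t, chk3 f_pm_011 t 9 63 1 = true := ex3_a s11_pm_011 k8_pm_011

theorem s13_pm_011 : ∃ t, chk3 f_pm_011 t 4 63 1 = true := ex3_a k5_pm_011 s12_pm_011

theorem s14_pm_011 : ∃ t, chk3 f_pm_011 t 4 31 1 = true := ex3_b k4_pm_011 s13_pm_011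

theorem s15_pm_011 : ∃ t, chk3 f_pm_011 t 4 15 1 = true := ex3_b k3_pm_011 s14_pm_011

theorem s16_pm_011 : ∃ t, chk3 f_pm_011 t 2 15 1 = true := ex3_a s15_pm_011 k9_pm_011

theorem s17_pm_011 : ∃ t, chk3 f_pm_011 t 1 15 1 = true := ex3_a s16_pm_011 k10_pm_011

theorem s18_pm_011 : ∃ t, chk3 f_pm_011 t 1 7 1 = true := ex3_b k2_pm_011 s17_pm_011

theorem s19_pm_011 : ∃ t, chk3 f_pm_011 t 1 3 1 = true := ex3_b k1_pm_011 s18_pm_011

theorem s20_pm_011 : ∃ t, chk3 f_pm_011 t 1 1 1 = true := ex3_b k0_pm_011 s19_pm_011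

theorem c_pm_011 : CertN 0 536870912 536870912 536870912 67108864 67108864 3 true true false .pnn 0 1 1
    ndN0q0 ndN3q1 pcN1 cut_pm_011 Ext.none :=
  certNK1 (fam := true) (s1 := true) (s2 := false) (a := 0) (b := 1) (c := 1) (cn := .pnn) (n1 := ndN0q0) (n2 := ndN3q1) (pc := pcN1) (cut := cut_pm_011) (xt := Ext.none) (P1 := 0) (W1 := 536870912) (P2 := 536870912) (W2 := 536870912) (P3 := 67108864) (W3 := 67108864) (N0 := 3)
    rfl rfl rfl (fun _ => rfl) s20_pm_011

noncomputable def cut_pm_012 : Cut := Cut.of [[⟨0, 0, 0, 67108864⟩, ⟨1, 1, 0, 67108864⟩, ⟨2, 1, 0, 67108864⟩]]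

noncomputable def f_pm_012 : ℕ → ℕ → ℕ → ℕ → Bool := onCell 1073741824 536870912 536870912 536870912 67108864 67108864
    (rowNK 3 2 true true false .pnp 0 1 2 (qsf 0 536870912 536870912 536870912 2) ndN0q0 ndN3q1 pcN2 cut_pm_012 Ext.none)

def k0_pm_012 : ∃ t, chk3 f_pm_012 t 2 2 1 = true :=
  ⟨(a (a (a (b (l 18390728) (b (l 18263192) (l 18156632))) (b (l 18507400) (a (l 18360896) (l 18457600)))) (b (l 18717520) (a (l 18567568) (l 18700448)))) (b (a (l 18719048) (l 2)) (a (l 18804888) (l 18833696)))), by decide +kernel⟩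

def k1_pm_012 : ∃ t, chk3 f_pm_012 t 32 6 1 = true :=
  ⟨(b (b (l 17969264) (l 17713464)) (b (c (l 17920104) (a (b (l 17502280) (l 17307872)) (l 17550896))) (a (c (b (l 17729424) (l 17529456)) (b (c (l 17375184) (a (l 16943120) (l 17164384))) (c (a (b (l 17230792) (l 17141296)) (l 17250296)) (a (b (l 16871720) (l 16714768)) (l 16836032))))) (c (l 17809768) (b (l 17306336) (b (l 17189664) (l 16993808))))))), by decide +kernel⟩

def k2_pm_012 : ∃ t, chk3 f_pm_012 t 64 14 1 = true :=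
  ⟨(c (b (b (c (l 17611616) (a (b (l 17324336) (l 17206088)) (l 17352280))) (c (a (b (l 17439416) (l 17291768)) (l 17479768)) (a (a (b (l 16990024) (b (l 16913816) (l 16821152))) (b (l 17134200) (l 16898392))) (b (l 17194176) (l 16940024))))) (b (a (c (b (c (l 17303552) (a (l 17005984) (l 17136856))) (c (a (l 17030952) (l 17188720)) (a (a (l 16770656) (l 16878544)) (l 16894328)))) (a (a (b (l 16754144) (l 16740736)) (b (l 16795592) (l 16715664))) (b (l 16785144) (l 16709496)))) (c (b (l 17264936) (b (l 17137792) (l 16973768))) (b (l 16766536) (a (l 16706296) (l 16752920))))) (a (a (a (a (b (l 16745072) (a (l 16737824) (l 16736808))) (b (l 16727304) (l 16735296))) (b (l 16745216) (l 16742752))) (a (b (l 16741128) (l 16728216)) (b (l 16716064) (l 16724152)))) (b (a (l 16738712) (l 16770312)) (a (c (l 16750608) (l 16717808)) (c (l 16768632) (b (l 16707624) (l 16711688)))))))) (b (b (b (c (a (a (l 16960352) (l 17055880)) (l 17105760)) (a (a (l 16739000) (l 16767672))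 (l 16812392))) (a (a (l 16733688) (l 16764920)) (l 16771704))) (a (a (a (b (l 16692480) (l 16701464)) (b (l 16688304) (l 16697328))) (b (c (l 16805128) (l 16681680)) (l 16691112))) (b (l 16690016) (a (l 16682800) (c (l 16721744) (l 16674168)))))) (b (a (a (b (c (l 16692792) (l 16707800)) (l 16703576)) (b (l 16699944) (l 16708544))) (a (b (l 16691704) (l 16700376)) (c (l 16688160) (l 16687608)))) (a (a (b (l 16711880) (l 16719976)) (b (l 16716912) (l 16725072))) (a (b (l 16708816) (l 16717032)) (l 16697040)))))), by decide +kernel⟩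

def k3_pm_012 : ∃ t, chk3 f_pm_012 t 65 14 1 = true :=
  ⟨(b (b (c (l 17493648) (b (a (l 16961296) (l 17048656)) (l 16748248))) (c (c (l 17615424) (a (l 16964304) (l 17237152))) (a (a (l 16683392) (l 16699504)) (l 16735672)))) (b (b (a (l 16738888) (c (c (l 17505304) (l 17054608)) (a (l 16661784) (l 16657960)))) (a (c (c (l 17141960) (l 16783480)) (a (l 16683952) (b (l 16673488) (l 16677872)))) (l 16720752))) (c (a (a (b (l 16782528) (c (l 16788440) (l 16701520))) (b (c (l 17021264) (b (l 16691672) (l 16687064))) (b (l 16703808) (c (l 16852744) (l 16695384))))) (b (c (l 17024496) (l 16714736)) (a (l 16699592) (l 16762456)))) (a (b (b (l 16686304) (l 16690560)) (b (l 16694752) (l 16698896))) (b (a (l 16678704) (l 16674672)) (a (l 16687392) (l 16683264))))))), by decide +kernel⟩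

def k4_pm_012 : ∃ t, chk3 f_pm_012 t 32 15 1 = true :=
  ⟨(b (a (b (a (b (b (c (a (c (c (l 16724832) (l 16724552)) (l 16729368)) (l 16732080)) (a (l 16728512) (l 16710064))) (a (l 6) (l 16721040))) (l 6)) (a (b (c (a (l 16727992) (l 16723960)) (l 16725048)) (l 6)) (a (b (b (l 16717480) (l 16721440)) (l 6)) (b (b (l 16713448) (l 16717424)) (l 16708872))))) (l 6)) (b (a (b (a (a (l 16711424) (b (l 16705360) (l 16709368))) (c (b (c (l 16716672) (l 16699456)) (a (l 16705664) (a (l 16702616) (l 16701536)))) (b (l 16698944) (l 16702992)))) (a (c (b (l 16715672) (l 6)) (l 16716968)) (b (c (a (l 16709608) (l 16706568)) (l 16707264)) (a (l 6) (l 16710936))))) (b (a (c (c (l 16712824) (l 16696608)) (l 16696224)) (l 16713304)) (c (a (b (l 16703448) (l 16707976)) (l 16701536)) (l 16703024)))) (a (l 6) (b (c (b (l 16710400) (l 6)) (l 16700280)) (l 6))))) (l 6)), by decide +kernel⟩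

def k5_pm_012 : ∃ t, chk3 f_pm_012 t 33 3 1 = true :=
  ⟨(b (b (l 18084168) (b (c (l 18136168) (l 17678544)) (c (l 18002224) (b (l 17454168) (a (l 17185656) (l 17455736)))))) (b (b (c (b (l 17698608) (c (l 17876648) (a (l 17279304) (l 17591080)))) (b (a (c (l 17233624) (l 16726176)) (l 17045680)) (a (b (l 16822400) (l 16773424)) (c (l 17032024) (l 16743680))))) (a (b (b (c (c (l 17651632) (l 17111368)) (l 16669456)) (a (l 16757464) (c (c (l 17585232) (l 17129376)) (l 16652688)))) (b (a (c (c (l 17287416) (l 16826592)) (l 16668672)) (l 16686480)) (a (l 16730000) (a (l 16671624) (l 16667680))))) (b (c (c (l 17791328) (b (l 17422888) (l 17218680))) (b (l 16793800) (l 16641328))) (a (b (l 16757576) (l 16682784)) (a (l 16707800) (l 16704416)))))) (b (b (a (a (a (b (b (l 16686056) (l 16690416)) (a (l 16698056) (l 16695952))) (b (l 16684128) (l 16692816))) (b (l 16726200) (a (l 16688656) (l 16684520)))) (a (b (l 16690976) (a (l 16680408) (l 16676320))) (b (l 16662088)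 (l 16691208)))) (a (b (a (c (b (l 16701992) (l 16706464)) (l 16692832)) (a (l 16684272) (l 16680048))) (a (l 6) (b (l 16701872) (l 6)))) (b (a (a (l 16688952) (l 16684768)) (b (l 16676464) (l 16680656))) (a (a (l 16684520) (l 16680248)) (a (l 16673376) (l 16669160)))))) (b (a (l 6) (a (l 6) (b (b (l 16693424) (l 6)) (l 6)))) (l 6))))), by decide +kernel⟩

def k6_pm_012 : ∃ t, chk3 f_pm_012 t 17 6 1 = true :=
  ⟨(b (a (l 18226168) (l 18367784)) (b (a (a (l 18063640) (l 18153552)) (l 18279480)) (a (c (l 18227736) (a (l 17643136) (l 17752576))) (c (l 18441592) (l 17887344))))), by decide +kernel⟩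

def k7_pm_012 : ∃ t, chk3 f_pm_012 t 34 7 1 = true :=
  ⟨(b (b (c (a (l 17979456) (l 18138992)) (a (b (l 17392408) (b (l 17255688) (l 17085744))) (b (l 17545584) (a (l 17290344) (l 17387440))))) (a (c (b (l 17529704) (c (l 17658400) (b (l 17327880) (l 16973584)))) (b (b (l 16934312) (l 16795288)) (b (l 16613000) (l 16641504)))) (c (b (l 17893480) (c (l 17971976) (a (l 17343592) (l 17513312)))) (b (a (l 16926216) (l 16976136)) (a (l 16628248) (l 16744336)))))) (b (a (a (b (b (l 16654280) (l 16662232)) (b (l 16707040) (b (l 16655560) (l 16659720)))) (b (b (l 16667992) (l 16654336)) (b (l 16662240) (b (l 16647320) (l 16651384))))) (b (a (b (l 16765248) (l 16646544)) (b (c (c (l 17835176) (l 17240384)) (l 16609400)) (l 16662728))) (a (b (l 16654256) (l 16693576)) (b (l 16646824) (c (l 16711688) (l 16631960)))))) (a (b (b (b (c (l 16671296) (l 16679512)) (c (l 16675480) (l 16673216))) (a (l 6) (b (l 16663800) (l 6)))) (l 6)) (b (a (b (c (l 16655760) (l 16647792))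 (b (l 16655280) (l 16659392))) (a (b (l 16642960) (l 16656216)) (b (l 16638944) (l 16657352)))) (a (l 6) (b (b (l 16665856) (l 6)) (l 6))))))), by decide +kernel⟩

def k8_pm_012 : ∃ t, chk3 f_pm_012 t 35 7 1 = true :=
  ⟨(b (b (c (l 18330640) (a (b (l 17674192) (l 17435552)) (l 17535752))) (b (c (l 17987672) (a (a (l 17087112) (l 17237696)) (l 17238720))) (c (c (l 18254768) (a (l 17603672) (l 17858344))) (a (a (l 16794648) (l 16862688)) (b (l 17149112) (l 16947688)))))) (b (b (c (c (a (l 17727384) (l 18159312)) (a (b (l 17320800) (a (l 17142904) (l 17281536))) (b (l 17655416) (l 17477496)))) (a (b (l 16620440) (l 16627472)) (b (l 16812096) (l 16592680)))) (a (b (a (l 16639120) (l 16660208)) (a (l 16667552) (l 16639248))) (a (b (l 16740816) (l 16610784)) (c (c (l 17818016) (b (l 17324808) (l 17048784))) (l 16608200))))) (b (a (a (b (b (l 16631320) (l 16635168)) (a (l 16653224) (l 16649280))) (b (l 16678120) (c (l 16645592) (l 16631392)))) (a (b (l 16638968)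 (l 16635848)) (b (l 16610472) (l 16628120)))) (b (a (a (b (l 16667904) (l 16661400)) (a (l 16653056) (l 16649000))) (b (l 16649472) (l 16653208))) (a (a (l 6) (b (l 16657344) (l 6))) (a (b (l 16638624) (l 16652976)) (b (l 16630552) (l 16644800)))))))), by decide +kernel⟩

def k9_pm_012 : ∃ t, chk3 f_pm_012 t 9 6 1 = true :=
  ⟨(a (b (l 18536720) (a (l 18362352) (l 18556280))) (b (l 18735176) (l 18746504))), by decide +kernel⟩

def k10_pm_012 : ∃ t, chk3 f_pm_012 t 9 14 1 = true :=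
  ⟨(b (a (a (a (l 17970032) (l 18292320)) (l 18446520)) (l 18710152)) (a (c (a (b (l 18460800) (l 18349656)) (l 18674712)) (a (a (b (l 17588824) (a (l 17172408) (l 17331648))) (b (l 17740344) (l 17385744))) (b (l 17948856) (a (l 17684136) (l 17844040))))) (c (l 18991400) (a (l 18134512) (l 18366424))))), by decide +kernel⟩

def k11_pm_012 : ∃ t, chk3 f_pm_012 t 9 15 1 = true :=
  ⟨(a (b (a (a (c (b (l 17848008) (c (l 18055008) (b (l 17531344) (l 17041976)))) (b (b (l 16990976) (l 16822040)) (b (l 16584880) (l 16591400)))) (c (b (l 18271760) (c (l 18352216) (b (l 17781816) (l 17587016)))) (b (b (l 17255832) (l 17015096)) (b (l 16834056) (l 16577208))))) (c (b (l 18527304) (a (l 18036688) (l 18446912))) (a (b (b (l 17481864) (l 17290616)) (b (l 17041056) (l 16848208))) (b (l 17475136) (c (l 17463096) (l 16796360)))))) (b (a (a (b (a (l 16603128) (l 16663312)) (a (l 16610080) (l 16602688))) (b (c (c (l 18123752) (l 17085584)) (l 16583480)) (l 16603272))) (c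 (c (a (l 18284368) (l 18550592)) (a (b (l 17644560) (b (l 17454992) (l 17264216))) (b (l 17914640) (l 17704016)))) (b (l 16598528) (l 16605384)))) (a (a (b (a (l 16627680) (l 16620080)) (b (l 16635568) (c (l 16636384) (l 16641968)))) (b (a (l 16602168) (l 16594912)) (b (l 16641128) (l 16618328)))) (b (a (l 16595496) (c (c (l 18308536) (b (l 17506312) (l 17287720))) (l 16567792))) (a (b (l 16589752) (l 16603440)) (l 16592992)))))) (b (c (a (l 18580248) (l 19029200)) (a (b (l 17660256) (c (l 17704376) (a (l 17110360) (l 17421392)))) (b (l 18177664) (l 17790472)))) (c (a (a (b (l 18188872) (c (l 18352376) (b (l 17765392) (a (l 17175488) (l 17510320))))) (b (l 18626880) (c (l 18754520) (b (l 18054096) (l 17765760))))) (c (l 19142272) (b (l 18592728) (b (l 18418656) (l 18259720))))) (b (a (a (b (l 17035704) (l 16841032)) (b (l 17341968) (l 17025400))) (c (l 17842624) (b (l 17480640) (l 17128320)))) (a (b (a (l 16554496) (l 16819752)) (a (l 16559976) (l 16546952)))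 (c (b (l 17576128) (a (l 17201648) (l 17636872))) (b (l 16771928) (l 16544952)))))))), by decide +kernel⟩

def k12_pm_012 : ∃ t, chk3 f_pm_012 t 5 3 1 = true :=
  ⟨(b (a (b (l 18913800) (l 19004832)) (l 19070216)) (a (b (a (b (l 18981920) (l 18977048)) (l 19176392)) (a (b (c (l 19328224) (a (l 18373416) (l 18609288))) (c (a (b (l 19181576) (l 19081832)) (l 19391392)) (a (b (l 17841368) (c (b (l 18186232) (l 18028832)) (b (l 17564208) (a (l 17203000) (l 17481272))))) (b (l 18424032) (c (l 18507464) (l 17846176)))))) (b (l 19233944) (c (l 19658856) (b (l 18803728) (l 18705552)))))) (b (l 19342752) (a (l 19475328) (l 19621552))))), by decide +kernel⟩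

def k13_pm_012 : ∃ t, chk3 f_pm_012 t 3 1 1 = true :=
  ⟨(b (a (b (l 2) (l 18819040)) (l 2)) (b (a (l 19200264) (l 19246800)) (a (b (l 19429600) (a (l 19721768) (l 19729184))) (b (l 19338008) (l 19626792))))), by decide +kernel⟩

theorem s14_pm_012 : ∃ t, chk3 f_pm_012 t 9 7 1 = true := ex3_b k10_pm_012 k11_pm_012

theorem s15_pm_012 : ∃ t, chk3 f_pm_012 t 9 3 1 = true := ex3_b k9_pm_012 s14_pm_012

theorem s16_pm_012 : ∃ t, chk3 f_pm_012 t 17 7 1 = true := ex3_a k7_pm_012 k8_pm_012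

theorem s17_pm_012 : ∃ t, chk3 f_pm_012 t 17 3 1 = true := ex3_b k6_pm_012 s16_pm_012

theorem s18_pm_012 : ∃ t, chk3 f_pm_012 t 32 14 1 = true := ex3_a k2_pm_012 k3_pm_012

theorem s19_pm_012 : ∃ t, chk3 f_pm_012 t 32 7 1 = true := ex3_b s18_pm_012 k4_pm_012

theorem s20_pm_012 : ∃ t, chk3 f_pm_012 t 32 3 1 = true := ex3_b k1_pm_012 s19_pm_012

theorem s21_pm_012 : ∃ t, chk3 f_pm_012 t 16 3 1 = true := ex3_a s20_pm_012 k5_pm_012

theorem s22_pm_012 : ∃ t, chk3 f_pm_012 t 8 3 1 = true := ex3_a s21_pm_012 s17_pm_012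

theorem s23_pm_012 : ∃ t, chk3 f_pm_012 t 4 3 1 = true := ex3_a s22_pm_012 s15_pm_012

theorem s24_pm_012 : ∃ t, chk3 f_pm_012 t 2 3 1 = true := ex3_a s23_pm_012 k12_pm_012

theorem s25_pm_012 : ∃ t, chk3 f_pm_012 t 2 1 1 = true := ex3_b k0_pm_012 s24_pm_012

theorem s26_pm_012 : ∃ t, chk3 f_pm_012 t 1 1 1 = true := ex3_a s25_pm_012 k13_pm_012

theorem c_pm_012 : CertN 0 536870912 536870912 536870912 67108864 67108864 3 true true false .pnp 0 1 2
    ndN0q0 ndN3q1 pcN2 cut_pm_012 Ext.none :=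
  certNK2 (fam := true) (s1 := true) (s2 := false) (a := 0) (b := 1) (c := 2) (cn := .pnp) (n1 := ndN0q0) (n2 := ndN3q1) (pc := pcN2) (cut := cut_pm_012) (xt := Ext.none) (P1 := 0) (W1 := 536870912) (P2 := 536870912) (W2 := 536870912) (P3 := 67108864) (W3 := 67108864) (N0 := 3)
    rfl rfl rfl (fun _ => rfl) s26_pm_012

noncomputable def f_pm_022 : ℕ → ℕ → ℕ → ℕ → Bool := onCell 0 536870912 1073741824 536870912 67108864 67108864
    (rowNK 3 1 true true false .pp 0 2 2 (qsf 0 536870912 1073741824 536870912 2) ndN0q0 ndN3q2 pcN2 Cut.none Ext.none)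

def k0_pm_022 : ∃ t, chk3 f_pm_022 t 1 1 1 = true :=
  ⟨(b (b (l 3) (a (b (b (b (l 3) (b (a (a (a (l 17788744) (l 17875112)) (l 17742712)) (l 3)) (a (b (a (l 17808288) (l 17828320)) (a (b (l 17972744) (l 18081312)) (b (l 17868344) (l 17894032)))) (a (b (a (l 17776096) (l 1)) (b (a (l 17813016) (l 1)) (l 17719320))) (l 1))))) (a (a (l 18116448) (l 18084264)) (a (a (l 18017536) (l 18000352)) (l 252902420743)))) (a (a (l 18592272) (l 18431272)) (a (l 18334624) (l 233038230903)))) (b (l 1) (a (b (l 1) (l 281894800759)) (l 1))))) (a (a (b (l 18776416) (b (l 18833784) (l 18800512))) (b (l 18554208) (l 18581424))) (a (b (b (l 256661885415) (l 18515888)) (l 18432104)) (b (l 280820922631) (l 18436472))))), by decide +kernel⟩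

theorem c_pm_022 : CertN 0 536870912 1073741824 536870912 67108864 67108864 3 true true false .pp 0 2 2
    ndN0q0 ndN3q2 pcN2 Cut.none Ext.none :=
  certNK1 (fam := true) (s1 := true) (s2 := false) (a := 0) (b := 2) (c := 2) (cn := .pp) (n1 := ndN0q0) (n2 := ndN3q2) (pc := pcN2) (cut := Cut.none) (xt := Ext.none) (P1 := 0) (W1 := 536870912) (P2 := 1073741824) (W2 := 536870912) (P3 := 67108864) (W3 := 67108864) (N0 := 3)
    rfl rfl rfl (fun _ => rfl) k0_pm_022

noncomputable def f_pm_023 : ℕ → ℕ → ℕ → ℕ → Bool := onCell 0 536870912 1073741824 536870912 67108864 67108864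
    (rowNK 3 0 true true false .up 0 2 3 (qsf 0 536870912 1073741824 536870912 3) ndN0q0 ndN3q2 pcN3 Cut.none Ext.none)

def k0_pm_023 : ∃ t, chk3 f_pm_023 t 1 1 1 = true :=
  ⟨(a (b (b (l 1) (l 244850460759)) (a (b (l 18594472) (b (l 18515160) (l 18764944))) (b (l 299611446311) (b (l 18403440) (a (l 18634376) (l 18431200)))))) (b (a (l 228207700695) (l 208879745335)) (b (b (l 18294248) (a (l 18155528) (l 17762296))) (a (b (l 18331768) (a (l 18161984) (l 17903808))) (b (l 17924968) (a (l 17684528) (b (l 17510744) (a (l 17506768) (b (l 17427192) (l 17401416)))))))))), by decide +kernel⟩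

theorem c_pm_023 : CertN 0 536870912 1073741824 536870912 67108864 67108864 3 true true false .up 0 2 3
    ndN0q0 ndN3q2 pcN3 Cut.none Ext.none :=
  certNK0 (fam := true) (s1 := true) (s2 := false) (a := 0) (b := 2) (c := 3) (cn := .up) (n1 := ndN0q0) (n2 := ndN3q2) (pc := pcN3) (cut := Cut.none) (xt := Ext.none) (P1 := 0) (W1 := 536870912) (P2 := 1073741824) (W2 := 536870912) (P3 := 67108864) (W3 := 67108864) (N0 := 3)
    rfl rfl rfl k0_pm_023

noncomputable def f_pm_033 : ℕ → ℕ → ℕ → ℕ → Bool := onCell 1610612736 536870912 0 1230186008 67108864 67108864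
    (rowNK 3 2 true true false .pnn 0 3 3 (qsf 0 536870912 0 1230186008 3) ndN0q0 ndN3q3 pcN3 Cut.none Ext.none)

def k0_pm_033 : ∃ t, chk3 f_pm_033 t 1 1 1 = true :=
  ⟨(a (b (l 1) (b (a (l 1) (a (l 1) (b (l 1) (l 17438672)))) (a (b (l 1) (b (a (l 1) (l 18617152)) (a (l 18131600) (l 17921816)))) (b (a (l 17774968) (l 17509688)) (b (l 17535552) (a (l 17553120) (l 17153920))))))) (b (a (l 1) (l 4)) (a (b (b (l 17699656) (a (l 17307256) (l 17379760))) (b (a (l 17577008) (l 17327424)) (a (l 17523752) (l 17726528)))) (b (a (l 17456936) (l 4)) (a (b (l 17215168) (l 17638920)) (a (b (l 17109024) (l 17582032)) (b (l 4) (a (l 17538384) (l 26543439623))))))))), by decide +kernel⟩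

theorem c_pm_033 : CertN 0 536870912 0 1230186008 67108864 67108864 3 true true false .pnn 0 3 3
    ndN0q0 ndN3q3 pcN3 Cut.none Ext.none :=
  certNK2 (fam := true) (s1 := true) (s2 := false) (a := 0) (b := 3) (c := 3) (cn := .pnn) (n1 := ndN0q0) (n2 := ndN3q3) (pc := pcN3) (cut := Cut.none) (xt := Ext.none) (P1 := 0) (W1 := 536870912) (P2 := 0) (W2 := 1230186008) (P3 := 67108864) (W3 := 67108864) (N0 := 3)
    rfl rfl rfl (fun _ => rfl) k0_pm_033

noncomputable def f_pm_101 : ℕ → ℕ → ℕ → ℕ → Bool := onCell 536870912 536870912 0 536870912 67108864 67108864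
    (rowNK 3 2 true true false .npn 1 0 1 (qsf 536870912 536870912 0 536870912 1) ndN0q1 ndN3q0 pcN1 Cut.none Ext.none)

def k0_pm_101 : ∃ t, chk3 f_pm_101 t 1 1 1 = true :=
  ⟨(a (l 3) (b (a (b (l 3) (l 3)) (b (b (a (a (a (l 18449320) (l 18521888)) (l 18636752)) (l 18910368)) (a (l 120967207591) (l 18566920))) (a (b (l 18093408) (l 169821130279)) (b (l 18220768) (l 17881752))))) (a (l 3) (b (a (b (l 17463216) (l 218675909607)) (b (l 17574792) (l 17310160))) (a (b (a (l 3) (l 17831648)) (l 416648042359)) (b (l 17716424) (l 361887235511))))))), by decide +kernel⟩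

theorem c_pm_101 : CertN 536870912 536870912 0 536870912 67108864 67108864 3 true true false .npn 1 0 1
    ndN0q1 ndN3q0 pcN1 Cut.none Ext.none :=
  certNK2 (fam := true) (s1 := true) (s2 := false) (a := 1) (b := 0) (c := 1) (cn := .npn) (n1 := ndN0q1) (n2 := ndN3q0) (pc := pcN1) (cut := Cut.none) (xt := Ext.none) (P1 := 536870912) (W1 := 536870912) (P2 := 0) (W2 := 536870912) (P3 := 67108864) (W3 := 67108864) (N0 := 3)
    rfl rfl rfl (fun _ => rfl) k0_pm_101

noncomputable def f_pm_102 : ℕ → ℕ → ℕ → ℕ → Bool := onCell 536870912 536870912 1073741824 536870912 67108864 67108864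
    (rowNK 3 1 true true false .npp 1 0 2 (qsf 536870912 536870912 0 536870912 2) ndN0q1 ndN3q0 pcN2 Cut.none Ext.none)

def k0_pm_102 : ∃ t, chk3 f_pm_102 t 1 1 1 = true :=
  ⟨(a (b (b (b (b (a (l 17640168) (l 17529008)) (a (l 17732112) (l 17385456))) (a (l 17705168) (l 17414312))) (a (l 257800771479) (b (l 17134040) (l 17214232)))) (a (l 2) (l 98886382935))) (b (b (b (b (a (l 18164248) (l 18872288)) (a (l 17993848) (l 18660560))) (a (b (l 17810136) (l 17643912)) (l 18421128))) (a (b (l 17387488) (l 17072856)) (b (l 17977752) (l 17630528)))) (b (a (l 16952976) (l 17343240)) (a (l 17229200) (l 17557544))))), by decide +kernel⟩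

theorem c_pm_102 : CertN 536870912 536870912 0 536870912 67108864 67108864 3 true true false .npp 1 0 2
    ndN0q1 ndN3q0 pcN2 Cut.none Ext.none :=
  certNK1 (fam := true) (s1 := true) (s2 := false) (a := 1) (b := 0) (c := 2) (cn := .npp) (n1 := ndN0q1) (n2 := ndN3q0) (pc := pcN2) (cut := Cut.none) (xt := Ext.none) (P1 := 536870912) (W1 := 536870912) (P2 := 0) (W2 := 536870912) (P3 := 67108864) (W3 := 67108864) (N0 := 3)
    rfl rfl rfl (fun _ => rfl) k0_pm_102

noncomputable def f_pm_112 : ℕ → ℕ → ℕ → ℕ → Bool := onCell 536870912 536870912 1073741824 536870912 67108864 67108864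
    (rowNK 3 1 true true false .dn 1 1 2 (qsf 536870912 536870912 536870912 536870912 2) ndN0q1 ndN3q1 pcN2 Cut.none Ext.none)

def k0_pm_112 : ∃ t, chk3 f_pm_112 t 1 1 1 = true :=
  ⟨(a (a (b (b (b (b (l 18513080) (l 18543056)) (l 18613328)) (l 18749856)) (l 19051784)) (b (b (b (l 1) (l 18648328)) (l 18670320)) (l 18801992))) (b (b (l 1) (a (l 18671840) (l 1))) (b (l 18762880) (l 18543736)))), by decide +kernel⟩

theorem c_pm_112 : CertN 536870912 536870912 536870912 536870912 67108864 67108864 3 true true false .dn 1 1 2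
    ndN0q1 ndN3q1 pcN2 Cut.none Ext.none :=
  certNK1 (fam := true) (s1 := true) (s2 := false) (a := 1) (b := 1) (c := 2) (cn := .dn) (n1 := ndN0q1) (n2 := ndN3q1) (pc := pcN2) (cut := Cut.none) (xt := Ext.none) (P1 := 536870912) (W1 := 536870912) (P2 := 536870912) (W2 := 536870912) (P3 := 67108864) (W3 := 67108864) (N0 := 3)
    rfl rfl rfl (fun _ => rfl) k0_pm_112

noncomputable def f_pm_113 : ℕ → ℕ → ℕ → ℕ → Bool := onCell 536870912 536870912 1610612736 536870912 67108864 67108864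
    (rowNK 3 1 true true false .nn 1 1 3 (qsf 536870912 536870912 536870912 536870912 3) ndN0q1 ndN3q1 pcN3 Cut.none Ext.none)

def k0_pm_113 : ∃ t, chk3 f_pm_113 t 1 1 1 = true :=
  ⟨(b (a (b (a (b (l 18674896) (l 18784768)) (b (l 17890504) (l 18140656))) (a (b (l 19027624) (l 2)) (l 18612992))) (b (a (l 17886616) (l 18025184)) (a (l 18362912) (b (l 18238976) (l 18268800))))) (b (a (a (l 2) (l 246529438023)) (b (l 18108592) (l 18233936))) (a (l 2) (l 4)))), by decide +kernel⟩

theorem c_pm_113 : CertN 536870912 536870912 536870912 536870912 67108864 67108864 3 true true false .nn 1 1 3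
    ndN0q1 ndN3q1 pcN3 Cut.none Ext.none :=
  certNK1 (fam := true) (s1 := true) (s2 := false) (a := 1) (b := 1) (c := 3) (cn := .nn) (n1 := ndN0q1) (n2 := ndN3q1) (pc := pcN3) (cut := Cut.none) (xt := Ext.none) (P1 := 536870912) (W1 := 536870912) (P2 := 536870912) (W2 := 536870912) (P3 := 67108864) (W3 := 67108864) (N0 := 3)
    rfl rfl rfl (fun _ => rfl) k0_pm_113

noncomputable def f_pm_123 : ℕ → ℕ → ℕ → ℕ → Bool := onCell 536870912 536870912 1610612736 536870912 67108864 67108864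
    (rowNK 3 1 true true false .npn 1 2 3 (qsf 536870912 536870912 1073741824 536870912 3) ndN0q1 ndN3q2 pcN3 Cut.none Ext.none)

def k0_pm_123 : ∃ t, chk3 f_pm_123 t 1 1 1 = true :=
  ⟨(b (a (a (l 179351416439) (l 213174164055)) (b (l 1) (a (a (b (l 1) (l 17949144)) (l 1)) (l 1)))) (b (a (a (l 17558672) (l 160023351559)) (a (b (a (l 17850336) (l 18269432)) (b (l 17798328) (l 17479576))) (b (l 1) (a (l 17315776) (l 1))))) (a (b (a (l 17392048) (l 17405896)) (b (a (l 17318376) (l 17220800)) (a (l 17511920) (b (l 17162312) (b (l 17135136) (l 17118360)))))) (b (a (l 17439312) (l 17244088)) (b (a (l 17108544) (l 17071112)) (b (a (l 17028888) (l 17070032)) (b (l 284240578247) (a (l 17038632) (l 4))))))))), by decide +kernel⟩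

theorem c_pm_123 : CertN 536870912 536870912 1073741824 536870912 67108864 67108864 3 true true false .npn 1 2 3
    ndN0q1 ndN3q2 pcN3 Cut.none Ext.none :=
  certNK1 (fam := true) (s1 := true) (s2 := false) (a := 1) (b := 2) (c := 3) (cn := .npn) (n1 := ndN0q1) (n2 := ndN3q2) (pc := pcN3) (cut := Cut.none) (xt := Ext.none) (P1 := 536870912) (W1 := 536870912) (P2 := 1073741824) (W2 := 536870912) (P3 := 67108864) (W3 := 67108864) (N0 := 3)
    rfl rfl rfl (fun _ => rfl) k0_pm_123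

noncomputable def f_pm_133 : ℕ → ℕ → ℕ → ℕ → Bool := onCell 536870912 536870912 0 1230186008 67108864 67108864
    (rowNK 3 0 true true false .dn 1 3 3 (qsf 536870912 536870912 0 1230186008 3) ndN0q1 ndN3q3 pcN3 Cut.none Ext.none)

def k0_pm_133 : ∃ t, chk3 f_pm_133 t 1 1 1 = true :=
  ⟨(b (l 2) (b (l 2) (a (b (l 2) (a (l 4) (l 2))) (l 2)))), by decide +kernel⟩

theorem c_pm_133 : CertN 536870912 536870912 0 1230186008 67108864 67108864 3 true true false .dn 1 3 3
    ndN0q1 ndN3q3 pcN3 Cut.none Ext.none :=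
  certNK0 (fam := true) (s1 := true) (s2 := false) (a := 1) (b := 3) (c := 3) (cn := .dn) (n1 := ndN0q1) (n2 := ndN3q3) (pc := pcN3) (cut := Cut.none) (xt := Ext.none) (P1 := 536870912) (W1 := 536870912) (P2 := 0) (W2 := 1230186008) (P3 := 67108864) (W3 := 67108864) (N0 := 3)
    rfl rfl rfl k0_pm_133

noncomputable def f_pm_202 : ℕ → ℕ → ℕ → ℕ → Bool := onCell 0 536870912 1073741824 536870912 67108864 67108864
    (rowNK 3 1 true true false .pp 2 0 2 (qsf 0 536870912 0 536870912 2) ndN0q2 ndN3q0 pcN2 Cut.none Ext.none)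

def k0_pm_202 : ∃ t, chk3 f_pm_202 t 1 1 1 = true :=
  ⟨(a (b (b (b (l 1) (l 19110216)) (b (l 18857008) (l 18593800))) (b (l 18088192) (l 17320256))) (a (b (b (b (l 1) (l 19003904)) (l 18547464)) (b (l 17894832) (l 17498720))) (b (b (b (b (l 19290072) (l 19107328)) (l 18834352)) (l 18294560)) (b (l 17663528) (l 17631280))))), by decide +kernel⟩

theorem c_pm_202 : CertN 0 536870912 0 536870912 67108864 67108864 3 true true false .pp 2 0 2
    ndN0q2 ndN3q0 pcN2 Cut.none Ext.none :=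
  certNK1 (fam := true) (s1 := true) (s2 := false) (a := 2) (b := 0) (c := 2) (cn := .pp) (n1 := ndN0q2) (n2 := ndN3q0) (pc := pcN2) (cut := Cut.none) (xt := Ext.none) (P1 := 0) (W1 := 536870912) (P2 := 0) (W2 := 536870912) (P3 := 67108864) (W3 := 67108864) (N0 := 3)
    rfl rfl rfl (fun _ => rfl) k0_pm_202

noncomputable def f_pm_203 : ℕ → ℕ → ℕ → ℕ → Bool := onCell 0 536870912 1610612736 536870912 67108864 67108864
    (rowNK 3 1 true true false .up 2 0 3 (qsf 0 536870912 0 536870912 3) ndN0q2 ndN3q0 pcN3 Cut.none Ext.none)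

def k0_pm_203 : ∃ t, chk3 f_pm_203 t 1 1 1 = true :=
  ⟨(a (l 4) (b (b (b (l 17815776) (l 17925232)) (b (l 4) (l 2))) (l 2))), by decide +kernel⟩

theorem c_pm_203 : CertN 0 536870912 0 536870912 67108864 67108864 3 true true false .up 2 0 3
    ndN0q2 ndN3q0 pcN3 Cut.none Ext.none :=
  certNK1 (fam := true) (s1 := true) (s2 := false) (a := 2) (b := 0) (c := 3) (cn := .up) (n1 := ndN0q2) (n2 := ndN3q0) (pc := pcN3) (cut := Cut.none) (xt := Ext.none) (P1 := 0) (W1 := 536870912) (P2 := 0) (W2 := 536870912) (P3 := 67108864) (W3 := 67108864) (N0 := 3)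
    rfl rfl rfl (fun _ => rfl) k0_pm_203

noncomputable def f_pm_213 : ℕ → ℕ → ℕ → ℕ → Bool := onCell 0 536870912 536870912 536870912 67108864 67108864
    (rowNK 3 0 true true false .pnn 2 1 3 (qsf 0 536870912 536870912 536870912 3) ndN0q2 ndN3q1 pcN3 Cut.none Ext.none)

def k0_pm_213 : ∃ t, chk3 f_pm_213 t 1 1 1 = true :=
  ⟨(a (l 4) (a (l 4) (b (b (b (l 18340912) (l 18178656)) (l 4)) (l 4)))), by decide +kernel⟩

theorem c_pm_213 : CertN 0 536870912 536870912 536870912 67108864 67108864 3 true true false .pnn 2 1 3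
    ndN0q2 ndN3q1 pcN3 Cut.none Ext.none :=
  certNK0 (fam := true) (s1 := true) (s2 := false) (a := 2) (b := 1) (c := 3) (cn := .pnn) (n1 := ndN0q2) (n2 := ndN3q1) (pc := pcN3) (cut := Cut.none) (xt := Ext.none) (P1 := 0) (W1 := 536870912) (P2 := 536870912) (W2 := 536870912) (P3 := 67108864) (W3 := 67108864) (N0 := 3)
    rfl rfl rfl k0_pm_213

noncomputable def f_mm_001 : ℕ → ℕ → ℕ → ℕ → Bool := onCell 0 536870912 0 536870912 67108864 67108864
    (rowNK 3 0 true false false .up 0 0 1 (qsf 0 536870912 0 536870912 1) ndN0q0 ndN3q0 pcN1 Cut.none Ext.none)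

def k0_mm_001 : ∃ t, chk3 f_mm_001 t 1 1 1 = true :=
  ⟨(l 4), by decide +kernel⟩

theorem c_mm_001 : CertN 0 536870912 0 536870912 67108864 67108864 3 true false false .up 0 0 1
    ndN0q0 ndN3q0 pcN1 Cut.none Ext.none :=
  certNK0 (fam := true) (s1 := false) (s2 := false) (a := 0) (b := 0) (c := 1) (cn := .up) (n1 := ndN0q0) (n2 := ndN3q0) (pc := pcN1) (cut := Cut.none) (xt := Ext.none) (P1 := 0) (W1 := 536870912) (P2 := 0) (W2 := 536870912) (P3 := 67108864) (W3 := 67108864) (N0 := 3)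
    rfl rfl rfl k0_mm_001

noncomputable def f_mm_011 : ℕ → ℕ → ℕ → ℕ → Bool := onCell 0 536870912 536870912 536870912 67108864 67108864
    (rowNK 3 0 true false false .pnn 0 1 1 (qsf 0 536870912 536870912 536870912 1) ndN0q0 ndN3q1 pcN1 Cut.none Ext.none)

def k0_mm_011 : ∃ t, chk3 f_mm_011 t 1 1 1 = true :=
  ⟨(l 4), by decide +kernel⟩

theorem c_mm_011 : CertN 0 536870912 536870912 536870912 67108864 67108864 3 true false false .pnn 0 1 1
    ndN0q0 ndN3q1 pcN1 Cut.none Ext.none :=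
  certNK0 (fam := true) (s1 := false) (s2 := false) (a := 0) (b := 1) (c := 1) (cn := .pnn) (n1 := ndN0q0) (n2 := ndN3q1) (pc := pcN1) (cut := Cut.none) (xt := Ext.none) (P1 := 0) (W1 := 536870912) (P2 := 536870912) (W2 := 536870912) (P3 := 67108864) (W3 := 67108864) (N0 := 3)
    rfl rfl rfl k0_mm_011

noncomputable def f_mm_012 : ℕ → ℕ → ℕ → ℕ → Bool := onCell 0 536870912 536870912 536870912 67108864 67108864
    (rowNK 3 0 true false false .pnp 0 1 2 (qsf 0 536870912 536870912 536870912 2) ndN0q0 ndN3q1 pcN2 Cut.none Ext.none)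

def k0_mm_012 : ∃ t, chk3 f_mm_012 t 1 1 1 = true :=
  ⟨(l 4), by decide +kernel⟩

theorem c_mm_012 : CertN 0 536870912 536870912 536870912 67108864 67108864 3 true false false .pnp 0 1 2
    ndN0q0 ndN3q1 pcN2 Cut.none Ext.none :=
  certNK0 (fam := true) (s1 := false) (s2 := false) (a := 0) (b := 1) (c := 2) (cn := .pnp) (n1 := ndN0q0) (n2 := ndN3q1) (pc := pcN2) (cut := Cut.none) (xt := Ext.none) (P1 := 0) (W1 := 536870912) (P2 := 536870912) (W2 := 536870912) (P3 := 67108864) (W3 := 67108864) (N0 := 3)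
    rfl rfl rfl k0_mm_012

noncomputable def f_mm_022 : ℕ → ℕ → ℕ → ℕ → Bool := onCell 0 536870912 1073741824 536870912 67108864 67108864
    (rowNK 3 0 true false false .pp 0 2 2 (qsf 0 536870912 1073741824 536870912 2) ndN0q0 ndN3q2 pcN2 Cut.none Ext.none)

def k0_mm_022 : ∃ t, chk3 f_mm_022 t 1 1 1 = true :=
  ⟨(l 4), by decide +kernel⟩

theorem c_mm_022 : CertN 0 536870912 1073741824 536870912 67108864 67108864 3 true false false .pp 0 2 2
    ndN0q0 ndN3q2 pcN2 Cut.none Ext.none :=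
  certNK0 (fam := true) (s1 := false) (s2 := false) (a := 0) (b := 2) (c := 2) (cn := .pp) (n1 := ndN0q0) (n2 := ndN3q2) (pc := pcN2) (cut := Cut.none) (xt := Ext.none) (P1 := 0) (W1 := 536870912) (P2 := 1073741824) (W2 := 536870912) (P3 := 67108864) (W3 := 67108864) (N0 := 3)
    rfl rfl rfl k0_mm_022

noncomputable def f_mm_023 : ℕ → ℕ → ℕ → ℕ → Bool := onCell 0 536870912 1073741824 536870912 67108864 67108864
    (rowNK 3 0 true false false .up 0 2 3 (qsf 0 536870912 1073741824 536870912 3) ndN0q0 ndN3q2 pcN3 Cut.none Ext.none)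

def k0_mm_023 : ∃ t, chk3 f_mm_023 t 1 1 1 = true :=
  ⟨(l 4), by decide +kernel⟩

theorem c_mm_023 : CertN 0 536870912 1073741824 536870912 67108864 67108864 3 true false false .up 0 2 3
    ndN0q0 ndN3q2 pcN3 Cut.none Ext.none :=
  certNK0 (fam := true) (s1 := false) (s2 := false) (a := 0) (b := 2) (c := 3) (cn := .up) (n1 := ndN0q0) (n2 := ndN3q2) (pc := pcN3) (cut := Cut.none) (xt := Ext.none) (P1 := 0) (W1 := 536870912) (P2 := 1073741824) (W2 := 536870912) (P3 := 67108864) (W3 := 67108864) (N0 := 3)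
    rfl rfl rfl k0_mm_023

noncomputable def f_mm_033 : ℕ → ℕ → ℕ → ℕ → Bool := onCell 0 536870912 0 1230186008 67108864 67108864
    (rowNK 3 0 true false false .pnn 0 3 3 (qsf 0 536870912 0 1230186008 3) ndN0q0 ndN3q3 pcN3 Cut.none Ext.none)

def k0_mm_033 : ∃ t, chk3 f_mm_033 t 1 1 1 = true :=
  ⟨(l 5), by decide +kernel⟩

theorem c_mm_033 : CertN 0 536870912 0 1230186008 67108864 67108864 3 true false false .pnn 0 3 3
    ndN0q0 ndN3q3 pcN3 Cut.none Ext.none :=
  certNK0 (fam := true) (s1 := false) (s2 := false) (a := 0) (b := 3) (c := 3) (cn := .pnn) (n1 := ndN0q0) (n2 := ndN3q3) (pc := pcN3) (cut := Cut.none) (xt := Ext.none) (P1 := 0) (W1 := 536870912) (P2 := 0) (W2 := 1230186008) (P3 := 67108864) (W3 := 67108864) (N0 := 3)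
    rfl rfl rfl k0_mm_033

noncomputable def f_mm_101 : ℕ → ℕ → ℕ → ℕ → Bool := onCell 536870912 536870912 0 536870912 67108864 67108864
    (rowNK 3 0 true false false .npn 1 0 1 (qsf 536870912 536870912 0 536870912 1) ndN0q1 ndN3q0 pcN1 Cut.none Ext.none)

def k0_mm_101 : ∃ t, chk3 f_mm_101 t 1 1 1 = true :=
  ⟨(l 4), by decide +kernel⟩

theorem c_mm_101 : CertN 536870912 536870912 0 536870912 67108864 67108864 3 true false false .npn 1 0 1
    ndN0q1 ndN3q0 pcN1 Cut.none Ext.none :=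
  certNK0 (fam := true) (s1 := false) (s2 := false) (a := 1) (b := 0) (c := 1) (cn := .npn) (n1 := ndN0q1) (n2 := ndN3q0) (pc := pcN1) (cut := Cut.none) (xt := Ext.none) (P1 := 536870912) (W1 := 536870912) (P2 := 0) (W2 := 536870912) (P3 := 67108864) (W3 := 67108864) (N0 := 3)
    rfl rfl rfl k0_mm_101

noncomputable def f_mm_102 : ℕ → ℕ → ℕ → ℕ → Bool := onCell 536870912 536870912 0 536870912 67108864 67108864
    (rowNK 3 0 true false false .npp 1 0 2 (qsf 536870912 536870912 0 536870912 2) ndN0q1 ndN3q0 pcN2 Cut.none Ext.none)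

def k0_mm_102 : ∃ t, chk3 f_mm_102 t 1 1 1 = true :=
  ⟨(l 4), by decide +kernel⟩

theorem c_mm_102 : CertN 536870912 536870912 0 536870912 67108864 67108864 3 true false false .npp 1 0 2
    ndN0q1 ndN3q0 pcN2 Cut.none Ext.none :=
  certNK0 (fam := true) (s1 := false) (s2 := false) (a := 1) (b := 0) (c := 2) (cn := .npp) (n1 := ndN0q1) (n2 := ndN3q0) (pc := pcN2) (cut := Cut.none) (xt := Ext.none) (P1 := 536870912) (W1 := 536870912) (P2 := 0) (W2 := 536870912) (P3 := 67108864) (W3 := 67108864) (N0 := 3)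
    rfl rfl rfl k0_mm_102

noncomputable def f_mm_112 : ℕ → ℕ → ℕ → ℕ → Bool := onCell 536870912 536870912 536870912 536870912 67108864 67108864
    (rowNK 3 0 true false false .dn 1 1 2 (qsf 536870912 536870912 536870912 536870912 2) ndN0q1 ndN3q1 pcN2 Cut.none Ext.none)

def k0_mm_112 : ∃ t, chk3 f_mm_112 t 1 1 1 = true :=
  ⟨(l 4), by decide +kernel⟩

theorem c_mm_112 : CertN 536870912 536870912 536870912 536870912 67108864 67108864 3 true false false .dn 1 1 2
    ndN0q1 ndN3q1 pcN2 Cut.none Ext.none :=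
  certNK0 (fam := true) (s1 := false) (s2 := false) (a := 1) (b := 1) (c := 2) (cn := .dn) (n1 := ndN0q1) (n2 := ndN3q1) (pc := pcN2) (cut := Cut.none) (xt := Ext.none) (P1 := 536870912) (W1 := 536870912) (P2 := 536870912) (W2 := 536870912) (P3 := 67108864) (W3 := 67108864) (N0 := 3)
    rfl rfl rfl k0_mm_112

noncomputable def f_mm_113 : ℕ → ℕ → ℕ → ℕ → Bool := onCell 536870912 536870912 536870912 536870912 67108864 67108864
    (rowNK 3 0 true false false .nn 1 1 3 (qsf 536870912 536870912 536870912 536870912 3) ndN0q1 ndN3q1 pcN3 Cut.none Ext.none)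

def k0_mm_113 : ∃ t, chk3 f_mm_113 t 1 1 1 = true :=
  ⟨(l 4), by decide +kernel⟩

theorem c_mm_113 : CertN 536870912 536870912 536870912 536870912 67108864 67108864 3 true false false .nn 1 1 3
    ndN0q1 ndN3q1 pcN3 Cut.none Ext.none :=
  certNK0 (fam := true) (s1 := false) (s2 := false) (a := 1) (b := 1) (c := 3) (cn := .nn) (n1 := ndN0q1) (n2 := ndN3q1) (pc := pcN3) (cut := Cut.none) (xt := Ext.none) (P1 := 536870912) (W1 := 536870912) (P2 := 536870912) (W2 := 536870912) (P3 := 67108864) (W3 := 67108864) (N0 := 3)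
    rfl rfl rfl k0_mm_113

noncomputable def f_mm_123 : ℕ → ℕ → ℕ → ℕ → Bool := onCell 536870912 536870912 1073741824 536870912 67108864 67108864
    (rowNK 3 0 true false false .npn 1 2 3 (qsf 536870912 536870912 1073741824 536870912 3) ndN0q1 ndN3q2 pcN3 Cut.none Ext.none)

def k0_mm_123 : ∃ t, chk3 f_mm_123 t 1 1 1 = true :=
  ⟨(l 4), by decide +kernel⟩

theorem c_mm_123 : CertN 536870912 536870912 1073741824 536870912 67108864 67108864 3 true false false .npn 1 2 3
    ndN0q1 ndN3q2 pcN3 Cut.none Ext.none :=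
  certNK0 (fam := true) (s1 := false) (s2 := false) (a := 1) (b := 2) (c := 3) (cn := .npn) (n1 := ndN0q1) (n2 := ndN3q2) (pc := pcN3) (cut := Cut.none) (xt := Ext.none) (P1 := 536870912) (W1 := 536870912) (P2 := 1073741824) (W2 := 536870912) (P3 := 67108864) (W3 := 67108864) (N0 := 3)
    rfl rfl rfl k0_mm_123

noncomputable def f_mm_133 : ℕ → ℕ → ℕ → ℕ → Bool := onCell 536870912 536870912 0 1230186008 67108864 67108864
    (rowNK 3 0 true false false .dn 1 3 3 (qsf 536870912 536870912 0 1230186008 3) ndN0q1 ndN3q3 pcN3 Cut.none Ext.none)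

def k0_mm_133 : ∃ t, chk3 f_mm_133 t 1 1 1 = true :=
  ⟨(l 4), by decide +kernel⟩

theorem c_mm_133 : CertN 536870912 536870912 0 1230186008 67108864 67108864 3 true false false .dn 1 3 3
    ndN0q1 ndN3q3 pcN3 Cut.none Ext.none :=
  certNK0 (fam := true) (s1 := false) (s2 := false) (a := 1) (b := 3) (c := 3) (cn := .dn) (n1 := ndN0q1) (n2 := ndN3q3) (pc := pcN3) (cut := Cut.none) (xt := Ext.none) (P1 := 536870912) (W1 := 536870912) (P2 := 0) (W2 := 1230186008) (P3 := 67108864) (W3 := 67108864) (N0 := 3)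
    rfl rfl rfl k0_mm_133

noncomputable def f_mm_202 : ℕ → ℕ → ℕ → ℕ → Bool := onCell 0 536870912 0 536870912 67108864 67108864
    (rowNK 3 0 true false false .pp 2 0 2 (qsf 0 536870912 0 536870912 2) ndN0q2 ndN3q0 pcN2 Cut.none Ext.none)

def k0_mm_202 : ∃ t, chk3 f_mm_202 t 1 1 1 = true :=
  ⟨(b (a (b (b (l 18912392) (l 18403784)) (l 4)) (l 4)) (l 4)), by decide +kernel⟩

theorem c_mm_202 : CertN 0 536870912 0 536870912 67108864 67108864 3 true false false .pp 2 0 2
    ndN0q2 ndN3q0 pcN2 Cut.none Ext.none :=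
  certNK0 (fam := true) (s1 := false) (s2 := false) (a := 2) (b := 0) (c := 2) (cn := .pp) (n1 := ndN0q2) (n2 := ndN3q0) (pc := pcN2) (cut := Cut.none) (xt := Ext.none) (P1 := 0) (W1 := 536870912) (P2 := 0) (W2 := 536870912) (P3 := 67108864) (W3 := 67108864) (N0 := 3)
    rfl rfl rfl k0_mm_202

noncomputable def f_mm_203 : ℕ → ℕ → ℕ → ℕ → Bool := onCell 0 536870912 1610612736 536870912 67108864 67108864
    (rowNK 3 1 true false false .up 2 0 3 (qsf 0 536870912 0 536870912 3) ndN0q2 ndN3q0 pcN3 Cut.none Ext.none)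

def k0_mm_203 : ∃ t, chk3 f_mm_203 t 1 1 1 = true :=
  ⟨(l 4), by decide +kernel⟩

theorem c_mm_203 : CertN 0 536870912 0 536870912 67108864 67108864 3 true false false .up 2 0 3
    ndN0q2 ndN3q0 pcN3 Cut.none Ext.none :=
  certNK1 (fam := true) (s1 := false) (s2 := false) (a := 2) (b := 0) (c := 3) (cn := .up) (n1 := ndN0q2) (n2 := ndN3q0) (pc := pcN3) (cut := Cut.none) (xt := Ext.none) (P1 := 0) (W1 := 536870912) (P2 := 0) (W2 := 536870912) (P3 := 67108864) (W3 := 67108864) (N0 := 3)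
    rfl rfl rfl (fun _ => rfl) k0_mm_203

noncomputable def f_mm_213 : ℕ → ℕ → ℕ → ℕ → Bool := onCell 0 536870912 536870912 536870912 67108864 67108864
    (rowNK 3 0 true false false .pnn 2 1 3 (qsf 0 536870912 536870912 536870912 3) ndN0q2 ndN3q1 pcN3 Cut.none Ext.none)

def k0_mm_213 : ∃ t, chk3 f_mm_213 t 1 1 1 = true :=
  ⟨(l 4), by decide +kernel⟩

theorem c_mm_213 : CertN 0 536870912 536870912 536870912 67108864 67108864 3 true false false .pnn 2 1 3
    ndN0q2 ndN3q1 pcN3 Cut.none Ext.none :=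
  certNK0 (fam := true) (s1 := false) (s2 := false) (a := 2) (b := 1) (c := 3) (cn := .pnn) (n1 := ndN0q2) (n2 := ndN3q1) (pc := pcN3) (cut := Cut.none) (xt := Ext.none) (P1 := 0) (W1 := 536870912) (P2 := 536870912) (W2 := 536870912) (P3 := 67108864) (W3 := 67108864) (N0 := 3)
    rfl rfl rfl k0_mm_213

end Pool.Agent.Strip051.G.I1_16_1_8.Tab.C.NA03

namespace Pool.Agent.Strip051.G.I1_16_1_8.Tab.C.NA04

open Pool.Agent.Strip051.PB Pool.Agent.Strip051.PB.T
open Pool.Agent.Strip051.G.I1_16_1_8.Tab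

noncomputable def f_pp_001 : ℕ → ℕ → ℕ → ℕ → Bool := onCell 0 536870912 0 536870912 67108864 67108864
    (rowNK 3 0 true true true .up 0 0 1 (qsf 0 536870912 0 536870912 1) ndN0q0 ndN4q0 pcN1 Cut.none Ext.none)

def k0_pp_001 : ∃ t, chk3 f_pp_001 t 1 1 1 = true :=
  ⟨(l 4), by decide +kernel⟩

theorem c_pp_001 : CertN 0 536870912 0 536870912 67108864 67108864 3 true true true .up 0 0 1
    ndN0q0 ndN4q0 pcN1 Cut.none Ext.none :=
  certNK0 (fam := true) (s1 := true) (s2 := true) (a := 0) (b := 0) (c := 1) (cn := .up) (n1 := ndN0q0) (n2 := ndN4q0) (pc := pcN1) (cut := Cut.none) (xt := Ext.none) (P1 := 0) (W1 := 536870912) (P2 := 0) (W2 := 536870912) (P3 := 67108864) (W3 := 67108864) (N0 := 3)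
    rfl rfl rfl k0_pp_001

noncomputable def f_pp_011 : ℕ → ℕ → ℕ → ℕ → Bool := onCell 0 536870912 536870912 536870912 67108864 67108864
    (rowNK 3 0 true true true .pnn 0 1 1 (qsf 0 536870912 536870912 536870912 1) ndN0q0 ndN4q1 pcN1 Cut.none Ext.none)

def k0_pp_011 : ∃ t, chk3 f_pp_011 t 1 1 1 = true :=
  ⟨(l 4), by decide +kernel⟩

theorem c_pp_011 : CertN 0 536870912 536870912 536870912 67108864 67108864 3 true true true .pnn 0 1 1
    ndN0q0 ndN4q1 pcN1 Cut.none Ext.none :=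
  certNK0 (fam := true) (s1 := true) (s2 := true) (a := 0) (b := 1) (c := 1) (cn := .pnn) (n1 := ndN0q0) (n2 := ndN4q1) (pc := pcN1) (cut := Cut.none) (xt := Ext.none) (P1 := 0) (W1 := 536870912) (P2 := 536870912) (W2 := 536870912) (P3 := 67108864) (W3 := 67108864) (N0 := 3)
    rfl rfl rfl k0_pp_011

noncomputable def f_pp_012 : ℕ → ℕ → ℕ → ℕ → Bool := onCell 0 536870912 536870912 536870912 67108864 67108864
    (rowNK 3 0 true true true .pnp 0 1 2 (qsf 0 536870912 536870912 536870912 2) ndN0q0 ndN4q1 pcN2 Cut.none Ext.none)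

def k0_pp_012 : ∃ t, chk3 f_pp_012 t 1 1 1 = true :=
  ⟨(l 4), by decide +kernel⟩

theorem c_pp_012 : CertN 0 536870912 536870912 536870912 67108864 67108864 3 true true true .pnp 0 1 2
    ndN0q0 ndN4q1 pcN2 Cut.none Ext.none :=
  certNK0 (fam := true) (s1 := true) (s2 := true) (a := 0) (b := 1) (c := 2) (cn := .pnp) (n1 := ndN0q0) (n2 := ndN4q1) (pc := pcN2) (cut := Cut.none) (xt := Ext.none) (P1 := 0) (W1 := 536870912) (P2 := 536870912) (W2 := 536870912) (P3 := 67108864) (W3 := 67108864) (N0 := 3)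
    rfl rfl rfl k0_pp_012

noncomputable def f_pp_022 : ℕ → ℕ → ℕ → ℕ → Bool := onCell 0 536870912 1073741824 536870912 67108864 67108864
    (rowNK 3 0 true true true .pp 0 2 2 (qsf 0 536870912 1073741824 536870912 2) ndN0q0 ndN4q2 pcN2 Cut.none Ext.none)

def k0_pp_022 : ∃ t, chk3 f_pp_022 t 1 1 1 = true :=
  ⟨(l 4), by decide +kernel⟩

theorem c_pp_022 : CertN 0 536870912 1073741824 536870912 67108864 67108864 3 true true true .pp 0 2 2
    ndN0q0 ndN4q2 pcN2 Cut.none Ext.none :=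
  certNK0 (fam := true) (s1 := true) (s2 := true) (a := 0) (b := 2) (c := 2) (cn := .pp) (n1 := ndN0q0) (n2 := ndN4q2) (pc := pcN2) (cut := Cut.none) (xt := Ext.none) (P1 := 0) (W1 := 536870912) (P2 := 1073741824) (W2 := 536870912) (P3 := 67108864) (W3 := 67108864) (N0 := 3)
    rfl rfl rfl k0_pp_022

noncomputable def f_pp_023 : ℕ → ℕ → ℕ → ℕ → Bool := onCell 0 536870912 1073741824 536870912 67108864 67108864
    (rowNK 3 0 true true true .up 0 2 3 (qsf 0 536870912 1073741824 536870912 3) ndN0q0 ndN4q2 pcN3 Cut.none Ext.none)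

def k0_pp_023 : ∃ t, chk3 f_pp_023 t 1 1 1 = true :=
  ⟨(l 4), by decide +kernel⟩

theorem c_pp_023 : CertN 0 536870912 1073741824 536870912 67108864 67108864 3 true true true .up 0 2 3
    ndN0q0 ndN4q2 pcN3 Cut.none Ext.none :=
  certNK0 (fam := true) (s1 := true) (s2 := true) (a := 0) (b := 2) (c := 3) (cn := .up) (n1 := ndN0q0) (n2 := ndN4q2) (pc := pcN3) (cut := Cut.none) (xt := Ext.none) (P1 := 0) (W1 := 536870912) (P2 := 1073741824) (W2 := 536870912) (P3 := 67108864) (W3 := 67108864) (N0 := 3)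
    rfl rfl rfl k0_pp_023

noncomputable def f_pp_033 : ℕ → ℕ → ℕ → ℕ → Bool := onCell 0 536870912 0 1230186008 67108864 67108864
    (rowNK 3 0 true true true .pnn 0 3 3 (qsf 0 536870912 0 1230186008 3) ndN0q0 ndN4q3 pcN3 Cut.none Ext.none)

def k0_pp_033 : ∃ t, chk3 f_pp_033 t 1 1 1 = true :=
  ⟨(l 4), by decide +kernel⟩

theorem c_pp_033 : CertN 0 536870912 0 1230186008 67108864 67108864 3 true true true .pnn 0 3 3
    ndN0q0 ndN4q3 pcN3 Cut.none Ext.none :=
  certNK0 (fam := true) (s1 := true) (s2 := true) (a := 0) (b := 3) (c := 3) (cn := .pnn) (n1 := ndN0q0) (n2 := ndN4q3) (pc := pcN3) (cut := Cut.none) (xt := Ext.none) (P1 := 0) (W1 := 536870912) (P2 := 0) (W2 := 1230186008) (P3 := 67108864) (W3 := 67108864) (N0 := 3)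
    rfl rfl rfl k0_pp_033

noncomputable def f_pp_101 : ℕ → ℕ → ℕ → ℕ → Bool := onCell 536870912 536870912 0 536870912 67108864 67108864
    (rowNK 3 0 true true true .npn 1 0 1 (qsf 536870912 536870912 0 536870912 1) ndN0q1 ndN4q0 pcN1 Cut.none Ext.none)

def k0_pp_101 : ∃ t, chk3 f_pp_101 t 1 1 1 = true :=
  ⟨(l 4), by decide +kernel⟩

theorem c_pp_101 : CertN 536870912 536870912 0 536870912 67108864 67108864 3 true true true .npn 1 0 1
    ndN0q1 ndN4q0 pcN1 Cut.none Ext.none :=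
  certNK0 (fam := true) (s1 := true) (s2 := true) (a := 1) (b := 0) (c := 1) (cn := .npn) (n1 := ndN0q1) (n2 := ndN4q0) (pc := pcN1) (cut := Cut.none) (xt := Ext.none) (P1 := 536870912) (W1 := 536870912) (P2 := 0) (W2 := 536870912) (P3 := 67108864) (W3 := 67108864) (N0 := 3)
    rfl rfl rfl k0_pp_101

noncomputable def f_pp_102 : ℕ → ℕ → ℕ → ℕ → Bool := onCell 536870912 536870912 0 536870912 67108864 67108864
    (rowNK 3 0 true true true .npp 1 0 2 (qsf 536870912 536870912 0 536870912 2) ndN0q1 ndN4q0 pcN2 Cut.none Ext.none)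

def k0_pp_102 : ∃ t, chk3 f_pp_102 t 1 1 1 = true :=
  ⟨(l 4), by decide +kernel⟩

theorem c_pp_102 : CertN 536870912 536870912 0 536870912 67108864 67108864 3 true true true .npp 1 0 2
    ndN0q1 ndN4q0 pcN2 Cut.none Ext.none :=
  certNK0 (fam := true) (s1 := true) (s2 := true) (a := 1) (b := 0) (c := 2) (cn := .npp) (n1 := ndN0q1) (n2 := ndN4q0) (pc := pcN2) (cut := Cut.none) (xt := Ext.none) (P1 := 536870912) (W1 := 536870912) (P2 := 0) (W2 := 536870912) (P3 := 67108864) (W3 := 67108864) (N0 := 3)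
    rfl rfl rfl k0_pp_102

noncomputable def f_pp_112 : ℕ → ℕ → ℕ → ℕ → Bool := onCell 536870912 536870912 536870912 536870912 67108864 67108864
    (rowNK 3 0 true true true .dn 1 1 2 (qsf 536870912 536870912 536870912 536870912 2) ndN0q1 ndN4q1 pcN2 Cut.none Ext.none)

def k0_pp_112 : ∃ t, chk3 f_pp_112 t 1 1 1 = true :=
  ⟨(l 4), by decide +kernel⟩

theorem c_pp_112 : CertN 536870912 536870912 536870912 536870912 67108864 67108864 3 true true true .dn 1 1 2
    ndN0q1 ndN4q1 pcN2 Cut.none Ext.none :=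
  certNK0 (fam := true) (s1 := true) (s2 := true) (a := 1) (b := 1) (c := 2) (cn := .dn) (n1 := ndN0q1) (n2 := ndN4q1) (pc := pcN2) (cut := Cut.none) (xt := Ext.none) (P1 := 536870912) (W1 := 536870912) (P2 := 536870912) (W2 := 536870912) (P3 := 67108864) (W3 := 67108864) (N0 := 3)
    rfl rfl rfl k0_pp_112

noncomputable def f_pp_113 : ℕ → ℕ → ℕ → ℕ → Bool := onCell 536870912 536870912 536870912 536870912 67108864 67108864
    (rowNK 3 0 true true true .nn 1 1 3 (qsf 536870912 536870912 536870912 536870912 3) ndN0q1 ndN4q1 pcN3 Cut.none Ext.none)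

def k0_pp_113 : ∃ t, chk3 f_pp_113 t 1 1 1 = true :=
  ⟨(l 4), by decide +kernel⟩

theorem c_pp_113 : CertN 536870912 536870912 536870912 536870912 67108864 67108864 3 true true true .nn 1 1 3
    ndN0q1 ndN4q1 pcN3 Cut.none Ext.none :=
  certNK0 (fam := true) (s1 := true) (s2 := true) (a := 1) (b := 1) (c := 3) (cn := .nn) (n1 := ndN0q1) (n2 := ndN4q1) (pc := pcN3) (cut := Cut.none) (xt := Ext.none) (P1 := 536870912) (W1 := 536870912) (P2 := 536870912) (W2 := 536870912) (P3 := 67108864) (W3 := 67108864) (N0 := 3)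
    rfl rfl rfl k0_pp_113

noncomputable def f_pp_123 : ℕ → ℕ → ℕ → ℕ → Bool := onCell 536870912 536870912 1073741824 536870912 67108864 67108864
    (rowNK 3 0 true true true .npn 1 2 3 (qsf 536870912 536870912 1073741824 536870912 3) ndN0q1 ndN4q2 pcN3 Cut.none Ext.none)

def k0_pp_123 : ∃ t, chk3 f_pp_123 t 1 1 1 = true :=
  ⟨(l 4), by decide +kernel⟩

theorem c_pp_123 : CertN 536870912 536870912 1073741824 536870912 67108864 67108864 3 true true true .npn 1 2 3
    ndN0q1 ndN4q2 pcN3 Cut.none Ext.none :=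
  certNK0 (fam := true) (s1 := true) (s2 := true) (a := 1) (b := 2) (c := 3) (cn := .npn) (n1 := ndN0q1) (n2 := ndN4q2) (pc := pcN3) (cut := Cut.none) (xt := Ext.none) (P1 := 536870912) (W1 := 536870912) (P2 := 1073741824) (W2 := 536870912) (P3 := 67108864) (W3 := 67108864) (N0 := 3)
    rfl rfl rfl k0_pp_123

noncomputable def f_pp_133 : ℕ → ℕ → ℕ → ℕ → Bool := onCell 536870912 536870912 0 1230186008 67108864 67108864
    (rowNK 3 0 true true true .dn 1 3 3 (qsf 536870912 536870912 0 1230186008 3) ndN0q1 ndN4q3 pcN3 Cut.none Ext.none)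

def k0_pp_133 : ∃ t, chk3 f_pp_133 t 1 1 1 = true :=
  ⟨(l 4), by decide +kernel⟩

theorem c_pp_133 : CertN 536870912 536870912 0 1230186008 67108864 67108864 3 true true true .dn 1 3 3
    ndN0q1 ndN4q3 pcN3 Cut.none Ext.none :=
  certNK0 (fam := true) (s1 := true) (s2 := true) (a := 1) (b := 3) (c := 3) (cn := .dn) (n1 := ndN0q1) (n2 := ndN4q3) (pc := pcN3) (cut := Cut.none) (xt := Ext.none) (P1 := 536870912) (W1 := 536870912) (P2 := 0) (W2 := 1230186008) (P3 := 67108864) (W3 := 67108864) (N0 := 3)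
    rfl rfl rfl k0_pp_133

noncomputable def f_pp_202 : ℕ → ℕ → ℕ → ℕ → Bool := onCell 0 536870912 0 536870912 67108864 67108864
    (rowNK 3 0 true true true .pp 2 0 2 (qsf 0 536870912 0 536870912 2) ndN0q2 ndN4q0 pcN2 Cut.none Ext.none)

def k0_pp_202 : ∃ t, chk3 f_pp_202 t 1 1 1 = true :=
  ⟨(l 4), by decide +kernel⟩

theorem c_pp_202 : CertN 0 536870912 0 536870912 67108864 67108864 3 true true true .pp 2 0 2
    ndN0q2 ndN4q0 pcN2 Cut.none Ext.none :=
  certNK0 (fam := true) (s1 := true) (s2 := true) (a := 2) (b := 0) (c := 2) (cn := .pp) (n1 := ndN0q2) (n2 := ndN4q0) (pc := pcN2) (cut := Cut.none) (xt := Ext.none) (P1 := 0) (W1 := 536870912) (P2 := 0) (W2 := 536870912) (P3 := 67108864) (W3 := 67108864) (N0 := 3)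
    rfl rfl rfl k0_pp_202

noncomputable def f_pp_203 : ℕ → ℕ → ℕ → ℕ → Bool := onCell 0 536870912 0 536870912 67108864 67108864
    (rowNK 3 0 true true true .up 2 0 3 (qsf 0 536870912 0 536870912 3) ndN0q2 ndN4q0 pcN3 Cut.none Ext.none)

def k0_pp_203 : ∃ t, chk3 f_pp_203 t 1 1 1 = true :=
  ⟨(l 4), by decide +kernel⟩

theorem c_pp_203 : CertN 0 536870912 0 536870912 67108864 67108864 3 true true true .up 2 0 3
    ndN0q2 ndN4q0 pcN3 Cut.none Ext.none :=
  certNK0 (fam := true) (s1 := true) (s2 := true) (a := 2) (b := 0) (c := 3) (cn := .up) (n1 := ndN0q2) (n2 := ndN4q0) (pc := pcN3) (cut := Cut.none) (xt := Ext.none) (P1 := 0) (W1 := 536870912) (P2 := 0) (W2 := 536870912) (P3 := 67108864) (W3 := 67108864) (N0 := 3)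
    rfl rfl rfl k0_pp_203

noncomputable def f_pp_213 : ℕ → ℕ → ℕ → ℕ → Bool := onCell 0 536870912 536870912 536870912 67108864 67108864
    (rowNK 3 0 true true true .pnn 2 1 3 (qsf 0 536870912 536870912 536870912 3) ndN0q2 ndN4q1 pcN3 Cut.none Ext.none)

def k0_pp_213 : ∃ t, chk3 f_pp_213 t 1 1 1 = true :=
  ⟨(l 4), by decide +kernel⟩

theorem c_pp_213 : CertN 0 536870912 536870912 536870912 67108864 67108864 3 true true true .pnn 2 1 3
    ndN0q2 ndN4q1 pcN3 Cut.none Ext.none :=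
  certNK0 (fam := true) (s1 := true) (s2 := true) (a := 2) (b := 1) (c := 3) (cn := .pnn) (n1 := ndN0q2) (n2 := ndN4q1) (pc := pcN3) (cut := Cut.none) (xt := Ext.none) (P1 := 0) (W1 := 536870912) (P2 := 536870912) (W2 := 536870912) (P3 := 67108864) (W3 := 67108864) (N0 := 3)
    rfl rfl rfl k0_pp_213

noncomputable def f_pm_001 : ℕ → ℕ → ℕ → ℕ → Bool := onCell 0 536870912 536870912 536870912 67108864 67108864
    (rowNK 3 1 true true false .up 0 0 1 (qsf 0 536870912 0 536870912 1) ndN0q0 ndN4q0 pcN1 Cut.none Ext.none)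

def k0_pm_001 : ∃ t, chk3 f_pm_001 t 1 1 1 = true :=
  ⟨(a (b (l 3) (b (b (l 3) (l 2)) (l 2))) (b (b (l 3) (a (l 3) (b (a (l 3) (b (a (l 3) (b (l 3) (a (l 3) (l 327122300039)))) (a (b (l 3) (a (l 3) (l 320679812327))) (b (a (l 327122293047) (l 355039516887)) (l 268066542855))))) (a (b (a (l 3) (b (l 3) (a (l 3) (b (l 318532345815) (l 312626728439))))) (a (b (a (l 3) (l 322827404087)) (a (l 321216773607) (b (l 314237349079) (l 16847936)))) (b (a (b (l 316384848135) (l 345912711447)) (l 16815592)) (l 16829672)))) (b (a (a (b (b (l 319606099991) (l 313700482343)) (l 16842032)) (l 260013472823)) (l 16831856)) (a (l 16857808) (l 16926000))))))) (b (a (b (a (b (l 3) (a (l 3) (b (l 3) (a (l 3) (b (l 3) (a (l 316921708791) (l 303499910759))))))) (b (a (l 3) (b (a (l 3) (l 319606163095)) (a (b (l 317458595143) (l 350207746279)) (l 253570947991)))) (a (b (a (b (l 3) (l 318532352567)) (b (l 315847982471) (l 324974751607))) (a (l 275045815863) (l 16812504))) (b (a (l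 16856680) (l 16836696)) (l 16881408))))) (a (b (a (l 2) (b (a (l 2) (l 156867045799)) (l 2))) (l 2)) (a (b (b (l 16860560) (l 16960104)) (l 17153376)) (b (l 17076200) (l 17160000))))) (b (a (b (a (b (a (l 305110550823) (l 16802688)) (l 16839120)) (l 16891040)) (l 16829432)) (b (l 16980192) (l 17123728))) (a (a (l 17368800) (l 17237208)) (l 17343584)))) (a (b (a (l 2) (b (l 17459824) (l 2))) (l 2)) (b (a (l 17790584) (l 17711840)) (a (l 18083608) (l 18192608))))))), by decide +kernel⟩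

theorem c_pm_001 : CertN 0 536870912 0 536870912 67108864 67108864 3 true true false .up 0 0 1
    ndN0q0 ndN4q0 pcN1 Cut.none Ext.none :=
  certNK1 (fam := true) (s1 := true) (s2 := false) (a := 0) (b := 0) (c := 1) (cn := .up) (n1 := ndN0q0) (n2 := ndN4q0) (pc := pcN1) (cut := Cut.none) (xt := Ext.none) (P1 := 0) (W1 := 536870912) (P2 := 0) (W2 := 536870912) (P3 := 67108864) (W3 := 67108864) (N0 := 3)
    rfl rfl rfl (fun _ => rfl) k0_pm_001

end Pool.Agent.Strip051.G.I1_16_1_8.Tab.C.NA04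

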