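import Pool.Agent.Strip051.G.I1_16_1_8.Tab
import Pool.Agent.Strip051.PB.RowK

/-! # Certificates N3 (generated) -/

set_option linter.all false
set_option maxRecDepth 100000

namespace Pool.Agent.Strip051.G.I1_16_1_8.Tab.C.NA04

open Pool.Agent.Strip051.PB Pool.Agent.Strip051.PB.T
open Pool.Agent.Strip051.G.I1_16_1_8.Tab

noncomputable def cut_pm_011 : Cut := Cut.of [[⟨0, 0, 0, 67108864⟩, ⟨1, 1, 0, 67108864⟩, ⟨2, 1, 0, 67108864⟩]]

noncomputable def f_pm_011 : ℕ → ℕ → ℕ → ℕ → Bool := onCell 0 536870912 536870912 536870912 67108864 67108864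
    (rowNK 3 1 true true false .pnn 0 1 1 (qsf 0 536870912 536870912 536870912 1) ndN0q0 ndN4q1 pcN1 cut_pm_011 Ext.none)

def k0_pm_011 : ∃ t, chk3 f_pm_011 t 1 2 1 = true :=
  ⟨(a (l 3) (b (l 1) (a (l 3) (l 1)))), by decide +kernel⟩

def k1_pm_011 : ∃ t, chk3 f_pm_011 t 2 6 1 = true :=
  ⟨(a (l 3) (b (l 3) (a (l 3) (b (l 3) (a (b (l 3) (a (l 3) (b (l 3) (a (l 3) (b (l 3) (l 312089827287)))))) (b (a (l 3) (b (a (l 3) (l 316384822551)) (a (b (l 3) (l 313700445671)) (l 311552969527)))) (a (b (a (l 3) (b (l 313700449927) (l 335175268759))) (a (l 278266989127) (l 16798560))) (b (a (l 243907246327) (l 16810464)) (l 16822904))))))))), by decide +kernel⟩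

def k2_pm_011 : ∃ t, chk3 f_pm_011 t 4 14 1 = true :=
  ⟨(a (l 3) (b (l 3) (a (l 3) (b (l 3) (a (l 3) (b (l 3) (a (b (l 3) (a (l 3) (b (l 3) (l 302962995623)))) (b (a (l 3) (b (l 301352380887) (a (l 313163534919) (l 251960257591)))) (b (a (a (l 299741761879) (l 273435093799)) (c (l 117205654759) (l 113984428183))) (a (a (a (l 213305544759) (l 16784864)) (l 16790672)) (l 16805392))))))))))), by decide +kernel⟩

def k3_pm_011 : ∃ t, chk3 f_pm_011 t 8 30 1 = true :=
  ⟨(a (l 3) (b (l 3) (a (l 3) (b (l 3) (a (l 3) (b (l 3) (b (l 3) (a (l 3) (a (b (l 3) (b (l 3) (b (l 378661779015) (a (l 3) (l 182167015511))))) (a (b (l 3) (b (a (l 364703133687) (l 159618436807)) (l 16781984))) (b (b (l 399062862935) (a (l 355039456951) (l 142975437927))) (l 16781280)))))))))))), by decide +kernel⟩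

def k4_pm_011 : ∃ t, chk3 f_pm_011 t 16 31 1 = true :=
  ⟨(b (b (l 3) (l 6)) (l 6)), by decide +kernel⟩

def k5_pm_011 : ∃ t, chk3 f_pm_011 t 34 62 1 = true :=
  ⟨(b (a (l 3) (b (l 3) (a (l 3) (a (l 3) (b (l 3) (b (l 3) (b (b (l 313163523991) (a (l 3) (a (l 301889232967) (l 129553666199)))) (b (a (l 314774135575) (a (l 138143600855) (l 16782928))) (a (a (l 313163522247) (l 146733535575)) (l 16782688)))))))))) (a (b (b (l 3) (l 6)) (l 6)) (b (a (b (a (l 3) (b (l 3) (b (b (l 3) (a (l 3) (a (l 3) (l 223506076359)))) (b (a (l 3) (a (l 232632881895) (l 16780480))) (a (a (l 3) (l 240685945623)) (l 16778904)))))) (b (b (b (a (l 3) (a (a (l 249275882887) (l 16779200)) (l 16782288))) (a (l 6) (c (l 31306288135) (l 16779624)))) (a (l 6) (l 16781464))) (a (l 6) (l 16779792)))) (b (b (a (b (b (l 322290329719) (a (l 3) (a (l 313700393255) (l 167671501335)))) (b (a (l 3) (a (l 176261435975) (l 16783040))) (a (a (l 3) (l 184314499687)) (l 16780160)))) (a (b (a (b (l 155860341239)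 (l 16783024)) (l 16782736)) (l 16781928)) (l 16781312))) (a (b (b (a (a (l 215453012631) (l 16780448)) (l 16782232)) (l 16779624)) (l 16781416)) (l 16779688))) (b (a (l 16779752) (l 16782712)) (a (l 16782760) (l 16780480))))) (a (a (l 6) (b (b (l 16777552) (l 6)) (l 6))) (b (b (a (l 16780520) (l 16778232)) (a (c (l 16778328) (l 16778216)) (c (l 16786528) (l 16775920)))) (b (a (a (l 6) (l 16775432)) (a (l 16774296) (l 16783624))) (a (l 6) (c (l 16782304) (l 16782240))))))))), by decide +kernel⟩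

def k6_pm_011 : ∃ t, chk3 f_pm_011 t 70 124 1 = true :=
  ⟨(b (a (l 3) (b (l 3) (a (c (b (l 3) (l 328195911207)) (l 378124902951)) (a (b (l 3) (b (l 320142849783) (a (a (l 258402693511) (l 198273145495)) (l 16778960)))) (b (l 363092518439) (b (a (l 176798307095) (l 16780128)) (l 16781984))))))) (a (a (b (l 3) (b (a (a (l 312626652807) (b (l 3) (b (l 276119434071) (l 111836925927)))) (b (a (l 286856847575) (b (l 257865817591) (l 16779304))) (c (l 16778872) (l 16780056)))) (a (b (a (l 80698413287) (l 16782552)) (l 16781760)) (l 16781104)))) (a (b (b (l 3) (b (l 3) (a (l 274508816359) (c (l 141901697095) (l 139217342327))))) (b (l 16779128) (l 16785136))) (b (b (l 3) (b (a (l 262697656039) (c (l 128479923815) (l 125795569031))) (l 56002352343))) (l 16779776)))) (a (b (b (a (b (l 324974683319) (a (c (l 243907173975) (l 250886495607)) (c (l 115595021703) (l 16779160)))) (b (a (c (l 227801046343) (l 237464722551)) (c (l 101636377735) (l 16780344))) (l 16782248)))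 (l 16778608)) (b (l 16784296) (l 16782104))) (b (c (l 16781000) (l 16779832)) (b (l 16781864) (l 16790160)))))), by decide +kernel⟩

def k7_pm_011 : ∃ t, chk3 f_pm_011 t 71 124 1 = true :=
  ⟨(b (a (b (b (b (l 3) (a (l 3) (a (l 3) (a (l 375440542423) (a (l 328732782551) (l 186998853431)))))) (b (a (l 3) (a (c (l 278803783255) (l 286856846759)) (l 87677734119))) (a (c (l 306721072343) (l 314774135831)) (a (a (l 133848633111) (l 16782312)) (l 16786640))))) (b (a (b (a (l 304036721847) (a (l 148881019143) (l 16782464))) (b (a (l 162839663047) (l 16787208)) (l 16779416))) (l 16785648)) (a (l 16780696) (l 16783496)))) (a (b (b (b (a (a (l 381346122135) (l 190220079415)) (l 16779528)) (l 50633641287)) (l 16785344)) (c (l 16785912) (b (l 16793640) (l 16791488)))) (c (l 16778968) (a (b (l 16784528) (l 16790768)) (b (l 16793784) (l 16789752)))))) (a (b (b (a (l 16783784) (l 16791824)) (a (l 16781608) (c (l 16781840) (l 16789600)))) (c (l 16776032) (a (b (l 16789856)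 (l 16787664)) (b (l 16787416) (l 16785448))))) (b (c (l 16791808) (a (b (l 16789320) (l 16787344)) (l 16786296))) (c (l 16790840) (a (l 16784400) (l 16782368)))))), by decide +kernel⟩

def k8_pm_011 : ∃ t, chk3 f_pm_011 t 35 125 1 = true :=
  ⟨(a (b (a (b (b (a (l 16784752) (l 16782328)) (a (l 16782536) (l 16780120))) (b (a (l 16780312) (l 16777888)) (a (l 16778080) (c (l 16786200) (l 16786080))))) (b (b (a (l 16779904) (c (l 16788008) (l 16787896))) (a (l 16788176) (a (l 16786344) (l 16785128)))) (a (a (b (l 16786552) (l 16784320)) (b (l 16785336) (l 16783304))) (b (a (l 16784208) (l 16783208)) (l 16781800))))) (a (b (b (a (c (l 16786384) (l 16786264)) (a (l 16784504) (l 16783408))) (a (a (l 16784672) (l 16783512)) (l 16782016))) (a (c (b (l 16782160) (l 16780304)) (l 16770680)) (b (l 16780144) (l 16778280)))) (b (a (b (l 16781904) (l 16780024)) (a (l 16779464) (l 16778464))) (c (a (l 16777280) (l 16775296)) (l 16765664))))) (b (a (b (c (l 16767128) (a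 (b (l 16785528) (l 16783592)) (l 16782536))) (a (b (l 16781704) (l 16779800)) (a (l 16779248) (l 16778240)))) (b (c (l 16785496) (a (l 16780512) (l 16778488))) (c (l 16775136) (l 16775656)))) (a (a (b (a (l 16777464) (l 16776464)) (l 16773224)) (b (l 16774960) (l 16771224))) (b (c (l 16759008) (l 16771856)) (l 16768224))))), by decide +kernel⟩

def k9_pm_011 : ∃ t, chk3 f_pm_011 t 17 63 1 = true :=
  ⟨(b (a (a (l 6) (b (a (l 6) (a (l 6) (a (l 6) (b (l 16768488) (l 6))))) (l 6))) (a (b (a (a (b (a (l 16777984) (l 16776992)) (l 16763336)) (b (l 16775504) (l 16771840))) (a (b (l 16773512) (l 16769848)) (b (l 16771520) (l 16767864)))) (a (b (l 16752824) (l 6)) (b (l 16748200) (l 16744624)))) (b (a (b (l 16768528) (l 16764872)) (b (l 16764528) (l 16760880))) (b (a (l 16761264) (a (l 16758272) (l 16756280))) (c (a (l 16757912) (l 16753960)) (l 16739752)))))) (a (l 6) (b (b (a (b (l 16745920) (l 6)) (a (l 16737136) (l 16750200))) (a (l 6) (a (l 16732344) (l 16746728))))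 (a (l 6) (a (b (l 16728904) (l 6)) (b (l 16743296) (l 16721560))))))), by decide +kernel⟩

def k10_pm_011 : ∃ t, chk3 f_pm_011 t 18 60 1 = true :=
  ⟨(a (l 3) (b (l 3) (a (l 3) (b (l 3) (a (b (l 3) (b (l 350744489319) (a (l 3) (a (l 284172501975) (l 167671507031))))) (a (b (l 311016052407) (b (a (l 265382020103) (l 149954767191)) (l 16784456))) (b (a (l 274508827559) (b (l 306721071879) (l 16783448))) (l 16789304)))))))), by decide +kernel⟩

def k11_pm_011 : ∃ t, chk3 f_pm_011 t 36 61 1 = true :=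
  ⟨(b (a (l 3) (b (l 3) (a (b (l 3) (a (l 3) (l 402284100631))) (a (b (l 3) (b (l 380272394039) (a (b (l 347523256087) (l 164987147703)) (l 104320734695)))) (a (b (l 3) (b (b (l 296520529943) (l 140291085591)) (l 16781512))) (b (l 367924358791) (l 54391739943))))))) (a (a (b (l 3) (b (a (a (l 403894709639) (b (l 3) (b (l 410337161879) (a (a (l 379198647623) (l 195588787207)) (l 16779816))))) (b (b (l 404431582487) (a (l 410874032423) (l 133848632727))) (a (a (c (l 118279375719) (l 116131892135)) (l 16779920)) (l 16777584)))) (b (b (a (a (a (l 346449522023) (l 16778784)) (l 16782160)) (l 16777168)) (l 16781664)) (l 16785808)))) (a (b (b (l 3) (b (l 3) (a (l 392620422215) (b (l 355576328375) (l 111300054279))))) (b (a (a (b (l 101636378391) (l 16778080)) (l 16778280)) (l 16779048)) (l 16778520))) (b (b (l 3) (b (b (c (a (l 3) (l 309405429911)) (l 353965711335)) (a (l 335712099399) (l 16780608))) (l 50096770503))) (l 16781864)))) (a (a (b (b (b (l 400673488647)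 (b (a (l 3) (a (l 336785836439) (l 170892726631))) (c (a (l 287930588199) (l 16780216)) (l 141901697447)))) (l 16779144)) (l 16786072)) (b (b (b (b (a (l 363629383431) (l 176261436519)) (a (l 188609467511) (l 16779184))) (l 16780784)) (l 16785464)) (l 16791376))) (b (a (l 16779672) (l 16783000)) (l 16780128))))), by decide +kernel⟩

def k12_pm_011 : ∃ t, chk3 f_pm_011 t 37 61 1 = true :=
  ⟨(b (a (b (a (a (l 3) (b (l 3) (a (l 365240000919) (a (l 352355097639) (l 280414404967))))) (b (a (l 3) (a (l 312089791207) (b (l 3) (l 220821732375)))) (a (a (b (l 307794821991) (l 137069862471)) (b (l 239612214263) (l 16782216))) (b (l 89288351559) (l 16787784))))) (a (b (b (a (l 333564624743) (a (a (l 206326216247) (l 16780328)) (l 16781264))) (a (a (a (l 229411665447) (l 146733537735)) (l 16780384)) (l 16785288))) (l 16779472)) (l 16778176))) (b (a (b (b (a (a (l 304036725687) (l 201494379591)) (l 16783384)) (l 51170517111)) (l 16796512)) (l 16785904)) (c (l 16786896)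 (l 16783520)))) (a (a (b (l 16782848) (l 16795840)) (b (l 16798840) (l 16814048))) (b (l 16781928) (l 16781880)))), by decide +kernel⟩

def k13_pm_011 : ∃ t, chk3 f_pm_011 t 19 30 1 = true :=
  ⟨(b (a (b (a (l 3) (b (a (l 3) (b (l 3) (l 309942317095))) (a (b (l 310479187815) (a (l 273435088983) (b (l 238001601735) (l 16784888)))) (b (b (a (l 308868560871) (l 196662544423)) (a (l 211158058871) (l 16787232))) (l 16784360))))) (a (b (a (b (l 3) (a (l 309942310727) (b (l 299741761543) (l 145122931383)))) (b (a (l 293299312583) (b (l 267529506951) (l 16782752))) (c (a (l 90362097927) (l 16778552)) (l 65129164631)))) (a (a (a (b (b (l 213842407751) (l 16784568)) (l 16795968)) (l 16782328)) (l 16778720)) (l 16792904))) (a (a (b (l 46338684407) (l 16828520)) (l 16780160)) (l 16795184)))) (b (a (b (a (b (a (l 3) (l 309405444487)) (a (b (l 309942302887) (l 181630158871)) (l 115058166343))) (a (b (a (l 252497124951) (l 177872065479)) (l 16795152)) (l 16785968))) (l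 16784672)) (l 16786928)) (a (b (l 16829792) (l 16884760)) (l 16867736)))) (b (b (a (a (l 16793032) (l 16854448)) (l 16855480)) (a (a (l 16821448) (l 16884624)) (l 16887952))) (a (a (a (l 16805432) (l 16848888)) (a (l 16892944) (l 16916416))) (a (l 16931032) (l 17020496))))), by decide +kernel⟩

def k14_pm_011 : ∃ t, chk3 f_pm_011 t 9 62 1 = true :=
  ⟨(b (a (a (a (b (b (a (b (l 16783592) (l 16790952)) (l 16777496)) (a (c (l 16804512) (a (l 16788224) (l 16786184))) (l 16771624))) (a (b (c (l 16809480) (a (l 16784264) (l 16782224))) (c (l 16811168) (l 16779320))) (b (l 16783000) (c (l 16835480) (l 16775248))))) (b (a (l 16781824) (l 16782104)) (a (l 16773120) (l 16773144)))) (a (a (b (l 16801120) (l 16796776)) (b (l 16822432) (l 16801352))) (b (l 16794512) (l 16800128)))) (a (a (a (l 16796072) (l 16844136)) (a (l 16892416) (l 16940752))) (a (l 16939632) (l 17056056)))) (a (b (a (b (a (a (c (l 16809096) (l 16775440)) (l 16771480)) (l 16775760)) (a (a (c (l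 16802728) (l 16771608)) (l 16767664)) (l 16768968))) (a (a (l 16780432) (l 16811688)) (l 16776104))) (a (a (a (b (l 16767936) (l 16764208)) (b (l 16763904) (l 16760176))) (c (a (l 16818600) (l 16858376)) (l 16742656))) (a (c (l 16813312) (l 16747576)) (l 16762352)))) (a (c (a (l 17038048) (l 17169024)) (a (b (l 16804456) (l 16772424)) (l 16775280))) (c (l 17264512) (a (l 16884616) (l 16991472)))))), by decide +kernel⟩

def k15_pm_011 : ∃ t, chk3 f_pm_011 t 9 63 1 = true :=
  ⟨(a (a (b (a (b (a (a (l 16764944) (l 16757688)) (c (l 16765904) (l 16754456))) (c (c (b (l 16761584) (l 16757392)) (l 16736528)) (l 16736120))) (b (c (a (l 16794800) (l 16823008)) (l 16735256)) (c (a (l 16769440) (l 16789528)) (l 16728024)))) (b (a (a (b (l 16746208) (l 16742744)) (b (l 16742216) (l 16738752))) (c (b (l 16774856) (l 16733688)) (l 16718336))) (a (a (b (l 16739320) (a (l 16736936) (l 16713976))) (b (l 16735328) (l 16731960))) (a (b (l 16731328) (l 16727960)) (b (l 16727320)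 (l 16723952)))))) (b (a (a (c (b (l 16871152) (l 16827816)) (l 16728136)) (b (l 16769056) (l 16731336))) (b (l 16756392) (l 16755136))) (a (b (a (l 16749384) (l 16745336)) (b (l 16742248) (l 16749048))) (b (a (l 16741272) (l 16768136)) (a (l 16744976) (l 16730424)))))) (a (a (b (c (b (l 17133488) (l 17082736)) (b (l 16726512) (l 16716520))) (b (c (l 17001056) (l 16709512)) (a (l 16768368) (l 16779992)))) (c (b (l 17182128) (b (l 17227952) (l 17128712))) (b (b (l 16816712) (l 16772552)) (b (l 16712728) (l 16694392))))) (c (b (l 17315424) (a (l 17243752) (l 17433488))) (b (a (l 16783096) (l 16909632)) (b (l 16779592) (a (l 16774200) (l 16897400))))))), by decide +kernel⟩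

def k16_pm_011 : ∃ t, chk3 f_pm_011 t 10 14 1 = true :=
  ⟨(b (a (l 3) (b (l 3) (a (b (l 3) (a (l 3) (b (l 3) (a (l 308331716343) (b (l 308868584631) (l 308331705495)))))) (b (a (b (l 3) (a (l 3) (l 309405465751))) (b (a (l 3) (l 309405463127)) (a (l 322827228743) (l 258402731175)))) (a (b (a (l 308331716663) (b (l 308331711319) (l 16801680))) (a (l 184314533319) (l 16803616))) (l 16799640)))))) (a (b (a (l 3) (b (a (l 3) (b (l 3) (a (l 3) (b (l 3) (l 306721096839))))) (a (b (a (l 3) (b (l 3) (l 306721098615))) (a (b (l 305110486567) (a (l 302962996967) (l 319605990999))) (b (a (l 304036738183) (l 305647346535)) (l 16789712)))) (b (a (b (l 306721097767) (a (l 321216606519) (l 16794824))) (b (a (l 321216605639) (l 16789328)) (l 16794224))) (l 16797872))))) (a (b (a (b (l 3) (a (b (l 3) (l 301889252055)) (b (l 300815510487) (a (l 312626664487) (l 194515065799))))) (b (a (b (l 3) (a (l 3) (l 301352379751))) (b (a (l 303499867591) (l 316384765575)) (a (l 283098775447)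 (l 16799376)))) (a (b (a (l 299204902455) (l 16787024)) (l 16796264)) (l 16807208)))) (a (b (a (b (a (l 312626664231) (c (l 240149099847) (l 235854131959))) (l 16791144)) (l 16791512)) (l 16805984)) (l 16807800))) (a (b (b (a (b (l 174650851959) (l 16801472)) (l 16791552)) (l 16816024)) (l 16869040)) (l 16810608)))) (b (a (b (a (b (a (l 3) (b (l 308331715895) (l 324974705863))) (a (b (l 324437835959) (l 244980950311)) (l 16797912))) (b (a (b (l 320679737527) (l 16800400)) (l 16797936)) (l 16798544))) (a (l 16788464) (l 16826872))) (b (l 16817496) (l 16903976))) (a (b (l 16876008) (l 16988448)) (l 17006808))))), by decide +kernel⟩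

def k17_pm_011 : ∃ t, chk3 f_pm_011 t 11 14 1 = true :=
  ⟨(b (a (b (a (b (l 3) (a (b (l 3) (a (l 312626695767) (l 324974716695))) (b (a (l 310479209159) (l 324974713623)) (a (l 269140156071) (l 16794520))))) (b (a (b (l 312626701735) (a (l 310479205943) (l 274508868999))) (b (l 296520574615) (l 16798400))) (a (l 16804952) (l 16837888)))) (a (b (a (b (a (l 316921646007) (l 16791464)) (l 16785688)) (l 16805792)) (l 16826936)) (l 16823632))) (b (a (l 16796576) (l 16859248)) (l 16899232))) (a (b (a (l 16900760) (l 17031560)) (l 17111448)) (b (l 17126288) (l 17258080)))), by decide +kernel⟩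

def k18_pm_011 : ∃ t, chk3 f_pm_011 t 5 15 1 = true :=
  ⟨(a (b (a (b (a (b (a (l 16838520) (l 16921432)) (l 16888800)) (b (l 16961216) (l 17055224))) (a (b (l 17001432) (l 17069624)) (l 17039112))) (b (a (l 17076608) (l 17172352)) (a (l 17247184) (l 17323912)))) (a (a (b (b (l 17091368) (l 17001000)) (c (b (l 17465568) (l 17544056)) (b (l 16835920) (b (l 17032856) (l 16930744))))) (c (b (l 17432640) (l 17621632)) (b (l 17093760) (b (l 17221352) (l 17147792))))) (c (b (l 17561560) (l 17762432)) (b (l 17216288) (a (l 17290568) (l 17460488)))))) (b (a (b (l 17276200) (l 17428768)) (l 17474472)) (a (b (l 17588688) (l 17752552)) (l 17795896)))), by decide +kernel⟩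

def k19_pm_011 : ∃ t, chk3 f_pm_011 t 3 3 1 = true :=
  ⟨(b (a (b (a (b (l 3) (a (l 3) (b (l 3) (a (l 3) (b (l 3) (a (l 316921709063) (l 303499911047))))))) (b (l 1) (a (b (l 1) (a (l 247531119863) (l 1))) (l 1)))) (a (b (a (b (l 3) (a (b (l 3) (a (l 3) (l 312626716279))) (b (a (l 316384825543) (l 334638412743)) (l 239075430423)))) (b (a (b (l 317995493175) (a (l 312626717623) (l 326048466567))) (b (l 285783189431) (l 16805344))) (a (b (l 16812592) (l 16832288)) (l 16864040)))) (a (b (a (b (l 278267016311) (l 16808360)) (l 16842408)) (l 16844952)) (l 16864536))) (b (a (b (l 16860304) (l 16938776)) (l 17054568)) (a (l 17068648) (l 17159128))))) (b (l 1) (b (l 1) (l 221226028167)))) (a (b (a (b (a (b (l 16989168) (l 17120848)) (l 17170432)) (a (l 17303880) (l 17404464))) (b (l 17310400) (l 17536776))) (b (a (l 17630136) (l 17798328)) (a (l 17944512) (l 18098768)))) (b (a (l 17575744) (l 17706832)) (a (l 18074544) (l 18185064))))), by decide +kernel⟩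

theorem s20_pm_011 : ∃ t, chk3 f_pm_011 t 5 14 1 = true := ex3_a k16_pm_011 k17_pm_011

theorem s21_pm_011 : ∃ t, chk3 f_pm_011 t 5 7 1 = true := ex3_b s20_pm_011 k18_pm_011

theorem s22_pm_011 : ∃ t, chk3 f_pm_011 t 9 31 1 = true := ex3_b k14_pm_011 k15_pm_011

theorem s23_pm_011 : ∃ t, chk3 f_pm_011 t 18 61 1 = true := ex3_a k11_pm_011 k12_pm_011

theorem s24_pm_011 : ∃ t, chk3 f_pm_011 t 18 30 1 = true := ex3_b k10_pm_011 s23_pm_011

theorem s25_pm_011 : ∃ t, chk3 f_pm_011 t 9 30 1 = true := ex3_a s24_pm_011 k13_pm_011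

theorem s26_pm_011 : ∃ t, chk3 f_pm_011 t 9 15 1 = true := ex3_b s25_pm_011 s22_pm_011

theorem s27_pm_011 : ∃ t, chk3 f_pm_011 t 35 124 1 = true := ex3_a k6_pm_011 k7_pm_011

theorem s28_pm_011 : ∃ t, chk3 f_pm_011 t 35 62 1 = true := ex3_b s27_pm_011 k8_pm_011

theorem s29_pm_011 : ∃ t, chk3 f_pm_011 t 17 62 1 = true := ex3_a k5_pm_011 s28_pm_011

theorem s30_pm_011 : ∃ t, chk3 f_pm_011 t 17 31 1 = true := ex3_b s29_pm_011 k9_pm_011

theorem s31_pm_011 : ∃ t, chk3 f_pm_011 t 8 31 1 = true := ex3_a k4_pm_011 s30_pm_011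

theorem s32_pm_011 : ∃ t, chk3 f_pm_011 t 8 15 1 = true := ex3_b k3_pm_011 s31_pm_011

theorem s33_pm_011 : ∃ t, chk3 f_pm_011 t 4 15 1 = true := ex3_a s32_pm_011 s26_pm_011

theorem s34_pm_011 : ∃ t, chk3 f_pm_011 t 4 7 1 = true := ex3_b k2_pm_011 s33_pm_011

theorem s35_pm_011 : ∃ t, chk3 f_pm_011 t 2 7 1 = true := ex3_a s34_pm_011 s21_pm_011

theorem s36_pm_011 : ∃ t, chk3 f_pm_011 t 2 3 1 = true := ex3_b k1_pm_011 s35_pm_011

theorem s37_pm_011 : ∃ t, chk3 f_pm_011 t 1 3 1 = true := ex3_a s36_pm_011 k19_pm_011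

theorem s38_pm_011 : ∃ t, chk3 f_pm_011 t 1 1 1 = true := ex3_b k0_pm_011 s37_pm_011

theorem c_pm_011 : CertN 0 536870912 536870912 536870912 67108864 67108864 3 true true false .pnn 0 1 1
    ndN0q0 ndN4q1 pcN1 cut_pm_011 Ext.none :=
  certNK1 (fam := true) (s1 := true) (s2 := false) (a := 0) (b := 1) (c := 1) (cn := .pnn) (n1 := ndN0q0) (n2 := ndN4q1) (pc := pcN1) (cut := cut_pm_011) (xt := Ext.none) (P1 := 0) (W1 := 536870912) (P2 := 536870912) (W2 := 536870912) (P3 := 67108864) (W3 := 67108864) (N0 := 3)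
    rfl rfl rfl (fun _ => rfl) s38_pm_011

noncomputable def cut_pm_012 : Cut := Cut.of [[⟨0, 0, 0, 67108864⟩, ⟨1, 1, 0, 67108864⟩, ⟨2, 1, 0, 67108864⟩]]

noncomputable def f_pm_012 : ℕ → ℕ → ℕ → ℕ → Bool := onCell 1073741824 536870912 536870912 536870912 67108864 67108864
    (rowNK 3 2 true true false .pnp 0 1 2 (qsf 0 536870912 536870912 536870912 2) ndN0q0 ndN4q1 pcN2 cut_pm_012 Ext.none)

def k0_pm_012 : ∃ t, chk3 f_pm_012 t 2 2 1 = true :=
  ⟨(a (a (a (b (l 18515096) (b (l 18381488) (l 18263056))) (b (l 18601488) (b (l 18525736) (l 18457928)))) (b (l 18705992) (a (l 18658240) (l 18778416)))) (b (a (l 18787152) (l 2)) (a (l 18879864) (l 18925688)))), by decide +kernel⟩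

def k1_pm_012 : ∃ t, chk3 f_pm_012 t 4 6 1 = true :=
  ⟨(a (a (a (b (b (l 18062888) (l 17939584)) (b (c (l 17991448) (a (l 17334720) (l 17603296))) (c (b (l 17851872) (a (l 17659568) (l 17801752))) (a (b (l 17040896) (a (b (l 17109480) (l 16943136)) (l 17036248))) (b (l 17406224) (l 17087504)))))) (b (l 18167256) (b (l 17916568) (c (l 18055112) (b (l 17576392) (l 17171016)))))) (b (a (l 18307608) (l 18445176)) (a (b (l 18162600) (a (l 17873064) (l 18067224))) (b (l 18339768) (l 18180096))))) (a (b (l 18611992) (b (l 18557952) (l 18490904))) (b (l 18804592) (l 18800920)))), by decide +kernel⟩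

def k2_pm_012 : ∃ t, chk3 f_pm_012 t 16 14 1 = true :=
  ⟨(b (a (a (c (b (c (l 17652040) (a (l 17284624) (l 17381448))) (c (a (l 17311560) (l 17508600)) (a (b (l 17090864) (l 16784616)) (l 16939600)))) (a (b (b (l 16826184) (l 16776768)) (b (l 16687488) (l 16695472))) (b (l 16806008) (b (l 16691640) (l 16678400))))) (c (b (l 17655720) (c (l 17645976) (b (l 17338008) (l 17168672)))) (b (a (l 16894760) (l 17006200)) (a (l 16681224) (l 16759088))))) (c (b (l 17883888) (a (l 17489400) (l 17804848))) (b (a (l 17007232) (l 17295512)) (a (l 16775048) (l 16917920))))) (a (a (a (a (a (b (b (l 16710720) (l 16718424)) (c (b (l 16726920) (l 16734416)) (l 16718624))) (b (b (l 16706480) (l 16714232)) (b (l 16721928) (l 16729560)))) (b (a (b (l 16702240) (l 16710032)) (b (l 16697992) (l 16705832))) (b (c (l 16716472) (l 16714928)) (a (l 16725448) (l 16721328))))) (b (b (l 16716184) (c (c (l 17048688) (l 16729336)) (a (l 16698720) (l 16690320)))) (c (b (l 16743384) (a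 (c (l 16728264) (l 16715464)) (b (l 16705504) (l 16709376)))) (a (b (l 16706648) (l 16714520)) (l 16702344))))) (b (a (a (l 16725656) (l 16730416)) (a (l 16757072) (l 16763464))) (a (a (b (l 16690600) (a (l 16700632) (l 16696480))) (c (a (l 16750800) (l 16759672)) (b (l 16681640) (l 16689888)))) (b (c (l 16864088) (l 16673776)) (c (l 16729576) (l 16683768)))))) (a (b (b (c (l 17295872) (l 16642384)) (l 16747312)) (b (a (l 16666264) (l 16684432)) (b (l 16690712) (l 16695528)))) (b (c (c (l 17815664) (l 17201968)) (l 16696624)) (b (l 16752456) (l 16698720)))))), by decide +kernel⟩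

def k3_pm_012 : ∃ t, chk3 f_pm_012 t 16 15 1 = true :=
  ⟨(a (b (a (b (b (a (b (c (a (l 16727472) (l 16729744)) (l 16722104)) (a (l 6) (l 16732936))) (c (a (a (l 16725472) (l 16721360)) (l 16715176)) (l 16718272))) (a (l 6) (a (l 6) (b (l 16720496) (l 6))))) (l 6)) (b (a (b (a (c (b (l 16704952) (l 16708848)) (l 16706024)) (a (b (l 16698552) (l 16703560)) (l 16698992))) (b (a (a (l 16714376) (l 16710648)) (l 16707488)) (a (l 6) (l 16712424)))) (b (b (l 16691408) (l 16696328)) (c (l 16692760) (l 16703384)))) (a (l 6) (a (l 6) (b (l 16711168) (l 6)))))) (l 6)) (b (b (a (b (a (a (l 16687776) (l 16683744)) (l 16677744)) (a (c (l 16695736) (l 16694896)) (l 16708072))) (b (a (l 16669840) (l 16662056)) (a (l 16678992) (l 16670984)))) (a (b (a (a (l 16706904) (l 16702672)) (c (l 16683848) (l 16695744))) (a (l 6) (a (l 6) (l 16687632)))) (b (a (c (l 16688792) (l 16666288)) (l 16679808)) (a (c (l 16685944) (l 16696184)) (c (l 16673744) (l 16666632)))))) (b (a (l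 6) (a (l 6) (a (l 6) (b (l 16679304) (l 6))))) (l 6)))), by decide +kernel⟩

def k4_pm_012 : ∃ t, chk3 f_pm_012 t 34 7 1 = true :=
  ⟨(b (b (c (a (l 18036264) (l 18176304)) (a (b (l 17434808) (l 17122400)) (b (l 17569184) (l 17237760)))) (b (c (a (l 17677320) (l 17959528)) (a (l 16808688) (a (l 17036416) (l 17129952)))) (a (b (c (l 17445072) (l 16610976)) (l 16760512)) (a (c (l 17448600) (l 16625360)) (c (l 17658512) (l 16743464)))))) (b (a (b (b (l 16671528) (a (l 16663080) (l 16634320))) (b (a (l 16671696) (l 16642720)) (b (l 16674000) (a (l 16661368) (l 16653104))))) (b (a (b (l 16807256) (l 16626648)) (a (l 16711568) (l 16721024))) (a (b (l 16634824) (l 16663888)) (b (l 16648440) (l 16656320))))) (a (b (b (b (l 16671856) (l 16679272)) (b (c (l 16681280) (l 16678928)) (l 6))) (l 6)) (b (a (b (b (l 16648944) (l 16652928)) (c (l 16670408) (l 16657440))) (b (b (l 16641208) (l 16645088)) (c (l 16665528) (l 16659768)))) (a (l 6) (b (b (l 16667080) (l 6)) (l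 6))))))), by decide +kernel⟩

def k5_pm_012 : ∃ t, chk3 f_pm_012 t 35 7 1 = true :=
  ⟨(b (b (c (l 18369896) (a (b (l 17699640) (l 17515792)) (l 17747880))) (c (b (l 18203472) (a (l 17745648) (l 18121128))) (b (a (l 17035416) (l 17418608)) (a (a (l 16858560) (l 16949304)) (b (l 17218832) (l 17035088)))))) (b (b (c (a (c (l 17866968) (b (l 17433872) (l 16987040))) (b (l 17949400) (l 17567856))) (a (b (l 16621032) (l 16628712)) (b (l 16812608) (l 16594096)))) (a (b (a (l 16619864) (l 16659544)) (a (l 16648488) (l 16620240))) (b (c (c (l 17956472) (l 17088992)) (l 16601256)) (a (l 16612824) (l 16660488))))) (b (b (a (b (l 16651408) (l 16655128)) (a (l 16619960) (l 16612496))) (a (a (c (l 16654808) (l 16640864)) (l 16645376)) (a (l 16637520) (l 16619344)))) (b (a (a (b (l 16669160) (l 16662368)) (a (l 16654192) (l 16650152))) (b (l 16650776) (l 16654208))) (a (a (l 6) (b (l 16657968) (l 6))) (a (b (l 16639264) (l 16653200)) (b (l 16631200) (l 16645032)))))))),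 by decide +kernel⟩

def k6_pm_012 : ∃ t, chk3 f_pm_012 t 9 14 1 = true :=
  ⟨(b (a (a (c (l 18601048) (l 17850448)) (l 18482192)) (l 18748424)) (a (c (a (b (l 18490792) (l 18372248)) (l 18703464)) (a (b (l 17428744) (a (l 17144912) (l 17501000))) (b (l 17968368) (l 17631992)))) (a (c (l 18927360) (l 18154232)) (l 18752944)))), by decide +kernel⟩

def k7_pm_012 : ∃ t, chk3 f_pm_012 t 9 15 1 = true :=
  ⟨(a (b (b (c (a (a (l 17946440) (l 18288024)) (l 18545728)) (a (a (l 16694472) (b (l 17282944) (l 17081632))) (a (l 17156312) (l 17568128)))) (b (c (a (a (a (l 17724192) (l 17932936)) (l 18107528)) (l 18415832)) (a (a (l 16586856) (l 16835520)) (a (l 17086704) (l 17353648)))) (c (a (c (l 18005984) (a (l 17130200) (l 17593264))) (l 18047880)) (a (a (l 16593504) (l 16579448)) (a (l 16850072) (l 17093544)))))) (b (a (a (b (a (l 16605200) (l 16664040)) (a (l 16611824) (l 16604472))) (b (c (c (l 18131344) (l 17131488)) (l 16585584)) (l 16605096))) (c (c (a (l 18312624)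 (l 18558760)) (a (b (l 17649984) (l 17134736)) (b (l 17921280) (l 17708360)))) (b (l 16599800) (l 16604584)))) (a (a (b (a (l 16628880) (l 16621312)) (b (l 16630984) (c (l 16636624) (l 16642192)))) (b (a (l 16603416) (l 16596176)) (b (l 16641808) (l 16618568)))) (b (a (l 16596792) (c (c (l 18312360) (b (l 17509128) (l 17289616))) (l 16569080))) (a (b (l 16590456) (l 16603688)) (l 16593496)))))) (b (c (a (l 18639568) (l 19048192)) (a (b (l 17776728) (c (l 17797016) (a (l 17177672) (l 17427320)))) (b (l 18191928) (l 17862800)))) (c (a (a (b (l 18217512) (c (l 18334240) (b (l 17768328) (a (l 17176352) (l 17511296))))) (b (l 18635256) (c (l 18757624) (b (l 18057504) (l 17766864))))) (b (l 18902520) (c (l 19075632) (b (l 18422656) (l 18261040))))) (b (a (a (b (l 17081112) (l 16864016)) (b (l 17388560) (l 17049336))) (c (l 17890720) (b (l 17485584) (l 17152552)))) (a (b (a (l 16555824) (l 16821320)) (a (l 16560472) (l 16547464))) (b (c (l 17600000) (l 16773728))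 (c (a (l 17181528) (l 17637888)) (l 16545512)))))))), by decide +kernel⟩

def k8_pm_012 : ∃ t, chk3 f_pm_012 t 5 3 1 = true :=
  ⟨(b (a (b (l 18983800) (l 19062568)) (l 19148320)) (a (b (a (b (l 19022448) (l 19006592)) (l 19216248)) (a (b (c (l 19349064) (a (l 18387256) (l 18624776))) (c (a (b (l 19191704) (l 19085248)) (l 19398776)) (a (b (l 17868856) (c (b (l 18189864) (l 18030040)) (b (l 17566888) (a (l 17203808) (l 17482208))))) (b (l 18431552) (c (l 18510248) (l 17827392)))))) (b (l 19254520) (c (l 19666968) (b (l 18812448) (l 18708432)))))) (b (l 19388728) (b (l 19529520) (l 19617592))))), by decide +kernel⟩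

def k9_pm_012 : ∃ t, chk3 f_pm_012 t 3 1 1 = true :=
  ⟨(b (a (b (l 2) (l 18948080)) (l 2)) (b (a (l 19231808) (l 19328864)) (a (b (l 19485352) (a (l 19741216) (l 19750888))) (b (l 19417616) (l 19650880))))), by decide +kernel⟩

theorem s10_pm_012 : ∃ t, chk3 f_pm_012 t 9 7 1 = true := ex3_b k6_pm_012 k7_pm_012

theorem s11_pm_012 : ∃ t, chk3 f_pm_012 t 17 7 1 = true := ex3_a k4_pm_012 k5_pm_012

theorem s12_pm_012 : ∃ t, chk3 f_pm_012 t 16 7 1 = true := ex3_b k2_pm_012 k3_pm_012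

theorem s13_pm_012 : ∃ t, chk3 f_pm_012 t 8 7 1 = true := ex3_a s12_pm_012 s11_pm_012

theorem s14_pm_012 : ∃ t, chk3 f_pm_012 t 4 7 1 = true := ex3_a s13_pm_012 s10_pm_012

theorem s15_pm_012 : ∃ t, chk3 f_pm_012 t 4 3 1 = true := ex3_b k1_pm_012 s14_pm_012

theorem s16_pm_012 : ∃ t, chk3 f_pm_012 t 2 3 1 = true := ex3_a s15_pm_012 k8_pm_012

theorem s17_pm_012 : ∃ t, chk3 f_pm_012 t 2 1 1 = true := ex3_b k0_pm_012 s16_pm_012

theorem s18_pm_012 : ∃ t, chk3 f_pm_012 t 1 1 1 = true := ex3_a s17_pm_012 k9_pm_012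

theorem c_pm_012 : CertN 0 536870912 536870912 536870912 67108864 67108864 3 true true false .pnp 0 1 2
    ndN0q0 ndN4q1 pcN2 cut_pm_012 Ext.none :=
  certNK2 (fam := true) (s1 := true) (s2 := false) (a := 0) (b := 1) (c := 2) (cn := .pnp) (n1 := ndN0q0) (n2 := ndN4q1) (pc := pcN2) (cut := cut_pm_012) (xt := Ext.none) (P1 := 0) (W1 := 536870912) (P2 := 536870912) (W2 := 536870912) (P3 := 67108864) (W3 := 67108864) (N0 := 3)
    rfl rfl rfl (fun _ => rfl) s18_pm_012

noncomputable def cut_pm_022 : Cut := Cut.of [[⟨0, 0, 0, 67108864⟩, ⟨1, 1, 0, 67108864⟩, ⟨2, 1, 0, 67108864⟩]]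

noncomputable def f_pm_022 : ℕ → ℕ → ℕ → ℕ → Bool := onCell 1073741824 536870912 1073741824 536870912 67108864 67108864
    (rowNK 3 2 true true false .pp 0 2 2 (qsf 0 536870912 1073741824 536870912 2) ndN0q0 ndN4q2 pcN2 cut_pm_022 Ext.none)

def k0_pm_022 : ∃ t, chk3 f_pm_022 t 8 4 1 = true :=
  ⟨(a (b (b (l 6) (b (l 6) (l 1))) (l 1)) (a (b (b (l 6) (b (l 6) (b (l 6) (l 1)))) (l 1)) (b (b (a (l 6) (a (l 6) (b (b (c (l 16648248) (l 16633768)) (l 16656288)) (b (l 16634784) (l 16633888))))) (a (b (l 6) (b (l 6) (a (l 1) (l 179885161975)))) (b (a (l 6) (c (l 16651376) (l 16652848))) (b (a (l 6) (a (l 6) (c (l 16664960) (l 16663792)))) (a (b (l 6) (l 175590152279)) (b (l 16680256) (l 100965087031))))))) (b (b (a (l 1) (b (l 185253899911) (l 1))) (l 1)) (l 1))))), by decide +kernel⟩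

def k1_pm_022 : ∃ t, chk3 f_pm_022 t 18 4 1 = true :=
  ⟨(b (a (b (a (b (b (b (l 16640640) (l 16645256)) (a (l 16627016) (l 16618816))) (b (a (l 16626544) (l 16618384)) (l 16643280))) (b (a (b (l 16622296) (l 16610760)) (b (l 16604088) (l 16602752))) (b (l 16627968) (l 16627000)))) (a (b (b (l 16641920) (l 16640528)) (a (b (l 16652800) (l 16669312)) (a (l 16649760) (l 16642080)))) (b (b (l 16625584) (l 16623824)) (a (a (l 16634368) (l 16626600)) (b (l 16617432) (l 16623456)))))) (b (b (a (b (l 16604016) (l 16633736)) (b (l 16589584) (l 16597912))) (a (b (l 16591152) (l 16590160)) (b (l 16575904) (l 16574768)))) (a (b (b (l 16609760) (l 16607920)) (a (l 16608296) (l 16600280))) (b (l 16614392) (l 16589048))))) (a (b (b (a (b (a (a (l 138009181767) (l 106870654119)) (b (l 16645560) (c (l 16665184) (l 16663104)))) (l 183643239271)) (b (a (l 16655592) (l 16640432)) (a (l 125124255767) (b (l 16631928) (l 90227730087))))) (a (l 1) (l 187938216583))) (l 1)) (b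 (b (a (b (l 16617048) (l 28487426551)) (a (l 16602648) (l 16586920))) (a (b (a (l 124587347447) (l 49962399751)) (l 182032531271)) (b (l 16620552) (a (l 125124170599) (l 16692944))))) (b (a (l 1) (l 187401251047)) (l 1))))), by decide +kernel⟩

def k2_pm_022 : ∃ t, chk3 f_pm_022 t 19 4 1 = true :=
  ⟨(b (a (a (b (b (b (c (c (l 18262416) (l 17185000)) (l 16561656)) (l 16676512)) (l 16653264)) (b (l 16737928) (l 16729752))) (b (c (b (c (l 18537080) (l 17481952)) (l 17789288)) (b (l 16568176) (l 16543360))) (b (c (l 17893808) (l 16540608)) (l 16868272)))) (b (c (a (b (l 18383320) (l 18279760)) (l 18576440)) (b (a (l 16601064) (l 16856360)) (a (l 16693736) (l 17017424)))) (c (a (l 18079944) (l 18376128)) (b (l 16716976) (l 16822928))))) (b (a (b (a (l 16734064) (l 16890440)) (a (l 16750544) (l 16881952))) (c (a (l 17909128) (l 18210368)) (b (l 16813232) (l 16772040)))) (b (a (a (b (a (l 120829339015) (l 16759656)) (l 185254049607)) (c (b (l 17690816) (l 188476546727))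 (l 68215828039))) (c (l 17925824) (l 16657416))) (a (a (l 1) (l 221761813415)) (a (b (c (l 17857392) (l 106870665911)) (l 247532117079)) (c (l 18058400) (l 52646698103))))))), by decide +kernel⟩

def k3_pm_022 : ∃ t, chk3 f_pm_022 t 4 5 1 = true :=
  ⟨(a (l 1) (a (l 1) (b (b (a (l 1) (c (l 306589289863) (b (l 204581597671) (l 1)))) (l 1)) (l 1)))), by decide +kernel⟩

def k4_pm_022 : ∃ t, chk3 f_pm_022 t 5 2 1 = true :=
  ⟨(b (a (a (b (c (a (b (a (l 18789840) (l 18975880)) (l 18674768)) (a (l 18882184) (l 19172632))) (a (a (b (b (l 17232768) (l 17319376)) (l 17059792)) (b (b (l 17675016) (l 17606216)) (l 17521168))) (b (b (l 18016072) (a (l 17845952) (l 18061376))) (a (l 17748032) (l 17952768))))) (a (c (b (l 18494024) (l 18344208)) (b (b (l 17339448) (l 17310608)) (a (l 17136600) (l 17384672)))) (a (b (l 17960136) (l 17822272)) (b (l 18271704) (l 18122400))))) (c (b (l 19458424) (l 19082248)) (b (b (l 18293144) (l 18378896)) (b (l 18236152) (l 18118680)))))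 (b (a (l 19351736) (l 19589872)) (a (l 19033376) (l 19305096)))) (a (a (b (b (b (a (c (l 18020296) (a (b (l 17182960) (l 243236918023)) (l 17328928))) (a (l 18005832) (l 18149768))) (a (l 294777719479) (a (c (l 18435416) (l 203508649799)) (l 17922600)))) (a (l 1) (a (l 1) (l 317326953863)))) (l 1)) (b (b (a (l 18322192) (l 18551992)) (b (l 253439324791) (l 306590020087))) (l 335044246583))) (a (b (l 18780088) (l 306590115719)) (b (l 19063360) (l 18886200))))), by decide +kernel⟩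

def k5_pm_022 : ∃ t, chk3 f_pm_022 t 2 3 1 = true :=
  ⟨(a (l 1) (a (l 1) (b (b (l 358667331399) (l 1)) (l 1)))), by decide +kernel⟩

def k6_pm_022 : ∃ t, chk3 f_pm_022 t 3 1 1 = true :=
  ⟨(b (a (b (a (b (l 19768944) (l 19539792)) (l 19733976)) (a (b (l 19337864) (l 19155640)) (l 19434120))) (b (l 19649040) (a (l 19469088) (l 19407336)))) (a (b (a (b (l 19032376) (l 18992392)) (l 19154368)) (a (l 1) (l 19055696))) (b (a (l 19231712) (l 19239576)) (l 19294392)))), by decide +kernel⟩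

theorem s7_pm_022 : ∃ t, chk3 f_pm_022 t 9 4 1 = true := ex3_a k1_pm_022 k2_pm_022

theorem s8_pm_022 : ∃ t, chk3 f_pm_022 t 4 4 1 = true := ex3_a k0_pm_022 s7_pm_022

theorem s9_pm_022 : ∃ t, chk3 f_pm_022 t 4 2 1 = true := ex3_b s8_pm_022 k3_pm_022

theorem s10_pm_022 : ∃ t, chk3 f_pm_022 t 2 2 1 = true := ex3_a s9_pm_022 k4_pm_022

theorem s11_pm_022 : ∃ t, chk3 f_pm_022 t 2 1 1 = true := ex3_b s10_pm_022 k5_pm_022

theorem s12_pm_022 : ∃ t, chk3 f_pm_022 t 1 1 1 = true := ex3_a s11_pm_022 k6_pm_022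

theorem c_pm_022 : CertN 0 536870912 1073741824 536870912 67108864 67108864 3 true true false .pp 0 2 2
    ndN0q0 ndN4q2 pcN2 cut_pm_022 Ext.none :=
  certNK2 (fam := true) (s1 := true) (s2 := false) (a := 0) (b := 2) (c := 2) (cn := .pp) (n1 := ndN0q0) (n2 := ndN4q2) (pc := pcN2) (cut := cut_pm_022) (xt := Ext.none) (P1 := 0) (W1 := 536870912) (P2 := 1073741824) (W2 := 536870912) (P3 := 67108864) (W3 := 67108864) (N0 := 3)
    rfl rfl rfl (fun _ => rfl) s12_pm_022

noncomputable def f_pm_023 : ℕ → ℕ → ℕ → ℕ → Bool := onCell 0 536870912 1610612736 536870912 67108864 67108864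
    (rowNK 3 1 true true false .up 0 2 3 (qsf 0 536870912 1073741824 536870912 3) ndN0q0 ndN4q2 pcN3 Cut.none Ext.none)

def k0_pm_023 : ∃ t, chk3 f_pm_023 t 1 1 1 = true :=
  ⟨(a (b (b (a (b (a (l 19181296) (l 19209120)) (l 18967752)) (a (b (l 19114008) (l 18991416)) (l 18994280))) (a (b (l 18728688) (l 2)) (b (a (l 18787264) (l 18759648)) (l 18528392)))) (a (l 2) (b (b (l 18361736) (l 2)) (l 2)))) (b (a (b (a (b (l 19329384) (l 19023960)) (l 19382976)) (b (l 18847832) (l 18606832))) (b (a (l 19411000) (l 19280464)) (l 18960592))) (b (a (a (l 18261744) (l 18314280)) (l 18578688)) (b (a (l 18006296) (l 18061544)) (a (l 2) (b (l 17897112) (l 17780544))))))), by decide +kernel⟩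

theorem c_pm_023 : CertN 0 536870912 1073741824 536870912 67108864 67108864 3 true true false .up 0 2 3
    ndN0q0 ndN4q2 pcN3 Cut.none Ext.none :=
  certNK1 (fam := true) (s1 := true) (s2 := false) (a := 0) (b := 2) (c := 3) (cn := .up) (n1 := ndN0q0) (n2 := ndN4q2) (pc := pcN3) (cut := Cut.none) (xt := Ext.none) (P1 := 0) (W1 := 536870912) (P2 := 1073741824) (W2 := 536870912) (P3 := 67108864) (W3 := 67108864) (N0 := 3)
    rfl rfl rfl (fun _ => rfl) k0_pm_023

noncomputable def f_pm_033 : ℕ → ℕ → ℕ → ℕ → Bool := onCell 1610612736 536870912 0 1230186008 67108864 67108864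
    (rowNK 3 2 true true false .pnn 0 3 3 (qsf 0 536870912 0 1230186008 3) ndN0q0 ndN4q3 pcN3 Cut.none Ext.none)

def k0_pm_033 : ∃ t, chk3 f_pm_033 t 1 1 1 = true :=
  ⟨(a (b (l 1) (b (a (l 1) (b (l 1) (a (l 1) (b (l 1) (l 18674696))))) (b (l 18909208) (a (l 19007216) (a (l 18751784) (l 18614832)))))) (b (a (l 1) (a (l 18059704) (a (l 18072272) (b (l 4) (l 4))))) (a (b (b (a (l 1) (l 17981576)) (a (l 18603680) (l 18283168))) (b (l 18412168) (a (l 18343568) (l 18192632)))) (b (a (l 18042280) (a (l 17862688) (a (l 17832888) (l 17836600)))) (a (b (l 18056648) (l 18006456)) (b (a (l 17918352) (a (l 17833568) (l 17781928))) (a (l 17865064) (l 17772864)))))))), by decide +kernel⟩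

theorem c_pm_033 : CertN 0 536870912 0 1230186008 67108864 67108864 3 true true false .pnn 0 3 3
    ndN0q0 ndN4q3 pcN3 Cut.none Ext.none :=
  certNK2 (fam := true) (s1 := true) (s2 := false) (a := 0) (b := 3) (c := 3) (cn := .pnn) (n1 := ndN0q0) (n2 := ndN4q3) (pc := pcN3) (cut := Cut.none) (xt := Ext.none) (P1 := 0) (W1 := 536870912) (P2 := 0) (W2 := 1230186008) (P3 := 67108864) (W3 := 67108864) (N0 := 3)
    rfl rfl rfl (fun _ => rfl) k0_pm_033

noncomputable def f_pm_101 : ℕ → ℕ → ℕ → ℕ → Bool := onCell 536870912 536870912 536870912 536870912 67108864 67108864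
    (rowNK 3 1 true true false .npn 1 0 1 (qsf 536870912 536870912 0 536870912 1) ndN0q1 ndN4q0 pcN1 Cut.none Ext.none)

def k0_pm_101 : ∃ t, chk3 f_pm_101 t 1 1 1 = true :=
  ⟨(a (b (b (a (a (b (l 3) (b (a (l 3) (b (l 3) (a (l 3) (l 321753604151)))) (a (b (l 3) (l 331954289639)) (b (a (l 324974828711) (l 390473007159)) (a (l 379735589159) (l 16788760)))))) (b (a (a (l 3) (l 1)) (l 1)) (a (b (a (b (l 321753602215) (b (l 312089869591) (l 16830128))) (l 314103214231)) (l 16839000)) (l 231962177207)))) (b (l 1) (l 216393480583))) (a (a (b (a (b (b (a (l 326585434311) (l 368998169399)) (a (l 362018844135) (l 16788264))) (l 16812984)) (b (l 16822616) (l 16871464))) (l 17097352)) (b (l 16922512) (l 17082808))) (b (a (l 17032752) (l 17154208)) (l 17296728)))) (b (a (b (a (l 17184616) (l 17292568)) (a (l 17460456) (l 17563992))) (a (l 17571584) (l 17639608))) (a (b (l 17876872) (l 18335632)) (b (l 18074424) (l 18510136))))) (b (a (b (l 1) (a (l 217468007063) (l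 1))) (l 1)) (a (b (l 17865088) (l 18517952)) (b (b (l 1) (l 18292336)) (b (l 18651936) (b (l 18954360) (l 19187984))))))), by decide +kernel⟩

theorem c_pm_101 : CertN 536870912 536870912 0 536870912 67108864 67108864 3 true true false .npn 1 0 1
    ndN0q1 ndN4q0 pcN1 Cut.none Ext.none :=
  certNK1 (fam := true) (s1 := true) (s2 := false) (a := 1) (b := 0) (c := 1) (cn := .npn) (n1 := ndN0q1) (n2 := ndN4q0) (pc := pcN1) (cut := Cut.none) (xt := Ext.none) (P1 := 536870912) (W1 := 536870912) (P2 := 0) (W2 := 536870912) (P3 := 67108864) (W3 := 67108864) (N0 := 3)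
    rfl rfl rfl (fun _ => rfl) k0_pm_101

noncomputable def f_pm_102 : ℕ → ℕ → ℕ → ℕ → Bool := onCell 536870912 536870912 1073741824 536870912 67108864 67108864
    (rowNK 3 1 true true false .npp 1 0 2 (qsf 536870912 536870912 0 536870912 2) ndN0q1 ndN4q0 pcN2 Cut.none Ext.none)

def k0_pm_102 : ∃ t, chk3 f_pm_102 t 1 1 1 = true :=
  ⟨(a (b (b (b (b (a (l 18648824) (l 18802224)) (a (l 18670008) (l 18779864))) (a (l 18730784) (l 18769944))) (a (b (l 18835216) (l 2)) (l 18892064))) (a (l 2) (b (b (l 18857144) (l 2)) (l 2)))) (b (a (b (l 19011760) (l 18866088)) (b (l 19318208) (l 19022960))) (a (b (l 18824208) (l 18866928)) (b (l 18822088) (l 18693456))))), by decide +kernel⟩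

theorem c_pm_102 : CertN 536870912 536870912 0 536870912 67108864 67108864 3 true true false .npp 1 0 2
    ndN0q1 ndN4q0 pcN2 Cut.none Ext.none :=
  certNK1 (fam := true) (s1 := true) (s2 := false) (a := 1) (b := 0) (c := 2) (cn := .npp) (n1 := ndN0q1) (n2 := ndN4q0) (pc := pcN2) (cut := Cut.none) (xt := Ext.none) (P1 := 536870912) (W1 := 536870912) (P2 := 0) (W2 := 536870912) (P3 := 67108864) (W3 := 67108864) (N0 := 3)
    rfl rfl rfl (fun _ => rfl) k0_pm_102

noncomputable def f_pm_112 : ℕ → ℕ → ℕ → ℕ → Bool := onCell 536870912 536870912 1073741824 536870912 67108864 67108864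
    (rowNK 3 1 true true false .dn 1 1 2 (qsf 536870912 536870912 536870912 536870912 2) ndN0q1 ndN4q1 pcN2 Cut.none Ext.none)

def k0_pm_112 : ∃ t, chk3 f_pm_112 t 1 1 1 = true :=
  ⟨(a (b (b (a (b (b (l 18636744) (l 18656496)) (l 18706032)) (b (l 1) (l 18751392))) (a (l 18836880) (l 18763528))) (a (b (l 19042432) (l 19307440)) (l 19055856))) (b (a (l 18894736) (l 1)) (b (l 18793664) (l 18713912)))), by decide +kernel⟩

theorem c_pm_112 : CertN 536870912 536870912 536870912 536870912 67108864 67108864 3 true true false .dn 1 1 2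
    ndN0q1 ndN4q1 pcN2 Cut.none Ext.none :=
  certNK1 (fam := true) (s1 := true) (s2 := false) (a := 1) (b := 1) (c := 2) (cn := .dn) (n1 := ndN0q1) (n2 := ndN4q1) (pc := pcN2) (cut := Cut.none) (xt := Ext.none) (P1 := 536870912) (W1 := 536870912) (P2 := 536870912) (W2 := 536870912) (P3 := 67108864) (W3 := 67108864) (N0 := 3)
    rfl rfl rfl (fun _ => rfl) k0_pm_112

noncomputable def f_pm_113 : ℕ → ℕ → ℕ → ℕ → Bool := onCell 536870912 536870912 1610612736 536870912 67108864 67108864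
    (rowNK 3 1 true true false .nn 1 1 3 (qsf 536870912 536870912 536870912 536870912 3) ndN0q1 ndN4q1 pcN3 Cut.none Ext.none)

def k0_pm_113 : ∃ t, chk3 f_pm_113 t 1 1 1 = true :=
  ⟨(a (b (b (a (a (l 19093888) (l 18417848)) (l 18156440)) (a (b (l 19023616) (l 2)) (l 18621328))) (b (a (l 2) (l 260487920087)) (l 2))) (a (b (b (l 18189288) (l 18485240)) (b (l 18421264) (l 4))) (b (b (l 18335472) (b (l 18355888) (l 18322264))) (l 4)))), by decide +kernel⟩

theorem c_pm_113 : CertN 536870912 536870912 536870912 536870912 67108864 67108864 3 true true false .nn 1 1 3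
    ndN0q1 ndN4q1 pcN3 Cut.none Ext.none :=
  certNK1 (fam := true) (s1 := true) (s2 := false) (a := 1) (b := 1) (c := 3) (cn := .nn) (n1 := ndN0q1) (n2 := ndN4q1) (pc := pcN3) (cut := Cut.none) (xt := Ext.none) (P1 := 536870912) (W1 := 536870912) (P2 := 536870912) (W2 := 536870912) (P3 := 67108864) (W3 := 67108864) (N0 := 3)
    rfl rfl rfl (fun _ => rfl) k0_pm_113

noncomputable def f_pm_123 : ℕ → ℕ → ℕ → ℕ → Bool := onCell 536870912 536870912 1610612736 536870912 67108864 67108864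
    (rowNK 3 1 true true false .npn 1 2 3 (qsf 536870912 536870912 1073741824 536870912 3) ndN0q1 ndN4q2 pcN3 Cut.none Ext.none)

def k0_pm_123 : ∃ t, chk3 f_pm_123 t 1 1 1 = true :=
  ⟨(a (b (b (a (a (l 18947160) (l 18513832)) (l 18536608)) (a (a (l 18634896) (l 18521872)) (l 18631976))) (b (a (a (l 18345152) (l 18349288)) (l 18399296)) (b (l 18351856) (b (l 17952720) (a (l 17827208) (l 4)))))) (a (b (b (l 1) (l 102581038551)) (b (l 18431912) (l 4))) (b (l 1) (l 4)))), by decide +kernel⟩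

theorem c_pm_123 : CertN 536870912 536870912 1073741824 536870912 67108864 67108864 3 true true false .npn 1 2 3
    ndN0q1 ndN4q2 pcN3 Cut.none Ext.none :=
  certNK1 (fam := true) (s1 := true) (s2 := false) (a := 1) (b := 2) (c := 3) (cn := .npn) (n1 := ndN0q1) (n2 := ndN4q2) (pc := pcN3) (cut := Cut.none) (xt := Ext.none) (P1 := 536870912) (W1 := 536870912) (P2 := 1073741824) (W2 := 536870912) (P3 := 67108864) (W3 := 67108864) (N0 := 3)
    rfl rfl rfl (fun _ => rfl) k0_pm_123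

noncomputable def f_pm_133 : ℕ → ℕ → ℕ → ℕ → Bool := onCell 536870912 536870912 0 1230186008 67108864 67108864
    (rowNK 3 0 true true false .dn 1 3 3 (qsf 536870912 536870912 0 1230186008 3) ndN0q1 ndN4q3 pcN3 Cut.none Ext.none)

def k0_pm_133 : ∃ t, chk3 f_pm_133 t 1 1 1 = true :=
  ⟨(b (l 2) (b (l 2) (a (b (l 2) (l 4)) (l 2)))), by decide +kernel⟩

theorem c_pm_133 : CertN 536870912 536870912 0 1230186008 67108864 67108864 3 true true false .dn 1 3 3
    ndN0q1 ndN4q3 pcN3 Cut.none Ext.none :=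
  certNK0 (fam := true) (s1 := true) (s2 := false) (a := 1) (b := 3) (c := 3) (cn := .dn) (n1 := ndN0q1) (n2 := ndN4q3) (pc := pcN3) (cut := Cut.none) (xt := Ext.none) (P1 := 536870912) (W1 := 536870912) (P2 := 0) (W2 := 1230186008) (P3 := 67108864) (W3 := 67108864) (N0 := 3)
    rfl rfl rfl k0_pm_133

noncomputable def f_pm_202 : ℕ → ℕ → ℕ → ℕ → Bool := onCell 0 536870912 1073741824 536870912 67108864 67108864
    (rowNK 3 1 true true false .pp 2 0 2 (qsf 0 536870912 0 536870912 2) ndN0q2 ndN4q0 pcN2 Cut.none Ext.none)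

def k0_pm_202 : ∃ t, chk3 f_pm_202 t 1 1 1 = true :=
  ⟨(b (a (b (l 19284664) (l 4)) (b (l 19550512) (l 19387552))) (a (l 4) (b (l 18774624) (l 18477376)))), by decide +kernel⟩

theorem c_pm_202 : CertN 0 536870912 0 536870912 67108864 67108864 3 true true false .pp 2 0 2
    ndN0q2 ndN4q0 pcN2 Cut.none Ext.none :=
  certNK1 (fam := true) (s1 := true) (s2 := false) (a := 2) (b := 0) (c := 2) (cn := .pp) (n1 := ndN0q2) (n2 := ndN4q0) (pc := pcN2) (cut := Cut.none) (xt := Ext.none) (P1 := 0) (W1 := 536870912) (P2 := 0) (W2 := 536870912) (P3 := 67108864) (W3 := 67108864) (N0 := 3)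
    rfl rfl rfl (fun _ => rfl) k0_pm_202

noncomputable def f_pm_203 : ℕ → ℕ → ℕ → ℕ → Bool := onCell 0 536870912 1610612736 536870912 67108864 67108864
    (rowNK 3 1 true true false .up 2 0 3 (qsf 0 536870912 0 536870912 3) ndN0q2 ndN4q0 pcN3 Cut.none Ext.none)

def k0_pm_203 : ∃ t, chk3 f_pm_203 t 1 1 1 = true :=
  ⟨(a (l 4) (b (l 4) (l 2))), by decide +kernel⟩

theorem c_pm_203 : CertN 0 536870912 0 536870912 67108864 67108864 3 true true false .up 2 0 3
    ndN0q2 ndN4q0 pcN3 Cut.none Ext.none :=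
  certNK1 (fam := true) (s1 := true) (s2 := false) (a := 2) (b := 0) (c := 3) (cn := .up) (n1 := ndN0q2) (n2 := ndN4q0) (pc := pcN3) (cut := Cut.none) (xt := Ext.none) (P1 := 0) (W1 := 536870912) (P2 := 0) (W2 := 536870912) (P3 := 67108864) (W3 := 67108864) (N0 := 3)
    rfl rfl rfl (fun _ => rfl) k0_pm_203

noncomputable def f_pm_213 : ℕ → ℕ → ℕ → ℕ → Bool := onCell 0 536870912 536870912 536870912 67108864 67108864
    (rowNK 3 0 true true false .pnn 2 1 3 (qsf 0 536870912 536870912 536870912 3) ndN0q2 ndN4q1 pcN3 Cut.none Ext.none)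

def k0_pm_213 : ∃ t, chk3 f_pm_213 t 1 1 1 = true :=
  ⟨(a (l 4) (b (l 4) (l 4))), by decide +kernel⟩

theorem c_pm_213 : CertN 0 536870912 536870912 536870912 67108864 67108864 3 true true false .pnn 2 1 3
    ndN0q2 ndN4q1 pcN3 Cut.none Ext.none :=
  certNK0 (fam := true) (s1 := true) (s2 := false) (a := 2) (b := 1) (c := 3) (cn := .pnn) (n1 := ndN0q2) (n2 := ndN4q1) (pc := pcN3) (cut := Cut.none) (xt := Ext.none) (P1 := 0) (W1 := 536870912) (P2 := 536870912) (W2 := 536870912) (P3 := 67108864) (W3 := 67108864) (N0 := 3)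
    rfl rfl rfl k0_pm_213

noncomputable def f_mm_001 : ℕ → ℕ → ℕ → ℕ → Bool := onCell 0 536870912 0 536870912 67108864 67108864
    (rowNK 3 0 true false false .up 0 0 1 (qsf 0 536870912 0 536870912 1) ndN0q0 ndN4q0 pcN1 Cut.none Ext.none)

def k0_mm_001 : ∃ t, chk3 f_mm_001 t 1 1 1 = true :=
  ⟨(l 4), by decide +kernel⟩

theorem c_mm_001 : CertN 0 536870912 0 536870912 67108864 67108864 3 true false false .up 0 0 1
    ndN0q0 ndN4q0 pcN1 Cut.none Ext.none :=
  certNK0 (fam := true) (s1 := false) (s2 := false) (a := 0) (b := 0) (c := 1) (cn := .up) (n1 := ndN0q0) (n2 := ndN4q0) (pc := pcN1) (cut := Cut.none) (xt := Ext.none) (P1 := 0) (W1 := 536870912) (P2 := 0) (W2 := 536870912) (P3 := 67108864) (W3 := 67108864) (N0 := 3)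
    rfl rfl rfl k0_mm_001

noncomputable def f_mm_011 : ℕ → ℕ → ℕ → ℕ → Bool := onCell 0 536870912 536870912 536870912 67108864 67108864
    (rowNK 3 0 true false false .pnn 0 1 1 (qsf 0 536870912 536870912 536870912 1) ndN0q0 ndN4q1 pcN1 Cut.none Ext.none)

def k0_mm_011 : ∃ t, chk3 f_mm_011 t 1 1 1 = true :=
  ⟨(l 4), by decide +kernel⟩

theorem c_mm_011 : CertN 0 536870912 536870912 536870912 67108864 67108864 3 true false false .pnn 0 1 1
    ndN0q0 ndN4q1 pcN1 Cut.none Ext.none :=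
  certNK0 (fam := true) (s1 := false) (s2 := false) (a := 0) (b := 1) (c := 1) (cn := .pnn) (n1 := ndN0q0) (n2 := ndN4q1) (pc := pcN1) (cut := Cut.none) (xt := Ext.none) (P1 := 0) (W1 := 536870912) (P2 := 536870912) (W2 := 536870912) (P3 := 67108864) (W3 := 67108864) (N0 := 3)
    rfl rfl rfl k0_mm_011

noncomputable def f_mm_012 : ℕ → ℕ → ℕ → ℕ → Bool := onCell 0 536870912 536870912 536870912 67108864 67108864
    (rowNK 3 0 true false false .pnp 0 1 2 (qsf 0 536870912 536870912 536870912 2) ndN0q0 ndN4q1 pcN2 Cut.none Ext.none)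

def k0_mm_012 : ∃ t, chk3 f_mm_012 t 1 1 1 = true :=
  ⟨(l 4), by decide +kernel⟩

theorem c_mm_012 : CertN 0 536870912 536870912 536870912 67108864 67108864 3 true false false .pnp 0 1 2
    ndN0q0 ndN4q1 pcN2 Cut.none Ext.none :=
  certNK0 (fam := true) (s1 := false) (s2 := false) (a := 0) (b := 1) (c := 2) (cn := .pnp) (n1 := ndN0q0) (n2 := ndN4q1) (pc := pcN2) (cut := Cut.none) (xt := Ext.none) (P1 := 0) (W1 := 536870912) (P2 := 536870912) (W2 := 536870912) (P3 := 67108864) (W3 := 67108864) (N0 := 3)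
    rfl rfl rfl k0_mm_012

noncomputable def f_mm_022 : ℕ → ℕ → ℕ → ℕ → Bool := onCell 0 536870912 1073741824 536870912 67108864 67108864
    (rowNK 3 0 true false false .pp 0 2 2 (qsf 0 536870912 1073741824 536870912 2) ndN0q0 ndN4q2 pcN2 Cut.none Ext.none)

def k0_mm_022 : ∃ t, chk3 f_mm_022 t 1 1 1 = true :=
  ⟨(l 4), by decide +kernel⟩

theorem c_mm_022 : CertN 0 536870912 1073741824 536870912 67108864 67108864 3 true false false .pp 0 2 2
    ndN0q0 ndN4q2 pcN2 Cut.none Ext.none :=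
  certNK0 (fam := true) (s1 := false) (s2 := false) (a := 0) (b := 2) (c := 2) (cn := .pp) (n1 := ndN0q0) (n2 := ndN4q2) (pc := pcN2) (cut := Cut.none) (xt := Ext.none) (P1 := 0) (W1 := 536870912) (P2 := 1073741824) (W2 := 536870912) (P3 := 67108864) (W3 := 67108864) (N0 := 3)
    rfl rfl rfl k0_mm_022

noncomputable def f_mm_023 : ℕ → ℕ → ℕ → ℕ → Bool := onCell 0 536870912 1073741824 536870912 67108864 67108864
    (rowNK 3 0 true false false .up 0 2 3 (qsf 0 536870912 1073741824 536870912 3) ndN0q0 ndN4q2 pcN3 Cut.none Ext.none)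

def k0_mm_023 : ∃ t, chk3 f_mm_023 t 1 1 1 = true :=
  ⟨(l 4), by decide +kernel⟩

theorem c_mm_023 : CertN 0 536870912 1073741824 536870912 67108864 67108864 3 true false false .up 0 2 3
    ndN0q0 ndN4q2 pcN3 Cut.none Ext.none :=
  certNK0 (fam := true) (s1 := false) (s2 := false) (a := 0) (b := 2) (c := 3) (cn := .up) (n1 := ndN0q0) (n2 := ndN4q2) (pc := pcN3) (cut := Cut.none) (xt := Ext.none) (P1 := 0) (W1 := 536870912) (P2 := 1073741824) (W2 := 536870912) (P3 := 67108864) (W3 := 67108864) (N0 := 3)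
    rfl rfl rfl k0_mm_023

noncomputable def f_mm_033 : ℕ → ℕ → ℕ → ℕ → Bool := onCell 0 536870912 0 1230186008 67108864 67108864
    (rowNK 3 0 true false false .pnn 0 3 3 (qsf 0 536870912 0 1230186008 3) ndN0q0 ndN4q3 pcN3 Cut.none Ext.none)

def k0_mm_033 : ∃ t, chk3 f_mm_033 t 1 1 1 = true :=
  ⟨(l 4), by decide +kernel⟩

theorem c_mm_033 : CertN 0 536870912 0 1230186008 67108864 67108864 3 true false false .pnn 0 3 3
    ndN0q0 ndN4q3 pcN3 Cut.none Ext.none :=
  certNK0 (fam := true) (s1 := false) (s2 := false) (a := 0) (b := 3) (c := 3) (cn := .pnn) (n1 := ndN0q0) (n2 := ndN4q3) (pc := pcN3) (cut := Cut.none) (xt := Ext.none) (P1 := 0) (W1 := 536870912) (P2 := 0) (W2 := 1230186008) (P3 := 67108864) (W3 := 67108864) (N0 := 3)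
    rfl rfl rfl k0_mm_033

noncomputable def f_mm_101 : ℕ → ℕ → ℕ → ℕ → Bool := onCell 536870912 536870912 0 536870912 67108864 67108864
    (rowNK 3 0 true false false .npn 1 0 1 (qsf 536870912 536870912 0 536870912 1) ndN0q1 ndN4q0 pcN1 Cut.none Ext.none)

def k0_mm_101 : ∃ t, chk3 f_mm_101 t 1 1 1 = true :=
  ⟨(l 4), by decide +kernel⟩

theorem c_mm_101 : CertN 536870912 536870912 0 536870912 67108864 67108864 3 true false false .npn 1 0 1
    ndN0q1 ndN4q0 pcN1 Cut.none Ext.none :=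
  certNK0 (fam := true) (s1 := false) (s2 := false) (a := 1) (b := 0) (c := 1) (cn := .npn) (n1 := ndN0q1) (n2 := ndN4q0) (pc := pcN1) (cut := Cut.none) (xt := Ext.none) (P1 := 536870912) (W1 := 536870912) (P2 := 0) (W2 := 536870912) (P3 := 67108864) (W3 := 67108864) (N0 := 3)
    rfl rfl rfl k0_mm_101

noncomputable def f_mm_102 : ℕ → ℕ → ℕ → ℕ → Bool := onCell 536870912 536870912 0 536870912 67108864 67108864
    (rowNK 3 0 true false false .npp 1 0 2 (qsf 536870912 536870912 0 536870912 2) ndN0q1 ndN4q0 pcN2 Cut.none Ext.none)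

def k0_mm_102 : ∃ t, chk3 f_mm_102 t 1 1 1 = true :=
  ⟨(l 4), by decide +kernel⟩

theorem c_mm_102 : CertN 536870912 536870912 0 536870912 67108864 67108864 3 true false false .npp 1 0 2
    ndN0q1 ndN4q0 pcN2 Cut.none Ext.none :=
  certNK0 (fam := true) (s1 := false) (s2 := false) (a := 1) (b := 0) (c := 2) (cn := .npp) (n1 := ndN0q1) (n2 := ndN4q0) (pc := pcN2) (cut := Cut.none) (xt := Ext.none) (P1 := 536870912) (W1 := 536870912) (P2 := 0) (W2 := 536870912) (P3 := 67108864) (W3 := 67108864) (N0 := 3)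
    rfl rfl rfl k0_mm_102

noncomputable def f_mm_112 : ℕ → ℕ → ℕ → ℕ → Bool := onCell 536870912 536870912 536870912 536870912 67108864 67108864
    (rowNK 3 0 true false false .dn 1 1 2 (qsf 536870912 536870912 536870912 536870912 2) ndN0q1 ndN4q1 pcN2 Cut.none Ext.none)

def k0_mm_112 : ∃ t, chk3 f_mm_112 t 1 1 1 = true :=
  ⟨(l 4), by decide +kernel⟩

theorem c_mm_112 : CertN 536870912 536870912 536870912 536870912 67108864 67108864 3 true false false .dn 1 1 2
    ndN0q1 ndN4q1 pcN2 Cut.none Ext.none :=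
  certNK0 (fam := true) (s1 := false) (s2 := false) (a := 1) (b := 1) (c := 2) (cn := .dn) (n1 := ndN0q1) (n2 := ndN4q1) (pc := pcN2) (cut := Cut.none) (xt := Ext.none) (P1 := 536870912) (W1 := 536870912) (P2 := 536870912) (W2 := 536870912) (P3 := 67108864) (W3 := 67108864) (N0 := 3)
    rfl rfl rfl k0_mm_112

noncomputable def f_mm_113 : ℕ → ℕ → ℕ → ℕ → Bool := onCell 536870912 536870912 536870912 536870912 67108864 67108864
    (rowNK 3 0 true false false .nn 1 1 3 (qsf 536870912 536870912 536870912 536870912 3) ndN0q1 ndN4q1 pcN3 Cut.none Ext.none)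

def k0_mm_113 : ∃ t, chk3 f_mm_113 t 1 1 1 = true :=
  ⟨(l 4), by decide +kernel⟩

theorem c_mm_113 : CertN 536870912 536870912 536870912 536870912 67108864 67108864 3 true false false .nn 1 1 3
    ndN0q1 ndN4q1 pcN3 Cut.none Ext.none :=
  certNK0 (fam := true) (s1 := false) (s2 := false) (a := 1) (b := 1) (c := 3) (cn := .nn) (n1 := ndN0q1) (n2 := ndN4q1) (pc := pcN3) (cut := Cut.none) (xt := Ext.none) (P1 := 536870912) (W1 := 536870912) (P2 := 536870912) (W2 := 536870912) (P3 := 67108864) (W3 := 67108864) (N0 := 3)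
    rfl rfl rfl k0_mm_113

noncomputable def f_mm_123 : ℕ → ℕ → ℕ → ℕ → Bool := onCell 536870912 536870912 1073741824 536870912 67108864 67108864
    (rowNK 3 0 true false false .npn 1 2 3 (qsf 536870912 536870912 1073741824 536870912 3) ndN0q1 ndN4q2 pcN3 Cut.none Ext.none)

def k0_mm_123 : ∃ t, chk3 f_mm_123 t 1 1 1 = true :=
  ⟨(l 4), by decide +kernel⟩

theorem c_mm_123 : CertN 536870912 536870912 1073741824 536870912 67108864 67108864 3 true false false .npn 1 2 3
    ndN0q1 ndN4q2 pcN3 Cut.none Ext.none :=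
  certNK0 (fam := true) (s1 := false) (s2 := false) (a := 1) (b := 2) (c := 3) (cn := .npn) (n1 := ndN0q1) (n2 := ndN4q2) (pc := pcN3) (cut := Cut.none) (xt := Ext.none) (P1 := 536870912) (W1 := 536870912) (P2 := 1073741824) (W2 := 536870912) (P3 := 67108864) (W3 := 67108864) (N0 := 3)
    rfl rfl rfl k0_mm_123

noncomputable def f_mm_133 : ℕ → ℕ → ℕ → ℕ → Bool := onCell 536870912 536870912 0 1230186008 67108864 67108864
    (rowNK 3 0 true false false .dn 1 3 3 (qsf 536870912 536870912 0 1230186008 3) ndN0q1 ndN4q3 pcN3 Cut.none Ext.none)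

def k0_mm_133 : ∃ t, chk3 f_mm_133 t 1 1 1 = true :=
  ⟨(l 4), by decide +kernel⟩

theorem c_mm_133 : CertN 536870912 536870912 0 1230186008 67108864 67108864 3 true false false .dn 1 3 3
    ndN0q1 ndN4q3 pcN3 Cut.none Ext.none :=
  certNK0 (fam := true) (s1 := false) (s2 := false) (a := 1) (b := 3) (c := 3) (cn := .dn) (n1 := ndN0q1) (n2 := ndN4q3) (pc := pcN3) (cut := Cut.none) (xt := Ext.none) (P1 := 536870912) (W1 := 536870912) (P2 := 0) (W2 := 1230186008) (P3 := 67108864) (W3 := 67108864) (N0 := 3)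
    rfl rfl rfl k0_mm_133

noncomputable def f_mm_202 : ℕ → ℕ → ℕ → ℕ → Bool := onCell 0 536870912 0 536870912 67108864 67108864
    (rowNK 3 0 true false false .pp 2 0 2 (qsf 0 536870912 0 536870912 2) ndN0q2 ndN4q0 pcN2 Cut.none Ext.none)

def k0_mm_202 : ∃ t, chk3 f_mm_202 t 1 1 1 = true :=
  ⟨(l 4), by decide +kernel⟩

theorem c_mm_202 : CertN 0 536870912 0 536870912 67108864 67108864 3 true false false .pp 2 0 2
    ndN0q2 ndN4q0 pcN2 Cut.none Ext.none :=
  certNK0 (fam := true) (s1 := false) (s2 := false) (a := 2) (b := 0) (c := 2) (cn := .pp) (n1 := ndN0q2) (n2 := ndN4q0) (pc := pcN2) (cut := Cut.none) (xt := Ext.none) (P1 := 0) (W1 := 536870912) (P2 := 0) (W2 := 536870912) (P3 := 67108864) (W3 := 67108864) (N0 := 3)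
    rfl rfl rfl k0_mm_202

noncomputable def f_mm_203 : ℕ → ℕ → ℕ → ℕ → Bool := onCell 0 536870912 0 536870912 67108864 67108864
    (rowNK 3 0 true false false .up 2 0 3 (qsf 0 536870912 0 536870912 3) ndN0q2 ndN4q0 pcN3 Cut.none Ext.none)

def k0_mm_203 : ∃ t, chk3 f_mm_203 t 1 1 1 = true :=
  ⟨(l 4), by decide +kernel⟩

theorem c_mm_203 : CertN 0 536870912 0 536870912 67108864 67108864 3 true false false .up 2 0 3
    ndN0q2 ndN4q0 pcN3 Cut.none Ext.none :=
  certNK0 (fam := true) (s1 := false) (s2 := false) (a := 2) (b := 0) (c := 3) (cn := .up) (n1 := ndN0q2) (n2 := ndN4q0) (pc := pcN3) (cut := Cut.none) (xt := Ext.none) (P1 := 0) (W1 := 536870912) (P2 := 0) (W2 := 536870912) (P3 := 67108864) (W3 := 67108864) (N0 := 3)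
    rfl rfl rfl k0_mm_203

noncomputable def f_mm_213 : ℕ → ℕ → ℕ → ℕ → Bool := onCell 0 536870912 536870912 536870912 67108864 67108864
    (rowNK 3 0 true false false .pnn 2 1 3 (qsf 0 536870912 536870912 536870912 3) ndN0q2 ndN4q1 pcN3 Cut.none Ext.none)

def k0_mm_213 : ∃ t, chk3 f_mm_213 t 1 1 1 = true :=
  ⟨(l 4), by decide +kernel⟩

theorem c_mm_213 : CertN 0 536870912 536870912 536870912 67108864 67108864 3 true false false .pnn 2 1 3
    ndN0q2 ndN4q1 pcN3 Cut.none Ext.none :=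
  certNK0 (fam := true) (s1 := false) (s2 := false) (a := 2) (b := 1) (c := 3) (cn := .pnn) (n1 := ndN0q2) (n2 := ndN4q1) (pc := pcN3) (cut := Cut.none) (xt := Ext.none) (P1 := 0) (W1 := 536870912) (P2 := 536870912) (W2 := 536870912) (P3 := 67108864) (W3 := 67108864) (N0 := 3)
    rfl rfl rfl k0_mm_213

end Pool.Agent.Strip051.G.I1_16_1_8.Tab.C.NA04

namespace Pool.Agent.Strip051.G.I1_16_1_8.Tab.C.NA11

open Pool.Agent.Strip051.PB Pool.Agent.Strip051.PB.T
open Pool.Agent.Strip051.G.I1_16_1_8.Tab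

noncomputable def f_pp_001 : ℕ → ℕ → ℕ → ℕ → Bool := onCell 0 536870912 0 536870912 67108864 67108864
    (rowNK 3 0 true true true .up 0 0 1 (qsf 0 536870912 0 536870912 1) ndN1q0 ndN1q0 pcN1 Cut.none Ext.none)

def k0_pp_001 : ∃ t, chk3 f_pp_001 t 1 1 1 = true :=
  ⟨(l 4), by decide +kernel⟩

theorem c_pp_001 : CertN 0 536870912 0 536870912 67108864 67108864 3 true true true .up 0 0 1
    ndN1q0 ndN1q0 pcN1 Cut.none Ext.none :=
  certNK0 (fam := true) (s1 := true) (s2 := true) (a := 0) (b := 0) (c := 1) (cn := .up) (n1 := ndN1q0) (n2 := ndN1q0) (pc := pcN1) (cut := Cut.none) (xt := Ext.none) (P1 := 0) (W1 := 536870912) (P2 := 0) (W2 := 536870912) (P3 := 67108864) (W3 := 67108864) (N0 := 3)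
    rfl rfl rfl k0_pp_001

noncomputable def f_pp_011 : ℕ → ℕ → ℕ → ℕ → Bool := onCell 0 536870912 536870912 536870912 67108864 67108864
    (rowNK 3 0 true true true .pnn 0 1 1 (qsf 0 536870912 536870912 536870912 1) ndN1q0 ndN1q1 pcN1 Cut.none Ext.none)

def k0_pp_011 : ∃ t, chk3 f_pp_011 t 1 1 1 = true :=
  ⟨(l 4), by decide +kernel⟩

theorem c_pp_011 : CertN 0 536870912 536870912 536870912 67108864 67108864 3 true true true .pnn 0 1 1
    ndN1q0 ndN1q1 pcN1 Cut.none Ext.none :=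
  certNK0 (fam := true) (s1 := true) (s2 := true) (a := 0) (b := 1) (c := 1) (cn := .pnn) (n1 := ndN1q0) (n2 := ndN1q1) (pc := pcN1) (cut := Cut.none) (xt := Ext.none) (P1 := 0) (W1 := 536870912) (P2 := 536870912) (W2 := 536870912) (P3 := 67108864) (W3 := 67108864) (N0 := 3)
    rfl rfl rfl k0_pp_011

noncomputable def f_pp_012 : ℕ → ℕ → ℕ → ℕ → Bool := onCell 0 536870912 536870912 536870912 67108864 67108864
    (rowNK 3 0 true true true .pnp 0 1 2 (qsf 0 536870912 536870912 536870912 2) ndN1q0 ndN1q1 pcN2 Cut.none Ext.none)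

def k0_pp_012 : ∃ t, chk3 f_pp_012 t 1 1 1 = true :=
  ⟨(l 4), by decide +kernel⟩

theorem c_pp_012 : CertN 0 536870912 536870912 536870912 67108864 67108864 3 true true true .pnp 0 1 2
    ndN1q0 ndN1q1 pcN2 Cut.none Ext.none :=
  certNK0 (fam := true) (s1 := true) (s2 := true) (a := 0) (b := 1) (c := 2) (cn := .pnp) (n1 := ndN1q0) (n2 := ndN1q1) (pc := pcN2) (cut := Cut.none) (xt := Ext.none) (P1 := 0) (W1 := 536870912) (P2 := 536870912) (W2 := 536870912) (P3 := 67108864) (W3 := 67108864) (N0 := 3)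
    rfl rfl rfl k0_pp_012

noncomputable def cut_pp_022_a : Cut := Cut.of [[⟨0, 0, 0, 67108864⟩, ⟨1, 1, 0, 67108864⟩, ⟨2, 1, 0, 67108864⟩]]

noncomputable def f_pp_022_a : ℕ → ℕ → ℕ → ℕ → Bool := onCell 0 536870912 0 536870912 67108864 67108864
    (rowNK 3 0 true true true .pp 0 2 2 (qsf 0 536870912 0 536870912 2) ndN1q0 ndN1q2a pcN2 cut_pp_022_a Ext.none)

def k0_pp_022_a : ∃ t, chk3 f_pp_022_a t 1 1 1 = true :=
  ⟨(a (a (a (a (a (b (b (c (l 18457024) (l 17723376)) (c (b (l 18327496) (l 18133272)) (b (l 17429856) (a (b (l 17303336) (l 17107112)) (l 17301832))))) (b (b (a (b (c (l 17893688) (l 16845960)) (a (l 16857176) (l 17111808))) (l 17148496)) (a (a (b (l 16647584) (l 16664936)) (l 16661384)) (b (l 16885976) (l 16665232)))) (b (a (a (b (b (l 16711632) (l 16686288)) (l 6)) (b (l 16693232) (b (l 16702568) (l 6)))) (b (l 16719520) (l 4))) (l 6)))) (b (b (l 18035568) (l 17562720)) (b (b (l 17327304) (a (l 16884976) (l 4))) (l 4)))) (b (b (l 17908024) (l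 52313194679)) (b (l 4) (l 4)))) (b (b (l 17589552) (l 4)) (l 4))) (l 4)) (l 4)), by decide +kernel⟩

theorem c_pp_022_a : CertN 0 536870912 0 536870912 67108864 67108864 3 true true true .pp 0 2 2
    ndN1q0 ndN1q2a pcN2 cut_pp_022_a Ext.none :=
  certNK0 (fam := true) (s1 := true) (s2 := true) (a := 0) (b := 2) (c := 2) (cn := .pp) (n1 := ndN1q0) (n2 := ndN1q2a) (pc := pcN2) (cut := cut_pp_022_a) (xt := Ext.none) (P1 := 0) (W1 := 536870912) (P2 := 0) (W2 := 536870912) (P3 := 67108864) (W3 := 67108864) (N0 := 3)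
    rfl rfl rfl k0_pp_022_a

noncomputable def cut_pp_022_b : Cut := Cut.of [[⟨0, 0, 0, 67108864⟩, ⟨1, 1, 0, 67108864⟩, ⟨2, 1, 0, 67108864⟩]]

noncomputable def f_pp_022_b : ℕ → ℕ → ℕ → ℕ → Bool := onCell 0 536870912 1239849684 370763052 67108864 67108864
    (rowNK 3 0 true true true .pp 0 2 2 (qsf 0 536870912 1239849684 370763052 2) ndN1q0 ndN1q2b pcN2 cut_pp_022_b Ext.none)

def k0_pp_022_b : ∃ t, chk3 f_pp_022_b t 1 1 1 = true :=
  ⟨(a (a (b (a (b (a (b (a (b (l 18256680) (l 18450904)) (l 18261432)) (l 18587824)) (b (l 18094376) (l 18314720))) (a (l 18801936) (l 18494528))) (b (a (l 17956960) (l 4)) (l 4))) (a (b (a (l 18870096) (l 4)) (l 4)) (l 4))) (l 4)) (l 4)), by decide +kernel⟩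

theorem c_pp_022_b : CertN 0 536870912 1239849684 370763052 67108864 67108864 3 true true true .pp 0 2 2
    ndN1q0 ndN1q2b pcN2 cut_pp_022_b Ext.none :=
  certNK0 (fam := true) (s1 := true) (s2 := true) (a := 0) (b := 2) (c := 2) (cn := .pp) (n1 := ndN1q0) (n2 := ndN1q2b) (pc := pcN2) (cut := cut_pp_022_b) (xt := Ext.none) (P1 := 0) (W1 := 536870912) (P2 := 1239849684) (W2 := 370763052) (P3 := 67108864) (W3 := 67108864) (N0 := 3)
    rfl rfl rfl k0_pp_022_b

noncomputable def f_pp_023_a : ℕ → ℕ → ℕ → ℕ → Bool := onCell 1610612736 536870912 0 536870912 67108864 67108864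
    (rowNK 3 2 true true true .up 0 2 3 (qsf 0 536870912 0 536870912 3) ndN1q0 ndN1q2a pcN3 Cut.none Ext.none)

def k0_pp_023_a : ∃ t, chk3 f_pp_023_a t 1 1 1 = true :=
  ⟨(l 4), by decide +kernel⟩

theorem c_pp_023_a : CertN 0 536870912 0 536870912 67108864 67108864 3 true true true .up 0 2 3
    ndN1q0 ndN1q2a pcN3 Cut.none Ext.none :=
  certNK2 (fam := true) (s1 := true) (s2 := true) (a := 0) (b := 2) (c := 3) (cn := .up) (n1 := ndN1q0) (n2 := ndN1q2a) (pc := pcN3) (cut := Cut.none) (xt := Ext.none) (P1 := 0) (W1 := 536870912) (P2 := 0) (W2 := 536870912) (P3 := 67108864) (W3 := 67108864) (N0 := 3)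
    rfl rfl rfl (fun _ => rfl) k0_pp_023_a

noncomputable def f_pp_023_b : ℕ → ℕ → ℕ → ℕ → Bool := onCell 1610612736 536870912 1239849684 370763052 67108864 67108864
    (rowNK 3 2 true true true .up 0 2 3 (qsf 0 536870912 1239849684 370763052 3) ndN1q0 ndN1q2b pcN3 Cut.none Ext.none)

def k0_pp_023_b : ∃ t, chk3 f_pp_023_b t 1 1 1 = true :=
  ⟨(l 4), by decide +kernel⟩

theorem c_pp_023_b : CertN 0 536870912 1239849684 370763052 67108864 67108864 3 true true true .up 0 2 3
    ndN1q0 ndN1q2b pcN3 Cut.none Ext.none :=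
  certNK2 (fam := true) (s1 := true) (s2 := true) (a := 0) (b := 2) (c := 3) (cn := .up) (n1 := ndN1q0) (n2 := ndN1q2b) (pc := pcN3) (cut := Cut.none) (xt := Ext.none) (P1 := 0) (W1 := 536870912) (P2 := 1239849684) (W2 := 370763052) (P3 := 67108864) (W3 := 67108864) (N0 := 3)
    rfl rfl rfl (fun _ => rfl) k0_pp_023_b

noncomputable def f_pp_033 : ℕ → ℕ → ℕ → ℕ → Bool := onCell 0 536870912 1610612736 536870912 67108864 67108864
    (rowNK 3 0 true true true .pnn 0 3 3 (qsf 0 536870912 1610612736 536870912 3) ndN1q0 ndN1q3 pcN3 Cut.none Ext.none)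

def k0_pp_033 : ∃ t, chk3 f_pp_033 t 1 1 1 = true :=
  ⟨(a (l 4) (l 4)), by decide +kernel⟩

theorem c_pp_033 : CertN 0 536870912 1610612736 536870912 67108864 67108864 3 true true true .pnn 0 3 3
    ndN1q0 ndN1q3 pcN3 Cut.none Ext.none :=
  certNK0 (fam := true) (s1 := true) (s2 := true) (a := 0) (b := 3) (c := 3) (cn := .pnn) (n1 := ndN1q0) (n2 := ndN1q3) (pc := pcN3) (cut := Cut.none) (xt := Ext.none) (P1 := 0) (W1 := 536870912) (P2 := 1610612736) (W2 := 536870912) (P3 := 67108864) (W3 := 67108864) (N0 := 3)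
    rfl rfl rfl k0_pp_033

noncomputable def f_pp_101 : ℕ → ℕ → ℕ → ℕ → Bool := onCell 536870912 536870912 0 536870912 67108864 67108864
    (rowNK 3 0 true true true .npn 1 0 1 (qsf 536870912 536870912 0 536870912 1) ndN1q1 ndN1q0 pcN1 Cut.none Ext.none)

def k0_pp_101 : ∃ t, chk3 f_pp_101 t 1 1 1 = true :=
  ⟨(l 4), by decide +kernel⟩

theorem c_pp_101 : CertN 536870912 536870912 0 536870912 67108864 67108864 3 true true true .npn 1 0 1
    ndN1q1 ndN1q0 pcN1 Cut.none Ext.none :=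
  certNK0 (fam := true) (s1 := true) (s2 := true) (a := 1) (b := 0) (c := 1) (cn := .npn) (n1 := ndN1q1) (n2 := ndN1q0) (pc := pcN1) (cut := Cut.none) (xt := Ext.none) (P1 := 536870912) (W1 := 536870912) (P2 := 0) (W2 := 536870912) (P3 := 67108864) (W3 := 67108864) (N0 := 3)
    rfl rfl rfl k0_pp_101

noncomputable def f_pp_102 : ℕ → ℕ → ℕ → ℕ → Bool := onCell 536870912 536870912 0 536870912 67108864 67108864
    (rowNK 3 0 true true true .npp 1 0 2 (qsf 536870912 536870912 0 536870912 2) ndN1q1 ndN1q0 pcN2 Cut.none Ext.none)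

def k0_pp_102 : ∃ t, chk3 f_pp_102 t 1 1 1 = true :=
  ⟨(l 4), by decide +kernel⟩

theorem c_pp_102 : CertN 536870912 536870912 0 536870912 67108864 67108864 3 true true true .npp 1 0 2
    ndN1q1 ndN1q0 pcN2 Cut.none Ext.none :=
  certNK0 (fam := true) (s1 := true) (s2 := true) (a := 1) (b := 0) (c := 2) (cn := .npp) (n1 := ndN1q1) (n2 := ndN1q0) (pc := pcN2) (cut := Cut.none) (xt := Ext.none) (P1 := 536870912) (W1 := 536870912) (P2 := 0) (W2 := 536870912) (P3 := 67108864) (W3 := 67108864) (N0 := 3)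
    rfl rfl rfl k0_pp_102

noncomputable def f_pp_112 : ℕ → ℕ → ℕ → ℕ → Bool := onCell 536870912 536870912 536870912 536870912 67108864 67108864
    (rowNK 3 0 true true true .dn 1 1 2 (qsf 536870912 536870912 536870912 536870912 2) ndN1q1 ndN1q1 pcN2 Cut.none Ext.none)

def k0_pp_112 : ∃ t, chk3 f_pp_112 t 1 1 1 = true :=
  ⟨(l 4), by decide +kernel⟩

theorem c_pp_112 : CertN 536870912 536870912 536870912 536870912 67108864 67108864 3 true true true .dn 1 1 2
    ndN1q1 ndN1q1 pcN2 Cut.none Ext.none :=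
  certNK0 (fam := true) (s1 := true) (s2 := true) (a := 1) (b := 1) (c := 2) (cn := .dn) (n1 := ndN1q1) (n2 := ndN1q1) (pc := pcN2) (cut := Cut.none) (xt := Ext.none) (P1 := 536870912) (W1 := 536870912) (P2 := 536870912) (W2 := 536870912) (P3 := 67108864) (W3 := 67108864) (N0 := 3)
    rfl rfl rfl k0_pp_112

noncomputable def f_pp_113 : ℕ → ℕ → ℕ → ℕ → Bool := onCell 536870912 536870912 536870912 536870912 67108864 67108864
    (rowNK 3 0 true true true .nn 1 1 3 (qsf 536870912 536870912 536870912 536870912 3) ndN1q1 ndN1q1 pcN3 Cut.none Ext.none)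

def k0_pp_113 : ∃ t, chk3 f_pp_113 t 1 1 1 = true :=
  ⟨(l 4), by decide +kernel⟩

theorem c_pp_113 : CertN 536870912 536870912 536870912 536870912 67108864 67108864 3 true true true .nn 1 1 3
    ndN1q1 ndN1q1 pcN3 Cut.none Ext.none :=
  certNK0 (fam := true) (s1 := true) (s2 := true) (a := 1) (b := 1) (c := 3) (cn := .nn) (n1 := ndN1q1) (n2 := ndN1q1) (pc := pcN3) (cut := Cut.none) (xt := Ext.none) (P1 := 536870912) (W1 := 536870912) (P2 := 536870912) (W2 := 536870912) (P3 := 67108864) (W3 := 67108864) (N0 := 3)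
    rfl rfl rfl k0_pp_113

noncomputable def f_pp_123_a : ℕ → ℕ → ℕ → ℕ → Bool := onCell 536870912 536870912 0 536870912 67108864 67108864
    (rowNK 3 0 true true true .npn 1 2 3 (qsf 536870912 536870912 0 536870912 3) ndN1q1 ndN1q2a pcN3 Cut.none Ext.none)

def k0_pp_123_a : ∃ t, chk3 f_pp_123_a t 1 1 1 = true :=
  ⟨(l 4), by decide +kernel⟩

theorem c_pp_123_a : CertN 536870912 536870912 0 536870912 67108864 67108864 3 true true true .npn 1 2 3
    ndN1q1 ndN1q2a pcN3 Cut.none Ext.none :=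
  certNK0 (fam := true) (s1 := true) (s2 := true) (a := 1) (b := 2) (c := 3) (cn := .npn) (n1 := ndN1q1) (n2 := ndN1q2a) (pc := pcN3) (cut := Cut.none) (xt := Ext.none) (P1 := 536870912) (W1 := 536870912) (P2 := 0) (W2 := 536870912) (P3 := 67108864) (W3 := 67108864) (N0 := 3)
    rfl rfl rfl k0_pp_123_a

noncomputable def f_pp_123_b : ℕ → ℕ → ℕ → ℕ → Bool := onCell 536870912 536870912 1239849684 370763052 67108864 67108864
    (rowNK 3 0 true true true .npn 1 2 3 (qsf 536870912 536870912 1239849684 370763052 3) ndN1q1 ndN1q2b pcN3 Cut.none Ext.none)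

def k0_pp_123_b : ∃ t, chk3 f_pp_123_b t 1 1 1 = true :=
  ⟨(l 4), by decide +kernel⟩

theorem c_pp_123_b : CertN 536870912 536870912 1239849684 370763052 67108864 67108864 3 true true true .npn 1 2 3
    ndN1q1 ndN1q2b pcN3 Cut.none Ext.none :=
  certNK0 (fam := true) (s1 := true) (s2 := true) (a := 1) (b := 2) (c := 3) (cn := .npn) (n1 := ndN1q1) (n2 := ndN1q2b) (pc := pcN3) (cut := Cut.none) (xt := Ext.none) (P1 := 536870912) (W1 := 536870912) (P2 := 1239849684) (W2 := 370763052) (P3 := 67108864) (W3 := 67108864) (N0 := 3)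
    rfl rfl rfl k0_pp_123_b

noncomputable def f_pp_133 : ℕ → ℕ → ℕ → ℕ → Bool := onCell 536870912 536870912 1610612736 536870912 67108864 67108864
    (rowNK 3 0 true true true .dn 1 3 3 (qsf 536870912 536870912 1610612736 536870912 3) ndN1q1 ndN1q3 pcN3 Cut.none Ext.none)

def k0_pp_133 : ∃ t, chk3 f_pp_133 t 1 1 1 = true :=
  ⟨(l 4), by decide +kernel⟩

theorem c_pp_133 : CertN 536870912 536870912 1610612736 536870912 67108864 67108864 3 true true true .dn 1 3 3
    ndN1q1 ndN1q3 pcN3 Cut.none Ext.none :=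
  certNK0 (fam := true) (s1 := true) (s2 := true) (a := 1) (b := 3) (c := 3) (cn := .dn) (n1 := ndN1q1) (n2 := ndN1q3) (pc := pcN3) (cut := Cut.none) (xt := Ext.none) (P1 := 536870912) (W1 := 536870912) (P2 := 1610612736) (W2 := 536870912) (P3 := 67108864) (W3 := 67108864) (N0 := 3)
    rfl rfl rfl k0_pp_133

noncomputable def f_pp_202_a : ℕ → ℕ → ℕ → ℕ → Bool := onCell 0 536870912 0 536870912 67108864 67108864
    (rowNK 3 0 true true true .pp 2 0 2 (qsf 0 536870912 0 536870912 2) ndN1q2a ndN1q0 pcN2 Cut.none Ext.none)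

def k0_pp_202_a : ∃ t, chk3 f_pp_202_a t 1 1 1 = true :=
  ⟨(l 5), by decide +kernel⟩

theorem c_pp_202_a : CertN 0 536870912 0 536870912 67108864 67108864 3 true true true .pp 2 0 2
    ndN1q2a ndN1q0 pcN2 Cut.none Ext.none :=
  certNK0 (fam := true) (s1 := true) (s2 := true) (a := 2) (b := 0) (c := 2) (cn := .pp) (n1 := ndN1q2a) (n2 := ndN1q0) (pc := pcN2) (cut := Cut.none) (xt := Ext.none) (P1 := 0) (W1 := 536870912) (P2 := 0) (W2 := 536870912) (P3 := 67108864) (W3 := 67108864) (N0 := 3)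
    rfl rfl rfl k0_pp_202_a

noncomputable def f_pp_202_b : ℕ → ℕ → ℕ → ℕ → Bool := onCell 1239849684 370763052 0 536870912 67108864 67108864
    (rowNK 3 0 true true true .pp 2 0 2 (qsf 1239849684 370763052 0 536870912 2) ndN1q2b ndN1q0 pcN2 Cut.none Ext.none)

def k0_pp_202_b : ∃ t, chk3 f_pp_202_b t 1 1 1 = true :=
  ⟨(l 5), by decide +kernel⟩

theorem c_pp_202_b : CertN 1239849684 370763052 0 536870912 67108864 67108864 3 true true true .pp 2 0 2
    ndN1q2b ndN1q0 pcN2 Cut.none Ext.none :=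
  certNK0 (fam := true) (s1 := true) (s2 := true) (a := 2) (b := 0) (c := 2) (cn := .pp) (n1 := ndN1q2b) (n2 := ndN1q0) (pc := pcN2) (cut := Cut.none) (xt := Ext.none) (P1 := 1239849684) (W1 := 370763052) (P2 := 0) (W2 := 536870912) (P3 := 67108864) (W3 := 67108864) (N0 := 3)
    rfl rfl rfl k0_pp_202_b

noncomputable def f_pp_203_a : ℕ → ℕ → ℕ → ℕ → Bool := onCell 0 536870912 0 536870912 67108864 67108864
    (rowNK 3 0 true true true .up 2 0 3 (qsf 0 536870912 0 536870912 3) ndN1q2a ndN1q0 pcN3 Cut.none Ext.none)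

def k0_pp_203_a : ∃ t, chk3 f_pp_203_a t 1 1 1 = true :=
  ⟨(l 5), by decide +kernel⟩

theorem c_pp_203_a : CertN 0 536870912 0 536870912 67108864 67108864 3 true true true .up 2 0 3
    ndN1q2a ndN1q0 pcN3 Cut.none Ext.none :=
  certNK0 (fam := true) (s1 := true) (s2 := true) (a := 2) (b := 0) (c := 3) (cn := .up) (n1 := ndN1q2a) (n2 := ndN1q0) (pc := pcN3) (cut := Cut.none) (xt := Ext.none) (P1 := 0) (W1 := 536870912) (P2 := 0) (W2 := 536870912) (P3 := 67108864) (W3 := 67108864) (N0 := 3)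
    rfl rfl rfl k0_pp_203_a

noncomputable def f_pp_203_b : ℕ → ℕ → ℕ → ℕ → Bool := onCell 1239849684 370763052 0 536870912 67108864 67108864
    (rowNK 3 0 true true true .up 2 0 3 (qsf 1239849684 370763052 0 536870912 3) ndN1q2b ndN1q0 pcN3 Cut.none Ext.none)

def k0_pp_203_b : ∃ t, chk3 f_pp_203_b t 1 1 1 = true :=
  ⟨(l 5), by decide +kernel⟩

theorem c_pp_203_b : CertN 1239849684 370763052 0 536870912 67108864 67108864 3 true true true .up 2 0 3
    ndN1q2b ndN1q0 pcN3 Cut.none Ext.none :=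
  certNK0 (fam := true) (s1 := true) (s2 := true) (a := 2) (b := 0) (c := 3) (cn := .up) (n1 := ndN1q2b) (n2 := ndN1q0) (pc := pcN3) (cut := Cut.none) (xt := Ext.none) (P1 := 1239849684) (W1 := 370763052) (P2 := 0) (W2 := 536870912) (P3 := 67108864) (W3 := 67108864) (N0 := 3)
    rfl rfl rfl k0_pp_203_b

noncomputable def f_pp_213_a : ℕ → ℕ → ℕ → ℕ → Bool := onCell 0 536870912 536870912 536870912 67108864 67108864
    (rowNK 3 0 true true true .pnn 2 1 3 (qsf 0 536870912 536870912 536870912 3) ndN1q2a ndN1q1 pcN3 Cut.none Ext.none)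

def k0_pp_213_a : ∃ t, chk3 f_pp_213_a t 1 1 1 = true :=
  ⟨(l 4), by decide +kernel⟩

theorem c_pp_213_a : CertN 0 536870912 536870912 536870912 67108864 67108864 3 true true true .pnn 2 1 3
    ndN1q2a ndN1q1 pcN3 Cut.none Ext.none :=
  certNK0 (fam := true) (s1 := true) (s2 := true) (a := 2) (b := 1) (c := 3) (cn := .pnn) (n1 := ndN1q2a) (n2 := ndN1q1) (pc := pcN3) (cut := Cut.none) (xt := Ext.none) (P1 := 0) (W1 := 536870912) (P2 := 536870912) (W2 := 536870912) (P3 := 67108864) (W3 := 67108864) (N0 := 3)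
    rfl rfl rfl k0_pp_213_a

noncomputable def f_pp_213_b : ℕ → ℕ → ℕ → ℕ → Bool := onCell 1239849684 370763052 536870912 536870912 67108864 67108864
    (rowNK 3 0 true true true .pnn 2 1 3 (qsf 1239849684 370763052 536870912 536870912 3) ndN1q2b ndN1q1 pcN3 Cut.none Ext.none)

def k0_pp_213_b : ∃ t, chk3 f_pp_213_b t 1 1 1 = true :=
  ⟨(l 4), by decide +kernel⟩

theorem c_pp_213_b : CertN 1239849684 370763052 536870912 536870912 67108864 67108864 3 true true true .pnn 2 1 3
    ndN1q2b ndN1q1 pcN3 Cut.none Ext.none :=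
  certNK0 (fam := true) (s1 := true) (s2 := true) (a := 2) (b := 1) (c := 3) (cn := .pnn) (n1 := ndN1q2b) (n2 := ndN1q1) (pc := pcN3) (cut := Cut.none) (xt := Ext.none) (P1 := 1239849684) (W1 := 370763052) (P2 := 536870912) (W2 := 536870912) (P3 := 67108864) (W3 := 67108864) (N0 := 3)
    rfl rfl rfl k0_pp_213_b

noncomputable def f_pp_303 : ℕ → ℕ → ℕ → ℕ → Bool := onCell 1610612736 536870912 0 536870912 67108864 67108864
    (rowNK 3 0 true true true .npn 3 0 3 (qsf 1610612736 536870912 0 536870912 3) ndN1q3 ndN1q0 pcN3 Cut.none Ext.none)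

def k0_pp_303 : ∃ t, chk3 f_pp_303 t 1 1 1 = true :=
  ⟨(l 5), by decide +kernel⟩

theorem c_pp_303 : CertN 1610612736 536870912 0 536870912 67108864 67108864 3 true true true .npn 3 0 3
    ndN1q3 ndN1q0 pcN3 Cut.none Ext.none :=
  certNK0 (fam := true) (s1 := true) (s2 := true) (a := 3) (b := 0) (c := 3) (cn := .npn) (n1 := ndN1q3) (n2 := ndN1q0) (pc := pcN3) (cut := Cut.none) (xt := Ext.none) (P1 := 1610612736) (W1 := 536870912) (P2 := 0) (W2 := 536870912) (P3 := 67108864) (W3 := 67108864) (N0 := 3)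
    rfl rfl rfl k0_pp_303

noncomputable def f_pp_313 : ℕ → ℕ → ℕ → ℕ → Bool := onCell 1610612736 536870912 536870912 536870912 67108864 67108864
    (rowNK 3 0 true true true .dn 3 1 3 (qsf 1610612736 536870912 536870912 536870912 3) ndN1q3 ndN1q1 pcN3 Cut.none Ext.none)

def k0_pp_313 : ∃ t, chk3 f_pp_313 t 1 1 1 = true :=
  ⟨(l 4), by decide +kernel⟩

theorem c_pp_313 : CertN 1610612736 536870912 536870912 536870912 67108864 67108864 3 true true true .dn 3 1 3
    ndN1q3 ndN1q1 pcN3 Cut.none Ext.none :=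
  certNK0 (fam := true) (s1 := true) (s2 := true) (a := 3) (b := 1) (c := 3) (cn := .dn) (n1 := ndN1q3) (n2 := ndN1q1) (pc := pcN3) (cut := Cut.none) (xt := Ext.none) (P1 := 1610612736) (W1 := 536870912) (P2 := 536870912) (W2 := 536870912) (P3 := 67108864) (W3 := 67108864) (N0 := 3)
    rfl rfl rfl k0_pp_313

noncomputable def f_pm_001 : ℕ → ℕ → ℕ → ℕ → Bool := onCell 0 536870912 0 536870912 67108864 67108864
    (rowNK 3 0 true true false .up 0 0 1 (qsf 0 536870912 0 536870912 1) ndN1q0 ndN1q0 pcN1 Cut.none Ext.none)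

def k0_pm_001 : ∃ t, chk3 f_pm_001 t 1 1 1 = true :=
  ⟨(l 3), by decide +kernel⟩

theorem c_pm_001 : CertN 0 536870912 0 536870912 67108864 67108864 3 true true false .up 0 0 1
    ndN1q0 ndN1q0 pcN1 Cut.none Ext.none :=
  certNK0 (fam := true) (s1 := true) (s2 := false) (a := 0) (b := 0) (c := 1) (cn := .up) (n1 := ndN1q0) (n2 := ndN1q0) (pc := pcN1) (cut := Cut.none) (xt := Ext.none) (P1 := 0) (W1 := 536870912) (P2 := 0) (W2 := 536870912) (P3 := 67108864) (W3 := 67108864) (N0 := 3)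
    rfl rfl rfl k0_pm_001

noncomputable def f_pm_011 : ℕ → ℕ → ℕ → ℕ → Bool := onCell 0 536870912 536870912 536870912 67108864 67108864
    (rowNK 3 1 true true false .pnn 0 1 1 (qsf 0 536870912 536870912 536870912 1) ndN1q0 ndN1q1 pcN1 Cut.none Ext.none)

def k0_pm_011 : ∃ t, chk3 f_pm_011 t 1 1 1 = true :=
  ⟨(l 3), by decide +kernel⟩

theorem c_pm_011 : CertN 0 536870912 536870912 536870912 67108864 67108864 3 true true false .pnn 0 1 1
    ndN1q0 ndN1q1 pcN1 Cut.none Ext.none :=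
  certNK1 (fam := true) (s1 := true) (s2 := false) (a := 0) (b := 1) (c := 1) (cn := .pnn) (n1 := ndN1q0) (n2 := ndN1q1) (pc := pcN1) (cut := Cut.none) (xt := Ext.none) (P1 := 0) (W1 := 536870912) (P2 := 536870912) (W2 := 536870912) (P3 := 67108864) (W3 := 67108864) (N0 := 3)
    rfl rfl rfl (fun _ => rfl) k0_pm_011

noncomputable def f_pm_012 : ℕ → ℕ → ℕ → ℕ → Bool := onCell 1073741824 536870912 536870912 536870912 67108864 67108864
    (rowNK 3 2 true true false .pnp 0 1 2 (qsf 0 536870912 536870912 536870912 2) ndN1q0 ndN1q1 pcN2 Cut.none Ext.none)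

def k0_pm_012 : ∃ t, chk3 f_pm_012 t 1 1 1 = true :=
  ⟨(a (a (l 3) (a (a (a (l 3) (a (l 3) (b (l 17155488) (a (l 3) (b (l 17029128) (l 17731144)))))) (b (l 16987640) (b (l 17052224) (l 17792464)))) (b (l 17079968) (b (l 17101696) (l 17904560))))) (b (b (l 2) (l 17285168)) (b (l 17270216) (a (l 17866128) (l 17687176))))), by decide +kernel⟩

theorem c_pm_012 : CertN 0 536870912 536870912 536870912 67108864 67108864 3 true true false .pnp 0 1 2
    ndN1q0 ndN1q1 pcN2 Cut.none Ext.none :=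
  certNK2 (fam := true) (s1 := true) (s2 := false) (a := 0) (b := 1) (c := 2) (cn := .pnp) (n1 := ndN1q0) (n2 := ndN1q1) (pc := pcN2) (cut := Cut.none) (xt := Ext.none) (P1 := 0) (W1 := 536870912) (P2 := 536870912) (W2 := 536870912) (P3 := 67108864) (W3 := 67108864) (N0 := 3)
    rfl rfl rfl (fun _ => rfl) k0_pm_012

noncomputable def cut_pm_022_a : Cut := Cut.of [[⟨0, 0, 0, 67108864⟩, ⟨1, 1, 0, 67108864⟩, ⟨2, 1, 0, 67108864⟩]]

noncomputable def f_pm_022_a : ℕ → ℕ → ℕ → ℕ → Bool := onCell 0 536870912 0 536870912 67108864 67108864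
    (rowNK 3 0 true true false .pp 0 2 2 (qsf 0 536870912 0 536870912 2) ndN1q0 ndN1q2a pcN2 cut_pm_022_a Ext.none)

def k0_pm_022_a : ∃ t, chk3 f_pm_022_a t 1 1 1 = true :=
  ⟨(a (b (a (a (a (b (a (l 18152528) (l 18185616)) (a (c (b (l 18396712) (l 18207760)) (b (l 17509784) (a (b (l 17334608) (l 17133600)) (l 17364624)))) (l 17858832))) (l 18117192)) (l 18073920)) (l 17934928)) (a (b (a (a (b (a (a (c (c (l 18091176) (b (l 17666448) (l 17302496))) (b (l 16864656) (l 16633824))) (b (l 17531192) (l 17272320))) (l 17477936)) (a (a (b (a (l 16652984) (l 16726600)) (b (l 16663864) (l 16677424))) (l 16714840)) (b (l 17205848) (l 16830176)))) (b (l 17800152) (a (l 17342344) (l 17548720)))) (a (l 17828344) (l 17892576))) (a (b (a (b (a (a (a (a (b (l 16682376) (l 16693416)) (l 16709976)) (l 16702504)) (l 16728832)) (a (l 16693856) (l 16700784))) (a (a (b (a (l 6) (l 16706720)) (l 6)) (b (l 16723448) (l 16767872))) (b (l 16758312) (l 16818448)))) (b (l 17046296)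 (a (l 16818920) (l 16877080)))) (a (a (l 6) (b (a (l 6) (l 16948000)) (l 6))) (b (a (l 16973984) (l 16874360)) (a (b (l 16979664) (l 6)) (b (l 16910928) (l 16954976)))))) (b (a (a (l 17322952) (l 17503496)) (l 17661168)) (a (a (b (l 16938336) (l 16972616)) (l 17174392)) (b (l 17492944) (l 17369952)))))) (b (l 17833944) (a (b (l 17774936) (a (l 17843680) (l 17685008))) (l 17726248))))) (b (a (l 17442688) (l 17300736)) (a (b (l 17532208) (l 17558704)) (b (l 17344792) (l 17429704))))), by decide +kernel⟩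

theorem c_pm_022_a : CertN 0 536870912 0 536870912 67108864 67108864 3 true true false .pp 0 2 2
    ndN1q0 ndN1q2a pcN2 cut_pm_022_a Ext.none :=
  certNK0 (fam := true) (s1 := true) (s2 := false) (a := 0) (b := 2) (c := 2) (cn := .pp) (n1 := ndN1q0) (n2 := ndN1q2a) (pc := pcN2) (cut := cut_pm_022_a) (xt := Ext.none) (P1 := 0) (W1 := 536870912) (P2 := 0) (W2 := 536870912) (P3 := 67108864) (W3 := 67108864) (N0 := 3)
    rfl rfl rfl k0_pm_022_a

noncomputable def cut_pm_022_b : Cut := Cut.of [[⟨0, 0, 0, 67108864⟩, ⟨1, 1, 0, 67108864⟩, ⟨2, 1, 0, 67108864⟩]]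

noncomputable def f_pm_022_b : ℕ → ℕ → ℕ → ℕ → Bool := onCell 0 536870912 1239849684 370763052 67108864 67108864
    (rowNK 3 0 true true false .pp 0 2 2 (qsf 0 536870912 1239849684 370763052 2) ndN1q0 ndN1q2b pcN2 cut_pm_022_b Ext.none)

def k0_pm_022_b : ∃ t, chk3 f_pm_022_b t 1 1 1 = true :=
  ⟨(a (b (a (a (b (a (b (a (l 18407248) (l 18386072)) (l 18640616)) (l 18431184)) (l 18733832)) (b (l 18246912) (l 18406288))) (b (l 17880672) (l 17938680))) (a (a (b (l 18806520) (l 18800520)) (b (l 18461328) (l 18440912))) (b (l 17946560) (l 2)))) (b (a (b (l 17396608) (l 17502448)) (l 2)) (l 2))), by decide +kernel⟩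

theorem c_pm_022_b : CertN 0 536870912 1239849684 370763052 67108864 67108864 3 true true false .pp 0 2 2
    ndN1q0 ndN1q2b pcN2 cut_pm_022_b Ext.none :=
  certNK0 (fam := true) (s1 := true) (s2 := false) (a := 0) (b := 2) (c := 2) (cn := .pp) (n1 := ndN1q0) (n2 := ndN1q2b) (pc := pcN2) (cut := cut_pm_022_b) (xt := Ext.none) (P1 := 0) (W1 := 536870912) (P2 := 1239849684) (W2 := 370763052) (P3 := 67108864) (W3 := 67108864) (N0 := 3)
    rfl rfl rfl k0_pm_022_b

noncomputable def f_pm_023_a : ℕ → ℕ → ℕ → ℕ → Bool := onCell 1610612736 536870912 0 536870912 67108864 67108864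
    (rowNK 3 2 true true false .up 0 2 3 (qsf 0 536870912 0 536870912 3) ndN1q0 ndN1q2a pcN3 Cut.none Ext.none)

def k0_pm_023_a : ∃ t, chk3 f_pm_023_a t 1 1 1 = true :=
  ⟨(a (a (b (l 17373624) (a (l 18015696) (l 17648544))) (b (a (l 17080136) (l 2)) (l 17606512))) (l 2)), by decide +kernel⟩

theorem c_pm_023_a : CertN 0 536870912 0 536870912 67108864 67108864 3 true true false .up 0 2 3
    ndN1q0 ndN1q2a pcN3 Cut.none Ext.none :=
  certNK2 (fam := true) (s1 := true) (s2 := false) (a := 0) (b := 2) (c := 3) (cn := .up) (n1 := ndN1q0) (n2 := ndN1q2a) (pc := pcN3) (cut := Cut.none) (xt := Ext.none) (P1 := 0) (W1 := 536870912) (P2 := 0) (W2 := 536870912) (P3 := 67108864) (W3 := 67108864) (N0 := 3)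
    rfl rfl rfl (fun _ => rfl) k0_pm_023_a

noncomputable def f_pm_023_b : ℕ → ℕ → ℕ → ℕ → Bool := onCell 1610612736 536870912 1239849684 370763052 67108864 67108864
    (rowNK 3 2 true true false .up 0 2 3 (qsf 0 536870912 1239849684 370763052 3) ndN1q0 ndN1q2b pcN3 Cut.none Ext.none)

def k0_pm_023_b : ∃ t, chk3 f_pm_023_b t 1 1 1 = true :=
  ⟨(a (a (b (a (l 17539816) (l 17295640)) (a (l 17926400) (l 17779864))) (a (b (l 17093888) (l 17575632)) (b (l 16987032) (l 17343728)))) (a (l 4) (l 4))), by decide +kernel⟩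

theorem c_pm_023_b : CertN 0 536870912 1239849684 370763052 67108864 67108864 3 true true false .up 0 2 3
    ndN1q0 ndN1q2b pcN3 Cut.none Ext.none :=
  certNK2 (fam := true) (s1 := true) (s2 := false) (a := 0) (b := 2) (c := 3) (cn := .up) (n1 := ndN1q0) (n2 := ndN1q2b) (pc := pcN3) (cut := Cut.none) (xt := Ext.none) (P1 := 0) (W1 := 536870912) (P2 := 1239849684) (W2 := 370763052) (P3 := 67108864) (W3 := 67108864) (N0 := 3)
    rfl rfl rfl (fun _ => rfl) k0_pm_023_b

noncomputable def f_pm_033 : ℕ → ℕ → ℕ → ℕ → Bool := onCell 0 536870912 1610612736 536870912 67108864 67108864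
    (rowNK 3 1 true true false .pnn 0 3 3 (qsf 0 536870912 1610612736 536870912 3) ndN1q0 ndN1q3 pcN3 Cut.none Ext.none)

def k0_pm_033 : ∃ t, chk3 f_pm_033 t 1 1 1 = true :=
  ⟨(b (b (a (a (b (l 18103848) (l 17600744)) (l 17879952)) (l 1)) (a (a (b (l 17812824) (l 18047984)) (b (l 17330640) (l 17229984))) (b (l 1) (l 17373160)))) (b (a (a (l 4) (l 4)) (l 4)) (l 4))), by decide +kernel⟩

theorem c_pm_033 : CertN 0 536870912 1610612736 536870912 67108864 67108864 3 true true false .pnn 0 3 3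
    ndN1q0 ndN1q3 pcN3 Cut.none Ext.none :=
  certNK1 (fam := true) (s1 := true) (s2 := false) (a := 0) (b := 3) (c := 3) (cn := .pnn) (n1 := ndN1q0) (n2 := ndN1q3) (pc := pcN3) (cut := Cut.none) (xt := Ext.none) (P1 := 0) (W1 := 536870912) (P2 := 1610612736) (W2 := 536870912) (P3 := 67108864) (W3 := 67108864) (N0 := 3)
    rfl rfl rfl (fun _ => rfl) k0_pm_033

noncomputable def f_pm_101 : ℕ → ℕ → ℕ → ℕ → Bool := onCell 536870912 536870912 0 536870912 67108864 67108864
    (rowNK 3 2 true true false .npn 1 0 1 (qsf 536870912 536870912 0 536870912 1) ndN1q1 ndN1q0 pcN1 Cut.none Ext.none)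

def k0_pm_101 : ∃ t, chk3 f_pm_101 t 1 1 1 = true :=
  ⟨(l 3), by decide +kernel⟩

theorem c_pm_101 : CertN 536870912 536870912 0 536870912 67108864 67108864 3 true true false .npn 1 0 1
    ndN1q1 ndN1q0 pcN1 Cut.none Ext.none :=
  certNK2 (fam := true) (s1 := true) (s2 := false) (a := 1) (b := 0) (c := 1) (cn := .npn) (n1 := ndN1q1) (n2 := ndN1q0) (pc := pcN1) (cut := Cut.none) (xt := Ext.none) (P1 := 536870912) (W1 := 536870912) (P2 := 0) (W2 := 536870912) (P3 := 67108864) (W3 := 67108864) (N0 := 3)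
    rfl rfl rfl (fun _ => rfl) k0_pm_101

noncomputable def f_pm_102 : ℕ → ℕ → ℕ → ℕ → Bool := onCell 536870912 536870912 1073741824 536870912 67108864 67108864
    (rowNK 3 1 true true false .npp 1 0 2 (qsf 536870912 536870912 0 536870912 2) ndN1q1 ndN1q0 pcN2 Cut.none Ext.none)

def k0_pm_102 : ∃ t, chk3 f_pm_102 t 1 1 1 = true :=
  ⟨(b (b (l 3) (b (b (b (l 3) (b (l 3) (a (l 17155488) (a (l 17026696) (b (l 3) (l 17731144)))))) (a (l 16987640) (a (l 17052224) (l 17792464)))) (a (l 17079968) (a (l 17101696) (l 17883592))))) (a (a (l 2) (l 17285168)) (a (l 17270216) (b (l 17866128) (l 17687176))))), by decide +kernel⟩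

theorem c_pm_102 : CertN 536870912 536870912 0 536870912 67108864 67108864 3 true true false .npp 1 0 2
    ndN1q1 ndN1q0 pcN2 Cut.none Ext.none :=
  certNK1 (fam := true) (s1 := true) (s2 := false) (a := 1) (b := 0) (c := 2) (cn := .npp) (n1 := ndN1q1) (n2 := ndN1q0) (pc := pcN2) (cut := Cut.none) (xt := Ext.none) (P1 := 536870912) (W1 := 536870912) (P2 := 0) (W2 := 536870912) (P3 := 67108864) (W3 := 67108864) (N0 := 3)
    rfl rfl rfl (fun _ => rfl) k0_pm_102

noncomputable def f_pm_112 : ℕ → ℕ → ℕ → ℕ → Bool := onCell 536870912 536870912 1073741824 536870912 67108864 67108864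
    (rowNK 3 1 true true false .dn 1 1 2 (qsf 536870912 536870912 536870912 536870912 2) ndN1q1 ndN1q1 pcN2 Cut.none Ext.none)

def k0_pm_112 : ∃ t, chk3 f_pm_112 t 1 1 1 = true :=
  ⟨(b (b (l 3) (a (b (a (l 18455152) (a (l 18246480) (l 401615798567))) (l 18005000)) (a (b (l 1) (l 17478776)) (l 1)))) (a (b (l 17903424) (a (l 17810784) (l 17128280))) (a (l 17575416) (l 18509448)))), by decide +kernel⟩

theorem c_pm_112 : CertN 536870912 536870912 536870912 536870912 67108864 67108864 3 true true false .dn 1 1 2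
    ndN1q1 ndN1q1 pcN2 Cut.none Ext.none :=
  certNK1 (fam := true) (s1 := true) (s2 := false) (a := 1) (b := 1) (c := 2) (cn := .dn) (n1 := ndN1q1) (n2 := ndN1q1) (pc := pcN2) (cut := Cut.none) (xt := Ext.none) (P1 := 536870912) (W1 := 536870912) (P2 := 536870912) (W2 := 536870912) (P3 := 67108864) (W3 := 67108864) (N0 := 3)
    rfl rfl rfl (fun _ => rfl) k0_pm_112

noncomputable def f_pm_113 : ℕ → ℕ → ℕ → ℕ → Bool := onCell 536870912 536870912 536870912 536870912 67108864 67108864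
    (rowNK 3 0 true true false .nn 1 1 3 (qsf 536870912 536870912 536870912 536870912 3) ndN1q1 ndN1q1 pcN3 Cut.none Ext.none)

def k0_pm_113 : ∃ t, chk3 f_pm_113 t 1 1 1 = true :=
  ⟨(a (b (l 433291133255) (b (l 398393490599) (l 18371992))) (b (a (l 398393490599) (l 18371992)) (b (a (l 16953968) (l 17620488)) (a (l 17620488) (b (l 17115096) (a (l 17220720) (b (l 16958856) (a (l 16990616) (b (l 16869592) (a (l 16879312) (l 16812296))))))))))), by decide +kernel⟩

theorem c_pm_113 : CertN 536870912 536870912 536870912 536870912 67108864 67108864 3 true true false .nn 1 1 3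
    ndN1q1 ndN1q1 pcN3 Cut.none Ext.none :=
  certNK0 (fam := true) (s1 := true) (s2 := false) (a := 1) (b := 1) (c := 3) (cn := .nn) (n1 := ndN1q1) (n2 := ndN1q1) (pc := pcN3) (cut := Cut.none) (xt := Ext.none) (P1 := 536870912) (W1 := 536870912) (P2 := 536870912) (W2 := 536870912) (P3 := 67108864) (W3 := 67108864) (N0 := 3)
    rfl rfl rfl k0_pm_113

noncomputable def f_pm_123_a : ℕ → ℕ → ℕ → ℕ → Bool := onCell 1610612736 536870912 0 536870912 67108864 67108864
    (rowNK 3 2 true true false .npn 1 2 3 (qsf 536870912 536870912 0 536870912 3) ndN1q1 ndN1q2a pcN3 Cut.none Ext.none)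

def k0_pm_123_a : ∃ t, chk3 f_pm_123_a t 1 1 1 = true :=
  ⟨(a (a (b (l 18416464) (a (l 19045280) (l 18753216))) (b (l 18133504) (a (l 18490968) (l 18178624)))) (a (b (l 18095632) (a (l 17857856) (l 17695528))) (a (l 4) (l 4)))), by decide +kernel⟩

theorem c_pm_123_a : CertN 536870912 536870912 0 536870912 67108864 67108864 3 true true false .npn 1 2 3
    ndN1q1 ndN1q2a pcN3 Cut.none Ext.none :=
  certNK2 (fam := true) (s1 := true) (s2 := false) (a := 1) (b := 2) (c := 3) (cn := .npn) (n1 := ndN1q1) (n2 := ndN1q2a) (pc := pcN3) (cut := Cut.none) (xt := Ext.none) (P1 := 536870912) (W1 := 536870912) (P2 := 0) (W2 := 536870912) (P3 := 67108864) (W3 := 67108864) (N0 := 3)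
    rfl rfl rfl (fun _ => rfl) k0_pm_123_a

noncomputable def f_pm_123_b : ℕ → ℕ → ℕ → ℕ → Bool := onCell 1610612736 536870912 1239849684 370763052 67108864 67108864
    (rowNK 3 2 true true false .npn 1 2 3 (qsf 536870912 536870912 1239849684 370763052 3) ndN1q1 ndN1q2b pcN3 Cut.none Ext.none)

def k0_pm_123_b : ∃ t, chk3 f_pm_123_b t 1 1 1 = true :=
  ⟨(a (a (l 1) (a (l 131569959015) (l 18190224))) (a (l 4) (l 4))), by decide +kernel⟩

theorem c_pm_123_b : CertN 536870912 536870912 1239849684 370763052 67108864 67108864 3 true true false .npn 1 2 3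
    ndN1q1 ndN1q2b pcN3 Cut.none Ext.none :=
  certNK2 (fam := true) (s1 := true) (s2 := false) (a := 1) (b := 2) (c := 3) (cn := .npn) (n1 := ndN1q1) (n2 := ndN1q2b) (pc := pcN3) (cut := Cut.none) (xt := Ext.none) (P1 := 536870912) (W1 := 536870912) (P2 := 1239849684) (W2 := 370763052) (P3 := 67108864) (W3 := 67108864) (N0 := 3)
    rfl rfl rfl (fun _ => rfl) k0_pm_123_b

noncomputable def f_pm_133 : ℕ → ℕ → ℕ → ℕ → Bool := onCell 536870912 536870912 1610612736 536870912 67108864 67108864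
    (rowNK 3 0 true true false .dn 1 3 3 (qsf 536870912 536870912 1610612736 536870912 3) ndN1q1 ndN1q3 pcN3 Cut.none Ext.none)

def k0_pm_133 : ∃ t, chk3 f_pm_133 t 1 1 1 = true :=
  ⟨(l 4), by decide +kernel⟩

theorem c_pm_133 : CertN 536870912 536870912 1610612736 536870912 67108864 67108864 3 true true false .dn 1 3 3
    ndN1q1 ndN1q3 pcN3 Cut.none Ext.none :=
  certNK0 (fam := true) (s1 := true) (s2 := false) (a := 1) (b := 3) (c := 3) (cn := .dn) (n1 := ndN1q1) (n2 := ndN1q3) (pc := pcN3) (cut := Cut.none) (xt := Ext.none) (P1 := 536870912) (W1 := 536870912) (P2 := 1610612736) (W2 := 536870912) (P3 := 67108864) (W3 := 67108864) (N0 := 3)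
    rfl rfl rfl k0_pm_133

noncomputable def cut_pm_202_a : Cut := Cut.of [[⟨0, 1, 0, 67108864⟩, ⟨1, 0, 0, 67108864⟩, ⟨2, 1, 0, 67108864⟩]]

noncomputable def f_pm_202_a : ℕ → ℕ → ℕ → ℕ → Bool := onCell 0 536870912 0 536870912 67108864 67108864
    (rowNK 3 0 true true false .pp 2 0 2 (qsf 0 536870912 0 536870912 2) ndN1q2a ndN1q0 pcN2 cut_pm_202_a Ext.none)

def k0_pm_202_a : ∃ t, chk3 f_pm_202_a t 1 1 1 = true :=
  ⟨(a (b (b (b (b (a (b (l 17941816) (l 18185616)) (b (a (a (l 18040168) (l 17721056)) (c (l 18018720) (b (a (l 17334592) (l 17133584)) (l 17364624)))) (a (l 18072248) (l 17894368)))) (a (l 18186072) (l 18058816))) (l 18073920)) (l 18060760)) (b (l 17442688) (l 17300736))) (b (a (b (b (b (a (b (b (c (a (l 17932408) (b (l 17435496) (l 17713536))) (a (l 16864648) (l 16633824))) (a (l 17531192) (l 17272320))) (l 17394048)) (b (b (a (b (l 16652984) (l 16726600)) (a (l 16663864) (l 16677424))) (l 16715496)) (a (l 17205848) (l 16830176)))) (a (l 17800152)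 (b (l 17342344) (l 17548720)))) (b (l 17828344) (l 17892576))) (l 17833944)) (b (a (b (b (a (b (b (b (b (a (l 16682376) (l 16693416)) (l 16709976)) (l 16702504)) (l 16728832)) (b (l 16693856) (l 16700784))) (b (b (a (b (l 6) (l 16706720)) (l 6)) (a (l 16723448) (l 16767872))) (a (l 16758312) (l 16818448)))) (a (l 17046296) (b (l 16818920) (l 16877080)))) (b (b (l 17322952) (l 17503496)) (l 17661168))) (b (a (b (b (l 6) (b (l 6) (l 16948000))) (b (l 16973984) (l 16874360))) (b (l 6) (b (a (l 16979664) (l 6)) (a (l 16910928) (l 16954976))))) (b (b (a (l 16938336) (l 16972616)) (l 17153448)) (a (l 17492944) (l 17369960))))) (b (a (l 17774936) (l 17659912)) (l 17726480)))) (b (a (l 17532208) (l 17558856)) (a (l 17344792) (l 17429712))))), by decide +kernel⟩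

theorem c_pm_202_a : CertN 0 536870912 0 536870912 67108864 67108864 3 true true false .pp 2 0 2
    ndN1q2a ndN1q0 pcN2 cut_pm_202_a Ext.none :=
  certNK0 (fam := true) (s1 := true) (s2 := false) (a := 2) (b := 0) (c := 2) (cn := .pp) (n1 := ndN1q2a) (n2 := ndN1q0) (pc := pcN2) (cut := cut_pm_202_a) (xt := Ext.none) (P1 := 0) (W1 := 536870912) (P2 := 0) (W2 := 536870912) (P3 := 67108864) (W3 := 67108864) (N0 := 3)
    rfl rfl rfl k0_pm_202_a

noncomputable def cut_pm_202_b : Cut := Cut.of [[⟨0, 1, 0, 67108864⟩, ⟨1, 0, 0, 67108864⟩, ⟨2, 1, 0, 67108864⟩]]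

noncomputable def f_pm_202_b : ℕ → ℕ → ℕ → ℕ → Bool := onCell 1239849684 370763052 0 536870912 67108864 67108864
    (rowNK 3 0 true true false .pp 2 0 2 (qsf 1239849684 370763052 0 536870912 2) ndN1q2b ndN1q0 pcN2 cut_pm_202_b Ext.none)

def k0_pm_202_b : ∃ t, chk3 f_pm_202_b t 1 1 1 = true :=
  ⟨(b (a (b (b (a (b (a (b (l 18407248) (l 18386072)) (l 18640616)) (l 18431184)) (l 18733832)) (a (l 18246912) (l 18406288))) (a (l 17880672) (l 17938680))) (b (b (a (l 18806520) (l 18800520)) (a (l 18461328) (l 18440912))) (a (l 17946560) (l 2)))) (a (b (a (l 17396608) (l 17502448)) (l 2)) (l 2))), by decide +kernel⟩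

theorem c_pm_202_b : CertN 1239849684 370763052 0 536870912 67108864 67108864 3 true true false .pp 2 0 2
    ndN1q2b ndN1q0 pcN2 cut_pm_202_b Ext.none :=
  certNK0 (fam := true) (s1 := true) (s2 := false) (a := 2) (b := 0) (c := 2) (cn := .pp) (n1 := ndN1q2b) (n2 := ndN1q0) (pc := pcN2) (cut := cut_pm_202_b) (xt := Ext.none) (P1 := 1239849684) (W1 := 370763052) (P2 := 0) (W2 := 536870912) (P3 := 67108864) (W3 := 67108864) (N0 := 3)
    rfl rfl rfl k0_pm_202_b

noncomputable def f_pm_203_a : ℕ → ℕ → ℕ → ℕ → Bool := onCell 0 536870912 1610612736 536870912 67108864 67108864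
    (rowNK 3 1 true true false .up 2 0 3 (qsf 0 536870912 0 536870912 3) ndN1q2a ndN1q0 pcN3 Cut.none Ext.none)

def k0_pm_203_a : ∃ t, chk3 f_pm_203_a t 1 1 1 = true :=
  ⟨(b (b (a (l 17373624) (b (l 18015696) (l 17648544))) (a (b (l 17080136) (l 2)) (l 17606512))) (l 2)), by decide +kernel⟩

theorem c_pm_203_a : CertN 0 536870912 0 536870912 67108864 67108864 3 true true false .up 2 0 3
    ndN1q2a ndN1q0 pcN3 Cut.none Ext.none :=
  certNK1 (fam := true) (s1 := true) (s2 := false) (a := 2) (b := 0) (c := 3) (cn := .up) (n1 := ndN1q2a) (n2 := ndN1q0) (pc := pcN3) (cut := Cut.none) (xt := Ext.none) (P1 := 0) (W1 := 536870912) (P2 := 0) (W2 := 536870912) (P3 := 67108864) (W3 := 67108864) (N0 := 3)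
    rfl rfl rfl (fun _ => rfl) k0_pm_203_a

noncomputable def f_pm_203_b : ℕ → ℕ → ℕ → ℕ → Bool := onCell 1239849684 370763052 1610612736 536870912 67108864 67108864
    (rowNK 3 1 true true false .up 2 0 3 (qsf 1239849684 370763052 0 536870912 3) ndN1q2b ndN1q0 pcN3 Cut.none Ext.none)

def k0_pm_203_b : ∃ t, chk3 f_pm_203_b t 1 1 1 = true :=
  ⟨(b (b (a (b (l 17539816) (l 17295640)) (b (l 17926400) (l 17779864))) (b (a (l 17093888) (l 17575632)) (a (l 16987032) (l 17343728)))) (b (l 4) (l 4))), by decide +kernel⟩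

theorem c_pm_203_b : CertN 1239849684 370763052 0 536870912 67108864 67108864 3 true true false .up 2 0 3
    ndN1q2b ndN1q0 pcN3 Cut.none Ext.none :=
  certNK1 (fam := true) (s1 := true) (s2 := false) (a := 2) (b := 0) (c := 3) (cn := .up) (n1 := ndN1q2b) (n2 := ndN1q0) (pc := pcN3) (cut := Cut.none) (xt := Ext.none) (P1 := 1239849684) (W1 := 370763052) (P2 := 0) (W2 := 536870912) (P3 := 67108864) (W3 := 67108864) (N0 := 3)
    rfl rfl rfl (fun _ => rfl) k0_pm_203_b

noncomputable def f_pm_213_a : ℕ → ℕ → ℕ → ℕ → Bool := onCell 0 536870912 1610612736 536870912 67108864 67108864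
    (rowNK 3 1 true true false .pnn 2 1 3 (qsf 0 536870912 536870912 536870912 3) ndN1q2a ndN1q1 pcN3 Cut.none Ext.none)

def k0_pm_213_a : ∃ t, chk3 f_pm_213_a t 1 1 1 = true :=
  ⟨(b (b (a (l 18416464) (b (l 19045336) (l 18753264))) (a (l 18133504) (b (l 18491008) (l 18178656)))) (b (a (l 18074664) (b (l 17857864) (l 17695512))) (b (l 4) (l 4)))), by decide +kernel⟩

theorem c_pm_213_a : CertN 0 536870912 536870912 536870912 67108864 67108864 3 true true false .pnn 2 1 3
    ndN1q2a ndN1q1 pcN3 Cut.none Ext.none :=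
  certNK1 (fam := true) (s1 := true) (s2 := false) (a := 2) (b := 1) (c := 3) (cn := .pnn) (n1 := ndN1q2a) (n2 := ndN1q1) (pc := pcN3) (cut := Cut.none) (xt := Ext.none) (P1 := 0) (W1 := 536870912) (P2 := 536870912) (W2 := 536870912) (P3 := 67108864) (W3 := 67108864) (N0 := 3)
    rfl rfl rfl (fun _ => rfl) k0_pm_213_a

noncomputable def f_pm_213_b : ℕ → ℕ → ℕ → ℕ → Bool := onCell 1239849684 370763052 1610612736 536870912 67108864 67108864
    (rowNK 3 1 true true false .pnn 2 1 3 (qsf 1239849684 370763052 536870912 536870912 3) ndN1q2b ndN1q1 pcN3 Cut.none Ext.none)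

def k0_pm_213_b : ∃ t, chk3 f_pm_213_b t 1 1 1 = true :=
  ⟨(b (b (l 1) (b (l 131569959015) (l 18190224))) (b (l 4) (l 4))), by decide +kernel⟩

theorem c_pm_213_b : CertN 1239849684 370763052 536870912 536870912 67108864 67108864 3 true true false .pnn 2 1 3
    ndN1q2b ndN1q1 pcN3 Cut.none Ext.none :=
  certNK1 (fam := true) (s1 := true) (s2 := false) (a := 2) (b := 1) (c := 3) (cn := .pnn) (n1 := ndN1q2b) (n2 := ndN1q1) (pc := pcN3) (cut := Cut.none) (xt := Ext.none) (P1 := 1239849684) (W1 := 370763052) (P2 := 536870912) (W2 := 536870912) (P3 := 67108864) (W3 := 67108864) (N0 := 3)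
    rfl rfl rfl (fun _ => rfl) k0_pm_213_b

noncomputable def f_pm_303 : ℕ → ℕ → ℕ → ℕ → Bool := onCell 1610612736 536870912 0 536870912 67108864 67108864
    (rowNK 3 2 true true false .npn 3 0 3 (qsf 1610612736 536870912 0 536870912 3) ndN1q3 ndN1q0 pcN3 Cut.none Ext.none)

def k0_pm_303 : ∃ t, chk3 f_pm_303 t 1 1 1 = true :=
  ⟨(a (a (b (b (a (l 18103848) (l 17600744)) (l 17879952)) (l 1)) (b (b (a (l 17812824) (l 18047984)) (a (l 17330640) (l 17229984))) (a (l 1) (l 17373160)))) (a (b (b (l 4) (l 4)) (l 4)) (l 4))), by decide +kernel⟩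

theorem c_pm_303 : CertN 1610612736 536870912 0 536870912 67108864 67108864 3 true true false .npn 3 0 3
    ndN1q3 ndN1q0 pcN3 Cut.none Ext.none :=
  certNK2 (fam := true) (s1 := true) (s2 := false) (a := 3) (b := 0) (c := 3) (cn := .npn) (n1 := ndN1q3) (n2 := ndN1q0) (pc := pcN3) (cut := Cut.none) (xt := Ext.none) (P1 := 1610612736) (W1 := 536870912) (P2 := 0) (W2 := 536870912) (P3 := 67108864) (W3 := 67108864) (N0 := 3)
    rfl rfl rfl (fun _ => rfl) k0_pm_303

noncomputable def f_pm_313 : ℕ → ℕ → ℕ → ℕ → Bool := onCell 1610612736 536870912 536870912 536870912 67108864 67108864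
    (rowNK 3 0 true true false .dn 3 1 3 (qsf 1610612736 536870912 536870912 536870912 3) ndN1q3 ndN1q1 pcN3 Cut.none Ext.none)

def k0_pm_313 : ∃ t, chk3 f_pm_313 t 1 1 1 = true :=
  ⟨(l 4), by decide +kernel⟩

theorem c_pm_313 : CertN 1610612736 536870912 536870912 536870912 67108864 67108864 3 true true false .dn 3 1 3
    ndN1q3 ndN1q1 pcN3 Cut.none Ext.none :=
  certNK0 (fam := true) (s1 := true) (s2 := false) (a := 3) (b := 1) (c := 3) (cn := .dn) (n1 := ndN1q3) (n2 := ndN1q1) (pc := pcN3) (cut := Cut.none) (xt := Ext.none) (P1 := 1610612736) (W1 := 536870912) (P2 := 536870912) (W2 := 536870912) (P3 := 67108864) (W3 := 67108864) (N0 := 3)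
    rfl rfl rfl k0_pm_313

noncomputable def f_mm_001 : ℕ → ℕ → ℕ → ℕ → Bool := onCell 0 536870912 0 536870912 67108864 67108864
    (rowNK 3 0 true false false .up 0 0 1 (qsf 0 536870912 0 536870912 1) ndN1q0 ndN1q0 pcN1 Cut.none Ext.none)

def k0_mm_001 : ∃ t, chk3 f_mm_001 t 1 1 1 = true :=
  ⟨(l 4), by decide +kernel⟩

theorem c_mm_001 : CertN 0 536870912 0 536870912 67108864 67108864 3 true false false .up 0 0 1
    ndN1q0 ndN1q0 pcN1 Cut.none Ext.none :=
  certNK0 (fam := true) (s1 := false) (s2 := false) (a := 0) (b := 0) (c := 1) (cn := .up) (n1 := ndN1q0) (n2 := ndN1q0) (pc := pcN1) (cut := Cut.none) (xt := Ext.none) (P1 := 0) (W1 := 536870912) (P2 := 0) (W2 := 536870912) (P3 := 67108864) (W3 := 67108864) (N0 := 3)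
    rfl rfl rfl k0_mm_001

noncomputable def f_mm_011 : ℕ → ℕ → ℕ → ℕ → Bool := onCell 0 536870912 536870912 536870912 67108864 67108864
    (rowNK 3 0 true false false .pnn 0 1 1 (qsf 0 536870912 536870912 536870912 1) ndN1q0 ndN1q1 pcN1 Cut.none Ext.none)

def k0_mm_011 : ∃ t, chk3 f_mm_011 t 1 1 1 = true :=
  ⟨(l 4), by decide +kernel⟩

theorem c_mm_011 : CertN 0 536870912 536870912 536870912 67108864 67108864 3 true false false .pnn 0 1 1
    ndN1q0 ndN1q1 pcN1 Cut.none Ext.none :=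
  certNK0 (fam := true) (s1 := false) (s2 := false) (a := 0) (b := 1) (c := 1) (cn := .pnn) (n1 := ndN1q0) (n2 := ndN1q1) (pc := pcN1) (cut := Cut.none) (xt := Ext.none) (P1 := 0) (W1 := 536870912) (P2 := 536870912) (W2 := 536870912) (P3 := 67108864) (W3 := 67108864) (N0 := 3)
    rfl rfl rfl k0_mm_011

noncomputable def f_mm_012 : ℕ → ℕ → ℕ → ℕ → Bool := onCell 0 536870912 536870912 536870912 67108864 67108864
    (rowNK 3 0 true false false .pnp 0 1 2 (qsf 0 536870912 536870912 536870912 2) ndN1q0 ndN1q1 pcN2 Cut.none Ext.none)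

def k0_mm_012 : ∃ t, chk3 f_mm_012 t 1 1 1 = true :=
  ⟨(l 4), by decide +kernel⟩

theorem c_mm_012 : CertN 0 536870912 536870912 536870912 67108864 67108864 3 true false false .pnp 0 1 2
    ndN1q0 ndN1q1 pcN2 Cut.none Ext.none :=
  certNK0 (fam := true) (s1 := false) (s2 := false) (a := 0) (b := 1) (c := 2) (cn := .pnp) (n1 := ndN1q0) (n2 := ndN1q1) (pc := pcN2) (cut := Cut.none) (xt := Ext.none) (P1 := 0) (W1 := 536870912) (P2 := 536870912) (W2 := 536870912) (P3 := 67108864) (W3 := 67108864) (N0 := 3)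
    rfl rfl rfl k0_mm_012

noncomputable def f_mm_022_a : ℕ → ℕ → ℕ → ℕ → Bool := onCell 0 536870912 0 536870912 67108864 67108864
    (rowNK 3 0 true false false .pp 0 2 2 (qsf 0 536870912 0 536870912 2) ndN1q0 ndN1q2a pcN2 Cut.none Ext.none)

def k0_mm_022_a : ∃ t, chk3 f_mm_022_a t 1 1 1 = true :=
  ⟨(l 5), by decide +kernel⟩

theorem c_mm_022_a : CertN 0 536870912 0 536870912 67108864 67108864 3 true false false .pp 0 2 2
    ndN1q0 ndN1q2a pcN2 Cut.none Ext.none :=
  certNK0 (fam := true) (s1 := false) (s2 := false) (a := 0) (b := 2) (c := 2) (cn := .pp) (n1 := ndN1q0) (n2 := ndN1q2a) (pc := pcN2) (cut := Cut.none) (xt := Ext.none) (P1 := 0) (W1 := 536870912) (P2 := 0) (W2 := 536870912) (P3 := 67108864) (W3 := 67108864) (N0 := 3)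
    rfl rfl rfl k0_mm_022_a

noncomputable def f_mm_022_b : ℕ → ℕ → ℕ → ℕ → Bool := onCell 0 536870912 1239849684 370763052 67108864 67108864
    (rowNK 3 0 true false false .pp 0 2 2 (qsf 0 536870912 1239849684 370763052 2) ndN1q0 ndN1q2b pcN2 Cut.none Ext.none)

def k0_mm_022_b : ∃ t, chk3 f_mm_022_b t 1 1 1 = true :=
  ⟨(l 5), by decide +kernel⟩

theorem c_mm_022_b : CertN 0 536870912 1239849684 370763052 67108864 67108864 3 true false false .pp 0 2 2
    ndN1q0 ndN1q2b pcN2 Cut.none Ext.none :=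
  certNK0 (fam := true) (s1 := false) (s2 := false) (a := 0) (b := 2) (c := 2) (cn := .pp) (n1 := ndN1q0) (n2 := ndN1q2b) (pc := pcN2) (cut := Cut.none) (xt := Ext.none) (P1 := 0) (W1 := 536870912) (P2 := 1239849684) (W2 := 370763052) (P3 := 67108864) (W3 := 67108864) (N0 := 3)
    rfl rfl rfl k0_mm_022_b

noncomputable def f_mm_023_a : ℕ → ℕ → ℕ → ℕ → Bool := onCell 0 536870912 0 536870912 67108864 67108864
    (rowNK 3 0 true false false .up 0 2 3 (qsf 0 536870912 0 536870912 3) ndN1q0 ndN1q2a pcN3 Cut.none Ext.none)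

def k0_mm_023_a : ∃ t, chk3 f_mm_023_a t 1 1 1 = true :=
  ⟨(l 5), by decide +kernel⟩

theorem c_mm_023_a : CertN 0 536870912 0 536870912 67108864 67108864 3 true false false .up 0 2 3
    ndN1q0 ndN1q2a pcN3 Cut.none Ext.none :=
  certNK0 (fam := true) (s1 := false) (s2 := false) (a := 0) (b := 2) (c := 3) (cn := .up) (n1 := ndN1q0) (n2 := ndN1q2a) (pc := pcN3) (cut := Cut.none) (xt := Ext.none) (P1 := 0) (W1 := 536870912) (P2 := 0) (W2 := 536870912) (P3 := 67108864) (W3 := 67108864) (N0 := 3)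
    rfl rfl rfl k0_mm_023_a

noncomputable def f_mm_023_b : ℕ → ℕ → ℕ → ℕ → Bool := onCell 0 536870912 1239849684 370763052 67108864 67108864
    (rowNK 3 0 true false false .up 0 2 3 (qsf 0 536870912 1239849684 370763052 3) ndN1q0 ndN1q2b pcN3 Cut.none Ext.none)

def k0_mm_023_b : ∃ t, chk3 f_mm_023_b t 1 1 1 = true :=
  ⟨(l 5), by decide +kernel⟩

theorem c_mm_023_b : CertN 0 536870912 1239849684 370763052 67108864 67108864 3 true false false .up 0 2 3
    ndN1q0 ndN1q2b pcN3 Cut.none Ext.none :=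
  certNK0 (fam := true) (s1 := false) (s2 := false) (a := 0) (b := 2) (c := 3) (cn := .up) (n1 := ndN1q0) (n2 := ndN1q2b) (pc := pcN3) (cut := Cut.none) (xt := Ext.none) (P1 := 0) (W1 := 536870912) (P2 := 1239849684) (W2 := 370763052) (P3 := 67108864) (W3 := 67108864) (N0 := 3)
    rfl rfl rfl k0_mm_023_b

noncomputable def f_mm_033 : ℕ → ℕ → ℕ → ℕ → Bool := onCell 0 536870912 1610612736 536870912 67108864 67108864
    (rowNK 3 0 true false false .pnn 0 3 3 (qsf 0 536870912 1610612736 536870912 3) ndN1q0 ndN1q3 pcN3 Cut.none Ext.none)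

def k0_mm_033 : ∃ t, chk3 f_mm_033 t 1 1 1 = true :=
  ⟨(l 5), by decide +kernel⟩

theorem c_mm_033 : CertN 0 536870912 1610612736 536870912 67108864 67108864 3 true false false .pnn 0 3 3
    ndN1q0 ndN1q3 pcN3 Cut.none Ext.none :=
  certNK0 (fam := true) (s1 := false) (s2 := false) (a := 0) (b := 3) (c := 3) (cn := .pnn) (n1 := ndN1q0) (n2 := ndN1q3) (pc := pcN3) (cut := Cut.none) (xt := Ext.none) (P1 := 0) (W1 := 536870912) (P2 := 1610612736) (W2 := 536870912) (P3 := 67108864) (W3 := 67108864) (N0 := 3)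
    rfl rfl rfl k0_mm_033

noncomputable def f_mm_101 : ℕ → ℕ → ℕ → ℕ → Bool := onCell 536870912 536870912 0 536870912 67108864 67108864
    (rowNK 3 0 true false false .npn 1 0 1 (qsf 536870912 536870912 0 536870912 1) ndN1q1 ndN1q0 pcN1 Cut.none Ext.none)

def k0_mm_101 : ∃ t, chk3 f_mm_101 t 1 1 1 = true :=
  ⟨(l 4), by decide +kernel⟩

theorem c_mm_101 : CertN 536870912 536870912 0 536870912 67108864 67108864 3 true false false .npn 1 0 1
    ndN1q1 ndN1q0 pcN1 Cut.none Ext.none :=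
  certNK0 (fam := true) (s1 := false) (s2 := false) (a := 1) (b := 0) (c := 1) (cn := .npn) (n1 := ndN1q1) (n2 := ndN1q0) (pc := pcN1) (cut := Cut.none) (xt := Ext.none) (P1 := 536870912) (W1 := 536870912) (P2 := 0) (W2 := 536870912) (P3 := 67108864) (W3 := 67108864) (N0 := 3)
    rfl rfl rfl k0_mm_101

noncomputable def f_mm_102 : ℕ → ℕ → ℕ → ℕ → Bool := onCell 536870912 536870912 0 536870912 67108864 67108864
    (rowNK 3 0 true false false .npp 1 0 2 (qsf 536870912 536870912 0 536870912 2) ndN1q1 ndN1q0 pcN2 Cut.none Ext.none)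

def k0_mm_102 : ∃ t, chk3 f_mm_102 t 1 1 1 = true :=
  ⟨(l 4), by decide +kernel⟩

theorem c_mm_102 : CertN 536870912 536870912 0 536870912 67108864 67108864 3 true false false .npp 1 0 2
    ndN1q1 ndN1q0 pcN2 Cut.none Ext.none :=
  certNK0 (fam := true) (s1 := false) (s2 := false) (a := 1) (b := 0) (c := 2) (cn := .npp) (n1 := ndN1q1) (n2 := ndN1q0) (pc := pcN2) (cut := Cut.none) (xt := Ext.none) (P1 := 536870912) (W1 := 536870912) (P2 := 0) (W2 := 536870912) (P3 := 67108864) (W3 := 67108864) (N0 := 3)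
    rfl rfl rfl k0_mm_102

noncomputable def f_mm_112 : ℕ → ℕ → ℕ → ℕ → Bool := onCell 536870912 536870912 536870912 536870912 67108864 67108864
    (rowNK 3 0 true false false .dn 1 1 2 (qsf 536870912 536870912 536870912 536870912 2) ndN1q1 ndN1q1 pcN2 Cut.none Ext.none)

def k0_mm_112 : ∃ t, chk3 f_mm_112 t 1 1 1 = true :=
  ⟨(l 4), by decide +kernel⟩

theorem c_mm_112 : CertN 536870912 536870912 536870912 536870912 67108864 67108864 3 true false false .dn 1 1 2
    ndN1q1 ndN1q1 pcN2 Cut.none Ext.none :=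
  certNK0 (fam := true) (s1 := false) (s2 := false) (a := 1) (b := 1) (c := 2) (cn := .dn) (n1 := ndN1q1) (n2 := ndN1q1) (pc := pcN2) (cut := Cut.none) (xt := Ext.none) (P1 := 536870912) (W1 := 536870912) (P2 := 536870912) (W2 := 536870912) (P3 := 67108864) (W3 := 67108864) (N0 := 3)
    rfl rfl rfl k0_mm_112

noncomputable def f_mm_113 : ℕ → ℕ → ℕ → ℕ → Bool := onCell 536870912 536870912 536870912 536870912 67108864 67108864
    (rowNK 3 0 true false false .nn 1 1 3 (qsf 536870912 536870912 536870912 536870912 3) ndN1q1 ndN1q1 pcN3 Cut.none Ext.none)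

def k0_mm_113 : ∃ t, chk3 f_mm_113 t 1 1 1 = true :=
  ⟨(l 4), by decide +kernel⟩

theorem c_mm_113 : CertN 536870912 536870912 536870912 536870912 67108864 67108864 3 true false false .nn 1 1 3
    ndN1q1 ndN1q1 pcN3 Cut.none Ext.none :=
  certNK0 (fam := true) (s1 := false) (s2 := false) (a := 1) (b := 1) (c := 3) (cn := .nn) (n1 := ndN1q1) (n2 := ndN1q1) (pc := pcN3) (cut := Cut.none) (xt := Ext.none) (P1 := 536870912) (W1 := 536870912) (P2 := 536870912) (W2 := 536870912) (P3 := 67108864) (W3 := 67108864) (N0 := 3)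
    rfl rfl rfl k0_mm_113

noncomputable def f_mm_123_a : ℕ → ℕ → ℕ → ℕ → Bool := onCell 536870912 536870912 0 536870912 67108864 67108864
    (rowNK 3 0 true false false .npn 1 2 3 (qsf 536870912 536870912 0 536870912 3) ndN1q1 ndN1q2a pcN3 Cut.none Ext.none)

def k0_mm_123_a : ∃ t, chk3 f_mm_123_a t 1 1 1 = true :=
  ⟨(l 4), by decide +kernel⟩

theorem c_mm_123_a : CertN 536870912 536870912 0 536870912 67108864 67108864 3 true false false .npn 1 2 3
    ndN1q1 ndN1q2a pcN3 Cut.none Ext.none :=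
  certNK0 (fam := true) (s1 := false) (s2 := false) (a := 1) (b := 2) (c := 3) (cn := .npn) (n1 := ndN1q1) (n2 := ndN1q2a) (pc := pcN3) (cut := Cut.none) (xt := Ext.none) (P1 := 536870912) (W1 := 536870912) (P2 := 0) (W2 := 536870912) (P3 := 67108864) (W3 := 67108864) (N0 := 3)
    rfl rfl rfl k0_mm_123_a

noncomputable def f_mm_123_b : ℕ → ℕ → ℕ → ℕ → Bool := onCell 536870912 536870912 1239849684 370763052 67108864 67108864
    (rowNK 3 0 true false false .npn 1 2 3 (qsf 536870912 536870912 1239849684 370763052 3) ndN1q1 ndN1q2b pcN3 Cut.none Ext.none)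

def k0_mm_123_b : ∃ t, chk3 f_mm_123_b t 1 1 1 = true :=
  ⟨(l 4), by decide +kernel⟩

theorem c_mm_123_b : CertN 536870912 536870912 1239849684 370763052 67108864 67108864 3 true false false .npn 1 2 3
    ndN1q1 ndN1q2b pcN3 Cut.none Ext.none :=
  certNK0 (fam := true) (s1 := false) (s2 := false) (a := 1) (b := 2) (c := 3) (cn := .npn) (n1 := ndN1q1) (n2 := ndN1q2b) (pc := pcN3) (cut := Cut.none) (xt := Ext.none) (P1 := 536870912) (W1 := 536870912) (P2 := 1239849684) (W2 := 370763052) (P3 := 67108864) (W3 := 67108864) (N0 := 3)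
    rfl rfl rfl k0_mm_123_b

noncomputable def f_mm_133 : ℕ → ℕ → ℕ → ℕ → Bool := onCell 536870912 536870912 1610612736 536870912 67108864 67108864
    (rowNK 3 0 true false false .dn 1 3 3 (qsf 536870912 536870912 1610612736 536870912 3) ndN1q1 ndN1q3 pcN3 Cut.none Ext.none)

def k0_mm_133 : ∃ t, chk3 f_mm_133 t 1 1 1 = true :=
  ⟨(l 4), by decide +kernel⟩

theorem c_mm_133 : CertN 536870912 536870912 1610612736 536870912 67108864 67108864 3 true false false .dn 1 3 3
    ndN1q1 ndN1q3 pcN3 Cut.none Ext.none :=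
  certNK0 (fam := true) (s1 := false) (s2 := false) (a := 1) (b := 3) (c := 3) (cn := .dn) (n1 := ndN1q1) (n2 := ndN1q3) (pc := pcN3) (cut := Cut.none) (xt := Ext.none) (P1 := 536870912) (W1 := 536870912) (P2 := 1610612736) (W2 := 536870912) (P3 := 67108864) (W3 := 67108864) (N0 := 3)
    rfl rfl rfl k0_mm_133

noncomputable def cut_mm_202_a : Cut := Cut.of [[⟨0, 1, 0, 67108864⟩, ⟨1, 0, 0, 67108864⟩, ⟨2, 1, 0, 67108864⟩]]

noncomputable def f_mm_202_a : ℕ → ℕ → ℕ → ℕ → Bool := onCell 0 536870912 0 536870912 67108864 67108864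
    (rowNK 3 0 true false false .pp 2 0 2 (qsf 0 536870912 0 536870912 2) ndN1q2a ndN1q0 pcN2 cut_mm_202_a Ext.none)

def k0_mm_202_a : ∃ t, chk3 f_mm_202_a t 1 1 1 = true :=
  ⟨(b (b (b (b (b (a (a (a (l 18124624) (l 18021656)) (b (a (c (l 18350256) (l 17507208)) (c (l 18143584) (a (l 17303296) (l 17107072)))) (a (l 17930368) (l 17711544)))) (a (a (b (a (c (l 17893576) (l 16845936)) (b (l 16773232) (l 17111808))) (a (l 17455864) (l 17212384))) (a (b (b (l 16647584) (l 16718856)) (l 16885976)) (b (a (l 16652416) (l 16664584)) (l 16686200)))) (a (b (b (a (a (b (l 16663064) (l 16655352)) (l 16686288)) (l 6)) (a (l 16693232) (a (l 16702568) (l 6)))) (a (l 16719520) (l 4))) (l 6)))) (a (a (l 18035568) (a (l 17905224) (l 17723816))) (a (a (b (l 17407544) (l 17448624)) (a (l 17107216) (l 4))) (l 4)))) (a (a (l 17908024) (a (l 17799704) (l 17661664))) (a (l 4) (l 4)))) (a (a (l 17589552) (l 4)) (l 4))) (l 4)) (l 4)), by decide +kernel⟩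

theorem c_mm_202_a : CertN 0 536870912 0 536870912 67108864 67108864 3 true false false .pp 2 0 2
    ndN1q2a ndN1q0 pcN2 cut_mm_202_a Ext.none :=
  certNK0 (fam := true) (s1 := false) (s2 := false) (a := 2) (b := 0) (c := 2) (cn := .pp) (n1 := ndN1q2a) (n2 := ndN1q0) (pc := pcN2) (cut := cut_mm_202_a) (xt := Ext.none) (P1 := 0) (W1 := 536870912) (P2 := 0) (W2 := 536870912) (P3 := 67108864) (W3 := 67108864) (N0 := 3)
    rfl rfl rfl k0_mm_202_a

noncomputable def cut_mm_202_b : Cut := Cut.of [[⟨0, 1, 0, 67108864⟩, ⟨1, 0, 0, 67108864⟩, ⟨2, 1, 0, 67108864⟩]]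

noncomputable def f_mm_202_b : ℕ → ℕ → ℕ → ℕ → Bool := onCell 1239849684 370763052 0 536870912 67108864 67108864
    (rowNK 3 0 true false false .pp 2 0 2 (qsf 1239849684 370763052 0 536870912 2) ndN1q2b ndN1q0 pcN2 cut_mm_202_b Ext.none)

def k0_mm_202_b : ∃ t, chk3 f_mm_202_b t 1 1 1 = true :=
  ⟨(b (b (a (b (a (b (a (b (a (l 18256680) (l 18450904)) (l 18261432)) (l 18587824)) (a (l 18094376) (l 18314720))) (b (l 18801936) (l 18494528))) (a (b (l 17956960) (l 4)) (l 4))) (b (a (b (l 18870096) (l 4)) (l 4)) (l 4))) (l 4)) (l 4)), by decide +kernel⟩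

theorem c_mm_202_b : CertN 1239849684 370763052 0 536870912 67108864 67108864 3 true false false .pp 2 0 2
    ndN1q2b ndN1q0 pcN2 cut_mm_202_b Ext.none :=
  certNK0 (fam := true) (s1 := false) (s2 := false) (a := 2) (b := 0) (c := 2) (cn := .pp) (n1 := ndN1q2b) (n2 := ndN1q0) (pc := pcN2) (cut := cut_mm_202_b) (xt := Ext.none) (P1 := 1239849684) (W1 := 370763052) (P2 := 0) (W2 := 536870912) (P3 := 67108864) (W3 := 67108864) (N0 := 3)
    rfl rfl rfl k0_mm_202_b

noncomputable def f_mm_203_a : ℕ → ℕ → ℕ → ℕ → Bool := onCell 0 536870912 1610612736 536870912 67108864 67108864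
    (rowNK 3 1 true false false .up 2 0 3 (qsf 0 536870912 0 536870912 3) ndN1q2a ndN1q0 pcN3 Cut.none Ext.none)

def k0_mm_203_a : ∃ t, chk3 f_mm_203_a t 1 1 1 = true :=
  ⟨(l 4), by decide +kernel⟩

theorem c_mm_203_a : CertN 0 536870912 0 536870912 67108864 67108864 3 true false false .up 2 0 3
    ndN1q2a ndN1q0 pcN3 Cut.none Ext.none :=
  certNK1 (fam := true) (s1 := false) (s2 := false) (a := 2) (b := 0) (c := 3) (cn := .up) (n1 := ndN1q2a) (n2 := ndN1q0) (pc := pcN3) (cut := Cut.none) (xt := Ext.none) (P1 := 0) (W1 := 536870912) (P2 := 0) (W2 := 536870912) (P3 := 67108864) (W3 := 67108864) (N0 := 3)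
    rfl rfl rfl (fun _ => rfl) k0_mm_203_a

noncomputable def f_mm_203_b : ℕ → ℕ → ℕ → ℕ → Bool := onCell 1239849684 370763052 1610612736 536870912 67108864 67108864
    (rowNK 3 1 true false false .up 2 0 3 (qsf 1239849684 370763052 0 536870912 3) ndN1q2b ndN1q0 pcN3 Cut.none Ext.none)

def k0_mm_203_b : ∃ t, chk3 f_mm_203_b t 1 1 1 = true :=
  ⟨(l 4), by decide +kernel⟩

theorem c_mm_203_b : CertN 1239849684 370763052 0 536870912 67108864 67108864 3 true false false .up 2 0 3
    ndN1q2b ndN1q0 pcN3 Cut.none Ext.none :=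
  certNK1 (fam := true) (s1 := false) (s2 := false) (a := 2) (b := 0) (c := 3) (cn := .up) (n1 := ndN1q2b) (n2 := ndN1q0) (pc := pcN3) (cut := Cut.none) (xt := Ext.none) (P1 := 1239849684) (W1 := 370763052) (P2 := 0) (W2 := 536870912) (P3 := 67108864) (W3 := 67108864) (N0 := 3)
    rfl rfl rfl (fun _ => rfl) k0_mm_203_b

noncomputable def f_mm_213_a : ℕ → ℕ → ℕ → ℕ → Bool := onCell 0 536870912 536870912 536870912 67108864 67108864
    (rowNK 3 0 true false false .pnn 2 1 3 (qsf 0 536870912 536870912 536870912 3) ndN1q2a ndN1q1 pcN3 Cut.none Ext.none)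

def k0_mm_213_a : ∃ t, chk3 f_mm_213_a t 1 1 1 = true :=
  ⟨(l 4), by decide +kernel⟩

theorem c_mm_213_a : CertN 0 536870912 536870912 536870912 67108864 67108864 3 true false false .pnn 2 1 3
    ndN1q2a ndN1q1 pcN3 Cut.none Ext.none :=
  certNK0 (fam := true) (s1 := false) (s2 := false) (a := 2) (b := 1) (c := 3) (cn := .pnn) (n1 := ndN1q2a) (n2 := ndN1q1) (pc := pcN3) (cut := Cut.none) (xt := Ext.none) (P1 := 0) (W1 := 536870912) (P2 := 536870912) (W2 := 536870912) (P3 := 67108864) (W3 := 67108864) (N0 := 3)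
    rfl rfl rfl k0_mm_213_a

noncomputable def f_mm_213_b : ℕ → ℕ → ℕ → ℕ → Bool := onCell 1239849684 370763052 536870912 536870912 67108864 67108864
    (rowNK 3 0 true false false .pnn 2 1 3 (qsf 1239849684 370763052 536870912 536870912 3) ndN1q2b ndN1q1 pcN3 Cut.none Ext.none)

def k0_mm_213_b : ∃ t, chk3 f_mm_213_b t 1 1 1 = true :=
  ⟨(l 4), by decide +kernel⟩

theorem c_mm_213_b : CertN 1239849684 370763052 536870912 536870912 67108864 67108864 3 true false false .pnn 2 1 3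
    ndN1q2b ndN1q1 pcN3 Cut.none Ext.none :=
  certNK0 (fam := true) (s1 := false) (s2 := false) (a := 2) (b := 1) (c := 3) (cn := .pnn) (n1 := ndN1q2b) (n2 := ndN1q1) (pc := pcN3) (cut := Cut.none) (xt := Ext.none) (P1 := 1239849684) (W1 := 370763052) (P2 := 536870912) (W2 := 536870912) (P3 := 67108864) (W3 := 67108864) (N0 := 3)
    rfl rfl rfl k0_mm_213_b

noncomputable def f_mm_303 : ℕ → ℕ → ℕ → ℕ → Bool := onCell 1610612736 536870912 0 536870912 67108864 67108864
    (rowNK 3 0 true false false .npn 3 0 3 (qsf 1610612736 536870912 0 536870912 3) ndN1q3 ndN1q0 pcN3 Cut.none Ext.none)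

def k0_mm_303 : ∃ t, chk3 f_mm_303 t 1 1 1 = true :=
  ⟨(a (l 4) (l 4)), by decide +kernel⟩

theorem c_mm_303 : CertN 1610612736 536870912 0 536870912 67108864 67108864 3 true false false .npn 3 0 3
    ndN1q3 ndN1q0 pcN3 Cut.none Ext.none :=
  certNK0 (fam := true) (s1 := false) (s2 := false) (a := 3) (b := 0) (c := 3) (cn := .npn) (n1 := ndN1q3) (n2 := ndN1q0) (pc := pcN3) (cut := Cut.none) (xt := Ext.none) (P1 := 1610612736) (W1 := 536870912) (P2 := 0) (W2 := 536870912) (P3 := 67108864) (W3 := 67108864) (N0 := 3)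
    rfl rfl rfl k0_mm_303

noncomputable def f_mm_313 : ℕ → ℕ → ℕ → ℕ → Bool := onCell 1610612736 536870912 536870912 536870912 67108864 67108864
    (rowNK 3 0 true false false .dn 3 1 3 (qsf 1610612736 536870912 536870912 536870912 3) ndN1q3 ndN1q1 pcN3 Cut.none Ext.none)

def k0_mm_313 : ∃ t, chk3 f_mm_313 t 1 1 1 = true :=
  ⟨(l 4), by decide +kernel⟩

theorem c_mm_313 : CertN 1610612736 536870912 536870912 536870912 67108864 67108864 3 true false false .dn 3 1 3
    ndN1q3 ndN1q1 pcN3 Cut.none Ext.none :=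
  certNK0 (fam := true) (s1 := false) (s2 := false) (a := 3) (b := 1) (c := 3) (cn := .dn) (n1 := ndN1q3) (n2 := ndN1q1) (pc := pcN3) (cut := Cut.none) (xt := Ext.none) (P1 := 1610612736) (W1 := 536870912) (P2 := 536870912) (W2 := 536870912) (P3 := 67108864) (W3 := 67108864) (N0 := 3)
    rfl rfl rfl k0_mm_313

end Pool.Agent.Strip051.G.I1_16_1_8.Tab.C.NA11

namespace Pool.Agent.Strip051.G.I1_16_1_8.Tab.C.NA12

open Pool.Agent.Strip051.PB Pool.Agent.Strip051.PB.T
open Pool.Agent.Strip051.G.I1_16_1_8.Tab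

noncomputable def f_pp_001 : ℕ → ℕ → ℕ → ℕ → Bool := onCell 0 536870912 0 536870912 67108864 67108864
    (rowNK 3 0 true true true .up 0 0 1 (qsf 0 536870912 0 536870912 1) ndN1q0 ndN2q0 pcN1 Cut.none Ext.none)

def k0_pp_001 : ∃ t, chk3 f_pp_001 t 1 1 1 = true :=
  ⟨(l 4), by decide +kernel⟩

theorem c_pp_001 : CertN 0 536870912 0 536870912 67108864 67108864 3 true true true .up 0 0 1
    ndN1q0 ndN2q0 pcN1 Cut.none Ext.none :=
  certNK0 (fam := true) (s1 := true) (s2 := true) (a := 0) (b := 0) (c := 1) (cn := .up) (n1 := ndN1q0) (n2 := ndN2q0) (pc := pcN1) (cut := Cut.none) (xt := Ext.none) (P1 := 0) (W1 := 536870912) (P2 := 0) (W2 := 536870912) (P3 := 67108864) (W3 := 67108864) (N0 := 3)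
    rfl rfl rfl k0_pp_001

noncomputable def f_pp_011 : ℕ → ℕ → ℕ → ℕ → Bool := onCell 0 536870912 536870912 536870912 67108864 67108864
    (rowNK 3 0 true true true .pnn 0 1 1 (qsf 0 536870912 536870912 536870912 1) ndN1q0 ndN2q1 pcN1 Cut.none Ext.none)

def k0_pp_011 : ∃ t, chk3 f_pp_011 t 1 1 1 = true :=
  ⟨(l 4), by decide +kernel⟩

theorem c_pp_011 : CertN 0 536870912 536870912 536870912 67108864 67108864 3 true true true .pnn 0 1 1
    ndN1q0 ndN2q1 pcN1 Cut.none Ext.none :=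
  certNK0 (fam := true) (s1 := true) (s2 := true) (a := 0) (b := 1) (c := 1) (cn := .pnn) (n1 := ndN1q0) (n2 := ndN2q1) (pc := pcN1) (cut := Cut.none) (xt := Ext.none) (P1 := 0) (W1 := 536870912) (P2 := 536870912) (W2 := 536870912) (P3 := 67108864) (W3 := 67108864) (N0 := 3)
    rfl rfl rfl k0_pp_011

noncomputable def f_pp_012 : ℕ → ℕ → ℕ → ℕ → Bool := onCell 0 536870912 536870912 536870912 67108864 67108864
    (rowNK 3 0 true true true .pnp 0 1 2 (qsf 0 536870912 536870912 536870912 2) ndN1q0 ndN2q1 pcN2 Cut.none Ext.none)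

def k0_pp_012 : ∃ t, chk3 f_pp_012 t 1 1 1 = true :=
  ⟨(l 4), by decide +kernel⟩

theorem c_pp_012 : CertN 0 536870912 536870912 536870912 67108864 67108864 3 true true true .pnp 0 1 2
    ndN1q0 ndN2q1 pcN2 Cut.none Ext.none :=
  certNK0 (fam := true) (s1 := true) (s2 := true) (a := 0) (b := 1) (c := 2) (cn := .pnp) (n1 := ndN1q0) (n2 := ndN2q1) (pc := pcN2) (cut := Cut.none) (xt := Ext.none) (P1 := 0) (W1 := 536870912) (P2 := 536870912) (W2 := 536870912) (P3 := 67108864) (W3 := 67108864) (N0 := 3)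
    rfl rfl rfl k0_pp_012

noncomputable def cut_pp_022_a : Cut := Cut.of [[⟨0, 0, 0, 67108864⟩, ⟨1, 1, 0, 67108864⟩, ⟨2, 1, 0, 67108864⟩]]

noncomputable def f_pp_022_a : ℕ → ℕ → ℕ → ℕ → Bool := onCell 0 536870912 0 536870912 67108864 67108864
    (rowNK 3 0 true true true .pp 0 2 2 (qsf 0 536870912 0 536870912 2) ndN1q0 ndN2q2a pcN2 cut_pp_022_a Ext.none)

def k0_pp_022_a : ∃ t, chk3 f_pp_022_a t 1 1 1 = true :=
  ⟨(a (b (l 4) (a (b (l 4) (b (l 4) (a (b (l 4) (a (l 6) (l 4))) (l 4)))) (l 4))) (l 4)), by decide +kernel⟩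

theorem c_pp_022_a : CertN 0 536870912 0 536870912 67108864 67108864 3 true true true .pp 0 2 2
    ndN1q0 ndN2q2a pcN2 cut_pp_022_a Ext.none :=
  certNK0 (fam := true) (s1 := true) (s2 := true) (a := 0) (b := 2) (c := 2) (cn := .pp) (n1 := ndN1q0) (n2 := ndN2q2a) (pc := pcN2) (cut := cut_pp_022_a) (xt := Ext.none) (P1 := 0) (W1 := 536870912) (P2 := 0) (W2 := 536870912) (P3 := 67108864) (W3 := 67108864) (N0 := 3)
    rfl rfl rfl k0_pp_022_a

noncomputable def cut_pp_022_b : Cut := Cut.of [[⟨0, 0, 0, 67108864⟩, ⟨1, 1, 0, 67108864⟩, ⟨2, 1, 0, 67108864⟩]]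

noncomputable def f_pp_022_b : ℕ → ℕ → ℕ → ℕ → Bool := onCell 0 536870912 1239849684 370763052 67108864 67108864
    (rowNK 3 0 true true true .pp 0 2 2 (qsf 0 536870912 1239849684 370763052 2) ndN1q0 ndN2q2b pcN2 cut_pp_022_b Ext.none)

def k0_pp_022_b : ∃ t, chk3 f_pp_022_b t 1 1 1 = true :=
  ⟨(a (l 4) (l 4)), by decide +kernel⟩

theorem c_pp_022_b : CertN 0 536870912 1239849684 370763052 67108864 67108864 3 true true true .pp 0 2 2
    ndN1q0 ndN2q2b pcN2 cut_pp_022_b Ext.none :=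
  certNK0 (fam := true) (s1 := true) (s2 := true) (a := 0) (b := 2) (c := 2) (cn := .pp) (n1 := ndN1q0) (n2 := ndN2q2b) (pc := pcN2) (cut := cut_pp_022_b) (xt := Ext.none) (P1 := 0) (W1 := 536870912) (P2 := 1239849684) (W2 := 370763052) (P3 := 67108864) (W3 := 67108864) (N0 := 3)
    rfl rfl rfl k0_pp_022_b

noncomputable def f_pp_023_a : ℕ → ℕ → ℕ → ℕ → Bool := onCell 1610612736 536870912 0 536870912 67108864 67108864
    (rowNK 3 2 true true true .up 0 2 3 (qsf 0 536870912 0 536870912 3) ndN1q0 ndN2q2a pcN3 Cut.none Ext.none)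

def k0_pp_023_a : ∃ t, chk3 f_pp_023_a t 1 1 1 = true :=
  ⟨(l 4), by decide +kernel⟩

theorem c_pp_023_a : CertN 0 536870912 0 536870912 67108864 67108864 3 true true true .up 0 2 3
    ndN1q0 ndN2q2a pcN3 Cut.none Ext.none :=
  certNK2 (fam := true) (s1 := true) (s2 := true) (a := 0) (b := 2) (c := 3) (cn := .up) (n1 := ndN1q0) (n2 := ndN2q2a) (pc := pcN3) (cut := Cut.none) (xt := Ext.none) (P1 := 0) (W1 := 536870912) (P2 := 0) (W2 := 536870912) (P3 := 67108864) (W3 := 67108864) (N0 := 3)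
    rfl rfl rfl (fun _ => rfl) k0_pp_023_a

noncomputable def f_pp_023_b : ℕ → ℕ → ℕ → ℕ → Bool := onCell 1610612736 536870912 1239849684 370763052 67108864 67108864
    (rowNK 3 2 true true true .up 0 2 3 (qsf 0 536870912 1239849684 370763052 3) ndN1q0 ndN2q2b pcN3 Cut.none Ext.none)

def k0_pp_023_b : ∃ t, chk3 f_pp_023_b t 1 1 1 = true :=
  ⟨(l 4), by decide +kernel⟩

theorem c_pp_023_b : CertN 0 536870912 1239849684 370763052 67108864 67108864 3 true true true .up 0 2 3
    ndN1q0 ndN2q2b pcN3 Cut.none Ext.none :=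
  certNK2 (fam := true) (s1 := true) (s2 := true) (a := 0) (b := 2) (c := 3) (cn := .up) (n1 := ndN1q0) (n2 := ndN2q2b) (pc := pcN3) (cut := Cut.none) (xt := Ext.none) (P1 := 0) (W1 := 536870912) (P2 := 1239849684) (W2 := 370763052) (P3 := 67108864) (W3 := 67108864) (N0 := 3)
    rfl rfl rfl (fun _ => rfl) k0_pp_023_b

noncomputable def f_pp_033 : ℕ → ℕ → ℕ → ℕ → Bool := onCell 0 536870912 1610612736 536870912 67108864 67108864
    (rowNK 3 0 true true true .pnn 0 3 3 (qsf 0 536870912 1610612736 536870912 3) ndN1q0 ndN2q3 pcN3 Cut.none Ext.none)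

def k0_pp_033 : ∃ t, chk3 f_pp_033 t 1 1 1 = true :=
  ⟨(l 4), by decide +kernel⟩

theorem c_pp_033 : CertN 0 536870912 1610612736 536870912 67108864 67108864 3 true true true .pnn 0 3 3
    ndN1q0 ndN2q3 pcN3 Cut.none Ext.none :=
  certNK0 (fam := true) (s1 := true) (s2 := true) (a := 0) (b := 3) (c := 3) (cn := .pnn) (n1 := ndN1q0) (n2 := ndN2q3) (pc := pcN3) (cut := Cut.none) (xt := Ext.none) (P1 := 0) (W1 := 536870912) (P2 := 1610612736) (W2 := 536870912) (P3 := 67108864) (W3 := 67108864) (N0 := 3)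
    rfl rfl rfl k0_pp_033

noncomputable def f_pp_101 : ℕ → ℕ → ℕ → ℕ → Bool := onCell 536870912 536870912 0 536870912 67108864 67108864
    (rowNK 3 0 true true true .npn 1 0 1 (qsf 536870912 536870912 0 536870912 1) ndN1q1 ndN2q0 pcN1 Cut.none Ext.none)

def k0_pp_101 : ∃ t, chk3 f_pp_101 t 1 1 1 = true :=
  ⟨(l 4), by decide +kernel⟩

theorem c_pp_101 : CertN 536870912 536870912 0 536870912 67108864 67108864 3 true true true .npn 1 0 1
    ndN1q1 ndN2q0 pcN1 Cut.none Ext.none :=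
  certNK0 (fam := true) (s1 := true) (s2 := true) (a := 1) (b := 0) (c := 1) (cn := .npn) (n1 := ndN1q1) (n2 := ndN2q0) (pc := pcN1) (cut := Cut.none) (xt := Ext.none) (P1 := 536870912) (W1 := 536870912) (P2 := 0) (W2 := 536870912) (P3 := 67108864) (W3 := 67108864) (N0 := 3)
    rfl rfl rfl k0_pp_101

noncomputable def f_pp_102 : ℕ → ℕ → ℕ → ℕ → Bool := onCell 536870912 536870912 0 536870912 67108864 67108864
    (rowNK 3 0 true true true .npp 1 0 2 (qsf 536870912 536870912 0 536870912 2) ndN1q1 ndN2q0 pcN2 Cut.none Ext.none)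

def k0_pp_102 : ∃ t, chk3 f_pp_102 t 1 1 1 = true :=
  ⟨(l 4), by decide +kernel⟩

theorem c_pp_102 : CertN 536870912 536870912 0 536870912 67108864 67108864 3 true true true .npp 1 0 2
    ndN1q1 ndN2q0 pcN2 Cut.none Ext.none :=
  certNK0 (fam := true) (s1 := true) (s2 := true) (a := 1) (b := 0) (c := 2) (cn := .npp) (n1 := ndN1q1) (n2 := ndN2q0) (pc := pcN2) (cut := Cut.none) (xt := Ext.none) (P1 := 536870912) (W1 := 536870912) (P2 := 0) (W2 := 536870912) (P3 := 67108864) (W3 := 67108864) (N0 := 3)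
    rfl rfl rfl k0_pp_102

noncomputable def f_pp_112 : ℕ → ℕ → ℕ → ℕ → Bool := onCell 536870912 536870912 536870912 536870912 67108864 67108864
    (rowNK 3 0 true true true .dn 1 1 2 (qsf 536870912 536870912 536870912 536870912 2) ndN1q1 ndN2q1 pcN2 Cut.none Ext.none)

def k0_pp_112 : ∃ t, chk3 f_pp_112 t 1 1 1 = true :=
  ⟨(l 4), by decide +kernel⟩

theorem c_pp_112 : CertN 536870912 536870912 536870912 536870912 67108864 67108864 3 true true true .dn 1 1 2
    ndN1q1 ndN2q1 pcN2 Cut.none Ext.none :=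
  certNK0 (fam := true) (s1 := true) (s2 := true) (a := 1) (b := 1) (c := 2) (cn := .dn) (n1 := ndN1q1) (n2 := ndN2q1) (pc := pcN2) (cut := Cut.none) (xt := Ext.none) (P1 := 536870912) (W1 := 536870912) (P2 := 536870912) (W2 := 536870912) (P3 := 67108864) (W3 := 67108864) (N0 := 3)
    rfl rfl rfl k0_pp_112

noncomputable def f_pp_113 : ℕ → ℕ → ℕ → ℕ → Bool := onCell 536870912 536870912 536870912 536870912 67108864 67108864
    (rowNK 3 0 true true true .nn 1 1 3 (qsf 536870912 536870912 536870912 536870912 3) ndN1q1 ndN2q1 pcN3 Cut.none Ext.none)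

def k0_pp_113 : ∃ t, chk3 f_pp_113 t 1 1 1 = true :=
  ⟨(l 4), by decide +kernel⟩

theorem c_pp_113 : CertN 536870912 536870912 536870912 536870912 67108864 67108864 3 true true true .nn 1 1 3
    ndN1q1 ndN2q1 pcN3 Cut.none Ext.none :=
  certNK0 (fam := true) (s1 := true) (s2 := true) (a := 1) (b := 1) (c := 3) (cn := .nn) (n1 := ndN1q1) (n2 := ndN2q1) (pc := pcN3) (cut := Cut.none) (xt := Ext.none) (P1 := 536870912) (W1 := 536870912) (P2 := 536870912) (W2 := 536870912) (P3 := 67108864) (W3 := 67108864) (N0 := 3)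
    rfl rfl rfl k0_pp_113

noncomputable def f_pp_123_a : ℕ → ℕ → ℕ → ℕ → Bool := onCell 536870912 536870912 0 536870912 67108864 67108864
    (rowNK 3 0 true true true .npn 1 2 3 (qsf 536870912 536870912 0 536870912 3) ndN1q1 ndN2q2a pcN3 Cut.none Ext.none)

def k0_pp_123_a : ∃ t, chk3 f_pp_123_a t 1 1 1 = true :=
  ⟨(l 4), by decide +kernel⟩

theorem c_pp_123_a : CertN 536870912 536870912 0 536870912 67108864 67108864 3 true true true .npn 1 2 3
    ndN1q1 ndN2q2a pcN3 Cut.none Ext.none :=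
  certNK0 (fam := true) (s1 := true) (s2 := true) (a := 1) (b := 2) (c := 3) (cn := .npn) (n1 := ndN1q1) (n2 := ndN2q2a) (pc := pcN3) (cut := Cut.none) (xt := Ext.none) (P1 := 536870912) (W1 := 536870912) (P2 := 0) (W2 := 536870912) (P3 := 67108864) (W3 := 67108864) (N0 := 3)
    rfl rfl rfl k0_pp_123_a

noncomputable def f_pp_123_b : ℕ → ℕ → ℕ → ℕ → Bool := onCell 536870912 536870912 1239849684 370763052 67108864 67108864
    (rowNK 3 0 true true true .npn 1 2 3 (qsf 536870912 536870912 1239849684 370763052 3) ndN1q1 ndN2q2b pcN3 Cut.none Ext.none)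

def k0_pp_123_b : ∃ t, chk3 f_pp_123_b t 1 1 1 = true :=
  ⟨(l 4), by decide +kernel⟩

theorem c_pp_123_b : CertN 536870912 536870912 1239849684 370763052 67108864 67108864 3 true true true .npn 1 2 3
    ndN1q1 ndN2q2b pcN3 Cut.none Ext.none :=
  certNK0 (fam := true) (s1 := true) (s2 := true) (a := 1) (b := 2) (c := 3) (cn := .npn) (n1 := ndN1q1) (n2 := ndN2q2b) (pc := pcN3) (cut := Cut.none) (xt := Ext.none) (P1 := 536870912) (W1 := 536870912) (P2 := 1239849684) (W2 := 370763052) (P3 := 67108864) (W3 := 67108864) (N0 := 3)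
    rfl rfl rfl k0_pp_123_b

noncomputable def f_pp_133 : ℕ → ℕ → ℕ → ℕ → Bool := onCell 536870912 536870912 1610612736 536870912 67108864 67108864
    (rowNK 3 0 true true true .dn 1 3 3 (qsf 536870912 536870912 1610612736 536870912 3) ndN1q1 ndN2q3 pcN3 Cut.none Ext.none)

def k0_pp_133 : ∃ t, chk3 f_pp_133 t 1 1 1 = true :=
  ⟨(l 4), by decide +kernel⟩

theorem c_pp_133 : CertN 536870912 536870912 1610612736 536870912 67108864 67108864 3 true true true .dn 1 3 3
    ndN1q1 ndN2q3 pcN3 Cut.none Ext.none :=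
  certNK0 (fam := true) (s1 := true) (s2 := true) (a := 1) (b := 3) (c := 3) (cn := .dn) (n1 := ndN1q1) (n2 := ndN2q3) (pc := pcN3) (cut := Cut.none) (xt := Ext.none) (P1 := 536870912) (W1 := 536870912) (P2 := 1610612736) (W2 := 536870912) (P3 := 67108864) (W3 := 67108864) (N0 := 3)
    rfl rfl rfl k0_pp_133

noncomputable def f_pp_202_a : ℕ → ℕ → ℕ → ℕ → Bool := onCell 0 536870912 0 536870912 67108864 67108864
    (rowNK 3 0 true true true .pp 2 0 2 (qsf 0 536870912 0 536870912 2) ndN1q2a ndN2q0 pcN2 Cut.none Ext.none)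

def k0_pp_202_a : ∃ t, chk3 f_pp_202_a t 1 1 1 = true :=
  ⟨(l 5), by decide +kernel⟩

theorem c_pp_202_a : CertN 0 536870912 0 536870912 67108864 67108864 3 true true true .pp 2 0 2
    ndN1q2a ndN2q0 pcN2 Cut.none Ext.none :=
  certNK0 (fam := true) (s1 := true) (s2 := true) (a := 2) (b := 0) (c := 2) (cn := .pp) (n1 := ndN1q2a) (n2 := ndN2q0) (pc := pcN2) (cut := Cut.none) (xt := Ext.none) (P1 := 0) (W1 := 536870912) (P2 := 0) (W2 := 536870912) (P3 := 67108864) (W3 := 67108864) (N0 := 3)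
    rfl rfl rfl k0_pp_202_a

noncomputable def f_pp_202_b : ℕ → ℕ → ℕ → ℕ → Bool := onCell 1239849684 370763052 0 536870912 67108864 67108864
    (rowNK 3 0 true true true .pp 2 0 2 (qsf 1239849684 370763052 0 536870912 2) ndN1q2b ndN2q0 pcN2 Cut.none Ext.none)

def k0_pp_202_b : ∃ t, chk3 f_pp_202_b t 1 1 1 = true :=
  ⟨(l 5), by decide +kernel⟩

theorem c_pp_202_b : CertN 1239849684 370763052 0 536870912 67108864 67108864 3 true true true .pp 2 0 2
    ndN1q2b ndN2q0 pcN2 Cut.none Ext.none :=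
  certNK0 (fam := true) (s1 := true) (s2 := true) (a := 2) (b := 0) (c := 2) (cn := .pp) (n1 := ndN1q2b) (n2 := ndN2q0) (pc := pcN2) (cut := Cut.none) (xt := Ext.none) (P1 := 1239849684) (W1 := 370763052) (P2 := 0) (W2 := 536870912) (P3 := 67108864) (W3 := 67108864) (N0 := 3)
    rfl rfl rfl k0_pp_202_b

noncomputable def f_pp_203_a : ℕ → ℕ → ℕ → ℕ → Bool := onCell 0 536870912 0 536870912 67108864 67108864
    (rowNK 3 0 true true true .up 2 0 3 (qsf 0 536870912 0 536870912 3) ndN1q2a ndN2q0 pcN3 Cut.none Ext.none)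

def k0_pp_203_a : ∃ t, chk3 f_pp_203_a t 1 1 1 = true :=
  ⟨(l 5), by decide +kernel⟩

theorem c_pp_203_a : CertN 0 536870912 0 536870912 67108864 67108864 3 true true true .up 2 0 3
    ndN1q2a ndN2q0 pcN3 Cut.none Ext.none :=
  certNK0 (fam := true) (s1 := true) (s2 := true) (a := 2) (b := 0) (c := 3) (cn := .up) (n1 := ndN1q2a) (n2 := ndN2q0) (pc := pcN3) (cut := Cut.none) (xt := Ext.none) (P1 := 0) (W1 := 536870912) (P2 := 0) (W2 := 536870912) (P3 := 67108864) (W3 := 67108864) (N0 := 3)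
    rfl rfl rfl k0_pp_203_a

noncomputable def f_pp_203_b : ℕ → ℕ → ℕ → ℕ → Bool := onCell 1239849684 370763052 0 536870912 67108864 67108864
    (rowNK 3 0 true true true .up 2 0 3 (qsf 1239849684 370763052 0 536870912 3) ndN1q2b ndN2q0 pcN3 Cut.none Ext.none)

def k0_pp_203_b : ∃ t, chk3 f_pp_203_b t 1 1 1 = true :=
  ⟨(l 5), by decide +kernel⟩

theorem c_pp_203_b : CertN 1239849684 370763052 0 536870912 67108864 67108864 3 true true true .up 2 0 3
    ndN1q2b ndN2q0 pcN3 Cut.none Ext.none :=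
  certNK0 (fam := true) (s1 := true) (s2 := true) (a := 2) (b := 0) (c := 3) (cn := .up) (n1 := ndN1q2b) (n2 := ndN2q0) (pc := pcN3) (cut := Cut.none) (xt := Ext.none) (P1 := 1239849684) (W1 := 370763052) (P2 := 0) (W2 := 536870912) (P3 := 67108864) (W3 := 67108864) (N0 := 3)
    rfl rfl rfl k0_pp_203_b

noncomputable def f_pp_213_a : ℕ → ℕ → ℕ → ℕ → Bool := onCell 0 536870912 536870912 536870912 67108864 67108864
    (rowNK 3 0 true true true .pnn 2 1 3 (qsf 0 536870912 536870912 536870912 3) ndN1q2a ndN2q1 pcN3 Cut.none Ext.none)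

def k0_pp_213_a : ∃ t, chk3 f_pp_213_a t 1 1 1 = true :=
  ⟨(l 4), by decide +kernel⟩

theorem c_pp_213_a : CertN 0 536870912 536870912 536870912 67108864 67108864 3 true true true .pnn 2 1 3
    ndN1q2a ndN2q1 pcN3 Cut.none Ext.none :=
  certNK0 (fam := true) (s1 := true) (s2 := true) (a := 2) (b := 1) (c := 3) (cn := .pnn) (n1 := ndN1q2a) (n2 := ndN2q1) (pc := pcN3) (cut := Cut.none) (xt := Ext.none) (P1 := 0) (W1 := 536870912) (P2 := 536870912) (W2 := 536870912) (P3 := 67108864) (W3 := 67108864) (N0 := 3)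
    rfl rfl rfl k0_pp_213_a

noncomputable def f_pp_213_b : ℕ → ℕ → ℕ → ℕ → Bool := onCell 1239849684 370763052 536870912 536870912 67108864 67108864
    (rowNK 3 0 true true true .pnn 2 1 3 (qsf 1239849684 370763052 536870912 536870912 3) ndN1q2b ndN2q1 pcN3 Cut.none Ext.none)

def k0_pp_213_b : ∃ t, chk3 f_pp_213_b t 1 1 1 = true :=
  ⟨(l 4), by decide +kernel⟩

theorem c_pp_213_b : CertN 1239849684 370763052 536870912 536870912 67108864 67108864 3 true true true .pnn 2 1 3
    ndN1q2b ndN2q1 pcN3 Cut.none Ext.none :=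
  certNK0 (fam := true) (s1 := true) (s2 := true) (a := 2) (b := 1) (c := 3) (cn := .pnn) (n1 := ndN1q2b) (n2 := ndN2q1) (pc := pcN3) (cut := Cut.none) (xt := Ext.none) (P1 := 1239849684) (W1 := 370763052) (P2 := 536870912) (W2 := 536870912) (P3 := 67108864) (W3 := 67108864) (N0 := 3)
    rfl rfl rfl k0_pp_213_b

noncomputable def f_pp_303 : ℕ → ℕ → ℕ → ℕ → Bool := onCell 1610612736 536870912 0 536870912 67108864 67108864
    (rowNK 3 0 true true true .npn 3 0 3 (qsf 1610612736 536870912 0 536870912 3) ndN1q3 ndN2q0 pcN3 Cut.none Ext.none)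

def k0_pp_303 : ∃ t, chk3 f_pp_303 t 1 1 1 = true :=
  ⟨(l 5), by decide +kernel⟩

theorem c_pp_303 : CertN 1610612736 536870912 0 536870912 67108864 67108864 3 true true true .npn 3 0 3
    ndN1q3 ndN2q0 pcN3 Cut.none Ext.none :=
  certNK0 (fam := true) (s1 := true) (s2 := true) (a := 3) (b := 0) (c := 3) (cn := .npn) (n1 := ndN1q3) (n2 := ndN2q0) (pc := pcN3) (cut := Cut.none) (xt := Ext.none) (P1 := 1610612736) (W1 := 536870912) (P2 := 0) (W2 := 536870912) (P3 := 67108864) (W3 := 67108864) (N0 := 3)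
    rfl rfl rfl k0_pp_303

noncomputable def f_pp_313 : ℕ → ℕ → ℕ → ℕ → Bool := onCell 1610612736 536870912 536870912 536870912 67108864 67108864
    (rowNK 3 0 true true true .dn 3 1 3 (qsf 1610612736 536870912 536870912 536870912 3) ndN1q3 ndN2q1 pcN3 Cut.none Ext.none)

def k0_pp_313 : ∃ t, chk3 f_pp_313 t 1 1 1 = true :=
  ⟨(l 4), by decide +kernel⟩

theorem c_pp_313 : CertN 1610612736 536870912 536870912 536870912 67108864 67108864 3 true true true .dn 3 1 3
    ndN1q3 ndN2q1 pcN3 Cut.none Ext.none :=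
  certNK0 (fam := true) (s1 := true) (s2 := true) (a := 3) (b := 1) (c := 3) (cn := .dn) (n1 := ndN1q3) (n2 := ndN2q1) (pc := pcN3) (cut := Cut.none) (xt := Ext.none) (P1 := 1610612736) (W1 := 536870912) (P2 := 536870912) (W2 := 536870912) (P3 := 67108864) (W3 := 67108864) (N0 := 3)
    rfl rfl rfl k0_pp_313

noncomputable def f_pm_001 : ℕ → ℕ → ℕ → ℕ → Bool := onCell 0 536870912 0 536870912 67108864 67108864
    (rowNK 3 0 true true false .up 0 0 1 (qsf 0 536870912 0 536870912 1) ndN1q0 ndN2q0 pcN1 Cut.none Ext.none)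

def k0_pm_001 : ∃ t, chk3 f_pm_001 t 1 1 1 = true :=
  ⟨(a (l 3) (l 3)), by decide +kernel⟩

theorem c_pm_001 : CertN 0 536870912 0 536870912 67108864 67108864 3 true true false .up 0 0 1
    ndN1q0 ndN2q0 pcN1 Cut.none Ext.none :=
  certNK0 (fam := true) (s1 := true) (s2 := false) (a := 0) (b := 0) (c := 1) (cn := .up) (n1 := ndN1q0) (n2 := ndN2q0) (pc := pcN1) (cut := Cut.none) (xt := Ext.none) (P1 := 0) (W1 := 536870912) (P2 := 0) (W2 := 536870912) (P3 := 67108864) (W3 := 67108864) (N0 := 3)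
    rfl rfl rfl k0_pm_001

noncomputable def cut_pm_011 : Cut := Cut.of [[⟨0, 0, 0, 67108864⟩, ⟨1, 1, 0, 67108864⟩, ⟨2, 1, 0, 67108864⟩]]

noncomputable def f_pm_011 : ℕ → ℕ → ℕ → ℕ → Bool := onCell 0 536870912 536870912 536870912 67108864 67108864
    (rowNK 3 1 true true false .pnn 0 1 1 (qsf 0 536870912 536870912 536870912 1) ndN1q0 ndN2q1 pcN1 cut_pm_011 Ext.none)

def k0_pm_011 : ∃ t, chk3 f_pm_011 t 1 1 1 = true :=
  ⟨(a (b (l 3) (a (b (l 3) (a (b (l 3) (a (a (b (l 3) (l 6)) (l 3)) (l 3))) (l 3))) (l 3))) (l 3)), by decide +kernel⟩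

theorem c_pm_011 : CertN 0 536870912 536870912 536870912 67108864 67108864 3 true true false .pnn 0 1 1
    ndN1q0 ndN2q1 pcN1 cut_pm_011 Ext.none :=
  certNK1 (fam := true) (s1 := true) (s2 := false) (a := 0) (b := 1) (c := 1) (cn := .pnn) (n1 := ndN1q0) (n2 := ndN2q1) (pc := pcN1) (cut := cut_pm_011) (xt := Ext.none) (P1 := 0) (W1 := 536870912) (P2 := 536870912) (W2 := 536870912) (P3 := 67108864) (W3 := 67108864) (N0 := 3)
    rfl rfl rfl (fun _ => rfl) k0_pm_011

noncomputable def cut_pm_012 : Cut := Cut.of [[⟨0, 0, 0, 67108864⟩, ⟨1, 1, 0, 67108864⟩, ⟨2, 1, 0, 67108864⟩]]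

noncomputable def f_pm_012 : ℕ → ℕ → ℕ → ℕ → Bool := onCell 1073741824 536870912 536870912 536870912 67108864 67108864
    (rowNK 3 2 true true false .pnp 0 1 2 (qsf 0 536870912 536870912 536870912 2) ndN1q0 ndN2q1 pcN2 cut_pm_012 Ext.none)

def k0_pm_012 : ∃ t, chk3 f_pm_012 t 1 1 1 = true :=
  ⟨(a (b (a (b (l 299744189815) (a (l 3) (l 349671658695))) (b (a (l 17726288) (l 2)) (a (a (a (l 17062536) (l 17226192)) (l 17010464)) (l 16960424)))) (a (b (a (l 3) (b (l 17786984) (a (l 18205512) (l 18436400)))) (a (b (a (l 3) (b (l 17755416) (l 17411056))) (b (a (b (l 3) (a (l 3) (l 16989568))) (b (l 17024808) (l 17042064))) (a (a (l 6) (b (l 240686058439) (l 6))) (b (l 16915768) (b (l 16882064) (l 16858952)))))) (b (a (b (l 18266080) (l 18117088)) (l 18655704)) (b (a (b (l 17875120) (l 17611976)) (b (l 18504888) (l 18410536))) (a (b (l 17168440) (l 16947152)) (a (l 17864992) (l 18327512))))))) (b (a (a (a (a (l 18207224) (l 18230904)) (b (l 17901472) (l 18622464)))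 (l 18309536)) (l 18364192)) (b (a (a (a (l 18875528) (a (l 18959512) (b (l 18925248) (l 18990424)))) (l 19100728)) (l 19235432)) (b (a (a (a (l 18841272) (l 19012472)) (l 19196920)) (l 19396072)) (a (a (a (l 18673688) (l 18936824)) (l 19211704)) (l 19491768))))))) (b (b (l 2) (a (l 16928768) (l 2))) (b (b (l 17831376) (l 18655680)) (b (a (l 19253800) (l 19053080)) (b (l 19567168) (l 19447112)))))), by decide +kernel⟩

theorem c_pm_012 : CertN 0 536870912 536870912 536870912 67108864 67108864 3 true true false .pnp 0 1 2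
    ndN1q0 ndN2q1 pcN2 cut_pm_012 Ext.none :=
  certNK2 (fam := true) (s1 := true) (s2 := false) (a := 0) (b := 1) (c := 2) (cn := .pnp) (n1 := ndN1q0) (n2 := ndN2q1) (pc := pcN2) (cut := cut_pm_012) (xt := Ext.none) (P1 := 0) (W1 := 536870912) (P2 := 536870912) (W2 := 536870912) (P3 := 67108864) (W3 := 67108864) (N0 := 3)
    rfl rfl rfl (fun _ => rfl) k0_pm_012

noncomputable def cut_pm_022_a : Cut := Cut.of [[⟨0, 0, 0, 67108864⟩, ⟨1, 1, 0, 67108864⟩, ⟨2, 1, 0, 67108864⟩]]

noncomputable def f_pm_022_a : ℕ → ℕ → ℕ → ℕ → Bool := onCell 0 536870912 0 536870912 67108864 67108864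
    (rowNK 3 0 true true false .pp 0 2 2 (qsf 0 536870912 0 536870912 2) ndN1q0 ndN2q2a pcN2 cut_pm_022_a Ext.none)

def k0_pm_022_a : ∃ t, chk3 f_pm_022_a t 2 1 1 = true :=
  ⟨(b (a (a (a (b (a (c (l 18527224) (l 17775680)) (l 18210872)) (a (b (c (l 18403008) (a (b (l 17575720) (l 17453000)) (l 17617504))) (c (a (l 18030152) (l 18233328)) (a (a (b (l 17262856) (l 16969448)) (l 17006168)) (l 17340904)))) (b (l 18089352) (l 17903168)))) (b (l 18242056) (l 18100720))) (b (l 18202424) (l 18138136))) (l 17973688)) (a (b (a (a (b (a (a (c (b (l 17774472) (b (l 17571664) (c (l 17897952) (l 17176056)))) (b (l 16596840) (a (l 16614656) (l 16586464)))) (b (l 17517648) (l 17214440))) (b (l 17682960) (l 17476408))) (a (b (a (a (b (l 16683208) (l 16626072)) (l 16702528)) (l 16897256)) (a (a (a (b (l 16641032) (l 16652984)) (l 16677440)) (a (l 16675728) (l 16652840))) (l 16708344))) (b (l 17200424) (l 16821688)))) (b (l 17825896) (a (l 17161232) (l 17567128)))) (b (l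 18001736) (a (l 17760832) (l 17878936)))) (a (b (a (b (a (a (b (a (a (l 16671464) (l 16656664)) (l 16659680)) (a (b (a (l 16674056) (l 16667136)) (a (l 6) (l 16676568))) (l 16698192))) (a (l 16749648) (l 16747808))) (a (l 16765800) (l 16752376))) (a (b (a (a (l 6) (l 16736152)) (l 16752928)) (a (l 6) (a (l 6) (l 16760064)))) (b (l 16787904) (l 16866136)))) (b (l 16967280) (a (l 16924896) (l 16878984)))) (a (a (l 6) (b (a (l 6) (l 16952576)) (l 6))) (b (a (l 16978040) (l 16879456)) (a (b (a (l 6) (l 16875600)) (l 6)) (b (l 16913064) (l 16955576)))))) (b (a (b (l 17537936) (l 17338304)) (b (l 17745552) (l 17630448))) (a (b (l 17097320) (a (l 16973920) (l 17042712))) (b (l 17508528) (l 17374472)))))) (b (a (l 17929296) (l 17835328)) (b (a (l 17998688) (l 17770840)) (a (b (l 17713208) (l 17632880)) (l 17716656)))))), by decide +kernel⟩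

def k1_pm_022_a : ∃ t, chk3 f_pm_022_a t 3 1 1 = true :=
  ⟨(b (a (l 17618320) (l 17282224)) (b (a (l 17612040) (l 17322136)) (b (a (l 17598056) (l 17387768)) (a (l 17589912) (l 17449728))))), by decide +kernel⟩

theorem s2_pm_022_a : ∃ t, chk3 f_pm_022_a t 1 1 1 = true := ex3_a k0_pm_022_a k1_pm_022_a

theorem c_pm_022_a : CertN 0 536870912 0 536870912 67108864 67108864 3 true true false .pp 0 2 2
    ndN1q0 ndN2q2a pcN2 cut_pm_022_a Ext.none :=
  certNK0 (fam := true) (s1 := true) (s2 := false) (a := 0) (b := 2) (c := 2) (cn := .pp) (n1 := ndN1q0) (n2 := ndN2q2a) (pc := pcN2) (cut := cut_pm_022_a) (xt := Ext.none) (P1 := 0) (W1 := 536870912) (P2 := 0) (W2 := 536870912) (P3 := 67108864) (W3 := 67108864) (N0 := 3)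
    rfl rfl rfl s2_pm_022_a

noncomputable def cut_pm_022_b : Cut := Cut.of [[⟨0, 0, 0, 67108864⟩, ⟨1, 1, 0, 67108864⟩, ⟨2, 1, 0, 67108864⟩]]

noncomputable def f_pm_022_b : ℕ → ℕ → ℕ → ℕ → Bool := onCell 0 536870912 1239849684 370763052 67108864 67108864
    (rowNK 3 0 true true false .pp 0 2 2 (qsf 0 536870912 1239849684 370763052 2) ndN1q0 ndN2q2b pcN2 cut_pm_022_b Ext.none)

def k0_pm_022_b : ∃ t, chk3 f_pm_022_b t 1 1 1 = true :=
  ⟨(a (b (a (a (b (a (b (a (b (l 18318576) (l 18494632)) (l 18407608)) (l 18608728)) (l 18438432)) (l 18574808)) (b (l 18269936) (l 18249464))) (b (l 17918544) (l 17795136))) (a (a (l 18444704) (l 18266784)) (b (l 17659560) (l 2)))) (b (a (b (l 17481816) (l 17265856)) (l 2)) (l 2))), by decide +kernel⟩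

theorem c_pm_022_b : CertN 0 536870912 1239849684 370763052 67108864 67108864 3 true true false .pp 0 2 2
    ndN1q0 ndN2q2b pcN2 cut_pm_022_b Ext.none :=
  certNK0 (fam := true) (s1 := true) (s2 := false) (a := 0) (b := 2) (c := 2) (cn := .pp) (n1 := ndN1q0) (n2 := ndN2q2b) (pc := pcN2) (cut := cut_pm_022_b) (xt := Ext.none) (P1 := 0) (W1 := 536870912) (P2 := 1239849684) (W2 := 370763052) (P3 := 67108864) (W3 := 67108864) (N0 := 3)
    rfl rfl rfl k0_pm_022_b

noncomputable def f_pm_023_a : ℕ → ℕ → ℕ → ℕ → Bool := onCell 1610612736 536870912 0 536870912 67108864 67108864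
    (rowNK 3 2 true true false .up 0 2 3 (qsf 0 536870912 0 536870912 3) ndN1q0 ndN2q2a pcN3 Cut.none Ext.none)

def k0_pm_023_a : ∃ t, chk3 f_pm_023_a t 1 1 1 = true :=
  ⟨(a (b (a (a (l 17929456) (l 17691616)) (l 17364264)) (a (b (l 17899728) (b (l 17945664) (l 18066928))) (b (l 2) (l 2)))) (l 2)), by decide +kernel⟩

theorem c_pm_023_a : CertN 0 536870912 0 536870912 67108864 67108864 3 true true false .up 0 2 3
    ndN1q0 ndN2q2a pcN3 Cut.none Ext.none :=
  certNK2 (fam := true) (s1 := true) (s2 := false) (a := 0) (b := 2) (c := 3) (cn := .up) (n1 := ndN1q0) (n2 := ndN2q2a) (pc := pcN3) (cut := Cut.none) (xt := Ext.none) (P1 := 0) (W1 := 536870912) (P2 := 0) (W2 := 536870912) (P3 := 67108864) (W3 := 67108864) (N0 := 3)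
    rfl rfl rfl (fun _ => rfl) k0_pm_023_a

noncomputable def f_pm_023_b : ℕ → ℕ → ℕ → ℕ → Bool := onCell 1610612736 536870912 1239849684 370763052 67108864 67108864
    (rowNK 3 2 true true false .up 0 2 3 (qsf 0 536870912 1239849684 370763052 3) ndN1q0 ndN2q2b pcN3 Cut.none Ext.none)

def k0_pm_023_b : ∃ t, chk3 f_pm_023_b t 1 1 1 = true :=
  ⟨(a (a (b (a (l 17771736) (l 17541080)) (a (b (l 17934344) (l 17836032)) (l 17859080))) (b (l 17232352) (l 17303496))) (a (b (a (l 16854512) (l 16812600)) (l 17333080)) (l 4))), by decide +kernel⟩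

theorem c_pm_023_b : CertN 0 536870912 1239849684 370763052 67108864 67108864 3 true true false .up 0 2 3
    ndN1q0 ndN2q2b pcN3 Cut.none Ext.none :=
  certNK2 (fam := true) (s1 := true) (s2 := false) (a := 0) (b := 2) (c := 3) (cn := .up) (n1 := ndN1q0) (n2 := ndN2q2b) (pc := pcN3) (cut := Cut.none) (xt := Ext.none) (P1 := 0) (W1 := 536870912) (P2 := 1239849684) (W2 := 370763052) (P3 := 67108864) (W3 := 67108864) (N0 := 3)
    rfl rfl rfl (fun _ => rfl) k0_pm_023_b

noncomputable def f_pm_033 : ℕ → ℕ → ℕ → ℕ → Bool := onCell 0 536870912 1610612736 536870912 67108864 67108864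
    (rowNK 3 1 true true false .pnn 0 3 3 (qsf 0 536870912 1610612736 536870912 3) ndN1q0 ndN2q3 pcN3 Cut.none Ext.none)

def k0_pm_033 : ∃ t, chk3 f_pm_033 t 1 1 1 = true :=
  ⟨(b (a (b (a (b (a (l 19139008) (l 19022696)) (l 18851232)) (l 334508839463)) (a (b (l 18866568) (l 18864776)) (l 18880584))) (b (l 1) (a (l 18670144) (l 1)))) (b (a (a (b (l 18760616) (l 4)) (l 18709408)) (b (l 18497680) (l 18409888))) (l 4))), by decide +kernel⟩

theorem c_pm_033 : CertN 0 536870912 1610612736 536870912 67108864 67108864 3 true true false .pnn 0 3 3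
    ndN1q0 ndN2q3 pcN3 Cut.none Ext.none :=
  certNK1 (fam := true) (s1 := true) (s2 := false) (a := 0) (b := 3) (c := 3) (cn := .pnn) (n1 := ndN1q0) (n2 := ndN2q3) (pc := pcN3) (cut := Cut.none) (xt := Ext.none) (P1 := 0) (W1 := 536870912) (P2 := 1610612736) (W2 := 536870912) (P3 := 67108864) (W3 := 67108864) (N0 := 3)
    rfl rfl rfl (fun _ => rfl) k0_pm_033

noncomputable def f_pm_101 : ℕ → ℕ → ℕ → ℕ → Bool := onCell 536870912 536870912 0 536870912 67108864 67108864
    (rowNK 3 2 true true false .npn 1 0 1 (qsf 536870912 536870912 0 536870912 1) ndN1q1 ndN2q0 pcN1 Cut.none Ext.none)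

def k0_pm_101 : ∃ t, chk3 f_pm_101 t 1 1 1 = true :=
  ⟨(a (l 3) (l 3)), by decide +kernel⟩

theorem c_pm_101 : CertN 536870912 536870912 0 536870912 67108864 67108864 3 true true false .npn 1 0 1
    ndN1q1 ndN2q0 pcN1 Cut.none Ext.none :=
  certNK2 (fam := true) (s1 := true) (s2 := false) (a := 1) (b := 0) (c := 1) (cn := .npn) (n1 := ndN1q1) (n2 := ndN2q0) (pc := pcN1) (cut := Cut.none) (xt := Ext.none) (P1 := 536870912) (W1 := 536870912) (P2 := 0) (W2 := 536870912) (P3 := 67108864) (W3 := 67108864) (N0 := 3)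
    rfl rfl rfl (fun _ => rfl) k0_pm_101

noncomputable def f_pm_102 : ℕ → ℕ → ℕ → ℕ → Bool := onCell 536870912 536870912 1073741824 536870912 67108864 67108864
    (rowNK 3 1 true true false .npp 1 0 2 (qsf 536870912 536870912 0 536870912 2) ndN1q1 ndN2q0 pcN2 Cut.none Ext.none)

def k0_pm_102 : ∃ t, chk3 f_pm_102 t 1 1 1 = true :=
  ⟨(a (b (b (b (l 3) (a (l 17907456) (l 3))) (b (b (b (l 18019840) (l 24799671623)) (l 18180936)) (l 18333992))) (b (l 18469168) (l 2))) (b (b (l 3) (a (b (b (b (l 17705264) (l 17889496)) (l 17910912)) (l 18130488)) (b (b (b (l 3) (b (l 17800872) (l 277195512007))) (l 17875560)) (l 17973224)))) (b (a (l 18431384) (l 18286520)) (l 18627616)))), by decide +kernel⟩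

theorem c_pm_102 : CertN 536870912 536870912 0 536870912 67108864 67108864 3 true true false .npp 1 0 2
    ndN1q1 ndN2q0 pcN2 Cut.none Ext.none :=
  certNK1 (fam := true) (s1 := true) (s2 := false) (a := 1) (b := 0) (c := 2) (cn := .npp) (n1 := ndN1q1) (n2 := ndN2q0) (pc := pcN2) (cut := Cut.none) (xt := Ext.none) (P1 := 536870912) (W1 := 536870912) (P2 := 0) (W2 := 536870912) (P3 := 67108864) (W3 := 67108864) (N0 := 3)
    rfl rfl rfl (fun _ => rfl) k0_pm_102

noncomputable def f_pm_112 : ℕ → ℕ → ℕ → ℕ → Bool := onCell 1073741824 536870912 536870912 536870912 67108864 67108864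
    (rowNK 3 2 true true false .dn 1 1 2 (qsf 536870912 536870912 536870912 536870912 2) ndN1q1 ndN2q1 pcN2 Cut.none Ext.none)

def k0_pm_112 : ∃ t, chk3 f_pm_112 t 1 1 1 = true :=
  ⟨(a (b (a (b (l 282029840359) (a (l 1) (l 18189744))) (a (b (l 18721304) (a (a (l 18105720) (l 18080736)) (l 18040248))) (l 18385016))) (a (l 1) (b (a (l 1) (l 343097745031)) (l 1)))) (b (a (b (l 17950488) (l 17624696)) (b (l 17904664) (l 17014200))) (b (b (l 18038712) (l 18969376)) (b (l 19612008) (b (l 19869128) (l 20015696)))))), by decide +kernel⟩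

theorem c_pm_112 : CertN 536870912 536870912 536870912 536870912 67108864 67108864 3 true true false .dn 1 1 2
    ndN1q1 ndN2q1 pcN2 Cut.none Ext.none :=
  certNK2 (fam := true) (s1 := true) (s2 := false) (a := 1) (b := 1) (c := 2) (cn := .dn) (n1 := ndN1q1) (n2 := ndN2q1) (pc := pcN2) (cut := Cut.none) (xt := Ext.none) (P1 := 536870912) (W1 := 536870912) (P2 := 536870912) (W2 := 536870912) (P3 := 67108864) (W3 := 67108864) (N0 := 3)
    rfl rfl rfl (fun _ => rfl) k0_pm_112

noncomputable def f_pm_113 : ℕ → ℕ → ℕ → ℕ → Bool := onCell 1610612736 536870912 536870912 536870912 67108864 67108864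
    (rowNK 3 2 true true false .nn 1 1 3 (qsf 536870912 536870912 536870912 536870912 3) ndN1q1 ndN2q1 pcN3 Cut.none Ext.none)

def k0_pm_113 : ∃ t, chk3 f_pm_113 t 1 1 1 = true :=
  ⟨(a (b (a (b (a (l 18499944) (b (l 19603976) (l 18380896))) (a (l 17017816) (l 17159944))) (b (a (b (l 2) (l 19587744)) (l 2)) (a (b (l 18156968) (l 17322176)) (l 18812464)))) (a (b (l 18661272) (b (l 19817144) (b (l 20120816) (l 20309976)))) (b (a (l 18661568) (l 17918456)) (b (l 19446720) (b (l 19813400) (l 20030808)))))) (b (a (b (l 2) (b (l 2) (a (l 19060224) (l 2)))) (l 2)) (a (b (a (b (l 17791280) (l 17635536)) (b (l 18087072) (l 17085472))) (b (l 18154512) (b (l 18487064) (l 18729072)))) (b (a (l 307193014231) (l 2)) (a (b (l 17523808) (b (l 17838760) (l 18048816))) (b (a (l 17308296) (l 2)) (b (l 17575072) (l 17773896)))))))), by decide +kernel⟩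

theorem c_pm_113 : CertN 536870912 536870912 536870912 536870912 67108864 67108864 3 true true false .nn 1 1 3
    ndN1q1 ndN2q1 pcN3 Cut.none Ext.none :=
  certNK2 (fam := true) (s1 := true) (s2 := false) (a := 1) (b := 1) (c := 3) (cn := .nn) (n1 := ndN1q1) (n2 := ndN2q1) (pc := pcN3) (cut := Cut.none) (xt := Ext.none) (P1 := 536870912) (W1 := 536870912) (P2 := 536870912) (W2 := 536870912) (P3 := 67108864) (W3 := 67108864) (N0 := 3)
    rfl rfl rfl (fun _ => rfl) k0_pm_113

noncomputable def f_pm_123_a : ℕ → ℕ → ℕ → ℕ → Bool := onCell 1610612736 536870912 0 536870912 67108864 67108864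
    (rowNK 3 2 true true false .npn 1 2 3 (qsf 536870912 536870912 0 536870912 3) ndN1q1 ndN2q2a pcN3 Cut.none Ext.none)

def k0_pm_123_a : ∃ t, chk3 f_pm_123_a t 1 1 1 = true :=
  ⟨(a (b (a (l 18874312) (l 18522736)) (a (b (l 18981816) (b (l 19045952) (l 19091928))) (b (l 18502232) (b (l 18470128) (l 18453528))))) (a (b (l 18215008) (b (a (l 18020288) (l 17712856)) (b (a (l 17921544) (l 17570104)) (l 17832696)))) (l 4))), by decide +kernel⟩

theorem c_pm_123_a : CertN 536870912 536870912 0 536870912 67108864 67108864 3 true true false .npn 1 2 3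
    ndN1q1 ndN2q2a pcN3 Cut.none Ext.none :=
  certNK2 (fam := true) (s1 := true) (s2 := false) (a := 1) (b := 2) (c := 3) (cn := .npn) (n1 := ndN1q1) (n2 := ndN2q2a) (pc := pcN3) (cut := Cut.none) (xt := Ext.none) (P1 := 536870912) (W1 := 536870912) (P2 := 0) (W2 := 536870912) (P3 := 67108864) (W3 := 67108864) (N0 := 3)
    rfl rfl rfl (fun _ => rfl) k0_pm_123_a

noncomputable def f_pm_123_b : ℕ → ℕ → ℕ → ℕ → Bool := onCell 1610612736 536870912 1239849684 370763052 67108864 67108864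
    (rowNK 3 2 true true false .npn 1 2 3 (qsf 536870912 536870912 1239849684 370763052 3) ndN1q1 ndN2q2b pcN3 Cut.none Ext.none)

def k0_pm_123_b : ∃ t, chk3 f_pm_123_b t 1 1 1 = true :=
  ⟨(a (a (l 1) (b (l 18258664) (l 1))) (a (b (a (l 18036760) (l 17881008)) (l 17755760)) (l 4))), by decide +kernel⟩

theorem c_pm_123_b : CertN 536870912 536870912 1239849684 370763052 67108864 67108864 3 true true false .npn 1 2 3
    ndN1q1 ndN2q2b pcN3 Cut.none Ext.none :=
  certNK2 (fam := true) (s1 := true) (s2 := false) (a := 1) (b := 2) (c := 3) (cn := .npn) (n1 := ndN1q1) (n2 := ndN2q2b) (pc := pcN3) (cut := Cut.none) (xt := Ext.none) (P1 := 536870912) (W1 := 536870912) (P2 := 1239849684) (W2 := 370763052) (P3 := 67108864) (W3 := 67108864) (N0 := 3)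
    rfl rfl rfl (fun _ => rfl) k0_pm_123_b

noncomputable def f_pm_133 : ℕ → ℕ → ℕ → ℕ → Bool := onCell 536870912 536870912 1610612736 536870912 67108864 67108864
    (rowNK 3 0 true true false .dn 1 3 3 (qsf 536870912 536870912 1610612736 536870912 3) ndN1q1 ndN2q3 pcN3 Cut.none Ext.none)

def k0_pm_133 : ∃ t, chk3 f_pm_133 t 1 1 1 = true :=
  ⟨(l 4), by decide +kernel⟩

theorem c_pm_133 : CertN 536870912 536870912 1610612736 536870912 67108864 67108864 3 true true false .dn 1 3 3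
    ndN1q1 ndN2q3 pcN3 Cut.none Ext.none :=
  certNK0 (fam := true) (s1 := true) (s2 := false) (a := 1) (b := 3) (c := 3) (cn := .dn) (n1 := ndN1q1) (n2 := ndN2q3) (pc := pcN3) (cut := Cut.none) (xt := Ext.none) (P1 := 536870912) (W1 := 536870912) (P2 := 1610612736) (W2 := 536870912) (P3 := 67108864) (W3 := 67108864) (N0 := 3)
    rfl rfl rfl k0_pm_133

noncomputable def cut_pm_202_a : Cut := Cut.of [[⟨0, 1, 0, 67108864⟩, ⟨1, 0, 0, 67108864⟩, ⟨2, 1, 0, 67108864⟩]]

noncomputable def f_pm_202_a : ℕ → ℕ → ℕ → ℕ → Bool := onCell 0 536870912 0 536870912 67108864 67108864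
    (rowNK 3 0 true true false .pp 2 0 2 (qsf 0 536870912 0 536870912 2) ndN1q2a ndN2q0 pcN2 cut_pm_202_a Ext.none)

def k0_pm_202_a : ∃ t, chk3 f_pm_202_a t 1 1 1 = true :=
  ⟨(a (b (b (b (b (a (b (l 17907232) (l 18146960)) (b (a (a (l 18026448) (l 17707248)) (b (c (l 18176488) (a (l 17327176) (l 17125952))) (l 17777040))) (l 17946920))) (l 18046552)) (l 17951992)) (b (l 17753616) (l 17662256))) (b (l 18027384) (l 18183800))) (b (a (b (b (b (a (b (b (c (b (a (l 17904784) (l 17431608)) (l 17828488)) (a (l 16856720) (l 16645928))) (l 17386632)) (l 17547616)) (b (b (a (a (l 16731456) (l 16658184)) (b (a (l 16656352) (l 16664480)) (l 16656880))) (a (l 16894352) (l 16637952))) (l 16977904))) (a (l 17743480) (l 17418912))) (b (l 17764424) (l 17812440))) (l 17821544)) (b (a (b (b (b (b (b (a (a (l 16684528) (b (l 16691104) (l 16677120))) (l 6)) (a (l 16727432) (a (l 16701144) (l 6)))) (a (l 16760776) (b (l 16814800) (l 16792496)))) (a (b (l 16727152) (l 16778160))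 (c (l 16929872) (l 16962608)))) (b (a (l 16852928) (l 16889208)) (l 17058248))) (b (l 17448184) (l 17684512))) (b (a (b (b (l 6) (a (b (l 6) (l 16851720)) (l 6))) (b (l 17001400) (l 17034792))) (b (l 6) (b (b (l 6) (l 17099120)) (l 17174472)))) (b (a (l 17223968) (l 17289016)) (l 17587560)))) (b (a (l 17758392) (l 17730832)) (l 17811280)))) (b (a (l 18084560) (l 18160192)) (a (l 18374000) (l 18495776))))), by decide +kernel⟩

theorem c_pm_202_a : CertN 0 536870912 0 536870912 67108864 67108864 3 true true false .pp 2 0 2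
    ndN1q2a ndN2q0 pcN2 cut_pm_202_a Ext.none :=
  certNK0 (fam := true) (s1 := true) (s2 := false) (a := 2) (b := 0) (c := 2) (cn := .pp) (n1 := ndN1q2a) (n2 := ndN2q0) (pc := pcN2) (cut := cut_pm_202_a) (xt := Ext.none) (P1 := 0) (W1 := 536870912) (P2 := 0) (W2 := 536870912) (P3 := 67108864) (W3 := 67108864) (N0 := 3)
    rfl rfl rfl k0_pm_202_a

noncomputable def cut_pm_202_b : Cut := Cut.of [[⟨0, 1, 0, 67108864⟩, ⟨1, 0, 0, 67108864⟩, ⟨2, 1, 0, 67108864⟩]]

noncomputable def f_pm_202_b : ℕ → ℕ → ℕ → ℕ → Bool := onCell 1073741824 536870912 0 536870912 67108864 67108864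
    (rowNK 3 2 true true false .pp 2 0 2 (qsf 1239849684 370763052 0 536870912 2) ndN1q2b ndN2q0 pcN2 cut_pm_202_b Ext.none)

def k0_pm_202_b : ∃ t, chk3 f_pm_202_b t 1 1 1 = true :=
  ⟨(a (b (a (l 1) (b (a (b (b (a (b (l 183645604327) (l 1)) (l 18196328)) (l 17718664)) (l 1)) (b (b (l 18539584) (l 18230280)) (l 17834584))) (l 1))) (l 1)) (b (b (a (b (l 18825048) (l 18143656)) (b (l 18761696) (l 18287776))) (a (l 298536023367) (l 17634800))) (a (l 1) (l 475168149527)))), by decide +kernel⟩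

theorem c_pm_202_b : CertN 1239849684 370763052 0 536870912 67108864 67108864 3 true true false .pp 2 0 2
    ndN1q2b ndN2q0 pcN2 cut_pm_202_b Ext.none :=
  certNK2 (fam := true) (s1 := true) (s2 := false) (a := 2) (b := 0) (c := 2) (cn := .pp) (n1 := ndN1q2b) (n2 := ndN2q0) (pc := pcN2) (cut := cut_pm_202_b) (xt := Ext.none) (P1 := 1239849684) (W1 := 370763052) (P2 := 0) (W2 := 536870912) (P3 := 67108864) (W3 := 67108864) (N0 := 3)
    rfl rfl rfl (fun _ => rfl) k0_pm_202_b

noncomputable def f_pm_203_a : ℕ → ℕ → ℕ → ℕ → Bool := onCell 0 536870912 1610612736 536870912 67108864 67108864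
    (rowNK 3 1 true true false .up 2 0 3 (qsf 0 536870912 0 536870912 3) ndN1q2a ndN2q0 pcN3 Cut.none Ext.none)

def k0_pm_203_a : ∃ t, chk3 f_pm_203_a t 1 1 1 = true :=
  ⟨(b (b (a (l 17998656) (l 18008040)) (b (l 18205816) (l 4))) (l 2)), by decide +kernel⟩

theorem c_pm_203_a : CertN 0 536870912 0 536870912 67108864 67108864 3 true true false .up 2 0 3
    ndN1q2a ndN2q0 pcN3 Cut.none Ext.none :=
  certNK1 (fam := true) (s1 := true) (s2 := false) (a := 2) (b := 0) (c := 3) (cn := .up) (n1 := ndN1q2a) (n2 := ndN2q0) (pc := pcN3) (cut := Cut.none) (xt := Ext.none) (P1 := 0) (W1 := 536870912) (P2 := 0) (W2 := 536870912) (P3 := 67108864) (W3 := 67108864) (N0 := 3)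
    rfl rfl rfl (fun _ => rfl) k0_pm_203_a

noncomputable def f_pm_203_b : ℕ → ℕ → ℕ → ℕ → Bool := onCell 1239849684 370763052 1610612736 536870912 67108864 67108864
    (rowNK 3 1 true true false .up 2 0 3 (qsf 1239849684 370763052 0 536870912 3) ndN1q2b ndN2q0 pcN3 Cut.none Ext.none)

def k0_pm_203_b : ∃ t, chk3 f_pm_203_b t 1 1 1 = true :=
  ⟨(b (b (a (b (l 17312400) (l 17754568)) (b (l 17933856) (l 17451944))) (b (a (l 4) (l 17111568)) (l 4))) (l 4)), by decide +kernel⟩

theorem c_pm_203_b : CertN 1239849684 370763052 0 536870912 67108864 67108864 3 true true false .up 2 0 3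
    ndN1q2b ndN2q0 pcN3 Cut.none Ext.none :=
  certNK1 (fam := true) (s1 := true) (s2 := false) (a := 2) (b := 0) (c := 3) (cn := .up) (n1 := ndN1q2b) (n2 := ndN2q0) (pc := pcN3) (cut := Cut.none) (xt := Ext.none) (P1 := 1239849684) (W1 := 370763052) (P2 := 0) (W2 := 536870912) (P3 := 67108864) (W3 := 67108864) (N0 := 3)
    rfl rfl rfl (fun _ => rfl) k0_pm_203_b

noncomputable def f_pm_213_a : ℕ → ℕ → ℕ → ℕ → Bool := onCell 0 536870912 1610612736 536870912 67108864 67108864
    (rowNK 3 1 true true false .pnn 2 1 3 (qsf 0 536870912 536870912 536870912 3) ndN1q2a ndN2q1 pcN3 Cut.none Ext.none)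

def k0_pm_213_a : ∃ t, chk3 f_pm_213_a t 1 1 1 = true :=
  ⟨(b (b (a (l 18838984) (b (l 19057272) (l 18735160))) (b (a (l 18615600) (l 18375328)) (l 4))) (l 4)), by decide +kernel⟩

theorem c_pm_213_a : CertN 0 536870912 536870912 536870912 67108864 67108864 3 true true false .pnn 2 1 3
    ndN1q2a ndN2q1 pcN3 Cut.none Ext.none :=
  certNK1 (fam := true) (s1 := true) (s2 := false) (a := 2) (b := 1) (c := 3) (cn := .pnn) (n1 := ndN1q2a) (n2 := ndN2q1) (pc := pcN3) (cut := Cut.none) (xt := Ext.none) (P1 := 0) (W1 := 536870912) (P2 := 536870912) (W2 := 536870912) (P3 := 67108864) (W3 := 67108864) (N0 := 3)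
    rfl rfl rfl (fun _ => rfl) k0_pm_213_a

noncomputable def f_pm_213_b : ℕ → ℕ → ℕ → ℕ → Bool := onCell 1239849684 370763052 536870912 536870912 67108864 67108864
    (rowNK 3 0 true true false .pnn 2 1 3 (qsf 1239849684 370763052 536870912 536870912 3) ndN1q2b ndN2q1 pcN3 Cut.none Ext.none)

def k0_pm_213_b : ∃ t, chk3 f_pm_213_b t 1 1 1 = true :=
  ⟨(l 4), by decide +kernel⟩

theorem c_pm_213_b : CertN 1239849684 370763052 536870912 536870912 67108864 67108864 3 true true false .pnn 2 1 3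
    ndN1q2b ndN2q1 pcN3 Cut.none Ext.none :=
  certNK0 (fam := true) (s1 := true) (s2 := false) (a := 2) (b := 1) (c := 3) (cn := .pnn) (n1 := ndN1q2b) (n2 := ndN2q1) (pc := pcN3) (cut := Cut.none) (xt := Ext.none) (P1 := 1239849684) (W1 := 370763052) (P2 := 536870912) (W2 := 536870912) (P3 := 67108864) (W3 := 67108864) (N0 := 3)
    rfl rfl rfl k0_pm_213_b

noncomputable def f_pm_303 : ℕ → ℕ → ℕ → ℕ → Bool := onCell 1610612736 536870912 0 536870912 67108864 67108864
    (rowNK 3 2 true true false .npn 3 0 3 (qsf 1610612736 536870912 0 536870912 3) ndN1q3 ndN2q0 pcN3 Cut.none Ext.none)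

def k0_pm_303 : ∃ t, chk3 f_pm_303 t 1 1 1 = true :=
  ⟨(a (b (a (b (a (l 17958960) (l 17537896)) (l 17543160)) (b (a (l 17756000) (l 17940760)) (a (l 17120152) (l 17031304)))) (a (l 1) (a (l 1) (l 4)))) (a (b (b (a (l 18024968) (l 4)) (l 4)) (l 4)) (l 4))), by decide +kernel⟩

theorem c_pm_303 : CertN 1610612736 536870912 0 536870912 67108864 67108864 3 true true false .npn 3 0 3
    ndN1q3 ndN2q0 pcN3 Cut.none Ext.none :=
  certNK2 (fam := true) (s1 := true) (s2 := false) (a := 3) (b := 0) (c := 3) (cn := .npn) (n1 := ndN1q3) (n2 := ndN2q0) (pc := pcN3) (cut := Cut.none) (xt := Ext.none) (P1 := 1610612736) (W1 := 536870912) (P2 := 0) (W2 := 536870912) (P3 := 67108864) (W3 := 67108864) (N0 := 3)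
    rfl rfl rfl (fun _ => rfl) k0_pm_303

noncomputable def f_pm_313 : ℕ → ℕ → ℕ → ℕ → Bool := onCell 1610612736 536870912 536870912 536870912 67108864 67108864
    (rowNK 3 0 true true false .dn 3 1 3 (qsf 1610612736 536870912 536870912 536870912 3) ndN1q3 ndN2q1 pcN3 Cut.none Ext.none)

def k0_pm_313 : ∃ t, chk3 f_pm_313 t 1 1 1 = true :=
  ⟨(l 4), by decide +kernel⟩

theorem c_pm_313 : CertN 1610612736 536870912 536870912 536870912 67108864 67108864 3 true true false .dn 3 1 3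
    ndN1q3 ndN2q1 pcN3 Cut.none Ext.none :=
  certNK0 (fam := true) (s1 := true) (s2 := false) (a := 3) (b := 1) (c := 3) (cn := .dn) (n1 := ndN1q3) (n2 := ndN2q1) (pc := pcN3) (cut := Cut.none) (xt := Ext.none) (P1 := 1610612736) (W1 := 536870912) (P2 := 536870912) (W2 := 536870912) (P3 := 67108864) (W3 := 67108864) (N0 := 3)
    rfl rfl rfl k0_pm_313

noncomputable def f_mm_001 : ℕ → ℕ → ℕ → ℕ → Bool := onCell 0 536870912 0 536870912 67108864 67108864
    (rowNK 3 0 true false false .up 0 0 1 (qsf 0 536870912 0 536870912 1) ndN1q0 ndN2q0 pcN1 Cut.none Ext.none)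

def k0_mm_001 : ∃ t, chk3 f_mm_001 t 1 1 1 = true :=
  ⟨(l 4), by decide +kernel⟩

theorem c_mm_001 : CertN 0 536870912 0 536870912 67108864 67108864 3 true false false .up 0 0 1
    ndN1q0 ndN2q0 pcN1 Cut.none Ext.none :=
  certNK0 (fam := true) (s1 := false) (s2 := false) (a := 0) (b := 0) (c := 1) (cn := .up) (n1 := ndN1q0) (n2 := ndN2q0) (pc := pcN1) (cut := Cut.none) (xt := Ext.none) (P1 := 0) (W1 := 536870912) (P2 := 0) (W2 := 536870912) (P3 := 67108864) (W3 := 67108864) (N0 := 3)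
    rfl rfl rfl k0_mm_001

noncomputable def f_mm_011 : ℕ → ℕ → ℕ → ℕ → Bool := onCell 0 536870912 536870912 536870912 67108864 67108864
    (rowNK 3 0 true false false .pnn 0 1 1 (qsf 0 536870912 536870912 536870912 1) ndN1q0 ndN2q1 pcN1 Cut.none Ext.none)

def k0_mm_011 : ∃ t, chk3 f_mm_011 t 1 1 1 = true :=
  ⟨(l 4), by decide +kernel⟩

theorem c_mm_011 : CertN 0 536870912 536870912 536870912 67108864 67108864 3 true false false .pnn 0 1 1
    ndN1q0 ndN2q1 pcN1 Cut.none Ext.none :=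
  certNK0 (fam := true) (s1 := false) (s2 := false) (a := 0) (b := 1) (c := 1) (cn := .pnn) (n1 := ndN1q0) (n2 := ndN2q1) (pc := pcN1) (cut := Cut.none) (xt := Ext.none) (P1 := 0) (W1 := 536870912) (P2 := 536870912) (W2 := 536870912) (P3 := 67108864) (W3 := 67108864) (N0 := 3)
    rfl rfl rfl k0_mm_011

noncomputable def f_mm_012 : ℕ → ℕ → ℕ → ℕ → Bool := onCell 0 536870912 536870912 536870912 67108864 67108864
    (rowNK 3 0 true false false .pnp 0 1 2 (qsf 0 536870912 536870912 536870912 2) ndN1q0 ndN2q1 pcN2 Cut.none Ext.none)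

def k0_mm_012 : ∃ t, chk3 f_mm_012 t 1 1 1 = true :=
  ⟨(l 4), by decide +kernel⟩

theorem c_mm_012 : CertN 0 536870912 536870912 536870912 67108864 67108864 3 true false false .pnp 0 1 2
    ndN1q0 ndN2q1 pcN2 Cut.none Ext.none :=
  certNK0 (fam := true) (s1 := false) (s2 := false) (a := 0) (b := 1) (c := 2) (cn := .pnp) (n1 := ndN1q0) (n2 := ndN2q1) (pc := pcN2) (cut := Cut.none) (xt := Ext.none) (P1 := 0) (W1 := 536870912) (P2 := 536870912) (W2 := 536870912) (P3 := 67108864) (W3 := 67108864) (N0 := 3)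
    rfl rfl rfl k0_mm_012

noncomputable def f_mm_022_a : ℕ → ℕ → ℕ → ℕ → Bool := onCell 0 536870912 0 536870912 67108864 67108864
    (rowNK 3 0 true false false .pp 0 2 2 (qsf 0 536870912 0 536870912 2) ndN1q0 ndN2q2a pcN2 Cut.none Ext.none)

def k0_mm_022_a : ∃ t, chk3 f_mm_022_a t 1 1 1 = true :=
  ⟨(l 5), by decide +kernel⟩

theorem c_mm_022_a : CertN 0 536870912 0 536870912 67108864 67108864 3 true false false .pp 0 2 2
    ndN1q0 ndN2q2a pcN2 Cut.none Ext.none :=
  certNK0 (fam := true) (s1 := false) (s2 := false) (a := 0) (b := 2) (c := 2) (cn := .pp) (n1 := ndN1q0) (n2 := ndN2q2a) (pc := pcN2) (cut := Cut.none) (xt := Ext.none) (P1 := 0) (W1 := 536870912) (P2 := 0) (W2 := 536870912) (P3 := 67108864) (W3 := 67108864) (N0 := 3)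
    rfl rfl rfl k0_mm_022_a

noncomputable def f_mm_022_b : ℕ → ℕ → ℕ → ℕ → Bool := onCell 0 536870912 1239849684 370763052 67108864 67108864
    (rowNK 3 0 true false false .pp 0 2 2 (qsf 0 536870912 1239849684 370763052 2) ndN1q0 ndN2q2b pcN2 Cut.none Ext.none)

def k0_mm_022_b : ∃ t, chk3 f_mm_022_b t 1 1 1 = true :=
  ⟨(l 5), by decide +kernel⟩

theorem c_mm_022_b : CertN 0 536870912 1239849684 370763052 67108864 67108864 3 true false false .pp 0 2 2
    ndN1q0 ndN2q2b pcN2 Cut.none Ext.none :=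
  certNK0 (fam := true) (s1 := false) (s2 := false) (a := 0) (b := 2) (c := 2) (cn := .pp) (n1 := ndN1q0) (n2 := ndN2q2b) (pc := pcN2) (cut := Cut.none) (xt := Ext.none) (P1 := 0) (W1 := 536870912) (P2 := 1239849684) (W2 := 370763052) (P3 := 67108864) (W3 := 67108864) (N0 := 3)
    rfl rfl rfl k0_mm_022_b

noncomputable def f_mm_023_a : ℕ → ℕ → ℕ → ℕ → Bool := onCell 0 536870912 0 536870912 67108864 67108864
    (rowNK 3 0 true false false .up 0 2 3 (qsf 0 536870912 0 536870912 3) ndN1q0 ndN2q2a pcN3 Cut.none Ext.none)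

def k0_mm_023_a : ∃ t, chk3 f_mm_023_a t 1 1 1 = true :=
  ⟨(l 5), by decide +kernel⟩

theorem c_mm_023_a : CertN 0 536870912 0 536870912 67108864 67108864 3 true false false .up 0 2 3
    ndN1q0 ndN2q2a pcN3 Cut.none Ext.none :=
  certNK0 (fam := true) (s1 := false) (s2 := false) (a := 0) (b := 2) (c := 3) (cn := .up) (n1 := ndN1q0) (n2 := ndN2q2a) (pc := pcN3) (cut := Cut.none) (xt := Ext.none) (P1 := 0) (W1 := 536870912) (P2 := 0) (W2 := 536870912) (P3 := 67108864) (W3 := 67108864) (N0 := 3)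
    rfl rfl rfl k0_mm_023_a

noncomputable def f_mm_023_b : ℕ → ℕ → ℕ → ℕ → Bool := onCell 0 536870912 1239849684 370763052 67108864 67108864
    (rowNK 3 0 true false false .up 0 2 3 (qsf 0 536870912 1239849684 370763052 3) ndN1q0 ndN2q2b pcN3 Cut.none Ext.none)

def k0_mm_023_b : ∃ t, chk3 f_mm_023_b t 1 1 1 = true :=
  ⟨(l 5), by decide +kernel⟩

theorem c_mm_023_b : CertN 0 536870912 1239849684 370763052 67108864 67108864 3 true false false .up 0 2 3
    ndN1q0 ndN2q2b pcN3 Cut.none Ext.none :=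
  certNK0 (fam := true) (s1 := false) (s2 := false) (a := 0) (b := 2) (c := 3) (cn := .up) (n1 := ndN1q0) (n2 := ndN2q2b) (pc := pcN3) (cut := Cut.none) (xt := Ext.none) (P1 := 0) (W1 := 536870912) (P2 := 1239849684) (W2 := 370763052) (P3 := 67108864) (W3 := 67108864) (N0 := 3)
    rfl rfl rfl k0_mm_023_b

noncomputable def f_mm_033 : ℕ → ℕ → ℕ → ℕ → Bool := onCell 0 536870912 1610612736 536870912 67108864 67108864
    (rowNK 3 0 true false false .pnn 0 3 3 (qsf 0 536870912 1610612736 536870912 3) ndN1q0 ndN2q3 pcN3 Cut.none Ext.none)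

def k0_mm_033 : ∃ t, chk3 f_mm_033 t 1 1 1 = true :=
  ⟨(l 4), by decide +kernel⟩

theorem c_mm_033 : CertN 0 536870912 1610612736 536870912 67108864 67108864 3 true false false .pnn 0 3 3
    ndN1q0 ndN2q3 pcN3 Cut.none Ext.none :=
  certNK0 (fam := true) (s1 := false) (s2 := false) (a := 0) (b := 3) (c := 3) (cn := .pnn) (n1 := ndN1q0) (n2 := ndN2q3) (pc := pcN3) (cut := Cut.none) (xt := Ext.none) (P1 := 0) (W1 := 536870912) (P2 := 1610612736) (W2 := 536870912) (P3 := 67108864) (W3 := 67108864) (N0 := 3)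
    rfl rfl rfl k0_mm_033

noncomputable def f_mm_101 : ℕ → ℕ → ℕ → ℕ → Bool := onCell 536870912 536870912 0 536870912 67108864 67108864
    (rowNK 3 0 true false false .npn 1 0 1 (qsf 536870912 536870912 0 536870912 1) ndN1q1 ndN2q0 pcN1 Cut.none Ext.none)

def k0_mm_101 : ∃ t, chk3 f_mm_101 t 1 1 1 = true :=
  ⟨(l 4), by decide +kernel⟩

theorem c_mm_101 : CertN 536870912 536870912 0 536870912 67108864 67108864 3 true false false .npn 1 0 1
    ndN1q1 ndN2q0 pcN1 Cut.none Ext.none :=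
  certNK0 (fam := true) (s1 := false) (s2 := false) (a := 1) (b := 0) (c := 1) (cn := .npn) (n1 := ndN1q1) (n2 := ndN2q0) (pc := pcN1) (cut := Cut.none) (xt := Ext.none) (P1 := 536870912) (W1 := 536870912) (P2 := 0) (W2 := 536870912) (P3 := 67108864) (W3 := 67108864) (N0 := 3)
    rfl rfl rfl k0_mm_101

noncomputable def f_mm_102 : ℕ → ℕ → ℕ → ℕ → Bool := onCell 536870912 536870912 0 536870912 67108864 67108864
    (rowNK 3 0 true false false .npp 1 0 2 (qsf 536870912 536870912 0 536870912 2) ndN1q1 ndN2q0 pcN2 Cut.none Ext.none)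

def k0_mm_102 : ∃ t, chk3 f_mm_102 t 1 1 1 = true :=
  ⟨(l 4), by decide +kernel⟩

theorem c_mm_102 : CertN 536870912 536870912 0 536870912 67108864 67108864 3 true false false .npp 1 0 2
    ndN1q1 ndN2q0 pcN2 Cut.none Ext.none :=
  certNK0 (fam := true) (s1 := false) (s2 := false) (a := 1) (b := 0) (c := 2) (cn := .npp) (n1 := ndN1q1) (n2 := ndN2q0) (pc := pcN2) (cut := Cut.none) (xt := Ext.none) (P1 := 536870912) (W1 := 536870912) (P2 := 0) (W2 := 536870912) (P3 := 67108864) (W3 := 67108864) (N0 := 3)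
    rfl rfl rfl k0_mm_102

noncomputable def f_mm_112 : ℕ → ℕ → ℕ → ℕ → Bool := onCell 536870912 536870912 536870912 536870912 67108864 67108864
    (rowNK 3 0 true false false .dn 1 1 2 (qsf 536870912 536870912 536870912 536870912 2) ndN1q1 ndN2q1 pcN2 Cut.none Ext.none)

def k0_mm_112 : ∃ t, chk3 f_mm_112 t 1 1 1 = true :=
  ⟨(l 4), by decide +kernel⟩

theorem c_mm_112 : CertN 536870912 536870912 536870912 536870912 67108864 67108864 3 true false false .dn 1 1 2
    ndN1q1 ndN2q1 pcN2 Cut.none Ext.none :=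
  certNK0 (fam := true) (s1 := false) (s2 := false) (a := 1) (b := 1) (c := 2) (cn := .dn) (n1 := ndN1q1) (n2 := ndN2q1) (pc := pcN2) (cut := Cut.none) (xt := Ext.none) (P1 := 536870912) (W1 := 536870912) (P2 := 536870912) (W2 := 536870912) (P3 := 67108864) (W3 := 67108864) (N0 := 3)
    rfl rfl rfl k0_mm_112

noncomputable def f_mm_113 : ℕ → ℕ → ℕ → ℕ → Bool := onCell 536870912 536870912 536870912 536870912 67108864 67108864
    (rowNK 3 0 true false false .nn 1 1 3 (qsf 536870912 536870912 536870912 536870912 3) ndN1q1 ndN2q1 pcN3 Cut.none Ext.none)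

def k0_mm_113 : ∃ t, chk3 f_mm_113 t 1 1 1 = true :=
  ⟨(l 4), by decide +kernel⟩

theorem c_mm_113 : CertN 536870912 536870912 536870912 536870912 67108864 67108864 3 true false false .nn 1 1 3
    ndN1q1 ndN2q1 pcN3 Cut.none Ext.none :=
  certNK0 (fam := true) (s1 := false) (s2 := false) (a := 1) (b := 1) (c := 3) (cn := .nn) (n1 := ndN1q1) (n2 := ndN2q1) (pc := pcN3) (cut := Cut.none) (xt := Ext.none) (P1 := 536870912) (W1 := 536870912) (P2 := 536870912) (W2 := 536870912) (P3 := 67108864) (W3 := 67108864) (N0 := 3)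
    rfl rfl rfl k0_mm_113

noncomputable def f_mm_123_a : ℕ → ℕ → ℕ → ℕ → Bool := onCell 536870912 536870912 0 536870912 67108864 67108864
    (rowNK 3 0 true false false .npn 1 2 3 (qsf 536870912 536870912 0 536870912 3) ndN1q1 ndN2q2a pcN3 Cut.none Ext.none)

def k0_mm_123_a : ∃ t, chk3 f_mm_123_a t 1 1 1 = true :=
  ⟨(l 4), by decide +kernel⟩

theorem c_mm_123_a : CertN 536870912 536870912 0 536870912 67108864 67108864 3 true false false .npn 1 2 3
    ndN1q1 ndN2q2a pcN3 Cut.none Ext.none :=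
  certNK0 (fam := true) (s1 := false) (s2 := false) (a := 1) (b := 2) (c := 3) (cn := .npn) (n1 := ndN1q1) (n2 := ndN2q2a) (pc := pcN3) (cut := Cut.none) (xt := Ext.none) (P1 := 536870912) (W1 := 536870912) (P2 := 0) (W2 := 536870912) (P3 := 67108864) (W3 := 67108864) (N0 := 3)
    rfl rfl rfl k0_mm_123_a

noncomputable def f_mm_123_b : ℕ → ℕ → ℕ → ℕ → Bool := onCell 536870912 536870912 1239849684 370763052 67108864 67108864
    (rowNK 3 0 true false false .npn 1 2 3 (qsf 536870912 536870912 1239849684 370763052 3) ndN1q1 ndN2q2b pcN3 Cut.none Ext.none)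

def k0_mm_123_b : ∃ t, chk3 f_mm_123_b t 1 1 1 = true :=
  ⟨(l 4), by decide +kernel⟩

theorem c_mm_123_b : CertN 536870912 536870912 1239849684 370763052 67108864 67108864 3 true false false .npn 1 2 3
    ndN1q1 ndN2q2b pcN3 Cut.none Ext.none :=
  certNK0 (fam := true) (s1 := false) (s2 := false) (a := 1) (b := 2) (c := 3) (cn := .npn) (n1 := ndN1q1) (n2 := ndN2q2b) (pc := pcN3) (cut := Cut.none) (xt := Ext.none) (P1 := 536870912) (W1 := 536870912) (P2 := 1239849684) (W2 := 370763052) (P3 := 67108864) (W3 := 67108864) (N0 := 3)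
    rfl rfl rfl k0_mm_123_b

noncomputable def f_mm_133 : ℕ → ℕ → ℕ → ℕ → Bool := onCell 536870912 536870912 1610612736 536870912 67108864 67108864
    (rowNK 3 0 true false false .dn 1 3 3 (qsf 536870912 536870912 1610612736 536870912 3) ndN1q1 ndN2q3 pcN3 Cut.none Ext.none)

def k0_mm_133 : ∃ t, chk3 f_mm_133 t 1 1 1 = true :=
  ⟨(l 4), by decide +kernel⟩

theorem c_mm_133 : CertN 536870912 536870912 1610612736 536870912 67108864 67108864 3 true false false .dn 1 3 3
    ndN1q1 ndN2q3 pcN3 Cut.none Ext.none :=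
  certNK0 (fam := true) (s1 := false) (s2 := false) (a := 1) (b := 3) (c := 3) (cn := .dn) (n1 := ndN1q1) (n2 := ndN2q3) (pc := pcN3) (cut := Cut.none) (xt := Ext.none) (P1 := 536870912) (W1 := 536870912) (P2 := 1610612736) (W2 := 536870912) (P3 := 67108864) (W3 := 67108864) (N0 := 3)
    rfl rfl rfl k0_mm_133

noncomputable def cut_mm_202_a : Cut := Cut.of [[⟨0, 1, 0, 67108864⟩, ⟨1, 0, 0, 67108864⟩, ⟨2, 1, 0, 67108864⟩]]

noncomputable def f_mm_202_a : ℕ → ℕ → ℕ → ℕ → Bool := onCell 0 536870912 0 536870912 67108864 67108864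
    (rowNK 3 0 true false false .pp 2 0 2 (qsf 0 536870912 0 536870912 2) ndN1q2a ndN2q0 pcN2 cut_mm_202_a Ext.none)

def k0_mm_202_a : ∃ t, chk3 f_mm_202_a t 1 1 1 = true :=
  ⟨(b (b (b (b (b (a (a (a (l 18110272) (l 17986072)) (b (a (c (l 18343176) (l 17498384)) (c (l 18135952) (a (l 17293936) (l 17097216)))) (a (l 17908552) (l 17688568)))) (b (a (a (a (c (l 17885296) (l 16835416)) (b (l 16767912) (l 17097296))) (a (b (l 16641480) (l 16703088)) (b (b (l 16665808) (l 16651976)) (l 16651680)))) (a (a (b (a (l 16674184) (l 16688192)) (l 16709512)) (a (b (l 6) (l 16675296)) (l 6))) (l 6))) (a (a (l 17250512) (a (l 16864408) (l 16694016))) (l 4)))) (a (a (l 17997272) (a (l 17866752) (l 17686880))) (a (a (l 17399208) (l 4)) (l 4)))) (a (a (l 17841464) (l 17666424)) (l 4))) (a (a (l 4) (l 4)) (l 4))) (l 4)) (l 4)), by decide +kernel⟩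

theorem c_mm_202_a : CertN 0 536870912 0 536870912 67108864 67108864 3 true false false .pp 2 0 2
    ndN1q2a ndN2q0 pcN2 cut_mm_202_a Ext.none :=
  certNK0 (fam := true) (s1 := false) (s2 := false) (a := 2) (b := 0) (c := 2) (cn := .pp) (n1 := ndN1q2a) (n2 := ndN2q0) (pc := pcN2) (cut := cut_mm_202_a) (xt := Ext.none) (P1 := 0) (W1 := 536870912) (P2 := 0) (W2 := 536870912) (P3 := 67108864) (W3 := 67108864) (N0 := 3)
    rfl rfl rfl k0_mm_202_a

noncomputable def cut_mm_202_b : Cut := Cut.of [[⟨0, 1, 0, 67108864⟩, ⟨1, 0, 0, 67108864⟩, ⟨2, 1, 0, 67108864⟩]]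

noncomputable def f_mm_202_b : ℕ → ℕ → ℕ → ℕ → Bool := onCell 1239849684 370763052 0 536870912 67108864 67108864
    (rowNK 3 0 true false false .pp 2 0 2 (qsf 1239849684 370763052 0 536870912 2) ndN1q2b ndN2q0 pcN2 cut_mm_202_b Ext.none)

def k0_mm_202_b : ∃ t, chk3 f_mm_202_b t 1 1 1 = true :=
  ⟨(b (b (a (a (b (b (a (b (b (l 18376104) (l 18318216)) (l 18224464)) (l 18564584)) (l 18142400)) (l 4)) (b (b (l 18777120) (l 18410248)) (l 4))) (b (a (b (l 18842920) (l 4)) (l 4)) (l 4))) (l 4)) (l 4)), by decide +kernel⟩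

theorem c_mm_202_b : CertN 1239849684 370763052 0 536870912 67108864 67108864 3 true false false .pp 2 0 2
    ndN1q2b ndN2q0 pcN2 cut_mm_202_b Ext.none :=
  certNK0 (fam := true) (s1 := false) (s2 := false) (a := 2) (b := 0) (c := 2) (cn := .pp) (n1 := ndN1q2b) (n2 := ndN2q0) (pc := pcN2) (cut := cut_mm_202_b) (xt := Ext.none) (P1 := 1239849684) (W1 := 370763052) (P2 := 0) (W2 := 536870912) (P3 := 67108864) (W3 := 67108864) (N0 := 3)
    rfl rfl rfl k0_mm_202_b

noncomputable def f_mm_203_a : ℕ → ℕ → ℕ → ℕ → Bool := onCell 0 536870912 1610612736 536870912 67108864 67108864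
    (rowNK 3 1 true false false .up 2 0 3 (qsf 0 536870912 0 536870912 3) ndN1q2a ndN2q0 pcN3 Cut.none Ext.none)

def k0_mm_203_a : ∃ t, chk3 f_mm_203_a t 1 1 1 = true :=
  ⟨(l 4), by decide +kernel⟩

theorem c_mm_203_a : CertN 0 536870912 0 536870912 67108864 67108864 3 true false false .up 2 0 3
    ndN1q2a ndN2q0 pcN3 Cut.none Ext.none :=
  certNK1 (fam := true) (s1 := false) (s2 := false) (a := 2) (b := 0) (c := 3) (cn := .up) (n1 := ndN1q2a) (n2 := ndN2q0) (pc := pcN3) (cut := Cut.none) (xt := Ext.none) (P1 := 0) (W1 := 536870912) (P2 := 0) (W2 := 536870912) (P3 := 67108864) (W3 := 67108864) (N0 := 3)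
    rfl rfl rfl (fun _ => rfl) k0_mm_203_a

noncomputable def f_mm_203_b : ℕ → ℕ → ℕ → ℕ → Bool := onCell 1239849684 370763052 1610612736 536870912 67108864 67108864
    (rowNK 3 1 true false false .up 2 0 3 (qsf 1239849684 370763052 0 536870912 3) ndN1q2b ndN2q0 pcN3 Cut.none Ext.none)

def k0_mm_203_b : ∃ t, chk3 f_mm_203_b t 1 1 1 = true :=
  ⟨(b (l 4) (l 4)), by decide +kernel⟩

theorem c_mm_203_b : CertN 1239849684 370763052 0 536870912 67108864 67108864 3 true false false .up 2 0 3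
    ndN1q2b ndN2q0 pcN3 Cut.none Ext.none :=
  certNK1 (fam := true) (s1 := false) (s2 := false) (a := 2) (b := 0) (c := 3) (cn := .up) (n1 := ndN1q2b) (n2 := ndN2q0) (pc := pcN3) (cut := Cut.none) (xt := Ext.none) (P1 := 1239849684) (W1 := 370763052) (P2 := 0) (W2 := 536870912) (P3 := 67108864) (W3 := 67108864) (N0 := 3)
    rfl rfl rfl (fun _ => rfl) k0_mm_203_b

noncomputable def f_mm_213_a : ℕ → ℕ → ℕ → ℕ → Bool := onCell 0 536870912 536870912 536870912 67108864 67108864
    (rowNK 3 0 true false false .pnn 2 1 3 (qsf 0 536870912 536870912 536870912 3) ndN1q2a ndN2q1 pcN3 Cut.none Ext.none)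

def k0_mm_213_a : ∃ t, chk3 f_mm_213_a t 1 1 1 = true :=
  ⟨(l 4), by decide +kernel⟩

theorem c_mm_213_a : CertN 0 536870912 536870912 536870912 67108864 67108864 3 true false false .pnn 2 1 3
    ndN1q2a ndN2q1 pcN3 Cut.none Ext.none :=
  certNK0 (fam := true) (s1 := false) (s2 := false) (a := 2) (b := 1) (c := 3) (cn := .pnn) (n1 := ndN1q2a) (n2 := ndN2q1) (pc := pcN3) (cut := Cut.none) (xt := Ext.none) (P1 := 0) (W1 := 536870912) (P2 := 536870912) (W2 := 536870912) (P3 := 67108864) (W3 := 67108864) (N0 := 3)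
    rfl rfl rfl k0_mm_213_a

noncomputable def f_mm_213_b : ℕ → ℕ → ℕ → ℕ → Bool := onCell 1239849684 370763052 536870912 536870912 67108864 67108864
    (rowNK 3 0 true false false .pnn 2 1 3 (qsf 1239849684 370763052 536870912 536870912 3) ndN1q2b ndN2q1 pcN3 Cut.none Ext.none)

def k0_mm_213_b : ∃ t, chk3 f_mm_213_b t 1 1 1 = true :=
  ⟨(l 4), by decide +kernel⟩

theorem c_mm_213_b : CertN 1239849684 370763052 536870912 536870912 67108864 67108864 3 true false false .pnn 2 1 3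
    ndN1q2b ndN2q1 pcN3 Cut.none Ext.none :=
  certNK0 (fam := true) (s1 := false) (s2 := false) (a := 2) (b := 1) (c := 3) (cn := .pnn) (n1 := ndN1q2b) (n2 := ndN2q1) (pc := pcN3) (cut := Cut.none) (xt := Ext.none) (P1 := 1239849684) (W1 := 370763052) (P2 := 536870912) (W2 := 536870912) (P3 := 67108864) (W3 := 67108864) (N0 := 3)
    rfl rfl rfl k0_mm_213_b

noncomputable def f_mm_303 : ℕ → ℕ → ℕ → ℕ → Bool := onCell 1610612736 536870912 0 536870912 67108864 67108864
    (rowNK 3 0 true false false .npn 3 0 3 (qsf 1610612736 536870912 0 536870912 3) ndN1q3 ndN2q0 pcN3 Cut.none Ext.none)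

def k0_mm_303 : ∃ t, chk3 f_mm_303 t 1 1 1 = true :=
  ⟨(a (b (l 4) (l 4)) (l 4)), by decide +kernel⟩

theorem c_mm_303 : CertN 1610612736 536870912 0 536870912 67108864 67108864 3 true false false .npn 3 0 3
    ndN1q3 ndN2q0 pcN3 Cut.none Ext.none :=
  certNK0 (fam := true) (s1 := false) (s2 := false) (a := 3) (b := 0) (c := 3) (cn := .npn) (n1 := ndN1q3) (n2 := ndN2q0) (pc := pcN3) (cut := Cut.none) (xt := Ext.none) (P1 := 1610612736) (W1 := 536870912) (P2 := 0) (W2 := 536870912) (P3 := 67108864) (W3 := 67108864) (N0 := 3)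
    rfl rfl rfl k0_mm_303

noncomputable def f_mm_313 : ℕ → ℕ → ℕ → ℕ → Bool := onCell 1610612736 536870912 536870912 536870912 67108864 67108864
    (rowNK 3 0 true false false .dn 3 1 3 (qsf 1610612736 536870912 536870912 536870912 3) ndN1q3 ndN2q1 pcN3 Cut.none Ext.none)

def k0_mm_313 : ∃ t, chk3 f_mm_313 t 1 1 1 = true :=
  ⟨(l 4), by decide +kernel⟩

theorem c_mm_313 : CertN 1610612736 536870912 536870912 536870912 67108864 67108864 3 true false false .dn 3 1 3
    ndN1q3 ndN2q1 pcN3 Cut.none Ext.none :=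
  certNK0 (fam := true) (s1 := false) (s2 := false) (a := 3) (b := 1) (c := 3) (cn := .dn) (n1 := ndN1q3) (n2 := ndN2q1) (pc := pcN3) (cut := Cut.none) (xt := Ext.none) (P1 := 1610612736) (W1 := 536870912) (P2 := 536870912) (W2 := 536870912) (P3 := 67108864) (W3 := 67108864) (N0 := 3)
    rfl rfl rfl k0_mm_313

end Pool.Agent.Strip051.G.I1_16_1_8.Tab.C.NA12

namespace Pool.Agent.Strip051.G.I1_16_1_8.Tab.C.NA13

open Pool.Agent.Strip051.PB Pool.Agent.Strip051.PB.T
open Pool.Agent.Strip051.G.I1_16_1_8.Tab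

noncomputable def f_pp_001 : ℕ → ℕ → ℕ → ℕ → Bool := onCell 0 536870912 0 536870912 67108864 67108864
    (rowNK 3 0 true true true .up 0 0 1 (qsf 0 536870912 0 536870912 1) ndN1q0 ndN3q0 pcN1 Cut.none Ext.none)

def k0_pp_001 : ∃ t, chk3 f_pp_001 t 1 1 1 = true :=
  ⟨(l 4), by decide +kernel⟩

theorem c_pp_001 : CertN 0 536870912 0 536870912 67108864 67108864 3 true true true .up 0 0 1
    ndN1q0 ndN3q0 pcN1 Cut.none Ext.none :=
  certNK0 (fam := true) (s1 := true) (s2 := true) (a := 0) (b := 0) (c := 1) (cn := .up) (n1 := ndN1q0) (n2 := ndN3q0) (pc := pcN1) (cut := Cut.none) (xt := Ext.none) (P1 := 0) (W1 := 536870912) (P2 := 0) (W2 := 536870912) (P3 := 67108864) (W3 := 67108864) (N0 := 3)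
    rfl rfl rfl k0_pp_001

noncomputable def f_pp_011 : ℕ → ℕ → ℕ → ℕ → Bool := onCell 0 536870912 536870912 536870912 67108864 67108864
    (rowNK 3 0 true true true .pnn 0 1 1 (qsf 0 536870912 536870912 536870912 1) ndN1q0 ndN3q1 pcN1 Cut.none Ext.none)

def k0_pp_011 : ∃ t, chk3 f_pp_011 t 1 1 1 = true :=
  ⟨(l 4), by decide +kernel⟩

theorem c_pp_011 : CertN 0 536870912 536870912 536870912 67108864 67108864 3 true true true .pnn 0 1 1
    ndN1q0 ndN3q1 pcN1 Cut.none Ext.none :=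
  certNK0 (fam := true) (s1 := true) (s2 := true) (a := 0) (b := 1) (c := 1) (cn := .pnn) (n1 := ndN1q0) (n2 := ndN3q1) (pc := pcN1) (cut := Cut.none) (xt := Ext.none) (P1 := 0) (W1 := 536870912) (P2 := 536870912) (W2 := 536870912) (P3 := 67108864) (W3 := 67108864) (N0 := 3)
    rfl rfl rfl k0_pp_011

noncomputable def f_pp_012 : ℕ → ℕ → ℕ → ℕ → Bool := onCell 0 536870912 536870912 536870912 67108864 67108864
    (rowNK 3 0 true true true .pnp 0 1 2 (qsf 0 536870912 536870912 536870912 2) ndN1q0 ndN3q1 pcN2 Cut.none Ext.none)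

def k0_pp_012 : ∃ t, chk3 f_pp_012 t 1 1 1 = true :=
  ⟨(l 4), by decide +kernel⟩

theorem c_pp_012 : CertN 0 536870912 536870912 536870912 67108864 67108864 3 true true true .pnp 0 1 2
    ndN1q0 ndN3q1 pcN2 Cut.none Ext.none :=
  certNK0 (fam := true) (s1 := true) (s2 := true) (a := 0) (b := 1) (c := 2) (cn := .pnp) (n1 := ndN1q0) (n2 := ndN3q1) (pc := pcN2) (cut := Cut.none) (xt := Ext.none) (P1 := 0) (W1 := 536870912) (P2 := 536870912) (W2 := 536870912) (P3 := 67108864) (W3 := 67108864) (N0 := 3)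
    rfl rfl rfl k0_pp_012

noncomputable def f_pp_022 : ℕ → ℕ → ℕ → ℕ → Bool := onCell 0 536870912 1073741824 536870912 67108864 67108864
    (rowNK 3 0 true true true .pp 0 2 2 (qsf 0 536870912 1073741824 536870912 2) ndN1q0 ndN3q2 pcN2 Cut.none Ext.none)

def k0_pp_022 : ∃ t, chk3 f_pp_022 t 1 1 1 = true :=
  ⟨(l 4), by decide +kernel⟩

theorem c_pp_022 : CertN 0 536870912 1073741824 536870912 67108864 67108864 3 true true true .pp 0 2 2
    ndN1q0 ndN3q2 pcN2 Cut.none Ext.none :=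
  certNK0 (fam := true) (s1 := true) (s2 := true) (a := 0) (b := 2) (c := 2) (cn := .pp) (n1 := ndN1q0) (n2 := ndN3q2) (pc := pcN2) (cut := Cut.none) (xt := Ext.none) (P1 := 0) (W1 := 536870912) (P2 := 1073741824) (W2 := 536870912) (P3 := 67108864) (W3 := 67108864) (N0 := 3)
    rfl rfl rfl k0_pp_022

noncomputable def f_pp_023 : ℕ → ℕ → ℕ → ℕ → Bool := onCell 0 536870912 1073741824 536870912 67108864 67108864
    (rowNK 3 0 true true true .up 0 2 3 (qsf 0 536870912 1073741824 536870912 3) ndN1q0 ndN3q2 pcN3 Cut.none Ext.none)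

def k0_pp_023 : ∃ t, chk3 f_pp_023 t 1 1 1 = true :=
  ⟨(l 4), by decide +kernel⟩

theorem c_pp_023 : CertN 0 536870912 1073741824 536870912 67108864 67108864 3 true true true .up 0 2 3
    ndN1q0 ndN3q2 pcN3 Cut.none Ext.none :=
  certNK0 (fam := true) (s1 := true) (s2 := true) (a := 0) (b := 2) (c := 3) (cn := .up) (n1 := ndN1q0) (n2 := ndN3q2) (pc := pcN3) (cut := Cut.none) (xt := Ext.none) (P1 := 0) (W1 := 536870912) (P2 := 1073741824) (W2 := 536870912) (P3 := 67108864) (W3 := 67108864) (N0 := 3)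
    rfl rfl rfl k0_pp_023

noncomputable def f_pp_033 : ℕ → ℕ → ℕ → ℕ → Bool := onCell 0 536870912 0 1230186008 67108864 67108864
    (rowNK 3 0 true true true .pnn 0 3 3 (qsf 0 536870912 0 1230186008 3) ndN1q0 ndN3q3 pcN3 Cut.none Ext.none)

def k0_pp_033 : ∃ t, chk3 f_pp_033 t 1 1 1 = true :=
  ⟨(b (l 4) (l 4)), by decide +kernel⟩

theorem c_pp_033 : CertN 0 536870912 0 1230186008 67108864 67108864 3 true true true .pnn 0 3 3
    ndN1q0 ndN3q3 pcN3 Cut.none Ext.none :=
  certNK0 (fam := true) (s1 := true) (s2 := true) (a := 0) (b := 3) (c := 3) (cn := .pnn) (n1 := ndN1q0) (n2 := ndN3q3) (pc := pcN3) (cut := Cut.none) (xt := Ext.none) (P1 := 0) (W1 := 536870912) (P2 := 0) (W2 := 1230186008) (P3 := 67108864) (W3 := 67108864) (N0 := 3)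
    rfl rfl rfl k0_pp_033

noncomputable def f_pp_101 : ℕ → ℕ → ℕ → ℕ → Bool := onCell 536870912 536870912 0 536870912 67108864 67108864
    (rowNK 3 0 true true true .npn 1 0 1 (qsf 536870912 536870912 0 536870912 1) ndN1q1 ndN3q0 pcN1 Cut.none Ext.none)

def k0_pp_101 : ∃ t, chk3 f_pp_101 t 1 1 1 = true :=
  ⟨(l 4), by decide +kernel⟩

theorem c_pp_101 : CertN 536870912 536870912 0 536870912 67108864 67108864 3 true true true .npn 1 0 1
    ndN1q1 ndN3q0 pcN1 Cut.none Ext.none :=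
  certNK0 (fam := true) (s1 := true) (s2 := true) (a := 1) (b := 0) (c := 1) (cn := .npn) (n1 := ndN1q1) (n2 := ndN3q0) (pc := pcN1) (cut := Cut.none) (xt := Ext.none) (P1 := 536870912) (W1 := 536870912) (P2 := 0) (W2 := 536870912) (P3 := 67108864) (W3 := 67108864) (N0 := 3)
    rfl rfl rfl k0_pp_101

noncomputable def f_pp_102 : ℕ → ℕ → ℕ → ℕ → Bool := onCell 536870912 536870912 0 536870912 67108864 67108864
    (rowNK 3 0 true true true .npp 1 0 2 (qsf 536870912 536870912 0 536870912 2) ndN1q1 ndN3q0 pcN2 Cut.none Ext.none)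

def k0_pp_102 : ∃ t, chk3 f_pp_102 t 1 1 1 = true :=
  ⟨(l 4), by decide +kernel⟩

theorem c_pp_102 : CertN 536870912 536870912 0 536870912 67108864 67108864 3 true true true .npp 1 0 2
    ndN1q1 ndN3q0 pcN2 Cut.none Ext.none :=
  certNK0 (fam := true) (s1 := true) (s2 := true) (a := 1) (b := 0) (c := 2) (cn := .npp) (n1 := ndN1q1) (n2 := ndN3q0) (pc := pcN2) (cut := Cut.none) (xt := Ext.none) (P1 := 536870912) (W1 := 536870912) (P2 := 0) (W2 := 536870912) (P3 := 67108864) (W3 := 67108864) (N0 := 3)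
    rfl rfl rfl k0_pp_102

noncomputable def f_pp_112 : ℕ → ℕ → ℕ → ℕ → Bool := onCell 536870912 536870912 536870912 536870912 67108864 67108864
    (rowNK 3 0 true true true .dn 1 1 2 (qsf 536870912 536870912 536870912 536870912 2) ndN1q1 ndN3q1 pcN2 Cut.none Ext.none)

def k0_pp_112 : ∃ t, chk3 f_pp_112 t 1 1 1 = true :=
  ⟨(l 4), by decide +kernel⟩

theorem c_pp_112 : CertN 536870912 536870912 536870912 536870912 67108864 67108864 3 true true true .dn 1 1 2
    ndN1q1 ndN3q1 pcN2 Cut.none Ext.none :=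
  certNK0 (fam := true) (s1 := true) (s2 := true) (a := 1) (b := 1) (c := 2) (cn := .dn) (n1 := ndN1q1) (n2 := ndN3q1) (pc := pcN2) (cut := Cut.none) (xt := Ext.none) (P1 := 536870912) (W1 := 536870912) (P2 := 536870912) (W2 := 536870912) (P3 := 67108864) (W3 := 67108864) (N0 := 3)
    rfl rfl rfl k0_pp_112

noncomputable def f_pp_113 : ℕ → ℕ → ℕ → ℕ → Bool := onCell 536870912 536870912 536870912 536870912 67108864 67108864
    (rowNK 3 0 true true true .nn 1 1 3 (qsf 536870912 536870912 536870912 536870912 3) ndN1q1 ndN3q1 pcN3 Cut.none Ext.none)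

def k0_pp_113 : ∃ t, chk3 f_pp_113 t 1 1 1 = true :=
  ⟨(l 4), by decide +kernel⟩

theorem c_pp_113 : CertN 536870912 536870912 536870912 536870912 67108864 67108864 3 true true true .nn 1 1 3
    ndN1q1 ndN3q1 pcN3 Cut.none Ext.none :=
  certNK0 (fam := true) (s1 := true) (s2 := true) (a := 1) (b := 1) (c := 3) (cn := .nn) (n1 := ndN1q1) (n2 := ndN3q1) (pc := pcN3) (cut := Cut.none) (xt := Ext.none) (P1 := 536870912) (W1 := 536870912) (P2 := 536870912) (W2 := 536870912) (P3 := 67108864) (W3 := 67108864) (N0 := 3)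
    rfl rfl rfl k0_pp_113

noncomputable def f_pp_123 : ℕ → ℕ → ℕ → ℕ → Bool := onCell 536870912 536870912 1073741824 536870912 67108864 67108864
    (rowNK 3 0 true true true .npn 1 2 3 (qsf 536870912 536870912 1073741824 536870912 3) ndN1q1 ndN3q2 pcN3 Cut.none Ext.none)

def k0_pp_123 : ∃ t, chk3 f_pp_123 t 1 1 1 = true :=
  ⟨(l 4), by decide +kernel⟩

theorem c_pp_123 : CertN 536870912 536870912 1073741824 536870912 67108864 67108864 3 true true true .npn 1 2 3
    ndN1q1 ndN3q2 pcN3 Cut.none Ext.none :=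
  certNK0 (fam := true) (s1 := true) (s2 := true) (a := 1) (b := 2) (c := 3) (cn := .npn) (n1 := ndN1q1) (n2 := ndN3q2) (pc := pcN3) (cut := Cut.none) (xt := Ext.none) (P1 := 536870912) (W1 := 536870912) (P2 := 1073741824) (W2 := 536870912) (P3 := 67108864) (W3 := 67108864) (N0 := 3)
    rfl rfl rfl k0_pp_123

noncomputable def f_pp_133 : ℕ → ℕ → ℕ → ℕ → Bool := onCell 536870912 536870912 0 1230186008 67108864 67108864
    (rowNK 3 0 true true true .dn 1 3 3 (qsf 536870912 536870912 0 1230186008 3) ndN1q1 ndN3q3 pcN3 Cut.none Ext.none)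

def k0_pp_133 : ∃ t, chk3 f_pp_133 t 1 1 1 = true :=
  ⟨(l 4), by decide +kernel⟩

theorem c_pp_133 : CertN 536870912 536870912 0 1230186008 67108864 67108864 3 true true true .dn 1 3 3
    ndN1q1 ndN3q3 pcN3 Cut.none Ext.none :=
  certNK0 (fam := true) (s1 := true) (s2 := true) (a := 1) (b := 3) (c := 3) (cn := .dn) (n1 := ndN1q1) (n2 := ndN3q3) (pc := pcN3) (cut := Cut.none) (xt := Ext.none) (P1 := 536870912) (W1 := 536870912) (P2 := 0) (W2 := 1230186008) (P3 := 67108864) (W3 := 67108864) (N0 := 3)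
    rfl rfl rfl k0_pp_133

noncomputable def f_pp_202_a : ℕ → ℕ → ℕ → ℕ → Bool := onCell 0 536870912 0 536870912 67108864 67108864
    (rowNK 3 0 true true true .pp 2 0 2 (qsf 0 536870912 0 536870912 2) ndN1q2a ndN3q0 pcN2 Cut.none Ext.none)

def k0_pp_202_a : ∃ t, chk3 f_pp_202_a t 1 1 1 = true :=
  ⟨(l 4), by decide +kernel⟩

theorem c_pp_202_a : CertN 0 536870912 0 536870912 67108864 67108864 3 true true true .pp 2 0 2
    ndN1q2a ndN3q0 pcN2 Cut.none Ext.none :=
  certNK0 (fam := true) (s1 := true) (s2 := true) (a := 2) (b := 0) (c := 2) (cn := .pp) (n1 := ndN1q2a) (n2 := ndN3q0) (pc := pcN2) (cut := Cut.none) (xt := Ext.none) (P1 := 0) (W1 := 536870912) (P2 := 0) (W2 := 536870912) (P3 := 67108864) (W3 := 67108864) (N0 := 3)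
    rfl rfl rfl k0_pp_202_a

noncomputable def f_pp_202_b : ℕ → ℕ → ℕ → ℕ → Bool := onCell 1239849684 370763052 0 536870912 67108864 67108864
    (rowNK 3 0 true true true .pp 2 0 2 (qsf 1239849684 370763052 0 536870912 2) ndN1q2b ndN3q0 pcN2 Cut.none Ext.none)

def k0_pp_202_b : ∃ t, chk3 f_pp_202_b t 1 1 1 = true :=
  ⟨(l 4), by decide +kernel⟩

theorem c_pp_202_b : CertN 1239849684 370763052 0 536870912 67108864 67108864 3 true true true .pp 2 0 2
    ndN1q2b ndN3q0 pcN2 Cut.none Ext.none :=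
  certNK0 (fam := true) (s1 := true) (s2 := true) (a := 2) (b := 0) (c := 2) (cn := .pp) (n1 := ndN1q2b) (n2 := ndN3q0) (pc := pcN2) (cut := Cut.none) (xt := Ext.none) (P1 := 1239849684) (W1 := 370763052) (P2 := 0) (W2 := 536870912) (P3 := 67108864) (W3 := 67108864) (N0 := 3)
    rfl rfl rfl k0_pp_202_b

noncomputable def f_pp_203_a : ℕ → ℕ → ℕ → ℕ → Bool := onCell 0 536870912 0 536870912 67108864 67108864
    (rowNK 3 0 true true true .up 2 0 3 (qsf 0 536870912 0 536870912 3) ndN1q2a ndN3q0 pcN3 Cut.none Ext.none)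

def k0_pp_203_a : ∃ t, chk3 f_pp_203_a t 1 1 1 = true :=
  ⟨(l 4), by decide +kernel⟩

theorem c_pp_203_a : CertN 0 536870912 0 536870912 67108864 67108864 3 true true true .up 2 0 3
    ndN1q2a ndN3q0 pcN3 Cut.none Ext.none :=
  certNK0 (fam := true) (s1 := true) (s2 := true) (a := 2) (b := 0) (c := 3) (cn := .up) (n1 := ndN1q2a) (n2 := ndN3q0) (pc := pcN3) (cut := Cut.none) (xt := Ext.none) (P1 := 0) (W1 := 536870912) (P2 := 0) (W2 := 536870912) (P3 := 67108864) (W3 := 67108864) (N0 := 3)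
    rfl rfl rfl k0_pp_203_a

noncomputable def f_pp_203_b : ℕ → ℕ → ℕ → ℕ → Bool := onCell 1239849684 370763052 0 536870912 67108864 67108864
    (rowNK 3 0 true true true .up 2 0 3 (qsf 1239849684 370763052 0 536870912 3) ndN1q2b ndN3q0 pcN3 Cut.none Ext.none)

def k0_pp_203_b : ∃ t, chk3 f_pp_203_b t 1 1 1 = true :=
  ⟨(l 4), by decide +kernel⟩

theorem c_pp_203_b : CertN 1239849684 370763052 0 536870912 67108864 67108864 3 true true true .up 2 0 3
    ndN1q2b ndN3q0 pcN3 Cut.none Ext.none :=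
  certNK0 (fam := true) (s1 := true) (s2 := true) (a := 2) (b := 0) (c := 3) (cn := .up) (n1 := ndN1q2b) (n2 := ndN3q0) (pc := pcN3) (cut := Cut.none) (xt := Ext.none) (P1 := 1239849684) (W1 := 370763052) (P2 := 0) (W2 := 536870912) (P3 := 67108864) (W3 := 67108864) (N0 := 3)
    rfl rfl rfl k0_pp_203_b

noncomputable def f_pp_213_a : ℕ → ℕ → ℕ → ℕ → Bool := onCell 0 536870912 536870912 536870912 67108864 67108864
    (rowNK 3 0 true true true .pnn 2 1 3 (qsf 0 536870912 536870912 536870912 3) ndN1q2a ndN3q1 pcN3 Cut.none Ext.none)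

def k0_pp_213_a : ∃ t, chk3 f_pp_213_a t 1 1 1 = true :=
  ⟨(l 4), by decide +kernel⟩

theorem c_pp_213_a : CertN 0 536870912 536870912 536870912 67108864 67108864 3 true true true .pnn 2 1 3
    ndN1q2a ndN3q1 pcN3 Cut.none Ext.none :=
  certNK0 (fam := true) (s1 := true) (s2 := true) (a := 2) (b := 1) (c := 3) (cn := .pnn) (n1 := ndN1q2a) (n2 := ndN3q1) (pc := pcN3) (cut := Cut.none) (xt := Ext.none) (P1 := 0) (W1 := 536870912) (P2 := 536870912) (W2 := 536870912) (P3 := 67108864) (W3 := 67108864) (N0 := 3)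
    rfl rfl rfl k0_pp_213_a

noncomputable def f_pp_213_b : ℕ → ℕ → ℕ → ℕ → Bool := onCell 1239849684 370763052 536870912 536870912 67108864 67108864
    (rowNK 3 0 true true true .pnn 2 1 3 (qsf 1239849684 370763052 536870912 536870912 3) ndN1q2b ndN3q1 pcN3 Cut.none Ext.none)

def k0_pp_213_b : ∃ t, chk3 f_pp_213_b t 1 1 1 = true :=
  ⟨(l 4), by decide +kernel⟩

theorem c_pp_213_b : CertN 1239849684 370763052 536870912 536870912 67108864 67108864 3 true true true .pnn 2 1 3
    ndN1q2b ndN3q1 pcN3 Cut.none Ext.none :=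
  certNK0 (fam := true) (s1 := true) (s2 := true) (a := 2) (b := 1) (c := 3) (cn := .pnn) (n1 := ndN1q2b) (n2 := ndN3q1) (pc := pcN3) (cut := Cut.none) (xt := Ext.none) (P1 := 1239849684) (W1 := 370763052) (P2 := 536870912) (W2 := 536870912) (P3 := 67108864) (W3 := 67108864) (N0 := 3)
    rfl rfl rfl k0_pp_213_b

noncomputable def f_pp_303 : ℕ → ℕ → ℕ → ℕ → Bool := onCell 1610612736 536870912 0 536870912 67108864 67108864
    (rowNK 3 0 true true true .npn 3 0 3 (qsf 1610612736 536870912 0 536870912 3) ndN1q3 ndN3q0 pcN3 Cut.none Ext.none)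

def k0_pp_303 : ∃ t, chk3 f_pp_303 t 1 1 1 = true :=
  ⟨(l 4), by decide +kernel⟩

theorem c_pp_303 : CertN 1610612736 536870912 0 536870912 67108864 67108864 3 true true true .npn 3 0 3
    ndN1q3 ndN3q0 pcN3 Cut.none Ext.none :=
  certNK0 (fam := true) (s1 := true) (s2 := true) (a := 3) (b := 0) (c := 3) (cn := .npn) (n1 := ndN1q3) (n2 := ndN3q0) (pc := pcN3) (cut := Cut.none) (xt := Ext.none) (P1 := 1610612736) (W1 := 536870912) (P2 := 0) (W2 := 536870912) (P3 := 67108864) (W3 := 67108864) (N0 := 3)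
    rfl rfl rfl k0_pp_303

noncomputable def f_pp_313 : ℕ → ℕ → ℕ → ℕ → Bool := onCell 1610612736 536870912 536870912 536870912 67108864 67108864
    (rowNK 3 0 true true true .dn 3 1 3 (qsf 1610612736 536870912 536870912 536870912 3) ndN1q3 ndN3q1 pcN3 Cut.none Ext.none)

def k0_pp_313 : ∃ t, chk3 f_pp_313 t 1 1 1 = true :=
  ⟨(l 4), by decide +kernel⟩

theorem c_pp_313 : CertN 1610612736 536870912 536870912 536870912 67108864 67108864 3 true true true .dn 3 1 3
    ndN1q3 ndN3q1 pcN3 Cut.none Ext.none :=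
  certNK0 (fam := true) (s1 := true) (s2 := true) (a := 3) (b := 1) (c := 3) (cn := .dn) (n1 := ndN1q3) (n2 := ndN3q1) (pc := pcN3) (cut := Cut.none) (xt := Ext.none) (P1 := 1610612736) (W1 := 536870912) (P2 := 536870912) (W2 := 536870912) (P3 := 67108864) (W3 := 67108864) (N0 := 3)
    rfl rfl rfl k0_pp_313

noncomputable def f_pm_001 : ℕ → ℕ → ℕ → ℕ → Bool := onCell 0 536870912 0 536870912 67108864 67108864
    (rowNK 3 0 true true false .up 0 0 1 (qsf 0 536870912 0 536870912 1) ndN1q0 ndN3q0 pcN1 Cut.none Ext.none)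

def k0_pm_001 : ∃ t, chk3 f_pm_001 t 1 1 1 = true :=
  ⟨(a (l 3) (l 3)), by decide +kernel⟩

theorem c_pm_001 : CertN 0 536870912 0 536870912 67108864 67108864 3 true true false .up 0 0 1
    ndN1q0 ndN3q0 pcN1 Cut.none Ext.none :=
  certNK0 (fam := true) (s1 := true) (s2 := false) (a := 0) (b := 0) (c := 1) (cn := .up) (n1 := ndN1q0) (n2 := ndN3q0) (pc := pcN1) (cut := Cut.none) (xt := Ext.none) (P1 := 0) (W1 := 536870912) (P2 := 0) (W2 := 536870912) (P3 := 67108864) (W3 := 67108864) (N0 := 3)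
    rfl rfl rfl k0_pm_001

noncomputable def cut_pm_011 : Cut := Cut.of [[⟨0, 0, 0, 67108864⟩, ⟨1, 1, 0, 67108864⟩, ⟨2, 1, 0, 67108864⟩]]

noncomputable def f_pm_011 : ℕ → ℕ → ℕ → ℕ → Bool := onCell 0 536870912 536870912 536870912 67108864 67108864
    (rowNK 3 1 true true false .pnn 0 1 1 (qsf 0 536870912 536870912 536870912 1) ndN1q0 ndN3q1 pcN1 cut_pm_011 Ext.none)

def k0_pm_011 : ∃ t, chk3 f_pm_011 t 1 1 1 = true :=
  ⟨(b (l 3) (b (l 3) (a (a (b (l 3) (a (b (l 3) (a (b (l 3) (l 6)) (l 3))) (l 3))) (l 3)) (l 3)))), by decide +kernel⟩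

theorem c_pm_011 : CertN 0 536870912 536870912 536870912 67108864 67108864 3 true true false .pnn 0 1 1
    ndN1q0 ndN3q1 pcN1 cut_pm_011 Ext.none :=
  certNK1 (fam := true) (s1 := true) (s2 := false) (a := 0) (b := 1) (c := 1) (cn := .pnn) (n1 := ndN1q0) (n2 := ndN3q1) (pc := pcN1) (cut := cut_pm_011) (xt := Ext.none) (P1 := 0) (W1 := 536870912) (P2 := 536870912) (W2 := 536870912) (P3 := 67108864) (W3 := 67108864) (N0 := 3)
    rfl rfl rfl (fun _ => rfl) k0_pm_011

noncomputable def cut_pm_012 : Cut := Cut.of [[⟨0, 0, 0, 67108864⟩, ⟨1, 1, 0, 67108864⟩, ⟨2, 1, 0, 67108864⟩]]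

noncomputable def f_pm_012 : ℕ → ℕ → ℕ → ℕ → Bool := onCell 1073741824 536870912 536870912 536870912 67108864 67108864
    (rowNK 3 2 true true false .pnp 0 1 2 (qsf 0 536870912 536870912 536870912 2) ndN1q0 ndN3q1 pcN2 cut_pm_012 Ext.none)

def k0_pm_012 : ∃ t, chk3 f_pm_012 t 1 1 1 = true :=
  ⟨(a (b (a (a (l 3) (l 18673416)) (a (a (a (l 18727696) (l 18735640)) (l 18732992)) (l 18705312))) (a (a (a (b (l 3) (b (l 3) (b (a (l 3) (l 225653775543)) (a (l 6) (b (a (l 6) (l 16879696)) (l 6)))))) (b (l 18209632) (b (b (l 17799336) (l 17426184)) (b (a (l 16989536) (l 17028824)) (b (l 16924232) (b (l 16885248) (l 16860064))))))) (b (a (l 18524952) (l 18744032)) (b (a (l 18251288) (l 18669680)) (a (b (l 17771600) (b (l 17174328) (l 16948952))) (b (l 18483384) (l 18034872)))))) (a (b (a (a (l 18862464) (l 18914296)) (l 18969936)) (a (a (b (l 18888016) (l 18778640)) (b (l 18995840) (l 18987944))) (b (l 19112344) (l 19209776)))) (b (l 19028224) (l 19332480))))) (b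 (a (l 18557584) (l 2)) (a (b (l 18984680) (l 19356976)) (l 19180616)))), by decide +kernel⟩

theorem c_pm_012 : CertN 0 536870912 536870912 536870912 67108864 67108864 3 true true false .pnp 0 1 2
    ndN1q0 ndN3q1 pcN2 cut_pm_012 Ext.none :=
  certNK2 (fam := true) (s1 := true) (s2 := false) (a := 0) (b := 1) (c := 2) (cn := .pnp) (n1 := ndN1q0) (n2 := ndN3q1) (pc := pcN2) (cut := cut_pm_012) (xt := Ext.none) (P1 := 0) (W1 := 536870912) (P2 := 536870912) (W2 := 536870912) (P3 := 67108864) (W3 := 67108864) (N0 := 3)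
    rfl rfl rfl (fun _ => rfl) k0_pm_012

noncomputable def f_pm_022 : ℕ → ℕ → ℕ → ℕ → Bool := onCell 0 536870912 1073741824 536870912 67108864 67108864
    (rowNK 3 1 true true false .pp 0 2 2 (qsf 0 536870912 1073741824 536870912 2) ndN1q0 ndN3q2 pcN2 Cut.none Ext.none)

def k0_pm_022 : ∃ t, chk3 f_pm_022 t 1 1 1 = true :=
  ⟨(a (b (b (a (l 3) (a (l 3) (l 1))) (b (a (b (b (a (l 1830362496231) (l 17581680)) (b (a (a (l 17706008) (l 17790152)) (l 17722040)) (a (a (b (l 18040224) (b (l 18078256) (l 18102560))) (b (l 17872264) (l 17922768))) (b (l 17785480) (l 17825600))))) (a (a (l 18281952) (l 18116808)) (l 17983912))) (a (b (b (l 17934384) (b (l 17965120) (b (l 17981144) (l 17993152)))) (l 18054336)) (b (l 1) (l 18278368)))) (a (a (l 18524480) (l 18271752)) (l 18212832)))) (b (a (a (l 18791664) (l 18520952)) (l 18248336)) (a (l 18739672) (l 18191056)))) (b (b (l 1) (b (l 1) (l 361889007607))) (b (a (l 18390400) (l 18513816)) (a (l 17964808) (l 17928552))))),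 by decide +kernel⟩

theorem c_pm_022 : CertN 0 536870912 1073741824 536870912 67108864 67108864 3 true true false .pp 0 2 2
    ndN1q0 ndN3q2 pcN2 Cut.none Ext.none :=
  certNK1 (fam := true) (s1 := true) (s2 := false) (a := 0) (b := 2) (c := 2) (cn := .pp) (n1 := ndN1q0) (n2 := ndN3q2) (pc := pcN2) (cut := Cut.none) (xt := Ext.none) (P1 := 0) (W1 := 536870912) (P2 := 1073741824) (W2 := 536870912) (P3 := 67108864) (W3 := 67108864) (N0 := 3)
    rfl rfl rfl (fun _ => rfl) k0_pm_022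

noncomputable def f_pm_023 : ℕ → ℕ → ℕ → ℕ → Bool := onCell 1610612736 536870912 1073741824 536870912 67108864 67108864
    (rowNK 3 2 true true false .up 0 2 3 (qsf 0 536870912 1073741824 536870912 3) ndN1q0 ndN3q2 pcN3 Cut.none Ext.none)

def k0_pm_023 : ∃ t, chk3 f_pm_023 t 1 1 1 = true :=
  ⟨(b (a (a (a (l 17676896) (b (l 17900992) (l 17961432))) (a (b (l 17830680) (l 17774248)) (b (l 2) (l 17258776)))) (a (a (l 17377440) (l 2)) (l 2))) (a (a (a (b (l 18180344) (l 18777616)) (b (l 18000472) (l 18579360))) (b (l 17451904) (l 17714048))) (a (a (l 17243912) (l 17095920)) (a (l 16982216) (a (l 16909568) (l 4)))))), by decide +kernel⟩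

theorem c_pm_023 : CertN 0 536870912 1073741824 536870912 67108864 67108864 3 true true false .up 0 2 3
    ndN1q0 ndN3q2 pcN3 Cut.none Ext.none :=
  certNK2 (fam := true) (s1 := true) (s2 := false) (a := 0) (b := 2) (c := 3) (cn := .up) (n1 := ndN1q0) (n2 := ndN3q2) (pc := pcN3) (cut := Cut.none) (xt := Ext.none) (P1 := 0) (W1 := 536870912) (P2 := 1073741824) (W2 := 536870912) (P3 := 67108864) (W3 := 67108864) (N0 := 3)
    rfl rfl rfl (fun _ => rfl) k0_pm_023

noncomputable def f_pm_033 : ℕ → ℕ → ℕ → ℕ → Bool := onCell 1610612736 536870912 0 1230186008 67108864 67108864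
    (rowNK 3 2 true true false .pnn 0 3 3 (qsf 0 536870912 0 1230186008 3) ndN1q0 ndN3q3 pcN3 Cut.none Ext.none)

def k0_pm_033 : ∃ t, chk3 f_pm_033 t 1 1 1 = true :=
  ⟨(b (a (l 1) (a (l 1) (a (b (l 1) (l 4)) (l 4)))) (b (a (b (l 1) (a (l 1) (a (l 1) (a (l 1) (l 17354376))))) (a (a (b (l 1) (l 17256336)) (l 401614805639)) (a (l 17221792) (l 4)))) (a (b (a (l 1) (a (b (l 1467842258487) (l 17878360)) (l 17645992))) (a (a (b (l 1) (l 18040008)) (b (l 798901305015) (l 17877656))) (a (l 17408080) (l 18020128)))) (a (a (b (l 17755048) (l 18245912)) (l 17872136)) (a (l 17845528) (l 4)))))), by decide +kernel⟩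

theorem c_pm_033 : CertN 0 536870912 0 1230186008 67108864 67108864 3 true true false .pnn 0 3 3
    ndN1q0 ndN3q3 pcN3 Cut.none Ext.none :=
  certNK2 (fam := true) (s1 := true) (s2 := false) (a := 0) (b := 3) (c := 3) (cn := .pnn) (n1 := ndN1q0) (n2 := ndN3q3) (pc := pcN3) (cut := Cut.none) (xt := Ext.none) (P1 := 0) (W1 := 536870912) (P2 := 0) (W2 := 1230186008) (P3 := 67108864) (W3 := 67108864) (N0 := 3)
    rfl rfl rfl (fun _ => rfl) k0_pm_033

noncomputable def f_pm_101 : ℕ → ℕ → ℕ → ℕ → Bool := onCell 536870912 536870912 0 536870912 67108864 67108864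
    (rowNK 3 2 true true false .npn 1 0 1 (qsf 536870912 536870912 0 536870912 1) ndN1q1 ndN3q0 pcN1 Cut.none Ext.none)

def k0_pm_101 : ∃ t, chk3 f_pm_101 t 1 1 1 = true :=
  ⟨(a (l 3) (l 3)), by decide +kernel⟩

theorem c_pm_101 : CertN 536870912 536870912 0 536870912 67108864 67108864 3 true true false .npn 1 0 1
    ndN1q1 ndN3q0 pcN1 Cut.none Ext.none :=
  certNK2 (fam := true) (s1 := true) (s2 := false) (a := 1) (b := 0) (c := 1) (cn := .npn) (n1 := ndN1q1) (n2 := ndN3q0) (pc := pcN1) (cut := Cut.none) (xt := Ext.none) (P1 := 536870912) (W1 := 536870912) (P2 := 0) (W2 := 536870912) (P3 := 67108864) (W3 := 67108864) (N0 := 3)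
    rfl rfl rfl (fun _ => rfl) k0_pm_101

noncomputable def f_pm_102 : ℕ → ℕ → ℕ → ℕ → Bool := onCell 536870912 536870912 1073741824 536870912 67108864 67108864
    (rowNK 3 1 true true false .npp 1 0 2 (qsf 536870912 536870912 0 536870912 2) ndN1q1 ndN3q0 pcN2 Cut.none Ext.none)

def k0_pm_102 : ∃ t, chk3 f_pm_102 t 1 1 1 = true :=
  ⟨(a (b (b (a (l 18419720) (b (l 3) (l 17713792))) (b (a (l 18417104) (b (l 18015288) (l 17828848))) (l 18179864))) (l 147743202263)) (b (b (b (l 3) (a (l 16972248) (l 265384982855))) (b (a (b (b (l 16857320) (b (l 16839560) (l 16855768))) (l 16896712)) (b (b (l 17866504) (b (l 17828456) (l 17808472))) (l 17767848))) (a (l 16997472) (l 17745552)))) (a (l 17318880) (b (l 17930688) (l 18351496))))), by decide +kernel⟩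

theorem c_pm_102 : CertN 536870912 536870912 0 536870912 67108864 67108864 3 true true false .npp 1 0 2
    ndN1q1 ndN3q0 pcN2 Cut.none Ext.none :=
  certNK1 (fam := true) (s1 := true) (s2 := false) (a := 1) (b := 0) (c := 2) (cn := .npp) (n1 := ndN1q1) (n2 := ndN3q0) (pc := pcN2) (cut := Cut.none) (xt := Ext.none) (P1 := 536870912) (W1 := 536870912) (P2 := 0) (W2 := 536870912) (P3 := 67108864) (W3 := 67108864) (N0 := 3)
    rfl rfl rfl (fun _ => rfl) k0_pm_102

noncomputable def f_pm_112 : ℕ → ℕ → ℕ → ℕ → Bool := onCell 536870912 536870912 1073741824 536870912 67108864 67108864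
    (rowNK 3 1 true true false .dn 1 1 2 (qsf 536870912 536870912 536870912 536870912 2) ndN1q1 ndN3q1 pcN2 Cut.none Ext.none)

def k0_pm_112 : ∃ t, chk3 f_pm_112 t 1 1 1 = true :=
  ⟨(a (b (b (b (l 3) (l 17802904)) (b (b (b (l 17963000) (l 18275856)) (l 18107872)) (l 18279800))) (b (l 18611440) (l 19056328))) (b (b (l 1) (b (l 1) (l 18205128))) (b (l 18190832) (l 18112544)))), by decide +kernel⟩

theorem c_pm_112 : CertN 536870912 536870912 536870912 536870912 67108864 67108864 3 true true false .dn 1 1 2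
    ndN1q1 ndN3q1 pcN2 Cut.none Ext.none :=
  certNK1 (fam := true) (s1 := true) (s2 := false) (a := 1) (b := 1) (c := 2) (cn := .dn) (n1 := ndN1q1) (n2 := ndN3q1) (pc := pcN2) (cut := Cut.none) (xt := Ext.none) (P1 := 536870912) (W1 := 536870912) (P2 := 536870912) (W2 := 536870912) (P3 := 67108864) (W3 := 67108864) (N0 := 3)
    rfl rfl rfl (fun _ => rfl) k0_pm_112

noncomputable def f_pm_113 : ℕ → ℕ → ℕ → ℕ → Bool := onCell 536870912 536870912 1610612736 536870912 67108864 67108864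
    (rowNK 3 1 true true false .nn 1 1 3 (qsf 536870912 536870912 536870912 536870912 3) ndN1q1 ndN3q1 pcN3 Cut.none Ext.none)

def k0_pm_113 : ∃ t, chk3 f_pm_113 t 1 1 1 = true :=
  ⟨(a (b (b (l 20218248) (b (l 20599912) (l 178350218119))) (b (a (l 2) (l 20264136)) (l 2))) (b (b (a (l 19445952) (b (l 19245280) (l 18958368))) (a (l 19207096) (l 18286840))) (b (b (l 18330352) (l 18313408)) (b (l 18474136) (b (l 18602328) (l 18765008)))))), by decide +kernel⟩

theorem c_pm_113 : CertN 536870912 536870912 536870912 536870912 67108864 67108864 3 true true false .nn 1 1 3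
    ndN1q1 ndN3q1 pcN3 Cut.none Ext.none :=
  certNK1 (fam := true) (s1 := true) (s2 := false) (a := 1) (b := 1) (c := 3) (cn := .nn) (n1 := ndN1q1) (n2 := ndN3q1) (pc := pcN3) (cut := Cut.none) (xt := Ext.none) (P1 := 536870912) (W1 := 536870912) (P2 := 536870912) (W2 := 536870912) (P3 := 67108864) (W3 := 67108864) (N0 := 3)
    rfl rfl rfl (fun _ => rfl) k0_pm_113

noncomputable def f_pm_123 : ℕ → ℕ → ℕ → ℕ → Bool := onCell 1610612736 536870912 1073741824 536870912 67108864 67108864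
    (rowNK 3 2 true true false .npn 1 2 3 (qsf 536870912 536870912 1073741824 536870912 3) ndN1q1 ndN3q2 pcN3 Cut.none Ext.none)

def k0_pm_123 : ∃ t, chk3 f_pm_123 t 1 1 1 = true :=
  ⟨(a (b (a (b (l 18292072) (l 18339192)) (b (a (l 17989304) (l 18022280)) (l 18356840))) (a (l 1) (b (l 18314016) (l 1)))) (a (b (b (a (l 18102992) (l 18040352)) (l 18351840)) (a (l 18281824) (l 18260848))) (a (b (l 17932440) (l 18172088)) (b (a (l 17560992) (a (l 17380808) (b (l 16974944) (l 4)))) (a (l 18052064) (l 4)))))), by decide +kernel⟩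

theorem c_pm_123 : CertN 536870912 536870912 1073741824 536870912 67108864 67108864 3 true true false .npn 1 2 3
    ndN1q1 ndN3q2 pcN3 Cut.none Ext.none :=
  certNK2 (fam := true) (s1 := true) (s2 := false) (a := 1) (b := 2) (c := 3) (cn := .npn) (n1 := ndN1q1) (n2 := ndN3q2) (pc := pcN3) (cut := Cut.none) (xt := Ext.none) (P1 := 536870912) (W1 := 536870912) (P2 := 1073741824) (W2 := 536870912) (P3 := 67108864) (W3 := 67108864) (N0 := 3)
    rfl rfl rfl (fun _ => rfl) k0_pm_123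

noncomputable def f_pm_133 : ℕ → ℕ → ℕ → ℕ → Bool := onCell 536870912 536870912 0 1230186008 67108864 67108864
    (rowNK 3 0 true true false .dn 1 3 3 (qsf 536870912 536870912 0 1230186008 3) ndN1q1 ndN3q3 pcN3 Cut.none Ext.none)

def k0_pm_133 : ∃ t, chk3 f_pm_133 t 1 1 1 = true :=
  ⟨(b (l 2) (b (l 2) (l 4))), by decide +kernel⟩

theorem c_pm_133 : CertN 536870912 536870912 0 1230186008 67108864 67108864 3 true true false .dn 1 3 3
    ndN1q1 ndN3q3 pcN3 Cut.none Ext.none :=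
  certNK0 (fam := true) (s1 := true) (s2 := false) (a := 1) (b := 3) (c := 3) (cn := .dn) (n1 := ndN1q1) (n2 := ndN3q3) (pc := pcN3) (cut := Cut.none) (xt := Ext.none) (P1 := 536870912) (W1 := 536870912) (P2 := 0) (W2 := 1230186008) (P3 := 67108864) (W3 := 67108864) (N0 := 3)
    rfl rfl rfl k0_pm_133

noncomputable def f_pm_202_a : ℕ → ℕ → ℕ → ℕ → Bool := onCell 0 536870912 1073741824 536870912 67108864 67108864
    (rowNK 3 1 true true false .pp 2 0 2 (qsf 0 536870912 0 536870912 2) ndN1q2a ndN3q0 pcN2 Cut.none Ext.none)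

def k0_pm_202_a : ∃ t, chk3 f_pm_202_a t 1 1 1 = true :=
  ⟨(a (b (b (b (l 1) (l 19047936)) (l 18599048)) (b (l 18006968) (l 17613000))) (b (a (b (b (l 1) (l 18962056)) (l 18475736)) (b (b (b (l 19295744) (l 19103824)) (l 18821256)) (l 18264664))) (b (l 17745304) (l 17691320)))), by decide +kernel⟩

theorem c_pm_202_a : CertN 0 536870912 0 536870912 67108864 67108864 3 true true false .pp 2 0 2
    ndN1q2a ndN3q0 pcN2 Cut.none Ext.none :=
  certNK1 (fam := true) (s1 := true) (s2 := false) (a := 2) (b := 0) (c := 2) (cn := .pp) (n1 := ndN1q2a) (n2 := ndN3q0) (pc := pcN2) (cut := Cut.none) (xt := Ext.none) (P1 := 0) (W1 := 536870912) (P2 := 0) (W2 := 536870912) (P3 := 67108864) (W3 := 67108864) (N0 := 3)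
    rfl rfl rfl (fun _ => rfl) k0_pm_202_a

noncomputable def f_pm_202_b : ℕ → ℕ → ℕ → ℕ → Bool := onCell 1073741824 536870912 0 536870912 67108864 67108864
    (rowNK 3 2 true true false .pp 2 0 2 (qsf 1239849684 370763052 0 536870912 2) ndN1q2b ndN3q0 pcN2 Cut.none Ext.none)

def k0_pm_202_b : ∃ t, chk3 f_pm_202_b t 1 1 1 = true :=
  ⟨(a (b (a (l 1) (b (l 18598832) (l 1))) (l 1)) (a (b (b (l 18303856) (l 17979320)) (l 1)) (b (l 17852704) (l 416110395191)))), by decide +kernel⟩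

theorem c_pm_202_b : CertN 1239849684 370763052 0 536870912 67108864 67108864 3 true true false .pp 2 0 2
    ndN1q2b ndN3q0 pcN2 Cut.none Ext.none :=
  certNK2 (fam := true) (s1 := true) (s2 := false) (a := 2) (b := 0) (c := 2) (cn := .pp) (n1 := ndN1q2b) (n2 := ndN3q0) (pc := pcN2) (cut := Cut.none) (xt := Ext.none) (P1 := 1239849684) (W1 := 370763052) (P2 := 0) (W2 := 536870912) (P3 := 67108864) (W3 := 67108864) (N0 := 3)
    rfl rfl rfl (fun _ => rfl) k0_pm_202_b

noncomputable def f_pm_203_a : ℕ → ℕ → ℕ → ℕ → Bool := onCell 0 536870912 1610612736 536870912 67108864 67108864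
    (rowNK 3 1 true true false .up 2 0 3 (qsf 0 536870912 0 536870912 3) ndN1q2a ndN3q0 pcN3 Cut.none Ext.none)

def k0_pm_203_a : ∃ t, chk3 f_pm_203_a t 1 1 1 = true :=
  ⟨(b (b (a (l 17801752) (l 18033104)) (b (l 18076960) (l 4))) (l 2)), by decide +kernel⟩

theorem c_pm_203_a : CertN 0 536870912 0 536870912 67108864 67108864 3 true true false .up 2 0 3
    ndN1q2a ndN3q0 pcN3 Cut.none Ext.none :=
  certNK1 (fam := true) (s1 := true) (s2 := false) (a := 2) (b := 0) (c := 3) (cn := .up) (n1 := ndN1q2a) (n2 := ndN3q0) (pc := pcN3) (cut := Cut.none) (xt := Ext.none) (P1 := 0) (W1 := 536870912) (P2 := 0) (W2 := 536870912) (P3 := 67108864) (W3 := 67108864) (N0 := 3)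
    rfl rfl rfl (fun _ => rfl) k0_pm_203_a

noncomputable def f_pm_203_b : ℕ → ℕ → ℕ → ℕ → Bool := onCell 1239849684 370763052 1610612736 536870912 67108864 67108864
    (rowNK 3 1 true true false .up 2 0 3 (qsf 1239849684 370763052 0 536870912 3) ndN1q2b ndN3q0 pcN3 Cut.none Ext.none)

def k0_pm_203_b : ∃ t, chk3 f_pm_203_b t 1 1 1 = true :=
  ⟨(b (b (b (a (l 17631304) (l 17511648)) (l 4)) (l 4)) (l 4)), by decide +kernel⟩

theorem c_pm_203_b : CertN 1239849684 370763052 0 536870912 67108864 67108864 3 true true false .up 2 0 3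
    ndN1q2b ndN3q0 pcN3 Cut.none Ext.none :=
  certNK1 (fam := true) (s1 := true) (s2 := false) (a := 2) (b := 0) (c := 3) (cn := .up) (n1 := ndN1q2b) (n2 := ndN3q0) (pc := pcN3) (cut := Cut.none) (xt := Ext.none) (P1 := 1239849684) (W1 := 370763052) (P2 := 0) (W2 := 536870912) (P3 := 67108864) (W3 := 67108864) (N0 := 3)
    rfl rfl rfl (fun _ => rfl) k0_pm_203_b

noncomputable def f_pm_213_a : ℕ → ℕ → ℕ → ℕ → Bool := onCell 0 536870912 1610612736 536870912 67108864 67108864
    (rowNK 3 1 true true false .pnn 2 1 3 (qsf 0 536870912 536870912 536870912 3) ndN1q2a ndN3q1 pcN3 Cut.none Ext.none)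

def k0_pm_213_a : ∃ t, chk3 f_pm_213_a t 1 1 1 = true :=
  ⟨(b (b (b (l 18113992) (l 18116080)) (b (l 18058072) (l 4))) (l 4)), by decide +kernel⟩

theorem c_pm_213_a : CertN 0 536870912 536870912 536870912 67108864 67108864 3 true true false .pnn 2 1 3
    ndN1q2a ndN3q1 pcN3 Cut.none Ext.none :=
  certNK1 (fam := true) (s1 := true) (s2 := false) (a := 2) (b := 1) (c := 3) (cn := .pnn) (n1 := ndN1q2a) (n2 := ndN3q1) (pc := pcN3) (cut := Cut.none) (xt := Ext.none) (P1 := 0) (W1 := 536870912) (P2 := 536870912) (W2 := 536870912) (P3 := 67108864) (W3 := 67108864) (N0 := 3)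
    rfl rfl rfl (fun _ => rfl) k0_pm_213_a

noncomputable def f_pm_213_b : ℕ → ℕ → ℕ → ℕ → Bool := onCell 1239849684 370763052 536870912 536870912 67108864 67108864
    (rowNK 3 0 true true false .pnn 2 1 3 (qsf 1239849684 370763052 536870912 536870912 3) ndN1q2b ndN3q1 pcN3 Cut.none Ext.none)

def k0_pm_213_b : ∃ t, chk3 f_pm_213_b t 1 1 1 = true :=
  ⟨(l 4), by decide +kernel⟩

theorem c_pm_213_b : CertN 1239849684 370763052 536870912 536870912 67108864 67108864 3 true true false .pnn 2 1 3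
    ndN1q2b ndN3q1 pcN3 Cut.none Ext.none :=
  certNK0 (fam := true) (s1 := true) (s2 := false) (a := 2) (b := 1) (c := 3) (cn := .pnn) (n1 := ndN1q2b) (n2 := ndN3q1) (pc := pcN3) (cut := Cut.none) (xt := Ext.none) (P1 := 1239849684) (W1 := 370763052) (P2 := 536870912) (W2 := 536870912) (P3 := 67108864) (W3 := 67108864) (N0 := 3)
    rfl rfl rfl k0_pm_213_b

noncomputable def f_pm_303 : ℕ → ℕ → ℕ → ℕ → Bool := onCell 1610612736 536870912 0 536870912 67108864 67108864
    (rowNK 3 2 true true false .npn 3 0 3 (qsf 1610612736 536870912 0 536870912 3) ndN1q3 ndN3q0 pcN3 Cut.none Ext.none)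

def k0_pm_303 : ∃ t, chk3 f_pm_303 t 1 1 1 = true :=
  ⟨(a (b (a (a (l 17071832) (l 16954648)) (l 4)) (l 4)) (l 4)), by decide +kernel⟩

theorem c_pm_303 : CertN 1610612736 536870912 0 536870912 67108864 67108864 3 true true false .npn 3 0 3
    ndN1q3 ndN3q0 pcN3 Cut.none Ext.none :=
  certNK2 (fam := true) (s1 := true) (s2 := false) (a := 3) (b := 0) (c := 3) (cn := .npn) (n1 := ndN1q3) (n2 := ndN3q0) (pc := pcN3) (cut := Cut.none) (xt := Ext.none) (P1 := 1610612736) (W1 := 536870912) (P2 := 0) (W2 := 536870912) (P3 := 67108864) (W3 := 67108864) (N0 := 3)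
    rfl rfl rfl (fun _ => rfl) k0_pm_303

noncomputable def f_pm_313 : ℕ → ℕ → ℕ → ℕ → Bool := onCell 1610612736 536870912 536870912 536870912 67108864 67108864
    (rowNK 3 0 true true false .dn 3 1 3 (qsf 1610612736 536870912 536870912 536870912 3) ndN1q3 ndN3q1 pcN3 Cut.none Ext.none)

def k0_pm_313 : ∃ t, chk3 f_pm_313 t 1 1 1 = true :=
  ⟨(l 4), by decide +kernel⟩

theorem c_pm_313 : CertN 1610612736 536870912 536870912 536870912 67108864 67108864 3 true true false .dn 3 1 3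
    ndN1q3 ndN3q1 pcN3 Cut.none Ext.none :=
  certNK0 (fam := true) (s1 := true) (s2 := false) (a := 3) (b := 1) (c := 3) (cn := .dn) (n1 := ndN1q3) (n2 := ndN3q1) (pc := pcN3) (cut := Cut.none) (xt := Ext.none) (P1 := 1610612736) (W1 := 536870912) (P2 := 536870912) (W2 := 536870912) (P3 := 67108864) (W3 := 67108864) (N0 := 3)
    rfl rfl rfl k0_pm_313

noncomputable def f_mm_001 : ℕ → ℕ → ℕ → ℕ → Bool := onCell 0 536870912 0 536870912 67108864 67108864
    (rowNK 3 0 true false false .up 0 0 1 (qsf 0 536870912 0 536870912 1) ndN1q0 ndN3q0 pcN1 Cut.none Ext.none)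

def k0_mm_001 : ∃ t, chk3 f_mm_001 t 1 1 1 = true :=
  ⟨(l 4), by decide +kernel⟩

theorem c_mm_001 : CertN 0 536870912 0 536870912 67108864 67108864 3 true false false .up 0 0 1
    ndN1q0 ndN3q0 pcN1 Cut.none Ext.none :=
  certNK0 (fam := true) (s1 := false) (s2 := false) (a := 0) (b := 0) (c := 1) (cn := .up) (n1 := ndN1q0) (n2 := ndN3q0) (pc := pcN1) (cut := Cut.none) (xt := Ext.none) (P1 := 0) (W1 := 536870912) (P2 := 0) (W2 := 536870912) (P3 := 67108864) (W3 := 67108864) (N0 := 3)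
    rfl rfl rfl k0_mm_001

noncomputable def f_mm_011 : ℕ → ℕ → ℕ → ℕ → Bool := onCell 0 536870912 536870912 536870912 67108864 67108864
    (rowNK 3 0 true false false .pnn 0 1 1 (qsf 0 536870912 536870912 536870912 1) ndN1q0 ndN3q1 pcN1 Cut.none Ext.none)

def k0_mm_011 : ∃ t, chk3 f_mm_011 t 1 1 1 = true :=
  ⟨(l 4), by decide +kernel⟩

theorem c_mm_011 : CertN 0 536870912 536870912 536870912 67108864 67108864 3 true false false .pnn 0 1 1
    ndN1q0 ndN3q1 pcN1 Cut.none Ext.none :=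
  certNK0 (fam := true) (s1 := false) (s2 := false) (a := 0) (b := 1) (c := 1) (cn := .pnn) (n1 := ndN1q0) (n2 := ndN3q1) (pc := pcN1) (cut := Cut.none) (xt := Ext.none) (P1 := 0) (W1 := 536870912) (P2 := 536870912) (W2 := 536870912) (P3 := 67108864) (W3 := 67108864) (N0 := 3)
    rfl rfl rfl k0_mm_011

noncomputable def f_mm_012 : ℕ → ℕ → ℕ → ℕ → Bool := onCell 0 536870912 536870912 536870912 67108864 67108864
    (rowNK 3 0 true false false .pnp 0 1 2 (qsf 0 536870912 536870912 536870912 2) ndN1q0 ndN3q1 pcN2 Cut.none Ext.none)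

def k0_mm_012 : ∃ t, chk3 f_mm_012 t 1 1 1 = true :=
  ⟨(l 4), by decide +kernel⟩

theorem c_mm_012 : CertN 0 536870912 536870912 536870912 67108864 67108864 3 true false false .pnp 0 1 2
    ndN1q0 ndN3q1 pcN2 Cut.none Ext.none :=
  certNK0 (fam := true) (s1 := false) (s2 := false) (a := 0) (b := 1) (c := 2) (cn := .pnp) (n1 := ndN1q0) (n2 := ndN3q1) (pc := pcN2) (cut := Cut.none) (xt := Ext.none) (P1 := 0) (W1 := 536870912) (P2 := 536870912) (W2 := 536870912) (P3 := 67108864) (W3 := 67108864) (N0 := 3)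
    rfl rfl rfl k0_mm_012

noncomputable def f_mm_022 : ℕ → ℕ → ℕ → ℕ → Bool := onCell 0 536870912 1073741824 536870912 67108864 67108864
    (rowNK 3 0 true false false .pp 0 2 2 (qsf 0 536870912 1073741824 536870912 2) ndN1q0 ndN3q2 pcN2 Cut.none Ext.none)

def k0_mm_022 : ∃ t, chk3 f_mm_022 t 1 1 1 = true :=
  ⟨(l 4), by decide +kernel⟩

theorem c_mm_022 : CertN 0 536870912 1073741824 536870912 67108864 67108864 3 true false false .pp 0 2 2
    ndN1q0 ndN3q2 pcN2 Cut.none Ext.none :=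
  certNK0 (fam := true) (s1 := false) (s2 := false) (a := 0) (b := 2) (c := 2) (cn := .pp) (n1 := ndN1q0) (n2 := ndN3q2) (pc := pcN2) (cut := Cut.none) (xt := Ext.none) (P1 := 0) (W1 := 536870912) (P2 := 1073741824) (W2 := 536870912) (P3 := 67108864) (W3 := 67108864) (N0 := 3)
    rfl rfl rfl k0_mm_022

noncomputable def f_mm_023 : ℕ → ℕ → ℕ → ℕ → Bool := onCell 0 536870912 1073741824 536870912 67108864 67108864
    (rowNK 3 0 true false false .up 0 2 3 (qsf 0 536870912 1073741824 536870912 3) ndN1q0 ndN3q2 pcN3 Cut.none Ext.none)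

def k0_mm_023 : ∃ t, chk3 f_mm_023 t 1 1 1 = true :=
  ⟨(l 4), by decide +kernel⟩

theorem c_mm_023 : CertN 0 536870912 1073741824 536870912 67108864 67108864 3 true false false .up 0 2 3
    ndN1q0 ndN3q2 pcN3 Cut.none Ext.none :=
  certNK0 (fam := true) (s1 := false) (s2 := false) (a := 0) (b := 2) (c := 3) (cn := .up) (n1 := ndN1q0) (n2 := ndN3q2) (pc := pcN3) (cut := Cut.none) (xt := Ext.none) (P1 := 0) (W1 := 536870912) (P2 := 1073741824) (W2 := 536870912) (P3 := 67108864) (W3 := 67108864) (N0 := 3)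
    rfl rfl rfl k0_mm_023

noncomputable def f_mm_033 : ℕ → ℕ → ℕ → ℕ → Bool := onCell 0 536870912 0 1230186008 67108864 67108864
    (rowNK 3 0 true false false .pnn 0 3 3 (qsf 0 536870912 0 1230186008 3) ndN1q0 ndN3q3 pcN3 Cut.none Ext.none)

def k0_mm_033 : ∃ t, chk3 f_mm_033 t 1 1 1 = true :=
  ⟨(l 5), by decide +kernel⟩

theorem c_mm_033 : CertN 0 536870912 0 1230186008 67108864 67108864 3 true false false .pnn 0 3 3
    ndN1q0 ndN3q3 pcN3 Cut.none Ext.none :=
  certNK0 (fam := true) (s1 := false) (s2 := false) (a := 0) (b := 3) (c := 3) (cn := .pnn) (n1 := ndN1q0) (n2 := ndN3q3) (pc := pcN3) (cut := Cut.none) (xt := Ext.none) (P1 := 0) (W1 := 536870912) (P2 := 0) (W2 := 1230186008) (P3 := 67108864) (W3 := 67108864) (N0 := 3)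
    rfl rfl rfl k0_mm_033

noncomputable def f_mm_101 : ℕ → ℕ → ℕ → ℕ → Bool := onCell 536870912 536870912 0 536870912 67108864 67108864
    (rowNK 3 0 true false false .npn 1 0 1 (qsf 536870912 536870912 0 536870912 1) ndN1q1 ndN3q0 pcN1 Cut.none Ext.none)

def k0_mm_101 : ∃ t, chk3 f_mm_101 t 1 1 1 = true :=
  ⟨(l 4), by decide +kernel⟩

theorem c_mm_101 : CertN 536870912 536870912 0 536870912 67108864 67108864 3 true false false .npn 1 0 1
    ndN1q1 ndN3q0 pcN1 Cut.none Ext.none :=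
  certNK0 (fam := true) (s1 := false) (s2 := false) (a := 1) (b := 0) (c := 1) (cn := .npn) (n1 := ndN1q1) (n2 := ndN3q0) (pc := pcN1) (cut := Cut.none) (xt := Ext.none) (P1 := 536870912) (W1 := 536870912) (P2 := 0) (W2 := 536870912) (P3 := 67108864) (W3 := 67108864) (N0 := 3)
    rfl rfl rfl k0_mm_101

noncomputable def f_mm_102 : ℕ → ℕ → ℕ → ℕ → Bool := onCell 536870912 536870912 0 536870912 67108864 67108864
    (rowNK 3 0 true false false .npp 1 0 2 (qsf 536870912 536870912 0 536870912 2) ndN1q1 ndN3q0 pcN2 Cut.none Ext.none)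

def k0_mm_102 : ∃ t, chk3 f_mm_102 t 1 1 1 = true :=
  ⟨(l 4), by decide +kernel⟩

theorem c_mm_102 : CertN 536870912 536870912 0 536870912 67108864 67108864 3 true false false .npp 1 0 2
    ndN1q1 ndN3q0 pcN2 Cut.none Ext.none :=
  certNK0 (fam := true) (s1 := false) (s2 := false) (a := 1) (b := 0) (c := 2) (cn := .npp) (n1 := ndN1q1) (n2 := ndN3q0) (pc := pcN2) (cut := Cut.none) (xt := Ext.none) (P1 := 536870912) (W1 := 536870912) (P2 := 0) (W2 := 536870912) (P3 := 67108864) (W3 := 67108864) (N0 := 3)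
    rfl rfl rfl k0_mm_102

noncomputable def f_mm_112 : ℕ → ℕ → ℕ → ℕ → Bool := onCell 536870912 536870912 536870912 536870912 67108864 67108864
    (rowNK 3 0 true false false .dn 1 1 2 (qsf 536870912 536870912 536870912 536870912 2) ndN1q1 ndN3q1 pcN2 Cut.none Ext.none)

def k0_mm_112 : ∃ t, chk3 f_mm_112 t 1 1 1 = true :=
  ⟨(l 4), by decide +kernel⟩

theorem c_mm_112 : CertN 536870912 536870912 536870912 536870912 67108864 67108864 3 true false false .dn 1 1 2
    ndN1q1 ndN3q1 pcN2 Cut.none Ext.none :=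
  certNK0 (fam := true) (s1 := false) (s2 := false) (a := 1) (b := 1) (c := 2) (cn := .dn) (n1 := ndN1q1) (n2 := ndN3q1) (pc := pcN2) (cut := Cut.none) (xt := Ext.none) (P1 := 536870912) (W1 := 536870912) (P2 := 536870912) (W2 := 536870912) (P3 := 67108864) (W3 := 67108864) (N0 := 3)
    rfl rfl rfl k0_mm_112

noncomputable def f_mm_113 : ℕ → ℕ → ℕ → ℕ → Bool := onCell 536870912 536870912 536870912 536870912 67108864 67108864
    (rowNK 3 0 true false false .nn 1 1 3 (qsf 536870912 536870912 536870912 536870912 3) ndN1q1 ndN3q1 pcN3 Cut.none Ext.none)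

def k0_mm_113 : ∃ t, chk3 f_mm_113 t 1 1 1 = true :=
  ⟨(l 4), by decide +kernel⟩

theorem c_mm_113 : CertN 536870912 536870912 536870912 536870912 67108864 67108864 3 true false false .nn 1 1 3
    ndN1q1 ndN3q1 pcN3 Cut.none Ext.none :=
  certNK0 (fam := true) (s1 := false) (s2 := false) (a := 1) (b := 1) (c := 3) (cn := .nn) (n1 := ndN1q1) (n2 := ndN3q1) (pc := pcN3) (cut := Cut.none) (xt := Ext.none) (P1 := 536870912) (W1 := 536870912) (P2 := 536870912) (W2 := 536870912) (P3 := 67108864) (W3 := 67108864) (N0 := 3)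
    rfl rfl rfl k0_mm_113

noncomputable def f_mm_123 : ℕ → ℕ → ℕ → ℕ → Bool := onCell 536870912 536870912 1073741824 536870912 67108864 67108864
    (rowNK 3 0 true false false .npn 1 2 3 (qsf 536870912 536870912 1073741824 536870912 3) ndN1q1 ndN3q2 pcN3 Cut.none Ext.none)

def k0_mm_123 : ∃ t, chk3 f_mm_123 t 1 1 1 = true :=
  ⟨(l 4), by decide +kernel⟩

theorem c_mm_123 : CertN 536870912 536870912 1073741824 536870912 67108864 67108864 3 true false false .npn 1 2 3
    ndN1q1 ndN3q2 pcN3 Cut.none Ext.none :=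
  certNK0 (fam := true) (s1 := false) (s2 := false) (a := 1) (b := 2) (c := 3) (cn := .npn) (n1 := ndN1q1) (n2 := ndN3q2) (pc := pcN3) (cut := Cut.none) (xt := Ext.none) (P1 := 536870912) (W1 := 536870912) (P2 := 1073741824) (W2 := 536870912) (P3 := 67108864) (W3 := 67108864) (N0 := 3)
    rfl rfl rfl k0_mm_123

noncomputable def f_mm_133 : ℕ → ℕ → ℕ → ℕ → Bool := onCell 536870912 536870912 0 1230186008 67108864 67108864
    (rowNK 3 0 true false false .dn 1 3 3 (qsf 536870912 536870912 0 1230186008 3) ndN1q1 ndN3q3 pcN3 Cut.none Ext.none)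

def k0_mm_133 : ∃ t, chk3 f_mm_133 t 1 1 1 = true :=
  ⟨(l 4), by decide +kernel⟩

theorem c_mm_133 : CertN 536870912 536870912 0 1230186008 67108864 67108864 3 true false false .dn 1 3 3
    ndN1q1 ndN3q3 pcN3 Cut.none Ext.none :=
  certNK0 (fam := true) (s1 := false) (s2 := false) (a := 1) (b := 3) (c := 3) (cn := .dn) (n1 := ndN1q1) (n2 := ndN3q3) (pc := pcN3) (cut := Cut.none) (xt := Ext.none) (P1 := 536870912) (W1 := 536870912) (P2 := 0) (W2 := 1230186008) (P3 := 67108864) (W3 := 67108864) (N0 := 3)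
    rfl rfl rfl k0_mm_133

noncomputable def f_mm_202_a : ℕ → ℕ → ℕ → ℕ → Bool := onCell 0 536870912 0 536870912 67108864 67108864
    (rowNK 3 0 true false false .pp 2 0 2 (qsf 0 536870912 0 536870912 2) ndN1q2a ndN3q0 pcN2 Cut.none Ext.none)

def k0_mm_202_a : ∃ t, chk3 f_mm_202_a t 1 1 1 = true :=
  ⟨(l 4), by decide +kernel⟩

theorem c_mm_202_a : CertN 0 536870912 0 536870912 67108864 67108864 3 true false false .pp 2 0 2
    ndN1q2a ndN3q0 pcN2 Cut.none Ext.none :=
  certNK0 (fam := true) (s1 := false) (s2 := false) (a := 2) (b := 0) (c := 2) (cn := .pp) (n1 := ndN1q2a) (n2 := ndN3q0) (pc := pcN2) (cut := Cut.none) (xt := Ext.none) (P1 := 0) (W1 := 536870912) (P2 := 0) (W2 := 536870912) (P3 := 67108864) (W3 := 67108864) (N0 := 3)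
    rfl rfl rfl k0_mm_202_a

noncomputable def f_mm_202_b : ℕ → ℕ → ℕ → ℕ → Bool := onCell 1239849684 370763052 0 536870912 67108864 67108864
    (rowNK 3 0 true false false .pp 2 0 2 (qsf 1239849684 370763052 0 536870912 2) ndN1q2b ndN3q0 pcN2 Cut.none Ext.none)

def k0_mm_202_b : ∃ t, chk3 f_mm_202_b t 1 1 1 = true :=
  ⟨(l 4), by decide +kernel⟩

theorem c_mm_202_b : CertN 1239849684 370763052 0 536870912 67108864 67108864 3 true false false .pp 2 0 2
    ndN1q2b ndN3q0 pcN2 Cut.none Ext.none :=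
  certNK0 (fam := true) (s1 := false) (s2 := false) (a := 2) (b := 0) (c := 2) (cn := .pp) (n1 := ndN1q2b) (n2 := ndN3q0) (pc := pcN2) (cut := Cut.none) (xt := Ext.none) (P1 := 1239849684) (W1 := 370763052) (P2 := 0) (W2 := 536870912) (P3 := 67108864) (W3 := 67108864) (N0 := 3)
    rfl rfl rfl k0_mm_202_b

noncomputable def f_mm_203_a : ℕ → ℕ → ℕ → ℕ → Bool := onCell 0 536870912 0 536870912 67108864 67108864
    (rowNK 3 0 true false false .up 2 0 3 (qsf 0 536870912 0 536870912 3) ndN1q2a ndN3q0 pcN3 Cut.none Ext.none)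

def k0_mm_203_a : ∃ t, chk3 f_mm_203_a t 1 1 1 = true :=
  ⟨(l 4), by decide +kernel⟩

theorem c_mm_203_a : CertN 0 536870912 0 536870912 67108864 67108864 3 true false false .up 2 0 3
    ndN1q2a ndN3q0 pcN3 Cut.none Ext.none :=
  certNK0 (fam := true) (s1 := false) (s2 := false) (a := 2) (b := 0) (c := 3) (cn := .up) (n1 := ndN1q2a) (n2 := ndN3q0) (pc := pcN3) (cut := Cut.none) (xt := Ext.none) (P1 := 0) (W1 := 536870912) (P2 := 0) (W2 := 536870912) (P3 := 67108864) (W3 := 67108864) (N0 := 3)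
    rfl rfl rfl k0_mm_203_a

noncomputable def f_mm_203_b : ℕ → ℕ → ℕ → ℕ → Bool := onCell 1239849684 370763052 0 536870912 67108864 67108864
    (rowNK 3 0 true false false .up 2 0 3 (qsf 1239849684 370763052 0 536870912 3) ndN1q2b ndN3q0 pcN3 Cut.none Ext.none)

def k0_mm_203_b : ∃ t, chk3 f_mm_203_b t 1 1 1 = true :=
  ⟨(l 4), by decide +kernel⟩

theorem c_mm_203_b : CertN 1239849684 370763052 0 536870912 67108864 67108864 3 true false false .up 2 0 3
    ndN1q2b ndN3q0 pcN3 Cut.none Ext.none :=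
  certNK0 (fam := true) (s1 := false) (s2 := false) (a := 2) (b := 0) (c := 3) (cn := .up) (n1 := ndN1q2b) (n2 := ndN3q0) (pc := pcN3) (cut := Cut.none) (xt := Ext.none) (P1 := 1239849684) (W1 := 370763052) (P2 := 0) (W2 := 536870912) (P3 := 67108864) (W3 := 67108864) (N0 := 3)
    rfl rfl rfl k0_mm_203_b

noncomputable def f_mm_213_a : ℕ → ℕ → ℕ → ℕ → Bool := onCell 0 536870912 536870912 536870912 67108864 67108864
    (rowNK 3 0 true false false .pnn 2 1 3 (qsf 0 536870912 536870912 536870912 3) ndN1q2a ndN3q1 pcN3 Cut.none Ext.none)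

def k0_mm_213_a : ∃ t, chk3 f_mm_213_a t 1 1 1 = true :=
  ⟨(l 4), by decide +kernel⟩

theorem c_mm_213_a : CertN 0 536870912 536870912 536870912 67108864 67108864 3 true false false .pnn 2 1 3
    ndN1q2a ndN3q1 pcN3 Cut.none Ext.none :=
  certNK0 (fam := true) (s1 := false) (s2 := false) (a := 2) (b := 1) (c := 3) (cn := .pnn) (n1 := ndN1q2a) (n2 := ndN3q1) (pc := pcN3) (cut := Cut.none) (xt := Ext.none) (P1 := 0) (W1 := 536870912) (P2 := 536870912) (W2 := 536870912) (P3 := 67108864) (W3 := 67108864) (N0 := 3)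
    rfl rfl rfl k0_mm_213_a

noncomputable def f_mm_213_b : ℕ → ℕ → ℕ → ℕ → Bool := onCell 1239849684 370763052 536870912 536870912 67108864 67108864
    (rowNK 3 0 true false false .pnn 2 1 3 (qsf 1239849684 370763052 536870912 536870912 3) ndN1q2b ndN3q1 pcN3 Cut.none Ext.none)

def k0_mm_213_b : ∃ t, chk3 f_mm_213_b t 1 1 1 = true :=
  ⟨(l 4), by decide +kernel⟩

theorem c_mm_213_b : CertN 1239849684 370763052 536870912 536870912 67108864 67108864 3 true false false .pnn 2 1 3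
    ndN1q2b ndN3q1 pcN3 Cut.none Ext.none :=
  certNK0 (fam := true) (s1 := false) (s2 := false) (a := 2) (b := 1) (c := 3) (cn := .pnn) (n1 := ndN1q2b) (n2 := ndN3q1) (pc := pcN3) (cut := Cut.none) (xt := Ext.none) (P1 := 1239849684) (W1 := 370763052) (P2 := 536870912) (W2 := 536870912) (P3 := 67108864) (W3 := 67108864) (N0 := 3)
    rfl rfl rfl k0_mm_213_b

noncomputable def f_mm_303 : ℕ → ℕ → ℕ → ℕ → Bool := onCell 1610612736 536870912 0 536870912 67108864 67108864
    (rowNK 3 0 true false false .npn 3 0 3 (qsf 1610612736 536870912 0 536870912 3) ndN1q3 ndN3q0 pcN3 Cut.none Ext.none)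

def k0_mm_303 : ∃ t, chk3 f_mm_303 t 1 1 1 = true :=
  ⟨(l 4), by decide +kernel⟩

theorem c_mm_303 : CertN 1610612736 536870912 0 536870912 67108864 67108864 3 true false false .npn 3 0 3
    ndN1q3 ndN3q0 pcN3 Cut.none Ext.none :=
  certNK0 (fam := true) (s1 := false) (s2 := false) (a := 3) (b := 0) (c := 3) (cn := .npn) (n1 := ndN1q3) (n2 := ndN3q0) (pc := pcN3) (cut := Cut.none) (xt := Ext.none) (P1 := 1610612736) (W1 := 536870912) (P2 := 0) (W2 := 536870912) (P3 := 67108864) (W3 := 67108864) (N0 := 3)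
    rfl rfl rfl k0_mm_303

noncomputable def f_mm_313 : ℕ → ℕ → ℕ → ℕ → Bool := onCell 1610612736 536870912 536870912 536870912 67108864 67108864
    (rowNK 3 0 true false false .dn 3 1 3 (qsf 1610612736 536870912 536870912 536870912 3) ndN1q3 ndN3q1 pcN3 Cut.none Ext.none)

def k0_mm_313 : ∃ t, chk3 f_mm_313 t 1 1 1 = true :=
  ⟨(l 4), by decide +kernel⟩

theorem c_mm_313 : CertN 1610612736 536870912 536870912 536870912 67108864 67108864 3 true false false .dn 3 1 3
    ndN1q3 ndN3q1 pcN3 Cut.none Ext.none :=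
  certNK0 (fam := true) (s1 := false) (s2 := false) (a := 3) (b := 1) (c := 3) (cn := .dn) (n1 := ndN1q3) (n2 := ndN3q1) (pc := pcN3) (cut := Cut.none) (xt := Ext.none) (P1 := 1610612736) (W1 := 536870912) (P2 := 536870912) (W2 := 536870912) (P3 := 67108864) (W3 := 67108864) (N0 := 3)
    rfl rfl rfl k0_mm_313

end Pool.Agent.Strip051.G.I1_16_1_8.Tab.C.NA13

namespace Pool.Agent.Strip051.G.I1_16_1_8.Tab.C.NA14

open Pool.Agent.Strip051.PB Pool.Agent.Strip051.PB.T
open Pool.Agent.Strip051.G.I1_16_1_8.Tab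

noncomputable def f_pp_001 : ℕ → ℕ → ℕ → ℕ → Bool := onCell 0 536870912 0 536870912 67108864 67108864
    (rowNK 3 0 true true true .up 0 0 1 (qsf 0 536870912 0 536870912 1) ndN1q0 ndN4q0 pcN1 Cut.none Ext.none)

def k0_pp_001 : ∃ t, chk3 f_pp_001 t 1 1 1 = true :=
  ⟨(l 4), by decide +kernel⟩

theorem c_pp_001 : CertN 0 536870912 0 536870912 67108864 67108864 3 true true true .up 0 0 1
    ndN1q0 ndN4q0 pcN1 Cut.none Ext.none :=
  certNK0 (fam := true) (s1 := true) (s2 := true) (a := 0) (b := 0) (c := 1) (cn := .up) (n1 := ndN1q0) (n2 := ndN4q0) (pc := pcN1) (cut := Cut.none) (xt := Ext.none) (P1 := 0) (W1 := 536870912) (P2 := 0) (W2 := 536870912) (P3 := 67108864) (W3 := 67108864) (N0 := 3)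
    rfl rfl rfl k0_pp_001

noncomputable def f_pp_011 : ℕ → ℕ → ℕ → ℕ → Bool := onCell 0 536870912 536870912 536870912 67108864 67108864
    (rowNK 3 0 true true true .pnn 0 1 1 (qsf 0 536870912 536870912 536870912 1) ndN1q0 ndN4q1 pcN1 Cut.none Ext.none)

def k0_pp_011 : ∃ t, chk3 f_pp_011 t 1 1 1 = true :=
  ⟨(l 4), by decide +kernel⟩

theorem c_pp_011 : CertN 0 536870912 536870912 536870912 67108864 67108864 3 true true true .pnn 0 1 1
    ndN1q0 ndN4q1 pcN1 Cut.none Ext.none :=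
  certNK0 (fam := true) (s1 := true) (s2 := true) (a := 0) (b := 1) (c := 1) (cn := .pnn) (n1 := ndN1q0) (n2 := ndN4q1) (pc := pcN1) (cut := Cut.none) (xt := Ext.none) (P1 := 0) (W1 := 536870912) (P2 := 536870912) (W2 := 536870912) (P3 := 67108864) (W3 := 67108864) (N0 := 3)
    rfl rfl rfl k0_pp_011

noncomputable def f_pp_012 : ℕ → ℕ → ℕ → ℕ → Bool := onCell 0 536870912 536870912 536870912 67108864 67108864
    (rowNK 3 0 true true true .pnp 0 1 2 (qsf 0 536870912 536870912 536870912 2) ndN1q0 ndN4q1 pcN2 Cut.none Ext.none)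

def k0_pp_012 : ∃ t, chk3 f_pp_012 t 1 1 1 = true :=
  ⟨(l 4), by decide +kernel⟩

theorem c_pp_012 : CertN 0 536870912 536870912 536870912 67108864 67108864 3 true true true .pnp 0 1 2
    ndN1q0 ndN4q1 pcN2 Cut.none Ext.none :=
  certNK0 (fam := true) (s1 := true) (s2 := true) (a := 0) (b := 1) (c := 2) (cn := .pnp) (n1 := ndN1q0) (n2 := ndN4q1) (pc := pcN2) (cut := Cut.none) (xt := Ext.none) (P1 := 0) (W1 := 536870912) (P2 := 536870912) (W2 := 536870912) (P3 := 67108864) (W3 := 67108864) (N0 := 3)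
    rfl rfl rfl k0_pp_012

noncomputable def f_pp_022 : ℕ → ℕ → ℕ → ℕ → Bool := onCell 0 536870912 1073741824 536870912 67108864 67108864
    (rowNK 3 0 true true true .pp 0 2 2 (qsf 0 536870912 1073741824 536870912 2) ndN1q0 ndN4q2 pcN2 Cut.none Ext.none)

def k0_pp_022 : ∃ t, chk3 f_pp_022 t 1 1 1 = true :=
  ⟨(l 4), by decide +kernel⟩

theorem c_pp_022 : CertN 0 536870912 1073741824 536870912 67108864 67108864 3 true true true .pp 0 2 2
    ndN1q0 ndN4q2 pcN2 Cut.none Ext.none :=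
  certNK0 (fam := true) (s1 := true) (s2 := true) (a := 0) (b := 2) (c := 2) (cn := .pp) (n1 := ndN1q0) (n2 := ndN4q2) (pc := pcN2) (cut := Cut.none) (xt := Ext.none) (P1 := 0) (W1 := 536870912) (P2 := 1073741824) (W2 := 536870912) (P3 := 67108864) (W3 := 67108864) (N0 := 3)
    rfl rfl rfl k0_pp_022

noncomputable def f_pp_023 : ℕ → ℕ → ℕ → ℕ → Bool := onCell 0 536870912 1073741824 536870912 67108864 67108864
    (rowNK 3 0 true true true .up 0 2 3 (qsf 0 536870912 1073741824 536870912 3) ndN1q0 ndN4q2 pcN3 Cut.none Ext.none)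

def k0_pp_023 : ∃ t, chk3 f_pp_023 t 1 1 1 = true :=
  ⟨(l 4), by decide +kernel⟩

theorem c_pp_023 : CertN 0 536870912 1073741824 536870912 67108864 67108864 3 true true true .up 0 2 3
    ndN1q0 ndN4q2 pcN3 Cut.none Ext.none :=
  certNK0 (fam := true) (s1 := true) (s2 := true) (a := 0) (b := 2) (c := 3) (cn := .up) (n1 := ndN1q0) (n2 := ndN4q2) (pc := pcN3) (cut := Cut.none) (xt := Ext.none) (P1 := 0) (W1 := 536870912) (P2 := 1073741824) (W2 := 536870912) (P3 := 67108864) (W3 := 67108864) (N0 := 3)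
    rfl rfl rfl k0_pp_023

noncomputable def f_pp_033 : ℕ → ℕ → ℕ → ℕ → Bool := onCell 0 536870912 0 1230186008 67108864 67108864
    (rowNK 3 0 true true true .pnn 0 3 3 (qsf 0 536870912 0 1230186008 3) ndN1q0 ndN4q3 pcN3 Cut.none Ext.none)

def k0_pp_033 : ∃ t, chk3 f_pp_033 t 1 1 1 = true :=
  ⟨(l 4), by decide +kernel⟩

theorem c_pp_033 : CertN 0 536870912 0 1230186008 67108864 67108864 3 true true true .pnn 0 3 3
    ndN1q0 ndN4q3 pcN3 Cut.none Ext.none :=
  certNK0 (fam := true) (s1 := true) (s2 := true) (a := 0) (b := 3) (c := 3) (cn := .pnn) (n1 := ndN1q0) (n2 := ndN4q3) (pc := pcN3) (cut := Cut.none) (xt := Ext.none) (P1 := 0) (W1 := 536870912) (P2 := 0) (W2 := 1230186008) (P3 := 67108864) (W3 := 67108864) (N0 := 3)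
    rfl rfl rfl k0_pp_033

noncomputable def f_pp_101 : ℕ → ℕ → ℕ → ℕ → Bool := onCell 536870912 536870912 0 536870912 67108864 67108864
    (rowNK 3 0 true true true .npn 1 0 1 (qsf 536870912 536870912 0 536870912 1) ndN1q1 ndN4q0 pcN1 Cut.none Ext.none)

def k0_pp_101 : ∃ t, chk3 f_pp_101 t 1 1 1 = true :=
  ⟨(l 4), by decide +kernel⟩

theorem c_pp_101 : CertN 536870912 536870912 0 536870912 67108864 67108864 3 true true true .npn 1 0 1
    ndN1q1 ndN4q0 pcN1 Cut.none Ext.none :=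
  certNK0 (fam := true) (s1 := true) (s2 := true) (a := 1) (b := 0) (c := 1) (cn := .npn) (n1 := ndN1q1) (n2 := ndN4q0) (pc := pcN1) (cut := Cut.none) (xt := Ext.none) (P1 := 536870912) (W1 := 536870912) (P2 := 0) (W2 := 536870912) (P3 := 67108864) (W3 := 67108864) (N0 := 3)
    rfl rfl rfl k0_pp_101

noncomputable def f_pp_102 : ℕ → ℕ → ℕ → ℕ → Bool := onCell 536870912 536870912 0 536870912 67108864 67108864
    (rowNK 3 0 true true true .npp 1 0 2 (qsf 536870912 536870912 0 536870912 2) ndN1q1 ndN4q0 pcN2 Cut.none Ext.none)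

def k0_pp_102 : ∃ t, chk3 f_pp_102 t 1 1 1 = true :=
  ⟨(l 4), by decide +kernel⟩

theorem c_pp_102 : CertN 536870912 536870912 0 536870912 67108864 67108864 3 true true true .npp 1 0 2
    ndN1q1 ndN4q0 pcN2 Cut.none Ext.none :=
  certNK0 (fam := true) (s1 := true) (s2 := true) (a := 1) (b := 0) (c := 2) (cn := .npp) (n1 := ndN1q1) (n2 := ndN4q0) (pc := pcN2) (cut := Cut.none) (xt := Ext.none) (P1 := 536870912) (W1 := 536870912) (P2 := 0) (W2 := 536870912) (P3 := 67108864) (W3 := 67108864) (N0 := 3)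
    rfl rfl rfl k0_pp_102

noncomputable def f_pp_112 : ℕ → ℕ → ℕ → ℕ → Bool := onCell 536870912 536870912 536870912 536870912 67108864 67108864
    (rowNK 3 0 true true true .dn 1 1 2 (qsf 536870912 536870912 536870912 536870912 2) ndN1q1 ndN4q1 pcN2 Cut.none Ext.none)

def k0_pp_112 : ∃ t, chk3 f_pp_112 t 1 1 1 = true :=
  ⟨(l 4), by decide +kernel⟩

theorem c_pp_112 : CertN 536870912 536870912 536870912 536870912 67108864 67108864 3 true true true .dn 1 1 2
    ndN1q1 ndN4q1 pcN2 Cut.none Ext.none :=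
  certNK0 (fam := true) (s1 := true) (s2 := true) (a := 1) (b := 1) (c := 2) (cn := .dn) (n1 := ndN1q1) (n2 := ndN4q1) (pc := pcN2) (cut := Cut.none) (xt := Ext.none) (P1 := 536870912) (W1 := 536870912) (P2 := 536870912) (W2 := 536870912) (P3 := 67108864) (W3 := 67108864) (N0 := 3)
    rfl rfl rfl k0_pp_112

noncomputable def f_pp_113 : ℕ → ℕ → ℕ → ℕ → Bool := onCell 536870912 536870912 536870912 536870912 67108864 67108864
    (rowNK 3 0 true true true .nn 1 1 3 (qsf 536870912 536870912 536870912 536870912 3) ndN1q1 ndN4q1 pcN3 Cut.none Ext.none)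

def k0_pp_113 : ∃ t, chk3 f_pp_113 t 1 1 1 = true :=
  ⟨(l 4), by decide +kernel⟩

theorem c_pp_113 : CertN 536870912 536870912 536870912 536870912 67108864 67108864 3 true true true .nn 1 1 3
    ndN1q1 ndN4q1 pcN3 Cut.none Ext.none :=
  certNK0 (fam := true) (s1 := true) (s2 := true) (a := 1) (b := 1) (c := 3) (cn := .nn) (n1 := ndN1q1) (n2 := ndN4q1) (pc := pcN3) (cut := Cut.none) (xt := Ext.none) (P1 := 536870912) (W1 := 536870912) (P2 := 536870912) (W2 := 536870912) (P3 := 67108864) (W3 := 67108864) (N0 := 3)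
    rfl rfl rfl k0_pp_113

noncomputable def f_pp_123 : ℕ → ℕ → ℕ → ℕ → Bool := onCell 536870912 536870912 1073741824 536870912 67108864 67108864
    (rowNK 3 0 true true true .npn 1 2 3 (qsf 536870912 536870912 1073741824 536870912 3) ndN1q1 ndN4q2 pcN3 Cut.none Ext.none)

def k0_pp_123 : ∃ t, chk3 f_pp_123 t 1 1 1 = true :=
  ⟨(l 4), by decide +kernel⟩

theorem c_pp_123 : CertN 536870912 536870912 1073741824 536870912 67108864 67108864 3 true true true .npn 1 2 3
    ndN1q1 ndN4q2 pcN3 Cut.none Ext.none :=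
  certNK0 (fam := true) (s1 := true) (s2 := true) (a := 1) (b := 2) (c := 3) (cn := .npn) (n1 := ndN1q1) (n2 := ndN4q2) (pc := pcN3) (cut := Cut.none) (xt := Ext.none) (P1 := 536870912) (W1 := 536870912) (P2 := 1073741824) (W2 := 536870912) (P3 := 67108864) (W3 := 67108864) (N0 := 3)
    rfl rfl rfl k0_pp_123

noncomputable def f_pp_133 : ℕ → ℕ → ℕ → ℕ → Bool := onCell 536870912 536870912 0 1230186008 67108864 67108864
    (rowNK 3 0 true true true .dn 1 3 3 (qsf 536870912 536870912 0 1230186008 3) ndN1q1 ndN4q3 pcN3 Cut.none Ext.none)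

def k0_pp_133 : ∃ t, chk3 f_pp_133 t 1 1 1 = true :=
  ⟨(l 4), by decide +kernel⟩

theorem c_pp_133 : CertN 536870912 536870912 0 1230186008 67108864 67108864 3 true true true .dn 1 3 3
    ndN1q1 ndN4q3 pcN3 Cut.none Ext.none :=
  certNK0 (fam := true) (s1 := true) (s2 := true) (a := 1) (b := 3) (c := 3) (cn := .dn) (n1 := ndN1q1) (n2 := ndN4q3) (pc := pcN3) (cut := Cut.none) (xt := Ext.none) (P1 := 536870912) (W1 := 536870912) (P2 := 0) (W2 := 1230186008) (P3 := 67108864) (W3 := 67108864) (N0 := 3)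
    rfl rfl rfl k0_pp_133

noncomputable def f_pp_202_a : ℕ → ℕ → ℕ → ℕ → Bool := onCell 0 536870912 0 536870912 67108864 67108864
    (rowNK 3 0 true true true .pp 2 0 2 (qsf 0 536870912 0 536870912 2) ndN1q2a ndN4q0 pcN2 Cut.none Ext.none)

def k0_pp_202_a : ∃ t, chk3 f_pp_202_a t 1 1 1 = true :=
  ⟨(l 4), by decide +kernel⟩

theorem c_pp_202_a : CertN 0 536870912 0 536870912 67108864 67108864 3 true true true .pp 2 0 2
    ndN1q2a ndN4q0 pcN2 Cut.none Ext.none :=
  certNK0 (fam := true) (s1 := true) (s2 := true) (a := 2) (b := 0) (c := 2) (cn := .pp) (n1 := ndN1q2a) (n2 := ndN4q0) (pc := pcN2) (cut := Cut.none) (xt := Ext.none) (P1 := 0) (W1 := 536870912) (P2 := 0) (W2 := 536870912) (P3 := 67108864) (W3 := 67108864) (N0 := 3)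
    rfl rfl rfl k0_pp_202_a

noncomputable def f_pp_202_b : ℕ → ℕ → ℕ → ℕ → Bool := onCell 1239849684 370763052 0 536870912 67108864 67108864
    (rowNK 3 0 true true true .pp 2 0 2 (qsf 1239849684 370763052 0 536870912 2) ndN1q2b ndN4q0 pcN2 Cut.none Ext.none)

def k0_pp_202_b : ∃ t, chk3 f_pp_202_b t 1 1 1 = true :=
  ⟨(l 4), by decide +kernel⟩

theorem c_pp_202_b : CertN 1239849684 370763052 0 536870912 67108864 67108864 3 true true true .pp 2 0 2
    ndN1q2b ndN4q0 pcN2 Cut.none Ext.none :=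
  certNK0 (fam := true) (s1 := true) (s2 := true) (a := 2) (b := 0) (c := 2) (cn := .pp) (n1 := ndN1q2b) (n2 := ndN4q0) (pc := pcN2) (cut := Cut.none) (xt := Ext.none) (P1 := 1239849684) (W1 := 370763052) (P2 := 0) (W2 := 536870912) (P3 := 67108864) (W3 := 67108864) (N0 := 3)
    rfl rfl rfl k0_pp_202_b

noncomputable def f_pp_203_a : ℕ → ℕ → ℕ → ℕ → Bool := onCell 0 536870912 0 536870912 67108864 67108864
    (rowNK 3 0 true true true .up 2 0 3 (qsf 0 536870912 0 536870912 3) ndN1q2a ndN4q0 pcN3 Cut.none Ext.none)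

def k0_pp_203_a : ∃ t, chk3 f_pp_203_a t 1 1 1 = true :=
  ⟨(l 4), by decide +kernel⟩

theorem c_pp_203_a : CertN 0 536870912 0 536870912 67108864 67108864 3 true true true .up 2 0 3
    ndN1q2a ndN4q0 pcN3 Cut.none Ext.none :=
  certNK0 (fam := true) (s1 := true) (s2 := true) (a := 2) (b := 0) (c := 3) (cn := .up) (n1 := ndN1q2a) (n2 := ndN4q0) (pc := pcN3) (cut := Cut.none) (xt := Ext.none) (P1 := 0) (W1 := 536870912) (P2 := 0) (W2 := 536870912) (P3 := 67108864) (W3 := 67108864) (N0 := 3)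
    rfl rfl rfl k0_pp_203_a

noncomputable def f_pp_203_b : ℕ → ℕ → ℕ → ℕ → Bool := onCell 1239849684 370763052 0 536870912 67108864 67108864
    (rowNK 3 0 true true true .up 2 0 3 (qsf 1239849684 370763052 0 536870912 3) ndN1q2b ndN4q0 pcN3 Cut.none Ext.none)

def k0_pp_203_b : ∃ t, chk3 f_pp_203_b t 1 1 1 = true :=
  ⟨(l 4), by decide +kernel⟩

theorem c_pp_203_b : CertN 1239849684 370763052 0 536870912 67108864 67108864 3 true true true .up 2 0 3
    ndN1q2b ndN4q0 pcN3 Cut.none Ext.none :=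
  certNK0 (fam := true) (s1 := true) (s2 := true) (a := 2) (b := 0) (c := 3) (cn := .up) (n1 := ndN1q2b) (n2 := ndN4q0) (pc := pcN3) (cut := Cut.none) (xt := Ext.none) (P1 := 1239849684) (W1 := 370763052) (P2 := 0) (W2 := 536870912) (P3 := 67108864) (W3 := 67108864) (N0 := 3)
    rfl rfl rfl k0_pp_203_b

noncomputable def f_pp_213_a : ℕ → ℕ → ℕ → ℕ → Bool := onCell 0 536870912 536870912 536870912 67108864 67108864
    (rowNK 3 0 true true true .pnn 2 1 3 (qsf 0 536870912 536870912 536870912 3) ndN1q2a ndN4q1 pcN3 Cut.none Ext.none)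

def k0_pp_213_a : ∃ t, chk3 f_pp_213_a t 1 1 1 = true :=
  ⟨(l 4), by decide +kernel⟩

theorem c_pp_213_a : CertN 0 536870912 536870912 536870912 67108864 67108864 3 true true true .pnn 2 1 3
    ndN1q2a ndN4q1 pcN3 Cut.none Ext.none :=
  certNK0 (fam := true) (s1 := true) (s2 := true) (a := 2) (b := 1) (c := 3) (cn := .pnn) (n1 := ndN1q2a) (n2 := ndN4q1) (pc := pcN3) (cut := Cut.none) (xt := Ext.none) (P1 := 0) (W1 := 536870912) (P2 := 536870912) (W2 := 536870912) (P3 := 67108864) (W3 := 67108864) (N0 := 3)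
    rfl rfl rfl k0_pp_213_a

noncomputable def f_pp_213_b : ℕ → ℕ → ℕ → ℕ → Bool := onCell 1239849684 370763052 536870912 536870912 67108864 67108864
    (rowNK 3 0 true true true .pnn 2 1 3 (qsf 1239849684 370763052 536870912 536870912 3) ndN1q2b ndN4q1 pcN3 Cut.none Ext.none)

def k0_pp_213_b : ∃ t, chk3 f_pp_213_b t 1 1 1 = true :=
  ⟨(l 4), by decide +kernel⟩

theorem c_pp_213_b : CertN 1239849684 370763052 536870912 536870912 67108864 67108864 3 true true true .pnn 2 1 3
    ndN1q2b ndN4q1 pcN3 Cut.none Ext.none :=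
  certNK0 (fam := true) (s1 := true) (s2 := true) (a := 2) (b := 1) (c := 3) (cn := .pnn) (n1 := ndN1q2b) (n2 := ndN4q1) (pc := pcN3) (cut := Cut.none) (xt := Ext.none) (P1 := 1239849684) (W1 := 370763052) (P2 := 536870912) (W2 := 536870912) (P3 := 67108864) (W3 := 67108864) (N0 := 3)
    rfl rfl rfl k0_pp_213_b

noncomputable def f_pp_303 : ℕ → ℕ → ℕ → ℕ → Bool := onCell 1610612736 536870912 0 536870912 67108864 67108864
    (rowNK 3 0 true true true .npn 3 0 3 (qsf 1610612736 536870912 0 536870912 3) ndN1q3 ndN4q0 pcN3 Cut.none Ext.none)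

def k0_pp_303 : ∃ t, chk3 f_pp_303 t 1 1 1 = true :=
  ⟨(l 4), by decide +kernel⟩

theorem c_pp_303 : CertN 1610612736 536870912 0 536870912 67108864 67108864 3 true true true .npn 3 0 3
    ndN1q3 ndN4q0 pcN3 Cut.none Ext.none :=
  certNK0 (fam := true) (s1 := true) (s2 := true) (a := 3) (b := 0) (c := 3) (cn := .npn) (n1 := ndN1q3) (n2 := ndN4q0) (pc := pcN3) (cut := Cut.none) (xt := Ext.none) (P1 := 1610612736) (W1 := 536870912) (P2 := 0) (W2 := 536870912) (P3 := 67108864) (W3 := 67108864) (N0 := 3)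
    rfl rfl rfl k0_pp_303

noncomputable def f_pp_313 : ℕ → ℕ → ℕ → ℕ → Bool := onCell 1610612736 536870912 536870912 536870912 67108864 67108864
    (rowNK 3 0 true true true .dn 3 1 3 (qsf 1610612736 536870912 536870912 536870912 3) ndN1q3 ndN4q1 pcN3 Cut.none Ext.none)

def k0_pp_313 : ∃ t, chk3 f_pp_313 t 1 1 1 = true :=
  ⟨(l 4), by decide +kernel⟩

theorem c_pp_313 : CertN 1610612736 536870912 536870912 536870912 67108864 67108864 3 true true true .dn 3 1 3
    ndN1q3 ndN4q1 pcN3 Cut.none Ext.none :=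
  certNK0 (fam := true) (s1 := true) (s2 := true) (a := 3) (b := 1) (c := 3) (cn := .dn) (n1 := ndN1q3) (n2 := ndN4q1) (pc := pcN3) (cut := Cut.none) (xt := Ext.none) (P1 := 1610612736) (W1 := 536870912) (P2 := 536870912) (W2 := 536870912) (P3 := 67108864) (W3 := 67108864) (N0 := 3)
    rfl rfl rfl k0_pp_313

noncomputable def f_pm_001 : ℕ → ℕ → ℕ → ℕ → Bool := onCell 0 536870912 0 536870912 67108864 67108864
    (rowNK 3 0 true true false .up 0 0 1 (qsf 0 536870912 0 536870912 1) ndN1q0 ndN4q0 pcN1 Cut.none Ext.none)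

def k0_pm_001 : ∃ t, chk3 f_pm_001 t 1 1 1 = true :=
  ⟨(a (l 3) (b (l 3) (l 3))), by decide +kernel⟩

theorem c_pm_001 : CertN 0 536870912 0 536870912 67108864 67108864 3 true true false .up 0 0 1
    ndN1q0 ndN4q0 pcN1 Cut.none Ext.none :=
  certNK0 (fam := true) (s1 := true) (s2 := false) (a := 0) (b := 0) (c := 1) (cn := .up) (n1 := ndN1q0) (n2 := ndN4q0) (pc := pcN1) (cut := Cut.none) (xt := Ext.none) (P1 := 0) (W1 := 536870912) (P2 := 0) (W2 := 536870912) (P3 := 67108864) (W3 := 67108864) (N0 := 3)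
    rfl rfl rfl k0_pm_001

noncomputable def cut_pm_011 : Cut := Cut.of [[⟨0, 0, 0, 67108864⟩, ⟨1, 1, 0, 67108864⟩, ⟨2, 1, 0, 67108864⟩]]

noncomputable def f_pm_011 : ℕ → ℕ → ℕ → ℕ → Bool := onCell 0 536870912 536870912 536870912 67108864 67108864
    (rowNK 3 1 true true false .pnn 0 1 1 (qsf 0 536870912 536870912 536870912 1) ndN1q0 ndN4q1 pcN1 cut_pm_011 Ext.none)

def k0_pm_011 : ∃ t, chk3 f_pm_011 t 1 1 1 = true :=
  ⟨(b (l 3) (a (b (l 3) (a (b (l 3) (a (b (l 3) (a (b (l 3) (l 6)) (l 3))) (l 3))) (l 3))) (l 3))), by decide +kernel⟩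

theorem c_pm_011 : CertN 0 536870912 536870912 536870912 67108864 67108864 3 true true false .pnn 0 1 1
    ndN1q0 ndN4q1 pcN1 cut_pm_011 Ext.none :=
  certNK1 (fam := true) (s1 := true) (s2 := false) (a := 0) (b := 1) (c := 1) (cn := .pnn) (n1 := ndN1q0) (n2 := ndN4q1) (pc := pcN1) (cut := cut_pm_011) (xt := Ext.none) (P1 := 0) (W1 := 536870912) (P2 := 536870912) (W2 := 536870912) (P3 := 67108864) (W3 := 67108864) (N0 := 3)
    rfl rfl rfl (fun _ => rfl) k0_pm_011

noncomputable def cut_pm_012 : Cut := Cut.of [[⟨0, 0, 0, 67108864⟩, ⟨1, 1, 0, 67108864⟩, ⟨2, 1, 0, 67108864⟩]]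

noncomputable def f_pm_012 : ℕ → ℕ → ℕ → ℕ → Bool := onCell 1073741824 536870912 536870912 536870912 67108864 67108864
    (rowNK 3 2 true true false .pnp 0 1 2 (qsf 0 536870912 536870912 536870912 2) ndN1q0 ndN4q1 pcN2 cut_pm_012 Ext.none)

def k0_pm_012 : ∃ t, chk3 f_pm_012 t 1 1 1 = true :=
  ⟨(a (b (a (a (a (l 18515816) (b (l 18672672) (l 18592432))) (a (l 18753264) (l 18789992))) (a (l 18806960) (l 18698560))) (a (a (a (b (l 331419802839) (b (b (l 17127904) (l 297058060807)) (a (b (b (l 3) (l 297057557639)) (l 6)) (b (b (l 16971784) (l 16921672)) (b (l 16851552) (l 6)))))) (b (l 18290768) (b (b (l 17833744) (l 17439920)) (b (a (l 16982520) (l 17025920)) (b (l 16924088) (a (l 16814472) (l 16890272))))))) (b (a (l 18601232) (l 18817176)) (b (a (l 18281456) (l 18704064)) (a (b (l 17779384) (b (l 17174168) (l 16949424))) (b (l 18498024) (l 18122376)))))) (a (b (l 19004360) (a (b (l 18985136) (a (l 18790208) (l 19000872))) (b (l 19150192) (l 19223840))))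 (b (l 19065776) (l 19441624))))) (b (a (l 18472712) (l 2)) (b (l 18800488) (a (l 19370408) (l 19126816))))), by decide +kernel⟩

theorem c_pm_012 : CertN 0 536870912 536870912 536870912 67108864 67108864 3 true true false .pnp 0 1 2
    ndN1q0 ndN4q1 pcN2 cut_pm_012 Ext.none :=
  certNK2 (fam := true) (s1 := true) (s2 := false) (a := 0) (b := 1) (c := 2) (cn := .pnp) (n1 := ndN1q0) (n2 := ndN4q1) (pc := pcN2) (cut := cut_pm_012) (xt := Ext.none) (P1 := 0) (W1 := 536870912) (P2 := 536870912) (W2 := 536870912) (P3 := 67108864) (W3 := 67108864) (N0 := 3)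
    rfl rfl rfl (fun _ => rfl) k0_pm_012

noncomputable def cut_pm_022 : Cut := Cut.of [[⟨0, 0, 0, 67108864⟩, ⟨1, 1, 0, 67108864⟩, ⟨2, 1, 0, 67108864⟩]]

noncomputable def f_pm_022 : ℕ → ℕ → ℕ → ℕ → Bool := onCell 0 536870912 1073741824 536870912 67108864 67108864
    (rowNK 3 1 true true false .pp 0 2 2 (qsf 0 536870912 1073741824 536870912 2) ndN1q0 ndN4q2 pcN2 cut_pm_022 Ext.none)

def k0_pm_022 : ∃ t, chk3 f_pm_022 t 1 1 1 = true :=
  ⟨(a (b (a (b (b (b (a (a (l 6) (a (l 6) (l 1))) (l 1)) (a (b (a (l 6) (a (l 6) (b (l 1) (l 16884392)))) (a (a (b (l 6) (a (a (l 16680008) (l 16659184)) (l 16683560))) (l 16803776)) (a (l 16804456) (l 16864504)))) (a (a (b (l 1) (l 16925368)) (l 1)) (l 1)))) (b (a (a (a (a (b (a (b (l 16666352) (l 16652768)) (l 16652784)) (a (l 16652552) (l 16614264))) (b (l 16678032) (l 16620000))) (b (l 16707024) (l 16672768))) (b (l 16805296) (l 16776200))) (a (b (l 16932592) (l 16910232)) (b (l 1) (l 17041368)))) (a (a (a (b (a (l 16753216)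 (l 16873680)) (c (l 17961600) (l 16768632))) (l 16950864)) (b (l 16901824) (l 17438736))) (b (l 17119256) (l 17778064))))) (b (a (b (a (b (a (c (l 18261088) (l 17212288)) (l 17765088)) (b (l 17811104) (l 18017936))) (b (l 17824080) (b (l 18045688) (l 18169320)))) (a (l 18105040) (l 18418056))) (b (b (l 18121968) (b (l 18313712) (l 18420712))) (l 18627272))) (a (a (l 18752352) (l 18787152)) (l 18910784)))) (b (b (l 1) (b (l 1) (a (b (l 1) (l 18456048)) (l 1)))) (b (b (a (b (l 18704080) (b (l 18853224) (l 18934168))) (l 1)) (a (l 19063672) (l 19475680))) (l 19344704)))) (b (a (a (b (l 18997472) (l 19045312)) (l 19068392)) (b (l 19308464) (l 19189328))) (a (a (l 18995240) (l 18954720)) (l 18970360)))) (b (a (b (l 1) (b (l 1) (l 19568920))) (l 1)) (b (a (l 19468320) (l 19633096)) (a (l 19148360) (l 19370040))))), by decide +kernel⟩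

theorem c_pm_022 : CertN 0 536870912 1073741824 536870912 67108864 67108864 3 true true false .pp 0 2 2
    ndN1q0 ndN4q2 pcN2 cut_pm_022 Ext.none :=
  certNK1 (fam := true) (s1 := true) (s2 := false) (a := 0) (b := 2) (c := 2) (cn := .pp) (n1 := ndN1q0) (n2 := ndN4q2) (pc := pcN2) (cut := cut_pm_022) (xt := Ext.none) (P1 := 0) (W1 := 536870912) (P2 := 1073741824) (W2 := 536870912) (P3 := 67108864) (W3 := 67108864) (N0 := 3)
    rfl rfl rfl (fun _ => rfl) k0_pm_022

noncomputable def f_pm_023 : ℕ → ℕ → ℕ → ℕ → Bool := onCell 1610612736 536870912 1073741824 536870912 67108864 67108864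
    (rowNK 3 2 true true false .up 0 2 3 (qsf 0 536870912 1073741824 536870912 3) ndN1q0 ndN4q2 pcN3 Cut.none Ext.none)

def k0_pm_023 : ∃ t, chk3 f_pm_023 t 1 1 1 = true :=
  ⟨(a (b (a (b (l 19010352) (l 18673768)) (b (l 19001768) (l 18459208))) (b (a (l 18681296) (l 18229600)) (a (l 18791160) (l 18209560)))) (a (b (b (l 2) (l 18288736)) (b (l 17930168) (l 17750592))) (b (l 2) (a (l 17740072) (b (l 2) (a (l 17383904) (l 17327872))))))), by decide +kernel⟩

theorem c_pm_023 : CertN 0 536870912 1073741824 536870912 67108864 67108864 3 true true false .up 0 2 3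
    ndN1q0 ndN4q2 pcN3 Cut.none Ext.none :=
  certNK2 (fam := true) (s1 := true) (s2 := false) (a := 0) (b := 2) (c := 3) (cn := .up) (n1 := ndN1q0) (n2 := ndN4q2) (pc := pcN3) (cut := Cut.none) (xt := Ext.none) (P1 := 0) (W1 := 536870912) (P2 := 1073741824) (W2 := 536870912) (P3 := 67108864) (W3 := 67108864) (N0 := 3)
    rfl rfl rfl (fun _ => rfl) k0_pm_023

noncomputable def f_pm_033 : ℕ → ℕ → ℕ → ℕ → Bool := onCell 1610612736 536870912 0 1230186008 67108864 67108864
    (rowNK 3 2 true true false .pnn 0 3 3 (qsf 0 536870912 0 1230186008 3) ndN1q0 ndN4q3 pcN3 Cut.none Ext.none)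

def k0_pm_033 : ∃ t, chk3 f_pm_033 t 1 1 1 = true :=
  ⟨(a (b (l 1) (b (b (l 1) (a (l 1) (a (l 1) (a (l 1) (l 18750632))))) (a (b (l 1) (b (l 849904777559) (l 18951920))) (b (l 18567848) (l 18342328))))) (a (b (l 1) (b (a (b (l 1) (l 470336324135)) (b (l 18052248) (l 18150296))) (b (a (l 18276720) (l 17920216)) (l 17824376)))) (b (a (b (l 1) (l 18030416)) (a (l 18143528) (l 4))) (b (a (l 17683264) (a (l 17505528) (l 17524048))) (a (b (l 17510864) (l 17434640)) (a (l 17271432) (b (l 17176032) (l 17146384)))))))), by decide +kernel⟩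

theorem c_pm_033 : CertN 0 536870912 0 1230186008 67108864 67108864 3 true true false .pnn 0 3 3
    ndN1q0 ndN4q3 pcN3 Cut.none Ext.none :=
  certNK2 (fam := true) (s1 := true) (s2 := false) (a := 0) (b := 3) (c := 3) (cn := .pnn) (n1 := ndN1q0) (n2 := ndN4q3) (pc := pcN3) (cut := Cut.none) (xt := Ext.none) (P1 := 0) (W1 := 536870912) (P2 := 0) (W2 := 1230186008) (P3 := 67108864) (W3 := 67108864) (N0 := 3)
    rfl rfl rfl (fun _ => rfl) k0_pm_033

noncomputable def f_pm_101 : ℕ → ℕ → ℕ → ℕ → Bool := onCell 536870912 536870912 536870912 536870912 67108864 67108864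
    (rowNK 3 1 true true false .npn 1 0 1 (qsf 536870912 536870912 0 536870912 1) ndN1q1 ndN4q0 pcN1 Cut.none Ext.none)

def k0_pm_101 : ∃ t, chk3 f_pm_101 t 1 1 1 = true :=
  ⟨(b (l 3) (b (l 3) (a (a (l 3) (l 17469104)) (a (l 17959912) (l 18767144))))), by decide +kernel⟩

theorem c_pm_101 : CertN 536870912 536870912 0 536870912 67108864 67108864 3 true true false .npn 1 0 1
    ndN1q1 ndN4q0 pcN1 Cut.none Ext.none :=
  certNK1 (fam := true) (s1 := true) (s2 := false) (a := 1) (b := 0) (c := 1) (cn := .npn) (n1 := ndN1q1) (n2 := ndN4q0) (pc := pcN1) (cut := Cut.none) (xt := Ext.none) (P1 := 536870912) (W1 := 536870912) (P2 := 0) (W2 := 536870912) (P3 := 67108864) (W3 := 67108864) (N0 := 3)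
    rfl rfl rfl (fun _ => rfl) k0_pm_101

noncomputable def f_pm_102 : ℕ → ℕ → ℕ → ℕ → Bool := onCell 1073741824 536870912 0 536870912 67108864 67108864
    (rowNK 3 2 true true false .npp 1 0 2 (qsf 536870912 536870912 0 536870912 2) ndN1q1 ndN4q0 pcN2 Cut.none Ext.none)

def k0_pm_102 : ∃ t, chk3 f_pm_102 t 1 1 1 = true :=
  ⟨(a (b (a (a (a (l 18578328) (b (l 19050608) (l 18309808))) (b (l 19198776) (l 18459040))) (b (a (l 19359888) (l 2)) (l 18743448))) (a (a (a (l 17751912) (l 18040544)) (b (l 18021304) (l 17909456))) (b (l 18219688) (a (l 18068592) (l 18076672))))) (b (a (b (l 2) (l 19223744)) (l 2)) (a (b (l 18415464) (l 18120416)) (b (a (l 18466720) (l 2)) (l 18158000))))), by decide +kernel⟩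

theorem c_pm_102 : CertN 536870912 536870912 0 536870912 67108864 67108864 3 true true false .npp 1 0 2
    ndN1q1 ndN4q0 pcN2 Cut.none Ext.none :=
  certNK2 (fam := true) (s1 := true) (s2 := false) (a := 1) (b := 0) (c := 2) (cn := .npp) (n1 := ndN1q1) (n2 := ndN4q0) (pc := pcN2) (cut := Cut.none) (xt := Ext.none) (P1 := 536870912) (W1 := 536870912) (P2 := 0) (W2 := 536870912) (P3 := 67108864) (W3 := 67108864) (N0 := 3)
    rfl rfl rfl (fun _ => rfl) k0_pm_102

noncomputable def f_pm_112 : ℕ → ℕ → ℕ → ℕ → Bool := onCell 536870912 536870912 1073741824 536870912 67108864 67108864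
    (rowNK 3 1 true true false .dn 1 1 2 (qsf 536870912 536870912 536870912 536870912 2) ndN1q1 ndN4q1 pcN2 Cut.none Ext.none)

def k0_pm_112 : ∃ t, chk3 f_pm_112 t 1 1 1 = true :=
  ⟨(a (b (b (b (b (l 17707576) (l 17796272)) (b (l 17899176) (l 18015312))) (b (l 18140264) (l 18269312))) (a (l 19252384) (l 18460480))) (b (b (l 1) (b (l 1) (l 18165432))) (a (l 18106544) (l 18070512)))), by decide +kernel⟩

theorem c_pm_112 : CertN 536870912 536870912 536870912 536870912 67108864 67108864 3 true true false .dn 1 1 2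
    ndN1q1 ndN4q1 pcN2 Cut.none Ext.none :=
  certNK1 (fam := true) (s1 := true) (s2 := false) (a := 1) (b := 1) (c := 2) (cn := .dn) (n1 := ndN1q1) (n2 := ndN4q1) (pc := pcN2) (cut := Cut.none) (xt := Ext.none) (P1 := 536870912) (W1 := 536870912) (P2 := 536870912) (W2 := 536870912) (P3 := 67108864) (W3 := 67108864) (N0 := 3)
    rfl rfl rfl (fun _ => rfl) k0_pm_112

noncomputable def f_pm_113 : ℕ → ℕ → ℕ → ℕ → Bool := onCell 536870912 536870912 1610612736 536870912 67108864 67108864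
    (rowNK 3 1 true true false .nn 1 1 3 (qsf 536870912 536870912 536870912 536870912 3) ndN1q1 ndN4q1 pcN3 Cut.none Ext.none)

def k0_pm_113 : ∃ t, chk3 f_pm_113 t 1 1 1 = true :=
  ⟨(a (b (b (a (l 20397304) (l 20237520)) (a (l 20850264) (b (l 20302536) (l 20285200)))) (b (a (l 2) (l 20235544)) (l 2))) (b (b (a (l 19346576) (l 18125320)) (a (l 19093792) (l 17763224))) (b (b (l 18480560) (l 18396152)) (b (l 18481032) (b (l 18579720) (l 18701064)))))), by decide +kernel⟩

theorem c_pm_113 : CertN 536870912 536870912 536870912 536870912 67108864 67108864 3 true true false .nn 1 1 3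
    ndN1q1 ndN4q1 pcN3 Cut.none Ext.none :=
  certNK1 (fam := true) (s1 := true) (s2 := false) (a := 1) (b := 1) (c := 3) (cn := .nn) (n1 := ndN1q1) (n2 := ndN4q1) (pc := pcN3) (cut := Cut.none) (xt := Ext.none) (P1 := 536870912) (W1 := 536870912) (P2 := 536870912) (W2 := 536870912) (P3 := 67108864) (W3 := 67108864) (N0 := 3)
    rfl rfl rfl (fun _ => rfl) k0_pm_113

noncomputable def f_pm_123 : ℕ → ℕ → ℕ → ℕ → Bool := onCell 1610612736 536870912 1073741824 536870912 67108864 67108864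
    (rowNK 3 2 true true false .npn 1 2 3 (qsf 536870912 536870912 1073741824 536870912 3) ndN1q1 ndN4q2 pcN3 Cut.none Ext.none)

def k0_pm_123 : ∃ t, chk3 f_pm_123 t 1 1 1 = true :=
  ⟨(a (b (a (b (l 20159880) (l 19462432)) (b (a (l 20111888) (l 19933472)) (l 19824696))) (b (a (l 1) (l 19113832)) (l 1))) (a (b (b (a (l 19470224) (l 18861840)) (l 19499160)) (b (l 19104104) (l 18678272))) (b (a (l 18724616) (b (l 18310728) (l 18594584))) (a (l 18802976) (b (l 18719352) (l 18553456)))))), by decide +kernel⟩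

theorem c_pm_123 : CertN 536870912 536870912 1073741824 536870912 67108864 67108864 3 true true false .npn 1 2 3
    ndN1q1 ndN4q2 pcN3 Cut.none Ext.none :=
  certNK2 (fam := true) (s1 := true) (s2 := false) (a := 1) (b := 2) (c := 3) (cn := .npn) (n1 := ndN1q1) (n2 := ndN4q2) (pc := pcN3) (cut := Cut.none) (xt := Ext.none) (P1 := 536870912) (W1 := 536870912) (P2 := 1073741824) (W2 := 536870912) (P3 := 67108864) (W3 := 67108864) (N0 := 3)
    rfl rfl rfl (fun _ => rfl) k0_pm_123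

noncomputable def f_pm_133 : ℕ → ℕ → ℕ → ℕ → Bool := onCell 1610612736 536870912 0 1230186008 67108864 67108864
    (rowNK 3 2 true true false .dn 1 3 3 (qsf 536870912 536870912 0 1230186008 3) ndN1q1 ndN4q3 pcN3 Cut.none Ext.none)

def k0_pm_133 : ∃ t, chk3 f_pm_133 t 1 1 1 = true :=
  ⟨(b (l 1) (b (l 1) (a (l 1) (a (l 1) (a (l 1) (b (l 1) (l 18318248))))))), by decide +kernel⟩

theorem c_pm_133 : CertN 536870912 536870912 0 1230186008 67108864 67108864 3 true true false .dn 1 3 3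
    ndN1q1 ndN4q3 pcN3 Cut.none Ext.none :=
  certNK2 (fam := true) (s1 := true) (s2 := false) (a := 1) (b := 3) (c := 3) (cn := .dn) (n1 := ndN1q1) (n2 := ndN4q3) (pc := pcN3) (cut := Cut.none) (xt := Ext.none) (P1 := 536870912) (W1 := 536870912) (P2 := 0) (W2 := 1230186008) (P3 := 67108864) (W3 := 67108864) (N0 := 3)
    rfl rfl rfl (fun _ => rfl) k0_pm_133

noncomputable def f_pm_202_a : ℕ → ℕ → ℕ → ℕ → Bool := onCell 0 536870912 1073741824 536870912 67108864 67108864
    (rowNK 3 1 true true false .pp 2 0 2 (qsf 0 536870912 0 536870912 2) ndN1q2a ndN4q0 pcN2 Cut.none Ext.none)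

def k0_pm_202_a : ∃ t, chk3 f_pm_202_a t 1 1 1 = true :=
  ⟨(b (b (a (l 19480344) (l 19512768)) (a (l 19075304) (l 19169432))) (b (a (l 18677816) (l 18798808)) (a (l 4) (l 18500168)))), by decide +kernel⟩

theorem c_pm_202_a : CertN 0 536870912 0 536870912 67108864 67108864 3 true true false .pp 2 0 2
    ndN1q2a ndN4q0 pcN2 Cut.none Ext.none :=
  certNK1 (fam := true) (s1 := true) (s2 := false) (a := 2) (b := 0) (c := 2) (cn := .pp) (n1 := ndN1q2a) (n2 := ndN4q0) (pc := pcN2) (cut := Cut.none) (xt := Ext.none) (P1 := 0) (W1 := 536870912) (P2 := 0) (W2 := 536870912) (P3 := 67108864) (W3 := 67108864) (N0 := 3)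
    rfl rfl rfl (fun _ => rfl) k0_pm_202_a

noncomputable def f_pm_202_b : ℕ → ℕ → ℕ → ℕ → Bool := onCell 1239849684 370763052 0 536870912 67108864 67108864
    (rowNK 3 0 true true false .pp 2 0 2 (qsf 1239849684 370763052 0 536870912 2) ndN1q2b ndN4q0 pcN2 Cut.none Ext.none)

def k0_pm_202_b : ∃ t, chk3 f_pm_202_b t 1 1 1 = true :=
  ⟨(b (a (l 4) (l 4)) (l 4)), by decide +kernel⟩

theorem c_pm_202_b : CertN 1239849684 370763052 0 536870912 67108864 67108864 3 true true false .pp 2 0 2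
    ndN1q2b ndN4q0 pcN2 Cut.none Ext.none :=
  certNK0 (fam := true) (s1 := true) (s2 := false) (a := 2) (b := 0) (c := 2) (cn := .pp) (n1 := ndN1q2b) (n2 := ndN4q0) (pc := pcN2) (cut := Cut.none) (xt := Ext.none) (P1 := 1239849684) (W1 := 370763052) (P2 := 0) (W2 := 536870912) (P3 := 67108864) (W3 := 67108864) (N0 := 3)
    rfl rfl rfl k0_pm_202_b

noncomputable def f_pm_203_a : ℕ → ℕ → ℕ → ℕ → Bool := onCell 0 536870912 1610612736 536870912 67108864 67108864
    (rowNK 3 1 true true false .up 2 0 3 (qsf 0 536870912 0 536870912 3) ndN1q2a ndN4q0 pcN3 Cut.none Ext.none)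

def k0_pm_203_a : ∃ t, chk3 f_pm_203_a t 1 1 1 = true :=
  ⟨(a (l 4) (b (l 4) (l 2))), by decide +kernel⟩

theorem c_pm_203_a : CertN 0 536870912 0 536870912 67108864 67108864 3 true true false .up 2 0 3
    ndN1q2a ndN4q0 pcN3 Cut.none Ext.none :=
  certNK1 (fam := true) (s1 := true) (s2 := false) (a := 2) (b := 0) (c := 3) (cn := .up) (n1 := ndN1q2a) (n2 := ndN4q0) (pc := pcN3) (cut := Cut.none) (xt := Ext.none) (P1 := 0) (W1 := 536870912) (P2 := 0) (W2 := 536870912) (P3 := 67108864) (W3 := 67108864) (N0 := 3)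
    rfl rfl rfl (fun _ => rfl) k0_pm_203_a

noncomputable def f_pm_203_b : ℕ → ℕ → ℕ → ℕ → Bool := onCell 1239849684 370763052 1610612736 536870912 67108864 67108864
    (rowNK 3 1 true true false .up 2 0 3 (qsf 1239849684 370763052 0 536870912 3) ndN1q2b ndN4q0 pcN3 Cut.none Ext.none)

def k0_pm_203_b : ∃ t, chk3 f_pm_203_b t 1 1 1 = true :=
  ⟨(l 4), by decide +kernel⟩

theorem c_pm_203_b : CertN 1239849684 370763052 0 536870912 67108864 67108864 3 true true false .up 2 0 3
    ndN1q2b ndN4q0 pcN3 Cut.none Ext.none :=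
  certNK1 (fam := true) (s1 := true) (s2 := false) (a := 2) (b := 0) (c := 3) (cn := .up) (n1 := ndN1q2b) (n2 := ndN4q0) (pc := pcN3) (cut := Cut.none) (xt := Ext.none) (P1 := 1239849684) (W1 := 370763052) (P2 := 0) (W2 := 536870912) (P3 := 67108864) (W3 := 67108864) (N0 := 3)
    rfl rfl rfl (fun _ => rfl) k0_pm_203_b

noncomputable def f_pm_213_a : ℕ → ℕ → ℕ → ℕ → Bool := onCell 0 536870912 536870912 536870912 67108864 67108864
    (rowNK 3 0 true true false .pnn 2 1 3 (qsf 0 536870912 536870912 536870912 3) ndN1q2a ndN4q1 pcN3 Cut.none Ext.none)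

def k0_pm_213_a : ∃ t, chk3 f_pm_213_a t 1 1 1 = true :=
  ⟨(a (l 4) (b (l 4) (l 4))), by decide +kernel⟩

theorem c_pm_213_a : CertN 0 536870912 536870912 536870912 67108864 67108864 3 true true false .pnn 2 1 3
    ndN1q2a ndN4q1 pcN3 Cut.none Ext.none :=
  certNK0 (fam := true) (s1 := true) (s2 := false) (a := 2) (b := 1) (c := 3) (cn := .pnn) (n1 := ndN1q2a) (n2 := ndN4q1) (pc := pcN3) (cut := Cut.none) (xt := Ext.none) (P1 := 0) (W1 := 536870912) (P2 := 536870912) (W2 := 536870912) (P3 := 67108864) (W3 := 67108864) (N0 := 3)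
    rfl rfl rfl k0_pm_213_a

noncomputable def f_pm_213_b : ℕ → ℕ → ℕ → ℕ → Bool := onCell 1239849684 370763052 536870912 536870912 67108864 67108864
    (rowNK 3 0 true true false .pnn 2 1 3 (qsf 1239849684 370763052 536870912 536870912 3) ndN1q2b ndN4q1 pcN3 Cut.none Ext.none)

def k0_pm_213_b : ∃ t, chk3 f_pm_213_b t 1 1 1 = true :=
  ⟨(l 4), by decide +kernel⟩

theorem c_pm_213_b : CertN 1239849684 370763052 536870912 536870912 67108864 67108864 3 true true false .pnn 2 1 3
    ndN1q2b ndN4q1 pcN3 Cut.none Ext.none :=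
  certNK0 (fam := true) (s1 := true) (s2 := false) (a := 2) (b := 1) (c := 3) (cn := .pnn) (n1 := ndN1q2b) (n2 := ndN4q1) (pc := pcN3) (cut := Cut.none) (xt := Ext.none) (P1 := 1239849684) (W1 := 370763052) (P2 := 536870912) (W2 := 536870912) (P3 := 67108864) (W3 := 67108864) (N0 := 3)
    rfl rfl rfl k0_pm_213_b

noncomputable def f_pm_303 : ℕ → ℕ → ℕ → ℕ → Bool := onCell 1610612736 536870912 0 536870912 67108864 67108864
    (rowNK 3 0 true true false .npn 3 0 3 (qsf 1610612736 536870912 0 536870912 3) ndN1q3 ndN4q0 pcN3 Cut.none Ext.none)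

def k0_pm_303 : ∃ t, chk3 f_pm_303 t 1 1 1 = true :=
  ⟨(l 4), by decide +kernel⟩

theorem c_pm_303 : CertN 1610612736 536870912 0 536870912 67108864 67108864 3 true true false .npn 3 0 3
    ndN1q3 ndN4q0 pcN3 Cut.none Ext.none :=
  certNK0 (fam := true) (s1 := true) (s2 := false) (a := 3) (b := 0) (c := 3) (cn := .npn) (n1 := ndN1q3) (n2 := ndN4q0) (pc := pcN3) (cut := Cut.none) (xt := Ext.none) (P1 := 1610612736) (W1 := 536870912) (P2 := 0) (W2 := 536870912) (P3 := 67108864) (W3 := 67108864) (N0 := 3)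
    rfl rfl rfl k0_pm_303

noncomputable def f_pm_313 : ℕ → ℕ → ℕ → ℕ → Bool := onCell 1610612736 536870912 536870912 536870912 67108864 67108864
    (rowNK 3 0 true true false .dn 3 1 3 (qsf 1610612736 536870912 536870912 536870912 3) ndN1q3 ndN4q1 pcN3 Cut.none Ext.none)

def k0_pm_313 : ∃ t, chk3 f_pm_313 t 1 1 1 = true :=
  ⟨(l 4), by decide +kernel⟩

theorem c_pm_313 : CertN 1610612736 536870912 536870912 536870912 67108864 67108864 3 true true false .dn 3 1 3
    ndN1q3 ndN4q1 pcN3 Cut.none Ext.none :=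
  certNK0 (fam := true) (s1 := true) (s2 := false) (a := 3) (b := 1) (c := 3) (cn := .dn) (n1 := ndN1q3) (n2 := ndN4q1) (pc := pcN3) (cut := Cut.none) (xt := Ext.none) (P1 := 1610612736) (W1 := 536870912) (P2 := 536870912) (W2 := 536870912) (P3 := 67108864) (W3 := 67108864) (N0 := 3)
    rfl rfl rfl k0_pm_313

noncomputable def f_mm_001 : ℕ → ℕ → ℕ → ℕ → Bool := onCell 0 536870912 0 536870912 67108864 67108864
    (rowNK 3 0 true false false .up 0 0 1 (qsf 0 536870912 0 536870912 1) ndN1q0 ndN4q0 pcN1 Cut.none Ext.none)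

def k0_mm_001 : ∃ t, chk3 f_mm_001 t 1 1 1 = true :=
  ⟨(l 4), by decide +kernel⟩

theorem c_mm_001 : CertN 0 536870912 0 536870912 67108864 67108864 3 true false false .up 0 0 1
    ndN1q0 ndN4q0 pcN1 Cut.none Ext.none :=
  certNK0 (fam := true) (s1 := false) (s2 := false) (a := 0) (b := 0) (c := 1) (cn := .up) (n1 := ndN1q0) (n2 := ndN4q0) (pc := pcN1) (cut := Cut.none) (xt := Ext.none) (P1 := 0) (W1 := 536870912) (P2 := 0) (W2 := 536870912) (P3 := 67108864) (W3 := 67108864) (N0 := 3)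
    rfl rfl rfl k0_mm_001

noncomputable def f_mm_011 : ℕ → ℕ → ℕ → ℕ → Bool := onCell 0 536870912 536870912 536870912 67108864 67108864
    (rowNK 3 0 true false false .pnn 0 1 1 (qsf 0 536870912 536870912 536870912 1) ndN1q0 ndN4q1 pcN1 Cut.none Ext.none)

def k0_mm_011 : ∃ t, chk3 f_mm_011 t 1 1 1 = true :=
  ⟨(l 4), by decide +kernel⟩

theorem c_mm_011 : CertN 0 536870912 536870912 536870912 67108864 67108864 3 true false false .pnn 0 1 1
    ndN1q0 ndN4q1 pcN1 Cut.none Ext.none :=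
  certNK0 (fam := true) (s1 := false) (s2 := false) (a := 0) (b := 1) (c := 1) (cn := .pnn) (n1 := ndN1q0) (n2 := ndN4q1) (pc := pcN1) (cut := Cut.none) (xt := Ext.none) (P1 := 0) (W1 := 536870912) (P2 := 536870912) (W2 := 536870912) (P3 := 67108864) (W3 := 67108864) (N0 := 3)
    rfl rfl rfl k0_mm_011

noncomputable def f_mm_012 : ℕ → ℕ → ℕ → ℕ → Bool := onCell 0 536870912 536870912 536870912 67108864 67108864
    (rowNK 3 0 true false false .pnp 0 1 2 (qsf 0 536870912 536870912 536870912 2) ndN1q0 ndN4q1 pcN2 Cut.none Ext.none)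

def k0_mm_012 : ∃ t, chk3 f_mm_012 t 1 1 1 = true :=
  ⟨(l 4), by decide +kernel⟩

theorem c_mm_012 : CertN 0 536870912 536870912 536870912 67108864 67108864 3 true false false .pnp 0 1 2
    ndN1q0 ndN4q1 pcN2 Cut.none Ext.none :=
  certNK0 (fam := true) (s1 := false) (s2 := false) (a := 0) (b := 1) (c := 2) (cn := .pnp) (n1 := ndN1q0) (n2 := ndN4q1) (pc := pcN2) (cut := Cut.none) (xt := Ext.none) (P1 := 0) (W1 := 536870912) (P2 := 536870912) (W2 := 536870912) (P3 := 67108864) (W3 := 67108864) (N0 := 3)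
    rfl rfl rfl k0_mm_012

noncomputable def f_mm_022 : ℕ → ℕ → ℕ → ℕ → Bool := onCell 0 536870912 1073741824 536870912 67108864 67108864
    (rowNK 3 0 true false false .pp 0 2 2 (qsf 0 536870912 1073741824 536870912 2) ndN1q0 ndN4q2 pcN2 Cut.none Ext.none)

def k0_mm_022 : ∃ t, chk3 f_mm_022 t 1 1 1 = true :=
  ⟨(l 4), by decide +kernel⟩

theorem c_mm_022 : CertN 0 536870912 1073741824 536870912 67108864 67108864 3 true false false .pp 0 2 2
    ndN1q0 ndN4q2 pcN2 Cut.none Ext.none :=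
  certNK0 (fam := true) (s1 := false) (s2 := false) (a := 0) (b := 2) (c := 2) (cn := .pp) (n1 := ndN1q0) (n2 := ndN4q2) (pc := pcN2) (cut := Cut.none) (xt := Ext.none) (P1 := 0) (W1 := 536870912) (P2 := 1073741824) (W2 := 536870912) (P3 := 67108864) (W3 := 67108864) (N0 := 3)
    rfl rfl rfl k0_mm_022

noncomputable def f_mm_023 : ℕ → ℕ → ℕ → ℕ → Bool := onCell 0 536870912 1073741824 536870912 67108864 67108864
    (rowNK 3 0 true false false .up 0 2 3 (qsf 0 536870912 1073741824 536870912 3) ndN1q0 ndN4q2 pcN3 Cut.none Ext.none)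

def k0_mm_023 : ∃ t, chk3 f_mm_023 t 1 1 1 = true :=
  ⟨(l 4), by decide +kernel⟩

theorem c_mm_023 : CertN 0 536870912 1073741824 536870912 67108864 67108864 3 true false false .up 0 2 3
    ndN1q0 ndN4q2 pcN3 Cut.none Ext.none :=
  certNK0 (fam := true) (s1 := false) (s2 := false) (a := 0) (b := 2) (c := 3) (cn := .up) (n1 := ndN1q0) (n2 := ndN4q2) (pc := pcN3) (cut := Cut.none) (xt := Ext.none) (P1 := 0) (W1 := 536870912) (P2 := 1073741824) (W2 := 536870912) (P3 := 67108864) (W3 := 67108864) (N0 := 3)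
    rfl rfl rfl k0_mm_023

noncomputable def f_mm_033 : ℕ → ℕ → ℕ → ℕ → Bool := onCell 0 536870912 0 1230186008 67108864 67108864
    (rowNK 3 0 true false false .pnn 0 3 3 (qsf 0 536870912 0 1230186008 3) ndN1q0 ndN4q3 pcN3 Cut.none Ext.none)

def k0_mm_033 : ∃ t, chk3 f_mm_033 t 1 1 1 = true :=
  ⟨(l 4), by decide +kernel⟩

theorem c_mm_033 : CertN 0 536870912 0 1230186008 67108864 67108864 3 true false false .pnn 0 3 3
    ndN1q0 ndN4q3 pcN3 Cut.none Ext.none :=
  certNK0 (fam := true) (s1 := false) (s2 := false) (a := 0) (b := 3) (c := 3) (cn := .pnn) (n1 := ndN1q0) (n2 := ndN4q3) (pc := pcN3) (cut := Cut.none) (xt := Ext.none) (P1 := 0) (W1 := 536870912) (P2 := 0) (W2 := 1230186008) (P3 := 67108864) (W3 := 67108864) (N0 := 3)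
    rfl rfl rfl k0_mm_033

noncomputable def f_mm_101 : ℕ → ℕ → ℕ → ℕ → Bool := onCell 536870912 536870912 0 536870912 67108864 67108864
    (rowNK 3 0 true false false .npn 1 0 1 (qsf 536870912 536870912 0 536870912 1) ndN1q1 ndN4q0 pcN1 Cut.none Ext.none)

def k0_mm_101 : ∃ t, chk3 f_mm_101 t 1 1 1 = true :=
  ⟨(l 4), by decide +kernel⟩

theorem c_mm_101 : CertN 536870912 536870912 0 536870912 67108864 67108864 3 true false false .npn 1 0 1
    ndN1q1 ndN4q0 pcN1 Cut.none Ext.none :=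
  certNK0 (fam := true) (s1 := false) (s2 := false) (a := 1) (b := 0) (c := 1) (cn := .npn) (n1 := ndN1q1) (n2 := ndN4q0) (pc := pcN1) (cut := Cut.none) (xt := Ext.none) (P1 := 536870912) (W1 := 536870912) (P2 := 0) (W2 := 536870912) (P3 := 67108864) (W3 := 67108864) (N0 := 3)
    rfl rfl rfl k0_mm_101

noncomputable def f_mm_102 : ℕ → ℕ → ℕ → ℕ → Bool := onCell 536870912 536870912 0 536870912 67108864 67108864
    (rowNK 3 0 true false false .npp 1 0 2 (qsf 536870912 536870912 0 536870912 2) ndN1q1 ndN4q0 pcN2 Cut.none Ext.none)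

def k0_mm_102 : ∃ t, chk3 f_mm_102 t 1 1 1 = true :=
  ⟨(l 4), by decide +kernel⟩

theorem c_mm_102 : CertN 536870912 536870912 0 536870912 67108864 67108864 3 true false false .npp 1 0 2
    ndN1q1 ndN4q0 pcN2 Cut.none Ext.none :=
  certNK0 (fam := true) (s1 := false) (s2 := false) (a := 1) (b := 0) (c := 2) (cn := .npp) (n1 := ndN1q1) (n2 := ndN4q0) (pc := pcN2) (cut := Cut.none) (xt := Ext.none) (P1 := 536870912) (W1 := 536870912) (P2 := 0) (W2 := 536870912) (P3 := 67108864) (W3 := 67108864) (N0 := 3)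
    rfl rfl rfl k0_mm_102

noncomputable def f_mm_112 : ℕ → ℕ → ℕ → ℕ → Bool := onCell 536870912 536870912 536870912 536870912 67108864 67108864
    (rowNK 3 0 true false false .dn 1 1 2 (qsf 536870912 536870912 536870912 536870912 2) ndN1q1 ndN4q1 pcN2 Cut.none Ext.none)

def k0_mm_112 : ∃ t, chk3 f_mm_112 t 1 1 1 = true :=
  ⟨(l 4), by decide +kernel⟩

theorem c_mm_112 : CertN 536870912 536870912 536870912 536870912 67108864 67108864 3 true false false .dn 1 1 2
    ndN1q1 ndN4q1 pcN2 Cut.none Ext.none :=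
  certNK0 (fam := true) (s1 := false) (s2 := false) (a := 1) (b := 1) (c := 2) (cn := .dn) (n1 := ndN1q1) (n2 := ndN4q1) (pc := pcN2) (cut := Cut.none) (xt := Ext.none) (P1 := 536870912) (W1 := 536870912) (P2 := 536870912) (W2 := 536870912) (P3 := 67108864) (W3 := 67108864) (N0 := 3)
    rfl rfl rfl k0_mm_112

noncomputable def f_mm_113 : ℕ → ℕ → ℕ → ℕ → Bool := onCell 536870912 536870912 536870912 536870912 67108864 67108864
    (rowNK 3 0 true false false .nn 1 1 3 (qsf 536870912 536870912 536870912 536870912 3) ndN1q1 ndN4q1 pcN3 Cut.none Ext.none)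

def k0_mm_113 : ∃ t, chk3 f_mm_113 t 1 1 1 = true :=
  ⟨(l 4), by decide +kernel⟩

theorem c_mm_113 : CertN 536870912 536870912 536870912 536870912 67108864 67108864 3 true false false .nn 1 1 3
    ndN1q1 ndN4q1 pcN3 Cut.none Ext.none :=
  certNK0 (fam := true) (s1 := false) (s2 := false) (a := 1) (b := 1) (c := 3) (cn := .nn) (n1 := ndN1q1) (n2 := ndN4q1) (pc := pcN3) (cut := Cut.none) (xt := Ext.none) (P1 := 536870912) (W1 := 536870912) (P2 := 536870912) (W2 := 536870912) (P3 := 67108864) (W3 := 67108864) (N0 := 3)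
    rfl rfl rfl k0_mm_113

noncomputable def f_mm_123 : ℕ → ℕ → ℕ → ℕ → Bool := onCell 536870912 536870912 1073741824 536870912 67108864 67108864
    (rowNK 3 0 true false false .npn 1 2 3 (qsf 536870912 536870912 1073741824 536870912 3) ndN1q1 ndN4q2 pcN3 Cut.none Ext.none)

def k0_mm_123 : ∃ t, chk3 f_mm_123 t 1 1 1 = true :=
  ⟨(l 4), by decide +kernel⟩

theorem c_mm_123 : CertN 536870912 536870912 1073741824 536870912 67108864 67108864 3 true false false .npn 1 2 3
    ndN1q1 ndN4q2 pcN3 Cut.none Ext.none :=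
  certNK0 (fam := true) (s1 := false) (s2 := false) (a := 1) (b := 2) (c := 3) (cn := .npn) (n1 := ndN1q1) (n2 := ndN4q2) (pc := pcN3) (cut := Cut.none) (xt := Ext.none) (P1 := 536870912) (W1 := 536870912) (P2 := 1073741824) (W2 := 536870912) (P3 := 67108864) (W3 := 67108864) (N0 := 3)
    rfl rfl rfl k0_mm_123

noncomputable def f_mm_133 : ℕ → ℕ → ℕ → ℕ → Bool := onCell 536870912 536870912 0 1230186008 67108864 67108864
    (rowNK 3 0 true false false .dn 1 3 3 (qsf 536870912 536870912 0 1230186008 3) ndN1q1 ndN4q3 pcN3 Cut.none Ext.none)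

def k0_mm_133 : ∃ t, chk3 f_mm_133 t 1 1 1 = true :=
  ⟨(l 4), by decide +kernel⟩

theorem c_mm_133 : CertN 536870912 536870912 0 1230186008 67108864 67108864 3 true false false .dn 1 3 3
    ndN1q1 ndN4q3 pcN3 Cut.none Ext.none :=
  certNK0 (fam := true) (s1 := false) (s2 := false) (a := 1) (b := 3) (c := 3) (cn := .dn) (n1 := ndN1q1) (n2 := ndN4q3) (pc := pcN3) (cut := Cut.none) (xt := Ext.none) (P1 := 536870912) (W1 := 536870912) (P2 := 0) (W2 := 1230186008) (P3 := 67108864) (W3 := 67108864) (N0 := 3)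
    rfl rfl rfl k0_mm_133

noncomputable def f_mm_202_a : ℕ → ℕ → ℕ → ℕ → Bool := onCell 0 536870912 0 536870912 67108864 67108864
    (rowNK 3 0 true false false .pp 2 0 2 (qsf 0 536870912 0 536870912 2) ndN1q2a ndN4q0 pcN2 Cut.none Ext.none)

def k0_mm_202_a : ∃ t, chk3 f_mm_202_a t 1 1 1 = true :=
  ⟨(l 4), by decide +kernel⟩

theorem c_mm_202_a : CertN 0 536870912 0 536870912 67108864 67108864 3 true false false .pp 2 0 2
    ndN1q2a ndN4q0 pcN2 Cut.none Ext.none :=
  certNK0 (fam := true) (s1 := false) (s2 := false) (a := 2) (b := 0) (c := 2) (cn := .pp) (n1 := ndN1q2a) (n2 := ndN4q0) (pc := pcN2) (cut := Cut.none) (xt := Ext.none) (P1 := 0) (W1 := 536870912) (P2 := 0) (W2 := 536870912) (P3 := 67108864) (W3 := 67108864) (N0 := 3)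
    rfl rfl rfl k0_mm_202_a

noncomputable def f_mm_202_b : ℕ → ℕ → ℕ → ℕ → Bool := onCell 1239849684 370763052 0 536870912 67108864 67108864
    (rowNK 3 0 true false false .pp 2 0 2 (qsf 1239849684 370763052 0 536870912 2) ndN1q2b ndN4q0 pcN2 Cut.none Ext.none)

def k0_mm_202_b : ∃ t, chk3 f_mm_202_b t 1 1 1 = true :=
  ⟨(l 4), by decide +kernel⟩

theorem c_mm_202_b : CertN 1239849684 370763052 0 536870912 67108864 67108864 3 true false false .pp 2 0 2
    ndN1q2b ndN4q0 pcN2 Cut.none Ext.none :=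
  certNK0 (fam := true) (s1 := false) (s2 := false) (a := 2) (b := 0) (c := 2) (cn := .pp) (n1 := ndN1q2b) (n2 := ndN4q0) (pc := pcN2) (cut := Cut.none) (xt := Ext.none) (P1 := 1239849684) (W1 := 370763052) (P2 := 0) (W2 := 536870912) (P3 := 67108864) (W3 := 67108864) (N0 := 3)
    rfl rfl rfl k0_mm_202_b

noncomputable def f_mm_203_a : ℕ → ℕ → ℕ → ℕ → Bool := onCell 0 536870912 0 536870912 67108864 67108864
    (rowNK 3 0 true false false .up 2 0 3 (qsf 0 536870912 0 536870912 3) ndN1q2a ndN4q0 pcN3 Cut.none Ext.none)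

def k0_mm_203_a : ∃ t, chk3 f_mm_203_a t 1 1 1 = true :=
  ⟨(l 4), by decide +kernel⟩

theorem c_mm_203_a : CertN 0 536870912 0 536870912 67108864 67108864 3 true false false .up 2 0 3
    ndN1q2a ndN4q0 pcN3 Cut.none Ext.none :=
  certNK0 (fam := true) (s1 := false) (s2 := false) (a := 2) (b := 0) (c := 3) (cn := .up) (n1 := ndN1q2a) (n2 := ndN4q0) (pc := pcN3) (cut := Cut.none) (xt := Ext.none) (P1 := 0) (W1 := 536870912) (P2 := 0) (W2 := 536870912) (P3 := 67108864) (W3 := 67108864) (N0 := 3)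
    rfl rfl rfl k0_mm_203_a

noncomputable def f_mm_203_b : ℕ → ℕ → ℕ → ℕ → Bool := onCell 1239849684 370763052 0 536870912 67108864 67108864
    (rowNK 3 0 true false false .up 2 0 3 (qsf 1239849684 370763052 0 536870912 3) ndN1q2b ndN4q0 pcN3 Cut.none Ext.none)

def k0_mm_203_b : ∃ t, chk3 f_mm_203_b t 1 1 1 = true :=
  ⟨(l 4), by decide +kernel⟩

theorem c_mm_203_b : CertN 1239849684 370763052 0 536870912 67108864 67108864 3 true false false .up 2 0 3
    ndN1q2b ndN4q0 pcN3 Cut.none Ext.none :=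
  certNK0 (fam := true) (s1 := false) (s2 := false) (a := 2) (b := 0) (c := 3) (cn := .up) (n1 := ndN1q2b) (n2 := ndN4q0) (pc := pcN3) (cut := Cut.none) (xt := Ext.none) (P1 := 1239849684) (W1 := 370763052) (P2 := 0) (W2 := 536870912) (P3 := 67108864) (W3 := 67108864) (N0 := 3)
    rfl rfl rfl k0_mm_203_b

noncomputable def f_mm_213_a : ℕ → ℕ → ℕ → ℕ → Bool := onCell 0 536870912 536870912 536870912 67108864 67108864
    (rowNK 3 0 true false false .pnn 2 1 3 (qsf 0 536870912 536870912 536870912 3) ndN1q2a ndN4q1 pcN3 Cut.none Ext.none)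

def k0_mm_213_a : ∃ t, chk3 f_mm_213_a t 1 1 1 = true :=
  ⟨(l 4), by decide +kernel⟩

theorem c_mm_213_a : CertN 0 536870912 536870912 536870912 67108864 67108864 3 true false false .pnn 2 1 3
    ndN1q2a ndN4q1 pcN3 Cut.none Ext.none :=
  certNK0 (fam := true) (s1 := false) (s2 := false) (a := 2) (b := 1) (c := 3) (cn := .pnn) (n1 := ndN1q2a) (n2 := ndN4q1) (pc := pcN3) (cut := Cut.none) (xt := Ext.none) (P1 := 0) (W1 := 536870912) (P2 := 536870912) (W2 := 536870912) (P3 := 67108864) (W3 := 67108864) (N0 := 3)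
    rfl rfl rfl k0_mm_213_a

noncomputable def f_mm_213_b : ℕ → ℕ → ℕ → ℕ → Bool := onCell 1239849684 370763052 536870912 536870912 67108864 67108864
    (rowNK 3 0 true false false .pnn 2 1 3 (qsf 1239849684 370763052 536870912 536870912 3) ndN1q2b ndN4q1 pcN3 Cut.none Ext.none)

def k0_mm_213_b : ∃ t, chk3 f_mm_213_b t 1 1 1 = true :=
  ⟨(l 4), by decide +kernel⟩

theorem c_mm_213_b : CertN 1239849684 370763052 536870912 536870912 67108864 67108864 3 true false false .pnn 2 1 3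
    ndN1q2b ndN4q1 pcN3 Cut.none Ext.none :=
  certNK0 (fam := true) (s1 := false) (s2 := false) (a := 2) (b := 1) (c := 3) (cn := .pnn) (n1 := ndN1q2b) (n2 := ndN4q1) (pc := pcN3) (cut := Cut.none) (xt := Ext.none) (P1 := 1239849684) (W1 := 370763052) (P2 := 536870912) (W2 := 536870912) (P3 := 67108864) (W3 := 67108864) (N0 := 3)
    rfl rfl rfl k0_mm_213_b

noncomputable def f_mm_303 : ℕ → ℕ → ℕ → ℕ → Bool := onCell 1610612736 536870912 0 536870912 67108864 67108864
    (rowNK 3 0 true false false .npn 3 0 3 (qsf 1610612736 536870912 0 536870912 3) ndN1q3 ndN4q0 pcN3 Cut.none Ext.none)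

def k0_mm_303 : ∃ t, chk3 f_mm_303 t 1 1 1 = true :=
  ⟨(l 4), by decide +kernel⟩

theorem c_mm_303 : CertN 1610612736 536870912 0 536870912 67108864 67108864 3 true false false .npn 3 0 3
    ndN1q3 ndN4q0 pcN3 Cut.none Ext.none :=
  certNK0 (fam := true) (s1 := false) (s2 := false) (a := 3) (b := 0) (c := 3) (cn := .npn) (n1 := ndN1q3) (n2 := ndN4q0) (pc := pcN3) (cut := Cut.none) (xt := Ext.none) (P1 := 1610612736) (W1 := 536870912) (P2 := 0) (W2 := 536870912) (P3 := 67108864) (W3 := 67108864) (N0 := 3)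
    rfl rfl rfl k0_mm_303

noncomputable def f_mm_313 : ℕ → ℕ → ℕ → ℕ → Bool := onCell 1610612736 536870912 536870912 536870912 67108864 67108864
    (rowNK 3 0 true false false .dn 3 1 3 (qsf 1610612736 536870912 536870912 536870912 3) ndN1q3 ndN4q1 pcN3 Cut.none Ext.none)

def k0_mm_313 : ∃ t, chk3 f_mm_313 t 1 1 1 = true :=
  ⟨(l 4), by decide +kernel⟩

theorem c_mm_313 : CertN 1610612736 536870912 536870912 536870912 67108864 67108864 3 true false false .dn 3 1 3
    ndN1q3 ndN4q1 pcN3 Cut.none Ext.none :=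
  certNK0 (fam := true) (s1 := false) (s2 := false) (a := 3) (b := 1) (c := 3) (cn := .dn) (n1 := ndN1q3) (n2 := ndN4q1) (pc := pcN3) (cut := Cut.none) (xt := Ext.none) (P1 := 1610612736) (W1 := 536870912) (P2 := 536870912) (W2 := 536870912) (P3 := 67108864) (W3 := 67108864) (N0 := 3)
    rfl rfl rfl k0_mm_313

end Pool.Agent.Strip051.G.I1_16_1_8.Tab.C.NA14

namespace Pool.Agent.Strip051.G.I1_16_1_8.Tab.C.NA22

open Pool.Agent.Strip051.PB Pool.Agent.Strip051.PB.T
open Pool.Agent.Strip051.G.I1_16_1_8.Tab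

noncomputable def f_pp_001 : ℕ → ℕ → ℕ → ℕ → Bool := onCell 0 536870912 0 536870912 67108864 67108864
    (rowNK 3 0 true true true .up 0 0 1 (qsf 0 536870912 0 536870912 1) ndN2q0 ndN2q0 pcN1 Cut.none Ext.none)

def k0_pp_001 : ∃ t, chk3 f_pp_001 t 1 1 1 = true :=
  ⟨(l 4), by decide +kernel⟩

theorem c_pp_001 : CertN 0 536870912 0 536870912 67108864 67108864 3 true true true .up 0 0 1
    ndN2q0 ndN2q0 pcN1 Cut.none Ext.none :=
  certNK0 (fam := true) (s1 := true) (s2 := true) (a := 0) (b := 0) (c := 1) (cn := .up) (n1 := ndN2q0) (n2 := ndN2q0) (pc := pcN1) (cut := Cut.none) (xt := Ext.none) (P1 := 0) (W1 := 536870912) (P2 := 0) (W2 := 536870912) (P3 := 67108864) (W3 := 67108864) (N0 := 3)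
    rfl rfl rfl k0_pp_001

noncomputable def f_pp_011 : ℕ → ℕ → ℕ → ℕ → Bool := onCell 0 536870912 536870912 536870912 67108864 67108864
    (rowNK 3 0 true true true .pnn 0 1 1 (qsf 0 536870912 536870912 536870912 1) ndN2q0 ndN2q1 pcN1 Cut.none Ext.none)

def k0_pp_011 : ∃ t, chk3 f_pp_011 t 1 1 1 = true :=
  ⟨(l 4), by decide +kernel⟩

theorem c_pp_011 : CertN 0 536870912 536870912 536870912 67108864 67108864 3 true true true .pnn 0 1 1
    ndN2q0 ndN2q1 pcN1 Cut.none Ext.none :=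
  certNK0 (fam := true) (s1 := true) (s2 := true) (a := 0) (b := 1) (c := 1) (cn := .pnn) (n1 := ndN2q0) (n2 := ndN2q1) (pc := pcN1) (cut := Cut.none) (xt := Ext.none) (P1 := 0) (W1 := 536870912) (P2 := 536870912) (W2 := 536870912) (P3 := 67108864) (W3 := 67108864) (N0 := 3)
    rfl rfl rfl k0_pp_011

noncomputable def f_pp_012 : ℕ → ℕ → ℕ → ℕ → Bool := onCell 0 536870912 536870912 536870912 67108864 67108864
    (rowNK 3 0 true true true .pnp 0 1 2 (qsf 0 536870912 536870912 536870912 2) ndN2q0 ndN2q1 pcN2 Cut.none Ext.none)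

def k0_pp_012 : ∃ t, chk3 f_pp_012 t 1 1 1 = true :=
  ⟨(l 4), by decide +kernel⟩

theorem c_pp_012 : CertN 0 536870912 536870912 536870912 67108864 67108864 3 true true true .pnp 0 1 2
    ndN2q0 ndN2q1 pcN2 Cut.none Ext.none :=
  certNK0 (fam := true) (s1 := true) (s2 := true) (a := 0) (b := 1) (c := 2) (cn := .pnp) (n1 := ndN2q0) (n2 := ndN2q1) (pc := pcN2) (cut := Cut.none) (xt := Ext.none) (P1 := 0) (W1 := 536870912) (P2 := 536870912) (W2 := 536870912) (P3 := 67108864) (W3 := 67108864) (N0 := 3)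
    rfl rfl rfl k0_pp_012

noncomputable def cut_pp_022_a : Cut := Cut.of [[⟨0, 0, 0, 67108864⟩, ⟨1, 1, 0, 67108864⟩, ⟨2, 1, 0, 67108864⟩]]

noncomputable def f_pp_022_a : ℕ → ℕ → ℕ → ℕ → Bool := onCell 0 536870912 0 536870912 67108864 67108864
    (rowNK 3 0 true true true .pp 0 2 2 (qsf 0 536870912 0 536870912 2) ndN2q0 ndN2q2a pcN2 cut_pp_022_a Ext.none)

def k0_pp_022_a : ∃ t, chk3 f_pp_022_a t 1 1 1 = true :=
  ⟨(a (b (l 4) (a (b (l 4) (b (l 4) (a (a (b (l 4) (l 6)) (l 4)) (l 4)))) (l 4))) (l 4)), by decide +kernel⟩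

theorem c_pp_022_a : CertN 0 536870912 0 536870912 67108864 67108864 3 true true true .pp 0 2 2
    ndN2q0 ndN2q2a pcN2 cut_pp_022_a Ext.none :=
  certNK0 (fam := true) (s1 := true) (s2 := true) (a := 0) (b := 2) (c := 2) (cn := .pp) (n1 := ndN2q0) (n2 := ndN2q2a) (pc := pcN2) (cut := cut_pp_022_a) (xt := Ext.none) (P1 := 0) (W1 := 536870912) (P2 := 0) (W2 := 536870912) (P3 := 67108864) (W3 := 67108864) (N0 := 3)
    rfl rfl rfl k0_pp_022_a

noncomputable def cut_pp_022_b : Cut := Cut.of [[⟨0, 0, 0, 67108864⟩, ⟨1, 1, 0, 67108864⟩, ⟨2, 1, 0, 67108864⟩]]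

noncomputable def f_pp_022_b : ℕ → ℕ → ℕ → ℕ → Bool := onCell 0 536870912 1239849684 370763052 67108864 67108864
    (rowNK 3 0 true true true .pp 0 2 2 (qsf 0 536870912 1239849684 370763052 2) ndN2q0 ndN2q2b pcN2 cut_pp_022_b Ext.none)

def k0_pp_022_b : ∃ t, chk3 f_pp_022_b t 1 1 1 = true :=
  ⟨(a (l 4) (l 4)), by decide +kernel⟩

theorem c_pp_022_b : CertN 0 536870912 1239849684 370763052 67108864 67108864 3 true true true .pp 0 2 2
    ndN2q0 ndN2q2b pcN2 cut_pp_022_b Ext.none :=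
  certNK0 (fam := true) (s1 := true) (s2 := true) (a := 0) (b := 2) (c := 2) (cn := .pp) (n1 := ndN2q0) (n2 := ndN2q2b) (pc := pcN2) (cut := cut_pp_022_b) (xt := Ext.none) (P1 := 0) (W1 := 536870912) (P2 := 1239849684) (W2 := 370763052) (P3 := 67108864) (W3 := 67108864) (N0 := 3)
    rfl rfl rfl k0_pp_022_b

noncomputable def f_pp_023_a : ℕ → ℕ → ℕ → ℕ → Bool := onCell 1610612736 536870912 0 536870912 67108864 67108864
    (rowNK 3 2 true true true .up 0 2 3 (qsf 0 536870912 0 536870912 3) ndN2q0 ndN2q2a pcN3 Cut.none Ext.none)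

def k0_pp_023_a : ∃ t, chk3 f_pp_023_a t 1 1 1 = true :=
  ⟨(l 4), by decide +kernel⟩

theorem c_pp_023_a : CertN 0 536870912 0 536870912 67108864 67108864 3 true true true .up 0 2 3
    ndN2q0 ndN2q2a pcN3 Cut.none Ext.none :=
  certNK2 (fam := true) (s1 := true) (s2 := true) (a := 0) (b := 2) (c := 3) (cn := .up) (n1 := ndN2q0) (n2 := ndN2q2a) (pc := pcN3) (cut := Cut.none) (xt := Ext.none) (P1 := 0) (W1 := 536870912) (P2 := 0) (W2 := 536870912) (P3 := 67108864) (W3 := 67108864) (N0 := 3)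
    rfl rfl rfl (fun _ => rfl) k0_pp_023_a

noncomputable def f_pp_023_b : ℕ → ℕ → ℕ → ℕ → Bool := onCell 1610612736 536870912 1239849684 370763052 67108864 67108864
    (rowNK 3 2 true true true .up 0 2 3 (qsf 0 536870912 1239849684 370763052 3) ndN2q0 ndN2q2b pcN3 Cut.none Ext.none)

def k0_pp_023_b : ∃ t, chk3 f_pp_023_b t 1 1 1 = true :=
  ⟨(l 4), by decide +kernel⟩

theorem c_pp_023_b : CertN 0 536870912 1239849684 370763052 67108864 67108864 3 true true true .up 0 2 3
    ndN2q0 ndN2q2b pcN3 Cut.none Ext.none :=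
  certNK2 (fam := true) (s1 := true) (s2 := true) (a := 0) (b := 2) (c := 3) (cn := .up) (n1 := ndN2q0) (n2 := ndN2q2b) (pc := pcN3) (cut := Cut.none) (xt := Ext.none) (P1 := 0) (W1 := 536870912) (P2 := 1239849684) (W2 := 370763052) (P3 := 67108864) (W3 := 67108864) (N0 := 3)
    rfl rfl rfl (fun _ => rfl) k0_pp_023_b

noncomputable def f_pp_033 : ℕ → ℕ → ℕ → ℕ → Bool := onCell 0 536870912 1610612736 536870912 67108864 67108864
    (rowNK 3 0 true true true .pnn 0 3 3 (qsf 0 536870912 1610612736 536870912 3) ndN2q0 ndN2q3 pcN3 Cut.none Ext.none)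

def k0_pp_033 : ∃ t, chk3 f_pp_033 t 1 1 1 = true :=
  ⟨(l 4), by decide +kernel⟩

theorem c_pp_033 : CertN 0 536870912 1610612736 536870912 67108864 67108864 3 true true true .pnn 0 3 3
    ndN2q0 ndN2q3 pcN3 Cut.none Ext.none :=
  certNK0 (fam := true) (s1 := true) (s2 := true) (a := 0) (b := 3) (c := 3) (cn := .pnn) (n1 := ndN2q0) (n2 := ndN2q3) (pc := pcN3) (cut := Cut.none) (xt := Ext.none) (P1 := 0) (W1 := 536870912) (P2 := 1610612736) (W2 := 536870912) (P3 := 67108864) (W3 := 67108864) (N0 := 3)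
    rfl rfl rfl k0_pp_033

noncomputable def f_pp_101 : ℕ → ℕ → ℕ → ℕ → Bool := onCell 536870912 536870912 0 536870912 67108864 67108864
    (rowNK 3 0 true true true .npn 1 0 1 (qsf 536870912 536870912 0 536870912 1) ndN2q1 ndN2q0 pcN1 Cut.none Ext.none)

def k0_pp_101 : ∃ t, chk3 f_pp_101 t 1 1 1 = true :=
  ⟨(l 4), by decide +kernel⟩

theorem c_pp_101 : CertN 536870912 536870912 0 536870912 67108864 67108864 3 true true true .npn 1 0 1
    ndN2q1 ndN2q0 pcN1 Cut.none Ext.none :=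
  certNK0 (fam := true) (s1 := true) (s2 := true) (a := 1) (b := 0) (c := 1) (cn := .npn) (n1 := ndN2q1) (n2 := ndN2q0) (pc := pcN1) (cut := Cut.none) (xt := Ext.none) (P1 := 536870912) (W1 := 536870912) (P2 := 0) (W2 := 536870912) (P3 := 67108864) (W3 := 67108864) (N0 := 3)
    rfl rfl rfl k0_pp_101

noncomputable def f_pp_102 : ℕ → ℕ → ℕ → ℕ → Bool := onCell 536870912 536870912 0 536870912 67108864 67108864
    (rowNK 3 0 true true true .npp 1 0 2 (qsf 536870912 536870912 0 536870912 2) ndN2q1 ndN2q0 pcN2 Cut.none Ext.none)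

def k0_pp_102 : ∃ t, chk3 f_pp_102 t 1 1 1 = true :=
  ⟨(l 4), by decide +kernel⟩

theorem c_pp_102 : CertN 536870912 536870912 0 536870912 67108864 67108864 3 true true true .npp 1 0 2
    ndN2q1 ndN2q0 pcN2 Cut.none Ext.none :=
  certNK0 (fam := true) (s1 := true) (s2 := true) (a := 1) (b := 0) (c := 2) (cn := .npp) (n1 := ndN2q1) (n2 := ndN2q0) (pc := pcN2) (cut := Cut.none) (xt := Ext.none) (P1 := 536870912) (W1 := 536870912) (P2 := 0) (W2 := 536870912) (P3 := 67108864) (W3 := 67108864) (N0 := 3)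
    rfl rfl rfl k0_pp_102

noncomputable def f_pp_112 : ℕ → ℕ → ℕ → ℕ → Bool := onCell 536870912 536870912 536870912 536870912 67108864 67108864
    (rowNK 3 0 true true true .dn 1 1 2 (qsf 536870912 536870912 536870912 536870912 2) ndN2q1 ndN2q1 pcN2 Cut.none Ext.none)

def k0_pp_112 : ∃ t, chk3 f_pp_112 t 1 1 1 = true :=
  ⟨(l 4), by decide +kernel⟩

theorem c_pp_112 : CertN 536870912 536870912 536870912 536870912 67108864 67108864 3 true true true .dn 1 1 2
    ndN2q1 ndN2q1 pcN2 Cut.none Ext.none :=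
  certNK0 (fam := true) (s1 := true) (s2 := true) (a := 1) (b := 1) (c := 2) (cn := .dn) (n1 := ndN2q1) (n2 := ndN2q1) (pc := pcN2) (cut := Cut.none) (xt := Ext.none) (P1 := 536870912) (W1 := 536870912) (P2 := 536870912) (W2 := 536870912) (P3 := 67108864) (W3 := 67108864) (N0 := 3)
    rfl rfl rfl k0_pp_112

noncomputable def f_pp_113 : ℕ → ℕ → ℕ → ℕ → Bool := onCell 536870912 536870912 536870912 536870912 67108864 67108864
    (rowNK 3 0 true true true .nn 1 1 3 (qsf 536870912 536870912 536870912 536870912 3) ndN2q1 ndN2q1 pcN3 Cut.none Ext.none)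

def k0_pp_113 : ∃ t, chk3 f_pp_113 t 1 1 1 = true :=
  ⟨(l 4), by decide +kernel⟩

theorem c_pp_113 : CertN 536870912 536870912 536870912 536870912 67108864 67108864 3 true true true .nn 1 1 3
    ndN2q1 ndN2q1 pcN3 Cut.none Ext.none :=
  certNK0 (fam := true) (s1 := true) (s2 := true) (a := 1) (b := 1) (c := 3) (cn := .nn) (n1 := ndN2q1) (n2 := ndN2q1) (pc := pcN3) (cut := Cut.none) (xt := Ext.none) (P1 := 536870912) (W1 := 536870912) (P2 := 536870912) (W2 := 536870912) (P3 := 67108864) (W3 := 67108864) (N0 := 3)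
    rfl rfl rfl k0_pp_113

noncomputable def f_pp_123_a : ℕ → ℕ → ℕ → ℕ → Bool := onCell 536870912 536870912 0 536870912 67108864 67108864
    (rowNK 3 0 true true true .npn 1 2 3 (qsf 536870912 536870912 0 536870912 3) ndN2q1 ndN2q2a pcN3 Cut.none Ext.none)

def k0_pp_123_a : ∃ t, chk3 f_pp_123_a t 1 1 1 = true :=
  ⟨(l 4), by decide +kernel⟩

theorem c_pp_123_a : CertN 536870912 536870912 0 536870912 67108864 67108864 3 true true true .npn 1 2 3
    ndN2q1 ndN2q2a pcN3 Cut.none Ext.none :=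
  certNK0 (fam := true) (s1 := true) (s2 := true) (a := 1) (b := 2) (c := 3) (cn := .npn) (n1 := ndN2q1) (n2 := ndN2q2a) (pc := pcN3) (cut := Cut.none) (xt := Ext.none) (P1 := 536870912) (W1 := 536870912) (P2 := 0) (W2 := 536870912) (P3 := 67108864) (W3 := 67108864) (N0 := 3)
    rfl rfl rfl k0_pp_123_a

noncomputable def f_pp_123_b : ℕ → ℕ → ℕ → ℕ → Bool := onCell 536870912 536870912 1239849684 370763052 67108864 67108864
    (rowNK 3 0 true true true .npn 1 2 3 (qsf 536870912 536870912 1239849684 370763052 3) ndN2q1 ndN2q2b pcN3 Cut.none Ext.none)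

def k0_pp_123_b : ∃ t, chk3 f_pp_123_b t 1 1 1 = true :=
  ⟨(l 4), by decide +kernel⟩

theorem c_pp_123_b : CertN 536870912 536870912 1239849684 370763052 67108864 67108864 3 true true true .npn 1 2 3
    ndN2q1 ndN2q2b pcN3 Cut.none Ext.none :=
  certNK0 (fam := true) (s1 := true) (s2 := true) (a := 1) (b := 2) (c := 3) (cn := .npn) (n1 := ndN2q1) (n2 := ndN2q2b) (pc := pcN3) (cut := Cut.none) (xt := Ext.none) (P1 := 536870912) (W1 := 536870912) (P2 := 1239849684) (W2 := 370763052) (P3 := 67108864) (W3 := 67108864) (N0 := 3)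
    rfl rfl rfl k0_pp_123_b

noncomputable def f_pp_133 : ℕ → ℕ → ℕ → ℕ → Bool := onCell 536870912 536870912 1610612736 536870912 67108864 67108864
    (rowNK 3 0 true true true .dn 1 3 3 (qsf 536870912 536870912 1610612736 536870912 3) ndN2q1 ndN2q3 pcN3 Cut.none Ext.none)

def k0_pp_133 : ∃ t, chk3 f_pp_133 t 1 1 1 = true :=
  ⟨(l 4), by decide +kernel⟩

theorem c_pp_133 : CertN 536870912 536870912 1610612736 536870912 67108864 67108864 3 true true true .dn 1 3 3
    ndN2q1 ndN2q3 pcN3 Cut.none Ext.none :=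
  certNK0 (fam := true) (s1 := true) (s2 := true) (a := 1) (b := 3) (c := 3) (cn := .dn) (n1 := ndN2q1) (n2 := ndN2q3) (pc := pcN3) (cut := Cut.none) (xt := Ext.none) (P1 := 536870912) (W1 := 536870912) (P2 := 1610612736) (W2 := 536870912) (P3 := 67108864) (W3 := 67108864) (N0 := 3)
    rfl rfl rfl k0_pp_133

noncomputable def f_pp_202_a : ℕ → ℕ → ℕ → ℕ → Bool := onCell 0 536870912 0 536870912 67108864 67108864
    (rowNK 3 0 true true true .pp 2 0 2 (qsf 0 536870912 0 536870912 2) ndN2q2a ndN2q0 pcN2 Cut.none Ext.none)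

def k0_pp_202_a : ∃ t, chk3 f_pp_202_a t 1 1 1 = true :=
  ⟨(l 5), by decide +kernel⟩

theorem c_pp_202_a : CertN 0 536870912 0 536870912 67108864 67108864 3 true true true .pp 2 0 2
    ndN2q2a ndN2q0 pcN2 Cut.none Ext.none :=
  certNK0 (fam := true) (s1 := true) (s2 := true) (a := 2) (b := 0) (c := 2) (cn := .pp) (n1 := ndN2q2a) (n2 := ndN2q0) (pc := pcN2) (cut := Cut.none) (xt := Ext.none) (P1 := 0) (W1 := 536870912) (P2 := 0) (W2 := 536870912) (P3 := 67108864) (W3 := 67108864) (N0 := 3)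
    rfl rfl rfl k0_pp_202_a

noncomputable def f_pp_202_b : ℕ → ℕ → ℕ → ℕ → Bool := onCell 1239849684 370763052 0 536870912 67108864 67108864
    (rowNK 3 0 true true true .pp 2 0 2 (qsf 1239849684 370763052 0 536870912 2) ndN2q2b ndN2q0 pcN2 Cut.none Ext.none)

def k0_pp_202_b : ∃ t, chk3 f_pp_202_b t 1 1 1 = true :=
  ⟨(l 5), by decide +kernel⟩

theorem c_pp_202_b : CertN 1239849684 370763052 0 536870912 67108864 67108864 3 true true true .pp 2 0 2
    ndN2q2b ndN2q0 pcN2 Cut.none Ext.none :=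
  certNK0 (fam := true) (s1 := true) (s2 := true) (a := 2) (b := 0) (c := 2) (cn := .pp) (n1 := ndN2q2b) (n2 := ndN2q0) (pc := pcN2) (cut := Cut.none) (xt := Ext.none) (P1 := 1239849684) (W1 := 370763052) (P2 := 0) (W2 := 536870912) (P3 := 67108864) (W3 := 67108864) (N0 := 3)
    rfl rfl rfl k0_pp_202_b

noncomputable def f_pp_203_a : ℕ → ℕ → ℕ → ℕ → Bool := onCell 0 536870912 0 536870912 67108864 67108864
    (rowNK 3 0 true true true .up 2 0 3 (qsf 0 536870912 0 536870912 3) ndN2q2a ndN2q0 pcN3 Cut.none Ext.none)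

def k0_pp_203_a : ∃ t, chk3 f_pp_203_a t 1 1 1 = true :=
  ⟨(l 5), by decide +kernel⟩

theorem c_pp_203_a : CertN 0 536870912 0 536870912 67108864 67108864 3 true true true .up 2 0 3
    ndN2q2a ndN2q0 pcN3 Cut.none Ext.none :=
  certNK0 (fam := true) (s1 := true) (s2 := true) (a := 2) (b := 0) (c := 3) (cn := .up) (n1 := ndN2q2a) (n2 := ndN2q0) (pc := pcN3) (cut := Cut.none) (xt := Ext.none) (P1 := 0) (W1 := 536870912) (P2 := 0) (W2 := 536870912) (P3 := 67108864) (W3 := 67108864) (N0 := 3)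
    rfl rfl rfl k0_pp_203_a

noncomputable def f_pp_203_b : ℕ → ℕ → ℕ → ℕ → Bool := onCell 1239849684 370763052 0 536870912 67108864 67108864
    (rowNK 3 0 true true true .up 2 0 3 (qsf 1239849684 370763052 0 536870912 3) ndN2q2b ndN2q0 pcN3 Cut.none Ext.none)

def k0_pp_203_b : ∃ t, chk3 f_pp_203_b t 1 1 1 = true :=
  ⟨(l 5), by decide +kernel⟩

theorem c_pp_203_b : CertN 1239849684 370763052 0 536870912 67108864 67108864 3 true true true .up 2 0 3
    ndN2q2b ndN2q0 pcN3 Cut.none Ext.none :=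
  certNK0 (fam := true) (s1 := true) (s2 := true) (a := 2) (b := 0) (c := 3) (cn := .up) (n1 := ndN2q2b) (n2 := ndN2q0) (pc := pcN3) (cut := Cut.none) (xt := Ext.none) (P1 := 1239849684) (W1 := 370763052) (P2 := 0) (W2 := 536870912) (P3 := 67108864) (W3 := 67108864) (N0 := 3)
    rfl rfl rfl k0_pp_203_b

noncomputable def f_pp_213_a : ℕ → ℕ → ℕ → ℕ → Bool := onCell 0 536870912 536870912 536870912 67108864 67108864
    (rowNK 3 0 true true true .pnn 2 1 3 (qsf 0 536870912 536870912 536870912 3) ndN2q2a ndN2q1 pcN3 Cut.none Ext.none)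

def k0_pp_213_a : ∃ t, chk3 f_pp_213_a t 1 1 1 = true :=
  ⟨(l 4), by decide +kernel⟩

theorem c_pp_213_a : CertN 0 536870912 536870912 536870912 67108864 67108864 3 true true true .pnn 2 1 3
    ndN2q2a ndN2q1 pcN3 Cut.none Ext.none :=
  certNK0 (fam := true) (s1 := true) (s2 := true) (a := 2) (b := 1) (c := 3) (cn := .pnn) (n1 := ndN2q2a) (n2 := ndN2q1) (pc := pcN3) (cut := Cut.none) (xt := Ext.none) (P1 := 0) (W1 := 536870912) (P2 := 536870912) (W2 := 536870912) (P3 := 67108864) (W3 := 67108864) (N0 := 3)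
    rfl rfl rfl k0_pp_213_a

noncomputable def f_pp_213_b : ℕ → ℕ → ℕ → ℕ → Bool := onCell 1239849684 370763052 536870912 536870912 67108864 67108864
    (rowNK 3 0 true true true .pnn 2 1 3 (qsf 1239849684 370763052 536870912 536870912 3) ndN2q2b ndN2q1 pcN3 Cut.none Ext.none)

def k0_pp_213_b : ∃ t, chk3 f_pp_213_b t 1 1 1 = true :=
  ⟨(l 4), by decide +kernel⟩

theorem c_pp_213_b : CertN 1239849684 370763052 536870912 536870912 67108864 67108864 3 true true true .pnn 2 1 3
    ndN2q2b ndN2q1 pcN3 Cut.none Ext.none :=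
  certNK0 (fam := true) (s1 := true) (s2 := true) (a := 2) (b := 1) (c := 3) (cn := .pnn) (n1 := ndN2q2b) (n2 := ndN2q1) (pc := pcN3) (cut := Cut.none) (xt := Ext.none) (P1 := 1239849684) (W1 := 370763052) (P2 := 536870912) (W2 := 536870912) (P3 := 67108864) (W3 := 67108864) (N0 := 3)
    rfl rfl rfl k0_pp_213_b

noncomputable def f_pp_303 : ℕ → ℕ → ℕ → ℕ → Bool := onCell 1610612736 536870912 0 536870912 67108864 67108864
    (rowNK 3 0 true true true .npn 3 0 3 (qsf 1610612736 536870912 0 536870912 3) ndN2q3 ndN2q0 pcN3 Cut.none Ext.none)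

def k0_pp_303 : ∃ t, chk3 f_pp_303 t 1 1 1 = true :=
  ⟨(l 4), by decide +kernel⟩

theorem c_pp_303 : CertN 1610612736 536870912 0 536870912 67108864 67108864 3 true true true .npn 3 0 3
    ndN2q3 ndN2q0 pcN3 Cut.none Ext.none :=
  certNK0 (fam := true) (s1 := true) (s2 := true) (a := 3) (b := 0) (c := 3) (cn := .npn) (n1 := ndN2q3) (n2 := ndN2q0) (pc := pcN3) (cut := Cut.none) (xt := Ext.none) (P1 := 1610612736) (W1 := 536870912) (P2 := 0) (W2 := 536870912) (P3 := 67108864) (W3 := 67108864) (N0 := 3)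
    rfl rfl rfl k0_pp_303

noncomputable def f_pp_313 : ℕ → ℕ → ℕ → ℕ → Bool := onCell 1610612736 536870912 536870912 536870912 67108864 67108864
    (rowNK 3 0 true true true .dn 3 1 3 (qsf 1610612736 536870912 536870912 536870912 3) ndN2q3 ndN2q1 pcN3 Cut.none Ext.none)

def k0_pp_313 : ∃ t, chk3 f_pp_313 t 1 1 1 = true :=
  ⟨(l 4), by decide +kernel⟩

theorem c_pp_313 : CertN 1610612736 536870912 536870912 536870912 67108864 67108864 3 true true true .dn 3 1 3
    ndN2q3 ndN2q1 pcN3 Cut.none Ext.none :=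
  certNK0 (fam := true) (s1 := true) (s2 := true) (a := 3) (b := 1) (c := 3) (cn := .dn) (n1 := ndN2q3) (n2 := ndN2q1) (pc := pcN3) (cut := Cut.none) (xt := Ext.none) (P1 := 1610612736) (W1 := 536870912) (P2 := 536870912) (W2 := 536870912) (P3 := 67108864) (W3 := 67108864) (N0 := 3)
    rfl rfl rfl k0_pp_313

noncomputable def f_pm_001 : ℕ → ℕ → ℕ → ℕ → Bool := onCell 0 536870912 0 536870912 67108864 67108864
    (rowNK 3 0 true true false .up 0 0 1 (qsf 0 536870912 0 536870912 1) ndN2q0 ndN2q0 pcN1 Cut.none Ext.none)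

def k0_pm_001 : ∃ t, chk3 f_pm_001 t 1 1 1 = true :=
  ⟨(a (l 3) (l 3)), by decide +kernel⟩

theorem c_pm_001 : CertN 0 536870912 0 536870912 67108864 67108864 3 true true false .up 0 0 1
    ndN2q0 ndN2q0 pcN1 Cut.none Ext.none :=
  certNK0 (fam := true) (s1 := true) (s2 := false) (a := 0) (b := 0) (c := 1) (cn := .up) (n1 := ndN2q0) (n2 := ndN2q0) (pc := pcN1) (cut := Cut.none) (xt := Ext.none) (P1 := 0) (W1 := 536870912) (P2 := 0) (W2 := 536870912) (P3 := 67108864) (W3 := 67108864) (N0 := 3)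
    rfl rfl rfl k0_pm_001

noncomputable def cut_pm_011 : Cut := Cut.of [[⟨0, 0, 0, 67108864⟩, ⟨1, 1, 0, 67108864⟩, ⟨2, 1, 0, 67108864⟩]]

noncomputable def f_pm_011 : ℕ → ℕ → ℕ → ℕ → Bool := onCell 0 536870912 536870912 536870912 67108864 67108864
    (rowNK 3 1 true true false .pnn 0 1 1 (qsf 0 536870912 536870912 536870912 1) ndN2q0 ndN2q1 pcN1 cut_pm_011 Ext.none)

def k0_pm_011 : ∃ t, chk3 f_pm_011 t 1 1 1 = true :=
  ⟨(a (b (l 3) (a (b (l 3) (a (b (l 3) (a (a (b (l 3) (l 6)) (l 3)) (l 3))) (l 3))) (l 3))) (l 3)), by decide +kernel⟩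

theorem c_pm_011 : CertN 0 536870912 536870912 536870912 67108864 67108864 3 true true false .pnn 0 1 1
    ndN2q0 ndN2q1 pcN1 cut_pm_011 Ext.none :=
  certNK1 (fam := true) (s1 := true) (s2 := false) (a := 0) (b := 1) (c := 1) (cn := .pnn) (n1 := ndN2q0) (n2 := ndN2q1) (pc := pcN1) (cut := cut_pm_011) (xt := Ext.none) (P1 := 0) (W1 := 536870912) (P2 := 536870912) (W2 := 536870912) (P3 := 67108864) (W3 := 67108864) (N0 := 3)
    rfl rfl rfl (fun _ => rfl) k0_pm_011

noncomputable def cut_pm_012 : Cut := Cut.of [[⟨0, 0, 0, 67108864⟩, ⟨1, 1, 0, 67108864⟩, ⟨2, 1, 0, 67108864⟩]]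

noncomputable def f_pm_012 : ℕ → ℕ → ℕ → ℕ → Bool := onCell 1073741824 536870912 536870912 536870912 67108864 67108864
    (rowNK 3 2 true true false .pnp 0 1 2 (qsf 0 536870912 536870912 536870912 2) ndN2q0 ndN2q1 pcN2 cut_pm_012 Ext.none)

def k0_pm_012 : ∃ t, chk3 f_pm_012 t 1 1 1 = true :=
  ⟨(a (b (a (l 3) (a (a (a (l 3) (a (l 17593288) (l 17866408))) (l 17734024)) (l 17937320))) (a (b (b (l 3) (a (l 3) (l 18528840))) (b (a (l 3) (a (l 18378936) (l 18798632))) (b (a (l 3) (a (l 17936560) (l 18628864))) (a (a (b (l 3) (l 6)) (b (l 17151408) (a (l 16992616) (l 17081816)))) (a (l 17301600) (l 18316464)))))) (b (a (a (a (l 18454768) (b (l 18196240) (l 18810216))) (l 18527656)) (l 18514104)) (b (a (a (a (l 18996920) (l 19086184)) (l 19171952)) (l 19213696)) (b (a (a (a (l 18945272) (l 19087736)) (l 19226032)) (l 19317216)) (a (a (a (l 18819568) (a (l 18990056) (l 19081328))) (l 19245536)) (l 19395560))))))) (b (b (l 2) (l 18224688)) (b (a (l 18488704) (l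 18292504)) (b (l 18798888) (b (l 18884960) (l 18949472)))))), by decide +kernel⟩

theorem c_pm_012 : CertN 0 536870912 536870912 536870912 67108864 67108864 3 true true false .pnp 0 1 2
    ndN2q0 ndN2q1 pcN2 cut_pm_012 Ext.none :=
  certNK2 (fam := true) (s1 := true) (s2 := false) (a := 0) (b := 1) (c := 2) (cn := .pnp) (n1 := ndN2q0) (n2 := ndN2q1) (pc := pcN2) (cut := cut_pm_012) (xt := Ext.none) (P1 := 0) (W1 := 536870912) (P2 := 536870912) (W2 := 536870912) (P3 := 67108864) (W3 := 67108864) (N0 := 3)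
    rfl rfl rfl (fun _ => rfl) k0_pm_012

noncomputable def cut_pm_022_a : Cut := Cut.of [[⟨0, 0, 0, 67108864⟩, ⟨1, 1, 0, 67108864⟩, ⟨2, 1, 0, 67108864⟩]]

noncomputable def f_pm_022_a : ℕ → ℕ → ℕ → ℕ → Bool := onCell 0 536870912 0 536870912 67108864 67108864
    (rowNK 3 0 true true false .pp 0 2 2 (qsf 0 536870912 0 536870912 2) ndN2q0 ndN2q2a pcN2 cut_pm_022_a Ext.none)

def k0_pm_022_a : ∃ t, chk3 f_pm_022_a t 1 1 1 = true :=
  ⟨(a (b (a (a (a (b (a (a (l 17977360) (l 18151008)) (l 18172504)) (a (a (b (c (l 18380216) (b (l 17568552) (l 17445744))) (c (l 18002168) (a (b (l 17259064) (l 16965528)) (l 17225920)))) (b (l 17997880) (l 17768192))) (b (l 18051688) (l 17866552)))) (b (l 18169360) (l 18033592))) (l 18035760)) (l 17949208)) (a (b (a (a (b (a (a (c (b (l 17767200) (b (l 17564208) (c (l 17890544) (l 17168248)))) (a (b (l 16705392) (l 16620736)) (l 16640280))) (b (l 17497352) (l 17235896))) (l 17548760)) (a (b (a (a (a (b (l 16643800) (l 16627928))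 (l 16633464)) (l 16690592)) (l 16876616)) (a (a (b (a (l 16638744) (l 16624800)) (a (l 16655928) (l 16640896))) (l 16685328)) (l 16719744))) (b (l 17168616) (l 16793456)))) (b (l 17770456) (a (l 17314576) (l 17529184)))) (b (l 17910344) (a (l 17716536) (l 17819648)))) (a (b (a (b (a (a (b (a (a (a (l 16669656) (l 16659968)) (l 16658632)) (l 16675336)) (a (a (a (b (l 16674992) (l 6)) (l 16695552)) (l 16697304)) (l 16692736))) (a (l 16760304) (l 16764144))) (l 16860056)) (a (a (b (a (l 6) (l 16751528)) (l 6)) (b (l 16763288) (l 16825888))) (b (l 16831800) (a (l 16788056) (l 16838920))))) (b (l 17042288) (a (l 16974200) (l 17002152)))) (a (b (a (l 6) (b (a (l 6) (l 16857904)) (l 6))) (l 6)) (b (a (l 17005432) (l 17039864)) (a (b (l 17006432) (l 6)) (l 17175576))))) (b (a (l 17595144) (l 17687768)) (a (b (l 17230808) (l 17289992)) (l 17596592))))) (b (l 17888536) (b (l 17956512) (a (l 17743976) (l 17829240)))))) (b (a (l 17911128) (l 18203784)) (a (b (l 18002952)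 (b (l 18091840) (l 18183008))) (b (l 18324640) (b (l 18426296) (l 18516072)))))), by decide +kernel⟩

theorem c_pm_022_a : CertN 0 536870912 0 536870912 67108864 67108864 3 true true false .pp 0 2 2
    ndN2q0 ndN2q2a pcN2 cut_pm_022_a Ext.none :=
  certNK0 (fam := true) (s1 := true) (s2 := false) (a := 0) (b := 2) (c := 2) (cn := .pp) (n1 := ndN2q0) (n2 := ndN2q2a) (pc := pcN2) (cut := cut_pm_022_a) (xt := Ext.none) (P1 := 0) (W1 := 536870912) (P2 := 0) (W2 := 536870912) (P3 := 67108864) (W3 := 67108864) (N0 := 3)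
    rfl rfl rfl k0_pm_022_a

noncomputable def cut_pm_022_b : Cut := Cut.of [[⟨0, 0, 0, 67108864⟩, ⟨1, 1, 0, 67108864⟩, ⟨2, 1, 0, 67108864⟩]]

noncomputable def f_pm_022_b : ℕ → ℕ → ℕ → ℕ → Bool := onCell 0 536870912 1239849684 370763052 67108864 67108864
    (rowNK 3 0 true true false .pp 0 2 2 (qsf 0 536870912 1239849684 370763052 2) ndN2q0 ndN2q2b pcN2 cut_pm_022_b Ext.none)

def k0_pm_022_b : ∃ t, chk3 f_pm_022_b t 1 1 1 = true :=
  ⟨(a (b (b (a (a (a (b (a (b (l 18305224) (l 18481672)) (l 18368640)) (l 18583568)) (l 18359016)) (l 18106664)) (a (l 17773928) (l 17505976))) (a (a (l 18525312) (l 18075640)) (l 17564872))) (a (a (b (l 18446024) (l 18373192)) (l 17933304)) (b (a (l 17506560) (l 2)) (l 2)))) (b (a (b (l 17771544) (l 17547704)) (l 2)) (l 2))), by decide +kernel⟩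

theorem c_pm_022_b : CertN 0 536870912 1239849684 370763052 67108864 67108864 3 true true false .pp 0 2 2
    ndN2q0 ndN2q2b pcN2 cut_pm_022_b Ext.none :=
  certNK0 (fam := true) (s1 := true) (s2 := false) (a := 0) (b := 2) (c := 2) (cn := .pp) (n1 := ndN2q0) (n2 := ndN2q2b) (pc := pcN2) (cut := cut_pm_022_b) (xt := Ext.none) (P1 := 0) (W1 := 536870912) (P2 := 1239849684) (W2 := 370763052) (P3 := 67108864) (W3 := 67108864) (N0 := 3)
    rfl rfl rfl k0_pm_022_b

noncomputable def f_pm_023_a : ℕ → ℕ → ℕ → ℕ → Bool := onCell 1610612736 536870912 0 536870912 67108864 67108864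
    (rowNK 3 2 true true false .up 0 2 3 (qsf 0 536870912 0 536870912 3) ndN2q0 ndN2q2a pcN3 Cut.none Ext.none)

def k0_pm_023_a : ∃ t, chk3 f_pm_023_a t 1 1 1 = true :=
  ⟨(a (b (a (l 17490120) (l 18008584)) (a (b (l 17702800) (b (l 17861408) (l 17967240))) (b (l 2) (l 2)))) (l 2)), by decide +kernel⟩

theorem c_pm_023_a : CertN 0 536870912 0 536870912 67108864 67108864 3 true true false .up 0 2 3
    ndN2q0 ndN2q2a pcN3 Cut.none Ext.none :=
  certNK2 (fam := true) (s1 := true) (s2 := false) (a := 0) (b := 2) (c := 3) (cn := .up) (n1 := ndN2q0) (n2 := ndN2q2a) (pc := pcN3) (cut := Cut.none) (xt := Ext.none) (P1 := 0) (W1 := 536870912) (P2 := 0) (W2 := 536870912) (P3 := 67108864) (W3 := 67108864) (N0 := 3)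
    rfl rfl rfl (fun _ => rfl) k0_pm_023_a

noncomputable def f_pm_023_b : ℕ → ℕ → ℕ → ℕ → Bool := onCell 1610612736 536870912 1239849684 370763052 67108864 67108864
    (rowNK 3 2 true true false .up 0 2 3 (qsf 0 536870912 1239849684 370763052 3) ndN2q0 ndN2q2b pcN3 Cut.none Ext.none)

def k0_pm_023_b : ∃ t, chk3 f_pm_023_b t 1 1 1 = true :=
  ⟨(b (a (a (a (l 17104816) (l 17133616)) (a (l 17639144) (l 17901328))) (l 4)) (a (a (a (b (l 17805424) (l 281356653255)) (l 17501912)) (a (l 17093120) (l 17146664))) (l 4))), by decide +kernel⟩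

theorem c_pm_023_b : CertN 0 536870912 1239849684 370763052 67108864 67108864 3 true true false .up 0 2 3
    ndN2q0 ndN2q2b pcN3 Cut.none Ext.none :=
  certNK2 (fam := true) (s1 := true) (s2 := false) (a := 0) (b := 2) (c := 3) (cn := .up) (n1 := ndN2q0) (n2 := ndN2q2b) (pc := pcN3) (cut := Cut.none) (xt := Ext.none) (P1 := 0) (W1 := 536870912) (P2 := 1239849684) (W2 := 370763052) (P3 := 67108864) (W3 := 67108864) (N0 := 3)
    rfl rfl rfl (fun _ => rfl) k0_pm_023_b

noncomputable def f_pm_033 : ℕ → ℕ → ℕ → ℕ → Bool := onCell 0 536870912 1610612736 536870912 67108864 67108864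
    (rowNK 3 1 true true false .pnn 0 3 3 (qsf 0 536870912 1610612736 536870912 3) ndN2q0 ndN2q3 pcN3 Cut.none Ext.none)

def k0_pm_033 : ∃ t, chk3 f_pm_033 t 1 1 1 = true :=
  ⟨(b (a (b (a (a (b (l 19006304) (l 18779360)) (l 18866456)) (l 18687024)) (a (b (l 18814528) (l 18802608)) (l 18658344))) (b (l 1) (a (l 18075944) (l 1)))) (b (a (a (b (l 18646544) (l 4)) (l 18217536)) (l 4)) (l 4))), by decide +kernel⟩

theorem c_pm_033 : CertN 0 536870912 1610612736 536870912 67108864 67108864 3 true true false .pnn 0 3 3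
    ndN2q0 ndN2q3 pcN3 Cut.none Ext.none :=
  certNK1 (fam := true) (s1 := true) (s2 := false) (a := 0) (b := 3) (c := 3) (cn := .pnn) (n1 := ndN2q0) (n2 := ndN2q3) (pc := pcN3) (cut := Cut.none) (xt := Ext.none) (P1 := 0) (W1 := 536870912) (P2 := 1610612736) (W2 := 536870912) (P3 := 67108864) (W3 := 67108864) (N0 := 3)
    rfl rfl rfl (fun _ => rfl) k0_pm_033

noncomputable def cut_pm_101 : Cut := Cut.of [[⟨0, 1, 0, 67108864⟩, ⟨1, 0, 0, 67108864⟩, ⟨2, 1, 0, 67108864⟩]]

noncomputable def f_pm_101 : ℕ → ℕ → ℕ → ℕ → Bool := onCell 536870912 536870912 0 536870912 67108864 67108864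
    (rowNK 3 2 true true false .npn 1 0 1 (qsf 536870912 536870912 0 536870912 1) ndN2q1 ndN2q0 pcN1 cut_pm_101 Ext.none)

def k0_pm_101 : ∃ t, chk3 f_pm_101 t 1 1 1 = true :=
  ⟨(a (l 3) (b (a (l 3) (b (a (l 3) (b (a (l 3) (a (l 3) (b (l 6) (l 3)))) (l 3))) (l 3))) (l 3))), by decide +kernel⟩

theorem c_pm_101 : CertN 536870912 536870912 0 536870912 67108864 67108864 3 true true false .npn 1 0 1
    ndN2q1 ndN2q0 pcN1 cut_pm_101 Ext.none :=
  certNK2 (fam := true) (s1 := true) (s2 := false) (a := 1) (b := 0) (c := 1) (cn := .npn) (n1 := ndN2q1) (n2 := ndN2q0) (pc := pcN1) (cut := cut_pm_101) (xt := Ext.none) (P1 := 536870912) (W1 := 536870912) (P2 := 0) (W2 := 536870912) (P3 := 67108864) (W3 := 67108864) (N0 := 3)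
    rfl rfl rfl (fun _ => rfl) k0_pm_101

noncomputable def cut_pm_102 : Cut := Cut.of [[⟨0, 1, 0, 67108864⟩, ⟨1, 0, 0, 67108864⟩, ⟨2, 1, 0, 67108864⟩]]

noncomputable def f_pm_102 : ℕ → ℕ → ℕ → ℕ → Bool := onCell 536870912 536870912 1073741824 536870912 67108864 67108864
    (rowNK 3 1 true true false .npp 1 0 2 (qsf 536870912 536870912 0 536870912 2) ndN2q1 ndN2q0 pcN2 cut_pm_102 Ext.none)

def k0_pm_102 : ∃ t, chk3 f_pm_102 t 1 1 1 = true :=
  ⟨(a (b (b (l 3) (b (a (l 17669624) (b (b (l 3) (l 17693672)) (l 17800736))) (l 17937320))) (a (l 2) (l 18224688))) (b (a (b (a (l 3) (b (l 3) (l 18528840))) (b (a (b (l 18368456) (l 18226552)) (a (l 18773704) (l 19136008))) (l 18514104))) (b (a (b (l 3) (b (l 18378936) (l 18798632))) (a (b (l 3) (b (l 17936560) (l 18628864))) (b (b (a (l 3) (l 6)) (a (l 17151408) (b (l 16992616) (l 17081816)))) (b (l 17301600) (l 18316464))))) (a (b (b (b (l 18996920) (l 19086184)) (l 19171952)) (l 19213696)) (a (b (b (b (l 18945272)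 (l 19087736)) (l 19226032)) (l 19317216)) (b (b (b (l 18819568) (b (l 18990056) (l 19081328))) (l 19245536)) (l 19395560)))))) (a (b (l 18488704) (l 18292504)) (a (l 18798888) (a (l 18884960) (l 18949472)))))), by decide +kernel⟩

theorem c_pm_102 : CertN 536870912 536870912 0 536870912 67108864 67108864 3 true true false .npp 1 0 2
    ndN2q1 ndN2q0 pcN2 cut_pm_102 Ext.none :=
  certNK1 (fam := true) (s1 := true) (s2 := false) (a := 1) (b := 0) (c := 2) (cn := .npp) (n1 := ndN2q1) (n2 := ndN2q0) (pc := pcN2) (cut := cut_pm_102) (xt := Ext.none) (P1 := 536870912) (W1 := 536870912) (P2 := 0) (W2 := 536870912) (P3 := 67108864) (W3 := 67108864) (N0 := 3)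
    rfl rfl rfl (fun _ => rfl) k0_pm_102

noncomputable def f_pm_112 : ℕ → ℕ → ℕ → ℕ → Bool := onCell 536870912 536870912 536870912 536870912 67108864 67108864
    (rowNK 3 0 true true false .dn 1 1 2 (qsf 536870912 536870912 536870912 536870912 2) ndN2q1 ndN2q1 pcN2 Cut.none Ext.none)

def k0_pm_112 : ∃ t, chk3 f_pm_112 t 1 1 1 = true :=
  ⟨(a (b (a (b (a (b (l 3) (b (a (l 3) (l 19263768)) (l 19126408))) (b (a (b (l 3) (l 19263768)) (l 19126408)) (l 18856272))) (b (l 378665828503) (l 17956528))) (b (a (l 378665828503) (l 17956528)) (l 17232424))) (b (a (l 18536264) (l 18208712)) (b (l 19577144) (b (l 19852824) (l 20009024))))) (b (a (b (l 18536264) (l 18208712)) (a (l 19577144) (a (l 19852824) (l 20009024)))) (a (b (l 17676296) (l 2)) (l 2)))), by decide +kernel⟩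

theorem c_pm_112 : CertN 536870912 536870912 536870912 536870912 67108864 67108864 3 true true false .dn 1 1 2
    ndN2q1 ndN2q1 pcN2 Cut.none Ext.none :=
  certNK0 (fam := true) (s1 := true) (s2 := false) (a := 1) (b := 1) (c := 2) (cn := .dn) (n1 := ndN2q1) (n2 := ndN2q1) (pc := pcN2) (cut := Cut.none) (xt := Ext.none) (P1 := 536870912) (W1 := 536870912) (P2 := 536870912) (W2 := 536870912) (P3 := 67108864) (W3 := 67108864) (N0 := 3)
    rfl rfl rfl k0_pm_112

noncomputable def f_pm_113 : ℕ → ℕ → ℕ → ℕ → Bool := onCell 536870912 536870912 536870912 536870912 67108864 67108864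
    (rowNK 3 0 true true false .nn 1 1 3 (qsf 536870912 536870912 536870912 536870912 3) ndN2q1 ndN2q1 pcN3 Cut.none Ext.none)

def k0_pm_113 : ∃ t, chk3 f_pm_113 t 1 1 1 = true :=
  ⟨(a (b (a (l 1) (l 657166096295)) (b (a (l 18289256) (l 18144744)) (b (l 19449608) (b (l 19743456) (l 19916704))))) (b (a (b (l 18289256) (l 18144744)) (a (l 19449608) (a (l 19743456) (l 19916704)))) (a (b (l 17739208) (b (l 18140568) (b (l 18149480) (l 18130176)))) (b (a (l 18140568) (a (l 18149480) (l 18130176))) (a (b (l 17359608) (b (l 17265872) (l 17176920))) (b (a (l 17265872) (l 17176920)) (a (b (l 17074008) (l 16980472)) (b (l 16980472) (l 16876600))))))))), by decide +kernel⟩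

theorem c_pm_113 : CertN 536870912 536870912 536870912 536870912 67108864 67108864 3 true true false .nn 1 1 3
    ndN2q1 ndN2q1 pcN3 Cut.none Ext.none :=
  certNK0 (fam := true) (s1 := true) (s2 := false) (a := 1) (b := 1) (c := 3) (cn := .nn) (n1 := ndN2q1) (n2 := ndN2q1) (pc := pcN3) (cut := Cut.none) (xt := Ext.none) (P1 := 536870912) (W1 := 536870912) (P2 := 536870912) (W2 := 536870912) (P3 := 67108864) (W3 := 67108864) (N0 := 3)
    rfl rfl rfl k0_pm_113

noncomputable def f_pm_123_a : ℕ → ℕ → ℕ → ℕ → Bool := onCell 1610612736 536870912 0 536870912 67108864 67108864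
    (rowNK 3 2 true true false .npn 1 2 3 (qsf 536870912 536870912 0 536870912 3) ndN2q1 ndN2q2a pcN3 Cut.none Ext.none)

def k0_pm_123_a : ∃ t, chk3 f_pm_123_a t 1 1 1 = true :=
  ⟨(a (b (a (l 19263224) (l 18740944)) (a (b (l 19181264) (b (l 19039248) (l 18886408))) (b (l 18485144) (b (l 18209552) (l 17963288))))) (l 4)), by decide +kernel⟩

theorem c_pm_123_a : CertN 536870912 536870912 0 536870912 67108864 67108864 3 true true false .npn 1 2 3
    ndN2q1 ndN2q2a pcN3 Cut.none Ext.none :=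
  certNK2 (fam := true) (s1 := true) (s2 := false) (a := 1) (b := 2) (c := 3) (cn := .npn) (n1 := ndN2q1) (n2 := ndN2q2a) (pc := pcN3) (cut := Cut.none) (xt := Ext.none) (P1 := 536870912) (W1 := 536870912) (P2 := 0) (W2 := 536870912) (P3 := 67108864) (W3 := 67108864) (N0 := 3)
    rfl rfl rfl (fun _ => rfl) k0_pm_123_a

noncomputable def f_pm_123_b : ℕ → ℕ → ℕ → ℕ → Bool := onCell 536870912 536870912 1239849684 370763052 67108864 67108864
    (rowNK 3 0 true true false .npn 1 2 3 (qsf 536870912 536870912 1239849684 370763052 3) ndN2q1 ndN2q2b pcN3 Cut.none Ext.none)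

def k0_pm_123_b : ∃ t, chk3 f_pm_123_b t 1 1 1 = true :=
  ⟨(a (b (a (b (a (l 18689112) (l 4)) (l 4)) (l 4)) (l 4)) (l 4)), by decide +kernel⟩

theorem c_pm_123_b : CertN 536870912 536870912 1239849684 370763052 67108864 67108864 3 true true false .npn 1 2 3
    ndN2q1 ndN2q2b pcN3 Cut.none Ext.none :=
  certNK0 (fam := true) (s1 := true) (s2 := false) (a := 1) (b := 2) (c := 3) (cn := .npn) (n1 := ndN2q1) (n2 := ndN2q2b) (pc := pcN3) (cut := Cut.none) (xt := Ext.none) (P1 := 536870912) (W1 := 536870912) (P2 := 1239849684) (W2 := 370763052) (P3 := 67108864) (W3 := 67108864) (N0 := 3)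
    rfl rfl rfl k0_pm_123_b

noncomputable def f_pm_133 : ℕ → ℕ → ℕ → ℕ → Bool := onCell 536870912 536870912 1610612736 536870912 67108864 67108864
    (rowNK 3 0 true true false .dn 1 3 3 (qsf 536870912 536870912 1610612736 536870912 3) ndN2q1 ndN2q3 pcN3 Cut.none Ext.none)

def k0_pm_133 : ∃ t, chk3 f_pm_133 t 1 1 1 = true :=
  ⟨(l 4), by decide +kernel⟩

theorem c_pm_133 : CertN 536870912 536870912 1610612736 536870912 67108864 67108864 3 true true false .dn 1 3 3
    ndN2q1 ndN2q3 pcN3 Cut.none Ext.none :=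
  certNK0 (fam := true) (s1 := true) (s2 := false) (a := 1) (b := 3) (c := 3) (cn := .dn) (n1 := ndN2q1) (n2 := ndN2q3) (pc := pcN3) (cut := Cut.none) (xt := Ext.none) (P1 := 536870912) (W1 := 536870912) (P2 := 1610612736) (W2 := 536870912) (P3 := 67108864) (W3 := 67108864) (N0 := 3)
    rfl rfl rfl k0_pm_133

noncomputable def cut_pm_202_a : Cut := Cut.of [[⟨0, 1, 0, 67108864⟩, ⟨1, 0, 0, 67108864⟩, ⟨2, 1, 0, 67108864⟩]]

noncomputable def f_pm_202_a : ℕ → ℕ → ℕ → ℕ → Bool := onCell 0 536870912 0 536870912 67108864 67108864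
    (rowNK 3 0 true true false .pp 2 0 2 (qsf 0 536870912 0 536870912 2) ndN2q2a ndN2q0 pcN2 cut_pm_202_a Ext.none)

def k0_pm_202_a : ∃ t, chk3 f_pm_202_a t 1 1 1 = true :=
  ⟨(a (b (b (b (b (a (a (l 18125648) (b (l 17964856) (l 18152704))) (b (a (b (c (l 18379992) (a (l 17568536) (l 17424760))) (l 17997880)) (b (c (a (l 18237440) (l 18099616)) (b (a (l 17259048) (l 16923568)) (l 17225920))) (l 17768192))) (a (l 18051688) (l 17866552)))) (a (l 18169360) (l 18033592))) (a (l 18065640) (l 18017552))) (l 17970176)) (b (l 17911128) (l 18203784))) (b (a (b (b (b (a (b (c (b (a (l 17725216) (a (l 17564208) (c (l 17890536) (l 17147272)))) (l 17889432)) (b (b (a (l 16663440) (l 16620736)) (l 16640280)) (l 16855096))) (l 17548760)) (b (a (b (a (l 16623056) (b (l 16642456) (l 16602560))) (l 16876616)) (b (b (a (b (l 16638744) (l 16624800)) (b (l 16655928) (l 16640896))) (l 16706296)) (l 16719744))) (a (l 17168616) (l 16793456)))) (a (l 17770456) (b (l 17314576) (l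 17529184)))) (a (l 17910344) (b (l 17716536) (l 17819648)))) (l 17888536)) (b (a (b (b (a (b (b (b (a (b (a (l 16658280) (l 16664856)) (l 16658632)) (a (a (l 16667040) (l 16671768)) (a (l 16676512) (l 6)))) (a (l 16675336) (l 16692736))) (b (l 16760304) (l 16764144))) (l 16881032)) (b (b (a (b (l 6) (l 16751528)) (l 6)) (a (l 16763288) (l 16846856))) (a (l 16831800) (b (l 16788056) (l 16838920))))) (a (l 17042288) (b (l 16974200) (l 17002152)))) (b (l 17595144) (l 17687768))) (b (a (b (b (l 6) (a (b (l 6) (l 16857904)) (l 6))) (b (l 17005432) (l 17039864))) (b (l 6) (b (a (l 17006432) (l 6)) (l 17175576)))) (b (a (l 17230808) (l 17269024)) (l 17596656)))) (a (l 17956512) (b (l 17744056) (l 17829248))))) (a (b (l 18002952) (l 18324640)) (a (b (l 18091840) (l 18426296)) (b (l 18183016) (l 18516072)))))), by decide +kernel⟩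

theorem c_pm_202_a : CertN 0 536870912 0 536870912 67108864 67108864 3 true true false .pp 2 0 2
    ndN2q2a ndN2q0 pcN2 cut_pm_202_a Ext.none :=
  certNK0 (fam := true) (s1 := true) (s2 := false) (a := 2) (b := 0) (c := 2) (cn := .pp) (n1 := ndN2q2a) (n2 := ndN2q0) (pc := pcN2) (cut := cut_pm_202_a) (xt := Ext.none) (P1 := 0) (W1 := 536870912) (P2 := 0) (W2 := 536870912) (P3 := 67108864) (W3 := 67108864) (N0 := 3)
    rfl rfl rfl k0_pm_202_a

noncomputable def cut_pm_202_b : Cut := Cut.of [[⟨0, 1, 0, 67108864⟩, ⟨1, 0, 0, 67108864⟩, ⟨2, 1, 0, 67108864⟩]]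

noncomputable def f_pm_202_b : ℕ → ℕ → ℕ → ℕ → Bool := onCell 1239849684 370763052 0 536870912 67108864 67108864
    (rowNK 3 0 true true false .pp 2 0 2 (qsf 1239849684 370763052 0 536870912 2) ndN2q2b ndN2q0 pcN2 cut_pm_202_b Ext.none)

def k0_pm_202_b : ∃ t, chk3 f_pm_202_b t 1 1 1 = true :=
  ⟨(b (a (b (b (a (b (a (b (a (l 18305224) (l 18481672)) (l 18368640)) (l 18583568)) (l 18359016)) (l 18525312)) (a (l 18106664) (l 18075640))) (b (l 17708760) (a (l 17505976) (l 17267008)))) (b (b (a (l 18446024) (l 18373192)) (l 17933304)) (a (b (l 17506560) (l 2)) (l 2)))) (a (b (a (l 17771544) (l 17547704)) (l 2)) (l 2))), by decide +kernel⟩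

theorem c_pm_202_b : CertN 1239849684 370763052 0 536870912 67108864 67108864 3 true true false .pp 2 0 2
    ndN2q2b ndN2q0 pcN2 cut_pm_202_b Ext.none :=
  certNK0 (fam := true) (s1 := true) (s2 := false) (a := 2) (b := 0) (c := 2) (cn := .pp) (n1 := ndN2q2b) (n2 := ndN2q0) (pc := pcN2) (cut := cut_pm_202_b) (xt := Ext.none) (P1 := 1239849684) (W1 := 370763052) (P2 := 0) (W2 := 536870912) (P3 := 67108864) (W3 := 67108864) (N0 := 3)
    rfl rfl rfl k0_pm_202_b

noncomputable def f_pm_203_a : ℕ → ℕ → ℕ → ℕ → Bool := onCell 0 536870912 1610612736 536870912 67108864 67108864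
    (rowNK 3 1 true true false .up 2 0 3 (qsf 0 536870912 0 536870912 3) ndN2q2a ndN2q0 pcN3 Cut.none Ext.none)

def k0_pm_203_a : ∃ t, chk3 f_pm_203_a t 1 1 1 = true :=
  ⟨(b (a (b (l 17490120) (l 18008584)) (a (b (l 17702800) (l 2)) (b (a (l 17861408) (l 17967240)) (l 2)))) (l 2)), by decide +kernel⟩

theorem c_pm_203_a : CertN 0 536870912 0 536870912 67108864 67108864 3 true true false .up 2 0 3
    ndN2q2a ndN2q0 pcN3 Cut.none Ext.none :=
  certNK1 (fam := true) (s1 := true) (s2 := false) (a := 2) (b := 0) (c := 3) (cn := .up) (n1 := ndN2q2a) (n2 := ndN2q0) (pc := pcN3) (cut := Cut.none) (xt := Ext.none) (P1 := 0) (W1 := 536870912) (P2 := 0) (W2 := 536870912) (P3 := 67108864) (W3 := 67108864) (N0 := 3)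
    rfl rfl rfl (fun _ => rfl) k0_pm_203_a

noncomputable def f_pm_203_b : ℕ → ℕ → ℕ → ℕ → Bool := onCell 1239849684 370763052 1610612736 536870912 67108864 67108864
    (rowNK 3 1 true true false .up 2 0 3 (qsf 1239849684 370763052 0 536870912 3) ndN2q2b ndN2q0 pcN3 Cut.none Ext.none)

def k0_pm_203_b : ∃ t, chk3 f_pm_203_b t 1 1 1 = true :=
  ⟨(a (b (b (b (l 17104816) (l 17133616)) (b (l 17639144) (l 17901328))) (l 4)) (b (b (b (a (l 17805424) (l 300684006087)) (l 17501912)) (b (l 17093120) (l 17146664))) (l 4))), by decide +kernel⟩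

theorem c_pm_203_b : CertN 1239849684 370763052 0 536870912 67108864 67108864 3 true true false .up 2 0 3
    ndN2q2b ndN2q0 pcN3 Cut.none Ext.none :=
  certNK1 (fam := true) (s1 := true) (s2 := false) (a := 2) (b := 0) (c := 3) (cn := .up) (n1 := ndN2q2b) (n2 := ndN2q0) (pc := pcN3) (cut := Cut.none) (xt := Ext.none) (P1 := 1239849684) (W1 := 370763052) (P2 := 0) (W2 := 536870912) (P3 := 67108864) (W3 := 67108864) (N0 := 3)
    rfl rfl rfl (fun _ => rfl) k0_pm_203_b

noncomputable def f_pm_213_a : ℕ → ℕ → ℕ → ℕ → Bool := onCell 0 536870912 1610612736 536870912 67108864 67108864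
    (rowNK 3 1 true true false .pnn 2 1 3 (qsf 0 536870912 536870912 536870912 3) ndN2q2a ndN2q1 pcN3 Cut.none Ext.none)

def k0_pm_213_a : ∃ t, chk3 f_pm_213_a t 1 1 1 = true :=
  ⟨(b (a (b (l 19263224) (l 18740944)) (a (b (l 19181264) (l 18485144)) (b (a (l 19039248) (l 18886408)) (a (l 18209552) (l 17963288))))) (l 4)), by decide +kernel⟩

theorem c_pm_213_a : CertN 0 536870912 536870912 536870912 67108864 67108864 3 true true false .pnn 2 1 3
    ndN2q2a ndN2q1 pcN3 Cut.none Ext.none :=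
  certNK1 (fam := true) (s1 := true) (s2 := false) (a := 2) (b := 1) (c := 3) (cn := .pnn) (n1 := ndN2q2a) (n2 := ndN2q1) (pc := pcN3) (cut := Cut.none) (xt := Ext.none) (P1 := 0) (W1 := 536870912) (P2 := 536870912) (W2 := 536870912) (P3 := 67108864) (W3 := 67108864) (N0 := 3)
    rfl rfl rfl (fun _ => rfl) k0_pm_213_a

noncomputable def f_pm_213_b : ℕ → ℕ → ℕ → ℕ → Bool := onCell 1239849684 370763052 536870912 536870912 67108864 67108864
    (rowNK 3 0 true true false .pnn 2 1 3 (qsf 1239849684 370763052 536870912 536870912 3) ndN2q2b ndN2q1 pcN3 Cut.none Ext.none)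

def k0_pm_213_b : ∃ t, chk3 f_pm_213_b t 1 1 1 = true :=
  ⟨(b (a (b (a (b (l 18689112) (l 4)) (l 4)) (l 4)) (l 4)) (l 4)), by decide +kernel⟩

theorem c_pm_213_b : CertN 1239849684 370763052 536870912 536870912 67108864 67108864 3 true true false .pnn 2 1 3
    ndN2q2b ndN2q1 pcN3 Cut.none Ext.none :=
  certNK0 (fam := true) (s1 := true) (s2 := false) (a := 2) (b := 1) (c := 3) (cn := .pnn) (n1 := ndN2q2b) (n2 := ndN2q1) (pc := pcN3) (cut := Cut.none) (xt := Ext.none) (P1 := 1239849684) (W1 := 370763052) (P2 := 536870912) (W2 := 536870912) (P3 := 67108864) (W3 := 67108864) (N0 := 3)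
    rfl rfl rfl k0_pm_213_b

noncomputable def f_pm_303 : ℕ → ℕ → ℕ → ℕ → Bool := onCell 1610612736 536870912 0 536870912 67108864 67108864
    (rowNK 3 2 true true false .npn 3 0 3 (qsf 1610612736 536870912 0 536870912 3) ndN2q3 ndN2q0 pcN3 Cut.none Ext.none)

def k0_pm_303 : ∃ t, chk3 f_pm_303 t 1 1 1 = true :=
  ⟨(a (b (a (b (b (a (l 19006304) (l 18779360)) (l 18866456)) (l 18687024)) (b (a (l 18814528) (l 18802608)) (l 18658344))) (a (l 1) (b (l 18075944) (l 1)))) (a (b (b (a (l 18646544) (l 4)) (l 18217536)) (l 4)) (l 4))), by decide +kernel⟩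

theorem c_pm_303 : CertN 1610612736 536870912 0 536870912 67108864 67108864 3 true true false .npn 3 0 3
    ndN2q3 ndN2q0 pcN3 Cut.none Ext.none :=
  certNK2 (fam := true) (s1 := true) (s2 := false) (a := 3) (b := 0) (c := 3) (cn := .npn) (n1 := ndN2q3) (n2 := ndN2q0) (pc := pcN3) (cut := Cut.none) (xt := Ext.none) (P1 := 1610612736) (W1 := 536870912) (P2 := 0) (W2 := 536870912) (P3 := 67108864) (W3 := 67108864) (N0 := 3)
    rfl rfl rfl (fun _ => rfl) k0_pm_303

noncomputable def f_pm_313 : ℕ → ℕ → ℕ → ℕ → Bool := onCell 1610612736 536870912 536870912 536870912 67108864 67108864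
    (rowNK 3 0 true true false .dn 3 1 3 (qsf 1610612736 536870912 536870912 536870912 3) ndN2q3 ndN2q1 pcN3 Cut.none Ext.none)

def k0_pm_313 : ∃ t, chk3 f_pm_313 t 1 1 1 = true :=
  ⟨(l 4), by decide +kernel⟩

theorem c_pm_313 : CertN 1610612736 536870912 536870912 536870912 67108864 67108864 3 true true false .dn 3 1 3
    ndN2q3 ndN2q1 pcN3 Cut.none Ext.none :=
  certNK0 (fam := true) (s1 := true) (s2 := false) (a := 3) (b := 1) (c := 3) (cn := .dn) (n1 := ndN2q3) (n2 := ndN2q1) (pc := pcN3) (cut := Cut.none) (xt := Ext.none) (P1 := 1610612736) (W1 := 536870912) (P2 := 536870912) (W2 := 536870912) (P3 := 67108864) (W3 := 67108864) (N0 := 3)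
    rfl rfl rfl k0_pm_313

noncomputable def f_mm_001 : ℕ → ℕ → ℕ → ℕ → Bool := onCell 0 536870912 0 536870912 67108864 67108864
    (rowNK 3 0 true false false .up 0 0 1 (qsf 0 536870912 0 536870912 1) ndN2q0 ndN2q0 pcN1 Cut.none Ext.none)

def k0_mm_001 : ∃ t, chk3 f_mm_001 t 1 1 1 = true :=
  ⟨(l 4), by decide +kernel⟩

theorem c_mm_001 : CertN 0 536870912 0 536870912 67108864 67108864 3 true false false .up 0 0 1
    ndN2q0 ndN2q0 pcN1 Cut.none Ext.none :=
  certNK0 (fam := true) (s1 := false) (s2 := false) (a := 0) (b := 0) (c := 1) (cn := .up) (n1 := ndN2q0) (n2 := ndN2q0) (pc := pcN1) (cut := Cut.none) (xt := Ext.none) (P1 := 0) (W1 := 536870912) (P2 := 0) (W2 := 536870912) (P3 := 67108864) (W3 := 67108864) (N0 := 3)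
    rfl rfl rfl k0_mm_001

noncomputable def f_mm_011 : ℕ → ℕ → ℕ → ℕ → Bool := onCell 0 536870912 536870912 536870912 67108864 67108864
    (rowNK 3 0 true false false .pnn 0 1 1 (qsf 0 536870912 536870912 536870912 1) ndN2q0 ndN2q1 pcN1 Cut.none Ext.none)

def k0_mm_011 : ∃ t, chk3 f_mm_011 t 1 1 1 = true :=
  ⟨(l 4), by decide +kernel⟩

theorem c_mm_011 : CertN 0 536870912 536870912 536870912 67108864 67108864 3 true false false .pnn 0 1 1
    ndN2q0 ndN2q1 pcN1 Cut.none Ext.none :=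
  certNK0 (fam := true) (s1 := false) (s2 := false) (a := 0) (b := 1) (c := 1) (cn := .pnn) (n1 := ndN2q0) (n2 := ndN2q1) (pc := pcN1) (cut := Cut.none) (xt := Ext.none) (P1 := 0) (W1 := 536870912) (P2 := 536870912) (W2 := 536870912) (P3 := 67108864) (W3 := 67108864) (N0 := 3)
    rfl rfl rfl k0_mm_011

noncomputable def f_mm_012 : ℕ → ℕ → ℕ → ℕ → Bool := onCell 0 536870912 536870912 536870912 67108864 67108864
    (rowNK 3 0 true false false .pnp 0 1 2 (qsf 0 536870912 536870912 536870912 2) ndN2q0 ndN2q1 pcN2 Cut.none Ext.none)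

def k0_mm_012 : ∃ t, chk3 f_mm_012 t 1 1 1 = true :=
  ⟨(l 4), by decide +kernel⟩

theorem c_mm_012 : CertN 0 536870912 536870912 536870912 67108864 67108864 3 true false false .pnp 0 1 2
    ndN2q0 ndN2q1 pcN2 Cut.none Ext.none :=
  certNK0 (fam := true) (s1 := false) (s2 := false) (a := 0) (b := 1) (c := 2) (cn := .pnp) (n1 := ndN2q0) (n2 := ndN2q1) (pc := pcN2) (cut := Cut.none) (xt := Ext.none) (P1 := 0) (W1 := 536870912) (P2 := 536870912) (W2 := 536870912) (P3 := 67108864) (W3 := 67108864) (N0 := 3)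
    rfl rfl rfl k0_mm_012

noncomputable def f_mm_022_a : ℕ → ℕ → ℕ → ℕ → Bool := onCell 0 536870912 0 536870912 67108864 67108864
    (rowNK 3 0 true false false .pp 0 2 2 (qsf 0 536870912 0 536870912 2) ndN2q0 ndN2q2a pcN2 Cut.none Ext.none)

def k0_mm_022_a : ∃ t, chk3 f_mm_022_a t 1 1 1 = true :=
  ⟨(l 5), by decide +kernel⟩

theorem c_mm_022_a : CertN 0 536870912 0 536870912 67108864 67108864 3 true false false .pp 0 2 2
    ndN2q0 ndN2q2a pcN2 Cut.none Ext.none :=
  certNK0 (fam := true) (s1 := false) (s2 := false) (a := 0) (b := 2) (c := 2) (cn := .pp) (n1 := ndN2q0) (n2 := ndN2q2a) (pc := pcN2) (cut := Cut.none) (xt := Ext.none) (P1 := 0) (W1 := 536870912) (P2 := 0) (W2 := 536870912) (P3 := 67108864) (W3 := 67108864) (N0 := 3)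
    rfl rfl rfl k0_mm_022_a

noncomputable def f_mm_022_b : ℕ → ℕ → ℕ → ℕ → Bool := onCell 0 536870912 1239849684 370763052 67108864 67108864
    (rowNK 3 0 true false false .pp 0 2 2 (qsf 0 536870912 1239849684 370763052 2) ndN2q0 ndN2q2b pcN2 Cut.none Ext.none)

def k0_mm_022_b : ∃ t, chk3 f_mm_022_b t 1 1 1 = true :=
  ⟨(l 5), by decide +kernel⟩

theorem c_mm_022_b : CertN 0 536870912 1239849684 370763052 67108864 67108864 3 true false false .pp 0 2 2
    ndN2q0 ndN2q2b pcN2 Cut.none Ext.none :=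
  certNK0 (fam := true) (s1 := false) (s2 := false) (a := 0) (b := 2) (c := 2) (cn := .pp) (n1 := ndN2q0) (n2 := ndN2q2b) (pc := pcN2) (cut := Cut.none) (xt := Ext.none) (P1 := 0) (W1 := 536870912) (P2 := 1239849684) (W2 := 370763052) (P3 := 67108864) (W3 := 67108864) (N0 := 3)
    rfl rfl rfl k0_mm_022_b

noncomputable def f_mm_023_a : ℕ → ℕ → ℕ → ℕ → Bool := onCell 0 536870912 0 536870912 67108864 67108864
    (rowNK 3 0 true false false .up 0 2 3 (qsf 0 536870912 0 536870912 3) ndN2q0 ndN2q2a pcN3 Cut.none Ext.none)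

def k0_mm_023_a : ∃ t, chk3 f_mm_023_a t 1 1 1 = true :=
  ⟨(l 5), by decide +kernel⟩

theorem c_mm_023_a : CertN 0 536870912 0 536870912 67108864 67108864 3 true false false .up 0 2 3
    ndN2q0 ndN2q2a pcN3 Cut.none Ext.none :=
  certNK0 (fam := true) (s1 := false) (s2 := false) (a := 0) (b := 2) (c := 3) (cn := .up) (n1 := ndN2q0) (n2 := ndN2q2a) (pc := pcN3) (cut := Cut.none) (xt := Ext.none) (P1 := 0) (W1 := 536870912) (P2 := 0) (W2 := 536870912) (P3 := 67108864) (W3 := 67108864) (N0 := 3)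
    rfl rfl rfl k0_mm_023_a

noncomputable def f_mm_023_b : ℕ → ℕ → ℕ → ℕ → Bool := onCell 0 536870912 1239849684 370763052 67108864 67108864
    (rowNK 3 0 true false false .up 0 2 3 (qsf 0 536870912 1239849684 370763052 3) ndN2q0 ndN2q2b pcN3 Cut.none Ext.none)

def k0_mm_023_b : ∃ t, chk3 f_mm_023_b t 1 1 1 = true :=
  ⟨(l 5), by decide +kernel⟩

theorem c_mm_023_b : CertN 0 536870912 1239849684 370763052 67108864 67108864 3 true false false .up 0 2 3
    ndN2q0 ndN2q2b pcN3 Cut.none Ext.none :=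
  certNK0 (fam := true) (s1 := false) (s2 := false) (a := 0) (b := 2) (c := 3) (cn := .up) (n1 := ndN2q0) (n2 := ndN2q2b) (pc := pcN3) (cut := Cut.none) (xt := Ext.none) (P1 := 0) (W1 := 536870912) (P2 := 1239849684) (W2 := 370763052) (P3 := 67108864) (W3 := 67108864) (N0 := 3)
    rfl rfl rfl k0_mm_023_b

noncomputable def f_mm_033 : ℕ → ℕ → ℕ → ℕ → Bool := onCell 0 536870912 1610612736 536870912 67108864 67108864
    (rowNK 3 0 true false false .pnn 0 3 3 (qsf 0 536870912 1610612736 536870912 3) ndN2q0 ndN2q3 pcN3 Cut.none Ext.none)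

def k0_mm_033 : ∃ t, chk3 f_mm_033 t 1 1 1 = true :=
  ⟨(l 4), by decide +kernel⟩

theorem c_mm_033 : CertN 0 536870912 1610612736 536870912 67108864 67108864 3 true false false .pnn 0 3 3
    ndN2q0 ndN2q3 pcN3 Cut.none Ext.none :=
  certNK0 (fam := true) (s1 := false) (s2 := false) (a := 0) (b := 3) (c := 3) (cn := .pnn) (n1 := ndN2q0) (n2 := ndN2q3) (pc := pcN3) (cut := Cut.none) (xt := Ext.none) (P1 := 0) (W1 := 536870912) (P2 := 1610612736) (W2 := 536870912) (P3 := 67108864) (W3 := 67108864) (N0 := 3)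
    rfl rfl rfl k0_mm_033

noncomputable def f_mm_101 : ℕ → ℕ → ℕ → ℕ → Bool := onCell 536870912 536870912 0 536870912 67108864 67108864
    (rowNK 3 0 true false false .npn 1 0 1 (qsf 536870912 536870912 0 536870912 1) ndN2q1 ndN2q0 pcN1 Cut.none Ext.none)

def k0_mm_101 : ∃ t, chk3 f_mm_101 t 1 1 1 = true :=
  ⟨(l 4), by decide +kernel⟩

theorem c_mm_101 : CertN 536870912 536870912 0 536870912 67108864 67108864 3 true false false .npn 1 0 1
    ndN2q1 ndN2q0 pcN1 Cut.none Ext.none :=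
  certNK0 (fam := true) (s1 := false) (s2 := false) (a := 1) (b := 0) (c := 1) (cn := .npn) (n1 := ndN2q1) (n2 := ndN2q0) (pc := pcN1) (cut := Cut.none) (xt := Ext.none) (P1 := 536870912) (W1 := 536870912) (P2 := 0) (W2 := 536870912) (P3 := 67108864) (W3 := 67108864) (N0 := 3)
    rfl rfl rfl k0_mm_101

noncomputable def f_mm_102 : ℕ → ℕ → ℕ → ℕ → Bool := onCell 536870912 536870912 0 536870912 67108864 67108864
    (rowNK 3 0 true false false .npp 1 0 2 (qsf 536870912 536870912 0 536870912 2) ndN2q1 ndN2q0 pcN2 Cut.none Ext.none)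

def k0_mm_102 : ∃ t, chk3 f_mm_102 t 1 1 1 = true :=
  ⟨(l 4), by decide +kernel⟩

theorem c_mm_102 : CertN 536870912 536870912 0 536870912 67108864 67108864 3 true false false .npp 1 0 2
    ndN2q1 ndN2q0 pcN2 Cut.none Ext.none :=
  certNK0 (fam := true) (s1 := false) (s2 := false) (a := 1) (b := 0) (c := 2) (cn := .npp) (n1 := ndN2q1) (n2 := ndN2q0) (pc := pcN2) (cut := Cut.none) (xt := Ext.none) (P1 := 536870912) (W1 := 536870912) (P2 := 0) (W2 := 536870912) (P3 := 67108864) (W3 := 67108864) (N0 := 3)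
    rfl rfl rfl k0_mm_102

noncomputable def f_mm_112 : ℕ → ℕ → ℕ → ℕ → Bool := onCell 536870912 536870912 536870912 536870912 67108864 67108864
    (rowNK 3 0 true false false .dn 1 1 2 (qsf 536870912 536870912 536870912 536870912 2) ndN2q1 ndN2q1 pcN2 Cut.none Ext.none)

def k0_mm_112 : ∃ t, chk3 f_mm_112 t 1 1 1 = true :=
  ⟨(l 4), by decide +kernel⟩

theorem c_mm_112 : CertN 536870912 536870912 536870912 536870912 67108864 67108864 3 true false false .dn 1 1 2
    ndN2q1 ndN2q1 pcN2 Cut.none Ext.none :=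
  certNK0 (fam := true) (s1 := false) (s2 := false) (a := 1) (b := 1) (c := 2) (cn := .dn) (n1 := ndN2q1) (n2 := ndN2q1) (pc := pcN2) (cut := Cut.none) (xt := Ext.none) (P1 := 536870912) (W1 := 536870912) (P2 := 536870912) (W2 := 536870912) (P3 := 67108864) (W3 := 67108864) (N0 := 3)
    rfl rfl rfl k0_mm_112

noncomputable def f_mm_113 : ℕ → ℕ → ℕ → ℕ → Bool := onCell 536870912 536870912 536870912 536870912 67108864 67108864
    (rowNK 3 0 true false false .nn 1 1 3 (qsf 536870912 536870912 536870912 536870912 3) ndN2q1 ndN2q1 pcN3 Cut.none Ext.none)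

def k0_mm_113 : ∃ t, chk3 f_mm_113 t 1 1 1 = true :=
  ⟨(l 4), by decide +kernel⟩

theorem c_mm_113 : CertN 536870912 536870912 536870912 536870912 67108864 67108864 3 true false false .nn 1 1 3
    ndN2q1 ndN2q1 pcN3 Cut.none Ext.none :=
  certNK0 (fam := true) (s1 := false) (s2 := false) (a := 1) (b := 1) (c := 3) (cn := .nn) (n1 := ndN2q1) (n2 := ndN2q1) (pc := pcN3) (cut := Cut.none) (xt := Ext.none) (P1 := 536870912) (W1 := 536870912) (P2 := 536870912) (W2 := 536870912) (P3 := 67108864) (W3 := 67108864) (N0 := 3)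
    rfl rfl rfl k0_mm_113

noncomputable def f_mm_123_a : ℕ → ℕ → ℕ → ℕ → Bool := onCell 536870912 536870912 0 536870912 67108864 67108864
    (rowNK 3 0 true false false .npn 1 2 3 (qsf 536870912 536870912 0 536870912 3) ndN2q1 ndN2q2a pcN3 Cut.none Ext.none)

def k0_mm_123_a : ∃ t, chk3 f_mm_123_a t 1 1 1 = true :=
  ⟨(l 4), by decide +kernel⟩

theorem c_mm_123_a : CertN 536870912 536870912 0 536870912 67108864 67108864 3 true false false .npn 1 2 3
    ndN2q1 ndN2q2a pcN3 Cut.none Ext.none :=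
  certNK0 (fam := true) (s1 := false) (s2 := false) (a := 1) (b := 2) (c := 3) (cn := .npn) (n1 := ndN2q1) (n2 := ndN2q2a) (pc := pcN3) (cut := Cut.none) (xt := Ext.none) (P1 := 536870912) (W1 := 536870912) (P2 := 0) (W2 := 536870912) (P3 := 67108864) (W3 := 67108864) (N0 := 3)
    rfl rfl rfl k0_mm_123_a

noncomputable def f_mm_123_b : ℕ → ℕ → ℕ → ℕ → Bool := onCell 536870912 536870912 1239849684 370763052 67108864 67108864
    (rowNK 3 0 true false false .npn 1 2 3 (qsf 536870912 536870912 1239849684 370763052 3) ndN2q1 ndN2q2b pcN3 Cut.none Ext.none)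

def k0_mm_123_b : ∃ t, chk3 f_mm_123_b t 1 1 1 = true :=
  ⟨(l 4), by decide +kernel⟩

theorem c_mm_123_b : CertN 536870912 536870912 1239849684 370763052 67108864 67108864 3 true false false .npn 1 2 3
    ndN2q1 ndN2q2b pcN3 Cut.none Ext.none :=
  certNK0 (fam := true) (s1 := false) (s2 := false) (a := 1) (b := 2) (c := 3) (cn := .npn) (n1 := ndN2q1) (n2 := ndN2q2b) (pc := pcN3) (cut := Cut.none) (xt := Ext.none) (P1 := 536870912) (W1 := 536870912) (P2 := 1239849684) (W2 := 370763052) (P3 := 67108864) (W3 := 67108864) (N0 := 3)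
    rfl rfl rfl k0_mm_123_b

noncomputable def f_mm_133 : ℕ → ℕ → ℕ → ℕ → Bool := onCell 536870912 536870912 1610612736 536870912 67108864 67108864
    (rowNK 3 0 true false false .dn 1 3 3 (qsf 536870912 536870912 1610612736 536870912 3) ndN2q1 ndN2q3 pcN3 Cut.none Ext.none)

def k0_mm_133 : ∃ t, chk3 f_mm_133 t 1 1 1 = true :=
  ⟨(l 4), by decide +kernel⟩

theorem c_mm_133 : CertN 536870912 536870912 1610612736 536870912 67108864 67108864 3 true false false .dn 1 3 3
    ndN2q1 ndN2q3 pcN3 Cut.none Ext.none :=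
  certNK0 (fam := true) (s1 := false) (s2 := false) (a := 1) (b := 3) (c := 3) (cn := .dn) (n1 := ndN2q1) (n2 := ndN2q3) (pc := pcN3) (cut := Cut.none) (xt := Ext.none) (P1 := 536870912) (W1 := 536870912) (P2 := 1610612736) (W2 := 536870912) (P3 := 67108864) (W3 := 67108864) (N0 := 3)
    rfl rfl rfl k0_mm_133

noncomputable def cut_mm_202_a : Cut := Cut.of [[⟨0, 1, 0, 67108864⟩, ⟨1, 0, 0, 67108864⟩, ⟨2, 1, 0, 67108864⟩]]

noncomputable def f_mm_202_a : ℕ → ℕ → ℕ → ℕ → Bool := onCell 0 536870912 0 536870912 67108864 67108864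
    (rowNK 3 0 true false false .pp 2 0 2 (qsf 0 536870912 0 536870912 2) ndN2q2a ndN2q0 pcN2 cut_mm_202_a Ext.none)

def k0_mm_202_a : ∃ t, chk3 f_mm_202_a t 1 1 1 = true :=
  ⟨(b (a (l 4) (a (l 4) (b (a (l 4) (b (b (a (l 4) (l 6)) (l 4)) (l 4))) (l 4)))) (l 4)), by decide +kernel⟩

theorem c_mm_202_a : CertN 0 536870912 0 536870912 67108864 67108864 3 true false false .pp 2 0 2
    ndN2q2a ndN2q0 pcN2 cut_mm_202_a Ext.none :=
  certNK0 (fam := true) (s1 := false) (s2 := false) (a := 2) (b := 0) (c := 2) (cn := .pp) (n1 := ndN2q2a) (n2 := ndN2q0) (pc := pcN2) (cut := cut_mm_202_a) (xt := Ext.none) (P1 := 0) (W1 := 536870912) (P2 := 0) (W2 := 536870912) (P3 := 67108864) (W3 := 67108864) (N0 := 3)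
    rfl rfl rfl k0_mm_202_a

noncomputable def cut_mm_202_b : Cut := Cut.of [[⟨0, 1, 0, 67108864⟩, ⟨1, 0, 0, 67108864⟩, ⟨2, 1, 0, 67108864⟩]]

noncomputable def f_mm_202_b : ℕ → ℕ → ℕ → ℕ → Bool := onCell 1239849684 370763052 0 536870912 67108864 67108864
    (rowNK 3 0 true false false .pp 2 0 2 (qsf 1239849684 370763052 0 536870912 2) ndN2q2b ndN2q0 pcN2 cut_mm_202_b Ext.none)

def k0_mm_202_b : ∃ t, chk3 f_mm_202_b t 1 1 1 = true :=
  ⟨(b (l 4) (l 4)), by decide +kernel⟩

theorem c_mm_202_b : CertN 1239849684 370763052 0 536870912 67108864 67108864 3 true false false .pp 2 0 2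
    ndN2q2b ndN2q0 pcN2 cut_mm_202_b Ext.none :=
  certNK0 (fam := true) (s1 := false) (s2 := false) (a := 2) (b := 0) (c := 2) (cn := .pp) (n1 := ndN2q2b) (n2 := ndN2q0) (pc := pcN2) (cut := cut_mm_202_b) (xt := Ext.none) (P1 := 1239849684) (W1 := 370763052) (P2 := 0) (W2 := 536870912) (P3 := 67108864) (W3 := 67108864) (N0 := 3)
    rfl rfl rfl k0_mm_202_b

noncomputable def f_mm_203_a : ℕ → ℕ → ℕ → ℕ → Bool := onCell 0 536870912 1610612736 536870912 67108864 67108864
    (rowNK 3 1 true false false .up 2 0 3 (qsf 0 536870912 0 536870912 3) ndN2q2a ndN2q0 pcN3 Cut.none Ext.none)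

def k0_mm_203_a : ∃ t, chk3 f_mm_203_a t 1 1 1 = true :=
  ⟨(l 4), by decide +kernel⟩

theorem c_mm_203_a : CertN 0 536870912 0 536870912 67108864 67108864 3 true false false .up 2 0 3
    ndN2q2a ndN2q0 pcN3 Cut.none Ext.none :=
  certNK1 (fam := true) (s1 := false) (s2 := false) (a := 2) (b := 0) (c := 3) (cn := .up) (n1 := ndN2q2a) (n2 := ndN2q0) (pc := pcN3) (cut := Cut.none) (xt := Ext.none) (P1 := 0) (W1 := 536870912) (P2 := 0) (W2 := 536870912) (P3 := 67108864) (W3 := 67108864) (N0 := 3)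
    rfl rfl rfl (fun _ => rfl) k0_mm_203_a

noncomputable def f_mm_203_b : ℕ → ℕ → ℕ → ℕ → Bool := onCell 1239849684 370763052 1610612736 536870912 67108864 67108864
    (rowNK 3 1 true false false .up 2 0 3 (qsf 1239849684 370763052 0 536870912 3) ndN2q2b ndN2q0 pcN3 Cut.none Ext.none)

def k0_mm_203_b : ∃ t, chk3 f_mm_203_b t 1 1 1 = true :=
  ⟨(l 4), by decide +kernel⟩

theorem c_mm_203_b : CertN 1239849684 370763052 0 536870912 67108864 67108864 3 true false false .up 2 0 3
    ndN2q2b ndN2q0 pcN3 Cut.none Ext.none :=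
  certNK1 (fam := true) (s1 := false) (s2 := false) (a := 2) (b := 0) (c := 3) (cn := .up) (n1 := ndN2q2b) (n2 := ndN2q0) (pc := pcN3) (cut := Cut.none) (xt := Ext.none) (P1 := 1239849684) (W1 := 370763052) (P2 := 0) (W2 := 536870912) (P3 := 67108864) (W3 := 67108864) (N0 := 3)
    rfl rfl rfl (fun _ => rfl) k0_mm_203_b

noncomputable def f_mm_213_a : ℕ → ℕ → ℕ → ℕ → Bool := onCell 0 536870912 536870912 536870912 67108864 67108864
    (rowNK 3 0 true false false .pnn 2 1 3 (qsf 0 536870912 536870912 536870912 3) ndN2q2a ndN2q1 pcN3 Cut.none Ext.none)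

def k0_mm_213_a : ∃ t, chk3 f_mm_213_a t 1 1 1 = true :=
  ⟨(l 4), by decide +kernel⟩

theorem c_mm_213_a : CertN 0 536870912 536870912 536870912 67108864 67108864 3 true false false .pnn 2 1 3
    ndN2q2a ndN2q1 pcN3 Cut.none Ext.none :=
  certNK0 (fam := true) (s1 := false) (s2 := false) (a := 2) (b := 1) (c := 3) (cn := .pnn) (n1 := ndN2q2a) (n2 := ndN2q1) (pc := pcN3) (cut := Cut.none) (xt := Ext.none) (P1 := 0) (W1 := 536870912) (P2 := 536870912) (W2 := 536870912) (P3 := 67108864) (W3 := 67108864) (N0 := 3)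
    rfl rfl rfl k0_mm_213_a

noncomputable def f_mm_213_b : ℕ → ℕ → ℕ → ℕ → Bool := onCell 1239849684 370763052 536870912 536870912 67108864 67108864
    (rowNK 3 0 true false false .pnn 2 1 3 (qsf 1239849684 370763052 536870912 536870912 3) ndN2q2b ndN2q1 pcN3 Cut.none Ext.none)

def k0_mm_213_b : ∃ t, chk3 f_mm_213_b t 1 1 1 = true :=
  ⟨(l 4), by decide +kernel⟩

theorem c_mm_213_b : CertN 1239849684 370763052 536870912 536870912 67108864 67108864 3 true false false .pnn 2 1 3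
    ndN2q2b ndN2q1 pcN3 Cut.none Ext.none :=
  certNK0 (fam := true) (s1 := false) (s2 := false) (a := 2) (b := 1) (c := 3) (cn := .pnn) (n1 := ndN2q2b) (n2 := ndN2q1) (pc := pcN3) (cut := Cut.none) (xt := Ext.none) (P1 := 1239849684) (W1 := 370763052) (P2 := 536870912) (W2 := 536870912) (P3 := 67108864) (W3 := 67108864) (N0 := 3)
    rfl rfl rfl k0_mm_213_b

noncomputable def f_mm_303 : ℕ → ℕ → ℕ → ℕ → Bool := onCell 1610612736 536870912 0 536870912 67108864 67108864
    (rowNK 3 0 true false false .npn 3 0 3 (qsf 1610612736 536870912 0 536870912 3) ndN2q3 ndN2q0 pcN3 Cut.none Ext.none)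

def k0_mm_303 : ∃ t, chk3 f_mm_303 t 1 1 1 = true :=
  ⟨(l 4), by decide +kernel⟩

theorem c_mm_303 : CertN 1610612736 536870912 0 536870912 67108864 67108864 3 true false false .npn 3 0 3
    ndN2q3 ndN2q0 pcN3 Cut.none Ext.none :=
  certNK0 (fam := true) (s1 := false) (s2 := false) (a := 3) (b := 0) (c := 3) (cn := .npn) (n1 := ndN2q3) (n2 := ndN2q0) (pc := pcN3) (cut := Cut.none) (xt := Ext.none) (P1 := 1610612736) (W1 := 536870912) (P2 := 0) (W2 := 536870912) (P3 := 67108864) (W3 := 67108864) (N0 := 3)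
    rfl rfl rfl k0_mm_303

noncomputable def f_mm_313 : ℕ → ℕ → ℕ → ℕ → Bool := onCell 1610612736 536870912 536870912 536870912 67108864 67108864
    (rowNK 3 0 true false false .dn 3 1 3 (qsf 1610612736 536870912 536870912 536870912 3) ndN2q3 ndN2q1 pcN3 Cut.none Ext.none)

def k0_mm_313 : ∃ t, chk3 f_mm_313 t 1 1 1 = true :=
  ⟨(l 4), by decide +kernel⟩

theorem c_mm_313 : CertN 1610612736 536870912 536870912 536870912 67108864 67108864 3 true false false .dn 3 1 3
    ndN2q3 ndN2q1 pcN3 Cut.none Ext.none :=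
  certNK0 (fam := true) (s1 := false) (s2 := false) (a := 3) (b := 1) (c := 3) (cn := .dn) (n1 := ndN2q3) (n2 := ndN2q1) (pc := pcN3) (cut := Cut.none) (xt := Ext.none) (P1 := 1610612736) (W1 := 536870912) (P2 := 536870912) (W2 := 536870912) (P3 := 67108864) (W3 := 67108864) (N0 := 3)
    rfl rfl rfl k0_mm_313

end Pool.Agent.Strip051.G.I1_16_1_8.Tab.C.NA22

namespace Pool.Agent.Strip051.G.I1_16_1_8.Tab.C.NA23

open Pool.Agent.Strip051.PB Pool.Agent.Strip051.PB.T
open Pool.Agent.Strip051.G.I1_16_1_8.Tab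

noncomputable def f_pp_001 : ℕ → ℕ → ℕ → ℕ → Bool := onCell 0 536870912 0 536870912 67108864 67108864
    (rowNK 3 0 true true true .up 0 0 1 (qsf 0 536870912 0 536870912 1) ndN2q0 ndN3q0 pcN1 Cut.none Ext.none)

def k0_pp_001 : ∃ t, chk3 f_pp_001 t 1 1 1 = true :=
  ⟨(l 4), by decide +kernel⟩

theorem c_pp_001 : CertN 0 536870912 0 536870912 67108864 67108864 3 true true true .up 0 0 1
    ndN2q0 ndN3q0 pcN1 Cut.none Ext.none :=
  certNK0 (fam := true) (s1 := true) (s2 := true) (a := 0) (b := 0) (c := 1) (cn := .up) (n1 := ndN2q0) (n2 := ndN3q0) (pc := pcN1) (cut := Cut.none) (xt := Ext.none) (P1 := 0) (W1 := 536870912) (P2 := 0) (W2 := 536870912) (P3 := 67108864) (W3 := 67108864) (N0 := 3)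
    rfl rfl rfl k0_pp_001

noncomputable def f_pp_011 : ℕ → ℕ → ℕ → ℕ → Bool := onCell 0 536870912 536870912 536870912 67108864 67108864
    (rowNK 3 0 true true true .pnn 0 1 1 (qsf 0 536870912 536870912 536870912 1) ndN2q0 ndN3q1 pcN1 Cut.none Ext.none)

def k0_pp_011 : ∃ t, chk3 f_pp_011 t 1 1 1 = true :=
  ⟨(l 4), by decide +kernel⟩

theorem c_pp_011 : CertN 0 536870912 536870912 536870912 67108864 67108864 3 true true true .pnn 0 1 1
    ndN2q0 ndN3q1 pcN1 Cut.none Ext.none :=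
  certNK0 (fam := true) (s1 := true) (s2 := true) (a := 0) (b := 1) (c := 1) (cn := .pnn) (n1 := ndN2q0) (n2 := ndN3q1) (pc := pcN1) (cut := Cut.none) (xt := Ext.none) (P1 := 0) (W1 := 536870912) (P2 := 536870912) (W2 := 536870912) (P3 := 67108864) (W3 := 67108864) (N0 := 3)
    rfl rfl rfl k0_pp_011

noncomputable def f_pp_012 : ℕ → ℕ → ℕ → ℕ → Bool := onCell 0 536870912 536870912 536870912 67108864 67108864
    (rowNK 3 0 true true true .pnp 0 1 2 (qsf 0 536870912 536870912 536870912 2) ndN2q0 ndN3q1 pcN2 Cut.none Ext.none)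

def k0_pp_012 : ∃ t, chk3 f_pp_012 t 1 1 1 = true :=
  ⟨(l 4), by decide +kernel⟩

theorem c_pp_012 : CertN 0 536870912 536870912 536870912 67108864 67108864 3 true true true .pnp 0 1 2
    ndN2q0 ndN3q1 pcN2 Cut.none Ext.none :=
  certNK0 (fam := true) (s1 := true) (s2 := true) (a := 0) (b := 1) (c := 2) (cn := .pnp) (n1 := ndN2q0) (n2 := ndN3q1) (pc := pcN2) (cut := Cut.none) (xt := Ext.none) (P1 := 0) (W1 := 536870912) (P2 := 536870912) (W2 := 536870912) (P3 := 67108864) (W3 := 67108864) (N0 := 3)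
    rfl rfl rfl k0_pp_012

noncomputable def f_pp_022 : ℕ → ℕ → ℕ → ℕ → Bool := onCell 0 536870912 1073741824 536870912 67108864 67108864
    (rowNK 3 0 true true true .pp 0 2 2 (qsf 0 536870912 1073741824 536870912 2) ndN2q0 ndN3q2 pcN2 Cut.none Ext.none)

def k0_pp_022 : ∃ t, chk3 f_pp_022 t 1 1 1 = true :=
  ⟨(l 4), by decide +kernel⟩

theorem c_pp_022 : CertN 0 536870912 1073741824 536870912 67108864 67108864 3 true true true .pp 0 2 2
    ndN2q0 ndN3q2 pcN2 Cut.none Ext.none :=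
  certNK0 (fam := true) (s1 := true) (s2 := true) (a := 0) (b := 2) (c := 2) (cn := .pp) (n1 := ndN2q0) (n2 := ndN3q2) (pc := pcN2) (cut := Cut.none) (xt := Ext.none) (P1 := 0) (W1 := 536870912) (P2 := 1073741824) (W2 := 536870912) (P3 := 67108864) (W3 := 67108864) (N0 := 3)
    rfl rfl rfl k0_pp_022

noncomputable def f_pp_023 : ℕ → ℕ → ℕ → ℕ → Bool := onCell 0 536870912 1073741824 536870912 67108864 67108864
    (rowNK 3 0 true true true .up 0 2 3 (qsf 0 536870912 1073741824 536870912 3) ndN2q0 ndN3q2 pcN3 Cut.none Ext.none)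

def k0_pp_023 : ∃ t, chk3 f_pp_023 t 1 1 1 = true :=
  ⟨(l 4), by decide +kernel⟩

theorem c_pp_023 : CertN 0 536870912 1073741824 536870912 67108864 67108864 3 true true true .up 0 2 3
    ndN2q0 ndN3q2 pcN3 Cut.none Ext.none :=
  certNK0 (fam := true) (s1 := true) (s2 := true) (a := 0) (b := 2) (c := 3) (cn := .up) (n1 := ndN2q0) (n2 := ndN3q2) (pc := pcN3) (cut := Cut.none) (xt := Ext.none) (P1 := 0) (W1 := 536870912) (P2 := 1073741824) (W2 := 536870912) (P3 := 67108864) (W3 := 67108864) (N0 := 3)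
    rfl rfl rfl k0_pp_023

noncomputable def f_pp_033 : ℕ → ℕ → ℕ → ℕ → Bool := onCell 0 536870912 0 1230186008 67108864 67108864
    (rowNK 3 0 true true true .pnn 0 3 3 (qsf 0 536870912 0 1230186008 3) ndN2q0 ndN3q3 pcN3 Cut.none Ext.none)

def k0_pp_033 : ∃ t, chk3 f_pp_033 t 1 1 1 = true :=
  ⟨(b (l 4) (l 4)), by decide +kernel⟩

theorem c_pp_033 : CertN 0 536870912 0 1230186008 67108864 67108864 3 true true true .pnn 0 3 3
    ndN2q0 ndN3q3 pcN3 Cut.none Ext.none :=
  certNK0 (fam := true) (s1 := true) (s2 := true) (a := 0) (b := 3) (c := 3) (cn := .pnn) (n1 := ndN2q0) (n2 := ndN3q3) (pc := pcN3) (cut := Cut.none) (xt := Ext.none) (P1 := 0) (W1 := 536870912) (P2 := 0) (W2 := 1230186008) (P3 := 67108864) (W3 := 67108864) (N0 := 3)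
    rfl rfl rfl k0_pp_033

noncomputable def f_pp_101 : ℕ → ℕ → ℕ → ℕ → Bool := onCell 536870912 536870912 0 536870912 67108864 67108864
    (rowNK 3 0 true true true .npn 1 0 1 (qsf 536870912 536870912 0 536870912 1) ndN2q1 ndN3q0 pcN1 Cut.none Ext.none)

def k0_pp_101 : ∃ t, chk3 f_pp_101 t 1 1 1 = true :=
  ⟨(l 4), by decide +kernel⟩

theorem c_pp_101 : CertN 536870912 536870912 0 536870912 67108864 67108864 3 true true true .npn 1 0 1
    ndN2q1 ndN3q0 pcN1 Cut.none Ext.none :=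
  certNK0 (fam := true) (s1 := true) (s2 := true) (a := 1) (b := 0) (c := 1) (cn := .npn) (n1 := ndN2q1) (n2 := ndN3q0) (pc := pcN1) (cut := Cut.none) (xt := Ext.none) (P1 := 536870912) (W1 := 536870912) (P2 := 0) (W2 := 536870912) (P3 := 67108864) (W3 := 67108864) (N0 := 3)
    rfl rfl rfl k0_pp_101

noncomputable def f_pp_102 : ℕ → ℕ → ℕ → ℕ → Bool := onCell 536870912 536870912 0 536870912 67108864 67108864
    (rowNK 3 0 true true true .npp 1 0 2 (qsf 536870912 536870912 0 536870912 2) ndN2q1 ndN3q0 pcN2 Cut.none Ext.none)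

def k0_pp_102 : ∃ t, chk3 f_pp_102 t 1 1 1 = true :=
  ⟨(l 4), by decide +kernel⟩

theorem c_pp_102 : CertN 536870912 536870912 0 536870912 67108864 67108864 3 true true true .npp 1 0 2
    ndN2q1 ndN3q0 pcN2 Cut.none Ext.none :=
  certNK0 (fam := true) (s1 := true) (s2 := true) (a := 1) (b := 0) (c := 2) (cn := .npp) (n1 := ndN2q1) (n2 := ndN3q0) (pc := pcN2) (cut := Cut.none) (xt := Ext.none) (P1 := 536870912) (W1 := 536870912) (P2 := 0) (W2 := 536870912) (P3 := 67108864) (W3 := 67108864) (N0 := 3)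
    rfl rfl rfl k0_pp_102

noncomputable def f_pp_112 : ℕ → ℕ → ℕ → ℕ → Bool := onCell 536870912 536870912 536870912 536870912 67108864 67108864
    (rowNK 3 0 true true true .dn 1 1 2 (qsf 536870912 536870912 536870912 536870912 2) ndN2q1 ndN3q1 pcN2 Cut.none Ext.none)

def k0_pp_112 : ∃ t, chk3 f_pp_112 t 1 1 1 = true :=
  ⟨(l 4), by decide +kernel⟩

theorem c_pp_112 : CertN 536870912 536870912 536870912 536870912 67108864 67108864 3 true true true .dn 1 1 2
    ndN2q1 ndN3q1 pcN2 Cut.none Ext.none :=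
  certNK0 (fam := true) (s1 := true) (s2 := true) (a := 1) (b := 1) (c := 2) (cn := .dn) (n1 := ndN2q1) (n2 := ndN3q1) (pc := pcN2) (cut := Cut.none) (xt := Ext.none) (P1 := 536870912) (W1 := 536870912) (P2 := 536870912) (W2 := 536870912) (P3 := 67108864) (W3 := 67108864) (N0 := 3)
    rfl rfl rfl k0_pp_112

noncomputable def f_pp_113 : ℕ → ℕ → ℕ → ℕ → Bool := onCell 536870912 536870912 536870912 536870912 67108864 67108864
    (rowNK 3 0 true true true .nn 1 1 3 (qsf 536870912 536870912 536870912 536870912 3) ndN2q1 ndN3q1 pcN3 Cut.none Ext.none)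

def k0_pp_113 : ∃ t, chk3 f_pp_113 t 1 1 1 = true :=
  ⟨(l 4), by decide +kernel⟩

theorem c_pp_113 : CertN 536870912 536870912 536870912 536870912 67108864 67108864 3 true true true .nn 1 1 3
    ndN2q1 ndN3q1 pcN3 Cut.none Ext.none :=
  certNK0 (fam := true) (s1 := true) (s2 := true) (a := 1) (b := 1) (c := 3) (cn := .nn) (n1 := ndN2q1) (n2 := ndN3q1) (pc := pcN3) (cut := Cut.none) (xt := Ext.none) (P1 := 536870912) (W1 := 536870912) (P2 := 536870912) (W2 := 536870912) (P3 := 67108864) (W3 := 67108864) (N0 := 3)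
    rfl rfl rfl k0_pp_113

noncomputable def f_pp_123 : ℕ → ℕ → ℕ → ℕ → Bool := onCell 536870912 536870912 1073741824 536870912 67108864 67108864
    (rowNK 3 0 true true true .npn 1 2 3 (qsf 536870912 536870912 1073741824 536870912 3) ndN2q1 ndN3q2 pcN3 Cut.none Ext.none)

def k0_pp_123 : ∃ t, chk3 f_pp_123 t 1 1 1 = true :=
  ⟨(l 4), by decide +kernel⟩

theorem c_pp_123 : CertN 536870912 536870912 1073741824 536870912 67108864 67108864 3 true true true .npn 1 2 3
    ndN2q1 ndN3q2 pcN3 Cut.none Ext.none :=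
  certNK0 (fam := true) (s1 := true) (s2 := true) (a := 1) (b := 2) (c := 3) (cn := .npn) (n1 := ndN2q1) (n2 := ndN3q2) (pc := pcN3) (cut := Cut.none) (xt := Ext.none) (P1 := 536870912) (W1 := 536870912) (P2 := 1073741824) (W2 := 536870912) (P3 := 67108864) (W3 := 67108864) (N0 := 3)
    rfl rfl rfl k0_pp_123

noncomputable def f_pp_133 : ℕ → ℕ → ℕ → ℕ → Bool := onCell 536870912 536870912 0 1230186008 67108864 67108864
    (rowNK 3 0 true true true .dn 1 3 3 (qsf 536870912 536870912 0 1230186008 3) ndN2q1 ndN3q3 pcN3 Cut.none Ext.none)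

def k0_pp_133 : ∃ t, chk3 f_pp_133 t 1 1 1 = true :=
  ⟨(l 4), by decide +kernel⟩

theorem c_pp_133 : CertN 536870912 536870912 0 1230186008 67108864 67108864 3 true true true .dn 1 3 3
    ndN2q1 ndN3q3 pcN3 Cut.none Ext.none :=
  certNK0 (fam := true) (s1 := true) (s2 := true) (a := 1) (b := 3) (c := 3) (cn := .dn) (n1 := ndN2q1) (n2 := ndN3q3) (pc := pcN3) (cut := Cut.none) (xt := Ext.none) (P1 := 536870912) (W1 := 536870912) (P2 := 0) (W2 := 1230186008) (P3 := 67108864) (W3 := 67108864) (N0 := 3)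
    rfl rfl rfl k0_pp_133

noncomputable def f_pp_202_a : ℕ → ℕ → ℕ → ℕ → Bool := onCell 0 536870912 0 536870912 67108864 67108864
    (rowNK 3 0 true true true .pp 2 0 2 (qsf 0 536870912 0 536870912 2) ndN2q2a ndN3q0 pcN2 Cut.none Ext.none)

def k0_pp_202_a : ∃ t, chk3 f_pp_202_a t 1 1 1 = true :=
  ⟨(l 4), by decide +kernel⟩

theorem c_pp_202_a : CertN 0 536870912 0 536870912 67108864 67108864 3 true true true .pp 2 0 2
    ndN2q2a ndN3q0 pcN2 Cut.none Ext.none :=
  certNK0 (fam := true) (s1 := true) (s2 := true) (a := 2) (b := 0) (c := 2) (cn := .pp) (n1 := ndN2q2a) (n2 := ndN3q0) (pc := pcN2) (cut := Cut.none) (xt := Ext.none) (P1 := 0) (W1 := 536870912) (P2 := 0) (W2 := 536870912) (P3 := 67108864) (W3 := 67108864) (N0 := 3)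
    rfl rfl rfl k0_pp_202_a

noncomputable def f_pp_202_b : ℕ → ℕ → ℕ → ℕ → Bool := onCell 1239849684 370763052 0 536870912 67108864 67108864
    (rowNK 3 0 true true true .pp 2 0 2 (qsf 1239849684 370763052 0 536870912 2) ndN2q2b ndN3q0 pcN2 Cut.none Ext.none)

def k0_pp_202_b : ∃ t, chk3 f_pp_202_b t 1 1 1 = true :=
  ⟨(l 4), by decide +kernel⟩

theorem c_pp_202_b : CertN 1239849684 370763052 0 536870912 67108864 67108864 3 true true true .pp 2 0 2
    ndN2q2b ndN3q0 pcN2 Cut.none Ext.none :=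
  certNK0 (fam := true) (s1 := true) (s2 := true) (a := 2) (b := 0) (c := 2) (cn := .pp) (n1 := ndN2q2b) (n2 := ndN3q0) (pc := pcN2) (cut := Cut.none) (xt := Ext.none) (P1 := 1239849684) (W1 := 370763052) (P2 := 0) (W2 := 536870912) (P3 := 67108864) (W3 := 67108864) (N0 := 3)
    rfl rfl rfl k0_pp_202_b

noncomputable def f_pp_203_a : ℕ → ℕ → ℕ → ℕ → Bool := onCell 0 536870912 0 536870912 67108864 67108864
    (rowNK 3 0 true true true .up 2 0 3 (qsf 0 536870912 0 536870912 3) ndN2q2a ndN3q0 pcN3 Cut.none Ext.none)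

def k0_pp_203_a : ∃ t, chk3 f_pp_203_a t 1 1 1 = true :=
  ⟨(l 4), by decide +kernel⟩

theorem c_pp_203_a : CertN 0 536870912 0 536870912 67108864 67108864 3 true true true .up 2 0 3
    ndN2q2a ndN3q0 pcN3 Cut.none Ext.none :=
  certNK0 (fam := true) (s1 := true) (s2 := true) (a := 2) (b := 0) (c := 3) (cn := .up) (n1 := ndN2q2a) (n2 := ndN3q0) (pc := pcN3) (cut := Cut.none) (xt := Ext.none) (P1 := 0) (W1 := 536870912) (P2 := 0) (W2 := 536870912) (P3 := 67108864) (W3 := 67108864) (N0 := 3)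
    rfl rfl rfl k0_pp_203_a

noncomputable def f_pp_203_b : ℕ → ℕ → ℕ → ℕ → Bool := onCell 1239849684 370763052 0 536870912 67108864 67108864
    (rowNK 3 0 true true true .up 2 0 3 (qsf 1239849684 370763052 0 536870912 3) ndN2q2b ndN3q0 pcN3 Cut.none Ext.none)

def k0_pp_203_b : ∃ t, chk3 f_pp_203_b t 1 1 1 = true :=
  ⟨(l 4), by decide +kernel⟩

theorem c_pp_203_b : CertN 1239849684 370763052 0 536870912 67108864 67108864 3 true true true .up 2 0 3
    ndN2q2b ndN3q0 pcN3 Cut.none Ext.none :=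
  certNK0 (fam := true) (s1 := true) (s2 := true) (a := 2) (b := 0) (c := 3) (cn := .up) (n1 := ndN2q2b) (n2 := ndN3q0) (pc := pcN3) (cut := Cut.none) (xt := Ext.none) (P1 := 1239849684) (W1 := 370763052) (P2 := 0) (W2 := 536870912) (P3 := 67108864) (W3 := 67108864) (N0 := 3)
    rfl rfl rfl k0_pp_203_b

noncomputable def f_pp_213_a : ℕ → ℕ → ℕ → ℕ → Bool := onCell 0 536870912 536870912 536870912 67108864 67108864
    (rowNK 3 0 true true true .pnn 2 1 3 (qsf 0 536870912 536870912 536870912 3) ndN2q2a ndN3q1 pcN3 Cut.none Ext.none)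

def k0_pp_213_a : ∃ t, chk3 f_pp_213_a t 1 1 1 = true :=
  ⟨(l 4), by decide +kernel⟩

theorem c_pp_213_a : CertN 0 536870912 536870912 536870912 67108864 67108864 3 true true true .pnn 2 1 3
    ndN2q2a ndN3q1 pcN3 Cut.none Ext.none :=
  certNK0 (fam := true) (s1 := true) (s2 := true) (a := 2) (b := 1) (c := 3) (cn := .pnn) (n1 := ndN2q2a) (n2 := ndN3q1) (pc := pcN3) (cut := Cut.none) (xt := Ext.none) (P1 := 0) (W1 := 536870912) (P2 := 536870912) (W2 := 536870912) (P3 := 67108864) (W3 := 67108864) (N0 := 3)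
    rfl rfl rfl k0_pp_213_a

noncomputable def f_pp_213_b : ℕ → ℕ → ℕ → ℕ → Bool := onCell 1239849684 370763052 536870912 536870912 67108864 67108864
    (rowNK 3 0 true true true .pnn 2 1 3 (qsf 1239849684 370763052 536870912 536870912 3) ndN2q2b ndN3q1 pcN3 Cut.none Ext.none)

def k0_pp_213_b : ∃ t, chk3 f_pp_213_b t 1 1 1 = true :=
  ⟨(l 4), by decide +kernel⟩

theorem c_pp_213_b : CertN 1239849684 370763052 536870912 536870912 67108864 67108864 3 true true true .pnn 2 1 3
    ndN2q2b ndN3q1 pcN3 Cut.none Ext.none :=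
  certNK0 (fam := true) (s1 := true) (s2 := true) (a := 2) (b := 1) (c := 3) (cn := .pnn) (n1 := ndN2q2b) (n2 := ndN3q1) (pc := pcN3) (cut := Cut.none) (xt := Ext.none) (P1 := 1239849684) (W1 := 370763052) (P2 := 536870912) (W2 := 536870912) (P3 := 67108864) (W3 := 67108864) (N0 := 3)
    rfl rfl rfl k0_pp_213_b

noncomputable def f_pp_303 : ℕ → ℕ → ℕ → ℕ → Bool := onCell 1610612736 536870912 0 536870912 67108864 67108864
    (rowNK 3 0 true true true .npn 3 0 3 (qsf 1610612736 536870912 0 536870912 3) ndN2q3 ndN3q0 pcN3 Cut.none Ext.none)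

def k0_pp_303 : ∃ t, chk3 f_pp_303 t 1 1 1 = true :=
  ⟨(l 4), by decide +kernel⟩

theorem c_pp_303 : CertN 1610612736 536870912 0 536870912 67108864 67108864 3 true true true .npn 3 0 3
    ndN2q3 ndN3q0 pcN3 Cut.none Ext.none :=
  certNK0 (fam := true) (s1 := true) (s2 := true) (a := 3) (b := 0) (c := 3) (cn := .npn) (n1 := ndN2q3) (n2 := ndN3q0) (pc := pcN3) (cut := Cut.none) (xt := Ext.none) (P1 := 1610612736) (W1 := 536870912) (P2 := 0) (W2 := 536870912) (P3 := 67108864) (W3 := 67108864) (N0 := 3)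
    rfl rfl rfl k0_pp_303

noncomputable def f_pp_313 : ℕ → ℕ → ℕ → ℕ → Bool := onCell 1610612736 536870912 536870912 536870912 67108864 67108864
    (rowNK 3 0 true true true .dn 3 1 3 (qsf 1610612736 536870912 536870912 536870912 3) ndN2q3 ndN3q1 pcN3 Cut.none Ext.none)

def k0_pp_313 : ∃ t, chk3 f_pp_313 t 1 1 1 = true :=
  ⟨(l 4), by decide +kernel⟩

theorem c_pp_313 : CertN 1610612736 536870912 536870912 536870912 67108864 67108864 3 true true true .dn 3 1 3
    ndN2q3 ndN3q1 pcN3 Cut.none Ext.none :=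
  certNK0 (fam := true) (s1 := true) (s2 := true) (a := 3) (b := 1) (c := 3) (cn := .dn) (n1 := ndN2q3) (n2 := ndN3q1) (pc := pcN3) (cut := Cut.none) (xt := Ext.none) (P1 := 1610612736) (W1 := 536870912) (P2 := 536870912) (W2 := 536870912) (P3 := 67108864) (W3 := 67108864) (N0 := 3)
    rfl rfl rfl k0_pp_313

noncomputable def f_pm_001 : ℕ → ℕ → ℕ → ℕ → Bool := onCell 0 536870912 0 536870912 67108864 67108864
    (rowNK 3 0 true true false .up 0 0 1 (qsf 0 536870912 0 536870912 1) ndN2q0 ndN3q0 pcN1 Cut.none Ext.none)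

def k0_pm_001 : ∃ t, chk3 f_pm_001 t 1 1 1 = true :=
  ⟨(a (l 3) (l 3)), by decide +kernel⟩

theorem c_pm_001 : CertN 0 536870912 0 536870912 67108864 67108864 3 true true false .up 0 0 1
    ndN2q0 ndN3q0 pcN1 Cut.none Ext.none :=
  certNK0 (fam := true) (s1 := true) (s2 := false) (a := 0) (b := 0) (c := 1) (cn := .up) (n1 := ndN2q0) (n2 := ndN3q0) (pc := pcN1) (cut := Cut.none) (xt := Ext.none) (P1 := 0) (W1 := 536870912) (P2 := 0) (W2 := 536870912) (P3 := 67108864) (W3 := 67108864) (N0 := 3)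
    rfl rfl rfl k0_pm_001

noncomputable def cut_pm_011 : Cut := Cut.of [[⟨0, 0, 0, 67108864⟩, ⟨1, 1, 0, 67108864⟩, ⟨2, 1, 0, 67108864⟩]]

noncomputable def f_pm_011 : ℕ → ℕ → ℕ → ℕ → Bool := onCell 0 536870912 536870912 536870912 67108864 67108864
    (rowNK 3 1 true true false .pnn 0 1 1 (qsf 0 536870912 536870912 536870912 1) ndN2q0 ndN3q1 pcN1 cut_pm_011 Ext.none)

def k0_pm_011 : ∃ t, chk3 f_pm_011 t 1 1 1 = true :=
  ⟨(b (l 3) (a (b (l 3) (a (b (l 3) (a (b (l 3) (a (b (l 3) (l 6)) (l 3))) (l 3))) (l 3))) (l 3))), by decide +kernel⟩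

theorem c_pm_011 : CertN 0 536870912 536870912 536870912 67108864 67108864 3 true true false .pnn 0 1 1
    ndN2q0 ndN3q1 pcN1 cut_pm_011 Ext.none :=
  certNK1 (fam := true) (s1 := true) (s2 := false) (a := 0) (b := 1) (c := 1) (cn := .pnn) (n1 := ndN2q0) (n2 := ndN3q1) (pc := pcN1) (cut := cut_pm_011) (xt := Ext.none) (P1 := 0) (W1 := 536870912) (P2 := 536870912) (W2 := 536870912) (P3 := 67108864) (W3 := 67108864) (N0 := 3)
    rfl rfl rfl (fun _ => rfl) k0_pm_011

noncomputable def cut_pm_012 : Cut := Cut.of [[⟨0, 0, 0, 67108864⟩, ⟨1, 1, 0, 67108864⟩, ⟨2, 1, 0, 67108864⟩]]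

noncomputable def f_pm_012 : ℕ → ℕ → ℕ → ℕ → Bool := onCell 1073741824 536870912 536870912 536870912 67108864 67108864
    (rowNK 3 2 true true false .pnp 0 1 2 (qsf 0 536870912 536870912 536870912 2) ndN2q0 ndN3q1 pcN2 cut_pm_012 Ext.none)

def k0_pm_012 : ∃ t, chk3 f_pm_012 t 1 1 1 = true :=
  ⟨(a (b (a (a (l 3) (l 3)) (a (a (l 19546880) (l 19225304)) (l 19070072))) (a (b (a (l 3) (l 18928784)) (b (a (l 3) (a (l 18381760) (l 18804480))) (b (a (a (l 3) (l 3)) (a (l 17924616) (l 18619088))) (a (a (b (l 3) (l 6)) (b (l 17157768) (a (l 16994224) (l 17083648)))) (a (l 17300896) (l 18323016)))))) (b (a (a (l 19361480) (l 19201184)) (l 19178368)) (a (a (a (l 18963432) (b (l 19095504) (l 19069128))) (l 19202688)) (l 19279760))))) (b (a (l 18695432) (l 2)) (b (l 18741192) (a (l 19093776) (l 18625512))))), by decide +kernel⟩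

theorem c_pm_012 : CertN 0 536870912 536870912 536870912 67108864 67108864 3 true true false .pnp 0 1 2
    ndN2q0 ndN3q1 pcN2 cut_pm_012 Ext.none :=
  certNK2 (fam := true) (s1 := true) (s2 := false) (a := 0) (b := 1) (c := 2) (cn := .pnp) (n1 := ndN2q0) (n2 := ndN3q1) (pc := pcN2) (cut := cut_pm_012) (xt := Ext.none) (P1 := 0) (W1 := 536870912) (P2 := 536870912) (W2 := 536870912) (P3 := 67108864) (W3 := 67108864) (N0 := 3)
    rfl rfl rfl (fun _ => rfl) k0_pm_012

noncomputable def f_pm_022 : ℕ → ℕ → ℕ → ℕ → Bool := onCell 0 536870912 1073741824 536870912 67108864 67108864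
    (rowNK 3 1 true true false .pp 0 2 2 (qsf 0 536870912 1073741824 536870912 2) ndN2q0 ndN3q2 pcN2 Cut.none Ext.none)

def k0_pm_022 : ∃ t, chk3 f_pm_022 t 1 1 1 = true :=
  ⟨(b (b (a (b (l 3) (a (a (l 3) (b (l 3) (l 17435424))) (b (l 1) (a (l 18355624) (l 1))))) (l 1)) (a (b (a (a (b (b (a (l 1479249050919) (l 17550440)) (a (b (l 89290142807) (b (l 18011408) (b (l 18049640) (l 18074080)))) (b (l 17731408) (b (l 17810408) (l 17859248))))) (a (l 18254552) (l 18047880))) (b (b (l 17651352) (b (l 17746096) (b (l 17790640) (l 17819416)))) (l 17936176))) (b (a (b (l 18154088) (b (l 18133520) (l 18124744))) (l 1)) (l 18450544))) (a (a (l 18473304) (l 18160928)) (l 18160568))) (b (l 1) (l 469263433991)))) (a (b (a (a (l 18743224) (l 18356616)) (l 18021184)) (a (a (l 18724984) (l 18305008)) (l 17796920))) (b (a (l 18122256) (l 18627240)) (a (l 17646616) (l 18160896))))), by decide +kernel⟩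

theorem c_pm_022 : CertN 0 536870912 1073741824 536870912 67108864 67108864 3 true true false .pp 0 2 2
    ndN2q0 ndN3q2 pcN2 Cut.none Ext.none :=
  certNK1 (fam := true) (s1 := true) (s2 := false) (a := 0) (b := 2) (c := 2) (cn := .pp) (n1 := ndN2q0) (n2 := ndN3q2) (pc := pcN2) (cut := Cut.none) (xt := Ext.none) (P1 := 0) (W1 := 536870912) (P2 := 1073741824) (W2 := 536870912) (P3 := 67108864) (W3 := 67108864) (N0 := 3)
    rfl rfl rfl (fun _ => rfl) k0_pm_022

noncomputable def f_pm_023 : ℕ → ℕ → ℕ → ℕ → Bool := onCell 0 536870912 1610612736 536870912 67108864 67108864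
    (rowNK 3 1 true true false .up 0 2 3 (qsf 0 536870912 1073741824 536870912 3) ndN2q0 ndN3q2 pcN3 Cut.none Ext.none)

def k0_pm_023 : ∃ t, chk3 f_pm_023 t 1 1 1 = true :=
  ⟨(b (a (b (a (b (a (l 19195864) (l 18861184)) (a (l 19218208) (l 18549952))) (b (l 18202736) (l 17740640))) (a (b (l 18264448) (l 2)) (b (l 17376856) (l 17193624)))) (b (b (l 18350296) (l 17639432)) (b (a (l 16858320) (l 17127640)) (l 17043336)))) (b (a (a (l 2) (l 17137320)) (b (l 17072600) (l 17205216))) (a (l 2) (b (l 4) (l 4))))), by decide +kernel⟩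

theorem c_pm_023 : CertN 0 536870912 1073741824 536870912 67108864 67108864 3 true true false .up 0 2 3
    ndN2q0 ndN3q2 pcN3 Cut.none Ext.none :=
  certNK1 (fam := true) (s1 := true) (s2 := false) (a := 0) (b := 2) (c := 3) (cn := .up) (n1 := ndN2q0) (n2 := ndN3q2) (pc := pcN3) (cut := Cut.none) (xt := Ext.none) (P1 := 0) (W1 := 536870912) (P2 := 1073741824) (W2 := 536870912) (P3 := 67108864) (W3 := 67108864) (N0 := 3)
    rfl rfl rfl (fun _ => rfl) k0_pm_023

noncomputable def f_pm_033 : ℕ → ℕ → ℕ → ℕ → Bool := onCell 1610612736 536870912 0 1230186008 67108864 67108864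
    (rowNK 3 2 true true false .pnn 0 3 3 (qsf 0 536870912 0 1230186008 3) ndN2q0 ndN3q3 pcN3 Cut.none Ext.none)

def k0_pm_033 : ∃ t, chk3 f_pm_033 t 1 1 1 = true :=
  ⟨(a (b (l 1) (b (b (l 1) (a (l 1) (a (l 1) (a (l 1) (l 1308926963751))))) (b (a (l 1) (a (a (b (l 1) (l 1710507898983)) (l 893389478935)) (a (l 17595376) (l 17896400)))) (a (a (b (l 1) (a (b (l 1) (l 17914960)) (l 18120288))) (b (a (l 782795241399) (l 18221200)) (a (l 17933952) (l 17339600)))) (a (b (l 17562488) (l 17962240)) (l 18412680)))))) (a (b (l 1) (b (b (a (l 1) (l 17792616)) (a (a (l 17281296) (l 17285016)) (l 17151976))) (b (a (l 17763256) (l 17641576)) (l 18359168)))) (a (b (b (l 1) (l 18312512)) (b (l 4) (l 18329896))) (b (l 4) (l 4))))), by decide +kernel⟩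

theorem c_pm_033 : CertN 0 536870912 0 1230186008 67108864 67108864 3 true true false .pnn 0 3 3
    ndN2q0 ndN3q3 pcN3 Cut.none Ext.none :=
  certNK2 (fam := true) (s1 := true) (s2 := false) (a := 0) (b := 3) (c := 3) (cn := .pnn) (n1 := ndN2q0) (n2 := ndN3q3) (pc := pcN3) (cut := Cut.none) (xt := Ext.none) (P1 := 0) (W1 := 536870912) (P2 := 0) (W2 := 1230186008) (P3 := 67108864) (W3 := 67108864) (N0 := 3)
    rfl rfl rfl (fun _ => rfl) k0_pm_033

noncomputable def f_pm_101 : ℕ → ℕ → ℕ → ℕ → Bool := onCell 536870912 536870912 0 536870912 67108864 67108864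
    (rowNK 3 2 true true false .npn 1 0 1 (qsf 536870912 536870912 0 536870912 1) ndN2q1 ndN3q0 pcN1 Cut.none Ext.none)

def k0_pm_101 : ∃ t, chk3 f_pm_101 t 1 1 1 = true :=
  ⟨(a (l 3) (l 3)), by decide +kernel⟩

theorem c_pm_101 : CertN 536870912 536870912 0 536870912 67108864 67108864 3 true true false .npn 1 0 1
    ndN2q1 ndN3q0 pcN1 Cut.none Ext.none :=
  certNK2 (fam := true) (s1 := true) (s2 := false) (a := 1) (b := 0) (c := 1) (cn := .npn) (n1 := ndN2q1) (n2 := ndN3q0) (pc := pcN1) (cut := Cut.none) (xt := Ext.none) (P1 := 536870912) (W1 := 536870912) (P2 := 0) (W2 := 536870912) (P3 := 67108864) (W3 := 67108864) (N0 := 3)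
    rfl rfl rfl (fun _ => rfl) k0_pm_101

noncomputable def f_pm_102 : ℕ → ℕ → ℕ → ℕ → Bool := onCell 536870912 536870912 1073741824 536870912 67108864 67108864
    (rowNK 3 1 true true false .npp 1 0 2 (qsf 536870912 536870912 0 536870912 2) ndN2q1 ndN3q0 pcN2 Cut.none Ext.none)

def k0_pm_102 : ∃ t, chk3 f_pm_102 t 1 1 1 = true :=
  ⟨(a (b (b (l 3) (a (l 261561298471) (a (l 18151328) (l 17650304)))) (l 276592665799)) (b (b (l 3) (a (b (a (l 17569976) (l 300819118087)) (l 17991200)) (a (b (l 19085432) (l 19052832)) (a (b (l 19128912) (l 19269744)) (l 305116001479))))) (a (l 18266872) (a (l 19363760) (a (l 19603296) (l 19726624)))))), by decide +kernel⟩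

theorem c_pm_102 : CertN 536870912 536870912 0 536870912 67108864 67108864 3 true true false .npp 1 0 2
    ndN2q1 ndN3q0 pcN2 Cut.none Ext.none :=
  certNK1 (fam := true) (s1 := true) (s2 := false) (a := 1) (b := 0) (c := 2) (cn := .npp) (n1 := ndN2q1) (n2 := ndN3q0) (pc := pcN2) (cut := Cut.none) (xt := Ext.none) (P1 := 536870912) (W1 := 536870912) (P2 := 0) (W2 := 536870912) (P3 := 67108864) (W3 := 67108864) (N0 := 3)
    rfl rfl rfl (fun _ => rfl) k0_pm_102

noncomputable def f_pm_112 : ℕ → ℕ → ℕ → ℕ → Bool := onCell 536870912 536870912 1073741824 536870912 67108864 67108864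
    (rowNK 3 1 true true false .dn 1 1 2 (qsf 536870912 536870912 536870912 536870912 2) ndN2q1 ndN3q1 pcN2 Cut.none Ext.none)

def k0_pm_112 : ∃ t, chk3 f_pm_112 t 1 1 1 = true :=
  ⟨(a (b (b (l 3) (b (a (l 17675264) (l 343633219831)) (l 17920008))) (a (l 19143928) (l 18440136))) (b (a (b (l 1) (a (l 505769301111) (l 1))) (l 1)) (a (l 18326520) (a (l 18768288) (a (l 18857600) (l 18895096)))))), by decide +kernel⟩

theorem c_pm_112 : CertN 536870912 536870912 536870912 536870912 67108864 67108864 3 true true false .dn 1 1 2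
    ndN2q1 ndN3q1 pcN2 Cut.none Ext.none :=
  certNK1 (fam := true) (s1 := true) (s2 := false) (a := 1) (b := 1) (c := 2) (cn := .dn) (n1 := ndN2q1) (n2 := ndN3q1) (pc := pcN2) (cut := Cut.none) (xt := Ext.none) (P1 := 536870912) (W1 := 536870912) (P2 := 536870912) (W2 := 536870912) (P3 := 67108864) (W3 := 67108864) (N0 := 3)
    rfl rfl rfl (fun _ => rfl) k0_pm_112

noncomputable def f_pm_113 : ℕ → ℕ → ℕ → ℕ → Bool := onCell 536870912 536870912 536870912 536870912 67108864 67108864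
    (rowNK 3 0 true true false .nn 1 1 3 (qsf 536870912 536870912 536870912 536870912 3) ndN2q1 ndN3q1 pcN3 Cut.none Ext.none)

def k0_pm_113 : ∃ t, chk3 f_pm_113 t 1 1 1 = true :=
  ⟨(a (b (l 429532871207) (a (l 19313608) (l 19017448))) (a (b (l 18199232) (l 18143008)) (a (l 18007072) (a (b (l 18270488) (l 17342304)) (b (l 18191792) (b (l 17479872) (b (l 17129696) (b (l 16999064) (l 16897056))))))))), by decide +kernel⟩

theorem c_pm_113 : CertN 536870912 536870912 536870912 536870912 67108864 67108864 3 true true false .nn 1 1 3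
    ndN2q1 ndN3q1 pcN3 Cut.none Ext.none :=
  certNK0 (fam := true) (s1 := true) (s2 := false) (a := 1) (b := 1) (c := 3) (cn := .nn) (n1 := ndN2q1) (n2 := ndN3q1) (pc := pcN3) (cut := Cut.none) (xt := Ext.none) (P1 := 536870912) (W1 := 536870912) (P2 := 536870912) (W2 := 536870912) (P3 := 67108864) (W3 := 67108864) (N0 := 3)
    rfl rfl rfl k0_pm_113

noncomputable def f_pm_123 : ℕ → ℕ → ℕ → ℕ → Bool := onCell 1610612736 536870912 1073741824 536870912 67108864 67108864
    (rowNK 3 2 true true false .npn 1 2 3 (qsf 536870912 536870912 1073741824 536870912 3) ndN2q1 ndN3q2 pcN3 Cut.none Ext.none)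

def k0_pm_123 : ∃ t, chk3 f_pm_123 t 1 1 1 = true :=
  ⟨(a (b (a (b (l 19232256) (l 19179336)) (a (l 19545392) (l 19554192))) (a (l 1) (a (l 1) (l 19036744)))) (a (b (b (a (l 18256648) (b (l 17047424) (l 17645944))) (l 18672280)) (l 19082136)) (a (b (a (a (b (l 17117960) (l 4)) (l 4)) (l 4)) (l 18756792)) (l 4)))), by decide +kernel⟩

theorem c_pm_123 : CertN 536870912 536870912 1073741824 536870912 67108864 67108864 3 true true false .npn 1 2 3
    ndN2q1 ndN3q2 pcN3 Cut.none Ext.none :=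
  certNK2 (fam := true) (s1 := true) (s2 := false) (a := 1) (b := 2) (c := 3) (cn := .npn) (n1 := ndN2q1) (n2 := ndN3q2) (pc := pcN3) (cut := Cut.none) (xt := Ext.none) (P1 := 536870912) (W1 := 536870912) (P2 := 1073741824) (W2 := 536870912) (P3 := 67108864) (W3 := 67108864) (N0 := 3)
    rfl rfl rfl (fun _ => rfl) k0_pm_123

noncomputable def f_pm_133 : ℕ → ℕ → ℕ → ℕ → Bool := onCell 536870912 536870912 0 1230186008 67108864 67108864
    (rowNK 3 0 true true false .dn 1 3 3 (qsf 536870912 536870912 0 1230186008 3) ndN2q1 ndN3q3 pcN3 Cut.none Ext.none)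

def k0_pm_133 : ∃ t, chk3 f_pm_133 t 1 1 1 = true :=
  ⟨(b (l 2) (l 4)), by decide +kernel⟩

theorem c_pm_133 : CertN 536870912 536870912 0 1230186008 67108864 67108864 3 true true false .dn 1 3 3
    ndN2q1 ndN3q3 pcN3 Cut.none Ext.none :=
  certNK0 (fam := true) (s1 := true) (s2 := false) (a := 1) (b := 3) (c := 3) (cn := .dn) (n1 := ndN2q1) (n2 := ndN3q3) (pc := pcN3) (cut := Cut.none) (xt := Ext.none) (P1 := 536870912) (W1 := 536870912) (P2 := 0) (W2 := 1230186008) (P3 := 67108864) (W3 := 67108864) (N0 := 3)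
    rfl rfl rfl k0_pm_133

noncomputable def f_pm_202_a : ℕ → ℕ → ℕ → ℕ → Bool := onCell 0 536870912 1073741824 536870912 67108864 67108864
    (rowNK 3 1 true true false .pp 2 0 2 (qsf 0 536870912 0 536870912 2) ndN2q2a ndN3q0 pcN2 Cut.none Ext.none)

def k0_pm_202_a : ∃ t, chk3 f_pm_202_a t 1 1 1 = true :=
  ⟨(a (b (b (b (l 1) (l 526708962903)) (b (l 18698904) (l 18366960))) (b (l 17934744) (l 17781888))) (b (a (b (b (l 1) (l 18936912)) (b (l 18590424) (l 18238352))) (b (a (b (b (l 1) (l 19125920)) (l 18840920)) (b (b (l 19264008) (l 19067152)) (l 18756216))) (a (l 18278056) (l 18187936)))) (a (b (l 17802456) (l 17761128)) (a (b (l 17683240) (l 17737048)) (b (l 17594512) (l 17728552)))))), by decide +kernel⟩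

theorem c_pm_202_a : CertN 0 536870912 0 536870912 67108864 67108864 3 true true false .pp 2 0 2
    ndN2q2a ndN3q0 pcN2 Cut.none Ext.none :=
  certNK1 (fam := true) (s1 := true) (s2 := false) (a := 2) (b := 0) (c := 2) (cn := .pp) (n1 := ndN2q2a) (n2 := ndN3q0) (pc := pcN2) (cut := Cut.none) (xt := Ext.none) (P1 := 0) (W1 := 536870912) (P2 := 0) (W2 := 536870912) (P3 := 67108864) (W3 := 67108864) (N0 := 3)
    rfl rfl rfl (fun _ => rfl) k0_pm_202_a

noncomputable def f_pm_202_b : ℕ → ℕ → ℕ → ℕ → Bool := onCell 1239849684 370763052 0 536870912 67108864 67108864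
    (rowNK 3 0 true true false .pp 2 0 2 (qsf 1239849684 370763052 0 536870912 2) ndN2q2b ndN3q0 pcN2 Cut.none Ext.none)

def k0_pm_202_b : ∃ t, chk3 f_pm_202_b t 1 1 1 = true :=
  ⟨(b (a (b (a (l 18187496) (l 17827920)) (a (l 17711136) (l 17453608))) (b (a (l 17564496) (l 17335272)) (a (l 17260704) (l 2)))) (a (b (a (l 17714640) (l 17805752)) (l 2)) (l 2))), by decide +kernel⟩

theorem c_pm_202_b : CertN 1239849684 370763052 0 536870912 67108864 67108864 3 true true false .pp 2 0 2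
    ndN2q2b ndN3q0 pcN2 Cut.none Ext.none :=
  certNK0 (fam := true) (s1 := true) (s2 := false) (a := 2) (b := 0) (c := 2) (cn := .pp) (n1 := ndN2q2b) (n2 := ndN3q0) (pc := pcN2) (cut := Cut.none) (xt := Ext.none) (P1 := 1239849684) (W1 := 370763052) (P2 := 0) (W2 := 536870912) (P3 := 67108864) (W3 := 67108864) (N0 := 3)
    rfl rfl rfl k0_pm_202_b

noncomputable def f_pm_203_a : ℕ → ℕ → ℕ → ℕ → Bool := onCell 0 536870912 1610612736 536870912 67108864 67108864
    (rowNK 3 1 true true false .up 2 0 3 (qsf 0 536870912 0 536870912 3) ndN2q2a ndN3q0 pcN3 Cut.none Ext.none)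

def k0_pm_203_a : ∃ t, chk3 f_pm_203_a t 1 1 1 = true :=
  ⟨(b (b (a (l 18069896) (a (l 18109904) (a (l 18132312) (l 18158688)))) (a (l 4) (l 4))) (l 2)), by decide +kernel⟩

theorem c_pm_203_a : CertN 0 536870912 0 536870912 67108864 67108864 3 true true false .up 2 0 3
    ndN2q2a ndN3q0 pcN3 Cut.none Ext.none :=
  certNK1 (fam := true) (s1 := true) (s2 := false) (a := 2) (b := 0) (c := 3) (cn := .up) (n1 := ndN2q2a) (n2 := ndN3q0) (pc := pcN3) (cut := Cut.none) (xt := Ext.none) (P1 := 0) (W1 := 536870912) (P2 := 0) (W2 := 536870912) (P3 := 67108864) (W3 := 67108864) (N0 := 3)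
    rfl rfl rfl (fun _ => rfl) k0_pm_203_a

noncomputable def f_pm_203_b : ℕ → ℕ → ℕ → ℕ → Bool := onCell 1239849684 370763052 1610612736 536870912 67108864 67108864
    (rowNK 3 1 true true false .up 2 0 3 (qsf 1239849684 370763052 0 536870912 3) ndN2q2b ndN3q0 pcN3 Cut.none Ext.none)

def k0_pm_203_b : ∃ t, chk3 f_pm_203_b t 1 1 1 = true :=
  ⟨(b (b (a (l 17672064) (l 17011600)) (b (l 17500240) (l 4))) (l 4)), by decide +kernel⟩

theorem c_pm_203_b : CertN 1239849684 370763052 0 536870912 67108864 67108864 3 true true false .up 2 0 3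
    ndN2q2b ndN3q0 pcN3 Cut.none Ext.none :=
  certNK1 (fam := true) (s1 := true) (s2 := false) (a := 2) (b := 0) (c := 3) (cn := .up) (n1 := ndN2q2b) (n2 := ndN3q0) (pc := pcN3) (cut := Cut.none) (xt := Ext.none) (P1 := 1239849684) (W1 := 370763052) (P2 := 0) (W2 := 536870912) (P3 := 67108864) (W3 := 67108864) (N0 := 3)
    rfl rfl rfl (fun _ => rfl) k0_pm_203_b

noncomputable def f_pm_213_a : ℕ → ℕ → ℕ → ℕ → Bool := onCell 0 536870912 1610612736 536870912 67108864 67108864
    (rowNK 3 1 true true false .pnn 2 1 3 (qsf 0 536870912 536870912 536870912 3) ndN2q2a ndN3q1 pcN3 Cut.none Ext.none)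

def k0_pm_213_a : ∃ t, chk3 f_pm_213_a t 1 1 1 = true :=
  ⟨(b (b (a (l 17845256) (a (l 17951008) (a (l 18049784) (l 18133008)))) (a (l 4) (l 4))) (l 4)), by decide +kernel⟩

theorem c_pm_213_a : CertN 0 536870912 536870912 536870912 67108864 67108864 3 true true false .pnn 2 1 3
    ndN2q2a ndN3q1 pcN3 Cut.none Ext.none :=
  certNK1 (fam := true) (s1 := true) (s2 := false) (a := 2) (b := 1) (c := 3) (cn := .pnn) (n1 := ndN2q2a) (n2 := ndN3q1) (pc := pcN3) (cut := Cut.none) (xt := Ext.none) (P1 := 0) (W1 := 536870912) (P2 := 536870912) (W2 := 536870912) (P3 := 67108864) (W3 := 67108864) (N0 := 3)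
    rfl rfl rfl (fun _ => rfl) k0_pm_213_a

noncomputable def f_pm_213_b : ℕ → ℕ → ℕ → ℕ → Bool := onCell 1239849684 370763052 536870912 536870912 67108864 67108864
    (rowNK 3 0 true true false .pnn 2 1 3 (qsf 1239849684 370763052 536870912 536870912 3) ndN2q2b ndN3q1 pcN3 Cut.none Ext.none)

def k0_pm_213_b : ∃ t, chk3 f_pm_213_b t 1 1 1 = true :=
  ⟨(b (a (l 4) (l 4)) (l 4)), by decide +kernel⟩

theorem c_pm_213_b : CertN 1239849684 370763052 536870912 536870912 67108864 67108864 3 true true false .pnn 2 1 3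
    ndN2q2b ndN3q1 pcN3 Cut.none Ext.none :=
  certNK0 (fam := true) (s1 := true) (s2 := false) (a := 2) (b := 1) (c := 3) (cn := .pnn) (n1 := ndN2q2b) (n2 := ndN3q1) (pc := pcN3) (cut := Cut.none) (xt := Ext.none) (P1 := 1239849684) (W1 := 370763052) (P2 := 536870912) (W2 := 536870912) (P3 := 67108864) (W3 := 67108864) (N0 := 3)
    rfl rfl rfl k0_pm_213_b

noncomputable def f_pm_303 : ℕ → ℕ → ℕ → ℕ → Bool := onCell 1610612736 536870912 0 536870912 67108864 67108864
    (rowNK 3 2 true true false .npn 3 0 3 (qsf 1610612736 536870912 0 536870912 3) ndN2q3 ndN3q0 pcN3 Cut.none Ext.none)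

def k0_pm_303 : ∃ t, chk3 f_pm_303 t 1 1 1 = true :=
  ⟨(a (b (a (b (l 18504600) (l 18708912)) (b (a (l 18170512) (l 4)) (l 18607448))) (a (l 1) (l 347930994471))) (l 4)), by decide +kernel⟩

theorem c_pm_303 : CertN 1610612736 536870912 0 536870912 67108864 67108864 3 true true false .npn 3 0 3
    ndN2q3 ndN3q0 pcN3 Cut.none Ext.none :=
  certNK2 (fam := true) (s1 := true) (s2 := false) (a := 3) (b := 0) (c := 3) (cn := .npn) (n1 := ndN2q3) (n2 := ndN3q0) (pc := pcN3) (cut := Cut.none) (xt := Ext.none) (P1 := 1610612736) (W1 := 536870912) (P2 := 0) (W2 := 536870912) (P3 := 67108864) (W3 := 67108864) (N0 := 3)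
    rfl rfl rfl (fun _ => rfl) k0_pm_303

noncomputable def f_pm_313 : ℕ → ℕ → ℕ → ℕ → Bool := onCell 1610612736 536870912 536870912 536870912 67108864 67108864
    (rowNK 3 0 true true false .dn 3 1 3 (qsf 1610612736 536870912 536870912 536870912 3) ndN2q3 ndN3q1 pcN3 Cut.none Ext.none)

def k0_pm_313 : ∃ t, chk3 f_pm_313 t 1 1 1 = true :=
  ⟨(l 4), by decide +kernel⟩

theorem c_pm_313 : CertN 1610612736 536870912 536870912 536870912 67108864 67108864 3 true true false .dn 3 1 3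
    ndN2q3 ndN3q1 pcN3 Cut.none Ext.none :=
  certNK0 (fam := true) (s1 := true) (s2 := false) (a := 3) (b := 1) (c := 3) (cn := .dn) (n1 := ndN2q3) (n2 := ndN3q1) (pc := pcN3) (cut := Cut.none) (xt := Ext.none) (P1 := 1610612736) (W1 := 536870912) (P2 := 536870912) (W2 := 536870912) (P3 := 67108864) (W3 := 67108864) (N0 := 3)
    rfl rfl rfl k0_pm_313

noncomputable def f_mm_001 : ℕ → ℕ → ℕ → ℕ → Bool := onCell 0 536870912 0 536870912 67108864 67108864
    (rowNK 3 0 true false false .up 0 0 1 (qsf 0 536870912 0 536870912 1) ndN2q0 ndN3q0 pcN1 Cut.none Ext.none)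

def k0_mm_001 : ∃ t, chk3 f_mm_001 t 1 1 1 = true :=
  ⟨(l 4), by decide +kernel⟩

theorem c_mm_001 : CertN 0 536870912 0 536870912 67108864 67108864 3 true false false .up 0 0 1
    ndN2q0 ndN3q0 pcN1 Cut.none Ext.none :=
  certNK0 (fam := true) (s1 := false) (s2 := false) (a := 0) (b := 0) (c := 1) (cn := .up) (n1 := ndN2q0) (n2 := ndN3q0) (pc := pcN1) (cut := Cut.none) (xt := Ext.none) (P1 := 0) (W1 := 536870912) (P2 := 0) (W2 := 536870912) (P3 := 67108864) (W3 := 67108864) (N0 := 3)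
    rfl rfl rfl k0_mm_001

noncomputable def f_mm_011 : ℕ → ℕ → ℕ → ℕ → Bool := onCell 0 536870912 536870912 536870912 67108864 67108864
    (rowNK 3 0 true false false .pnn 0 1 1 (qsf 0 536870912 536870912 536870912 1) ndN2q0 ndN3q1 pcN1 Cut.none Ext.none)

def k0_mm_011 : ∃ t, chk3 f_mm_011 t 1 1 1 = true :=
  ⟨(l 4), by decide +kernel⟩

theorem c_mm_011 : CertN 0 536870912 536870912 536870912 67108864 67108864 3 true false false .pnn 0 1 1
    ndN2q0 ndN3q1 pcN1 Cut.none Ext.none :=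
  certNK0 (fam := true) (s1 := false) (s2 := false) (a := 0) (b := 1) (c := 1) (cn := .pnn) (n1 := ndN2q0) (n2 := ndN3q1) (pc := pcN1) (cut := Cut.none) (xt := Ext.none) (P1 := 0) (W1 := 536870912) (P2 := 536870912) (W2 := 536870912) (P3 := 67108864) (W3 := 67108864) (N0 := 3)
    rfl rfl rfl k0_mm_011

noncomputable def f_mm_012 : ℕ → ℕ → ℕ → ℕ → Bool := onCell 0 536870912 536870912 536870912 67108864 67108864
    (rowNK 3 0 true false false .pnp 0 1 2 (qsf 0 536870912 536870912 536870912 2) ndN2q0 ndN3q1 pcN2 Cut.none Ext.none)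

def k0_mm_012 : ∃ t, chk3 f_mm_012 t 1 1 1 = true :=
  ⟨(l 4), by decide +kernel⟩

theorem c_mm_012 : CertN 0 536870912 536870912 536870912 67108864 67108864 3 true false false .pnp 0 1 2
    ndN2q0 ndN3q1 pcN2 Cut.none Ext.none :=
  certNK0 (fam := true) (s1 := false) (s2 := false) (a := 0) (b := 1) (c := 2) (cn := .pnp) (n1 := ndN2q0) (n2 := ndN3q1) (pc := pcN2) (cut := Cut.none) (xt := Ext.none) (P1 := 0) (W1 := 536870912) (P2 := 536870912) (W2 := 536870912) (P3 := 67108864) (W3 := 67108864) (N0 := 3)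
    rfl rfl rfl k0_mm_012

noncomputable def f_mm_022 : ℕ → ℕ → ℕ → ℕ → Bool := onCell 0 536870912 1073741824 536870912 67108864 67108864
    (rowNK 3 0 true false false .pp 0 2 2 (qsf 0 536870912 1073741824 536870912 2) ndN2q0 ndN3q2 pcN2 Cut.none Ext.none)

def k0_mm_022 : ∃ t, chk3 f_mm_022 t 1 1 1 = true :=
  ⟨(l 4), by decide +kernel⟩

theorem c_mm_022 : CertN 0 536870912 1073741824 536870912 67108864 67108864 3 true false false .pp 0 2 2
    ndN2q0 ndN3q2 pcN2 Cut.none Ext.none :=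
  certNK0 (fam := true) (s1 := false) (s2 := false) (a := 0) (b := 2) (c := 2) (cn := .pp) (n1 := ndN2q0) (n2 := ndN3q2) (pc := pcN2) (cut := Cut.none) (xt := Ext.none) (P1 := 0) (W1 := 536870912) (P2 := 1073741824) (W2 := 536870912) (P3 := 67108864) (W3 := 67108864) (N0 := 3)
    rfl rfl rfl k0_mm_022

noncomputable def f_mm_023 : ℕ → ℕ → ℕ → ℕ → Bool := onCell 0 536870912 1073741824 536870912 67108864 67108864
    (rowNK 3 0 true false false .up 0 2 3 (qsf 0 536870912 1073741824 536870912 3) ndN2q0 ndN3q2 pcN3 Cut.none Ext.none)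

def k0_mm_023 : ∃ t, chk3 f_mm_023 t 1 1 1 = true :=
  ⟨(l 4), by decide +kernel⟩

theorem c_mm_023 : CertN 0 536870912 1073741824 536870912 67108864 67108864 3 true false false .up 0 2 3
    ndN2q0 ndN3q2 pcN3 Cut.none Ext.none :=
  certNK0 (fam := true) (s1 := false) (s2 := false) (a := 0) (b := 2) (c := 3) (cn := .up) (n1 := ndN2q0) (n2 := ndN3q2) (pc := pcN3) (cut := Cut.none) (xt := Ext.none) (P1 := 0) (W1 := 536870912) (P2 := 1073741824) (W2 := 536870912) (P3 := 67108864) (W3 := 67108864) (N0 := 3)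
    rfl rfl rfl k0_mm_023

noncomputable def f_mm_033 : ℕ → ℕ → ℕ → ℕ → Bool := onCell 0 536870912 0 1230186008 67108864 67108864
    (rowNK 3 0 true false false .pnn 0 3 3 (qsf 0 536870912 0 1230186008 3) ndN2q0 ndN3q3 pcN3 Cut.none Ext.none)

def k0_mm_033 : ∃ t, chk3 f_mm_033 t 1 1 1 = true :=
  ⟨(l 5), by decide +kernel⟩

theorem c_mm_033 : CertN 0 536870912 0 1230186008 67108864 67108864 3 true false false .pnn 0 3 3
    ndN2q0 ndN3q3 pcN3 Cut.none Ext.none :=
  certNK0 (fam := true) (s1 := false) (s2 := false) (a := 0) (b := 3) (c := 3) (cn := .pnn) (n1 := ndN2q0) (n2 := ndN3q3) (pc := pcN3) (cut := Cut.none) (xt := Ext.none) (P1 := 0) (W1 := 536870912) (P2 := 0) (W2 := 1230186008) (P3 := 67108864) (W3 := 67108864) (N0 := 3)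
    rfl rfl rfl k0_mm_033

noncomputable def f_mm_101 : ℕ → ℕ → ℕ → ℕ → Bool := onCell 536870912 536870912 0 536870912 67108864 67108864
    (rowNK 3 0 true false false .npn 1 0 1 (qsf 536870912 536870912 0 536870912 1) ndN2q1 ndN3q0 pcN1 Cut.none Ext.none)

def k0_mm_101 : ∃ t, chk3 f_mm_101 t 1 1 1 = true :=
  ⟨(l 4), by decide +kernel⟩

theorem c_mm_101 : CertN 536870912 536870912 0 536870912 67108864 67108864 3 true false false .npn 1 0 1
    ndN2q1 ndN3q0 pcN1 Cut.none Ext.none :=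
  certNK0 (fam := true) (s1 := false) (s2 := false) (a := 1) (b := 0) (c := 1) (cn := .npn) (n1 := ndN2q1) (n2 := ndN3q0) (pc := pcN1) (cut := Cut.none) (xt := Ext.none) (P1 := 536870912) (W1 := 536870912) (P2 := 0) (W2 := 536870912) (P3 := 67108864) (W3 := 67108864) (N0 := 3)
    rfl rfl rfl k0_mm_101

noncomputable def f_mm_102 : ℕ → ℕ → ℕ → ℕ → Bool := onCell 536870912 536870912 0 536870912 67108864 67108864
    (rowNK 3 0 true false false .npp 1 0 2 (qsf 536870912 536870912 0 536870912 2) ndN2q1 ndN3q0 pcN2 Cut.none Ext.none)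

def k0_mm_102 : ∃ t, chk3 f_mm_102 t 1 1 1 = true :=
  ⟨(l 4), by decide +kernel⟩

theorem c_mm_102 : CertN 536870912 536870912 0 536870912 67108864 67108864 3 true false false .npp 1 0 2
    ndN2q1 ndN3q0 pcN2 Cut.none Ext.none :=
  certNK0 (fam := true) (s1 := false) (s2 := false) (a := 1) (b := 0) (c := 2) (cn := .npp) (n1 := ndN2q1) (n2 := ndN3q0) (pc := pcN2) (cut := Cut.none) (xt := Ext.none) (P1 := 536870912) (W1 := 536870912) (P2 := 0) (W2 := 536870912) (P3 := 67108864) (W3 := 67108864) (N0 := 3)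
    rfl rfl rfl k0_mm_102

noncomputable def f_mm_112 : ℕ → ℕ → ℕ → ℕ → Bool := onCell 536870912 536870912 536870912 536870912 67108864 67108864
    (rowNK 3 0 true false false .dn 1 1 2 (qsf 536870912 536870912 536870912 536870912 2) ndN2q1 ndN3q1 pcN2 Cut.none Ext.none)

def k0_mm_112 : ∃ t, chk3 f_mm_112 t 1 1 1 = true :=
  ⟨(l 4), by decide +kernel⟩

theorem c_mm_112 : CertN 536870912 536870912 536870912 536870912 67108864 67108864 3 true false false .dn 1 1 2
    ndN2q1 ndN3q1 pcN2 Cut.none Ext.none :=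
  certNK0 (fam := true) (s1 := false) (s2 := false) (a := 1) (b := 1) (c := 2) (cn := .dn) (n1 := ndN2q1) (n2 := ndN3q1) (pc := pcN2) (cut := Cut.none) (xt := Ext.none) (P1 := 536870912) (W1 := 536870912) (P2 := 536870912) (W2 := 536870912) (P3 := 67108864) (W3 := 67108864) (N0 := 3)
    rfl rfl rfl k0_mm_112

noncomputable def f_mm_113 : ℕ → ℕ → ℕ → ℕ → Bool := onCell 536870912 536870912 536870912 536870912 67108864 67108864
    (rowNK 3 0 true false false .nn 1 1 3 (qsf 536870912 536870912 536870912 536870912 3) ndN2q1 ndN3q1 pcN3 Cut.none Ext.none)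

def k0_mm_113 : ∃ t, chk3 f_mm_113 t 1 1 1 = true :=
  ⟨(l 4), by decide +kernel⟩

theorem c_mm_113 : CertN 536870912 536870912 536870912 536870912 67108864 67108864 3 true false false .nn 1 1 3
    ndN2q1 ndN3q1 pcN3 Cut.none Ext.none :=
  certNK0 (fam := true) (s1 := false) (s2 := false) (a := 1) (b := 1) (c := 3) (cn := .nn) (n1 := ndN2q1) (n2 := ndN3q1) (pc := pcN3) (cut := Cut.none) (xt := Ext.none) (P1 := 536870912) (W1 := 536870912) (P2 := 536870912) (W2 := 536870912) (P3 := 67108864) (W3 := 67108864) (N0 := 3)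
    rfl rfl rfl k0_mm_113

noncomputable def f_mm_123 : ℕ → ℕ → ℕ → ℕ → Bool := onCell 536870912 536870912 1073741824 536870912 67108864 67108864
    (rowNK 3 0 true false false .npn 1 2 3 (qsf 536870912 536870912 1073741824 536870912 3) ndN2q1 ndN3q2 pcN3 Cut.none Ext.none)

def k0_mm_123 : ∃ t, chk3 f_mm_123 t 1 1 1 = true :=
  ⟨(l 4), by decide +kernel⟩

theorem c_mm_123 : CertN 536870912 536870912 1073741824 536870912 67108864 67108864 3 true false false .npn 1 2 3
    ndN2q1 ndN3q2 pcN3 Cut.none Ext.none :=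
  certNK0 (fam := true) (s1 := false) (s2 := false) (a := 1) (b := 2) (c := 3) (cn := .npn) (n1 := ndN2q1) (n2 := ndN3q2) (pc := pcN3) (cut := Cut.none) (xt := Ext.none) (P1 := 536870912) (W1 := 536870912) (P2 := 1073741824) (W2 := 536870912) (P3 := 67108864) (W3 := 67108864) (N0 := 3)
    rfl rfl rfl k0_mm_123

noncomputable def f_mm_133 : ℕ → ℕ → ℕ → ℕ → Bool := onCell 536870912 536870912 0 1230186008 67108864 67108864
    (rowNK 3 0 true false false .dn 1 3 3 (qsf 536870912 536870912 0 1230186008 3) ndN2q1 ndN3q3 pcN3 Cut.none Ext.none)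

def k0_mm_133 : ∃ t, chk3 f_mm_133 t 1 1 1 = true :=
  ⟨(l 4), by decide +kernel⟩

theorem c_mm_133 : CertN 536870912 536870912 0 1230186008 67108864 67108864 3 true false false .dn 1 3 3
    ndN2q1 ndN3q3 pcN3 Cut.none Ext.none :=
  certNK0 (fam := true) (s1 := false) (s2 := false) (a := 1) (b := 3) (c := 3) (cn := .dn) (n1 := ndN2q1) (n2 := ndN3q3) (pc := pcN3) (cut := Cut.none) (xt := Ext.none) (P1 := 536870912) (W1 := 536870912) (P2 := 0) (W2 := 1230186008) (P3 := 67108864) (W3 := 67108864) (N0 := 3)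
    rfl rfl rfl k0_mm_133

noncomputable def f_mm_202_a : ℕ → ℕ → ℕ → ℕ → Bool := onCell 0 536870912 0 536870912 67108864 67108864
    (rowNK 3 0 true false false .pp 2 0 2 (qsf 0 536870912 0 536870912 2) ndN2q2a ndN3q0 pcN2 Cut.none Ext.none)

def k0_mm_202_a : ∃ t, chk3 f_mm_202_a t 1 1 1 = true :=
  ⟨(l 4), by decide +kernel⟩

theorem c_mm_202_a : CertN 0 536870912 0 536870912 67108864 67108864 3 true false false .pp 2 0 2
    ndN2q2a ndN3q0 pcN2 Cut.none Ext.none :=
  certNK0 (fam := true) (s1 := false) (s2 := false) (a := 2) (b := 0) (c := 2) (cn := .pp) (n1 := ndN2q2a) (n2 := ndN3q0) (pc := pcN2) (cut := Cut.none) (xt := Ext.none) (P1 := 0) (W1 := 536870912) (P2 := 0) (W2 := 536870912) (P3 := 67108864) (W3 := 67108864) (N0 := 3)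
    rfl rfl rfl k0_mm_202_a

noncomputable def f_mm_202_b : ℕ → ℕ → ℕ → ℕ → Bool := onCell 1239849684 370763052 0 536870912 67108864 67108864
    (rowNK 3 0 true false false .pp 2 0 2 (qsf 1239849684 370763052 0 536870912 2) ndN2q2b ndN3q0 pcN2 Cut.none Ext.none)

def k0_mm_202_b : ∃ t, chk3 f_mm_202_b t 1 1 1 = true :=
  ⟨(l 4), by decide +kernel⟩

theorem c_mm_202_b : CertN 1239849684 370763052 0 536870912 67108864 67108864 3 true false false .pp 2 0 2
    ndN2q2b ndN3q0 pcN2 Cut.none Ext.none :=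
  certNK0 (fam := true) (s1 := false) (s2 := false) (a := 2) (b := 0) (c := 2) (cn := .pp) (n1 := ndN2q2b) (n2 := ndN3q0) (pc := pcN2) (cut := Cut.none) (xt := Ext.none) (P1 := 1239849684) (W1 := 370763052) (P2 := 0) (W2 := 536870912) (P3 := 67108864) (W3 := 67108864) (N0 := 3)
    rfl rfl rfl k0_mm_202_b

noncomputable def f_mm_203_a : ℕ → ℕ → ℕ → ℕ → Bool := onCell 0 536870912 0 536870912 67108864 67108864
    (rowNK 3 0 true false false .up 2 0 3 (qsf 0 536870912 0 536870912 3) ndN2q2a ndN3q0 pcN3 Cut.none Ext.none)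

def k0_mm_203_a : ∃ t, chk3 f_mm_203_a t 1 1 1 = true :=
  ⟨(l 4), by decide +kernel⟩

theorem c_mm_203_a : CertN 0 536870912 0 536870912 67108864 67108864 3 true false false .up 2 0 3
    ndN2q2a ndN3q0 pcN3 Cut.none Ext.none :=
  certNK0 (fam := true) (s1 := false) (s2 := false) (a := 2) (b := 0) (c := 3) (cn := .up) (n1 := ndN2q2a) (n2 := ndN3q0) (pc := pcN3) (cut := Cut.none) (xt := Ext.none) (P1 := 0) (W1 := 536870912) (P2 := 0) (W2 := 536870912) (P3 := 67108864) (W3 := 67108864) (N0 := 3)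
    rfl rfl rfl k0_mm_203_a

noncomputable def f_mm_203_b : ℕ → ℕ → ℕ → ℕ → Bool := onCell 1239849684 370763052 0 536870912 67108864 67108864
    (rowNK 3 0 true false false .up 2 0 3 (qsf 1239849684 370763052 0 536870912 3) ndN2q2b ndN3q0 pcN3 Cut.none Ext.none)

def k0_mm_203_b : ∃ t, chk3 f_mm_203_b t 1 1 1 = true :=
  ⟨(l 4), by decide +kernel⟩

theorem c_mm_203_b : CertN 1239849684 370763052 0 536870912 67108864 67108864 3 true false false .up 2 0 3
    ndN2q2b ndN3q0 pcN3 Cut.none Ext.none :=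
  certNK0 (fam := true) (s1 := false) (s2 := false) (a := 2) (b := 0) (c := 3) (cn := .up) (n1 := ndN2q2b) (n2 := ndN3q0) (pc := pcN3) (cut := Cut.none) (xt := Ext.none) (P1 := 1239849684) (W1 := 370763052) (P2 := 0) (W2 := 536870912) (P3 := 67108864) (W3 := 67108864) (N0 := 3)
    rfl rfl rfl k0_mm_203_b

noncomputable def f_mm_213_a : ℕ → ℕ → ℕ → ℕ → Bool := onCell 0 536870912 536870912 536870912 67108864 67108864
    (rowNK 3 0 true false false .pnn 2 1 3 (qsf 0 536870912 536870912 536870912 3) ndN2q2a ndN3q1 pcN3 Cut.none Ext.none)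

def k0_mm_213_a : ∃ t, chk3 f_mm_213_a t 1 1 1 = true :=
  ⟨(l 4), by decide +kernel⟩

theorem c_mm_213_a : CertN 0 536870912 536870912 536870912 67108864 67108864 3 true false false .pnn 2 1 3
    ndN2q2a ndN3q1 pcN3 Cut.none Ext.none :=
  certNK0 (fam := true) (s1 := false) (s2 := false) (a := 2) (b := 1) (c := 3) (cn := .pnn) (n1 := ndN2q2a) (n2 := ndN3q1) (pc := pcN3) (cut := Cut.none) (xt := Ext.none) (P1 := 0) (W1 := 536870912) (P2 := 536870912) (W2 := 536870912) (P3 := 67108864) (W3 := 67108864) (N0 := 3)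
    rfl rfl rfl k0_mm_213_a

noncomputable def f_mm_213_b : ℕ → ℕ → ℕ → ℕ → Bool := onCell 1239849684 370763052 536870912 536870912 67108864 67108864
    (rowNK 3 0 true false false .pnn 2 1 3 (qsf 1239849684 370763052 536870912 536870912 3) ndN2q2b ndN3q1 pcN3 Cut.none Ext.none)

def k0_mm_213_b : ∃ t, chk3 f_mm_213_b t 1 1 1 = true :=
  ⟨(l 4), by decide +kernel⟩

theorem c_mm_213_b : CertN 1239849684 370763052 536870912 536870912 67108864 67108864 3 true false false .pnn 2 1 3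
    ndN2q2b ndN3q1 pcN3 Cut.none Ext.none :=
  certNK0 (fam := true) (s1 := false) (s2 := false) (a := 2) (b := 1) (c := 3) (cn := .pnn) (n1 := ndN2q2b) (n2 := ndN3q1) (pc := pcN3) (cut := Cut.none) (xt := Ext.none) (P1 := 1239849684) (W1 := 370763052) (P2 := 536870912) (W2 := 536870912) (P3 := 67108864) (W3 := 67108864) (N0 := 3)
    rfl rfl rfl k0_mm_213_b

noncomputable def f_mm_303 : ℕ → ℕ → ℕ → ℕ → Bool := onCell 1610612736 536870912 0 536870912 67108864 67108864
    (rowNK 3 0 true false false .npn 3 0 3 (qsf 1610612736 536870912 0 536870912 3) ndN2q3 ndN3q0 pcN3 Cut.none Ext.none)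

def k0_mm_303 : ∃ t, chk3 f_mm_303 t 1 1 1 = true :=
  ⟨(l 4), by decide +kernel⟩

theorem c_mm_303 : CertN 1610612736 536870912 0 536870912 67108864 67108864 3 true false false .npn 3 0 3
    ndN2q3 ndN3q0 pcN3 Cut.none Ext.none :=
  certNK0 (fam := true) (s1 := false) (s2 := false) (a := 3) (b := 0) (c := 3) (cn := .npn) (n1 := ndN2q3) (n2 := ndN3q0) (pc := pcN3) (cut := Cut.none) (xt := Ext.none) (P1 := 1610612736) (W1 := 536870912) (P2 := 0) (W2 := 536870912) (P3 := 67108864) (W3 := 67108864) (N0 := 3)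
    rfl rfl rfl k0_mm_303

noncomputable def f_mm_313 : ℕ → ℕ → ℕ → ℕ → Bool := onCell 1610612736 536870912 536870912 536870912 67108864 67108864
    (rowNK 3 0 true false false .dn 3 1 3 (qsf 1610612736 536870912 536870912 536870912 3) ndN2q3 ndN3q1 pcN3 Cut.none Ext.none)

def k0_mm_313 : ∃ t, chk3 f_mm_313 t 1 1 1 = true :=
  ⟨(l 4), by decide +kernel⟩

theorem c_mm_313 : CertN 1610612736 536870912 536870912 536870912 67108864 67108864 3 true false false .dn 3 1 3
    ndN2q3 ndN3q1 pcN3 Cut.none Ext.none :=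
  certNK0 (fam := true) (s1 := false) (s2 := false) (a := 3) (b := 1) (c := 3) (cn := .dn) (n1 := ndN2q3) (n2 := ndN3q1) (pc := pcN3) (cut := Cut.none) (xt := Ext.none) (P1 := 1610612736) (W1 := 536870912) (P2 := 536870912) (W2 := 536870912) (P3 := 67108864) (W3 := 67108864) (N0 := 3)
    rfl rfl rfl k0_mm_313

end Pool.Agent.Strip051.G.I1_16_1_8.Tab.C.NA23

namespace Pool.Agent.Strip051.G.I1_16_1_8.Tab.C.NA24

open Pool.Agent.Strip051.PB Pool.Agent.Strip051.PB.T
open Pool.Agent.Strip051.G.I1_16_1_8.Tab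

noncomputable def f_pp_001 : ℕ → ℕ → ℕ → ℕ → Bool := onCell 0 536870912 0 536870912 67108864 67108864
    (rowNK 3 0 true true true .up 0 0 1 (qsf 0 536870912 0 536870912 1) ndN2q0 ndN4q0 pcN1 Cut.none Ext.none)

def k0_pp_001 : ∃ t, chk3 f_pp_001 t 1 1 1 = true :=
  ⟨(l 4), by decide +kernel⟩

theorem c_pp_001 : CertN 0 536870912 0 536870912 67108864 67108864 3 true true true .up 0 0 1
    ndN2q0 ndN4q0 pcN1 Cut.none Ext.none :=
  certNK0 (fam := true) (s1 := true) (s2 := true) (a := 0) (b := 0) (c := 1) (cn := .up) (n1 := ndN2q0) (n2 := ndN4q0) (pc := pcN1) (cut := Cut.none) (xt := Ext.none) (P1 := 0) (W1 := 536870912) (P2 := 0) (W2 := 536870912) (P3 := 67108864) (W3 := 67108864) (N0 := 3)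
    rfl rfl rfl k0_pp_001

noncomputable def f_pp_011 : ℕ → ℕ → ℕ → ℕ → Bool := onCell 0 536870912 536870912 536870912 67108864 67108864
    (rowNK 3 0 true true true .pnn 0 1 1 (qsf 0 536870912 536870912 536870912 1) ndN2q0 ndN4q1 pcN1 Cut.none Ext.none)

def k0_pp_011 : ∃ t, chk3 f_pp_011 t 1 1 1 = true :=
  ⟨(l 4), by decide +kernel⟩

theorem c_pp_011 : CertN 0 536870912 536870912 536870912 67108864 67108864 3 true true true .pnn 0 1 1
    ndN2q0 ndN4q1 pcN1 Cut.none Ext.none :=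
  certNK0 (fam := true) (s1 := true) (s2 := true) (a := 0) (b := 1) (c := 1) (cn := .pnn) (n1 := ndN2q0) (n2 := ndN4q1) (pc := pcN1) (cut := Cut.none) (xt := Ext.none) (P1 := 0) (W1 := 536870912) (P2 := 536870912) (W2 := 536870912) (P3 := 67108864) (W3 := 67108864) (N0 := 3)
    rfl rfl rfl k0_pp_011

noncomputable def f_pp_012 : ℕ → ℕ → ℕ → ℕ → Bool := onCell 0 536870912 536870912 536870912 67108864 67108864
    (rowNK 3 0 true true true .pnp 0 1 2 (qsf 0 536870912 536870912 536870912 2) ndN2q0 ndN4q1 pcN2 Cut.none Ext.none)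

def k0_pp_012 : ∃ t, chk3 f_pp_012 t 1 1 1 = true :=
  ⟨(l 4), by decide +kernel⟩

theorem c_pp_012 : CertN 0 536870912 536870912 536870912 67108864 67108864 3 true true true .pnp 0 1 2
    ndN2q0 ndN4q1 pcN2 Cut.none Ext.none :=
  certNK0 (fam := true) (s1 := true) (s2 := true) (a := 0) (b := 1) (c := 2) (cn := .pnp) (n1 := ndN2q0) (n2 := ndN4q1) (pc := pcN2) (cut := Cut.none) (xt := Ext.none) (P1 := 0) (W1 := 536870912) (P2 := 536870912) (W2 := 536870912) (P3 := 67108864) (W3 := 67108864) (N0 := 3)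
    rfl rfl rfl k0_pp_012

noncomputable def f_pp_022 : ℕ → ℕ → ℕ → ℕ → Bool := onCell 0 536870912 1073741824 536870912 67108864 67108864
    (rowNK 3 0 true true true .pp 0 2 2 (qsf 0 536870912 1073741824 536870912 2) ndN2q0 ndN4q2 pcN2 Cut.none Ext.none)

def k0_pp_022 : ∃ t, chk3 f_pp_022 t 1 1 1 = true :=
  ⟨(l 4), by decide +kernel⟩

theorem c_pp_022 : CertN 0 536870912 1073741824 536870912 67108864 67108864 3 true true true .pp 0 2 2
    ndN2q0 ndN4q2 pcN2 Cut.none Ext.none :=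
  certNK0 (fam := true) (s1 := true) (s2 := true) (a := 0) (b := 2) (c := 2) (cn := .pp) (n1 := ndN2q0) (n2 := ndN4q2) (pc := pcN2) (cut := Cut.none) (xt := Ext.none) (P1 := 0) (W1 := 536870912) (P2 := 1073741824) (W2 := 536870912) (P3 := 67108864) (W3 := 67108864) (N0 := 3)
    rfl rfl rfl k0_pp_022

noncomputable def f_pp_023 : ℕ → ℕ → ℕ → ℕ → Bool := onCell 0 536870912 1073741824 536870912 67108864 67108864
    (rowNK 3 0 true true true .up 0 2 3 (qsf 0 536870912 1073741824 536870912 3) ndN2q0 ndN4q2 pcN3 Cut.none Ext.none)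

def k0_pp_023 : ∃ t, chk3 f_pp_023 t 1 1 1 = true :=
  ⟨(l 4), by decide +kernel⟩

theorem c_pp_023 : CertN 0 536870912 1073741824 536870912 67108864 67108864 3 true true true .up 0 2 3
    ndN2q0 ndN4q2 pcN3 Cut.none Ext.none :=
  certNK0 (fam := true) (s1 := true) (s2 := true) (a := 0) (b := 2) (c := 3) (cn := .up) (n1 := ndN2q0) (n2 := ndN4q2) (pc := pcN3) (cut := Cut.none) (xt := Ext.none) (P1 := 0) (W1 := 536870912) (P2 := 1073741824) (W2 := 536870912) (P3 := 67108864) (W3 := 67108864) (N0 := 3)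
    rfl rfl rfl k0_pp_023

noncomputable def f_pp_033 : ℕ → ℕ → ℕ → ℕ → Bool := onCell 0 536870912 0 1230186008 67108864 67108864
    (rowNK 3 0 true true true .pnn 0 3 3 (qsf 0 536870912 0 1230186008 3) ndN2q0 ndN4q3 pcN3 Cut.none Ext.none)

def k0_pp_033 : ∃ t, chk3 f_pp_033 t 1 1 1 = true :=
  ⟨(b (l 4) (l 4)), by decide +kernel⟩

theorem c_pp_033 : CertN 0 536870912 0 1230186008 67108864 67108864 3 true true true .pnn 0 3 3
    ndN2q0 ndN4q3 pcN3 Cut.none Ext.none :=
  certNK0 (fam := true) (s1 := true) (s2 := true) (a := 0) (b := 3) (c := 3) (cn := .pnn) (n1 := ndN2q0) (n2 := ndN4q3) (pc := pcN3) (cut := Cut.none) (xt := Ext.none) (P1 := 0) (W1 := 536870912) (P2 := 0) (W2 := 1230186008) (P3 := 67108864) (W3 := 67108864) (N0 := 3)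
    rfl rfl rfl k0_pp_033

noncomputable def f_pp_101 : ℕ → ℕ → ℕ → ℕ → Bool := onCell 536870912 536870912 0 536870912 67108864 67108864
    (rowNK 3 0 true true true .npn 1 0 1 (qsf 536870912 536870912 0 536870912 1) ndN2q1 ndN4q0 pcN1 Cut.none Ext.none)

def k0_pp_101 : ∃ t, chk3 f_pp_101 t 1 1 1 = true :=
  ⟨(l 4), by decide +kernel⟩

theorem c_pp_101 : CertN 536870912 536870912 0 536870912 67108864 67108864 3 true true true .npn 1 0 1
    ndN2q1 ndN4q0 pcN1 Cut.none Ext.none :=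
  certNK0 (fam := true) (s1 := true) (s2 := true) (a := 1) (b := 0) (c := 1) (cn := .npn) (n1 := ndN2q1) (n2 := ndN4q0) (pc := pcN1) (cut := Cut.none) (xt := Ext.none) (P1 := 536870912) (W1 := 536870912) (P2 := 0) (W2 := 536870912) (P3 := 67108864) (W3 := 67108864) (N0 := 3)
    rfl rfl rfl k0_pp_101

noncomputable def f_pp_102 : ℕ → ℕ → ℕ → ℕ → Bool := onCell 536870912 536870912 0 536870912 67108864 67108864
    (rowNK 3 0 true true true .npp 1 0 2 (qsf 536870912 536870912 0 536870912 2) ndN2q1 ndN4q0 pcN2 Cut.none Ext.none)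

def k0_pp_102 : ∃ t, chk3 f_pp_102 t 1 1 1 = true :=
  ⟨(l 4), by decide +kernel⟩

theorem c_pp_102 : CertN 536870912 536870912 0 536870912 67108864 67108864 3 true true true .npp 1 0 2
    ndN2q1 ndN4q0 pcN2 Cut.none Ext.none :=
  certNK0 (fam := true) (s1 := true) (s2 := true) (a := 1) (b := 0) (c := 2) (cn := .npp) (n1 := ndN2q1) (n2 := ndN4q0) (pc := pcN2) (cut := Cut.none) (xt := Ext.none) (P1 := 536870912) (W1 := 536870912) (P2 := 0) (W2 := 536870912) (P3 := 67108864) (W3 := 67108864) (N0 := 3)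
    rfl rfl rfl k0_pp_102

noncomputable def f_pp_112 : ℕ → ℕ → ℕ → ℕ → Bool := onCell 536870912 536870912 536870912 536870912 67108864 67108864
    (rowNK 3 0 true true true .dn 1 1 2 (qsf 536870912 536870912 536870912 536870912 2) ndN2q1 ndN4q1 pcN2 Cut.none Ext.none)

def k0_pp_112 : ∃ t, chk3 f_pp_112 t 1 1 1 = true :=
  ⟨(l 4), by decide +kernel⟩

theorem c_pp_112 : CertN 536870912 536870912 536870912 536870912 67108864 67108864 3 true true true .dn 1 1 2
    ndN2q1 ndN4q1 pcN2 Cut.none Ext.none :=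
  certNK0 (fam := true) (s1 := true) (s2 := true) (a := 1) (b := 1) (c := 2) (cn := .dn) (n1 := ndN2q1) (n2 := ndN4q1) (pc := pcN2) (cut := Cut.none) (xt := Ext.none) (P1 := 536870912) (W1 := 536870912) (P2 := 536870912) (W2 := 536870912) (P3 := 67108864) (W3 := 67108864) (N0 := 3)
    rfl rfl rfl k0_pp_112

noncomputable def f_pp_113 : ℕ → ℕ → ℕ → ℕ → Bool := onCell 536870912 536870912 536870912 536870912 67108864 67108864
    (rowNK 3 0 true true true .nn 1 1 3 (qsf 536870912 536870912 536870912 536870912 3) ndN2q1 ndN4q1 pcN3 Cut.none Ext.none)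

def k0_pp_113 : ∃ t, chk3 f_pp_113 t 1 1 1 = true :=
  ⟨(l 4), by decide +kernel⟩

theorem c_pp_113 : CertN 536870912 536870912 536870912 536870912 67108864 67108864 3 true true true .nn 1 1 3
    ndN2q1 ndN4q1 pcN3 Cut.none Ext.none :=
  certNK0 (fam := true) (s1 := true) (s2 := true) (a := 1) (b := 1) (c := 3) (cn := .nn) (n1 := ndN2q1) (n2 := ndN4q1) (pc := pcN3) (cut := Cut.none) (xt := Ext.none) (P1 := 536870912) (W1 := 536870912) (P2 := 536870912) (W2 := 536870912) (P3 := 67108864) (W3 := 67108864) (N0 := 3)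
    rfl rfl rfl k0_pp_113

noncomputable def f_pp_123 : ℕ → ℕ → ℕ → ℕ → Bool := onCell 536870912 536870912 1073741824 536870912 67108864 67108864
    (rowNK 3 0 true true true .npn 1 2 3 (qsf 536870912 536870912 1073741824 536870912 3) ndN2q1 ndN4q2 pcN3 Cut.none Ext.none)

def k0_pp_123 : ∃ t, chk3 f_pp_123 t 1 1 1 = true :=
  ⟨(l 4), by decide +kernel⟩

theorem c_pp_123 : CertN 536870912 536870912 1073741824 536870912 67108864 67108864 3 true true true .npn 1 2 3
    ndN2q1 ndN4q2 pcN3 Cut.none Ext.none :=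
  certNK0 (fam := true) (s1 := true) (s2 := true) (a := 1) (b := 2) (c := 3) (cn := .npn) (n1 := ndN2q1) (n2 := ndN4q2) (pc := pcN3) (cut := Cut.none) (xt := Ext.none) (P1 := 536870912) (W1 := 536870912) (P2 := 1073741824) (W2 := 536870912) (P3 := 67108864) (W3 := 67108864) (N0 := 3)
    rfl rfl rfl k0_pp_123

noncomputable def f_pp_133 : ℕ → ℕ → ℕ → ℕ → Bool := onCell 536870912 536870912 0 1230186008 67108864 67108864
    (rowNK 3 0 true true true .dn 1 3 3 (qsf 536870912 536870912 0 1230186008 3) ndN2q1 ndN4q3 pcN3 Cut.none Ext.none)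

def k0_pp_133 : ∃ t, chk3 f_pp_133 t 1 1 1 = true :=
  ⟨(l 4), by decide +kernel⟩

theorem c_pp_133 : CertN 536870912 536870912 0 1230186008 67108864 67108864 3 true true true .dn 1 3 3
    ndN2q1 ndN4q3 pcN3 Cut.none Ext.none :=
  certNK0 (fam := true) (s1 := true) (s2 := true) (a := 1) (b := 3) (c := 3) (cn := .dn) (n1 := ndN2q1) (n2 := ndN4q3) (pc := pcN3) (cut := Cut.none) (xt := Ext.none) (P1 := 536870912) (W1 := 536870912) (P2 := 0) (W2 := 1230186008) (P3 := 67108864) (W3 := 67108864) (N0 := 3)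
    rfl rfl rfl k0_pp_133

noncomputable def f_pp_202_a : ℕ → ℕ → ℕ → ℕ → Bool := onCell 0 536870912 0 536870912 67108864 67108864
    (rowNK 3 0 true true true .pp 2 0 2 (qsf 0 536870912 0 536870912 2) ndN2q2a ndN4q0 pcN2 Cut.none Ext.none)

def k0_pp_202_a : ∃ t, chk3 f_pp_202_a t 1 1 1 = true :=
  ⟨(l 4), by decide +kernel⟩

theorem c_pp_202_a : CertN 0 536870912 0 536870912 67108864 67108864 3 true true true .pp 2 0 2
    ndN2q2a ndN4q0 pcN2 Cut.none Ext.none :=
  certNK0 (fam := true) (s1 := true) (s2 := true) (a := 2) (b := 0) (c := 2) (cn := .pp) (n1 := ndN2q2a) (n2 := ndN4q0) (pc := pcN2) (cut := Cut.none) (xt := Ext.none) (P1 := 0) (W1 := 536870912) (P2 := 0) (W2 := 536870912) (P3 := 67108864) (W3 := 67108864) (N0 := 3)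
    rfl rfl rfl k0_pp_202_a

noncomputable def f_pp_202_b : ℕ → ℕ → ℕ → ℕ → Bool := onCell 1239849684 370763052 0 536870912 67108864 67108864
    (rowNK 3 0 true true true .pp 2 0 2 (qsf 1239849684 370763052 0 536870912 2) ndN2q2b ndN4q0 pcN2 Cut.none Ext.none)

def k0_pp_202_b : ∃ t, chk3 f_pp_202_b t 1 1 1 = true :=
  ⟨(l 4), by decide +kernel⟩

theorem c_pp_202_b : CertN 1239849684 370763052 0 536870912 67108864 67108864 3 true true true .pp 2 0 2
    ndN2q2b ndN4q0 pcN2 Cut.none Ext.none :=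
  certNK0 (fam := true) (s1 := true) (s2 := true) (a := 2) (b := 0) (c := 2) (cn := .pp) (n1 := ndN2q2b) (n2 := ndN4q0) (pc := pcN2) (cut := Cut.none) (xt := Ext.none) (P1 := 1239849684) (W1 := 370763052) (P2 := 0) (W2 := 536870912) (P3 := 67108864) (W3 := 67108864) (N0 := 3)
    rfl rfl rfl k0_pp_202_b

noncomputable def f_pp_203_a : ℕ → ℕ → ℕ → ℕ → Bool := onCell 0 536870912 0 536870912 67108864 67108864
    (rowNK 3 0 true true true .up 2 0 3 (qsf 0 536870912 0 536870912 3) ndN2q2a ndN4q0 pcN3 Cut.none Ext.none)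

def k0_pp_203_a : ∃ t, chk3 f_pp_203_a t 1 1 1 = true :=
  ⟨(l 4), by decide +kernel⟩

theorem c_pp_203_a : CertN 0 536870912 0 536870912 67108864 67108864 3 true true true .up 2 0 3
    ndN2q2a ndN4q0 pcN3 Cut.none Ext.none :=
  certNK0 (fam := true) (s1 := true) (s2 := true) (a := 2) (b := 0) (c := 3) (cn := .up) (n1 := ndN2q2a) (n2 := ndN4q0) (pc := pcN3) (cut := Cut.none) (xt := Ext.none) (P1 := 0) (W1 := 536870912) (P2 := 0) (W2 := 536870912) (P3 := 67108864) (W3 := 67108864) (N0 := 3)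
    rfl rfl rfl k0_pp_203_a

noncomputable def f_pp_203_b : ℕ → ℕ → ℕ → ℕ → Bool := onCell 1239849684 370763052 0 536870912 67108864 67108864
    (rowNK 3 0 true true true .up 2 0 3 (qsf 1239849684 370763052 0 536870912 3) ndN2q2b ndN4q0 pcN3 Cut.none Ext.none)

def k0_pp_203_b : ∃ t, chk3 f_pp_203_b t 1 1 1 = true :=
  ⟨(l 4), by decide +kernel⟩

theorem c_pp_203_b : CertN 1239849684 370763052 0 536870912 67108864 67108864 3 true true true .up 2 0 3
    ndN2q2b ndN4q0 pcN3 Cut.none Ext.none :=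
  certNK0 (fam := true) (s1 := true) (s2 := true) (a := 2) (b := 0) (c := 3) (cn := .up) (n1 := ndN2q2b) (n2 := ndN4q0) (pc := pcN3) (cut := Cut.none) (xt := Ext.none) (P1 := 1239849684) (W1 := 370763052) (P2 := 0) (W2 := 536870912) (P3 := 67108864) (W3 := 67108864) (N0 := 3)
    rfl rfl rfl k0_pp_203_b

noncomputable def f_pp_213_a : ℕ → ℕ → ℕ → ℕ → Bool := onCell 0 536870912 536870912 536870912 67108864 67108864
    (rowNK 3 0 true true true .pnn 2 1 3 (qsf 0 536870912 536870912 536870912 3) ndN2q2a ndN4q1 pcN3 Cut.none Ext.none)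

def k0_pp_213_a : ∃ t, chk3 f_pp_213_a t 1 1 1 = true :=
  ⟨(l 4), by decide +kernel⟩

theorem c_pp_213_a : CertN 0 536870912 536870912 536870912 67108864 67108864 3 true true true .pnn 2 1 3
    ndN2q2a ndN4q1 pcN3 Cut.none Ext.none :=
  certNK0 (fam := true) (s1 := true) (s2 := true) (a := 2) (b := 1) (c := 3) (cn := .pnn) (n1 := ndN2q2a) (n2 := ndN4q1) (pc := pcN3) (cut := Cut.none) (xt := Ext.none) (P1 := 0) (W1 := 536870912) (P2 := 536870912) (W2 := 536870912) (P3 := 67108864) (W3 := 67108864) (N0 := 3)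
    rfl rfl rfl k0_pp_213_a

noncomputable def f_pp_213_b : ℕ → ℕ → ℕ → ℕ → Bool := onCell 1239849684 370763052 536870912 536870912 67108864 67108864
    (rowNK 3 0 true true true .pnn 2 1 3 (qsf 1239849684 370763052 536870912 536870912 3) ndN2q2b ndN4q1 pcN3 Cut.none Ext.none)

def k0_pp_213_b : ∃ t, chk3 f_pp_213_b t 1 1 1 = true :=
  ⟨(l 4), by decide +kernel⟩

theorem c_pp_213_b : CertN 1239849684 370763052 536870912 536870912 67108864 67108864 3 true true true .pnn 2 1 3
    ndN2q2b ndN4q1 pcN3 Cut.none Ext.none :=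
  certNK0 (fam := true) (s1 := true) (s2 := true) (a := 2) (b := 1) (c := 3) (cn := .pnn) (n1 := ndN2q2b) (n2 := ndN4q1) (pc := pcN3) (cut := Cut.none) (xt := Ext.none) (P1 := 1239849684) (W1 := 370763052) (P2 := 536870912) (W2 := 536870912) (P3 := 67108864) (W3 := 67108864) (N0 := 3)
    rfl rfl rfl k0_pp_213_b

noncomputable def f_pp_303 : ℕ → ℕ → ℕ → ℕ → Bool := onCell 1610612736 536870912 0 536870912 67108864 67108864
    (rowNK 3 0 true true true .npn 3 0 3 (qsf 1610612736 536870912 0 536870912 3) ndN2q3 ndN4q0 pcN3 Cut.none Ext.none)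

def k0_pp_303 : ∃ t, chk3 f_pp_303 t 1 1 1 = true :=
  ⟨(l 4), by decide +kernel⟩

theorem c_pp_303 : CertN 1610612736 536870912 0 536870912 67108864 67108864 3 true true true .npn 3 0 3
    ndN2q3 ndN4q0 pcN3 Cut.none Ext.none :=
  certNK0 (fam := true) (s1 := true) (s2 := true) (a := 3) (b := 0) (c := 3) (cn := .npn) (n1 := ndN2q3) (n2 := ndN4q0) (pc := pcN3) (cut := Cut.none) (xt := Ext.none) (P1 := 1610612736) (W1 := 536870912) (P2 := 0) (W2 := 536870912) (P3 := 67108864) (W3 := 67108864) (N0 := 3)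
    rfl rfl rfl k0_pp_303

noncomputable def f_pp_313 : ℕ → ℕ → ℕ → ℕ → Bool := onCell 1610612736 536870912 536870912 536870912 67108864 67108864
    (rowNK 3 0 true true true .dn 3 1 3 (qsf 1610612736 536870912 536870912 536870912 3) ndN2q3 ndN4q1 pcN3 Cut.none Ext.none)

def k0_pp_313 : ∃ t, chk3 f_pp_313 t 1 1 1 = true :=
  ⟨(l 4), by decide +kernel⟩

theorem c_pp_313 : CertN 1610612736 536870912 536870912 536870912 67108864 67108864 3 true true true .dn 3 1 3
    ndN2q3 ndN4q1 pcN3 Cut.none Ext.none :=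
  certNK0 (fam := true) (s1 := true) (s2 := true) (a := 3) (b := 1) (c := 3) (cn := .dn) (n1 := ndN2q3) (n2 := ndN4q1) (pc := pcN3) (cut := Cut.none) (xt := Ext.none) (P1 := 1610612736) (W1 := 536870912) (P2 := 536870912) (W2 := 536870912) (P3 := 67108864) (W3 := 67108864) (N0 := 3)
    rfl rfl rfl k0_pp_313

noncomputable def f_pm_001 : ℕ → ℕ → ℕ → ℕ → Bool := onCell 0 536870912 0 536870912 67108864 67108864
    (rowNK 3 0 true true false .up 0 0 1 (qsf 0 536870912 0 536870912 1) ndN2q0 ndN4q0 pcN1 Cut.none Ext.none)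

def k0_pm_001 : ∃ t, chk3 f_pm_001 t 1 1 1 = true :=
  ⟨(l 3), by decide +kernel⟩

theorem c_pm_001 : CertN 0 536870912 0 536870912 67108864 67108864 3 true true false .up 0 0 1
    ndN2q0 ndN4q0 pcN1 Cut.none Ext.none :=
  certNK0 (fam := true) (s1 := true) (s2 := false) (a := 0) (b := 0) (c := 1) (cn := .up) (n1 := ndN2q0) (n2 := ndN4q0) (pc := pcN1) (cut := Cut.none) (xt := Ext.none) (P1 := 0) (W1 := 536870912) (P2 := 0) (W2 := 536870912) (P3 := 67108864) (W3 := 67108864) (N0 := 3)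
    rfl rfl rfl k0_pm_001

noncomputable def cut_pm_011 : Cut := Cut.of [[⟨0, 0, 0, 67108864⟩, ⟨1, 1, 0, 67108864⟩, ⟨2, 1, 0, 67108864⟩]]

noncomputable def f_pm_011 : ℕ → ℕ → ℕ → ℕ → Bool := onCell 0 536870912 536870912 536870912 67108864 67108864
    (rowNK 3 1 true true false .pnn 0 1 1 (qsf 0 536870912 536870912 536870912 1) ndN2q0 ndN4q1 pcN1 cut_pm_011 Ext.none)

def k0_pm_011 : ∃ t, chk3 f_pm_011 t 1 1 1 = true :=
  ⟨(b (l 3) (a (b (l 3) (a (b (l 3) (a (b (l 3) (a (b (l 3) (l 6)) (l 3))) (l 3))) (l 3))) (l 3))), by decide +kernel⟩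

theorem c_pm_011 : CertN 0 536870912 536870912 536870912 67108864 67108864 3 true true false .pnn 0 1 1
    ndN2q0 ndN4q1 pcN1 cut_pm_011 Ext.none :=
  certNK1 (fam := true) (s1 := true) (s2 := false) (a := 0) (b := 1) (c := 1) (cn := .pnn) (n1 := ndN2q0) (n2 := ndN4q1) (pc := pcN1) (cut := cut_pm_011) (xt := Ext.none) (P1 := 0) (W1 := 536870912) (P2 := 536870912) (W2 := 536870912) (P3 := 67108864) (W3 := 67108864) (N0 := 3)
    rfl rfl rfl (fun _ => rfl) k0_pm_011

noncomputable def cut_pm_012 : Cut := Cut.of [[⟨0, 0, 0, 67108864⟩, ⟨1, 1, 0, 67108864⟩, ⟨2, 1, 0, 67108864⟩]]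

noncomputable def f_pm_012 : ℕ → ℕ → ℕ → ℕ → Bool := onCell 1073741824 536870912 536870912 536870912 67108864 67108864
    (rowNK 3 2 true true false .pnp 0 1 2 (qsf 0 536870912 536870912 536870912 2) ndN2q0 ndN4q1 pcN2 cut_pm_012 Ext.none)

def k0_pm_012 : ∃ t, chk3 f_pm_012 t 1 1 1 = true :=
  ⟨(a (b (a (a (l 3) (l 19299616)) (a (b (l 19191112) (l 19304024)) (l 19112808))) (a (b (a (l 3) (l 18971488)) (b (a (l 3) (a (l 18404536) (l 18834176))) (b (a (a (l 3) (l 17326976)) (a (l 17927488) (l 18632024))) (a (a (b (l 3) (l 6)) (b (l 17154728) (a (l 16993728) (l 17083672)))) (a (l 17300056) (l 18325928)))))) (b (a (b (l 19261576) (l 19473648)) (l 19238888)) (a (a (a (l 18987512) (b (l 19131488) (l 19081512))) (l 19231672)) (l 19312728))))) (b (a (l 18768720) (l 2)) (b (l 18814560) (a (l 19130720) (l 18663728))))), by decide +kernel⟩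

theorem c_pm_012 : CertN 0 536870912 536870912 536870912 67108864 67108864 3 true true false .pnp 0 1 2
    ndN2q0 ndN4q1 pcN2 cut_pm_012 Ext.none :=
  certNK2 (fam := true) (s1 := true) (s2 := false) (a := 0) (b := 1) (c := 2) (cn := .pnp) (n1 := ndN2q0) (n2 := ndN4q1) (pc := pcN2) (cut := cut_pm_012) (xt := Ext.none) (P1 := 0) (W1 := 536870912) (P2 := 536870912) (W2 := 536870912) (P3 := 67108864) (W3 := 67108864) (N0 := 3)
    rfl rfl rfl (fun _ => rfl) k0_pm_012

noncomputable def cut_pm_022 : Cut := Cut.of [[⟨0, 0, 0, 67108864⟩, ⟨1, 1, 0, 67108864⟩, ⟨2, 1, 0, 67108864⟩]]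

noncomputable def f_pm_022 : ℕ → ℕ → ℕ → ℕ → Bool := onCell 0 536870912 1073741824 536870912 67108864 67108864
    (rowNK 3 1 true true false .pp 0 2 2 (qsf 0 536870912 1073741824 536870912 2) ndN2q0 ndN4q2 pcN2 cut_pm_022 Ext.none)

def k0_pm_022 : ∃ t, chk3 f_pm_022 t 1 1 1 = true :=
  ⟨(b (b (a (a (b (b (a (a (l 6) (a (l 6) (l 1))) (l 1)) (a (b (a (l 6) (a (l 6) (l 17060736))) (a (a (b (l 6) (a (b (l 6) (l 16698912)) (l 16716608))) (l 16807616)) (a (l 16917984) (l 17030032)))) (a (a (l 67680272951) (l 1)) (l 1)))) (b (a (a (b (a (a (b (b (l 16668432) (l 16679880)) (l 16665784)) (l 16711728)) (l 16774856)) (a (b (b (l 16701384) (l 16692096)) (l 16688800)) (l 16743200))) (l 17105344)) (a (l 17306296) (l 17444048))) (a (a (a (a (b (l 16744336) (c (l 17950896) (l 16818248))) (l 17104320)) (l 17106944)) (l 17182376)) (a (l 17509016) (l 18005672))))) (a (b (l 1) (b (l 1) (b (l 1) (l 18868792)))) (l 1))) (l 1)) (a (b (a (a (a (b (b (a (c (l 18247064) (l 17091792))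 (l 17728872)) (b (a (l 17961616) (l 17950752)) (l 17928696))) (a (l 18337152) (l 18329688))) (b (b (l 17784096) (l 18059280)) (l 18358336))) (b (b (l 18181104) (b (l 18331896) (b (l 18396160) (l 18436488)))) (l 18580776))) (a (b (b (l 18976224) (b (l 19037608) (a (l 18914768) (l 19223288)))) (l 19103288)) (b (l 1) (l 19546888)))) (a (a (a (l 18726480) (l 18714624)) (l 18801128)) (l 19260112))) (b (l 1) (l 19477928)))) (a (a (b (a (b (l 18939200) (l 18995384)) (l 18913464)) (a (l 18948648) (l 18786544))) (b (l 19060800) (l 18641928))) (a (l 303907206135) (l 18851568)))), by decide +kernel⟩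

theorem c_pm_022 : CertN 0 536870912 1073741824 536870912 67108864 67108864 3 true true false .pp 0 2 2
    ndN2q0 ndN4q2 pcN2 cut_pm_022 Ext.none :=
  certNK1 (fam := true) (s1 := true) (s2 := false) (a := 0) (b := 2) (c := 2) (cn := .pp) (n1 := ndN2q0) (n2 := ndN4q2) (pc := pcN2) (cut := cut_pm_022) (xt := Ext.none) (P1 := 0) (W1 := 536870912) (P2 := 1073741824) (W2 := 536870912) (P3 := 67108864) (W3 := 67108864) (N0 := 3)
    rfl rfl rfl (fun _ => rfl) k0_pm_022

noncomputable def f_pm_023 : ℕ → ℕ → ℕ → ℕ → Bool := onCell 1610612736 536870912 1073741824 536870912 67108864 67108864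
    (rowNK 3 2 true true false .up 0 2 3 (qsf 0 536870912 1073741824 536870912 3) ndN2q0 ndN4q2 pcN3 Cut.none Ext.none)

def k0_pm_023 : ∃ t, chk3 f_pm_023 t 1 1 1 = true :=
  ⟨(a (b (a (l 18185072) (l 17761800)) (b (a (l 18177304) (l 17580936)) (a (a (l 18722304) (l 18260720)) (l 17664576)))) (a (a (b (l 17541624) (l 17549416)) (b (l 2) (l 17563240))) (b (l 2) (a (l 17360456) (b (l 2) (l 17197640)))))), by decide +kernel⟩

theorem c_pm_023 : CertN 0 536870912 1073741824 536870912 67108864 67108864 3 true true false .up 0 2 3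
    ndN2q0 ndN4q2 pcN3 Cut.none Ext.none :=
  certNK2 (fam := true) (s1 := true) (s2 := false) (a := 0) (b := 2) (c := 3) (cn := .up) (n1 := ndN2q0) (n2 := ndN4q2) (pc := pcN3) (cut := Cut.none) (xt := Ext.none) (P1 := 0) (W1 := 536870912) (P2 := 1073741824) (W2 := 536870912) (P3 := 67108864) (W3 := 67108864) (N0 := 3)
    rfl rfl rfl (fun _ => rfl) k0_pm_023

noncomputable def f_pm_033 : ℕ → ℕ → ℕ → ℕ → Bool := onCell 1610612736 536870912 0 1230186008 67108864 67108864
    (rowNK 3 2 true true false .pnn 0 3 3 (qsf 0 536870912 0 1230186008 3) ndN2q0 ndN4q3 pcN3 Cut.none Ext.none)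

def k0_pm_033 : ∃ t, chk3 f_pm_033 t 1 1 1 = true :=
  ⟨(a (b (l 1) (b (b (l 1) (a (l 1) (a (l 1) (a (l 1) (l 1115655794295))))) (b (a (l 1) (a (l 1092033392151) (a (l 18482880) (l 18330416)))) (a (a (b (l 1) (l 19152992)) (l 645893729767)) (b (l 18216184) (l 17952888)))))) (a (b (l 1) (b (b (a (l 1) (l 18277464)) (a (a (l 18692336) (l 18520176)) (l 17779736))) (b (a (l 18041712) (l 17517128)) (a (l 17520296) (l 17082504))))) (b (b (a (l 1) (l 4)) (a (l 18198632) (l 4))) (b (a (l 17622024) (a (l 17203536) (l 4))) (a (b (l 16915760) (l 16964288)) (a (l 17144600) (b (l 4) (l 17314152)))))))), by decide +kernel⟩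

theorem c_pm_033 : CertN 0 536870912 0 1230186008 67108864 67108864 3 true true false .pnn 0 3 3
    ndN2q0 ndN4q3 pcN3 Cut.none Ext.none :=
  certNK2 (fam := true) (s1 := true) (s2 := false) (a := 0) (b := 3) (c := 3) (cn := .pnn) (n1 := ndN2q0) (n2 := ndN4q3) (pc := pcN3) (cut := Cut.none) (xt := Ext.none) (P1 := 0) (W1 := 536870912) (P2 := 0) (W2 := 1230186008) (P3 := 67108864) (W3 := 67108864) (N0 := 3)
    rfl rfl rfl (fun _ => rfl) k0_pm_033

noncomputable def f_pm_101 : ℕ → ℕ → ℕ → ℕ → Bool := onCell 536870912 536870912 536870912 536870912 67108864 67108864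
    (rowNK 3 1 true true false .npn 1 0 1 (qsf 536870912 536870912 0 536870912 1) ndN2q1 ndN4q0 pcN1 Cut.none Ext.none)

def k0_pm_101 : ∃ t, chk3 f_pm_101 t 1 1 1 = true :=
  ⟨(l 3), by decide +kernel⟩

theorem c_pm_101 : CertN 536870912 536870912 0 536870912 67108864 67108864 3 true true false .npn 1 0 1
    ndN2q1 ndN4q0 pcN1 Cut.none Ext.none :=
  certNK1 (fam := true) (s1 := true) (s2 := false) (a := 1) (b := 0) (c := 1) (cn := .npn) (n1 := ndN2q1) (n2 := ndN4q0) (pc := pcN1) (cut := Cut.none) (xt := Ext.none) (P1 := 536870912) (W1 := 536870912) (P2 := 0) (W2 := 536870912) (P3 := 67108864) (W3 := 67108864) (N0 := 3)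
    rfl rfl rfl (fun _ => rfl) k0_pm_101

noncomputable def f_pm_102 : ℕ → ℕ → ℕ → ℕ → Bool := onCell 536870912 536870912 1073741824 536870912 67108864 67108864
    (rowNK 3 1 true true false .npp 1 0 2 (qsf 536870912 536870912 0 536870912 2) ndN2q1 ndN4q0 pcN2 Cut.none Ext.none)

def k0_pm_102 : ∃ t, chk3 f_pm_102 t 1 1 1 = true :=
  ⟨(b (b (b (l 3) (a (a (l 17476816) (l 17657312)) (a (l 18656328) (a (l 19362528) (a (l 19488168) (l 19560632)))))) (a (a (b (l 17891456) (l 2)) (b (l 17841728) (l 18050488))) (a (b (a (l 18276304) (l 18863392)) (l 18524984)) (a (l 19339656) (a (l 19267712) (l 19324224)))))) (a (a (l 2) (b (l 18437392) (l 2))) (a (b (l 18492192) (l 18572992)) (a (l 18672728) (a (l 18746504) (l 18800304)))))), by decide +kernel⟩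

theorem c_pm_102 : CertN 536870912 536870912 0 536870912 67108864 67108864 3 true true false .npp 1 0 2
    ndN2q1 ndN4q0 pcN2 Cut.none Ext.none :=
  certNK1 (fam := true) (s1 := true) (s2 := false) (a := 1) (b := 0) (c := 2) (cn := .npp) (n1 := ndN2q1) (n2 := ndN4q0) (pc := pcN2) (cut := Cut.none) (xt := Ext.none) (P1 := 536870912) (W1 := 536870912) (P2 := 0) (W2 := 536870912) (P3 := 67108864) (W3 := 67108864) (N0 := 3)
    rfl rfl rfl (fun _ => rfl) k0_pm_102

noncomputable def f_pm_112 : ℕ → ℕ → ℕ → ℕ → Bool := onCell 536870912 536870912 1073741824 536870912 67108864 67108864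
    (rowNK 3 1 true true false .dn 1 1 2 (qsf 536870912 536870912 536870912 536870912 2) ndN2q1 ndN4q1 pcN2 Cut.none Ext.none)

def k0_pm_112 : ∃ t, chk3 f_pm_112 t 1 1 1 = true :=
  ⟨(a (b (b (a (l 184852328807) (l 17545672)) (b (a (l 17838384) (l 17820392)) (l 18070760))) (a (l 19272312) (l 18561168))) (b (a (b (l 1) (a (l 18470496) (l 1))) (l 1)) (a (l 18414424) (a (l 18662688) (a (l 18766000) (l 18818368)))))), by decide +kernel⟩

theorem c_pm_112 : CertN 536870912 536870912 536870912 536870912 67108864 67108864 3 true true false .dn 1 1 2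
    ndN2q1 ndN4q1 pcN2 Cut.none Ext.none :=
  certNK1 (fam := true) (s1 := true) (s2 := false) (a := 1) (b := 1) (c := 2) (cn := .dn) (n1 := ndN2q1) (n2 := ndN4q1) (pc := pcN2) (cut := Cut.none) (xt := Ext.none) (P1 := 536870912) (W1 := 536870912) (P2 := 536870912) (W2 := 536870912) (P3 := 67108864) (W3 := 67108864) (N0 := 3)
    rfl rfl rfl (fun _ => rfl) k0_pm_112

noncomputable def f_pm_113 : ℕ → ℕ → ℕ → ℕ → Bool := onCell 536870912 536870912 536870912 536870912 67108864 67108864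
    (rowNK 3 0 true true false .nn 1 1 3 (qsf 536870912 536870912 536870912 536870912 3) ndN2q1 ndN4q1 pcN3 Cut.none Ext.none)

def k0_pm_113 : ∃ t, chk3 f_pm_113 t 1 1 1 = true :=
  ⟨(a (b (a (l 1) (l 17757208)) (a (l 411282178103) (l 19004376))) (b (a (l 395710566727) (a (l 18529976) (a (l 18424656) (l 18322560)))) (a (l 18173432) (a (l 17534880) (a (l 17398544) (b (l 17459696) (b (l 17242248) (b (l 17072936) (l 16918808))))))))), by decide +kernel⟩

theorem c_pm_113 : CertN 536870912 536870912 536870912 536870912 67108864 67108864 3 true true false .nn 1 1 3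
    ndN2q1 ndN4q1 pcN3 Cut.none Ext.none :=
  certNK0 (fam := true) (s1 := true) (s2 := false) (a := 1) (b := 1) (c := 3) (cn := .nn) (n1 := ndN2q1) (n2 := ndN4q1) (pc := pcN3) (cut := Cut.none) (xt := Ext.none) (P1 := 536870912) (W1 := 536870912) (P2 := 536870912) (W2 := 536870912) (P3 := 67108864) (W3 := 67108864) (N0 := 3)
    rfl rfl rfl k0_pm_113

noncomputable def f_pm_123 : ℕ → ℕ → ℕ → ℕ → Bool := onCell 536870912 536870912 1610612736 536870912 67108864 67108864
    (rowNK 3 1 true true false .npn 1 2 3 (qsf 536870912 536870912 1073741824 536870912 3) ndN2q1 ndN4q2 pcN3 Cut.none Ext.none)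

def k0_pm_123 : ∃ t, chk3 f_pm_123 t 1 1 1 = true :=
  ⟨(a (b (a (l 20258192) (l 19764880)) (b (a (l 19634584) (l 19109128)) (b (l 19114000) (a (l 19112432) (l 18540840))))) (b (a (a (l 19049160) (l 1)) (l 1)) (a (b (l 18148856) (b (l 17699504) (b (l 17506224) (l 17408456)))) (b (a (l 17619240) (l 1)) (a (b (l 17151648) (b (l 16941552) (l 16891576))) (b (a (l 17228968) (l 1)) (a (b (l 16951768) (l 16844304)) (b (l 17047768) (l 16836800))))))))), by decide +kernel⟩

theorem c_pm_123 : CertN 536870912 536870912 1073741824 536870912 67108864 67108864 3 true true false .npn 1 2 3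
    ndN2q1 ndN4q2 pcN3 Cut.none Ext.none :=
  certNK1 (fam := true) (s1 := true) (s2 := false) (a := 1) (b := 2) (c := 3) (cn := .npn) (n1 := ndN2q1) (n2 := ndN4q2) (pc := pcN3) (cut := Cut.none) (xt := Ext.none) (P1 := 536870912) (W1 := 536870912) (P2 := 1073741824) (W2 := 536870912) (P3 := 67108864) (W3 := 67108864) (N0 := 3)
    rfl rfl rfl (fun _ => rfl) k0_pm_123

noncomputable def f_pm_133 : ℕ → ℕ → ℕ → ℕ → Bool := onCell 536870912 536870912 0 1230186008 67108864 67108864
    (rowNK 3 0 true true false .dn 1 3 3 (qsf 536870912 536870912 0 1230186008 3) ndN2q1 ndN4q3 pcN3 Cut.none Ext.none)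

def k0_pm_133 : ∃ t, chk3 f_pm_133 t 1 1 1 = true :=
  ⟨(b (l 2) (b (l 2) (a (b (l 2) (l 4)) (l 2)))), by decide +kernel⟩

theorem c_pm_133 : CertN 536870912 536870912 0 1230186008 67108864 67108864 3 true true false .dn 1 3 3
    ndN2q1 ndN4q3 pcN3 Cut.none Ext.none :=
  certNK0 (fam := true) (s1 := true) (s2 := false) (a := 1) (b := 3) (c := 3) (cn := .dn) (n1 := ndN2q1) (n2 := ndN4q3) (pc := pcN3) (cut := Cut.none) (xt := Ext.none) (P1 := 536870912) (W1 := 536870912) (P2 := 0) (W2 := 1230186008) (P3 := 67108864) (W3 := 67108864) (N0 := 3)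
    rfl rfl rfl k0_pm_133

noncomputable def f_pm_202_a : ℕ → ℕ → ℕ → ℕ → Bool := onCell 0 536870912 1073741824 536870912 67108864 67108864
    (rowNK 3 1 true true false .pp 2 0 2 (qsf 0 536870912 0 536870912 2) ndN2q2a ndN4q0 pcN2 Cut.none Ext.none)

def k0_pm_202_a : ∃ t, chk3 f_pm_202_a t 1 1 1 = true :=
  ⟨(a (b (b (l 19376600) (l 18996624)) (b (l 18680392) (l 18352160))) (b (a (b (l 19398800) (l 19048120)) (a (b (l 19433776) (l 19049424)) (l 19428056))) (a (b (l 18707280) (l 18426680)) (a (b (l 18745816) (l 18502168)) (b (l 18802936) (l 18579496)))))), by decide +kernel⟩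

theorem c_pm_202_a : CertN 0 536870912 0 536870912 67108864 67108864 3 true true false .pp 2 0 2
    ndN2q2a ndN4q0 pcN2 Cut.none Ext.none :=
  certNK1 (fam := true) (s1 := true) (s2 := false) (a := 2) (b := 0) (c := 2) (cn := .pp) (n1 := ndN2q2a) (n2 := ndN4q0) (pc := pcN2) (cut := Cut.none) (xt := Ext.none) (P1 := 0) (W1 := 536870912) (P2 := 0) (W2 := 536870912) (P3 := 67108864) (W3 := 67108864) (N0 := 3)
    rfl rfl rfl (fun _ => rfl) k0_pm_202_a

noncomputable def f_pm_202_b : ℕ → ℕ → ℕ → ℕ → Bool := onCell 1239849684 370763052 1073741824 536870912 67108864 67108864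
    (rowNK 3 1 true true false .pp 2 0 2 (qsf 1239849684 370763052 0 536870912 2) ndN2q2b ndN4q0 pcN2 Cut.none Ext.none)

def k0_pm_202_b : ∃ t, chk3 f_pm_202_b t 1 1 1 = true :=
  ⟨(b (a (b (l 1) (l 18725952)) (l 1)) (b (a (l 18419632) (l 17966312)) (a (l 18126016) (l 4)))), by decide +kernel⟩

theorem c_pm_202_b : CertN 1239849684 370763052 0 536870912 67108864 67108864 3 true true false .pp 2 0 2
    ndN2q2b ndN4q0 pcN2 Cut.none Ext.none :=
  certNK1 (fam := true) (s1 := true) (s2 := false) (a := 2) (b := 0) (c := 2) (cn := .pp) (n1 := ndN2q2b) (n2 := ndN4q0) (pc := pcN2) (cut := Cut.none) (xt := Ext.none) (P1 := 1239849684) (W1 := 370763052) (P2 := 0) (W2 := 536870912) (P3 := 67108864) (W3 := 67108864) (N0 := 3)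
    rfl rfl rfl (fun _ => rfl) k0_pm_202_b

noncomputable def f_pm_203_a : ℕ → ℕ → ℕ → ℕ → Bool := onCell 0 536870912 1610612736 536870912 67108864 67108864
    (rowNK 3 1 true true false .up 2 0 3 (qsf 0 536870912 0 536870912 3) ndN2q2a ndN4q0 pcN3 Cut.none Ext.none)

def k0_pm_203_a : ∃ t, chk3 f_pm_203_a t 1 1 1 = true :=
  ⟨(b (l 4) (l 2)), by decide +kernel⟩

theorem c_pm_203_a : CertN 0 536870912 0 536870912 67108864 67108864 3 true true false .up 2 0 3
    ndN2q2a ndN4q0 pcN3 Cut.none Ext.none :=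
  certNK1 (fam := true) (s1 := true) (s2 := false) (a := 2) (b := 0) (c := 3) (cn := .up) (n1 := ndN2q2a) (n2 := ndN4q0) (pc := pcN3) (cut := Cut.none) (xt := Ext.none) (P1 := 0) (W1 := 536870912) (P2 := 0) (W2 := 536870912) (P3 := 67108864) (W3 := 67108864) (N0 := 3)
    rfl rfl rfl (fun _ => rfl) k0_pm_203_a

noncomputable def f_pm_203_b : ℕ → ℕ → ℕ → ℕ → Bool := onCell 1239849684 370763052 1610612736 536870912 67108864 67108864
    (rowNK 3 1 true true false .up 2 0 3 (qsf 1239849684 370763052 0 536870912 3) ndN2q2b ndN4q0 pcN3 Cut.none Ext.none)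

def k0_pm_203_b : ∃ t, chk3 f_pm_203_b t 1 1 1 = true :=
  ⟨(b (l 4) (l 4)), by decide +kernel⟩

theorem c_pm_203_b : CertN 1239849684 370763052 0 536870912 67108864 67108864 3 true true false .up 2 0 3
    ndN2q2b ndN4q0 pcN3 Cut.none Ext.none :=
  certNK1 (fam := true) (s1 := true) (s2 := false) (a := 2) (b := 0) (c := 3) (cn := .up) (n1 := ndN2q2b) (n2 := ndN4q0) (pc := pcN3) (cut := Cut.none) (xt := Ext.none) (P1 := 1239849684) (W1 := 370763052) (P2 := 0) (W2 := 536870912) (P3 := 67108864) (W3 := 67108864) (N0 := 3)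
    rfl rfl rfl (fun _ => rfl) k0_pm_203_b

noncomputable def f_pm_213_a : ℕ → ℕ → ℕ → ℕ → Bool := onCell 0 536870912 1610612736 536870912 67108864 67108864
    (rowNK 3 1 true true false .pnn 2 1 3 (qsf 0 536870912 536870912 536870912 3) ndN2q2a ndN4q1 pcN3 Cut.none Ext.none)

def k0_pm_213_a : ∃ t, chk3 f_pm_213_a t 1 1 1 = true :=
  ⟨(b (l 4) (l 4)), by decide +kernel⟩

theorem c_pm_213_a : CertN 0 536870912 536870912 536870912 67108864 67108864 3 true true false .pnn 2 1 3
    ndN2q2a ndN4q1 pcN3 Cut.none Ext.none :=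
  certNK1 (fam := true) (s1 := true) (s2 := false) (a := 2) (b := 1) (c := 3) (cn := .pnn) (n1 := ndN2q2a) (n2 := ndN4q1) (pc := pcN3) (cut := Cut.none) (xt := Ext.none) (P1 := 0) (W1 := 536870912) (P2 := 536870912) (W2 := 536870912) (P3 := 67108864) (W3 := 67108864) (N0 := 3)
    rfl rfl rfl (fun _ => rfl) k0_pm_213_a

noncomputable def f_pm_213_b : ℕ → ℕ → ℕ → ℕ → Bool := onCell 1239849684 370763052 536870912 536870912 67108864 67108864
    (rowNK 3 0 true true false .pnn 2 1 3 (qsf 1239849684 370763052 536870912 536870912 3) ndN2q2b ndN4q1 pcN3 Cut.none Ext.none)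

def k0_pm_213_b : ∃ t, chk3 f_pm_213_b t 1 1 1 = true :=
  ⟨(l 4), by decide +kernel⟩

theorem c_pm_213_b : CertN 1239849684 370763052 536870912 536870912 67108864 67108864 3 true true false .pnn 2 1 3
    ndN2q2b ndN4q1 pcN3 Cut.none Ext.none :=
  certNK0 (fam := true) (s1 := true) (s2 := false) (a := 2) (b := 1) (c := 3) (cn := .pnn) (n1 := ndN2q2b) (n2 := ndN4q1) (pc := pcN3) (cut := Cut.none) (xt := Ext.none) (P1 := 1239849684) (W1 := 370763052) (P2 := 536870912) (W2 := 536870912) (P3 := 67108864) (W3 := 67108864) (N0 := 3)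
    rfl rfl rfl k0_pm_213_b

noncomputable def f_pm_303 : ℕ → ℕ → ℕ → ℕ → Bool := onCell 1610612736 536870912 0 536870912 67108864 67108864
    (rowNK 3 0 true true false .npn 3 0 3 (qsf 1610612736 536870912 0 536870912 3) ndN2q3 ndN4q0 pcN3 Cut.none Ext.none)

def k0_pm_303 : ∃ t, chk3 f_pm_303 t 1 1 1 = true :=
  ⟨(l 4), by decide +kernel⟩

theorem c_pm_303 : CertN 1610612736 536870912 0 536870912 67108864 67108864 3 true true false .npn 3 0 3
    ndN2q3 ndN4q0 pcN3 Cut.none Ext.none :=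
  certNK0 (fam := true) (s1 := true) (s2 := false) (a := 3) (b := 0) (c := 3) (cn := .npn) (n1 := ndN2q3) (n2 := ndN4q0) (pc := pcN3) (cut := Cut.none) (xt := Ext.none) (P1 := 1610612736) (W1 := 536870912) (P2 := 0) (W2 := 536870912) (P3 := 67108864) (W3 := 67108864) (N0 := 3)
    rfl rfl rfl k0_pm_303

noncomputable def f_pm_313 : ℕ → ℕ → ℕ → ℕ → Bool := onCell 1610612736 536870912 536870912 536870912 67108864 67108864
    (rowNK 3 0 true true false .dn 3 1 3 (qsf 1610612736 536870912 536870912 536870912 3) ndN2q3 ndN4q1 pcN3 Cut.none Ext.none)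

def k0_pm_313 : ∃ t, chk3 f_pm_313 t 1 1 1 = true :=
  ⟨(l 4), by decide +kernel⟩

theorem c_pm_313 : CertN 1610612736 536870912 536870912 536870912 67108864 67108864 3 true true false .dn 3 1 3
    ndN2q3 ndN4q1 pcN3 Cut.none Ext.none :=
  certNK0 (fam := true) (s1 := true) (s2 := false) (a := 3) (b := 1) (c := 3) (cn := .dn) (n1 := ndN2q3) (n2 := ndN4q1) (pc := pcN3) (cut := Cut.none) (xt := Ext.none) (P1 := 1610612736) (W1 := 536870912) (P2 := 536870912) (W2 := 536870912) (P3 := 67108864) (W3 := 67108864) (N0 := 3)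
    rfl rfl rfl k0_pm_313

noncomputable def f_mm_001 : ℕ → ℕ → ℕ → ℕ → Bool := onCell 0 536870912 0 536870912 67108864 67108864
    (rowNK 3 0 true false false .up 0 0 1 (qsf 0 536870912 0 536870912 1) ndN2q0 ndN4q0 pcN1 Cut.none Ext.none)

def k0_mm_001 : ∃ t, chk3 f_mm_001 t 1 1 1 = true :=
  ⟨(l 4), by decide +kernel⟩

theorem c_mm_001 : CertN 0 536870912 0 536870912 67108864 67108864 3 true false false .up 0 0 1
    ndN2q0 ndN4q0 pcN1 Cut.none Ext.none :=
  certNK0 (fam := true) (s1 := false) (s2 := false) (a := 0) (b := 0) (c := 1) (cn := .up) (n1 := ndN2q0) (n2 := ndN4q0) (pc := pcN1) (cut := Cut.none) (xt := Ext.none) (P1 := 0) (W1 := 536870912) (P2 := 0) (W2 := 536870912) (P3 := 67108864) (W3 := 67108864) (N0 := 3)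
    rfl rfl rfl k0_mm_001

noncomputable def f_mm_011 : ℕ → ℕ → ℕ → ℕ → Bool := onCell 0 536870912 536870912 536870912 67108864 67108864
    (rowNK 3 0 true false false .pnn 0 1 1 (qsf 0 536870912 536870912 536870912 1) ndN2q0 ndN4q1 pcN1 Cut.none Ext.none)

def k0_mm_011 : ∃ t, chk3 f_mm_011 t 1 1 1 = true :=
  ⟨(l 4), by decide +kernel⟩

theorem c_mm_011 : CertN 0 536870912 536870912 536870912 67108864 67108864 3 true false false .pnn 0 1 1
    ndN2q0 ndN4q1 pcN1 Cut.none Ext.none :=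
  certNK0 (fam := true) (s1 := false) (s2 := false) (a := 0) (b := 1) (c := 1) (cn := .pnn) (n1 := ndN2q0) (n2 := ndN4q1) (pc := pcN1) (cut := Cut.none) (xt := Ext.none) (P1 := 0) (W1 := 536870912) (P2 := 536870912) (W2 := 536870912) (P3 := 67108864) (W3 := 67108864) (N0 := 3)
    rfl rfl rfl k0_mm_011

noncomputable def f_mm_012 : ℕ → ℕ → ℕ → ℕ → Bool := onCell 0 536870912 536870912 536870912 67108864 67108864
    (rowNK 3 0 true false false .pnp 0 1 2 (qsf 0 536870912 536870912 536870912 2) ndN2q0 ndN4q1 pcN2 Cut.none Ext.none)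

def k0_mm_012 : ∃ t, chk3 f_mm_012 t 1 1 1 = true :=
  ⟨(l 4), by decide +kernel⟩

theorem c_mm_012 : CertN 0 536870912 536870912 536870912 67108864 67108864 3 true false false .pnp 0 1 2
    ndN2q0 ndN4q1 pcN2 Cut.none Ext.none :=
  certNK0 (fam := true) (s1 := false) (s2 := false) (a := 0) (b := 1) (c := 2) (cn := .pnp) (n1 := ndN2q0) (n2 := ndN4q1) (pc := pcN2) (cut := Cut.none) (xt := Ext.none) (P1 := 0) (W1 := 536870912) (P2 := 536870912) (W2 := 536870912) (P3 := 67108864) (W3 := 67108864) (N0 := 3)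
    rfl rfl rfl k0_mm_012

noncomputable def f_mm_022 : ℕ → ℕ → ℕ → ℕ → Bool := onCell 0 536870912 1073741824 536870912 67108864 67108864
    (rowNK 3 0 true false false .pp 0 2 2 (qsf 0 536870912 1073741824 536870912 2) ndN2q0 ndN4q2 pcN2 Cut.none Ext.none)

def k0_mm_022 : ∃ t, chk3 f_mm_022 t 1 1 1 = true :=
  ⟨(l 4), by decide +kernel⟩

theorem c_mm_022 : CertN 0 536870912 1073741824 536870912 67108864 67108864 3 true false false .pp 0 2 2
    ndN2q0 ndN4q2 pcN2 Cut.none Ext.none :=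
  certNK0 (fam := true) (s1 := false) (s2 := false) (a := 0) (b := 2) (c := 2) (cn := .pp) (n1 := ndN2q0) (n2 := ndN4q2) (pc := pcN2) (cut := Cut.none) (xt := Ext.none) (P1 := 0) (W1 := 536870912) (P2 := 1073741824) (W2 := 536870912) (P3 := 67108864) (W3 := 67108864) (N0 := 3)
    rfl rfl rfl k0_mm_022

noncomputable def f_mm_023 : ℕ → ℕ → ℕ → ℕ → Bool := onCell 0 536870912 1073741824 536870912 67108864 67108864
    (rowNK 3 0 true false false .up 0 2 3 (qsf 0 536870912 1073741824 536870912 3) ndN2q0 ndN4q2 pcN3 Cut.none Ext.none)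

def k0_mm_023 : ∃ t, chk3 f_mm_023 t 1 1 1 = true :=
  ⟨(l 4), by decide +kernel⟩

theorem c_mm_023 : CertN 0 536870912 1073741824 536870912 67108864 67108864 3 true false false .up 0 2 3
    ndN2q0 ndN4q2 pcN3 Cut.none Ext.none :=
  certNK0 (fam := true) (s1 := false) (s2 := false) (a := 0) (b := 2) (c := 3) (cn := .up) (n1 := ndN2q0) (n2 := ndN4q2) (pc := pcN3) (cut := Cut.none) (xt := Ext.none) (P1 := 0) (W1 := 536870912) (P2 := 1073741824) (W2 := 536870912) (P3 := 67108864) (W3 := 67108864) (N0 := 3)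
    rfl rfl rfl k0_mm_023

noncomputable def f_mm_033 : ℕ → ℕ → ℕ → ℕ → Bool := onCell 0 536870912 0 1230186008 67108864 67108864
    (rowNK 3 0 true false false .pnn 0 3 3 (qsf 0 536870912 0 1230186008 3) ndN2q0 ndN4q3 pcN3 Cut.none Ext.none)

def k0_mm_033 : ∃ t, chk3 f_mm_033 t 1 1 1 = true :=
  ⟨(l 5), by decide +kernel⟩

theorem c_mm_033 : CertN 0 536870912 0 1230186008 67108864 67108864 3 true false false .pnn 0 3 3
    ndN2q0 ndN4q3 pcN3 Cut.none Ext.none :=
  certNK0 (fam := true) (s1 := false) (s2 := false) (a := 0) (b := 3) (c := 3) (cn := .pnn) (n1 := ndN2q0) (n2 := ndN4q3) (pc := pcN3) (cut := Cut.none) (xt := Ext.none) (P1 := 0) (W1 := 536870912) (P2 := 0) (W2 := 1230186008) (P3 := 67108864) (W3 := 67108864) (N0 := 3)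
    rfl rfl rfl k0_mm_033

noncomputable def f_mm_101 : ℕ → ℕ → ℕ → ℕ → Bool := onCell 536870912 536870912 0 536870912 67108864 67108864
    (rowNK 3 0 true false false .npn 1 0 1 (qsf 536870912 536870912 0 536870912 1) ndN2q1 ndN4q0 pcN1 Cut.none Ext.none)

def k0_mm_101 : ∃ t, chk3 f_mm_101 t 1 1 1 = true :=
  ⟨(l 4), by decide +kernel⟩

theorem c_mm_101 : CertN 536870912 536870912 0 536870912 67108864 67108864 3 true false false .npn 1 0 1
    ndN2q1 ndN4q0 pcN1 Cut.none Ext.none :=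
  certNK0 (fam := true) (s1 := false) (s2 := false) (a := 1) (b := 0) (c := 1) (cn := .npn) (n1 := ndN2q1) (n2 := ndN4q0) (pc := pcN1) (cut := Cut.none) (xt := Ext.none) (P1 := 536870912) (W1 := 536870912) (P2 := 0) (W2 := 536870912) (P3 := 67108864) (W3 := 67108864) (N0 := 3)
    rfl rfl rfl k0_mm_101

noncomputable def f_mm_102 : ℕ → ℕ → ℕ → ℕ → Bool := onCell 536870912 536870912 0 536870912 67108864 67108864
    (rowNK 3 0 true false false .npp 1 0 2 (qsf 536870912 536870912 0 536870912 2) ndN2q1 ndN4q0 pcN2 Cut.none Ext.none)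

def k0_mm_102 : ∃ t, chk3 f_mm_102 t 1 1 1 = true :=
  ⟨(l 4), by decide +kernel⟩

theorem c_mm_102 : CertN 536870912 536870912 0 536870912 67108864 67108864 3 true false false .npp 1 0 2
    ndN2q1 ndN4q0 pcN2 Cut.none Ext.none :=
  certNK0 (fam := true) (s1 := false) (s2 := false) (a := 1) (b := 0) (c := 2) (cn := .npp) (n1 := ndN2q1) (n2 := ndN4q0) (pc := pcN2) (cut := Cut.none) (xt := Ext.none) (P1 := 536870912) (W1 := 536870912) (P2 := 0) (W2 := 536870912) (P3 := 67108864) (W3 := 67108864) (N0 := 3)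
    rfl rfl rfl k0_mm_102

noncomputable def f_mm_112 : ℕ → ℕ → ℕ → ℕ → Bool := onCell 536870912 536870912 536870912 536870912 67108864 67108864
    (rowNK 3 0 true false false .dn 1 1 2 (qsf 536870912 536870912 536870912 536870912 2) ndN2q1 ndN4q1 pcN2 Cut.none Ext.none)

def k0_mm_112 : ∃ t, chk3 f_mm_112 t 1 1 1 = true :=
  ⟨(l 4), by decide +kernel⟩

theorem c_mm_112 : CertN 536870912 536870912 536870912 536870912 67108864 67108864 3 true false false .dn 1 1 2
    ndN2q1 ndN4q1 pcN2 Cut.none Ext.none :=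
  certNK0 (fam := true) (s1 := false) (s2 := false) (a := 1) (b := 1) (c := 2) (cn := .dn) (n1 := ndN2q1) (n2 := ndN4q1) (pc := pcN2) (cut := Cut.none) (xt := Ext.none) (P1 := 536870912) (W1 := 536870912) (P2 := 536870912) (W2 := 536870912) (P3 := 67108864) (W3 := 67108864) (N0 := 3)
    rfl rfl rfl k0_mm_112

noncomputable def f_mm_113 : ℕ → ℕ → ℕ → ℕ → Bool := onCell 536870912 536870912 536870912 536870912 67108864 67108864
    (rowNK 3 0 true false false .nn 1 1 3 (qsf 536870912 536870912 536870912 536870912 3) ndN2q1 ndN4q1 pcN3 Cut.none Ext.none)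

def k0_mm_113 : ∃ t, chk3 f_mm_113 t 1 1 1 = true :=
  ⟨(l 4), by decide +kernel⟩

theorem c_mm_113 : CertN 536870912 536870912 536870912 536870912 67108864 67108864 3 true false false .nn 1 1 3
    ndN2q1 ndN4q1 pcN3 Cut.none Ext.none :=
  certNK0 (fam := true) (s1 := false) (s2 := false) (a := 1) (b := 1) (c := 3) (cn := .nn) (n1 := ndN2q1) (n2 := ndN4q1) (pc := pcN3) (cut := Cut.none) (xt := Ext.none) (P1 := 536870912) (W1 := 536870912) (P2 := 536870912) (W2 := 536870912) (P3 := 67108864) (W3 := 67108864) (N0 := 3)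
    rfl rfl rfl k0_mm_113

noncomputable def f_mm_123 : ℕ → ℕ → ℕ → ℕ → Bool := onCell 536870912 536870912 1073741824 536870912 67108864 67108864
    (rowNK 3 0 true false false .npn 1 2 3 (qsf 536870912 536870912 1073741824 536870912 3) ndN2q1 ndN4q2 pcN3 Cut.none Ext.none)

def k0_mm_123 : ∃ t, chk3 f_mm_123 t 1 1 1 = true :=
  ⟨(l 4), by decide +kernel⟩

theorem c_mm_123 : CertN 536870912 536870912 1073741824 536870912 67108864 67108864 3 true false false .npn 1 2 3
    ndN2q1 ndN4q2 pcN3 Cut.none Ext.none :=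
  certNK0 (fam := true) (s1 := false) (s2 := false) (a := 1) (b := 2) (c := 3) (cn := .npn) (n1 := ndN2q1) (n2 := ndN4q2) (pc := pcN3) (cut := Cut.none) (xt := Ext.none) (P1 := 536870912) (W1 := 536870912) (P2 := 1073741824) (W2 := 536870912) (P3 := 67108864) (W3 := 67108864) (N0 := 3)
    rfl rfl rfl k0_mm_123

noncomputable def f_mm_133 : ℕ → ℕ → ℕ → ℕ → Bool := onCell 536870912 536870912 0 1230186008 67108864 67108864
    (rowNK 3 0 true false false .dn 1 3 3 (qsf 536870912 536870912 0 1230186008 3) ndN2q1 ndN4q3 pcN3 Cut.none Ext.none)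

def k0_mm_133 : ∃ t, chk3 f_mm_133 t 1 1 1 = true :=
  ⟨(l 4), by decide +kernel⟩

theorem c_mm_133 : CertN 536870912 536870912 0 1230186008 67108864 67108864 3 true false false .dn 1 3 3
    ndN2q1 ndN4q3 pcN3 Cut.none Ext.none :=
  certNK0 (fam := true) (s1 := false) (s2 := false) (a := 1) (b := 3) (c := 3) (cn := .dn) (n1 := ndN2q1) (n2 := ndN4q3) (pc := pcN3) (cut := Cut.none) (xt := Ext.none) (P1 := 536870912) (W1 := 536870912) (P2 := 0) (W2 := 1230186008) (P3 := 67108864) (W3 := 67108864) (N0 := 3)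
    rfl rfl rfl k0_mm_133

noncomputable def f_mm_202_a : ℕ → ℕ → ℕ → ℕ → Bool := onCell 0 536870912 0 536870912 67108864 67108864
    (rowNK 3 0 true false false .pp 2 0 2 (qsf 0 536870912 0 536870912 2) ndN2q2a ndN4q0 pcN2 Cut.none Ext.none)

def k0_mm_202_a : ∃ t, chk3 f_mm_202_a t 1 1 1 = true :=
  ⟨(l 4), by decide +kernel⟩

theorem c_mm_202_a : CertN 0 536870912 0 536870912 67108864 67108864 3 true false false .pp 2 0 2
    ndN2q2a ndN4q0 pcN2 Cut.none Ext.none :=
  certNK0 (fam := true) (s1 := false) (s2 := false) (a := 2) (b := 0) (c := 2) (cn := .pp) (n1 := ndN2q2a) (n2 := ndN4q0) (pc := pcN2) (cut := Cut.none) (xt := Ext.none) (P1 := 0) (W1 := 536870912) (P2 := 0) (W2 := 536870912) (P3 := 67108864) (W3 := 67108864) (N0 := 3)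
    rfl rfl rfl k0_mm_202_a

noncomputable def f_mm_202_b : ℕ → ℕ → ℕ → ℕ → Bool := onCell 1239849684 370763052 0 536870912 67108864 67108864
    (rowNK 3 0 true false false .pp 2 0 2 (qsf 1239849684 370763052 0 536870912 2) ndN2q2b ndN4q0 pcN2 Cut.none Ext.none)

def k0_mm_202_b : ∃ t, chk3 f_mm_202_b t 1 1 1 = true :=
  ⟨(l 4), by decide +kernel⟩

theorem c_mm_202_b : CertN 1239849684 370763052 0 536870912 67108864 67108864 3 true false false .pp 2 0 2
    ndN2q2b ndN4q0 pcN2 Cut.none Ext.none :=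
  certNK0 (fam := true) (s1 := false) (s2 := false) (a := 2) (b := 0) (c := 2) (cn := .pp) (n1 := ndN2q2b) (n2 := ndN4q0) (pc := pcN2) (cut := Cut.none) (xt := Ext.none) (P1 := 1239849684) (W1 := 370763052) (P2 := 0) (W2 := 536870912) (P3 := 67108864) (W3 := 67108864) (N0 := 3)
    rfl rfl rfl k0_mm_202_b

noncomputable def f_mm_203_a : ℕ → ℕ → ℕ → ℕ → Bool := onCell 0 536870912 0 536870912 67108864 67108864
    (rowNK 3 0 true false false .up 2 0 3 (qsf 0 536870912 0 536870912 3) ndN2q2a ndN4q0 pcN3 Cut.none Ext.none)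

def k0_mm_203_a : ∃ t, chk3 f_mm_203_a t 1 1 1 = true :=
  ⟨(l 4), by decide +kernel⟩

theorem c_mm_203_a : CertN 0 536870912 0 536870912 67108864 67108864 3 true false false .up 2 0 3
    ndN2q2a ndN4q0 pcN3 Cut.none Ext.none :=
  certNK0 (fam := true) (s1 := false) (s2 := false) (a := 2) (b := 0) (c := 3) (cn := .up) (n1 := ndN2q2a) (n2 := ndN4q0) (pc := pcN3) (cut := Cut.none) (xt := Ext.none) (P1 := 0) (W1 := 536870912) (P2 := 0) (W2 := 536870912) (P3 := 67108864) (W3 := 67108864) (N0 := 3)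
    rfl rfl rfl k0_mm_203_a

noncomputable def f_mm_203_b : ℕ → ℕ → ℕ → ℕ → Bool := onCell 1239849684 370763052 0 536870912 67108864 67108864
    (rowNK 3 0 true false false .up 2 0 3 (qsf 1239849684 370763052 0 536870912 3) ndN2q2b ndN4q0 pcN3 Cut.none Ext.none)

def k0_mm_203_b : ∃ t, chk3 f_mm_203_b t 1 1 1 = true :=
  ⟨(l 4), by decide +kernel⟩

theorem c_mm_203_b : CertN 1239849684 370763052 0 536870912 67108864 67108864 3 true false false .up 2 0 3
    ndN2q2b ndN4q0 pcN3 Cut.none Ext.none :=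
  certNK0 (fam := true) (s1 := false) (s2 := false) (a := 2) (b := 0) (c := 3) (cn := .up) (n1 := ndN2q2b) (n2 := ndN4q0) (pc := pcN3) (cut := Cut.none) (xt := Ext.none) (P1 := 1239849684) (W1 := 370763052) (P2 := 0) (W2 := 536870912) (P3 := 67108864) (W3 := 67108864) (N0 := 3)
    rfl rfl rfl k0_mm_203_b

noncomputable def f_mm_213_a : ℕ → ℕ → ℕ → ℕ → Bool := onCell 0 536870912 536870912 536870912 67108864 67108864
    (rowNK 3 0 true false false .pnn 2 1 3 (qsf 0 536870912 536870912 536870912 3) ndN2q2a ndN4q1 pcN3 Cut.none Ext.none)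

def k0_mm_213_a : ∃ t, chk3 f_mm_213_a t 1 1 1 = true :=
  ⟨(l 4), by decide +kernel⟩

theorem c_mm_213_a : CertN 0 536870912 536870912 536870912 67108864 67108864 3 true false false .pnn 2 1 3
    ndN2q2a ndN4q1 pcN3 Cut.none Ext.none :=
  certNK0 (fam := true) (s1 := false) (s2 := false) (a := 2) (b := 1) (c := 3) (cn := .pnn) (n1 := ndN2q2a) (n2 := ndN4q1) (pc := pcN3) (cut := Cut.none) (xt := Ext.none) (P1 := 0) (W1 := 536870912) (P2 := 536870912) (W2 := 536870912) (P3 := 67108864) (W3 := 67108864) (N0 := 3)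
    rfl rfl rfl k0_mm_213_a

noncomputable def f_mm_213_b : ℕ → ℕ → ℕ → ℕ → Bool := onCell 1239849684 370763052 536870912 536870912 67108864 67108864
    (rowNK 3 0 true false false .pnn 2 1 3 (qsf 1239849684 370763052 536870912 536870912 3) ndN2q2b ndN4q1 pcN3 Cut.none Ext.none)

def k0_mm_213_b : ∃ t, chk3 f_mm_213_b t 1 1 1 = true :=
  ⟨(l 4), by decide +kernel⟩

theorem c_mm_213_b : CertN 1239849684 370763052 536870912 536870912 67108864 67108864 3 true false false .pnn 2 1 3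
    ndN2q2b ndN4q1 pcN3 Cut.none Ext.none :=
  certNK0 (fam := true) (s1 := false) (s2 := false) (a := 2) (b := 1) (c := 3) (cn := .pnn) (n1 := ndN2q2b) (n2 := ndN4q1) (pc := pcN3) (cut := Cut.none) (xt := Ext.none) (P1 := 1239849684) (W1 := 370763052) (P2 := 536870912) (W2 := 536870912) (P3 := 67108864) (W3 := 67108864) (N0 := 3)
    rfl rfl rfl k0_mm_213_b

noncomputable def f_mm_303 : ℕ → ℕ → ℕ → ℕ → Bool := onCell 1610612736 536870912 0 536870912 67108864 67108864
    (rowNK 3 0 true false false .npn 3 0 3 (qsf 1610612736 536870912 0 536870912 3) ndN2q3 ndN4q0 pcN3 Cut.none Ext.none)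

def k0_mm_303 : ∃ t, chk3 f_mm_303 t 1 1 1 = true :=
  ⟨(l 4), by decide +kernel⟩

theorem c_mm_303 : CertN 1610612736 536870912 0 536870912 67108864 67108864 3 true false false .npn 3 0 3
    ndN2q3 ndN4q0 pcN3 Cut.none Ext.none :=
  certNK0 (fam := true) (s1 := false) (s2 := false) (a := 3) (b := 0) (c := 3) (cn := .npn) (n1 := ndN2q3) (n2 := ndN4q0) (pc := pcN3) (cut := Cut.none) (xt := Ext.none) (P1 := 1610612736) (W1 := 536870912) (P2 := 0) (W2 := 536870912) (P3 := 67108864) (W3 := 67108864) (N0 := 3)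
    rfl rfl rfl k0_mm_303

noncomputable def f_mm_313 : ℕ → ℕ → ℕ → ℕ → Bool := onCell 1610612736 536870912 536870912 536870912 67108864 67108864
    (rowNK 3 0 true false false .dn 3 1 3 (qsf 1610612736 536870912 536870912 536870912 3) ndN2q3 ndN4q1 pcN3 Cut.none Ext.none)

def k0_mm_313 : ∃ t, chk3 f_mm_313 t 1 1 1 = true :=
  ⟨(l 4), by decide +kernel⟩

theorem c_mm_313 : CertN 1610612736 536870912 536870912 536870912 67108864 67108864 3 true false false .dn 3 1 3
    ndN2q3 ndN4q1 pcN3 Cut.none Ext.none :=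
  certNK0 (fam := true) (s1 := false) (s2 := false) (a := 3) (b := 1) (c := 3) (cn := .dn) (n1 := ndN2q3) (n2 := ndN4q1) (pc := pcN3) (cut := Cut.none) (xt := Ext.none) (P1 := 1610612736) (W1 := 536870912) (P2 := 536870912) (W2 := 536870912) (P3 := 67108864) (W3 := 67108864) (N0 := 3)
    rfl rfl rfl k0_mm_313

end Pool.Agent.Strip051.G.I1_16_1_8.Tab.C.NA24

namespace Pool.Agent.Strip051.G.I1_16_1_8.Tab.C.NA33

open Pool.Agent.Strip051.PB Pool.Agent.Strip051.PB.T
open Pool.Agent.Strip051.G.I1_16_1_8.Tab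

noncomputable def f_pp_001 : ℕ → ℕ → ℕ → ℕ → Bool := onCell 0 536870912 0 536870912 67108864 67108864
    (rowNK 3 0 true true true .up 0 0 1 (qsf 0 536870912 0 536870912 1) ndN3q0 ndN3q0 pcN1 Cut.none Ext.none)

def k0_pp_001 : ∃ t, chk3 f_pp_001 t 1 1 1 = true :=
  ⟨(l 4), by decide +kernel⟩

theorem c_pp_001 : CertN 0 536870912 0 536870912 67108864 67108864 3 true true true .up 0 0 1
    ndN3q0 ndN3q0 pcN1 Cut.none Ext.none :=
  certNK0 (fam := true) (s1 := true) (s2 := true) (a := 0) (b := 0) (c := 1) (cn := .up) (n1 := ndN3q0) (n2 := ndN3q0) (pc := pcN1) (cut := Cut.none) (xt := Ext.none) (P1 := 0) (W1 := 536870912) (P2 := 0) (W2 := 536870912) (P3 := 67108864) (W3 := 67108864) (N0 := 3)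
    rfl rfl rfl k0_pp_001

noncomputable def f_pp_011 : ℕ → ℕ → ℕ → ℕ → Bool := onCell 0 536870912 536870912 536870912 67108864 67108864
    (rowNK 3 0 true true true .pnn 0 1 1 (qsf 0 536870912 536870912 536870912 1) ndN3q0 ndN3q1 pcN1 Cut.none Ext.none)

def k0_pp_011 : ∃ t, chk3 f_pp_011 t 1 1 1 = true :=
  ⟨(l 4), by decide +kernel⟩

theorem c_pp_011 : CertN 0 536870912 536870912 536870912 67108864 67108864 3 true true true .pnn 0 1 1
    ndN3q0 ndN3q1 pcN1 Cut.none Ext.none :=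
  certNK0 (fam := true) (s1 := true) (s2 := true) (a := 0) (b := 1) (c := 1) (cn := .pnn) (n1 := ndN3q0) (n2 := ndN3q1) (pc := pcN1) (cut := Cut.none) (xt := Ext.none) (P1 := 0) (W1 := 536870912) (P2 := 536870912) (W2 := 536870912) (P3 := 67108864) (W3 := 67108864) (N0 := 3)
    rfl rfl rfl k0_pp_011

noncomputable def f_pp_012 : ℕ → ℕ → ℕ → ℕ → Bool := onCell 0 536870912 536870912 536870912 67108864 67108864
    (rowNK 3 0 true true true .pnp 0 1 2 (qsf 0 536870912 536870912 536870912 2) ndN3q0 ndN3q1 pcN2 Cut.none Ext.none)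

def k0_pp_012 : ∃ t, chk3 f_pp_012 t 1 1 1 = true :=
  ⟨(l 4), by decide +kernel⟩

theorem c_pp_012 : CertN 0 536870912 536870912 536870912 67108864 67108864 3 true true true .pnp 0 1 2
    ndN3q0 ndN3q1 pcN2 Cut.none Ext.none :=
  certNK0 (fam := true) (s1 := true) (s2 := true) (a := 0) (b := 1) (c := 2) (cn := .pnp) (n1 := ndN3q0) (n2 := ndN3q1) (pc := pcN2) (cut := Cut.none) (xt := Ext.none) (P1 := 0) (W1 := 536870912) (P2 := 536870912) (W2 := 536870912) (P3 := 67108864) (W3 := 67108864) (N0 := 3)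
    rfl rfl rfl k0_pp_012

noncomputable def f_pp_022 : ℕ → ℕ → ℕ → ℕ → Bool := onCell 0 536870912 1073741824 536870912 67108864 67108864
    (rowNK 3 0 true true true .pp 0 2 2 (qsf 0 536870912 1073741824 536870912 2) ndN3q0 ndN3q2 pcN2 Cut.none Ext.none)

def k0_pp_022 : ∃ t, chk3 f_pp_022 t 1 1 1 = true :=
  ⟨(l 4), by decide +kernel⟩

theorem c_pp_022 : CertN 0 536870912 1073741824 536870912 67108864 67108864 3 true true true .pp 0 2 2
    ndN3q0 ndN3q2 pcN2 Cut.none Ext.none :=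
  certNK0 (fam := true) (s1 := true) (s2 := true) (a := 0) (b := 2) (c := 2) (cn := .pp) (n1 := ndN3q0) (n2 := ndN3q2) (pc := pcN2) (cut := Cut.none) (xt := Ext.none) (P1 := 0) (W1 := 536870912) (P2 := 1073741824) (W2 := 536870912) (P3 := 67108864) (W3 := 67108864) (N0 := 3)
    rfl rfl rfl k0_pp_022

noncomputable def f_pp_023 : ℕ → ℕ → ℕ → ℕ → Bool := onCell 0 536870912 1073741824 536870912 67108864 67108864
    (rowNK 3 0 true true true .up 0 2 3 (qsf 0 536870912 1073741824 536870912 3) ndN3q0 ndN3q2 pcN3 Cut.none Ext.none)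

def k0_pp_023 : ∃ t, chk3 f_pp_023 t 1 1 1 = true :=
  ⟨(l 4), by decide +kernel⟩

theorem c_pp_023 : CertN 0 536870912 1073741824 536870912 67108864 67108864 3 true true true .up 0 2 3
    ndN3q0 ndN3q2 pcN3 Cut.none Ext.none :=
  certNK0 (fam := true) (s1 := true) (s2 := true) (a := 0) (b := 2) (c := 3) (cn := .up) (n1 := ndN3q0) (n2 := ndN3q2) (pc := pcN3) (cut := Cut.none) (xt := Ext.none) (P1 := 0) (W1 := 536870912) (P2 := 1073741824) (W2 := 536870912) (P3 := 67108864) (W3 := 67108864) (N0 := 3)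
    rfl rfl rfl k0_pp_023

noncomputable def f_pp_033 : ℕ → ℕ → ℕ → ℕ → Bool := onCell 0 536870912 0 1230186008 67108864 67108864
    (rowNK 3 0 true true true .pnn 0 3 3 (qsf 0 536870912 0 1230186008 3) ndN3q0 ndN3q3 pcN3 Cut.none Ext.none)

def k0_pp_033 : ∃ t, chk3 f_pp_033 t 1 1 1 = true :=
  ⟨(b (l 4) (l 4)), by decide +kernel⟩

theorem c_pp_033 : CertN 0 536870912 0 1230186008 67108864 67108864 3 true true true .pnn 0 3 3
    ndN3q0 ndN3q3 pcN3 Cut.none Ext.none :=
  certNK0 (fam := true) (s1 := true) (s2 := true) (a := 0) (b := 3) (c := 3) (cn := .pnn) (n1 := ndN3q0) (n2 := ndN3q3) (pc := pcN3) (cut := Cut.none) (xt := Ext.none) (P1 := 0) (W1 := 536870912) (P2 := 0) (W2 := 1230186008) (P3 := 67108864) (W3 := 67108864) (N0 := 3)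
    rfl rfl rfl k0_pp_033

noncomputable def f_pp_101 : ℕ → ℕ → ℕ → ℕ → Bool := onCell 536870912 536870912 0 536870912 67108864 67108864
    (rowNK 3 0 true true true .npn 1 0 1 (qsf 536870912 536870912 0 536870912 1) ndN3q1 ndN3q0 pcN1 Cut.none Ext.none)

def k0_pp_101 : ∃ t, chk3 f_pp_101 t 1 1 1 = true :=
  ⟨(l 4), by decide +kernel⟩

theorem c_pp_101 : CertN 536870912 536870912 0 536870912 67108864 67108864 3 true true true .npn 1 0 1
    ndN3q1 ndN3q0 pcN1 Cut.none Ext.none :=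
  certNK0 (fam := true) (s1 := true) (s2 := true) (a := 1) (b := 0) (c := 1) (cn := .npn) (n1 := ndN3q1) (n2 := ndN3q0) (pc := pcN1) (cut := Cut.none) (xt := Ext.none) (P1 := 536870912) (W1 := 536870912) (P2 := 0) (W2 := 536870912) (P3 := 67108864) (W3 := 67108864) (N0 := 3)
    rfl rfl rfl k0_pp_101

noncomputable def f_pp_102 : ℕ → ℕ → ℕ → ℕ → Bool := onCell 536870912 536870912 0 536870912 67108864 67108864
    (rowNK 3 0 true true true .npp 1 0 2 (qsf 536870912 536870912 0 536870912 2) ndN3q1 ndN3q0 pcN2 Cut.none Ext.none)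

def k0_pp_102 : ∃ t, chk3 f_pp_102 t 1 1 1 = true :=
  ⟨(l 4), by decide +kernel⟩

theorem c_pp_102 : CertN 536870912 536870912 0 536870912 67108864 67108864 3 true true true .npp 1 0 2
    ndN3q1 ndN3q0 pcN2 Cut.none Ext.none :=
  certNK0 (fam := true) (s1 := true) (s2 := true) (a := 1) (b := 0) (c := 2) (cn := .npp) (n1 := ndN3q1) (n2 := ndN3q0) (pc := pcN2) (cut := Cut.none) (xt := Ext.none) (P1 := 536870912) (W1 := 536870912) (P2 := 0) (W2 := 536870912) (P3 := 67108864) (W3 := 67108864) (N0 := 3)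
    rfl rfl rfl k0_pp_102

noncomputable def f_pp_112 : ℕ → ℕ → ℕ → ℕ → Bool := onCell 536870912 536870912 536870912 536870912 67108864 67108864
    (rowNK 3 0 true true true .dn 1 1 2 (qsf 536870912 536870912 536870912 536870912 2) ndN3q1 ndN3q1 pcN2 Cut.none Ext.none)

def k0_pp_112 : ∃ t, chk3 f_pp_112 t 1 1 1 = true :=
  ⟨(l 4), by decide +kernel⟩

theorem c_pp_112 : CertN 536870912 536870912 536870912 536870912 67108864 67108864 3 true true true .dn 1 1 2
    ndN3q1 ndN3q1 pcN2 Cut.none Ext.none :=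
  certNK0 (fam := true) (s1 := true) (s2 := true) (a := 1) (b := 1) (c := 2) (cn := .dn) (n1 := ndN3q1) (n2 := ndN3q1) (pc := pcN2) (cut := Cut.none) (xt := Ext.none) (P1 := 536870912) (W1 := 536870912) (P2 := 536870912) (W2 := 536870912) (P3 := 67108864) (W3 := 67108864) (N0 := 3)
    rfl rfl rfl k0_pp_112

noncomputable def f_pp_113 : ℕ → ℕ → ℕ → ℕ → Bool := onCell 536870912 536870912 536870912 536870912 67108864 67108864
    (rowNK 3 0 true true true .nn 1 1 3 (qsf 536870912 536870912 536870912 536870912 3) ndN3q1 ndN3q1 pcN3 Cut.none Ext.none)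

def k0_pp_113 : ∃ t, chk3 f_pp_113 t 1 1 1 = true :=
  ⟨(l 4), by decide +kernel⟩

theorem c_pp_113 : CertN 536870912 536870912 536870912 536870912 67108864 67108864 3 true true true .nn 1 1 3
    ndN3q1 ndN3q1 pcN3 Cut.none Ext.none :=
  certNK0 (fam := true) (s1 := true) (s2 := true) (a := 1) (b := 1) (c := 3) (cn := .nn) (n1 := ndN3q1) (n2 := ndN3q1) (pc := pcN3) (cut := Cut.none) (xt := Ext.none) (P1 := 536870912) (W1 := 536870912) (P2 := 536870912) (W2 := 536870912) (P3 := 67108864) (W3 := 67108864) (N0 := 3)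
    rfl rfl rfl k0_pp_113

noncomputable def f_pp_123 : ℕ → ℕ → ℕ → ℕ → Bool := onCell 536870912 536870912 1073741824 536870912 67108864 67108864
    (rowNK 3 0 true true true .npn 1 2 3 (qsf 536870912 536870912 1073741824 536870912 3) ndN3q1 ndN3q2 pcN3 Cut.none Ext.none)

def k0_pp_123 : ∃ t, chk3 f_pp_123 t 1 1 1 = true :=
  ⟨(l 4), by decide +kernel⟩

theorem c_pp_123 : CertN 536870912 536870912 1073741824 536870912 67108864 67108864 3 true true true .npn 1 2 3
    ndN3q1 ndN3q2 pcN3 Cut.none Ext.none :=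
  certNK0 (fam := true) (s1 := true) (s2 := true) (a := 1) (b := 2) (c := 3) (cn := .npn) (n1 := ndN3q1) (n2 := ndN3q2) (pc := pcN3) (cut := Cut.none) (xt := Ext.none) (P1 := 536870912) (W1 := 536870912) (P2 := 1073741824) (W2 := 536870912) (P3 := 67108864) (W3 := 67108864) (N0 := 3)
    rfl rfl rfl k0_pp_123

noncomputable def f_pp_133 : ℕ → ℕ → ℕ → ℕ → Bool := onCell 536870912 536870912 0 1230186008 67108864 67108864
    (rowNK 3 0 true true true .dn 1 3 3 (qsf 536870912 536870912 0 1230186008 3) ndN3q1 ndN3q3 pcN3 Cut.none Ext.none)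

def k0_pp_133 : ∃ t, chk3 f_pp_133 t 1 1 1 = true :=
  ⟨(l 4), by decide +kernel⟩

theorem c_pp_133 : CertN 536870912 536870912 0 1230186008 67108864 67108864 3 true true true .dn 1 3 3
    ndN3q1 ndN3q3 pcN3 Cut.none Ext.none :=
  certNK0 (fam := true) (s1 := true) (s2 := true) (a := 1) (b := 3) (c := 3) (cn := .dn) (n1 := ndN3q1) (n2 := ndN3q3) (pc := pcN3) (cut := Cut.none) (xt := Ext.none) (P1 := 536870912) (W1 := 536870912) (P2 := 0) (W2 := 1230186008) (P3 := 67108864) (W3 := 67108864) (N0 := 3)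
    rfl rfl rfl k0_pp_133

noncomputable def f_pp_202 : ℕ → ℕ → ℕ → ℕ → Bool := onCell 1073741824 536870912 0 536870912 67108864 67108864
    (rowNK 3 0 true true true .pp 2 0 2 (qsf 1073741824 536870912 0 536870912 2) ndN3q2 ndN3q0 pcN2 Cut.none Ext.none)

def k0_pp_202 : ∃ t, chk3 f_pp_202 t 1 1 1 = true :=
  ⟨(l 4), by decide +kernel⟩

theorem c_pp_202 : CertN 1073741824 536870912 0 536870912 67108864 67108864 3 true true true .pp 2 0 2
    ndN3q2 ndN3q0 pcN2 Cut.none Ext.none :=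
  certNK0 (fam := true) (s1 := true) (s2 := true) (a := 2) (b := 0) (c := 2) (cn := .pp) (n1 := ndN3q2) (n2 := ndN3q0) (pc := pcN2) (cut := Cut.none) (xt := Ext.none) (P1 := 1073741824) (W1 := 536870912) (P2 := 0) (W2 := 536870912) (P3 := 67108864) (W3 := 67108864) (N0 := 3)
    rfl rfl rfl k0_pp_202

noncomputable def f_pp_203 : ℕ → ℕ → ℕ → ℕ → Bool := onCell 1073741824 536870912 0 536870912 67108864 67108864
    (rowNK 3 0 true true true .up 2 0 3 (qsf 1073741824 536870912 0 536870912 3) ndN3q2 ndN3q0 pcN3 Cut.none Ext.none)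

def k0_pp_203 : ∃ t, chk3 f_pp_203 t 1 1 1 = true :=
  ⟨(l 4), by decide +kernel⟩

theorem c_pp_203 : CertN 1073741824 536870912 0 536870912 67108864 67108864 3 true true true .up 2 0 3
    ndN3q2 ndN3q0 pcN3 Cut.none Ext.none :=
  certNK0 (fam := true) (s1 := true) (s2 := true) (a := 2) (b := 0) (c := 3) (cn := .up) (n1 := ndN3q2) (n2 := ndN3q0) (pc := pcN3) (cut := Cut.none) (xt := Ext.none) (P1 := 1073741824) (W1 := 536870912) (P2 := 0) (W2 := 536870912) (P3 := 67108864) (W3 := 67108864) (N0 := 3)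
    rfl rfl rfl k0_pp_203

noncomputable def f_pp_213 : ℕ → ℕ → ℕ → ℕ → Bool := onCell 1073741824 536870912 536870912 536870912 67108864 67108864
    (rowNK 3 0 true true true .pnn 2 1 3 (qsf 1073741824 536870912 536870912 536870912 3) ndN3q2 ndN3q1 pcN3 Cut.none Ext.none)

def k0_pp_213 : ∃ t, chk3 f_pp_213 t 1 1 1 = true :=
  ⟨(l 4), by decide +kernel⟩

theorem c_pp_213 : CertN 1073741824 536870912 536870912 536870912 67108864 67108864 3 true true true .pnn 2 1 3
    ndN3q2 ndN3q1 pcN3 Cut.none Ext.none :=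
  certNK0 (fam := true) (s1 := true) (s2 := true) (a := 2) (b := 1) (c := 3) (cn := .pnn) (n1 := ndN3q2) (n2 := ndN3q1) (pc := pcN3) (cut := Cut.none) (xt := Ext.none) (P1 := 1073741824) (W1 := 536870912) (P2 := 536870912) (W2 := 536870912) (P3 := 67108864) (W3 := 67108864) (N0 := 3)
    rfl rfl rfl k0_pp_213

noncomputable def f_pp_303 : ℕ → ℕ → ℕ → ℕ → Bool := onCell 0 1230186008 0 536870912 67108864 67108864
    (rowNK 3 0 true true true .npn 3 0 3 (qsf 0 1230186008 0 536870912 3) ndN3q3 ndN3q0 pcN3 Cut.none Ext.none)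

def k0_pp_303 : ∃ t, chk3 f_pp_303 t 1 1 1 = true :=
  ⟨(l 5), by decide +kernel⟩

theorem c_pp_303 : CertN 0 1230186008 0 536870912 67108864 67108864 3 true true true .npn 3 0 3
    ndN3q3 ndN3q0 pcN3 Cut.none Ext.none :=
  certNK0 (fam := true) (s1 := true) (s2 := true) (a := 3) (b := 0) (c := 3) (cn := .npn) (n1 := ndN3q3) (n2 := ndN3q0) (pc := pcN3) (cut := Cut.none) (xt := Ext.none) (P1 := 0) (W1 := 1230186008) (P2 := 0) (W2 := 536870912) (P3 := 67108864) (W3 := 67108864) (N0 := 3)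
    rfl rfl rfl k0_pp_303

noncomputable def f_pp_313 : ℕ → ℕ → ℕ → ℕ → Bool := onCell 0 1230186008 536870912 536870912 67108864 67108864
    (rowNK 3 0 true true true .dn 3 1 3 (qsf 0 1230186008 536870912 536870912 3) ndN3q3 ndN3q1 pcN3 Cut.none Ext.none)

def k0_pp_313 : ∃ t, chk3 f_pp_313 t 1 1 1 = true :=
  ⟨(l 4), by decide +kernel⟩

theorem c_pp_313 : CertN 0 1230186008 536870912 536870912 67108864 67108864 3 true true true .dn 3 1 3
    ndN3q3 ndN3q1 pcN3 Cut.none Ext.none :=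
  certNK0 (fam := true) (s1 := true) (s2 := true) (a := 3) (b := 1) (c := 3) (cn := .dn) (n1 := ndN3q3) (n2 := ndN3q1) (pc := pcN3) (cut := Cut.none) (xt := Ext.none) (P1 := 0) (W1 := 1230186008) (P2 := 536870912) (W2 := 536870912) (P3 := 67108864) (W3 := 67108864) (N0 := 3)
    rfl rfl rfl k0_pp_313

noncomputable def f_pm_001 : ℕ → ℕ → ℕ → ℕ → Bool := onCell 0 536870912 0 536870912 67108864 67108864
    (rowNK 3 0 true true false .up 0 0 1 (qsf 0 536870912 0 536870912 1) ndN3q0 ndN3q0 pcN1 Cut.none Ext.none)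

def k0_pm_001 : ∃ t, chk3 f_pm_001 t 1 1 1 = true :=
  ⟨(l 3), by decide +kernel⟩

theorem c_pm_001 : CertN 0 536870912 0 536870912 67108864 67108864 3 true true false .up 0 0 1
    ndN3q0 ndN3q0 pcN1 Cut.none Ext.none :=
  certNK0 (fam := true) (s1 := true) (s2 := false) (a := 0) (b := 0) (c := 1) (cn := .up) (n1 := ndN3q0) (n2 := ndN3q0) (pc := pcN1) (cut := Cut.none) (xt := Ext.none) (P1 := 0) (W1 := 536870912) (P2 := 0) (W2 := 536870912) (P3 := 67108864) (W3 := 67108864) (N0 := 3)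
    rfl rfl rfl k0_pm_001

noncomputable def f_pm_011 : ℕ → ℕ → ℕ → ℕ → Bool := onCell 0 536870912 536870912 536870912 67108864 67108864
    (rowNK 3 1 true true false .pnn 0 1 1 (qsf 0 536870912 536870912 536870912 1) ndN3q0 ndN3q1 pcN1 Cut.none Ext.none)

def k0_pm_011 : ∃ t, chk3 f_pm_011 t 1 1 1 = true :=
  ⟨(l 3), by decide +kernel⟩

theorem c_pm_011 : CertN 0 536870912 536870912 536870912 67108864 67108864 3 true true false .pnn 0 1 1
    ndN3q0 ndN3q1 pcN1 Cut.none Ext.none :=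
  certNK1 (fam := true) (s1 := true) (s2 := false) (a := 0) (b := 1) (c := 1) (cn := .pnn) (n1 := ndN3q0) (n2 := ndN3q1) (pc := pcN1) (cut := Cut.none) (xt := Ext.none) (P1 := 0) (W1 := 536870912) (P2 := 536870912) (W2 := 536870912) (P3 := 67108864) (W3 := 67108864) (N0 := 3)
    rfl rfl rfl (fun _ => rfl) k0_pm_011

noncomputable def f_pm_012 : ℕ → ℕ → ℕ → ℕ → Bool := onCell 1073741824 536870912 536870912 536870912 67108864 67108864
    (rowNK 3 2 true true false .pnp 0 1 2 (qsf 0 536870912 536870912 536870912 2) ndN3q0 ndN3q1 pcN2 Cut.none Ext.none)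

def k0_pm_012 : ∃ t, chk3 f_pm_012 t 1 1 1 = true :=
  ⟨(b (a (a (l 3) (b (l 17741952) (l 18298088))) (l 18178584)) (a (a (l 3) (a (b (l 18699984) (a (l 19144568) (l 19092024))) (l 18928152))) (b (l 18954832) (l 19504424)))), by decide +kernel⟩

theorem c_pm_012 : CertN 0 536870912 536870912 536870912 67108864 67108864 3 true true false .pnp 0 1 2
    ndN3q0 ndN3q1 pcN2 Cut.none Ext.none :=
  certNK2 (fam := true) (s1 := true) (s2 := false) (a := 0) (b := 1) (c := 2) (cn := .pnp) (n1 := ndN3q0) (n2 := ndN3q1) (pc := pcN2) (cut := Cut.none) (xt := Ext.none) (P1 := 0) (W1 := 536870912) (P2 := 536870912) (W2 := 536870912) (P3 := 67108864) (W3 := 67108864) (N0 := 3)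
    rfl rfl rfl (fun _ => rfl) k0_pm_012

noncomputable def f_pm_022 : ℕ → ℕ → ℕ → ℕ → Bool := onCell 0 536870912 1073741824 536870912 67108864 67108864
    (rowNK 3 1 true true false .pp 0 2 2 (qsf 0 536870912 1073741824 536870912 2) ndN3q0 ndN3q2 pcN2 Cut.none Ext.none)

def k0_pm_022 : ∃ t, chk3 f_pm_022 t 1 1 1 = true :=
  ⟨(a (b (a (b (b (b (l 19132312) (b (l 19048312) (l 18996048))) (b (l 18907448) (l 18769120))) (b (b (l 18897816) (l 18520704)) (l 18278456))) (b (b (l 1) (b (l 1) (l 18845064))) (b (a (l 227671024439) (l 18735616)) (l 18167656)))) (b (a (l 17881344) (l 17970440)) (l 17535776))) (b (b (l 1) (b (l 1) (l 413429220695))) (b (l 359204701847) (l 18398744)))), by decide +kernel⟩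

theorem c_pm_022 : CertN 0 536870912 1073741824 536870912 67108864 67108864 3 true true false .pp 0 2 2
    ndN3q0 ndN3q2 pcN2 Cut.none Ext.none :=
  certNK1 (fam := true) (s1 := true) (s2 := false) (a := 0) (b := 2) (c := 2) (cn := .pp) (n1 := ndN3q0) (n2 := ndN3q2) (pc := pcN2) (cut := Cut.none) (xt := Ext.none) (P1 := 0) (W1 := 536870912) (P2 := 1073741824) (W2 := 536870912) (P3 := 67108864) (W3 := 67108864) (N0 := 3)
    rfl rfl rfl (fun _ => rfl) k0_pm_022

noncomputable def f_pm_023 : ℕ → ℕ → ℕ → ℕ → Bool := onCell 1610612736 536870912 1073741824 536870912 67108864 67108864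
    (rowNK 3 2 true true false .up 0 2 3 (qsf 0 536870912 1073741824 536870912 3) ndN3q0 ndN3q2 pcN3 Cut.none Ext.none)

def k0_pm_023 : ∃ t, chk3 f_pm_023 t 1 1 1 = true :=
  ⟨(a (b (a (b (l 19239360) (l 18570584)) (b (l 19294472) (l 18762360))) (a (b (l 17755504) (a (l 17059440) (l 17399392))) (l 17818384))) (a (b (l 19039976) (l 18105472)) (a (l 18574632) (l 4)))), by decide +kernel⟩

theorem c_pm_023 : CertN 0 536870912 1073741824 536870912 67108864 67108864 3 true true false .up 0 2 3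
    ndN3q0 ndN3q2 pcN3 Cut.none Ext.none :=
  certNK2 (fam := true) (s1 := true) (s2 := false) (a := 0) (b := 2) (c := 3) (cn := .up) (n1 := ndN3q0) (n2 := ndN3q2) (pc := pcN3) (cut := Cut.none) (xt := Ext.none) (P1 := 0) (W1 := 536870912) (P2 := 1073741824) (W2 := 536870912) (P3 := 67108864) (W3 := 67108864) (N0 := 3)
    rfl rfl rfl (fun _ => rfl) k0_pm_023

noncomputable def f_pm_033 : ℕ → ℕ → ℕ → ℕ → Bool := onCell 1610612736 536870912 0 1230186008 67108864 67108864
    (rowNK 3 2 true true false .pnn 0 3 3 (qsf 0 536870912 0 1230186008 3) ndN3q0 ndN3q3 pcN3 Cut.none Ext.none)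

def k0_pm_033 : ∃ t, chk3 f_pm_033 t 1 1 1 = true :=
  ⟨(a (b (l 1) (b (b (l 1) (a (l 1) (a (l 1) (l 18168880)))) (b (a (l 1) (l 18418072)) (a (a (b (l 1) (l 18586616)) (l 18956688)) (l 18426744))))) (a (b (l 1) (b (a (l 18220512) (l 4)) (l 18110480))) (b (a (l 4) (l 4)) (a (l 4) (l 4))))), by decide +kernel⟩

theorem c_pm_033 : CertN 0 536870912 0 1230186008 67108864 67108864 3 true true false .pnn 0 3 3
    ndN3q0 ndN3q3 pcN3 Cut.none Ext.none :=
  certNK2 (fam := true) (s1 := true) (s2 := false) (a := 0) (b := 3) (c := 3) (cn := .pnn) (n1 := ndN3q0) (n2 := ndN3q3) (pc := pcN3) (cut := Cut.none) (xt := Ext.none) (P1 := 0) (W1 := 536870912) (P2 := 0) (W2 := 1230186008) (P3 := 67108864) (W3 := 67108864) (N0 := 3)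
    rfl rfl rfl (fun _ => rfl) k0_pm_033

noncomputable def f_pm_101 : ℕ → ℕ → ℕ → ℕ → Bool := onCell 536870912 536870912 0 536870912 67108864 67108864
    (rowNK 3 2 true true false .npn 1 0 1 (qsf 536870912 536870912 0 536870912 1) ndN3q1 ndN3q0 pcN1 Cut.none Ext.none)

def k0_pm_101 : ∃ t, chk3 f_pm_101 t 1 1 1 = true :=
  ⟨(l 3), by decide +kernel⟩

theorem c_pm_101 : CertN 536870912 536870912 0 536870912 67108864 67108864 3 true true false .npn 1 0 1
    ndN3q1 ndN3q0 pcN1 Cut.none Ext.none :=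
  certNK2 (fam := true) (s1 := true) (s2 := false) (a := 1) (b := 0) (c := 1) (cn := .npn) (n1 := ndN3q1) (n2 := ndN3q0) (pc := pcN1) (cut := Cut.none) (xt := Ext.none) (P1 := 536870912) (W1 := 536870912) (P2 := 0) (W2 := 536870912) (P3 := 67108864) (W3 := 67108864) (N0 := 3)
    rfl rfl rfl (fun _ => rfl) k0_pm_101

noncomputable def f_pm_102 : ℕ → ℕ → ℕ → ℕ → Bool := onCell 536870912 536870912 1073741824 536870912 67108864 67108864
    (rowNK 3 1 true true false .npp 1 0 2 (qsf 536870912 536870912 0 536870912 2) ndN3q1 ndN3q0 pcN2 Cut.none Ext.none)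

def k0_pm_102 : ∃ t, chk3 f_pm_102 t 1 1 1 = true :=
  ⟨(a (b (b (l 3) (a (l 17741952) (l 18298088))) (l 18178584)) (b (b (l 3) (b (a (l 18699984) (b (l 19123600) (l 19092024))) (l 18928152))) (a (l 18954832) (l 19504424)))), by decide +kernel⟩

theorem c_pm_102 : CertN 536870912 536870912 0 536870912 67108864 67108864 3 true true false .npp 1 0 2
    ndN3q1 ndN3q0 pcN2 Cut.none Ext.none :=
  certNK1 (fam := true) (s1 := true) (s2 := false) (a := 1) (b := 0) (c := 2) (cn := .npp) (n1 := ndN3q1) (n2 := ndN3q0) (pc := pcN2) (cut := Cut.none) (xt := Ext.none) (P1 := 536870912) (W1 := 536870912) (P2 := 0) (W2 := 536870912) (P3 := 67108864) (W3 := 67108864) (N0 := 3)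
    rfl rfl rfl (fun _ => rfl) k0_pm_102

noncomputable def f_pm_112 : ℕ → ℕ → ℕ → ℕ → Bool := onCell 536870912 536870912 1073741824 536870912 67108864 67108864
    (rowNK 3 1 true true false .dn 1 1 2 (qsf 536870912 536870912 536870912 536870912 2) ndN3q1 ndN3q1 pcN2 Cut.none Ext.none)

def k0_pm_112 : ∃ t, chk3 f_pm_112 t 1 1 1 = true :=
  ⟨(b (a (b (l 3) (l 19153832)) (b (l 1) (l 537446675207))) (l 18609944)), by decide +kernel⟩

theorem c_pm_112 : CertN 536870912 536870912 536870912 536870912 67108864 67108864 3 true true false .dn 1 1 2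
    ndN3q1 ndN3q1 pcN2 Cut.none Ext.none :=
  certNK1 (fam := true) (s1 := true) (s2 := false) (a := 1) (b := 1) (c := 2) (cn := .dn) (n1 := ndN3q1) (n2 := ndN3q1) (pc := pcN2) (cut := Cut.none) (xt := Ext.none) (P1 := 536870912) (W1 := 536870912) (P2 := 536870912) (W2 := 536870912) (P3 := 67108864) (W3 := 67108864) (N0 := 3)
    rfl rfl rfl (fun _ => rfl) k0_pm_112

noncomputable def f_pm_113 : ℕ → ℕ → ℕ → ℕ → Bool := onCell 536870912 536870912 1610612736 536870912 67108864 67108864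
    (rowNK 3 1 true true false .nn 1 1 3 (qsf 536870912 536870912 536870912 536870912 3) ndN3q1 ndN3q1 pcN3 Cut.none Ext.none)

def k0_pm_113 : ∃ t, chk3 f_pm_113 t 1 1 1 = true :=
  ⟨(b (l 17964864) (b (a (l 17698920) (l 17374240)) (b (l 17522792) (b (l 17228944) (a (l 2) (l 16965224)))))), by decide +kernel⟩

theorem c_pm_113 : CertN 536870912 536870912 536870912 536870912 67108864 67108864 3 true true false .nn 1 1 3
    ndN3q1 ndN3q1 pcN3 Cut.none Ext.none :=
  certNK1 (fam := true) (s1 := true) (s2 := false) (a := 1) (b := 1) (c := 3) (cn := .nn) (n1 := ndN3q1) (n2 := ndN3q1) (pc := pcN3) (cut := Cut.none) (xt := Ext.none) (P1 := 536870912) (W1 := 536870912) (P2 := 536870912) (W2 := 536870912) (P3 := 67108864) (W3 := 67108864) (N0 := 3)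
    rfl rfl rfl (fun _ => rfl) k0_pm_113

noncomputable def f_pm_123 : ℕ → ℕ → ℕ → ℕ → Bool := onCell 1610612736 536870912 1073741824 536870912 67108864 67108864
    (rowNK 3 2 true true false .npn 1 2 3 (qsf 536870912 536870912 1073741824 536870912 3) ndN3q1 ndN3q2 pcN3 Cut.none Ext.none)

def k0_pm_123 : ∃ t, chk3 f_pm_123 t 1 1 1 = true :=
  ⟨(a (b (a (a (l 17395112) (l 17398360)) (a (l 17211144) (l 17206160))) (a (l 1) (l 16891992))) (a (b (a (l 17437784) (l 17567856)) (l 17088728)) (a (b (l 4) (l 4)) (l 4)))), by decide +kernel⟩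

theorem c_pm_123 : CertN 536870912 536870912 1073741824 536870912 67108864 67108864 3 true true false .npn 1 2 3
    ndN3q1 ndN3q2 pcN3 Cut.none Ext.none :=
  certNK2 (fam := true) (s1 := true) (s2 := false) (a := 1) (b := 2) (c := 3) (cn := .npn) (n1 := ndN3q1) (n2 := ndN3q2) (pc := pcN3) (cut := Cut.none) (xt := Ext.none) (P1 := 536870912) (W1 := 536870912) (P2 := 1073741824) (W2 := 536870912) (P3 := 67108864) (W3 := 67108864) (N0 := 3)
    rfl rfl rfl (fun _ => rfl) k0_pm_123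

noncomputable def f_pm_133 : ℕ → ℕ → ℕ → ℕ → Bool := onCell 536870912 536870912 0 1230186008 67108864 67108864
    (rowNK 3 0 true true false .dn 1 3 3 (qsf 536870912 536870912 0 1230186008 3) ndN3q1 ndN3q3 pcN3 Cut.none Ext.none)

def k0_pm_133 : ∃ t, chk3 f_pm_133 t 1 1 1 = true :=
  ⟨(b (l 2) (l 4)), by decide +kernel⟩

theorem c_pm_133 : CertN 536870912 536870912 0 1230186008 67108864 67108864 3 true true false .dn 1 3 3
    ndN3q1 ndN3q3 pcN3 Cut.none Ext.none :=
  certNK0 (fam := true) (s1 := true) (s2 := false) (a := 1) (b := 3) (c := 3) (cn := .dn) (n1 := ndN3q1) (n2 := ndN3q3) (pc := pcN3) (cut := Cut.none) (xt := Ext.none) (P1 := 536870912) (W1 := 536870912) (P2 := 0) (W2 := 1230186008) (P3 := 67108864) (W3 := 67108864) (N0 := 3)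
    rfl rfl rfl k0_pm_133

noncomputable def f_pm_202 : ℕ → ℕ → ℕ → ℕ → Bool := onCell 1073741824 536870912 0 536870912 67108864 67108864
    (rowNK 3 2 true true false .pp 2 0 2 (qsf 1073741824 536870912 0 536870912 2) ndN3q2 ndN3q0 pcN2 Cut.none Ext.none)

def k0_pm_202 : ∃ t, chk3 f_pm_202 t 1 1 1 = true :=
  ⟨(a (b (b (a (a (a (l 19132312) (a (l 19048312) (l 18996048))) (a (l 18907448) (l 18769120))) (a (a (l 18897816) (l 18520704)) (l 18278456))) (a (a (l 1) (a (l 1) (l 18845064))) (a (b (l 227671024439) (l 18735616)) (l 18167656)))) (a (l 1) (a (l 1) (l 413429220695)))) (b (a (b (l 17881344) (l 17970440)) (l 17535776)) (a (l 359204701847) (l 18398744)))), by decide +kernel⟩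

theorem c_pm_202 : CertN 1073741824 536870912 0 536870912 67108864 67108864 3 true true false .pp 2 0 2
    ndN3q2 ndN3q0 pcN2 Cut.none Ext.none :=
  certNK2 (fam := true) (s1 := true) (s2 := false) (a := 2) (b := 0) (c := 2) (cn := .pp) (n1 := ndN3q2) (n2 := ndN3q0) (pc := pcN2) (cut := Cut.none) (xt := Ext.none) (P1 := 1073741824) (W1 := 536870912) (P2 := 0) (W2 := 536870912) (P3 := 67108864) (W3 := 67108864) (N0 := 3)
    rfl rfl rfl (fun _ => rfl) k0_pm_202

noncomputable def f_pm_203 : ℕ → ℕ → ℕ → ℕ → Bool := onCell 1073741824 536870912 1610612736 536870912 67108864 67108864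
    (rowNK 3 1 true true false .up 2 0 3 (qsf 1073741824 536870912 0 536870912 3) ndN3q2 ndN3q0 pcN3 Cut.none Ext.none)

def k0_pm_203 : ∃ t, chk3 f_pm_203 t 1 1 1 = true :=
  ⟨(b (a (b (a (l 19239360) (l 18570584)) (a (l 19294472) (l 18762360))) (b (a (l 17755504) (b (l 17059440) (l 17399392))) (l 17818384))) (b (a (l 19039976) (l 18105472)) (b (l 18574632) (l 4)))), by decide +kernel⟩

theorem c_pm_203 : CertN 1073741824 536870912 0 536870912 67108864 67108864 3 true true false .up 2 0 3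
    ndN3q2 ndN3q0 pcN3 Cut.none Ext.none :=
  certNK1 (fam := true) (s1 := true) (s2 := false) (a := 2) (b := 0) (c := 3) (cn := .up) (n1 := ndN3q2) (n2 := ndN3q0) (pc := pcN3) (cut := Cut.none) (xt := Ext.none) (P1 := 1073741824) (W1 := 536870912) (P2 := 0) (W2 := 536870912) (P3 := 67108864) (W3 := 67108864) (N0 := 3)
    rfl rfl rfl (fun _ => rfl) k0_pm_203

noncomputable def f_pm_213 : ℕ → ℕ → ℕ → ℕ → Bool := onCell 1073741824 536870912 1610612736 536870912 67108864 67108864
    (rowNK 3 1 true true false .pnn 2 1 3 (qsf 1073741824 536870912 536870912 536870912 3) ndN3q2 ndN3q1 pcN3 Cut.none Ext.none)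

def k0_pm_213 : ∃ t, chk3 f_pm_213 t 1 1 1 = true :=
  ⟨(b (a (b (b (l 17395112) (l 17398360)) (b (l 17211144) (l 17206160))) (b (l 1) (l 16891992))) (b (a (b (l 17437784) (l 17567856)) (l 17088728)) (b (a (l 4) (l 4)) (l 4)))), by decide +kernel⟩

theorem c_pm_213 : CertN 1073741824 536870912 536870912 536870912 67108864 67108864 3 true true false .pnn 2 1 3
    ndN3q2 ndN3q1 pcN3 Cut.none Ext.none :=
  certNK1 (fam := true) (s1 := true) (s2 := false) (a := 2) (b := 1) (c := 3) (cn := .pnn) (n1 := ndN3q2) (n2 := ndN3q1) (pc := pcN3) (cut := Cut.none) (xt := Ext.none) (P1 := 1073741824) (W1 := 536870912) (P2 := 536870912) (W2 := 536870912) (P3 := 67108864) (W3 := 67108864) (N0 := 3)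
    rfl rfl rfl (fun _ => rfl) k0_pm_213

end Pool.Agent.Strip051.G.I1_16_1_8.Tab.C.NA33

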