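import Pool.Agent.Strip051.G.I1_16_1_8.Tab
import Pool.Agent.Strip051.PB.RowK

/-! # Certificates N4 (generated) -/

set_option linter.all false
set_option maxRecDepth 100000

namespace Pool.Agent.Strip051.G.I1_16_1_8.Tab.C.NA33

open Pool.Agent.Strip051.PB Pool.Agent.Strip051.PB.T
open Pool.Agent.Strip051.G.I1_16_1_8.Tab

noncomputable def f_pm_303 : ℕ → ℕ → ℕ → ℕ → Bool := onCell 0 1230186008 0 536870912 67108864 67108864
    (rowNK 3 0 true true false .npn 3 0 3 (qsf 0 1230186008 0 536870912 3) ndN3q3 ndN3q0 pcN3 Cut.none Ext.none)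

def k0_pm_303 : ∃ t, chk3 f_pm_303 t 1 1 1 = true :=
  ⟨(a (l 4) (a (b (b (a (l 4) (b (l 18098120) (l 4))) (l 4)) (l 4)) (b (a (b (b (l 18306320) (l 18197264)) (b (l 18023608) (l 4))) (b (a (b (l 18765944) (l 18345040)) (b (l 18830968) (l 18791216))) (a (l 18189048) (l 18323784)))) (a (l 4) (b (a (l 4) (l 18000976)) (l 4)))))), by decide +kernel⟩

theorem c_pm_303 : CertN 0 1230186008 0 536870912 67108864 67108864 3 true true false .npn 3 0 3
    ndN3q3 ndN3q0 pcN3 Cut.none Ext.none :=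
  certNK0 (fam := true) (s1 := true) (s2 := false) (a := 3) (b := 0) (c := 3) (cn := .npn) (n1 := ndN3q3) (n2 := ndN3q0) (pc := pcN3) (cut := Cut.none) (xt := Ext.none) (P1 := 0) (W1 := 1230186008) (P2 := 0) (W2 := 536870912) (P3 := 67108864) (W3 := 67108864) (N0 := 3)
    rfl rfl rfl k0_pm_303

noncomputable def f_pm_313 : ℕ → ℕ → ℕ → ℕ → Bool := onCell 0 1230186008 536870912 536870912 67108864 67108864
    (rowNK 3 0 true true false .dn 3 1 3 (qsf 0 1230186008 536870912 536870912 3) ndN3q3 ndN3q1 pcN3 Cut.none Ext.none)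

def k0_pm_313 : ∃ t, chk3 f_pm_313 t 1 1 1 = true :=
  ⟨(a (l 2) (l 4)), by decide +kernel⟩

theorem c_pm_313 : CertN 0 1230186008 536870912 536870912 67108864 67108864 3 true true false .dn 3 1 3
    ndN3q3 ndN3q1 pcN3 Cut.none Ext.none :=
  certNK0 (fam := true) (s1 := true) (s2 := false) (a := 3) (b := 1) (c := 3) (cn := .dn) (n1 := ndN3q3) (n2 := ndN3q1) (pc := pcN3) (cut := Cut.none) (xt := Ext.none) (P1 := 0) (W1 := 1230186008) (P2 := 536870912) (W2 := 536870912) (P3 := 67108864) (W3 := 67108864) (N0 := 3)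
    rfl rfl rfl k0_pm_313

noncomputable def f_mm_001 : ℕ → ℕ → ℕ → ℕ → Bool := onCell 0 536870912 0 536870912 67108864 67108864
    (rowNK 3 0 true false false .up 0 0 1 (qsf 0 536870912 0 536870912 1) ndN3q0 ndN3q0 pcN1 Cut.none Ext.none)

def k0_mm_001 : ∃ t, chk3 f_mm_001 t 1 1 1 = true :=
  ⟨(l 4), by decide +kernel⟩

theorem c_mm_001 : CertN 0 536870912 0 536870912 67108864 67108864 3 true false false .up 0 0 1
    ndN3q0 ndN3q0 pcN1 Cut.none Ext.none :=
  certNK0 (fam := true) (s1 := false) (s2 := false) (a := 0) (b := 0) (c := 1) (cn := .up) (n1 := ndN3q0) (n2 := ndN3q0) (pc := pcN1) (cut := Cut.none) (xt := Ext.none) (P1 := 0) (W1 := 536870912) (P2 := 0) (W2 := 536870912) (P3 := 67108864) (W3 := 67108864) (N0 := 3)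
    rfl rfl rfl k0_mm_001

noncomputable def f_mm_011 : ℕ → ℕ → ℕ → ℕ → Bool := onCell 0 536870912 536870912 536870912 67108864 67108864
    (rowNK 3 0 true false false .pnn 0 1 1 (qsf 0 536870912 536870912 536870912 1) ndN3q0 ndN3q1 pcN1 Cut.none Ext.none)

def k0_mm_011 : ∃ t, chk3 f_mm_011 t 1 1 1 = true :=
  ⟨(l 4), by decide +kernel⟩

theorem c_mm_011 : CertN 0 536870912 536870912 536870912 67108864 67108864 3 true false false .pnn 0 1 1
    ndN3q0 ndN3q1 pcN1 Cut.none Ext.none :=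
  certNK0 (fam := true) (s1 := false) (s2 := false) (a := 0) (b := 1) (c := 1) (cn := .pnn) (n1 := ndN3q0) (n2 := ndN3q1) (pc := pcN1) (cut := Cut.none) (xt := Ext.none) (P1 := 0) (W1 := 536870912) (P2 := 536870912) (W2 := 536870912) (P3 := 67108864) (W3 := 67108864) (N0 := 3)
    rfl rfl rfl k0_mm_011

noncomputable def f_mm_012 : ℕ → ℕ → ℕ → ℕ → Bool := onCell 0 536870912 536870912 536870912 67108864 67108864
    (rowNK 3 0 true false false .pnp 0 1 2 (qsf 0 536870912 536870912 536870912 2) ndN3q0 ndN3q1 pcN2 Cut.none Ext.none)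

def k0_mm_012 : ∃ t, chk3 f_mm_012 t 1 1 1 = true :=
  ⟨(l 4), by decide +kernel⟩

theorem c_mm_012 : CertN 0 536870912 536870912 536870912 67108864 67108864 3 true false false .pnp 0 1 2
    ndN3q0 ndN3q1 pcN2 Cut.none Ext.none :=
  certNK0 (fam := true) (s1 := false) (s2 := false) (a := 0) (b := 1) (c := 2) (cn := .pnp) (n1 := ndN3q0) (n2 := ndN3q1) (pc := pcN2) (cut := Cut.none) (xt := Ext.none) (P1 := 0) (W1 := 536870912) (P2 := 536870912) (W2 := 536870912) (P3 := 67108864) (W3 := 67108864) (N0 := 3)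
    rfl rfl rfl k0_mm_012

noncomputable def f_mm_022 : ℕ → ℕ → ℕ → ℕ → Bool := onCell 0 536870912 1073741824 536870912 67108864 67108864
    (rowNK 3 0 true false false .pp 0 2 2 (qsf 0 536870912 1073741824 536870912 2) ndN3q0 ndN3q2 pcN2 Cut.none Ext.none)

def k0_mm_022 : ∃ t, chk3 f_mm_022 t 1 1 1 = true :=
  ⟨(l 4), by decide +kernel⟩

theorem c_mm_022 : CertN 0 536870912 1073741824 536870912 67108864 67108864 3 true false false .pp 0 2 2
    ndN3q0 ndN3q2 pcN2 Cut.none Ext.none :=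
  certNK0 (fam := true) (s1 := false) (s2 := false) (a := 0) (b := 2) (c := 2) (cn := .pp) (n1 := ndN3q0) (n2 := ndN3q2) (pc := pcN2) (cut := Cut.none) (xt := Ext.none) (P1 := 0) (W1 := 536870912) (P2 := 1073741824) (W2 := 536870912) (P3 := 67108864) (W3 := 67108864) (N0 := 3)
    rfl rfl rfl k0_mm_022

noncomputable def f_mm_023 : ℕ → ℕ → ℕ → ℕ → Bool := onCell 0 536870912 1073741824 536870912 67108864 67108864
    (rowNK 3 0 true false false .up 0 2 3 (qsf 0 536870912 1073741824 536870912 3) ndN3q0 ndN3q2 pcN3 Cut.none Ext.none)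

def k0_mm_023 : ∃ t, chk3 f_mm_023 t 1 1 1 = true :=
  ⟨(l 4), by decide +kernel⟩

theorem c_mm_023 : CertN 0 536870912 1073741824 536870912 67108864 67108864 3 true false false .up 0 2 3
    ndN3q0 ndN3q2 pcN3 Cut.none Ext.none :=
  certNK0 (fam := true) (s1 := false) (s2 := false) (a := 0) (b := 2) (c := 3) (cn := .up) (n1 := ndN3q0) (n2 := ndN3q2) (pc := pcN3) (cut := Cut.none) (xt := Ext.none) (P1 := 0) (W1 := 536870912) (P2 := 1073741824) (W2 := 536870912) (P3 := 67108864) (W3 := 67108864) (N0 := 3)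
    rfl rfl rfl k0_mm_023

noncomputable def f_mm_033 : ℕ → ℕ → ℕ → ℕ → Bool := onCell 0 536870912 0 1230186008 67108864 67108864
    (rowNK 3 0 true false false .pnn 0 3 3 (qsf 0 536870912 0 1230186008 3) ndN3q0 ndN3q3 pcN3 Cut.none Ext.none)

def k0_mm_033 : ∃ t, chk3 f_mm_033 t 1 1 1 = true :=
  ⟨(l 5), by decide +kernel⟩

theorem c_mm_033 : CertN 0 536870912 0 1230186008 67108864 67108864 3 true false false .pnn 0 3 3
    ndN3q0 ndN3q3 pcN3 Cut.none Ext.none :=
  certNK0 (fam := true) (s1 := false) (s2 := false) (a := 0) (b := 3) (c := 3) (cn := .pnn) (n1 := ndN3q0) (n2 := ndN3q3) (pc := pcN3) (cut := Cut.none) (xt := Ext.none) (P1 := 0) (W1 := 536870912) (P2 := 0) (W2 := 1230186008) (P3 := 67108864) (W3 := 67108864) (N0 := 3)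
    rfl rfl rfl k0_mm_033

noncomputable def f_mm_101 : ℕ → ℕ → ℕ → ℕ → Bool := onCell 536870912 536870912 0 536870912 67108864 67108864
    (rowNK 3 0 true false false .npn 1 0 1 (qsf 536870912 536870912 0 536870912 1) ndN3q1 ndN3q0 pcN1 Cut.none Ext.none)

def k0_mm_101 : ∃ t, chk3 f_mm_101 t 1 1 1 = true :=
  ⟨(l 4), by decide +kernel⟩

theorem c_mm_101 : CertN 536870912 536870912 0 536870912 67108864 67108864 3 true false false .npn 1 0 1
    ndN3q1 ndN3q0 pcN1 Cut.none Ext.none :=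
  certNK0 (fam := true) (s1 := false) (s2 := false) (a := 1) (b := 0) (c := 1) (cn := .npn) (n1 := ndN3q1) (n2 := ndN3q0) (pc := pcN1) (cut := Cut.none) (xt := Ext.none) (P1 := 536870912) (W1 := 536870912) (P2 := 0) (W2 := 536870912) (P3 := 67108864) (W3 := 67108864) (N0 := 3)
    rfl rfl rfl k0_mm_101

noncomputable def f_mm_102 : ℕ → ℕ → ℕ → ℕ → Bool := onCell 536870912 536870912 0 536870912 67108864 67108864
    (rowNK 3 0 true false false .npp 1 0 2 (qsf 536870912 536870912 0 536870912 2) ndN3q1 ndN3q0 pcN2 Cut.none Ext.none)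

def k0_mm_102 : ∃ t, chk3 f_mm_102 t 1 1 1 = true :=
  ⟨(l 4), by decide +kernel⟩

theorem c_mm_102 : CertN 536870912 536870912 0 536870912 67108864 67108864 3 true false false .npp 1 0 2
    ndN3q1 ndN3q0 pcN2 Cut.none Ext.none :=
  certNK0 (fam := true) (s1 := false) (s2 := false) (a := 1) (b := 0) (c := 2) (cn := .npp) (n1 := ndN3q1) (n2 := ndN3q0) (pc := pcN2) (cut := Cut.none) (xt := Ext.none) (P1 := 536870912) (W1 := 536870912) (P2 := 0) (W2 := 536870912) (P3 := 67108864) (W3 := 67108864) (N0 := 3)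
    rfl rfl rfl k0_mm_102

noncomputable def f_mm_112 : ℕ → ℕ → ℕ → ℕ → Bool := onCell 536870912 536870912 536870912 536870912 67108864 67108864
    (rowNK 3 0 true false false .dn 1 1 2 (qsf 536870912 536870912 536870912 536870912 2) ndN3q1 ndN3q1 pcN2 Cut.none Ext.none)

def k0_mm_112 : ∃ t, chk3 f_mm_112 t 1 1 1 = true :=
  ⟨(l 4), by decide +kernel⟩

theorem c_mm_112 : CertN 536870912 536870912 536870912 536870912 67108864 67108864 3 true false false .dn 1 1 2
    ndN3q1 ndN3q1 pcN2 Cut.none Ext.none :=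
  certNK0 (fam := true) (s1 := false) (s2 := false) (a := 1) (b := 1) (c := 2) (cn := .dn) (n1 := ndN3q1) (n2 := ndN3q1) (pc := pcN2) (cut := Cut.none) (xt := Ext.none) (P1 := 536870912) (W1 := 536870912) (P2 := 536870912) (W2 := 536870912) (P3 := 67108864) (W3 := 67108864) (N0 := 3)
    rfl rfl rfl k0_mm_112

noncomputable def f_mm_113 : ℕ → ℕ → ℕ → ℕ → Bool := onCell 536870912 536870912 536870912 536870912 67108864 67108864
    (rowNK 3 0 true false false .nn 1 1 3 (qsf 536870912 536870912 536870912 536870912 3) ndN3q1 ndN3q1 pcN3 Cut.none Ext.none)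

def k0_mm_113 : ∃ t, chk3 f_mm_113 t 1 1 1 = true :=
  ⟨(l 4), by decide +kernel⟩

theorem c_mm_113 : CertN 536870912 536870912 536870912 536870912 67108864 67108864 3 true false false .nn 1 1 3
    ndN3q1 ndN3q1 pcN3 Cut.none Ext.none :=
  certNK0 (fam := true) (s1 := false) (s2 := false) (a := 1) (b := 1) (c := 3) (cn := .nn) (n1 := ndN3q1) (n2 := ndN3q1) (pc := pcN3) (cut := Cut.none) (xt := Ext.none) (P1 := 536870912) (W1 := 536870912) (P2 := 536870912) (W2 := 536870912) (P3 := 67108864) (W3 := 67108864) (N0 := 3)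
    rfl rfl rfl k0_mm_113

noncomputable def f_mm_123 : ℕ → ℕ → ℕ → ℕ → Bool := onCell 536870912 536870912 1073741824 536870912 67108864 67108864
    (rowNK 3 0 true false false .npn 1 2 3 (qsf 536870912 536870912 1073741824 536870912 3) ndN3q1 ndN3q2 pcN3 Cut.none Ext.none)

def k0_mm_123 : ∃ t, chk3 f_mm_123 t 1 1 1 = true :=
  ⟨(l 4), by decide +kernel⟩

theorem c_mm_123 : CertN 536870912 536870912 1073741824 536870912 67108864 67108864 3 true false false .npn 1 2 3
    ndN3q1 ndN3q2 pcN3 Cut.none Ext.none :=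
  certNK0 (fam := true) (s1 := false) (s2 := false) (a := 1) (b := 2) (c := 3) (cn := .npn) (n1 := ndN3q1) (n2 := ndN3q2) (pc := pcN3) (cut := Cut.none) (xt := Ext.none) (P1 := 536870912) (W1 := 536870912) (P2 := 1073741824) (W2 := 536870912) (P3 := 67108864) (W3 := 67108864) (N0 := 3)
    rfl rfl rfl k0_mm_123

noncomputable def f_mm_133 : ℕ → ℕ → ℕ → ℕ → Bool := onCell 536870912 536870912 0 1230186008 67108864 67108864
    (rowNK 3 0 true false false .dn 1 3 3 (qsf 536870912 536870912 0 1230186008 3) ndN3q1 ndN3q3 pcN3 Cut.none Ext.none)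

def k0_mm_133 : ∃ t, chk3 f_mm_133 t 1 1 1 = true :=
  ⟨(l 4), by decide +kernel⟩

theorem c_mm_133 : CertN 536870912 536870912 0 1230186008 67108864 67108864 3 true false false .dn 1 3 3
    ndN3q1 ndN3q3 pcN3 Cut.none Ext.none :=
  certNK0 (fam := true) (s1 := false) (s2 := false) (a := 1) (b := 3) (c := 3) (cn := .dn) (n1 := ndN3q1) (n2 := ndN3q3) (pc := pcN3) (cut := Cut.none) (xt := Ext.none) (P1 := 536870912) (W1 := 536870912) (P2 := 0) (W2 := 1230186008) (P3 := 67108864) (W3 := 67108864) (N0 := 3)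
    rfl rfl rfl k0_mm_133

noncomputable def f_mm_202 : ℕ → ℕ → ℕ → ℕ → Bool := onCell 1073741824 536870912 0 536870912 67108864 67108864
    (rowNK 3 0 true false false .pp 2 0 2 (qsf 1073741824 536870912 0 536870912 2) ndN3q2 ndN3q0 pcN2 Cut.none Ext.none)

def k0_mm_202 : ∃ t, chk3 f_mm_202 t 1 1 1 = true :=
  ⟨(l 4), by decide +kernel⟩

theorem c_mm_202 : CertN 1073741824 536870912 0 536870912 67108864 67108864 3 true false false .pp 2 0 2
    ndN3q2 ndN3q0 pcN2 Cut.none Ext.none :=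
  certNK0 (fam := true) (s1 := false) (s2 := false) (a := 2) (b := 0) (c := 2) (cn := .pp) (n1 := ndN3q2) (n2 := ndN3q0) (pc := pcN2) (cut := Cut.none) (xt := Ext.none) (P1 := 1073741824) (W1 := 536870912) (P2 := 0) (W2 := 536870912) (P3 := 67108864) (W3 := 67108864) (N0 := 3)
    rfl rfl rfl k0_mm_202

noncomputable def f_mm_203 : ℕ → ℕ → ℕ → ℕ → Bool := onCell 1073741824 536870912 0 536870912 67108864 67108864
    (rowNK 3 0 true false false .up 2 0 3 (qsf 1073741824 536870912 0 536870912 3) ndN3q2 ndN3q0 pcN3 Cut.none Ext.none)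

def k0_mm_203 : ∃ t, chk3 f_mm_203 t 1 1 1 = true :=
  ⟨(l 4), by decide +kernel⟩

theorem c_mm_203 : CertN 1073741824 536870912 0 536870912 67108864 67108864 3 true false false .up 2 0 3
    ndN3q2 ndN3q0 pcN3 Cut.none Ext.none :=
  certNK0 (fam := true) (s1 := false) (s2 := false) (a := 2) (b := 0) (c := 3) (cn := .up) (n1 := ndN3q2) (n2 := ndN3q0) (pc := pcN3) (cut := Cut.none) (xt := Ext.none) (P1 := 1073741824) (W1 := 536870912) (P2 := 0) (W2 := 536870912) (P3 := 67108864) (W3 := 67108864) (N0 := 3)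
    rfl rfl rfl k0_mm_203

noncomputable def f_mm_213 : ℕ → ℕ → ℕ → ℕ → Bool := onCell 1073741824 536870912 536870912 536870912 67108864 67108864
    (rowNK 3 0 true false false .pnn 2 1 3 (qsf 1073741824 536870912 536870912 536870912 3) ndN3q2 ndN3q1 pcN3 Cut.none Ext.none)

def k0_mm_213 : ∃ t, chk3 f_mm_213 t 1 1 1 = true :=
  ⟨(l 4), by decide +kernel⟩

theorem c_mm_213 : CertN 1073741824 536870912 536870912 536870912 67108864 67108864 3 true false false .pnn 2 1 3
    ndN3q2 ndN3q1 pcN3 Cut.none Ext.none :=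
  certNK0 (fam := true) (s1 := false) (s2 := false) (a := 2) (b := 1) (c := 3) (cn := .pnn) (n1 := ndN3q2) (n2 := ndN3q1) (pc := pcN3) (cut := Cut.none) (xt := Ext.none) (P1 := 1073741824) (W1 := 536870912) (P2 := 536870912) (W2 := 536870912) (P3 := 67108864) (W3 := 67108864) (N0 := 3)
    rfl rfl rfl k0_mm_213

noncomputable def f_mm_303 : ℕ → ℕ → ℕ → ℕ → Bool := onCell 0 1230186008 0 536870912 67108864 67108864
    (rowNK 3 0 true false false .npn 3 0 3 (qsf 0 1230186008 0 536870912 3) ndN3q3 ndN3q0 pcN3 Cut.none Ext.none)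

def k0_mm_303 : ∃ t, chk3 f_mm_303 t 1 1 1 = true :=
  ⟨(a (l 4) (l 4)), by decide +kernel⟩

theorem c_mm_303 : CertN 0 1230186008 0 536870912 67108864 67108864 3 true false false .npn 3 0 3
    ndN3q3 ndN3q0 pcN3 Cut.none Ext.none :=
  certNK0 (fam := true) (s1 := false) (s2 := false) (a := 3) (b := 0) (c := 3) (cn := .npn) (n1 := ndN3q3) (n2 := ndN3q0) (pc := pcN3) (cut := Cut.none) (xt := Ext.none) (P1 := 0) (W1 := 1230186008) (P2 := 0) (W2 := 536870912) (P3 := 67108864) (W3 := 67108864) (N0 := 3)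
    rfl rfl rfl k0_mm_303

noncomputable def f_mm_313 : ℕ → ℕ → ℕ → ℕ → Bool := onCell 0 1230186008 536870912 536870912 67108864 67108864
    (rowNK 3 0 true false false .dn 3 1 3 (qsf 0 1230186008 536870912 536870912 3) ndN3q3 ndN3q1 pcN3 Cut.none Ext.none)

def k0_mm_313 : ∃ t, chk3 f_mm_313 t 1 1 1 = true :=
  ⟨(l 4), by decide +kernel⟩

theorem c_mm_313 : CertN 0 1230186008 536870912 536870912 67108864 67108864 3 true false false .dn 3 1 3
    ndN3q3 ndN3q1 pcN3 Cut.none Ext.none :=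
  certNK0 (fam := true) (s1 := false) (s2 := false) (a := 3) (b := 1) (c := 3) (cn := .dn) (n1 := ndN3q3) (n2 := ndN3q1) (pc := pcN3) (cut := Cut.none) (xt := Ext.none) (P1 := 0) (W1 := 1230186008) (P2 := 536870912) (W2 := 536870912) (P3 := 67108864) (W3 := 67108864) (N0 := 3)
    rfl rfl rfl k0_mm_313

end Pool.Agent.Strip051.G.I1_16_1_8.Tab.C.NA33

namespace Pool.Agent.Strip051.G.I1_16_1_8.Tab.C.NA34

open Pool.Agent.Strip051.PB Pool.Agent.Strip051.PB.T
open Pool.Agent.Strip051.G.I1_16_1_8.Tab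

noncomputable def f_pp_001 : ℕ → ℕ → ℕ → ℕ → Bool := onCell 0 536870912 0 536870912 67108864 67108864
    (rowNK 3 0 true true true .up 0 0 1 (qsf 0 536870912 0 536870912 1) ndN3q0 ndN4q0 pcN1 Cut.none Ext.none)

def k0_pp_001 : ∃ t, chk3 f_pp_001 t 1 1 1 = true :=
  ⟨(l 4), by decide +kernel⟩

theorem c_pp_001 : CertN 0 536870912 0 536870912 67108864 67108864 3 true true true .up 0 0 1
    ndN3q0 ndN4q0 pcN1 Cut.none Ext.none :=
  certNK0 (fam := true) (s1 := true) (s2 := true) (a := 0) (b := 0) (c := 1) (cn := .up) (n1 := ndN3q0) (n2 := ndN4q0) (pc := pcN1) (cut := Cut.none) (xt := Ext.none) (P1 := 0) (W1 := 536870912) (P2 := 0) (W2 := 536870912) (P3 := 67108864) (W3 := 67108864) (N0 := 3)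
    rfl rfl rfl k0_pp_001

noncomputable def f_pp_011 : ℕ → ℕ → ℕ → ℕ → Bool := onCell 0 536870912 536870912 536870912 67108864 67108864
    (rowNK 3 0 true true true .pnn 0 1 1 (qsf 0 536870912 536870912 536870912 1) ndN3q0 ndN4q1 pcN1 Cut.none Ext.none)

def k0_pp_011 : ∃ t, chk3 f_pp_011 t 1 1 1 = true :=
  ⟨(l 4), by decide +kernel⟩

theorem c_pp_011 : CertN 0 536870912 536870912 536870912 67108864 67108864 3 true true true .pnn 0 1 1
    ndN3q0 ndN4q1 pcN1 Cut.none Ext.none :=
  certNK0 (fam := true) (s1 := true) (s2 := true) (a := 0) (b := 1) (c := 1) (cn := .pnn) (n1 := ndN3q0) (n2 := ndN4q1) (pc := pcN1) (cut := Cut.none) (xt := Ext.none) (P1 := 0) (W1 := 536870912) (P2 := 536870912) (W2 := 536870912) (P3 := 67108864) (W3 := 67108864) (N0 := 3)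
    rfl rfl rfl k0_pp_011

noncomputable def f_pp_012 : ℕ → ℕ → ℕ → ℕ → Bool := onCell 0 536870912 536870912 536870912 67108864 67108864
    (rowNK 3 0 true true true .pnp 0 1 2 (qsf 0 536870912 536870912 536870912 2) ndN3q0 ndN4q1 pcN2 Cut.none Ext.none)

def k0_pp_012 : ∃ t, chk3 f_pp_012 t 1 1 1 = true :=
  ⟨(l 4), by decide +kernel⟩

theorem c_pp_012 : CertN 0 536870912 536870912 536870912 67108864 67108864 3 true true true .pnp 0 1 2
    ndN3q0 ndN4q1 pcN2 Cut.none Ext.none :=
  certNK0 (fam := true) (s1 := true) (s2 := true) (a := 0) (b := 1) (c := 2) (cn := .pnp) (n1 := ndN3q0) (n2 := ndN4q1) (pc := pcN2) (cut := Cut.none) (xt := Ext.none) (P1 := 0) (W1 := 536870912) (P2 := 536870912) (W2 := 536870912) (P3 := 67108864) (W3 := 67108864) (N0 := 3)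
    rfl rfl rfl k0_pp_012

noncomputable def f_pp_022 : ℕ → ℕ → ℕ → ℕ → Bool := onCell 0 536870912 1073741824 536870912 67108864 67108864
    (rowNK 3 0 true true true .pp 0 2 2 (qsf 0 536870912 1073741824 536870912 2) ndN3q0 ndN4q2 pcN2 Cut.none Ext.none)

def k0_pp_022 : ∃ t, chk3 f_pp_022 t 1 1 1 = true :=
  ⟨(l 4), by decide +kernel⟩

theorem c_pp_022 : CertN 0 536870912 1073741824 536870912 67108864 67108864 3 true true true .pp 0 2 2
    ndN3q0 ndN4q2 pcN2 Cut.none Ext.none :=
  certNK0 (fam := true) (s1 := true) (s2 := true) (a := 0) (b := 2) (c := 2) (cn := .pp) (n1 := ndN3q0) (n2 := ndN4q2) (pc := pcN2) (cut := Cut.none) (xt := Ext.none) (P1 := 0) (W1 := 536870912) (P2 := 1073741824) (W2 := 536870912) (P3 := 67108864) (W3 := 67108864) (N0 := 3)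
    rfl rfl rfl k0_pp_022

noncomputable def f_pp_023 : ℕ → ℕ → ℕ → ℕ → Bool := onCell 0 536870912 1073741824 536870912 67108864 67108864
    (rowNK 3 0 true true true .up 0 2 3 (qsf 0 536870912 1073741824 536870912 3) ndN3q0 ndN4q2 pcN3 Cut.none Ext.none)

def k0_pp_023 : ∃ t, chk3 f_pp_023 t 1 1 1 = true :=
  ⟨(l 4), by decide +kernel⟩

theorem c_pp_023 : CertN 0 536870912 1073741824 536870912 67108864 67108864 3 true true true .up 0 2 3
    ndN3q0 ndN4q2 pcN3 Cut.none Ext.none :=
  certNK0 (fam := true) (s1 := true) (s2 := true) (a := 0) (b := 2) (c := 3) (cn := .up) (n1 := ndN3q0) (n2 := ndN4q2) (pc := pcN3) (cut := Cut.none) (xt := Ext.none) (P1 := 0) (W1 := 536870912) (P2 := 1073741824) (W2 := 536870912) (P3 := 67108864) (W3 := 67108864) (N0 := 3)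
    rfl rfl rfl k0_pp_023

noncomputable def f_pp_033 : ℕ → ℕ → ℕ → ℕ → Bool := onCell 0 536870912 0 1230186008 67108864 67108864
    (rowNK 3 0 true true true .pnn 0 3 3 (qsf 0 536870912 0 1230186008 3) ndN3q0 ndN4q3 pcN3 Cut.none Ext.none)

def k0_pp_033 : ∃ t, chk3 f_pp_033 t 1 1 1 = true :=
  ⟨(l 4), by decide +kernel⟩

theorem c_pp_033 : CertN 0 536870912 0 1230186008 67108864 67108864 3 true true true .pnn 0 3 3
    ndN3q0 ndN4q3 pcN3 Cut.none Ext.none :=
  certNK0 (fam := true) (s1 := true) (s2 := true) (a := 0) (b := 3) (c := 3) (cn := .pnn) (n1 := ndN3q0) (n2 := ndN4q3) (pc := pcN3) (cut := Cut.none) (xt := Ext.none) (P1 := 0) (W1 := 536870912) (P2 := 0) (W2 := 1230186008) (P3 := 67108864) (W3 := 67108864) (N0 := 3)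
    rfl rfl rfl k0_pp_033

noncomputable def f_pp_101 : ℕ → ℕ → ℕ → ℕ → Bool := onCell 536870912 536870912 0 536870912 67108864 67108864
    (rowNK 3 0 true true true .npn 1 0 1 (qsf 536870912 536870912 0 536870912 1) ndN3q1 ndN4q0 pcN1 Cut.none Ext.none)

def k0_pp_101 : ∃ t, chk3 f_pp_101 t 1 1 1 = true :=
  ⟨(l 4), by decide +kernel⟩

theorem c_pp_101 : CertN 536870912 536870912 0 536870912 67108864 67108864 3 true true true .npn 1 0 1
    ndN3q1 ndN4q0 pcN1 Cut.none Ext.none :=
  certNK0 (fam := true) (s1 := true) (s2 := true) (a := 1) (b := 0) (c := 1) (cn := .npn) (n1 := ndN3q1) (n2 := ndN4q0) (pc := pcN1) (cut := Cut.none) (xt := Ext.none) (P1 := 536870912) (W1 := 536870912) (P2 := 0) (W2 := 536870912) (P3 := 67108864) (W3 := 67108864) (N0 := 3)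
    rfl rfl rfl k0_pp_101

noncomputable def f_pp_102 : ℕ → ℕ → ℕ → ℕ → Bool := onCell 536870912 536870912 0 536870912 67108864 67108864
    (rowNK 3 0 true true true .npp 1 0 2 (qsf 536870912 536870912 0 536870912 2) ndN3q1 ndN4q0 pcN2 Cut.none Ext.none)

def k0_pp_102 : ∃ t, chk3 f_pp_102 t 1 1 1 = true :=
  ⟨(l 4), by decide +kernel⟩

theorem c_pp_102 : CertN 536870912 536870912 0 536870912 67108864 67108864 3 true true true .npp 1 0 2
    ndN3q1 ndN4q0 pcN2 Cut.none Ext.none :=
  certNK0 (fam := true) (s1 := true) (s2 := true) (a := 1) (b := 0) (c := 2) (cn := .npp) (n1 := ndN3q1) (n2 := ndN4q0) (pc := pcN2) (cut := Cut.none) (xt := Ext.none) (P1 := 536870912) (W1 := 536870912) (P2 := 0) (W2 := 536870912) (P3 := 67108864) (W3 := 67108864) (N0 := 3)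
    rfl rfl rfl k0_pp_102

noncomputable def f_pp_112 : ℕ → ℕ → ℕ → ℕ → Bool := onCell 536870912 536870912 536870912 536870912 67108864 67108864
    (rowNK 3 0 true true true .dn 1 1 2 (qsf 536870912 536870912 536870912 536870912 2) ndN3q1 ndN4q1 pcN2 Cut.none Ext.none)

def k0_pp_112 : ∃ t, chk3 f_pp_112 t 1 1 1 = true :=
  ⟨(l 4), by decide +kernel⟩

theorem c_pp_112 : CertN 536870912 536870912 536870912 536870912 67108864 67108864 3 true true true .dn 1 1 2
    ndN3q1 ndN4q1 pcN2 Cut.none Ext.none :=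
  certNK0 (fam := true) (s1 := true) (s2 := true) (a := 1) (b := 1) (c := 2) (cn := .dn) (n1 := ndN3q1) (n2 := ndN4q1) (pc := pcN2) (cut := Cut.none) (xt := Ext.none) (P1 := 536870912) (W1 := 536870912) (P2 := 536870912) (W2 := 536870912) (P3 := 67108864) (W3 := 67108864) (N0 := 3)
    rfl rfl rfl k0_pp_112

noncomputable def f_pp_113 : ℕ → ℕ → ℕ → ℕ → Bool := onCell 536870912 536870912 536870912 536870912 67108864 67108864
    (rowNK 3 0 true true true .nn 1 1 3 (qsf 536870912 536870912 536870912 536870912 3) ndN3q1 ndN4q1 pcN3 Cut.none Ext.none)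

def k0_pp_113 : ∃ t, chk3 f_pp_113 t 1 1 1 = true :=
  ⟨(l 4), by decide +kernel⟩

theorem c_pp_113 : CertN 536870912 536870912 536870912 536870912 67108864 67108864 3 true true true .nn 1 1 3
    ndN3q1 ndN4q1 pcN3 Cut.none Ext.none :=
  certNK0 (fam := true) (s1 := true) (s2 := true) (a := 1) (b := 1) (c := 3) (cn := .nn) (n1 := ndN3q1) (n2 := ndN4q1) (pc := pcN3) (cut := Cut.none) (xt := Ext.none) (P1 := 536870912) (W1 := 536870912) (P2 := 536870912) (W2 := 536870912) (P3 := 67108864) (W3 := 67108864) (N0 := 3)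
    rfl rfl rfl k0_pp_113

noncomputable def f_pp_123 : ℕ → ℕ → ℕ → ℕ → Bool := onCell 536870912 536870912 1073741824 536870912 67108864 67108864
    (rowNK 3 0 true true true .npn 1 2 3 (qsf 536870912 536870912 1073741824 536870912 3) ndN3q1 ndN4q2 pcN3 Cut.none Ext.none)

def k0_pp_123 : ∃ t, chk3 f_pp_123 t 1 1 1 = true :=
  ⟨(l 4), by decide +kernel⟩

theorem c_pp_123 : CertN 536870912 536870912 1073741824 536870912 67108864 67108864 3 true true true .npn 1 2 3
    ndN3q1 ndN4q2 pcN3 Cut.none Ext.none :=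
  certNK0 (fam := true) (s1 := true) (s2 := true) (a := 1) (b := 2) (c := 3) (cn := .npn) (n1 := ndN3q1) (n2 := ndN4q2) (pc := pcN3) (cut := Cut.none) (xt := Ext.none) (P1 := 536870912) (W1 := 536870912) (P2 := 1073741824) (W2 := 536870912) (P3 := 67108864) (W3 := 67108864) (N0 := 3)
    rfl rfl rfl k0_pp_123

noncomputable def f_pp_133 : ℕ → ℕ → ℕ → ℕ → Bool := onCell 536870912 536870912 0 1230186008 67108864 67108864
    (rowNK 3 0 true true true .dn 1 3 3 (qsf 536870912 536870912 0 1230186008 3) ndN3q1 ndN4q3 pcN3 Cut.none Ext.none)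

def k0_pp_133 : ∃ t, chk3 f_pp_133 t 1 1 1 = true :=
  ⟨(l 4), by decide +kernel⟩

theorem c_pp_133 : CertN 536870912 536870912 0 1230186008 67108864 67108864 3 true true true .dn 1 3 3
    ndN3q1 ndN4q3 pcN3 Cut.none Ext.none :=
  certNK0 (fam := true) (s1 := true) (s2 := true) (a := 1) (b := 3) (c := 3) (cn := .dn) (n1 := ndN3q1) (n2 := ndN4q3) (pc := pcN3) (cut := Cut.none) (xt := Ext.none) (P1 := 536870912) (W1 := 536870912) (P2 := 0) (W2 := 1230186008) (P3 := 67108864) (W3 := 67108864) (N0 := 3)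
    rfl rfl rfl k0_pp_133

noncomputable def f_pp_202 : ℕ → ℕ → ℕ → ℕ → Bool := onCell 1073741824 536870912 0 536870912 67108864 67108864
    (rowNK 3 0 true true true .pp 2 0 2 (qsf 1073741824 536870912 0 536870912 2) ndN3q2 ndN4q0 pcN2 Cut.none Ext.none)

def k0_pp_202 : ∃ t, chk3 f_pp_202 t 1 1 1 = true :=
  ⟨(l 4), by decide +kernel⟩

theorem c_pp_202 : CertN 1073741824 536870912 0 536870912 67108864 67108864 3 true true true .pp 2 0 2
    ndN3q2 ndN4q0 pcN2 Cut.none Ext.none :=
  certNK0 (fam := true) (s1 := true) (s2 := true) (a := 2) (b := 0) (c := 2) (cn := .pp) (n1 := ndN3q2) (n2 := ndN4q0) (pc := pcN2) (cut := Cut.none) (xt := Ext.none) (P1 := 1073741824) (W1 := 536870912) (P2 := 0) (W2 := 536870912) (P3 := 67108864) (W3 := 67108864) (N0 := 3)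
    rfl rfl rfl k0_pp_202

noncomputable def f_pp_203 : ℕ → ℕ → ℕ → ℕ → Bool := onCell 1073741824 536870912 0 536870912 67108864 67108864
    (rowNK 3 0 true true true .up 2 0 3 (qsf 1073741824 536870912 0 536870912 3) ndN3q2 ndN4q0 pcN3 Cut.none Ext.none)

def k0_pp_203 : ∃ t, chk3 f_pp_203 t 1 1 1 = true :=
  ⟨(l 4), by decide +kernel⟩

theorem c_pp_203 : CertN 1073741824 536870912 0 536870912 67108864 67108864 3 true true true .up 2 0 3
    ndN3q2 ndN4q0 pcN3 Cut.none Ext.none :=
  certNK0 (fam := true) (s1 := true) (s2 := true) (a := 2) (b := 0) (c := 3) (cn := .up) (n1 := ndN3q2) (n2 := ndN4q0) (pc := pcN3) (cut := Cut.none) (xt := Ext.none) (P1 := 1073741824) (W1 := 536870912) (P2 := 0) (W2 := 536870912) (P3 := 67108864) (W3 := 67108864) (N0 := 3)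
    rfl rfl rfl k0_pp_203

noncomputable def f_pp_213 : ℕ → ℕ → ℕ → ℕ → Bool := onCell 1073741824 536870912 536870912 536870912 67108864 67108864
    (rowNK 3 0 true true true .pnn 2 1 3 (qsf 1073741824 536870912 536870912 536870912 3) ndN3q2 ndN4q1 pcN3 Cut.none Ext.none)

def k0_pp_213 : ∃ t, chk3 f_pp_213 t 1 1 1 = true :=
  ⟨(l 4), by decide +kernel⟩

theorem c_pp_213 : CertN 1073741824 536870912 536870912 536870912 67108864 67108864 3 true true true .pnn 2 1 3
    ndN3q2 ndN4q1 pcN3 Cut.none Ext.none :=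
  certNK0 (fam := true) (s1 := true) (s2 := true) (a := 2) (b := 1) (c := 3) (cn := .pnn) (n1 := ndN3q2) (n2 := ndN4q1) (pc := pcN3) (cut := Cut.none) (xt := Ext.none) (P1 := 1073741824) (W1 := 536870912) (P2 := 536870912) (W2 := 536870912) (P3 := 67108864) (W3 := 67108864) (N0 := 3)
    rfl rfl rfl k0_pp_213

noncomputable def f_pp_303 : ℕ → ℕ → ℕ → ℕ → Bool := onCell 0 1230186008 0 536870912 67108864 67108864
    (rowNK 3 0 true true true .npn 3 0 3 (qsf 0 1230186008 0 536870912 3) ndN3q3 ndN4q0 pcN3 Cut.none Ext.none)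

def k0_pp_303 : ∃ t, chk3 f_pp_303 t 1 1 1 = true :=
  ⟨(l 4), by decide +kernel⟩

theorem c_pp_303 : CertN 0 1230186008 0 536870912 67108864 67108864 3 true true true .npn 3 0 3
    ndN3q3 ndN4q0 pcN3 Cut.none Ext.none :=
  certNK0 (fam := true) (s1 := true) (s2 := true) (a := 3) (b := 0) (c := 3) (cn := .npn) (n1 := ndN3q3) (n2 := ndN4q0) (pc := pcN3) (cut := Cut.none) (xt := Ext.none) (P1 := 0) (W1 := 1230186008) (P2 := 0) (W2 := 536870912) (P3 := 67108864) (W3 := 67108864) (N0 := 3)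
    rfl rfl rfl k0_pp_303

noncomputable def f_pp_313 : ℕ → ℕ → ℕ → ℕ → Bool := onCell 0 1230186008 536870912 536870912 67108864 67108864
    (rowNK 3 0 true true true .dn 3 1 3 (qsf 0 1230186008 536870912 536870912 3) ndN3q3 ndN4q1 pcN3 Cut.none Ext.none)

def k0_pp_313 : ∃ t, chk3 f_pp_313 t 1 1 1 = true :=
  ⟨(l 4), by decide +kernel⟩

theorem c_pp_313 : CertN 0 1230186008 536870912 536870912 67108864 67108864 3 true true true .dn 3 1 3
    ndN3q3 ndN4q1 pcN3 Cut.none Ext.none :=
  certNK0 (fam := true) (s1 := true) (s2 := true) (a := 3) (b := 1) (c := 3) (cn := .dn) (n1 := ndN3q3) (n2 := ndN4q1) (pc := pcN3) (cut := Cut.none) (xt := Ext.none) (P1 := 0) (W1 := 1230186008) (P2 := 536870912) (W2 := 536870912) (P3 := 67108864) (W3 := 67108864) (N0 := 3)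
    rfl rfl rfl k0_pp_313

noncomputable def f_pm_001 : ℕ → ℕ → ℕ → ℕ → Bool := onCell 0 536870912 0 536870912 67108864 67108864
    (rowNK 3 0 true true false .up 0 0 1 (qsf 0 536870912 0 536870912 1) ndN3q0 ndN4q0 pcN1 Cut.none Ext.none)

def k0_pm_001 : ∃ t, chk3 f_pm_001 t 1 1 1 = true :=
  ⟨(l 3), by decide +kernel⟩

theorem c_pm_001 : CertN 0 536870912 0 536870912 67108864 67108864 3 true true false .up 0 0 1
    ndN3q0 ndN4q0 pcN1 Cut.none Ext.none :=
  certNK0 (fam := true) (s1 := true) (s2 := false) (a := 0) (b := 0) (c := 1) (cn := .up) (n1 := ndN3q0) (n2 := ndN4q0) (pc := pcN1) (cut := Cut.none) (xt := Ext.none) (P1 := 0) (W1 := 536870912) (P2 := 0) (W2 := 536870912) (P3 := 67108864) (W3 := 67108864) (N0 := 3)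
    rfl rfl rfl k0_pm_001

noncomputable def f_pm_011 : ℕ → ℕ → ℕ → ℕ → Bool := onCell 0 536870912 536870912 536870912 67108864 67108864
    (rowNK 3 1 true true false .pnn 0 1 1 (qsf 0 536870912 536870912 536870912 1) ndN3q0 ndN4q1 pcN1 Cut.none Ext.none)

def k0_pm_011 : ∃ t, chk3 f_pm_011 t 1 1 1 = true :=
  ⟨(l 3), by decide +kernel⟩

theorem c_pm_011 : CertN 0 536870912 536870912 536870912 67108864 67108864 3 true true false .pnn 0 1 1
    ndN3q0 ndN4q1 pcN1 Cut.none Ext.none :=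
  certNK1 (fam := true) (s1 := true) (s2 := false) (a := 0) (b := 1) (c := 1) (cn := .pnn) (n1 := ndN3q0) (n2 := ndN4q1) (pc := pcN1) (cut := Cut.none) (xt := Ext.none) (P1 := 0) (W1 := 536870912) (P2 := 536870912) (W2 := 536870912) (P3 := 67108864) (W3 := 67108864) (N0 := 3)
    rfl rfl rfl (fun _ => rfl) k0_pm_011

noncomputable def f_pm_012 : ℕ → ℕ → ℕ → ℕ → Bool := onCell 1073741824 536870912 536870912 536870912 67108864 67108864
    (rowNK 3 2 true true false .pnp 0 1 2 (qsf 0 536870912 536870912 536870912 2) ndN3q0 ndN4q1 pcN2 Cut.none Ext.none)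

def k0_pm_012 : ∃ t, chk3 f_pm_012 t 1 1 1 = true :=
  ⟨(b (a (a (l 3) (b (l 17788104) (l 18237832))) (l 18294640)) (a (a (l 3) (a (b (l 18739472) (a (l 19188232) (l 19121120))) (l 18998472))) (b (l 19045816) (l 19544720)))), by decide +kernel⟩

theorem c_pm_012 : CertN 0 536870912 536870912 536870912 67108864 67108864 3 true true false .pnp 0 1 2
    ndN3q0 ndN4q1 pcN2 Cut.none Ext.none :=
  certNK2 (fam := true) (s1 := true) (s2 := false) (a := 0) (b := 1) (c := 2) (cn := .pnp) (n1 := ndN3q0) (n2 := ndN4q1) (pc := pcN2) (cut := Cut.none) (xt := Ext.none) (P1 := 0) (W1 := 536870912) (P2 := 536870912) (W2 := 536870912) (P3 := 67108864) (W3 := 67108864) (N0 := 3)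
    rfl rfl rfl (fun _ => rfl) k0_pm_012

noncomputable def f_pm_022 : ℕ → ℕ → ℕ → ℕ → Bool := onCell 0 536870912 1073741824 536870912 67108864 67108864
    (rowNK 3 1 true true false .pp 0 2 2 (qsf 0 536870912 1073741824 536870912 2) ndN3q0 ndN4q2 pcN2 Cut.none Ext.none)

def k0_pm_022 : ∃ t, chk3 f_pm_022 t 1 1 1 = true :=
  ⟨(b (b (l 3) (a (b (b (b (l 3) (a (l 221363773815) (l 19582216))) (a (l 18995688) (l 19331768))) (a (l 18850688) (l 19274512))) (b (l 1) (l 20038504)))) (a (a (b (l 18547392) (l 18098992)) (b (l 19003008) (l 18615672))) (a (b (l 19654416) (l 19322864)) (l 20090328)))), by decide +kernel⟩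

theorem c_pm_022 : CertN 0 536870912 1073741824 536870912 67108864 67108864 3 true true false .pp 0 2 2
    ndN3q0 ndN4q2 pcN2 Cut.none Ext.none :=
  certNK1 (fam := true) (s1 := true) (s2 := false) (a := 0) (b := 2) (c := 2) (cn := .pp) (n1 := ndN3q0) (n2 := ndN4q2) (pc := pcN2) (cut := Cut.none) (xt := Ext.none) (P1 := 0) (W1 := 536870912) (P2 := 1073741824) (W2 := 536870912) (P3 := 67108864) (W3 := 67108864) (N0 := 3)
    rfl rfl rfl (fun _ => rfl) k0_pm_022

noncomputable def f_pm_023 : ℕ → ℕ → ℕ → ℕ → Bool := onCell 1610612736 536870912 1073741824 536870912 67108864 67108864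
    (rowNK 3 2 true true false .up 0 2 3 (qsf 0 536870912 1073741824 536870912 3) ndN3q0 ndN4q2 pcN3 Cut.none Ext.none)

def k0_pm_023 : ∃ t, chk3 f_pm_023 t 1 1 1 = true :=
  ⟨(a (b (a (l 19630904) (b (l 19929480) (l 19445888))) (a (b (l 18506848) (a (l 17462080) (l 17744912))) (a (l 18515512) (l 18594472)))) (a (b (b (l 2) (l 19482688)) (b (l 19039192) (l 18418032))) (b (l 2) (a (l 18859544) (l 89762763159))))), by decide +kernel⟩

theorem c_pm_023 : CertN 0 536870912 1073741824 536870912 67108864 67108864 3 true true false .up 0 2 3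
    ndN3q0 ndN4q2 pcN3 Cut.none Ext.none :=
  certNK2 (fam := true) (s1 := true) (s2 := false) (a := 0) (b := 2) (c := 3) (cn := .up) (n1 := ndN3q0) (n2 := ndN4q2) (pc := pcN3) (cut := Cut.none) (xt := Ext.none) (P1 := 0) (W1 := 536870912) (P2 := 1073741824) (W2 := 536870912) (P3 := 67108864) (W3 := 67108864) (N0 := 3)
    rfl rfl rfl (fun _ => rfl) k0_pm_023

noncomputable def f_pm_033 : ℕ → ℕ → ℕ → ℕ → Bool := onCell 1610612736 536870912 0 1230186008 67108864 67108864
    (rowNK 3 2 true true false .pnn 0 3 3 (qsf 0 536870912 0 1230186008 3) ndN3q0 ndN4q3 pcN3 Cut.none Ext.none)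

def k0_pm_033 : ∃ t, chk3 f_pm_033 t 1 1 1 = true :=
  ⟨(a (b (l 1) (b (b (l 1) (a (l 1) (a (l 1) (a (l 1) (l 17666840))))) (b (a (l 1) (a (a (l 17671368) (l 17620352)) (l 17143352))) (a (a (l 17456360) (b (l 17472368) (l 17295280))) (a (l 17782576) (l 17578352)))))) (a (b (l 1) (b (b (l 879967450599) (l 405372857383)) (b (a (l 17164536) (l 16883768)) (l 17569712)))) (b (a (l 17837296) (l 4)) (b (a (l 17324728) (l 4)) (a (l 17472424) (a (l 17617248) (l 4))))))), by decide +kernel⟩

theorem c_pm_033 : CertN 0 536870912 0 1230186008 67108864 67108864 3 true true false .pnn 0 3 3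
    ndN3q0 ndN4q3 pcN3 Cut.none Ext.none :=
  certNK2 (fam := true) (s1 := true) (s2 := false) (a := 0) (b := 3) (c := 3) (cn := .pnn) (n1 := ndN3q0) (n2 := ndN4q3) (pc := pcN3) (cut := Cut.none) (xt := Ext.none) (P1 := 0) (W1 := 536870912) (P2 := 0) (W2 := 1230186008) (P3 := 67108864) (W3 := 67108864) (N0 := 3)
    rfl rfl rfl (fun _ => rfl) k0_pm_033

noncomputable def f_pm_101 : ℕ → ℕ → ℕ → ℕ → Bool := onCell 536870912 536870912 536870912 536870912 67108864 67108864
    (rowNK 3 1 true true false .npn 1 0 1 (qsf 536870912 536870912 0 536870912 1) ndN3q1 ndN4q0 pcN1 Cut.none Ext.none)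

def k0_pm_101 : ∃ t, chk3 f_pm_101 t 1 1 1 = true :=
  ⟨(l 3), by decide +kernel⟩

theorem c_pm_101 : CertN 536870912 536870912 0 536870912 67108864 67108864 3 true true false .npn 1 0 1
    ndN3q1 ndN4q0 pcN1 Cut.none Ext.none :=
  certNK1 (fam := true) (s1 := true) (s2 := false) (a := 1) (b := 0) (c := 1) (cn := .npn) (n1 := ndN3q1) (n2 := ndN4q0) (pc := pcN1) (cut := Cut.none) (xt := Ext.none) (P1 := 536870912) (W1 := 536870912) (P2 := 0) (W2 := 536870912) (P3 := 67108864) (W3 := 67108864) (N0 := 3)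
    rfl rfl rfl (fun _ => rfl) k0_pm_101

noncomputable def f_pm_102 : ℕ → ℕ → ℕ → ℕ → Bool := onCell 1073741824 536870912 0 536870912 67108864 67108864
    (rowNK 3 2 true true false .npp 1 0 2 (qsf 536870912 536870912 0 536870912 2) ndN3q1 ndN4q0 pcN2 Cut.none Ext.none)

def k0_pm_102 : ∃ t, chk3 f_pm_102 t 1 1 1 = true :=
  ⟨(a (b (a (l 19497288) (a (l 19647224) (l 19708760))) (a (l 3) (a (l 294378167383) (l 19020312)))) (b (a (l 19928408) (l 2)) (b (l 19612880) (l 18801072)))), by decide +kernel⟩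

theorem c_pm_102 : CertN 536870912 536870912 0 536870912 67108864 67108864 3 true true false .npp 1 0 2
    ndN3q1 ndN4q0 pcN2 Cut.none Ext.none :=
  certNK2 (fam := true) (s1 := true) (s2 := false) (a := 1) (b := 0) (c := 2) (cn := .npp) (n1 := ndN3q1) (n2 := ndN4q0) (pc := pcN2) (cut := Cut.none) (xt := Ext.none) (P1 := 536870912) (W1 := 536870912) (P2 := 0) (W2 := 536870912) (P3 := 67108864) (W3 := 67108864) (N0 := 3)
    rfl rfl rfl (fun _ => rfl) k0_pm_102

noncomputable def f_pm_112 : ℕ → ℕ → ℕ → ℕ → Bool := onCell 1073741824 536870912 536870912 536870912 67108864 67108864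
    (rowNK 3 2 true true false .dn 1 1 2 (qsf 536870912 536870912 536870912 536870912 2) ndN3q1 ndN4q1 pcN2 Cut.none Ext.none)

def k0_pm_112 : ∃ t, chk3 f_pm_112 t 1 1 1 = true :=
  ⟨(a (a (b (l 3) (l 1)) (b (l 19210280) (l 549794800215))) (l 18714960)), by decide +kernel⟩

theorem c_pm_112 : CertN 536870912 536870912 536870912 536870912 67108864 67108864 3 true true false .dn 1 1 2
    ndN3q1 ndN4q1 pcN2 Cut.none Ext.none :=
  certNK2 (fam := true) (s1 := true) (s2 := false) (a := 1) (b := 1) (c := 2) (cn := .dn) (n1 := ndN3q1) (n2 := ndN4q1) (pc := pcN2) (cut := Cut.none) (xt := Ext.none) (P1 := 536870912) (W1 := 536870912) (P2 := 536870912) (W2 := 536870912) (P3 := 67108864) (W3 := 67108864) (N0 := 3)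
    rfl rfl rfl (fun _ => rfl) k0_pm_112

noncomputable def f_pm_113 : ℕ → ℕ → ℕ → ℕ → Bool := onCell 536870912 536870912 536870912 536870912 67108864 67108864
    (rowNK 3 0 true true false .nn 1 1 3 (qsf 536870912 536870912 536870912 536870912 3) ndN3q1 ndN4q1 pcN3 Cut.none Ext.none)

def k0_pm_113 : ∃ t, chk3 f_pm_113 t 1 1 1 = true :=
  ⟨(a (b (l 512213284167) (l 18361496)) (b (l 18570768) (a (l 17793232) (b (l 17559464) (a (l 17336640) (b (l 17263088) (b (l 17094056) (a (l 16998600) (l 16895984))))))))), by decide +kernel⟩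

theorem c_pm_113 : CertN 536870912 536870912 536870912 536870912 67108864 67108864 3 true true false .nn 1 1 3
    ndN3q1 ndN4q1 pcN3 Cut.none Ext.none :=
  certNK0 (fam := true) (s1 := true) (s2 := false) (a := 1) (b := 1) (c := 3) (cn := .nn) (n1 := ndN3q1) (n2 := ndN4q1) (pc := pcN3) (cut := Cut.none) (xt := Ext.none) (P1 := 536870912) (W1 := 536870912) (P2 := 536870912) (W2 := 536870912) (P3 := 67108864) (W3 := 67108864) (N0 := 3)
    rfl rfl rfl k0_pm_113

noncomputable def f_pm_123 : ℕ → ℕ → ℕ → ℕ → Bool := onCell 536870912 536870912 1610612736 536870912 67108864 67108864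
    (rowNK 3 1 true true false .npn 1 2 3 (qsf 536870912 536870912 1073741824 536870912 3) ndN3q1 ndN4q2 pcN3 Cut.none Ext.none)

def k0_pm_123 : ∃ t, chk3 f_pm_123 t 1 1 1 = true :=
  ⟨(b (a (b (l 18439648) (a (l 17800096) (l 17956168))) (b (l 1) (l 18009224))) (b (a (a (l 17302688) (l 17537464)) (a (l 17445216) (l 17629640))) (a (b (l 17113544) (b (l 16824656) (l 16907544))) (b (l 17338208) (b (l 16937168) (a (l 16808424) (l 16845624))))))), by decide +kernel⟩

theorem c_pm_123 : CertN 536870912 536870912 1073741824 536870912 67108864 67108864 3 true true false .npn 1 2 3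
    ndN3q1 ndN4q2 pcN3 Cut.none Ext.none :=
  certNK1 (fam := true) (s1 := true) (s2 := false) (a := 1) (b := 2) (c := 3) (cn := .npn) (n1 := ndN3q1) (n2 := ndN4q2) (pc := pcN3) (cut := Cut.none) (xt := Ext.none) (P1 := 536870912) (W1 := 536870912) (P2 := 1073741824) (W2 := 536870912) (P3 := 67108864) (W3 := 67108864) (N0 := 3)
    rfl rfl rfl (fun _ => rfl) k0_pm_123

noncomputable def f_pm_133 : ℕ → ℕ → ℕ → ℕ → Bool := onCell 536870912 536870912 0 1230186008 67108864 67108864
    (rowNK 3 0 true true false .dn 1 3 3 (qsf 536870912 536870912 0 1230186008 3) ndN3q1 ndN4q3 pcN3 Cut.none Ext.none)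

def k0_pm_133 : ∃ t, chk3 f_pm_133 t 1 1 1 = true :=
  ⟨(b (l 2) (b (l 2) (a (l 4) (l 2)))), by decide +kernel⟩

theorem c_pm_133 : CertN 536870912 536870912 0 1230186008 67108864 67108864 3 true true false .dn 1 3 3
    ndN3q1 ndN4q3 pcN3 Cut.none Ext.none :=
  certNK0 (fam := true) (s1 := true) (s2 := false) (a := 1) (b := 3) (c := 3) (cn := .dn) (n1 := ndN3q1) (n2 := ndN4q3) (pc := pcN3) (cut := Cut.none) (xt := Ext.none) (P1 := 536870912) (W1 := 536870912) (P2 := 0) (W2 := 1230186008) (P3 := 67108864) (W3 := 67108864) (N0 := 3)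
    rfl rfl rfl k0_pm_133

noncomputable def f_pm_202 : ℕ → ℕ → ℕ → ℕ → Bool := onCell 1073741824 536870912 0 536870912 67108864 67108864
    (rowNK 3 2 true true false .pp 2 0 2 (qsf 1073741824 536870912 0 536870912 2) ndN3q2 ndN4q0 pcN2 Cut.none Ext.none)

def k0_pm_202 : ∃ t, chk3 f_pm_202 t 1 1 1 = true :=
  ⟨(a (b (a (a (a (l 19614568) (l 19443544)) (l 19202648)) (l 154119999335)) (a (l 1) (l 547647272311))) (b (a (l 18291408) (l 17977144)) (a (l 18705496) (l 18214296)))), by decide +kernel⟩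

theorem c_pm_202 : CertN 1073741824 536870912 0 536870912 67108864 67108864 3 true true false .pp 2 0 2
    ndN3q2 ndN4q0 pcN2 Cut.none Ext.none :=
  certNK2 (fam := true) (s1 := true) (s2 := false) (a := 2) (b := 0) (c := 2) (cn := .pp) (n1 := ndN3q2) (n2 := ndN4q0) (pc := pcN2) (cut := Cut.none) (xt := Ext.none) (P1 := 1073741824) (W1 := 536870912) (P2 := 0) (W2 := 536870912) (P3 := 67108864) (W3 := 67108864) (N0 := 3)
    rfl rfl rfl (fun _ => rfl) k0_pm_202

noncomputable def f_pm_203 : ℕ → ℕ → ℕ → ℕ → Bool := onCell 1610612736 536870912 0 536870912 67108864 67108864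
    (rowNK 3 2 true true false .up 2 0 3 (qsf 1073741824 536870912 0 536870912 3) ndN3q2 ndN4q0 pcN3 Cut.none Ext.none)

def k0_pm_203 : ∃ t, chk3 f_pm_203 t 1 1 1 = true :=
  ⟨(a (b (a (l 17484872) (a (l 17185392) (l 4))) (a (l 17229192) (a (l 17319584) (l 17293152)))) (a (b (l 4) (l 17022672)) (a (l 4) (l 4)))), by decide +kernel⟩

theorem c_pm_203 : CertN 1073741824 536870912 0 536870912 67108864 67108864 3 true true false .up 2 0 3
    ndN3q2 ndN4q0 pcN3 Cut.none Ext.none :=
  certNK2 (fam := true) (s1 := true) (s2 := false) (a := 2) (b := 0) (c := 3) (cn := .up) (n1 := ndN3q2) (n2 := ndN4q0) (pc := pcN3) (cut := Cut.none) (xt := Ext.none) (P1 := 1073741824) (W1 := 536870912) (P2 := 0) (W2 := 536870912) (P3 := 67108864) (W3 := 67108864) (N0 := 3)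
    rfl rfl rfl (fun _ => rfl) k0_pm_203

noncomputable def f_pm_213 : ℕ → ℕ → ℕ → ℕ → Bool := onCell 1073741824 536870912 1610612736 536870912 67108864 67108864
    (rowNK 3 1 true true false .pnn 2 1 3 (qsf 1073741824 536870912 536870912 536870912 3) ndN3q2 ndN4q1 pcN3 Cut.none Ext.none)

def k0_pm_213 : ∃ t, chk3 f_pm_213 t 1 1 1 = true :=
  ⟨(a (b (b (l 17507400) (a (l 17457704) (l 17395720))) (b (b (l 17594688) (l 17460200)) (l 4))) (b (b (l 1) (b (l 1) (l 17231864))) (b (l 17021528) (l 4)))), by decide +kernel⟩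

theorem c_pm_213 : CertN 1073741824 536870912 536870912 536870912 67108864 67108864 3 true true false .pnn 2 1 3
    ndN3q2 ndN4q1 pcN3 Cut.none Ext.none :=
  certNK1 (fam := true) (s1 := true) (s2 := false) (a := 2) (b := 1) (c := 3) (cn := .pnn) (n1 := ndN3q2) (n2 := ndN4q1) (pc := pcN3) (cut := Cut.none) (xt := Ext.none) (P1 := 1073741824) (W1 := 536870912) (P2 := 536870912) (W2 := 536870912) (P3 := 67108864) (W3 := 67108864) (N0 := 3)
    rfl rfl rfl (fun _ => rfl) k0_pm_213

noncomputable def f_pm_303 : ℕ → ℕ → ℕ → ℕ → Bool := onCell 0 1230186008 1610612736 536870912 67108864 67108864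
    (rowNK 3 1 true true false .npn 3 0 3 (qsf 0 1230186008 0 536870912 3) ndN3q3 ndN4q0 pcN3 Cut.none Ext.none)

def k0_pm_303 : ∃ t, chk3 f_pm_303 t 1 1 1 = true :=
  ⟨(a (l 4) (b (a (l 4) (b (a (l 1) (l 17609272)) (l 18445928))) (l 4))), by decide +kernel⟩

theorem c_pm_303 : CertN 0 1230186008 0 536870912 67108864 67108864 3 true true false .npn 3 0 3
    ndN3q3 ndN4q0 pcN3 Cut.none Ext.none :=
  certNK1 (fam := true) (s1 := true) (s2 := false) (a := 3) (b := 0) (c := 3) (cn := .npn) (n1 := ndN3q3) (n2 := ndN4q0) (pc := pcN3) (cut := Cut.none) (xt := Ext.none) (P1 := 0) (W1 := 1230186008) (P2 := 0) (W2 := 536870912) (P3 := 67108864) (W3 := 67108864) (N0 := 3)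
    rfl rfl rfl (fun _ => rfl) k0_pm_303

noncomputable def f_pm_313 : ℕ → ℕ → ℕ → ℕ → Bool := onCell 0 1230186008 536870912 536870912 67108864 67108864
    (rowNK 3 0 true true false .dn 3 1 3 (qsf 0 1230186008 536870912 536870912 3) ndN3q3 ndN4q1 pcN3 Cut.none Ext.none)

def k0_pm_313 : ∃ t, chk3 f_pm_313 t 1 1 1 = true :=
  ⟨(a (l 2) (l 4)), by decide +kernel⟩

theorem c_pm_313 : CertN 0 1230186008 536870912 536870912 67108864 67108864 3 true true false .dn 3 1 3
    ndN3q3 ndN4q1 pcN3 Cut.none Ext.none :=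
  certNK0 (fam := true) (s1 := true) (s2 := false) (a := 3) (b := 1) (c := 3) (cn := .dn) (n1 := ndN3q3) (n2 := ndN4q1) (pc := pcN3) (cut := Cut.none) (xt := Ext.none) (P1 := 0) (W1 := 1230186008) (P2 := 536870912) (W2 := 536870912) (P3 := 67108864) (W3 := 67108864) (N0 := 3)
    rfl rfl rfl k0_pm_313

noncomputable def f_mm_001 : ℕ → ℕ → ℕ → ℕ → Bool := onCell 0 536870912 0 536870912 67108864 67108864
    (rowNK 3 0 true false false .up 0 0 1 (qsf 0 536870912 0 536870912 1) ndN3q0 ndN4q0 pcN1 Cut.none Ext.none)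

def k0_mm_001 : ∃ t, chk3 f_mm_001 t 1 1 1 = true :=
  ⟨(l 4), by decide +kernel⟩

theorem c_mm_001 : CertN 0 536870912 0 536870912 67108864 67108864 3 true false false .up 0 0 1
    ndN3q0 ndN4q0 pcN1 Cut.none Ext.none :=
  certNK0 (fam := true) (s1 := false) (s2 := false) (a := 0) (b := 0) (c := 1) (cn := .up) (n1 := ndN3q0) (n2 := ndN4q0) (pc := pcN1) (cut := Cut.none) (xt := Ext.none) (P1 := 0) (W1 := 536870912) (P2 := 0) (W2 := 536870912) (P3 := 67108864) (W3 := 67108864) (N0 := 3)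
    rfl rfl rfl k0_mm_001

noncomputable def f_mm_011 : ℕ → ℕ → ℕ → ℕ → Bool := onCell 0 536870912 536870912 536870912 67108864 67108864
    (rowNK 3 0 true false false .pnn 0 1 1 (qsf 0 536870912 536870912 536870912 1) ndN3q0 ndN4q1 pcN1 Cut.none Ext.none)

def k0_mm_011 : ∃ t, chk3 f_mm_011 t 1 1 1 = true :=
  ⟨(l 4), by decide +kernel⟩

theorem c_mm_011 : CertN 0 536870912 536870912 536870912 67108864 67108864 3 true false false .pnn 0 1 1
    ndN3q0 ndN4q1 pcN1 Cut.none Ext.none :=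
  certNK0 (fam := true) (s1 := false) (s2 := false) (a := 0) (b := 1) (c := 1) (cn := .pnn) (n1 := ndN3q0) (n2 := ndN4q1) (pc := pcN1) (cut := Cut.none) (xt := Ext.none) (P1 := 0) (W1 := 536870912) (P2 := 536870912) (W2 := 536870912) (P3 := 67108864) (W3 := 67108864) (N0 := 3)
    rfl rfl rfl k0_mm_011

noncomputable def f_mm_012 : ℕ → ℕ → ℕ → ℕ → Bool := onCell 0 536870912 536870912 536870912 67108864 67108864
    (rowNK 3 0 true false false .pnp 0 1 2 (qsf 0 536870912 536870912 536870912 2) ndN3q0 ndN4q1 pcN2 Cut.none Ext.none)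

def k0_mm_012 : ∃ t, chk3 f_mm_012 t 1 1 1 = true :=
  ⟨(l 4), by decide +kernel⟩

theorem c_mm_012 : CertN 0 536870912 536870912 536870912 67108864 67108864 3 true false false .pnp 0 1 2
    ndN3q0 ndN4q1 pcN2 Cut.none Ext.none :=
  certNK0 (fam := true) (s1 := false) (s2 := false) (a := 0) (b := 1) (c := 2) (cn := .pnp) (n1 := ndN3q0) (n2 := ndN4q1) (pc := pcN2) (cut := Cut.none) (xt := Ext.none) (P1 := 0) (W1 := 536870912) (P2 := 536870912) (W2 := 536870912) (P3 := 67108864) (W3 := 67108864) (N0 := 3)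
    rfl rfl rfl k0_mm_012

noncomputable def f_mm_022 : ℕ → ℕ → ℕ → ℕ → Bool := onCell 0 536870912 1073741824 536870912 67108864 67108864
    (rowNK 3 0 true false false .pp 0 2 2 (qsf 0 536870912 1073741824 536870912 2) ndN3q0 ndN4q2 pcN2 Cut.none Ext.none)

def k0_mm_022 : ∃ t, chk3 f_mm_022 t 1 1 1 = true :=
  ⟨(l 4), by decide +kernel⟩

theorem c_mm_022 : CertN 0 536870912 1073741824 536870912 67108864 67108864 3 true false false .pp 0 2 2
    ndN3q0 ndN4q2 pcN2 Cut.none Ext.none :=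
  certNK0 (fam := true) (s1 := false) (s2 := false) (a := 0) (b := 2) (c := 2) (cn := .pp) (n1 := ndN3q0) (n2 := ndN4q2) (pc := pcN2) (cut := Cut.none) (xt := Ext.none) (P1 := 0) (W1 := 536870912) (P2 := 1073741824) (W2 := 536870912) (P3 := 67108864) (W3 := 67108864) (N0 := 3)
    rfl rfl rfl k0_mm_022

noncomputable def f_mm_023 : ℕ → ℕ → ℕ → ℕ → Bool := onCell 0 536870912 1073741824 536870912 67108864 67108864
    (rowNK 3 0 true false false .up 0 2 3 (qsf 0 536870912 1073741824 536870912 3) ndN3q0 ndN4q2 pcN3 Cut.none Ext.none)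

def k0_mm_023 : ∃ t, chk3 f_mm_023 t 1 1 1 = true :=
  ⟨(l 4), by decide +kernel⟩

theorem c_mm_023 : CertN 0 536870912 1073741824 536870912 67108864 67108864 3 true false false .up 0 2 3
    ndN3q0 ndN4q2 pcN3 Cut.none Ext.none :=
  certNK0 (fam := true) (s1 := false) (s2 := false) (a := 0) (b := 2) (c := 3) (cn := .up) (n1 := ndN3q0) (n2 := ndN4q2) (pc := pcN3) (cut := Cut.none) (xt := Ext.none) (P1 := 0) (W1 := 536870912) (P2 := 1073741824) (W2 := 536870912) (P3 := 67108864) (W3 := 67108864) (N0 := 3)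
    rfl rfl rfl k0_mm_023

noncomputable def f_mm_033 : ℕ → ℕ → ℕ → ℕ → Bool := onCell 0 536870912 0 1230186008 67108864 67108864
    (rowNK 3 0 true false false .pnn 0 3 3 (qsf 0 536870912 0 1230186008 3) ndN3q0 ndN4q3 pcN3 Cut.none Ext.none)

def k0_mm_033 : ∃ t, chk3 f_mm_033 t 1 1 1 = true :=
  ⟨(l 4), by decide +kernel⟩

theorem c_mm_033 : CertN 0 536870912 0 1230186008 67108864 67108864 3 true false false .pnn 0 3 3
    ndN3q0 ndN4q3 pcN3 Cut.none Ext.none :=
  certNK0 (fam := true) (s1 := false) (s2 := false) (a := 0) (b := 3) (c := 3) (cn := .pnn) (n1 := ndN3q0) (n2 := ndN4q3) (pc := pcN3) (cut := Cut.none) (xt := Ext.none) (P1 := 0) (W1 := 536870912) (P2 := 0) (W2 := 1230186008) (P3 := 67108864) (W3 := 67108864) (N0 := 3)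
    rfl rfl rfl k0_mm_033

noncomputable def f_mm_101 : ℕ → ℕ → ℕ → ℕ → Bool := onCell 536870912 536870912 0 536870912 67108864 67108864
    (rowNK 3 0 true false false .npn 1 0 1 (qsf 536870912 536870912 0 536870912 1) ndN3q1 ndN4q0 pcN1 Cut.none Ext.none)

def k0_mm_101 : ∃ t, chk3 f_mm_101 t 1 1 1 = true :=
  ⟨(l 4), by decide +kernel⟩

theorem c_mm_101 : CertN 536870912 536870912 0 536870912 67108864 67108864 3 true false false .npn 1 0 1
    ndN3q1 ndN4q0 pcN1 Cut.none Ext.none :=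
  certNK0 (fam := true) (s1 := false) (s2 := false) (a := 1) (b := 0) (c := 1) (cn := .npn) (n1 := ndN3q1) (n2 := ndN4q0) (pc := pcN1) (cut := Cut.none) (xt := Ext.none) (P1 := 536870912) (W1 := 536870912) (P2 := 0) (W2 := 536870912) (P3 := 67108864) (W3 := 67108864) (N0 := 3)
    rfl rfl rfl k0_mm_101

noncomputable def f_mm_102 : ℕ → ℕ → ℕ → ℕ → Bool := onCell 536870912 536870912 0 536870912 67108864 67108864
    (rowNK 3 0 true false false .npp 1 0 2 (qsf 536870912 536870912 0 536870912 2) ndN3q1 ndN4q0 pcN2 Cut.none Ext.none)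

def k0_mm_102 : ∃ t, chk3 f_mm_102 t 1 1 1 = true :=
  ⟨(l 4), by decide +kernel⟩

theorem c_mm_102 : CertN 536870912 536870912 0 536870912 67108864 67108864 3 true false false .npp 1 0 2
    ndN3q1 ndN4q0 pcN2 Cut.none Ext.none :=
  certNK0 (fam := true) (s1 := false) (s2 := false) (a := 1) (b := 0) (c := 2) (cn := .npp) (n1 := ndN3q1) (n2 := ndN4q0) (pc := pcN2) (cut := Cut.none) (xt := Ext.none) (P1 := 536870912) (W1 := 536870912) (P2 := 0) (W2 := 536870912) (P3 := 67108864) (W3 := 67108864) (N0 := 3)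
    rfl rfl rfl k0_mm_102

noncomputable def f_mm_112 : ℕ → ℕ → ℕ → ℕ → Bool := onCell 536870912 536870912 536870912 536870912 67108864 67108864
    (rowNK 3 0 true false false .dn 1 1 2 (qsf 536870912 536870912 536870912 536870912 2) ndN3q1 ndN4q1 pcN2 Cut.none Ext.none)

def k0_mm_112 : ∃ t, chk3 f_mm_112 t 1 1 1 = true :=
  ⟨(l 4), by decide +kernel⟩

theorem c_mm_112 : CertN 536870912 536870912 536870912 536870912 67108864 67108864 3 true false false .dn 1 1 2
    ndN3q1 ndN4q1 pcN2 Cut.none Ext.none :=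
  certNK0 (fam := true) (s1 := false) (s2 := false) (a := 1) (b := 1) (c := 2) (cn := .dn) (n1 := ndN3q1) (n2 := ndN4q1) (pc := pcN2) (cut := Cut.none) (xt := Ext.none) (P1 := 536870912) (W1 := 536870912) (P2 := 536870912) (W2 := 536870912) (P3 := 67108864) (W3 := 67108864) (N0 := 3)
    rfl rfl rfl k0_mm_112

noncomputable def f_mm_113 : ℕ → ℕ → ℕ → ℕ → Bool := onCell 536870912 536870912 536870912 536870912 67108864 67108864
    (rowNK 3 0 true false false .nn 1 1 3 (qsf 536870912 536870912 536870912 536870912 3) ndN3q1 ndN4q1 pcN3 Cut.none Ext.none)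

def k0_mm_113 : ∃ t, chk3 f_mm_113 t 1 1 1 = true :=
  ⟨(l 4), by decide +kernel⟩

theorem c_mm_113 : CertN 536870912 536870912 536870912 536870912 67108864 67108864 3 true false false .nn 1 1 3
    ndN3q1 ndN4q1 pcN3 Cut.none Ext.none :=
  certNK0 (fam := true) (s1 := false) (s2 := false) (a := 1) (b := 1) (c := 3) (cn := .nn) (n1 := ndN3q1) (n2 := ndN4q1) (pc := pcN3) (cut := Cut.none) (xt := Ext.none) (P1 := 536870912) (W1 := 536870912) (P2 := 536870912) (W2 := 536870912) (P3 := 67108864) (W3 := 67108864) (N0 := 3)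
    rfl rfl rfl k0_mm_113

noncomputable def f_mm_123 : ℕ → ℕ → ℕ → ℕ → Bool := onCell 536870912 536870912 1073741824 536870912 67108864 67108864
    (rowNK 3 0 true false false .npn 1 2 3 (qsf 536870912 536870912 1073741824 536870912 3) ndN3q1 ndN4q2 pcN3 Cut.none Ext.none)

def k0_mm_123 : ∃ t, chk3 f_mm_123 t 1 1 1 = true :=
  ⟨(l 4), by decide +kernel⟩

theorem c_mm_123 : CertN 536870912 536870912 1073741824 536870912 67108864 67108864 3 true false false .npn 1 2 3
    ndN3q1 ndN4q2 pcN3 Cut.none Ext.none :=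
  certNK0 (fam := true) (s1 := false) (s2 := false) (a := 1) (b := 2) (c := 3) (cn := .npn) (n1 := ndN3q1) (n2 := ndN4q2) (pc := pcN3) (cut := Cut.none) (xt := Ext.none) (P1 := 536870912) (W1 := 536870912) (P2 := 1073741824) (W2 := 536870912) (P3 := 67108864) (W3 := 67108864) (N0 := 3)
    rfl rfl rfl k0_mm_123

noncomputable def f_mm_133 : ℕ → ℕ → ℕ → ℕ → Bool := onCell 536870912 536870912 0 1230186008 67108864 67108864
    (rowNK 3 0 true false false .dn 1 3 3 (qsf 536870912 536870912 0 1230186008 3) ndN3q1 ndN4q3 pcN3 Cut.none Ext.none)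

def k0_mm_133 : ∃ t, chk3 f_mm_133 t 1 1 1 = true :=
  ⟨(l 4), by decide +kernel⟩

theorem c_mm_133 : CertN 536870912 536870912 0 1230186008 67108864 67108864 3 true false false .dn 1 3 3
    ndN3q1 ndN4q3 pcN3 Cut.none Ext.none :=
  certNK0 (fam := true) (s1 := false) (s2 := false) (a := 1) (b := 3) (c := 3) (cn := .dn) (n1 := ndN3q1) (n2 := ndN4q3) (pc := pcN3) (cut := Cut.none) (xt := Ext.none) (P1 := 536870912) (W1 := 536870912) (P2 := 0) (W2 := 1230186008) (P3 := 67108864) (W3 := 67108864) (N0 := 3)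
    rfl rfl rfl k0_mm_133

noncomputable def f_mm_202 : ℕ → ℕ → ℕ → ℕ → Bool := onCell 1073741824 536870912 0 536870912 67108864 67108864
    (rowNK 3 0 true false false .pp 2 0 2 (qsf 1073741824 536870912 0 536870912 2) ndN3q2 ndN4q0 pcN2 Cut.none Ext.none)

def k0_mm_202 : ∃ t, chk3 f_mm_202 t 1 1 1 = true :=
  ⟨(l 4), by decide +kernel⟩

theorem c_mm_202 : CertN 1073741824 536870912 0 536870912 67108864 67108864 3 true false false .pp 2 0 2
    ndN3q2 ndN4q0 pcN2 Cut.none Ext.none :=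
  certNK0 (fam := true) (s1 := false) (s2 := false) (a := 2) (b := 0) (c := 2) (cn := .pp) (n1 := ndN3q2) (n2 := ndN4q0) (pc := pcN2) (cut := Cut.none) (xt := Ext.none) (P1 := 1073741824) (W1 := 536870912) (P2 := 0) (W2 := 536870912) (P3 := 67108864) (W3 := 67108864) (N0 := 3)
    rfl rfl rfl k0_mm_202

noncomputable def f_mm_203 : ℕ → ℕ → ℕ → ℕ → Bool := onCell 1073741824 536870912 0 536870912 67108864 67108864
    (rowNK 3 0 true false false .up 2 0 3 (qsf 1073741824 536870912 0 536870912 3) ndN3q2 ndN4q0 pcN3 Cut.none Ext.none)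

def k0_mm_203 : ∃ t, chk3 f_mm_203 t 1 1 1 = true :=
  ⟨(l 4), by decide +kernel⟩

theorem c_mm_203 : CertN 1073741824 536870912 0 536870912 67108864 67108864 3 true false false .up 2 0 3
    ndN3q2 ndN4q0 pcN3 Cut.none Ext.none :=
  certNK0 (fam := true) (s1 := false) (s2 := false) (a := 2) (b := 0) (c := 3) (cn := .up) (n1 := ndN3q2) (n2 := ndN4q0) (pc := pcN3) (cut := Cut.none) (xt := Ext.none) (P1 := 1073741824) (W1 := 536870912) (P2 := 0) (W2 := 536870912) (P3 := 67108864) (W3 := 67108864) (N0 := 3)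
    rfl rfl rfl k0_mm_203

noncomputable def f_mm_213 : ℕ → ℕ → ℕ → ℕ → Bool := onCell 1073741824 536870912 536870912 536870912 67108864 67108864
    (rowNK 3 0 true false false .pnn 2 1 3 (qsf 1073741824 536870912 536870912 536870912 3) ndN3q2 ndN4q1 pcN3 Cut.none Ext.none)

def k0_mm_213 : ∃ t, chk3 f_mm_213 t 1 1 1 = true :=
  ⟨(l 4), by decide +kernel⟩

theorem c_mm_213 : CertN 1073741824 536870912 536870912 536870912 67108864 67108864 3 true false false .pnn 2 1 3
    ndN3q2 ndN4q1 pcN3 Cut.none Ext.none :=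
  certNK0 (fam := true) (s1 := false) (s2 := false) (a := 2) (b := 1) (c := 3) (cn := .pnn) (n1 := ndN3q2) (n2 := ndN4q1) (pc := pcN3) (cut := Cut.none) (xt := Ext.none) (P1 := 1073741824) (W1 := 536870912) (P2 := 536870912) (W2 := 536870912) (P3 := 67108864) (W3 := 67108864) (N0 := 3)
    rfl rfl rfl k0_mm_213

noncomputable def f_mm_303 : ℕ → ℕ → ℕ → ℕ → Bool := onCell 0 1230186008 0 536870912 67108864 67108864
    (rowNK 3 0 true false false .npn 3 0 3 (qsf 0 1230186008 0 536870912 3) ndN3q3 ndN4q0 pcN3 Cut.none Ext.none)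

def k0_mm_303 : ∃ t, chk3 f_mm_303 t 1 1 1 = true :=
  ⟨(l 4), by decide +kernel⟩

theorem c_mm_303 : CertN 0 1230186008 0 536870912 67108864 67108864 3 true false false .npn 3 0 3
    ndN3q3 ndN4q0 pcN3 Cut.none Ext.none :=
  certNK0 (fam := true) (s1 := false) (s2 := false) (a := 3) (b := 0) (c := 3) (cn := .npn) (n1 := ndN3q3) (n2 := ndN4q0) (pc := pcN3) (cut := Cut.none) (xt := Ext.none) (P1 := 0) (W1 := 1230186008) (P2 := 0) (W2 := 536870912) (P3 := 67108864) (W3 := 67108864) (N0 := 3)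
    rfl rfl rfl k0_mm_303

noncomputable def f_mm_313 : ℕ → ℕ → ℕ → ℕ → Bool := onCell 0 1230186008 536870912 536870912 67108864 67108864
    (rowNK 3 0 true false false .dn 3 1 3 (qsf 0 1230186008 536870912 536870912 3) ndN3q3 ndN4q1 pcN3 Cut.none Ext.none)

def k0_mm_313 : ∃ t, chk3 f_mm_313 t 1 1 1 = true :=
  ⟨(l 4), by decide +kernel⟩

theorem c_mm_313 : CertN 0 1230186008 536870912 536870912 67108864 67108864 3 true false false .dn 3 1 3
    ndN3q3 ndN4q1 pcN3 Cut.none Ext.none :=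
  certNK0 (fam := true) (s1 := false) (s2 := false) (a := 3) (b := 1) (c := 3) (cn := .dn) (n1 := ndN3q3) (n2 := ndN4q1) (pc := pcN3) (cut := Cut.none) (xt := Ext.none) (P1 := 0) (W1 := 1230186008) (P2 := 536870912) (W2 := 536870912) (P3 := 67108864) (W3 := 67108864) (N0 := 3)
    rfl rfl rfl k0_mm_313

end Pool.Agent.Strip051.G.I1_16_1_8.Tab.C.NA34

namespace Pool.Agent.Strip051.G.I1_16_1_8.Tab.C.NA44

open Pool.Agent.Strip051.PB Pool.Agent.Strip051.PB.T
open Pool.Agent.Strip051.G.I1_16_1_8.Tab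

noncomputable def f_pp_001 : ℕ → ℕ → ℕ → ℕ → Bool := onCell 0 536870912 0 536870912 67108864 67108864
    (rowNK 3 0 true true true .up 0 0 1 (qsf 0 536870912 0 536870912 1) ndN4q0 ndN4q0 pcN1 Cut.none Ext.none)

def k0_pp_001 : ∃ t, chk3 f_pp_001 t 1 1 1 = true :=
  ⟨(l 4), by decide +kernel⟩

theorem c_pp_001 : CertN 0 536870912 0 536870912 67108864 67108864 3 true true true .up 0 0 1
    ndN4q0 ndN4q0 pcN1 Cut.none Ext.none :=
  certNK0 (fam := true) (s1 := true) (s2 := true) (a := 0) (b := 0) (c := 1) (cn := .up) (n1 := ndN4q0) (n2 := ndN4q0) (pc := pcN1) (cut := Cut.none) (xt := Ext.none) (P1 := 0) (W1 := 536870912) (P2 := 0) (W2 := 536870912) (P3 := 67108864) (W3 := 67108864) (N0 := 3)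
    rfl rfl rfl k0_pp_001

noncomputable def f_pp_011 : ℕ → ℕ → ℕ → ℕ → Bool := onCell 0 536870912 536870912 536870912 67108864 67108864
    (rowNK 3 0 true true true .pnn 0 1 1 (qsf 0 536870912 536870912 536870912 1) ndN4q0 ndN4q1 pcN1 Cut.none Ext.none)

def k0_pp_011 : ∃ t, chk3 f_pp_011 t 1 1 1 = true :=
  ⟨(l 4), by decide +kernel⟩

theorem c_pp_011 : CertN 0 536870912 536870912 536870912 67108864 67108864 3 true true true .pnn 0 1 1
    ndN4q0 ndN4q1 pcN1 Cut.none Ext.none :=
  certNK0 (fam := true) (s1 := true) (s2 := true) (a := 0) (b := 1) (c := 1) (cn := .pnn) (n1 := ndN4q0) (n2 := ndN4q1) (pc := pcN1) (cut := Cut.none) (xt := Ext.none) (P1 := 0) (W1 := 536870912) (P2 := 536870912) (W2 := 536870912) (P3 := 67108864) (W3 := 67108864) (N0 := 3)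
    rfl rfl rfl k0_pp_011

noncomputable def f_pp_012 : ℕ → ℕ → ℕ → ℕ → Bool := onCell 0 536870912 536870912 536870912 67108864 67108864
    (rowNK 3 0 true true true .pnp 0 1 2 (qsf 0 536870912 536870912 536870912 2) ndN4q0 ndN4q1 pcN2 Cut.none Ext.none)

def k0_pp_012 : ∃ t, chk3 f_pp_012 t 1 1 1 = true :=
  ⟨(l 4), by decide +kernel⟩

theorem c_pp_012 : CertN 0 536870912 536870912 536870912 67108864 67108864 3 true true true .pnp 0 1 2
    ndN4q0 ndN4q1 pcN2 Cut.none Ext.none :=
  certNK0 (fam := true) (s1 := true) (s2 := true) (a := 0) (b := 1) (c := 2) (cn := .pnp) (n1 := ndN4q0) (n2 := ndN4q1) (pc := pcN2) (cut := Cut.none) (xt := Ext.none) (P1 := 0) (W1 := 536870912) (P2 := 536870912) (W2 := 536870912) (P3 := 67108864) (W3 := 67108864) (N0 := 3)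
    rfl rfl rfl k0_pp_012

noncomputable def f_pp_022 : ℕ → ℕ → ℕ → ℕ → Bool := onCell 0 536870912 1073741824 536870912 67108864 67108864
    (rowNK 3 0 true true true .pp 0 2 2 (qsf 0 536870912 1073741824 536870912 2) ndN4q0 ndN4q2 pcN2 Cut.none Ext.none)

def k0_pp_022 : ∃ t, chk3 f_pp_022 t 1 1 1 = true :=
  ⟨(l 4), by decide +kernel⟩

theorem c_pp_022 : CertN 0 536870912 1073741824 536870912 67108864 67108864 3 true true true .pp 0 2 2
    ndN4q0 ndN4q2 pcN2 Cut.none Ext.none :=
  certNK0 (fam := true) (s1 := true) (s2 := true) (a := 0) (b := 2) (c := 2) (cn := .pp) (n1 := ndN4q0) (n2 := ndN4q2) (pc := pcN2) (cut := Cut.none) (xt := Ext.none) (P1 := 0) (W1 := 536870912) (P2 := 1073741824) (W2 := 536870912) (P3 := 67108864) (W3 := 67108864) (N0 := 3)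
    rfl rfl rfl k0_pp_022

noncomputable def f_pp_023 : ℕ → ℕ → ℕ → ℕ → Bool := onCell 0 536870912 1073741824 536870912 67108864 67108864
    (rowNK 3 0 true true true .up 0 2 3 (qsf 0 536870912 1073741824 536870912 3) ndN4q0 ndN4q2 pcN3 Cut.none Ext.none)

def k0_pp_023 : ∃ t, chk3 f_pp_023 t 1 1 1 = true :=
  ⟨(l 4), by decide +kernel⟩

theorem c_pp_023 : CertN 0 536870912 1073741824 536870912 67108864 67108864 3 true true true .up 0 2 3
    ndN4q0 ndN4q2 pcN3 Cut.none Ext.none :=
  certNK0 (fam := true) (s1 := true) (s2 := true) (a := 0) (b := 2) (c := 3) (cn := .up) (n1 := ndN4q0) (n2 := ndN4q2) (pc := pcN3) (cut := Cut.none) (xt := Ext.none) (P1 := 0) (W1 := 536870912) (P2 := 1073741824) (W2 := 536870912) (P3 := 67108864) (W3 := 67108864) (N0 := 3)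
    rfl rfl rfl k0_pp_023

noncomputable def f_pp_033 : ℕ → ℕ → ℕ → ℕ → Bool := onCell 0 536870912 0 1230186008 67108864 67108864
    (rowNK 3 0 true true true .pnn 0 3 3 (qsf 0 536870912 0 1230186008 3) ndN4q0 ndN4q3 pcN3 Cut.none Ext.none)

def k0_pp_033 : ∃ t, chk3 f_pp_033 t 1 1 1 = true :=
  ⟨(l 4), by decide +kernel⟩

theorem c_pp_033 : CertN 0 536870912 0 1230186008 67108864 67108864 3 true true true .pnn 0 3 3
    ndN4q0 ndN4q3 pcN3 Cut.none Ext.none :=
  certNK0 (fam := true) (s1 := true) (s2 := true) (a := 0) (b := 3) (c := 3) (cn := .pnn) (n1 := ndN4q0) (n2 := ndN4q3) (pc := pcN3) (cut := Cut.none) (xt := Ext.none) (P1 := 0) (W1 := 536870912) (P2 := 0) (W2 := 1230186008) (P3 := 67108864) (W3 := 67108864) (N0 := 3)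
    rfl rfl rfl k0_pp_033

noncomputable def f_pp_101 : ℕ → ℕ → ℕ → ℕ → Bool := onCell 536870912 536870912 0 536870912 67108864 67108864
    (rowNK 3 0 true true true .npn 1 0 1 (qsf 536870912 536870912 0 536870912 1) ndN4q1 ndN4q0 pcN1 Cut.none Ext.none)

def k0_pp_101 : ∃ t, chk3 f_pp_101 t 1 1 1 = true :=
  ⟨(l 4), by decide +kernel⟩

theorem c_pp_101 : CertN 536870912 536870912 0 536870912 67108864 67108864 3 true true true .npn 1 0 1
    ndN4q1 ndN4q0 pcN1 Cut.none Ext.none :=
  certNK0 (fam := true) (s1 := true) (s2 := true) (a := 1) (b := 0) (c := 1) (cn := .npn) (n1 := ndN4q1) (n2 := ndN4q0) (pc := pcN1) (cut := Cut.none) (xt := Ext.none) (P1 := 536870912) (W1 := 536870912) (P2 := 0) (W2 := 536870912) (P3 := 67108864) (W3 := 67108864) (N0 := 3)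
    rfl rfl rfl k0_pp_101

noncomputable def f_pp_102 : ℕ → ℕ → ℕ → ℕ → Bool := onCell 536870912 536870912 0 536870912 67108864 67108864
    (rowNK 3 0 true true true .npp 1 0 2 (qsf 536870912 536870912 0 536870912 2) ndN4q1 ndN4q0 pcN2 Cut.none Ext.none)

def k0_pp_102 : ∃ t, chk3 f_pp_102 t 1 1 1 = true :=
  ⟨(l 4), by decide +kernel⟩

theorem c_pp_102 : CertN 536870912 536870912 0 536870912 67108864 67108864 3 true true true .npp 1 0 2
    ndN4q1 ndN4q0 pcN2 Cut.none Ext.none :=
  certNK0 (fam := true) (s1 := true) (s2 := true) (a := 1) (b := 0) (c := 2) (cn := .npp) (n1 := ndN4q1) (n2 := ndN4q0) (pc := pcN2) (cut := Cut.none) (xt := Ext.none) (P1 := 536870912) (W1 := 536870912) (P2 := 0) (W2 := 536870912) (P3 := 67108864) (W3 := 67108864) (N0 := 3)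
    rfl rfl rfl k0_pp_102

noncomputable def f_pp_112 : ℕ → ℕ → ℕ → ℕ → Bool := onCell 536870912 536870912 536870912 536870912 67108864 67108864
    (rowNK 3 0 true true true .dn 1 1 2 (qsf 536870912 536870912 536870912 536870912 2) ndN4q1 ndN4q1 pcN2 Cut.none Ext.none)

def k0_pp_112 : ∃ t, chk3 f_pp_112 t 1 1 1 = true :=
  ⟨(l 4), by decide +kernel⟩

theorem c_pp_112 : CertN 536870912 536870912 536870912 536870912 67108864 67108864 3 true true true .dn 1 1 2
    ndN4q1 ndN4q1 pcN2 Cut.none Ext.none :=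
  certNK0 (fam := true) (s1 := true) (s2 := true) (a := 1) (b := 1) (c := 2) (cn := .dn) (n1 := ndN4q1) (n2 := ndN4q1) (pc := pcN2) (cut := Cut.none) (xt := Ext.none) (P1 := 536870912) (W1 := 536870912) (P2 := 536870912) (W2 := 536870912) (P3 := 67108864) (W3 := 67108864) (N0 := 3)
    rfl rfl rfl k0_pp_112

noncomputable def f_pp_113 : ℕ → ℕ → ℕ → ℕ → Bool := onCell 536870912 536870912 536870912 536870912 67108864 67108864
    (rowNK 3 0 true true true .nn 1 1 3 (qsf 536870912 536870912 536870912 536870912 3) ndN4q1 ndN4q1 pcN3 Cut.none Ext.none)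

def k0_pp_113 : ∃ t, chk3 f_pp_113 t 1 1 1 = true :=
  ⟨(l 4), by decide +kernel⟩

theorem c_pp_113 : CertN 536870912 536870912 536870912 536870912 67108864 67108864 3 true true true .nn 1 1 3
    ndN4q1 ndN4q1 pcN3 Cut.none Ext.none :=
  certNK0 (fam := true) (s1 := true) (s2 := true) (a := 1) (b := 1) (c := 3) (cn := .nn) (n1 := ndN4q1) (n2 := ndN4q1) (pc := pcN3) (cut := Cut.none) (xt := Ext.none) (P1 := 536870912) (W1 := 536870912) (P2 := 536870912) (W2 := 536870912) (P3 := 67108864) (W3 := 67108864) (N0 := 3)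
    rfl rfl rfl k0_pp_113

noncomputable def f_pp_123 : ℕ → ℕ → ℕ → ℕ → Bool := onCell 536870912 536870912 1073741824 536870912 67108864 67108864
    (rowNK 3 0 true true true .npn 1 2 3 (qsf 536870912 536870912 1073741824 536870912 3) ndN4q1 ndN4q2 pcN3 Cut.none Ext.none)

def k0_pp_123 : ∃ t, chk3 f_pp_123 t 1 1 1 = true :=
  ⟨(l 4), by decide +kernel⟩

theorem c_pp_123 : CertN 536870912 536870912 1073741824 536870912 67108864 67108864 3 true true true .npn 1 2 3
    ndN4q1 ndN4q2 pcN3 Cut.none Ext.none :=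
  certNK0 (fam := true) (s1 := true) (s2 := true) (a := 1) (b := 2) (c := 3) (cn := .npn) (n1 := ndN4q1) (n2 := ndN4q2) (pc := pcN3) (cut := Cut.none) (xt := Ext.none) (P1 := 536870912) (W1 := 536870912) (P2 := 1073741824) (W2 := 536870912) (P3 := 67108864) (W3 := 67108864) (N0 := 3)
    rfl rfl rfl k0_pp_123

noncomputable def f_pp_133 : ℕ → ℕ → ℕ → ℕ → Bool := onCell 536870912 536870912 0 1230186008 67108864 67108864
    (rowNK 3 0 true true true .dn 1 3 3 (qsf 536870912 536870912 0 1230186008 3) ndN4q1 ndN4q3 pcN3 Cut.none Ext.none)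

def k0_pp_133 : ∃ t, chk3 f_pp_133 t 1 1 1 = true :=
  ⟨(l 4), by decide +kernel⟩

theorem c_pp_133 : CertN 536870912 536870912 0 1230186008 67108864 67108864 3 true true true .dn 1 3 3
    ndN4q1 ndN4q3 pcN3 Cut.none Ext.none :=
  certNK0 (fam := true) (s1 := true) (s2 := true) (a := 1) (b := 3) (c := 3) (cn := .dn) (n1 := ndN4q1) (n2 := ndN4q3) (pc := pcN3) (cut := Cut.none) (xt := Ext.none) (P1 := 536870912) (W1 := 536870912) (P2 := 0) (W2 := 1230186008) (P3 := 67108864) (W3 := 67108864) (N0 := 3)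
    rfl rfl rfl k0_pp_133

noncomputable def f_pp_202 : ℕ → ℕ → ℕ → ℕ → Bool := onCell 1073741824 536870912 0 536870912 67108864 67108864
    (rowNK 3 0 true true true .pp 2 0 2 (qsf 1073741824 536870912 0 536870912 2) ndN4q2 ndN4q0 pcN2 Cut.none Ext.none)

def k0_pp_202 : ∃ t, chk3 f_pp_202 t 1 1 1 = true :=
  ⟨(l 4), by decide +kernel⟩

theorem c_pp_202 : CertN 1073741824 536870912 0 536870912 67108864 67108864 3 true true true .pp 2 0 2
    ndN4q2 ndN4q0 pcN2 Cut.none Ext.none :=
  certNK0 (fam := true) (s1 := true) (s2 := true) (a := 2) (b := 0) (c := 2) (cn := .pp) (n1 := ndN4q2) (n2 := ndN4q0) (pc := pcN2) (cut := Cut.none) (xt := Ext.none) (P1 := 1073741824) (W1 := 536870912) (P2 := 0) (W2 := 536870912) (P3 := 67108864) (W3 := 67108864) (N0 := 3)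
    rfl rfl rfl k0_pp_202

noncomputable def f_pp_203 : ℕ → ℕ → ℕ → ℕ → Bool := onCell 1073741824 536870912 0 536870912 67108864 67108864
    (rowNK 3 0 true true true .up 2 0 3 (qsf 1073741824 536870912 0 536870912 3) ndN4q2 ndN4q0 pcN3 Cut.none Ext.none)

def k0_pp_203 : ∃ t, chk3 f_pp_203 t 1 1 1 = true :=
  ⟨(l 4), by decide +kernel⟩

theorem c_pp_203 : CertN 1073741824 536870912 0 536870912 67108864 67108864 3 true true true .up 2 0 3
    ndN4q2 ndN4q0 pcN3 Cut.none Ext.none :=
  certNK0 (fam := true) (s1 := true) (s2 := true) (a := 2) (b := 0) (c := 3) (cn := .up) (n1 := ndN4q2) (n2 := ndN4q0) (pc := pcN3) (cut := Cut.none) (xt := Ext.none) (P1 := 1073741824) (W1 := 536870912) (P2 := 0) (W2 := 536870912) (P3 := 67108864) (W3 := 67108864) (N0 := 3)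
    rfl rfl rfl k0_pp_203

noncomputable def f_pp_213 : ℕ → ℕ → ℕ → ℕ → Bool := onCell 1073741824 536870912 536870912 536870912 67108864 67108864
    (rowNK 3 0 true true true .pnn 2 1 3 (qsf 1073741824 536870912 536870912 536870912 3) ndN4q2 ndN4q1 pcN3 Cut.none Ext.none)

def k0_pp_213 : ∃ t, chk3 f_pp_213 t 1 1 1 = true :=
  ⟨(l 4), by decide +kernel⟩

theorem c_pp_213 : CertN 1073741824 536870912 536870912 536870912 67108864 67108864 3 true true true .pnn 2 1 3
    ndN4q2 ndN4q1 pcN3 Cut.none Ext.none :=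
  certNK0 (fam := true) (s1 := true) (s2 := true) (a := 2) (b := 1) (c := 3) (cn := .pnn) (n1 := ndN4q2) (n2 := ndN4q1) (pc := pcN3) (cut := Cut.none) (xt := Ext.none) (P1 := 1073741824) (W1 := 536870912) (P2 := 536870912) (W2 := 536870912) (P3 := 67108864) (W3 := 67108864) (N0 := 3)
    rfl rfl rfl k0_pp_213

noncomputable def f_pp_303 : ℕ → ℕ → ℕ → ℕ → Bool := onCell 0 1230186008 0 536870912 67108864 67108864
    (rowNK 3 0 true true true .npn 3 0 3 (qsf 0 1230186008 0 536870912 3) ndN4q3 ndN4q0 pcN3 Cut.none Ext.none)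

def k0_pp_303 : ∃ t, chk3 f_pp_303 t 1 1 1 = true :=
  ⟨(l 4), by decide +kernel⟩

theorem c_pp_303 : CertN 0 1230186008 0 536870912 67108864 67108864 3 true true true .npn 3 0 3
    ndN4q3 ndN4q0 pcN3 Cut.none Ext.none :=
  certNK0 (fam := true) (s1 := true) (s2 := true) (a := 3) (b := 0) (c := 3) (cn := .npn) (n1 := ndN4q3) (n2 := ndN4q0) (pc := pcN3) (cut := Cut.none) (xt := Ext.none) (P1 := 0) (W1 := 1230186008) (P2 := 0) (W2 := 536870912) (P3 := 67108864) (W3 := 67108864) (N0 := 3)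
    rfl rfl rfl k0_pp_303

noncomputable def f_pp_313 : ℕ → ℕ → ℕ → ℕ → Bool := onCell 0 1230186008 536870912 536870912 67108864 67108864
    (rowNK 3 0 true true true .dn 3 1 3 (qsf 0 1230186008 536870912 536870912 3) ndN4q3 ndN4q1 pcN3 Cut.none Ext.none)

def k0_pp_313 : ∃ t, chk3 f_pp_313 t 1 1 1 = true :=
  ⟨(l 4), by decide +kernel⟩

theorem c_pp_313 : CertN 0 1230186008 536870912 536870912 67108864 67108864 3 true true true .dn 3 1 3
    ndN4q3 ndN4q1 pcN3 Cut.none Ext.none :=
  certNK0 (fam := true) (s1 := true) (s2 := true) (a := 3) (b := 1) (c := 3) (cn := .dn) (n1 := ndN4q3) (n2 := ndN4q1) (pc := pcN3) (cut := Cut.none) (xt := Ext.none) (P1 := 0) (W1 := 1230186008) (P2 := 536870912) (W2 := 536870912) (P3 := 67108864) (W3 := 67108864) (N0 := 3)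
    rfl rfl rfl k0_pp_313

noncomputable def f_pm_001 : ℕ → ℕ → ℕ → ℕ → Bool := onCell 0 536870912 0 536870912 67108864 67108864
    (rowNK 3 0 true true false .up 0 0 1 (qsf 0 536870912 0 536870912 1) ndN4q0 ndN4q0 pcN1 Cut.none Ext.none)

def k0_pm_001 : ∃ t, chk3 f_pm_001 t 1 1 1 = true :=
  ⟨(l 3), by decide +kernel⟩

theorem c_pm_001 : CertN 0 536870912 0 536870912 67108864 67108864 3 true true false .up 0 0 1
    ndN4q0 ndN4q0 pcN1 Cut.none Ext.none :=
  certNK0 (fam := true) (s1 := true) (s2 := false) (a := 0) (b := 0) (c := 1) (cn := .up) (n1 := ndN4q0) (n2 := ndN4q0) (pc := pcN1) (cut := Cut.none) (xt := Ext.none) (P1 := 0) (W1 := 536870912) (P2 := 0) (W2 := 536870912) (P3 := 67108864) (W3 := 67108864) (N0 := 3)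
    rfl rfl rfl k0_pm_001

noncomputable def f_pm_011 : ℕ → ℕ → ℕ → ℕ → Bool := onCell 0 536870912 536870912 536870912 67108864 67108864
    (rowNK 3 1 true true false .pnn 0 1 1 (qsf 0 536870912 536870912 536870912 1) ndN4q0 ndN4q1 pcN1 Cut.none Ext.none)

def k0_pm_011 : ∃ t, chk3 f_pm_011 t 1 1 1 = true :=
  ⟨(l 3), by decide +kernel⟩

theorem c_pm_011 : CertN 0 536870912 536870912 536870912 67108864 67108864 3 true true false .pnn 0 1 1
    ndN4q0 ndN4q1 pcN1 Cut.none Ext.none :=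
  certNK1 (fam := true) (s1 := true) (s2 := false) (a := 0) (b := 1) (c := 1) (cn := .pnn) (n1 := ndN4q0) (n2 := ndN4q1) (pc := pcN1) (cut := Cut.none) (xt := Ext.none) (P1 := 0) (W1 := 536870912) (P2 := 536870912) (W2 := 536870912) (P3 := 67108864) (W3 := 67108864) (N0 := 3)
    rfl rfl rfl (fun _ => rfl) k0_pm_011

noncomputable def f_pm_012 : ℕ → ℕ → ℕ → ℕ → Bool := onCell 0 536870912 1073741824 536870912 67108864 67108864
    (rowNK 3 1 true true false .pnp 0 1 2 (qsf 0 536870912 536870912 536870912 2) ndN4q0 ndN4q1 pcN2 Cut.none Ext.none)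

def k0_pm_012 : ∃ t, chk3 f_pm_012 t 1 1 1 = true :=
  ⟨(a (b (b (l 19629168) (b (l 223512320007) (l 19660824))) (b (l 19788560) (l 2))) (b (b (l 3) (a (l 19142592) (l 19005872))) (a (l 19595656) (l 18903136)))), by decide +kernel⟩

theorem c_pm_012 : CertN 0 536870912 536870912 536870912 67108864 67108864 3 true true false .pnp 0 1 2
    ndN4q0 ndN4q1 pcN2 Cut.none Ext.none :=
  certNK1 (fam := true) (s1 := true) (s2 := false) (a := 0) (b := 1) (c := 2) (cn := .pnp) (n1 := ndN4q0) (n2 := ndN4q1) (pc := pcN2) (cut := Cut.none) (xt := Ext.none) (P1 := 0) (W1 := 536870912) (P2 := 536870912) (W2 := 536870912) (P3 := 67108864) (W3 := 67108864) (N0 := 3)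
    rfl rfl rfl (fun _ => rfl) k0_pm_012

noncomputable def f_pm_022 : ℕ → ℕ → ℕ → ℕ → Bool := onCell 0 536870912 1073741824 536870912 67108864 67108864
    (rowNK 3 1 true true false .pp 0 2 2 (qsf 0 536870912 1073741824 536870912 2) ndN4q0 ndN4q2 pcN2 Cut.none Ext.none)

def k0_pm_022 : ∃ t, chk3 f_pm_022 t 1 1 1 = true :=
  ⟨(a (b (b (b (l 3) (l 19915872)) (b (b (b (l 19757840) (a (l 19551568) (l 19726272))) (l 19600800)) (l 19387136))) (b (a (l 18641376) (l 18990664)) (a (l 18087672) (l 18388680)))) (b (b (l 1) (b (l 1) (l 19686144))) (b (a (l 19275688) (l 19380320)) (a (l 18651096) (l 18771016))))), by decide +kernel⟩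

theorem c_pm_022 : CertN 0 536870912 1073741824 536870912 67108864 67108864 3 true true false .pp 0 2 2
    ndN4q0 ndN4q2 pcN2 Cut.none Ext.none :=
  certNK1 (fam := true) (s1 := true) (s2 := false) (a := 0) (b := 2) (c := 2) (cn := .pp) (n1 := ndN4q0) (n2 := ndN4q2) (pc := pcN2) (cut := Cut.none) (xt := Ext.none) (P1 := 0) (W1 := 536870912) (P2 := 1073741824) (W2 := 536870912) (P3 := 67108864) (W3 := 67108864) (N0 := 3)
    rfl rfl rfl (fun _ => rfl) k0_pm_022

noncomputable def f_pm_023 : ℕ → ℕ → ℕ → ℕ → Bool := onCell 1610612736 536870912 1073741824 536870912 67108864 67108864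
    (rowNK 3 2 true true false .up 0 2 3 (qsf 0 536870912 1073741824 536870912 3) ndN4q0 ndN4q2 pcN3 Cut.none Ext.none)

def k0_pm_023 : ∃ t, chk3 f_pm_023 t 1 1 1 = true :=
  ⟨(a (b (a (b (l 18436952) (a (l 18433672) (l 18361176))) (b (b (l 2) (l 17792400)) (l 18041216))) (a (b (b (l 18796768) (l 18471464)) (l 17682448)) (b (l 17707744) (a (l 17300248) (l 17207736))))) (b (a (b (l 2) (a (l 17565680) (l 2))) (l 2)) (a (b (l 17272000) (l 17075920)) (a (l 16861840) (b (l 2) (l 16921520)))))), by decide +kernel⟩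

theorem c_pm_023 : CertN 0 536870912 1073741824 536870912 67108864 67108864 3 true true false .up 0 2 3
    ndN4q0 ndN4q2 pcN3 Cut.none Ext.none :=
  certNK2 (fam := true) (s1 := true) (s2 := false) (a := 0) (b := 2) (c := 3) (cn := .up) (n1 := ndN4q0) (n2 := ndN4q2) (pc := pcN3) (cut := Cut.none) (xt := Ext.none) (P1 := 0) (W1 := 536870912) (P2 := 1073741824) (W2 := 536870912) (P3 := 67108864) (W3 := 67108864) (N0 := 3)
    rfl rfl rfl (fun _ => rfl) k0_pm_023

noncomputable def f_pm_033 : ℕ → ℕ → ℕ → ℕ → Bool := onCell 1610612736 536870912 0 1230186008 67108864 67108864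
    (rowNK 3 2 true true false .pnn 0 3 3 (qsf 0 536870912 0 1230186008 3) ndN4q0 ndN4q3 pcN3 Cut.none Ext.none)

def k0_pm_033 : ∃ t, chk3 f_pm_033 t 1 1 1 = true :=
  ⟨(a (b (l 1) (b (a (l 1) (l 17692136)) (b (a (l 1) (l 16927704)) (a (l 17288888) (a (l 17074816) (l 16913832)))))) (b (l 4) (b (l 4) (a (b (l 17110016) (l 16856120)) (a (l 17075968) (l 4)))))), by decide +kernel⟩

theorem c_pm_033 : CertN 0 536870912 0 1230186008 67108864 67108864 3 true true false .pnn 0 3 3
    ndN4q0 ndN4q3 pcN3 Cut.none Ext.none :=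
  certNK2 (fam := true) (s1 := true) (s2 := false) (a := 0) (b := 3) (c := 3) (cn := .pnn) (n1 := ndN4q0) (n2 := ndN4q3) (pc := pcN3) (cut := Cut.none) (xt := Ext.none) (P1 := 0) (W1 := 536870912) (P2 := 0) (W2 := 1230186008) (P3 := 67108864) (W3 := 67108864) (N0 := 3)
    rfl rfl rfl (fun _ => rfl) k0_pm_033

noncomputable def f_pm_101 : ℕ → ℕ → ℕ → ℕ → Bool := onCell 536870912 536870912 536870912 536870912 67108864 67108864
    (rowNK 3 1 true true false .npn 1 0 1 (qsf 536870912 536870912 0 536870912 1) ndN4q1 ndN4q0 pcN1 Cut.none Ext.none)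

def k0_pm_101 : ∃ t, chk3 f_pm_101 t 1 1 1 = true :=
  ⟨(l 3), by decide +kernel⟩

theorem c_pm_101 : CertN 536870912 536870912 0 536870912 67108864 67108864 3 true true false .npn 1 0 1
    ndN4q1 ndN4q0 pcN1 Cut.none Ext.none :=
  certNK1 (fam := true) (s1 := true) (s2 := false) (a := 1) (b := 0) (c := 1) (cn := .npn) (n1 := ndN4q1) (n2 := ndN4q0) (pc := pcN1) (cut := Cut.none) (xt := Ext.none) (P1 := 536870912) (W1 := 536870912) (P2 := 0) (W2 := 536870912) (P3 := 67108864) (W3 := 67108864) (N0 := 3)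
    rfl rfl rfl (fun _ => rfl) k0_pm_101

noncomputable def f_pm_102 : ℕ → ℕ → ℕ → ℕ → Bool := onCell 1073741824 536870912 0 536870912 67108864 67108864
    (rowNK 3 2 true true false .npp 1 0 2 (qsf 536870912 536870912 0 536870912 2) ndN4q1 ndN4q0 pcN2 Cut.none Ext.none)

def k0_pm_102 : ∃ t, chk3 f_pm_102 t 1 1 1 = true :=
  ⟨(a (b (a (l 19629168) (a (l 223512320007) (l 19660824))) (a (l 3) (b (l 19142592) (l 19005872)))) (b (a (l 19788560) (l 2)) (b (l 19595656) (l 18903136)))), by decide +kernel⟩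

theorem c_pm_102 : CertN 536870912 536870912 0 536870912 67108864 67108864 3 true true false .npp 1 0 2
    ndN4q1 ndN4q0 pcN2 Cut.none Ext.none :=
  certNK2 (fam := true) (s1 := true) (s2 := false) (a := 1) (b := 0) (c := 2) (cn := .npp) (n1 := ndN4q1) (n2 := ndN4q0) (pc := pcN2) (cut := Cut.none) (xt := Ext.none) (P1 := 536870912) (W1 := 536870912) (P2 := 0) (W2 := 536870912) (P3 := 67108864) (W3 := 67108864) (N0 := 3)
    rfl rfl rfl (fun _ => rfl) k0_pm_102

noncomputable def f_pm_112 : ℕ → ℕ → ℕ → ℕ → Bool := onCell 536870912 536870912 1073741824 536870912 67108864 67108864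
    (rowNK 3 1 true true false .dn 1 1 2 (qsf 536870912 536870912 536870912 536870912 2) ndN4q1 ndN4q1 pcN2 Cut.none Ext.none)

def k0_pm_112 : ∃ t, chk3 f_pm_112 t 1 1 1 = true :=
  ⟨(b (b (a (l 3) (l 1)) (a (l 19136584) (l 470337702631))) (a (l 18604088) (l 18699600))), by decide +kernel⟩

theorem c_pm_112 : CertN 536870912 536870912 536870912 536870912 67108864 67108864 3 true true false .dn 1 1 2
    ndN4q1 ndN4q1 pcN2 Cut.none Ext.none :=
  certNK1 (fam := true) (s1 := true) (s2 := false) (a := 1) (b := 1) (c := 2) (cn := .dn) (n1 := ndN4q1) (n2 := ndN4q1) (pc := pcN2) (cut := Cut.none) (xt := Ext.none) (P1 := 536870912) (W1 := 536870912) (P2 := 536870912) (W2 := 536870912) (P3 := 67108864) (W3 := 67108864) (N0 := 3)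
    rfl rfl rfl (fun _ => rfl) k0_pm_112

noncomputable def f_pm_113 : ℕ → ℕ → ℕ → ℕ → Bool := onCell 536870912 536870912 536870912 536870912 67108864 67108864
    (rowNK 3 0 true true false .nn 1 1 3 (qsf 536870912 536870912 536870912 536870912 3) ndN4q1 ndN4q1 pcN3 Cut.none Ext.none)

def k0_pm_113 : ∃ t, chk3 f_pm_113 t 1 1 1 = true :=
  ⟨(a (b (l 18979200) (l 18551016)) (b (l 18551016) (a (l 17787456) (b (l 17594112) (a (l 17288656) (b (l 17228008) (a (l 17048360) (b (l 17027312) (l 16887240))))))))), by decide +kernel⟩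

theorem c_pm_113 : CertN 536870912 536870912 536870912 536870912 67108864 67108864 3 true true false .nn 1 1 3
    ndN4q1 ndN4q1 pcN3 Cut.none Ext.none :=
  certNK0 (fam := true) (s1 := true) (s2 := false) (a := 1) (b := 1) (c := 3) (cn := .nn) (n1 := ndN4q1) (n2 := ndN4q1) (pc := pcN3) (cut := Cut.none) (xt := Ext.none) (P1 := 536870912) (W1 := 536870912) (P2 := 536870912) (W2 := 536870912) (P3 := 67108864) (W3 := 67108864) (N0 := 3)
    rfl rfl rfl k0_pm_113

noncomputable def f_pm_123 : ℕ → ℕ → ℕ → ℕ → Bool := onCell 1610612736 536870912 1073741824 536870912 67108864 67108864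
    (rowNK 3 2 true true false .npn 1 2 3 (qsf 536870912 536870912 1073741824 536870912 3) ndN4q1 ndN4q2 pcN3 Cut.none Ext.none)

def k0_pm_123 : ∃ t, chk3 f_pm_123 t 1 1 1 = true :=
  ⟨(a (b (a (b (l 18472992) (l 18810104)) (b (l 17817816) (l 18003600))) (a (l 1) (b (l 17730544) (l 1)))) (a (b (b (l 17550136) (l 17354536)) (b (l 17312000) (l 17108200))) (b (a (l 17110440) (a (l 16960560) (b (l 16875336) (l 16834832)))) (a (l 16942928) (a (l 16781184) (l 16895584)))))), by decide +kernel⟩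

theorem c_pm_123 : CertN 536870912 536870912 1073741824 536870912 67108864 67108864 3 true true false .npn 1 2 3
    ndN4q1 ndN4q2 pcN3 Cut.none Ext.none :=
  certNK2 (fam := true) (s1 := true) (s2 := false) (a := 1) (b := 2) (c := 3) (cn := .npn) (n1 := ndN4q1) (n2 := ndN4q2) (pc := pcN3) (cut := Cut.none) (xt := Ext.none) (P1 := 536870912) (W1 := 536870912) (P2 := 1073741824) (W2 := 536870912) (P3 := 67108864) (W3 := 67108864) (N0 := 3)
    rfl rfl rfl (fun _ => rfl) k0_pm_123

noncomputable def f_pm_133 : ℕ → ℕ → ℕ → ℕ → Bool := onCell 536870912 536870912 0 1230186008 67108864 67108864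
    (rowNK 3 0 true true false .dn 1 3 3 (qsf 536870912 536870912 0 1230186008 3) ndN4q1 ndN4q3 pcN3 Cut.none Ext.none)

def k0_pm_133 : ∃ t, chk3 f_pm_133 t 1 1 1 = true :=
  ⟨(b (l 2) (b (l 2) (l 4))), by decide +kernel⟩

theorem c_pm_133 : CertN 536870912 536870912 0 1230186008 67108864 67108864 3 true true false .dn 1 3 3
    ndN4q1 ndN4q3 pcN3 Cut.none Ext.none :=
  certNK0 (fam := true) (s1 := true) (s2 := false) (a := 1) (b := 3) (c := 3) (cn := .dn) (n1 := ndN4q1) (n2 := ndN4q3) (pc := pcN3) (cut := Cut.none) (xt := Ext.none) (P1 := 536870912) (W1 := 536870912) (P2 := 0) (W2 := 1230186008) (P3 := 67108864) (W3 := 67108864) (N0 := 3)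
    rfl rfl rfl k0_pm_133

noncomputable def f_pm_202 : ℕ → ℕ → ℕ → ℕ → Bool := onCell 1073741824 536870912 1073741824 536870912 67108864 67108864
    (rowNK 3 1 true true false .pp 2 0 2 (qsf 1073741824 536870912 0 536870912 2) ndN4q2 ndN4q0 pcN2 Cut.none Ext.none)

def k0_pm_202 : ∃ t, chk3 f_pm_202 t 1 1 1 = true :=
  ⟨(a (b (b (b (l 3) (l 19570872)) (b (b (b (l 19380968) (a (l 19584992) (l 19046280))) (l 19371008)) (l 19329048))) (a (l 18820632) (b (l 18939152) (l 18541192)))) (b (a (b (l 1) (b (l 1) (l 18406224))) (l 1)) (b (a (l 18346048) (l 17896376)) (a (l 18174208) (l 17808440))))), by decide +kernel⟩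

theorem c_pm_202 : CertN 1073741824 536870912 0 536870912 67108864 67108864 3 true true false .pp 2 0 2
    ndN4q2 ndN4q0 pcN2 Cut.none Ext.none :=
  certNK1 (fam := true) (s1 := true) (s2 := false) (a := 2) (b := 0) (c := 2) (cn := .pp) (n1 := ndN4q2) (n2 := ndN4q0) (pc := pcN2) (cut := Cut.none) (xt := Ext.none) (P1 := 1073741824) (W1 := 536870912) (P2 := 0) (W2 := 536870912) (P3 := 67108864) (W3 := 67108864) (N0 := 3)
    rfl rfl rfl (fun _ => rfl) k0_pm_202

noncomputable def f_pm_203 : ℕ → ℕ → ℕ → ℕ → Bool := onCell 1073741824 536870912 1610612736 536870912 67108864 67108864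
    (rowNK 3 1 true true false .up 2 0 3 (qsf 1073741824 536870912 0 536870912 3) ndN4q2 ndN4q0 pcN3 Cut.none Ext.none)

def k0_pm_203 : ∃ t, chk3 f_pm_203 t 1 1 1 = true :=
  ⟨(a (b (b (a (l 18436952) (b (l 18433672) (l 18361176))) (a (a (l 2) (l 17792400)) (l 18041216))) (a (l 2) (b (b (l 17565680) (l 2)) (l 2)))) (b (b (a (a (l 18796768) (l 18471464)) (l 17682448)) (a (l 17707744) (b (l 17300248) (l 17207736)))) (b (a (l 17272000) (l 17075920)) (b (l 16861840) (a (l 2) (l 16921520)))))), by decide +kernel⟩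

theorem c_pm_203 : CertN 1073741824 536870912 0 536870912 67108864 67108864 3 true true false .up 2 0 3
    ndN4q2 ndN4q0 pcN3 Cut.none Ext.none :=
  certNK1 (fam := true) (s1 := true) (s2 := false) (a := 2) (b := 0) (c := 3) (cn := .up) (n1 := ndN4q2) (n2 := ndN4q0) (pc := pcN3) (cut := Cut.none) (xt := Ext.none) (P1 := 1073741824) (W1 := 536870912) (P2 := 0) (W2 := 536870912) (P3 := 67108864) (W3 := 67108864) (N0 := 3)
    rfl rfl rfl (fun _ => rfl) k0_pm_203

noncomputable def f_pm_213 : ℕ → ℕ → ℕ → ℕ → Bool := onCell 1073741824 536870912 1610612736 536870912 67108864 67108864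
    (rowNK 3 1 true true false .pnn 2 1 3 (qsf 1073741824 536870912 536870912 536870912 3) ndN4q2 ndN4q1 pcN3 Cut.none Ext.none)

def k0_pm_213 : ∃ t, chk3 f_pm_213 t 1 1 1 = true :=
  ⟨(b (a (b (a (l 18472992) (l 18810104)) (a (l 17817816) (l 18003600))) (b (l 1) (a (l 17730544) (l 1)))) (b (a (a (l 17550136) (l 17354536)) (a (l 17312000) (l 17108200))) (a (b (l 17110440) (b (l 16960560) (a (l 16875336) (l 16834832)))) (b (l 16942928) (b (l 16781184) (l 16895584)))))), by decide +kernel⟩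

theorem c_pm_213 : CertN 1073741824 536870912 536870912 536870912 67108864 67108864 3 true true false .pnn 2 1 3
    ndN4q2 ndN4q1 pcN3 Cut.none Ext.none :=
  certNK1 (fam := true) (s1 := true) (s2 := false) (a := 2) (b := 1) (c := 3) (cn := .pnn) (n1 := ndN4q2) (n2 := ndN4q1) (pc := pcN3) (cut := Cut.none) (xt := Ext.none) (P1 := 1073741824) (W1 := 536870912) (P2 := 536870912) (W2 := 536870912) (P3 := 67108864) (W3 := 67108864) (N0 := 3)
    rfl rfl rfl (fun _ => rfl) k0_pm_213

noncomputable def f_pm_303 : ℕ → ℕ → ℕ → ℕ → Bool := onCell 0 1230186008 1610612736 536870912 67108864 67108864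
    (rowNK 3 1 true true false .npn 3 0 3 (qsf 0 1230186008 0 536870912 3) ndN4q3 ndN4q0 pcN3 Cut.none Ext.none)

def k0_pm_303 : ∃ t, chk3 f_pm_303 t 1 1 1 = true :=
  ⟨(b (a (l 1) (a (b (l 1) (l 17692136)) (a (b (l 1) (l 16927704)) (b (l 17225976) (b (l 17074808) (l 16913832)))))) (a (l 4) (a (l 4) (b (a (l 17110016) (l 16856120)) (b (l 17076000) (l 4)))))), by decide +kernel⟩

theorem c_pm_303 : CertN 0 1230186008 0 536870912 67108864 67108864 3 true true false .npn 3 0 3
    ndN4q3 ndN4q0 pcN3 Cut.none Ext.none :=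
  certNK1 (fam := true) (s1 := true) (s2 := false) (a := 3) (b := 0) (c := 3) (cn := .npn) (n1 := ndN4q3) (n2 := ndN4q0) (pc := pcN3) (cut := Cut.none) (xt := Ext.none) (P1 := 0) (W1 := 1230186008) (P2 := 0) (W2 := 536870912) (P3 := 67108864) (W3 := 67108864) (N0 := 3)
    rfl rfl rfl (fun _ => rfl) k0_pm_303

noncomputable def f_pm_313 : ℕ → ℕ → ℕ → ℕ → Bool := onCell 0 1230186008 536870912 536870912 67108864 67108864
    (rowNK 3 0 true true false .dn 3 1 3 (qsf 0 1230186008 536870912 536870912 3) ndN4q3 ndN4q1 pcN3 Cut.none Ext.none)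

def k0_pm_313 : ∃ t, chk3 f_pm_313 t 1 1 1 = true :=
  ⟨(a (l 2) (a (l 2) (l 4))), by decide +kernel⟩

theorem c_pm_313 : CertN 0 1230186008 536870912 536870912 67108864 67108864 3 true true false .dn 3 1 3
    ndN4q3 ndN4q1 pcN3 Cut.none Ext.none :=
  certNK0 (fam := true) (s1 := true) (s2 := false) (a := 3) (b := 1) (c := 3) (cn := .dn) (n1 := ndN4q3) (n2 := ndN4q1) (pc := pcN3) (cut := Cut.none) (xt := Ext.none) (P1 := 0) (W1 := 1230186008) (P2 := 536870912) (W2 := 536870912) (P3 := 67108864) (W3 := 67108864) (N0 := 3)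
    rfl rfl rfl k0_pm_313

noncomputable def f_mm_001 : ℕ → ℕ → ℕ → ℕ → Bool := onCell 0 536870912 0 536870912 67108864 67108864
    (rowNK 3 0 true false false .up 0 0 1 (qsf 0 536870912 0 536870912 1) ndN4q0 ndN4q0 pcN1 Cut.none Ext.none)

def k0_mm_001 : ∃ t, chk3 f_mm_001 t 1 1 1 = true :=
  ⟨(l 4), by decide +kernel⟩

theorem c_mm_001 : CertN 0 536870912 0 536870912 67108864 67108864 3 true false false .up 0 0 1
    ndN4q0 ndN4q0 pcN1 Cut.none Ext.none :=
  certNK0 (fam := true) (s1 := false) (s2 := false) (a := 0) (b := 0) (c := 1) (cn := .up) (n1 := ndN4q0) (n2 := ndN4q0) (pc := pcN1) (cut := Cut.none) (xt := Ext.none) (P1 := 0) (W1 := 536870912) (P2 := 0) (W2 := 536870912) (P3 := 67108864) (W3 := 67108864) (N0 := 3)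
    rfl rfl rfl k0_mm_001

noncomputable def f_mm_011 : ℕ → ℕ → ℕ → ℕ → Bool := onCell 0 536870912 536870912 536870912 67108864 67108864
    (rowNK 3 0 true false false .pnn 0 1 1 (qsf 0 536870912 536870912 536870912 1) ndN4q0 ndN4q1 pcN1 Cut.none Ext.none)

def k0_mm_011 : ∃ t, chk3 f_mm_011 t 1 1 1 = true :=
  ⟨(l 4), by decide +kernel⟩

theorem c_mm_011 : CertN 0 536870912 536870912 536870912 67108864 67108864 3 true false false .pnn 0 1 1
    ndN4q0 ndN4q1 pcN1 Cut.none Ext.none :=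
  certNK0 (fam := true) (s1 := false) (s2 := false) (a := 0) (b := 1) (c := 1) (cn := .pnn) (n1 := ndN4q0) (n2 := ndN4q1) (pc := pcN1) (cut := Cut.none) (xt := Ext.none) (P1 := 0) (W1 := 536870912) (P2 := 536870912) (W2 := 536870912) (P3 := 67108864) (W3 := 67108864) (N0 := 3)
    rfl rfl rfl k0_mm_011

noncomputable def f_mm_012 : ℕ → ℕ → ℕ → ℕ → Bool := onCell 0 536870912 536870912 536870912 67108864 67108864
    (rowNK 3 0 true false false .pnp 0 1 2 (qsf 0 536870912 536870912 536870912 2) ndN4q0 ndN4q1 pcN2 Cut.none Ext.none)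

def k0_mm_012 : ∃ t, chk3 f_mm_012 t 1 1 1 = true :=
  ⟨(l 4), by decide +kernel⟩

theorem c_mm_012 : CertN 0 536870912 536870912 536870912 67108864 67108864 3 true false false .pnp 0 1 2
    ndN4q0 ndN4q1 pcN2 Cut.none Ext.none :=
  certNK0 (fam := true) (s1 := false) (s2 := false) (a := 0) (b := 1) (c := 2) (cn := .pnp) (n1 := ndN4q0) (n2 := ndN4q1) (pc := pcN2) (cut := Cut.none) (xt := Ext.none) (P1 := 0) (W1 := 536870912) (P2 := 536870912) (W2 := 536870912) (P3 := 67108864) (W3 := 67108864) (N0 := 3)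
    rfl rfl rfl k0_mm_012

noncomputable def f_mm_022 : ℕ → ℕ → ℕ → ℕ → Bool := onCell 0 536870912 1073741824 536870912 67108864 67108864
    (rowNK 3 0 true false false .pp 0 2 2 (qsf 0 536870912 1073741824 536870912 2) ndN4q0 ndN4q2 pcN2 Cut.none Ext.none)

def k0_mm_022 : ∃ t, chk3 f_mm_022 t 1 1 1 = true :=
  ⟨(l 4), by decide +kernel⟩

theorem c_mm_022 : CertN 0 536870912 1073741824 536870912 67108864 67108864 3 true false false .pp 0 2 2
    ndN4q0 ndN4q2 pcN2 Cut.none Ext.none :=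
  certNK0 (fam := true) (s1 := false) (s2 := false) (a := 0) (b := 2) (c := 2) (cn := .pp) (n1 := ndN4q0) (n2 := ndN4q2) (pc := pcN2) (cut := Cut.none) (xt := Ext.none) (P1 := 0) (W1 := 536870912) (P2 := 1073741824) (W2 := 536870912) (P3 := 67108864) (W3 := 67108864) (N0 := 3)
    rfl rfl rfl k0_mm_022

noncomputable def f_mm_023 : ℕ → ℕ → ℕ → ℕ → Bool := onCell 0 536870912 1073741824 536870912 67108864 67108864
    (rowNK 3 0 true false false .up 0 2 3 (qsf 0 536870912 1073741824 536870912 3) ndN4q0 ndN4q2 pcN3 Cut.none Ext.none)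

def k0_mm_023 : ∃ t, chk3 f_mm_023 t 1 1 1 = true :=
  ⟨(l 4), by decide +kernel⟩

theorem c_mm_023 : CertN 0 536870912 1073741824 536870912 67108864 67108864 3 true false false .up 0 2 3
    ndN4q0 ndN4q2 pcN3 Cut.none Ext.none :=
  certNK0 (fam := true) (s1 := false) (s2 := false) (a := 0) (b := 2) (c := 3) (cn := .up) (n1 := ndN4q0) (n2 := ndN4q2) (pc := pcN3) (cut := Cut.none) (xt := Ext.none) (P1 := 0) (W1 := 536870912) (P2 := 1073741824) (W2 := 536870912) (P3 := 67108864) (W3 := 67108864) (N0 := 3)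
    rfl rfl rfl k0_mm_023

noncomputable def f_mm_033 : ℕ → ℕ → ℕ → ℕ → Bool := onCell 0 536870912 0 1230186008 67108864 67108864
    (rowNK 3 0 true false false .pnn 0 3 3 (qsf 0 536870912 0 1230186008 3) ndN4q0 ndN4q3 pcN3 Cut.none Ext.none)

def k0_mm_033 : ∃ t, chk3 f_mm_033 t 1 1 1 = true :=
  ⟨(l 4), by decide +kernel⟩

theorem c_mm_033 : CertN 0 536870912 0 1230186008 67108864 67108864 3 true false false .pnn 0 3 3
    ndN4q0 ndN4q3 pcN3 Cut.none Ext.none :=
  certNK0 (fam := true) (s1 := false) (s2 := false) (a := 0) (b := 3) (c := 3) (cn := .pnn) (n1 := ndN4q0) (n2 := ndN4q3) (pc := pcN3) (cut := Cut.none) (xt := Ext.none) (P1 := 0) (W1 := 536870912) (P2 := 0) (W2 := 1230186008) (P3 := 67108864) (W3 := 67108864) (N0 := 3)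
    rfl rfl rfl k0_mm_033

noncomputable def f_mm_101 : ℕ → ℕ → ℕ → ℕ → Bool := onCell 536870912 536870912 0 536870912 67108864 67108864
    (rowNK 3 0 true false false .npn 1 0 1 (qsf 536870912 536870912 0 536870912 1) ndN4q1 ndN4q0 pcN1 Cut.none Ext.none)

def k0_mm_101 : ∃ t, chk3 f_mm_101 t 1 1 1 = true :=
  ⟨(l 4), by decide +kernel⟩

theorem c_mm_101 : CertN 536870912 536870912 0 536870912 67108864 67108864 3 true false false .npn 1 0 1
    ndN4q1 ndN4q0 pcN1 Cut.none Ext.none :=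
  certNK0 (fam := true) (s1 := false) (s2 := false) (a := 1) (b := 0) (c := 1) (cn := .npn) (n1 := ndN4q1) (n2 := ndN4q0) (pc := pcN1) (cut := Cut.none) (xt := Ext.none) (P1 := 536870912) (W1 := 536870912) (P2 := 0) (W2 := 536870912) (P3 := 67108864) (W3 := 67108864) (N0 := 3)
    rfl rfl rfl k0_mm_101

noncomputable def f_mm_102 : ℕ → ℕ → ℕ → ℕ → Bool := onCell 536870912 536870912 0 536870912 67108864 67108864
    (rowNK 3 0 true false false .npp 1 0 2 (qsf 536870912 536870912 0 536870912 2) ndN4q1 ndN4q0 pcN2 Cut.none Ext.none)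

def k0_mm_102 : ∃ t, chk3 f_mm_102 t 1 1 1 = true :=
  ⟨(l 4), by decide +kernel⟩

theorem c_mm_102 : CertN 536870912 536870912 0 536870912 67108864 67108864 3 true false false .npp 1 0 2
    ndN4q1 ndN4q0 pcN2 Cut.none Ext.none :=
  certNK0 (fam := true) (s1 := false) (s2 := false) (a := 1) (b := 0) (c := 2) (cn := .npp) (n1 := ndN4q1) (n2 := ndN4q0) (pc := pcN2) (cut := Cut.none) (xt := Ext.none) (P1 := 536870912) (W1 := 536870912) (P2 := 0) (W2 := 536870912) (P3 := 67108864) (W3 := 67108864) (N0 := 3)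
    rfl rfl rfl k0_mm_102

noncomputable def f_mm_112 : ℕ → ℕ → ℕ → ℕ → Bool := onCell 536870912 536870912 536870912 536870912 67108864 67108864
    (rowNK 3 0 true false false .dn 1 1 2 (qsf 536870912 536870912 536870912 536870912 2) ndN4q1 ndN4q1 pcN2 Cut.none Ext.none)

def k0_mm_112 : ∃ t, chk3 f_mm_112 t 1 1 1 = true :=
  ⟨(l 4), by decide +kernel⟩

theorem c_mm_112 : CertN 536870912 536870912 536870912 536870912 67108864 67108864 3 true false false .dn 1 1 2
    ndN4q1 ndN4q1 pcN2 Cut.none Ext.none :=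
  certNK0 (fam := true) (s1 := false) (s2 := false) (a := 1) (b := 1) (c := 2) (cn := .dn) (n1 := ndN4q1) (n2 := ndN4q1) (pc := pcN2) (cut := Cut.none) (xt := Ext.none) (P1 := 536870912) (W1 := 536870912) (P2 := 536870912) (W2 := 536870912) (P3 := 67108864) (W3 := 67108864) (N0 := 3)
    rfl rfl rfl k0_mm_112

noncomputable def f_mm_113 : ℕ → ℕ → ℕ → ℕ → Bool := onCell 536870912 536870912 536870912 536870912 67108864 67108864
    (rowNK 3 0 true false false .nn 1 1 3 (qsf 536870912 536870912 536870912 536870912 3) ndN4q1 ndN4q1 pcN3 Cut.none Ext.none)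

def k0_mm_113 : ∃ t, chk3 f_mm_113 t 1 1 1 = true :=
  ⟨(l 4), by decide +kernel⟩

theorem c_mm_113 : CertN 536870912 536870912 536870912 536870912 67108864 67108864 3 true false false .nn 1 1 3
    ndN4q1 ndN4q1 pcN3 Cut.none Ext.none :=
  certNK0 (fam := true) (s1 := false) (s2 := false) (a := 1) (b := 1) (c := 3) (cn := .nn) (n1 := ndN4q1) (n2 := ndN4q1) (pc := pcN3) (cut := Cut.none) (xt := Ext.none) (P1 := 536870912) (W1 := 536870912) (P2 := 536870912) (W2 := 536870912) (P3 := 67108864) (W3 := 67108864) (N0 := 3)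
    rfl rfl rfl k0_mm_113

noncomputable def f_mm_123 : ℕ → ℕ → ℕ → ℕ → Bool := onCell 536870912 536870912 1073741824 536870912 67108864 67108864
    (rowNK 3 0 true false false .npn 1 2 3 (qsf 536870912 536870912 1073741824 536870912 3) ndN4q1 ndN4q2 pcN3 Cut.none Ext.none)

def k0_mm_123 : ∃ t, chk3 f_mm_123 t 1 1 1 = true :=
  ⟨(l 4), by decide +kernel⟩

theorem c_mm_123 : CertN 536870912 536870912 1073741824 536870912 67108864 67108864 3 true false false .npn 1 2 3
    ndN4q1 ndN4q2 pcN3 Cut.none Ext.none :=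
  certNK0 (fam := true) (s1 := false) (s2 := false) (a := 1) (b := 2) (c := 3) (cn := .npn) (n1 := ndN4q1) (n2 := ndN4q2) (pc := pcN3) (cut := Cut.none) (xt := Ext.none) (P1 := 536870912) (W1 := 536870912) (P2 := 1073741824) (W2 := 536870912) (P3 := 67108864) (W3 := 67108864) (N0 := 3)
    rfl rfl rfl k0_mm_123

noncomputable def f_mm_133 : ℕ → ℕ → ℕ → ℕ → Bool := onCell 536870912 536870912 0 1230186008 67108864 67108864
    (rowNK 3 0 true false false .dn 1 3 3 (qsf 536870912 536870912 0 1230186008 3) ndN4q1 ndN4q3 pcN3 Cut.none Ext.none)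

def k0_mm_133 : ∃ t, chk3 f_mm_133 t 1 1 1 = true :=
  ⟨(l 4), by decide +kernel⟩

theorem c_mm_133 : CertN 536870912 536870912 0 1230186008 67108864 67108864 3 true false false .dn 1 3 3
    ndN4q1 ndN4q3 pcN3 Cut.none Ext.none :=
  certNK0 (fam := true) (s1 := false) (s2 := false) (a := 1) (b := 3) (c := 3) (cn := .dn) (n1 := ndN4q1) (n2 := ndN4q3) (pc := pcN3) (cut := Cut.none) (xt := Ext.none) (P1 := 536870912) (W1 := 536870912) (P2 := 0) (W2 := 1230186008) (P3 := 67108864) (W3 := 67108864) (N0 := 3)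
    rfl rfl rfl k0_mm_133

noncomputable def f_mm_202 : ℕ → ℕ → ℕ → ℕ → Bool := onCell 1073741824 536870912 0 536870912 67108864 67108864
    (rowNK 3 0 true false false .pp 2 0 2 (qsf 1073741824 536870912 0 536870912 2) ndN4q2 ndN4q0 pcN2 Cut.none Ext.none)

def k0_mm_202 : ∃ t, chk3 f_mm_202 t 1 1 1 = true :=
  ⟨(l 4), by decide +kernel⟩

theorem c_mm_202 : CertN 1073741824 536870912 0 536870912 67108864 67108864 3 true false false .pp 2 0 2
    ndN4q2 ndN4q0 pcN2 Cut.none Ext.none :=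
  certNK0 (fam := true) (s1 := false) (s2 := false) (a := 2) (b := 0) (c := 2) (cn := .pp) (n1 := ndN4q2) (n2 := ndN4q0) (pc := pcN2) (cut := Cut.none) (xt := Ext.none) (P1 := 1073741824) (W1 := 536870912) (P2 := 0) (W2 := 536870912) (P3 := 67108864) (W3 := 67108864) (N0 := 3)
    rfl rfl rfl k0_mm_202

noncomputable def f_mm_203 : ℕ → ℕ → ℕ → ℕ → Bool := onCell 1073741824 536870912 0 536870912 67108864 67108864
    (rowNK 3 0 true false false .up 2 0 3 (qsf 1073741824 536870912 0 536870912 3) ndN4q2 ndN4q0 pcN3 Cut.none Ext.none)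

def k0_mm_203 : ∃ t, chk3 f_mm_203 t 1 1 1 = true :=
  ⟨(l 4), by decide +kernel⟩

theorem c_mm_203 : CertN 1073741824 536870912 0 536870912 67108864 67108864 3 true false false .up 2 0 3
    ndN4q2 ndN4q0 pcN3 Cut.none Ext.none :=
  certNK0 (fam := true) (s1 := false) (s2 := false) (a := 2) (b := 0) (c := 3) (cn := .up) (n1 := ndN4q2) (n2 := ndN4q0) (pc := pcN3) (cut := Cut.none) (xt := Ext.none) (P1 := 1073741824) (W1 := 536870912) (P2 := 0) (W2 := 536870912) (P3 := 67108864) (W3 := 67108864) (N0 := 3)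
    rfl rfl rfl k0_mm_203

noncomputable def f_mm_213 : ℕ → ℕ → ℕ → ℕ → Bool := onCell 1073741824 536870912 536870912 536870912 67108864 67108864
    (rowNK 3 0 true false false .pnn 2 1 3 (qsf 1073741824 536870912 536870912 536870912 3) ndN4q2 ndN4q1 pcN3 Cut.none Ext.none)

def k0_mm_213 : ∃ t, chk3 f_mm_213 t 1 1 1 = true :=
  ⟨(l 4), by decide +kernel⟩

theorem c_mm_213 : CertN 1073741824 536870912 536870912 536870912 67108864 67108864 3 true false false .pnn 2 1 3
    ndN4q2 ndN4q1 pcN3 Cut.none Ext.none :=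
  certNK0 (fam := true) (s1 := false) (s2 := false) (a := 2) (b := 1) (c := 3) (cn := .pnn) (n1 := ndN4q2) (n2 := ndN4q1) (pc := pcN3) (cut := Cut.none) (xt := Ext.none) (P1 := 1073741824) (W1 := 536870912) (P2 := 536870912) (W2 := 536870912) (P3 := 67108864) (W3 := 67108864) (N0 := 3)
    rfl rfl rfl k0_mm_213

noncomputable def f_mm_303 : ℕ → ℕ → ℕ → ℕ → Bool := onCell 0 1230186008 0 536870912 67108864 67108864
    (rowNK 3 0 true false false .npn 3 0 3 (qsf 0 1230186008 0 536870912 3) ndN4q3 ndN4q0 pcN3 Cut.none Ext.none)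

def k0_mm_303 : ∃ t, chk3 f_mm_303 t 1 1 1 = true :=
  ⟨(l 4), by decide +kernel⟩

theorem c_mm_303 : CertN 0 1230186008 0 536870912 67108864 67108864 3 true false false .npn 3 0 3
    ndN4q3 ndN4q0 pcN3 Cut.none Ext.none :=
  certNK0 (fam := true) (s1 := false) (s2 := false) (a := 3) (b := 0) (c := 3) (cn := .npn) (n1 := ndN4q3) (n2 := ndN4q0) (pc := pcN3) (cut := Cut.none) (xt := Ext.none) (P1 := 0) (W1 := 1230186008) (P2 := 0) (W2 := 536870912) (P3 := 67108864) (W3 := 67108864) (N0 := 3)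
    rfl rfl rfl k0_mm_303

noncomputable def f_mm_313 : ℕ → ℕ → ℕ → ℕ → Bool := onCell 0 1230186008 536870912 536870912 67108864 67108864
    (rowNK 3 0 true false false .dn 3 1 3 (qsf 0 1230186008 536870912 536870912 3) ndN4q3 ndN4q1 pcN3 Cut.none Ext.none)

def k0_mm_313 : ∃ t, chk3 f_mm_313 t 1 1 1 = true :=
  ⟨(l 4), by decide +kernel⟩

theorem c_mm_313 : CertN 0 1230186008 536870912 536870912 67108864 67108864 3 true false false .dn 3 1 3
    ndN4q3 ndN4q1 pcN3 Cut.none Ext.none :=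
  certNK0 (fam := true) (s1 := false) (s2 := false) (a := 3) (b := 1) (c := 3) (cn := .dn) (n1 := ndN4q3) (n2 := ndN4q1) (pc := pcN3) (cut := Cut.none) (xt := Ext.none) (P1 := 0) (W1 := 1230186008) (P2 := 536870912) (W2 := 536870912) (P3 := 67108864) (W3 := 67108864) (N0 := 3)
    rfl rfl rfl k0_mm_313

end Pool.Agent.Strip051.G.I1_16_1_8.Tab.C.NA44

namespace Pool.Agent.Strip051.G.I1_16_1_8.Tab.C.NB00

open Pool.Agent.Strip051.PB Pool.Agent.Strip051.PB.T
open Pool.Agent.Strip051.G.I1_16_1_8.Tab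

noncomputable def f_pp_001 : ℕ → ℕ → ℕ → ℕ → Bool := onCell 0 536870912 0 536870912 67108864 67108864
    (rowNK 3 1 false true true .up 0 0 1 (qsf 0 536870912 536870912 536870912 0) ndN0q0 ndN0q1 pcN0 Cut.none Ext.none)

def k0_pp_001 : ∃ t, chk3 f_pp_001 t 1 1 1 = true :=
  ⟨(l 3), by decide +kernel⟩

theorem c_pp_001 : CertN 0 536870912 536870912 536870912 67108864 67108864 3 false true true .up 0 0 1
    ndN0q0 ndN0q1 pcN0 Cut.none Ext.none :=
  certNK1 (fam := false) (s1 := true) (s2 := true) (a := 0) (b := 0) (c := 1) (cn := .up) (n1 := ndN0q0) (n2 := ndN0q1) (pc := pcN0) (cut := Cut.none) (xt := Ext.none) (P1 := 0) (W1 := 536870912) (P2 := 536870912) (W2 := 536870912) (P3 := 67108864) (W3 := 67108864) (N0 := 3)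
    rfl rfl rfl (fun _ => rfl) k0_pp_001

noncomputable def cut_pp_011 : Cut := Cut.of [[⟨0, 0, 0, 67108864⟩, ⟨1, 1, 0, 67108864⟩, ⟨2, 1, 0, 67108864⟩]]

noncomputable def f_pp_011 : ℕ → ℕ → ℕ → ℕ → Bool := onCell 536870912 536870912 536870912 536870912 67108864 67108864
    (rowNK 3 2 false true true .pnn 0 1 1 (qsf 0 536870912 536870912 536870912 1) ndN0q0 ndN0q1 pcN1 cut_pp_011 Ext.none)

def k0_pp_011 : ∃ t, chk3 f_pp_011 t 1 1 1 = true :=
  ⟨(a (l 3) (b (l 3) (a (l 3) (b (l 3) (a (l 3) (b (l 3) (b (l 3) (a (l 3) (l 6))))))))), by decide +kernel⟩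

theorem c_pp_011 : CertN 0 536870912 536870912 536870912 67108864 67108864 3 false true true .pnn 0 1 1
    ndN0q0 ndN0q1 pcN1 cut_pp_011 Ext.none :=
  certNK2 (fam := false) (s1 := true) (s2 := true) (a := 0) (b := 1) (c := 1) (cn := .pnn) (n1 := ndN0q0) (n2 := ndN0q1) (pc := pcN1) (cut := cut_pp_011) (xt := Ext.none) (P1 := 0) (W1 := 536870912) (P2 := 536870912) (W2 := 536870912) (P3 := 67108864) (W3 := 67108864) (N0 := 3)
    rfl rfl rfl (fun _ => rfl) k0_pp_011

noncomputable def cut_pp_012 : Cut := Cut.of [[⟨0, 0, 0, 67108864⟩, ⟨1, 1, 0, 67108864⟩, ⟨2, 1, 0, 67108864⟩]]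

noncomputable def f_pp_012 : ℕ → ℕ → ℕ → ℕ → Bool := onCell 536870912 536870912 0 536870912 67108864 67108864
    (rowNK 3 2 false true true .pnp 0 1 2 (qsf 0 536870912 0 536870912 1) ndN0q0 ndN0q2 pcN1 cut_pp_012 Ext.none)

def k0_pp_012 : ∃ t, chk3 f_pp_012 t 2 1 1 = true :=
  ⟨(b (a (b (l 2) (l 3)) (b (a (a (a (l 2) (b (l 134318809575) (l 102710275831))) (b (l 17017976) (b (l 82846197639) (a (l 94657123079) (l 74792959127))))) (b (l 17064264) (a (b (l 16898576) (b (l 16881416) (l 82846126407))) (l 16918400)))) (a (l 3) (b (a (b (l 83382973527) (l 3)) (b (a (l 76940496583) (l 16858728)) (a (l 87677806807) (b (l 16848456) (l 90362163127))))) (l 3))))) (l 3)), by decide +kernel⟩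

def k1_pp_012 : ∃ t, chk3 f_pp_012 t 3 2 1 = true :=
  ⟨(a (b (a (b (l 17077272) (l 17047240)) (b (l 17267848) (l 17175552))) (a (a (b (b (l 16890600) (a (l 83919838919) (l 16857680))) (b (b (l 86067302359) (l 84993516775)) (l 3))) (b (l 16926296) (b (a (l 76403625575) (l 16865464)) (a (l 82309140919) (b (l 16829160) (l 78014131815)))))) (b (a (l 17016976) (l 17126200)) (a (b (l 16930288) (a (b (l 16862040) (l 16832256)) (l 16890856))) (b (l 17034768) (l 16968192)))))) (b (a (a (l 17411688) (l 17550616)) (a (l 17682616) (b (l 17821672) (a (l 17709056) (l 17726688))))) (a (a (b (l 17251688) (l 16995656)) (b (l 17386664) (l 17250080))) (a (b (l 17512960) (a (l 17338944) (l 17383432))) (b (a (l 17575288) (l 17347528)) (a (b (l 17451704) (l 17353768)) (b (l 17370888) (a (l 17330232) (l 17269000))))))))), by decide +kernel⟩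

def k2_pp_012 : ∃ t, chk3 f_pp_012 t 6 3 1 = true :=
  ⟨(b (a (b (a (l 3) (b (l 113447680631) (l 3))) (l 3)) (b (a (b (a (b (l 73719205687) (l 95730865751)) (b (l 16841384) (a (l 81235350471) (l 16820160)))) (a (l 3) (b (l 93583400599) (l 3)))) (b (a (l 16807864) (l 16881912)) (a (b (a (l 76403538807) (l 16828960)) (a (l 101099570103) (l 83382847671))) (b (l 16866360) (a (b (l 16825288) (l 71571681591)) (l 16840216)))))) (a (l 3) (b (a (l 3) (b (a (l 96804619399) (b (l 16813544) (l 81772229447))) (a (l 3) (b (l 100025822759) (l 3))))) (l 3))))) (l 3)), by decide +kernel⟩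

def k3_pp_012 : ∃ t, chk3 f_pp_012 t 14 6 1 = true :=
  ⟨(b (a (b (l 16844192) (a (l 16860072) (l 16961392))) (b (l 17134904) (a (l 17021416) (l 17077584)))) (a (b (a (b (b (l 16850088) (l 16808512)) (a (b (a (l 92509624327) (l 67813570071)) (l 100562690519)) (b (l 16822416) (a (l 78550989287) (l 16810704))))) (b (l 16876112) (a (l 16817712) (l 16867344)))) (a (b (a (l 3) (b (a (l 101636431031) (l 93046492071)) (l 3))) (l 3)) (b (a (b (a (b (l 16808968) (l 76940371159)) (l 16814552)) (a (l 103247039959) (b (l 68887305671) (l 94120230935)))) (b (l 16834056) (a (b (l 16812328) (l 16805720)) (l 16819520)))) (a (b (a (l 3) (l 102710170919)) (l 3)) (b (a (b (a (l 95730842487) (l 83382815783)) (l 99488940839)) (b (l 16806512) (a (l 91972744551) (l 16801336)))) (a (l 3) (b (a (l 101636423671) (l 99488937143)) (l 3)))))))) (b (a (l 16812512) (b (l 17009744) (l 16963152))) (b (a (a (l 16830008) (l 16878712)) (l 16874296)) (a (a (b (a (l 16791160) (l 16824672)) (a (b (a (b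 (l 16800592) (l 92509617031)) (l 16804072)) (a (l 100025808535) (b (l 87140907255) (l 97878322775)))) (a (a (b (l 16806024) (l 16799672)) (l 16799480)) (l 16807936)))) (b (l 16844672) (l 16801792))) (a (l 16837696) (l 16880080))))))), by decide +kernel⟩

def k4_pp_012 : ∃ t, chk3 f_pp_012 t 15 6 1 = true :=
  ⟨(b (a (b (a (l 17214640) (l 17246696)) (a (l 17122360) (l 17037672))) (a (b (l 17137304) (a (l 17127840) (l 17032128))) (b (a (l 17175168) (l 17006952)) (a (l 16930224) (l 16768896))))) (b (a (a (b (l 17049488) (l 16999304)) (b (l 17058680) (l 16957976))) (a (a (l 16907824) (l 16829432)) (a (l 16774528) (b (l 16755056) (l 16689712))))) (a (a (b (l 16906888) (a (l 16895112) (l 16900504))) (b (l 16814008) (a (l 16891576) (l 16861576)))) (a (a (b (l 16879776) (l 16800592)) (b (l 16796088) (l 16738568))) (a (b (l 16714616) (l 16721560)) (b (l 16745096) (a (l 16715360) (l 16716744)))))))), by decide +kernel⟩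

def k5_pp_012 : ∃ t, chk3 f_pp_012 t 28 14 1 = true :=
  ⟨(l 3), by decide +kernel⟩

def k6_pp_012 : ∃ t, chk3 f_pp_012 t 29 28 1 = true :=
  ⟨(a (b (a (b (a (l 3) (b (a (b (l 92509612711) (l 101099548775)) (b (l 16799656) (l 93583353719))) (a (l 3) (l 101099548695)))) (l 3)) (b (a (b (c (l 16795848) (l 16799016)) (b (a (c (l 87140908391) (l 86604034039)) (l 16801816)) (a (l 97341449991) (c (l 16798968) (l 78014098503))))) (l 16798264)) (a (a (l 3) (b (a (l 101099546855) (b (l 92509611607) (l 101636416967))) (l 3))) (b (a (b (l 16798912) (c (l 93583353175) (a (l 96267704855) (l 88751514103)))) (l 16795600)) (a (b (l 101099543047) (l 3)) (b (c (l 83919680999) (a (l 97878316743) (l 16796920))) (c (l 97341449527) (l 99488929991)))))))) (l 3)) (b (a (b (l 16825872) (a (b (l 16805720) (a (a (b (l 16800056) (a (l 91972738615) (l 16796880))) (l 16799712)) (l 16800208))) (l 16811072))) (l 16796520)) (a (b (a (b (a (b (c (l 99488931271) (a (l 100562670695) (l 97341443975)))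 (l 102173285991)) (b (c (l 16798880) (l 16797728)) (c (l 89825258231) (a (l 98952056071) (l 84993414455))))) (a (l 3) (b (l 100562671031) (l 3)))) (b (a (l 16792872) (l 16800248)) (a (a (b (c (l 94657089847) (l 94657087159)) (l 101636411655)) (b (l 16795656) (c (l 97341443831) (l 98952053847)))) (a (b (l 16797120) (c (l 83382802407) (l 82309057847))) (l 16796712))))) (a (l 3) (b (a (l 3) (b (c (l 96267700983) (a (l 101099537207) (l 91972735639))) (l 102710152471))) (l 3)))) (b (a (l 16791824) (l 16810448)) (b (a (a (a (b (l 16795152) (l 101099536599)) (b (l 16795680) (a (l 87140893815) (l 16793848)))) (l 16795064)) (l 16797952)) (b (a (a (c (l 100025796983) (l 102710148935)) (a (a (l 98415180519) (l 84993409095)) (l 16794416))) (l 16793536)) (a (a (l 3) (a (l 102173278167) (l 99488921639))) (a (a (a (l 83382795303) (l 16793480)) (l 16793720)) (l 16793072))))))))), by decide +kernel⟩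

def k7_pp_012 : ∃ t, chk3 f_pp_012 t 29 29 1 = true :=
  ⟨(a (l 3) (b (a (l 3) (b (a (l 3) (b (b (b (a (a (l 98952049991) (l 16792000)) (l 16793088)) (a (l 102710146423) (l 16792968))) (a (l 102710148199) (b (a (l 91435857655) (l 16792688)) (a (l 100562661559) (l 82845922199))))) (a (l 3) (b (c (l 103247018007) (l 107005112119)) (l 3))))) (l 3))) (l 3))), by decide +kernel⟩

def k8_pp_012 : ∃ t, chk3 f_pp_012 t 14 15 1 = true :=
  ⟨(l 3), by decide +kernel⟩

def k9_pp_012 : ∃ t, chk3 f_pp_012 t 30 28 1 = true :=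
  ⟨(a (b (a (l 16807720) (l 16810432)) (a (b (l 16819472) (c (l 16804360) (l 16787920))) (b (l 16820592) (l 16802704)))) (b (a (l 16817128) (l 16798312)) (a (l 16778672) (l 16770224)))), by decide +kernel⟩

def k10_pp_012 : ∃ t, chk3 f_pp_012 t 60 29 1 = true :=
  ⟨(b (a (b (a (b (c (l 16788592) (l 16790832)) (a (a (b (a (l 90362114967) (l 75866599687)) (l 102173273911)) (b (l 16791888) (c (l 93046467399) (l 94120209831)))) (a (a (b (l 16791616) (l 72645373159)) (l 16790088)) (l 16791000)))) (l 16790560)) (a (b (a (l 3) (b (a (l 103247013559) (b (l 16790904) (l 91972725463))) (l 106468240455))) (l 3)) (b (b (l 16788480) (a (b (a (l 81235306599) (l 16790232)) (a (l 102710141015) (l 70497887511))) (l 16789456))) (a (b (c (l 101636400967) (l 104857624503)) (l 3)) (a (b (b (l 16789776) (l 85530272999)) (l 104857624359)) (b (l 16789416) (b (l 73719112583) (l 102173268055)))))))) (b (c (l 16787048) (l 16787504)) (a (a (b (l 16787608) (c (l 16789248) (l 16788160))) (l 16786400))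 (l 16783464)))) (a (l 3) (b (a (b (a (b (a (a (l 104320751799) (l 94120206055)) (b (l 16788648) (a (l 94120206503) (l 16788080)))) (c (l 103247011847) (l 107541977399))) (a (b (l 16788192) (b (a (l 80161562487) (l 16788176)) (l 97341427863))) (l 16787720))) (a (l 3) (b (a (l 103783880871) (a (l 104320749815) (a (l 95193943479) (l 83382787287)))) (l 3)))) (b (l 16785584) (a (b (b (l 16787224) (a (a (l 84993399911) (l 16787440)) (l 16787096))) (a (l 103247007655) (a (b (l 16788096) (l 103783877303)) (b (l 16787096) (l 80698432199))))) (l 16787384)))) (a (l 3) (b (a (b (c (l 103247010199) (l 109689459591)) (l 3)) (a (b (a (l 99488909655) (b (l 16788032) (l 103783876343))) (l 3)) (b (a (b (l 16786560) (l 76403463895)) (l 16786352)) (c (l 98415168215) (l 101099521383))))) (l 3)))))), by decide +kernel⟩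

def k11_pp_012 : ∃ t, chk3 f_pp_012 t 61 29 1 = true :=
  ⟨(b (a (b (l 16784256) (c (l 16783360) (l 16781624))) (b (l 16784264) (l 16776048))) (b (a (a (c (l 16785624) (l 16787192)) (l 16783208)) (a (l 16783696) (l 16789080))) (a (b (a (b (l 16784416) (a (b (l 16787160) (a (a (l 101099520823) (l 71571624695)) (l 16785752))) (l 16784264))) (l 16791176)) (a (a (b (a (l 105931360663) (b (a (l 83382784743) (l 16785760)) (l 100562649591))) (l 3)) (a (b (c (l 28085078327) (l 16785112)) (a (l 105931358999) (b (l 76940332935) (l 103783874727)))) (b (l 16784608) (a (b (l 16785272) (l 88214621831)) (l 30232559463))))) (c (l 16785504) (l 16784872)))) (a (c (l 16781392) (l 16782056)) (l 16777520))))), by decide +kernel⟩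

def k12_pp_012 : ∃ t, chk3 f_pp_012 t 31 14 1 = true :=
  ⟨(a (b (b (a (l 16760152) (l 16766360)) (a (b (l 16765048) (l 16768648)) (b (l 16751032) (l 16755120)))) (b (a (b (l 16772480) (a (l 16758520) (l 16773512))) (b (l 16748944) (a (l 16767224) (l 16760624)))) (a (a (b (l 16783656) (l 16772320)) (b (l 16777912) (l 16766808))) (b (a (l 16771856) (l 16765488)) (a (b (l 16775456) (l 16777936)) (l 6)))))) (b (a (a (b (l 16733512) (l 16741976)) (b (l 16727256) (l 16739672))) (b (a (l 16727880) (l 16728760)) (b (l 16721392) (l 16727072)))) (b (a (a (b (l 16749112) (l 16755104)) (l 16738360)) (a (l 16737984) (l 6))) (a (a (b (l 16760936) (l 6)) (l 6)) (l 6))))), by decide +kernel⟩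

def k13_pp_012 : ∃ t, chk3 f_pp_012 t 60 30 1 = true :=
  ⟨(l 3), by decide +kernel⟩

def k14_pp_012 : ∃ t, chk3 f_pp_012 t 61 60 1 = true :=
  ⟨(a (b (a (b (a (l 3) (b (c (a (l 3) (l 103247004839)) (l 107541972343)) (l 3))) (l 3)) (b (b (a (a (a (b (a (l 83382782295) (l 16786232)) (l 105931357431)) (b (l 16784776) (l 83919653623))) (l 16785688)) (l 16782944)) (a (a (l 3) (b (a (l 99488905383) (a (l 78014072375) (l 16785792))) (l 106468228135))) (a (a (b (l 16784280) (c (l 79087814231) (l 78014071415))) (l 16784056)) (l 16783376)))) (a (l 3) (b (b (c (a (l 97878292935) (l 32380042535)) (a (l 101099517351) (l 16783704))) (a (l 3) (a (l 104857613767) (b (l 16785248) (l 87677747447))))) (c (a (l 3) (l 103247003447)) (l 108078842071)))))) (l 3)) (a (b (b (l 16784792) (a (b (l 16785448) (b (a (a (c (l 89288361991) (l 83919650439)) (b (l 16783584) (l 64592297431))) (l 16783040)) (a (l 102173264263) (a (b (l 16783504) (l 79624683095)) (l 16783240))))) (l 16786456))) (a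 (a (l 3) (b (b (b (a (l 106468225815) (b (l 68350393543) (l 93046455639))) (l 3)) (l 3)) (l 3))) (b (a (b (b (l 16782992) (a (l 96267682615) (c (l 43654329431) (l 43654328887)))) (c (l 102710130663) (l 108078838855))) (b (l 16782264) (b (b (l 16784144) (a (l 87140874727) (l 16784120))) (a (l 107541967031) (a (l 102710127719) (l 80161553095)))))) (l 3)))) (b (b (l 16786016) (l 16781704)) (b (a (a (b (l 16781192) (c (c (l 19495137527) (l 16783352)) (l 16783368))) (l 16785880)) (l 16784152)) (b (a (b (a (a (l 101099514903) (a (b (l 16782616) (l 94120195335)) (l 39896230903))) (l 16782016)) (a (l 105394483255) (a (a (l 96267675911) (b (l 16782424) (l 92509582167))) (l 16783560)))) (l 16785912)) (a (a (l 3) (a (l 3) (a (l 105931353495) (b (l 93046455255) (l 3))))) (a (a (b (a (l 54391746375) (l 16782120)) (l 105394481591)) (b (l 16781784) (b (l 42043714439) (l 6)))) (l 16782584)))))))), by decide +kernel⟩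

def k15_pp_012 : ∃ t, chk3 f_pp_012 t 61 61 1 = true :=
  ⟨(a (l 3) (a (l 3) (a (l 3) (a (l 3) (l 6))))), by decide +kernel⟩

def k16_pp_012 : ∃ t, chk3 f_pp_012 t 30 31 1 = true :=
  ⟨(l 3), by decide +kernel⟩

def k17_pp_012 : ∃ t, chk3 f_pp_012 t 31 15 1 = true :=
  ⟨(b (a (b (a (a (b (b (l 16780992) (l 16778112)) (b (c (l 16779408) (l 16780336)) (a (l 16781576) (l 6)))) (b (a (l 16778240) (l 16775520)) (l 6))) (l 6)) (l 6)) (l 6)) (l 6)), by decide +kernel⟩

theorem s18_pp_012 : ∃ t, chk3 f_pp_012 t 61 30 1 = true := ex3_b k14_pp_012 k15_pp_012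

theorem s19_pp_012 : ∃ t, chk3 f_pp_012 t 30 30 1 = true := ex3_a k13_pp_012 s18_pp_012

theorem s20_pp_012 : ∃ t, chk3 f_pp_012 t 30 15 1 = true := ex3_b s19_pp_012 k16_pp_012

theorem s21_pp_012 : ∃ t, chk3 f_pp_012 t 15 15 1 = true := ex3_a s20_pp_012 k17_pp_012

theorem s22_pp_012 : ∃ t, chk3 f_pp_012 t 30 29 1 = true := ex3_a k10_pp_012 k11_pp_012

theorem s23_pp_012 : ∃ t, chk3 f_pp_012 t 30 14 1 = true := ex3_b k9_pp_012 s22_pp_012

theorem s24_pp_012 : ∃ t, chk3 f_pp_012 t 15 14 1 = true := ex3_a s23_pp_012 k12_pp_012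

theorem s25_pp_012 : ∃ t, chk3 f_pp_012 t 15 7 1 = true := ex3_b s24_pp_012 s21_pp_012

theorem s26_pp_012 : ∃ t, chk3 f_pp_012 t 29 14 1 = true := ex3_b k6_pp_012 k7_pp_012

theorem s27_pp_012 : ∃ t, chk3 f_pp_012 t 14 14 1 = true := ex3_a k5_pp_012 s26_pp_012

theorem s28_pp_012 : ∃ t, chk3 f_pp_012 t 14 7 1 = true := ex3_b s27_pp_012 k8_pp_012

theorem s29_pp_012 : ∃ t, chk3 f_pp_012 t 7 7 1 = true := ex3_a s28_pp_012 s25_pp_012

theorem s30_pp_012 : ∃ t, chk3 f_pp_012 t 7 6 1 = true := ex3_a k3_pp_012 k4_pp_012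

theorem s31_pp_012 : ∃ t, chk3 f_pp_012 t 7 3 1 = true := ex3_b s30_pp_012 s29_pp_012

theorem s32_pp_012 : ∃ t, chk3 f_pp_012 t 3 3 1 = true := ex3_a k2_pp_012 s31_pp_012

theorem s33_pp_012 : ∃ t, chk3 f_pp_012 t 3 1 1 = true := ex3_b k1_pp_012 s32_pp_012

theorem s34_pp_012 : ∃ t, chk3 f_pp_012 t 1 1 1 = true := ex3_a k0_pp_012 s33_pp_012

theorem c_pp_012 : CertN 0 536870912 0 536870912 67108864 67108864 3 false true true .pnp 0 1 2
    ndN0q0 ndN0q2 pcN1 cut_pp_012 Ext.none :=
  certNK2 (fam := false) (s1 := true) (s2 := true) (a := 0) (b := 1) (c := 2) (cn := .pnp) (n1 := ndN0q0) (n2 := ndN0q2) (pc := pcN1) (cut := cut_pp_012) (xt := Ext.none) (P1 := 0) (W1 := 536870912) (P2 := 0) (W2 := 536870912) (P3 := 67108864) (W3 := 67108864) (N0 := 3)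
    rfl rfl rfl (fun _ => rfl) s34_pp_012

noncomputable def cut_pp_022 : Cut := Cut.of [[⟨0, 0, 0, 67108864⟩, ⟨1, 1, 0, 67108864⟩, ⟨2, 1, 0, 67108864⟩]]

noncomputable def f_pp_022 : ℕ → ℕ → ℕ → ℕ → Bool := onCell 1073741824 536870912 0 536870912 67108864 67108864
    (rowNK 3 2 false true true .pp 0 2 2 (qsf 0 536870912 0 536870912 2) ndN0q0 ndN0q2 pcN2 cut_pp_022 Ext.none)

def k0_pp_022 : ∃ t, chk3 f_pp_022 t 2 2 1 = true :=
  ⟨(a (b (a (c (a (l 18212008) (l 18248512)) (b (l 17536832) (a (l 17401648) (l 17432872)))) (b (l 17891912) (a (l 17883784) (l 17981416)))) (a (a (b (b (l 17653616) (l 17556992)) (b (l 17250768) (a (l 17163520) (l 17282448)))) (b (a (l 17574208) (l 17672120)) (a (a (l 17269344) (l 17222032)) (b (l 17511920) (l 17259824))))) (a (b (a (l 17715456) (l 17766984)) (a (b (l 17558440) (l 17306736)) (b (l 17613840) (l 17258400)))) (b (b (l 17897728) (l 17566000)) (c (b (l 18149560) (l 18043536)) (b (a (l 17240584) (l 17305456)) (a (l 17059584) (l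 18287288695)))))))) (a (a (b (b (l 18139480) (l 17862256)) (c (b (l 18386008) (l 127274350695)) (b (b (l 23657199799) (a (l 17508904) (l 17575608))) (a (b (l 17351504) (l 17184352)) (l 1))))) (b (l 160560250983) (l 1))) (l 1))), by decide +kernel⟩

def k1_pp_022 : ∃ t, chk3 f_pp_022 t 2 6 1 = true :=
  ⟨(a (a (a (b (b (a (l 16879768) (l 17034296)) (a (l 16670384) (l 16810600))) (b (a (b (l 16679816) (l 16691296)) (a (l 16670064) (l 16676144))) (a (a (b (l 16711608) (l 16717328)) (b (l 16694512) (b (l 16703080) (l 16708592)))) (b (l 16683192) (b (l 16688960) (l 16693128)))))) (a (b (a (b (l 17132248) (l 16877984)) (b (l 17124200) (l 16885136))) (b (a (l 16660952) (l 16688640)) (a (b (l 16669000) (l 16675736)) (b (l 16695744) (l 16701656))))) (b (b (c (l 17642048) (l 16696712)) (l 16703504)) (b (a (l 16672704) (l 16678408)) (a (b (l 16678520) (l 16704328)) (b (l 16682744) (l 16686576))))))) (b (b (a (a (c (l 17705416) (l 16721696)) (c (l 17777608) (l 16758992))) (c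 (a (l 17857032) (l 17926088)) (a (l 16723512) (l 16737680)))) (a (a (l 16707400) (b (l 16879720) (l 16770280))) (a (b (c (l 17660448) (l 16705640)) (l 16716848)) (l 1)))) (a (b (a (b (l 16687200) (l 16709320)) (a (l 16691656) (l 16695400))) (a (b (a (l 16685968) (l 16688912)) (a (l 16699272) (a (l 16689664) (l 16690640)))) (b (a (l 16691552) (l 1)) (l 1)))) (b (a (b (l 16705696) (l 1)) (l 1)) (l 1))))) (l 1)), by decide +kernel⟩

def k2_pp_022 : ∃ t, chk3 f_pp_022 t 2 7 1 = true :=
  ⟨(a (a (a (b (b (b (a (a (c (l 16729304) (l 16726152)) (b (l 16713968) (l 16719192))) (b (l 16697544) (a (l 16702768) (l 16682648)))) (b (a (a (l 16729880) (l 16724232)) (c (l 16700168) (l 16707288))) (l 6))) (l 6)) (l 6)) (a (b (b (a (b (l 16683336) (l 16696768)) (a (b (l 16685160) (l 16692536)) (b (l 16686544) (l 16703880)))) (l 6)) (l 6)) (b (a (b (b (c (l 16700224) (l 16698384)) (b (l 16703792) (l 6))) (l 6)) (a (b (b (l 16689600) (b (l 16693464) (l 6))) (l 6)) (b (b (l 16690400)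 (b (l 16693888) (l 16696424))) (l 1)))) (l 1)))) (a (b (b (a (b (a (b (l 16701752) (a (l 16692096) (l 16692616))) (l 16693192)) (a (b (l 16695176) (l 1)) (l 1))) (l 1)) (l 1)) (l 1)) (l 1))) (l 1)), by decide +kernel⟩

def k3_pp_022 : ∃ t, chk3 f_pp_022 t 3 1 1 = true :=
  ⟨(l 1), by decide +kernel⟩

theorem s4_pp_022 : ∃ t, chk3 f_pp_022 t 2 3 1 = true := ex3_b k1_pp_022 k2_pp_022

theorem s5_pp_022 : ∃ t, chk3 f_pp_022 t 2 1 1 = true := ex3_b k0_pp_022 s4_pp_022

theorem s6_pp_022 : ∃ t, chk3 f_pp_022 t 1 1 1 = true := ex3_a s5_pp_022 k3_pp_022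

theorem c_pp_022 : CertN 0 536870912 0 536870912 67108864 67108864 3 false true true .pp 0 2 2
    ndN0q0 ndN0q2 pcN2 cut_pp_022 Ext.none :=
  certNK2 (fam := false) (s1 := true) (s2 := true) (a := 0) (b := 2) (c := 2) (cn := .pp) (n1 := ndN0q0) (n2 := ndN0q2) (pc := pcN2) (cut := cut_pp_022) (xt := Ext.none) (P1 := 0) (W1 := 536870912) (P2 := 0) (W2 := 536870912) (P3 := 67108864) (W3 := 67108864) (N0 := 3)
    rfl rfl rfl (fun _ => rfl) s6_pp_022

noncomputable def f_pp_101 : ℕ → ℕ → ℕ → ℕ → Bool := onCell 536870912 536870912 536870912 536870912 67108864 67108864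
    (rowNK 3 0 false true true .npn 1 0 1 (qsf 536870912 536870912 536870912 536870912 0) ndN0q1 ndN0q1 pcN0 Cut.none Ext.none)

def k0_pp_101 : ∃ t, chk3 f_pp_101 t 1 1 1 = true :=
  ⟨(l 3), by decide +kernel⟩

theorem c_pp_101 : CertN 536870912 536870912 536870912 536870912 67108864 67108864 3 false true true .npn 1 0 1
    ndN0q1 ndN0q1 pcN0 Cut.none Ext.none :=
  certNK0 (fam := false) (s1 := true) (s2 := true) (a := 1) (b := 0) (c := 1) (cn := .npn) (n1 := ndN0q1) (n2 := ndN0q1) (pc := pcN0) (cut := Cut.none) (xt := Ext.none) (P1 := 536870912) (W1 := 536870912) (P2 := 536870912) (W2 := 536870912) (P3 := 67108864) (W3 := 67108864) (N0 := 3)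
    rfl rfl rfl k0_pp_101

noncomputable def f_pp_102 : ℕ → ℕ → ℕ → ℕ → Bool := onCell 0 536870912 0 536870912 67108864 67108864
    (rowNK 3 2 false true true .npp 1 0 2 (qsf 536870912 536870912 0 536870912 0) ndN0q1 ndN0q2 pcN0 Cut.none Ext.none)

def k0_pp_102 : ∃ t, chk3 f_pp_102 t 1 1 1 = true :=
  ⟨(a (a (l 3) (l 3)) (l 3)), by decide +kernel⟩

theorem c_pp_102 : CertN 536870912 536870912 0 536870912 67108864 67108864 3 false true true .npp 1 0 2
    ndN0q1 ndN0q2 pcN0 Cut.none Ext.none :=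
  certNK2 (fam := false) (s1 := true) (s2 := true) (a := 1) (b := 0) (c := 2) (cn := .npp) (n1 := ndN0q1) (n2 := ndN0q2) (pc := pcN0) (cut := Cut.none) (xt := Ext.none) (P1 := 536870912) (W1 := 536870912) (P2 := 0) (W2 := 536870912) (P3 := 67108864) (W3 := 67108864) (N0 := 3)
    rfl rfl rfl (fun _ => rfl) k0_pp_102

noncomputable def f_pp_112 : ℕ → ℕ → ℕ → ℕ → Bool := onCell 536870912 536870912 0 536870912 67108864 67108864
    (rowNK 3 0 false true true .dn 1 1 2 (qsf 536870912 536870912 0 536870912 1) ndN0q1 ndN0q2 pcN1 Cut.none Ext.none)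

def k0_pp_112 : ∃ t, chk3 f_pp_112 t 1 1 1 = true :=
  ⟨(a (b (a (b (a (b (a (b (l 16907296) (a (l 16817136) (l 89825442231))) (b (a (l 16842256) (l 90362319415)) (l 99489047207))) (a (b (l 100562789495) (l 3)) (l 3))) (b (a (b (l 100025917079) (l 3)) (l 3)) (l 3))) (l 3)) (l 3)) (l 3)) (l 1)), by decide +kernel⟩

theorem c_pp_112 : CertN 536870912 536870912 0 536870912 67108864 67108864 3 false true true .dn 1 1 2
    ndN0q1 ndN0q2 pcN1 Cut.none Ext.none :=
  certNK0 (fam := false) (s1 := true) (s2 := true) (a := 1) (b := 1) (c := 2) (cn := .dn) (n1 := ndN0q1) (n2 := ndN0q2) (pc := pcN1) (cut := Cut.none) (xt := Ext.none) (P1 := 536870912) (W1 := 536870912) (P2 := 0) (W2 := 536870912) (P3 := 67108864) (W3 := 67108864) (N0 := 3)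
    rfl rfl rfl k0_pp_112

noncomputable def f_pp_202 : ℕ → ℕ → ℕ → ℕ → Bool := onCell 0 536870912 0 536870912 67108864 67108864
    (rowNK 3 0 false true true .pp 2 0 2 (qsf 0 536870912 0 536870912 0) ndN0q2 ndN0q2 pcN0 Cut.none Ext.none)

def k0_pp_202 : ∃ t, chk3 f_pp_202 t 1 1 1 = true :=
  ⟨(l 3), by decide +kernel⟩

theorem c_pp_202 : CertN 0 536870912 0 536870912 67108864 67108864 3 false true true .pp 2 0 2
    ndN0q2 ndN0q2 pcN0 Cut.none Ext.none :=
  certNK0 (fam := false) (s1 := true) (s2 := true) (a := 2) (b := 0) (c := 2) (cn := .pp) (n1 := ndN0q2) (n2 := ndN0q2) (pc := pcN0) (cut := Cut.none) (xt := Ext.none) (P1 := 0) (W1 := 536870912) (P2 := 0) (W2 := 536870912) (P3 := 67108864) (W3 := 67108864) (N0 := 3)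
    rfl rfl rfl k0_pp_202

noncomputable def f_pm_001 : ℕ → ℕ → ℕ → ℕ → Bool := onCell 0 536870912 536870912 536870912 67108864 67108864
    (rowNK 3 0 false true false .up 0 0 1 (qsf 0 536870912 536870912 536870912 0) ndN0q0 ndN0q1 pcN0 Cut.none Ext.none)

def k0_pm_001 : ∃ t, chk3 f_pm_001 t 2 1 1 = true :=
  ⟨(b (l 4) (b (b (l 4) (l 2)) (l 2))), by decide +kernel⟩

def k1_pm_001 : ∃ t, chk3 f_pm_001 t 3 2 1 = true :=
  ⟨(b (l 4) (a (l 4) (b (a (l 4) (b (a (l 4) (b (l 4) (a (l 4) (l 117809755959)))) (a (b (l 4) (a (l 4) (l 117272931831))) (b (a (l 118346661223) (l 86134408791)) (l 84523837927))))) (a (b (a (l 4) (b (l 4) (a (l 4) (b (l 112977876215) (l 108146031207))))) (a (b (a (l 4) (b (l 4) (l 114051688471))) (a (b (l 4) (a (l 4) (l 103851070743))) (b (l 105998596967) (l 16847512)))) (b (a (b (l 113514777687) (l 90429349271)) (l 16842464)) (l 16875320)))) (a (b (b (a (b (l 114588500791) (l 108146021495)) (l 16856312)) (l 81302608279)) (l 16875416)) (b (l 16855784)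 (l 16952584))))))), by decide +kernel⟩

def k2_pm_001 : ∃ t, chk3 f_pm_001 t 3 6 1 = true :=
  ⟨(a (a (b (a (l 4) (b (l 4) (b (l 4) (a (l 4) (b (l 4) (a (l 111367300679) (b (l 99556106919) (l 89355604423)))))))) (b (a (l 2) (b (a (l 2) (b (a (l 2) (b (l 16816792) (l 2))) (l 2))) (l 2))) (l 2))) (b (b (a (l 4) (b (a (l 4) (b (l 4) (l 103314286183))) (a (a (a (l 108682984679) (l 108146104423)) (l 93113737463)) (b (l 77544461831) (l 16826672))))) (a (b (a (b (l 4) (a (l 4) (l 102777365191))) (b (a (l 111367287719) (l 87208105655)) (a (b (l 92039895943) (l 16847784)) (l 16839504)))) (a (b (a (l 99019263431) (b (l 82376242711) (l 16834472))) (a (b (a (l 16821712) (l 16833264)) (l 16845744)) (l 16862376))) (b (a (l 16849696) (l 16872088)) (l 16940504)))) (b (a (b (a (l 16863560) (l 16849024)) (l 16889720)) (l 16886776)) (a (l 16899080) (l 16931504))))) (b (b (b (a (a (a (l 16877784) (l 16904864)) (l 16940864)) (l 17038744)) (a (a (l 129487001479) (l 16987664)) (l 17062568)))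 (a (a (l 152572702983) (l 17150368)) (l 17200496))) (a (b (a (l 2) (l 17189472)) (l 2)) (b (l 17317696) (l 119824340711)))))) (b (a (b (a (b (a (l 92576881431) (l 16843256)) (l 16934600)) (l 16962872)) (a (l 17098416) (l 16996208))) (b (l 17091160) (l 17086112))) (a (b (a (l 17104264) (l 17111528)) (a (b (l 17261384) (l 17390960)) (l 17313480))) (a (l 17364472) (l 17243824))))), by decide +kernel⟩

def k3_pm_001 : ∃ t, chk3 f_pm_001 t 3 7 1 = true :=
  ⟨(a (b (a (l 2) (a (l 2) (b (b (l 110697637863) (l 2)) (l 2)))) (l 2)) (a (b (b (a (b (l 17544064) (l 17724112)) (l 17766048)) (b (a (l 117677949783) (l 17880296)) (a (l 2) (a (l 18129416) (l 18079808))))) (b (b (a (l 2) (a (l 2) (l 131100059495))) (l 2)) (l 2))) (b (b (a (l 17601184) (l 17455512)) (b (l 17791024) (a (l 18176536) (l 17837744)))) (b (b (a (l 18017176) (l 17616008)) (a (l 17467152) (l 17376160))) (b (b (l 17580352) (l 17782024)) (b (l 18011632) (l 18271920))))))), by decide +kernel⟩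

theorem s4_pm_001 : ∃ t, chk3 f_pm_001 t 3 3 1 = true := ex3_b k2_pm_001 k3_pm_001

theorem s5_pm_001 : ∃ t, chk3 f_pm_001 t 3 1 1 = true := ex3_b k1_pm_001 s4_pm_001

theorem s6_pm_001 : ∃ t, chk3 f_pm_001 t 1 1 1 = true := ex3_a k0_pm_001 s5_pm_001

theorem c_pm_001 : CertN 0 536870912 536870912 536870912 67108864 67108864 3 false true false .up 0 0 1
    ndN0q0 ndN0q1 pcN0 Cut.none Ext.none :=
  certNK0 (fam := false) (s1 := true) (s2 := false) (a := 0) (b := 0) (c := 1) (cn := .up) (n1 := ndN0q0) (n2 := ndN0q1) (pc := pcN0) (cut := Cut.none) (xt := Ext.none) (P1 := 0) (W1 := 536870912) (P2 := 536870912) (W2 := 536870912) (P3 := 67108864) (W3 := 67108864) (N0 := 3)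
    rfl rfl rfl s6_pm_001

noncomputable def cut_pm_011 : Cut := Cut.of [[⟨0, 0, 0, 67108864⟩, ⟨1, 1, 0, 67108864⟩, ⟨2, 1, 0, 67108864⟩], [⟨0, 0, 1, 33554432⟩, ⟨1, 1, 2, 33554432⟩, ⟨2, 1, 0, 8388608⟩, ⟨0, 0, 0, 150994944⟩, ⟨0, 1, 0, 1023410176⟩, ⟨1, 0, 0, 1023410176⟩, ⟨1, 1, 0, 150994944⟩]]

noncomputable def f_pm_011 : ℕ → ℕ → ℕ → ℕ → Bool := onCell 0 536870912 536870912 536870912 67108864 67108864
    (rowNK 3 0 false true false .pnn 0 1 1 (qsf 0 536870912 536870912 536870912 1) ndN0q0 ndN0q1 pcN1 cut_pm_011 Ext.none)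

def k0_pm_011 : ∃ t, chk3 f_pm_011 t 2 2 1 = true :=
  ⟨(l 4), by decide +kernel⟩

def k1_pm_011 : ∃ t, chk3 f_pm_011 t 2 6 1 = true :=
  ⟨(a (l 4) (b (l 4) (a (l 4) (b (l 4) (a (b (l 4) (a (l 4) (b (l 4) (a (l 4) (b (l 4) (l 107072248599)))))) (b (a (l 4) (b (a (l 4) (b (l 4) (l 110293493127))) (a (b (l 4) (l 107609124807)) (b (l 105998507143) (l 16817448))))) (a (b (a (l 4) (b (l 108682871335) (a (l 106535374919) (l 16808696)))) (a (b (a (l 107609121095) (l 103851013335)) (l 80765586631)) (l 16809392))) (b (a (b (l 111367223783) (l 16815288)) (l 16811600)) (l 16803200))))))))), by decide +kernel⟩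

def k2_pm_011 : ∃ t, chk3 f_pm_011 t 4 14 1 = true :=
  ⟨(a (l 4) (b (l 4) (a (l 4) (b (l 4) (a (l 4) (b (l 4) (a (b (l 4) (a (l 4) (b (l 4) (a (l 104387865415) (l 104387865847))))) (b (a (l 4) (b (a (l 4) (l 104924735607)) (a (c (l 106535344263) (l 111367181127)) (l 86671125927)))) (b (a (a (l 103850999591) (l 99019156775)) (c (l 36205256519) (l 35668384407))) (a (a (a (l 81302416439) (l 16789840)) (l 16790192)) (l 16804328))))))))))), by decide +kernel⟩

def k3_pm_011 : ∃ t, chk3 f_pm_011 t 10 28 1 = true :=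
  ⟨(a (l 4) (b (l 4) (a (b (l 4) (a (l 4) (b (l 4) (a (b (l 4) (l 105998490855)) (b (l 105461618551) (l 106535351591)))))) (b (a (b (l 4) (a (l 4) (b (l 4) (l 107609108551)))) (b (a (l 4) (l 105998497335)) (a (b (l 106535365175) (l 111904065271)) (l 78618087767)))) (a (b (a (b (l 4) (l 104924746247)) (b (l 104387873927) (l 16801672))) (a (b (l 89355497703) (l 16793496)) (l 16802904))) (b (l 16800264) (l 16829272))))))), by decide +kernel⟩

def k4_pm_011 : ∃ t, chk3 f_pm_011 t 10 29 1 = true :=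
  ⟨(a (b (a (l 4) (b (a (l 4) (b (l 4) (a (l 4) (b (l 4) (l 104924743623))))) (a (b (a (l 4) (b (l 4) (a (l 4) (l 105998485127)))) (a (b (a (l 4) (l 106535357191)) (a (l 104387869159) (c (l 106535349047) (l 112977798071)))) (b (a (l 103314126503) (l 104387874071)) (l 16791952)))) (b (a (b (a (l 4) (l 105461613063)) (a (l 102240383639) (l 16794896))) (b (a (l 109756575399) (l 16789376)) (l 16793664))) (l 16796768))))) (a (b (a (b (l 4) (a (b (l 4) (a (l 4) (l 103850993671))) (b (a (l 4) (l 103314122711)) (a (c (l 105998473479) (l 110830310151)) (c (l 74859968647) (l 73786226263)))))) (b (a (b (l 4) (a (l 4) (l 103314122711))) (b (a (l 104387869191) (c (l 107072220119) (l 112977798263))) (a (l 97408549015) (l 16799016)))) (a (b (a (l 103314128775) (l 16787672)) (l 16795560)) (l 16806080)))) (a (b (a (b (a (c (l 106535344295) (l 110830310151)) (l 80228677575)) (l 16790648)) (l 16790576)) (l 16804096)) (l 16805032))) (a (b (b (a (b (a (l 84523649191) (l 16790528)) (l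 16800576)) (l 16790264)) (l 16813824)) (l 16864616)) (b (l 16814512) (l 16923800))))) (b (a (b (a (b (a (l 4) (b (l 106535363127) (a (l 105461614631) (l 90966103543)))) (a (b (a (l 106535357703) (l 101703514375)) (l 82376173639)) (l 16797464))) (b (a (b (l 110293449799) (l 16800304)) (l 16797312)) (l 16797248))) (a (l 16797184) (l 16823912))) (b (l 16794280) (l 16899192))) (a (b (l 16849856) (l 16979512)) (l 16954496)))), by decide +kernel⟩

def k5_pm_011 : ∃ t, chk3 f_pm_011 t 11 14 1 = true :=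
  ⟨(b (a (b (a (b (a (l 4) (l 4)) (a (b (l 4) (a (l 107609117751) (l 103314139431))) (b (a (l 107072243319) (l 112977812407)) (a (l 87744896919) (l 16794288))))) (b (a (b (a (l 4) (l 107609117911)) (a (l 105461626903) (l 88281772551))) (b (a (l 114588428599) (l 16793792)) (l 16798384))) (a (l 16804736) (l 16837616)))) (a (b (a (b (a (b (l 105461620183) (l 16803600)) (l 16791312)) (l 16785120)) (l 16805064)) (l 16804088)) (b (l 16834840) (l 16934520)))) (b (a (b (l 16812136) (l 16865616)) (l 16859832)) (a (l 16928096) (l 17031296)))) (a (b (a (b (l 16906368) (l 16989264)) (l 17024040)) (a (l 17084792) (l 17148264))) (b (l 17095200) (l 17236632)))), by decide +kernel⟩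

def k6_pm_011 : ∃ t, chk3 f_pm_011 t 8 30 1 = true :=
  ⟨(a (l 4) (b (l 4) (a (l 4) (b (l 4) (a (l 4) (b (l 4) (b (l 4) (a (l 4) (a (b (l 4) (b (l 4) (b (l 136063229527) (a (l 4) (l 59827556535))))) (a (b (l 4) (b (a (l 128547040807) (l 53385105239)) (l 16781896))) (b (a (l 130157649303) (b (l 138747589047) (l 48016395847))) (l 16781256)))))))))))), by decide +kernel⟩

def k7_pm_011 : ∃ t, chk3 f_pm_011 t 18 60 1 = true :=
  ⟨(a (l 4) (b (l 4) (a (l 4) (b (l 4) (a (b (l 4) (a (l 4) (a (l 105998471079) (b (l 104387858215) (l 56606338007))))) (b (b (a (l 4) (l 107609084775)) (a (l 108145955783) (a (l 85597373831) (l 16783448)))) (b (a (a (l 92576695719) (l 50163887223)) (l 16785312)) (l 16783072)))))))), by decide +kernel⟩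

def k8_pm_011 : ∃ t, chk3 f_pm_011 t 36 61 1 = true :=
  ⟨(b (a (l 4) (b (l 4) (a (a (l 4) (a (l 4) (b (l 4) (l 114051533255)))) (b (a (l 4) (b (l 4) (l 108145951687))) (b (a (l 112440919111) (a (b (l 104924723671) (l 47479527863)) (l 16780848))) (a (a (b (l 109756561991) (l 56606333543)) (l 34594625975)) (l 16782808))))))) (a (b (a (l 4) (b (l 4) (a (b (l 4) (a (l 126936425319) (b (l 118346494599) (l 37278978007)))) (c (b (a (l 115125270359) (b (l 89355465239) (l 16779192))) (l 16778888)) (b (a (l 104387852103) (l 50700752679)) (l 16781816)))))) (a (a (b (b (l 4) (b (l 134989494535) (a (l 136600105991) (a (a (l 127473298823) (l 66806877975)) (l 16779840))))) (b (a (b (a (l 118883364023) (l 16779144)) (l 16781960)) (l 16782000)) (l 16785872))) (b (a (b (l 133915752567) (a (b (l 67880620711) (l 16782456)) (l 16779960))) (b (b (l 128547042071) (l 46405784487)) (l 16777640))) (l 16781952))) (b (a (a (a (b (l 33520882151) (l 16778144)) (l 16778320)) (l 16779088)) (l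 16781168)) (l 16780224)))) (a (a (b (b (b (l 114588403079) (a (c (l 95261041255) (l 96871659191)) (a (l 56069462551) (l 34594624695)))) (c (l 16780128) (l 16780944))) (l 16775576)) (b (b (b (a (b (l 111367174871) (l 65196268167)) (a (l 49627011735) (l 16781408))) (l 16780728)) (l 16785336)) (l 16780744))) (b (b (l 16781144) (l 16793448)) (a (l 16776336) (l 16783224)))))), by decide +kernel⟩

def k9_pm_011 : ∃ t, chk3 f_pm_011 t 37 61 1 = true :=
  ⟨(a (a (b (b (a (l 4) (b (l 4) (a (l 111367180711) (a (l 110293436919) (l 99019146519))))) (b (b (a (l 102777242439) (a (a (l 71638726471) (l 16781016)) (l 16781160))) (a (b (a (l 94724176247) (l 16784352)) (l 16780112)) (l 16785072))) (l 16779144))) (c (b (l 16805616) (l 16839168)) (b (l 16779544) (l 16771272)))) (b (b (b (b (l 4) (a (l 4) (a (l 108145952407) (l 76470566247)))) (b (a (a (l 108682823431) (l 83986759047)) (c (l 27615305431) (l 16782224))) (a (a (l 45868917511) (l 16782080)) (l 16787472)))) (l 16782784))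 (b (l 16787104) (l 16780872)))) (a (b (b (b (a (b (a (l 107072210471) (l 68954373479)) (l 16782208)) (l 16781328)) (l 16785432)) (l 16793504)) (b (l 16793928) (l 16789624))) (b (b (l 16784936) (l 16810976)) (b (l 16812672) (l 16789184))))), by decide +kernel⟩

def k10_pm_011 : ∃ t, chk3 f_pm_011 t 19 30 1 = true :=
  ⟨(b (a (b (a (l 4) (b (a (l 4) (b (l 4) (a (l 4) (c (l 106535350103) (l 110293435079))))) (a (b (a (l 4) (c (l 106535350231) (l 110293435287))) (a (c (l 94724185383) (l 97408539223)) (b (l 81839280791) (l 16784656)))) (b (a (b (l 107609089047) (l 71638730919)) (a (l 54458862647) (l 16785360))) (l 16783720))))) (a (b (a (b (l 4) (a (c (l 106535345655) (l 109756570567)) (b (l 104924730055) (a (l 66806888039) (l 16782472))))) (b (a (c (l 103850990967) (l 106535344887)) (b (l 93113569911) (l 16785264))) (a (c (l 27615310455) (l 16783064)) (l 16793832)))) (b (b (a (a (a (l 78081181063) (l 16781568)) (l 16787560)) (l 16801000)) (l 16783888)) (l 16790008)))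 (b (a (b (l 16783872) (l 16807752)) (l 16797760)) (l 16799120)))) (b (a (b (a (b (a (l 4) (c (l 105998479143) (l 109756564023))) (a (b (l 107072218055) (l 60901313719)) (l 36205251799))) (b (a (a (l 87207993303) (l 59290703815)) (l 16787816)) (l 16799248))) (l 16783224)) (c (l 16786632) (l 16785024))) (a (a (l 16791536) (l 16832296)) (l 16841216)))) (b (a (a (c (b (l 16812656) (l 16874872)) (b (l 16790176) (l 16803408))) (b (l 16829656) (l 16837424))) (a (a (l 16853872) (l 16895456)) (l 16905488))) (a (c (a (b (l 16935816) (l 16974048)) (l 16984912)) (a (b (l 16791240) (l 16752792)) (b (l 16846560) (l 16833256)))) (c (l 17038080) (a (b (l 16904816) (l 16916064)) (l 16909184)))))), by decide +kernel⟩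

def k11_pm_011 : ∃ t, chk3 f_pm_011 t 16 62 1 = true :=
  ⟨(b (l 4) (l 6)), by decide +kernel⟩

def k12_pm_011 : ∃ t, chk3 f_pm_011 t 34 62 1 = true :=
  ⟨(b (a (l 4) (b (l 4) (a (l 4) (a (l 4) (b (l 4) (b (l 4) (b (b (l 124252070567) (a (l 4) (a (l 108145942183) (l 44258300583)))) (b (a (l 114588393511) (a (l 46942655207) (l 16782856))) (a (a (l 110293425879) (l 49627009719)) (l 16782584)))))))))) (a (b (b (l 4) (l 6)) (l 6)) (b (a (b (a (l 4) (b (l 4) (b (b (l 4) (a (l 4) (a (l 4) (l 67343749927)))) (b (a (l 4) (a (l 70028104503) (l 16780424))) (a (a (l 4) (l 72712459095)) (l 16779480)))))) (b (a (b (b (l 4) (l 6)) (l 6)) (a (b (b (a (l 75396813671) (l 16779144)) (l 17951625383)) (l 16781872)) (l 16781224))) (a (l 6) (a (l 16780016) (l 16778760))))) (a (a (b (a (b (l 4) (b (b (l 63585653511) (l 16780408)) (l 16782120))) (b (b (l 4) (b (l 4) (l 60901298935))) (l 16779480))) (b (l 16779968) (a (l 16783064) (l 16782568)))) (b (b (b (b (l 117272748103) (a (l 109219684087)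 (l 55532589767))) (a (b (l 58216944343) (l 16780376)) (l 16782680))) (l 16781160)) (b (l 16783960) (l 16781888)))) (a (b (b (b (b (a (l 52311364263) (l 16782944)) (l 16782648)) (l 16781744)) (l 16785160)) (b (a (l 16783024) (l 16782400)) (l 16780984))) (b (b (l 16781064) (l 16783880)) (b (l 16781704) (l 16780104)))))) (a (b (a (l 6) (a (l 6) (b (l 16782104) (l 6)))) (l 6)) (b (a (b (l 16775512) (l 16779176)) (b (l 16778952) (l 16777360))) (a (c (l 16769016) (l 16771504)) (c (l 16767208) (l 16769664)))))))), by decide +kernel⟩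

def k13_pm_011 : ∃ t, chk3 f_pm_011 t 70 124 1 = true :=
  ⟨(b (a (l 4) (b (l 4) (b (a (l 4) (a (l 4) (l 132842004727))) (a (c (l 138747585975) (l 140895069543)) (b (a (l 127473295111) (a (l 58753815079) (l 16780064))) (a (a (l 63585653511) (l 29762785191)) (l 16781856))))))) (b (a (a (l 4) (b (l 4) (b (a (l 4) (c (a (l 81839267223) (l 42647686903)) (l 55532589495))) (a (a (l 102777232887) (c (l 46942654327) (l 45868912295))) (l 16779776))))) (a (b (b (a (l 129083913479) (a (a (l 104387850519) (l 62511911687)) (l 34594623655))) (a (a (a (l 108145947095) (l 67880621031)) (l 38889591175)) (l 16782136))) (l 16779704)) (c (l 16781168) (b (l 16780696) (l 16783584))))) (b (a (a (b (a (l 4) (a (l 105461587623) (a (l 63048782935) (l 43184558887)))) (a (a (l 109756555095) (a (l 68417492247) (l 48016397223))) (l 16341013015))) (c (l 16778696) (l 16778592))) (a (a (l 16784528) (l 16783216)) (c (l 16793152) (l 16781904)))) (a (b (a (c (a (l 18488495687) (l 16786744)) (l 16779424))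 (l 16784712)) (a (l 16780904) (l 16783512))) (a (a (l 16782368) (l 16781528)) (l 16780248)))))), by decide +kernel⟩

def k14_pm_011 : ∃ t, chk3 f_pm_011 t 71 124 1 = true :=
  ⟨(b (a (b (b (b (l 4) (a (l 4) (a (l 4) (a (l 135526363383) (a (l 116735880823) (l 63048781927)))))) (b (a (l 4) (a (a (l 134452621783) (a (l 121030848359) (l 69491233127))) (l 29225914375))) (a (c (a (l 4) (l 116199005383)) (l 130157649783)) (a (a (l 44795170743) (l 16782240)) (l 16786488))))) (a (b (b (a (l 122641456487) (a (l 49627009431) (l 16782392))) (a (a (l 54458847543) (l 16779920)) (l 16786800))) (l 16780464)) (c (l 16781016) (b (l 16785368) (l 16783520))))) (b (b (a (a (b (a (l 137136975895) (a (l 112440913271) (l 57143201623))) (l 25467817687)) (l 16778864)) (l 16785200)) (a (c (l 16781848) (l 16785216)) (l 16783480))) (c (l 16783600) (a (l 16782640) (l 16791376))))) (a (a (b (c (l 16778136) (b (l 16783544) (l 16781856))) (c (l 16773952) (l 16779336))) (b (c (l 16782344) (l 16780968))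 (l 16777632))) (b (c (l 16781280) (l 16778344)) (c (l 16780544) (l 16774936))))), by decide +kernel⟩

def k15_pm_011 : ∃ t, chk3 f_pm_011 t 35 125 1 = true :=
  ⟨(a (b (a (b (b (a (c (l 16784376) (l 16784288)) (c (a (l 16792896) (l 16792064)) (l 16782008))) (a (c (a (l 16793096) (l 16792120)) (l 16782064)) (l 16780376))) (c (a (b (l 16780456) (l 16778872)) (l 16777984)) (a (l 16774376) (l 16777904)))) (b (a (b (l 16780312) (l 16778672)) (l 16777784)) (c (a (l 16776296) (l 16785064)) (l 16768744)))) (a (b (c (a (l 16776496) (l 16774800)) (l 16768960)) (c (a (c (l 16773400) (l 16773304)) (l 16771640)) (l 16765728))) (b (c (a (c (l 16783624) (l 16773040)) (l 16771360)) (l 16765464)) (a (c (l 16769912) (l 16769640)) (a (l 16768448) (l 16767568)))))) (b (a (a (b (l 16776048) (l 16775376)) (b (l 16774304) (b (l 16782304) (l 16780648)))) (b (c (l 16765112) (l 16771544)) (c (c (l 16787800) (l 16768384)) (l 16768168)))) (b (a (a (a (l 16769920) (l 16769040)) (l 16772944))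 (a (l 16771144) (l 16769320))) (a (c (a (l 16776880) (l 16775096)) (l 16757288)) (a (a (l 16763064) (l 16772632)) (l 16769616)))))), by decide +kernel⟩

def k16_pm_011 : ∃ t, chk3 f_pm_011 t 16 63 1 = true :=
  ⟨(l 6), by decide +kernel⟩

def k17_pm_011 : ∃ t, chk3 f_pm_011 t 34 63 1 = true :=
  ⟨(b (a (l 6) (b (a (l 6) (b (a (l 6) (c (l 16764096) (l 16766472))) (l 6))) (l 6))) (l 6)), by decide +kernel⟩

def k18_pm_011 : ∃ t, chk3 f_pm_011 t 35 126 1 = true :=
  ⟨(b (a (a (b (a (b (l 16770872) (l 16769296)) (b (l 16769128) (l 16767544))) (c (a (l 16759256) (l 16757504)) (l 16759312))) (c (b (a (l 16771992) (l 16764984)) (c (a (l 16763712) (l 16772424)) (l 16754744))) (b (l 16757640) (l 16754408)))) (b (c (a (a (l 16763200) (l 16771880)) (a (l 16770056) (l 16768216))) (a (l 16754008) (l 16752928))) (a (c (c (a (l 16770624) (l 16768808)) (l 16751128)) (l 16750752)) (c (a (l 16766848) (l 16764984)) (l 16749640))))) (a (a (a (l 6) (a (l 6) (b (l 16753720) (l 6)))) (b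 (b (a (l 16766264) (l 16764448)) (c (a (l 16749224) (l 16747416)) (l 16747784))) (a (b (l 16750008) (l 6)) (c (c (b (l 16746008) (l 16747544)) (l 16749344)) (l 16750168))))) (a (b (c (c (b (l 16767360) (l 16765792)) (l 16747944)) (l 16747512)) (c (b (a (l 16744024) (l 16763312)) (a (a (l 16764560) (l 16763936)) (a (l 16742472) (l 16742144)))) (a (l 16748512) (l 16746904)))) (b (a (b (l 16764152) (l 16762544)) (b (l 16762272) (l 16763272))) (b (c (c (a (l 16761840) (l 16767032)) (l 16742472)) (l 16744544)) (c (a (l 16762536) (l 16761760)) (l 16740208))))))), by decide +kernel⟩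

def k19_pm_011 : ∃ t, chk3 f_pm_011 t 35 127 1 = true :=
  ⟨(b (b (a (b (a (l 6) (a (l 6) (a (l 6) (l 16747784)))) (l 6)) (c (b (a (a (l 16745024) (l 16754744)) (a (l 16764472) (l 16763728))) (c (l 14) (a (l 16746096) (l 16744592)))) (a (c (l 16749840) (l 16749264)) (c (l 16748208) (l 16747536))))) (a (l 6) (c (c (l 14) (b (a (l 16750448) (l 16749008)) (a (c (l 16753680) (l 16751920)) (c (l 14) (l 16750536))))) (b (a (l 16751912) (l 16750328)) (a (l 16753416) (l 16751904)))))) (a (l 6) (a (b (b (a (l 6) (c (c (l 14) (l 16751120)) (l 16749528))) (l 6)) (l 6)) (c (c (l 14) (c (l 14) (b (b (a (l 16750192) (l 16749528)) (a (l 16751912) (l 16751280))) (b (b (a (l 16753248) (l 16752640)) (a (l 6) (l 16753504))) (a (l 6) (c (l 14) (a (b (l 16754416) (l 6)) (b (l 16754120) (b (l 16754776) (a (l 6) (l 16755160))))))))))) (b (a (b (l 16748800) (c (l 16750984) (l 16749736))) (b (l 16748072) (c (l 16750312) (l 16749016)))) (b (b (a (l 16754192) (l 16753520)) (a (l 6) (c (l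 16752408) (l 16750944)))) (a (l 6) (b (a (c (l 16753464) (l 16751944)) (c (l 16753160) (l 16751608))) (a (l 6) (b (c (l 16753784) (l 16752192)) (a (l 6) (c (a (l 16755496) (l 16755424)) (l 16752504))))))))))))), by decide +kernel⟩

def k20_pm_011 : ∃ t, chk3 f_pm_011 t 18 62 1 = true :=
  ⟨(a (a (a (b (b (b (b (l 16783960) (l 16781024)) (c (l 16783024) (l 16778240))) (a (b (l 16786232) (l 16782824)) (c (l 16778832) (l 16772152)))) (b (b (c (l 16777488) (l 16767904)) (c (l 16771568) (l 16764504))) (a (b (l 16772728) (l 16769400)) (b (l 16770872) (l 16767528))))) (b (b (b (l 16777912) (l 16777664)) (c (c (l 16828016) (l 16764840)) (l 16764816))) (b (b (c (l 16793312) (l 16774688)) (c (l 16769840) (l 16771248))) (c (b (l 16773816) (l 16767976)) (c (l 16750520) (l 16750280)))))) (a (b (b (a (l 16768608) (l 16780408)) (b (l 16778792) (l 16774032))) (b (b (l 16770568) (a (l 16768608) (l 16766696))) (a (b (l 16765192) (l 16761792)) (b (l 16763264) (l 16765088))))) (b (b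 (c (l 16822072) (l 16763784)) (b (l 16776696) (l 16769488))) (b (b (l 16769320) (l 16767928)) (c (c (l 16955832) (b (l 16801168) (l 16787872))) (l 16743576)))))) (b (b (a (a (a (l 16774352) (l 16784064)) (a (l 16773288) (l 16783896))) (c (l 16913720) (a (l 16784168) (l 16782056)))) (a (a (a (l 16771944) (l 16770624)) (c (l 16899216) (a (l 16765536) (l 16746544)))) (a (c (l 16970280) (l 16763144)) (c (l 16999464) (l 16765528))))) (a (a (b (b (l 16764792) (l 16769480)) (a (b (l 16772240) (l 16762648)) (b (l 16768632) (l 16761224)))) (b (c (l 16834688) (c (l 16763944) (l 16757192))) (a (b (l 16765120) (l 16770256)) (c (c (l 17062048) (l 16878632)) (l 16749168))))) (c (a (c (l 17074568) (b (l 16927384) (l 16864184))) (b (l 17003936) (l 16939408))) (b (b (l 16761072) (l 16734832)) (a (a (l 16747080) (l 16744976)) (a (l 16742848) (l 16748792)))))))), by decide +kernel⟩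

def k21_pm_011 : ∃ t, chk3 f_pm_011 t 36 126 1 = true :=
  ⟨(b (b (a (b (c (a (l 16760408) (l 16782512)) (l 16748096)) (c (a (l 16768624) (l 16772952)) (l 16746416))) (a (a (l 16764976) (l 16764320)) (a (l 16762328) (l 16762944)))) (a (b (c (a (l 16762976) (l 16761864)) (l 16744744)) (c (a (l 16761352) (l 16770120)) (l 16743080))) (c (c (a (l 16853288) (l 16922536)) (a (l 16754248) (a (l 16755416) (l 16780536)))) (a (l 16753736) (l 16734216))))) (b (c (b (a (a (l 16759736) (l 16766144)) (c (a (l 16806184) (l 16921328)) (a (l 16752272) (l 16758480)))) (a (b (a (l 16758528) (l 16764880)) (a (l 16764608) (l 16762264))) (a (c (l 16823232) (l 16731952)) (c (l 16941688) (l 16734976))))) (a (a (l 16742904) (a (l 16745416) (l 16738456))) (a (c (l 16736400) (l 16735976)) (l 16733600)))) (a (c (b (a (a (l 16764128) (l 16758160)) (a (l 16757368) (l 16762040))) (a (a (l 16760984) (l 16760216)) (c (l 16764520) (l 16737736)))) (a (l 16742608) (l 16741072))) (a (c (a (a (l 16763896)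 (l 16759544)) (a (l 16760192) (l 16760608))) (l 16739352)) (c (a (c (l 16861552) (l 16754992)) (c (l 16932472) (l 16754224))) (l 16737664)))))), by decide +kernel⟩

def k22_pm_011 : ∃ t, chk3 f_pm_011 t 36 254 1 = true :=
  ⟨(a (c (a (b (b (a (l 16762984) (l 16762248)) (c (l 14) (l 16743120))) (c (l 14) (c (l 14) (a (l 16748712) (l 14))))) (b (b (a (l 16761520) (l 16760792)) (l 14)) (l 14))) (b (a (c (l 16746600) (l 16745832)) (c (l 16745032) (l 16744168))) (b (a (l 16748784) (l 16747256)) (a (l 16750424) (l 16748968))))) (c (b (b (b (a (l 16760944) (c (l 16893184) (l 16736280))) (l 14)) (l 14)) (l 14)) (a (a (b (l 16738264) (l 16747096)) (b (l 16737472) (l 16746368))) (b (c (l 16741976) (l 16735680)) (b (l 16744304) (c (l 16741592) (l 16740192))))))), by decide +kernel⟩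

def k23_pm_011 : ∃ t, chk3 f_pm_011 t 36 255 2 = true :=
  ⟨(a (c (l 14) (c (l 14) (c (l 14) (a (a (a (b (l 16752392) (a (a (b (l 16752648) (b (l 16753976) (l 16754840))) (l 14)) (l 14))) (l 14)) (l 14)) (l 14))))) (l 14)), by decide +kernel⟩

def k24_pm_011 : ∃ t, chk3 f_pm_011 t 72 255 3 = true :=
  ⟨(a (a (b (b (l 16747360) (c (l 16749656) (l 16748304))) (b (b (l 16752848) (c (l 16751784) (l 16750264))) (b (a (c (l 16752848) (l 16751280)) (c (l 16752544) (l 16750944))) (b (a (c (l 16753480) (l 16751864)) (c (l 16753184) (l 16751536))) (a (c (b (l 16753800) (a (l 16755408) (l 16755264))) (l 16752240)) (c (b (l 16754808) (a (l 16755112) (l 16754968))) (l 16751920))))))) (b (b (l 16746648) (c (l 16749000) (l 16747600))) (b (b (l 16752192) (c (l 16751168) (l 16749600))) (b (a (c (l 16752240) (l 16750616)) (c (l 16751936) (l 16750288))) (b (a (c (l 16752880) (l 16751208)) (c (l 16752584) (l 16750888))) (a (c (b (l 16754512) (a (l 16754816) (l 16754344))) (l 16751600))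 (c (c (a (l 16753536) (l 16753392)) (l 16752576)) (l 16751280)))))))) (b (b (a (l 16745944) (l 16745248)) (a (c (l 16748352) (l 16746904)) (c (l 16747712) (l 16746208)))) (a (b (b (l 16751536) (c (l 16750552) (l 16748936))) (b (a (c (l 16751640) (l 16749960)) (c (l 16751336) (l 16749640))) (b (a (c (l 16752288) (l 16750568)) (c (l 16753312) (l 16750248))) (a (c (c (a (l 16753248) (l 16753104)) (l 16752280)) (l 16750960)) (c (c (c (l 14) (l 16752656)) (l 16751984)) (l 16751952)))))) (b (b (l 16750896) (c (l 16749952) (l 16748280))) (b (a (c (l 16751040) (l 16749312)) (c (l 16750744) (l 16748992))) (b (a (c (l 16753016) (l 16749928)) (c (l 16752728) (l 16749616))) (a (c (c (a (l 16752680) (l 16753856)) (l 16753000)) (l 16751640)) (c (c (a (l 16753056) (l 16752920)) (l 16752056)) (l 16751328))))))))), by decide +kernel⟩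

def k25_pm_011 : ∃ t, chk3 f_pm_011 t 73 255 3 = true :=
  ⟨(a (b (b (a (l 16744560) (l 16743880)) (a (c (l 16747080) (l 16745528)) (c (l 16746456) (l 16744848)))) (c (a (a (b (l 16751712) (b (l 16750456) (a (b (l 16751216) (c (l 16752776) (l 16751200))) (c (l 14) (l 16751488))))) (b (l 16751416) (b (l 16752784) (c (l 14) (b (l 16750384) (c (l 16751056) (l 16750584))))))) (c (l 14) (b (c (l 16749696) (l 16747624)) (b (c (l 16749440) (l 16748976)) (b (a (l 16750088) (l 16749800)) (a (c (l 16750776) (l 16750296)) (c (l 16750496) (l 16750008)))))))) (a (c (b (l 16747600) (b (l 16748904) (b (l 16749544) (a (l 16750176) (l 16749872))))) (b (l 16746760) (b (l 16748000) (a (l 16749032) (l 16748720))))) (c (b (l 16746968) (b (l 16748288) (b (l 16748944) (a (l 16749576) (l 16749280))))) (b (l 16746096) (b (l 16747368) (a (l 16748400) (l 16748088)))))))) (b (b (a (l 16743208) (l 16742536)) (a (c (l 16745832) (l 16744184)) (c (l 16745224) (l 16743520)))) (c (c (l 14) (a (b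 (a (l 16747456) (l 16747160)) (c (a (a (b (l 16749160) (l 16751376)) (l 14)) (l 14)) (b (l 16748392) (b (l 16749080) (a (l 16749720) (l 16749440)))))) (c (l 14) (b (l 16746416) (b (l 16747816) (b (l 16748512) (a (l 16749160) (l 16748880)))))))) (b (c (a (l 16746344) (l 16745728)) (a (l 16745448) (l 16744800))) (b (c (a (l 16747680) (l 16747088)) (a (l 16746736) (l 16746112))) (c (a (b (l 16748352) (a (l 16748984) (l 16748688))) (b (l 16747760) (a (l 16748400) (l 16748112)))) (a (a (l 16747784) (l 16747472)) (a (l 16747168) (l 16746864))))))))), by decide +kernel⟩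

def k26_pm_011 : ∃ t, chk3 f_pm_011 t 37 126 1 = true :=
  ⟨(b (b (a (a (b (l 16765656) (l 16763064)) (a (l 16760712) (l 16761384))) (c (c (l 17128280) (a (l 16898720) (l 16939576))) (a (l 16740688) (c (l 16751848) (l 16736760))))) (a (a (c (c (l 17011072) (b (l 16822040) (l 16770544))) (l 16731896)) (a (b (l 16763688) (a (l 16760432) (l 16757656))) (b (l 16761168) (l 16755960)))) (c (c (l 17140704) (a (b (l 16871928) (l 16889560)) (l 16915464))) (a (b (l 16739128) (l 16719976)) (l 16748392))))) (c (c (a (a (b (l 17014576) (l 16953296)) (l 16961664)) (a (l 17135376) (l 17180520))) (b (a (a (b (l 16782296) (l 16772520)) (c (l 16889824) (l 16752744))) (a (l 16778608) (l 16890640))) (b (a (a (l 16761584) (l 16778256)) (a (l 16812680) (l 16906944))) (a (a (l 16749416) (l 16769232)) (a (l 16806344) (l 16881944)))))) (b (a (a (l 16729368) (a (l 16725440) (l 16724568))) (c (a (l 16749840) (l 16752456)) (l 16729080))) (a (a (l 16736000) (l 16734360)) (a (c (l 16730664)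 (l 16726984)) (a (l 16747360) (l 16746576))))))), by decide +kernel⟩

def k27_pm_011 : ∃ t, chk3 f_pm_011 t 37 254 1 = true :=
  ⟨(a (b (b (a (c (c (l 16973344) (l 16756904)) (l 16733752)) (c (c (l 17092400) (l 16759104)) (l 16732208))) (c (l 14) (a (l 16735696) (l 16734224)))) (c (l 14) (a (b (l 16740240) (a (l 16739992) (l 16739304))) (c (l 14) (c (l 16741992) (l 16741224)))))) (c (c (a (a (l 17093176) (l 17161864)) (l 17200112)) (b (b (a (l 16778120) (l 16835200)) (l 14)) (l 14))) (b (b (a (l 16730704) (l 16747568)) (a (l 16735400) (l 16733984))) (c (l 14) (a (a (l 16735440) (l 16734752)) (c (l 14) (l 16738416))))))), by decide +kernel⟩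

def k28_pm_011 : ∃ t, chk3 f_pm_011 t 37 255 1 = true :=
  ⟨(c (a (l 14) (c (c (a (l 17232304) (l 17288848)) (l 14)) (l 14))) (c (c (l 14) (c (l 14) (a (a (a (a (a (b (l 16743296) (b (l 16746128) (b (l 16747528) (l 16748448)))) (l 14)) (l 14)) (l 14)) (l 14)) (l 14)))) (a (b (b (a (l 16740584) (l 16739256)) (a (a (l 16742864) (l 16742216)) (a (l 16741576) (l 16740944)))) (b (a (c (a (l 16745112) (l 16747136)) (a (l 16744168) (l 16743536))) (c (a (l 16746536) (l 16745952)) (a (l 16742920) (l 16742304)))) (b (a (c (a (l 16746496) (l 16745912)) (a (l 16745496) (l 16744888))) (c (a (l 16745344) (l 16746088)) (a (l 16744288) (l 16743696)))) (a (c (b (a (l 16747184) (l 16747920)) (a (a (l 16747824) (l 16747536)) (a (l 16748568) (l 16747632)))) (a (a (l 16746560) (l 16746264)) (a (l 16745968) (l 16746984)))) (a (a (b (l 16745696) (b (l 16746040) (a (l 16747656) (l 16747520)))) (b (l 16745408) (b (l 16747064) (c (l 16746536) (l 16745432))))) (c (c (l 14) (b (l 16745216)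 (a (l 16745864) (l 16745592)))) (b (l 16744392) (a (l 16745032) (l 16744744))))))))) (a (b (b (l 16737952) (a (l 16740320) (l 16739704))) (a (c (b (l 16745368) (a (a (a (b (l 16744528) (l 16746792)) (l 14)) (l 14)) (l 14))) (b (l 16741696) (b (l 16743112) (b (l 16743816) (a (l 16744456) (l 16744176)))))) (c (l 14) (b (l 16741104) (b (l 16742536) (b (l 16743256) (a (l 16743896) (l 16743624)))))))) (c (l 14) (b (a (l 16742800) (l 16742176)) (a (b (l 16740512) (b (l 16741968) (b (l 16742696) (a (l 16743344) (l 16744384))))) (b (l 16739928) (c (l 14) (b (l 16741120) (a (l 16743568) (c (l 14) (l 16741824))))))))))))), by decide +kernel⟩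

def k29_pm_011 : ∃ t, chk3 f_pm_011 t 19 31 2 = true :=
  ⟨(a (a (b (b (a (l 16991944) (l 17040744)) (b (l 17030064) (l 16949456))) (b (c (b (l 17211064) (l 17243400)) (b (b (a (l 17000040) (l 17038304)) (l 16958792)) (a (b (l 16979224) (l 16934416)) (l 16940024)))) (c (b (l 17270632) (a (l 17265752) (l 17316232))) (b (b (a (a (l 16915752) (l 16963128)) (l 17001104)) (l 14)) (l 14))))) (b (b (l 17081816) (b (l 17132440) (l 17120144))) (b (b (l 17042368) (a (l 17089936) (l 17212176))) (c (b (l 17353952) (l 17384408)) (b (a (a (l 17036848) (l 17102768)) (l 17137208)) (c (a (l 17154520) (l 17205056)) (l 14))))))) (b (b (l 17118632) (b (l 17217128) (a (l 17223456) (l 17280552)))) (b (a (a (l 17192168) (l 17288072)) (l 17334488)) (b (a (l 17188216) (l 17384088)) (a (a (l 17127656) (l 17315616)) (l 17392808)))))), by decide +kernel⟩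

def k30_pm_011 : ∃ t, chk3 f_pm_011 t 38 31 3 = true :=
  ⟨(b (b (a (b (a (l 16802312) (l 16823576)) (a (l 16789896) (l 16793944))) (b (a (l 16845560) (l 16888976)) (a (l 16819360) (l 16844936)))) (a (b (a (l 16757328) (l 16755688)) (b (l 16753064) (c (l 16764432) (l 16733216)))) (b (a (l 16785440) (l 16793984)) (b (l 16765448) (a (l 16756360) (c (l 16938080) (l 16751576))))))) (b (b (b (a (a (a (l 16754912) (l 16747912)) (a (l 16748056) (l 16753272))) (a (l 16747672) (l 16782904))) (a (a (l 16746672) (l 16746544)) (a (l 16750064) (l 16751704)))) (b (a (a (a (l 16741272) (l 16740432)) (a (l 16739608) (l 16739144))) (a (l 16747184) (b (l 16763584) (l 16756800)))) (b (a (a (l 16744256) (l 16742696)) (a (l 16741280) (l 16749400))) (a (a (l 16746504) (l 16745016)) (a (l 16752136) (l 16741368)))))) (b (a (b (a (b (l 16748736) (l 16733576)) (b (l 16747312) (l 14))) (c (l 14) (a (c (l 14) (l 16737056)) (l 14)))) (b (b (a (l 16741248) (l 16743144)) (l 14)) (l 14))) (c (l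 14) (c (l 14) (a (a (a (b (l 16740248) (b (l 16739360) (c (l 14) (b (l 16740560) (c (l 14) (a (l 16741552) (l 14))))))) (l 14)) (l 14)) (l 14))))))), by decide +kernel⟩

def k31_pm_011 : ∃ t, chk3 f_pm_011 t 39 31 3 = true :=
  ⟨(a (b (b (b (l 16881168) (l 16799368)) (a (b (l 16823120) (b (l 16835256) (a (l 16777032) (l 16794520)))) (b (l 16872760) (b (l 16866944) (l 16799544))))) (b (c (b (a (l 16929320) (l 17008208)) (a (b (l 16967016) (l 16920064)) (l 16922552))) (b (b (a (l 16797264) (l 16836208)) (a (l 16784144) (l 16805016))) (a (b (l 16747864) (l 16740672)) (b (l 16771920) (l 16736760))))) (b (b (b (b (c (l 16896704) (l 16723224)) (l 14)) (l 14)) (l 14)) (l 14)))) (b (b (b (l 16968736) (l 16933624)) (b (l 16851824) (a (b (l 16876976) (l 16896448)) (b (a (l 16920624) (l 16935712)) (l 16887448))))) (b (c (b (l 17060720) (a (l 17046032) (l 17083616))) (b (b (l 16787048) (a (l 16845088) (l 16904424))) (b (a (l 16814824) (l 16855704)) (a (l 16761792) (l 16805416)))))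 (c (b (a (a (l 16990176) (l 17053784)) (l 17085024)) (c (a (l 17094008) (l 17139448)) (l 14))) (b (b (b (a (l 16773184) (l 16840008)) (l 14)) (l 14)) (l 14)))))), by decide +kernel⟩

def k32_pm_011 : ∃ t, chk3 f_pm_011 t 5 30 1 = true :=
  ⟨(a (a (b (b (a (a (l 16813416) (l 16894400)) (l 16931048)) (a (a (l 16923000) (l 16983352)) (l 17020232))) (a (a (b (l 16967536) (l 17008312)) (b (l 17049840) (l 17092536))) (b (l 17087680) (l 17132432)))) (b (a (l 16955312) (l 17150880)) (a (l 17133056) (l 17286544)))) (a (b (l 17226344) (a (l 17350848) (b (l 17376800) (l 17441056)))) (b (l 17361984) (b (l 17458736) (b (a (l 17481928) (l 17527376)) (a (l 17505432) (l 17535000))))))), by decide +kernel⟩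

def k33_pm_011 : ∃ t, chk3 f_pm_011 t 20 62 1 = true :=
  ⟨(b (a (c (l 17257056) (a (l 16935704) (l 17065032))) (a (l 17195088) (a (l 17247352) (l 17267616)))) (b (a (c (l 17318464) (a (a (l 17018232) (l 16982056)) (b (l 17080168) (a (l 17073040) (l 17099608))))) (a (b (l 17105544) (l 17121256)) (b (l 17170200) (l 17313656)))) (a (c (a (l 17333736) (l 17382648)) (a (a (b (c (l 17094064) (l 16906568)) (l 16983800)) (a (l 16942616) (l 17064016))) (a (l 17066680) (l 17118512)))) (a (l 17085208) (l 17299696))))), by decide +kernel⟩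

def k34_pm_011 : ∃ t, chk3 f_pm_011 t 20 63 1 = true :=
  ⟨(b (a (a (a (c (l 17377832) (c (b (l 17111272) (l 17119328)) (b (b (l 16883648) (a (l 16932144) (l 16951344))) (b (l 16936632) (l 16888760))))) (c (l 17405568) (b (b (l 17043512) (l 16982688)) (a (b (l 16908248) (l 16991056)) (b (l 17034464) (a (l 16963296) (l 16974032))))))) (c (l 17444624) (a (b (l 16957072) (b (l 17067512) (l 17004056))) (b (l 17140216) (l 17006976))))) (c (l 17509312) (a (b (l 17149536) (a (l 17195056) (l 17233432))) (b (l 17253568) (l 17286024))))) (b (c (a (a (l 17445832) (l 17502864)) (l 17574088)) (a (a (c (l 17122600) (b (a (l 16818448) (l 16923064)) (l 14))) (b (a (a (a (l 16940016) (l 16972368)) (l 17054608)) (l 17093120)) (a (c (l 17201120) (a (l 16990096) (a (l 16922576) (l 16956816)))) (l 16984816)))) (a (a (l 17037560) (l 17251408)) (l 17313184)))) (a (c (a (l 17480072) (l 17538824)) (a (c (a (l 17083200) (l 17166576)) (l 14)) (a (c (b (l 17203720) (l 17206800)) (b (l 16910912)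 (l 14))) (b (a (b (l 16943856) (a (l 17081800) (l 17009208))) (l 17075928)) (c (l 17246072) (a (b (l 17022512) (l 14)) (a (b (l 17019528) (l 16993256)) (b (l 17057240) (l 16985656))))))))) (c (l 17616280) (b (a (a (l 17141024) (l 17257632)) (l 17328472)) (a (a (a (a (l 17067920) (l 17147336)) (l 17170928)) (l 17236240)) (l 17335488))))))), by decide +kernel⟩

def k35_pm_011 : ∃ t, chk3 f_pm_011 t 21 31 1 = true :=
  ⟨(b (b (b (a (l 17299816) (l 17370200)) (a (c (l 17440824) (a (l 17201792) (l 17241536))) (a (l 17363952) (l 17415696)))) (a (a (a (l 17207496) (l 17331832)) (l 17253968)) (a (l 17432592) (l 17459696)))) (a (b (b (l 17357536) (l 17397832)) (b (l 17395848) (a (l 17538728) (l 17578376)))) (a (b (l 17507488) (l 17585656)) (b (l 17529616) (l 17602744))))), by decide +kernel⟩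

def k36_pm_011 : ∃ t, chk3 f_pm_011 t 11 31 1 = true :=
  ⟨(b (a (a (b (b (a (l 17417920) (l 17446056)) (l 17454016)) (l 17491784)) (b (a (l 17477056) (l 17493464)) (l 17519560))) (b (a (l 17513352) (l 17529312)) (a (l 17531872) (l 17530680)))) (a (a (b (l 17551328) (l 17612240)) (b (l 17561400) (l 17600360))) (b (l 17606304) (l 17792336)))), by decide +kernel⟩

def k37_pm_011 : ∃ t, chk3 f_pm_011 t 3 2 1 = true :=
  ⟨(b (l 1) (a (l 4) (l 1))), by decide +kernel⟩

def k38_pm_011 : ∃ t, chk3 f_pm_011 t 3 6 1 = true :=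
  ⟨(a (b (a (b (l 4) (a (l 4) (b (l 4) (a (l 4) (b (l 4) (a (l 111367258935) (l 105461652743))))))) (b (l 1) (a (b (l 1) (a (l 190085971063) (l 1))) (l 1)))) (a (b (a (b (l 4) (a (b (l 4) (a (l 4) (l 108682910471))) (a (b (l 110293504855) (l 107072262775)) (a (l 91503048135) (l 75933785079))))) (b (a (b (a (l 4) (l 109756634103)) (a (l 107609138039) (l 106535391783))) (b (l 93650530455) (l 16809568))) (a (b (l 16816856) (l 16836976)) (l 16871832)))) (a (b (a (b (a (b (l 108682875239) (l 116735920231)) (l 79154991687)) (l 16809992)) (l 16846080)) (a (l 16818720) (l 16940704))) (b (a (l 16861936) (l 16959616)) (l 17024736)))) (b (a (b (l 16850064) (l 16890416)) (l 179886143303)) (a (l 16979184) (l 17182872))))) (b (l 1) (a (b (l 1) (l 17320472)) (l 1)))), by decide +kernel⟩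

def k39_pm_011 : ∃ t, chk3 f_pm_011 t 3 7 1 = true :=
  ⟨(a (b (a (b (a (b (l 16949064) (l 17117512)) (l 17088344)) (a (l 17222320) (l 17384136))) (b (a (l 17271504) (l 17363784)) (l 17517312))) (b (a (b (l 17509792) (b (a (a (l 17530472) (l 17569504)) (a (l 17601920) (l 17622680))) (a (a (l 17557224) (l 17565152)) (l 17564432)))) (b (a (b (l 17609456) (l 17647680)) (b (l 17681880) (l 17687992))) (a (b (l 17624064) (l 17541928)) (b (l 17599856) (l 17502016))))) (b (a (a (b (l 17533408) (l 17507920)) (b (l 17508896) (l 17481992))) (a (l 17686640) (l 17700408))) (a (b (a (l 17587912) (l 17723000)) (a (b (l 17762384) (l 17888264)) (l 18086392))) (b (a (l 17851512) (l 17960312)) (a (l 18152976) (l 18274488))))))) (b (b (a (l 17492016) (l 1)) (a (a (l 17637616) (b (l 17666136) (l 17747688))) (a (b (l 1) (l 17798336)) (l 1)))) (b (a (b (a (b (l 17735536) (l 17675040)) (l 17835376)) (a (l 17510472) (l 17464360))) (b (a (l 17676560) (l 1)) (l 17604576))) (a (b (a (l 17729544)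 (l 17762768)) (b (l 18076432) (a (l 18365464) (l 18425328)))) (b (b (l 17565072) (l 17842480)) (b (l 18140576) (l 18461928))))))), by decide +kernel⟩

theorem s40_pm_011 : ∃ t, chk3 f_pm_011 t 3 3 1 = true := ex3_b k38_pm_011 k39_pm_011

theorem s41_pm_011 : ∃ t, chk3 f_pm_011 t 3 1 1 = true := ex3_b k37_pm_011 s40_pm_011

theorem s42_pm_011 : ∃ t, chk3 f_pm_011 t 20 31 1 = true := ex3_b k33_pm_011 k34_pm_011

theorem s43_pm_011 : ∃ t, chk3 f_pm_011 t 10 31 1 = true := ex3_a s42_pm_011 k35_pm_011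

theorem s44_pm_011 : ∃ t, chk3 f_pm_011 t 5 31 1 = true := ex3_a s43_pm_011 k36_pm_011

theorem s45_pm_011 : ∃ t, chk3 f_pm_011 t 5 15 1 = true := ex3_b k32_pm_011 s44_pm_011

theorem s46_pm_011 : ∃ t, chk3 f_pm_011 t 19 31 3 = true := ex3_a k30_pm_011 k31_pm_011

theorem s47_pm_011 : ∃ t, chk3 f_pm_011 t 19 31 1 = true := ex3_c k29_pm_011 s46_pm_011

theorem s48_pm_011 : ∃ t, chk3 f_pm_011 t 37 127 1 = true := ex3_b k27_pm_011 k28_pm_011

theorem s49_pm_011 : ∃ t, chk3 f_pm_011 t 37 63 1 = true := ex3_b k26_pm_011 s48_pm_011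

theorem s50_pm_011 : ∃ t, chk3 f_pm_011 t 36 255 3 = true := ex3_a k24_pm_011 k25_pm_011

theorem s51_pm_011 : ∃ t, chk3 f_pm_011 t 36 255 1 = true := ex3_c k23_pm_011 s50_pm_011

theorem s52_pm_011 : ∃ t, chk3 f_pm_011 t 36 127 1 = true := ex3_b k22_pm_011 s51_pm_011

theorem s53_pm_011 : ∃ t, chk3 f_pm_011 t 36 63 1 = true := ex3_b k21_pm_011 s52_pm_011

theorem s54_pm_011 : ∃ t, chk3 f_pm_011 t 18 63 1 = true := ex3_a s53_pm_011 s49_pm_011

theorem s55_pm_011 : ∃ t, chk3 f_pm_011 t 18 31 1 = true := ex3_b k20_pm_011 s54_pm_011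

theorem s56_pm_011 : ∃ t, chk3 f_pm_011 t 9 31 1 = true := ex3_a s55_pm_011 s47_pm_011

theorem s57_pm_011 : ∃ t, chk3 f_pm_011 t 35 63 1 = true := ex3_b k18_pm_011 k19_pm_011

theorem s58_pm_011 : ∃ t, chk3 f_pm_011 t 17 63 1 = true := ex3_a k17_pm_011 s57_pm_011

theorem s59_pm_011 : ∃ t, chk3 f_pm_011 t 8 63 1 = true := ex3_a k16_pm_011 s58_pm_011

theorem s60_pm_011 : ∃ t, chk3 f_pm_011 t 35 124 1 = true := ex3_a k13_pm_011 k14_pm_011

theorem s61_pm_011 : ∃ t, chk3 f_pm_011 t 35 62 1 = true := ex3_b s60_pm_011 k15_pm_011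

theorem s62_pm_011 : ∃ t, chk3 f_pm_011 t 17 62 1 = true := ex3_a k12_pm_011 s61_pm_011

theorem s63_pm_011 : ∃ t, chk3 f_pm_011 t 8 62 1 = true := ex3_a k11_pm_011 s62_pm_011

theorem s64_pm_011 : ∃ t, chk3 f_pm_011 t 8 31 1 = true := ex3_b s63_pm_011 s59_pm_011

theorem s65_pm_011 : ∃ t, chk3 f_pm_011 t 4 31 1 = true := ex3_a s64_pm_011 s56_pm_011

theorem s66_pm_011 : ∃ t, chk3 f_pm_011 t 18 61 1 = true := ex3_a k8_pm_011 k9_pm_011

theorem s67_pm_011 : ∃ t, chk3 f_pm_011 t 18 30 1 = true := ex3_b k7_pm_011 s66_pm_011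

theorem s68_pm_011 : ∃ t, chk3 f_pm_011 t 9 30 1 = true := ex3_a s67_pm_011 k10_pm_011

theorem s69_pm_011 : ∃ t, chk3 f_pm_011 t 4 30 1 = true := ex3_a k6_pm_011 s68_pm_011

theorem s70_pm_011 : ∃ t, chk3 f_pm_011 t 4 15 1 = true := ex3_b s69_pm_011 s65_pm_011

theorem s71_pm_011 : ∃ t, chk3 f_pm_011 t 2 15 1 = true := ex3_a s70_pm_011 s45_pm_011

theorem s72_pm_011 : ∃ t, chk3 f_pm_011 t 10 14 1 = true := ex3_b k3_pm_011 k4_pm_011

theorem s73_pm_011 : ∃ t, chk3 f_pm_011 t 5 14 1 = true := ex3_a s72_pm_011 k5_pm_011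

theorem s74_pm_011 : ∃ t, chk3 f_pm_011 t 2 14 1 = true := ex3_a k2_pm_011 s73_pm_011

theorem s75_pm_011 : ∃ t, chk3 f_pm_011 t 2 7 1 = true := ex3_b s74_pm_011 s71_pm_011

theorem s76_pm_011 : ∃ t, chk3 f_pm_011 t 2 3 1 = true := ex3_b k1_pm_011 s75_pm_011

theorem s77_pm_011 : ∃ t, chk3 f_pm_011 t 2 1 1 = true := ex3_b k0_pm_011 s76_pm_011

theorem s78_pm_011 : ∃ t, chk3 f_pm_011 t 1 1 1 = true := ex3_a s77_pm_011 s41_pm_011

theorem c_pm_011 : CertN 0 536870912 536870912 536870912 67108864 67108864 3 false true false .pnn 0 1 1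
    ndN0q0 ndN0q1 pcN1 cut_pm_011 Ext.none :=
  certNK0 (fam := false) (s1 := true) (s2 := false) (a := 0) (b := 1) (c := 1) (cn := .pnn) (n1 := ndN0q0) (n2 := ndN0q1) (pc := pcN1) (cut := cut_pm_011) (xt := Ext.none) (P1 := 0) (W1 := 536870912) (P2 := 536870912) (W2 := 536870912) (P3 := 67108864) (W3 := 67108864) (N0 := 3)
    rfl rfl rfl s78_pm_011

noncomputable def cut_pm_012 : Cut := Cut.of [[⟨0, 0, 0, 67108864⟩, ⟨1, 1, 0, 67108864⟩, ⟨2, 1, 0, 67108864⟩], [⟨0, 0, 1, 33554432⟩, ⟨1, 1, 2, 33554432⟩, ⟨2, 1, 0, 8388608⟩, ⟨0, 0, 0, 150994944⟩, ⟨0, 1, 0, 1023410176⟩, ⟨1, 0, 0, 1023410176⟩, ⟨1, 1, 0, 150994944⟩]]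

noncomputable def f_pm_012 : ℕ → ℕ → ℕ → ℕ → Bool := onCell 536870912 536870912 0 536870912 67108864 67108864
    (rowNK 3 2 false true false .pnp 0 1 2 (qsf 0 536870912 0 536870912 1) ndN0q0 ndN0q2 pcN1 cut_pm_012 Ext.none)

def k0_pm_012 : ∃ t, chk3 f_pm_012 t 2 1 1 = true :=
  ⟨(b (a (b (l 2) (a (l 2) (l 469327462023))) (b (a (b (l 17182584) (l 17181952)) (l 17210440)) (a (l 17528992) (l 17546960)))) (a (b (a (l 2) (l 31241648983)) (b (a (l 18072656) (l 18128912)) (b (l 18498672) (a (l 18501600) (a (l 18492904) (l 18441048)))))) (b (a (l 17853360) (l 17826816)) (b (a (l 18068456) (l 17889016)) (b (a (l 18212464) (l 17964048)) (a (a (l 18357016) (l 18239704)) (a (l 18090216) (l 17911824)))))))), by decide +kernel⟩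

def k1_pm_012 : ∃ t, chk3 f_pm_012 t 3 2 1 = true :=
  ⟨(a (b (a (l 17239200) (l 17398224)) (a (l 17500472) (a (l 17541840) (l 17649560)))) (a (b (a (l 17582960) (l 17711776)) (a (l 17759960) (b (l 17811792) (l 17906360)))) (a (b (l 17825216) (b (a (l 17872624) (l 17896176)) (a (l 17932448) (l 17914304)))) (b (b (l 17878912) (l 17888816)) (b (a (l 17892728) (l 17840336)) (a (l 17843560) (b (l 17754232) (l 17608560)))))))), by decide +kernel⟩

def k2_pm_012 : ∃ t, chk3 f_pm_012 t 6 3 1 = true :=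
  ⟨(a (b (l 17731360) (b (l 17734688) (b (l 17841432) (a (l 17719848) (a (l 17655656) (l 17686728)))))) (b (a (l 17751888) (b (l 17827616) (l 17908000))) (a (b (l 17829440) (b (l 17773688) (b (l 17666648) (a (l 17663656) (a (l 17635928) (l 17538896)))))) (a (b (l 17873544) (b (a (l 17756192) (l 17608472)) (b (c (l 17802592) (a (l 17487088) (l 17389000))) (c (l 17698432) (a (b (l 17417104) (l 17344112)) (c (l 17304824) (b (l 17225664) (a (l 17194488) (b (l 17143624) (l 17087184)))))))))) (b (b (l 17901056) (l 17824488)) (b (c (l 17895608) (b (l 17514704) (l 17206336))) (b (c (l 17743840) (a (l 17143008) (b (l 17291736) (l 17097704)))) (c (b (l 17644536) (l 17484544)) (c (b (a (l 17341056) (l 17267216)) (a (l 17266832) (b (l 17208112) (l 17082784)))) (b (a (l 17016408) (b (l 17050752) (l 14))) (a (b (l 16897872) (a (l 16964856) (l 14))) (l 14)))))))))))), by decide +kernel⟩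

def k3_pm_012 : ∃ t, chk3 f_pm_012 t 14 6 1 = true :=
  ⟨(a (b (l 17917184) (b (l 17943728) (l 17920128))) (a (b (l 17945992) (b (l 17920864) (l 17850216))) (b (l 17937648) (b (l 17864384) (c (l 18092264) (l 17403528)))))), by decide +kernel⟩

def k4_pm_012 : ∃ t, chk3 f_pm_012 t 28 7 1 = true :=
  ⟨(b (b (a (l 17873880) (l 17818240)) (c (a (l 17996752) (l 17945440)) (a (l 17530488) (b (l 17438920) (l 17248152))))) (a (b (c (l 17769032) (b (l 17303512) (a (l 17245816) (l 16968392)))) (a (b (c (l 17672984) (c (l 17255544) (b (l 17082728) (l 16881672)))) (b (c (l 17559368) (c (l 17097248) (a (l 16745320) (l 16752112)))) (c (l 17389488) (c (c (b (l 17181056) (l 17136816)) (l 14)) (l 14))))) (b (c (l 17613600) (b (l 16941856) (c (l 17144904) (l 16765912)))) (c (c (l 17579000) (b (l 17353424) (b (l 17284952) (l 17174096)))) (b (b (c (l 17060368) (l 16743832)) (l 14)) (l 14)))))) (b (a (c (l 17656152) (b (l 17256744) (a (l 17016616) (l 16937664)))) (c (b (l 17766776)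 (l 17625872)) (b (l 17083464) (l 16776856)))) (b (c (c (l 17591544) (a (l 17331288) (b (l 17339296) (l 17161376)))) (b (a (l 16803688) (l 16768312)) (a (b (l 16822256) (l 16756208)) (b (l 16759760) (l 16759744))))) (c (c (b (l 17386432) (a (l 17451864) (b (l 17385536) (l 17286216)))) (b (a (l 17132472) (b (l 17086480) (l 14))) (a (c (b (l 17258112) (l 17206376)) (l 14)) (l 14)))) (b (b (a (l 16752000) (c (l 16761352) (l 16753768))) (a (l 14) (a (l 14) (l 16752208)))) (c (l 14) (c (l 14) (a (l 14) (a (l 14) (a (l 14) (b (l 16746648) (b (l 16744440) (c (l 14) (b (l 16743056) (c (l 14) (a (l 14) (l 16742368)))))))))))))))))), by decide +kernel⟩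

def k5_pm_012 : ∃ t, chk3 f_pm_012 t 29 14 1 = true :=
  ⟨(b (c (a (l 18029640) (l 17941000)) (a (l 17221792) (b (l 17243240) (l 17022944)))) (b (c (a (l 17906800) (l 17768344)) (a (l 17137224) (l 16817792))) (c (a (l 17795168) (a (l 17669792) (l 17492288))) (a (a (l 17167880) (l 17027072)) (a (l 16853600) (l 16781184)))))), by decide +kernel⟩

def k6_pm_012 : ∃ t, chk3 f_pm_012 t 29 30 1 = true :=
  ⟨(a (a (c (b (l 17697528) (l 17286912)) (b (l 16907544) (b (l 16879928) (l 16783992)))) (c (b (l 17588808) (c (l 17624472) (b (l 17283664) (l 17161688)))) (b (l 16806688) (b (l 16776264) (l 16769368))))) (a (b (c (c (l 17709560) (l 17265024)) (l 16778848)) (c (c (l 17342432) (b (l 17129128) (l 16867056))) (b (l 16769672) (l 16764376)))) (b (b (l 16830248) (l 16773048)) (b (l 16768104) (a (l 16766056) (l 16763704)))))), by decide +kernel⟩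

def k7_pm_012 : ∃ t, chk3 f_pm_012 t 116 31 1 = true :=
  ⟨(c (b (c (l 17421336) (b (l 17178688) (a (l 17109712) (l 16954904)))) (c (b (l 17194712) (c (b (l 17361136) (l 17298352)) (l 14))) (b (b (a (l 17029728) (l 16913144)) (l 14)) (l 14)))) (b (b (l 16766792) (a (l 16760648) (l 16759624))) (b (b (a (l 16755400) (l 16754984)) (c (l 14) (a (l 16750504) (l 16750560)))) (c (l 14) (a (c (l 14) (b (b (l 16747544) (l 16746192)) (b (a (l 16744824) (l 16745208)) (b (a (l 16743840) (l 16744304)) (a (c (l 14) (a (l 16742784) (l 16743040))) (b (l 16743856) (a (l 16743464) (l 16743728)))))))) (a (c (l 14) (b (l 16747368) (b (l 16745608) (b (l 16744768) (b (l 16744368) (a (l 16743992) (l 16744264))))))) (b (c (l 16749032) (l 16747624)) (b (l 16746656) (a (b (l 16745776) (b (l 16745384) (c (l 14) (l 16744536)))) (b (l 16746016) (b (l 16745640) (b (l 16746760) (c (l 16746560) (l 16744752)))))))))))))), by decide +kernel⟩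

def k8_pm_012 : ∃ t, chk3 f_pm_012 t 117 31 1 = true :=
  ⟨(b (a (c (c (l 17339728) (b (l 17114072) (l 16834176))) (b (l 16764616) (l 16758664))) (b (l 16765128) (b (l 16762776) (l 16760072)))) (b (b (a (a (l 16758240) (l 16758016)) (a (l 16747320) (l 16747120))) (c (l 14) (a (c (l 14) (l 16750664)) (a (l 16752408) (l 16752480))))) (c (l 14) (a (c (l 14) (b (b (l 16749072) (a (l 16748064) (l 16748376))) (a (b (l 16747056) (b (a (l 16746256) (l 16746496)) (c (b (l 16746568) (c (l 14) (a (l 16745944) (l 16746216)))) (a (c (l 16745480) (l 16744904)) (l 16745792))))) (b (l 16747472) (c (b (l 16747408) (b (l 16747080) (a (c (l 14) (l 16746480)) (l 16747360)))) (b (l 16746240) (a (l 16745736) (l 16746016)))))))) (b (a (b (l 16750912) (l 16749976)) (b (l 16751128) (l 16747664))) (a (c (l 14) (b (l 16747896) (c (b (l 16747888) (b (l 16747592) (a (l 16747304) (l 16747576)))) (b (l 16746744) (a (l 16746296) (l 16746576)))))) (c (a (l 14) (a (l 14) (b (l 16750856) (c (l 14)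 (c (l 14) (b (l 16749440) (l 16749088))))))) (c (b (l 16748912) (b (l 16748376) (b (l 16748120) (a (l 16747848) (l 16748128))))) (b (l 16747736) (b (l 16747264) (a (l 16746856) (l 16747144)))))))))))), by decide +kernel⟩

def k9_pm_012 : ∃ t, chk3 f_pm_012 t 236 31 1 = true :=
  ⟨(b (b (l 16765400) (b (l 16761592) (l 16754040))) (b (b (a (l 16752176) (l 16752008)) (c (l 14) (a (l 16752552) (l 16752640)))) (b (c (l 14) (a (b (l 16751344) (l 16749296)) (b (l 16751576) (c (l 16752120) (l 16749744))))) (c (l 14) (c (c (l 14) (a (b (l 16750480) (c (l 14) (b (l 16749688) (b (l 16749440) (a (l 16749192) (l 16749464)))))) (b (l 16750888) (b (l 16750432) (b (c (l 16750472) (l 16749960)) (a (c (l 14) (l 16749736)) (c (l 16750512) (l 16750008)))))))) (b (c (a (l 16749336) (l 16749776)) (a (l 16748192) (l 16748656))) (b (c (a (l 16748872) (l 16749376)) (a (l 16747784) (l 16748320))) (c (a (b (l 16748648) (a (l 16748408) (l 16748688))) (b (l 16749192) (a (l 16748976) (l 16749256))))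 (a (a (l 16747424) (l 16747712)) (a (l 16748008) (l 16748296))))))))))), by decide +kernel⟩

def k10_pm_012 : ∃ t, chk3 f_pm_012 t 237 31 1 = true :=
  ⟨(b (b (l 16753192) (b (l 16760464) (a (l 16758936) (l 16758600)))) (c (b (b (l 16748392) (l 14)) (l 14)) (a (b (b (l 16754120) (l 16752744)) (b (b (l 16751824) (c (l 16752424) (l 16750112))) (c (c (l 14) (b (l 16751304) (b (l 16750920) (b (c (l 16750992) (l 16750488)) (a (c (l 16750784) (l 16750288)) (c (l 16751056) (l 16750568))))))) (c (b (l 16750216) (b (l 16749896) (b (l 16749744) (a (l 16749544) (l 16749840))))) (b (l 16749128) (b (l 16748864) (a (l 16748592) (l 16748888)))))))) (b (b (l 16754048) (l 16750240)) (b (b (l 16752072) (c (l 16752744) (l 16750488))) (b (b (l 16751296) (a (l 16751040) (l 16751272))) (b (a (c (l 16751848) (l 16749832)) (c (l 16752096) (l 16750104))) (b (a (c (l 16751680) (l 16749720)) (c (l 16751944) (l 16750008))) (a (c (c (l 14) (c (l 16751328) (l 16750848))) (l 16750960)) (c (c (a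 (l 14) (l 16752400)) (l 16751368)) (l 16751256))))))))))), by decide +kernel⟩

def k11_pm_012 : ∃ t, chk3 f_pm_012 t 119 62 1 = true :=
  ⟨(b (a (a (l 16762664) (l 16761872)) (c (l 16767888) (l 16756864))) (b (a (l 16759408) (l 16758408)) (c (a (l 16768504) (l 16760168)) (a (l 16754808) (l 16754328))))), by decide +kernel⟩

def k12_pm_012 : ∃ t, chk3 f_pm_012 t 119 63 2 = true :=
  ⟨(b (b (a (l 16759296) (l 16758920)) (a (l 14) (a (l 14) (l 16758136)))) (a (l 14) (a (l 14) (a (l 14) (a (l 14) (c (l 14) (b (l 16756472) (b (l 16756112) (c (l 14) (c (l 14) (b (l 16755320) (c (l 14) (l 16755160))))))))))))), by decide +kernel⟩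

def k13_pm_012 : ∃ t, chk3 f_pm_012 t 238 63 3 = true :=
  ⟨(b (b (c (l 16755120) (l 16752320)) (b (l 16753016) (c (l 16753824) (l 16751376)))) (b (a (b (l 16752344) (c (l 16753072) (l 16750872))) (b (l 16752616) (c (l 16753408) (l 16751264)))) (a (b (b (l 16751720) (a (l 16751512) (l 16751752))) (b (a (c (l 16752344) (l 16750376)) (c (l 16752592) (l 16750656))) (a (b (c (l 16752208) (l 16750296)) (c (c (a (l 16752536) (l 16752672)) (l 16751656)) (l 16750248))) (b (c (l 16752472) (l 16750592)) (c (c (a (l 16752808) (l 16752944)) (l 16751936)) (l 16750552)))))) (b (b (l 16752488) (a (l 16751992) (l 16752240))) (b (a (c (l 16752840) (l 16750936)) (c (l 16753096) (l 16751216))) (a (b (c (l 16752744) (l 16750888)) (c (c (c (l 14) (l 16752904)) (l 16752224)) (l 16750856))) (b (c (l 16753016) (l 16751184)) (c (c (a (l 16753360) (l 16753496)) (l 16752512)) (l 16751168))))))))), by decide +kernel⟩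

def k14_pm_012 : ∃ t, chk3 f_pm_012 t 239 63 3 = true :=
  ⟨(b (a (b (l 16753896) (c (l 16754480) (l 16752048))) (b (l 16753880) (c (l 16754608) (l 16752240)))) (b (a (b (l 16752904) (c (l 16753760) (l 16751672))) (b (l 16753200) (c (l 16754112) (l 16752088)))) (c (b (b (a (l 16753592) (l 16754016)) (a (l 16753496) (l 16753968))) (b (a (a (l 16753352) (l 16753608)) (a (l 16753872) (l 16754136))) (b (a (a (l 16753288) (l 16753560)) (a (l 16753840) (l 16754120))) (c (a (a (a (l 16753632) (l 16753776)) (a (l 16753912) (l 16754056))) (a (a (l 16754200) (l 16754336)) (c (l 16754744) (l 16754320)))) (a (a (l 16752808) (l 16753096)) (a (l 16753392) (l 16753688))))))) (b (a (a (l 16751536) (l 16751792)) (a (l 16752040) (l 16752296))) (a (b (a (l 16751496) (l 16751784)) (a (c (l 16751928) (l 16751032)) (c (l 16752224) (l 16751344)))) (b (c (l 16752592) (l 16751696)) (a (c (l 16752528) (l 16751656)) (c (l 16752832) (l 16751976))))))))), by decide +kernel⟩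

def k15_pm_012 : ∃ t, chk3 f_pm_012 t 30 6 1 = true :=
  ⟨(b (a (l 17893504) (a (l 17825528) (l 17694648))) (b (a (l 17607072) (a (l 17617496) (l 17469936))) (a (c (l 18002416) (a (l 17219928) (l 17058584))) (a (a (l 17262296) (l 17201184)) (l 16972568))))), by decide +kernel⟩

def k16_pm_012 : ∃ t, chk3 f_pm_012 t 30 14 1 = true :=
  ⟨(a (b (c (a (l 17826800) (l 17550656)) (a (l 16921760) (l 16780960))) (b (a (a (l 17032800) (l 16997792)) (l 16804816)) (a (l 16783096) (b (l 16766936) (l 16763560))))) (b (a (b (l 17000248) (l 16856480)) (b (l 16853504) (l 16751280))) (a (b (l 16758984) (a (l 16758240) (l 16753488))) (b (l 16747728) (b (l 16746160) (l 16745768)))))), by decide +kernel⟩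

def k17_pm_012 : ∃ t, chk3 f_pm_012 t 120 15 1 = true :=
  ⟨(a (b (b (l 16770312) (b (l 16764512) (l 16761424))) (b (b (c (l 16762352) (l 16755520)) (b (l 16754840) (a (l 16757128) (l 16756880)))) (a (c (b (b (l 16758984) (l 16758184)) (c (l 14) (c (l 14) (c (l 14) (b (b (l 16755864) (l 16755704)) (b (b (l 16755616) (l 16755568)) (b (a (l 16755488) (l 16755736)) (a (b (l 16755456) (a (l 16755392) (l 6))) (l 6))))))))) (b (b (l 16753864) (a (l 16753624) (l 16753712))) (b (b (l 16753504) (c (l 16754480) (l 16752512))) (a (b (c (l 16754408) (l 16752560)) (b (c (l 16754400) (l 16752648)) (b (c (l 16754400) (l 16752704)) (c (c (c (l 16755024) (l 16754608)) (l 16753992)) (l 16752744))))) (b (c (l 16754640) (l 16752816)) (b (c (l 16754664) (l 16752944)) (l 6))))))) (b (c (b (l 16758848) (l 16755616)) (b (l 16753872) (c (l 16754896) (l 16752656)))) (b (b (c (l 16757888) (l 16753816)) (c (c (l 14) (l 16756760)) (c (l 16754856) (l 16752944)))) (a (b (b (c (l 16757584) (l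 16753944)) (l 6)) (l 6)) (l 6))))))) (b (b (l 16766208) (b (l 16761560) (l 16759232))) (a (b (b (l 16758192) (b (l 16757136) (l 16756648))) (b (c (b (l 16758728) (c (l 14) (l 16757232))) (b (l 16753888) (a (l 16754008) (l 16754104)))) (b (b (c (l 16758088) (l 16754144)) (l 6)) (l 6)))) (b (b (l 16757512) (b (l 16756728) (l 16756424))) (b (c (b (l 16758624) (c (l 14) (l 16757336))) (b (l 16753912) (a (l 16754216) (l 16754320)))) (l 6)))))), by decide +kernel⟩

def k18_pm_012 : ∃ t, chk3 f_pm_012 t 121 15 1 = true :=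
  ⟨(a (b (b (l 16762200) (b (l 16758688) (l 16757104))) (b (b (b (l 16756280) (l 16755928)) (c (b (l 16758448) (l 16758168)) (b (l 16753000) (c (l 16754448) (l 16754576))))) (b (b (a (b (l 16756216) (l 16756272)) (b (l 16756160) (l 6))) (l 6)) (l 6)))) (b (b (b (l 16759544) (l 16757600)) (b (l 16756200) (a (l 16756016) (l 16755120)))) (b (b (b (l 16755080) (a (l 16755528) (l 16755088))) (a (b (l 16755608) (a (l 16756000) (l 6))) (b (l 16755344) (l 6)))) (l 6)))), by decide +kernel⟩

def k19_pm_012 : ∃ t, chk3 f_pm_012 t 61 15 1 = true :=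
  ⟨(b (b (a (a (b (l 16755384) (l 16754176)) (b (l 16751744) (l 16751264))) (b (l 16745856) (l 16746448))) (a (b (a (l 16753504) (l 16751320)) (a (c (l 16756576) (l 16750184)) (l 16751920))) (a (b (l 16748792) (l 16744848)) (b (l 16746304) (l 6))))) (a (b (b (b (a (l 16753640) (l 16752712)) (a (c (l 16756656) (l 16751360)) (l 6))) (l 6)) (l 6)) (l 6))), by decide +kernel⟩

def k20_pm_012 : ∃ t, chk3 f_pm_012 t 31 3 1 = true :=
  ⟨(b (b (a (b (l 17697352) (l 17323768)) (b (l 17199312) (a (l 17241672) (l 16986696)))) (b (a (a (l 17263560) (l 17090656)) (a (l 16828936) (l 16679936))) (a (b (l 16898448) (l 16731856)) (a (l 16702328) (b (l 16681648) (l 16684680)))))) (b (a (b (b (a (l 16738208) (l 16720496)) (a (l 16735848) (l 16720968))) (b (a (l 16735176) (l 16723088)) (a (b (l 16735744) (l 16736760)) (b (l 16725720) (l 16728096))))) (b (a (b (l 16704064) (l 16707304)) (b (l 16689152) (a (l 16698088) (l 16692136)))) (a (b (b (l 16710704) (l 16713544)) (b (l 16716808)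 (l 6))) (b (a (l 16704960) (l 6)) (l 6))))) (b (a (b (a (b (l 16738240) (a (l 16741736) (l 6))) (l 6)) (l 6)) (l 6)) (l 6)))), by decide +kernel⟩

theorem s21_pm_012 : ∃ t, chk3 f_pm_012 t 60 15 1 = true := ex3_a k17_pm_012 k18_pm_012

theorem s22_pm_012 : ∃ t, chk3 f_pm_012 t 30 15 1 = true := ex3_a s21_pm_012 k19_pm_012

theorem s23_pm_012 : ∃ t, chk3 f_pm_012 t 30 7 1 = true := ex3_b k16_pm_012 s22_pm_012

theorem s24_pm_012 : ∃ t, chk3 f_pm_012 t 30 3 1 = true := ex3_b k15_pm_012 s23_pm_012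

theorem s25_pm_012 : ∃ t, chk3 f_pm_012 t 15 3 1 = true := ex3_a s24_pm_012 k20_pm_012

theorem s26_pm_012 : ∃ t, chk3 f_pm_012 t 119 63 3 = true := ex3_a k13_pm_012 k14_pm_012

theorem s27_pm_012 : ∃ t, chk3 f_pm_012 t 119 63 1 = true := ex3_c k12_pm_012 s26_pm_012

theorem s28_pm_012 : ∃ t, chk3 f_pm_012 t 119 31 1 = true := ex3_b k11_pm_012 s27_pm_012

theorem s29_pm_012 : ∃ t, chk3 f_pm_012 t 118 31 1 = true := ex3_a k9_pm_012 k10_pm_012

theorem s30_pm_012 : ∃ t, chk3 f_pm_012 t 59 31 1 = true := ex3_a s29_pm_012 s28_pm_012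

theorem s31_pm_012 : ∃ t, chk3 f_pm_012 t 58 31 1 = true := ex3_a k7_pm_012 k8_pm_012

theorem s32_pm_012 : ∃ t, chk3 f_pm_012 t 29 31 1 = true := ex3_a s31_pm_012 s30_pm_012

theorem s33_pm_012 : ∃ t, chk3 f_pm_012 t 29 15 1 = true := ex3_b k6_pm_012 s32_pm_012

theorem s34_pm_012 : ∃ t, chk3 f_pm_012 t 29 7 1 = true := ex3_b k5_pm_012 s33_pm_012

theorem s35_pm_012 : ∃ t, chk3 f_pm_012 t 14 7 1 = true := ex3_a k4_pm_012 s34_pm_012

theorem s36_pm_012 : ∃ t, chk3 f_pm_012 t 14 3 1 = true := ex3_b k3_pm_012 s35_pm_012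

theorem s37_pm_012 : ∃ t, chk3 f_pm_012 t 7 3 1 = true := ex3_a s36_pm_012 s25_pm_012

theorem s38_pm_012 : ∃ t, chk3 f_pm_012 t 3 3 1 = true := ex3_a k2_pm_012 s37_pm_012

theorem s39_pm_012 : ∃ t, chk3 f_pm_012 t 3 1 1 = true := ex3_b k1_pm_012 s38_pm_012

theorem s40_pm_012 : ∃ t, chk3 f_pm_012 t 1 1 1 = true := ex3_a k0_pm_012 s39_pm_012

theorem c_pm_012 : CertN 0 536870912 0 536870912 67108864 67108864 3 false true false .pnp 0 1 2
    ndN0q0 ndN0q2 pcN1 cut_pm_012 Ext.none :=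
  certNK2 (fam := false) (s1 := true) (s2 := false) (a := 0) (b := 1) (c := 2) (cn := .pnp) (n1 := ndN0q0) (n2 := ndN0q2) (pc := pcN1) (cut := cut_pm_012) (xt := Ext.none) (P1 := 0) (W1 := 536870912) (P2 := 0) (W2 := 536870912) (P3 := 67108864) (W3 := 67108864) (N0 := 3)
    rfl rfl rfl (fun _ => rfl) s40_pm_012

noncomputable def cut_pm_022 : Cut := Cut.of [[⟨0, 0, 0, 67108864⟩, ⟨1, 1, 0, 67108864⟩, ⟨2, 1, 0, 67108864⟩]]

noncomputable def f_pm_022 : ℕ → ℕ → ℕ → ℕ → Bool := onCell 1073741824 536870912 0 536870912 67108864 67108864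
    (rowNK 3 2 false true false .pp 0 2 2 (qsf 0 536870912 0 536870912 2) ndN0q0 ndN0q2 pcN2 cut_pm_022 Ext.none)

def k0_pm_022 : ∃ t, chk3 f_pm_022 t 2 2 1 = true :=
  ⟨(a (a (b (b (c (l 18413848) (l 17596568)) (a (l 17969824) (l 18014112))) (c (b (l 18434448) (a (b (l 18364816) (l 18235632)) (l 18239168))) (b (a (b (l 17496592) (l 17384880)) (l 17424240)) (a (b (l 17217824) (l 16724672)) (b (l 17205424) (l 16975760)))))) (b (b (l 17909208) (a (l 18020584) (l 18047944))) (c (b (l 18382288) (a (l 18199496) (b (l 18247824) (l 18109272)))) (b (a (l 17437904) (b (l 17531008) (l 17423184))) (a (b (l 17226432) (l 16969464)) (b (l 17275392) (b (l 17070552) (l 38151245799)))))))) (a (a (b (b (l 18142632) (l 29563580823)) (b (c (l 18395128) (a (l 17310904) (l 187939436983))) (a (c (l 238943441095) (b (l 61237439543) (l 178275439495))) (l 1)))) (b (c (l 18561600) (l 242163939351)) (l 1))) (l 1))), by decide +kernel⟩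

def k1_pm_022 : ∃ t, chk3 f_pm_022 t 4 6 1 = true :=
  ⟨(b (b (a (c (a (c (l 18380792) (l 17641616)) (l 17924944)) (a (a (l 16632384) (l 16633024)) (l 16654696))) (a (c (l 17761144) (l 16676704)) (c (c (l 18198792) (a (l 17634760) (l 186329019287))) (a (l 16788680) (a (l 16703872) (l 146599478695)))))) (a (a (a (b (l 16888696) (l 16787456)) (l 16740112)) (a (l 16785928) (l 16779032))) (a (a (l 16739768) (b (l 16950136) (l 16820784))) (a (b (c (l 42984621751) (l 16715432)) (a (b (l 16882144) (l 16742624)) (l 157873897607))) (l 1))))) (a (a (b (b (a (l 16601408) (l 16609968)) (a (l 16656864) (l 16623104))) (a (b (a (l 16601208) (l 16594928)) (a (l 16617152) (l 16631632))) (b (l 16637376) (l 16658160)))) (b (a (b (l 16617296) (l 16630184)) (b (l 16644728) (l 16657552))) (a (b (l 16665304) (l 16680608)) (b (l 16692352) (l 16707192))))) (a (b (a (b (l 16671208) (l 16683520)) (b (l 31171950343) (a (l 16701952) (l 98280804471)))) (a (b (l 16723040) (a (l 16705048) (b (l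 59626109239) (l 100428302087)))) (b (a (l 85395936311) (l 1)) (l 1)))) (b (a (b (l 124587518871) (l 1)) (l 1)) (l 1))))), by decide +kernel⟩

def k2_pm_022 : ∃ t, chk3 f_pm_022 t 4 7 1 = true :=
  ⟨(b (b (a (b (a (a (a (l 16634296) (l 16648560)) (a (l 16662648) (l 16655680))) (a (b (l 16692888) (l 16701392)) (a (l 16695768) (l 16718800)))) (b (a (a (a (l 16647880) (l 16641040)) (l 16683096)) (a (l 16710160) (a (l 16708400) (a (l 16717672) (c (l 68752940503) (l 74121639303)))))) (a (l 6) (a (l 6) (a (l 6) (a (l 6) (l 150357320071))))))) (a (a (b (a (b (a (l 16713448) (l 75195372055)) (a (l 73047893511) (l 154115406599))) (l 161094738247)) (a (b (l 154652288039) (l 1)) (l 1))) (l 1)) (l 1))) (a (a (l 6) (a (l 6) (a (l 6) (a (l 6) (l 1))))) (l 1))) (a (a (l 6) (a (l 6) (l 1))) (l 1))), by decide +kernel⟩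

def k3_pm_022 : ∃ t, chk3 f_pm_022 t 5 3 1 = true :=
  ⟨(b (l 1) (l 1)), by decide +kernel⟩

def k4_pm_022 : ∃ t, chk3 f_pm_022 t 3 1 1 = true :=
  ⟨(l 1), by decide +kernel⟩

theorem s5_pm_022 : ∃ t, chk3 f_pm_022 t 4 3 1 = true := ex3_b k1_pm_022 k2_pm_022

theorem s6_pm_022 : ∃ t, chk3 f_pm_022 t 2 3 1 = true := ex3_a s5_pm_022 k3_pm_022

theorem s7_pm_022 : ∃ t, chk3 f_pm_022 t 2 1 1 = true := ex3_b k0_pm_022 s6_pm_022

theorem s8_pm_022 : ∃ t, chk3 f_pm_022 t 1 1 1 = true := ex3_a s7_pm_022 k4_pm_022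

theorem c_pm_022 : CertN 0 536870912 0 536870912 67108864 67108864 3 false true false .pp 0 2 2
    ndN0q0 ndN0q2 pcN2 cut_pm_022 Ext.none :=
  certNK2 (fam := false) (s1 := true) (s2 := false) (a := 0) (b := 2) (c := 2) (cn := .pp) (n1 := ndN0q0) (n2 := ndN0q2) (pc := pcN2) (cut := cut_pm_022) (xt := Ext.none) (P1 := 0) (W1 := 536870912) (P2 := 0) (W2 := 536870912) (P3 := 67108864) (W3 := 67108864) (N0 := 3)
    rfl rfl rfl (fun _ => rfl) s8_pm_022

noncomputable def cut_pm_101 : Cut := Cut.of [[⟨0, 1, 0, 67108864⟩, ⟨1, 0, 0, 67108864⟩, ⟨2, 1, 0, 67108864⟩]]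

noncomputable def f_pm_101 : ℕ → ℕ → ℕ → ℕ → Bool := onCell 536870912 536870912 536870912 536870912 67108864 67108864
    (rowNK 3 0 false true false .npn 1 0 1 (qsf 536870912 536870912 536870912 536870912 0) ndN0q1 ndN0q1 pcN0 cut_pm_101 Ext.none)

def k0_pm_101 : ∃ t, chk3 f_pm_101 t 2 1 1 = true :=
  ⟨(b (a (b (a (b (l 4) (a (b (l 4) (b (l 4) (a (l 4) (l 116199155111)))) (b (b (l 4) (a (l 4) (l 116736074503))) (b (a (l 116736030647) (b (l 110830384631) (l 16844808))) (a (b (l 110830384439) (l 16825240)) (l 16786744)))))) (b (a (a (l 4) (l 1)) (l 1)) (a (b (a (b (l 117272964999) (b (l 110293534823) (l 16844464))) (b (l 306587020695) (l 16808368))) (l 16874592)) (l 141231277255)))) (b (a (b (a (b (a (l 118346633191) (b (l 110830383015) (l 16826296))) (l 87208203111)) (l 16854728)) (a (l 16862408) (l 16905176))) (b (a (l 16944184) (l 17015688)) (l 17143768))) (a (a (b (l 16915512) (l 17028280)) (l 17148008)) (l 17381776)))) (b (a (b (l 1) (a (b (l 1) (l 17024560))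 (l 1))) (l 1)) (a (b (a (l 17157912) (l 17260600)) (l 17382512)) (b (l 17682456) (l 17601936))))) (b (a (b (a (l 17350216) (l 17335800)) (a (l 17401744) (l 17390704))) (a (b (l 17522416) (l 17576832)) (b (l 17747384) (l 17816328)))) (a (a (b (b (l 17336416) (a (b (l 17572544) (l 17637744)) (l 17432320))) (b (b (l 17439992) (l 17505648)) (b (l 17824400) (b (l 18124232) (l 18356168))))) (b (b (l 17321712) (a (l 17261704) (l 17342360))) (b (b (l 17458944) (l 17654672)) (b (l 17919808) (l 18310912))))) (b (a (b (l 17555024) (l 17661920)) (b (l 17769488) (l 17725000))) (b (a (l 17707536) (l 17786496)) (a (b (l 17957592) (l 18222096)) (b (l 17941128) (l 18110544)))))))), by decide +kernel⟩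

def k1_pm_101 : ∃ t, chk3 f_pm_101 t 3 1 1 = true :=
  ⟨(b (a (b (l 1) (a (b (l 1) (l 17841960)) (l 1))) (l 1)) (a (b (a (b (l 17999392) (l 18093016)) (b (l 55334780103) (l 18652632))) (b (a (b (l 18285832) (l 17917856)) (b (a (l 18269560) (a (l 18370712) (l 18454840))) (l 18321440))) (b (a (l 17841256) (l 17845672)) (b (a (l 17868384) (l 17737416)) (a (l 18123264) (a (l 17765120) (l 17630584))))))) (b (a (b (l 1) (c (l 85400459479) (a (l 89695078647) (l 1)))) (l 1)) (b (a (b (b (a (a (l 18571392) (l 138550163015)) (l 1)) (a (l 18430264) (l 163245821991))) (b (a (l 18244064) (l 146602584327)) (a (l 18064744) (l 18139712)))) (b (l 1) (a (a (b (l 1) (l 176666770295)) (l 1)) (l 1)))) (a (b (a (l 17817128) (b (l 17889168) (l 17690376))) (b (a (l 17604600) (l 17505568)) (a (b (l 17518416) (l 17464944)) (b (l 17378528) (a (l 17340368) (l 17252520)))))) (a (a (b (b (l 17922640) (l 17648192)) (b (l 17425896) (b (l 17268080) (b (l 17193048) (l 17141880))))) (b (b (l 186866836967)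 (l 6)) (l 6))) (b (b (l 1) (l 6)) (l 6)))))))), by decide +kernel⟩

theorem s2_pm_101 : ∃ t, chk3 f_pm_101 t 1 1 1 = true := ex3_a k0_pm_101 k1_pm_101

theorem c_pm_101 : CertN 536870912 536870912 536870912 536870912 67108864 67108864 3 false true false .npn 1 0 1
    ndN0q1 ndN0q1 pcN0 cut_pm_101 Ext.none :=
  certNK0 (fam := false) (s1 := true) (s2 := false) (a := 1) (b := 0) (c := 1) (cn := .npn) (n1 := ndN0q1) (n2 := ndN0q1) (pc := pcN0) (cut := cut_pm_101) (xt := Ext.none) (P1 := 536870912) (W1 := 536870912) (P2 := 536870912) (W2 := 536870912) (P3 := 67108864) (W3 := 67108864) (N0 := 3)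
    rfl rfl rfl s2_pm_101

end Pool.Agent.Strip051.G.I1_16_1_8.Tab.C.NB00

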