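import Pool.Agent.Strip051.G.I1_16_1_8.AsmH
import Pool.Agent.Strip051.G.I1_16_1_8.TrN3
import Pool.Agent.Strip051.G.I1_16_1_8.TrN4
import Pool.Agent.Strip051.G.I1_16_1_8.CrnN_0

/-! # Rows from certificates (generated) -/

set_option linter.all false
set_option maxRecDepth 100000

namespace Pool.Agent.Strip051.G.I1_16_1_8.Tab

open Pool.Agent.Strip051.PB Pool.Agent.StripNear Pool.Agent.Strip051.LC

theorem NA14_pp_001 {κ x : ℝ} (hκ : κ * h0 = ken x) (hx : ((67108864 : ℕ) : ℝ) / S ≤ x) (hx' : x ≤ (((67108864 : ℕ) : ℝ) + (67108864 : ℕ)) / S) :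
    TriA PP.cur (nearL (h0 * 0) 3 κ (h0 * x) (tbl tKN x) (tbl tL x)) 0 0 1 1 4 1 1 :=
  (sideN hx hx').nearA (Or.inl rfl) (Or.inl rfl) fun y y' F =>
    nearA_cert (s1 := true) (s2 := true) rfl hκ covN10 covN40 hx hx'
        Pool.Agent.Strip051.G.I1_16_1_8.Tab.C.NA14.c_pp_001 noCut_A noExt_A F trivial trivial

theorem NA14_pp_011 {κ x : ℝ} (hκ : κ * h0 = ken x) (hx : ((67108864 : ℕ) : ℝ) / S ≤ x) (hx' : x ≤ (((67108864 : ℕ) : ℝ) + (67108864 : ℕ)) / S) :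
    TriA PP.cur (nearL (h0 * 0) 3 κ (h0 * x) (tbl tKN x) (tbl tL x)) 0 1 1 1 4 1 1 :=
  (sideN hx hx').nearA (Or.inl rfl) (Or.inl rfl) fun y y' F =>
    nearA_cert (s1 := true) (s2 := true) rfl hκ covN10 covN41 hx hx'
        Pool.Agent.Strip051.G.I1_16_1_8.Tab.C.NA14.c_pp_011 noCut_A noExt_A F trivial trivial

theorem NA14_pp_012 {κ x : ℝ} (hκ : κ * h0 = ken x) (hx : ((67108864 : ℕ) : ℝ) / S ≤ x) (hx' : x ≤ (((67108864 : ℕ) : ℝ) + (67108864 : ℕ)) / S) :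
    TriA PP.cur (nearL (h0 * 0) 3 κ (h0 * x) (tbl tKN x) (tbl tL x)) 0 1 2 1 4 1 1 :=
  (sideN hx hx').nearA (Or.inl rfl) (Or.inl rfl) fun y y' F =>
    nearA_cert (s1 := true) (s2 := true) rfl hκ covN10 covN41 hx hx'
        Pool.Agent.Strip051.G.I1_16_1_8.Tab.C.NA14.c_pp_012 noCut_A noExt_A F trivial trivial

theorem NA14_pp_022 {κ x : ℝ} (hκ : κ * h0 = ken x) (hx : ((67108864 : ℕ) : ℝ) / S ≤ x) (hx' : x ≤ (((67108864 : ℕ) : ℝ) + (67108864 : ℕ)) / S) :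
    TriA PP.cur (nearL (h0 * 0) 3 κ (h0 * x) (tbl tKN x) (tbl tL x)) 0 2 2 1 4 1 1 :=
  (sideN hx hx').nearA (Or.inl rfl) (Or.inl rfl) fun y y' F =>
    nearA_cert (s1 := true) (s2 := true) rfl hκ covN10 covN42 hx hx'
        Pool.Agent.Strip051.G.I1_16_1_8.Tab.C.NA14.c_pp_022 noCut_A noExt_A F trivial trivial

theorem NA14_pp_023 {κ x : ℝ} (hκ : κ * h0 = ken x) (hx : ((67108864 : ℕ) : ℝ) / S ≤ x) (hx' : x ≤ (((67108864 : ℕ) : ℝ) + (67108864 : ℕ)) / S) :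
    TriA PP.cur (nearL (h0 * 0) 3 κ (h0 * x) (tbl tKN x) (tbl tL x)) 0 2 3 1 4 1 1 :=
  (sideN hx hx').nearA (Or.inl rfl) (Or.inl rfl) fun y y' F =>
    nearA_cert (s1 := true) (s2 := true) rfl hκ covN10 covN42 hx hx'
        Pool.Agent.Strip051.G.I1_16_1_8.Tab.C.NA14.c_pp_023 noCut_A noExt_A F trivial trivial

theorem NA14_pp_033 {κ x : ℝ} (hκ : κ * h0 = ken x) (hx : ((67108864 : ℕ) : ℝ) / S ≤ x) (hx' : x ≤ (((67108864 : ℕ) : ℝ) + (67108864 : ℕ)) / S) :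
    TriA PP.cur (nearL (h0 * 0) 3 κ (h0 * x) (tbl tKN x) (tbl tL x)) 0 3 3 1 4 1 1 :=
  (sideN hx hx').nearA (Or.inl rfl) (Or.inl rfl) fun y y' F =>
    nearA_cert (s1 := true) (s2 := true) rfl hκ covN10 covN43 hx hx'
        Pool.Agent.Strip051.G.I1_16_1_8.Tab.C.NA14.c_pp_033 noCut_A noExt_A F trivial trivial

theorem NA14_pp_101 {κ x : ℝ} (hκ : κ * h0 = ken x) (hx : ((67108864 : ℕ) : ℝ) / S ≤ x) (hx' : x ≤ (((67108864 : ℕ) : ℝ) + (67108864 : ℕ)) / S) :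
    TriA PP.cur (nearL (h0 * 0) 3 κ (h0 * x) (tbl tKN x) (tbl tL x)) 1 0 1 1 4 1 1 :=
  (sideN hx hx').nearA (Or.inl rfl) (Or.inl rfl) fun y y' F =>
    nearA_cert (s1 := true) (s2 := true) rfl hκ covN11 covN40 hx hx'
        Pool.Agent.Strip051.G.I1_16_1_8.Tab.C.NA14.c_pp_101 noCut_A noExt_A F trivial trivial

theorem NA14_pp_102 {κ x : ℝ} (hκ : κ * h0 = ken x) (hx : ((67108864 : ℕ) : ℝ) / S ≤ x) (hx' : x ≤ (((67108864 : ℕ) : ℝ) + (67108864 : ℕ)) / S) :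
    TriA PP.cur (nearL (h0 * 0) 3 κ (h0 * x) (tbl tKN x) (tbl tL x)) 1 0 2 1 4 1 1 :=
  (sideN hx hx').nearA (Or.inl rfl) (Or.inl rfl) fun y y' F =>
    nearA_cert (s1 := true) (s2 := true) rfl hκ covN11 covN40 hx hx'
        Pool.Agent.Strip051.G.I1_16_1_8.Tab.C.NA14.c_pp_102 noCut_A noExt_A F trivial trivial

theorem NA14_pp_112 {κ x : ℝ} (hκ : κ * h0 = ken x) (hx : ((67108864 : ℕ) : ℝ) / S ≤ x) (hx' : x ≤ (((67108864 : ℕ) : ℝ) + (67108864 : ℕ)) / S) :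
    TriA PP.cur (nearL (h0 * 0) 3 κ (h0 * x) (tbl tKN x) (tbl tL x)) 1 1 2 1 4 1 1 :=
  (sideN hx hx').nearA (Or.inl rfl) (Or.inl rfl) fun y y' F =>
    nearA_cert (s1 := true) (s2 := true) rfl hκ covN11 covN41 hx hx'
        Pool.Agent.Strip051.G.I1_16_1_8.Tab.C.NA14.c_pp_112 noCut_A noExt_A F trivial trivial

theorem NA14_pp_113 {κ x : ℝ} (hκ : κ * h0 = ken x) (hx : ((67108864 : ℕ) : ℝ) / S ≤ x) (hx' : x ≤ (((67108864 : ℕ) : ℝ) + (67108864 : ℕ)) / S) :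
    TriA PP.cur (nearL (h0 * 0) 3 κ (h0 * x) (tbl tKN x) (tbl tL x)) 1 1 3 1 4 1 1 :=
  (sideN hx hx').nearA (Or.inl rfl) (Or.inl rfl) fun y y' F =>
    nearA_cert (s1 := true) (s2 := true) rfl hκ covN11 covN41 hx hx'
        Pool.Agent.Strip051.G.I1_16_1_8.Tab.C.NA14.c_pp_113 noCut_A noExt_A F trivial trivial

theorem NA14_pp_123 {κ x : ℝ} (hκ : κ * h0 = ken x) (hx : ((67108864 : ℕ) : ℝ) / S ≤ x) (hx' : x ≤ (((67108864 : ℕ) : ℝ) + (67108864 : ℕ)) / S) :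
    TriA PP.cur (nearL (h0 * 0) 3 κ (h0 * x) (tbl tKN x) (tbl tL x)) 1 2 3 1 4 1 1 :=
  (sideN hx hx').nearA (Or.inl rfl) (Or.inl rfl) fun y y' F =>
    nearA_cert (s1 := true) (s2 := true) rfl hκ covN11 covN42 hx hx'
        Pool.Agent.Strip051.G.I1_16_1_8.Tab.C.NA14.c_pp_123 noCut_A noExt_A F trivial trivial

theorem NA14_pp_133 {κ x : ℝ} (hκ : κ * h0 = ken x) (hx : ((67108864 : ℕ) : ℝ) / S ≤ x) (hx' : x ≤ (((67108864 : ℕ) : ℝ) + (67108864 : ℕ)) / S) :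
    TriA PP.cur (nearL (h0 * 0) 3 κ (h0 * x) (tbl tKN x) (tbl tL x)) 1 3 3 1 4 1 1 :=
  (sideN hx hx').nearA (Or.inl rfl) (Or.inl rfl) fun y y' F =>
    nearA_cert (s1 := true) (s2 := true) rfl hκ covN11 covN43 hx hx'
        Pool.Agent.Strip051.G.I1_16_1_8.Tab.C.NA14.c_pp_133 noCut_A noExt_A F trivial trivial

theorem NA14_pp_202 {κ x : ℝ} (hκ : κ * h0 = ken x) (hx : ((67108864 : ℕ) : ℝ) / S ≤ x) (hx' : x ≤ (((67108864 : ℕ) : ℝ) + (67108864 : ℕ)) / S) :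
    TriA PP.cur (nearL (h0 * 0) 3 κ (h0 * x) (tbl tKN x) (tbl tL x)) 2 0 2 1 4 1 1 :=
  (sideN hx hx').nearA (Or.inl rfl) (Or.inl rfl) fun y y' F =>
    (lt_or_ge (h0 * y) 1).elim
      (fun h => nearA_cert (s1 := true) (s2 := true) rfl hκ covN12a covN40 hx hx'
        Pool.Agent.Strip051.G.I1_16_1_8.Tab.C.NA14.c_pp_202_a noCut_A noExt_A F h trivial)
      (fun h => nearA_cert (s1 := true) (s2 := true) rfl hκ covN12b covN40 hx hx'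
        Pool.Agent.Strip051.G.I1_16_1_8.Tab.C.NA14.c_pp_202_b noCut_A noExt_A F h trivial)

theorem NA14_pp_203 {κ x : ℝ} (hκ : κ * h0 = ken x) (hx : ((67108864 : ℕ) : ℝ) / S ≤ x) (hx' : x ≤ (((67108864 : ℕ) : ℝ) + (67108864 : ℕ)) / S) :
    TriA PP.cur (nearL (h0 * 0) 3 κ (h0 * x) (tbl tKN x) (tbl tL x)) 2 0 3 1 4 1 1 :=
  (sideN hx hx').nearA (Or.inl rfl) (Or.inl rfl) fun y y' F =>
    (lt_or_ge (h0 * y) 1).elim
      (fun h => nearA_cert (s1 := true) (s2 := true) rfl hκ covN12a covN40 hx hx'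
        Pool.Agent.Strip051.G.I1_16_1_8.Tab.C.NA14.c_pp_203_a noCut_A noExt_A F h trivial)
      (fun h => nearA_cert (s1 := true) (s2 := true) rfl hκ covN12b covN40 hx hx'
        Pool.Agent.Strip051.G.I1_16_1_8.Tab.C.NA14.c_pp_203_b noCut_A noExt_A F h trivial)

theorem NA14_pp_213 {κ x : ℝ} (hκ : κ * h0 = ken x) (hx : ((67108864 : ℕ) : ℝ) / S ≤ x) (hx' : x ≤ (((67108864 : ℕ) : ℝ) + (67108864 : ℕ)) / S) :
    TriA PP.cur (nearL (h0 * 0) 3 κ (h0 * x) (tbl tKN x) (tbl tL x)) 2 1 3 1 4 1 1 :=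
  (sideN hx hx').nearA (Or.inl rfl) (Or.inl rfl) fun y y' F =>
    (lt_or_ge (h0 * y) 1).elim
      (fun h => nearA_cert (s1 := true) (s2 := true) rfl hκ covN12a covN41 hx hx'
        Pool.Agent.Strip051.G.I1_16_1_8.Tab.C.NA14.c_pp_213_a noCut_A noExt_A F h trivial)
      (fun h => nearA_cert (s1 := true) (s2 := true) rfl hκ covN12b covN41 hx hx'
        Pool.Agent.Strip051.G.I1_16_1_8.Tab.C.NA14.c_pp_213_b noCut_A noExt_A F h trivial)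

theorem NA14_pp_303 {κ x : ℝ} (hκ : κ * h0 = ken x) (hx : ((67108864 : ℕ) : ℝ) / S ≤ x) (hx' : x ≤ (((67108864 : ℕ) : ℝ) + (67108864 : ℕ)) / S) :
    TriA PP.cur (nearL (h0 * 0) 3 κ (h0 * x) (tbl tKN x) (tbl tL x)) 3 0 3 1 4 1 1 :=
  (sideN hx hx').nearA (Or.inl rfl) (Or.inl rfl) fun y y' F =>
    nearA_cert (s1 := true) (s2 := true) rfl hκ covN13 covN40 hx hx'
        Pool.Agent.Strip051.G.I1_16_1_8.Tab.C.NA14.c_pp_303 noCut_A noExt_A F trivial trivial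

theorem NA14_pp_313 {κ x : ℝ} (hκ : κ * h0 = ken x) (hx : ((67108864 : ℕ) : ℝ) / S ≤ x) (hx' : x ≤ (((67108864 : ℕ) : ℝ) + (67108864 : ℕ)) / S) :
    TriA PP.cur (nearL (h0 * 0) 3 κ (h0 * x) (tbl tKN x) (tbl tL x)) 3 1 3 1 4 1 1 :=
  (sideN hx hx').nearA (Or.inl rfl) (Or.inl rfl) fun y y' F =>
    nearA_cert (s1 := true) (s2 := true) rfl hκ covN13 covN41 hx hx'
        Pool.Agent.Strip051.G.I1_16_1_8.Tab.C.NA14.c_pp_313 noCut_A noExt_A F trivial trivial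

theorem NA14_pm_001 {κ x : ℝ} (hκ : κ * h0 = ken x) (hx : ((67108864 : ℕ) : ℝ) / S ≤ x) (hx' : x ≤ (((67108864 : ℕ) : ℝ) + (67108864 : ℕ)) / S) :
    TriA PP.cur (nearL (h0 * 0) 3 κ (h0 * x) (tbl tKN x) (tbl tL x)) 0 0 1 1 4 1 (-1) :=
  (sideN hx hx').nearA (Or.inl rfl) (Or.inr rfl) fun y y' F =>
    nearA_cert (s1 := true) (s2 := false) rfl hκ covN10 covN40 hx hx'
        Pool.Agent.Strip051.G.I1_16_1_8.Tab.C.NA14.c_pm_001 noCut_A noExt_A F trivial trivial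

theorem NA14_pm_011 {κ x : ℝ} (hκ : κ * h0 = ken x) (hx : ((67108864 : ℕ) : ℝ) / S ≤ x) (hx' : x ≤ (((67108864 : ℕ) : ℝ) + (67108864 : ℕ)) / S) :
    TriA PP.cur (nearL (h0 * 0) 3 κ (h0 * x) (tbl tKN x) (tbl tL x)) 0 1 1 1 4 1 (-1) :=
  (sideN hx hx').nearA (Or.inl rfl) (Or.inr rfl) fun y y' F =>
    nearA_cert (s1 := true) (s2 := false) rfl hκ covN10 covN41 hx hx'
        Pool.Agent.Strip051.G.I1_16_1_8.Tab.C.NA14.c_pm_011 (cutA_cons (Pool.Agent.Strip051.G.I1_16_1_8.Tab.altN_A011R_14 hκ hx hx') cutA_nil) noExt_A F trivial trivial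

theorem NA14_pm_012 {κ x : ℝ} (hκ : κ * h0 = ken x) (hx : ((67108864 : ℕ) : ℝ) / S ≤ x) (hx' : x ≤ (((67108864 : ℕ) : ℝ) + (67108864 : ℕ)) / S) :
    TriA PP.cur (nearL (h0 * 0) 3 κ (h0 * x) (tbl tKN x) (tbl tL x)) 0 1 2 1 4 1 (-1) :=
  (sideN hx hx').nearA (Or.inl rfl) (Or.inr rfl) fun y y' F =>
    nearA_cert (s1 := true) (s2 := false) rfl hκ covN10 covN41 hx hx'
        Pool.Agent.Strip051.G.I1_16_1_8.Tab.C.NA14.c_pm_012 (cutA_cons (Pool.Agent.Strip051.G.I1_16_1_8.Tab.altN_A012R_14 hκ hx hx') cutA_nil) noExt_A F trivial trivial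

theorem NA14_pm_022 {κ x : ℝ} (hκ : κ * h0 = ken x) (hx : ((67108864 : ℕ) : ℝ) / S ≤ x) (hx' : x ≤ (((67108864 : ℕ) : ℝ) + (67108864 : ℕ)) / S) :
    TriA PP.cur (nearL (h0 * 0) 3 κ (h0 * x) (tbl tKN x) (tbl tL x)) 0 2 2 1 4 1 (-1) :=
  (sideN hx hx').nearA (Or.inl rfl) (Or.inr rfl) fun y y' F =>
    nearA_cert (s1 := true) (s2 := false) rfl hκ covN10 covN42 hx hx'
        Pool.Agent.Strip051.G.I1_16_1_8.Tab.C.NA14.c_pm_022 (cutA_cons (Pool.Agent.Strip051.G.I1_16_1_8.Tab.altN_A022R_14 hκ hx hx') cutA_nil) noExt_A F trivial trivial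

theorem NA14_pm_023 {κ x : ℝ} (hκ : κ * h0 = ken x) (hx : ((67108864 : ℕ) : ℝ) / S ≤ x) (hx' : x ≤ (((67108864 : ℕ) : ℝ) + (67108864 : ℕ)) / S) :
    TriA PP.cur (nearL (h0 * 0) 3 κ (h0 * x) (tbl tKN x) (tbl tL x)) 0 2 3 1 4 1 (-1) :=
  (sideN hx hx').nearA (Or.inl rfl) (Or.inr rfl) fun y y' F =>
    nearA_cert (s1 := true) (s2 := false) rfl hκ covN10 covN42 hx hx'
        Pool.Agent.Strip051.G.I1_16_1_8.Tab.C.NA14.c_pm_023 noCut_A noExt_A F trivial trivial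

theorem NA14_pm_033 {κ x : ℝ} (hκ : κ * h0 = ken x) (hx : ((67108864 : ℕ) : ℝ) / S ≤ x) (hx' : x ≤ (((67108864 : ℕ) : ℝ) + (67108864 : ℕ)) / S) :
    TriA PP.cur (nearL (h0 * 0) 3 κ (h0 * x) (tbl tKN x) (tbl tL x)) 0 3 3 1 4 1 (-1) :=
  (sideN hx hx').nearA (Or.inl rfl) (Or.inr rfl) fun y y' F =>
    nearA_cert (s1 := true) (s2 := false) rfl hκ covN10 covN43 hx hx'
        Pool.Agent.Strip051.G.I1_16_1_8.Tab.C.NA14.c_pm_033 noCut_A noExt_A F trivial trivial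

theorem NA14_pm_101 {κ x : ℝ} (hκ : κ * h0 = ken x) (hx : ((67108864 : ℕ) : ℝ) / S ≤ x) (hx' : x ≤ (((67108864 : ℕ) : ℝ) + (67108864 : ℕ)) / S) :
    TriA PP.cur (nearL (h0 * 0) 3 κ (h0 * x) (tbl tKN x) (tbl tL x)) 1 0 1 1 4 1 (-1) :=
  (sideN hx hx').nearA (Or.inl rfl) (Or.inr rfl) fun y y' F =>
    nearA_cert (s1 := true) (s2 := false) rfl hκ covN11 covN40 hx hx'
        Pool.Agent.Strip051.G.I1_16_1_8.Tab.C.NA14.c_pm_101 noCut_A noExt_A F trivial trivial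

theorem NA14_pm_102 {κ x : ℝ} (hκ : κ * h0 = ken x) (hx : ((67108864 : ℕ) : ℝ) / S ≤ x) (hx' : x ≤ (((67108864 : ℕ) : ℝ) + (67108864 : ℕ)) / S) :
    TriA PP.cur (nearL (h0 * 0) 3 κ (h0 * x) (tbl tKN x) (tbl tL x)) 1 0 2 1 4 1 (-1) :=
  (sideN hx hx').nearA (Or.inl rfl) (Or.inr rfl) fun y y' F =>
    nearA_cert (s1 := true) (s2 := false) rfl hκ covN11 covN40 hx hx'
        Pool.Agent.Strip051.G.I1_16_1_8.Tab.C.NA14.c_pm_102 noCut_A noExt_A F trivial trivial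

theorem NA14_pm_112 {κ x : ℝ} (hκ : κ * h0 = ken x) (hx : ((67108864 : ℕ) : ℝ) / S ≤ x) (hx' : x ≤ (((67108864 : ℕ) : ℝ) + (67108864 : ℕ)) / S) :
    TriA PP.cur (nearL (h0 * 0) 3 κ (h0 * x) (tbl tKN x) (tbl tL x)) 1 1 2 1 4 1 (-1) :=
  (sideN hx hx').nearA (Or.inl rfl) (Or.inr rfl) fun y y' F =>
    nearA_cert (s1 := true) (s2 := false) rfl hκ covN11 covN41 hx hx'
        Pool.Agent.Strip051.G.I1_16_1_8.Tab.C.NA14.c_pm_112 noCut_A noExt_A F trivial trivial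

theorem NA14_pm_113 {κ x : ℝ} (hκ : κ * h0 = ken x) (hx : ((67108864 : ℕ) : ℝ) / S ≤ x) (hx' : x ≤ (((67108864 : ℕ) : ℝ) + (67108864 : ℕ)) / S) :
    TriA PP.cur (nearL (h0 * 0) 3 κ (h0 * x) (tbl tKN x) (tbl tL x)) 1 1 3 1 4 1 (-1) :=
  (sideN hx hx').nearA (Or.inl rfl) (Or.inr rfl) fun y y' F =>
    nearA_cert (s1 := true) (s2 := false) rfl hκ covN11 covN41 hx hx'
        Pool.Agent.Strip051.G.I1_16_1_8.Tab.C.NA14.c_pm_113 noCut_A noExt_A F trivial trivial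

theorem NA14_pm_123 {κ x : ℝ} (hκ : κ * h0 = ken x) (hx : ((67108864 : ℕ) : ℝ) / S ≤ x) (hx' : x ≤ (((67108864 : ℕ) : ℝ) + (67108864 : ℕ)) / S) :
    TriA PP.cur (nearL (h0 * 0) 3 κ (h0 * x) (tbl tKN x) (tbl tL x)) 1 2 3 1 4 1 (-1) :=
  (sideN hx hx').nearA (Or.inl rfl) (Or.inr rfl) fun y y' F =>
    nearA_cert (s1 := true) (s2 := false) rfl hκ covN11 covN42 hx hx'
        Pool.Agent.Strip051.G.I1_16_1_8.Tab.C.NA14.c_pm_123 noCut_A noExt_A F trivial trivial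

theorem NA14_pm_133 {κ x : ℝ} (hκ : κ * h0 = ken x) (hx : ((67108864 : ℕ) : ℝ) / S ≤ x) (hx' : x ≤ (((67108864 : ℕ) : ℝ) + (67108864 : ℕ)) / S) :
    TriA PP.cur (nearL (h0 * 0) 3 κ (h0 * x) (tbl tKN x) (tbl tL x)) 1 3 3 1 4 1 (-1) :=
  (sideN hx hx').nearA (Or.inl rfl) (Or.inr rfl) fun y y' F =>
    nearA_cert (s1 := true) (s2 := false) rfl hκ covN11 covN43 hx hx'
        Pool.Agent.Strip051.G.I1_16_1_8.Tab.C.NA14.c_pm_133 noCut_A noExt_A F trivial trivial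

theorem NA14_pm_202 {κ x : ℝ} (hκ : κ * h0 = ken x) (hx : ((67108864 : ℕ) : ℝ) / S ≤ x) (hx' : x ≤ (((67108864 : ℕ) : ℝ) + (67108864 : ℕ)) / S) :
    TriA PP.cur (nearL (h0 * 0) 3 κ (h0 * x) (tbl tKN x) (tbl tL x)) 2 0 2 1 4 1 (-1) :=
  (sideN hx hx').nearA (Or.inl rfl) (Or.inr rfl) fun y y' F =>
    (lt_or_ge (h0 * y) 1).elim
      (fun h => nearA_cert (s1 := true) (s2 := false) rfl hκ covN12a covN40 hx hx'
        Pool.Agent.Strip051.G.I1_16_1_8.Tab.C.NA14.c_pm_202_a noCut_A noExt_A F h trivial)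
      (fun h => nearA_cert (s1 := true) (s2 := false) rfl hκ covN12b covN40 hx hx'
        Pool.Agent.Strip051.G.I1_16_1_8.Tab.C.NA14.c_pm_202_b noCut_A noExt_A F h trivial)

theorem NA14_pm_203 {κ x : ℝ} (hκ : κ * h0 = ken x) (hx : ((67108864 : ℕ) : ℝ) / S ≤ x) (hx' : x ≤ (((67108864 : ℕ) : ℝ) + (67108864 : ℕ)) / S) :
    TriA PP.cur (nearL (h0 * 0) 3 κ (h0 * x) (tbl tKN x) (tbl tL x)) 2 0 3 1 4 1 (-1) :=
  (sideN hx hx').nearA (Or.inl rfl) (Or.inr rfl) fun y y' F =>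
    (lt_or_ge (h0 * y) 1).elim
      (fun h => nearA_cert (s1 := true) (s2 := false) rfl hκ covN12a covN40 hx hx'
        Pool.Agent.Strip051.G.I1_16_1_8.Tab.C.NA14.c_pm_203_a noCut_A noExt_A F h trivial)
      (fun h => nearA_cert (s1 := true) (s2 := false) rfl hκ covN12b covN40 hx hx'
        Pool.Agent.Strip051.G.I1_16_1_8.Tab.C.NA14.c_pm_203_b noCut_A noExt_A F h trivial)

theorem NA14_pm_213 {κ x : ℝ} (hκ : κ * h0 = ken x) (hx : ((67108864 : ℕ) : ℝ) / S ≤ x) (hx' : x ≤ (((67108864 : ℕ) : ℝ) + (67108864 : ℕ)) / S) :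
    TriA PP.cur (nearL (h0 * 0) 3 κ (h0 * x) (tbl tKN x) (tbl tL x)) 2 1 3 1 4 1 (-1) :=
  (sideN hx hx').nearA (Or.inl rfl) (Or.inr rfl) fun y y' F =>
    (lt_or_ge (h0 * y) 1).elim
      (fun h => nearA_cert (s1 := true) (s2 := false) rfl hκ covN12a covN41 hx hx'
        Pool.Agent.Strip051.G.I1_16_1_8.Tab.C.NA14.c_pm_213_a noCut_A noExt_A F h trivial)
      (fun h => nearA_cert (s1 := true) (s2 := false) rfl hκ covN12b covN41 hx hx'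
        Pool.Agent.Strip051.G.I1_16_1_8.Tab.C.NA14.c_pm_213_b noCut_A noExt_A F h trivial)

theorem NA14_pm_303 {κ x : ℝ} (hκ : κ * h0 = ken x) (hx : ((67108864 : ℕ) : ℝ) / S ≤ x) (hx' : x ≤ (((67108864 : ℕ) : ℝ) + (67108864 : ℕ)) / S) :
    TriA PP.cur (nearL (h0 * 0) 3 κ (h0 * x) (tbl tKN x) (tbl tL x)) 3 0 3 1 4 1 (-1) :=
  (sideN hx hx').nearA (Or.inl rfl) (Or.inr rfl) fun y y' F =>
    nearA_cert (s1 := true) (s2 := false) rfl hκ covN13 covN40 hx hx'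
        Pool.Agent.Strip051.G.I1_16_1_8.Tab.C.NA14.c_pm_303 noCut_A noExt_A F trivial trivial

theorem NA14_pm_313 {κ x : ℝ} (hκ : κ * h0 = ken x) (hx : ((67108864 : ℕ) : ℝ) / S ≤ x) (hx' : x ≤ (((67108864 : ℕ) : ℝ) + (67108864 : ℕ)) / S) :
    TriA PP.cur (nearL (h0 * 0) 3 κ (h0 * x) (tbl tKN x) (tbl tL x)) 3 1 3 1 4 1 (-1) :=
  (sideN hx hx').nearA (Or.inl rfl) (Or.inr rfl) fun y y' F =>
    nearA_cert (s1 := true) (s2 := false) rfl hκ covN13 covN41 hx hx'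
        Pool.Agent.Strip051.G.I1_16_1_8.Tab.C.NA14.c_pm_313 noCut_A noExt_A F trivial trivial

theorem NA14_mm_001 {κ x : ℝ} (hκ : κ * h0 = ken x) (hx : ((67108864 : ℕ) : ℝ) / S ≤ x) (hx' : x ≤ (((67108864 : ℕ) : ℝ) + (67108864 : ℕ)) / S) :
    TriA PP.cur (nearL (h0 * 0) 3 κ (h0 * x) (tbl tKN x) (tbl tL x)) 0 0 1 1 4 (-1) (-1) :=
  (sideN hx hx').nearA (Or.inr rfl) (Or.inr rfl) fun y y' F =>
    nearA_cert (s1 := false) (s2 := false) rfl hκ covN10 covN40 hx hx'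
        Pool.Agent.Strip051.G.I1_16_1_8.Tab.C.NA14.c_mm_001 noCut_A noExt_A F trivial trivial

theorem NA14_mm_011 {κ x : ℝ} (hκ : κ * h0 = ken x) (hx : ((67108864 : ℕ) : ℝ) / S ≤ x) (hx' : x ≤ (((67108864 : ℕ) : ℝ) + (67108864 : ℕ)) / S) :
    TriA PP.cur (nearL (h0 * 0) 3 κ (h0 * x) (tbl tKN x) (tbl tL x)) 0 1 1 1 4 (-1) (-1) :=
  (sideN hx hx').nearA (Or.inr rfl) (Or.inr rfl) fun y y' F =>
    nearA_cert (s1 := false) (s2 := false) rfl hκ covN10 covN41 hx hx'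
        Pool.Agent.Strip051.G.I1_16_1_8.Tab.C.NA14.c_mm_011 noCut_A noExt_A F trivial trivial

theorem NA14_mm_012 {κ x : ℝ} (hκ : κ * h0 = ken x) (hx : ((67108864 : ℕ) : ℝ) / S ≤ x) (hx' : x ≤ (((67108864 : ℕ) : ℝ) + (67108864 : ℕ)) / S) :
    TriA PP.cur (nearL (h0 * 0) 3 κ (h0 * x) (tbl tKN x) (tbl tL x)) 0 1 2 1 4 (-1) (-1) :=
  (sideN hx hx').nearA (Or.inr rfl) (Or.inr rfl) fun y y' F =>
    nearA_cert (s1 := false) (s2 := false) rfl hκ covN10 covN41 hx hx'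
        Pool.Agent.Strip051.G.I1_16_1_8.Tab.C.NA14.c_mm_012 noCut_A noExt_A F trivial trivial

theorem NA14_mm_022 {κ x : ℝ} (hκ : κ * h0 = ken x) (hx : ((67108864 : ℕ) : ℝ) / S ≤ x) (hx' : x ≤ (((67108864 : ℕ) : ℝ) + (67108864 : ℕ)) / S) :
    TriA PP.cur (nearL (h0 * 0) 3 κ (h0 * x) (tbl tKN x) (tbl tL x)) 0 2 2 1 4 (-1) (-1) :=
  (sideN hx hx').nearA (Or.inr rfl) (Or.inr rfl) fun y y' F =>
    nearA_cert (s1 := false) (s2 := false) rfl hκ covN10 covN42 hx hx'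
        Pool.Agent.Strip051.G.I1_16_1_8.Tab.C.NA14.c_mm_022 noCut_A noExt_A F trivial trivial

theorem NA14_mm_023 {κ x : ℝ} (hκ : κ * h0 = ken x) (hx : ((67108864 : ℕ) : ℝ) / S ≤ x) (hx' : x ≤ (((67108864 : ℕ) : ℝ) + (67108864 : ℕ)) / S) :
    TriA PP.cur (nearL (h0 * 0) 3 κ (h0 * x) (tbl tKN x) (tbl tL x)) 0 2 3 1 4 (-1) (-1) :=
  (sideN hx hx').nearA (Or.inr rfl) (Or.inr rfl) fun y y' F =>
    nearA_cert (s1 := false) (s2 := false) rfl hκ covN10 covN42 hx hx'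
        Pool.Agent.Strip051.G.I1_16_1_8.Tab.C.NA14.c_mm_023 noCut_A noExt_A F trivial trivial

theorem NA14_mm_033 {κ x : ℝ} (hκ : κ * h0 = ken x) (hx : ((67108864 : ℕ) : ℝ) / S ≤ x) (hx' : x ≤ (((67108864 : ℕ) : ℝ) + (67108864 : ℕ)) / S) :
    TriA PP.cur (nearL (h0 * 0) 3 κ (h0 * x) (tbl tKN x) (tbl tL x)) 0 3 3 1 4 (-1) (-1) :=
  (sideN hx hx').nearA (Or.inr rfl) (Or.inr rfl) fun y y' F =>
    nearA_cert (s1 := false) (s2 := false) rfl hκ covN10 covN43 hx hx'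
        Pool.Agent.Strip051.G.I1_16_1_8.Tab.C.NA14.c_mm_033 noCut_A noExt_A F trivial trivial

theorem NA14_mm_101 {κ x : ℝ} (hκ : κ * h0 = ken x) (hx : ((67108864 : ℕ) : ℝ) / S ≤ x) (hx' : x ≤ (((67108864 : ℕ) : ℝ) + (67108864 : ℕ)) / S) :
    TriA PP.cur (nearL (h0 * 0) 3 κ (h0 * x) (tbl tKN x) (tbl tL x)) 1 0 1 1 4 (-1) (-1) :=
  (sideN hx hx').nearA (Or.inr rfl) (Or.inr rfl) fun y y' F =>
    nearA_cert (s1 := false) (s2 := false) rfl hκ covN11 covN40 hx hx'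
        Pool.Agent.Strip051.G.I1_16_1_8.Tab.C.NA14.c_mm_101 noCut_A noExt_A F trivial trivial

theorem NA14_mm_102 {κ x : ℝ} (hκ : κ * h0 = ken x) (hx : ((67108864 : ℕ) : ℝ) / S ≤ x) (hx' : x ≤ (((67108864 : ℕ) : ℝ) + (67108864 : ℕ)) / S) :
    TriA PP.cur (nearL (h0 * 0) 3 κ (h0 * x) (tbl tKN x) (tbl tL x)) 1 0 2 1 4 (-1) (-1) :=
  (sideN hx hx').nearA (Or.inr rfl) (Or.inr rfl) fun y y' F =>
    nearA_cert (s1 := false) (s2 := false) rfl hκ covN11 covN40 hx hx'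
        Pool.Agent.Strip051.G.I1_16_1_8.Tab.C.NA14.c_mm_102 noCut_A noExt_A F trivial trivial

theorem NA14_mm_112 {κ x : ℝ} (hκ : κ * h0 = ken x) (hx : ((67108864 : ℕ) : ℝ) / S ≤ x) (hx' : x ≤ (((67108864 : ℕ) : ℝ) + (67108864 : ℕ)) / S) :
    TriA PP.cur (nearL (h0 * 0) 3 κ (h0 * x) (tbl tKN x) (tbl tL x)) 1 1 2 1 4 (-1) (-1) :=
  (sideN hx hx').nearA (Or.inr rfl) (Or.inr rfl) fun y y' F =>
    nearA_cert (s1 := false) (s2 := false) rfl hκ covN11 covN41 hx hx'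
        Pool.Agent.Strip051.G.I1_16_1_8.Tab.C.NA14.c_mm_112 noCut_A noExt_A F trivial trivial

theorem NA14_mm_113 {κ x : ℝ} (hκ : κ * h0 = ken x) (hx : ((67108864 : ℕ) : ℝ) / S ≤ x) (hx' : x ≤ (((67108864 : ℕ) : ℝ) + (67108864 : ℕ)) / S) :
    TriA PP.cur (nearL (h0 * 0) 3 κ (h0 * x) (tbl tKN x) (tbl tL x)) 1 1 3 1 4 (-1) (-1) :=
  (sideN hx hx').nearA (Or.inr rfl) (Or.inr rfl) fun y y' F =>
    nearA_cert (s1 := false) (s2 := false) rfl hκ covN11 covN41 hx hx'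
        Pool.Agent.Strip051.G.I1_16_1_8.Tab.C.NA14.c_mm_113 noCut_A noExt_A F trivial trivial

theorem NA14_mm_123 {κ x : ℝ} (hκ : κ * h0 = ken x) (hx : ((67108864 : ℕ) : ℝ) / S ≤ x) (hx' : x ≤ (((67108864 : ℕ) : ℝ) + (67108864 : ℕ)) / S) :
    TriA PP.cur (nearL (h0 * 0) 3 κ (h0 * x) (tbl tKN x) (tbl tL x)) 1 2 3 1 4 (-1) (-1) :=
  (sideN hx hx').nearA (Or.inr rfl) (Or.inr rfl) fun y y' F =>
    nearA_cert (s1 := false) (s2 := false) rfl hκ covN11 covN42 hx hx'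
        Pool.Agent.Strip051.G.I1_16_1_8.Tab.C.NA14.c_mm_123 noCut_A noExt_A F trivial trivial

theorem NA14_mm_133 {κ x : ℝ} (hκ : κ * h0 = ken x) (hx : ((67108864 : ℕ) : ℝ) / S ≤ x) (hx' : x ≤ (((67108864 : ℕ) : ℝ) + (67108864 : ℕ)) / S) :
    TriA PP.cur (nearL (h0 * 0) 3 κ (h0 * x) (tbl tKN x) (tbl tL x)) 1 3 3 1 4 (-1) (-1) :=
  (sideN hx hx').nearA (Or.inr rfl) (Or.inr rfl) fun y y' F =>
    nearA_cert (s1 := false) (s2 := false) rfl hκ covN11 covN43 hx hx'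
        Pool.Agent.Strip051.G.I1_16_1_8.Tab.C.NA14.c_mm_133 noCut_A noExt_A F trivial trivial

theorem NA14_mm_202 {κ x : ℝ} (hκ : κ * h0 = ken x) (hx : ((67108864 : ℕ) : ℝ) / S ≤ x) (hx' : x ≤ (((67108864 : ℕ) : ℝ) + (67108864 : ℕ)) / S) :
    TriA PP.cur (nearL (h0 * 0) 3 κ (h0 * x) (tbl tKN x) (tbl tL x)) 2 0 2 1 4 (-1) (-1) :=
  (sideN hx hx').nearA (Or.inr rfl) (Or.inr rfl) fun y y' F =>
    (lt_or_ge (h0 * y) 1).elim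
      (fun h => nearA_cert (s1 := false) (s2 := false) rfl hκ covN12a covN40 hx hx'
        Pool.Agent.Strip051.G.I1_16_1_8.Tab.C.NA14.c_mm_202_a noCut_A noExt_A F h trivial)
      (fun h => nearA_cert (s1 := false) (s2 := false) rfl hκ covN12b covN40 hx hx'
        Pool.Agent.Strip051.G.I1_16_1_8.Tab.C.NA14.c_mm_202_b noCut_A noExt_A F h trivial)

theorem NA14_mm_203 {κ x : ℝ} (hκ : κ * h0 = ken x) (hx : ((67108864 : ℕ) : ℝ) / S ≤ x) (hx' : x ≤ (((67108864 : ℕ) : ℝ) + (67108864 : ℕ)) / S) :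
    TriA PP.cur (nearL (h0 * 0) 3 κ (h0 * x) (tbl tKN x) (tbl tL x)) 2 0 3 1 4 (-1) (-1) :=
  (sideN hx hx').nearA (Or.inr rfl) (Or.inr rfl) fun y y' F =>
    (lt_or_ge (h0 * y) 1).elim
      (fun h => nearA_cert (s1 := false) (s2 := false) rfl hκ covN12a covN40 hx hx'
        Pool.Agent.Strip051.G.I1_16_1_8.Tab.C.NA14.c_mm_203_a noCut_A noExt_A F h trivial)
      (fun h => nearA_cert (s1 := false) (s2 := false) rfl hκ covN12b covN40 hx hx'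
        Pool.Agent.Strip051.G.I1_16_1_8.Tab.C.NA14.c_mm_203_b noCut_A noExt_A F h trivial)

theorem NA14_mm_213 {κ x : ℝ} (hκ : κ * h0 = ken x) (hx : ((67108864 : ℕ) : ℝ) / S ≤ x) (hx' : x ≤ (((67108864 : ℕ) : ℝ) + (67108864 : ℕ)) / S) :
    TriA PP.cur (nearL (h0 * 0) 3 κ (h0 * x) (tbl tKN x) (tbl tL x)) 2 1 3 1 4 (-1) (-1) :=
  (sideN hx hx').nearA (Or.inr rfl) (Or.inr rfl) fun y y' F =>
    (lt_or_ge (h0 * y) 1).elim
      (fun h => nearA_cert (s1 := false) (s2 := false) rfl hκ covN12a covN41 hx hx'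
        Pool.Agent.Strip051.G.I1_16_1_8.Tab.C.NA14.c_mm_213_a noCut_A noExt_A F h trivial)
      (fun h => nearA_cert (s1 := false) (s2 := false) rfl hκ covN12b covN41 hx hx'
        Pool.Agent.Strip051.G.I1_16_1_8.Tab.C.NA14.c_mm_213_b noCut_A noExt_A F h trivial)

theorem NA14_mm_303 {κ x : ℝ} (hκ : κ * h0 = ken x) (hx : ((67108864 : ℕ) : ℝ) / S ≤ x) (hx' : x ≤ (((67108864 : ℕ) : ℝ) + (67108864 : ℕ)) / S) :
    TriA PP.cur (nearL (h0 * 0) 3 κ (h0 * x) (tbl tKN x) (tbl tL x)) 3 0 3 1 4 (-1) (-1) :=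
  (sideN hx hx').nearA (Or.inr rfl) (Or.inr rfl) fun y y' F =>
    nearA_cert (s1 := false) (s2 := false) rfl hκ covN13 covN40 hx hx'
        Pool.Agent.Strip051.G.I1_16_1_8.Tab.C.NA14.c_mm_303 noCut_A noExt_A F trivial trivial

theorem NA14_mm_313 {κ x : ℝ} (hκ : κ * h0 = ken x) (hx : ((67108864 : ℕ) : ℝ) / S ≤ x) (hx' : x ≤ (((67108864 : ℕ) : ℝ) + (67108864 : ℕ)) / S) :
    TriA PP.cur (nearL (h0 * 0) 3 κ (h0 * x) (tbl tKN x) (tbl tL x)) 3 1 3 1 4 (-1) (-1) :=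
  (sideN hx hx').nearA (Or.inr rfl) (Or.inr rfl) fun y y' F =>
    nearA_cert (s1 := false) (s2 := false) rfl hκ covN13 covN41 hx hx'
        Pool.Agent.Strip051.G.I1_16_1_8.Tab.C.NA14.c_mm_313 noCut_A noExt_A F trivial trivial

theorem NA14 {κ x : ℝ} (hκ : κ * h0 = ken x) (hx : ((67108864 : ℕ) : ℝ) / S ≤ x) (hx' : x ≤ (((67108864 : ℕ) : ℝ) + (67108864 : ℕ)) / S) : AllTA PP.cur (nearL (h0 * 0) 3 κ (h0 * x) (tbl tKN x) (tbl tL x)) 1 4 where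
  pp := all17 (Q := fun a b c => TriA PP.cur (nearL (h0 * 0) 3 κ (h0 * x) (tbl tKN x) (tbl tL x)) a b c 1 4 1 1)
    (NA14_pp_001 hκ hx hx') (NA14_pp_011 hκ hx hx') (NA14_pp_012 hκ hx hx') (NA14_pp_022 hκ hx hx') (NA14_pp_023 hκ hx hx') (NA14_pp_033 hκ hx hx') (NA14_pp_101 hκ hx hx') (NA14_pp_102 hκ hx hx') (NA14_pp_112 hκ hx hx') (NA14_pp_113 hκ hx hx') (NA14_pp_123 hκ hx hx') (NA14_pp_133 hκ hx hx') (NA14_pp_202 hκ hx hx') (NA14_pp_203 hκ hx hx') (NA14_pp_213 hκ hx hx') (NA14_pp_303 hκ hx hx') (NA14_pp_313 hκ hx hx')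
  pm := all17 (Q := fun a b c => TriA PP.cur (nearL (h0 * 0) 3 κ (h0 * x) (tbl tKN x) (tbl tL x)) a b c 1 4 1 (-1))
    (NA14_pm_001 hκ hx hx') (NA14_pm_011 hκ hx hx') (NA14_pm_012 hκ hx hx') (NA14_pm_022 hκ hx hx') (NA14_pm_023 hκ hx hx') (NA14_pm_033 hκ hx hx') (NA14_pm_101 hκ hx hx') (NA14_pm_102 hκ hx hx') (NA14_pm_112 hκ hx hx') (NA14_pm_113 hκ hx hx') (NA14_pm_123 hκ hx hx') (NA14_pm_133 hκ hx hx') (NA14_pm_202 hκ hx hx') (NA14_pm_203 hκ hx hx') (NA14_pm_213 hκ hx hx') (NA14_pm_303 hκ hx hx') (NA14_pm_313 hκ hx hx')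
  mm := all17 (Q := fun a b c => TriA PP.cur (nearL (h0 * 0) 3 κ (h0 * x) (tbl tKN x) (tbl tL x)) a b c 1 4 (-1) (-1))
    (NA14_mm_001 hκ hx hx') (NA14_mm_011 hκ hx hx') (NA14_mm_012 hκ hx hx') (NA14_mm_022 hκ hx hx') (NA14_mm_023 hκ hx hx') (NA14_mm_033 hκ hx hx') (NA14_mm_101 hκ hx hx') (NA14_mm_102 hκ hx hx') (NA14_mm_112 hκ hx hx') (NA14_mm_113 hκ hx hx') (NA14_mm_123 hκ hx hx') (NA14_mm_133 hκ hx hx') (NA14_mm_202 hκ hx hx') (NA14_mm_203 hκ hx hx') (NA14_mm_213 hκ hx hx') (NA14_mm_303 hκ hx hx') (NA14_mm_313 hκ hx hx')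

theorem NA22_pp_001 {κ x : ℝ} (hκ : κ * h0 = ken x) (hx : ((67108864 : ℕ) : ℝ) / S ≤ x) (hx' : x ≤ (((67108864 : ℕ) : ℝ) + (67108864 : ℕ)) / S) :
    TriA PP.cur (nearL (h0 * 0) 3 κ (h0 * x) (tbl tKN x) (tbl tL x)) 0 0 1 2 2 1 1 :=
  (sideN hx hx').nearA (Or.inl rfl) (Or.inl rfl) fun y y' F =>
    nearA_cert (s1 := true) (s2 := true) rfl hκ covN20 covN20 hx hx'
        Pool.Agent.Strip051.G.I1_16_1_8.Tab.C.NA22.c_pp_001 noCut_A noExt_A F trivial trivial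

theorem NA22_pp_011 {κ x : ℝ} (hκ : κ * h0 = ken x) (hx : ((67108864 : ℕ) : ℝ) / S ≤ x) (hx' : x ≤ (((67108864 : ℕ) : ℝ) + (67108864 : ℕ)) / S) :
    TriA PP.cur (nearL (h0 * 0) 3 κ (h0 * x) (tbl tKN x) (tbl tL x)) 0 1 1 2 2 1 1 :=
  (sideN hx hx').nearA (Or.inl rfl) (Or.inl rfl) fun y y' F =>
    nearA_cert (s1 := true) (s2 := true) rfl hκ covN20 covN21 hx hx'
        Pool.Agent.Strip051.G.I1_16_1_8.Tab.C.NA22.c_pp_011 noCut_A noExt_A F trivial trivial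

theorem NA22_pp_012 {κ x : ℝ} (hκ : κ * h0 = ken x) (hx : ((67108864 : ℕ) : ℝ) / S ≤ x) (hx' : x ≤ (((67108864 : ℕ) : ℝ) + (67108864 : ℕ)) / S) :
    TriA PP.cur (nearL (h0 * 0) 3 κ (h0 * x) (tbl tKN x) (tbl tL x)) 0 1 2 2 2 1 1 :=
  (sideN hx hx').nearA (Or.inl rfl) (Or.inl rfl) fun y y' F =>
    nearA_cert (s1 := true) (s2 := true) rfl hκ covN20 covN21 hx hx'
        Pool.Agent.Strip051.G.I1_16_1_8.Tab.C.NA22.c_pp_012 noCut_A noExt_A F trivial trivial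

theorem NA22_pp_022 {κ x : ℝ} (hκ : κ * h0 = ken x) (hx : ((67108864 : ℕ) : ℝ) / S ≤ x) (hx' : x ≤ (((67108864 : ℕ) : ℝ) + (67108864 : ℕ)) / S) :
    TriA PP.cur (nearL (h0 * 0) 3 κ (h0 * x) (tbl tKN x) (tbl tL x)) 0 2 2 2 2 1 1 :=
  (sideN hx hx').nearA (Or.inl rfl) (Or.inl rfl) fun y y' F =>
    (lt_or_ge (h0 * y') 1).elim
      (fun g => nearA_cert (s1 := true) (s2 := true) rfl hκ covN20 covN22a hx hx'
        Pool.Agent.Strip051.G.I1_16_1_8.Tab.C.NA22.c_pp_022_a (cutA_cons (Pool.Agent.Strip051.G.I1_16_1_8.Tab.altN_A022L_22 hκ hx hx') cutA_nil) noExt_A F trivial g)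
      (fun g => nearA_cert (s1 := true) (s2 := true) rfl hκ covN20 covN22b hx hx'
        Pool.Agent.Strip051.G.I1_16_1_8.Tab.C.NA22.c_pp_022_b (cutA_cons (Pool.Agent.Strip051.G.I1_16_1_8.Tab.altN_A022L_22 hκ hx hx') cutA_nil) noExt_A F trivial g)

theorem NA22_pp_023 {κ x : ℝ} (hκ : κ * h0 = ken x) (hx : ((67108864 : ℕ) : ℝ) / S ≤ x) (hx' : x ≤ (((67108864 : ℕ) : ℝ) + (67108864 : ℕ)) / S) :
    TriA PP.cur (nearL (h0 * 0) 3 κ (h0 * x) (tbl tKN x) (tbl tL x)) 0 2 3 2 2 1 1 :=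
  (sideN hx hx').nearA (Or.inl rfl) (Or.inl rfl) fun y y' F =>
    (lt_or_ge (h0 * y') 1).elim
      (fun g => nearA_cert (s1 := true) (s2 := true) rfl hκ covN20 covN22a hx hx'
        Pool.Agent.Strip051.G.I1_16_1_8.Tab.C.NA22.c_pp_023_a noCut_A noExt_A F trivial g)
      (fun g => nearA_cert (s1 := true) (s2 := true) rfl hκ covN20 covN22b hx hx'
        Pool.Agent.Strip051.G.I1_16_1_8.Tab.C.NA22.c_pp_023_b noCut_A noExt_A F trivial g)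

theorem NA22_pp_033 {κ x : ℝ} (hκ : κ * h0 = ken x) (hx : ((67108864 : ℕ) : ℝ) / S ≤ x) (hx' : x ≤ (((67108864 : ℕ) : ℝ) + (67108864 : ℕ)) / S) :
    TriA PP.cur (nearL (h0 * 0) 3 κ (h0 * x) (tbl tKN x) (tbl tL x)) 0 3 3 2 2 1 1 :=
  (sideN hx hx').nearA (Or.inl rfl) (Or.inl rfl) fun y y' F =>
    nearA_cert (s1 := true) (s2 := true) rfl hκ covN20 covN23 hx hx'
        Pool.Agent.Strip051.G.I1_16_1_8.Tab.C.NA22.c_pp_033 noCut_A noExt_A F trivial trivial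

theorem NA22_pp_101 {κ x : ℝ} (hκ : κ * h0 = ken x) (hx : ((67108864 : ℕ) : ℝ) / S ≤ x) (hx' : x ≤ (((67108864 : ℕ) : ℝ) + (67108864 : ℕ)) / S) :
    TriA PP.cur (nearL (h0 * 0) 3 κ (h0 * x) (tbl tKN x) (tbl tL x)) 1 0 1 2 2 1 1 :=
  (sideN hx hx').nearA (Or.inl rfl) (Or.inl rfl) fun y y' F =>
    nearA_cert (s1 := true) (s2 := true) rfl hκ covN21 covN20 hx hx'
        Pool.Agent.Strip051.G.I1_16_1_8.Tab.C.NA22.c_pp_101 noCut_A noExt_A F trivial trivial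

theorem NA22_pp_102 {κ x : ℝ} (hκ : κ * h0 = ken x) (hx : ((67108864 : ℕ) : ℝ) / S ≤ x) (hx' : x ≤ (((67108864 : ℕ) : ℝ) + (67108864 : ℕ)) / S) :
    TriA PP.cur (nearL (h0 * 0) 3 κ (h0 * x) (tbl tKN x) (tbl tL x)) 1 0 2 2 2 1 1 :=
  (sideN hx hx').nearA (Or.inl rfl) (Or.inl rfl) fun y y' F =>
    nearA_cert (s1 := true) (s2 := true) rfl hκ covN21 covN20 hx hx'
        Pool.Agent.Strip051.G.I1_16_1_8.Tab.C.NA22.c_pp_102 noCut_A noExt_A F trivial trivial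

theorem NA22_pp_112 {κ x : ℝ} (hκ : κ * h0 = ken x) (hx : ((67108864 : ℕ) : ℝ) / S ≤ x) (hx' : x ≤ (((67108864 : ℕ) : ℝ) + (67108864 : ℕ)) / S) :
    TriA PP.cur (nearL (h0 * 0) 3 κ (h0 * x) (tbl tKN x) (tbl tL x)) 1 1 2 2 2 1 1 :=
  (sideN hx hx').nearA (Or.inl rfl) (Or.inl rfl) fun y y' F =>
    nearA_cert (s1 := true) (s2 := true) rfl hκ covN21 covN21 hx hx'
        Pool.Agent.Strip051.G.I1_16_1_8.Tab.C.NA22.c_pp_112 noCut_A noExt_A F trivial trivial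

theorem NA22_pp_113 {κ x : ℝ} (hκ : κ * h0 = ken x) (hx : ((67108864 : ℕ) : ℝ) / S ≤ x) (hx' : x ≤ (((67108864 : ℕ) : ℝ) + (67108864 : ℕ)) / S) :
    TriA PP.cur (nearL (h0 * 0) 3 κ (h0 * x) (tbl tKN x) (tbl tL x)) 1 1 3 2 2 1 1 :=
  (sideN hx hx').nearA (Or.inl rfl) (Or.inl rfl) fun y y' F =>
    nearA_cert (s1 := true) (s2 := true) rfl hκ covN21 covN21 hx hx'
        Pool.Agent.Strip051.G.I1_16_1_8.Tab.C.NA22.c_pp_113 noCut_A noExt_A F trivial trivial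

theorem NA22_pp_123 {κ x : ℝ} (hκ : κ * h0 = ken x) (hx : ((67108864 : ℕ) : ℝ) / S ≤ x) (hx' : x ≤ (((67108864 : ℕ) : ℝ) + (67108864 : ℕ)) / S) :
    TriA PP.cur (nearL (h0 * 0) 3 κ (h0 * x) (tbl tKN x) (tbl tL x)) 1 2 3 2 2 1 1 :=
  (sideN hx hx').nearA (Or.inl rfl) (Or.inl rfl) fun y y' F =>
    (lt_or_ge (h0 * y') 1).elim
      (fun g => nearA_cert (s1 := true) (s2 := true) rfl hκ covN21 covN22a hx hx'
        Pool.Agent.Strip051.G.I1_16_1_8.Tab.C.NA22.c_pp_123_a noCut_A noExt_A F trivial g)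
      (fun g => nearA_cert (s1 := true) (s2 := true) rfl hκ covN21 covN22b hx hx'
        Pool.Agent.Strip051.G.I1_16_1_8.Tab.C.NA22.c_pp_123_b noCut_A noExt_A F trivial g)

theorem NA22_pp_133 {κ x : ℝ} (hκ : κ * h0 = ken x) (hx : ((67108864 : ℕ) : ℝ) / S ≤ x) (hx' : x ≤ (((67108864 : ℕ) : ℝ) + (67108864 : ℕ)) / S) :
    TriA PP.cur (nearL (h0 * 0) 3 κ (h0 * x) (tbl tKN x) (tbl tL x)) 1 3 3 2 2 1 1 :=
  (sideN hx hx').nearA (Or.inl rfl) (Or.inl rfl) fun y y' F =>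
    nearA_cert (s1 := true) (s2 := true) rfl hκ covN21 covN23 hx hx'
        Pool.Agent.Strip051.G.I1_16_1_8.Tab.C.NA22.c_pp_133 noCut_A noExt_A F trivial trivial

theorem NA22_pp_202 {κ x : ℝ} (hκ : κ * h0 = ken x) (hx : ((67108864 : ℕ) : ℝ) / S ≤ x) (hx' : x ≤ (((67108864 : ℕ) : ℝ) + (67108864 : ℕ)) / S) :
    TriA PP.cur (nearL (h0 * 0) 3 κ (h0 * x) (tbl tKN x) (tbl tL x)) 2 0 2 2 2 1 1 :=
  (sideN hx hx').nearA (Or.inl rfl) (Or.inl rfl) fun y y' F =>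
    (lt_or_ge (h0 * y) 1).elim
      (fun h => nearA_cert (s1 := true) (s2 := true) rfl hκ covN22a covN20 hx hx'
        Pool.Agent.Strip051.G.I1_16_1_8.Tab.C.NA22.c_pp_202_a noCut_A noExt_A F h trivial)
      (fun h => nearA_cert (s1 := true) (s2 := true) rfl hκ covN22b covN20 hx hx'
        Pool.Agent.Strip051.G.I1_16_1_8.Tab.C.NA22.c_pp_202_b noCut_A noExt_A F h trivial)

theorem NA22_pp_203 {κ x : ℝ} (hκ : κ * h0 = ken x) (hx : ((67108864 : ℕ) : ℝ) / S ≤ x) (hx' : x ≤ (((67108864 : ℕ) : ℝ) + (67108864 : ℕ)) / S) :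
    TriA PP.cur (nearL (h0 * 0) 3 κ (h0 * x) (tbl tKN x) (tbl tL x)) 2 0 3 2 2 1 1 :=
  (sideN hx hx').nearA (Or.inl rfl) (Or.inl rfl) fun y y' F =>
    (lt_or_ge (h0 * y) 1).elim
      (fun h => nearA_cert (s1 := true) (s2 := true) rfl hκ covN22a covN20 hx hx'
        Pool.Agent.Strip051.G.I1_16_1_8.Tab.C.NA22.c_pp_203_a noCut_A noExt_A F h trivial)
      (fun h => nearA_cert (s1 := true) (s2 := true) rfl hκ covN22b covN20 hx hx'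
        Pool.Agent.Strip051.G.I1_16_1_8.Tab.C.NA22.c_pp_203_b noCut_A noExt_A F h trivial)

theorem NA22_pp_213 {κ x : ℝ} (hκ : κ * h0 = ken x) (hx : ((67108864 : ℕ) : ℝ) / S ≤ x) (hx' : x ≤ (((67108864 : ℕ) : ℝ) + (67108864 : ℕ)) / S) :
    TriA PP.cur (nearL (h0 * 0) 3 κ (h0 * x) (tbl tKN x) (tbl tL x)) 2 1 3 2 2 1 1 :=
  (sideN hx hx').nearA (Or.inl rfl) (Or.inl rfl) fun y y' F =>
    (lt_or_ge (h0 * y) 1).elim
      (fun h => nearA_cert (s1 := true) (s2 := true) rfl hκ covN22a covN21 hx hx'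
        Pool.Agent.Strip051.G.I1_16_1_8.Tab.C.NA22.c_pp_213_a noCut_A noExt_A F h trivial)
      (fun h => nearA_cert (s1 := true) (s2 := true) rfl hκ covN22b covN21 hx hx'
        Pool.Agent.Strip051.G.I1_16_1_8.Tab.C.NA22.c_pp_213_b noCut_A noExt_A F h trivial)

theorem NA22_pp_303 {κ x : ℝ} (hκ : κ * h0 = ken x) (hx : ((67108864 : ℕ) : ℝ) / S ≤ x) (hx' : x ≤ (((67108864 : ℕ) : ℝ) + (67108864 : ℕ)) / S) :
    TriA PP.cur (nearL (h0 * 0) 3 κ (h0 * x) (tbl tKN x) (tbl tL x)) 3 0 3 2 2 1 1 :=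
  (sideN hx hx').nearA (Or.inl rfl) (Or.inl rfl) fun y y' F =>
    nearA_cert (s1 := true) (s2 := true) rfl hκ covN23 covN20 hx hx'
        Pool.Agent.Strip051.G.I1_16_1_8.Tab.C.NA22.c_pp_303 noCut_A noExt_A F trivial trivial

theorem NA22_pp_313 {κ x : ℝ} (hκ : κ * h0 = ken x) (hx : ((67108864 : ℕ) : ℝ) / S ≤ x) (hx' : x ≤ (((67108864 : ℕ) : ℝ) + (67108864 : ℕ)) / S) :
    TriA PP.cur (nearL (h0 * 0) 3 κ (h0 * x) (tbl tKN x) (tbl tL x)) 3 1 3 2 2 1 1 :=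
  (sideN hx hx').nearA (Or.inl rfl) (Or.inl rfl) fun y y' F =>
    nearA_cert (s1 := true) (s2 := true) rfl hκ covN23 covN21 hx hx'
        Pool.Agent.Strip051.G.I1_16_1_8.Tab.C.NA22.c_pp_313 noCut_A noExt_A F trivial trivial

theorem NA22_pm_001 {κ x : ℝ} (hκ : κ * h0 = ken x) (hx : ((67108864 : ℕ) : ℝ) / S ≤ x) (hx' : x ≤ (((67108864 : ℕ) : ℝ) + (67108864 : ℕ)) / S) :
    TriA PP.cur (nearL (h0 * 0) 3 κ (h0 * x) (tbl tKN x) (tbl tL x)) 0 0 1 2 2 1 (-1) :=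
  (sideN hx hx').nearA (Or.inl rfl) (Or.inr rfl) fun y y' F =>
    nearA_cert (s1 := true) (s2 := false) rfl hκ covN20 covN20 hx hx'
        Pool.Agent.Strip051.G.I1_16_1_8.Tab.C.NA22.c_pm_001 noCut_A noExt_A F trivial trivial

theorem NA22_pm_011 {κ x : ℝ} (hκ : κ * h0 = ken x) (hx : ((67108864 : ℕ) : ℝ) / S ≤ x) (hx' : x ≤ (((67108864 : ℕ) : ℝ) + (67108864 : ℕ)) / S) :
    TriA PP.cur (nearL (h0 * 0) 3 κ (h0 * x) (tbl tKN x) (tbl tL x)) 0 1 1 2 2 1 (-1) :=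
  (sideN hx hx').nearA (Or.inl rfl) (Or.inr rfl) fun y y' F =>
    nearA_cert (s1 := true) (s2 := false) rfl hκ covN20 covN21 hx hx'
        Pool.Agent.Strip051.G.I1_16_1_8.Tab.C.NA22.c_pm_011 (cutA_cons (Pool.Agent.Strip051.G.I1_16_1_8.Tab.altN_A011R_22 hκ hx hx') cutA_nil) noExt_A F trivial trivial

theorem NA22_pm_012 {κ x : ℝ} (hκ : κ * h0 = ken x) (hx : ((67108864 : ℕ) : ℝ) / S ≤ x) (hx' : x ≤ (((67108864 : ℕ) : ℝ) + (67108864 : ℕ)) / S) :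
    TriA PP.cur (nearL (h0 * 0) 3 κ (h0 * x) (tbl tKN x) (tbl tL x)) 0 1 2 2 2 1 (-1) :=
  (sideN hx hx').nearA (Or.inl rfl) (Or.inr rfl) fun y y' F =>
    nearA_cert (s1 := true) (s2 := false) rfl hκ covN20 covN21 hx hx'
        Pool.Agent.Strip051.G.I1_16_1_8.Tab.C.NA22.c_pm_012 (cutA_cons (Pool.Agent.Strip051.G.I1_16_1_8.Tab.altN_A012R_22 hκ hx hx') cutA_nil) noExt_A F trivial trivial

theorem NA22_pm_022 {κ x : ℝ} (hκ : κ * h0 = ken x) (hx : ((67108864 : ℕ) : ℝ) / S ≤ x) (hx' : x ≤ (((67108864 : ℕ) : ℝ) + (67108864 : ℕ)) / S) :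
    TriA PP.cur (nearL (h0 * 0) 3 κ (h0 * x) (tbl tKN x) (tbl tL x)) 0 2 2 2 2 1 (-1) :=
  (sideN hx hx').nearA (Or.inl rfl) (Or.inr rfl) fun y y' F =>
    (lt_or_ge (h0 * y') 1).elim
      (fun g => nearA_cert (s1 := true) (s2 := false) rfl hκ covN20 covN22a hx hx'
        Pool.Agent.Strip051.G.I1_16_1_8.Tab.C.NA22.c_pm_022_a (cutA_cons (Pool.Agent.Strip051.G.I1_16_1_8.Tab.altN_A022E_22 hκ hx hx') cutA_nil) noExt_A F trivial g)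
      (fun g => nearA_cert (s1 := true) (s2 := false) rfl hκ covN20 covN22b hx hx'
        Pool.Agent.Strip051.G.I1_16_1_8.Tab.C.NA22.c_pm_022_b (cutA_cons (Pool.Agent.Strip051.G.I1_16_1_8.Tab.altN_A022E_22 hκ hx hx') cutA_nil) noExt_A F trivial g)

theorem NA22_pm_023 {κ x : ℝ} (hκ : κ * h0 = ken x) (hx : ((67108864 : ℕ) : ℝ) / S ≤ x) (hx' : x ≤ (((67108864 : ℕ) : ℝ) + (67108864 : ℕ)) / S) :
    TriA PP.cur (nearL (h0 * 0) 3 κ (h0 * x) (tbl tKN x) (tbl tL x)) 0 2 3 2 2 1 (-1) :=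
  (sideN hx hx').nearA (Or.inl rfl) (Or.inr rfl) fun y y' F =>
    (lt_or_ge (h0 * y') 1).elim
      (fun g => nearA_cert (s1 := true) (s2 := false) rfl hκ covN20 covN22a hx hx'
        Pool.Agent.Strip051.G.I1_16_1_8.Tab.C.NA22.c_pm_023_a noCut_A noExt_A F trivial g)
      (fun g => nearA_cert (s1 := true) (s2 := false) rfl hκ covN20 covN22b hx hx'
        Pool.Agent.Strip051.G.I1_16_1_8.Tab.C.NA22.c_pm_023_b noCut_A noExt_A F trivial g)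

theorem NA22_pm_033 {κ x : ℝ} (hκ : κ * h0 = ken x) (hx : ((67108864 : ℕ) : ℝ) / S ≤ x) (hx' : x ≤ (((67108864 : ℕ) : ℝ) + (67108864 : ℕ)) / S) :
    TriA PP.cur (nearL (h0 * 0) 3 κ (h0 * x) (tbl tKN x) (tbl tL x)) 0 3 3 2 2 1 (-1) :=
  (sideN hx hx').nearA (Or.inl rfl) (Or.inr rfl) fun y y' F =>
    nearA_cert (s1 := true) (s2 := false) rfl hκ covN20 covN23 hx hx'
        Pool.Agent.Strip051.G.I1_16_1_8.Tab.C.NA22.c_pm_033 noCut_A noExt_A F trivial trivial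

theorem NA22_pm_101 {κ x : ℝ} (hκ : κ * h0 = ken x) (hx : ((67108864 : ℕ) : ℝ) / S ≤ x) (hx' : x ≤ (((67108864 : ℕ) : ℝ) + (67108864 : ℕ)) / S) :
    TriA PP.cur (nearL (h0 * 0) 3 κ (h0 * x) (tbl tKN x) (tbl tL x)) 1 0 1 2 2 1 (-1) :=
  (sideN hx hx').nearA (Or.inl rfl) (Or.inr rfl) fun y y' F =>
    nearA_cert (s1 := true) (s2 := false) rfl hκ covN21 covN20 hx hx'
        Pool.Agent.Strip051.G.I1_16_1_8.Tab.C.NA22.c_pm_101 (cutA_cons (Pool.Agent.Strip051.G.I1_16_1_8.Tab.altN_A101L_22 hκ hx hx') cutA_nil) noExt_A F trivial trivial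

theorem NA22_pm_102 {κ x : ℝ} (hκ : κ * h0 = ken x) (hx : ((67108864 : ℕ) : ℝ) / S ≤ x) (hx' : x ≤ (((67108864 : ℕ) : ℝ) + (67108864 : ℕ)) / S) :
    TriA PP.cur (nearL (h0 * 0) 3 κ (h0 * x) (tbl tKN x) (tbl tL x)) 1 0 2 2 2 1 (-1) :=
  (sideN hx hx').nearA (Or.inl rfl) (Or.inr rfl) fun y y' F =>
    nearA_cert (s1 := true) (s2 := false) rfl hκ covN21 covN20 hx hx'
        Pool.Agent.Strip051.G.I1_16_1_8.Tab.C.NA22.c_pm_102 (cutA_cons (Pool.Agent.Strip051.G.I1_16_1_8.Tab.altN_A102L_22 hκ hx hx') cutA_nil) noExt_A F trivial trivial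

theorem NA22_pm_112 {κ x : ℝ} (hκ : κ * h0 = ken x) (hx : ((67108864 : ℕ) : ℝ) / S ≤ x) (hx' : x ≤ (((67108864 : ℕ) : ℝ) + (67108864 : ℕ)) / S) :
    TriA PP.cur (nearL (h0 * 0) 3 κ (h0 * x) (tbl tKN x) (tbl tL x)) 1 1 2 2 2 1 (-1) :=
  (sideN hx hx').nearA (Or.inl rfl) (Or.inr rfl) fun y y' F =>
    nearA_cert (s1 := true) (s2 := false) rfl hκ covN21 covN21 hx hx'
        Pool.Agent.Strip051.G.I1_16_1_8.Tab.C.NA22.c_pm_112 noCut_A noExt_A F trivial trivial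

theorem NA22_pm_113 {κ x : ℝ} (hκ : κ * h0 = ken x) (hx : ((67108864 : ℕ) : ℝ) / S ≤ x) (hx' : x ≤ (((67108864 : ℕ) : ℝ) + (67108864 : ℕ)) / S) :
    TriA PP.cur (nearL (h0 * 0) 3 κ (h0 * x) (tbl tKN x) (tbl tL x)) 1 1 3 2 2 1 (-1) :=
  (sideN hx hx').nearA (Or.inl rfl) (Or.inr rfl) fun y y' F =>
    nearA_cert (s1 := true) (s2 := false) rfl hκ covN21 covN21 hx hx'
        Pool.Agent.Strip051.G.I1_16_1_8.Tab.C.NA22.c_pm_113 noCut_A noExt_A F trivial trivial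

theorem NA22_pm_123 {κ x : ℝ} (hκ : κ * h0 = ken x) (hx : ((67108864 : ℕ) : ℝ) / S ≤ x) (hx' : x ≤ (((67108864 : ℕ) : ℝ) + (67108864 : ℕ)) / S) :
    TriA PP.cur (nearL (h0 * 0) 3 κ (h0 * x) (tbl tKN x) (tbl tL x)) 1 2 3 2 2 1 (-1) :=
  (sideN hx hx').nearA (Or.inl rfl) (Or.inr rfl) fun y y' F =>
    (lt_or_ge (h0 * y') 1).elim
      (fun g => nearA_cert (s1 := true) (s2 := false) rfl hκ covN21 covN22a hx hx'
        Pool.Agent.Strip051.G.I1_16_1_8.Tab.C.NA22.c_pm_123_a noCut_A noExt_A F trivial g)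
      (fun g => nearA_cert (s1 := true) (s2 := false) rfl hκ covN21 covN22b hx hx'
        Pool.Agent.Strip051.G.I1_16_1_8.Tab.C.NA22.c_pm_123_b noCut_A noExt_A F trivial g)

theorem NA22_pm_133 {κ x : ℝ} (hκ : κ * h0 = ken x) (hx : ((67108864 : ℕ) : ℝ) / S ≤ x) (hx' : x ≤ (((67108864 : ℕ) : ℝ) + (67108864 : ℕ)) / S) :
    TriA PP.cur (nearL (h0 * 0) 3 κ (h0 * x) (tbl tKN x) (tbl tL x)) 1 3 3 2 2 1 (-1) :=
  (sideN hx hx').nearA (Or.inl rfl) (Or.inr rfl) fun y y' F =>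
    nearA_cert (s1 := true) (s2 := false) rfl hκ covN21 covN23 hx hx'
        Pool.Agent.Strip051.G.I1_16_1_8.Tab.C.NA22.c_pm_133 noCut_A noExt_A F trivial trivial

theorem NA22_pm_202 {κ x : ℝ} (hκ : κ * h0 = ken x) (hx : ((67108864 : ℕ) : ℝ) / S ≤ x) (hx' : x ≤ (((67108864 : ℕ) : ℝ) + (67108864 : ℕ)) / S) :
    TriA PP.cur (nearL (h0 * 0) 3 κ (h0 * x) (tbl tKN x) (tbl tL x)) 2 0 2 2 2 1 (-1) :=
  (sideN hx hx').nearA (Or.inl rfl) (Or.inr rfl) fun y y' F =>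
    (lt_or_ge (h0 * y) 1).elim
      (fun h => nearA_cert (s1 := true) (s2 := false) rfl hκ covN22a covN20 hx hx'
        Pool.Agent.Strip051.G.I1_16_1_8.Tab.C.NA22.c_pm_202_a (cutA_cons (Pool.Agent.Strip051.G.I1_16_1_8.Tab.altN_A202E_22 hκ hx hx') cutA_nil) noExt_A F h trivial)
      (fun h => nearA_cert (s1 := true) (s2 := false) rfl hκ covN22b covN20 hx hx'
        Pool.Agent.Strip051.G.I1_16_1_8.Tab.C.NA22.c_pm_202_b (cutA_cons (Pool.Agent.Strip051.G.I1_16_1_8.Tab.altN_A202E_22 hκ hx hx') cutA_nil) noExt_A F h trivial)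

theorem NA22_pm_203 {κ x : ℝ} (hκ : κ * h0 = ken x) (hx : ((67108864 : ℕ) : ℝ) / S ≤ x) (hx' : x ≤ (((67108864 : ℕ) : ℝ) + (67108864 : ℕ)) / S) :
    TriA PP.cur (nearL (h0 * 0) 3 κ (h0 * x) (tbl tKN x) (tbl tL x)) 2 0 3 2 2 1 (-1) :=
  (sideN hx hx').nearA (Or.inl rfl) (Or.inr rfl) fun y y' F =>
    (lt_or_ge (h0 * y) 1).elim
      (fun h => nearA_cert (s1 := true) (s2 := false) rfl hκ covN22a covN20 hx hx'
        Pool.Agent.Strip051.G.I1_16_1_8.Tab.C.NA22.c_pm_203_a noCut_A noExt_A F h trivial)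
      (fun h => nearA_cert (s1 := true) (s2 := false) rfl hκ covN22b covN20 hx hx'
        Pool.Agent.Strip051.G.I1_16_1_8.Tab.C.NA22.c_pm_203_b noCut_A noExt_A F h trivial)

theorem NA22_pm_213 {κ x : ℝ} (hκ : κ * h0 = ken x) (hx : ((67108864 : ℕ) : ℝ) / S ≤ x) (hx' : x ≤ (((67108864 : ℕ) : ℝ) + (67108864 : ℕ)) / S) :
    TriA PP.cur (nearL (h0 * 0) 3 κ (h0 * x) (tbl tKN x) (tbl tL x)) 2 1 3 2 2 1 (-1) :=
  (sideN hx hx').nearA (Or.inl rfl) (Or.inr rfl) fun y y' F =>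
    (lt_or_ge (h0 * y) 1).elim
      (fun h => nearA_cert (s1 := true) (s2 := false) rfl hκ covN22a covN21 hx hx'
        Pool.Agent.Strip051.G.I1_16_1_8.Tab.C.NA22.c_pm_213_a noCut_A noExt_A F h trivial)
      (fun h => nearA_cert (s1 := true) (s2 := false) rfl hκ covN22b covN21 hx hx'
        Pool.Agent.Strip051.G.I1_16_1_8.Tab.C.NA22.c_pm_213_b noCut_A noExt_A F h trivial)

theorem NA22_pm_303 {κ x : ℝ} (hκ : κ * h0 = ken x) (hx : ((67108864 : ℕ) : ℝ) / S ≤ x) (hx' : x ≤ (((67108864 : ℕ) : ℝ) + (67108864 : ℕ)) / S) :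
    TriA PP.cur (nearL (h0 * 0) 3 κ (h0 * x) (tbl tKN x) (tbl tL x)) 3 0 3 2 2 1 (-1) :=
  (sideN hx hx').nearA (Or.inl rfl) (Or.inr rfl) fun y y' F =>
    nearA_cert (s1 := true) (s2 := false) rfl hκ covN23 covN20 hx hx'
        Pool.Agent.Strip051.G.I1_16_1_8.Tab.C.NA22.c_pm_303 noCut_A noExt_A F trivial trivial

theorem NA22_pm_313 {κ x : ℝ} (hκ : κ * h0 = ken x) (hx : ((67108864 : ℕ) : ℝ) / S ≤ x) (hx' : x ≤ (((67108864 : ℕ) : ℝ) + (67108864 : ℕ)) / S) :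
    TriA PP.cur (nearL (h0 * 0) 3 κ (h0 * x) (tbl tKN x) (tbl tL x)) 3 1 3 2 2 1 (-1) :=
  (sideN hx hx').nearA (Or.inl rfl) (Or.inr rfl) fun y y' F =>
    nearA_cert (s1 := true) (s2 := false) rfl hκ covN23 covN21 hx hx'
        Pool.Agent.Strip051.G.I1_16_1_8.Tab.C.NA22.c_pm_313 noCut_A noExt_A F trivial trivial

theorem NA22_mm_001 {κ x : ℝ} (hκ : κ * h0 = ken x) (hx : ((67108864 : ℕ) : ℝ) / S ≤ x) (hx' : x ≤ (((67108864 : ℕ) : ℝ) + (67108864 : ℕ)) / S) :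
    TriA PP.cur (nearL (h0 * 0) 3 κ (h0 * x) (tbl tKN x) (tbl tL x)) 0 0 1 2 2 (-1) (-1) :=
  (sideN hx hx').nearA (Or.inr rfl) (Or.inr rfl) fun y y' F =>
    nearA_cert (s1 := false) (s2 := false) rfl hκ covN20 covN20 hx hx'
        Pool.Agent.Strip051.G.I1_16_1_8.Tab.C.NA22.c_mm_001 noCut_A noExt_A F trivial trivial

theorem NA22_mm_011 {κ x : ℝ} (hκ : κ * h0 = ken x) (hx : ((67108864 : ℕ) : ℝ) / S ≤ x) (hx' : x ≤ (((67108864 : ℕ) : ℝ) + (67108864 : ℕ)) / S) :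
    TriA PP.cur (nearL (h0 * 0) 3 κ (h0 * x) (tbl tKN x) (tbl tL x)) 0 1 1 2 2 (-1) (-1) :=
  (sideN hx hx').nearA (Or.inr rfl) (Or.inr rfl) fun y y' F =>
    nearA_cert (s1 := false) (s2 := false) rfl hκ covN20 covN21 hx hx'
        Pool.Agent.Strip051.G.I1_16_1_8.Tab.C.NA22.c_mm_011 noCut_A noExt_A F trivial trivial

theorem NA22_mm_012 {κ x : ℝ} (hκ : κ * h0 = ken x) (hx : ((67108864 : ℕ) : ℝ) / S ≤ x) (hx' : x ≤ (((67108864 : ℕ) : ℝ) + (67108864 : ℕ)) / S) :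
    TriA PP.cur (nearL (h0 * 0) 3 κ (h0 * x) (tbl tKN x) (tbl tL x)) 0 1 2 2 2 (-1) (-1) :=
  (sideN hx hx').nearA (Or.inr rfl) (Or.inr rfl) fun y y' F =>
    nearA_cert (s1 := false) (s2 := false) rfl hκ covN20 covN21 hx hx'
        Pool.Agent.Strip051.G.I1_16_1_8.Tab.C.NA22.c_mm_012 noCut_A noExt_A F trivial trivial

theorem NA22_mm_022 {κ x : ℝ} (hκ : κ * h0 = ken x) (hx : ((67108864 : ℕ) : ℝ) / S ≤ x) (hx' : x ≤ (((67108864 : ℕ) : ℝ) + (67108864 : ℕ)) / S) :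
    TriA PP.cur (nearL (h0 * 0) 3 κ (h0 * x) (tbl tKN x) (tbl tL x)) 0 2 2 2 2 (-1) (-1) :=
  (sideN hx hx').nearA (Or.inr rfl) (Or.inr rfl) fun y y' F =>
    (lt_or_ge (h0 * y') 1).elim
      (fun g => nearA_cert (s1 := false) (s2 := false) rfl hκ covN20 covN22a hx hx'
        Pool.Agent.Strip051.G.I1_16_1_8.Tab.C.NA22.c_mm_022_a noCut_A noExt_A F trivial g)
      (fun g => nearA_cert (s1 := false) (s2 := false) rfl hκ covN20 covN22b hx hx'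
        Pool.Agent.Strip051.G.I1_16_1_8.Tab.C.NA22.c_mm_022_b noCut_A noExt_A F trivial g)

theorem NA22_mm_023 {κ x : ℝ} (hκ : κ * h0 = ken x) (hx : ((67108864 : ℕ) : ℝ) / S ≤ x) (hx' : x ≤ (((67108864 : ℕ) : ℝ) + (67108864 : ℕ)) / S) :
    TriA PP.cur (nearL (h0 * 0) 3 κ (h0 * x) (tbl tKN x) (tbl tL x)) 0 2 3 2 2 (-1) (-1) :=
  (sideN hx hx').nearA (Or.inr rfl) (Or.inr rfl) fun y y' F =>
    (lt_or_ge (h0 * y') 1).elim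
      (fun g => nearA_cert (s1 := false) (s2 := false) rfl hκ covN20 covN22a hx hx'
        Pool.Agent.Strip051.G.I1_16_1_8.Tab.C.NA22.c_mm_023_a noCut_A noExt_A F trivial g)
      (fun g => nearA_cert (s1 := false) (s2 := false) rfl hκ covN20 covN22b hx hx'
        Pool.Agent.Strip051.G.I1_16_1_8.Tab.C.NA22.c_mm_023_b noCut_A noExt_A F trivial g)

theorem NA22_mm_033 {κ x : ℝ} (hκ : κ * h0 = ken x) (hx : ((67108864 : ℕ) : ℝ) / S ≤ x) (hx' : x ≤ (((67108864 : ℕ) : ℝ) + (67108864 : ℕ)) / S) :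
    TriA PP.cur (nearL (h0 * 0) 3 κ (h0 * x) (tbl tKN x) (tbl tL x)) 0 3 3 2 2 (-1) (-1) :=
  (sideN hx hx').nearA (Or.inr rfl) (Or.inr rfl) fun y y' F =>
    nearA_cert (s1 := false) (s2 := false) rfl hκ covN20 covN23 hx hx'
        Pool.Agent.Strip051.G.I1_16_1_8.Tab.C.NA22.c_mm_033 noCut_A noExt_A F trivial trivial

theorem NA22_mm_101 {κ x : ℝ} (hκ : κ * h0 = ken x) (hx : ((67108864 : ℕ) : ℝ) / S ≤ x) (hx' : x ≤ (((67108864 : ℕ) : ℝ) + (67108864 : ℕ)) / S) :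
    TriA PP.cur (nearL (h0 * 0) 3 κ (h0 * x) (tbl tKN x) (tbl tL x)) 1 0 1 2 2 (-1) (-1) :=
  (sideN hx hx').nearA (Or.inr rfl) (Or.inr rfl) fun y y' F =>
    nearA_cert (s1 := false) (s2 := false) rfl hκ covN21 covN20 hx hx'
        Pool.Agent.Strip051.G.I1_16_1_8.Tab.C.NA22.c_mm_101 noCut_A noExt_A F trivial trivial

theorem NA22_mm_102 {κ x : ℝ} (hκ : κ * h0 = ken x) (hx : ((67108864 : ℕ) : ℝ) / S ≤ x) (hx' : x ≤ (((67108864 : ℕ) : ℝ) + (67108864 : ℕ)) / S) :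
    TriA PP.cur (nearL (h0 * 0) 3 κ (h0 * x) (tbl tKN x) (tbl tL x)) 1 0 2 2 2 (-1) (-1) :=
  (sideN hx hx').nearA (Or.inr rfl) (Or.inr rfl) fun y y' F =>
    nearA_cert (s1 := false) (s2 := false) rfl hκ covN21 covN20 hx hx'
        Pool.Agent.Strip051.G.I1_16_1_8.Tab.C.NA22.c_mm_102 noCut_A noExt_A F trivial trivial

theorem NA22_mm_112 {κ x : ℝ} (hκ : κ * h0 = ken x) (hx : ((67108864 : ℕ) : ℝ) / S ≤ x) (hx' : x ≤ (((67108864 : ℕ) : ℝ) + (67108864 : ℕ)) / S) :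
    TriA PP.cur (nearL (h0 * 0) 3 κ (h0 * x) (tbl tKN x) (tbl tL x)) 1 1 2 2 2 (-1) (-1) :=
  (sideN hx hx').nearA (Or.inr rfl) (Or.inr rfl) fun y y' F =>
    nearA_cert (s1 := false) (s2 := false) rfl hκ covN21 covN21 hx hx'
        Pool.Agent.Strip051.G.I1_16_1_8.Tab.C.NA22.c_mm_112 noCut_A noExt_A F trivial trivial

theorem NA22_mm_113 {κ x : ℝ} (hκ : κ * h0 = ken x) (hx : ((67108864 : ℕ) : ℝ) / S ≤ x) (hx' : x ≤ (((67108864 : ℕ) : ℝ) + (67108864 : ℕ)) / S) :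
    TriA PP.cur (nearL (h0 * 0) 3 κ (h0 * x) (tbl tKN x) (tbl tL x)) 1 1 3 2 2 (-1) (-1) :=
  (sideN hx hx').nearA (Or.inr rfl) (Or.inr rfl) fun y y' F =>
    nearA_cert (s1 := false) (s2 := false) rfl hκ covN21 covN21 hx hx'
        Pool.Agent.Strip051.G.I1_16_1_8.Tab.C.NA22.c_mm_113 noCut_A noExt_A F trivial trivial

theorem NA22_mm_123 {κ x : ℝ} (hκ : κ * h0 = ken x) (hx : ((67108864 : ℕ) : ℝ) / S ≤ x) (hx' : x ≤ (((67108864 : ℕ) : ℝ) + (67108864 : ℕ)) / S) :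
    TriA PP.cur (nearL (h0 * 0) 3 κ (h0 * x) (tbl tKN x) (tbl tL x)) 1 2 3 2 2 (-1) (-1) :=
  (sideN hx hx').nearA (Or.inr rfl) (Or.inr rfl) fun y y' F =>
    (lt_or_ge (h0 * y') 1).elim
      (fun g => nearA_cert (s1 := false) (s2 := false) rfl hκ covN21 covN22a hx hx'
        Pool.Agent.Strip051.G.I1_16_1_8.Tab.C.NA22.c_mm_123_a noCut_A noExt_A F trivial g)
      (fun g => nearA_cert (s1 := false) (s2 := false) rfl hκ covN21 covN22b hx hx'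
        Pool.Agent.Strip051.G.I1_16_1_8.Tab.C.NA22.c_mm_123_b noCut_A noExt_A F trivial g)

theorem NA22_mm_133 {κ x : ℝ} (hκ : κ * h0 = ken x) (hx : ((67108864 : ℕ) : ℝ) / S ≤ x) (hx' : x ≤ (((67108864 : ℕ) : ℝ) + (67108864 : ℕ)) / S) :
    TriA PP.cur (nearL (h0 * 0) 3 κ (h0 * x) (tbl tKN x) (tbl tL x)) 1 3 3 2 2 (-1) (-1) :=
  (sideN hx hx').nearA (Or.inr rfl) (Or.inr rfl) fun y y' F =>
    nearA_cert (s1 := false) (s2 := false) rfl hκ covN21 covN23 hx hx'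
        Pool.Agent.Strip051.G.I1_16_1_8.Tab.C.NA22.c_mm_133 noCut_A noExt_A F trivial trivial

theorem NA22_mm_202 {κ x : ℝ} (hκ : κ * h0 = ken x) (hx : ((67108864 : ℕ) : ℝ) / S ≤ x) (hx' : x ≤ (((67108864 : ℕ) : ℝ) + (67108864 : ℕ)) / S) :
    TriA PP.cur (nearL (h0 * 0) 3 κ (h0 * x) (tbl tKN x) (tbl tL x)) 2 0 2 2 2 (-1) (-1) :=
  (sideN hx hx').nearA (Or.inr rfl) (Or.inr rfl) fun y y' F =>
    (lt_or_ge (h0 * y) 1).elim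
      (fun h => nearA_cert (s1 := false) (s2 := false) rfl hκ covN22a covN20 hx hx'
        Pool.Agent.Strip051.G.I1_16_1_8.Tab.C.NA22.c_mm_202_a (cutA_cons (Pool.Agent.Strip051.G.I1_16_1_8.Tab.altN_A202R_22 hκ hx hx') cutA_nil) noExt_A F h trivial)
      (fun h => nearA_cert (s1 := false) (s2 := false) rfl hκ covN22b covN20 hx hx'
        Pool.Agent.Strip051.G.I1_16_1_8.Tab.C.NA22.c_mm_202_b (cutA_cons (Pool.Agent.Strip051.G.I1_16_1_8.Tab.altN_A202R_22 hκ hx hx') cutA_nil) noExt_A F h trivial)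

theorem NA22_mm_203 {κ x : ℝ} (hκ : κ * h0 = ken x) (hx : ((67108864 : ℕ) : ℝ) / S ≤ x) (hx' : x ≤ (((67108864 : ℕ) : ℝ) + (67108864 : ℕ)) / S) :
    TriA PP.cur (nearL (h0 * 0) 3 κ (h0 * x) (tbl tKN x) (tbl tL x)) 2 0 3 2 2 (-1) (-1) :=
  (sideN hx hx').nearA (Or.inr rfl) (Or.inr rfl) fun y y' F =>
    (lt_or_ge (h0 * y) 1).elim
      (fun h => nearA_cert (s1 := false) (s2 := false) rfl hκ covN22a covN20 hx hx'
        Pool.Agent.Strip051.G.I1_16_1_8.Tab.C.NA22.c_mm_203_a noCut_A noExt_A F h trivial)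
      (fun h => nearA_cert (s1 := false) (s2 := false) rfl hκ covN22b covN20 hx hx'
        Pool.Agent.Strip051.G.I1_16_1_8.Tab.C.NA22.c_mm_203_b noCut_A noExt_A F h trivial)

theorem NA22_mm_213 {κ x : ℝ} (hκ : κ * h0 = ken x) (hx : ((67108864 : ℕ) : ℝ) / S ≤ x) (hx' : x ≤ (((67108864 : ℕ) : ℝ) + (67108864 : ℕ)) / S) :
    TriA PP.cur (nearL (h0 * 0) 3 κ (h0 * x) (tbl tKN x) (tbl tL x)) 2 1 3 2 2 (-1) (-1) :=
  (sideN hx hx').nearA (Or.inr rfl) (Or.inr rfl) fun y y' F =>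
    (lt_or_ge (h0 * y) 1).elim
      (fun h => nearA_cert (s1 := false) (s2 := false) rfl hκ covN22a covN21 hx hx'
        Pool.Agent.Strip051.G.I1_16_1_8.Tab.C.NA22.c_mm_213_a noCut_A noExt_A F h trivial)
      (fun h => nearA_cert (s1 := false) (s2 := false) rfl hκ covN22b covN21 hx hx'
        Pool.Agent.Strip051.G.I1_16_1_8.Tab.C.NA22.c_mm_213_b noCut_A noExt_A F h trivial)

theorem NA22_mm_303 {κ x : ℝ} (hκ : κ * h0 = ken x) (hx : ((67108864 : ℕ) : ℝ) / S ≤ x) (hx' : x ≤ (((67108864 : ℕ) : ℝ) + (67108864 : ℕ)) / S) :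
    TriA PP.cur (nearL (h0 * 0) 3 κ (h0 * x) (tbl tKN x) (tbl tL x)) 3 0 3 2 2 (-1) (-1) :=
  (sideN hx hx').nearA (Or.inr rfl) (Or.inr rfl) fun y y' F =>
    nearA_cert (s1 := false) (s2 := false) rfl hκ covN23 covN20 hx hx'
        Pool.Agent.Strip051.G.I1_16_1_8.Tab.C.NA22.c_mm_303 noCut_A noExt_A F trivial trivial

theorem NA22_mm_313 {κ x : ℝ} (hκ : κ * h0 = ken x) (hx : ((67108864 : ℕ) : ℝ) / S ≤ x) (hx' : x ≤ (((67108864 : ℕ) : ℝ) + (67108864 : ℕ)) / S) :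
    TriA PP.cur (nearL (h0 * 0) 3 κ (h0 * x) (tbl tKN x) (tbl tL x)) 3 1 3 2 2 (-1) (-1) :=
  (sideN hx hx').nearA (Or.inr rfl) (Or.inr rfl) fun y y' F =>
    nearA_cert (s1 := false) (s2 := false) rfl hκ covN23 covN21 hx hx'
        Pool.Agent.Strip051.G.I1_16_1_8.Tab.C.NA22.c_mm_313 noCut_A noExt_A F trivial trivial

theorem NA22 {κ x : ℝ} (hκ : κ * h0 = ken x) (hx : ((67108864 : ℕ) : ℝ) / S ≤ x) (hx' : x ≤ (((67108864 : ℕ) : ℝ) + (67108864 : ℕ)) / S) : AllTA PP.cur (nearL (h0 * 0) 3 κ (h0 * x) (tbl tKN x) (tbl tL x)) 2 2 where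
  pp := all17 (Q := fun a b c => TriA PP.cur (nearL (h0 * 0) 3 κ (h0 * x) (tbl tKN x) (tbl tL x)) a b c 2 2 1 1)
    (NA22_pp_001 hκ hx hx') (NA22_pp_011 hκ hx hx') (NA22_pp_012 hκ hx hx') (NA22_pp_022 hκ hx hx') (NA22_pp_023 hκ hx hx') (NA22_pp_033 hκ hx hx') (NA22_pp_101 hκ hx hx') (NA22_pp_102 hκ hx hx') (NA22_pp_112 hκ hx hx') (NA22_pp_113 hκ hx hx') (NA22_pp_123 hκ hx hx') (NA22_pp_133 hκ hx hx') (NA22_pp_202 hκ hx hx') (NA22_pp_203 hκ hx hx') (NA22_pp_213 hκ hx hx') (NA22_pp_303 hκ hx hx') (NA22_pp_313 hκ hx hx')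
  pm := all17 (Q := fun a b c => TriA PP.cur (nearL (h0 * 0) 3 κ (h0 * x) (tbl tKN x) (tbl tL x)) a b c 2 2 1 (-1))
    (NA22_pm_001 hκ hx hx') (NA22_pm_011 hκ hx hx') (NA22_pm_012 hκ hx hx') (NA22_pm_022 hκ hx hx') (NA22_pm_023 hκ hx hx') (NA22_pm_033 hκ hx hx') (NA22_pm_101 hκ hx hx') (NA22_pm_102 hκ hx hx') (NA22_pm_112 hκ hx hx') (NA22_pm_113 hκ hx hx') (NA22_pm_123 hκ hx hx') (NA22_pm_133 hκ hx hx') (NA22_pm_202 hκ hx hx') (NA22_pm_203 hκ hx hx') (NA22_pm_213 hκ hx hx') (NA22_pm_303 hκ hx hx') (NA22_pm_313 hκ hx hx')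
  mm := all17 (Q := fun a b c => TriA PP.cur (nearL (h0 * 0) 3 κ (h0 * x) (tbl tKN x) (tbl tL x)) a b c 2 2 (-1) (-1))
    (NA22_mm_001 hκ hx hx') (NA22_mm_011 hκ hx hx') (NA22_mm_012 hκ hx hx') (NA22_mm_022 hκ hx hx') (NA22_mm_023 hκ hx hx') (NA22_mm_033 hκ hx hx') (NA22_mm_101 hκ hx hx') (NA22_mm_102 hκ hx hx') (NA22_mm_112 hκ hx hx') (NA22_mm_113 hκ hx hx') (NA22_mm_123 hκ hx hx') (NA22_mm_133 hκ hx hx') (NA22_mm_202 hκ hx hx') (NA22_mm_203 hκ hx hx') (NA22_mm_213 hκ hx hx') (NA22_mm_303 hκ hx hx') (NA22_mm_313 hκ hx hx')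

theorem NA23_pp_001 {κ x : ℝ} (hκ : κ * h0 = ken x) (hx : ((67108864 : ℕ) : ℝ) / S ≤ x) (hx' : x ≤ (((67108864 : ℕ) : ℝ) + (67108864 : ℕ)) / S) :
    TriA PP.cur (nearL (h0 * 0) 3 κ (h0 * x) (tbl tKN x) (tbl tL x)) 0 0 1 2 3 1 1 :=
  (sideN hx hx').nearA (Or.inl rfl) (Or.inl rfl) fun y y' F =>
    nearA_cert (s1 := true) (s2 := true) rfl hκ covN20 covN30 hx hx'
        Pool.Agent.Strip051.G.I1_16_1_8.Tab.C.NA23.c_pp_001 noCut_A noExt_A F trivial trivial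

theorem NA23_pp_011 {κ x : ℝ} (hκ : κ * h0 = ken x) (hx : ((67108864 : ℕ) : ℝ) / S ≤ x) (hx' : x ≤ (((67108864 : ℕ) : ℝ) + (67108864 : ℕ)) / S) :
    TriA PP.cur (nearL (h0 * 0) 3 κ (h0 * x) (tbl tKN x) (tbl tL x)) 0 1 1 2 3 1 1 :=
  (sideN hx hx').nearA (Or.inl rfl) (Or.inl rfl) fun y y' F =>
    nearA_cert (s1 := true) (s2 := true) rfl hκ covN20 covN31 hx hx'
        Pool.Agent.Strip051.G.I1_16_1_8.Tab.C.NA23.c_pp_011 noCut_A noExt_A F trivial trivial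

theorem NA23_pp_012 {κ x : ℝ} (hκ : κ * h0 = ken x) (hx : ((67108864 : ℕ) : ℝ) / S ≤ x) (hx' : x ≤ (((67108864 : ℕ) : ℝ) + (67108864 : ℕ)) / S) :
    TriA PP.cur (nearL (h0 * 0) 3 κ (h0 * x) (tbl tKN x) (tbl tL x)) 0 1 2 2 3 1 1 :=
  (sideN hx hx').nearA (Or.inl rfl) (Or.inl rfl) fun y y' F =>
    nearA_cert (s1 := true) (s2 := true) rfl hκ covN20 covN31 hx hx'
        Pool.Agent.Strip051.G.I1_16_1_8.Tab.C.NA23.c_pp_012 noCut_A noExt_A F trivial trivial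

theorem NA23_pp_022 {κ x : ℝ} (hκ : κ * h0 = ken x) (hx : ((67108864 : ℕ) : ℝ) / S ≤ x) (hx' : x ≤ (((67108864 : ℕ) : ℝ) + (67108864 : ℕ)) / S) :
    TriA PP.cur (nearL (h0 * 0) 3 κ (h0 * x) (tbl tKN x) (tbl tL x)) 0 2 2 2 3 1 1 :=
  (sideN hx hx').nearA (Or.inl rfl) (Or.inl rfl) fun y y' F =>
    nearA_cert (s1 := true) (s2 := true) rfl hκ covN20 covN32 hx hx'
        Pool.Agent.Strip051.G.I1_16_1_8.Tab.C.NA23.c_pp_022 noCut_A noExt_A F trivial trivial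

theorem NA23_pp_023 {κ x : ℝ} (hκ : κ * h0 = ken x) (hx : ((67108864 : ℕ) : ℝ) / S ≤ x) (hx' : x ≤ (((67108864 : ℕ) : ℝ) + (67108864 : ℕ)) / S) :
    TriA PP.cur (nearL (h0 * 0) 3 κ (h0 * x) (tbl tKN x) (tbl tL x)) 0 2 3 2 3 1 1 :=
  (sideN hx hx').nearA (Or.inl rfl) (Or.inl rfl) fun y y' F =>
    nearA_cert (s1 := true) (s2 := true) rfl hκ covN20 covN32 hx hx'
        Pool.Agent.Strip051.G.I1_16_1_8.Tab.C.NA23.c_pp_023 noCut_A noExt_A F trivial trivial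

theorem NA23_pp_033 {κ x : ℝ} (hκ : κ * h0 = ken x) (hx : ((67108864 : ℕ) : ℝ) / S ≤ x) (hx' : x ≤ (((67108864 : ℕ) : ℝ) + (67108864 : ℕ)) / S) :
    TriA PP.cur (nearL (h0 * 0) 3 κ (h0 * x) (tbl tKN x) (tbl tL x)) 0 3 3 2 3 1 1 :=
  (sideN hx hx').nearA (Or.inl rfl) (Or.inl rfl) fun y y' F =>
    nearA_cert (s1 := true) (s2 := true) rfl hκ covN20 covN33 hx hx'
        Pool.Agent.Strip051.G.I1_16_1_8.Tab.C.NA23.c_pp_033 noCut_A noExt_A F trivial trivial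

theorem NA23_pp_101 {κ x : ℝ} (hκ : κ * h0 = ken x) (hx : ((67108864 : ℕ) : ℝ) / S ≤ x) (hx' : x ≤ (((67108864 : ℕ) : ℝ) + (67108864 : ℕ)) / S) :
    TriA PP.cur (nearL (h0 * 0) 3 κ (h0 * x) (tbl tKN x) (tbl tL x)) 1 0 1 2 3 1 1 :=
  (sideN hx hx').nearA (Or.inl rfl) (Or.inl rfl) fun y y' F =>
    nearA_cert (s1 := true) (s2 := true) rfl hκ covN21 covN30 hx hx'
        Pool.Agent.Strip051.G.I1_16_1_8.Tab.C.NA23.c_pp_101 noCut_A noExt_A F trivial trivial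

theorem NA23_pp_102 {κ x : ℝ} (hκ : κ * h0 = ken x) (hx : ((67108864 : ℕ) : ℝ) / S ≤ x) (hx' : x ≤ (((67108864 : ℕ) : ℝ) + (67108864 : ℕ)) / S) :
    TriA PP.cur (nearL (h0 * 0) 3 κ (h0 * x) (tbl tKN x) (tbl tL x)) 1 0 2 2 3 1 1 :=
  (sideN hx hx').nearA (Or.inl rfl) (Or.inl rfl) fun y y' F =>
    nearA_cert (s1 := true) (s2 := true) rfl hκ covN21 covN30 hx hx'
        Pool.Agent.Strip051.G.I1_16_1_8.Tab.C.NA23.c_pp_102 noCut_A noExt_A F trivial trivial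

theorem NA23_pp_112 {κ x : ℝ} (hκ : κ * h0 = ken x) (hx : ((67108864 : ℕ) : ℝ) / S ≤ x) (hx' : x ≤ (((67108864 : ℕ) : ℝ) + (67108864 : ℕ)) / S) :
    TriA PP.cur (nearL (h0 * 0) 3 κ (h0 * x) (tbl tKN x) (tbl tL x)) 1 1 2 2 3 1 1 :=
  (sideN hx hx').nearA (Or.inl rfl) (Or.inl rfl) fun y y' F =>
    nearA_cert (s1 := true) (s2 := true) rfl hκ covN21 covN31 hx hx'
        Pool.Agent.Strip051.G.I1_16_1_8.Tab.C.NA23.c_pp_112 noCut_A noExt_A F trivial trivial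

theorem NA23_pp_113 {κ x : ℝ} (hκ : κ * h0 = ken x) (hx : ((67108864 : ℕ) : ℝ) / S ≤ x) (hx' : x ≤ (((67108864 : ℕ) : ℝ) + (67108864 : ℕ)) / S) :
    TriA PP.cur (nearL (h0 * 0) 3 κ (h0 * x) (tbl tKN x) (tbl tL x)) 1 1 3 2 3 1 1 :=
  (sideN hx hx').nearA (Or.inl rfl) (Or.inl rfl) fun y y' F =>
    nearA_cert (s1 := true) (s2 := true) rfl hκ covN21 covN31 hx hx'
        Pool.Agent.Strip051.G.I1_16_1_8.Tab.C.NA23.c_pp_113 noCut_A noExt_A F trivial trivial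

theorem NA23_pp_123 {κ x : ℝ} (hκ : κ * h0 = ken x) (hx : ((67108864 : ℕ) : ℝ) / S ≤ x) (hx' : x ≤ (((67108864 : ℕ) : ℝ) + (67108864 : ℕ)) / S) :
    TriA PP.cur (nearL (h0 * 0) 3 κ (h0 * x) (tbl tKN x) (tbl tL x)) 1 2 3 2 3 1 1 :=
  (sideN hx hx').nearA (Or.inl rfl) (Or.inl rfl) fun y y' F =>
    nearA_cert (s1 := true) (s2 := true) rfl hκ covN21 covN32 hx hx'
        Pool.Agent.Strip051.G.I1_16_1_8.Tab.C.NA23.c_pp_123 noCut_A noExt_A F trivial trivial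

theorem NA23_pp_133 {κ x : ℝ} (hκ : κ * h0 = ken x) (hx : ((67108864 : ℕ) : ℝ) / S ≤ x) (hx' : x ≤ (((67108864 : ℕ) : ℝ) + (67108864 : ℕ)) / S) :
    TriA PP.cur (nearL (h0 * 0) 3 κ (h0 * x) (tbl tKN x) (tbl tL x)) 1 3 3 2 3 1 1 :=
  (sideN hx hx').nearA (Or.inl rfl) (Or.inl rfl) fun y y' F =>
    nearA_cert (s1 := true) (s2 := true) rfl hκ covN21 covN33 hx hx'
        Pool.Agent.Strip051.G.I1_16_1_8.Tab.C.NA23.c_pp_133 noCut_A noExt_A F trivial trivial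

theorem NA23_pp_202 {κ x : ℝ} (hκ : κ * h0 = ken x) (hx : ((67108864 : ℕ) : ℝ) / S ≤ x) (hx' : x ≤ (((67108864 : ℕ) : ℝ) + (67108864 : ℕ)) / S) :
    TriA PP.cur (nearL (h0 * 0) 3 κ (h0 * x) (tbl tKN x) (tbl tL x)) 2 0 2 2 3 1 1 :=
  (sideN hx hx').nearA (Or.inl rfl) (Or.inl rfl) fun y y' F =>
    (lt_or_ge (h0 * y) 1).elim
      (fun h => nearA_cert (s1 := true) (s2 := true) rfl hκ covN22a covN30 hx hx'
        Pool.Agent.Strip051.G.I1_16_1_8.Tab.C.NA23.c_pp_202_a noCut_A noExt_A F h trivial)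
      (fun h => nearA_cert (s1 := true) (s2 := true) rfl hκ covN22b covN30 hx hx'
        Pool.Agent.Strip051.G.I1_16_1_8.Tab.C.NA23.c_pp_202_b noCut_A noExt_A F h trivial)

theorem NA23_pp_203 {κ x : ℝ} (hκ : κ * h0 = ken x) (hx : ((67108864 : ℕ) : ℝ) / S ≤ x) (hx' : x ≤ (((67108864 : ℕ) : ℝ) + (67108864 : ℕ)) / S) :
    TriA PP.cur (nearL (h0 * 0) 3 κ (h0 * x) (tbl tKN x) (tbl tL x)) 2 0 3 2 3 1 1 :=
  (sideN hx hx').nearA (Or.inl rfl) (Or.inl rfl) fun y y' F =>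
    (lt_or_ge (h0 * y) 1).elim
      (fun h => nearA_cert (s1 := true) (s2 := true) rfl hκ covN22a covN30 hx hx'
        Pool.Agent.Strip051.G.I1_16_1_8.Tab.C.NA23.c_pp_203_a noCut_A noExt_A F h trivial)
      (fun h => nearA_cert (s1 := true) (s2 := true) rfl hκ covN22b covN30 hx hx'
        Pool.Agent.Strip051.G.I1_16_1_8.Tab.C.NA23.c_pp_203_b noCut_A noExt_A F h trivial)

theorem NA23_pp_213 {κ x : ℝ} (hκ : κ * h0 = ken x) (hx : ((67108864 : ℕ) : ℝ) / S ≤ x) (hx' : x ≤ (((67108864 : ℕ) : ℝ) + (67108864 : ℕ)) / S) :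
    TriA PP.cur (nearL (h0 * 0) 3 κ (h0 * x) (tbl tKN x) (tbl tL x)) 2 1 3 2 3 1 1 :=
  (sideN hx hx').nearA (Or.inl rfl) (Or.inl rfl) fun y y' F =>
    (lt_or_ge (h0 * y) 1).elim
      (fun h => nearA_cert (s1 := true) (s2 := true) rfl hκ covN22a covN31 hx hx'
        Pool.Agent.Strip051.G.I1_16_1_8.Tab.C.NA23.c_pp_213_a noCut_A noExt_A F h trivial)
      (fun h => nearA_cert (s1 := true) (s2 := true) rfl hκ covN22b covN31 hx hx'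
        Pool.Agent.Strip051.G.I1_16_1_8.Tab.C.NA23.c_pp_213_b noCut_A noExt_A F h trivial)

theorem NA23_pp_303 {κ x : ℝ} (hκ : κ * h0 = ken x) (hx : ((67108864 : ℕ) : ℝ) / S ≤ x) (hx' : x ≤ (((67108864 : ℕ) : ℝ) + (67108864 : ℕ)) / S) :
    TriA PP.cur (nearL (h0 * 0) 3 κ (h0 * x) (tbl tKN x) (tbl tL x)) 3 0 3 2 3 1 1 :=
  (sideN hx hx').nearA (Or.inl rfl) (Or.inl rfl) fun y y' F =>
    nearA_cert (s1 := true) (s2 := true) rfl hκ covN23 covN30 hx hx'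
        Pool.Agent.Strip051.G.I1_16_1_8.Tab.C.NA23.c_pp_303 noCut_A noExt_A F trivial trivial

theorem NA23_pp_313 {κ x : ℝ} (hκ : κ * h0 = ken x) (hx : ((67108864 : ℕ) : ℝ) / S ≤ x) (hx' : x ≤ (((67108864 : ℕ) : ℝ) + (67108864 : ℕ)) / S) :
    TriA PP.cur (nearL (h0 * 0) 3 κ (h0 * x) (tbl tKN x) (tbl tL x)) 3 1 3 2 3 1 1 :=
  (sideN hx hx').nearA (Or.inl rfl) (Or.inl rfl) fun y y' F =>
    nearA_cert (s1 := true) (s2 := true) rfl hκ covN23 covN31 hx hx'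
        Pool.Agent.Strip051.G.I1_16_1_8.Tab.C.NA23.c_pp_313 noCut_A noExt_A F trivial trivial

theorem NA23_pm_001 {κ x : ℝ} (hκ : κ * h0 = ken x) (hx : ((67108864 : ℕ) : ℝ) / S ≤ x) (hx' : x ≤ (((67108864 : ℕ) : ℝ) + (67108864 : ℕ)) / S) :
    TriA PP.cur (nearL (h0 * 0) 3 κ (h0 * x) (tbl tKN x) (tbl tL x)) 0 0 1 2 3 1 (-1) :=
  (sideN hx hx').nearA (Or.inl rfl) (Or.inr rfl) fun y y' F =>
    nearA_cert (s1 := true) (s2 := false) rfl hκ covN20 covN30 hx hx'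
        Pool.Agent.Strip051.G.I1_16_1_8.Tab.C.NA23.c_pm_001 noCut_A noExt_A F trivial trivial

theorem NA23_pm_011 {κ x : ℝ} (hκ : κ * h0 = ken x) (hx : ((67108864 : ℕ) : ℝ) / S ≤ x) (hx' : x ≤ (((67108864 : ℕ) : ℝ) + (67108864 : ℕ)) / S) :
    TriA PP.cur (nearL (h0 * 0) 3 κ (h0 * x) (tbl tKN x) (tbl tL x)) 0 1 1 2 3 1 (-1) :=
  (sideN hx hx').nearA (Or.inl rfl) (Or.inr rfl) fun y y' F =>
    nearA_cert (s1 := true) (s2 := false) rfl hκ covN20 covN31 hx hx'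
        Pool.Agent.Strip051.G.I1_16_1_8.Tab.C.NA23.c_pm_011 (cutA_cons (Pool.Agent.Strip051.G.I1_16_1_8.Tab.altN_A011R_23 hκ hx hx') cutA_nil) noExt_A F trivial trivial

theorem NA23_pm_012 {κ x : ℝ} (hκ : κ * h0 = ken x) (hx : ((67108864 : ℕ) : ℝ) / S ≤ x) (hx' : x ≤ (((67108864 : ℕ) : ℝ) + (67108864 : ℕ)) / S) :
    TriA PP.cur (nearL (h0 * 0) 3 κ (h0 * x) (tbl tKN x) (tbl tL x)) 0 1 2 2 3 1 (-1) :=
  (sideN hx hx').nearA (Or.inl rfl) (Or.inr rfl) fun y y' F =>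
    nearA_cert (s1 := true) (s2 := false) rfl hκ covN20 covN31 hx hx'
        Pool.Agent.Strip051.G.I1_16_1_8.Tab.C.NA23.c_pm_012 (cutA_cons (Pool.Agent.Strip051.G.I1_16_1_8.Tab.altN_A012R_23 hκ hx hx') cutA_nil) noExt_A F trivial trivial

theorem NA23_pm_022 {κ x : ℝ} (hκ : κ * h0 = ken x) (hx : ((67108864 : ℕ) : ℝ) / S ≤ x) (hx' : x ≤ (((67108864 : ℕ) : ℝ) + (67108864 : ℕ)) / S) :
    TriA PP.cur (nearL (h0 * 0) 3 κ (h0 * x) (tbl tKN x) (tbl tL x)) 0 2 2 2 3 1 (-1) :=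
  (sideN hx hx').nearA (Or.inl rfl) (Or.inr rfl) fun y y' F =>
    nearA_cert (s1 := true) (s2 := false) rfl hκ covN20 covN32 hx hx'
        Pool.Agent.Strip051.G.I1_16_1_8.Tab.C.NA23.c_pm_022 noCut_A noExt_A F trivial trivial

theorem NA23_pm_023 {κ x : ℝ} (hκ : κ * h0 = ken x) (hx : ((67108864 : ℕ) : ℝ) / S ≤ x) (hx' : x ≤ (((67108864 : ℕ) : ℝ) + (67108864 : ℕ)) / S) :
    TriA PP.cur (nearL (h0 * 0) 3 κ (h0 * x) (tbl tKN x) (tbl tL x)) 0 2 3 2 3 1 (-1) :=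
  (sideN hx hx').nearA (Or.inl rfl) (Or.inr rfl) fun y y' F =>
    nearA_cert (s1 := true) (s2 := false) rfl hκ covN20 covN32 hx hx'
        Pool.Agent.Strip051.G.I1_16_1_8.Tab.C.NA23.c_pm_023 noCut_A noExt_A F trivial trivial

theorem NA23_pm_033 {κ x : ℝ} (hκ : κ * h0 = ken x) (hx : ((67108864 : ℕ) : ℝ) / S ≤ x) (hx' : x ≤ (((67108864 : ℕ) : ℝ) + (67108864 : ℕ)) / S) :
    TriA PP.cur (nearL (h0 * 0) 3 κ (h0 * x) (tbl tKN x) (tbl tL x)) 0 3 3 2 3 1 (-1) :=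
  (sideN hx hx').nearA (Or.inl rfl) (Or.inr rfl) fun y y' F =>
    nearA_cert (s1 := true) (s2 := false) rfl hκ covN20 covN33 hx hx'
        Pool.Agent.Strip051.G.I1_16_1_8.Tab.C.NA23.c_pm_033 noCut_A noExt_A F trivial trivial

theorem NA23_pm_101 {κ x : ℝ} (hκ : κ * h0 = ken x) (hx : ((67108864 : ℕ) : ℝ) / S ≤ x) (hx' : x ≤ (((67108864 : ℕ) : ℝ) + (67108864 : ℕ)) / S) :
    TriA PP.cur (nearL (h0 * 0) 3 κ (h0 * x) (tbl tKN x) (tbl tL x)) 1 0 1 2 3 1 (-1) :=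
  (sideN hx hx').nearA (Or.inl rfl) (Or.inr rfl) fun y y' F =>
    nearA_cert (s1 := true) (s2 := false) rfl hκ covN21 covN30 hx hx'
        Pool.Agent.Strip051.G.I1_16_1_8.Tab.C.NA23.c_pm_101 noCut_A noExt_A F trivial trivial

theorem NA23_pm_102 {κ x : ℝ} (hκ : κ * h0 = ken x) (hx : ((67108864 : ℕ) : ℝ) / S ≤ x) (hx' : x ≤ (((67108864 : ℕ) : ℝ) + (67108864 : ℕ)) / S) :
    TriA PP.cur (nearL (h0 * 0) 3 κ (h0 * x) (tbl tKN x) (tbl tL x)) 1 0 2 2 3 1 (-1) :=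
  (sideN hx hx').nearA (Or.inl rfl) (Or.inr rfl) fun y y' F =>
    nearA_cert (s1 := true) (s2 := false) rfl hκ covN21 covN30 hx hx'
        Pool.Agent.Strip051.G.I1_16_1_8.Tab.C.NA23.c_pm_102 noCut_A noExt_A F trivial trivial

theorem NA23_pm_112 {κ x : ℝ} (hκ : κ * h0 = ken x) (hx : ((67108864 : ℕ) : ℝ) / S ≤ x) (hx' : x ≤ (((67108864 : ℕ) : ℝ) + (67108864 : ℕ)) / S) :
    TriA PP.cur (nearL (h0 * 0) 3 κ (h0 * x) (tbl tKN x) (tbl tL x)) 1 1 2 2 3 1 (-1) :=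
  (sideN hx hx').nearA (Or.inl rfl) (Or.inr rfl) fun y y' F =>
    nearA_cert (s1 := true) (s2 := false) rfl hκ covN21 covN31 hx hx'
        Pool.Agent.Strip051.G.I1_16_1_8.Tab.C.NA23.c_pm_112 noCut_A noExt_A F trivial trivial

theorem NA23_pm_113 {κ x : ℝ} (hκ : κ * h0 = ken x) (hx : ((67108864 : ℕ) : ℝ) / S ≤ x) (hx' : x ≤ (((67108864 : ℕ) : ℝ) + (67108864 : ℕ)) / S) :
    TriA PP.cur (nearL (h0 * 0) 3 κ (h0 * x) (tbl tKN x) (tbl tL x)) 1 1 3 2 3 1 (-1) :=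
  (sideN hx hx').nearA (Or.inl rfl) (Or.inr rfl) fun y y' F =>
    nearA_cert (s1 := true) (s2 := false) rfl hκ covN21 covN31 hx hx'
        Pool.Agent.Strip051.G.I1_16_1_8.Tab.C.NA23.c_pm_113 noCut_A noExt_A F trivial trivial

theorem NA23_pm_123 {κ x : ℝ} (hκ : κ * h0 = ken x) (hx : ((67108864 : ℕ) : ℝ) / S ≤ x) (hx' : x ≤ (((67108864 : ℕ) : ℝ) + (67108864 : ℕ)) / S) :
    TriA PP.cur (nearL (h0 * 0) 3 κ (h0 * x) (tbl tKN x) (tbl tL x)) 1 2 3 2 3 1 (-1) :=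
  (sideN hx hx').nearA (Or.inl rfl) (Or.inr rfl) fun y y' F =>
    nearA_cert (s1 := true) (s2 := false) rfl hκ covN21 covN32 hx hx'
        Pool.Agent.Strip051.G.I1_16_1_8.Tab.C.NA23.c_pm_123 noCut_A noExt_A F trivial trivial

theorem NA23_pm_133 {κ x : ℝ} (hκ : κ * h0 = ken x) (hx : ((67108864 : ℕ) : ℝ) / S ≤ x) (hx' : x ≤ (((67108864 : ℕ) : ℝ) + (67108864 : ℕ)) / S) :
    TriA PP.cur (nearL (h0 * 0) 3 κ (h0 * x) (tbl tKN x) (tbl tL x)) 1 3 3 2 3 1 (-1) :=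
  (sideN hx hx').nearA (Or.inl rfl) (Or.inr rfl) fun y y' F =>
    nearA_cert (s1 := true) (s2 := false) rfl hκ covN21 covN33 hx hx'
        Pool.Agent.Strip051.G.I1_16_1_8.Tab.C.NA23.c_pm_133 noCut_A noExt_A F trivial trivial

theorem NA23_pm_202 {κ x : ℝ} (hκ : κ * h0 = ken x) (hx : ((67108864 : ℕ) : ℝ) / S ≤ x) (hx' : x ≤ (((67108864 : ℕ) : ℝ) + (67108864 : ℕ)) / S) :
    TriA PP.cur (nearL (h0 * 0) 3 κ (h0 * x) (tbl tKN x) (tbl tL x)) 2 0 2 2 3 1 (-1) :=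
  (sideN hx hx').nearA (Or.inl rfl) (Or.inr rfl) fun y y' F =>
    (lt_or_ge (h0 * y) 1).elim
      (fun h => nearA_cert (s1 := true) (s2 := false) rfl hκ covN22a covN30 hx hx'
        Pool.Agent.Strip051.G.I1_16_1_8.Tab.C.NA23.c_pm_202_a noCut_A noExt_A F h trivial)
      (fun h => nearA_cert (s1 := true) (s2 := false) rfl hκ covN22b covN30 hx hx'
        Pool.Agent.Strip051.G.I1_16_1_8.Tab.C.NA23.c_pm_202_b noCut_A noExt_A F h trivial)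

theorem NA23_pm_203 {κ x : ℝ} (hκ : κ * h0 = ken x) (hx : ((67108864 : ℕ) : ℝ) / S ≤ x) (hx' : x ≤ (((67108864 : ℕ) : ℝ) + (67108864 : ℕ)) / S) :
    TriA PP.cur (nearL (h0 * 0) 3 κ (h0 * x) (tbl tKN x) (tbl tL x)) 2 0 3 2 3 1 (-1) :=
  (sideN hx hx').nearA (Or.inl rfl) (Or.inr rfl) fun y y' F =>
    (lt_or_ge (h0 * y) 1).elim
      (fun h => nearA_cert (s1 := true) (s2 := false) rfl hκ covN22a covN30 hx hx'
        Pool.Agent.Strip051.G.I1_16_1_8.Tab.C.NA23.c_pm_203_a noCut_A noExt_A F h trivial)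
      (fun h => nearA_cert (s1 := true) (s2 := false) rfl hκ covN22b covN30 hx hx'
        Pool.Agent.Strip051.G.I1_16_1_8.Tab.C.NA23.c_pm_203_b noCut_A noExt_A F h trivial)

theorem NA23_pm_213 {κ x : ℝ} (hκ : κ * h0 = ken x) (hx : ((67108864 : ℕ) : ℝ) / S ≤ x) (hx' : x ≤ (((67108864 : ℕ) : ℝ) + (67108864 : ℕ)) / S) :
    TriA PP.cur (nearL (h0 * 0) 3 κ (h0 * x) (tbl tKN x) (tbl tL x)) 2 1 3 2 3 1 (-1) :=
  (sideN hx hx').nearA (Or.inl rfl) (Or.inr rfl) fun y y' F =>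
    (lt_or_ge (h0 * y) 1).elim
      (fun h => nearA_cert (s1 := true) (s2 := false) rfl hκ covN22a covN31 hx hx'
        Pool.Agent.Strip051.G.I1_16_1_8.Tab.C.NA23.c_pm_213_a noCut_A noExt_A F h trivial)
      (fun h => nearA_cert (s1 := true) (s2 := false) rfl hκ covN22b covN31 hx hx'
        Pool.Agent.Strip051.G.I1_16_1_8.Tab.C.NA23.c_pm_213_b noCut_A noExt_A F h trivial)

theorem NA23_pm_303 {κ x : ℝ} (hκ : κ * h0 = ken x) (hx : ((67108864 : ℕ) : ℝ) / S ≤ x) (hx' : x ≤ (((67108864 : ℕ) : ℝ) + (67108864 : ℕ)) / S) :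
    TriA PP.cur (nearL (h0 * 0) 3 κ (h0 * x) (tbl tKN x) (tbl tL x)) 3 0 3 2 3 1 (-1) :=
  (sideN hx hx').nearA (Or.inl rfl) (Or.inr rfl) fun y y' F =>
    nearA_cert (s1 := true) (s2 := false) rfl hκ covN23 covN30 hx hx'
        Pool.Agent.Strip051.G.I1_16_1_8.Tab.C.NA23.c_pm_303 noCut_A noExt_A F trivial trivial

theorem NA23_pm_313 {κ x : ℝ} (hκ : κ * h0 = ken x) (hx : ((67108864 : ℕ) : ℝ) / S ≤ x) (hx' : x ≤ (((67108864 : ℕ) : ℝ) + (67108864 : ℕ)) / S) :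
    TriA PP.cur (nearL (h0 * 0) 3 κ (h0 * x) (tbl tKN x) (tbl tL x)) 3 1 3 2 3 1 (-1) :=
  (sideN hx hx').nearA (Or.inl rfl) (Or.inr rfl) fun y y' F =>
    nearA_cert (s1 := true) (s2 := false) rfl hκ covN23 covN31 hx hx'
        Pool.Agent.Strip051.G.I1_16_1_8.Tab.C.NA23.c_pm_313 noCut_A noExt_A F trivial trivial

theorem NA23_mm_001 {κ x : ℝ} (hκ : κ * h0 = ken x) (hx : ((67108864 : ℕ) : ℝ) / S ≤ x) (hx' : x ≤ (((67108864 : ℕ) : ℝ) + (67108864 : ℕ)) / S) :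
    TriA PP.cur (nearL (h0 * 0) 3 κ (h0 * x) (tbl tKN x) (tbl tL x)) 0 0 1 2 3 (-1) (-1) :=
  (sideN hx hx').nearA (Or.inr rfl) (Or.inr rfl) fun y y' F =>
    nearA_cert (s1 := false) (s2 := false) rfl hκ covN20 covN30 hx hx'
        Pool.Agent.Strip051.G.I1_16_1_8.Tab.C.NA23.c_mm_001 noCut_A noExt_A F trivial trivial

theorem NA23_mm_011 {κ x : ℝ} (hκ : κ * h0 = ken x) (hx : ((67108864 : ℕ) : ℝ) / S ≤ x) (hx' : x ≤ (((67108864 : ℕ) : ℝ) + (67108864 : ℕ)) / S) :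
    TriA PP.cur (nearL (h0 * 0) 3 κ (h0 * x) (tbl tKN x) (tbl tL x)) 0 1 1 2 3 (-1) (-1) :=
  (sideN hx hx').nearA (Or.inr rfl) (Or.inr rfl) fun y y' F =>
    nearA_cert (s1 := false) (s2 := false) rfl hκ covN20 covN31 hx hx'
        Pool.Agent.Strip051.G.I1_16_1_8.Tab.C.NA23.c_mm_011 noCut_A noExt_A F trivial trivial

theorem NA23_mm_012 {κ x : ℝ} (hκ : κ * h0 = ken x) (hx : ((67108864 : ℕ) : ℝ) / S ≤ x) (hx' : x ≤ (((67108864 : ℕ) : ℝ) + (67108864 : ℕ)) / S) :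
    TriA PP.cur (nearL (h0 * 0) 3 κ (h0 * x) (tbl tKN x) (tbl tL x)) 0 1 2 2 3 (-1) (-1) :=
  (sideN hx hx').nearA (Or.inr rfl) (Or.inr rfl) fun y y' F =>
    nearA_cert (s1 := false) (s2 := false) rfl hκ covN20 covN31 hx hx'
        Pool.Agent.Strip051.G.I1_16_1_8.Tab.C.NA23.c_mm_012 noCut_A noExt_A F trivial trivial

theorem NA23_mm_022 {κ x : ℝ} (hκ : κ * h0 = ken x) (hx : ((67108864 : ℕ) : ℝ) / S ≤ x) (hx' : x ≤ (((67108864 : ℕ) : ℝ) + (67108864 : ℕ)) / S) :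
    TriA PP.cur (nearL (h0 * 0) 3 κ (h0 * x) (tbl tKN x) (tbl tL x)) 0 2 2 2 3 (-1) (-1) :=
  (sideN hx hx').nearA (Or.inr rfl) (Or.inr rfl) fun y y' F =>
    nearA_cert (s1 := false) (s2 := false) rfl hκ covN20 covN32 hx hx'
        Pool.Agent.Strip051.G.I1_16_1_8.Tab.C.NA23.c_mm_022 noCut_A noExt_A F trivial trivial

theorem NA23_mm_023 {κ x : ℝ} (hκ : κ * h0 = ken x) (hx : ((67108864 : ℕ) : ℝ) / S ≤ x) (hx' : x ≤ (((67108864 : ℕ) : ℝ) + (67108864 : ℕ)) / S) :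
    TriA PP.cur (nearL (h0 * 0) 3 κ (h0 * x) (tbl tKN x) (tbl tL x)) 0 2 3 2 3 (-1) (-1) :=
  (sideN hx hx').nearA (Or.inr rfl) (Or.inr rfl) fun y y' F =>
    nearA_cert (s1 := false) (s2 := false) rfl hκ covN20 covN32 hx hx'
        Pool.Agent.Strip051.G.I1_16_1_8.Tab.C.NA23.c_mm_023 noCut_A noExt_A F trivial trivial

theorem NA23_mm_033 {κ x : ℝ} (hκ : κ * h0 = ken x) (hx : ((67108864 : ℕ) : ℝ) / S ≤ x) (hx' : x ≤ (((67108864 : ℕ) : ℝ) + (67108864 : ℕ)) / S) :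
    TriA PP.cur (nearL (h0 * 0) 3 κ (h0 * x) (tbl tKN x) (tbl tL x)) 0 3 3 2 3 (-1) (-1) :=
  (sideN hx hx').nearA (Or.inr rfl) (Or.inr rfl) fun y y' F =>
    nearA_cert (s1 := false) (s2 := false) rfl hκ covN20 covN33 hx hx'
        Pool.Agent.Strip051.G.I1_16_1_8.Tab.C.NA23.c_mm_033 noCut_A noExt_A F trivial trivial

theorem NA23_mm_101 {κ x : ℝ} (hκ : κ * h0 = ken x) (hx : ((67108864 : ℕ) : ℝ) / S ≤ x) (hx' : x ≤ (((67108864 : ℕ) : ℝ) + (67108864 : ℕ)) / S) :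
    TriA PP.cur (nearL (h0 * 0) 3 κ (h0 * x) (tbl tKN x) (tbl tL x)) 1 0 1 2 3 (-1) (-1) :=
  (sideN hx hx').nearA (Or.inr rfl) (Or.inr rfl) fun y y' F =>
    nearA_cert (s1 := false) (s2 := false) rfl hκ covN21 covN30 hx hx'
        Pool.Agent.Strip051.G.I1_16_1_8.Tab.C.NA23.c_mm_101 noCut_A noExt_A F trivial trivial

theorem NA23_mm_102 {κ x : ℝ} (hκ : κ * h0 = ken x) (hx : ((67108864 : ℕ) : ℝ) / S ≤ x) (hx' : x ≤ (((67108864 : ℕ) : ℝ) + (67108864 : ℕ)) / S) :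
    TriA PP.cur (nearL (h0 * 0) 3 κ (h0 * x) (tbl tKN x) (tbl tL x)) 1 0 2 2 3 (-1) (-1) :=
  (sideN hx hx').nearA (Or.inr rfl) (Or.inr rfl) fun y y' F =>
    nearA_cert (s1 := false) (s2 := false) rfl hκ covN21 covN30 hx hx'
        Pool.Agent.Strip051.G.I1_16_1_8.Tab.C.NA23.c_mm_102 noCut_A noExt_A F trivial trivial

theorem NA23_mm_112 {κ x : ℝ} (hκ : κ * h0 = ken x) (hx : ((67108864 : ℕ) : ℝ) / S ≤ x) (hx' : x ≤ (((67108864 : ℕ) : ℝ) + (67108864 : ℕ)) / S) :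
    TriA PP.cur (nearL (h0 * 0) 3 κ (h0 * x) (tbl tKN x) (tbl tL x)) 1 1 2 2 3 (-1) (-1) :=
  (sideN hx hx').nearA (Or.inr rfl) (Or.inr rfl) fun y y' F =>
    nearA_cert (s1 := false) (s2 := false) rfl hκ covN21 covN31 hx hx'
        Pool.Agent.Strip051.G.I1_16_1_8.Tab.C.NA23.c_mm_112 noCut_A noExt_A F trivial trivial

theorem NA23_mm_113 {κ x : ℝ} (hκ : κ * h0 = ken x) (hx : ((67108864 : ℕ) : ℝ) / S ≤ x) (hx' : x ≤ (((67108864 : ℕ) : ℝ) + (67108864 : ℕ)) / S) :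
    TriA PP.cur (nearL (h0 * 0) 3 κ (h0 * x) (tbl tKN x) (tbl tL x)) 1 1 3 2 3 (-1) (-1) :=
  (sideN hx hx').nearA (Or.inr rfl) (Or.inr rfl) fun y y' F =>
    nearA_cert (s1 := false) (s2 := false) rfl hκ covN21 covN31 hx hx'
        Pool.Agent.Strip051.G.I1_16_1_8.Tab.C.NA23.c_mm_113 noCut_A noExt_A F trivial trivial

theorem NA23_mm_123 {κ x : ℝ} (hκ : κ * h0 = ken x) (hx : ((67108864 : ℕ) : ℝ) / S ≤ x) (hx' : x ≤ (((67108864 : ℕ) : ℝ) + (67108864 : ℕ)) / S) :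
    TriA PP.cur (nearL (h0 * 0) 3 κ (h0 * x) (tbl tKN x) (tbl tL x)) 1 2 3 2 3 (-1) (-1) :=
  (sideN hx hx').nearA (Or.inr rfl) (Or.inr rfl) fun y y' F =>
    nearA_cert (s1 := false) (s2 := false) rfl hκ covN21 covN32 hx hx'
        Pool.Agent.Strip051.G.I1_16_1_8.Tab.C.NA23.c_mm_123 noCut_A noExt_A F trivial trivial

theorem NA23_mm_133 {κ x : ℝ} (hκ : κ * h0 = ken x) (hx : ((67108864 : ℕ) : ℝ) / S ≤ x) (hx' : x ≤ (((67108864 : ℕ) : ℝ) + (67108864 : ℕ)) / S) :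
    TriA PP.cur (nearL (h0 * 0) 3 κ (h0 * x) (tbl tKN x) (tbl tL x)) 1 3 3 2 3 (-1) (-1) :=
  (sideN hx hx').nearA (Or.inr rfl) (Or.inr rfl) fun y y' F =>
    nearA_cert (s1 := false) (s2 := false) rfl hκ covN21 covN33 hx hx'
        Pool.Agent.Strip051.G.I1_16_1_8.Tab.C.NA23.c_mm_133 noCut_A noExt_A F trivial trivial

theorem NA23_mm_202 {κ x : ℝ} (hκ : κ * h0 = ken x) (hx : ((67108864 : ℕ) : ℝ) / S ≤ x) (hx' : x ≤ (((67108864 : ℕ) : ℝ) + (67108864 : ℕ)) / S) :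
    TriA PP.cur (nearL (h0 * 0) 3 κ (h0 * x) (tbl tKN x) (tbl tL x)) 2 0 2 2 3 (-1) (-1) :=
  (sideN hx hx').nearA (Or.inr rfl) (Or.inr rfl) fun y y' F =>
    (lt_or_ge (h0 * y) 1).elim
      (fun h => nearA_cert (s1 := false) (s2 := false) rfl hκ covN22a covN30 hx hx'
        Pool.Agent.Strip051.G.I1_16_1_8.Tab.C.NA23.c_mm_202_a noCut_A noExt_A F h trivial)
      (fun h => nearA_cert (s1 := false) (s2 := false) rfl hκ covN22b covN30 hx hx'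
        Pool.Agent.Strip051.G.I1_16_1_8.Tab.C.NA23.c_mm_202_b noCut_A noExt_A F h trivial)

theorem NA23_mm_203 {κ x : ℝ} (hκ : κ * h0 = ken x) (hx : ((67108864 : ℕ) : ℝ) / S ≤ x) (hx' : x ≤ (((67108864 : ℕ) : ℝ) + (67108864 : ℕ)) / S) :
    TriA PP.cur (nearL (h0 * 0) 3 κ (h0 * x) (tbl tKN x) (tbl tL x)) 2 0 3 2 3 (-1) (-1) :=
  (sideN hx hx').nearA (Or.inr rfl) (Or.inr rfl) fun y y' F =>
    (lt_or_ge (h0 * y) 1).elim
      (fun h => nearA_cert (s1 := false) (s2 := false) rfl hκ covN22a covN30 hx hx'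
        Pool.Agent.Strip051.G.I1_16_1_8.Tab.C.NA23.c_mm_203_a noCut_A noExt_A F h trivial)
      (fun h => nearA_cert (s1 := false) (s2 := false) rfl hκ covN22b covN30 hx hx'
        Pool.Agent.Strip051.G.I1_16_1_8.Tab.C.NA23.c_mm_203_b noCut_A noExt_A F h trivial)

theorem NA23_mm_213 {κ x : ℝ} (hκ : κ * h0 = ken x) (hx : ((67108864 : ℕ) : ℝ) / S ≤ x) (hx' : x ≤ (((67108864 : ℕ) : ℝ) + (67108864 : ℕ)) / S) :
    TriA PP.cur (nearL (h0 * 0) 3 κ (h0 * x) (tbl tKN x) (tbl tL x)) 2 1 3 2 3 (-1) (-1) :=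
  (sideN hx hx').nearA (Or.inr rfl) (Or.inr rfl) fun y y' F =>
    (lt_or_ge (h0 * y) 1).elim
      (fun h => nearA_cert (s1 := false) (s2 := false) rfl hκ covN22a covN31 hx hx'
        Pool.Agent.Strip051.G.I1_16_1_8.Tab.C.NA23.c_mm_213_a noCut_A noExt_A F h trivial)
      (fun h => nearA_cert (s1 := false) (s2 := false) rfl hκ covN22b covN31 hx hx'
        Pool.Agent.Strip051.G.I1_16_1_8.Tab.C.NA23.c_mm_213_b noCut_A noExt_A F h trivial)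

theorem NA23_mm_303 {κ x : ℝ} (hκ : κ * h0 = ken x) (hx : ((67108864 : ℕ) : ℝ) / S ≤ x) (hx' : x ≤ (((67108864 : ℕ) : ℝ) + (67108864 : ℕ)) / S) :
    TriA PP.cur (nearL (h0 * 0) 3 κ (h0 * x) (tbl tKN x) (tbl tL x)) 3 0 3 2 3 (-1) (-1) :=
  (sideN hx hx').nearA (Or.inr rfl) (Or.inr rfl) fun y y' F =>
    nearA_cert (s1 := false) (s2 := false) rfl hκ covN23 covN30 hx hx'
        Pool.Agent.Strip051.G.I1_16_1_8.Tab.C.NA23.c_mm_303 noCut_A noExt_A F trivial trivial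

theorem NA23_mm_313 {κ x : ℝ} (hκ : κ * h0 = ken x) (hx : ((67108864 : ℕ) : ℝ) / S ≤ x) (hx' : x ≤ (((67108864 : ℕ) : ℝ) + (67108864 : ℕ)) / S) :
    TriA PP.cur (nearL (h0 * 0) 3 κ (h0 * x) (tbl tKN x) (tbl tL x)) 3 1 3 2 3 (-1) (-1) :=
  (sideN hx hx').nearA (Or.inr rfl) (Or.inr rfl) fun y y' F =>
    nearA_cert (s1 := false) (s2 := false) rfl hκ covN23 covN31 hx hx'
        Pool.Agent.Strip051.G.I1_16_1_8.Tab.C.NA23.c_mm_313 noCut_A noExt_A F trivial trivial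

theorem NA23 {κ x : ℝ} (hκ : κ * h0 = ken x) (hx : ((67108864 : ℕ) : ℝ) / S ≤ x) (hx' : x ≤ (((67108864 : ℕ) : ℝ) + (67108864 : ℕ)) / S) : AllTA PP.cur (nearL (h0 * 0) 3 κ (h0 * x) (tbl tKN x) (tbl tL x)) 2 3 where
  pp := all17 (Q := fun a b c => TriA PP.cur (nearL (h0 * 0) 3 κ (h0 * x) (tbl tKN x) (tbl tL x)) a b c 2 3 1 1)
    (NA23_pp_001 hκ hx hx') (NA23_pp_011 hκ hx hx') (NA23_pp_012 hκ hx hx') (NA23_pp_022 hκ hx hx') (NA23_pp_023 hκ hx hx') (NA23_pp_033 hκ hx hx') (NA23_pp_101 hκ hx hx') (NA23_pp_102 hκ hx hx') (NA23_pp_112 hκ hx hx') (NA23_pp_113 hκ hx hx') (NA23_pp_123 hκ hx hx') (NA23_pp_133 hκ hx hx') (NA23_pp_202 hκ hx hx') (NA23_pp_203 hκ hx hx') (NA23_pp_213 hκ hx hx') (NA23_pp_303 hκ hx hx') (NA23_pp_313 hκ hx hx')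
  pm := all17 (Q := fun a b c => TriA PP.cur (nearL (h0 * 0) 3 κ (h0 * x) (tbl tKN x) (tbl tL x)) a b c 2 3 1 (-1))
    (NA23_pm_001 hκ hx hx') (NA23_pm_011 hκ hx hx') (NA23_pm_012 hκ hx hx') (NA23_pm_022 hκ hx hx') (NA23_pm_023 hκ hx hx') (NA23_pm_033 hκ hx hx') (NA23_pm_101 hκ hx hx') (NA23_pm_102 hκ hx hx') (NA23_pm_112 hκ hx hx') (NA23_pm_113 hκ hx hx') (NA23_pm_123 hκ hx hx') (NA23_pm_133 hκ hx hx') (NA23_pm_202 hκ hx hx') (NA23_pm_203 hκ hx hx') (NA23_pm_213 hκ hx hx') (NA23_pm_303 hκ hx hx') (NA23_pm_313 hκ hx hx')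
  mm := all17 (Q := fun a b c => TriA PP.cur (nearL (h0 * 0) 3 κ (h0 * x) (tbl tKN x) (tbl tL x)) a b c 2 3 (-1) (-1))
    (NA23_mm_001 hκ hx hx') (NA23_mm_011 hκ hx hx') (NA23_mm_012 hκ hx hx') (NA23_mm_022 hκ hx hx') (NA23_mm_023 hκ hx hx') (NA23_mm_033 hκ hx hx') (NA23_mm_101 hκ hx hx') (NA23_mm_102 hκ hx hx') (NA23_mm_112 hκ hx hx') (NA23_mm_113 hκ hx hx') (NA23_mm_123 hκ hx hx') (NA23_mm_133 hκ hx hx') (NA23_mm_202 hκ hx hx') (NA23_mm_203 hκ hx hx') (NA23_mm_213 hκ hx hx') (NA23_mm_303 hκ hx hx') (NA23_mm_313 hκ hx hx')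

theorem NA24_pp_001 {κ x : ℝ} (hκ : κ * h0 = ken x) (hx : ((67108864 : ℕ) : ℝ) / S ≤ x) (hx' : x ≤ (((67108864 : ℕ) : ℝ) + (67108864 : ℕ)) / S) :
    TriA PP.cur (nearL (h0 * 0) 3 κ (h0 * x) (tbl tKN x) (tbl tL x)) 0 0 1 2 4 1 1 :=
  (sideN hx hx').nearA (Or.inl rfl) (Or.inl rfl) fun y y' F =>
    nearA_cert (s1 := true) (s2 := true) rfl hκ covN20 covN40 hx hx'
        Pool.Agent.Strip051.G.I1_16_1_8.Tab.C.NA24.c_pp_001 noCut_A noExt_A F trivial trivial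

theorem NA24_pp_011 {κ x : ℝ} (hκ : κ * h0 = ken x) (hx : ((67108864 : ℕ) : ℝ) / S ≤ x) (hx' : x ≤ (((67108864 : ℕ) : ℝ) + (67108864 : ℕ)) / S) :
    TriA PP.cur (nearL (h0 * 0) 3 κ (h0 * x) (tbl tKN x) (tbl tL x)) 0 1 1 2 4 1 1 :=
  (sideN hx hx').nearA (Or.inl rfl) (Or.inl rfl) fun y y' F =>
    nearA_cert (s1 := true) (s2 := true) rfl hκ covN20 covN41 hx hx'
        Pool.Agent.Strip051.G.I1_16_1_8.Tab.C.NA24.c_pp_011 noCut_A noExt_A F trivial trivial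

theorem NA24_pp_012 {κ x : ℝ} (hκ : κ * h0 = ken x) (hx : ((67108864 : ℕ) : ℝ) / S ≤ x) (hx' : x ≤ (((67108864 : ℕ) : ℝ) + (67108864 : ℕ)) / S) :
    TriA PP.cur (nearL (h0 * 0) 3 κ (h0 * x) (tbl tKN x) (tbl tL x)) 0 1 2 2 4 1 1 :=
  (sideN hx hx').nearA (Or.inl rfl) (Or.inl rfl) fun y y' F =>
    nearA_cert (s1 := true) (s2 := true) rfl hκ covN20 covN41 hx hx'
        Pool.Agent.Strip051.G.I1_16_1_8.Tab.C.NA24.c_pp_012 noCut_A noExt_A F trivial trivial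

theorem NA24_pp_022 {κ x : ℝ} (hκ : κ * h0 = ken x) (hx : ((67108864 : ℕ) : ℝ) / S ≤ x) (hx' : x ≤ (((67108864 : ℕ) : ℝ) + (67108864 : ℕ)) / S) :
    TriA PP.cur (nearL (h0 * 0) 3 κ (h0 * x) (tbl tKN x) (tbl tL x)) 0 2 2 2 4 1 1 :=
  (sideN hx hx').nearA (Or.inl rfl) (Or.inl rfl) fun y y' F =>
    nearA_cert (s1 := true) (s2 := true) rfl hκ covN20 covN42 hx hx'
        Pool.Agent.Strip051.G.I1_16_1_8.Tab.C.NA24.c_pp_022 noCut_A noExt_A F trivial trivial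

theorem NA24_pp_023 {κ x : ℝ} (hκ : κ * h0 = ken x) (hx : ((67108864 : ℕ) : ℝ) / S ≤ x) (hx' : x ≤ (((67108864 : ℕ) : ℝ) + (67108864 : ℕ)) / S) :
    TriA PP.cur (nearL (h0 * 0) 3 κ (h0 * x) (tbl tKN x) (tbl tL x)) 0 2 3 2 4 1 1 :=
  (sideN hx hx').nearA (Or.inl rfl) (Or.inl rfl) fun y y' F =>
    nearA_cert (s1 := true) (s2 := true) rfl hκ covN20 covN42 hx hx'
        Pool.Agent.Strip051.G.I1_16_1_8.Tab.C.NA24.c_pp_023 noCut_A noExt_A F trivial trivial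

theorem NA24_pp_033 {κ x : ℝ} (hκ : κ * h0 = ken x) (hx : ((67108864 : ℕ) : ℝ) / S ≤ x) (hx' : x ≤ (((67108864 : ℕ) : ℝ) + (67108864 : ℕ)) / S) :
    TriA PP.cur (nearL (h0 * 0) 3 κ (h0 * x) (tbl tKN x) (tbl tL x)) 0 3 3 2 4 1 1 :=
  (sideN hx hx').nearA (Or.inl rfl) (Or.inl rfl) fun y y' F =>
    nearA_cert (s1 := true) (s2 := true) rfl hκ covN20 covN43 hx hx'
        Pool.Agent.Strip051.G.I1_16_1_8.Tab.C.NA24.c_pp_033 noCut_A noExt_A F trivial trivial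

theorem NA24_pp_101 {κ x : ℝ} (hκ : κ * h0 = ken x) (hx : ((67108864 : ℕ) : ℝ) / S ≤ x) (hx' : x ≤ (((67108864 : ℕ) : ℝ) + (67108864 : ℕ)) / S) :
    TriA PP.cur (nearL (h0 * 0) 3 κ (h0 * x) (tbl tKN x) (tbl tL x)) 1 0 1 2 4 1 1 :=
  (sideN hx hx').nearA (Or.inl rfl) (Or.inl rfl) fun y y' F =>
    nearA_cert (s1 := true) (s2 := true) rfl hκ covN21 covN40 hx hx'
        Pool.Agent.Strip051.G.I1_16_1_8.Tab.C.NA24.c_pp_101 noCut_A noExt_A F trivial trivial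

theorem NA24_pp_102 {κ x : ℝ} (hκ : κ * h0 = ken x) (hx : ((67108864 : ℕ) : ℝ) / S ≤ x) (hx' : x ≤ (((67108864 : ℕ) : ℝ) + (67108864 : ℕ)) / S) :
    TriA PP.cur (nearL (h0 * 0) 3 κ (h0 * x) (tbl tKN x) (tbl tL x)) 1 0 2 2 4 1 1 :=
  (sideN hx hx').nearA (Or.inl rfl) (Or.inl rfl) fun y y' F =>
    nearA_cert (s1 := true) (s2 := true) rfl hκ covN21 covN40 hx hx'
        Pool.Agent.Strip051.G.I1_16_1_8.Tab.C.NA24.c_pp_102 noCut_A noExt_A F trivial trivial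

theorem NA24_pp_112 {κ x : ℝ} (hκ : κ * h0 = ken x) (hx : ((67108864 : ℕ) : ℝ) / S ≤ x) (hx' : x ≤ (((67108864 : ℕ) : ℝ) + (67108864 : ℕ)) / S) :
    TriA PP.cur (nearL (h0 * 0) 3 κ (h0 * x) (tbl tKN x) (tbl tL x)) 1 1 2 2 4 1 1 :=
  (sideN hx hx').nearA (Or.inl rfl) (Or.inl rfl) fun y y' F =>
    nearA_cert (s1 := true) (s2 := true) rfl hκ covN21 covN41 hx hx'
        Pool.Agent.Strip051.G.I1_16_1_8.Tab.C.NA24.c_pp_112 noCut_A noExt_A F trivial trivial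

theorem NA24_pp_113 {κ x : ℝ} (hκ : κ * h0 = ken x) (hx : ((67108864 : ℕ) : ℝ) / S ≤ x) (hx' : x ≤ (((67108864 : ℕ) : ℝ) + (67108864 : ℕ)) / S) :
    TriA PP.cur (nearL (h0 * 0) 3 κ (h0 * x) (tbl tKN x) (tbl tL x)) 1 1 3 2 4 1 1 :=
  (sideN hx hx').nearA (Or.inl rfl) (Or.inl rfl) fun y y' F =>
    nearA_cert (s1 := true) (s2 := true) rfl hκ covN21 covN41 hx hx'
        Pool.Agent.Strip051.G.I1_16_1_8.Tab.C.NA24.c_pp_113 noCut_A noExt_A F trivial trivial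

theorem NA24_pp_123 {κ x : ℝ} (hκ : κ * h0 = ken x) (hx : ((67108864 : ℕ) : ℝ) / S ≤ x) (hx' : x ≤ (((67108864 : ℕ) : ℝ) + (67108864 : ℕ)) / S) :
    TriA PP.cur (nearL (h0 * 0) 3 κ (h0 * x) (tbl tKN x) (tbl tL x)) 1 2 3 2 4 1 1 :=
  (sideN hx hx').nearA (Or.inl rfl) (Or.inl rfl) fun y y' F =>
    nearA_cert (s1 := true) (s2 := true) rfl hκ covN21 covN42 hx hx'
        Pool.Agent.Strip051.G.I1_16_1_8.Tab.C.NA24.c_pp_123 noCut_A noExt_A F trivial trivial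

theorem NA24_pp_133 {κ x : ℝ} (hκ : κ * h0 = ken x) (hx : ((67108864 : ℕ) : ℝ) / S ≤ x) (hx' : x ≤ (((67108864 : ℕ) : ℝ) + (67108864 : ℕ)) / S) :
    TriA PP.cur (nearL (h0 * 0) 3 κ (h0 * x) (tbl tKN x) (tbl tL x)) 1 3 3 2 4 1 1 :=
  (sideN hx hx').nearA (Or.inl rfl) (Or.inl rfl) fun y y' F =>
    nearA_cert (s1 := true) (s2 := true) rfl hκ covN21 covN43 hx hx'
        Pool.Agent.Strip051.G.I1_16_1_8.Tab.C.NA24.c_pp_133 noCut_A noExt_A F trivial trivial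

theorem NA24_pp_202 {κ x : ℝ} (hκ : κ * h0 = ken x) (hx : ((67108864 : ℕ) : ℝ) / S ≤ x) (hx' : x ≤ (((67108864 : ℕ) : ℝ) + (67108864 : ℕ)) / S) :
    TriA PP.cur (nearL (h0 * 0) 3 κ (h0 * x) (tbl tKN x) (tbl tL x)) 2 0 2 2 4 1 1 :=
  (sideN hx hx').nearA (Or.inl rfl) (Or.inl rfl) fun y y' F =>
    (lt_or_ge (h0 * y) 1).elim
      (fun h => nearA_cert (s1 := true) (s2 := true) rfl hκ covN22a covN40 hx hx'
        Pool.Agent.Strip051.G.I1_16_1_8.Tab.C.NA24.c_pp_202_a noCut_A noExt_A F h trivial)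
      (fun h => nearA_cert (s1 := true) (s2 := true) rfl hκ covN22b covN40 hx hx'
        Pool.Agent.Strip051.G.I1_16_1_8.Tab.C.NA24.c_pp_202_b noCut_A noExt_A F h trivial)

theorem NA24_pp_203 {κ x : ℝ} (hκ : κ * h0 = ken x) (hx : ((67108864 : ℕ) : ℝ) / S ≤ x) (hx' : x ≤ (((67108864 : ℕ) : ℝ) + (67108864 : ℕ)) / S) :
    TriA PP.cur (nearL (h0 * 0) 3 κ (h0 * x) (tbl tKN x) (tbl tL x)) 2 0 3 2 4 1 1 :=
  (sideN hx hx').nearA (Or.inl rfl) (Or.inl rfl) fun y y' F =>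
    (lt_or_ge (h0 * y) 1).elim
      (fun h => nearA_cert (s1 := true) (s2 := true) rfl hκ covN22a covN40 hx hx'
        Pool.Agent.Strip051.G.I1_16_1_8.Tab.C.NA24.c_pp_203_a noCut_A noExt_A F h trivial)
      (fun h => nearA_cert (s1 := true) (s2 := true) rfl hκ covN22b covN40 hx hx'
        Pool.Agent.Strip051.G.I1_16_1_8.Tab.C.NA24.c_pp_203_b noCut_A noExt_A F h trivial)

theorem NA24_pp_213 {κ x : ℝ} (hκ : κ * h0 = ken x) (hx : ((67108864 : ℕ) : ℝ) / S ≤ x) (hx' : x ≤ (((67108864 : ℕ) : ℝ) + (67108864 : ℕ)) / S) :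
    TriA PP.cur (nearL (h0 * 0) 3 κ (h0 * x) (tbl tKN x) (tbl tL x)) 2 1 3 2 4 1 1 :=
  (sideN hx hx').nearA (Or.inl rfl) (Or.inl rfl) fun y y' F =>
    (lt_or_ge (h0 * y) 1).elim
      (fun h => nearA_cert (s1 := true) (s2 := true) rfl hκ covN22a covN41 hx hx'
        Pool.Agent.Strip051.G.I1_16_1_8.Tab.C.NA24.c_pp_213_a noCut_A noExt_A F h trivial)
      (fun h => nearA_cert (s1 := true) (s2 := true) rfl hκ covN22b covN41 hx hx'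
        Pool.Agent.Strip051.G.I1_16_1_8.Tab.C.NA24.c_pp_213_b noCut_A noExt_A F h trivial)

theorem NA24_pp_303 {κ x : ℝ} (hκ : κ * h0 = ken x) (hx : ((67108864 : ℕ) : ℝ) / S ≤ x) (hx' : x ≤ (((67108864 : ℕ) : ℝ) + (67108864 : ℕ)) / S) :
    TriA PP.cur (nearL (h0 * 0) 3 κ (h0 * x) (tbl tKN x) (tbl tL x)) 3 0 3 2 4 1 1 :=
  (sideN hx hx').nearA (Or.inl rfl) (Or.inl rfl) fun y y' F =>
    nearA_cert (s1 := true) (s2 := true) rfl hκ covN23 covN40 hx hx'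
        Pool.Agent.Strip051.G.I1_16_1_8.Tab.C.NA24.c_pp_303 noCut_A noExt_A F trivial trivial

theorem NA24_pp_313 {κ x : ℝ} (hκ : κ * h0 = ken x) (hx : ((67108864 : ℕ) : ℝ) / S ≤ x) (hx' : x ≤ (((67108864 : ℕ) : ℝ) + (67108864 : ℕ)) / S) :
    TriA PP.cur (nearL (h0 * 0) 3 κ (h0 * x) (tbl tKN x) (tbl tL x)) 3 1 3 2 4 1 1 :=
  (sideN hx hx').nearA (Or.inl rfl) (Or.inl rfl) fun y y' F =>
    nearA_cert (s1 := true) (s2 := true) rfl hκ covN23 covN41 hx hx'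
        Pool.Agent.Strip051.G.I1_16_1_8.Tab.C.NA24.c_pp_313 noCut_A noExt_A F trivial trivial

theorem NA24_pm_001 {κ x : ℝ} (hκ : κ * h0 = ken x) (hx : ((67108864 : ℕ) : ℝ) / S ≤ x) (hx' : x ≤ (((67108864 : ℕ) : ℝ) + (67108864 : ℕ)) / S) :
    TriA PP.cur (nearL (h0 * 0) 3 κ (h0 * x) (tbl tKN x) (tbl tL x)) 0 0 1 2 4 1 (-1) :=
  (sideN hx hx').nearA (Or.inl rfl) (Or.inr rfl) fun y y' F =>
    nearA_cert (s1 := true) (s2 := false) rfl hκ covN20 covN40 hx hx'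
        Pool.Agent.Strip051.G.I1_16_1_8.Tab.C.NA24.c_pm_001 noCut_A noExt_A F trivial trivial

theorem NA24_pm_011 {κ x : ℝ} (hκ : κ * h0 = ken x) (hx : ((67108864 : ℕ) : ℝ) / S ≤ x) (hx' : x ≤ (((67108864 : ℕ) : ℝ) + (67108864 : ℕ)) / S) :
    TriA PP.cur (nearL (h0 * 0) 3 κ (h0 * x) (tbl tKN x) (tbl tL x)) 0 1 1 2 4 1 (-1) :=
  (sideN hx hx').nearA (Or.inl rfl) (Or.inr rfl) fun y y' F =>
    nearA_cert (s1 := true) (s2 := false) rfl hκ covN20 covN41 hx hx'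
        Pool.Agent.Strip051.G.I1_16_1_8.Tab.C.NA24.c_pm_011 (cutA_cons (Pool.Agent.Strip051.G.I1_16_1_8.Tab.altN_A011R_24 hκ hx hx') cutA_nil) noExt_A F trivial trivial

theorem NA24_pm_012 {κ x : ℝ} (hκ : κ * h0 = ken x) (hx : ((67108864 : ℕ) : ℝ) / S ≤ x) (hx' : x ≤ (((67108864 : ℕ) : ℝ) + (67108864 : ℕ)) / S) :
    TriA PP.cur (nearL (h0 * 0) 3 κ (h0 * x) (tbl tKN x) (tbl tL x)) 0 1 2 2 4 1 (-1) :=
  (sideN hx hx').nearA (Or.inl rfl) (Or.inr rfl) fun y y' F =>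
    nearA_cert (s1 := true) (s2 := false) rfl hκ covN20 covN41 hx hx'
        Pool.Agent.Strip051.G.I1_16_1_8.Tab.C.NA24.c_pm_012 (cutA_cons (Pool.Agent.Strip051.G.I1_16_1_8.Tab.altN_A012R_24 hκ hx hx') cutA_nil) noExt_A F trivial trivial

theorem NA24_pm_022 {κ x : ℝ} (hκ : κ * h0 = ken x) (hx : ((67108864 : ℕ) : ℝ) / S ≤ x) (hx' : x ≤ (((67108864 : ℕ) : ℝ) + (67108864 : ℕ)) / S) :
    TriA PP.cur (nearL (h0 * 0) 3 κ (h0 * x) (tbl tKN x) (tbl tL x)) 0 2 2 2 4 1 (-1) :=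
  (sideN hx hx').nearA (Or.inl rfl) (Or.inr rfl) fun y y' F =>
    nearA_cert (s1 := true) (s2 := false) rfl hκ covN20 covN42 hx hx'
        Pool.Agent.Strip051.G.I1_16_1_8.Tab.C.NA24.c_pm_022 (cutA_cons (Pool.Agent.Strip051.G.I1_16_1_8.Tab.altN_A022R_24 hκ hx hx') cutA_nil) noExt_A F trivial trivial

theorem NA24_pm_023 {κ x : ℝ} (hκ : κ * h0 = ken x) (hx : ((67108864 : ℕ) : ℝ) / S ≤ x) (hx' : x ≤ (((67108864 : ℕ) : ℝ) + (67108864 : ℕ)) / S) :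
    TriA PP.cur (nearL (h0 * 0) 3 κ (h0 * x) (tbl tKN x) (tbl tL x)) 0 2 3 2 4 1 (-1) :=
  (sideN hx hx').nearA (Or.inl rfl) (Or.inr rfl) fun y y' F =>
    nearA_cert (s1 := true) (s2 := false) rfl hκ covN20 covN42 hx hx'
        Pool.Agent.Strip051.G.I1_16_1_8.Tab.C.NA24.c_pm_023 noCut_A noExt_A F trivial trivial

theorem NA24_pm_033 {κ x : ℝ} (hκ : κ * h0 = ken x) (hx : ((67108864 : ℕ) : ℝ) / S ≤ x) (hx' : x ≤ (((67108864 : ℕ) : ℝ) + (67108864 : ℕ)) / S) :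
    TriA PP.cur (nearL (h0 * 0) 3 κ (h0 * x) (tbl tKN x) (tbl tL x)) 0 3 3 2 4 1 (-1) :=
  (sideN hx hx').nearA (Or.inl rfl) (Or.inr rfl) fun y y' F =>
    nearA_cert (s1 := true) (s2 := false) rfl hκ covN20 covN43 hx hx'
        Pool.Agent.Strip051.G.I1_16_1_8.Tab.C.NA24.c_pm_033 noCut_A noExt_A F trivial trivial

theorem NA24_pm_101 {κ x : ℝ} (hκ : κ * h0 = ken x) (hx : ((67108864 : ℕ) : ℝ) / S ≤ x) (hx' : x ≤ (((67108864 : ℕ) : ℝ) + (67108864 : ℕ)) / S) :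
    TriA PP.cur (nearL (h0 * 0) 3 κ (h0 * x) (tbl tKN x) (tbl tL x)) 1 0 1 2 4 1 (-1) :=
  (sideN hx hx').nearA (Or.inl rfl) (Or.inr rfl) fun y y' F =>
    nearA_cert (s1 := true) (s2 := false) rfl hκ covN21 covN40 hx hx'
        Pool.Agent.Strip051.G.I1_16_1_8.Tab.C.NA24.c_pm_101 noCut_A noExt_A F trivial trivial

theorem NA24_pm_102 {κ x : ℝ} (hκ : κ * h0 = ken x) (hx : ((67108864 : ℕ) : ℝ) / S ≤ x) (hx' : x ≤ (((67108864 : ℕ) : ℝ) + (67108864 : ℕ)) / S) :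
    TriA PP.cur (nearL (h0 * 0) 3 κ (h0 * x) (tbl tKN x) (tbl tL x)) 1 0 2 2 4 1 (-1) :=
  (sideN hx hx').nearA (Or.inl rfl) (Or.inr rfl) fun y y' F =>
    nearA_cert (s1 := true) (s2 := false) rfl hκ covN21 covN40 hx hx'
        Pool.Agent.Strip051.G.I1_16_1_8.Tab.C.NA24.c_pm_102 noCut_A noExt_A F trivial trivial

theorem NA24_pm_112 {κ x : ℝ} (hκ : κ * h0 = ken x) (hx : ((67108864 : ℕ) : ℝ) / S ≤ x) (hx' : x ≤ (((67108864 : ℕ) : ℝ) + (67108864 : ℕ)) / S) :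
    TriA PP.cur (nearL (h0 * 0) 3 κ (h0 * x) (tbl tKN x) (tbl tL x)) 1 1 2 2 4 1 (-1) :=
  (sideN hx hx').nearA (Or.inl rfl) (Or.inr rfl) fun y y' F =>
    nearA_cert (s1 := true) (s2 := false) rfl hκ covN21 covN41 hx hx'
        Pool.Agent.Strip051.G.I1_16_1_8.Tab.C.NA24.c_pm_112 noCut_A noExt_A F trivial trivial

theorem NA24_pm_113 {κ x : ℝ} (hκ : κ * h0 = ken x) (hx : ((67108864 : ℕ) : ℝ) / S ≤ x) (hx' : x ≤ (((67108864 : ℕ) : ℝ) + (67108864 : ℕ)) / S) :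
    TriA PP.cur (nearL (h0 * 0) 3 κ (h0 * x) (tbl tKN x) (tbl tL x)) 1 1 3 2 4 1 (-1) :=
  (sideN hx hx').nearA (Or.inl rfl) (Or.inr rfl) fun y y' F =>
    nearA_cert (s1 := true) (s2 := false) rfl hκ covN21 covN41 hx hx'
        Pool.Agent.Strip051.G.I1_16_1_8.Tab.C.NA24.c_pm_113 noCut_A noExt_A F trivial trivial

theorem NA24_pm_123 {κ x : ℝ} (hκ : κ * h0 = ken x) (hx : ((67108864 : ℕ) : ℝ) / S ≤ x) (hx' : x ≤ (((67108864 : ℕ) : ℝ) + (67108864 : ℕ)) / S) :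
    TriA PP.cur (nearL (h0 * 0) 3 κ (h0 * x) (tbl tKN x) (tbl tL x)) 1 2 3 2 4 1 (-1) :=
  (sideN hx hx').nearA (Or.inl rfl) (Or.inr rfl) fun y y' F =>
    nearA_cert (s1 := true) (s2 := false) rfl hκ covN21 covN42 hx hx'
        Pool.Agent.Strip051.G.I1_16_1_8.Tab.C.NA24.c_pm_123 noCut_A noExt_A F trivial trivial

theorem NA24_pm_133 {κ x : ℝ} (hκ : κ * h0 = ken x) (hx : ((67108864 : ℕ) : ℝ) / S ≤ x) (hx' : x ≤ (((67108864 : ℕ) : ℝ) + (67108864 : ℕ)) / S) :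
    TriA PP.cur (nearL (h0 * 0) 3 κ (h0 * x) (tbl tKN x) (tbl tL x)) 1 3 3 2 4 1 (-1) :=
  (sideN hx hx').nearA (Or.inl rfl) (Or.inr rfl) fun y y' F =>
    nearA_cert (s1 := true) (s2 := false) rfl hκ covN21 covN43 hx hx'
        Pool.Agent.Strip051.G.I1_16_1_8.Tab.C.NA24.c_pm_133 noCut_A noExt_A F trivial trivial

theorem NA24_pm_202 {κ x : ℝ} (hκ : κ * h0 = ken x) (hx : ((67108864 : ℕ) : ℝ) / S ≤ x) (hx' : x ≤ (((67108864 : ℕ) : ℝ) + (67108864 : ℕ)) / S) :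
    TriA PP.cur (nearL (h0 * 0) 3 κ (h0 * x) (tbl tKN x) (tbl tL x)) 2 0 2 2 4 1 (-1) :=
  (sideN hx hx').nearA (Or.inl rfl) (Or.inr rfl) fun y y' F =>
    (lt_or_ge (h0 * y) 1).elim
      (fun h => nearA_cert (s1 := true) (s2 := false) rfl hκ covN22a covN40 hx hx'
        Pool.Agent.Strip051.G.I1_16_1_8.Tab.C.NA24.c_pm_202_a noCut_A noExt_A F h trivial)
      (fun h => nearA_cert (s1 := true) (s2 := false) rfl hκ covN22b covN40 hx hx'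
        Pool.Agent.Strip051.G.I1_16_1_8.Tab.C.NA24.c_pm_202_b noCut_A noExt_A F h trivial)

theorem NA24_pm_203 {κ x : ℝ} (hκ : κ * h0 = ken x) (hx : ((67108864 : ℕ) : ℝ) / S ≤ x) (hx' : x ≤ (((67108864 : ℕ) : ℝ) + (67108864 : ℕ)) / S) :
    TriA PP.cur (nearL (h0 * 0) 3 κ (h0 * x) (tbl tKN x) (tbl tL x)) 2 0 3 2 4 1 (-1) :=
  (sideN hx hx').nearA (Or.inl rfl) (Or.inr rfl) fun y y' F =>
    (lt_or_ge (h0 * y) 1).elim
      (fun h => nearA_cert (s1 := true) (s2 := false) rfl hκ covN22a covN40 hx hx'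
        Pool.Agent.Strip051.G.I1_16_1_8.Tab.C.NA24.c_pm_203_a noCut_A noExt_A F h trivial)
      (fun h => nearA_cert (s1 := true) (s2 := false) rfl hκ covN22b covN40 hx hx'
        Pool.Agent.Strip051.G.I1_16_1_8.Tab.C.NA24.c_pm_203_b noCut_A noExt_A F h trivial)

theorem NA24_pm_213 {κ x : ℝ} (hκ : κ * h0 = ken x) (hx : ((67108864 : ℕ) : ℝ) / S ≤ x) (hx' : x ≤ (((67108864 : ℕ) : ℝ) + (67108864 : ℕ)) / S) :
    TriA PP.cur (nearL (h0 * 0) 3 κ (h0 * x) (tbl tKN x) (tbl tL x)) 2 1 3 2 4 1 (-1) :=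
  (sideN hx hx').nearA (Or.inl rfl) (Or.inr rfl) fun y y' F =>
    (lt_or_ge (h0 * y) 1).elim
      (fun h => nearA_cert (s1 := true) (s2 := false) rfl hκ covN22a covN41 hx hx'
        Pool.Agent.Strip051.G.I1_16_1_8.Tab.C.NA24.c_pm_213_a noCut_A noExt_A F h trivial)
      (fun h => nearA_cert (s1 := true) (s2 := false) rfl hκ covN22b covN41 hx hx'
        Pool.Agent.Strip051.G.I1_16_1_8.Tab.C.NA24.c_pm_213_b noCut_A noExt_A F h trivial)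

theorem NA24_pm_303 {κ x : ℝ} (hκ : κ * h0 = ken x) (hx : ((67108864 : ℕ) : ℝ) / S ≤ x) (hx' : x ≤ (((67108864 : ℕ) : ℝ) + (67108864 : ℕ)) / S) :
    TriA PP.cur (nearL (h0 * 0) 3 κ (h0 * x) (tbl tKN x) (tbl tL x)) 3 0 3 2 4 1 (-1) :=
  (sideN hx hx').nearA (Or.inl rfl) (Or.inr rfl) fun y y' F =>
    nearA_cert (s1 := true) (s2 := false) rfl hκ covN23 covN40 hx hx'
        Pool.Agent.Strip051.G.I1_16_1_8.Tab.C.NA24.c_pm_303 noCut_A noExt_A F trivial trivial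

theorem NA24_pm_313 {κ x : ℝ} (hκ : κ * h0 = ken x) (hx : ((67108864 : ℕ) : ℝ) / S ≤ x) (hx' : x ≤ (((67108864 : ℕ) : ℝ) + (67108864 : ℕ)) / S) :
    TriA PP.cur (nearL (h0 * 0) 3 κ (h0 * x) (tbl tKN x) (tbl tL x)) 3 1 3 2 4 1 (-1) :=
  (sideN hx hx').nearA (Or.inl rfl) (Or.inr rfl) fun y y' F =>
    nearA_cert (s1 := true) (s2 := false) rfl hκ covN23 covN41 hx hx'
        Pool.Agent.Strip051.G.I1_16_1_8.Tab.C.NA24.c_pm_313 noCut_A noExt_A F trivial trivial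

theorem NA24_mm_001 {κ x : ℝ} (hκ : κ * h0 = ken x) (hx : ((67108864 : ℕ) : ℝ) / S ≤ x) (hx' : x ≤ (((67108864 : ℕ) : ℝ) + (67108864 : ℕ)) / S) :
    TriA PP.cur (nearL (h0 * 0) 3 κ (h0 * x) (tbl tKN x) (tbl tL x)) 0 0 1 2 4 (-1) (-1) :=
  (sideN hx hx').nearA (Or.inr rfl) (Or.inr rfl) fun y y' F =>
    nearA_cert (s1 := false) (s2 := false) rfl hκ covN20 covN40 hx hx'
        Pool.Agent.Strip051.G.I1_16_1_8.Tab.C.NA24.c_mm_001 noCut_A noExt_A F trivial trivial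

theorem NA24_mm_011 {κ x : ℝ} (hκ : κ * h0 = ken x) (hx : ((67108864 : ℕ) : ℝ) / S ≤ x) (hx' : x ≤ (((67108864 : ℕ) : ℝ) + (67108864 : ℕ)) / S) :
    TriA PP.cur (nearL (h0 * 0) 3 κ (h0 * x) (tbl tKN x) (tbl tL x)) 0 1 1 2 4 (-1) (-1) :=
  (sideN hx hx').nearA (Or.inr rfl) (Or.inr rfl) fun y y' F =>
    nearA_cert (s1 := false) (s2 := false) rfl hκ covN20 covN41 hx hx'
        Pool.Agent.Strip051.G.I1_16_1_8.Tab.C.NA24.c_mm_011 noCut_A noExt_A F trivial trivial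

theorem NA24_mm_012 {κ x : ℝ} (hκ : κ * h0 = ken x) (hx : ((67108864 : ℕ) : ℝ) / S ≤ x) (hx' : x ≤ (((67108864 : ℕ) : ℝ) + (67108864 : ℕ)) / S) :
    TriA PP.cur (nearL (h0 * 0) 3 κ (h0 * x) (tbl tKN x) (tbl tL x)) 0 1 2 2 4 (-1) (-1) :=
  (sideN hx hx').nearA (Or.inr rfl) (Or.inr rfl) fun y y' F =>
    nearA_cert (s1 := false) (s2 := false) rfl hκ covN20 covN41 hx hx'
        Pool.Agent.Strip051.G.I1_16_1_8.Tab.C.NA24.c_mm_012 noCut_A noExt_A F trivial trivial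

theorem NA24_mm_022 {κ x : ℝ} (hκ : κ * h0 = ken x) (hx : ((67108864 : ℕ) : ℝ) / S ≤ x) (hx' : x ≤ (((67108864 : ℕ) : ℝ) + (67108864 : ℕ)) / S) :
    TriA PP.cur (nearL (h0 * 0) 3 κ (h0 * x) (tbl tKN x) (tbl tL x)) 0 2 2 2 4 (-1) (-1) :=
  (sideN hx hx').nearA (Or.inr rfl) (Or.inr rfl) fun y y' F =>
    nearA_cert (s1 := false) (s2 := false) rfl hκ covN20 covN42 hx hx'
        Pool.Agent.Strip051.G.I1_16_1_8.Tab.C.NA24.c_mm_022 noCut_A noExt_A F trivial trivial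

theorem NA24_mm_023 {κ x : ℝ} (hκ : κ * h0 = ken x) (hx : ((67108864 : ℕ) : ℝ) / S ≤ x) (hx' : x ≤ (((67108864 : ℕ) : ℝ) + (67108864 : ℕ)) / S) :
    TriA PP.cur (nearL (h0 * 0) 3 κ (h0 * x) (tbl tKN x) (tbl tL x)) 0 2 3 2 4 (-1) (-1) :=
  (sideN hx hx').nearA (Or.inr rfl) (Or.inr rfl) fun y y' F =>
    nearA_cert (s1 := false) (s2 := false) rfl hκ covN20 covN42 hx hx'
        Pool.Agent.Strip051.G.I1_16_1_8.Tab.C.NA24.c_mm_023 noCut_A noExt_A F trivial trivial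

theorem NA24_mm_033 {κ x : ℝ} (hκ : κ * h0 = ken x) (hx : ((67108864 : ℕ) : ℝ) / S ≤ x) (hx' : x ≤ (((67108864 : ℕ) : ℝ) + (67108864 : ℕ)) / S) :
    TriA PP.cur (nearL (h0 * 0) 3 κ (h0 * x) (tbl tKN x) (tbl tL x)) 0 3 3 2 4 (-1) (-1) :=
  (sideN hx hx').nearA (Or.inr rfl) (Or.inr rfl) fun y y' F =>
    nearA_cert (s1 := false) (s2 := false) rfl hκ covN20 covN43 hx hx'
        Pool.Agent.Strip051.G.I1_16_1_8.Tab.C.NA24.c_mm_033 noCut_A noExt_A F trivial trivial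

theorem NA24_mm_101 {κ x : ℝ} (hκ : κ * h0 = ken x) (hx : ((67108864 : ℕ) : ℝ) / S ≤ x) (hx' : x ≤ (((67108864 : ℕ) : ℝ) + (67108864 : ℕ)) / S) :
    TriA PP.cur (nearL (h0 * 0) 3 κ (h0 * x) (tbl tKN x) (tbl tL x)) 1 0 1 2 4 (-1) (-1) :=
  (sideN hx hx').nearA (Or.inr rfl) (Or.inr rfl) fun y y' F =>
    nearA_cert (s1 := false) (s2 := false) rfl hκ covN21 covN40 hx hx'
        Pool.Agent.Strip051.G.I1_16_1_8.Tab.C.NA24.c_mm_101 noCut_A noExt_A F trivial trivial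

theorem NA24_mm_102 {κ x : ℝ} (hκ : κ * h0 = ken x) (hx : ((67108864 : ℕ) : ℝ) / S ≤ x) (hx' : x ≤ (((67108864 : ℕ) : ℝ) + (67108864 : ℕ)) / S) :
    TriA PP.cur (nearL (h0 * 0) 3 κ (h0 * x) (tbl tKN x) (tbl tL x)) 1 0 2 2 4 (-1) (-1) :=
  (sideN hx hx').nearA (Or.inr rfl) (Or.inr rfl) fun y y' F =>
    nearA_cert (s1 := false) (s2 := false) rfl hκ covN21 covN40 hx hx'
        Pool.Agent.Strip051.G.I1_16_1_8.Tab.C.NA24.c_mm_102 noCut_A noExt_A F trivial trivial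

theorem NA24_mm_112 {κ x : ℝ} (hκ : κ * h0 = ken x) (hx : ((67108864 : ℕ) : ℝ) / S ≤ x) (hx' : x ≤ (((67108864 : ℕ) : ℝ) + (67108864 : ℕ)) / S) :
    TriA PP.cur (nearL (h0 * 0) 3 κ (h0 * x) (tbl tKN x) (tbl tL x)) 1 1 2 2 4 (-1) (-1) :=
  (sideN hx hx').nearA (Or.inr rfl) (Or.inr rfl) fun y y' F =>
    nearA_cert (s1 := false) (s2 := false) rfl hκ covN21 covN41 hx hx'
        Pool.Agent.Strip051.G.I1_16_1_8.Tab.C.NA24.c_mm_112 noCut_A noExt_A F trivial trivial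

theorem NA24_mm_113 {κ x : ℝ} (hκ : κ * h0 = ken x) (hx : ((67108864 : ℕ) : ℝ) / S ≤ x) (hx' : x ≤ (((67108864 : ℕ) : ℝ) + (67108864 : ℕ)) / S) :
    TriA PP.cur (nearL (h0 * 0) 3 κ (h0 * x) (tbl tKN x) (tbl tL x)) 1 1 3 2 4 (-1) (-1) :=
  (sideN hx hx').nearA (Or.inr rfl) (Or.inr rfl) fun y y' F =>
    nearA_cert (s1 := false) (s2 := false) rfl hκ covN21 covN41 hx hx'
        Pool.Agent.Strip051.G.I1_16_1_8.Tab.C.NA24.c_mm_113 noCut_A noExt_A F trivial trivial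

theorem NA24_mm_123 {κ x : ℝ} (hκ : κ * h0 = ken x) (hx : ((67108864 : ℕ) : ℝ) / S ≤ x) (hx' : x ≤ (((67108864 : ℕ) : ℝ) + (67108864 : ℕ)) / S) :
    TriA PP.cur (nearL (h0 * 0) 3 κ (h0 * x) (tbl tKN x) (tbl tL x)) 1 2 3 2 4 (-1) (-1) :=
  (sideN hx hx').nearA (Or.inr rfl) (Or.inr rfl) fun y y' F =>
    nearA_cert (s1 := false) (s2 := false) rfl hκ covN21 covN42 hx hx'
        Pool.Agent.Strip051.G.I1_16_1_8.Tab.C.NA24.c_mm_123 noCut_A noExt_A F trivial trivial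

theorem NA24_mm_133 {κ x : ℝ} (hκ : κ * h0 = ken x) (hx : ((67108864 : ℕ) : ℝ) / S ≤ x) (hx' : x ≤ (((67108864 : ℕ) : ℝ) + (67108864 : ℕ)) / S) :
    TriA PP.cur (nearL (h0 * 0) 3 κ (h0 * x) (tbl tKN x) (tbl tL x)) 1 3 3 2 4 (-1) (-1) :=
  (sideN hx hx').nearA (Or.inr rfl) (Or.inr rfl) fun y y' F =>
    nearA_cert (s1 := false) (s2 := false) rfl hκ covN21 covN43 hx hx'
        Pool.Agent.Strip051.G.I1_16_1_8.Tab.C.NA24.c_mm_133 noCut_A noExt_A F trivial trivial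

theorem NA24_mm_202 {κ x : ℝ} (hκ : κ * h0 = ken x) (hx : ((67108864 : ℕ) : ℝ) / S ≤ x) (hx' : x ≤ (((67108864 : ℕ) : ℝ) + (67108864 : ℕ)) / S) :
    TriA PP.cur (nearL (h0 * 0) 3 κ (h0 * x) (tbl tKN x) (tbl tL x)) 2 0 2 2 4 (-1) (-1) :=
  (sideN hx hx').nearA (Or.inr rfl) (Or.inr rfl) fun y y' F =>
    (lt_or_ge (h0 * y) 1).elim
      (fun h => nearA_cert (s1 := false) (s2 := false) rfl hκ covN22a covN40 hx hx'
        Pool.Agent.Strip051.G.I1_16_1_8.Tab.C.NA24.c_mm_202_a noCut_A noExt_A F h trivial)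
      (fun h => nearA_cert (s1 := false) (s2 := false) rfl hκ covN22b covN40 hx hx'
        Pool.Agent.Strip051.G.I1_16_1_8.Tab.C.NA24.c_mm_202_b noCut_A noExt_A F h trivial)

theorem NA24_mm_203 {κ x : ℝ} (hκ : κ * h0 = ken x) (hx : ((67108864 : ℕ) : ℝ) / S ≤ x) (hx' : x ≤ (((67108864 : ℕ) : ℝ) + (67108864 : ℕ)) / S) :
    TriA PP.cur (nearL (h0 * 0) 3 κ (h0 * x) (tbl tKN x) (tbl tL x)) 2 0 3 2 4 (-1) (-1) :=
  (sideN hx hx').nearA (Or.inr rfl) (Or.inr rfl) fun y y' F =>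
    (lt_or_ge (h0 * y) 1).elim
      (fun h => nearA_cert (s1 := false) (s2 := false) rfl hκ covN22a covN40 hx hx'
        Pool.Agent.Strip051.G.I1_16_1_8.Tab.C.NA24.c_mm_203_a noCut_A noExt_A F h trivial)
      (fun h => nearA_cert (s1 := false) (s2 := false) rfl hκ covN22b covN40 hx hx'
        Pool.Agent.Strip051.G.I1_16_1_8.Tab.C.NA24.c_mm_203_b noCut_A noExt_A F h trivial)

theorem NA24_mm_213 {κ x : ℝ} (hκ : κ * h0 = ken x) (hx : ((67108864 : ℕ) : ℝ) / S ≤ x) (hx' : x ≤ (((67108864 : ℕ) : ℝ) + (67108864 : ℕ)) / S) :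
    TriA PP.cur (nearL (h0 * 0) 3 κ (h0 * x) (tbl tKN x) (tbl tL x)) 2 1 3 2 4 (-1) (-1) :=
  (sideN hx hx').nearA (Or.inr rfl) (Or.inr rfl) fun y y' F =>
    (lt_or_ge (h0 * y) 1).elim
      (fun h => nearA_cert (s1 := false) (s2 := false) rfl hκ covN22a covN41 hx hx'
        Pool.Agent.Strip051.G.I1_16_1_8.Tab.C.NA24.c_mm_213_a noCut_A noExt_A F h trivial)
      (fun h => nearA_cert (s1 := false) (s2 := false) rfl hκ covN22b covN41 hx hx'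
        Pool.Agent.Strip051.G.I1_16_1_8.Tab.C.NA24.c_mm_213_b noCut_A noExt_A F h trivial)

theorem NA24_mm_303 {κ x : ℝ} (hκ : κ * h0 = ken x) (hx : ((67108864 : ℕ) : ℝ) / S ≤ x) (hx' : x ≤ (((67108864 : ℕ) : ℝ) + (67108864 : ℕ)) / S) :
    TriA PP.cur (nearL (h0 * 0) 3 κ (h0 * x) (tbl tKN x) (tbl tL x)) 3 0 3 2 4 (-1) (-1) :=
  (sideN hx hx').nearA (Or.inr rfl) (Or.inr rfl) fun y y' F =>
    nearA_cert (s1 := false) (s2 := false) rfl hκ covN23 covN40 hx hx'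
        Pool.Agent.Strip051.G.I1_16_1_8.Tab.C.NA24.c_mm_303 noCut_A noExt_A F trivial trivial

theorem NA24_mm_313 {κ x : ℝ} (hκ : κ * h0 = ken x) (hx : ((67108864 : ℕ) : ℝ) / S ≤ x) (hx' : x ≤ (((67108864 : ℕ) : ℝ) + (67108864 : ℕ)) / S) :
    TriA PP.cur (nearL (h0 * 0) 3 κ (h0 * x) (tbl tKN x) (tbl tL x)) 3 1 3 2 4 (-1) (-1) :=
  (sideN hx hx').nearA (Or.inr rfl) (Or.inr rfl) fun y y' F =>
    nearA_cert (s1 := false) (s2 := false) rfl hκ covN23 covN41 hx hx'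
        Pool.Agent.Strip051.G.I1_16_1_8.Tab.C.NA24.c_mm_313 noCut_A noExt_A F trivial trivial

theorem NA24 {κ x : ℝ} (hκ : κ * h0 = ken x) (hx : ((67108864 : ℕ) : ℝ) / S ≤ x) (hx' : x ≤ (((67108864 : ℕ) : ℝ) + (67108864 : ℕ)) / S) : AllTA PP.cur (nearL (h0 * 0) 3 κ (h0 * x) (tbl tKN x) (tbl tL x)) 2 4 where
  pp := all17 (Q := fun a b c => TriA PP.cur (nearL (h0 * 0) 3 κ (h0 * x) (tbl tKN x) (tbl tL x)) a b c 2 4 1 1)
    (NA24_pp_001 hκ hx hx') (NA24_pp_011 hκ hx hx') (NA24_pp_012 hκ hx hx') (NA24_pp_022 hκ hx hx') (NA24_pp_023 hκ hx hx') (NA24_pp_033 hκ hx hx') (NA24_pp_101 hκ hx hx') (NA24_pp_102 hκ hx hx') (NA24_pp_112 hκ hx hx') (NA24_pp_113 hκ hx hx') (NA24_pp_123 hκ hx hx') (NA24_pp_133 hκ hx hx') (NA24_pp_202 hκ hx hx') (NA24_pp_203 hκ hx hx') (NA24_pp_213 hκ hx hx') (NA24_pp_303 hκ hx hx') (NA24_pp_313 hκ hx hx')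
  pm := all17 (Q := fun a b c => TriA PP.cur (nearL (h0 * 0) 3 κ (h0 * x) (tbl tKN x) (tbl tL x)) a b c 2 4 1 (-1))
    (NA24_pm_001 hκ hx hx') (NA24_pm_011 hκ hx hx') (NA24_pm_012 hκ hx hx') (NA24_pm_022 hκ hx hx') (NA24_pm_023 hκ hx hx') (NA24_pm_033 hκ hx hx') (NA24_pm_101 hκ hx hx') (NA24_pm_102 hκ hx hx') (NA24_pm_112 hκ hx hx') (NA24_pm_113 hκ hx hx') (NA24_pm_123 hκ hx hx') (NA24_pm_133 hκ hx hx') (NA24_pm_202 hκ hx hx') (NA24_pm_203 hκ hx hx') (NA24_pm_213 hκ hx hx') (NA24_pm_303 hκ hx hx') (NA24_pm_313 hκ hx hx')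
  mm := all17 (Q := fun a b c => TriA PP.cur (nearL (h0 * 0) 3 κ (h0 * x) (tbl tKN x) (tbl tL x)) a b c 2 4 (-1) (-1))
    (NA24_mm_001 hκ hx hx') (NA24_mm_011 hκ hx hx') (NA24_mm_012 hκ hx hx') (NA24_mm_022 hκ hx hx') (NA24_mm_023 hκ hx hx') (NA24_mm_033 hκ hx hx') (NA24_mm_101 hκ hx hx') (NA24_mm_102 hκ hx hx') (NA24_mm_112 hκ hx hx') (NA24_mm_113 hκ hx hx') (NA24_mm_123 hκ hx hx') (NA24_mm_133 hκ hx hx') (NA24_mm_202 hκ hx hx') (NA24_mm_203 hκ hx hx') (NA24_mm_213 hκ hx hx') (NA24_mm_303 hκ hx hx') (NA24_mm_313 hκ hx hx')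

theorem NA33_pp_001 {κ x : ℝ} (hκ : κ * h0 = ken x) (hx : ((67108864 : ℕ) : ℝ) / S ≤ x) (hx' : x ≤ (((67108864 : ℕ) : ℝ) + (67108864 : ℕ)) / S) :
    TriA PP.cur (nearL (h0 * 0) 3 κ (h0 * x) (tbl tKN x) (tbl tL x)) 0 0 1 3 3 1 1 :=
  (sideN hx hx').nearA (Or.inl rfl) (Or.inl rfl) fun y y' F =>
    nearA_cert (s1 := true) (s2 := true) rfl hκ covN30 covN30 hx hx'
        Pool.Agent.Strip051.G.I1_16_1_8.Tab.C.NA33.c_pp_001 noCut_A noExt_A F trivial trivial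

theorem NA33_pp_011 {κ x : ℝ} (hκ : κ * h0 = ken x) (hx : ((67108864 : ℕ) : ℝ) / S ≤ x) (hx' : x ≤ (((67108864 : ℕ) : ℝ) + (67108864 : ℕ)) / S) :
    TriA PP.cur (nearL (h0 * 0) 3 κ (h0 * x) (tbl tKN x) (tbl tL x)) 0 1 1 3 3 1 1 :=
  (sideN hx hx').nearA (Or.inl rfl) (Or.inl rfl) fun y y' F =>
    nearA_cert (s1 := true) (s2 := true) rfl hκ covN30 covN31 hx hx'
        Pool.Agent.Strip051.G.I1_16_1_8.Tab.C.NA33.c_pp_011 noCut_A noExt_A F trivial trivial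

theorem NA33_pp_012 {κ x : ℝ} (hκ : κ * h0 = ken x) (hx : ((67108864 : ℕ) : ℝ) / S ≤ x) (hx' : x ≤ (((67108864 : ℕ) : ℝ) + (67108864 : ℕ)) / S) :
    TriA PP.cur (nearL (h0 * 0) 3 κ (h0 * x) (tbl tKN x) (tbl tL x)) 0 1 2 3 3 1 1 :=
  (sideN hx hx').nearA (Or.inl rfl) (Or.inl rfl) fun y y' F =>
    nearA_cert (s1 := true) (s2 := true) rfl hκ covN30 covN31 hx hx'
        Pool.Agent.Strip051.G.I1_16_1_8.Tab.C.NA33.c_pp_012 noCut_A noExt_A F trivial trivial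

theorem NA33_pp_022 {κ x : ℝ} (hκ : κ * h0 = ken x) (hx : ((67108864 : ℕ) : ℝ) / S ≤ x) (hx' : x ≤ (((67108864 : ℕ) : ℝ) + (67108864 : ℕ)) / S) :
    TriA PP.cur (nearL (h0 * 0) 3 κ (h0 * x) (tbl tKN x) (tbl tL x)) 0 2 2 3 3 1 1 :=
  (sideN hx hx').nearA (Or.inl rfl) (Or.inl rfl) fun y y' F =>
    nearA_cert (s1 := true) (s2 := true) rfl hκ covN30 covN32 hx hx'
        Pool.Agent.Strip051.G.I1_16_1_8.Tab.C.NA33.c_pp_022 noCut_A noExt_A F trivial trivial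

theorem NA33_pp_023 {κ x : ℝ} (hκ : κ * h0 = ken x) (hx : ((67108864 : ℕ) : ℝ) / S ≤ x) (hx' : x ≤ (((67108864 : ℕ) : ℝ) + (67108864 : ℕ)) / S) :
    TriA PP.cur (nearL (h0 * 0) 3 κ (h0 * x) (tbl tKN x) (tbl tL x)) 0 2 3 3 3 1 1 :=
  (sideN hx hx').nearA (Or.inl rfl) (Or.inl rfl) fun y y' F =>
    nearA_cert (s1 := true) (s2 := true) rfl hκ covN30 covN32 hx hx'
        Pool.Agent.Strip051.G.I1_16_1_8.Tab.C.NA33.c_pp_023 noCut_A noExt_A F trivial trivial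

theorem NA33_pp_033 {κ x : ℝ} (hκ : κ * h0 = ken x) (hx : ((67108864 : ℕ) : ℝ) / S ≤ x) (hx' : x ≤ (((67108864 : ℕ) : ℝ) + (67108864 : ℕ)) / S) :
    TriA PP.cur (nearL (h0 * 0) 3 κ (h0 * x) (tbl tKN x) (tbl tL x)) 0 3 3 3 3 1 1 :=
  (sideN hx hx').nearA (Or.inl rfl) (Or.inl rfl) fun y y' F =>
    nearA_cert (s1 := true) (s2 := true) rfl hκ covN30 covN33 hx hx'
        Pool.Agent.Strip051.G.I1_16_1_8.Tab.C.NA33.c_pp_033 noCut_A noExt_A F trivial trivial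

theorem NA33_pp_101 {κ x : ℝ} (hκ : κ * h0 = ken x) (hx : ((67108864 : ℕ) : ℝ) / S ≤ x) (hx' : x ≤ (((67108864 : ℕ) : ℝ) + (67108864 : ℕ)) / S) :
    TriA PP.cur (nearL (h0 * 0) 3 κ (h0 * x) (tbl tKN x) (tbl tL x)) 1 0 1 3 3 1 1 :=
  (sideN hx hx').nearA (Or.inl rfl) (Or.inl rfl) fun y y' F =>
    nearA_cert (s1 := true) (s2 := true) rfl hκ covN31 covN30 hx hx'
        Pool.Agent.Strip051.G.I1_16_1_8.Tab.C.NA33.c_pp_101 noCut_A noExt_A F trivial trivial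

theorem NA33_pp_102 {κ x : ℝ} (hκ : κ * h0 = ken x) (hx : ((67108864 : ℕ) : ℝ) / S ≤ x) (hx' : x ≤ (((67108864 : ℕ) : ℝ) + (67108864 : ℕ)) / S) :
    TriA PP.cur (nearL (h0 * 0) 3 κ (h0 * x) (tbl tKN x) (tbl tL x)) 1 0 2 3 3 1 1 :=
  (sideN hx hx').nearA (Or.inl rfl) (Or.inl rfl) fun y y' F =>
    nearA_cert (s1 := true) (s2 := true) rfl hκ covN31 covN30 hx hx'
        Pool.Agent.Strip051.G.I1_16_1_8.Tab.C.NA33.c_pp_102 noCut_A noExt_A F trivial trivial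

theorem NA33_pp_112 {κ x : ℝ} (hκ : κ * h0 = ken x) (hx : ((67108864 : ℕ) : ℝ) / S ≤ x) (hx' : x ≤ (((67108864 : ℕ) : ℝ) + (67108864 : ℕ)) / S) :
    TriA PP.cur (nearL (h0 * 0) 3 κ (h0 * x) (tbl tKN x) (tbl tL x)) 1 1 2 3 3 1 1 :=
  (sideN hx hx').nearA (Or.inl rfl) (Or.inl rfl) fun y y' F =>
    nearA_cert (s1 := true) (s2 := true) rfl hκ covN31 covN31 hx hx'
        Pool.Agent.Strip051.G.I1_16_1_8.Tab.C.NA33.c_pp_112 noCut_A noExt_A F trivial trivial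

theorem NA33_pp_113 {κ x : ℝ} (hκ : κ * h0 = ken x) (hx : ((67108864 : ℕ) : ℝ) / S ≤ x) (hx' : x ≤ (((67108864 : ℕ) : ℝ) + (67108864 : ℕ)) / S) :
    TriA PP.cur (nearL (h0 * 0) 3 κ (h0 * x) (tbl tKN x) (tbl tL x)) 1 1 3 3 3 1 1 :=
  (sideN hx hx').nearA (Or.inl rfl) (Or.inl rfl) fun y y' F =>
    nearA_cert (s1 := true) (s2 := true) rfl hκ covN31 covN31 hx hx'
        Pool.Agent.Strip051.G.I1_16_1_8.Tab.C.NA33.c_pp_113 noCut_A noExt_A F trivial trivial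

theorem NA33_pp_123 {κ x : ℝ} (hκ : κ * h0 = ken x) (hx : ((67108864 : ℕ) : ℝ) / S ≤ x) (hx' : x ≤ (((67108864 : ℕ) : ℝ) + (67108864 : ℕ)) / S) :
    TriA PP.cur (nearL (h0 * 0) 3 κ (h0 * x) (tbl tKN x) (tbl tL x)) 1 2 3 3 3 1 1 :=
  (sideN hx hx').nearA (Or.inl rfl) (Or.inl rfl) fun y y' F =>
    nearA_cert (s1 := true) (s2 := true) rfl hκ covN31 covN32 hx hx'
        Pool.Agent.Strip051.G.I1_16_1_8.Tab.C.NA33.c_pp_123 noCut_A noExt_A F trivial trivial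

theorem NA33_pp_133 {κ x : ℝ} (hκ : κ * h0 = ken x) (hx : ((67108864 : ℕ) : ℝ) / S ≤ x) (hx' : x ≤ (((67108864 : ℕ) : ℝ) + (67108864 : ℕ)) / S) :
    TriA PP.cur (nearL (h0 * 0) 3 κ (h0 * x) (tbl tKN x) (tbl tL x)) 1 3 3 3 3 1 1 :=
  (sideN hx hx').nearA (Or.inl rfl) (Or.inl rfl) fun y y' F =>
    nearA_cert (s1 := true) (s2 := true) rfl hκ covN31 covN33 hx hx'
        Pool.Agent.Strip051.G.I1_16_1_8.Tab.C.NA33.c_pp_133 noCut_A noExt_A F trivial trivial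

theorem NA33_pp_202 {κ x : ℝ} (hκ : κ * h0 = ken x) (hx : ((67108864 : ℕ) : ℝ) / S ≤ x) (hx' : x ≤ (((67108864 : ℕ) : ℝ) + (67108864 : ℕ)) / S) :
    TriA PP.cur (nearL (h0 * 0) 3 κ (h0 * x) (tbl tKN x) (tbl tL x)) 2 0 2 3 3 1 1 :=
  (sideN hx hx').nearA (Or.inl rfl) (Or.inl rfl) fun y y' F =>
    nearA_cert (s1 := true) (s2 := true) rfl hκ covN32 covN30 hx hx'
        Pool.Agent.Strip051.G.I1_16_1_8.Tab.C.NA33.c_pp_202 noCut_A noExt_A F trivial trivial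

theorem NA33_pp_203 {κ x : ℝ} (hκ : κ * h0 = ken x) (hx : ((67108864 : ℕ) : ℝ) / S ≤ x) (hx' : x ≤ (((67108864 : ℕ) : ℝ) + (67108864 : ℕ)) / S) :
    TriA PP.cur (nearL (h0 * 0) 3 κ (h0 * x) (tbl tKN x) (tbl tL x)) 2 0 3 3 3 1 1 :=
  (sideN hx hx').nearA (Or.inl rfl) (Or.inl rfl) fun y y' F =>
    nearA_cert (s1 := true) (s2 := true) rfl hκ covN32 covN30 hx hx'
        Pool.Agent.Strip051.G.I1_16_1_8.Tab.C.NA33.c_pp_203 noCut_A noExt_A F trivial trivial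

theorem NA33_pp_213 {κ x : ℝ} (hκ : κ * h0 = ken x) (hx : ((67108864 : ℕ) : ℝ) / S ≤ x) (hx' : x ≤ (((67108864 : ℕ) : ℝ) + (67108864 : ℕ)) / S) :
    TriA PP.cur (nearL (h0 * 0) 3 κ (h0 * x) (tbl tKN x) (tbl tL x)) 2 1 3 3 3 1 1 :=
  (sideN hx hx').nearA (Or.inl rfl) (Or.inl rfl) fun y y' F =>
    nearA_cert (s1 := true) (s2 := true) rfl hκ covN32 covN31 hx hx'
        Pool.Agent.Strip051.G.I1_16_1_8.Tab.C.NA33.c_pp_213 noCut_A noExt_A F trivial trivial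

theorem NA33_pp_303 {κ x : ℝ} (hκ : κ * h0 = ken x) (hx : ((67108864 : ℕ) : ℝ) / S ≤ x) (hx' : x ≤ (((67108864 : ℕ) : ℝ) + (67108864 : ℕ)) / S) :
    TriA PP.cur (nearL (h0 * 0) 3 κ (h0 * x) (tbl tKN x) (tbl tL x)) 3 0 3 3 3 1 1 :=
  (sideN hx hx').nearA (Or.inl rfl) (Or.inl rfl) fun y y' F =>
    nearA_cert (s1 := true) (s2 := true) rfl hκ covN33 covN30 hx hx'
        Pool.Agent.Strip051.G.I1_16_1_8.Tab.C.NA33.c_pp_303 noCut_A noExt_A F trivial trivial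

theorem NA33_pp_313 {κ x : ℝ} (hκ : κ * h0 = ken x) (hx : ((67108864 : ℕ) : ℝ) / S ≤ x) (hx' : x ≤ (((67108864 : ℕ) : ℝ) + (67108864 : ℕ)) / S) :
    TriA PP.cur (nearL (h0 * 0) 3 κ (h0 * x) (tbl tKN x) (tbl tL x)) 3 1 3 3 3 1 1 :=
  (sideN hx hx').nearA (Or.inl rfl) (Or.inl rfl) fun y y' F =>
    nearA_cert (s1 := true) (s2 := true) rfl hκ covN33 covN31 hx hx'
        Pool.Agent.Strip051.G.I1_16_1_8.Tab.C.NA33.c_pp_313 noCut_A noExt_A F trivial trivial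

theorem NA33_pm_001 {κ x : ℝ} (hκ : κ * h0 = ken x) (hx : ((67108864 : ℕ) : ℝ) / S ≤ x) (hx' : x ≤ (((67108864 : ℕ) : ℝ) + (67108864 : ℕ)) / S) :
    TriA PP.cur (nearL (h0 * 0) 3 κ (h0 * x) (tbl tKN x) (tbl tL x)) 0 0 1 3 3 1 (-1) :=
  (sideN hx hx').nearA (Or.inl rfl) (Or.inr rfl) fun y y' F =>
    nearA_cert (s1 := true) (s2 := false) rfl hκ covN30 covN30 hx hx'
        Pool.Agent.Strip051.G.I1_16_1_8.Tab.C.NA33.c_pm_001 noCut_A noExt_A F trivial trivial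

theorem NA33_pm_011 {κ x : ℝ} (hκ : κ * h0 = ken x) (hx : ((67108864 : ℕ) : ℝ) / S ≤ x) (hx' : x ≤ (((67108864 : ℕ) : ℝ) + (67108864 : ℕ)) / S) :
    TriA PP.cur (nearL (h0 * 0) 3 κ (h0 * x) (tbl tKN x) (tbl tL x)) 0 1 1 3 3 1 (-1) :=
  (sideN hx hx').nearA (Or.inl rfl) (Or.inr rfl) fun y y' F =>
    nearA_cert (s1 := true) (s2 := false) rfl hκ covN30 covN31 hx hx'
        Pool.Agent.Strip051.G.I1_16_1_8.Tab.C.NA33.c_pm_011 noCut_A noExt_A F trivial trivial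

theorem NA33_pm_012 {κ x : ℝ} (hκ : κ * h0 = ken x) (hx : ((67108864 : ℕ) : ℝ) / S ≤ x) (hx' : x ≤ (((67108864 : ℕ) : ℝ) + (67108864 : ℕ)) / S) :
    TriA PP.cur (nearL (h0 * 0) 3 κ (h0 * x) (tbl tKN x) (tbl tL x)) 0 1 2 3 3 1 (-1) :=
  (sideN hx hx').nearA (Or.inl rfl) (Or.inr rfl) fun y y' F =>
    nearA_cert (s1 := true) (s2 := false) rfl hκ covN30 covN31 hx hx'
        Pool.Agent.Strip051.G.I1_16_1_8.Tab.C.NA33.c_pm_012 noCut_A noExt_A F trivial trivial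

theorem NA33_pm_022 {κ x : ℝ} (hκ : κ * h0 = ken x) (hx : ((67108864 : ℕ) : ℝ) / S ≤ x) (hx' : x ≤ (((67108864 : ℕ) : ℝ) + (67108864 : ℕ)) / S) :
    TriA PP.cur (nearL (h0 * 0) 3 κ (h0 * x) (tbl tKN x) (tbl tL x)) 0 2 2 3 3 1 (-1) :=
  (sideN hx hx').nearA (Or.inl rfl) (Or.inr rfl) fun y y' F =>
    nearA_cert (s1 := true) (s2 := false) rfl hκ covN30 covN32 hx hx'
        Pool.Agent.Strip051.G.I1_16_1_8.Tab.C.NA33.c_pm_022 noCut_A noExt_A F trivial trivial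

theorem NA33_pm_023 {κ x : ℝ} (hκ : κ * h0 = ken x) (hx : ((67108864 : ℕ) : ℝ) / S ≤ x) (hx' : x ≤ (((67108864 : ℕ) : ℝ) + (67108864 : ℕ)) / S) :
    TriA PP.cur (nearL (h0 * 0) 3 κ (h0 * x) (tbl tKN x) (tbl tL x)) 0 2 3 3 3 1 (-1) :=
  (sideN hx hx').nearA (Or.inl rfl) (Or.inr rfl) fun y y' F =>
    nearA_cert (s1 := true) (s2 := false) rfl hκ covN30 covN32 hx hx'
        Pool.Agent.Strip051.G.I1_16_1_8.Tab.C.NA33.c_pm_023 noCut_A noExt_A F trivial trivial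

theorem NA33_pm_033 {κ x : ℝ} (hκ : κ * h0 = ken x) (hx : ((67108864 : ℕ) : ℝ) / S ≤ x) (hx' : x ≤ (((67108864 : ℕ) : ℝ) + (67108864 : ℕ)) / S) :
    TriA PP.cur (nearL (h0 * 0) 3 κ (h0 * x) (tbl tKN x) (tbl tL x)) 0 3 3 3 3 1 (-1) :=
  (sideN hx hx').nearA (Or.inl rfl) (Or.inr rfl) fun y y' F =>
    nearA_cert (s1 := true) (s2 := false) rfl hκ covN30 covN33 hx hx'
        Pool.Agent.Strip051.G.I1_16_1_8.Tab.C.NA33.c_pm_033 noCut_A noExt_A F trivial trivial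

theorem NA33_pm_101 {κ x : ℝ} (hκ : κ * h0 = ken x) (hx : ((67108864 : ℕ) : ℝ) / S ≤ x) (hx' : x ≤ (((67108864 : ℕ) : ℝ) + (67108864 : ℕ)) / S) :
    TriA PP.cur (nearL (h0 * 0) 3 κ (h0 * x) (tbl tKN x) (tbl tL x)) 1 0 1 3 3 1 (-1) :=
  (sideN hx hx').nearA (Or.inl rfl) (Or.inr rfl) fun y y' F =>
    nearA_cert (s1 := true) (s2 := false) rfl hκ covN31 covN30 hx hx'
        Pool.Agent.Strip051.G.I1_16_1_8.Tab.C.NA33.c_pm_101 noCut_A noExt_A F trivial trivial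

theorem NA33_pm_102 {κ x : ℝ} (hκ : κ * h0 = ken x) (hx : ((67108864 : ℕ) : ℝ) / S ≤ x) (hx' : x ≤ (((67108864 : ℕ) : ℝ) + (67108864 : ℕ)) / S) :
    TriA PP.cur (nearL (h0 * 0) 3 κ (h0 * x) (tbl tKN x) (tbl tL x)) 1 0 2 3 3 1 (-1) :=
  (sideN hx hx').nearA (Or.inl rfl) (Or.inr rfl) fun y y' F =>
    nearA_cert (s1 := true) (s2 := false) rfl hκ covN31 covN30 hx hx'
        Pool.Agent.Strip051.G.I1_16_1_8.Tab.C.NA33.c_pm_102 noCut_A noExt_A F trivial trivial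

theorem NA33_pm_112 {κ x : ℝ} (hκ : κ * h0 = ken x) (hx : ((67108864 : ℕ) : ℝ) / S ≤ x) (hx' : x ≤ (((67108864 : ℕ) : ℝ) + (67108864 : ℕ)) / S) :
    TriA PP.cur (nearL (h0 * 0) 3 κ (h0 * x) (tbl tKN x) (tbl tL x)) 1 1 2 3 3 1 (-1) :=
  (sideN hx hx').nearA (Or.inl rfl) (Or.inr rfl) fun y y' F =>
    nearA_cert (s1 := true) (s2 := false) rfl hκ covN31 covN31 hx hx'
        Pool.Agent.Strip051.G.I1_16_1_8.Tab.C.NA33.c_pm_112 noCut_A noExt_A F trivial trivial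

theorem NA33_pm_113 {κ x : ℝ} (hκ : κ * h0 = ken x) (hx : ((67108864 : ℕ) : ℝ) / S ≤ x) (hx' : x ≤ (((67108864 : ℕ) : ℝ) + (67108864 : ℕ)) / S) :
    TriA PP.cur (nearL (h0 * 0) 3 κ (h0 * x) (tbl tKN x) (tbl tL x)) 1 1 3 3 3 1 (-1) :=
  (sideN hx hx').nearA (Or.inl rfl) (Or.inr rfl) fun y y' F =>
    nearA_cert (s1 := true) (s2 := false) rfl hκ covN31 covN31 hx hx'
        Pool.Agent.Strip051.G.I1_16_1_8.Tab.C.NA33.c_pm_113 noCut_A noExt_A F trivial trivial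

theorem NA33_pm_123 {κ x : ℝ} (hκ : κ * h0 = ken x) (hx : ((67108864 : ℕ) : ℝ) / S ≤ x) (hx' : x ≤ (((67108864 : ℕ) : ℝ) + (67108864 : ℕ)) / S) :
    TriA PP.cur (nearL (h0 * 0) 3 κ (h0 * x) (tbl tKN x) (tbl tL x)) 1 2 3 3 3 1 (-1) :=
  (sideN hx hx').nearA (Or.inl rfl) (Or.inr rfl) fun y y' F =>
    nearA_cert (s1 := true) (s2 := false) rfl hκ covN31 covN32 hx hx'
        Pool.Agent.Strip051.G.I1_16_1_8.Tab.C.NA33.c_pm_123 noCut_A noExt_A F trivial trivial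

theorem NA33_pm_133 {κ x : ℝ} (hκ : κ * h0 = ken x) (hx : ((67108864 : ℕ) : ℝ) / S ≤ x) (hx' : x ≤ (((67108864 : ℕ) : ℝ) + (67108864 : ℕ)) / S) :
    TriA PP.cur (nearL (h0 * 0) 3 κ (h0 * x) (tbl tKN x) (tbl tL x)) 1 3 3 3 3 1 (-1) :=
  (sideN hx hx').nearA (Or.inl rfl) (Or.inr rfl) fun y y' F =>
    nearA_cert (s1 := true) (s2 := false) rfl hκ covN31 covN33 hx hx'
        Pool.Agent.Strip051.G.I1_16_1_8.Tab.C.NA33.c_pm_133 noCut_A noExt_A F trivial trivial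

theorem NA33_pm_202 {κ x : ℝ} (hκ : κ * h0 = ken x) (hx : ((67108864 : ℕ) : ℝ) / S ≤ x) (hx' : x ≤ (((67108864 : ℕ) : ℝ) + (67108864 : ℕ)) / S) :
    TriA PP.cur (nearL (h0 * 0) 3 κ (h0 * x) (tbl tKN x) (tbl tL x)) 2 0 2 3 3 1 (-1) :=
  (sideN hx hx').nearA (Or.inl rfl) (Or.inr rfl) fun y y' F =>
    nearA_cert (s1 := true) (s2 := false) rfl hκ covN32 covN30 hx hx'
        Pool.Agent.Strip051.G.I1_16_1_8.Tab.C.NA33.c_pm_202 noCut_A noExt_A F trivial trivial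

theorem NA33_pm_203 {κ x : ℝ} (hκ : κ * h0 = ken x) (hx : ((67108864 : ℕ) : ℝ) / S ≤ x) (hx' : x ≤ (((67108864 : ℕ) : ℝ) + (67108864 : ℕ)) / S) :
    TriA PP.cur (nearL (h0 * 0) 3 κ (h0 * x) (tbl tKN x) (tbl tL x)) 2 0 3 3 3 1 (-1) :=
  (sideN hx hx').nearA (Or.inl rfl) (Or.inr rfl) fun y y' F =>
    nearA_cert (s1 := true) (s2 := false) rfl hκ covN32 covN30 hx hx'
        Pool.Agent.Strip051.G.I1_16_1_8.Tab.C.NA33.c_pm_203 noCut_A noExt_A F trivial trivial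

theorem NA33_pm_213 {κ x : ℝ} (hκ : κ * h0 = ken x) (hx : ((67108864 : ℕ) : ℝ) / S ≤ x) (hx' : x ≤ (((67108864 : ℕ) : ℝ) + (67108864 : ℕ)) / S) :
    TriA PP.cur (nearL (h0 * 0) 3 κ (h0 * x) (tbl tKN x) (tbl tL x)) 2 1 3 3 3 1 (-1) :=
  (sideN hx hx').nearA (Or.inl rfl) (Or.inr rfl) fun y y' F =>
    nearA_cert (s1 := true) (s2 := false) rfl hκ covN32 covN31 hx hx'
        Pool.Agent.Strip051.G.I1_16_1_8.Tab.C.NA33.c_pm_213 noCut_A noExt_A F trivial trivial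

theorem NA33_pm_303 {κ x : ℝ} (hκ : κ * h0 = ken x) (hx : ((67108864 : ℕ) : ℝ) / S ≤ x) (hx' : x ≤ (((67108864 : ℕ) : ℝ) + (67108864 : ℕ)) / S) :
    TriA PP.cur (nearL (h0 * 0) 3 κ (h0 * x) (tbl tKN x) (tbl tL x)) 3 0 3 3 3 1 (-1) :=
  (sideN hx hx').nearA (Or.inl rfl) (Or.inr rfl) fun y y' F =>
    nearA_cert (s1 := true) (s2 := false) rfl hκ covN33 covN30 hx hx'
        Pool.Agent.Strip051.G.I1_16_1_8.Tab.C.NA33.c_pm_303 noCut_A noExt_A F trivial trivial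

theorem NA33_pm_313 {κ x : ℝ} (hκ : κ * h0 = ken x) (hx : ((67108864 : ℕ) : ℝ) / S ≤ x) (hx' : x ≤ (((67108864 : ℕ) : ℝ) + (67108864 : ℕ)) / S) :
    TriA PP.cur (nearL (h0 * 0) 3 κ (h0 * x) (tbl tKN x) (tbl tL x)) 3 1 3 3 3 1 (-1) :=
  (sideN hx hx').nearA (Or.inl rfl) (Or.inr rfl) fun y y' F =>
    nearA_cert (s1 := true) (s2 := false) rfl hκ covN33 covN31 hx hx'
        Pool.Agent.Strip051.G.I1_16_1_8.Tab.C.NA33.c_pm_313 noCut_A noExt_A F trivial trivial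

theorem NA33_mm_001 {κ x : ℝ} (hκ : κ * h0 = ken x) (hx : ((67108864 : ℕ) : ℝ) / S ≤ x) (hx' : x ≤ (((67108864 : ℕ) : ℝ) + (67108864 : ℕ)) / S) :
    TriA PP.cur (nearL (h0 * 0) 3 κ (h0 * x) (tbl tKN x) (tbl tL x)) 0 0 1 3 3 (-1) (-1) :=
  (sideN hx hx').nearA (Or.inr rfl) (Or.inr rfl) fun y y' F =>
    nearA_cert (s1 := false) (s2 := false) rfl hκ covN30 covN30 hx hx'
        Pool.Agent.Strip051.G.I1_16_1_8.Tab.C.NA33.c_mm_001 noCut_A noExt_A F trivial trivial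

theorem NA33_mm_011 {κ x : ℝ} (hκ : κ * h0 = ken x) (hx : ((67108864 : ℕ) : ℝ) / S ≤ x) (hx' : x ≤ (((67108864 : ℕ) : ℝ) + (67108864 : ℕ)) / S) :
    TriA PP.cur (nearL (h0 * 0) 3 κ (h0 * x) (tbl tKN x) (tbl tL x)) 0 1 1 3 3 (-1) (-1) :=
  (sideN hx hx').nearA (Or.inr rfl) (Or.inr rfl) fun y y' F =>
    nearA_cert (s1 := false) (s2 := false) rfl hκ covN30 covN31 hx hx'
        Pool.Agent.Strip051.G.I1_16_1_8.Tab.C.NA33.c_mm_011 noCut_A noExt_A F trivial trivial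

theorem NA33_mm_012 {κ x : ℝ} (hκ : κ * h0 = ken x) (hx : ((67108864 : ℕ) : ℝ) / S ≤ x) (hx' : x ≤ (((67108864 : ℕ) : ℝ) + (67108864 : ℕ)) / S) :
    TriA PP.cur (nearL (h0 * 0) 3 κ (h0 * x) (tbl tKN x) (tbl tL x)) 0 1 2 3 3 (-1) (-1) :=
  (sideN hx hx').nearA (Or.inr rfl) (Or.inr rfl) fun y y' F =>
    nearA_cert (s1 := false) (s2 := false) rfl hκ covN30 covN31 hx hx'
        Pool.Agent.Strip051.G.I1_16_1_8.Tab.C.NA33.c_mm_012 noCut_A noExt_A F trivial trivial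

theorem NA33_mm_022 {κ x : ℝ} (hκ : κ * h0 = ken x) (hx : ((67108864 : ℕ) : ℝ) / S ≤ x) (hx' : x ≤ (((67108864 : ℕ) : ℝ) + (67108864 : ℕ)) / S) :
    TriA PP.cur (nearL (h0 * 0) 3 κ (h0 * x) (tbl tKN x) (tbl tL x)) 0 2 2 3 3 (-1) (-1) :=
  (sideN hx hx').nearA (Or.inr rfl) (Or.inr rfl) fun y y' F =>
    nearA_cert (s1 := false) (s2 := false) rfl hκ covN30 covN32 hx hx'
        Pool.Agent.Strip051.G.I1_16_1_8.Tab.C.NA33.c_mm_022 noCut_A noExt_A F trivial trivial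

theorem NA33_mm_023 {κ x : ℝ} (hκ : κ * h0 = ken x) (hx : ((67108864 : ℕ) : ℝ) / S ≤ x) (hx' : x ≤ (((67108864 : ℕ) : ℝ) + (67108864 : ℕ)) / S) :
    TriA PP.cur (nearL (h0 * 0) 3 κ (h0 * x) (tbl tKN x) (tbl tL x)) 0 2 3 3 3 (-1) (-1) :=
  (sideN hx hx').nearA (Or.inr rfl) (Or.inr rfl) fun y y' F =>
    nearA_cert (s1 := false) (s2 := false) rfl hκ covN30 covN32 hx hx'
        Pool.Agent.Strip051.G.I1_16_1_8.Tab.C.NA33.c_mm_023 noCut_A noExt_A F trivial trivial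

theorem NA33_mm_033 {κ x : ℝ} (hκ : κ * h0 = ken x) (hx : ((67108864 : ℕ) : ℝ) / S ≤ x) (hx' : x ≤ (((67108864 : ℕ) : ℝ) + (67108864 : ℕ)) / S) :
    TriA PP.cur (nearL (h0 * 0) 3 κ (h0 * x) (tbl tKN x) (tbl tL x)) 0 3 3 3 3 (-1) (-1) :=
  (sideN hx hx').nearA (Or.inr rfl) (Or.inr rfl) fun y y' F =>
    nearA_cert (s1 := false) (s2 := false) rfl hκ covN30 covN33 hx hx'
        Pool.Agent.Strip051.G.I1_16_1_8.Tab.C.NA33.c_mm_033 noCut_A noExt_A F trivial trivial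

theorem NA33_mm_101 {κ x : ℝ} (hκ : κ * h0 = ken x) (hx : ((67108864 : ℕ) : ℝ) / S ≤ x) (hx' : x ≤ (((67108864 : ℕ) : ℝ) + (67108864 : ℕ)) / S) :
    TriA PP.cur (nearL (h0 * 0) 3 κ (h0 * x) (tbl tKN x) (tbl tL x)) 1 0 1 3 3 (-1) (-1) :=
  (sideN hx hx').nearA (Or.inr rfl) (Or.inr rfl) fun y y' F =>
    nearA_cert (s1 := false) (s2 := false) rfl hκ covN31 covN30 hx hx'
        Pool.Agent.Strip051.G.I1_16_1_8.Tab.C.NA33.c_mm_101 noCut_A noExt_A F trivial trivial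

theorem NA33_mm_102 {κ x : ℝ} (hκ : κ * h0 = ken x) (hx : ((67108864 : ℕ) : ℝ) / S ≤ x) (hx' : x ≤ (((67108864 : ℕ) : ℝ) + (67108864 : ℕ)) / S) :
    TriA PP.cur (nearL (h0 * 0) 3 κ (h0 * x) (tbl tKN x) (tbl tL x)) 1 0 2 3 3 (-1) (-1) :=
  (sideN hx hx').nearA (Or.inr rfl) (Or.inr rfl) fun y y' F =>
    nearA_cert (s1 := false) (s2 := false) rfl hκ covN31 covN30 hx hx'
        Pool.Agent.Strip051.G.I1_16_1_8.Tab.C.NA33.c_mm_102 noCut_A noExt_A F trivial trivial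

theorem NA33_mm_112 {κ x : ℝ} (hκ : κ * h0 = ken x) (hx : ((67108864 : ℕ) : ℝ) / S ≤ x) (hx' : x ≤ (((67108864 : ℕ) : ℝ) + (67108864 : ℕ)) / S) :
    TriA PP.cur (nearL (h0 * 0) 3 κ (h0 * x) (tbl tKN x) (tbl tL x)) 1 1 2 3 3 (-1) (-1) :=
  (sideN hx hx').nearA (Or.inr rfl) (Or.inr rfl) fun y y' F =>
    nearA_cert (s1 := false) (s2 := false) rfl hκ covN31 covN31 hx hx'
        Pool.Agent.Strip051.G.I1_16_1_8.Tab.C.NA33.c_mm_112 noCut_A noExt_A F trivial trivial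

theorem NA33_mm_113 {κ x : ℝ} (hκ : κ * h0 = ken x) (hx : ((67108864 : ℕ) : ℝ) / S ≤ x) (hx' : x ≤ (((67108864 : ℕ) : ℝ) + (67108864 : ℕ)) / S) :
    TriA PP.cur (nearL (h0 * 0) 3 κ (h0 * x) (tbl tKN x) (tbl tL x)) 1 1 3 3 3 (-1) (-1) :=
  (sideN hx hx').nearA (Or.inr rfl) (Or.inr rfl) fun y y' F =>
    nearA_cert (s1 := false) (s2 := false) rfl hκ covN31 covN31 hx hx'
        Pool.Agent.Strip051.G.I1_16_1_8.Tab.C.NA33.c_mm_113 noCut_A noExt_A F trivial trivial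

theorem NA33_mm_123 {κ x : ℝ} (hκ : κ * h0 = ken x) (hx : ((67108864 : ℕ) : ℝ) / S ≤ x) (hx' : x ≤ (((67108864 : ℕ) : ℝ) + (67108864 : ℕ)) / S) :
    TriA PP.cur (nearL (h0 * 0) 3 κ (h0 * x) (tbl tKN x) (tbl tL x)) 1 2 3 3 3 (-1) (-1) :=
  (sideN hx hx').nearA (Or.inr rfl) (Or.inr rfl) fun y y' F =>
    nearA_cert (s1 := false) (s2 := false) rfl hκ covN31 covN32 hx hx'
        Pool.Agent.Strip051.G.I1_16_1_8.Tab.C.NA33.c_mm_123 noCut_A noExt_A F trivial trivial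

theorem NA33_mm_133 {κ x : ℝ} (hκ : κ * h0 = ken x) (hx : ((67108864 : ℕ) : ℝ) / S ≤ x) (hx' : x ≤ (((67108864 : ℕ) : ℝ) + (67108864 : ℕ)) / S) :
    TriA PP.cur (nearL (h0 * 0) 3 κ (h0 * x) (tbl tKN x) (tbl tL x)) 1 3 3 3 3 (-1) (-1) :=
  (sideN hx hx').nearA (Or.inr rfl) (Or.inr rfl) fun y y' F =>
    nearA_cert (s1 := false) (s2 := false) rfl hκ covN31 covN33 hx hx'
        Pool.Agent.Strip051.G.I1_16_1_8.Tab.C.NA33.c_mm_133 noCut_A noExt_A F trivial trivial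

theorem NA33_mm_202 {κ x : ℝ} (hκ : κ * h0 = ken x) (hx : ((67108864 : ℕ) : ℝ) / S ≤ x) (hx' : x ≤ (((67108864 : ℕ) : ℝ) + (67108864 : ℕ)) / S) :
    TriA PP.cur (nearL (h0 * 0) 3 κ (h0 * x) (tbl tKN x) (tbl tL x)) 2 0 2 3 3 (-1) (-1) :=
  (sideN hx hx').nearA (Or.inr rfl) (Or.inr rfl) fun y y' F =>
    nearA_cert (s1 := false) (s2 := false) rfl hκ covN32 covN30 hx hx'
        Pool.Agent.Strip051.G.I1_16_1_8.Tab.C.NA33.c_mm_202 noCut_A noExt_A F trivial trivial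

theorem NA33_mm_203 {κ x : ℝ} (hκ : κ * h0 = ken x) (hx : ((67108864 : ℕ) : ℝ) / S ≤ x) (hx' : x ≤ (((67108864 : ℕ) : ℝ) + (67108864 : ℕ)) / S) :
    TriA PP.cur (nearL (h0 * 0) 3 κ (h0 * x) (tbl tKN x) (tbl tL x)) 2 0 3 3 3 (-1) (-1) :=
  (sideN hx hx').nearA (Or.inr rfl) (Or.inr rfl) fun y y' F =>
    nearA_cert (s1 := false) (s2 := false) rfl hκ covN32 covN30 hx hx'
        Pool.Agent.Strip051.G.I1_16_1_8.Tab.C.NA33.c_mm_203 noCut_A noExt_A F trivial trivial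

theorem NA33_mm_213 {κ x : ℝ} (hκ : κ * h0 = ken x) (hx : ((67108864 : ℕ) : ℝ) / S ≤ x) (hx' : x ≤ (((67108864 : ℕ) : ℝ) + (67108864 : ℕ)) / S) :
    TriA PP.cur (nearL (h0 * 0) 3 κ (h0 * x) (tbl tKN x) (tbl tL x)) 2 1 3 3 3 (-1) (-1) :=
  (sideN hx hx').nearA (Or.inr rfl) (Or.inr rfl) fun y y' F =>
    nearA_cert (s1 := false) (s2 := false) rfl hκ covN32 covN31 hx hx'
        Pool.Agent.Strip051.G.I1_16_1_8.Tab.C.NA33.c_mm_213 noCut_A noExt_A F trivial trivial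

theorem NA33_mm_303 {κ x : ℝ} (hκ : κ * h0 = ken x) (hx : ((67108864 : ℕ) : ℝ) / S ≤ x) (hx' : x ≤ (((67108864 : ℕ) : ℝ) + (67108864 : ℕ)) / S) :
    TriA PP.cur (nearL (h0 * 0) 3 κ (h0 * x) (tbl tKN x) (tbl tL x)) 3 0 3 3 3 (-1) (-1) :=
  (sideN hx hx').nearA (Or.inr rfl) (Or.inr rfl) fun y y' F =>
    nearA_cert (s1 := false) (s2 := false) rfl hκ covN33 covN30 hx hx'
        Pool.Agent.Strip051.G.I1_16_1_8.Tab.C.NA33.c_mm_303 noCut_A noExt_A F trivial trivial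

theorem NA33_mm_313 {κ x : ℝ} (hκ : κ * h0 = ken x) (hx : ((67108864 : ℕ) : ℝ) / S ≤ x) (hx' : x ≤ (((67108864 : ℕ) : ℝ) + (67108864 : ℕ)) / S) :
    TriA PP.cur (nearL (h0 * 0) 3 κ (h0 * x) (tbl tKN x) (tbl tL x)) 3 1 3 3 3 (-1) (-1) :=
  (sideN hx hx').nearA (Or.inr rfl) (Or.inr rfl) fun y y' F =>
    nearA_cert (s1 := false) (s2 := false) rfl hκ covN33 covN31 hx hx'
        Pool.Agent.Strip051.G.I1_16_1_8.Tab.C.NA33.c_mm_313 noCut_A noExt_A F trivial trivial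

theorem NA33 {κ x : ℝ} (hκ : κ * h0 = ken x) (hx : ((67108864 : ℕ) : ℝ) / S ≤ x) (hx' : x ≤ (((67108864 : ℕ) : ℝ) + (67108864 : ℕ)) / S) : AllTA PP.cur (nearL (h0 * 0) 3 κ (h0 * x) (tbl tKN x) (tbl tL x)) 3 3 where
  pp := all17 (Q := fun a b c => TriA PP.cur (nearL (h0 * 0) 3 κ (h0 * x) (tbl tKN x) (tbl tL x)) a b c 3 3 1 1)
    (NA33_pp_001 hκ hx hx') (NA33_pp_011 hκ hx hx') (NA33_pp_012 hκ hx hx') (NA33_pp_022 hκ hx hx') (NA33_pp_023 hκ hx hx') (NA33_pp_033 hκ hx hx') (NA33_pp_101 hκ hx hx') (NA33_pp_102 hκ hx hx') (NA33_pp_112 hκ hx hx') (NA33_pp_113 hκ hx hx') (NA33_pp_123 hκ hx hx') (NA33_pp_133 hκ hx hx') (NA33_pp_202 hκ hx hx') (NA33_pp_203 hκ hx hx') (NA33_pp_213 hκ hx hx') (NA33_pp_303 hκ hx hx') (NA33_pp_313 hκ hx hx')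
  pm := all17 (Q := fun a b c => TriA PP.cur (nearL (h0 * 0) 3 κ (h0 * x) (tbl tKN x) (tbl tL x)) a b c 3 3 1 (-1))
    (NA33_pm_001 hκ hx hx') (NA33_pm_011 hκ hx hx') (NA33_pm_012 hκ hx hx') (NA33_pm_022 hκ hx hx') (NA33_pm_023 hκ hx hx') (NA33_pm_033 hκ hx hx') (NA33_pm_101 hκ hx hx') (NA33_pm_102 hκ hx hx') (NA33_pm_112 hκ hx hx') (NA33_pm_113 hκ hx hx') (NA33_pm_123 hκ hx hx') (NA33_pm_133 hκ hx hx') (NA33_pm_202 hκ hx hx') (NA33_pm_203 hκ hx hx') (NA33_pm_213 hκ hx hx') (NA33_pm_303 hκ hx hx') (NA33_pm_313 hκ hx hx')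
  mm := all17 (Q := fun a b c => TriA PP.cur (nearL (h0 * 0) 3 κ (h0 * x) (tbl tKN x) (tbl tL x)) a b c 3 3 (-1) (-1))
    (NA33_mm_001 hκ hx hx') (NA33_mm_011 hκ hx hx') (NA33_mm_012 hκ hx hx') (NA33_mm_022 hκ hx hx') (NA33_mm_023 hκ hx hx') (NA33_mm_033 hκ hx hx') (NA33_mm_101 hκ hx hx') (NA33_mm_102 hκ hx hx') (NA33_mm_112 hκ hx hx') (NA33_mm_113 hκ hx hx') (NA33_mm_123 hκ hx hx') (NA33_mm_133 hκ hx hx') (NA33_mm_202 hκ hx hx') (NA33_mm_203 hκ hx hx') (NA33_mm_213 hκ hx hx') (NA33_mm_303 hκ hx hx') (NA33_mm_313 hκ hx hx')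

theorem NA34_pp_001 {κ x : ℝ} (hκ : κ * h0 = ken x) (hx : ((67108864 : ℕ) : ℝ) / S ≤ x) (hx' : x ≤ (((67108864 : ℕ) : ℝ) + (67108864 : ℕ)) / S) :
    TriA PP.cur (nearL (h0 * 0) 3 κ (h0 * x) (tbl tKN x) (tbl tL x)) 0 0 1 3 4 1 1 :=
  (sideN hx hx').nearA (Or.inl rfl) (Or.inl rfl) fun y y' F =>
    nearA_cert (s1 := true) (s2 := true) rfl hκ covN30 covN40 hx hx'
        Pool.Agent.Strip051.G.I1_16_1_8.Tab.C.NA34.c_pp_001 noCut_A noExt_A F trivial trivial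

theorem NA34_pp_011 {κ x : ℝ} (hκ : κ * h0 = ken x) (hx : ((67108864 : ℕ) : ℝ) / S ≤ x) (hx' : x ≤ (((67108864 : ℕ) : ℝ) + (67108864 : ℕ)) / S) :
    TriA PP.cur (nearL (h0 * 0) 3 κ (h0 * x) (tbl tKN x) (tbl tL x)) 0 1 1 3 4 1 1 :=
  (sideN hx hx').nearA (Or.inl rfl) (Or.inl rfl) fun y y' F =>
    nearA_cert (s1 := true) (s2 := true) rfl hκ covN30 covN41 hx hx'
        Pool.Agent.Strip051.G.I1_16_1_8.Tab.C.NA34.c_pp_011 noCut_A noExt_A F trivial trivial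

theorem NA34_pp_012 {κ x : ℝ} (hκ : κ * h0 = ken x) (hx : ((67108864 : ℕ) : ℝ) / S ≤ x) (hx' : x ≤ (((67108864 : ℕ) : ℝ) + (67108864 : ℕ)) / S) :
    TriA PP.cur (nearL (h0 * 0) 3 κ (h0 * x) (tbl tKN x) (tbl tL x)) 0 1 2 3 4 1 1 :=
  (sideN hx hx').nearA (Or.inl rfl) (Or.inl rfl) fun y y' F =>
    nearA_cert (s1 := true) (s2 := true) rfl hκ covN30 covN41 hx hx'
        Pool.Agent.Strip051.G.I1_16_1_8.Tab.C.NA34.c_pp_012 noCut_A noExt_A F trivial trivial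

theorem NA34_pp_022 {κ x : ℝ} (hκ : κ * h0 = ken x) (hx : ((67108864 : ℕ) : ℝ) / S ≤ x) (hx' : x ≤ (((67108864 : ℕ) : ℝ) + (67108864 : ℕ)) / S) :
    TriA PP.cur (nearL (h0 * 0) 3 κ (h0 * x) (tbl tKN x) (tbl tL x)) 0 2 2 3 4 1 1 :=
  (sideN hx hx').nearA (Or.inl rfl) (Or.inl rfl) fun y y' F =>
    nearA_cert (s1 := true) (s2 := true) rfl hκ covN30 covN42 hx hx'
        Pool.Agent.Strip051.G.I1_16_1_8.Tab.C.NA34.c_pp_022 noCut_A noExt_A F trivial trivial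

theorem NA34_pp_023 {κ x : ℝ} (hκ : κ * h0 = ken x) (hx : ((67108864 : ℕ) : ℝ) / S ≤ x) (hx' : x ≤ (((67108864 : ℕ) : ℝ) + (67108864 : ℕ)) / S) :
    TriA PP.cur (nearL (h0 * 0) 3 κ (h0 * x) (tbl tKN x) (tbl tL x)) 0 2 3 3 4 1 1 :=
  (sideN hx hx').nearA (Or.inl rfl) (Or.inl rfl) fun y y' F =>
    nearA_cert (s1 := true) (s2 := true) rfl hκ covN30 covN42 hx hx'
        Pool.Agent.Strip051.G.I1_16_1_8.Tab.C.NA34.c_pp_023 noCut_A noExt_A F trivial trivial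

theorem NA34_pp_033 {κ x : ℝ} (hκ : κ * h0 = ken x) (hx : ((67108864 : ℕ) : ℝ) / S ≤ x) (hx' : x ≤ (((67108864 : ℕ) : ℝ) + (67108864 : ℕ)) / S) :
    TriA PP.cur (nearL (h0 * 0) 3 κ (h0 * x) (tbl tKN x) (tbl tL x)) 0 3 3 3 4 1 1 :=
  (sideN hx hx').nearA (Or.inl rfl) (Or.inl rfl) fun y y' F =>
    nearA_cert (s1 := true) (s2 := true) rfl hκ covN30 covN43 hx hx'
        Pool.Agent.Strip051.G.I1_16_1_8.Tab.C.NA34.c_pp_033 noCut_A noExt_A F trivial trivial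

theorem NA34_pp_101 {κ x : ℝ} (hκ : κ * h0 = ken x) (hx : ((67108864 : ℕ) : ℝ) / S ≤ x) (hx' : x ≤ (((67108864 : ℕ) : ℝ) + (67108864 : ℕ)) / S) :
    TriA PP.cur (nearL (h0 * 0) 3 κ (h0 * x) (tbl tKN x) (tbl tL x)) 1 0 1 3 4 1 1 :=
  (sideN hx hx').nearA (Or.inl rfl) (Or.inl rfl) fun y y' F =>
    nearA_cert (s1 := true) (s2 := true) rfl hκ covN31 covN40 hx hx'
        Pool.Agent.Strip051.G.I1_16_1_8.Tab.C.NA34.c_pp_101 noCut_A noExt_A F trivial trivial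

theorem NA34_pp_102 {κ x : ℝ} (hκ : κ * h0 = ken x) (hx : ((67108864 : ℕ) : ℝ) / S ≤ x) (hx' : x ≤ (((67108864 : ℕ) : ℝ) + (67108864 : ℕ)) / S) :
    TriA PP.cur (nearL (h0 * 0) 3 κ (h0 * x) (tbl tKN x) (tbl tL x)) 1 0 2 3 4 1 1 :=
  (sideN hx hx').nearA (Or.inl rfl) (Or.inl rfl) fun y y' F =>
    nearA_cert (s1 := true) (s2 := true) rfl hκ covN31 covN40 hx hx'
        Pool.Agent.Strip051.G.I1_16_1_8.Tab.C.NA34.c_pp_102 noCut_A noExt_A F trivial trivial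

theorem NA34_pp_112 {κ x : ℝ} (hκ : κ * h0 = ken x) (hx : ((67108864 : ℕ) : ℝ) / S ≤ x) (hx' : x ≤ (((67108864 : ℕ) : ℝ) + (67108864 : ℕ)) / S) :
    TriA PP.cur (nearL (h0 * 0) 3 κ (h0 * x) (tbl tKN x) (tbl tL x)) 1 1 2 3 4 1 1 :=
  (sideN hx hx').nearA (Or.inl rfl) (Or.inl rfl) fun y y' F =>
    nearA_cert (s1 := true) (s2 := true) rfl hκ covN31 covN41 hx hx'
        Pool.Agent.Strip051.G.I1_16_1_8.Tab.C.NA34.c_pp_112 noCut_A noExt_A F trivial trivial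

theorem NA34_pp_113 {κ x : ℝ} (hκ : κ * h0 = ken x) (hx : ((67108864 : ℕ) : ℝ) / S ≤ x) (hx' : x ≤ (((67108864 : ℕ) : ℝ) + (67108864 : ℕ)) / S) :
    TriA PP.cur (nearL (h0 * 0) 3 κ (h0 * x) (tbl tKN x) (tbl tL x)) 1 1 3 3 4 1 1 :=
  (sideN hx hx').nearA (Or.inl rfl) (Or.inl rfl) fun y y' F =>
    nearA_cert (s1 := true) (s2 := true) rfl hκ covN31 covN41 hx hx'
        Pool.Agent.Strip051.G.I1_16_1_8.Tab.C.NA34.c_pp_113 noCut_A noExt_A F trivial trivial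

theorem NA34_pp_123 {κ x : ℝ} (hκ : κ * h0 = ken x) (hx : ((67108864 : ℕ) : ℝ) / S ≤ x) (hx' : x ≤ (((67108864 : ℕ) : ℝ) + (67108864 : ℕ)) / S) :
    TriA PP.cur (nearL (h0 * 0) 3 κ (h0 * x) (tbl tKN x) (tbl tL x)) 1 2 3 3 4 1 1 :=
  (sideN hx hx').nearA (Or.inl rfl) (Or.inl rfl) fun y y' F =>
    nearA_cert (s1 := true) (s2 := true) rfl hκ covN31 covN42 hx hx'
        Pool.Agent.Strip051.G.I1_16_1_8.Tab.C.NA34.c_pp_123 noCut_A noExt_A F trivial trivial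

theorem NA34_pp_133 {κ x : ℝ} (hκ : κ * h0 = ken x) (hx : ((67108864 : ℕ) : ℝ) / S ≤ x) (hx' : x ≤ (((67108864 : ℕ) : ℝ) + (67108864 : ℕ)) / S) :
    TriA PP.cur (nearL (h0 * 0) 3 κ (h0 * x) (tbl tKN x) (tbl tL x)) 1 3 3 3 4 1 1 :=
  (sideN hx hx').nearA (Or.inl rfl) (Or.inl rfl) fun y y' F =>
    nearA_cert (s1 := true) (s2 := true) rfl hκ covN31 covN43 hx hx'
        Pool.Agent.Strip051.G.I1_16_1_8.Tab.C.NA34.c_pp_133 noCut_A noExt_A F trivial trivial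

theorem NA34_pp_202 {κ x : ℝ} (hκ : κ * h0 = ken x) (hx : ((67108864 : ℕ) : ℝ) / S ≤ x) (hx' : x ≤ (((67108864 : ℕ) : ℝ) + (67108864 : ℕ)) / S) :
    TriA PP.cur (nearL (h0 * 0) 3 κ (h0 * x) (tbl tKN x) (tbl tL x)) 2 0 2 3 4 1 1 :=
  (sideN hx hx').nearA (Or.inl rfl) (Or.inl rfl) fun y y' F =>
    nearA_cert (s1 := true) (s2 := true) rfl hκ covN32 covN40 hx hx'
        Pool.Agent.Strip051.G.I1_16_1_8.Tab.C.NA34.c_pp_202 noCut_A noExt_A F trivial trivial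

theorem NA34_pp_203 {κ x : ℝ} (hκ : κ * h0 = ken x) (hx : ((67108864 : ℕ) : ℝ) / S ≤ x) (hx' : x ≤ (((67108864 : ℕ) : ℝ) + (67108864 : ℕ)) / S) :
    TriA PP.cur (nearL (h0 * 0) 3 κ (h0 * x) (tbl tKN x) (tbl tL x)) 2 0 3 3 4 1 1 :=
  (sideN hx hx').nearA (Or.inl rfl) (Or.inl rfl) fun y y' F =>
    nearA_cert (s1 := true) (s2 := true) rfl hκ covN32 covN40 hx hx'
        Pool.Agent.Strip051.G.I1_16_1_8.Tab.C.NA34.c_pp_203 noCut_A noExt_A F trivial trivial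

theorem NA34_pp_213 {κ x : ℝ} (hκ : κ * h0 = ken x) (hx : ((67108864 : ℕ) : ℝ) / S ≤ x) (hx' : x ≤ (((67108864 : ℕ) : ℝ) + (67108864 : ℕ)) / S) :
    TriA PP.cur (nearL (h0 * 0) 3 κ (h0 * x) (tbl tKN x) (tbl tL x)) 2 1 3 3 4 1 1 :=
  (sideN hx hx').nearA (Or.inl rfl) (Or.inl rfl) fun y y' F =>
    nearA_cert (s1 := true) (s2 := true) rfl hκ covN32 covN41 hx hx'
        Pool.Agent.Strip051.G.I1_16_1_8.Tab.C.NA34.c_pp_213 noCut_A noExt_A F trivial trivial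

theorem NA34_pp_303 {κ x : ℝ} (hκ : κ * h0 = ken x) (hx : ((67108864 : ℕ) : ℝ) / S ≤ x) (hx' : x ≤ (((67108864 : ℕ) : ℝ) + (67108864 : ℕ)) / S) :
    TriA PP.cur (nearL (h0 * 0) 3 κ (h0 * x) (tbl tKN x) (tbl tL x)) 3 0 3 3 4 1 1 :=
  (sideN hx hx').nearA (Or.inl rfl) (Or.inl rfl) fun y y' F =>
    nearA_cert (s1 := true) (s2 := true) rfl hκ covN33 covN40 hx hx'
        Pool.Agent.Strip051.G.I1_16_1_8.Tab.C.NA34.c_pp_303 noCut_A noExt_A F trivial trivial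

theorem NA34_pp_313 {κ x : ℝ} (hκ : κ * h0 = ken x) (hx : ((67108864 : ℕ) : ℝ) / S ≤ x) (hx' : x ≤ (((67108864 : ℕ) : ℝ) + (67108864 : ℕ)) / S) :
    TriA PP.cur (nearL (h0 * 0) 3 κ (h0 * x) (tbl tKN x) (tbl tL x)) 3 1 3 3 4 1 1 :=
  (sideN hx hx').nearA (Or.inl rfl) (Or.inl rfl) fun y y' F =>
    nearA_cert (s1 := true) (s2 := true) rfl hκ covN33 covN41 hx hx'
        Pool.Agent.Strip051.G.I1_16_1_8.Tab.C.NA34.c_pp_313 noCut_A noExt_A F trivial trivial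

theorem NA34_pm_001 {κ x : ℝ} (hκ : κ * h0 = ken x) (hx : ((67108864 : ℕ) : ℝ) / S ≤ x) (hx' : x ≤ (((67108864 : ℕ) : ℝ) + (67108864 : ℕ)) / S) :
    TriA PP.cur (nearL (h0 * 0) 3 κ (h0 * x) (tbl tKN x) (tbl tL x)) 0 0 1 3 4 1 (-1) :=
  (sideN hx hx').nearA (Or.inl rfl) (Or.inr rfl) fun y y' F =>
    nearA_cert (s1 := true) (s2 := false) rfl hκ covN30 covN40 hx hx'
        Pool.Agent.Strip051.G.I1_16_1_8.Tab.C.NA34.c_pm_001 noCut_A noExt_A F trivial trivial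

theorem NA34_pm_011 {κ x : ℝ} (hκ : κ * h0 = ken x) (hx : ((67108864 : ℕ) : ℝ) / S ≤ x) (hx' : x ≤ (((67108864 : ℕ) : ℝ) + (67108864 : ℕ)) / S) :
    TriA PP.cur (nearL (h0 * 0) 3 κ (h0 * x) (tbl tKN x) (tbl tL x)) 0 1 1 3 4 1 (-1) :=
  (sideN hx hx').nearA (Or.inl rfl) (Or.inr rfl) fun y y' F =>
    nearA_cert (s1 := true) (s2 := false) rfl hκ covN30 covN41 hx hx'
        Pool.Agent.Strip051.G.I1_16_1_8.Tab.C.NA34.c_pm_011 noCut_A noExt_A F trivial trivial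

theorem NA34_pm_012 {κ x : ℝ} (hκ : κ * h0 = ken x) (hx : ((67108864 : ℕ) : ℝ) / S ≤ x) (hx' : x ≤ (((67108864 : ℕ) : ℝ) + (67108864 : ℕ)) / S) :
    TriA PP.cur (nearL (h0 * 0) 3 κ (h0 * x) (tbl tKN x) (tbl tL x)) 0 1 2 3 4 1 (-1) :=
  (sideN hx hx').nearA (Or.inl rfl) (Or.inr rfl) fun y y' F =>
    nearA_cert (s1 := true) (s2 := false) rfl hκ covN30 covN41 hx hx'
        Pool.Agent.Strip051.G.I1_16_1_8.Tab.C.NA34.c_pm_012 noCut_A noExt_A F trivial trivial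

theorem NA34_pm_022 {κ x : ℝ} (hκ : κ * h0 = ken x) (hx : ((67108864 : ℕ) : ℝ) / S ≤ x) (hx' : x ≤ (((67108864 : ℕ) : ℝ) + (67108864 : ℕ)) / S) :
    TriA PP.cur (nearL (h0 * 0) 3 κ (h0 * x) (tbl tKN x) (tbl tL x)) 0 2 2 3 4 1 (-1) :=
  (sideN hx hx').nearA (Or.inl rfl) (Or.inr rfl) fun y y' F =>
    nearA_cert (s1 := true) (s2 := false) rfl hκ covN30 covN42 hx hx'
        Pool.Agent.Strip051.G.I1_16_1_8.Tab.C.NA34.c_pm_022 noCut_A noExt_A F trivial trivial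

theorem NA34_pm_023 {κ x : ℝ} (hκ : κ * h0 = ken x) (hx : ((67108864 : ℕ) : ℝ) / S ≤ x) (hx' : x ≤ (((67108864 : ℕ) : ℝ) + (67108864 : ℕ)) / S) :
    TriA PP.cur (nearL (h0 * 0) 3 κ (h0 * x) (tbl tKN x) (tbl tL x)) 0 2 3 3 4 1 (-1) :=
  (sideN hx hx').nearA (Or.inl rfl) (Or.inr rfl) fun y y' F =>
    nearA_cert (s1 := true) (s2 := false) rfl hκ covN30 covN42 hx hx'
        Pool.Agent.Strip051.G.I1_16_1_8.Tab.C.NA34.c_pm_023 noCut_A noExt_A F trivial trivial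

theorem NA34_pm_033 {κ x : ℝ} (hκ : κ * h0 = ken x) (hx : ((67108864 : ℕ) : ℝ) / S ≤ x) (hx' : x ≤ (((67108864 : ℕ) : ℝ) + (67108864 : ℕ)) / S) :
    TriA PP.cur (nearL (h0 * 0) 3 κ (h0 * x) (tbl tKN x) (tbl tL x)) 0 3 3 3 4 1 (-1) :=
  (sideN hx hx').nearA (Or.inl rfl) (Or.inr rfl) fun y y' F =>
    nearA_cert (s1 := true) (s2 := false) rfl hκ covN30 covN43 hx hx'
        Pool.Agent.Strip051.G.I1_16_1_8.Tab.C.NA34.c_pm_033 noCut_A noExt_A F trivial trivial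

theorem NA34_pm_101 {κ x : ℝ} (hκ : κ * h0 = ken x) (hx : ((67108864 : ℕ) : ℝ) / S ≤ x) (hx' : x ≤ (((67108864 : ℕ) : ℝ) + (67108864 : ℕ)) / S) :
    TriA PP.cur (nearL (h0 * 0) 3 κ (h0 * x) (tbl tKN x) (tbl tL x)) 1 0 1 3 4 1 (-1) :=
  (sideN hx hx').nearA (Or.inl rfl) (Or.inr rfl) fun y y' F =>
    nearA_cert (s1 := true) (s2 := false) rfl hκ covN31 covN40 hx hx'
        Pool.Agent.Strip051.G.I1_16_1_8.Tab.C.NA34.c_pm_101 noCut_A noExt_A F trivial trivial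

theorem NA34_pm_102 {κ x : ℝ} (hκ : κ * h0 = ken x) (hx : ((67108864 : ℕ) : ℝ) / S ≤ x) (hx' : x ≤ (((67108864 : ℕ) : ℝ) + (67108864 : ℕ)) / S) :
    TriA PP.cur (nearL (h0 * 0) 3 κ (h0 * x) (tbl tKN x) (tbl tL x)) 1 0 2 3 4 1 (-1) :=
  (sideN hx hx').nearA (Or.inl rfl) (Or.inr rfl) fun y y' F =>
    nearA_cert (s1 := true) (s2 := false) rfl hκ covN31 covN40 hx hx'
        Pool.Agent.Strip051.G.I1_16_1_8.Tab.C.NA34.c_pm_102 noCut_A noExt_A F trivial trivial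

theorem NA34_pm_112 {κ x : ℝ} (hκ : κ * h0 = ken x) (hx : ((67108864 : ℕ) : ℝ) / S ≤ x) (hx' : x ≤ (((67108864 : ℕ) : ℝ) + (67108864 : ℕ)) / S) :
    TriA PP.cur (nearL (h0 * 0) 3 κ (h0 * x) (tbl tKN x) (tbl tL x)) 1 1 2 3 4 1 (-1) :=
  (sideN hx hx').nearA (Or.inl rfl) (Or.inr rfl) fun y y' F =>
    nearA_cert (s1 := true) (s2 := false) rfl hκ covN31 covN41 hx hx'
        Pool.Agent.Strip051.G.I1_16_1_8.Tab.C.NA34.c_pm_112 noCut_A noExt_A F trivial trivial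

theorem NA34_pm_113 {κ x : ℝ} (hκ : κ * h0 = ken x) (hx : ((67108864 : ℕ) : ℝ) / S ≤ x) (hx' : x ≤ (((67108864 : ℕ) : ℝ) + (67108864 : ℕ)) / S) :
    TriA PP.cur (nearL (h0 * 0) 3 κ (h0 * x) (tbl tKN x) (tbl tL x)) 1 1 3 3 4 1 (-1) :=
  (sideN hx hx').nearA (Or.inl rfl) (Or.inr rfl) fun y y' F =>
    nearA_cert (s1 := true) (s2 := false) rfl hκ covN31 covN41 hx hx'
        Pool.Agent.Strip051.G.I1_16_1_8.Tab.C.NA34.c_pm_113 noCut_A noExt_A F trivial trivial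

theorem NA34_pm_123 {κ x : ℝ} (hκ : κ * h0 = ken x) (hx : ((67108864 : ℕ) : ℝ) / S ≤ x) (hx' : x ≤ (((67108864 : ℕ) : ℝ) + (67108864 : ℕ)) / S) :
    TriA PP.cur (nearL (h0 * 0) 3 κ (h0 * x) (tbl tKN x) (tbl tL x)) 1 2 3 3 4 1 (-1) :=
  (sideN hx hx').nearA (Or.inl rfl) (Or.inr rfl) fun y y' F =>
    nearA_cert (s1 := true) (s2 := false) rfl hκ covN31 covN42 hx hx'
        Pool.Agent.Strip051.G.I1_16_1_8.Tab.C.NA34.c_pm_123 noCut_A noExt_A F trivial trivial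

theorem NA34_pm_133 {κ x : ℝ} (hκ : κ * h0 = ken x) (hx : ((67108864 : ℕ) : ℝ) / S ≤ x) (hx' : x ≤ (((67108864 : ℕ) : ℝ) + (67108864 : ℕ)) / S) :
    TriA PP.cur (nearL (h0 * 0) 3 κ (h0 * x) (tbl tKN x) (tbl tL x)) 1 3 3 3 4 1 (-1) :=
  (sideN hx hx').nearA (Or.inl rfl) (Or.inr rfl) fun y y' F =>
    nearA_cert (s1 := true) (s2 := false) rfl hκ covN31 covN43 hx hx'
        Pool.Agent.Strip051.G.I1_16_1_8.Tab.C.NA34.c_pm_133 noCut_A noExt_A F trivial trivial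

theorem NA34_pm_202 {κ x : ℝ} (hκ : κ * h0 = ken x) (hx : ((67108864 : ℕ) : ℝ) / S ≤ x) (hx' : x ≤ (((67108864 : ℕ) : ℝ) + (67108864 : ℕ)) / S) :
    TriA PP.cur (nearL (h0 * 0) 3 κ (h0 * x) (tbl tKN x) (tbl tL x)) 2 0 2 3 4 1 (-1) :=
  (sideN hx hx').nearA (Or.inl rfl) (Or.inr rfl) fun y y' F =>
    nearA_cert (s1 := true) (s2 := false) rfl hκ covN32 covN40 hx hx'
        Pool.Agent.Strip051.G.I1_16_1_8.Tab.C.NA34.c_pm_202 noCut_A noExt_A F trivial trivial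

theorem NA34_pm_203 {κ x : ℝ} (hκ : κ * h0 = ken x) (hx : ((67108864 : ℕ) : ℝ) / S ≤ x) (hx' : x ≤ (((67108864 : ℕ) : ℝ) + (67108864 : ℕ)) / S) :
    TriA PP.cur (nearL (h0 * 0) 3 κ (h0 * x) (tbl tKN x) (tbl tL x)) 2 0 3 3 4 1 (-1) :=
  (sideN hx hx').nearA (Or.inl rfl) (Or.inr rfl) fun y y' F =>
    nearA_cert (s1 := true) (s2 := false) rfl hκ covN32 covN40 hx hx'
        Pool.Agent.Strip051.G.I1_16_1_8.Tab.C.NA34.c_pm_203 noCut_A noExt_A F trivial trivial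

theorem NA34_pm_213 {κ x : ℝ} (hκ : κ * h0 = ken x) (hx : ((67108864 : ℕ) : ℝ) / S ≤ x) (hx' : x ≤ (((67108864 : ℕ) : ℝ) + (67108864 : ℕ)) / S) :
    TriA PP.cur (nearL (h0 * 0) 3 κ (h0 * x) (tbl tKN x) (tbl tL x)) 2 1 3 3 4 1 (-1) :=
  (sideN hx hx').nearA (Or.inl rfl) (Or.inr rfl) fun y y' F =>
    nearA_cert (s1 := true) (s2 := false) rfl hκ covN32 covN41 hx hx'
        Pool.Agent.Strip051.G.I1_16_1_8.Tab.C.NA34.c_pm_213 noCut_A noExt_A F trivial trivial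

theorem NA34_pm_303 {κ x : ℝ} (hκ : κ * h0 = ken x) (hx : ((67108864 : ℕ) : ℝ) / S ≤ x) (hx' : x ≤ (((67108864 : ℕ) : ℝ) + (67108864 : ℕ)) / S) :
    TriA PP.cur (nearL (h0 * 0) 3 κ (h0 * x) (tbl tKN x) (tbl tL x)) 3 0 3 3 4 1 (-1) :=
  (sideN hx hx').nearA (Or.inl rfl) (Or.inr rfl) fun y y' F =>
    nearA_cert (s1 := true) (s2 := false) rfl hκ covN33 covN40 hx hx'
        Pool.Agent.Strip051.G.I1_16_1_8.Tab.C.NA34.c_pm_303 noCut_A noExt_A F trivial trivial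

theorem NA34_pm_313 {κ x : ℝ} (hκ : κ * h0 = ken x) (hx : ((67108864 : ℕ) : ℝ) / S ≤ x) (hx' : x ≤ (((67108864 : ℕ) : ℝ) + (67108864 : ℕ)) / S) :
    TriA PP.cur (nearL (h0 * 0) 3 κ (h0 * x) (tbl tKN x) (tbl tL x)) 3 1 3 3 4 1 (-1) :=
  (sideN hx hx').nearA (Or.inl rfl) (Or.inr rfl) fun y y' F =>
    nearA_cert (s1 := true) (s2 := false) rfl hκ covN33 covN41 hx hx'
        Pool.Agent.Strip051.G.I1_16_1_8.Tab.C.NA34.c_pm_313 noCut_A noExt_A F trivial trivial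

theorem NA34_mm_001 {κ x : ℝ} (hκ : κ * h0 = ken x) (hx : ((67108864 : ℕ) : ℝ) / S ≤ x) (hx' : x ≤ (((67108864 : ℕ) : ℝ) + (67108864 : ℕ)) / S) :
    TriA PP.cur (nearL (h0 * 0) 3 κ (h0 * x) (tbl tKN x) (tbl tL x)) 0 0 1 3 4 (-1) (-1) :=
  (sideN hx hx').nearA (Or.inr rfl) (Or.inr rfl) fun y y' F =>
    nearA_cert (s1 := false) (s2 := false) rfl hκ covN30 covN40 hx hx'
        Pool.Agent.Strip051.G.I1_16_1_8.Tab.C.NA34.c_mm_001 noCut_A noExt_A F trivial trivial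

theorem NA34_mm_011 {κ x : ℝ} (hκ : κ * h0 = ken x) (hx : ((67108864 : ℕ) : ℝ) / S ≤ x) (hx' : x ≤ (((67108864 : ℕ) : ℝ) + (67108864 : ℕ)) / S) :
    TriA PP.cur (nearL (h0 * 0) 3 κ (h0 * x) (tbl tKN x) (tbl tL x)) 0 1 1 3 4 (-1) (-1) :=
  (sideN hx hx').nearA (Or.inr rfl) (Or.inr rfl) fun y y' F =>
    nearA_cert (s1 := false) (s2 := false) rfl hκ covN30 covN41 hx hx'
        Pool.Agent.Strip051.G.I1_16_1_8.Tab.C.NA34.c_mm_011 noCut_A noExt_A F trivial trivial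

theorem NA34_mm_012 {κ x : ℝ} (hκ : κ * h0 = ken x) (hx : ((67108864 : ℕ) : ℝ) / S ≤ x) (hx' : x ≤ (((67108864 : ℕ) : ℝ) + (67108864 : ℕ)) / S) :
    TriA PP.cur (nearL (h0 * 0) 3 κ (h0 * x) (tbl tKN x) (tbl tL x)) 0 1 2 3 4 (-1) (-1) :=
  (sideN hx hx').nearA (Or.inr rfl) (Or.inr rfl) fun y y' F =>
    nearA_cert (s1 := false) (s2 := false) rfl hκ covN30 covN41 hx hx'
        Pool.Agent.Strip051.G.I1_16_1_8.Tab.C.NA34.c_mm_012 noCut_A noExt_A F trivial trivial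

theorem NA34_mm_022 {κ x : ℝ} (hκ : κ * h0 = ken x) (hx : ((67108864 : ℕ) : ℝ) / S ≤ x) (hx' : x ≤ (((67108864 : ℕ) : ℝ) + (67108864 : ℕ)) / S) :
    TriA PP.cur (nearL (h0 * 0) 3 κ (h0 * x) (tbl tKN x) (tbl tL x)) 0 2 2 3 4 (-1) (-1) :=
  (sideN hx hx').nearA (Or.inr rfl) (Or.inr rfl) fun y y' F =>
    nearA_cert (s1 := false) (s2 := false) rfl hκ covN30 covN42 hx hx'
        Pool.Agent.Strip051.G.I1_16_1_8.Tab.C.NA34.c_mm_022 noCut_A noExt_A F trivial trivial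

theorem NA34_mm_023 {κ x : ℝ} (hκ : κ * h0 = ken x) (hx : ((67108864 : ℕ) : ℝ) / S ≤ x) (hx' : x ≤ (((67108864 : ℕ) : ℝ) + (67108864 : ℕ)) / S) :
    TriA PP.cur (nearL (h0 * 0) 3 κ (h0 * x) (tbl tKN x) (tbl tL x)) 0 2 3 3 4 (-1) (-1) :=
  (sideN hx hx').nearA (Or.inr rfl) (Or.inr rfl) fun y y' F =>
    nearA_cert (s1 := false) (s2 := false) rfl hκ covN30 covN42 hx hx'
        Pool.Agent.Strip051.G.I1_16_1_8.Tab.C.NA34.c_mm_023 noCut_A noExt_A F trivial trivial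

theorem NA34_mm_033 {κ x : ℝ} (hκ : κ * h0 = ken x) (hx : ((67108864 : ℕ) : ℝ) / S ≤ x) (hx' : x ≤ (((67108864 : ℕ) : ℝ) + (67108864 : ℕ)) / S) :
    TriA PP.cur (nearL (h0 * 0) 3 κ (h0 * x) (tbl tKN x) (tbl tL x)) 0 3 3 3 4 (-1) (-1) :=
  (sideN hx hx').nearA (Or.inr rfl) (Or.inr rfl) fun y y' F =>
    nearA_cert (s1 := false) (s2 := false) rfl hκ covN30 covN43 hx hx'
        Pool.Agent.Strip051.G.I1_16_1_8.Tab.C.NA34.c_mm_033 noCut_A noExt_A F trivial trivial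

theorem NA34_mm_101 {κ x : ℝ} (hκ : κ * h0 = ken x) (hx : ((67108864 : ℕ) : ℝ) / S ≤ x) (hx' : x ≤ (((67108864 : ℕ) : ℝ) + (67108864 : ℕ)) / S) :
    TriA PP.cur (nearL (h0 * 0) 3 κ (h0 * x) (tbl tKN x) (tbl tL x)) 1 0 1 3 4 (-1) (-1) :=
  (sideN hx hx').nearA (Or.inr rfl) (Or.inr rfl) fun y y' F =>
    nearA_cert (s1 := false) (s2 := false) rfl hκ covN31 covN40 hx hx'
        Pool.Agent.Strip051.G.I1_16_1_8.Tab.C.NA34.c_mm_101 noCut_A noExt_A F trivial trivial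

theorem NA34_mm_102 {κ x : ℝ} (hκ : κ * h0 = ken x) (hx : ((67108864 : ℕ) : ℝ) / S ≤ x) (hx' : x ≤ (((67108864 : ℕ) : ℝ) + (67108864 : ℕ)) / S) :
    TriA PP.cur (nearL (h0 * 0) 3 κ (h0 * x) (tbl tKN x) (tbl tL x)) 1 0 2 3 4 (-1) (-1) :=
  (sideN hx hx').nearA (Or.inr rfl) (Or.inr rfl) fun y y' F =>
    nearA_cert (s1 := false) (s2 := false) rfl hκ covN31 covN40 hx hx'
        Pool.Agent.Strip051.G.I1_16_1_8.Tab.C.NA34.c_mm_102 noCut_A noExt_A F trivial trivial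

theorem NA34_mm_112 {κ x : ℝ} (hκ : κ * h0 = ken x) (hx : ((67108864 : ℕ) : ℝ) / S ≤ x) (hx' : x ≤ (((67108864 : ℕ) : ℝ) + (67108864 : ℕ)) / S) :
    TriA PP.cur (nearL (h0 * 0) 3 κ (h0 * x) (tbl tKN x) (tbl tL x)) 1 1 2 3 4 (-1) (-1) :=
  (sideN hx hx').nearA (Or.inr rfl) (Or.inr rfl) fun y y' F =>
    nearA_cert (s1 := false) (s2 := false) rfl hκ covN31 covN41 hx hx'
        Pool.Agent.Strip051.G.I1_16_1_8.Tab.C.NA34.c_mm_112 noCut_A noExt_A F trivial trivial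

theorem NA34_mm_113 {κ x : ℝ} (hκ : κ * h0 = ken x) (hx : ((67108864 : ℕ) : ℝ) / S ≤ x) (hx' : x ≤ (((67108864 : ℕ) : ℝ) + (67108864 : ℕ)) / S) :
    TriA PP.cur (nearL (h0 * 0) 3 κ (h0 * x) (tbl tKN x) (tbl tL x)) 1 1 3 3 4 (-1) (-1) :=
  (sideN hx hx').nearA (Or.inr rfl) (Or.inr rfl) fun y y' F =>
    nearA_cert (s1 := false) (s2 := false) rfl hκ covN31 covN41 hx hx'
        Pool.Agent.Strip051.G.I1_16_1_8.Tab.C.NA34.c_mm_113 noCut_A noExt_A F trivial trivial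

theorem NA34_mm_123 {κ x : ℝ} (hκ : κ * h0 = ken x) (hx : ((67108864 : ℕ) : ℝ) / S ≤ x) (hx' : x ≤ (((67108864 : ℕ) : ℝ) + (67108864 : ℕ)) / S) :
    TriA PP.cur (nearL (h0 * 0) 3 κ (h0 * x) (tbl tKN x) (tbl tL x)) 1 2 3 3 4 (-1) (-1) :=
  (sideN hx hx').nearA (Or.inr rfl) (Or.inr rfl) fun y y' F =>
    nearA_cert (s1 := false) (s2 := false) rfl hκ covN31 covN42 hx hx'
        Pool.Agent.Strip051.G.I1_16_1_8.Tab.C.NA34.c_mm_123 noCut_A noExt_A F trivial trivial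

theorem NA34_mm_133 {κ x : ℝ} (hκ : κ * h0 = ken x) (hx : ((67108864 : ℕ) : ℝ) / S ≤ x) (hx' : x ≤ (((67108864 : ℕ) : ℝ) + (67108864 : ℕ)) / S) :
    TriA PP.cur (nearL (h0 * 0) 3 κ (h0 * x) (tbl tKN x) (tbl tL x)) 1 3 3 3 4 (-1) (-1) :=
  (sideN hx hx').nearA (Or.inr rfl) (Or.inr rfl) fun y y' F =>
    nearA_cert (s1 := false) (s2 := false) rfl hκ covN31 covN43 hx hx'
        Pool.Agent.Strip051.G.I1_16_1_8.Tab.C.NA34.c_mm_133 noCut_A noExt_A F trivial trivial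

theorem NA34_mm_202 {κ x : ℝ} (hκ : κ * h0 = ken x) (hx : ((67108864 : ℕ) : ℝ) / S ≤ x) (hx' : x ≤ (((67108864 : ℕ) : ℝ) + (67108864 : ℕ)) / S) :
    TriA PP.cur (nearL (h0 * 0) 3 κ (h0 * x) (tbl tKN x) (tbl tL x)) 2 0 2 3 4 (-1) (-1) :=
  (sideN hx hx').nearA (Or.inr rfl) (Or.inr rfl) fun y y' F =>
    nearA_cert (s1 := false) (s2 := false) rfl hκ covN32 covN40 hx hx'
        Pool.Agent.Strip051.G.I1_16_1_8.Tab.C.NA34.c_mm_202 noCut_A noExt_A F trivial trivial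

theorem NA34_mm_203 {κ x : ℝ} (hκ : κ * h0 = ken x) (hx : ((67108864 : ℕ) : ℝ) / S ≤ x) (hx' : x ≤ (((67108864 : ℕ) : ℝ) + (67108864 : ℕ)) / S) :
    TriA PP.cur (nearL (h0 * 0) 3 κ (h0 * x) (tbl tKN x) (tbl tL x)) 2 0 3 3 4 (-1) (-1) :=
  (sideN hx hx').nearA (Or.inr rfl) (Or.inr rfl) fun y y' F =>
    nearA_cert (s1 := false) (s2 := false) rfl hκ covN32 covN40 hx hx'
        Pool.Agent.Strip051.G.I1_16_1_8.Tab.C.NA34.c_mm_203 noCut_A noExt_A F trivial trivial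

theorem NA34_mm_213 {κ x : ℝ} (hκ : κ * h0 = ken x) (hx : ((67108864 : ℕ) : ℝ) / S ≤ x) (hx' : x ≤ (((67108864 : ℕ) : ℝ) + (67108864 : ℕ)) / S) :
    TriA PP.cur (nearL (h0 * 0) 3 κ (h0 * x) (tbl tKN x) (tbl tL x)) 2 1 3 3 4 (-1) (-1) :=
  (sideN hx hx').nearA (Or.inr rfl) (Or.inr rfl) fun y y' F =>
    nearA_cert (s1 := false) (s2 := false) rfl hκ covN32 covN41 hx hx'
        Pool.Agent.Strip051.G.I1_16_1_8.Tab.C.NA34.c_mm_213 noCut_A noExt_A F trivial trivial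

theorem NA34_mm_303 {κ x : ℝ} (hκ : κ * h0 = ken x) (hx : ((67108864 : ℕ) : ℝ) / S ≤ x) (hx' : x ≤ (((67108864 : ℕ) : ℝ) + (67108864 : ℕ)) / S) :
    TriA PP.cur (nearL (h0 * 0) 3 κ (h0 * x) (tbl tKN x) (tbl tL x)) 3 0 3 3 4 (-1) (-1) :=
  (sideN hx hx').nearA (Or.inr rfl) (Or.inr rfl) fun y y' F =>
    nearA_cert (s1 := false) (s2 := false) rfl hκ covN33 covN40 hx hx'
        Pool.Agent.Strip051.G.I1_16_1_8.Tab.C.NA34.c_mm_303 noCut_A noExt_A F trivial trivial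

theorem NA34_mm_313 {κ x : ℝ} (hκ : κ * h0 = ken x) (hx : ((67108864 : ℕ) : ℝ) / S ≤ x) (hx' : x ≤ (((67108864 : ℕ) : ℝ) + (67108864 : ℕ)) / S) :
    TriA PP.cur (nearL (h0 * 0) 3 κ (h0 * x) (tbl tKN x) (tbl tL x)) 3 1 3 3 4 (-1) (-1) :=
  (sideN hx hx').nearA (Or.inr rfl) (Or.inr rfl) fun y y' F =>
    nearA_cert (s1 := false) (s2 := false) rfl hκ covN33 covN41 hx hx'
        Pool.Agent.Strip051.G.I1_16_1_8.Tab.C.NA34.c_mm_313 noCut_A noExt_A F trivial trivial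

theorem NA34 {κ x : ℝ} (hκ : κ * h0 = ken x) (hx : ((67108864 : ℕ) : ℝ) / S ≤ x) (hx' : x ≤ (((67108864 : ℕ) : ℝ) + (67108864 : ℕ)) / S) : AllTA PP.cur (nearL (h0 * 0) 3 κ (h0 * x) (tbl tKN x) (tbl tL x)) 3 4 where
  pp := all17 (Q := fun a b c => TriA PP.cur (nearL (h0 * 0) 3 κ (h0 * x) (tbl tKN x) (tbl tL x)) a b c 3 4 1 1)
    (NA34_pp_001 hκ hx hx') (NA34_pp_011 hκ hx hx') (NA34_pp_012 hκ hx hx') (NA34_pp_022 hκ hx hx') (NA34_pp_023 hκ hx hx') (NA34_pp_033 hκ hx hx') (NA34_pp_101 hκ hx hx') (NA34_pp_102 hκ hx hx') (NA34_pp_112 hκ hx hx') (NA34_pp_113 hκ hx hx') (NA34_pp_123 hκ hx hx') (NA34_pp_133 hκ hx hx') (NA34_pp_202 hκ hx hx') (NA34_pp_203 hκ hx hx') (NA34_pp_213 hκ hx hx') (NA34_pp_303 hκ hx hx') (NA34_pp_313 hκ hx hx')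
  pm := all17 (Q := fun a b c => TriA PP.cur (nearL (h0 * 0) 3 κ (h0 * x) (tbl tKN x) (tbl tL x)) a b c 3 4 1 (-1))
    (NA34_pm_001 hκ hx hx') (NA34_pm_011 hκ hx hx') (NA34_pm_012 hκ hx hx') (NA34_pm_022 hκ hx hx') (NA34_pm_023 hκ hx hx') (NA34_pm_033 hκ hx hx') (NA34_pm_101 hκ hx hx') (NA34_pm_102 hκ hx hx') (NA34_pm_112 hκ hx hx') (NA34_pm_113 hκ hx hx') (NA34_pm_123 hκ hx hx') (NA34_pm_133 hκ hx hx') (NA34_pm_202 hκ hx hx') (NA34_pm_203 hκ hx hx') (NA34_pm_213 hκ hx hx') (NA34_pm_303 hκ hx hx') (NA34_pm_313 hκ hx hx')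
  mm := all17 (Q := fun a b c => TriA PP.cur (nearL (h0 * 0) 3 κ (h0 * x) (tbl tKN x) (tbl tL x)) a b c 3 4 (-1) (-1))
    (NA34_mm_001 hκ hx hx') (NA34_mm_011 hκ hx hx') (NA34_mm_012 hκ hx hx') (NA34_mm_022 hκ hx hx') (NA34_mm_023 hκ hx hx') (NA34_mm_033 hκ hx hx') (NA34_mm_101 hκ hx hx') (NA34_mm_102 hκ hx hx') (NA34_mm_112 hκ hx hx') (NA34_mm_113 hκ hx hx') (NA34_mm_123 hκ hx hx') (NA34_mm_133 hκ hx hx') (NA34_mm_202 hκ hx hx') (NA34_mm_203 hκ hx hx') (NA34_mm_213 hκ hx hx') (NA34_mm_303 hκ hx hx') (NA34_mm_313 hκ hx hx')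

theorem NA44_pp_001 {κ x : ℝ} (hκ : κ * h0 = ken x) (hx : ((67108864 : ℕ) : ℝ) / S ≤ x) (hx' : x ≤ (((67108864 : ℕ) : ℝ) + (67108864 : ℕ)) / S) :
    TriA PP.cur (nearL (h0 * 0) 3 κ (h0 * x) (tbl tKN x) (tbl tL x)) 0 0 1 4 4 1 1 :=
  (sideN hx hx').nearA (Or.inl rfl) (Or.inl rfl) fun y y' F =>
    nearA_cert (s1 := true) (s2 := true) rfl hκ covN40 covN40 hx hx'
        Pool.Agent.Strip051.G.I1_16_1_8.Tab.C.NA44.c_pp_001 noCut_A noExt_A F trivial trivial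

theorem NA44_pp_011 {κ x : ℝ} (hκ : κ * h0 = ken x) (hx : ((67108864 : ℕ) : ℝ) / S ≤ x) (hx' : x ≤ (((67108864 : ℕ) : ℝ) + (67108864 : ℕ)) / S) :
    TriA PP.cur (nearL (h0 * 0) 3 κ (h0 * x) (tbl tKN x) (tbl tL x)) 0 1 1 4 4 1 1 :=
  (sideN hx hx').nearA (Or.inl rfl) (Or.inl rfl) fun y y' F =>
    nearA_cert (s1 := true) (s2 := true) rfl hκ covN40 covN41 hx hx'
        Pool.Agent.Strip051.G.I1_16_1_8.Tab.C.NA44.c_pp_011 noCut_A noExt_A F trivial trivial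

theorem NA44_pp_012 {κ x : ℝ} (hκ : κ * h0 = ken x) (hx : ((67108864 : ℕ) : ℝ) / S ≤ x) (hx' : x ≤ (((67108864 : ℕ) : ℝ) + (67108864 : ℕ)) / S) :
    TriA PP.cur (nearL (h0 * 0) 3 κ (h0 * x) (tbl tKN x) (tbl tL x)) 0 1 2 4 4 1 1 :=
  (sideN hx hx').nearA (Or.inl rfl) (Or.inl rfl) fun y y' F =>
    nearA_cert (s1 := true) (s2 := true) rfl hκ covN40 covN41 hx hx'
        Pool.Agent.Strip051.G.I1_16_1_8.Tab.C.NA44.c_pp_012 noCut_A noExt_A F trivial trivial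

theorem NA44_pp_022 {κ x : ℝ} (hκ : κ * h0 = ken x) (hx : ((67108864 : ℕ) : ℝ) / S ≤ x) (hx' : x ≤ (((67108864 : ℕ) : ℝ) + (67108864 : ℕ)) / S) :
    TriA PP.cur (nearL (h0 * 0) 3 κ (h0 * x) (tbl tKN x) (tbl tL x)) 0 2 2 4 4 1 1 :=
  (sideN hx hx').nearA (Or.inl rfl) (Or.inl rfl) fun y y' F =>
    nearA_cert (s1 := true) (s2 := true) rfl hκ covN40 covN42 hx hx'
        Pool.Agent.Strip051.G.I1_16_1_8.Tab.C.NA44.c_pp_022 noCut_A noExt_A F trivial trivial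

theorem NA44_pp_023 {κ x : ℝ} (hκ : κ * h0 = ken x) (hx : ((67108864 : ℕ) : ℝ) / S ≤ x) (hx' : x ≤ (((67108864 : ℕ) : ℝ) + (67108864 : ℕ)) / S) :
    TriA PP.cur (nearL (h0 * 0) 3 κ (h0 * x) (tbl tKN x) (tbl tL x)) 0 2 3 4 4 1 1 :=
  (sideN hx hx').nearA (Or.inl rfl) (Or.inl rfl) fun y y' F =>
    nearA_cert (s1 := true) (s2 := true) rfl hκ covN40 covN42 hx hx'
        Pool.Agent.Strip051.G.I1_16_1_8.Tab.C.NA44.c_pp_023 noCut_A noExt_A F trivial trivial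

theorem NA44_pp_033 {κ x : ℝ} (hκ : κ * h0 = ken x) (hx : ((67108864 : ℕ) : ℝ) / S ≤ x) (hx' : x ≤ (((67108864 : ℕ) : ℝ) + (67108864 : ℕ)) / S) :
    TriA PP.cur (nearL (h0 * 0) 3 κ (h0 * x) (tbl tKN x) (tbl tL x)) 0 3 3 4 4 1 1 :=
  (sideN hx hx').nearA (Or.inl rfl) (Or.inl rfl) fun y y' F =>
    nearA_cert (s1 := true) (s2 := true) rfl hκ covN40 covN43 hx hx'
        Pool.Agent.Strip051.G.I1_16_1_8.Tab.C.NA44.c_pp_033 noCut_A noExt_A F trivial trivial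

theorem NA44_pp_101 {κ x : ℝ} (hκ : κ * h0 = ken x) (hx : ((67108864 : ℕ) : ℝ) / S ≤ x) (hx' : x ≤ (((67108864 : ℕ) : ℝ) + (67108864 : ℕ)) / S) :
    TriA PP.cur (nearL (h0 * 0) 3 κ (h0 * x) (tbl tKN x) (tbl tL x)) 1 0 1 4 4 1 1 :=
  (sideN hx hx').nearA (Or.inl rfl) (Or.inl rfl) fun y y' F =>
    nearA_cert (s1 := true) (s2 := true) rfl hκ covN41 covN40 hx hx'
        Pool.Agent.Strip051.G.I1_16_1_8.Tab.C.NA44.c_pp_101 noCut_A noExt_A F trivial trivial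

theorem NA44_pp_102 {κ x : ℝ} (hκ : κ * h0 = ken x) (hx : ((67108864 : ℕ) : ℝ) / S ≤ x) (hx' : x ≤ (((67108864 : ℕ) : ℝ) + (67108864 : ℕ)) / S) :
    TriA PP.cur (nearL (h0 * 0) 3 κ (h0 * x) (tbl tKN x) (tbl tL x)) 1 0 2 4 4 1 1 :=
  (sideN hx hx').nearA (Or.inl rfl) (Or.inl rfl) fun y y' F =>
    nearA_cert (s1 := true) (s2 := true) rfl hκ covN41 covN40 hx hx'
        Pool.Agent.Strip051.G.I1_16_1_8.Tab.C.NA44.c_pp_102 noCut_A noExt_A F trivial trivial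

theorem NA44_pp_112 {κ x : ℝ} (hκ : κ * h0 = ken x) (hx : ((67108864 : ℕ) : ℝ) / S ≤ x) (hx' : x ≤ (((67108864 : ℕ) : ℝ) + (67108864 : ℕ)) / S) :
    TriA PP.cur (nearL (h0 * 0) 3 κ (h0 * x) (tbl tKN x) (tbl tL x)) 1 1 2 4 4 1 1 :=
  (sideN hx hx').nearA (Or.inl rfl) (Or.inl rfl) fun y y' F =>
    nearA_cert (s1 := true) (s2 := true) rfl hκ covN41 covN41 hx hx'
        Pool.Agent.Strip051.G.I1_16_1_8.Tab.C.NA44.c_pp_112 noCut_A noExt_A F trivial trivial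

theorem NA44_pp_113 {κ x : ℝ} (hκ : κ * h0 = ken x) (hx : ((67108864 : ℕ) : ℝ) / S ≤ x) (hx' : x ≤ (((67108864 : ℕ) : ℝ) + (67108864 : ℕ)) / S) :
    TriA PP.cur (nearL (h0 * 0) 3 κ (h0 * x) (tbl tKN x) (tbl tL x)) 1 1 3 4 4 1 1 :=
  (sideN hx hx').nearA (Or.inl rfl) (Or.inl rfl) fun y y' F =>
    nearA_cert (s1 := true) (s2 := true) rfl hκ covN41 covN41 hx hx'
        Pool.Agent.Strip051.G.I1_16_1_8.Tab.C.NA44.c_pp_113 noCut_A noExt_A F trivial trivial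

theorem NA44_pp_123 {κ x : ℝ} (hκ : κ * h0 = ken x) (hx : ((67108864 : ℕ) : ℝ) / S ≤ x) (hx' : x ≤ (((67108864 : ℕ) : ℝ) + (67108864 : ℕ)) / S) :
    TriA PP.cur (nearL (h0 * 0) 3 κ (h0 * x) (tbl tKN x) (tbl tL x)) 1 2 3 4 4 1 1 :=
  (sideN hx hx').nearA (Or.inl rfl) (Or.inl rfl) fun y y' F =>
    nearA_cert (s1 := true) (s2 := true) rfl hκ covN41 covN42 hx hx'
        Pool.Agent.Strip051.G.I1_16_1_8.Tab.C.NA44.c_pp_123 noCut_A noExt_A F trivial trivial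

theorem NA44_pp_133 {κ x : ℝ} (hκ : κ * h0 = ken x) (hx : ((67108864 : ℕ) : ℝ) / S ≤ x) (hx' : x ≤ (((67108864 : ℕ) : ℝ) + (67108864 : ℕ)) / S) :
    TriA PP.cur (nearL (h0 * 0) 3 κ (h0 * x) (tbl tKN x) (tbl tL x)) 1 3 3 4 4 1 1 :=
  (sideN hx hx').nearA (Or.inl rfl) (Or.inl rfl) fun y y' F =>
    nearA_cert (s1 := true) (s2 := true) rfl hκ covN41 covN43 hx hx'
        Pool.Agent.Strip051.G.I1_16_1_8.Tab.C.NA44.c_pp_133 noCut_A noExt_A F trivial trivial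

theorem NA44_pp_202 {κ x : ℝ} (hκ : κ * h0 = ken x) (hx : ((67108864 : ℕ) : ℝ) / S ≤ x) (hx' : x ≤ (((67108864 : ℕ) : ℝ) + (67108864 : ℕ)) / S) :
    TriA PP.cur (nearL (h0 * 0) 3 κ (h0 * x) (tbl tKN x) (tbl tL x)) 2 0 2 4 4 1 1 :=
  (sideN hx hx').nearA (Or.inl rfl) (Or.inl rfl) fun y y' F =>
    nearA_cert (s1 := true) (s2 := true) rfl hκ covN42 covN40 hx hx'
        Pool.Agent.Strip051.G.I1_16_1_8.Tab.C.NA44.c_pp_202 noCut_A noExt_A F trivial trivial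

theorem NA44_pp_203 {κ x : ℝ} (hκ : κ * h0 = ken x) (hx : ((67108864 : ℕ) : ℝ) / S ≤ x) (hx' : x ≤ (((67108864 : ℕ) : ℝ) + (67108864 : ℕ)) / S) :
    TriA PP.cur (nearL (h0 * 0) 3 κ (h0 * x) (tbl tKN x) (tbl tL x)) 2 0 3 4 4 1 1 :=
  (sideN hx hx').nearA (Or.inl rfl) (Or.inl rfl) fun y y' F =>
    nearA_cert (s1 := true) (s2 := true) rfl hκ covN42 covN40 hx hx'
        Pool.Agent.Strip051.G.I1_16_1_8.Tab.C.NA44.c_pp_203 noCut_A noExt_A F trivial trivial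

theorem NA44_pp_213 {κ x : ℝ} (hκ : κ * h0 = ken x) (hx : ((67108864 : ℕ) : ℝ) / S ≤ x) (hx' : x ≤ (((67108864 : ℕ) : ℝ) + (67108864 : ℕ)) / S) :
    TriA PP.cur (nearL (h0 * 0) 3 κ (h0 * x) (tbl tKN x) (tbl tL x)) 2 1 3 4 4 1 1 :=
  (sideN hx hx').nearA (Or.inl rfl) (Or.inl rfl) fun y y' F =>
    nearA_cert (s1 := true) (s2 := true) rfl hκ covN42 covN41 hx hx'
        Pool.Agent.Strip051.G.I1_16_1_8.Tab.C.NA44.c_pp_213 noCut_A noExt_A F trivial trivial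

theorem NA44_pp_303 {κ x : ℝ} (hκ : κ * h0 = ken x) (hx : ((67108864 : ℕ) : ℝ) / S ≤ x) (hx' : x ≤ (((67108864 : ℕ) : ℝ) + (67108864 : ℕ)) / S) :
    TriA PP.cur (nearL (h0 * 0) 3 κ (h0 * x) (tbl tKN x) (tbl tL x)) 3 0 3 4 4 1 1 :=
  (sideN hx hx').nearA (Or.inl rfl) (Or.inl rfl) fun y y' F =>
    nearA_cert (s1 := true) (s2 := true) rfl hκ covN43 covN40 hx hx'
        Pool.Agent.Strip051.G.I1_16_1_8.Tab.C.NA44.c_pp_303 noCut_A noExt_A F trivial trivial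

theorem NA44_pp_313 {κ x : ℝ} (hκ : κ * h0 = ken x) (hx : ((67108864 : ℕ) : ℝ) / S ≤ x) (hx' : x ≤ (((67108864 : ℕ) : ℝ) + (67108864 : ℕ)) / S) :
    TriA PP.cur (nearL (h0 * 0) 3 κ (h0 * x) (tbl tKN x) (tbl tL x)) 3 1 3 4 4 1 1 :=
  (sideN hx hx').nearA (Or.inl rfl) (Or.inl rfl) fun y y' F =>
    nearA_cert (s1 := true) (s2 := true) rfl hκ covN43 covN41 hx hx'
        Pool.Agent.Strip051.G.I1_16_1_8.Tab.C.NA44.c_pp_313 noCut_A noExt_A F trivial trivial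

theorem NA44_pm_001 {κ x : ℝ} (hκ : κ * h0 = ken x) (hx : ((67108864 : ℕ) : ℝ) / S ≤ x) (hx' : x ≤ (((67108864 : ℕ) : ℝ) + (67108864 : ℕ)) / S) :
    TriA PP.cur (nearL (h0 * 0) 3 κ (h0 * x) (tbl tKN x) (tbl tL x)) 0 0 1 4 4 1 (-1) :=
  (sideN hx hx').nearA (Or.inl rfl) (Or.inr rfl) fun y y' F =>
    nearA_cert (s1 := true) (s2 := false) rfl hκ covN40 covN40 hx hx'
        Pool.Agent.Strip051.G.I1_16_1_8.Tab.C.NA44.c_pm_001 noCut_A noExt_A F trivial trivial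

theorem NA44_pm_011 {κ x : ℝ} (hκ : κ * h0 = ken x) (hx : ((67108864 : ℕ) : ℝ) / S ≤ x) (hx' : x ≤ (((67108864 : ℕ) : ℝ) + (67108864 : ℕ)) / S) :
    TriA PP.cur (nearL (h0 * 0) 3 κ (h0 * x) (tbl tKN x) (tbl tL x)) 0 1 1 4 4 1 (-1) :=
  (sideN hx hx').nearA (Or.inl rfl) (Or.inr rfl) fun y y' F =>
    nearA_cert (s1 := true) (s2 := false) rfl hκ covN40 covN41 hx hx'
        Pool.Agent.Strip051.G.I1_16_1_8.Tab.C.NA44.c_pm_011 noCut_A noExt_A F trivial trivial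

theorem NA44_pm_012 {κ x : ℝ} (hκ : κ * h0 = ken x) (hx : ((67108864 : ℕ) : ℝ) / S ≤ x) (hx' : x ≤ (((67108864 : ℕ) : ℝ) + (67108864 : ℕ)) / S) :
    TriA PP.cur (nearL (h0 * 0) 3 κ (h0 * x) (tbl tKN x) (tbl tL x)) 0 1 2 4 4 1 (-1) :=
  (sideN hx hx').nearA (Or.inl rfl) (Or.inr rfl) fun y y' F =>
    nearA_cert (s1 := true) (s2 := false) rfl hκ covN40 covN41 hx hx'
        Pool.Agent.Strip051.G.I1_16_1_8.Tab.C.NA44.c_pm_012 noCut_A noExt_A F trivial trivial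

theorem NA44_pm_022 {κ x : ℝ} (hκ : κ * h0 = ken x) (hx : ((67108864 : ℕ) : ℝ) / S ≤ x) (hx' : x ≤ (((67108864 : ℕ) : ℝ) + (67108864 : ℕ)) / S) :
    TriA PP.cur (nearL (h0 * 0) 3 κ (h0 * x) (tbl tKN x) (tbl tL x)) 0 2 2 4 4 1 (-1) :=
  (sideN hx hx').nearA (Or.inl rfl) (Or.inr rfl) fun y y' F =>
    nearA_cert (s1 := true) (s2 := false) rfl hκ covN40 covN42 hx hx'
        Pool.Agent.Strip051.G.I1_16_1_8.Tab.C.NA44.c_pm_022 noCut_A noExt_A F trivial trivial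

theorem NA44_pm_023 {κ x : ℝ} (hκ : κ * h0 = ken x) (hx : ((67108864 : ℕ) : ℝ) / S ≤ x) (hx' : x ≤ (((67108864 : ℕ) : ℝ) + (67108864 : ℕ)) / S) :
    TriA PP.cur (nearL (h0 * 0) 3 κ (h0 * x) (tbl tKN x) (tbl tL x)) 0 2 3 4 4 1 (-1) :=
  (sideN hx hx').nearA (Or.inl rfl) (Or.inr rfl) fun y y' F =>
    nearA_cert (s1 := true) (s2 := false) rfl hκ covN40 covN42 hx hx'
        Pool.Agent.Strip051.G.I1_16_1_8.Tab.C.NA44.c_pm_023 noCut_A noExt_A F trivial trivial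

theorem NA44_pm_033 {κ x : ℝ} (hκ : κ * h0 = ken x) (hx : ((67108864 : ℕ) : ℝ) / S ≤ x) (hx' : x ≤ (((67108864 : ℕ) : ℝ) + (67108864 : ℕ)) / S) :
    TriA PP.cur (nearL (h0 * 0) 3 κ (h0 * x) (tbl tKN x) (tbl tL x)) 0 3 3 4 4 1 (-1) :=
  (sideN hx hx').nearA (Or.inl rfl) (Or.inr rfl) fun y y' F =>
    nearA_cert (s1 := true) (s2 := false) rfl hκ covN40 covN43 hx hx'
        Pool.Agent.Strip051.G.I1_16_1_8.Tab.C.NA44.c_pm_033 noCut_A noExt_A F trivial trivial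

theorem NA44_pm_101 {κ x : ℝ} (hκ : κ * h0 = ken x) (hx : ((67108864 : ℕ) : ℝ) / S ≤ x) (hx' : x ≤ (((67108864 : ℕ) : ℝ) + (67108864 : ℕ)) / S) :
    TriA PP.cur (nearL (h0 * 0) 3 κ (h0 * x) (tbl tKN x) (tbl tL x)) 1 0 1 4 4 1 (-1) :=
  (sideN hx hx').nearA (Or.inl rfl) (Or.inr rfl) fun y y' F =>
    nearA_cert (s1 := true) (s2 := false) rfl hκ covN41 covN40 hx hx'
        Pool.Agent.Strip051.G.I1_16_1_8.Tab.C.NA44.c_pm_101 noCut_A noExt_A F trivial trivial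

theorem NA44_pm_102 {κ x : ℝ} (hκ : κ * h0 = ken x) (hx : ((67108864 : ℕ) : ℝ) / S ≤ x) (hx' : x ≤ (((67108864 : ℕ) : ℝ) + (67108864 : ℕ)) / S) :
    TriA PP.cur (nearL (h0 * 0) 3 κ (h0 * x) (tbl tKN x) (tbl tL x)) 1 0 2 4 4 1 (-1) :=
  (sideN hx hx').nearA (Or.inl rfl) (Or.inr rfl) fun y y' F =>
    nearA_cert (s1 := true) (s2 := false) rfl hκ covN41 covN40 hx hx'
        Pool.Agent.Strip051.G.I1_16_1_8.Tab.C.NA44.c_pm_102 noCut_A noExt_A F trivial trivial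

theorem NA44_pm_112 {κ x : ℝ} (hκ : κ * h0 = ken x) (hx : ((67108864 : ℕ) : ℝ) / S ≤ x) (hx' : x ≤ (((67108864 : ℕ) : ℝ) + (67108864 : ℕ)) / S) :
    TriA PP.cur (nearL (h0 * 0) 3 κ (h0 * x) (tbl tKN x) (tbl tL x)) 1 1 2 4 4 1 (-1) :=
  (sideN hx hx').nearA (Or.inl rfl) (Or.inr rfl) fun y y' F =>
    nearA_cert (s1 := true) (s2 := false) rfl hκ covN41 covN41 hx hx'
        Pool.Agent.Strip051.G.I1_16_1_8.Tab.C.NA44.c_pm_112 noCut_A noExt_A F trivial trivial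

theorem NA44_pm_113 {κ x : ℝ} (hκ : κ * h0 = ken x) (hx : ((67108864 : ℕ) : ℝ) / S ≤ x) (hx' : x ≤ (((67108864 : ℕ) : ℝ) + (67108864 : ℕ)) / S) :
    TriA PP.cur (nearL (h0 * 0) 3 κ (h0 * x) (tbl tKN x) (tbl tL x)) 1 1 3 4 4 1 (-1) :=
  (sideN hx hx').nearA (Or.inl rfl) (Or.inr rfl) fun y y' F =>
    nearA_cert (s1 := true) (s2 := false) rfl hκ covN41 covN41 hx hx'
        Pool.Agent.Strip051.G.I1_16_1_8.Tab.C.NA44.c_pm_113 noCut_A noExt_A F trivial trivial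

theorem NA44_pm_123 {κ x : ℝ} (hκ : κ * h0 = ken x) (hx : ((67108864 : ℕ) : ℝ) / S ≤ x) (hx' : x ≤ (((67108864 : ℕ) : ℝ) + (67108864 : ℕ)) / S) :
    TriA PP.cur (nearL (h0 * 0) 3 κ (h0 * x) (tbl tKN x) (tbl tL x)) 1 2 3 4 4 1 (-1) :=
  (sideN hx hx').nearA (Or.inl rfl) (Or.inr rfl) fun y y' F =>
    nearA_cert (s1 := true) (s2 := false) rfl hκ covN41 covN42 hx hx'
        Pool.Agent.Strip051.G.I1_16_1_8.Tab.C.NA44.c_pm_123 noCut_A noExt_A F trivial trivial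

theorem NA44_pm_133 {κ x : ℝ} (hκ : κ * h0 = ken x) (hx : ((67108864 : ℕ) : ℝ) / S ≤ x) (hx' : x ≤ (((67108864 : ℕ) : ℝ) + (67108864 : ℕ)) / S) :
    TriA PP.cur (nearL (h0 * 0) 3 κ (h0 * x) (tbl tKN x) (tbl tL x)) 1 3 3 4 4 1 (-1) :=
  (sideN hx hx').nearA (Or.inl rfl) (Or.inr rfl) fun y y' F =>
    nearA_cert (s1 := true) (s2 := false) rfl hκ covN41 covN43 hx hx'
        Pool.Agent.Strip051.G.I1_16_1_8.Tab.C.NA44.c_pm_133 noCut_A noExt_A F trivial trivial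

theorem NA44_pm_202 {κ x : ℝ} (hκ : κ * h0 = ken x) (hx : ((67108864 : ℕ) : ℝ) / S ≤ x) (hx' : x ≤ (((67108864 : ℕ) : ℝ) + (67108864 : ℕ)) / S) :
    TriA PP.cur (nearL (h0 * 0) 3 κ (h0 * x) (tbl tKN x) (tbl tL x)) 2 0 2 4 4 1 (-1) :=
  (sideN hx hx').nearA (Or.inl rfl) (Or.inr rfl) fun y y' F =>
    nearA_cert (s1 := true) (s2 := false) rfl hκ covN42 covN40 hx hx'
        Pool.Agent.Strip051.G.I1_16_1_8.Tab.C.NA44.c_pm_202 noCut_A noExt_A F trivial trivial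

theorem NA44_pm_203 {κ x : ℝ} (hκ : κ * h0 = ken x) (hx : ((67108864 : ℕ) : ℝ) / S ≤ x) (hx' : x ≤ (((67108864 : ℕ) : ℝ) + (67108864 : ℕ)) / S) :
    TriA PP.cur (nearL (h0 * 0) 3 κ (h0 * x) (tbl tKN x) (tbl tL x)) 2 0 3 4 4 1 (-1) :=
  (sideN hx hx').nearA (Or.inl rfl) (Or.inr rfl) fun y y' F =>
    nearA_cert (s1 := true) (s2 := false) rfl hκ covN42 covN40 hx hx'
        Pool.Agent.Strip051.G.I1_16_1_8.Tab.C.NA44.c_pm_203 noCut_A noExt_A F trivial trivial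

theorem NA44_pm_213 {κ x : ℝ} (hκ : κ * h0 = ken x) (hx : ((67108864 : ℕ) : ℝ) / S ≤ x) (hx' : x ≤ (((67108864 : ℕ) : ℝ) + (67108864 : ℕ)) / S) :
    TriA PP.cur (nearL (h0 * 0) 3 κ (h0 * x) (tbl tKN x) (tbl tL x)) 2 1 3 4 4 1 (-1) :=
  (sideN hx hx').nearA (Or.inl rfl) (Or.inr rfl) fun y y' F =>
    nearA_cert (s1 := true) (s2 := false) rfl hκ covN42 covN41 hx hx'
        Pool.Agent.Strip051.G.I1_16_1_8.Tab.C.NA44.c_pm_213 noCut_A noExt_A F trivial trivial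

theorem NA44_pm_303 {κ x : ℝ} (hκ : κ * h0 = ken x) (hx : ((67108864 : ℕ) : ℝ) / S ≤ x) (hx' : x ≤ (((67108864 : ℕ) : ℝ) + (67108864 : ℕ)) / S) :
    TriA PP.cur (nearL (h0 * 0) 3 κ (h0 * x) (tbl tKN x) (tbl tL x)) 3 0 3 4 4 1 (-1) :=
  (sideN hx hx').nearA (Or.inl rfl) (Or.inr rfl) fun y y' F =>
    nearA_cert (s1 := true) (s2 := false) rfl hκ covN43 covN40 hx hx'
        Pool.Agent.Strip051.G.I1_16_1_8.Tab.C.NA44.c_pm_303 noCut_A noExt_A F trivial trivial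

theorem NA44_pm_313 {κ x : ℝ} (hκ : κ * h0 = ken x) (hx : ((67108864 : ℕ) : ℝ) / S ≤ x) (hx' : x ≤ (((67108864 : ℕ) : ℝ) + (67108864 : ℕ)) / S) :
    TriA PP.cur (nearL (h0 * 0) 3 κ (h0 * x) (tbl tKN x) (tbl tL x)) 3 1 3 4 4 1 (-1) :=
  (sideN hx hx').nearA (Or.inl rfl) (Or.inr rfl) fun y y' F =>
    nearA_cert (s1 := true) (s2 := false) rfl hκ covN43 covN41 hx hx'
        Pool.Agent.Strip051.G.I1_16_1_8.Tab.C.NA44.c_pm_313 noCut_A noExt_A F trivial trivial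

theorem NA44_mm_001 {κ x : ℝ} (hκ : κ * h0 = ken x) (hx : ((67108864 : ℕ) : ℝ) / S ≤ x) (hx' : x ≤ (((67108864 : ℕ) : ℝ) + (67108864 : ℕ)) / S) :
    TriA PP.cur (nearL (h0 * 0) 3 κ (h0 * x) (tbl tKN x) (tbl tL x)) 0 0 1 4 4 (-1) (-1) :=
  (sideN hx hx').nearA (Or.inr rfl) (Or.inr rfl) fun y y' F =>
    nearA_cert (s1 := false) (s2 := false) rfl hκ covN40 covN40 hx hx'
        Pool.Agent.Strip051.G.I1_16_1_8.Tab.C.NA44.c_mm_001 noCut_A noExt_A F trivial trivial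

theorem NA44_mm_011 {κ x : ℝ} (hκ : κ * h0 = ken x) (hx : ((67108864 : ℕ) : ℝ) / S ≤ x) (hx' : x ≤ (((67108864 : ℕ) : ℝ) + (67108864 : ℕ)) / S) :
    TriA PP.cur (nearL (h0 * 0) 3 κ (h0 * x) (tbl tKN x) (tbl tL x)) 0 1 1 4 4 (-1) (-1) :=
  (sideN hx hx').nearA (Or.inr rfl) (Or.inr rfl) fun y y' F =>
    nearA_cert (s1 := false) (s2 := false) rfl hκ covN40 covN41 hx hx'
        Pool.Agent.Strip051.G.I1_16_1_8.Tab.C.NA44.c_mm_011 noCut_A noExt_A F trivial trivial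

theorem NA44_mm_012 {κ x : ℝ} (hκ : κ * h0 = ken x) (hx : ((67108864 : ℕ) : ℝ) / S ≤ x) (hx' : x ≤ (((67108864 : ℕ) : ℝ) + (67108864 : ℕ)) / S) :
    TriA PP.cur (nearL (h0 * 0) 3 κ (h0 * x) (tbl tKN x) (tbl tL x)) 0 1 2 4 4 (-1) (-1) :=
  (sideN hx hx').nearA (Or.inr rfl) (Or.inr rfl) fun y y' F =>
    nearA_cert (s1 := false) (s2 := false) rfl hκ covN40 covN41 hx hx'
        Pool.Agent.Strip051.G.I1_16_1_8.Tab.C.NA44.c_mm_012 noCut_A noExt_A F trivial trivial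

theorem NA44_mm_022 {κ x : ℝ} (hκ : κ * h0 = ken x) (hx : ((67108864 : ℕ) : ℝ) / S ≤ x) (hx' : x ≤ (((67108864 : ℕ) : ℝ) + (67108864 : ℕ)) / S) :
    TriA PP.cur (nearL (h0 * 0) 3 κ (h0 * x) (tbl tKN x) (tbl tL x)) 0 2 2 4 4 (-1) (-1) :=
  (sideN hx hx').nearA (Or.inr rfl) (Or.inr rfl) fun y y' F =>
    nearA_cert (s1 := false) (s2 := false) rfl hκ covN40 covN42 hx hx'
        Pool.Agent.Strip051.G.I1_16_1_8.Tab.C.NA44.c_mm_022 noCut_A noExt_A F trivial trivial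

theorem NA44_mm_023 {κ x : ℝ} (hκ : κ * h0 = ken x) (hx : ((67108864 : ℕ) : ℝ) / S ≤ x) (hx' : x ≤ (((67108864 : ℕ) : ℝ) + (67108864 : ℕ)) / S) :
    TriA PP.cur (nearL (h0 * 0) 3 κ (h0 * x) (tbl tKN x) (tbl tL x)) 0 2 3 4 4 (-1) (-1) :=
  (sideN hx hx').nearA (Or.inr rfl) (Or.inr rfl) fun y y' F =>
    nearA_cert (s1 := false) (s2 := false) rfl hκ covN40 covN42 hx hx'
        Pool.Agent.Strip051.G.I1_16_1_8.Tab.C.NA44.c_mm_023 noCut_A noExt_A F trivial trivial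

theorem NA44_mm_033 {κ x : ℝ} (hκ : κ * h0 = ken x) (hx : ((67108864 : ℕ) : ℝ) / S ≤ x) (hx' : x ≤ (((67108864 : ℕ) : ℝ) + (67108864 : ℕ)) / S) :
    TriA PP.cur (nearL (h0 * 0) 3 κ (h0 * x) (tbl tKN x) (tbl tL x)) 0 3 3 4 4 (-1) (-1) :=
  (sideN hx hx').nearA (Or.inr rfl) (Or.inr rfl) fun y y' F =>
    nearA_cert (s1 := false) (s2 := false) rfl hκ covN40 covN43 hx hx'
        Pool.Agent.Strip051.G.I1_16_1_8.Tab.C.NA44.c_mm_033 noCut_A noExt_A F trivial trivial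

theorem NA44_mm_101 {κ x : ℝ} (hκ : κ * h0 = ken x) (hx : ((67108864 : ℕ) : ℝ) / S ≤ x) (hx' : x ≤ (((67108864 : ℕ) : ℝ) + (67108864 : ℕ)) / S) :
    TriA PP.cur (nearL (h0 * 0) 3 κ (h0 * x) (tbl tKN x) (tbl tL x)) 1 0 1 4 4 (-1) (-1) :=
  (sideN hx hx').nearA (Or.inr rfl) (Or.inr rfl) fun y y' F =>
    nearA_cert (s1 := false) (s2 := false) rfl hκ covN41 covN40 hx hx'
        Pool.Agent.Strip051.G.I1_16_1_8.Tab.C.NA44.c_mm_101 noCut_A noExt_A F trivial trivial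

theorem NA44_mm_102 {κ x : ℝ} (hκ : κ * h0 = ken x) (hx : ((67108864 : ℕ) : ℝ) / S ≤ x) (hx' : x ≤ (((67108864 : ℕ) : ℝ) + (67108864 : ℕ)) / S) :
    TriA PP.cur (nearL (h0 * 0) 3 κ (h0 * x) (tbl tKN x) (tbl tL x)) 1 0 2 4 4 (-1) (-1) :=
  (sideN hx hx').nearA (Or.inr rfl) (Or.inr rfl) fun y y' F =>
    nearA_cert (s1 := false) (s2 := false) rfl hκ covN41 covN40 hx hx'
        Pool.Agent.Strip051.G.I1_16_1_8.Tab.C.NA44.c_mm_102 noCut_A noExt_A F trivial trivial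

theorem NA44_mm_112 {κ x : ℝ} (hκ : κ * h0 = ken x) (hx : ((67108864 : ℕ) : ℝ) / S ≤ x) (hx' : x ≤ (((67108864 : ℕ) : ℝ) + (67108864 : ℕ)) / S) :
    TriA PP.cur (nearL (h0 * 0) 3 κ (h0 * x) (tbl tKN x) (tbl tL x)) 1 1 2 4 4 (-1) (-1) :=
  (sideN hx hx').nearA (Or.inr rfl) (Or.inr rfl) fun y y' F =>
    nearA_cert (s1 := false) (s2 := false) rfl hκ covN41 covN41 hx hx'
        Pool.Agent.Strip051.G.I1_16_1_8.Tab.C.NA44.c_mm_112 noCut_A noExt_A F trivial trivial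

theorem NA44_mm_113 {κ x : ℝ} (hκ : κ * h0 = ken x) (hx : ((67108864 : ℕ) : ℝ) / S ≤ x) (hx' : x ≤ (((67108864 : ℕ) : ℝ) + (67108864 : ℕ)) / S) :
    TriA PP.cur (nearL (h0 * 0) 3 κ (h0 * x) (tbl tKN x) (tbl tL x)) 1 1 3 4 4 (-1) (-1) :=
  (sideN hx hx').nearA (Or.inr rfl) (Or.inr rfl) fun y y' F =>
    nearA_cert (s1 := false) (s2 := false) rfl hκ covN41 covN41 hx hx'
        Pool.Agent.Strip051.G.I1_16_1_8.Tab.C.NA44.c_mm_113 noCut_A noExt_A F trivial trivial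

theorem NA44_mm_123 {κ x : ℝ} (hκ : κ * h0 = ken x) (hx : ((67108864 : ℕ) : ℝ) / S ≤ x) (hx' : x ≤ (((67108864 : ℕ) : ℝ) + (67108864 : ℕ)) / S) :
    TriA PP.cur (nearL (h0 * 0) 3 κ (h0 * x) (tbl tKN x) (tbl tL x)) 1 2 3 4 4 (-1) (-1) :=
  (sideN hx hx').nearA (Or.inr rfl) (Or.inr rfl) fun y y' F =>
    nearA_cert (s1 := false) (s2 := false) rfl hκ covN41 covN42 hx hx'
        Pool.Agent.Strip051.G.I1_16_1_8.Tab.C.NA44.c_mm_123 noCut_A noExt_A F trivial trivial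

theorem NA44_mm_133 {κ x : ℝ} (hκ : κ * h0 = ken x) (hx : ((67108864 : ℕ) : ℝ) / S ≤ x) (hx' : x ≤ (((67108864 : ℕ) : ℝ) + (67108864 : ℕ)) / S) :
    TriA PP.cur (nearL (h0 * 0) 3 κ (h0 * x) (tbl tKN x) (tbl tL x)) 1 3 3 4 4 (-1) (-1) :=
  (sideN hx hx').nearA (Or.inr rfl) (Or.inr rfl) fun y y' F =>
    nearA_cert (s1 := false) (s2 := false) rfl hκ covN41 covN43 hx hx'
        Pool.Agent.Strip051.G.I1_16_1_8.Tab.C.NA44.c_mm_133 noCut_A noExt_A F trivial trivial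

theorem NA44_mm_202 {κ x : ℝ} (hκ : κ * h0 = ken x) (hx : ((67108864 : ℕ) : ℝ) / S ≤ x) (hx' : x ≤ (((67108864 : ℕ) : ℝ) + (67108864 : ℕ)) / S) :
    TriA PP.cur (nearL (h0 * 0) 3 κ (h0 * x) (tbl tKN x) (tbl tL x)) 2 0 2 4 4 (-1) (-1) :=
  (sideN hx hx').nearA (Or.inr rfl) (Or.inr rfl) fun y y' F =>
    nearA_cert (s1 := false) (s2 := false) rfl hκ covN42 covN40 hx hx'
        Pool.Agent.Strip051.G.I1_16_1_8.Tab.C.NA44.c_mm_202 noCut_A noExt_A F trivial trivial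

theorem NA44_mm_203 {κ x : ℝ} (hκ : κ * h0 = ken x) (hx : ((67108864 : ℕ) : ℝ) / S ≤ x) (hx' : x ≤ (((67108864 : ℕ) : ℝ) + (67108864 : ℕ)) / S) :
    TriA PP.cur (nearL (h0 * 0) 3 κ (h0 * x) (tbl tKN x) (tbl tL x)) 2 0 3 4 4 (-1) (-1) :=
  (sideN hx hx').nearA (Or.inr rfl) (Or.inr rfl) fun y y' F =>
    nearA_cert (s1 := false) (s2 := false) rfl hκ covN42 covN40 hx hx'
        Pool.Agent.Strip051.G.I1_16_1_8.Tab.C.NA44.c_mm_203 noCut_A noExt_A F trivial trivial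

theorem NA44_mm_213 {κ x : ℝ} (hκ : κ * h0 = ken x) (hx : ((67108864 : ℕ) : ℝ) / S ≤ x) (hx' : x ≤ (((67108864 : ℕ) : ℝ) + (67108864 : ℕ)) / S) :
    TriA PP.cur (nearL (h0 * 0) 3 κ (h0 * x) (tbl tKN x) (tbl tL x)) 2 1 3 4 4 (-1) (-1) :=
  (sideN hx hx').nearA (Or.inr rfl) (Or.inr rfl) fun y y' F =>
    nearA_cert (s1 := false) (s2 := false) rfl hκ covN42 covN41 hx hx'
        Pool.Agent.Strip051.G.I1_16_1_8.Tab.C.NA44.c_mm_213 noCut_A noExt_A F trivial trivial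

theorem NA44_mm_303 {κ x : ℝ} (hκ : κ * h0 = ken x) (hx : ((67108864 : ℕ) : ℝ) / S ≤ x) (hx' : x ≤ (((67108864 : ℕ) : ℝ) + (67108864 : ℕ)) / S) :
    TriA PP.cur (nearL (h0 * 0) 3 κ (h0 * x) (tbl tKN x) (tbl tL x)) 3 0 3 4 4 (-1) (-1) :=
  (sideN hx hx').nearA (Or.inr rfl) (Or.inr rfl) fun y y' F =>
    nearA_cert (s1 := false) (s2 := false) rfl hκ covN43 covN40 hx hx'
        Pool.Agent.Strip051.G.I1_16_1_8.Tab.C.NA44.c_mm_303 noCut_A noExt_A F trivial trivial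

theorem NA44_mm_313 {κ x : ℝ} (hκ : κ * h0 = ken x) (hx : ((67108864 : ℕ) : ℝ) / S ≤ x) (hx' : x ≤ (((67108864 : ℕ) : ℝ) + (67108864 : ℕ)) / S) :
    TriA PP.cur (nearL (h0 * 0) 3 κ (h0 * x) (tbl tKN x) (tbl tL x)) 3 1 3 4 4 (-1) (-1) :=
  (sideN hx hx').nearA (Or.inr rfl) (Or.inr rfl) fun y y' F =>
    nearA_cert (s1 := false) (s2 := false) rfl hκ covN43 covN41 hx hx'
        Pool.Agent.Strip051.G.I1_16_1_8.Tab.C.NA44.c_mm_313 noCut_A noExt_A F trivial trivial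

theorem NA44 {κ x : ℝ} (hκ : κ * h0 = ken x) (hx : ((67108864 : ℕ) : ℝ) / S ≤ x) (hx' : x ≤ (((67108864 : ℕ) : ℝ) + (67108864 : ℕ)) / S) : AllTA PP.cur (nearL (h0 * 0) 3 κ (h0 * x) (tbl tKN x) (tbl tL x)) 4 4 where
  pp := all17 (Q := fun a b c => TriA PP.cur (nearL (h0 * 0) 3 κ (h0 * x) (tbl tKN x) (tbl tL x)) a b c 4 4 1 1)
    (NA44_pp_001 hκ hx hx') (NA44_pp_011 hκ hx hx') (NA44_pp_012 hκ hx hx') (NA44_pp_022 hκ hx hx') (NA44_pp_023 hκ hx hx') (NA44_pp_033 hκ hx hx') (NA44_pp_101 hκ hx hx') (NA44_pp_102 hκ hx hx') (NA44_pp_112 hκ hx hx') (NA44_pp_113 hκ hx hx') (NA44_pp_123 hκ hx hx') (NA44_pp_133 hκ hx hx') (NA44_pp_202 hκ hx hx') (NA44_pp_203 hκ hx hx') (NA44_pp_213 hκ hx hx') (NA44_pp_303 hκ hx hx') (NA44_pp_313 hκ hx hx')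
  pm := all17 (Q := fun a b c => TriA PP.cur (nearL (h0 * 0) 3 κ (h0 * x) (tbl tKN x) (tbl tL x)) a b c 4 4 1 (-1))
    (NA44_pm_001 hκ hx hx') (NA44_pm_011 hκ hx hx') (NA44_pm_012 hκ hx hx') (NA44_pm_022 hκ hx hx') (NA44_pm_023 hκ hx hx') (NA44_pm_033 hκ hx hx') (NA44_pm_101 hκ hx hx') (NA44_pm_102 hκ hx hx') (NA44_pm_112 hκ hx hx') (NA44_pm_113 hκ hx hx') (NA44_pm_123 hκ hx hx') (NA44_pm_133 hκ hx hx') (NA44_pm_202 hκ hx hx') (NA44_pm_203 hκ hx hx') (NA44_pm_213 hκ hx hx') (NA44_pm_303 hκ hx hx') (NA44_pm_313 hκ hx hx')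
  mm := all17 (Q := fun a b c => TriA PP.cur (nearL (h0 * 0) 3 κ (h0 * x) (tbl tKN x) (tbl tL x)) a b c 4 4 (-1) (-1))
    (NA44_mm_001 hκ hx hx') (NA44_mm_011 hκ hx hx') (NA44_mm_012 hκ hx hx') (NA44_mm_022 hκ hx hx') (NA44_mm_023 hκ hx hx') (NA44_mm_033 hκ hx hx') (NA44_mm_101 hκ hx hx') (NA44_mm_102 hκ hx hx') (NA44_mm_112 hκ hx hx') (NA44_mm_113 hκ hx hx') (NA44_mm_123 hκ hx hx') (NA44_mm_133 hκ hx hx') (NA44_mm_202 hκ hx hx') (NA44_mm_203 hκ hx hx') (NA44_mm_213 hκ hx hx') (NA44_mm_303 hκ hx hx') (NA44_mm_313 hκ hx hx')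

end Pool.Agent.Strip051.G.I1_16_1_8.Tab
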