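import Pool.Agent.Strip051.G.I1_16_1_8.Gn
import Pool.Agent.Strip051.PB.Corns
import Pool.Agent.Strip051.PB.CornK

/-! # Certificates of the aligned corners (generated) -/

set_option linter.all false

namespace Pool.Agent.Strip051.G.I1_16_1_8.Tab.CN

open Pool.Agent.Strip051.PB

def B012R_001_2_256_1 :
    ∃ t, chk3 (onCell 0 67108864 0 1073741824 67108864 67108864 (corTK [[⟨0, 0, 1, 33554432⟩, ⟨1, 1, 2, 33554432⟩, ⟨2, 1, 0, 8388608⟩, ⟨0, 0, 0, 150994944⟩, ⟨0, 1, 0, 1023410176⟩, ⟨1, 0, 0, 1023410176⟩, ⟨1, 1, 0, 150994944⟩]] false 3 c0N cB012R gN0q0 gN0q2 gN1q1 gN2q1 false true)) t 2 256 1 = true :=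
  ⟨(T.c (T.b (T.a (T.a (T.l 204) (T.a (T.l 204) (T.a (T.l 204) (T.l 204)))) (T.c (T.b (T.a (T.a (T.a (T.l 204) (T.l 204)) (T.a (T.l 476) (T.c (T.l 476) (T.l 460)))) (T.a (T.a (T.c (T.l 476) (T.l 476)) (T.a (T.l 476) (T.l 476))) (T.a (T.c (T.a (T.l 476) (T.l 476)) (T.a (T.l 476) (T.l 476))) (T.c (T.a (T.l 476) (T.l 476)) (T.a (T.l 476) (T.l 476)))))) (T.a (T.a (T.a (T.l 204) (T.l 204)) (T.a (T.l 476) (T.c (T.l 476) (T.l 460)))) (T.a (T.a (T.c (T.l 476) (T.l 476)) (T.a (T.l 476) (T.l 476))) (T.a (T.c (T.a (T.l 476) (T.l 476)) (T.c (T.l 476) (T.l 476))) (T.c (T.a (T.l 476) (T.l 476)) (T.a (T.l 476) (T.l 476))))))) (T.b (T.a (T.a (T.a (T.l 204) (T.l 204)) (T.a (T.l 460) (T.c (T.l 204) (T.l 204)))) (T.a (T.a (T.c (T.l 460) (T.l 460)) (T.c (T.l 476) (T.l 460))) (T.a (T.a (T.l 476) (T.l 476)) (T.a (T.l 476) (T.l 476)))))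 (T.a (T.a (T.a (T.l 204) (T.l 204)) (T.a (T.l 204) (T.l 460))) (T.a (T.a (T.c (T.l 460) (T.l 460)) (T.c (T.l 476) (T.l 460))) (T.a (T.c (T.l 476) (T.l 476)) (T.a (T.l 476) (T.l 476)))))))) (T.a (T.a (T.l 204) (T.a (T.l 204) (T.a (T.l 204) (T.l 204)))) (T.a (T.a (T.a (T.c (T.l 204) (T.l 204)) (T.c (T.l 204) (T.l 204))) (T.a (T.c (T.l 476) (T.l 460)) (T.c (T.c (T.l 476) (T.l 460)) (T.l 460)))) (T.a (T.a (T.c (T.c (T.l 476) (T.l 476)) (T.c (T.l 460) (T.l 460))) (T.c (T.a (T.l 476) (T.l 476)) (T.c (T.l 476) (T.l 460)))) (T.c (T.a (T.a (T.l 476) (T.c (T.l 476) (T.l 476))) (T.c (T.a (T.l 476) (T.l 476)) (T.c (T.l 476) (T.l 476)))) (T.a (T.c (T.l 476) (T.l 476)) (T.a (T.l 476) (T.l 476)))))))) (T.b (T.a (T.a (T.l 204) (T.a (T.l 204) (T.a (T.l 204) (T.l 204)))) (T.c (T.b (T.a (T.a (T.a (T.l 204) (T.l 204)) (T.a (T.l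 204) (T.l 204))) (T.a (T.a (T.l 460) (T.l 460)) (T.a (T.c (T.l 460) (T.l 204)) (T.c (T.l 460) (T.l 460))))) (T.a (T.a (T.a (T.l 204) (T.l 204)) (T.a (T.l 204) (T.l 204))) (T.a (T.a (T.l 460) (T.l 460)) (T.a (T.l 476) (T.l 476))))) (T.b (T.a (T.a (T.a (T.l 204) (T.l 204)) (T.a (T.l 204) (T.l 204))) (T.a (T.a (T.l 204) (T.l 204)) (T.a (T.l 204) (T.l 460)))) (T.a (T.a (T.a (T.l 204) (T.l 204)) (T.a (T.l 204) (T.l 204))) (T.a (T.a (T.l 204) (T.l 204)) (T.a (T.l 204) (T.l 460))))))) (T.a (T.a (T.l 204) (T.a (T.l 204) (T.a (T.l 204) (T.l 204)))) (T.a (T.a (T.a (T.l 204) (T.l 460)) (T.a (T.c (T.l 204) (T.l 204)) (T.c (T.l 204) (T.l 204)))) (T.a (T.a (T.c (T.l 460) (T.l 204)) (T.c (T.l 460) (T.l 204))) (T.a (T.c (T.l 476) (T.l 204)) (T.c (T.l 476) (T.l 460)))))))), by decide +kernel⟩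

def B012R_001_3_256_1 :
    ∃ t, chk3 (onCell 0 67108864 0 1073741824 67108864 67108864 (corTK [[⟨0, 0, 1, 33554432⟩, ⟨1, 1, 2, 33554432⟩, ⟨2, 1, 0, 8388608⟩, ⟨0, 0, 0, 150994944⟩, ⟨0, 1, 0, 1023410176⟩, ⟨1, 0, 0, 1023410176⟩, ⟨1, 1, 0, 150994944⟩]] false 3 c0N cB012R gN0q0 gN0q2 gN1q1 gN2q1 false true)) t 3 256 1 = true :=
  ⟨(T.c (T.b (T.a (T.c (T.a (T.a (T.a (T.c (T.a (T.c (T.l 476) (T.l 476)) (T.c (T.l 476) (T.l 476))) (T.a (T.l 476) (T.l 476))) (T.c (T.a (T.c (T.l 476) (T.l 476)) (T.c (T.l 476) (T.l 476))) (T.a (T.l 476) (T.l 476)))) (T.a (T.c (T.c (T.a (T.l 476) (T.l 476)) (T.a (T.l 476) (T.l 476))) (T.a (T.l 476) (T.l 476))) (T.c (T.c (T.a (T.l 476) (T.l 476)) (T.a (T.l 476) (T.l 476))) (T.a (T.l 476) (T.l 476))))) (T.a (T.a (T.c (T.c (T.a (T.l 476) (T.l 476)) (T.a (T.l 476) (T.l 476))) (T.a (T.l 476)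 (T.l 476))) (T.c (T.c (T.a (T.l 476) (T.l 476)) (T.a (T.l 476) (T.l 476))) (T.a (T.l 476) (T.l 476)))) (T.a (T.c (T.c (T.a (T.l 476) (T.l 476)) (T.a (T.l 476) (T.l 476))) (T.a (T.l 476) (T.l 476))) (T.a (T.c (T.c (T.l 476) (T.l 476)) (T.l 476)) (T.c (T.a (T.l 476) (T.c (T.l 476) (T.l 476))) (T.c (T.l 476) (T.l 476))))))) (T.a (T.a (T.a (T.c (T.a (T.l 476) (T.l 476)) (T.l 476)) (T.c (T.c (T.l 476) (T.l 476)) (T.l 476))) (T.a (T.c (T.c (T.l 476) (T.l 476)) (T.l 476)) (T.c (T.c (T.l 476) (T.l 476)) (T.l 476)))) (T.a (T.a (T.c (T.l 476) (T.l 476)) (T.c (T.c (T.l 476) (T.l 476)) (T.l 476))) (T.a (T.c (T.l 476) (T.l 476)) (T.a (T.l 476) (T.c (T.l 476) (T.l 476))))))) (T.c (T.a (T.a (T.a (T.a (T.a (T.c (T.c (T.l 476) (T.l 476)) (T.l 476)) (T.l 1024)) (T.l 1024)) (T.l 1024)) (T.l 1024)) (T.l 1024)) (T.b (T.a (T.a (T.a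 (T.a (T.c (T.l 476) (T.l 476)) (T.c (T.l 476) (T.l 476))) (T.c (T.a (T.l 476) (T.l 476)) (T.a (T.l 476) (T.l 476)))) (T.a (T.c (T.a (T.l 476) (T.l 476)) (T.a (T.l 476) (T.l 476))) (T.c (T.a (T.l 476) (T.l 476)) (T.a (T.l 476) (T.l 476))))) (T.a (T.a (T.c (T.a (T.l 476) (T.l 1024)) (T.a (T.l 476) (T.l 476))) (T.c (T.l 1024) (T.a (T.l 476) (T.l 476)))) (T.c (T.l 1024) (T.a (T.a (T.l 476) (T.l 476)) (T.c (T.l 1024) (T.l 476)))))) (T.a (T.a (T.a (T.a (T.c (T.l 476) (T.l 476)) (T.c (T.l 476) (T.l 476))) (T.c (T.a (T.l 476) (T.l 476)) (T.a (T.l 476) (T.l 476)))) (T.a (T.c (T.a (T.l 476) (T.l 476)) (T.c (T.l 476) (T.l 476))) (T.c (T.a (T.l 476) (T.l 476)) (T.c (T.l 476) (T.l 476))))) (T.a (T.a (T.c (T.a (T.l 476) (T.l 1024)) (T.c (T.l 476) (T.l 476))) (T.c (T.l 1024) (T.c (T.l 476) (T.l 476)))) (T.c (T.l 1024) (T.a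 (T.c (T.l 476) (T.l 476)) (T.c (T.l 1024) (T.l 476))))))))) (T.a (T.a (T.a (T.c (T.a (T.c (T.a (T.l 476) (T.l 476)) (T.c (T.l 476) (T.l 476))) (T.c (T.a (T.l 476) (T.l 476)) (T.c (T.l 476) (T.l 476)))) (T.a (T.a (T.l 476) (T.l 476)) (T.c (T.l 476) (T.l 476)))) (T.c (T.a (T.c (T.a (T.l 476) (T.l 476)) (T.c (T.l 476) (T.l 476))) (T.c (T.a (T.l 476) (T.l 476)) (T.c (T.l 476) (T.l 476)))) (T.a (T.c (T.l 476) (T.l 476)) (T.c (T.l 476) (T.l 476))))) (T.a (T.c (T.a (T.c (T.c (T.l 476) (T.l 476)) (T.l 476)) (T.c (T.a (T.l 476) (T.l 476)) (T.c (T.l 476) (T.l 476)))) (T.a (T.c (T.l 476) (T.l 476)) (T.c (T.l 476) (T.l 476)))) (T.c (T.a (T.c (T.c (T.l 476) (T.l 476)) (T.l 476)) (T.c (T.c (T.l 476) (T.l 476)) (T.l 476))) (T.a (T.c (T.l 476) (T.l 476)) (T.c (T.l 476) (T.l 476)))))) (T.a (T.a (T.a (T.c (T.a (T.c (T.c (T.l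 476) (T.l 476)) (T.l 476)) (T.l 1024)) (T.a (T.c (T.l 476) (T.l 476)) (T.c (T.l 476) (T.l 476)))) (T.c (T.l 1024) (T.c (T.a (T.l 476) (T.l 476)) (T.a (T.l 476) (T.l 476))))) (T.c (T.l 1024) (T.a (T.c (T.a (T.l 476) (T.l 476)) (T.c (T.l 476) (T.l 476))) (T.c (T.a (T.l 476) (T.l 476)) (T.c (T.l 476) (T.l 476)))))) (T.c (T.l 1024) (T.a (T.a (T.c (T.a (T.l 476) (T.l 1024)) (T.c (T.l 476) (T.l 476))) (T.c (T.l 1024) (T.c (T.l 476) (T.l 476)))) (T.c (T.l 1024) (T.a (T.c (T.l 476) (T.l 476)) (T.c (T.l 1024) (T.l 476))))))))) (T.b (T.a (T.c (T.a (T.a (T.a (T.c (T.l 476) (T.l 460)) (T.c (T.l 476) (T.l 460))) (T.a (T.l 476) (T.l 476))) (T.a (T.a (T.l 476) (T.l 476)) (T.a (T.l 476) (T.a (T.l 476) (T.l 476))))) (T.a (T.a (T.a (T.l 460) (T.l 460)) (T.a (T.l 460) (T.l 460))) (T.a (T.a (T.l 460) (T.l 460)) (T.a (T.l 476)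 (T.a (T.l 204) (T.l 476)))))) (T.c (T.b (T.a (T.a (T.a (T.a (T.l 476) (T.l 476)) (T.a (T.l 476) (T.l 476))) (T.a (T.c (T.l 476) (T.l 476)) (T.c (T.l 476) (T.l 476)))) (T.a (T.a (T.c (T.l 476) (T.l 476)) (T.c (T.l 476) (T.l 476))) (T.a (T.a (T.l 476) (T.l 476)) (T.a (T.l 476) (T.l 476))))) (T.a (T.a (T.a (T.a (T.l 476) (T.l 476)) (T.c (T.l 476) (T.l 476))) (T.a (T.c (T.l 476) (T.l 476)) (T.c (T.l 476) (T.l 476)))) (T.a (T.a (T.c (T.l 476) (T.l 476)) (T.c (T.l 476) (T.l 476))) (T.a (T.c (T.l 476) (T.l 476)) (T.c (T.l 476) (T.l 476)))))) (T.b (T.a (T.a (T.a (T.c (T.l 476) (T.l 476)) (T.l 476)) (T.a (T.l 476) (T.l 476))) (T.a (T.a (T.l 476) (T.l 476)) (T.a (T.l 476) (T.l 476)))) (T.a (T.a (T.a (T.c (T.l 476) (T.l 476)) (T.l 476)) (T.a (T.l 476) (T.l 476))) (T.a (T.a (T.l 476) (T.l 476)) (T.a (T.l 476) (T.l 476)))))))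 (T.a (T.a (T.a (T.c (T.a (T.l 476) (T.l 476)) (T.a (T.l 460) (T.l 460))) (T.c (T.a (T.l 476) (T.l 476)) (T.c (T.l 476) (T.l 476)))) (T.a (T.c (T.a (T.l 476) (T.l 476)) (T.a (T.l 460) (T.l 460))) (T.c (T.a (T.l 476) (T.l 476)) (T.c (T.l 476) (T.l 476))))) (T.a (T.a (T.a (T.c (T.a (T.l 476) (T.l 476)) (T.c (T.l 476) (T.l 476))) (T.c (T.a (T.l 476) (T.l 476)) (T.l 476))) (T.a (T.c (T.c (T.l 476) (T.l 476)) (T.l 476)) (T.c (T.c (T.l 476) (T.l 476)) (T.l 476)))) (T.a (T.a (T.c (T.c (T.l 476) (T.l 476)) (T.l 476)) (T.c (T.c (T.l 476) (T.l 476)) (T.l 476))) (T.a (T.c (T.c (T.l 476) (T.l 476)) (T.l 476)) (T.c (T.c (T.l 476) (T.l 476)) (T.l 476)))))))), by decide +kernel⟩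

def B012R_001_1_257_1 :
    ∃ t, chk3 (onCell 0 67108864 0 1073741824 67108864 67108864 (corTK [[⟨0, 0, 1, 33554432⟩, ⟨1, 1, 2, 33554432⟩, ⟨2, 1, 0, 8388608⟩, ⟨0, 0, 0, 150994944⟩, ⟨0, 1, 0, 1023410176⟩, ⟨1, 0, 0, 1023410176⟩, ⟨1, 1, 0, 150994944⟩]] false 3 c0N cB012R gN0q0 gN0q2 gN1q1 gN2q1 false true)) t 1 257 1 = true :=
  ⟨(T.a (T.c (T.b (T.a (T.a (T.l 204) (T.a (T.l 204) (T.a (T.l 204) (T.l 204)))) (T.a (T.a (T.a (T.c (T.l 204) (T.l 204)) (T.c (T.l 204) (T.l 204))) (T.a (T.c (T.l 476) (T.l 204)) (T.c (T.c (T.l 476) (T.l 204)) (T.l 460)))) (T.a (T.a (T.c (T.c (T.l 476) (T.l 476)) (T.c (T.l 460) (T.l 204))) (T.c (T.c (T.l 476) (T.l 476)) (T.c (T.l 476) (T.l 460)))) (T.c (T.a (T.a (T.l 476) (T.l 476)) (T.a (T.l 476) (T.l 476))) (T.a (T.c (T.l 476) (T.l 460)) (T.c (T.l 476) (T.l 476))))))) (T.a (T.a (T.l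 204) (T.a (T.l 204) (T.a (T.l 204) (T.l 204)))) (T.a (T.a (T.a (T.c (T.l 204) (T.l 204)) (T.c (T.l 204) (T.l 204))) (T.a (T.c (T.l 476) (T.l 204)) (T.c (T.l 476) (T.l 460)))) (T.a (T.a (T.c (T.c (T.l 476) (T.l 476)) (T.l 476)) (T.c (T.c (T.l 476) (T.l 476)) (T.c (T.l 460) (T.l 460)))) (T.c (T.a (T.c (T.l 476) (T.l 476)) (T.c (T.l 476) (T.l 476))) (T.a (T.c (T.l 476) (T.l 460)) (T.c (T.l 476) (T.l 476)))))))) (T.b (T.a (T.a (T.l 204) (T.a (T.l 204) (T.a (T.l 204) (T.l 204)))) (T.a (T.a (T.a (T.l 204) (T.l 460)) (T.a (T.c (T.l 204) (T.l 204)) (T.c (T.l 204) (T.l 204)))) (T.a (T.a (T.c (T.l 460) (T.l 204)) (T.c (T.l 460) (T.l 204))) (T.a (T.c (T.l 460) (T.l 204)) (T.c (T.l 476) (T.l 460)))))) (T.a (T.a (T.l 204) (T.a (T.l 204) (T.a (T.l 204) (T.l 204)))) (T.a (T.a (T.a (T.l 204) (T.l 204)) (T.a (T.c (T.l 204)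 (T.l 204)) (T.c (T.l 204) (T.l 204)))) (T.a (T.a (T.c (T.l 460) (T.l 204)) (T.c (T.l 460) (T.l 204))) (T.a (T.c (T.l 460) (T.l 204)) (T.c (T.l 476) (T.l 204)))))))) (T.c (T.a (T.a (T.a (T.c (T.a (T.c (T.c (T.l 476) (T.l 476)) (T.c (T.l 476) (T.l 476))) (T.c (T.c (T.l 476) (T.l 476)) (T.c (T.l 476) (T.l 476)))) (T.a (T.c (T.l 476) (T.l 476)) (T.c (T.l 476) (T.l 476)))) (T.c (T.a (T.c (T.c (T.l 476) (T.l 476)) (T.l 476)) (T.c (T.c (T.l 476) (T.l 476)) (T.l 476))) (T.a (T.c (T.l 476) (T.l 476)) (T.c (T.l 476) (T.l 476))))) (T.a (T.c (T.a (T.c (T.c (T.l 476) (T.l 476)) (T.l 476)) (T.c (T.c (T.l 476) (T.l 476)) (T.l 476))) (T.a (T.c (T.l 476) (T.l 476)) (T.c (T.l 476) (T.l 476)))) (T.c (T.a (T.c (T.c (T.l 476) (T.l 476)) (T.l 476)) (T.c (T.l 476) (T.l 476))) (T.a (T.c (T.l 476) (T.l 476)) (T.c (T.l 476) (T.l 476))))))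 (T.a (T.a (T.a (T.c (T.a (T.c (T.l 476) (T.l 476)) (T.l 1024)) (T.a (T.c (T.l 476) (T.l 476)) (T.c (T.l 476) (T.l 476)))) (T.c (T.l 1024) (T.a (T.c (T.l 476) (T.l 476)) (T.c (T.l 476) (T.l 476))))) (T.c (T.l 1024) (T.a (T.c (T.a (T.l 476) (T.l 476)) (T.c (T.l 476) (T.l 476))) (T.c (T.a (T.l 476) (T.l 476)) (T.c (T.l 476) (T.l 476)))))) (T.c (T.l 1024) (T.a (T.a (T.c (T.c (T.l 1024) (T.l 476)) (T.c (T.l 476) (T.l 476))) (T.c (T.l 1024) (T.c (T.l 476) (T.l 476)))) (T.c (T.l 1024) (T.a (T.c (T.l 476) (T.l 476)) (T.c (T.l 1024) (T.l 476)))))))) (T.b (T.a (T.a (T.a (T.c (T.a (T.l 476) (T.l 476)) (T.a (T.l 460) (T.l 460))) (T.c (T.a (T.l 476) (T.l 476)) (T.c (T.l 476) (T.l 476)))) (T.a (T.c (T.a (T.l 476) (T.l 476)) (T.a (T.l 460) (T.l 460))) (T.c (T.a (T.l 476) (T.l 476)) (T.c (T.l 476) (T.l 476))))) (T.a (T.a (T.a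 (T.c (T.a (T.l 476) (T.l 476)) (T.c (T.l 476) (T.l 476))) (T.c (T.c (T.l 476) (T.l 476)) (T.l 476))) (T.a (T.c (T.c (T.l 476) (T.l 476)) (T.l 476)) (T.c (T.c (T.l 476) (T.l 476)) (T.l 476)))) (T.a (T.a (T.c (T.c (T.l 476) (T.l 476)) (T.l 476)) (T.c (T.c (T.l 476) (T.l 476)) (T.l 476))) (T.a (T.c (T.c (T.l 476) (T.l 476)) (T.l 476)) (T.c (T.c (T.l 476) (T.l 476)) (T.l 476)))))) (T.a (T.a (T.a (T.c (T.a (T.l 476) (T.l 476)) (T.a (T.l 460) (T.l 460))) (T.c (T.a (T.l 476) (T.l 476)) (T.c (T.l 476) (T.l 476)))) (T.a (T.c (T.a (T.l 476) (T.l 476)) (T.c (T.l 476) (T.l 476))) (T.c (T.c (T.l 476) (T.l 476)) (T.c (T.l 476) (T.l 476))))) (T.a (T.a (T.a (T.c (T.a (T.l 476) (T.l 476)) (T.c (T.l 476) (T.l 476))) (T.c (T.c (T.l 476) (T.l 476)) (T.l 476))) (T.a (T.c (T.c (T.l 476) (T.l 476)) (T.l 476)) (T.c (T.c (T.l 476)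 (T.l 476)) (T.l 476)))) (T.a (T.a (T.c (T.c (T.l 476) (T.l 476)) (T.l 476)) (T.c (T.c (T.l 476) (T.l 476)) (T.l 476))) (T.a (T.c (T.c (T.l 476) (T.l 476)) (T.l 476)) (T.c (T.l 476) (T.l 476))))))))), by decide +kernel⟩

def B012R_001_1_129_1 :
    ∃ t, chk3 (onCell 0 67108864 0 1073741824 67108864 67108864 (corTK [[⟨0, 0, 1, 33554432⟩, ⟨1, 1, 2, 33554432⟩, ⟨2, 1, 0, 8388608⟩, ⟨0, 0, 0, 150994944⟩, ⟨0, 1, 0, 1023410176⟩, ⟨1, 0, 0, 1023410176⟩, ⟨1, 1, 0, 150994944⟩]] false 3 c0N cB012R gN0q0 gN0q2 gN1q1 gN2q1 false true)) t 1 129 1 = true :=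
  ⟨(T.b (T.a (T.c (T.b (T.a (T.a (T.l 204) (T.a (T.l 204) (T.a (T.l 204) (T.l 204)))) (T.a (T.a (T.a (T.l 476) (T.c (T.l 204) (T.l 204))) (T.a (T.c (T.l 476) (T.l 204)) (T.c (T.l 476) (T.l 460)))) (T.a (T.a (T.c (T.c (T.l 476) (T.l 460)) (T.l 476)) (T.c (T.c (T.l 476) (T.l 476)) (T.c (T.l 460) (T.l 460)))) (T.c (T.a (T.c (T.l 476) (T.l 476)) (T.c (T.l 476) (T.l 476))) (T.a (T.c (T.l 476) (T.l 460)) (T.c (T.l 476) (T.l 476))))))) (T.a (T.a (T.l 204) (T.a (T.l 204) (T.a (T.l 204) (T.l 204)))) (T.a (T.a (T.a (T.l 476) (T.c (T.l 204) (T.l 204))) (T.a (T.c (T.l 476) (T.l 204)) (T.c (T.l 476) (T.l 460)))) (T.a (T.a (T.c (T.l 476) (T.l 476)) (T.c (T.c (T.l 476) (T.l 476)) (T.l 476))) (T.c (T.a (T.c (T.l 476) (T.l 476)) (T.c (T.l 476) (T.l 476))) (T.a (T.l 476) (T.l 476))))))) (T.b (T.a (T.a (T.l 204) (T.a (T.l 204)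 (T.a (T.l 204) (T.l 204)))) (T.a (T.a (T.a (T.l 204) (T.l 204)) (T.a (T.c (T.l 204) (T.l 204)) (T.c (T.l 204) (T.l 204)))) (T.a (T.a (T.c (T.l 460) (T.l 204)) (T.c (T.l 460) (T.l 204))) (T.a (T.c (T.l 460) (T.l 204)) (T.c (T.l 476) (T.l 204)))))) (T.a (T.a (T.l 204) (T.a (T.l 204) (T.a (T.l 204) (T.l 204)))) (T.a (T.a (T.a (T.l 204) (T.l 204)) (T.a (T.c (T.l 204) (T.l 204)) (T.c (T.l 204) (T.l 204)))) (T.a (T.a (T.c (T.l 460) (T.l 204)) (T.c (T.l 460) (T.l 204))) (T.a (T.c (T.l 460) (T.l 204)) (T.c (T.l 476) (T.l 204)))))))) (T.a (T.a (T.a (T.c (T.c (T.a (T.c (T.l 476) (T.l 476)) (T.c (T.l 476) (T.l 476))) (T.a (T.c (T.l 476) (T.l 476)) (T.c (T.l 476) (T.l 476)))) (T.c (T.a (T.l 476) (T.l 476)) (T.a (T.l 460) (T.l 460)))) (T.c (T.c (T.a (T.c (T.l 476) (T.l 476)) (T.c (T.l 476) (T.l 476))) (T.a (T.l 476) (T.l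 476))) (T.c (T.a (T.l 476) (T.l 476)) (T.c (T.l 476) (T.l 476))))) (T.c (T.a (T.c (T.a (T.c (T.l 476) (T.l 476)) (T.c (T.l 476) (T.l 476))) (T.a (T.l 476) (T.l 476))) (T.c (T.a (T.c (T.l 476) (T.l 476)) (T.c (T.l 476) (T.l 476))) (T.a (T.l 476) (T.l 476)))) (T.a (T.c (T.a (T.l 476) (T.l 476)) (T.c (T.l 476) (T.l 476))) (T.c (T.c (T.l 476) (T.l 476)) (T.c (T.l 476) (T.l 476)))))) (T.a (T.a (T.a (T.c (T.c (T.a (T.c (T.l 476) (T.l 476)) (T.l 1024)) (T.a (T.l 476) (T.l 476))) (T.c (T.a (T.l 476) (T.l 476)) (T.c (T.l 476) (T.l 476)))) (T.c (T.c (T.l 1024) (T.a (T.l 476) (T.l 476))) (T.c (T.c (T.l 476) (T.l 476)) (T.l 476)))) (T.c (T.c (T.l 1024) (T.a (T.a (T.l 476) (T.l 476)) (T.c (T.l 476) (T.l 476)))) (T.a (T.c (T.c (T.l 476) (T.l 476)) (T.l 476)) (T.c (T.c (T.l 476) (T.l 476)) (T.l 476))))) (T.a (T.c (T.c (T.l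 1024) (T.a (T.c (T.l 476) (T.l 476)) (T.c (T.l 1024) (T.l 476)))) (T.a (T.c (T.c (T.l 476) (T.l 476)) (T.l 476)) (T.c (T.c (T.l 476) (T.l 476)) (T.l 476)))) (T.c (T.c (T.l 1024) (T.c (T.l 1024) (T.a (T.l 476) (T.l 476)))) (T.a (T.c (T.c (T.l 476) (T.l 476)) (T.l 476)) (T.c (T.c (T.l 476) (T.l 476)) (T.l 476)))))))) (T.a (T.c (T.b (T.a (T.a (T.l 204) (T.a (T.l 204) (T.a (T.l 204) (T.l 204)))) (T.a (T.a (T.a (T.l 476) (T.c (T.l 204) (T.l 204))) (T.a (T.c (T.l 204) (T.l 204)) (T.c (T.l 476) (T.l 460)))) (T.a (T.a (T.c (T.l 476) (T.l 460)) (T.c (T.l 476) (T.l 476))) (T.c (T.a (T.l 476) (T.l 476)) (T.a (T.l 476) (T.l 476)))))) (T.a (T.a (T.l 204) (T.a (T.l 204) (T.a (T.l 204) (T.l 204)))) (T.a (T.a (T.a (T.l 476) (T.c (T.l 204) (T.l 204))) (T.a (T.c (T.l 204) (T.l 204)) (T.c (T.l 476) (T.l 460)))) (T.a (T.a (T.c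 (T.l 476) (T.l 460)) (T.c (T.l 476) (T.l 476))) (T.c (T.a (T.l 476) (T.l 476)) (T.a (T.l 476) (T.l 476))))))) (T.b (T.a (T.a (T.l 204) (T.a (T.l 204) (T.a (T.l 204) (T.l 204)))) (T.a (T.a (T.a (T.l 204) (T.l 204)) (T.a (T.c (T.l 204) (T.l 204)) (T.c (T.l 204) (T.l 204)))) (T.a (T.a (T.c (T.l 204) (T.l 204)) (T.c (T.l 460) (T.l 204))) (T.a (T.c (T.l 460) (T.l 204)) (T.c (T.l 476) (T.l 204)))))) (T.a (T.a (T.l 204) (T.a (T.l 204) (T.a (T.l 204) (T.l 204)))) (T.a (T.a (T.a (T.l 204) (T.l 204)) (T.a (T.c (T.l 204) (T.l 204)) (T.c (T.l 204) (T.l 204)))) (T.a (T.a (T.c (T.l 204) (T.l 204)) (T.c (T.l 460) (T.l 204))) (T.a (T.c (T.l 460) (T.l 204)) (T.c (T.l 460) (T.l 204)))))))) (T.a (T.a (T.a (T.c (T.c (T.a (T.c (T.l 476) (T.l 476)) (T.l 476)) (T.a (T.l 476) (T.l 476))) (T.c (T.a (T.l 476) (T.l 476)) (T.a (T.l 460)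 (T.l 460)))) (T.c (T.c (T.a (T.l 476) (T.l 476)) (T.a (T.l 476) (T.l 476))) (T.c (T.a (T.l 476) (T.l 476)) (T.c (T.l 476) (T.l 476))))) (T.c (T.a (T.c (T.a (T.l 476) (T.l 476)) (T.a (T.l 476) (T.l 476))) (T.c (T.a (T.l 476) (T.l 476)) (T.c (T.l 476) (T.l 476)))) (T.a (T.c (T.a (T.l 476) (T.l 476)) (T.c (T.l 476) (T.l 476))) (T.c (T.c (T.l 476) (T.l 476)) (T.l 476))))) (T.a (T.a (T.a (T.c (T.c (T.a (T.l 476) (T.l 1024)) (T.a (T.l 476) (T.l 476))) (T.c (T.a (T.l 476) (T.l 476)) (T.c (T.l 476) (T.l 476)))) (T.c (T.c (T.l 1024) (T.c (T.l 476) (T.l 476))) (T.c (T.c (T.l 476) (T.l 476)) (T.l 476)))) (T.c (T.c (T.l 1024) (T.a (T.c (T.l 476) (T.l 476)) (T.c (T.l 476) (T.l 476)))) (T.a (T.c (T.c (T.l 476) (T.l 476)) (T.l 476)) (T.c (T.l 476) (T.l 476))))) (T.a (T.c (T.c (T.l 1024) (T.a (T.c (T.l 476) (T.l 476)) (T.l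 476))) (T.a (T.c (T.l 476) (T.l 476)) (T.c (T.l 476) (T.l 476)))) (T.c (T.c (T.l 1024) (T.a (T.l 476) (T.l 476))) (T.a (T.c (T.l 476) (T.l 476)) (T.c (T.l 476) (T.l 476))))))))), by decide +kernel⟩

def B012R_001_1_65_1 :
    ∃ t, chk3 (onCell 0 67108864 0 1073741824 67108864 67108864 (corTK [[⟨0, 0, 1, 33554432⟩, ⟨1, 1, 2, 33554432⟩, ⟨2, 1, 0, 8388608⟩, ⟨0, 0, 0, 150994944⟩, ⟨0, 1, 0, 1023410176⟩, ⟨1, 0, 0, 1023410176⟩, ⟨1, 1, 0, 150994944⟩]] false 3 c0N cB012R gN0q0 gN0q2 gN1q1 gN2q1 false true)) t 1 65 1 = true :=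
  ⟨(T.b (T.b (T.a (T.c (T.a (T.a (T.l 204) (T.a (T.l 204) (T.a (T.l 204) (T.l 204)))) (T.a (T.a (T.a (T.l 476) (T.c (T.l 204) (T.l 204))) (T.a (T.c (T.l 204) (T.l 204)) (T.c (T.l 476) (T.l 460)))) (T.a (T.a (T.c (T.l 476) (T.l 460)) (T.c (T.l 476) (T.l 476))) (T.c (T.a (T.l 476) (T.l 476)) (T.a (T.l 476) (T.l 476)))))) (T.b (T.a (T.a (T.l 204) (T.a (T.l 204) (T.a (T.l 204) (T.l 204)))) (T.a (T.a (T.a (T.l 204) (T.l 204)) (T.a (T.c (T.l 204) (T.l 204)) (T.c (T.l 204) (T.l 204)))) (T.a (T.a (T.c (T.l 204) (T.l 204)) (T.c (T.l 460) (T.l 204))) (T.a (T.c (T.l 460) (T.l 204)) (T.c (T.l 460) (T.l 204)))))) (T.a (T.a (T.l 204) (T.a (T.l 204) (T.a (T.l 204) (T.l 204)))) (T.a (T.a (T.a (T.l 204) (T.l 204)) (T.a (T.c (T.l 204) (T.l 204)) (T.c (T.l 204) (T.l 204)))) (T.a (T.a (T.c (T.l 204) (T.l 204)) (T.c (T.l 460) (T.l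 204))) (T.a (T.c (T.l 460) (T.l 204)) (T.c (T.l 460) (T.l 204)))))))) (T.a (T.a (T.a (T.c (T.c (T.a (T.l 476) (T.l 476)) (T.a (T.l 476) (T.l 476))) (T.c (T.a (T.l 476) (T.l 476)) (T.c (T.l 476) (T.l 476)))) (T.c (T.c (T.a (T.l 476) (T.l 476)) (T.c (T.l 476) (T.l 476))) (T.c (T.c (T.l 476) (T.l 476)) (T.l 476)))) (T.c (T.a (T.c (T.a (T.l 476) (T.l 476)) (T.a (T.l 476) (T.l 476))) (T.c (T.c (T.l 476) (T.l 476)) (T.c (T.l 476) (T.l 476)))) (T.a (T.a (T.l 476) (T.c (T.l 476) (T.l 460))) (T.c (T.c (T.l 476) (T.l 476)) (T.l 476))))) (T.a (T.a (T.a (T.c (T.c (T.c (T.l 476) (T.l 476)) (T.c (T.l 476) (T.l 476))) (T.a (T.c (T.l 476) (T.l 476)) (T.l 476))) (T.c (T.c (T.l 1024) (T.c (T.l 476) (T.l 476))) (T.c (T.l 476) (T.l 476)))) (T.c (T.c (T.l 1024) (T.a (T.l 476) (T.l 476))) (T.a (T.c (T.l 476) (T.l 476)) (T.c (T.l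 476) (T.l 476))))) (T.a (T.c (T.c (T.l 1024) (T.a (T.l 476) (T.l 476))) (T.a (T.c (T.l 476) (T.l 476)) (T.c (T.l 476) (T.l 476)))) (T.c (T.c (T.l 1024) (T.a (T.l 476) (T.l 476))) (T.a (T.c (T.l 476) (T.l 476)) (T.c (T.l 476) (T.l 476)))))))) (T.a (T.c (T.a (T.a (T.l 204) (T.a (T.l 204) (T.a (T.l 204) (T.l 204)))) (T.a (T.a (T.a (T.l 476) (T.c (T.l 204) (T.l 204))) (T.a (T.c (T.l 204) (T.l 204)) (T.c (T.l 476) (T.l 460)))) (T.a (T.a (T.c (T.l 476) (T.l 460)) (T.c (T.l 476) (T.l 476))) (T.c (T.a (T.l 476) (T.l 476)) (T.a (T.l 476) (T.l 476)))))) (T.a (T.a (T.l 204) (T.a (T.l 204) (T.a (T.l 204) (T.l 204)))) (T.a (T.a (T.a (T.l 204) (T.l 204)) (T.a (T.c (T.l 204) (T.l 204)) (T.c (T.l 204) (T.l 204)))) (T.a (T.a (T.c (T.l 204) (T.l 204)) (T.c (T.l 460) (T.l 204))) (T.a (T.c (T.l 460) (T.l 204)) (T.c (T.l 460) (T.l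 204))))))) (T.a (T.a (T.a (T.c (T.c (T.a (T.l 476) (T.l 476)) (T.a (T.l 476) (T.l 476))) (T.c (T.c (T.l 476) (T.l 476)) (T.c (T.l 476) (T.l 476)))) (T.c (T.c (T.c (T.l 476) (T.l 476)) (T.c (T.l 476) (T.l 476))) (T.c (T.c (T.l 476) (T.l 476)) (T.l 476)))) (T.c (T.a (T.c (T.c (T.l 476) (T.l 476)) (T.c (T.l 476) (T.l 476))) (T.c (T.c (T.l 476) (T.l 476)) (T.c (T.l 476) (T.l 476)))) (T.a (T.a (T.l 476) (T.l 476)) (T.c (T.l 476) (T.l 476))))) (T.a (T.a (T.a (T.c (T.a (T.c (T.l 476) (T.l 476)) (T.l 476)) (T.a (T.l 476) (T.l 476))) (T.c (T.c (T.l 1024) (T.l 476)) (T.c (T.l 476) (T.l 476)))) (T.c (T.c (T.l 1024) (T.a (T.l 476) (T.l 476))) (T.a (T.c (T.l 476) (T.l 476)) (T.c (T.l 476) (T.l 476))))) (T.a (T.c (T.c (T.l 1024) (T.a (T.l 476) (T.l 476))) (T.a (T.c (T.l 476) (T.l 476)) (T.c (T.l 476) (T.l 476)))) (T.c (T.a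 (T.l 476) (T.l 476)) (T.a (T.c (T.l 476) (T.l 476)) (T.c (T.l 476) (T.l 476))))))))) (T.b (T.a (T.a (T.a (T.l 204) (T.a (T.l 204) (T.a (T.l 204) (T.c (T.l 204) (T.l 204))))) (T.a (T.a (T.c (T.a (T.l 460) (T.l 476)) (T.a (T.l 204) (T.l 204))) (T.c (T.a (T.c (T.l 204) (T.l 204)) (T.c (T.l 476) (T.l 204))) (T.a (T.c (T.l 204) (T.l 204)) (T.c (T.l 204) (T.l 204))))) (T.a (T.c (T.a (T.c (T.l 476) (T.l 460)) (T.c (T.l 476) (T.l 476))) (T.a (T.c (T.l 204) (T.l 204)) (T.c (T.l 460) (T.l 204)))) (T.c (T.c (T.a (T.l 476) (T.l 476)) (T.a (T.l 476) (T.l 476))) (T.a (T.c (T.l 460) (T.l 204)) (T.c (T.l 460) (T.l 204))))))) (T.a (T.a (T.a (T.c (T.c (T.c (T.l 476) (T.l 476)) (T.c (T.l 476) (T.l 476))) (T.a (T.c (T.l 476) (T.l 204)) (T.l 476))) (T.c (T.c (T.c (T.l 476) (T.l 476)) (T.c (T.l 476) (T.l 476))) (T.c (T.l 476) (T.l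 476)))) (T.c (T.a (T.a (T.l 476) (T.c (T.l 476) (T.l 476))) (T.c (T.l 476) (T.l 476))) (T.a (T.a (T.l 476) (T.l 476)) (T.c (T.l 476) (T.l 476))))) (T.a (T.a (T.a (T.c (T.a (T.l 476) (T.l 476)) (T.a (T.l 476) (T.l 476))) (T.c (T.c (T.l 1024) (T.l 476)) (T.c (T.l 476) (T.l 476)))) (T.c (T.c (T.l 1024) (T.a (T.l 476) (T.l 476))) (T.a (T.c (T.l 476) (T.l 476)) (T.c (T.l 476) (T.l 476))))) (T.a (T.c (T.a (T.l 476) (T.l 476)) (T.a (T.c (T.l 476) (T.l 476)) (T.c (T.l 476) (T.l 476)))) (T.c (T.a (T.l 476) (T.l 476)) (T.a (T.c (T.l 476) (T.l 476)) (T.l 476))))))) (T.a (T.a (T.a (T.l 204) (T.a (T.l 204) (T.a (T.l 204) (T.c (T.l 204) (T.l 204))))) (T.a (T.a (T.c (T.a (T.l 204) (T.l 476)) (T.a (T.l 204) (T.l 204))) (T.c (T.a (T.c (T.l 204) (T.l 204)) (T.c (T.l 204) (T.l 204))) (T.a (T.c (T.l 204) (T.l 204)) (T.c (T.l 204)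 (T.l 204))))) (T.a (T.c (T.a (T.c (T.l 476) (T.l 460)) (T.c (T.l 476) (T.l 460))) (T.a (T.c (T.l 204) (T.l 204)) (T.c (T.l 204) (T.l 204)))) (T.c (T.c (T.a (T.l 476) (T.l 476)) (T.a (T.l 476) (T.l 476))) (T.a (T.c (T.l 460) (T.l 204)) (T.c (T.l 460) (T.l 204))))))) (T.a (T.a (T.a (T.c (T.c (T.c (T.l 476) (T.l 476)) (T.c (T.l 476) (T.l 476))) (T.a (T.l 476) (T.l 476))) (T.c (T.c (T.l 476) (T.l 476)) (T.c (T.l 476) (T.l 476)))) (T.c (T.a (T.a (T.l 476) (T.l 476)) (T.c (T.l 476) (T.l 476))) (T.a (T.c (T.l 476) (T.l 476)) (T.c (T.l 476) (T.l 476))))) (T.a (T.a (T.a (T.c (T.c (T.l 476) (T.l 476)) (T.c (T.l 476) (T.l 476))) (T.c (T.c (T.l 1024) (T.l 476)) (T.c (T.l 476) (T.l 476)))) (T.c (T.a (T.c (T.l 1024) (T.l 476)) (T.l 476)) (T.a (T.c (T.l 476) (T.l 476)) (T.c (T.l 476) (T.l 476))))) (T.a (T.c (T.a (T.l 476)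 (T.l 476)) (T.a (T.c (T.l 476) (T.l 476)) (T.l 476))) (T.c (T.a (T.l 476) (T.l 476)) (T.a (T.l 476) (T.l 476))))))))), by decide +kernel⟩

def B012R_001_1_66_1 :
    ∃ t, chk3 (onCell 0 67108864 0 1073741824 67108864 67108864 (corTK [[⟨0, 0, 1, 33554432⟩, ⟨1, 1, 2, 33554432⟩, ⟨2, 1, 0, 8388608⟩, ⟨0, 0, 0, 150994944⟩, ⟨0, 1, 0, 1023410176⟩, ⟨1, 0, 0, 1023410176⟩, ⟨1, 1, 0, 150994944⟩]] false 3 c0N cB012R gN0q0 gN0q2 gN1q1 gN2q1 false true)) t 1 66 1 = true :=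
  ⟨(T.b (T.b (T.a (T.a (T.a (T.l 204) (T.a (T.l 204) (T.a (T.l 204) (T.c (T.l 204) (T.l 204))))) (T.a (T.a (T.c (T.a (T.l 204) (T.l 476)) (T.a (T.l 204) (T.l 204))) (T.c (T.a (T.c (T.l 204) (T.l 204)) (T.c (T.l 204) (T.l 204))) (T.a (T.l 460) (T.c (T.l 204) (T.l 204))))) (T.a (T.c (T.a (T.c (T.l 476) (T.l 204)) (T.c (T.l 476) (T.l 460))) (T.a (T.c (T.l 204) (T.l 204)) (T.c (T.l 204) (T.l 204)))) (T.c (T.c (T.c (T.l 476) (T.l 476)) (T.c (T.l 476) (T.l 476))) (T.a (T.l 476) (T.l 476)))))) (T.a (T.a (T.a (T.c (T.a (T.c (T.l 476) (T.l 476)) (T.l 476)) (T.c (T.l 476) (T.l 476))) (T.c (T.c (T.l 476) (T.l 476)) (T.c (T.l 476) (T.l 476)))) (T.c (T.a (T.c (T.l 476) (T.l 476)) (T.c (T.l 476) (T.l 476))) (T.a (T.c (T.l 476) (T.l 476)) (T.c (T.l 476) (T.l 476))))) (T.a (T.a (T.a (T.c (T.c (T.l 476) (T.l 476)) (T.c (T.l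 476) (T.l 476))) (T.c (T.c (T.l 1024) (T.l 476)) (T.c (T.l 476) (T.l 476)))) (T.c (T.a (T.l 476) (T.l 476)) (T.a (T.c (T.l 476) (T.l 476)) (T.c (T.l 476) (T.l 476))))) (T.a (T.c (T.a (T.l 476) (T.l 476)) (T.a (T.l 476) (T.l 476))) (T.c (T.c (T.l 1024) (T.l 476)) (T.a (T.l 476) (T.l 476))))))) (T.a (T.a (T.a (T.l 204) (T.a (T.l 204) (T.a (T.l 204) (T.c (T.l 204) (T.l 204))))) (T.a (T.a (T.c (T.a (T.l 204) (T.l 476)) (T.a (T.l 204) (T.l 204))) (T.c (T.a (T.c (T.l 204) (T.l 204)) (T.c (T.l 204) (T.l 204))) (T.a (T.l 460) (T.l 460)))) (T.a (T.c (T.a (T.c (T.l 220) (T.l 204)) (T.c (T.l 476) (T.l 460))) (T.a (T.l 476) (T.l 476))) (T.c (T.a (T.c (T.l 476) (T.l 460)) (T.l 476)) (T.a (T.l 476) (T.l 476)))))) (T.a (T.a (T.a (T.c (T.c (T.l 476) (T.l 476)) (T.c (T.l 476) (T.l 476))) (T.c (T.c (T.l 476) (T.l 476)) (T.c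 (T.l 476) (T.l 476)))) (T.c (T.a (T.c (T.l 476) (T.l 476)) (T.c (T.l 476) (T.l 476))) (T.a (T.c (T.l 476) (T.l 476)) (T.c (T.l 476) (T.l 476))))) (T.a (T.a (T.a (T.c (T.c (T.l 476) (T.l 476)) (T.c (T.l 476) (T.l 476))) (T.c (T.l 476) (T.c (T.l 476) (T.l 476)))) (T.c (T.a (T.l 476) (T.l 476)) (T.a (T.l 476) (T.l 476)))) (T.a (T.c (T.a (T.l 476) (T.l 476)) (T.a (T.l 476) (T.l 476))) (T.c (T.c (T.l 1024) (T.l 476)) (T.a (T.l 476) (T.l 476)))))))) (T.b (T.a (T.a (T.a (T.l 204) (T.a (T.l 204) (T.a (T.l 204) (T.c (T.l 204) (T.l 204))))) (T.a (T.a (T.c (T.a (T.l 204) (T.l 476)) (T.a (T.l 204) (T.l 204))) (T.c (T.a (T.l 476) (T.c (T.l 204) (T.l 204))) (T.a (T.l 460) (T.l 460)))) (T.a (T.c (T.a (T.c (T.l 204) (T.l 204)) (T.l 476)) (T.a (T.l 460) (T.l 476))) (T.c (T.a (T.l 476) (T.l 476)) (T.a (T.l 476) (T.l 476))))))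 (T.a (T.a (T.a (T.c (T.c (T.l 476) (T.l 476)) (T.c (T.l 476) (T.l 476))) (T.c (T.c (T.l 476) (T.l 476)) (T.c (T.l 476) (T.l 476)))) (T.c (T.a (T.c (T.l 476) (T.l 476)) (T.c (T.l 476) (T.l 476))) (T.a (T.c (T.l 476) (T.l 476)) (T.c (T.l 476) (T.l 476))))) (T.a (T.a (T.a (T.c (T.l 476) (T.c (T.l 476) (T.l 476))) (T.c (T.l 476) (T.c (T.l 476) (T.l 476)))) (T.c (T.a (T.l 476) (T.l 476)) (T.a (T.l 476) (T.l 476)))) (T.a (T.c (T.c (T.l 1024) (T.l 476)) (T.a (T.l 476) (T.l 476))) (T.c (T.c (T.l 1024) (T.l 476)) (T.a (T.l 476) (T.l 476))))))) (T.a (T.a (T.l 460) (T.a (T.a (T.c (T.a (T.l 204) (T.l 204)) (T.a (T.l 204) (T.l 204))) (T.c (T.a (T.l 476) (T.l 476)) (T.a (T.l 460) (T.l 460)))) (T.a (T.c (T.a (T.l 476) (T.l 476)) (T.a (T.l 460) (T.l 476))) (T.c (T.c (T.l 476) (T.l 476)) (T.c (T.l 476) (T.l 476)))))) (T.a (T.a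 (T.a (T.c (T.c (T.l 476) (T.l 476)) (T.c (T.l 476) (T.l 476))) (T.c (T.c (T.l 476) (T.l 476)) (T.c (T.l 476) (T.l 476)))) (T.c (T.a (T.c (T.l 476) (T.l 476)) (T.c (T.l 476) (T.l 476))) (T.a (T.c (T.l 476) (T.l 476)) (T.c (T.l 476) (T.l 476))))) (T.a (T.a (T.a (T.c (T.l 476) (T.l 476)) (T.c (T.l 476) (T.c (T.l 476) (T.l 476)))) (T.c (T.a (T.l 476) (T.l 476)) (T.a (T.l 476) (T.l 476)))) (T.a (T.c (T.c (T.l 1024) (T.l 476)) (T.a (T.l 476) (T.l 476))) (T.c (T.c (T.l 1024) (T.l 476)) (T.c (T.l 476) (T.l 476))))))))), by decide +kernel⟩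

def B012R_001_1_67_1 :
    ∃ t, chk3 (onCell 0 67108864 0 1073741824 67108864 67108864 (corTK [[⟨0, 0, 1, 33554432⟩, ⟨1, 1, 2, 33554432⟩, ⟨2, 1, 0, 8388608⟩, ⟨0, 0, 0, 150994944⟩, ⟨0, 1, 0, 1023410176⟩, ⟨1, 0, 0, 1023410176⟩, ⟨1, 1, 0, 150994944⟩]] false 3 c0N cB012R gN0q0 gN0q2 gN1q1 gN2q1 false true)) t 1 67 1 = true :=
  ⟨(T.b (T.b (T.a (T.a (T.l 460) (T.a (T.a (T.c (T.a (T.l 204) (T.l 204)) (T.a (T.l 204) (T.l 204))) (T.c (T.a (T.l 476) (T.l 476)) (T.a (T.l 460) (T.l 460)))) (T.a (T.c (T.a (T.l 476) (T.l 476)) (T.a (T.l 460) (T.l 476))) (T.c (T.c (T.l 476) (T.l 476)) (T.c (T.l 476) (T.l 476)))))) (T.a (T.a (T.a (T.c (T.c (T.l 476) (T.l 476)) (T.c (T.l 476) (T.l 476))) (T.c (T.c (T.l 476) (T.l 476)) (T.c (T.l 476) (T.l 476)))) (T.c (T.a (T.c (T.l 476) (T.l 476)) (T.l 476)) (T.a (T.c (T.l 476) (T.l 476))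 (T.l 476)))) (T.a (T.a (T.a (T.c (T.l 476) (T.l 476)) (T.c (T.l 476) (T.l 476))) (T.c (T.a (T.l 476) (T.l 476)) (T.a (T.l 476) (T.l 476)))) (T.a (T.c (T.c (T.l 1024) (T.l 476)) (T.a (T.l 476) (T.l 476))) (T.c (T.c (T.l 1024) (T.l 476)) (T.c (T.l 476) (T.l 476))))))) (T.a (T.a (T.l 460) (T.a (T.a (T.c (T.a (T.l 204) (T.l 204)) (T.a (T.l 204) (T.l 204))) (T.c (T.a (T.l 476) (T.l 476)) (T.a (T.l 460) (T.l 460)))) (T.a (T.c (T.a (T.l 476) (T.l 476)) (T.a (T.l 460) (T.l 460))) (T.c (T.c (T.l 476) (T.l 476)) (T.c (T.l 476) (T.l 476)))))) (T.a (T.a (T.a (T.c (T.c (T.l 476) (T.l 476)) (T.c (T.l 476) (T.l 476))) (T.c (T.l 476) (T.l 476))) (T.c (T.a (T.c (T.l 476) (T.l 476)) (T.l 476)) (T.a (T.c (T.l 476) (T.l 476)) (T.l 476)))) (T.a (T.a (T.a (T.c (T.l 476) (T.l 476)) (T.c (T.l 476) (T.l 476))) (T.c (T.a (T.l 476) (T.l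 476)) (T.a (T.l 476) (T.l 476)))) (T.a (T.c (T.c (T.l 1024) (T.l 476)) (T.a (T.l 476) (T.l 476))) (T.c (T.l 476) (T.c (T.l 476) (T.l 476)))))))) (T.b (T.a (T.a (T.l 460) (T.a (T.a (T.c (T.a (T.l 204) (T.l 204)) (T.a (T.l 204) (T.l 204))) (T.c (T.a (T.l 476) (T.l 476)) (T.a (T.l 204) (T.l 460)))) (T.a (T.c (T.c (T.l 476) (T.l 476)) (T.a (T.l 460) (T.l 460))) (T.c (T.c (T.l 476) (T.l 476)) (T.c (T.l 476) (T.l 476)))))) (T.a (T.a (T.a (T.c (T.c (T.l 476) (T.l 476)) (T.c (T.l 476) (T.l 476))) (T.c (T.l 476) (T.l 476))) (T.c (T.a (T.l 476) (T.l 476)) (T.a (T.c (T.l 476) (T.l 476)) (T.l 476)))) (T.a (T.a (T.a (T.c (T.l 476) (T.l 476)) (T.c (T.l 476) (T.l 476))) (T.c (T.c (T.l 1024) (T.l 476)) (T.a (T.l 476) (T.l 476)))) (T.a (T.c (T.c (T.l 1024) (T.l 476)) (T.a (T.l 476) (T.l 476))) (T.c (T.l 476) (T.c (T.l 476)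 (T.l 476))))))) (T.a (T.a (T.l 204) (T.a (T.a (T.c (T.a (T.l 204) (T.l 204)) (T.a (T.l 204) (T.l 204))) (T.c (T.a (T.l 476) (T.l 476)) (T.a (T.l 204) (T.l 460)))) (T.a (T.c (T.c (T.l 476) (T.l 476)) (T.c (T.l 476) (T.l 476))) (T.c (T.c (T.l 476) (T.l 476)) (T.c (T.l 476) (T.l 476)))))) (T.a (T.a (T.c (T.a (T.c (T.l 476) (T.l 476)) (T.l 476)) (T.a (T.c (T.l 476) (T.l 476)) (T.l 476))) (T.c (T.a (T.l 476) (T.l 476)) (T.a (T.l 476) (T.l 476)))) (T.a (T.a (T.a (T.c (T.l 476) (T.l 476)) (T.c (T.l 476) (T.l 476))) (T.c (T.c (T.l 1024) (T.l 476)) (T.a (T.l 476) (T.l 476)))) (T.a (T.c (T.c (T.l 1024) (T.l 476)) (T.c (T.l 476) (T.l 476))) (T.c (T.l 476) (T.c (T.l 476) (T.l 476))))))))), by decide +kernel⟩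

def B012R_001_1_34_1 :
    ∃ t, chk3 (onCell 0 67108864 0 1073741824 67108864 67108864 (corTK [[⟨0, 0, 1, 33554432⟩, ⟨1, 1, 2, 33554432⟩, ⟨2, 1, 0, 8388608⟩, ⟨0, 0, 0, 150994944⟩, ⟨0, 1, 0, 1023410176⟩, ⟨1, 0, 0, 1023410176⟩, ⟨1, 1, 0, 150994944⟩]] false 3 c0N cB012R gN0q0 gN0q2 gN1q1 gN2q1 false true)) t 1 34 1 = true :=
  ⟨(T.b (T.b (T.b (T.a (T.a (T.l 204) (T.a (T.a (T.c (T.a (T.l 204) (T.l 204)) (T.a (T.l 204) (T.l 204))) (T.c (T.a (T.l 476) (T.l 476)) (T.a (T.l 204) (T.l 460)))) (T.a (T.c (T.c (T.l 476) (T.l 476)) (T.c (T.l 476) (T.l 476))) (T.c (T.c (T.l 476) (T.l 476)) (T.c (T.l 476) (T.l 476)))))) (T.a (T.a (T.c (T.a (T.l 476) (T.l 476)) (T.a (T.l 476) (T.l 476))) (T.c (T.a (T.l 476) (T.l 476)) (T.a (T.l 476) (T.l 476)))) (T.a (T.a (T.a (T.c (T.l 220) (T.l 476)) (T.c (T.l 476) (T.l 476))) (T.c (T.c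 (T.l 1024) (T.l 476)) (T.a (T.l 476) (T.l 476)))) (T.a (T.c (T.l 476) (T.c (T.l 476) (T.l 476))) (T.c (T.l 476) (T.c (T.l 476) (T.l 476))))))) (T.a (T.a (T.l 204) (T.a (T.a (T.c (T.a (T.l 204) (T.l 204)) (T.a (T.l 204) (T.l 204))) (T.c (T.a (T.l 476) (T.l 476)) (T.a (T.l 204) (T.l 204)))) (T.a (T.c (T.c (T.l 476) (T.l 476)) (T.c (T.l 476) (T.l 460))) (T.c (T.c (T.l 476) (T.l 476)) (T.c (T.l 476) (T.l 476)))))) (T.a (T.a (T.c (T.a (T.l 476) (T.l 476)) (T.a (T.l 476) (T.l 476))) (T.c (T.a (T.l 476) (T.l 476)) (T.a (T.l 476) (T.l 476)))) (T.a (T.a (T.a (T.l 476) (T.c (T.l 476) (T.l 476))) (T.c (T.c (T.l 1024) (T.l 476)) (T.a (T.l 476) (T.l 476)))) (T.a (T.c (T.l 476) (T.c (T.l 476) (T.l 476))) (T.c (T.l 476) (T.l 476))))))) (T.b (T.a (T.a (T.l 204) (T.a (T.a (T.c (T.a (T.l 204) (T.l 204)) (T.c (T.l 460) (T.l 460)))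 (T.c (T.c (T.l 476) (T.l 476)) (T.a (T.l 204) (T.l 204)))) (T.a (T.c (T.c (T.l 476) (T.l 476)) (T.c (T.l 476) (T.l 460))) (T.c (T.c (T.l 476) (T.l 476)) (T.c (T.l 476) (T.l 476)))))) (T.a (T.a (T.c (T.a (T.l 476) (T.l 476)) (T.a (T.l 476) (T.l 476))) (T.c (T.a (T.l 476) (T.l 476)) (T.a (T.l 476) (T.l 476)))) (T.a (T.a (T.a (T.l 476) (T.c (T.l 476) (T.l 476))) (T.c (T.c (T.l 1024) (T.l 476)) (T.a (T.l 476) (T.l 476)))) (T.a (T.c (T.l 476) (T.c (T.l 476) (T.l 476))) (T.c (T.l 476) (T.l 476)))))) (T.a (T.a (T.l 204) (T.a (T.a (T.c (T.c (T.l 476) (T.l 476)) (T.c (T.l 460) (T.l 460))) (T.c (T.c (T.l 476) (T.l 476)) (T.c (T.l 476) (T.l 460)))) (T.a (T.c (T.c (T.l 476) (T.l 476)) (T.c (T.l 476) (T.l 460))) (T.c (T.c (T.l 476) (T.l 476)) (T.c (T.l 476) (T.l 460)))))) (T.a (T.a (T.c (T.a (T.l 476) (T.l 476)) (T.a (T.l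 476) (T.l 476))) (T.c (T.a (T.l 476) (T.l 476)) (T.a (T.l 476) (T.l 476)))) (T.a (T.a (T.a (T.l 476) (T.c (T.l 476) (T.l 476))) (T.a (T.c (T.l 476) (T.l 476)) (T.c (T.l 476) (T.l 476)))) (T.a (T.a (T.l 476) (T.l 476)) (T.c (T.l 476) (T.l 476)))))))) (T.b (T.b (T.a (T.a (T.l 204) (T.a (T.a (T.c (T.c (T.l 476) (T.l 476)) (T.c (T.l 460) (T.l 460))) (T.c (T.c (T.l 476) (T.l 476)) (T.c (T.l 476) (T.l 460)))) (T.a (T.c (T.c (T.l 476) (T.l 476)) (T.c (T.l 476) (T.l 460))) (T.c (T.l 476) (T.l 476))))) (T.a (T.a (T.c (T.a (T.l 476) (T.l 476)) (T.a (T.l 476) (T.l 476))) (T.c (T.a (T.l 476) (T.l 476)) (T.a (T.l 476) (T.l 476)))) (T.a (T.a (T.c (T.l 476) (T.l 476)) (T.a (T.c (T.l 476) (T.l 476)) (T.l 476))) (T.a (T.a (T.l 476) (T.l 476)) (T.c (T.l 476) (T.l 476)))))) (T.a (T.a (T.l 204) (T.a (T.a (T.c (T.c (T.l 476) (T.l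 476)) (T.c (T.l 460) (T.l 460))) (T.c (T.c (T.l 476) (T.l 476)) (T.c (T.l 476) (T.l 460)))) (T.a (T.c (T.c (T.l 476) (T.l 476)) (T.c (T.l 476) (T.l 460))) (T.c (T.l 476) (T.l 476))))) (T.a (T.a (T.c (T.a (T.l 476) (T.l 476)) (T.a (T.l 476) (T.l 476))) (T.c (T.a (T.l 476) (T.l 476)) (T.a (T.l 476) (T.l 476)))) (T.a (T.a (T.c (T.l 476) (T.l 476)) (T.a (T.c (T.l 476) (T.l 476)) (T.l 476))) (T.a (T.c (T.l 476) (T.l 476)) (T.c (T.l 476) (T.l 476))))))) (T.b (T.a (T.a (T.l 204) (T.a (T.a (T.c (T.c (T.l 476) (T.l 460)) (T.c (T.l 460) (T.l 460))) (T.c (T.c (T.l 476) (T.l 476)) (T.c (T.l 460) (T.l 460)))) (T.a (T.c (T.c (T.l 476) (T.l 476)) (T.c (T.l 476) (T.l 460))) (T.c (T.l 476) (T.l 476))))) (T.a (T.a (T.c (T.a (T.l 476) (T.l 476)) (T.a (T.l 476) (T.l 476))) (T.c (T.a (T.l 476) (T.l 476)) (T.a (T.l 476) (T.l 476))))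 (T.a (T.a (T.c (T.l 476) (T.l 476)) (T.a (T.c (T.l 476) (T.l 476)) (T.l 476))) (T.a (T.c (T.l 476) (T.l 476)) (T.c (T.l 476) (T.l 476)))))) (T.a (T.a (T.l 204) (T.a (T.a (T.c (T.c (T.l 476) (T.l 460)) (T.c (T.l 460) (T.l 460))) (T.c (T.c (T.l 476) (T.l 476)) (T.c (T.l 460) (T.l 460)))) (T.a (T.c (T.c (T.l 476) (T.l 476)) (T.c (T.l 460) (T.l 460))) (T.c (T.l 476) (T.l 476))))) (T.a (T.a (T.c (T.a (T.l 476) (T.l 476)) (T.a (T.l 476) (T.l 476))) (T.c (T.c (T.l 476) (T.l 476)) (T.a (T.l 476) (T.l 476)))) (T.a (T.a (T.l 476) (T.c (T.l 476) (T.c (T.l 476) (T.l 476)))) (T.a (T.c (T.l 476) (T.l 476)) (T.c (T.l 476) (T.l 476))))))))), by decide +kernel⟩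

def B012R_001_1_35_1 :
    ∃ t, chk3 (onCell 0 67108864 0 1073741824 67108864 67108864 (corTK [[⟨0, 0, 1, 33554432⟩, ⟨1, 1, 2, 33554432⟩, ⟨2, 1, 0, 8388608⟩, ⟨0, 0, 0, 150994944⟩, ⟨0, 1, 0, 1023410176⟩, ⟨1, 0, 0, 1023410176⟩, ⟨1, 1, 0, 150994944⟩]] false 3 c0N cB012R gN0q0 gN0q2 gN1q1 gN2q1 false true)) t 1 35 1 = true :=
  ⟨(T.b (T.b (T.b (T.a (T.a (T.l 204) (T.a (T.a (T.c (T.c (T.l 476) (T.l 460)) (T.c (T.l 460) (T.l 460))) (T.c (T.c (T.l 476) (T.l 476)) (T.c (T.l 460) (T.l 460)))) (T.a (T.c (T.c (T.l 476) (T.l 476)) (T.c (T.l 460) (T.l 460))) (T.c (T.l 476) (T.l 476))))) (T.a (T.a (T.c (T.a (T.l 476) (T.l 476)) (T.a (T.l 476) (T.l 476))) (T.c (T.c (T.l 476) (T.l 476)) (T.a (T.l 476) (T.l 476)))) (T.a (T.a (T.l 476) (T.a (T.l 476) (T.l 476))) (T.a (T.c (T.l 476) (T.l 476)) (T.c (T.l 476) (T.l 476)))))) (T.a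 (T.a (T.l 204) (T.a (T.a (T.c (T.c (T.l 476) (T.l 460)) (T.c (T.l 460) (T.l 204))) (T.c (T.c (T.l 476) (T.l 476)) (T.c (T.l 460) (T.l 460)))) (T.a (T.c (T.l 476) (T.c (T.l 460) (T.l 460))) (T.c (T.l 476) (T.l 476))))) (T.a (T.a (T.c (T.a (T.l 476) (T.l 476)) (T.a (T.l 476) (T.l 476))) (T.c (T.c (T.l 476) (T.l 476)) (T.a (T.l 476) (T.l 476)))) (T.a (T.a (T.l 476) (T.a (T.l 476) (T.l 476))) (T.a (T.c (T.l 476) (T.l 476)) (T.c (T.l 476) (T.l 476))))))) (T.b (T.a (T.a (T.l 204) (T.a (T.a (T.c (T.c (T.l 476) (T.l 460)) (T.c (T.l 460) (T.l 204))) (T.c (T.c (T.l 476) (T.l 476)) (T.c (T.l 460) (T.l 460)))) (T.a (T.c (T.l 476) (T.l 476)) (T.c (T.l 476) (T.l 476))))) (T.a (T.a (T.c (T.a (T.l 476) (T.l 476)) (T.a (T.l 476) (T.l 476))) (T.c (T.c (T.l 476) (T.l 476)) (T.a (T.l 476) (T.l 476)))) (T.a (T.a (T.l 476) (T.a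 (T.l 476) (T.l 476))) (T.a (T.c (T.l 476) (T.l 476)) (T.c (T.l 476) (T.l 476)))))) (T.a (T.a (T.l 204) (T.a (T.a (T.c (T.c (T.l 476) (T.l 460)) (T.c (T.l 460) (T.l 204))) (T.c (T.c (T.l 476) (T.l 476)) (T.c (T.l 460) (T.l 460)))) (T.a (T.c (T.l 476) (T.l 476)) (T.c (T.l 476) (T.l 476))))) (T.a (T.a (T.c (T.c (T.l 476) (T.l 476)) (T.a (T.l 476) (T.l 476))) (T.c (T.c (T.l 476) (T.l 476)) (T.c (T.l 476) (T.l 476)))) (T.a (T.a (T.l 476) (T.a (T.l 476) (T.l 476))) (T.a (T.c (T.l 476) (T.l 476)) (T.c (T.l 476) (T.l 476)))))))) (T.b (T.b (T.a (T.a (T.l 204) (T.a (T.a (T.c (T.c (T.l 204) (T.l 460)) (T.c (T.l 204) (T.l 204))) (T.c (T.c (T.l 476) (T.l 460)) (T.c (T.l 460) (T.l 460)))) (T.a (T.c (T.l 476) (T.l 476)) (T.c (T.l 476) (T.l 476))))) (T.a (T.a (T.c (T.c (T.l 476) (T.l 476)) (T.a (T.l 476) (T.l 476))) (T.c (T.c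 (T.l 476) (T.l 476)) (T.c (T.l 476) (T.l 476)))) (T.a (T.a (T.l 476) (T.a (T.l 476) (T.l 476))) (T.a (T.c (T.l 476) (T.l 476)) (T.c (T.l 476) (T.l 476)))))) (T.a (T.a (T.l 204) (T.a (T.a (T.c (T.c (T.l 204) (T.l 204)) (T.c (T.l 204) (T.l 204))) (T.c (T.c (T.l 476) (T.l 460)) (T.c (T.l 460) (T.l 460)))) (T.a (T.c (T.l 476) (T.l 476)) (T.c (T.l 476) (T.l 476))))) (T.a (T.a (T.c (T.c (T.l 476) (T.l 476)) (T.a (T.l 476) (T.l 476))) (T.a (T.c (T.l 476) (T.l 476)) (T.l 476))) (T.a (T.a (T.l 476) (T.a (T.l 476) (T.l 476))) (T.a (T.c (T.l 476) (T.l 476)) (T.c (T.l 476) (T.l 476))))))) (T.b (T.a (T.a (T.l 204) (T.a (T.a (T.c (T.c (T.l 204) (T.l 204)) (T.c (T.l 204) (T.l 204))) (T.c (T.c (T.l 220) (T.l 460)) (T.c (T.l 460) (T.l 204)))) (T.a (T.c (T.l 476) (T.l 476)) (T.c (T.l 476) (T.l 476))))) (T.a (T.a (T.c (T.c (T.l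 476) (T.l 476)) (T.a (T.l 476) (T.l 476))) (T.a (T.c (T.l 476) (T.l 476)) (T.l 476))) (T.a (T.a (T.l 476) (T.c (T.l 476) (T.l 476))) (T.a (T.c (T.l 476) (T.l 476)) (T.c (T.l 476) (T.l 476)))))) (T.a (T.a (T.l 204) (T.a (T.a (T.c (T.c (T.l 204) (T.l 204)) (T.c (T.l 204) (T.l 204))) (T.c (T.l 476) (T.c (T.l 460) (T.l 204)))) (T.a (T.c (T.l 476) (T.l 476)) (T.c (T.l 476) (T.l 476))))) (T.a (T.a (T.c (T.c (T.l 476) (T.l 476)) (T.c (T.l 476) (T.l 476))) (T.c (T.l 476) (T.c (T.l 476) (T.l 476)))) (T.a (T.a (T.l 476) (T.c (T.l 476) (T.l 476))) (T.a (T.c (T.l 476) (T.l 476)) (T.c (T.l 476) (T.l 476))))))))), by decide +kernel⟩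

def B012R_001_1_9_1 :
    ∃ t, chk3 (onCell 0 67108864 0 1073741824 67108864 67108864 (corTK [[⟨0, 0, 1, 33554432⟩, ⟨1, 1, 2, 33554432⟩, ⟨2, 1, 0, 8388608⟩, ⟨0, 0, 0, 150994944⟩, ⟨0, 1, 0, 1023410176⟩, ⟨1, 0, 0, 1023410176⟩, ⟨1, 1, 0, 150994944⟩]] false 3 c0N cB012R gN0q0 gN0q2 gN1q1 gN2q1 false true)) t 1 9 1 = true :=
  ⟨(T.b (T.b (T.b (T.b (T.b (T.a (T.a (T.l 204) (T.a (T.a (T.c (T.l 476) (T.l 460)) (T.c (T.l 476) (T.l 476))) (T.a (T.c (T.l 476) (T.l 476)) (T.c (T.l 476) (T.l 476))))) (T.a (T.a (T.c (T.c (T.l 476) (T.l 476)) (T.c (T.l 476) (T.l 476))) (T.c (T.l 476) (T.c (T.l 476) (T.l 476)))) (T.a (T.a (T.l 476) (T.c (T.l 476) (T.l 476))) (T.a (T.c (T.l 476) (T.l 476)) (T.c (T.l 476) (T.l 476)))))) (T.a (T.a (T.l 204) (T.a (T.a (T.c (T.l 476) (T.l 460)) (T.c (T.l 476) (T.l 476))) (T.a (T.c (T.l 476) (T.l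 476)) (T.c (T.l 476) (T.l 476))))) (T.a (T.a (T.a (T.c (T.l 220) (T.l 476)) (T.l 476)) (T.c (T.l 476) (T.c (T.l 476) (T.l 476)))) (T.a (T.a (T.l 476) (T.c (T.l 476) (T.l 476))) (T.a (T.c (T.l 476) (T.l 476)) (T.c (T.l 220) (T.l 476))))))) (T.b (T.a (T.a (T.l 204) (T.a (T.a (T.c (T.l 476) (T.l 460)) (T.c (T.l 476) (T.l 476))) (T.a (T.c (T.l 476) (T.l 476)) (T.c (T.l 220) (T.l 476))))) (T.a (T.a (T.a (T.c (T.l 220) (T.l 476)) (T.l 476)) (T.a (T.l 476) (T.l 476))) (T.a (T.a (T.l 476) (T.c (T.l 476) (T.l 476))) (T.a (T.c (T.l 476) (T.l 476)) (T.l 476))))) (T.a (T.a (T.l 204) (T.a (T.a (T.c (T.l 476) (T.l 460)) (T.c (T.l 476) (T.l 476))) (T.a (T.c (T.l 476) (T.l 476)) (T.c (T.l 220) (T.l 476))))) (T.a (T.a (T.a (T.c (T.l 220) (T.l 476)) (T.l 476)) (T.a (T.l 476) (T.l 476))) (T.a (T.a (T.l 476) (T.c (T.l 476) (T.l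 476))) (T.a (T.c (T.l 476) (T.l 476)) (T.l 476))))))) (T.b (T.a (T.a (T.l 204) (T.a (T.a (T.c (T.l 476) (T.l 460)) (T.c (T.l 476) (T.l 476))) (T.a (T.c (T.l 476) (T.l 476)) (T.c (T.l 220) (T.l 476))))) (T.a (T.a (T.a (T.c (T.l 220) (T.l 476)) (T.l 476)) (T.a (T.l 476) (T.l 476))) (T.a (T.a (T.l 476) (T.c (T.l 476) (T.l 476))) (T.a (T.c (T.l 476) (T.l 476)) (T.c (T.l 476) (T.l 476)))))) (T.a (T.a (T.l 204) (T.a (T.a (T.c (T.l 476) (T.l 460)) (T.c (T.l 476) (T.l 476))) (T.a (T.c (T.l 476) (T.l 476)) (T.c (T.l 220) (T.l 476))))) (T.a (T.a (T.c (T.l 476) (T.c (T.l 476) (T.l 476))) (T.a (T.l 476) (T.l 476))) (T.a (T.c (T.l 476) (T.l 476)) (T.a (T.c (T.l 476) (T.l 476)) (T.c (T.l 220) (T.l 476)))))))) (T.b (T.b (T.a (T.a (T.l 204) (T.a (T.a (T.c (T.l 476) (T.l 460)) (T.c (T.l 476) (T.l 476))) (T.a (T.c (T.l 476)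 (T.l 476)) (T.c (T.l 220) (T.l 476))))) (T.a (T.a (T.c (T.l 476) (T.c (T.l 476) (T.l 476))) (T.c (T.l 476) (T.l 476))) (T.a (T.c (T.l 476) (T.l 476)) (T.a (T.c (T.l 476) (T.l 476)) (T.c (T.l 220) (T.l 476)))))) (T.a (T.a (T.l 204) (T.a (T.a (T.c (T.l 476) (T.l 460)) (T.c (T.l 476) (T.l 476))) (T.a (T.c (T.l 476) (T.l 476)) (T.c (T.l 220) (T.l 460))))) (T.a (T.a (T.c (T.l 476) (T.l 476)) (T.c (T.l 476) (T.l 476))) (T.a (T.c (T.l 476) (T.l 476)) (T.a (T.c (T.l 476) (T.l 476)) (T.l 476)))))) (T.b (T.a (T.a (T.l 204) (T.a (T.a (T.c (T.l 476) (T.l 460)) (T.c (T.l 476) (T.l 460))) (T.a (T.c (T.l 220) (T.l 460)) (T.c (T.l 220) (T.l 204))))) (T.a (T.a (T.c (T.l 476) (T.l 476)) (T.c (T.l 476) (T.l 476))) (T.a (T.c (T.l 476) (T.l 476)) (T.a (T.c (T.l 476) (T.l 476)) (T.l 476))))) (T.a (T.a (T.l 204) (T.a (T.a (T.c (T.l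 476) (T.l 460)) (T.c (T.l 476) (T.l 460))) (T.a (T.c (T.l 220) (T.l 460)) (T.c (T.l 204) (T.l 204))))) (T.a (T.a (T.c (T.l 476) (T.l 476)) (T.c (T.l 476) (T.l 476))) (T.a (T.c (T.l 476) (T.l 476)) (T.a (T.c (T.l 476) (T.l 476)) (T.l 476)))))))) (T.b (T.b (T.b (T.a (T.a (T.l 204) (T.a (T.a (T.c (T.l 460) (T.l 204)) (T.c (T.l 476) (T.l 460))) (T.a (T.c (T.l 220) (T.l 204)) (T.c (T.l 204) (T.l 204))))) (T.a (T.a (T.c (T.l 476) (T.l 476)) (T.c (T.l 476) (T.l 476))) (T.a (T.c (T.l 476) (T.l 476)) (T.a (T.c (T.l 476) (T.l 476)) (T.l 476))))) (T.a (T.a (T.l 204) (T.a (T.a (T.c (T.l 204) (T.l 204)) (T.c (T.l 476) (T.l 460))) (T.a (T.c (T.l 204) (T.l 204)) (T.l 476)))) (T.a (T.a (T.c (T.l 476) (T.l 476)) (T.c (T.l 476) (T.l 476))) (T.a (T.c (T.l 476) (T.l 476)) (T.a (T.c (T.l 476) (T.l 476)) (T.l 476)))))) (T.b (T.a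 (T.a (T.l 204) (T.a (T.a (T.c (T.l 204) (T.l 204)) (T.c (T.l 476) (T.l 460))) (T.a (T.c (T.l 204) (T.l 204)) (T.l 476)))) (T.a (T.a (T.c (T.l 476) (T.l 476)) (T.c (T.l 476) (T.l 476))) (T.a (T.c (T.l 476) (T.l 476)) (T.a (T.l 476) (T.l 476))))) (T.a (T.a (T.l 204) (T.a (T.a (T.c (T.l 204) (T.l 204)) (T.c (T.l 220) (T.l 204))) (T.a (T.c (T.l 204) (T.l 204)) (T.l 476)))) (T.a (T.a (T.c (T.l 476) (T.l 476)) (T.c (T.l 476) (T.l 476))) (T.a (T.c (T.l 476) (T.l 476)) (T.a (T.l 476) (T.l 476))))))) (T.b (T.b (T.a (T.a (T.l 204) (T.a (T.a (T.c (T.l 204) (T.l 204)) (T.c (T.l 204) (T.l 204))) (T.a (T.c (T.l 204) (T.l 204)) (T.l 476)))) (T.a (T.a (T.c (T.l 476) (T.l 476)) (T.c (T.l 476) (T.l 476))) (T.a (T.l 476) (T.a (T.l 476) (T.l 476))))) (T.a (T.a (T.l 204) (T.a (T.a (T.c (T.l 204) (T.l 204)) (T.c (T.l 204) (T.l 204)))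 (T.c (T.l 476) (T.c (T.l 476) (T.l 476))))) (T.a (T.a (T.c (T.l 476) (T.l 476)) (T.c (T.l 476) (T.l 476))) (T.a (T.l 476) (T.a (T.l 476) (T.l 476)))))) (T.b (T.a (T.a (T.l 204) (T.a (T.a (T.l 204) (T.c (T.l 204) (T.l 204))) (T.a (T.l 476) (T.l 476)))) (T.a (T.a (T.c (T.l 476) (T.l 476)) (T.c (T.l 476) (T.l 476))) (T.a (T.l 476) (T.a (T.l 476) (T.l 476))))) (T.a (T.a (T.l 204) (T.a (T.a (T.l 204) (T.c (T.l 204) (T.l 204))) (T.a (T.l 476) (T.l 476)))) (T.a (T.a (T.c (T.l 476) (T.l 476)) (T.c (T.l 476) (T.l 476))) (T.a (T.l 476) (T.a (T.l 476) (T.l 476))))))))), by decide +kernel⟩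

def B012R_001_1_5_1 :
    ∃ t, chk3 (onCell 0 67108864 0 1073741824 67108864 67108864 (corTK [[⟨0, 0, 1, 33554432⟩, ⟨1, 1, 2, 33554432⟩, ⟨2, 1, 0, 8388608⟩, ⟨0, 0, 0, 150994944⟩, ⟨0, 1, 0, 1023410176⟩, ⟨1, 0, 0, 1023410176⟩, ⟨1, 1, 0, 150994944⟩]] false 3 c0N cB012R gN0q0 gN0q2 gN1q1 gN2q1 false true)) t 1 5 1 = true :=
  ⟨(T.b (T.b (T.b (T.b (T.a (T.a (T.l 204) (T.a (T.a (T.l 204) (T.c (T.l 204) (T.l 204))) (T.a (T.l 476) (T.l 476)))) (T.a (T.a (T.c (T.l 476) (T.l 476)) (T.c (T.l 476) (T.l 476))) (T.a (T.l 476) (T.a (T.l 476) (T.l 476))))) (T.a (T.a (T.l 204) (T.a (T.a (T.l 204) (T.c (T.l 204) (T.l 204))) (T.a (T.l 476) (T.l 476)))) (T.a (T.a (T.c (T.l 476) (T.l 476)) (T.c (T.l 476) (T.l 476))) (T.a (T.l 476) (T.l 476))))) (T.a (T.a (T.c (T.l 204) (T.l 204)) (T.a (T.a (T.l 204) (T.c (T.l 476) (T.l 460)))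 (T.a (T.c (T.l 204) (T.l 204)) (T.l 476)))) (T.a (T.a (T.a (T.c (T.l 220) (T.l 476)) (T.l 476)) (T.a (T.l 476) (T.l 476))) (T.a (T.c (T.l 476) (T.l 476)) (T.l 476))))) (T.a (T.a (T.c (T.b (T.l 204) (T.l 204)) (T.l 204)) (T.a (T.a (T.l 204) (T.c (T.l 476) (T.l 476))) (T.a (T.b (T.l 476) (T.c (T.l 476) (T.l 476))) (T.b (T.c (T.l 476) (T.l 476)) (T.l 476))))) (T.a (T.a (T.a (T.b (T.l 476) (T.l 476)) (T.b (T.l 476) (T.l 476))) (T.a (T.b (T.l 476) (T.l 476)) (T.b (T.l 476) (T.l 476)))) (T.a (T.a (T.l 476) (T.b (T.l 476) (T.l 476))) (T.b (T.l 476) (T.l 476)))))) (T.a (T.a (T.b (T.c (T.b (T.l 204) (T.l 204)) (T.l 204)) (T.c (T.b (T.l 204) (T.l 204)) (T.l 204))) (T.a (T.a (T.b (T.l 204) (T.b (T.l 204) (T.l 204))) (T.b (T.b (T.l 204) (T.l 476)) (T.b (T.l 476) (T.l 476)))) (T.b (T.a (T.b (T.c (T.l 476) (T.l 460)) (T.c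 (T.l 204) (T.l 204))) (T.b (T.l 476) (T.l 476))) (T.a (T.b (T.l 476) (T.l 476)) (T.b (T.l 476) (T.l 476)))))) (T.a (T.a (T.b (T.a (T.b (T.l 476) (T.l 476)) (T.b (T.l 476) (T.l 476))) (T.a (T.b (T.l 476) (T.l 476)) (T.l 476))) (T.b (T.a (T.l 476) (T.b (T.l 476) (T.l 476))) (T.a (T.l 476) (T.l 476)))) (T.b (T.a (T.a (T.l 476) (T.l 476)) (T.b (T.l 476) (T.l 476))) (T.a (T.b (T.l 476) (T.l 476)) (T.b (T.l 476) (T.l 476))))))), by decide +kernel⟩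

def B012R_001_1_3_1 :
    ∃ t, chk3 (onCell 0 67108864 0 1073741824 67108864 67108864 (corTK [[⟨0, 0, 1, 33554432⟩, ⟨1, 1, 2, 33554432⟩, ⟨2, 1, 0, 8388608⟩, ⟨0, 0, 0, 150994944⟩, ⟨0, 1, 0, 1023410176⟩, ⟨1, 0, 0, 1023410176⟩, ⟨1, 1, 0, 150994944⟩]] false 3 c0N cB012R gN0q0 gN0q2 gN1q1 gN2q1 false true)) t 1 3 1 = true :=
  ⟨(T.b (T.b (T.a (T.a (T.a (T.c (T.b (T.l 204) (T.l 204)) (T.l 204)) (T.a (T.l 460) (T.b (T.l 204) (T.b (T.l 204) (T.l 204))))) (T.a (T.a (T.b (T.b (T.l 476) (T.l 476)) (T.b (T.l 476) (T.l 476))) (T.b (T.b (T.l 476) (T.l 476)) (T.b (T.l 476) (T.l 476)))) (T.b (T.a (T.l 476) (T.b (T.l 476) (T.l 204))) (T.a (T.l 476) (T.l 476))))) (T.a (T.a (T.b (T.a (T.l 476) (T.l 476)) (T.a (T.l 476) (T.l 476))) (T.b (T.a (T.l 476) (T.l 476)) (T.b (T.l 476) (T.l 476)))) (T.a (T.b (T.b (T.l 476) (T.l 476))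 (T.b (T.l 476) (T.l 476))) (T.b (T.b (T.l 476) (T.l 476)) (T.l 476))))) (T.a (T.a (T.a (T.c (T.b (T.l 204) (T.l 204)) (T.l 204)) (T.a (T.l 460) (T.b (T.a (T.l 204) (T.l 460)) (T.c (T.l 476) (T.l 460))))) (T.a (T.a (T.b (T.b (T.l 460) (T.l 460)) (T.b (T.l 460) (T.l 460))) (T.b (T.l 476) (T.l 476))) (T.a (T.b (T.l 476) (T.l 476)) (T.b (T.l 476) (T.l 476))))) (T.a (T.a (T.b (T.b (T.l 476) (T.l 476)) (T.b (T.l 476) (T.l 476))) (T.b (T.b (T.l 476) (T.l 476)) (T.l 476))) (T.a (T.b (T.l 476) (T.l 476)) (T.b (T.l 476) (T.l 476)))))) (T.b (T.a (T.a (T.a (T.b (T.l 204) (T.l 204)) (T.a (T.a (T.l 204) (T.b (T.l 204) (T.l 460))) (T.a (T.b (T.l 460) (T.l 460)) (T.b (T.l 460) (T.l 204))))) (T.a (T.a (T.b (T.l 476) (T.l 476)) (T.b (T.l 476) (T.l 476))) (T.a (T.b (T.l 476) (T.l 476)) (T.b (T.l 476) (T.l 476))))) (T.a (T.a (T.a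 (T.b (T.l 476) (T.l 476)) (T.b (T.l 220) (T.l 204))) (T.b (T.l 476) (T.l 476))) (T.a (T.b (T.l 476) (T.l 476)) (T.b (T.l 476) (T.l 476))))) (T.a (T.a (T.a (T.b (T.l 204) (T.l 204)) (T.a (T.a (T.b (T.l 204) (T.l 204)) (T.b (T.l 460) (T.l 460))) (T.a (T.b (T.l 460) (T.l 460)) (T.l 476)))) (T.a (T.a (T.b (T.l 476) (T.l 476)) (T.b (T.l 476) (T.l 476))) (T.a (T.b (T.l 476) (T.l 476)) (T.b (T.l 476) (T.l 476))))) (T.a (T.a (T.a (T.l 476) (T.l 476)) (T.b (T.l 476) (T.l 476))) (T.a (T.b (T.l 476) (T.l 476)) (T.l 476)))))), by decide +kernel⟩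

theorem B012R_001_1_17_1 :
    ∃ t, chk3 (onCell 0 67108864 0 1073741824 67108864 67108864 (corTK [[⟨0, 0, 1, 33554432⟩, ⟨1, 1, 2, 33554432⟩, ⟨2, 1, 0, 8388608⟩, ⟨0, 0, 0, 150994944⟩, ⟨0, 1, 0, 1023410176⟩, ⟨1, 0, 0, 1023410176⟩, ⟨1, 1, 0, 150994944⟩]] false 3 c0N cB012R gN0q0 gN0q2 gN1q1 gN2q1 false true)) t 1 17 1 = true :=
  ex3_b B012R_001_1_34_1 B012R_001_1_35_1
theorem B012R_001_1_33_1 :
    ∃ t, chk3 (onCell 0 67108864 0 1073741824 67108864 67108864 (corTK [[⟨0, 0, 1, 33554432⟩, ⟨1, 1, 2, 33554432⟩, ⟨2, 1, 0, 8388608⟩, ⟨0, 0, 0, 150994944⟩, ⟨0, 1, 0, 1023410176⟩, ⟨1, 0, 0, 1023410176⟩, ⟨1, 1, 0, 150994944⟩]] false 3 c0N cB012R gN0q0 gN0q2 gN1q1 gN2q1 false true)) t 1 33 1 = true :=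
  ex3_b B012R_001_1_66_1 B012R_001_1_67_1
theorem B012R_001_1_256_1 :
    ∃ t, chk3 (onCell 0 67108864 0 1073741824 67108864 67108864 (corTK [[⟨0, 0, 1, 33554432⟩, ⟨1, 1, 2, 33554432⟩, ⟨2, 1, 0, 8388608⟩, ⟨0, 0, 0, 150994944⟩, ⟨0, 1, 0, 1023410176⟩, ⟨1, 0, 0, 1023410176⟩, ⟨1, 1, 0, 150994944⟩]] false 3 c0N cB012R gN0q0 gN0q2 gN1q1 gN2q1 false true)) t 1 256 1 = true :=
  ex3_a B012R_001_2_256_1 B012R_001_3_256_1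
theorem B012R_001_1_128_1 :
    ∃ t, chk3 (onCell 0 67108864 0 1073741824 67108864 67108864 (corTK [[⟨0, 0, 1, 33554432⟩, ⟨1, 1, 2, 33554432⟩, ⟨2, 1, 0, 8388608⟩, ⟨0, 0, 0, 150994944⟩, ⟨0, 1, 0, 1023410176⟩, ⟨1, 0, 0, 1023410176⟩, ⟨1, 1, 0, 150994944⟩]] false 3 c0N cB012R gN0q0 gN0q2 gN1q1 gN2q1 false true)) t 1 128 1 = true :=
  ex3_b B012R_001_1_256_1 B012R_001_1_257_1
theorem B012R_001_1_64_1 :
    ∃ t, chk3 (onCell 0 67108864 0 1073741824 67108864 67108864 (corTK [[⟨0, 0, 1, 33554432⟩, ⟨1, 1, 2, 33554432⟩, ⟨2, 1, 0, 8388608⟩, ⟨0, 0, 0, 150994944⟩, ⟨0, 1, 0, 1023410176⟩, ⟨1, 0, 0, 1023410176⟩, ⟨1, 1, 0, 150994944⟩]] false 3 c0N cB012R gN0q0 gN0q2 gN1q1 gN2q1 false true)) t 1 64 1 = true :=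
  ex3_b B012R_001_1_128_1 B012R_001_1_129_1
theorem B012R_001_1_32_1 :
    ∃ t, chk3 (onCell 0 67108864 0 1073741824 67108864 67108864 (corTK [[⟨0, 0, 1, 33554432⟩, ⟨1, 1, 2, 33554432⟩, ⟨2, 1, 0, 8388608⟩, ⟨0, 0, 0, 150994944⟩, ⟨0, 1, 0, 1023410176⟩, ⟨1, 0, 0, 1023410176⟩, ⟨1, 1, 0, 150994944⟩]] false 3 c0N cB012R gN0q0 gN0q2 gN1q1 gN2q1 false true)) t 1 32 1 = true :=
  ex3_b B012R_001_1_64_1 B012R_001_1_65_1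
theorem B012R_001_1_16_1 :
    ∃ t, chk3 (onCell 0 67108864 0 1073741824 67108864 67108864 (corTK [[⟨0, 0, 1, 33554432⟩, ⟨1, 1, 2, 33554432⟩, ⟨2, 1, 0, 8388608⟩, ⟨0, 0, 0, 150994944⟩, ⟨0, 1, 0, 1023410176⟩, ⟨1, 0, 0, 1023410176⟩, ⟨1, 1, 0, 150994944⟩]] false 3 c0N cB012R gN0q0 gN0q2 gN1q1 gN2q1 false true)) t 1 16 1 = true :=
  ex3_b B012R_001_1_32_1 B012R_001_1_33_1
theorem B012R_001_1_8_1 :
    ∃ t, chk3 (onCell 0 67108864 0 1073741824 67108864 67108864 (corTK [[⟨0, 0, 1, 33554432⟩, ⟨1, 1, 2, 33554432⟩, ⟨2, 1, 0, 8388608⟩, ⟨0, 0, 0, 150994944⟩, ⟨0, 1, 0, 1023410176⟩, ⟨1, 0, 0, 1023410176⟩, ⟨1, 1, 0, 150994944⟩]] false 3 c0N cB012R gN0q0 gN0q2 gN1q1 gN2q1 false true)) t 1 8 1 = true :=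
  ex3_b B012R_001_1_16_1 B012R_001_1_17_1
theorem B012R_001_1_4_1 :
    ∃ t, chk3 (onCell 0 67108864 0 1073741824 67108864 67108864 (corTK [[⟨0, 0, 1, 33554432⟩, ⟨1, 1, 2, 33554432⟩, ⟨2, 1, 0, 8388608⟩, ⟨0, 0, 0, 150994944⟩, ⟨0, 1, 0, 1023410176⟩, ⟨1, 0, 0, 1023410176⟩, ⟨1, 1, 0, 150994944⟩]] false 3 c0N cB012R gN0q0 gN0q2 gN1q1 gN2q1 false true)) t 1 4 1 = true :=
  ex3_b B012R_001_1_8_1 B012R_001_1_9_1
theorem B012R_001_1_2_1 :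
    ∃ t, chk3 (onCell 0 67108864 0 1073741824 67108864 67108864 (corTK [[⟨0, 0, 1, 33554432⟩, ⟨1, 1, 2, 33554432⟩, ⟨2, 1, 0, 8388608⟩, ⟨0, 0, 0, 150994944⟩, ⟨0, 1, 0, 1023410176⟩, ⟨1, 0, 0, 1023410176⟩, ⟨1, 1, 0, 150994944⟩]] false 3 c0N cB012R gN0q0 gN0q2 gN1q1 gN2q1 false true)) t 1 2 1 = true :=
  ex3_b B012R_001_1_4_1 B012R_001_1_5_1
theorem B012R_001 :
    ∃ t, chk3 (onCell 0 67108864 0 1073741824 67108864 67108864 (corTK [[⟨0, 0, 1, 33554432⟩, ⟨1, 1, 2, 33554432⟩, ⟨2, 1, 0, 8388608⟩, ⟨0, 0, 0, 150994944⟩, ⟨0, 1, 0, 1023410176⟩, ⟨1, 0, 0, 1023410176⟩, ⟨1, 1, 0, 150994944⟩]] false 3 c0N cB012R gN0q0 gN0q2 gN1q1 gN2q1 false true)) t 1 1 1 = true :=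
  ex3_b B012R_001_1_2_1 B012R_001_1_3_1

end Pool.Agent.Strip051.G.I1_16_1_8.Tab.CN
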