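import Pool.Agent.Strip051.G.I1_16_1_8.Gn
import Pool.Agent.Strip051.PB.Corns
import Pool.Agent.Strip051.PB.CornK

/-! # Certificates of the aligned corners (generated) -/

set_option linter.all false

namespace Pool.Agent.Strip051.G.I1_16_1_8.Tab.CN

open Pool.Agent.Strip051.PB

def B012R_021_2_16_1 :
    ∃ t, chk3 (onCell 0 67108864 0 1073741824 67108864 67108864 (corTK [[⟨0, 0, 1, 33554432⟩, ⟨1, 1, 2, 33554432⟩, ⟨2, 1, 0, 16777216⟩, ⟨0, 0, 0, 150994944⟩, ⟨0, 1, 0, 1023410176⟩, ⟨1, 0, 0, 1023410176⟩, ⟨1, 1, 0, 150994944⟩]] false 3 c0N cB012R gN0q0 gN2q2 gN1q1 gN2q1 false true)) t 2 16 1 = true :=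
  ⟨(T.b (T.a (T.c (T.a (T.l 204) (T.a (T.l 204) (T.a (T.l 204) (T.c (T.l 204) (T.l 204))))) (T.a (T.l 204) (T.a (T.l 204) (T.a (T.l 204) (T.b (T.l 460) (T.l 204)))))) (T.b (T.c (T.a (T.c (T.b (T.a (T.a (T.l 204) (T.l 204)) (T.c (T.a (T.l 460) (T.l 476)) (T.a (T.l 204) (T.l 476)))) (T.a (T.a (T.l 204) (T.l 204)) (T.a (T.l 204) (T.l 204)))) (T.b (T.a (T.a (T.l 204) (T.l 204)) (T.a (T.c (T.l 204) (T.l 204)) (T.c (T.l 460) (T.l 204)))) (T.a (T.a (T.l 204) (T.l 204)) (T.a (T.l 204) (T.l 204))))) (T.b (T.c (T.a (T.b (T.c (T.a (T.c (T.l 476) (T.l 476)) (T.a (T.l 476) (T.l 476))) (T.a (T.c (T.l 476) (T.l 460)) (T.c (T.l 476) (T.l 476)))) (T.a (T.l 476) (T.c (T.l 460) (T.l 460)))) (T.b (T.c (T.a (T.a (T.l 476) (T.l 476)) (T.a (T.l 476) (T.c (T.l 476) (T.l 476)))) (T.a (T.a (T.l 476) (T.l 476)) (T.a (T.l 476) (T.l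 476)))) (T.a (T.c (T.l 476) (T.l 460)) (T.c (T.l 476) (T.l 476))))) (T.a (T.b (T.c (T.a (T.l 460) (T.c (T.l 476) (T.l 460))) (T.a (T.l 460) (T.l 460))) (T.a (T.l 460) (T.l 460))) (T.b (T.c (T.a (T.c (T.l 476) (T.l 476)) (T.a (T.l 476) (T.l 476))) (T.a (T.l 476) (T.c (T.l 476) (T.l 476)))) (T.a (T.l 460) (T.l 476))))) (T.c (T.a (T.a (T.l 460) (T.l 460)) (T.a (T.l 460) (T.l 476))) (T.a (T.a (T.l 204) (T.l 204)) (T.a (T.l 460) (T.l 460)))))) (T.a (T.c (T.b (T.a (T.a (T.l 204) (T.l 204)) (T.a (T.l 204) (T.l 460))) (T.a (T.a (T.l 204) (T.l 204)) (T.a (T.l 204) (T.l 204)))) (T.b (T.a (T.a (T.l 204) (T.l 204)) (T.a (T.l 204) (T.l 204))) (T.a (T.a (T.l 204) (T.l 204)) (T.a (T.l 204) (T.l 204))))) (T.b (T.c (T.a (T.a (T.c (T.l 460) (T.l 204)) (T.c (T.l 460) (T.l 460))) (T.a (T.c (T.l 460) (T.l 460)) (T.c (T.l 476)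 (T.l 460)))) (T.a (T.a (T.l 204) (T.l 460)) (T.a (T.l 460) (T.l 460)))) (T.c (T.a (T.a (T.l 204) (T.l 204)) (T.c (T.l 460) (T.l 460))) (T.a (T.c (T.l 460) (T.l 460)) (T.c (T.l 460) (T.l 204))))))) (T.c (T.a (T.c (T.a (T.a (T.l 204) (T.l 204)) (T.a (T.l 204) (T.l 204))) (T.a (T.a (T.l 204) (T.l 204)) (T.a (T.l 204) (T.l 204)))) (T.b (T.c (T.a (T.c (T.l 460) (T.l 460)) (T.c (T.l 460) (T.l 460))) (T.a (T.c (T.l 460) (T.l 204)) (T.l 460))) (T.a (T.c (T.l 460) (T.l 204)) (T.c (T.l 460) (T.l 204))))) (T.a (T.c (T.a (T.c (T.l 460) (T.l 204)) (T.a (T.l 204) (T.l 204))) (T.a (T.b (T.l 460) (T.l 204)) (T.b (T.l 460) (T.l 204)))) (T.a (T.a (T.l 460) (T.l 460)) (T.c (T.l 460) (T.l 204))))))) (T.a (T.b (T.a (T.l 204) (T.a (T.l 204) (T.a (T.l 204) (T.c (T.l 204) (T.l 204))))) (T.l 204)) (T.b (T.c (T.a (T.a (T.c (T.l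 460) (T.l 204)) (T.c (T.l 460) (T.l 204))) (T.a (T.c (T.l 460) (T.l 204)) (T.c (T.l 204) (T.l 204)))) (T.a (T.a (T.c (T.l 204) (T.l 204)) (T.c (T.l 204) (T.l 204))) (T.a (T.c (T.l 204) (T.l 204)) (T.l 460)))) (T.a (T.c (T.a (T.c (T.l 204) (T.l 204)) (T.c (T.l 204) (T.l 204))) (T.a (T.l 204) (T.l 204))) (T.c (T.a (T.l 460) (T.l 460)) (T.a (T.l 204) (T.l 204))))))), by decide +kernel⟩

def B012R_021_3_32_1 :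
    ∃ t, chk3 (onCell 0 67108864 0 1073741824 67108864 67108864 (corTK [[⟨0, 0, 1, 33554432⟩, ⟨1, 1, 2, 33554432⟩, ⟨2, 1, 0, 16777216⟩, ⟨0, 0, 0, 150994944⟩, ⟨0, 1, 0, 1023410176⟩, ⟨1, 0, 0, 1023410176⟩, ⟨1, 1, 0, 150994944⟩]] false 3 c0N cB012R gN0q0 gN2q2 gN1q1 gN2q1 false true)) t 3 32 1 = true :=
  ⟨(T.b (T.a (T.c (T.b (T.a (T.c (T.b (T.a (T.c (T.a (T.b (T.a (T.c (T.l 476) (T.l 476)) (T.c (T.l 476) (T.l 476))) (T.l 476)) (T.b (T.a (T.c (T.l 476) (T.l 476)) (T.c (T.l 476) (T.l 476))) (T.l 476))) (T.a (T.a (T.l 476) (T.c (T.l 476) (T.l 476))) (T.b (T.a (T.l 476) (T.l 476)) (T.l 476)))) (T.c (T.a (T.b (T.c (T.a (T.l 476) (T.l 476)) (T.a (T.l 476) (T.l 476))) (T.l 476)) (T.b (T.c (T.a (T.l 476) (T.l 476)) (T.a (T.l 476) (T.l 476))) (T.l 476))) (T.a (T.b (T.a (T.l 476) (T.l 476)) (T.l 476)) (T.b (T.a (T.l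 476) (T.l 476)) (T.l 476))))) (T.a (T.a (T.c (T.l 476) (T.l 476)) (T.c (T.l 476) (T.l 476))) (T.a (T.c (T.l 476) (T.l 476)) (T.l 476)))) (T.b (T.a (T.c (T.a (T.a (T.l 476) (T.l 476)) (T.a (T.l 476) (T.l 476))) (T.a (T.c (T.l 476) (T.l 476)) (T.l 476))) (T.c (T.a (T.c (T.l 476) (T.l 476)) (T.c (T.l 476) (T.l 476))) (T.a (T.l 476) (T.l 476)))) (T.a (T.a (T.l 476) (T.l 476)) (T.a (T.l 476) (T.l 476))))) (T.c (T.b (T.a (T.c (T.a (T.b (T.c (T.a (T.l 476) (T.l 476)) (T.a (T.l 476) (T.l 476))) (T.l 476)) (T.b (T.c (T.a (T.l 476) (T.l 476)) (T.a (T.l 476) (T.l 476))) (T.l 476))) (T.a (T.a (T.l 476) (T.l 476)) (T.a (T.l 476) (T.l 476)))) (T.c (T.a (T.b (T.c (T.a (T.l 476) (T.l 476)) (T.a (T.l 476) (T.l 476))) (T.l 476)) (T.b (T.a (T.c (T.l 476) (T.l 476)) (T.a (T.l 476) (T.c (T.l 476) (T.l 476)))) (T.l 476))) (T.a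 (T.a (T.l 476) (T.l 476)) (T.a (T.l 476) (T.a (T.l 476) (T.l 476)))))) (T.a (T.a (T.l 476) (T.c (T.l 476) (T.l 476))) (T.a (T.c (T.l 476) (T.l 476)) (T.c (T.l 476) (T.l 476))))) (T.b (T.a (T.c (T.a (T.c (T.l 476) (T.l 476)) (T.c (T.l 476) (T.l 476))) (T.a (T.l 476) (T.l 476))) (T.c (T.a (T.c (T.l 476) (T.l 476)) (T.a (T.l 476) (T.c (T.l 476) (T.l 476)))) (T.a (T.l 476) (T.a (T.l 476) (T.l 476))))) (T.a (T.a (T.l 476) (T.l 476)) (T.a (T.l 476) (T.l 476)))))) (T.a (T.c (T.a (T.a (T.l 476) (T.l 476)) (T.c (T.l 476) (T.l 476))) (T.a (T.c (T.l 476) (T.l 460)) (T.c (T.l 476) (T.l 460)))) (T.c (T.a (T.a (T.l 476) (T.l 476)) (T.c (T.l 476) (T.l 476))) (T.a (T.c (T.l 476) (T.l 476)) (T.c (T.l 476) (T.l 476)))))) (T.b (T.a (T.c (T.b (T.a (T.a (T.c (T.l 476) (T.l 460)) (T.c (T.l 476) (T.l 460))) (T.a (T.c (T.l 476)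 (T.l 460)) (T.l 476))) (T.a (T.a (T.l 460) (T.l 460)) (T.c (T.l 476) (T.l 460)))) (T.b (T.a (T.a (T.l 460) (T.l 460)) (T.a (T.l 460) (T.l 460))) (T.a (T.c (T.l 460) (T.l 460)) (T.l 476)))) (T.c (T.b (T.a (T.a (T.l 476) (T.c (T.l 476) (T.l 476))) (T.a (T.l 476) (T.a (T.l 476) (T.l 476)))) (T.a (T.c (T.l 476) (T.l 476)) (T.c (T.l 476) (T.l 476)))) (T.b (T.a (T.a (T.l 460) (T.l 476)) (T.b (T.a (T.l 476) (T.a (T.l 204) (T.l 476))) (T.l 476))) (T.a (T.c (T.l 460) (T.l 460)) (T.l 476))))) (T.a (T.c (T.a (T.c (T.l 460) (T.l 460)) (T.l 476)) (T.a (T.l 460) (T.l 460))) (T.a (T.a (T.l 460) (T.l 476)) (T.c (T.l 476) (T.l 460)))))) (T.c (T.b (T.a (T.c (T.a (T.a (T.a (T.a (T.b (T.c (T.c (T.b (T.l 476) (T.l 476)) (T.l 476)) (T.l 476)) (T.l 476)) (T.l 1024)) (T.l 1024)) (T.l 1024)) (T.l 1024)) (T.b (T.a (T.c (T.b (T.a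 (T.a (T.l 476) (T.l 476)) (T.a (T.l 476) (T.l 476))) (T.a (T.a (T.l 476) (T.l 476)) (T.c (T.l 476) (T.l 476)))) (T.a (T.a (T.l 476) (T.l 476)) (T.a (T.l 476) (T.l 476)))) (T.c (T.a (T.a (T.c (T.l 476) (T.l 476)) (T.c (T.l 1024) (T.l 476))) (T.c (T.l 1024) (T.a (T.l 476) (T.l 476)))) (T.a (T.a (T.l 476) (T.l 476)) (T.a (T.l 476) (T.l 476))))) (T.a (T.a (T.a (T.l 476) (T.l 476)) (T.c (T.l 476) (T.l 476))) (T.a (T.c (T.l 476) (T.l 476)) (T.c (T.l 476) (T.l 476)))))) (T.c (T.l 1024) (T.b (T.a (T.c (T.a (T.a (T.c (T.l 1024) (T.l 476)) (T.l 1024)) (T.l 1024)) (T.a (T.a (T.l 476) (T.l 476)) (T.a (T.l 476) (T.l 476)))) (T.c (T.l 1024) (T.a (T.a (T.l 476) (T.l 476)) (T.a (T.l 476) (T.l 476))))) (T.a (T.a (T.c (T.l 476) (T.l 476)) (T.c (T.l 1024) (T.l 476))) (T.c (T.l 1024) (T.a (T.l 476) (T.l 476))))))) (T.a (T.c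 (T.a (T.a (T.a (T.l 476) (T.l 1024)) (T.l 1024)) (T.l 1024)) (T.b (T.a (T.a (T.c (T.l 476) (T.l 476)) (T.l 476)) (T.a (T.l 476) (T.l 476))) (T.a (T.a (T.l 476) (T.l 476)) (T.a (T.l 476) (T.l 476))))) (T.c (T.l 1024) (T.a (T.a (T.l 476) (T.l 476)) (T.a (T.l 476) (T.l 476)))))) (T.b (T.a (T.c (T.b (T.a (T.c (T.a (T.a (T.l 476) (T.l 476)) (T.a (T.l 476) (T.l 476))) (T.a (T.a (T.l 476) (T.l 476)) (T.c (T.l 476) (T.l 476)))) (T.c (T.a (T.a (T.l 476) (T.l 476)) (T.a (T.l 476) (T.l 476))) (T.a (T.l 476) (T.l 476)))) (T.a (T.a (T.c (T.l 476) (T.l 476)) (T.l 476)) (T.a (T.l 476) (T.l 476)))) (T.b (T.a (T.a (T.a (T.l 476) (T.l 476)) (T.c (T.l 476) (T.l 476))) (T.a (T.c (T.l 476) (T.l 476)) (T.c (T.l 476) (T.l 476)))) (T.a (T.a (T.l 476) (T.l 476)) (T.a (T.l 476) (T.l 476))))) (T.c (T.b (T.a (T.c (T.a (T.a (T.l 476)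 (T.l 476)) (T.a (T.l 476) (T.l 476))) (T.a (T.l 476) (T.l 476))) (T.c (T.a (T.a (T.l 476) (T.l 476)) (T.a (T.l 476) (T.l 476))) (T.a (T.l 476) (T.l 476)))) (T.a (T.a (T.l 476) (T.l 476)) (T.a (T.l 476) (T.l 476)))) (T.b (T.a (T.a (T.c (T.l 476) (T.l 476)) (T.c (T.l 476) (T.l 476))) (T.a (T.c (T.l 476) (T.l 476)) (T.c (T.l 476) (T.l 476)))) (T.a (T.a (T.l 476) (T.l 476)) (T.a (T.l 476) (T.l 476)))))) (T.a (T.c (T.b (T.a (T.a (T.l 476) (T.l 476)) (T.a (T.l 476) (T.l 476))) (T.a (T.a (T.l 460) (T.l 460)) (T.a (T.l 460) (T.l 460)))) (T.b (T.a (T.a (T.l 460) (T.l 460)) (T.a (T.l 460) (T.l 460))) (T.a (T.a (T.l 204) (T.l 204)) (T.c (T.l 476) (T.l 476))))) (T.c (T.a (T.a (T.l 476) (T.l 476)) (T.a (T.l 476) (T.l 476))) (T.a (T.a (T.l 476) (T.l 476)) (T.a (T.l 476) (T.l 476)))))))) (T.a (T.c (T.a (T.a (T.c (T.b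 (T.l 460) (T.l 460)) (T.l 460)) (T.c (T.l 476) (T.l 460))) (T.a (T.c (T.b (T.l 476) (T.l 460)) (T.l 460)) (T.c (T.l 476) (T.l 460)))) (T.a (T.a (T.c (T.l 460) (T.l 204)) (T.c (T.l 460) (T.l 204))) (T.a (T.c (T.l 460) (T.l 204)) (T.c (T.l 460) (T.l 204))))) (T.c (T.b (T.a (T.c (T.a (T.a (T.l 476) (T.l 1024)) (T.l 1024)) (T.a (T.a (T.l 476) (T.l 460)) (T.a (T.l 460) (T.l 460)))) (T.c (T.l 1024) (T.a (T.c (T.l 476) (T.l 476)) (T.c (T.l 1024) (T.l 476))))) (T.a (T.a (T.a (T.c (T.l 460) (T.l 460)) (T.l 476)) (T.a (T.l 476) (T.l 476))) (T.c (T.l 1024) (T.a (T.l 476) (T.l 476))))) (T.b (T.a (T.c (T.a (T.a (T.l 460) (T.l 460)) (T.a (T.l 460) (T.l 460))) (T.a (T.a (T.l 204) (T.l 204)) (T.c (T.l 476) (T.l 460)))) (T.a (T.a (T.l 476) (T.l 476)) (T.a (T.l 476) (T.l 476)))) (T.a (T.a (T.a (T.l 460) (T.l 460)) (T.c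 (T.l 476) (T.l 460))) (T.a (T.c (T.l 460) (T.l 460)) (T.c (T.l 460) (T.l 460)))))))), by decide +kernel⟩

def B012R_021_3_33_1 :
    ∃ t, chk3 (onCell 0 67108864 0 1073741824 67108864 67108864 (corTK [[⟨0, 0, 1, 33554432⟩, ⟨1, 1, 2, 33554432⟩, ⟨2, 1, 0, 16777216⟩, ⟨0, 0, 0, 150994944⟩, ⟨0, 1, 0, 1023410176⟩, ⟨1, 0, 0, 1023410176⟩, ⟨1, 1, 0, 150994944⟩]] false 3 c0N cB012R gN0q0 gN2q2 gN1q1 gN2q1 false true)) t 3 33 1 = true :=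
  ⟨(T.a (T.b (T.c (T.a (T.a (T.l 460) (T.l 460)) (T.a (T.c (T.l 460) (T.l 204)) (T.l 476))) (T.a (T.a (T.l 204) (T.l 204)) (T.a (T.l 204) (T.l 204)))) (T.a (T.c (T.c (T.l 460) (T.l 460)) (T.c (T.l 460) (T.l 204))) (T.c (T.c (T.l 460) (T.l 460)) (T.c (T.l 204) (T.l 204))))) (T.b (T.c (T.a (T.a (T.a (T.c (T.l 460) (T.l 460)) (T.c (T.l 460) (T.l 460))) (T.a (T.l 476) (T.l 476))) (T.c (T.l 1024) (T.a (T.l 476) (T.l 476)))) (T.a (T.a (T.a (T.l 460) (T.l 460)) (T.a (T.l 460) (T.l 460))) (T.a (T.c (T.l 460) (T.l 460)) (T.c (T.l 460) (T.l 460))))) (T.a (T.c (T.a (T.a (T.l 204) (T.l 460)) (T.c (T.l 1024) (T.l 460))) (T.a (T.a (T.l 204) (T.l 204)) (T.c (T.l 460) (T.l 204)))) (T.a (T.c (T.c (T.l 1024) (T.l 460)) (T.l 460)) (T.c (T.c (T.l 1024) (T.l 460)) (T.l 460)))))), by decide +kernel⟩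

def B012R_021_1_17_1 :
    ∃ t, chk3 (onCell 0 67108864 0 1073741824 67108864 67108864 (corTK [[⟨0, 0, 1, 33554432⟩, ⟨1, 1, 2, 33554432⟩, ⟨2, 1, 0, 16777216⟩, ⟨0, 0, 0, 150994944⟩, ⟨0, 1, 0, 1023410176⟩, ⟨1, 0, 0, 1023410176⟩, ⟨1, 1, 0, 150994944⟩]] false 3 c0N cB012R gN0q0 gN2q2 gN1q1 gN2q1 false true)) t 1 17 1 = true :=
  ⟨(T.a (T.a (T.l 204) (T.b (T.a (T.c (T.a (T.b (T.l 204) (T.l 204)) (T.b (T.l 204) (T.l 204))) (T.a (T.l 204) (T.l 204))) (T.a (T.c (T.l 460) (T.l 204)) (T.c (T.l 460) (T.l 204)))) (T.a (T.a (T.c (T.l 204) (T.l 204)) (T.c (T.l 204) (T.l 204))) (T.c (T.c (T.l 460) (T.l 460)) (T.b (T.l 460) (T.l 204)))))) (T.b (T.a (T.b (T.a (T.c (T.c (T.l 460) (T.l 204)) (T.l 460)) (T.c (T.c (T.l 460) (T.l 204)) (T.l 460))) (T.a (T.c (T.l 460) (T.l 204)) (T.c (T.l 460) (T.l 204)))) (T.b (T.a (T.a (T.a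 (T.l 460) (T.c (T.l 460) (T.l 204))) (T.c (T.c (T.l 460) (T.l 460)) (T.l 460))) (T.a (T.c (T.l 460) (T.l 460)) (T.c (T.l 460) (T.l 460)))) (T.a (T.a (T.l 460) (T.c (T.l 460) (T.l 460))) (T.a (T.c (T.l 460) (T.l 204)) (T.c (T.l 460) (T.l 204)))))) (T.a (T.a (T.c (T.l 460) (T.l 204)) (T.c (T.l 460) (T.l 204))) (T.b (T.a (T.a (T.l 460) (T.c (T.l 460) (T.l 204))) (T.a (T.c (T.l 460) (T.l 204)) (T.c (T.l 460) (T.l 204)))) (T.a (T.a (T.l 204) (T.c (T.l 460) (T.l 204))) (T.a (T.c (T.l 204) (T.l 204)) (T.c (T.l 204) (T.l 204)))))))), by decide +kernel⟩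

def B012R_021_1_9_1 :
    ∃ t, chk3 (onCell 0 67108864 0 1073741824 67108864 67108864 (corTK [[⟨0, 0, 1, 33554432⟩, ⟨1, 1, 2, 33554432⟩, ⟨2, 1, 0, 16777216⟩, ⟨0, 0, 0, 150994944⟩, ⟨0, 1, 0, 1023410176⟩, ⟨1, 0, 0, 1023410176⟩, ⟨1, 1, 0, 150994944⟩]] false 3 c0N cB012R gN0q0 gN2q2 gN1q1 gN2q1 false true)) t 1 9 1 = true :=
  ⟨(T.a (T.a (T.l 204) (T.b (T.a (T.a (T.c (T.l 204) (T.l 204)) (T.c (T.l 204) (T.l 204))) (T.c (T.c (T.l 460) (T.l 460)) (T.b (T.l 204) (T.l 204)))) (T.a (T.a (T.b (T.l 204) (T.l 204)) (T.b (T.l 204) (T.l 204))) (T.c (T.l 460) (T.l 204))))) (T.b (T.a (T.a (T.c (T.b (T.l 204) (T.l 204)) (T.l 204)) (T.c (T.l 460) (T.l 204))) (T.b (T.a (T.a (T.l 204) (T.c (T.b (T.l 460) (T.l 204)) (T.l 460))) (T.a (T.c (T.l 460) (T.l 460)) (T.c (T.l 460) (T.l 204)))) (T.a (T.l 460) (T.a (T.c (T.l 460) (T.l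 204)) (T.c (T.l 460) (T.l 204)))))) (T.a (T.a (T.b (T.l 460) (T.l 204)) (T.b (T.l 460) (T.l 460))) (T.a (T.b (T.l 460) (T.l 204)) (T.a (T.b (T.c (T.l 460) (T.l 204)) (T.l 204)) (T.b (T.c (T.l 204) (T.l 204)) (T.c (T.l 204) (T.l 204)))))))), by decide +kernel⟩

def B012R_021_1_5_1 :
    ∃ t, chk3 (onCell 0 67108864 0 1073741824 67108864 67108864 (corTK [[⟨0, 0, 1, 33554432⟩, ⟨1, 1, 2, 33554432⟩, ⟨2, 1, 0, 16777216⟩, ⟨0, 0, 0, 150994944⟩, ⟨0, 1, 0, 1023410176⟩, ⟨1, 0, 0, 1023410176⟩, ⟨1, 1, 0, 150994944⟩]] false 3 c0N cB012R gN0q0 gN2q2 gN1q1 gN2q1 false true)) t 1 5 1 = true :=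
  ⟨(T.a (T.a (T.l 0) (T.b (T.b (T.a (T.a (T.l 204) (T.l 204)) (T.b (T.l 460) (T.l 204))) (T.a (T.c (T.l 256) (T.l 0)) (T.b (T.l 204) (T.l 0)))) (T.a (T.l 0) (T.b (T.l 256) (T.l 256))))) (T.b (T.a (T.a (T.b (T.l 460) (T.l 204)) (T.b (T.l 460) (T.l 460))) (T.b (T.a (T.l 460) (T.a (T.l 204) (T.b (T.l 460) (T.l 204)))) (T.c (T.l 256) (T.l 0)))) (T.a (T.a (T.b (T.l 0) (T.l 0)) (T.b (T.l 0) (T.l 0))) (T.a (T.b (T.l 0) (T.l 0)) (T.b (T.l 0) (T.l 0)))))), by decide +kernel⟩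

def B012R_021_1_3_1 :
    ∃ t, chk3 (onCell 0 67108864 0 1073741824 67108864 67108864 (corTK [[⟨0, 0, 1, 33554432⟩, ⟨1, 1, 2, 33554432⟩, ⟨2, 1, 0, 16777216⟩, ⟨0, 0, 0, 150994944⟩, ⟨0, 1, 0, 1023410176⟩, ⟨1, 0, 0, 1023410176⟩, ⟨1, 1, 0, 150994944⟩]] false 3 c0N cB012R gN0q0 gN2q2 gN1q1 gN2q1 false true)) t 1 3 1 = true :=
  ⟨(T.a (T.b (T.a (T.l 0) (T.a (T.b (T.l 0) (T.l 880)) (T.b (T.b (T.l 0) (T.l 816)) (T.l 816)))) (T.a (T.b (T.l 816) (T.a (T.l 816) (T.c (T.l 880) (T.l 816)))) (T.a (T.c (T.b (T.l 816) (T.l 816)) (T.l 880)) (T.b (T.l 816) (T.l 816))))) (T.b (T.a (T.b (T.a (T.b (T.l 0) (T.l 816)) (T.b (T.l 0) (T.l 816))) (T.a (T.l 816) (T.b (T.l 816) (T.l 816)))) (T.b (T.c (T.b (T.l 0) (T.l 0)) (T.l 320)) (T.b (T.b (T.l 880) (T.l 880)) (T.b (T.l 880) (T.a (T.l 816) (T.a (T.l 816) (T.l 880))))))) (T.a (T.a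 (T.b (T.l 816) (T.l 816)) (T.b (T.l 816) (T.b (T.l 816) (T.a (T.l 816) (T.a (T.l 816) (T.b (T.l 816) (T.l 816))))))) (T.b (T.a (T.b (T.l 816) (T.a (T.l 816) (T.b (T.l 816) (T.c (T.l 816) (T.l 816))))) (T.b (T.a (T.b (T.l 816) (T.l 880)) (T.b (T.l 880) (T.l 880))) (T.a (T.b (T.l 880) (T.l 880)) (T.b (T.l 816) (T.l 816))))) (T.a (T.b (T.a (T.a (T.l 816) (T.b (T.l 816) (T.l 816))) (T.b (T.c (T.l 816) (T.l 816)) (T.c (T.l 816) (T.l 816)))) (T.a (T.a (T.b (T.l 816) (T.l 816)) (T.b (T.l 816) (T.l 816))) (T.b (T.l 880) (T.c (T.l 816) (T.l 816))))) (T.b (T.a (T.b (T.l 816) (T.l 816)) (T.b (T.l 816) (T.l 816))) (T.a (T.b (T.l 816) (T.l 816)) (T.b (T.l 816) (T.l 816))))))))), by decide +kernel⟩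

theorem B012R_021_3_16_1 :
    ∃ t, chk3 (onCell 0 67108864 0 1073741824 67108864 67108864 (corTK [[⟨0, 0, 1, 33554432⟩, ⟨1, 1, 2, 33554432⟩, ⟨2, 1, 0, 16777216⟩, ⟨0, 0, 0, 150994944⟩, ⟨0, 1, 0, 1023410176⟩, ⟨1, 0, 0, 1023410176⟩, ⟨1, 1, 0, 150994944⟩]] false 3 c0N cB012R gN0q0 gN2q2 gN1q1 gN2q1 false true)) t 3 16 1 = true :=
  ex3_b B012R_021_3_32_1 B012R_021_3_33_1
theorem B012R_021_1_16_1 :
    ∃ t, chk3 (onCell 0 67108864 0 1073741824 67108864 67108864 (corTK [[⟨0, 0, 1, 33554432⟩, ⟨1, 1, 2, 33554432⟩, ⟨2, 1, 0, 16777216⟩, ⟨0, 0, 0, 150994944⟩, ⟨0, 1, 0, 1023410176⟩, ⟨1, 0, 0, 1023410176⟩, ⟨1, 1, 0, 150994944⟩]] false 3 c0N cB012R gN0q0 gN2q2 gN1q1 gN2q1 false true)) t 1 16 1 = true :=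
  ex3_a B012R_021_2_16_1 B012R_021_3_16_1
theorem B012R_021_1_8_1 :
    ∃ t, chk3 (onCell 0 67108864 0 1073741824 67108864 67108864 (corTK [[⟨0, 0, 1, 33554432⟩, ⟨1, 1, 2, 33554432⟩, ⟨2, 1, 0, 16777216⟩, ⟨0, 0, 0, 150994944⟩, ⟨0, 1, 0, 1023410176⟩, ⟨1, 0, 0, 1023410176⟩, ⟨1, 1, 0, 150994944⟩]] false 3 c0N cB012R gN0q0 gN2q2 gN1q1 gN2q1 false true)) t 1 8 1 = true :=
  ex3_b B012R_021_1_16_1 B012R_021_1_17_1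
theorem B012R_021_1_4_1 :
    ∃ t, chk3 (onCell 0 67108864 0 1073741824 67108864 67108864 (corTK [[⟨0, 0, 1, 33554432⟩, ⟨1, 1, 2, 33554432⟩, ⟨2, 1, 0, 16777216⟩, ⟨0, 0, 0, 150994944⟩, ⟨0, 1, 0, 1023410176⟩, ⟨1, 0, 0, 1023410176⟩, ⟨1, 1, 0, 150994944⟩]] false 3 c0N cB012R gN0q0 gN2q2 gN1q1 gN2q1 false true)) t 1 4 1 = true :=
  ex3_b B012R_021_1_8_1 B012R_021_1_9_1
theorem B012R_021_1_2_1 :
    ∃ t, chk3 (onCell 0 67108864 0 1073741824 67108864 67108864 (corTK [[⟨0, 0, 1, 33554432⟩, ⟨1, 1, 2, 33554432⟩, ⟨2, 1, 0, 16777216⟩, ⟨0, 0, 0, 150994944⟩, ⟨0, 1, 0, 1023410176⟩, ⟨1, 0, 0, 1023410176⟩, ⟨1, 1, 0, 150994944⟩]] false 3 c0N cB012R gN0q0 gN2q2 gN1q1 gN2q1 false true)) t 1 2 1 = true :=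
  ex3_b B012R_021_1_4_1 B012R_021_1_5_1
theorem B012R_021 :
    ∃ t, chk3 (onCell 0 67108864 0 1073741824 67108864 67108864 (corTK [[⟨0, 0, 1, 33554432⟩, ⟨1, 1, 2, 33554432⟩, ⟨2, 1, 0, 16777216⟩, ⟨0, 0, 0, 150994944⟩, ⟨0, 1, 0, 1023410176⟩, ⟨1, 0, 0, 1023410176⟩, ⟨1, 1, 0, 150994944⟩]] false 3 c0N cB012R gN0q0 gN2q2 gN1q1 gN2q1 false true)) t 1 1 1 = true :=
  ex3_b B012R_021_1_2_1 B012R_021_1_3_1

def B012R_022 :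
    ∃ t, chk3 (onCell 0 67108864 0 1073741824 67108864 67108864 (corTK [[⟨0, 0, 1, 33554432⟩, ⟨1, 1, 2, 33554432⟩, ⟨2, 1, 0, 16777216⟩, ⟨0, 0, 0, 150994944⟩, ⟨0, 1, 0, 1023410176⟩, ⟨1, 0, 0, 1023410176⟩, ⟨1, 1, 0, 150994944⟩]] false 3 c0N cB012R gN0q0 gN2q2 gN2q1 gN3q1 true true)) t 1 1 1 = true :=
  ⟨(T.b (T.b (T.b (T.b (T.a (T.b (T.a (T.c (T.a (T.l 204) (T.b (T.b (T.a (T.l 204) (T.b (T.a (T.l 204) (T.l 204)) (T.l 1))) (T.l 1)) (T.l 1))) (T.a (T.l 204) (T.b (T.b (T.a (T.l 204) (T.a (T.l 204) (T.l 204))) (T.l 1)) (T.l 1)))) (T.b (T.b (T.b (T.c (T.b (T.c (T.b (T.a (T.c (T.b (T.a (T.a (T.l 204) (T.l 204)) (T.a (T.l 204) (T.l 476))) (T.l 1)) (T.b (T.a (T.a (T.l 204) (T.l 204)) (T.a (T.l 204) (T.l 460))) (T.l 1))) (T.c (T.b (T.a (T.a (T.l 476) (T.c (T.l 476) (T.l 476))) (T.c (T.b (T.a (T.a (T.l 476) (T.l 476))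 (T.a (T.l 476) (T.l 476))) (T.l 1)) (T.b (T.a (T.a (T.l 476) (T.l 476)) (T.a (T.l 476) (T.l 476))) (T.l 1)))) (T.l 1)) (T.b (T.a (T.a (T.l 476) (T.c (T.l 476) (T.l 476))) (T.c (T.b (T.a (T.a (T.l 476) (T.l 476)) (T.a (T.l 476) (T.l 476))) (T.l 1)) (T.a (T.l 476) (T.a (T.l 476) (T.l 476))))) (T.l 1)))) (T.l 1)) (T.b (T.a (T.c (T.b (T.a (T.a (T.l 204) (T.l 204)) (T.a (T.l 204) (T.l 204))) (T.l 1)) (T.b (T.a (T.a (T.l 204) (T.l 204)) (T.a (T.l 204) (T.l 204))) (T.l 1))) (T.c (T.b (T.a (T.a (T.l 460) (T.l 476)) (T.c (T.a (T.l 476) (T.l 476)) (T.a (T.l 476) (T.l 476)))) (T.l 1)) (T.b (T.a (T.a (T.l 460) (T.l 460)) (T.a (T.l 476) (T.l 476))) (T.l 1)))) (T.l 1))) (T.l 1)) (T.b (T.c (T.b (T.a (T.c (T.b (T.a (T.a (T.l 204) (T.l 204)) (T.a (T.l 204) (T.l 204))) (T.l 1)) (T.b (T.a (T.a (T.l 204) (T.l 204)) (T.a (T.l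 204) (T.l 204))) (T.l 1))) (T.c (T.b (T.a (T.a (T.l 204) (T.l 460)) (T.a (T.l 460) (T.l 460))) (T.l 1)) (T.b (T.a (T.a (T.l 204) (T.l 204)) (T.a (T.l 204) (T.l 460))) (T.l 1)))) (T.l 1)) (T.b (T.a (T.c (T.b (T.a (T.a (T.l 204) (T.l 204)) (T.a (T.l 204) (T.l 204))) (T.l 1)) (T.b (T.a (T.a (T.l 204) (T.l 204)) (T.a (T.l 204) (T.l 204))) (T.l 1))) (T.c (T.b (T.a (T.a (T.l 204) (T.l 204)) (T.a (T.l 204) (T.l 204))) (T.l 1)) (T.b (T.a (T.a (T.l 204) (T.l 204)) (T.a (T.l 204) (T.l 204))) (T.l 1)))) (T.l 1))) (T.l 1))) (T.l 1)) (T.l 1)) (T.l 1))) (T.a (T.a (T.l 204) (T.l 1)) (T.l 1))) (T.b (T.b (T.b (T.b (T.c (T.b (T.a (T.c (T.b (T.a (T.c (T.b (T.a (T.c (T.b (T.a (T.a (T.l 476) (T.l 476)) (T.a (T.l 476) (T.l 476))) (T.l 1)) (T.b (T.a (T.a (T.l 476) (T.l 476)) (T.a (T.l 476) (T.l 476))) (T.l 1))) (T.c (T.b (T.a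 (T.a (T.l 476) (T.l 476)) (T.a (T.l 476) (T.l 476))) (T.l 1)) (T.b (T.a (T.a (T.l 476) (T.l 476)) (T.a (T.l 476) (T.l 476))) (T.l 1)))) (T.l 1)) (T.b (T.a (T.c (T.b (T.a (T.a (T.l 476) (T.l 476)) (T.a (T.l 476) (T.l 476))) (T.l 1)) (T.b (T.a (T.a (T.l 476) (T.l 476)) (T.a (T.l 476) (T.l 476))) (T.l 1))) (T.c (T.b (T.a (T.a (T.l 476) (T.l 476)) (T.a (T.l 476) (T.l 476))) (T.l 1)) (T.a (T.l 476) (T.l 476)))) (T.l 1))) (T.c (T.b (T.a (T.c (T.b (T.a (T.a (T.l 476) (T.l 476)) (T.a (T.l 476) (T.l 476))) (T.l 1)) (T.b (T.a (T.a (T.l 476) (T.l 476)) (T.a (T.l 476) (T.l 476))) (T.l 1))) (T.c (T.b (T.a (T.a (T.l 476) (T.l 476)) (T.a (T.l 476) (T.a (T.l 476) (T.l 476)))) (T.l 1)) (T.b (T.a (T.a (T.l 476) (T.l 476)) (T.a (T.l 476) (T.c (T.l 476) (T.l 476)))) (T.l 1)))) (T.l 1)) (T.b (T.a (T.c (T.a (T.l 476) (T.a (T.l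 476) (T.l 476))) (T.a (T.l 476) (T.l 476))) (T.c (T.a (T.l 476) (T.a (T.l 476) (T.l 476))) (T.a (T.l 476) (T.a (T.l 476) (T.l 476))))) (T.l 1)))) (T.l 1)) (T.b (T.a (T.c (T.b (T.a (T.c (T.a (T.l 476) (T.l 476)) (T.a (T.l 476) (T.l 476))) (T.a (T.c (T.l 476) (T.l 476)) (T.l 476))) (T.l 1)) (T.b (T.a (T.a (T.l 476) (T.l 476)) (T.a (T.l 476) (T.l 476))) (T.l 1))) (T.c (T.b (T.a (T.a (T.l 476) (T.c (T.l 476) (T.l 476))) (T.a (T.l 476) (T.a (T.l 476) (T.l 476)))) (T.l 1)) (T.b (T.a (T.a (T.l 476) (T.l 476)) (T.a (T.l 476) (T.a (T.l 476) (T.l 476)))) (T.l 1)))) (T.l 1))) (T.c (T.a (T.a (T.a (T.a (T.b (T.a (T.c (T.c (T.l 476) (T.l 476)) (T.l 476)) (T.l 1024)) (T.l 1)) (T.l 1024)) (T.l 1024)) (T.l 1024)) (T.l 1024)) (T.b (T.a (T.c (T.b (T.a (T.c (T.b (T.a (T.a (T.l 476) (T.l 476)) (T.a (T.l 476) (T.l 476))) (T.l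 1)) (T.b (T.a (T.a (T.l 476) (T.l 476)) (T.a (T.l 476) (T.l 476))) (T.l 1))) (T.c (T.a (T.a (T.l 476) (T.l 1024)) (T.l 1024)) (T.b (T.a (T.a (T.l 476) (T.l 476)) (T.a (T.l 476) (T.l 476))) (T.l 1)))) (T.l 1)) (T.b (T.a (T.c (T.b (T.a (T.a (T.l 476) (T.l 476)) (T.a (T.l 476) (T.l 476))) (T.l 1)) (T.a (T.a (T.l 476) (T.l 476)) (T.l 476))) (T.c (T.b (T.a (T.l 476) (T.l 476)) (T.l 1)) (T.a (T.l 476) (T.l 476)))) (T.l 1))) (T.c (T.a (T.a (T.a (T.l 476) (T.l 1024)) (T.l 1024)) (T.l 1024)) (T.b (T.a (T.c (T.b (T.a (T.a (T.l 476) (T.l 476)) (T.a (T.l 476) (T.l 476))) (T.l 1)) (T.a (T.l 476) (T.l 476))) (T.c (T.a (T.a (T.l 476) (T.l 1024)) (T.l 1024)) (T.a (T.l 476) (T.l 476)))) (T.l 1)))) (T.l 1)))) (T.l 1)) (T.b (T.a (T.c (T.b (T.a (T.c (T.b (T.a (T.a (T.l 476) (T.l 476)) (T.a (T.l 476) (T.l 476))) (T.l 1)) (T.b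 (T.a (T.a (T.l 460) (T.l 460)) (T.a (T.l 460) (T.l 460))) (T.l 1))) (T.c (T.b (T.a (T.a (T.l 476) (T.l 476)) (T.a (T.l 476) (T.a (T.l 476) (T.l 476)))) (T.l 1)) (T.b (T.a (T.a (T.l 460) (T.l 476)) (T.a (T.l 476) (T.c (T.l 476) (T.l 476)))) (T.l 1)))) (T.l 1)) (T.b (T.a (T.c (T.a (T.a (T.l 204) (T.l 204)) (T.l 476)) (T.a (T.a (T.l 204) (T.l 204)) (T.l 476))) (T.c (T.b (T.a (T.a (T.l 204) (T.l 204)) (T.a (T.l 204) (T.l 476))) (T.l 1)) (T.a (T.l 476) (T.a (T.l 204) (T.l 476))))) (T.l 1))) (T.c (T.b (T.a (T.c (T.b (T.a (T.a (T.a (T.l 476) (T.l 476)) (T.l 476)) (T.a (T.l 476) (T.l 476))) (T.l 1)) (T.b (T.a (T.a (T.l 476) (T.l 476)) (T.a (T.l 476) (T.l 476))) (T.l 1))) (T.c (T.b (T.a (T.a (T.l 476) (T.l 476)) (T.a (T.l 476) (T.l 476))) (T.l 1)) (T.b (T.a (T.a (T.l 476) (T.l 476)) (T.a (T.l 476) (T.l 476))) (T.l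 1)))) (T.l 1)) (T.b (T.a (T.c (T.b (T.a (T.a (T.l 476) (T.l 476)) (T.a (T.l 476) (T.l 476))) (T.l 1)) (T.b (T.a (T.a (T.l 476) (T.l 476)) (T.a (T.l 476) (T.l 476))) (T.l 1))) (T.c (T.b (T.a (T.a (T.l 476) (T.l 476)) (T.a (T.l 476) (T.l 476))) (T.l 1)) (T.b (T.a (T.a (T.l 476) (T.l 476)) (T.a (T.l 476) (T.l 476))) (T.l 1)))) (T.l 1)))) (T.l 1))) (T.l 1)) (T.l 1)) (T.l 1)) (T.l 1))) (T.a (T.a (T.l 204) (T.l 1)) (T.l 1))) (T.a (T.a (T.l 204) (T.l 1)) (T.l 1))) (T.a (T.a (T.l 0) (T.l 1)) (T.l 1))) (T.a (T.a (T.b (T.l 0) (T.a (T.l 816) (T.l 1))) (T.l 1)) (T.l 1))), by decide +kernel⟩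

def B012R_023 :
    ∃ t, chk3 (onCell 0 67108864 0 1073741824 67108864 67108864 (corTK [[⟨0, 0, 1, 33554432⟩, ⟨1, 1, 2, 33554432⟩, ⟨2, 1, 0, 16777216⟩, ⟨0, 0, 0, 150994944⟩, ⟨0, 1, 0, 1023410176⟩, ⟨1, 0, 0, 1023410176⟩, ⟨1, 1, 0, 150994944⟩]] false 3 c0N cB012R gN0q0 gN2q2 gN3q1 gN4q1 true true)) t 1 1 1 = true :=
  ⟨(T.b (T.l 1) (T.b (T.l 1) (T.b (T.l 1) (T.b (T.l 1) (T.a (T.b (T.l 1) (T.a (T.a (T.l 816) (T.l 1)) (T.l 1))) (T.l 1)))))), by decide +kernel⟩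

def B012R_101 :
    ∃ t, chk3 (onCell 0 67108864 0 1073741824 67108864 67108864 (corTK [] false 3 c0N cB012R gN1q0 gN0q2 gN1q1 gN2q1 false true)) t 1 1 1 = true :=
  ⟨(T.b (T.b (T.l 2) (T.a (T.l 2) (T.b (T.l 2) (T.b (T.l 2) (T.l 816))))) (T.b (T.b (T.a (T.a (T.a (T.l 816) (T.l 816)) (T.l 816)) (T.b (T.l 816) (T.l 816))) (T.a (T.a (T.a (T.l 816) (T.l 816)) (T.l 816)) (T.b (T.l 816) (T.l 816)))) (T.b (T.a (T.a (T.a (T.l 816) (T.l 816)) (T.l 816)) (T.b (T.l 816) (T.l 816))) (T.a (T.a (T.a (T.l 816) (T.l 816)) (T.l 816)) (T.b (T.l 816) (T.l 816)))))), by decide +kernel⟩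

def B012R_102 :
    ∃ t, chk3 (onCell 0 67108864 0 1073741824 67108864 67108864 (corTK [] false 3 c0N cB012R gN1q0 gN0q2 gN2q1 gN3q1 true true)) t 1 1 1 = true :=
  ⟨(T.b (T.b (T.l 2) (T.b (T.l 2) (T.b (T.a (T.l 2) (T.a (T.l 2) (T.l 816))) (T.a (T.a (T.l 2) (T.l 816)) (T.l 816))))) (T.b (T.b (T.b (T.a (T.a (T.a (T.l 816) (T.l 816)) (T.l 816)) (T.l 816)) (T.a (T.a (T.a (T.l 816) (T.l 816)) (T.l 816)) (T.l 1))) (T.l 1)) (T.l 1))), by decide +kernel⟩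

def B012R_103 :
    ∃ t, chk3 (onCell 0 67108864 0 1073741824 67108864 67108864 (corTK [] false 3 c0N cB012R gN1q0 gN0q2 gN3q1 gN4q1 true true)) t 1 1 1 = true :=
  ⟨(T.b (T.b (T.l 2) (T.b (T.b (T.a (T.l 2) (T.l 816)) (T.a (T.a (T.a (T.l 2) (T.l 816)) (T.l 816)) (T.l 816))) (T.a (T.a (T.a (T.l 816) (T.l 816)) (T.l 816)) (T.b (T.l 816) (T.l 816))))) (T.b (T.b (T.a (T.b (T.a (T.a (T.l 816) (T.l 816)) (T.l 816)) (T.l 1)) (T.l 1)) (T.l 1)) (T.l 1))), by decide +kernel⟩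

def B012R_111 :
    ∃ t, chk3 (onCell 0 67108864 0 1073741824 67108864 67108864 (corTK [] false 3 c0N cB012R gN1q0 gN1q2 gN1q1 gN2q1 false true)) t 1 1 1 = true :=
  ⟨(T.l 2), by decide +kernel⟩

def B012R_112 :
    ∃ t, chk3 (onCell 0 67108864 0 1073741824 67108864 67108864 (corTK [] false 3 c0N cB012R gN1q0 gN1q2 gN2q1 gN3q1 true true)) t 1 1 1 = true :=
  ⟨(T.l 2), by decide +kernel⟩

def B012R_113 :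
    ∃ t, chk3 (onCell 0 67108864 0 1073741824 67108864 67108864 (corTK [] false 3 c0N cB012R gN1q0 gN1q2 gN3q1 gN4q1 true true)) t 1 1 1 = true :=
  ⟨(T.l 2), by decide +kernel⟩

def B012R_121 :
    ∃ t, chk3 (onCell 0 67108864 0 1073741824 67108864 67108864 (corTK [] false 3 c0N cB012R gN1q0 gN2q2 gN1q1 gN2q1 false true)) t 1 1 1 = true :=
  ⟨(T.l 2), by decide +kernel⟩

def B012R_122 :
    ∃ t, chk3 (onCell 0 67108864 0 1073741824 67108864 67108864 (corTK [] false 3 c0N cB012R gN1q0 gN2q2 gN2q1 gN3q1 true true)) t 1 1 1 = true :=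
  ⟨(T.l 2), by decide +kernel⟩

def B012R_123 :
    ∃ t, chk3 (onCell 0 67108864 0 1073741824 67108864 67108864 (corTK [] false 3 c0N cB012R gN1q0 gN2q2 gN3q1 gN4q1 true true)) t 1 1 1 = true :=
  ⟨(T.l 2), by decide +kernel⟩

def B012R_201 :
    ∃ t, chk3 (onCell 0 67108864 0 1073741824 67108864 67108864 (corTK [] false 3 c0N cB012R gN2q0 gN0q2 gN1q1 gN2q1 false true)) t 1 1 1 = true :=
  ⟨(T.b (T.l 2) (T.b (T.l 2) (T.b (T.a (T.l 2) (T.b (T.l 816) (T.l 816))) (T.a (T.a (T.a (T.l 816) (T.l 816)) (T.l 816)) (T.l 816))))), by decide +kernel⟩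

def B012R_202 :
    ∃ t, chk3 (onCell 0 67108864 0 1073741824 67108864 67108864 (corTK [] false 3 c0N cB012R gN2q0 gN0q2 gN2q1 gN3q1 true true)) t 1 1 1 = true :=
  ⟨(T.b (T.l 2) (T.b (T.l 2) (T.b (T.a (T.a (T.l 2) (T.l 816)) (T.a (T.l 816) (T.l 816))) (T.a (T.a (T.a (T.l 816) (T.l 816)) (T.l 816)) (T.l 816))))), by decide +kernel⟩

def B012R_203 :
    ∃ t, chk3 (onCell 0 67108864 0 1073741824 67108864 67108864 (corTK [] false 3 c0N cB012R gN2q0 gN0q2 gN3q1 gN4q1 true true)) t 1 1 1 = true :=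
  ⟨(T.b (T.l 2) (T.b (T.a (T.l 2) (T.b (T.l 2) (T.b (T.l 2) (T.l 816)))) (T.a (T.a (T.a (T.l 816) (T.l 816)) (T.b (T.l 816) (T.l 816))) (T.a (T.l 816) (T.b (T.l 816) (T.l 1)))))), by decide +kernel⟩

def B012R_211 :
    ∃ t, chk3 (onCell 0 67108864 0 1073741824 67108864 67108864 (corTK [] false 3 c0N cB012R gN2q0 gN1q2 gN1q1 gN2q1 false true)) t 1 1 1 = true :=
  ⟨(T.l 2), by decide +kernel⟩

def B012R_212 :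
    ∃ t, chk3 (onCell 0 67108864 0 1073741824 67108864 67108864 (corTK [] false 3 c0N cB012R gN2q0 gN1q2 gN2q1 gN3q1 true true)) t 1 1 1 = true :=
  ⟨(T.l 2), by decide +kernel⟩

def B012R_213 :
    ∃ t, chk3 (onCell 0 67108864 0 1073741824 67108864 67108864 (corTK [] false 3 c0N cB012R gN2q0 gN1q2 gN3q1 gN4q1 true true)) t 1 1 1 = true :=
  ⟨(T.l 2), by decide +kernel⟩

def B012R_221 :
    ∃ t, chk3 (onCell 0 67108864 0 1073741824 67108864 67108864 (corTK [] false 3 c0N cB012R gN2q0 gN2q2 gN1q1 gN2q1 false true)) t 1 1 1 = true :=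
  ⟨(T.l 2), by decide +kernel⟩

def B012R_222 :
    ∃ t, chk3 (onCell 0 67108864 0 1073741824 67108864 67108864 (corTK [] false 3 c0N cB012R gN2q0 gN2q2 gN2q1 gN3q1 true true)) t 1 1 1 = true :=
  ⟨(T.l 2), by decide +kernel⟩

def B012R_223 :
    ∃ t, chk3 (onCell 0 67108864 0 1073741824 67108864 67108864 (corTK [] false 3 c0N cB012R gN2q0 gN2q2 gN3q1 gN4q1 true true)) t 1 1 1 = true :=
  ⟨(T.l 2), by decide +kernel⟩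

def B022E_000 :
    ∃ t, chk3 (onCell 0 67108864 0 1073741824 67108864 67108864 (corTK [] false 3 c0N cB022E gN0q0 gN0q2 gN0q2 gN1q2 true true)) t 1 1 1 = true :=
  ⟨(T.l 2), by decide +kernel⟩

def B022E_001 :
    ∃ t, chk3 (onCell 0 67108864 0 1073741824 67108864 67108864 (corTK [] false 3 c0N cB022E gN0q0 gN0q2 gN1q2 gN2q2 true true)) t 1 1 1 = true :=
  ⟨(T.l 2), by decide +kernel⟩

def B022E_002 :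
    ∃ t, chk3 (onCell 0 67108864 0 1073741824 67108864 67108864 (corTK [] false 3 c0N cB022E gN0q0 gN0q2 gN2q2 gN3q2 true false)) t 1 1 1 = true :=
  ⟨(T.a (T.a (T.a (T.b (T.b (T.l 0) (T.l 0)) (T.b (T.l 816) (T.b (T.b (T.l 816) (T.l 816)) (T.b (T.b (T.l 816) (T.l 816)) (T.c (T.b (T.l 816) (T.c (T.a (T.l 816) (T.l 816)) (T.l 816))) (T.b (T.l 816) (T.l 816))))))) (T.b (T.a (T.c (T.l 0) (T.l 0)) (T.b (T.b (T.l 204) (T.l 0)) (T.l 0))) (T.a (T.b (T.c (T.l 0) (T.l 0)) (T.a (T.b (T.l 816) (T.b (T.l 816) (T.b (T.l 816) (T.l 816)))) (T.b (T.l 816) (T.c (T.c (T.l 816) (T.l 816)) (T.b (T.l 816) (T.l 816)))))) (T.b (T.b (T.l 0) (T.l 816)) (T.b (T.c (T.l 816) (T.l 816)) (T.c (T.b (T.l 816) (T.a (T.l 816) (T.l 816))) (T.a (T.l 816) (T.l 816)))))))) (T.b (T.a (T.b (T.a (T.b (T.l 204) (T.l 0)) (T.b (T.l 204) (T.l 204)))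 (T.a (T.l 0) (T.l 0))) (T.b (T.c (T.l 204) (T.l 204)) (T.b (T.l 0) (T.l 0)))) (T.b (T.a (T.a (T.l 0) (T.l 0)) (T.b (T.b (T.l 0) (T.l 0)) (T.a (T.b (T.l 816) (T.l 816)) (T.l 0)))) (T.a (T.a (T.b (T.l 880) (T.c (T.b (T.l 816) (T.l 880)) (T.b (T.l 816) (T.l 816)))) (T.b (T.c (T.b (T.l 816) (T.l 816)) (T.l 816)) (T.b (T.c (T.l 880) (T.l 816)) (T.c (T.a (T.l 816) (T.l 816)) (T.c (T.l 880) (T.l 816)))))) (T.b (T.a (T.b (T.l 816) (T.l 880)) (T.b (T.l 816) (T.l 816))) (T.a (T.b (T.c (T.l 816) (T.l 816)) (T.c (T.b (T.l 816) (T.l 816)) (T.b (T.l 816) (T.l 816)))) (T.b (T.b (T.l 816) (T.l 816)) (T.c (T.l 816) (T.l 816))))))))) (T.a (T.b (T.a (T.b (T.b (T.l 204) (T.l 204)) (T.b (T.l 204) (T.l 0))) (T.b (T.b (T.a (T.l 204) (T.b (T.b (T.l 204) (T.l 204)) (T.l 204))) (T.l 204)) (T.b (T.l 204) (T.l 64)))) (T.b (T.a (T.b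 (T.b (T.l 0) (T.l 0)) (T.b (T.l 0) (T.l 64))) (T.b (T.b (T.l 0) (T.l 0)) (T.b (T.l 0) (T.l 0)))) (T.a (T.b (T.a (T.b (T.l 816) (T.l 816)) (T.l 880)) (T.a (T.b (T.l 816) (T.b (T.l 816) (T.l 816))) (T.c (T.l 880) (T.l 880)))) (T.b (T.b (T.l 816) (T.l 880)) (T.a (T.b (T.l 816) (T.b (T.l 816) (T.l 816))) (T.b (T.l 816) (T.l 816))))))) (T.b (T.b (T.b (T.a (T.a (T.b (T.b (T.l 204) (T.l 204)) (T.b (T.l 204) (T.l 204))) (T.b (T.l 204) (T.l 460))) (T.b (T.a (T.l 204) (T.l 204)) (T.a (T.l 204) (T.l 204)))) (T.a (T.b (T.a (T.l 204) (T.l 460)) (T.l 204)) (T.b (T.a (T.l 204) (T.l 204)) (T.a (T.l 460) (T.l 204))))) (T.b (T.a (T.l 256) (T.b (T.a (T.l 204) (T.l 460)) (T.l 204))) (T.a (T.l 0) (T.l 0)))) (T.b (T.b (T.a (T.l 0) (T.l 0)) (T.a (T.b (T.l 0) (T.l 0)) (T.b (T.l 0) (T.l 0)))) (T.b (T.a (T.b (T.l 816) (T.l 816))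 (T.b (T.l 0) (T.l 816))) (T.a (T.b (T.b (T.l 816) (T.l 816)) (T.c (T.l 816) (T.l 816))) (T.b (T.l 816) (T.l 880)))))))), by decide +kernel⟩

def B022E_010 :
    ∃ t, chk3 (onCell 0 67108864 0 1073741824 67108864 67108864 (corTK [] false 3 c0N cB022E gN0q0 gN1q2 gN0q2 gN1q2 true true)) t 1 1 1 = true :=
  ⟨(T.l 2), by decide +kernel⟩

def B022E_011 :
    ∃ t, chk3 (onCell 0 67108864 0 1073741824 67108864 67108864 (corTK [] false 3 c0N cB022E gN0q0 gN1q2 gN1q2 gN2q2 true true)) t 1 1 1 = true :=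
  ⟨(T.l 2), by decide +kernel⟩

def B022E_012 :
    ∃ t, chk3 (onCell 0 67108864 0 1073741824 67108864 67108864 (corTK [] false 3 c0N cB022E gN0q0 gN1q2 gN2q2 gN3q2 true false)) t 1 1 1 = true :=
  ⟨(T.a (T.a (T.a (T.b (T.b (T.l 0) (T.l 0)) (T.b (T.l 816) (T.b (T.l 816) (T.b (T.l 816) (T.l 816))))) (T.b (T.a (T.l 0) (T.b (T.b (T.l 204) (T.l 0)) (T.l 0))) (T.a (T.b (T.l 816) (T.b (T.l 816) (T.b (T.l 816) (T.l 816)))) (T.b (T.l 816) (T.b (T.l 816) (T.c (T.b (T.l 816) (T.l 816)) (T.l 816))))))) (T.b (T.b (T.a (T.a (T.b (T.l 204) (T.l 0)) (T.b (T.l 204) (T.l 204))) (T.b (T.l 204) (T.l 0))) (T.a (T.a (T.l 0) (T.l 0)) (T.b (T.l 0) (T.l 0)))) (T.b (T.a (T.b (T.l 0) (T.l 816)) (T.b (T.l 816) (T.a (T.l 816) (T.l 816)))) (T.a (T.a (T.b (T.l 816) (T.c (T.l 816) (T.l 816))) (T.b (T.b (T.l 816) (T.l 816)) (T.b (T.b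 (T.l 816) (T.l 816)) (T.c (T.b (T.l 816) (T.l 816)) (T.l 816))))) (T.b (T.a (T.b (T.l 816) (T.l 816)) (T.b (T.l 816) (T.l 816))) (T.a (T.b (T.b (T.l 816) (T.l 816)) (T.c (T.b (T.l 816) (T.l 816)) (T.l 816))) (T.b (T.l 880) (T.c (T.l 816) (T.l 816))))))))) (T.b (T.a (T.a (T.b (T.b (T.l 204) (T.l 204)) (T.l 20)) (T.b (T.b (T.a (T.l 204) (T.b (T.b (T.l 204) (T.l 204)) (T.l 204))) (T.l 204)) (T.b (T.l 0) (T.l 4)))) (T.b (T.b (T.a (T.b (T.a (T.b (T.l 204) (T.l 204)) (T.l 204)) (T.a (T.b (T.l 204) (T.l 204)) (T.l 16))) (T.b (T.b (T.l 204) (T.l 204)) (T.b (T.l 0) (T.l 0)))) (T.a (T.b (T.a (T.l 204) (T.l 16)) (T.l 204)) (T.b (T.b (T.l 20) (T.l 20)) (T.a (T.l 0) (T.l 0))))) (T.b (T.a (T.l 0) (T.b (T.a (T.l 204) (T.l 0)) (T.l 0))) (T.b (T.l 0) (T.l 0))))) (T.b (T.a (T.b (T.a (T.b (T.l 0) (T.l 816)) (T.b (T.l 0)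 (T.l 816))) (T.a (T.b (T.l 816) (T.l 816)) (T.b (T.l 816) (T.l 816)))) (T.b (T.b (T.l 0) (T.l 4)) (T.a (T.b (T.l 816) (T.l 816)) (T.b (T.l 816) (T.l 816))))) (T.b (T.a (T.a (T.b (T.l 816) (T.b (T.l 816) (T.l 816))) (T.b (T.l 816) (T.l 816))) (T.a (T.b (T.l 816) (T.l 880)) (T.b (T.l 816) (T.l 816)))) (T.a (T.a (T.b (T.c (T.l 880) (T.l 816)) (T.a (T.c (T.l 816) (T.l 816)) (T.b (T.l 816) (T.l 816)))) (T.b (T.c (T.l 880) (T.l 816)) (T.a (T.c (T.l 816) (T.l 816)) (T.b (T.l 816) (T.l 880))))) (T.a (T.b (T.b (T.l 816) (T.l 816)) (T.a (T.b (T.l 816) (T.l 816)) (T.b (T.l 816) (T.l 816)))) (T.b (T.l 880) (T.c (T.l 880) (T.l 816))))))))), by decide +kernel⟩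

def B022E_020 :
    ∃ t, chk3 (onCell 0 67108864 0 1073741824 67108864 67108864 (corTK [[⟨0, 0, 1, 33554432⟩, ⟨1, 1, 0, 16777216⟩, ⟨2, 1, 1, 33554432⟩, ⟨0, 0, 0, 150994944⟩, ⟨0, 1, 0, 1023410176⟩, ⟨2, 1, 0, 150994944⟩, ⟨2, 2, 0, 1023410176⟩]] false 3 c0N cB022E gN0q0 gN2q2 gN0q2 gN1q2 true true)) t 1 1 1 = true :=
  ⟨(T.b (T.l 2) (T.b (T.l 2) (T.b (T.l 2) (T.b (T.l 2) (T.b (T.l 2) (T.b (T.l 2) (T.b (T.l 2) (T.b (T.l 2) (T.a (T.c (T.b (T.l 2) (T.a (T.a (T.l 816) (T.a (T.l 816) (T.l 816))) (T.c (T.b (T.l 2) (T.a (T.a (T.l 816) (T.c (T.l 816) (T.l 816))) (T.c (T.a (T.l 816) (T.l 880)) (T.a (T.l 816) (T.l 816))))) (T.b (T.l 2) (T.a (T.a (T.l 816) (T.l 816)) (T.a (T.l 816) (T.l 816))))))) (T.b (T.l 2) (T.a (T.a (T.l 816) (T.a (T.l 816) (T.l 816))) (T.c (T.b (T.l 2) (T.a (T.a (T.l 816) (T.l 816)) (T.a (T.l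 816) (T.l 816)))) (T.b (T.l 2) (T.a (T.a (T.l 816) (T.l 816)) (T.a (T.l 816) (T.l 816)))))))) (T.c (T.b (T.l 2) (T.a (T.c (T.b (T.l 2) (T.a (T.c (T.b (T.l 2) (T.a (T.a (T.l 816) (T.l 880)) (T.a (T.l 884) (T.l 884)))) (T.a (T.l 884) (T.a (T.l 816) (T.l 884)))) (T.c (T.b (T.l 2) (T.a (T.a (T.l 884) (T.c (T.l 884) (T.l 884))) (T.c (T.b (T.l 2) (T.a (T.a (T.l 884) (T.l 884)) (T.a (T.l 884) (T.a (T.l 884) (T.l 884))))) (T.a (T.l 884) (T.a (T.l 884) (T.c (T.l 884) (T.l 884))))))) (T.b (T.l 2) (T.a (T.a (T.l 884) (T.l 884)) (T.c (T.a (T.l 884) (T.a (T.l 884) (T.l 884))) (T.a (T.l 884) (T.a (T.l 884) (T.l 884))))))))) (T.b (T.l 2) (T.a (T.a (T.l 884) (T.c (T.l 884) (T.l 884))) (T.c (T.b (T.l 2) (T.a (T.a (T.l 884) (T.l 884)) (T.a (T.l 884) (T.a (T.l 884) (T.l 884))))) (T.b (T.l 2) (T.a (T.a (T.l 816) (T.l 884))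 (T.a (T.l 884) (T.a (T.l 884) (T.l 884))))))))) (T.c (T.a (T.a (T.a (T.a (T.b (T.l 2) (T.a (T.c (T.c (T.l 884) (T.l 884)) (T.l 884)) (T.l 1024))) (T.l 1024)) (T.l 1024)) (T.l 1024)) (T.l 1024)) (T.b (T.l 2) (T.a (T.c (T.b (T.l 2) (T.a (T.c (T.b (T.l 2) (T.a (T.a (T.l 884) (T.l 884)) (T.a (T.l 884) (T.l 884)))) (T.b (T.l 2) (T.a (T.a (T.l 884) (T.l 884)) (T.a (T.l 884) (T.l 884))))) (T.c (T.a (T.a (T.l 884) (T.l 1024)) (T.l 1024)) (T.b (T.l 2) (T.a (T.a (T.l 884) (T.l 884)) (T.a (T.l 884) (T.l 884))))))) (T.b (T.l 2) (T.a (T.c (T.b (T.l 2) (T.a (T.a (T.l 884) (T.l 884)) (T.a (T.l 884) (T.l 884)))) (T.a (T.a (T.l 884) (T.l 884)) (T.l 884))) (T.c (T.b (T.l 2) (T.a (T.a (T.l 884) (T.l 884)) (T.a (T.l 884) (T.l 884)))) (T.a (T.l 884) (T.l 884)))))) (T.c (T.a (T.a (T.a (T.l 884) (T.l 1024)) (T.l 1024)) (T.l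 1024)) (T.b (T.l 2) (T.a (T.c (T.b (T.l 2) (T.a (T.a (T.l 884) (T.l 884)) (T.a (T.l 884) (T.l 884)))) (T.a (T.l 884) (T.l 884))) (T.c (T.a (T.a (T.l 884) (T.l 1024)) (T.l 1024)) (T.a (T.l 884) (T.l 884))))))))))) (T.b (T.l 2) (T.a (T.c (T.b (T.l 2) (T.a (T.a (T.l 816) (T.l 884)) (T.c (T.a (T.l 884) (T.a (T.l 884) (T.a (T.l 884) (T.l 884)))) (T.a (T.l 884) (T.a (T.l 880) (T.c (T.l 884) (T.l 884))))))) (T.b (T.l 2) (T.a (T.a (T.l 816) (T.l 816)) (T.a (T.l 884) (T.a (T.l 816) (T.c (T.l 884) (T.l 884))))))) (T.c (T.b (T.l 2) (T.a (T.c (T.b (T.l 2) (T.a (T.a (T.a (T.l 884) (T.l 884)) (T.l 884)) (T.a (T.l 884) (T.l 884)))) (T.b (T.l 2) (T.a (T.a (T.l 884) (T.l 884)) (T.a (T.l 884) (T.l 884))))) (T.c (T.b (T.l 2) (T.a (T.a (T.l 884) (T.l 884)) (T.c (T.a (T.l 884) (T.l 884)) (T.a (T.l 884) (T.l 884))))) (T.b (T.l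 2) (T.a (T.a (T.l 884) (T.l 884)) (T.a (T.l 884) (T.l 884))))))) (T.b (T.l 2) (T.a (T.c (T.b (T.l 2) (T.a (T.a (T.l 884) (T.l 884)) (T.a (T.l 884) (T.l 884)))) (T.b (T.l 2) (T.a (T.a (T.l 884) (T.l 884)) (T.a (T.l 884) (T.l 884))))) (T.c (T.b (T.l 2) (T.a (T.a (T.l 884) (T.l 884)) (T.a (T.l 884) (T.l 884)))) (T.b (T.l 2) (T.a (T.a (T.l 884) (T.l 884)) (T.a (T.l 884) (T.l 884)))))))))))))))))))), by decide +kernel⟩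

def B022E_021 :
    ∃ t, chk3 (onCell 0 67108864 0 1073741824 67108864 67108864 (corTK [[⟨0, 0, 1, 33554432⟩, ⟨1, 1, 0, 16777216⟩, ⟨2, 1, 1, 33554432⟩, ⟨0, 0, 0, 150994944⟩, ⟨0, 1, 0, 1023410176⟩, ⟨2, 1, 0, 150994944⟩, ⟨2, 2, 0, 1023410176⟩]] false 3 c0N cB022E gN0q0 gN2q2 gN1q2 gN2q2 true true)) t 1 1 1 = true :=
  ⟨(T.b (T.a (T.a (T.a (T.b (T.l 0) (T.l 816)) (T.l 2)) (T.l 2)) (T.l 2)) (T.b (T.a (T.a (T.a (T.l 816) (T.l 2)) (T.l 2)) (T.l 2)) (T.b (T.a (T.a (T.a (T.l 816) (T.l 2)) (T.l 2)) (T.l 2)) (T.b (T.a (T.a (T.a (T.l 816) (T.l 2)) (T.l 2)) (T.l 2)) (T.a (T.b (T.a (T.a (T.l 816) (T.l 2)) (T.l 2)) (T.a (T.a (T.l 816) (T.b (T.l 2) (T.b (T.l 2) (T.a (T.l 816) (T.c (T.l 880) (T.l 816)))))) (T.b (T.l 2) (T.b (T.l 2) (T.b (T.l 2) (T.c (T.b (T.l 2) (T.c (T.b (T.l 2) (T.a (T.a (T.l 816) (T.c (T.l 816) (T.l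 816))) (T.c (T.a (T.l 816) (T.l 880)) (T.a (T.l 816) (T.l 816))))) (T.b (T.l 2) (T.a (T.a (T.l 816) (T.l 816)) (T.a (T.l 816) (T.l 816)))))) (T.b (T.l 2) (T.c (T.b (T.l 2) (T.a (T.a (T.l 816) (T.l 816)) (T.a (T.l 816) (T.l 816)))) (T.b (T.l 2) (T.a (T.a (T.l 816) (T.l 816)) (T.a (T.l 816) (T.l 816)))))))))))) (T.b (T.l 2) (T.b (T.l 2) (T.b (T.l 2) (T.b (T.l 2) (T.c (T.b (T.l 2) (T.a (T.c (T.b (T.l 2) (T.a (T.c (T.b (T.l 2) (T.a (T.a (T.l 816) (T.l 880)) (T.a (T.l 884) (T.l 884)))) (T.a (T.l 884) (T.a (T.l 816) (T.l 884)))) (T.c (T.b (T.l 2) (T.a (T.a (T.l 884) (T.c (T.l 884) (T.l 884))) (T.c (T.b (T.l 2) (T.a (T.a (T.l 884) (T.l 884)) (T.a (T.l 884) (T.a (T.l 884) (T.l 884))))) (T.a (T.l 884) (T.a (T.l 884) (T.c (T.l 884) (T.l 884))))))) (T.b (T.l 2) (T.a (T.a (T.l 884) (T.l 884)) (T.c (T.a (T.l 884) (T.a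 (T.l 884) (T.l 884))) (T.a (T.l 884) (T.a (T.l 884) (T.l 884))))))))) (T.b (T.l 2) (T.a (T.a (T.l 884) (T.c (T.l 884) (T.l 884))) (T.c (T.b (T.l 2) (T.a (T.a (T.l 884) (T.l 884)) (T.a (T.l 884) (T.a (T.l 884) (T.l 884))))) (T.b (T.l 2) (T.a (T.a (T.l 816) (T.l 884)) (T.a (T.l 884) (T.a (T.l 884) (T.l 884))))))))) (T.c (T.a (T.a (T.a (T.a (T.b (T.l 2) (T.a (T.c (T.c (T.l 884) (T.l 884)) (T.l 884)) (T.l 1024))) (T.l 1024)) (T.l 1024)) (T.l 1024)) (T.l 1024)) (T.b (T.l 2) (T.a (T.c (T.b (T.l 2) (T.a (T.c (T.b (T.l 2) (T.a (T.a (T.l 884) (T.l 884)) (T.a (T.l 884) (T.l 884)))) (T.b (T.l 2) (T.a (T.a (T.l 884) (T.l 884)) (T.a (T.l 884) (T.l 884))))) (T.c (T.a (T.a (T.l 884) (T.l 1024)) (T.l 1024)) (T.b (T.l 2) (T.a (T.a (T.l 884) (T.l 884)) (T.a (T.l 884) (T.l 884))))))) (T.b (T.l 2) (T.a (T.c (T.b (T.l 2) (T.a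 (T.a (T.l 884) (T.l 884)) (T.a (T.l 884) (T.l 884)))) (T.a (T.a (T.l 884) (T.l 884)) (T.l 884))) (T.c (T.b (T.l 2) (T.a (T.a (T.l 884) (T.l 884)) (T.a (T.l 884) (T.l 884)))) (T.a (T.l 884) (T.l 884)))))) (T.c (T.a (T.a (T.a (T.l 884) (T.l 1024)) (T.l 1024)) (T.l 1024)) (T.b (T.l 2) (T.a (T.c (T.b (T.l 2) (T.a (T.a (T.l 884) (T.l 884)) (T.a (T.l 884) (T.l 884)))) (T.a (T.l 884) (T.l 884))) (T.c (T.a (T.a (T.l 884) (T.l 1024)) (T.l 1024)) (T.a (T.l 884) (T.l 884))))))))))) (T.b (T.l 2) (T.a (T.c (T.b (T.l 2) (T.a (T.a (T.l 816) (T.l 884)) (T.c (T.a (T.l 884) (T.a (T.l 884) (T.a (T.l 884) (T.l 884)))) (T.a (T.l 884) (T.a (T.l 880) (T.c (T.l 884) (T.l 884))))))) (T.b (T.l 2) (T.a (T.a (T.l 816) (T.l 816)) (T.a (T.l 884) (T.a (T.l 816) (T.c (T.l 884) (T.l 884))))))) (T.c (T.b (T.l 2) (T.a (T.c (T.b (T.l 2)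 (T.a (T.a (T.a (T.l 884) (T.l 884)) (T.l 884)) (T.a (T.l 884) (T.l 884)))) (T.b (T.l 2) (T.a (T.a (T.l 884) (T.l 884)) (T.a (T.l 884) (T.l 884))))) (T.c (T.b (T.l 2) (T.a (T.a (T.l 884) (T.l 884)) (T.c (T.a (T.l 884) (T.l 884)) (T.a (T.l 884) (T.l 884))))) (T.b (T.l 2) (T.a (T.a (T.l 884) (T.l 884)) (T.a (T.l 884) (T.l 884))))))) (T.b (T.l 2) (T.a (T.c (T.b (T.l 2) (T.a (T.a (T.l 884) (T.l 884)) (T.a (T.l 884) (T.l 884)))) (T.b (T.l 2) (T.a (T.a (T.l 884) (T.l 884)) (T.a (T.l 884) (T.l 884))))) (T.c (T.b (T.l 2) (T.a (T.a (T.l 884) (T.l 884)) (T.a (T.l 884) (T.l 884)))) (T.b (T.l 2) (T.a (T.a (T.l 884) (T.l 884)) (T.a (T.l 884) (T.l 884)))))))))))))))))))), by decide +kernel⟩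

def B022E_022_1_2_1 :
    ∃ t, chk3 (onCell 0 67108864 0 1073741824 67108864 67108864 (corTK [[⟨0, 0, 1, 33554432⟩, ⟨1, 1, 0, 16777216⟩, ⟨2, 1, 1, 33554432⟩, ⟨0, 0, 0, 150994944⟩, ⟨0, 1, 0, 1023410176⟩, ⟨2, 1, 0, 150994944⟩, ⟨2, 2, 0, 1023410176⟩]] false 3 c0N cB022E gN0q0 gN2q2 gN2q2 gN3q2 true false)) t 1 2 1 = true :=
  ⟨(T.a (T.b (T.a (T.a (T.l 0) (T.a (T.l 0) (T.b (T.l 0) (T.l 0)))) (T.a (T.b (T.b (T.l 204) (T.l 0)) (T.l 4)) (T.b (T.l 0) (T.l 0)))) (T.a (T.a (T.l 816) (T.c (T.l 816) (T.l 816))) (T.a (T.b (T.b (T.l 816) (T.l 816)) (T.l 816)) (T.b (T.l 816) (T.l 816))))) (T.b (T.a (T.a (T.b (T.l 0) (T.l 0)) (T.a (T.l 0) (T.b (T.b (T.a (T.l 204) (T.l 0)) (T.l 0)) (T.l 0)))) (T.b (T.a (T.a (T.b (T.b (T.l 0) (T.l 4)) (T.b (T.l 4) (T.l 0))) (T.b (T.b (T.l 0) (T.l 0)) (T.b (T.l 0) (T.l 0)))) (T.a (T.b (T.b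 (T.l 0) (T.l 0)) (T.l 20)) (T.b (T.l 0) (T.l 4)))) (T.a (T.a (T.l 0) (T.b (T.b (T.l 0) (T.l 0)) (T.l 0))) (T.b (T.a (T.b (T.l 0) (T.l 0)) (T.l 4)) (T.a (T.b (T.l 0) (T.l 0)) (T.l 20)))))) (T.a (T.a (T.b (T.l 816) (T.l 816)) (T.b (T.a (T.l 816) (T.l 0)) (T.a (T.l 820) (T.b (T.l 816) (T.l 816))))) (T.b (T.a (T.a (T.l 0) (T.l 4)) (T.b (T.a (T.l 816) (T.b (T.l 0) (T.l 816))) (T.l 4))) (T.a (T.a (T.l 820) (T.l 820)) (T.b (T.l 4) (T.l 4))))))), by decide +kernel⟩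

def B022E_022_1_6_1 :
    ∃ t, chk3 (onCell 0 67108864 0 1073741824 67108864 67108864 (corTK [[⟨0, 0, 1, 33554432⟩, ⟨1, 1, 0, 16777216⟩, ⟨2, 1, 1, 33554432⟩, ⟨0, 0, 0, 150994944⟩, ⟨0, 1, 0, 1023410176⟩, ⟨2, 1, 0, 150994944⟩, ⟨2, 2, 0, 1023410176⟩]] false 3 c0N cB022E gN0q0 gN2q2 gN2q2 gN3q2 true false)) t 1 6 1 = true :=
  ⟨(T.a (T.a (T.a (T.l 816) (T.a (T.l 816) (T.b (T.l 816) (T.l 816)))) (T.a (T.b (T.l 816) (T.l 820)) (T.b (T.b (T.l 816) (T.l 816)) (T.b (T.b (T.l 820) (T.l 820)) (T.c (T.l 820) (T.l 816)))))) (T.b (T.a (T.a (T.b (T.l 820) (T.b (T.l 816) (T.l 816))) (T.a (T.l 820) (T.b (T.l 816) (T.l 820)))) (T.a (T.a (T.b (T.l 816) (T.l 816)) (T.l 820)) (T.c (T.l 4) (T.l 4)))) (T.a (T.a (T.b (T.l 820) (T.b (T.l 816) (T.l 820))) (T.a (T.b (T.l 816) (T.l 816)) (T.b (T.l 820) (T.l 820)))) (T.a (T.a (T.b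 (T.l 820) (T.l 820)) (T.b (T.l 816) (T.l 820))) (T.b (T.c (T.l 820) (T.l 816)) (T.c (T.l 820) (T.l 820))))))), by decide +kernel⟩

def B022E_022_1_14_1 :
    ∃ t, chk3 (onCell 0 67108864 0 1073741824 67108864 67108864 (corTK [[⟨0, 0, 1, 33554432⟩, ⟨1, 1, 0, 16777216⟩, ⟨2, 1, 1, 33554432⟩, ⟨0, 0, 0, 150994944⟩, ⟨0, 1, 0, 1023410176⟩, ⟨2, 1, 0, 150994944⟩, ⟨2, 2, 0, 1023410176⟩]] false 3 c0N cB022E gN0q0 gN2q2 gN2q2 gN3q2 true false)) t 1 14 1 = true :=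
  ⟨(T.a (T.a (T.a (T.l 816) (T.a (T.l 816) (T.b (T.l 816) (T.l 816)))) (T.b (T.a (T.l 820) (T.a (T.b (T.l 816) (T.l 816)) (T.l 820))) (T.a (T.a (T.l 816) (T.c (T.l 820) (T.l 816))) (T.a (T.c (T.l 816) (T.l 816)) (T.b (T.l 816) (T.l 820)))))) (T.b (T.a (T.a (T.c (T.l 820) (T.l 816)) (T.a (T.l 820) (T.b (T.l 820) (T.l 820)))) (T.a (T.a (T.b (T.l 820) (T.l 820)) (T.l 820)) (T.a (T.l 820) (T.l 820)))) (T.a (T.a (T.a (T.b (T.l 816) (T.l 820)) (T.b (T.l 816) (T.l 820))) (T.a (T.b (T.l 816) (T.l 820)) (T.c (T.l 820) (T.l 820)))) (T.a (T.a (T.c (T.l 820) (T.l 820)) (T.c (T.l 820) (T.l 820))) (T.a (T.b (T.l 820) (T.l 820)) (T.b (T.l 820) (T.l 820))))))), by decide +kernel⟩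

def B022E_022_1_30_1 :
    ∃ t, chk3 (onCell 0 67108864 0 1073741824 67108864 67108864 (corTK [[⟨0, 0, 1, 33554432⟩, ⟨1, 1, 0, 16777216⟩, ⟨2, 1, 1, 33554432⟩, ⟨0, 0, 0, 150994944⟩, ⟨0, 1, 0, 1023410176⟩, ⟨2, 1, 0, 150994944⟩, ⟨2, 2, 0, 1023410176⟩]] false 3 c0N cB022E gN0q0 gN2q2 gN2q2 gN3q2 true false)) t 1 30 1 = true :=
  ⟨(T.a (T.a (T.a (T.l 816) (T.a (T.l 816) (T.b (T.l 816) (T.l 820)))) (T.b (T.a (T.a (T.l 816) (T.c (T.l 816) (T.l 816))) (T.a (T.c (T.l 816) (T.l 816)) (T.c (T.l 816) (T.l 816)))) (T.a (T.a (T.l 816) (T.c (T.l 820) (T.l 816))) (T.a (T.c (T.l 820) (T.l 816)) (T.c (T.l 816) (T.l 816)))))) (T.b (T.a (T.a (T.c (T.b (T.l 820) (T.l 820)) (T.l 820)) (T.a (T.l 820) (T.a (T.l 820) (T.l 820)))) (T.a (T.a (T.c (T.l 820) (T.l 820)) (T.c (T.l 820) (T.l 816))) (T.a (T.c (T.l 820) (T.l 816)) (T.c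 (T.l 820) (T.l 816))))) (T.a (T.b (T.a (T.c (T.c (T.l 820) (T.l 816)) (T.l 820)) (T.a (T.l 820) (T.a (T.l 820) (T.l 820)))) (T.a (T.c (T.c (T.l 820) (T.l 820)) (T.c (T.l 820) (T.l 816))) (T.a (T.c (T.l 816) (T.l 816)) (T.a (T.l 820) (T.c (T.l 816) (T.l 816)))))) (T.b (T.a (T.a (T.c (T.l 820) (T.l 820)) (T.c (T.l 820) (T.l 816))) (T.a (T.c (T.l 820) (T.l 816)) (T.c (T.l 820) (T.l 816)))) (T.a (T.a (T.c (T.c (T.l 820) (T.l 820)) (T.c (T.l 820) (T.l 820))) (T.c (T.l 820) (T.l 820))) (T.a (T.c (T.l 820) (T.l 820)) (T.c (T.l 820) (T.l 816)))))))), by decide +kernel⟩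

def B022E_022_1_31_1 :
    ∃ t, chk3 (onCell 0 67108864 0 1073741824 67108864 67108864 (corTK [[⟨0, 0, 1, 33554432⟩, ⟨1, 1, 0, 16777216⟩, ⟨2, 1, 1, 33554432⟩, ⟨0, 0, 0, 150994944⟩, ⟨0, 1, 0, 1023410176⟩, ⟨2, 1, 0, 150994944⟩, ⟨2, 2, 0, 1023410176⟩]] false 3 c0N cB022E gN0q0 gN2q2 gN2q2 gN3q2 true false)) t 1 31 1 = true :=
  ⟨(T.a (T.b (T.a (T.a (T.l 816) (T.a (T.l 816) (T.c (T.l 816) (T.l 816)))) (T.b (T.a (T.a (T.l 816) (T.c (T.l 816) (T.l 816))) (T.a (T.c (T.l 816) (T.l 816)) (T.c (T.l 816) (T.l 816)))) (T.c (T.a (T.a (T.l 816) (T.l 820)) (T.a (T.l 820) (T.l 820))) (T.a (T.a (T.l 816) (T.l 816)) (T.a (T.l 816) (T.l 816)))))) (T.a (T.a (T.l 816) (T.a (T.l 816) (T.c (T.c (T.l 816) (T.l 816)) (T.l 816)))) (T.b (T.c (T.a (T.a (T.l 816) (T.c (T.l 816) (T.l 816))) (T.a (T.c (T.l 816) (T.l 816)) (T.c (T.l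 820) (T.l 816)))) (T.a (T.a (T.l 816) (T.l 816)) (T.a (T.l 816) (T.l 816)))) (T.c (T.a (T.a (T.l 880) (T.c (T.a (T.l 816) (T.l 816)) (T.b (T.l 816) (T.l 816)))) (T.b (T.a (T.c (T.l 816) (T.l 816)) (T.c (T.l 884) (T.l 816))) (T.c (T.a (T.c (T.l 880) (T.l 816)) (T.a (T.l 816) (T.l 880))) (T.a (T.l 816) (T.l 880))))) (T.a (T.a (T.l 816) (T.c (T.l 816) (T.l 816))) (T.a (T.c (T.l 816) (T.l 816)) (T.c (T.l 816) (T.l 816)))))))) (T.b (T.a (T.b (T.a (T.c (T.a (T.l 816) (T.l 820)) (T.c (T.l 820) (T.l 820))) (T.a (T.c (T.l 820) (T.l 816)) (T.a (T.c (T.l 816) (T.l 816)) (T.c (T.l 820) (T.l 816))))) (T.c (T.a (T.a (T.l 820) (T.l 820)) (T.a (T.l 820) (T.a (T.l 820) (T.l 884)))) (T.a (T.a (T.l 816) (T.l 816)) (T.a (T.l 816) (T.a (T.l 816) (T.l 820)))))) (T.b (T.a (T.a (T.c (T.c (T.l 820) (T.l 820)) (T.c (T.l 820) (T.l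 820))) (T.c (T.c (T.l 1024) (T.l 820)) (T.l 820))) (T.a (T.c (T.l 884) (T.l 820)) (T.c (T.l 820) (T.l 820)))) (T.c (T.a (T.a (T.a (T.l 884) (T.l 820)) (T.c (T.l 1024) (T.l 884))) (T.c (T.l 1024) (T.a (T.l 820) (T.l 820)))) (T.a (T.a (T.a (T.l 820) (T.l 820)) (T.c (T.l 820) (T.l 820))) (T.a (T.c (T.l 820) (T.l 820)) (T.c (T.l 820) (T.l 820))))))) (T.b (T.a (T.c (T.a (T.a (T.c (T.l 820) (T.l 816)) (T.c (T.l 884) (T.l 820))) (T.a (T.a (T.l 884) (T.c (T.l 820) (T.l 820))) (T.a (T.c (T.l 884) (T.l 820)) (T.c (T.b (T.l 820) (T.l 884)) (T.l 884))))) (T.a (T.a (T.l 820) (T.l 820)) (T.a (T.c (T.l 820) (T.l 816)) (T.a (T.l 820) (T.c (T.l 820) (T.l 820)))))) (T.c (T.b (T.a (T.a (T.a (T.c (T.l 820) (T.l 820)) (T.l 884)) (T.a (T.l 884) (T.l 884))) (T.c (T.l 1024) (T.a (T.l 884) (T.l 884)))) (T.a (T.a (T.a (T.c (T.l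 884) (T.l 884)) (T.c (T.l 1024) (T.l 820))) (T.c (T.l 1024) (T.a (T.l 820) (T.l 884)))) (T.c (T.l 1024) (T.a (T.c (T.l 884) (T.l 884)) (T.c (T.l 1024) (T.l 884)))))) (T.b (T.a (T.a (T.a (T.l 820) (T.l 820)) (T.c (T.l 884) (T.l 820))) (T.a (T.c (T.l 884) (T.l 820)) (T.c (T.l 820) (T.l 820)))) (T.a (T.a (T.a (T.c (T.l 820) (T.l 820)) (T.l 884)) (T.a (T.l 884) (T.l 884))) (T.a (T.a (T.l 884) (T.l 884)) (T.c (T.l 884) (T.l 884))))))) (T.a (T.c (T.b (T.a (T.a (T.c (T.l 884) (T.l 816)) (T.a (T.l 884) (T.l 884))) (T.c (T.a (T.a (T.l 884) (T.l 884)) (T.a (T.l 884) (T.a (T.l 884) (T.l 884)))) (T.a (T.c (T.l 884) (T.l 884)) (T.a (T.l 884) (T.c (T.l 884) (T.l 884)))))) (T.a (T.c (T.b (T.a (T.c (T.l 884) (T.l 816)) (T.c (T.l 884) (T.l 884))) (T.a (T.a (T.l 880) (T.l 884)) (T.a (T.l 884) (T.c (T.l 884) (T.l 884)))))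 (T.a (T.c (T.l 884) (T.l 816)) (T.a (T.l 880) (T.l 884)))) (T.c (T.b (T.a (T.a (T.l 884) (T.l 884)) (T.a (T.c (T.l 884) (T.l 884)) (T.a (T.l 884) (T.c (T.l 884) (T.l 884))))) (T.a (T.a (T.c (T.l 884) (T.l 884)) (T.c (T.a (T.l 884) (T.l 884)) (T.l 884))) (T.c (T.a (T.a (T.l 884) (T.c (T.l 884) (T.l 884))) (T.a (T.c (T.l 884) (T.l 884)) (T.b (T.l 884) (T.c (T.a (T.l 884) (T.l 884)) (T.a (T.l 884) (T.l 884)))))) (T.a (T.c (T.l 884) (T.l 884)) (T.a (T.l 884) (T.a (T.l 884) (T.l 884))))))) (T.b (T.a (T.c (T.l 884) (T.l 884)) (T.a (T.l 884) (T.a (T.l 884) (T.l 884)))) (T.a (T.a (T.l 884) (T.c (T.l 884) (T.l 884))) (T.c (T.a (T.l 884) (T.a (T.l 884) (T.l 884))) (T.a (T.l 884) (T.a (T.l 884) (T.l 884))))))))) (T.b (T.a (T.a (T.l 820) (T.l 884)) (T.a (T.c (T.l 884) (T.l 820)) (T.a (T.l 884) (T.a (T.l 884) (T.l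 884))))) (T.a (T.c (T.a (T.l 816) (T.l 884)) (T.a (T.l 816) (T.l 816))) (T.c (T.b (T.a (T.l 884) (T.a (T.l 884) (T.c (T.l 884) (T.l 884)))) (T.a (T.a (T.l 816) (T.l 884)) (T.a (T.l 884) (T.a (T.l 884) (T.l 884))))) (T.a (T.c (T.l 884) (T.l 880)) (T.a (T.l 880) (T.a (T.l 816) (T.l 884)))))))) (T.c (T.b (T.a (T.c (T.a (T.a (T.c (T.l 884) (T.l 884)) (T.l 1024)) (T.l 1024)) (T.a (T.a (T.c (T.l 884) (T.l 884)) (T.c (T.l 884) (T.l 884))) (T.a (T.l 884) (T.l 884)))) (T.c (T.l 1024) (T.a (T.a (T.l 884) (T.l 884)) (T.a (T.l 884) (T.l 884))))) (T.a (T.c (T.a (T.a (T.a (T.a (T.c (T.c (T.b (T.l 884) (T.l 884)) (T.l 884)) (T.l 884)) (T.l 1024)) (T.l 1024)) (T.l 1024)) (T.l 1024)) (T.b (T.a (T.a (T.a (T.l 884) (T.l 884)) (T.c (T.l 884) (T.l 884))) (T.a (T.c (T.l 884) (T.l 884)) (T.c (T.l 884) (T.l 884)))) (T.a (T.c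 (T.b (T.a (T.a (T.l 884) (T.l 884)) (T.c (T.l 884) (T.l 884))) (T.a (T.a (T.l 884) (T.l 884)) (T.a (T.l 884) (T.l 884)))) (T.a (T.a (T.l 884) (T.l 884)) (T.a (T.l 884) (T.l 884)))) (T.c (T.a (T.a (T.l 884) (T.l 884)) (T.a (T.l 884) (T.c (T.l 1024) (T.l 884)))) (T.a (T.a (T.l 884) (T.l 884)) (T.a (T.l 884) (T.l 884))))))) (T.c (T.l 1024) (T.b (T.a (T.a (T.c (T.l 884) (T.l 884)) (T.c (T.l 1024) (T.l 884))) (T.c (T.l 1024) (T.a (T.l 884) (T.l 884)))) (T.a (T.c (T.a (T.a (T.c (T.l 1024) (T.l 884)) (T.l 1024)) (T.l 1024)) (T.a (T.a (T.l 884) (T.l 884)) (T.a (T.l 884) (T.l 884)))) (T.c (T.l 1024) (T.a (T.a (T.l 884) (T.l 884)) (T.a (T.l 884) (T.l 884))))))))) (T.b (T.a (T.c (T.a (T.a (T.l 884) (T.l 884)) (T.a (T.l 884) (T.l 884))) (T.a (T.a (T.l 884) (T.l 820)) (T.a (T.l 820) (T.l 884)))) (T.c (T.a (T.a (T.l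 884) (T.l 884)) (T.a (T.l 884) (T.l 884))) (T.a (T.a (T.l 884) (T.l 884)) (T.a (T.l 884) (T.l 884))))) (T.a (T.c (T.b (T.a (T.a (T.c (T.l 884) (T.l 884)) (T.l 884)) (T.a (T.l 884) (T.l 884))) (T.a (T.c (T.a (T.a (T.l 884) (T.l 884)) (T.c (T.l 884) (T.l 884))) (T.a (T.c (T.l 884) (T.l 884)) (T.l 884))) (T.c (T.a (T.c (T.l 884) (T.l 884)) (T.c (T.l 884) (T.l 884))) (T.a (T.l 884) (T.l 884))))) (T.b (T.a (T.a (T.l 884) (T.l 884)) (T.a (T.l 884) (T.l 884))) (T.a (T.a (T.c (T.l 884) (T.l 884)) (T.l 884)) (T.a (T.l 884) (T.l 884))))) (T.c (T.b (T.a (T.a (T.l 884) (T.l 884)) (T.a (T.l 884) (T.l 884))) (T.a (T.a (T.a (T.l 884) (T.l 884)) (T.a (T.l 884) (T.l 884))) (T.a (T.a (T.l 884) (T.l 884)) (T.a (T.l 884) (T.l 884))))) (T.b (T.a (T.a (T.l 884) (T.l 884)) (T.a (T.l 884) (T.l 884))) (T.a (T.a (T.l 884) (T.l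 884)) (T.a (T.l 884) (T.l 884)))))))))))), by decide +kernel⟩

theorem B022E_022_1_15_1 :
    ∃ t, chk3 (onCell 0 67108864 0 1073741824 67108864 67108864 (corTK [[⟨0, 0, 1, 33554432⟩, ⟨1, 1, 0, 16777216⟩, ⟨2, 1, 1, 33554432⟩, ⟨0, 0, 0, 150994944⟩, ⟨0, 1, 0, 1023410176⟩, ⟨2, 1, 0, 150994944⟩, ⟨2, 2, 0, 1023410176⟩]] false 3 c0N cB022E gN0q0 gN2q2 gN2q2 gN3q2 true false)) t 1 15 1 = true :=
  ex3_b B022E_022_1_30_1 B022E_022_1_31_1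
theorem B022E_022_1_7_1 :
    ∃ t, chk3 (onCell 0 67108864 0 1073741824 67108864 67108864 (corTK [[⟨0, 0, 1, 33554432⟩, ⟨1, 1, 0, 16777216⟩, ⟨2, 1, 1, 33554432⟩, ⟨0, 0, 0, 150994944⟩, ⟨0, 1, 0, 1023410176⟩, ⟨2, 1, 0, 150994944⟩, ⟨2, 2, 0, 1023410176⟩]] false 3 c0N cB022E gN0q0 gN2q2 gN2q2 gN3q2 true false)) t 1 7 1 = true :=
  ex3_b B022E_022_1_14_1 B022E_022_1_15_1
theorem B022E_022_1_3_1 :
    ∃ t, chk3 (onCell 0 67108864 0 1073741824 67108864 67108864 (corTK [[⟨0, 0, 1, 33554432⟩, ⟨1, 1, 0, 16777216⟩, ⟨2, 1, 1, 33554432⟩, ⟨0, 0, 0, 150994944⟩, ⟨0, 1, 0, 1023410176⟩, ⟨2, 1, 0, 150994944⟩, ⟨2, 2, 0, 1023410176⟩]] false 3 c0N cB022E gN0q0 gN2q2 gN2q2 gN3q2 true false)) t 1 3 1 = true :=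
  ex3_b B022E_022_1_6_1 B022E_022_1_7_1
theorem B022E_022 :
    ∃ t, chk3 (onCell 0 67108864 0 1073741824 67108864 67108864 (corTK [[⟨0, 0, 1, 33554432⟩, ⟨1, 1, 0, 16777216⟩, ⟨2, 1, 1, 33554432⟩, ⟨0, 0, 0, 150994944⟩, ⟨0, 1, 0, 1023410176⟩, ⟨2, 1, 0, 150994944⟩, ⟨2, 2, 0, 1023410176⟩]] false 3 c0N cB022E gN0q0 gN2q2 gN2q2 gN3q2 true false)) t 1 1 1 = true :=
  ex3_b B022E_022_1_2_1 B022E_022_1_3_1

def B022E_100 :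
    ∃ t, chk3 (onCell 0 67108864 0 1073741824 67108864 67108864 (corTK [] false 3 c0N cB022E gN1q0 gN0q2 gN0q2 gN1q2 true true)) t 1 1 1 = true :=
  ⟨(T.l 2), by decide +kernel⟩

def B022E_101 :
    ∃ t, chk3 (onCell 0 67108864 0 1073741824 67108864 67108864 (corTK [] false 3 c0N cB022E gN1q0 gN0q2 gN1q2 gN2q2 true true)) t 1 1 1 = true :=
  ⟨(T.l 2), by decide +kernel⟩

def B022E_102 :
    ∃ t, chk3 (onCell 0 67108864 0 1073741824 67108864 67108864 (corTK [] false 3 c0N cB022E gN1q0 gN0q2 gN2q2 gN3q2 true false)) t 1 1 1 = true :=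
  ⟨(T.b (T.b (T.a (T.a (T.a (T.b (T.l 0) (T.l 816)) (T.b (T.a (T.c (T.l 0) (T.l 0)) (T.b (T.l 0) (T.l 0))) (T.l 0))) (T.b (T.a (T.a (T.l 0) (T.l 0)) (T.c (T.l 0) (T.l 0))) (T.l 0))) (T.b (T.a (T.a (T.b (T.l 204) (T.l 0)) (T.a (T.l 0) (T.b (T.b (T.l 204) (T.l 204)) (T.l 0)))) (T.a (T.b (T.b (T.c (T.l 256) (T.l 256)) (T.l 0)) (T.l 0)) (T.b (T.a (T.l 204) (T.l 204)) (T.l 0)))) (T.a (T.l 0) (T.a (T.b (T.l 0) (T.l 816)) (T.b (T.l 0) (T.l 0)))))) (T.a (T.a (T.a (T.l 816) (T.l 0)) (T.b (T.l 0) (T.b (T.l 816) (T.l 0)))) (T.b (T.a (T.l 0) (T.a (T.l 816) (T.b (T.l 0) (T.l 816)))) (T.b (T.l 0) (T.l 0))))) (T.b (T.a (T.a (T.a (T.l 816) (T.l 816)) (T.a (T.l 0) (T.l 816))) (T.a (T.b (T.l 816) (T.l 816)) (T.l 0))) (T.b (T.a (T.a (T.a (T.l 816) (T.l 816)) (T.l 816)) (T.b (T.l 816) (T.l 816))) (T.a (T.a (T.a (T.l 816)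 (T.l 816)) (T.l 816)) (T.b (T.l 816) (T.l 816)))))), by decide +kernel⟩

def B022E_110 :
    ∃ t, chk3 (onCell 0 67108864 0 1073741824 67108864 67108864 (corTK [] false 3 c0N cB022E gN1q0 gN1q2 gN0q2 gN1q2 true true)) t 1 1 1 = true :=
  ⟨(T.l 2), by decide +kernel⟩

def B022E_111 :
    ∃ t, chk3 (onCell 0 67108864 0 1073741824 67108864 67108864 (corTK [] false 3 c0N cB022E gN1q0 gN1q2 gN1q2 gN2q2 true true)) t 1 1 1 = true :=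
  ⟨(T.l 2), by decide +kernel⟩

def B022E_112 :
    ∃ t, chk3 (onCell 0 67108864 0 1073741824 67108864 67108864 (corTK [] false 3 c0N cB022E gN1q0 gN1q2 gN2q2 gN3q2 true false)) t 1 1 1 = true :=
  ⟨(T.b (T.b (T.b (T.a (T.a (T.a (T.l 0) (T.a (T.l 0) (T.b (T.l 0) (T.l 0)))) (T.b (T.a (T.c (T.l 0) (T.l 0)) (T.l 0)) (T.l 0))) (T.a (T.a (T.b (T.l 0) (T.l 0)) (T.a (T.l 0) (T.b (T.b (T.l 0) (T.l 204)) (T.l 0)))) (T.a (T.b (T.b (T.a (T.l 0) (T.l 204)) (T.l 0)) (T.l 0)) (T.b (T.b (T.l 16) (T.l 0)) (T.l 0))))) (T.a (T.a (T.a (T.l 816) (T.l 0)) (T.l 0)) (T.a (T.l 816) (T.a (T.b (T.l 0) (T.l 816)) (T.b (T.l 0) (T.l 0)))))) (T.b (T.a (T.a (T.a (T.l 816) (T.l 816)) (T.l 816)) (T.a (T.l 0) (T.a (T.l 816) (T.l 68)))) (T.a (T.a (T.a (T.l 816) (T.l 816)) (T.b (T.l 816) (T.l 816))) (T.b (T.l 0) (T.l 816))))) (T.b (T.a (T.a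 (T.a (T.l 816) (T.l 816)) (T.b (T.l 0) (T.l 816))) (T.a (T.b (T.l 816) (T.l 816)) (T.l 816))) (T.b (T.a (T.a (T.a (T.l 816) (T.l 816)) (T.l 816)) (T.b (T.l 816) (T.l 816))) (T.a (T.a (T.a (T.l 816) (T.l 816)) (T.l 816)) (T.l 816))))), by decide +kernel⟩

def B022E_120 :
    ∃ t, chk3 (onCell 0 67108864 0 1073741824 67108864 67108864 (corTK [] false 3 c0N cB022E gN1q0 gN2q2 gN0q2 gN1q2 true true)) t 1 1 1 = true :=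
  ⟨(T.l 2), by decide +kernel⟩

def B022E_121 :
    ∃ t, chk3 (onCell 0 67108864 0 1073741824 67108864 67108864 (corTK [] false 3 c0N cB022E gN1q0 gN2q2 gN1q2 gN2q2 true true)) t 1 1 1 = true :=
  ⟨(T.b (T.b (T.b (T.b (T.a (T.b (T.a (T.a (T.l 0) (T.l 2)) (T.l 2)) (T.l 2)) (T.l 2)) (T.l 2)) (T.l 2)) (T.l 2)) (T.l 2)), by decide +kernel⟩

def B022E_122 :
    ∃ t, chk3 (onCell 0 67108864 0 1073741824 67108864 67108864 (corTK [] false 3 c0N cB022E gN1q0 gN2q2 gN2q2 gN3q2 true false)) t 1 1 1 = true :=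
  ⟨(T.b (T.b (T.b (T.b (T.b (T.a (T.a (T.a (T.l 0) (T.a (T.l 0) (T.l 0))) (T.a (T.l 0) (T.l 0))) (T.b (T.a (T.a (T.l 204) (T.a (T.l 204) (T.l 0))) (T.a (T.a (T.l 0) (T.l 0)) (T.c (T.l 0) (T.l 0)))) (T.a (T.a (T.l 0) (T.l 4)) (T.a (T.c (T.l 0) (T.l 0)) (T.l 0))))) (T.a (T.a (T.a (T.l 816) (T.l 0)) (T.l 0)) (T.a (T.a (T.l 816) (T.l 0)) (T.a (T.c (T.l 0) (T.l 0)) (T.l 0))))) (T.b (T.a (T.a (T.a (T.l 816) (T.l 816)) (T.l 816)) (T.a (T.a (T.l 816) (T.l 0)) (T.a (T.l 0) (T.l 0)))) (T.a (T.a (T.a (T.l 816) (T.l 816)) (T.l 816)) (T.a (T.a (T.l 816) (T.l 0)) (T.a (T.l 0) (T.l 0)))))) (T.b (T.b (T.a (T.a (T.a (T.l 816) (T.l 816)) (T.l 816)) (T.a (T.a (T.l 816) (T.l 0)) (T.a (T.l 0) (T.l 0)))) (T.a (T.a (T.a (T.l 816) (T.l 816)) (T.l 816)) (T.a (T.a (T.l 816) (T.l 816)) (T.a (T.l 816) (T.l 0))))) (T.b (T.a (T.a (T.a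 (T.l 816) (T.l 816)) (T.l 816)) (T.a (T.a (T.l 816) (T.l 816)) (T.c (T.l 0) (T.l 4)))) (T.a (T.a (T.a (T.l 816) (T.l 816)) (T.l 816)) (T.a (T.a (T.l 816) (T.l 816)) (T.c (T.l 0) (T.l 4))))))) (T.b (T.b (T.b (T.a (T.a (T.a (T.l 816) (T.l 816)) (T.l 816)) (T.a (T.c (T.l 0) (T.l 0)) (T.c (T.l 0) (T.l 0)))) (T.a (T.a (T.a (T.l 816) (T.l 816)) (T.l 816)) (T.a (T.c (T.l 0) (T.l 0)) (T.l 0)))) (T.b (T.b (T.a (T.a (T.a (T.l 816) (T.l 816)) (T.l 816)) (T.a (T.c (T.l 0) (T.l 0)) (T.l 816))) (T.a (T.a (T.a (T.l 816) (T.l 816)) (T.l 816)) (T.a (T.l 4) (T.l 816)))) (T.b (T.a (T.a (T.a (T.l 816) (T.l 816)) (T.l 816)) (T.a (T.l 0) (T.l 816))) (T.a (T.a (T.a (T.l 816) (T.l 816)) (T.l 816)) (T.a (T.l 0) (T.l 816)))))) (T.b (T.b (T.b (T.a (T.a (T.a (T.l 816) (T.l 816)) (T.l 816)) (T.a (T.l 0) (T.l 816))) (T.a (T.a (T.a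 (T.l 816) (T.l 816)) (T.l 816)) (T.a (T.l 0) (T.l 816)))) (T.b (T.a (T.a (T.a (T.l 816) (T.l 816)) (T.l 816)) (T.a (T.l 0) (T.l 816))) (T.a (T.a (T.a (T.l 816) (T.l 816)) (T.l 816)) (T.a (T.l 0) (T.l 816))))) (T.b (T.b (T.b (T.a (T.a (T.a (T.l 816) (T.l 816)) (T.l 816)) (T.a (T.l 0) (T.l 816))) (T.a (T.a (T.a (T.l 816) (T.l 816)) (T.l 816)) (T.a (T.l 0) (T.l 816)))) (T.b (T.a (T.a (T.a (T.l 816) (T.l 816)) (T.l 816)) (T.a (T.l 0) (T.l 816))) (T.a (T.a (T.a (T.l 816) (T.l 816)) (T.l 816)) (T.a (T.l 0) (T.l 816))))) (T.b (T.b (T.a (T.a (T.a (T.l 816) (T.l 816)) (T.l 816)) (T.a (T.l 0) (T.l 816))) (T.a (T.a (T.a (T.l 816) (T.l 816)) (T.l 816)) (T.a (T.l 0) (T.l 816)))) (T.a (T.a (T.a (T.l 816) (T.l 816)) (T.l 816)) (T.a (T.l 0) (T.l 816)))))))) (T.b (T.b (T.b (T.b (T.a (T.a (T.a (T.l 816) (T.l 816)) (T.l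 816)) (T.a (T.l 0) (T.l 816))) (T.a (T.a (T.a (T.l 816) (T.l 816)) (T.l 816)) (T.a (T.l 0) (T.l 816)))) (T.a (T.a (T.a (T.l 816) (T.l 816)) (T.l 816)) (T.a (T.l 0) (T.l 816)))) (T.a (T.a (T.a (T.l 816) (T.l 816)) (T.l 816)) (T.a (T.l 0) (T.l 816)))) (T.b (T.a (T.a (T.a (T.l 816) (T.l 816)) (T.l 816)) (T.a (T.l 0) (T.l 816))) (T.a (T.a (T.a (T.l 816) (T.l 816)) (T.l 816)) (T.a (T.l 0) (T.l 816)))))), by decide +kernel⟩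

def B022E_200 :
    ∃ t, chk3 (onCell 0 67108864 0 1073741824 67108864 67108864 (corTK [] false 3 c0N cB022E gN2q0 gN0q2 gN0q2 gN1q2 true true)) t 1 1 1 = true :=
  ⟨(T.l 2), by decide +kernel⟩

def B022E_201 :
    ∃ t, chk3 (onCell 0 67108864 0 1073741824 67108864 67108864 (corTK [] false 3 c0N cB022E gN2q0 gN0q2 gN1q2 gN2q2 true true)) t 1 1 1 = true :=
  ⟨(T.l 2), by decide +kernel⟩

end Pool.Agent.Strip051.G.I1_16_1_8.Tab.CN
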