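import Pool.Agent.Strip051.G.I1_16_1_8.Gn
import Pool.Agent.Strip051.PB.Corns
import Pool.Agent.Strip051.PB.CornK

/-! # Certificates of the aligned corners (generated) -/

set_option linter.all false

namespace Pool.Agent.Strip051.G.I1_16_1_8.Tab.CN

open Pool.Agent.Strip051.PB

def B101L_200_1_2_1 :
    ∃ t, chk3 (onCell 0 67108864 0 1073741824 67108864 67108864 (corTK [[⟨0, 1, 2, 33554432⟩, ⟨1, 0, 1, 33554432⟩, ⟨2, 1, 0, 16777216⟩, ⟨0, 0, 0, 1023410176⟩, ⟨0, 1, 0, 150994944⟩, ⟨1, 0, 0, 150994944⟩, ⟨1, 1, 0, 1023410176⟩]] false 3 c0N cB101L gN2q1 gN0q1 gN0q0 gN1q0 true true)) t 1 2 1 = true :=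
  ⟨(T.l 1), by decide +kernel⟩

def B101L_200_1_6_1 :
    ∃ t, chk3 (onCell 0 67108864 0 1073741824 67108864 67108864 (corTK [[⟨0, 1, 2, 33554432⟩, ⟨1, 0, 1, 33554432⟩, ⟨2, 1, 0, 16777216⟩, ⟨0, 0, 0, 1023410176⟩, ⟨0, 1, 0, 150994944⟩, ⟨1, 0, 0, 150994944⟩, ⟨1, 1, 0, 1023410176⟩]] false 3 c0N cB101L gN2q1 gN0q1 gN0q0 gN1q0 true true)) t 1 6 1 = true :=
  ⟨(T.l 1), by decide +kernel⟩

def B101L_200_1_14_1 :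
    ∃ t, chk3 (onCell 0 67108864 0 1073741824 67108864 67108864 (corTK [[⟨0, 1, 2, 33554432⟩, ⟨1, 0, 1, 33554432⟩, ⟨2, 1, 0, 16777216⟩, ⟨0, 0, 0, 1023410176⟩, ⟨0, 1, 0, 150994944⟩, ⟨1, 0, 0, 150994944⟩, ⟨1, 1, 0, 1023410176⟩]] false 3 c0N cB101L gN2q1 gN0q1 gN0q0 gN1q0 true true)) t 1 14 1 = true :=
  ⟨(T.l 1), by decide +kernel⟩

def B101L_200_1_30_1 :
    ∃ t, chk3 (onCell 0 67108864 0 1073741824 67108864 67108864 (corTK [[⟨0, 1, 2, 33554432⟩, ⟨1, 0, 1, 33554432⟩, ⟨2, 1, 0, 16777216⟩, ⟨0, 0, 0, 1023410176⟩, ⟨0, 1, 0, 150994944⟩, ⟨1, 0, 0, 150994944⟩, ⟨1, 1, 0, 1023410176⟩]] false 3 c0N cB101L gN2q1 gN0q1 gN0q0 gN1q0 true true)) t 1 30 1 = true :=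
  ⟨(T.l 1), by decide +kernel⟩

def B101L_200_1_62_1 :
    ∃ t, chk3 (onCell 0 67108864 0 1073741824 67108864 67108864 (corTK [[⟨0, 1, 2, 33554432⟩, ⟨1, 0, 1, 33554432⟩, ⟨2, 1, 0, 16777216⟩, ⟨0, 0, 0, 1023410176⟩, ⟨0, 1, 0, 150994944⟩, ⟨1, 0, 0, 150994944⟩, ⟨1, 1, 0, 1023410176⟩]] false 3 c0N cB101L gN2q1 gN0q1 gN0q0 gN1q0 true true)) t 1 62 1 = true :=
  ⟨(T.l 1), by decide +kernel⟩

def B101L_200_1_126_1 :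
    ∃ t, chk3 (onCell 0 67108864 0 1073741824 67108864 67108864 (corTK [[⟨0, 1, 2, 33554432⟩, ⟨1, 0, 1, 33554432⟩, ⟨2, 1, 0, 16777216⟩, ⟨0, 0, 0, 1023410176⟩, ⟨0, 1, 0, 150994944⟩, ⟨1, 0, 0, 150994944⟩, ⟨1, 1, 0, 1023410176⟩]] false 3 c0N cB101L gN2q1 gN0q1 gN0q0 gN1q0 true true)) t 1 126 1 = true :=
  ⟨(T.l 1), by decide +kernel⟩

def B101L_200_1_254_1 :
    ∃ t, chk3 (onCell 0 67108864 0 1073741824 67108864 67108864 (corTK [[⟨0, 1, 2, 33554432⟩, ⟨1, 0, 1, 33554432⟩, ⟨2, 1, 0, 16777216⟩, ⟨0, 0, 0, 1023410176⟩, ⟨0, 1, 0, 150994944⟩, ⟨1, 0, 0, 150994944⟩, ⟨1, 1, 0, 1023410176⟩]] false 3 c0N cB101L gN2q1 gN0q1 gN0q0 gN1q0 true true)) t 1 254 1 = true :=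
  ⟨(T.l 1), by decide +kernel⟩

def B101L_200_1_510_1 :
    ∃ t, chk3 (onCell 0 67108864 0 1073741824 67108864 67108864 (corTK [[⟨0, 1, 2, 33554432⟩, ⟨1, 0, 1, 33554432⟩, ⟨2, 1, 0, 16777216⟩, ⟨0, 0, 0, 1023410176⟩, ⟨0, 1, 0, 150994944⟩, ⟨1, 0, 0, 150994944⟩, ⟨1, 1, 0, 1023410176⟩]] false 3 c0N cB101L gN2q1 gN0q1 gN0q0 gN1q0 true true)) t 1 510 1 = true :=
  ⟨(T.l 1), by decide +kernel⟩

def B101L_200_2_1022_2 :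
    ∃ t, chk3 (onCell 0 67108864 0 1073741824 67108864 67108864 (corTK [[⟨0, 1, 2, 33554432⟩, ⟨1, 0, 1, 33554432⟩, ⟨2, 1, 0, 16777216⟩, ⟨0, 0, 0, 1023410176⟩, ⟨0, 1, 0, 150994944⟩, ⟨1, 0, 0, 150994944⟩, ⟨1, 1, 0, 1023410176⟩]] false 3 c0N cB101L gN2q1 gN0q1 gN0q0 gN1q0 true true)) t 2 1022 2 = true :=
  ⟨(T.l 1), by decide +kernel⟩

def B101L_200_4_1023_2 :
    ∃ t, chk3 (onCell 0 67108864 0 1073741824 67108864 67108864 (corTK [[⟨0, 1, 2, 33554432⟩, ⟨1, 0, 1, 33554432⟩, ⟨2, 1, 0, 16777216⟩, ⟨0, 0, 0, 1023410176⟩, ⟨0, 1, 0, 150994944⟩, ⟨1, 0, 0, 150994944⟩, ⟨1, 1, 0, 1023410176⟩]] false 3 c0N cB101L gN2q1 gN0q1 gN0q0 gN1q0 true true)) t 4 1023 2 = true :=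
  ⟨(T.c (T.b (T.l 1) (T.a (T.c (T.b (T.l 1) (T.l 816)) (T.b (T.l 1) (T.l 816))) (T.a (T.l 816) (T.a (T.l 816) (T.c (T.a (T.l 816) (T.l 816)) (T.a (T.l 816) (T.l 816))))))) (T.b (T.l 1) (T.a (T.c (T.b (T.l 1) (T.l 816)) (T.a (T.l 816) (T.l 816))) (T.a (T.l 816) (T.a (T.l 816) (T.a (T.l 816) (T.l 816))))))), by decide +kernel⟩

def B101L_200_5_1023_4 :
    ∃ t, chk3 (onCell 0 67108864 0 1073741824 67108864 67108864 (corTK [[⟨0, 1, 2, 33554432⟩, ⟨1, 0, 1, 33554432⟩, ⟨2, 1, 0, 16777216⟩, ⟨0, 0, 0, 1023410176⟩, ⟨0, 1, 0, 150994944⟩, ⟨1, 0, 0, 150994944⟩, ⟨1, 1, 0, 1023410176⟩]] false 3 c0N cB101L gN2q1 gN0q1 gN0q0 gN1q0 true true)) t 5 1023 4 = true :=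
  ⟨(T.b (T.l 1) (T.a (T.c (T.b (T.l 1) (T.a (T.a (T.l 884) (T.a (T.l 816) (T.l 884))) (T.c (T.b (T.l 1) (T.a (T.a (T.l 816) (T.l 816)) (T.a (T.l 884) (T.a (T.l 884) (T.l 884))))) (T.b (T.l 1) (T.a (T.a (T.l 816) (T.l 816)) (T.a (T.l 820) (T.c (T.l 884) (T.l 884)))))))) (T.b (T.l 1) (T.a (T.a (T.l 816) (T.a (T.l 816) (T.l 816))) (T.c (T.b (T.l 1) (T.a (T.a (T.l 816) (T.l 816)) (T.a (T.l 820) (T.l 884)))) (T.b (T.l 1) (T.a (T.a (T.l 816) (T.l 816)) (T.a (T.l 816) (T.l 820)))))))) (T.c (T.b (T.l 1) (T.a (T.c (T.b (T.l 1) (T.a (T.c (T.b (T.l 1) (T.a (T.l 884) (T.l 884))) (T.b (T.l 1) (T.a (T.l 884) (T.l 884)))) (T.c (T.b (T.l 1) (T.a (T.a (T.l 884) (T.l 884)) (T.c (T.b (T.l 1) (T.l 884)) (T.b (T.l 1) (T.l 884))))) (T.b (T.l 1) (T.a (T.l 884) (T.c (T.a (T.l 884) (T.l 884)) (T.a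 (T.l 884) (T.l 884)))))))) (T.b (T.l 1) (T.a (T.c (T.b (T.l 1) (T.a (T.l 820) (T.l 884))) (T.b (T.l 1) (T.a (T.l 820) (T.l 884)))) (T.c (T.b (T.l 1) (T.a (T.l 884) (T.a (T.l 884) (T.l 884)))) (T.b (T.l 1) (T.a (T.l 884) (T.a (T.l 884) (T.l 884)))))))) (T.c (T.b (T.l 1) (T.a (T.c (T.b (T.l 1) (T.a (T.c (T.b (T.l 1) (T.l 884)) (T.b (T.l 1) (T.l 884))) (T.c (T.b (T.l 1) (T.a (T.l 884) (T.l 884))) (T.b (T.l 1) (T.a (T.l 884) (T.l 884)))))) (T.b (T.l 1) (T.a (T.c (T.b (T.l 1) (T.l 884)) (T.b (T.l 1) (T.l 884))) (T.c (T.b (T.l 1) (T.a (T.l 884) (T.l 884))) (T.b (T.l 1) (T.l 884)))))) (T.c (T.b (T.l 1) (T.a (T.c (T.b (T.l 1) (T.a (T.l 884) (T.a (T.l 884) (T.l 884)))) (T.b (T.l 1) (T.a (T.l 884) (T.l 884)))) (T.c (T.b (T.l 1) (T.a (T.c (T.b (T.l 1) (T.l 884)) (T.b (T.l 1) (T.l 884)))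 (T.c (T.b (T.l 1) (T.l 884)) (T.b (T.l 1) (T.l 884))))) (T.b (T.l 1) (T.a (T.c (T.b (T.l 1) (T.l 884)) (T.a (T.l 884) (T.l 884))) (T.c (T.b (T.l 1) (T.l 884)) (T.b (T.l 1) (T.l 884)))))))) (T.b (T.l 1) (T.a (T.c (T.b (T.l 1) (T.a (T.l 884) (T.l 884))) (T.b (T.l 1) (T.a (T.l 884) (T.l 884)))) (T.c (T.b (T.l 1) (T.a (T.a (T.l 884) (T.l 884)) (T.c (T.b (T.l 1) (T.l 884)) (T.b (T.l 1) (T.l 884))))) (T.b (T.l 1) (T.a (T.a (T.l 884) (T.l 884)) (T.c (T.b (T.l 1) (T.l 884)) (T.b (T.l 1) (T.l 884))))))))))) (T.b (T.l 1) (T.a (T.c (T.b (T.l 1) (T.a (T.c (T.b (T.l 1) (T.l 884)) (T.b (T.l 1) (T.l 884))) (T.c (T.b (T.l 1) (T.l 884)) (T.b (T.l 1) (T.l 884))))) (T.b (T.l 1) (T.a (T.c (T.b (T.l 1) (T.l 884)) (T.b (T.l 1) (T.l 884))) (T.c (T.b (T.l 1) (T.l 884)) (T.b (T.l 1) (T.l 884))))))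 (T.c (T.b (T.l 1) (T.a (T.c (T.b (T.l 1) (T.a (T.l 884) (T.l 884))) (T.b (T.l 1) (T.a (T.l 884) (T.l 884)))) (T.c (T.b (T.l 1) (T.a (T.l 884) (T.c (T.a (T.l 884) (T.l 884)) (T.a (T.l 884) (T.l 884))))) (T.b (T.l 1) (T.a (T.l 884) (T.a (T.l 884) (T.l 884))))))) (T.b (T.l 1) (T.a (T.c (T.b (T.l 1) (T.a (T.l 884) (T.l 884))) (T.b (T.l 1) (T.a (T.l 884) (T.l 884)))) (T.c (T.b (T.l 1) (T.a (T.l 884) (T.l 884))) (T.b (T.l 1) (T.a (T.l 884) (T.l 884)))))))))))) (T.b (T.l 1) (T.a (T.c (T.b (T.l 1) (T.a (T.c (T.b (T.l 1) (T.a (T.l 820) (T.l 820))) (T.b (T.l 1) (T.a (T.l 820) (T.l 820)))) (T.c (T.b (T.l 1) (T.a (T.l 884) (T.a (T.l 884) (T.l 884)))) (T.b (T.l 1) (T.a (T.l 884) (T.l 884)))))) (T.b (T.l 1) (T.a (T.c (T.b (T.l 1) (T.a (T.l 816) (T.l 820))) (T.a (T.l 820) (T.b (T.l 1)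 (T.l 820)))) (T.c (T.b (T.l 1) (T.a (T.l 884) (T.l 884))) (T.b (T.l 1) (T.a (T.l 820) (T.l 884))))))) (T.c (T.b (T.l 1) (T.a (T.c (T.b (T.l 1) (T.a (T.c (T.b (T.l 1) (T.l 884)) (T.a (T.l 884) (T.l 884))) (T.c (T.b (T.l 1) (T.l 884)) (T.b (T.l 1) (T.l 884))))) (T.b (T.l 1) (T.a (T.a (T.l 884) (T.l 884)) (T.c (T.b (T.l 1) (T.l 884)) (T.b (T.l 1) (T.l 884)))))) (T.c (T.b (T.l 1) (T.a (T.c (T.b (T.l 1) (T.l 884)) (T.b (T.l 1) (T.l 884))) (T.c (T.b (T.l 1) (T.a (T.l 884) (T.l 884))) (T.b (T.l 1) (T.a (T.l 884) (T.l 884)))))) (T.b (T.l 1) (T.a (T.c (T.b (T.l 1) (T.l 884)) (T.b (T.l 1) (T.l 884))) (T.c (T.b (T.l 1) (T.a (T.l 884) (T.l 884))) (T.b (T.l 1) (T.l 884)))))))) (T.b (T.l 1) (T.a (T.c (T.b (T.l 1) (T.a (T.a (T.l 884) (T.l 884)) (T.c (T.b (T.l 1) (T.l 884)) (T.b (T.l 1)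 (T.l 884))))) (T.b (T.l 1) (T.a (T.a (T.l 884) (T.l 884)) (T.a (T.l 884) (T.l 884))))) (T.c (T.b (T.l 1) (T.a (T.c (T.b (T.l 1) (T.l 884)) (T.b (T.l 1) (T.l 884))) (T.c (T.b (T.l 1) (T.l 884)) (T.b (T.l 1) (T.l 884))))) (T.b (T.l 1) (T.a (T.c (T.b (T.l 1) (T.l 884)) (T.b (T.l 1) (T.l 884))) (T.c (T.b (T.l 1) (T.l 884)) (T.b (T.l 1) (T.l 884)))))))))))))), by decide +kernel⟩

def B101L_200_5_1023_5 :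
    ∃ t, chk3 (onCell 0 67108864 0 1073741824 67108864 67108864 (corTK [[⟨0, 1, 2, 33554432⟩, ⟨1, 0, 1, 33554432⟩, ⟨2, 1, 0, 16777216⟩, ⟨0, 0, 0, 1023410176⟩, ⟨0, 1, 0, 150994944⟩, ⟨1, 0, 0, 150994944⟩, ⟨1, 1, 0, 1023410176⟩]] false 3 c0N cB101L gN2q1 gN0q1 gN0q0 gN1q0 true true)) t 5 1023 5 = true :=
  ⟨(T.b (T.l 1) (T.a (T.c (T.b (T.l 1) (T.a (T.a (T.l 816) (T.c (T.l 820) (T.l 820))) (T.c (T.b (T.l 1) (T.a (T.l 820) (T.a (T.l 816) (T.l 820)))) (T.b (T.l 1) (T.a (T.l 820) (T.a (T.l 816) (T.l 820))))))) (T.b (T.l 1) (T.a (T.a (T.l 816) (T.l 820)) (T.c (T.b (T.l 1) (T.a (T.l 820) (T.a (T.l 816) (T.l 816)))) (T.b (T.l 1) (T.a (T.l 816) (T.a (T.l 816) (T.l 816)))))))) (T.c (T.b (T.l 1) (T.a (T.c (T.b (T.l 1) (T.a (T.a (T.l 820) (T.a (T.l 820) (T.l 820))) (T.c (T.b (T.l 1) (T.a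 (T.l 820) (T.l 884))) (T.b (T.l 1) (T.a (T.l 820) (T.l 820)))))) (T.b (T.l 1) (T.a (T.a (T.l 820) (T.c (T.l 820) (T.l 820))) (T.c (T.b (T.l 1) (T.a (T.l 820) (T.l 820))) (T.b (T.l 1) (T.a (T.l 820) (T.l 820))))))) (T.c (T.b (T.l 1) (T.a (T.c (T.b (T.l 1) (T.a (T.l 884) (T.a (T.l 884) (T.l 884)))) (T.b (T.l 1) (T.a (T.l 884) (T.l 884)))) (T.c (T.b (T.l 1) (T.a (T.c (T.b (T.l 1) (T.l 884)) (T.a (T.l 884) (T.l 884))) (T.c (T.b (T.l 1) (T.l 884)) (T.b (T.l 1) (T.l 884))))) (T.b (T.l 1) (T.a (T.a (T.l 884) (T.l 884)) (T.c (T.b (T.l 1) (T.l 884)) (T.a (T.l 884) (T.l 884)))))))) (T.b (T.l 1) (T.a (T.c (T.b (T.l 1) (T.a (T.l 884) (T.l 884))) (T.b (T.l 1) (T.a (T.l 820) (T.l 884)))) (T.c (T.b (T.l 1) (T.a (T.a (T.l 884) (T.l 884)) (T.a (T.l 884) (T.l 884)))) (T.b (T.l 1) (T.a (T.l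 884) (T.l 884))))))))) (T.b (T.l 1) (T.a (T.c (T.b (T.l 1) (T.a (T.a (T.l 820) (T.l 820)) (T.c (T.a (T.l 820) (T.b (T.l 1) (T.l 820))) (T.a (T.l 820) (T.a (T.l 820) (T.l 820)))))) (T.b (T.l 1) (T.a (T.a (T.l 816) (T.l 820)) (T.a (T.l 820) (T.c (T.l 820) (T.l 820)))))) (T.c (T.b (T.l 1) (T.a (T.c (T.b (T.l 1) (T.a (T.l 820) (T.l 820))) (T.b (T.l 1) (T.a (T.l 820) (T.l 820)))) (T.c (T.b (T.l 1) (T.a (T.l 884) (T.l 884))) (T.b (T.l 1) (T.a (T.l 884) (T.l 884)))))) (T.b (T.l 1) (T.a (T.c (T.b (T.l 1) (T.a (T.l 820) (T.l 820))) (T.b (T.l 1) (T.a (T.l 820) (T.l 820)))) (T.c (T.b (T.l 1) (T.a (T.l 820) (T.l 884))) (T.b (T.l 1) (T.a (T.l 820) (T.l 820)))))))))))), by decide +kernel⟩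

def B101L_200_2_511_3 :
    ∃ t, chk3 (onCell 0 67108864 0 1073741824 67108864 67108864 (corTK [[⟨0, 1, 2, 33554432⟩, ⟨1, 0, 1, 33554432⟩, ⟨2, 1, 0, 16777216⟩, ⟨0, 0, 0, 1023410176⟩, ⟨0, 1, 0, 150994944⟩, ⟨1, 0, 0, 150994944⟩, ⟨1, 1, 0, 1023410176⟩]] false 3 c0N cB101L gN2q1 gN0q1 gN0q0 gN1q0 true true)) t 2 511 3 = true :=
  ⟨(T.b (T.l 1) (T.a (T.c (T.b (T.l 1) (T.a (T.l 816) (T.a (T.l 816) (T.a (T.l 816) (T.c (T.l 816) (T.l 816)))))) (T.b (T.l 1) (T.a (T.l 816) (T.a (T.l 816) (T.a (T.l 816) (T.l 816)))))) (T.c (T.b (T.l 1) (T.a (T.c (T.b (T.l 1) (T.a (T.a (T.l 816) (T.l 816)) (T.c (T.b (T.l 1) (T.a (T.l 816) (T.l 820))) (T.b (T.l 1) (T.a (T.l 816) (T.l 820)))))) (T.b (T.l 1) (T.a (T.a (T.l 816) (T.l 816)) (T.c (T.b (T.l 1) (T.a (T.l 816) (T.l 816))) (T.a (T.l 820) (T.a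 (T.l 816) (T.l 816))))))) (T.c (T.b (T.l 1) (T.a (T.c (T.b (T.l 1) (T.a (T.a (T.l 816) (T.l 820)) (T.a (T.l 820) (T.l 820)))) (T.b (T.l 1) (T.a (T.a (T.l 816) (T.l 816)) (T.a (T.l 820) (T.l 820))))) (T.c (T.b (T.l 1) (T.a (T.a (T.l 820) (T.a (T.l 820) (T.l 820))) (T.c (T.b (T.l 1) (T.a (T.l 820) (T.l 820))) (T.b (T.l 1) (T.l 884))))) (T.b (T.l 1) (T.a (T.a (T.l 820) (T.l 820)) (T.c (T.a (T.l 820) (T.l 884)) (T.a (T.l 820) (T.l 884)))))))) (T.b (T.l 1) (T.a (T.c (T.b (T.l 1) (T.a (T.l 820) (T.a (T.l 816) (T.l 820)))) (T.b (T.l 1) (T.a (T.l 820) (T.l 820)))) (T.c (T.b (T.l 1) (T.a (T.a (T.l 820) (T.l 820)) (T.a (T.l 820) (T.l 820)))) (T.b (T.l 1) (T.a (T.a (T.l 820) (T.l 820)) (T.a (T.l 820) (T.l 820)))))))))) (T.b (T.l 1) (T.a (T.c (T.b (T.l 1) (T.a (T.a (T.l 816) (T.l 816))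 (T.a (T.l 820) (T.a (T.l 816) (T.l 816))))) (T.b (T.l 1) (T.a (T.a (T.l 816) (T.l 816)) (T.a (T.l 816) (T.l 820))))) (T.c (T.b (T.l 1) (T.a (T.c (T.b (T.l 1) (T.a (T.l 816) (T.l 820))) (T.b (T.l 1) (T.a (T.l 816) (T.l 820)))) (T.c (T.b (T.l 1) (T.a (T.l 820) (T.l 820))) (T.b (T.l 1) (T.a (T.l 820) (T.l 820)))))) (T.b (T.l 1) (T.a (T.c (T.b (T.l 1) (T.a (T.l 816) (T.l 816))) (T.a (T.l 820) (T.a (T.l 816) (T.l 816)))) (T.c (T.b (T.l 1) (T.a (T.l 820) (T.l 820))) (T.b (T.l 1) (T.a (T.l 816) (T.l 816)))))))))))), by decide +kernel⟩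

def B101L_200_3_1022_2 :
    ∃ t, chk3 (onCell 0 67108864 0 1073741824 67108864 67108864 (corTK [[⟨0, 1, 2, 33554432⟩, ⟨1, 0, 1, 33554432⟩, ⟨2, 1, 0, 16777216⟩, ⟨0, 0, 0, 1023410176⟩, ⟨0, 1, 0, 150994944⟩, ⟨1, 0, 0, 150994944⟩, ⟨1, 1, 0, 1023410176⟩]] false 3 c0N cB101L gN2q1 gN0q1 gN0q0 gN1q0 true true)) t 3 1022 2 = true :=
  ⟨(T.l 1), by decide +kernel⟩

def B101L_200_6_2046_4 :
    ∃ t, chk3 (onCell 0 67108864 0 1073741824 67108864 67108864 (corTK [[⟨0, 1, 2, 33554432⟩, ⟨1, 0, 1, 33554432⟩, ⟨2, 1, 0, 16777216⟩, ⟨0, 0, 0, 1023410176⟩, ⟨0, 1, 0, 150994944⟩, ⟨1, 0, 0, 150994944⟩, ⟨1, 1, 0, 1023410176⟩]] false 3 c0N cB101L gN2q1 gN0q1 gN0q0 gN1q0 true true)) t 6 2046 4 = true :=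
  ⟨(T.l 1), by decide +kernel⟩

def B101L_200_12_4094_8 :
    ∃ t, chk3 (onCell 0 67108864 0 1073741824 67108864 67108864 (corTK [[⟨0, 1, 2, 33554432⟩, ⟨1, 0, 1, 33554432⟩, ⟨2, 1, 0, 16777216⟩, ⟨0, 0, 0, 1023410176⟩, ⟨0, 1, 0, 150994944⟩, ⟨1, 0, 0, 150994944⟩, ⟨1, 1, 0, 1023410176⟩]] false 3 c0N cB101L gN2q1 gN0q1 gN0q0 gN1q0 true true)) t 12 4094 8 = true :=
  ⟨(T.l 1), by decide +kernel⟩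

def B101L_200_24_4095_8 :
    ∃ t, chk3 (onCell 0 67108864 0 1073741824 67108864 67108864 (corTK [[⟨0, 1, 2, 33554432⟩, ⟨1, 0, 1, 33554432⟩, ⟨2, 1, 0, 16777216⟩, ⟨0, 0, 0, 1023410176⟩, ⟨0, 1, 0, 150994944⟩, ⟨1, 0, 0, 150994944⟩, ⟨1, 1, 0, 1023410176⟩]] false 3 c0N cB101L gN2q1 gN0q1 gN0q0 gN1q0 true true)) t 24 4095 8 = true :=
  ⟨(T.c (T.b (T.l 1) (T.a (T.c (T.b (T.l 1) (T.a (T.c (T.b (T.l 1) (T.a (T.c (T.b (T.l 1) (T.l 884)) (T.b (T.l 1) (T.l 884))) (T.c (T.b (T.l 1) (T.l 884)) (T.b (T.l 1) (T.l 884))))) (T.b (T.l 1) (T.a (T.c (T.b (T.l 1) (T.l 884)) (T.b (T.l 1) (T.l 884))) (T.c (T.b (T.l 1) (T.l 884)) (T.b (T.l 1) (T.l 884)))))) (T.c (T.b (T.l 1) (T.a (T.c (T.b (T.l 1) (T.l 884)) (T.b (T.l 1) (T.l 884))) (T.c (T.b (T.l 1) (T.l 884)) (T.b (T.l 1) (T.l 884))))) (T.b (T.l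 1) (T.a (T.c (T.b (T.l 1) (T.l 884)) (T.b (T.l 1) (T.l 884))) (T.c (T.b (T.l 1) (T.l 884)) (T.b (T.l 1) (T.l 884)))))))) (T.b (T.l 1) (T.a (T.c (T.b (T.l 1) (T.a (T.c (T.b (T.l 1) (T.l 884)) (T.b (T.l 1) (T.l 884))) (T.c (T.b (T.l 1) (T.l 884)) (T.b (T.l 1) (T.l 884))))) (T.b (T.l 1) (T.a (T.c (T.b (T.l 1) (T.l 884)) (T.b (T.l 1) (T.l 884))) (T.c (T.b (T.l 1) (T.l 884)) (T.b (T.l 1) (T.l 884)))))) (T.c (T.b (T.l 1) (T.a (T.c (T.b (T.l 1) (T.l 884)) (T.b (T.l 1) (T.l 884))) (T.c (T.b (T.l 1) (T.l 884)) (T.b (T.l 1) (T.l 884))))) (T.b (T.l 1) (T.a (T.c (T.b (T.l 1) (T.l 884)) (T.b (T.l 1) (T.l 884))) (T.c (T.b (T.l 1) (T.l 884)) (T.b (T.l 1) (T.l 884))))))))) (T.c (T.b (T.l 1) (T.a (T.c (T.b (T.l 1) (T.a (T.c (T.b (T.l 1) (T.a (T.l 884) (T.l 884))) (T.b (T.l 1) (T.a (T.l 884)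 (T.l 884)))) (T.c (T.b (T.l 1) (T.a (T.l 884) (T.l 884))) (T.b (T.l 1) (T.a (T.l 884) (T.l 884)))))) (T.b (T.l 1) (T.a (T.c (T.b (T.l 1) (T.l 884)) (T.b (T.l 1) (T.l 884))) (T.c (T.b (T.l 1) (T.a (T.l 884) (T.l 884))) (T.b (T.l 1) (T.a (T.l 884) (T.l 884))))))) (T.c (T.b (T.l 1) (T.a (T.c (T.b (T.l 1) (T.a (T.a (T.l 884) (T.l 884)) (T.c (T.b (T.l 1) (T.l 884)) (T.b (T.l 1) (T.l 884))))) (T.b (T.l 1) (T.a (T.l 884) (T.a (T.l 884) (T.l 884))))) (T.c (T.b (T.l 1) (T.a (T.c (T.b (T.l 1) (T.l 884)) (T.b (T.l 1) (T.l 884))) (T.c (T.b (T.l 1) (T.l 884)) (T.b (T.l 1) (T.l 884))))) (T.b (T.l 1) (T.a (T.c (T.b (T.l 1) (T.l 884)) (T.a (T.l 884) (T.l 884))) (T.c (T.b (T.l 1) (T.l 884)) (T.b (T.l 1) (T.l 884)))))))) (T.b (T.l 1) (T.a (T.c (T.b (T.l 1) (T.a (T.l 884) (T.l 884))) (T.b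 (T.l 1) (T.a (T.l 884) (T.l 884)))) (T.c (T.b (T.l 1) (T.a (T.a (T.l 884) (T.l 884)) (T.c (T.b (T.l 1) (T.l 884)) (T.a (T.l 884) (T.l 884))))) (T.b (T.l 1) (T.a (T.l 884) (T.a (T.l 884) (T.l 884)))))))))) (T.b (T.l 1) (T.a (T.c (T.b (T.l 1) (T.a (T.c (T.b (T.l 1) (T.l 884)) (T.b (T.l 1) (T.l 884))) (T.c (T.b (T.l 1) (T.l 884)) (T.b (T.l 1) (T.l 884))))) (T.b (T.l 1) (T.a (T.c (T.b (T.l 1) (T.l 884)) (T.b (T.l 1) (T.l 884))) (T.c (T.b (T.l 1) (T.l 884)) (T.b (T.l 1) (T.l 884)))))) (T.c (T.b (T.l 1) (T.a (T.c (T.b (T.l 1) (T.a (T.l 884) (T.l 884))) (T.b (T.l 1) (T.l 884))) (T.c (T.b (T.l 1) (T.a (T.l 884) (T.l 884))) (T.b (T.l 1) (T.a (T.l 884) (T.l 884)))))) (T.b (T.l 1) (T.a (T.c (T.b (T.l 1) (T.l 884)) (T.b (T.l 1) (T.l 884))) (T.c (T.b (T.l 1) (T.a (T.l 884) (T.l 884)))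 (T.b (T.l 1) (T.l 884))))))))))) (T.b (T.l 1) (T.a (T.c (T.b (T.l 1) (T.a (T.c (T.b (T.l 1) (T.a (T.c (T.b (T.l 1) (T.l 884)) (T.b (T.l 1) (T.l 884))) (T.c (T.b (T.l 1) (T.l 884)) (T.b (T.l 1) (T.l 884))))) (T.b (T.l 1) (T.a (T.c (T.b (T.l 1) (T.l 884)) (T.b (T.l 1) (T.l 884))) (T.c (T.b (T.l 1) (T.l 884)) (T.b (T.l 1) (T.l 884)))))) (T.c (T.b (T.l 1) (T.a (T.c (T.b (T.l 1) (T.l 884)) (T.b (T.l 1) (T.l 884))) (T.c (T.b (T.l 1) (T.l 884)) (T.b (T.l 1) (T.l 884))))) (T.b (T.l 1) (T.a (T.c (T.b (T.l 1) (T.l 884)) (T.b (T.l 1) (T.l 884))) (T.c (T.b (T.l 1) (T.l 884)) (T.b (T.l 1) (T.l 884)))))))) (T.b (T.l 1) (T.a (T.c (T.b (T.l 1) (T.a (T.a (T.l 884) (T.l 884)) (T.c (T.b (T.l 1) (T.l 884)) (T.b (T.l 1) (T.l 884))))) (T.b (T.l 1) (T.a (T.a (T.l 884) (T.l 884)) (T.c (T.b (T.l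 1) (T.l 884)) (T.a (T.l 884) (T.l 884)))))) (T.c (T.b (T.l 1) (T.a (T.c (T.b (T.l 1) (T.l 884)) (T.b (T.l 1) (T.l 884))) (T.c (T.b (T.l 1) (T.l 884)) (T.b (T.l 1) (T.l 884))))) (T.b (T.l 1) (T.a (T.c (T.b (T.l 1) (T.l 884)) (T.b (T.l 1) (T.l 884))) (T.c (T.b (T.l 1) (T.l 884)) (T.b (T.l 1) (T.l 884))))))))) (T.c (T.b (T.l 1) (T.a (T.c (T.b (T.l 1) (T.a (T.c (T.b (T.l 1) (T.l 884)) (T.b (T.l 1) (T.l 884))) (T.c (T.b (T.l 1) (T.l 884)) (T.b (T.l 1) (T.l 884))))) (T.b (T.l 1) (T.a (T.c (T.b (T.l 1) (T.l 884)) (T.b (T.l 1) (T.l 884))) (T.c (T.b (T.l 1) (T.l 884)) (T.b (T.l 1) (T.l 884)))))) (T.c (T.b (T.l 1) (T.a (T.c (T.b (T.l 1) (T.l 884)) (T.b (T.l 1) (T.l 884))) (T.c (T.b (T.l 1) (T.l 884)) (T.b (T.l 1) (T.l 884))))) (T.b (T.l 1) (T.a (T.c (T.b (T.l 1) (T.l 884)) (T.b (T.l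 1) (T.l 884))) (T.c (T.b (T.l 1) (T.l 884)) (T.b (T.l 1) (T.l 884)))))))) (T.b (T.l 1) (T.a (T.c (T.b (T.l 1) (T.a (T.c (T.b (T.l 1) (T.l 884)) (T.b (T.l 1) (T.l 884))) (T.c (T.b (T.l 1) (T.l 884)) (T.b (T.l 1) (T.l 884))))) (T.b (T.l 1) (T.a (T.c (T.b (T.l 1) (T.l 884)) (T.b (T.l 1) (T.l 884))) (T.c (T.b (T.l 1) (T.l 884)) (T.b (T.l 1) (T.l 884)))))) (T.c (T.b (T.l 1) (T.a (T.c (T.b (T.l 1) (T.l 884)) (T.b (T.l 1) (T.l 884))) (T.c (T.b (T.l 1) (T.l 884)) (T.b (T.l 1) (T.l 884))))) (T.b (T.l 1) (T.a (T.c (T.b (T.l 1) (T.l 884)) (T.b (T.l 1) (T.l 884))) (T.c (T.b (T.l 1) (T.l 884)) (T.b (T.l 1) (T.l 884)))))))))))), by decide +kernel⟩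

def B101L_200_25_8190_16 :
    ∃ t, chk3 (onCell 0 67108864 0 1073741824 67108864 67108864 (corTK [[⟨0, 1, 2, 33554432⟩, ⟨1, 0, 1, 33554432⟩, ⟨2, 1, 0, 16777216⟩, ⟨0, 0, 0, 1023410176⟩, ⟨0, 1, 0, 150994944⟩, ⟨1, 0, 0, 150994944⟩, ⟨1, 1, 0, 1023410176⟩]] false 3 c0N cB101L gN2q1 gN0q1 gN0q0 gN1q0 true true)) t 25 8190 16 = true :=
  ⟨(T.l 1), by decide +kernel⟩

def B101L_200_50_8191_16 :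
    ∃ t, chk3 (onCell 0 67108864 0 1073741824 67108864 67108864 (corTK [[⟨0, 1, 2, 33554432⟩, ⟨1, 0, 1, 33554432⟩, ⟨2, 1, 0, 16777216⟩, ⟨0, 0, 0, 1023410176⟩, ⟨0, 1, 0, 150994944⟩, ⟨1, 0, 0, 150994944⟩, ⟨1, 1, 0, 1023410176⟩]] false 3 c0N cB101L gN2q1 gN0q1 gN0q0 gN1q0 true true)) t 50 8191 16 = true :=
  ⟨(T.c (T.b (T.l 1) (T.a (T.c (T.b (T.l 1) (T.a (T.c (T.b (T.l 1) (T.a (T.c (T.b (T.l 1) (T.l 884)) (T.b (T.l 1) (T.l 884))) (T.c (T.b (T.l 1) (T.l 884)) (T.b (T.l 1) (T.l 884))))) (T.b (T.l 1) (T.a (T.c (T.b (T.l 1) (T.l 884)) (T.b (T.l 1) (T.l 884))) (T.c (T.b (T.l 1) (T.l 884)) (T.b (T.l 1) (T.l 884)))))) (T.c (T.b (T.l 1) (T.a (T.c (T.b (T.l 1) (T.l 884)) (T.b (T.l 1) (T.l 884))) (T.c (T.b (T.l 1) (T.l 884)) (T.b (T.l 1) (T.l 884))))) (T.b (T.l 1) (T.a (T.c (T.b (T.l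 1) (T.l 884)) (T.b (T.l 1) (T.l 884))) (T.c (T.b (T.l 1) (T.l 884)) (T.b (T.l 1) (T.l 884)))))))) (T.b (T.l 1) (T.a (T.c (T.b (T.l 1) (T.a (T.c (T.b (T.l 1) (T.l 884)) (T.b (T.l 1) (T.l 884))) (T.c (T.b (T.l 1) (T.l 884)) (T.b (T.l 1) (T.l 884))))) (T.b (T.l 1) (T.a (T.a (T.l 884) (T.l 884)) (T.c (T.b (T.l 1) (T.l 884)) (T.a (T.l 884) (T.l 884)))))) (T.c (T.b (T.l 1) (T.a (T.c (T.b (T.l 1) (T.l 884)) (T.b (T.l 1) (T.l 884))) (T.c (T.b (T.l 1) (T.l 884)) (T.b (T.l 1) (T.l 884))))) (T.b (T.l 1) (T.a (T.c (T.b (T.l 1) (T.l 884)) (T.a (T.l 884) (T.l 884))) (T.c (T.b (T.l 1) (T.l 884)) (T.b (T.l 1) (T.l 884))))))))) (T.c (T.b (T.l 1) (T.a (T.c (T.b (T.l 1) (T.a (T.c (T.b (T.l 1) (T.l 884)) (T.b (T.l 1) (T.l 884))) (T.c (T.b (T.l 1) (T.l 884)) (T.b (T.l 1) (T.l 884))))) (T.b (T.l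 1) (T.a (T.c (T.b (T.l 1) (T.l 884)) (T.b (T.l 1) (T.l 884))) (T.c (T.b (T.l 1) (T.l 884)) (T.b (T.l 1) (T.l 884)))))) (T.c (T.b (T.l 1) (T.a (T.c (T.b (T.l 1) (T.l 884)) (T.b (T.l 1) (T.l 884))) (T.c (T.b (T.l 1) (T.l 884)) (T.b (T.l 1) (T.l 884))))) (T.b (T.l 1) (T.a (T.c (T.b (T.l 1) (T.l 884)) (T.b (T.l 1) (T.l 884))) (T.c (T.b (T.l 1) (T.l 884)) (T.b (T.l 1) (T.l 884)))))))) (T.b (T.l 1) (T.a (T.c (T.b (T.l 1) (T.a (T.c (T.b (T.l 1) (T.l 884)) (T.b (T.l 1) (T.l 884))) (T.c (T.b (T.l 1) (T.l 884)) (T.b (T.l 1) (T.l 884))))) (T.b (T.l 1) (T.a (T.c (T.b (T.l 1) (T.l 884)) (T.b (T.l 1) (T.l 884))) (T.c (T.b (T.l 1) (T.l 884)) (T.b (T.l 1) (T.l 884)))))) (T.c (T.b (T.l 1) (T.a (T.c (T.b (T.l 1) (T.l 884)) (T.b (T.l 1) (T.l 884))) (T.c (T.b (T.l 1) (T.l 884)) (T.b (T.l 1)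 (T.l 884))))) (T.b (T.l 1) (T.a (T.c (T.b (T.l 1) (T.l 884)) (T.b (T.l 1) (T.l 884))) (T.c (T.b (T.l 1) (T.l 884)) (T.b (T.l 1) (T.l 884))))))))))) (T.b (T.l 1) (T.a (T.c (T.b (T.l 1) (T.a (T.c (T.b (T.l 1) (T.a (T.l 884) (T.l 884))) (T.b (T.l 1) (T.a (T.l 884) (T.l 884)))) (T.c (T.b (T.l 1) (T.a (T.a (T.l 884) (T.l 884)) (T.a (T.l 884) (T.l 884)))) (T.b (T.l 1) (T.a (T.l 884) (T.l 884)))))) (T.b (T.l 1) (T.a (T.c (T.b (T.l 1) (T.a (T.l 884) (T.l 884))) (T.b (T.l 1) (T.l 884))) (T.c (T.b (T.l 1) (T.a (T.l 884) (T.l 884))) (T.b (T.l 1) (T.a (T.l 884) (T.l 884))))))) (T.c (T.b (T.l 1) (T.a (T.c (T.b (T.l 1) (T.a (T.a (T.l 884) (T.l 884)) (T.c (T.a (T.l 884) (T.l 884)) (T.a (T.l 884) (T.l 884))))) (T.b (T.l 1) (T.a (T.l 884) (T.l 884)))) (T.c (T.b (T.l 1) (T.a (T.c (T.b (T.l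 1) (T.l 884)) (T.a (T.l 884) (T.l 884))) (T.c (T.b (T.l 1) (T.l 884)) (T.a (T.l 884) (T.l 884))))) (T.b (T.l 1) (T.a (T.l 884) (T.l 884)))))) (T.b (T.l 1) (T.a (T.c (T.b (T.l 1) (T.a (T.l 884) (T.l 884))) (T.b (T.l 1) (T.a (T.l 884) (T.l 884)))) (T.c (T.b (T.l 1) (T.a (T.l 884) (T.l 884))) (T.b (T.l 1) (T.a (T.l 884) (T.l 884)))))))))), by decide +kernel⟩

def B101L_200_51_8191_16 :
    ∃ t, chk3 (onCell 0 67108864 0 1073741824 67108864 67108864 (corTK [[⟨0, 1, 2, 33554432⟩, ⟨1, 0, 1, 33554432⟩, ⟨2, 1, 0, 16777216⟩, ⟨0, 0, 0, 1023410176⟩, ⟨0, 1, 0, 150994944⟩, ⟨1, 0, 0, 150994944⟩, ⟨1, 1, 0, 1023410176⟩]] false 3 c0N cB101L gN2q1 gN0q1 gN0q0 gN1q0 true true)) t 51 8191 16 = true :=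
  ⟨(T.c (T.b (T.l 1) (T.a (T.c (T.b (T.l 1) (T.a (T.c (T.b (T.l 1) (T.a (T.c (T.b (T.l 1) (T.l 884)) (T.b (T.l 1) (T.l 884))) (T.c (T.b (T.l 1) (T.l 884)) (T.b (T.l 1) (T.l 884))))) (T.b (T.l 1) (T.a (T.c (T.b (T.l 1) (T.l 884)) (T.b (T.l 1) (T.l 884))) (T.c (T.b (T.l 1) (T.l 884)) (T.b (T.l 1) (T.l 884)))))) (T.c (T.b (T.l 1) (T.a (T.c (T.b (T.l 1) (T.l 884)) (T.b (T.l 1) (T.l 884))) (T.c (T.b (T.l 1) (T.l 884)) (T.b (T.l 1) (T.l 884))))) (T.b (T.l 1) (T.a (T.c (T.b (T.l 1) (T.l 884)) (T.b (T.l 1) (T.l 884))) (T.c (T.b (T.l 1) (T.l 884)) (T.b (T.l 1) (T.l 884)))))))) (T.b (T.l 1) (T.a (T.c (T.b (T.l 1) (T.a (T.c (T.b (T.l 1) (T.l 884)) (T.b (T.l 1) (T.l 884))) (T.c (T.b (T.l 1) (T.l 884)) (T.b (T.l 1) (T.l 884))))) (T.b (T.l 1) (T.a (T.c (T.b (T.l 1) (T.l 884)) (T.b (T.l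 1) (T.l 884))) (T.c (T.b (T.l 1) (T.l 884)) (T.b (T.l 1) (T.l 884)))))) (T.c (T.b (T.l 1) (T.a (T.c (T.b (T.l 1) (T.l 884)) (T.b (T.l 1) (T.l 884))) (T.c (T.b (T.l 1) (T.l 884)) (T.b (T.l 1) (T.l 884))))) (T.b (T.l 1) (T.a (T.c (T.b (T.l 1) (T.l 884)) (T.b (T.l 1) (T.l 884))) (T.c (T.b (T.l 1) (T.l 884)) (T.b (T.l 1) (T.l 884))))))))) (T.c (T.b (T.l 1) (T.a (T.c (T.b (T.l 1) (T.a (T.c (T.b (T.l 1) (T.l 884)) (T.b (T.l 1) (T.l 884))) (T.c (T.b (T.l 1) (T.l 884)) (T.b (T.l 1) (T.l 884))))) (T.b (T.l 1) (T.a (T.c (T.b (T.l 1) (T.l 884)) (T.b (T.l 1) (T.l 884))) (T.c (T.b (T.l 1) (T.l 884)) (T.b (T.l 1) (T.l 884)))))) (T.c (T.b (T.l 1) (T.a (T.c (T.b (T.l 1) (T.l 884)) (T.b (T.l 1) (T.l 884))) (T.c (T.b (T.l 1) (T.l 884)) (T.b (T.l 1) (T.l 884))))) (T.b (T.l 1) (T.a (T.c (T.b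 (T.l 1) (T.l 884)) (T.b (T.l 1) (T.l 884))) (T.c (T.b (T.l 1) (T.l 884)) (T.b (T.l 1) (T.l 884)))))))) (T.b (T.l 1) (T.a (T.c (T.b (T.l 1) (T.a (T.c (T.b (T.l 1) (T.l 884)) (T.b (T.l 1) (T.l 884))) (T.c (T.b (T.l 1) (T.l 884)) (T.b (T.l 1) (T.l 884))))) (T.b (T.l 1) (T.a (T.c (T.b (T.l 1) (T.l 884)) (T.a (T.l 884) (T.l 884))) (T.c (T.b (T.l 1) (T.l 884)) (T.a (T.l 884) (T.l 884)))))) (T.c (T.b (T.l 1) (T.a (T.c (T.b (T.l 1) (T.l 884)) (T.b (T.l 1) (T.l 884))) (T.c (T.b (T.l 1) (T.l 884)) (T.b (T.l 1) (T.l 884))))) (T.b (T.l 1) (T.a (T.c (T.a (T.l 884) (T.l 884)) (T.a (T.l 884) (T.l 884))) (T.a (T.l 884) (T.l 884)))))))))) (T.b (T.l 1) (T.a (T.c (T.b (T.l 1) (T.a (T.c (T.b (T.l 1) (T.a (T.c (T.a (T.l 884) (T.l 884)) (T.a (T.l 884) (T.l 884))) (T.c (T.a (T.l 884) (T.l 884))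 (T.l 884)))) (T.b (T.l 1) (T.a (T.l 884) (T.l 884)))) (T.c (T.b (T.l 1) (T.a (T.a (T.l 884) (T.l 884)) (T.a (T.l 884) (T.l 884)))) (T.b (T.l 1) (T.a (T.l 884) (T.l 884)))))) (T.b (T.l 1) (T.a (T.c (T.b (T.l 1) (T.a (T.l 884) (T.l 884))) (T.b (T.l 1) (T.l 884))) (T.c (T.b (T.l 1) (T.a (T.l 884) (T.l 884))) (T.b (T.l 1) (T.l 884)))))) (T.c (T.b (T.l 1) (T.a (T.c (T.b (T.l 1) (T.a (T.a (T.l 884) (T.l 884)) (T.l 884))) (T.b (T.l 1) (T.a (T.l 884) (T.l 884)))) (T.c (T.b (T.l 1) (T.a (T.l 884) (T.l 884))) (T.b (T.l 1) (T.a (T.l 884) (T.l 884)))))) (T.b (T.l 1) (T.a (T.c (T.b (T.l 1) (T.a (T.l 884) (T.l 884))) (T.b (T.l 1) (T.l 884))) (T.c (T.b (T.l 1) (T.l 884)) (T.b (T.l 1) (T.l 884))))))))), by decide +kernel⟩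

def B101L_200_25_4095_17 :
    ∃ t, chk3 (onCell 0 67108864 0 1073741824 67108864 67108864 (corTK [[⟨0, 1, 2, 33554432⟩, ⟨1, 0, 1, 33554432⟩, ⟨2, 1, 0, 16777216⟩, ⟨0, 0, 0, 1023410176⟩, ⟨0, 1, 0, 150994944⟩, ⟨1, 0, 0, 150994944⟩, ⟨1, 1, 0, 1023410176⟩]] false 3 c0N cB101L gN2q1 gN0q1 gN0q0 gN1q0 true true)) t 25 4095 17 = true :=
  ⟨(T.b (T.l 1) (T.a (T.c (T.b (T.l 1) (T.a (T.c (T.b (T.l 1) (T.a (T.c (T.b (T.l 1) (T.l 884)) (T.b (T.l 1) (T.l 884))) (T.c (T.b (T.l 1) (T.l 884)) (T.b (T.l 1) (T.l 884))))) (T.b (T.l 1) (T.a (T.c (T.b (T.l 1) (T.l 884)) (T.b (T.l 1) (T.l 884))) (T.c (T.b (T.l 1) (T.l 884)) (T.b (T.l 1) (T.l 884)))))) (T.c (T.b (T.l 1) (T.a (T.c (T.b (T.l 1) (T.l 884)) (T.b (T.l 1) (T.l 884))) (T.c (T.b (T.l 1) (T.l 884)) (T.b (T.l 1) (T.l 884))))) (T.b (T.l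 1) (T.a (T.c (T.b (T.l 1) (T.l 884)) (T.b (T.l 1) (T.l 884))) (T.c (T.b (T.l 1) (T.l 884)) (T.b (T.l 1) (T.l 884)))))))) (T.b (T.l 1) (T.a (T.c (T.b (T.l 1) (T.a (T.c (T.b (T.l 1) (T.l 884)) (T.b (T.l 1) (T.l 884))) (T.c (T.b (T.l 1) (T.l 884)) (T.b (T.l 1) (T.l 884))))) (T.b (T.l 1) (T.a (T.c (T.b (T.l 1) (T.l 884)) (T.b (T.l 1) (T.l 884))) (T.c (T.b (T.l 1) (T.l 884)) (T.b (T.l 1) (T.l 884)))))) (T.c (T.b (T.l 1) (T.a (T.c (T.b (T.l 1) (T.l 884)) (T.b (T.l 1) (T.l 884))) (T.c (T.b (T.l 1) (T.l 884)) (T.b (T.l 1) (T.l 884))))) (T.b (T.l 1) (T.a (T.c (T.b (T.l 1) (T.l 884)) (T.b (T.l 1) (T.l 884))) (T.c (T.b (T.l 1) (T.l 884)) (T.b (T.l 1) (T.l 884))))))))) (T.c (T.b (T.l 1) (T.a (T.c (T.b (T.l 1) (T.a (T.c (T.b (T.l 1) (T.l 884)) (T.b (T.l 1) (T.l 884))) (T.c (T.b (T.l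 1) (T.l 884)) (T.b (T.l 1) (T.l 884))))) (T.b (T.l 1) (T.a (T.c (T.b (T.l 1) (T.l 884)) (T.b (T.l 1) (T.l 884))) (T.c (T.b (T.l 1) (T.l 884)) (T.b (T.l 1) (T.l 884)))))) (T.c (T.b (T.l 1) (T.a (T.c (T.b (T.l 1) (T.l 884)) (T.b (T.l 1) (T.l 884))) (T.c (T.b (T.l 1) (T.l 884)) (T.b (T.l 1) (T.l 884))))) (T.b (T.l 1) (T.a (T.c (T.b (T.l 1) (T.l 884)) (T.b (T.l 1) (T.l 884))) (T.c (T.b (T.l 1) (T.l 884)) (T.b (T.l 1) (T.l 884)))))))) (T.b (T.l 1) (T.a (T.c (T.b (T.l 1) (T.a (T.c (T.b (T.l 1) (T.l 884)) (T.b (T.l 1) (T.l 884))) (T.c (T.b (T.l 1) (T.l 884)) (T.b (T.l 1) (T.l 884))))) (T.b (T.l 1) (T.a (T.c (T.b (T.l 1) (T.l 884)) (T.b (T.l 1) (T.l 884))) (T.c (T.b (T.l 1) (T.l 884)) (T.b (T.l 1) (T.l 884)))))) (T.c (T.b (T.l 1) (T.a (T.c (T.b (T.l 1) (T.l 884)) (T.b (T.l 1) (T.l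 884))) (T.c (T.b (T.l 1) (T.l 884)) (T.b (T.l 1) (T.l 884))))) (T.b (T.l 1) (T.a (T.c (T.b (T.l 1) (T.l 884)) (T.b (T.l 1) (T.l 884))) (T.c (T.b (T.l 1) (T.l 884)) (T.b (T.l 1) (T.l 884))))))))))), by decide +kernel⟩

def B101L_200_12_2047_9 :
    ∃ t, chk3 (onCell 0 67108864 0 1073741824 67108864 67108864 (corTK [[⟨0, 1, 2, 33554432⟩, ⟨1, 0, 1, 33554432⟩, ⟨2, 1, 0, 16777216⟩, ⟨0, 0, 0, 1023410176⟩, ⟨0, 1, 0, 150994944⟩, ⟨1, 0, 0, 150994944⟩, ⟨1, 1, 0, 1023410176⟩]] false 3 c0N cB101L gN2q1 gN0q1 gN0q0 gN1q0 true true)) t 12 2047 9 = true :=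
  ⟨(T.b (T.l 1) (T.a (T.c (T.b (T.l 1) (T.a (T.c (T.b (T.l 1) (T.a (T.c (T.b (T.l 1) (T.a (T.l 884) (T.a (T.l 884) (T.l 884)))) (T.b (T.l 1) (T.a (T.l 884) (T.l 884)))) (T.c (T.b (T.l 1) (T.a (T.c (T.b (T.l 1) (T.l 884)) (T.a (T.l 884) (T.l 884))) (T.c (T.b (T.l 1) (T.l 884)) (T.b (T.l 1) (T.l 884))))) (T.b (T.l 1) (T.a (T.a (T.l 884) (T.l 884)) (T.a (T.l 884) (T.l 884))))))) (T.b (T.l 1) (T.a (T.c (T.b (T.l 1) (T.a (T.l 884) (T.l 884))) (T.b (T.l 1) (T.a (T.l 884) (T.l 884)))) (T.c (T.b (T.l 1) (T.a (T.l 884) (T.a (T.l 884) (T.l 884)))) (T.b (T.l 1) (T.a (T.l 884) (T.l 884))))))) (T.c (T.b (T.l 1) (T.a (T.c (T.b (T.l 1) (T.a (T.c (T.b (T.l 1) (T.l 884)) (T.b (T.l 1) (T.l 884))) (T.c (T.b (T.l 1) (T.l 884)) (T.b (T.l 1) (T.l 884))))) (T.b (T.l 1) (T.a (T.c (T.b (T.l 1) (T.l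 884)) (T.b (T.l 1) (T.l 884))) (T.c (T.b (T.l 1) (T.l 884)) (T.b (T.l 1) (T.l 884)))))) (T.c (T.b (T.l 1) (T.a (T.c (T.b (T.l 1) (T.l 884)) (T.b (T.l 1) (T.l 884))) (T.c (T.b (T.l 1) (T.l 884)) (T.b (T.l 1) (T.l 884))))) (T.b (T.l 1) (T.a (T.c (T.b (T.l 1) (T.l 884)) (T.b (T.l 1) (T.l 884))) (T.c (T.b (T.l 1) (T.l 884)) (T.b (T.l 1) (T.l 884)))))))) (T.b (T.l 1) (T.a (T.c (T.b (T.l 1) (T.a (T.a (T.l 884) (T.l 884)) (T.c (T.a (T.l 884) (T.l 884)) (T.a (T.l 884) (T.l 884))))) (T.b (T.l 1) (T.a (T.l 884) (T.a (T.l 884) (T.l 884))))) (T.c (T.b (T.l 1) (T.a (T.c (T.b (T.l 1) (T.l 884)) (T.a (T.l 884) (T.l 884))) (T.c (T.b (T.l 1) (T.l 884)) (T.b (T.l 1) (T.l 884))))) (T.b (T.l 1) (T.a (T.a (T.l 884) (T.l 884)) (T.a (T.l 884) (T.l 884)))))))))) (T.b (T.l 1) (T.a (T.c (T.b (T.l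 1) (T.a (T.c (T.b (T.l 1) (T.a (T.l 884) (T.l 884))) (T.b (T.l 1) (T.l 884))) (T.c (T.b (T.l 1) (T.a (T.l 884) (T.l 884))) (T.b (T.l 1) (T.a (T.l 884) (T.l 884)))))) (T.b (T.l 1) (T.a (T.c (T.b (T.l 1) (T.l 884)) (T.b (T.l 1) (T.l 884))) (T.c (T.b (T.l 1) (T.l 884)) (T.b (T.l 1) (T.l 884)))))) (T.c (T.b (T.l 1) (T.a (T.c (T.b (T.l 1) (T.a (T.l 884) (T.l 884))) (T.b (T.l 1) (T.a (T.l 884) (T.l 884)))) (T.c (T.b (T.l 1) (T.a (T.l 884) (T.l 884))) (T.b (T.l 1) (T.a (T.l 884) (T.l 884)))))) (T.b (T.l 1) (T.a (T.c (T.b (T.l 1) (T.a (T.l 884) (T.l 884))) (T.b (T.l 1) (T.l 884))) (T.c (T.b (T.l 1) (T.a (T.l 884) (T.l 884))) (T.b (T.l 1) (T.l 884))))))))) (T.c (T.b (T.l 1) (T.a (T.c (T.b (T.l 1) (T.a (T.c (T.b (T.l 1) (T.a (T.c (T.b (T.l 1) (T.l 884)) (T.b (T.l 1) (T.l 884))) (T.c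 (T.b (T.l 1) (T.l 884)) (T.b (T.l 1) (T.l 884))))) (T.b (T.l 1) (T.a (T.c (T.b (T.l 1) (T.l 884)) (T.b (T.l 1) (T.l 884))) (T.c (T.b (T.l 1) (T.l 884)) (T.b (T.l 1) (T.l 884)))))) (T.c (T.b (T.l 1) (T.a (T.c (T.b (T.l 1) (T.l 884)) (T.b (T.l 1) (T.l 884))) (T.c (T.b (T.l 1) (T.l 884)) (T.b (T.l 1) (T.l 884))))) (T.b (T.l 1) (T.a (T.c (T.b (T.l 1) (T.l 884)) (T.b (T.l 1) (T.l 884))) (T.c (T.b (T.l 1) (T.l 884)) (T.b (T.l 1) (T.l 884)))))))) (T.b (T.l 1) (T.a (T.c (T.b (T.l 1) (T.a (T.c (T.b (T.l 1) (T.l 884)) (T.b (T.l 1) (T.l 884))) (T.c (T.b (T.l 1) (T.l 884)) (T.b (T.l 1) (T.l 884))))) (T.b (T.l 1) (T.a (T.a (T.l 884) (T.l 884)) (T.a (T.l 884) (T.l 884))))) (T.c (T.b (T.l 1) (T.a (T.c (T.b (T.l 1) (T.l 884)) (T.b (T.l 1) (T.l 884))) (T.c (T.b (T.l 1) (T.l 884)) (T.b (T.l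 1) (T.l 884))))) (T.b (T.l 1) (T.a (T.a (T.l 884) (T.l 884)) (T.a (T.l 884) (T.l 884)))))))) (T.c (T.b (T.l 1) (T.a (T.c (T.b (T.l 1) (T.a (T.c (T.b (T.l 1) (T.l 884)) (T.b (T.l 1) (T.l 884))) (T.c (T.b (T.l 1) (T.l 884)) (T.b (T.l 1) (T.l 884))))) (T.b (T.l 1) (T.a (T.c (T.b (T.l 1) (T.l 884)) (T.b (T.l 1) (T.l 884))) (T.c (T.b (T.l 1) (T.l 884)) (T.b (T.l 1) (T.l 884)))))) (T.c (T.b (T.l 1) (T.a (T.c (T.b (T.l 1) (T.l 884)) (T.b (T.l 1) (T.l 884))) (T.c (T.b (T.l 1) (T.l 884)) (T.b (T.l 1) (T.l 884))))) (T.b (T.l 1) (T.a (T.c (T.b (T.l 1) (T.l 884)) (T.b (T.l 1) (T.l 884))) (T.c (T.b (T.l 1) (T.l 884)) (T.b (T.l 1) (T.l 884)))))))) (T.b (T.l 1) (T.a (T.c (T.b (T.l 1) (T.a (T.c (T.b (T.l 1) (T.l 884)) (T.b (T.l 1) (T.l 884))) (T.c (T.b (T.l 1) (T.l 884)) (T.a (T.l 884)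 (T.l 884))))) (T.b (T.l 1) (T.a (T.a (T.l 884) (T.l 884)) (T.a (T.l 884) (T.l 884))))) (T.c (T.b (T.l 1) (T.a (T.c (T.b (T.l 1) (T.l 884)) (T.a (T.l 884) (T.l 884))) (T.a (T.l 884) (T.l 884)))) (T.b (T.l 1) (T.a (T.l 884) (T.l 884))))))))) (T.b (T.l 1) (T.a (T.c (T.b (T.l 1) (T.a (T.c (T.b (T.l 1) (T.a (T.l 884) (T.l 884))) (T.b (T.l 1) (T.a (T.l 884) (T.l 884)))) (T.c (T.b (T.l 1) (T.a (T.l 884) (T.l 884))) (T.b (T.l 1) (T.a (T.l 884) (T.l 884)))))) (T.b (T.l 1) (T.a (T.c (T.b (T.l 1) (T.a (T.l 884) (T.l 884))) (T.b (T.l 1) (T.l 884))) (T.c (T.b (T.l 1) (T.a (T.l 884) (T.l 884))) (T.b (T.l 1) (T.l 884)))))) (T.c (T.b (T.l 1) (T.a (T.c (T.b (T.l 1) (T.a (T.l 884) (T.l 884))) (T.b (T.l 1) (T.a (T.l 884) (T.l 884)))) (T.c (T.b (T.l 1) (T.a (T.l 884) (T.l 884))) (T.b (T.l 1)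 (T.a (T.l 884) (T.l 884)))))) (T.b (T.l 1) (T.a (T.c (T.b (T.l 1) (T.l 884)) (T.b (T.l 1) (T.l 884))) (T.c (T.b (T.l 1) (T.l 884)) (T.b (T.l 1) (T.l 884))))))))))), by decide +kernel⟩

def B101L_200_13_4094_8 :
    ∃ t, chk3 (onCell 0 67108864 0 1073741824 67108864 67108864 (corTK [[⟨0, 1, 2, 33554432⟩, ⟨1, 0, 1, 33554432⟩, ⟨2, 1, 0, 16777216⟩, ⟨0, 0, 0, 1023410176⟩, ⟨0, 1, 0, 150994944⟩, ⟨1, 0, 0, 150994944⟩, ⟨1, 1, 0, 1023410176⟩]] false 3 c0N cB101L gN2q1 gN0q1 gN0q0 gN1q0 true true)) t 13 4094 8 = true :=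
  ⟨(T.l 1), by decide +kernel⟩

def B101L_200_26_4095_8 :
    ∃ t, chk3 (onCell 0 67108864 0 1073741824 67108864 67108864 (corTK [[⟨0, 1, 2, 33554432⟩, ⟨1, 0, 1, 33554432⟩, ⟨2, 1, 0, 16777216⟩, ⟨0, 0, 0, 1023410176⟩, ⟨0, 1, 0, 150994944⟩, ⟨1, 0, 0, 150994944⟩, ⟨1, 1, 0, 1023410176⟩]] false 3 c0N cB101L gN2q1 gN0q1 gN0q0 gN1q0 true true)) t 26 4095 8 = true :=
  ⟨(T.c (T.b (T.l 1) (T.a (T.c (T.b (T.l 1) (T.a (T.c (T.b (T.l 1) (T.a (T.c (T.b (T.l 1) (T.a (T.c (T.b (T.l 1) (T.l 884)) (T.b (T.l 1) (T.l 884))) (T.c (T.b (T.l 1) (T.l 884)) (T.b (T.l 1) (T.l 884))))) (T.b (T.l 1) (T.a (T.c (T.b (T.l 1) (T.l 884)) (T.b (T.l 1) (T.l 884))) (T.c (T.b (T.l 1) (T.l 884)) (T.b (T.l 1) (T.l 884)))))) (T.c (T.b (T.l 1) (T.a (T.c (T.b (T.l 1) (T.l 884)) (T.b (T.l 1) (T.l 884))) (T.c (T.b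 (T.l 1) (T.l 884)) (T.b (T.l 1) (T.l 884))))) (T.b (T.l 1) (T.a (T.c (T.b (T.l 1) (T.l 884)) (T.b (T.l 1) (T.l 884))) (T.c (T.b (T.l 1) (T.l 884)) (T.a (T.l 884) (T.l 884)))))))) (T.b (T.l 1) (T.a (T.c (T.b (T.l 1) (T.a (T.c (T.b (T.l 1) (T.l 884)) (T.a (T.l 884) (T.l 884))) (T.c (T.b (T.l 1) (T.l 884)) (T.a (T.l 884) (T.l 884))))) (T.b (T.l 1) (T.a (T.a (T.l 884) (T.l 884)) (T.l 884)))) (T.c (T.b (T.l 1) (T.a (T.a (T.l 884) (T.l 884)) (T.l 884))) (T.b (T.l 1) (T.a (T.l 884) (T.l 884))))))) (T.c (T.b (T.l 1) (T.a (T.c (T.b (T.l 1) (T.a (T.c (T.b (T.l 1) (T.l 884)) (T.b (T.l 1) (T.l 884))) (T.c (T.b (T.l 1) (T.l 884)) (T.b (T.l 1) (T.l 884))))) (T.b (T.l 1) (T.a (T.c (T.b (T.l 1) (T.l 884)) (T.l 884)) (T.a (T.l 884) (T.l 884))))) (T.c (T.b (T.l 1) (T.a (T.c (T.b (T.l 1) (T.l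 884)) (T.b (T.l 1) (T.l 884))) (T.c (T.b (T.l 1) (T.l 884)) (T.b (T.l 1) (T.l 884))))) (T.b (T.l 1) (T.a (T.a (T.l 884) (T.l 884)) (T.l 884)))))) (T.b (T.l 1) (T.a (T.c (T.b (T.l 1) (T.a (T.l 884) (T.l 884))) (T.b (T.l 1) (T.a (T.l 884) (T.l 884)))) (T.c (T.b (T.l 1) (T.a (T.l 884) (T.l 884))) (T.b (T.l 1) (T.l 884)))))))) (T.b (T.l 1) (T.a (T.c (T.b (T.l 1) (T.a (T.c (T.b (T.l 1) (T.a (T.l 884) (T.l 884))) (T.b (T.l 1) (T.l 884))) (T.c (T.b (T.l 1) (T.a (T.l 884) (T.l 884))) (T.b (T.l 1) (T.l 884))))) (T.b (T.l 1) (T.a (T.c (T.b (T.l 1) (T.l 884)) (T.b (T.l 1) (T.l 884))) (T.c (T.b (T.l 1) (T.l 884)) (T.b (T.l 1) (T.l 884)))))) (T.c (T.b (T.l 1) (T.a (T.c (T.b (T.l 1) (T.l 884)) (T.b (T.l 1) (T.l 884))) (T.c (T.b (T.l 1) (T.l 884)) (T.b (T.l 1) (T.l 884))))) (T.b (T.l 1)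 (T.a (T.c (T.b (T.l 1) (T.l 884)) (T.b (T.l 1) (T.l 884))) (T.c (T.b (T.l 1) (T.l 884)) (T.b (T.l 1) (T.l 884))))))))) (T.c (T.b (T.l 1) (T.a (T.c (T.b (T.l 1) (T.a (T.c (T.b (T.l 1) (T.a (T.c (T.b (T.l 1) (T.l 884)) (T.a (T.l 884) (T.l 884))) (T.c (T.b (T.l 1) (T.l 884)) (T.l 884)))) (T.b (T.l 1) (T.a (T.l 884) (T.l 884)))) (T.c (T.b (T.l 1) (T.a (T.a (T.l 884) (T.l 884)) (T.l 884))) (T.b (T.l 1) (T.a (T.l 884) (T.l 884)))))) (T.b (T.l 1) (T.a (T.c (T.b (T.l 1) (T.l 884)) (T.b (T.l 1) (T.l 884))) (T.c (T.b (T.l 1) (T.l 884)) (T.b (T.l 1) (T.l 884)))))) (T.c (T.b (T.l 1) (T.a (T.c (T.b (T.l 1) (T.a (T.c (T.a (T.l 884) (T.l 884)) (T.l 884)) (T.a (T.l 884) (T.l 884)))) (T.b (T.l 1) (T.a (T.l 884) (T.l 884)))) (T.c (T.b (T.l 1) (T.a (T.a (T.l 884) (T.l 884)) (T.a (T.l 884)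 (T.l 884)))) (T.b (T.l 1) (T.a (T.l 884) (T.l 884)))))) (T.b (T.l 1) (T.a (T.c (T.b (T.l 1) (T.l 884)) (T.b (T.l 1) (T.l 884))) (T.c (T.b (T.l 1) (T.l 884)) (T.b (T.l 1) (T.l 884)))))))) (T.b (T.l 1) (T.a (T.c (T.b (T.l 1) (T.a (T.c (T.b (T.l 1) (T.l 884)) (T.b (T.l 1) (T.l 884))) (T.c (T.b (T.l 1) (T.l 884)) (T.b (T.l 1) (T.l 884))))) (T.b (T.l 1) (T.a (T.c (T.b (T.l 1) (T.l 884)) (T.b (T.l 1) (T.l 884))) (T.c (T.b (T.l 1) (T.l 884)) (T.b (T.l 1) (T.l 884)))))) (T.c (T.b (T.l 1) (T.a (T.c (T.b (T.l 1) (T.l 884)) (T.b (T.l 1) (T.l 884))) (T.c (T.b (T.l 1) (T.l 884)) (T.b (T.l 1) (T.l 884))))) (T.b (T.l 1) (T.a (T.c (T.b (T.l 1) (T.l 884)) (T.b (T.l 1) (T.l 884))) (T.c (T.b (T.l 1) (T.l 884)) (T.b (T.l 1) (T.l 884))))))))))) (T.b (T.l 1) (T.a (T.c (T.b (T.l 1) (T.a (T.c (T.b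 (T.l 1) (T.a (T.c (T.b (T.l 1) (T.l 884)) (T.b (T.l 1) (T.l 884))) (T.c (T.b (T.l 1) (T.l 884)) (T.b (T.l 1) (T.l 884))))) (T.b (T.l 1) (T.a (T.c (T.b (T.l 1) (T.l 884)) (T.b (T.l 1) (T.l 884))) (T.c (T.b (T.l 1) (T.l 884)) (T.b (T.l 1) (T.l 884)))))) (T.c (T.b (T.l 1) (T.a (T.c (T.b (T.l 1) (T.l 884)) (T.b (T.l 1) (T.l 884))) (T.c (T.b (T.l 1) (T.l 884)) (T.b (T.l 1) (T.l 884))))) (T.b (T.l 1) (T.a (T.c (T.b (T.l 1) (T.l 884)) (T.b (T.l 1) (T.l 884))) (T.c (T.b (T.l 1) (T.l 884)) (T.b (T.l 1) (T.l 884)))))))) (T.b (T.l 1) (T.a (T.c (T.b (T.l 1) (T.a (T.c (T.b (T.l 1) (T.l 884)) (T.b (T.l 1) (T.l 884))) (T.c (T.b (T.l 1) (T.l 884)) (T.b (T.l 1) (T.l 884))))) (T.b (T.l 1) (T.a (T.c (T.b (T.l 1) (T.l 884)) (T.b (T.l 1) (T.l 884))) (T.c (T.b (T.l 1) (T.l 884)) (T.b (T.l 1)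 (T.l 884)))))) (T.c (T.b (T.l 1) (T.a (T.c (T.b (T.l 1) (T.l 884)) (T.b (T.l 1) (T.l 884))) (T.c (T.b (T.l 1) (T.l 884)) (T.b (T.l 1) (T.l 884))))) (T.b (T.l 1) (T.a (T.c (T.b (T.l 1) (T.l 884)) (T.b (T.l 1) (T.l 884))) (T.c (T.b (T.l 1) (T.l 884)) (T.b (T.l 1) (T.l 884))))))))) (T.c (T.b (T.l 1) (T.a (T.c (T.b (T.l 1) (T.a (T.c (T.b (T.l 1) (T.l 884)) (T.b (T.l 1) (T.l 884))) (T.c (T.b (T.l 1) (T.l 884)) (T.b (T.l 1) (T.l 884))))) (T.b (T.l 1) (T.a (T.c (T.b (T.l 1) (T.l 884)) (T.b (T.l 1) (T.l 884))) (T.c (T.b (T.l 1) (T.l 884)) (T.b (T.l 1) (T.l 884)))))) (T.c (T.b (T.l 1) (T.a (T.c (T.b (T.l 1) (T.l 884)) (T.b (T.l 1) (T.l 884))) (T.c (T.b (T.l 1) (T.l 884)) (T.b (T.l 1) (T.l 884))))) (T.b (T.l 1) (T.a (T.c (T.b (T.l 1) (T.l 884)) (T.b (T.l 1) (T.l 884))) (T.c (T.b (T.l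 1) (T.l 884)) (T.b (T.l 1) (T.l 884)))))))) (T.b (T.l 1) (T.a (T.c (T.b (T.l 1) (T.a (T.c (T.b (T.l 1) (T.l 884)) (T.b (T.l 1) (T.l 884))) (T.c (T.b (T.l 1) (T.l 884)) (T.b (T.l 1) (T.l 884))))) (T.b (T.l 1) (T.a (T.c (T.b (T.l 1) (T.l 884)) (T.b (T.l 1) (T.l 884))) (T.c (T.b (T.l 1) (T.l 884)) (T.a (T.l 884) (T.l 884)))))) (T.c (T.b (T.l 1) (T.a (T.c (T.b (T.l 1) (T.l 884)) (T.b (T.l 1) (T.l 884))) (T.c (T.b (T.l 1) (T.l 884)) (T.b (T.l 1) (T.l 884))))) (T.b (T.l 1) (T.a (T.c (T.b (T.l 1) (T.l 884)) (T.a (T.l 884) (T.l 884))) (T.c (T.a (T.l 884) (T.l 884)) (T.a (T.l 884) (T.l 884)))))))))))), by decide +kernel⟩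

def B101L_200_27_4095_8 :
    ∃ t, chk3 (onCell 0 67108864 0 1073741824 67108864 67108864 (corTK [[⟨0, 1, 2, 33554432⟩, ⟨1, 0, 1, 33554432⟩, ⟨2, 1, 0, 16777216⟩, ⟨0, 0, 0, 1023410176⟩, ⟨0, 1, 0, 150994944⟩, ⟨1, 0, 0, 150994944⟩, ⟨1, 1, 0, 1023410176⟩]] false 3 c0N cB101L gN2q1 gN0q1 gN0q0 gN1q0 true true)) t 27 4095 8 = true :=
  ⟨(T.c (T.b (T.l 1) (T.a (T.c (T.b (T.l 1) (T.a (T.c (T.b (T.l 1) (T.a (T.c (T.b (T.l 1) (T.a (T.a (T.l 884) (T.l 884)) (T.a (T.l 884) (T.l 884)))) (T.b (T.l 1) (T.a (T.l 884) (T.l 884)))) (T.c (T.b (T.l 1) (T.a (T.a (T.l 884) (T.l 884)) (T.a (T.l 884) (T.l 884)))) (T.b (T.l 1) (T.a (T.l 884) (T.l 884)))))) (T.b (T.l 1) (T.a (T.c (T.b (T.l 1) (T.l 884)) (T.b (T.l 1) (T.l 884))) (T.c (T.b (T.l 1) (T.l 884)) (T.b (T.l 1) (T.l 884)))))) (T.c (T.b (T.l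 1) (T.a (T.c (T.b (T.l 1) (T.a (T.l 884) (T.l 884))) (T.b (T.l 1) (T.a (T.l 884) (T.l 884)))) (T.c (T.b (T.l 1) (T.a (T.l 884) (T.l 884))) (T.b (T.l 1) (T.l 884))))) (T.b (T.l 1) (T.a (T.c (T.b (T.l 1) (T.l 884)) (T.b (T.l 1) (T.l 884))) (T.c (T.b (T.l 1) (T.l 884)) (T.b (T.l 1) (T.l 884)))))))) (T.b (T.l 1) (T.a (T.c (T.b (T.l 1) (T.a (T.c (T.b (T.l 1) (T.l 884)) (T.b (T.l 1) (T.l 884))) (T.c (T.b (T.l 1) (T.l 884)) (T.b (T.l 1) (T.l 884))))) (T.b (T.l 1) (T.a (T.c (T.b (T.l 1) (T.l 884)) (T.b (T.l 1) (T.l 884))) (T.c (T.b (T.l 1) (T.l 884)) (T.b (T.l 1) (T.l 884)))))) (T.c (T.b (T.l 1) (T.a (T.c (T.b (T.l 1) (T.l 884)) (T.b (T.l 1) (T.l 884))) (T.c (T.b (T.l 1) (T.l 884)) (T.b (T.l 1) (T.l 884))))) (T.b (T.l 1) (T.a (T.c (T.b (T.l 1) (T.l 884)) (T.b (T.l 1) (T.l 884)))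 (T.c (T.b (T.l 1) (T.l 884)) (T.b (T.l 1) (T.l 884))))))))) (T.c (T.b (T.l 1) (T.a (T.c (T.b (T.l 1) (T.a (T.c (T.b (T.l 1) (T.a (T.l 884) (T.l 884))) (T.b (T.l 1) (T.l 884))) (T.c (T.b (T.l 1) (T.l 884)) (T.b (T.l 1) (T.l 884))))) (T.b (T.l 1) (T.a (T.c (T.b (T.l 1) (T.l 884)) (T.b (T.l 1) (T.l 884))) (T.c (T.b (T.l 1) (T.l 884)) (T.b (T.l 1) (T.l 884)))))) (T.c (T.b (T.l 1) (T.a (T.c (T.b (T.l 1) (T.a (T.l 884) (T.l 884))) (T.b (T.l 1) (T.l 884))) (T.c (T.b (T.l 1) (T.a (T.l 884) (T.a (T.l 884) (T.l 884)))) (T.b (T.l 1) (T.a (T.l 884) (T.l 884)))))) (T.b (T.l 1) (T.a (T.c (T.b (T.l 1) (T.l 884)) (T.b (T.l 1) (T.l 884))) (T.c (T.b (T.l 1) (T.a (T.l 884) (T.l 884))) (T.b (T.l 1) (T.a (T.l 884) (T.l 884))))))))) (T.b (T.l 1) (T.a (T.c (T.b (T.l 1) (T.a (T.c (T.b (T.l 1) (T.l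 884)) (T.b (T.l 1) (T.l 884))) (T.c (T.b (T.l 1) (T.l 884)) (T.b (T.l 1) (T.l 884))))) (T.b (T.l 1) (T.a (T.c (T.b (T.l 1) (T.l 884)) (T.b (T.l 1) (T.l 884))) (T.c (T.b (T.l 1) (T.l 884)) (T.b (T.l 1) (T.l 884)))))) (T.c (T.b (T.l 1) (T.a (T.c (T.b (T.l 1) (T.l 884)) (T.b (T.l 1) (T.l 884))) (T.c (T.b (T.l 1) (T.l 884)) (T.b (T.l 1) (T.l 884))))) (T.b (T.l 1) (T.a (T.c (T.b (T.l 1) (T.l 884)) (T.b (T.l 1) (T.l 884))) (T.c (T.b (T.l 1) (T.l 884)) (T.b (T.l 1) (T.l 884))))))))))) (T.b (T.l 1) (T.a (T.c (T.b (T.l 1) (T.a (T.c (T.b (T.l 1) (T.a (T.c (T.b (T.l 1) (T.l 884)) (T.b (T.l 1) (T.l 884))) (T.c (T.b (T.l 1) (T.l 884)) (T.b (T.l 1) (T.l 884))))) (T.b (T.l 1) (T.a (T.c (T.b (T.l 1) (T.l 884)) (T.b (T.l 1) (T.l 884))) (T.c (T.b (T.l 1) (T.l 884)) (T.b (T.l 1) (T.l 884))))))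 (T.c (T.b (T.l 1) (T.a (T.c (T.b (T.l 1) (T.l 884)) (T.b (T.l 1) (T.l 884))) (T.c (T.b (T.l 1) (T.l 884)) (T.b (T.l 1) (T.l 884))))) (T.b (T.l 1) (T.a (T.c (T.b (T.l 1) (T.l 884)) (T.a (T.l 884) (T.l 884))) (T.c (T.b (T.l 1) (T.l 884)) (T.a (T.l 884) (T.l 884)))))))) (T.b (T.l 1) (T.a (T.c (T.b (T.l 1) (T.a (T.c (T.b (T.l 1) (T.l 884)) (T.a (T.l 884) (T.l 884))) (T.c (T.a (T.l 884) (T.l 884)) (T.a (T.l 884) (T.l 884))))) (T.b (T.l 1) (T.a (T.a (T.l 884) (T.l 884)) (T.l 884)))) (T.c (T.b (T.l 1) (T.a (T.a (T.l 884) (T.l 884)) (T.l 884))) (T.b (T.l 1) (T.a (T.l 884) (T.l 884))))))) (T.c (T.b (T.l 1) (T.a (T.c (T.b (T.l 1) (T.a (T.c (T.b (T.l 1) (T.l 884)) (T.b (T.l 1) (T.l 884))) (T.c (T.b (T.l 1) (T.l 884)) (T.b (T.l 1) (T.l 884))))) (T.b (T.l 1) (T.a (T.c (T.a (T.l 884)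 (T.l 884)) (T.l 884)) (T.a (T.l 884) (T.l 884))))) (T.c (T.b (T.l 1) (T.a (T.c (T.b (T.l 1) (T.l 884)) (T.b (T.l 1) (T.l 884))) (T.c (T.b (T.l 1) (T.l 884)) (T.b (T.l 1) (T.l 884))))) (T.b (T.l 1) (T.a (T.c (T.b (T.l 1) (T.l 884)) (T.a (T.l 884) (T.l 884))) (T.c (T.b (T.l 1) (T.l 884)) (T.b (T.l 1) (T.l 884)))))))) (T.b (T.l 1) (T.a (T.c (T.b (T.l 1) (T.a (T.l 884) (T.l 884))) (T.b (T.l 1) (T.a (T.l 884) (T.l 884)))) (T.c (T.b (T.l 1) (T.a (T.l 884) (T.c (T.b (T.l 1) (T.l 884)) (T.a (T.l 884) (T.l 884))))) (T.b (T.l 1) (T.a (T.l 884) (T.a (T.l 884) (T.l 884))))))))))), by decide +kernel⟩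

def B101L_200_13_2047_9 :
    ∃ t, chk3 (onCell 0 67108864 0 1073741824 67108864 67108864 (corTK [[⟨0, 1, 2, 33554432⟩, ⟨1, 0, 1, 33554432⟩, ⟨2, 1, 0, 16777216⟩, ⟨0, 0, 0, 1023410176⟩, ⟨0, 1, 0, 150994944⟩, ⟨1, 0, 0, 150994944⟩, ⟨1, 1, 0, 1023410176⟩]] false 3 c0N cB101L gN2q1 gN0q1 gN0q0 gN1q0 true true)) t 13 2047 9 = true :=
  ⟨(T.b (T.l 1) (T.a (T.c (T.b (T.l 1) (T.a (T.c (T.b (T.l 1) (T.a (T.c (T.b (T.l 1) (T.a (T.c (T.b (T.l 1) (T.l 884)) (T.b (T.l 1) (T.l 884))) (T.c (T.b (T.l 1) (T.l 884)) (T.b (T.l 1) (T.l 884))))) (T.b (T.l 1) (T.a (T.c (T.b (T.l 1) (T.l 884)) (T.a (T.l 884) (T.l 884))) (T.c (T.b (T.l 1) (T.l 884)) (T.a (T.l 884) (T.l 884)))))) (T.c (T.b (T.l 1) (T.a (T.c (T.b (T.l 1) (T.l 884)) (T.b (T.l 1) (T.l 884))) (T.c (T.b (T.l 1) (T.l 884)) (T.a (T.l 884)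 (T.l 884))))) (T.b (T.l 1) (T.a (T.a (T.l 884) (T.l 884)) (T.a (T.l 884) (T.l 884))))))) (T.b (T.l 1) (T.a (T.c (T.b (T.l 1) (T.a (T.a (T.l 884) (T.l 884)) (T.l 884))) (T.b (T.l 1) (T.a (T.l 884) (T.l 884)))) (T.c (T.b (T.l 1) (T.a (T.l 884) (T.l 884))) (T.b (T.l 1) (T.a (T.l 884) (T.l 884))))))) (T.c (T.b (T.l 1) (T.a (T.c (T.b (T.l 1) (T.a (T.a (T.l 884) (T.l 884)) (T.a (T.l 884) (T.l 884)))) (T.b (T.l 1) (T.a (T.l 884) (T.l 884)))) (T.c (T.b (T.l 1) (T.a (T.a (T.l 884) (T.l 884)) (T.l 884))) (T.b (T.l 1) (T.a (T.l 884) (T.l 884)))))) (T.b (T.l 1) (T.a (T.c (T.b (T.l 1) (T.a (T.l 884) (T.l 884))) (T.b (T.l 1) (T.l 884))) (T.c (T.b (T.l 1) (T.a (T.l 884) (T.l 884))) (T.b (T.l 1) (T.l 884)))))))) (T.b (T.l 1) (T.a (T.c (T.b (T.l 1) (T.a (T.c (T.b (T.l 1) (T.a (T.l 884) (T.l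 884))) (T.b (T.l 1) (T.l 884))) (T.c (T.b (T.l 1) (T.l 884)) (T.b (T.l 1) (T.l 884))))) (T.b (T.l 1) (T.a (T.c (T.b (T.l 1) (T.l 884)) (T.b (T.l 1) (T.l 884))) (T.c (T.b (T.l 1) (T.l 884)) (T.b (T.l 1) (T.l 884)))))) (T.c (T.b (T.l 1) (T.a (T.c (T.b (T.l 1) (T.l 884)) (T.b (T.l 1) (T.l 884))) (T.c (T.b (T.l 1) (T.l 884)) (T.b (T.l 1) (T.l 884))))) (T.b (T.l 1) (T.a (T.c (T.b (T.l 1) (T.l 884)) (T.b (T.l 1) (T.l 884))) (T.c (T.b (T.l 1) (T.l 884)) (T.b (T.l 1) (T.l 884))))))))) (T.c (T.b (T.l 1) (T.a (T.c (T.b (T.l 1) (T.a (T.c (T.b (T.l 1) (T.a (T.l 884) (T.l 884))) (T.b (T.l 1) (T.a (T.l 884) (T.l 884)))) (T.c (T.b (T.l 1) (T.a (T.l 884) (T.l 884))) (T.b (T.l 1) (T.l 884))))) (T.b (T.l 1) (T.a (T.c (T.b (T.l 1) (T.l 884)) (T.b (T.l 1) (T.l 884))) (T.c (T.b (T.l 1) (T.l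 884)) (T.b (T.l 1) (T.l 884)))))) (T.c (T.b (T.l 1) (T.a (T.c (T.b (T.l 1) (T.l 884)) (T.b (T.l 1) (T.l 884))) (T.c (T.b (T.l 1) (T.a (T.l 884) (T.l 884))) (T.b (T.l 1) (T.a (T.l 884) (T.l 884)))))) (T.b (T.l 1) (T.a (T.c (T.b (T.l 1) (T.l 884)) (T.b (T.l 1) (T.l 884))) (T.c (T.b (T.l 1) (T.a (T.l 884) (T.l 884))) (T.b (T.l 1) (T.a (T.l 884) (T.l 884))))))))) (T.b (T.l 1) (T.a (T.c (T.b (T.l 1) (T.a (T.c (T.b (T.l 1) (T.l 884)) (T.b (T.l 1) (T.l 884))) (T.c (T.b (T.l 1) (T.l 884)) (T.b (T.l 1) (T.l 884))))) (T.b (T.l 1) (T.a (T.c (T.b (T.l 1) (T.l 884)) (T.b (T.l 1) (T.l 884))) (T.c (T.b (T.l 1) (T.l 884)) (T.b (T.l 1) (T.l 884)))))) (T.c (T.b (T.l 1) (T.a (T.c (T.b (T.l 1) (T.l 884)) (T.b (T.l 1) (T.l 884))) (T.c (T.b (T.l 1) (T.a (T.l 884) (T.l 884))) (T.b (T.l 1) (T.a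 (T.l 884) (T.l 884)))))) (T.b (T.l 1) (T.a (T.c (T.b (T.l 1) (T.l 884)) (T.a (T.l 884) (T.l 884))) (T.c (T.b (T.l 1) (T.l 884)) (T.b (T.l 1) (T.l 884))))))))))), by decide +kernel⟩

def B101L_200_6_1023_5 :
    ∃ t, chk3 (onCell 0 67108864 0 1073741824 67108864 67108864 (corTK [[⟨0, 1, 2, 33554432⟩, ⟨1, 0, 1, 33554432⟩, ⟨2, 1, 0, 16777216⟩, ⟨0, 0, 0, 1023410176⟩, ⟨0, 1, 0, 150994944⟩, ⟨1, 0, 0, 150994944⟩, ⟨1, 1, 0, 1023410176⟩]] false 3 c0N cB101L gN2q1 gN0q1 gN0q0 gN1q0 true true)) t 6 1023 5 = true :=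
  ⟨(T.b (T.l 1) (T.a (T.c (T.b (T.l 1) (T.a (T.c (T.b (T.l 1) (T.a (T.c (T.b (T.l 1) (T.a (T.c (T.b (T.l 1) (T.l 884)) (T.b (T.l 1) (T.l 884))) (T.c (T.b (T.l 1) (T.l 884)) (T.b (T.l 1) (T.l 884))))) (T.b (T.l 1) (T.a (T.c (T.b (T.l 1) (T.l 884)) (T.b (T.l 1) (T.l 884))) (T.c (T.b (T.l 1) (T.l 884)) (T.b (T.l 1) (T.l 884)))))) (T.c (T.b (T.l 1) (T.a (T.c (T.b (T.l 1) (T.l 884)) (T.b (T.l 1) (T.l 884))) (T.c (T.b (T.l 1) (T.l 884)) (T.b (T.l 1) (T.l 884))))) (T.b (T.l 1) (T.a (T.c (T.b (T.l 1) (T.l 884)) (T.b (T.l 1) (T.l 884))) (T.c (T.b (T.l 1) (T.l 884)) (T.b (T.l 1) (T.l 884)))))))) (T.b (T.l 1) (T.a (T.c (T.b (T.l 1) (T.a (T.c (T.a (T.l 884) (T.l 884)) (T.a (T.l 884) (T.l 884))) (T.c (T.b (T.l 1) (T.l 884)) (T.a (T.l 884) (T.l 884))))) (T.b (T.l 1) (T.a (T.a (T.l 884)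 (T.l 884)) (T.a (T.l 884) (T.l 884))))) (T.c (T.b (T.l 1) (T.a (T.c (T.b (T.l 1) (T.l 884)) (T.b (T.l 1) (T.l 884))) (T.c (T.b (T.l 1) (T.l 884)) (T.b (T.l 1) (T.l 884))))) (T.b (T.l 1) (T.a (T.a (T.l 884) (T.l 884)) (T.a (T.l 884) (T.l 884)))))))) (T.c (T.b (T.l 1) (T.a (T.c (T.b (T.l 1) (T.a (T.c (T.b (T.l 1) (T.l 884)) (T.b (T.l 1) (T.l 884))) (T.c (T.b (T.l 1) (T.l 884)) (T.b (T.l 1) (T.l 884))))) (T.b (T.l 1) (T.a (T.c (T.b (T.l 1) (T.l 884)) (T.b (T.l 1) (T.l 884))) (T.c (T.b (T.l 1) (T.l 884)) (T.b (T.l 1) (T.l 884)))))) (T.c (T.b (T.l 1) (T.a (T.c (T.b (T.l 1) (T.l 884)) (T.b (T.l 1) (T.l 884))) (T.c (T.b (T.l 1) (T.l 884)) (T.b (T.l 1) (T.l 884))))) (T.b (T.l 1) (T.a (T.c (T.b (T.l 1) (T.l 884)) (T.b (T.l 1) (T.l 884))) (T.c (T.b (T.l 1) (T.l 884)) (T.b (T.l 1)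 (T.l 884)))))))) (T.b (T.l 1) (T.a (T.c (T.b (T.l 1) (T.a (T.c (T.b (T.l 1) (T.l 884)) (T.b (T.l 1) (T.l 884))) (T.c (T.b (T.l 1) (T.l 884)) (T.b (T.l 1) (T.l 884))))) (T.b (T.l 1) (T.a (T.a (T.l 884) (T.l 884)) (T.a (T.l 884) (T.l 884))))) (T.c (T.b (T.l 1) (T.a (T.c (T.b (T.l 1) (T.l 884)) (T.b (T.l 1) (T.l 884))) (T.c (T.b (T.l 1) (T.l 884)) (T.a (T.l 884) (T.l 884))))) (T.b (T.l 1) (T.a (T.a (T.l 884) (T.l 884)) (T.a (T.l 884) (T.l 884)))))))))) (T.b (T.l 1) (T.a (T.c (T.b (T.l 1) (T.a (T.c (T.b (T.l 1) (T.a (T.l 884) (T.l 884))) (T.b (T.l 1) (T.a (T.l 884) (T.l 884)))) (T.c (T.b (T.l 1) (T.a (T.a (T.l 884) (T.l 884)) (T.a (T.l 884) (T.l 884)))) (T.b (T.l 1) (T.a (T.l 884) (T.l 884)))))) (T.b (T.l 1) (T.a (T.c (T.b (T.l 1) (T.a (T.l 884) (T.l 884))) (T.b (T.l 1) (T.a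 (T.l 884) (T.l 884)))) (T.c (T.b (T.l 1) (T.a (T.l 884) (T.l 884))) (T.b (T.l 1) (T.a (T.l 884) (T.l 884))))))) (T.c (T.b (T.l 1) (T.a (T.c (T.b (T.l 1) (T.a (T.l 884) (T.l 884))) (T.b (T.l 1) (T.a (T.l 884) (T.l 884)))) (T.c (T.b (T.l 1) (T.a (T.l 884) (T.l 884))) (T.b (T.l 1) (T.a (T.l 884) (T.l 884)))))) (T.b (T.l 1) (T.a (T.c (T.b (T.l 1) (T.a (T.l 884) (T.l 884))) (T.b (T.l 1) (T.a (T.l 884) (T.l 884)))) (T.c (T.b (T.l 1) (T.a (T.l 884) (T.l 884))) (T.b (T.l 1) (T.a (T.l 884) (T.l 884)))))))))) (T.c (T.b (T.l 1) (T.a (T.c (T.b (T.l 1) (T.a (T.c (T.b (T.l 1) (T.a (T.c (T.b (T.l 1) (T.l 884)) (T.b (T.l 1) (T.l 884))) (T.c (T.b (T.l 1) (T.l 884)) (T.b (T.l 1) (T.l 884))))) (T.b (T.l 1) (T.a (T.c (T.b (T.l 1) (T.l 884)) (T.b (T.l 1) (T.l 884))) (T.c (T.b (T.l 1) (T.l 884))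 (T.b (T.l 1) (T.l 884)))))) (T.c (T.b (T.l 1) (T.a (T.c (T.b (T.l 1) (T.l 884)) (T.b (T.l 1) (T.l 884))) (T.c (T.b (T.l 1) (T.l 884)) (T.b (T.l 1) (T.l 884))))) (T.b (T.l 1) (T.a (T.c (T.b (T.l 1) (T.l 884)) (T.a (T.l 884) (T.l 884))) (T.c (T.a (T.l 884) (T.l 884)) (T.a (T.l 884) (T.l 884)))))))) (T.b (T.l 1) (T.a (T.c (T.b (T.l 1) (T.a (T.c (T.a (T.l 884) (T.l 884)) (T.a (T.l 884) (T.l 884))) (T.a (T.l 884) (T.l 884)))) (T.b (T.l 1) (T.a (T.l 884) (T.l 884)))) (T.c (T.b (T.l 1) (T.a (T.a (T.l 884) (T.l 884)) (T.a (T.l 884) (T.l 884)))) (T.b (T.l 1) (T.a (T.l 884) (T.l 884))))))) (T.c (T.b (T.l 1) (T.a (T.c (T.b (T.l 1) (T.a (T.c (T.b (T.l 1) (T.l 884)) (T.a (T.l 884) (T.l 884))) (T.a (T.l 884) (T.l 884)))) (T.b (T.l 1) (T.a (T.a (T.l 884) (T.l 884)) (T.l 884)))) (T.c (T.b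 (T.l 1) (T.a (T.a (T.l 884) (T.l 884)) (T.c (T.a (T.l 884) (T.l 884)) (T.a (T.l 884) (T.l 884))))) (T.b (T.l 1) (T.a (T.l 884) (T.a (T.l 884) (T.l 884))))))) (T.b (T.l 1) (T.a (T.c (T.b (T.l 1) (T.a (T.l 884) (T.l 884))) (T.b (T.l 1) (T.a (T.l 884) (T.l 884)))) (T.c (T.b (T.l 1) (T.a (T.l 884) (T.a (T.l 884) (T.l 884)))) (T.b (T.l 1) (T.a (T.l 884) (T.l 884))))))))) (T.b (T.l 1) (T.a (T.c (T.b (T.l 1) (T.a (T.c (T.b (T.l 1) (T.a (T.l 884) (T.l 884))) (T.b (T.l 1) (T.a (T.l 884) (T.l 884)))) (T.c (T.b (T.l 1) (T.a (T.l 884) (T.l 884))) (T.b (T.l 1) (T.a (T.l 884) (T.l 884)))))) (T.b (T.l 1) (T.a (T.c (T.b (T.l 1) (T.a (T.l 884) (T.l 884))) (T.b (T.l 1) (T.l 884))) (T.c (T.b (T.l 1) (T.a (T.l 884) (T.l 884))) (T.b (T.l 1) (T.l 884)))))) (T.c (T.b (T.l 1) (T.a (T.c (T.b (T.l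 1) (T.a (T.l 884) (T.l 884))) (T.b (T.l 1) (T.l 884))) (T.c (T.b (T.l 1) (T.a (T.l 884) (T.l 884))) (T.b (T.l 1) (T.a (T.l 884) (T.l 884)))))) (T.b (T.l 1) (T.a (T.c (T.b (T.l 1) (T.l 884)) (T.b (T.l 1) (T.l 884))) (T.c (T.b (T.l 1) (T.a (T.l 884) (T.l 884))) (T.a (T.l 884) (T.a (T.l 884) (T.l 884)))))))))))), by decide +kernel⟩

end Pool.Agent.Strip051.G.I1_16_1_8.Tab.CN
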