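import Pool.Agent.Strip051.G.I1_16_1_8.Gn
import Pool.Agent.Strip051.PB.Corns
import Pool.Agent.Strip051.PB.CornK

/-! # Certificates of the aligned corners (generated) -/

set_option linter.all false

namespace Pool.Agent.Strip051.G.I1_16_1_8.Tab.CN

open Pool.Agent.Strip051.PB

def B101L_200_7_1023_2 :
    ∃ t, chk3 (onCell 0 67108864 0 1073741824 67108864 67108864 (corTK [[⟨0, 1, 2, 33554432⟩, ⟨1, 0, 1, 33554432⟩, ⟨2, 1, 0, 16777216⟩, ⟨0, 0, 0, 1023410176⟩, ⟨0, 1, 0, 150994944⟩, ⟨1, 0, 0, 150994944⟩, ⟨1, 1, 0, 1023410176⟩]] false 3 c0N cB101L gN2q1 gN0q1 gN0q0 gN1q0 true true)) t 7 1023 2 = true :=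
  ⟨(T.c (T.a (T.a (T.a (T.a (T.a (T.b (T.l 1) (T.a (T.c (T.b (T.l 1) (T.c (T.b (T.l 1) (T.a (T.c (T.b (T.l 1) (T.a (T.a (T.c (T.b (T.l 1) (T.c (T.b (T.l 1) (T.l 884)) (T.b (T.l 1) (T.l 884)))) (T.b (T.l 1) (T.c (T.b (T.l 1) (T.l 884)) (T.b (T.l 1) (T.l 884))))) (T.l 1024)) (T.l 1024))) (T.b (T.l 1) (T.a (T.a (T.c (T.b (T.l 1) (T.c (T.b (T.l 1) (T.l 884)) (T.b (T.l 1) (T.l 884)))) (T.b (T.l 1) (T.c (T.b (T.l 1) (T.l 884)) (T.b (T.l 1) (T.l 884))))) (T.l 1024)) (T.l 1024)))) (T.l 1024))) (T.b (T.l 1) (T.a (T.c (T.b (T.l 1) (T.a (T.a (T.c (T.b (T.l 1) (T.c (T.b (T.l 1) (T.l 884)) (T.b (T.l 1) (T.l 884)))) (T.b (T.l 1) (T.c (T.b (T.l 1) (T.l 884)) (T.b (T.l 1) (T.l 884))))) (T.l 1024)) (T.l 1024))) (T.b (T.l 1) (T.a (T.c (T.b (T.l 1) (T.l 884)) (T.b (T.l 1) (T.l 884))) (T.l 1024)))) (T.l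 1024))))) (T.b (T.l 1) (T.c (T.b (T.l 1) (T.a (T.c (T.b (T.l 1) (T.c (T.b (T.l 1) (T.l 884)) (T.b (T.l 1) (T.l 884)))) (T.b (T.l 1) (T.c (T.b (T.l 1) (T.l 884)) (T.b (T.l 1) (T.l 884))))) (T.l 1024))) (T.b (T.l 1) (T.a (T.c (T.b (T.l 1) (T.c (T.b (T.l 1) (T.l 884)) (T.b (T.l 1) (T.l 884)))) (T.b (T.l 1) (T.c (T.b (T.l 1) (T.l 884)) (T.l 884)))) (T.l 1024)))))) (T.l 1024))) (T.l 1024)) (T.l 1024)) (T.l 1024)) (T.l 1024)) (T.l 1024)) (T.b (T.l 1) (T.a (T.c (T.b (T.l 1) (T.a (T.c (T.b (T.l 1) (T.a (T.c (T.b (T.l 1) (T.a (T.c (T.b (T.l 1) (T.l 884)) (T.a (T.l 884) (T.l 884))) (T.c (T.b (T.l 1) (T.l 884)) (T.b (T.l 1) (T.l 884))))) (T.b (T.l 1) (T.a (T.a (T.l 884) (T.l 884)) (T.a (T.l 884) (T.l 884))))) (T.c (T.a (T.a (T.c (T.l 1024) (T.a (T.b (T.l 1) (T.l 884)) (T.l 1024))) (T.l 1024)) (T.l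 1024)) (T.b (T.l 1) (T.a (T.c (T.b (T.l 1) (T.l 884)) (T.a (T.l 884) (T.l 884))) (T.c (T.b (T.l 1) (T.l 884)) (T.b (T.l 1) (T.l 884)))))))) (T.b (T.l 1) (T.a (T.c (T.b (T.l 1) (T.a (T.a (T.l 884) (T.l 884)) (T.a (T.l 884) (T.l 884)))) (T.b (T.l 1) (T.a (T.a (T.l 884) (T.l 884)) (T.l 884)))) (T.c (T.b (T.l 1) (T.a (T.a (T.l 884) (T.l 884)) (T.a (T.l 884) (T.l 884)))) (T.b (T.l 1) (T.a (T.a (T.l 884) (T.l 884)) (T.a (T.l 884) (T.l 884)))))))) (T.c (T.a (T.a (T.c (T.l 1024) (T.a (T.c (T.l 1024) (T.a (T.c (T.l 1024) (T.a (T.b (T.l 1) (T.b (T.l 1) (T.l 884))) (T.l 1024))) (T.l 1024))) (T.l 1024))) (T.l 1024)) (T.l 1024)) (T.b (T.l 1) (T.a (T.c (T.b (T.l 1) (T.a (T.c (T.b (T.l 1) (T.l 884)) (T.a (T.l 884) (T.l 884))) (T.c (T.b (T.l 1) (T.l 884)) (T.b (T.l 1) (T.l 884))))) (T.b (T.l 1) (T.a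 (T.a (T.l 884) (T.l 884)) (T.a (T.l 884) (T.l 884))))) (T.c (T.a (T.a (T.c (T.l 1024) (T.a (T.b (T.l 1) (T.l 884)) (T.l 1024))) (T.l 1024)) (T.l 1024)) (T.b (T.l 1) (T.a (T.c (T.b (T.l 1) (T.l 884)) (T.a (T.l 884) (T.l 884))) (T.c (T.b (T.l 1) (T.l 884)) (T.b (T.l 1) (T.l 884))))))))))) (T.b (T.l 1) (T.a (T.c (T.b (T.l 1) (T.a (T.c (T.b (T.l 1) (T.a (T.l 884) (T.l 884))) (T.b (T.l 1) (T.a (T.l 884) (T.l 884)))) (T.c (T.b (T.l 1) (T.a (T.l 884) (T.l 884))) (T.b (T.l 1) (T.a (T.l 884) (T.l 884)))))) (T.b (T.l 1) (T.a (T.c (T.b (T.l 1) (T.a (T.l 884) (T.l 884))) (T.b (T.l 1) (T.a (T.l 884) (T.l 884)))) (T.c (T.b (T.l 1) (T.a (T.l 884) (T.l 884))) (T.b (T.l 1) (T.a (T.l 884) (T.l 884))))))) (T.c (T.b (T.l 1) (T.a (T.c (T.b (T.l 1) (T.a (T.l 884) (T.a (T.l 884) (T.l 884)))) (T.b (T.l 1) (T.a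 (T.l 884) (T.l 884)))) (T.c (T.b (T.l 1) (T.a (T.a (T.l 884) (T.l 884)) (T.a (T.l 884) (T.l 884)))) (T.b (T.l 1) (T.a (T.l 884) (T.a (T.l 884) (T.l 884))))))) (T.b (T.l 1) (T.a (T.c (T.b (T.l 1) (T.a (T.l 884) (T.l 884))) (T.b (T.l 1) (T.a (T.l 884) (T.l 884)))) (T.c (T.b (T.l 1) (T.a (T.l 884) (T.l 884))) (T.b (T.l 1) (T.a (T.l 884) (T.l 884)))))))))) (T.c (T.a (T.a (T.c (T.l 1024) (T.a (T.c (T.l 1024) (T.a (T.c (T.l 1024) (T.a (T.b (T.l 1) (T.c (T.l 1024) (T.b (T.l 1) (T.b (T.l 1) (T.l 884))))) (T.l 1024))) (T.l 1024))) (T.l 1024))) (T.l 1024)) (T.l 1024)) (T.b (T.l 1) (T.a (T.c (T.b (T.l 1) (T.a (T.c (T.b (T.l 1) (T.a (T.c (T.a (T.l 884) (T.l 884)) (T.a (T.l 884) (T.l 884))) (T.c (T.b (T.l 1) (T.l 884)) (T.a (T.l 884) (T.l 884))))) (T.b (T.l 1) (T.a (T.a (T.l 884) (T.l 884)) (T.a (T.l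 884) (T.l 884))))) (T.c (T.a (T.a (T.c (T.l 1024) (T.a (T.b (T.l 1) (T.l 884)) (T.l 1024))) (T.l 1024)) (T.l 1024)) (T.b (T.l 1) (T.a (T.c (T.a (T.l 884) (T.l 884)) (T.a (T.l 884) (T.l 884))) (T.c (T.b (T.l 1) (T.l 884)) (T.a (T.l 884) (T.l 884)))))))) (T.b (T.l 1) (T.a (T.c (T.b (T.l 1) (T.a (T.l 884) (T.l 884))) (T.b (T.l 1) (T.a (T.l 884) (T.l 884)))) (T.c (T.b (T.l 1) (T.a (T.a (T.l 884) (T.l 884)) (T.a (T.l 884) (T.l 884)))) (T.b (T.l 1) (T.a (T.l 884) (T.l 884))))))) (T.c (T.a (T.a (T.c (T.l 1024) (T.a (T.c (T.l 1024) (T.a (T.c (T.l 1024) (T.b (T.l 1) (T.b (T.l 1) (T.l 884)))) (T.l 1024))) (T.l 1024))) (T.l 1024)) (T.l 1024)) (T.b (T.l 1) (T.a (T.c (T.b (T.l 1) (T.a (T.a (T.l 884) (T.l 884)) (T.c (T.b (T.l 1) (T.l 884)) (T.a (T.l 884) (T.l 884))))) (T.b (T.l 1) (T.a (T.a (T.l 884)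 (T.l 884)) (T.a (T.l 884) (T.l 884))))) (T.c (T.a (T.a (T.c (T.l 1024) (T.a (T.b (T.l 1) (T.l 884)) (T.l 1024))) (T.l 1024)) (T.l 1024)) (T.b (T.l 1) (T.a (T.a (T.l 884) (T.l 884)) (T.c (T.b (T.l 1) (T.l 884)) (T.a (T.l 884) (T.l 884))))))))))))))), by decide +kernel⟩

def B101L_200_3_511_3 :
    ∃ t, chk3 (onCell 0 67108864 0 1073741824 67108864 67108864 (corTK [[⟨0, 1, 2, 33554432⟩, ⟨1, 0, 1, 33554432⟩, ⟨2, 1, 0, 16777216⟩, ⟨0, 0, 0, 1023410176⟩, ⟨0, 1, 0, 150994944⟩, ⟨1, 0, 0, 150994944⟩, ⟨1, 1, 0, 1023410176⟩]] false 3 c0N cB101L gN2q1 gN0q1 gN0q0 gN1q0 true true)) t 3 511 3 = true :=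
  ⟨(T.b (T.l 1) (T.a (T.c (T.b (T.l 1) (T.a (T.c (T.b (T.l 1) (T.a (T.c (T.b (T.l 1) (T.a (T.c (T.b (T.l 1) (T.a (T.l 884) (T.l 884))) (T.b (T.l 1) (T.l 884))) (T.c (T.b (T.l 1) (T.a (T.l 884) (T.l 884))) (T.b (T.l 1) (T.l 884))))) (T.b (T.l 1) (T.a (T.c (T.b (T.l 1) (T.l 884)) (T.a (T.l 884) (T.l 884))) (T.c (T.b (T.l 1) (T.l 884)) (T.a (T.l 884) (T.l 884)))))) (T.c (T.b (T.l 1) (T.a (T.c (T.b (T.l 1) (T.l 884)) (T.b (T.l 1) (T.l 884))) (T.c (T.b (T.l 1) (T.l 884)) (T.b (T.l 1) (T.l 884))))) (T.b (T.l 1) (T.a (T.c (T.b (T.l 1) (T.l 884)) (T.a (T.l 884) (T.l 884))) (T.c (T.b (T.l 1) (T.l 884)) (T.a (T.l 884) (T.l 884)))))))) (T.b (T.l 1) (T.a (T.c (T.b (T.l 1) (T.a (T.a (T.l 884) (T.l 884)) (T.a (T.l 884) (T.l 884)))) (T.b (T.l 1) (T.a (T.a (T.l 820) (T.l 820)) (T.a (T.l 884) (T.l 884)))))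 (T.c (T.b (T.l 1) (T.a (T.a (T.l 884) (T.l 884)) (T.a (T.l 884) (T.l 884)))) (T.b (T.l 1) (T.a (T.a (T.l 884) (T.l 884)) (T.l 884))))))) (T.c (T.b (T.l 1) (T.a (T.c (T.b (T.l 1) (T.a (T.c (T.b (T.l 1) (T.l 884)) (T.b (T.l 1) (T.l 884))) (T.c (T.b (T.l 1) (T.l 884)) (T.a (T.l 884) (T.l 884))))) (T.b (T.l 1) (T.a (T.a (T.l 884) (T.l 884)) (T.a (T.l 884) (T.l 884))))) (T.c (T.b (T.l 1) (T.a (T.c (T.a (T.l 884) (T.l 884)) (T.a (T.l 884) (T.l 884))) (T.a (T.l 884) (T.a (T.l 884) (T.l 884))))) (T.b (T.l 1) (T.a (T.a (T.l 884) (T.l 884)) (T.a (T.l 884) (T.l 884))))))) (T.b (T.l 1) (T.a (T.c (T.b (T.l 1) (T.a (T.a (T.l 884) (T.l 884)) (T.a (T.l 884) (T.l 884)))) (T.b (T.l 1) (T.a (T.l 884) (T.l 884)))) (T.c (T.b (T.l 1) (T.a (T.l 884) (T.a (T.l 884) (T.l 884)))) (T.b (T.l 1) (T.a (T.l 884) (T.a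 (T.l 884) (T.l 884)))))))))) (T.b (T.l 1) (T.a (T.c (T.b (T.l 1) (T.a (T.c (T.b (T.l 1) (T.a (T.l 884) (T.l 884))) (T.b (T.l 1) (T.a (T.l 820) (T.l 820)))) (T.c (T.b (T.l 1) (T.a (T.l 884) (T.l 884))) (T.b (T.l 1) (T.a (T.l 884) (T.l 884)))))) (T.b (T.l 1) (T.a (T.c (T.b (T.l 1) (T.a (T.l 820) (T.l 820))) (T.b (T.l 1) (T.a (T.l 816) (T.l 820)))) (T.c (T.b (T.l 1) (T.a (T.l 820) (T.l 820))) (T.b (T.l 1) (T.a (T.l 820) (T.l 820))))))) (T.c (T.b (T.l 1) (T.a (T.c (T.b (T.l 1) (T.a (T.l 884) (T.l 884))) (T.b (T.l 1) (T.a (T.l 884) (T.l 884)))) (T.c (T.b (T.l 1) (T.a (T.l 884) (T.a (T.l 884) (T.l 884)))) (T.b (T.l 1) (T.a (T.l 884) (T.a (T.l 884) (T.l 884))))))) (T.b (T.l 1) (T.a (T.c (T.b (T.l 1) (T.a (T.l 820) (T.l 820))) (T.a (T.l 884) (T.l 884))) (T.c (T.b (T.l 1) (T.a (T.l 820) (T.a (T.l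 816) (T.l 884)))) (T.a (T.l 884) (T.a (T.l 884) (T.l 884)))))))))) (T.c (T.b (T.l 1) (T.a (T.c (T.b (T.l 1) (T.a (T.c (T.b (T.l 1) (T.a (T.c (T.b (T.l 1) (T.a (T.l 884) (T.l 884))) (T.a (T.l 884) (T.l 884))) (T.c (T.b (T.l 1) (T.a (T.l 884) (T.l 884))) (T.b (T.l 1) (T.a (T.l 884) (T.l 884)))))) (T.b (T.l 1) (T.a (T.a (T.l 884) (T.l 884)) (T.a (T.l 884) (T.l 884))))) (T.c (T.b (T.l 1) (T.a (T.c (T.b (T.l 1) (T.a (T.l 884) (T.l 884))) (T.b (T.l 1) (T.a (T.l 884) (T.l 884)))) (T.c (T.b (T.l 1) (T.a (T.l 884) (T.l 884))) (T.b (T.l 1) (T.a (T.l 884) (T.l 884)))))) (T.b (T.l 1) (T.a (T.c (T.a (T.l 884) (T.a (T.l 884) (T.l 884))) (T.a (T.l 884) (T.l 884))) (T.c (T.b (T.l 1) (T.a (T.l 884) (T.l 884))) (T.a (T.l 884) (T.a (T.l 884) (T.l 884))))))))) (T.b (T.l 1) (T.a (T.c (T.b (T.l 1) (T.a (T.a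 (T.l 884) (T.l 884)) (T.a (T.l 884) (T.l 884)))) (T.b (T.l 1) (T.a (T.a (T.l 884) (T.l 884)) (T.a (T.l 884) (T.l 884))))) (T.c (T.b (T.l 1) (T.a (T.a (T.l 884) (T.l 884)) (T.a (T.l 884) (T.l 884)))) (T.b (T.l 1) (T.a (T.a (T.l 884) (T.l 884)) (T.a (T.l 884) (T.l 884)))))))) (T.c (T.b (T.l 1) (T.a (T.c (T.b (T.l 1) (T.a (T.c (T.b (T.l 1) (T.a (T.l 884) (T.l 884))) (T.b (T.l 1) (T.a (T.l 884) (T.l 884)))) (T.c (T.b (T.l 1) (T.a (T.l 884) (T.l 884))) (T.b (T.l 1) (T.a (T.l 884) (T.l 884)))))) (T.b (T.l 1) (T.a (T.c (T.b (T.l 1) (T.a (T.l 884) (T.l 884))) (T.b (T.l 1) (T.a (T.l 884) (T.l 884)))) (T.c (T.b (T.l 1) (T.a (T.l 884) (T.l 884))) (T.b (T.l 1) (T.a (T.l 884) (T.l 884))))))) (T.c (T.b (T.l 1) (T.a (T.c (T.b (T.l 1) (T.a (T.l 884) (T.l 884))) (T.b (T.l 1) (T.a (T.l 884) (T.l 884))))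 (T.c (T.b (T.l 1) (T.a (T.a (T.l 884) (T.l 884)) (T.a (T.l 884) (T.l 884)))) (T.b (T.l 1) (T.a (T.l 884) (T.l 884)))))) (T.b (T.l 1) (T.a (T.c (T.b (T.l 1) (T.a (T.l 884) (T.l 884))) (T.b (T.l 1) (T.a (T.l 884) (T.l 884)))) (T.c (T.b (T.l 1) (T.a (T.l 884) (T.l 884))) (T.b (T.l 1) (T.a (T.l 884) (T.l 884))))))))) (T.b (T.l 1) (T.a (T.c (T.b (T.l 1) (T.a (T.a (T.l 884) (T.c (T.l 884) (T.l 884))) (T.c (T.b (T.l 1) (T.l 884)) (T.a (T.l 884) (T.l 884))))) (T.b (T.l 1) (T.a (T.a (T.l 884) (T.l 884)) (T.a (T.l 884) (T.l 884))))) (T.c (T.b (T.l 1) (T.a (T.c (T.b (T.l 1) (T.a (T.l 884) (T.l 884))) (T.b (T.l 1) (T.l 884))) (T.c (T.b (T.l 1) (T.a (T.l 884) (T.l 884))) (T.b (T.l 1) (T.l 884))))) (T.b (T.l 1) (T.a (T.a (T.l 884) (T.l 884)) (T.c (T.b (T.l 1) (T.l 884)) (T.a (T.l 884) (T.l 884)))))))))))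 (T.b (T.l 1) (T.a (T.c (T.b (T.l 1) (T.a (T.c (T.b (T.l 1) (T.a (T.a (T.l 884) (T.l 884)) (T.a (T.l 884) (T.l 884)))) (T.b (T.l 1) (T.a (T.a (T.l 884) (T.l 884)) (T.l 884)))) (T.c (T.b (T.l 1) (T.a (T.a (T.l 884) (T.l 884)) (T.a (T.l 884) (T.l 884)))) (T.b (T.l 1) (T.a (T.l 884) (T.l 884)))))) (T.b (T.l 1) (T.a (T.c (T.b (T.l 1) (T.a (T.l 884) (T.l 884))) (T.b (T.l 1) (T.a (T.l 884) (T.l 884)))) (T.c (T.b (T.l 1) (T.a (T.l 884) (T.l 884))) (T.b (T.l 1) (T.a (T.l 884) (T.l 884))))))) (T.c (T.b (T.l 1) (T.a (T.c (T.b (T.l 1) (T.a (T.a (T.l 884) (T.l 884)) (T.a (T.l 884) (T.l 884)))) (T.b (T.l 1) (T.a (T.l 884) (T.a (T.l 884) (T.l 884))))) (T.c (T.b (T.l 1) (T.a (T.a (T.l 884) (T.l 884)) (T.a (T.l 884) (T.l 884)))) (T.b (T.l 1) (T.a (T.a (T.l 884) (T.l 884)) (T.a (T.l 884) (T.l 884)))))))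 (T.b (T.l 1) (T.a (T.c (T.b (T.l 1) (T.a (T.l 884) (T.l 884))) (T.b (T.l 1) (T.a (T.l 884) (T.l 884)))) (T.c (T.b (T.l 1) (T.a (T.l 884) (T.l 884))) (T.b (T.l 1) (T.a (T.l 884) (T.l 884)))))))))))), by decide +kernel⟩

end Pool.Agent.Strip051.G.I1_16_1_8.Tab.CN
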