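import Pool.Agent.Strip051.G.I1_16_1_8.Gn
import Pool.Agent.Strip051.PB.Corns
import Pool.Agent.Strip051.PB.CornK
import Pool.Agent.Strip051.G.I1_16_1_8.CNB_2
import Pool.Agent.Strip051.G.I1_16_1_8.CNB_3

/-! # Certificates of the aligned corners (generated) -/

set_option linter.all false

namespace Pool.Agent.Strip051.G.I1_16_1_8.Tab.CN

open Pool.Agent.Strip051.PB

def B022E_202 :
    ∃ t, chk3 (onCell 0 67108864 0 1073741824 67108864 67108864 (corTK [] false 3 c0N cB022E gN2q0 gN0q2 gN2q2 gN3q2 true false)) t 1 1 1 = true :=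
  ⟨(T.b (T.b (T.b (T.a (T.a (T.a (T.l 16) (T.b (T.a (T.c (T.l 0) (T.l 0)) (T.b (T.l 0) (T.l 0))) (T.l 0))) (T.a (T.b (T.a (T.l 0) (T.l 0)) (T.l 0)) (T.c (T.l 16) (T.l 0)))) (T.a (T.a (T.b (T.l 0) (T.l 0)) (T.a (T.l 0) (T.b (T.b (T.l 204) (T.l 204)) (T.l 0)))) (T.a (T.b (T.b (T.a (T.l 204) (T.l 204)) (T.l 0)) (T.l 0)) (T.b (T.a (T.b (T.l 204) (T.l 204)) (T.l 460)) (T.l 0))))) (T.a (T.a (T.a (T.l 816) (T.l 0)) (T.l 0)) (T.a (T.l 0) (T.a (T.b (T.l 0) (T.l 816)) (T.b (T.l 0) (T.l 0)))))) (T.b (T.a (T.a (T.a (T.l 816) (T.l 816)) (T.l 816)) (T.a (T.l 0) (T.a (T.l 816) (T.l 0)))) (T.a (T.a (T.a (T.l 816) (T.l 816)) (T.b (T.l 816) (T.l 816))) (T.b (T.l 0) (T.l 0))))) (T.b (T.a (T.a (T.a (T.l 816) (T.l 816)) (T.b (T.l 0) (T.l 816))) (T.a (T.b (T.l 816) (T.l 816)) (T.l 816))) (T.b (T.a (T.a (T.a (T.l 816) (T.l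 816)) (T.l 816)) (T.b (T.l 816) (T.l 816))) (T.a (T.a (T.a (T.l 816) (T.l 816)) (T.l 816)) (T.l 816))))), by decide +kernel⟩

def B022E_210 :
    ∃ t, chk3 (onCell 0 67108864 0 1073741824 67108864 67108864 (corTK [] false 3 c0N cB022E gN2q0 gN1q2 gN0q2 gN1q2 true true)) t 1 1 1 = true :=
  ⟨(T.l 2), by decide +kernel⟩

def B022E_211 :
    ∃ t, chk3 (onCell 0 67108864 0 1073741824 67108864 67108864 (corTK [] false 3 c0N cB022E gN2q0 gN1q2 gN1q2 gN2q2 true true)) t 1 1 1 = true :=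
  ⟨(T.l 2), by decide +kernel⟩

def B022E_212 :
    ∃ t, chk3 (onCell 0 67108864 0 1073741824 67108864 67108864 (corTK [] false 3 c0N cB022E gN2q0 gN1q2 gN2q2 gN3q2 true false)) t 1 1 1 = true :=
  ⟨(T.b (T.b (T.b (T.b (T.a (T.a (T.a (T.l 0) (T.a (T.l 0) (T.b (T.l 0) (T.l 0)))) (T.b (T.a (T.c (T.l 0) (T.l 0)) (T.l 0)) (T.l 0))) (T.a (T.a (T.l 0) (T.a (T.l 0) (T.b (T.l 0) (T.l 0)))) (T.a (T.b (T.a (T.l 0) (T.l 0)) (T.l 0)) (T.a (T.l 16) (T.l 0))))) (T.a (T.a (T.a (T.l 816) (T.l 0)) (T.l 0)) (T.a (T.l 0) (T.a (T.l 0) (T.l 0))))) (T.b (T.a (T.a (T.a (T.l 816) (T.l 816)) (T.l 816)) (T.a (T.l 816) (T.b (T.l 0) (T.l 0)))) (T.a (T.a (T.a (T.l 816) (T.l 816)) (T.l 816)) (T.a (T.l 816) (T.b (T.l 0) (T.l 0)))))) (T.b (T.b (T.a (T.a (T.a (T.l 816) (T.l 816)) (T.l 816)) (T.a (T.l 816) (T.l 0))) (T.a (T.a (T.a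 (T.l 816) (T.l 816)) (T.l 816)) (T.l 0))) (T.a (T.a (T.a (T.l 816) (T.l 816)) (T.b (T.l 816) (T.l 816))) (T.b (T.l 816) (T.l 816))))) (T.b (T.a (T.a (T.a (T.l 816) (T.l 816)) (T.b (T.l 0) (T.l 816))) (T.a (T.b (T.l 816) (T.l 816)) (T.l 816))) (T.b (T.a (T.a (T.a (T.l 816) (T.l 816)) (T.l 816)) (T.l 816)) (T.a (T.a (T.a (T.l 816) (T.l 816)) (T.l 816)) (T.l 816))))), by decide +kernel⟩

def B022E_220 :
    ∃ t, chk3 (onCell 0 67108864 0 1073741824 67108864 67108864 (corTK [] false 3 c0N cB022E gN2q0 gN2q2 gN0q2 gN1q2 true true)) t 1 1 1 = true :=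
  ⟨(T.l 2), by decide +kernel⟩

def B022E_221 :
    ∃ t, chk3 (onCell 0 67108864 0 1073741824 67108864 67108864 (corTK [] false 3 c0N cB022E gN2q0 gN2q2 gN1q2 gN2q2 true true)) t 1 1 1 = true :=
  ⟨(T.b (T.b (T.b (T.b (T.a (T.b (T.a (T.a (T.l 0) (T.l 2)) (T.l 2)) (T.l 2)) (T.l 2)) (T.l 2)) (T.l 2)) (T.l 2)) (T.l 2)), by decide +kernel⟩

def B022E_222 :
    ∃ t, chk3 (onCell 0 67108864 0 1073741824 67108864 67108864 (corTK [] false 3 c0N cB022E gN2q0 gN2q2 gN2q2 gN3q2 true false)) t 1 1 1 = true :=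
  ⟨(T.b (T.b (T.b (T.b (T.b (T.a (T.a (T.a (T.l 0) (T.a (T.l 0) (T.l 0))) (T.a (T.l 0) (T.l 0))) (T.b (T.a (T.a (T.l 0) (T.a (T.l 0) (T.l 0))) (T.a (T.a (T.l 0) (T.l 0)) (T.c (T.l 0) (T.l 0)))) (T.a (T.a (T.l 0) (T.l 0)) (T.a (T.l 4) (T.l 0))))) (T.a (T.a (T.a (T.l 816) (T.l 816)) (T.l 816)) (T.a (T.a (T.l 816) (T.l 0)) (T.a (T.l 0) (T.l 0))))) (T.b (T.b (T.a (T.a (T.a (T.l 816) (T.l 816)) (T.l 816)) (T.a (T.a (T.l 816) (T.l 0)) (T.a (T.l 0) (T.l 0)))) (T.a (T.a (T.a (T.l 816) (T.l 816)) (T.l 816)) (T.a (T.a (T.l 816) (T.l 0)) (T.c (T.l 0) (T.l 4))))) (T.b (T.a (T.a (T.a (T.l 816) (T.l 816)) (T.l 816)) (T.a (T.a (T.l 816) (T.l 816)) (T.c (T.l 0) (T.l 0)))) (T.a (T.a (T.a (T.l 816) (T.l 816)) (T.l 816)) (T.a (T.a (T.l 816) (T.l 816)) (T.l 4)))))) (T.b (T.b (T.b (T.a (T.a (T.a (T.l 816) (T.l 816)) (T.l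 816)) (T.a (T.a (T.l 816) (T.l 816)) (T.l 0))) (T.a (T.a (T.a (T.l 816) (T.l 816)) (T.l 816)) (T.a (T.a (T.l 816) (T.l 816)) (T.l 0)))) (T.b (T.a (T.a (T.a (T.l 816) (T.l 816)) (T.l 816)) (T.a (T.c (T.l 0) (T.l 0)) (T.l 0))) (T.a (T.a (T.a (T.l 816) (T.l 816)) (T.l 816)) (T.a (T.c (T.l 0) (T.l 0)) (T.l 0))))) (T.b (T.b (T.a (T.a (T.a (T.l 816) (T.l 816)) (T.l 816)) (T.a (T.l 0) (T.l 0))) (T.a (T.a (T.a (T.l 816) (T.l 816)) (T.l 816)) (T.a (T.l 0) (T.l 0)))) (T.b (T.a (T.a (T.a (T.l 816) (T.l 816)) (T.l 816)) (T.a (T.l 0) (T.l 0))) (T.a (T.a (T.a (T.l 816) (T.l 816)) (T.l 816)) (T.a (T.l 0) (T.l 0))))))) (T.b (T.b (T.b (T.b (T.a (T.a (T.a (T.l 816) (T.l 816)) (T.l 816)) (T.a (T.l 0) (T.l 0))) (T.a (T.a (T.a (T.l 816) (T.l 816)) (T.l 816)) (T.a (T.l 0) (T.l 816)))) (T.b (T.a (T.a (T.a (T.l 816) (T.l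 816)) (T.l 816)) (T.a (T.l 0) (T.l 816))) (T.a (T.a (T.a (T.l 816) (T.l 816)) (T.l 816)) (T.a (T.l 0) (T.l 816))))) (T.b (T.a (T.a (T.a (T.l 816) (T.l 816)) (T.l 816)) (T.a (T.l 0) (T.l 816))) (T.a (T.a (T.a (T.l 816) (T.l 816)) (T.l 816)) (T.a (T.l 0) (T.l 816))))) (T.b (T.a (T.a (T.a (T.l 816) (T.l 816)) (T.l 816)) (T.a (T.l 0) (T.l 816))) (T.a (T.a (T.a (T.l 816) (T.l 816)) (T.l 816)) (T.a (T.l 0) (T.l 816)))))) (T.b (T.b (T.a (T.a (T.a (T.l 816) (T.l 816)) (T.l 816)) (T.a (T.l 0) (T.l 816))) (T.a (T.a (T.a (T.l 816) (T.l 816)) (T.l 816)) (T.a (T.l 0) (T.l 816)))) (T.b (T.a (T.a (T.a (T.l 816) (T.l 816)) (T.l 816)) (T.a (T.l 816) (T.l 816))) (T.a (T.a (T.a (T.l 816) (T.l 816)) (T.l 816)) (T.a (T.l 816) (T.l 816)))))), by decide +kernel⟩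

def B022L_040_1_2_1 :
    ∃ t, chk3 (onCell 0 67108864 0 1073741824 67108864 67108864 (corTK [] false 3 c0N cB022L gN0q0 gN4q2 gN0q2 gN1q2 true true)) t 1 2 1 = true :=
  ⟨(T.b (T.b (T.l 2) (T.b (T.a (T.b (T.l 2) (T.a (T.a (T.l 204) (T.b (T.l 2) (T.a (T.l 204) (T.l 0)))) (T.a (T.a (T.l 0) (T.l 2)) (T.l 2)))) (T.l 2)) (T.a (T.b (T.a (T.a (T.l 204) (T.a (T.l 204) (T.c (T.l 0) (T.l 0)))) (T.a (T.a (T.l 0) (T.l 0)) (T.a (T.l 220) (T.l 204)))) (T.b (T.a (T.a (T.l 204) (T.a (T.l 204) (T.l 0))) (T.a (T.a (T.l 0) (T.l 204)) (T.a (T.l 204) (T.l 204)))) (T.a (T.a (T.l 204) (T.a (T.l 204) (T.l 0))) (T.a (T.a (T.l 204) (T.l 204)) (T.a (T.l 204) (T.l 204)))))) (T.b (T.a (T.a (T.a (T.l 204) (T.l 204)) (T.c (T.l 0) (T.l 0))) (T.a (T.c (T.l 204) (T.l 204)) (T.l 2))) (T.a (T.a (T.a (T.l 204) (T.l 204)) (T.c (T.l 0)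 (T.l 0))) (T.a (T.c (T.l 204) (T.l 204)) (T.l 204))))))) (T.b (T.b (T.b (T.a (T.b (T.a (T.a (T.l 204) (T.a (T.l 204) (T.l 0))) (T.a (T.a (T.l 0) (T.l 204)) (T.a (T.l 204) (T.l 204)))) (T.a (T.a (T.l 204) (T.a (T.l 204) (T.l 0))) (T.a (T.a (T.l 0) (T.l 204)) (T.a (T.l 204) (T.l 204))))) (T.a (T.a (T.a (T.l 204) (T.l 204)) (T.c (T.l 0) (T.l 0))) (T.a (T.c (T.l 0) (T.l 0)) (T.l 204)))) (T.a (T.b (T.a (T.a (T.l 204) (T.a (T.l 204) (T.l 0))) (T.a (T.a (T.l 0) (T.l 0)) (T.a (T.l 204) (T.l 204)))) (T.a (T.a (T.l 204) (T.a (T.l 204) (T.l 0))) (T.a (T.a (T.l 0) (T.l 0)) (T.a (T.l 204) (T.l 204))))) (T.a (T.a (T.a (T.l 204) (T.l 204)) (T.c (T.l 0) (T.l 0))) (T.a (T.c (T.l 0) (T.l 0)) (T.l 256))))) (T.b (T.a (T.b (T.a (T.a (T.l 204) (T.a (T.l 204) (T.l 0))) (T.a (T.a (T.l 0) (T.l 0)) (T.a (T.l 204) (T.l 204))))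 (T.a (T.a (T.l 204) (T.a (T.l 204) (T.l 0))) (T.a (T.a (T.l 0) (T.l 0)) (T.a (T.l 204) (T.l 204))))) (T.a (T.a (T.a (T.l 0) (T.l 204)) (T.c (T.l 0) (T.l 0))) (T.a (T.c (T.l 0) (T.l 0)) (T.c (T.l 0) (T.l 0))))) (T.a (T.a (T.a (T.l 204) (T.a (T.l 204) (T.c (T.l 0) (T.l 0)))) (T.a (T.a (T.l 0) (T.l 0)) (T.a (T.l 0) (T.l 0)))) (T.a (T.a (T.a (T.l 0) (T.l 0)) (T.c (T.l 272) (T.l 0))) (T.a (T.c (T.l 0) (T.l 0)) (T.c (T.l 0) (T.l 0))))))) (T.b (T.b (T.a (T.a (T.a (T.l 204) (T.b (T.l 204) (T.l 204))) (T.a (T.a (T.l 0) (T.l 0)) (T.a (T.l 0) (T.l 0)))) (T.a (T.a (T.a (T.l 0) (T.l 0)) (T.c (T.l 272) (T.l 0))) (T.a (T.c (T.l 0) (T.l 0)) (T.c (T.l 0) (T.l 0))))) (T.a (T.a (T.l 204) (T.a (T.a (T.l 0) (T.l 0)) (T.a (T.l 0) (T.l 0)))) (T.a (T.a (T.a (T.l 0) (T.l 0)) (T.a (T.l 0) (T.l 0))) (T.a (T.c (T.l 272) (T.l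 0)) (T.c (T.l 0) (T.l 0)))))) (T.b (T.a (T.a (T.l 204) (T.a (T.a (T.l 272) (T.l 0)) (T.a (T.l 0) (T.l 0)))) (T.a (T.a (T.a (T.l 0) (T.l 0)) (T.a (T.l 272) (T.l 0))) (T.a (T.c (T.l 272) (T.l 0)) (T.c (T.l 0) (T.l 0))))) (T.a (T.a (T.l 204) (T.a (T.a (T.c (T.l 0) (T.l 0)) (T.l 0)) (T.a (T.l 0) (T.l 0)))) (T.a (T.a (T.a (T.l 0) (T.l 0)) (T.a (T.c (T.l 0) (T.l 0)) (T.l 272))) (T.a (T.a (T.l 0) (T.l 0)) (T.c (T.l 0) (T.l 0))))))))), by decide +kernel⟩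

def B022L_040_1_12_1 :
    ∃ t, chk3 (onCell 0 67108864 0 1073741824 67108864 67108864 (corTK [] false 3 c0N cB022L gN0q0 gN4q2 gN0q2 gN1q2 true true)) t 1 12 1 = true :=
  ⟨(T.b (T.b (T.a (T.a (T.l 0) (T.a (T.a (T.l 204) (T.l 0)) (T.a (T.l 0) (T.l 0)))) (T.a (T.a (T.a (T.l 0) (T.l 0)) (T.a (T.c (T.l 0) (T.l 0)) (T.c (T.l 0) (T.l 0)))) (T.a (T.a (T.l 340) (T.l 0)) (T.c (T.l 340) (T.l 0))))) (T.a (T.a (T.l 0) (T.a (T.a (T.l 0) (T.c (T.l 0) (T.l 0))) (T.a (T.l 0) (T.l 68)))) (T.a (T.a (T.a (T.l 4) (T.c (T.l 0) (T.l 0))) (T.a (T.l 68) (T.c (T.l 0) (T.l 0)))) (T.a (T.a (T.c (T.l 0) (T.l 0)) (T.c (T.l 0) (T.l 0))) (T.a (T.l 340) (T.l 0)))))) (T.b (T.a (T.a (T.l 816) (T.a (T.a (T.l 816) (T.c (T.l 0) (T.l 0))) (T.a (T.c (T.l 0) (T.l 0)) (T.c (T.l 0) (T.l 0))))) (T.a (T.a (T.a (T.c (T.l 0) (T.l 0)) (T.c (T.l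 0) (T.l 0))) (T.a (T.c (T.l 0) (T.l 0)) (T.c (T.l 0) (T.l 0)))) (T.a (T.a (T.c (T.l 0) (T.l 0)) (T.c (T.l 0) (T.l 0))) (T.a (T.c (T.l 0) (T.l 0)) (T.c (T.l 0) (T.l 0)))))) (T.a (T.a (T.l 816) (T.a (T.l 816) (T.a (T.c (T.l 68) (T.l 0)) (T.c (T.l 68) (T.l 0))))) (T.a (T.a (T.a (T.c (T.b (T.l 0) (T.l 0)) (T.l 0)) (T.c (T.l 68) (T.l 0))) (T.a (T.c (T.l 4) (T.l 0)) (T.c (T.l 0) (T.l 0)))) (T.a (T.a (T.c (T.l 68) (T.l 0)) (T.b (T.l 0) (T.l 68))) (T.a (T.c (T.l 68) (T.l 0)) (T.c (T.l 68) (T.l 0)))))))), by decide +kernel⟩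

def B022L_040_1_52_1 :
    ∃ t, chk3 (onCell 0 67108864 0 1073741824 67108864 67108864 (corTK [] false 3 c0N cB022L gN0q0 gN4q2 gN0q2 gN1q2 true true)) t 1 52 1 = true :=
  ⟨(T.b (T.a (T.a (T.l 816) (T.a (T.l 816) (T.a (T.c (T.l 816) (T.l 816)) (T.c (T.l 68) (T.l 0))))) (T.a (T.a (T.a (T.c (T.l 816) (T.l 816)) (T.c (T.l 816) (T.l 816))) (T.a (T.c (T.l 816) (T.l 816)) (T.c (T.l 816) (T.l 816)))) (T.a (T.a (T.c (T.l 816) (T.l 816)) (T.c (T.l 816) (T.l 816))) (T.a (T.c (T.l 816) (T.l 816)) (T.c (T.l 816) (T.l 816)))))) (T.b (T.a (T.a (T.l 816) (T.a (T.l 816) (T.a (T.l 884) (T.c (T.l 816) (T.l 816))))) (T.a (T.a (T.a (T.c (T.l 816) (T.l 816)) (T.c (T.l 816) (T.l 816))) (T.c (T.c (T.l 68) (T.l 68)) (T.c (T.l 0) (T.l 0)))) (T.a (T.c (T.l 884) (T.l 816)) (T.c (T.l 884) (T.l 884))))) (T.a (T.a (T.l 816) (T.a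 (T.l 816) (T.a (T.l 816) (T.c (T.l 884) (T.l 884))))) (T.a (T.a (T.a (T.c (T.l 816) (T.l 816)) (T.c (T.l 816) (T.l 816))) (T.a (T.c (T.l 816) (T.l 816)) (T.c (T.l 816) (T.l 816)))) (T.a (T.a (T.c (T.l 816) (T.l 816)) (T.l 884)) (T.c (T.l 884) (T.l 884))))))), by decide +kernel⟩

def B022L_040_1_106_1 :
    ∃ t, chk3 (onCell 0 67108864 0 1073741824 67108864 67108864 (corTK [] false 3 c0N cB022L gN0q0 gN4q2 gN0q2 gN1q2 true true)) t 1 106 1 = true :=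
  ⟨(T.b (T.a (T.a (T.c (T.l 816) (T.l 816)) (T.a (T.l 816) (T.a (T.l 816) (T.a (T.l 816) (T.c (T.l 816) (T.l 816)))))) (T.a (T.a (T.a (T.c (T.c (T.l 816) (T.l 816)) (T.c (T.l 816) (T.l 816))) (T.c (T.l 884) (T.l 816))) (T.a (T.c (T.l 816) (T.l 816)) (T.c (T.l 816) (T.l 816)))) (T.a (T.a (T.c (T.l 816) (T.l 816)) (T.c (T.l 816) (T.l 816))) (T.a (T.c (T.l 816) (T.l 816)) (T.c (T.l 816) (T.l 816)))))) (T.a (T.b (T.a (T.c (T.a (T.b (T.l 816) (T.c (T.b (T.l 816) (T.a (T.a (T.l 1) (T.c (T.b (T.l 816) (T.l 1)) (T.b (T.l 816) (T.l 1)))) (T.c (T.b (T.l 816) (T.a (T.l 1) (T.l 816))) (T.a (T.b (T.l 816) (T.l 1)) (T.l 816))))) (T.b (T.l 816) (T.a (T.c (T.b (T.a (T.l 1) (T.l 816)) (T.l 1)) (T.b (T.l 816) (T.l 1))) (T.a (T.c (T.b (T.l 816) (T.l 1)) (T.b (T.l 816) (T.l 1))) (T.l 816)))))) (T.l 816)) (T.a (T.b (T.l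 816) (T.c (T.b (T.l 816) (T.c (T.b (T.l 816) (T.a (T.l 1) (T.l 816))) (T.a (T.b (T.l 816) (T.l 1)) (T.l 816)))) (T.a (T.b (T.l 816) (T.c (T.b (T.l 816) (T.l 1)) (T.b (T.l 816) (T.l 1)))) (T.l 816)))) (T.l 816))) (T.a (T.l 816) (T.a (T.l 816) (T.a (T.l 816) (T.c (T.l 816) (T.l 816)))))) (T.a (T.a (T.l 1) (T.c (T.b (T.c (T.b (T.c (T.b (T.a (T.a (T.l 1) (T.a (T.l 1) (T.l 816))) (T.l 816)) (T.l 1)) (T.b (T.a (T.c (T.a (T.l 1) (T.l 816)) (T.a (T.l 1) (T.l 816))) (T.l 816)) (T.l 1))) (T.l 1)) (T.b (T.c (T.b (T.a (T.a (T.l 1) (T.l 816)) (T.l 816)) (T.l 1)) (T.b (T.a (T.a (T.l 1) (T.l 816)) (T.l 816)) (T.l 1))) (T.l 1))) (T.l 1)) (T.b (T.c (T.b (T.c (T.b (T.a (T.a (T.l 1) (T.l 816)) (T.l 816)) (T.l 1)) (T.b (T.a (T.a (T.l 1) (T.l 816)) (T.l 816)) (T.l 1))) (T.l 1)) (T.b (T.c (T.b (T.l 816) (T.l 1)) (T.b (T.l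 816) (T.l 1))) (T.l 1))) (T.l 1)))) (T.c (T.b (T.a (T.c (T.b (T.l 816) (T.a (T.l 1) (T.c (T.b (T.l 816) (T.l 1)) (T.b (T.l 816) (T.l 1))))) (T.b (T.l 816) (T.a (T.l 1) (T.c (T.b (T.l 816) (T.l 1)) (T.b (T.l 816) (T.l 1)))))) (T.a (T.c (T.c (T.a (T.a (T.b (T.l 816) (T.b (T.l 816) (T.l 1))) (T.l 816)) (T.l 816)) (T.l 816)) (T.l 816)) (T.a (T.l 816) (T.l 816)))) (T.a (T.l 1) (T.a (T.l 1) (T.c (T.b (T.c (T.b (T.a (T.a (T.l 1) (T.l 816)) (T.l 816)) (T.l 1)) (T.b (T.a (T.a (T.l 1) (T.l 816)) (T.l 816)) (T.l 1))) (T.l 1)) (T.b (T.c (T.b (T.a (T.l 816) (T.l 816)) (T.l 1)) (T.b (T.a (T.l 816) (T.l 816)) (T.l 1))) (T.l 1)))))) (T.b (T.a (T.c (T.b (T.l 816) (T.a (T.l 1) (T.c (T.b (T.l 816) (T.l 1)) (T.b (T.l 816) (T.l 1))))) (T.b (T.l 816) (T.a (T.l 1) (T.c (T.b (T.l 816) (T.l 1)) (T.b (T.l 816) (T.l 1))))))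 (T.a (T.l 816) (T.a (T.l 816) (T.l 816)))) (T.a (T.l 1) (T.a (T.l 1) (T.c (T.b (T.c (T.b (T.a (T.l 816) (T.l 816)) (T.l 1)) (T.b (T.a (T.l 816) (T.l 816)) (T.l 1))) (T.l 1)) (T.b (T.c (T.b (T.a (T.l 816) (T.l 816)) (T.l 1)) (T.b (T.a (T.l 816) (T.l 816)) (T.l 1))) (T.l 1))))))))) (T.a (T.a (T.a (T.c (T.b (T.c (T.l 816) (T.l 816)) (T.b (T.c (T.l 816) (T.l 816)) (T.c (T.b (T.a (T.c (T.b (T.l 816) (T.l 1)) (T.b (T.l 816) (T.l 1))) (T.c (T.a (T.l 816) (T.l 816)) (T.l 816))) (T.l 1)) (T.b (T.a (T.c (T.b (T.l 816) (T.l 1)) (T.b (T.l 816) (T.l 1))) (T.c (T.l 816) (T.l 816))) (T.l 1))))) (T.b (T.c (T.l 816) (T.l 816)) (T.b (T.c (T.l 816) (T.l 816)) (T.c (T.b (T.a (T.c (T.a (T.l 816) (T.l 816)) (T.a (T.l 816) (T.l 816))) (T.l 816)) (T.l 1)) (T.b (T.a (T.c (T.l 816) (T.l 816)) (T.l 816)) (T.l 1)))))) (T.c (T.b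 (T.l 884) (T.b (T.l 816) (T.c (T.b (T.a (T.l 816) (T.l 816)) (T.a (T.l 1) (T.c (T.b (T.a (T.l 952) (T.l 816)) (T.l 1)) (T.b (T.c (T.l 952) (T.l 816)) (T.l 1))))) (T.b (T.a (T.l 816) (T.l 816)) (T.a (T.l 1) (T.c (T.b (T.l 816) (T.l 1)) (T.b (T.l 816) (T.l 1)))))))) (T.b (T.l 816) (T.b (T.l 816) (T.c (T.b (T.c (T.l 816) (T.l 816)) (T.a (T.l 1) (T.c (T.b (T.l 816) (T.l 1)) (T.b (T.l 816) (T.l 1))))) (T.b (T.c (T.l 816) (T.l 816)) (T.a (T.l 1) (T.c (T.b (T.l 816) (T.l 1)) (T.b (T.l 816) (T.l 1)))))))))) (T.a (T.c (T.b (T.l 816) (T.b (T.l 816) (T.c (T.b (T.l 816) (T.c (T.b (T.a (T.l 816) (T.l 816)) (T.a (T.l 1) (T.c (T.b (T.l 816) (T.l 1)) (T.a (T.l 952) (T.l 816))))) (T.b (T.a (T.l 816) (T.l 816)) (T.a (T.l 1) (T.a (T.l 952) (T.l 816)))))) (T.b (T.l 816) (T.a (T.c (T.b (T.l 816) (T.l 1)) (T.b (T.l 816)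 (T.l 1))) (T.c (T.a (T.l 816) (T.l 816)) (T.l 816))))))) (T.b (T.l 816) (T.b (T.l 816) (T.c (T.b (T.l 816) (T.a (T.c (T.b (T.l 816) (T.l 1)) (T.b (T.l 816) (T.l 1))) (T.l 816))) (T.a (T.a (T.c (T.l 816) (T.l 816)) (T.l 816)) (T.l 816)))))) (T.c (T.b (T.l 816) (T.b (T.l 816) (T.a (T.c (T.l 816) (T.l 816)) (T.l 816)))) (T.b (T.l 816) (T.a (T.c (T.l 816) (T.l 816)) (T.l 816)))))) (T.a (T.c (T.a (T.c (T.l 816) (T.l 816)) (T.l 816)) (T.a (T.c (T.l 816) (T.l 816)) (T.l 816))) (T.c (T.a (T.l 816) (T.l 816)) (T.a (T.l 816) (T.l 816))))))), by decide +kernel⟩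

def B022L_040_1_107_1 :
    ∃ t, chk3 (onCell 0 67108864 0 1073741824 67108864 67108864 (corTK [] false 3 c0N cB022L gN0q0 gN4q2 gN0q2 gN1q2 true true)) t 1 107 1 = true :=
  ⟨(T.a (T.l 1) (T.b (T.b (T.c (T.b (T.a (T.a (T.l 1) (T.a (T.l 1) (T.a (T.l 1) (T.a (T.l 1) (T.c (T.b (T.c (T.b (T.l 952) (T.l 1)) (T.b (T.l 816) (T.l 1))) (T.l 1)) (T.b (T.c (T.b (T.l 816) (T.l 1)) (T.b (T.l 816) (T.l 1))) (T.l 1))))))) (T.a (T.c (T.b (T.a (T.c (T.b (T.a (T.l 816) (T.l 816)) (T.a (T.l 1) (T.c (T.b (T.l 816) (T.l 1)) (T.a (T.l 1) (T.l 952))))) (T.b (T.a (T.l 816) (T.l 816)) (T.a (T.l 1) (T.a (T.l 1) (T.l 952))))) (T.a (T.c (T.l 816) (T.l 816)) (T.l 816))) (T.a (T.l 1) (T.a (T.l 1) (T.a (T.l 1) (T.a (T.l 1) (T.a (T.l 1) (T.c (T.b (T.l 952) (T.l 1)) (T.b (T.l 816) (T.l 1))))))))) (T.b (T.a (T.c (T.b (T.a (T.l 816)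 (T.l 816)) (T.a (T.l 1) (T.a (T.l 1) (T.l 816)))) (T.b (T.l 816) (T.a (T.l 1) (T.c (T.l 952) (T.l 952))))) (T.a (T.l 816) (T.l 816))) (T.a (T.l 1) (T.a (T.l 1) (T.a (T.l 1) (T.c (T.b (T.l 944) (T.l 1)) (T.b (T.l 816) (T.l 1)))))))) (T.a (T.c (T.b (T.l 816) (T.c (T.b (T.a (T.l 952) (T.l 816)) (T.l 1)) (T.b (T.a (T.l 816) (T.l 816)) (T.l 1)))) (T.b (T.l 816) (T.c (T.b (T.a (T.l 816) (T.l 816)) (T.l 1)) (T.b (T.a (T.l 816) (T.l 816)) (T.l 1))))) (T.c (T.a (T.a (T.b (T.l 816) (T.c (T.b (T.l 816) (T.l 952)) (T.l 816))) (T.l 816)) (T.l 816)) (T.a (T.c (T.l 816) (T.l 816)) (T.l 816)))))) (T.l 1)) (T.b (T.a (T.a (T.l 1) (T.a (T.l 1) (T.a (T.l 1) (T.a (T.l 1) (T.c (T.b (T.c (T.b (T.l 816) (T.l 1)) (T.b (T.l 816) (T.l 1))) (T.l 1)) (T.b (T.c (T.b (T.l 816) (T.l 1)) (T.b (T.l 816) (T.l 1))) (T.l 1))))))) (T.a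 (T.c (T.b (T.a (T.c (T.b (T.l 816) (T.a (T.l 1) (T.l 952))) (T.b (T.l 816) (T.a (T.l 1) (T.l 816)))) (T.c (T.l 816) (T.l 816))) (T.a (T.l 1) (T.a (T.l 1) (T.a (T.l 1) (T.c (T.b (T.l 816) (T.l 1)) (T.b (T.l 816) (T.l 1))))))) (T.b (T.a (T.c (T.a (T.b (T.l 816) (T.l 1)) (T.l 816)) (T.a (T.a (T.l 816) (T.l 816)) (T.l 816))) (T.l 816)) (T.a (T.l 1) (T.a (T.l 1) (T.c (T.b (T.l 816) (T.l 1)) (T.b (T.l 816) (T.l 1))))))) (T.a (T.c (T.b (T.l 816) (T.c (T.b (T.l 816) (T.l 1)) (T.b (T.l 816) (T.l 1)))) (T.b (T.l 816) (T.c (T.b (T.l 816) (T.l 1)) (T.b (T.l 816) (T.l 1))))) (T.a (T.c (T.l 816) (T.l 816)) (T.l 816))))) (T.l 1))) (T.l 1)) (T.l 1))), by decide +kernel⟩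

def B022L_040_1_27_1 :
    ∃ t, chk3 (onCell 0 67108864 0 1073741824 67108864 67108864 (corTK [] false 3 c0N cB022L gN0q0 gN4q2 gN0q2 gN1q2 true true)) t 1 27 1 = true :=
  ⟨(T.l 1), by decide +kernel⟩

def B022L_040_1_7_1 :
    ∃ t, chk3 (onCell 0 67108864 0 1073741824 67108864 67108864 (corTK [] false 3 c0N cB022L gN0q0 gN4q2 gN0q2 gN1q2 true true)) t 1 7 1 = true :=
  ⟨(T.l 1), by decide +kernel⟩

theorem B022L_040_1_53_1 :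
    ∃ t, chk3 (onCell 0 67108864 0 1073741824 67108864 67108864 (corTK [] false 3 c0N cB022L gN0q0 gN4q2 gN0q2 gN1q2 true true)) t 1 53 1 = true :=
  ex3_b B022L_040_1_106_1 B022L_040_1_107_1
theorem B022L_040_1_26_1 :
    ∃ t, chk3 (onCell 0 67108864 0 1073741824 67108864 67108864 (corTK [] false 3 c0N cB022L gN0q0 gN4q2 gN0q2 gN1q2 true true)) t 1 26 1 = true :=
  ex3_b B022L_040_1_52_1 B022L_040_1_53_1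
theorem B022L_040_1_13_1 :
    ∃ t, chk3 (onCell 0 67108864 0 1073741824 67108864 67108864 (corTK [] false 3 c0N cB022L gN0q0 gN4q2 gN0q2 gN1q2 true true)) t 1 13 1 = true :=
  ex3_b B022L_040_1_26_1 B022L_040_1_27_1
theorem B022L_040_1_6_1 :
    ∃ t, chk3 (onCell 0 67108864 0 1073741824 67108864 67108864 (corTK [] false 3 c0N cB022L gN0q0 gN4q2 gN0q2 gN1q2 true true)) t 1 6 1 = true :=
  ex3_b B022L_040_1_12_1 B022L_040_1_13_1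
theorem B022L_040_1_3_1 :
    ∃ t, chk3 (onCell 0 67108864 0 1073741824 67108864 67108864 (corTK [] false 3 c0N cB022L gN0q0 gN4q2 gN0q2 gN1q2 true true)) t 1 3 1 = true :=
  ex3_b B022L_040_1_6_1 B022L_040_1_7_1
theorem B022L_040 :
    ∃ t, chk3 (onCell 0 67108864 0 1073741824 67108864 67108864 (corTK [] false 3 c0N cB022L gN0q0 gN4q2 gN0q2 gN1q2 true true)) t 1 1 1 = true :=
  ex3_b B022L_040_1_2_1 B022L_040_1_3_1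

def B022L_041 :
    ∃ t, chk3 (onCell 0 67108864 0 1073741824 67108864 67108864 (corTK [] false 3 c0N cB022L gN0q0 gN4q2 gN1q2 gN2q2 true true)) t 1 1 1 = true :=
  ⟨(T.b (T.b (T.b (T.b (T.a (T.a (T.a (T.l 204) (T.a (T.l 204) (T.l 204))) (T.a (T.l 204) (T.l 204))) (T.a (T.a (T.l 204) (T.b (T.l 0) (T.l 204))) (T.a (T.l 0) (T.l 204)))) (T.a (T.a (T.l 204) (T.a (T.l 0) (T.l 204))) (T.a (T.b (T.l 272) (T.l 272)) (T.a (T.l 0) (T.l 204))))) (T.b (T.a (T.a (T.l 204) (T.a (T.l 0) (T.l 0))) (T.a (T.c (T.l 0) (T.l 0)) (T.a (T.l 0) (T.l 204)))) (T.a (T.a (T.l 1) (T.a (T.l 272) (T.l 0))) (T.a (T.c (T.l 0) (T.l 0)) (T.a (T.l 204) (T.l 204)))))) (T.l 1)) (T.l 1)), by decide +kernel⟩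

def B022L_042 :
    ∃ t, chk3 (onCell 0 67108864 0 1073741824 67108864 67108864 (corTK [] false 3 c0N cB022L gN0q0 gN4q2 gN2q2 gN3q2 true false)) t 1 1 1 = true :=
  ⟨(T.l 1), by decide +kernel⟩

def B022L_140 :
    ∃ t, chk3 (onCell 0 67108864 0 1073741824 67108864 67108864 (corTK [] false 3 c0N cB022L gN1q0 gN4q2 gN0q2 gN1q2 true true)) t 1 1 1 = true :=
  ⟨(T.b (T.b (T.b (T.b (T.a (T.l 2) (T.l 2)) (T.b (T.a (T.b (T.a (T.a (T.l 816) (T.c (T.l 0) (T.l 0))) (T.a (T.l 0) (T.l 2))) (T.a (T.a (T.l 816) (T.c (T.l 0) (T.l 0))) (T.a (T.l 0) (T.l 0)))) (T.a (T.a (T.l 0) (T.l 0)) (T.l 2))) (T.a (T.b (T.a (T.a (T.l 816) (T.l 64)) (T.a (T.l 0) (T.l 0))) (T.a (T.a (T.l 816) (T.l 0)) (T.a (T.l 0) (T.l 0)))) (T.a (T.c (T.l 0) (T.l 0)) (T.l 0))))) (T.b (T.b (T.a (T.a (T.a (T.l 816) (T.l 0)) (T.a (T.l 0) (T.l 0)))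 (T.a (T.l 0) (T.l 0))) (T.a (T.a (T.a (T.l 816) (T.l 0)) (T.a (T.l 0) (T.l 0))) (T.a (T.l 0) (T.l 0)))) (T.b (T.a (T.a (T.a (T.l 816) (T.l 0)) (T.a (T.l 816) (T.l 816))) (T.a (T.l 0) (T.l 816))) (T.a (T.a (T.a (T.l 816) (T.l 0)) (T.a (T.l 816) (T.l 816))) (T.a (T.l 0) (T.l 816)))))) (T.b (T.b (T.a (T.a (T.a (T.l 816) (T.l 0)) (T.a (T.l 816) (T.l 816))) (T.a (T.l 0) (T.l 0))) (T.a (T.a (T.a (T.l 816) (T.l 0)) (T.b (T.l 0) (T.l 0))) (T.a (T.l 0) (T.l 816)))) (T.b (T.a (T.a (T.a (T.l 816) (T.l 816)) (T.l 0)) (T.a (T.l 816) (T.l 816))) (T.a (T.l 1) (T.a (T.l 816) (T.l 816)))))) (T.l 1)), by decide +kernel⟩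

def B022L_141 :
    ∃ t, chk3 (onCell 0 67108864 0 1073741824 67108864 67108864 (corTK [] false 3 c0N cB022L gN1q0 gN4q2 gN1q2 gN2q2 true true)) t 1 1 1 = true :=
  ⟨(T.b (T.b (T.b (T.b (T.b (T.a (T.a (T.a (T.l 204) (T.a (T.l 204) (T.l 204))) (T.a (T.l 0) (T.l 0))) (T.a (T.a (T.l 204) (T.l 0)) (T.c (T.l 68) (T.l 0)))) (T.a (T.a (T.a (T.l 0) (T.l 0)) (T.c (T.l 0) (T.l 0))) (T.a (T.l 0) (T.l 0)))) (T.b (T.a (T.a (T.l 0) (T.l 0)) (T.a (T.l 0) (T.l 0))) (T.a (T.l 1) (T.a (T.l 0) (T.l 0))))) (T.l 1)) (T.l 1)) (T.l 1)), by decide +kernel⟩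

def B022L_142 :
    ∃ t, chk3 (onCell 0 67108864 0 1073741824 67108864 67108864 (corTK [] false 3 c0N cB022L gN1q0 gN4q2 gN2q2 gN3q2 true false)) t 1 1 1 = true :=
  ⟨(T.l 1), by decide +kernel⟩

def B022L_240 :
    ∃ t, chk3 (onCell 0 67108864 0 1073741824 67108864 67108864 (corTK [] false 3 c0N cB022L gN2q0 gN4q2 gN0q2 gN1q2 true true)) t 1 1 1 = true :=
  ⟨(T.b (T.b (T.b (T.b (T.b (T.l 2) (T.a (T.b (T.a (T.l 2) (T.l 2)) (T.a (T.a (T.l 816) (T.c (T.l 0) (T.l 0))) (T.a (T.l 0) (T.l 0)))) (T.a (T.a (T.l 2) (T.l 2)) (T.l 2)))) (T.b (T.a (T.b (T.a (T.a (T.l 816) (T.l 0)) (T.a (T.l 0) (T.l 0))) (T.a (T.a (T.l 816) (T.l 0)) (T.a (T.l 0) (T.l 0)))) (T.a (T.c (T.l 0) (T.l 0)) (T.l 0))) (T.a (T.a (T.a (T.l 816) (T.l 0)) (T.a (T.l 0) (T.l 0))) (T.a (T.l 0) (T.l 0))))) (T.b (T.a (T.a (T.a (T.l 816) (T.l 0))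 (T.a (T.l 0) (T.l 816))) (T.a (T.l 0) (T.l 0))) (T.a (T.a (T.a (T.l 816) (T.l 0)) (T.b (T.l 0) (T.l 0))) (T.a (T.l 816) (T.l 0))))) (T.b (T.b (T.a (T.a (T.a (T.l 816) (T.l 816)) (T.l 0)) (T.a (T.l 816) (T.l 816))) (T.b (T.a (T.a (T.a (T.l 816) (T.l 816)) (T.l 816)) (T.l 0)) (T.a (T.a (T.l 1) (T.l 816)) (T.l 0)))) (T.l 1))) (T.l 1)), by decide +kernel⟩

def B022L_241 :
    ∃ t, chk3 (onCell 0 67108864 0 1073741824 67108864 67108864 (corTK [] false 3 c0N cB022L gN2q0 gN4q2 gN1q2 gN2q2 true true)) t 1 1 1 = true :=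
  ⟨(T.b (T.b (T.b (T.b (T.b (T.a (T.a (T.a (T.l 204) (T.a (T.l 204) (T.l 0))) (T.a (T.l 0) (T.l 0))) (T.a (T.a (T.l 0) (T.l 0)) (T.c (T.l 340) (T.l 0)))) (T.a (T.a (T.a (T.l 0) (T.l 0)) (T.c (T.l 0) (T.l 0))) (T.a (T.l 0) (T.l 0)))) (T.b (T.a (T.a (T.l 1) (T.l 0)) (T.a (T.l 0) (T.l 0))) (T.l 1))) (T.l 1)) (T.l 1)) (T.l 1)), by decide +kernel⟩

def B022L_242 :
    ∃ t, chk3 (onCell 0 67108864 0 1073741824 67108864 67108864 (corTK [] false 3 c0N cB022L gN2q0 gN4q2 gN2q2 gN3q2 true false)) t 1 1 1 = true :=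
  ⟨(T.l 1), by decide +kernel⟩

def B022R_003 :
    ∃ t, chk3 (onCell 0 67108864 0 1073741824 67108864 67108864 (corTK [] false 3 c0N cB022R gN0q0 gN0q2 gN3q2 gN4q2 false true)) t 1 1 1 = true :=
  ⟨(T.b (T.b (T.a (T.a (T.a (T.b (T.b (T.c (T.b (T.b (T.a (T.c (T.l 204) (T.l 204)) (T.l 204)) (T.l 204)) (T.l 204)) (T.b (T.c (T.b (T.l 204) (T.l 204)) (T.l 204)) (T.l 204))) (T.c (T.l 204) (T.l 204))) (T.b (T.b (T.l 204) (T.l 204)) (T.l 204))) (T.a (T.a (T.b (T.b (T.l 204) (T.l 204)) (T.l 204)) (T.b (T.c (T.l 204) (T.l 204)) (T.l 204))) (T.b (T.c (T.b (T.l 204) (T.l 204)) (T.c (T.l 204) (T.l 204))) (T.c (T.l 204) (T.l 204))))) (T.a (T.a (T.b (T.b (T.l 220) (T.l 204)) (T.l 204)) (T.c (T.l 204) (T.l 220))) (T.a (T.b (T.l 204) (T.l 204)) (T.b (T.b (T.l 204) (T.l 204)) (T.l 204))))) (T.a (T.a (T.b (T.a (T.b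 (T.l 204) (T.l 204)) (T.l 204)) (T.b (T.l 460) (T.l 460))) (T.b (T.b (T.l 220) (T.l 204)) (T.b (T.l 204) (T.l 204)))) (T.a (T.b (T.l 220) (T.l 204)) (T.b (T.l 204) (T.l 204))))) (T.a (T.a (T.a (T.b (T.b (T.l 204) (T.l 204)) (T.l 204)) (T.a (T.a (T.l 204) (T.l 460)) (T.b (T.l 460) (T.l 204)))) (T.a (T.a (T.l 460) (T.l 460)) (T.b (T.l 460) (T.l 460)))) (T.a (T.a (T.l 460) (T.b (T.l 460) (T.l 460))) (T.b (T.a (T.b (T.l 204) (T.l 204)) (T.l 460)) (T.a (T.b (T.l 204) (T.l 204)) (T.l 460)))))) (T.a (T.a (T.a (T.b (T.b (T.l 204) (T.l 204)) (T.l 204)) (T.a (T.c (T.b (T.l 204) (T.l 204)) (T.l 460)) (T.b (T.l 460) (T.l 204)))) (T.a (T.b (T.a (T.l 204) (T.l 204)) (T.a (T.l 204) (T.b (T.l 460) (T.l 460)))) (T.b (T.b (T.l 460) (T.c (T.l 460) (T.l 460))) (T.a (T.b (T.l 204) (T.l 204)) (T.b (T.l 204) (T.l 204))))))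 (T.b (T.a (T.a (T.b (T.b (T.l 204) (T.l 204)) (T.b (T.l 204) (T.l 204))) (T.b (T.l 460) (T.l 460))) (T.b (T.a (T.l 204) (T.l 460)) (T.a (T.l 204) (T.l 460)))) (T.a (T.a (T.b (T.l 460) (T.l 460)) (T.b (T.l 460) (T.b (T.l 204) (T.l 204)))) (T.a (T.b (T.l 460) (T.l 460)) (T.b (T.l 460) (T.l 460))))))), by decide +kernel⟩

def B022R_013 :
    ∃ t, chk3 (onCell 0 67108864 0 1073741824 67108864 67108864 (corTK [] false 3 c0N cB022R gN0q0 gN1q2 gN3q2 gN4q2 false true)) t 1 1 1 = true :=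
  ⟨(T.b (T.b (T.a (T.a (T.a (T.l 204) (T.c (T.l 0) (T.l 0))) (T.a (T.l 204) (T.b (T.b (T.l 204) (T.l 204)) (T.l 204)))) (T.a (T.a (T.b (T.l 204) (T.l 0)) (T.b (T.l 204) (T.l 204))) (T.b (T.b (T.l 204) (T.l 204)) (T.b (T.l 204) (T.l 204))))) (T.b (T.a (T.a (T.a (T.l 204) (T.b (T.l 0) (T.l 0))) (T.b (T.l 256) (T.l 256))) (T.a (T.b (T.l 256) (T.l 256)) (T.b (T.l 0) (T.l 0)))) (T.a (T.a (T.a (T.l 204) (T.l 0)) (T.b (T.l 0) (T.l 0))) (T.a (T.b (T.l 0) (T.l 0)) (T.b (T.l 0) (T.l 0)))))) (T.b (T.b (T.a (T.a (T.a (T.l 0) (T.b (T.l 0) (T.l 0))) (T.b (T.l 64) (T.l 64))) (T.a (T.b (T.l 0) (T.l 0)) (T.b (T.l 0) (T.l 0)))) (T.a (T.a (T.a (T.l 816) (T.c (T.l 0) (T.l 0))) (T.a (T.l 0) (T.l 0))) (T.a (T.a (T.l 0) (T.l 0)) (T.b (T.l 0) (T.l 0))))) (T.a (T.a (T.a (T.l 816) (T.c (T.l 0) (T.l 0))) (T.a (T.a (T.l 816)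 (T.b (T.l 0) (T.l 816))) (T.b (T.b (T.l 0) (T.l 816)) (T.b (T.l 816) (T.l 816))))) (T.a (T.a (T.b (T.l 0) (T.l 880)) (T.b (T.l 0) (T.b (T.l 816) (T.l 816)))) (T.b (T.a (T.l 816) (T.l 816)) (T.a (T.b (T.l 816) (T.l 816)) (T.l 816))))))), by decide +kernel⟩

def B022R_023 :
    ∃ t, chk3 (onCell 0 67108864 0 1073741824 67108864 67108864 (corTK [] false 3 c0N cB022R gN0q0 gN2q2 gN3q2 gN4q2 false true)) t 1 1 1 = true :=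
  ⟨(T.b (T.l 2) (T.b (T.l 2) (T.b (T.l 2) (T.b (T.a (T.l 2) (T.b (T.l 2) (T.a (T.b (T.l 2) (T.a (T.l 2) (T.a (T.l 2) (T.l 816)))) (T.a (T.c (T.l 816) (T.l 816)) (T.l 816))))) (T.a (T.b (T.a (T.l 2) (T.a (T.c (T.l 816) (T.l 816)) (T.l 816))) (T.a (T.a (T.l 816) (T.l 816)) (T.a (T.c (T.l 816) (T.l 816)) (T.l 816)))) (T.a (T.a (T.l 816) (T.a (T.l 816) (T.l 816))) (T.a (T.c (T.l 880) (T.l 816)) (T.b (T.l 816) (T.l 816))))))))), by decide +kernel⟩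

def B022R_103 :
    ∃ t, chk3 (onCell 0 67108864 0 1073741824 67108864 67108864 (corTK [] false 3 c0N cB022R gN1q0 gN0q2 gN3q2 gN4q2 false true)) t 1 1 1 = true :=
  ⟨(T.b (T.a (T.b (T.a (T.a (T.b (T.b (T.b (T.b (T.b (T.b (T.a (T.c (T.c (T.l 204) (T.l 204)) (T.l 204)) (T.l 204)) (T.l 204)) (T.l 204)) (T.l 204)) (T.l 204)) (T.l 204)) (T.l 0)) (T.b (T.b (T.a (T.b (T.b (T.a (T.l 204) (T.c (T.l 204) (T.l 204))) (T.l 204)) (T.l 204)) (T.b (T.c (T.l 204) (T.b (T.l 220) (T.l 204))) (T.l 204))) (T.l 0)) (T.l 0))) (T.a (T.b (T.b (T.b (T.a (T.c (T.l 204) (T.l 204)) (T.l 220)) (T.l 204)) (T.l 204)) (T.l 0)) (T.b (T.b (T.a (T.l 204) (T.b (T.l 204) (T.l 204))) (T.l 204)) (T.l 0)))) (T.a (T.a (T.l 816) (T.l 0)) (T.b (T.l 0) (T.b (T.l 816) (T.l 0))))) (T.b (T.b (T.a (T.b (T.a (T.a (T.l 204) (T.l 204)) (T.b (T.l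 204) (T.l 204))) (T.l 0)) (T.a (T.b (T.l 204) (T.l 204)) (T.l 460))) (T.a (T.l 0) (T.b (T.l 0) (T.l 0)))) (T.b (T.a (T.l 0) (T.l 0)) (T.a (T.l 0) (T.l 0))))) (T.a (T.b (T.a (T.a (T.l 816) (T.l 816)) (T.b (T.l 0) (T.l 0))) (T.a (T.a (T.l 816) (T.b (T.l 816) (T.l 816))) (T.b (T.l 816) (T.l 816)))) (T.b (T.a (T.l 64) (T.b (T.l 816) (T.l 816))) (T.a (T.l 816) (T.l 816))))), by decide +kernel⟩

def B022R_113 :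
    ∃ t, chk3 (onCell 0 67108864 0 1073741824 67108864 67108864 (corTK [] false 3 c0N cB022R gN1q0 gN1q2 gN3q2 gN4q2 false true)) t 1 1 1 = true :=
  ⟨(T.b (T.b (T.a (T.b (T.a (T.a (T.l 0) (T.c (T.l 0) (T.l 0))) (T.a (T.l 0) (T.b (T.l 0) (T.l 0)))) (T.a (T.a (T.l 816) (T.l 816)) (T.l 816))) (T.b (T.a (T.a (T.b (T.l 0) (T.l 0)) (T.l 256)) (T.b (T.l 0) (T.l 0))) (T.a (T.l 0) (T.b (T.l 0) (T.l 816))))) (T.a (T.b (T.a (T.a (T.l 816) (T.l 816)) (T.l 816)) (T.b (T.a (T.l 2) (T.l 816)) (T.l 2))) (T.b (T.a (T.l 0) (T.l 0)) (T.b (T.l 0) (T.l 0))))) (T.b (T.a (T.l 2) (T.a (T.l 2) (T.b (T.l 816) (T.l 816)))) (T.l 2))), by decide +kernel⟩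

def B022R_123 :
    ∃ t, chk3 (onCell 0 67108864 0 1073741824 67108864 67108864 (corTK [] false 3 c0N cB022R gN1q0 gN2q2 gN3q2 gN4q2 false true)) t 1 1 1 = true :=
  ⟨(T.l 2), by decide +kernel⟩

def B022R_203 :
    ∃ t, chk3 (onCell 0 67108864 0 1073741824 67108864 67108864 (corTK [] false 3 c0N cB022R gN2q0 gN0q2 gN3q2 gN4q2 false true)) t 1 1 1 = true :=
  ⟨(T.b (T.b (T.a (T.a (T.a (T.b (T.b (T.b (T.b (T.b (T.b (T.a (T.c (T.c (T.l 204) (T.l 204)) (T.c (T.l 204) (T.l 204))) (T.l 204)) (T.l 204)) (T.l 204)) (T.l 204)) (T.l 204)) (T.l 204)) (T.l 0)) (T.b (T.b (T.b (T.a (T.b (T.a (T.l 204) (T.c (T.l 204) (T.l 204))) (T.l 204)) (T.b (T.a (T.l 204) (T.l 204)) (T.l 204))) (T.l 0)) (T.l 0)) (T.l 0))) (T.b (T.a (T.b (T.b (T.b (T.a (T.l 204) (T.l 204)) (T.l 204)) (T.l 204)) (T.l 0)) (T.b (T.b (T.a (T.l 204)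 (T.l 204)) (T.l 204)) (T.l 0))) (T.l 0))) (T.b (T.a (T.b (T.b (T.a (T.c (T.l 204) (T.l 204)) (T.l 204)) (T.l 204)) (T.l 0)) (T.b (T.a (T.l 204) (T.l 204)) (T.l 0))) (T.a (T.l 0) (T.b (T.l 0) (T.l 0))))) (T.a (T.b (T.a (T.a (T.l 816) (T.l 816)) (T.l 816)) (T.a (T.a (T.l 816) (T.l 816)) (T.b (T.l 816) (T.l 816)))) (T.b (T.a (T.l 0) (T.l 0)) (T.b (T.l 0) (T.l 0))))) (T.b (T.a (T.a (T.a (T.l 816) (T.l 816)) (T.b (T.l 0) (T.l 816))) (T.a (T.b (T.l 816) (T.l 816)) (T.b (T.l 816) (T.l 816)))) (T.a (T.a (T.a (T.l 816) (T.b (T.l 816) (T.l 816))) (T.b (T.l 816) (T.l 816))) (T.a (T.l 816) (T.l 816))))), by decide +kernel⟩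

def B022R_213 :
    ∃ t, chk3 (onCell 0 67108864 0 1073741824 67108864 67108864 (corTK [] false 3 c0N cB022R gN2q0 gN1q2 gN3q2 gN4q2 false true)) t 1 1 1 = true :=
  ⟨(T.b (T.b (T.b (T.a (T.a (T.a (T.l 0) (T.a (T.l 0) (T.l 0))) (T.a (T.b (T.l 0) (T.l 816)) (T.b (T.l 272) (T.l 816)))) (T.b (T.a (T.c (T.l 0) (T.l 0)) (T.l 0)) (T.l 0))) (T.b (T.a (T.a (T.l 2) (T.l 816)) (T.l 0)) (T.a (T.l 2) (T.a (T.l 2) (T.l 816))))) (T.l 2)) (T.l 2)), by decide +kernel⟩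

def B022R_223 :
    ∃ t, chk3 (onCell 0 67108864 0 1073741824 67108864 67108864 (corTK [] false 3 c0N cB022R gN2q0 gN2q2 gN3q2 gN4q2 false true)) t 1 1 1 = true :=
  ⟨(T.l 2), by decide +kernel⟩

def B101E_000 :
    ∃ t, chk3 (onCell 0 67108864 0 1073741824 67108864 67108864 (corTK [] false 3 c0N cB101E gN0q1 gN0q1 gN0q0 gN1q0 true true)) t 1 1 1 = true :=
  ⟨(T.l 2), by decide +kernel⟩

def B101E_001 :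
    ∃ t, chk3 (onCell 0 67108864 0 1073741824 67108864 67108864 (corTK [] false 3 c0N cB101E gN0q1 gN0q1 gN1q0 gN2q0 true true)) t 1 1 1 = true :=
  ⟨(T.b (T.l 2) (T.b (T.l 2) (T.b (T.l 2) (T.b (T.l 2) (T.b (T.l 2) (T.b (T.l 2) (T.b (T.l 2) (T.b (T.l 2) (T.a (T.a (T.a (T.l 204) (T.l 204)) (T.l 204)) (T.a (T.l 204) (T.l 204))))))))))), by decide +kernel⟩

def B101E_002 :
    ∃ t, chk3 (onCell 0 67108864 0 1073741824 67108864 67108864 (corTK [] false 3 c0N cB101E gN0q1 gN0q1 gN2q0 gN3q0 true false)) t 1 1 1 = true :=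
  ⟨(T.b (T.b (T.b (T.a (T.a (T.a (T.l 204) (T.l 204)) (T.l 204)) (T.a (T.l 204) (T.l 204))) (T.a (T.a (T.a (T.l 204) (T.l 204)) (T.l 204)) (T.a (T.l 204) (T.b (T.l 204) (T.l 204))))) (T.a (T.a (T.a (T.l 204) (T.l 236)) (T.b (T.l 204) (T.b (T.l 204) (T.l 204)))) (T.b (T.a (T.b (T.l 204) (T.l 204)) (T.l 204)) (T.a (T.l 204) (T.l 204))))) (T.b (T.a (T.a (T.a (T.l 204) (T.l 204)) (T.a (T.b (T.l 204) (T.l 204)) (T.b (T.l 204) (T.l 204)))) (T.a (T.b (T.l 204) (T.l 204)) (T.b (T.l 204) (T.l 204)))) (T.b (T.a (T.a (T.a (T.l 204) (T.l 204)) (T.b (T.l 204) (T.l 204))) (T.a (T.l 204) (T.l 204))) (T.a (T.a (T.a (T.l 204) (T.l 204)) (T.b (T.l 204) (T.l 204))) (T.a (T.l 204) (T.l 204)))))), by decide +kernel⟩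

theorem B101L_200_13_4095_8 :
    ∃ t, chk3 (onCell 0 67108864 0 1073741824 67108864 67108864 (corTK [[⟨0, 1, 2, 33554432⟩, ⟨1, 0, 1, 33554432⟩, ⟨2, 1, 0, 16777216⟩, ⟨0, 0, 0, 1023410176⟩, ⟨0, 1, 0, 150994944⟩, ⟨1, 0, 0, 150994944⟩, ⟨1, 1, 0, 1023410176⟩]] false 3 c0N cB101L gN2q1 gN0q1 gN0q0 gN1q0 true true)) t 13 4095 8 = true :=
  ex3_a B101L_200_26_4095_8 B101L_200_27_4095_8
theorem B101L_200_13_2047_8 :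
    ∃ t, chk3 (onCell 0 67108864 0 1073741824 67108864 67108864 (corTK [[⟨0, 1, 2, 33554432⟩, ⟨1, 0, 1, 33554432⟩, ⟨2, 1, 0, 16777216⟩, ⟨0, 0, 0, 1023410176⟩, ⟨0, 1, 0, 150994944⟩, ⟨1, 0, 0, 150994944⟩, ⟨1, 1, 0, 1023410176⟩]] false 3 c0N cB101L gN2q1 gN0q1 gN0q0 gN1q0 true true)) t 13 2047 8 = true :=
  ex3_b B101L_200_13_4094_8 B101L_200_13_4095_8
theorem B101L_200_13_2047_4 :
    ∃ t, chk3 (onCell 0 67108864 0 1073741824 67108864 67108864 (corTK [[⟨0, 1, 2, 33554432⟩, ⟨1, 0, 1, 33554432⟩, ⟨2, 1, 0, 16777216⟩, ⟨0, 0, 0, 1023410176⟩, ⟨0, 1, 0, 150994944⟩, ⟨1, 0, 0, 150994944⟩, ⟨1, 1, 0, 1023410176⟩]] false 3 c0N cB101L gN2q1 gN0q1 gN0q0 gN1q0 true true)) t 13 2047 4 = true :=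
  ex3_c B101L_200_13_2047_8 B101L_200_13_2047_9
theorem B101L_200_25_8191_16 :
    ∃ t, chk3 (onCell 0 67108864 0 1073741824 67108864 67108864 (corTK [[⟨0, 1, 2, 33554432⟩, ⟨1, 0, 1, 33554432⟩, ⟨2, 1, 0, 16777216⟩, ⟨0, 0, 0, 1023410176⟩, ⟨0, 1, 0, 150994944⟩, ⟨1, 0, 0, 150994944⟩, ⟨1, 1, 0, 1023410176⟩]] false 3 c0N cB101L gN2q1 gN0q1 gN0q0 gN1q0 true true)) t 25 8191 16 = true :=
  ex3_a B101L_200_50_8191_16 B101L_200_51_8191_16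
theorem B101L_200_25_4095_16 :
    ∃ t, chk3 (onCell 0 67108864 0 1073741824 67108864 67108864 (corTK [[⟨0, 1, 2, 33554432⟩, ⟨1, 0, 1, 33554432⟩, ⟨2, 1, 0, 16777216⟩, ⟨0, 0, 0, 1023410176⟩, ⟨0, 1, 0, 150994944⟩, ⟨1, 0, 0, 150994944⟩, ⟨1, 1, 0, 1023410176⟩]] false 3 c0N cB101L gN2q1 gN0q1 gN0q0 gN1q0 true true)) t 25 4095 16 = true :=
  ex3_b B101L_200_25_8190_16 B101L_200_25_8191_16
theorem B101L_200_25_4095_8 :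
    ∃ t, chk3 (onCell 0 67108864 0 1073741824 67108864 67108864 (corTK [[⟨0, 1, 2, 33554432⟩, ⟨1, 0, 1, 33554432⟩, ⟨2, 1, 0, 16777216⟩, ⟨0, 0, 0, 1023410176⟩, ⟨0, 1, 0, 150994944⟩, ⟨1, 0, 0, 150994944⟩, ⟨1, 1, 0, 1023410176⟩]] false 3 c0N cB101L gN2q1 gN0q1 gN0q0 gN1q0 true true)) t 25 4095 8 = true :=
  ex3_c B101L_200_25_4095_16 B101L_200_25_4095_17
theorem B101L_200_12_4095_8 :
    ∃ t, chk3 (onCell 0 67108864 0 1073741824 67108864 67108864 (corTK [[⟨0, 1, 2, 33554432⟩, ⟨1, 0, 1, 33554432⟩, ⟨2, 1, 0, 16777216⟩, ⟨0, 0, 0, 1023410176⟩, ⟨0, 1, 0, 150994944⟩, ⟨1, 0, 0, 150994944⟩, ⟨1, 1, 0, 1023410176⟩]] false 3 c0N cB101L gN2q1 gN0q1 gN0q0 gN1q0 true true)) t 12 4095 8 = true :=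
  ex3_a B101L_200_24_4095_8 B101L_200_25_4095_8
theorem B101L_200_12_2047_8 :
    ∃ t, chk3 (onCell 0 67108864 0 1073741824 67108864 67108864 (corTK [[⟨0, 1, 2, 33554432⟩, ⟨1, 0, 1, 33554432⟩, ⟨2, 1, 0, 16777216⟩, ⟨0, 0, 0, 1023410176⟩, ⟨0, 1, 0, 150994944⟩, ⟨1, 0, 0, 150994944⟩, ⟨1, 1, 0, 1023410176⟩]] false 3 c0N cB101L gN2q1 gN0q1 gN0q0 gN1q0 true true)) t 12 2047 8 = true :=
  ex3_b B101L_200_12_4094_8 B101L_200_12_4095_8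
theorem B101L_200_12_2047_4 :
    ∃ t, chk3 (onCell 0 67108864 0 1073741824 67108864 67108864 (corTK [[⟨0, 1, 2, 33554432⟩, ⟨1, 0, 1, 33554432⟩, ⟨2, 1, 0, 16777216⟩, ⟨0, 0, 0, 1023410176⟩, ⟨0, 1, 0, 150994944⟩, ⟨1, 0, 0, 150994944⟩, ⟨1, 1, 0, 1023410176⟩]] false 3 c0N cB101L gN2q1 gN0q1 gN0q0 gN1q0 true true)) t 12 2047 4 = true :=
  ex3_c B101L_200_12_2047_8 B101L_200_12_2047_9
theorem B101L_200_6_2047_4 :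
    ∃ t, chk3 (onCell 0 67108864 0 1073741824 67108864 67108864 (corTK [[⟨0, 1, 2, 33554432⟩, ⟨1, 0, 1, 33554432⟩, ⟨2, 1, 0, 16777216⟩, ⟨0, 0, 0, 1023410176⟩, ⟨0, 1, 0, 150994944⟩, ⟨1, 0, 0, 150994944⟩, ⟨1, 1, 0, 1023410176⟩]] false 3 c0N cB101L gN2q1 gN0q1 gN0q0 gN1q0 true true)) t 6 2047 4 = true :=
  ex3_a B101L_200_12_2047_4 B101L_200_13_2047_4
theorem B101L_200_6_1023_4 :
    ∃ t, chk3 (onCell 0 67108864 0 1073741824 67108864 67108864 (corTK [[⟨0, 1, 2, 33554432⟩, ⟨1, 0, 1, 33554432⟩, ⟨2, 1, 0, 16777216⟩, ⟨0, 0, 0, 1023410176⟩, ⟨0, 1, 0, 150994944⟩, ⟨1, 0, 0, 150994944⟩, ⟨1, 1, 0, 1023410176⟩]] false 3 c0N cB101L gN2q1 gN0q1 gN0q0 gN1q0 true true)) t 6 1023 4 = true :=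
  ex3_b B101L_200_6_2046_4 B101L_200_6_2047_4
theorem B101L_200_6_1023_2 :
    ∃ t, chk3 (onCell 0 67108864 0 1073741824 67108864 67108864 (corTK [[⟨0, 1, 2, 33554432⟩, ⟨1, 0, 1, 33554432⟩, ⟨2, 1, 0, 16777216⟩, ⟨0, 0, 0, 1023410176⟩, ⟨0, 1, 0, 150994944⟩, ⟨1, 0, 0, 150994944⟩, ⟨1, 1, 0, 1023410176⟩]] false 3 c0N cB101L gN2q1 gN0q1 gN0q0 gN1q0 true true)) t 6 1023 2 = true :=
  ex3_c B101L_200_6_1023_4 B101L_200_6_1023_5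
theorem B101L_200_3_1023_2 :
    ∃ t, chk3 (onCell 0 67108864 0 1073741824 67108864 67108864 (corTK [[⟨0, 1, 2, 33554432⟩, ⟨1, 0, 1, 33554432⟩, ⟨2, 1, 0, 16777216⟩, ⟨0, 0, 0, 1023410176⟩, ⟨0, 1, 0, 150994944⟩, ⟨1, 0, 0, 150994944⟩, ⟨1, 1, 0, 1023410176⟩]] false 3 c0N cB101L gN2q1 gN0q1 gN0q0 gN1q0 true true)) t 3 1023 2 = true :=
  ex3_a B101L_200_6_1023_2 B101L_200_7_1023_2
theorem B101L_200_3_511_2 :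
    ∃ t, chk3 (onCell 0 67108864 0 1073741824 67108864 67108864 (corTK [[⟨0, 1, 2, 33554432⟩, ⟨1, 0, 1, 33554432⟩, ⟨2, 1, 0, 16777216⟩, ⟨0, 0, 0, 1023410176⟩, ⟨0, 1, 0, 150994944⟩, ⟨1, 0, 0, 150994944⟩, ⟨1, 1, 0, 1023410176⟩]] false 3 c0N cB101L gN2q1 gN0q1 gN0q0 gN1q0 true true)) t 3 511 2 = true :=
  ex3_b B101L_200_3_1022_2 B101L_200_3_1023_2
theorem B101L_200_3_511_1 :
    ∃ t, chk3 (onCell 0 67108864 0 1073741824 67108864 67108864 (corTK [[⟨0, 1, 2, 33554432⟩, ⟨1, 0, 1, 33554432⟩, ⟨2, 1, 0, 16777216⟩, ⟨0, 0, 0, 1023410176⟩, ⟨0, 1, 0, 150994944⟩, ⟨1, 0, 0, 150994944⟩, ⟨1, 1, 0, 1023410176⟩]] false 3 c0N cB101L gN2q1 gN0q1 gN0q0 gN1q0 true true)) t 3 511 1 = true :=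
  ex3_c B101L_200_3_511_2 B101L_200_3_511_3
theorem B101L_200_5_1023_2 :
    ∃ t, chk3 (onCell 0 67108864 0 1073741824 67108864 67108864 (corTK [[⟨0, 1, 2, 33554432⟩, ⟨1, 0, 1, 33554432⟩, ⟨2, 1, 0, 16777216⟩, ⟨0, 0, 0, 1023410176⟩, ⟨0, 1, 0, 150994944⟩, ⟨1, 0, 0, 150994944⟩, ⟨1, 1, 0, 1023410176⟩]] false 3 c0N cB101L gN2q1 gN0q1 gN0q0 gN1q0 true true)) t 5 1023 2 = true :=
  ex3_c B101L_200_5_1023_4 B101L_200_5_1023_5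
theorem B101L_200_2_1023_2 :
    ∃ t, chk3 (onCell 0 67108864 0 1073741824 67108864 67108864 (corTK [[⟨0, 1, 2, 33554432⟩, ⟨1, 0, 1, 33554432⟩, ⟨2, 1, 0, 16777216⟩, ⟨0, 0, 0, 1023410176⟩, ⟨0, 1, 0, 150994944⟩, ⟨1, 0, 0, 150994944⟩, ⟨1, 1, 0, 1023410176⟩]] false 3 c0N cB101L gN2q1 gN0q1 gN0q0 gN1q0 true true)) t 2 1023 2 = true :=
  ex3_a B101L_200_4_1023_2 B101L_200_5_1023_2
theorem B101L_200_2_511_2 :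
    ∃ t, chk3 (onCell 0 67108864 0 1073741824 67108864 67108864 (corTK [[⟨0, 1, 2, 33554432⟩, ⟨1, 0, 1, 33554432⟩, ⟨2, 1, 0, 16777216⟩, ⟨0, 0, 0, 1023410176⟩, ⟨0, 1, 0, 150994944⟩, ⟨1, 0, 0, 150994944⟩, ⟨1, 1, 0, 1023410176⟩]] false 3 c0N cB101L gN2q1 gN0q1 gN0q0 gN1q0 true true)) t 2 511 2 = true :=
  ex3_b B101L_200_2_1022_2 B101L_200_2_1023_2
theorem B101L_200_2_511_1 :
    ∃ t, chk3 (onCell 0 67108864 0 1073741824 67108864 67108864 (corTK [[⟨0, 1, 2, 33554432⟩, ⟨1, 0, 1, 33554432⟩, ⟨2, 1, 0, 16777216⟩, ⟨0, 0, 0, 1023410176⟩, ⟨0, 1, 0, 150994944⟩, ⟨1, 0, 0, 150994944⟩, ⟨1, 1, 0, 1023410176⟩]] false 3 c0N cB101L gN2q1 gN0q1 gN0q0 gN1q0 true true)) t 2 511 1 = true :=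
  ex3_c B101L_200_2_511_2 B101L_200_2_511_3
theorem B101L_200_1_511_1 :
    ∃ t, chk3 (onCell 0 67108864 0 1073741824 67108864 67108864 (corTK [[⟨0, 1, 2, 33554432⟩, ⟨1, 0, 1, 33554432⟩, ⟨2, 1, 0, 16777216⟩, ⟨0, 0, 0, 1023410176⟩, ⟨0, 1, 0, 150994944⟩, ⟨1, 0, 0, 150994944⟩, ⟨1, 1, 0, 1023410176⟩]] false 3 c0N cB101L gN2q1 gN0q1 gN0q0 gN1q0 true true)) t 1 511 1 = true :=
  ex3_a B101L_200_2_511_1 B101L_200_3_511_1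
theorem B101L_200_1_255_1 :
    ∃ t, chk3 (onCell 0 67108864 0 1073741824 67108864 67108864 (corTK [[⟨0, 1, 2, 33554432⟩, ⟨1, 0, 1, 33554432⟩, ⟨2, 1, 0, 16777216⟩, ⟨0, 0, 0, 1023410176⟩, ⟨0, 1, 0, 150994944⟩, ⟨1, 0, 0, 150994944⟩, ⟨1, 1, 0, 1023410176⟩]] false 3 c0N cB101L gN2q1 gN0q1 gN0q0 gN1q0 true true)) t 1 255 1 = true :=
  ex3_b B101L_200_1_510_1 B101L_200_1_511_1
theorem B101L_200_1_127_1 :
    ∃ t, chk3 (onCell 0 67108864 0 1073741824 67108864 67108864 (corTK [[⟨0, 1, 2, 33554432⟩, ⟨1, 0, 1, 33554432⟩, ⟨2, 1, 0, 16777216⟩, ⟨0, 0, 0, 1023410176⟩, ⟨0, 1, 0, 150994944⟩, ⟨1, 0, 0, 150994944⟩, ⟨1, 1, 0, 1023410176⟩]] false 3 c0N cB101L gN2q1 gN0q1 gN0q0 gN1q0 true true)) t 1 127 1 = true :=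
  ex3_b B101L_200_1_254_1 B101L_200_1_255_1
theorem B101L_200_1_63_1 :
    ∃ t, chk3 (onCell 0 67108864 0 1073741824 67108864 67108864 (corTK [[⟨0, 1, 2, 33554432⟩, ⟨1, 0, 1, 33554432⟩, ⟨2, 1, 0, 16777216⟩, ⟨0, 0, 0, 1023410176⟩, ⟨0, 1, 0, 150994944⟩, ⟨1, 0, 0, 150994944⟩, ⟨1, 1, 0, 1023410176⟩]] false 3 c0N cB101L gN2q1 gN0q1 gN0q0 gN1q0 true true)) t 1 63 1 = true :=
  ex3_b B101L_200_1_126_1 B101L_200_1_127_1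
theorem B101L_200_1_31_1 :
    ∃ t, chk3 (onCell 0 67108864 0 1073741824 67108864 67108864 (corTK [[⟨0, 1, 2, 33554432⟩, ⟨1, 0, 1, 33554432⟩, ⟨2, 1, 0, 16777216⟩, ⟨0, 0, 0, 1023410176⟩, ⟨0, 1, 0, 150994944⟩, ⟨1, 0, 0, 150994944⟩, ⟨1, 1, 0, 1023410176⟩]] false 3 c0N cB101L gN2q1 gN0q1 gN0q0 gN1q0 true true)) t 1 31 1 = true :=
  ex3_b B101L_200_1_62_1 B101L_200_1_63_1
theorem B101L_200_1_15_1 :
    ∃ t, chk3 (onCell 0 67108864 0 1073741824 67108864 67108864 (corTK [[⟨0, 1, 2, 33554432⟩, ⟨1, 0, 1, 33554432⟩, ⟨2, 1, 0, 16777216⟩, ⟨0, 0, 0, 1023410176⟩, ⟨0, 1, 0, 150994944⟩, ⟨1, 0, 0, 150994944⟩, ⟨1, 1, 0, 1023410176⟩]] false 3 c0N cB101L gN2q1 gN0q1 gN0q0 gN1q0 true true)) t 1 15 1 = true :=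
  ex3_b B101L_200_1_30_1 B101L_200_1_31_1
theorem B101L_200_1_7_1 :
    ∃ t, chk3 (onCell 0 67108864 0 1073741824 67108864 67108864 (corTK [[⟨0, 1, 2, 33554432⟩, ⟨1, 0, 1, 33554432⟩, ⟨2, 1, 0, 16777216⟩, ⟨0, 0, 0, 1023410176⟩, ⟨0, 1, 0, 150994944⟩, ⟨1, 0, 0, 150994944⟩, ⟨1, 1, 0, 1023410176⟩]] false 3 c0N cB101L gN2q1 gN0q1 gN0q0 gN1q0 true true)) t 1 7 1 = true :=
  ex3_b B101L_200_1_14_1 B101L_200_1_15_1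
theorem B101L_200_1_3_1 :
    ∃ t, chk3 (onCell 0 67108864 0 1073741824 67108864 67108864 (corTK [[⟨0, 1, 2, 33554432⟩, ⟨1, 0, 1, 33554432⟩, ⟨2, 1, 0, 16777216⟩, ⟨0, 0, 0, 1023410176⟩, ⟨0, 1, 0, 150994944⟩, ⟨1, 0, 0, 150994944⟩, ⟨1, 1, 0, 1023410176⟩]] false 3 c0N cB101L gN2q1 gN0q1 gN0q0 gN1q0 true true)) t 1 3 1 = true :=
  ex3_b B101L_200_1_6_1 B101L_200_1_7_1
theorem B101L_200 :
    ∃ t, chk3 (onCell 0 67108864 0 1073741824 67108864 67108864 (corTK [[⟨0, 1, 2, 33554432⟩, ⟨1, 0, 1, 33554432⟩, ⟨2, 1, 0, 16777216⟩, ⟨0, 0, 0, 1023410176⟩, ⟨0, 1, 0, 150994944⟩, ⟨1, 0, 0, 150994944⟩, ⟨1, 1, 0, 1023410176⟩]] false 3 c0N cB101L gN2q1 gN0q1 gN0q0 gN1q0 true true)) t 1 1 1 = true :=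
  ex3_b B101L_200_1_2_1 B101L_200_1_3_1

def B101L_201 :
    ∃ t, chk3 (onCell 0 67108864 0 1073741824 67108864 67108864 (corTK [[⟨0, 1, 2, 33554432⟩, ⟨1, 0, 1, 33554432⟩, ⟨2, 1, 0, 16777216⟩, ⟨0, 0, 0, 1023410176⟩, ⟨0, 1, 0, 150994944⟩, ⟨1, 0, 0, 150994944⟩, ⟨1, 1, 0, 1023410176⟩]] false 3 c0N cB101L gN2q1 gN0q1 gN1q0 gN2q0 true true)) t 1 1 1 = true :=
  ⟨(T.l 1), by decide +kernel⟩

def B101L_202 :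
    ∃ t, chk3 (onCell 0 67108864 0 1073741824 67108864 67108864 (corTK [[⟨0, 1, 2, 33554432⟩, ⟨1, 0, 1, 33554432⟩, ⟨2, 1, 0, 16777216⟩, ⟨0, 0, 0, 1023410176⟩, ⟨0, 1, 0, 150994944⟩, ⟨1, 0, 0, 150994944⟩, ⟨1, 1, 0, 1023410176⟩]] false 3 c0N cB101L gN2q1 gN0q1 gN2q0 gN3q0 true false)) t 1 1 1 = true :=
  ⟨(T.l 1), by decide +kernel⟩

def B101L_300 :
    ∃ t, chk3 (onCell 0 67108864 0 1073741824 67108864 67108864 (corTK [] false 3 c0N cB101L gN3q1 gN0q1 gN0q0 gN1q0 true true)) t 1 1 1 = true :=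
  ⟨(T.b (T.l 1) (T.b (T.l 1) (T.b (T.b (T.l 1) (T.b (T.l 1) (T.b (T.l 1) (T.b (T.b (T.l 1) (T.a (T.c (T.b (T.l 1) (T.a (T.a (T.l 816) (T.a (T.l 816) (T.l 816))) (T.c (T.b (T.l 1) (T.a (T.a (T.l 816) (T.l 816)) (T.l 816))) (T.a (T.a (T.l 816) (T.l 816)) (T.l 880))))) (T.b (T.l 1) (T.a (T.a (T.l 816) (T.a (T.l 816) (T.l 816))) (T.c (T.a (T.a (T.l 816) (T.l 816)) (T.l 816)) (T.a (T.a (T.l 816) (T.l 816)) (T.l 816)))))) (T.a (T.a (T.a (T.c (T.b (T.l 1) (T.l 816)) (T.l 816)) (T.l 1)) (T.l 1)) (T.l 1)))) (T.b (T.a (T.c (T.b (T.a (T.a (T.l 816) (T.a (T.l 816) (T.l 816))) (T.a (T.a (T.l 816) (T.l 816)) (T.l 820))) (T.a (T.a (T.l 816) (T.a (T.l 816) (T.l 816))) (T.a (T.c (T.l 816) (T.l 816)) (T.l 816)))) (T.b (T.a (T.a (T.l 816) (T.a (T.l 816) (T.l 816))) (T.a (T.c (T.l 816) (T.l 816)) (T.l 816))) (T.a (T.a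 (T.l 816) (T.a (T.l 816) (T.l 816))) (T.a (T.l 816) (T.l 816))))) (T.c (T.a (T.a (T.l 816) (T.l 816)) (T.a (T.c (T.l 816) (T.l 816)) (T.c (T.l 820) (T.l 816)))) (T.a (T.a (T.l 816) (T.l 816)) (T.a (T.l 816) (T.l 816))))) (T.a (T.c (T.b (T.a (T.a (T.l 816) (T.a (T.l 816) (T.l 816))) (T.a (T.l 816) (T.l 816))) (T.a (T.a (T.l 816) (T.c (T.l 816) (T.l 816))) (T.a (T.l 816) (T.l 816)))) (T.b (T.a (T.a (T.l 816) (T.a (T.l 816) (T.l 816))) (T.a (T.l 816) (T.l 816))) (T.a (T.a (T.l 816) (T.a (T.l 816) (T.l 816))) (T.a (T.l 816) (T.l 816))))) (T.a (T.a (T.l 816) (T.l 816)) (T.a (T.l 816) (T.l 816))))))))) (T.b (T.b (T.b (T.b (T.b (T.a (T.c (T.a (T.a (T.l 816) (T.l 816)) (T.a (T.l 0) (T.l 816))) (T.a (T.a (T.l 816) (T.c (T.l 816) (T.l 816))) (T.a (T.l 0) (T.l 816)))) (T.a (T.c (T.l 0) (T.l 0)) (T.c (T.l 0) (T.l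 0)))) (T.a (T.a (T.a (T.l 816) (T.c (T.l 0) (T.l 0))) (T.a (T.l 0) (T.l 0))) (T.a (T.c (T.l 0) (T.l 0)) (T.l 20)))) (T.b (T.a (T.a (T.a (T.l 816) (T.l 64)) (T.a (T.l 0) (T.l 0))) (T.a (T.l 0) (T.l 0))) (T.a (T.a (T.a (T.l 816) (T.l 0)) (T.a (T.l 0) (T.l 0))) (T.a (T.l 0) (T.l 0))))) (T.b (T.a (T.a (T.a (T.l 816) (T.l 0)) (T.a (T.l 0) (T.l 0))) (T.a (T.l 0) (T.l 0))) (T.a (T.a (T.a (T.l 0) (T.l 0)) (T.c (T.l 0) (T.l 0))) (T.a (T.l 0) (T.l 0))))) (T.a (T.a (T.a (T.l 0) (T.l 0)) (T.a (T.l 0) (T.l 0))) (T.a (T.l 16) (T.l 0)))) (T.a (T.a (T.a (T.l 204) (T.l 0)) (T.a (T.l 0) (T.l 0))) (T.a (T.l 16) (T.l 204))))))), by decide +kernel⟩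

def B101L_301 :
    ∃ t, chk3 (onCell 0 67108864 0 1073741824 67108864 67108864 (corTK [] false 3 c0N cB101L gN3q1 gN0q1 gN1q0 gN2q0 true true)) t 1 1 1 = true :=
  ⟨(T.l 1), by decide +kernel⟩

def B101L_302 :
    ∃ t, chk3 (onCell 0 67108864 0 1073741824 67108864 67108864 (corTK [] false 3 c0N cB101L gN3q1 gN0q1 gN2q0 gN3q0 true false)) t 1 1 1 = true :=
  ⟨(T.l 1), by decide +kernel⟩

def B101L_400 :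
    ∃ t, chk3 (onCell 0 67108864 0 1073741824 67108864 67108864 (corTK [] false 3 c0N cB101L gN4q1 gN0q1 gN0q0 gN1q0 true true)) t 1 1 1 = true :=
  ⟨(T.b (T.l 1) (T.b (T.b (T.l 1) (T.b (T.b (T.l 1) (T.b (T.b (T.a (T.a (T.l 1) (T.b (T.l 1) (T.c (T.b (T.l 1) (T.a (T.l 1) (T.c (T.b (T.l 1) (T.a (T.c (T.b (T.l 1) (T.l 204)) (T.l 204)) (T.l 0))) (T.b (T.l 1) (T.a (T.l 204) (T.l 0)))))) (T.b (T.l 1) (T.a (T.l 1) (T.c (T.b (T.l 1) (T.a (T.l 204) (T.l 0))) (T.b (T.l 1) (T.a (T.l 204) (T.l 0))))))))) (T.b (T.a (T.l 1) (T.a (T.l 1) (T.a (T.l 1) (T.c (T.b (T.l 1) (T.c (T.b (T.l 1) (T.c (T.b (T.l 1) (T.l 204)) (T.b (T.l 1) (T.l 204)))) (T.b (T.l 1) (T.c (T.a (T.l 204) (T.l 204)) (T.l 204))))) (T.b (T.l 1) (T.c (T.b (T.l 1) (T.l 204)) (T.b (T.l 1) (T.l 204)))))))) (T.a (T.c (T.b (T.a (T.l 1) (T.c (T.b (T.l 1)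 (T.a (T.c (T.b (T.l 1) (T.l 204)) (T.b (T.l 1) (T.l 204))) (T.c (T.l 204) (T.l 204)))) (T.b (T.l 1) (T.a (T.a (T.l 1) (T.l 204)) (T.l 204))))) (T.a (T.c (T.a (T.b (T.c (T.b (T.l 1) (T.l 204)) (T.b (T.l 1) (T.l 204))) (T.l 204)) (T.l 204)) (T.a (T.a (T.c (T.c (T.a (T.a (T.l 204) (T.l 204)) (T.l 204)) (T.l 204)) (T.l 204)) (T.l 204)) (T.l 204))) (T.l 0))) (T.b (T.a (T.l 1) (T.c (T.b (T.l 1) (T.a (T.a (T.l 1) (T.l 204)) (T.l 204))) (T.b (T.l 1) (T.a (T.l 0) (T.l 204))))) (T.a (T.a (T.c (T.l 0) (T.l 0)) (T.l 0)) (T.l 0)))) (T.a (T.c (T.b (T.c (T.b (T.c (T.b (T.l 1) (T.a (T.a (T.l 1) (T.l 204)) (T.l 204))) (T.b (T.l 1) (T.a (T.l 204) (T.l 204)))) (T.l 0)) (T.a (T.b (T.c (T.b (T.l 1) (T.l 204)) (T.a (T.l 1) (T.l 204))) (T.l 204)) (T.l 204))) (T.l 0)) (T.a (T.c (T.a (T.c (T.a (T.c (T.b (T.b (T.l 1) (T.l 204))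 (T.l 204)) (T.l 204)) (T.l 204)) (T.l 204)) (T.l 204)) (T.l 0)) (T.l 0))) (T.c (T.c (T.l 0) (T.l 0)) (T.l 0)))))) (T.a (T.a (T.b (T.c (T.b (T.a (T.a (T.l 1) (T.c (T.b (T.l 1) (T.c (T.b (T.l 1) (T.l 204)) (T.b (T.l 1) (T.l 204)))) (T.b (T.l 1) (T.c (T.b (T.l 1) (T.l 204)) (T.l 204))))) (T.c (T.b (T.a (T.l 1) (T.c (T.b (T.l 1) (T.l 204)) (T.b (T.l 1) (T.l 204)))) (T.l 204)) (T.b (T.a (T.l 1) (T.a (T.l 1) (T.l 204))) (T.l 204)))) (T.l 204)) (T.b (T.a (T.a (T.l 1) (T.c (T.b (T.l 1) (T.l 204)) (T.b (T.l 1) (T.l 204)))) (T.c (T.b (T.a (T.l 1) (T.l 204)) (T.l 204)) (T.b (T.a (T.l 1) (T.l 204)) (T.l 204)))) (T.l 204))) (T.l 204)) (T.a (T.c (T.a (T.c (T.l 204) (T.l 204)) (T.l 204)) (T.l 0)) (T.a (T.l 204) (T.c (T.l 0) (T.l 0))))) (T.a (T.a (T.c (T.l 0) (T.l 0)) (T.c (T.l 0) (T.l 0))) (T.a (T.l 0) (T.l 204)))))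 (T.b (T.a (T.a (T.l 204) (T.a (T.l 204) (T.l 0))) (T.a (T.a (T.l 0) (T.l 204)) (T.c (T.l 0) (T.l 0)))) (T.a (T.a (T.l 204) (T.a (T.l 204) (T.l 204))) (T.a (T.l 0) (T.l 204)))))) (T.b (T.a (T.a (T.l 204) (T.a (T.l 204) (T.l 204))) (T.a (T.a (T.l 204) (T.l 204)) (T.c (T.l 0) (T.l 0)))) (T.a (T.a (T.l 204) (T.a (T.l 204) (T.l 204))) (T.a (T.l 0) (T.l 204)))))) (T.b (T.b (T.a (T.a (T.l 204) (T.b (T.l 0) (T.l 0))) (T.a (T.l 0) (T.l 204))) (T.a (T.a (T.l 204) (T.b (T.l 0) (T.l 204))) (T.a (T.l 204) (T.l 204)))) (T.a (T.a (T.a (T.l 204) (T.l 0)) (T.b (T.l 0) (T.l 0))) (T.a (T.b (T.l 204) (T.l 204)) (T.l 204)))))), by decide +kernel⟩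

def B101L_401 :
    ∃ t, chk3 (onCell 0 67108864 0 1073741824 67108864 67108864 (corTK [] false 3 c0N cB101L gN4q1 gN0q1 gN1q0 gN2q0 true true)) t 1 1 1 = true :=
  ⟨(T.l 1), by decide +kernel⟩

def B101L_402 :
    ∃ t, chk3 (onCell 0 67108864 0 1073741824 67108864 67108864 (corTK [] false 3 c0N cB101L gN4q1 gN0q1 gN2q0 gN3q0 true false)) t 1 1 1 = true :=
  ⟨(T.l 1), by decide +kernel⟩

def B101R_020 :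
    ∃ t, chk3 (onCell 0 67108864 0 1073741824 67108864 67108864 (corTK [] false 3 c0N cB101R gN0q1 gN2q1 gN0q0 gN1q0 true true)) t 1 1 1 = true :=
  ⟨(T.l 1), by decide +kernel⟩

def B101R_021 :
    ∃ t, chk3 (onCell 0 67108864 0 1073741824 67108864 67108864 (corTK [] false 3 c0N cB101R gN0q1 gN2q1 gN1q0 gN2q0 true true)) t 1 1 1 = true :=
  ⟨(T.l 1), by decide +kernel⟩

def B101R_022 :
    ∃ t, chk3 (onCell 0 67108864 0 1073741824 67108864 67108864 (corTK [] false 3 c0N cB101R gN0q1 gN2q1 gN2q0 gN3q0 true false)) t 1 1 1 = true :=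
  ⟨(T.l 1), by decide +kernel⟩

def B101R_030 :
    ∃ t, chk3 (onCell 0 67108864 0 1073741824 67108864 67108864 (corTK [] false 3 c0N cB101R gN0q1 gN3q1 gN0q0 gN1q0 true true)) t 1 1 1 = true :=
  ⟨(T.l 1), by decide +kernel⟩

def B101R_031 :
    ∃ t, chk3 (onCell 0 67108864 0 1073741824 67108864 67108864 (corTK [] false 3 c0N cB101R gN0q1 gN3q1 gN1q0 gN2q0 true true)) t 1 1 1 = true :=
  ⟨(T.l 1), by decide +kernel⟩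

def B101R_032 :
    ∃ t, chk3 (onCell 0 67108864 0 1073741824 67108864 67108864 (corTK [] false 3 c0N cB101R gN0q1 gN3q1 gN2q0 gN3q0 true false)) t 1 1 1 = true :=
  ⟨(T.l 1), by decide +kernel⟩

def B101R_040 :
    ∃ t, chk3 (onCell 0 67108864 0 1073741824 67108864 67108864 (corTK [] false 3 c0N cB101R gN0q1 gN4q1 gN0q0 gN1q0 true true)) t 1 1 1 = true :=
  ⟨(T.l 1), by decide +kernel⟩

def B101R_041 :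
    ∃ t, chk3 (onCell 0 67108864 0 1073741824 67108864 67108864 (corTK [] false 3 c0N cB101R gN0q1 gN4q1 gN1q0 gN2q0 true true)) t 1 1 1 = true :=
  ⟨(T.l 1), by decide +kernel⟩

def B101R_042 :
    ∃ t, chk3 (onCell 0 67108864 0 1073741824 67108864 67108864 (corTK [] false 3 c0N cB101R gN0q1 gN4q1 gN2q0 gN3q0 true false)) t 1 1 1 = true :=
  ⟨(T.l 1), by decide +kernel⟩

end Pool.Agent.Strip051.G.I1_16_1_8.Tab.CN
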