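import Pool.Agent.Strip051.G.I1_16_1_8.Gn
import Pool.Agent.Strip051.PB.Corns
import Pool.Agent.Strip051.PB.CornK

/-! # Certificates of the aligned corners (generated) -/

set_option linter.all false

namespace Pool.Agent.Strip051.G.I1_16_1_8.Tab.CN

open Pool.Agent.Strip051.PB

def B102E_000_1_2_1 :
    ∃ t, chk3 (onCell 0 67108864 0 1073741824 67108864 67108864 (corTK [] false 3 c0N cB102E gN0q1 gN0q2 gN0q0 gN1q0 true true)) t 1 2 1 = true :=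
  ⟨(T.b (T.l 1) (T.b (T.l 1) (T.a (T.b (T.l 1) (T.a (T.b (T.l 1) (T.a (T.b (T.l 1) (T.a (T.b (T.l 1) (T.a (T.b (T.l 1) (T.a (T.c (T.b (T.l 1) (T.a (T.c (T.b (T.l 1) (T.a (T.c (T.b (T.l 1) (T.c (T.b (T.l 1) (T.l 816)) (T.b (T.l 1) (T.l 816)))) (T.b (T.l 1) (T.c (T.b (T.l 1) (T.l 816)) (T.b (T.l 1) (T.l 816))))) (T.l 1))) (T.b (T.l 1) (T.a (T.c (T.b (T.l 1) (T.c (T.b (T.l 1) (T.l 816)) (T.b (T.l 1) (T.l 816)))) (T.b (T.l 1) (T.c (T.b (T.l 1) (T.l 816)) (T.b (T.l 1) (T.l 816))))) (T.l 1)))) (T.l 1))) (T.b (T.l 1) (T.a (T.c (T.b (T.l 1) (T.a (T.c (T.b (T.l 1) (T.c (T.b (T.l 1) (T.l 816)) (T.b (T.l 1) (T.l 816)))) (T.b (T.l 1) (T.c (T.b (T.l 1) (T.l 816)) (T.b (T.l 1) (T.l 816))))) (T.l 1))) (T.b (T.l 1) (T.a (T.c (T.b (T.l 1) (T.c (T.b (T.l 1) (T.l 816)) (T.a (T.l 816) (T.l 1)))) (T.b (T.l 1) (T.a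 (T.l 816) (T.l 1)))) (T.l 1)))) (T.l 1)))) (T.l 1))) (T.l 1))) (T.l 1))) (T.l 1))) (T.l 1))) (T.l 1)))), by decide +kernel⟩

def B102E_000_8_192_1 :
    ∃ t, chk3 (onCell 0 67108864 0 1073741824 67108864 67108864 (corTK [] false 3 c0N cB102E gN0q1 gN0q2 gN0q0 gN1q0 true true)) t 8 192 1 = true :=
  ⟨(T.b (T.c (T.b (T.a (T.c (T.b (T.a (T.c (T.a (T.l 816) (T.b (T.c (T.b (T.l 1) (T.a (T.l 816) (T.l 1))) (T.b (T.l 1) (T.a (T.l 816) (T.l 1)))) (T.l 816))) (T.a (T.l 816) (T.b (T.c (T.b (T.l 1) (T.a (T.l 816) (T.l 1))) (T.b (T.l 1) (T.a (T.l 816) (T.l 1)))) (T.l 816)))) (T.a (T.c (T.b (T.l 1) (T.c (T.b (T.a (T.a (T.l 816) (T.l 1)) (T.l 1)) (T.l 816)) (T.b (T.a (T.a (T.l 816) (T.l 1)) (T.l 1)) (T.l 816)))) (T.b (T.l 1) (T.c (T.b (T.a (T.l 816) (T.l 1)) (T.l 816)) (T.b (T.a (T.l 816) (T.l 1)) (T.l 816)))))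 (T.l 1))) (T.a (T.l 816) (T.a (T.l 816) (T.a (T.l 816) (T.c (T.b (T.c (T.b (T.l 1) (T.l 816)) (T.b (T.l 1) (T.l 816))) (T.l 816)) (T.b (T.c (T.b (T.l 1) (T.l 816)) (T.b (T.l 1) (T.l 816))) (T.l 816))))))) (T.b (T.a (T.a (T.l 816) (T.c (T.b (T.c (T.b (T.l 1) (T.a (T.l 816) (T.l 1))) (T.b (T.l 1) (T.a (T.l 816) (T.l 1)))) (T.l 816)) (T.b (T.c (T.b (T.l 1) (T.a (T.l 816) (T.l 1))) (T.b (T.l 1) (T.l 816))) (T.l 816)))) (T.a (T.c (T.b (T.l 1) (T.c (T.b (T.a (T.l 816) (T.l 1)) (T.l 816)) (T.b (T.a (T.l 816) (T.l 1)) (T.l 816)))) (T.b (T.l 1) (T.c (T.b (T.a (T.l 816) (T.l 1)) (T.l 816)) (T.b (T.a (T.l 816) (T.l 1)) (T.l 816))))) (T.l 1))) (T.a (T.l 816) (T.c (T.a (T.l 816) (T.c (T.a (T.l 816) (T.b (T.b (T.l 1) (T.l 816)) (T.l 816))) (T.l 816))) (T.l 816))))) (T.a (T.c (T.b (T.l 1) (T.c (T.b (T.a (T.a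 (T.c (T.b (T.l 1) (T.l 816)) (T.b (T.l 1) (T.l 816))) (T.l 1)) (T.l 1)) (T.a (T.l 816) (T.c (T.b (T.l 1) (T.a (T.l 816) (T.l 1))) (T.b (T.l 1) (T.a (T.l 816) (T.l 1)))))) (T.b (T.a (T.a (T.c (T.b (T.l 1) (T.l 816)) (T.b (T.l 1) (T.l 816))) (T.l 1)) (T.l 1)) (T.a (T.l 816) (T.c (T.b (T.l 1) (T.a (T.l 816) (T.l 1))) (T.b (T.l 1) (T.l 816))))))) (T.b (T.l 1) (T.c (T.b (T.a (T.a (T.c (T.b (T.l 1) (T.l 816)) (T.b (T.l 1) (T.l 816))) (T.l 1)) (T.l 1)) (T.a (T.l 816) (T.c (T.b (T.l 1) (T.l 816)) (T.b (T.l 1) (T.l 816))))) (T.b (T.a (T.a (T.c (T.b (T.l 1) (T.l 816)) (T.b (T.l 1) (T.l 816))) (T.l 1)) (T.l 1)) (T.a (T.l 816) (T.c (T.b (T.l 1) (T.l 816)) (T.b (T.l 1) (T.l 816)))))))) (T.l 1))) (T.a (T.l 816) (T.a (T.l 816) (T.c (T.b (T.c (T.b (T.a (T.c (T.b (T.a (T.l 816) (T.l 1)) (T.l 816)) (T.b (T.a (T.l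 816) (T.l 1)) (T.l 816))) (T.l 1)) (T.c (T.a (T.l 816) (T.c (T.a (T.l 816) (T.b (T.l 1) (T.l 816))) (T.l 816))) (T.l 816))) (T.b (T.a (T.c (T.b (T.a (T.l 816) (T.l 1)) (T.l 816)) (T.b (T.a (T.l 816) (T.l 1)) (T.l 816))) (T.l 1)) (T.l 816))) (T.l 816)) (T.b (T.c (T.b (T.a (T.c (T.b (T.a (T.l 816) (T.l 1)) (T.l 816)) (T.b (T.a (T.l 816) (T.l 1)) (T.l 816))) (T.l 1)) (T.l 816)) (T.b (T.a (T.c (T.b (T.a (T.l 816) (T.l 1)) (T.l 816)) (T.b (T.a (T.l 816) (T.l 1)) (T.l 816))) (T.l 1)) (T.l 816))) (T.l 816)))))) (T.b (T.a (T.c (T.b (T.a (T.a (T.l 816) (T.c (T.b (T.c (T.b (T.l 1) (T.l 816)) (T.b (T.l 1) (T.l 816))) (T.l 816)) (T.b (T.c (T.b (T.l 1) (T.l 816)) (T.b (T.l 1) (T.l 816))) (T.l 816)))) (T.a (T.c (T.b (T.l 1) (T.c (T.b (T.a (T.l 816) (T.l 1)) (T.l 816)) (T.b (T.a (T.l 816) (T.l 1)) (T.l 816))))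 (T.b (T.l 1) (T.c (T.b (T.a (T.l 816) (T.l 1)) (T.l 816)) (T.b (T.a (T.l 816) (T.l 1)) (T.l 816))))) (T.l 1))) (T.c (T.l 816) (T.l 816))) (T.b (T.a (T.a (T.l 816) (T.c (T.b (T.a (T.l 816) (T.l 1)) (T.l 816)) (T.a (T.l 816) (T.b (T.l 1) (T.l 816))))) (T.a (T.c (T.b (T.l 1) (T.c (T.b (T.a (T.l 816) (T.l 1)) (T.l 816)) (T.b (T.a (T.l 816) (T.l 1)) (T.l 816)))) (T.b (T.l 1) (T.c (T.l 816) (T.l 816)))) (T.l 1))) (T.l 816))) (T.a (T.c (T.b (T.l 1) (T.c (T.b (T.a (T.a (T.c (T.b (T.l 1) (T.l 816)) (T.b (T.l 1) (T.l 816))) (T.l 1)) (T.l 1)) (T.a (T.l 816) (T.a (T.l 816) (T.l 1)))) (T.b (T.a (T.a (T.c (T.b (T.l 1) (T.l 816)) (T.a (T.l 816) (T.l 1))) (T.l 1)) (T.l 1)) (T.a (T.l 816) (T.a (T.l 816) (T.l 1)))))) (T.b (T.l 1) (T.c (T.b (T.a (T.c (T.b (T.l 1) (T.l 816)) (T.b (T.l 1) (T.l 816))) (T.l 1)) (T.a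 (T.l 816) (T.a (T.l 816) (T.l 1)))) (T.b (T.a (T.c (T.b (T.l 1) (T.l 816)) (T.b (T.l 1) (T.l 816))) (T.l 1)) (T.a (T.l 816) (T.a (T.l 816) (T.l 1))))))) (T.l 1))) (T.a (T.l 816) (T.a (T.l 816) (T.c (T.b (T.c (T.b (T.a (T.c (T.b (T.a (T.l 816) (T.l 1)) (T.l 816)) (T.c (T.a (T.l 816) (T.a (T.l 816) (T.l 1))) (T.l 816))) (T.l 1)) (T.l 816)) (T.a (T.l 816) (T.b (T.l 1) (T.l 816)))) (T.l 816)) (T.a (T.l 816) (T.b (T.c (T.b (T.l 1) (T.l 816)) (T.b (T.l 1) (T.l 816))) (T.l 816)))))))) (T.l 816)), by decide +kernel⟩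

def B102E_000_9_192_1 :
    ∃ t, chk3 (onCell 0 67108864 0 1073741824 67108864 67108864 (corTK [] false 3 c0N cB102E gN0q1 gN0q2 gN0q0 gN1q0 true true)) t 9 192 1 = true :=
  ⟨(T.b (T.a (T.c (T.b (T.l 1) (T.c (T.b (T.a (T.a (T.a (T.a (T.c (T.b (T.l 1) (T.c (T.b (T.l 1) (T.l 816)) (T.b (T.l 1) (T.l 816)))) (T.b (T.l 1) (T.c (T.b (T.l 1) (T.l 816)) (T.b (T.l 1) (T.l 816))))) (T.l 1)) (T.l 1)) (T.l 1)) (T.l 1)) (T.a (T.a (T.l 816) (T.c (T.b (T.c (T.b (T.l 1) (T.l 816)) (T.b (T.l 1) (T.l 816))) (T.l 816)) (T.b (T.c (T.b (T.l 1) (T.l 816)) (T.b (T.l 1) (T.l 816))) (T.l 816)))) (T.a (T.c (T.b (T.l 1) (T.c (T.b (T.a (T.l 816) (T.l 1)) (T.l 816)) (T.b (T.a (T.l 816) (T.l 1)) (T.l 816)))) (T.b (T.l 1) (T.c (T.b (T.a (T.l 816) (T.l 1)) (T.l 816)) (T.b (T.a (T.l 816) (T.l 1)) (T.l 816))))) (T.l 1)))) (T.b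 (T.a (T.a (T.a (T.a (T.c (T.b (T.l 1) (T.a (T.l 816) (T.l 1))) (T.b (T.l 1) (T.a (T.l 816) (T.l 1)))) (T.l 1)) (T.l 1)) (T.l 1)) (T.l 1)) (T.a (T.a (T.l 816) (T.c (T.a (T.l 816) (T.b (T.l 1) (T.l 816))) (T.a (T.l 816) (T.b (T.l 1) (T.l 816))))) (T.c (T.b (T.l 1) (T.a (T.c (T.b (T.a (T.l 816) (T.l 1)) (T.l 816)) (T.c (T.a (T.l 816) (T.a (T.l 816) (T.l 1))) (T.l 816))) (T.l 1))) (T.b (T.l 1) (T.a (T.l 816) (T.l 1)))))))) (T.b (T.l 1) (T.c (T.b (T.a (T.a (T.a (T.a (T.c (T.b (T.l 1) (T.l 816)) (T.b (T.l 1) (T.l 816))) (T.l 1)) (T.l 1)) (T.l 1)) (T.l 1)) (T.a (T.a (T.l 816) (T.a (T.l 816) (T.c (T.b (T.l 1) (T.l 816)) (T.b (T.l 1) (T.l 816))))) (T.c (T.b (T.l 1) (T.a (T.l 816) (T.l 1))) (T.b (T.l 1) (T.a (T.l 816) (T.l 1)))))) (T.b (T.a (T.a (T.a (T.c (T.b (T.l 1) (T.l 816)) (T.b (T.l 1) (T.l 816)))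 (T.l 1)) (T.l 1)) (T.l 1)) (T.a (T.c (T.a (T.l 816) (T.a (T.l 816) (T.b (T.l 1) (T.l 816)))) (T.l 816)) (T.c (T.b (T.l 1) (T.a (T.l 816) (T.l 1))) (T.b (T.l 1) (T.a (T.l 816) (T.l 1))))))))) (T.l 1)) (T.a (T.c (T.c (T.c (T.a (T.l 816) (T.l 816)) (T.l 816)) (T.l 816)) (T.c (T.l 816) (T.l 816))) (T.c (T.b (T.c (T.b (T.a (T.c (T.b (T.a (T.a (T.c (T.b (T.l 1) (T.l 816)) (T.b (T.l 1) (T.l 816))) (T.l 1)) (T.l 1)) (T.a (T.l 816) (T.a (T.l 816) (T.l 1)))) (T.b (T.a (T.a (T.c (T.b (T.l 1) (T.l 816)) (T.a (T.l 816) (T.l 1))) (T.l 1)) (T.l 1)) (T.a (T.l 816) (T.a (T.l 816) (T.l 1))))) (T.l 1)) (T.a (T.l 816) (T.c (T.b (T.a (T.c (T.b (T.a (T.l 816) (T.l 1)) (T.l 816)) (T.b (T.a (T.l 816) (T.l 1)) (T.l 816))) (T.l 1)) (T.l 816)) (T.b (T.a (T.c (T.c (T.l 816) (T.l 816)) (T.l 816)) (T.l 1)) (T.l 816))))) (T.b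 (T.a (T.c (T.b (T.a (T.c (T.b (T.l 1) (T.l 816)) (T.b (T.l 1) (T.l 816))) (T.l 1)) (T.a (T.l 816) (T.a (T.l 816) (T.l 1)))) (T.b (T.a (T.c (T.b (T.l 1) (T.l 816)) (T.b (T.l 1) (T.l 816))) (T.l 1)) (T.a (T.l 816) (T.a (T.l 816) (T.l 1))))) (T.l 1)) (T.a (T.l 816) (T.a (T.l 816) (T.c (T.b (T.l 1) (T.l 816)) (T.b (T.l 1) (T.l 816))))))) (T.l 816)) (T.b (T.c (T.b (T.a (T.c (T.b (T.a (T.a (T.l 816) (T.l 1)) (T.l 1)) (T.a (T.l 816) (T.a (T.l 816) (T.l 1)))) (T.b (T.a (T.a (T.l 816) (T.l 1)) (T.l 1)) (T.l 816))) (T.l 1)) (T.a (T.l 816) (T.a (T.l 816) (T.c (T.b (T.l 1) (T.l 816)) (T.b (T.l 1) (T.l 816)))))) (T.b (T.a (T.c (T.b (T.a (T.a (T.l 816) (T.l 1)) (T.l 1)) (T.l 816)) (T.b (T.a (T.a (T.l 816) (T.l 1)) (T.l 1)) (T.l 816))) (T.l 1)) (T.a (T.l 816) (T.a (T.l 816) (T.c (T.b (T.l 1) (T.l 816)) (T.b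 (T.l 1) (T.l 816))))))) (T.l 816))))), by decide +kernel⟩

def B102E_000_5_192_1 :
    ∃ t, chk3 (onCell 0 67108864 0 1073741824 67108864 67108864 (corTK [] false 3 c0N cB102E gN0q1 gN0q2 gN0q0 gN1q0 true true)) t 5 192 1 = true :=
  ⟨(T.a (T.b (T.l 1) (T.c (T.b (T.a (T.a (T.a (T.a (T.c (T.b (T.l 1) (T.a (T.l 1) (T.l 1))) (T.b (T.l 1) (T.a (T.l 1) (T.l 1)))) (T.l 1)) (T.l 1)) (T.l 1)) (T.l 1)) (T.a (T.c (T.b (T.a (T.a (T.l 816) (T.a (T.l 816) (T.c (T.b (T.l 1) (T.l 816)) (T.b (T.l 1) (T.l 816))))) (T.c (T.b (T.l 1) (T.a (T.l 816) (T.l 1))) (T.b (T.l 1) (T.a (T.l 816) (T.l 1))))) (T.l 816)) (T.b (T.a (T.a (T.l 816) (T.a (T.l 816) (T.c (T.b (T.l 1) (T.l 816)) (T.b (T.l 1) (T.l 816))))) (T.c (T.b (T.l 1) (T.a (T.l 816) (T.l 1))) (T.b (T.l 1) (T.a (T.l 816) (T.l 1))))) (T.l 816))) (T.a (T.c (T.b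 (T.l 1) (T.c (T.b (T.a (T.l 1) (T.l 1)) (T.a (T.l 816) (T.a (T.l 816) (T.l 1)))) (T.b (T.a (T.l 1) (T.l 1)) (T.a (T.l 816) (T.a (T.l 816) (T.l 1)))))) (T.b (T.l 1) (T.c (T.b (T.a (T.l 1) (T.l 1)) (T.a (T.l 816) (T.a (T.l 816) (T.l 1)))) (T.b (T.a (T.l 1) (T.l 1)) (T.a (T.l 816) (T.l 816)))))) (T.l 1)))) (T.b (T.a (T.a (T.a (T.a (T.c (T.b (T.l 1) (T.a (T.l 1) (T.l 1))) (T.b (T.l 1) (T.a (T.l 1) (T.l 1)))) (T.l 1)) (T.l 1)) (T.l 1)) (T.l 1)) (T.a (T.c (T.b (T.a (T.l 816) (T.c (T.b (T.l 1) (T.a (T.l 816) (T.l 1))) (T.b (T.l 1) (T.a (T.l 816) (T.l 1))))) (T.l 816)) (T.a (T.l 816) (T.b (T.c (T.b (T.l 1) (T.a (T.l 816) (T.l 1))) (T.b (T.l 1) (T.a (T.l 816) (T.l 1)))) (T.l 816)))) (T.a (T.c (T.b (T.l 1) (T.c (T.b (T.a (T.l 1) (T.l 1)) (T.a (T.l 816) (T.l 816))) (T.b (T.a (T.l 1) (T.l 1)) (T.c (T.l 816)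 (T.l 816))))) (T.b (T.l 1) (T.c (T.b (T.a (T.l 1) (T.l 1)) (T.l 816)) (T.b (T.a (T.l 1) (T.l 1)) (T.l 816))))) (T.l 1)))))) (T.l 1)), by decide +kernel⟩

def B102E_000_2_193_1 :
    ∃ t, chk3 (onCell 0 67108864 0 1073741824 67108864 67108864 (corTK [] false 3 c0N cB102E gN0q1 gN0q2 gN0q0 gN1q0 true true)) t 2 193 1 = true :=
  ⟨(T.a (T.a (T.l 0) (T.c (T.l 0) (T.l 0))) (T.a (T.a (T.l 0) (T.b (T.c (T.b (T.a (T.c (T.l 816) (T.l 816)) (T.c (T.b (T.c (T.a (T.l 816) (T.b (T.l 1) (T.l 816))) (T.a (T.l 816) (T.b (T.l 1) (T.l 816)))) (T.l 816)) (T.a (T.l 816) (T.b (T.c (T.b (T.l 1) (T.l 816)) (T.b (T.l 1) (T.l 816))) (T.l 816))))) (T.l 0)) (T.a (T.l 816) (T.b (T.c (T.a (T.l 816) (T.a (T.l 816) (T.b (T.c (T.b (T.l 1) (T.l 816)) (T.b (T.l 1) (T.l 816))) (T.l 816)))) (T.a (T.l 816) (T.a (T.l 816) (T.c (T.b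 (T.b (T.l 1) (T.l 816)) (T.l 816)) (T.l 816))))) (T.l 816)))) (T.l 0))) (T.b (T.a (T.c (T.b (T.c (T.b (T.a (T.a (T.l 1) (T.l 1)) (T.l 1)) (T.a (T.a (T.l 816) (T.a (T.l 816) (T.c (T.b (T.l 1) (T.l 816)) (T.l 816)))) (T.c (T.b (T.l 1) (T.a (T.l 816) (T.l 1))) (T.b (T.l 1) (T.a (T.l 816) (T.l 1)))))) (T.b (T.a (T.a (T.l 1) (T.l 1)) (T.l 1)) (T.a (T.a (T.l 816) (T.l 816)) (T.c (T.b (T.l 1) (T.a (T.l 816) (T.l 1))) (T.b (T.l 1) (T.a (T.l 816) (T.l 1))))))) (T.a (T.l 816) (T.c (T.l 816) (T.l 816)))) (T.b (T.c (T.b (T.a (T.a (T.l 1) (T.l 1)) (T.l 1)) (T.a (T.l 816) (T.c (T.b (T.l 1) (T.a (T.l 816) (T.l 1))) (T.b (T.l 1) (T.a (T.l 816) (T.l 1)))))) (T.b (T.a (T.a (T.l 1) (T.l 1)) (T.l 1)) (T.a (T.l 816) (T.c (T.b (T.l 1) (T.a (T.l 816) (T.l 1))) (T.b (T.l 1) (T.c (T.l 816) (T.l 816))))))) (T.a (T.l 816)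 (T.l 816)))) (T.c (T.b (T.l 1) (T.c (T.b (T.a (T.c (T.b (T.l 1) (T.a (T.l 816) (T.l 816))) (T.b (T.l 1) (T.l 816))) (T.l 1)) (T.a (T.l 816) (T.a (T.l 816) (T.c (T.b (T.l 1) (T.l 816)) (T.b (T.l 1) (T.l 816)))))) (T.b (T.a (T.c (T.b (T.l 1) (T.l 816)) (T.b (T.l 1) (T.l 816))) (T.l 1)) (T.a (T.l 816) (T.a (T.l 816) (T.c (T.b (T.l 1) (T.l 816)) (T.b (T.l 1) (T.l 816)))))))) (T.b (T.l 1) (T.c (T.b (T.a (T.c (T.b (T.l 1) (T.l 816)) (T.b (T.l 1) (T.l 816))) (T.l 1)) (T.a (T.l 816) (T.a (T.l 816) (T.c (T.c (T.l 816) (T.l 816)) (T.l 816))))) (T.b (T.a (T.c (T.b (T.l 1) (T.l 816)) (T.b (T.l 1) (T.l 816))) (T.l 1)) (T.a (T.l 816) (T.c (T.l 816) (T.l 816)))))))) (T.a (T.c (T.l 0) (T.l 0)) (T.c (T.c (T.l 0) (T.l 0)) (T.l 0)))))), by decide +kernel⟩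

def B102E_000_3_96_1 :
    ∃ t, chk3 (onCell 0 67108864 0 1073741824 67108864 67108864 (corTK [] false 3 c0N cB102E gN0q1 gN0q2 gN0q0 gN1q0 true true)) t 3 96 1 = true :=
  ⟨(T.a (T.b (T.l 1) (T.b (T.a (T.a (T.a (T.c (T.b (T.l 1) (T.a (T.l 1) (T.l 1))) (T.b (T.l 1) (T.a (T.l 1) (T.l 1)))) (T.l 1)) (T.l 1)) (T.l 1)) (T.a (T.a (T.c (T.b (T.a (T.c (T.a (T.l 816) (T.l 816)) (T.l 816)) (T.c (T.b (T.c (T.b (T.l 1) (T.a (T.l 816) (T.l 1))) (T.b (T.l 1) (T.a (T.l 816) (T.l 1)))) (T.l 816)) (T.b (T.c (T.b (T.l 1) (T.a (T.l 816) (T.l 1))) (T.b (T.l 1) (T.a (T.l 816) (T.l 1)))) (T.l 816)))) (T.l 816)) (T.b (T.a (T.l 816) (T.c (T.b (T.c (T.b (T.l 1) (T.l 816)) (T.b (T.l 1) (T.l 816))) (T.l 816)) (T.b (T.a (T.l 816) (T.l 1)) (T.l 816)))) (T.l 816))) (T.c (T.b (T.a (T.c (T.b (T.l 1) (T.c (T.b (T.l 1) (T.l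 816)) (T.b (T.l 1) (T.l 816)))) (T.b (T.l 1) (T.c (T.b (T.l 1) (T.l 816)) (T.b (T.l 1) (T.l 816))))) (T.l 1)) (T.a (T.l 816) (T.a (T.l 816) (T.c (T.b (T.c (T.b (T.l 1) (T.l 816)) (T.b (T.l 1) (T.l 816))) (T.l 816)) (T.c (T.c (T.l 816) (T.l 816)) (T.l 816)))))) (T.b (T.a (T.c (T.b (T.l 1) (T.c (T.b (T.l 1) (T.l 816)) (T.b (T.l 1) (T.l 816)))) (T.b (T.l 1) (T.c (T.b (T.l 1) (T.l 816)) (T.a (T.l 816) (T.l 816))))) (T.l 1)) (T.a (T.l 816) (T.c (T.l 816) (T.l 816)))))) (T.a (T.c (T.b (T.l 1) (T.c (T.b (T.a (T.l 1) (T.l 1)) (T.a (T.l 816) (T.c (T.b (T.l 1) (T.a (T.l 816) (T.l 1))) (T.b (T.l 1) (T.a (T.l 816) (T.l 1)))))) (T.b (T.a (T.l 1) (T.l 1)) (T.a (T.l 816) (T.c (T.b (T.l 1) (T.c (T.l 816) (T.l 816))) (T.b (T.l 1) (T.l 816))))))) (T.b (T.l 1) (T.c (T.b (T.a (T.l 1) (T.l 1)) (T.a (T.l 816) (T.a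 (T.l 816) (T.l 1)))) (T.b (T.a (T.l 1) (T.l 1)) (T.a (T.l 816) (T.a (T.l 816) (T.l 1))))))) (T.l 1))))) (T.l 1)), by decide +kernel⟩

def B102E_000_1_97_1 :
    ∃ t, chk3 (onCell 0 67108864 0 1073741824 67108864 67108864 (corTK [] false 3 c0N cB102E gN0q1 gN0q2 gN0q0 gN1q0 true true)) t 1 97 1 = true :=
  ⟨(T.a (T.a (T.a (T.l 204) (T.l 0)) (T.a (T.a (T.l 0) (T.l 0)) (T.a (T.l 0) (T.l 0)))) (T.a (T.a (T.b (T.a (T.l 0) (T.c (T.l 0) (T.l 0))) (T.l 0)) (T.b (T.a (T.b (T.a (T.l 0) (T.c (T.c (T.l 816) (T.l 816)) (T.l 816))) (T.l 0)) (T.b (T.c (T.b (T.c (T.b (T.a (T.c (T.b (T.l 1) (T.l 816)) (T.b (T.l 1) (T.l 816))) (T.l 1)) (T.a (T.l 816) (T.a (T.l 816) (T.c (T.b (T.l 1) (T.l 816)) (T.l 816))))) (T.b (T.a (T.c (T.b (T.l 1) (T.l 816)) (T.b (T.l 1) (T.l 816))) (T.l 1)) (T.a (T.l 816) (T.c (T.l 816) (T.l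 816))))) (T.l 816)) (T.b (T.c (T.b (T.a (T.c (T.b (T.l 1) (T.l 816)) (T.a (T.l 816) (T.l 816))) (T.l 1)) (T.a (T.l 816) (T.l 816))) (T.a (T.c (T.l 816) (T.l 816)) (T.b (T.l 1) (T.l 816)))) (T.l 816))) (T.l 0))) (T.l 0))) (T.b (T.a (T.b (T.c (T.b (T.a (T.a (T.l 1) (T.l 1)) (T.l 1)) (T.a (T.a (T.c (T.l 816) (T.l 816)) (T.c (T.b (T.c (T.b (T.l 1) (T.a (T.l 816) (T.l 1))) (T.b (T.l 1) (T.a (T.l 816) (T.l 1)))) (T.l 816)) (T.b (T.c (T.b (T.l 1) (T.l 816)) (T.a (T.l 816) (T.l 1))) (T.l 816)))) (T.a (T.c (T.b (T.l 1) (T.c (T.b (T.l 1) (T.l 816)) (T.b (T.l 1) (T.l 816)))) (T.b (T.l 1) (T.c (T.b (T.l 1) (T.l 816)) (T.b (T.l 1) (T.l 816))))) (T.l 1)))) (T.b (T.a (T.a (T.l 1) (T.l 1)) (T.l 1)) (T.a (T.a (T.l 816) (T.c (T.a (T.l 816) (T.b (T.l 1) (T.l 816))) (T.a (T.l 816) (T.b (T.l 1) (T.l 816))))) (T.a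 (T.c (T.b (T.l 1) (T.c (T.b (T.l 1) (T.l 816)) (T.b (T.l 1) (T.l 816)))) (T.b (T.l 1) (T.c (T.l 816) (T.l 816)))) (T.l 1))))) (T.a (T.c (T.l 0) (T.l 0)) (T.c (T.a (T.l 816) (T.b (T.a (T.l 816) (T.c (T.a (T.l 816) (T.b (T.c (T.b (T.l 1) (T.l 816)) (T.b (T.l 1) (T.l 816))) (T.l 816))) (T.c (T.l 816) (T.l 816)))) (T.l 816))) (T.a (T.l 816) (T.c (T.c (T.l 816) (T.l 816)) (T.l 816)))))) (T.b (T.l 1) (T.c (T.b (T.a (T.c (T.b (T.l 1) (T.a (T.l 944) (T.c (T.b (T.l 1) (T.a (T.l 816) (T.l 1))) (T.b (T.l 1) (T.a (T.l 816) (T.l 1)))))) (T.b (T.l 1) (T.a (T.l 816) (T.c (T.b (T.l 1) (T.a (T.l 816) (T.l 1))) (T.b (T.l 1) (T.l 816)))))) (T.l 1)) (T.a (T.c (T.l 816) (T.l 816)) (T.c (T.b (T.a (T.c (T.b (T.l 1) (T.l 816)) (T.b (T.l 1) (T.l 816))) (T.l 1)) (T.a (T.l 816) (T.a (T.l 816) (T.c (T.b (T.l 1) (T.l 816))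 (T.b (T.l 1) (T.l 816)))))) (T.b (T.a (T.c (T.b (T.l 1) (T.l 816)) (T.b (T.l 1) (T.l 816))) (T.l 1)) (T.a (T.l 816) (T.a (T.l 816) (T.c (T.b (T.l 1) (T.l 816)) (T.l 944)))))))) (T.b (T.a (T.c (T.b (T.l 1) (T.a (T.l 816) (T.c (T.a (T.l 816) (T.l 1)) (T.a (T.l 816) (T.l 1))))) (T.b (T.l 1) (T.a (T.l 816) (T.a (T.l 816) (T.l 1))))) (T.l 1)) (T.a (T.l 816) (T.c (T.b (T.a (T.c (T.b (T.l 1) (T.l 816)) (T.b (T.l 1) (T.l 816))) (T.l 1)) (T.a (T.l 816) (T.c (T.l 816) (T.l 816)))) (T.b (T.a (T.c (T.a (T.l 816) (T.l 816)) (T.l 816)) (T.l 1)) (T.c (T.l 816) (T.l 816))))))))) (T.a (T.c (T.l 0) (T.l 0)) (T.a (T.l 0) (T.c (T.c (T.l 0) (T.l 0)) (T.l 0))))))), by decide +kernel⟩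

def B102E_000_1_49_1 :
    ∃ t, chk3 (onCell 0 67108864 0 1073741824 67108864 67108864 (corTK [] false 3 c0N cB102E gN0q1 gN0q2 gN0q0 gN1q0 true true)) t 1 49 1 = true :=
  ⟨(T.a (T.a (T.a (T.l 204) (T.l 0)) (T.a (T.c (T.l 0) (T.l 0)) (T.l 0))) (T.a (T.a (T.l 0) (T.l 0)) (T.b (T.a (T.l 0) (T.l 0)) (T.l 204)))), by decide +kernel⟩

def B102E_000_1_25_1 :
    ∃ t, chk3 (onCell 0 67108864 0 1073741824 67108864 67108864 (corTK [] false 3 c0N cB102E gN0q1 gN0q2 gN0q0 gN1q0 true true)) t 1 25 1 = true :=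
  ⟨(T.a (T.a (T.a (T.l 204) (T.l 236)) (T.a (T.b (T.l 204) (T.l 204)) (T.l 204))) (T.a (T.a (T.l 204) (T.l 204)) (T.b (T.l 204) (T.l 204)))), by decide +kernel⟩

def B102E_000_1_13_1 :
    ∃ t, chk3 (onCell 0 67108864 0 1073741824 67108864 67108864 (corTK [] false 3 c0N cB102E gN0q1 gN0q2 gN0q0 gN1q0 true true)) t 1 13 1 = true :=
  ⟨(T.b (T.a (T.a (T.a (T.l 204) (T.l 204)) (T.a (T.l 204) (T.l 204))) (T.a (T.l 204) (T.l 204))) (T.a (T.a (T.a (T.l 204) (T.l 204)) (T.a (T.l 204) (T.l 204))) (T.a (T.l 204) (T.l 204)))), by decide +kernel⟩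

def B102E_000_1_7_1 :
    ∃ t, chk3 (onCell 0 67108864 0 1073741824 67108864 67108864 (corTK [] false 3 c0N cB102E gN0q1 gN0q2 gN0q0 gN1q0 true true)) t 1 7 1 = true :=
  ⟨(T.b (T.b (T.b (T.a (T.a (T.a (T.l 204) (T.l 204)) (T.l 204)) (T.a (T.l 204) (T.l 204))) (T.b (T.a (T.a (T.a (T.l 204) (T.l 204)) (T.l 204)) (T.a (T.l 204) (T.l 204))) (T.b (T.a (T.a (T.a (T.l 204) (T.l 204)) (T.l 204)) (T.a (T.l 204) (T.l 204))) (T.a (T.l 2) (T.l 2))))) (T.l 2)) (T.l 2)), by decide +kernel⟩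

theorem B102E_000_4_192_1 :
    ∃ t, chk3 (onCell 0 67108864 0 1073741824 67108864 67108864 (corTK [] false 3 c0N cB102E gN0q1 gN0q2 gN0q0 gN1q0 true true)) t 4 192 1 = true :=
  ex3_a B102E_000_8_192_1 B102E_000_9_192_1
theorem B102E_000_2_192_1 :
    ∃ t, chk3 (onCell 0 67108864 0 1073741824 67108864 67108864 (corTK [] false 3 c0N cB102E gN0q1 gN0q2 gN0q0 gN1q0 true true)) t 2 192 1 = true :=
  ex3_a B102E_000_4_192_1 B102E_000_5_192_1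
theorem B102E_000_2_96_1 :
    ∃ t, chk3 (onCell 0 67108864 0 1073741824 67108864 67108864 (corTK [] false 3 c0N cB102E gN0q1 gN0q2 gN0q0 gN1q0 true true)) t 2 96 1 = true :=
  ex3_b B102E_000_2_192_1 B102E_000_2_193_1
theorem B102E_000_1_96_1 :
    ∃ t, chk3 (onCell 0 67108864 0 1073741824 67108864 67108864 (corTK [] false 3 c0N cB102E gN0q1 gN0q2 gN0q0 gN1q0 true true)) t 1 96 1 = true :=
  ex3_a B102E_000_2_96_1 B102E_000_3_96_1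
theorem B102E_000_1_48_1 :
    ∃ t, chk3 (onCell 0 67108864 0 1073741824 67108864 67108864 (corTK [] false 3 c0N cB102E gN0q1 gN0q2 gN0q0 gN1q0 true true)) t 1 48 1 = true :=
  ex3_b B102E_000_1_96_1 B102E_000_1_97_1
theorem B102E_000_1_24_1 :
    ∃ t, chk3 (onCell 0 67108864 0 1073741824 67108864 67108864 (corTK [] false 3 c0N cB102E gN0q1 gN0q2 gN0q0 gN1q0 true true)) t 1 24 1 = true :=
  ex3_b B102E_000_1_48_1 B102E_000_1_49_1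
theorem B102E_000_1_12_1 :
    ∃ t, chk3 (onCell 0 67108864 0 1073741824 67108864 67108864 (corTK [] false 3 c0N cB102E gN0q1 gN0q2 gN0q0 gN1q0 true true)) t 1 12 1 = true :=
  ex3_b B102E_000_1_24_1 B102E_000_1_25_1
theorem B102E_000_1_6_1 :
    ∃ t, chk3 (onCell 0 67108864 0 1073741824 67108864 67108864 (corTK [] false 3 c0N cB102E gN0q1 gN0q2 gN0q0 gN1q0 true true)) t 1 6 1 = true :=
  ex3_b B102E_000_1_12_1 B102E_000_1_13_1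
theorem B102E_000_1_3_1 :
    ∃ t, chk3 (onCell 0 67108864 0 1073741824 67108864 67108864 (corTK [] false 3 c0N cB102E gN0q1 gN0q2 gN0q0 gN1q0 true true)) t 1 3 1 = true :=
  ex3_b B102E_000_1_6_1 B102E_000_1_7_1
theorem B102E_000 :
    ∃ t, chk3 (onCell 0 67108864 0 1073741824 67108864 67108864 (corTK [] false 3 c0N cB102E gN0q1 gN0q2 gN0q0 gN1q0 true true)) t 1 1 1 = true :=
  ex3_b B102E_000_1_2_1 B102E_000_1_3_1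

def B102E_001 :
    ∃ t, chk3 (onCell 0 67108864 0 1073741824 67108864 67108864 (corTK [] false 3 c0N cB102E gN0q1 gN0q2 gN1q0 gN2q0 true true)) t 1 1 1 = true :=
  ⟨(T.b (T.l 1) (T.b (T.l 1) (T.b (T.b (T.b (T.l 1) (T.b (T.l 1) (T.a (T.a (T.a (T.l 204) (T.l 204)) (T.l 204)) (T.l 204)))) (T.a (T.a (T.a (T.l 204) (T.l 204)) (T.b (T.l 204) (T.l 204))) (T.a (T.l 204) (T.l 204)))) (T.a (T.a (T.a (T.l 204) (T.b (T.l 204) (T.l 236))) (T.a (T.l 204) (T.l 204))) (T.a (T.l 204) (T.l 204)))))), by decide +kernel⟩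

def B102E_002 :
    ∃ t, chk3 (onCell 0 67108864 0 1073741824 67108864 67108864 (corTK [] false 3 c0N cB102E gN0q1 gN0q2 gN2q0 gN3q0 true false)) t 1 1 1 = true :=
  ⟨(T.b (T.l 1) (T.b (T.l 1) (T.b (T.l 1) (T.b (T.l 1) (T.a (T.a (T.a (T.l 204) (T.l 204)) (T.l 204)) (T.l 204)))))), by decide +kernel⟩

def B102E_010 :
    ∃ t, chk3 (onCell 0 67108864 0 1073741824 67108864 67108864 (corTK [] false 3 c0N cB102E gN0q1 gN1q2 gN0q0 gN1q0 true true)) t 1 1 1 = true :=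
  ⟨(T.b (T.b (T.l 1) (T.b (T.b (T.b (T.l 1) (T.b (T.a (T.b (T.a (T.b (T.l 1) (T.a (T.l 204) (T.a (T.c (T.b (T.l 1) (T.l 204)) (T.l 204)) (T.l 1)))) (T.l 1)) (T.a (T.a (T.l 204) (T.l 220)) (T.a (T.a (T.l 204) (T.b (T.c (T.b (T.l 1) (T.l 204)) (T.c (T.l 204) (T.l 204))) (T.l 204))) (T.b (T.a (T.a (T.c (T.b (T.l 1) (T.l 204)) (T.l 460)) (T.l 1)) (T.l 1)) (T.a (T.l 476) (T.c (T.l 476) (T.l 204))))))) (T.a (T.a (T.b (T.l 1) (T.b (T.l 1) (T.c (T.b (T.l 1) (T.a (T.l 204) (T.a (T.l 476) (T.l 1)))) (T.b (T.l 1) (T.a (T.l 204) (T.l 204)))))) (T.l 1)) (T.l 1))) (T.a (T.a (T.a (T.l 204) (T.l 204)) (T.a (T.c (T.l 204) (T.l 204)) (T.c (T.l 204) (T.l 204)))) (T.a (T.a (T.a (T.l 204) (T.c (T.l 204) (T.l 204))) (T.b (T.a (T.c (T.a (T.l 204) (T.l 476)) (T.l 204)) (T.b (T.c (T.b (T.l 1) (T.l 476)) (T.c (T.l 476)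 (T.l 460))) (T.l 204))) (T.l 204))) (T.b (T.a (T.b (T.a (T.a (T.c (T.b (T.l 1) (T.l 476)) (T.b (T.l 1) (T.l 204))) (T.l 1)) (T.l 1)) (T.a (T.l 476) (T.c (T.c (T.l 476) (T.l 460)) (T.l 204)))) (T.b (T.l 1) (T.c (T.b (T.l 1) (T.a (T.l 476) (T.c (T.a (T.l 476) (T.l 1)) (T.a (T.l 460) (T.l 1))))) (T.b (T.l 1) (T.a (T.l 204) (T.l 476)))))) (T.a (T.l 204) (T.c (T.l 476) (T.l 460)))))))) (T.a (T.a (T.a (T.l 204) (T.l 204)) (T.a (T.l 256) (T.b (T.l 204) (T.l 204)))) (T.a (T.a (T.l 204) (T.l 476)) (T.b (T.c (T.l 476) (T.l 476)) (T.l 204))))) (T.a (T.a (T.a (T.l 204) (T.l 204)) (T.a (T.l 204) (T.l 204))) (T.a (T.b (T.l 204) (T.l 204)) (T.l 204))))) (T.b (T.b (T.a (T.a (T.a (T.l 204) (T.l 204)) (T.b (T.l 204) (T.l 204))) (T.b (T.l 0) (T.l 204))) (T.b (T.a (T.a (T.a (T.l 204) (T.l 204)) (T.l 204)) (T.l 204))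 (T.a (T.a (T.a (T.l 204) (T.l 204)) (T.l 204)) (T.l 204)))) (T.l 2))), by decide +kernel⟩

def B102E_011 :
    ∃ t, chk3 (onCell 0 67108864 0 1073741824 67108864 67108864 (corTK [] false 3 c0N cB102E gN0q1 gN1q2 gN1q0 gN2q0 true true)) t 1 1 1 = true :=
  ⟨(T.b (T.l 1) (T.b (T.b (T.l 1) (T.b (T.l 1) (T.a (T.a (T.a (T.l 204) (T.l 204)) (T.l 204)) (T.l 204)))) (T.b (T.a (T.a (T.a (T.l 204) (T.l 204)) (T.b (T.l 204) (T.l 204))) (T.a (T.l 204) (T.l 204))) (T.a (T.a (T.a (T.l 204) (T.b (T.l 204) (T.l 204))) (T.c (T.l 204) (T.l 236))) (T.a (T.l 204) (T.l 204)))))), by decide +kernel⟩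

def B102E_012 :
    ∃ t, chk3 (onCell 0 67108864 0 1073741824 67108864 67108864 (corTK [] false 3 c0N cB102E gN0q1 gN1q2 gN2q0 gN3q0 true false)) t 1 1 1 = true :=
  ⟨(T.b (T.l 1) (T.b (T.l 1) (T.b (T.l 1) (T.a (T.a (T.a (T.l 204) (T.l 204)) (T.l 204)) (T.l 204))))), by decide +kernel⟩

def B102E_020_1_8_1 :
    ∃ t, chk3 (onCell 0 67108864 0 1073741824 67108864 67108864 (corTK [[⟨0, 1, 0, 8388608⟩, ⟨1, 0, 1, 33554432⟩, ⟨2, 1, 1, 33554432⟩, ⟨1, 0, 0, 150994944⟩, ⟨1, 1, 0, 1023410176⟩, ⟨2, 1, 0, 150994944⟩, ⟨2, 2, 0, 1023410176⟩]] false 3 c0N cB102E gN0q1 gN2q2 gN0q0 gN1q0 true true)) t 1 8 1 = true :=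
  ⟨(T.b (T.b (T.b (T.b (T.b (T.a (T.c (T.b (T.a (T.a (T.l 204) (T.a (T.l 204) (T.l 204))) (T.a (T.a (T.l 204) (T.c (T.l 204) (T.l 204))) (T.a (T.c (T.l 204) (T.l 204)) (T.c (T.l 220) (T.l 204))))) (T.a (T.a (T.l 204) (T.a (T.l 204) (T.l 204))) (T.a (T.a (T.l 204) (T.l 204)) (T.c (T.l 204) (T.l 204))))) (T.b (T.a (T.a (T.l 204) (T.a (T.l 204) (T.l 204))) (T.a (T.a (T.l 204) (T.l 204)) (T.a (T.l 204) (T.l 204)))) (T.a (T.a (T.l 204) (T.a (T.l 204) (T.l 204))) (T.a (T.a (T.l 204) (T.l 204)) (T.c (T.l 204) (T.l 204)))))) (T.c (T.b (T.a (T.a (T.a (T.c (T.l 476) (T.l 204)) (T.c (T.c (T.l 476) (T.l 476)) (T.l 476))) (T.c (T.a (T.a (T.l 476) (T.c (T.l 476) (T.l 476))) (T.b (T.c (T.b (T.c (T.a (T.l 476) (T.a (T.l 476) (T.a (T.l 476) (T.l 476)))) (T.a (T.l 476) (T.a (T.l 476) (T.c (T.l 476) (T.l 476)))))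 (T.l 476)) (T.a (T.l 476) (T.a (T.l 476) (T.c (T.l 476) (T.l 476))))) (T.l 204))) (T.a (T.a (T.l 476) (T.l 476)) (T.a (T.l 476) (T.a (T.l 476) (T.c (T.l 476) (T.l 476))))))) (T.c (T.a (T.a (T.a (T.a (T.a (T.c (T.c (T.l 476) (T.l 476)) (T.l 476)) (T.l 1024)) (T.l 1024)) (T.l 1024)) (T.l 1024)) (T.l 1024)) (T.b (T.a (T.a (T.a (T.c (T.a (T.l 476) (T.l 476)) (T.a (T.l 476) (T.l 476))) (T.c (T.a (T.l 476) (T.l 476)) (T.a (T.l 476) (T.l 476)))) (T.a (T.c (T.a (T.l 476) (T.l 476)) (T.c (T.l 476) (T.l 476))) (T.c (T.a (T.l 476) (T.l 476)) (T.c (T.l 476) (T.l 476))))) (T.a (T.a (T.c (T.a (T.l 476) (T.l 1024)) (T.c (T.l 476) (T.l 476))) (T.c (T.l 1024) (T.a (T.l 476) (T.l 476)))) (T.c (T.l 1024) (T.b (T.a (T.c (T.l 476) (T.l 476)) (T.c (T.l 1024) (T.l 476))) (T.l 476))))) (T.a (T.a (T.a (T.l 204) (T.l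 204)) (T.l 476)) (T.a (T.l 476) (T.l 476)))))) (T.a (T.a (T.l 204) (T.c (T.l 204) (T.l 204))) (T.a (T.a (T.c (T.l 204) (T.l 476)) (T.l 476)) (T.a (T.l 476) (T.l 220))))) (T.b (T.a (T.a (T.a (T.l 220) (T.l 476)) (T.c (T.a (T.c (T.l 476) (T.l 220)) (T.a (T.l 476) (T.a (T.l 476) (T.l 476)))) (T.a (T.l 220) (T.a (T.l 204) (T.c (T.l 476) (T.l 476)))))) (T.c (T.b (T.a (T.a (T.a (T.a (T.l 476) (T.l 476)) (T.c (T.l 476) (T.l 476))) (T.a (T.c (T.l 476) (T.l 476)) (T.c (T.l 476) (T.l 476)))) (T.a (T.a (T.c (T.l 476) (T.l 476)) (T.c (T.l 476) (T.l 476))) (T.a (T.c (T.l 476) (T.l 476)) (T.c (T.l 476) (T.l 476))))) (T.a (T.a (T.a (T.l 204) (T.l 204)) (T.c (T.l 476) (T.l 476))) (T.a (T.l 476) (T.l 476)))) (T.b (T.a (T.a (T.a (T.c (T.l 476) (T.l 476)) (T.l 476)) (T.a (T.l 476) (T.l 476))) (T.a (T.a (T.l 476)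 (T.l 476)) (T.a (T.l 476) (T.l 476)))) (T.a (T.a (T.a (T.l 204) (T.l 204)) (T.c (T.l 476) (T.l 476))) (T.a (T.l 476) (T.l 476)))))) (T.a (T.a (T.l 204) (T.c (T.l 204) (T.l 204))) (T.a (T.a (T.c (T.l 476) (T.l 476)) (T.l 476)) (T.a (T.l 476) (T.l 476))))))) (T.a (T.c (T.a (T.a (T.l 204) (T.c (T.l 204) (T.l 204))) (T.a (T.c (T.l 204) (T.l 204)) (T.l 204))) (T.b (T.a (T.a (T.l 204) (T.c (T.l 204) (T.l 204))) (T.a (T.c (T.l 204) (T.l 204)) (T.l 204))) (T.a (T.a (T.l 204) (T.l 204)) (T.a (T.l 204) (T.l 204))))) (T.a (T.a (T.l 220) (T.c (T.l 204) (T.l 204))) (T.a (T.a (T.c (T.l 204) (T.l 204)) (T.l 476)) (T.a (T.l 220) (T.l 204)))))) (T.b (T.a (T.a (T.a (T.l 204) (T.c (T.l 204) (T.l 204))) (T.a (T.c (T.l 204) (T.l 204)) (T.l 204))) (T.a (T.a (T.l 204) (T.l 204)) (T.a (T.a (T.l 204) (T.l 204)) (T.c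 (T.l 204) (T.l 204))))) (T.a (T.a (T.a (T.l 204) (T.l 204)) (T.a (T.l 204) (T.l 204))) (T.a (T.c (T.l 204) (T.l 476)) (T.a (T.c (T.l 204) (T.l 220)) (T.l 204)))))) (T.b (T.b (T.a (T.a (T.a (T.l 204) (T.l 204)) (T.a (T.l 204) (T.l 204))) (T.a (T.c (T.l 204) (T.l 204)) (T.a (T.l 476) (T.l 204)))) (T.a (T.a (T.a (T.l 204) (T.l 204)) (T.a (T.l 204) (T.l 204))) (T.a (T.l 204) (T.a (T.l 204) (T.l 204))))) (T.b (T.a (T.a (T.a (T.l 204) (T.l 204)) (T.a (T.l 204) (T.l 204))) (T.a (T.l 204) (T.a (T.l 204) (T.l 204)))) (T.a (T.a (T.a (T.l 204) (T.l 204)) (T.c (T.l 204) (T.l 204))) (T.a (T.l 204) (T.a (T.l 204) (T.l 204))))))) (T.b (T.b (T.b (T.a (T.a (T.a (T.l 204) (T.l 204)) (T.c (T.l 204) (T.l 204))) (T.a (T.l 204) (T.a (T.l 204) (T.l 204)))) (T.a (T.a (T.a (T.l 204) (T.l 204)) (T.l 204)) (T.a (T.l 204)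 (T.a (T.l 204) (T.l 204))))) (T.b (T.a (T.a (T.a (T.l 204) (T.l 204)) (T.l 204)) (T.a (T.l 204) (T.a (T.l 204) (T.l 204)))) (T.a (T.a (T.a (T.l 204) (T.l 204)) (T.l 204)) (T.a (T.l 204) (T.a (T.l 204) (T.l 204)))))) (T.b (T.b (T.a (T.a (T.a (T.l 204) (T.l 204)) (T.l 204)) (T.a (T.l 204) (T.a (T.l 204) (T.l 204)))) (T.a (T.a (T.a (T.l 204) (T.l 204)) (T.l 204)) (T.a (T.l 204) (T.c (T.l 0) (T.l 16))))) (T.b (T.a (T.a (T.a (T.l 204) (T.l 204)) (T.l 204)) (T.a (T.l 204) (T.c (T.l 0) (T.l 0)))) (T.a (T.a (T.a (T.l 204) (T.l 204)) (T.l 204)) (T.a (T.l 204) (T.c (T.l 0) (T.l 0)))))))) (T.b (T.b (T.b (T.b (T.a (T.a (T.a (T.l 204) (T.l 204)) (T.l 204)) (T.a (T.l 204) (T.l 16))) (T.a (T.a (T.a (T.l 204) (T.l 204)) (T.l 204)) (T.a (T.l 204) (T.l 0)))) (T.b (T.a (T.a (T.a (T.l 204) (T.l 204)) (T.l 204))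 (T.a (T.l 204) (T.l 0))) (T.a (T.a (T.a (T.l 204) (T.l 204)) (T.l 204)) (T.a (T.l 204) (T.l 0))))) (T.b (T.b (T.a (T.a (T.a (T.l 204) (T.l 204)) (T.l 204)) (T.a (T.l 204) (T.l 0))) (T.a (T.a (T.a (T.l 204) (T.l 204)) (T.l 204)) (T.a (T.l 204) (T.l 0)))) (T.b (T.a (T.a (T.a (T.l 204) (T.l 204)) (T.l 204)) (T.a (T.l 204) (T.l 0))) (T.a (T.a (T.a (T.l 204) (T.l 204)) (T.l 204)) (T.a (T.l 204) (T.l 0)))))) (T.b (T.b (T.b (T.a (T.a (T.a (T.l 204) (T.l 204)) (T.l 204)) (T.a (T.l 204) (T.l 204))) (T.a (T.a (T.a (T.l 204) (T.l 204)) (T.l 204)) (T.a (T.l 204) (T.l 204)))) (T.b (T.a (T.a (T.a (T.l 204) (T.l 204)) (T.l 204)) (T.a (T.l 204) (T.l 204))) (T.a (T.a (T.a (T.l 204) (T.l 204)) (T.l 204)) (T.a (T.l 204) (T.l 204))))) (T.b (T.b (T.a (T.a (T.a (T.l 204) (T.l 204)) (T.l 204)) (T.a (T.l 204) (T.l 204)))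 (T.a (T.a (T.a (T.l 204) (T.l 204)) (T.l 204)) (T.a (T.l 204) (T.l 204)))) (T.b (T.a (T.a (T.a (T.l 204) (T.l 204)) (T.l 204)) (T.a (T.l 204) (T.l 204))) (T.a (T.a (T.a (T.l 204) (T.l 204)) (T.l 204)) (T.a (T.l 204) (T.l 204)))))))), by decide +kernel⟩

def B102E_020_1_9_1 :
    ∃ t, chk3 (onCell 0 67108864 0 1073741824 67108864 67108864 (corTK [[⟨0, 1, 0, 8388608⟩, ⟨1, 0, 1, 33554432⟩, ⟨2, 1, 1, 33554432⟩, ⟨1, 0, 0, 150994944⟩, ⟨1, 1, 0, 1023410176⟩, ⟨2, 1, 0, 150994944⟩, ⟨2, 2, 0, 1023410176⟩]] false 3 c0N cB102E gN0q1 gN2q2 gN0q0 gN1q0 true true)) t 1 9 1 = true :=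
  ⟨(T.b (T.b (T.b (T.b (T.b (T.a (T.a (T.a (T.l 204) (T.l 204)) (T.l 204)) (T.a (T.l 204) (T.l 204))) (T.a (T.a (T.a (T.l 204) (T.l 204)) (T.l 204)) (T.a (T.l 204) (T.l 204)))) (T.b (T.a (T.a (T.a (T.l 204) (T.l 204)) (T.l 204)) (T.a (T.l 204) (T.l 204))) (T.a (T.a (T.a (T.l 204) (T.l 204)) (T.l 204)) (T.a (T.l 204) (T.l 204))))) (T.b (T.b (T.a (T.a (T.a (T.l 204) (T.l 204)) (T.l 204)) (T.a (T.l 204) (T.l 204))) (T.a (T.a (T.a (T.l 204) (T.l 204)) (T.l 204)) (T.a (T.l 204) (T.l 204)))) (T.b (T.a (T.a (T.a (T.l 204) (T.l 204)) (T.l 204)) (T.a (T.l 204) (T.l 204))) (T.a (T.a (T.a (T.l 204) (T.l 204)) (T.l 204)) (T.a (T.l 204) (T.l 204)))))) (T.b (T.b (T.b (T.a (T.a (T.a (T.l 204) (T.l 204)) (T.l 204)) (T.a (T.l 204) (T.l 204))) (T.a (T.a (T.a (T.l 204) (T.l 204)) (T.l 204)) (T.a (T.l 204) (T.l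 204)))) (T.b (T.a (T.a (T.a (T.l 204) (T.l 204)) (T.l 204)) (T.a (T.l 204) (T.l 204))) (T.a (T.a (T.a (T.l 204) (T.l 204)) (T.l 204)) (T.a (T.l 204) (T.l 204))))) (T.b (T.b (T.a (T.a (T.a (T.l 204) (T.l 204)) (T.l 204)) (T.a (T.l 204) (T.l 204))) (T.a (T.a (T.a (T.l 204) (T.l 204)) (T.l 204)) (T.a (T.l 204) (T.l 204)))) (T.b (T.a (T.a (T.a (T.l 204) (T.l 204)) (T.l 204)) (T.a (T.l 204) (T.l 204))) (T.a (T.a (T.a (T.l 204) (T.l 204)) (T.l 204)) (T.a (T.l 204) (T.l 204))))))) (T.b (T.b (T.b (T.b (T.a (T.a (T.a (T.l 204) (T.l 204)) (T.l 204)) (T.a (T.l 204) (T.l 204))) (T.a (T.a (T.a (T.l 204) (T.l 204)) (T.l 204)) (T.a (T.l 204) (T.l 204)))) (T.b (T.a (T.a (T.a (T.l 204) (T.l 204)) (T.l 204)) (T.a (T.l 204) (T.l 204))) (T.a (T.a (T.a (T.l 204) (T.l 204)) (T.l 204)) (T.a (T.l 204) (T.l 204)))))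 (T.b (T.b (T.a (T.a (T.a (T.l 204) (T.l 204)) (T.l 204)) (T.a (T.l 204) (T.l 204))) (T.a (T.a (T.a (T.l 204) (T.l 204)) (T.l 204)) (T.a (T.l 204) (T.l 204)))) (T.b (T.a (T.a (T.a (T.l 204) (T.l 204)) (T.l 204)) (T.a (T.l 204) (T.l 204))) (T.a (T.a (T.a (T.l 204) (T.l 204)) (T.l 204)) (T.a (T.l 204) (T.l 204)))))) (T.b (T.b (T.b (T.a (T.a (T.a (T.l 204) (T.l 204)) (T.l 204)) (T.a (T.l 204) (T.l 204))) (T.a (T.a (T.a (T.l 204) (T.l 204)) (T.l 204)) (T.a (T.l 204) (T.l 204)))) (T.b (T.a (T.a (T.a (T.l 204) (T.l 204)) (T.l 204)) (T.a (T.l 204) (T.l 204))) (T.a (T.a (T.a (T.l 204) (T.l 204)) (T.l 204)) (T.a (T.l 204) (T.l 204))))) (T.b (T.b (T.a (T.a (T.a (T.l 204) (T.l 204)) (T.l 204)) (T.a (T.l 204) (T.l 204))) (T.a (T.a (T.a (T.l 204) (T.l 204)) (T.l 204)) (T.a (T.l 204) (T.l 204)))) (T.b (T.a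 (T.a (T.a (T.l 204) (T.l 204)) (T.l 204)) (T.a (T.l 204) (T.l 204))) (T.a (T.a (T.a (T.l 204) (T.l 204)) (T.l 204)) (T.a (T.l 204) (T.l 204)))))))), by decide +kernel⟩

def B102E_020_1_5_1 :
    ∃ t, chk3 (onCell 0 67108864 0 1073741824 67108864 67108864 (corTK [[⟨0, 1, 0, 8388608⟩, ⟨1, 0, 1, 33554432⟩, ⟨2, 1, 1, 33554432⟩, ⟨1, 0, 0, 150994944⟩, ⟨1, 1, 0, 1023410176⟩, ⟨2, 1, 0, 150994944⟩, ⟨2, 2, 0, 1023410176⟩]] false 3 c0N cB102E gN0q1 gN2q2 gN0q0 gN1q0 true true)) t 1 5 1 = true :=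
  ⟨(T.b (T.b (T.b (T.b (T.b (T.b (T.a (T.a (T.a (T.l 204) (T.l 204)) (T.l 204)) (T.a (T.l 204) (T.l 204))) (T.a (T.a (T.a (T.l 204) (T.l 204)) (T.l 204)) (T.l 204))) (T.a (T.a (T.a (T.l 204) (T.l 204)) (T.l 204)) (T.l 204))) (T.a (T.a (T.a (T.l 204) (T.l 204)) (T.l 204)) (T.l 204))) (T.a (T.a (T.a (T.l 204) (T.l 204)) (T.l 204)) (T.l 204))) (T.a (T.a (T.a (T.l 204) (T.l 204)) (T.l 204)) (T.l 204))) (T.a (T.a (T.a (T.l 204) (T.l 204)) (T.l 204)) (T.l 204))), by decide +kernel⟩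

def B102E_020_1_3_1 :
    ∃ t, chk3 (onCell 0 67108864 0 1073741824 67108864 67108864 (corTK [[⟨0, 1, 0, 8388608⟩, ⟨1, 0, 1, 33554432⟩, ⟨2, 1, 1, 33554432⟩, ⟨1, 0, 0, 150994944⟩, ⟨1, 1, 0, 1023410176⟩, ⟨2, 1, 0, 150994944⟩, ⟨2, 2, 0, 1023410176⟩]] false 3 c0N cB102E gN0q1 gN2q2 gN0q0 gN1q0 true true)) t 1 3 1 = true :=
  ⟨(T.b (T.b (T.a (T.a (T.a (T.l 204) (T.l 204)) (T.l 204)) (T.l 204)) (T.l 2)) (T.l 2)), by decide +kernel⟩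

theorem B102E_020_1_4_1 :
    ∃ t, chk3 (onCell 0 67108864 0 1073741824 67108864 67108864 (corTK [[⟨0, 1, 0, 8388608⟩, ⟨1, 0, 1, 33554432⟩, ⟨2, 1, 1, 33554432⟩, ⟨1, 0, 0, 150994944⟩, ⟨1, 1, 0, 1023410176⟩, ⟨2, 1, 0, 150994944⟩, ⟨2, 2, 0, 1023410176⟩]] false 3 c0N cB102E gN0q1 gN2q2 gN0q0 gN1q0 true true)) t 1 4 1 = true :=
  ex3_b B102E_020_1_8_1 B102E_020_1_9_1
theorem B102E_020_1_2_1 :
    ∃ t, chk3 (onCell 0 67108864 0 1073741824 67108864 67108864 (corTK [[⟨0, 1, 0, 8388608⟩, ⟨1, 0, 1, 33554432⟩, ⟨2, 1, 1, 33554432⟩, ⟨1, 0, 0, 150994944⟩, ⟨1, 1, 0, 1023410176⟩, ⟨2, 1, 0, 150994944⟩, ⟨2, 2, 0, 1023410176⟩]] false 3 c0N cB102E gN0q1 gN2q2 gN0q0 gN1q0 true true)) t 1 2 1 = true :=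
  ex3_b B102E_020_1_4_1 B102E_020_1_5_1
theorem B102E_020 :
    ∃ t, chk3 (onCell 0 67108864 0 1073741824 67108864 67108864 (corTK [[⟨0, 1, 0, 8388608⟩, ⟨1, 0, 1, 33554432⟩, ⟨2, 1, 1, 33554432⟩, ⟨1, 0, 0, 150994944⟩, ⟨1, 1, 0, 1023410176⟩, ⟨2, 1, 0, 150994944⟩, ⟨2, 2, 0, 1023410176⟩]] false 3 c0N cB102E gN0q1 gN2q2 gN0q0 gN1q0 true true)) t 1 1 1 = true :=
  ex3_b B102E_020_1_2_1 B102E_020_1_3_1

def B102E_021 :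
    ∃ t, chk3 (onCell 0 67108864 0 1073741824 67108864 67108864 (corTK [[⟨0, 1, 0, 8388608⟩, ⟨1, 0, 1, 33554432⟩, ⟨2, 1, 1, 33554432⟩, ⟨1, 0, 0, 150994944⟩, ⟨1, 1, 0, 1023410176⟩, ⟨2, 1, 0, 150994944⟩, ⟨2, 2, 0, 1023410176⟩]] false 3 c0N cB102E gN0q1 gN2q2 gN1q0 gN2q0 true true)) t 1 1 1 = true :=
  ⟨(T.b (T.l 1) (T.b (T.b (T.a (T.a (T.a (T.l 204) (T.l 204)) (T.l 204)) (T.l 204)) (T.a (T.a (T.a (T.l 204) (T.l 204)) (T.l 204)) (T.l 204))) (T.b (T.a (T.a (T.a (T.l 204) (T.l 204)) (T.l 204)) (T.b (T.l 204) (T.l 236))) (T.b (T.a (T.a (T.a (T.l 204) (T.l 204)) (T.l 204)) (T.a (T.l 204) (T.l 204))) (T.b (T.a (T.a (T.a (T.l 204) (T.l 204)) (T.l 204)) (T.a (T.l 204) (T.l 204))) (T.b (T.a (T.a (T.a (T.l 204) (T.l 204)) (T.l 204)) (T.a (T.l 204) (T.l 204))) (T.a (T.a (T.a (T.l 204) (T.l 204)) (T.l 204))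 (T.a (T.l 204) (T.l 204))))))))), by decide +kernel⟩

def B102E_022 :
    ∃ t, chk3 (onCell 0 67108864 0 1073741824 67108864 67108864 (corTK [[⟨0, 1, 0, 8388608⟩, ⟨1, 0, 1, 33554432⟩, ⟨2, 1, 1, 33554432⟩, ⟨1, 0, 0, 150994944⟩, ⟨1, 1, 0, 1023410176⟩, ⟨2, 1, 0, 150994944⟩, ⟨2, 2, 0, 1023410176⟩]] false 3 c0N cB102E gN0q1 gN2q2 gN2q0 gN3q0 true false)) t 1 1 1 = true :=
  ⟨(T.b (T.l 1) (T.b (T.l 1) (T.b (T.l 1) (T.a (T.a (T.a (T.l 204) (T.l 204)) (T.l 204)) (T.l 204))))), by decide +kernel⟩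

def B102L_200_1_2_1 :
    ∃ t, chk3 (onCell 0 67108864 0 1073741824 67108864 67108864 (corTK [[⟨0, 1, 2, 33554432⟩, ⟨1, 0, 1, 33554432⟩, ⟨2, 1, 0, 16777216⟩, ⟨0, 0, 0, 1023410176⟩, ⟨0, 1, 0, 150994944⟩, ⟨1, 0, 0, 150994944⟩, ⟨1, 1, 0, 1023410176⟩]] false 3 c0N cB102L gN2q1 gN0q2 gN0q0 gN1q0 true true)) t 1 2 1 = true :=
  ⟨(T.b (T.l 2) (T.b (T.l 2) (T.b (T.a (T.a (T.a (T.l 204) (T.l 204)) (T.l 204)) (T.l 2)) (T.a (T.a (T.a (T.l 204) (T.l 204)) (T.l 204)) (T.l 204))))), by decide +kernel⟩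

def B102L_200_1_6_1 :
    ∃ t, chk3 (onCell 0 67108864 0 1073741824 67108864 67108864 (corTK [[⟨0, 1, 2, 33554432⟩, ⟨1, 0, 1, 33554432⟩, ⟨2, 1, 0, 16777216⟩, ⟨0, 0, 0, 1023410176⟩, ⟨0, 1, 0, 150994944⟩, ⟨1, 0, 0, 150994944⟩, ⟨1, 1, 0, 1023410176⟩]] false 3 c0N cB102L gN2q1 gN0q2 gN0q0 gN1q0 true true)) t 1 6 1 = true :=
  ⟨(T.b (T.a (T.a (T.a (T.l 204) (T.l 204)) (T.b (T.l 204) (T.l 0))) (T.a (T.l 204) (T.l 204))) (T.b (T.a (T.a (T.a (T.l 204) (T.l 204)) (T.l 0)) (T.a (T.l 204) (T.l 204))) (T.b (T.a (T.a (T.a (T.l 204) (T.l 204)) (T.l 0)) (T.l 0)) (T.b (T.a (T.a (T.a (T.l 204) (T.l 204)) (T.l 204)) (T.l 0)) (T.a (T.a (T.a (T.l 204) (T.l 204)) (T.l 204)) (T.a (T.l 204) (T.l 204))))))), by decide +kernel⟩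

def B102L_200_1_14_1 :
    ∃ t, chk3 (onCell 0 67108864 0 1073741824 67108864 67108864 (corTK [[⟨0, 1, 2, 33554432⟩, ⟨1, 0, 1, 33554432⟩, ⟨2, 1, 0, 16777216⟩, ⟨0, 0, 0, 1023410176⟩, ⟨0, 1, 0, 150994944⟩, ⟨1, 0, 0, 150994944⟩, ⟨1, 1, 0, 1023410176⟩]] false 3 c0N cB102L gN2q1 gN0q2 gN0q0 gN1q0 true true)) t 1 14 1 = true :=
  ⟨(T.b (T.b (T.b (T.b (T.a (T.a (T.a (T.l 204) (T.l 204)) (T.l 204)) (T.a (T.l 204) (T.l 204))) (T.a (T.a (T.a (T.l 204) (T.l 204)) (T.l 204)) (T.a (T.l 204) (T.l 204)))) (T.b (T.a (T.a (T.a (T.l 204) (T.l 204)) (T.l 204)) (T.a (T.l 204) (T.l 204))) (T.a (T.a (T.a (T.l 204) (T.l 204)) (T.l 204)) (T.a (T.l 204) (T.l 0))))) (T.b (T.b (T.a (T.a (T.a (T.l 204) (T.l 204)) (T.l 0)) (T.a (T.l 204) (T.l 0))) (T.a (T.a (T.a (T.l 204) (T.l 204)) (T.l 0)) (T.a (T.l 204) (T.l 0)))) (T.b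 (T.a (T.a (T.a (T.l 204) (T.l 204)) (T.l 0)) (T.a (T.l 204) (T.l 0))) (T.a (T.a (T.a (T.l 204) (T.l 204)) (T.l 0)) (T.a (T.l 204) (T.l 0)))))) (T.b (T.b (T.b (T.a (T.a (T.a (T.l 204) (T.l 204)) (T.l 0)) (T.a (T.l 204) (T.l 0))) (T.a (T.a (T.a (T.l 204) (T.l 204)) (T.l 0)) (T.a (T.l 204) (T.l 0)))) (T.b (T.a (T.a (T.a (T.l 204) (T.l 204)) (T.l 0)) (T.a (T.l 204) (T.l 0))) (T.a (T.a (T.a (T.l 204) (T.l 204)) (T.l 0)) (T.a (T.l 204) (T.l 0))))) (T.b (T.b (T.a (T.a (T.a (T.l 204) (T.l 204)) (T.l 0)) (T.a (T.l 204) (T.l 0))) (T.a (T.a (T.a (T.l 204) (T.l 204)) (T.l 0)) (T.a (T.l 204) (T.l 0)))) (T.b (T.b (T.a (T.a (T.a (T.l 204) (T.l 204)) (T.l 0)) (T.a (T.l 204) (T.l 0))) (T.a (T.a (T.a (T.l 204) (T.l 204)) (T.l 0)) (T.a (T.l 204) (T.l 0)))) (T.b (T.a (T.a (T.a (T.l 204) (T.l 204)) (T.l 0)) (T.a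 (T.l 204) (T.l 0))) (T.a (T.a (T.a (T.l 204) (T.l 204)) (T.l 0)) (T.a (T.l 204) (T.l 16)))))))), by decide +kernel⟩

def B102L_200_1_30_1 :
    ∃ t, chk3 (onCell 0 67108864 0 1073741824 67108864 67108864 (corTK [[⟨0, 1, 2, 33554432⟩, ⟨1, 0, 1, 33554432⟩, ⟨2, 1, 0, 16777216⟩, ⟨0, 0, 0, 1023410176⟩, ⟨0, 1, 0, 150994944⟩, ⟨1, 0, 0, 150994944⟩, ⟨1, 1, 0, 1023410176⟩]] false 3 c0N cB102L gN2q1 gN0q2 gN0q0 gN1q0 true true)) t 1 30 1 = true :=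
  ⟨(T.b (T.b (T.b (T.b (T.a (T.a (T.a (T.l 204) (T.l 204)) (T.l 0)) (T.a (T.l 0) (T.l 16))) (T.a (T.a (T.a (T.l 204) (T.l 204)) (T.l 0)) (T.a (T.l 0) (T.l 16)))) (T.b (T.a (T.a (T.a (T.l 204) (T.l 204)) (T.l 0)) (T.a (T.l 0) (T.c (T.l 0) (T.l 0)))) (T.a (T.a (T.a (T.l 204) (T.l 204)) (T.l 0)) (T.a (T.l 0) (T.c (T.l 0) (T.l 0)))))) (T.b (T.b (T.a (T.a (T.a (T.l 204) (T.l 204)) (T.l 0)) (T.a (T.l 0) (T.c (T.l 0) (T.l 16)))) (T.a (T.a (T.a (T.l 204) (T.l 204)) (T.l 0)) (T.a (T.l 0) (T.c (T.l 0) (T.l 16))))) (T.b (T.a (T.a (T.a (T.l 204) (T.l 0)) (T.l 0)) (T.a (T.l 0) (T.c (T.l 16) (T.l 16)))) (T.a (T.a (T.a (T.l 204) (T.l 0)) (T.l 0)) (T.a (T.l 0) (T.a (T.l 0) (T.l 0))))))) (T.b (T.b (T.b (T.a (T.a (T.a (T.l 204) (T.l 0)) (T.l 0)) (T.a (T.l 0) (T.a (T.l 0) (T.l 0)))) (T.a (T.a (T.a (T.l 0) (T.l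 0)) (T.l 0)) (T.a (T.l 0) (T.a (T.l 0) (T.l 0))))) (T.b (T.a (T.a (T.a (T.l 0) (T.l 0)) (T.l 0)) (T.a (T.l 0) (T.a (T.l 0) (T.l 0)))) (T.a (T.a (T.a (T.l 816) (T.l 0)) (T.l 0)) (T.a (T.l 0) (T.a (T.l 0) (T.l 0)))))) (T.b (T.b (T.a (T.a (T.a (T.l 816) (T.l 0)) (T.l 0)) (T.a (T.l 0) (T.a (T.l 0) (T.l 0)))) (T.a (T.a (T.a (T.l 816) (T.l 0)) (T.l 0)) (T.a (T.l 0) (T.a (T.l 0) (T.l 0))))) (T.b (T.a (T.a (T.a (T.l 816) (T.l 0)) (T.l 0)) (T.a (T.l 0) (T.a (T.l 0) (T.l 0)))) (T.a (T.a (T.a (T.l 816) (T.l 0)) (T.l 0)) (T.a (T.l 0) (T.a (T.l 0) (T.l 0)))))))), by decide +kernel⟩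

def B102L_200_1_62_1 :
    ∃ t, chk3 (onCell 0 67108864 0 1073741824 67108864 67108864 (corTK [[⟨0, 1, 2, 33554432⟩, ⟨1, 0, 1, 33554432⟩, ⟨2, 1, 0, 16777216⟩, ⟨0, 0, 0, 1023410176⟩, ⟨0, 1, 0, 150994944⟩, ⟨1, 0, 0, 150994944⟩, ⟨1, 1, 0, 1023410176⟩]] false 3 c0N cB102L gN2q1 gN0q2 gN0q0 gN1q0 true true)) t 1 62 1 = true :=
  ⟨(T.b (T.b (T.b (T.a (T.a (T.a (T.l 816) (T.l 0)) (T.l 0)) (T.a (T.l 0) (T.a (T.l 0) (T.l 0)))) (T.a (T.a (T.a (T.l 816) (T.l 816)) (T.c (T.l 0) (T.l 0))) (T.a (T.l 0) (T.a (T.l 0) (T.l 0))))) (T.b (T.a (T.a (T.a (T.l 816) (T.l 816)) (T.c (T.l 0) (T.l 0))) (T.a (T.l 0) (T.a (T.l 0) (T.l 0)))) (T.a (T.a (T.a (T.l 816) (T.l 816)) (T.c (T.l 0) (T.l 0))) (T.a (T.l 816) (T.a (T.l 0) (T.l 816)))))) (T.b (T.b (T.a (T.a (T.a (T.l 816) (T.l 816)) (T.c (T.l 0) (T.l 0))) (T.a (T.l 816)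 (T.a (T.l 0) (T.l 816)))) (T.a (T.a (T.a (T.l 816) (T.l 0)) (T.a (T.l 816) (T.l 816))) (T.a (T.l 816) (T.a (T.l 0) (T.l 816))))) (T.b (T.a (T.a (T.a (T.l 816) (T.l 0)) (T.a (T.l 816) (T.l 816))) (T.a (T.l 816) (T.a (T.l 816) (T.l 816)))) (T.a (T.a (T.a (T.l 816) (T.c (T.l 816) (T.l 816))) (T.a (T.l 816) (T.l 816))) (T.a (T.l 816) (T.a (T.l 816) (T.l 816))))))), by decide +kernel⟩

def B102L_200_1_126_1 :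
    ∃ t, chk3 (onCell 0 67108864 0 1073741824 67108864 67108864 (corTK [[⟨0, 1, 2, 33554432⟩, ⟨1, 0, 1, 33554432⟩, ⟨2, 1, 0, 16777216⟩, ⟨0, 0, 0, 1023410176⟩, ⟨0, 1, 0, 150994944⟩, ⟨1, 0, 0, 150994944⟩, ⟨1, 1, 0, 1023410176⟩]] false 3 c0N cB102L gN2q1 gN0q2 gN0q0 gN1q0 true true)) t 1 126 1 = true :=
  ⟨(T.b (T.b (T.a (T.a (T.a (T.l 816) (T.c (T.l 816) (T.l 816))) (T.a (T.l 816) (T.l 816))) (T.a (T.l 816) (T.a (T.l 816) (T.l 816)))) (T.a (T.a (T.a (T.l 816) (T.a (T.l 816) (T.l 816))) (T.a (T.l 816) (T.l 816))) (T.a (T.c (T.l 816) (T.l 816)) (T.a (T.c (T.l 816) (T.l 816)) (T.l 816))))) (T.b (T.a (T.a (T.a (T.l 816) (T.a (T.l 816) (T.l 816))) (T.a (T.l 816) (T.l 816))) (T.a (T.c (T.l 816) (T.l 816)) (T.a (T.c (T.l 820) (T.l 820)) (T.l 816)))) (T.a (T.c (T.a (T.a (T.l 816) (T.a (T.l 816) (T.l 816)))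 (T.a (T.l 816) (T.l 816))) (T.a (T.a (T.l 816) (T.a (T.l 816) (T.l 816))) (T.a (T.l 816) (T.l 816)))) (T.a (T.a (T.l 816) (T.l 816)) (T.a (T.a (T.l 816) (T.l 816)) (T.c (T.l 816) (T.l 816))))))), by decide +kernel⟩

def B102L_200_1_254_1 :
    ∃ t, chk3 (onCell 0 67108864 0 1073741824 67108864 67108864 (corTK [[⟨0, 1, 2, 33554432⟩, ⟨1, 0, 1, 33554432⟩, ⟨2, 1, 0, 16777216⟩, ⟨0, 0, 0, 1023410176⟩, ⟨0, 1, 0, 150994944⟩, ⟨1, 0, 0, 150994944⟩, ⟨1, 1, 0, 1023410176⟩]] false 3 c0N cB102L gN2q1 gN0q2 gN0q0 gN1q0 true true)) t 1 254 1 = true :=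
  ⟨(T.b (T.a (T.c (T.a (T.a (T.l 816) (T.a (T.l 816) (T.l 816))) (T.a (T.l 816) (T.l 816))) (T.b (T.a (T.a (T.l 816) (T.a (T.l 816) (T.l 816))) (T.a (T.l 816) (T.l 816))) (T.a (T.a (T.l 816) (T.a (T.l 816) (T.l 816))) (T.a (T.l 816) (T.l 816))))) (T.a (T.a (T.l 816) (T.l 816)) (T.a (T.a (T.l 816) (T.l 816)) (T.a (T.l 816) (T.l 816))))) (T.a (T.c (T.b (T.a (T.a (T.l 816) (T.a (T.l 816) (T.l 816))) (T.a (T.c (T.l 816) (T.l 816)) (T.l 816))) (T.a (T.a (T.l 816) (T.a (T.l 816) (T.l 816))) (T.a (T.a (T.l 816) (T.l 816)) (T.l 816)))) (T.b (T.a (T.a (T.l 816) (T.a (T.l 816) (T.l 816))) (T.a (T.c (T.l 816) (T.l 816)) (T.l 816))) (T.a (T.a (T.l 816) (T.a (T.l 816) (T.l 816))) (T.a (T.a (T.l 816) (T.l 816)) (T.l 816))))) (T.a (T.a (T.l 816) (T.l 816)) (T.a (T.a (T.c (T.l 816) (T.l 816)) (T.l 816)) (T.a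 (T.l 816) (T.l 816)))))), by decide +kernel⟩

def B102L_200_1_510_1 :
    ∃ t, chk3 (onCell 0 67108864 0 1073741824 67108864 67108864 (corTK [[⟨0, 1, 2, 33554432⟩, ⟨1, 0, 1, 33554432⟩, ⟨2, 1, 0, 16777216⟩, ⟨0, 0, 0, 1023410176⟩, ⟨0, 1, 0, 150994944⟩, ⟨1, 0, 0, 150994944⟩, ⟨1, 1, 0, 1023410176⟩]] false 3 c0N cB102L gN2q1 gN0q2 gN0q0 gN1q0 true true)) t 1 510 1 = true :=
  ⟨(T.a (T.c (T.b (T.a (T.a (T.l 816) (T.a (T.l 816) (T.l 816))) (T.a (T.a (T.l 816) (T.l 816)) (T.l 816))) (T.a (T.a (T.l 816) (T.a (T.l 816) (T.l 816))) (T.a (T.a (T.l 816) (T.l 816)) (T.a (T.l 816) (T.l 816))))) (T.b (T.a (T.a (T.l 816) (T.a (T.l 816) (T.l 816))) (T.a (T.a (T.l 816) (T.l 816)) (T.l 820))) (T.a (T.a (T.l 816) (T.a (T.l 816) (T.l 816))) (T.a (T.a (T.l 816) (T.l 816)) (T.a (T.l 816) (T.l 816)))))) (T.c (T.a (T.a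 (T.l 884) (T.l 820)) (T.a (T.a (T.a (T.l 816) (T.l 816)) (T.c (T.l 1024) (T.l 816))) (T.a (T.l 884) (T.l 820)))) (T.b (T.a (T.a (T.l 816) (T.l 816)) (T.a (T.a (T.l 816) (T.l 816)) (T.a (T.l 816) (T.l 816)))) (T.a (T.a (T.l 820) (T.l 816)) (T.a (T.a (T.c (T.l 884) (T.l 820)) (T.l 820)) (T.a (T.l 816) (T.l 816))))))), by decide +kernel⟩

def B102L_200_2_511_1 :
    ∃ t, chk3 (onCell 0 67108864 0 1073741824 67108864 67108864 (corTK [[⟨0, 1, 2, 33554432⟩, ⟨1, 0, 1, 33554432⟩, ⟨2, 1, 0, 16777216⟩, ⟨0, 0, 0, 1023410176⟩, ⟨0, 1, 0, 150994944⟩, ⟨1, 0, 0, 150994944⟩, ⟨1, 1, 0, 1023410176⟩]] false 3 c0N cB102L gN2q1 gN0q2 gN0q0 gN1q0 true true)) t 2 511 1 = true :=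
  ⟨(T.c (T.b (T.a (T.a (T.l 816) (T.a (T.l 816) (T.c (T.l 816) (T.l 816)))) (T.a (T.a (T.c (T.l 816) (T.l 816)) (T.c (T.l 816) (T.l 816))) (T.a (T.l 820) (T.l 816)))) (T.a (T.a (T.l 816) (T.a (T.l 816) (T.a (T.l 816) (T.c (T.l 816) (T.l 816))))) (T.c (T.b (T.a (T.a (T.c (T.l 884) (T.l 820)) (T.c (T.l 884) (T.l 820))) (T.a (T.c (T.l 816) (T.l 816)) (T.l 884))) (T.a (T.a (T.a (T.l 816) (T.l 820)) (T.a (T.c (T.l 884) (T.l 820)) (T.a (T.l 816) (T.l 884)))) (T.a (T.a (T.a (T.l 884) (T.c (T.l 884) (T.l 820))) (T.c (T.a (T.l 884) (T.l 884)) (T.a (T.l 820) (T.l 884)))) (T.a (T.c (T.a (T.l 884) (T.c (T.l 884) (T.l 884))) (T.a (T.l 884) (T.l 884))) (T.c (T.b (T.l 816) (T.c (T.a (T.l 884) (T.l 884)) (T.a (T.l 884) (T.l 884)))) (T.a (T.l 884) (T.c (T.l 884) (T.l 884)))))))) (T.b (T.a (T.a (T.c (T.l 820)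 (T.l 820)) (T.c (T.l 820) (T.l 820))) (T.a (T.c (T.l 816) (T.l 816)) (T.l 820))) (T.a (T.a (T.a (T.l 816) (T.l 816)) (T.a (T.c (T.l 816) (T.l 816)) (T.c (T.l 820) (T.l 820)))) (T.a (T.a (T.a (T.l 820) (T.l 820)) (T.a (T.l 820) (T.l 884))) (T.a (T.c (T.a (T.l 820) (T.l 884)) (T.c (T.l 884) (T.l 820))) (T.c (T.a (T.l 884) (T.l 884)) (T.a (T.l 820) (T.l 884)))))))))) (T.b (T.a (T.a (T.l 816) (T.a (T.l 816) (T.c (T.l 816) (T.l 816)))) (T.a (T.a (T.c (T.l 816) (T.l 816)) (T.c (T.l 816) (T.l 816))) (T.a (T.l 816) (T.l 816)))) (T.a (T.a (T.l 816) (T.a (T.l 816) (T.a (T.l 816) (T.l 816)))) (T.c (T.b (T.a (T.a (T.c (T.l 816) (T.l 816)) (T.c (T.l 820) (T.l 820))) (T.a (T.c (T.l 816) (T.l 816)) (T.l 820))) (T.a (T.a (T.a (T.l 816) (T.l 816)) (T.a (T.l 816) (T.l 820))) (T.a (T.a (T.c (T.l 820) (T.l 816))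 (T.c (T.l 820) (T.l 820))) (T.a (T.c (T.l 820) (T.l 820)) (T.c (T.l 884) (T.l 820)))))) (T.b (T.a (T.a (T.c (T.l 816) (T.l 816)) (T.c (T.l 816) (T.l 816))) (T.a (T.l 820) (T.l 816))) (T.a (T.a (T.a (T.l 816) (T.l 816)) (T.a (T.l 816) (T.l 816))) (T.a (T.a (T.l 816) (T.l 820)) (T.a (T.l 820) (T.l 820))))))))), by decide +kernel⟩

def B102L_200_3_511_2 :
    ∃ t, chk3 (onCell 0 67108864 0 1073741824 67108864 67108864 (corTK [[⟨0, 1, 2, 33554432⟩, ⟨1, 0, 1, 33554432⟩, ⟨2, 1, 0, 16777216⟩, ⟨0, 0, 0, 1023410176⟩, ⟨0, 1, 0, 150994944⟩, ⟨1, 0, 0, 150994944⟩, ⟨1, 1, 0, 1023410176⟩]] false 3 c0N cB102L gN2q1 gN0q2 gN0q0 gN1q0 true true)) t 3 511 2 = true :=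
  ⟨(T.b (T.a (T.a (T.a (T.l 816) (T.l 816)) (T.a (T.l 816) (T.l 816))) (T.c (T.a (T.a (T.a (T.l 816) (T.l 1024)) (T.l 1024)) (T.l 1024)) (T.b (T.a (T.a (T.a (T.l 816) (T.l 816)) (T.l 884)) (T.a (T.l 820) (T.l 816))) (T.a (T.a (T.a (T.l 816) (T.l 816)) (T.a (T.l 816) (T.l 816))) (T.a (T.c (T.l 884) (T.l 884)) (T.l 884)))))) (T.a (T.c (T.b (T.a (T.a (T.l 820) (T.l 816)) (T.a (T.l 884) (T.l 884))) (T.a (T.a (T.a (T.c (T.b (T.l 816) (T.c (T.a (T.l 884) (T.c (T.l 884) (T.l 884))) (T.a (T.l 884) (T.l 884)))) (T.b (T.l 816) (T.c (T.a (T.l 884) (T.l 884)) (T.a (T.l 884) (T.l 884))))) (T.c (T.b (T.l 816) (T.c (T.b (T.l 884) (T.c (T.a (T.l 884) (T.l 884)) (T.a (T.l 884) (T.l 884)))) (T.a (T.l 884) (T.c (T.l 884) (T.l 884))))) (T.b (T.l 816) (T.c (T.a (T.l 884) (T.l 884)) (T.a (T.l 884) (T.l 884)))))) (T.a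 (T.c (T.b (T.l 816) (T.c (T.b (T.l 884) (T.c (T.a (T.l 884) (T.l 884)) (T.a (T.l 884) (T.l 884)))) (T.b (T.l 884) (T.a (T.l 884) (T.l 884))))) (T.b (T.l 816) (T.c (T.a (T.l 884) (T.l 884)) (T.a (T.l 884) (T.l 884))))) (T.c (T.b (T.l 816) (T.c (T.b (T.l 884) (T.c (T.a (T.l 884) (T.l 884)) (T.a (T.l 884) (T.l 884)))) (T.a (T.l 884) (T.l 884)))) (T.b (T.l 816) (T.c (T.a (T.l 884) (T.l 884)) (T.a (T.l 884) (T.l 884))))))) (T.a (T.a (T.c (T.b (T.l 816) (T.c (T.b (T.l 884) (T.c (T.a (T.l 884) (T.l 884)) (T.a (T.l 884) (T.l 884)))) (T.a (T.l 884) (T.l 884)))) (T.b (T.l 816) (T.a (T.c (T.l 884) (T.l 884)) (T.l 884)))) (T.c (T.b (T.l 820) (T.c (T.b (T.l 884) (T.a (T.l 884) (T.c (T.l 884) (T.l 884)))) (T.a (T.l 884) (T.l 884)))) (T.b (T.l 816) (T.a (T.l 884) (T.c (T.l 884) (T.l 884)))))) (T.c (T.b (T.l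 884) (T.c (T.b (T.a (T.l 884) (T.l 884)) (T.a (T.c (T.a (T.l 884) (T.l 884)) (T.a (T.l 884) (T.l 884))) (T.a (T.l 884) (T.a (T.l 884) (T.a (T.l 884) (T.l 884)))))) (T.b (T.a (T.l 884) (T.l 884)) (T.a (T.a (T.l 884) (T.l 884)) (T.a (T.l 884) (T.a (T.l 884) (T.a (T.l 884) (T.l 884)))))))) (T.b (T.l 884) (T.c (T.b (T.a (T.l 884) (T.l 884)) (T.a (T.a (T.l 884) (T.l 884)) (T.a (T.l 884) (T.a (T.l 884) (T.l 884))))) (T.b (T.a (T.l 884) (T.l 884)) (T.a (T.a (T.l 884) (T.l 884)) (T.a (T.l 884) (T.a (T.l 884) (T.l 884))))))))))) (T.b (T.a (T.a (T.l 816) (T.l 816)) (T.a (T.l 820) (T.l 816))) (T.a (T.a (T.a (T.c (T.a (T.l 884) (T.l 884)) (T.a (T.l 884) (T.l 884))) (T.c (T.a (T.l 884) (T.l 884)) (T.c (T.l 884) (T.l 884)))) (T.a (T.c (T.a (T.l 884) (T.l 884)) (T.c (T.l 884) (T.l 884))) (T.c (T.a (T.l 884)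 (T.l 884)) (T.c (T.l 884) (T.l 884))))) (T.a (T.a (T.c (T.a (T.l 884) (T.l 884)) (T.l 884)) (T.c (T.a (T.l 884) (T.l 884)) (T.c (T.l 884) (T.l 884)))) (T.c (T.b (T.l 884) (T.c (T.a (T.l 884) (T.a (T.l 884) (T.a (T.l 884) (T.l 884)))) (T.b (T.l 884) (T.a (T.l 884) (T.a (T.l 884) (T.a (T.l 884) (T.l 884))))))) (T.a (T.l 884) (T.a (T.l 884) (T.a (T.l 884) (T.l 884))))))))) (T.c (T.a (T.a (T.a (T.a (T.a (T.a (T.b (T.l 816) (T.c (T.c (T.c (T.l 884) (T.l 884)) (T.l 884)) (T.l 884))) (T.l 1024)) (T.l 1024)) (T.l 1024)) (T.l 1024)) (T.l 1024)) (T.l 1024)) (T.b (T.a (T.a (T.a (T.l 884) (T.l 884)) (T.a (T.l 884) (T.l 884))) (T.a (T.a (T.l 884) (T.l 884)) (T.a (T.l 884) (T.l 884)))) (T.a (T.c (T.b (T.a (T.a (T.a (T.l 884) (T.l 884)) (T.c (T.l 884) (T.l 884))) (T.a (T.c (T.l 884) (T.l 884)) (T.l 884))) (T.a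 (T.a (T.a (T.a (T.l 884) (T.l 884)) (T.a (T.l 884) (T.l 884))) (T.a (T.a (T.l 884) (T.l 884)) (T.a (T.l 884) (T.l 884)))) (T.a (T.a (T.a (T.l 884) (T.l 884)) (T.a (T.l 884) (T.l 884))) (T.c (T.l 1024) (T.a (T.a (T.l 884) (T.l 884)) (T.a (T.l 884) (T.l 884))))))) (T.b (T.a (T.a (T.a (T.l 816) (T.l 816)) (T.l 884)) (T.a (T.l 884) (T.l 884))) (T.a (T.a (T.a (T.a (T.l 884) (T.l 884)) (T.c (T.l 884) (T.l 884))) (T.a (T.c (T.l 884) (T.l 884)) (T.c (T.l 884) (T.l 884)))) (T.a (T.a (T.c (T.l 884) (T.l 884)) (T.c (T.l 884) (T.l 884))) (T.a (T.c (T.l 884) (T.l 884)) (T.c (T.l 884) (T.l 884))))))) (T.c (T.a (T.a (T.a (T.c (T.l 1024) (T.a (T.l 884) (T.l 1024))) (T.l 1024)) (T.l 1024)) (T.l 1024)) (T.b (T.a (T.a (T.l 884) (T.l 884)) (T.a (T.l 884) (T.l 884))) (T.a (T.a (T.a (T.a (T.l 884) (T.l 884)) (T.a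 (T.l 884) (T.l 884))) (T.a (T.a (T.l 884) (T.l 884)) (T.a (T.l 884) (T.l 884)))) (T.a (T.a (T.a (T.l 884) (T.l 884)) (T.c (T.l 1024) (T.l 884))) (T.c (T.l 1024) (T.a (T.l 884) (T.l 884)))))))))))), by decide +kernel⟩

def B102L_200_3_511_3 :
    ∃ t, chk3 (onCell 0 67108864 0 1073741824 67108864 67108864 (corTK [[⟨0, 1, 2, 33554432⟩, ⟨1, 0, 1, 33554432⟩, ⟨2, 1, 0, 16777216⟩, ⟨0, 0, 0, 1023410176⟩, ⟨0, 1, 0, 150994944⟩, ⟨1, 0, 0, 150994944⟩, ⟨1, 1, 0, 1023410176⟩]] false 3 c0N cB102L gN2q1 gN0q2 gN0q0 gN1q0 true true)) t 3 511 3 = true :=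
  ⟨(T.b (T.a (T.a (T.a (T.l 816) (T.l 816)) (T.a (T.l 816) (T.l 816))) (T.c (T.b (T.a (T.a (T.a (T.l 816) (T.l 816)) (T.l 820)) (T.a (T.l 816) (T.l 816))) (T.a (T.a (T.a (T.l 816) (T.l 816)) (T.a (T.l 816) (T.l 816))) (T.a (T.c (T.l 884) (T.l 884)) (T.l 884)))) (T.b (T.a (T.a (T.a (T.l 816) (T.l 816)) (T.l 816)) (T.a (T.l 816) (T.l 816))) (T.a (T.a (T.a (T.l 816) (T.l 816)) (T.a (T.l 816) (T.l 816))) (T.a (T.c (T.l 884) (T.l 884)) (T.l 884)))))) (T.a (T.c (T.b (T.a (T.a (T.l 816) (T.l 816)) (T.a (T.l 816) (T.l 816))) (T.a (T.a (T.a (T.c (T.l 884) (T.l 820)) (T.c (T.l 884) (T.l 884))) (T.c (T.a (T.l 884) (T.l 884)) (T.a (T.l 884) (T.l 884)))) (T.a (T.a (T.c (T.l 884) (T.l 884)) (T.c (T.l 884) (T.l 884))) (T.c (T.a (T.l 884) (T.a (T.l 884) (T.l 884))) (T.a (T.l 884) (T.a (T.l 884) (T.l 884)))))))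 (T.b (T.a (T.a (T.l 816) (T.l 816)) (T.a (T.l 816) (T.l 816))) (T.a (T.a (T.a (T.l 820) (T.l 820)) (T.a (T.l 884) (T.l 884))) (T.a (T.a (T.l 884) (T.l 884)) (T.a (T.l 884) (T.a (T.l 820) (T.l 884))))))) (T.c (T.b (T.a (T.a (T.a (T.l 884) (T.l 884)) (T.a (T.l 884) (T.l 884))) (T.a (T.a (T.l 884) (T.l 884)) (T.a (T.l 884) (T.l 884)))) (T.a (T.c (T.b (T.a (T.a (T.a (T.l 816) (T.l 816)) (T.l 884)) (T.a (T.l 884) (T.l 884))) (T.a (T.a (T.a (T.l 884) (T.l 884)) (T.a (T.l 884) (T.l 884))) (T.a (T.a (T.l 884) (T.l 884)) (T.a (T.l 884) (T.l 884))))) (T.b (T.a (T.a (T.l 884) (T.l 884)) (T.a (T.l 884) (T.l 884))) (T.a (T.a (T.a (T.l 884) (T.l 884)) (T.a (T.l 884) (T.l 884))) (T.a (T.a (T.l 884) (T.l 884)) (T.a (T.l 884) (T.l 884)))))) (T.c (T.b (T.a (T.a (T.l 884) (T.l 884)) (T.a (T.l 884) (T.l 884))) (T.a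 (T.a (T.a (T.l 884) (T.l 884)) (T.a (T.l 884) (T.l 884))) (T.a (T.a (T.l 884) (T.l 884)) (T.a (T.l 884) (T.l 884))))) (T.b (T.a (T.a (T.l 884) (T.l 884)) (T.a (T.l 884) (T.l 884))) (T.a (T.a (T.a (T.l 884) (T.l 884)) (T.a (T.l 884) (T.l 884))) (T.a (T.a (T.l 884) (T.l 884)) (T.a (T.l 884) (T.l 884)))))))) (T.b (T.a (T.a (T.a (T.l 820) (T.l 816)) (T.a (T.l 816) (T.l 816))) (T.a (T.a (T.l 816) (T.l 816)) (T.a (T.l 816) (T.l 816)))) (T.a (T.c (T.b (T.a (T.a (T.l 884) (T.l 884)) (T.a (T.l 884) (T.l 884))) (T.a (T.a (T.a (T.l 884) (T.l 884)) (T.a (T.l 884) (T.l 884))) (T.a (T.a (T.l 884) (T.l 884)) (T.a (T.l 884) (T.l 884))))) (T.b (T.a (T.a (T.l 884) (T.l 884)) (T.a (T.l 884) (T.l 884))) (T.a (T.a (T.a (T.l 816) (T.l 816)) (T.a (T.l 884) (T.l 884))) (T.a (T.a (T.l 884) (T.l 884)) (T.c (T.l 884) (T.l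 884)))))) (T.c (T.b (T.a (T.a (T.l 884) (T.l 884)) (T.a (T.l 884) (T.l 884))) (T.a (T.a (T.a (T.l 884) (T.l 884)) (T.a (T.l 884) (T.l 884))) (T.a (T.a (T.l 884) (T.l 884)) (T.a (T.l 884) (T.l 884))))) (T.b (T.a (T.a (T.l 884) (T.l 884)) (T.a (T.l 884) (T.l 884))) (T.a (T.a (T.c (T.l 884) (T.l 884)) (T.c (T.l 884) (T.l 884))) (T.a (T.c (T.l 884) (T.l 884)) (T.c (T.l 884) (T.l 884))))))))))), by decide +kernel⟩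

theorem B102L_200_3_511_1 :
    ∃ t, chk3 (onCell 0 67108864 0 1073741824 67108864 67108864 (corTK [[⟨0, 1, 2, 33554432⟩, ⟨1, 0, 1, 33554432⟩, ⟨2, 1, 0, 16777216⟩, ⟨0, 0, 0, 1023410176⟩, ⟨0, 1, 0, 150994944⟩, ⟨1, 0, 0, 150994944⟩, ⟨1, 1, 0, 1023410176⟩]] false 3 c0N cB102L gN2q1 gN0q2 gN0q0 gN1q0 true true)) t 3 511 1 = true :=
  ex3_c B102L_200_3_511_2 B102L_200_3_511_3
theorem B102L_200_1_511_1 :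
    ∃ t, chk3 (onCell 0 67108864 0 1073741824 67108864 67108864 (corTK [[⟨0, 1, 2, 33554432⟩, ⟨1, 0, 1, 33554432⟩, ⟨2, 1, 0, 16777216⟩, ⟨0, 0, 0, 1023410176⟩, ⟨0, 1, 0, 150994944⟩, ⟨1, 0, 0, 150994944⟩, ⟨1, 1, 0, 1023410176⟩]] false 3 c0N cB102L gN2q1 gN0q2 gN0q0 gN1q0 true true)) t 1 511 1 = true :=
  ex3_a B102L_200_2_511_1 B102L_200_3_511_1
theorem B102L_200_1_255_1 :
    ∃ t, chk3 (onCell 0 67108864 0 1073741824 67108864 67108864 (corTK [[⟨0, 1, 2, 33554432⟩, ⟨1, 0, 1, 33554432⟩, ⟨2, 1, 0, 16777216⟩, ⟨0, 0, 0, 1023410176⟩, ⟨0, 1, 0, 150994944⟩, ⟨1, 0, 0, 150994944⟩, ⟨1, 1, 0, 1023410176⟩]] false 3 c0N cB102L gN2q1 gN0q2 gN0q0 gN1q0 true true)) t 1 255 1 = true :=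
  ex3_b B102L_200_1_510_1 B102L_200_1_511_1
theorem B102L_200_1_127_1 :
    ∃ t, chk3 (onCell 0 67108864 0 1073741824 67108864 67108864 (corTK [[⟨0, 1, 2, 33554432⟩, ⟨1, 0, 1, 33554432⟩, ⟨2, 1, 0, 16777216⟩, ⟨0, 0, 0, 1023410176⟩, ⟨0, 1, 0, 150994944⟩, ⟨1, 0, 0, 150994944⟩, ⟨1, 1, 0, 1023410176⟩]] false 3 c0N cB102L gN2q1 gN0q2 gN0q0 gN1q0 true true)) t 1 127 1 = true :=
  ex3_b B102L_200_1_254_1 B102L_200_1_255_1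
theorem B102L_200_1_63_1 :
    ∃ t, chk3 (onCell 0 67108864 0 1073741824 67108864 67108864 (corTK [[⟨0, 1, 2, 33554432⟩, ⟨1, 0, 1, 33554432⟩, ⟨2, 1, 0, 16777216⟩, ⟨0, 0, 0, 1023410176⟩, ⟨0, 1, 0, 150994944⟩, ⟨1, 0, 0, 150994944⟩, ⟨1, 1, 0, 1023410176⟩]] false 3 c0N cB102L gN2q1 gN0q2 gN0q0 gN1q0 true true)) t 1 63 1 = true :=
  ex3_b B102L_200_1_126_1 B102L_200_1_127_1
theorem B102L_200_1_31_1 :
    ∃ t, chk3 (onCell 0 67108864 0 1073741824 67108864 67108864 (corTK [[⟨0, 1, 2, 33554432⟩, ⟨1, 0, 1, 33554432⟩, ⟨2, 1, 0, 16777216⟩, ⟨0, 0, 0, 1023410176⟩, ⟨0, 1, 0, 150994944⟩, ⟨1, 0, 0, 150994944⟩, ⟨1, 1, 0, 1023410176⟩]] false 3 c0N cB102L gN2q1 gN0q2 gN0q0 gN1q0 true true)) t 1 31 1 = true :=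
  ex3_b B102L_200_1_62_1 B102L_200_1_63_1
theorem B102L_200_1_15_1 :
    ∃ t, chk3 (onCell 0 67108864 0 1073741824 67108864 67108864 (corTK [[⟨0, 1, 2, 33554432⟩, ⟨1, 0, 1, 33554432⟩, ⟨2, 1, 0, 16777216⟩, ⟨0, 0, 0, 1023410176⟩, ⟨0, 1, 0, 150994944⟩, ⟨1, 0, 0, 150994944⟩, ⟨1, 1, 0, 1023410176⟩]] false 3 c0N cB102L gN2q1 gN0q2 gN0q0 gN1q0 true true)) t 1 15 1 = true :=
  ex3_b B102L_200_1_30_1 B102L_200_1_31_1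
theorem B102L_200_1_7_1 :
    ∃ t, chk3 (onCell 0 67108864 0 1073741824 67108864 67108864 (corTK [[⟨0, 1, 2, 33554432⟩, ⟨1, 0, 1, 33554432⟩, ⟨2, 1, 0, 16777216⟩, ⟨0, 0, 0, 1023410176⟩, ⟨0, 1, 0, 150994944⟩, ⟨1, 0, 0, 150994944⟩, ⟨1, 1, 0, 1023410176⟩]] false 3 c0N cB102L gN2q1 gN0q2 gN0q0 gN1q0 true true)) t 1 7 1 = true :=
  ex3_b B102L_200_1_14_1 B102L_200_1_15_1
theorem B102L_200_1_3_1 :
    ∃ t, chk3 (onCell 0 67108864 0 1073741824 67108864 67108864 (corTK [[⟨0, 1, 2, 33554432⟩, ⟨1, 0, 1, 33554432⟩, ⟨2, 1, 0, 16777216⟩, ⟨0, 0, 0, 1023410176⟩, ⟨0, 1, 0, 150994944⟩, ⟨1, 0, 0, 150994944⟩, ⟨1, 1, 0, 1023410176⟩]] false 3 c0N cB102L gN2q1 gN0q2 gN0q0 gN1q0 true true)) t 1 3 1 = true :=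
  ex3_b B102L_200_1_6_1 B102L_200_1_7_1
theorem B102L_200 :
    ∃ t, chk3 (onCell 0 67108864 0 1073741824 67108864 67108864 (corTK [[⟨0, 1, 2, 33554432⟩, ⟨1, 0, 1, 33554432⟩, ⟨2, 1, 0, 16777216⟩, ⟨0, 0, 0, 1023410176⟩, ⟨0, 1, 0, 150994944⟩, ⟨1, 0, 0, 150994944⟩, ⟨1, 1, 0, 1023410176⟩]] false 3 c0N cB102L gN2q1 gN0q2 gN0q0 gN1q0 true true)) t 1 1 1 = true :=
  ex3_b B102L_200_1_2_1 B102L_200_1_3_1

def B102L_201 :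
    ∃ t, chk3 (onCell 0 67108864 0 1073741824 67108864 67108864 (corTK [[⟨0, 1, 2, 33554432⟩, ⟨1, 0, 1, 33554432⟩, ⟨2, 1, 0, 16777216⟩, ⟨0, 0, 0, 1023410176⟩, ⟨0, 1, 0, 150994944⟩, ⟨1, 0, 0, 150994944⟩, ⟨1, 1, 0, 1023410176⟩]] false 3 c0N cB102L gN2q1 gN0q2 gN1q0 gN2q0 true true)) t 1 1 1 = true :=
  ⟨(T.b (T.b (T.b (T.a (T.a (T.a (T.l 204) (T.l 204)) (T.l 204)) (T.b (T.l 2) (T.l 204))) (T.a (T.a (T.a (T.l 204) (T.l 204)) (T.l 204)) (T.b (T.l 204) (T.l 0)))) (T.b (T.a (T.a (T.a (T.l 204) (T.l 204)) (T.l 204)) (T.b (T.l 204) (T.l 204))) (T.a (T.a (T.a (T.l 204) (T.l 0)) (T.l 0)) (T.b (T.l 204) (T.l 204))))) (T.b (T.a (T.l 1) (T.b (T.b (T.l 0) (T.l 1)) (T.l 1))) (T.l 1))), by decide +kernel⟩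

def B102L_202 :
    ∃ t, chk3 (onCell 0 67108864 0 1073741824 67108864 67108864 (corTK [[⟨0, 1, 2, 33554432⟩, ⟨1, 0, 1, 33554432⟩, ⟨2, 1, 0, 16777216⟩, ⟨0, 0, 0, 1023410176⟩, ⟨0, 1, 0, 150994944⟩, ⟨1, 0, 0, 150994944⟩, ⟨1, 1, 0, 1023410176⟩]] false 3 c0N cB102L gN2q1 gN0q2 gN2q0 gN3q0 true false)) t 1 1 1 = true :=
  ⟨(T.b (T.b (T.b (T.a (T.a (T.a (T.l 204) (T.l 204)) (T.l 204)) (T.l 204)) (T.a (T.l 1) (T.b (T.l 204) (T.l 204)))) (T.l 1)) (T.l 1)), by decide +kernel⟩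

end Pool.Agent.Strip051.G.I1_16_1_8.Tab.CN
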