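import Pool.Agent.Strip051.G.I1_16_1_8.Gn
import Pool.Agent.Strip051.PB.Corns
import Pool.Agent.Strip051.PB.CornK

/-! # Certificates of the aligned corners (generated) -/

set_option linter.all false

namespace Pool.Agent.Strip051.G.I1_16_1_8.Tab.CN

open Pool.Agent.Strip051.PB

def B102L_210_1_2_1 :
    ∃ t, chk3 (onCell 0 67108864 0 1073741824 67108864 67108864 (corTK [[⟨0, 1, 2, 33554432⟩, ⟨1, 0, 1, 33554432⟩, ⟨2, 1, 0, 16777216⟩, ⟨0, 0, 0, 1023410176⟩, ⟨0, 1, 0, 150994944⟩, ⟨1, 0, 0, 150994944⟩, ⟨1, 1, 0, 1023410176⟩]] false 3 c0N cB102L gN2q1 gN1q2 gN0q0 gN1q0 true true)) t 1 2 1 = true :=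
  ⟨(T.b (T.a (T.a (T.a (T.l 204) (T.l 204)) (T.l 0)) (T.b (T.l 204) (T.b (T.l 204) (T.l 204)))) (T.b (T.a (T.a (T.a (T.l 204) (T.l 204)) (T.l 204)) (T.b (T.l 204) (T.l 204))) (T.a (T.a (T.a (T.l 204) (T.l 204)) (T.b (T.l 204) (T.l 0))) (T.b (T.l 0) (T.l 0))))), by decide +kernel⟩

def B102L_210_1_6_1 :
    ∃ t, chk3 (onCell 0 67108864 0 1073741824 67108864 67108864 (corTK [[⟨0, 1, 2, 33554432⟩, ⟨1, 0, 1, 33554432⟩, ⟨2, 1, 0, 16777216⟩, ⟨0, 0, 0, 1023410176⟩, ⟨0, 1, 0, 150994944⟩, ⟨1, 0, 0, 150994944⟩, ⟨1, 1, 0, 1023410176⟩]] false 3 c0N cB102L gN2q1 gN1q2 gN0q0 gN1q0 true true)) t 1 6 1 = true :=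
  ⟨(T.b (T.a (T.a (T.a (T.l 204) (T.l 204)) (T.b (T.l 0) (T.l 0))) (T.a (T.l 204) (T.l 204))) (T.b (T.a (T.a (T.a (T.l 204) (T.l 204)) (T.l 0)) (T.a (T.l 204) (T.l 204))) (T.b (T.a (T.a (T.a (T.l 204) (T.l 204)) (T.l 0)) (T.a (T.l 204) (T.l 204))) (T.b (T.a (T.a (T.a (T.l 204) (T.l 204)) (T.l 0)) (T.l 0)) (T.a (T.a (T.a (T.l 204) (T.l 204)) (T.l 0)) (T.a (T.l 204) (T.a (T.l 204) (T.l 204)))))))), by decide +kernel⟩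

def B102L_210_1_14_1 :
    ∃ t, chk3 (onCell 0 67108864 0 1073741824 67108864 67108864 (corTK [[⟨0, 1, 2, 33554432⟩, ⟨1, 0, 1, 33554432⟩, ⟨2, 1, 0, 16777216⟩, ⟨0, 0, 0, 1023410176⟩, ⟨0, 1, 0, 150994944⟩, ⟨1, 0, 0, 150994944⟩, ⟨1, 1, 0, 1023410176⟩]] false 3 c0N cB102L gN2q1 gN1q2 gN0q0 gN1q0 true true)) t 1 14 1 = true :=
  ⟨(T.b (T.b (T.b (T.a (T.a (T.a (T.l 204) (T.l 204)) (T.l 0)) (T.a (T.l 204) (T.a (T.l 204) (T.l 204)))) (T.a (T.a (T.a (T.l 204) (T.l 204)) (T.l 0)) (T.a (T.l 0) (T.a (T.l 204) (T.l 204))))) (T.b (T.a (T.a (T.a (T.l 204) (T.l 204)) (T.l 0)) (T.a (T.l 0) (T.a (T.l 204) (T.l 0)))) (T.a (T.a (T.a (T.l 204) (T.l 0)) (T.l 0)) (T.a (T.l 0) (T.a (T.l 204) (T.l 0)))))) (T.b (T.b (T.a (T.a (T.a (T.l 0) (T.l 0)) (T.l 0)) (T.a (T.l 0) (T.a (T.l 204) (T.l 0)))) (T.a (T.a (T.a (T.l 0) (T.l 0)) (T.l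 0)) (T.a (T.l 0) (T.a (T.l 0) (T.l 0))))) (T.b (T.a (T.a (T.a (T.l 816) (T.l 0)) (T.l 0)) (T.a (T.l 0) (T.a (T.l 0) (T.l 0)))) (T.b (T.a (T.a (T.a (T.l 816) (T.l 0)) (T.l 0)) (T.a (T.l 0) (T.a (T.l 0) (T.l 0)))) (T.a (T.a (T.a (T.l 816) (T.l 0)) (T.l 4)) (T.a (T.l 0) (T.a (T.l 0) (T.l 0)))))))), by decide +kernel⟩

def B102L_210_1_30_1 :
    ∃ t, chk3 (onCell 0 67108864 0 1073741824 67108864 67108864 (corTK [[⟨0, 1, 2, 33554432⟩, ⟨1, 0, 1, 33554432⟩, ⟨2, 1, 0, 16777216⟩, ⟨0, 0, 0, 1023410176⟩, ⟨0, 1, 0, 150994944⟩, ⟨1, 0, 0, 150994944⟩, ⟨1, 1, 0, 1023410176⟩]] false 3 c0N cB102L gN2q1 gN1q2 gN0q0 gN1q0 true true)) t 1 30 1 = true :=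
  ⟨(T.b (T.b (T.b (T.a (T.a (T.a (T.l 816) (T.l 816)) (T.c (T.l 0) (T.l 0))) (T.a (T.l 0) (T.a (T.l 0) (T.l 0)))) (T.a (T.a (T.a (T.l 816) (T.l 816)) (T.c (T.l 0) (T.l 0))) (T.a (T.l 0) (T.a (T.l 0) (T.l 0))))) (T.b (T.a (T.a (T.a (T.l 816) (T.l 816)) (T.c (T.l 0) (T.l 0))) (T.a (T.l 0) (T.a (T.l 0) (T.l 0)))) (T.a (T.a (T.a (T.l 816) (T.l 816)) (T.c (T.l 0) (T.l 0))) (T.a (T.l 0) (T.a (T.l 0) (T.l 0)))))) (T.b (T.b (T.a (T.a (T.a (T.l 816) (T.l 816)) (T.a (T.l 0) (T.l 816))) (T.a (T.l 816) (T.a (T.l 0) (T.l 816)))) (T.a (T.a (T.a (T.l 816) (T.l 816)) (T.a (T.l 816) (T.l 816))) (T.a (T.l 816) (T.a (T.l 0) (T.l 816))))) (T.b (T.a (T.a (T.a (T.l 816) (T.l 816)) (T.a (T.l 816) (T.l 816))) (T.a (T.l 816) (T.a (T.l 0) (T.l 816)))) (T.a (T.a (T.a (T.l 816) (T.l 816)) (T.a (T.l 816) (T.l 816))) (T.a (T.l 816) (T.a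 (T.c (T.l 816) (T.l 816)) (T.l 816))))))), by decide +kernel⟩

def B102L_210_1_62_1 :
    ∃ t, chk3 (onCell 0 67108864 0 1073741824 67108864 67108864 (corTK [[⟨0, 1, 2, 33554432⟩, ⟨1, 0, 1, 33554432⟩, ⟨2, 1, 0, 16777216⟩, ⟨0, 0, 0, 1023410176⟩, ⟨0, 1, 0, 150994944⟩, ⟨1, 0, 0, 150994944⟩, ⟨1, 1, 0, 1023410176⟩]] false 3 c0N cB102L gN2q1 gN1q2 gN0q0 gN1q0 true true)) t 1 62 1 = true :=
  ⟨(T.b (T.b (T.a (T.a (T.a (T.l 816) (T.l 816)) (T.a (T.l 816) (T.l 816))) (T.a (T.c (T.l 816) (T.l 816)) (T.a (T.c (T.l 816) (T.l 816)) (T.l 816)))) (T.a (T.a (T.a (T.l 816) (T.l 816)) (T.a (T.l 816) (T.l 816))) (T.a (T.c (T.l 816) (T.l 816)) (T.a (T.c (T.l 820) (T.l 820)) (T.l 816))))) (T.b (T.b (T.a (T.a (T.a (T.l 816) (T.l 816)) (T.a (T.l 816) (T.l 816))) (T.a (T.c (T.l 816) (T.l 816)) (T.a (T.c (T.l 820) (T.l 820)) (T.l 816))))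 (T.a (T.c (T.a (T.a (T.l 816) (T.a (T.l 816) (T.l 816))) (T.a (T.l 816) (T.l 816))) (T.a (T.a (T.l 816) (T.a (T.l 816) (T.l 816))) (T.a (T.l 816) (T.l 816)))) (T.a (T.c (T.l 816) (T.l 816)) (T.a (T.a (T.l 816) (T.l 816)) (T.l 820))))) (T.b (T.a (T.c (T.a (T.a (T.l 816) (T.a (T.l 816) (T.l 816))) (T.a (T.l 816) (T.l 816))) (T.a (T.a (T.l 816) (T.a (T.l 816) (T.l 816))) (T.a (T.l 816) (T.l 816)))) (T.a (T.a (T.l 816) (T.l 816)) (T.a (T.a (T.l 816) (T.l 816)) (T.c (T.l 816) (T.l 816))))) (T.a (T.c (T.a (T.a (T.l 816) (T.a (T.l 816) (T.l 816))) (T.a (T.l 816) (T.l 816))) (T.b (T.a (T.a (T.l 816) (T.a (T.l 816) (T.l 816))) (T.a (T.l 816) (T.l 816))) (T.a (T.a (T.l 816) (T.a (T.l 816) (T.l 816))) (T.a (T.l 816) (T.l 816))))) (T.a (T.a (T.l 816) (T.l 816)) (T.a (T.a (T.l 816) (T.l 816)) (T.c (T.l 816) (T.l 816)))))))),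 by decide +kernel⟩

def B102L_210_1_126_1 :
    ∃ t, chk3 (onCell 0 67108864 0 1073741824 67108864 67108864 (corTK [[⟨0, 1, 2, 33554432⟩, ⟨1, 0, 1, 33554432⟩, ⟨2, 1, 0, 16777216⟩, ⟨0, 0, 0, 1023410176⟩, ⟨0, 1, 0, 150994944⟩, ⟨1, 0, 0, 150994944⟩, ⟨1, 1, 0, 1023410176⟩]] false 3 c0N cB102L gN2q1 gN1q2 gN0q0 gN1q0 true true)) t 1 126 1 = true :=
  ⟨(T.b (T.b (T.a (T.c (T.b (T.a (T.a (T.l 816) (T.a (T.l 816) (T.l 816))) (T.a (T.l 816) (T.l 816))) (T.a (T.a (T.l 816) (T.a (T.l 816) (T.l 816))) (T.a (T.l 816) (T.l 816)))) (T.b (T.a (T.a (T.l 816) (T.a (T.l 816) (T.l 816))) (T.a (T.l 816) (T.l 816))) (T.a (T.a (T.l 816) (T.a (T.l 816) (T.l 816))) (T.a (T.l 816) (T.l 816))))) (T.a (T.a (T.l 816) (T.l 816)) (T.a (T.a (T.l 816) (T.l 816)) (T.c (T.l 820) (T.l 820))))) (T.a (T.c (T.b (T.a (T.a (T.l 816) (T.a (T.l 816)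 (T.l 816))) (T.a (T.l 816) (T.l 816))) (T.a (T.a (T.l 816) (T.a (T.l 816) (T.l 816))) (T.a (T.l 816) (T.l 816)))) (T.b (T.a (T.a (T.l 816) (T.a (T.l 816) (T.l 816))) (T.a (T.l 816) (T.l 816))) (T.a (T.a (T.l 816) (T.a (T.l 816) (T.l 816))) (T.a (T.c (T.l 816) (T.l 816)) (T.l 816))))) (T.a (T.a (T.l 816) (T.l 816)) (T.a (T.a (T.l 816) (T.l 816)) (T.a (T.l 816) (T.l 816)))))) (T.b (T.a (T.c (T.b (T.a (T.a (T.l 816) (T.a (T.l 816) (T.l 816))) (T.a (T.c (T.l 816) (T.l 816)) (T.l 816))) (T.a (T.a (T.l 816) (T.a (T.l 816) (T.l 816))) (T.a (T.c (T.l 816) (T.l 816)) (T.l 816)))) (T.b (T.a (T.a (T.l 816) (T.a (T.l 816) (T.l 816))) (T.a (T.c (T.l 816) (T.l 816)) (T.l 816))) (T.a (T.a (T.l 816) (T.a (T.l 816) (T.l 816))) (T.a (T.c (T.l 816) (T.l 820)) (T.l 816))))) (T.a (T.a (T.l 816) (T.l 816)) (T.a (T.a (T.l 820) (T.l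 816)) (T.a (T.l 816) (T.l 816))))) (T.a (T.c (T.b (T.a (T.a (T.l 816) (T.a (T.l 816) (T.l 816))) (T.a (T.a (T.l 816) (T.l 816)) (T.l 816))) (T.a (T.a (T.l 816) (T.a (T.l 816) (T.l 816))) (T.a (T.a (T.l 816) (T.l 816)) (T.l 816)))) (T.b (T.a (T.a (T.l 816) (T.a (T.l 816) (T.l 816))) (T.a (T.a (T.l 816) (T.l 816)) (T.l 816))) (T.a (T.a (T.l 816) (T.a (T.l 816) (T.l 816))) (T.a (T.a (T.l 816) (T.l 816)) (T.l 816))))) (T.c (T.a (T.a (T.l 816) (T.l 816)) (T.a (T.a (T.l 816) (T.l 816)) (T.a (T.l 816) (T.l 816)))) (T.a (T.a (T.l 816) (T.l 816)) (T.a (T.a (T.l 816) (T.l 816)) (T.a (T.l 816) (T.l 816)))))))), by decide +kernel⟩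

def B102L_210_1_254_1 :
    ∃ t, chk3 (onCell 0 67108864 0 1073741824 67108864 67108864 (corTK [[⟨0, 1, 2, 33554432⟩, ⟨1, 0, 1, 33554432⟩, ⟨2, 1, 0, 16777216⟩, ⟨0, 0, 0, 1023410176⟩, ⟨0, 1, 0, 150994944⟩, ⟨1, 0, 0, 150994944⟩, ⟨1, 1, 0, 1023410176⟩]] false 3 c0N cB102L gN2q1 gN1q2 gN0q0 gN1q0 true true)) t 1 254 1 = true :=
  ⟨(T.b (T.a (T.c (T.b (T.a (T.a (T.l 816) (T.a (T.l 816) (T.l 816))) (T.a (T.a (T.l 816) (T.l 816)) (T.l 816))) (T.a (T.a (T.l 816) (T.a (T.l 816) (T.l 816))) (T.a (T.a (T.l 816) (T.l 816)) (T.c (T.l 816) (T.l 816))))) (T.b (T.a (T.a (T.l 816) (T.a (T.l 816) (T.l 816))) (T.a (T.a (T.l 816) (T.l 816)) (T.l 816))) (T.a (T.a (T.l 816) (T.a (T.l 816) (T.l 816))) (T.a (T.a (T.l 816) (T.l 816)) (T.c (T.l 816) (T.l 816)))))) (T.c (T.a (T.a (T.l 816) (T.l 816)) (T.a (T.a (T.l 884) (T.l 816)) (T.a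 (T.l 816) (T.l 816)))) (T.b (T.a (T.a (T.l 816) (T.l 816)) (T.a (T.a (T.l 816) (T.l 816)) (T.a (T.l 816) (T.l 816)))) (T.a (T.a (T.l 816) (T.l 816)) (T.a (T.a (T.l 816) (T.l 816)) (T.a (T.l 816) (T.l 816))))))) (T.a (T.c (T.b (T.a (T.a (T.l 816) (T.a (T.l 816) (T.l 816))) (T.a (T.a (T.l 816) (T.l 816)) (T.c (T.l 816) (T.l 820)))) (T.a (T.a (T.l 816) (T.a (T.l 816) (T.l 816))) (T.a (T.a (T.l 816) (T.l 816)) (T.a (T.l 816) (T.l 816))))) (T.b (T.a (T.a (T.l 816) (T.a (T.l 816) (T.l 816))) (T.a (T.a (T.l 816) (T.l 816)) (T.a (T.l 816) (T.l 816)))) (T.a (T.a (T.l 816) (T.a (T.l 816) (T.l 816))) (T.a (T.a (T.l 816) (T.l 816)) (T.a (T.l 816) (T.l 816)))))) (T.c (T.b (T.a (T.a (T.l 816) (T.l 816)) (T.a (T.a (T.c (T.l 820) (T.l 816)) (T.l 816)) (T.a (T.l 816) (T.l 816)))) (T.a (T.a (T.c (T.l 816) (T.l 816)) (T.l 884))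 (T.a (T.a (T.a (T.l 816) (T.l 816)) (T.c (T.l 1024) (T.l 816))) (T.a (T.l 884) (T.l 820))))) (T.b (T.a (T.a (T.l 816) (T.l 816)) (T.a (T.a (T.c (T.l 816) (T.l 816)) (T.l 816)) (T.a (T.l 816) (T.l 816)))) (T.a (T.a (T.c (T.l 816) (T.l 816)) (T.l 820)) (T.c (T.a (T.a (T.c (T.l 820) (T.l 820)) (T.l 816)) (T.a (T.l 816) (T.l 816))) (T.a (T.a (T.c (T.l 820) (T.l 820)) (T.l 816)) (T.a (T.l 816) (T.l 816))))))))), by decide +kernel⟩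

def B102L_210_1_510_1 :
    ∃ t, chk3 (onCell 0 67108864 0 1073741824 67108864 67108864 (corTK [[⟨0, 1, 2, 33554432⟩, ⟨1, 0, 1, 33554432⟩, ⟨2, 1, 0, 16777216⟩, ⟨0, 0, 0, 1023410176⟩, ⟨0, 1, 0, 150994944⟩, ⟨1, 0, 0, 150994944⟩, ⟨1, 1, 0, 1023410176⟩]] false 3 c0N cB102L gN2q1 gN1q2 gN0q0 gN1q0 true true)) t 1 510 1 = true :=
  ⟨(T.a (T.c (T.b (T.a (T.a (T.l 816) (T.a (T.l 816) (T.c (T.l 816) (T.l 816)))) (T.a (T.a (T.l 816) (T.l 816)) (T.a (T.l 816) (T.l 816)))) (T.a (T.a (T.l 816) (T.a (T.l 816) (T.c (T.l 816) (T.l 816)))) (T.a (T.a (T.c (T.l 816) (T.l 816)) (T.c (T.l 816) (T.l 816))) (T.a (T.c (T.l 816) (T.l 816)) (T.l 816))))) (T.b (T.a (T.a (T.l 816) (T.a (T.l 816) (T.c (T.l 816) (T.l 816)))) (T.a (T.a (T.l 816) (T.l 816)) (T.a (T.l 816) (T.l 816)))) (T.a (T.a (T.l 816) (T.a (T.l 816) (T.c (T.l 816) (T.l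 816)))) (T.c (T.a (T.a (T.l 816) (T.l 816)) (T.a (T.l 816) (T.l 816))) (T.a (T.a (T.l 816) (T.l 816)) (T.a (T.l 816) (T.l 816))))))) (T.c (T.b (T.a (T.a (T.c (T.l 884) (T.l 884)) (T.c (T.l 820) (T.l 820))) (T.c (T.a (T.a (T.a (T.l 816) (T.l 1024)) (T.l 1024)) (T.l 1024)) (T.b (T.a (T.a (T.a (T.l 816) (T.l 816)) (T.l 820)) (T.a (T.l 816) (T.l 816))) (T.a (T.a (T.a (T.l 816) (T.l 816)) (T.l 884)) (T.a (T.l 884) (T.l 820)))))) (T.a (T.a (T.a (T.l 816) (T.l 816)) (T.a (T.l 816) (T.l 816))) (T.c (T.a (T.a (T.a (T.l 816) (T.l 1024)) (T.l 1024)) (T.l 1024)) (T.b (T.a (T.a (T.a (T.l 816) (T.l 816)) (T.a (T.l 816) (T.l 816))) (T.a (T.c (T.l 884) (T.l 884)) (T.l 884))) (T.a (T.a (T.a (T.l 816) (T.l 816)) (T.a (T.l 816) (T.l 816))) (T.a (T.a (T.l 816) (T.l 816)) (T.c (T.l 1024) (T.l 884)))))))) (T.b (T.a (T.a (T.a (T.l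 816) (T.l 816)) (T.c (T.l 820) (T.l 816))) (T.c (T.b (T.a (T.a (T.a (T.l 816) (T.l 816)) (T.l 820)) (T.a (T.l 816) (T.l 816))) (T.a (T.a (T.a (T.l 816) (T.l 816)) (T.l 884)) (T.a (T.l 820) (T.l 816)))) (T.b (T.a (T.a (T.c (T.l 884) (T.l 820)) (T.l 816)) (T.a (T.l 816) (T.l 816))) (T.a (T.a (T.a (T.l 816) (T.l 816)) (T.l 820)) (T.a (T.l 816) (T.l 816)))))) (T.a (T.a (T.a (T.l 816) (T.l 816)) (T.a (T.l 816) (T.l 816))) (T.c (T.b (T.a (T.a (T.a (T.l 816) (T.l 816)) (T.c (T.l 884) (T.l 884))) (T.a (T.l 884) (T.l 884))) (T.a (T.a (T.a (T.l 816) (T.l 816)) (T.a (T.l 816) (T.l 816))) (T.a (T.a (T.l 816) (T.l 816)) (T.c (T.l 884) (T.l 884))))) (T.b (T.a (T.a (T.a (T.l 816) (T.l 816)) (T.c (T.l 884) (T.l 884))) (T.a (T.l 884) (T.l 820))) (T.a (T.a (T.a (T.l 816) (T.l 816)) (T.a (T.l 816) (T.l 816))) (T.a (T.c (T.l 884)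 (T.l 884)) (T.l 884))))))))), by decide +kernel⟩

def B102L_210_2_511_1 :
    ∃ t, chk3 (onCell 0 67108864 0 1073741824 67108864 67108864 (corTK [[⟨0, 1, 2, 33554432⟩, ⟨1, 0, 1, 33554432⟩, ⟨2, 1, 0, 16777216⟩, ⟨0, 0, 0, 1023410176⟩, ⟨0, 1, 0, 150994944⟩, ⟨1, 0, 0, 150994944⟩, ⟨1, 1, 0, 1023410176⟩]] false 3 c0N cB102L gN2q1 gN1q2 gN0q0 gN1q0 true true)) t 2 511 1 = true :=
  ⟨(T.c (T.b (T.a (T.a (T.l 816) (T.a (T.l 816) (T.a (T.l 816) (T.l 816)))) (T.c (T.b (T.a (T.a (T.l 884) (T.l 884)) (T.a (T.l 816) (T.l 816))) (T.a (T.a (T.a (T.l 816) (T.l 816)) (T.a (T.l 816) (T.l 816))) (T.a (T.c (T.l 884) (T.l 820)) (T.l 884)))) (T.b (T.a (T.a (T.l 820) (T.l 820)) (T.a (T.l 816) (T.l 816))) (T.a (T.a (T.a (T.l 816) (T.l 816)) (T.a (T.l 816) (T.l 816))) (T.a (T.c (T.l 820) (T.l 820)) (T.l 884)))))) (T.a (T.a (T.l 816)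 (T.a (T.l 816) (T.a (T.l 816) (T.c (T.l 816) (T.l 816))))) (T.c (T.b (T.a (T.a (T.a (T.l 816) (T.l 816)) (T.a (T.l 816) (T.l 816))) (T.a (T.a (T.l 816) (T.l 816)) (T.a (T.l 820) (T.l 820)))) (T.a (T.c (T.b (T.a (T.a (T.l 816) (T.l 816)) (T.a (T.l 816) (T.l 816))) (T.a (T.a (T.l 816) (T.l 816)) (T.a (T.l 884) (T.c (T.l 884) (T.l 884))))) (T.b (T.a (T.a (T.l 816) (T.l 816)) (T.a (T.l 816) (T.l 816))) (T.a (T.a (T.l 816) (T.l 816)) (T.a (T.l 816) (T.l 884))))) (T.c (T.b (T.a (T.a (T.l 816) (T.l 884)) (T.a (T.l 884) (T.l 884))) (T.a (T.a (T.a (T.l 816) (T.l 884)) (T.a (T.l 884) (T.l 884))) (T.a (T.a (T.l 884) (T.l 884)) (T.a (T.c (T.l 884) (T.l 884)) (T.c (T.l 884) (T.l 884)))))) (T.b (T.a (T.a (T.l 816) (T.l 820)) (T.a (T.l 884) (T.l 884))) (T.a (T.a (T.c (T.l 884) (T.l 884)) (T.a (T.l 820) (T.l 884))) (T.a (T.a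 (T.l 884) (T.l 884)) (T.a (T.l 884) (T.l 884)))))))) (T.b (T.a (T.a (T.a (T.l 816) (T.l 816)) (T.a (T.l 816) (T.l 816))) (T.a (T.a (T.l 816) (T.l 816)) (T.a (T.l 816) (T.l 816)))) (T.a (T.c (T.b (T.a (T.a (T.l 816) (T.l 816)) (T.a (T.l 816) (T.l 816))) (T.a (T.a (T.l 816) (T.l 816)) (T.a (T.l 816) (T.l 820)))) (T.b (T.a (T.a (T.l 816) (T.l 816)) (T.a (T.l 816) (T.l 816))) (T.a (T.a (T.l 816) (T.l 816)) (T.a (T.l 816) (T.l 816))))) (T.c (T.b (T.a (T.a (T.l 816) (T.l 816)) (T.a (T.l 820) (T.l 820))) (T.a (T.a (T.c (T.l 820) (T.l 820)) (T.a (T.l 816) (T.l 820))) (T.a (T.a (T.l 820) (T.l 884)) (T.a (T.l 884) (T.l 884))))) (T.b (T.a (T.a (T.l 816) (T.l 816)) (T.a (T.l 816) (T.l 820))) (T.a (T.a (T.l 820) (T.c (T.l 820) (T.l 820))) (T.a (T.c (T.l 884) (T.l 820)) (T.c (T.l 884) (T.l 884))))))))))) (T.b (T.a (T.a (T.l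 816) (T.a (T.l 816) (T.a (T.l 816) (T.l 816)))) (T.c (T.b (T.a (T.a (T.l 816) (T.l 820)) (T.a (T.l 816) (T.l 816))) (T.a (T.a (T.a (T.l 816) (T.l 816)) (T.a (T.l 816) (T.l 816))) (T.a (T.c (T.l 820) (T.l 816)) (T.l 820)))) (T.b (T.a (T.a (T.l 816) (T.l 816)) (T.a (T.l 816) (T.l 816))) (T.a (T.a (T.c (T.l 816) (T.l 816)) (T.c (T.l 820) (T.l 816))) (T.a (T.l 820) (T.l 816)))))) (T.a (T.a (T.l 816) (T.a (T.l 816) (T.a (T.l 816) (T.l 816)))) (T.c (T.b (T.a (T.a (T.a (T.l 816) (T.l 816)) (T.a (T.l 816) (T.l 816))) (T.a (T.a (T.l 816) (T.l 816)) (T.a (T.l 816) (T.l 816)))) (T.a (T.c (T.b (T.a (T.a (T.l 816) (T.l 816)) (T.a (T.l 816) (T.l 816))) (T.a (T.a (T.l 816) (T.l 816)) (T.a (T.l 816) (T.l 816)))) (T.b (T.a (T.a (T.l 816) (T.l 816)) (T.a (T.l 816) (T.l 816))) (T.a (T.a (T.l 816) (T.l 816)) (T.a (T.l 816) (T.l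 816))))) (T.c (T.b (T.a (T.a (T.l 816) (T.l 816)) (T.a (T.l 816) (T.l 816))) (T.a (T.a (T.l 820) (T.l 820)) (T.a (T.l 820) (T.l 884)))) (T.b (T.a (T.a (T.l 816) (T.l 816)) (T.a (T.l 816) (T.l 816))) (T.a (T.a (T.l 816) (T.l 816)) (T.a (T.l 820) (T.l 820))))))) (T.b (T.a (T.a (T.a (T.l 816) (T.l 816)) (T.a (T.l 816) (T.l 816))) (T.a (T.a (T.l 816) (T.l 816)) (T.a (T.l 816) (T.l 816)))) (T.a (T.c (T.b (T.a (T.a (T.l 816) (T.l 816)) (T.a (T.l 816) (T.l 816))) (T.a (T.a (T.l 816) (T.l 816)) (T.a (T.l 816) (T.l 816)))) (T.b (T.a (T.a (T.l 816) (T.l 816)) (T.a (T.l 816) (T.l 816))) (T.a (T.a (T.l 816) (T.l 816)) (T.a (T.l 816) (T.l 816))))) (T.c (T.a (T.a (T.l 816) (T.l 816)) (T.a (T.l 816) (T.l 816))) (T.a (T.a (T.l 816) (T.l 816)) (T.a (T.l 816) (T.l 816)))))))))), by decide +kernel⟩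

def B102L_210_3_511_2 :
    ∃ t, chk3 (onCell 0 67108864 0 1073741824 67108864 67108864 (corTK [[⟨0, 1, 2, 33554432⟩, ⟨1, 0, 1, 33554432⟩, ⟨2, 1, 0, 16777216⟩, ⟨0, 0, 0, 1023410176⟩, ⟨0, 1, 0, 150994944⟩, ⟨1, 0, 0, 150994944⟩, ⟨1, 1, 0, 1023410176⟩]] false 3 c0N cB102L gN2q1 gN1q2 gN0q0 gN1q0 true true)) t 3 511 2 = true :=
  ⟨(T.b (T.a (T.a (T.a (T.c (T.l 884) (T.l 884)) (T.c (T.l 884) (T.l 820))) (T.a (T.c (T.l 884) (T.l 884)) (T.c (T.l 884) (T.l 884)))) (T.c (T.a (T.a (T.a (T.c (T.l 884) (T.l 884)) (T.l 1024)) (T.l 1024)) (T.l 1024)) (T.b (T.a (T.a (T.a (T.l 820) (T.l 816)) (T.a (T.l 816) (T.l 816))) (T.a (T.a (T.l 816) (T.l 816)) (T.a (T.l 816) (T.l 820)))) (T.a (T.a (T.a (T.c (T.l 884) (T.l 884)) (T.l 884)) (T.a (T.l 884) (T.l 884))) (T.a (T.a (T.l 884) (T.l 884)) (T.a (T.l 884) (T.l 884))))))) (T.a (T.c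 (T.b (T.a (T.a (T.a (T.l 884) (T.l 884)) (T.c (T.l 884) (T.l 884))) (T.a (T.a (T.l 884) (T.l 884)) (T.c (T.l 884) (T.l 884)))) (T.a (T.c (T.a (T.a (T.b (T.l 884) (T.a (T.c (T.l 884) (T.l 884)) (T.a (T.l 884) (T.l 884)))) (T.b (T.l 884) (T.a (T.c (T.c (T.l 884) (T.l 884)) (T.l 884)) (T.c (T.c (T.l 884) (T.l 884)) (T.l 884))))) (T.a (T.b (T.l 884) (T.a (T.c (T.a (T.l 884) (T.l 884)) (T.l 884)) (T.c (T.c (T.l 884) (T.l 884)) (T.l 884)))) (T.b (T.l 884) (T.c (T.b (T.l 884) (T.a (T.c (T.l 884) (T.l 884)) (T.c (T.l 884) (T.l 884)))) (T.a (T.l 884) (T.l 884)))))) (T.a (T.a (T.b (T.l 884) (T.a (T.c (T.l 884) (T.l 884)) (T.c (T.l 884) (T.l 884)))) (T.b (T.l 884) (T.c (T.a (T.l 884) (T.l 884)) (T.a (T.l 884) (T.l 884))))) (T.a (T.b (T.l 884) (T.c (T.a (T.l 884) (T.l 884)) (T.a (T.l 884) (T.l 884)))) (T.b (T.l 884) (T.c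 (T.a (T.l 884) (T.l 884)) (T.a (T.l 884) (T.l 884))))))) (T.c (T.a (T.a (T.b (T.l 884) (T.c (T.b (T.l 884) (T.a (T.c (T.l 884) (T.l 884)) (T.l 884))) (T.a (T.l 884) (T.l 884)))) (T.b (T.l 884) (T.a (T.c (T.l 884) (T.l 884)) (T.c (T.c (T.l 884) (T.l 884)) (T.l 884))))) (T.b (T.a (T.l 884) (T.l 884)) (T.a (T.c (T.b (T.l 884) (T.a (T.c (T.l 884) (T.l 884)) (T.c (T.l 884) (T.l 884)))) (T.a (T.l 884) (T.l 884))) (T.c (T.a (T.l 884) (T.a (T.l 884) (T.a (T.l 884) (T.l 884)))) (T.a (T.l 884) (T.a (T.l 884) (T.a (T.l 884) (T.l 884)))))))) (T.a (T.a (T.a (T.c (T.l 884) (T.l 884)) (T.l 884)) (T.a (T.l 884) (T.c (T.l 884) (T.l 884)))) (T.b (T.a (T.l 884) (T.l 884)) (T.a (T.a (T.l 884) (T.l 884)) (T.a (T.l 884) (T.a (T.l 884) (T.c (T.l 884) (T.l 884)))))))))) (T.b (T.a (T.a (T.a (T.l 816) (T.l 820)) (T.c (T.l 884) (T.l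 884))) (T.a (T.a (T.l 820) (T.l 884)) (T.c (T.l 884) (T.l 884)))) (T.a (T.c (T.a (T.a (T.a (T.l 884) (T.l 884)) (T.a (T.l 884) (T.l 884))) (T.a (T.a (T.l 884) (T.l 884)) (T.a (T.l 884) (T.l 884)))) (T.a (T.a (T.a (T.l 884) (T.l 884)) (T.c (T.l 884) (T.l 884))) (T.a (T.c (T.l 884) (T.l 884)) (T.c (T.l 884) (T.l 884))))) (T.c (T.a (T.a (T.a (T.l 884) (T.l 884)) (T.a (T.l 884) (T.l 884))) (T.b (T.a (T.l 884) (T.l 884)) (T.a (T.c (T.l 884) (T.l 884)) (T.a (T.l 884) (T.a (T.l 884) (T.l 884)))))) (T.a (T.a (T.l 884) (T.c (T.l 884) (T.l 884))) (T.a (T.l 884) (T.a (T.l 884) (T.a (T.l 884) (T.l 884))))))))) (T.c (T.a (T.a (T.a (T.a (T.a (T.a (T.c (T.c (T.c (T.b (T.l 884) (T.l 884)) (T.l 884)) (T.l 884)) (T.l 884)) (T.l 1024)) (T.l 1024)) (T.l 1024)) (T.l 1024)) (T.l 1024)) (T.l 1024)) (T.b (T.a (T.c (T.b (T.a (T.a (T.c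 (T.l 884) (T.l 884)) (T.l 884)) (T.a (T.l 884) (T.l 884))) (T.a (T.a (T.a (T.l 884) (T.l 884)) (T.a (T.l 884) (T.l 884))) (T.a (T.a (T.l 884) (T.l 884)) (T.c (T.l 1024) (T.l 884))))) (T.b (T.a (T.a (T.l 884) (T.l 884)) (T.a (T.l 884) (T.l 884))) (T.a (T.a (T.a (T.l 884) (T.l 820)) (T.c (T.l 884) (T.l 884))) (T.a (T.c (T.l 884) (T.l 884)) (T.l 884))))) (T.c (T.a (T.a (T.c (T.l 1024) (T.l 884)) (T.l 1024)) (T.l 1024)) (T.a (T.a (T.l 884) (T.l 884)) (T.a (T.l 884) (T.l 884))))) (T.a (T.c (T.b (T.a (T.a (T.a (T.l 884) (T.l 884)) (T.a (T.l 884) (T.l 884))) (T.a (T.a (T.l 884) (T.l 884)) (T.a (T.l 884) (T.l 884)))) (T.a (T.c (T.b (T.a (T.a (T.l 884) (T.l 884)) (T.a (T.l 884) (T.l 884))) (T.a (T.a (T.a (T.l 884) (T.l 884)) (T.a (T.l 884) (T.l 884))) (T.a (T.a (T.l 884) (T.l 884)) (T.a (T.l 884) (T.l 884))))) (T.b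 (T.a (T.a (T.l 884) (T.l 884)) (T.a (T.l 884) (T.l 884))) (T.a (T.a (T.a (T.l 884) (T.l 884)) (T.c (T.l 884) (T.l 884))) (T.a (T.c (T.l 884) (T.l 884)) (T.c (T.l 884) (T.l 884)))))) (T.c (T.a (T.a (T.a (T.l 884) (T.l 1024)) (T.l 1024)) (T.l 1024)) (T.b (T.a (T.a (T.l 884) (T.l 884)) (T.a (T.l 884) (T.l 884))) (T.a (T.a (T.a (T.l 884) (T.l 884)) (T.a (T.l 884) (T.l 884))) (T.a (T.a (T.l 884) (T.l 884)) (T.c (T.l 1024) (T.l 884)))))))) (T.b (T.a (T.a (T.a (T.l 884) (T.l 884)) (T.a (T.l 884) (T.l 884))) (T.a (T.a (T.l 884) (T.l 884)) (T.a (T.l 884) (T.l 884)))) (T.a (T.c (T.b (T.a (T.a (T.l 884) (T.l 884)) (T.a (T.l 884) (T.l 884))) (T.a (T.a (T.l 884) (T.l 884)) (T.a (T.l 884) (T.l 884)))) (T.b (T.a (T.a (T.l 884) (T.l 884)) (T.a (T.l 884) (T.l 884))) (T.a (T.a (T.l 884) (T.l 884)) (T.a (T.l 884) (T.l 884)))))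 (T.c (T.b (T.a (T.a (T.l 884) (T.l 884)) (T.a (T.l 884) (T.l 884))) (T.a (T.a (T.l 884) (T.l 884)) (T.a (T.l 884) (T.l 884)))) (T.b (T.a (T.a (T.l 884) (T.l 884)) (T.a (T.l 884) (T.l 884))) (T.a (T.a (T.l 884) (T.l 884)) (T.a (T.l 884) (T.l 884)))))))) (T.c (T.a (T.a (T.a (T.a (T.l 884) (T.l 1024)) (T.l 1024)) (T.l 1024)) (T.l 1024)) (T.b (T.a (T.a (T.a (T.l 884) (T.l 884)) (T.a (T.l 884) (T.l 884))) (T.a (T.a (T.l 884) (T.l 884)) (T.a (T.l 884) (T.l 884)))) (T.a (T.c (T.b (T.a (T.a (T.l 884) (T.l 884)) (T.a (T.l 884) (T.l 884))) (T.a (T.a (T.l 884) (T.l 884)) (T.a (T.l 884) (T.c (T.l 1024) (T.l 884))))) (T.a (T.a (T.l 884) (T.l 884)) (T.a (T.l 884) (T.l 884)))) (T.c (T.a (T.a (T.c (T.l 1024) (T.l 884)) (T.l 1024)) (T.l 1024)) (T.a (T.a (T.l 884) (T.l 884)) (T.a (T.l 884) (T.l 884)))))))))))), by decide +kernel⟩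

def B102L_210_3_511_3 :
    ∃ t, chk3 (onCell 0 67108864 0 1073741824 67108864 67108864 (corTK [[⟨0, 1, 2, 33554432⟩, ⟨1, 0, 1, 33554432⟩, ⟨2, 1, 0, 16777216⟩, ⟨0, 0, 0, 1023410176⟩, ⟨0, 1, 0, 150994944⟩, ⟨1, 0, 0, 150994944⟩, ⟨1, 1, 0, 1023410176⟩]] false 3 c0N cB102L gN2q1 gN1q2 gN0q0 gN1q0 true true)) t 3 511 3 = true :=
  ⟨(T.b (T.a (T.c (T.a (T.a (T.l 820) (T.l 816)) (T.a (T.l 820) (T.l 816))) (T.a (T.a (T.l 816) (T.l 816)) (T.a (T.l 816) (T.l 816)))) (T.c (T.b (T.a (T.a (T.a (T.l 816) (T.l 816)) (T.a (T.l 816) (T.l 816))) (T.a (T.a (T.l 816) (T.l 816)) (T.a (T.l 816) (T.l 816)))) (T.a (T.a (T.a (T.l 884) (T.l 884)) (T.a (T.l 884) (T.l 884))) (T.a (T.a (T.l 884) (T.l 884)) (T.a (T.l 884) (T.l 884))))) (T.b (T.a (T.a (T.a (T.l 816) (T.l 816)) (T.a (T.l 816) (T.l 816))) (T.a (T.a (T.l 816) (T.l 816)) (T.a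 (T.l 816) (T.l 816)))) (T.a (T.a (T.a (T.l 884) (T.l 816)) (T.a (T.l 816) (T.l 816))) (T.a (T.a (T.l 816) (T.l 820)) (T.a (T.l 820) (T.l 820))))))) (T.a (T.c (T.b (T.a (T.a (T.c (T.l 884) (T.l 884)) (T.c (T.l 884) (T.l 820))) (T.a (T.c (T.l 884) (T.l 884)) (T.l 884))) (T.a (T.a (T.a (T.c (T.l 884) (T.l 820)) (T.c (T.l 884) (T.l 884))) (T.a (T.c (T.l 884) (T.l 884)) (T.c (T.l 884) (T.l 884)))) (T.c (T.a (T.a (T.l 884) (T.l 884)) (T.a (T.l 884) (T.a (T.l 884) (T.l 884)))) (T.a (T.a (T.l 884) (T.l 884)) (T.b (T.l 884) (T.a (T.l 884) (T.a (T.l 820) (T.l 884)))))))) (T.b (T.a (T.a (T.c (T.l 820) (T.l 816)) (T.l 884)) (T.a (T.l 884) (T.l 884))) (T.a (T.a (T.a (T.l 820) (T.l 820)) (T.a (T.l 884) (T.l 884))) (T.a (T.a (T.l 884) (T.l 884)) (T.a (T.l 884) (T.a (T.l 816) (T.l 884))))))) (T.c (T.b (T.a (T.c (T.b (T.a (T.a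 (T.l 884) (T.l 884)) (T.a (T.l 884) (T.l 884))) (T.a (T.a (T.a (T.l 816) (T.l 816)) (T.l 884)) (T.a (T.l 884) (T.l 884)))) (T.b (T.a (T.a (T.l 884) (T.l 884)) (T.a (T.l 884) (T.l 884))) (T.a (T.a (T.c (T.l 884) (T.l 884)) (T.l 884)) (T.a (T.l 884) (T.l 884))))) (T.c (T.a (T.a (T.l 884) (T.l 884)) (T.a (T.l 884) (T.l 884))) (T.a (T.a (T.l 884) (T.l 884)) (T.a (T.l 884) (T.l 884))))) (T.a (T.c (T.b (T.a (T.a (T.a (T.l 884) (T.l 884)) (T.a (T.l 884) (T.l 884))) (T.a (T.a (T.l 884) (T.l 884)) (T.a (T.l 884) (T.l 884)))) (T.a (T.c (T.b (T.a (T.a (T.l 884) (T.l 884)) (T.a (T.l 884) (T.l 884))) (T.a (T.a (T.l 884) (T.l 884)) (T.a (T.l 884) (T.l 884)))) (T.b (T.a (T.a (T.l 884) (T.l 884)) (T.a (T.l 884) (T.l 884))) (T.a (T.a (T.l 884) (T.l 884)) (T.a (T.l 884) (T.l 884))))) (T.c (T.a (T.a (T.l 884) (T.l 884)) (T.a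 (T.l 884) (T.l 884))) (T.a (T.a (T.l 884) (T.l 884)) (T.a (T.l 884) (T.l 884)))))) (T.b (T.a (T.a (T.a (T.l 884) (T.l 884)) (T.a (T.l 884) (T.l 884))) (T.a (T.a (T.l 884) (T.l 884)) (T.c (T.l 884) (T.l 884)))) (T.a (T.c (T.a (T.a (T.l 884) (T.l 884)) (T.a (T.l 884) (T.l 884))) (T.a (T.a (T.l 884) (T.l 884)) (T.a (T.l 884) (T.l 884)))) (T.a (T.a (T.l 884) (T.l 884)) (T.a (T.l 884) (T.l 884)))))) (T.c (T.b (T.a (T.a (T.a (T.l 884) (T.l 884)) (T.a (T.l 884) (T.l 884))) (T.a (T.a (T.l 884) (T.l 884)) (T.a (T.l 884) (T.l 884)))) (T.a (T.a (T.a (T.l 884) (T.l 884)) (T.a (T.l 884) (T.l 884))) (T.a (T.a (T.l 884) (T.l 884)) (T.a (T.l 884) (T.l 884))))) (T.b (T.a (T.a (T.c (T.l 884) (T.l 884)) (T.c (T.l 884) (T.l 884))) (T.a (T.l 884) (T.l 884))) (T.a (T.a (T.a (T.l 884) (T.l 884)) (T.a (T.l 884) (T.l 884))) (T.a (T.a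 (T.l 884) (T.l 884)) (T.a (T.l 884) (T.l 884)))))))) (T.b (T.a (T.c (T.b (T.a (T.a (T.l 884) (T.l 820)) (T.a (T.l 820) (T.l 820))) (T.a (T.a (T.l 884) (T.l 884)) (T.a (T.l 884) (T.l 884)))) (T.b (T.a (T.a (T.l 820) (T.l 816)) (T.a (T.l 816) (T.l 816))) (T.a (T.a (T.l 884) (T.l 884)) (T.a (T.l 884) (T.l 884))))) (T.c (T.a (T.a (T.l 884) (T.l 884)) (T.a (T.l 884) (T.l 884))) (T.a (T.a (T.l 884) (T.l 884)) (T.a (T.l 884) (T.l 884))))) (T.a (T.c (T.b (T.a (T.a (T.a (T.l 816) (T.l 816)) (T.l 884)) (T.a (T.l 884) (T.l 884))) (T.a (T.a (T.a (T.l 884) (T.l 884)) (T.a (T.l 884) (T.l 884))) (T.a (T.a (T.l 884) (T.l 884)) (T.a (T.l 884) (T.l 884))))) (T.b (T.a (T.a (T.c (T.l 884) (T.l 884)) (T.l 884)) (T.a (T.l 884) (T.l 884))) (T.a (T.a (T.a (T.l 816) (T.l 816)) (T.a (T.l 884) (T.l 884))) (T.a (T.a (T.l 884) (T.l 884))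 (T.c (T.l 884) (T.l 884)))))) (T.c (T.b (T.a (T.a (T.l 884) (T.l 884)) (T.a (T.l 884) (T.l 884))) (T.a (T.a (T.a (T.l 884) (T.l 884)) (T.a (T.l 884) (T.l 884))) (T.a (T.a (T.l 884) (T.l 884)) (T.a (T.l 884) (T.l 884))))) (T.b (T.a (T.a (T.l 884) (T.l 884)) (T.a (T.l 884) (T.l 884))) (T.a (T.a (T.c (T.l 884) (T.l 884)) (T.c (T.l 884) (T.l 884))) (T.a (T.c (T.l 884) (T.l 884)) (T.c (T.l 884) (T.l 884))))))))))), by decide +kernel⟩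

theorem B102L_210_3_511_1 :
    ∃ t, chk3 (onCell 0 67108864 0 1073741824 67108864 67108864 (corTK [[⟨0, 1, 2, 33554432⟩, ⟨1, 0, 1, 33554432⟩, ⟨2, 1, 0, 16777216⟩, ⟨0, 0, 0, 1023410176⟩, ⟨0, 1, 0, 150994944⟩, ⟨1, 0, 0, 150994944⟩, ⟨1, 1, 0, 1023410176⟩]] false 3 c0N cB102L gN2q1 gN1q2 gN0q0 gN1q0 true true)) t 3 511 1 = true :=
  ex3_c B102L_210_3_511_2 B102L_210_3_511_3
theorem B102L_210_1_511_1 :
    ∃ t, chk3 (onCell 0 67108864 0 1073741824 67108864 67108864 (corTK [[⟨0, 1, 2, 33554432⟩, ⟨1, 0, 1, 33554432⟩, ⟨2, 1, 0, 16777216⟩, ⟨0, 0, 0, 1023410176⟩, ⟨0, 1, 0, 150994944⟩, ⟨1, 0, 0, 150994944⟩, ⟨1, 1, 0, 1023410176⟩]] false 3 c0N cB102L gN2q1 gN1q2 gN0q0 gN1q0 true true)) t 1 511 1 = true :=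
  ex3_a B102L_210_2_511_1 B102L_210_3_511_1
theorem B102L_210_1_255_1 :
    ∃ t, chk3 (onCell 0 67108864 0 1073741824 67108864 67108864 (corTK [[⟨0, 1, 2, 33554432⟩, ⟨1, 0, 1, 33554432⟩, ⟨2, 1, 0, 16777216⟩, ⟨0, 0, 0, 1023410176⟩, ⟨0, 1, 0, 150994944⟩, ⟨1, 0, 0, 150994944⟩, ⟨1, 1, 0, 1023410176⟩]] false 3 c0N cB102L gN2q1 gN1q2 gN0q0 gN1q0 true true)) t 1 255 1 = true :=
  ex3_b B102L_210_1_510_1 B102L_210_1_511_1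
theorem B102L_210_1_127_1 :
    ∃ t, chk3 (onCell 0 67108864 0 1073741824 67108864 67108864 (corTK [[⟨0, 1, 2, 33554432⟩, ⟨1, 0, 1, 33554432⟩, ⟨2, 1, 0, 16777216⟩, ⟨0, 0, 0, 1023410176⟩, ⟨0, 1, 0, 150994944⟩, ⟨1, 0, 0, 150994944⟩, ⟨1, 1, 0, 1023410176⟩]] false 3 c0N cB102L gN2q1 gN1q2 gN0q0 gN1q0 true true)) t 1 127 1 = true :=
  ex3_b B102L_210_1_254_1 B102L_210_1_255_1
theorem B102L_210_1_63_1 :
    ∃ t, chk3 (onCell 0 67108864 0 1073741824 67108864 67108864 (corTK [[⟨0, 1, 2, 33554432⟩, ⟨1, 0, 1, 33554432⟩, ⟨2, 1, 0, 16777216⟩, ⟨0, 0, 0, 1023410176⟩, ⟨0, 1, 0, 150994944⟩, ⟨1, 0, 0, 150994944⟩, ⟨1, 1, 0, 1023410176⟩]] false 3 c0N cB102L gN2q1 gN1q2 gN0q0 gN1q0 true true)) t 1 63 1 = true :=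
  ex3_b B102L_210_1_126_1 B102L_210_1_127_1
theorem B102L_210_1_31_1 :
    ∃ t, chk3 (onCell 0 67108864 0 1073741824 67108864 67108864 (corTK [[⟨0, 1, 2, 33554432⟩, ⟨1, 0, 1, 33554432⟩, ⟨2, 1, 0, 16777216⟩, ⟨0, 0, 0, 1023410176⟩, ⟨0, 1, 0, 150994944⟩, ⟨1, 0, 0, 150994944⟩, ⟨1, 1, 0, 1023410176⟩]] false 3 c0N cB102L gN2q1 gN1q2 gN0q0 gN1q0 true true)) t 1 31 1 = true :=
  ex3_b B102L_210_1_62_1 B102L_210_1_63_1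
theorem B102L_210_1_15_1 :
    ∃ t, chk3 (onCell 0 67108864 0 1073741824 67108864 67108864 (corTK [[⟨0, 1, 2, 33554432⟩, ⟨1, 0, 1, 33554432⟩, ⟨2, 1, 0, 16777216⟩, ⟨0, 0, 0, 1023410176⟩, ⟨0, 1, 0, 150994944⟩, ⟨1, 0, 0, 150994944⟩, ⟨1, 1, 0, 1023410176⟩]] false 3 c0N cB102L gN2q1 gN1q2 gN0q0 gN1q0 true true)) t 1 15 1 = true :=
  ex3_b B102L_210_1_30_1 B102L_210_1_31_1
theorem B102L_210_1_7_1 :
    ∃ t, chk3 (onCell 0 67108864 0 1073741824 67108864 67108864 (corTK [[⟨0, 1, 2, 33554432⟩, ⟨1, 0, 1, 33554432⟩, ⟨2, 1, 0, 16777216⟩, ⟨0, 0, 0, 1023410176⟩, ⟨0, 1, 0, 150994944⟩, ⟨1, 0, 0, 150994944⟩, ⟨1, 1, 0, 1023410176⟩]] false 3 c0N cB102L gN2q1 gN1q2 gN0q0 gN1q0 true true)) t 1 7 1 = true :=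
  ex3_b B102L_210_1_14_1 B102L_210_1_15_1
theorem B102L_210_1_3_1 :
    ∃ t, chk3 (onCell 0 67108864 0 1073741824 67108864 67108864 (corTK [[⟨0, 1, 2, 33554432⟩, ⟨1, 0, 1, 33554432⟩, ⟨2, 1, 0, 16777216⟩, ⟨0, 0, 0, 1023410176⟩, ⟨0, 1, 0, 150994944⟩, ⟨1, 0, 0, 150994944⟩, ⟨1, 1, 0, 1023410176⟩]] false 3 c0N cB102L gN2q1 gN1q2 gN0q0 gN1q0 true true)) t 1 3 1 = true :=
  ex3_b B102L_210_1_6_1 B102L_210_1_7_1
theorem B102L_210 :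
    ∃ t, chk3 (onCell 0 67108864 0 1073741824 67108864 67108864 (corTK [[⟨0, 1, 2, 33554432⟩, ⟨1, 0, 1, 33554432⟩, ⟨2, 1, 0, 16777216⟩, ⟨0, 0, 0, 1023410176⟩, ⟨0, 1, 0, 150994944⟩, ⟨1, 0, 0, 150994944⟩, ⟨1, 1, 0, 1023410176⟩]] false 3 c0N cB102L gN2q1 gN1q2 gN0q0 gN1q0 true true)) t 1 1 1 = true :=
  ex3_b B102L_210_1_2_1 B102L_210_1_3_1

def B102L_211 :
    ∃ t, chk3 (onCell 0 67108864 0 1073741824 67108864 67108864 (corTK [[⟨0, 1, 2, 33554432⟩, ⟨1, 0, 1, 33554432⟩, ⟨2, 1, 0, 16777216⟩, ⟨0, 0, 0, 1023410176⟩, ⟨0, 1, 0, 150994944⟩, ⟨1, 0, 0, 150994944⟩, ⟨1, 1, 0, 1023410176⟩]] false 3 c0N cB102L gN2q1 gN1q2 gN1q0 gN2q0 true true)) t 1 1 1 = true :=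
  ⟨(T.l 1), by decide +kernel⟩

def B102L_212 :
    ∃ t, chk3 (onCell 0 67108864 0 1073741824 67108864 67108864 (corTK [[⟨0, 1, 2, 33554432⟩, ⟨1, 0, 1, 33554432⟩, ⟨2, 1, 0, 16777216⟩, ⟨0, 0, 0, 1023410176⟩, ⟨0, 1, 0, 150994944⟩, ⟨1, 0, 0, 150994944⟩, ⟨1, 1, 0, 1023410176⟩]] false 3 c0N cB102L gN2q1 gN1q2 gN2q0 gN3q0 true false)) t 1 1 1 = true :=
  ⟨(T.l 1), by decide +kernel⟩

def B102L_220_1_2_1 :
    ∃ t, chk3 (onCell 0 67108864 0 1073741824 67108864 67108864 (corTK [[⟨0, 1, 2, 33554432⟩, ⟨1, 0, 1, 33554432⟩, ⟨2, 1, 0, 16777216⟩, ⟨0, 0, 0, 1023410176⟩, ⟨0, 1, 0, 150994944⟩, ⟨1, 0, 0, 150994944⟩, ⟨1, 1, 0, 1023410176⟩]] false 3 c0N cB102L gN2q1 gN2q2 gN0q0 gN1q0 true true)) t 1 2 1 = true :=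
  ⟨(T.a (T.b (T.a (T.a (T.l 204) (T.a (T.l 204) (T.l 204))) (T.a (T.b (T.l 204) (T.l 204)) (T.l 204))) (T.a (T.a (T.l 0) (T.l 204)) (T.b (T.a (T.l 204) (T.l 204)) (T.a (T.l 0) (T.b (T.l 204) (T.l 0)))))) (T.b (T.a (T.b (T.b (T.a (T.l 204) (T.a (T.l 204) (T.l 204))) (T.l 204)) (T.l 204)) (T.b (T.a (T.a (T.b (T.l 204) (T.l 204)) (T.b (T.l 204) (T.l 204))) (T.b (T.l 204) (T.l 204))) (T.a (T.b (T.b (T.l 204) (T.l 204)) (T.l 204)) (T.b (T.l 220) (T.b (T.l 204) (T.l 204)))))) (T.a (T.b (T.a (T.l 204) (T.l 220)) (T.a (T.b (T.l 204) (T.l 0)) (T.l 16))) (T.b (T.b (T.a (T.l 204) (T.b (T.l 204) (T.l 204))) (T.l 204)) (T.b (T.l 204) (T.l 0)))))), by decide +kernel⟩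

def B102L_220_1_6_1 :
    ∃ t, chk3 (onCell 0 67108864 0 1073741824 67108864 67108864 (corTK [[⟨0, 1, 2, 33554432⟩, ⟨1, 0, 1, 33554432⟩, ⟨2, 1, 0, 16777216⟩, ⟨0, 0, 0, 1023410176⟩, ⟨0, 1, 0, 150994944⟩, ⟨1, 0, 0, 150994944⟩, ⟨1, 1, 0, 1023410176⟩]] false 3 c0N cB102L gN2q1 gN2q2 gN0q0 gN1q0 true true)) t 1 6 1 = true :=
  ⟨(T.a (T.a (T.a (T.l 0) (T.l 0)) (T.b (T.a (T.l 0) (T.b (T.l 0) (T.l 0))) (T.b (T.a (T.c (T.l 0) (T.l 0)) (T.l 4)) (T.a (T.a (T.l 816) (T.l 816)) (T.b (T.l 816) (T.l 816)))))) (T.b (T.a (T.a (T.b (T.l 0) (T.l 0)) (T.b (T.l 0) (T.l 0))) (T.b (T.l 0) (T.l 4))) (T.a (T.a (T.b (T.l 0) (T.l 816)) (T.b (T.l 0) (T.l 816))) (T.b (T.b (T.l 0) (T.l 0)) (T.b (T.l 820) (T.b (T.l 816) (T.a (T.l 816) (T.a (T.l 816) (T.l 816))))))))), by decide +kernel⟩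

def B102L_220_1_14_1 :
    ∃ t, chk3 (onCell 0 67108864 0 1073741824 67108864 67108864 (corTK [[⟨0, 1, 2, 33554432⟩, ⟨1, 0, 1, 33554432⟩, ⟨2, 1, 0, 16777216⟩, ⟨0, 0, 0, 1023410176⟩, ⟨0, 1, 0, 150994944⟩, ⟨1, 0, 0, 150994944⟩, ⟨1, 1, 0, 1023410176⟩]] false 3 c0N cB102L gN2q1 gN2q2 gN0q0 gN1q0 true true)) t 1 14 1 = true :=
  ⟨(T.a (T.a (T.a (T.l 816) (T.l 816)) (T.b (T.a (T.a (T.b (T.l 816) (T.l 816)) (T.b (T.l 816) (T.l 816))) (T.c (T.l 820) (T.l 816))) (T.a (T.a (T.c (T.l 816) (T.l 816)) (T.c (T.l 816) (T.l 816))) (T.a (T.b (T.l 816) (T.l 816)) (T.b (T.l 816) (T.l 816)))))) (T.b (T.a (T.a (T.b (T.l 816) (T.l 816)) (T.b (T.l 816) (T.l 816))) (T.a (T.l 816) (T.b (T.a (T.l 816) (T.l 820)) (T.a (T.c (T.l 816) (T.l 816)) (T.c (T.l 816) (T.l 816)))))) (T.a (T.a (T.c (T.b (T.l 816) (T.l 816)) (T.l 816)) (T.c (T.l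 820) (T.l 816))) (T.b (T.a (T.l 816) (T.a (T.c (T.l 820) (T.l 816)) (T.c (T.l 816) (T.l 816)))) (T.a (T.a (T.l 816) (T.a (T.l 816) (T.l 820))) (T.a (T.b (T.l 820) (T.l 820)) (T.c (T.l 820) (T.l 816)))))))), by decide +kernel⟩

def B102L_220_1_30_1 :
    ∃ t, chk3 (onCell 0 67108864 0 1073741824 67108864 67108864 (corTK [[⟨0, 1, 2, 33554432⟩, ⟨1, 0, 1, 33554432⟩, ⟨2, 1, 0, 16777216⟩, ⟨0, 0, 0, 1023410176⟩, ⟨0, 1, 0, 150994944⟩, ⟨1, 0, 0, 150994944⟩, ⟨1, 1, 0, 1023410176⟩]] false 3 c0N cB102L gN2q1 gN2q2 gN0q0 gN1q0 true true)) t 1 30 1 = true :=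
  ⟨(T.a (T.a (T.a (T.l 816) (T.l 816)) (T.b (T.a (T.a (T.c (T.l 816) (T.l 816)) (T.c (T.l 816) (T.l 816))) (T.a (T.c (T.l 816) (T.l 816)) (T.c (T.l 816) (T.l 816)))) (T.a (T.c (T.a (T.b (T.l 816) (T.l 816)) (T.b (T.l 816) (T.l 816))) (T.a (T.l 816) (T.l 816))) (T.a (T.c (T.l 820) (T.l 816)) (T.c (T.l 816) (T.l 816)))))) (T.b (T.a (T.a (T.c (T.l 820) (T.l 816)) (T.c (T.l 820) (T.l 816))) (T.b (T.a (T.a (T.l 816) (T.c (T.l 820) (T.l 816))) (T.a (T.c (T.l 816) (T.l 816)) (T.l 820))) (T.a (T.a (T.l 816) (T.a (T.l 820) (T.l 816))) (T.a (T.c (T.l 820) (T.l 816)) (T.c (T.l 820) (T.l 816)))))) (T.a (T.b (T.a (T.c (T.l 820) (T.l 816)) (T.c (T.l 820) (T.l 816))) (T.a (T.c (T.c (T.l 820) (T.l 816)) (T.l 820)) (T.c (T.c (T.l 816) (T.l 816)) (T.l 820)))) (T.b (T.a (T.a (T.l 816) (T.a (T.l 820) (T.l 820))) (T.a (T.a (T.l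 820) (T.l 820)) (T.c (T.l 820) (T.l 816)))) (T.a (T.c (T.a (T.a (T.l 816) (T.l 816)) (T.a (T.l 816) (T.l 816))) (T.a (T.a (T.l 816) (T.l 816)) (T.b (T.l 820) (T.l 820)))) (T.a (T.a (T.l 820) (T.l 820)) (T.a (T.l 820) (T.l 820)))))))), by decide +kernel⟩

def B102L_220_2_31_1 :
    ∃ t, chk3 (onCell 0 67108864 0 1073741824 67108864 67108864 (corTK [[⟨0, 1, 2, 33554432⟩, ⟨1, 0, 1, 33554432⟩, ⟨2, 1, 0, 16777216⟩, ⟨0, 0, 0, 1023410176⟩, ⟨0, 1, 0, 150994944⟩, ⟨1, 0, 0, 150994944⟩, ⟨1, 1, 0, 1023410176⟩]] false 3 c0N cB102L gN2q1 gN2q2 gN0q0 gN1q0 true true)) t 2 31 1 = true :=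
  ⟨(T.b (T.a (T.a (T.l 816) (T.b (T.l 816) (T.a (T.l 816) (T.a (T.l 816) (T.c (T.l 816) (T.l 816)))))) (T.b (T.a (T.c (T.a (T.c (T.l 816) (T.l 816)) (T.c (T.l 816) (T.l 816))) (T.a (T.l 816) (T.l 816))) (T.c (T.a (T.l 820) (T.l 816)) (T.a (T.l 816) (T.l 816)))) (T.c (T.a (T.c (T.a (T.b (T.l 816) (T.l 820)) (T.b (T.l 816) (T.l 820))) (T.a (T.l 820) (T.l 820))) (T.a (T.c (T.l 820) (T.l 816)) (T.c (T.l 816) (T.l 816)))) (T.a (T.a (T.c (T.l 816) (T.l 816)) (T.c (T.l 816) (T.l 816))) (T.a (T.c (T.l 816) (T.l 816)) (T.l 820)))))) (T.a (T.c (T.a (T.b (T.l 816) (T.l 816)) (T.a (T.l 816) (T.a (T.l 816) (T.b (T.l 816) (T.c (T.l 816) (T.l 816)))))) (T.a (T.l 816) (T.a (T.l 816) (T.a (T.l 816) (T.c (T.l 816) (T.l 816)))))) (T.b (T.c (T.a (T.c (T.b (T.a (T.c (T.l 820) (T.l 816)) (T.c (T.l 820) (T.l 816))) (T.a (T.a (T.l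 816) (T.l 816)) (T.a (T.l 816) (T.l 816)))) (T.b (T.a (T.c (T.l 816) (T.l 816)) (T.c (T.l 816) (T.l 816))) (T.a (T.a (T.l 816) (T.l 816)) (T.a (T.l 816) (T.l 816))))) (T.b (T.a (T.c (T.l 820) (T.l 820)) (T.c (T.l 820) (T.l 816))) (T.c (T.a (T.a (T.l 816) (T.l 816)) (T.c (T.l 820) (T.l 820))) (T.a (T.c (T.l 820) (T.l 820)) (T.c (T.l 820) (T.l 816)))))) (T.a (T.c (T.b (T.a (T.l 820) (T.l 820)) (T.a (T.a (T.l 816) (T.l 816)) (T.a (T.l 816) (T.l 816)))) (T.a (T.a (T.l 816) (T.l 816)) (T.a (T.l 816) (T.l 816)))) (T.b (T.a (T.c (T.l 816) (T.l 816)) (T.l 820)) (T.a (T.a (T.l 816) (T.l 816)) (T.c (T.l 820) (T.l 816)))))) (T.c (T.a (T.c (T.b (T.a (T.a (T.l 816) (T.l 816)) (T.a (T.l 816) (T.l 820))) (T.a (T.a (T.l 816) (T.c (T.l 816) (T.l 816))) (T.c (T.a (T.b (T.l 816) (T.l 884)) (T.a (T.l 816) (T.l 816))) (T.a (T.b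 (T.l 816) (T.l 820)) (T.a (T.l 816) (T.l 816)))))) (T.b (T.a (T.a (T.l 816) (T.l 816)) (T.a (T.l 816) (T.l 816))) (T.a (T.a (T.l 816) (T.l 820)) (T.c (T.a (T.l 820) (T.b (T.l 816) (T.l 820))) (T.a (T.l 816) (T.l 820)))))) (T.b (T.c (T.a (T.a (T.l 820) (T.l 820)) (T.a (T.l 820) (T.l 884))) (T.a (T.a (T.l 816) (T.l 816)) (T.a (T.l 820) (T.l 820)))) (T.c (T.a (T.b (T.a (T.c (T.l 820) (T.l 820)) (T.c (T.l 884) (T.l 820))) (T.c (T.a (T.a (T.l 820) (T.l 884)) (T.a (T.l 884) (T.l 884))) (T.a (T.a (T.l 816) (T.l 820)) (T.a (T.l 884) (T.l 884))))) (T.b (T.a (T.c (T.l 884) (T.l 820)) (T.c (T.l 884) (T.l 884))) (T.c (T.b (T.a (T.c (T.l 884) (T.l 884)) (T.c (T.l 884) (T.l 884))) (T.a (T.a (T.l 884) (T.l 884)) (T.a (T.c (T.l 884) (T.l 884)) (T.c (T.l 884) (T.l 884))))) (T.b (T.a (T.c (T.l 884) (T.l 884)) (T.c (T.l 884)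 (T.l 884))) (T.a (T.a (T.l 884) (T.l 884)) (T.a (T.l 884) (T.c (T.l 884) (T.l 884)))))))) (T.a (T.b (T.a (T.l 820) (T.l 820)) (T.c (T.a (T.c (T.l 820) (T.l 820)) (T.a (T.l 820) (T.l 820))) (T.a (T.c (T.l 820) (T.l 820)) (T.c (T.l 820) (T.l 820))))) (T.b (T.a (T.l 884) (T.l 884)) (T.c (T.b (T.a (T.l 884) (T.l 884)) (T.a (T.a (T.l 820) (T.l 884)) (T.a (T.l 884) (T.l 884)))) (T.a (T.a (T.l 820) (T.l 820)) (T.a (T.l 820) (T.l 884))))))))) (T.a (T.c (T.b (T.a (T.a (T.l 816) (T.l 816)) (T.a (T.l 816) (T.l 816))) (T.a (T.a (T.l 816) (T.l 816)) (T.a (T.c (T.l 816) (T.l 816)) (T.c (T.l 820) (T.l 816))))) (T.b (T.a (T.a (T.l 816) (T.l 816)) (T.a (T.l 816) (T.l 816))) (T.a (T.a (T.l 816) (T.l 816)) (T.a (T.l 816) (T.l 820))))) (T.b (T.c (T.a (T.a (T.l 816) (T.l 816)) (T.a (T.l 816) (T.l 816))) (T.a (T.a (T.l 816) (T.l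 816)) (T.c (T.l 820) (T.l 820)))) (T.c (T.a (T.b (T.a (T.l 816) (T.l 820)) (T.c (T.a (T.l 820) (T.l 820)) (T.a (T.l 816) (T.l 820)))) (T.b (T.a (T.l 820) (T.l 820)) (T.c (T.a (T.c (T.l 820) (T.l 820)) (T.c (T.l 884) (T.l 820))) (T.a (T.l 820) (T.l 820))))) (T.a (T.a (T.l 820) (T.c (T.l 816) (T.l 816))) (T.a (T.c (T.l 820) (T.l 816)) (T.c (T.l 820) (T.l 816))))))))))), by decide +kernel⟩

def B102L_220_3_62_1 :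
    ∃ t, chk3 (onCell 0 67108864 0 1073741824 67108864 67108864 (corTK [[⟨0, 1, 2, 33554432⟩, ⟨1, 0, 1, 33554432⟩, ⟨2, 1, 0, 16777216⟩, ⟨0, 0, 0, 1023410176⟩, ⟨0, 1, 0, 150994944⟩, ⟨1, 0, 0, 150994944⟩, ⟨1, 1, 0, 1023410176⟩]] false 3 c0N cB102L gN2q1 gN2q2 gN0q0 gN1q0 true true)) t 3 62 1 = true :=
  ⟨(T.a (T.b (T.a (T.c (T.a (T.l 816) (T.l 816)) (T.c (T.l 820) (T.l 816))) (T.c (T.c (T.l 820) (T.l 820)) (T.c (T.l 816) (T.l 816)))) (T.c (T.a (T.a (T.l 820) (T.l 820)) (T.a (T.l 820) (T.l 820))) (T.a (T.a (T.l 816) (T.l 816)) (T.a (T.l 816) (T.l 816))))) (T.b (T.a (T.c (T.a (T.a (T.l 816) (T.l 820)) (T.a (T.l 820) (T.l 820))) (T.a (T.a (T.l 816) (T.l 816)) (T.a (T.l 816) (T.l 816)))) (T.c (T.c (T.l 1024) (T.a (T.b (T.l 820) (T.l 820)) (T.b (T.l 816) (T.l 820)))) (T.a (T.b (T.l 820) (T.l 820)) (T.c (T.l 820) (T.l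 820))))) (T.c (T.a (T.b (T.a (T.a (T.l 820) (T.l 820)) (T.a (T.l 820) (T.l 820))) (T.c (T.a (T.a (T.l 820) (T.l 1024)) (T.l 1024)) (T.a (T.a (T.l 816) (T.l 816)) (T.a (T.l 816) (T.l 816))))) (T.c (T.l 1024) (T.a (T.a (T.l 820) (T.l 820)) (T.a (T.l 820) (T.l 820))))) (T.a (T.b (T.a (T.a (T.l 816) (T.l 816)) (T.a (T.l 816) (T.l 816))) (T.a (T.a (T.l 820) (T.l 816)) (T.a (T.l 816) (T.l 816)))) (T.a (T.a (T.l 820) (T.l 820)) (T.a (T.l 820) (T.l 820))))))), by decide +kernel⟩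

def B102L_220_3_126_1 :
    ∃ t, chk3 (onCell 0 67108864 0 1073741824 67108864 67108864 (corTK [[⟨0, 1, 2, 33554432⟩, ⟨1, 0, 1, 33554432⟩, ⟨2, 1, 0, 16777216⟩, ⟨0, 0, 0, 1023410176⟩, ⟨0, 1, 0, 150994944⟩, ⟨1, 0, 0, 150994944⟩, ⟨1, 1, 0, 1023410176⟩]] false 3 c0N cB102L gN2q1 gN2q2 gN0q0 gN1q0 true true)) t 3 126 1 = true :=
  ⟨(T.a (T.c (T.a (T.a (T.c (T.b (T.l 816) (T.l 820)) (T.b (T.l 816) (T.l 820))) (T.c (T.b (T.l 816) (T.l 820)) (T.l 820))) (T.a (T.c (T.b (T.l 816) (T.l 884)) (T.l 820)) (T.c (T.l 884) (T.l 820)))) (T.a (T.a (T.c (T.l 820) (T.l 816)) (T.c (T.l 820) (T.l 816))) (T.a (T.c (T.l 820) (T.l 816)) (T.c (T.l 820) (T.l 816))))) (T.c (T.b (T.a (T.c (T.a (T.a (T.c (T.l 820) (T.l 820)) (T.l 1024)) (T.l 1024)) (T.a (T.a (T.l 820) (T.l 820)) (T.a (T.l 820) (T.l 820)))) (T.c (T.l 1024) (T.a (T.a (T.l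 820) (T.l 820)) (T.a (T.l 820) (T.l 820))))) (T.a (T.c (T.a (T.a (T.a (T.l 820) (T.l 820)) (T.l 1024)) (T.l 1024)) (T.b (T.a (T.a (T.l 820) (T.l 820)) (T.a (T.l 820) (T.l 820))) (T.a (T.a (T.l 884) (T.l 820)) (T.a (T.l 820) (T.l 820))))) (T.c (T.l 1024) (T.b (T.a (T.a (T.l 820) (T.l 820)) (T.a (T.l 820) (T.l 820))) (T.a (T.a (T.l 820) (T.l 820)) (T.a (T.l 820) (T.l 820))))))) (T.b (T.a (T.c (T.a (T.a (T.l 820) (T.l 816)) (T.a (T.l 816) (T.l 816))) (T.a (T.a (T.l 816) (T.l 816)) (T.a (T.l 816) (T.l 816)))) (T.a (T.a (T.l 820) (T.l 820)) (T.a (T.l 820) (T.l 820)))) (T.a (T.c (T.b (T.a (T.a (T.l 820) (T.l 816)) (T.a (T.l 816) (T.l 816))) (T.a (T.a (T.l 820) (T.l 820)) (T.a (T.l 820) (T.l 820)))) (T.b (T.a (T.a (T.l 816) (T.l 816)) (T.a (T.l 816) (T.l 816))) (T.a (T.a (T.l 820) (T.l 816)) (T.a (T.l 816) (T.l 816)))))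 (T.c (T.b (T.a (T.a (T.l 816) (T.l 816)) (T.a (T.l 816) (T.l 816))) (T.a (T.a (T.l 820) (T.l 820)) (T.a (T.l 820) (T.l 820)))) (T.a (T.a (T.l 820) (T.l 820)) (T.a (T.l 820) (T.l 820)))))))), by decide +kernel⟩

def B102L_220_6_127_1 :
    ∃ t, chk3 (onCell 0 67108864 0 1073741824 67108864 67108864 (corTK [[⟨0, 1, 2, 33554432⟩, ⟨1, 0, 1, 33554432⟩, ⟨2, 1, 0, 16777216⟩, ⟨0, 0, 0, 1023410176⟩, ⟨0, 1, 0, 150994944⟩, ⟨1, 0, 0, 150994944⟩, ⟨1, 1, 0, 1023410176⟩]] false 3 c0N cB102L gN2q1 gN2q2 gN0q0 gN1q0 true true)) t 6 127 1 = true :=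
  ⟨(T.c (T.b (T.a (T.c (T.a (T.a (T.l 884) (T.l 884)) (T.a (T.l 884) (T.l 884))) (T.a (T.a (T.l 820) (T.l 820)) (T.a (T.l 820) (T.l 820)))) (T.c (T.a (T.a (T.l 884) (T.l 884)) (T.a (T.l 884) (T.l 884))) (T.a (T.a (T.l 820) (T.l 820)) (T.c (T.l 884) (T.l 884))))) (T.a (T.c (T.b (T.a (T.a (T.c (T.l 884) (T.l 884)) (T.c (T.l 884) (T.l 884))) (T.a (T.c (T.l 884) (T.l 884)) (T.c (T.l 884) (T.l 884)))) (T.a (T.c (T.b (T.a (T.c (T.l 884) (T.l 884)) (T.c (T.l 884) (T.l 884))) (T.a (T.a (T.a (T.l 884) (T.l 884)) (T.b (T.l 884) (T.a (T.l 884) (T.l 884)))) (T.a (T.b (T.l 884) (T.c (T.c (T.l 884) (T.l 884)) (T.l 884))) (T.b (T.l 884) (T.b (T.l 884) (T.c (T.c (T.l 884) (T.l 884)) (T.l 884))))))) (T.b (T.a (T.c (T.l 884) (T.l 884)) (T.l 884)) (T.a (T.a (T.c (T.l 884) (T.l 884)) (T.c (T.l 884) (T.l 884))) (T.a (T.c (T.l 884)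 (T.l 884)) (T.c (T.l 884) (T.l 884)))))) (T.c (T.b (T.a (T.c (T.l 884) (T.l 884)) (T.c (T.l 884) (T.l 884))) (T.a (T.a (T.b (T.l 884) (T.b (T.l 884) (T.c (T.c (T.l 884) (T.l 884)) (T.l 884)))) (T.b (T.l 884) (T.c (T.a (T.l 884) (T.l 884)) (T.l 884)))) (T.a (T.b (T.l 884) (T.c (T.a (T.l 884) (T.l 884)) (T.l 884))) (T.b (T.l 884) (T.c (T.c (T.l 884) (T.l 884)) (T.l 884)))))) (T.a (T.b (T.l 884) (T.a (T.c (T.l 884) (T.l 884)) (T.c (T.l 884) (T.l 884)))) (T.b (T.l 884) (T.a (T.c (T.l 884) (T.l 884)) (T.c (T.l 884) (T.l 884)))))))) (T.b (T.a (T.a (T.l 884) (T.l 884)) (T.a (T.l 884) (T.l 884))) (T.a (T.c (T.a (T.a (T.l 884) (T.l 884)) (T.a (T.l 884) (T.l 884))) (T.a (T.a (T.l 884) (T.l 884)) (T.a (T.l 884) (T.l 884)))) (T.c (T.a (T.a (T.l 884) (T.l 884)) (T.a (T.l 884) (T.l 884))) (T.a (T.a (T.l 884) (T.l 884)) (T.c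 (T.l 884) (T.l 884))))))) (T.c (T.b (T.a (T.a (T.l 884) (T.c (T.l 884) (T.l 884))) (T.a (T.c (T.l 884) (T.l 884)) (T.c (T.l 884) (T.l 884)))) (T.a (T.c (T.b (T.a (T.l 884) (T.c (T.l 884) (T.l 884))) (T.a (T.a (T.c (T.a (T.l 884) (T.l 884)) (T.l 884)) (T.c (T.c (T.l 884) (T.l 884)) (T.l 884))) (T.a (T.c (T.c (T.l 884) (T.l 884)) (T.l 884)) (T.c (T.a (T.l 884) (T.l 884)) (T.l 884))))) (T.a (T.b (T.l 884) (T.a (T.c (T.l 884) (T.l 884)) (T.c (T.l 884) (T.l 884)))) (T.b (T.l 884) (T.a (T.l 884) (T.c (T.l 884) (T.l 884)))))) (T.c (T.b (T.a (T.l 884) (T.l 884)) (T.a (T.a (T.c (T.c (T.l 884) (T.l 884)) (T.l 884)) (T.c (T.c (T.l 884) (T.l 884)) (T.l 884))) (T.b (T.a (T.l 884) (T.l 884)) (T.c (T.a (T.c (T.l 884) (T.l 884)) (T.b (T.l 884) (T.a (T.l 884) (T.a (T.l 884) (T.l 884))))) (T.a (T.l 884) (T.a (T.l 884) (T.a (T.l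 884) (T.l 884)))))))) (T.a (T.b (T.l 884) (T.a (T.c (T.l 884) (T.l 884)) (T.l 884))) (T.b (T.l 884) (T.b (T.l 884) (T.a (T.l 884) (T.a (T.l 884) (T.c (T.l 884) (T.l 884)))))))))) (T.b (T.a (T.a (T.l 884) (T.l 884)) (T.a (T.l 884) (T.l 884))) (T.a (T.c (T.a (T.a (T.l 884) (T.l 884)) (T.a (T.l 884) (T.l 884))) (T.a (T.c (T.l 884) (T.l 884)) (T.c (T.l 884) (T.l 884)))) (T.c (T.a (T.a (T.l 884) (T.l 884)) (T.b (T.l 884) (T.b (T.l 884) (T.a (T.l 884) (T.a (T.l 884) (T.l 884)))))) (T.a (T.c (T.l 884) (T.l 884)) (T.b (T.l 884) (T.b (T.l 884) (T.a (T.l 884) (T.a (T.l 884) (T.l 884)))))))))))) (T.b (T.a (T.c (T.a (T.c (T.l 820) (T.l 820)) (T.c (T.l 820) (T.l 820))) (T.a (T.c (T.l 820) (T.l 816)) (T.l 820))) (T.c (T.a (T.c (T.l 820) (T.l 820)) (T.l 884)) (T.a (T.l 820) (T.l 820)))) (T.a (T.c (T.b (T.a (T.a (T.l 820)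 (T.l 820)) (T.a (T.l 820) (T.l 820))) (T.a (T.c (T.a (T.c (T.l 884) (T.l 884)) (T.l 884)) (T.a (T.l 884) (T.l 884))) (T.a (T.c (T.l 884) (T.l 884)) (T.c (T.l 884) (T.l 884))))) (T.b (T.a (T.a (T.l 816) (T.l 816)) (T.c (T.l 820) (T.l 820))) (T.a (T.a (T.l 884) (T.l 884)) (T.a (T.l 884) (T.l 884))))) (T.c (T.b (T.a (T.a (T.l 820) (T.l 820)) (T.c (T.l 884) (T.l 884))) (T.a (T.a (T.c (T.l 884) (T.l 884)) (T.c (T.l 884) (T.l 884))) (T.a (T.c (T.l 884) (T.l 884)) (T.b (T.l 884) (T.b (T.l 884) (T.a (T.l 884) (T.c (T.l 884) (T.l 884)))))))) (T.b (T.a (T.c (T.l 820) (T.l 820)) (T.l 884)) (T.a (T.a (T.l 884) (T.l 884)) (T.a (T.l 884) (T.a (T.l 820) (T.l 884))))))))), by decide +kernel⟩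

def B102L_220_7_127_1 :
    ∃ t, chk3 (onCell 0 67108864 0 1073741824 67108864 67108864 (corTK [[⟨0, 1, 2, 33554432⟩, ⟨1, 0, 1, 33554432⟩, ⟨2, 1, 0, 16777216⟩, ⟨0, 0, 0, 1023410176⟩, ⟨0, 1, 0, 150994944⟩, ⟨1, 0, 0, 150994944⟩, ⟨1, 1, 0, 1023410176⟩]] false 3 c0N cB102L gN2q1 gN2q2 gN0q0 gN1q0 true true)) t 7 127 1 = true :=
  ⟨(T.c (T.b (T.a (T.c (T.a (T.a (T.a (T.c (T.l 884) (T.l 884)) (T.l 1024)) (T.l 1024)) (T.l 1024)) (T.b (T.a (T.a (T.a (T.l 820) (T.l 820)) (T.c (T.l 884) (T.l 884))) (T.a (T.l 884) (T.l 884))) (T.a (T.a (T.a (T.l 884) (T.l 884)) (T.a (T.l 884) (T.l 884))) (T.a (T.a (T.l 884) (T.l 884)) (T.a (T.l 884) (T.l 884)))))) (T.c (T.l 1024) (T.b (T.a (T.a (T.l 884) (T.l 884)) (T.a (T.l 884) (T.l 884))) (T.a (T.a (T.a (T.l 884) (T.l 884)) (T.c (T.l 1024) (T.l 884))) (T.c (T.l 1024) (T.a (T.l 884)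 (T.l 884))))))) (T.a (T.c (T.a (T.a (T.a (T.a (T.b (T.l 884) (T.a (T.b (T.l 884) (T.c (T.c (T.a (T.l 884) (T.l 1024)) (T.l 884)) (T.l 884))) (T.l 1024))) (T.l 1024)) (T.l 1024)) (T.l 1024)) (T.l 1024)) (T.b (T.a (T.c (T.b (T.a (T.a (T.l 884) (T.l 884)) (T.a (T.l 884) (T.l 884))) (T.a (T.a (T.l 884) (T.l 884)) (T.a (T.l 884) (T.l 884)))) (T.b (T.a (T.a (T.l 820) (T.l 820)) (T.a (T.l 820) (T.l 820))) (T.a (T.a (T.l 884) (T.l 884)) (T.a (T.l 884) (T.l 884))))) (T.c (T.b (T.a (T.a (T.l 884) (T.l 884)) (T.a (T.l 884) (T.l 884))) (T.a (T.a (T.l 884) (T.l 884)) (T.a (T.l 884) (T.l 884)))) (T.a (T.a (T.l 884) (T.l 884)) (T.a (T.l 884) (T.l 884))))) (T.a (T.c (T.b (T.a (T.a (T.c (T.l 884) (T.l 884)) (T.l 884)) (T.a (T.l 884) (T.l 884))) (T.a (T.c (T.b (T.a (T.a (T.l 884) (T.l 884)) (T.l 884)) (T.a (T.a (T.l 884) (T.l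 884)) (T.a (T.l 884) (T.l 884)))) (T.a (T.a (T.l 884) (T.l 884)) (T.a (T.l 884) (T.l 884)))) (T.c (T.b (T.a (T.l 884) (T.l 884)) (T.a (T.a (T.l 884) (T.l 884)) (T.a (T.l 884) (T.l 884)))) (T.a (T.a (T.l 884) (T.l 884)) (T.a (T.l 884) (T.l 884)))))) (T.b (T.a (T.a (T.l 884) (T.l 884)) (T.a (T.l 884) (T.l 884))) (T.a (T.c (T.a (T.a (T.l 884) (T.l 884)) (T.a (T.l 884) (T.l 884))) (T.a (T.c (T.l 884) (T.l 884)) (T.l 884))) (T.a (T.a (T.l 884) (T.l 884)) (T.a (T.l 884) (T.l 884)))))) (T.c (T.b (T.a (T.a (T.l 884) (T.l 884)) (T.a (T.l 884) (T.l 884))) (T.a (T.c (T.a (T.a (T.l 884) (T.l 1024)) (T.l 1024)) (T.a (T.a (T.l 884) (T.l 884)) (T.a (T.l 884) (T.l 884)))) (T.c (T.l 1024) (T.a (T.a (T.l 884) (T.l 884)) (T.a (T.l 884) (T.l 884)))))) (T.b (T.a (T.a (T.l 884) (T.l 884)) (T.a (T.l 884) (T.l 884))) (T.a (T.a (T.a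 (T.l 884) (T.l 884)) (T.a (T.l 884) (T.l 884))) (T.a (T.a (T.l 884) (T.l 884)) (T.a (T.l 884) (T.l 884))))))))) (T.c (T.l 1024) (T.b (T.a (T.c (T.a (T.a (T.l 884) (T.l 1024)) (T.l 1024)) (T.a (T.a (T.l 884) (T.l 884)) (T.a (T.l 884) (T.l 884)))) (T.c (T.l 1024) (T.a (T.a (T.l 884) (T.l 884)) (T.a (T.l 884) (T.l 884))))) (T.a (T.c (T.a (T.c (T.l 1024) (T.a (T.a (T.l 884) (T.l 1024)) (T.l 1024))) (T.l 1024)) (T.b (T.a (T.a (T.l 884) (T.l 884)) (T.a (T.l 884) (T.l 884))) (T.a (T.a (T.a (T.l 884) (T.l 884)) (T.a (T.l 884) (T.l 884))) (T.a (T.a (T.l 884) (T.l 884)) (T.a (T.l 884) (T.l 884)))))) (T.c (T.l 1024) (T.b (T.a (T.a (T.l 884) (T.l 884)) (T.a (T.l 884) (T.l 884))) (T.a (T.a (T.a (T.l 884) (T.l 884)) (T.a (T.l 884) (T.l 884))) (T.c (T.l 1024) (T.a (T.a (T.l 884) (T.l 884)) (T.a (T.l 884) (T.l 884))))))))))))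 (T.b (T.a (T.c (T.b (T.a (T.a (T.c (T.l 884) (T.l 820)) (T.l 884)) (T.a (T.l 884) (T.l 884))) (T.a (T.a (T.a (T.l 820) (T.l 820)) (T.c (T.l 884) (T.l 884))) (T.a (T.c (T.l 884) (T.l 884)) (T.c (T.l 884) (T.l 884))))) (T.b (T.a (T.a (T.l 820) (T.l 820)) (T.a (T.l 820) (T.l 820))) (T.a (T.a (T.c (T.l 884) (T.l 884)) (T.l 884)) (T.a (T.l 884) (T.l 884))))) (T.c (T.b (T.a (T.a (T.l 820) (T.l 820)) (T.a (T.l 884) (T.l 884))) (T.a (T.a (T.l 884) (T.l 884)) (T.a (T.l 884) (T.l 884)))) (T.b (T.a (T.a (T.l 820) (T.l 820)) (T.a (T.l 820) (T.l 820))) (T.a (T.a (T.l 884) (T.l 884)) (T.a (T.l 884) (T.l 884)))))) (T.a (T.c (T.b (T.a (T.c (T.a (T.a (T.l 884) (T.l 884)) (T.a (T.l 884) (T.l 884))) (T.a (T.a (T.l 820) (T.l 820)) (T.a (T.l 820) (T.l 820)))) (T.c (T.a (T.a (T.l 884) (T.l 884)) (T.a (T.l 884) (T.l 884))) (T.a (T.a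 (T.l 820) (T.l 884)) (T.a (T.l 884) (T.l 884))))) (T.a (T.c (T.b (T.a (T.a (T.l 884) (T.l 884)) (T.a (T.l 884) (T.l 884))) (T.a (T.a (T.c (T.l 884) (T.l 884)) (T.l 884)) (T.a (T.l 884) (T.l 884)))) (T.b (T.a (T.a (T.l 884) (T.l 884)) (T.a (T.l 884) (T.l 884))) (T.a (T.a (T.l 884) (T.l 884)) (T.a (T.l 884) (T.l 884))))) (T.c (T.b (T.a (T.a (T.l 884) (T.l 884)) (T.a (T.l 884) (T.l 884))) (T.a (T.a (T.l 884) (T.l 884)) (T.a (T.l 884) (T.l 884)))) (T.b (T.a (T.a (T.l 884) (T.l 884)) (T.a (T.l 884) (T.l 884))) (T.a (T.a (T.l 884) (T.l 884)) (T.a (T.l 884) (T.l 884))))))) (T.b (T.a (T.a (T.a (T.l 820) (T.l 820)) (T.a (T.l 820) (T.l 820))) (T.a (T.a (T.l 820) (T.l 820)) (T.c (T.l 884) (T.l 884)))) (T.a (T.c (T.b (T.a (T.a (T.l 820) (T.l 820)) (T.a (T.l 820) (T.l 820))) (T.a (T.a (T.l 884) (T.l 884)) (T.a (T.l 884)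 (T.l 884)))) (T.b (T.a (T.a (T.l 816) (T.l 816)) (T.l 884)) (T.a (T.a (T.l 884) (T.l 884)) (T.a (T.l 884) (T.l 884))))) (T.c (T.b (T.a (T.a (T.l 884) (T.l 884)) (T.a (T.l 884) (T.l 884))) (T.a (T.a (T.l 884) (T.l 884)) (T.a (T.l 884) (T.l 884)))) (T.b (T.a (T.l 884) (T.l 884)) (T.a (T.a (T.l 884) (T.l 884)) (T.a (T.l 884) (T.l 884)))))))) (T.c (T.b (T.a (T.a (T.a (T.l 884) (T.l 884)) (T.a (T.l 884) (T.l 884))) (T.a (T.a (T.l 884) (T.l 884)) (T.a (T.l 884) (T.l 884)))) (T.a (T.c (T.b (T.a (T.a (T.l 884) (T.l 884)) (T.a (T.l 884) (T.l 884))) (T.a (T.a (T.l 884) (T.l 884)) (T.a (T.c (T.l 884) (T.l 884)) (T.c (T.l 884) (T.l 884))))) (T.b (T.a (T.a (T.l 884) (T.l 884)) (T.a (T.l 884) (T.l 884))) (T.a (T.a (T.l 884) (T.l 884)) (T.a (T.l 884) (T.l 884))))) (T.c (T.b (T.a (T.a (T.l 884) (T.l 884)) (T.a (T.l 884) (T.l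 884))) (T.a (T.a (T.c (T.l 884) (T.l 884)) (T.c (T.l 884) (T.l 884))) (T.a (T.c (T.l 884) (T.l 884)) (T.c (T.l 884) (T.l 884))))) (T.b (T.a (T.a (T.l 884) (T.l 884)) (T.a (T.l 884) (T.l 884))) (T.a (T.a (T.l 884) (T.l 884)) (T.a (T.l 884) (T.l 884))))))) (T.b (T.a (T.a (T.c (T.l 884) (T.l 884)) (T.c (T.l 884) (T.l 884))) (T.a (T.c (T.l 884) (T.l 884)) (T.c (T.l 884) (T.l 884)))) (T.a (T.c (T.b (T.a (T.c (T.l 884) (T.l 884)) (T.c (T.l 884) (T.l 884))) (T.a (T.a (T.l 884) (T.l 884)) (T.a (T.l 884) (T.l 884)))) (T.b (T.a (T.l 884) (T.l 884)) (T.a (T.a (T.l 884) (T.l 884)) (T.a (T.l 884) (T.l 884))))) (T.c (T.b (T.a (T.c (T.l 884) (T.l 884)) (T.l 884)) (T.a (T.a (T.l 884) (T.l 884)) (T.a (T.l 884) (T.l 884)))) (T.b (T.a (T.l 884) (T.l 884)) (T.a (T.a (T.l 884) (T.l 884)) (T.a (T.l 884) (T.l 884))))))))))), by decide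 +kernel⟩

theorem B102L_220_3_127_1 :
    ∃ t, chk3 (onCell 0 67108864 0 1073741824 67108864 67108864 (corTK [[⟨0, 1, 2, 33554432⟩, ⟨1, 0, 1, 33554432⟩, ⟨2, 1, 0, 16777216⟩, ⟨0, 0, 0, 1023410176⟩, ⟨0, 1, 0, 150994944⟩, ⟨1, 0, 0, 150994944⟩, ⟨1, 1, 0, 1023410176⟩]] false 3 c0N cB102L gN2q1 gN2q2 gN0q0 gN1q0 true true)) t 3 127 1 = true :=
  ex3_a B102L_220_6_127_1 B102L_220_7_127_1
theorem B102L_220_3_63_1 :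
    ∃ t, chk3 (onCell 0 67108864 0 1073741824 67108864 67108864 (corTK [[⟨0, 1, 2, 33554432⟩, ⟨1, 0, 1, 33554432⟩, ⟨2, 1, 0, 16777216⟩, ⟨0, 0, 0, 1023410176⟩, ⟨0, 1, 0, 150994944⟩, ⟨1, 0, 0, 150994944⟩, ⟨1, 1, 0, 1023410176⟩]] false 3 c0N cB102L gN2q1 gN2q2 gN0q0 gN1q0 true true)) t 3 63 1 = true :=
  ex3_b B102L_220_3_126_1 B102L_220_3_127_1
theorem B102L_220_3_31_1 :
    ∃ t, chk3 (onCell 0 67108864 0 1073741824 67108864 67108864 (corTK [[⟨0, 1, 2, 33554432⟩, ⟨1, 0, 1, 33554432⟩, ⟨2, 1, 0, 16777216⟩, ⟨0, 0, 0, 1023410176⟩, ⟨0, 1, 0, 150994944⟩, ⟨1, 0, 0, 150994944⟩, ⟨1, 1, 0, 1023410176⟩]] false 3 c0N cB102L gN2q1 gN2q2 gN0q0 gN1q0 true true)) t 3 31 1 = true :=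
  ex3_b B102L_220_3_62_1 B102L_220_3_63_1
theorem B102L_220_1_31_1 :
    ∃ t, chk3 (onCell 0 67108864 0 1073741824 67108864 67108864 (corTK [[⟨0, 1, 2, 33554432⟩, ⟨1, 0, 1, 33554432⟩, ⟨2, 1, 0, 16777216⟩, ⟨0, 0, 0, 1023410176⟩, ⟨0, 1, 0, 150994944⟩, ⟨1, 0, 0, 150994944⟩, ⟨1, 1, 0, 1023410176⟩]] false 3 c0N cB102L gN2q1 gN2q2 gN0q0 gN1q0 true true)) t 1 31 1 = true :=
  ex3_a B102L_220_2_31_1 B102L_220_3_31_1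
theorem B102L_220_1_15_1 :
    ∃ t, chk3 (onCell 0 67108864 0 1073741824 67108864 67108864 (corTK [[⟨0, 1, 2, 33554432⟩, ⟨1, 0, 1, 33554432⟩, ⟨2, 1, 0, 16777216⟩, ⟨0, 0, 0, 1023410176⟩, ⟨0, 1, 0, 150994944⟩, ⟨1, 0, 0, 150994944⟩, ⟨1, 1, 0, 1023410176⟩]] false 3 c0N cB102L gN2q1 gN2q2 gN0q0 gN1q0 true true)) t 1 15 1 = true :=
  ex3_b B102L_220_1_30_1 B102L_220_1_31_1
theorem B102L_220_1_7_1 :
    ∃ t, chk3 (onCell 0 67108864 0 1073741824 67108864 67108864 (corTK [[⟨0, 1, 2, 33554432⟩, ⟨1, 0, 1, 33554432⟩, ⟨2, 1, 0, 16777216⟩, ⟨0, 0, 0, 1023410176⟩, ⟨0, 1, 0, 150994944⟩, ⟨1, 0, 0, 150994944⟩, ⟨1, 1, 0, 1023410176⟩]] false 3 c0N cB102L gN2q1 gN2q2 gN0q0 gN1q0 true true)) t 1 7 1 = true :=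
  ex3_b B102L_220_1_14_1 B102L_220_1_15_1
theorem B102L_220_1_3_1 :
    ∃ t, chk3 (onCell 0 67108864 0 1073741824 67108864 67108864 (corTK [[⟨0, 1, 2, 33554432⟩, ⟨1, 0, 1, 33554432⟩, ⟨2, 1, 0, 16777216⟩, ⟨0, 0, 0, 1023410176⟩, ⟨0, 1, 0, 150994944⟩, ⟨1, 0, 0, 150994944⟩, ⟨1, 1, 0, 1023410176⟩]] false 3 c0N cB102L gN2q1 gN2q2 gN0q0 gN1q0 true true)) t 1 3 1 = true :=
  ex3_b B102L_220_1_6_1 B102L_220_1_7_1
theorem B102L_220 :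
    ∃ t, chk3 (onCell 0 67108864 0 1073741824 67108864 67108864 (corTK [[⟨0, 1, 2, 33554432⟩, ⟨1, 0, 1, 33554432⟩, ⟨2, 1, 0, 16777216⟩, ⟨0, 0, 0, 1023410176⟩, ⟨0, 1, 0, 150994944⟩, ⟨1, 0, 0, 150994944⟩, ⟨1, 1, 0, 1023410176⟩]] false 3 c0N cB102L gN2q1 gN2q2 gN0q0 gN1q0 true true)) t 1 1 1 = true :=
  ex3_b B102L_220_1_2_1 B102L_220_1_3_1

def B102L_221 :
    ∃ t, chk3 (onCell 0 67108864 0 1073741824 67108864 67108864 (corTK [[⟨0, 1, 2, 33554432⟩, ⟨1, 0, 1, 33554432⟩, ⟨2, 1, 0, 16777216⟩, ⟨0, 0, 0, 1023410176⟩, ⟨0, 1, 0, 150994944⟩, ⟨1, 0, 0, 150994944⟩, ⟨1, 1, 0, 1023410176⟩]] false 3 c0N cB102L gN2q1 gN2q2 gN1q0 gN2q0 true true)) t 1 1 1 = true :=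
  ⟨(T.l 1), by decide +kernel⟩

def B102L_222 :
    ∃ t, chk3 (onCell 0 67108864 0 1073741824 67108864 67108864 (corTK [[⟨0, 1, 2, 33554432⟩, ⟨1, 0, 1, 33554432⟩, ⟨2, 1, 0, 16777216⟩, ⟨0, 0, 0, 1023410176⟩, ⟨0, 1, 0, 150994944⟩, ⟨1, 0, 0, 150994944⟩, ⟨1, 1, 0, 1023410176⟩]] false 3 c0N cB102L gN2q1 gN2q2 gN2q0 gN3q0 true false)) t 1 1 1 = true :=
  ⟨(T.l 1), by decide +kernel⟩

def B102L_300 :
    ∃ t, chk3 (onCell 0 67108864 0 1073741824 67108864 67108864 (corTK [] false 3 c0N cB102L gN3q1 gN0q2 gN0q0 gN1q0 true true)) t 1 1 1 = true :=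
  ⟨(T.b (T.b (T.l 2) (T.b (T.l 2) (T.a (T.b (T.l 2) (T.a (T.a (T.l 204) (T.l 204)) (T.l 204))) (T.l 2)))) (T.b (T.b (T.b (T.a (T.a (T.a (T.l 204) (T.l 204)) (T.l 204)) (T.l 204)) (T.a (T.a (T.a (T.l 204) (T.l 204)) (T.l 204)) (T.l 204))) (T.a (T.a (T.a (T.l 204) (T.l 204)) (T.b (T.l 204) (T.l 204))) (T.b (T.l 204) (T.l 0)))) (T.b (T.a (T.a (T.a (T.l 204) (T.l 204)) (T.l 0)) (T.a (T.l 0) (T.l 204))) (T.a (T.a (T.a (T.l 204) (T.l 0)) (T.l 256)) (T.a (T.l 204) (T.l 204)))))), by decide +kernel⟩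

def B102L_301 :
    ∃ t, chk3 (onCell 0 67108864 0 1073741824 67108864 67108864 (corTK [] false 3 c0N cB102L gN3q1 gN0q2 gN1q0 gN2q0 true true)) t 1 1 1 = true :=
  ⟨(T.b (T.b (T.b (T.a (T.a (T.a (T.l 204) (T.l 204)) (T.l 204)) (T.b (T.l 2) (T.l 204))) (T.a (T.a (T.a (T.l 204) (T.l 204)) (T.l 204)) (T.b (T.l 204) (T.l 204)))) (T.b (T.a (T.a (T.a (T.l 204) (T.l 204)) (T.l 204)) (T.b (T.l 204) (T.l 204))) (T.a (T.a (T.a (T.l 204) (T.l 204)) (T.l 0)) (T.b (T.l 204) (T.l 204))))) (T.b (T.b (T.b (T.a (T.a (T.l 1) (T.l 204)) (T.l 204)) (T.a (T.l 1) (T.l 204))) (T.l 1)) (T.l 1))), by decide +kernel⟩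

def B102L_302 :
    ∃ t, chk3 (onCell 0 67108864 0 1073741824 67108864 67108864 (corTK [] false 3 c0N cB102L gN3q1 gN0q2 gN2q0 gN3q0 true false)) t 1 1 1 = true :=
  ⟨(T.b (T.b (T.b (T.a (T.a (T.a (T.l 204) (T.l 204)) (T.l 204)) (T.l 204)) (T.a (T.a (T.l 1) (T.l 204)) (T.l 204))) (T.l 1)) (T.l 1)), by decide +kernel⟩

def B102L_310 :
    ∃ t, chk3 (onCell 0 67108864 0 1073741824 67108864 67108864 (corTK [] false 3 c0N cB102L gN3q1 gN1q2 gN0q0 gN1q0 true true)) t 1 1 1 = true :=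
  ⟨(T.b (T.b (T.a (T.a (T.a (T.l 204) (T.l 204)) (T.l 204)) (T.b (T.l 204) (T.b (T.l 204) (T.l 204)))) (T.a (T.a (T.a (T.l 204) (T.l 204)) (T.b (T.l 204) (T.l 0))) (T.a (T.l 204) (T.l 204)))) (T.b (T.a (T.a (T.a (T.l 204) (T.l 204)) (T.b (T.l 0) (T.l 0))) (T.a (T.b (T.l 204) (T.l 204)) (T.l 204))) (T.b (T.a (T.a (T.a (T.l 204) (T.l 204)) (T.l 0)) (T.b (T.l 0) (T.l 0))) (T.a (T.a (T.a (T.l 204) (T.l 0)) (T.l 0)) (T.a (T.l 204) (T.l 204)))))), by decide +kernel⟩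

def B102L_311 :
    ∃ t, chk3 (onCell 0 67108864 0 1073741824 67108864 67108864 (corTK [] false 3 c0N cB102L gN3q1 gN1q2 gN1q0 gN2q0 true true)) t 1 1 1 = true :=
  ⟨(T.l 1), by decide +kernel⟩

def B102L_312 :
    ∃ t, chk3 (onCell 0 67108864 0 1073741824 67108864 67108864 (corTK [] false 3 c0N cB102L gN3q1 gN1q2 gN2q0 gN3q0 true false)) t 1 1 1 = true :=
  ⟨(T.l 1), by decide +kernel⟩

def B102L_320 :
    ∃ t, chk3 (onCell 0 67108864 0 1073741824 67108864 67108864 (corTK [] false 3 c0N cB102L gN3q1 gN2q2 gN0q0 gN1q0 true true)) t 1 1 1 = true :=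
  ⟨(T.b (T.b (T.b (T.a (T.a (T.a (T.l 204) (T.b (T.l 204) (T.l 204))) (T.a (T.l 204) (T.l 204))) (T.b (T.a (T.a (T.l 204) (T.a (T.l 204) (T.l 204))) (T.a (T.b (T.l 204) (T.l 204)) (T.l 204))) (T.a (T.l 204) (T.a (T.b (T.l 204) (T.l 204)) (T.l 204))))) (T.a (T.a (T.a (T.l 204) (T.l 204)) (T.b (T.l 204) (T.l 204))) (T.a (T.l 204) (T.a (T.b (T.l 220) (T.l 204)) (T.b (T.l 204) (T.l 204)))))) (T.b (T.a (T.a (T.a (T.l 204) (T.l 204)) (T.l 204)) (T.a (T.l 220) (T.a (T.l 204) (T.b (T.l 204) (T.l 204))))) (T.a (T.a (T.a (T.l 204) (T.l 204)) (T.b (T.l 204) (T.l 0))) (T.a (T.l 204) (T.l 204))))) (T.b (T.b (T.a (T.a (T.a (T.l 204) (T.l 204)) (T.b (T.l 0) (T.l 0))) (T.a (T.l 204) (T.l 204))) (T.a (T.a (T.a (T.l 204) (T.l 204)) (T.l 0)) (T.a (T.l 204) (T.l 204)))) (T.b (T.a (T.a (T.a (T.l 204) (T.l 204)) (T.l 0)) (T.a (T.l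 204) (T.l 204))) (T.a (T.a (T.a (T.l 204) (T.l 0)) (T.l 0)) (T.b (T.l 16) (T.l 16)))))), by decide +kernel⟩

def B102L_321 :
    ∃ t, chk3 (onCell 0 67108864 0 1073741824 67108864 67108864 (corTK [] false 3 c0N cB102L gN3q1 gN2q2 gN1q0 gN2q0 true true)) t 1 1 1 = true :=
  ⟨(T.l 1), by decide +kernel⟩

def B102L_322 :
    ∃ t, chk3 (onCell 0 67108864 0 1073741824 67108864 67108864 (corTK [] false 3 c0N cB102L gN3q1 gN2q2 gN2q0 gN3q0 true false)) t 1 1 1 = true :=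
  ⟨(T.l 1), by decide +kernel⟩

def B102L_400 :
    ∃ t, chk3 (onCell 0 67108864 0 1073741824 67108864 67108864 (corTK [] false 3 c0N cB102L gN4q1 gN0q2 gN0q0 gN1q0 true true)) t 1 1 1 = true :=
  ⟨(T.b (T.b (T.l 2) (T.l 2)) (T.b (T.b (T.a (T.b (T.l 2) (T.a (T.a (T.l 204) (T.l 204)) (T.l 2))) (T.l 2)) (T.b (T.a (T.a (T.a (T.l 204) (T.l 204)) (T.l 204)) (T.l 204)) (T.a (T.a (T.a (T.l 204) (T.l 204)) (T.l 204)) (T.l 204)))) (T.b (T.b (T.a (T.a (T.a (T.l 204) (T.l 204)) (T.l 204)) (T.l 204)) (T.a (T.a (T.a (T.l 204) (T.l 204)) (T.l 204)) (T.l 0))) (T.a (T.a (T.a (T.l 204) (T.l 204)) (T.l 204)) (T.l 0))))), by decide +kernel⟩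

def B102L_401 :
    ∃ t, chk3 (onCell 0 67108864 0 1073741824 67108864 67108864 (corTK [] false 3 c0N cB102L gN4q1 gN0q2 gN1q0 gN2q0 true true)) t 1 1 1 = true :=
  ⟨(T.b (T.b (T.a (T.b (T.a (T.a (T.l 204) (T.l 204)) (T.l 204)) (T.a (T.a (T.l 204) (T.l 204)) (T.l 204))) (T.a (T.l 204) (T.l 204))) (T.b (T.a (T.a (T.a (T.l 204) (T.l 204)) (T.l 204)) (T.b (T.l 204) (T.l 204))) (T.a (T.a (T.a (T.l 204) (T.l 204)) (T.l 204)) (T.b (T.l 204) (T.l 204))))) (T.b (T.b (T.a (T.a (T.a (T.l 204) (T.l 204)) (T.l 204)) (T.b (T.l 204) (T.l 204))) (T.b (T.a (T.a (T.a (T.l 1) (T.l 204)) (T.l 204)) (T.l 204)) (T.a (T.l 1) (T.l 204)))) (T.l 1))), by decide +kernel⟩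

def B102L_402 :
    ∃ t, chk3 (onCell 0 67108864 0 1073741824 67108864 67108864 (corTK [] false 3 c0N cB102L gN4q1 gN0q2 gN2q0 gN3q0 true false)) t 1 1 1 = true :=
  ⟨(T.b (T.b (T.a (T.a (T.a (T.l 204) (T.l 204)) (T.b (T.l 204) (T.l 204))) (T.b (T.l 204) (T.l 204))) (T.a (T.l 1) (T.b (T.l 204) (T.l 1)))) (T.l 1)), by decide +kernel⟩

def B102L_410 :
    ∃ t, chk3 (onCell 0 67108864 0 1073741824 67108864 67108864 (corTK [] false 3 c0N cB102L gN4q1 gN1q2 gN0q0 gN1q0 true true)) t 1 1 1 = true :=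
  ⟨(T.b (T.a (T.b (T.a (T.a (T.l 204) (T.l 204)) (T.l 204)) (T.a (T.a (T.l 204) (T.l 204)) (T.l 204))) (T.b (T.l 220) (T.b (T.l 204) (T.l 204)))) (T.a (T.b (T.a (T.a (T.l 204) (T.l 204)) (T.b (T.l 204) (T.l 204))) (T.a (T.a (T.l 204) (T.l 204)) (T.l 0))) (T.b (T.b (T.l 204) (T.l 0)) (T.b (T.b (T.l 204) (T.l 204)) (T.l 204))))), by decide +kernel⟩

def B102L_411 :
    ∃ t, chk3 (onCell 0 67108864 0 1073741824 67108864 67108864 (corTK [] false 3 c0N cB102L gN4q1 gN1q2 gN1q0 gN2q0 true true)) t 1 1 1 = true :=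
  ⟨(T.l 1), by decide +kernel⟩

def B102L_412 :
    ∃ t, chk3 (onCell 0 67108864 0 1073741824 67108864 67108864 (corTK [] false 3 c0N cB102L gN4q1 gN1q2 gN2q0 gN3q0 true false)) t 1 1 1 = true :=
  ⟨(T.l 1), by decide +kernel⟩

def B102L_420 :
    ∃ t, chk3 (onCell 0 67108864 0 1073741824 67108864 67108864 (corTK [] false 3 c0N cB102L gN4q1 gN2q2 gN0q0 gN1q0 true true)) t 1 1 1 = true :=
  ⟨(T.b (T.b (T.b (T.b (T.a (T.a (T.a (T.l 204) (T.b (T.l 204) (T.l 204))) (T.a (T.l 204) (T.l 204))) (T.a (T.a (T.l 204) (T.a (T.l 204) (T.l 204))) (T.a (T.b (T.l 204) (T.l 204)) (T.l 204)))) (T.a (T.a (T.a (T.l 204) (T.l 204)) (T.l 204)) (T.a (T.l 204) (T.a (T.l 204) (T.l 204))))) (T.b (T.a (T.a (T.a (T.l 204) (T.l 204)) (T.l 204)) (T.a (T.l 204) (T.a (T.l 204) (T.l 204)))) (T.a (T.a (T.a (T.l 204) (T.l 204)) (T.l 204)) (T.a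 (T.l 204) (T.a (T.l 204) (T.l 204)))))) (T.b (T.b (T.a (T.a (T.a (T.l 204) (T.l 204)) (T.l 204)) (T.a (T.l 204) (T.b (T.l 16) (T.l 204)))) (T.a (T.a (T.a (T.l 204) (T.l 204)) (T.l 204)) (T.l 204))) (T.a (T.a (T.a (T.l 204) (T.l 204)) (T.l 204)) (T.b (T.l 204) (T.l 204))))) (T.b (T.a (T.a (T.a (T.l 204) (T.l 204)) (T.l 204)) (T.a (T.l 204) (T.l 204))) (T.b (T.a (T.a (T.a (T.l 204) (T.l 204)) (T.l 204)) (T.b (T.l 204) (T.l 204))) (T.a (T.a (T.a (T.l 204) (T.l 204)) (T.l 204)) (T.l 204))))), by decide +kernel⟩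

def B102L_421 :
    ∃ t, chk3 (onCell 0 67108864 0 1073741824 67108864 67108864 (corTK [] false 3 c0N cB102L gN4q1 gN2q2 gN1q0 gN2q0 true true)) t 1 1 1 = true :=
  ⟨(T.l 1), by decide +kernel⟩

def B102L_422 :
    ∃ t, chk3 (onCell 0 67108864 0 1073741824 67108864 67108864 (corTK [] false 3 c0N cB102L gN4q1 gN2q2 gN2q0 gN3q0 true false)) t 1 1 1 = true :=
  ⟨(T.l 1), by decide +kernel⟩

def B102R_040 :
    ∃ t, chk3 (onCell 0 67108864 0 1073741824 67108864 67108864 (corTK [] false 3 c0N cB102R gN0q1 gN4q2 gN0q0 gN1q0 true true)) t 1 1 1 = true :=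
  ⟨(T.l 1), by decide +kernel⟩

def B102R_041 :
    ∃ t, chk3 (onCell 0 67108864 0 1073741824 67108864 67108864 (corTK [] false 3 c0N cB102R gN0q1 gN4q2 gN1q0 gN2q0 true true)) t 1 1 1 = true :=
  ⟨(T.l 1), by decide +kernel⟩

def B102R_042 :
    ∃ t, chk3 (onCell 0 67108864 0 1073741824 67108864 67108864 (corTK [] false 3 c0N cB102R gN0q1 gN4q2 gN2q0 gN3q0 true false)) t 1 1 1 = true :=
  ⟨(T.l 1), by decide +kernel⟩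

def B202E_000 :
    ∃ t, chk3 (onCell 0 67108864 0 1073741824 67108864 67108864 (corTK [] false 3 c0N cB202E gN0q2 gN0q2 gN0q0 gN1q0 true true)) t 1 1 1 = true :=
  ⟨(T.l 1), by decide +kernel⟩

def B202E_001 :
    ∃ t, chk3 (onCell 0 67108864 0 1073741824 67108864 67108864 (corTK [] false 3 c0N cB202E gN0q2 gN0q2 gN1q0 gN2q0 true true)) t 1 1 1 = true :=
  ⟨(T.l 1), by decide +kernel⟩

def B202E_002 :
    ∃ t, chk3 (onCell 0 67108864 0 1073741824 67108864 67108864 (corTK [] false 3 c0N cB202E gN0q2 gN0q2 gN2q0 gN3q0 true false)) t 1 1 1 = true :=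
  ⟨(T.l 1), by decide +kernel⟩

def B202E_010 :
    ∃ t, chk3 (onCell 0 67108864 0 1073741824 67108864 67108864 (corTK [] false 3 c0N cB202E gN0q2 gN1q2 gN0q0 gN1q0 true true)) t 1 1 1 = true :=
  ⟨(T.l 1), by decide +kernel⟩

def B202E_011 :
    ∃ t, chk3 (onCell 0 67108864 0 1073741824 67108864 67108864 (corTK [] false 3 c0N cB202E gN0q2 gN1q2 gN1q0 gN2q0 true true)) t 1 1 1 = true :=
  ⟨(T.l 1), by decide +kernel⟩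

def B202E_012 :
    ∃ t, chk3 (onCell 0 67108864 0 1073741824 67108864 67108864 (corTK [] false 3 c0N cB202E gN0q2 gN1q2 gN2q0 gN3q0 true false)) t 1 1 1 = true :=
  ⟨(T.l 1), by decide +kernel⟩

end Pool.Agent.Strip051.G.I1_16_1_8.Tab.CN
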