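import Pool.Agent.Strip051.G.I1_16_1_8.Gn
import Pool.Agent.Strip051.PB.Corns
import Pool.Agent.Strip051.PB.CornK

/-! # Certificates of the aligned corners (generated) -/

set_option linter.all false

namespace Pool.Agent.Strip051.G.I1_16_1_8.Tab.CN

open Pool.Agent.Strip051.PB

def B011R_003_1_4_1 :
    ∃ t, chk3 (onCell 0 67108864 0 1073741824 67108864 67108864 (corTK [[⟨0, 0, 1, 33554432⟩, ⟨1, 1, 2, 33554432⟩, ⟨2, 1, 0, 8388608⟩, ⟨0, 0, 0, 150994944⟩, ⟨0, 1, 0, 1023410176⟩, ⟨1, 0, 0, 1023410176⟩, ⟨1, 1, 0, 150994944⟩]] false 3 c0N cB011R gN0q0 gN0q1 gN3q1 gN4q1 true true)) t 1 4 1 = true :=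
  ⟨(T.b (T.l 1) (T.b (T.b (T.b (T.b (T.b (T.l 1) (T.a (T.l 1) (T.c (T.b (T.l 1) (T.a (T.a (T.l 204) (T.l 204)) (T.a (T.l 204) (T.l 204)))) (T.b (T.l 1) (T.a (T.a (T.l 204) (T.l 204)) (T.a (T.l 204) (T.l 204))))))) (T.b (T.a (T.c (T.b (T.a (T.a (T.l 204) (T.a (T.l 204) (T.l 204))) (T.a (T.c (T.l 204) (T.l 204)) (T.l 204))) (T.a (T.a (T.l 204) (T.a (T.l 204) (T.l 204))) (T.a (T.c (T.l 204) (T.l 204)) (T.l 204)))) (T.b (T.a (T.a (T.l 204) (T.a (T.l 204) (T.l 204))) (T.a (T.c (T.l 204) (T.l 204)) (T.l 204))) (T.a (T.a (T.l 204) (T.a (T.l 204) (T.l 204))) (T.a (T.c (T.l 204) (T.l 204)) (T.l 204))))) (T.c (T.a (T.a (T.l 204) (T.l 204)) (T.a (T.l 204) (T.l 204))) (T.a (T.a (T.l 204) (T.l 204)) (T.a (T.l 204) (T.l 204))))) (T.a (T.c (T.b (T.a (T.a (T.l 204) (T.a (T.l 204) (T.l 204))) (T.a (T.c (T.l 204)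 (T.l 204)) (T.l 204))) (T.a (T.a (T.l 204) (T.a (T.l 204) (T.l 204))) (T.a (T.c (T.l 204) (T.l 204)) (T.l 204)))) (T.b (T.a (T.a (T.l 204) (T.a (T.l 204) (T.l 204))) (T.a (T.c (T.l 204) (T.l 204)) (T.l 204))) (T.a (T.a (T.l 204) (T.a (T.l 204) (T.l 204))) (T.a (T.c (T.l 204) (T.l 204)) (T.l 204))))) (T.a (T.a (T.c (T.l 204) (T.l 204)) (T.c (T.l 204) (T.l 204))) (T.a (T.c (T.l 204) (T.l 204)) (T.c (T.l 204) (T.l 204))))))) (T.b (T.b (T.a (T.c (T.a (T.a (T.l 204) (T.a (T.l 204) (T.l 204))) (T.a (T.c (T.l 476) (T.l 204)) (T.l 204))) (T.a (T.a (T.l 204) (T.a (T.l 204) (T.l 204))) (T.a (T.c (T.l 204) (T.l 204)) (T.l 204)))) (T.a (T.a (T.c (T.l 204) (T.l 204)) (T.c (T.l 204) (T.l 204))) (T.a (T.c (T.l 204) (T.l 204)) (T.c (T.l 204) (T.l 204))))) (T.a (T.c (T.a (T.a (T.l 204) (T.a (T.l 204) (T.l 204)))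 (T.a (T.c (T.l 476) (T.l 204)) (T.l 204))) (T.a (T.a (T.l 204) (T.a (T.l 204) (T.l 204))) (T.a (T.c (T.l 204) (T.l 204)) (T.l 204)))) (T.a (T.a (T.c (T.l 204) (T.l 204)) (T.c (T.l 204) (T.l 204))) (T.a (T.c (T.l 204) (T.l 204)) (T.c (T.l 204) (T.l 204)))))) (T.b (T.a (T.a (T.a (T.l 204) (T.a (T.l 204) (T.c (T.l 204) (T.l 204)))) (T.a (T.a (T.l 204) (T.l 476)) (T.c (T.l 204) (T.l 204)))) (T.a (T.a (T.c (T.l 204) (T.l 204)) (T.c (T.l 204) (T.l 204))) (T.a (T.c (T.l 204) (T.l 204)) (T.c (T.l 204) (T.l 204))))) (T.a (T.a (T.a (T.l 204) (T.a (T.l 204) (T.c (T.l 204) (T.l 204)))) (T.a (T.a (T.l 204) (T.l 204)) (T.c (T.l 204) (T.l 204)))) (T.a (T.a (T.c (T.l 204) (T.l 204)) (T.c (T.l 204) (T.l 204))) (T.a (T.c (T.l 204) (T.l 204)) (T.c (T.l 204) (T.l 204)))))))) (T.b (T.a (T.a (T.a (T.l 204) (T.a (T.l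 204) (T.c (T.l 204) (T.l 204)))) (T.a (T.a (T.c (T.l 204) (T.l 204)) (T.l 204)) (T.c (T.c (T.l 204) (T.l 204)) (T.l 204)))) (T.a (T.a (T.c (T.l 204) (T.l 204)) (T.c (T.l 204) (T.l 204))) (T.a (T.c (T.l 204) (T.l 204)) (T.c (T.c (T.l 204) (T.l 204)) (T.l 204))))) (T.a (T.a (T.a (T.l 204) (T.a (T.l 204) (T.c (T.l 204) (T.l 204)))) (T.a (T.a (T.c (T.l 204) (T.l 204)) (T.l 460)) (T.c (T.c (T.l 204) (T.l 204)) (T.l 204)))) (T.a (T.a (T.c (T.l 204) (T.l 204)) (T.c (T.l 204) (T.l 204))) (T.a (T.c (T.l 476) (T.l 204)) (T.c (T.l 476) (T.l 204))))))) (T.a (T.a (T.a (T.l 204) (T.a (T.l 204) (T.a (T.l 204) (T.c (T.l 204) (T.l 204))))) (T.a (T.a (T.c (T.b (T.l 204) (T.l 204)) (T.l 204)) (T.c (T.l 204) (T.l 204))) (T.a (T.c (T.b (T.l 204) (T.l 204)) (T.l 204)) (T.c (T.b (T.l 204) (T.l 204)) (T.l 204))))) (T.a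 (T.a (T.c (T.a (T.l 476) (T.l 460)) (T.c (T.l 16) (T.l 16))) (T.c (T.b (T.b (T.l 204) (T.l 476)) (T.c (T.l 272) (T.l 0))) (T.b (T.l 16) (T.b (T.l 204) (T.l 0))))) (T.a (T.c (T.a (T.b (T.l 204) (T.l 204)) (T.b (T.l 204) (T.l 204))) (T.a (T.l 0) (T.l 272))) (T.c (T.b (T.b (T.l 476) (T.l 476)) (T.b (T.l 476) (T.l 476))) (T.b (T.l 204) (T.l 16)))))))), by decide +kernel⟩

def B011R_003_1_5_1 :
    ∃ t, chk3 (onCell 0 67108864 0 1073741824 67108864 67108864 (corTK [[⟨0, 0, 1, 33554432⟩, ⟨1, 1, 2, 33554432⟩, ⟨2, 1, 0, 8388608⟩, ⟨0, 0, 0, 150994944⟩, ⟨0, 1, 0, 1023410176⟩, ⟨1, 0, 0, 1023410176⟩, ⟨1, 1, 0, 150994944⟩]] false 3 c0N cB011R gN0q0 gN0q1 gN3q1 gN4q1 true true)) t 1 5 1 = true :=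
  ⟨(T.b (T.b (T.b (T.a (T.a (T.a (T.l 204) (T.a (T.l 204) (T.a (T.l 204) (T.c (T.l 204) (T.l 204))))) (T.a (T.a (T.c (T.b (T.l 204) (T.l 204)) (T.l 204)) (T.c (T.l 204) (T.l 204))) (T.a (T.c (T.l 0) (T.l 0)) (T.c (T.l 0) (T.l 0))))) (T.a (T.a (T.a (T.c (T.l 204) (T.l 204)) (T.c (T.l 0) (T.l 0))) (T.c (T.a (T.l 0) (T.l 0)) (T.b (T.l 0) (T.l 0)))) (T.a (T.c (T.b (T.l 272) (T.l 272)) (T.b (T.l 0) (T.l 0))) (T.c (T.a (T.l 0) (T.l 0)) (T.b (T.l 0) (T.l 0)))))) (T.b (T.a (T.a (T.a (T.l 204) (T.a (T.l 204) (T.a (T.l 204) (T.c (T.l 204) (T.l 204))))) (T.a (T.a (T.c (T.c (T.l 0) (T.l 0)) (T.l 0)) (T.c (T.l 204) (T.l 204))) (T.a (T.c (T.l 204) (T.l 204)) (T.c (T.l 0) (T.l 0))))) (T.a (T.a (T.c (T.a (T.l 0) (T.l 0)) (T.c (T.l 16) (T.l 0))) (T.c (T.c (T.l 0) (T.l 0)) (T.l 272))) (T.a (T.c (T.c (T.l 0) (T.l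 0)) (T.l 0)) (T.c (T.c (T.l 0) (T.l 0)) (T.l 0))))) (T.b (T.a (T.a (T.a (T.l 204) (T.a (T.l 204) (T.a (T.l 204) (T.c (T.l 204) (T.l 204))))) (T.a (T.a (T.c (T.c (T.l 0) (T.l 0)) (T.l 0)) (T.c (T.l 0) (T.l 0))) (T.a (T.c (T.l 0) (T.l 0)) (T.c (T.l 0) (T.l 0))))) (T.a (T.a (T.c (T.c (T.l 272) (T.l 0)) (T.c (T.l 0) (T.l 0))) (T.c (T.c (T.l 0) (T.l 0)) (T.l 0))) (T.a (T.c (T.l 0) (T.l 0)) (T.c (T.l 0) (T.l 0))))) (T.b (T.a (T.a (T.a (T.l 204) (T.a (T.l 204) (T.a (T.l 204) (T.c (T.l 0) (T.l 0))))) (T.a (T.a (T.c (T.c (T.l 0) (T.l 0)) (T.l 0)) (T.c (T.l 0) (T.l 0))) (T.a (T.c (T.l 0) (T.l 0)) (T.c (T.l 0) (T.l 0))))) (T.a (T.a (T.c (T.c (T.l 0) (T.l 0)) (T.c (T.l 0) (T.l 0))) (T.c (T.l 340) (T.l 0))) (T.a (T.c (T.l 0) (T.l 0)) (T.c (T.l 0) (T.l 0))))) (T.a (T.a (T.a (T.l 204) (T.a (T.l 204) (T.a (T.l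 204) (T.c (T.l 0) (T.l 0))))) (T.a (T.a (T.c (T.c (T.l 0) (T.l 0)) (T.l 0)) (T.c (T.l 0) (T.l 0))) (T.a (T.c (T.l 0) (T.l 0)) (T.c (T.l 0) (T.l 0))))) (T.a (T.a (T.c (T.c (T.l 0) (T.l 0)) (T.c (T.l 0) (T.l 0))) (T.c (T.c (T.l 0) (T.l 0)) (T.l 0))) (T.a (T.c (T.l 0) (T.l 0)) (T.c (T.l 0) (T.l 0))))))))) (T.b (T.b (T.b (T.b (T.a (T.c (T.a (T.a (T.l 204) (T.a (T.l 204) (T.a (T.l 204) (T.l 0)))) (T.a (T.a (T.c (T.l 0) (T.l 0)) (T.l 0)) (T.a (T.l 0) (T.l 0)))) (T.a (T.a (T.l 204) (T.a (T.l 204) (T.c (T.l 0) (T.l 0)))) (T.a (T.a (T.l 0) (T.l 0)) (T.a (T.l 0) (T.l 0))))) (T.a (T.a (T.c (T.c (T.l 4) (T.l 0)) (T.c (T.l 0) (T.l 0))) (T.c (T.c (T.l 0) (T.l 0)) (T.l 0))) (T.a (T.c (T.l 0) (T.l 0)) (T.c (T.l 0) (T.l 0))))) (T.a (T.c (T.a (T.a (T.l 204) (T.a (T.l 204) (T.a (T.l 204) (T.l 0)))) (T.a (T.a (T.c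 (T.l 0) (T.l 0)) (T.l 0)) (T.a (T.l 0) (T.l 0)))) (T.a (T.a (T.l 204) (T.a (T.l 204) (T.a (T.l 204) (T.l 0)))) (T.a (T.a (T.l 0) (T.l 0)) (T.a (T.l 0) (T.l 0))))) (T.a (T.a (T.c (T.c (T.l 340) (T.l 0)) (T.c (T.l 0) (T.l 0))) (T.c (T.c (T.l 0) (T.l 0)) (T.l 0))) (T.a (T.c (T.l 0) (T.l 0)) (T.c (T.l 0) (T.l 0)))))) (T.a (T.b (T.a (T.a (T.l 204) (T.a (T.l 204) (T.a (T.l 204) (T.c (T.l 0) (T.l 0))))) (T.a (T.a (T.c (T.c (T.l 0) (T.l 0)) (T.l 16)) (T.c (T.l 0) (T.l 0))) (T.a (T.c (T.l 0) (T.l 0)) (T.c (T.l 0) (T.l 0))))) (T.a (T.a (T.l 0) (T.a (T.l 0) (T.a (T.l 0) (T.c (T.l 0) (T.l 0))))) (T.a (T.a (T.c (T.c (T.l 0) (T.l 0)) (T.c (T.l 0) (T.l 0))) (T.c (T.l 0) (T.l 0))) (T.a (T.c (T.l 0) (T.l 0)) (T.c (T.l 0) (T.l 0)))))) (T.a (T.a (T.c (T.a (T.l 0) (T.l 0)) (T.a (T.l 0) (T.l 0))) (T.c (T.c (T.l 0)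 (T.l 0)) (T.c (T.l 0) (T.l 0)))) (T.a (T.c (T.c (T.l 0) (T.l 0)) (T.l 0)) (T.c (T.c (T.l 0) (T.l 0)) (T.l 0)))))) (T.b (T.a (T.b (T.a (T.a (T.l 0) (T.a (T.l 816) (T.a (T.l 816) (T.c (T.l 0) (T.l 0))))) (T.a (T.a (T.c (T.c (T.l 0) (T.l 0)) (T.c (T.l 0) (T.l 0))) (T.c (T.c (T.l 0) (T.l 0)) (T.l 0))) (T.a (T.c (T.l 0) (T.l 0)) (T.c (T.l 0) (T.l 0))))) (T.a (T.a (T.c (T.b (T.l 816) (T.c (T.b (T.l 816) (T.l 2)) (T.b (T.l 816) (T.l 2)))) (T.b (T.l 816) (T.a (T.l 2) (T.l 816)))) (T.a (T.c (T.c (T.c (T.c (T.a (T.b (T.l 816) (T.b (T.l 816) (T.l 2))) (T.l 816)) (T.l 816)) (T.l 816)) (T.l 816)) (T.l 816)) (T.a (T.l 816) (T.a (T.l 816) (T.c (T.c (T.l 816) (T.l 816)) (T.l 0)))))) (T.c (T.a (T.a (T.a (T.c (T.l 0) (T.l 0)) (T.c (T.l 0) (T.l 0))) (T.a (T.l 0) (T.l 0))) (T.a (T.c (T.l 0) (T.l 0)) (T.c (T.l 0)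 (T.l 0)))) (T.a (T.a (T.a (T.c (T.l 0) (T.l 0)) (T.l 0)) (T.c (T.l 0) (T.l 0))) (T.a (T.l 0) (T.l 0)))))) (T.a (T.a (T.c (T.a (T.l 0) (T.l 0)) (T.a (T.l 0) (T.l 0))) (T.c (T.a (T.l 0) (T.l 0)) (T.c (T.l 0) (T.l 0)))) (T.a (T.c (T.c (T.l 0) (T.l 0)) (T.c (T.l 0) (T.l 0))) (T.c (T.c (T.l 0) (T.l 0)) (T.l 0))))) (T.a (T.a (T.l 2) (T.b (T.c (T.b (T.a (T.l 2) (T.c (T.b (T.a (T.c (T.l 0) (T.l 0)) (T.l 0)) (T.l 2)) (T.b (T.a (T.c (T.l 0) (T.l 0)) (T.l 0)) (T.l 2)))) (T.l 2)) (T.b (T.a (T.l 2) (T.c (T.b (T.a (T.l 0) (T.l 0)) (T.l 2)) (T.b (T.a (T.l 0) (T.l 0)) (T.l 2)))) (T.l 2))) (T.l 2))) (T.b (T.a (T.c (T.b (T.a (T.a (T.c (T.a (T.l 816) (T.l 816)) (T.c (T.l 0) (T.l 0))) (T.c (T.l 0) (T.l 0))) (T.a (T.l 0) (T.l 0))) (T.a (T.l 2) (T.c (T.b (T.a (T.a (T.l 2) (T.l 816)) (T.l 816)) (T.l 2)) (T.b (T.a (T.l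 0) (T.l 816)) (T.l 2))))) (T.b (T.a (T.a (T.c (T.l 0) (T.l 0)) (T.c (T.l 0) (T.l 0))) (T.a (T.l 0) (T.l 0))) (T.a (T.l 2) (T.c (T.b (T.a (T.l 0) (T.l 816)) (T.l 2)) (T.a (T.a (T.l 2) (T.l 816)) (T.l 816)))))) (T.a (T.c (T.a (T.b (T.l 0) (T.c (T.a (T.l 816) (T.l 816)) (T.l 816))) (T.c (T.l 816) (T.l 816))) (T.a (T.c (T.l 816) (T.l 0)) (T.l 0))) (T.c (T.a (T.l 0) (T.l 0)) (T.c (T.l 0) (T.l 0))))) (T.a (T.l 2) (T.a (T.l 2) (T.a (T.l 2) (T.c (T.b (T.c (T.b (T.l 816) (T.l 2)) (T.b (T.l 816) (T.l 2))) (T.l 2)) (T.b (T.c (T.a (T.l 944) (T.l 816)) (T.l 816)) (T.l 2)))))))))) (T.l 2))) (T.l 2)), by decide +kernel⟩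

def B011R_003_1_3_1 :
    ∃ t, chk3 (onCell 0 67108864 0 1073741824 67108864 67108864 (corTK [[⟨0, 0, 1, 33554432⟩, ⟨1, 1, 2, 33554432⟩, ⟨2, 1, 0, 8388608⟩, ⟨0, 0, 0, 150994944⟩, ⟨0, 1, 0, 1023410176⟩, ⟨1, 0, 0, 1023410176⟩, ⟨1, 1, 0, 150994944⟩]] false 3 c0N cB011R gN0q0 gN0q1 gN3q1 gN4q1 true true)) t 1 3 1 = true :=
  ⟨(T.l 2), by decide +kernel⟩

theorem B011R_003_1_2_1 :
    ∃ t, chk3 (onCell 0 67108864 0 1073741824 67108864 67108864 (corTK [[⟨0, 0, 1, 33554432⟩, ⟨1, 1, 2, 33554432⟩, ⟨2, 1, 0, 8388608⟩, ⟨0, 0, 0, 150994944⟩, ⟨0, 1, 0, 1023410176⟩, ⟨1, 0, 0, 1023410176⟩, ⟨1, 1, 0, 150994944⟩]] false 3 c0N cB011R gN0q0 gN0q1 gN3q1 gN4q1 true true)) t 1 2 1 = true :=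
  ex3_b B011R_003_1_4_1 B011R_003_1_5_1
theorem B011R_003 :
    ∃ t, chk3 (onCell 0 67108864 0 1073741824 67108864 67108864 (corTK [[⟨0, 0, 1, 33554432⟩, ⟨1, 1, 2, 33554432⟩, ⟨2, 1, 0, 8388608⟩, ⟨0, 0, 0, 150994944⟩, ⟨0, 1, 0, 1023410176⟩, ⟨1, 0, 0, 1023410176⟩, ⟨1, 1, 0, 150994944⟩]] false 3 c0N cB011R gN0q0 gN0q1 gN3q1 gN4q1 true true)) t 1 1 1 = true :=
  ex3_b B011R_003_1_2_1 B011R_003_1_3_1

def B011R_101 :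
    ∃ t, chk3 (onCell 0 67108864 0 1073741824 67108864 67108864 (corTK [] false 3 c0N cB011R gN1q0 gN0q1 gN1q1 gN2q1 false true)) t 1 1 1 = true :=
  ⟨(T.l 2), by decide +kernel⟩

def B011R_102 :
    ∃ t, chk3 (onCell 0 67108864 0 1073741824 67108864 67108864 (corTK [] false 3 c0N cB011R gN1q0 gN0q1 gN2q1 gN3q1 true true)) t 1 1 1 = true :=
  ⟨(T.l 2), by decide +kernel⟩

def B011R_103 :
    ∃ t, chk3 (onCell 0 67108864 0 1073741824 67108864 67108864 (corTK [] false 3 c0N cB011R gN1q0 gN0q1 gN3q1 gN4q1 true true)) t 1 1 1 = true :=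
  ⟨(T.l 2), by decide +kernel⟩

def B011R_201 :
    ∃ t, chk3 (onCell 0 67108864 0 1073741824 67108864 67108864 (corTK [] false 3 c0N cB011R gN2q0 gN0q1 gN1q1 gN2q1 false true)) t 1 1 1 = true :=
  ⟨(T.l 2), by decide +kernel⟩

def B011R_202 :
    ∃ t, chk3 (onCell 0 67108864 0 1073741824 67108864 67108864 (corTK [] false 3 c0N cB011R gN2q0 gN0q1 gN2q1 gN3q1 true true)) t 1 1 1 = true :=
  ⟨(T.l 2), by decide +kernel⟩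

def B011R_203 :
    ∃ t, chk3 (onCell 0 67108864 0 1073741824 67108864 67108864 (corTK [] false 3 c0N cB011R gN2q0 gN0q1 gN3q1 gN4q1 true true)) t 1 1 1 = true :=
  ⟨(T.l 2), by decide +kernel⟩

def B012E_000_1_2_1 :
    ∃ t, chk3 (onCell 0 67108864 0 1073741824 67108864 67108864 (corTK [] false 3 c0N cB012E gN0q0 gN0q2 gN0q1 gN1q1 true false)) t 1 2 1 = true :=
  ⟨(T.b (T.l 1) (T.b (T.l 1) (T.b (T.l 1) (T.b (T.l 1) (T.b (T.a (T.l 1) (T.b (T.a (T.l 1) (T.a (T.l 1) (T.a (T.l 1) (T.a (T.l 1) (T.b (T.l 1) (T.a (T.l 1) (T.c (T.b (T.l 1) (T.c (T.b (T.l 1) (T.l 204)) (T.b (T.l 1) (T.l 204)))) (T.b (T.l 1) (T.c (T.l 748) (T.l 204)))))))))) (T.a (T.a (T.l 1) (T.b (T.l 1) (T.a (T.a (T.l 1) (T.c (T.b (T.l 1) (T.c (T.b (T.l 1) (T.l 204)) (T.a (T.l 204) (T.l 204)))) (T.b (T.l 1) (T.c (T.l 204) (T.l 204)))))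 (T.c (T.b (T.a (T.l 1) (T.a (T.l 1) (T.c (T.b (T.l 1) (T.l 204)) (T.l 204)))) (T.c (T.a (T.l 204) (T.l 204)) (T.l 204))) (T.b (T.a (T.l 1) (T.a (T.l 1) (T.l 204))) (T.c (T.l 204) (T.l 204))))))) (T.a (T.b (T.a (T.l 1) (T.c (T.b (T.l 1) (T.c (T.b (T.a (T.l 1) (T.l 204)) (T.c (T.l 204) (T.l 204))) (T.b (T.a (T.l 1) (T.l 204)) (T.l 204)))) (T.b (T.l 1) (T.c (T.a (T.l 204) (T.l 204)) (T.c (T.l 204) (T.l 204)))))) (T.a (T.c (T.a (T.c (T.c (T.a (T.l 204) (T.l 204)) (T.l 204)) (T.l 204)) (T.l 204)) (T.a (T.l 204) (T.l 204))) (T.c (T.l 204) (T.l 204)))) (T.a (T.b (T.c (T.b (T.a (T.l 1) (T.c (T.b (T.l 1) (T.l 204)) (T.b (T.l 1) (T.l 204)))) (T.c (T.l 204) (T.l 204))) (T.b (T.a (T.l 1) (T.c (T.l 204) (T.l 204))) (T.l 204))) (T.l 204)) (T.b (T.c (T.a (T.c (T.l 204) (T.l 204)) (T.l 204)) (T.c (T.l 204) (T.l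 204))) (T.l 204))))))) (T.a (T.a (T.b (T.l 1) (T.a (T.b (T.l 1) (T.a (T.c (T.b (T.l 1) (T.c (T.b (T.a (T.l 1) (T.c (T.c (T.a (T.a (T.l 1) (T.l 204)) (T.l 204)) (T.l 204)) (T.l 204))) (T.l 204)) (T.a (T.b (T.l 1) (T.l 204)) (T.l 204)))) (T.b (T.l 1) (T.a (T.c (T.b (T.l 1) (T.l 204)) (T.b (T.l 1) (T.l 204))) (T.l 204)))) (T.c (T.b (T.c (T.b (T.a (T.l 1) (T.c (T.b (T.l 1) (T.l 204)) (T.a (T.l 1) (T.l 204)))) (T.a (T.a (T.l 1) (T.l 204)) (T.l 204))) (T.b (T.a (T.l 1) (T.a (T.l 1) (T.l 204))) (T.a (T.a (T.l 1) (T.l 204)) (T.l 204)))) (T.l 204)) (T.b (T.c (T.b (T.a (T.l 1) (T.a (T.l 1) (T.l 204))) (T.l 204)) (T.b (T.a (T.l 1) (T.l 204)) (T.l 204))) (T.l 204))))) (T.b (T.c (T.b (T.a (T.l 1) (T.a (T.l 1) (T.a (T.l 1) (T.c (T.b (T.l 1) (T.l 204)) (T.b (T.l 1) (T.l 204)))))) (T.a (T.c (T.b (T.l 1) (T.a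 (T.l 1) (T.l 204))) (T.b (T.l 1) (T.a (T.l 1) (T.l 204)))) (T.c (T.a (T.c (T.a (T.b (T.l 1) (T.l 204)) (T.l 204)) (T.l 204)) (T.l 204)) (T.l 204)))) (T.b (T.a (T.l 1) (T.a (T.l 1) (T.c (T.b (T.l 1) (T.l 204)) (T.b (T.l 1) (T.l 204))))) (T.a (T.c (T.b (T.l 1) (T.a (T.l 1) (T.l 204))) (T.b (T.l 1) (T.a (T.l 1) (T.l 204)))) (T.l 204)))) (T.c (T.c (T.l 204) (T.l 204)) (T.l 204))))) (T.a (T.a (T.b (T.l 1) (T.b (T.c (T.a (T.b (T.c (T.b (T.l 1) (T.l 204)) (T.b (T.l 1) (T.l 204))) (T.l 204)) (T.l 204)) (T.c (T.c (T.a (T.c (T.l 204) (T.l 204)) (T.l 204)) (T.l 204)) (T.l 204))) (T.l 204))) (T.b (T.b (T.l 1) (T.c (T.b (T.l 1) (T.a (T.c (T.b (T.l 1) (T.a (T.l 1) (T.l 204))) (T.b (T.l 1) (T.a (T.l 1) (T.l 204)))) (T.c (T.b (T.a (T.l 1) (T.l 204)) (T.l 204)) (T.a (T.c (T.l 204) (T.l 204)) (T.l 204))))) (T.b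 (T.l 1) (T.a (T.c (T.b (T.l 1) (T.l 204)) (T.a (T.l 1) (T.l 204))) (T.c (T.c (T.l 204) (T.l 204)) (T.l 204)))))) (T.c (T.a (T.c (T.l 204) (T.l 204)) (T.l 204)) (T.a (T.c (T.l 204) (T.l 204)) (T.l 204))))) (T.a (T.b (T.b (T.l 1) (T.c (T.a (T.b (T.l 1) (T.c (T.l 204) (T.l 204))) (T.b (T.c (T.b (T.l 1) (T.l 204)) (T.b (T.l 1) (T.l 204))) (T.l 204))) (T.a (T.b (T.l 1) (T.l 204)) (T.b (T.c (T.b (T.l 1) (T.l 204)) (T.c (T.l 204) (T.l 204))) (T.l 204))))) (T.c (T.c (T.l 204) (T.l 204)) (T.c (T.l 204) (T.l 204)))) (T.b (T.b (T.a (T.l 1) (T.a (T.l 1) (T.c (T.b (T.l 1) (T.c (T.b (T.l 1) (T.l 204)) (T.b (T.l 1) (T.l 204)))) (T.b (T.l 1) (T.c (T.l 716) (T.l 204)))))) (T.c (T.a (T.c (T.a (T.l 204) (T.l 204)) (T.l 204)) (T.l 204)) (T.a (T.c (T.l 204) (T.l 204)) (T.l 204)))) (T.c (T.l 204) (T.l 204)))))) (T.a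 (T.a (T.a (T.b (T.c (T.b (T.b (T.l 1) (T.a (T.c (T.b (T.l 1) (T.l 204)) (T.a (T.l 204) (T.l 204))) (T.l 204))) (T.l 204)) (T.b (T.b (T.l 1) (T.a (T.c (T.l 204) (T.l 204)) (T.l 204))) (T.l 204))) (T.c (T.l 204) (T.l 204))) (T.c (T.b (T.b (T.b (T.c (T.b (T.a (T.l 1) (T.l 204)) (T.a (T.l 204) (T.l 204))) (T.b (T.a (T.l 1) (T.l 204)) (T.l 204))) (T.l 204)) (T.l 204)) (T.l 204)) (T.b (T.a (T.c (T.c (T.a (T.l 204) (T.l 204)) (T.l 204)) (T.l 204)) (T.l 204)) (T.l 204)))) (T.a (T.c (T.a (T.c (T.l 204) (T.l 204)) (T.l 204)) (T.a (T.l 204) (T.l 204))) (T.c (T.c (T.l 204) (T.l 204)) (T.l 204)))) (T.a (T.a (T.c (T.l 204) (T.l 204)) (T.c (T.l 204) (T.l 204))) (T.a (T.c (T.l 204) (T.l 204)) (T.c (T.l 204) (T.l 204))))))))))), by decide +kernel⟩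

def B012E_000_1_3_1 :
    ∃ t, chk3 (onCell 0 67108864 0 1073741824 67108864 67108864 (corTK [] false 3 c0N cB012E gN0q0 gN0q2 gN0q1 gN1q1 true false)) t 1 3 1 = true :=
  ⟨(T.b (T.b (T.b (T.a (T.a (T.b (T.c (T.a (T.b (T.l 204) (T.l 204)) (T.l 204)) (T.b (T.a (T.l 204) (T.l 204)) (T.l 204))) (T.c (T.l 204) (T.l 204))) (T.a (T.a (T.b (T.a (T.l 204) (T.c (T.b (T.l 204) (T.l 204)) (T.l 220))) (T.a (T.c (T.l 204) (T.l 204)) (T.c (T.l 204) (T.l 204)))) (T.b (T.a (T.c (T.b (T.l 204) (T.l 204)) (T.b (T.l 204) (T.l 204))) (T.c (T.b (T.l 204) (T.l 204)) (T.l 476))) (T.a (T.c (T.l 204) (T.l 204)) (T.c (T.l 204) (T.l 204))))) (T.a (T.b (T.c (T.a (T.l 476) (T.l 220)) (T.a (T.l 204) (T.l 204))) (T.c (T.b (T.l 204) (T.l 0)) (T.b (T.l 204) (T.l 0)))) (T.b (T.c (T.b (T.l 476) (T.l 204)) (T.b (T.l 204) (T.l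 204))) (T.c (T.l 16) (T.l 0)))))) (T.a (T.a (T.a (T.b (T.c (T.b (T.l 204) (T.l 204)) (T.b (T.l 204) (T.l 204))) (T.c (T.l 0) (T.l 0))) (T.b (T.c (T.b (T.l 204) (T.l 204)) (T.b (T.l 204) (T.l 204))) (T.c (T.l 0) (T.l 0)))) (T.a (T.b (T.c (T.b (T.l 204) (T.l 204)) (T.b (T.l 204) (T.l 204))) (T.c (T.l 476) (T.l 204))) (T.b (T.c (T.b (T.l 204) (T.l 204)) (T.b (T.l 204) (T.l 204))) (T.c (T.l 204) (T.l 204))))) (T.a (T.b (T.a (T.c (T.b (T.l 204) (T.l 204)) (T.l 476)) (T.c (T.l 476) (T.l 204))) (T.a (T.c (T.l 204) (T.l 204)) (T.c (T.l 204) (T.l 204)))) (T.b (T.a (T.c (T.l 476) (T.l 204)) (T.c (T.l 204) (T.l 204))) (T.a (T.l 476) (T.l 220)))))) (T.a (T.a (T.a (T.b (T.l 204) (T.l 0)) (T.a (T.l 0) (T.b (T.l 204) (T.l 0)))) (T.a (T.a (T.b (T.a (T.l 0) (T.l 0)) (T.c (T.l 0) (T.l 0))) (T.b (T.c (T.b (T.l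 0) (T.l 0)) (T.l 16)) (T.c (T.l 0) (T.l 0)))) (T.a (T.b (T.c (T.l 0) (T.l 0)) (T.c (T.l 0) (T.l 0))) (T.b (T.c (T.l 0) (T.l 0)) (T.c (T.l 0) (T.l 0)))))) (T.a (T.a (T.a (T.b (T.c (T.l 0) (T.l 0)) (T.c (T.l 0) (T.l 0))) (T.b (T.c (T.l 0) (T.l 0)) (T.c (T.l 0) (T.l 0)))) (T.a (T.b (T.c (T.l 0) (T.l 0)) (T.c (T.l 0) (T.l 0))) (T.b (T.c (T.l 0) (T.l 0)) (T.l 0)))) (T.a (T.b (T.a (T.l 16) (T.l 220)) (T.a (T.l 0) (T.l 0))) (T.b (T.c (T.l 272) (T.l 16)) (T.c (T.l 0) (T.l 0))))))) (T.a (T.a (T.a (T.b (T.l 0) (T.l 816)) (T.a (T.l 0) (T.b (T.a (T.l 816) (T.b (T.l 0) (T.l 0))) (T.a (T.b (T.l 0) (T.l 816)) (T.l 4))))) (T.a (T.a (T.b (T.a (T.b (T.l 0) (T.l 0)) (T.l 0)) (T.b (T.l 4) (T.l 4))) (T.b (T.a (T.l 16) (T.l 0)) (T.b (T.l 0) (T.l 0)))) (T.b (T.a (T.b (T.c (T.l 0) (T.l 0)) (T.l 0)) (T.b (T.c (T.l 0)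 (T.l 0)) (T.l 4))) (T.a (T.b (T.l 0) (T.l 0)) (T.b (T.l 0) (T.l 0)))))) (T.a (T.a (T.b (T.a (T.b (T.c (T.l 0) (T.l 0)) (T.l 0)) (T.b (T.l 0) (T.l 0))) (T.a (T.b (T.l 0) (T.l 0)) (T.b (T.l 0) (T.l 0)))) (T.b (T.a (T.b (T.l 0) (T.l 0)) (T.b (T.l 0) (T.l 0))) (T.a (T.b (T.l 0) (T.l 0)) (T.b (T.l 0) (T.l 0))))) (T.a (T.b (T.a (T.b (T.l 0) (T.l 0)) (T.b (T.l 0) (T.l 0))) (T.a (T.b (T.l 0) (T.l 0)) (T.l 16))) (T.b (T.b (T.c (T.l 0) (T.l 0)) (T.c (T.l 0) (T.l 0))) (T.b (T.l 16) (T.l 0))))))) (T.b (T.a (T.a (T.a (T.b (T.l 816) (T.l 816)) (T.a (T.a (T.l 816) (T.b (T.l 816) (T.b (T.l 816) (T.l 816)))) (T.a (T.b (T.b (T.l 816) (T.l 816)) (T.b (T.l 816) (T.l 816))) (T.b (T.l 816) (T.l 816))))) (T.a (T.a (T.b (T.b (T.l 0) (T.l 816)) (T.b (T.l 816) (T.l 816))) (T.b (T.b (T.l 0) (T.l 816)) (T.a (T.l 816) (T.l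 816)))) (T.a (T.b (T.b (T.l 816) (T.l 820)) (T.b (T.l 816) (T.l 816))) (T.b (T.b (T.l 816) (T.l 816)) (T.b (T.l 816) (T.l 816)))))) (T.a (T.a (T.a (T.b (T.b (T.l 816) (T.l 816)) (T.b (T.l 816) (T.l 816))) (T.b (T.b (T.l 816) (T.l 816)) (T.l 816))) (T.b (T.a (T.b (T.l 0) (T.l 816)) (T.b (T.l 0) (T.l 816))) (T.a (T.l 816) (T.l 816)))) (T.a (T.b (T.a (T.l 0) (T.l 0)) (T.b (T.l 0) (T.l 0))) (T.b (T.b (T.l 0) (T.l 0)) (T.b (T.l 0) (T.l 0)))))) (T.a (T.a (T.a (T.b (T.l 816) (T.b (T.l 816) (T.l 816))) (T.a (T.a (T.b (T.l 816) (T.l 816)) (T.b (T.b (T.l 816) (T.l 816)) (T.b (T.l 816) (T.l 816)))) (T.a (T.b (T.b (T.l 816) (T.l 816)) (T.b (T.l 816) (T.l 816))) (T.b (T.l 816) (T.l 816))))) (T.a (T.a (T.b (T.b (T.l 816) (T.l 816)) (T.b (T.l 816) (T.l 816))) (T.b (T.c (T.l 816) (T.l 816)) (T.a (T.l 816) (T.l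 816)))) (T.a (T.b (T.b (T.l 816) (T.l 816)) (T.b (T.l 816) (T.l 816))) (T.b (T.b (T.l 816) (T.l 816)) (T.b (T.l 816) (T.l 816)))))) (T.a (T.a (T.a (T.b (T.l 820) (T.l 816)) (T.b (T.l 816) (T.l 816))) (T.a (T.b (T.l 816) (T.l 816)) (T.b (T.l 816) (T.l 816)))) (T.a (T.b (T.b (T.l 816) (T.l 816)) (T.b (T.l 816) (T.l 816))) (T.b (T.b (T.l 0) (T.l 816)) (T.b (T.l 816) (T.l 816)))))))), by decide +kernel⟩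

theorem B012E_000 :
    ∃ t, chk3 (onCell 0 67108864 0 1073741824 67108864 67108864 (corTK [] false 3 c0N cB012E gN0q0 gN0q2 gN0q1 gN1q1 true false)) t 1 1 1 = true :=
  ex3_b B012E_000_1_2_1 B012E_000_1_3_1

def B012E_010 :
    ∃ t, chk3 (onCell 0 67108864 0 1073741824 67108864 67108864 (corTK [] false 3 c0N cB012E gN0q0 gN1q2 gN0q1 gN1q1 true false)) t 1 1 1 = true :=
  ⟨(T.b (T.l 1) (T.b (T.b (T.l 1) (T.b (T.l 1) (T.b (T.b (T.a (T.l 1) (T.a (T.b (T.l 1) (T.b (T.l 1) (T.a (T.c (T.l 884) (T.l 816)) (T.c (T.l 884) (T.l 816))))) (T.a (T.c (T.l 884) (T.l 820)) (T.c (T.l 884) (T.l 816))))) (T.a (T.a (T.l 816) (T.a (T.a (T.l 816) (T.c (T.l 816) (T.l 816))) (T.a (T.l 884) (T.l 816)))) (T.a (T.a (T.a (T.l 884) (T.l 884)) (T.a (T.l 884) (T.l 884))) (T.a (T.c (T.l 884) (T.l 816)) (T.c (T.l 884) (T.l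 816)))))) (T.a (T.a (T.l 816) (T.a (T.a (T.l 816) (T.c (T.l 816) (T.l 816))) (T.a (T.c (T.l 816) (T.l 816)) (T.l 884)))) (T.a (T.a (T.a (T.l 884) (T.c (T.l 816) (T.l 816))) (T.c (T.b (T.l 884) (T.l 884)) (T.b (T.l 820) (T.l 816)))) (T.a (T.a (T.l 884) (T.l 884)) (T.c (T.l 884) (T.l 820)))))))) (T.b (T.a (T.a (T.b (T.l 816) (T.l 816)) (T.a (T.a (T.b (T.b (T.l 884) (T.l 820)) (T.b (T.l 820) (T.l 820))) (T.b (T.c (T.l 820) (T.l 816)) (T.c (T.l 816) (T.l 816)))) (T.a (T.b (T.c (T.l 816) (T.l 816)) (T.b (T.l 820) (T.l 820))) (T.b (T.b (T.l 820) (T.l 820)) (T.b (T.l 816) (T.l 816)))))) (T.a (T.a (T.b (T.a (T.b (T.l 820) (T.l 816)) (T.b (T.l 820) (T.l 816))) (T.a (T.b (T.l 816) (T.l 816)) (T.b (T.l 816) (T.l 816)))) (T.b (T.a (T.c (T.b (T.l 816) (T.l 816)) (T.l 820)) (T.b (T.l 884) (T.l 820))) (T.c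 (T.b (T.l 820) (T.l 816)) (T.l 820)))) (T.b (T.a (T.b (T.c (T.l 884) (T.l 816)) (T.c (T.l 820) (T.l 816))) (T.b (T.c (T.l 820) (T.l 816)) (T.c (T.l 820) (T.l 816)))) (T.a (T.b (T.c (T.l 820) (T.l 816)) (T.l 820)) (T.b (T.c (T.l 816) (T.l 816)) (T.l 820)))))) (T.a (T.a (T.a (T.l 816) (T.a (T.l 816) (T.b (T.l 816) (T.a (T.l 816) (T.l 816))))) (T.a (T.a (T.b (T.b (T.l 820) (T.l 820)) (T.b (T.l 820) (T.l 820))) (T.c (T.b (T.l 816) (T.l 816)) (T.b (T.l 816) (T.l 816)))) (T.a (T.b (T.b (T.l 816) (T.l 816)) (T.b (T.l 816) (T.l 816))) (T.c (T.b (T.l 816) (T.l 816)) (T.l 820))))) (T.a (T.a (T.b (T.a (T.b (T.l 816) (T.l 816)) (T.l 820)) (T.a (T.l 820) (T.l 816))) (T.b (T.a (T.l 820) (T.l 820)) (T.a (T.l 820) (T.l 816)))) (T.a (T.b (T.b (T.l 820) (T.l 820)) (T.b (T.l 820) (T.l 816))) (T.b (T.b (T.l 816)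 (T.l 816)) (T.b (T.l 816) (T.l 816))))))))), by decide +kernel⟩

def B012E_020 :
    ∃ t, chk3 (onCell 0 67108864 0 1073741824 67108864 67108864 (corTK [[⟨0, 0, 1, 33554432⟩, ⟨1, 1, 0, 16777216⟩, ⟨2, 1, 1, 33554432⟩, ⟨0, 0, 0, 150994944⟩, ⟨0, 1, 0, 1023410176⟩, ⟨2, 1, 0, 150994944⟩, ⟨2, 2, 0, 1023410176⟩]] false 3 c0N cB012E gN0q0 gN2q2 gN0q1 gN1q1 true false)) t 1 1 1 = true :=
  ⟨(T.b (T.l 1) (T.b (T.l 1) (T.b (T.l 1) (T.b (T.l 1) (T.b (T.l 1) (T.b (T.l 1) (T.b (T.l 1) (T.b (T.l 1) (T.a (T.c (T.b (T.l 1) (T.a (T.a (T.l 816) (T.a (T.l 816) (T.l 880))) (T.c (T.b (T.l 1) (T.a (T.a (T.l 816) (T.l 816)) (T.a (T.l 880) (T.l 880)))) (T.b (T.l 1) (T.a (T.a (T.l 816) (T.l 816)) (T.a (T.l 816) (T.l 816))))))) (T.b (T.l 1) (T.a (T.a (T.l 816) (T.a (T.l 816) (T.l 816))) (T.c (T.b (T.l 1) (T.a (T.a (T.l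 816) (T.l 816)) (T.a (T.l 816) (T.l 816)))) (T.b (T.l 1) (T.a (T.a (T.l 816) (T.l 816)) (T.a (T.l 816) (T.l 816)))))))) (T.c (T.b (T.l 1) (T.a (T.c (T.b (T.l 1) (T.a (T.c (T.a (T.l 884) (T.l 884)) (T.a (T.l 880) (T.l 884))) (T.c (T.b (T.l 1) (T.a (T.a (T.l 884) (T.l 884)) (T.c (T.a (T.l 884) (T.a (T.l 884) (T.a (T.l 884) (T.a (T.l 884) (T.l 884))))) (T.a (T.l 884) (T.a (T.l 884) (T.a (T.l 884) (T.a (T.l 884) (T.l 884)))))))) (T.b (T.l 1) (T.a (T.a (T.l 884) (T.l 884)) (T.a (T.l 884) (T.a (T.l 884) (T.a (T.l 884) (T.c (T.l 884) (T.l 884)))))))))) (T.b (T.l 1) (T.a (T.a (T.l 880) (T.l 884)) (T.c (T.b (T.l 1) (T.a (T.a (T.l 880) (T.l 884)) (T.a (T.l 884) (T.a (T.l 884) (T.a (T.l 884) (T.l 884)))))) (T.a (T.l 884) (T.a (T.l 884) (T.a (T.l 884) (T.a (T.l 884) (T.l 884))))))))) (T.c (T.a (T.a (T.a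 (T.a (T.b (T.l 1) (T.a (T.a (T.c (T.c (T.c (T.l 884) (T.l 884)) (T.l 884)) (T.l 884)) (T.l 1024)) (T.l 1024))) (T.l 1024)) (T.l 1024)) (T.l 1024)) (T.l 1024)) (T.b (T.l 1) (T.a (T.c (T.b (T.l 1) (T.a (T.c (T.b (T.l 1) (T.a (T.c (T.b (T.l 1) (T.a (T.a (T.l 884) (T.l 884)) (T.a (T.l 884) (T.l 884)))) (T.b (T.l 1) (T.a (T.a (T.l 884) (T.l 884)) (T.l 884)))) (T.c (T.a (T.a (T.l 884) (T.l 1024)) (T.l 1024)) (T.b (T.l 1) (T.a (T.a (T.l 884) (T.l 884)) (T.a (T.l 884) (T.l 884))))))) (T.b (T.l 1) (T.a (T.a (T.a (T.l 884) (T.l 884)) (T.l 884)) (T.a (T.l 884) (T.l 884))))) (T.c (T.a (T.a (T.a (T.l 884) (T.l 1024)) (T.l 1024)) (T.l 1024)) (T.b (T.l 1) (T.a (T.c (T.a (T.l 884) (T.l 884)) (T.a (T.l 884) (T.l 884))) (T.c (T.a (T.l 884) (T.l 1024)) (T.a (T.l 884) (T.l 884)))))))) (T.b (T.l 1) (T.a (T.c (T.b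 (T.l 1) (T.a (T.a (T.l 884) (T.l 884)) (T.a (T.l 884) (T.l 884)))) (T.b (T.l 1) (T.a (T.a (T.l 884) (T.l 884)) (T.a (T.l 884) (T.l 884))))) (T.c (T.b (T.l 1) (T.a (T.a (T.l 884) (T.l 884)) (T.a (T.l 884) (T.l 884)))) (T.b (T.l 1) (T.a (T.a (T.l 884) (T.l 884)) (T.a (T.l 884) (T.l 884)))))))) (T.c (T.a (T.a (T.c (T.l 1024) (T.a (T.a (T.l 884) (T.l 1024)) (T.l 1024))) (T.l 1024)) (T.l 1024)) (T.b (T.l 1) (T.a (T.c (T.b (T.l 1) (T.a (T.a (T.l 884) (T.l 884)) (T.a (T.l 884) (T.l 884)))) (T.b (T.l 1) (T.a (T.a (T.l 884) (T.l 884)) (T.a (T.l 884) (T.l 884))))) (T.c (T.a (T.a (T.c (T.l 1024) (T.l 884)) (T.l 1024)) (T.l 1024)) (T.b (T.l 1) (T.a (T.a (T.l 884) (T.l 884)) (T.a (T.l 884) (T.l 884))))))))))))) (T.b (T.l 1) (T.a (T.c (T.b (T.l 1) (T.a (T.a (T.l 816) (T.l 816)) (T.c (T.a (T.l 884) (T.a (T.l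 884) (T.a (T.l 884) (T.l 884)))) (T.a (T.l 880) (T.a (T.l 816) (T.a (T.l 816) (T.l 884))))))) (T.b (T.l 1) (T.a (T.a (T.l 816) (T.l 816)) (T.a (T.l 884) (T.a (T.l 816) (T.a (T.l 816) (T.l 884))))))) (T.c (T.b (T.l 1) (T.a (T.c (T.b (T.l 1) (T.a (T.c (T.b (T.l 1) (T.a (T.a (T.l 884) (T.l 884)) (T.a (T.l 884) (T.l 884)))) (T.b (T.l 1) (T.a (T.a (T.l 884) (T.l 884)) (T.a (T.l 884) (T.l 884))))) (T.c (T.b (T.l 1) (T.a (T.a (T.l 884) (T.l 884)) (T.a (T.l 884) (T.l 884)))) (T.b (T.l 1) (T.a (T.a (T.l 884) (T.l 884)) (T.a (T.l 884) (T.l 884))))))) (T.b (T.l 1) (T.a (T.c (T.b (T.l 1) (T.a (T.a (T.l 884) (T.l 884)) (T.a (T.l 884) (T.l 884)))) (T.b (T.l 1) (T.a (T.a (T.l 884) (T.l 884)) (T.a (T.l 884) (T.l 884))))) (T.c (T.b (T.l 1) (T.a (T.a (T.l 884) (T.l 884)) (T.a (T.l 884) (T.l 884)))) (T.b (T.l 1)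 (T.a (T.a (T.l 884) (T.l 884)) (T.a (T.l 884) (T.l 884)))))))) (T.c (T.b (T.l 1) (T.a (T.c (T.b (T.l 1) (T.a (T.a (T.l 884) (T.l 884)) (T.a (T.l 884) (T.l 884)))) (T.b (T.l 1) (T.a (T.a (T.l 884) (T.l 884)) (T.a (T.l 884) (T.l 884))))) (T.c (T.b (T.l 1) (T.a (T.a (T.l 884) (T.l 884)) (T.a (T.l 884) (T.l 884)))) (T.b (T.l 1) (T.a (T.a (T.l 884) (T.l 884)) (T.a (T.l 884) (T.l 884))))))) (T.b (T.l 1) (T.a (T.c (T.b (T.l 1) (T.a (T.a (T.l 884) (T.l 884)) (T.a (T.l 884) (T.l 884)))) (T.b (T.l 1) (T.a (T.a (T.l 884) (T.l 884)) (T.a (T.l 884) (T.l 884))))) (T.c (T.b (T.l 1) (T.a (T.a (T.l 884) (T.l 884)) (T.a (T.l 884) (T.l 884)))) (T.b (T.l 1) (T.a (T.a (T.l 884) (T.l 884)) (T.a (T.l 884) (T.l 884)))))))))) (T.b (T.l 1) (T.a (T.c (T.b (T.l 1) (T.a (T.c (T.b (T.l 1) (T.a (T.a (T.l 884) (T.l 884)) (T.a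 (T.l 884) (T.l 884)))) (T.b (T.l 1) (T.a (T.a (T.l 884) (T.l 884)) (T.a (T.l 884) (T.l 884))))) (T.c (T.b (T.l 1) (T.a (T.a (T.l 884) (T.l 884)) (T.a (T.l 884) (T.l 884)))) (T.b (T.l 1) (T.a (T.a (T.l 884) (T.l 884)) (T.a (T.l 884) (T.l 884))))))) (T.b (T.l 1) (T.a (T.c (T.a (T.a (T.l 816) (T.l 816)) (T.l 884)) (T.a (T.a (T.l 816) (T.l 816)) (T.l 884))) (T.a (T.c (T.l 884) (T.l 884)) (T.l 884))))) (T.c (T.b (T.l 1) (T.a (T.c (T.b (T.l 1) (T.a (T.a (T.l 884) (T.l 884)) (T.a (T.l 884) (T.l 884)))) (T.a (T.a (T.l 884) (T.l 884)) (T.l 884))) (T.c (T.b (T.l 1) (T.a (T.a (T.l 884) (T.l 884)) (T.a (T.l 884) (T.l 884)))) (T.a (T.l 884) (T.l 884))))) (T.b (T.l 1) (T.a (T.a (T.l 884) (T.l 884)) (T.a (T.l 884) (T.l 884)))))))))))))))))))), by decide +kernel⟩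

def B012E_100 :
    ∃ t, chk3 (onCell 0 67108864 0 1073741824 67108864 67108864 (corTK [] false 3 c0N cB012E gN1q0 gN0q2 gN0q1 gN1q1 true false)) t 1 1 1 = true :=
  ⟨(T.b (T.b (T.b (T.l 1) (T.b (T.l 1) (T.a (T.a (T.a (T.l 816) (T.l 816)) (T.l 816)) (T.a (T.l 816) (T.l 816))))) (T.b (T.a (T.a (T.a (T.l 816) (T.l 816)) (T.b (T.l 816) (T.l 816))) (T.b (T.l 816) (T.l 816))) (T.a (T.a (T.a (T.l 816) (T.l 816)) (T.l 0)) (T.b (T.l 816) (T.l 816))))) (T.b (T.a (T.a (T.a (T.l 816) (T.l 0)) (T.b (T.l 816) (T.l 0))) (T.a (T.b (T.l 816) (T.l 816)) (T.l 816))) (T.b (T.a (T.a (T.a (T.l 816) (T.l 816)) (T.l 816)) (T.b (T.l 816) (T.l 816))) (T.a (T.a (T.a (T.l 816) (T.l 816)) (T.l 816)) (T.b (T.l 816) (T.l 816)))))), by decide +kernel⟩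

def B012E_110 :
    ∃ t, chk3 (onCell 0 67108864 0 1073741824 67108864 67108864 (corTK [] false 3 c0N cB012E gN1q0 gN1q2 gN0q1 gN1q1 true false)) t 1 1 1 = true :=
  ⟨(T.b (T.b (T.l 1) (T.b (T.a (T.a (T.a (T.l 816) (T.l 816)) (T.l 816)) (T.l 816)) (T.a (T.a (T.a (T.l 816) (T.l 816)) (T.l 816)) (T.l 816)))) (T.b (T.a (T.a (T.a (T.l 816) (T.l 816)) (T.b (T.l 816) (T.l 816))) (T.b (T.l 816) (T.l 816))) (T.b (T.a (T.a (T.a (T.l 816) (T.l 816)) (T.l 816)) (T.l 0)) (T.a (T.a (T.a (T.l 816) (T.l 816)) (T.l 816)) (T.l 816))))), by decide +kernel⟩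

def B012E_120 :
    ∃ t, chk3 (onCell 0 67108864 0 1073741824 67108864 67108864 (corTK [] false 3 c0N cB012E gN1q0 gN2q2 gN0q1 gN1q1 true false)) t 1 1 1 = true :=
  ⟨(T.b (T.b (T.l 1) (T.b (T.l 1) (T.a (T.a (T.a (T.l 816) (T.l 816)) (T.l 816)) (T.l 816)))) (T.b (T.b (T.a (T.a (T.a (T.l 816) (T.l 816)) (T.l 816)) (T.l 816)) (T.b (T.a (T.a (T.a (T.l 816) (T.l 816)) (T.l 816)) (T.l 816)) (T.b (T.a (T.a (T.a (T.l 816) (T.l 816)) (T.l 816)) (T.l 816)) (T.a (T.a (T.a (T.l 816) (T.l 816)) (T.l 816)) (T.a (T.l 816) (T.l 816)))))) (T.b (T.b (T.b (T.a (T.a (T.a (T.l 816) (T.l 816)) (T.l 816)) (T.a (T.l 816) (T.l 816))) (T.a (T.a (T.a (T.l 816) (T.l 816)) (T.l 816)) (T.a (T.l 816) (T.l 816)))) (T.b (T.a (T.a (T.a (T.l 816) (T.l 816)) (T.l 816)) (T.a (T.l 816) (T.l 816))) (T.a (T.a (T.a (T.l 816) (T.l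 816)) (T.l 816)) (T.a (T.l 816) (T.l 816))))) (T.b (T.b (T.a (T.a (T.a (T.l 816) (T.l 816)) (T.l 816)) (T.a (T.l 816) (T.l 816))) (T.a (T.a (T.a (T.l 816) (T.l 816)) (T.l 816)) (T.a (T.l 816) (T.l 816)))) (T.b (T.a (T.a (T.a (T.l 816) (T.l 816)) (T.l 816)) (T.a (T.l 816) (T.l 816))) (T.a (T.a (T.a (T.l 816) (T.l 816)) (T.l 816)) (T.a (T.l 0) (T.l 816)))))))), by decide +kernel⟩

def B012E_200 :
    ∃ t, chk3 (onCell 0 67108864 0 1073741824 67108864 67108864 (corTK [] false 3 c0N cB012E gN2q0 gN0q2 gN0q1 gN1q1 true false)) t 1 1 1 = true :=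
  ⟨(T.b (T.b (T.b (T.a (T.a (T.a (T.l 816) (T.l 816)) (T.l 816)) (T.l 816)) (T.a (T.a (T.a (T.l 816) (T.l 816)) (T.l 816)) (T.b (T.l 816) (T.l 816)))) (T.b (T.a (T.a (T.a (T.l 816) (T.l 816)) (T.l 816)) (T.b (T.l 816) (T.l 816))) (T.a (T.a (T.a (T.l 816) (T.l 816)) (T.l 816)) (T.l 816)))) (T.b (T.a (T.a (T.a (T.l 816) (T.l 816)) (T.b (T.l 816) (T.l 816))) (T.b (T.l 816) (T.l 816))) (T.b (T.a (T.a (T.a (T.l 816) (T.l 816)) (T.l 816)) (T.l 0)) (T.a (T.a (T.a (T.l 816) (T.l 816)) (T.l 816)) (T.l 816))))), by decide +kernel⟩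

def B012E_210 :
    ∃ t, chk3 (onCell 0 67108864 0 1073741824 67108864 67108864 (corTK [] false 3 c0N cB012E gN2q0 gN1q2 gN0q1 gN1q1 true false)) t 1 1 1 = true :=
  ⟨(T.b (T.b (T.b (T.a (T.a (T.a (T.l 816) (T.l 816)) (T.l 816)) (T.l 816)) (T.a (T.a (T.a (T.l 816) (T.l 816)) (T.l 816)) (T.l 816))) (T.a (T.a (T.a (T.l 816) (T.l 816)) (T.b (T.l 816) (T.l 816))) (T.b (T.l 816) (T.l 816)))) (T.b (T.a (T.a (T.a (T.l 816) (T.l 816)) (T.l 0)) (T.b (T.l 816) (T.l 816))) (T.b (T.a (T.a (T.a (T.l 816) (T.l 816)) (T.l 816)) (T.l 816)) (T.a (T.a (T.a (T.l 816) (T.l 816)) (T.l 816)) (T.l 816))))), by decide +kernel⟩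

def B012E_220 :
    ∃ t, chk3 (onCell 0 67108864 0 1073741824 67108864 67108864 (corTK [] false 3 c0N cB012E gN2q0 gN2q2 gN0q1 gN1q1 true false)) t 1 1 1 = true :=
  ⟨(T.b (T.b (T.b (T.a (T.a (T.a (T.l 816) (T.l 816)) (T.l 816)) (T.l 816)) (T.a (T.a (T.a (T.l 816) (T.l 816)) (T.l 816)) (T.l 816))) (T.a (T.a (T.a (T.l 816) (T.l 816)) (T.l 816)) (T.l 816))) (T.b (T.b (T.a (T.a (T.a (T.l 816) (T.l 816)) (T.l 816)) (T.l 816)) (T.b (T.a (T.a (T.a (T.l 816) (T.l 816)) (T.l 816)) (T.l 816)) (T.a (T.a (T.a (T.l 816) (T.l 816)) (T.l 816)) (T.a (T.l 816) (T.l 816))))) (T.b (T.b (T.a (T.a (T.a (T.l 816) (T.l 816)) (T.l 816)) (T.a (T.l 816) (T.l 816))) (T.a (T.a (T.a (T.l 816) (T.l 816)) (T.l 816)) (T.a (T.l 816) (T.l 816)))) (T.b (T.a (T.a (T.a (T.l 816) (T.l 816)) (T.l 816)) (T.a (T.l 816) (T.l 816)))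 (T.a (T.a (T.a (T.l 816) (T.l 816)) (T.l 816)) (T.a (T.l 0) (T.l 816))))))), by decide +kernel⟩

def B012L_040 :
    ∃ t, chk3 (onCell 0 67108864 0 1073741824 67108864 67108864 (corTK [] false 3 c0N cB012L gN0q0 gN4q2 gN0q1 gN1q1 true false)) t 1 1 1 = true :=
  ⟨(T.l 1), by decide +kernel⟩

def B012L_140 :
    ∃ t, chk3 (onCell 0 67108864 0 1073741824 67108864 67108864 (corTK [] false 3 c0N cB012L gN1q0 gN4q2 gN0q1 gN1q1 true false)) t 1 1 1 = true :=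
  ⟨(T.l 1), by decide +kernel⟩

def B012L_240 :
    ∃ t, chk3 (onCell 0 67108864 0 1073741824 67108864 67108864 (corTK [] false 3 c0N cB012L gN2q0 gN4q2 gN0q1 gN1q1 true false)) t 1 1 1 = true :=
  ⟨(T.l 1), by decide +kernel⟩

end Pool.Agent.Strip051.G.I1_16_1_8.Tab.CN
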