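import Pool.Agent.Strip051.G.I1_16_1_8.Tab
import Pool.Agent.Strip051.PB.RowK

/-! # Certificates N5 (generated) -/

set_option linter.all false
set_option maxRecDepth 100000

namespace Pool.Agent.Strip051.G.I1_16_1_8.Tab.C.NB00

open Pool.Agent.Strip051.PB Pool.Agent.Strip051.PB.T
open Pool.Agent.Strip051.G.I1_16_1_8.Tab

noncomputable def cut_pm_102 : Cut := Cut.of [[⟨0, 1, 0, 67108864⟩, ⟨1, 0, 0, 67108864⟩, ⟨2, 1, 0, 67108864⟩]]

noncomputable def f_pm_102 : ℕ → ℕ → ℕ → ℕ → Bool := onCell 536870912 536870912 0 536870912 67108864 67108864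
    (rowNK 3 0 false true false .npp 1 0 2 (qsf 536870912 536870912 0 536870912 0) ndN0q1 ndN0q2 pcN0 cut_pm_102 Ext.none)

def k0_pm_102 : ∃ t, chk3 f_pm_102 t 2 1 1 = true :=
  ⟨(b (a (b (l 2) (a (l 2) (b (l 2) (l 17283752)))) (b (a (b (a (b (l 3) (l 123111384791)) (l 3)) (a (b (l 81772402311) (l 16878672)) (b (l 126332609559) (b (l 95730948439) (l 16851432))))) (b (l 3) (a (b (l 3) (l 127943264791)) (l 3)))) (a (b (a (l 17098976) (b (l 16860200) (l 16978328))) (l 17393216)) (b (a (b (a (l 50096905719) (l 102173400263)) (l 16881016)) (b (a (l 125258819271) (l 3)) (a (b (l 87141001239) (l 16825624)) (a (l 102710246823) (l 123111360503))))) (a (b (l 16983472) (l 17085832)) (b (a (l 16926304) (l 16848840)) (l 17048576))))))) (a (b (a (l 2) (b (l 17449232) (l 17693744))) (b (a (l 18030032) (l 17971568)) (a (b (l 18262336) (l 18392736)) (b (l 18227664) (l 18379232))))) (b (a (b (l 17350824) (l 17674408)) (b (a (l 17239824) (l 17274184)) (l 17599712))) (b (a (b (l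 17745552) (l 17940168)) (a (l 17789440) (l 17830280))) (a (b (l 18121784) (l 18289856)) (b (l 17953384) (l 18133664))))))), by decide +kernel⟩

def k1_pm_102 : ∃ t, chk3 f_pm_102 t 3 2 1 = true :=
  ⟨(a (b (l 3) (a (b (a (b (l 3) (a (l 122574446983) (l 3))) (l 3)) (a (b (a (b (l 101636500119) (l 16816904)) (b (l 113447611767) (l 108615845543))) (a (l 16879928) (l 16829200))) (b (a (l 127406284487) (l 3)) (a (b (b (l 123111314535) (l 111300176023)) (l 16832008)) (b (l 3) (b (l 116131973527) (a (l 16837392) (l 102710178791)))))))) (l 3))) (l 3)), by decide +kernel⟩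

def k2_pm_102 : ∃ t, chk3 f_pm_102 t 6 3 1 = true :=
  ⟨(b (a (b (a (b (l 17131624) (l 17099480)) (b (a (l 16892536) (b (a (l 16813408) (l 80698523287)) (l 16856504))) (a (l 17011024) (l 17031056)))) (a (l 17209912) (b (l 17100056) (l 17221328)))) (b (a (b (a (a (b (b (l 105931405015) (a (l 16816592) (l 101099557911))) (l 16804904)) (b (l 113447601927) (l 96804648263))) (b (l 3) (a (b (l 107542018455) (a (b (l 95194004871) (l 16817656)) (l 102173303783))) (l 3)))) (b (a (l 16848632) (a (b (l 16828968) (l 16810640)) (b (a (l 101636445319) (l 101099562679)) (l 16825120)))) (a (l 16910400) (l 16844632)))) (b (l 3) (a (a (a (b (l 114521373335) (l 16814240)) (b (l 113984472263) (l 88214705319))) (b (l 3) (b (l 110763255799) (a (l 16822600) (b (l 100025816007) (l 104320792167)))))) (b (l 3) (a (l 124721895479) (l 3)))))) (a (b (b (a (l 16972360) (l 16860480)) (l 17105392)) (a (l 17127992) (l 17060776))) (a (b (b (a (l 16826496) (l 16809688)) (l 16976792)) (b (l 16957336)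 (l 17021896))) (b (b (a (b (a (b (l 102710182167) (l 16810792)) (l 106468282551)) (l 16818776)) (b (l 115058212471) (a (b (l 103247056967) (l 16814992)) (l 107542025927)))) (a (l 16835856) (b (b (l 89288427095) (l 16809584)) (l 16813064)))) (b (a (l 16901000) (l 16904192)) (l 16947264))))))) (b (a (b (l 17647480) (a (l 17586800) (l 17479120))) (a (b (l 17221392) (l 17365160)) (b (a (l 17118976) (l 16982848)) (l 17339456)))) (b (a (l 17955576) (a (l 17501016) (a (l 17386288) (l 17314264)))) (a (a (l 17972176) (l 17844176)) (a (l 17700896) (l 17774424)))))), by decide +kernel⟩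

def k3_pm_102 : ∃ t, chk3 f_pm_102 t 7 6 1 = true :=
  ⟨(a (b (l 3) (a (b (a (b (l 3) (a (b (a (b (l 102710166695) (l 102710198583)) (l 109152620103)) (a (l 16804288) (b (l 103783932359) (l 16810720)))) (b (l 3) (a (b (l 103247037927) (a (l 102173309783) (l 98415197671))) (l 3))))) (l 3)) (a (b (a (b (l 16806072) (l 16839112)) (b (a (l 88214675639) (b (l 104320795623) (a (l 16812184) (b (l 103783903559) (l 16795504))))) (l 16809136))) (a (l 16888776) (b (l 16821440) (l 16865280)))) (b (a (b (a (b (l 3) (l 104857667111)) (l 3)) (a (a (l 87677797399) (b (l 100562696359) (l 16810256))) (b (l 107005141127) (a (b (l 103783900695) (l 16793608)) (l 101099558087))))) (l 3)) (a (b (a (l 16801144) (b (l 87677791735) (l 16788760))) (l 16824280)) (b (a (b (a (b (l 100025806071) (a (l 16794576) (l 94657105207))) (l 100562677015)) (a (l 16808448) (a (l 16803448) (b (l 103247030119) (l 16793704))))) (a (b (l 3) (a (b (l 94657097367) (l 90899007831)) (l 97878321607))) (l 3)))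 (a (l 16792984) (b (a (b (l 16803760) (l 16808288)) (a (b (l 103783899703) (l 16792872)) (b (l 95193967255) (l 90899006855)))) (l 16803208)))))))) (b (l 3) (a (b (l 3) (a (b (l 3) (a (b (a (b (l 3) (l 97878320391)) (l 3)) (a (b (a (l 16794368) (l 104320769303)) (l 16811152)) (b (l 96267707607) (a (l 90899005719) (l 99488932119))))) (b (l 3) (a (b (l 3) (l 96267707271)) (l 3))))) (l 3))) (l 3))))) (l 3)), by decide +kernel⟩

def k4_pm_102 : ∃ t, chk3 f_pm_102 t 28 14 1 = true :=
  ⟨(b (a (b (l 16872408) (l 17001928)) (b (a (l 16811752) (b (l 16816160) (l 16828992))) (a (l 16941896) (l 16900696)))) (a (l 17101896) (b (l 16988856) (l 17056296)))), by decide +kernel⟩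

def k5_pm_102 : ∃ t, chk3 f_pm_102 t 58 28 1 = true :=
  ⟨(b (a (b (a (b (c (l 16806208) (l 16805088)) (l 16792816)) (b (a (a (b (c (l 100025802215) (l 105931379191)) (l 16791288)) (b (l 96804577847) (l 90899004615))) (b (l 3) (c (l 98415190519) (a (l 103247025751) (l 89825254103))))) (a (l 16805208) (b (a (l 16792832) (a (l 92509615287) (l 102710155607))) (l 16809632))))) (a (l 16807768) (l 16796840))) (b (a (b (l 3) (a (b (c (l 97878319623) (l 99488939959)) (a (c (l 90362133671) (l 91972744359)) (b (l 96267706007) (l 107005121895)))) (a (b (l 3) (l 91435867303)) (l 3)))) (l 3)) (a (b (a (b (l 16800680) (l 16805216)) (a (b (b (l 103783897143) (l 16799712)) (l 16789848)) (b (c (l 96804577111) (l 98415192119)) (c (l 90899003511) (l 91972743415))))) (l 16804744)) (b (a (b (l 3) (c (a (l 98952064343) (l 92509609463)) (a (b (l 97341445223) (l 109689473751)) (l 93583348487)))) (l 3)) (a (b (a (l 16801920) (b (a (l 99488931991) (l 100025800919)) (l 16799040))) (l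 16808248)) (a (b (c (l 97341446855) (b (l 3) (l 102173282183))) (c (l 91435873079) (b (l 95193965207) (l 16790944)))) (b (l 3) (b (l 96804574647) (a (l 16794440) (l 104857637303)))))))))) (a (b (l 16799624) (l 16875592)) (b (a (l 16809336) (b (b (l 16802056) (l 16804424)) (l 16796392))) (a (l 16843664) (l 16801400))))), by decide +kernel⟩

def k6_pm_102 : ∃ t, chk3 f_pm_102 t 59 28 1 = true :=
  ⟨(b (a (b (l 3) (a (b (l 3) (a (a (b (l 3) (b (l 3) (l 93046477767))) (l 3)) (l 3))) (l 3))) (l 3)) (a (a (b (b (b (a (a (b (a (l 98952059879) (l 99488928263)) (l 16798080)) (c (l 96804573879) (b (l 3) (l 101636409287)))) (l 3)) (b (a (c (l 90899000423) (a (l 16789200) (l 94657092295))) (a (l 96804572279) (l 3))) (a (l 16798928) (a (a (l 16793192) (l 104857634855)) (l 93046475399))))) (a (l 16801864) (b (a (l 16799880) (b (a (l 97341445271) (l 99488925879)) (l 16796864))) (l 16806072)))) (l 16800936)) (b (b (l 3) (a (a (b (c (l 97341442311) (b (l 88751506119) (l 101636407015)))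 (c (l 90898997623) (b (l 93583348503) (l 16788672)))) (b (l 3) (b (l 96804569927) (a (l 16792008) (l 104857632519))))) (a (a (b (l 3) (l 93583344119)) (l 3)) (l 3)))) (b (a (l 16799072) (a (b (b (a (l 95730830647) (l 99488923575)) (l 16795720)) (l 16806792)) (b (c (l 98952052663) (b (l 90898987607) (l 101636404807))) (a (l 16799120) (b (l 95193958791) (l 16788976)))))) (l 16798488)))) (b (l 3) (a (b (a (b (l 3) (b (a (l 96267696759) (l 3)) (a (a (l 16790912) (l 104320759383)) (l 93583341751)))) (l 3)) (a (a (l 16797216) (b (b (a (l 94657087127) (l 98952050439)) (l 16794656)) (l 16805752))) (a (b (c (l 100562668343) (b (l 3) (l 101099534407))) (b (l 94120216727) (l 16787000))) (b (l 3) (b (l 96267694567) (a (l 16795128) (l 103783886359))))))) (b (l 3) (a (a (a (b (l 3) (l 97341441399)) (l 3)) (l 3)) (l 3))))))), by decide +kernel⟩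

def k7_pm_102 : ∃ t, chk3 f_pm_102 t 29 29 1 = true :=
  ⟨(a (b (a (l 16926824) (b (l 16867552) (l 16901992))) (l 16911424)) (a (b (b (a (l 16835560) (l 16813976)) (l 16838352)) (l 16868944)) (b (b (a (b (a (l 16789016) (l 16797016)) (l 16800872)) (b (b (a (a (b (a (l 93583343591) (l 98415177399)) (l 16793672)) (a (c (l 98415177479) (l 101636403495)) (l 98415182199))) (l 3)) (b (a (a (l 16785336) (a (l 16788200) (l 93583342615))) (a (l 97878305191) (l 3))) (a (l 16794656) (a (a (l 16794184) (l 102710142519)) (l 97341433927))))) (a (l 16805424) (a (l 16795328) (b (b (a (l 94657083495) (l 97341433527)) (l 93046470391)) (l 16793424)))))) (a (l 16805848) (a (l 16831376) (l 16809880)))) (b (l 16808432) (l 16884720))))), by decide +kernel⟩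

def k8_pm_102 : ∃ t, chk3 f_pm_102 t 30 28 1 = true :=
  ⟨(l 3), by decide +kernel⟩

def k9_pm_102 : ∃ t, chk3 f_pm_102 t 60 58 1 = true :=
  ⟨(a (b (a (b (l 3) (a (a (b (b (l 3) (a (l 102173273271) (l 91972724055))) (a (l 16796256) (b (l 93046469847) (l 16786144)))) (b (l 3) (b (l 99488921143) (a (l 16792000) (l 102173272311))))) (a (b (l 3) (b (l 3) (l 99488920935))) (l 3)))) (l 3)) (a (b (a (c (l 16795432) (l 16794152)) (a (b (b (a (a (l 16790976) (l 94120210007)) (l 96267689719)) (l 93046468887)) (l 16792624)) (b (b (l 3) (a (l 101099532199) (l 94120205703))) (a (l 16790216) (a (l 90898984807) (b (l 103783880967) (l 16785840))))))) (l 16794080)) (a (a (b (b (l 3) (b (l 101099531975) (a (l 93583338167) (l 100562660375)))) (l 16792456)) (b (b (l 3) (b (l 3) (l 102710142423))) (b (c (b (l 100562660071) (l 91972725703)) (b (a (l 107541974839) (l 97878299719)) (l 91435853783))) (l 16791904)))) (b (l 3) (a (b (b (l 3) (a (l 100562659495) (l 96267687479))) (b (a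 (l 16791040) (a (l 92509594535) (l 102173266535))) (l 16794184))) (b (l 3) (b (l 102710143015) (a (l 93046465751) (l 100025787703))))))))) (b (l 3) (a (b (l 3) (a (a (b (l 3) (b (l 3) (l 107541979415))) (l 3)) (l 3))) (l 3)))), by decide +kernel⟩

def k10_pm_102 : ∃ t, chk3 f_pm_102 t 60 59 1 = true :=
  ⟨(b (a (a (b (l 16787768) (l 16825992)) (b (a (l 16792072) (b (l 16791576) (l 16785232))) (l 16803752))) (a (a (b (b (a (a (b (a (l 91972723207) (l 101099529127)) (l 16784344)) (b (l 98415169639) (l 91435851991))) (a (b (l 3) (l 100562657767)) (l 3))) (b (a (l 16792760) (a (l 16790408) (a (l 91972722503) (l 100025786487)))) (l 16791664))) (l 16786968)) (b (b (l 3) (a (a (b (l 99488915847) (a (l 16790752) (l 91435851559))) (b (l 3) (l 101099527831))) (l 3))) (a (a (l 16790448) (c (l 16790416) (l 90362111831))) (b (a (b (a (l 91435851223) (l 99488909527)) (l 16789016)) (b (l 100562656871) (a (l 16787840) (l 103247009959)))) (l 16790712))))) (b (l 3) (a (b (a (a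 (b (l 3) (l 101636397927)) (l 3)) (l 3)) (a (b (a (l 16788856) (a (l 102710138711) (l 99488908727))) (l 16787792)) (a (b (l 102173268999) (a (l 90898979287) (l 102173267447))) (b (l 3) (l 102173268039))))) (l 3))))) (b (a (l 16800640) (a (a (l 16804216) (l 16792976)) (b (b (a (l 91972722631) (a (a (l 102710138071) (l 104857623415)) (l 3))) (a (l 16790032) (b (a (a (l 16784048) (l 101099525399)) (l 3)) (a (l 16788736) (l 104857621815))))) (a (l 16786000) (b (a (l 16791728) (a (a (l 16788904) (l 90898978471)) (l 103783879159))) (l 16789360)))))) (a (l 16849272) (a (l 16794832) (a (l 16819880) (l 16790216)))))), by decide +kernel⟩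

def k11_pm_102 : ∃ t, chk3 f_pm_102 t 61 29 1 = true :=
  ⟨(b (l 3) (a (b (l 3) (a (b (b (l 3) (a (b (l 128479939271) (a (a (a (l 90898978199) (l 101636395191)) (l 104320750311)) (l 3))) (l 3))) (a (b (a (a (l 16791000) (b (a (l 16788704) (l 90898977607)) (l 16791432))) (a (b (l 104320749351) (l 16788120)) (b (l 3) (a (l 90898977335) (l 102173265431))))) (l 16788408)) (a (b (c (l 125795586151) (l 126332455895)) (a (b (b (l 92509589303) (l 16788264)) (l 16791256)) (b (a (l 102710136007) (l 102710136535)) (l 16786952)))) (b (l 3) (a (b (l 3) (b (l 101099523271) (l 90898975927))) (l 124721840743)))))) (l 3))) (l 3))), by decide +kernel⟩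

def k12_pm_102 : ∃ t, chk3 f_pm_102 t 31 14 1 = true :=
  ⟨(l 3), by decide +kernel⟩

def k13_pm_102 : ∃ t, chk3 f_pm_102 t 14 15 1 = true :=
  ⟨(b (a (b (l 17341200) (l 17379576)) (b (a (l 17042240) (a (l 16979048) (l 16935928))) (a (l 17118496) (l 17067008)))) (b (a (l 17322648) (a (l 17180568) (l 17174912))) (a (l 17413040) (a (l 17274696) (l 17181600))))), by decide +kernel⟩

def k14_pm_102 : ∃ t, chk3 f_pm_102 t 60 60 1 = true :=
  ⟨(a (b (l 16853992) (l 16909024)) (b (a (l 16820560) (b (l 16789464) (l 16827576))) (l 16822488))), by decide +kernel⟩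

def k15_pm_102 : ∃ t, chk3 f_pm_102 t 122 60 1 = true :=
  ⟨(a (b (b (a (l 16793432) (b (b (b (a (l 16790000) (a (l 16787656) (l 102710135079))) (l 16787824)) (l 16790376)) (l 16786328))) (a (l 16810584) (l 16820168))) (b (l 16821992) (l 16839040))) (b (a (b (b (a (b (c (l 118816261015) (l 119890004391)) (a (c (l 90362103575) (l 90898974023)) (b (l 102173264423) (l 92509588839)))) (l 129016808807)) (b (a (l 16785800) (b (a (l 102710134503) (l 3)) (a (l 16785336) (l 103247005527)))) (c (l 89825234487) (l 90362105543)))) (b (l 16788728) (l 16813024))) (b (a (b (l 3) (a (b (l 3) (a (l 104320746551) (l 105394488999))) (l 3))) (l 3)) (b (b (a (a (l 16786656) (b (l 103783875719) (l 90898973527))) (c (l 123648099975) (l 124184964679))) (a (l 16789912) (a (b (l 104320745575) (l 16786840)) (b (l 108078843575) (l 104320745895))))) (a (l 16783456) (l 85530266039))))) (b (a (l 16783912) (l 16796048)) (l 16795256)))), by decide +kernel⟩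

def k16_pm_102 : ∃ t, chk3 f_pm_102 t 123 60 1 = true :=
  ⟨(b (a (b (l 3) (a (b (l 3) (b (a (b (a (l 104857616951) (l 3)) (a (l 90898973847) (l 107005101191))) (l 3)) (b (a (a (l 16786288) (l 104320745127)) (l 3)) (a (l 16785784) (a (l 105931358087) (l 3)))))) (l 3))) (l 3)) (a (b (a (b (a (l 16791016) (a (l 90362102871) (b (b (l 106468229303) (c (l 91972713543) (l 91972712967))) (l 16785488)))) (l 16786200)) (a (b (b (l 127943064775) (a (b (l 105394486471) (l 16784064)) (l 118816257223))) (c (l 86067135831) (l 82845909623))) (b (l 3) (a (b (a (b (l 103247003191) (l 90898970711)) (l 116668772103)) (l 16785448)) (b (l 3) (b (c (l 105394486327) (l 108615711095)) (l 90898971111))))))) (a (a (l 16801888) (l 16817104)) (b (c (l 16784680) (l 16784352)) (l 16802224)))) (b (a (a (a (b (l 3) (b (l 3) (l 122037481911))) (l 3)) (l 3)) (l 3)) (a (a (b (b (a (b (c (l 103783872583) (l 94120195671)) (l 16785688)) (a (b (l 107541964951) (l 91435841351)) (l 120426869079)))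 (l 90362100503)) (l 16783064)) (b (b (l 3) (a (b (c (l 115058157095) (l 116668769287)) (c (l 90898969703) (l 91435840359))) (l 125258709143))) (a (l 16783968) (a (l 90362100455) (b (b (l 105394485303) (l 16783552)) (l 16789224)))))) (b (l 3) (b (a (a (c (l 119353126583) (l 120963736023)) (l 3)) (l 3)) (a (a (a (l 16784952) (l 90898970263)) (b (l 119353126375) (l 6))) (l 6)))))))), by decide +kernel⟩

def k17_pm_102 : ∃ t, chk3 f_pm_102 t 31 60 1 = true :=
  ⟨(l 3), by decide +kernel⟩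

def k18_pm_102 : ∃ t, chk3 f_pm_102 t 15 61 1 = true :=
  ⟨(a (a (a (l 16959728) (b (l 16898352) (l 16932016))) (a (b (a (l 16864504) (l 16820744)) (l 16865896)) (b (a (b (a (l 16816032) (l 16783536)) (l 16827232)) (b (b (a (l 16788688) (a (a (l 16781448) (l 6)) (l 6))) (a (l 16797192) (l 6))) (l 6))) (a (l 16852560) (l 6))))) (l 6)), by decide +kernel⟩

def k19_pm_102 : ∃ t, chk3 f_pm_102 t 15 31 1 = true :=
  ⟨(a (b (b (a (l 17056024) (a (l 16920328) (l 6))) (a (l 17062808) (l 6))) (a (b (l 17062544) (l 17104328)) (l 6))) (l 6)), by decide +kernel⟩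

theorem s20_pm_102 : ∃ t, chk3 f_pm_102 t 61 60 1 = true := ex3_a k15_pm_102 k16_pm_102

theorem s21_pm_102 : ∃ t, chk3 f_pm_102 t 30 60 1 = true := ex3_a k14_pm_102 s20_pm_102

theorem s22_pm_102 : ∃ t, chk3 f_pm_102 t 15 60 1 = true := ex3_a s21_pm_102 k17_pm_102

theorem s23_pm_102 : ∃ t, chk3 f_pm_102 t 15 30 1 = true := ex3_b s22_pm_102 k18_pm_102

theorem s24_pm_102 : ∃ t, chk3 f_pm_102 t 15 15 1 = true := ex3_b s23_pm_102 k19_pm_102

theorem s25_pm_102 : ∃ t, chk3 f_pm_102 t 7 15 1 = true := ex3_a k13_pm_102 s24_pm_102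

theorem s26_pm_102 : ∃ t, chk3 f_pm_102 t 60 29 1 = true := ex3_b k9_pm_102 k10_pm_102

theorem s27_pm_102 : ∃ t, chk3 f_pm_102 t 30 29 1 = true := ex3_a s26_pm_102 k11_pm_102

theorem s28_pm_102 : ∃ t, chk3 f_pm_102 t 30 14 1 = true := ex3_b k8_pm_102 s27_pm_102

theorem s29_pm_102 : ∃ t, chk3 f_pm_102 t 15 14 1 = true := ex3_a s28_pm_102 k12_pm_102

theorem s30_pm_102 : ∃ t, chk3 f_pm_102 t 29 28 1 = true := ex3_a k5_pm_102 k6_pm_102

theorem s31_pm_102 : ∃ t, chk3 f_pm_102 t 29 14 1 = true := ex3_b s30_pm_102 k7_pm_102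

theorem s32_pm_102 : ∃ t, chk3 f_pm_102 t 14 14 1 = true := ex3_a k4_pm_102 s31_pm_102

theorem s33_pm_102 : ∃ t, chk3 f_pm_102 t 7 14 1 = true := ex3_a s32_pm_102 s29_pm_102

theorem s34_pm_102 : ∃ t, chk3 f_pm_102 t 7 7 1 = true := ex3_b s33_pm_102 s25_pm_102

theorem s35_pm_102 : ∃ t, chk3 f_pm_102 t 7 3 1 = true := ex3_b k3_pm_102 s34_pm_102

theorem s36_pm_102 : ∃ t, chk3 f_pm_102 t 3 3 1 = true := ex3_a k2_pm_102 s35_pm_102

theorem s37_pm_102 : ∃ t, chk3 f_pm_102 t 3 1 1 = true := ex3_b k1_pm_102 s36_pm_102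

theorem s38_pm_102 : ∃ t, chk3 f_pm_102 t 1 1 1 = true := ex3_a k0_pm_102 s37_pm_102

theorem c_pm_102 : CertN 536870912 536870912 0 536870912 67108864 67108864 3 false true false .npp 1 0 2
    ndN0q1 ndN0q2 pcN0 cut_pm_102 Ext.none :=
  certNK0 (fam := false) (s1 := true) (s2 := false) (a := 1) (b := 0) (c := 2) (cn := .npp) (n1 := ndN0q1) (n2 := ndN0q2) (pc := pcN0) (cut := cut_pm_102) (xt := Ext.none) (P1 := 536870912) (W1 := 536870912) (P2 := 0) (W2 := 536870912) (P3 := 67108864) (W3 := 67108864) (N0 := 3)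
    rfl rfl rfl s38_pm_102

noncomputable def f_pm_112 : ℕ → ℕ → ℕ → ℕ → Bool := onCell 536870912 536870912 0 536870912 67108864 67108864
    (rowNK 3 0 false true false .dn 1 1 2 (qsf 536870912 536870912 0 536870912 1) ndN0q1 ndN0q2 pcN1 Cut.none Ext.none)

def k0_pm_112 : ∃ t, chk3 f_pm_112 t 1 1 1 = true :=
  ⟨(a (b (a (b (b (a (a (l 17005728) (b (l 16913192) (l 16980952))) (a (b (a (l 16844664) (l 89288582743)) (l 16916488)) (b (l 105394624295) (b (l 68887493479) (l 16928336))))) (a (l 17180400) (a (l 17022312) (b (l 16937632) (l 16986736))))) (a (l 17605976) (b (l 17259432) (l 17288736)))) (a (a (b (b (b (l 3) (l 110763351655)) (b (a (l 16926776) (l 71034950887)) (l 16976016))) (b (l 17059008) (l 17158824))) (b (b (l 1) (l 1)) (l 1))) (l 1))) (a (b (a (b (l 17621616) (l 17806256)) (b (l 17449288) (l 17688568))) (b (a (l 18059928) (l 17878888)) (a (b (l 18290696) (l 18444376)) (l 1)))) (b (l 1) (l 1)))) (l 1)), by decide +kernel⟩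

theorem c_pm_112 : CertN 536870912 536870912 0 536870912 67108864 67108864 3 false true false .dn 1 1 2
    ndN0q1 ndN0q2 pcN1 Cut.none Ext.none :=
  certNK0 (fam := false) (s1 := true) (s2 := false) (a := 1) (b := 1) (c := 2) (cn := .dn) (n1 := ndN0q1) (n2 := ndN0q2) (pc := pcN1) (cut := Cut.none) (xt := Ext.none) (P1 := 536870912) (W1 := 536870912) (P2 := 0) (W2 := 536870912) (P3 := 67108864) (W3 := 67108864) (N0 := 3)
    rfl rfl rfl k0_pm_112

noncomputable def cut_pm_202 : Cut := Cut.of [[⟨0, 1, 0, 67108864⟩, ⟨1, 0, 0, 67108864⟩, ⟨2, 1, 0, 67108864⟩]]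

noncomputable def f_pm_202 : ℕ → ℕ → ℕ → ℕ → Bool := onCell 0 536870912 0 536870912 67108864 67108864
    (rowNK 3 0 false true false .pp 2 0 2 (qsf 0 536870912 0 536870912 0) ndN0q2 ndN0q2 pcN0 cut_pm_202 Ext.none)

def k0_pm_202 : ∃ t, chk3 f_pm_202 t 1 1 1 = true :=
  ⟨(a (l 3) (b (l 3) (a (l 3) (b (l 3) (b (l 3) (a (l 3) (l 6))))))), by decide +kernel⟩

theorem c_pm_202 : CertN 0 536870912 0 536870912 67108864 67108864 3 false true false .pp 2 0 2
    ndN0q2 ndN0q2 pcN0 cut_pm_202 Ext.none :=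
  certNK0 (fam := false) (s1 := true) (s2 := false) (a := 2) (b := 0) (c := 2) (cn := .pp) (n1 := ndN0q2) (n2 := ndN0q2) (pc := pcN0) (cut := cut_pm_202) (xt := Ext.none) (P1 := 0) (W1 := 536870912) (P2 := 0) (W2 := 536870912) (P3 := 67108864) (W3 := 67108864) (N0 := 3)
    rfl rfl rfl k0_pm_202

noncomputable def f_mm_001 : ℕ → ℕ → ℕ → ℕ → Bool := onCell 0 536870912 0 536870912 67108864 67108864
    (rowNK 3 1 false false false .up 0 0 1 (qsf 0 536870912 536870912 536870912 0) ndN0q0 ndN0q1 pcN0 Cut.none Ext.none)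

def k0_mm_001 : ∃ t, chk3 f_mm_001 t 1 1 1 = true :=
  ⟨(l 3), by decide +kernel⟩

theorem c_mm_001 : CertN 0 536870912 536870912 536870912 67108864 67108864 3 false false false .up 0 0 1
    ndN0q0 ndN0q1 pcN0 Cut.none Ext.none :=
  certNK1 (fam := false) (s1 := false) (s2 := false) (a := 0) (b := 0) (c := 1) (cn := .up) (n1 := ndN0q0) (n2 := ndN0q1) (pc := pcN0) (cut := Cut.none) (xt := Ext.none) (P1 := 0) (W1 := 536870912) (P2 := 536870912) (W2 := 536870912) (P3 := 67108864) (W3 := 67108864) (N0 := 3)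
    rfl rfl rfl (fun _ => rfl) k0_mm_001

noncomputable def f_mm_011 : ℕ → ℕ → ℕ → ℕ → Bool := onCell 0 536870912 536870912 536870912 67108864 67108864
    (rowNK 3 1 false false false .pnn 0 1 1 (qsf 0 536870912 536870912 536870912 1) ndN0q0 ndN0q1 pcN1 Cut.none Ext.none)

def k0_mm_011 : ∃ t, chk3 f_mm_011 t 1 1 1 = true :=
  ⟨(l 5), by decide +kernel⟩

theorem c_mm_011 : CertN 0 536870912 536870912 536870912 67108864 67108864 3 false false false .pnn 0 1 1
    ndN0q0 ndN0q1 pcN1 Cut.none Ext.none :=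
  certNK1 (fam := false) (s1 := false) (s2 := false) (a := 0) (b := 1) (c := 1) (cn := .pnn) (n1 := ndN0q0) (n2 := ndN0q1) (pc := pcN1) (cut := Cut.none) (xt := Ext.none) (P1 := 0) (W1 := 536870912) (P2 := 536870912) (W2 := 536870912) (P3 := 67108864) (W3 := 67108864) (N0 := 3)
    rfl rfl rfl (fun _ => rfl) k0_mm_011

noncomputable def f_mm_012 : ℕ → ℕ → ℕ → ℕ → Bool := onCell 0 536870912 0 536870912 67108864 67108864
    (rowNK 3 0 false false false .pnp 0 1 2 (qsf 0 536870912 0 536870912 1) ndN0q0 ndN0q2 pcN1 Cut.none Ext.none)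

def k0_mm_012 : ∃ t, chk3 f_mm_012 t 1 1 1 = true :=
  ⟨(l 5), by decide +kernel⟩

theorem c_mm_012 : CertN 0 536870912 0 536870912 67108864 67108864 3 false false false .pnp 0 1 2
    ndN0q0 ndN0q2 pcN1 Cut.none Ext.none :=
  certNK0 (fam := false) (s1 := false) (s2 := false) (a := 0) (b := 1) (c := 2) (cn := .pnp) (n1 := ndN0q0) (n2 := ndN0q2) (pc := pcN1) (cut := Cut.none) (xt := Ext.none) (P1 := 0) (W1 := 536870912) (P2 := 0) (W2 := 536870912) (P3 := 67108864) (W3 := 67108864) (N0 := 3)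
    rfl rfl rfl k0_mm_012

noncomputable def f_mm_022 : ℕ → ℕ → ℕ → ℕ → Bool := onCell 0 536870912 0 536870912 67108864 67108864
    (rowNK 3 0 false false false .pp 0 2 2 (qsf 0 536870912 0 536870912 2) ndN0q0 ndN0q2 pcN2 Cut.none Ext.none)

def k0_mm_022 : ∃ t, chk3 f_mm_022 t 1 1 1 = true :=
  ⟨(l 5), by decide +kernel⟩

theorem c_mm_022 : CertN 0 536870912 0 536870912 67108864 67108864 3 false false false .pp 0 2 2
    ndN0q0 ndN0q2 pcN2 Cut.none Ext.none :=
  certNK0 (fam := false) (s1 := false) (s2 := false) (a := 0) (b := 2) (c := 2) (cn := .pp) (n1 := ndN0q0) (n2 := ndN0q2) (pc := pcN2) (cut := Cut.none) (xt := Ext.none) (P1 := 0) (W1 := 536870912) (P2 := 0) (W2 := 536870912) (P3 := 67108864) (W3 := 67108864) (N0 := 3)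
    rfl rfl rfl k0_mm_022

noncomputable def f_mm_101 : ℕ → ℕ → ℕ → ℕ → Bool := onCell 536870912 536870912 536870912 536870912 67108864 67108864
    (rowNK 3 0 false false false .npn 1 0 1 (qsf 536870912 536870912 536870912 536870912 0) ndN0q1 ndN0q1 pcN0 Cut.none Ext.none)

def k0_mm_101 : ∃ t, chk3 f_mm_101 t 1 1 1 = true :=
  ⟨(l 3), by decide +kernel⟩

theorem c_mm_101 : CertN 536870912 536870912 536870912 536870912 67108864 67108864 3 false false false .npn 1 0 1
    ndN0q1 ndN0q1 pcN0 Cut.none Ext.none :=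
  certNK0 (fam := false) (s1 := false) (s2 := false) (a := 1) (b := 0) (c := 1) (cn := .npn) (n1 := ndN0q1) (n2 := ndN0q1) (pc := pcN0) (cut := Cut.none) (xt := Ext.none) (P1 := 536870912) (W1 := 536870912) (P2 := 536870912) (W2 := 536870912) (P3 := 67108864) (W3 := 67108864) (N0 := 3)
    rfl rfl rfl k0_mm_101

noncomputable def f_mm_102 : ℕ → ℕ → ℕ → ℕ → Bool := onCell 536870912 536870912 0 536870912 67108864 67108864
    (rowNK 3 0 false false false .npp 1 0 2 (qsf 536870912 536870912 0 536870912 0) ndN0q1 ndN0q2 pcN0 Cut.none Ext.none)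

def k0_mm_102 : ∃ t, chk3 f_mm_102 t 1 1 1 = true :=
  ⟨(a (l 5) (l 3)), by decide +kernel⟩

theorem c_mm_102 : CertN 536870912 536870912 0 536870912 67108864 67108864 3 false false false .npp 1 0 2
    ndN0q1 ndN0q2 pcN0 Cut.none Ext.none :=
  certNK0 (fam := false) (s1 := false) (s2 := false) (a := 1) (b := 0) (c := 2) (cn := .npp) (n1 := ndN0q1) (n2 := ndN0q2) (pc := pcN0) (cut := Cut.none) (xt := Ext.none) (P1 := 536870912) (W1 := 536870912) (P2 := 0) (W2 := 536870912) (P3 := 67108864) (W3 := 67108864) (N0 := 3)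
    rfl rfl rfl k0_mm_102

noncomputable def f_mm_112 : ℕ → ℕ → ℕ → ℕ → Bool := onCell 536870912 536870912 0 536870912 67108864 67108864
    (rowNK 3 2 false false false .dn 1 1 2 (qsf 536870912 536870912 0 536870912 1) ndN0q1 ndN0q2 pcN1 Cut.none Ext.none)

def k0_mm_112 : ∃ t, chk3 f_mm_112 t 1 1 1 = true :=
  ⟨(l 5), by decide +kernel⟩

theorem c_mm_112 : CertN 536870912 536870912 0 536870912 67108864 67108864 3 false false false .dn 1 1 2
    ndN0q1 ndN0q2 pcN1 Cut.none Ext.none :=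
  certNK2 (fam := false) (s1 := false) (s2 := false) (a := 1) (b := 1) (c := 2) (cn := .dn) (n1 := ndN0q1) (n2 := ndN0q2) (pc := pcN1) (cut := Cut.none) (xt := Ext.none) (P1 := 536870912) (W1 := 536870912) (P2 := 0) (W2 := 536870912) (P3 := 67108864) (W3 := 67108864) (N0 := 3)
    rfl rfl rfl (fun _ => rfl) k0_mm_112

noncomputable def f_mm_202 : ℕ → ℕ → ℕ → ℕ → Bool := onCell 0 536870912 0 536870912 67108864 67108864
    (rowNK 3 0 false false false .pp 2 0 2 (qsf 0 536870912 0 536870912 0) ndN0q2 ndN0q2 pcN0 Cut.none Ext.none)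

def k0_mm_202 : ∃ t, chk3 f_mm_202 t 1 1 1 = true :=
  ⟨(l 3), by decide +kernel⟩

theorem c_mm_202 : CertN 0 536870912 0 536870912 67108864 67108864 3 false false false .pp 2 0 2
    ndN0q2 ndN0q2 pcN0 Cut.none Ext.none :=
  certNK0 (fam := false) (s1 := false) (s2 := false) (a := 2) (b := 0) (c := 2) (cn := .pp) (n1 := ndN0q2) (n2 := ndN0q2) (pc := pcN0) (cut := Cut.none) (xt := Ext.none) (P1 := 0) (W1 := 536870912) (P2 := 0) (W2 := 536870912) (P3 := 67108864) (W3 := 67108864) (N0 := 3)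
    rfl rfl rfl k0_mm_202

end Pool.Agent.Strip051.G.I1_16_1_8.Tab.C.NB00

namespace Pool.Agent.Strip051.G.I1_16_1_8.Tab.C.NB01

open Pool.Agent.Strip051.PB Pool.Agent.Strip051.PB.T
open Pool.Agent.Strip051.G.I1_16_1_8.Tab

noncomputable def f_pp_001 : ℕ → ℕ → ℕ → ℕ → Bool := onCell 0 536870912 536870912 536870912 67108864 67108864
    (rowNK 3 0 false true true .up 0 0 1 (qsf 0 536870912 536870912 536870912 0) ndN0q0 ndN1q1 pcN0 Cut.none Ext.none)

def k0_pp_001 : ∃ t, chk3 f_pp_001 t 1 1 1 = true :=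
  ⟨(l 3), by decide +kernel⟩

theorem c_pp_001 : CertN 0 536870912 536870912 536870912 67108864 67108864 3 false true true .up 0 0 1
    ndN0q0 ndN1q1 pcN0 Cut.none Ext.none :=
  certNK0 (fam := false) (s1 := true) (s2 := true) (a := 0) (b := 0) (c := 1) (cn := .up) (n1 := ndN0q0) (n2 := ndN1q1) (pc := pcN0) (cut := Cut.none) (xt := Ext.none) (P1 := 0) (W1 := 536870912) (P2 := 536870912) (W2 := 536870912) (P3 := 67108864) (W3 := 67108864) (N0 := 3)
    rfl rfl rfl k0_pp_001

noncomputable def f_pp_011 : ℕ → ℕ → ℕ → ℕ → Bool := onCell 0 536870912 536870912 536870912 67108864 67108864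
    (rowNK 3 0 false true true .pnn 0 1 1 (qsf 0 536870912 536870912 536870912 1) ndN0q0 ndN1q1 pcN1 Cut.none Ext.none)

def k0_pp_011 : ∃ t, chk3 f_pp_011 t 1 1 1 = true :=
  ⟨(l 3), by decide +kernel⟩

theorem c_pp_011 : CertN 0 536870912 536870912 536870912 67108864 67108864 3 false true true .pnn 0 1 1
    ndN0q0 ndN1q1 pcN1 Cut.none Ext.none :=
  certNK0 (fam := false) (s1 := true) (s2 := true) (a := 0) (b := 1) (c := 1) (cn := .pnn) (n1 := ndN0q0) (n2 := ndN1q1) (pc := pcN1) (cut := Cut.none) (xt := Ext.none) (P1 := 0) (W1 := 536870912) (P2 := 536870912) (W2 := 536870912) (P3 := 67108864) (W3 := 67108864) (N0 := 3)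
    rfl rfl rfl k0_pp_011

noncomputable def cut_pp_012_a : Cut := Cut.of [[⟨0, 0, 0, 67108864⟩, ⟨1, 1, 0, 67108864⟩, ⟨2, 1, 0, 67108864⟩]]

noncomputable def f_pp_012_a : ℕ → ℕ → ℕ → ℕ → Bool := onCell 536870912 536870912 0 536870912 67108864 67108864
    (rowNK 3 2 false true true .pnp 0 1 2 (qsf 0 536870912 0 536870912 1) ndN0q0 ndN1q2a pcN1 cut_pp_012_a Ext.none)

def k0_pp_012_a : ∃ t, chk3 f_pp_012_a t 2 1 1 = true :=
  ⟨(l 3), by decide +kernel⟩

def k1_pp_012_a : ∃ t, chk3 f_pp_012_a t 6 1 1 = true :=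
  ⟨(b (a (l 3) (b (a (l 3) (b (a (l 16963872) (l 17023992)) (l 3))) (l 3))) (l 3)), by decide +kernel⟩

def k2_pp_012_a : ∃ t, chk3 f_pp_012_a t 7 2 1 = true :=
  ⟨(a (b (a (a (l 46339094711) (l 17110568)) (b (l 17264944) (l 17221176))) (a (b (a (l 3) (l 47949641751)) (l 3)) (b (a (l 17123232) (l 17197488)) (a (b (l 17064096) (l 3)) (b (l 17138280) (l 17047832)))))) (b (a (b (l 17425344) (l 17378592)) (b (a (l 17539256) (l 17598560)) (a (l 17488672) (l 17437968)))) (a (b (a (l 17273296) (l 17346544)) (a (b (l 17210256) (l 17159264)) (b (l 17277128) (l 17219944)))) (a (b (l 17325640) (b (l 17286872) (c (l 17431216) (l 16962432)))) (b (b (l 17436472) (c (l 17647936) (l 17190928))) (a (b (l 17305424) (l 17054312)) (b (l 17155168) (c (l 17512712) (l 16914632))))))))), by decide +kernel⟩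

def k3_pp_012_a : ∃ t, chk3 f_pp_012_a t 14 3 1 = true :=
  ⟨(b (a (l 3) (b (a (l 3) (b (l 39359630295) (l 3))) (l 3))) (l 3)), by decide +kernel⟩

def k4_pp_012_a : ∃ t, chk3 f_pp_012_a t 15 6 1 = true :=
  ⟨(a (b (a (a (b (l 17064280) (l 34527726791)) (b (l 17115504) (a (l 16935832) (l 16969144)))) (b (a (l 17141992) (l 17099968)) (a (a (l 16958808) (l 16967672)) (a (l 16932472) (l 16915648))))) (a (a (l 3) (b (b (l 34527642391) (l 3)) (l 3))) (b (c (b (l 17083576) (a (l 17060032) (l 17089792))) (a (b (l 16906184) (b (l 16876464) (l 16856304))) (b (l 16884440) (l 16773992)))) (a (b (c (l 16967008) (l 15737005863)) (l 3)) (c (b (l 16971472) (a (l 16909168) (l 16893976))) (b (b (l 16800448) (l 16754944)) (a (l 16763856) (l 16760384)))))))) (b (a (c (b (l 17352552) (a (l 17244664) (l 17268064))) (b (a (l 17015984) (l 16983184)) (a (l 16769680) (l 16721800)))) (b (c (a (l 17393664) (l 17382704)) (a (l 16863288) (b (l 16875760) (l 16794976)))) (c (a (l 17129832)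 (b (l 17302464) (l 17032800))) (a (l 16719288) (l 16714696))))) (a (b (c (a (b (l 17166640) (l 17108200)) (b (l 17178224) (l 17025472))) (a (b (l 16840896) (l 16781392)) (b (l 16766648) (l 16731376)))) (b (a (b (l 16793360) (l 16750136)) (a (l 16775304) (l 16774584))) (a (a (l 16757968) (a (l 16764600) (l 16767384))) (a (l 16744768) (l 16741664))))) (b (b (a (c (l 17064032) (l 16720840)) (l 16715032)) (a (l 16730352) (l 16729872))) (a (b (l 16739632) (a (l 16738808) (l 16736256))) (b (a (l 16729088) (l 16727240)) (a (l 16734008) (l 16737296)))))))), by decide +kernel⟩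

def k5_pp_012_a : ∃ t, chk3 f_pp_012_a t 15 7 1 = true :=
  ⟨(a (b (b (a (l 3) (a (l 3) (a (l 3) (b (a (l 13052649095) (l 12515777527)) (l 3))))) (l 3)) (l 3)) (b (a (b (a (b (b (a (l 16759672) (l 16752424)) (a (l 4462725303) (l 16755184))) (b (c (a (l 13589537911) (l 16772136)) (a (l 16760456) (l 16757184))) (a (l 3) (c (l 16764480) (l 16762456))))) (a (b (c (l 16754792) (l 16754544)) (b (l 16754320) (l 16761008))) (b (l 16752848) (b (l 16750984) (l 16756312))))) (a (a (l 3) (a (l 3) (b (b (l 16764880) (l 3)) (l 3)))) (b (a (a (b (l 16763368) (l 6610201911)) (b (l 16758968) (l 16764368))) (a (b (l 16757256) (l 16762656)) (b (l 16755624) (l 16761000)))) (a (a (l 3) (b (a (l 16767096) (l 16766544)) (l 3))) (b (a (a (l 16765856) (l 16765048)) (a (l 16764200) (l 16760760))) (l 6)))))) (b (a (b (a (l 16749240) (l 16746584)) (a (a (l 16755248) (l 16753800)) (a (l 16752424) (l 16751128)))) (a (b (l 16744240) (a (l 16749904) (l 16748752))) (a (b (l 16737424) (l 16747680))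 (b (l 16736472) (c (l 16745184) (l 16740304)))))) (a (b (b (a (l 16757240) (l 16754424)) (a (a (l 16756792) (l 16755288)) (c (l 16757848) (l 16752416)))) (a (a (b (l 16762184) (l 6)) (l 6)) (l 6))) (a (a (a (b (l 16755440) (l 6)) (l 6)) (l 6)) (l 6))))) (a (a (l 3) (a (l 3) (l 6))) (l 6)))), by decide +kernel⟩

theorem s6_pp_012_a : ∃ t, chk3 f_pp_012_a t 15 3 1 = true := ex3_b k4_pp_012_a k5_pp_012_a

theorem s7_pp_012_a : ∃ t, chk3 f_pp_012_a t 7 3 1 = true := ex3_a k3_pp_012_a s6_pp_012_a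

theorem s8_pp_012_a : ∃ t, chk3 f_pp_012_a t 7 1 1 = true := ex3_b k2_pp_012_a s7_pp_012_a

theorem s9_pp_012_a : ∃ t, chk3 f_pp_012_a t 3 1 1 = true := ex3_a k1_pp_012_a s8_pp_012_a

theorem s10_pp_012_a : ∃ t, chk3 f_pp_012_a t 1 1 1 = true := ex3_a k0_pp_012_a s9_pp_012_a

theorem c_pp_012_a : CertN 0 536870912 0 536870912 67108864 67108864 3 false true true .pnp 0 1 2
    ndN0q0 ndN1q2a pcN1 cut_pp_012_a Ext.none :=
  certNK2 (fam := false) (s1 := true) (s2 := true) (a := 0) (b := 1) (c := 2) (cn := .pnp) (n1 := ndN0q0) (n2 := ndN1q2a) (pc := pcN1) (cut := cut_pp_012_a) (xt := Ext.none) (P1 := 0) (W1 := 536870912) (P2 := 0) (W2 := 536870912) (P3 := 67108864) (W3 := 67108864) (N0 := 3)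
    rfl rfl rfl (fun _ => rfl) s10_pp_012_a

noncomputable def cut_pp_012_b : Cut := Cut.of [[⟨0, 0, 0, 67108864⟩, ⟨1, 1, 0, 67108864⟩, ⟨2, 1, 0, 67108864⟩]]

noncomputable def f_pp_012_b : ℕ → ℕ → ℕ → ℕ → Bool := onCell 536870912 536870912 1239849684 370763052 67108864 67108864
    (rowNK 3 2 false true true .pnp 0 1 2 (qsf 0 536870912 1239849684 370763052 1) ndN0q0 ndN1q2b pcN1 cut_pp_012_b Ext.none)

def k0_pp_012_b : ∃ t, chk3 f_pp_012_b t 1 1 1 = true :=
  ⟨(a (l 3) (a (a (l 3) (a (b (l 3) (l 3)) (b (b (b (a (l 17024696) (l 17104656)) (l 17171432)) (l 33991418247)) (l 3)))) (b (a (a (b (b (a (l 17166056) (l 17235272)) (l 17299328)) (l 17381160)) (b (b (l 17352728) (l 17456680)) (l 17533752))) (b (a (b (l 17529576) (l 17649288)) (b (a (l 17669504) (b (l 17693280) (l 17815000))) (l 17873072))) (a (l 17727560) (l 17962416)))) (a (b (a (l 17395104) (l 17532720)) (l 17582544)) (b (a (l 17709488) (l 17931136)) (l 17960672)))))), by decide +kernel⟩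

theorem c_pp_012_b : CertN 0 536870912 1239849684 370763052 67108864 67108864 3 false true true .pnp 0 1 2
    ndN0q0 ndN1q2b pcN1 cut_pp_012_b Ext.none :=
  certNK2 (fam := false) (s1 := true) (s2 := true) (a := 0) (b := 1) (c := 2) (cn := .pnp) (n1 := ndN0q0) (n2 := ndN1q2b) (pc := pcN1) (cut := cut_pp_012_b) (xt := Ext.none) (P1 := 0) (W1 := 536870912) (P2 := 1239849684) (W2 := 370763052) (P3 := 67108864) (W3 := 67108864) (N0 := 3)
    rfl rfl rfl (fun _ => rfl) k0_pp_012_b

noncomputable def cut_pp_022_a : Cut := Cut.of [[⟨0, 0, 0, 67108864⟩, ⟨1, 1, 0, 67108864⟩, ⟨2, 1, 0, 67108864⟩]]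

noncomputable def f_pp_022_a : ℕ → ℕ → ℕ → ℕ → Bool := onCell 1073741824 536870912 0 536870912 67108864 67108864
    (rowNK 3 2 false true true .pp 0 2 2 (qsf 0 536870912 0 536870912 2) ndN0q0 ndN1q2a pcN2 cut_pp_022_a Ext.none)

def k0_pp_022_a : ∃ t, chk3 f_pp_022_a t 2 2 1 = true :=
  ⟨(a (a (a (b (b (l 17601560) (a (l 17462800) (l 17620616))) (b (c (l 17784248) (a (b (l 17239344) (l 17162544)) (l 17207400))) (c (b (l 17677976) (a (l 17555808) (l 17607880))) (a (b (l 17000208) (l 16703128)) (b (l 17060840) (l 16920456)))))) (a (b (a (l 17675480) (l 17674096)) (b (a (l 17537824) (l 17536376)) (c (a (l 17701696) (l 17732200)) (a (l 16991944) (l 16994472))))) (b (b (l 17758560) (l 17701232)) (c (b (l 17934672) (l 17780904)) (b (l 17243128) (a (l 16999968) (l 17007440))))))) (a (b (a (l 17776872) (l 17832352)) (b (a (l 17577208) (l 17675864)) (a (b (l 17462480) (l 17118608)) (b (l 17517400) (l 17190904))))) (b (b (l 17953224) (l 17901760)) (b (a (l 17738328)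 (l 17764456)) (c (a (l 18014384) (l 18098664)) (a (b (l 17176760) (l 16994808)) (b (l 17223832) (l 16803616)))))))) (a (b (a (a (l 18029320) (l 18036456)) (l 18174288)) (a (c (b (l 18354088) (l 122979287063)) (b (a (l 17463392) (l 17517552)) (a (b (l 17269408) (l 17069336)) (l 1)))) (l 1))) (l 1))), by decide +kernel⟩

def k1_pp_022_a : ∃ t, chk3 f_pp_022_a t 2 6 1 = true :=
  ⟨(a (b (b (a (a (c (a (c (l 17598312) (l 17160568)) (l 17478496)) (a (a (l 16751544) (l 16754232)) (l 16731760))) (a (a (l 17054912) (l 16981160)) (a (l 17036208) (l 17051320)))) (a (a (a (l 17068736) (l 17067400)) (c (l 17737120) (l 16715120))) (c (a (l 17818928) (l 17882032)) (a (l 16715352) (l 16616736))))) (a (a (b (a (c (l 17104280) (l 16717424)) (l 16866408)) (a (a (l 16763680) (l 16834624)) (l 16820400))) (a (a (l 16884128) (l 16801400)) (a (l 16826680) (l 16833584)))) (a (a (a (l 16843120) (l 16834264)) (a (l 16806888) (l 16760872))) (a (a (a (l 16774688) (l 26340074423)) (a (l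 16729040) (l 16862312))) (l 1))))) (a (a (a (b (a (b (l 16736864) (l 16730552)) (b (l 16699152) (l 16703584))) (a (a (b (l 16733600) (l 16737800)) (a (l 16734864) (l 16730840))) (b (l 16729024) (l 16733560)))) (a (b (l 16726688) (b (l 16691872) (l 16717648))) (b (l 16689168) (b (l 16696688) (l 16701640))))) (a (a (b (l 16672576) (b (l 16680416) (l 16685472))) (b (b (l 16652840) (l 16657032)) (b (l 16667080) (l 16678280)))) (b (a (l 16654896) (l 16687416)) (a (b (l 16667592) (a (l 16676336) (l 16655776))) (b (l 16668960) (l 16667632)))))) (a (a (b (b (l 16657408) (a (l 16640000) (l 16640664))) (a (b (l 16648192) (l 16667152)) (b (l 16648200) (a (l 16655400) (l 16655112))))) (b (a (l 16648384) (b (l 16635288) (l 16641264))) (a (b (l 16647984) (l 1)) (l 1)))) (b (a (a (l 16638584) (l 1)) (l 1)) (l 1))))) (l 1)), by decide +kernel⟩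

def k2_pp_022_a : ∃ t, chk3 f_pp_022_a t 2 7 1 = true :=
  ⟨(a (b (b (a (b (a (a (a (a (c (l 16743752) (l 16745664)) (l 16749952)) (l 16727696)) (a (l 16722432) (l 16706520))) (a (a (l 16690576) (c (a (l 16665768) (l 16687120)) (l 16689464))) (a (c (l 16682816) (l 16681752)) (c (l 16677840) (l 16676216))))) (b (a (a (a (a (l 16745368) (l 16732376)) (l 16741704)) (a (l 16726000) (l 16710192))) (a (a (l 16695384) (l 16695352)) (a (l 16687360) (a (l 16672704) (l 16672096))))) (a (l 6) (a (l 6) (a (l 6) (a (l 6) (l 16676872))))))) (a (a (a (b (a (l 16669888) (l 16672688)) (l 16687440)) (b (l 16664072) (l 1))) (l 1)) (l 1))) (a (a (l 6) (a (l 6) (a (l 6) (a (l 6) (l 1))))) (l 1))) (a (a (l 6) (a (l 6) (l 1))) (l 1))) (l 1)), by decide +kernel⟩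

def k3_pp_022_a : ∃ t, chk3 f_pp_022_a t 3 1 1 = true :=
  ⟨(l 1), by decide +kernel⟩

theorem s4_pp_022_a : ∃ t, chk3 f_pp_022_a t 2 3 1 = true := ex3_b k1_pp_022_a k2_pp_022_a

theorem s5_pp_022_a : ∃ t, chk3 f_pp_022_a t 2 1 1 = true := ex3_b k0_pp_022_a s4_pp_022_a

theorem s6_pp_022_a : ∃ t, chk3 f_pp_022_a t 1 1 1 = true := ex3_a s5_pp_022_a k3_pp_022_a

theorem c_pp_022_a : CertN 0 536870912 0 536870912 67108864 67108864 3 false true true .pp 0 2 2
    ndN0q0 ndN1q2a pcN2 cut_pp_022_a Ext.none :=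
  certNK2 (fam := false) (s1 := true) (s2 := true) (a := 0) (b := 2) (c := 2) (cn := .pp) (n1 := ndN0q0) (n2 := ndN1q2a) (pc := pcN2) (cut := cut_pp_022_a) (xt := Ext.none) (P1 := 0) (W1 := 536870912) (P2 := 0) (W2 := 536870912) (P3 := 67108864) (W3 := 67108864) (N0 := 3)
    rfl rfl rfl (fun _ => rfl) s6_pp_022_a

noncomputable def cut_pp_022_b : Cut := Cut.of [[⟨0, 0, 0, 67108864⟩, ⟨1, 1, 0, 67108864⟩, ⟨2, 1, 0, 67108864⟩]]

noncomputable def f_pp_022_b : ℕ → ℕ → ℕ → ℕ → Bool := onCell 1073741824 536870912 1239849684 370763052 67108864 67108864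
    (rowNK 3 2 false true true .pp 0 2 2 (qsf 0 536870912 1239849684 370763052 2) ndN0q0 ndN1q2b pcN2 cut_pp_022_b Ext.none)

def k0_pp_022_b : ∃ t, chk3 f_pp_022_b t 1 1 1 = true :=
  ⟨(a (a (a (a (b (b (b (b (l 17648232) (l 17915096)) (l 18049592)) (l 18154496)) (l 18265808)) (b (b (b (a (b (l 17822696) (l 17965256)) (l 17945224)) (a (l 18099752) (l 18143328))) (a (l 18203224) (l 18244576))) (b (l 18168472) (l 18028480)))) (a (b (b (b (b (l 17937312) (l 18075880)) (l 18204784)) (l 18298912)) (l 18190000)) (b (b (b (b (l 18053656) (l 18184744)) (l 18304824)) (l 18386520)) (l 18268008)))) (b (a (b (b (b (a (l 18184872) (l 18304784)) (l 18301840)) (l 18460384)) (l 18509240)) (b (b (l 180961995223) (l 18661160)) (l 18682656))) (b (a (l 18431024) (l 18563328)) (l 18427712)))) (b (a (b (l 1) (l 18930992)) (l 1)) (a (b (l 18802456) (l 18607656)) (l 213713068231)))), by decide +kernel⟩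

theorem c_pp_022_b : CertN 0 536870912 1239849684 370763052 67108864 67108864 3 false true true .pp 0 2 2
    ndN0q0 ndN1q2b pcN2 cut_pp_022_b Ext.none :=
  certNK2 (fam := false) (s1 := true) (s2 := true) (a := 0) (b := 2) (c := 2) (cn := .pp) (n1 := ndN0q0) (n2 := ndN1q2b) (pc := pcN2) (cut := cut_pp_022_b) (xt := Ext.none) (P1 := 0) (W1 := 536870912) (P2 := 1239849684) (W2 := 370763052) (P3 := 67108864) (W3 := 67108864) (N0 := 3)
    rfl rfl rfl (fun _ => rfl) k0_pp_022_b

noncomputable def f_pp_023 : ℕ → ℕ → ℕ → ℕ → Bool := onCell 0 536870912 1073741824 536870912 67108864 67108864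
    (rowNK 3 1 false true true .up 0 2 3 (qsf 0 536870912 1610612736 536870912 2) ndN0q0 ndN1q3 pcN2 Cut.none Ext.none)

def k0_pp_023 : ∃ t, chk3 f_pp_023 t 1 1 1 = true :=
  ⟨(a (b (b (l 1) (a (l 1) (l 349540261463))) (b (l 321086315495) (l 194921523831))) (a (b (b (b (l 1) (l 310349046567)) (l 266325258743)) (b (l 18172696) (l 18108296))) (b (b (b (b (l 18516744) (l 18537688)) (l 18335304)) (b (l 18111104) (l 17929792))) (b (l 17794704) (l 17752736))))), by decide +kernel⟩

theorem c_pp_023 : CertN 0 536870912 1610612736 536870912 67108864 67108864 3 false true true .up 0 2 3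
    ndN0q0 ndN1q3 pcN2 Cut.none Ext.none :=
  certNK1 (fam := false) (s1 := true) (s2 := true) (a := 0) (b := 2) (c := 3) (cn := .up) (n1 := ndN0q0) (n2 := ndN1q3) (pc := pcN2) (cut := Cut.none) (xt := Ext.none) (P1 := 0) (W1 := 536870912) (P2 := 1610612736) (W2 := 536870912) (P3 := 67108864) (W3 := 67108864) (N0 := 3)
    rfl rfl rfl (fun _ => rfl) k0_pp_023

noncomputable def f_pp_033 : ℕ → ℕ → ℕ → ℕ → Bool := onCell 1610612736 536870912 1610612736 536870912 67108864 67108864
    (rowNK 3 2 false true true .pnn 0 3 3 (qsf 0 536870912 1610612736 536870912 3) ndN0q0 ndN1q3 pcN3 Cut.none Ext.none)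

def k0_pp_033 : ∃ t, chk3 f_pp_033 t 1 1 1 = true :=
  ⟨(a (b (a (b (l 17852680) (l 17675240)) (b (l 18155152) (l 18289096))) (a (b (l 17490168) (l 17440880)) (a (l 18174624) (b (l 18390496) (l 18046696))))) (a (b (a (l 18396752) (l 1)) (a (b (l 18516304) (l 4)) (l 4))) (l 4))), by decide +kernel⟩

theorem c_pp_033 : CertN 0 536870912 1610612736 536870912 67108864 67108864 3 false true true .pnn 0 3 3
    ndN0q0 ndN1q3 pcN3 Cut.none Ext.none :=
  certNK2 (fam := false) (s1 := true) (s2 := true) (a := 0) (b := 3) (c := 3) (cn := .pnn) (n1 := ndN0q0) (n2 := ndN1q3) (pc := pcN3) (cut := Cut.none) (xt := Ext.none) (P1 := 0) (W1 := 536870912) (P2 := 1610612736) (W2 := 536870912) (P3 := 67108864) (W3 := 67108864) (N0 := 3)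
    rfl rfl rfl (fun _ => rfl) k0_pp_033

noncomputable def f_pp_101 : ℕ → ℕ → ℕ → ℕ → Bool := onCell 536870912 536870912 536870912 536870912 67108864 67108864
    (rowNK 3 0 false true true .npn 1 0 1 (qsf 536870912 536870912 536870912 536870912 0) ndN0q1 ndN1q1 pcN0 Cut.none Ext.none)

def k0_pp_101 : ∃ t, chk3 f_pp_101 t 1 1 1 = true :=
  ⟨(l 3), by decide +kernel⟩

theorem c_pp_101 : CertN 536870912 536870912 536870912 536870912 67108864 67108864 3 false true true .npn 1 0 1
    ndN0q1 ndN1q1 pcN0 Cut.none Ext.none :=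
  certNK0 (fam := false) (s1 := true) (s2 := true) (a := 1) (b := 0) (c := 1) (cn := .npn) (n1 := ndN0q1) (n2 := ndN1q1) (pc := pcN0) (cut := Cut.none) (xt := Ext.none) (P1 := 536870912) (W1 := 536870912) (P2 := 536870912) (W2 := 536870912) (P3 := 67108864) (W3 := 67108864) (N0 := 3)
    rfl rfl rfl k0_pp_101

noncomputable def f_pp_102_a : ℕ → ℕ → ℕ → ℕ → Bool := onCell 536870912 536870912 0 536870912 67108864 67108864
    (rowNK 3 0 false true true .npp 1 0 2 (qsf 536870912 536870912 0 536870912 0) ndN0q1 ndN1q2a pcN0 Cut.none Ext.none)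

def k0_pp_102_a : ∃ t, chk3 f_pp_102_a t 1 1 1 = true :=
  ⟨(l 3), by decide +kernel⟩

theorem c_pp_102_a : CertN 536870912 536870912 0 536870912 67108864 67108864 3 false true true .npp 1 0 2
    ndN0q1 ndN1q2a pcN0 Cut.none Ext.none :=
  certNK0 (fam := false) (s1 := true) (s2 := true) (a := 1) (b := 0) (c := 2) (cn := .npp) (n1 := ndN0q1) (n2 := ndN1q2a) (pc := pcN0) (cut := Cut.none) (xt := Ext.none) (P1 := 536870912) (W1 := 536870912) (P2 := 0) (W2 := 536870912) (P3 := 67108864) (W3 := 67108864) (N0 := 3)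
    rfl rfl rfl k0_pp_102_a

noncomputable def f_pp_102_b : ℕ → ℕ → ℕ → ℕ → Bool := onCell 536870912 536870912 0 536870912 67108864 67108864
    (rowNK 3 1 false true true .npp 1 0 2 (qsf 536870912 536870912 1239849684 370763052 0) ndN0q1 ndN1q2b pcN0 Cut.none Ext.none)

def k0_pp_102_b : ∃ t, chk3 f_pp_102_b t 1 1 1 = true :=
  ⟨(l 3), by decide +kernel⟩

theorem c_pp_102_b : CertN 536870912 536870912 1239849684 370763052 67108864 67108864 3 false true true .npp 1 0 2
    ndN0q1 ndN1q2b pcN0 Cut.none Ext.none :=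
  certNK1 (fam := false) (s1 := true) (s2 := true) (a := 1) (b := 0) (c := 2) (cn := .npp) (n1 := ndN0q1) (n2 := ndN1q2b) (pc := pcN0) (cut := Cut.none) (xt := Ext.none) (P1 := 536870912) (W1 := 536870912) (P2 := 1239849684) (W2 := 370763052) (P3 := 67108864) (W3 := 67108864) (N0 := 3)
    rfl rfl rfl (fun _ => rfl) k0_pp_102_b

noncomputable def f_pp_112_a : ℕ → ℕ → ℕ → ℕ → Bool := onCell 536870912 536870912 0 536870912 67108864 67108864
    (rowNK 3 0 false true true .dn 1 1 2 (qsf 536870912 536870912 0 536870912 1) ndN0q1 ndN1q2a pcN1 Cut.none Ext.none)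

def k0_pp_112_a : ∃ t, chk3 f_pp_112_a t 1 1 1 = true :=
  ⟨(l 3), by decide +kernel⟩

theorem c_pp_112_a : CertN 536870912 536870912 0 536870912 67108864 67108864 3 false true true .dn 1 1 2
    ndN0q1 ndN1q2a pcN1 Cut.none Ext.none :=
  certNK0 (fam := false) (s1 := true) (s2 := true) (a := 1) (b := 1) (c := 2) (cn := .dn) (n1 := ndN0q1) (n2 := ndN1q2a) (pc := pcN1) (cut := Cut.none) (xt := Ext.none) (P1 := 536870912) (W1 := 536870912) (P2 := 0) (W2 := 536870912) (P3 := 67108864) (W3 := 67108864) (N0 := 3)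
    rfl rfl rfl k0_pp_112_a

noncomputable def f_pp_112_b : ℕ → ℕ → ℕ → ℕ → Bool := onCell 536870912 536870912 1239849684 370763052 67108864 67108864
    (rowNK 3 0 false true true .dn 1 1 2 (qsf 536870912 536870912 1239849684 370763052 1) ndN0q1 ndN1q2b pcN1 Cut.none Ext.none)

def k0_pp_112_b : ∃ t, chk3 f_pp_112_b t 1 1 1 = true :=
  ⟨(a (b (l 3) (a (b (a (b (l 3) (l 149419296151)) (l 3)) (a (b (l 17405768) (l 17681448)) (l 142976488887))) (l 3))) (l 3)), by decide +kernel⟩

theorem c_pp_112_b : CertN 536870912 536870912 1239849684 370763052 67108864 67108864 3 false true true .dn 1 1 2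
    ndN0q1 ndN1q2b pcN1 Cut.none Ext.none :=
  certNK0 (fam := false) (s1 := true) (s2 := true) (a := 1) (b := 1) (c := 2) (cn := .dn) (n1 := ndN0q1) (n2 := ndN1q2b) (pc := pcN1) (cut := Cut.none) (xt := Ext.none) (P1 := 536870912) (W1 := 536870912) (P2 := 1239849684) (W2 := 370763052) (P3 := 67108864) (W3 := 67108864) (N0 := 3)
    rfl rfl rfl k0_pp_112_b

noncomputable def cut_pp_113 : Cut := Cut.of [[⟨0, 1, 0, 21338704⟩, ⟨1, 1, 0, 21338704⟩, ⟨2, 2, 0, 1685920⟩]]

noncomputable def f_pp_113 : ℕ → ℕ → ℕ → ℕ → Bool := onCell 536870912 536870912 536870912 536870912 67108864 67108864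
    (rowNK 3 1 false true true .nn 1 1 3 (qsf 536870912 536870912 1610612736 536870912 1) ndN0q1 ndN1q3 pcN1 cut_pp_113 Ext.none)

def k0_pp_113 : ∃ t, chk3 f_pp_113 t 1 1 1 = true :=
  ⟨(b (l 3) (a (b (a (l 3) (l 3)) (a (a (a (l 281356730263) (l 286725268983)) (b (l 174116767047) (l 17968240))) (b (a (l 17760320) (l 17630528)) (a (l 17702512) (l 17410288))))) (b (l 3) (a (b (a (l 3) (l 3)) (a (l 17116392) (l 17227920))) (b (l 3) (a (b (l 545629442375) (l 17199944)) (b (l 3) (b (a (l 569788442919) (l 3)) (a (l 160692881175) (b (l 592336757639) (a (l 164450695079) (b (l 595020919863) (a (l 200420779063) (b (l 596631447575) (a (l 203641929527) (b (l 647097268151) (a (l 281488155719) (b (l 648170986695) (a (l 286319980823) (l 6)))))))))))))))))))), by decide +kernel⟩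

theorem c_pp_113 : CertN 536870912 536870912 1610612736 536870912 67108864 67108864 3 false true true .nn 1 1 3
    ndN0q1 ndN1q3 pcN1 cut_pp_113 Ext.none :=
  certNK1 (fam := false) (s1 := true) (s2 := true) (a := 1) (b := 1) (c := 3) (cn := .nn) (n1 := ndN0q1) (n2 := ndN1q3) (pc := pcN1) (cut := cut_pp_113) (xt := Ext.none) (P1 := 536870912) (W1 := 536870912) (P2 := 1610612736) (W2 := 536870912) (P3 := 67108864) (W3 := 67108864) (N0 := 3)
    rfl rfl rfl (fun _ => rfl) k0_pp_113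

noncomputable def cut_pp_123 : Cut := Cut.of [[⟨0, 1, 0, 21338704⟩, ⟨1, 1, 0, 21338704⟩, ⟨2, 2, 0, 1685920⟩]]

noncomputable def f_pp_123 : ℕ → ℕ → ℕ → ℕ → Bool := onCell 1073741824 536870912 1610612736 536870912 67108864 67108864
    (rowNK 3 2 false true true .npn 1 2 3 (qsf 536870912 536870912 1610612736 536870912 2) ndN0q1 ndN1q3 pcN2 cut_pp_123 Ext.none)

def k0_pp_123 : ∃ t, chk3 f_pp_123 t 1 1 1 = true :=
  ⟨(a (b (a (a (a (b (l 18157000) (l 17592392)) (b (l 18275776) (l 17787640))) (b (b (l 18275208) (l 18052680)) (b (l 17805800) (l 17547368)))) (b (a (l 18249504) (l 1)) (a (l 17766104) (l 17825808)))) (a (a (a (b (l 17204552) (b (l 17044760) (b (l 16959392) (a (b (l 16885440) (a (b (l 16836024) (b (l 16805544) (b (l 16789384) (b (l 16791552) (l 6))))) (l 16806544))) (l 16831400))))) (b (b (l 17197632) (l 17007056)) (a (b (l 17017568) (l 16906392)) (l 17070976)))) (b (a (l 17151288) (l 17220848)) (a (l 17113536) (l 16923128)))) (b (a (l 17288880) (l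 17373616)) (a (l 17169544) (l 17013728))))) (b (a (b (l 1) (l 234649178807)) (l 1)) (b (a (l 17591648) (l 266861311143)) (a (l 17416392) (l 17564000))))), by decide +kernel⟩

theorem c_pp_123 : CertN 536870912 536870912 1610612736 536870912 67108864 67108864 3 false true true .npn 1 2 3
    ndN0q1 ndN1q3 pcN2 cut_pp_123 Ext.none :=
  certNK2 (fam := false) (s1 := true) (s2 := true) (a := 1) (b := 2) (c := 3) (cn := .npn) (n1 := ndN0q1) (n2 := ndN1q3) (pc := pcN2) (cut := cut_pp_123) (xt := Ext.none) (P1 := 536870912) (W1 := 536870912) (P2 := 1610612736) (W2 := 536870912) (P3 := 67108864) (W3 := 67108864) (N0 := 3)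
    rfl rfl rfl (fun _ => rfl) k0_pp_123

noncomputable def f_pp_133 : ℕ → ℕ → ℕ → ℕ → Bool := onCell 1610612736 536870912 1610612736 536870912 67108864 67108864
    (rowNK 3 2 false true true .dn 1 3 3 (qsf 536870912 536870912 1610612736 536870912 3) ndN0q1 ndN1q3 pcN3 Cut.none Ext.none)

def k0_pp_133 : ∃ t, chk3 f_pp_133 t 1 1 1 = true :=
  ⟨(a (b (l 1) (a (b (l 1) (a (l 17019896) (l 1))) (l 1))) (l 1)), by decide +kernel⟩

theorem c_pp_133 : CertN 536870912 536870912 1610612736 536870912 67108864 67108864 3 false true true .dn 1 3 3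
    ndN0q1 ndN1q3 pcN3 Cut.none Ext.none :=
  certNK2 (fam := false) (s1 := true) (s2 := true) (a := 1) (b := 3) (c := 3) (cn := .dn) (n1 := ndN0q1) (n2 := ndN1q3) (pc := pcN3) (cut := Cut.none) (xt := Ext.none) (P1 := 536870912) (W1 := 536870912) (P2 := 1610612736) (W2 := 536870912) (P3 := 67108864) (W3 := 67108864) (N0 := 3)
    rfl rfl rfl (fun _ => rfl) k0_pp_133

noncomputable def f_pp_202_a : ℕ → ℕ → ℕ → ℕ → Bool := onCell 0 536870912 0 536870912 67108864 67108864
    (rowNK 3 0 false true true .pp 2 0 2 (qsf 0 536870912 0 536870912 0) ndN0q2 ndN1q2a pcN0 Cut.none Ext.none)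

def k0_pp_202_a : ∃ t, chk3 f_pp_202_a t 1 1 1 = true :=
  ⟨(l 3), by decide +kernel⟩

theorem c_pp_202_a : CertN 0 536870912 0 536870912 67108864 67108864 3 false true true .pp 2 0 2
    ndN0q2 ndN1q2a pcN0 Cut.none Ext.none :=
  certNK0 (fam := false) (s1 := true) (s2 := true) (a := 2) (b := 0) (c := 2) (cn := .pp) (n1 := ndN0q2) (n2 := ndN1q2a) (pc := pcN0) (cut := Cut.none) (xt := Ext.none) (P1 := 0) (W1 := 536870912) (P2 := 0) (W2 := 536870912) (P3 := 67108864) (W3 := 67108864) (N0 := 3)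
    rfl rfl rfl k0_pp_202_a

noncomputable def f_pp_202_b : ℕ → ℕ → ℕ → ℕ → Bool := onCell 0 536870912 1239849684 370763052 67108864 67108864
    (rowNK 3 0 false true true .pp 2 0 2 (qsf 0 536870912 1239849684 370763052 0) ndN0q2 ndN1q2b pcN0 Cut.none Ext.none)

def k0_pp_202_b : ∃ t, chk3 f_pp_202_b t 1 1 1 = true :=
  ⟨(l 3), by decide +kernel⟩

theorem c_pp_202_b : CertN 0 536870912 1239849684 370763052 67108864 67108864 3 false true true .pp 2 0 2
    ndN0q2 ndN1q2b pcN0 Cut.none Ext.none :=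
  certNK0 (fam := false) (s1 := true) (s2 := true) (a := 2) (b := 0) (c := 2) (cn := .pp) (n1 := ndN0q2) (n2 := ndN1q2b) (pc := pcN0) (cut := Cut.none) (xt := Ext.none) (P1 := 0) (W1 := 536870912) (P2 := 1239849684) (W2 := 370763052) (P3 := 67108864) (W3 := 67108864) (N0 := 3)
    rfl rfl rfl k0_pp_202_b

noncomputable def f_pp_203 : ℕ → ℕ → ℕ → ℕ → Bool := onCell 0 536870912 0 536870912 67108864 67108864
    (rowNK 3 1 false true true .up 2 0 3 (qsf 0 536870912 1610612736 536870912 0) ndN0q2 ndN1q3 pcN0 Cut.none Ext.none)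

def k0_pp_203 : ∃ t, chk3 f_pp_203 t 1 1 1 = true :=
  ⟨(l 3), by decide +kernel⟩

theorem c_pp_203 : CertN 0 536870912 1610612736 536870912 67108864 67108864 3 false true true .up 2 0 3
    ndN0q2 ndN1q3 pcN0 Cut.none Ext.none :=
  certNK1 (fam := false) (s1 := true) (s2 := true) (a := 2) (b := 0) (c := 3) (cn := .up) (n1 := ndN0q2) (n2 := ndN1q3) (pc := pcN0) (cut := Cut.none) (xt := Ext.none) (P1 := 0) (W1 := 536870912) (P2 := 1610612736) (W2 := 536870912) (P3 := 67108864) (W3 := 67108864) (N0 := 3)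
    rfl rfl rfl (fun _ => rfl) k0_pp_203

noncomputable def cut_pp_213 : Cut := Cut.of [[⟨0, 1, 0, 21338704⟩, ⟨1, 1, 0, 21338704⟩, ⟨2, 2, 0, 1685920⟩]]

noncomputable def f_pp_213 : ℕ → ℕ → ℕ → ℕ → Bool := onCell 0 536870912 1610612736 536870912 67108864 67108864
    (rowNK 3 0 false true true .pnn 2 1 3 (qsf 0 536870912 1610612736 536870912 1) ndN0q2 ndN1q3 pcN1 cut_pp_213 Ext.none)

def k0_pp_213 : ∃ t, chk3 f_pp_213 t 1 1 1 = true :=
  ⟨(b (l 3) (a (l 3) (b (l 3) (a (l 3) (b (l 3) (a (l 3) (b (l 3) (a (l 3) (b (l 3) (a (l 3) (b (l 3) (b (l 3) (b (l 3) (b (l 3) (l 6))))))))))))))), by decide +kernel⟩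

theorem c_pp_213 : CertN 0 536870912 1610612736 536870912 67108864 67108864 3 false true true .pnn 2 1 3
    ndN0q2 ndN1q3 pcN1 cut_pp_213 Ext.none :=
  certNK0 (fam := false) (s1 := true) (s2 := true) (a := 2) (b := 1) (c := 3) (cn := .pnn) (n1 := ndN0q2) (n2 := ndN1q3) (pc := pcN1) (cut := cut_pp_213) (xt := Ext.none) (P1 := 0) (W1 := 536870912) (P2 := 1610612736) (W2 := 536870912) (P3 := 67108864) (W3 := 67108864) (N0 := 3)
    rfl rfl rfl k0_pp_213

noncomputable def f_pm_001 : ℕ → ℕ → ℕ → ℕ → Bool := onCell 0 536870912 536870912 536870912 67108864 67108864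
    (rowNK 3 0 false true false .up 0 0 1 (qsf 0 536870912 536870912 536870912 0) ndN0q0 ndN1q1 pcN0 Cut.none Ext.none)

def k0_pm_001 : ∃ t, chk3 f_pm_001 t 1 1 1 = true :=
  ⟨(l 4), by decide +kernel⟩

theorem c_pm_001 : CertN 0 536870912 536870912 536870912 67108864 67108864 3 false true false .up 0 0 1
    ndN0q0 ndN1q1 pcN0 Cut.none Ext.none :=
  certNK0 (fam := false) (s1 := true) (s2 := false) (a := 0) (b := 0) (c := 1) (cn := .up) (n1 := ndN0q0) (n2 := ndN1q1) (pc := pcN0) (cut := Cut.none) (xt := Ext.none) (P1 := 0) (W1 := 536870912) (P2 := 536870912) (W2 := 536870912) (P3 := 67108864) (W3 := 67108864) (N0 := 3)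
    rfl rfl rfl k0_pm_001

noncomputable def f_pm_011 : ℕ → ℕ → ℕ → ℕ → Bool := onCell 0 536870912 536870912 536870912 67108864 67108864
    (rowNK 3 0 false true false .pnn 0 1 1 (qsf 0 536870912 536870912 536870912 1) ndN0q0 ndN1q1 pcN1 Cut.none Ext.none)

def k0_pm_011 : ∃ t, chk3 f_pm_011 t 1 1 1 = true :=
  ⟨(l 4), by decide +kernel⟩

theorem c_pm_011 : CertN 0 536870912 536870912 536870912 67108864 67108864 3 false true false .pnn 0 1 1
    ndN0q0 ndN1q1 pcN1 Cut.none Ext.none :=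
  certNK0 (fam := false) (s1 := true) (s2 := false) (a := 0) (b := 1) (c := 1) (cn := .pnn) (n1 := ndN0q0) (n2 := ndN1q1) (pc := pcN1) (cut := Cut.none) (xt := Ext.none) (P1 := 0) (W1 := 536870912) (P2 := 536870912) (W2 := 536870912) (P3 := 67108864) (W3 := 67108864) (N0 := 3)
    rfl rfl rfl k0_pm_011

noncomputable def cut_pm_012_a : Cut := Cut.of [[⟨0, 0, 0, 67108864⟩, ⟨1, 1, 0, 67108864⟩, ⟨2, 1, 0, 67108864⟩], [⟨0, 0, 1, 33554432⟩, ⟨1, 1, 2, 33554432⟩, ⟨2, 1, 0, 16777216⟩, ⟨0, 0, 0, 150994944⟩, ⟨0, 1, 0, 1023410176⟩, ⟨1, 0, 0, 1023410176⟩, ⟨1, 1, 0, 150994944⟩]]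

noncomputable def f_pm_012_a : ℕ → ℕ → ℕ → ℕ → Bool := onCell 536870912 536870912 0 536870912 67108864 67108864
    (rowNK 3 2 false true false .pnp 0 1 2 (qsf 0 536870912 0 536870912 1) ndN0q0 ndN1q2a pcN1 cut_pm_012_a Ext.none)

def k0_pm_012_a : ∃ t, chk3 f_pm_012_a t 2 1 1 = true :=
  ⟨(b (a (a (l 2) (l 17640080)) (a (l 17661672) (l 17600664))) (b (a (l 9767319911) (a (l 17911552) (l 17743368))) (a (b (l 18290344) (a (l 18666440) (b (l 18386720) (l 18484928)))) (b (a (l 18111888) (l 17874792)) (a (a (l 18317232) (l 18201496)) (a (l 18054248) (b (l 17870040) (l 17913408)))))))), by decide +kernel⟩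

def k1_pm_012_a : ∃ t, chk3 f_pm_012_a t 3 2 1 = true :=
  ⟨(a (a (l 17630528) (a (l 17917368) (l 18136232))) (a (a (b (l 18229568) (l 18334528)) (b (l 18363296) (l 18410000))) (a (a (b (l 18429144) (l 18413440)) (b (l 18455080) (b (l 18441952) (c (l 18748632) (l 17900248))))) (b (a (l 18444464) (b (l 18404416) (l 18388728))) (c (b (l 18838104) (a (l 18717960) (l 18631680))) (b (a (l 17930248) (l 17723320)) (a (l 17698592) (b (l 17498456) (l 17204216))))))))), by decide +kernel⟩

def k2_pm_012_a : ∃ t, chk3 f_pm_012_a t 6 3 1 = true :=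
  ⟨(a (b (l 17778152) (b (l 17814248) (a (l 17935992) (a (l 17711632) (l 17585216))))) (b (a (l 18042872) (b (l 18237272) (l 18172264))) (b (a (l 17947168) (a (l 17997752) (b (l 18054104) (l 17909928)))) (b (a (l 17817904) (a (a (l 17795968) (l 17624944)) (b (l 17705128) (c (l 17894472) (l 17244560))))) (a (a (l 17660152) (a (l 17637568) (b (l 17695072) (l 17562816)))) (a (c (b (l 17826688) (l 17704296)) (b (a (l 17485448) (l 17383560)) (a (b (l 17413312) (l 17363184)) (c (l 17365232) (b (l 17215400) (a (l 17190416) (l 16953440))))))) (c (b (l 17762504) (b (l 17650704) (l 17506744))) (b (a (l 17175336) (a (l 17139000) (l 16992112))) (c (b (a (l 17336072) (l 17259808)) (a (l 17264144) (b (l 17203168) (l 17101832)))) (b (a (l 17045208) (b (l 17033352) (l 14))) (a (b (l 16952896) (a (l 16962032) (l 14))) (l 14)))))))))))), by decide +kernel⟩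

def k3_pm_012_a : ∃ t, chk3 f_pm_012_a t 14 6 1 = true :=
  ⟨(a (b (l 18303216) (a (l 18179664) (l 18149656))) (b (a (l 18297464) (l 18264976)) (c (a (l 18417696) (l 18378320)) (a (l 17553216) (b (l 17705848) (l 17301608)))))), by decide +kernel⟩

def k4_pm_012_a : ∃ t, chk3 f_pm_012_a t 28 7 1 = true :=
  ⟨(b (b (a (l 18008736) (l 17787440)) (c (a (l 18105248) (l 18037872)) (a (l 17476432) (b (l 17463368) (l 17143728))))) (c (b (a (l 17792848) (b (l 17841328) (c (l 17847216) (l 17371608)))) (b (a (c (l 17793432) (l 17433728)) (c (l 17623576) (a (l 17327704) (b (l 17332992) (l 17172544))))) (a (c (b (l 17662344) (l 17567424)) (b (l 17287376) (a (l 17346392) (b (l 17281736) (l 17172744))))) (c (b (l 17408784) (a (l 17451728) (b (l 17384256) (l 17285496)))) (b (a (l 17146848) (c (l 17197240) (l 14))) (a (c (b (l 17254608) (l 17204912)) (l 14)) (l 14))))))) (b (a (b (l 17238192) (a (l 17232728) (l 16990584))) (a (b (l 17221320) (a (l 17012592) (l 16930000))) (b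 (l 17039552) (l 16700600)))) (b (a (b (a (l 17127176) (l 16939136)) (c (a (l 17249096) (l 17150432)) (l 14))) (b (a (l 16816088) (l 16753416)) (a (l 14) (l 16723928)))) (c (a (b (a (l 17108216) (b (l 17067480) (l 14))) (a (c (b (l 17175816) (l 17134784)) (l 14)) (l 14))) (l 14)) (c (l 14) (c (l 14) (a (l 14) (a (l 14) (a (l 14) (b (l 16727616) (b (l 16734456) (b (l 16738016) (a (l 14) (a (l 14) (b (l 16740344) (c (l 14) (l 16741416)))))))))))))))))), by decide +kernel⟩

def k5_pm_012_a : ∃ t, chk3 f_pm_012_a t 58 7 2 = true :=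
  ⟨(b (b (l 18176064) (b (l 17999312) (l 17854768))) (b (b (a (l 17731848) (l 17573296)) (c (a (l 17737648) (l 17641552)) (a (l 17318112) (b (l 17277768) (l 17148120))))) (c (b (a (l 17446496) (b (l 17473088) (l 17205712))) (b (a (l 17212872) (c (l 17286160) (l 14))) (a (c (b (l 17359584) (l 17297520)) (l 14)) (l 14)))) (b (b (a (l 17166576) (l 16804008)) (l 14)) (l 14))))), by decide +kernel⟩

def k6_pm_012_a : ∃ t, chk3 f_pm_012_a t 58 7 3 = true :=
  ⟨(a (b (b (l 17506112) (a (l 17138000) (l 17032424))) (b (b (l 16875648) (l 16706088)) (b (b (l 16712832) (l 16731736)) (c (l 14) (b (b (l 16726552) (l 16741728)) (b (a (l 16736232) (l 16737032)) (b (a (l 16742512) (l 16743432)) (a (c (l 14) (a (b (l 16741008) (c (l 14) (a (l 16743152) (l 16742104)))) (b (l 16741512) (b (l 16742464) (a (l 16742992) (l 16743264)))))) (a (b (l 16742624) (b (l 16743584) (c (l 14) (a (l 16743536) (l 16743808))))) (b (l 16743136) (b (l 16744112) (a (c (l 14) (l 16744080)) (b (l 16744776)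 (c (l 16746336) (l 16744528))))))))))))))) (b (b (l 17401960) (b (l 17178840) (l 17003488))) (b (b (l 16786240) (l 16710304)) (b (b (l 16712352) (l 16731960)) (a (c (l 14) (b (l 16740784) (b (l 16743104) (a (b (l 16741680) (b (l 16743648) (b (l 16744648) (c (b (l 16745712) (a (l 16745944) (l 16746216))) (a (l 16744640) (l 16744920)))))) (b (l 16742168) (b (l 16744176) (a (c (a (l 16747232) (l 16747368)) (l 16746176)) (b (l 16745360) (c (l 16747248) (l 16745488)))))))))) (a (b (l 16732136) (b (l 16739816) (c (l 14) (b (l 16742672) (b (l 16744712) (b (l 16745736) (a (a (l 16747736) (l 16747712)) (a (l 16747856) (l 16748000))))))))) (b (l 16737680) (b (l 16740240) (b (l 16746896) (c (b (l 16747384) (a (l 14) (a (l 14) (c (l 14) (c (l 14) (l 16748216)))))) (b (l 16745256) (b (l 16746296) (a (a (l 16748136) (l 16748280)) (c (l 16747704) (l 16746648))))))))))))))), by decide +kernel⟩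

def k7_pm_012_a : ∃ t, chk3 f_pm_012_a t 59 14 1 = true :=
  ⟨(b (c (l 18004960) (a (l 17212264) (l 16994288))) (b (c (l 17632744) (l 16675784)) (a (c (l 17716128) (l 16819600)) (c (l 17403536) (l 16663680))))), by decide +kernel⟩

def k8_pm_012_a : ∃ t, chk3 f_pm_012_a t 118 15 1 = true :=
  ⟨(b (b (c (c (l 17744952) (l 17202856)) (l 16682040)) (b (c (c (l 17579808) (l 17093992)) (l 16694040)) (l 16716104))) (b (b (l 16725032) (a (l 16730200) (l 16730392))) (c (l 14) (b (b (l 16740008) (a (l 16735328) (l 16736048))) (a (c (c (l 14) (b (l 16746488) (b (a (l 16745296) (l 16745784)) (b (a (l 16747368) (l 16747888)) (b (a (l 16748408) (l 16748944)) (a (c (l 14) (a (l 16748760) (l 16749032))) (b (l 16749480) (a (l 16750400) (l 16750016))))))))) (b (l 16744880) (a (b (l 16743712) (b (l 16745808) (b (l 16746864) (a (c (l 16747984) (l 16746944)) (c (l 16748272) (l 16747248)))))) (b (l 16744240) (b (l 16746368) (a (c (c (l 16749760) (l 16747944)) (l 16747184)) (a (l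 16749888) (l 16749384)))))))) (a (b (l 16741568) (b (l 16748408) (c (c (l 14) (b (l 16748416) (b (l 16749488) (b (l 16750024) (a (l 16750296) (l 16750576)))))) (b (l 16746936) (a (a (l 16749528) (l 16750992)) (a (l 16751136) (l 16751288))))))) (b (l 16747272) (b (l 16748928) (c (b (l 16749432) (a (c (l 14) (a (l 16751568) (l 16751712))) (b (l 16750704) (c (a (l 14) (l 16753296)) (l 16752272))))) (b (l 16747512) (b (l 16748608) (a (l 16750552) (l 16750856))))))))))))), by decide +kernel⟩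

def k9_pm_012_a : ∃ t, chk3 f_pm_012_a t 119 15 1 = true :=
  ⟨(b (b (l 16691896) (b (l 16695064) (l 16714808))) (b (a (b (l 16715240) (l 16733248)) (b (l 16715184) (l 16736144))) (a (c (l 14) (a (b (l 16744576) (b (l 16747744) (b (l 16749456) (b (c (l 16749960) (l 16748096)) (b (c (c (l 16751528) (l 16750600)) (l 16749208)) (a (c (c (a (l 16753432) (l 16753568)) (l 16752560)) (l 16751168)) (c (c (c (l 14) (l 16752880)) (l 16751536)) (l 16751472)))))))) (b (l 16744944) (b (l 16748224) (b (l 16749992) (b (c (l 16750504) (l 16748688)) (b (c (c (l 16752064) (l 16751168)) (l 16749816)) (a (c (c (c (l 14) (l 16752504)) (l 16751832)) (l 16750472)) (c (c (a (l 16752952) (l 16753096)) (l 16752120)) (l 16750784)))))))))) (a (c (l 14) (b (l 16742688) (b (l 16748712) (b (l 16750536) (b (c (l 16751048) (l 16749288)) (b (c (a (l 16752104) (l 16752384)) (l 16750432)) (a (c (c (a (l 16753232) (l 16753376)) (l 16752416)) (l 16751096)) (c (b (l 16752952) (a (l 16754584) (l 16754736)))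 (l 16751416))))))))) (b (b (l 16734256) (l 16745184)) (b (c (l 16751472) (l 16749208)) (c (c (l 14) (b (l 16751064) (c (l 14) (b (l 16752880) (a (l 14) (a (l 14) (a (l 14) (b (l 16754344) (l 16755104))))))))) (b (l 16751088) (b (c (l 16751608) (l 16749896)) (b (c (c (l 16753168) (l 16752320)) (l 16751048)) (a (c (b (l 16753248) (a (l 16754880) (l 16755024))) (l 16751728)) (c (b (l 16753536) (a (l 16755176) (l 16755320))) (l 16752048))))))))))))), by decide +kernel⟩

def k10_pm_012_a : ∃ t, chk3 f_pm_012_a t 30 6 1 = true :=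
  ⟨(b (a (a (l 18214704) (l 18103488)) (c (l 18552520) (a (l 17639544) (l 17487400)))) (a (b (a (l 17985736) (l 17689824)) (c (l 18182584) (a (l 17288912) (l 17115320)))) (c (b (a (l 18309112) (l 18225736)) (a (l 18042568) (l 17785120))) (a (b (l 17268080) (l 16879104)) (b (l 17069288) (l 16629952)))))), by decide +kernel⟩

def k11_pm_012_a : ∃ t, chk3 f_pm_012_a t 30 14 1 = true :=
  ⟨(a (b (c (c (l 18127040) (a (l 17686640) (l 17412312))) (a (l 16803440) (l 16650408))) (a (b (c (l 17576936) (l 16644640)) (l 16705600)) (b (l 16722504) (l 16680840)))) (b (b (a (c (l 17752120) (l 16605576)) (l 16872592)) (a (l 16730040) (l 16619128))) (b (a (l 16659440) (l 16636392)) (a (a (l 16658552) (l 16657504)) (b (l 16650376) (l 16660312)))))), by decide +kernel⟩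

def k12_pm_012_a : ∃ t, chk3 f_pm_012_a t 30 15 1 = true :=
  ⟨(a (b (b (a (b (l 16675016) (l 16683944)) (a (l 16700336) (l 16689176))) (a (b (l 16703856) (c (l 16715568) (l 16711664))) (a (a (l 16710192) (l 16712656)) (b (l 16693760) (l 16725456))))) (b (b (a (a (l 16715168) (l 16725688)) (a (l 16725760) (l 16726192))) (b (a (c (l 16734208) (l 16730472)) (a (l 16723760) (l 16734904))) (a (a (l 16728720) (l 16739632)) (a (l 16734840) (l 16740896))))) (a (a (b (b (l 16739624) (a (l 16745552) (l 16745936))) (c (c (l 14) (a (b (l 16752312) (b (l 16751544) (c (l 14) (b (l 16753408) (c (l 14) (a (b (l 16754288) (a (l 16755000) (l 6))) (l 6))))))) (b (l 16752744) (b (l 16754656) (l 6))))) (a (b (l 16749712) (b (l 16751648) (b (c (l 16752168) (l 16750512)) (a (b (c (l 16753256) (l 16751592)) (c (c (c (l 16755296) (l 16754232)) (l 16753608)) (l 16752368))) (l 6))))) (b (l 16750232) (b (l 16753528) (l 6)))))) (b (b (l 16740200) (a (l 16746328) (l 16746728))) (a (b (b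 (l 16750840) (l 6)) (l 6)) (l 6)))) (a (b (b (l 16743432) (l 6)) (l 6)) (l 6))))) (b (a (a (b (l 16688248) (b (l 16693312) (l 16714824))) (b (l 16687848) (b (l 16693368) (l 16704696)))) (a (b (l 16687024) (b (l 16693008) (l 16704632))) (b (l 16691480) (b (l 16692656) (l 6))))) (a (b (b (a (c (l 16727920) (l 16724768)) (l 16727000)) (l 6)) (l 6)) (l 6)))), by decide +kernel⟩

def k13_pm_012_a : ∃ t, chk3 f_pm_012_a t 31 3 1 = true :=
  ⟨(b (b (a (c (b (l 18531872) (l 18332296)) (b (l 17396536) (l 17009520))) (c (b (l 18337584) (c (l 18454784) (a (l 17782536) (l 17554320)))) (b (l 16779392) (a (l 16676880) (l 16515640))))) (b (a (c (a (l 18114696) (l 17839792)) (a (l 16821272) (l 16537792))) (a (l 16749728) (b (l 16717624) (l 16550512)))) (a (a (c (c (l 18097344) (l 17313832)) (l 16572792)) (l 16659952)) (a (b (l 16551640) (l 16588856)) (b (l 16566496) (l 16667832)))))) (b (b (a (b (a (l 16597016) (l 16590776)) (a (l 16613888) (l 16629864))) (b (a (l 16606616)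 (a (l 16603776) (l 16601984))) (a (a (l 16626592) (l 16625248)) (a (l 16623960) (l 16622736))))) (b (a (a (l 16692712) (b (l 16623448) (l 16633736))) (a (a (l 16647224) (l 16646448)) (b (a (l 16619080) (l 6)) (l 6)))) (a (a (b (l 16647328) (l 16657872)) (b (l 16665408) (l 16666056))) (a (b (c (l 16648664) (l 16641664)) (l 6)) (l 6))))) (b (a (b (a (b (l 16679344) (c (l 16686800) (l 16679024))) (l 6)) (l 6)) (l 6)) (l 6)))), by decide +kernel⟩

theorem s14_pm_012_a : ∃ t, chk3 f_pm_012_a t 30 7 1 = true := ex3_b k11_pm_012_a k12_pm_012_a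

theorem s15_pm_012_a : ∃ t, chk3 f_pm_012_a t 30 3 1 = true := ex3_b k10_pm_012_a s14_pm_012_a

theorem s16_pm_012_a : ∃ t, chk3 f_pm_012_a t 15 3 1 = true := ex3_a s15_pm_012_a k13_pm_012_a

theorem s17_pm_012_a : ∃ t, chk3 f_pm_012_a t 59 15 1 = true := ex3_a k8_pm_012_a k9_pm_012_a

theorem s18_pm_012_a : ∃ t, chk3 f_pm_012_a t 59 7 1 = true := ex3_b k7_pm_012_a s17_pm_012_a

theorem s19_pm_012_a : ∃ t, chk3 f_pm_012_a t 58 7 1 = true := ex3_c k5_pm_012_a k6_pm_012_a

theorem s20_pm_012_a : ∃ t, chk3 f_pm_012_a t 29 7 1 = true := ex3_a s19_pm_012_a s18_pm_012_a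

theorem s21_pm_012_a : ∃ t, chk3 f_pm_012_a t 14 7 1 = true := ex3_a k4_pm_012_a s20_pm_012_a

theorem s22_pm_012_a : ∃ t, chk3 f_pm_012_a t 14 3 1 = true := ex3_b k3_pm_012_a s21_pm_012_a

theorem s23_pm_012_a : ∃ t, chk3 f_pm_012_a t 7 3 1 = true := ex3_a s22_pm_012_a s16_pm_012_a

theorem s24_pm_012_a : ∃ t, chk3 f_pm_012_a t 3 3 1 = true := ex3_a k2_pm_012_a s23_pm_012_a

theorem s25_pm_012_a : ∃ t, chk3 f_pm_012_a t 3 1 1 = true := ex3_b k1_pm_012_a s24_pm_012_a

theorem s26_pm_012_a : ∃ t, chk3 f_pm_012_a t 1 1 1 = true := ex3_a k0_pm_012_a s25_pm_012_a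

theorem c_pm_012_a : CertN 0 536870912 0 536870912 67108864 67108864 3 false true false .pnp 0 1 2
    ndN0q0 ndN1q2a pcN1 cut_pm_012_a Ext.none :=
  certNK2 (fam := false) (s1 := true) (s2 := false) (a := 0) (b := 1) (c := 2) (cn := .pnp) (n1 := ndN0q0) (n2 := ndN1q2a) (pc := pcN1) (cut := cut_pm_012_a) (xt := Ext.none) (P1 := 0) (W1 := 536870912) (P2 := 0) (W2 := 536870912) (P3 := 67108864) (W3 := 67108864) (N0 := 3)
    rfl rfl rfl (fun _ => rfl) s26_pm_012_a

noncomputable def cut_pm_012_b : Cut := Cut.of [[⟨0, 0, 0, 67108864⟩, ⟨1, 1, 0, 67108864⟩, ⟨2, 1, 0, 67108864⟩], [⟨0, 0, 1, 33554432⟩, ⟨1, 1, 2, 33554432⟩, ⟨2, 1, 0, 16777216⟩, ⟨0, 0, 0, 150994944⟩, ⟨0, 1, 0, 1023410176⟩, ⟨1, 0, 0, 1023410176⟩, ⟨1, 1, 0, 150994944⟩]]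

noncomputable def f_pm_012_b : ℕ → ℕ → ℕ → ℕ → Bool := onCell 536870912 536870912 1239849684 370763052 67108864 67108864
    (rowNK 3 2 false true false .pnp 0 1 2 (qsf 0 536870912 1239849684 370763052 1) ndN0q0 ndN1q2b pcN1 cut_pm_012_b Ext.none)

def k0_pm_012_b : ∃ t, chk3 f_pm_012_b t 1 1 1 = true :=
  ⟨(a (b (a (l 2) (b (a (l 17377552) (l 17412552)) (a (l 2) (l 17089616)))) (l 2)) (b (a (a (b (l 17472648) (l 17344744)) (b (l 17889944) (l 17801224))) (a (b (a (l 18242848) (l 18458640)) (l 18392848)) (a (b (b (l 18558672) (l 18749000)) (l 18833408)) (b (b (b (l 18540952) (l 18749272)) (l 18954768)) (l 19119800))))) (a (a (l 2) (b (l 17636776) (l 2))) (a (b (l 18202168) (l 17973928)) (a (b (l 18711728) (l 18427216)) (l 18930128)))))), by decide +kernel⟩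

theorem c_pm_012_b : CertN 0 536870912 1239849684 370763052 67108864 67108864 3 false true false .pnp 0 1 2
    ndN0q0 ndN1q2b pcN1 cut_pm_012_b Ext.none :=
  certNK2 (fam := false) (s1 := true) (s2 := false) (a := 0) (b := 1) (c := 2) (cn := .pnp) (n1 := ndN0q0) (n2 := ndN1q2b) (pc := pcN1) (cut := cut_pm_012_b) (xt := Ext.none) (P1 := 0) (W1 := 536870912) (P2 := 1239849684) (W2 := 370763052) (P3 := 67108864) (W3 := 67108864) (N0 := 3)
    rfl rfl rfl (fun _ => rfl) k0_pm_012_b

noncomputable def cut_pm_022_a : Cut := Cut.of [[⟨0, 0, 0, 67108864⟩, ⟨1, 1, 0, 67108864⟩, ⟨2, 1, 0, 67108864⟩]]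

noncomputable def f_pm_022_a : ℕ → ℕ → ℕ → ℕ → Bool := onCell 1073741824 536870912 0 536870912 67108864 67108864
    (rowNK 3 2 false true false .pp 0 2 2 (qsf 0 536870912 0 536870912 2) ndN0q0 ndN1q2a pcN2 cut_pm_022_a Ext.none)

def k0_pm_022_a : ∃ t, chk3 f_pm_022_a t 4 2 1 = true :=
  ⟨(c (a (b (l 18867232) (b (l 18739888) (a (l 18298016) (l 18415704)))) (b (l 18663112) (b (l 18510232) (a (l 18299720) (b (l 18284760) (l 18074064)))))) (a (b (a (b (l 17898472) (l 17822064)) (l 17743264)) (b (a (b (l 17685368) (l 17537072)) (l 17544400)) (a (b (a (l 17349800) (l 17315384)) (a (l 17001920) (l 17038088))) (b (l 17276776) (l 16949488))))) (b (a (l 17736672) (l 17707312)) (b (a (l 17500904) (l 17478536)) (a (b (l 17248000) (l 17003448)) (b (l 17243080) (a (l 17014328) (l 46741325991)))))))), by decide +kernel⟩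

def k1_pm_022_a : ∃ t, chk3 f_pm_022_a t 4 6 1 = true :=
  ⟨(b (b (a (c (a (a (l 18239720) (l 18170256)) (l 17993280)) (a (a (l 16672240) (l 16659136)) (a (l 16654888) (l 16659120)))) (a (c (l 17825624) (a (l 16671520) (l 16691840))) (c (c (l 58555030535) (a (l 17611216) (l 199750693975))) (a (l 16719192) (a (l 104723174487) (l 162705416935)))))) (a (a (a (b (c (l 17896960) (l 16504432)) (l 16672952)) (c (c (l 18229176) (l 17394608)) (l 16529440))) (a (l 16728616) (l 16762552))) (a (a (l 16741800) (l 16728624)) (a (b (c (l 47816396135) (l 16629608)) (a (l 16681760) (l 171295596599))) (l 1))))) (a (a (b (b (a (l 16637912) (l 16551648)) (a (a (l 16567920) (l 16546512)) (l 16566880))) (b (a (a (l 16583352) (l 16583312)) (l 16646208)) (a (a (b (l 16574744) (l 16583392)) (l 16600376)) (b (l 16596360) (l 16626424))))) (b (a (b (l 16557288) (l 16595592)) (a (b (l 16576760) (l 16596200)) (l 16600848))) (a (b (l 16616488) (b (l 16611960) (l 16623496))) (b (c (l 16758328)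 (l 16622744)) (c (l 16646416) (l 16644368)))))) (a (b (a (b (l 16612032) (l 16630712)) (b (l 16642512) (a (l 16629360) (l 115460530135)))) (a (b (l 16655776) (a (l 16665112) (b (l 51572940983) (l 109555011367)))) (b (a (b (l 16656824) (l 122976746231)) (l 1)) (l 1)))) (b (a (b (l 136398524151) (l 1)) (l 1)) (l 1))))), by decide +kernel⟩

def k2_pm_022_a : ∃ t, chk3 f_pm_022_a t 4 7 1 = true :=
  ⟨(a (a (b (b (b (a (a (a (l 16617792) (l 16618168)) (c (l 16619848) (l 16617616))) (a (l 16619400) (b (l 16615064) (l 16626328)))) (b (a (a (l 16632296) (l 16633328)) (a (l 16634136) (l 16638992))) (l 6))) (l 6)) (l 6)) (a (b (b (b (a (l 16634400) (c (l 16648944) (l 16647464))) (b (a (c (l 16653464) (l 16652328)) (l 16666416)) (l 6))) (l 6)) (l 6)) (b (a (b (b (l 16661632) (l 16685776)) (l 6)) (b (b (l 16674688) (b (a (l 16668208) (l 68215980103)) (a (l 6) (l 143914777751)))) (a (l 6) (l 1)))) (l 1)))) (b (a (b (a (b (a (b (l 44593638999) (a (l 61236646999) (l 145525367591)))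 (l 170758307655)) (a (l 168610888055) (l 1))) (l 1)) (l 1)) (l 1)) (l 1))), by decide +kernel⟩

def k3_pm_022_a : ∃ t, chk3 f_pm_022_a t 5 1 1 = true :=
  ⟨(b (a (b (a (a (l 18086728) (l 51038336391)) (l 316253250055)) (a (b (c (l 18395304) (a (l 17412520) (l 232500092135))) (c (l 291020396199) (a (b (l 76806556423) (l 198676359751)) (l 1)))) (l 1))) (l 1)) (b (l 1) (l 1))), by decide +kernel⟩

def k4_pm_022_a : ∃ t, chk3 f_pm_022_a t 3 1 1 = true :=
  ⟨(l 1), by decide +kernel⟩

theorem s5_pm_022_a : ∃ t, chk3 f_pm_022_a t 4 3 1 = true := ex3_b k1_pm_022_a k2_pm_022_a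

theorem s6_pm_022_a : ∃ t, chk3 f_pm_022_a t 4 1 1 = true := ex3_b k0_pm_022_a s5_pm_022_a

theorem s7_pm_022_a : ∃ t, chk3 f_pm_022_a t 2 1 1 = true := ex3_a s6_pm_022_a k3_pm_022_a

theorem s8_pm_022_a : ∃ t, chk3 f_pm_022_a t 1 1 1 = true := ex3_a s7_pm_022_a k4_pm_022_a

theorem c_pm_022_a : CertN 0 536870912 0 536870912 67108864 67108864 3 false true false .pp 0 2 2
    ndN0q0 ndN1q2a pcN2 cut_pm_022_a Ext.none :=
  certNK2 (fam := false) (s1 := true) (s2 := false) (a := 0) (b := 2) (c := 2) (cn := .pp) (n1 := ndN0q0) (n2 := ndN1q2a) (pc := pcN2) (cut := cut_pm_022_a) (xt := Ext.none) (P1 := 0) (W1 := 536870912) (P2 := 0) (W2 := 536870912) (P3 := 67108864) (W3 := 67108864) (N0 := 3)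
    rfl rfl rfl (fun _ => rfl) s8_pm_022_a

noncomputable def cut_pm_022_b : Cut := Cut.of [[⟨0, 0, 0, 67108864⟩, ⟨1, 1, 0, 67108864⟩, ⟨2, 1, 0, 67108864⟩]]

noncomputable def f_pm_022_b : ℕ → ℕ → ℕ → ℕ → Bool := onCell 1073741824 536870912 1239849684 370763052 67108864 67108864
    (rowNK 3 2 false true false .pp 0 2 2 (qsf 0 536870912 1239849684 370763052 2) ndN0q0 ndN1q2b pcN2 cut_pm_022_b Ext.none)

def k0_pm_022_b : ∃ t, chk3 f_pm_022_b t 1 1 1 = true :=
  ⟨(a (b (a (a (b (b (b (a (l 18591752) (l 18503152)) (l 18818480)) (l 19093040)) (l 19346064)) (b (b (a (l 18511392) (l 18321880)) (l 18949312)) (l 19240176))) (b (b (a (b (a (l 18321768) (l 267934705735)) (l 18553072)) (l 317327656679)) (a (l 18830040) (l 74125208343))) (a (l 19146144) (l 19057224)))) (a (b (l 19323576) (l 19145128)) (b (l 19231472) (l 19147248)))) (b (a (b (l 1) (a (l 19007464) (l 373163518583))) (l 1)) (a (b (l 19130024) (l 19125288)) (b (l 4) (l 19006832))))), by decide +kernel⟩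

theorem c_pm_022_b : CertN 0 536870912 1239849684 370763052 67108864 67108864 3 false true false .pp 0 2 2
    ndN0q0 ndN1q2b pcN2 cut_pm_022_b Ext.none :=
  certNK2 (fam := false) (s1 := true) (s2 := false) (a := 0) (b := 2) (c := 2) (cn := .pp) (n1 := ndN0q0) (n2 := ndN1q2b) (pc := pcN2) (cut := cut_pm_022_b) (xt := Ext.none) (P1 := 0) (W1 := 536870912) (P2 := 1239849684) (W2 := 370763052) (P3 := 67108864) (W3 := 67108864) (N0 := 3)
    rfl rfl rfl (fun _ => rfl) k0_pm_022_b

noncomputable def f_pm_023 : ℕ → ℕ → ℕ → ℕ → Bool := onCell 0 536870912 1073741824 536870912 67108864 67108864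
    (rowNK 3 1 false true false .up 0 2 3 (qsf 0 536870912 1610612736 536870912 2) ndN0q0 ndN1q3 pcN2 Cut.none Ext.none)

def k0_pm_023 : ∃ t, chk3 f_pm_023 t 1 1 1 = true :=
  ⟨(b (a (a (l 1) (b (l 1) (l 360279489543))) (a (l 271695186071) (l 190626881303))) (a (b (a (l 395712914903) (l 19220216)) (a (l 19557736) (l 18913704))) (b (a (l 18757800) (l 18274392)) (a (l 18430688) (l 17938264))))), by decide +kernel⟩

theorem c_pm_023 : CertN 0 536870912 1610612736 536870912 67108864 67108864 3 false true false .up 0 2 3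
    ndN0q0 ndN1q3 pcN2 Cut.none Ext.none :=
  certNK1 (fam := false) (s1 := true) (s2 := false) (a := 0) (b := 2) (c := 3) (cn := .up) (n1 := ndN0q0) (n2 := ndN1q3) (pc := pcN2) (cut := Cut.none) (xt := Ext.none) (P1 := 0) (W1 := 536870912) (P2 := 1610612736) (W2 := 536870912) (P3 := 67108864) (W3 := 67108864) (N0 := 3)
    rfl rfl rfl (fun _ => rfl) k0_pm_023

noncomputable def f_pm_033 : ℕ → ℕ → ℕ → ℕ → Bool := onCell 1610612736 536870912 1610612736 536870912 67108864 67108864
    (rowNK 3 2 false true false .pnn 0 3 3 (qsf 0 536870912 1610612736 536870912 3) ndN0q0 ndN1q3 pcN3 Cut.none Ext.none)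

def k0_pm_033 : ∃ t, chk3 f_pm_033 t 1 1 1 = true :=
  ⟨(a (b (a (b (l 4) (l 396986774695)) (l 4)) (a (b (a (l 18124392) (l 18208272)) (a (l 17354936) (l 17663896))) (a (l 197269442215) (l 4)))) (l 4)), by decide +kernel⟩

theorem c_pm_033 : CertN 0 536870912 1610612736 536870912 67108864 67108864 3 false true false .pnn 0 3 3
    ndN0q0 ndN1q3 pcN3 Cut.none Ext.none :=
  certNK2 (fam := false) (s1 := true) (s2 := false) (a := 0) (b := 3) (c := 3) (cn := .pnn) (n1 := ndN0q0) (n2 := ndN1q3) (pc := pcN3) (cut := Cut.none) (xt := Ext.none) (P1 := 0) (W1 := 536870912) (P2 := 1610612736) (W2 := 536870912) (P3 := 67108864) (W3 := 67108864) (N0 := 3)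
    rfl rfl rfl (fun _ => rfl) k0_pm_033

noncomputable def f_pm_101 : ℕ → ℕ → ℕ → ℕ → Bool := onCell 0 536870912 536870912 536870912 67108864 67108864
    (rowNK 3 2 false true false .npn 1 0 1 (qsf 536870912 536870912 536870912 536870912 0) ndN0q1 ndN1q1 pcN0 Cut.none Ext.none)

def k0_pm_101 : ∃ t, chk3 f_pm_101 t 1 1 1 = true :=
  ⟨(a (b (l 4) (a (b (l 4) (b (l 18383296) (l 18931480))) (l 4))) (l 4)), by decide +kernel⟩

theorem c_pm_101 : CertN 536870912 536870912 536870912 536870912 67108864 67108864 3 false true false .npn 1 0 1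
    ndN0q1 ndN1q1 pcN0 Cut.none Ext.none :=
  certNK2 (fam := false) (s1 := true) (s2 := false) (a := 1) (b := 0) (c := 1) (cn := .npn) (n1 := ndN0q1) (n2 := ndN1q1) (pc := pcN0) (cut := Cut.none) (xt := Ext.none) (P1 := 536870912) (W1 := 536870912) (P2 := 536870912) (W2 := 536870912) (P3 := 67108864) (W3 := 67108864) (N0 := 3)
    rfl rfl rfl (fun _ => rfl) k0_pm_101

noncomputable def cut_pm_102_a : Cut := Cut.of [[⟨0, 1, 0, 67108864⟩, ⟨1, 0, 0, 67108864⟩, ⟨2, 1, 0, 67108864⟩]]

noncomputable def f_pm_102_a : ℕ → ℕ → ℕ → ℕ → Bool := onCell 536870912 536870912 0 536870912 67108864 67108864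
    (rowNK 3 0 false true false .npp 1 0 2 (qsf 536870912 536870912 0 536870912 0) ndN0q1 ndN1q2a pcN0 cut_pm_102_a Ext.none)

def k0_pm_102_a : ∃ t, chk3 f_pm_102_a t 2 1 1 = true :=
  ⟨(b (a (b (l 2) (a (l 2) (l 17799632))) (b (a (l 17526688) (l 17396000)) (a (l 17706760) (l 17586552)))) (b (a (a (l 2) (l 18092320)) (a (l 17969776) (b (l 17713464) (l 17864360)))) (a (b (l 18368160) (a (l 18601784) (l 18400000))) (b (a (l 18190736) (l 18018904)) (a (l 18311024) (l 18385552)))))), by decide +kernel⟩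

def k1_pm_102_a : ∃ t, chk3 f_pm_102_a t 3 2 1 = true :=
  ⟨(a (a (b (a (l 17256360) (l 17143032)) (l 17384056)) (b (a (l 17145200) (b (l 133312213111) (l 17037264))) (a (l 17204216) (l 17214720)))) (a (b (a (b (l 140291759959) (a (l 122574885767) (l 137070520887))) (l 3)) (a (b (a (l 17017336) (l 117206196295)) (l 17098096)) (b (a (l 138144284615) (l 3)) (a (b (l 115595606167) (l 17036624)) (b (l 140828663911) (a (l 115595614903) (l 140291737223))))))) (l 3))), by decide +kernel⟩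

def k2_pm_102_a : ∃ t, chk3 f_pm_102_a t 6 3 1 = true :=
  ⟨(b (a (b (l 17535376) (l 17645736)) (b (l 17296944) (a (l 17451616) (l 17299000)))) (b (a (l 17784328) (a (l 17549752) (l 17445016))) (a (a (l 17993424) (l 17864824)) (b (l 17728160) (a (l 17753992) (l 17594648)))))), by decide +kernel⟩

def k3_pm_102_a : ∃ t, chk3 f_pm_102_a t 7 6 1 = true :=
  ⟨(a (a (b (l 17054736) (l 17146160)) (b (a (l 16997824) (b (a (l 17032432) (l 115058706343)) (l 16999688))) (b (l 17075448) (l 17067952)))) (a (b (a (a (b (l 141902263607) (a (l 17020832) (l 115595504311))) (b (l 3) (b (l 146197231223) (a (l 116669254311) (l 144049688599))))) (l 3)) (a (b (a (l 16970088) (a (l 16976144) (b (c (l 110226914839) (l 123648356343)) (l 16963016)))) (a (l 16929280) (l 16917312))) (b (a (c (a (l 111300646967) (l 143512930919)) (b (l 145659962695) (a (a (l 131164312119) (l 126869493639)) (l 144586194807)))) (l 3)) (a (a (l 16867560) (b (c (l 113448019383) (b (l 144049285959) (l 132238058983)))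 (l 16882816))) (b (a (c (l 143512808135) (l 142438548871)) (l 3)) (a (b (c (l 142438986983) (l 134922375543)) (a (l 16861928) (l 130090598631))) (b (l 3) (l 143512299511)))))))) (l 3))), by decide +kernel⟩

def k4_pm_102_a : ∃ t, chk3 f_pm_102_a t 7 7 1 = true :=
  ⟨(a (b (a (l 17473024) (b (l 17073112) (l 17265000))) (b (a (l 17345248) (a (l 17197728) (l 17114960))) (a (l 17506528) (b (l 17214672) (l 17358176))))) (b (a (a (b (l 16982400) (l 16970296)) (a (b (l 16926216) (l 16914448)) (b (b (a (l 16827552) (b (a (l 134922393911) (l 142438553383)) (a (l 16796592) (l 16789288)))) (a (l 16835808) (l 16827856))) (b (l 16851616) (l 16879016))))) (a (b (a (b (a (b (l 3) (a (b (l 138680445383) (l 130627401479)) (l 139217303095))) (l 3)) (a (b (a (l 16787264) (b (l 135459232791) (l 126869307847))) (a (l 16792984) (l 16788856))) (b (a (l 139217304727) (l 3)) (a (b (l 134385493255) (c (l 135459279623) (l 128479921719))) (l 138680446087))))) (l 3)) (a (b (a (l 16830432)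 (b (a (l 16790464) (b (l 133311748631) (a (l 16773176) (l 126869306919)))) (a (l 16795896) (l 16792096)))) (a (l 16839664) (l 16854032))) (b (a (b (a (l 138143579783) (l 3)) (a (a (b (l 126332427079) (l 16774904)) (b (l 135996106263) (l 125258686855))) (b (l 3) (l 137069838247)))) (l 3)) (a (b (a (l 16799000) (a (b (b (l 137606715271) (l 16770688)) (l 16776656)) (b (l 134922356423) (b (l 137606716631) (l 16771608))))) (a (l 16798888) (l 16800696))) (b (a (b (l 3) (c (l 137069841847) (l 135459232039))) (l 3)) (l 6)))))) (l 3))) (a (b (a (b (l 17009680) (l 17040784)) (b (l 16938544) (l 16965032))) (b (a (l 17064696) (a (l 16992992) (l 6))) (a (l 17108104) (l 6)))) (b (a (a (b (l 16896400) (l 6)) (l 6)) (l 6)) (l 6))))), by decide +kernel⟩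

theorem s5_pm_102_a : ∃ t, chk3 f_pm_102_a t 7 3 1 = true := ex3_b k3_pm_102_a k4_pm_102_a

theorem s6_pm_102_a : ∃ t, chk3 f_pm_102_a t 3 3 1 = true := ex3_a k2_pm_102_a s5_pm_102_a

theorem s7_pm_102_a : ∃ t, chk3 f_pm_102_a t 3 1 1 = true := ex3_b k1_pm_102_a s6_pm_102_a

theorem s8_pm_102_a : ∃ t, chk3 f_pm_102_a t 1 1 1 = true := ex3_a k0_pm_102_a s7_pm_102_a

theorem c_pm_102_a : CertN 536870912 536870912 0 536870912 67108864 67108864 3 false true false .npp 1 0 2
    ndN0q1 ndN1q2a pcN0 cut_pm_102_a Ext.none :=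
  certNK0 (fam := false) (s1 := true) (s2 := false) (a := 1) (b := 0) (c := 2) (cn := .npp) (n1 := ndN0q1) (n2 := ndN1q2a) (pc := pcN0) (cut := cut_pm_102_a) (xt := Ext.none) (P1 := 536870912) (W1 := 536870912) (P2 := 0) (W2 := 536870912) (P3 := 67108864) (W3 := 67108864) (N0 := 3)
    rfl rfl rfl s8_pm_102_a

noncomputable def cut_pm_102_b : Cut := Cut.of [[⟨0, 1, 0, 67108864⟩, ⟨1, 0, 0, 67108864⟩, ⟨2, 1, 0, 67108864⟩]]

noncomputable def f_pm_102_b : ℕ → ℕ → ℕ → ℕ → Bool := onCell 536870912 536870912 0 536870912 67108864 67108864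
    (rowNK 3 1 false true false .npp 1 0 2 (qsf 536870912 536870912 1239849684 370763052 0) ndN0q1 ndN1q2b pcN0 cut_pm_102_b Ext.none)

def k0_pm_102_b : ∃ t, chk3 f_pm_102_b t 1 1 1 = true :=
  ⟨(a (b (l 1) (b (l 1) (a (l 1) (b (l 192771292807) (l 17490112))))) (a (b (l 1) (b (b (a (l 1) (a (l 184180896039) (a (b (l 1) (b (l 109152777591) (l 16993256))) (l 3)))) (a (l 184181337479) (a (l 17105456) (a (l 17311944) (l 376515104999))))) (a (l 17376008) (b (l 17434096) (l 17233296))))) (a (b (l 3) (b (l 3) (b (a (l 372220536055) (l 3)) (l 122038821015)))) (l 3)))), by decide +kernel⟩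

theorem c_pm_102_b : CertN 536870912 536870912 1239849684 370763052 67108864 67108864 3 false true false .npp 1 0 2
    ndN0q1 ndN1q2b pcN0 cut_pm_102_b Ext.none :=
  certNK1 (fam := false) (s1 := true) (s2 := false) (a := 1) (b := 0) (c := 2) (cn := .npp) (n1 := ndN0q1) (n2 := ndN1q2b) (pc := pcN0) (cut := cut_pm_102_b) (xt := Ext.none) (P1 := 536870912) (W1 := 536870912) (P2 := 1239849684) (W2 := 370763052) (P3 := 67108864) (W3 := 67108864) (N0 := 3)
    rfl rfl rfl (fun _ => rfl) k0_pm_102_b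

noncomputable def f_pm_112_a : ℕ → ℕ → ℕ → ℕ → Bool := onCell 536870912 536870912 0 536870912 67108864 67108864
    (rowNK 3 2 false true false .dn 1 1 2 (qsf 536870912 536870912 0 536870912 1) ndN0q1 ndN1q2a pcN1 Cut.none Ext.none)

def k0_pm_112_a : ∃ t, chk3 f_pm_112_a t 1 1 1 = true :=
  ⟨(a (b (a (a (b (l 17385128) (l 17576880)) (l 17619088)) (a (l 17662504) (l 1))) (a (b (a (l 17910024) (l 17971216)) (b (l 18375816) (a (l 26880963639) (l 1)))) (b (l 1) (l 1)))) (l 1)), by decide +kernel⟩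

theorem c_pm_112_a : CertN 536870912 536870912 0 536870912 67108864 67108864 3 false true false .dn 1 1 2
    ndN0q1 ndN1q2a pcN1 Cut.none Ext.none :=
  certNK2 (fam := false) (s1 := true) (s2 := false) (a := 1) (b := 1) (c := 2) (cn := .dn) (n1 := ndN0q1) (n2 := ndN1q2a) (pc := pcN1) (cut := Cut.none) (xt := Ext.none) (P1 := 536870912) (W1 := 536870912) (P2 := 0) (W2 := 536870912) (P3 := 67108864) (W3 := 67108864) (N0 := 3)
    rfl rfl rfl (fun _ => rfl) k0_pm_112_a

noncomputable def f_pm_112_b : ℕ → ℕ → ℕ → ℕ → Bool := onCell 536870912 536870912 536870912 536870912 67108864 67108864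
    (rowNK 3 1 false true false .dn 1 1 2 (qsf 536870912 536870912 1239849684 370763052 1) ndN0q1 ndN1q2b pcN1 Cut.none Ext.none)

def k0_pm_112_b : ∃ t, chk3 f_pm_112_b t 1 1 1 = true :=
  ⟨(a (b (a (b (a (l 285113817399) (l 17598816)) (b (l 17429216) (l 17098248))) (b (b (l 17204160) (l 16929496)) (l 17040448))) (a (b (l 17524720) (b (l 17936480) (b (l 18230816) (l 18439192)))) (b (l 17279928) (l 17749120)))) (b (b (a (a (l 17062936) (l 17272808)) (a (b (l 17479720) (l 17368608)) (l 3))) (a (l 17338336) (a (l 17416640) (l 2)))) (a (b (l 17191312) (l 2)) (l 2)))), by decide +kernel⟩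

theorem c_pm_112_b : CertN 536870912 536870912 1239849684 370763052 67108864 67108864 3 false true false .dn 1 1 2
    ndN0q1 ndN1q2b pcN1 Cut.none Ext.none :=
  certNK1 (fam := false) (s1 := true) (s2 := false) (a := 1) (b := 1) (c := 2) (cn := .dn) (n1 := ndN0q1) (n2 := ndN1q2b) (pc := pcN1) (cut := Cut.none) (xt := Ext.none) (P1 := 536870912) (W1 := 536870912) (P2 := 1239849684) (W2 := 370763052) (P3 := 67108864) (W3 := 67108864) (N0 := 3)
    rfl rfl rfl (fun _ => rfl) k0_pm_112_b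

noncomputable def cut_pm_113 : Cut := Cut.of [[⟨0, 1, 0, 21338704⟩, ⟨1, 1, 0, 21338704⟩, ⟨2, 2, 0, 1685920⟩]]

noncomputable def f_pm_113 : ℕ → ℕ → ℕ → ℕ → Bool := onCell 536870912 536870912 536870912 536870912 67108864 67108864
    (rowNK 3 1 false true false .nn 1 1 3 (qsf 536870912 536870912 1610612736 536870912 1) ndN0q1 ndN1q3 pcN1 cut_pm_113 Ext.none)

def k0_pm_113 : ∃ t, chk3 f_pm_113 t 1 1 1 = true :=
  ⟨(a (b (a (l 1) (b (l 1) (l 17863672))) (b (a (l 17559856) (l 17480976)) (a (b (l 17325712) (b (l 17701568) (l 17977072))) (l 17473328)))) (b (b (a (b (l 1) (l 18174792)) (a (b (a (l 1) (l 3)) (l 111839783815)) (l 3))) (a (b (l 17870776) (l 17696216)) (a (b (l 17805120) (l 17531336)) (b (l 3) (l 426981302231))))) (b (a (b (l 17473024) (l 17215536)) (a (b (l 17276008) (l 17046752)) (b (l 215454143735) (l 252498231191)))) (a (b (l 17220520) (l 17498328)) (a (l 17483600) (b (a (l 17161808) (l 290615645255)) (a (l 17145952) (a (l 17151824) (b (l 314774606551)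 (a (l 16977928) (b (l 328196184055) (a (l 16884304) (b (l 335712246983) (a (l 16843040) (b (l 339470269271) (a (l 16821080) (b (l 341080821527) (a (l 16799264) (b (l 342154553463) (l 6)))))))))))))))))))), by decide +kernel⟩

theorem c_pm_113 : CertN 536870912 536870912 1610612736 536870912 67108864 67108864 3 false true false .nn 1 1 3
    ndN0q1 ndN1q3 pcN1 cut_pm_113 Ext.none :=
  certNK1 (fam := false) (s1 := true) (s2 := false) (a := 1) (b := 1) (c := 3) (cn := .nn) (n1 := ndN0q1) (n2 := ndN1q3) (pc := pcN1) (cut := cut_pm_113) (xt := Ext.none) (P1 := 536870912) (W1 := 536870912) (P2 := 1610612736) (W2 := 536870912) (P3 := 67108864) (W3 := 67108864) (N0 := 3)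
    rfl rfl rfl (fun _ => rfl) k0_pm_113

noncomputable def cut_pm_123 : Cut := Cut.of [[⟨0, 1, 0, 21338704⟩, ⟨1, 1, 0, 21338704⟩, ⟨2, 2, 0, 1685920⟩]]

noncomputable def f_pm_123 : ℕ → ℕ → ℕ → ℕ → Bool := onCell 1073741824 536870912 1610612736 536870912 67108864 67108864
    (rowNK 3 2 false true false .npn 1 2 3 (qsf 536870912 536870912 1610612736 536870912 2) ndN0q1 ndN1q3 pcN2 cut_pm_123 Ext.none)

def k0_pm_123 : ∃ t, chk3 f_pm_123 t 1 1 1 = true :=
  ⟨(a (b (a (b (l 18462264) (l 18338856)) (b (l 288337742039) (l 18440576))) (a (b (a (a (l 17688968) (l 17701232)) (l 17836008)) (a (a (b (l 17354800) (b (l 17118384) (b (l 16969808) (a (b (l 16878568) (b (l 16833432) (b (l 16810136) (b (l 16787816) (l 6))))) (l 16864632))))) (b (l 17374376) (a (l 17027408) (l 17044704)))) (a (l 17465296) (l 17237368)))) (b (l 17832872) (a (b (l 17426248) (l 17102808)) (l 17324616))))) (b (a (b (l 1) (l 264714730567)) (l 1)) (a (b (l 18107312) (l 17635344)) (b (l 18236136) (l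 17695568))))), by decide +kernel⟩

theorem c_pm_123 : CertN 536870912 536870912 1610612736 536870912 67108864 67108864 3 false true false .npn 1 2 3
    ndN0q1 ndN1q3 pcN2 cut_pm_123 Ext.none :=
  certNK2 (fam := false) (s1 := true) (s2 := false) (a := 1) (b := 2) (c := 3) (cn := .npn) (n1 := ndN0q1) (n2 := ndN1q3) (pc := pcN2) (cut := cut_pm_123) (xt := Ext.none) (P1 := 536870912) (W1 := 536870912) (P2 := 1610612736) (W2 := 536870912) (P3 := 67108864) (W3 := 67108864) (N0 := 3)
    rfl rfl rfl (fun _ => rfl) k0_pm_123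

noncomputable def f_pm_133 : ℕ → ℕ → ℕ → ℕ → Bool := onCell 536870912 536870912 1610612736 536870912 67108864 67108864
    (rowNK 3 0 false true false .dn 1 3 3 (qsf 536870912 536870912 1610612736 536870912 3) ndN0q1 ndN1q3 pcN3 Cut.none Ext.none)

def k0_pm_133 : ∃ t, chk3 f_pm_133 t 1 1 1 = true :=
  ⟨(a (b (l 1) (a (b (l 1) (a (l 17208832) (l 1))) (l 1))) (l 1)), by decide +kernel⟩

theorem c_pm_133 : CertN 536870912 536870912 1610612736 536870912 67108864 67108864 3 false true false .dn 1 3 3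
    ndN0q1 ndN1q3 pcN3 Cut.none Ext.none :=
  certNK0 (fam := false) (s1 := true) (s2 := false) (a := 1) (b := 3) (c := 3) (cn := .dn) (n1 := ndN0q1) (n2 := ndN1q3) (pc := pcN3) (cut := Cut.none) (xt := Ext.none) (P1 := 536870912) (W1 := 536870912) (P2 := 1610612736) (W2 := 536870912) (P3 := 67108864) (W3 := 67108864) (N0 := 3)
    rfl rfl rfl k0_pm_133

noncomputable def cut_pm_202_a : Cut := Cut.of [[⟨0, 1, 0, 67108864⟩, ⟨1, 0, 0, 67108864⟩, ⟨2, 1, 0, 67108864⟩]]

noncomputable def f_pm_202_a : ℕ → ℕ → ℕ → ℕ → Bool := onCell 0 536870912 0 536870912 67108864 67108864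
    (rowNK 3 0 false true false .pp 2 0 2 (qsf 0 536870912 0 536870912 0) ndN0q2 ndN1q2a pcN0 cut_pm_202_a Ext.none)

def k0_pm_202_a : ∃ t, chk3 f_pm_202_a t 1 1 1 = true :=
  ⟨(a (l 3) (b (l 3) (a (l 3) (b (l 3) (a (l 3) (b (l 3) (l 6))))))), by decide +kernel⟩

theorem c_pm_202_a : CertN 0 536870912 0 536870912 67108864 67108864 3 false true false .pp 2 0 2
    ndN0q2 ndN1q2a pcN0 cut_pm_202_a Ext.none :=
  certNK0 (fam := false) (s1 := true) (s2 := false) (a := 2) (b := 0) (c := 2) (cn := .pp) (n1 := ndN0q2) (n2 := ndN1q2a) (pc := pcN0) (cut := cut_pm_202_a) (xt := Ext.none) (P1 := 0) (W1 := 536870912) (P2 := 0) (W2 := 536870912) (P3 := 67108864) (W3 := 67108864) (N0 := 3)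
    rfl rfl rfl k0_pm_202_a

noncomputable def cut_pm_202_b : Cut := Cut.of [[⟨0, 1, 0, 67108864⟩, ⟨1, 0, 0, 67108864⟩, ⟨2, 1, 0, 67108864⟩]]

noncomputable def f_pm_202_b : ℕ → ℕ → ℕ → ℕ → Bool := onCell 0 536870912 1239849684 370763052 67108864 67108864
    (rowNK 3 0 false true false .pp 2 0 2 (qsf 0 536870912 1239849684 370763052 0) ndN0q2 ndN1q2b pcN0 cut_pm_202_b Ext.none)

def k0_pm_202_b : ∃ t, chk3 f_pm_202_b t 1 1 1 = true :=
  ⟨(l 3), by decide +kernel⟩

theorem c_pm_202_b : CertN 0 536870912 1239849684 370763052 67108864 67108864 3 false true false .pp 2 0 2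
    ndN0q2 ndN1q2b pcN0 cut_pm_202_b Ext.none :=
  certNK0 (fam := false) (s1 := true) (s2 := false) (a := 2) (b := 0) (c := 2) (cn := .pp) (n1 := ndN0q2) (n2 := ndN1q2b) (pc := pcN0) (cut := cut_pm_202_b) (xt := Ext.none) (P1 := 0) (W1 := 536870912) (P2 := 1239849684) (W2 := 370763052) (P3 := 67108864) (W3 := 67108864) (N0 := 3)
    rfl rfl rfl k0_pm_202_b

noncomputable def f_pm_203 : ℕ → ℕ → ℕ → ℕ → Bool := onCell 0 536870912 0 536870912 67108864 67108864
    (rowNK 3 1 false true false .up 2 0 3 (qsf 0 536870912 1610612736 536870912 0) ndN0q2 ndN1q3 pcN0 Cut.none Ext.none)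

def k0_pm_203 : ∃ t, chk3 f_pm_203 t 1 1 1 = true :=
  ⟨(l 3), by decide +kernel⟩

theorem c_pm_203 : CertN 0 536870912 1610612736 536870912 67108864 67108864 3 false true false .up 2 0 3
    ndN0q2 ndN1q3 pcN0 Cut.none Ext.none :=
  certNK1 (fam := false) (s1 := true) (s2 := false) (a := 2) (b := 0) (c := 3) (cn := .up) (n1 := ndN0q2) (n2 := ndN1q3) (pc := pcN0) (cut := Cut.none) (xt := Ext.none) (P1 := 0) (W1 := 536870912) (P2 := 1610612736) (W2 := 536870912) (P3 := 67108864) (W3 := 67108864) (N0 := 3)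
    rfl rfl rfl (fun _ => rfl) k0_pm_203

noncomputable def cut_pm_213 : Cut := Cut.of [[⟨0, 1, 0, 21338704⟩, ⟨1, 1, 0, 21338704⟩, ⟨2, 2, 0, 1685920⟩]]

noncomputable def f_pm_213 : ℕ → ℕ → ℕ → ℕ → Bool := onCell 0 536870912 1610612736 536870912 67108864 67108864
    (rowNK 3 0 false true false .pnn 2 1 3 (qsf 0 536870912 1610612736 536870912 1) ndN0q2 ndN1q3 pcN1 cut_pm_213 Ext.none)

def k0_pm_213 : ∃ t, chk3 f_pm_213 t 1 1 1 = true :=
  ⟨(b (l 3) (a (l 3) (b (l 3) (a (l 3) (a (l 3) (b (l 3) (a (l 3) (b (l 3) (a (l 3) (b (l 3) (a (l 3) (b (l 3) (b (l 3) (b (l 3) (b (l 3) (l 6)))))))))))))))), by decide +kernel⟩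

theorem c_pm_213 : CertN 0 536870912 1610612736 536870912 67108864 67108864 3 false true false .pnn 2 1 3
    ndN0q2 ndN1q3 pcN1 cut_pm_213 Ext.none :=
  certNK0 (fam := false) (s1 := true) (s2 := false) (a := 2) (b := 1) (c := 3) (cn := .pnn) (n1 := ndN0q2) (n2 := ndN1q3) (pc := pcN1) (cut := cut_pm_213) (xt := Ext.none) (P1 := 0) (W1 := 536870912) (P2 := 1610612736) (W2 := 536870912) (P3 := 67108864) (W3 := 67108864) (N0 := 3)
    rfl rfl rfl k0_pm_213

noncomputable def f_mm_001 : ℕ → ℕ → ℕ → ℕ → Bool := onCell 0 536870912 536870912 536870912 67108864 67108864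
    (rowNK 3 0 false false false .up 0 0 1 (qsf 0 536870912 536870912 536870912 0) ndN0q0 ndN1q1 pcN0 Cut.none Ext.none)

def k0_mm_001 : ∃ t, chk3 f_mm_001 t 1 1 1 = true :=
  ⟨(l 3), by decide +kernel⟩

theorem c_mm_001 : CertN 0 536870912 536870912 536870912 67108864 67108864 3 false false false .up 0 0 1
    ndN0q0 ndN1q1 pcN0 Cut.none Ext.none :=
  certNK0 (fam := false) (s1 := false) (s2 := false) (a := 0) (b := 0) (c := 1) (cn := .up) (n1 := ndN0q0) (n2 := ndN1q1) (pc := pcN0) (cut := Cut.none) (xt := Ext.none) (P1 := 0) (W1 := 536870912) (P2 := 536870912) (W2 := 536870912) (P3 := 67108864) (W3 := 67108864) (N0 := 3)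
    rfl rfl rfl k0_mm_001

noncomputable def f_mm_011 : ℕ → ℕ → ℕ → ℕ → Bool := onCell 0 536870912 536870912 536870912 67108864 67108864
    (rowNK 3 0 false false false .pnn 0 1 1 (qsf 0 536870912 536870912 536870912 1) ndN0q0 ndN1q1 pcN1 Cut.none Ext.none)

def k0_mm_011 : ∃ t, chk3 f_mm_011 t 1 1 1 = true :=
  ⟨(l 3), by decide +kernel⟩

theorem c_mm_011 : CertN 0 536870912 536870912 536870912 67108864 67108864 3 false false false .pnn 0 1 1
    ndN0q0 ndN1q1 pcN1 Cut.none Ext.none :=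
  certNK0 (fam := false) (s1 := false) (s2 := false) (a := 0) (b := 1) (c := 1) (cn := .pnn) (n1 := ndN0q0) (n2 := ndN1q1) (pc := pcN1) (cut := Cut.none) (xt := Ext.none) (P1 := 0) (W1 := 536870912) (P2 := 536870912) (W2 := 536870912) (P3 := 67108864) (W3 := 67108864) (N0 := 3)
    rfl rfl rfl k0_mm_011

noncomputable def f_mm_012_a : ℕ → ℕ → ℕ → ℕ → Bool := onCell 0 536870912 0 536870912 67108864 67108864
    (rowNK 3 0 false false false .pnp 0 1 2 (qsf 0 536870912 0 536870912 1) ndN0q0 ndN1q2a pcN1 Cut.none Ext.none)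

def k0_mm_012_a : ∃ t, chk3 f_mm_012_a t 1 1 1 = true :=
  ⟨(l 5), by decide +kernel⟩

theorem c_mm_012_a : CertN 0 536870912 0 536870912 67108864 67108864 3 false false false .pnp 0 1 2
    ndN0q0 ndN1q2a pcN1 Cut.none Ext.none :=
  certNK0 (fam := false) (s1 := false) (s2 := false) (a := 0) (b := 1) (c := 2) (cn := .pnp) (n1 := ndN0q0) (n2 := ndN1q2a) (pc := pcN1) (cut := Cut.none) (xt := Ext.none) (P1 := 0) (W1 := 536870912) (P2 := 0) (W2 := 536870912) (P3 := 67108864) (W3 := 67108864) (N0 := 3)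
    rfl rfl rfl k0_mm_012_a

noncomputable def f_mm_012_b : ℕ → ℕ → ℕ → ℕ → Bool := onCell 0 536870912 1239849684 370763052 67108864 67108864
    (rowNK 3 0 false false false .pnp 0 1 2 (qsf 0 536870912 1239849684 370763052 1) ndN0q0 ndN1q2b pcN1 Cut.none Ext.none)

def k0_mm_012_b : ∃ t, chk3 f_mm_012_b t 1 1 1 = true :=
  ⟨(l 5), by decide +kernel⟩

theorem c_mm_012_b : CertN 0 536870912 1239849684 370763052 67108864 67108864 3 false false false .pnp 0 1 2
    ndN0q0 ndN1q2b pcN1 Cut.none Ext.none :=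
  certNK0 (fam := false) (s1 := false) (s2 := false) (a := 0) (b := 1) (c := 2) (cn := .pnp) (n1 := ndN0q0) (n2 := ndN1q2b) (pc := pcN1) (cut := Cut.none) (xt := Ext.none) (P1 := 0) (W1 := 536870912) (P2 := 1239849684) (W2 := 370763052) (P3 := 67108864) (W3 := 67108864) (N0 := 3)
    rfl rfl rfl k0_mm_012_b

noncomputable def f_mm_022_a : ℕ → ℕ → ℕ → ℕ → Bool := onCell 0 536870912 0 536870912 67108864 67108864
    (rowNK 3 0 false false false .pp 0 2 2 (qsf 0 536870912 0 536870912 2) ndN0q0 ndN1q2a pcN2 Cut.none Ext.none)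

def k0_mm_022_a : ∃ t, chk3 f_mm_022_a t 1 1 1 = true :=
  ⟨(l 5), by decide +kernel⟩

theorem c_mm_022_a : CertN 0 536870912 0 536870912 67108864 67108864 3 false false false .pp 0 2 2
    ndN0q0 ndN1q2a pcN2 Cut.none Ext.none :=
  certNK0 (fam := false) (s1 := false) (s2 := false) (a := 0) (b := 2) (c := 2) (cn := .pp) (n1 := ndN0q0) (n2 := ndN1q2a) (pc := pcN2) (cut := Cut.none) (xt := Ext.none) (P1 := 0) (W1 := 536870912) (P2 := 0) (W2 := 536870912) (P3 := 67108864) (W3 := 67108864) (N0 := 3)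
    rfl rfl rfl k0_mm_022_a

noncomputable def f_mm_022_b : ℕ → ℕ → ℕ → ℕ → Bool := onCell 0 536870912 1239849684 370763052 67108864 67108864
    (rowNK 3 0 false false false .pp 0 2 2 (qsf 0 536870912 1239849684 370763052 2) ndN0q0 ndN1q2b pcN2 Cut.none Ext.none)

def k0_mm_022_b : ∃ t, chk3 f_mm_022_b t 1 1 1 = true :=
  ⟨(l 5), by decide +kernel⟩

theorem c_mm_022_b : CertN 0 536870912 1239849684 370763052 67108864 67108864 3 false false false .pp 0 2 2
    ndN0q0 ndN1q2b pcN2 Cut.none Ext.none :=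
  certNK0 (fam := false) (s1 := false) (s2 := false) (a := 0) (b := 2) (c := 2) (cn := .pp) (n1 := ndN0q0) (n2 := ndN1q2b) (pc := pcN2) (cut := Cut.none) (xt := Ext.none) (P1 := 0) (W1 := 536870912) (P2 := 1239849684) (W2 := 370763052) (P3 := 67108864) (W3 := 67108864) (N0 := 3)
    rfl rfl rfl k0_mm_022_b

noncomputable def f_mm_023 : ℕ → ℕ → ℕ → ℕ → Bool := onCell 0 536870912 1610612736 536870912 67108864 67108864
    (rowNK 3 0 false false false .up 0 2 3 (qsf 0 536870912 1610612736 536870912 2) ndN0q0 ndN1q3 pcN2 Cut.none Ext.none)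

def k0_mm_023 : ∃ t, chk3 f_mm_023 t 1 1 1 = true :=
  ⟨(l 5), by decide +kernel⟩

theorem c_mm_023 : CertN 0 536870912 1610612736 536870912 67108864 67108864 3 false false false .up 0 2 3
    ndN0q0 ndN1q3 pcN2 Cut.none Ext.none :=
  certNK0 (fam := false) (s1 := false) (s2 := false) (a := 0) (b := 2) (c := 3) (cn := .up) (n1 := ndN0q0) (n2 := ndN1q3) (pc := pcN2) (cut := Cut.none) (xt := Ext.none) (P1 := 0) (W1 := 536870912) (P2 := 1610612736) (W2 := 536870912) (P3 := 67108864) (W3 := 67108864) (N0 := 3)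
    rfl rfl rfl k0_mm_023

noncomputable def f_mm_033 : ℕ → ℕ → ℕ → ℕ → Bool := onCell 0 536870912 1610612736 536870912 67108864 67108864
    (rowNK 3 0 false false false .pnn 0 3 3 (qsf 0 536870912 1610612736 536870912 3) ndN0q0 ndN1q3 pcN3 Cut.none Ext.none)

def k0_mm_033 : ∃ t, chk3 f_mm_033 t 1 1 1 = true :=
  ⟨(l 5), by decide +kernel⟩

theorem c_mm_033 : CertN 0 536870912 1610612736 536870912 67108864 67108864 3 false false false .pnn 0 3 3
    ndN0q0 ndN1q3 pcN3 Cut.none Ext.none :=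
  certNK0 (fam := false) (s1 := false) (s2 := false) (a := 0) (b := 3) (c := 3) (cn := .pnn) (n1 := ndN0q0) (n2 := ndN1q3) (pc := pcN3) (cut := Cut.none) (xt := Ext.none) (P1 := 0) (W1 := 536870912) (P2 := 1610612736) (W2 := 536870912) (P3 := 67108864) (W3 := 67108864) (N0 := 3)
    rfl rfl rfl k0_mm_033

noncomputable def f_mm_101 : ℕ → ℕ → ℕ → ℕ → Bool := onCell 536870912 536870912 536870912 536870912 67108864 67108864
    (rowNK 3 0 false false false .npn 1 0 1 (qsf 536870912 536870912 536870912 536870912 0) ndN0q1 ndN1q1 pcN0 Cut.none Ext.none)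

def k0_mm_101 : ∃ t, chk3 f_mm_101 t 1 1 1 = true :=
  ⟨(l 3), by decide +kernel⟩

theorem c_mm_101 : CertN 536870912 536870912 536870912 536870912 67108864 67108864 3 false false false .npn 1 0 1
    ndN0q1 ndN1q1 pcN0 Cut.none Ext.none :=
  certNK0 (fam := false) (s1 := false) (s2 := false) (a := 1) (b := 0) (c := 1) (cn := .npn) (n1 := ndN0q1) (n2 := ndN1q1) (pc := pcN0) (cut := Cut.none) (xt := Ext.none) (P1 := 536870912) (W1 := 536870912) (P2 := 536870912) (W2 := 536870912) (P3 := 67108864) (W3 := 67108864) (N0 := 3)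
    rfl rfl rfl k0_mm_101

noncomputable def f_mm_102_a : ℕ → ℕ → ℕ → ℕ → Bool := onCell 536870912 536870912 0 536870912 67108864 67108864
    (rowNK 3 0 false false false .npp 1 0 2 (qsf 536870912 536870912 0 536870912 0) ndN0q1 ndN1q2a pcN0 Cut.none Ext.none)

def k0_mm_102_a : ∃ t, chk3 f_mm_102_a t 1 1 1 = true :=
  ⟨(l 3), by decide +kernel⟩

theorem c_mm_102_a : CertN 536870912 536870912 0 536870912 67108864 67108864 3 false false false .npp 1 0 2
    ndN0q1 ndN1q2a pcN0 Cut.none Ext.none :=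
  certNK0 (fam := false) (s1 := false) (s2 := false) (a := 1) (b := 0) (c := 2) (cn := .npp) (n1 := ndN0q1) (n2 := ndN1q2a) (pc := pcN0) (cut := Cut.none) (xt := Ext.none) (P1 := 536870912) (W1 := 536870912) (P2 := 0) (W2 := 536870912) (P3 := 67108864) (W3 := 67108864) (N0 := 3)
    rfl rfl rfl k0_mm_102_a

noncomputable def f_mm_102_b : ℕ → ℕ → ℕ → ℕ → Bool := onCell 536870912 536870912 1239849684 370763052 67108864 67108864
    (rowNK 3 0 false false false .npp 1 0 2 (qsf 536870912 536870912 1239849684 370763052 0) ndN0q1 ndN1q2b pcN0 Cut.none Ext.none)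

def k0_mm_102_b : ∃ t, chk3 f_mm_102_b t 1 1 1 = true :=
  ⟨(l 5), by decide +kernel⟩

theorem c_mm_102_b : CertN 536870912 536870912 1239849684 370763052 67108864 67108864 3 false false false .npp 1 0 2
    ndN0q1 ndN1q2b pcN0 Cut.none Ext.none :=
  certNK0 (fam := false) (s1 := false) (s2 := false) (a := 1) (b := 0) (c := 2) (cn := .npp) (n1 := ndN0q1) (n2 := ndN1q2b) (pc := pcN0) (cut := Cut.none) (xt := Ext.none) (P1 := 536870912) (W1 := 536870912) (P2 := 1239849684) (W2 := 370763052) (P3 := 67108864) (W3 := 67108864) (N0 := 3)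
    rfl rfl rfl k0_mm_102_b

noncomputable def f_mm_112_a : ℕ → ℕ → ℕ → ℕ → Bool := onCell 536870912 536870912 0 536870912 67108864 67108864
    (rowNK 3 0 false false false .dn 1 1 2 (qsf 536870912 536870912 0 536870912 1) ndN0q1 ndN1q2a pcN1 Cut.none Ext.none)

def k0_mm_112_a : ∃ t, chk3 f_mm_112_a t 1 1 1 = true :=
  ⟨(l 3), by decide +kernel⟩

theorem c_mm_112_a : CertN 536870912 536870912 0 536870912 67108864 67108864 3 false false false .dn 1 1 2
    ndN0q1 ndN1q2a pcN1 Cut.none Ext.none :=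
  certNK0 (fam := false) (s1 := false) (s2 := false) (a := 1) (b := 1) (c := 2) (cn := .dn) (n1 := ndN0q1) (n2 := ndN1q2a) (pc := pcN1) (cut := Cut.none) (xt := Ext.none) (P1 := 536870912) (W1 := 536870912) (P2 := 0) (W2 := 536870912) (P3 := 67108864) (W3 := 67108864) (N0 := 3)
    rfl rfl rfl k0_mm_112_a

noncomputable def f_mm_112_b : ℕ → ℕ → ℕ → ℕ → Bool := onCell 536870912 536870912 1239849684 370763052 67108864 67108864
    (rowNK 3 0 false false false .dn 1 1 2 (qsf 536870912 536870912 1239849684 370763052 1) ndN0q1 ndN1q2b pcN1 Cut.none Ext.none)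

def k0_mm_112_b : ∃ t, chk3 f_mm_112_b t 1 1 1 = true :=
  ⟨(l 5), by decide +kernel⟩

theorem c_mm_112_b : CertN 536870912 536870912 1239849684 370763052 67108864 67108864 3 false false false .dn 1 1 2
    ndN0q1 ndN1q2b pcN1 Cut.none Ext.none :=
  certNK0 (fam := false) (s1 := false) (s2 := false) (a := 1) (b := 1) (c := 2) (cn := .dn) (n1 := ndN0q1) (n2 := ndN1q2b) (pc := pcN1) (cut := Cut.none) (xt := Ext.none) (P1 := 536870912) (W1 := 536870912) (P2 := 1239849684) (W2 := 370763052) (P3 := 67108864) (W3 := 67108864) (N0 := 3)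
    rfl rfl rfl k0_mm_112_b

noncomputable def f_mm_113 : ℕ → ℕ → ℕ → ℕ → Bool := onCell 536870912 536870912 1610612736 536870912 67108864 67108864
    (rowNK 3 0 false false false .nn 1 1 3 (qsf 536870912 536870912 1610612736 536870912 1) ndN0q1 ndN1q3 pcN1 Cut.none Ext.none)

def k0_mm_113 : ∃ t, chk3 f_mm_113 t 1 1 1 = true :=
  ⟨(l 5), by decide +kernel⟩

theorem c_mm_113 : CertN 536870912 536870912 1610612736 536870912 67108864 67108864 3 false false false .nn 1 1 3
    ndN0q1 ndN1q3 pcN1 Cut.none Ext.none :=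
  certNK0 (fam := false) (s1 := false) (s2 := false) (a := 1) (b := 1) (c := 3) (cn := .nn) (n1 := ndN0q1) (n2 := ndN1q3) (pc := pcN1) (cut := Cut.none) (xt := Ext.none) (P1 := 536870912) (W1 := 536870912) (P2 := 1610612736) (W2 := 536870912) (P3 := 67108864) (W3 := 67108864) (N0 := 3)
    rfl rfl rfl k0_mm_113

noncomputable def f_mm_123 : ℕ → ℕ → ℕ → ℕ → Bool := onCell 536870912 536870912 1610612736 536870912 67108864 67108864
    (rowNK 3 0 false false false .npn 1 2 3 (qsf 536870912 536870912 1610612736 536870912 2) ndN0q1 ndN1q3 pcN2 Cut.none Ext.none)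

def k0_mm_123 : ∃ t, chk3 f_mm_123 t 1 1 1 = true :=
  ⟨(l 5), by decide +kernel⟩

theorem c_mm_123 : CertN 536870912 536870912 1610612736 536870912 67108864 67108864 3 false false false .npn 1 2 3
    ndN0q1 ndN1q3 pcN2 Cut.none Ext.none :=
  certNK0 (fam := false) (s1 := false) (s2 := false) (a := 1) (b := 2) (c := 3) (cn := .npn) (n1 := ndN0q1) (n2 := ndN1q3) (pc := pcN2) (cut := Cut.none) (xt := Ext.none) (P1 := 536870912) (W1 := 536870912) (P2 := 1610612736) (W2 := 536870912) (P3 := 67108864) (W3 := 67108864) (N0 := 3)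
    rfl rfl rfl k0_mm_123

noncomputable def f_mm_133 : ℕ → ℕ → ℕ → ℕ → Bool := onCell 536870912 536870912 1610612736 536870912 67108864 67108864
    (rowNK 3 0 false false false .dn 1 3 3 (qsf 536870912 536870912 1610612736 536870912 3) ndN0q1 ndN1q3 pcN3 Cut.none Ext.none)

def k0_mm_133 : ∃ t, chk3 f_mm_133 t 1 1 1 = true :=
  ⟨(l 5), by decide +kernel⟩

theorem c_mm_133 : CertN 536870912 536870912 1610612736 536870912 67108864 67108864 3 false false false .dn 1 3 3
    ndN0q1 ndN1q3 pcN3 Cut.none Ext.none :=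
  certNK0 (fam := false) (s1 := false) (s2 := false) (a := 1) (b := 3) (c := 3) (cn := .dn) (n1 := ndN0q1) (n2 := ndN1q3) (pc := pcN3) (cut := Cut.none) (xt := Ext.none) (P1 := 536870912) (W1 := 536870912) (P2 := 1610612736) (W2 := 536870912) (P3 := 67108864) (W3 := 67108864) (N0 := 3)
    rfl rfl rfl k0_mm_133

noncomputable def f_mm_202_a : ℕ → ℕ → ℕ → ℕ → Bool := onCell 0 536870912 0 536870912 67108864 67108864
    (rowNK 3 0 false false false .pp 2 0 2 (qsf 0 536870912 0 536870912 0) ndN0q2 ndN1q2a pcN0 Cut.none Ext.none)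

def k0_mm_202_a : ∃ t, chk3 f_mm_202_a t 1 1 1 = true :=
  ⟨(l 3), by decide +kernel⟩

theorem c_mm_202_a : CertN 0 536870912 0 536870912 67108864 67108864 3 false false false .pp 2 0 2
    ndN0q2 ndN1q2a pcN0 Cut.none Ext.none :=
  certNK0 (fam := false) (s1 := false) (s2 := false) (a := 2) (b := 0) (c := 2) (cn := .pp) (n1 := ndN0q2) (n2 := ndN1q2a) (pc := pcN0) (cut := Cut.none) (xt := Ext.none) (P1 := 0) (W1 := 536870912) (P2 := 0) (W2 := 536870912) (P3 := 67108864) (W3 := 67108864) (N0 := 3)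
    rfl rfl rfl k0_mm_202_a

noncomputable def f_mm_202_b : ℕ → ℕ → ℕ → ℕ → Bool := onCell 0 536870912 1239849684 370763052 67108864 67108864
    (rowNK 3 0 false false false .pp 2 0 2 (qsf 0 536870912 1239849684 370763052 0) ndN0q2 ndN1q2b pcN0 Cut.none Ext.none)

def k0_mm_202_b : ∃ t, chk3 f_mm_202_b t 1 1 1 = true :=
  ⟨(l 3), by decide +kernel⟩

theorem c_mm_202_b : CertN 0 536870912 1239849684 370763052 67108864 67108864 3 false false false .pp 2 0 2
    ndN0q2 ndN1q2b pcN0 Cut.none Ext.none :=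
  certNK0 (fam := false) (s1 := false) (s2 := false) (a := 2) (b := 0) (c := 2) (cn := .pp) (n1 := ndN0q2) (n2 := ndN1q2b) (pc := pcN0) (cut := Cut.none) (xt := Ext.none) (P1 := 0) (W1 := 536870912) (P2 := 1239849684) (W2 := 370763052) (P3 := 67108864) (W3 := 67108864) (N0 := 3)
    rfl rfl rfl k0_mm_202_b

noncomputable def f_mm_203 : ℕ → ℕ → ℕ → ℕ → Bool := onCell 0 536870912 0 536870912 67108864 67108864
    (rowNK 3 1 false false false .up 2 0 3 (qsf 0 536870912 1610612736 536870912 0) ndN0q2 ndN1q3 pcN0 Cut.none Ext.none)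

def k0_mm_203 : ∃ t, chk3 f_mm_203 t 1 1 1 = true :=
  ⟨(l 3), by decide +kernel⟩

theorem c_mm_203 : CertN 0 536870912 1610612736 536870912 67108864 67108864 3 false false false .up 2 0 3
    ndN0q2 ndN1q3 pcN0 Cut.none Ext.none :=
  certNK1 (fam := false) (s1 := false) (s2 := false) (a := 2) (b := 0) (c := 3) (cn := .up) (n1 := ndN0q2) (n2 := ndN1q3) (pc := pcN0) (cut := Cut.none) (xt := Ext.none) (P1 := 0) (W1 := 536870912) (P2 := 1610612736) (W2 := 536870912) (P3 := 67108864) (W3 := 67108864) (N0 := 3)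
    rfl rfl rfl (fun _ => rfl) k0_mm_203

noncomputable def f_mm_213 : ℕ → ℕ → ℕ → ℕ → Bool := onCell 0 536870912 1610612736 536870912 67108864 67108864
    (rowNK 3 0 false false false .pnn 2 1 3 (qsf 0 536870912 1610612736 536870912 1) ndN0q2 ndN1q3 pcN1 Cut.none Ext.none)

def k0_mm_213 : ∃ t, chk3 f_mm_213 t 1 1 1 = true :=
  ⟨(a (l 3) (l 5)), by decide +kernel⟩

theorem c_mm_213 : CertN 0 536870912 1610612736 536870912 67108864 67108864 3 false false false .pnn 2 1 3
    ndN0q2 ndN1q3 pcN1 Cut.none Ext.none :=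
  certNK0 (fam := false) (s1 := false) (s2 := false) (a := 2) (b := 1) (c := 3) (cn := .pnn) (n1 := ndN0q2) (n2 := ndN1q3) (pc := pcN1) (cut := Cut.none) (xt := Ext.none) (P1 := 0) (W1 := 536870912) (P2 := 1610612736) (W2 := 536870912) (P3 := 67108864) (W3 := 67108864) (N0 := 3)
    rfl rfl rfl k0_mm_213

end Pool.Agent.Strip051.G.I1_16_1_8.Tab.C.NB01

namespace Pool.Agent.Strip051.G.I1_16_1_8.Tab.C.NB02

open Pool.Agent.Strip051.PB Pool.Agent.Strip051.PB.T
open Pool.Agent.Strip051.G.I1_16_1_8.Tab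

noncomputable def f_pp_001 : ℕ → ℕ → ℕ → ℕ → Bool := onCell 0 536870912 0 536870912 67108864 67108864
    (rowNK 3 1 false true true .up 0 0 1 (qsf 0 536870912 536870912 536870912 0) ndN0q0 ndN2q1 pcN0 Cut.none Ext.none)

def k0_pp_001 : ∃ t, chk3 f_pp_001 t 1 1 1 = true :=
  ⟨(l 3), by decide +kernel⟩

theorem c_pp_001 : CertN 0 536870912 536870912 536870912 67108864 67108864 3 false true true .up 0 0 1
    ndN0q0 ndN2q1 pcN0 Cut.none Ext.none :=
  certNK1 (fam := false) (s1 := true) (s2 := true) (a := 0) (b := 0) (c := 1) (cn := .up) (n1 := ndN0q0) (n2 := ndN2q1) (pc := pcN0) (cut := Cut.none) (xt := Ext.none) (P1 := 0) (W1 := 536870912) (P2 := 536870912) (W2 := 536870912) (P3 := 67108864) (W3 := 67108864) (N0 := 3)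
    rfl rfl rfl (fun _ => rfl) k0_pp_001

noncomputable def cut_pp_011 : Cut := Cut.of [[⟨0, 0, 0, 67108864⟩, ⟨1, 1, 0, 67108864⟩, ⟨2, 1, 0, 67108864⟩]]

noncomputable def f_pp_011 : ℕ → ℕ → ℕ → ℕ → Bool := onCell 0 536870912 536870912 536870912 67108864 67108864
    (rowNK 3 0 false true true .pnn 0 1 1 (qsf 0 536870912 536870912 536870912 1) ndN0q0 ndN2q1 pcN1 cut_pp_011 Ext.none)

def k0_pp_011 : ∃ t, chk3 f_pp_011 t 1 1 1 = true :=
  ⟨(a (b (l 3) (a (b (l 3) (b (l 3) (b (l 3) (a (a (a (l 6) (l 3)) (l 3)) (l 3))))) (l 3))) (l 3)), by decide +kernel⟩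

theorem c_pp_011 : CertN 0 536870912 536870912 536870912 67108864 67108864 3 false true true .pnn 0 1 1
    ndN0q0 ndN2q1 pcN1 cut_pp_011 Ext.none :=
  certNK0 (fam := false) (s1 := true) (s2 := true) (a := 0) (b := 1) (c := 1) (cn := .pnn) (n1 := ndN0q0) (n2 := ndN2q1) (pc := pcN1) (cut := cut_pp_011) (xt := Ext.none) (P1 := 0) (W1 := 536870912) (P2 := 536870912) (W2 := 536870912) (P3 := 67108864) (W3 := 67108864) (N0 := 3)
    rfl rfl rfl k0_pp_011

noncomputable def cut_pp_012_a : Cut := Cut.of [[⟨0, 0, 0, 67108864⟩, ⟨1, 1, 0, 67108864⟩, ⟨2, 1, 0, 67108864⟩], [⟨0, 0, 1, 33554432⟩, ⟨1, 1, 0, 16777216⟩, ⟨2, 1, 1, 33554432⟩, ⟨0, 0, 0, 150994944⟩, ⟨0, 1, 0, 1023410176⟩, ⟨2, 1, 0, 150994944⟩, ⟨2, 2, 0, 1023410176⟩]]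

noncomputable def f_pp_012_a : ℕ → ℕ → ℕ → ℕ → Bool := onCell 536870912 536870912 0 536870912 67108864 67108864
    (rowNK 3 2 false true true .pnp 0 1 2 (qsf 0 536870912 0 536870912 1) ndN0q0 ndN2q2a pcN1 cut_pp_012_a Ext.none)

def k0_pp_012_a : ∃ t, chk3 f_pp_012_a t 2 1 1 = true :=
  ⟨(l 3), by decide +kernel⟩

def k1_pp_012_a : ∃ t, chk3 f_pp_012_a t 6 1 1 = true :=
  ⟨(l 3), by decide +kernel⟩

def k2_pp_012_a : ∃ t, chk3 f_pp_012_a t 14 1 1 = true :=
  ⟨(l 3), by decide +kernel⟩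

def k3_pp_012_a : ∃ t, chk3 f_pp_012_a t 30 1 1 = true :=
  ⟨(l 3), by decide +kernel⟩

def k4_pp_012_a : ∃ t, chk3 f_pp_012_a t 62 1 1 = true :=
  ⟨(l 3), by decide +kernel⟩

def k5_pp_012_a : ∃ t, chk3 f_pp_012_a t 126 1 1 = true :=
  ⟨(l 3), by decide +kernel⟩

def k6_pp_012_a : ∃ t, chk3 f_pp_012_a t 254 1 1 = true :=
  ⟨(b (l 3) (l 3)), by decide +kernel⟩

def k7_pp_012_a : ∃ t, chk3 f_pp_012_a t 510 1 1 = true :=
  ⟨(b (l 3) (l 3)), by decide +kernel⟩

def k8_pp_012_a : ∃ t, chk3 f_pp_012_a t 511 2 1 = true :=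
  ⟨(b (c (b (l 17652512) (l 17627464)) (b (b (l 17265904) (l 17257888)) (b (l 17199632) (l 17090480)))) (b (c (l 17572856) (b (b (l 17149408) (l 17066176)) (c (l 17235976) (b (l 16997256) (l 14))))) (c (b (l 17505032) (l 17416224)) (c (b (b (l 17187024) (l 17147440)) (b (l 17059680) (l 14))) (l 14))))), by decide +kernel⟩

def k9_pp_012_a : ∃ t, chk3 f_pp_012_a t 1022 3 1 = true :=
  ⟨(b (l 3) (l 3)), by decide +kernel⟩

def k10_pp_012_a : ∃ t, chk3 f_pp_012_a t 1023 6 1 = true :=
  ⟨(b (c (b (c (l 17477632) (b (l 17242528) (l 17181576))) (c (l 17236448) (l 14))) (l 14)) (a (l 3) (a (l 3) (a (l 3) (b (c (c (b (l 17222968) (l 14)) (l 14)) (c (l 14) (b (b (l 14) (c (l 14) (b (b (l 16742768) (l 16742976)) (b (l 16743192) (l 16743400))))) (b (c (l 14) (b (b (l 16743624) (l 16743840)) (b (l 16744064) (l 16744288)))) (c (b (l 14) (b (l 16746128) (l 16746352))) (b (b (l 16744520) (l 16744752)) (b (l 16744984) (l 16745224)))))))) (a (l 3) (c (l 14) (c (c (l 14) (b (b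 (l 14) (b (l 14) (b (l 14) (l 16749288)))) (b (b (b (l 16749536) (l 16749784)) (b (l 16750032) (l 16750280))) (b (b (l 16750536) (l 16750800)) (b (l 16751056) (l 16751328)))))) (b (b (b (b (b (l 16745952) (l 16746072)) (b (l 16746184) (l 16746304))) (b (l 1241454647) (l 16748040))) (b (b (l 16748288) (l 16748536)) (b (l 16747480) (l 16747736)))) (b (b (b (l 16748000) (l 16748264)) (b (l 16748528) (l 16748800))) (b (b (l 16749072) (l 16749344)) (b (l 16749632) (l 16749912))))))))))))), by decide +kernel⟩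

def k11_pp_012_a : ∃ t, chk3 f_pp_012_a t 1023 7 1 = true :=
  ⟨(b (a (l 3) (a (l 3) (a (l 3) (b (b (c (l 14) (b (c (b (b (c (c (l 14) (l 16752304)) (l 16751608)) (b (l 16752944) (l 16753728))) (b (c (l 704595751) (l 16752160)) (c (l 16753984) (l 16752440)))) (b (b (l 16750216) (l 16750512)) (b (l 16750800) (l 16751104)))) (c (b (b (c (l 16753600) (l 16752720)) (c (l 16753872) (l 16753008))) (b (c (l 16754152) (l 16753296)) (c (l 16754432) (l 16753592)))) (b (b (l 16751400) (l 16751704)) (b (l 16752016) (l 16752328)))))) (b (b (b (c (c (l 14) (c (l 14) (c (l 14) (l 16755328)))) (c (c (l 16754712) (l 16753888)) (l 16752640))) (l 6)) (l 6)) (l 6))) (l 6))))) (l 6)), by decide +kernel⟩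

theorem s12_pp_012_a : ∃ t, chk3 f_pp_012_a t 1023 3 1 = true := ex3_b k10_pp_012_a k11_pp_012_a

theorem s13_pp_012_a : ∃ t, chk3 f_pp_012_a t 511 3 1 = true := ex3_a k9_pp_012_a s12_pp_012_a

theorem s14_pp_012_a : ∃ t, chk3 f_pp_012_a t 511 1 1 = true := ex3_b k8_pp_012_a s13_pp_012_a

theorem s15_pp_012_a : ∃ t, chk3 f_pp_012_a t 255 1 1 = true := ex3_a k7_pp_012_a s14_pp_012_a

theorem s16_pp_012_a : ∃ t, chk3 f_pp_012_a t 127 1 1 = true := ex3_a k6_pp_012_a s15_pp_012_a

theorem s17_pp_012_a : ∃ t, chk3 f_pp_012_a t 63 1 1 = true := ex3_a k5_pp_012_a s16_pp_012_a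

theorem s18_pp_012_a : ∃ t, chk3 f_pp_012_a t 31 1 1 = true := ex3_a k4_pp_012_a s17_pp_012_a

theorem s19_pp_012_a : ∃ t, chk3 f_pp_012_a t 15 1 1 = true := ex3_a k3_pp_012_a s18_pp_012_a

theorem s20_pp_012_a : ∃ t, chk3 f_pp_012_a t 7 1 1 = true := ex3_a k2_pp_012_a s19_pp_012_a

theorem s21_pp_012_a : ∃ t, chk3 f_pp_012_a t 3 1 1 = true := ex3_a k1_pp_012_a s20_pp_012_a

theorem s22_pp_012_a : ∃ t, chk3 f_pp_012_a t 1 1 1 = true := ex3_a k0_pp_012_a s21_pp_012_a

theorem c_pp_012_a : CertN 0 536870912 0 536870912 67108864 67108864 3 false true true .pnp 0 1 2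
    ndN0q0 ndN2q2a pcN1 cut_pp_012_a Ext.none :=
  certNK2 (fam := false) (s1 := true) (s2 := true) (a := 0) (b := 1) (c := 2) (cn := .pnp) (n1 := ndN0q0) (n2 := ndN2q2a) (pc := pcN1) (cut := cut_pp_012_a) (xt := Ext.none) (P1 := 0) (W1 := 536870912) (P2 := 0) (W2 := 536870912) (P3 := 67108864) (W3 := 67108864) (N0 := 3)
    rfl rfl rfl (fun _ => rfl) s22_pp_012_a

noncomputable def cut_pp_012_b : Cut := Cut.of [[⟨0, 0, 0, 67108864⟩, ⟨1, 1, 0, 67108864⟩, ⟨2, 1, 0, 67108864⟩], [⟨0, 0, 1, 33554432⟩, ⟨1, 1, 0, 16777216⟩, ⟨2, 1, 1, 33554432⟩, ⟨0, 0, 0, 150994944⟩, ⟨0, 1, 0, 1023410176⟩, ⟨2, 1, 0, 150994944⟩, ⟨2, 2, 0, 1023410176⟩]]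

noncomputable def f_pp_012_b : ℕ → ℕ → ℕ → ℕ → Bool := onCell 536870912 536870912 1239849684 370763052 67108864 67108864
    (rowNK 3 2 false true true .pnp 0 1 2 (qsf 0 536870912 1239849684 370763052 1) ndN0q0 ndN2q2b pcN1 cut_pp_012_b Ext.none)

def k0_pp_012_b : ∃ t, chk3 f_pp_012_b t 1 1 1 = true :=
  ⟨(a (l 3) (a (l 3) (a (l 3) (a (l 3) (b (a (l 3) (a (l 3) (b (b (b (b (c (l 17663552) (l 17136120)) (l 17395288)) (l 17472240)) (l 17660104)) (l 42045584919)))) (b (l 84458858119) (l 17896136))))))), by decide +kernel⟩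

theorem c_pp_012_b : CertN 0 536870912 1239849684 370763052 67108864 67108864 3 false true true .pnp 0 1 2
    ndN0q0 ndN2q2b pcN1 cut_pp_012_b Ext.none :=
  certNK2 (fam := false) (s1 := true) (s2 := true) (a := 0) (b := 1) (c := 2) (cn := .pnp) (n1 := ndN0q0) (n2 := ndN2q2b) (pc := pcN1) (cut := cut_pp_012_b) (xt := Ext.none) (P1 := 0) (W1 := 536870912) (P2 := 1239849684) (W2 := 370763052) (P3 := 67108864) (W3 := 67108864) (N0 := 3)
    rfl rfl rfl (fun _ => rfl) k0_pp_012_b

noncomputable def cut_pp_022_a : Cut := Cut.of [[⟨0, 0, 0, 67108864⟩, ⟨1, 1, 0, 67108864⟩, ⟨2, 1, 0, 67108864⟩], [⟨0, 0, 1, 33554432⟩, ⟨1, 1, 0, 16777216⟩, ⟨2, 1, 1, 33554432⟩, ⟨0, 0, 0, 150994944⟩, ⟨0, 1, 0, 1023410176⟩, ⟨2, 1, 0, 150994944⟩, ⟨2, 2, 0, 1023410176⟩]]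

noncomputable def f_pp_022_a : ℕ → ℕ → ℕ → ℕ → Bool := onCell 1073741824 536870912 0 536870912 67108864 67108864
    (rowNK 3 2 false true true .pp 0 2 2 (qsf 0 536870912 0 536870912 2) ndN0q0 ndN2q2a pcN2 cut_pp_022_a Ext.none)

def k0_pp_022_a : ∃ t, chk3 f_pp_022_a t 8 2 1 = true :=
  ⟨(a (b (c (a (b (l 17698520) (l 17673048)) (l 17762904)) (a (b (a (b (l 17187400) (l 17116064)) (l 17279976)) (c (a (l 17337888) (l 17355904)) (a (b (a (l 17139320) (l 17141608)) (a (l 17027448) (l 17112624))) (l 17088336)))) (b (l 17302936) (l 17116136)))) (b (c (a (b (l 17635736) (l 17597416)) (l 17692472)) (a (b (a (a (a (b (l 17126720) (l 17063840)) (l 16992024)) (l 17057688)) (l 17105664)) (a (c (l 17177200) (b (l 14) (l 14))) (a (l 16919768) (l 17048000)))) (b (l 17140800) (b (l 17158872) (l 17098768))))) (c (a (b (l 17418472) (a (c (l 17584240) (l 17243536)) (l 17488080))) (b (l 17616064) (l 17538432))) (a (a (c (c (b (l 17227448) (b (l 17160864) (l 14))) (b (b (l 17129064)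 (l 14)) (l 14))) (l 14)) (b (b (l 16965576) (l 16874736)) (b (b (l 16896040) (l 16865352)) (l 16751368)))) (b (b (l 17011208) (l 16895096)) (a (l 16704984) (l 16815696))))))) (b (a (a (b (l 17584344) (l 17444680)) (b (l 17613296) (l 17388664))) (a (b (l 17644816) (l 17502992)) (b (l 17676480) (l 17617560)))) (a (b (c (a (l 17751840) (l 17791176)) (a (b (l 17220856) (l 17151216)) (b (l 17232896) (l 17159944)))) (c (a (l 17591072) (l 17460160)) (a (b (l 17052784) (l 16896728)) (b (l 16889544) (a (l 16916728) (l 16916504)))))) (b (c (l 17851736) (a (b (l 17247584) (l 17171344)) (l 17034712))) (c (a (l 17709352) (l 17749224)) (a (b (l 17064560) (l 16854032)) (b (l 17072960) (l 16919440)))))))), by decide +kernel⟩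

def k1_pp_022_a : ∃ t, chk3 f_pp_022_a t 9 2 1 = true :=
  ⟨(b (a (a (b (l 17724696) (l 17454784)) (b (l 17795024) (l 17649304))) (c (l 18245328) (b (l 17550480) (a (l 17463488) (l 17518456))))) (a (b (c (a (l 17938504) (l 18029232)) (a (b (l 17288216) (l 17162632)) (b (l 17328104) (l 17238832)))) (c (a (b (l 17853472) (l 17764264)) (b (l 17942424) (l 17850456))) (a (b (a (l 17083160) (l 17094880)) (a (l 16923856) (l 16930048))) (b (l 17031960) (a (l 16938104) (l 16948056)))))) (b (c (l 18170272) (a (b (l 17372920) (l 17278552)) (b (l 17422960) (l 17323856)))) (b (c (l 18082808) (a (l 17107344) (l 17062768))) (c (a (l 17940800) (l 18029224)) (a (a (l 16959768) (l 16973168)) (a (l 16925256) (b (l 17060656) (l 16900816))))))))), by decide +kernel⟩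

def k2_pp_022_a : ∃ t, chk3 f_pp_022_a t 5 2 1 = true :=
  ⟨(a (b (a (c (l 18436080) (a (l 17459504) (b (l 17713768) (l 17643320)))) (l 17990368)) (a (b (c (a (l 18314928) (l 18375704)) (a (b (l 17477368) (a (l 17360600) (l 17382904))) (b (l 17532128) (l 17415576)))) (a (c (l 87008862359) (b (a (l 17029504) (l 17230536)) (a (l 17012240) (l 1)))) (l 1))) (l 1))) (l 1)), by decide +kernel⟩

def k3_pp_022_a : ∃ t, chk3 f_pp_022_a t 64 6 2 = true :=
  ⟨(b (b (c (l 17498976) (b (l 17249696) (a (l 17098632) (l 17188968)))) (c (b (l 17413960) (l 17321512)) (l 14))) (b (b (c (c (l 17342144) (l 14)) (l 14)) (l 14)) (b (l 14) (l 14)))), by decide +kernel⟩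

def k4_pp_022_a : ∃ t, chk3 f_pp_022_a t 64 12 3 = true :=
  ⟨(c (l 14) (b (l 14) (b (l 14) (a (a (l 14) (b (l 14) (l 16736048))) (l 16734704))))), by decide +kernel⟩

def k5_pp_022_a : ∃ t, chk3 f_pp_022_a t 64 26 3 = true :=
  ⟨(a (c (l 14) (b (c (l 14) (a (b (c (l 14) (a (a (b (l 14) (a (b (l 14) (l 16741960)) (l 16741344))) (l 16741648)) (l 16738864))) (a (a (a (c (l 14) (b (b (l 16742168) (l 16742384)) (b (l 16742592) (l 16742816)))) (b (l 16742080) (l 16742504))) (b (l 16741344) (l 16741768))) (l 16740008))) (b (l 16736224) (l 16737072)))) (a (b (a (a (a (c (l 14) (b (a (b (l 16743456) (l 16743680)) (l 16743304)) (b (l 16745088) (l 16744008)))) (b (l 16743536) (l 16743968))) (b (l 16742800) (l 16743240))) (l 16744088)) (a (a (a (c (c (l 14) (b (b (l 14) (l 16745328)) (b (l 16745560) (l 16745784)))) (b (b (l 16744232) (l 16744464)) (b (l 16744704) (l 16744944)))) (b (l 16744416) (l 16744880))) (b (l 16743688) (l 16744152))) (l 16744984))) (b (l 16738536)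 (l 16739448))))) (b (b (l 16732096) (l 16732920)) (b (l 16733784) (l 16734696)))), by decide +kernel⟩

def k6_pp_022_a : ∃ t, chk3 f_pp_022_a t 64 54 3 = true :=
  ⟨(b (a (a (c (l 14) (a (a (a (c (b (c (l 14) (b (l 16746016) (l 16746256))) (a (b (l 16746888) (l 16747128)) (l 16746736))) (b (b (l 16745184) (l 16745424)) (b (l 16745672) (l 16745928)))) (b (l 16745352) (l 16745832))) (b (l 16744624) (l 16745112))) (c (l 16743840) (l 16742768)))) (l 16746712)) (l 16740888)) (a (a (a (c (c (l 14) (b (l 14) (c (l 14) (c (l 14) (a (a (b (l 14) (l 16748640)) (l 16748000)) (l 16747280)))))) (a (a (c (b (a (b (l 16747368) (l 16747616)) (l 16747224)) (b (l 16748400) (l 16749304))) (b (b (l 16746176) (l 16746432)) (b (l 16746696) (l 16746960)))) (b (l 16746328) (l 16746840))) (b (l 16745608) (l 16746120)))) (b (l 16745216) (l 16745704))) (l 16747672)) (l 16741888))), by decide +kernel⟩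

def k7_pp_022_a : ∃ t, chk3 f_pp_022_a t 64 55 3 = true :=
  ⟨(a (a (a (b (c (c (l 14) (a (a (b (c (l 14) (b (c (l 14) (l 16748888)) (l 16749928))) (b (b (l 16751032) (l 16751152)) (a (l 16750800) (l 16749904)))) (b (l 16748880) (l 16749376))) (b (l 16748152) (l 16748656)))) (a (a (c (b (b (l 16748248) (l 16748512)) (b (l 16748768) (l 16749040))) (b (b (l 16747224) (l 16747496)) (b (l 16747768) (l 16748048)))) (b (l 16747360) (l 16747888))) (b (l 16746640) (l 16747176)))) (a (a (c (a (c (l 14) (b (b (l 16751056) (l 16750656)) (b (l 16750920) (l 16751192)))) (b (b (l 16750648) (l 16750904)) (b (l 16751160) (l 16751416)))) (c (b (b (l 16749304) (l 16749576)) (b (l 16749848) (l 16750128))) (b (b (l 16748328) (l 16748608)) (b (l 16748896) (l 16749184))))) (b (c (c (l 14) (l 16749888)) (l 16748440)) (c (c (l 16752664) (l 16750408)) (l 16749000)))) (b (c (l 16749648) (l 16747728)) (c (l 16750160) (l 16748288))))) (b (b (l 16746208) (l 16746728)) (b (l 16747256) (l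 16750424)))) (b (c (l 16749640) (l 16742472)) (c (l 16750648) (l 16748816)))) (b (l 16742936) (l 16744024))), by decide +kernel⟩

def k8_pp_022_a : ∃ t, chk3 f_pp_022_a t 65 6 1 = true :=
  ⟨(b (b (a (c (l 17169344) (l 14)) (c (l 17246312) (l 16717768))) (c (c (l 17369936) (b (l 17076296) (b (l 17047176) (l 16951560)))) (b (l 16727680) (l 16729168)))) (a (b (b (l 16734328) (c (l 14) (l 16736512))) (b (c (l 14) (l 16738384)) (b (l 16742272) (l 16743320)))) (b (b (l 16739432) (l 16725376)) (b (l 16732424) (c (l 16735896) (l 16732800)))))), by decide +kernel⟩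

def k9_pp_022_a : ∃ t, chk3 f_pp_022_a t 33 6 1 = true :=
  ⟨(b (c (b (b (l 17461392) (l 17271096)) (c (b (l 17503952) (l 17422712)) (b (l 17008352) (a (l 17003096) (l 17029576))))) (a (b (l 16715520) (b (l 16701088) (l 16702760))) (b (l 16710864) (l 16706032)))) (b (b (a (l 16716960) (l 16711552)) (a (l 16721400) (l 16713560))) (a (a (b (l 16724640) (l 16726672)) (b (l 16727360) (l 16719000))) (b (l 16710472) (c (l 16711200) (l 16706208)))))), by decide +kernel⟩

def k10_pp_022_a : ∃ t, chk3 f_pp_022_a t 17 6 1 = true :=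
  ⟨(b (b (a (c (a (l 17455568) (l 17361720)) (a (l 16729256) (l 16675872))) (c (a (l 17501240) (l 17578712)) (a (l 16709184) (l 16702520)))) (a (a (c (c (l 17520176) (l 16866512)) (l 16690144)) (a (l 16737624) (l 16716904))) (a (a (l 16738736) (l 16740096)) (b (l 16796680) (l 16747728))))) (a (a (b (b (l 16695720) (l 16697880)) (b (l 16700120) (c (l 16692816) (l 16701336)))) (a (b (b (l 16662928) (l 16665184)) (b (l 16688312) (l 16690624))) (b (b (l 16675584) (l 16677792)) (b (c (l 16758216) (l 16679128)) (l 16682512))))) (b (a (b (l 16662296) (a (l 16669720) (l 16661272))) (b (l 16645080) (l 16647640))) (a (b (a (l 16672120) (l 16663864)) (a (l 16674824) (l 16687736))) (b (a (l 16655936) (l 16649128)) (b (l 16679352) (a (l 16662768) (l 16661824)))))))), by decide +kernel⟩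

def k11_pp_022_a : ∃ t, chk3 f_pp_022_a t 9 6 1 = true :=
  ⟨(a (b (b (c (a (a (l 17615912) (l 17654528)) (c (l 17968064) (l 17419784))) (a (a (l 16697984) (l 16695576)) (a (l 16695368) (l 16697232)))) (a (a (a (l 16726600) (l 16709232)) (c (b (l 17514976) (l 17286952)) (l 16615840))) (b (c (a (l 17551208) (l 17588888)) (l 16612168)) (a (l 16741072) (l 16708128))))) (a (b (b (a (l 16632832) (l 16628816)) (a (l 16681112) (b (l 16634928) (l 16639568)))) (a (b (b (l 16646104) (l 16651128)) (b (l 16677208) (l 16650936))) (b (c (b (l 16778040) (l 16686432)) (l 16638608)) (a (b (l 16632656) (l 16644240)) (b (l 16636840) (l 1)))))) (b (b (a (l 16627208) (a (l 16605944) (l 16606808))) (a (b (l 16633360) (a (l 16616544) (l 16615688))) (a (b (l 16610488) (l 16614768)) (l 16612120)))) (b (a (a (b (l 16621104) (l 16625752)) (b (l 16620144) (l 1))) (l 1)) (l 1))))) (b (b (c (a (a (l 17778352) (l 17737864)) (a (l 17686856) (l 17872216))) (a (b (l 16760632) (a (l 16620784)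 (l 16623944))) (a (b (l 16751952) (l 16628368)) (l 16719392)))) (a (a (b (c (l 17627944) (l 16586824)) (a (l 16715736) (a (l 16698568) (l 16679616)))) (b (c (l 17408664) (l 16585408)) (l 16683408))) (l 1))) (b (a (a (b (a (l 16608184) (l 1)) (l 1)) (l 1)) (l 1)) (l 1)))), by decide +kernel⟩

def k12_pp_022_a : ∃ t, chk3 f_pp_022_a t 16 56 1 = true :=
  ⟨(a (a (a (b (c (l 14) (b (a (a (a (a (c (a (c (c (l 14) (b (l 16752152) (l 16752416))) (b (l 16751456) (l 16751728))) (b (l 16751680) (l 16751952))) (b (c (l 16750408) (l 16749480)) (l 16751552))) (c (c (l 16753176) (l 16750952)) (l 16749568))) (c (l 16750688) (l 16748864))) (l 16750976)) (l 16745520)) (a (a (a (a (c (a (c (c (l 14) (b (l 16752680) (l 16752952))) (b (l 16752008) (l 16752288))) (b (l 16752216) (l 16752496))) (b (l 16751840) (l 16752144))) (c (c (l 16753696) (l 16751496)) (l 16750160))) (c (l 16751232) (l 16749456))) (l 16751552)) (l 16746096)))) (b (c (a (l 14) (l 16752624)) (a (a (c (a (a (b (c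 (b (l 16753928) (l 16754064)) (l 16753104)) (c (b (l 16754200) (l 16755000)) (l 16754048))) (c (l 16753912) (l 16752064))) (l 16751784)) (a (a (b (l 16752440) (l 16752752)) (l 16750760)) (l 16750056))) (l 16752136)) (l 16746688))) (c (a (c (l 14) (a (b (l 14) (a (a (l 14) (l 16754936)) (l 16754216))) (l 16752584))) (l 16753136)) (a (a (c (a (a (b (c (b (l 16755136) (l 16753968)) (l 16753032)) (a (b (l 16755112) (l 16755264)) (l 16753624))) (b (l 16752984) (l 16753272))) (l 16752352)) (a (a (b (l 16751752) (l 16752064)) (l 16751376)) (l 16750680))) (l 16752728)) (l 16747296))))) (b (b (l 16748072) (l 16749280)) (a (a (l 16750760) (l 16748856)) (l 16746008)))) (a (b (l 16739176) (l 16742936)) (b (l 16726312) (l 16737992)))) (b (a (l 16725352) (l 16720408)) (a (c (l 16727712) (l 16735824)) (l 16721560)))), by decide +kernel⟩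

def k13_pp_022_a : ∃ t, chk3 f_pp_022_a t 16 57 1 = true :=
  ⟨(b (b (b (b (a (a (a (a (c (c (l 14) (a (a (a (c (l 14) (c (l 14) (l 16755008))) (l 16755152)) (l 16754440)) (l 16753008))) (a (a (a (c (c (l 16754392) (l 16753560)) (l 16752312)) (l 16755304)) (l 16751976)) (l 16750576))) (l 16753288)) (l 16748920)) (l 16742824)) (a (l 16738064) (l 16701672))) (l 6)) (l 6)) (l 6)) (l 6)), by decide +kernel⟩

def k14_pp_022_a : ∃ t, chk3 f_pp_022_a t 16 29 1 = true :=
  ⟨(l 6), by decide +kernel⟩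

def k15_pp_022_a : ∃ t, chk3 f_pp_022_a t 17 14 1 = true :=
  ⟨(a (b (b (a (b (l 16704904) (l 16706288)) (a (l 16685352) (b (l 16685512) (l 16687152)))) (b (a (l 16697272) (a (l 16696640) (l 16688888))) (l 6))) (l 6)) (a (b (b (a (b (l 16677976) (l 16679720)) (b (l 16670072) (l 16675128))) (b (a (c (l 16682104) (l 16681624)) (l 16681000)) (l 6))) (l 6)) (a (b (b (b (l 16668336) (l 16674000)) (b (l 16679752) (l 6))) (l 6)) (b (b (a (l 16663168) (l 16662616)) (b (b (l 16661000) (l 16663808)) (l 16668448))) (l 1))))), by decide +kernel⟩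

def k16_pp_022_a : ∃ t, chk3 f_pp_022_a t 8 15 1 = true :=
  ⟨(a (l 6) (a (l 6) (l 1))), by decide +kernel⟩

def k17_pp_022_a : ∃ t, chk3 f_pp_022_a t 9 7 1 = true :=
  ⟨(b (a (b (a (b (a (b (a (l 16666168) (c (l 16649960) (l 16648568))) (a (a (l 16655880) (l 16655272)) (l 16670304))) (a (l 16656912) (l 1))) (a (b (b (l 16665336) (l 1)) (l 1)) (l 1))) (l 1)) (l 1)) (l 1)) (l 1)), by decide +kernel⟩

def k18_pp_022_a : ∃ t, chk3 f_pp_022_a t 5 3 1 = true :=
  ⟨(b (l 1) (l 1)), by decide +kernel⟩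

def k19_pp_022_a : ∃ t, chk3 f_pp_022_a t 3 1 1 = true :=
  ⟨(l 1), by decide +kernel⟩

theorem s20_pp_022_a : ∃ t, chk3 f_pp_022_a t 16 28 1 = true := ex3_b k12_pp_022_a k13_pp_022_a

theorem s21_pp_022_a : ∃ t, chk3 f_pp_022_a t 16 14 1 = true := ex3_b s20_pp_022_a k14_pp_022_a

theorem s22_pp_022_a : ∃ t, chk3 f_pp_022_a t 8 14 1 = true := ex3_a s21_pp_022_a k15_pp_022_a

theorem s23_pp_022_a : ∃ t, chk3 f_pp_022_a t 8 7 1 = true := ex3_b s22_pp_022_a k16_pp_022_a

theorem s24_pp_022_a : ∃ t, chk3 f_pp_022_a t 4 7 1 = true := ex3_a s23_pp_022_a k17_pp_022_a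

theorem s25_pp_022_a : ∃ t, chk3 f_pp_022_a t 64 27 3 = true := ex3_b k6_pp_022_a k7_pp_022_a

theorem s26_pp_022_a : ∃ t, chk3 f_pp_022_a t 64 13 3 = true := ex3_b k5_pp_022_a s25_pp_022_a

theorem s27_pp_022_a : ∃ t, chk3 f_pp_022_a t 64 6 3 = true := ex3_b k4_pp_022_a s26_pp_022_a

theorem s28_pp_022_a : ∃ t, chk3 f_pp_022_a t 64 6 1 = true := ex3_c k3_pp_022_a s27_pp_022_a

theorem s29_pp_022_a : ∃ t, chk3 f_pp_022_a t 32 6 1 = true := ex3_a s28_pp_022_a k8_pp_022_a

theorem s30_pp_022_a : ∃ t, chk3 f_pp_022_a t 16 6 1 = true := ex3_a s29_pp_022_a k9_pp_022_a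

theorem s31_pp_022_a : ∃ t, chk3 f_pp_022_a t 8 6 1 = true := ex3_a s30_pp_022_a k10_pp_022_a

theorem s32_pp_022_a : ∃ t, chk3 f_pp_022_a t 4 6 1 = true := ex3_a s31_pp_022_a k11_pp_022_a

theorem s33_pp_022_a : ∃ t, chk3 f_pp_022_a t 4 3 1 = true := ex3_b s32_pp_022_a s24_pp_022_a

theorem s34_pp_022_a : ∃ t, chk3 f_pp_022_a t 2 3 1 = true := ex3_a s33_pp_022_a k18_pp_022_a

theorem s35_pp_022_a : ∃ t, chk3 f_pp_022_a t 4 2 1 = true := ex3_a k0_pp_022_a k1_pp_022_a

theorem s36_pp_022_a : ∃ t, chk3 f_pp_022_a t 2 2 1 = true := ex3_a s35_pp_022_a k2_pp_022_a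

theorem s37_pp_022_a : ∃ t, chk3 f_pp_022_a t 2 1 1 = true := ex3_b s36_pp_022_a s34_pp_022_a

theorem s38_pp_022_a : ∃ t, chk3 f_pp_022_a t 1 1 1 = true := ex3_a s37_pp_022_a k19_pp_022_a

theorem c_pp_022_a : CertN 0 536870912 0 536870912 67108864 67108864 3 false true true .pp 0 2 2
    ndN0q0 ndN2q2a pcN2 cut_pp_022_a Ext.none :=
  certNK2 (fam := false) (s1 := true) (s2 := true) (a := 0) (b := 2) (c := 2) (cn := .pp) (n1 := ndN0q0) (n2 := ndN2q2a) (pc := pcN2) (cut := cut_pp_022_a) (xt := Ext.none) (P1 := 0) (W1 := 536870912) (P2 := 0) (W2 := 536870912) (P3 := 67108864) (W3 := 67108864) (N0 := 3)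
    rfl rfl rfl (fun _ => rfl) s38_pp_022_a

noncomputable def cut_pp_022_b : Cut := Cut.of [[⟨0, 0, 0, 67108864⟩, ⟨1, 1, 0, 67108864⟩, ⟨2, 1, 0, 67108864⟩], [⟨0, 0, 1, 33554432⟩, ⟨1, 1, 0, 16777216⟩, ⟨2, 1, 1, 33554432⟩, ⟨0, 0, 0, 150994944⟩, ⟨0, 1, 0, 1023410176⟩, ⟨2, 1, 0, 150994944⟩, ⟨2, 2, 0, 1023410176⟩]]

noncomputable def f_pp_022_b : ℕ → ℕ → ℕ → ℕ → Bool := onCell 1073741824 536870912 1239849684 370763052 67108864 67108864
    (rowNK 3 2 false true true .pp 0 2 2 (qsf 0 536870912 1239849684 370763052 2) ndN0q0 ndN2q2b pcN2 cut_pp_022_b Ext.none)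

def k0_pp_022_b : ∃ t, chk3 f_pp_022_b t 1 1 1 = true :=
  ⟨(a (b (a (a (a (b (b (c (a (l 17744792) (l 17885072)) (a (b (c (l 17394816) (a (b (l 17147944) (l 17286864)) (l 17262176))) (a (l 17476096) (l 17497728))) (b (l 17352768) (l 17532320)))) (a (a (l 17740744) (l 17810840)) (l 17854592))) (b (a (l 17914520) (l 17964944)) (l 18009616))) (b (a (b (a (b (l 17621152) (l 17778016)) (b (l 17630856) (l 17809408))) (a (l 17899864) (l 17929232))) (b (b (a (l 17726976) (l 17760136)) (l 17857320)) (l 17973744))) (a (l 18041024) (l 18096712)))) (b (a (b (a (b (l 17684320) (l 17926304)) (b (l 17861768) (l 17998224))) (a (l 18038024) (l 18104384))) (b (b (a (l 17957776) (l 18035344)) (l 18106840)) (l 18201808))) (a (l 18162880) (l 18272992)))) (b (a (a (b (b (a (l 18115800) (l 18199376)) (l 18260624)) (l 18336696)) (b (b (c (l 18644936) (l 17948904)) (l 18414280)) (l 18458296))) (b (l 161634860199) (l 18626776))) (a (a (l 18373256) (l 18442416)) (l 18560072)))) (a (a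 (a (b (l 18051464) (l 18012464)) (a (b (l 18093632) (l 18043696)) (l 18306416))) (a (b (l 18180288) (l 18110352)) (l 18229176))) (a (b (l 18340672) (l 18230640)) (l 18342576)))) (b (a (b (l 1) (l 187942841783)) (l 1)) (a (b (l 18561880) (l 18366536)) (l 18815600)))), by decide +kernel⟩

theorem c_pp_022_b : CertN 0 536870912 1239849684 370763052 67108864 67108864 3 false true true .pp 0 2 2
    ndN0q0 ndN2q2b pcN2 cut_pp_022_b Ext.none :=
  certNK2 (fam := false) (s1 := true) (s2 := true) (a := 0) (b := 2) (c := 2) (cn := .pp) (n1 := ndN0q0) (n2 := ndN2q2b) (pc := pcN2) (cut := cut_pp_022_b) (xt := Ext.none) (P1 := 0) (W1 := 536870912) (P2 := 1239849684) (W2 := 370763052) (P3 := 67108864) (W3 := 67108864) (N0 := 3)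
    rfl rfl rfl (fun _ => rfl) k0_pp_022_b

noncomputable def f_pp_023 : ℕ → ℕ → ℕ → ℕ → Bool := onCell 0 536870912 1073741824 536870912 67108864 67108864
    (rowNK 3 1 false true true .up 0 2 3 (qsf 0 536870912 1610612736 536870912 2) ndN0q0 ndN2q3 pcN2 Cut.none Ext.none)

def k0_pp_023 : ∃ t, chk3 f_pp_023 t 1 1 1 = true :=
  ⟨(a (b (b (l 1) (a (l 1) (b (l 1) (l 267936268071)))) (b (a (l 260958282487) (l 259346489175)) (a (l 249147469159) (l 18703760)))) (a (b (b (b (l 1) (l 280819992647)) (b (l 18104720) (l 18040576))) (b (l 18059760) (l 18084456))) (b (b (b (b (l 18224176) (l 18316704)) (l 106873668279)) (b (l 17748736) (l 17567624))) (b (l 17669512) (l 17626368))))), by decide +kernel⟩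

theorem c_pp_023 : CertN 0 536870912 1610612736 536870912 67108864 67108864 3 false true true .up 0 2 3
    ndN0q0 ndN2q3 pcN2 Cut.none Ext.none :=
  certNK1 (fam := false) (s1 := true) (s2 := true) (a := 0) (b := 2) (c := 3) (cn := .up) (n1 := ndN0q0) (n2 := ndN2q3) (pc := pcN2) (cut := Cut.none) (xt := Ext.none) (P1 := 0) (W1 := 536870912) (P2 := 1610612736) (W2 := 536870912) (P3 := 67108864) (W3 := 67108864) (N0 := 3)
    rfl rfl rfl (fun _ => rfl) k0_pp_023

noncomputable def f_pp_033 : ℕ → ℕ → ℕ → ℕ → Bool := onCell 1610612736 536870912 1610612736 536870912 67108864 67108864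
    (rowNK 3 2 false true true .pnn 0 3 3 (qsf 0 536870912 1610612736 536870912 3) ndN0q0 ndN2q3 pcN3 Cut.none Ext.none)

def k0_pp_033 : ∃ t, chk3 f_pp_033 t 1 1 1 = true :=
  ⟨(a (b (a (b (a (b (l 19228664) (l 18464088)) (b (l 19453072) (l 18728112))) (a (l 17567520) (l 18002536))) (b (a (l 249684664663) (l 1)) (a (l 18538376) (l 19037168)))) (a (b (a (l 16979224) (l 17442096)) (a (l 16890144) (l 17269392))) (b (l 119759008583) (a (l 17647112) (l 17872128))))) (a (b (b (l 1) (a (l 19459912) (l 1))) (b (a (l 18550520) (l 18526592)) (a (l 17975872) (l 4)))) (b (l 1) (l 4)))), by decide +kernel⟩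

theorem c_pp_033 : CertN 0 536870912 1610612736 536870912 67108864 67108864 3 false true true .pnn 0 3 3
    ndN0q0 ndN2q3 pcN3 Cut.none Ext.none :=
  certNK2 (fam := false) (s1 := true) (s2 := true) (a := 0) (b := 3) (c := 3) (cn := .pnn) (n1 := ndN0q0) (n2 := ndN2q3) (pc := pcN3) (cut := Cut.none) (xt := Ext.none) (P1 := 0) (W1 := 536870912) (P2 := 1610612736) (W2 := 536870912) (P3 := 67108864) (W3 := 67108864) (N0 := 3)
    rfl rfl rfl (fun _ => rfl) k0_pp_033

noncomputable def f_pp_101 : ℕ → ℕ → ℕ → ℕ → Bool := onCell 536870912 536870912 536870912 536870912 67108864 67108864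
    (rowNK 3 0 false true true .npn 1 0 1 (qsf 536870912 536870912 536870912 536870912 0) ndN0q1 ndN2q1 pcN0 Cut.none Ext.none)

def k0_pp_101 : ∃ t, chk3 f_pp_101 t 1 1 1 = true :=
  ⟨(a (l 3) (l 5)), by decide +kernel⟩

theorem c_pp_101 : CertN 536870912 536870912 536870912 536870912 67108864 67108864 3 false true true .npn 1 0 1
    ndN0q1 ndN2q1 pcN0 Cut.none Ext.none :=
  certNK0 (fam := false) (s1 := true) (s2 := true) (a := 1) (b := 0) (c := 1) (cn := .npn) (n1 := ndN0q1) (n2 := ndN2q1) (pc := pcN0) (cut := Cut.none) (xt := Ext.none) (P1 := 536870912) (W1 := 536870912) (P2 := 536870912) (W2 := 536870912) (P3 := 67108864) (W3 := 67108864) (N0 := 3)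
    rfl rfl rfl k0_pp_101

noncomputable def f_pp_102_a : ℕ → ℕ → ℕ → ℕ → Bool := onCell 536870912 536870912 0 536870912 67108864 67108864
    (rowNK 3 0 false true true .npp 1 0 2 (qsf 536870912 536870912 0 536870912 0) ndN0q1 ndN2q2a pcN0 Cut.none Ext.none)

def k0_pp_102_a : ∃ t, chk3 f_pp_102_a t 1 1 1 = true :=
  ⟨(l 3), by decide +kernel⟩

theorem c_pp_102_a : CertN 536870912 536870912 0 536870912 67108864 67108864 3 false true true .npp 1 0 2
    ndN0q1 ndN2q2a pcN0 Cut.none Ext.none :=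
  certNK0 (fam := false) (s1 := true) (s2 := true) (a := 1) (b := 0) (c := 2) (cn := .npp) (n1 := ndN0q1) (n2 := ndN2q2a) (pc := pcN0) (cut := Cut.none) (xt := Ext.none) (P1 := 536870912) (W1 := 536870912) (P2 := 0) (W2 := 536870912) (P3 := 67108864) (W3 := 67108864) (N0 := 3)
    rfl rfl rfl k0_pp_102_a

noncomputable def f_pp_102_b : ℕ → ℕ → ℕ → ℕ → Bool := onCell 536870912 536870912 0 536870912 67108864 67108864
    (rowNK 3 1 false true true .npp 1 0 2 (qsf 536870912 536870912 1239849684 370763052 0) ndN0q1 ndN2q2b pcN0 Cut.none Ext.none)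

def k0_pp_102_b : ∃ t, chk3 f_pp_102_b t 1 1 1 = true :=
  ⟨(l 3), by decide +kernel⟩

theorem c_pp_102_b : CertN 536870912 536870912 1239849684 370763052 67108864 67108864 3 false true true .npp 1 0 2
    ndN0q1 ndN2q2b pcN0 Cut.none Ext.none :=
  certNK1 (fam := false) (s1 := true) (s2 := true) (a := 1) (b := 0) (c := 2) (cn := .npp) (n1 := ndN0q1) (n2 := ndN2q2b) (pc := pcN0) (cut := Cut.none) (xt := Ext.none) (P1 := 536870912) (W1 := 536870912) (P2 := 1239849684) (W2 := 370763052) (P3 := 67108864) (W3 := 67108864) (N0 := 3)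
    rfl rfl rfl (fun _ => rfl) k0_pp_102_b

noncomputable def f_pp_112_a : ℕ → ℕ → ℕ → ℕ → Bool := onCell 536870912 536870912 0 536870912 67108864 67108864
    (rowNK 3 0 false true true .dn 1 1 2 (qsf 536870912 536870912 0 536870912 1) ndN0q1 ndN2q2a pcN1 Cut.none Ext.none)

def k0_pp_112_a : ∃ t, chk3 f_pp_112_a t 1 1 1 = true :=
  ⟨(l 3), by decide +kernel⟩

theorem c_pp_112_a : CertN 536870912 536870912 0 536870912 67108864 67108864 3 false true true .dn 1 1 2
    ndN0q1 ndN2q2a pcN1 Cut.none Ext.none :=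
  certNK0 (fam := false) (s1 := true) (s2 := true) (a := 1) (b := 1) (c := 2) (cn := .dn) (n1 := ndN0q1) (n2 := ndN2q2a) (pc := pcN1) (cut := Cut.none) (xt := Ext.none) (P1 := 536870912) (W1 := 536870912) (P2 := 0) (W2 := 536870912) (P3 := 67108864) (W3 := 67108864) (N0 := 3)
    rfl rfl rfl k0_pp_112_a

noncomputable def f_pp_112_b : ℕ → ℕ → ℕ → ℕ → Bool := onCell 536870912 536870912 1239849684 370763052 67108864 67108864
    (rowNK 3 0 false true true .dn 1 1 2 (qsf 536870912 536870912 1239849684 370763052 1) ndN0q1 ndN2q2b pcN1 Cut.none Ext.none)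

def k0_pp_112_b : ∃ t, chk3 f_pp_112_b t 1 1 1 = true :=
  ⟨(a (b (l 3) (a (b (l 3) (a (b (l 3) (l 145124770727)) (l 3))) (l 3))) (l 3)), by decide +kernel⟩

theorem c_pp_112_b : CertN 536870912 536870912 1239849684 370763052 67108864 67108864 3 false true true .dn 1 1 2
    ndN0q1 ndN2q2b pcN1 Cut.none Ext.none :=
  certNK0 (fam := false) (s1 := true) (s2 := true) (a := 1) (b := 1) (c := 2) (cn := .dn) (n1 := ndN0q1) (n2 := ndN2q2b) (pc := pcN1) (cut := Cut.none) (xt := Ext.none) (P1 := 536870912) (W1 := 536870912) (P2 := 1239849684) (W2 := 370763052) (P3 := 67108864) (W3 := 67108864) (N0 := 3)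
    rfl rfl rfl k0_pp_112_b

noncomputable def cut_pp_113 : Cut := Cut.of [[⟨0, 1, 0, 21338704⟩, ⟨1, 1, 0, 21338704⟩, ⟨2, 2, 0, 1685920⟩]]

noncomputable def f_pp_113 : ℕ → ℕ → ℕ → ℕ → Bool := onCell 536870912 536870912 536870912 536870912 67108864 67108864
    (rowNK 3 1 false true true .nn 1 1 3 (qsf 536870912 536870912 1610612736 536870912 1) ndN0q1 ndN2q3 pcN1 cut_pp_113 Ext.none)

def k0_pp_113 : ∃ t, chk3 f_pp_113 t 1 1 1 = true :=
  ⟨(b (l 3) (b (l 3) (b (a (l 3) (l 3)) (b (a (l 3) (l 3)) (a (a (l 170358993767) (b (l 3) (l 171968848983))) (a (a (l 173041942007) (l 242834507479)) (b (l 3) (a (l 178409639271) (a (l 171429774279) (b (l 3) (a (l 182167127095) (b (l 3) (a (l 186998917591) (b (l 3) (b (l 3) (b (l 3) (a (l 16795616) (a (l 16784096) (a (l 191293826551) (l 6)))))))))))))))))))), by decide +kernel⟩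

theorem c_pp_113 : CertN 536870912 536870912 1610612736 536870912 67108864 67108864 3 false true true .nn 1 1 3
    ndN0q1 ndN2q3 pcN1 cut_pp_113 Ext.none :=
  certNK1 (fam := false) (s1 := true) (s2 := true) (a := 1) (b := 1) (c := 3) (cn := .nn) (n1 := ndN0q1) (n2 := ndN2q3) (pc := pcN1) (cut := cut_pp_113) (xt := Ext.none) (P1 := 536870912) (W1 := 536870912) (P2 := 1610612736) (W2 := 536870912) (P3 := 67108864) (W3 := 67108864) (N0 := 3)
    rfl rfl rfl (fun _ => rfl) k0_pp_113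

noncomputable def cut_pp_123 : Cut := Cut.of [[⟨0, 1, 0, 21338704⟩, ⟨1, 1, 0, 21338704⟩, ⟨2, 2, 0, 1685920⟩]]

noncomputable def f_pp_123 : ℕ → ℕ → ℕ → ℕ → Bool := onCell 1073741824 536870912 1610612736 536870912 67108864 67108864
    (rowNK 3 2 false true true .npn 1 2 3 (qsf 536870912 536870912 1610612736 536870912 2) ndN0q1 ndN2q3 pcN2 cut_pp_123 Ext.none)

def k0_pp_123 : ∃ t, chk3 f_pp_123 t 1 1 1 = true :=
  ⟨(a (b (a (a (a (b (l 18177200) (b (l 17733528) (l 17504320))) (b (b (l 18015648) (l 17880352)) (b (l 17685720) (l 17458496)))) (b (b (l 17931432) (l 17801296)) (b (l 17612432) (l 17383440)))) (b (a (l 151433662295) (l 1)) (a (l 17553312) (l 17482600)))) (a (b (a (a (b (l 17263792) (l 17033000)) (b (l 17243040) (l 17209840))) (a (l 17210568) (l 17087856))) (a (a (b (l 17018784) (a (b (l 16906448) (b (l 16869960) (a (a (b (l 16814432) (b (l 16797976) (b (l 16799496) (b (a (l 16788424) (l 16785520)) (l 6))))) (l 16808184)) (l 16815080)))) (l 16923128)))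 (a (b (l 16946288) (l 16890528)) (b (l 16978960) (l 16915200)))) (a (b (l 17006328) (l 16931512)) (l 17045560)))) (b (a (l 17274096) (l 17251368)) (a (b (l 17106856) (l 16999904)) (l 17095520))))) (b (a (b (l 1) (b (l 1) (l 17702872))) (l 1)) (b (a (l 17642904) (l 303905216743)) (a (b (l 17307744) (l 17191992)) (l 17560952))))), by decide +kernel⟩

theorem c_pp_123 : CertN 536870912 536870912 1610612736 536870912 67108864 67108864 3 false true true .npn 1 2 3
    ndN0q1 ndN2q3 pcN2 cut_pp_123 Ext.none :=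
  certNK2 (fam := false) (s1 := true) (s2 := true) (a := 1) (b := 2) (c := 3) (cn := .npn) (n1 := ndN0q1) (n2 := ndN2q3) (pc := pcN2) (cut := cut_pp_123) (xt := Ext.none) (P1 := 536870912) (W1 := 536870912) (P2 := 1610612736) (W2 := 536870912) (P3 := 67108864) (W3 := 67108864) (N0 := 3)
    rfl rfl rfl (fun _ => rfl) k0_pp_123

noncomputable def f_pp_133 : ℕ → ℕ → ℕ → ℕ → Bool := onCell 1610612736 536870912 1610612736 536870912 67108864 67108864
    (rowNK 3 2 false true true .dn 1 3 3 (qsf 536870912 536870912 1610612736 536870912 3) ndN0q1 ndN2q3 pcN3 Cut.none Ext.none)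

def k0_pp_133 : ∃ t, chk3 f_pp_133 t 1 1 1 = true :=
  ⟨(a (b (l 1) (a (b (l 1) (a (l 16967080) (l 1))) (l 1))) (l 1)), by decide +kernel⟩

theorem c_pp_133 : CertN 536870912 536870912 1610612736 536870912 67108864 67108864 3 false true true .dn 1 3 3
    ndN0q1 ndN2q3 pcN3 Cut.none Ext.none :=
  certNK2 (fam := false) (s1 := true) (s2 := true) (a := 1) (b := 3) (c := 3) (cn := .dn) (n1 := ndN0q1) (n2 := ndN2q3) (pc := pcN3) (cut := Cut.none) (xt := Ext.none) (P1 := 536870912) (W1 := 536870912) (P2 := 1610612736) (W2 := 536870912) (P3 := 67108864) (W3 := 67108864) (N0 := 3)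
    rfl rfl rfl (fun _ => rfl) k0_pp_133

noncomputable def f_pp_202_a : ℕ → ℕ → ℕ → ℕ → Bool := onCell 0 536870912 0 536870912 67108864 67108864
    (rowNK 3 0 false true true .pp 2 0 2 (qsf 0 536870912 0 536870912 0) ndN0q2 ndN2q2a pcN0 Cut.none Ext.none)

def k0_pp_202_a : ∃ t, chk3 f_pp_202_a t 1 1 1 = true :=
  ⟨(l 3), by decide +kernel⟩

theorem c_pp_202_a : CertN 0 536870912 0 536870912 67108864 67108864 3 false true true .pp 2 0 2
    ndN0q2 ndN2q2a pcN0 Cut.none Ext.none :=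
  certNK0 (fam := false) (s1 := true) (s2 := true) (a := 2) (b := 0) (c := 2) (cn := .pp) (n1 := ndN0q2) (n2 := ndN2q2a) (pc := pcN0) (cut := Cut.none) (xt := Ext.none) (P1 := 0) (W1 := 536870912) (P2 := 0) (W2 := 536870912) (P3 := 67108864) (W3 := 67108864) (N0 := 3)
    rfl rfl rfl k0_pp_202_a

noncomputable def f_pp_202_b : ℕ → ℕ → ℕ → ℕ → Bool := onCell 0 536870912 1239849684 370763052 67108864 67108864
    (rowNK 3 0 false true true .pp 2 0 2 (qsf 0 536870912 1239849684 370763052 0) ndN0q2 ndN2q2b pcN0 Cut.none Ext.none)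

def k0_pp_202_b : ∃ t, chk3 f_pp_202_b t 1 1 1 = true :=
  ⟨(l 3), by decide +kernel⟩

theorem c_pp_202_b : CertN 0 536870912 1239849684 370763052 67108864 67108864 3 false true true .pp 2 0 2
    ndN0q2 ndN2q2b pcN0 Cut.none Ext.none :=
  certNK0 (fam := false) (s1 := true) (s2 := true) (a := 2) (b := 0) (c := 2) (cn := .pp) (n1 := ndN0q2) (n2 := ndN2q2b) (pc := pcN0) (cut := Cut.none) (xt := Ext.none) (P1 := 0) (W1 := 536870912) (P2 := 1239849684) (W2 := 370763052) (P3 := 67108864) (W3 := 67108864) (N0 := 3)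
    rfl rfl rfl k0_pp_202_b

noncomputable def f_pp_203 : ℕ → ℕ → ℕ → ℕ → Bool := onCell 0 536870912 0 536870912 67108864 67108864
    (rowNK 3 1 false true true .up 2 0 3 (qsf 0 536870912 1610612736 536870912 0) ndN0q2 ndN2q3 pcN0 Cut.none Ext.none)

def k0_pp_203 : ∃ t, chk3 f_pp_203 t 1 1 1 = true :=
  ⟨(l 3), by decide +kernel⟩

theorem c_pp_203 : CertN 0 536870912 1610612736 536870912 67108864 67108864 3 false true true .up 2 0 3
    ndN0q2 ndN2q3 pcN0 Cut.none Ext.none :=
  certNK1 (fam := false) (s1 := true) (s2 := true) (a := 2) (b := 0) (c := 3) (cn := .up) (n1 := ndN0q2) (n2 := ndN2q3) (pc := pcN0) (cut := Cut.none) (xt := Ext.none) (P1 := 0) (W1 := 536870912) (P2 := 1610612736) (W2 := 536870912) (P3 := 67108864) (W3 := 67108864) (N0 := 3)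
    rfl rfl rfl (fun _ => rfl) k0_pp_203

noncomputable def cut_pp_213 : Cut := Cut.of [[⟨0, 1, 0, 21338704⟩, ⟨1, 1, 0, 21338704⟩, ⟨2, 2, 0, 1685920⟩]]

noncomputable def f_pp_213 : ℕ → ℕ → ℕ → ℕ → Bool := onCell 0 536870912 1610612736 536870912 67108864 67108864
    (rowNK 3 0 false true true .pnn 2 1 3 (qsf 0 536870912 1610612736 536870912 1) ndN0q2 ndN2q3 pcN1 cut_pp_213 Ext.none)

def k0_pp_213 : ∃ t, chk3 f_pp_213 t 1 1 1 = true :=
  ⟨(b (l 3) (a (l 3) (b (l 3) (a (l 3) (b (l 3) (a (l 3) (b (l 3) (a (l 3) (b (l 3) (a (l 3) (b (l 3) (b (l 3) (b (l 3) (b (l 3) (l 6))))))))))))))), by decide +kernel⟩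

theorem c_pp_213 : CertN 0 536870912 1610612736 536870912 67108864 67108864 3 false true true .pnn 2 1 3
    ndN0q2 ndN2q3 pcN1 cut_pp_213 Ext.none :=
  certNK0 (fam := false) (s1 := true) (s2 := true) (a := 2) (b := 1) (c := 3) (cn := .pnn) (n1 := ndN0q2) (n2 := ndN2q3) (pc := pcN1) (cut := cut_pp_213) (xt := Ext.none) (P1 := 0) (W1 := 536870912) (P2 := 1610612736) (W2 := 536870912) (P3 := 67108864) (W3 := 67108864) (N0 := 3)
    rfl rfl rfl k0_pp_213

noncomputable def f_pm_001 : ℕ → ℕ → ℕ → ℕ → Bool := onCell 0 536870912 536870912 536870912 67108864 67108864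
    (rowNK 3 0 false true false .up 0 0 1 (qsf 0 536870912 536870912 536870912 0) ndN0q0 ndN2q1 pcN0 Cut.none Ext.none)

def k0_pm_001 : ∃ t, chk3 f_pm_001 t 1 1 1 = true :=
  ⟨(l 4), by decide +kernel⟩

theorem c_pm_001 : CertN 0 536870912 536870912 536870912 67108864 67108864 3 false true false .up 0 0 1
    ndN0q0 ndN2q1 pcN0 Cut.none Ext.none :=
  certNK0 (fam := false) (s1 := true) (s2 := false) (a := 0) (b := 0) (c := 1) (cn := .up) (n1 := ndN0q0) (n2 := ndN2q1) (pc := pcN0) (cut := Cut.none) (xt := Ext.none) (P1 := 0) (W1 := 536870912) (P2 := 536870912) (W2 := 536870912) (P3 := 67108864) (W3 := 67108864) (N0 := 3)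
    rfl rfl rfl k0_pm_001

noncomputable def f_pm_011 : ℕ → ℕ → ℕ → ℕ → Bool := onCell 0 536870912 536870912 536870912 67108864 67108864
    (rowNK 3 0 false true false .pnn 0 1 1 (qsf 0 536870912 536870912 536870912 1) ndN0q0 ndN2q1 pcN1 Cut.none Ext.none)

def k0_pm_011 : ∃ t, chk3 f_pm_011 t 1 1 1 = true :=
  ⟨(l 4), by decide +kernel⟩

theorem c_pm_011 : CertN 0 536870912 536870912 536870912 67108864 67108864 3 false true false .pnn 0 1 1
    ndN0q0 ndN2q1 pcN1 Cut.none Ext.none :=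
  certNK0 (fam := false) (s1 := true) (s2 := false) (a := 0) (b := 1) (c := 1) (cn := .pnn) (n1 := ndN0q0) (n2 := ndN2q1) (pc := pcN1) (cut := Cut.none) (xt := Ext.none) (P1 := 0) (W1 := 536870912) (P2 := 536870912) (W2 := 536870912) (P3 := 67108864) (W3 := 67108864) (N0 := 3)
    rfl rfl rfl k0_pm_011

noncomputable def cut_pm_012_a : Cut := Cut.of [[⟨0, 0, 0, 67108864⟩, ⟨1, 1, 0, 67108864⟩, ⟨2, 1, 0, 67108864⟩], [⟨0, 0, 1, 33554432⟩, ⟨1, 1, 2, 33554432⟩, ⟨2, 1, 0, 16777216⟩, ⟨0, 0, 0, 150994944⟩, ⟨0, 1, 0, 1023410176⟩, ⟨1, 0, 0, 1023410176⟩, ⟨1, 1, 0, 150994944⟩]]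

noncomputable def f_pm_012_a : ℕ → ℕ → ℕ → ℕ → Bool := onCell 536870912 536870912 0 536870912 67108864 67108864
    (rowNK 3 2 false true false .pnp 0 1 2 (qsf 0 536870912 0 536870912 1) ndN0q0 ndN2q2a pcN1 cut_pm_012_a Ext.none)

def k0_pm_012_a : ∃ t, chk3 f_pm_012_a t 2 1 1 = true :=
  ⟨(b (a (l 18135696) (a (l 17764512) (l 17579336))) (b (a (l 18305984) (a (l 17954928) (l 17735976))) (a (b (l 18520064) (a (l 18503672) (a (l 18484096) (l 18427376)))) (b (a (l 18130488) (l 17934944)) (a (b (l 18249776) (l 18320608)) (a (l 18063416) (l 17988696))))))), by decide +kernel⟩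

def k1_pm_012_a : ∃ t, chk3 f_pm_012_a t 3 2 1 = true :=
  ⟨(a (a (l 18080888) (b (l 18583120) (a (l 18398736) (l 18680960)))) (a (b (a (l 18868384) (l 18941936)) (a (l 18775088) (b (l 18866960) (l 18741232)))) (a (a (b (l 18952208) (b (l 18847008) (l 18638912))) (b (l 18946032) (c (l 19164656) (b (l 18372248) (a (l 18166616) (l 18075328)))))) (b (c (l 19365128) (b (l 18392848) (a (l 18384488) (l 18199960)))) (c (b (l 19212672) (a (l 19019360) (b (l 18994712) (l 18812056)))) (b (a (l 18208832) (b (l 18044616) (c (l 18201248) (l 17535528)))) (a (b (l 17997824) (c (l 18086776) (l 17508296))) (b (c (l 18015432) (a (l 17464488) (l 17240576))) (a (l 17278288) (a (l 17190784) (l 16975472))))))))))), by decide +kernel⟩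

def k2_pm_012_a : ∃ t, chk3 f_pm_012_a t 6 3 1 = true :=
  ⟨(b (a (b (l 17961432) (l 17912952)) (a (b (l 18313176) (l 18197288)) (b (l 18540240) (a (l 18336920) (l 18374584))))) (b (a (b (l 17865560) (l 17896936)) (a (b (l 18080544) (l 17972248)) (a (b (l 18161984) (b (l 18050168) (l 17962456))) (b (l 18161784) (b (l 18024832) (l 17875720)))))) (a (a (l 17855176) (a (l 17733456) (l 17642984))) (a (b (l 17850696) (a (l 17710808) (a (l 17665864) (b (l 17706024) (l 17565304))))) (a (a (b (l 17825920) (c (l 17788600) (b (l 17485872) (b (l 17411528) (l 17362176))))) (b (l 17548512) (c (l 17719840) (b (l 17360464) (c (l 17385040) (b (l 17209272) (a (l 17187952) (l 16992456)))))))) (b (c (l 17993200) (b (l 17539968) (a (l 17447864) (l 17374752)))) (c (b (l 17776496) (b (l 17655608) (l 17507848))) (b (a (l 17128480) (b (l 17271648) (l 17054568))) (c (b (a (l 17333496) (l 17255616)) (a (l 17262616) (b (l 17200248) (l 17100688)))) (b (a (l 17037152) (b (l 17022576) (l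 14))) (a (b (l 16947992) (a (l 16981248) (l 14))) (l 14)))))))))))), by decide +kernel⟩

def k3_pm_012_a : ∃ t, chk3 f_pm_012_a t 14 6 1 = true :=
  ⟨(a (b (l 18580160) (b (l 18413240) (a (l 18283256) (l 18225632)))) (b (a (l 18544608) (c (l 18876168) (l 17960560))) (c (b (l 18679864) (a (l 18507984) (l 18434496))) (b (a (l 17973552) (l 17651712)) (a (l 17551248) (b (l 17504944) (a (l 17545320) (l 17413816)))))))), by decide +kernel⟩

def k4_pm_012_a : ∃ t, chk3 f_pm_012_a t 15 6 1 = true :=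
  ⟨(a (b (a (c (l 18847728) (b (l 18052672) (a (l 17899616) (l 17793096)))) (c (a (l 18799208) (l 18750264)) (a (b (l 17905640) (l 17495728)) (b (l 17779648) (l 17314400))))) (a (c (b (l 18570256) (a (l 18343352) (l 18260688))) (b (a (l 17635056) (b (l 17594856) (l 17438848))) (a (b (l 17430816) (l 17191112)) (b (l 17156280) (l 16890440))))) (c (b (a (l 18470728) (l 18377864)) (a (a (l 18182688) (l 17953912)) (c (l 18350816) (b (l 17788184) (l 17559504))))) (b (a (b (l 17374472) (l 17069624)) (b (l 17242560) (l 17034544))) (a (b (l 16801376) (l 16649016)) (b (l 16794088) (l 16549248))))))) (b (b (c (a (l 18764256) (a (l 18627624) (l 18242904))) (a (c (l 17844544) (a (l 17331400) (l 17112216))) (a (b (l 17230920) (l 17019976)) (b (l 16909968) (l 16787736))))) (c (a (l 18286976) (c (l 18450688) (a (l 17845200) (b (l 17806200) (l 17334120))))) (a (c (a (l 17623136) (l 17183096)) (a (l 16989648) (l 16711392))) (a (b (l 16883104) (l 16625176)) (l 16559712))))) (a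 (b (c (c (l 18544488) (a (l 17914984) (b (l 17828568) (l 17595856)))) (a (b (l 17002336) (l 16756968)) (l 16569328))) (a (c (c (l 18105888) (b (l 17584528) (l 17103112))) (b (l 16547280) (l 16561576))) (b (c (c (l 18154488) (l 17089328)) (l 16559432)) (l 16597136)))) (a (b (c (c (l 18214576) (b (l 17548528) (a (l 17388656) (l 17203176)))) (l 16583992)) (a (b (l 16605616) (l 16606200)) (b (l 16576112) (l 16611504)))) (b (b (c (c (l 18232304) (a (l 17363528) (l 17078448))) (l 16554840)) (l 16586232)) (b (b (l 16579944) (l 16597328)) (b (l 16604512) (l 16614600)))))))), by decide +kernel⟩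

def k5_pm_012_a : ∃ t, chk3 f_pm_012_a t 14 14 1 = true :=
  ⟨(a (a (b (l 17957016) (b (l 17840568) (b (l 17772008) (l 17623440)))) (b (b (l 18076808) (l 17708776)) (c (b (l 18172560) (l 18031856)) (b (a (l 17531496) (l 17435664)) (b (l 17230168) (l 17089808)))))) (b (c (a (l 18276224) (b (l 18235344) (l 18013760))) (a (b (l 17485288) (a (l 17477696) (l 17358216))) (b (a (l 17389312) (l 17153960)) (a (l 17088328) (l 16850552))))) (a (c (b (l 18064688) (b (l 17942832) (l 17854232))) (b (a (l 17195496) (l 16932400)) (b (a (l 17195056) (l 17021784)) (a (l 17105240) (l 16942288))))) (c (b (a (l 17944240) (l 17691248)) (c (a (l 17985464) (l 17881152)) (a (l 17324720) (b (l 17417856) (l 17297936))))) (b (a (b (l 17070072) (l 16966816)) (b (l 16874968) (l 16756912))) (b (a (l 16858224) (l 16632344)) (a (l 16744392) (c (l 16767592) (l 16615560))))))))), by decide +kernel⟩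

def k6_pm_012_a : ∃ t, chk3 f_pm_012_a t 28 15 1 = true :=
  ⟨(b (c (a (l 17700080) (a (l 17571192) (b (l 17840056) (l 17593896)))) (a (a (b (l 17430488) (l 17142848)) (b (l 17341640) (a (l 17111576) (l 17015496)))) (a (b (l 17089944) (c (l 17197000) (l 16705240))) (b (l 16902376) (b (l 16915128) (l 16802344)))))) (a (c (b (c (l 17807712) (l 17374400)) (c (b (l 17667248) (l 17568504)) (b (l 17265440) (a (l 17345688) (b (l 17279992) (l 17192952)))))) (c (b (a (l 17218320) (b (l 17223352) (l 17099400))) (b (a (l 17081304) (b (l 17038112) (l 14))) (a (c (b (l 17172712) (l 17133576)) (l 14)) (l 14)))) (b (b (a (l 17038992) (l 16919976)) (l 14)) (l 14)))) (b (c (c (l 17590512) (a (l 17305824) (b (l 17330488) (l 17125280)))) (a (b (l 16777112) (l 14)) (b (l 16731160) (l 16703488)))) (c (c (b (l 17389520) (a (l 17451920) (b (l 17383808) (l 17285160)))) (b (a (l 17122232) (c (l 17172240) (l 14))) (a (c (b (l 17252672) (l 17204080)) (l 14)) (l 14)))) (a (l 14) (a (l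 14) (a (l 14) (a (l 14) (a (l 14) (b (l 16736400) (b (l 16729824) (b (l 16737112) (c (l 14) (c (l 14) (b (l 16738920) (l 16743168)))))))))))))))), by decide +kernel⟩

def k7_pm_012_a : ∃ t, chk3 f_pm_012_a t 58 30 1 = true :=
  ⟨(a (c (c (l 17856904) (b (l 17560160) (l 17213912))) (b (l 16774272) (b (l 16814968) (l 16713928)))) (b (c (l 17447440) (l 16699296)) (c (c (l 17655280) (b (l 17276416) (l 17036296))) (a (l 16674016) (l 16674880))))), by decide +kernel⟩

def k8_pm_012_a : ∃ t, chk3 f_pm_012_a t 58 31 1 = true :=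
  ⟨(c (c (b (a (l 17387848) (b (l 17476488) (l 17141632))) (b (a (l 17190800) (c (l 17263720) (l 14))) (a (c (b (l 17358968) (l 17297112)) (l 14)) (l 14)))) (b (b (a (l 17097240) (a (l 17066680) (l 16937608))) (l 14)) (l 14))) (b (a (b (l 16720176) (l 16707256)) (b (l 16690368) (c (l 16715192) (l 16708032)))) (b (a (a (l 16726272) (l 16729832)) (a (l 16730808) (a (l 16729104) (l 16729624)))) (c (c (l 14) (a (l 14) (a (l 14) (a (l 14) (a (l 14) (b (l 16734328) (b (l 16741680) (b (l 16745384) (c (l 14) (b (l 16746976) (l 16748216))))))))))) (a (b (a (l 16734256) (l 16735280)) (b (a (l 16741536) (l 16742576)) (a (c (l 14) (a (b (l 16739208) (c (l 14) (a (l 16742552) (l 16742824)))) (b (l 16739744) (b (l 16741576) (a (l 16744016) (l 16744280)))))) (a (b (l 16740872) (b (l 16742712) (c (l 14) (a (l 16743248) (l 16743520))))) (b (l 16741408) (b (l 16743248) (a (c (l 14) (l 16743800)) (b (l 16744344) (c (l 16746192) (l 16744384)))))))))) (b (a (l 16741576) (l 16742664))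 (b (a (l 16743640) (l 16744744)) (a (b (a (l 16741952) (l 16742504)) (a (b (l 16743800) (c (b (l 16745288) (a (l 16747112) (l 16746072))) (a (l 16744360) (l 16744640)))) (a (c (a (l 16747328) (l 16746808)) (l 16745624)) (b (l 16744528) (c (l 16747624) (l 16745216)))))) (a (b (l 16743072) (b (l 16744920) (a (a (l 16747624) (l 16747440)) (a (l 16747584) (l 16747728))))) (b (l 16743640) (b (l 16745488) (a (a (l 16749176) (l 16749328)) (a (l 16749472) (l 16749616)))))))))))))), by decide +kernel⟩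

def k9_pm_012_a : ∃ t, chk3 f_pm_012_a t 118 15 1 = true :=
  ⟨(b (b (c (c (l 17771632) (b (l 17349160) (l 17231224))) (l 16640200)) (b (c (c (l 17592736) (l 16982120)) (l 16666320)) (a (l 16751464) (l 16678256)))) (b (b (a (l 16725632) (l 16726528)) (c (l 14) (b (l 16706080) (l 16715528)))) (c (l 14) (b (b (l 16725072) (a (l 16724544) (l 16725624))) (c (a (c (l 14) (b (l 16740000) (b (l 16747360) (b (a (l 16745744) (l 16746288)) (b (a (l 16747600) (l 16748144)) (a (c (l 14) (a (l 16748488) (l 16748768))) (b (l 16749080) (a (l 16750920) (l 16749888))))))))) (b (l 16744152) (a (b (l 16743616) (b (l 16747328) (c (l 14) (b (l 16748704) (b (l 16749632) (a (l 16750168) (l 16750448))))))) (b (l 16744160) (b (l 16747872) (b (l 16751704) (a (c (l 14) (c (l 16750664) (l 16750184))) (c (a (l 14) (l 16753040)) (l 16752016))))))))) (b (a (l 16743784) (l 16744936)) (b (a (l 16745872) (c (l 16747504) (l 16746568))) (b (a (a (l 16744216) (l 16744808)) (a (l 16745400) (l 16746000)))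 (b (a (a (l 16746064) (l 16746656)) (a (l 16747248) (l 16747856))) (a (a (a (a (l 16749760) (l 16749904)) (a (l 16750056) (l 16750200))) (b (l 16748896) (a (l 16749408) (l 16749712)))) (a (a (c (l 16748880) (l 16747896)) (l 16750000)) (a (l 16750304) (l 16750608))))))))))))), by decide +kernel⟩

def k10_pm_012_a : ∃ t, chk3 f_pm_012_a t 119 15 1 = true :=
  ⟨(b (b (a (c (c (l 17676792) (l 17050048)) (l 16642400)) (l 16699672)) (b (a (l 16689712) (l 16670816)) (a (l 16688016) (l 16688952)))) (b (a (b (l 16727456) (c (l 14) (l 16713280))) (b (c (l 16729856) (l 16685104)) (c (l 16718616) (l 16714376)))) (a (c (l 14) (b (b (l 16717072) (l 16737224)) (b (a (l 16741688) (l 16742272)) (c (a (b (l 16744720) (b (l 16748432) (b (l 16751608) (a (c (a (l 16753176) (l 16753312)) (l 16752312)) (c (c (l 14) (l 16752624)) (l 16752600)))))) (b (l 16745280) (b (l 16749000) (b (l 16752176) (a (c (a (l 16753736) (l 16753872)) (l 16752888)) (c (a (l 16752704) (l 16752848)) (l 16751872)))))))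 (b (c (l 16748672) (l 16747784)) (a (b (l 16746616) (b (l 16748464) (a (l 16752232) (l 16752536)))) (b (l 16747232) (b (l 16749088) (a (l 16752848) (l 16753168)))))))))) (c (a (l 14) (c (l 14) (b (l 16736424) (b (l 16745872) (b (l 16753312) (c (l 14) (b (l 16751400) (a (l 14) (a (l 14) (a (l 14) (b (l 16753608) (l 16756168)))))))))))) (a (b (l 16733520) (b (l 16742864) (b (l 16750248) (a (b (l 16748632) (b (l 16753112) (c (c (a (l 16752984) (l 16753128)) (l 16752168)) (l 16750856)))) (b (l 16748936) (b (l 16753416) (c (b (l 16752584) (a (l 16754464) (l 16754608))) (l 16751176)))))))) (b (l 16734112) (b (l 16743464) (b (l 16750848) (a (b (l 16749240) (b (l 16753720) (c (b (l 16752880) (a (l 16754760) (l 16754904))) (l 16751496)))) (b (l 16749544) (b (l 16754032) (c (b (l 16753176) (a (l 16755056) (l 16755200))) (l 16751816))))))))))))), by decide +kernel⟩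

def k11_pm_012_a : ∃ t, chk3 f_pm_012_a t 30 14 1 = true :=
  ⟨(b (b (a (c (a (l 18108536) (l 17952672)) (a (l 16906424) (l 16700272))) (c (a (c (l 18172144) (l 17271808)) (c (l 18021064) (l 17081376))) (a (a (l 16620416) (l 16555264)) (l 16585576)))) (a (c (c (l 18142704) (a (l 17647544) (l 17245432))) (a (l 16699392) (a (l 16632104) (l 16580552)))) (a (a (c (b (l 17691368) (l 17457088)) (l 16586936)) (l 16714832)) (a (l 16676592) (l 16606936))))) (a (b (c (a (b (l 17719616) (l 17435688)) (c (l 17846776) (b (l 17241360) (l 16953384)))) (a (b (l 16635048) (l 16586048)) (b (l 16589584) (l 16619520)))) (b (a (c (c (l 17811248) (l 17146144)) (l 16600320)) (b (l 16702536) (l 16662424))) (a (l 16711152) (a (l 16621128) (c (c (l 17442688) (l 16750936)) (l 16621824)))))) (b (a (b (a (l 16754688) (l 16587896)) (a (l 16608064) (l 16614168))) (b (l 16614960) (l 16644936))) (a (a (b (l 16616952) (c (l 16845536) (l 16625544))) (b (l 16623104) (l 16632200))) (b (b (l 16630168)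 (l 16634832)) (a (b (l 16636392) (l 16641312)) (l 16645496))))))), by decide +kernel⟩

def k12_pm_012_a : ∃ t, chk3 f_pm_012_a t 31 14 1 = true :=
  ⟨(b (a (a (b (l 16602520) (a (l 16613360) (l 16619784))) (a (b (l 16609432) (l 16626216)) (b (l 16636744) (l 16632648)))) (b (a (a (l 16621776) (l 16627176)) (a (l 16632568) (c (l 16634992) (l 16635704)))) (a (a (l 16641368) (c (l 16646120) (l 16642352))) (a (c (l 16651664) (l 16647792)) (b (l 16638944) (l 16647672)))))) (b (a (b (a (l 16669912) (a (l 16637760) (l 16644288))) (a (a (l 16633808) (l 16640376)) (a (l 16646936) (l 16653512)))) (b (a (a (l 16650472) (l 16656056)) (a (l 16651152) (l 6))) (a (a (l 16659752) (l 16654896)) (l 6)))) (a (a (a (b (l 16642904) (l 16652160)) (b (l 16649512) (l 16658824))) (a (b (l 16656136) (l 16665504)) (b (l 16652280) (l 6)))) (a (a (b (l 16658568) (l 6)) (l 6)) (l 6))))), by decide +kernel⟩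

def k13_pm_012_a : ∃ t, chk3 f_pm_012_a t 60 15 1 = true :=
  ⟨(b (b (b (a (l 16698352) (a (a (l 16638504) (l 16639008)) (l 16639584))) (a (a (l 16653936) (l 16654856)) (c (a (l 16811440) (l 16737264)) (l 16654744)))) (a (a (b (l 16671744) (l 16689912)) (b (l 16672696) (l 16711872))) (a (b (l 16673680) (l 16720752)) (b (c (l 16675840) (l 16674232)) (c (l 16694184) (l 16692408)))))) (b (a (a (a (b (l 16708512) (l 16716928)) (b (l 16709040) (l 16717472))) (a (b (l 16709576) (l 16718016)) (b (l 16710128) (l 16721200)))) (a (a (b (l 16710680) (l 16721768)) (b (l 16711240) (l 16722344))) (b (c (l 16702400) (l 16710944)) (b (l 16715600) (l 16725184))))) (b (b (a (a (l 16731264) (l 16732336)) (a (a (l 16744056) (l 16744640)) (l 6))) (a (a (a (l 16738424) (l 16738984)) (a (l 16739552) (l 16740120))) (l 6))) (a (b (b (a (a (l 16743160) (l 16743720)) (a (l 16744288) (l 6))) (a (c (c (l 14) (l 16748816)) (l 16746520)) (l 6))) (a (a (c (c (l 14) (b (l 16753848) (b (l 16754968)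 (c (l 14) (c (l 14) (a (b (l 16753560) (a (l 16754760) (l 6))) (l 6))))))) (b (l 16751464) (a (b (l 16749856) (b (l 16754344) (c (c (c (l 16755056) (l 16753992)) (l 16753376)) (l 16752144)))) (b (l 16750168) (l 6))))) (b (c (c (l 14) (l 16754392)) (l 16752088)) (l 6))) (l 6))) (l 6))))), by decide +kernel⟩

def k14_pm_012_a : ∃ t, chk3 f_pm_012_a t 61 15 1 = true :=
  ⟨(b (a (a (b (b (c (l 16759416) (l 16640032)) (l 16658152)) (a (b (l 16676144) (l 16694424)) (b (l 16676808) (l 16695096)))) (b (b (b (l 16639624) (l 16646424)) (l 16659688)) (b (c (l 16678264) (l 16677032)) (l 16685472)))) (b (b (a (l 16648832) (l 16655536)) (b (c (l 16660240) (l 16659488)) (a (l 16665192) (l 16668496)))) (b (b (c (l 16675184) (l 16674304)) (l 16670064)) (b (c (l 16677784) (l 16692480)) (l 6))))) (a (b (b (a (a (l 16702576) (l 16713744)) (l 16704136)) (l 6)) (l 6)) (l 6))), by decide +kernel⟩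

def k15_pm_012_a : ∃ t, chk3 f_pm_012_a t 31 15 1 = true :=
  ⟨(b (a (b (a (a (b (l 16662248) (l 16672632)) (b (l 16668968) (l 6))) (l 6)) (l 6)) (l 6)) (l 6)), by decide +kernel⟩

theorem s16_pm_012_a : ∃ t, chk3 f_pm_012_a t 30 15 1 = true := ex3_a k13_pm_012_a k14_pm_012_a

theorem s17_pm_012_a : ∃ t, chk3 f_pm_012_a t 15 15 1 = true := ex3_a s16_pm_012_a k15_pm_012_a

theorem s18_pm_012_a : ∃ t, chk3 f_pm_012_a t 15 14 1 = true := ex3_a k11_pm_012_a k12_pm_012_a

theorem s19_pm_012_a : ∃ t, chk3 f_pm_012_a t 15 7 1 = true := ex3_b s18_pm_012_a s17_pm_012_a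

theorem s20_pm_012_a : ∃ t, chk3 f_pm_012_a t 59 15 1 = true := ex3_a k9_pm_012_a k10_pm_012_a

theorem s21_pm_012_a : ∃ t, chk3 f_pm_012_a t 58 15 1 = true := ex3_b k7_pm_012_a k8_pm_012_a

theorem s22_pm_012_a : ∃ t, chk3 f_pm_012_a t 29 15 1 = true := ex3_a s21_pm_012_a s20_pm_012_a

theorem s23_pm_012_a : ∃ t, chk3 f_pm_012_a t 14 15 1 = true := ex3_a k6_pm_012_a s22_pm_012_a

theorem s24_pm_012_a : ∃ t, chk3 f_pm_012_a t 14 7 1 = true := ex3_b k5_pm_012_a s23_pm_012_a

theorem s25_pm_012_a : ∃ t, chk3 f_pm_012_a t 7 7 1 = true := ex3_a s24_pm_012_a s19_pm_012_a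

theorem s26_pm_012_a : ∃ t, chk3 f_pm_012_a t 7 6 1 = true := ex3_a k3_pm_012_a k4_pm_012_a

theorem s27_pm_012_a : ∃ t, chk3 f_pm_012_a t 7 3 1 = true := ex3_b s26_pm_012_a s25_pm_012_a

theorem s28_pm_012_a : ∃ t, chk3 f_pm_012_a t 3 3 1 = true := ex3_a k2_pm_012_a s27_pm_012_a

theorem s29_pm_012_a : ∃ t, chk3 f_pm_012_a t 3 1 1 = true := ex3_b k1_pm_012_a s28_pm_012_a

theorem s30_pm_012_a : ∃ t, chk3 f_pm_012_a t 1 1 1 = true := ex3_a k0_pm_012_a s29_pm_012_a

theorem c_pm_012_a : CertN 0 536870912 0 536870912 67108864 67108864 3 false true false .pnp 0 1 2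
    ndN0q0 ndN2q2a pcN1 cut_pm_012_a Ext.none :=
  certNK2 (fam := false) (s1 := true) (s2 := false) (a := 0) (b := 1) (c := 2) (cn := .pnp) (n1 := ndN0q0) (n2 := ndN2q2a) (pc := pcN1) (cut := cut_pm_012_a) (xt := Ext.none) (P1 := 0) (W1 := 536870912) (P2 := 0) (W2 := 536870912) (P3 := 67108864) (W3 := 67108864) (N0 := 3)
    rfl rfl rfl (fun _ => rfl) s30_pm_012_a

noncomputable def cut_pm_012_b : Cut := Cut.of [[⟨0, 0, 0, 67108864⟩, ⟨1, 1, 0, 67108864⟩, ⟨2, 1, 0, 67108864⟩], [⟨0, 0, 1, 33554432⟩, ⟨1, 1, 2, 33554432⟩, ⟨2, 1, 0, 16777216⟩, ⟨0, 0, 0, 150994944⟩, ⟨0, 1, 0, 1023410176⟩, ⟨1, 0, 0, 1023410176⟩, ⟨1, 1, 0, 150994944⟩]]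

noncomputable def f_pm_012_b : ℕ → ℕ → ℕ → ℕ → Bool := onCell 536870912 536870912 1239849684 370763052 67108864 67108864
    (rowNK 3 2 false true false .pnp 0 1 2 (qsf 0 536870912 1239849684 370763052 1) ndN0q0 ndN2q2b pcN1 cut_pm_012_b Ext.none)

def k0_pm_012_b : ∃ t, chk3 f_pm_012_b t 1 1 1 = true :=
  ⟨(a (b (a (l 2) (b (a (l 17495128) (l 17350672)) (a (l 2) (l 17014040)))) (l 2)) (b (a (a (b (l 17858384) (l 17583872)) (b (a (l 18385440) (l 18764928)) (l 18439696))) (a (b (a (l 18959960) (l 19120480)) (a (l 18853720) (l 19095456))) (a (b (b (a (l 19125552) (l 19168440)) (l 19350192)) (l 19357424)) (b (b (a (l 19180872) (b (l 18890560) (l 19295096))) (l 19484432)) (l 19577456))))) (a (a (l 2) (b (l 18015280) (l 2))) (a (b (l 18692600) (l 18243000)) (a (b (l 19104504) (l 18700200)) (l 19233360)))))), by decide +kernel⟩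

theorem c_pm_012_b : CertN 0 536870912 1239849684 370763052 67108864 67108864 3 false true false .pnp 0 1 2
    ndN0q0 ndN2q2b pcN1 cut_pm_012_b Ext.none :=
  certNK2 (fam := false) (s1 := true) (s2 := false) (a := 0) (b := 1) (c := 2) (cn := .pnp) (n1 := ndN0q0) (n2 := ndN2q2b) (pc := pcN1) (cut := cut_pm_012_b) (xt := Ext.none) (P1 := 0) (W1 := 536870912) (P2 := 1239849684) (W2 := 370763052) (P3 := 67108864) (W3 := 67108864) (N0 := 3)
    rfl rfl rfl (fun _ => rfl) k0_pm_012_b

noncomputable def cut_pm_022_a : Cut := Cut.of [[⟨0, 0, 0, 67108864⟩, ⟨1, 1, 0, 67108864⟩, ⟨2, 1, 0, 67108864⟩]]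

noncomputable def f_pm_022_a : ℕ → ℕ → ℕ → ℕ → Bool := onCell 1073741824 536870912 0 536870912 67108864 67108864
    (rowNK 3 2 false true false .pp 0 2 2 (qsf 0 536870912 0 536870912 2) ndN0q0 ndN2q2a pcN2 cut_pm_022_a Ext.none)

def k0_pm_022_a : ∃ t, chk3 f_pm_022_a t 1 1 1 = true :=
  ⟨(a (a (a (a (b (b (c (l 19249640) (b (l 18130184) (l 18010784))) (b (c (l 19040792) (b (l 17644224) (a (l 17686256) (l 17626944)))) (c (b (l 18822936) (l 18609400)) (b (a (c (l 17808432) (l 17093720)) (l 17376064)) (a (b (l 17143424) (l 16962480)) (l 16944896)))))) (a (b (b (b (c (l 18118760) (b (l 16815104) (l 16590536))) (c (c (l 18424224) (b (l 17640808) (a (l 17392864) (l 17362888)))) (b (l 16543024) (l 16553240)))) (b (b (a (l 16567592) (l 16567632)) (a (l 16590136) (l 16578920))) (b (a (l 16608520) (l 16612032)) (a (c (l 16620032) (l 16614960)) (l 31910022327))))) (b (b (a (b (a (l 16640472) (l 16643608)) (b (c (l 16645800) (l 16631368)) (l 6))) (l 4)) (l 6)) (l 6)))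 (b (b (b (c (l 18273584) (l 16683768)) (l 4)) (l 4)) (l 4)))) (b (b (l 4) (l 4)) (l 4))) (l 4)) (l 4)) (l 1)), by decide +kernel⟩

theorem c_pm_022_a : CertN 0 536870912 0 536870912 67108864 67108864 3 false true false .pp 0 2 2
    ndN0q0 ndN2q2a pcN2 cut_pm_022_a Ext.none :=
  certNK2 (fam := false) (s1 := true) (s2 := false) (a := 0) (b := 2) (c := 2) (cn := .pp) (n1 := ndN0q0) (n2 := ndN2q2a) (pc := pcN2) (cut := cut_pm_022_a) (xt := Ext.none) (P1 := 0) (W1 := 536870912) (P2 := 0) (W2 := 536870912) (P3 := 67108864) (W3 := 67108864) (N0 := 3)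
    rfl rfl rfl (fun _ => rfl) k0_pm_022_a

noncomputable def cut_pm_022_b : Cut := Cut.of [[⟨0, 0, 0, 67108864⟩, ⟨1, 1, 0, 67108864⟩, ⟨2, 1, 0, 67108864⟩]]

noncomputable def f_pm_022_b : ℕ → ℕ → ℕ → ℕ → Bool := onCell 1073741824 536870912 1239849684 370763052 67108864 67108864
    (rowNK 3 2 false true false .pp 0 2 2 (qsf 0 536870912 1239849684 370763052 2) ndN0q0 ndN2q2b pcN2 cut_pm_022_b Ext.none)

def k0_pm_022_b : ∃ t, chk3 f_pm_022_b t 1 1 1 = true :=
  ⟨(a (b (a (a (b (b (b (a (c (l 19461528) (l 18398480)) (l 18678232)) (l 19115352)) (l 19455808)) (l 19680048)) (b (l 441010298439) (l 19533592))) (l 4)) (a (b (l 19577344) (l 19309800)) (b (l 19462184) (l 19378648)))) (l 4)), by decide +kernel⟩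

theorem c_pm_022_b : CertN 0 536870912 1239849684 370763052 67108864 67108864 3 false true false .pp 0 2 2
    ndN0q0 ndN2q2b pcN2 cut_pm_022_b Ext.none :=
  certNK2 (fam := false) (s1 := true) (s2 := false) (a := 0) (b := 2) (c := 2) (cn := .pp) (n1 := ndN0q0) (n2 := ndN2q2b) (pc := pcN2) (cut := cut_pm_022_b) (xt := Ext.none) (P1 := 0) (W1 := 536870912) (P2 := 1239849684) (W2 := 370763052) (P3 := 67108864) (W3 := 67108864) (N0 := 3)
    rfl rfl rfl (fun _ => rfl) k0_pm_022_b

noncomputable def f_pm_023 : ℕ → ℕ → ℕ → ℕ → Bool := onCell 0 536870912 1073741824 536870912 67108864 67108864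
    (rowNK 3 1 false true false .up 0 2 3 (qsf 0 536870912 1610612736 536870912 2) ndN0q0 ndN2q3 pcN2 Cut.none Ext.none)

def k0_pm_023 : ∃ t, chk3 f_pm_023 t 1 1 1 = true :=
  ⟨(b (a (b (l 1) (a (l 1) (l 311424766823))) (b (a (l 310352439239) (l 248611958823)) (a (l 19642352) (l 19229752)))) (a (b (l 4) (l 4)) (b (a (l 18970832) (l 18508504)) (a (l 18451192) (l 17999336))))), by decide +kernel⟩

theorem c_pm_023 : CertN 0 536870912 1610612736 536870912 67108864 67108864 3 false true false .up 0 2 3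
    ndN0q0 ndN2q3 pcN2 Cut.none Ext.none :=
  certNK1 (fam := false) (s1 := true) (s2 := false) (a := 0) (b := 2) (c := 3) (cn := .up) (n1 := ndN0q0) (n2 := ndN2q3) (pc := pcN2) (cut := Cut.none) (xt := Ext.none) (P1 := 0) (W1 := 536870912) (P2 := 1610612736) (W2 := 536870912) (P3 := 67108864) (W3 := 67108864) (N0 := 3)
    rfl rfl rfl (fun _ => rfl) k0_pm_023

noncomputable def f_pm_033 : ℕ → ℕ → ℕ → ℕ → Bool := onCell 1610612736 536870912 1610612736 536870912 67108864 67108864
    (rowNK 3 2 false true false .pnn 0 3 3 (qsf 0 536870912 1610612736 536870912 3) ndN0q0 ndN2q3 pcN3 Cut.none Ext.none)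

def k0_pm_033 : ∃ t, chk3 f_pm_033 t 1 1 1 = true :=
  ⟨(a (b (l 4) (a (b (l 107612369447) (a (l 17497000) (l 17766896))) (b (l 4) (a (l 17924048) (l 4))))) (l 4)), by decide +kernel⟩

theorem c_pm_033 : CertN 0 536870912 1610612736 536870912 67108864 67108864 3 false true false .pnn 0 3 3
    ndN0q0 ndN2q3 pcN3 Cut.none Ext.none :=
  certNK2 (fam := false) (s1 := true) (s2 := false) (a := 0) (b := 3) (c := 3) (cn := .pnn) (n1 := ndN0q0) (n2 := ndN2q3) (pc := pcN3) (cut := Cut.none) (xt := Ext.none) (P1 := 0) (W1 := 536870912) (P2 := 1610612736) (W2 := 536870912) (P3 := 67108864) (W3 := 67108864) (N0 := 3)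
    rfl rfl rfl (fun _ => rfl) k0_pm_033

noncomputable def f_pm_101 : ℕ → ℕ → ℕ → ℕ → Bool := onCell 536870912 536870912 536870912 536870912 67108864 67108864
    (rowNK 3 0 false true false .npn 1 0 1 (qsf 536870912 536870912 536870912 536870912 0) ndN0q1 ndN2q1 pcN0 Cut.none Ext.none)

def k0_pm_101 : ∃ t, chk3 f_pm_101 t 1 1 1 = true :=
  ⟨(l 4), by decide +kernel⟩

theorem c_pm_101 : CertN 536870912 536870912 536870912 536870912 67108864 67108864 3 false true false .npn 1 0 1
    ndN0q1 ndN2q1 pcN0 Cut.none Ext.none :=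
  certNK0 (fam := false) (s1 := true) (s2 := false) (a := 1) (b := 0) (c := 1) (cn := .npn) (n1 := ndN0q1) (n2 := ndN2q1) (pc := pcN0) (cut := Cut.none) (xt := Ext.none) (P1 := 536870912) (W1 := 536870912) (P2 := 536870912) (W2 := 536870912) (P3 := 67108864) (W3 := 67108864) (N0 := 3)
    rfl rfl rfl k0_pm_101

noncomputable def cut_pm_102_a : Cut := Cut.of [[⟨0, 1, 0, 67108864⟩, ⟨1, 0, 0, 67108864⟩, ⟨2, 1, 0, 67108864⟩], [⟨0, 1, 0, 8388608⟩, ⟨1, 0, 1, 33554432⟩, ⟨2, 1, 1, 33554432⟩, ⟨1, 0, 0, 150994944⟩, ⟨1, 1, 0, 1023410176⟩, ⟨2, 1, 0, 150994944⟩, ⟨2, 2, 0, 1023410176⟩]]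

noncomputable def f_pm_102_a : ℕ → ℕ → ℕ → ℕ → Bool := onCell 536870912 536870912 0 536870912 67108864 67108864
    (rowNK 3 0 false true false .npp 1 0 2 (qsf 536870912 536870912 0 536870912 0) ndN0q1 ndN2q2a pcN0 cut_pm_102_a Ext.none)

def k0_pm_102_a : ∃ t, chk3 f_pm_102_a t 2 1 1 = true :=
  ⟨(b (a (b (l 2) (l 18513080)) (b (l 18287040) (l 18325800))) (b (a (b (l 18532072) (l 18533272)) (b (l 18341400) (l 18362912))) (b (a (b (l 18534728) (l 18525544)) (b (l 18344600) (l 18547832))) (a (a (l 18492304) (l 18480680)) (a (l 18391744) (l 18234056)))))), by decide +kernel⟩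

def k1_pm_102_a : ∃ t, chk3 f_pm_102_a t 3 2 1 = true :=
  ⟨(a (b (a (l 17954184) (l 17641648)) (a (l 17991248) (l 17671808))) (a (b (l 17346712) (l 17635144)) (b (a (l 17329456) (a (l 17406136) (a (l 17437544) (a (l 17445384) (c (l 17637024) (b (a (l 17276272) (l 17161256)) (b (l 17189344) (l 17081104)))))))) (a (l 17297664) (a (b (l 17358512) (l 17289136)) (a (b (l 17378288) (l 17286640)) (b (c (l 17565928) (a (l 17196760) (b (b (l 17098984) (l 16995536)) (a (l 17152392) (c (l 17241024) (b (l 17003440) (l 14))))))) (a (b (l 17305288) (l 17234352)) (c (b (l 17506992) (l 17399640)) (c (a (b (l 17188752) (l 17103360)) (b (l 17088784) (b (l 17065512) (l 14)))) (l 14))))))))))), by decide +kernel⟩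

def k2_pm_102_a : ∃ t, chk3 f_pm_102_a t 6 3 1 = true :=
  ⟨(b (a (l 18214760) (b (l 17695896) (l 17699792))) (b (a (b (l 18013176) (l 18009312)) (b (l 17708248) (l 17707464))) (a (b (l 18012408) (l 18004424)) (a (l 17794808) (l 17759512))))), by decide +kernel⟩

def k3_pm_102_a : ∃ t, chk3 f_pm_102_a t 14 6 1 = true :=
  ⟨(b (l 17537280) (a (l 17421640) (l 17260976))), by decide +kernel⟩

def k4_pm_102_a : ∃ t, chk3 f_pm_102_a t 30 6 1 = true :=
  ⟨(b (l 17193416) (l 17370016)), by decide +kernel⟩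

def k5_pm_102_a : ∃ t, chk3 f_pm_102_a t 31 6 1 = true :=
  ⟨(b (a (a (l 17180344) (l 17164400)) (a (l 16917224) (a (b (l 17097704) (l 16969432)) (c (b (b (l 17315520) (c (l 17455416) (l 17029960))) (a (l 17237264) (c (l 17303520) (a (l 16979016) (l 14))))) (l 14))))) (a (a (l 17014104) (l 16970056)) (a (b (l 16936528) (l 16845744)) (a (b (l 16833448) (l 16817456)) (a (b (l 16792304) (b (l 16774184) (l 16775152))) (b (c (c (b (l 17168264) (l 14)) (l 14)) (c (l 14) (a (b (l 16755256) (l 16756576)) (b (a (l 16749056) (b (l 14) (c (l 14) (c (l 14) (b (b (l 16741832) (l 16742040)) (b (l 16744864) (l 16745080))))))) (a (l 16750504) (a (l 16752712) (a (b (l 16745920) (l 16746784)) (c (b (l 14) (b (l 14) (b (l 16746592) (l 16746816)))) (b (b (b (l 16744088) (l 16744304)) (b (l 16744528) (l 16744752))) (b (b (l 16744976) (l 16745208)) (b (l 16745440) (l 16745680)))))))))))) (c (l 14) (a (b (l 16759272) (l 16760736)) (a (b (l 16753248) (l 16754856)) (a (b (b (l 16750320)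 (l 16751208)) (b (l 16752144) (l 16753120))) (a (b (b (l 16748808) (l 16749712)) (b (l 16750664) (l 16751664))) (c (c (l 14) (b (b (l 14) (b (l 14) (b (l 14) (l 16749776)))) (b (b (b (l 16750016) (l 16750256)) (b (l 16750504) (l 16750760))) (b (b (l 16751016) (l 16751272)) (b (l 16751528) (l 16751792)))))) (b (a (b (l 16746944) (l 16747904)) (b (c (b (b (l 16746792) (l 16747024)) (b (l 16747264) (l 16747496))) (b (c (l 16746040) (l 16745488)) (l 16746256))) (b (b (l 16748512) (l 16747448)) (b (l 16747704) (l 16747960))))) (b (b (b (l 16748464) (l 16748728)) (b (l 16748992) (l 16749264))) (b (b (l 16749536) (l 16749808)) (b (l 16750088) (l 16750368))))))))))))))))), by decide +kernel⟩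

def k6_pm_102_a : ∃ t, chk3 f_pm_102_a t 7 7 1 = true :=
  ⟨(b (a (a (b (l 17439288) (l 17441208)) (b (l 17246312) (l 17306816))) (a (b (l 17182064) (b (l 17158224) (l 17193992))) (b (a (l 17018056) (a (l 16904352) (a (a (l 16823352) (l 16828720)) (a (b (l 16776176) (l 16777176)) (b (c (l 14) (a (l 16762280) (a (b (l 16757024) (l 16758056)) (a (b (l 16754144) (l 16755216)) (a (b (l 16752704) (l 16756416)) (b (c (c (c (l 14) (b (b (l 16752760) (l 16753024)) (b (l 16753288) (l 16753560)))) (b (b (l 16752064) (l 16752336)) (b (l 16752608) (l 16752888)))) (b (b (l 16750656) (l 16750944)) (b (l 16751240) (l 16751536)))) (c (c (b (b (l 16754056) (l 16754328)) (b (l 16754600) (l 16754880))) (b (b (l 16753168) (l 16753456)) (b (l 16753744) (l 16754032)))) (b (b (l 16751832) (l 16752136)) (b (l 16752448) (l 16752760)))))))))) (b (a (l 16766688) (b (a (l 16760960) (b (a (l 16758000) (a (l 16756544) (c (c (l 14) (c (l 14) (c (l 14) (l 16755784)))) (c (c (l 16755160) (l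 16754328)) (l 16753072))))) (l 6))) (l 6))) (l 6))))))) (b (a (l 16933912) (a (l 16845304) (a (l 16821352) (l 6)))) (a (a (l 16957696) (l 16902936)) (a (l 16887296) (l 6))))))) (a (a (b (l 17451600) (l 17455616)) (b (l 17262192) (a (l 17315304) (l 17220472)))) (b (a (a (l 17104784) (l 17116688)) (a (a (l 16991160) (l 6)) (l 6))) (a (b (a (l 17117888) (l 17018496)) (a (l 17122792) (l 6))) (l 6))))), by decide +kernel⟩

theorem s7_pm_102_a : ∃ t, chk3 f_pm_102_a t 15 6 1 = true := ex3_a k4_pm_102_a k5_pm_102_a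

theorem s8_pm_102_a : ∃ t, chk3 f_pm_102_a t 7 6 1 = true := ex3_a k3_pm_102_a s7_pm_102_a

theorem s9_pm_102_a : ∃ t, chk3 f_pm_102_a t 7 3 1 = true := ex3_b s8_pm_102_a k6_pm_102_a

theorem s10_pm_102_a : ∃ t, chk3 f_pm_102_a t 3 3 1 = true := ex3_a k2_pm_102_a s9_pm_102_a

theorem s11_pm_102_a : ∃ t, chk3 f_pm_102_a t 3 1 1 = true := ex3_b k1_pm_102_a s10_pm_102_a

theorem s12_pm_102_a : ∃ t, chk3 f_pm_102_a t 1 1 1 = true := ex3_a k0_pm_102_a s11_pm_102_a

theorem c_pm_102_a : CertN 536870912 536870912 0 536870912 67108864 67108864 3 false true false .npp 1 0 2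
    ndN0q1 ndN2q2a pcN0 cut_pm_102_a Ext.none :=
  certNK0 (fam := false) (s1 := true) (s2 := false) (a := 1) (b := 0) (c := 2) (cn := .npp) (n1 := ndN0q1) (n2 := ndN2q2a) (pc := pcN0) (cut := cut_pm_102_a) (xt := Ext.none) (P1 := 536870912) (W1 := 536870912) (P2 := 0) (W2 := 536870912) (P3 := 67108864) (W3 := 67108864) (N0 := 3)
    rfl rfl rfl s12_pm_102_a

end Pool.Agent.Strip051.G.I1_16_1_8.Tab.C.NB02

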