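import Pool.Agent.Strip051.G.I1_16_1_8.Tab
import Pool.Agent.Strip051.PB.RowK

/-! # Certificates N6 (generated) -/

set_option linter.all false
set_option maxRecDepth 100000

namespace Pool.Agent.Strip051.G.I1_16_1_8.Tab.C.NB02

open Pool.Agent.Strip051.PB Pool.Agent.Strip051.PB.T
open Pool.Agent.Strip051.G.I1_16_1_8.Tab

noncomputable def cut_pm_102_b : Cut := Cut.of [[⟨0, 1, 0, 67108864⟩, ⟨1, 0, 0, 67108864⟩, ⟨2, 1, 0, 67108864⟩], [⟨0, 1, 0, 8388608⟩, ⟨1, 0, 1, 33554432⟩, ⟨2, 1, 1, 33554432⟩, ⟨1, 0, 0, 150994944⟩, ⟨1, 1, 0, 1023410176⟩, ⟨2, 1, 0, 150994944⟩, ⟨2, 2, 0, 1023410176⟩]]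

noncomputable def f_pm_102_b : ℕ → ℕ → ℕ → ℕ → Bool := onCell 536870912 536870912 1239849684 370763052 67108864 67108864
    (rowNK 3 0 false true false .npp 1 0 2 (qsf 536870912 536870912 1239849684 370763052 0) ndN0q1 ndN2q2b pcN0 cut_pm_102_b Ext.none)

def k0_pm_102_b : ∃ t, chk3 f_pm_102_b t 1 1 1 = true :=
  ⟨(a (b (a (l 2) (b (a (l 18204936) (l 18044312)) (l 17838640))) (l 2)) (b (a (b (a (l 17799552) (l 17685448)) (a (l 17564112) (l 17404360))) (a (b (a (l 17354432) (l 17353976)) (l 17454232)) (b (a (b (l 17402376) (l 17519464)) (a (b (l 17503968) (l 17642840)) (b (a (l 17552856) (a (l 17489104) (b (a (l 17505744) (c (l 17714128) (l 17133808))) (l 17529144)))) (a (l 17707776) (l 17602128))))) (a (l 17649904) (a (l 17783872) (b (l 17841192) (l 17914712))))))) (a (a (l 2) (b (l 17380992) (l 2))) (a (b (l 17541168) (l 17564456)) (b (a (l 17735072) (l 18163864)) (a (l 17735536) (l 17892944))))))), by decide +kernel⟩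

theorem c_pm_102_b : CertN 536870912 536870912 1239849684 370763052 67108864 67108864 3 false true false .npp 1 0 2
    ndN0q1 ndN2q2b pcN0 cut_pm_102_b Ext.none :=
  certNK0 (fam := false) (s1 := true) (s2 := false) (a := 1) (b := 0) (c := 2) (cn := .npp) (n1 := ndN0q1) (n2 := ndN2q2b) (pc := pcN0) (cut := cut_pm_102_b) (xt := Ext.none) (P1 := 536870912) (W1 := 536870912) (P2 := 1239849684) (W2 := 370763052) (P3 := 67108864) (W3 := 67108864) (N0 := 3)
    rfl rfl rfl k0_pm_102_b

noncomputable def f_pm_112_a : ℕ → ℕ → ℕ → ℕ → Bool := onCell 536870912 536870912 0 536870912 67108864 67108864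
    (rowNK 3 2 false true false .dn 1 1 2 (qsf 536870912 536870912 0 536870912 1) ndN0q1 ndN2q2a pcN1 Cut.none Ext.none)

def k0_pm_112_a : ∃ t, chk3 f_pm_112_a t 1 1 1 = true :=
  ⟨(a (b (a (b (l 17834776) (l 17928288)) (a (l 17765336) (l 1))) (b (a (l 18327208) (l 1)) (a (b (l 19364521959) (a (l 18504304) (l 1))) (l 1)))) (l 1)), by decide +kernel⟩

theorem c_pm_112_a : CertN 536870912 536870912 0 536870912 67108864 67108864 3 false true false .dn 1 1 2
    ndN0q1 ndN2q2a pcN1 Cut.none Ext.none :=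
  certNK2 (fam := false) (s1 := true) (s2 := false) (a := 1) (b := 1) (c := 2) (cn := .dn) (n1 := ndN0q1) (n2 := ndN2q2a) (pc := pcN1) (cut := Cut.none) (xt := Ext.none) (P1 := 536870912) (W1 := 536870912) (P2 := 0) (W2 := 536870912) (P3 := 67108864) (W3 := 67108864) (N0 := 3)
    rfl rfl rfl (fun _ => rfl) k0_pm_112_a

noncomputable def f_pm_112_b : ℕ → ℕ → ℕ → ℕ → Bool := onCell 536870912 536870912 1239849684 370763052 67108864 67108864
    (rowNK 3 2 false true false .dn 1 1 2 (qsf 536870912 536870912 1239849684 370763052 1) ndN0q1 ndN2q2b pcN1 Cut.none Ext.none)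

def k0_pm_112_b : ∃ t, chk3 f_pm_112_b t 1 1 1 = true :=
  ⟨(a (a (b (b (a (l 17549776) (l 17595672)) (a (l 17218472) (l 17222776))) (b (a (l 17611016) (l 17400264)) (a (l 17894456) (l 17755800)))) (b (b (a (l 17495160) (l 17351184)) (a (l 17146696) (l 17014016))) (b (a (l 17159944) (l 16924696)) (a (l 17561784) (l 17321896))))) (b (a (a (l 317863532439) (l 351151064503)) (l 1)) (a (a (b (l 17253568) (l 17107184)) (l 255586615687)) (a (b (l 18693680) (l 18242984)) (a (l 317865747303) (l 192238690871)))))), by decide +kernel⟩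

theorem c_pm_112_b : CertN 536870912 536870912 1239849684 370763052 67108864 67108864 3 false true false .dn 1 1 2
    ndN0q1 ndN2q2b pcN1 Cut.none Ext.none :=
  certNK2 (fam := false) (s1 := true) (s2 := false) (a := 1) (b := 1) (c := 2) (cn := .dn) (n1 := ndN0q1) (n2 := ndN2q2b) (pc := pcN1) (cut := Cut.none) (xt := Ext.none) (P1 := 536870912) (W1 := 536870912) (P2 := 1239849684) (W2 := 370763052) (P3 := 67108864) (W3 := 67108864) (N0 := 3)
    rfl rfl rfl (fun _ => rfl) k0_pm_112_b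

noncomputable def cut_pm_113 : Cut := Cut.of [[⟨0, 1, 0, 21338704⟩, ⟨1, 1, 0, 21338704⟩, ⟨2, 2, 0, 1685920⟩]]

noncomputable def f_pm_113 : ℕ → ℕ → ℕ → ℕ → Bool := onCell 536870912 536870912 536870912 536870912 67108864 67108864
    (rowNK 3 1 false true false .nn 1 1 3 (qsf 536870912 536870912 1610612736 536870912 1) ndN0q1 ndN2q3 pcN1 cut_pm_113 Ext.none)

def k0_pm_113 : ∃ t, chk3 f_pm_113 t 1 1 1 = true :=
  ⟨(a (b (b (l 1) (a (l 1) (l 18336136))) (a (b (b (l 1) (l 19400624)) (b (l 19694248) (b (l 19809336) (l 19866088)))) (b (b (l 18502856) (l 18738160)) (b (l 19025384) (b (l 18831264) (l 18868344)))))) (b (b (a (a (l 1) (l 17936888)) (b (l 18248184) (l 18196648))) (a (b (l 17996832) (l 18020120)) (a (l 17951560) (b (l 17809320) (l 17611928))))) (a (b (a (l 18122968) (l 17841312)) (a (l 18097224) (l 17648416))) (b (a (b (l 17635136) (l 17469264)) (b (a (l 17452720) (l 17342144)) (l 17427288))) (a (b (l 17307576) (l 17179160)) (b (a (l 17056096) (l 17088400))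 (a (l 16926592) (a (l 16905192) (a (l 16934264) (b (l 16873616) (a (l 16823896) (b (l 16839976) (b (l 16813344) (b (l 16797320) (b (l 16799072) (a (l 16783416) (b (l 16788296) (b (l 16783320) (a (l 16779632) (l 6)))))))))))))))))))), by decide +kernel⟩

theorem c_pm_113 : CertN 536870912 536870912 1610612736 536870912 67108864 67108864 3 false true false .nn 1 1 3
    ndN0q1 ndN2q3 pcN1 cut_pm_113 Ext.none :=
  certNK1 (fam := false) (s1 := true) (s2 := false) (a := 1) (b := 1) (c := 3) (cn := .nn) (n1 := ndN0q1) (n2 := ndN2q3) (pc := pcN1) (cut := cut_pm_113) (xt := Ext.none) (P1 := 536870912) (W1 := 536870912) (P2 := 1610612736) (W2 := 536870912) (P3 := 67108864) (W3 := 67108864) (N0 := 3)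
    rfl rfl rfl (fun _ => rfl) k0_pm_113

noncomputable def cut_pm_123 : Cut := Cut.of [[⟨0, 1, 0, 21338704⟩, ⟨1, 1, 0, 21338704⟩, ⟨2, 2, 0, 1685920⟩]]

noncomputable def f_pm_123 : ℕ → ℕ → ℕ → ℕ → Bool := onCell 1073741824 536870912 1610612736 536870912 67108864 67108864
    (rowNK 3 2 false true false .npn 1 2 3 (qsf 536870912 536870912 1610612736 536870912 2) ndN0q1 ndN2q3 pcN2 cut_pm_123 Ext.none)

def k0_pm_123 : ∃ t, chk3 f_pm_123 t 1 1 1 = true :=
  ⟨(a (b (a (b (b (l 20011304) (l 19676936)) (l 19245848)) (b (a (l 19595912) (l 1)) (l 19015624))) (a (a (b (a (l 17897224) (l 17910736)) (a (b (l 17178248) (b (l 16930584) (b (l 16845664) (a (b (l 16806792) (b (l 16795296) (b (l 16790496) (b (l 16788336) (l 6))))) (l 16816960))))) (b (l 17194808) (a (l 16930640) (l 16910832))))) (b (l 17948104) (b (l 17248112) (a (l 16928632) (l 16967096))))) (b (l 18212256) (a (b (l 17330112) (l 17004840)) (l 17244488))))) (b (a (b (l 1) (a (l 18837120) (l 1))) (l 1)) (b (a (l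 18174864) (l 233575958039)) (a (b (l 17641344) (l 17260288)) (l 17714856))))), by decide +kernel⟩

theorem c_pm_123 : CertN 536870912 536870912 1610612736 536870912 67108864 67108864 3 false true false .npn 1 2 3
    ndN0q1 ndN2q3 pcN2 cut_pm_123 Ext.none :=
  certNK2 (fam := false) (s1 := true) (s2 := false) (a := 1) (b := 2) (c := 3) (cn := .npn) (n1 := ndN0q1) (n2 := ndN2q3) (pc := pcN2) (cut := cut_pm_123) (xt := Ext.none) (P1 := 536870912) (W1 := 536870912) (P2 := 1610612736) (W2 := 536870912) (P3 := 67108864) (W3 := 67108864) (N0 := 3)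
    rfl rfl rfl (fun _ => rfl) k0_pm_123

noncomputable def f_pm_133 : ℕ → ℕ → ℕ → ℕ → Bool := onCell 1610612736 536870912 1610612736 536870912 67108864 67108864
    (rowNK 3 2 false true false .dn 1 3 3 (qsf 536870912 536870912 1610612736 536870912 3) ndN0q1 ndN2q3 pcN3 Cut.none Ext.none)

def k0_pm_133 : ∃ t, chk3 f_pm_133 t 1 1 1 = true :=
  ⟨(a (b (l 1) (a (b (l 1) (a (l 17595088) (l 1))) (l 1))) (l 1)), by decide +kernel⟩

theorem c_pm_133 : CertN 536870912 536870912 1610612736 536870912 67108864 67108864 3 false true false .dn 1 3 3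
    ndN0q1 ndN2q3 pcN3 Cut.none Ext.none :=
  certNK2 (fam := false) (s1 := true) (s2 := false) (a := 1) (b := 3) (c := 3) (cn := .dn) (n1 := ndN0q1) (n2 := ndN2q3) (pc := pcN3) (cut := Cut.none) (xt := Ext.none) (P1 := 536870912) (W1 := 536870912) (P2 := 1610612736) (W2 := 536870912) (P3 := 67108864) (W3 := 67108864) (N0 := 3)
    rfl rfl rfl (fun _ => rfl) k0_pm_133

noncomputable def cut_pm_202_a : Cut := Cut.of [[⟨0, 1, 0, 67108864⟩, ⟨1, 0, 0, 67108864⟩, ⟨2, 1, 0, 67108864⟩], [⟨0, 1, 0, 8388608⟩, ⟨1, 0, 1, 33554432⟩, ⟨2, 1, 1, 33554432⟩, ⟨1, 0, 0, 150994944⟩, ⟨1, 1, 0, 1023410176⟩, ⟨2, 1, 0, 150994944⟩, ⟨2, 2, 0, 1023410176⟩]]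

noncomputable def f_pm_202_a : ℕ → ℕ → ℕ → ℕ → Bool := onCell 0 536870912 0 536870912 67108864 67108864
    (rowNK 3 0 false true false .pp 2 0 2 (qsf 0 536870912 0 536870912 0) ndN0q2 ndN2q2a pcN0 cut_pm_202_a Ext.none)

def k0_pm_202_a : ∃ t, chk3 f_pm_202_a t 2 1 1 = true :=
  ⟨(l 3), by decide +kernel⟩

def k1_pm_202_a : ∃ t, chk3 f_pm_202_a t 6 1 1 = true :=
  ⟨(l 3), by decide +kernel⟩

def k2_pm_202_a : ∃ t, chk3 f_pm_202_a t 14 1 1 = true :=
  ⟨(l 3), by decide +kernel⟩

def k3_pm_202_a : ∃ t, chk3 f_pm_202_a t 30 1 1 = true :=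
  ⟨(l 3), by decide +kernel⟩

def k4_pm_202_a : ∃ t, chk3 f_pm_202_a t 62 1 1 = true :=
  ⟨(l 3), by decide +kernel⟩

def k5_pm_202_a : ∃ t, chk3 f_pm_202_a t 63 2 1 = true :=
  ⟨(a (l 3) (a (l 3) (a (l 3) (b (c (l 17647816) (b (c (l 17361272) (l 125259459431)) (b (l 133312684407) (l 133312527719)))) (b (c (l 17581400) (b (b (l 133312539287) (l 133312413719)) (c (l 132775547879) (b (l 14) (l 14))))) (c (b (l 17511416) (l 131165603927)) (c (b (l 132775618423) (c (l 132775594711) (l 14))) (l 14)))))))), by decide +kernel⟩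

def k6_pm_202_a : ∃ t, chk3 f_pm_202_a t 63 6 1 = true :=
  ⟨(a (l 3) (a (l 3) (a (l 3) (b (c (b (b (l 131702339639) (c (l 17457040) (l 132775692727))) (c (l 131165449335) (l 14))) (l 14)) (a (l 3) (a (l 3) (a (l 3) (a (b (l 3) (l 3)) (a (b (l 3) (l 3)) (c (b (c (b (l 17243800) (l 14)) (l 14)) (l 14)) (c (b (l 14) (c (l 14) (b (b (l 14) (b (l 14) (b (l 14) (l 132774832455)))) (b (b (b (l 132774832951) (l 132774833447)) (b (l 132774833783) (l 132774834279))) (b (b (l 132774834951) (l 132774835319)) (b (l 132774835831) (l 132774836375))))))) (b (b (b (l 14) (c (l 14) (c (l 14) (b (l 131164205767) (l 131164206631))))) (a (l 3) (b (c (l 14) (b (b (l 131701079447) (l 131701079879)) (b (l 131701080327) (l 131701080791)))) (c (b (l 14) (b (l 132237955207) (l 132237955735))) (b (c (l 131701081479) (l 131164209367)) (c (l 131701082391) (l 131164210311))))))) (b (b (c (b (b (l 132237956167) (l 132237956551)) (b (l 132237957031) (l 132237957495))) (b (l 131701083287) (l 131701084279)))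 (b (b (l 132237958055) (l 132237958567)) (b (l 132237959063) (l 132237959415)))) (b (b (b (l 132237959943) (l 132237960471)) (b (l 132237960999) (l 132237961543))) (b (b (l 132237962087) (l 132237962647)) (b (l 132237963207) (l 132237963607))))))))))))))))), by decide +kernel⟩

def k7_pm_202_a : ∃ t, chk3 f_pm_202_a t 63 7 1 = true :=
  ⟨(b (b (a (l 3) (a (l 3) (a (l 3) (a (l 3) (a (l 3) (a (l 3) (a (l 3) (a (l 3) (b (a (l 3) (c (l 14) (b (c (c (b (b (l 132774838951) (l 132774839319)) (b (l 132774839847) (l 132774840375))) (b (b (l 132774836935) (l 132774837479)) (b (l 132774838039) (l 132774838599)))) (b (b (l 132237964215) (l 132237964807)) (b (l 132237965399) (l 132774836903)))) (c (b (b (c (l 132774840919) (l 132774839159)) (c (l 132774841463) (l 132774839735))) (b (c (l 132774842023) (l 132774840311)) (c (l 132774842583) (l 132774840903)))) (b (b (l 132237966423) (l 132237967047)) (b (l 132774838567) (l 132774839191))))))) (b (b (b (b (c (c (l 14) (c (l 14)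 (l 133311715575))) (c (l 133311713911) (l 132774839671))) (l 6)) (l 6)) (l 6)) (l 6))))))))))) (l 6)) (l 6)), by decide +kernel⟩

theorem s8_pm_202_a : ∃ t, chk3 f_pm_202_a t 63 3 1 = true := ex3_b k6_pm_202_a k7_pm_202_a

theorem s9_pm_202_a : ∃ t, chk3 f_pm_202_a t 63 1 1 = true := ex3_b k5_pm_202_a s8_pm_202_a

theorem s10_pm_202_a : ∃ t, chk3 f_pm_202_a t 31 1 1 = true := ex3_a k4_pm_202_a s9_pm_202_a

theorem s11_pm_202_a : ∃ t, chk3 f_pm_202_a t 15 1 1 = true := ex3_a k3_pm_202_a s10_pm_202_a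

theorem s12_pm_202_a : ∃ t, chk3 f_pm_202_a t 7 1 1 = true := ex3_a k2_pm_202_a s11_pm_202_a

theorem s13_pm_202_a : ∃ t, chk3 f_pm_202_a t 3 1 1 = true := ex3_a k1_pm_202_a s12_pm_202_a

theorem s14_pm_202_a : ∃ t, chk3 f_pm_202_a t 1 1 1 = true := ex3_a k0_pm_202_a s13_pm_202_a

theorem c_pm_202_a : CertN 0 536870912 0 536870912 67108864 67108864 3 false true false .pp 2 0 2
    ndN0q2 ndN2q2a pcN0 cut_pm_202_a Ext.none :=
  certNK0 (fam := false) (s1 := true) (s2 := false) (a := 2) (b := 0) (c := 2) (cn := .pp) (n1 := ndN0q2) (n2 := ndN2q2a) (pc := pcN0) (cut := cut_pm_202_a) (xt := Ext.none) (P1 := 0) (W1 := 536870912) (P2 := 0) (W2 := 536870912) (P3 := 67108864) (W3 := 67108864) (N0 := 3)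
    rfl rfl rfl s14_pm_202_a

noncomputable def cut_pm_202_b : Cut := Cut.of [[⟨0, 1, 0, 67108864⟩, ⟨1, 0, 0, 67108864⟩, ⟨2, 1, 0, 67108864⟩], [⟨0, 1, 0, 8388608⟩, ⟨1, 0, 1, 33554432⟩, ⟨2, 1, 1, 33554432⟩, ⟨1, 0, 0, 150994944⟩, ⟨1, 1, 0, 1023410176⟩, ⟨2, 1, 0, 150994944⟩, ⟨2, 2, 0, 1023410176⟩]]

noncomputable def f_pm_202_b : ℕ → ℕ → ℕ → ℕ → Bool := onCell 0 536870912 1239849684 370763052 67108864 67108864
    (rowNK 3 0 false true false .pp 2 0 2 (qsf 0 536870912 1239849684 370763052 0) ndN0q2 ndN2q2b pcN0 cut_pm_202_b Ext.none)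

def k0_pm_202_b : ∃ t, chk3 f_pm_202_b t 1 1 1 = true :=
  ⟨(a (l 3) (a (l 3) (a (l 3) (a (l 3) (b (a (l 3) (a (l 3) (b (b (c (l 133850185847) (b (b (l 133849581015) (l 133849826199)) (l 133850010663))) (l 120965716647)) (l 124723781527)))) (b (l 134924844423) (l 17979624))))))), by decide +kernel⟩

theorem c_pm_202_b : CertN 0 536870912 1239849684 370763052 67108864 67108864 3 false true false .pp 2 0 2
    ndN0q2 ndN2q2b pcN0 cut_pm_202_b Ext.none :=
  certNK0 (fam := false) (s1 := true) (s2 := false) (a := 2) (b := 0) (c := 2) (cn := .pp) (n1 := ndN0q2) (n2 := ndN2q2b) (pc := pcN0) (cut := cut_pm_202_b) (xt := Ext.none) (P1 := 0) (W1 := 536870912) (P2 := 1239849684) (W2 := 370763052) (P3 := 67108864) (W3 := 67108864) (N0 := 3)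
    rfl rfl rfl k0_pm_202_b

noncomputable def f_pm_203 : ℕ → ℕ → ℕ → ℕ → Bool := onCell 0 536870912 1610612736 536870912 67108864 67108864
    (rowNK 3 0 false true false .up 2 0 3 (qsf 0 536870912 1610612736 536870912 0) ndN0q2 ndN2q3 pcN0 Cut.none Ext.none)

def k0_pm_203 : ∃ t, chk3 f_pm_203 t 1 1 1 = true :=
  ⟨(a (l 3) (a (l 3) (b (b (a (l 3) (a (l 3) (l 162842636103))) (l 2)) (l 2)))), by decide +kernel⟩

theorem c_pm_203 : CertN 0 536870912 1610612736 536870912 67108864 67108864 3 false true false .up 2 0 3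
    ndN0q2 ndN2q3 pcN0 Cut.none Ext.none :=
  certNK0 (fam := false) (s1 := true) (s2 := false) (a := 2) (b := 0) (c := 3) (cn := .up) (n1 := ndN0q2) (n2 := ndN2q3) (pc := pcN0) (cut := Cut.none) (xt := Ext.none) (P1 := 0) (W1 := 536870912) (P2 := 1610612736) (W2 := 536870912) (P3 := 67108864) (W3 := 67108864) (N0 := 3)
    rfl rfl rfl k0_pm_203

noncomputable def cut_pm_213 : Cut := Cut.of [[⟨0, 1, 0, 21338704⟩, ⟨1, 1, 0, 21338704⟩, ⟨2, 2, 0, 1685920⟩]]

noncomputable def f_pm_213 : ℕ → ℕ → ℕ → ℕ → Bool := onCell 0 536870912 1610612736 536870912 67108864 67108864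
    (rowNK 3 0 false true false .pnn 2 1 3 (qsf 0 536870912 1610612736 536870912 1) ndN0q2 ndN2q3 pcN1 cut_pm_213 Ext.none)

def k0_pm_213 : ∃ t, chk3 f_pm_213 t 1 1 1 = true :=
  ⟨(a (l 3) (a (l 3) (a (b (l 3) (l 3)) (a (b (l 3) (l 3)) (b (b (l 167674508871) (b (l 17757728) (l 17528536))) (b (b (l 17329176) (l 215990665015)) (a (l 3) (b (l 17035968) (b (l 258402883767) (a (l 3) (b (l 268603358343) (a (l 3) (b (l 274508881415) (b (l 278266945255) (b (l 279877540263) (b (l 280951283319) (l 6))))))))))))))))), by decide +kernel⟩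

theorem c_pm_213 : CertN 0 536870912 1610612736 536870912 67108864 67108864 3 false true false .pnn 2 1 3
    ndN0q2 ndN2q3 pcN1 cut_pm_213 Ext.none :=
  certNK0 (fam := false) (s1 := true) (s2 := false) (a := 2) (b := 1) (c := 3) (cn := .pnn) (n1 := ndN0q2) (n2 := ndN2q3) (pc := pcN1) (cut := cut_pm_213) (xt := Ext.none) (P1 := 0) (W1 := 536870912) (P2 := 1610612736) (W2 := 536870912) (P3 := 67108864) (W3 := 67108864) (N0 := 3)
    rfl rfl rfl k0_pm_213

noncomputable def f_mm_001 : ℕ → ℕ → ℕ → ℕ → Bool := onCell 0 536870912 0 536870912 67108864 67108864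
    (rowNK 3 1 false false false .up 0 0 1 (qsf 0 536870912 536870912 536870912 0) ndN0q0 ndN2q1 pcN0 Cut.none Ext.none)

def k0_mm_001 : ∃ t, chk3 f_mm_001 t 1 1 1 = true :=
  ⟨(l 3), by decide +kernel⟩

theorem c_mm_001 : CertN 0 536870912 536870912 536870912 67108864 67108864 3 false false false .up 0 0 1
    ndN0q0 ndN2q1 pcN0 Cut.none Ext.none :=
  certNK1 (fam := false) (s1 := false) (s2 := false) (a := 0) (b := 0) (c := 1) (cn := .up) (n1 := ndN0q0) (n2 := ndN2q1) (pc := pcN0) (cut := Cut.none) (xt := Ext.none) (P1 := 0) (W1 := 536870912) (P2 := 536870912) (W2 := 536870912) (P3 := 67108864) (W3 := 67108864) (N0 := 3)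
    rfl rfl rfl (fun _ => rfl) k0_mm_001

noncomputable def f_mm_011 : ℕ → ℕ → ℕ → ℕ → Bool := onCell 0 536870912 536870912 536870912 67108864 67108864
    (rowNK 3 1 false false false .pnn 0 1 1 (qsf 0 536870912 536870912 536870912 1) ndN0q0 ndN2q1 pcN1 Cut.none Ext.none)

def k0_mm_011 : ∃ t, chk3 f_mm_011 t 1 1 1 = true :=
  ⟨(l 5), by decide +kernel⟩

theorem c_mm_011 : CertN 0 536870912 536870912 536870912 67108864 67108864 3 false false false .pnn 0 1 1
    ndN0q0 ndN2q1 pcN1 Cut.none Ext.none :=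
  certNK1 (fam := false) (s1 := false) (s2 := false) (a := 0) (b := 1) (c := 1) (cn := .pnn) (n1 := ndN0q0) (n2 := ndN2q1) (pc := pcN1) (cut := Cut.none) (xt := Ext.none) (P1 := 0) (W1 := 536870912) (P2 := 536870912) (W2 := 536870912) (P3 := 67108864) (W3 := 67108864) (N0 := 3)
    rfl rfl rfl (fun _ => rfl) k0_mm_011

noncomputable def f_mm_012_a : ℕ → ℕ → ℕ → ℕ → Bool := onCell 0 536870912 0 536870912 67108864 67108864
    (rowNK 3 0 false false false .pnp 0 1 2 (qsf 0 536870912 0 536870912 1) ndN0q0 ndN2q2a pcN1 Cut.none Ext.none)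

def k0_mm_012_a : ∃ t, chk3 f_mm_012_a t 1 1 1 = true :=
  ⟨(l 5), by decide +kernel⟩

theorem c_mm_012_a : CertN 0 536870912 0 536870912 67108864 67108864 3 false false false .pnp 0 1 2
    ndN0q0 ndN2q2a pcN1 Cut.none Ext.none :=
  certNK0 (fam := false) (s1 := false) (s2 := false) (a := 0) (b := 1) (c := 2) (cn := .pnp) (n1 := ndN0q0) (n2 := ndN2q2a) (pc := pcN1) (cut := Cut.none) (xt := Ext.none) (P1 := 0) (W1 := 536870912) (P2 := 0) (W2 := 536870912) (P3 := 67108864) (W3 := 67108864) (N0 := 3)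
    rfl rfl rfl k0_mm_012_a

noncomputable def f_mm_012_b : ℕ → ℕ → ℕ → ℕ → Bool := onCell 0 536870912 1239849684 370763052 67108864 67108864
    (rowNK 3 0 false false false .pnp 0 1 2 (qsf 0 536870912 1239849684 370763052 1) ndN0q0 ndN2q2b pcN1 Cut.none Ext.none)

def k0_mm_012_b : ∃ t, chk3 f_mm_012_b t 1 1 1 = true :=
  ⟨(l 5), by decide +kernel⟩

theorem c_mm_012_b : CertN 0 536870912 1239849684 370763052 67108864 67108864 3 false false false .pnp 0 1 2
    ndN0q0 ndN2q2b pcN1 Cut.none Ext.none :=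
  certNK0 (fam := false) (s1 := false) (s2 := false) (a := 0) (b := 1) (c := 2) (cn := .pnp) (n1 := ndN0q0) (n2 := ndN2q2b) (pc := pcN1) (cut := Cut.none) (xt := Ext.none) (P1 := 0) (W1 := 536870912) (P2 := 1239849684) (W2 := 370763052) (P3 := 67108864) (W3 := 67108864) (N0 := 3)
    rfl rfl rfl k0_mm_012_b

noncomputable def f_mm_022_a : ℕ → ℕ → ℕ → ℕ → Bool := onCell 0 536870912 0 536870912 67108864 67108864
    (rowNK 3 0 false false false .pp 0 2 2 (qsf 0 536870912 0 536870912 2) ndN0q0 ndN2q2a pcN2 Cut.none Ext.none)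

def k0_mm_022_a : ∃ t, chk3 f_mm_022_a t 1 1 1 = true :=
  ⟨(l 5), by decide +kernel⟩

theorem c_mm_022_a : CertN 0 536870912 0 536870912 67108864 67108864 3 false false false .pp 0 2 2
    ndN0q0 ndN2q2a pcN2 Cut.none Ext.none :=
  certNK0 (fam := false) (s1 := false) (s2 := false) (a := 0) (b := 2) (c := 2) (cn := .pp) (n1 := ndN0q0) (n2 := ndN2q2a) (pc := pcN2) (cut := Cut.none) (xt := Ext.none) (P1 := 0) (W1 := 536870912) (P2 := 0) (W2 := 536870912) (P3 := 67108864) (W3 := 67108864) (N0 := 3)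
    rfl rfl rfl k0_mm_022_a

noncomputable def f_mm_022_b : ℕ → ℕ → ℕ → ℕ → Bool := onCell 0 536870912 1239849684 370763052 67108864 67108864
    (rowNK 3 0 false false false .pp 0 2 2 (qsf 0 536870912 1239849684 370763052 2) ndN0q0 ndN2q2b pcN2 Cut.none Ext.none)

def k0_mm_022_b : ∃ t, chk3 f_mm_022_b t 1 1 1 = true :=
  ⟨(l 5), by decide +kernel⟩

theorem c_mm_022_b : CertN 0 536870912 1239849684 370763052 67108864 67108864 3 false false false .pp 0 2 2
    ndN0q0 ndN2q2b pcN2 Cut.none Ext.none :=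
  certNK0 (fam := false) (s1 := false) (s2 := false) (a := 0) (b := 2) (c := 2) (cn := .pp) (n1 := ndN0q0) (n2 := ndN2q2b) (pc := pcN2) (cut := Cut.none) (xt := Ext.none) (P1 := 0) (W1 := 536870912) (P2 := 1239849684) (W2 := 370763052) (P3 := 67108864) (W3 := 67108864) (N0 := 3)
    rfl rfl rfl k0_mm_022_b

noncomputable def f_mm_023 : ℕ → ℕ → ℕ → ℕ → Bool := onCell 0 536870912 1610612736 536870912 67108864 67108864
    (rowNK 3 0 false false false .up 0 2 3 (qsf 0 536870912 1610612736 536870912 2) ndN0q0 ndN2q3 pcN2 Cut.none Ext.none)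

def k0_mm_023 : ∃ t, chk3 f_mm_023 t 1 1 1 = true :=
  ⟨(l 5), by decide +kernel⟩

theorem c_mm_023 : CertN 0 536870912 1610612736 536870912 67108864 67108864 3 false false false .up 0 2 3
    ndN0q0 ndN2q3 pcN2 Cut.none Ext.none :=
  certNK0 (fam := false) (s1 := false) (s2 := false) (a := 0) (b := 2) (c := 3) (cn := .up) (n1 := ndN0q0) (n2 := ndN2q3) (pc := pcN2) (cut := Cut.none) (xt := Ext.none) (P1 := 0) (W1 := 536870912) (P2 := 1610612736) (W2 := 536870912) (P3 := 67108864) (W3 := 67108864) (N0 := 3)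
    rfl rfl rfl k0_mm_023

noncomputable def f_mm_033 : ℕ → ℕ → ℕ → ℕ → Bool := onCell 0 536870912 1610612736 536870912 67108864 67108864
    (rowNK 3 0 false false false .pnn 0 3 3 (qsf 0 536870912 1610612736 536870912 3) ndN0q0 ndN2q3 pcN3 Cut.none Ext.none)

def k0_mm_033 : ∃ t, chk3 f_mm_033 t 1 1 1 = true :=
  ⟨(l 5), by decide +kernel⟩

theorem c_mm_033 : CertN 0 536870912 1610612736 536870912 67108864 67108864 3 false false false .pnn 0 3 3
    ndN0q0 ndN2q3 pcN3 Cut.none Ext.none :=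
  certNK0 (fam := false) (s1 := false) (s2 := false) (a := 0) (b := 3) (c := 3) (cn := .pnn) (n1 := ndN0q0) (n2 := ndN2q3) (pc := pcN3) (cut := Cut.none) (xt := Ext.none) (P1 := 0) (W1 := 536870912) (P2 := 1610612736) (W2 := 536870912) (P3 := 67108864) (W3 := 67108864) (N0 := 3)
    rfl rfl rfl k0_mm_033

noncomputable def cut_mm_101 : Cut := Cut.of [[⟨0, 1, 0, 67108864⟩, ⟨1, 0, 0, 67108864⟩, ⟨2, 1, 0, 67108864⟩]]

noncomputable def f_mm_101 : ℕ → ℕ → ℕ → ℕ → Bool := onCell 0 536870912 536870912 536870912 67108864 67108864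
    (rowNK 3 2 false false false .npn 1 0 1 (qsf 536870912 536870912 536870912 536870912 0) ndN0q1 ndN2q1 pcN0 cut_mm_101 Ext.none)

def k0_mm_101 : ∃ t, chk3 f_mm_101 t 1 1 1 = true :=
  ⟨(a (b (l 3) (a (b (l 3) (b (l 3) (b (l 3) (a (a (a (l 6) (l 3)) (l 3)) (l 3))))) (l 3))) (l 3)), by decide +kernel⟩

theorem c_mm_101 : CertN 536870912 536870912 536870912 536870912 67108864 67108864 3 false false false .npn 1 0 1
    ndN0q1 ndN2q1 pcN0 cut_mm_101 Ext.none :=
  certNK2 (fam := false) (s1 := false) (s2 := false) (a := 1) (b := 0) (c := 1) (cn := .npn) (n1 := ndN0q1) (n2 := ndN2q1) (pc := pcN0) (cut := cut_mm_101) (xt := Ext.none) (P1 := 536870912) (W1 := 536870912) (P2 := 536870912) (W2 := 536870912) (P3 := 67108864) (W3 := 67108864) (N0 := 3)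
    rfl rfl rfl (fun _ => rfl) k0_mm_101

noncomputable def f_mm_102_a : ℕ → ℕ → ℕ → ℕ → Bool := onCell 536870912 536870912 0 536870912 67108864 67108864
    (rowNK 3 0 false false false .npp 1 0 2 (qsf 536870912 536870912 0 536870912 0) ndN0q1 ndN2q2a pcN0 Cut.none Ext.none)

def k0_mm_102_a : ∃ t, chk3 f_mm_102_a t 1 1 1 = true :=
  ⟨(l 3), by decide +kernel⟩

theorem c_mm_102_a : CertN 536870912 536870912 0 536870912 67108864 67108864 3 false false false .npp 1 0 2
    ndN0q1 ndN2q2a pcN0 Cut.none Ext.none :=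
  certNK0 (fam := false) (s1 := false) (s2 := false) (a := 1) (b := 0) (c := 2) (cn := .npp) (n1 := ndN0q1) (n2 := ndN2q2a) (pc := pcN0) (cut := Cut.none) (xt := Ext.none) (P1 := 536870912) (W1 := 536870912) (P2 := 0) (W2 := 536870912) (P3 := 67108864) (W3 := 67108864) (N0 := 3)
    rfl rfl rfl k0_mm_102_a

noncomputable def f_mm_102_b : ℕ → ℕ → ℕ → ℕ → Bool := onCell 536870912 536870912 0 536870912 67108864 67108864
    (rowNK 3 1 false false false .npp 1 0 2 (qsf 536870912 536870912 1239849684 370763052 0) ndN0q1 ndN2q2b pcN0 Cut.none Ext.none)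

def k0_mm_102_b : ∃ t, chk3 f_mm_102_b t 1 1 1 = true :=
  ⟨(l 3), by decide +kernel⟩

theorem c_mm_102_b : CertN 536870912 536870912 1239849684 370763052 67108864 67108864 3 false false false .npp 1 0 2
    ndN0q1 ndN2q2b pcN0 Cut.none Ext.none :=
  certNK1 (fam := false) (s1 := false) (s2 := false) (a := 1) (b := 0) (c := 2) (cn := .npp) (n1 := ndN0q1) (n2 := ndN2q2b) (pc := pcN0) (cut := Cut.none) (xt := Ext.none) (P1 := 536870912) (W1 := 536870912) (P2 := 1239849684) (W2 := 370763052) (P3 := 67108864) (W3 := 67108864) (N0 := 3)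
    rfl rfl rfl (fun _ => rfl) k0_mm_102_b

noncomputable def f_mm_112_a : ℕ → ℕ → ℕ → ℕ → Bool := onCell 536870912 536870912 0 536870912 67108864 67108864
    (rowNK 3 0 false false false .dn 1 1 2 (qsf 536870912 536870912 0 536870912 1) ndN0q1 ndN2q2a pcN1 Cut.none Ext.none)

def k0_mm_112_a : ∃ t, chk3 f_mm_112_a t 1 1 1 = true :=
  ⟨(l 3), by decide +kernel⟩

theorem c_mm_112_a : CertN 536870912 536870912 0 536870912 67108864 67108864 3 false false false .dn 1 1 2
    ndN0q1 ndN2q2a pcN1 Cut.none Ext.none :=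
  certNK0 (fam := false) (s1 := false) (s2 := false) (a := 1) (b := 1) (c := 2) (cn := .dn) (n1 := ndN0q1) (n2 := ndN2q2a) (pc := pcN1) (cut := Cut.none) (xt := Ext.none) (P1 := 536870912) (W1 := 536870912) (P2 := 0) (W2 := 536870912) (P3 := 67108864) (W3 := 67108864) (N0 := 3)
    rfl rfl rfl k0_mm_112_a

noncomputable def f_mm_112_b : ℕ → ℕ → ℕ → ℕ → Bool := onCell 536870912 536870912 536870912 536870912 67108864 67108864
    (rowNK 3 1 false false false .dn 1 1 2 (qsf 536870912 536870912 1239849684 370763052 1) ndN0q1 ndN2q2b pcN1 Cut.none Ext.none)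

def k0_mm_112_b : ∃ t, chk3 f_mm_112_b t 1 1 1 = true :=
  ⟨(l 5), by decide +kernel⟩

theorem c_mm_112_b : CertN 536870912 536870912 1239849684 370763052 67108864 67108864 3 false false false .dn 1 1 2
    ndN0q1 ndN2q2b pcN1 Cut.none Ext.none :=
  certNK1 (fam := false) (s1 := false) (s2 := false) (a := 1) (b := 1) (c := 2) (cn := .dn) (n1 := ndN0q1) (n2 := ndN2q2b) (pc := pcN1) (cut := Cut.none) (xt := Ext.none) (P1 := 536870912) (W1 := 536870912) (P2 := 1239849684) (W2 := 370763052) (P3 := 67108864) (W3 := 67108864) (N0 := 3)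
    rfl rfl rfl (fun _ => rfl) k0_mm_112_b

noncomputable def f_mm_113 : ℕ → ℕ → ℕ → ℕ → Bool := onCell 536870912 536870912 1610612736 536870912 67108864 67108864
    (rowNK 3 0 false false false .nn 1 1 3 (qsf 536870912 536870912 1610612736 536870912 1) ndN0q1 ndN2q3 pcN1 Cut.none Ext.none)

def k0_mm_113 : ∃ t, chk3 f_mm_113 t 1 1 1 = true :=
  ⟨(l 5), by decide +kernel⟩

theorem c_mm_113 : CertN 536870912 536870912 1610612736 536870912 67108864 67108864 3 false false false .nn 1 1 3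
    ndN0q1 ndN2q3 pcN1 Cut.none Ext.none :=
  certNK0 (fam := false) (s1 := false) (s2 := false) (a := 1) (b := 1) (c := 3) (cn := .nn) (n1 := ndN0q1) (n2 := ndN2q3) (pc := pcN1) (cut := Cut.none) (xt := Ext.none) (P1 := 536870912) (W1 := 536870912) (P2 := 1610612736) (W2 := 536870912) (P3 := 67108864) (W3 := 67108864) (N0 := 3)
    rfl rfl rfl k0_mm_113

noncomputable def f_mm_123 : ℕ → ℕ → ℕ → ℕ → Bool := onCell 536870912 536870912 1610612736 536870912 67108864 67108864
    (rowNK 3 0 false false false .npn 1 2 3 (qsf 536870912 536870912 1610612736 536870912 2) ndN0q1 ndN2q3 pcN2 Cut.none Ext.none)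

def k0_mm_123 : ∃ t, chk3 f_mm_123 t 1 1 1 = true :=
  ⟨(l 5), by decide +kernel⟩

theorem c_mm_123 : CertN 536870912 536870912 1610612736 536870912 67108864 67108864 3 false false false .npn 1 2 3
    ndN0q1 ndN2q3 pcN2 Cut.none Ext.none :=
  certNK0 (fam := false) (s1 := false) (s2 := false) (a := 1) (b := 2) (c := 3) (cn := .npn) (n1 := ndN0q1) (n2 := ndN2q3) (pc := pcN2) (cut := Cut.none) (xt := Ext.none) (P1 := 536870912) (W1 := 536870912) (P2 := 1610612736) (W2 := 536870912) (P3 := 67108864) (W3 := 67108864) (N0 := 3)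
    rfl rfl rfl k0_mm_123

noncomputable def f_mm_133 : ℕ → ℕ → ℕ → ℕ → Bool := onCell 536870912 536870912 1610612736 536870912 67108864 67108864
    (rowNK 3 0 false false false .dn 1 3 3 (qsf 536870912 536870912 1610612736 536870912 3) ndN0q1 ndN2q3 pcN3 Cut.none Ext.none)

def k0_mm_133 : ∃ t, chk3 f_mm_133 t 1 1 1 = true :=
  ⟨(l 5), by decide +kernel⟩

theorem c_mm_133 : CertN 536870912 536870912 1610612736 536870912 67108864 67108864 3 false false false .dn 1 3 3
    ndN0q1 ndN2q3 pcN3 Cut.none Ext.none :=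
  certNK0 (fam := false) (s1 := false) (s2 := false) (a := 1) (b := 3) (c := 3) (cn := .dn) (n1 := ndN0q1) (n2 := ndN2q3) (pc := pcN3) (cut := Cut.none) (xt := Ext.none) (P1 := 536870912) (W1 := 536870912) (P2 := 1610612736) (W2 := 536870912) (P3 := 67108864) (W3 := 67108864) (N0 := 3)
    rfl rfl rfl k0_mm_133

noncomputable def f_mm_202_a : ℕ → ℕ → ℕ → ℕ → Bool := onCell 0 536870912 0 536870912 67108864 67108864
    (rowNK 3 0 false false false .pp 2 0 2 (qsf 0 536870912 0 536870912 0) ndN0q2 ndN2q2a pcN0 Cut.none Ext.none)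

def k0_mm_202_a : ∃ t, chk3 f_mm_202_a t 1 1 1 = true :=
  ⟨(l 3), by decide +kernel⟩

theorem c_mm_202_a : CertN 0 536870912 0 536870912 67108864 67108864 3 false false false .pp 2 0 2
    ndN0q2 ndN2q2a pcN0 Cut.none Ext.none :=
  certNK0 (fam := false) (s1 := false) (s2 := false) (a := 2) (b := 0) (c := 2) (cn := .pp) (n1 := ndN0q2) (n2 := ndN2q2a) (pc := pcN0) (cut := Cut.none) (xt := Ext.none) (P1 := 0) (W1 := 536870912) (P2 := 0) (W2 := 536870912) (P3 := 67108864) (W3 := 67108864) (N0 := 3)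
    rfl rfl rfl k0_mm_202_a

noncomputable def f_mm_202_b : ℕ → ℕ → ℕ → ℕ → Bool := onCell 0 536870912 1239849684 370763052 67108864 67108864
    (rowNK 3 0 false false false .pp 2 0 2 (qsf 0 536870912 1239849684 370763052 0) ndN0q2 ndN2q2b pcN0 Cut.none Ext.none)

def k0_mm_202_b : ∃ t, chk3 f_mm_202_b t 1 1 1 = true :=
  ⟨(l 3), by decide +kernel⟩

theorem c_mm_202_b : CertN 0 536870912 1239849684 370763052 67108864 67108864 3 false false false .pp 2 0 2
    ndN0q2 ndN2q2b pcN0 Cut.none Ext.none :=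
  certNK0 (fam := false) (s1 := false) (s2 := false) (a := 2) (b := 0) (c := 2) (cn := .pp) (n1 := ndN0q2) (n2 := ndN2q2b) (pc := pcN0) (cut := Cut.none) (xt := Ext.none) (P1 := 0) (W1 := 536870912) (P2 := 1239849684) (W2 := 370763052) (P3 := 67108864) (W3 := 67108864) (N0 := 3)
    rfl rfl rfl k0_mm_202_b

noncomputable def f_mm_203 : ℕ → ℕ → ℕ → ℕ → Bool := onCell 0 536870912 0 536870912 67108864 67108864
    (rowNK 3 1 false false false .up 2 0 3 (qsf 0 536870912 1610612736 536870912 0) ndN0q2 ndN2q3 pcN0 Cut.none Ext.none)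

def k0_mm_203 : ∃ t, chk3 f_mm_203 t 1 1 1 = true :=
  ⟨(l 3), by decide +kernel⟩

theorem c_mm_203 : CertN 0 536870912 1610612736 536870912 67108864 67108864 3 false false false .up 2 0 3
    ndN0q2 ndN2q3 pcN0 Cut.none Ext.none :=
  certNK1 (fam := false) (s1 := false) (s2 := false) (a := 2) (b := 0) (c := 3) (cn := .up) (n1 := ndN0q2) (n2 := ndN2q3) (pc := pcN0) (cut := Cut.none) (xt := Ext.none) (P1 := 0) (W1 := 536870912) (P2 := 1610612736) (W2 := 536870912) (P3 := 67108864) (W3 := 67108864) (N0 := 3)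
    rfl rfl rfl (fun _ => rfl) k0_mm_203

noncomputable def f_mm_213 : ℕ → ℕ → ℕ → ℕ → Bool := onCell 0 536870912 1610612736 536870912 67108864 67108864
    (rowNK 3 0 false false false .pnn 2 1 3 (qsf 0 536870912 1610612736 536870912 1) ndN0q2 ndN2q3 pcN1 Cut.none Ext.none)

def k0_mm_213 : ∃ t, chk3 f_mm_213 t 1 1 1 = true :=
  ⟨(b (l 3) (a (l 3) (l 5))), by decide +kernel⟩

theorem c_mm_213 : CertN 0 536870912 1610612736 536870912 67108864 67108864 3 false false false .pnn 2 1 3
    ndN0q2 ndN2q3 pcN1 Cut.none Ext.none :=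
  certNK0 (fam := false) (s1 := false) (s2 := false) (a := 2) (b := 1) (c := 3) (cn := .pnn) (n1 := ndN0q2) (n2 := ndN2q3) (pc := pcN1) (cut := Cut.none) (xt := Ext.none) (P1 := 0) (W1 := 536870912) (P2 := 1610612736) (W2 := 536870912) (P3 := 67108864) (W3 := 67108864) (N0 := 3)
    rfl rfl rfl k0_mm_213

end Pool.Agent.Strip051.G.I1_16_1_8.Tab.C.NB02

namespace Pool.Agent.Strip051.G.I1_16_1_8.Tab.C.NB03

open Pool.Agent.Strip051.PB Pool.Agent.Strip051.PB.T
open Pool.Agent.Strip051.G.I1_16_1_8.Tab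

noncomputable def f_pp_001 : ℕ → ℕ → ℕ → ℕ → Bool := onCell 0 536870912 0 536870912 67108864 67108864
    (rowNK 3 1 false true true .up 0 0 1 (qsf 0 536870912 536870912 536870912 0) ndN0q0 ndN3q1 pcN0 Cut.none Ext.none)

def k0_pp_001 : ∃ t, chk3 f_pp_001 t 1 1 1 = true :=
  ⟨(l 3), by decide +kernel⟩

theorem c_pp_001 : CertN 0 536870912 536870912 536870912 67108864 67108864 3 false true true .up 0 0 1
    ndN0q0 ndN3q1 pcN0 Cut.none Ext.none :=
  certNK1 (fam := false) (s1 := true) (s2 := true) (a := 0) (b := 0) (c := 1) (cn := .up) (n1 := ndN0q0) (n2 := ndN3q1) (pc := pcN0) (cut := Cut.none) (xt := Ext.none) (P1 := 0) (W1 := 536870912) (P2 := 536870912) (W2 := 536870912) (P3 := 67108864) (W3 := 67108864) (N0 := 3)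
    rfl rfl rfl (fun _ => rfl) k0_pp_001

noncomputable def cut_pp_011 : Cut := Cut.of [[⟨0, 0, 0, 67108864⟩, ⟨1, 1, 0, 67108864⟩, ⟨2, 1, 0, 67108864⟩]]

noncomputable def f_pp_011 : ℕ → ℕ → ℕ → ℕ → Bool := onCell 0 536870912 536870912 536870912 67108864 67108864
    (rowNK 3 1 false true true .pnn 0 1 1 (qsf 0 536870912 536870912 536870912 1) ndN0q0 ndN3q1 pcN1 cut_pp_011 Ext.none)

def k0_pp_011 : ∃ t, chk3 f_pp_011 t 1 1 1 = true :=
  ⟨(b (l 3) (a (b (l 3) (a (b (l 3) (a (b (l 3) (a (l 6) (l 3))) (l 3))) (l 3))) (l 3))), by decide +kernel⟩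

theorem c_pp_011 : CertN 0 536870912 536870912 536870912 67108864 67108864 3 false true true .pnn 0 1 1
    ndN0q0 ndN3q1 pcN1 cut_pp_011 Ext.none :=
  certNK1 (fam := false) (s1 := true) (s2 := true) (a := 0) (b := 1) (c := 1) (cn := .pnn) (n1 := ndN0q0) (n2 := ndN3q1) (pc := pcN1) (cut := cut_pp_011) (xt := Ext.none) (P1 := 0) (W1 := 536870912) (P2 := 536870912) (W2 := 536870912) (P3 := 67108864) (W3 := 67108864) (N0 := 3)
    rfl rfl rfl (fun _ => rfl) k0_pp_011

noncomputable def f_pp_012 : ℕ → ℕ → ℕ → ℕ → Bool := onCell 0 536870912 536870912 536870912 67108864 67108864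
    (rowNK 3 1 false true true .pnp 0 1 2 (qsf 0 536870912 1073741824 536870912 1) ndN0q0 ndN3q2 pcN1 Cut.none Ext.none)

def k0_pp_012 : ∃ t, chk3 f_pp_012 t 1 1 1 = true :=
  ⟨(l 3), by decide +kernel⟩

theorem c_pp_012 : CertN 0 536870912 1073741824 536870912 67108864 67108864 3 false true true .pnp 0 1 2
    ndN0q0 ndN3q2 pcN1 Cut.none Ext.none :=
  certNK1 (fam := false) (s1 := true) (s2 := true) (a := 0) (b := 1) (c := 2) (cn := .pnp) (n1 := ndN0q0) (n2 := ndN3q2) (pc := pcN1) (cut := Cut.none) (xt := Ext.none) (P1 := 0) (W1 := 536870912) (P2 := 1073741824) (W2 := 536870912) (P3 := 67108864) (W3 := 67108864) (N0 := 3)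
    rfl rfl rfl (fun _ => rfl) k0_pp_012

noncomputable def f_pp_022 : ℕ → ℕ → ℕ → ℕ → Bool := onCell 0 536870912 1073741824 536870912 67108864 67108864
    (rowNK 3 1 false true true .pp 0 2 2 (qsf 0 536870912 1073741824 536870912 2) ndN0q0 ndN3q2 pcN2 Cut.none Ext.none)

def k0_pp_022 : ∃ t, chk3 f_pp_022 t 1 1 1 = true :=
  ⟨(a (b (b (l 3) (a (b (b (b (a (l 3) (l 18054176)) (b (a (a (a (l 93585460023) (l 18145448)) (l 18160672)) (l 18120416)) (a (a (b (l 18086744) (b (l 18220920) (l 18239776))) (b (l 18204464) (b (l 18225552) (l 18239296)))) (b (l 18151112) (b (l 18166440) (l 18176584)))))) (a (a (l 18212784) (l 18344776)) (l 18255936))) (a (b (l 18537712) (l 18656576)) (l 18424936))) (b (b (b (l 133314315399) (b (l 17970440) (b (l 17990184) (a (l 18062160) (l 17945432))))) (l 18063568)) (l 18189776)))) (a (b (a (l 18813960) (l 18600296)) (b (l 18712904) (l 18587320))) (b (l 18450808) (l 18348488)))) (b (b (b (l 3) (b (l 3) (a (l 156399466919) (l 17621488))))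 (b (a (b (b (l 17723464) (b (l 17748312) (b (l 17761376) (l 17791936)))) (l 17813168)) (b (b (l 17498768) (l 2)) (l 2))) (a (l 17891792) (l 2)))) (b (a (b (l 17908080) (l 2)) (l 2)) (l 2)))), by decide +kernel⟩

theorem c_pp_022 : CertN 0 536870912 1073741824 536870912 67108864 67108864 3 false true true .pp 0 2 2
    ndN0q0 ndN3q2 pcN2 Cut.none Ext.none :=
  certNK1 (fam := false) (s1 := true) (s2 := true) (a := 0) (b := 2) (c := 2) (cn := .pp) (n1 := ndN0q0) (n2 := ndN3q2) (pc := pcN2) (cut := Cut.none) (xt := Ext.none) (P1 := 0) (W1 := 536870912) (P2 := 1073741824) (W2 := 536870912) (P3 := 67108864) (W3 := 67108864) (N0 := 3)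
    rfl rfl rfl (fun _ => rfl) k0_pp_022

noncomputable def f_pp_023 : ℕ → ℕ → ℕ → ℕ → Bool := onCell 1073741824 536870912 0 1230186008 67108864 67108864
    (rowNK 3 2 false true true .up 0 2 3 (qsf 0 536870912 0 1230186008 2) ndN0q0 ndN3q3 pcN2 Cut.none Ext.none)

def k0_pp_023 : ∃ t, chk3 f_pp_023 t 1 1 1 = true :=
  ⟨(a (b (l 2) (b (b (l 2) (a (l 2) (a (l 2) (l 17620648)))) (b (a (l 2) (a (a (a (l 17963704) (a (l 17975760) (b (l 2) (l 18060624)))) (l 17974400)) (l 17973400))) (a (a (l 3) (a (l 3) (b (l 188075984247) (a (l 3) (l 18430656))))) (a (a (a (b (l 18237352) (l 18436472)) (a (l 18343720) (b (l 18267208) (a (l 18439064) (l 18440360))))) (l 18349048)) (l 18335112)))))) (b (a (l 2) (b (l 17344504) (l 17392072))) (b (a (b (l 17350472) (l 17638832)) (b (l 17469152) (l 17652112))) (b (a (l 17906544) (l 17755856)) (a (a (l 18273248) (l 18153440)) (l 18039296)))))), by decide +kernel⟩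

theorem c_pp_023 : CertN 0 536870912 0 1230186008 67108864 67108864 3 false true true .up 0 2 3
    ndN0q0 ndN3q3 pcN2 Cut.none Ext.none :=
  certNK2 (fam := false) (s1 := true) (s2 := true) (a := 0) (b := 2) (c := 3) (cn := .up) (n1 := ndN0q0) (n2 := ndN3q3) (pc := pcN2) (cut := Cut.none) (xt := Ext.none) (P1 := 0) (W1 := 536870912) (P2 := 0) (W2 := 1230186008) (P3 := 67108864) (W3 := 67108864) (N0 := 3)
    rfl rfl rfl (fun _ => rfl) k0_pp_023

noncomputable def f_pp_033 : ℕ → ℕ → ℕ → ℕ → Bool := onCell 1610612736 536870912 0 1230186008 67108864 67108864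
    (rowNK 3 2 false true true .pnn 0 3 3 (qsf 0 536870912 0 1230186008 3) ndN0q0 ndN3q3 pcN3 Cut.none Ext.none)

def k0_pp_033 : ∃ t, chk3 f_pp_033 t 1 1 1 = true :=
  ⟨(a (b (a (b (l 17115016) (a (b (l 17413872) (l 17580920)) (l 17177776))) (b (a (l 17481432) (l 17715240)) (a (l 17153304) (l 17521152)))) (b (a (b (a (l 17343480) (l 17544040)) (a (l 17898896) (l 17515200))) (a (b (l 17401200) (l 17528824)) (b (l 17269680) (l 17464432)))) (a (b (a (l 18617168) (l 18182424)) (a (b (l 18680448) (l 18121200)) (b (l 18462632) (l 18108984)))) (b (a (l 17719224) (l 17500616)) (b (l 17851232) (l 1)))))) (b (a (a (l 17776920) (l 17743352)) (l 4)) (b (a (a (b (l 17569088) (l 17308776)) (l 17586192)) (a (l 17673736) (l 1))) (l 1)))), by decide +kernel⟩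

theorem c_pp_033 : CertN 0 536870912 0 1230186008 67108864 67108864 3 false true true .pnn 0 3 3
    ndN0q0 ndN3q3 pcN3 Cut.none Ext.none :=
  certNK2 (fam := false) (s1 := true) (s2 := true) (a := 0) (b := 3) (c := 3) (cn := .pnn) (n1 := ndN0q0) (n2 := ndN3q3) (pc := pcN3) (cut := Cut.none) (xt := Ext.none) (P1 := 0) (W1 := 536870912) (P2 := 0) (W2 := 1230186008) (P3 := 67108864) (W3 := 67108864) (N0 := 3)
    rfl rfl rfl (fun _ => rfl) k0_pp_033

noncomputable def f_pp_101 : ℕ → ℕ → ℕ → ℕ → Bool := onCell 536870912 536870912 536870912 536870912 67108864 67108864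
    (rowNK 3 0 false true true .npn 1 0 1 (qsf 536870912 536870912 536870912 536870912 0) ndN0q1 ndN3q1 pcN0 Cut.none Ext.none)

def k0_pp_101 : ∃ t, chk3 f_pp_101 t 1 1 1 = true :=
  ⟨(a (l 3) (l 5)), by decide +kernel⟩

theorem c_pp_101 : CertN 536870912 536870912 536870912 536870912 67108864 67108864 3 false true true .npn 1 0 1
    ndN0q1 ndN3q1 pcN0 Cut.none Ext.none :=
  certNK0 (fam := false) (s1 := true) (s2 := true) (a := 1) (b := 0) (c := 1) (cn := .npn) (n1 := ndN0q1) (n2 := ndN3q1) (pc := pcN0) (cut := Cut.none) (xt := Ext.none) (P1 := 536870912) (W1 := 536870912) (P2 := 536870912) (W2 := 536870912) (P3 := 67108864) (W3 := 67108864) (N0 := 3)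
    rfl rfl rfl k0_pp_101

noncomputable def f_pp_102 : ℕ → ℕ → ℕ → ℕ → Bool := onCell 536870912 536870912 1073741824 536870912 67108864 67108864
    (rowNK 3 0 false true true .npp 1 0 2 (qsf 536870912 536870912 1073741824 536870912 0) ndN0q1 ndN3q2 pcN0 Cut.none Ext.none)

def k0_pp_102 : ∃ t, chk3 f_pp_102 t 1 1 1 = true :=
  ⟨(l 3), by decide +kernel⟩

theorem c_pp_102 : CertN 536870912 536870912 1073741824 536870912 67108864 67108864 3 false true true .npp 1 0 2
    ndN0q1 ndN3q2 pcN0 Cut.none Ext.none :=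
  certNK0 (fam := false) (s1 := true) (s2 := true) (a := 1) (b := 0) (c := 2) (cn := .npp) (n1 := ndN0q1) (n2 := ndN3q2) (pc := pcN0) (cut := Cut.none) (xt := Ext.none) (P1 := 536870912) (W1 := 536870912) (P2 := 1073741824) (W2 := 536870912) (P3 := 67108864) (W3 := 67108864) (N0 := 3)
    rfl rfl rfl k0_pp_102

noncomputable def f_pp_112 : ℕ → ℕ → ℕ → ℕ → Bool := onCell 536870912 536870912 1073741824 536870912 67108864 67108864
    (rowNK 3 0 false true true .dn 1 1 2 (qsf 536870912 536870912 1073741824 536870912 1) ndN0q1 ndN3q2 pcN1 Cut.none Ext.none)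

def k0_pp_112 : ∃ t, chk3 f_pp_112 t 1 1 1 = true :=
  ⟨(l 3), by decide +kernel⟩

theorem c_pp_112 : CertN 536870912 536870912 1073741824 536870912 67108864 67108864 3 false true true .dn 1 1 2
    ndN0q1 ndN3q2 pcN1 Cut.none Ext.none :=
  certNK0 (fam := false) (s1 := true) (s2 := true) (a := 1) (b := 1) (c := 2) (cn := .dn) (n1 := ndN0q1) (n2 := ndN3q2) (pc := pcN1) (cut := Cut.none) (xt := Ext.none) (P1 := 536870912) (W1 := 536870912) (P2 := 1073741824) (W2 := 536870912) (P3 := 67108864) (W3 := 67108864) (N0 := 3)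
    rfl rfl rfl k0_pp_112

noncomputable def cut_pp_113 : Cut := Cut.of [[⟨0, 1, 0, 21338704⟩, ⟨1, 1, 0, 21338704⟩, ⟨2, 2, 0, 1685920⟩]]

noncomputable def f_pp_113 : ℕ → ℕ → ℕ → ℕ → Bool := onCell 536870912 536870912 0 1230186008 67108864 67108864
    (rowNK 3 2 false true true .nn 1 1 3 (qsf 536870912 536870912 0 1230186008 1) ndN0q1 ndN3q3 pcN1 cut_pp_113 Ext.none)

def k0_pp_113 : ∃ t, chk3 f_pp_113 t 1 1 1 = true :=
  ⟨(b (a (l 2) (a (l 2) (b (a (l 2) (a (l 2) (a (l 3) (b (b (b (l 6) (l 3)) (l 3)) (l 3))))) (l 3)))) (a (b (l 3) (a (b (l 2) (l 3)) (l 3))) (b (l 3) (l 3)))), by decide +kernel⟩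

theorem c_pp_113 : CertN 536870912 536870912 0 1230186008 67108864 67108864 3 false true true .nn 1 1 3
    ndN0q1 ndN3q3 pcN1 cut_pp_113 Ext.none :=
  certNK2 (fam := false) (s1 := true) (s2 := true) (a := 1) (b := 1) (c := 3) (cn := .nn) (n1 := ndN0q1) (n2 := ndN3q3) (pc := pcN1) (cut := cut_pp_113) (xt := Ext.none) (P1 := 536870912) (W1 := 536870912) (P2 := 0) (W2 := 1230186008) (P3 := 67108864) (W3 := 67108864) (N0 := 3)
    rfl rfl rfl (fun _ => rfl) k0_pp_113

noncomputable def cut_pp_123 : Cut := Cut.of [[⟨0, 1, 0, 21338704⟩, ⟨1, 1, 0, 21338704⟩, ⟨2, 2, 0, 1685920⟩]]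

noncomputable def f_pp_123 : ℕ → ℕ → ℕ → ℕ → Bool := onCell 1073741824 536870912 0 1230186008 67108864 67108864
    (rowNK 3 2 false true true .npn 1 2 3 (qsf 536870912 536870912 0 1230186008 2) ndN0q1 ndN3q3 pcN2 cut_pp_123 Ext.none)

def k0_pp_123 : ∃ t, chk3 f_pp_123 t 1 2 1 = true :=
  ⟨(b (a (a (a (a (b (a (b (b (l 6) (b (l 6) (b (l 6) (a (l 3) (a (a (l 279340670695) (l 16781400)) (l 16787112)))))) (a (l 3) (b (a (b (a (l 312626675703) (l 243907192215)) (l 315847907399)) (l 232632929847)) (a (l 3) (l 290614970919))))) (b (l 16802096) (a (b (l 16793648) (l 213842481671)) (l 16806440)))) (a (l 3) (b (a (l 265918950919) (l 191830808247)) (l 254107853271)))) (a (b (b (l 16808392) (l 17032152)) (a (l 174651032711) (l 16962376))) (b (l 16831904) (l 16995856)))) (a (b (l 16847136) (l 17004720)) (l 16901216))) (a (l 16924160) (l 16947888))) (a (l 17108216) (l 17344480))) (a (a (a (b (a (l 3) (a (b (l 250886701367) (l 250886737271)) (a (l 17094504) (l 17032648)))) (a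 (l 3) (b (l 243907628711) (l 241223370391)))) (a (b (b (l 17122736) (l 17198464)) (a (b (l 17064288) (l 17107608)) (b (l 17050016) (l 17154488)))) (b (l 16973992) (b (l 17070016) (l 17203744))))) (a (a (b (l 17220216) (a (l 17164992) (l 17159296))) (l 17083792)) (l 17249008))) (a (l 17338960) (l 17458088)))), by decide +kernel⟩

def k1_pp_123 : ∃ t, chk3 f_pp_123 t 1 3 1 = true :=
  ⟨(b (a (b (a (a (l 3) (a (a (l 17456096) (l 17298192)) (a (l 17406520) (l 17344888)))) (a (a (a (l 17370296) (l 17495712)) (l 17362504)) (l 17334480))) (a (a (l 3) (a (a (l 221897518711) (l 17748344)) (b (l 17610520) (l 17692576)))) (a (a (a (l 17645256) (a (l 17651000) (l 17647120))) (l 17641576)) (l 17620576)))) (a (b (l 17434424) (a (l 17580832) (l 17561872))) (b (l 17481592) (l 1)))) (a (a (a (l 3) (b (a (b (l 214381643543) (l 3)) (b (l 17857600) (l 18033416))) (a (l 3) (b (l 187539114343) (l 1))))) (b (a (a (a (l 17963664) (a (l 17975784) (l 25806379607))) (l 17974936)) (l 17977120))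 (a (a (a (l 60703606823) (l 1)) (l 1)) (l 1)))) (l 1))), by decide +kernel⟩

theorem s2_pp_123 : ∃ t, chk3 f_pp_123 t 1 1 1 = true := ex3_b k0_pp_123 k1_pp_123

theorem c_pp_123 : CertN 536870912 536870912 0 1230186008 67108864 67108864 3 false true true .npn 1 2 3
    ndN0q1 ndN3q3 pcN2 cut_pp_123 Ext.none :=
  certNK2 (fam := false) (s1 := true) (s2 := true) (a := 1) (b := 2) (c := 3) (cn := .npn) (n1 := ndN0q1) (n2 := ndN3q3) (pc := pcN2) (cut := cut_pp_123) (xt := Ext.none) (P1 := 536870912) (W1 := 536870912) (P2 := 0) (W2 := 1230186008) (P3 := 67108864) (W3 := 67108864) (N0 := 3)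
    rfl rfl rfl (fun _ => rfl) s2_pp_123

noncomputable def f_pp_133 : ℕ → ℕ → ℕ → ℕ → Bool := onCell 1610612736 536870912 0 1230186008 67108864 67108864
    (rowNK 3 2 false true true .dn 1 3 3 (qsf 536870912 536870912 0 1230186008 3) ndN0q1 ndN3q3 pcN3 Cut.none Ext.none)

def k0_pp_133 : ∃ t, chk3 f_pp_133 t 1 1 1 = true :=
  ⟨(b (b (a (a (l 596497868839) (l 1)) (l 1)) (l 1)) (l 1)), by decide +kernel⟩

theorem c_pp_133 : CertN 536870912 536870912 0 1230186008 67108864 67108864 3 false true true .dn 1 3 3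
    ndN0q1 ndN3q3 pcN3 Cut.none Ext.none :=
  certNK2 (fam := false) (s1 := true) (s2 := true) (a := 1) (b := 3) (c := 3) (cn := .dn) (n1 := ndN0q1) (n2 := ndN3q3) (pc := pcN3) (cut := Cut.none) (xt := Ext.none) (P1 := 536870912) (W1 := 536870912) (P2 := 0) (W2 := 1230186008) (P3 := 67108864) (W3 := 67108864) (N0 := 3)
    rfl rfl rfl (fun _ => rfl) k0_pp_133

noncomputable def f_pp_202 : ℕ → ℕ → ℕ → ℕ → Bool := onCell 0 536870912 1073741824 536870912 67108864 67108864
    (rowNK 3 0 false true true .pp 2 0 2 (qsf 0 536870912 1073741824 536870912 0) ndN0q2 ndN3q2 pcN0 Cut.none Ext.none)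

def k0_pp_202 : ∃ t, chk3 f_pp_202 t 1 1 1 = true :=
  ⟨(l 3), by decide +kernel⟩

theorem c_pp_202 : CertN 0 536870912 1073741824 536870912 67108864 67108864 3 false true true .pp 2 0 2
    ndN0q2 ndN3q2 pcN0 Cut.none Ext.none :=
  certNK0 (fam := false) (s1 := true) (s2 := true) (a := 2) (b := 0) (c := 2) (cn := .pp) (n1 := ndN0q2) (n2 := ndN3q2) (pc := pcN0) (cut := Cut.none) (xt := Ext.none) (P1 := 0) (W1 := 536870912) (P2 := 1073741824) (W2 := 536870912) (P3 := 67108864) (W3 := 67108864) (N0 := 3)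
    rfl rfl rfl k0_pp_202

noncomputable def f_pp_203 : ℕ → ℕ → ℕ → ℕ → Bool := onCell 0 536870912 0 1230186008 67108864 67108864
    (rowNK 3 0 false true true .up 2 0 3 (qsf 0 536870912 0 1230186008 0) ndN0q2 ndN3q3 pcN0 Cut.none Ext.none)

def k0_pp_203 : ∃ t, chk3 f_pp_203 t 1 1 1 = true :=
  ⟨(b (l 2) (l 3)), by decide +kernel⟩

theorem c_pp_203 : CertN 0 536870912 0 1230186008 67108864 67108864 3 false true true .up 2 0 3
    ndN0q2 ndN3q3 pcN0 Cut.none Ext.none :=
  certNK0 (fam := false) (s1 := true) (s2 := true) (a := 2) (b := 0) (c := 3) (cn := .up) (n1 := ndN0q2) (n2 := ndN3q3) (pc := pcN0) (cut := Cut.none) (xt := Ext.none) (P1 := 0) (W1 := 536870912) (P2 := 0) (W2 := 1230186008) (P3 := 67108864) (W3 := 67108864) (N0 := 3)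
    rfl rfl rfl k0_pp_203

noncomputable def cut_pp_213 : Cut := Cut.of [[⟨0, 1, 0, 21338704⟩, ⟨1, 1, 0, 21338704⟩, ⟨2, 2, 0, 1685920⟩]]

noncomputable def f_pp_213 : ℕ → ℕ → ℕ → ℕ → Bool := onCell 0 536870912 0 1230186008 67108864 67108864
    (rowNK 3 0 false true true .pnn 2 1 3 (qsf 0 536870912 0 1230186008 1) ndN0q2 ndN3q3 pcN1 cut_pp_213 Ext.none)

def k0_pp_213 : ∃ t, chk3 f_pp_213 t 1 1 1 = true :=
  ⟨(b (a (l 3) (b (a (l 3) (a (l 3) (b (a (l 3) (b (a (l 3) (b (l 6) (l 3))) (l 3))) (l 3)))) (l 3))) (l 3)), by decide +kernel⟩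

theorem c_pp_213 : CertN 0 536870912 0 1230186008 67108864 67108864 3 false true true .pnn 2 1 3
    ndN0q2 ndN3q3 pcN1 cut_pp_213 Ext.none :=
  certNK0 (fam := false) (s1 := true) (s2 := true) (a := 2) (b := 1) (c := 3) (cn := .pnn) (n1 := ndN0q2) (n2 := ndN3q3) (pc := pcN1) (cut := cut_pp_213) (xt := Ext.none) (P1 := 0) (W1 := 536870912) (P2 := 0) (W2 := 1230186008) (P3 := 67108864) (W3 := 67108864) (N0 := 3)
    rfl rfl rfl k0_pp_213

noncomputable def f_pm_001 : ℕ → ℕ → ℕ → ℕ → Bool := onCell 0 536870912 536870912 536870912 67108864 67108864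
    (rowNK 3 0 false true false .up 0 0 1 (qsf 0 536870912 536870912 536870912 0) ndN0q0 ndN3q1 pcN0 Cut.none Ext.none)

def k0_pm_001 : ∃ t, chk3 f_pm_001 t 1 1 1 = true :=
  ⟨(l 4), by decide +kernel⟩

theorem c_pm_001 : CertN 0 536870912 536870912 536870912 67108864 67108864 3 false true false .up 0 0 1
    ndN0q0 ndN3q1 pcN0 Cut.none Ext.none :=
  certNK0 (fam := false) (s1 := true) (s2 := false) (a := 0) (b := 0) (c := 1) (cn := .up) (n1 := ndN0q0) (n2 := ndN3q1) (pc := pcN0) (cut := Cut.none) (xt := Ext.none) (P1 := 0) (W1 := 536870912) (P2 := 536870912) (W2 := 536870912) (P3 := 67108864) (W3 := 67108864) (N0 := 3)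
    rfl rfl rfl k0_pm_001

noncomputable def f_pm_011 : ℕ → ℕ → ℕ → ℕ → Bool := onCell 0 536870912 536870912 536870912 67108864 67108864
    (rowNK 3 0 false true false .pnn 0 1 1 (qsf 0 536870912 536870912 536870912 1) ndN0q0 ndN3q1 pcN1 Cut.none Ext.none)

def k0_pm_011 : ∃ t, chk3 f_pm_011 t 1 1 1 = true :=
  ⟨(l 4), by decide +kernel⟩

theorem c_pm_011 : CertN 0 536870912 536870912 536870912 67108864 67108864 3 false true false .pnn 0 1 1
    ndN0q0 ndN3q1 pcN1 Cut.none Ext.none :=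
  certNK0 (fam := false) (s1 := true) (s2 := false) (a := 0) (b := 1) (c := 1) (cn := .pnn) (n1 := ndN0q0) (n2 := ndN3q1) (pc := pcN1) (cut := Cut.none) (xt := Ext.none) (P1 := 0) (W1 := 536870912) (P2 := 536870912) (W2 := 536870912) (P3 := 67108864) (W3 := 67108864) (N0 := 3)
    rfl rfl rfl k0_pm_011

noncomputable def f_pm_012 : ℕ → ℕ → ℕ → ℕ → Bool := onCell 0 536870912 1073741824 536870912 67108864 67108864
    (rowNK 3 0 false true false .pnp 0 1 2 (qsf 0 536870912 1073741824 536870912 1) ndN0q0 ndN3q2 pcN1 Cut.none Ext.none)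

def k0_pm_012 : ∃ t, chk3 f_pm_012 t 1 1 1 = true :=
  ⟨(l 4), by decide +kernel⟩

theorem c_pm_012 : CertN 0 536870912 1073741824 536870912 67108864 67108864 3 false true false .pnp 0 1 2
    ndN0q0 ndN3q2 pcN1 Cut.none Ext.none :=
  certNK0 (fam := false) (s1 := true) (s2 := false) (a := 0) (b := 1) (c := 2) (cn := .pnp) (n1 := ndN0q0) (n2 := ndN3q2) (pc := pcN1) (cut := Cut.none) (xt := Ext.none) (P1 := 0) (W1 := 536870912) (P2 := 1073741824) (W2 := 536870912) (P3 := 67108864) (W3 := 67108864) (N0 := 3)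
    rfl rfl rfl k0_pm_012

noncomputable def f_pm_022 : ℕ → ℕ → ℕ → ℕ → Bool := onCell 0 536870912 1073741824 536870912 67108864 67108864
    (rowNK 3 0 false true false .pp 0 2 2 (qsf 0 536870912 1073741824 536870912 2) ndN0q0 ndN3q2 pcN2 Cut.none Ext.none)

def k0_pm_022 : ∃ t, chk3 f_pm_022 t 1 1 1 = true :=
  ⟨(l 4), by decide +kernel⟩

theorem c_pm_022 : CertN 0 536870912 1073741824 536870912 67108864 67108864 3 false true false .pp 0 2 2
    ndN0q0 ndN3q2 pcN2 Cut.none Ext.none :=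
  certNK0 (fam := false) (s1 := true) (s2 := false) (a := 0) (b := 2) (c := 2) (cn := .pp) (n1 := ndN0q0) (n2 := ndN3q2) (pc := pcN2) (cut := Cut.none) (xt := Ext.none) (P1 := 0) (W1 := 536870912) (P2 := 1073741824) (W2 := 536870912) (P3 := 67108864) (W3 := 67108864) (N0 := 3)
    rfl rfl rfl k0_pm_022

noncomputable def f_pm_023 : ℕ → ℕ → ℕ → ℕ → Bool := onCell 0 536870912 0 1230186008 67108864 67108864
    (rowNK 3 0 false true false .up 0 2 3 (qsf 0 536870912 0 1230186008 2) ndN0q0 ndN3q3 pcN2 Cut.none Ext.none)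

def k0_pm_023 : ∃ t, chk3 f_pm_023 t 1 1 1 = true :=
  ⟨(a (b (l 2) (l 4)) (b (a (l 2) (b (l 17690040) (a (l 17966616) (l 17912736)))) (b (a (l 4) (a (l 4) (l 18337400))) (l 4)))), by decide +kernel⟩

theorem c_pm_023 : CertN 0 536870912 0 1230186008 67108864 67108864 3 false true false .up 0 2 3
    ndN0q0 ndN3q3 pcN2 Cut.none Ext.none :=
  certNK0 (fam := false) (s1 := true) (s2 := false) (a := 0) (b := 2) (c := 3) (cn := .up) (n1 := ndN0q0) (n2 := ndN3q3) (pc := pcN2) (cut := Cut.none) (xt := Ext.none) (P1 := 0) (W1 := 536870912) (P2 := 0) (W2 := 1230186008) (P3 := 67108864) (W3 := 67108864) (N0 := 3)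
    rfl rfl rfl k0_pm_023

noncomputable def f_pm_033 : ℕ → ℕ → ℕ → ℕ → Bool := onCell 1610612736 536870912 0 1230186008 67108864 67108864
    (rowNK 3 2 false true false .pnn 0 3 3 (qsf 0 536870912 0 1230186008 3) ndN0q0 ndN3q3 pcN3 Cut.none Ext.none)

def k0_pm_033 : ∃ t, chk3 f_pm_033 t 1 1 1 = true :=
  ⟨(b (a (a (b (a (l 17216880) (l 17552856)) (a (l 17892096) (l 17997776))) (b (a (l 17744880) (l 4)) (l 4))) (l 4)) (a (l 4) (l 4))), by decide +kernel⟩

theorem c_pm_033 : CertN 0 536870912 0 1230186008 67108864 67108864 3 false true false .pnn 0 3 3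
    ndN0q0 ndN3q3 pcN3 Cut.none Ext.none :=
  certNK2 (fam := false) (s1 := true) (s2 := false) (a := 0) (b := 3) (c := 3) (cn := .pnn) (n1 := ndN0q0) (n2 := ndN3q3) (pc := pcN3) (cut := Cut.none) (xt := Ext.none) (P1 := 0) (W1 := 536870912) (P2 := 0) (W2 := 1230186008) (P3 := 67108864) (W3 := 67108864) (N0 := 3)
    rfl rfl rfl (fun _ => rfl) k0_pm_033

noncomputable def f_pm_101 : ℕ → ℕ → ℕ → ℕ → Bool := onCell 536870912 536870912 536870912 536870912 67108864 67108864
    (rowNK 3 0 false true false .npn 1 0 1 (qsf 536870912 536870912 536870912 536870912 0) ndN0q1 ndN3q1 pcN0 Cut.none Ext.none)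

def k0_pm_101 : ∃ t, chk3 f_pm_101 t 1 1 1 = true :=
  ⟨(l 4), by decide +kernel⟩

theorem c_pm_101 : CertN 536870912 536870912 536870912 536870912 67108864 67108864 3 false true false .npn 1 0 1
    ndN0q1 ndN3q1 pcN0 Cut.none Ext.none :=
  certNK0 (fam := false) (s1 := true) (s2 := false) (a := 1) (b := 0) (c := 1) (cn := .npn) (n1 := ndN0q1) (n2 := ndN3q1) (pc := pcN0) (cut := Cut.none) (xt := Ext.none) (P1 := 536870912) (W1 := 536870912) (P2 := 536870912) (W2 := 536870912) (P3 := 67108864) (W3 := 67108864) (N0 := 3)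
    rfl rfl rfl k0_pm_101

noncomputable def f_pm_102 : ℕ → ℕ → ℕ → ℕ → Bool := onCell 536870912 536870912 0 536870912 67108864 67108864
    (rowNK 3 1 false true false .npp 1 0 2 (qsf 536870912 536870912 1073741824 536870912 0) ndN0q1 ndN3q2 pcN0 Cut.none Ext.none)

def k0_pm_102 : ∃ t, chk3 f_pm_102 t 1 1 1 = true :=
  ⟨(b (a (b (l 1) (a (l 1) (l 307665506615))) (a (b (l 220156217431) (l 200827678311)) (b (b (l 19278288) (b (l 18985632) (l 18766240))) (b (a (l 18579560) (l 18304184)) (a (l 18153632) (l 17941880)))))) (a (a (l 4) (a (b (l 18787336) (l 18877480)) (b (l 18620256) (l 18473248)))) (b (a (b (l 18261976) (a (l 18153904) (l 17677384))) (a (b (l 17769896) (b (l 17577944) (l 17588040))) (b (l 18113696) (a (l 18100488) (l 18122104))))) (a (a (b (l 17828064) (l 17429568)) (b (l 17366176) (a (l 17107344) (l 17529608)))) (b (a (a (l 17597840) (l 18176040)) (a (l 18259248) (l 18046816))) (a (a (l 18238736) (b (l 18417336) (l 18398256))) (l 17941504))))))), by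 decide +kernel⟩

theorem c_pm_102 : CertN 536870912 536870912 1073741824 536870912 67108864 67108864 3 false true false .npp 1 0 2
    ndN0q1 ndN3q2 pcN0 Cut.none Ext.none :=
  certNK1 (fam := false) (s1 := true) (s2 := false) (a := 1) (b := 0) (c := 2) (cn := .npp) (n1 := ndN0q1) (n2 := ndN3q2) (pc := pcN0) (cut := Cut.none) (xt := Ext.none) (P1 := 536870912) (W1 := 536870912) (P2 := 1073741824) (W2 := 536870912) (P3 := 67108864) (W3 := 67108864) (N0 := 3)
    rfl rfl rfl (fun _ => rfl) k0_pm_102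

noncomputable def f_pm_112 : ℕ → ℕ → ℕ → ℕ → Bool := onCell 536870912 536870912 1073741824 536870912 67108864 67108864
    (rowNK 3 2 false true false .dn 1 1 2 (qsf 536870912 536870912 1073741824 536870912 1) ndN0q1 ndN3q2 pcN1 Cut.none Ext.none)

def k0_pm_112 : ∃ t, chk3 f_pm_112 t 1 1 1 = true :=
  ⟨(a (b (a (b (l 4) (l 18840392)) (l 4)) (a (b (b (a (a (l 18643320) (l 18706864)) (l 18786752)) (a (b (l 18307664) (l 17592280)) (b (l 18721344) (a (l 18344000) (l 18596272))))) (a (b (b (a (l 17579184) (l 17247888)) (a (l 17893184) (l 17674912))) (l 17963144)) (b (b (a (l 17280344) (l 17950864)) (a (l 17417232) (l 17134984))) (a (l 17737144) (b (l 17453880) (l 17615184)))))) (b (l 18946952) (a (b (a (b (l 18441424) (l 17390672)) (l 18412352)) (b (a (l 17208488) (l 17010072)) (l 17312904))) (b (b (l 18904872) (l 18622928)) (a (l 17607576) (b (l 18445944) (l 17629352)))))))) (b (l 4) (b (a (l 4) (l 4)) (a (a (b (l 19066640) (a (l 18145784) (l 18462528))) (l 18493753847))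 (l 19637280))))), by decide +kernel⟩

theorem c_pm_112 : CertN 536870912 536870912 1073741824 536870912 67108864 67108864 3 false true false .dn 1 1 2
    ndN0q1 ndN3q2 pcN1 Cut.none Ext.none :=
  certNK2 (fam := false) (s1 := true) (s2 := false) (a := 1) (b := 1) (c := 2) (cn := .dn) (n1 := ndN0q1) (n2 := ndN3q2) (pc := pcN1) (cut := Cut.none) (xt := Ext.none) (P1 := 536870912) (W1 := 536870912) (P2 := 1073741824) (W2 := 536870912) (P3 := 67108864) (W3 := 67108864) (N0 := 3)
    rfl rfl rfl (fun _ => rfl) k0_pm_112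

noncomputable def cut_pm_113 : Cut := Cut.of [[⟨0, 1, 0, 21338704⟩, ⟨1, 1, 0, 21338704⟩, ⟨2, 2, 0, 1685920⟩]]

noncomputable def f_pm_113 : ℕ → ℕ → ℕ → ℕ → Bool := onCell 536870912 536870912 0 1230186008 67108864 67108864
    (rowNK 3 2 false true false .nn 1 1 3 (qsf 536870912 536870912 0 1230186008 1) ndN0q1 ndN3q3 pcN1 cut_pm_113 Ext.none)

def k0_pm_113 : ∃ t, chk3 f_pm_113 t 1 1 1 = true :=
  ⟨(b (a (l 2) (a (l 2) (b (a (l 2) (a (l 2) (b (a (l 2) (b (b (l 6) (l 921371174215)) (l 839229912839))) (l 803259643399)))) (a (b (l 1420661545159) (l 942309868695)) (b (l 761921205447) (l 16978616)))))) (b (a (a (l 2) (b (l 2) (a (l 2) (b (l 2) (l 841916949703))))) (b (a (a (l 2) (b (l 1031430973031) (l 17606200))) (a (l 17377976) (a (l 17193904) (l 17052256)))) (a (a (l 753870372327) (b (l 17781160) (l 17925088))) (a (l 17555208) (a (l 17338800) (l 17224640)))))) (a (a (b (l 2) (a (b (l 2) (l 510133499463)) (b (l 583684386199) (l 19222408)))) (b (a (b (l 834938085815)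 (l 18740512)) (b (l 18442928) (l 18651976))) (a (l 19053112) (l 18658072)))) (b (a (a (b (l 18300232) (l 18338992)) (l 18014384)) (a (l 17597216) (a (l 17461952) (l 17734632)))) (a (a (b (l 18249480) (l 18099952)) (b (l 17868248) (l 17970160))) (a (b (l 17721912) (l 17946976)) (a (l 18092272) (l 18292992)))))))), by decide +kernel⟩

theorem c_pm_113 : CertN 536870912 536870912 0 1230186008 67108864 67108864 3 false true false .nn 1 1 3
    ndN0q1 ndN3q3 pcN1 cut_pm_113 Ext.none :=
  certNK2 (fam := false) (s1 := true) (s2 := false) (a := 1) (b := 1) (c := 3) (cn := .nn) (n1 := ndN0q1) (n2 := ndN3q3) (pc := pcN1) (cut := cut_pm_113) (xt := Ext.none) (P1 := 536870912) (W1 := 536870912) (P2 := 0) (W2 := 1230186008) (P3 := 67108864) (W3 := 67108864) (N0 := 3)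
    rfl rfl rfl (fun _ => rfl) k0_pm_113

noncomputable def cut_pm_123 : Cut := Cut.of [[⟨0, 1, 0, 21338704⟩, ⟨1, 1, 0, 21338704⟩, ⟨2, 2, 0, 1685920⟩]]

noncomputable def f_pm_123 : ℕ → ℕ → ℕ → ℕ → Bool := onCell 1073741824 536870912 0 1230186008 67108864 67108864
    (rowNK 3 2 false true false .npn 1 2 3 (qsf 536870912 536870912 0 1230186008 2) ndN0q1 ndN3q3 pcN2 cut_pm_123 Ext.none)

def k0_pm_123 : ∃ t, chk3 f_pm_123 t 1 1 1 = true :=
  ⟨(b (b (a (a (a (a (a (b (b (b (l 6) (l 16796912)) (l 16812288)) (l 16855384)) (l 16994624)) (a (l 16960968) (l 16876096))) (a (l 16891184) (l 16925688))) (a (l 16967720) (l 17042752))) (a (l 17216832) (l 17505176))) (a (a (a (a (l 17096256) (b (l 16959624) (l 17107616))) (l 17346232)) (a (l 17242528) (l 17406016))) (a (l 17620912) (l 17863984)))) (b (a (a (b (l 17418504) (l 17769592)) (b (l 17778272) (l 18171320))) (a (b (l 18086360) (l 18433352)) (b (l 18258424) (l 1)))) (a (a (b (l 18188512) (l 18638352)) (b (l 18576912) (l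 4))) (l 1)))), by decide +kernel⟩

theorem c_pm_123 : CertN 536870912 536870912 0 1230186008 67108864 67108864 3 false true false .npn 1 2 3
    ndN0q1 ndN3q3 pcN2 cut_pm_123 Ext.none :=
  certNK2 (fam := false) (s1 := true) (s2 := false) (a := 1) (b := 2) (c := 3) (cn := .npn) (n1 := ndN0q1) (n2 := ndN3q3) (pc := pcN2) (cut := cut_pm_123) (xt := Ext.none) (P1 := 536870912) (W1 := 536870912) (P2 := 0) (W2 := 1230186008) (P3 := 67108864) (W3 := 67108864) (N0 := 3)
    rfl rfl rfl (fun _ => rfl) k0_pm_123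

noncomputable def f_pm_133 : ℕ → ℕ → ℕ → ℕ → Bool := onCell 536870912 536870912 0 1230186008 67108864 67108864
    (rowNK 3 0 false true false .dn 1 3 3 (qsf 536870912 536870912 0 1230186008 3) ndN0q1 ndN3q3 pcN3 Cut.none Ext.none)

def k0_pm_133 : ∃ t, chk3 f_pm_133 t 1 1 1 = true :=
  ⟨(b (b (a (a (a (l 16863640) (l 1)) (l 1)) (l 1)) (l 1)) (l 1)), by decide +kernel⟩

theorem c_pm_133 : CertN 536870912 536870912 0 1230186008 67108864 67108864 3 false true false .dn 1 3 3
    ndN0q1 ndN3q3 pcN3 Cut.none Ext.none :=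
  certNK0 (fam := false) (s1 := true) (s2 := false) (a := 1) (b := 3) (c := 3) (cn := .dn) (n1 := ndN0q1) (n2 := ndN3q3) (pc := pcN3) (cut := Cut.none) (xt := Ext.none) (P1 := 536870912) (W1 := 536870912) (P2 := 0) (W2 := 1230186008) (P3 := 67108864) (W3 := 67108864) (N0 := 3)
    rfl rfl rfl k0_pm_133

noncomputable def f_pm_202 : ℕ → ℕ → ℕ → ℕ → Bool := onCell 0 536870912 0 536870912 67108864 67108864
    (rowNK 3 1 false true false .pp 2 0 2 (qsf 0 536870912 1073741824 536870912 0) ndN0q2 ndN3q2 pcN0 Cut.none Ext.none)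

def k0_pm_202 : ∃ t, chk3 f_pm_202 t 1 1 1 = true :=
  ⟨(a (a (b (l 3) (l 3)) (a (b (b (b (b (b (a (a (a (l 3) (b (l 135461312583) (l 129018900871))) (b (l 17830952) (l 17961752))) (l 17809960)) (a (b (l 128482482631) (l 129556280487)) (a (l 18039904) (l 17929632)))) (b (a (l 131703740695) (l 18010608)) (a (l 134388037735) (l 17988840)))) (a (b (l 143514939415) (l 3)) (b (l 18063384) (l 18040840)))) (b (a (l 3) (l 153715273463)) (l 3))) (l 3)) (b (b (b (b (l 17455904) (b (l 17775024) (l 17974784))) (a (b (l 18059928) (l 17967536)) (b (l 17905664) (l 17842152)))) (b (a (l 17929344) (l 17857680)) (l 17817160))) (b (a (l 175189471511) (l 165526301639)) (l 251424762183))))) (b (b (b (a (b (a (l 17647360) (l 18258960)) (a (l 17496960) (l 17957656))) (b (l 18951776) (l 18849976))) (a (a (l 17845264) (l 17718704)) (a (l 18017688) (l 18465976)))) (b (a (a (l 17759944) (l 17684408)) (a (l 17749168) (l 17984336))) (a (a (a (l 17736048) (l 17622856)) (l 17714072)) (b (l 17693016)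 (l 17689344))))) (b (a (b (a (l 17643704) (a (l 17573544) (l 17521088))) (l 17526320)) (b (a (a (l 17492600) (l 17648048)) (l 17849056)) (a (l 17409232) (l 17840320)))) (b (a (l 17536200) (a (l 17335840) (l 17591600))) (a (l 2) (a (l 17295648) (l 17444632))))))), by decide +kernel⟩

theorem c_pm_202 : CertN 0 536870912 1073741824 536870912 67108864 67108864 3 false true false .pp 2 0 2
    ndN0q2 ndN3q2 pcN0 Cut.none Ext.none :=
  certNK1 (fam := false) (s1 := true) (s2 := false) (a := 2) (b := 0) (c := 2) (cn := .pp) (n1 := ndN0q2) (n2 := ndN3q2) (pc := pcN0) (cut := Cut.none) (xt := Ext.none) (P1 := 0) (W1 := 536870912) (P2 := 1073741824) (W2 := 536870912) (P3 := 67108864) (W3 := 67108864) (N0 := 3)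
    rfl rfl rfl (fun _ => rfl) k0_pm_202

noncomputable def f_pm_203 : ℕ → ℕ → ℕ → ℕ → Bool := onCell 0 536870912 0 1230186008 67108864 67108864
    (rowNK 3 0 false true false .up 2 0 3 (qsf 0 536870912 0 1230186008 0) ndN0q2 ndN3q3 pcN0 Cut.none Ext.none)

def k0_pm_203 : ∃ t, chk3 f_pm_203 t 1 1 1 = true :=
  ⟨(b (l 2) (b (l 2) (a (b (l 3) (a (l 3) (a (l 3) (b (l 3) (l 187538999831))))) (b (l 2) (a (a (b (l 188075446503) (l 133315452199)) (l 18378192)) (a (l 18208864) (b (l 2) (l 18292152)))))))), by decide +kernel⟩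

theorem c_pm_203 : CertN 0 536870912 0 1230186008 67108864 67108864 3 false true false .up 2 0 3
    ndN0q2 ndN3q3 pcN0 Cut.none Ext.none :=
  certNK0 (fam := false) (s1 := true) (s2 := false) (a := 2) (b := 0) (c := 3) (cn := .up) (n1 := ndN0q2) (n2 := ndN3q3) (pc := pcN0) (cut := Cut.none) (xt := Ext.none) (P1 := 0) (W1 := 536870912) (P2 := 0) (W2 := 1230186008) (P3 := 67108864) (W3 := 67108864) (N0 := 3)
    rfl rfl rfl k0_pm_203

noncomputable def cut_pm_213 : Cut := Cut.of [[⟨0, 1, 0, 21338704⟩, ⟨1, 1, 0, 21338704⟩, ⟨2, 2, 0, 1685920⟩]]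

noncomputable def f_pm_213 : ℕ → ℕ → ℕ → ℕ → Bool := onCell 0 536870912 0 1230186008 67108864 67108864
    (rowNK 3 0 false true false .pnn 2 1 3 (qsf 0 536870912 0 1230186008 1) ndN0q2 ndN3q3 pcN1 cut_pm_213 Ext.none)

def k0_pm_213 : ∃ t, chk3 f_pm_213 t 1 1 1 = true :=
  ⟨(b (a (l 3) (b (a (l 3) (a (b (l 3) (l 3)) (b (a (l 3) (b (a (l 3) (b (l 6) (b (l 6) (a (a (l 308868553959) (l 271287595751)) (l 16781632))))) (a (b (a (l 3) (l 312089807335)) (l 282561926071)) (b (a (l 269140125895) (l 16783904)) (l 16783344))))) (a (b (b (l 331417218599) (l 281488238103)) (a (l 346449637143) (l 258939636279))) (a (b (b (l 271824487927) (l 16804960)) (l 16829816)) (l 16829560)))))) (a (l 3) (a (b (a (l 3) (b (l 364703304407) (l 253034275911))) (a (b (l 358797970183) (l 238002227015)) (b (l 241223514823) (l 17141128)))) (b (a (b (l 249276137367) (l 16948952)) (l 16917168)) (b (l 17058856) (l 17195424))))))) (b (a (l 3) (a (b (a (l 3) (b (l 354503365031) (l 226728392695))) (a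 (l 3) (b (l 206327667175) (l 187000741431)))) (b (a (b (l 220823161543) (l 17451304)) (l 17509984)) (a (b (l 17668056) (l 17911880)) (l 17947936))))) (a (b (l 3) (b (l 3) (l 1))) (b (b (a (a (l 260015320487) (l 17874568)) (l 18504056)) (a (a (l 184316972215) (l 18210056)) (l 18593888))) (b (a (a (a (l 180559271287) (l 18296168)) (l 18462248)) (l 18852040)) (a (l 1) (a (l 18905512) (l 19123776)))))))), by decide +kernel⟩

theorem c_pm_213 : CertN 0 536870912 0 1230186008 67108864 67108864 3 false true false .pnn 2 1 3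
    ndN0q2 ndN3q3 pcN1 cut_pm_213 Ext.none :=
  certNK0 (fam := false) (s1 := true) (s2 := false) (a := 2) (b := 1) (c := 3) (cn := .pnn) (n1 := ndN0q2) (n2 := ndN3q3) (pc := pcN1) (cut := cut_pm_213) (xt := Ext.none) (P1 := 0) (W1 := 536870912) (P2 := 0) (W2 := 1230186008) (P3 := 67108864) (W3 := 67108864) (N0 := 3)
    rfl rfl rfl k0_pm_213

noncomputable def f_mm_001 : ℕ → ℕ → ℕ → ℕ → Bool := onCell 0 536870912 0 536870912 67108864 67108864
    (rowNK 3 1 false false false .up 0 0 1 (qsf 0 536870912 536870912 536870912 0) ndN0q0 ndN3q1 pcN0 Cut.none Ext.none)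

def k0_mm_001 : ∃ t, chk3 f_mm_001 t 1 1 1 = true :=
  ⟨(l 3), by decide +kernel⟩

theorem c_mm_001 : CertN 0 536870912 536870912 536870912 67108864 67108864 3 false false false .up 0 0 1
    ndN0q0 ndN3q1 pcN0 Cut.none Ext.none :=
  certNK1 (fam := false) (s1 := false) (s2 := false) (a := 0) (b := 0) (c := 1) (cn := .up) (n1 := ndN0q0) (n2 := ndN3q1) (pc := pcN0) (cut := Cut.none) (xt := Ext.none) (P1 := 0) (W1 := 536870912) (P2 := 536870912) (W2 := 536870912) (P3 := 67108864) (W3 := 67108864) (N0 := 3)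
    rfl rfl rfl (fun _ => rfl) k0_mm_001

noncomputable def f_mm_011 : ℕ → ℕ → ℕ → ℕ → Bool := onCell 0 536870912 536870912 536870912 67108864 67108864
    (rowNK 3 1 false false false .pnn 0 1 1 (qsf 0 536870912 536870912 536870912 1) ndN0q0 ndN3q1 pcN1 Cut.none Ext.none)

def k0_mm_011 : ∃ t, chk3 f_mm_011 t 1 1 1 = true :=
  ⟨(l 5), by decide +kernel⟩

theorem c_mm_011 : CertN 0 536870912 536870912 536870912 67108864 67108864 3 false false false .pnn 0 1 1
    ndN0q0 ndN3q1 pcN1 Cut.none Ext.none :=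
  certNK1 (fam := false) (s1 := false) (s2 := false) (a := 0) (b := 1) (c := 1) (cn := .pnn) (n1 := ndN0q0) (n2 := ndN3q1) (pc := pcN1) (cut := Cut.none) (xt := Ext.none) (P1 := 0) (W1 := 536870912) (P2 := 536870912) (W2 := 536870912) (P3 := 67108864) (W3 := 67108864) (N0 := 3)
    rfl rfl rfl (fun _ => rfl) k0_mm_011

noncomputable def f_mm_012 : ℕ → ℕ → ℕ → ℕ → Bool := onCell 0 536870912 1073741824 536870912 67108864 67108864
    (rowNK 3 0 false false false .pnp 0 1 2 (qsf 0 536870912 1073741824 536870912 1) ndN0q0 ndN3q2 pcN1 Cut.none Ext.none)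

def k0_mm_012 : ∃ t, chk3 f_mm_012 t 1 1 1 = true :=
  ⟨(l 5), by decide +kernel⟩

theorem c_mm_012 : CertN 0 536870912 1073741824 536870912 67108864 67108864 3 false false false .pnp 0 1 2
    ndN0q0 ndN3q2 pcN1 Cut.none Ext.none :=
  certNK0 (fam := false) (s1 := false) (s2 := false) (a := 0) (b := 1) (c := 2) (cn := .pnp) (n1 := ndN0q0) (n2 := ndN3q2) (pc := pcN1) (cut := Cut.none) (xt := Ext.none) (P1 := 0) (W1 := 536870912) (P2 := 1073741824) (W2 := 536870912) (P3 := 67108864) (W3 := 67108864) (N0 := 3)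
    rfl rfl rfl k0_mm_012

noncomputable def f_mm_022 : ℕ → ℕ → ℕ → ℕ → Bool := onCell 0 536870912 1073741824 536870912 67108864 67108864
    (rowNK 3 0 false false false .pp 0 2 2 (qsf 0 536870912 1073741824 536870912 2) ndN0q0 ndN3q2 pcN2 Cut.none Ext.none)

def k0_mm_022 : ∃ t, chk3 f_mm_022 t 1 1 1 = true :=
  ⟨(l 5), by decide +kernel⟩

theorem c_mm_022 : CertN 0 536870912 1073741824 536870912 67108864 67108864 3 false false false .pp 0 2 2
    ndN0q0 ndN3q2 pcN2 Cut.none Ext.none :=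
  certNK0 (fam := false) (s1 := false) (s2 := false) (a := 0) (b := 2) (c := 2) (cn := .pp) (n1 := ndN0q0) (n2 := ndN3q2) (pc := pcN2) (cut := Cut.none) (xt := Ext.none) (P1 := 0) (W1 := 536870912) (P2 := 1073741824) (W2 := 536870912) (P3 := 67108864) (W3 := 67108864) (N0 := 3)
    rfl rfl rfl k0_mm_022

noncomputable def f_mm_023 : ℕ → ℕ → ℕ → ℕ → Bool := onCell 0 536870912 0 1230186008 67108864 67108864
    (rowNK 3 0 false false false .up 0 2 3 (qsf 0 536870912 0 1230186008 2) ndN0q0 ndN3q3 pcN2 Cut.none Ext.none)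

def k0_mm_023 : ∃ t, chk3 f_mm_023 t 1 1 1 = true :=
  ⟨(l 5), by decide +kernel⟩

theorem c_mm_023 : CertN 0 536870912 0 1230186008 67108864 67108864 3 false false false .up 0 2 3
    ndN0q0 ndN3q3 pcN2 Cut.none Ext.none :=
  certNK0 (fam := false) (s1 := false) (s2 := false) (a := 0) (b := 2) (c := 3) (cn := .up) (n1 := ndN0q0) (n2 := ndN3q3) (pc := pcN2) (cut := Cut.none) (xt := Ext.none) (P1 := 0) (W1 := 536870912) (P2 := 0) (W2 := 1230186008) (P3 := 67108864) (W3 := 67108864) (N0 := 3)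
    rfl rfl rfl k0_mm_023

noncomputable def f_mm_033 : ℕ → ℕ → ℕ → ℕ → Bool := onCell 0 536870912 0 1230186008 67108864 67108864
    (rowNK 3 0 false false false .pnn 0 3 3 (qsf 0 536870912 0 1230186008 3) ndN0q0 ndN3q3 pcN3 Cut.none Ext.none)

def k0_mm_033 : ∃ t, chk3 f_mm_033 t 1 1 1 = true :=
  ⟨(l 5), by decide +kernel⟩

theorem c_mm_033 : CertN 0 536870912 0 1230186008 67108864 67108864 3 false false false .pnn 0 3 3
    ndN0q0 ndN3q3 pcN3 Cut.none Ext.none :=
  certNK0 (fam := false) (s1 := false) (s2 := false) (a := 0) (b := 3) (c := 3) (cn := .pnn) (n1 := ndN0q0) (n2 := ndN3q3) (pc := pcN3) (cut := Cut.none) (xt := Ext.none) (P1 := 0) (W1 := 536870912) (P2 := 0) (W2 := 1230186008) (P3 := 67108864) (W3 := 67108864) (N0 := 3)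
    rfl rfl rfl k0_mm_033

noncomputable def cut_mm_101 : Cut := Cut.of [[⟨0, 1, 0, 67108864⟩, ⟨1, 0, 0, 67108864⟩, ⟨2, 1, 0, 67108864⟩]]

noncomputable def f_mm_101 : ℕ → ℕ → ℕ → ℕ → Bool := onCell 536870912 536870912 0 536870912 67108864 67108864
    (rowNK 3 1 false false false .npn 1 0 1 (qsf 536870912 536870912 536870912 536870912 0) ndN0q1 ndN3q1 pcN0 cut_mm_101 Ext.none)

def k0_mm_101 : ∃ t, chk3 f_mm_101 t 1 1 1 = true :=
  ⟨(a (l 3) (b (b (a (l 3) (b (a (l 3) (a (l 3) (b (l 6) (l 3)))) (l 3))) (l 3)) (l 3))), by decide +kernel⟩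

theorem c_mm_101 : CertN 536870912 536870912 536870912 536870912 67108864 67108864 3 false false false .npn 1 0 1
    ndN0q1 ndN3q1 pcN0 cut_mm_101 Ext.none :=
  certNK1 (fam := false) (s1 := false) (s2 := false) (a := 1) (b := 0) (c := 1) (cn := .npn) (n1 := ndN0q1) (n2 := ndN3q1) (pc := pcN0) (cut := cut_mm_101) (xt := Ext.none) (P1 := 536870912) (W1 := 536870912) (P2 := 536870912) (W2 := 536870912) (P3 := 67108864) (W3 := 67108864) (N0 := 3)
    rfl rfl rfl (fun _ => rfl) k0_mm_101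

noncomputable def f_mm_102 : ℕ → ℕ → ℕ → ℕ → Bool := onCell 536870912 536870912 1073741824 536870912 67108864 67108864
    (rowNK 3 0 false false false .npp 1 0 2 (qsf 536870912 536870912 1073741824 536870912 0) ndN0q1 ndN3q2 pcN0 Cut.none Ext.none)

def k0_mm_102 : ∃ t, chk3 f_mm_102 t 1 1 1 = true :=
  ⟨(l 3), by decide +kernel⟩

theorem c_mm_102 : CertN 536870912 536870912 1073741824 536870912 67108864 67108864 3 false false false .npp 1 0 2
    ndN0q1 ndN3q2 pcN0 Cut.none Ext.none :=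
  certNK0 (fam := false) (s1 := false) (s2 := false) (a := 1) (b := 0) (c := 2) (cn := .npp) (n1 := ndN0q1) (n2 := ndN3q2) (pc := pcN0) (cut := Cut.none) (xt := Ext.none) (P1 := 536870912) (W1 := 536870912) (P2 := 1073741824) (W2 := 536870912) (P3 := 67108864) (W3 := 67108864) (N0 := 3)
    rfl rfl rfl k0_mm_102

noncomputable def f_mm_112 : ℕ → ℕ → ℕ → ℕ → Bool := onCell 536870912 536870912 1073741824 536870912 67108864 67108864
    (rowNK 3 0 false false false .dn 1 1 2 (qsf 536870912 536870912 1073741824 536870912 1) ndN0q1 ndN3q2 pcN1 Cut.none Ext.none)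

def k0_mm_112 : ∃ t, chk3 f_mm_112 t 1 1 1 = true :=
  ⟨(l 3), by decide +kernel⟩

theorem c_mm_112 : CertN 536870912 536870912 1073741824 536870912 67108864 67108864 3 false false false .dn 1 1 2
    ndN0q1 ndN3q2 pcN1 Cut.none Ext.none :=
  certNK0 (fam := false) (s1 := false) (s2 := false) (a := 1) (b := 1) (c := 2) (cn := .dn) (n1 := ndN0q1) (n2 := ndN3q2) (pc := pcN1) (cut := Cut.none) (xt := Ext.none) (P1 := 536870912) (W1 := 536870912) (P2 := 1073741824) (W2 := 536870912) (P3 := 67108864) (W3 := 67108864) (N0 := 3)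
    rfl rfl rfl k0_mm_112

noncomputable def f_mm_113 : ℕ → ℕ → ℕ → ℕ → Bool := onCell 536870912 536870912 0 1230186008 67108864 67108864
    (rowNK 3 0 false false false .nn 1 1 3 (qsf 536870912 536870912 0 1230186008 1) ndN0q1 ndN3q3 pcN1 Cut.none Ext.none)

def k0_mm_113 : ∃ t, chk3 f_mm_113 t 1 1 1 = true :=
  ⟨(b (l 5) (a (l 5) (b (l 5) (l 3)))), by decide +kernel⟩

theorem c_mm_113 : CertN 536870912 536870912 0 1230186008 67108864 67108864 3 false false false .nn 1 1 3
    ndN0q1 ndN3q3 pcN1 Cut.none Ext.none :=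
  certNK0 (fam := false) (s1 := false) (s2 := false) (a := 1) (b := 1) (c := 3) (cn := .nn) (n1 := ndN0q1) (n2 := ndN3q3) (pc := pcN1) (cut := Cut.none) (xt := Ext.none) (P1 := 536870912) (W1 := 536870912) (P2 := 0) (W2 := 1230186008) (P3 := 67108864) (W3 := 67108864) (N0 := 3)
    rfl rfl rfl k0_mm_113

noncomputable def f_mm_123 : ℕ → ℕ → ℕ → ℕ → Bool := onCell 1073741824 536870912 0 1230186008 67108864 67108864
    (rowNK 3 2 false false false .npn 1 2 3 (qsf 536870912 536870912 0 1230186008 2) ndN0q1 ndN3q3 pcN2 Cut.none Ext.none)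

def k0_mm_123 : ∃ t, chk3 f_mm_123 t 1 1 1 = true :=
  ⟨(b (l 5) (l 5)), by decide +kernel⟩

theorem c_mm_123 : CertN 536870912 536870912 0 1230186008 67108864 67108864 3 false false false .npn 1 2 3
    ndN0q1 ndN3q3 pcN2 Cut.none Ext.none :=
  certNK2 (fam := false) (s1 := false) (s2 := false) (a := 1) (b := 2) (c := 3) (cn := .npn) (n1 := ndN0q1) (n2 := ndN3q3) (pc := pcN2) (cut := Cut.none) (xt := Ext.none) (P1 := 536870912) (W1 := 536870912) (P2 := 0) (W2 := 1230186008) (P3 := 67108864) (W3 := 67108864) (N0 := 3)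
    rfl rfl rfl (fun _ => rfl) k0_mm_123

noncomputable def f_mm_133 : ℕ → ℕ → ℕ → ℕ → Bool := onCell 1610612736 536870912 0 1230186008 67108864 67108864
    (rowNK 3 2 false false false .dn 1 3 3 (qsf 536870912 536870912 0 1230186008 3) ndN0q1 ndN3q3 pcN3 Cut.none Ext.none)

def k0_mm_133 : ∃ t, chk3 f_mm_133 t 1 1 1 = true :=
  ⟨(l 5), by decide +kernel⟩

theorem c_mm_133 : CertN 536870912 536870912 0 1230186008 67108864 67108864 3 false false false .dn 1 3 3
    ndN0q1 ndN3q3 pcN3 Cut.none Ext.none :=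
  certNK2 (fam := false) (s1 := false) (s2 := false) (a := 1) (b := 3) (c := 3) (cn := .dn) (n1 := ndN0q1) (n2 := ndN3q3) (pc := pcN3) (cut := Cut.none) (xt := Ext.none) (P1 := 536870912) (W1 := 536870912) (P2 := 0) (W2 := 1230186008) (P3 := 67108864) (W3 := 67108864) (N0 := 3)
    rfl rfl rfl (fun _ => rfl) k0_mm_133

noncomputable def f_mm_202 : ℕ → ℕ → ℕ → ℕ → Bool := onCell 0 536870912 1073741824 536870912 67108864 67108864
    (rowNK 3 0 false false false .pp 2 0 2 (qsf 0 536870912 1073741824 536870912 0) ndN0q2 ndN3q2 pcN0 Cut.none Ext.none)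

def k0_mm_202 : ∃ t, chk3 f_mm_202 t 1 1 1 = true :=
  ⟨(l 3), by decide +kernel⟩

theorem c_mm_202 : CertN 0 536870912 1073741824 536870912 67108864 67108864 3 false false false .pp 2 0 2
    ndN0q2 ndN3q2 pcN0 Cut.none Ext.none :=
  certNK0 (fam := false) (s1 := false) (s2 := false) (a := 2) (b := 0) (c := 2) (cn := .pp) (n1 := ndN0q2) (n2 := ndN3q2) (pc := pcN0) (cut := Cut.none) (xt := Ext.none) (P1 := 0) (W1 := 536870912) (P2 := 1073741824) (W2 := 536870912) (P3 := 67108864) (W3 := 67108864) (N0 := 3)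
    rfl rfl rfl k0_mm_202

noncomputable def f_mm_203 : ℕ → ℕ → ℕ → ℕ → Bool := onCell 0 536870912 0 1230186008 67108864 67108864
    (rowNK 3 0 false false false .up 2 0 3 (qsf 0 536870912 0 1230186008 0) ndN0q2 ndN3q3 pcN0 Cut.none Ext.none)

def k0_mm_203 : ∃ t, chk3 f_mm_203 t 1 1 1 = true :=
  ⟨(b (l 2) (l 3)), by decide +kernel⟩

theorem c_mm_203 : CertN 0 536870912 0 1230186008 67108864 67108864 3 false false false .up 2 0 3
    ndN0q2 ndN3q3 pcN0 Cut.none Ext.none :=
  certNK0 (fam := false) (s1 := false) (s2 := false) (a := 2) (b := 0) (c := 3) (cn := .up) (n1 := ndN0q2) (n2 := ndN3q3) (pc := pcN0) (cut := Cut.none) (xt := Ext.none) (P1 := 0) (W1 := 536870912) (P2 := 0) (W2 := 1230186008) (P3 := 67108864) (W3 := 67108864) (N0 := 3)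
    rfl rfl rfl k0_mm_203

noncomputable def f_mm_213 : ℕ → ℕ → ℕ → ℕ → Bool := onCell 0 536870912 0 1230186008 67108864 67108864
    (rowNK 3 0 false false false .pnn 2 1 3 (qsf 0 536870912 0 1230186008 1) ndN0q2 ndN3q3 pcN1 Cut.none Ext.none)

def k0_mm_213 : ∃ t, chk3 f_mm_213 t 1 1 1 = true :=
  ⟨(b (a (l 3) (l 5)) (l 3)), by decide +kernel⟩

theorem c_mm_213 : CertN 0 536870912 0 1230186008 67108864 67108864 3 false false false .pnn 2 1 3
    ndN0q2 ndN3q3 pcN1 Cut.none Ext.none :=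
  certNK0 (fam := false) (s1 := false) (s2 := false) (a := 2) (b := 1) (c := 3) (cn := .pnn) (n1 := ndN0q2) (n2 := ndN3q3) (pc := pcN1) (cut := Cut.none) (xt := Ext.none) (P1 := 0) (W1 := 536870912) (P2 := 0) (W2 := 1230186008) (P3 := 67108864) (W3 := 67108864) (N0 := 3)
    rfl rfl rfl k0_mm_213

end Pool.Agent.Strip051.G.I1_16_1_8.Tab.C.NB03

namespace Pool.Agent.Strip051.G.I1_16_1_8.Tab.C.NB04

open Pool.Agent.Strip051.PB Pool.Agent.Strip051.PB.T
open Pool.Agent.Strip051.G.I1_16_1_8.Tab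

noncomputable def f_pp_001 : ℕ → ℕ → ℕ → ℕ → Bool := onCell 0 536870912 0 536870912 67108864 67108864
    (rowNK 3 1 false true true .up 0 0 1 (qsf 0 536870912 536870912 536870912 0) ndN0q0 ndN4q1 pcN0 Cut.none Ext.none)

def k0_pp_001 : ∃ t, chk3 f_pp_001 t 1 1 1 = true :=
  ⟨(l 3), by decide +kernel⟩

theorem c_pp_001 : CertN 0 536870912 536870912 536870912 67108864 67108864 3 false true true .up 0 0 1
    ndN0q0 ndN4q1 pcN0 Cut.none Ext.none :=
  certNK1 (fam := false) (s1 := true) (s2 := true) (a := 0) (b := 0) (c := 1) (cn := .up) (n1 := ndN0q0) (n2 := ndN4q1) (pc := pcN0) (cut := Cut.none) (xt := Ext.none) (P1 := 0) (W1 := 536870912) (P2 := 536870912) (W2 := 536870912) (P3 := 67108864) (W3 := 67108864) (N0 := 3)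
    rfl rfl rfl (fun _ => rfl) k0_pp_001

noncomputable def cut_pp_011 : Cut := Cut.of [[⟨0, 0, 0, 67108864⟩, ⟨1, 1, 0, 67108864⟩, ⟨2, 1, 0, 67108864⟩]]

noncomputable def f_pp_011 : ℕ → ℕ → ℕ → ℕ → Bool := onCell 0 536870912 536870912 536870912 67108864 67108864
    (rowNK 3 1 false true true .pnn 0 1 1 (qsf 0 536870912 536870912 536870912 1) ndN0q0 ndN4q1 pcN1 cut_pp_011 Ext.none)

def k0_pp_011 : ∃ t, chk3 f_pp_011 t 1 1 1 = true :=
  ⟨(b (l 3) (a (b (l 3) (a (b (l 3) (a (b (l 3) (a (l 6) (l 3))) (l 3))) (l 3))) (l 3))), by decide +kernel⟩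

theorem c_pp_011 : CertN 0 536870912 536870912 536870912 67108864 67108864 3 false true true .pnn 0 1 1
    ndN0q0 ndN4q1 pcN1 cut_pp_011 Ext.none :=
  certNK1 (fam := false) (s1 := true) (s2 := true) (a := 0) (b := 1) (c := 1) (cn := .pnn) (n1 := ndN0q0) (n2 := ndN4q1) (pc := pcN1) (cut := cut_pp_011) (xt := Ext.none) (P1 := 0) (W1 := 536870912) (P2 := 536870912) (W2 := 536870912) (P3 := 67108864) (W3 := 67108864) (N0 := 3)
    rfl rfl rfl (fun _ => rfl) k0_pp_011

noncomputable def cut_pp_012 : Cut := Cut.of [[⟨0, 0, 0, 67108864⟩, ⟨1, 1, 0, 67108864⟩, ⟨2, 1, 0, 67108864⟩]]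

noncomputable def f_pp_012 : ℕ → ℕ → ℕ → ℕ → Bool := onCell 0 536870912 536870912 536870912 67108864 67108864
    (rowNK 3 1 false true true .pnp 0 1 2 (qsf 0 536870912 1073741824 536870912 1) ndN0q0 ndN4q2 pcN1 cut_pp_012 Ext.none)

def k0_pp_012 : ∃ t, chk3 f_pp_012 t 1 1 1 = true :=
  ⟨(b (l 3) (a (b (l 3) (a (b (l 3) (a (b (l 3) (a (l 6) (l 3))) (l 3))) (l 3))) (l 3))), by decide +kernel⟩

theorem c_pp_012 : CertN 0 536870912 1073741824 536870912 67108864 67108864 3 false true true .pnp 0 1 2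
    ndN0q0 ndN4q2 pcN1 cut_pp_012 Ext.none :=
  certNK1 (fam := false) (s1 := true) (s2 := true) (a := 0) (b := 1) (c := 2) (cn := .pnp) (n1 := ndN0q0) (n2 := ndN4q2) (pc := pcN1) (cut := cut_pp_012) (xt := Ext.none) (P1 := 0) (W1 := 536870912) (P2 := 1073741824) (W2 := 536870912) (P3 := 67108864) (W3 := 67108864) (N0 := 3)
    rfl rfl rfl (fun _ => rfl) k0_pp_012

noncomputable def cut_pp_022 : Cut := Cut.of [[⟨0, 0, 0, 67108864⟩, ⟨1, 1, 0, 67108864⟩, ⟨2, 1, 0, 67108864⟩]]

noncomputable def f_pp_022 : ℕ → ℕ → ℕ → ℕ → Bool := onCell 0 536870912 1073741824 536870912 67108864 67108864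
    (rowNK 3 1 false true true .pp 0 2 2 (qsf 0 536870912 1073741824 536870912 2) ndN0q0 ndN4q2 pcN2 cut_pp_022 Ext.none)

def k0_pp_022 : ∃ t, chk3 f_pp_022 t 16 16 1 = true :=
  ⟨(b (l 6) (a (l 6) (b (l 6) (a (l 6) (b (l 6) (a (l 6) (b (l 6) (l 16766456)))))))), by decide +kernel⟩

def k1_pp_022 : ∃ t, chk3 f_pp_022 t 17 32 1 = true :=
  ⟨(a (a (l 6) (l 3)) (l 3)), by decide +kernel⟩

def k2_pp_022 : ∃ t, chk3 f_pp_022 t 68 66 1 = true :=
  ⟨(b (l 6) (a (l 6) (a (l 6) (a (l 6) (b (l 6) (l 16777288)))))), by decide +kernel⟩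

def k3_pp_022 : ∃ t, chk3 f_pp_022 t 69 132 1 = true :=
  ⟨(a (a (l 6) (l 3)) (l 3)), by decide +kernel⟩

def k4_pp_022 : ∃ t, chk3 f_pp_022 t 138 133 1 = true :=
  ⟨(b (b (a (l 6) (b (a (l 6) (l 3)) (b (a (l 6) (l 3)) (b (a (l 6) (c (l 310479169031) (l 327122166567))) (a (l 16782120) (a (a (a (l 152639121527) (l 226727307687)) (l 278803786711)) (l 3))))))) (a (l 16780208) (b (a (l 16782696) (b (b (a (a (l 16781248) (a (l 16782736) (l 219747985895))) (c (l 309405426535) (l 317995360407))) (a (l 16781128) (a (a (l 16782760) (l 209547438583)) (l 274508819543)))) (a (l 16780704) (c (c (l 66202904023) (l 16781376)) (l 16781768))))) (l 16782128)))) (a (c (l 16778032) (l 16779032)) (c (l 16780576) (l 16780240)))), by decide +kernel⟩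

def k5_pp_022 : ∃ t, chk3 f_pp_022 t 139 133 1 = true :=
  ⟨(b (a (b (l 3) (b (a (b (l 3) (a (b (a (l 269140110439) (l 3)) (a (a (l 16781480) (l 193441311351)) (l 263771401335))) (l 3))) (l 3)) (a (b (a (c (l 16782160) (l 16781136)) (b (c (l 293836170135) (l 301352362183)) (a (c (l 138680477367) (l 16781392)) (l 253033983143)))) (c (l 16782552) (l 16780872))) (b (l 3) (a (b (a (a (l 236927855479) (l 279340657719)) (l 312626652023)) (a (c (l 16781792) (l 16781424)) (c (l 242296564311) (l 242296563623)))) (c (l 315311007655) (l 328195908775))))))) (l 3)) (b (a (a (l 16782208) (a (c (l 16782016) (l 16782952)) (b (b (b (c (c (l 252497112199) (l 252497111831)) (l 251423369879)) (a (l 16782952) (c (l 229948533415) (l 229411661815)))) (c (l 16781592) (l 16781216))) (l 16780544)))) (a (a (b (b (c (l 315311007671) (l 327659037863)) (b (a (a (l 203104988167) (l 265918885095)) (l 277193174823)) (a (l 16781672) (c (l 215989889623) (l 215989888983))))) (l 16782464)) (b (c (l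 311016041095) (l 328195909463)) (b (b (a (c (l 209010567847) (l 208473696135)) (l 279340658487)) (a (l 16781704) (c (l 202031245911) (l 200420632583)))) (l 16781456)))) (b (l 3) (a (b (c (l 314237265863) (l 327122166951)) (b (a (c (l 195051924199) (l 192367568951)) (l 276119432999)) (a (l 16781736) (c (l 186998860455) (l 184314505159))))) (c (l 311016041031) (l 326585296663)))))) (a (l 16780408) (b (a (l 16780288) (b (b (a (l 16781608) (a (c (l 178945796743) (l 16782392)) (l 276119432967))) (c (l 58149841303) (l 16781400))) (l 16781184))) (l 16782312))))), by decide +kernel⟩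

def k6_pp_022 : ∃ t, chk3 f_pp_022 t 34 67 1 = true :=
  ⟨(a (b (a (a (l 6) (a (l 6) (b (l 6) (l 16778256)))) (a (b (l 16774520) (l 16769648)) (b (b (l 16778248) (l 16775808)) (l 16772152)))) (a (b (a (l 16772168) (l 16773640)) (l 16769440)) (b (b (l 16777712) (l 16775264)) (a (l 16771640) (l 16773072))))) (b (a (c (b (a (l 16779696) (l 16782240)) (b (l 16777288) (l 16785320))) (a (l 16773040) (b (l 16781920) (l 16777032)))) (b (a (l 16778056) (c (l 16780768) (l 16779080))) (a (l 16779704) (l 16776984)))) (a (b (l 16765768) (a (l 16775320) (l 16777824))) (b (a (a (l 16784640) (l 16785904)) (l 16777296)) (l 16771104))))), by decide +kernel⟩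

def k7_pp_022 : ∃ t, chk3 f_pp_022 t 35 66 1 = true :=
  ⟨(b (l 3) (b (l 3) (b (l 3) (a (a (a (b (a (a (b (c (l 307257943895) (l 316921619511)) (b (a (c (l 16782784) (l 16781736)) (l 265382014695)) (a (l 16781720) (a (l 16781888) (l 16783280))))) (c (c (l 300815493783) (l 308331686135)) (l 317458491031))) (l 3)) (a (b (b (a (l 16781584) (a (c (l 16782136) (l 16781736)) (l 253033983703))) (l 16782888)) (l 16781160)) (b (a (a (b (l 312089781591) (l 246591532759)) (l 321753460935)) (l 3)) (a (b (a (l 16783240) (l 239612210903)) (c (l 16782016) (l 16781616))) (a (b (l 278266916743) (l 231559147223)) (l 321216589959)))))) (l 3)) (l 3)) (l 3))))), by decide +kernel⟩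

def k8_pp_022 : ∃ t, chk3 f_pp_022 t 35 268 1 = true :=
  ⟨(a (b (a (b (a (a (l 16780272) (a (l 16781136) (b (a (l 16783120) (b (l 224042954471) (l 16781920))) (l 16781408)))) (a (a (b (b (l 318532235351) (c (l 240149081847) (l 238538468439))) (b (a (l 16781912) (l 210084310871)) (l 16781792))) (b (l 3) (b (l 317995364375) (a (l 202031247159) (l 276656304151))))) (l 3))) (a (l 16782272) (a (a (l 16781096) (a (l 16781512) (c (l 66739776263) (l 16781568)))) (b (a (b (l 312626655191) (a (l 185388248679) (l 276656304103))) (l 3)) (b (a (a (l 16781896) (l 176798314087)) (l 302426107799)) (a (l 16781760) (a (l 168208379495) (l 266992627655)))))))) (l 3)) (a (b (a (l 16783672) (c (a (l 16780400) (l 16782856)) (l 16781880))) (l 16782328)) (a (a (b (b (a (b (l 291688689511) (a (l 16783392) (l 253033983911))) (l 321216590551)) (a (c (l 16782064) (l 16781648)) (b (l 258402693895) (a (l 16782072) (l 237464727463))))) (l 16783920)) (b (c (c (l 307794817031) (l 315311009367))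 (l 327122168775)) (b (a (b (l 247665275607) (a (l 16782064) (l 222432341975))) (l 320679719479)) (b (a (l 16781944) (c (l 237464727479) (l 235854114055))) (c (l 77477193607) (l 16781728)))))) (b (l 3) (a (c (l 310479171207) (l 326585297687)) (l 3)))))) (l 3)), by decide +kernel⟩

def k9_pp_022 : ∃ t, chk3 f_pp_022 t 35 269 1 = true :=
  ⟨(a (b (a (l 16780488) (a (c (l 16782912) (l 16782496)) (a (b (a (a (c (l 73719096599) (l 16781704)) (b (c (l 222969212903) (l 220821728519)) (l 16781896))) (b (l 313700397463) (a (c (l 129016802263) (l 16781912)) (c (l 211694923687) (l 208473697511))))) (l 16781192)) (b (c (c (l 305110462119) (l 311552912631)) (l 321216588391)) (b (a (b (c (l 202031247239) (l 198273150151)) (l 16783416)) (l 297057400343)) (a (l 16781720) (b (a (l 16782192) (l 245517791303)) (l 16782080)))))))) (a (l 16778024) (c (l 16782944) (l 16781224)))) (a (b (b (l 3) (b (l 3) (a (a (a (a (l 253570855799) (l 322290329463)) (l 3)) (l 3)) (l 3)))) (a (a (b (b (b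 (a (c (l 175187701479) (l 170355862423)) (l 321753458487)) (a (l 16782064) (l 242296566583))) (c (l 66739776743) (l 16781712))) (l 16781072)) (a (b (b (l 3) (a (l 232096019239) (l 318532232903))) (c (l 16782096) (l 16781672))) (b (l 3) (b (c (l 235854115495) (l 234243502135)) (c (l 98952031015) (l 16781896)))))) (b (l 3) (b (l 3) (a (a (c (c (l 227264180887) (l 226190438663)) (l 224579825847)) (l 323364071815)) (l 3)))))) (l 3))), by decide +kernel⟩

def k10_pp_022 : ∃ t, chk3 f_pp_022 t 35 135 1 = true :=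
  ⟨(b (a (a (a (l 16779688) (l 16782056)) (c (l 16780528) (l 16780152))) (b (b (a (a (l 16785688) (a (b (a (c (l 16782296) (l 16781864)) (a (c (l 194515054535) (l 190756957319)) (l 262697661431))) (c (l 16782024) (l 16781592))) (b (l 319069107671) (a (a (c (l 178945797959) (l 174650829879)) (l 248202146743)) (l 322290329783))))) (l 3)) (a (a (l 16779216) (b (a (l 16781232) (a (l 16782024) (b (l 240685953943) (l 161765929367)))) (l 16783816))) (a (a (b (l 318532236535) (a (b (l 228337922951) (l 146196672711)) (l 314237265911))) (l 3)) (l 3)))) (a (l 16783776) (a (a (a (l 16783720) (a (l 16783472) (b (b (l 213305537463) (l 16782040)) (l 16781192)))) (a (b (b (l 304573594631) (a (l 16782264) (l 200420635479))) (l 16781600)) (b (l 302426111527) (c (l 80161549847) (l 16781888))))) (a (b (l 3) (b (a (l 280951274311) (l 3)) (a (a (l 16782200) (l 169282122263)) (l 270213855991)))) (l 3)))))) (b (a (a (l 16777152) (l 16781856)) (a (l 16781288) (a (l 16784760) (a (c (l 16782664)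 (l 16783608)) (b (b (a (l 240149083847) (l 3)) (a (c (l 16782464) (l 16782024)) (l 231022278295))) (l 16784312)))))) (a (a (l 16785160) (l 16779368)) (a (l 16784040) (l 16783424))))), by decide +kernel⟩

def k11_pp_022 : ∃ t, chk3 f_pp_022 t 9 16 1 = true :=
  ⟨(a (b (l 3) (b (l 3) (a (b (l 3) (a (b (l 3) (a (a (b (a (b (l 318532238935) (b (a (c (l 219747988327) (l 216526761959)) (l 323900942679)) (a (l 16782168) (a (l 184851378823) (l 248739017751))))) (b (l 3) (l 317995369063))) (a (l 16783632) (b (b (a (c (l 196662539079) (l 193441312711)) (l 321753458791)) (a (l 16782080) (a (l 16783712) (l 223506084839)))) (l 16781504)))) (b (l 3) (a (b (l 314237272407) (a (c (l 95193934471) (l 16782688)) (b (l 300815492983) (a (l 16782328) (l 195051926295))))) (b (l 3) (l 304036724807))))) (l 3))) (l 3))) (l 3)))) (l 3)), by decide +kernel⟩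

def k12_pp_022 : ∃ t, chk3 f_pp_022 t 8 34 1 = true :=
  ⟨(a (a (a (l 6) (a (l 6) (b (l 6) (b (l 6) (l 16727680))))) (b (a (a (l 6) (b (l 6) (l 16732376))) (b (a (l 16743104) (l 16746184)) (a (l 16735552) (l 16754392)))) (b (a (a (l 16737960) (l 16741232)) (a (l 16744440) (l 16747568))) (a (a (l 16710144) (l 16713448)) (a (l 16737648) (l 16740800)))))) (a (b (a (b (a (a (l 16763528) (l 16765016)) (b (l 16768920) (l 16765496))) (a (l 16757424) (l 16760376))) (b (a (b (a (l 16771064) (l 16772880)) (l 16768360)) (b (l 16776640) (c (l 16758888) (l 16771544)))) (a (l 16763264) (b (l 16767776) (l 16764400))))) (a (a (b (l 16750624) (l 16743888)) (a (l 16757352) (l 16758832))) (b (a (l 16756520) (l 16759368)) (a (l 16749840) (l 16752712))))) (b (a (a (b (b (l 16781432) (l 16776448)) (b (c (l 16801432) (l 16771320)) (l 16767368))) (b (c (l 16770392) (l 16770352)) (b (l 16776096) (c (l 16834184) (l 16770928))))) (a (b (b (c (l 16797080) (l 16780104)) (c (l 16809424) (l 16785584)))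 (b (l 16780720) (l 16758928))) (b (b (c (l 16785304) (l 16784712)) (c (l 16808888) (l 16790184))) (l 16769952)))) (b (a (a (l 16762352) (b (l 16767064) (l 16749032))) (a (l 16771776) (l 16790784))) (a (a (l 16755720) (l 16769408)) (c (l 16892024) (l 16763272))))))), by decide +kernel⟩

def k13_pp_022 : ∃ t, chk3 f_pp_022 t 18 136 1 = true :=
  ⟨(a (b (a (b (a (a (l 16789608) (a (l 16780800) (a (c (l 16783376) (l 16781392)) (b (b (l 273971952423) (a (l 16782248) (l 16783752))) (l 16781560))))) (a (b (a (c (l 290614952167) (l 303499847911)) (l 3)) (b (a (a (l 16783616) (l 233169761959)) (l 3)) (c (a (l 16782760) (l 262697663831)) (a (l 16781808) (l 271824463255))))) (l 3))) (a (l 16783000) (a (a (l 16780568) (b (b (a (l 16782216) (l 211158054407)) (l 16781928)) (l 16781056))) (a (b (b (l 321216588519) (a (l 197199410439) (l 319605975063))) (c (l 81772162983) (l 16783176))) (b (l 3) (b (l 307257944503) (a (l 170892735479) (l 296520525575)))))))) (l 3)) (a (a (l 16778592)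 (a (l 16781368) (b (c (c (l 39896231367) (l 16783608)) (l 16783272)) (l 16782568)))) (a (b (a (a (b (b (l 291151822103) (a (l 140827963895) (l 248739018439))) (l 16782504)) (b (l 3) (b (l 273971952631) (a (l 16782280) (l 226190439991))))) (a (l 318532241335) (l 3))) (a (l 16781928) (b (a (b (l 254644599527) (a (l 16782168) (l 200957506743))) (l 319069105271)) (b (a (l 16781872) (a (l 185925121047) (l 307794814727))) (c (l 64055422679) (l 16781584)))))) (a (a (b (l 3) (l 311552918759)) (l 3)) (l 3))))) (l 3)), by decide +kernel⟩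

def k14_pp_022 : ∃ t, chk3 f_pp_022 t 18 137 1 = true :=
  ⟨(a (a (b (a (l 16782320) (l 16786304)) (a (l 16788640) (l 16793376))) (a (b (c (l 16783624) (l 16782976)) (l 16793192)) (b (a (b (a (a (l 54928617575) (b (b (l 257865823895) (l 16783648)) (l 16782080))) (b (l 294373047863) (a (l 86067129863) (b (l 234243503575) (l 16782216))))) (l 16784136)) (a (b (b (l 3) (l 280414403799)) (b (c (l 96804548599) (l 16783216)) (l 16783096))) (b (l 3) (b (c (l 263234534711) (l 273971952103)) (l 80698421543))))) (l 16783912)))) (a (b (a (b (l 3) (a (b (l 3) (b (l 306721074279) (a (a (l 161229058487) (l 261087049223)) (l 3)))) (l 3))) (l 3)) (b (a (a (b (a (l 16781904) (b (l 282025010839) (a (l 16782224) (l 236390987047)))) (l 16783232)) (b (l 3) (a (a (a (l 141901705735) (l 188609475895)) (l 256792088055)) (l 320679717655)))) (l 3)) (a (b (a (l 16785472) (b (a (l 16782408) (l 236927864119)) (l 68887261223))) (l 16786088)) (a (b (l 313163536103) (a (b (l 203104990775) (l 105394482871))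 (l 294373042135))) (l 3))))) (l 3))), by decide +kernel⟩

def k15_pp_022 : ∃ t, chk3 f_pp_022 t 18 69 1 = true :=
  ⟨(a (a (b (a (l 16781288) (l 16786752)) (c (l 16882040) (l 16778280))) (a (b (l 16782144) (l 16812800)) (b (c (l 16788496) (l 16779728)) (l 16810264)))) (a (a (b (c (l 16783264) (l 16782984)) (l 16804736)) (b (b (b (b (a (a (l 16783648) (c (l 113984417687) (l 109152578647))) (l 287930602359)) (a (l 16785192) (a (l 95730806967) (l 255181475255)))) (a (l 16789544) (a (l 16786048) (l 54928617111)))) (l 16786264)) (l 16775848))) (a (a (b (b (b (l 3) (b (c (l 247665280903) (l 254107733623)) (a (l 74255968823) (b (l 270213850071) (l 171966477079))))) (l 16784000)) (l 16789608)) (b (b (l 3) (b (b (a (b (l 244444056439) (l 142438576087)) (l 313163524007)) (a (l 16783768) (l 140291093063))) (l 16787232))) (l 16784312))) (b (b (l 3) (a (b (l 311016052855) (b (a (l 119353126935) (l 278266924279)) (l 72645357159))) (b (l 3) (l 284172506247)))) (a (l 16783912) (b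 (b (b (a (l 16781304) (l 210621183335)) (l 16784568)) (l 16789944)) (l 16801440))))))), by decide +kernel⟩

def k16_pp_022 : ∃ t, chk3 f_pp_022 t 19 34 1 = true :=
  ⟨(b (l 3) (a (b (l 3) (a (b (a (b (a (a (b (l 3) (l 214379282903)) (l 3)) (l 3)) (b (a (a (l 16783736) (l 153175994119)) (l 312089782423)) (a (l 16785760) (a (l 131164286567) (l 287393718871))))) (l 3)) (b (b (a (a (l 16789488) (l 80698420279)) (l 297594279383)) (a (l 16779728) (a (a (l 16781632) (l 222432348055)) (l 3)))) (a (l 16796120) (a (l 16781272) (b (l 233169766679) (a (l 16783712) (l 156397218951))))))) (l 3))) (l 3))), by decide +kernel⟩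

def k17_pp_022 : ∃ t, chk3 f_pp_022 t 8 35 1 = true :=
  ⟨(a (a (b (a (a (l 6) (l 16702712)) (a (l 16703592) (a (l 16716672) (l 16718168)))) (a (a (l 16682656) (l 16686360)) (b (l 16692696) (l 16683384)))) (b (a (b (a (l 16724152) (l 16706688)) (a (l 16696720) (l 16699984))) (a (a (l 16726736) (l 16728352)) (l 16741216))) (a (a (l 16707472) (l 16711168)) (a (l 16714304) (l 16717552))))) (a (b (a (a (l 16754824) (l 16736904)) (b (l 16744648) (l 16738824))) (a (a (l 16720728) (l 16730176)) (b (l 16792408) (l 16828048)))) (b (a (b (l 16786640) (l 16806384)) (b (l 16796440) (l 16832832))) (a (l 16749200) (l 16789256))))), by decide +kernel⟩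

def k18_pp_022 : ∃ t, chk3 f_pp_022 t 9 35 1 = true :=
  ⟨(a (a (a (b (b (l 16797600) (l 16852928)) (l 16805280)) (b (b (l 16800192) (l 16875752)) (l 16846968))) (a (b (b (l 16789912) (l 16865440)) (l 16856688)) (b (b (a (l 16818464) (l 16807616)) (l 16826152)) (l 16838104)))) (a (a (b (b (a (l 16785120) (a (l 16786008) (l 16782008))) (l 16802696)) (b (l 16859400) (l 16917048))) (a (b (b (b (a (b (b (c (l 193978184279) (l 196662533031)) (l 81235290455)) (l 16789416)) (b (l 289541214103) (a (l 16781808) (a (l 113984416535) (l 160155316071))))) (l 16788208)) (l 16803928)) (l 16837128)) (b (b (a (b (l 289541220903) (b (b (l 110226319975) (l 16786224)) (l 16792608))) (b (l 3) (b (b (l 3) (l 185925119543)) (l 59760452791)))) (l 16790104)) (l 16802480)))) (b (b (a (b (l 3) (b (l 3) (b (l 307794829063) (a (a (l 138680478391) (l 3)) (l 3))))) (l 3)) (a (a (b (b (a (l 16782008) (a (l 112910673815) (l 210084309975))) (l 16781984)) (l 16784896)) (a (b (b (l 3) (b (l 163376541111)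 (l 16781440))) (l 16784632)) (b (l 298131159575) (a (l 16779248) (b (l 114521285655) (l 16790616)))))) (a (b (l 3) (b (l 273971966343) (a (l 62444805559) (c (l 205789346903) (l 209010571975))))) (l 3)))) (b (b (a (l 16795848) (a (l 28621936967) (a (b (a (l 110763188071) (l 207936829847)) (l 16778416)) (b (l 3) (a (l 68887255191) (l 144049185047)))))) (a (l 16814104) (l 16782664))) (a (l 16841704) (b (l 16803704) (l 16843136))))))), by decide +kernel⟩

def k19_pp_022 : ∃ t, chk3 f_pp_022 t 4 9 1 = true :=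
  ⟨(b (a (a (b (b (b (a (a (l 16674664) (l 16671472)) (a (l 16699320) (l 16685328))) (a (a (l 16667912) (l 16664840)) (a (l 16671992) (l 16717864)))) (a (a (l 16662808) (a (l 16652872) (l 16656640))) (a (l 16704080) (l 16747896)))) (b (a (a (l 16644224) (l 16662576)) (a (l 16786704) (l 16834224))) (a (a (l 16630944) (l 16784304)) (c (a (l 17507280) (l 17546952)) (a (l 16635080) (l 16813384)))))) (b (b (a (a (l 16752032) (l 16790352)) (a (l 16849024) (l 16899608))) (a (a (l 16832760) (l 16888848)) (a (l 16952784) (l 17035024)))) (a (a (c (l 17347896) (l 16685880)) (b (l 17027832) (l 17162968))) (c (l 17458888) (b (l 16927520) (l 17104864)))))) (b (a (a (b (a (l 16951144) (l 16988912)) (l 16866904)) (b (a (l 16996288) (l 16997312)) (l 17044056))) (b (a (a (l 16973200) (l 16925504)) (a (l 16897296) (l 16826472))) (a (l 17014400) (l 16935840)))) (a (a (b (l 17140680) (l 17287728)) (b (l 17164384) (l 17241832))) (a (l 17084496) (l 16981928))))) (a (a (b (a (a (c (b (l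 17262744) (l 17720664)) (l 16619272)) (c (b (l 17613912) (l 17781168)) (l 16722432))) (c (a (l 17736080) (l 17743016)) (a (l 16808928) (l 16941520)))) (c (a (a (l 17977840) (l 17995872)) (l 17979584)) (a (a (l 16807528) (l 17059048)) (a (l 17238392) (l 17317176))))) (a (b (c (l 17718472) (a (l 17115376) (l 17195056))) (c (l 17911784) (l 17385216))) (b (b (l 17358944) (l 17490864)) (l 17618032)))) (a (b (a (l 17409920) (l 17354528)) (a (l 17562016) (l 17495696))) (b (a (l 17291144) (l 17225800)) (l 17390368))))), by decide +kernel⟩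

def k20_pp_022 : ∃ t, chk3 f_pp_022 t 4 5 1 = true :=
  ⟨(b (b (b (a (a (c (a (l 18240320) (l 18175000)) (a (a (l 17277920) (l 17439888)) (l 17529272))) (a (l 17827648) (l 17771824))) (a (l 17663528) (l 17509536))) (b (a (a (a (l 17916840) (l 17994872)) (l 17914048)) (a (l 17758064) (l 17596256))) (a (a (a (l 18105320) (l 18080640)) (l 17985408)) (b (l 17721256) (l 17752440))))) (a (a (a (l 18286136) (l 18267880)) (l 18143040)) (a (l 17959632) (l 17783368)))) (a (a (b (l 18546256) (l 18716000)) (l 18417320)) (b (l 18035160) (l 18156784)))), by decide +kernel⟩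

def k21_pp_022 : ∃ t, chk3 f_pp_022 t 5 8 1 = true :=
  ⟨(a (b (l 3) (b (l 3) (a (b (l 3) (a (b (a (b (l 326048451207) (a (b (a (c (l 80698414999) (l 81235285655)) (l 235317245991)) (l 44191192199)) (c (l 278266943303) (l 283098781111)))) (l 3)) (a (a (l 16791248) (b (a (l 16781704) (b (a (l 87140864983) (l 167134639783)) (l 16779144))) (l 16786088))) (b (b (l 3) (a (a (c (l 96267670055) (l 92509573559)) (l 3)) (l 3))) (b (a (c (l 47412415175) (l 16778288)) (l 300815506727)) (a (l 16776424) (a (l 16781560) (l 136532989207))))))) (l 3))) (l 3)))) (l 3)), by decide +kernel⟩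

def k22_pp_022 : ∃ t, chk3 f_pp_022 t 10 18 1 = true :=
  ⟨(b (a (b (b (a (a (l 16820984) (a (l 16799488) (b (l 16781368) (l 16815496)))) (a (b (a (a (c (b (l 95730797127) (l 16783136)) (l 71571606279)) (b (l 3) (l 57612961703))) (l 331417150951)) (b (a (l 16786384) (a (l 16778520) (l 142975439463))) (c (l 25937584183) (l 16784888)))) (b (l 3) (a (c (l 298131172615) (l 300278656151)) (l 3))))) (a (a (l 16878800) (l 16829120)) (a (b (a (l 16819784) (l 16784744)) (l 16830952)) (b (b (a (c (l 51707381367) (l 16777864)) (l 3)) (a (l 16785880) (a (l 16780896) (l 144586052087)))) (c (l 16780816) (l 16778176)))))) (b (a (l 16879968) (a (l 16858128) (b (l 16800160) (l 16839072)))) (a (l 16937176) (l 16837856)))) (b (a (b (l 3) (a (a (b (l 3) (b (l 217063644215) (l 50096769191))) (l 3)) (l 3))) (l 3)) (a (b (a (a (b (l 16779752) (l 16818576)) (a (l 33990641767) (b (a (l 68887251463) (l 111836926519)) (l 16801912)))) (b (l 321216625431) (a (l 38285609255) (l 194515067927))))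 (a (l 16817432) (c (l 16779808) (l 16786480)))) (b (l 3) (a (a (b (c (l 117205637511) (l 115595024567)) (l 16780536)) (b (l 3) (l 72108477911))) (l 328195951287)))))) (a (a (b (l 16990832) (l 17060776)) (b (l 16890704) (l 17001368))) (a (b (b (a (l 16873360) (l 16846688)) (l 16894224)) (l 16944736)) (b (b (a (b (l 16791488) (l 16829552)) (a (l 16781520) (b (l 139217346871) (l 16777896)))) (a (l 16854952) (l 16809096))) (l 16850144))))), by decide +kernel⟩

def k23_pp_022 : ∃ t, chk3 f_pp_022 t 11 18 1 = true :=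
  ⟨(b (l 3) (a (b (a (b (a (b (l 3) (a (l 90898960839) (l 285246227319))) (l 3)) (a (l 16780040) (b (l 282025023047) (l 74255963975)))) (b (l 3) (l 351281375127))) (a (b (l 16785464) (l 16838608)) (b (a (b (l 125258704599) (l 16780968)) (l 292225593031)) (a (l 16804728) (l 16783448))))) (b (l 3) (a (b (l 3) (a (l 152639136055) (l 3))) (l 3))))), by decide +kernel⟩

def k24_pp_022 : ∃ t, chk3 f_pp_022 t 5 19 1 = true :=
  ⟨(a (b (a (a (l 17161840) (l 17100456)) (a (l 17042056) (l 16945832))) (a (l 17255904) (l 17135024))) (b (a (b (a (l 16885856) (b (l 16825040) (l 16876568))) (l 16881232)) (b (a (b (a (l 16793736) (l 93583319303)) (l 16792856)) (b (a (l 280951280311) (l 3)) (a (l 16784992) (l 132238030295)))) (a (l 16857936) (b (a (l 16835072) (l 16795720)) (l 16854304))))) (a (l 16968056) (b (l 16852680) (l 16970064))))), by decide +kernel⟩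

def k25_pp_022 : ∃ t, chk3 f_pp_022 t 5 5 1 = true :=
  ⟨(b (b (b (a (a (l 17371232) (l 17246392)) (a (l 17139032) (l 17048240))) (b (a (a (l 17448888) (l 17323488)) (l 17165928)) (a (b (l 17422992) (b (l 17442568) (l 17456608))) (b (l 17200680) (b (l 17217288) (l 17228432)))))) (a (a (l 17620840) (l 17483960)) (l 17211960))) (a (b (l 17702744) (l 17825080)) (l 17526544))), by decide +kernel⟩

def k26_pp_022 : ∃ t, chk3 f_pp_022 t 2 3 1 = true :=
  ⟨(a (b (a (b (l 18730392) (l 18806008)) (b (l 18292032) (l 18398088))) (a (l 18805992) (l 18459192))) (b (a (l 18296552) (l 17996960)) (a (l 18195544) (l 2)))), by decide +kernel⟩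

def k27_pp_022 : ∃ t, chk3 f_pp_022 t 3 1 1 = true :=
  ⟨(b (b (b (l 3) (a (b (l 3) (a (b (a (b (a (l 350744517191) (l 3)) (a (b (a (l 16778296) (l 177335191127)) (l 16797792)) (l 291688785543))) (l 3)) (a (b (a (l 16818024) (l 16785056)) (l 16833032)) (b (a (b (l 189683218279) (l 16810048)) (l 301889272823)) (a (l 16806664) (l 16799640))))) (b (l 3) (a (b (l 3) (a (l 148344173975) (l 297594282711))) (l 3))))) (l 3))) (a (b (b (b (b (a (a (l 16946936) (l 16820944)) (a (a (l 16822632) (l 16819824)) (a (l 137606750407) (l 268603253367)))) (a (a (l 16996120) (l 16931784)) (a (l 16920128) (l 16791832)))) (b (a (l 17156136) (a (l 16923288) (l 16898872))) (b (a (l 17042288) (l 16972920)) (a (b (l 17057800) (l 17067888)) (b (l 16966400) (l 16954760)))))) (a (l 17297200) (b (l 17038000) (l 17065448)))) (a (l 17433520) (b (l 17160448) (l 2)))) (b (b (b (b (b (l 3) (l 2)) (l 2)) (l 2)) (l 2)) (l 2)))) (a (b (b (a (l 17548200) (l 2)) (l 2)) (l 2)) (l 2))), by decide +kernel⟩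

theorem s28_pp_022 : ∃ t, chk3 f_pp_022 t 5 18 1 = true := ex3_a k22_pp_022 k23_pp_022

theorem s29_pp_022 : ∃ t, chk3 f_pp_022 t 5 9 1 = true := ex3_b s28_pp_022 k24_pp_022

theorem s30_pp_022 : ∃ t, chk3 f_pp_022 t 5 4 1 = true := ex3_b k21_pp_022 s29_pp_022

theorem s31_pp_022 : ∃ t, chk3 f_pp_022 t 5 2 1 = true := ex3_b s30_pp_022 k25_pp_022

theorem s32_pp_022 : ∃ t, chk3 f_pp_022 t 4 35 1 = true := ex3_a k17_pp_022 k18_pp_022

theorem s33_pp_022 : ∃ t, chk3 f_pp_022 t 18 68 1 = true := ex3_b k13_pp_022 k14_pp_022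

theorem s34_pp_022 : ∃ t, chk3 f_pp_022 t 18 34 1 = true := ex3_b s33_pp_022 k15_pp_022

theorem s35_pp_022 : ∃ t, chk3 f_pp_022 t 9 34 1 = true := ex3_a s34_pp_022 k16_pp_022

theorem s36_pp_022 : ∃ t, chk3 f_pp_022 t 4 34 1 = true := ex3_a k12_pp_022 s35_pp_022

theorem s37_pp_022 : ∃ t, chk3 f_pp_022 t 4 17 1 = true := ex3_b s36_pp_022 s32_pp_022

theorem s38_pp_022 : ∃ t, chk3 f_pp_022 t 35 134 1 = true := ex3_b k8_pp_022 k9_pp_022

theorem s39_pp_022 : ∃ t, chk3 f_pp_022 t 35 67 1 = true := ex3_b s38_pp_022 k10_pp_022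

theorem s40_pp_022 : ∃ t, chk3 f_pp_022 t 35 33 1 = true := ex3_b k7_pp_022 s39_pp_022

theorem s41_pp_022 : ∃ t, chk3 f_pp_022 t 69 133 1 = true := ex3_a k4_pp_022 k5_pp_022

theorem s42_pp_022 : ∃ t, chk3 f_pp_022 t 69 66 1 = true := ex3_b k3_pp_022 s41_pp_022

theorem s43_pp_022 : ∃ t, chk3 f_pp_022 t 34 66 1 = true := ex3_a k2_pp_022 s42_pp_022

theorem s44_pp_022 : ∃ t, chk3 f_pp_022 t 34 33 1 = true := ex3_b s43_pp_022 k6_pp_022

theorem s45_pp_022 : ∃ t, chk3 f_pp_022 t 17 33 1 = true := ex3_a s44_pp_022 s40_pp_022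

theorem s46_pp_022 : ∃ t, chk3 f_pp_022 t 17 16 1 = true := ex3_b k1_pp_022 s45_pp_022

theorem s47_pp_022 : ∃ t, chk3 f_pp_022 t 8 16 1 = true := ex3_a k0_pp_022 s46_pp_022

theorem s48_pp_022 : ∃ t, chk3 f_pp_022 t 4 16 1 = true := ex3_a s47_pp_022 k11_pp_022

theorem s49_pp_022 : ∃ t, chk3 f_pp_022 t 4 8 1 = true := ex3_b s48_pp_022 s37_pp_022

theorem s50_pp_022 : ∃ t, chk3 f_pp_022 t 4 4 1 = true := ex3_b s49_pp_022 k19_pp_022

theorem s51_pp_022 : ∃ t, chk3 f_pp_022 t 4 2 1 = true := ex3_b s50_pp_022 k20_pp_022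

theorem s52_pp_022 : ∃ t, chk3 f_pp_022 t 2 2 1 = true := ex3_a s51_pp_022 s31_pp_022

theorem s53_pp_022 : ∃ t, chk3 f_pp_022 t 2 1 1 = true := ex3_b s52_pp_022 k26_pp_022

theorem s54_pp_022 : ∃ t, chk3 f_pp_022 t 1 1 1 = true := ex3_a s53_pp_022 k27_pp_022

theorem c_pp_022 : CertN 0 536870912 1073741824 536870912 67108864 67108864 3 false true true .pp 0 2 2
    ndN0q0 ndN4q2 pcN2 cut_pp_022 Ext.none :=
  certNK1 (fam := false) (s1 := true) (s2 := true) (a := 0) (b := 2) (c := 2) (cn := .pp) (n1 := ndN0q0) (n2 := ndN4q2) (pc := pcN2) (cut := cut_pp_022) (xt := Ext.none) (P1 := 0) (W1 := 536870912) (P2 := 1073741824) (W2 := 536870912) (P3 := 67108864) (W3 := 67108864) (N0 := 3)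
    rfl rfl rfl (fun _ => rfl) s54_pp_022

noncomputable def f_pp_023 : ℕ → ℕ → ℕ → ℕ → Bool := onCell 1073741824 536870912 0 1230186008 67108864 67108864
    (rowNK 3 2 false true true .up 0 2 3 (qsf 0 536870912 0 1230186008 2) ndN0q0 ndN4q3 pcN2 Cut.none Ext.none)

def k0_pp_023 : ∃ t, chk3 f_pp_023 t 1 1 1 = true :=
  ⟨(a (b (l 2) (b (a (l 2) (a (l 2) (b (l 2) (l 380206056887)))) (a (b (l 2) (l 3)) (a (a (b (a (l 3) (a (l 3) (b (l 2) (a (l 265919028695) (a (l 25870654391) (l 16808888)))))) (a (b (l 3) (b (a (l 3) (l 290615044231)) (a (l 329269728567) (b (l 142975464471) (l 16796816))))) (a (b (b (l 291688742247) (l 261624081063)) (b (a (l 79624699703) (l 16813864)) (l 16839312))) (b (a (b (l 16806656) (l 16807456)) (a (a (l 16872016) (l 16834848)) (l 16842016))) (a (b (l 16858536) (l 16898232)) (a (a (l 16892328) (l 16876984)) (l 16885440))))))) (b (b (l 374299966295) (b (l 16870920) (l 16886288))) (b (b (l 16888040) (l 17022824)) (b (l 17040776) (l 17069264)))))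 (a (b (b (l 16973720) (l 17012120)) (b (l 17077920) (l 17181288))) (b (l 17183120) (b (l 17231976) (l 17358832)))))))) (b (a (l 2) (b (l 17246384) (a (l 17123264) (l 17244312)))) (b (a (b (a (l 2) (l 17311344)) (a (l 17201936) (l 17402032))) (b (l 17609680) (b (l 17665152) (l 17733992)))) (b (a (b (l 17468488) (l 17622360)) (l 17899800)) (a (b (l 17753168) (a (l 17620800) (l 17958800))) (b (l 18163440) (l 18440600))))))), by decide +kernel⟩

theorem c_pp_023 : CertN 0 536870912 0 1230186008 67108864 67108864 3 false true true .up 0 2 3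
    ndN0q0 ndN4q3 pcN2 Cut.none Ext.none :=
  certNK2 (fam := false) (s1 := true) (s2 := true) (a := 0) (b := 2) (c := 3) (cn := .up) (n1 := ndN0q0) (n2 := ndN4q3) (pc := pcN2) (cut := Cut.none) (xt := Ext.none) (P1 := 0) (W1 := 536870912) (P2 := 0) (W2 := 1230186008) (P3 := 67108864) (W3 := 67108864) (N0 := 3)
    rfl rfl rfl (fun _ => rfl) k0_pp_023

noncomputable def f_pp_033 : ℕ → ℕ → ℕ → ℕ → Bool := onCell 1610612736 536870912 0 1230186008 67108864 67108864
    (rowNK 3 2 false true true .pnn 0 3 3 (qsf 0 536870912 0 1230186008 3) ndN0q0 ndN4q3 pcN3 Cut.none Ext.none)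

def k0_pp_033 : ∃ t, chk3 f_pp_033 t 1 1 1 = true :=
  ⟨(a (b (a (b (b (l 16830064) (a (l 17390656) (l 17132560))) (b (a (l 17041008) (l 17104216)) (a (b (l 18018280) (l 18570024)) (l 17922624)))) (b (a (l 17224968) (l 17284192)) (a (b (l 17028920) (l 17533528)) (b (l 17135688) (l 17329968))))) (b (a (b (a (b (l 18456144) (l 17817568)) (b (l 18654152) (l 18381128))) (b (a (l 17475440) (l 17872000)) (l 17746760))) (a (b (b (l 18302504) (l 18663104)) (l 18292232)) (b (l 18207656) (l 18539280)))) (a (b (l 18189792) (l 19127392)) (b (l 18609736) (a (l 19259800) (l 1)))))) (b (a (b (l 17574880) (a (l 17600528) (l 17714248))) (a (l 17886848) (a (l 18054992) (b (l 4) (l 4))))) (b (a (a (b (l 17819152) (l 18609536)) (b (l 17943632) (l 18560792))) (a (l 18621096) (l 1))) (l 1)))), by decide +kernel⟩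

theorem c_pp_033 : CertN 0 536870912 0 1230186008 67108864 67108864 3 false true true .pnn 0 3 3
    ndN0q0 ndN4q3 pcN3 Cut.none Ext.none :=
  certNK2 (fam := false) (s1 := true) (s2 := true) (a := 0) (b := 3) (c := 3) (cn := .pnn) (n1 := ndN0q0) (n2 := ndN4q3) (pc := pcN3) (cut := Cut.none) (xt := Ext.none) (P1 := 0) (W1 := 536870912) (P2 := 0) (W2 := 1230186008) (P3 := 67108864) (W3 := 67108864) (N0 := 3)
    rfl rfl rfl (fun _ => rfl) k0_pp_033

noncomputable def f_pp_101 : ℕ → ℕ → ℕ → ℕ → Bool := onCell 536870912 536870912 536870912 536870912 67108864 67108864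
    (rowNK 3 0 false true true .npn 1 0 1 (qsf 536870912 536870912 536870912 536870912 0) ndN0q1 ndN4q1 pcN0 Cut.none Ext.none)

def k0_pp_101 : ∃ t, chk3 f_pp_101 t 1 1 1 = true :=
  ⟨(a (l 3) (l 5)), by decide +kernel⟩

theorem c_pp_101 : CertN 536870912 536870912 536870912 536870912 67108864 67108864 3 false true true .npn 1 0 1
    ndN0q1 ndN4q1 pcN0 Cut.none Ext.none :=
  certNK0 (fam := false) (s1 := true) (s2 := true) (a := 1) (b := 0) (c := 1) (cn := .npn) (n1 := ndN0q1) (n2 := ndN4q1) (pc := pcN0) (cut := Cut.none) (xt := Ext.none) (P1 := 536870912) (W1 := 536870912) (P2 := 536870912) (W2 := 536870912) (P3 := 67108864) (W3 := 67108864) (N0 := 3)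
    rfl rfl rfl k0_pp_101

noncomputable def f_pp_102 : ℕ → ℕ → ℕ → ℕ → Bool := onCell 536870912 536870912 1073741824 536870912 67108864 67108864
    (rowNK 3 0 false true true .npp 1 0 2 (qsf 536870912 536870912 1073741824 536870912 0) ndN0q1 ndN4q2 pcN0 Cut.none Ext.none)

def k0_pp_102 : ∃ t, chk3 f_pp_102 t 1 1 1 = true :=
  ⟨(a (l 3) (b (l 5) (l 3))), by decide +kernel⟩

theorem c_pp_102 : CertN 536870912 536870912 1073741824 536870912 67108864 67108864 3 false true true .npp 1 0 2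
    ndN0q1 ndN4q2 pcN0 Cut.none Ext.none :=
  certNK0 (fam := false) (s1 := true) (s2 := true) (a := 1) (b := 0) (c := 2) (cn := .npp) (n1 := ndN0q1) (n2 := ndN4q2) (pc := pcN0) (cut := Cut.none) (xt := Ext.none) (P1 := 536870912) (W1 := 536870912) (P2 := 1073741824) (W2 := 536870912) (P3 := 67108864) (W3 := 67108864) (N0 := 3)
    rfl rfl rfl k0_pp_102

noncomputable def f_pp_112 : ℕ → ℕ → ℕ → ℕ → Bool := onCell 536870912 536870912 1073741824 536870912 67108864 67108864
    (rowNK 3 0 false true true .dn 1 1 2 (qsf 536870912 536870912 1073741824 536870912 1) ndN0q1 ndN4q2 pcN1 Cut.none Ext.none)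

def k0_pp_112 : ∃ t, chk3 f_pp_112 t 1 1 1 = true :=
  ⟨(a (l 3) (b (l 5) (l 3))), by decide +kernel⟩

theorem c_pp_112 : CertN 536870912 536870912 1073741824 536870912 67108864 67108864 3 false true true .dn 1 1 2
    ndN0q1 ndN4q2 pcN1 Cut.none Ext.none :=
  certNK0 (fam := false) (s1 := true) (s2 := true) (a := 1) (b := 1) (c := 2) (cn := .dn) (n1 := ndN0q1) (n2 := ndN4q2) (pc := pcN1) (cut := Cut.none) (xt := Ext.none) (P1 := 536870912) (W1 := 536870912) (P2 := 1073741824) (W2 := 536870912) (P3 := 67108864) (W3 := 67108864) (N0 := 3)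
    rfl rfl rfl k0_pp_112

noncomputable def cut_pp_113 : Cut := Cut.of [[⟨0, 1, 0, 21338704⟩, ⟨1, 1, 0, 21338704⟩, ⟨2, 2, 0, 1685920⟩]]

noncomputable def f_pp_113 : ℕ → ℕ → ℕ → ℕ → Bool := onCell 536870912 536870912 0 1230186008 67108864 67108864
    (rowNK 3 2 false true true .nn 1 1 3 (qsf 536870912 536870912 0 1230186008 1) ndN0q1 ndN4q3 pcN1 cut_pp_113 Ext.none)

def k0_pp_113 : ∃ t, chk3 f_pp_113 t 1 1 1 = true :=
  ⟨(b (a (l 2) (a (l 2) (b (a (l 2) (b (a (l 2) (b (a (l 2) (b (l 6) (l 3))) (l 3))) (l 3))) (l 3)))) (b (a (a (l 2) (b (l 2) (a (l 2) (l 3)))) (a (l 3) (l 3))) (a (a (b (l 2) (l 3)) (l 3)) (l 3)))), by decide +kernel⟩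

theorem c_pp_113 : CertN 536870912 536870912 0 1230186008 67108864 67108864 3 false true true .nn 1 1 3
    ndN0q1 ndN4q3 pcN1 cut_pp_113 Ext.none :=
  certNK2 (fam := false) (s1 := true) (s2 := true) (a := 1) (b := 1) (c := 3) (cn := .nn) (n1 := ndN0q1) (n2 := ndN4q3) (pc := pcN1) (cut := cut_pp_113) (xt := Ext.none) (P1 := 536870912) (W1 := 536870912) (P2 := 0) (W2 := 1230186008) (P3 := 67108864) (W3 := 67108864) (N0 := 3)
    rfl rfl rfl (fun _ => rfl) k0_pp_113

noncomputable def cut_pp_123 : Cut := Cut.of [[⟨0, 1, 0, 21338704⟩, ⟨1, 1, 0, 21338704⟩, ⟨2, 2, 0, 1685920⟩]]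

noncomputable def f_pp_123 : ℕ → ℕ → ℕ → ℕ → Bool := onCell 1073741824 536870912 0 1230186008 67108864 67108864
    (rowNK 3 2 false true true .npn 1 2 3 (qsf 536870912 536870912 0 1230186008 2) ndN0q1 ndN4q3 pcN2 cut_pp_123 Ext.none)

def k0_pp_123 : ∃ t, chk3 f_pp_123 t 16 4 1 = true :=
  ⟨(b (b (a (b (l 6) (b (l 6) (l 3))) (b (l 16802584) (a (b (a (b (l 16803040) (a (l 6) (l 16780288))) (l 16787304)) (a (b (a (l 6) (a (l 6) (a (b (b (l 16778480) (l 262160783239)) (b (b (l 302962972839) (l 3)) (l 3))) (b (l 16778648) (b (l 273971942615) (l 320679709623)))))) (l 3)) (b (a (a (b (l 16779536) (b (l 16779592) (l 275045684391))) (l 16779904)) (l 16781736)) (b (a (a (a (l 3) (b (a (l 319605966967) (l 297594263655)) (l 3))) (a (b (l 269676975575) (l 319069101751)) (l 268066363111))) (a (l 272898203063) (l 16779776))) (a (l 3) (a (b (l 280951264807) (c (l 317458484743) (l 320679710007))) (b (l 16778504) (l 268066363127)))))))) (b (l 16798112) (a (b (l 16784304) (l 16782024))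 (l 16788944)))))) (a (l 3) (b (a (b (a (l 3) (b (a (l 3) (a (l 3) (a (l 3) (b (b (l 291688683511) (l 3)) (l 3))))) (l 3))) (l 3)) (b (a (b (a (a (b (l 273435074455) (b (l 321216581575) (l 3))) (b (l 16778824) (a (b (l 284172495559) (l 3)) (l 277193173351)))) (a (a (b (l 16779752) (l 257328945799)) (l 16779528)) (l 16780464))) (a (l 3) (b (b (c (l 272361332775) (l 272898206215)) (a (l 3) (l 276119431415))) (a (l 3) (b (c (l 316921613319) (l 319605967719)) (l 3)))))) (b (l 16783680) (a (b (l 16779760) (a (l 279340657271) (l 272898203415))) (l 16781472)))) (a (l 3) (b (a (a (l 3) (b (b (l 280951269911) (l 319605968151)) (l 3))) (a (a (b (l 262160783591) (l 3)) (l 275045689639)) (b (l 16779488) (l 270213851943)))) (a (l 3) (b (c (l 321753456679) (l 325511552551)) (l 3))))))) (l 3)))) (l 3)), by decide +kernel⟩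

def k1_pp_123 : ∃ t, chk3 f_pp_123 t 17 4 1 = true :=
  ⟨(b (a (a (b (l 16813072) (b (b (l 16810648) (a (b (a (l 16785816) (l 16783240)) (a (a (b (l 283635624983) (l 3)) (c (l 275045689623) (l 275582560471))) (a (b (l 16779896) (l 260013300423)) (l 16780352)))) (l 16785608))) (b (a (b (a (l 3) (b (a (a (l 3) (l 312626653479)) (l 272361335399)) (l 3))) (l 3)) (a (b (b (l 272361336055) (l 271287593847)) (a (l 3) (b (l 302426105927) (l 3)))) (b (l 16781528) (c (l 273971950711) (l 274508824151))))) (l 3)))) (b (l 16894544) (b (l 16881632) (b (a (b (l 16785752) (a (b (l 16781592) (l 272361336423)) (l 16783528))) (l 16789840)) (a (b (a (a (b (l 285246237783) (l 3)) (l 274508818823)) (b (l 16780784) (c (l 250349628519) (l 250886501719)))) (a (l 3) (b (c (l 290614947703) (l 292225560391)) (l 3)))) (b (l 16784184) (a (b (l 16783272) (l 267529498055)) (l 16781976)))))))) (b (l 16922448) (b (l 16919392) (a (b (l 16863032) (l 16791448)) (l 16833184))))) (b (a (b (a (l 3) (b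 (a (l 3) (b (a (a (l 3) (b (l 295983656919) (l 3))) (b (l 247665274327) (l 284172496151))) (a (l 3) (l 327122167991)))) (l 3))) (l 3)) (b (a (b (a (b (a (l 16781232) (l 16784216)) (a (l 282025017671) (l 246054666855))) (l 16786984)) (a (b (a (l 3) (b (l 277730054823) (l 324974679959))) (l 3)) (b (a (b (l 16780728) (l 255181468743)) (l 16782856)) (a (b (l 299204893511) (l 3)) (b (l 271824466823) (l 269140120999)))))) (b (l 16796744) (a (l 16785712) (l 16792272)))) (a (b (a (l 3) (b (a (l 3) (l 325511552679)) (l 3))) (l 3)) (b (a (b (a (l 268603250487) (l 16786848)) (a (l 3) (l 279340667815))) (b (l 16786416) (l 270213866055))) (a (l 3) (b (l 270213863527) (a (l 3) (l 306721087879)))))))) (l 3))), by decide +kernel⟩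

def k2_pp_123 : ∃ t, chk3 f_pp_123 t 9 4 1 = true :=
  ⟨(a (a (b (l 16930888) (b (b (l 16948520) (a (b (l 16794664) (a (b (l 16785384) (a (l 248739030071) (l 16783240))) (l 16790336))) (l 16805488))) (b (a (b (a (b (l 282561894247) (l 330343395639)) (b (l 16784472) (a (l 264845154887) (l 16792848)))) (a (l 3) (b (l 299741766151) (l 3)))) (b (l 16793144) (a (b (l 270750738535) (l 264845156359)) (l 16788968)))) (a (l 3) (b (a (b (l 312626670359) (l 3)) (b (l 271287609399) (l 272361347607))) (a (l 3) (l 331417138791))))))) (b (l 16843224) (b (l 16936936) (b (l 16812560) (a (b (l 16792264) (a (l 257328964839) (l 16787952))) (l 16804216)))))) (b (l 16855480) (b (l 17024912) (a (l 16994056) (l 16882032))))), by decide +kernel⟩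

def k3_pp_123 : ∃ t, chk3 f_pp_123 t 5 4 1 = true :=
  ⟨(a (b (l 16901576) (a (a (l 16944952) (l 17109040)) (l 16895768))) (l 16959792)), by decide +kernel⟩

def k4_pp_123 : ∃ t, chk3 f_pp_123 t 3 4 1 = true :=
  ⟨(a (b (l 17068488) (l 16954552)) (l 17246368)), by decide +kernel⟩

def k5_pp_123 : ∃ t, chk3 f_pp_123 t 1 5 1 = true :=
  ⟨(a (a (a (l 3) (a (b (a (l 3) (b (b (a (b (a (l 333564623623) (l 258939576903)) (l 337859602279)) (b (l 16791424) (a (l 260013318551) (l 16787128)))) (a (l 3) (a (l 3) (l 293836208423)))) (l 3))) (l 3)) (b (a (b (b (l 16810000) (a (b (l 16791088) (l 246591554199)) (l 16802888))) (a (b (a (l 3) (l 285246271143)) (l 3)) (b (a (l 228337945735) (l 16792616)) (l 294909953127)))) (b (l 17027896) (a (b (l 16804312) (l 258402752551)) (l 16813728)))) (a (l 3) (b (a (b (l 278803818455) (l 3)) (b (l 255718403399) (l 258939582535))) (b (l 346986506695) (l 3))))))) (a (a (a (b (b (l 16868552) (l 16838168)) (b (a (l 16846904) (l 16821752)) (a (l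 257329033511) (l 250349740775)))) (b (a (l 17136304) (a (l 16883784) (l 17053400))) (a (l 16913240) (a (l 16844000) (a (l 16851552) (l 16856440)))))) (b (l 16901232) (l 16939568))) (b (l 16928592) (l 17060168)))) (a (a (b (l 16945288) (l 17088688)) (l 17252784)) (a (l 17123552) (l 17247392)))), by decide +kernel⟩

def k6_pp_123 : ∃ t, chk3 f_pp_123 t 1 3 1 = true :=
  ⟨(b (a (a (l 3) (a (a (a (b (b (a (l 3) (l 269677061879)) (l 3)) (l 3)) (b (a (b (l 244981051911) (l 258939649383)) (a (b (l 16813456) (l 16840744)) (a (b (l 16821920) (l 16807464)) (l 16884560)))) (a (l 3) (b (a (l 272361429447) (a (l 16838032) (l 16802368))) (a (l 3) (a (l 16830960) (l 16795704))))))) (a (b (l 16962424) (b (l 16829792) (l 16825144))) (b (l 16893048) (l 16963192)))) (b (l 17044664) (b (l 16997736) (l 17028016))))) (a (b (a (l 17168408) (l 17311840)) (a (l 17203064) (l 17407104))) (b (l 284040251031) (l 1)))) (a (a (b (l 3) (l 3)) (b (a (a (a (l 3) (a (l 3) (b (a (l 3) (a (l 277730158951)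 (l 16796656))) (a (l 265919039367) (a (a (l 16861664) (l 16844792)) (l 16829968)))))) (b (a (l 16891584) (l 16886848)) (b (l 16871040) (l 16886584)))) (a (b (l 16973904) (l 1)) (l 40836680055))) (a (a (a (b (l 3) (l 1)) (l 1)) (l 1)) (l 1)))) (l 1))), by decide +kernel⟩

theorem s7_pp_123 : ∃ t, chk3 f_pp_123 t 8 4 1 = true := ex3_a k0_pp_123 k1_pp_123

theorem s8_pp_123 : ∃ t, chk3 f_pp_123 t 4 4 1 = true := ex3_a s7_pp_123 k2_pp_123

theorem s9_pp_123 : ∃ t, chk3 f_pp_123 t 2 4 1 = true := ex3_a s8_pp_123 k3_pp_123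

theorem s10_pp_123 : ∃ t, chk3 f_pp_123 t 1 4 1 = true := ex3_a s9_pp_123 k4_pp_123

theorem s11_pp_123 : ∃ t, chk3 f_pp_123 t 1 2 1 = true := ex3_b s10_pp_123 k5_pp_123

theorem s12_pp_123 : ∃ t, chk3 f_pp_123 t 1 1 1 = true := ex3_b s11_pp_123 k6_pp_123

theorem c_pp_123 : CertN 536870912 536870912 0 1230186008 67108864 67108864 3 false true true .npn 1 2 3
    ndN0q1 ndN4q3 pcN2 cut_pp_123 Ext.none :=
  certNK2 (fam := false) (s1 := true) (s2 := true) (a := 1) (b := 2) (c := 3) (cn := .npn) (n1 := ndN0q1) (n2 := ndN4q3) (pc := pcN2) (cut := cut_pp_123) (xt := Ext.none) (P1 := 536870912) (W1 := 536870912) (P2 := 0) (W2 := 1230186008) (P3 := 67108864) (W3 := 67108864) (N0 := 3)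
    rfl rfl rfl (fun _ => rfl) s12_pp_123

noncomputable def f_pp_133 : ℕ → ℕ → ℕ → ℕ → Bool := onCell 1610612736 536870912 0 1230186008 67108864 67108864
    (rowNK 3 2 false true true .dn 1 3 3 (qsf 536870912 536870912 0 1230186008 3) ndN0q1 ndN4q3 pcN3 Cut.none Ext.none)

def k0_pp_133 : ∃ t, chk3 f_pp_133 t 1 1 1 = true :=
  ⟨(b (b (a (a (b (l 16875712) (l 1)) (l 1)) (l 1)) (l 1)) (l 1)), by decide +kernel⟩

theorem c_pp_133 : CertN 536870912 536870912 0 1230186008 67108864 67108864 3 false true true .dn 1 3 3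
    ndN0q1 ndN4q3 pcN3 Cut.none Ext.none :=
  certNK2 (fam := false) (s1 := true) (s2 := true) (a := 1) (b := 3) (c := 3) (cn := .dn) (n1 := ndN0q1) (n2 := ndN4q3) (pc := pcN3) (cut := Cut.none) (xt := Ext.none) (P1 := 536870912) (W1 := 536870912) (P2 := 0) (W2 := 1230186008) (P3 := 67108864) (W3 := 67108864) (N0 := 3)
    rfl rfl rfl (fun _ => rfl) k0_pp_133

noncomputable def f_pp_202 : ℕ → ℕ → ℕ → ℕ → Bool := onCell 0 536870912 1073741824 536870912 67108864 67108864
    (rowNK 3 0 false true true .pp 2 0 2 (qsf 0 536870912 1073741824 536870912 0) ndN0q2 ndN4q2 pcN0 Cut.none Ext.none)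

def k0_pp_202 : ∃ t, chk3 f_pp_202 t 1 1 1 = true :=
  ⟨(l 5), by decide +kernel⟩

theorem c_pp_202 : CertN 0 536870912 1073741824 536870912 67108864 67108864 3 false true true .pp 2 0 2
    ndN0q2 ndN4q2 pcN0 Cut.none Ext.none :=
  certNK0 (fam := false) (s1 := true) (s2 := true) (a := 2) (b := 0) (c := 2) (cn := .pp) (n1 := ndN0q2) (n2 := ndN4q2) (pc := pcN0) (cut := Cut.none) (xt := Ext.none) (P1 := 0) (W1 := 536870912) (P2 := 1073741824) (W2 := 536870912) (P3 := 67108864) (W3 := 67108864) (N0 := 3)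
    rfl rfl rfl k0_pp_202

noncomputable def f_pp_203 : ℕ → ℕ → ℕ → ℕ → Bool := onCell 0 536870912 0 1230186008 67108864 67108864
    (rowNK 3 0 false true true .up 2 0 3 (qsf 0 536870912 0 1230186008 0) ndN0q2 ndN4q3 pcN0 Cut.none Ext.none)

def k0_pp_203 : ∃ t, chk3 f_pp_203 t 1 1 1 = true :=
  ⟨(b (l 2) (b (l 2) (a (l 5) (l 3)))), by decide +kernel⟩

theorem c_pp_203 : CertN 0 536870912 0 1230186008 67108864 67108864 3 false true true .up 2 0 3
    ndN0q2 ndN4q3 pcN0 Cut.none Ext.none :=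
  certNK0 (fam := false) (s1 := true) (s2 := true) (a := 2) (b := 0) (c := 3) (cn := .up) (n1 := ndN0q2) (n2 := ndN4q3) (pc := pcN0) (cut := Cut.none) (xt := Ext.none) (P1 := 0) (W1 := 536870912) (P2 := 0) (W2 := 1230186008) (P3 := 67108864) (W3 := 67108864) (N0 := 3)
    rfl rfl rfl k0_pp_203

noncomputable def cut_pp_213 : Cut := Cut.of [[⟨0, 1, 0, 21338704⟩, ⟨1, 1, 0, 21338704⟩, ⟨2, 2, 0, 1685920⟩]]

noncomputable def f_pp_213 : ℕ → ℕ → ℕ → ℕ → Bool := onCell 0 536870912 0 1230186008 67108864 67108864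
    (rowNK 3 0 false true true .pnn 2 1 3 (qsf 0 536870912 0 1230186008 1) ndN0q2 ndN4q3 pcN1 cut_pp_213 Ext.none)

def k0_pp_213 : ∃ t, chk3 f_pp_213 t 1 1 1 = true :=
  ⟨(a (b (l 3) (l 5)) (b (b (a (l 3) (b (a (l 3) (b (a (l 3) (b (a (l 3) (l 6)) (l 3))) (l 3))) (l 3))) (l 3)) (b (l 3) (l 3)))), by decide +kernel⟩

theorem c_pp_213 : CertN 0 536870912 0 1230186008 67108864 67108864 3 false true true .pnn 2 1 3
    ndN0q2 ndN4q3 pcN1 cut_pp_213 Ext.none :=
  certNK0 (fam := false) (s1 := true) (s2 := true) (a := 2) (b := 1) (c := 3) (cn := .pnn) (n1 := ndN0q2) (n2 := ndN4q3) (pc := pcN1) (cut := cut_pp_213) (xt := Ext.none) (P1 := 0) (W1 := 536870912) (P2 := 0) (W2 := 1230186008) (P3 := 67108864) (W3 := 67108864) (N0 := 3)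
    rfl rfl rfl k0_pp_213

noncomputable def f_pm_001 : ℕ → ℕ → ℕ → ℕ → Bool := onCell 0 536870912 536870912 536870912 67108864 67108864
    (rowNK 3 0 false true false .up 0 0 1 (qsf 0 536870912 536870912 536870912 0) ndN0q0 ndN4q1 pcN0 Cut.none Ext.none)

def k0_pm_001 : ∃ t, chk3 f_pm_001 t 1 1 1 = true :=
  ⟨(l 4), by decide +kernel⟩

theorem c_pm_001 : CertN 0 536870912 536870912 536870912 67108864 67108864 3 false true false .up 0 0 1
    ndN0q0 ndN4q1 pcN0 Cut.none Ext.none :=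
  certNK0 (fam := false) (s1 := true) (s2 := false) (a := 0) (b := 0) (c := 1) (cn := .up) (n1 := ndN0q0) (n2 := ndN4q1) (pc := pcN0) (cut := Cut.none) (xt := Ext.none) (P1 := 0) (W1 := 536870912) (P2 := 536870912) (W2 := 536870912) (P3 := 67108864) (W3 := 67108864) (N0 := 3)
    rfl rfl rfl k0_pm_001

noncomputable def f_pm_011 : ℕ → ℕ → ℕ → ℕ → Bool := onCell 0 536870912 536870912 536870912 67108864 67108864
    (rowNK 3 0 false true false .pnn 0 1 1 (qsf 0 536870912 536870912 536870912 1) ndN0q0 ndN4q1 pcN1 Cut.none Ext.none)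

def k0_pm_011 : ∃ t, chk3 f_pm_011 t 1 1 1 = true :=
  ⟨(l 4), by decide +kernel⟩

theorem c_pm_011 : CertN 0 536870912 536870912 536870912 67108864 67108864 3 false true false .pnn 0 1 1
    ndN0q0 ndN4q1 pcN1 Cut.none Ext.none :=
  certNK0 (fam := false) (s1 := true) (s2 := false) (a := 0) (b := 1) (c := 1) (cn := .pnn) (n1 := ndN0q0) (n2 := ndN4q1) (pc := pcN1) (cut := Cut.none) (xt := Ext.none) (P1 := 0) (W1 := 536870912) (P2 := 536870912) (W2 := 536870912) (P3 := 67108864) (W3 := 67108864) (N0 := 3)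
    rfl rfl rfl k0_pm_011

noncomputable def f_pm_012 : ℕ → ℕ → ℕ → ℕ → Bool := onCell 0 536870912 1073741824 536870912 67108864 67108864
    (rowNK 3 0 false true false .pnp 0 1 2 (qsf 0 536870912 1073741824 536870912 1) ndN0q0 ndN4q2 pcN1 Cut.none Ext.none)

def k0_pm_012 : ∃ t, chk3 f_pm_012 t 1 1 1 = true :=
  ⟨(l 4), by decide +kernel⟩

theorem c_pm_012 : CertN 0 536870912 1073741824 536870912 67108864 67108864 3 false true false .pnp 0 1 2
    ndN0q0 ndN4q2 pcN1 Cut.none Ext.none :=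
  certNK0 (fam := false) (s1 := true) (s2 := false) (a := 0) (b := 1) (c := 2) (cn := .pnp) (n1 := ndN0q0) (n2 := ndN4q2) (pc := pcN1) (cut := Cut.none) (xt := Ext.none) (P1 := 0) (W1 := 536870912) (P2 := 1073741824) (W2 := 536870912) (P3 := 67108864) (W3 := 67108864) (N0 := 3)
    rfl rfl rfl k0_pm_012

noncomputable def f_pm_022 : ℕ → ℕ → ℕ → ℕ → Bool := onCell 0 536870912 1073741824 536870912 67108864 67108864
    (rowNK 3 0 false true false .pp 0 2 2 (qsf 0 536870912 1073741824 536870912 2) ndN0q0 ndN4q2 pcN2 Cut.none Ext.none)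

def k0_pm_022 : ∃ t, chk3 f_pm_022 t 1 1 1 = true :=
  ⟨(l 4), by decide +kernel⟩

theorem c_pm_022 : CertN 0 536870912 1073741824 536870912 67108864 67108864 3 false true false .pp 0 2 2
    ndN0q0 ndN4q2 pcN2 Cut.none Ext.none :=
  certNK0 (fam := false) (s1 := true) (s2 := false) (a := 0) (b := 2) (c := 2) (cn := .pp) (n1 := ndN0q0) (n2 := ndN4q2) (pc := pcN2) (cut := Cut.none) (xt := Ext.none) (P1 := 0) (W1 := 536870912) (P2 := 1073741824) (W2 := 536870912) (P3 := 67108864) (W3 := 67108864) (N0 := 3)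
    rfl rfl rfl k0_pm_022

noncomputable def f_pm_023 : ℕ → ℕ → ℕ → ℕ → Bool := onCell 0 536870912 0 1230186008 67108864 67108864
    (rowNK 3 0 false true false .up 0 2 3 (qsf 0 536870912 0 1230186008 2) ndN0q0 ndN4q3 pcN2 Cut.none Ext.none)

def k0_pm_023 : ∃ t, chk3 f_pm_023 t 1 1 1 = true :=
  ⟨(b (a (l 2) (a (l 2) (b (l 17627960) (l 17769016)))) (l 4)), by decide +kernel⟩

theorem c_pm_023 : CertN 0 536870912 0 1230186008 67108864 67108864 3 false true false .up 0 2 3
    ndN0q0 ndN4q3 pcN2 Cut.none Ext.none :=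
  certNK0 (fam := false) (s1 := true) (s2 := false) (a := 0) (b := 2) (c := 3) (cn := .up) (n1 := ndN0q0) (n2 := ndN4q3) (pc := pcN2) (cut := Cut.none) (xt := Ext.none) (P1 := 0) (W1 := 536870912) (P2 := 0) (W2 := 1230186008) (P3 := 67108864) (W3 := 67108864) (N0 := 3)
    rfl rfl rfl k0_pm_023

noncomputable def f_pm_033 : ℕ → ℕ → ℕ → ℕ → Bool := onCell 1610612736 536870912 0 1230186008 67108864 67108864
    (rowNK 3 2 false true false .pnn 0 3 3 (qsf 0 536870912 0 1230186008 3) ndN0q0 ndN4q3 pcN3 Cut.none Ext.none)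

def k0_pm_033 : ∃ t, chk3 f_pm_033 t 1 1 1 = true :=
  ⟨(b (b (a (a (a (l 17432160) (l 17645176)) (a (l 17189224) (l 4))) (l 4)) (l 4)) (l 4)), by decide +kernel⟩

theorem c_pm_033 : CertN 0 536870912 0 1230186008 67108864 67108864 3 false true false .pnn 0 3 3
    ndN0q0 ndN4q3 pcN3 Cut.none Ext.none :=
  certNK2 (fam := false) (s1 := true) (s2 := false) (a := 0) (b := 3) (c := 3) (cn := .pnn) (n1 := ndN0q0) (n2 := ndN4q3) (pc := pcN3) (cut := Cut.none) (xt := Ext.none) (P1 := 0) (W1 := 536870912) (P2 := 0) (W2 := 1230186008) (P3 := 67108864) (W3 := 67108864) (N0 := 3)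
    rfl rfl rfl (fun _ => rfl) k0_pm_033

noncomputable def f_pm_101 : ℕ → ℕ → ℕ → ℕ → Bool := onCell 536870912 536870912 536870912 536870912 67108864 67108864
    (rowNK 3 0 false true false .npn 1 0 1 (qsf 536870912 536870912 536870912 536870912 0) ndN0q1 ndN4q1 pcN0 Cut.none Ext.none)

def k0_pm_101 : ∃ t, chk3 f_pm_101 t 1 1 1 = true :=
  ⟨(l 4), by decide +kernel⟩

theorem c_pm_101 : CertN 536870912 536870912 536870912 536870912 67108864 67108864 3 false true false .npn 1 0 1
    ndN0q1 ndN4q1 pcN0 Cut.none Ext.none :=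
  certNK0 (fam := false) (s1 := true) (s2 := false) (a := 1) (b := 0) (c := 1) (cn := .npn) (n1 := ndN0q1) (n2 := ndN4q1) (pc := pcN0) (cut := Cut.none) (xt := Ext.none) (P1 := 536870912) (W1 := 536870912) (P2 := 536870912) (W2 := 536870912) (P3 := 67108864) (W3 := 67108864) (N0 := 3)
    rfl rfl rfl k0_pm_101

noncomputable def f_pm_102 : ℕ → ℕ → ℕ → ℕ → Bool := onCell 536870912 536870912 0 536870912 67108864 67108864
    (rowNK 3 1 false true false .npp 1 0 2 (qsf 536870912 536870912 1073741824 536870912 0) ndN0q1 ndN4q2 pcN0 Cut.none Ext.none)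

def k0_pm_102 : ∃ t, chk3 f_pm_102 t 1 1 1 = true :=
  ⟨(b (l 4) (a (l 4) (b (l 4) (a (l 4) (a (l 4) (a (l 4) (l 18861008))))))), by decide +kernel⟩

theorem c_pm_102 : CertN 536870912 536870912 1073741824 536870912 67108864 67108864 3 false true false .npp 1 0 2
    ndN0q1 ndN4q2 pcN0 Cut.none Ext.none :=
  certNK1 (fam := false) (s1 := true) (s2 := false) (a := 1) (b := 0) (c := 2) (cn := .npp) (n1 := ndN0q1) (n2 := ndN4q2) (pc := pcN0) (cut := Cut.none) (xt := Ext.none) (P1 := 536870912) (W1 := 536870912) (P2 := 1073741824) (W2 := 536870912) (P3 := 67108864) (W3 := 67108864) (N0 := 3)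
    rfl rfl rfl (fun _ => rfl) k0_pm_102

noncomputable def f_pm_112 : ℕ → ℕ → ℕ → ℕ → Bool := onCell 536870912 536870912 1073741824 536870912 67108864 67108864
    (rowNK 3 0 false true false .dn 1 1 2 (qsf 536870912 536870912 1073741824 536870912 1) ndN0q1 ndN4q2 pcN1 Cut.none Ext.none)

def k0_pm_112 : ∃ t, chk3 f_pm_112 t 1 1 1 = true :=
  ⟨(a (l 4) (b (l 4) (b (l 4) (l 18942288)))), by decide +kernel⟩

theorem c_pm_112 : CertN 536870912 536870912 1073741824 536870912 67108864 67108864 3 false true false .dn 1 1 2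
    ndN0q1 ndN4q2 pcN1 Cut.none Ext.none :=
  certNK0 (fam := false) (s1 := true) (s2 := false) (a := 1) (b := 1) (c := 2) (cn := .dn) (n1 := ndN0q1) (n2 := ndN4q2) (pc := pcN1) (cut := Cut.none) (xt := Ext.none) (P1 := 536870912) (W1 := 536870912) (P2 := 1073741824) (W2 := 536870912) (P3 := 67108864) (W3 := 67108864) (N0 := 3)
    rfl rfl rfl k0_pm_112

noncomputable def cut_pm_113 : Cut := Cut.of [[⟨0, 1, 0, 21338704⟩, ⟨1, 1, 0, 21338704⟩, ⟨2, 2, 0, 1685920⟩]]

noncomputable def f_pm_113 : ℕ → ℕ → ℕ → ℕ → Bool := onCell 536870912 536870912 0 1230186008 67108864 67108864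
    (rowNK 3 2 false true false .nn 1 1 3 (qsf 536870912 536870912 0 1230186008 1) ndN0q1 ndN4q3 pcN1 cut_pm_113 Ext.none)

def k0_pm_113 : ∃ t, chk3 f_pm_113 t 1 1 1 = true :=
  ⟨(b (a (l 2) (a (l 2) (b (a (l 2) (a (l 2) (b (b (a (l 2) (b (l 6) (l 847819839479))) (l 847282981255)) (l 16825080)))) (b (a (l 1916730208359) (l 16865152)) (a (a (l 17094720) (l 16965504)) (a (l 16983112) (l 17223104))))))) (b (a (a (l 2) (b (l 2) (a (l 2) (l 1193030092695)))) (a (a (b (l 2) (l 880570736759)) (b (b (l 17271408) (l 17201168)) (b (l 17168272) (l 17870280)))) (a (b (a (l 16949576) (l 17235528)) (l 18151840)) (a (b (l 17576864) (l 18471568)) (l 18226360))))) (a (a (b (l 2) (b (a (l 2) (a (b (l 2) (b (a (l 2) (l 18221232)) (l 18375848))) (b (a (b (l 2) (l 18025472)) (b (l 17661024) (l 18247776))) (l 18403968)))) (a (b (a (l 2) (a (b (l 2) (l 18421416)) (l 18418504))) (l 18519056)) (l 18581664)))) (b (a (b (l 18045248) (b (a (l 2) (a (l 695887285319) (l 17581672))) (a (a (l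 715214900823) (b (l 17582072) (l 17781096))) (l 17914960)))) (b (b (l 17627880) (a (a (l 17734352) (l 17333624)) (l 17363808))) (a (b (b (a (l 17502440) (l 17153448)) (l 17826400)) (l 17972664)) (l 18050752)))) (b (a (a (b (l 173512602119) (l 18476576)) (l 18487480)) (l 18606800)) (l 18807000)))) (b (a (a (b (a (b (l 17272336) (l 17661856)) (l 17804800)) (l 18291112)) (l 18382128)) (l 18944136)) (l 4))))), by decide +kernel⟩

theorem c_pm_113 : CertN 536870912 536870912 0 1230186008 67108864 67108864 3 false true false .nn 1 1 3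
    ndN0q1 ndN4q3 pcN1 cut_pm_113 Ext.none :=
  certNK2 (fam := false) (s1 := true) (s2 := false) (a := 1) (b := 1) (c := 3) (cn := .nn) (n1 := ndN0q1) (n2 := ndN4q3) (pc := pcN1) (cut := cut_pm_113) (xt := Ext.none) (P1 := 536870912) (W1 := 536870912) (P2 := 0) (W2 := 1230186008) (P3 := 67108864) (W3 := 67108864) (N0 := 3)
    rfl rfl rfl (fun _ => rfl) k0_pm_113

noncomputable def cut_pm_123 : Cut := Cut.of [[⟨0, 1, 0, 21338704⟩, ⟨1, 1, 0, 21338704⟩, ⟨2, 2, 0, 1685920⟩]]

noncomputable def f_pm_123 : ℕ → ℕ → ℕ → ℕ → Bool := onCell 1073741824 536870912 0 1230186008 67108864 67108864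
    (rowNK 3 2 false true false .npn 1 2 3 (qsf 536870912 536870912 0 1230186008 2) ndN0q1 ndN4q3 pcN2 cut_pm_123 Ext.none)

def k0_pm_123 : ∃ t, chk3 f_pm_123 t 1 1 1 = true :=
  ⟨(b (b (a (a (a (a (b (b (a (b (l 6) (l 16809272)) (l 16817888)) (l 16845664)) (l 16927096)) (a (l 17096024) (l 16909904))) (b (l 17098192) (l 16998808))) (a (l 17099072) (l 17111440))) (a (l 17270392) (l 17529672))) (a (a (b (a (a (l 17137592) (l 17184816)) (l 17284176)) (l 17647168)) (b (l 17490056) (l 17906440))) (a (l 17603112) (l 17710072)))) (b (a (a (b (l 18193528) (l 18689864)) (l 18174256)) (l 4)) (l 4))), by decide +kernel⟩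

theorem c_pm_123 : CertN 536870912 536870912 0 1230186008 67108864 67108864 3 false true false .npn 1 2 3
    ndN0q1 ndN4q3 pcN2 cut_pm_123 Ext.none :=
  certNK2 (fam := false) (s1 := true) (s2 := false) (a := 1) (b := 2) (c := 3) (cn := .npn) (n1 := ndN0q1) (n2 := ndN4q3) (pc := pcN2) (cut := cut_pm_123) (xt := Ext.none) (P1 := 536870912) (W1 := 536870912) (P2 := 0) (W2 := 1230186008) (P3 := 67108864) (W3 := 67108864) (N0 := 3)
    rfl rfl rfl (fun _ => rfl) k0_pm_123

noncomputable def f_pm_133 : ℕ → ℕ → ℕ → ℕ → Bool := onCell 536870912 536870912 0 1230186008 67108864 67108864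
    (rowNK 3 0 false true false .dn 1 3 3 (qsf 536870912 536870912 0 1230186008 3) ndN0q1 ndN4q3 pcN3 Cut.none Ext.none)

def k0_pm_133 : ∃ t, chk3 f_pm_133 t 1 1 1 = true :=
  ⟨(b (b (a (a (a (l 17078304) (l 1)) (l 1)) (l 1)) (l 1)) (l 1)), by decide +kernel⟩

theorem c_pm_133 : CertN 536870912 536870912 0 1230186008 67108864 67108864 3 false true false .dn 1 3 3
    ndN0q1 ndN4q3 pcN3 Cut.none Ext.none :=
  certNK0 (fam := false) (s1 := true) (s2 := false) (a := 1) (b := 3) (c := 3) (cn := .dn) (n1 := ndN0q1) (n2 := ndN4q3) (pc := pcN3) (cut := Cut.none) (xt := Ext.none) (P1 := 536870912) (W1 := 536870912) (P2 := 0) (W2 := 1230186008) (P3 := 67108864) (W3 := 67108864) (N0 := 3)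
    rfl rfl rfl k0_pm_133

noncomputable def f_pm_202 : ℕ → ℕ → ℕ → ℕ → Bool := onCell 0 536870912 0 536870912 67108864 67108864
    (rowNK 3 1 false true false .pp 2 0 2 (qsf 0 536870912 1073741824 536870912 0) ndN0q2 ndN4q2 pcN0 Cut.none Ext.none)

def k0_pm_202 : ∃ t, chk3 f_pm_202 t 1 1 1 = true :=
  ⟨(b (a (b (b (l 19061696) (a (l 18543936) (l 18827024))) (b (a (l 18218776) (l 18324520)) (a (l 17798136) (l 18006504)))) (b (a (l 19273920) (l 4)) (a (l 18681544) (l 19177240)))) (b (a (b (b (l 18026736) (a (l 17684952) (l 17603600))) (a (b (a (l 17477504) (l 17863272)) (l 262095162167)) (b (l 17812928) (l 17760944)))) (b (a (l 18207048) (l 18794376)) (a (l 17827080) (l 18119024)))) (a (b (a (l 2) (a (l 2) (l 1422274315175))) (l 2)) (b (a (b (l 17662736) (l 841379959543)) (l 17829392)) (a (l 2) (a (l 546637316279) (l 17897592))))))), by decide +kernel⟩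

theorem c_pm_202 : CertN 0 536870912 1073741824 536870912 67108864 67108864 3 false true false .pp 2 0 2
    ndN0q2 ndN4q2 pcN0 Cut.none Ext.none :=
  certNK1 (fam := false) (s1 := true) (s2 := false) (a := 2) (b := 0) (c := 2) (cn := .pp) (n1 := ndN0q2) (n2 := ndN4q2) (pc := pcN0) (cut := Cut.none) (xt := Ext.none) (P1 := 0) (W1 := 536870912) (P2 := 1073741824) (W2 := 536870912) (P3 := 67108864) (W3 := 67108864) (N0 := 3)
    rfl rfl rfl (fun _ => rfl) k0_pm_202

noncomputable def f_pm_203 : ℕ → ℕ → ℕ → ℕ → Bool := onCell 0 536870912 0 1230186008 67108864 67108864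
    (rowNK 3 0 false true false .up 2 0 3 (qsf 0 536870912 0 1230186008 0) ndN0q2 ndN4q3 pcN0 Cut.none Ext.none)

def k0_pm_203 : ∃ t, chk3 f_pm_203 t 1 1 1 = true :=
  ⟨(b (l 2) (b (l 2) (b (a (b (l 2) (a (l 16970152) (a (l 17135256) (l 17286576)))) (l 2)) (a (b (a (a (l 17054464) (l 17226048)) (a (l 17394808) (l 17639112))) (a (a (a (l 17227168) (l 17330056)) (l 17742664)) (b (l 17873512) (a (l 17961776) (l 18120776))))) (a (b (a (l 17987008) (b (l 2) (l 18133032))) (b (a (l 18153384) (l 17787344)) (a (l 17892344) (l 17337440)))) (b (a (b (l 2) (a (l 17787016) (l 2))) (l 2)) (b (a (l 17466616) (a (l 17588600) (l 2))) (a (l 17442856) (l 17555792))))))))), by decide +kernel⟩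

theorem c_pm_203 : CertN 0 536870912 0 1230186008 67108864 67108864 3 false true false .up 2 0 3
    ndN0q2 ndN4q3 pcN0 Cut.none Ext.none :=
  certNK0 (fam := false) (s1 := true) (s2 := false) (a := 2) (b := 0) (c := 3) (cn := .up) (n1 := ndN0q2) (n2 := ndN4q3) (pc := pcN0) (cut := Cut.none) (xt := Ext.none) (P1 := 0) (W1 := 536870912) (P2 := 0) (W2 := 1230186008) (P3 := 67108864) (W3 := 67108864) (N0 := 3)
    rfl rfl rfl k0_pm_203

noncomputable def cut_pm_213 : Cut := Cut.of [[⟨0, 1, 0, 21338704⟩, ⟨1, 1, 0, 21338704⟩, ⟨2, 2, 0, 1685920⟩]]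

noncomputable def f_pm_213 : ℕ → ℕ → ℕ → ℕ → Bool := onCell 0 536870912 0 1230186008 67108864 67108864
    (rowNK 3 0 false true false .pnn 2 1 3 (qsf 0 536870912 0 1230186008 1) ndN0q2 ndN4q3 pcN1 cut_pm_213 Ext.none)

def k0_pm_213 : ∃ t, chk3 f_pm_213 t 2 2 1 = true :=
  ⟨(b (l 3) (a (l 3) (b (l 3) (a (b (l 3) (a (l 3) (b (l 3) (l 321216645607)))) (b (a (l 3) (b (l 315847926535) (a (l 297057435511) (b (l 256792125575) (l 203641872231))))) (a (b (a (l 3) (l 280951359031)) (a (b (l 280414424263) (l 223506114503)) (b (l 190220094199) (l 16835536)))) (b (a (b (l 231022299879) (l 16818400)) (l 16840752)) (l 16876960)))))))), by decide +kernel⟩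

def k1_pm_213 : ∃ t, chk3 f_pm_213 t 6 4 1 = true :=
  ⟨(b (l 3) (a (l 3) (b (l 3) (a (l 3) (b (a (l 3) (b (l 3) (a (l 3) (b (l 285246228695) (l 266992636615))))) (a (b (l 3) (a (l 286319973127) (b (l 270750738647) (l 248202146135)))) (b (a (b (l 279340670839) (l 259476452007)) (b (l 250349650551) (l 16788504))) (a (l 243370322935) (l 16796816))))))))), by decide +kernel⟩

def k2_pm_213 : ∃ t, chk3 f_pm_213 t 7 8 1 = true :=
  ⟨(a (b (l 3) (a (l 3) (b (l 3) (a (l 3) (b (a (l 3) (b (l 3) (a (l 3) (b (l 3) (l 285783110391))))) (a (b (l 3) (a (l 3) (l 282561880023))) (b (a (l 285246234775) (l 273971950199)) (a (l 270213854423) (l 16779720))))))))) (b (a (b (l 3) (a (l 3) (b (l 3) (a (l 3) (b (a (l 3) (b (l 3) (a (l 3) (b (l 3) (l 293299295943))))) (a (b (l 3) (a (l 3) (b (l 3) (l 285246232791)))) (b (a (b (l 3) (c (l 290614939719) (l 291151807863))) (l 275582555623)) (a (l 274508813671) (l 16777720))))))))) (b (a (a (l 3) (l 6)) (l 6)) (a (b (a (a (l 3) (l 6)) (l 6))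 (a (b (a (b (a (b (l 3) (l 295983652311)) (b (l 6) (l 275045684503))) (a (c (l 278266910407) (l 277730039415)) (l 16777704))) (l 6)) (l 16778864)) (l 16781352))) (l 16786472)))) (a (b (a (b (l 3) (a (b (l 3) (l 3)) (b (a (l 3) (b (a (l 3) (l 289541201047)) (a (l 287393717111) (l 275582561287)))) (a (b (a (l 3) (l 284709362327)) (l 277193169319)) (l 272361336311))))) (b (a (b (a (l 3) (b (l 3) (a (l 3) (b (l 290614942423) (l 279340652263))))) (a (b (a (l 3) (l 293836163879)) (a (l 291688685063) (l 279340652487))) (b (l 275582556007) (l 16777424)))) (b (a (b (a (b (l 293299297383) (l 282025007015)) (l 273435071783)) (l 270750717591)) (l 16778144)) (l 16778464))) (a (b (a (b (l 274508814199) (l 16777640)) (l 16777768)) (l 16777888)) (l 16779536)))) (a (b (a (b (a (b (l 3) (l 289004336375)) (b (l 283635621031) (l 275045691095))) (a (l 276656299175) (l 16778616))) (b (l 16780976) (l 16779208))) (l 16780584)) (l 16779824))) (b (l 16809792) (l 16794928))))), by decide +kernel⟩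

def k3_pm_213 : ∃ t, chk3 f_pm_213 t 7 9 1 = true :=
  ⟨(a (b (a (b (l 3) (a (b (l 3) (a (l 3) (l 286856852711))) (b (a (l 291151831079) (b (l 280951273303) (a (l 272898220087) (l 258402687751)))) (a (b (a (l 285783100439) (l 268603253591)) (l 260550193719)) (l 16784616))))) (b (a (b (a (l 3) (b (l 3) (a (l 288467455367) (l 275045703063)))) (a (b (l 287393724407) (a (l 281488154247) (l 267529511703))) (b (a (l 271287607239) (l 16780408)) (l 16782088)))) (b (a (b (a (l 278266917799) (l 266455758903)) (l 270750727335)) (l 16781888)) (l 16785072))) (a (b (a (b (l 261087053543) (l 16784072)) (l 16786336)) (l 16790944)) (l 16793088)))) (a (b (a (b (a (b (l 3) (l 277730058807)) (b (a (l 277193187719) (l 259476450647)) (l 251960262855))) (a (b (l 259476452087) (l 16785632)) (l 16789928))) (l 16794016)) (l 16807656)) (l 16813624))) (b (a (l 16788776) (l 16801144)) (l 16803400))), by decide +kernel⟩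

def k4_pm_213 : ∃ t, chk3 f_pm_213 t 3 5 1 = true :=
  ⟨(a (b (a (b (a (l 3) (b (l 3) (a (l 3) (l 299741783767)))) (a (b (l 3) (a (l 3) (b (l 299741763559) (l 258939628535)))) (b (a (l 292762480455) (b (a (l 277730042583) (l 242296574007)) (a (l 229411674455) (l 16803896)))) (a (b (a (l 250886523735) (l 16796136)) (l 16787592)) (l 16825576))))) (b (a (b (a (l 3) (b (l 287930610151) (a (l 273435094119) (l 244980937703)))) (a (b (l 278266944631) (a (l 255181490391) (l 16773240))) (b (a (l 229948539911) (l 16800504)) (l 16810504)))) (b (a (b (a (b (l 259476451783) (l 242296574119)) (l 16792336)) (l 16800840)) (l 16811272)) (l 16830992))) (a (b (l 16824512) (l 16861392)) (l 16881664)))) (a (b (a (b (a (b (l 283635649143) (a (l 250349633431) (l 16798584))) (b (l 215453034839) (l 16821552))) (l 16798560)) (l 16876224)) (l 16948616)) (l 16998872))) (b (a (l 17046192) (l 16873976)) (a (l 17055040) (l 17046680)))), by decide +kernel⟩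

def k5_pm_213 : ∃ t, chk3 f_pm_213 t 1 3 1 = true :=
  ⟨(b (a (b (a (a (l 3) (b (l 3) (a (l 3) (b (l 319606025319) (a (l 279340725607) (b (l 220284892775) (l 16832304))))))) (a (b (a (b (l 3) (l 293836296887)) (b (a (l 293299358567) (b (l 242833470039) (l 16793432))) (a (b (l 217600545031) (l 16833848)) (l 16860552)))) (a (b (a (b (l 262697685047) (l 186462001687)) (l 16838928)) (l 16863824)) (l 16939992))) (b (a (b (l 16859712) (l 16922064)) (l 16967536)) (l 17066680)))) (a (a (b (a (l 3) (b (l 3) (l 304573702055))) (a (b (l 327122221511) (a (l 282561951383) (b (l 221358633719) (l 16816016)))) (b (a (l 244981009831) (l 167134647527)) (l 16874584)))) (b (a (b (a (l 310479198183) (l 246054751863)) (a (b (l 221358631591) (l 16811760)) (l 16842744))) (b (a (l 164450289095) (l 16886480)) (l 16938008))) (a (l 16958192) (l 17060552)))) (b (a (l 17022992) (l 17224952)) (l 17347408)))) (a (b (a (l 17143056) (l 17256040)) (b (l 17447112) (l 17635520))) (a (b (l 17323656)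 (l 17635888)) (b (l 17272304) (l 17537600))))) (b (a (a (b (a (b (a (l 156397234743) (l 16981096)) (l 17015552)) (l 17183792)) (l 17256864)) (b (l 17487296) (l 17832632))) (a (b (l 17806752) (l 18029912)) (b (l 17820552) (a (b (l 18049320) (a (l 18199064) (l 18146664))) (b (a (l 17989136) (b (l 17862360) (l 17869736))) (a (l 17954792) (l 17546504))))))) (a (b (a (l 1) (l 17881440)) (l 1)) (a (b (a (l 18233904) (b (a (l 18280488) (l 18320600)) (l 18174992))) (l 1)) (b (a (b (a (l 18210256) (l 17932048)) (a (l 17654368) (l 17336856))) (b (a (l 17328904) (l 17777680)) (a (l 17978264) (l 18252136)))) (a (b (l 17897848) (l 1)) (b (a (l 18337192) (l 18399816)) (l 18444424)))))))), by decide +kernel⟩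

theorem s6_pm_213 : ∃ t, chk3 f_pm_213 t 7 4 1 = true := ex3_b k2_pm_213 k3_pm_213

theorem s7_pm_213 : ∃ t, chk3 f_pm_213 t 3 4 1 = true := ex3_a k1_pm_213 s6_pm_213

theorem s8_pm_213 : ∃ t, chk3 f_pm_213 t 3 2 1 = true := ex3_b s7_pm_213 k4_pm_213

theorem s9_pm_213 : ∃ t, chk3 f_pm_213 t 1 2 1 = true := ex3_a k0_pm_213 s8_pm_213

theorem s10_pm_213 : ∃ t, chk3 f_pm_213 t 1 1 1 = true := ex3_b s9_pm_213 k5_pm_213

theorem c_pm_213 : CertN 0 536870912 0 1230186008 67108864 67108864 3 false true false .pnn 2 1 3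
    ndN0q2 ndN4q3 pcN1 cut_pm_213 Ext.none :=
  certNK0 (fam := false) (s1 := true) (s2 := false) (a := 2) (b := 1) (c := 3) (cn := .pnn) (n1 := ndN0q2) (n2 := ndN4q3) (pc := pcN1) (cut := cut_pm_213) (xt := Ext.none) (P1 := 0) (W1 := 536870912) (P2 := 0) (W2 := 1230186008) (P3 := 67108864) (W3 := 67108864) (N0 := 3)
    rfl rfl rfl s10_pm_213

noncomputable def f_mm_001 : ℕ → ℕ → ℕ → ℕ → Bool := onCell 0 536870912 0 536870912 67108864 67108864
    (rowNK 3 1 false false false .up 0 0 1 (qsf 0 536870912 536870912 536870912 0) ndN0q0 ndN4q1 pcN0 Cut.none Ext.none)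

def k0_mm_001 : ∃ t, chk3 f_mm_001 t 1 1 1 = true :=
  ⟨(l 3), by decide +kernel⟩

theorem c_mm_001 : CertN 0 536870912 536870912 536870912 67108864 67108864 3 false false false .up 0 0 1
    ndN0q0 ndN4q1 pcN0 Cut.none Ext.none :=
  certNK1 (fam := false) (s1 := false) (s2 := false) (a := 0) (b := 0) (c := 1) (cn := .up) (n1 := ndN0q0) (n2 := ndN4q1) (pc := pcN0) (cut := Cut.none) (xt := Ext.none) (P1 := 0) (W1 := 536870912) (P2 := 536870912) (W2 := 536870912) (P3 := 67108864) (W3 := 67108864) (N0 := 3)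
    rfl rfl rfl (fun _ => rfl) k0_mm_001

noncomputable def f_mm_011 : ℕ → ℕ → ℕ → ℕ → Bool := onCell 0 536870912 536870912 536870912 67108864 67108864
    (rowNK 3 1 false false false .pnn 0 1 1 (qsf 0 536870912 536870912 536870912 1) ndN0q0 ndN4q1 pcN1 Cut.none Ext.none)

def k0_mm_011 : ∃ t, chk3 f_mm_011 t 1 1 1 = true :=
  ⟨(l 5), by decide +kernel⟩

theorem c_mm_011 : CertN 0 536870912 536870912 536870912 67108864 67108864 3 false false false .pnn 0 1 1
    ndN0q0 ndN4q1 pcN1 Cut.none Ext.none :=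
  certNK1 (fam := false) (s1 := false) (s2 := false) (a := 0) (b := 1) (c := 1) (cn := .pnn) (n1 := ndN0q0) (n2 := ndN4q1) (pc := pcN1) (cut := Cut.none) (xt := Ext.none) (P1 := 0) (W1 := 536870912) (P2 := 536870912) (W2 := 536870912) (P3 := 67108864) (W3 := 67108864) (N0 := 3)
    rfl rfl rfl (fun _ => rfl) k0_mm_011

noncomputable def f_mm_012 : ℕ → ℕ → ℕ → ℕ → Bool := onCell 0 536870912 1073741824 536870912 67108864 67108864
    (rowNK 3 0 false false false .pnp 0 1 2 (qsf 0 536870912 1073741824 536870912 1) ndN0q0 ndN4q2 pcN1 Cut.none Ext.none)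

def k0_mm_012 : ∃ t, chk3 f_mm_012 t 1 1 1 = true :=
  ⟨(l 5), by decide +kernel⟩

theorem c_mm_012 : CertN 0 536870912 1073741824 536870912 67108864 67108864 3 false false false .pnp 0 1 2
    ndN0q0 ndN4q2 pcN1 Cut.none Ext.none :=
  certNK0 (fam := false) (s1 := false) (s2 := false) (a := 0) (b := 1) (c := 2) (cn := .pnp) (n1 := ndN0q0) (n2 := ndN4q2) (pc := pcN1) (cut := Cut.none) (xt := Ext.none) (P1 := 0) (W1 := 536870912) (P2 := 1073741824) (W2 := 536870912) (P3 := 67108864) (W3 := 67108864) (N0 := 3)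
    rfl rfl rfl k0_mm_012

noncomputable def f_mm_022 : ℕ → ℕ → ℕ → ℕ → Bool := onCell 0 536870912 1073741824 536870912 67108864 67108864
    (rowNK 3 0 false false false .pp 0 2 2 (qsf 0 536870912 1073741824 536870912 2) ndN0q0 ndN4q2 pcN2 Cut.none Ext.none)

def k0_mm_022 : ∃ t, chk3 f_mm_022 t 1 1 1 = true :=
  ⟨(l 5), by decide +kernel⟩

theorem c_mm_022 : CertN 0 536870912 1073741824 536870912 67108864 67108864 3 false false false .pp 0 2 2
    ndN0q0 ndN4q2 pcN2 Cut.none Ext.none :=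
  certNK0 (fam := false) (s1 := false) (s2 := false) (a := 0) (b := 2) (c := 2) (cn := .pp) (n1 := ndN0q0) (n2 := ndN4q2) (pc := pcN2) (cut := Cut.none) (xt := Ext.none) (P1 := 0) (W1 := 536870912) (P2 := 1073741824) (W2 := 536870912) (P3 := 67108864) (W3 := 67108864) (N0 := 3)
    rfl rfl rfl k0_mm_022

noncomputable def f_mm_023 : ℕ → ℕ → ℕ → ℕ → Bool := onCell 0 536870912 0 1230186008 67108864 67108864
    (rowNK 3 0 false false false .up 0 2 3 (qsf 0 536870912 0 1230186008 2) ndN0q0 ndN4q3 pcN2 Cut.none Ext.none)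

def k0_mm_023 : ∃ t, chk3 f_mm_023 t 1 1 1 = true :=
  ⟨(l 5), by decide +kernel⟩

theorem c_mm_023 : CertN 0 536870912 0 1230186008 67108864 67108864 3 false false false .up 0 2 3
    ndN0q0 ndN4q3 pcN2 Cut.none Ext.none :=
  certNK0 (fam := false) (s1 := false) (s2 := false) (a := 0) (b := 2) (c := 3) (cn := .up) (n1 := ndN0q0) (n2 := ndN4q3) (pc := pcN2) (cut := Cut.none) (xt := Ext.none) (P1 := 0) (W1 := 536870912) (P2 := 0) (W2 := 1230186008) (P3 := 67108864) (W3 := 67108864) (N0 := 3)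
    rfl rfl rfl k0_mm_023

noncomputable def f_mm_033 : ℕ → ℕ → ℕ → ℕ → Bool := onCell 0 536870912 0 1230186008 67108864 67108864
    (rowNK 3 0 false false false .pnn 0 3 3 (qsf 0 536870912 0 1230186008 3) ndN0q0 ndN4q3 pcN3 Cut.none Ext.none)

def k0_mm_033 : ∃ t, chk3 f_mm_033 t 1 1 1 = true :=
  ⟨(l 5), by decide +kernel⟩

theorem c_mm_033 : CertN 0 536870912 0 1230186008 67108864 67108864 3 false false false .pnn 0 3 3
    ndN0q0 ndN4q3 pcN3 Cut.none Ext.none :=
  certNK0 (fam := false) (s1 := false) (s2 := false) (a := 0) (b := 3) (c := 3) (cn := .pnn) (n1 := ndN0q0) (n2 := ndN4q3) (pc := pcN3) (cut := Cut.none) (xt := Ext.none) (P1 := 0) (W1 := 536870912) (P2 := 0) (W2 := 1230186008) (P3 := 67108864) (W3 := 67108864) (N0 := 3)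
    rfl rfl rfl k0_mm_033

noncomputable def cut_mm_101 : Cut := Cut.of [[⟨0, 1, 0, 67108864⟩, ⟨1, 0, 0, 67108864⟩, ⟨2, 1, 0, 67108864⟩]]

noncomputable def f_mm_101 : ℕ → ℕ → ℕ → ℕ → Bool := onCell 536870912 536870912 0 536870912 67108864 67108864
    (rowNK 3 1 false false false .npn 1 0 1 (qsf 536870912 536870912 536870912 536870912 0) ndN0q1 ndN4q1 pcN0 cut_mm_101 Ext.none)

def k0_mm_101 : ∃ t, chk3 f_mm_101 t 1 1 1 = true :=
  ⟨(a (l 3) (b (b (a (l 3) (b (a (l 3) (a (l 3) (b (l 6) (l 3)))) (l 3))) (l 3)) (l 3))), by decide +kernel⟩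

theorem c_mm_101 : CertN 536870912 536870912 536870912 536870912 67108864 67108864 3 false false false .npn 1 0 1
    ndN0q1 ndN4q1 pcN0 cut_mm_101 Ext.none :=
  certNK1 (fam := false) (s1 := false) (s2 := false) (a := 1) (b := 0) (c := 1) (cn := .npn) (n1 := ndN0q1) (n2 := ndN4q1) (pc := pcN0) (cut := cut_mm_101) (xt := Ext.none) (P1 := 536870912) (W1 := 536870912) (P2 := 536870912) (W2 := 536870912) (P3 := 67108864) (W3 := 67108864) (N0 := 3)
    rfl rfl rfl (fun _ => rfl) k0_mm_101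

noncomputable def cut_mm_102 : Cut := Cut.of [[⟨0, 1, 0, 67108864⟩, ⟨1, 0, 0, 67108864⟩, ⟨2, 1, 0, 67108864⟩]]

noncomputable def f_mm_102 : ℕ → ℕ → ℕ → ℕ → Bool := onCell 536870912 536870912 0 536870912 67108864 67108864
    (rowNK 3 1 false false false .npp 1 0 2 (qsf 536870912 536870912 1073741824 536870912 0) ndN0q1 ndN4q2 pcN0 cut_mm_102 Ext.none)

def k0_mm_102 : ∃ t, chk3 f_mm_102 t 1 1 1 = true :=
  ⟨(b (a (l 3) (b (a (l 3) (b (a (l 3) (a (l 3) (b (l 6) (l 3)))) (l 3))) (l 3))) (l 3)), by decide +kernel⟩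

theorem c_mm_102 : CertN 536870912 536870912 1073741824 536870912 67108864 67108864 3 false false false .npp 1 0 2
    ndN0q1 ndN4q2 pcN0 cut_mm_102 Ext.none :=
  certNK1 (fam := false) (s1 := false) (s2 := false) (a := 1) (b := 0) (c := 2) (cn := .npp) (n1 := ndN0q1) (n2 := ndN4q2) (pc := pcN0) (cut := cut_mm_102) (xt := Ext.none) (P1 := 536870912) (W1 := 536870912) (P2 := 1073741824) (W2 := 536870912) (P3 := 67108864) (W3 := 67108864) (N0 := 3)
    rfl rfl rfl (fun _ => rfl) k0_mm_102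

noncomputable def f_mm_112 : ℕ → ℕ → ℕ → ℕ → Bool := onCell 536870912 536870912 1073741824 536870912 67108864 67108864
    (rowNK 3 2 false false false .dn 1 1 2 (qsf 536870912 536870912 1073741824 536870912 1) ndN0q1 ndN4q2 pcN1 Cut.none Ext.none)

def k0_mm_112 : ∃ t, chk3 f_mm_112 t 1 1 1 = true :=
  ⟨(a (l 3) (l 5)), by decide +kernel⟩

theorem c_mm_112 : CertN 536870912 536870912 1073741824 536870912 67108864 67108864 3 false false false .dn 1 1 2
    ndN0q1 ndN4q2 pcN1 Cut.none Ext.none :=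
  certNK2 (fam := false) (s1 := false) (s2 := false) (a := 1) (b := 1) (c := 2) (cn := .dn) (n1 := ndN0q1) (n2 := ndN4q2) (pc := pcN1) (cut := Cut.none) (xt := Ext.none) (P1 := 536870912) (W1 := 536870912) (P2 := 1073741824) (W2 := 536870912) (P3 := 67108864) (W3 := 67108864) (N0 := 3)
    rfl rfl rfl (fun _ => rfl) k0_mm_112

noncomputable def f_mm_113 : ℕ → ℕ → ℕ → ℕ → Bool := onCell 536870912 536870912 0 1230186008 67108864 67108864
    (rowNK 3 0 false false false .nn 1 1 3 (qsf 536870912 536870912 0 1230186008 1) ndN0q1 ndN4q3 pcN1 Cut.none Ext.none)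

def k0_mm_113 : ∃ t, chk3 f_mm_113 t 1 1 1 = true :=
  ⟨(b (l 5) (a (l 5) (b (a (l 5) (l 3)) (l 3)))), by decide +kernel⟩

theorem c_mm_113 : CertN 536870912 536870912 0 1230186008 67108864 67108864 3 false false false .nn 1 1 3
    ndN0q1 ndN4q3 pcN1 Cut.none Ext.none :=
  certNK0 (fam := false) (s1 := false) (s2 := false) (a := 1) (b := 1) (c := 3) (cn := .nn) (n1 := ndN0q1) (n2 := ndN4q3) (pc := pcN1) (cut := Cut.none) (xt := Ext.none) (P1 := 536870912) (W1 := 536870912) (P2 := 0) (W2 := 1230186008) (P3 := 67108864) (W3 := 67108864) (N0 := 3)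
    rfl rfl rfl k0_mm_113

noncomputable def f_mm_123 : ℕ → ℕ → ℕ → ℕ → Bool := onCell 1073741824 536870912 0 1230186008 67108864 67108864
    (rowNK 3 2 false false false .npn 1 2 3 (qsf 536870912 536870912 0 1230186008 2) ndN0q1 ndN4q3 pcN2 Cut.none Ext.none)

def k0_mm_123 : ∃ t, chk3 f_mm_123 t 1 1 1 = true :=
  ⟨(b (l 5) (l 5)), by decide +kernel⟩

theorem c_mm_123 : CertN 536870912 536870912 0 1230186008 67108864 67108864 3 false false false .npn 1 2 3
    ndN0q1 ndN4q3 pcN2 Cut.none Ext.none :=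
  certNK2 (fam := false) (s1 := false) (s2 := false) (a := 1) (b := 2) (c := 3) (cn := .npn) (n1 := ndN0q1) (n2 := ndN4q3) (pc := pcN2) (cut := Cut.none) (xt := Ext.none) (P1 := 536870912) (W1 := 536870912) (P2 := 0) (W2 := 1230186008) (P3 := 67108864) (W3 := 67108864) (N0 := 3)
    rfl rfl rfl (fun _ => rfl) k0_mm_123

noncomputable def f_mm_133 : ℕ → ℕ → ℕ → ℕ → Bool := onCell 1610612736 536870912 0 1230186008 67108864 67108864
    (rowNK 3 2 false false false .dn 1 3 3 (qsf 536870912 536870912 0 1230186008 3) ndN0q1 ndN4q3 pcN3 Cut.none Ext.none)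

def k0_mm_133 : ∃ t, chk3 f_mm_133 t 1 1 1 = true :=
  ⟨(l 5), by decide +kernel⟩

theorem c_mm_133 : CertN 536870912 536870912 0 1230186008 67108864 67108864 3 false false false .dn 1 3 3
    ndN0q1 ndN4q3 pcN3 Cut.none Ext.none :=
  certNK2 (fam := false) (s1 := false) (s2 := false) (a := 1) (b := 3) (c := 3) (cn := .dn) (n1 := ndN0q1) (n2 := ndN4q3) (pc := pcN3) (cut := Cut.none) (xt := Ext.none) (P1 := 536870912) (W1 := 536870912) (P2 := 0) (W2 := 1230186008) (P3 := 67108864) (W3 := 67108864) (N0 := 3)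
    rfl rfl rfl (fun _ => rfl) k0_mm_133

noncomputable def cut_mm_202 : Cut := Cut.of [[⟨0, 1, 0, 67108864⟩, ⟨1, 0, 0, 67108864⟩, ⟨2, 1, 0, 67108864⟩]]

noncomputable def f_mm_202 : ℕ → ℕ → ℕ → ℕ → Bool := onCell 0 536870912 0 536870912 67108864 67108864
    (rowNK 3 1 false false false .pp 2 0 2 (qsf 0 536870912 1073741824 536870912 0) ndN0q2 ndN4q2 pcN0 cut_mm_202 Ext.none)

def k0_mm_202 : ∃ t, chk3 f_mm_202 t 2 4 1 = true :=
  ⟨(b (a (l 18936816) (b (l 18413568) (l 18054736))) (a (l 18405304) (b (l 17783080) (l 17653376)))), by decide +kernel⟩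

def k1_mm_202 : ∃ t, chk3 f_mm_202 t 6 8 1 = true :=
  ⟨(a (b (l 17855264) (l 17523232)) (b (a (l 17563896) (l 17454680)) (b (l 17317576) (l 17302624)))), by decide +kernel⟩

def k2_mm_202 : ∃ t, chk3 f_mm_202 t 14 8 1 = true :=
  ⟨(b (a (b (l 17268416) (l 17099136)) (b (b (l 17129240) (l 17042560)) (b (l 17069944) (a (l 16911056) (l 16995936))))) (b (a (l 17104568) (a (b (l 16920320) (l 16883440)) (c (l 17091576) (a (l 17038176) (b (l 16848096) (l 16837512)))))) (a (b (l 16991512) (l 17060152)) (b (a (l 16878112) (l 16840856)) (l 16869456))))), by decide +kernel⟩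

def k3_mm_202 : ∃ t, chk3 f_mm_202 t 15 16 1 = true :=
  ⟨(a (b (l 6) (b (l 6) (a (b (l 16899736) (a (l 16840016) (l 16824808))) (l 6)))) (l 6)), by decide +kernel⟩

def k4_mm_202 : ∃ t, chk3 f_mm_202 t 60 34 1 = true :=
  ⟨(b (l 16826624) (l 16819048)), by decide +kernel⟩

def k5_mm_202 : ∃ t, chk3 f_mm_202 t 61 68 1 = true :=
  ⟨(a (l 16806168) (a (l 16796664) (l 6))), by decide +kernel⟩

def k6_mm_202 : ∃ t, chk3 f_mm_202 t 122 69 1 = true :=
  ⟨(a (l 16801728) (l 16805704)), by decide +kernel⟩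

def k7_mm_202 : ∃ t, chk3 f_mm_202 t 246 69 1 = true :=
  ⟨(b (l 16790896) (a (l 16788424) (b (l 16786344) (a (l 16785040) (a (c (l 16782208) (l 16782256)) (b (l 16783632) (b (c (c (l 163376539655) (l 160155313703)) (l 159081571815)) (a (b (c (l 16782744) (l 16782296)) (c (c (l 248739015447) (l 247128402423)) (l 245517789383))) (c (c (l 269140111671) (l 269140111287)) (l 269676981607)))))))))), by decide +kernel⟩

def k8_mm_202 : ∃ t, chk3 f_mm_202 t 247 138 1 = true :=
  ⟨(a (b (l 16787288) (l 16785312)) (b (l 6) (a (b (l 16783552) (b (c (l 16781720) (l 16782536)) (a (l 16782640) (b (a (l 16782176) (a (c (l 218137372007) (l 213305533415)) (l 265382014007))) (a (a (l 16783280) (c (l 247665272855) (l 241222821175))) (c (l 286319977207) (l 290078072887))))))) (b (a (a (l 16782608) (l 6)) (l 6)) (a (b (a (b (a (l 16782016) (c (l 213842404615) (l 207936824119))) (a (c (l 243907176311) (l 237464724663)) (l 279877528263))) (b (c (l 266455755831) (l 266992626055)) (l 3)))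 (c (l 291151816263) (l 297594266471))) (l 3)))))), by decide +kernel⟩

def k9_mm_202 : ∃ t, chk3 f_mm_202 t 247 139 1 = true :=
  ⟨(a (a (b (c (l 16781744) (l 16781096)) (a (b (b (l 16783112) (a (l 16782752) (b (l 16783120) (a (c (l 224042952935) (l 16782032)) (l 268603240167))))) (b (a (b (a (l 16782384) (c (l 249812757143) (l 244444047319))) (c (l 273971946871) (l 273971946103))) (c (l 287930590935) (l 292225557447))) (l 3))) (b (a (a (b (l 16782592) (b (a (l 246054661879) (l 263771401767)) (l 291151818247))) (b (a (l 16783088) (b (l 16782472) (l 243907178151))) (c (l 285783106999) (l 289541202615)))) (b (b (a (l 16782304) (c (l 242296564087) (l 236927854295))) (c (l 268066369271) (l 268066365895))) (l 3))) (l 3)))) (b (a (b (l 16783408) (b (c (l 16782176) (l 16782368)) (a (b (l 16782368) (a (c (l 16782360) (l 16781952)) (l 261087047207))) (b (c (c (l 251960240727) (l 250349627543)) (l 249812756599)) (c (l 289004332279) (l 293299298823)))))) (b (a (l 16782824)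 (a (c (l 16781440) (l 16782296)) (b (l 16782600) (b (l 16782160) (c (l 253570853127) (l 249275885159)))))) (b (a (b (a (l 16782208) (c (l 231022274279) (l 227801048471))) (c (l 262160789015) (l 262160788279))) (c (l 283098754855) (l 285246235143))) (l 3)))) (a (a (b (b (b (l 282025012615) (l 3)) (l 3)) (l 3)) (l 3)) (l 3)))) (b (a (b (a (b (a (c (c (l 16781304) (l 16782400)) (l 16782072)) (b (a (l 16782112) (c (l 222969210375) (l 218137371783))) (c (c (l 257328949447) (l 256792079495)) (l 255718337143)))) (b (a (a (c (l 227264177831) (l 222969210135)) (l 269676981495)) (l 294373043495)) (c (l 289541203319) (l 294373040791)))) (a (b (c (l 279340658231) (l 280951270247)) (l 3)) (l 3))) (l 3)) (l 3)) (l 3))), by decide +kernel⟩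

def k10_mm_202 : ∃ t, chk3 f_mm_202 t 60 35 1 = true :=
  ⟨(a (l 16847240) (b (l 16803360) (a (l 16797272) (b (l 16792704) (a (l 16789392) (b (l 16787184) (b (c (l 16782992) (l 16782240)) (a (l 16784768) (a (b (l 16783744) (a (l 16784552) (a (l 243370309191) (l 250349632391)))) (a (b (c (l 226727309943) (l 212231793383)) (l 283635629047)) (l 271287598359))))))))))), by decide +kernel⟩

def k11_mm_202 : ∃ t, chk3 f_mm_202 t 122 70 1 = true :=
  ⟨(a (b (l 16795368) (l 16790736)) (b (a (l 16790432) (b (l 16788336) (l 16786048))) (a (b (l 16786952) (a (l 16785368) (b (l 16784320) (a (a (l 16783688) (c (c (l 167671507095) (l 166597765255)) (l 167134636375))) (a (b (l 16783128) (c (l 251960242759) (l 249812758311))) (b (b (l 16784128) (l 259476435687)) (l 292225561015))))))) (a (b (a (l 16784904) (b (l 16784688) (c (c (l 158007831127) (l 16782280)) (l 153712863303)))) (a (a (c (b (c (l 160155313495) (l 160692184631)) (l 281488143447)) (b (l 162839668903) (l 284172494551)))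 (b (b (l 16783128) (a (b (l 16782688) (l 274508820711)) (l 263771402279))) (l 3))) (b (a (b (b (l 16782824) (l 255718339303)) (l 290614948183)) (b (a (l 261087047687) (l 289004335239)) (l 3))) (l 3)))) (b (a (b (l 16783864) (b (a (l 16783120) (b (l 16782824) (c (l 248739016199) (l 241222822455)))) (a (b (c (l 233169759495) (l 226190436887)) (l 272898210311)) (l 289541206279)))) (b (b (l 16783328) (a (c (c (l 187535731111) (l 16783000)) (l 16782648)) (b (c (l 221895469671) (l 219211114871)) (l 267529498519)))) (b (c (c (l 273435079623) (l 274508821031)) (l 275582562231)) (l 3)))) (l 3)))))), by decide +kernel⟩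

def k12_mm_202 : ∃ t, chk3 f_mm_202 t 122 71 1 = true :=
  ⟨(a (b (b (a (l 16788792) (a (l 16786256) (a (l 16784984) (a (l 16784344) (b (l 16784552) (b (l 16783584) (b (l 16783056) (l 247128405143)))))))) (a (l 16786296) (a (b (l 16784352) (a (a (l 16783688) (b (l 16783576) (a (l 227801052791) (l 247665276407)))) (b (a (c (l 16782688) (l 16782848)) (c (l 242833437463) (l 239075340295))) (l 275045694583)))) (b (b (a (c (l 16782296) (l 16783088)) (a (b (l 236927857863) (l 264308275911)) (l 284709370791))) (a (a (a (l 222432343543) (l 243370308919)) (l 262697663303)) (l 3))) (c (c (l 287930593479) (l 291151818503)) (l 295446785143)))))) (b (b (a (a (l 16785224) (b (c (l 159081573223) (l 16782200)) (a (l 16783552) (a (a (l 231559149143) (l 250886501799)) (l 271287597959))))) (b (a (a (c (l 260013306759) (l 260013305911)) (l 3)) (l 3)) (l 3))) (a (a (a (l 16784344) (b (l 16783784) (a (l 16783296) (a (l 235854116487) (l 254644598119))))) (a (a (b (c (l 205252471751) (l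 202031245959)) (l 275582565303)) (c (l 266455757879) (l 267529501479))) (l 292225563399))) (l 3))) (a (a (a (b (b (a (l 16783528) (c (l 209547438999) (l 207399955207))) (a (a (l 239612212807) (l 257865823543)) (l 279340661719))) (l 293299306679)) (b (c (l 274508824551) (l 276656307319)) (l 3))) (l 3)) (l 3)))) (b (a (b (a (a (b (l 16783912) (b (a (c (l 16783368) (l 16782872)) (b (l 232632890615) (l 258939566759))) (c (l 269676983159) (l 270750726775)))) (a (b (b (l 16783584) (b (l 16783064) (l 242296566759))) (l 285783111783)) (b (b (l 16783128) (c (l 256255210087) (l 254107725623))) (l 3)))) (b (a (b (a (b (l 227801052343) (l 263771402983)) (l 276656306983)) (l 293299303303)) (l 3)) (l 3))) (l 3)) (l 3)) (l 3))), by decide +kernel⟩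

def k13_mm_202 : ∃ t, chk3 f_mm_202 t 123 35 1 = true :=
  ⟨(b (a (b (a (a (b (l 16785952) (b (l 16784216) (a (c (l 16782384) (l 16783152)) (b (a (l 16783096) (b (l 16782808) (c (l 238001597879) (l 229411662151)))) (a (b (c (l 215989889575) (l 212231792839)) (l 262160789351)) (l 283098755159)))))) (b (b (l 16784936) (c (l 16781456) (l 16783488))) (a (b (b (l 16783288) (a (c (l 16783104) (l 16782624)) (b (c (l 209547438567) (l 204178728903)) (c (l 258939561591) (l 261087046423))))) (b (a (a (b (l 244980920711) (l 285783109383)) (l 277193174919)) (l 293836173639)) (l 3))) (b (b (a (b (l 16782800) (a (l 16782560) (l 255181467799))) (b (c (l 246591532343) (l 239612209511)) (l 286856851271))) (c (l 284172497655) (l 286856848775))) (l 3))))) (a (b (b (b (l 16783640) (b (c (l 16782144) (l 16782936)) (a (l 16783304) (a (l 16782656) (c (l 254644595991) (l 250349627783)))))) (b (b (a (l 16783000) (a (c (c (l 239075338935) (l 237464726007)) (l 233706629287)) (l 290614947655)))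 (a (a (l 16782896) (a (l 16782544) (l 250349629623))) (c (l 287393720215) (l 290614944887)))) (a (a (b (c (l 203104987527) (l 16782328)) (c (l 253570855031) (l 256255208007))) (c (l 276119433527) (l 277730042839))) (l 3)))) (a (a (b (c (l 291151817383) (l 297057396599)) (l 3)) (l 3)) (l 3))) (b (b (b (a (b (a (l 16782760) (a (l 16783712) (l 258402693031))) (a (c (c (l 215453018599) (l 211694921783)) (l 210621179895)) (l 277730045591))) (c (l 290078075095) (l 295446783415))) (a (a (c (l 272361337047) (l 273435078087)) (l 3)) (l 3))) (l 3)) (l 3)))) (a (a (b (b (a (b (a (b (l 16782816) (c (l 244444048935) (l 235317242311))) (c (l 261623918983) (l 261623918183))) (c (l 288467462519) (l 292762428983))) (c (l 291688688935) (l 299204880855))) (l 3)) (l 3)) (l 3)) (l 3))) (l 3)) (l 3)), by decide +kernel⟩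

def k14_mm_202 : ∃ t, chk3 f_mm_202 t 31 17 1 = true :=
  ⟨(b (a (a (b (l 6) (b (b (l 6) (b (l 6) (l 3))) (l 3))) (l 3)) (l 3)) (l 3)), by decide +kernel⟩

def k15_mm_202 : ∃ t, chk3 f_mm_202 t 6 9 1 = true :=
  ⟨(a (b (l 17491304) (b (l 17372856) (l 17330888))) (b (a (l 17461032) (b (l 17151408) (l 17164136))) (b (a (l 17187880) (l 17072280)) (l 17070768)))), by decide +kernel⟩

def k16_mm_202 : ∃ t, chk3 f_mm_202 t 14 18 1 = true :=
  ⟨(a (a (b (l 17073968) (l 17022832)) (l 16967576)) (b (a (l 16901232) (a (l 16849624) (b (l 16818880) (l 16814416)))) (a (b (l 16885592) (l 16863504)) (a (b (l 16830760) (a (l 16815880) (b (l 16803792) (a (l 16790728) (a (b (l 16791160) (a (l 192367575783) (b (l 16784728) (l 219211114727)))) (a (b (l 16787696) (b (l 203104988199) (l 279877526215))) (b (l 181093283687) (l 262160797143)))))))) (b (a (b (l 16809856) (a (l 16802960) (l 16794256))) (b (a (l 16797512) (a (l 16791552) (b (l 16790400) (b (l 16786360) (c (l 197199412263)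 (l 170892731607)))))) (a (b (l 16788912) (b (a (l 16786392) (a (a (l 16783992) (l 216526764455)) (a (l 225116698135) (l 246591535399)))) (a (b (l 16784160) (l 212768667367)) (l 263234539527)))) (b (b (a (c (l 165524022951) (l 16781232)) (a (a (l 232632891863) (l 240685955607)) (l 276656312231))) (a (a (b (l 16783456) (l 229411667479)) (l 246054664695)) (l 3))) (l 290614956567))))) (a (b (a (a (l 16792344) (b (l 16791200) (b (l 16786200) (a (l 16784008) (l 214379278263))))) (a (b (c (l 16784104) (l 16784656)) (b (b (l 206863086439) (a (l 228874794279) (l 274508817159))) (l 276656312119))) (b (b (l 192367574263) (a (a (l 222969215047) (l 228874795831)) (l 264845151559))) (l 293299301655)))) (a (b (a (b (l 200420638119) (a (l 217600502807) (l 274508817223))) (l 265382023415)) (l 3)) (l 3))) (b (a (a (b (b (c (l 245517791639) (l 246591532647)) (l 3)) (l 3)) (l 3)) (l 3)) (l 3)))))))), by decide +kernel⟩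

def k17_mm_202 : ∃ t, chk3 f_mm_202 t 28 19 1 = true :=
  ⟨(a (b (l 16972288) (l 16870152)) (b (l 16878032) (a (l 16836192) (b (l 16813304) (a (l 16802280) (b (a (l 16805864) (b (l 16799872) (l 16781520))) (a (a (l 16787440) (b (l 16791632) (l 204178731879))) (b (a (l 186461991111) (l 210621178503)) (l 263234544583))))))))), by decide +kernel⟩

def k18_mm_202 : ∃ t, chk3 f_mm_202 t 29 19 1 = true :=
  ⟨(a (b (a (b (l 16855824) (a (l 16835840) (l 16794992))) (b (a (l 16826432) (b (l 16814080) (a (l 16804080) (b (l 16797936) (l 16787640))))) (a (b (l 16782704) (a (b (l 16796976) (l 191830707543)) (a (b (l 16789392) (b (l 198273151015) (l 231022276039))) (b (c (l 206326219047) (l 197199409031)) (l 263234537127))))) (b (a (b (l 16792504) (a (l 175187701895) (b (l 195051926823) (l 224579826087)))) (b (a (a (l 16786248) (l 203641862423)) (b (l 209547440743) (l 259476440855))) (l 269140118967))) (a (a (b (b (l 213842409415) (l 268066364567)) (l 3)) (l 3)) (l 3)))))) (a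 (b (a (b (l 16812488) (a (l 16801720) (b (l 16795632) (c (l 195588800119) (l 193441315783))))) (b (a (l 16797424) (b (l 16791272) (a (l 194515057079) (a (l 207936825063) (l 225116695607))))) (a (b (c (a (l 16779440) (l 210084312087)) (l 202031249079)) (c (a (l 220821726487) (l 3)) (l 250886504343))) (l 287930608439)))) (a (b (a (b (l 188072609127) (a (l 202568120519) (l 231022274871))) (b (c (a (l 212231794071) (l 248202149463)) (l 226190437399)) (l 3))) (l 308331707367)) (l 3))) (b (a (b (a (b (a (a (l 192367572167) (l 206326213031)) (l 238001598023)) (l 278803804999)) (l 3)) (l 3)) (l 3)) (l 3)))) (b (a (b (a (b (a (l 16799368) (a (l 16789416) (b (l 16790912) (a (l 197199413079) (b (l 16784200) (l 229948541159)))))) (a (a (b (l 16790512) (b (l 200957507447) (l 219747986871))) (b (c (l 195588800487) (l 192367573895)) (c (l 251423373127) (l 253033985143)))) (a (b (b (l 205789345543) (l 250886506711)) (l 3)) (l 285783119639)))) (b (a (a (b (c (l 191293834087) (l 186998865415))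 (c (b (l 226727311239) (l 3)) (l 247128405559))) (b (b (l 205789346295) (a (a (l 226727306855) (l 251423377655)) (l 285246235223))) (l 3))) (l 285246250487)) (l 3))) (a (b (a (l 293836184471) (l 3)) (l 3)) (l 3))) (l 3)) (l 3))), by decide +kernel⟩

def k19_mm_202 : ∃ t, chk3 f_mm_202 t 120 36 1 = true :=
  ⟨(b (a (l 16801616) (b (l 16796776) (l 16791336))) (a (b (l 16796488) (a (l 16792280) (b (l 16787768) (a (b (l 16786048) (c (l 163913410455) (l 161765926551))) (a (b (l 16784136) (b (l 235854117079) (l 270750721607))) (b (b (l 16783512) (l 234243505239)) (l 289004333335))))))) (b (a (b (l 16789112) (b (l 16786792) (c (l 147807283495) (l 16782328)))) (a (b (l 16786136) (a (b (l 16784392) (b (a (l 16783464) (l 239075342071)) (l 257328954215))) (b (b (l 16783784) (a (l 16783232) (l 252497114487))) (l 279340662167)))) (a (b (c (l 16783840) (l 16784384)) (a (b (b (l 236390987623) (l 285246236359)) (l 3)) (l 280951275623))) (b (b (l 16784496) (b (a (l 16783584) (l 233169762247))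 (l 250349632471))) (l 3))))) (a (b (b (a (l 16784760) (a (b (l 16783656) (a (l 228874794823) (l 247128401543))) (c (l 258402696711) (l 258402695847)))) (a (a (b (l 16784096) (l 220821731959)) (b (l 232096021095) (l 263771410311))) (l 286856855655))) (a (c (l 277193180231) (l 276656308407)) (l 3))) (l 3))))), by decide +kernel⟩

def k20_mm_202 : ∃ t, chk3 f_mm_202 t 121 36 1 = true :=
  ⟨(b (a (b (a (l 16791272) (b (l 16789000) (c (l 16784104) (l 16780632)))) (a (b (l 16787176) (a (c (l 16782384) (l 16784912)) (a (b (l 16784584) (a (b (l 16783696) (l 243907180487)) (b (l 226727311431) (l 271824463591)))) (b (a (l 16783856) (b (l 16783744) (l 240685955031))) (l 269676985735))))) (a (a (b (l 16784872) (b (b (a (l 16784544) (l 241759697943)) (l 275045694567)) (l 3))) (b (b (l 16784656) (b (c (l 16783808) (l 16783272)) (a (l 237464729639) (l 262697663367)))) (l 291688694775))) (b (a (c (b (l 168745248983) (l 265918889783)) (b (l 168745249191) (l 267529501639))) (b (b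 (a (l 16783328) (l 247665276727)) (l 268603243607)) (l 3))) (l 3))))) (b (b (b (a (l 16786096) (c (a (b (a (l 16784496) (a (l 16783744) (l 231022277303))) (a (l 16782416) (l 256792081335))) (l 282025018151)) (a (b (l 167134636503) (a (l 16783200) (l 256255212199))) (l 286319984551)))) (a (a (l 16785640) (a (l 16784272) (b (l 16783696) (a (l 223506085943) (l 243907181575))))) (a (a (a (b (l 238538471463) (l 290614945735)) (l 277193178455)) (l 3)) (l 3)))) (a (b (a (c (c (l 158007831479) (l 16782440)) (l 154249734583)) (a (b (a (l 16783416) (l 241759696919)) (l 262160792663)) (l 282561887959))) (a (a (b (l 16783624) (a (l 230485407815) (l 252497116087))) (a (b (l 244444051255) (l 293836171287)) (l 282561887639))) (l 3))) (l 3))) (a (a (b (b (l 289004339719) (l 3)) (l 3)) (l 3)) (l 3)))) (a (b (a (b (a (b (a (c (c (l 182703893063) (l 181630151111)) (l 180556409127)) (b (c (l 231022277911) (l 238538470135)) (l 281488140279))) (l 279877533767)) (c (l 290614949015) (l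 295983657207))) (l 3)) (l 3)) (l 3)) (l 3))), by decide +kernel⟩

def k21_mm_202 : ∃ t, chk3 f_mm_202 t 60 37 1 = true :=
  ⟨(a (b (a (b (b (a (a (l 16786728) (b (l 16781968) (a (b (l 16783792) (l 231022278919)) (b (l 228874796567) (l 277730043399))))) (a (a (b (b (l 214379280631) (l 240685955863)) (l 292762429719)) (l 277193184263)) (l 3))) (a (a (a (b (l 16783816) (a (l 238001601191) (l 269140119207))) (b (b (l 220284860679) (l 247128406551)) (l 3))) (l 283098759751)) (l 3))) (l 3)) (l 3)) (l 3)) (l 3)), by decide +kernel⟩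

def k22_mm_202 : ∃ t, chk3 f_mm_202 t 61 18 1 = true :=
  ⟨(l 3), by decide +kernel⟩

def k23_mm_202 : ∃ t, chk3 f_mm_202 t 31 18 1 = true :=
  ⟨(l 3), by decide +kernel⟩

def k24_mm_202 : ∃ t, chk3 f_mm_202 t 15 19 1 = true :=
  ⟨(l 3), by decide +kernel⟩

def k25_mm_202 : ∃ t, chk3 f_mm_202 t 2 5 1 = true :=
  ⟨(b (a (b (l 17777912) (l 17593696)) (b (a (l 17470592) (a (l 17385384) (l 17371792))) (a (a (l 17439672) (l 17303520)) (a (l 17227760) (l 17160112))))) (a (b (l 17610896) (a (l 17694008) (l 17354696))) (a (b (l 17476336) (l 17167328)) (b (l 17082624) (l 16996720))))), by decide +kernel⟩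

def k26_mm_202 : ∃ t, chk3 f_mm_202 t 6 5 1 = true :=
  ⟨(b (a (b (a (b (l 17244160) (l 17179992)) (l 17129136)) (l 17050424)) (b (a (l 17033400) (a (l 16950600) (b (l 16918696) (a (l 16875496) (l 16822344))))) (a (b (l 16945656) (l 16892984)) (a (b (l 16865072) (a (b (l 16840584) (l 16795472)) (b (a (l 16819496) (b (l 16811184) (l 16788632))) (a (b (l 16801592) (l 218137387367)) (b (l 221358606727) (l 284709381207)))))) (b (a (b (l 16833672) (a (l 16815120) (b (l 16806216) (a (l 16797480) (l 209010581799))))) (b (a (l 16789080) (b (l 16790056) (b (l 212231809063) (b (l 214916153367) (l 219211118631))))) (a (b (a (l 188072606951) (l 213305542327)) (l 278803829527)) (l 304573623975)))) (a (b (a (b (a (l 16800176) (b (l 16795824) (l 195588800455))) (a (l 213305545559) (l 251960255015))) (b (a (l 214379280711) (l 275582573863)) (l 3))) (l 3)) (l 3))))))) (a (a (l 17107376) (b (l 16931512) (a (b (l 16867520) (l 16831800)) (b (a (l 16839624) (l 16820056)) (a (b (l 16813328)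 (l 231559174359)) (b (l 229948554807) (l 285246275687))))))) (a (b (a (b (l 16869312) (a (l 16837544) (b (l 16825512) (a (l 16811312) (l 233706649127))))) (b (a (l 16833912) (b (l 16820000) (a (l 16783712) (l 222969228903)))) (a (b (a (l 16808248) (l 222432367607)) (a (l 233706660375) (l 284172511591))) (b (a (l 251960276279) (l 297594267367)) (l 3))))) (a (b (a (b (l 16787752) (l 244444082423)) (b (a (l 225116714119) (l 271824498583)) (l 301352368775))) (a (l 306184254071) (l 3))) (l 3))) (b (a (b (a (b (a (b (l 16806064) (l 229948539879)) (b (l 218137392999) (l 257328965255))) (a (l 279340711383) (l 3))) (b (l 305110503959) (l 3))) (l 3)) (l 3)) (l 3))))), by decide +kernel⟩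

def k27_mm_202 : ∃ t, chk3 f_mm_202 t 7 5 1 = true :=
  ⟨(b (a (a (b (a (b (a (l 16847328) (b (l 16847888) (a (l 16826776) (b (l 16816064) (a (l 16805840) (l 16786224)))))) (a (b (a (l 16832536) (l 16794296)) (a (a (l 16787496) (a (l 16791664) (b (l 16804816) (b (l 16794536) (l 219747996439))))) (b (a (l 16798416) (b (l 16793296) (l 205789349543))) (a (a (l 207399963191) (a (l 209010569111) (a (l 210084307399) (l 215989890231)))) (l 284172508055))))) (b (a (b (l 16783864) (a (b (l 16798552) (l 16786312)) (b (c (a (l 16794080) (l 227264183943)) (l 179482664327)) (c (l 214916148727) (l 209547436343))))) (b (a (b (l 16795000) (l 202031256311)) (b (c (l 209547447815) (l 202568120423)) (l 261623928919))) (a (c (l 280414431351) (l 280951302263)) (l 3)))) (a (b (a (b (c (l 212768669687) (l 206326214375)) (l 272361347143)) (l 3)) (l 3)) (l 3))))) (b (a (b (a (l 16799200) (b (l 16808848) (a (l 16777392) (b (l 16792576) (a (l 187535729751) (l 206863083783)))))) (a (b (a (l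 16802192) (l 194515061559)) (a (a (l 191830700935) (b (l 16783616) (l 207936823239))) (a (b (l 202031248807) (l 3)) (l 290078086951)))) (b (a (b (l 204178738407) (c (l 233169762999) (l 239612223239))) (l 292225583223)) (l 3)))) (b (a (b (a (b (l 16798216) (l 189146348679)) (b (l 191830702311) (a (l 205252472359) (l 249275888487)))) (a (b (a (l 199883767607) (l 213305530263)) (l 284172508695)) (l 3))) (a (a (b (b (l 212231789831) (l 3)) (l 3)) (l 316921641015)) (l 3))) (l 3))) (a (b (a (l 321753479111) (l 3)) (l 3)) (l 3)))) (a (b (a (b (a (b (a (b (l 16786360) (l 210084313623)) (b (l 212231793415) (l 3))) (l 302962993607)) (l 3)) (l 3)) (l 3)) (l 3)) (l 3))) (l 3)) (l 3)) (l 3)), by decide +kernel⟩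

def k28_mm_202 : ∃ t, chk3 f_mm_202 t 1 3 1 = true :=
  ⟨(a (b (a (b (b (a (l 17488688) (l 17266592)) (a (l 17361416) (l 17152304))) (a (b (l 17254720) (l 17143984)) (l 17029008))) (b (a (l 17032040) (a (l 16943552) (b (l 16889320) (a (l 16842624) (b (l 16831968) (l 250886594439)))))) (a (a (l 16922888) (l 336182365847)) (b (a (a (l 16844024) (l 16861320)) (a (b (l 16830800) (l 263234580439)) (b (l 269140172487) (l 3)))) (a (b (a (l 16810312) (l 254644652743)) (l 276656419927)) (a (l 315311072391) (l 3))))))) (a (l 2) (a (l 2) (a (l 2) (l 3))))) (b (a (b (a (b (a (a (l 16847008) (b (l 16832656) (a (l 16811880) (l 234243547703)))) (a (b (a (l 239075407671) (b (l 242296587879) (l 265382032967))) (l 295983744407)) (b (a (l 293836236391) (l 3)) (l 3)))) (a (a (b (l 247665362903) (a (l 255181497751) (l 291688714423))) (b (a (l 264308312631) (l 301352376407)) (l 3))) (l 3))) (l 3)) (l 3)) (l 3)) (l 3))), by decide +kernel⟩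

theorem s29_mm_202 : ∃ t, chk3 f_mm_202 t 3 5 1 = true := ex3_a k26_mm_202 k27_mm_202

theorem s30_mm_202 : ∃ t, chk3 f_mm_202 t 1 5 1 = true := ex3_a k25_mm_202 s29_mm_202

theorem s31_mm_202 : ∃ t, chk3 f_mm_202 t 60 36 1 = true := ex3_a k19_mm_202 k20_mm_202

theorem s32_mm_202 : ∃ t, chk3 f_mm_202 t 60 18 1 = true := ex3_b s31_mm_202 k21_mm_202

theorem s33_mm_202 : ∃ t, chk3 f_mm_202 t 30 18 1 = true := ex3_a s32_mm_202 k22_mm_202

theorem s34_mm_202 : ∃ t, chk3 f_mm_202 t 15 18 1 = true := ex3_a s33_mm_202 k23_mm_202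

theorem s35_mm_202 : ∃ t, chk3 f_mm_202 t 15 9 1 = true := ex3_b s34_mm_202 k24_mm_202

theorem s36_mm_202 : ∃ t, chk3 f_mm_202 t 14 19 1 = true := ex3_a k17_mm_202 k18_mm_202

theorem s37_mm_202 : ∃ t, chk3 f_mm_202 t 14 9 1 = true := ex3_b k16_mm_202 s36_mm_202

theorem s38_mm_202 : ∃ t, chk3 f_mm_202 t 7 9 1 = true := ex3_a s37_mm_202 s35_mm_202

theorem s39_mm_202 : ∃ t, chk3 f_mm_202 t 3 9 1 = true := ex3_a k15_mm_202 s38_mm_202

theorem s40_mm_202 : ∃ t, chk3 f_mm_202 t 122 35 1 = true := ex3_b k11_mm_202 k12_mm_202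

theorem s41_mm_202 : ∃ t, chk3 f_mm_202 t 61 35 1 = true := ex3_a s40_mm_202 k13_mm_202

theorem s42_mm_202 : ∃ t, chk3 f_mm_202 t 30 35 1 = true := ex3_a k10_mm_202 s41_mm_202

theorem s43_mm_202 : ∃ t, chk3 f_mm_202 t 247 69 1 = true := ex3_b k8_mm_202 k9_mm_202

theorem s44_mm_202 : ∃ t, chk3 f_mm_202 t 123 69 1 = true := ex3_a k7_mm_202 s43_mm_202

theorem s45_mm_202 : ∃ t, chk3 f_mm_202 t 61 69 1 = true := ex3_a k6_mm_202 s44_mm_202

theorem s46_mm_202 : ∃ t, chk3 f_mm_202 t 61 34 1 = true := ex3_b k5_mm_202 s45_mm_202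

theorem s47_mm_202 : ∃ t, chk3 f_mm_202 t 30 34 1 = true := ex3_a k4_mm_202 s46_mm_202

theorem s48_mm_202 : ∃ t, chk3 f_mm_202 t 30 17 1 = true := ex3_b s47_mm_202 s42_mm_202

theorem s49_mm_202 : ∃ t, chk3 f_mm_202 t 15 17 1 = true := ex3_a s48_mm_202 k14_mm_202

theorem s50_mm_202 : ∃ t, chk3 f_mm_202 t 15 8 1 = true := ex3_b k3_mm_202 s49_mm_202

theorem s51_mm_202 : ∃ t, chk3 f_mm_202 t 7 8 1 = true := ex3_a k2_mm_202 s50_mm_202

theorem s52_mm_202 : ∃ t, chk3 f_mm_202 t 3 8 1 = true := ex3_a k1_mm_202 s51_mm_202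

theorem s53_mm_202 : ∃ t, chk3 f_mm_202 t 3 4 1 = true := ex3_b s52_mm_202 s39_mm_202

theorem s54_mm_202 : ∃ t, chk3 f_mm_202 t 1 4 1 = true := ex3_a k0_mm_202 s53_mm_202

theorem s55_mm_202 : ∃ t, chk3 f_mm_202 t 1 2 1 = true := ex3_b s54_mm_202 s30_mm_202

theorem s56_mm_202 : ∃ t, chk3 f_mm_202 t 1 1 1 = true := ex3_b s55_mm_202 k28_mm_202

theorem c_mm_202 : CertN 0 536870912 1073741824 536870912 67108864 67108864 3 false false false .pp 2 0 2
    ndN0q2 ndN4q2 pcN0 cut_mm_202 Ext.none :=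
  certNK1 (fam := false) (s1 := false) (s2 := false) (a := 2) (b := 0) (c := 2) (cn := .pp) (n1 := ndN0q2) (n2 := ndN4q2) (pc := pcN0) (cut := cut_mm_202) (xt := Ext.none) (P1 := 0) (W1 := 536870912) (P2 := 1073741824) (W2 := 536870912) (P3 := 67108864) (W3 := 67108864) (N0 := 3)
    rfl rfl rfl (fun _ => rfl) s56_mm_202

noncomputable def f_mm_203 : ℕ → ℕ → ℕ → ℕ → Bool := onCell 0 536870912 0 1230186008 67108864 67108864
    (rowNK 3 0 false false false .up 2 0 3 (qsf 0 536870912 0 1230186008 0) ndN0q2 ndN4q3 pcN0 Cut.none Ext.none)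

def k0_mm_203 : ∃ t, chk3 f_mm_203 t 1 1 1 = true :=
  ⟨(b (l 2) (b (l 2) (a (b (a (b (l 2) (b (l 2) (a (l 16840040) (a (l 263771492039) (l 3))))) (l 3)) (a (b (a (l 16923136) (a (b (l 16832560) (l 16862728)) (b (a (l 256255287623) (l 291688746391)) (l 254107932999)))) (b (l 16966496) (l 17050752))) (b (a (a (b (l 3) (a (l 268066475975) (l 304573649111))) (l 3)) (l 3)) (a (b (a (a (l 16816200) (l 240686086743)) (a (l 281488264823) (l 3))) (a (l 16860848) (b (l 252497237303) (l 255181649831)))) (b (l 3) (a (a (b (l 3) (l 277730100743)) (l 3)) (l 3))))))) (l 3)))), by decide +kernel⟩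

theorem c_mm_203 : CertN 0 536870912 0 1230186008 67108864 67108864 3 false false false .up 2 0 3
    ndN0q2 ndN4q3 pcN0 Cut.none Ext.none :=
  certNK0 (fam := false) (s1 := false) (s2 := false) (a := 2) (b := 0) (c := 3) (cn := .up) (n1 := ndN0q2) (n2 := ndN4q3) (pc := pcN0) (cut := Cut.none) (xt := Ext.none) (P1 := 0) (W1 := 536870912) (P2 := 0) (W2 := 1230186008) (P3 := 67108864) (W3 := 67108864) (N0 := 3)
    rfl rfl rfl k0_mm_203

noncomputable def f_mm_213 : ℕ → ℕ → ℕ → ℕ → Bool := onCell 0 536870912 0 1230186008 67108864 67108864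
    (rowNK 3 0 false false false .pnn 2 1 3 (qsf 0 536870912 0 1230186008 1) ndN0q2 ndN4q3 pcN1 Cut.none Ext.none)

def k0_mm_213 : ∃ t, chk3 f_mm_213 t 1 1 1 = true :=
  ⟨(b (a (l 3) (b (l 5) (l 3))) (b (a (b (l 3) (a (l 3) (l 3))) (l 3)) (a (b (a (b (a (a (b (a (l 241759789543) (l 308868583175)) (b (l 206863181015) (l 16852264))) (b (l 3) (l 298131288119))) (l 3)) (a (a (l 16946712) (b (a (l 156934104551) (b (l 259476459975) (l 177335193319))) (l 16900752))) (a (b (l 319606103191) (b (l 256255350823) (l 1))) (b (l 3) (l 3))))) (l 3)) (a (l 1) (b (a (l 1) (l 3)) (l 1)))) (l 3)))), by decide +kernel⟩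

theorem c_mm_213 : CertN 0 536870912 0 1230186008 67108864 67108864 3 false false false .pnn 2 1 3
    ndN0q2 ndN4q3 pcN1 Cut.none Ext.none :=
  certNK0 (fam := false) (s1 := false) (s2 := false) (a := 2) (b := 1) (c := 3) (cn := .pnn) (n1 := ndN0q2) (n2 := ndN4q3) (pc := pcN1) (cut := Cut.none) (xt := Ext.none) (P1 := 0) (W1 := 536870912) (P2 := 0) (W2 := 1230186008) (P3 := 67108864) (W3 := 67108864) (N0 := 3)
    rfl rfl rfl k0_mm_213

end Pool.Agent.Strip051.G.I1_16_1_8.Tab.C.NB04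

namespace Pool.Agent.Strip051.G.I1_16_1_8.Tab.C.NB10

open Pool.Agent.Strip051.PB Pool.Agent.Strip051.PB.T
open Pool.Agent.Strip051.G.I1_16_1_8.Tab

noncomputable def f_pp_001 : ℕ → ℕ → ℕ → ℕ → Bool := onCell 0 536870912 0 536870912 67108864 67108864
    (rowNK 3 1 false true true .up 0 0 1 (qsf 0 536870912 536870912 536870912 0) ndN1q0 ndN0q1 pcN0 Cut.none Ext.none)

def k0_pp_001 : ∃ t, chk3 f_pp_001 t 1 1 1 = true :=
  ⟨(l 3), by decide +kernel⟩

theorem c_pp_001 : CertN 0 536870912 536870912 536870912 67108864 67108864 3 false true true .up 0 0 1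
    ndN1q0 ndN0q1 pcN0 Cut.none Ext.none :=
  certNK1 (fam := false) (s1 := true) (s2 := true) (a := 0) (b := 0) (c := 1) (cn := .up) (n1 := ndN1q0) (n2 := ndN0q1) (pc := pcN0) (cut := Cut.none) (xt := Ext.none) (P1 := 0) (W1 := 536870912) (P2 := 536870912) (W2 := 536870912) (P3 := 67108864) (W3 := 67108864) (N0 := 3)
    rfl rfl rfl (fun _ => rfl) k0_pp_001

noncomputable def cut_pp_011 : Cut := Cut.of [[⟨0, 0, 0, 67108864⟩, ⟨1, 1, 0, 67108864⟩, ⟨2, 1, 0, 67108864⟩]]

noncomputable def f_pp_011 : ℕ → ℕ → ℕ → ℕ → Bool := onCell 0 536870912 536870912 536870912 67108864 67108864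
    (rowNK 3 0 false true true .pnn 0 1 1 (qsf 0 536870912 536870912 536870912 1) ndN1q0 ndN0q1 pcN1 cut_pp_011 Ext.none)

def k0_pp_011 : ∃ t, chk3 f_pp_011 t 1 1 1 = true :=
  ⟨(a (b (l 3) (b (l 3) (a (b (l 3) (a (b (l 3) (b (l 3) (a (l 6) (l 3)))) (l 3))) (l 3)))) (l 3)), by decide +kernel⟩

theorem c_pp_011 : CertN 0 536870912 536870912 536870912 67108864 67108864 3 false true true .pnn 0 1 1
    ndN1q0 ndN0q1 pcN1 cut_pp_011 Ext.none :=
  certNK0 (fam := false) (s1 := true) (s2 := true) (a := 0) (b := 1) (c := 1) (cn := .pnn) (n1 := ndN1q0) (n2 := ndN0q1) (pc := pcN1) (cut := cut_pp_011) (xt := Ext.none) (P1 := 0) (W1 := 536870912) (P2 := 536870912) (W2 := 536870912) (P3 := 67108864) (W3 := 67108864) (N0 := 3)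
    rfl rfl rfl k0_pp_011

noncomputable def cut_pp_012 : Cut := Cut.of [[⟨0, 0, 0, 67108864⟩, ⟨1, 1, 0, 67108864⟩, ⟨2, 1, 0, 67108864⟩]]

noncomputable def f_pp_012 : ℕ → ℕ → ℕ → ℕ → Bool := onCell 536870912 536870912 0 536870912 67108864 67108864
    (rowNK 3 2 false true true .pnp 0 1 2 (qsf 0 536870912 0 536870912 1) ndN1q0 ndN0q2 pcN1 cut_pp_012 Ext.none)

def k0_pp_012 : ∃ t, chk3 f_pp_012 t 1 1 1 = true :=
  ⟨(a (b (a (b (l 2) (l 17300352)) (b (l 16970368) (l 17224312))) (a (b (b (l 17493856) (l 142977604583)) (l 3)) (a (b (l 17499856) (l 164452089367)) (b (l 17435744) (l 155325208823))))) (a (b (b (l 17034488) (l 17223216)) (a (b (l 17352808) (b (l 17478888) (l 3))) (b (l 17255472) (b (l 17336448) (l 144050323031))))) (b (a (l 17403296) (a (l 17653544) (b (l 17937992) (l 17687752)))) (b (a (b (l 17230104) (l 17172744)) (a (b (l 17346448) (l 17167336)) (b (l 17387048) (l 17052496)))) (a (b (l 17170624) (a (l 137070713831) (a (l 135459945799) (l 135459838455))))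 (b (a (l 17076848) (a (l 16943952) (a (l 16966384) (l 16939080)))) (a (b (l 17009064) (a (l 130090926903) (l 138680832567))) (b (a (l 16943200) (l 6)) (l 6))))))))), by decide +kernel⟩

theorem c_pp_012 : CertN 0 536870912 0 536870912 67108864 67108864 3 false true true .pnp 0 1 2
    ndN1q0 ndN0q2 pcN1 cut_pp_012 Ext.none :=
  certNK2 (fam := false) (s1 := true) (s2 := true) (a := 0) (b := 1) (c := 2) (cn := .pnp) (n1 := ndN1q0) (n2 := ndN0q2) (pc := pcN1) (cut := cut_pp_012) (xt := Ext.none) (P1 := 0) (W1 := 536870912) (P2 := 0) (W2 := 536870912) (P3 := 67108864) (W3 := 67108864) (N0 := 3)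
    rfl rfl rfl (fun _ => rfl) k0_pp_012

noncomputable def cut_pp_022 : Cut := Cut.of [[⟨0, 0, 0, 67108864⟩, ⟨1, 1, 0, 67108864⟩, ⟨2, 1, 0, 67108864⟩]]

noncomputable def f_pp_022 : ℕ → ℕ → ℕ → ℕ → Bool := onCell 0 536870912 0 536870912 67108864 67108864
    (rowNK 3 0 false true true .pp 0 2 2 (qsf 0 536870912 0 536870912 2) ndN1q0 ndN0q2 pcN2 cut_pp_022 Ext.none)

def k0_pp_022 : ∃ t, chk3 f_pp_022 t 1 1 1 = true :=
  ⟨(a (b (a (b (a (a (b (l 18094336) (l 18029088)) (l 17931200)) (l 17920064)) (a (a (a (b (b (l 17883416) (l 17763192)) (c (l 18126448) (b (l 17309576) (l 17028312)))) (b (l 17837768) (l 17565000))) (b (l 17726896) (l 17463776))) (a (b (l 17675432) (a (l 17436552) (b (l 17525776) (l 17397848)))) (b (a (l 17716688) (l 17778184)) (l 17562128))))) (b (l 18406288) (a (l 353834488247) (l 1)))) (a (b (a (b (a (a (a (c (b (l 17888032) (l 17427072)) (b (l 16823256) (l 16690000))) (l 16893888)) (b (l 17237864) (l 16920616))) (a (l 17039008) (l 17033208)))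 (a (a (a (b (a (l 16689832) (l 16674728)) (a (b (l 16684472) (l 16705360)) (l 16693648))) (b (l 16673968) (l 16695784))) (b (l 16716352) (b (l 16697536) (l 16806600)))) (b (a (l 16830560) (a (l 16758536) (l 16838272))) (a (a (l 16860520) (l 16794408)) (l 16865296))))) (b (b (a (a (l 17185728) (l 17255696)) (l 17418448)) (l 17162464)) (a (l 17006328) (l 17186992)))) (a (b (a (b (a (a (a (b (l 16707568) (l 16717616)) (l 16747552)) (b (l 16696136) (l 16754760))) (b (b (l 16806896) (l 16859384)) (a (l 16796728) (l 16766704)))) (l 6)) (b (a (l 16822464) (l 16914720)) (a (l 6) (l 140694222567)))) (a (l 6) (a (l 6) (l 1)))) (b (a (b (l 17056680) (l 1)) (l 1)) (l 1)))) (b (l 1) (l 1)))) (l 1)), by decide +kernel⟩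

theorem c_pp_022 : CertN 0 536870912 0 536870912 67108864 67108864 3 false true true .pp 0 2 2
    ndN1q0 ndN0q2 pcN2 cut_pp_022 Ext.none :=
  certNK0 (fam := false) (s1 := true) (s2 := true) (a := 0) (b := 2) (c := 2) (cn := .pp) (n1 := ndN1q0) (n2 := ndN0q2) (pc := pcN2) (cut := cut_pp_022) (xt := Ext.none) (P1 := 0) (W1 := 536870912) (P2 := 0) (W2 := 536870912) (P3 := 67108864) (W3 := 67108864) (N0 := 3)
    rfl rfl rfl k0_pp_022

noncomputable def f_pp_101 : ℕ → ℕ → ℕ → ℕ → Bool := onCell 536870912 536870912 536870912 536870912 67108864 67108864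
    (rowNK 3 0 false true true .npn 1 0 1 (qsf 536870912 536870912 536870912 536870912 0) ndN1q1 ndN0q1 pcN0 Cut.none Ext.none)

def k0_pp_101 : ∃ t, chk3 f_pp_101 t 1 1 1 = true :=
  ⟨(l 3), by decide +kernel⟩

theorem c_pp_101 : CertN 536870912 536870912 536870912 536870912 67108864 67108864 3 false true true .npn 1 0 1
    ndN1q1 ndN0q1 pcN0 Cut.none Ext.none :=
  certNK0 (fam := false) (s1 := true) (s2 := true) (a := 1) (b := 0) (c := 1) (cn := .npn) (n1 := ndN1q1) (n2 := ndN0q1) (pc := pcN0) (cut := Cut.none) (xt := Ext.none) (P1 := 536870912) (W1 := 536870912) (P2 := 536870912) (W2 := 536870912) (P3 := 67108864) (W3 := 67108864) (N0 := 3)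
    rfl rfl rfl k0_pp_101

noncomputable def f_pp_102 : ℕ → ℕ → ℕ → ℕ → Bool := onCell 0 536870912 0 536870912 67108864 67108864
    (rowNK 3 2 false true true .npp 1 0 2 (qsf 536870912 536870912 0 536870912 0) ndN1q1 ndN0q2 pcN0 Cut.none Ext.none)

def k0_pp_102 : ∃ t, chk3 f_pp_102 t 1 1 1 = true :=
  ⟨(a (b (b (a (l 2) (a (a (a (l 2) (b (l 17988120) (l 153714493815))) (b (l 17979744) (l 149956687655))) (a (l 17814544) (l 17636296)))) (a (l 3) (b (a (a (l 3) (l 289543317623)) (a (l 153178057527) (l 17730016))) (l 3)))) (l 3)) (b (a (b (b (l 17194944) (l 17276192)) (a (b (l 17536160) (l 209012785207)) (l 17639104))) (b (l 16991840) (a (l 17427776) (l 17415344)))) (a (l 3) (b (a (l 184853458311) (l 171968466359)) (l 3))))), by decide +kernel⟩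

theorem c_pp_102 : CertN 536870912 536870912 0 536870912 67108864 67108864 3 false true true .npp 1 0 2
    ndN1q1 ndN0q2 pcN0 Cut.none Ext.none :=
  certNK2 (fam := false) (s1 := true) (s2 := true) (a := 1) (b := 0) (c := 2) (cn := .npp) (n1 := ndN1q1) (n2 := ndN0q2) (pc := pcN0) (cut := Cut.none) (xt := Ext.none) (P1 := 536870912) (W1 := 536870912) (P2 := 0) (W2 := 536870912) (P3 := 67108864) (W3 := 67108864) (N0 := 3)
    rfl rfl rfl (fun _ => rfl) k0_pp_102

noncomputable def f_pp_112 : ℕ → ℕ → ℕ → ℕ → Bool := onCell 536870912 536870912 0 536870912 67108864 67108864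
    (rowNK 3 2 false true true .dn 1 1 2 (qsf 536870912 536870912 0 536870912 1) ndN1q1 ndN0q2 pcN1 Cut.none Ext.none)

def k0_pp_112 : ∃ t, chk3 f_pp_112 t 1 1 1 = true :=
  ⟨(a (b (a (b (l 18100912) (l 17882320)) (b (l 17918456) (l 17698256))) (a (b (a (l 148883428407) (l 17879792)) (l 3)) (b (l 1) (l 1)))) (l 1)), by decide +kernel⟩

theorem c_pp_112 : CertN 536870912 536870912 0 536870912 67108864 67108864 3 false true true .dn 1 1 2
    ndN1q1 ndN0q2 pcN1 Cut.none Ext.none :=
  certNK2 (fam := false) (s1 := true) (s2 := true) (a := 1) (b := 1) (c := 2) (cn := .dn) (n1 := ndN1q1) (n2 := ndN0q2) (pc := pcN1) (cut := Cut.none) (xt := Ext.none) (P1 := 536870912) (W1 := 536870912) (P2 := 0) (W2 := 536870912) (P3 := 67108864) (W3 := 67108864) (N0 := 3)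
    rfl rfl rfl (fun _ => rfl) k0_pp_112

noncomputable def f_pp_202_a : ℕ → ℕ → ℕ → ℕ → Bool := onCell 0 536870912 0 536870912 67108864 67108864
    (rowNK 3 0 false true true .pp 2 0 2 (qsf 0 536870912 0 536870912 0) ndN1q2a ndN0q2 pcN0 Cut.none Ext.none)

def k0_pp_202_a : ∃ t, chk3 f_pp_202_a t 1 1 1 = true :=
  ⟨(l 3), by decide +kernel⟩

theorem c_pp_202_a : CertN 0 536870912 0 536870912 67108864 67108864 3 false true true .pp 2 0 2
    ndN1q2a ndN0q2 pcN0 Cut.none Ext.none :=
  certNK0 (fam := false) (s1 := true) (s2 := true) (a := 2) (b := 0) (c := 2) (cn := .pp) (n1 := ndN1q2a) (n2 := ndN0q2) (pc := pcN0) (cut := Cut.none) (xt := Ext.none) (P1 := 0) (W1 := 536870912) (P2 := 0) (W2 := 536870912) (P3 := 67108864) (W3 := 67108864) (N0 := 3)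
    rfl rfl rfl k0_pp_202_a

noncomputable def f_pp_202_b : ℕ → ℕ → ℕ → ℕ → Bool := onCell 1239849684 370763052 0 536870912 67108864 67108864
    (rowNK 3 0 false true true .pp 2 0 2 (qsf 1239849684 370763052 0 536870912 0) ndN1q2b ndN0q2 pcN0 Cut.none Ext.none)

def k0_pp_202_b : ∃ t, chk3 f_pp_202_b t 1 1 1 = true :=
  ⟨(l 3), by decide +kernel⟩

theorem c_pp_202_b : CertN 1239849684 370763052 0 536870912 67108864 67108864 3 false true true .pp 2 0 2
    ndN1q2b ndN0q2 pcN0 Cut.none Ext.none :=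
  certNK0 (fam := false) (s1 := true) (s2 := true) (a := 2) (b := 0) (c := 2) (cn := .pp) (n1 := ndN1q2b) (n2 := ndN0q2) (pc := pcN0) (cut := Cut.none) (xt := Ext.none) (P1 := 1239849684) (W1 := 370763052) (P2 := 0) (W2 := 536870912) (P3 := 67108864) (W3 := 67108864) (N0 := 3)
    rfl rfl rfl k0_pp_202_b

noncomputable def f_pm_001 : ℕ → ℕ → ℕ → ℕ → Bool := onCell 0 536870912 0 536870912 67108864 67108864
    (rowNK 3 1 false true false .up 0 0 1 (qsf 0 536870912 536870912 536870912 0) ndN1q0 ndN0q1 pcN0 Cut.none Ext.none)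

def k0_pm_001 : ∃ t, chk3 f_pm_001 t 1 1 1 = true :=
  ⟨(a (l 4) (b (l 4) (b (l 4) (l 4)))), by decide +kernel⟩

theorem c_pm_001 : CertN 0 536870912 536870912 536870912 67108864 67108864 3 false true false .up 0 0 1
    ndN1q0 ndN0q1 pcN0 Cut.none Ext.none :=
  certNK1 (fam := false) (s1 := true) (s2 := false) (a := 0) (b := 0) (c := 1) (cn := .up) (n1 := ndN1q0) (n2 := ndN0q1) (pc := pcN0) (cut := Cut.none) (xt := Ext.none) (P1 := 0) (W1 := 536870912) (P2 := 536870912) (W2 := 536870912) (P3 := 67108864) (W3 := 67108864) (N0 := 3)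
    rfl rfl rfl (fun _ => rfl) k0_pm_001

noncomputable def cut_pm_011 : Cut := Cut.of [[⟨0, 0, 0, 67108864⟩, ⟨1, 1, 0, 67108864⟩, ⟨2, 1, 0, 67108864⟩]]

noncomputable def f_pm_011 : ℕ → ℕ → ℕ → ℕ → Bool := onCell 0 536870912 536870912 536870912 67108864 67108864
    (rowNK 3 0 false true false .pnn 0 1 1 (qsf 0 536870912 536870912 536870912 1) ndN1q0 ndN0q1 pcN1 cut_pm_011 Ext.none)

def k0_pm_011 : ∃ t, chk3 f_pm_011 t 1 1 1 = true :=
  ⟨(b (l 4) (a (b (l 4) (a (a (b (l 4) (a (b (l 4) (a (l 6) (l 4))) (l 4))) (l 4)) (l 4))) (l 4))), by decide +kernel⟩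

theorem c_pm_011 : CertN 0 536870912 536870912 536870912 67108864 67108864 3 false true false .pnn 0 1 1
    ndN1q0 ndN0q1 pcN1 cut_pm_011 Ext.none :=
  certNK0 (fam := false) (s1 := true) (s2 := false) (a := 0) (b := 1) (c := 1) (cn := .pnn) (n1 := ndN1q0) (n2 := ndN0q1) (pc := pcN1) (cut := cut_pm_011) (xt := Ext.none) (P1 := 0) (W1 := 536870912) (P2 := 536870912) (W2 := 536870912) (P3 := 67108864) (W3 := 67108864) (N0 := 3)
    rfl rfl rfl k0_pm_011

noncomputable def cut_pm_012 : Cut := Cut.of [[⟨0, 0, 0, 67108864⟩, ⟨1, 1, 0, 67108864⟩, ⟨2, 1, 0, 67108864⟩]]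

noncomputable def f_pm_012 : ℕ → ℕ → ℕ → ℕ → Bool := onCell 536870912 536870912 0 536870912 67108864 67108864
    (rowNK 3 2 false true false .pnp 0 1 2 (qsf 0 536870912 0 536870912 1) ndN1q0 ndN0q2 pcN1 cut_pm_012 Ext.none)

def k0_pm_012 : ∃ t, chk3 f_pm_012 t 1 1 1 = true :=
  ⟨(a (b (a (b (l 2) (b (l 2) (a (l 2) (b (l 2) (l 17267328))))) (a (b (l 16978224) (b (l 17062936) (b (l 17123400) (l 17110240)))) (l 16945440))) (a (b (a (l 2) (b (a (l 2) (l 17543480)) (l 18568336))) (l 18650064)) (b (b (a (b (l 17095496) (l 17753648)) (a (b (l 17216840) (l 17579784)) (l 17882784))) (a (b (l 18461336) (l 18665144)) (b (l 18238288) (l 18560224)))) (l 18517864)))) (b (a (a (l 17291584) (l 17706304)) (a (b (l 17782552) (l 18186488)) (a (b (l 18022520) (l 18251576)) (b (l 18149184) (l 18197712))))) (b (a (a (a (b (l 17844952) (b (l 18033696) (l 18477712))) (b (l 17850656) (l 18397736))) (b (l 18188160) (a (l 18222496) (l 18333760)))) (a (a (l 18296504) (l 18193696)) (a (a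 (l 18055624) (b (l 18100744) (l 17675456))) (b (l 17833552) (l 16976912))))) (b (a (b (a (a (l 18510824) (l 18441112)) (a (l 18388104) (l 18227320))) (l 18262184)) (a (a (l 17929800) (a (l 17709776) (l 17492336))) (a (a (l 17173680) (a (l 16968752) (l 16930944))) (a (l 16887600) (b (l 16844096) (l 16826824)))))) (a (a (l 18107008) (l 17724168)) (a (a (l 17213864) (b (l 17051936) (l 4))) (b (a (a (l 16973880) (a (l 16928696) (l 16907144))) (a (b (l 16875840) (l 6)) (l 6))) (a (b (l 16931760) (l 4)) (l 6))))))))), by decide +kernel⟩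

theorem c_pm_012 : CertN 0 536870912 0 536870912 67108864 67108864 3 false true false .pnp 0 1 2
    ndN1q0 ndN0q2 pcN1 cut_pm_012 Ext.none :=
  certNK2 (fam := false) (s1 := true) (s2 := false) (a := 0) (b := 1) (c := 2) (cn := .pnp) (n1 := ndN1q0) (n2 := ndN0q2) (pc := pcN1) (cut := cut_pm_012) (xt := Ext.none) (P1 := 0) (W1 := 536870912) (P2 := 0) (W2 := 536870912) (P3 := 67108864) (W3 := 67108864) (N0 := 3)
    rfl rfl rfl (fun _ => rfl) k0_pm_012

noncomputable def cut_pm_022 : Cut := Cut.of [[⟨0, 0, 0, 67108864⟩, ⟨1, 1, 0, 67108864⟩, ⟨2, 1, 0, 67108864⟩]]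

noncomputable def f_pm_022 : ℕ → ℕ → ℕ → ℕ → Bool := onCell 0 536870912 0 536870912 67108864 67108864
    (rowNK 3 0 false true false .pp 0 2 2 (qsf 0 536870912 0 536870912 2) ndN1q0 ndN0q2 pcN2 cut_pm_022 Ext.none)

def k0_pm_022 : ∃ t, chk3 f_pm_022 t 1 1 1 = true :=
  ⟨(a (b (a (a (b (a (b (l 18099384) (l 18020704)) (l 17990184)) (a (b (b (l 17950928) (l 17604272)) (a (c (l 18155208) (a (l 17025816) (l 17151632))) (l 17620328))) (l 17740120))) (b (l 18049976) (a (l 17827496) (l 18025456)))) (b (l 18606824) (a (l 18415192) (l 1)))) (a (b (a (a (a (b (a (a (c (b (l 17906152) (l 17512960)) (l 16708992)) (l 16929328)) (l 17090288)) (a (b (l 16706360) (b (l 16710584) (l 16714160))) (l 16682240))) (b (l 17115128) (l 16712632))) (b (l 17115680) (b (l 16706272) (l 16742856)))) (b (a (l 17276712) (l 17578920)) (a (l 16874280) (l 17018544)))) (b (b (a (a (a (a (a (b (l 16709200) (l 16735032)) (l 16688008)) (l 16673208)) (l 16696384)) (l 16887096)) (a (l 16918232) (l 1)))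 (a (a (l 6) (a (l 6) (l 16856248))) (l 1))) (a (a (l 6) (a (l 6) (l 1))) (l 1)))) (b (l 1) (l 1)))) (l 1)), by decide +kernel⟩

theorem c_pm_022 : CertN 0 536870912 0 536870912 67108864 67108864 3 false true false .pp 0 2 2
    ndN1q0 ndN0q2 pcN2 cut_pm_022 Ext.none :=
  certNK0 (fam := false) (s1 := true) (s2 := false) (a := 0) (b := 2) (c := 2) (cn := .pp) (n1 := ndN1q0) (n2 := ndN0q2) (pc := pcN2) (cut := cut_pm_022) (xt := Ext.none) (P1 := 0) (W1 := 536870912) (P2 := 0) (W2 := 536870912) (P3 := 67108864) (W3 := 67108864) (N0 := 3)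
    rfl rfl rfl k0_pm_022

noncomputable def f_pm_101 : ℕ → ℕ → ℕ → ℕ → Bool := onCell 0 536870912 536870912 536870912 67108864 67108864
    (rowNK 3 2 false true false .npn 1 0 1 (qsf 536870912 536870912 536870912 536870912 0) ndN1q1 ndN0q1 pcN0 Cut.none Ext.none)

def k0_pm_101 : ∃ t, chk3 f_pm_101 t 1 1 1 = true :=
  ⟨(b (l 4) (b (l 4) (b (a (a (l 18077960) (l 4)) (l 4)) (a (a (l 18562064) (l 17874360)) (a (l 17539936) (l 4)))))), by decide +kernel⟩

theorem c_pm_101 : CertN 536870912 536870912 536870912 536870912 67108864 67108864 3 false true false .npn 1 0 1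
    ndN1q1 ndN0q1 pcN0 Cut.none Ext.none :=
  certNK2 (fam := false) (s1 := true) (s2 := false) (a := 1) (b := 0) (c := 1) (cn := .npn) (n1 := ndN1q1) (n2 := ndN0q1) (pc := pcN0) (cut := Cut.none) (xt := Ext.none) (P1 := 536870912) (W1 := 536870912) (P2 := 536870912) (W2 := 536870912) (P3 := 67108864) (W3 := 67108864) (N0 := 3)
    rfl rfl rfl (fun _ => rfl) k0_pm_101

noncomputable def f_pm_102 : ℕ → ℕ → ℕ → ℕ → Bool := onCell 0 536870912 0 536870912 67108864 67108864
    (rowNK 3 2 false true false .npp 1 0 2 (qsf 536870912 536870912 0 536870912 0) ndN1q1 ndN0q2 pcN0 Cut.none Ext.none)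

def k0_pm_102 : ∃ t, chk3 f_pm_102 t 1 1 1 = true :=
  ⟨(a (a (b (a (l 2) (b (l 2) (l 967008933847))) (b (a (l 2) (l 18684944)) (l 18903392))) (b (a (b (b (l 321688362519) (l 18083064)) (l 18091840)) (b (b (l 17718544) (l 17729488)) (l 17661912))) (b (a (l 18112352) (l 17598896)) (l 17995240)))) (b (b (a (b (l 17194504) (l 17452792)) (l 17200056)) (a (b (a (l 17539992) (l 17608568)) (l 17227560)) (a (b (l 17695904) (l 17263600)) (b (l 17739520) (l 17487144))))) (a (b (a (l 17192712) (l 17079536)) (l 17480376)) (b (b (a (l 17403552) (l 17637280)) (l 17577216)) (a (l 17355416) (l 17370080)))))), by decide +kernel⟩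

theorem c_pm_102 : CertN 536870912 536870912 0 536870912 67108864 67108864 3 false true false .npp 1 0 2
    ndN1q1 ndN0q2 pcN0 Cut.none Ext.none :=
  certNK2 (fam := false) (s1 := true) (s2 := false) (a := 1) (b := 0) (c := 2) (cn := .npp) (n1 := ndN1q1) (n2 := ndN0q2) (pc := pcN0) (cut := Cut.none) (xt := Ext.none) (P1 := 536870912) (W1 := 536870912) (P2 := 0) (W2 := 536870912) (P3 := 67108864) (W3 := 67108864) (N0 := 3)
    rfl rfl rfl (fun _ => rfl) k0_pm_102

noncomputable def f_pm_112 : ℕ → ℕ → ℕ → ℕ → Bool := onCell 536870912 536870912 0 536870912 67108864 67108864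
    (rowNK 3 0 false true false .dn 1 1 2 (qsf 536870912 536870912 0 536870912 1) ndN1q1 ndN0q2 pcN1 Cut.none Ext.none)

def k0_pm_112 : ∃ t, chk3 f_pm_112 t 1 1 1 = true :=
  ⟨(a (b (a (b (l 18321304) (b (l 18557528) (a (b (l 18595376) (l 18453832)) (b (l 18654608) (l 18215960))))) (b (l 18292976) (a (b (l 18583360) (b (l 18449696) (l 17726944))) (l 1)))) (b (a (a (b (b (l 17792568) (l 17512696)) (l 17848656)) (b (b (l 17423192) (l 17615080)) (l 17825080))) (l 1)) (a (l 17775080) (l 1)))) (l 1)), by decide +kernel⟩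

theorem c_pm_112 : CertN 536870912 536870912 0 536870912 67108864 67108864 3 false true false .dn 1 1 2
    ndN1q1 ndN0q2 pcN1 Cut.none Ext.none :=
  certNK0 (fam := false) (s1 := true) (s2 := false) (a := 1) (b := 1) (c := 2) (cn := .dn) (n1 := ndN1q1) (n2 := ndN0q2) (pc := pcN1) (cut := Cut.none) (xt := Ext.none) (P1 := 536870912) (W1 := 536870912) (P2 := 0) (W2 := 536870912) (P3 := 67108864) (W3 := 67108864) (N0 := 3)
    rfl rfl rfl k0_pm_112

noncomputable def cut_pm_202_a : Cut := Cut.of [[⟨0, 1, 0, 67108864⟩, ⟨1, 0, 0, 67108864⟩, ⟨2, 1, 0, 67108864⟩]]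

noncomputable def f_pm_202_a : ℕ → ℕ → ℕ → ℕ → Bool := onCell 0 536870912 0 536870912 67108864 67108864
    (rowNK 3 0 false true false .pp 2 0 2 (qsf 0 536870912 0 536870912 0) ndN1q2a ndN0q2 pcN0 cut_pm_202_a Ext.none)

def k0_pm_202_a : ∃ t, chk3 f_pm_202_a t 1 1 1 = true :=
  ⟨(a (l 3) (b (l 3) (a (l 3) (a (l 3) (b (l 3) (b (l 3) (l 6))))))), by decide +kernel⟩

theorem c_pm_202_a : CertN 0 536870912 0 536870912 67108864 67108864 3 false true false .pp 2 0 2
    ndN1q2a ndN0q2 pcN0 cut_pm_202_a Ext.none :=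
  certNK0 (fam := false) (s1 := true) (s2 := false) (a := 2) (b := 0) (c := 2) (cn := .pp) (n1 := ndN1q2a) (n2 := ndN0q2) (pc := pcN0) (cut := cut_pm_202_a) (xt := Ext.none) (P1 := 0) (W1 := 536870912) (P2 := 0) (W2 := 536870912) (P3 := 67108864) (W3 := 67108864) (N0 := 3)
    rfl rfl rfl k0_pm_202_a

noncomputable def cut_pm_202_b : Cut := Cut.of [[⟨0, 1, 0, 67108864⟩, ⟨1, 0, 0, 67108864⟩, ⟨2, 1, 0, 67108864⟩]]

noncomputable def f_pm_202_b : ℕ → ℕ → ℕ → ℕ → Bool := onCell 1239849684 370763052 0 536870912 67108864 67108864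
    (rowNK 3 0 false true false .pp 2 0 2 (qsf 1239849684 370763052 0 536870912 0) ndN1q2b ndN0q2 pcN0 cut_pm_202_b Ext.none)

def k0_pm_202_b : ∃ t, chk3 f_pm_202_b t 1 1 1 = true :=
  ⟨(l 3), by decide +kernel⟩

theorem c_pm_202_b : CertN 1239849684 370763052 0 536870912 67108864 67108864 3 false true false .pp 2 0 2
    ndN1q2b ndN0q2 pcN0 cut_pm_202_b Ext.none :=
  certNK0 (fam := false) (s1 := true) (s2 := false) (a := 2) (b := 0) (c := 2) (cn := .pp) (n1 := ndN1q2b) (n2 := ndN0q2) (pc := pcN0) (cut := cut_pm_202_b) (xt := Ext.none) (P1 := 1239849684) (W1 := 370763052) (P2 := 0) (W2 := 536870912) (P3 := 67108864) (W3 := 67108864) (N0 := 3)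
    rfl rfl rfl k0_pm_202_b

noncomputable def f_mm_001 : ℕ → ℕ → ℕ → ℕ → Bool := onCell 0 536870912 536870912 536870912 67108864 67108864
    (rowNK 3 0 false false false .up 0 0 1 (qsf 0 536870912 536870912 536870912 0) ndN1q0 ndN0q1 pcN0 Cut.none Ext.none)

def k0_mm_001 : ∃ t, chk3 f_mm_001 t 1 1 1 = true :=
  ⟨(l 5), by decide +kernel⟩

theorem c_mm_001 : CertN 0 536870912 536870912 536870912 67108864 67108864 3 false false false .up 0 0 1
    ndN1q0 ndN0q1 pcN0 Cut.none Ext.none :=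
  certNK0 (fam := false) (s1 := false) (s2 := false) (a := 0) (b := 0) (c := 1) (cn := .up) (n1 := ndN1q0) (n2 := ndN0q1) (pc := pcN0) (cut := Cut.none) (xt := Ext.none) (P1 := 0) (W1 := 536870912) (P2 := 536870912) (W2 := 536870912) (P3 := 67108864) (W3 := 67108864) (N0 := 3)
    rfl rfl rfl k0_mm_001

noncomputable def f_mm_011 : ℕ → ℕ → ℕ → ℕ → Bool := onCell 0 536870912 536870912 536870912 67108864 67108864
    (rowNK 3 0 false false false .pnn 0 1 1 (qsf 0 536870912 536870912 536870912 1) ndN1q0 ndN0q1 pcN1 Cut.none Ext.none)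

def k0_mm_011 : ∃ t, chk3 f_mm_011 t 1 1 1 = true :=
  ⟨(l 5), by decide +kernel⟩

theorem c_mm_011 : CertN 0 536870912 536870912 536870912 67108864 67108864 3 false false false .pnn 0 1 1
    ndN1q0 ndN0q1 pcN1 Cut.none Ext.none :=
  certNK0 (fam := false) (s1 := false) (s2 := false) (a := 0) (b := 1) (c := 1) (cn := .pnn) (n1 := ndN1q0) (n2 := ndN0q1) (pc := pcN1) (cut := Cut.none) (xt := Ext.none) (P1 := 0) (W1 := 536870912) (P2 := 536870912) (W2 := 536870912) (P3 := 67108864) (W3 := 67108864) (N0 := 3)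
    rfl rfl rfl k0_mm_011

noncomputable def f_mm_012 : ℕ → ℕ → ℕ → ℕ → Bool := onCell 0 536870912 0 536870912 67108864 67108864
    (rowNK 3 0 false false false .pnp 0 1 2 (qsf 0 536870912 0 536870912 1) ndN1q0 ndN0q2 pcN1 Cut.none Ext.none)

def k0_mm_012 : ∃ t, chk3 f_mm_012 t 1 1 1 = true :=
  ⟨(l 5), by decide +kernel⟩

theorem c_mm_012 : CertN 0 536870912 0 536870912 67108864 67108864 3 false false false .pnp 0 1 2
    ndN1q0 ndN0q2 pcN1 Cut.none Ext.none :=
  certNK0 (fam := false) (s1 := false) (s2 := false) (a := 0) (b := 1) (c := 2) (cn := .pnp) (n1 := ndN1q0) (n2 := ndN0q2) (pc := pcN1) (cut := Cut.none) (xt := Ext.none) (P1 := 0) (W1 := 536870912) (P2 := 0) (W2 := 536870912) (P3 := 67108864) (W3 := 67108864) (N0 := 3)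
    rfl rfl rfl k0_mm_012

noncomputable def f_mm_022 : ℕ → ℕ → ℕ → ℕ → Bool := onCell 0 536870912 0 536870912 67108864 67108864
    (rowNK 3 0 false false false .pp 0 2 2 (qsf 0 536870912 0 536870912 2) ndN1q0 ndN0q2 pcN2 Cut.none Ext.none)

def k0_mm_022 : ∃ t, chk3 f_mm_022 t 1 1 1 = true :=
  ⟨(l 5), by decide +kernel⟩

theorem c_mm_022 : CertN 0 536870912 0 536870912 67108864 67108864 3 false false false .pp 0 2 2
    ndN1q0 ndN0q2 pcN2 Cut.none Ext.none :=
  certNK0 (fam := false) (s1 := false) (s2 := false) (a := 0) (b := 2) (c := 2) (cn := .pp) (n1 := ndN1q0) (n2 := ndN0q2) (pc := pcN2) (cut := Cut.none) (xt := Ext.none) (P1 := 0) (W1 := 536870912) (P2 := 0) (W2 := 536870912) (P3 := 67108864) (W3 := 67108864) (N0 := 3)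
    rfl rfl rfl k0_mm_022

noncomputable def f_mm_101 : ℕ → ℕ → ℕ → ℕ → Bool := onCell 536870912 536870912 536870912 536870912 67108864 67108864
    (rowNK 3 0 false false false .npn 1 0 1 (qsf 536870912 536870912 536870912 536870912 0) ndN1q1 ndN0q1 pcN0 Cut.none Ext.none)

def k0_mm_101 : ∃ t, chk3 f_mm_101 t 1 1 1 = true :=
  ⟨(l 3), by decide +kernel⟩

theorem c_mm_101 : CertN 536870912 536870912 536870912 536870912 67108864 67108864 3 false false false .npn 1 0 1
    ndN1q1 ndN0q1 pcN0 Cut.none Ext.none :=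
  certNK0 (fam := false) (s1 := false) (s2 := false) (a := 1) (b := 0) (c := 1) (cn := .npn) (n1 := ndN1q1) (n2 := ndN0q1) (pc := pcN0) (cut := Cut.none) (xt := Ext.none) (P1 := 536870912) (W1 := 536870912) (P2 := 536870912) (W2 := 536870912) (P3 := 67108864) (W3 := 67108864) (N0 := 3)
    rfl rfl rfl k0_mm_101

noncomputable def f_mm_102 : ℕ → ℕ → ℕ → ℕ → Bool := onCell 536870912 536870912 0 536870912 67108864 67108864
    (rowNK 3 0 false false false .npp 1 0 2 (qsf 536870912 536870912 0 536870912 0) ndN1q1 ndN0q2 pcN0 Cut.none Ext.none)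

def k0_mm_102 : ∃ t, chk3 f_mm_102 t 1 1 1 = true :=
  ⟨(l 5), by decide +kernel⟩

theorem c_mm_102 : CertN 536870912 536870912 0 536870912 67108864 67108864 3 false false false .npp 1 0 2
    ndN1q1 ndN0q2 pcN0 Cut.none Ext.none :=
  certNK0 (fam := false) (s1 := false) (s2 := false) (a := 1) (b := 0) (c := 2) (cn := .npp) (n1 := ndN1q1) (n2 := ndN0q2) (pc := pcN0) (cut := Cut.none) (xt := Ext.none) (P1 := 536870912) (W1 := 536870912) (P2 := 0) (W2 := 536870912) (P3 := 67108864) (W3 := 67108864) (N0 := 3)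
    rfl rfl rfl k0_mm_102

noncomputable def f_mm_112 : ℕ → ℕ → ℕ → ℕ → Bool := onCell 536870912 536870912 0 536870912 67108864 67108864
    (rowNK 3 0 false false false .dn 1 1 2 (qsf 536870912 536870912 0 536870912 1) ndN1q1 ndN0q2 pcN1 Cut.none Ext.none)

def k0_mm_112 : ∃ t, chk3 f_mm_112 t 1 1 1 = true :=
  ⟨(l 5), by decide +kernel⟩

theorem c_mm_112 : CertN 536870912 536870912 0 536870912 67108864 67108864 3 false false false .dn 1 1 2
    ndN1q1 ndN0q2 pcN1 Cut.none Ext.none :=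
  certNK0 (fam := false) (s1 := false) (s2 := false) (a := 1) (b := 1) (c := 2) (cn := .dn) (n1 := ndN1q1) (n2 := ndN0q2) (pc := pcN1) (cut := Cut.none) (xt := Ext.none) (P1 := 536870912) (W1 := 536870912) (P2 := 0) (W2 := 536870912) (P3 := 67108864) (W3 := 67108864) (N0 := 3)
    rfl rfl rfl k0_mm_112

noncomputable def f_mm_202_a : ℕ → ℕ → ℕ → ℕ → Bool := onCell 0 536870912 0 536870912 67108864 67108864
    (rowNK 3 0 false false false .pp 2 0 2 (qsf 0 536870912 0 536870912 0) ndN1q2a ndN0q2 pcN0 Cut.none Ext.none)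

def k0_mm_202_a : ∃ t, chk3 f_mm_202_a t 1 1 1 = true :=
  ⟨(l 3), by decide +kernel⟩

theorem c_mm_202_a : CertN 0 536870912 0 536870912 67108864 67108864 3 false false false .pp 2 0 2
    ndN1q2a ndN0q2 pcN0 Cut.none Ext.none :=
  certNK0 (fam := false) (s1 := false) (s2 := false) (a := 2) (b := 0) (c := 2) (cn := .pp) (n1 := ndN1q2a) (n2 := ndN0q2) (pc := pcN0) (cut := Cut.none) (xt := Ext.none) (P1 := 0) (W1 := 536870912) (P2 := 0) (W2 := 536870912) (P3 := 67108864) (W3 := 67108864) (N0 := 3)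
    rfl rfl rfl k0_mm_202_a

noncomputable def f_mm_202_b : ℕ → ℕ → ℕ → ℕ → Bool := onCell 1239849684 370763052 0 536870912 67108864 67108864
    (rowNK 3 0 false false false .pp 2 0 2 (qsf 1239849684 370763052 0 536870912 0) ndN1q2b ndN0q2 pcN0 Cut.none Ext.none)

def k0_mm_202_b : ∃ t, chk3 f_mm_202_b t 1 1 1 = true :=
  ⟨(l 3), by decide +kernel⟩

theorem c_mm_202_b : CertN 1239849684 370763052 0 536870912 67108864 67108864 3 false false false .pp 2 0 2
    ndN1q2b ndN0q2 pcN0 Cut.none Ext.none :=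
  certNK0 (fam := false) (s1 := false) (s2 := false) (a := 2) (b := 0) (c := 2) (cn := .pp) (n1 := ndN1q2b) (n2 := ndN0q2) (pc := pcN0) (cut := Cut.none) (xt := Ext.none) (P1 := 1239849684) (W1 := 370763052) (P2 := 0) (W2 := 536870912) (P3 := 67108864) (W3 := 67108864) (N0 := 3)
    rfl rfl rfl k0_mm_202_b

end Pool.Agent.Strip051.G.I1_16_1_8.Tab.C.NB10

namespace Pool.Agent.Strip051.G.I1_16_1_8.Tab.C.NB11

open Pool.Agent.Strip051.PB Pool.Agent.Strip051.PB.T
open Pool.Agent.Strip051.G.I1_16_1_8.Tab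

noncomputable def f_pp_001 : ℕ → ℕ → ℕ → ℕ → Bool := onCell 0 536870912 536870912 536870912 67108864 67108864
    (rowNK 3 0 false true true .up 0 0 1 (qsf 0 536870912 536870912 536870912 0) ndN1q0 ndN1q1 pcN0 Cut.none Ext.none)

def k0_pp_001 : ∃ t, chk3 f_pp_001 t 1 1 1 = true :=
  ⟨(l 3), by decide +kernel⟩

theorem c_pp_001 : CertN 0 536870912 536870912 536870912 67108864 67108864 3 false true true .up 0 0 1
    ndN1q0 ndN1q1 pcN0 Cut.none Ext.none :=
  certNK0 (fam := false) (s1 := true) (s2 := true) (a := 0) (b := 0) (c := 1) (cn := .up) (n1 := ndN1q0) (n2 := ndN1q1) (pc := pcN0) (cut := Cut.none) (xt := Ext.none) (P1 := 0) (W1 := 536870912) (P2 := 536870912) (W2 := 536870912) (P3 := 67108864) (W3 := 67108864) (N0 := 3)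
    rfl rfl rfl k0_pp_001

noncomputable def f_pp_011 : ℕ → ℕ → ℕ → ℕ → Bool := onCell 0 536870912 536870912 536870912 67108864 67108864
    (rowNK 3 0 false true true .pnn 0 1 1 (qsf 0 536870912 536870912 536870912 1) ndN1q0 ndN1q1 pcN1 Cut.none Ext.none)

def k0_pp_011 : ∃ t, chk3 f_pp_011 t 1 1 1 = true :=
  ⟨(l 3), by decide +kernel⟩

theorem c_pp_011 : CertN 0 536870912 536870912 536870912 67108864 67108864 3 false true true .pnn 0 1 1
    ndN1q0 ndN1q1 pcN1 Cut.none Ext.none :=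
  certNK0 (fam := false) (s1 := true) (s2 := true) (a := 0) (b := 1) (c := 1) (cn := .pnn) (n1 := ndN1q0) (n2 := ndN1q1) (pc := pcN1) (cut := Cut.none) (xt := Ext.none) (P1 := 0) (W1 := 536870912) (P2 := 536870912) (W2 := 536870912) (P3 := 67108864) (W3 := 67108864) (N0 := 3)
    rfl rfl rfl k0_pp_011

noncomputable def cut_pp_012_a : Cut := Cut.of [[⟨0, 0, 0, 67108864⟩, ⟨1, 1, 0, 67108864⟩, ⟨2, 1, 0, 67108864⟩]]

noncomputable def f_pp_012_a : ℕ → ℕ → ℕ → ℕ → Bool := onCell 536870912 536870912 0 536870912 67108864 67108864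
    (rowNK 3 2 false true true .pnp 0 1 2 (qsf 0 536870912 0 536870912 1) ndN1q0 ndN1q2a pcN1 cut_pp_012_a Ext.none)

def k0_pp_012_a : ∃ t, chk3 f_pp_012_a t 1 1 1 = true :=
  ⟨(a (a (b (l 146735786343) (l 3)) (b (b (l 17557344) (l 17648528)) (b (l 204717947559) (l 3)))) (a (b (l 17489280) (b (l 37213827991) (b (b (l 17670496) (l 222434257943)) (l 3)))) (b (a (l 17345032) (b (l 17642232) (l 17522160))) (b (a (l 17287512) (a (l 17268992) (b (l 17374176) (l 17107776)))) (a (b (l 17231232) (b (l 17316000) (l 3))) (b (a (l 17092528) (a (l 17017016) (b (l 17003488) (l 16949856)))) (a (b (l 17026224) (b (l 16994728) (l 3))) (b (a (l 16954240) (l 6)) (l 6))))))))), by decide +kernel⟩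

theorem c_pp_012_a : CertN 0 536870912 0 536870912 67108864 67108864 3 false true true .pnp 0 1 2
    ndN1q0 ndN1q2a pcN1 cut_pp_012_a Ext.none :=
  certNK2 (fam := false) (s1 := true) (s2 := true) (a := 0) (b := 1) (c := 2) (cn := .pnp) (n1 := ndN1q0) (n2 := ndN1q2a) (pc := pcN1) (cut := cut_pp_012_a) (xt := Ext.none) (P1 := 0) (W1 := 536870912) (P2 := 0) (W2 := 536870912) (P3 := 67108864) (W3 := 67108864) (N0 := 3)
    rfl rfl rfl (fun _ => rfl) k0_pp_012_a

noncomputable def cut_pp_012_b : Cut := Cut.of [[⟨0, 0, 0, 67108864⟩, ⟨1, 1, 0, 67108864⟩, ⟨2, 1, 0, 67108864⟩]]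

noncomputable def f_pp_012_b : ℕ → ℕ → ℕ → ℕ → Bool := onCell 536870912 536870912 1239849684 370763052 67108864 67108864
    (rowNK 3 2 false true true .pnp 0 1 2 (qsf 0 536870912 1239849684 370763052 1) ndN1q0 ndN1q2b pcN1 cut_pp_012_b Ext.none)

def k0_pp_012_b : ∃ t, chk3 f_pp_012_b t 1 1 1 = true :=
  ⟨(a (a (l 2) (b (l 17586096) (l 2))) (a (b (l 17572040) (l 17537432)) (b (b (a (l 17447592) (l 17792440)) (l 17612744)) (l 17554160)))), by decide +kernel⟩

theorem c_pp_012_b : CertN 0 536870912 1239849684 370763052 67108864 67108864 3 false true true .pnp 0 1 2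
    ndN1q0 ndN1q2b pcN1 cut_pp_012_b Ext.none :=
  certNK2 (fam := false) (s1 := true) (s2 := true) (a := 0) (b := 1) (c := 2) (cn := .pnp) (n1 := ndN1q0) (n2 := ndN1q2b) (pc := pcN1) (cut := cut_pp_012_b) (xt := Ext.none) (P1 := 0) (W1 := 536870912) (P2 := 1239849684) (W2 := 370763052) (P3 := 67108864) (W3 := 67108864) (N0 := 3)
    rfl rfl rfl (fun _ => rfl) k0_pp_012_b

noncomputable def cut_pp_022_a : Cut := Cut.of [[⟨0, 0, 0, 67108864⟩, ⟨1, 1, 0, 67108864⟩, ⟨2, 1, 0, 67108864⟩]]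

noncomputable def f_pp_022_a : ℕ → ℕ → ℕ → ℕ → Bool := onCell 0 536870912 0 536870912 67108864 67108864
    (rowNK 3 0 false true true .pp 0 2 2 (qsf 0 536870912 0 536870912 2) ndN1q0 ndN1q2a pcN2 cut_pp_022_a Ext.none)

def k0_pp_022_a : ∃ t, chk3 f_pp_022_a t 1 1 1 = true :=
  ⟨(a (b (a (b (a (a (a (l 17936200) (l 17958008)) (l 17835344)) (a (l 17741680) (a (l 17740024) (b (l 17792464) (l 17746440))))) (a (a (a (b (c (l 18311760) (l 17444488)) (b (l 17463136) (c (l 18017368) (l 17008816)))) (b (l 17778000) (l 17512920))) (a (l 17571800) (l 17519216))) (b (a (l 17593120) (a (l 17608488) (l 17666168))) (a (a (l 17398136) (b (l 17478864) (l 17361816))) (l 17518928))))) (b (l 18055408) (a (l 17922904) (l 1)))) (a (b (a (b (a (a (b (c (l 17820536) (l 16639576)) (b (b (l 16870904) (l 16802808)) (l 16659896))) (b (l 17195736) (l 16888768))) (a (l 17018376) (b (l 17145648) (l 16904936)))) (a (a (b (a (a (l 16655024) (l 16641632)) (l 16644240)) (a (b (l 16668608) (l 16685520))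 (l 16736656))) (b (l 16781520) (a (l 16758560) (l 16828992)))) (b (a (l 16937912) (a (b (l 16825200) (l 16847424)) (l 16886152))) (a (b (l 16923616) (l 16813800)) (l 16897160))))) (a (b (b (a (l 17173848) (l 17254296)) (l 17047712)) (l 17022592)) (b (l 17377712) (l 17235880)))) (a (a (b (b (b (a (a (a (l 16681544) (l 16668808)) (l 16708392)) (a (l 16755600) (a (l 16749136) (l 16775968)))) (b (b (a (a (l 16687656) (l 16685528)) (l 16886904)) (l 6)) (l 6))) (l 6)) (l 6)) (a (b (b (l 16842160) (l 6)) (l 6)) (b (b (l 16933112) (l 175053765383)) (l 1)))) (b (a (b (l 17073832) (l 1)) (l 1)) (l 1)))) (b (l 1) (l 1)))) (l 1)), by decide +kernel⟩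

theorem c_pp_022_a : CertN 0 536870912 0 536870912 67108864 67108864 3 false true true .pp 0 2 2
    ndN1q0 ndN1q2a pcN2 cut_pp_022_a Ext.none :=
  certNK0 (fam := false) (s1 := true) (s2 := true) (a := 0) (b := 2) (c := 2) (cn := .pp) (n1 := ndN1q0) (n2 := ndN1q2a) (pc := pcN2) (cut := cut_pp_022_a) (xt := Ext.none) (P1 := 0) (W1 := 536870912) (P2 := 0) (W2 := 536870912) (P3 := 67108864) (W3 := 67108864) (N0 := 3)
    rfl rfl rfl k0_pp_022_a

end Pool.Agent.Strip051.G.I1_16_1_8.Tab.C.NB11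

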