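import Pool.Agent.Strip051.G.I1_16_1_8.Tab
import Pool.Agent.Strip051.PB.RowK

/-! # Certificates N7 (generated) -/

set_option linter.all false
set_option maxRecDepth 100000

namespace Pool.Agent.Strip051.G.I1_16_1_8.Tab.C.NB11

open Pool.Agent.Strip051.PB Pool.Agent.Strip051.PB.T
open Pool.Agent.Strip051.G.I1_16_1_8.Tab

noncomputable def cut_pp_022_b : Cut := Cut.of [[⟨0, 0, 0, 67108864⟩, ⟨1, 1, 0, 67108864⟩, ⟨2, 1, 0, 67108864⟩]]

noncomputable def f_pp_022_b : ℕ → ℕ → ℕ → ℕ → Bool := onCell 0 536870912 1073741824 536870912 67108864 67108864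
    (rowNK 3 1 false true true .pp 0 2 2 (qsf 0 536870912 1239849684 370763052 2) ndN1q0 ndN1q2b pcN2 cut_pp_022_b Ext.none)

def k0_pp_022_b : ∃ t, chk3 f_pp_022_b t 1 1 1 = true :=
  ⟨(a (b (b (b (a (a (l 1) (b (l 17114432) (l 373160665431))) (b (l 18093680) (l 18142024))) (a (a (b (l 351147779399) (l 437048437671)) (l 249681566231)) (l 18208128))) (a (a (b (a (b (l 207268331783) (l 18401136)) (l 18336368)) (l 18639616)) (l 18442568)) (l 18455536))) (a (b (a (l 18822688) (l 18584048)) (l 18697424)) (b (l 18261704) (l 18200688)))) (b (b (b (b (l 18004056) (l 17980104)) (l 17946552)) (l 17874200)) (b (l 17760640) (l 2)))), by decide +kernel⟩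

theorem c_pp_022_b : CertN 0 536870912 1239849684 370763052 67108864 67108864 3 false true true .pp 0 2 2
    ndN1q0 ndN1q2b pcN2 cut_pp_022_b Ext.none :=
  certNK1 (fam := false) (s1 := true) (s2 := true) (a := 0) (b := 2) (c := 2) (cn := .pp) (n1 := ndN1q0) (n2 := ndN1q2b) (pc := pcN2) (cut := cut_pp_022_b) (xt := Ext.none) (P1 := 0) (W1 := 536870912) (P2 := 1239849684) (W2 := 370763052) (P3 := 67108864) (W3 := 67108864) (N0 := 3)
    rfl rfl rfl (fun _ => rfl) k0_pp_022_b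

noncomputable def f_pp_023 : ℕ → ℕ → ℕ → ℕ → Bool := onCell 1073741824 536870912 1610612736 536870912 67108864 67108864
    (rowNK 3 2 false true true .up 0 2 3 (qsf 0 536870912 1610612736 536870912 2) ndN1q0 ndN1q3 pcN2 Cut.none Ext.none)

def k0_pp_023 : ∃ t, chk3 f_pp_023 t 1 1 1 = true :=
  ⟨(a (b (b (l 18000904) (l 17756288)) (b (l 17602128) (l 2))) (b (a (l 17864992) (b (l 18206376) (l 17920728))) (a (l 17442912) (l 17462312)))), by decide +kernel⟩

theorem c_pp_023 : CertN 0 536870912 1610612736 536870912 67108864 67108864 3 false true true .up 0 2 3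
    ndN1q0 ndN1q3 pcN2 Cut.none Ext.none :=
  certNK2 (fam := false) (s1 := true) (s2 := true) (a := 0) (b := 2) (c := 3) (cn := .up) (n1 := ndN1q0) (n2 := ndN1q3) (pc := pcN2) (cut := Cut.none) (xt := Ext.none) (P1 := 0) (W1 := 536870912) (P2 := 1610612736) (W2 := 536870912) (P3 := 67108864) (W3 := 67108864) (N0 := 3)
    rfl rfl rfl (fun _ => rfl) k0_pp_023

noncomputable def f_pp_033 : ℕ → ℕ → ℕ → ℕ → Bool := onCell 1610612736 536870912 1610612736 536870912 67108864 67108864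
    (rowNK 3 2 false true true .pnn 0 3 3 (qsf 0 536870912 1610612736 536870912 3) ndN1q0 ndN1q3 pcN3 Cut.none Ext.none)

def k0_pp_033 : ∃ t, chk3 f_pp_033 t 1 1 1 = true :=
  ⟨(a (b (a (b (a (l 17830760) (b (l 856882491319) (l 17774704))) (l 17659416)) (b (a (b (l 1) (l 17907520)) (l 1)) (a (l 18102720) (l 18328136)))) (a (b (l 17587120) (l 17340712)) (b (a (l 17977304) (l 18202528)) (l 4)))) (b (a (b (l 1) (a (b (l 1) (l 18605816)) (l 1))) (l 1)) (b (a (a (l 18419352) (l 793532610295)) (a (b (l 1) (l 4)) (l 1))) (l 4)))), by decide +kernel⟩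

theorem c_pp_033 : CertN 0 536870912 1610612736 536870912 67108864 67108864 3 false true true .pnn 0 3 3
    ndN1q0 ndN1q3 pcN3 Cut.none Ext.none :=
  certNK2 (fam := false) (s1 := true) (s2 := true) (a := 0) (b := 3) (c := 3) (cn := .pnn) (n1 := ndN1q0) (n2 := ndN1q3) (pc := pcN3) (cut := Cut.none) (xt := Ext.none) (P1 := 0) (W1 := 536870912) (P2 := 1610612736) (W2 := 536870912) (P3 := 67108864) (W3 := 67108864) (N0 := 3)
    rfl rfl rfl (fun _ => rfl) k0_pp_033

noncomputable def f_pp_101 : ℕ → ℕ → ℕ → ℕ → Bool := onCell 536870912 536870912 536870912 536870912 67108864 67108864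
    (rowNK 3 0 false true true .npn 1 0 1 (qsf 536870912 536870912 536870912 536870912 0) ndN1q1 ndN1q1 pcN0 Cut.none Ext.none)

def k0_pp_101 : ∃ t, chk3 f_pp_101 t 1 1 1 = true :=
  ⟨(l 3), by decide +kernel⟩

theorem c_pp_101 : CertN 536870912 536870912 536870912 536870912 67108864 67108864 3 false true true .npn 1 0 1
    ndN1q1 ndN1q1 pcN0 Cut.none Ext.none :=
  certNK0 (fam := false) (s1 := true) (s2 := true) (a := 1) (b := 0) (c := 1) (cn := .npn) (n1 := ndN1q1) (n2 := ndN1q1) (pc := pcN0) (cut := Cut.none) (xt := Ext.none) (P1 := 536870912) (W1 := 536870912) (P2 := 536870912) (W2 := 536870912) (P3 := 67108864) (W3 := 67108864) (N0 := 3)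
    rfl rfl rfl k0_pp_101

noncomputable def f_pp_102_a : ℕ → ℕ → ℕ → ℕ → Bool := onCell 0 536870912 0 536870912 67108864 67108864
    (rowNK 3 2 false true true .npp 1 0 2 (qsf 536870912 536870912 0 536870912 0) ndN1q1 ndN1q2a pcN0 Cut.none Ext.none)

def k0_pp_102_a : ∃ t, chk3 f_pp_102_a t 1 1 1 = true :=
  ⟨(b (a (l 3) (a (l 3) (l 196127454199))) (l 3)), by decide +kernel⟩

theorem c_pp_102_a : CertN 536870912 536870912 0 536870912 67108864 67108864 3 false true true .npp 1 0 2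
    ndN1q1 ndN1q2a pcN0 Cut.none Ext.none :=
  certNK2 (fam := false) (s1 := true) (s2 := true) (a := 1) (b := 0) (c := 2) (cn := .npp) (n1 := ndN1q1) (n2 := ndN1q2a) (pc := pcN0) (cut := Cut.none) (xt := Ext.none) (P1 := 536870912) (W1 := 536870912) (P2 := 0) (W2 := 536870912) (P3 := 67108864) (W3 := 67108864) (N0 := 3)
    rfl rfl rfl (fun _ => rfl) k0_pp_102_a

noncomputable def f_pp_102_b : ℕ → ℕ → ℕ → ℕ → Bool := onCell 536870912 536870912 0 536870912 67108864 67108864
    (rowNK 3 1 false true true .npp 1 0 2 (qsf 536870912 536870912 1239849684 370763052 0) ndN1q1 ndN1q2b pcN0 Cut.none Ext.none)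

def k0_pp_102_b : ∃ t, chk3 f_pp_102_b t 1 1 1 = true :=
  ⟨(b (a (l 1) (l 3)) (a (b (l 1) (a (l 1) (b (l 3) (l 280819150247)))) (b (l 3) (a (l 421613431335) (l 3))))), by decide +kernel⟩

theorem c_pp_102_b : CertN 536870912 536870912 1239849684 370763052 67108864 67108864 3 false true true .npp 1 0 2
    ndN1q1 ndN1q2b pcN0 Cut.none Ext.none :=
  certNK1 (fam := false) (s1 := true) (s2 := true) (a := 1) (b := 0) (c := 2) (cn := .npp) (n1 := ndN1q1) (n2 := ndN1q2b) (pc := pcN0) (cut := Cut.none) (xt := Ext.none) (P1 := 536870912) (W1 := 536870912) (P2 := 1239849684) (W2 := 370763052) (P3 := 67108864) (W3 := 67108864) (N0 := 3)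
    rfl rfl rfl (fun _ => rfl) k0_pp_102_b

noncomputable def f_pp_112_a : ℕ → ℕ → ℕ → ℕ → Bool := onCell 536870912 536870912 0 536870912 67108864 67108864
    (rowNK 3 0 false true true .dn 1 1 2 (qsf 536870912 536870912 0 536870912 1) ndN1q1 ndN1q2a pcN1 Cut.none Ext.none)

def k0_pp_112_a : ∃ t, chk3 f_pp_112_a t 1 1 1 = true :=
  ⟨(a (b (a (b (l 17575240) (l 163378620855)) (b (l 151567512551) (l 3))) (l 3)) (l 1)), by decide +kernel⟩

theorem c_pp_112_a : CertN 536870912 536870912 0 536870912 67108864 67108864 3 false true true .dn 1 1 2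
    ndN1q1 ndN1q2a pcN1 Cut.none Ext.none :=
  certNK0 (fam := false) (s1 := true) (s2 := true) (a := 1) (b := 1) (c := 2) (cn := .dn) (n1 := ndN1q1) (n2 := ndN1q2a) (pc := pcN1) (cut := Cut.none) (xt := Ext.none) (P1 := 536870912) (W1 := 536870912) (P2 := 0) (W2 := 536870912) (P3 := 67108864) (W3 := 67108864) (N0 := 3)
    rfl rfl rfl k0_pp_112_a

noncomputable def f_pp_112_b : ℕ → ℕ → ℕ → ℕ → Bool := onCell 536870912 536870912 1239849684 370763052 67108864 67108864
    (rowNK 3 2 false true true .dn 1 1 2 (qsf 536870912 536870912 1239849684 370763052 1) ndN1q1 ndN1q2b pcN1 Cut.none Ext.none)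

def k0_pp_112_b : ∃ t, chk3 f_pp_112_b t 1 1 1 = true :=
  ⟨(a (a (b (b (l 17493136) (l 17306848)) (b (l 17383352) (l 212771450711))) (b (b (l 17427192) (l 17277880)) (b (l 17021904) (l 17065432)))) (a (b (l 294239946519) (l 17189928)) (b (l 1) (l 18050144)))), by decide +kernel⟩

theorem c_pp_112_b : CertN 536870912 536870912 1239849684 370763052 67108864 67108864 3 false true true .dn 1 1 2
    ndN1q1 ndN1q2b pcN1 Cut.none Ext.none :=
  certNK2 (fam := false) (s1 := true) (s2 := true) (a := 1) (b := 1) (c := 2) (cn := .dn) (n1 := ndN1q1) (n2 := ndN1q2b) (pc := pcN1) (cut := Cut.none) (xt := Ext.none) (P1 := 536870912) (W1 := 536870912) (P2 := 1239849684) (W2 := 370763052) (P3 := 67108864) (W3 := 67108864) (N0 := 3)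
    rfl rfl rfl (fun _ => rfl) k0_pp_112_b

noncomputable def f_pp_113 : ℕ → ℕ → ℕ → ℕ → Bool := onCell 536870912 536870912 536870912 536870912 67108864 67108864
    (rowNK 3 1 false true true .nn 1 1 3 (qsf 536870912 536870912 1610612736 536870912 1) ndN1q1 ndN1q3 pcN1 Cut.none Ext.none)

def k0_pp_113 : ∃ t, chk3 f_pp_113 t 1 1 1 = true :=
  ⟨(a (b (b (l 1) (a (l 1) (l 17537664))) (b (a (l 18105104) (l 17807200)) (a (l 18688216) (l 18232112)))) (b (b (a (l 17306768) (l 17696832)) (a (l 17241792) (l 17656944))) (b (a (l 17251768) (l 17635264)) (a (l 17502928) (b (l 17388480) (b (l 17135608) (l 16928608))))))), by decide +kernel⟩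

theorem c_pp_113 : CertN 536870912 536870912 1610612736 536870912 67108864 67108864 3 false true true .nn 1 1 3
    ndN1q1 ndN1q3 pcN1 Cut.none Ext.none :=
  certNK1 (fam := false) (s1 := true) (s2 := true) (a := 1) (b := 1) (c := 3) (cn := .nn) (n1 := ndN1q1) (n2 := ndN1q3) (pc := pcN1) (cut := Cut.none) (xt := Ext.none) (P1 := 536870912) (W1 := 536870912) (P2 := 1610612736) (W2 := 536870912) (P3 := 67108864) (W3 := 67108864) (N0 := 3)
    rfl rfl rfl (fun _ => rfl) k0_pp_113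

noncomputable def f_pp_123 : ℕ → ℕ → ℕ → ℕ → Bool := onCell 1073741824 536870912 1610612736 536870912 67108864 67108864
    (rowNK 3 2 false true true .npn 1 2 3 (qsf 536870912 536870912 1610612736 536870912 2) ndN1q1 ndN1q3 pcN2 Cut.none Ext.none)

def k0_pp_123 : ∃ t, chk3 f_pp_123 t 1 1 1 = true :=
  ⟨(a (b (a (l 18990136) (l 18859304)) (b (l 18387184) (a (l 17566552) (l 18125008)))) (b (a (l 18508248) (l 1)) (a (l 18581264) (l 18549888)))), by decide +kernel⟩

theorem c_pp_123 : CertN 536870912 536870912 1610612736 536870912 67108864 67108864 3 false true true .npn 1 2 3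
    ndN1q1 ndN1q3 pcN2 Cut.none Ext.none :=
  certNK2 (fam := false) (s1 := true) (s2 := true) (a := 1) (b := 2) (c := 3) (cn := .npn) (n1 := ndN1q1) (n2 := ndN1q3) (pc := pcN2) (cut := Cut.none) (xt := Ext.none) (P1 := 536870912) (W1 := 536870912) (P2 := 1610612736) (W2 := 536870912) (P3 := 67108864) (W3 := 67108864) (N0 := 3)
    rfl rfl rfl (fun _ => rfl) k0_pp_123

noncomputable def f_pp_133 : ℕ → ℕ → ℕ → ℕ → Bool := onCell 1610612736 536870912 1610612736 536870912 67108864 67108864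
    (rowNK 3 2 false true true .dn 1 3 3 (qsf 536870912 536870912 1610612736 536870912 3) ndN1q1 ndN1q3 pcN3 Cut.none Ext.none)

def k0_pp_133 : ∃ t, chk3 f_pp_133 t 1 1 1 = true :=
  ⟨(a (b (l 1) (a (b (l 1) (l 18231280)) (l 1))) (l 1)), by decide +kernel⟩

theorem c_pp_133 : CertN 536870912 536870912 1610612736 536870912 67108864 67108864 3 false true true .dn 1 3 3
    ndN1q1 ndN1q3 pcN3 Cut.none Ext.none :=
  certNK2 (fam := false) (s1 := true) (s2 := true) (a := 1) (b := 3) (c := 3) (cn := .dn) (n1 := ndN1q1) (n2 := ndN1q3) (pc := pcN3) (cut := Cut.none) (xt := Ext.none) (P1 := 536870912) (W1 := 536870912) (P2 := 1610612736) (W2 := 536870912) (P3 := 67108864) (W3 := 67108864) (N0 := 3)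
    rfl rfl rfl (fun _ => rfl) k0_pp_133

noncomputable def f_pp_202_aa : ℕ → ℕ → ℕ → ℕ → Bool := onCell 0 536870912 0 536870912 67108864 67108864
    (rowNK 3 0 false true true .pp 2 0 2 (qsf 0 536870912 0 536870912 0) ndN1q2a ndN1q2a pcN0 Cut.none Ext.none)

def k0_pp_202_aa : ∃ t, chk3 f_pp_202_aa t 1 1 1 = true :=
  ⟨(l 3), by decide +kernel⟩

theorem c_pp_202_aa : CertN 0 536870912 0 536870912 67108864 67108864 3 false true true .pp 2 0 2
    ndN1q2a ndN1q2a pcN0 Cut.none Ext.none :=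
  certNK0 (fam := false) (s1 := true) (s2 := true) (a := 2) (b := 0) (c := 2) (cn := .pp) (n1 := ndN1q2a) (n2 := ndN1q2a) (pc := pcN0) (cut := Cut.none) (xt := Ext.none) (P1 := 0) (W1 := 536870912) (P2 := 0) (W2 := 536870912) (P3 := 67108864) (W3 := 67108864) (N0 := 3)
    rfl rfl rfl k0_pp_202_aa

noncomputable def f_pp_202_ab : ℕ → ℕ → ℕ → ℕ → Bool := onCell 0 536870912 1239849684 370763052 67108864 67108864
    (rowNK 3 0 false true true .pp 2 0 2 (qsf 0 536870912 1239849684 370763052 0) ndN1q2a ndN1q2b pcN0 Cut.none Ext.none)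

def k0_pp_202_ab : ∃ t, chk3 f_pp_202_ab t 1 1 1 = true :=
  ⟨(l 3), by decide +kernel⟩

theorem c_pp_202_ab : CertN 0 536870912 1239849684 370763052 67108864 67108864 3 false true true .pp 2 0 2
    ndN1q2a ndN1q2b pcN0 Cut.none Ext.none :=
  certNK0 (fam := false) (s1 := true) (s2 := true) (a := 2) (b := 0) (c := 2) (cn := .pp) (n1 := ndN1q2a) (n2 := ndN1q2b) (pc := pcN0) (cut := Cut.none) (xt := Ext.none) (P1 := 0) (W1 := 536870912) (P2 := 1239849684) (W2 := 370763052) (P3 := 67108864) (W3 := 67108864) (N0 := 3)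
    rfl rfl rfl k0_pp_202_ab

noncomputable def f_pp_202_ba : ℕ → ℕ → ℕ → ℕ → Bool := onCell 1239849684 370763052 0 536870912 67108864 67108864
    (rowNK 3 0 false true true .pp 2 0 2 (qsf 1239849684 370763052 0 536870912 0) ndN1q2b ndN1q2a pcN0 Cut.none Ext.none)

def k0_pp_202_ba : ∃ t, chk3 f_pp_202_ba t 1 1 1 = true :=
  ⟨(l 3), by decide +kernel⟩

theorem c_pp_202_ba : CertN 1239849684 370763052 0 536870912 67108864 67108864 3 false true true .pp 2 0 2
    ndN1q2b ndN1q2a pcN0 Cut.none Ext.none :=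
  certNK0 (fam := false) (s1 := true) (s2 := true) (a := 2) (b := 0) (c := 2) (cn := .pp) (n1 := ndN1q2b) (n2 := ndN1q2a) (pc := pcN0) (cut := Cut.none) (xt := Ext.none) (P1 := 1239849684) (W1 := 370763052) (P2 := 0) (W2 := 536870912) (P3 := 67108864) (W3 := 67108864) (N0 := 3)
    rfl rfl rfl k0_pp_202_ba

noncomputable def f_pp_202_bb : ℕ → ℕ → ℕ → ℕ → Bool := onCell 1239849684 370763052 1239849684 370763052 67108864 67108864
    (rowNK 3 0 false true true .pp 2 0 2 (qsf 1239849684 370763052 1239849684 370763052 0) ndN1q2b ndN1q2b pcN0 Cut.none Ext.none)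

def k0_pp_202_bb : ∃ t, chk3 f_pp_202_bb t 1 1 1 = true :=
  ⟨(l 3), by decide +kernel⟩

theorem c_pp_202_bb : CertN 1239849684 370763052 1239849684 370763052 67108864 67108864 3 false true true .pp 2 0 2
    ndN1q2b ndN1q2b pcN0 Cut.none Ext.none :=
  certNK0 (fam := false) (s1 := true) (s2 := true) (a := 2) (b := 0) (c := 2) (cn := .pp) (n1 := ndN1q2b) (n2 := ndN1q2b) (pc := pcN0) (cut := Cut.none) (xt := Ext.none) (P1 := 1239849684) (W1 := 370763052) (P2 := 1239849684) (W2 := 370763052) (P3 := 67108864) (W3 := 67108864) (N0 := 3)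
    rfl rfl rfl k0_pp_202_bb

noncomputable def f_pp_203_a : ℕ → ℕ → ℕ → ℕ → Bool := onCell 0 536870912 0 536870912 67108864 67108864
    (rowNK 3 1 false true true .up 2 0 3 (qsf 0 536870912 1610612736 536870912 0) ndN1q2a ndN1q3 pcN0 Cut.none Ext.none)

def k0_pp_203_a : ∃ t, chk3 f_pp_203_a t 1 1 1 = true :=
  ⟨(l 3), by decide +kernel⟩

theorem c_pp_203_a : CertN 0 536870912 1610612736 536870912 67108864 67108864 3 false true true .up 2 0 3
    ndN1q2a ndN1q3 pcN0 Cut.none Ext.none :=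
  certNK1 (fam := false) (s1 := true) (s2 := true) (a := 2) (b := 0) (c := 3) (cn := .up) (n1 := ndN1q2a) (n2 := ndN1q3) (pc := pcN0) (cut := Cut.none) (xt := Ext.none) (P1 := 0) (W1 := 536870912) (P2 := 1610612736) (W2 := 536870912) (P3 := 67108864) (W3 := 67108864) (N0 := 3)
    rfl rfl rfl (fun _ => rfl) k0_pp_203_a

noncomputable def f_pp_203_b : ℕ → ℕ → ℕ → ℕ → Bool := onCell 1239849684 370763052 1610612736 536870912 67108864 67108864
    (rowNK 3 0 false true true .up 2 0 3 (qsf 1239849684 370763052 1610612736 536870912 0) ndN1q2b ndN1q3 pcN0 Cut.none Ext.none)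

def k0_pp_203_b : ∃ t, chk3 f_pp_203_b t 1 1 1 = true :=
  ⟨(l 3), by decide +kernel⟩

theorem c_pp_203_b : CertN 1239849684 370763052 1610612736 536870912 67108864 67108864 3 false true true .up 2 0 3
    ndN1q2b ndN1q3 pcN0 Cut.none Ext.none :=
  certNK0 (fam := false) (s1 := true) (s2 := true) (a := 2) (b := 0) (c := 3) (cn := .up) (n1 := ndN1q2b) (n2 := ndN1q3) (pc := pcN0) (cut := Cut.none) (xt := Ext.none) (P1 := 1239849684) (W1 := 370763052) (P2 := 1610612736) (W2 := 536870912) (P3 := 67108864) (W3 := 67108864) (N0 := 3)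
    rfl rfl rfl k0_pp_203_b

noncomputable def cut_pp_213_a : Cut := Cut.of [[⟨0, 1, 0, 21338704⟩, ⟨1, 1, 0, 21338704⟩, ⟨2, 2, 0, 1685920⟩]]

noncomputable def f_pp_213_a : ℕ → ℕ → ℕ → ℕ → Bool := onCell 0 536870912 1610612736 536870912 67108864 67108864
    (rowNK 3 0 false true true .pnn 2 1 3 (qsf 0 536870912 1610612736 536870912 1) ndN1q2a ndN1q3 pcN1 cut_pp_213_a Ext.none)

def k0_pp_213_a : ∃ t, chk3 f_pp_213_a t 1 1 1 = true :=
  ⟨(b (l 3) (a (l 3) (b (l 3) (a (l 3) (b (l 3) (b (l 3) (a (l 3) (b (l 3) (a (l 3) (b (l 3) (a (l 3) (b (l 3) (b (l 3) (b (l 3) (l 6))))))))))))))), by decide +kernel⟩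

theorem c_pp_213_a : CertN 0 536870912 1610612736 536870912 67108864 67108864 3 false true true .pnn 2 1 3
    ndN1q2a ndN1q3 pcN1 cut_pp_213_a Ext.none :=
  certNK0 (fam := false) (s1 := true) (s2 := true) (a := 2) (b := 1) (c := 3) (cn := .pnn) (n1 := ndN1q2a) (n2 := ndN1q3) (pc := pcN1) (cut := cut_pp_213_a) (xt := Ext.none) (P1 := 0) (W1 := 536870912) (P2 := 1610612736) (W2 := 536870912) (P3 := 67108864) (W3 := 67108864) (N0 := 3)
    rfl rfl rfl k0_pp_213_a

noncomputable def cut_pp_213_b : Cut := Cut.of [[⟨0, 1, 0, 21338704⟩, ⟨1, 1, 0, 21338704⟩, ⟨2, 2, 0, 1685920⟩]]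

noncomputable def f_pp_213_b : ℕ → ℕ → ℕ → ℕ → Bool := onCell 1239849684 370763052 1610612736 536870912 67108864 67108864
    (rowNK 3 0 false true true .pnn 2 1 3 (qsf 1239849684 370763052 1610612736 536870912 1) ndN1q2b ndN1q3 pcN1 cut_pp_213_b Ext.none)

def k0_pp_213_b : ∃ t, chk3 f_pp_213_b t 1 1 1 = true :=
  ⟨(l 3), by decide +kernel⟩

theorem c_pp_213_b : CertN 1239849684 370763052 1610612736 536870912 67108864 67108864 3 false true true .pnn 2 1 3
    ndN1q2b ndN1q3 pcN1 cut_pp_213_b Ext.none :=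
  certNK0 (fam := false) (s1 := true) (s2 := true) (a := 2) (b := 1) (c := 3) (cn := .pnn) (n1 := ndN1q2b) (n2 := ndN1q3) (pc := pcN1) (cut := cut_pp_213_b) (xt := Ext.none) (P1 := 1239849684) (W1 := 370763052) (P2 := 1610612736) (W2 := 536870912) (P3 := 67108864) (W3 := 67108864) (N0 := 3)
    rfl rfl rfl k0_pp_213_b

noncomputable def f_pp_303 : ℕ → ℕ → ℕ → ℕ → Bool := onCell 1610612736 536870912 1610612736 536870912 67108864 67108864
    (rowNK 3 0 false true true .npn 3 0 3 (qsf 1610612736 536870912 1610612736 536870912 0) ndN1q3 ndN1q3 pcN0 Cut.none Ext.none)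

def k0_pp_303 : ∃ t, chk3 f_pp_303 t 1 1 1 = true :=
  ⟨(l 3), by decide +kernel⟩

theorem c_pp_303 : CertN 1610612736 536870912 1610612736 536870912 67108864 67108864 3 false true true .npn 3 0 3
    ndN1q3 ndN1q3 pcN0 Cut.none Ext.none :=
  certNK0 (fam := false) (s1 := true) (s2 := true) (a := 3) (b := 0) (c := 3) (cn := .npn) (n1 := ndN1q3) (n2 := ndN1q3) (pc := pcN0) (cut := Cut.none) (xt := Ext.none) (P1 := 1610612736) (W1 := 536870912) (P2 := 1610612736) (W2 := 536870912) (P3 := 67108864) (W3 := 67108864) (N0 := 3)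
    rfl rfl rfl k0_pp_303

noncomputable def f_pp_313 : ℕ → ℕ → ℕ → ℕ → Bool := onCell 1610612736 536870912 1610612736 536870912 67108864 67108864
    (rowNK 3 0 false true true .dn 3 1 3 (qsf 1610612736 536870912 1610612736 536870912 1) ndN1q3 ndN1q3 pcN1 Cut.none Ext.none)

def k0_pp_313 : ∃ t, chk3 f_pp_313 t 1 1 1 = true :=
  ⟨(l 3), by decide +kernel⟩

theorem c_pp_313 : CertN 1610612736 536870912 1610612736 536870912 67108864 67108864 3 false true true .dn 3 1 3
    ndN1q3 ndN1q3 pcN1 Cut.none Ext.none :=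
  certNK0 (fam := false) (s1 := true) (s2 := true) (a := 3) (b := 1) (c := 3) (cn := .dn) (n1 := ndN1q3) (n2 := ndN1q3) (pc := pcN1) (cut := Cut.none) (xt := Ext.none) (P1 := 1610612736) (W1 := 536870912) (P2 := 1610612736) (W2 := 536870912) (P3 := 67108864) (W3 := 67108864) (N0 := 3)
    rfl rfl rfl k0_pp_313

noncomputable def f_pm_001 : ℕ → ℕ → ℕ → ℕ → Bool := onCell 0 536870912 536870912 536870912 67108864 67108864
    (rowNK 3 0 false true false .up 0 0 1 (qsf 0 536870912 536870912 536870912 0) ndN1q0 ndN1q1 pcN0 Cut.none Ext.none)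

def k0_pm_001 : ∃ t, chk3 f_pm_001 t 1 1 1 = true :=
  ⟨(l 4), by decide +kernel⟩

theorem c_pm_001 : CertN 0 536870912 536870912 536870912 67108864 67108864 3 false true false .up 0 0 1
    ndN1q0 ndN1q1 pcN0 Cut.none Ext.none :=
  certNK0 (fam := false) (s1 := true) (s2 := false) (a := 0) (b := 0) (c := 1) (cn := .up) (n1 := ndN1q0) (n2 := ndN1q1) (pc := pcN0) (cut := Cut.none) (xt := Ext.none) (P1 := 0) (W1 := 536870912) (P2 := 536870912) (W2 := 536870912) (P3 := 67108864) (W3 := 67108864) (N0 := 3)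
    rfl rfl rfl k0_pm_001

noncomputable def f_pm_011 : ℕ → ℕ → ℕ → ℕ → Bool := onCell 0 536870912 536870912 536870912 67108864 67108864
    (rowNK 3 0 false true false .pnn 0 1 1 (qsf 0 536870912 536870912 536870912 1) ndN1q0 ndN1q1 pcN1 Cut.none Ext.none)

def k0_pm_011 : ∃ t, chk3 f_pm_011 t 1 1 1 = true :=
  ⟨(l 4), by decide +kernel⟩

theorem c_pm_011 : CertN 0 536870912 536870912 536870912 67108864 67108864 3 false true false .pnn 0 1 1
    ndN1q0 ndN1q1 pcN1 Cut.none Ext.none :=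
  certNK0 (fam := false) (s1 := true) (s2 := false) (a := 0) (b := 1) (c := 1) (cn := .pnn) (n1 := ndN1q0) (n2 := ndN1q1) (pc := pcN1) (cut := Cut.none) (xt := Ext.none) (P1 := 0) (W1 := 536870912) (P2 := 536870912) (W2 := 536870912) (P3 := 67108864) (W3 := 67108864) (N0 := 3)
    rfl rfl rfl k0_pm_011

noncomputable def cut_pm_012_a : Cut := Cut.of [[⟨0, 0, 0, 67108864⟩, ⟨1, 1, 0, 67108864⟩, ⟨2, 1, 0, 67108864⟩]]

noncomputable def f_pm_012_a : ℕ → ℕ → ℕ → ℕ → Bool := onCell 536870912 536870912 0 536870912 67108864 67108864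
    (rowNK 3 2 false true false .pnp 0 1 2 (qsf 0 536870912 0 536870912 1) ndN1q0 ndN1q2a pcN1 cut_pm_012_a Ext.none)

def k0_pm_012_a : ∃ t, chk3 f_pm_012_a t 1 1 1 = true :=
  ⟨(a (b (a (b (l 2) (l 18697080)) (b (a (l 18531920) (l 18584640)) (l 18824280))) (a (l 18721872) (l 152710537719))) (b (a (a (b (a (l 18173072) (l 18286248)) (l 18731696)) (a (l 18701816) (l 18852624))) (a (a (l 18833272) (l 18842552)) (a (a (l 18822200) (l 18799256)) (b (l 18799872) (l 18613352))))) (a (b (l 18715976) (l 4)) (a (b (l 18526304) (l 4)) (a (b (a (l 18286080) (l 227871057511)) (l 4)) (b (b (l 18060192) (l 17083176)) (b (l 4) (b (l 4) (l 6))))))))), by decide +kernel⟩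

theorem c_pm_012_a : CertN 0 536870912 0 536870912 67108864 67108864 3 false true false .pnp 0 1 2
    ndN1q0 ndN1q2a pcN1 cut_pm_012_a Ext.none :=
  certNK2 (fam := false) (s1 := true) (s2 := false) (a := 0) (b := 1) (c := 2) (cn := .pnp) (n1 := ndN1q0) (n2 := ndN1q2a) (pc := pcN1) (cut := cut_pm_012_a) (xt := Ext.none) (P1 := 0) (W1 := 536870912) (P2 := 0) (W2 := 536870912) (P3 := 67108864) (W3 := 67108864) (N0 := 3)
    rfl rfl rfl (fun _ => rfl) k0_pm_012_a

noncomputable def cut_pm_012_b : Cut := Cut.of [[⟨0, 0, 0, 67108864⟩, ⟨1, 1, 0, 67108864⟩, ⟨2, 1, 0, 67108864⟩]]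

noncomputable def f_pm_012_b : ℕ → ℕ → ℕ → ℕ → Bool := onCell 536870912 536870912 1239849684 370763052 67108864 67108864
    (rowNK 3 2 false true false .pnp 0 1 2 (qsf 0 536870912 1239849684 370763052 1) ndN1q0 ndN1q2b pcN1 cut_pm_012_b Ext.none)

def k0_pm_012_b : ∃ t, chk3 f_pm_012_b t 1 1 1 = true :=
  ⟨(a (a (l 2) (b (a (l 17612696) (l 17714184)) (l 2))) (b (a (a (l 18041048) (b (l 18647832) (l 18727312))) (a (b (l 19002240) (l 19154544)) (a (b (l 19114424) (l 19319416)) (l 19459352)))) (a (a (l 2) (l 18545064)) (a (l 18998072) (a (l 19171912) (l 19285384)))))), by decide +kernel⟩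

theorem c_pm_012_b : CertN 0 536870912 1239849684 370763052 67108864 67108864 3 false true false .pnp 0 1 2
    ndN1q0 ndN1q2b pcN1 cut_pm_012_b Ext.none :=
  certNK2 (fam := false) (s1 := true) (s2 := false) (a := 0) (b := 1) (c := 2) (cn := .pnp) (n1 := ndN1q0) (n2 := ndN1q2b) (pc := pcN1) (cut := cut_pm_012_b) (xt := Ext.none) (P1 := 0) (W1 := 536870912) (P2 := 1239849684) (W2 := 370763052) (P3 := 67108864) (W3 := 67108864) (N0 := 3)
    rfl rfl rfl (fun _ => rfl) k0_pm_012_b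

noncomputable def cut_pm_022_a : Cut := Cut.of [[⟨0, 0, 0, 67108864⟩, ⟨1, 1, 0, 67108864⟩, ⟨2, 1, 0, 67108864⟩]]

noncomputable def f_pm_022_a : ℕ → ℕ → ℕ → ℕ → Bool := onCell 0 536870912 0 536870912 67108864 67108864
    (rowNK 3 0 false true false .pp 0 2 2 (qsf 0 536870912 0 536870912 2) ndN1q0 ndN1q2a pcN2 cut_pm_022_a Ext.none)

def k0_pm_022_a : ∃ t, chk3 f_pm_022_a t 1 1 1 = true :=
  ⟨(a (b (a (a (a (b (a (l 17988744) (l 18086152)) (a (b (l 17703200) (c (l 18152336) (l 16881088))) (l 17643016))) (b (l 18113856) (l 17811528))) (b (l 18317728) (a (l 17969032) (l 18224800)))) (a (b (l 18792960) (l 18650272)) (l 1))) (a (b (a (a (b (a (b (c (l 17874704) (l 16697408)) (l 16707992)) (l 17092416)) (a (a (a (b (l 16643288) (a (l 16666696) (l 16654720))) (l 16648640)) (l 16674344)) (l 16709400))) (b (l 17134960) (l 16858608))) (b (a (l 17342376) (l 17673224)) (a (l 16908528) (l 17036920)))) (a (b (b (a (a (a (a (a (a (l 16690520) (l 16684600)) (l 16675696))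 (l 16662064)) (b (l 16657512) (l 16677344))) (l 16719512)) (a (l 16784360) (l 16844704))) (a (l 6) (a (l 4) (l 4)))) (a (l 6) (l 4))) (b (l 4) (l 1)))) (b (l 1) (l 1)))) (l 1)), by decide +kernel⟩

theorem c_pm_022_a : CertN 0 536870912 0 536870912 67108864 67108864 3 false true false .pp 0 2 2
    ndN1q0 ndN1q2a pcN2 cut_pm_022_a Ext.none :=
  certNK0 (fam := false) (s1 := true) (s2 := false) (a := 0) (b := 2) (c := 2) (cn := .pp) (n1 := ndN1q0) (n2 := ndN1q2a) (pc := pcN2) (cut := cut_pm_022_a) (xt := Ext.none) (P1 := 0) (W1 := 536870912) (P2 := 0) (W2 := 536870912) (P3 := 67108864) (W3 := 67108864) (N0 := 3)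
    rfl rfl rfl k0_pm_022_a

noncomputable def cut_pm_022_b : Cut := Cut.of [[⟨0, 0, 0, 67108864⟩, ⟨1, 1, 0, 67108864⟩, ⟨2, 1, 0, 67108864⟩]]

noncomputable def f_pm_022_b : ℕ → ℕ → ℕ → ℕ → Bool := onCell 0 536870912 1239849684 370763052 67108864 67108864
    (rowNK 3 0 false true false .pp 0 2 2 (qsf 0 536870912 1239849684 370763052 2) ndN1q0 ndN1q2b pcN2 cut_pm_022_b Ext.none)

def k0_pm_022_b : ∃ t, chk3 f_pm_022_b t 1 1 1 = true :=
  ⟨(a (b (a (a (b (b (a (a (l 18397480) (l 18391584)) (l 18409672)) (l 18722664)) (l 18959264)) (b (l 18710664) (l 19000128))) (b (a (l 19002544) (l 19090464)) (l 19220728))) (a (b (a (l 19027528) (l 19021768)) (l 4)) (b (l 19104464) (l 18902712)))) (b (a (b (l 1) (l 19576808)) (l 1)) (a (b (l 19349832) (l 19048672)) (l 19397792)))), by decide +kernel⟩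

theorem c_pm_022_b : CertN 0 536870912 1239849684 370763052 67108864 67108864 3 false true false .pp 0 2 2
    ndN1q0 ndN1q2b pcN2 cut_pm_022_b Ext.none :=
  certNK0 (fam := false) (s1 := true) (s2 := false) (a := 0) (b := 2) (c := 2) (cn := .pp) (n1 := ndN1q0) (n2 := ndN1q2b) (pc := pcN2) (cut := cut_pm_022_b) (xt := Ext.none) (P1 := 0) (W1 := 536870912) (P2 := 1239849684) (W2 := 370763052) (P3 := 67108864) (W3 := 67108864) (N0 := 3)
    rfl rfl rfl k0_pm_022_b

noncomputable def f_pm_023 : ℕ → ℕ → ℕ → ℕ → Bool := onCell 1073741824 536870912 1610612736 536870912 67108864 67108864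
    (rowNK 3 2 false true false .up 0 2 3 (qsf 0 536870912 1610612736 536870912 2) ndN1q0 ndN1q3 pcN2 Cut.none Ext.none)

def k0_pm_023 : ∃ t, chk3 f_pm_023 t 1 1 1 = true :=
  ⟨(a (b (a (l 18526376) (l 18460152)) (a (l 2) (l 18075120))) (b (a (l 18465576) (l 4)) (a (l 17764504) (l 17552728)))), by decide +kernel⟩

theorem c_pm_023 : CertN 0 536870912 1610612736 536870912 67108864 67108864 3 false true false .up 0 2 3
    ndN1q0 ndN1q3 pcN2 Cut.none Ext.none :=
  certNK2 (fam := false) (s1 := true) (s2 := false) (a := 0) (b := 2) (c := 3) (cn := .up) (n1 := ndN1q0) (n2 := ndN1q3) (pc := pcN2) (cut := Cut.none) (xt := Ext.none) (P1 := 0) (W1 := 536870912) (P2 := 1610612736) (W2 := 536870912) (P3 := 67108864) (W3 := 67108864) (N0 := 3)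
    rfl rfl rfl (fun _ => rfl) k0_pm_023

noncomputable def f_pm_033 : ℕ → ℕ → ℕ → ℕ → Bool := onCell 0 536870912 1610612736 536870912 67108864 67108864
    (rowNK 3 0 false true false .pnn 0 3 3 (qsf 0 536870912 1610612736 536870912 3) ndN1q0 ndN1q3 pcN3 Cut.none Ext.none)

def k0_pm_033 : ∃ t, chk3 f_pm_033 t 1 1 1 = true :=
  ⟨(a (b (l 4) (l 4)) (b (a (b (l 1) (l 4)) (l 1)) (b (a (l 4) (a (l 4) (l 1))) (l 4)))), by decide +kernel⟩

theorem c_pm_033 : CertN 0 536870912 1610612736 536870912 67108864 67108864 3 false true false .pnn 0 3 3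
    ndN1q0 ndN1q3 pcN3 Cut.none Ext.none :=
  certNK0 (fam := false) (s1 := true) (s2 := false) (a := 0) (b := 3) (c := 3) (cn := .pnn) (n1 := ndN1q0) (n2 := ndN1q3) (pc := pcN3) (cut := Cut.none) (xt := Ext.none) (P1 := 0) (W1 := 536870912) (P2 := 1610612736) (W2 := 536870912) (P3 := 67108864) (W3 := 67108864) (N0 := 3)
    rfl rfl rfl k0_pm_033

noncomputable def f_pm_101 : ℕ → ℕ → ℕ → ℕ → Bool := onCell 536870912 536870912 536870912 536870912 67108864 67108864
    (rowNK 3 0 false true false .npn 1 0 1 (qsf 536870912 536870912 536870912 536870912 0) ndN1q1 ndN1q1 pcN0 Cut.none Ext.none)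

def k0_pm_101 : ∃ t, chk3 f_pm_101 t 1 1 1 = true :=
  ⟨(l 4), by decide +kernel⟩

theorem c_pm_101 : CertN 536870912 536870912 536870912 536870912 67108864 67108864 3 false true false .npn 1 0 1
    ndN1q1 ndN1q1 pcN0 Cut.none Ext.none :=
  certNK0 (fam := false) (s1 := true) (s2 := false) (a := 1) (b := 0) (c := 1) (cn := .npn) (n1 := ndN1q1) (n2 := ndN1q1) (pc := pcN0) (cut := Cut.none) (xt := Ext.none) (P1 := 536870912) (W1 := 536870912) (P2 := 536870912) (W2 := 536870912) (P3 := 67108864) (W3 := 67108864) (N0 := 3)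
    rfl rfl rfl k0_pm_101

noncomputable def f_pm_102_a : ℕ → ℕ → ℕ → ℕ → Bool := onCell 0 536870912 0 536870912 67108864 67108864
    (rowNK 3 2 false true false .npp 1 0 2 (qsf 536870912 536870912 0 536870912 0) ndN1q1 ndN1q2a pcN0 Cut.none Ext.none)

def k0_pm_102_a : ∃ t, chk3 f_pm_102_a t 1 1 1 = true :=
  ⟨(a (a (b (a (l 2) (l 18917184)) (b (l 19118400) (l 18934016))) (b (a (l 18352104) (l 17827744)) (b (l 18135328) (l 18090304)))) (a (b (b (l 17215792) (l 17326032)) (a (l 17686072) (l 17543792))) (b (b (a (l 17244472) (l 17636224)) (l 17172840)) (b (l 17392968) (l 17623480))))), by decide +kernel⟩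

theorem c_pm_102_a : CertN 536870912 536870912 0 536870912 67108864 67108864 3 false true false .npp 1 0 2
    ndN1q1 ndN1q2a pcN0 Cut.none Ext.none :=
  certNK2 (fam := false) (s1 := true) (s2 := false) (a := 1) (b := 0) (c := 2) (cn := .npp) (n1 := ndN1q1) (n2 := ndN1q2a) (pc := pcN0) (cut := Cut.none) (xt := Ext.none) (P1 := 536870912) (W1 := 536870912) (P2 := 0) (W2 := 536870912) (P3 := 67108864) (W3 := 67108864) (N0 := 3)
    rfl rfl rfl (fun _ => rfl) k0_pm_102_a

noncomputable def f_pm_102_b : ℕ → ℕ → ℕ → ℕ → Bool := onCell 536870912 536870912 0 536870912 67108864 67108864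
    (rowNK 3 1 false true false .npp 1 0 2 (qsf 536870912 536870912 1239849684 370763052 0) ndN1q1 ndN1q2b pcN0 Cut.none Ext.none)

def k0_pm_102_b : ∃ t, chk3 f_pm_102_b t 1 1 1 = true :=
  ⟨(b (a (l 1) (b (l 1) (a (l 1) (b (l 18055680) (l 17813384))))) (b (a (l 1) (a (b (l 17062552) (l 17010456)) (b (l 17759696) (l 17734568)))) (a (a (l 1) (b (l 17615568) (l 17559024))) (a (b (l 17033440) (l 17281216)) (b (l 17976504) (a (l 18125848) (l 18249288))))))), by decide +kernel⟩

theorem c_pm_102_b : CertN 536870912 536870912 1239849684 370763052 67108864 67108864 3 false true false .npp 1 0 2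
    ndN1q1 ndN1q2b pcN0 Cut.none Ext.none :=
  certNK1 (fam := false) (s1 := true) (s2 := false) (a := 1) (b := 0) (c := 2) (cn := .npp) (n1 := ndN1q1) (n2 := ndN1q2b) (pc := pcN0) (cut := Cut.none) (xt := Ext.none) (P1 := 536870912) (W1 := 536870912) (P2 := 1239849684) (W2 := 370763052) (P3 := 67108864) (W3 := 67108864) (N0 := 3)
    rfl rfl rfl (fun _ => rfl) k0_pm_102_b

noncomputable def f_pm_112_a : ℕ → ℕ → ℕ → ℕ → Bool := onCell 536870912 536870912 0 536870912 67108864 67108864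
    (rowNK 3 0 false true false .dn 1 1 2 (qsf 536870912 536870912 0 536870912 1) ndN1q1 ndN1q2a pcN1 Cut.none Ext.none)

def k0_pm_112_a : ∃ t, chk3 f_pm_112_a t 1 1 1 = true :=
  ⟨(a (b (b (a (a (l 17988600) (l 17934448)) (b (l 17869768) (l 18001824))) (l 18024656)) (a (l 17907008) (l 17855888))) (l 1)), by decide +kernel⟩

theorem c_pm_112_a : CertN 536870912 536870912 0 536870912 67108864 67108864 3 false true false .dn 1 1 2
    ndN1q1 ndN1q2a pcN1 Cut.none Ext.none :=
  certNK0 (fam := false) (s1 := true) (s2 := false) (a := 1) (b := 1) (c := 2) (cn := .dn) (n1 := ndN1q1) (n2 := ndN1q2a) (pc := pcN1) (cut := Cut.none) (xt := Ext.none) (P1 := 536870912) (W1 := 536870912) (P2 := 0) (W2 := 536870912) (P3 := 67108864) (W3 := 67108864) (N0 := 3)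
    rfl rfl rfl k0_pm_112_a

noncomputable def f_pm_112_b : ℕ → ℕ → ℕ → ℕ → Bool := onCell 536870912 536870912 1239849684 370763052 67108864 67108864
    (rowNK 3 2 false true false .dn 1 1 2 (qsf 536870912 536870912 1239849684 370763052 1) ndN1q1 ndN1q2b pcN1 Cut.none Ext.none)

def k0_pm_112_b : ∃ t, chk3 f_pm_112_b t 1 1 1 = true :=
  ⟨(a (b (a (a (l 17296384) (l 17360760)) (a (l 17487072) (l 17717256))) (a (b (a (l 17300952) (l 17210768)) (a (l 18331712) (l 17630592))) (b (a (l 17250600) (l 17410088)) (l 16911728)))) (a (a (b (l 18203104) (l 18318800)) (b (l 459599931863) (l 18922272))) (a (l 386586397303) (a (l 418799117511) (l 453695989447))))), by decide +kernel⟩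

theorem c_pm_112_b : CertN 536870912 536870912 1239849684 370763052 67108864 67108864 3 false true false .dn 1 1 2
    ndN1q1 ndN1q2b pcN1 Cut.none Ext.none :=
  certNK2 (fam := false) (s1 := true) (s2 := false) (a := 1) (b := 1) (c := 2) (cn := .dn) (n1 := ndN1q1) (n2 := ndN1q2b) (pc := pcN1) (cut := Cut.none) (xt := Ext.none) (P1 := 536870912) (W1 := 536870912) (P2 := 1239849684) (W2 := 370763052) (P3 := 67108864) (W3 := 67108864) (N0 := 3)
    rfl rfl rfl (fun _ => rfl) k0_pm_112_b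

noncomputable def f_pm_113 : ℕ → ℕ → ℕ → ℕ → Bool := onCell 536870912 536870912 1610612736 536870912 67108864 67108864
    (rowNK 3 2 false true false .nn 1 1 3 (qsf 536870912 536870912 1610612736 536870912 1) ndN1q1 ndN1q3 pcN1 Cut.none Ext.none)

def k0_pm_113 : ∃ t, chk3 f_pm_113 t 1 1 1 = true :=
  ⟨(a (b (b (a (a (l 19719360) (l 19054928)) (l 17934280)) (a (b (a (l 2) (l 19587264)) (l 2)) (l 624485651255))) (a (l 2) (b (b (a (l 2) (l 18756232)) (l 2)) (l 2)))) (b (a (a (l 17162368) (l 17851896)) (a (l 18585720) (a (l 19017016) (l 19288960)))) (a (a (b (l 18087856) (l 2)) (b (l 17229920) (b (l 17901920) (l 2)))) (a (b (l 17671376) (l 560594943335)) (a (a (l 17536472) (l 17725544)) (l 18019568)))))), by decide +kernel⟩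

theorem c_pm_113 : CertN 536870912 536870912 1610612736 536870912 67108864 67108864 3 false true false .nn 1 1 3
    ndN1q1 ndN1q3 pcN1 Cut.none Ext.none :=
  certNK2 (fam := false) (s1 := true) (s2 := false) (a := 1) (b := 1) (c := 3) (cn := .nn) (n1 := ndN1q1) (n2 := ndN1q3) (pc := pcN1) (cut := Cut.none) (xt := Ext.none) (P1 := 536870912) (W1 := 536870912) (P2 := 1610612736) (W2 := 536870912) (P3 := 67108864) (W3 := 67108864) (N0 := 3)
    rfl rfl rfl (fun _ => rfl) k0_pm_113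

noncomputable def f_pm_123 : ℕ → ℕ → ℕ → ℕ → Bool := onCell 1073741824 536870912 1610612736 536870912 67108864 67108864
    (rowNK 3 2 false true false .npn 1 2 3 (qsf 536870912 536870912 1610612736 536870912 2) ndN1q1 ndN1q3 pcN2 Cut.none Ext.none)

def k0_pm_123 : ∃ t, chk3 f_pm_123 t 1 1 1 = true :=
  ⟨(a (b (a (l 19539176) (l 19438480)) (a (b (l 19021464) (l 18079648)) (l 18894264))) (b (a (l 19047168) (l 1)) (a (l 18927152) (l 18662704)))), by decide +kernel⟩

theorem c_pm_123 : CertN 536870912 536870912 1610612736 536870912 67108864 67108864 3 false true false .npn 1 2 3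
    ndN1q1 ndN1q3 pcN2 Cut.none Ext.none :=
  certNK2 (fam := false) (s1 := true) (s2 := false) (a := 1) (b := 2) (c := 3) (cn := .npn) (n1 := ndN1q1) (n2 := ndN1q3) (pc := pcN2) (cut := Cut.none) (xt := Ext.none) (P1 := 536870912) (W1 := 536870912) (P2 := 1610612736) (W2 := 536870912) (P3 := 67108864) (W3 := 67108864) (N0 := 3)
    rfl rfl rfl (fun _ => rfl) k0_pm_123

noncomputable def f_pm_133 : ℕ → ℕ → ℕ → ℕ → Bool := onCell 1610612736 536870912 1610612736 536870912 67108864 67108864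
    (rowNK 3 2 false true false .dn 1 3 3 (qsf 536870912 536870912 1610612736 536870912 3) ndN1q1 ndN1q3 pcN3 Cut.none Ext.none)

def k0_pm_133 : ∃ t, chk3 f_pm_133 t 1 1 1 = true :=
  ⟨(a (b (l 1) (l 4)) (l 1)), by decide +kernel⟩

theorem c_pm_133 : CertN 536870912 536870912 1610612736 536870912 67108864 67108864 3 false true false .dn 1 3 3
    ndN1q1 ndN1q3 pcN3 Cut.none Ext.none :=
  certNK2 (fam := false) (s1 := true) (s2 := false) (a := 1) (b := 3) (c := 3) (cn := .dn) (n1 := ndN1q1) (n2 := ndN1q3) (pc := pcN3) (cut := Cut.none) (xt := Ext.none) (P1 := 536870912) (W1 := 536870912) (P2 := 1610612736) (W2 := 536870912) (P3 := 67108864) (W3 := 67108864) (N0 := 3)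
    rfl rfl rfl (fun _ => rfl) k0_pm_133

noncomputable def cut_pm_202_aa : Cut := Cut.of [[⟨0, 1, 0, 67108864⟩, ⟨1, 0, 0, 67108864⟩, ⟨2, 1, 0, 67108864⟩]]

noncomputable def f_pm_202_aa : ℕ → ℕ → ℕ → ℕ → Bool := onCell 0 536870912 0 536870912 67108864 67108864
    (rowNK 3 0 false true false .pp 2 0 2 (qsf 0 536870912 0 536870912 0) ndN1q2a ndN1q2a pcN0 cut_pm_202_aa Ext.none)

def k0_pm_202_aa : ∃ t, chk3 f_pm_202_aa t 1 1 1 = true :=
  ⟨(b (l 3) (a (l 3) (b (l 3) (b (l 3) (a (l 1) (a (l 3) (l 6))))))), by decide +kernel⟩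

theorem c_pm_202_aa : CertN 0 536870912 0 536870912 67108864 67108864 3 false true false .pp 2 0 2
    ndN1q2a ndN1q2a pcN0 cut_pm_202_aa Ext.none :=
  certNK0 (fam := false) (s1 := true) (s2 := false) (a := 2) (b := 0) (c := 2) (cn := .pp) (n1 := ndN1q2a) (n2 := ndN1q2a) (pc := pcN0) (cut := cut_pm_202_aa) (xt := Ext.none) (P1 := 0) (W1 := 536870912) (P2 := 0) (W2 := 536870912) (P3 := 67108864) (W3 := 67108864) (N0 := 3)
    rfl rfl rfl k0_pm_202_aa

noncomputable def cut_pm_202_ab : Cut := Cut.of [[⟨0, 1, 0, 67108864⟩, ⟨1, 0, 0, 67108864⟩, ⟨2, 1, 0, 67108864⟩]]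

noncomputable def f_pm_202_ab : ℕ → ℕ → ℕ → ℕ → Bool := onCell 0 536870912 1239849684 370763052 67108864 67108864
    (rowNK 3 0 false true false .pp 2 0 2 (qsf 0 536870912 1239849684 370763052 0) ndN1q2a ndN1q2b pcN0 cut_pm_202_ab Ext.none)

def k0_pm_202_ab : ∃ t, chk3 f_pm_202_ab t 1 1 1 = true :=
  ⟨(l 3), by decide +kernel⟩

theorem c_pm_202_ab : CertN 0 536870912 1239849684 370763052 67108864 67108864 3 false true false .pp 2 0 2
    ndN1q2a ndN1q2b pcN0 cut_pm_202_ab Ext.none :=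
  certNK0 (fam := false) (s1 := true) (s2 := false) (a := 2) (b := 0) (c := 2) (cn := .pp) (n1 := ndN1q2a) (n2 := ndN1q2b) (pc := pcN0) (cut := cut_pm_202_ab) (xt := Ext.none) (P1 := 0) (W1 := 536870912) (P2 := 1239849684) (W2 := 370763052) (P3 := 67108864) (W3 := 67108864) (N0 := 3)
    rfl rfl rfl k0_pm_202_ab

noncomputable def cut_pm_202_ba : Cut := Cut.of [[⟨0, 1, 0, 67108864⟩, ⟨1, 0, 0, 67108864⟩, ⟨2, 1, 0, 67108864⟩]]

noncomputable def f_pm_202_ba : ℕ → ℕ → ℕ → ℕ → Bool := onCell 1239849684 370763052 0 536870912 67108864 67108864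
    (rowNK 3 0 false true false .pp 2 0 2 (qsf 1239849684 370763052 0 536870912 0) ndN1q2b ndN1q2a pcN0 cut_pm_202_ba Ext.none)

def k0_pm_202_ba : ∃ t, chk3 f_pm_202_ba t 1 1 1 = true :=
  ⟨(l 3), by decide +kernel⟩

theorem c_pm_202_ba : CertN 1239849684 370763052 0 536870912 67108864 67108864 3 false true false .pp 2 0 2
    ndN1q2b ndN1q2a pcN0 cut_pm_202_ba Ext.none :=
  certNK0 (fam := false) (s1 := true) (s2 := false) (a := 2) (b := 0) (c := 2) (cn := .pp) (n1 := ndN1q2b) (n2 := ndN1q2a) (pc := pcN0) (cut := cut_pm_202_ba) (xt := Ext.none) (P1 := 1239849684) (W1 := 370763052) (P2 := 0) (W2 := 536870912) (P3 := 67108864) (W3 := 67108864) (N0 := 3)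
    rfl rfl rfl k0_pm_202_ba

noncomputable def cut_pm_202_bb : Cut := Cut.of [[⟨0, 1, 0, 67108864⟩, ⟨1, 0, 0, 67108864⟩, ⟨2, 1, 0, 67108864⟩]]

noncomputable def f_pm_202_bb : ℕ → ℕ → ℕ → ℕ → Bool := onCell 1239849684 370763052 1239849684 370763052 67108864 67108864
    (rowNK 3 0 false true false .pp 2 0 2 (qsf 1239849684 370763052 1239849684 370763052 0) ndN1q2b ndN1q2b pcN0 cut_pm_202_bb Ext.none)

def k0_pm_202_bb : ∃ t, chk3 f_pm_202_bb t 1 1 1 = true :=
  ⟨(l 3), by decide +kernel⟩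

theorem c_pm_202_bb : CertN 1239849684 370763052 1239849684 370763052 67108864 67108864 3 false true false .pp 2 0 2
    ndN1q2b ndN1q2b pcN0 cut_pm_202_bb Ext.none :=
  certNK0 (fam := false) (s1 := true) (s2 := false) (a := 2) (b := 0) (c := 2) (cn := .pp) (n1 := ndN1q2b) (n2 := ndN1q2b) (pc := pcN0) (cut := cut_pm_202_bb) (xt := Ext.none) (P1 := 1239849684) (W1 := 370763052) (P2 := 1239849684) (W2 := 370763052) (P3 := 67108864) (W3 := 67108864) (N0 := 3)
    rfl rfl rfl k0_pm_202_bb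

noncomputable def f_pm_203_a : ℕ → ℕ → ℕ → ℕ → Bool := onCell 0 536870912 0 536870912 67108864 67108864
    (rowNK 3 1 false true false .up 2 0 3 (qsf 0 536870912 1610612736 536870912 0) ndN1q2a ndN1q3 pcN0 Cut.none Ext.none)

def k0_pm_203_a : ∃ t, chk3 f_pm_203_a t 1 1 1 = true :=
  ⟨(l 3), by decide +kernel⟩

theorem c_pm_203_a : CertN 0 536870912 1610612736 536870912 67108864 67108864 3 false true false .up 2 0 3
    ndN1q2a ndN1q3 pcN0 Cut.none Ext.none :=
  certNK1 (fam := false) (s1 := true) (s2 := false) (a := 2) (b := 0) (c := 3) (cn := .up) (n1 := ndN1q2a) (n2 := ndN1q3) (pc := pcN0) (cut := Cut.none) (xt := Ext.none) (P1 := 0) (W1 := 536870912) (P2 := 1610612736) (W2 := 536870912) (P3 := 67108864) (W3 := 67108864) (N0 := 3)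
    rfl rfl rfl (fun _ => rfl) k0_pm_203_a

noncomputable def f_pm_203_b : ℕ → ℕ → ℕ → ℕ → Bool := onCell 1239849684 370763052 1610612736 536870912 67108864 67108864
    (rowNK 3 0 false true false .up 2 0 3 (qsf 1239849684 370763052 1610612736 536870912 0) ndN1q2b ndN1q3 pcN0 Cut.none Ext.none)

def k0_pm_203_b : ∃ t, chk3 f_pm_203_b t 1 1 1 = true :=
  ⟨(l 3), by decide +kernel⟩

theorem c_pm_203_b : CertN 1239849684 370763052 1610612736 536870912 67108864 67108864 3 false true false .up 2 0 3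
    ndN1q2b ndN1q3 pcN0 Cut.none Ext.none :=
  certNK0 (fam := false) (s1 := true) (s2 := false) (a := 2) (b := 0) (c := 3) (cn := .up) (n1 := ndN1q2b) (n2 := ndN1q3) (pc := pcN0) (cut := Cut.none) (xt := Ext.none) (P1 := 1239849684) (W1 := 370763052) (P2 := 1610612736) (W2 := 536870912) (P3 := 67108864) (W3 := 67108864) (N0 := 3)
    rfl rfl rfl k0_pm_203_b

noncomputable def cut_pm_213_a : Cut := Cut.of [[⟨0, 1, 0, 21338704⟩, ⟨1, 1, 0, 21338704⟩, ⟨2, 2, 0, 1685920⟩]]

noncomputable def f_pm_213_a : ℕ → ℕ → ℕ → ℕ → Bool := onCell 0 536870912 1610612736 536870912 67108864 67108864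
    (rowNK 3 0 false true false .pnn 2 1 3 (qsf 0 536870912 1610612736 536870912 1) ndN1q2a ndN1q3 pcN1 cut_pm_213_a Ext.none)

def k0_pm_213_a : ∃ t, chk3 f_pm_213_a t 1 1 1 = true :=
  ⟨(b (l 3) (a (l 3) (b (l 3) (a (l 3) (b (l 3) (a (l 3) (a (l 3) (b (l 3) (b (l 3) (a (l 3) (b (l 3) (b (l 3) (b (l 3) (b (l 3) (l 6))))))))))))))), by decide +kernel⟩

theorem c_pm_213_a : CertN 0 536870912 1610612736 536870912 67108864 67108864 3 false true false .pnn 2 1 3
    ndN1q2a ndN1q3 pcN1 cut_pm_213_a Ext.none :=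
  certNK0 (fam := false) (s1 := true) (s2 := false) (a := 2) (b := 1) (c := 3) (cn := .pnn) (n1 := ndN1q2a) (n2 := ndN1q3) (pc := pcN1) (cut := cut_pm_213_a) (xt := Ext.none) (P1 := 0) (W1 := 536870912) (P2 := 1610612736) (W2 := 536870912) (P3 := 67108864) (W3 := 67108864) (N0 := 3)
    rfl rfl rfl k0_pm_213_a

noncomputable def cut_pm_213_b : Cut := Cut.of [[⟨0, 1, 0, 21338704⟩, ⟨1, 1, 0, 21338704⟩, ⟨2, 2, 0, 1685920⟩]]

noncomputable def f_pm_213_b : ℕ → ℕ → ℕ → ℕ → Bool := onCell 1239849684 370763052 1610612736 536870912 67108864 67108864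
    (rowNK 3 0 false true false .pnn 2 1 3 (qsf 1239849684 370763052 1610612736 536870912 1) ndN1q2b ndN1q3 pcN1 cut_pm_213_b Ext.none)

def k0_pm_213_b : ∃ t, chk3 f_pm_213_b t 1 1 1 = true :=
  ⟨(l 3), by decide +kernel⟩

theorem c_pm_213_b : CertN 1239849684 370763052 1610612736 536870912 67108864 67108864 3 false true false .pnn 2 1 3
    ndN1q2b ndN1q3 pcN1 cut_pm_213_b Ext.none :=
  certNK0 (fam := false) (s1 := true) (s2 := false) (a := 2) (b := 1) (c := 3) (cn := .pnn) (n1 := ndN1q2b) (n2 := ndN1q3) (pc := pcN1) (cut := cut_pm_213_b) (xt := Ext.none) (P1 := 1239849684) (W1 := 370763052) (P2 := 1610612736) (W2 := 536870912) (P3 := 67108864) (W3 := 67108864) (N0 := 3)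
    rfl rfl rfl k0_pm_213_b

noncomputable def f_pm_303 : ℕ → ℕ → ℕ → ℕ → Bool := onCell 1610612736 536870912 1610612736 536870912 67108864 67108864
    (rowNK 3 0 false true false .npn 3 0 3 (qsf 1610612736 536870912 1610612736 536870912 0) ndN1q3 ndN1q3 pcN0 Cut.none Ext.none)

def k0_pm_303 : ∃ t, chk3 f_pm_303 t 1 1 1 = true :=
  ⟨(l 3), by decide +kernel⟩

theorem c_pm_303 : CertN 1610612736 536870912 1610612736 536870912 67108864 67108864 3 false true false .npn 3 0 3
    ndN1q3 ndN1q3 pcN0 Cut.none Ext.none :=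
  certNK0 (fam := false) (s1 := true) (s2 := false) (a := 3) (b := 0) (c := 3) (cn := .npn) (n1 := ndN1q3) (n2 := ndN1q3) (pc := pcN0) (cut := Cut.none) (xt := Ext.none) (P1 := 1610612736) (W1 := 536870912) (P2 := 1610612736) (W2 := 536870912) (P3 := 67108864) (W3 := 67108864) (N0 := 3)
    rfl rfl rfl k0_pm_303

noncomputable def f_pm_313 : ℕ → ℕ → ℕ → ℕ → Bool := onCell 1610612736 536870912 1610612736 536870912 67108864 67108864
    (rowNK 3 0 false true false .dn 3 1 3 (qsf 1610612736 536870912 1610612736 536870912 1) ndN1q3 ndN1q3 pcN1 Cut.none Ext.none)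

def k0_pm_313 : ∃ t, chk3 f_pm_313 t 1 1 1 = true :=
  ⟨(l 3), by decide +kernel⟩

theorem c_pm_313 : CertN 1610612736 536870912 1610612736 536870912 67108864 67108864 3 false true false .dn 3 1 3
    ndN1q3 ndN1q3 pcN1 Cut.none Ext.none :=
  certNK0 (fam := false) (s1 := true) (s2 := false) (a := 3) (b := 1) (c := 3) (cn := .dn) (n1 := ndN1q3) (n2 := ndN1q3) (pc := pcN1) (cut := Cut.none) (xt := Ext.none) (P1 := 1610612736) (W1 := 536870912) (P2 := 1610612736) (W2 := 536870912) (P3 := 67108864) (W3 := 67108864) (N0 := 3)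
    rfl rfl rfl k0_pm_313

noncomputable def f_mm_001 : ℕ → ℕ → ℕ → ℕ → Bool := onCell 0 536870912 536870912 536870912 67108864 67108864
    (rowNK 3 0 false false false .up 0 0 1 (qsf 0 536870912 536870912 536870912 0) ndN1q0 ndN1q1 pcN0 Cut.none Ext.none)

def k0_mm_001 : ∃ t, chk3 f_mm_001 t 1 1 1 = true :=
  ⟨(l 3), by decide +kernel⟩

theorem c_mm_001 : CertN 0 536870912 536870912 536870912 67108864 67108864 3 false false false .up 0 0 1
    ndN1q0 ndN1q1 pcN0 Cut.none Ext.none :=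
  certNK0 (fam := false) (s1 := false) (s2 := false) (a := 0) (b := 0) (c := 1) (cn := .up) (n1 := ndN1q0) (n2 := ndN1q1) (pc := pcN0) (cut := Cut.none) (xt := Ext.none) (P1 := 0) (W1 := 536870912) (P2 := 536870912) (W2 := 536870912) (P3 := 67108864) (W3 := 67108864) (N0 := 3)
    rfl rfl rfl k0_mm_001

noncomputable def f_mm_011 : ℕ → ℕ → ℕ → ℕ → Bool := onCell 0 536870912 536870912 536870912 67108864 67108864
    (rowNK 3 0 false false false .pnn 0 1 1 (qsf 0 536870912 536870912 536870912 1) ndN1q0 ndN1q1 pcN1 Cut.none Ext.none)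

def k0_mm_011 : ∃ t, chk3 f_mm_011 t 1 1 1 = true :=
  ⟨(l 3), by decide +kernel⟩

theorem c_mm_011 : CertN 0 536870912 536870912 536870912 67108864 67108864 3 false false false .pnn 0 1 1
    ndN1q0 ndN1q1 pcN1 Cut.none Ext.none :=
  certNK0 (fam := false) (s1 := false) (s2 := false) (a := 0) (b := 1) (c := 1) (cn := .pnn) (n1 := ndN1q0) (n2 := ndN1q1) (pc := pcN1) (cut := Cut.none) (xt := Ext.none) (P1 := 0) (W1 := 536870912) (P2 := 536870912) (W2 := 536870912) (P3 := 67108864) (W3 := 67108864) (N0 := 3)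
    rfl rfl rfl k0_mm_011

noncomputable def f_mm_012_a : ℕ → ℕ → ℕ → ℕ → Bool := onCell 0 536870912 0 536870912 67108864 67108864
    (rowNK 3 0 false false false .pnp 0 1 2 (qsf 0 536870912 0 536870912 1) ndN1q0 ndN1q2a pcN1 Cut.none Ext.none)

def k0_mm_012_a : ∃ t, chk3 f_mm_012_a t 1 1 1 = true :=
  ⟨(l 5), by decide +kernel⟩

theorem c_mm_012_a : CertN 0 536870912 0 536870912 67108864 67108864 3 false false false .pnp 0 1 2
    ndN1q0 ndN1q2a pcN1 Cut.none Ext.none :=
  certNK0 (fam := false) (s1 := false) (s2 := false) (a := 0) (b := 1) (c := 2) (cn := .pnp) (n1 := ndN1q0) (n2 := ndN1q2a) (pc := pcN1) (cut := Cut.none) (xt := Ext.none) (P1 := 0) (W1 := 536870912) (P2 := 0) (W2 := 536870912) (P3 := 67108864) (W3 := 67108864) (N0 := 3)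
    rfl rfl rfl k0_mm_012_a

noncomputable def f_mm_012_b : ℕ → ℕ → ℕ → ℕ → Bool := onCell 0 536870912 1239849684 370763052 67108864 67108864
    (rowNK 3 0 false false false .pnp 0 1 2 (qsf 0 536870912 1239849684 370763052 1) ndN1q0 ndN1q2b pcN1 Cut.none Ext.none)

def k0_mm_012_b : ∃ t, chk3 f_mm_012_b t 1 1 1 = true :=
  ⟨(l 5), by decide +kernel⟩

theorem c_mm_012_b : CertN 0 536870912 1239849684 370763052 67108864 67108864 3 false false false .pnp 0 1 2
    ndN1q0 ndN1q2b pcN1 Cut.none Ext.none :=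
  certNK0 (fam := false) (s1 := false) (s2 := false) (a := 0) (b := 1) (c := 2) (cn := .pnp) (n1 := ndN1q0) (n2 := ndN1q2b) (pc := pcN1) (cut := Cut.none) (xt := Ext.none) (P1 := 0) (W1 := 536870912) (P2 := 1239849684) (W2 := 370763052) (P3 := 67108864) (W3 := 67108864) (N0 := 3)
    rfl rfl rfl k0_mm_012_b

noncomputable def f_mm_022_a : ℕ → ℕ → ℕ → ℕ → Bool := onCell 0 536870912 0 536870912 67108864 67108864
    (rowNK 3 0 false false false .pp 0 2 2 (qsf 0 536870912 0 536870912 2) ndN1q0 ndN1q2a pcN2 Cut.none Ext.none)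

def k0_mm_022_a : ∃ t, chk3 f_mm_022_a t 1 1 1 = true :=
  ⟨(l 5), by decide +kernel⟩

theorem c_mm_022_a : CertN 0 536870912 0 536870912 67108864 67108864 3 false false false .pp 0 2 2
    ndN1q0 ndN1q2a pcN2 Cut.none Ext.none :=
  certNK0 (fam := false) (s1 := false) (s2 := false) (a := 0) (b := 2) (c := 2) (cn := .pp) (n1 := ndN1q0) (n2 := ndN1q2a) (pc := pcN2) (cut := Cut.none) (xt := Ext.none) (P1 := 0) (W1 := 536870912) (P2 := 0) (W2 := 536870912) (P3 := 67108864) (W3 := 67108864) (N0 := 3)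
    rfl rfl rfl k0_mm_022_a

noncomputable def f_mm_022_b : ℕ → ℕ → ℕ → ℕ → Bool := onCell 0 536870912 1239849684 370763052 67108864 67108864
    (rowNK 3 0 false false false .pp 0 2 2 (qsf 0 536870912 1239849684 370763052 2) ndN1q0 ndN1q2b pcN2 Cut.none Ext.none)

def k0_mm_022_b : ∃ t, chk3 f_mm_022_b t 1 1 1 = true :=
  ⟨(l 5), by decide +kernel⟩

theorem c_mm_022_b : CertN 0 536870912 1239849684 370763052 67108864 67108864 3 false false false .pp 0 2 2
    ndN1q0 ndN1q2b pcN2 Cut.none Ext.none :=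
  certNK0 (fam := false) (s1 := false) (s2 := false) (a := 0) (b := 2) (c := 2) (cn := .pp) (n1 := ndN1q0) (n2 := ndN1q2b) (pc := pcN2) (cut := Cut.none) (xt := Ext.none) (P1 := 0) (W1 := 536870912) (P2 := 1239849684) (W2 := 370763052) (P3 := 67108864) (W3 := 67108864) (N0 := 3)
    rfl rfl rfl k0_mm_022_b

noncomputable def f_mm_023 : ℕ → ℕ → ℕ → ℕ → Bool := onCell 0 536870912 1610612736 536870912 67108864 67108864
    (rowNK 3 0 false false false .up 0 2 3 (qsf 0 536870912 1610612736 536870912 2) ndN1q0 ndN1q3 pcN2 Cut.none Ext.none)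

def k0_mm_023 : ∃ t, chk3 f_mm_023 t 1 1 1 = true :=
  ⟨(l 5), by decide +kernel⟩

theorem c_mm_023 : CertN 0 536870912 1610612736 536870912 67108864 67108864 3 false false false .up 0 2 3
    ndN1q0 ndN1q3 pcN2 Cut.none Ext.none :=
  certNK0 (fam := false) (s1 := false) (s2 := false) (a := 0) (b := 2) (c := 3) (cn := .up) (n1 := ndN1q0) (n2 := ndN1q3) (pc := pcN2) (cut := Cut.none) (xt := Ext.none) (P1 := 0) (W1 := 536870912) (P2 := 1610612736) (W2 := 536870912) (P3 := 67108864) (W3 := 67108864) (N0 := 3)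
    rfl rfl rfl k0_mm_023

noncomputable def f_mm_033 : ℕ → ℕ → ℕ → ℕ → Bool := onCell 0 536870912 1610612736 536870912 67108864 67108864
    (rowNK 3 0 false false false .pnn 0 3 3 (qsf 0 536870912 1610612736 536870912 3) ndN1q0 ndN1q3 pcN3 Cut.none Ext.none)

def k0_mm_033 : ∃ t, chk3 f_mm_033 t 1 1 1 = true :=
  ⟨(l 5), by decide +kernel⟩

theorem c_mm_033 : CertN 0 536870912 1610612736 536870912 67108864 67108864 3 false false false .pnn 0 3 3
    ndN1q0 ndN1q3 pcN3 Cut.none Ext.none :=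
  certNK0 (fam := false) (s1 := false) (s2 := false) (a := 0) (b := 3) (c := 3) (cn := .pnn) (n1 := ndN1q0) (n2 := ndN1q3) (pc := pcN3) (cut := Cut.none) (xt := Ext.none) (P1 := 0) (W1 := 536870912) (P2 := 1610612736) (W2 := 536870912) (P3 := 67108864) (W3 := 67108864) (N0 := 3)
    rfl rfl rfl k0_mm_033

noncomputable def f_mm_101 : ℕ → ℕ → ℕ → ℕ → Bool := onCell 536870912 536870912 536870912 536870912 67108864 67108864
    (rowNK 3 0 false false false .npn 1 0 1 (qsf 536870912 536870912 536870912 536870912 0) ndN1q1 ndN1q1 pcN0 Cut.none Ext.none)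

def k0_mm_101 : ∃ t, chk3 f_mm_101 t 1 1 1 = true :=
  ⟨(l 3), by decide +kernel⟩

theorem c_mm_101 : CertN 536870912 536870912 536870912 536870912 67108864 67108864 3 false false false .npn 1 0 1
    ndN1q1 ndN1q1 pcN0 Cut.none Ext.none :=
  certNK0 (fam := false) (s1 := false) (s2 := false) (a := 1) (b := 0) (c := 1) (cn := .npn) (n1 := ndN1q1) (n2 := ndN1q1) (pc := pcN0) (cut := Cut.none) (xt := Ext.none) (P1 := 536870912) (W1 := 536870912) (P2 := 536870912) (W2 := 536870912) (P3 := 67108864) (W3 := 67108864) (N0 := 3)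
    rfl rfl rfl k0_mm_101

noncomputable def f_mm_102_a : ℕ → ℕ → ℕ → ℕ → Bool := onCell 536870912 536870912 0 536870912 67108864 67108864
    (rowNK 3 0 false false false .npp 1 0 2 (qsf 536870912 536870912 0 536870912 0) ndN1q1 ndN1q2a pcN0 Cut.none Ext.none)

def k0_mm_102_a : ∃ t, chk3 f_mm_102_a t 1 1 1 = true :=
  ⟨(l 5), by decide +kernel⟩

theorem c_mm_102_a : CertN 536870912 536870912 0 536870912 67108864 67108864 3 false false false .npp 1 0 2
    ndN1q1 ndN1q2a pcN0 Cut.none Ext.none :=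
  certNK0 (fam := false) (s1 := false) (s2 := false) (a := 1) (b := 0) (c := 2) (cn := .npp) (n1 := ndN1q1) (n2 := ndN1q2a) (pc := pcN0) (cut := Cut.none) (xt := Ext.none) (P1 := 536870912) (W1 := 536870912) (P2 := 0) (W2 := 536870912) (P3 := 67108864) (W3 := 67108864) (N0 := 3)
    rfl rfl rfl k0_mm_102_a

noncomputable def f_mm_102_b : ℕ → ℕ → ℕ → ℕ → Bool := onCell 536870912 536870912 1239849684 370763052 67108864 67108864
    (rowNK 3 0 false false false .npp 1 0 2 (qsf 536870912 536870912 1239849684 370763052 0) ndN1q1 ndN1q2b pcN0 Cut.none Ext.none)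

def k0_mm_102_b : ∃ t, chk3 f_mm_102_b t 1 1 1 = true :=
  ⟨(l 5), by decide +kernel⟩

theorem c_mm_102_b : CertN 536870912 536870912 1239849684 370763052 67108864 67108864 3 false false false .npp 1 0 2
    ndN1q1 ndN1q2b pcN0 Cut.none Ext.none :=
  certNK0 (fam := false) (s1 := false) (s2 := false) (a := 1) (b := 0) (c := 2) (cn := .npp) (n1 := ndN1q1) (n2 := ndN1q2b) (pc := pcN0) (cut := Cut.none) (xt := Ext.none) (P1 := 536870912) (W1 := 536870912) (P2 := 1239849684) (W2 := 370763052) (P3 := 67108864) (W3 := 67108864) (N0 := 3)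
    rfl rfl rfl k0_mm_102_b

noncomputable def f_mm_112_a : ℕ → ℕ → ℕ → ℕ → Bool := onCell 536870912 536870912 0 536870912 67108864 67108864
    (rowNK 3 0 false false false .dn 1 1 2 (qsf 536870912 536870912 0 536870912 1) ndN1q1 ndN1q2a pcN1 Cut.none Ext.none)

def k0_mm_112_a : ∃ t, chk3 f_mm_112_a t 1 1 1 = true :=
  ⟨(l 5), by decide +kernel⟩

theorem c_mm_112_a : CertN 536870912 536870912 0 536870912 67108864 67108864 3 false false false .dn 1 1 2
    ndN1q1 ndN1q2a pcN1 Cut.none Ext.none :=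
  certNK0 (fam := false) (s1 := false) (s2 := false) (a := 1) (b := 1) (c := 2) (cn := .dn) (n1 := ndN1q1) (n2 := ndN1q2a) (pc := pcN1) (cut := Cut.none) (xt := Ext.none) (P1 := 536870912) (W1 := 536870912) (P2 := 0) (W2 := 536870912) (P3 := 67108864) (W3 := 67108864) (N0 := 3)
    rfl rfl rfl k0_mm_112_a

noncomputable def f_mm_112_b : ℕ → ℕ → ℕ → ℕ → Bool := onCell 536870912 536870912 1239849684 370763052 67108864 67108864
    (rowNK 3 0 false false false .dn 1 1 2 (qsf 536870912 536870912 1239849684 370763052 1) ndN1q1 ndN1q2b pcN1 Cut.none Ext.none)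

def k0_mm_112_b : ∃ t, chk3 f_mm_112_b t 1 1 1 = true :=
  ⟨(l 5), by decide +kernel⟩

theorem c_mm_112_b : CertN 536870912 536870912 1239849684 370763052 67108864 67108864 3 false false false .dn 1 1 2
    ndN1q1 ndN1q2b pcN1 Cut.none Ext.none :=
  certNK0 (fam := false) (s1 := false) (s2 := false) (a := 1) (b := 1) (c := 2) (cn := .dn) (n1 := ndN1q1) (n2 := ndN1q2b) (pc := pcN1) (cut := Cut.none) (xt := Ext.none) (P1 := 536870912) (W1 := 536870912) (P2 := 1239849684) (W2 := 370763052) (P3 := 67108864) (W3 := 67108864) (N0 := 3)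
    rfl rfl rfl k0_mm_112_b

noncomputable def f_mm_113 : ℕ → ℕ → ℕ → ℕ → Bool := onCell 536870912 536870912 1610612736 536870912 67108864 67108864
    (rowNK 3 0 false false false .nn 1 1 3 (qsf 536870912 536870912 1610612736 536870912 1) ndN1q1 ndN1q3 pcN1 Cut.none Ext.none)

def k0_mm_113 : ∃ t, chk3 f_mm_113 t 1 1 1 = true :=
  ⟨(l 5), by decide +kernel⟩

theorem c_mm_113 : CertN 536870912 536870912 1610612736 536870912 67108864 67108864 3 false false false .nn 1 1 3
    ndN1q1 ndN1q3 pcN1 Cut.none Ext.none :=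
  certNK0 (fam := false) (s1 := false) (s2 := false) (a := 1) (b := 1) (c := 3) (cn := .nn) (n1 := ndN1q1) (n2 := ndN1q3) (pc := pcN1) (cut := Cut.none) (xt := Ext.none) (P1 := 536870912) (W1 := 536870912) (P2 := 1610612736) (W2 := 536870912) (P3 := 67108864) (W3 := 67108864) (N0 := 3)
    rfl rfl rfl k0_mm_113

noncomputable def f_mm_123 : ℕ → ℕ → ℕ → ℕ → Bool := onCell 536870912 536870912 1610612736 536870912 67108864 67108864
    (rowNK 3 0 false false false .npn 1 2 3 (qsf 536870912 536870912 1610612736 536870912 2) ndN1q1 ndN1q3 pcN2 Cut.none Ext.none)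

def k0_mm_123 : ∃ t, chk3 f_mm_123 t 1 1 1 = true :=
  ⟨(l 5), by decide +kernel⟩

theorem c_mm_123 : CertN 536870912 536870912 1610612736 536870912 67108864 67108864 3 false false false .npn 1 2 3
    ndN1q1 ndN1q3 pcN2 Cut.none Ext.none :=
  certNK0 (fam := false) (s1 := false) (s2 := false) (a := 1) (b := 2) (c := 3) (cn := .npn) (n1 := ndN1q1) (n2 := ndN1q3) (pc := pcN2) (cut := Cut.none) (xt := Ext.none) (P1 := 536870912) (W1 := 536870912) (P2 := 1610612736) (W2 := 536870912) (P3 := 67108864) (W3 := 67108864) (N0 := 3)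
    rfl rfl rfl k0_mm_123

noncomputable def f_mm_133 : ℕ → ℕ → ℕ → ℕ → Bool := onCell 536870912 536870912 1610612736 536870912 67108864 67108864
    (rowNK 3 0 false false false .dn 1 3 3 (qsf 536870912 536870912 1610612736 536870912 3) ndN1q1 ndN1q3 pcN3 Cut.none Ext.none)

def k0_mm_133 : ∃ t, chk3 f_mm_133 t 1 1 1 = true :=
  ⟨(l 5), by decide +kernel⟩

theorem c_mm_133 : CertN 536870912 536870912 1610612736 536870912 67108864 67108864 3 false false false .dn 1 3 3
    ndN1q1 ndN1q3 pcN3 Cut.none Ext.none :=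
  certNK0 (fam := false) (s1 := false) (s2 := false) (a := 1) (b := 3) (c := 3) (cn := .dn) (n1 := ndN1q1) (n2 := ndN1q3) (pc := pcN3) (cut := Cut.none) (xt := Ext.none) (P1 := 536870912) (W1 := 536870912) (P2 := 1610612736) (W2 := 536870912) (P3 := 67108864) (W3 := 67108864) (N0 := 3)
    rfl rfl rfl k0_mm_133

noncomputable def f_mm_202_aa : ℕ → ℕ → ℕ → ℕ → Bool := onCell 0 536870912 0 536870912 67108864 67108864
    (rowNK 3 0 false false false .pp 2 0 2 (qsf 0 536870912 0 536870912 0) ndN1q2a ndN1q2a pcN0 Cut.none Ext.none)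

def k0_mm_202_aa : ∃ t, chk3 f_mm_202_aa t 1 1 1 = true :=
  ⟨(l 3), by decide +kernel⟩

theorem c_mm_202_aa : CertN 0 536870912 0 536870912 67108864 67108864 3 false false false .pp 2 0 2
    ndN1q2a ndN1q2a pcN0 Cut.none Ext.none :=
  certNK0 (fam := false) (s1 := false) (s2 := false) (a := 2) (b := 0) (c := 2) (cn := .pp) (n1 := ndN1q2a) (n2 := ndN1q2a) (pc := pcN0) (cut := Cut.none) (xt := Ext.none) (P1 := 0) (W1 := 536870912) (P2 := 0) (W2 := 536870912) (P3 := 67108864) (W3 := 67108864) (N0 := 3)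
    rfl rfl rfl k0_mm_202_aa

noncomputable def f_mm_202_ab : ℕ → ℕ → ℕ → ℕ → Bool := onCell 0 536870912 1239849684 370763052 67108864 67108864
    (rowNK 3 0 false false false .pp 2 0 2 (qsf 0 536870912 1239849684 370763052 0) ndN1q2a ndN1q2b pcN0 Cut.none Ext.none)

def k0_mm_202_ab : ∃ t, chk3 f_mm_202_ab t 1 1 1 = true :=
  ⟨(l 3), by decide +kernel⟩

theorem c_mm_202_ab : CertN 0 536870912 1239849684 370763052 67108864 67108864 3 false false false .pp 2 0 2
    ndN1q2a ndN1q2b pcN0 Cut.none Ext.none :=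
  certNK0 (fam := false) (s1 := false) (s2 := false) (a := 2) (b := 0) (c := 2) (cn := .pp) (n1 := ndN1q2a) (n2 := ndN1q2b) (pc := pcN0) (cut := Cut.none) (xt := Ext.none) (P1 := 0) (W1 := 536870912) (P2 := 1239849684) (W2 := 370763052) (P3 := 67108864) (W3 := 67108864) (N0 := 3)
    rfl rfl rfl k0_mm_202_ab

noncomputable def f_mm_202_ba : ℕ → ℕ → ℕ → ℕ → Bool := onCell 1239849684 370763052 0 536870912 67108864 67108864
    (rowNK 3 0 false false false .pp 2 0 2 (qsf 1239849684 370763052 0 536870912 0) ndN1q2b ndN1q2a pcN0 Cut.none Ext.none)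

def k0_mm_202_ba : ∃ t, chk3 f_mm_202_ba t 1 1 1 = true :=
  ⟨(l 3), by decide +kernel⟩

theorem c_mm_202_ba : CertN 1239849684 370763052 0 536870912 67108864 67108864 3 false false false .pp 2 0 2
    ndN1q2b ndN1q2a pcN0 Cut.none Ext.none :=
  certNK0 (fam := false) (s1 := false) (s2 := false) (a := 2) (b := 0) (c := 2) (cn := .pp) (n1 := ndN1q2b) (n2 := ndN1q2a) (pc := pcN0) (cut := Cut.none) (xt := Ext.none) (P1 := 1239849684) (W1 := 370763052) (P2 := 0) (W2 := 536870912) (P3 := 67108864) (W3 := 67108864) (N0 := 3)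
    rfl rfl rfl k0_mm_202_ba

noncomputable def f_mm_202_bb : ℕ → ℕ → ℕ → ℕ → Bool := onCell 1239849684 370763052 1239849684 370763052 67108864 67108864
    (rowNK 3 0 false false false .pp 2 0 2 (qsf 1239849684 370763052 1239849684 370763052 0) ndN1q2b ndN1q2b pcN0 Cut.none Ext.none)

def k0_mm_202_bb : ∃ t, chk3 f_mm_202_bb t 1 1 1 = true :=
  ⟨(l 3), by decide +kernel⟩

theorem c_mm_202_bb : CertN 1239849684 370763052 1239849684 370763052 67108864 67108864 3 false false false .pp 2 0 2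
    ndN1q2b ndN1q2b pcN0 Cut.none Ext.none :=
  certNK0 (fam := false) (s1 := false) (s2 := false) (a := 2) (b := 0) (c := 2) (cn := .pp) (n1 := ndN1q2b) (n2 := ndN1q2b) (pc := pcN0) (cut := Cut.none) (xt := Ext.none) (P1 := 1239849684) (W1 := 370763052) (P2 := 1239849684) (W2 := 370763052) (P3 := 67108864) (W3 := 67108864) (N0 := 3)
    rfl rfl rfl k0_mm_202_bb

noncomputable def f_mm_203_a : ℕ → ℕ → ℕ → ℕ → Bool := onCell 0 536870912 1610612736 536870912 67108864 67108864
    (rowNK 3 0 false false false .up 2 0 3 (qsf 0 536870912 1610612736 536870912 0) ndN1q2a ndN1q3 pcN0 Cut.none Ext.none)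

def k0_mm_203_a : ∃ t, chk3 f_mm_203_a t 1 1 1 = true :=
  ⟨(l 5), by decide +kernel⟩

theorem c_mm_203_a : CertN 0 536870912 1610612736 536870912 67108864 67108864 3 false false false .up 2 0 3
    ndN1q2a ndN1q3 pcN0 Cut.none Ext.none :=
  certNK0 (fam := false) (s1 := false) (s2 := false) (a := 2) (b := 0) (c := 3) (cn := .up) (n1 := ndN1q2a) (n2 := ndN1q3) (pc := pcN0) (cut := Cut.none) (xt := Ext.none) (P1 := 0) (W1 := 536870912) (P2 := 1610612736) (W2 := 536870912) (P3 := 67108864) (W3 := 67108864) (N0 := 3)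
    rfl rfl rfl k0_mm_203_a

noncomputable def f_mm_203_b : ℕ → ℕ → ℕ → ℕ → Bool := onCell 1239849684 370763052 1610612736 536870912 67108864 67108864
    (rowNK 3 0 false false false .up 2 0 3 (qsf 1239849684 370763052 1610612736 536870912 0) ndN1q2b ndN1q3 pcN0 Cut.none Ext.none)

def k0_mm_203_b : ∃ t, chk3 f_mm_203_b t 1 1 1 = true :=
  ⟨(l 3), by decide +kernel⟩

theorem c_mm_203_b : CertN 1239849684 370763052 1610612736 536870912 67108864 67108864 3 false false false .up 2 0 3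
    ndN1q2b ndN1q3 pcN0 Cut.none Ext.none :=
  certNK0 (fam := false) (s1 := false) (s2 := false) (a := 2) (b := 0) (c := 3) (cn := .up) (n1 := ndN1q2b) (n2 := ndN1q3) (pc := pcN0) (cut := Cut.none) (xt := Ext.none) (P1 := 1239849684) (W1 := 370763052) (P2 := 1610612736) (W2 := 536870912) (P3 := 67108864) (W3 := 67108864) (N0 := 3)
    rfl rfl rfl k0_mm_203_b

noncomputable def f_mm_213_a : ℕ → ℕ → ℕ → ℕ → Bool := onCell 0 536870912 1610612736 536870912 67108864 67108864
    (rowNK 3 0 false false false .pnn 2 1 3 (qsf 0 536870912 1610612736 536870912 1) ndN1q2a ndN1q3 pcN1 Cut.none Ext.none)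

def k0_mm_213_a : ∃ t, chk3 f_mm_213_a t 1 1 1 = true :=
  ⟨(l 5), by decide +kernel⟩

theorem c_mm_213_a : CertN 0 536870912 1610612736 536870912 67108864 67108864 3 false false false .pnn 2 1 3
    ndN1q2a ndN1q3 pcN1 Cut.none Ext.none :=
  certNK0 (fam := false) (s1 := false) (s2 := false) (a := 2) (b := 1) (c := 3) (cn := .pnn) (n1 := ndN1q2a) (n2 := ndN1q3) (pc := pcN1) (cut := Cut.none) (xt := Ext.none) (P1 := 0) (W1 := 536870912) (P2 := 1610612736) (W2 := 536870912) (P3 := 67108864) (W3 := 67108864) (N0 := 3)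
    rfl rfl rfl k0_mm_213_a

noncomputable def f_mm_213_b : ℕ → ℕ → ℕ → ℕ → Bool := onCell 1239849684 370763052 1610612736 536870912 67108864 67108864
    (rowNK 3 0 false false false .pnn 2 1 3 (qsf 1239849684 370763052 1610612736 536870912 1) ndN1q2b ndN1q3 pcN1 Cut.none Ext.none)

def k0_mm_213_b : ∃ t, chk3 f_mm_213_b t 1 1 1 = true :=
  ⟨(l 3), by decide +kernel⟩

theorem c_mm_213_b : CertN 1239849684 370763052 1610612736 536870912 67108864 67108864 3 false false false .pnn 2 1 3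
    ndN1q2b ndN1q3 pcN1 Cut.none Ext.none :=
  certNK0 (fam := false) (s1 := false) (s2 := false) (a := 2) (b := 1) (c := 3) (cn := .pnn) (n1 := ndN1q2b) (n2 := ndN1q3) (pc := pcN1) (cut := Cut.none) (xt := Ext.none) (P1 := 1239849684) (W1 := 370763052) (P2 := 1610612736) (W2 := 536870912) (P3 := 67108864) (W3 := 67108864) (N0 := 3)
    rfl rfl rfl k0_mm_213_b

noncomputable def f_mm_303 : ℕ → ℕ → ℕ → ℕ → Bool := onCell 1610612736 536870912 1610612736 536870912 67108864 67108864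
    (rowNK 3 0 false false false .npn 3 0 3 (qsf 1610612736 536870912 1610612736 536870912 0) ndN1q3 ndN1q3 pcN0 Cut.none Ext.none)

def k0_mm_303 : ∃ t, chk3 f_mm_303 t 1 1 1 = true :=
  ⟨(l 3), by decide +kernel⟩

theorem c_mm_303 : CertN 1610612736 536870912 1610612736 536870912 67108864 67108864 3 false false false .npn 3 0 3
    ndN1q3 ndN1q3 pcN0 Cut.none Ext.none :=
  certNK0 (fam := false) (s1 := false) (s2 := false) (a := 3) (b := 0) (c := 3) (cn := .npn) (n1 := ndN1q3) (n2 := ndN1q3) (pc := pcN0) (cut := Cut.none) (xt := Ext.none) (P1 := 1610612736) (W1 := 536870912) (P2 := 1610612736) (W2 := 536870912) (P3 := 67108864) (W3 := 67108864) (N0 := 3)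
    rfl rfl rfl k0_mm_303

noncomputable def f_mm_313 : ℕ → ℕ → ℕ → ℕ → Bool := onCell 1610612736 536870912 1610612736 536870912 67108864 67108864
    (rowNK 3 0 false false false .dn 3 1 3 (qsf 1610612736 536870912 1610612736 536870912 1) ndN1q3 ndN1q3 pcN1 Cut.none Ext.none)

def k0_mm_313 : ∃ t, chk3 f_mm_313 t 1 1 1 = true :=
  ⟨(l 3), by decide +kernel⟩

theorem c_mm_313 : CertN 1610612736 536870912 1610612736 536870912 67108864 67108864 3 false false false .dn 3 1 3
    ndN1q3 ndN1q3 pcN1 Cut.none Ext.none :=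
  certNK0 (fam := false) (s1 := false) (s2 := false) (a := 3) (b := 1) (c := 3) (cn := .dn) (n1 := ndN1q3) (n2 := ndN1q3) (pc := pcN1) (cut := Cut.none) (xt := Ext.none) (P1 := 1610612736) (W1 := 536870912) (P2 := 1610612736) (W2 := 536870912) (P3 := 67108864) (W3 := 67108864) (N0 := 3)
    rfl rfl rfl k0_mm_313

end Pool.Agent.Strip051.G.I1_16_1_8.Tab.C.NB11

namespace Pool.Agent.Strip051.G.I1_16_1_8.Tab.C.NB12

open Pool.Agent.Strip051.PB Pool.Agent.Strip051.PB.T
open Pool.Agent.Strip051.G.I1_16_1_8.Tab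

noncomputable def f_pp_001 : ℕ → ℕ → ℕ → ℕ → Bool := onCell 0 536870912 0 536870912 67108864 67108864
    (rowNK 3 1 false true true .up 0 0 1 (qsf 0 536870912 536870912 536870912 0) ndN1q0 ndN2q1 pcN0 Cut.none Ext.none)

def k0_pp_001 : ∃ t, chk3 f_pp_001 t 1 1 1 = true :=
  ⟨(l 3), by decide +kernel⟩

theorem c_pp_001 : CertN 0 536870912 536870912 536870912 67108864 67108864 3 false true true .up 0 0 1
    ndN1q0 ndN2q1 pcN0 Cut.none Ext.none :=
  certNK1 (fam := false) (s1 := true) (s2 := true) (a := 0) (b := 0) (c := 1) (cn := .up) (n1 := ndN1q0) (n2 := ndN2q1) (pc := pcN0) (cut := Cut.none) (xt := Ext.none) (P1 := 0) (W1 := 536870912) (P2 := 536870912) (W2 := 536870912) (P3 := 67108864) (W3 := 67108864) (N0 := 3)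
    rfl rfl rfl (fun _ => rfl) k0_pp_001

noncomputable def cut_pp_011 : Cut := Cut.of [[⟨0, 0, 0, 67108864⟩, ⟨1, 1, 0, 67108864⟩, ⟨2, 1, 0, 67108864⟩]]

noncomputable def f_pp_011 : ℕ → ℕ → ℕ → ℕ → Bool := onCell 0 536870912 536870912 536870912 67108864 67108864
    (rowNK 3 1 false true true .pnn 0 1 1 (qsf 0 536870912 536870912 536870912 1) ndN1q0 ndN2q1 pcN1 cut_pp_011 Ext.none)

def k0_pp_011 : ∃ t, chk3 f_pp_011 t 1 1 1 = true :=
  ⟨(a (b (l 3) (a (b (l 3) (a (b (l 3) (a (b (l 3) (l 6)) (l 3))) (l 3))) (l 3))) (l 3)), by decide +kernel⟩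

theorem c_pp_011 : CertN 0 536870912 536870912 536870912 67108864 67108864 3 false true true .pnn 0 1 1
    ndN1q0 ndN2q1 pcN1 cut_pp_011 Ext.none :=
  certNK1 (fam := false) (s1 := true) (s2 := true) (a := 0) (b := 1) (c := 1) (cn := .pnn) (n1 := ndN1q0) (n2 := ndN2q1) (pc := pcN1) (cut := cut_pp_011) (xt := Ext.none) (P1 := 0) (W1 := 536870912) (P2 := 536870912) (W2 := 536870912) (P3 := 67108864) (W3 := 67108864) (N0 := 3)
    rfl rfl rfl (fun _ => rfl) k0_pp_011

noncomputable def cut_pp_012_a : Cut := Cut.of [[⟨0, 0, 0, 67108864⟩, ⟨1, 1, 0, 67108864⟩, ⟨2, 1, 0, 67108864⟩]]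

noncomputable def f_pp_012_a : ℕ → ℕ → ℕ → ℕ → Bool := onCell 536870912 536870912 0 536870912 67108864 67108864
    (rowNK 3 2 false true true .pnp 0 1 2 (qsf 0 536870912 0 536870912 1) ndN1q0 ndN2q2a pcN1 cut_pp_012_a Ext.none)

def k0_pp_012_a : ∃ t, chk3 f_pp_012_a t 1 1 1 = true :=
  ⟨(a (l 3) (a (b (b (l 17656568) (l 17656544)) (b (b (l 17623736) (l 3)) (l 3))) (b (a (l 17608184) (b (l 17520680) (l 17462544))) (b (a (b (l 17385960) (l 17324888)) (b (l 17432112) (a (l 17250240) (b (l 17199912) (l 17112072))))) (b (a (b (l 17279960) (l 17302160)) (b (a (l 17136848) (l 17051128)) (a (l 17121080) (a (l 17020568) (b (l 16976080) (l 16945760)))))) (a (l 3) (a (b (l 17037600) (l 3)) (b (a (l 16963296) (l 6)) (l 6))))))))), by decide +kernel⟩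

theorem c_pp_012_a : CertN 0 536870912 0 536870912 67108864 67108864 3 false true true .pnp 0 1 2
    ndN1q0 ndN2q2a pcN1 cut_pp_012_a Ext.none :=
  certNK2 (fam := false) (s1 := true) (s2 := true) (a := 0) (b := 1) (c := 2) (cn := .pnp) (n1 := ndN1q0) (n2 := ndN2q2a) (pc := pcN1) (cut := cut_pp_012_a) (xt := Ext.none) (P1 := 0) (W1 := 536870912) (P2 := 0) (W2 := 536870912) (P3 := 67108864) (W3 := 67108864) (N0 := 3)
    rfl rfl rfl (fun _ => rfl) k0_pp_012_a

noncomputable def cut_pp_012_b : Cut := Cut.of [[⟨0, 0, 0, 67108864⟩, ⟨1, 1, 0, 67108864⟩, ⟨2, 1, 0, 67108864⟩]]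

noncomputable def f_pp_012_b : ℕ → ℕ → ℕ → ℕ → Bool := onCell 536870912 536870912 1239849684 370763052 67108864 67108864
    (rowNK 3 2 false true true .pnp 0 1 2 (qsf 0 536870912 1239849684 370763052 1) ndN1q0 ndN2q2b pcN1 cut_pp_012_b Ext.none)

def k0_pp_012_b : ∃ t, chk3 f_pp_012_b t 1 1 1 = true :=
  ⟨(b (a (l 3) (a (b (l 17597240) (l 17492856)) (a (l 17574592) (b (l 17614696) (l 17716664))))) (a (l 2) (a (l 17299896) (l 17602880)))), by decide +kernel⟩

theorem c_pp_012_b : CertN 0 536870912 1239849684 370763052 67108864 67108864 3 false true true .pnp 0 1 2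
    ndN1q0 ndN2q2b pcN1 cut_pp_012_b Ext.none :=
  certNK2 (fam := false) (s1 := true) (s2 := true) (a := 0) (b := 1) (c := 2) (cn := .pnp) (n1 := ndN1q0) (n2 := ndN2q2b) (pc := pcN1) (cut := cut_pp_012_b) (xt := Ext.none) (P1 := 0) (W1 := 536870912) (P2 := 1239849684) (W2 := 370763052) (P3 := 67108864) (W3 := 67108864) (N0 := 3)
    rfl rfl rfl (fun _ => rfl) k0_pp_012_b

noncomputable def cut_pp_022_a : Cut := Cut.of [[⟨0, 0, 0, 67108864⟩, ⟨1, 1, 0, 67108864⟩, ⟨2, 1, 0, 67108864⟩]]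

noncomputable def f_pp_022_a : ℕ → ℕ → ℕ → ℕ → Bool := onCell 0 536870912 0 536870912 67108864 67108864
    (rowNK 3 0 false true true .pp 0 2 2 (qsf 0 536870912 0 536870912 2) ndN1q0 ndN2q2a pcN2 cut_pp_022_a Ext.none)

def k0_pp_022_a : ∃ t, chk3 f_pp_022_a t 2 2 1 = true :=
  ⟨(a (b (a (a (a (b (l 18079136) (l 17778872)) (l 17927976)) (l 17791008)) (a (l 17666272) (a (l 17646488) (b (l 17679720) (l 17651800))))) (b (a (a (a (c (l 18298120) (b (l 17468032) (l 17280680))) (l 17749760)) (l 17629760)) (a (a (l 17564680) (l 17550520)) (a (l 17598912) (l 17596096)))) (a (a (a (c (b (l 18147088) (l 18000392)) (a (b (l 17204296) (l 16821344)) (l 17063472))) (l 17488800)) (a (l 17421736) (l 17381032))) (a (a (l 17369600) (b (l 17441472) (l 17330200))) (l 17479096))))) (b (l 17857656) (a (l 17743736) (l 1)))), by decide +kernel⟩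

def k1_pp_022_a : ∃ t, chk3 f_pp_022_a t 2 3 1 = true :=
  ⟨(a (b (a (b (a (a (a (b (c (l 17770720) (a (l 16707160) (l 16692664))) (b (c (l 17595280) (l 16595448)) (l 16663824))) (b (l 17225344) (l 16902256))) (b (l 17176256) (l 16874696))) (a (b (l 17137448) (l 16868912)) (a (l 17012960) (l 17069424)))) (a (a (b (a (a (b (l 16622456) (l 16629176)) (l 16657720)) (l 16705288)) (a (a (a (b (l 16642640) (l 16654680)) (l 16686880)) (b (l 16639432) (l 16656296))) (a (l 16725496) (l 16726296)))) (b (b (l 16702968) (l 16778296)) (a (l 16815288) (l 16864584)))) (b (a (a (l 16780480) (l 16844880)) (a (b (l 16849872) (l 16869768)) (l 16907968))) (a (a (l 16965920) (l 16842952)) (l 16911480))))) (b (b (a (a (l 17161328) (l 17245208)) (l 17393544)) (l 17195784)) (a (b (l 17025840) (l 17051800)) (l 209414479095)))) (b (a (a (b (b (a (a (a (a (l 16673272) (l 16683016)) (l 16694128)) (l 16743608)) (a (l 16790488) (b (l 16770720) (l 16783960)))) (b (a (b (a (a (l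 16670752) (l 16657248)) (l 16689456)) (l 6)) (a (l 16764048) (l 16792360))) (l 6))) (l 6)) (b (a (l 16848496) (l 16938552)) (a (l 6) (b (l 16966984) (l 16984136))))) (b (a (l 191160454231) (l 1)) (l 1))) (a (a (l 6) (a (l 6) (l 1))) (l 1)))) (b (l 1) (l 1))), by decide +kernel⟩

def k2_pp_022_a : ∃ t, chk3 f_pp_022_a t 3 1 1 = true :=
  ⟨(l 1), by decide +kernel⟩

theorem s3_pp_022_a : ∃ t, chk3 f_pp_022_a t 2 1 1 = true := ex3_b k0_pp_022_a k1_pp_022_a

theorem s4_pp_022_a : ∃ t, chk3 f_pp_022_a t 1 1 1 = true := ex3_a s3_pp_022_a k2_pp_022_a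

theorem c_pp_022_a : CertN 0 536870912 0 536870912 67108864 67108864 3 false true true .pp 0 2 2
    ndN1q0 ndN2q2a pcN2 cut_pp_022_a Ext.none :=
  certNK0 (fam := false) (s1 := true) (s2 := true) (a := 0) (b := 2) (c := 2) (cn := .pp) (n1 := ndN1q0) (n2 := ndN2q2a) (pc := pcN2) (cut := cut_pp_022_a) (xt := Ext.none) (P1 := 0) (W1 := 536870912) (P2 := 0) (W2 := 536870912) (P3 := 67108864) (W3 := 67108864) (N0 := 3)
    rfl rfl rfl s4_pp_022_a

noncomputable def cut_pp_022_b : Cut := Cut.of [[⟨0, 0, 0, 67108864⟩, ⟨1, 1, 0, 67108864⟩, ⟨2, 1, 0, 67108864⟩]]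

noncomputable def f_pp_022_b : ℕ → ℕ → ℕ → ℕ → Bool := onCell 1073741824 536870912 1239849684 370763052 67108864 67108864
    (rowNK 3 2 false true true .pp 0 2 2 (qsf 0 536870912 1239849684 370763052 2) ndN1q0 ndN2q2b pcN2 cut_pp_022_b Ext.none)

def k0_pp_022_b : ∃ t, chk3 f_pp_022_b t 1 1 1 = true :=
  ⟨(a (b (a (a (a (b (l 17850536) (l 17948392)) (b (a (l 17863120) (l 17887960)) (l 17957888))) (b (a (l 17927952) (b (l 17971392) (l 18075752))) (l 18015280))) (b (b (a (a (b (a (l 18053800) (l 18161368)) (l 18177304)) (a (b (l 499863359799) (l 18328088)) (l 508453557351))) (a (l 519191247671) (l 1))) (a (l 18278960) (b (l 256661590839) (l 18608928)))) (a (l 18200160) (l 18427448)))) (a (a (a (l 17920176) (l 17903240)) (l 17903736)) (a (l 17961824) (l 18034640)))) (b (a (b (l 1) (a (b (l 558383833607) (l 18617000)) (b (l 1) (l 591133051607)))) (l 1)) (a (b (l 18453712) (l 18117664)) (b (a (l 604017387351) (l 1)) (l 18465704))))), by decide +kernel⟩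

theorem c_pp_022_b : CertN 0 536870912 1239849684 370763052 67108864 67108864 3 false true true .pp 0 2 2
    ndN1q0 ndN2q2b pcN2 cut_pp_022_b Ext.none :=
  certNK2 (fam := false) (s1 := true) (s2 := true) (a := 0) (b := 2) (c := 2) (cn := .pp) (n1 := ndN1q0) (n2 := ndN2q2b) (pc := pcN2) (cut := cut_pp_022_b) (xt := Ext.none) (P1 := 0) (W1 := 536870912) (P2 := 1239849684) (W2 := 370763052) (P3 := 67108864) (W3 := 67108864) (N0 := 3)
    rfl rfl rfl (fun _ => rfl) k0_pp_022_b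

noncomputable def f_pp_023 : ℕ → ℕ → ℕ → ℕ → Bool := onCell 0 536870912 1073741824 536870912 67108864 67108864
    (rowNK 3 1 false true true .up 0 2 3 (qsf 0 536870912 1610612736 536870912 2) ndN1q0 ndN2q3 pcN2 Cut.none Ext.none)

def k0_pp_023 : ∃ t, chk3 f_pp_023 t 1 1 1 = true :=
  ⟨(a (b (b (l 1) (a (l 1) (l 444029797207))) (a (b (l 571806383079) (l 568048655079)) (b (l 18577896) (l 18471584)))) (b (b (b (b (l 18982568) (l 352225265879)) (l 393564100071)) (a (l 18444264) (l 18089416))) (b (a (l 17930648) (l 17485672)) (a (l 17785080) (l 17397160))))), by decide +kernel⟩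

theorem c_pp_023 : CertN 0 536870912 1610612736 536870912 67108864 67108864 3 false true true .up 0 2 3
    ndN1q0 ndN2q3 pcN2 Cut.none Ext.none :=
  certNK1 (fam := false) (s1 := true) (s2 := true) (a := 0) (b := 2) (c := 3) (cn := .up) (n1 := ndN1q0) (n2 := ndN2q3) (pc := pcN2) (cut := Cut.none) (xt := Ext.none) (P1 := 0) (W1 := 536870912) (P2 := 1610612736) (W2 := 536870912) (P3 := 67108864) (W3 := 67108864) (N0 := 3)
    rfl rfl rfl (fun _ => rfl) k0_pp_023

noncomputable def f_pp_033 : ℕ → ℕ → ℕ → ℕ → Bool := onCell 0 536870912 1610612736 536870912 67108864 67108864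
    (rowNK 3 1 false true true .pnn 0 3 3 (qsf 0 536870912 1610612736 536870912 3) ndN1q0 ndN2q3 pcN3 Cut.none Ext.none)

def k0_pp_033 : ∃ t, chk3 f_pp_033 t 1 1 1 = true :=
  ⟨(a (b (b (a (b (a (a (l 18903208) (l 18346312)) (l 17855576)) (a (l 18471512) (l 18014992))) (b (l 17379464) (l 17601328))) (a (b (l 18327264) (l 18422872)) (b (l 17694016) (l 17288824)))) (a (b (b (l 17939944) (l 4)) (l 4)) (b (b (l 4) (l 4)) (a (b (l 4) (l 2)) (l 2))))) (b (a (b (b (l 17165104) (l 17282832)) (b (a (l 17341744) (l 4)) (l 4))) (b (b (l 17113112) (a (l 4) (l 4))) (a (b (l 4) (l 2)) (l 2)))) (a (b (a (b (l 4) (l 2)) (l 2)) (l 2)) (l 2)))), by decide +kernel⟩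

theorem c_pp_033 : CertN 0 536870912 1610612736 536870912 67108864 67108864 3 false true true .pnn 0 3 3
    ndN1q0 ndN2q3 pcN3 Cut.none Ext.none :=
  certNK1 (fam := false) (s1 := true) (s2 := true) (a := 0) (b := 3) (c := 3) (cn := .pnn) (n1 := ndN1q0) (n2 := ndN2q3) (pc := pcN3) (cut := Cut.none) (xt := Ext.none) (P1 := 0) (W1 := 536870912) (P2 := 1610612736) (W2 := 536870912) (P3 := 67108864) (W3 := 67108864) (N0 := 3)
    rfl rfl rfl (fun _ => rfl) k0_pp_033

noncomputable def f_pp_101 : ℕ → ℕ → ℕ → ℕ → Bool := onCell 536870912 536870912 536870912 536870912 67108864 67108864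
    (rowNK 3 0 false true true .npn 1 0 1 (qsf 536870912 536870912 536870912 536870912 0) ndN1q1 ndN2q1 pcN0 Cut.none Ext.none)

def k0_pp_101 : ∃ t, chk3 f_pp_101 t 1 1 1 = true :=
  ⟨(l 3), by decide +kernel⟩

theorem c_pp_101 : CertN 536870912 536870912 536870912 536870912 67108864 67108864 3 false true true .npn 1 0 1
    ndN1q1 ndN2q1 pcN0 Cut.none Ext.none :=
  certNK0 (fam := false) (s1 := true) (s2 := true) (a := 1) (b := 0) (c := 1) (cn := .npn) (n1 := ndN1q1) (n2 := ndN2q1) (pc := pcN0) (cut := Cut.none) (xt := Ext.none) (P1 := 536870912) (W1 := 536870912) (P2 := 536870912) (W2 := 536870912) (P3 := 67108864) (W3 := 67108864) (N0 := 3)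
    rfl rfl rfl k0_pp_101

noncomputable def f_pp_102_a : ℕ → ℕ → ℕ → ℕ → Bool := onCell 536870912 536870912 0 536870912 67108864 67108864
    (rowNK 3 0 false true true .npp 1 0 2 (qsf 536870912 536870912 0 536870912 0) ndN1q1 ndN2q2a pcN0 Cut.none Ext.none)

def k0_pp_102_a : ∃ t, chk3 f_pp_102_a t 1 1 1 = true :=
  ⟨(l 3), by decide +kernel⟩

theorem c_pp_102_a : CertN 536870912 536870912 0 536870912 67108864 67108864 3 false true true .npp 1 0 2
    ndN1q1 ndN2q2a pcN0 Cut.none Ext.none :=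
  certNK0 (fam := false) (s1 := true) (s2 := true) (a := 1) (b := 0) (c := 2) (cn := .npp) (n1 := ndN1q1) (n2 := ndN2q2a) (pc := pcN0) (cut := Cut.none) (xt := Ext.none) (P1 := 536870912) (W1 := 536870912) (P2 := 0) (W2 := 536870912) (P3 := 67108864) (W3 := 67108864) (N0 := 3)
    rfl rfl rfl k0_pp_102_a

noncomputable def f_pp_102_b : ℕ → ℕ → ℕ → ℕ → Bool := onCell 536870912 536870912 0 536870912 67108864 67108864
    (rowNK 3 1 false true true .npp 1 0 2 (qsf 536870912 536870912 1239849684 370763052 0) ndN1q1 ndN2q2b pcN0 Cut.none Ext.none)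

def k0_pp_102_b : ∃ t, chk3 f_pp_102_b t 1 1 1 = true :=
  ⟨(l 3), by decide +kernel⟩

theorem c_pp_102_b : CertN 536870912 536870912 1239849684 370763052 67108864 67108864 3 false true true .npp 1 0 2
    ndN1q1 ndN2q2b pcN0 Cut.none Ext.none :=
  certNK1 (fam := false) (s1 := true) (s2 := true) (a := 1) (b := 0) (c := 2) (cn := .npp) (n1 := ndN1q1) (n2 := ndN2q2b) (pc := pcN0) (cut := Cut.none) (xt := Ext.none) (P1 := 536870912) (W1 := 536870912) (P2 := 1239849684) (W2 := 370763052) (P3 := 67108864) (W3 := 67108864) (N0 := 3)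
    rfl rfl rfl (fun _ => rfl) k0_pp_102_b

noncomputable def f_pp_112_a : ℕ → ℕ → ℕ → ℕ → Bool := onCell 536870912 536870912 0 536870912 67108864 67108864
    (rowNK 3 0 false true true .dn 1 1 2 (qsf 536870912 536870912 0 536870912 1) ndN1q1 ndN2q2a pcN1 Cut.none Ext.none)

def k0_pp_112_a : ∃ t, chk3 f_pp_112_a t 1 1 1 = true :=
  ⟨(l 3), by decide +kernel⟩

theorem c_pp_112_a : CertN 536870912 536870912 0 536870912 67108864 67108864 3 false true true .dn 1 1 2
    ndN1q1 ndN2q2a pcN1 Cut.none Ext.none :=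
  certNK0 (fam := false) (s1 := true) (s2 := true) (a := 1) (b := 1) (c := 2) (cn := .dn) (n1 := ndN1q1) (n2 := ndN2q2a) (pc := pcN1) (cut := Cut.none) (xt := Ext.none) (P1 := 536870912) (W1 := 536870912) (P2 := 0) (W2 := 536870912) (P3 := 67108864) (W3 := 67108864) (N0 := 3)
    rfl rfl rfl k0_pp_112_a

noncomputable def f_pp_112_b : ℕ → ℕ → ℕ → ℕ → Bool := onCell 536870912 536870912 1239849684 370763052 67108864 67108864
    (rowNK 3 2 false true true .dn 1 1 2 (qsf 536870912 536870912 1239849684 370763052 1) ndN1q1 ndN2q2b pcN1 Cut.none Ext.none)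

def k0_pp_112_b : ∃ t, chk3 f_pp_112_b t 1 1 1 = true :=
  ⟨(a (a (l 3) (b (l 3) (l 753935782775))) (a (b (b (l 1) (l 17301616)) (l 17613072)) (b (l 1) (l 18223544)))), by decide +kernel⟩

theorem c_pp_112_b : CertN 536870912 536870912 1239849684 370763052 67108864 67108864 3 false true true .dn 1 1 2
    ndN1q1 ndN2q2b pcN1 Cut.none Ext.none :=
  certNK2 (fam := false) (s1 := true) (s2 := true) (a := 1) (b := 1) (c := 2) (cn := .dn) (n1 := ndN1q1) (n2 := ndN2q2b) (pc := pcN1) (cut := Cut.none) (xt := Ext.none) (P1 := 536870912) (W1 := 536870912) (P2 := 1239849684) (W2 := 370763052) (P3 := 67108864) (W3 := 67108864) (N0 := 3)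
    rfl rfl rfl (fun _ => rfl) k0_pp_112_b

noncomputable def f_pp_113 : ℕ → ℕ → ℕ → ℕ → Bool := onCell 536870912 536870912 536870912 536870912 67108864 67108864
    (rowNK 3 1 false true true .nn 1 1 3 (qsf 536870912 536870912 1610612736 536870912 1) ndN1q1 ndN2q3 pcN1 Cut.none Ext.none)

def k0_pp_113 : ∃ t, chk3 f_pp_113 t 1 1 1 = true :=
  ⟨(b (b (l 3) (a (a (l 1) (l 391415682023)) (a (l 269144015063) (l 253575280647)))) (a (b (a (l 17877592) (l 18089912)) (a (l 352222937447) (b (l 17485824) (l 17269248)))) (a (b (b (l 18106720) (l 17761616)) (b (l 17341216) (l 17290280))) (b (b (l 18238696) (l 17824240)) (b (l 17345744) (b (l 16957640) (l 17127752))))))), by decide +kernel⟩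

theorem c_pp_113 : CertN 536870912 536870912 1610612736 536870912 67108864 67108864 3 false true true .nn 1 1 3
    ndN1q1 ndN2q3 pcN1 Cut.none Ext.none :=
  certNK1 (fam := false) (s1 := true) (s2 := true) (a := 1) (b := 1) (c := 3) (cn := .nn) (n1 := ndN1q1) (n2 := ndN2q3) (pc := pcN1) (cut := Cut.none) (xt := Ext.none) (P1 := 536870912) (W1 := 536870912) (P2 := 1610612736) (W2 := 536870912) (P3 := 67108864) (W3 := 67108864) (N0 := 3)
    rfl rfl rfl (fun _ => rfl) k0_pp_113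

noncomputable def f_pp_123 : ℕ → ℕ → ℕ → ℕ → Bool := onCell 1073741824 536870912 1610612736 536870912 67108864 67108864
    (rowNK 3 2 false true true .npn 1 2 3 (qsf 536870912 536870912 1610612736 536870912 2) ndN1q1 ndN2q3 pcN2 Cut.none Ext.none)

def k0_pp_123 : ∃ t, chk3 f_pp_123 t 1 1 1 = true :=
  ⟨(a (b (a (a (a (l 17687304) (l 17814008)) (l 18149472)) (b (l 18219720) (l 18253344))) (a (b (l 17954832) (l 17706720)) (b (l 18338880) (l 18207392)))) (b (b (l 1) (l 18541592)) (a (l 18538568) (l 18487168)))), by decide +kernel⟩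

theorem c_pp_123 : CertN 536870912 536870912 1610612736 536870912 67108864 67108864 3 false true true .npn 1 2 3
    ndN1q1 ndN2q3 pcN2 Cut.none Ext.none :=
  certNK2 (fam := false) (s1 := true) (s2 := true) (a := 1) (b := 2) (c := 3) (cn := .npn) (n1 := ndN1q1) (n2 := ndN2q3) (pc := pcN2) (cut := Cut.none) (xt := Ext.none) (P1 := 536870912) (W1 := 536870912) (P2 := 1610612736) (W2 := 536870912) (P3 := 67108864) (W3 := 67108864) (N0 := 3)
    rfl rfl rfl (fun _ => rfl) k0_pp_123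

noncomputable def f_pp_133 : ℕ → ℕ → ℕ → ℕ → Bool := onCell 1610612736 536870912 1610612736 536870912 67108864 67108864
    (rowNK 3 2 false true true .dn 1 3 3 (qsf 536870912 536870912 1610612736 536870912 3) ndN1q1 ndN2q3 pcN3 Cut.none Ext.none)

def k0_pp_133 : ∃ t, chk3 f_pp_133 t 1 1 1 = true :=
  ⟨(a (b (l 1) (a (b (l 1) (l 18105704)) (l 1))) (l 1)), by decide +kernel⟩

theorem c_pp_133 : CertN 536870912 536870912 1610612736 536870912 67108864 67108864 3 false true true .dn 1 3 3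
    ndN1q1 ndN2q3 pcN3 Cut.none Ext.none :=
  certNK2 (fam := false) (s1 := true) (s2 := true) (a := 1) (b := 3) (c := 3) (cn := .dn) (n1 := ndN1q1) (n2 := ndN2q3) (pc := pcN3) (cut := Cut.none) (xt := Ext.none) (P1 := 536870912) (W1 := 536870912) (P2 := 1610612736) (W2 := 536870912) (P3 := 67108864) (W3 := 67108864) (N0 := 3)
    rfl rfl rfl (fun _ => rfl) k0_pp_133

noncomputable def f_pp_202_aa : ℕ → ℕ → ℕ → ℕ → Bool := onCell 0 536870912 0 536870912 67108864 67108864
    (rowNK 3 0 false true true .pp 2 0 2 (qsf 0 536870912 0 536870912 0) ndN1q2a ndN2q2a pcN0 Cut.none Ext.none)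

def k0_pp_202_aa : ∃ t, chk3 f_pp_202_aa t 1 1 1 = true :=
  ⟨(l 3), by decide +kernel⟩

theorem c_pp_202_aa : CertN 0 536870912 0 536870912 67108864 67108864 3 false true true .pp 2 0 2
    ndN1q2a ndN2q2a pcN0 Cut.none Ext.none :=
  certNK0 (fam := false) (s1 := true) (s2 := true) (a := 2) (b := 0) (c := 2) (cn := .pp) (n1 := ndN1q2a) (n2 := ndN2q2a) (pc := pcN0) (cut := Cut.none) (xt := Ext.none) (P1 := 0) (W1 := 536870912) (P2 := 0) (W2 := 536870912) (P3 := 67108864) (W3 := 67108864) (N0 := 3)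
    rfl rfl rfl k0_pp_202_aa

noncomputable def f_pp_202_ab : ℕ → ℕ → ℕ → ℕ → Bool := onCell 0 536870912 1239849684 370763052 67108864 67108864
    (rowNK 3 0 false true true .pp 2 0 2 (qsf 0 536870912 1239849684 370763052 0) ndN1q2a ndN2q2b pcN0 Cut.none Ext.none)

def k0_pp_202_ab : ∃ t, chk3 f_pp_202_ab t 1 1 1 = true :=
  ⟨(l 3), by decide +kernel⟩

theorem c_pp_202_ab : CertN 0 536870912 1239849684 370763052 67108864 67108864 3 false true true .pp 2 0 2
    ndN1q2a ndN2q2b pcN0 Cut.none Ext.none :=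
  certNK0 (fam := false) (s1 := true) (s2 := true) (a := 2) (b := 0) (c := 2) (cn := .pp) (n1 := ndN1q2a) (n2 := ndN2q2b) (pc := pcN0) (cut := Cut.none) (xt := Ext.none) (P1 := 0) (W1 := 536870912) (P2 := 1239849684) (W2 := 370763052) (P3 := 67108864) (W3 := 67108864) (N0 := 3)
    rfl rfl rfl k0_pp_202_ab

noncomputable def f_pp_202_ba : ℕ → ℕ → ℕ → ℕ → Bool := onCell 1239849684 370763052 0 536870912 67108864 67108864
    (rowNK 3 0 false true true .pp 2 0 2 (qsf 1239849684 370763052 0 536870912 0) ndN1q2b ndN2q2a pcN0 Cut.none Ext.none)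

def k0_pp_202_ba : ∃ t, chk3 f_pp_202_ba t 1 1 1 = true :=
  ⟨(l 3), by decide +kernel⟩

theorem c_pp_202_ba : CertN 1239849684 370763052 0 536870912 67108864 67108864 3 false true true .pp 2 0 2
    ndN1q2b ndN2q2a pcN0 Cut.none Ext.none :=
  certNK0 (fam := false) (s1 := true) (s2 := true) (a := 2) (b := 0) (c := 2) (cn := .pp) (n1 := ndN1q2b) (n2 := ndN2q2a) (pc := pcN0) (cut := Cut.none) (xt := Ext.none) (P1 := 1239849684) (W1 := 370763052) (P2 := 0) (W2 := 536870912) (P3 := 67108864) (W3 := 67108864) (N0 := 3)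
    rfl rfl rfl k0_pp_202_ba

noncomputable def f_pp_202_bb : ℕ → ℕ → ℕ → ℕ → Bool := onCell 1239849684 370763052 1239849684 370763052 67108864 67108864
    (rowNK 3 0 false true true .pp 2 0 2 (qsf 1239849684 370763052 1239849684 370763052 0) ndN1q2b ndN2q2b pcN0 Cut.none Ext.none)

def k0_pp_202_bb : ∃ t, chk3 f_pp_202_bb t 1 1 1 = true :=
  ⟨(l 3), by decide +kernel⟩

theorem c_pp_202_bb : CertN 1239849684 370763052 1239849684 370763052 67108864 67108864 3 false true true .pp 2 0 2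
    ndN1q2b ndN2q2b pcN0 Cut.none Ext.none :=
  certNK0 (fam := false) (s1 := true) (s2 := true) (a := 2) (b := 0) (c := 2) (cn := .pp) (n1 := ndN1q2b) (n2 := ndN2q2b) (pc := pcN0) (cut := Cut.none) (xt := Ext.none) (P1 := 1239849684) (W1 := 370763052) (P2 := 1239849684) (W2 := 370763052) (P3 := 67108864) (W3 := 67108864) (N0 := 3)
    rfl rfl rfl k0_pp_202_bb

noncomputable def f_pp_203_a : ℕ → ℕ → ℕ → ℕ → Bool := onCell 0 536870912 0 536870912 67108864 67108864
    (rowNK 3 1 false true true .up 2 0 3 (qsf 0 536870912 1610612736 536870912 0) ndN1q2a ndN2q3 pcN0 Cut.none Ext.none)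

def k0_pp_203_a : ∃ t, chk3 f_pp_203_a t 1 1 1 = true :=
  ⟨(l 3), by decide +kernel⟩

theorem c_pp_203_a : CertN 0 536870912 1610612736 536870912 67108864 67108864 3 false true true .up 2 0 3
    ndN1q2a ndN2q3 pcN0 Cut.none Ext.none :=
  certNK1 (fam := false) (s1 := true) (s2 := true) (a := 2) (b := 0) (c := 3) (cn := .up) (n1 := ndN1q2a) (n2 := ndN2q3) (pc := pcN0) (cut := Cut.none) (xt := Ext.none) (P1 := 0) (W1 := 536870912) (P2 := 1610612736) (W2 := 536870912) (P3 := 67108864) (W3 := 67108864) (N0 := 3)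
    rfl rfl rfl (fun _ => rfl) k0_pp_203_a

noncomputable def f_pp_203_b : ℕ → ℕ → ℕ → ℕ → Bool := onCell 1239849684 370763052 1610612736 536870912 67108864 67108864
    (rowNK 3 0 false true true .up 2 0 3 (qsf 1239849684 370763052 1610612736 536870912 0) ndN1q2b ndN2q3 pcN0 Cut.none Ext.none)

def k0_pp_203_b : ∃ t, chk3 f_pp_203_b t 1 1 1 = true :=
  ⟨(l 3), by decide +kernel⟩

theorem c_pp_203_b : CertN 1239849684 370763052 1610612736 536870912 67108864 67108864 3 false true true .up 2 0 3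
    ndN1q2b ndN2q3 pcN0 Cut.none Ext.none :=
  certNK0 (fam := false) (s1 := true) (s2 := true) (a := 2) (b := 0) (c := 3) (cn := .up) (n1 := ndN1q2b) (n2 := ndN2q3) (pc := pcN0) (cut := Cut.none) (xt := Ext.none) (P1 := 1239849684) (W1 := 370763052) (P2 := 1610612736) (W2 := 536870912) (P3 := 67108864) (W3 := 67108864) (N0 := 3)
    rfl rfl rfl k0_pp_203_b

noncomputable def cut_pp_213_a : Cut := Cut.of [[⟨0, 1, 0, 21338704⟩, ⟨1, 1, 0, 21338704⟩, ⟨2, 2, 0, 1685920⟩]]

noncomputable def f_pp_213_a : ℕ → ℕ → ℕ → ℕ → Bool := onCell 0 536870912 1610612736 536870912 67108864 67108864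
    (rowNK 3 0 false true true .pnn 2 1 3 (qsf 0 536870912 1610612736 536870912 1) ndN1q2a ndN2q3 pcN1 cut_pp_213_a Ext.none)

def k0_pp_213_a : ∃ t, chk3 f_pp_213_a t 1 1 1 = true :=
  ⟨(b (l 3) (b (l 3) (a (l 3) (a (l 3) (b (l 3) (b (l 3) (a (l 3) (b (l 3) (a (l 3) (b (l 3) (a (l 3) (b (l 3) (b (l 3) (b (l 3) (l 6))))))))))))))), by decide +kernel⟩

theorem c_pp_213_a : CertN 0 536870912 1610612736 536870912 67108864 67108864 3 false true true .pnn 2 1 3
    ndN1q2a ndN2q3 pcN1 cut_pp_213_a Ext.none :=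
  certNK0 (fam := false) (s1 := true) (s2 := true) (a := 2) (b := 1) (c := 3) (cn := .pnn) (n1 := ndN1q2a) (n2 := ndN2q3) (pc := pcN1) (cut := cut_pp_213_a) (xt := Ext.none) (P1 := 0) (W1 := 536870912) (P2 := 1610612736) (W2 := 536870912) (P3 := 67108864) (W3 := 67108864) (N0 := 3)
    rfl rfl rfl k0_pp_213_a

noncomputable def cut_pp_213_b : Cut := Cut.of [[⟨0, 1, 0, 21338704⟩, ⟨1, 1, 0, 21338704⟩, ⟨2, 2, 0, 1685920⟩]]

noncomputable def f_pp_213_b : ℕ → ℕ → ℕ → ℕ → Bool := onCell 1239849684 370763052 1610612736 536870912 67108864 67108864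
    (rowNK 3 0 false true true .pnn 2 1 3 (qsf 1239849684 370763052 1610612736 536870912 1) ndN1q2b ndN2q3 pcN1 cut_pp_213_b Ext.none)

def k0_pp_213_b : ∃ t, chk3 f_pp_213_b t 1 1 1 = true :=
  ⟨(l 3), by decide +kernel⟩

theorem c_pp_213_b : CertN 1239849684 370763052 1610612736 536870912 67108864 67108864 3 false true true .pnn 2 1 3
    ndN1q2b ndN2q3 pcN1 cut_pp_213_b Ext.none :=
  certNK0 (fam := false) (s1 := true) (s2 := true) (a := 2) (b := 1) (c := 3) (cn := .pnn) (n1 := ndN1q2b) (n2 := ndN2q3) (pc := pcN1) (cut := cut_pp_213_b) (xt := Ext.none) (P1 := 1239849684) (W1 := 370763052) (P2 := 1610612736) (W2 := 536870912) (P3 := 67108864) (W3 := 67108864) (N0 := 3)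
    rfl rfl rfl k0_pp_213_b

noncomputable def f_pp_303 : ℕ → ℕ → ℕ → ℕ → Bool := onCell 1610612736 536870912 1610612736 536870912 67108864 67108864
    (rowNK 3 0 false true true .npn 3 0 3 (qsf 1610612736 536870912 1610612736 536870912 0) ndN1q3 ndN2q3 pcN0 Cut.none Ext.none)

def k0_pp_303 : ∃ t, chk3 f_pp_303 t 1 1 1 = true :=
  ⟨(l 3), by decide +kernel⟩

theorem c_pp_303 : CertN 1610612736 536870912 1610612736 536870912 67108864 67108864 3 false true true .npn 3 0 3
    ndN1q3 ndN2q3 pcN0 Cut.none Ext.none :=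
  certNK0 (fam := false) (s1 := true) (s2 := true) (a := 3) (b := 0) (c := 3) (cn := .npn) (n1 := ndN1q3) (n2 := ndN2q3) (pc := pcN0) (cut := Cut.none) (xt := Ext.none) (P1 := 1610612736) (W1 := 536870912) (P2 := 1610612736) (W2 := 536870912) (P3 := 67108864) (W3 := 67108864) (N0 := 3)
    rfl rfl rfl k0_pp_303

noncomputable def f_pp_313 : ℕ → ℕ → ℕ → ℕ → Bool := onCell 1610612736 536870912 1610612736 536870912 67108864 67108864
    (rowNK 3 0 false true true .dn 3 1 3 (qsf 1610612736 536870912 1610612736 536870912 1) ndN1q3 ndN2q3 pcN1 Cut.none Ext.none)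

def k0_pp_313 : ∃ t, chk3 f_pp_313 t 1 1 1 = true :=
  ⟨(l 3), by decide +kernel⟩

theorem c_pp_313 : CertN 1610612736 536870912 1610612736 536870912 67108864 67108864 3 false true true .dn 3 1 3
    ndN1q3 ndN2q3 pcN1 Cut.none Ext.none :=
  certNK0 (fam := false) (s1 := true) (s2 := true) (a := 3) (b := 1) (c := 3) (cn := .dn) (n1 := ndN1q3) (n2 := ndN2q3) (pc := pcN1) (cut := Cut.none) (xt := Ext.none) (P1 := 1610612736) (W1 := 536870912) (P2 := 1610612736) (W2 := 536870912) (P3 := 67108864) (W3 := 67108864) (N0 := 3)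
    rfl rfl rfl k0_pp_313

noncomputable def f_pm_001 : ℕ → ℕ → ℕ → ℕ → Bool := onCell 0 536870912 536870912 536870912 67108864 67108864
    (rowNK 3 0 false true false .up 0 0 1 (qsf 0 536870912 536870912 536870912 0) ndN1q0 ndN2q1 pcN0 Cut.none Ext.none)

def k0_pm_001 : ∃ t, chk3 f_pm_001 t 1 1 1 = true :=
  ⟨(l 4), by decide +kernel⟩

theorem c_pm_001 : CertN 0 536870912 536870912 536870912 67108864 67108864 3 false true false .up 0 0 1
    ndN1q0 ndN2q1 pcN0 Cut.none Ext.none :=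
  certNK0 (fam := false) (s1 := true) (s2 := false) (a := 0) (b := 0) (c := 1) (cn := .up) (n1 := ndN1q0) (n2 := ndN2q1) (pc := pcN0) (cut := Cut.none) (xt := Ext.none) (P1 := 0) (W1 := 536870912) (P2 := 536870912) (W2 := 536870912) (P3 := 67108864) (W3 := 67108864) (N0 := 3)
    rfl rfl rfl k0_pm_001

noncomputable def f_pm_011 : ℕ → ℕ → ℕ → ℕ → Bool := onCell 0 536870912 536870912 536870912 67108864 67108864
    (rowNK 3 0 false true false .pnn 0 1 1 (qsf 0 536870912 536870912 536870912 1) ndN1q0 ndN2q1 pcN1 Cut.none Ext.none)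

def k0_pm_011 : ∃ t, chk3 f_pm_011 t 1 1 1 = true :=
  ⟨(l 4), by decide +kernel⟩

theorem c_pm_011 : CertN 0 536870912 536870912 536870912 67108864 67108864 3 false true false .pnn 0 1 1
    ndN1q0 ndN2q1 pcN1 Cut.none Ext.none :=
  certNK0 (fam := false) (s1 := true) (s2 := false) (a := 0) (b := 1) (c := 1) (cn := .pnn) (n1 := ndN1q0) (n2 := ndN2q1) (pc := pcN1) (cut := Cut.none) (xt := Ext.none) (P1 := 0) (W1 := 536870912) (P2 := 536870912) (W2 := 536870912) (P3 := 67108864) (W3 := 67108864) (N0 := 3)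
    rfl rfl rfl k0_pm_011

noncomputable def cut_pm_012_a : Cut := Cut.of [[⟨0, 0, 0, 67108864⟩, ⟨1, 1, 0, 67108864⟩, ⟨2, 1, 0, 67108864⟩]]

noncomputable def f_pm_012_a : ℕ → ℕ → ℕ → ℕ → Bool := onCell 0 536870912 0 536870912 67108864 67108864
    (rowNK 3 0 false true false .pnp 0 1 2 (qsf 0 536870912 0 536870912 1) ndN1q0 ndN2q2a pcN1 cut_pm_012_a Ext.none)

def k0_pm_012_a : ∃ t, chk3 f_pm_012_a t 1 1 1 = true :=
  ⟨(a (b (l 4) (a (b (l 4) (a (b (l 4) (a (l 6) (l 4))) (l 4))) (l 4))) (b (l 4) (l 4))), by decide +kernel⟩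

theorem c_pm_012_a : CertN 0 536870912 0 536870912 67108864 67108864 3 false true false .pnp 0 1 2
    ndN1q0 ndN2q2a pcN1 cut_pm_012_a Ext.none :=
  certNK0 (fam := false) (s1 := true) (s2 := false) (a := 0) (b := 1) (c := 2) (cn := .pnp) (n1 := ndN1q0) (n2 := ndN2q2a) (pc := pcN1) (cut := cut_pm_012_a) (xt := Ext.none) (P1 := 0) (W1 := 536870912) (P2 := 0) (W2 := 536870912) (P3 := 67108864) (W3 := 67108864) (N0 := 3)
    rfl rfl rfl k0_pm_012_a

noncomputable def cut_pm_012_b : Cut := Cut.of [[⟨0, 0, 0, 67108864⟩, ⟨1, 1, 0, 67108864⟩, ⟨2, 1, 0, 67108864⟩]]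

noncomputable def f_pm_012_b : ℕ → ℕ → ℕ → ℕ → Bool := onCell 0 536870912 1239849684 370763052 67108864 67108864
    (rowNK 3 0 false true false .pnp 0 1 2 (qsf 0 536870912 1239849684 370763052 1) ndN1q0 ndN2q2b pcN1 cut_pm_012_b Ext.none)

def k0_pm_012_b : ∃ t, chk3 f_pm_012_b t 1 1 1 = true :=
  ⟨(a (l 4) (l 4)), by decide +kernel⟩

theorem c_pm_012_b : CertN 0 536870912 1239849684 370763052 67108864 67108864 3 false true false .pnp 0 1 2
    ndN1q0 ndN2q2b pcN1 cut_pm_012_b Ext.none :=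
  certNK0 (fam := false) (s1 := true) (s2 := false) (a := 0) (b := 1) (c := 2) (cn := .pnp) (n1 := ndN1q0) (n2 := ndN2q2b) (pc := pcN1) (cut := cut_pm_012_b) (xt := Ext.none) (P1 := 0) (W1 := 536870912) (P2 := 1239849684) (W2 := 370763052) (P3 := 67108864) (W3 := 67108864) (N0 := 3)
    rfl rfl rfl k0_pm_012_b

noncomputable def cut_pm_022_a : Cut := Cut.of [[⟨0, 0, 0, 67108864⟩, ⟨1, 1, 0, 67108864⟩, ⟨2, 1, 0, 67108864⟩]]

noncomputable def f_pm_022_a : ℕ → ℕ → ℕ → ℕ → Bool := onCell 0 536870912 0 536870912 67108864 67108864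
    (rowNK 3 0 false true false .pp 0 2 2 (qsf 0 536870912 0 536870912 2) ndN1q0 ndN2q2a pcN2 cut_pm_022_a Ext.none)

def k0_pm_022_a : ∃ t, chk3 f_pm_022_a t 1 1 1 = true :=
  ⟨(a (b (l 4) (b (l 4) (b (l 4) (a (a (a (l 6) (l 4)) (l 1)) (l 1))))) (l 1)), by decide +kernel⟩

theorem c_pm_022_a : CertN 0 536870912 0 536870912 67108864 67108864 3 false true false .pp 0 2 2
    ndN1q0 ndN2q2a pcN2 cut_pm_022_a Ext.none :=
  certNK0 (fam := false) (s1 := true) (s2 := false) (a := 0) (b := 2) (c := 2) (cn := .pp) (n1 := ndN1q0) (n2 := ndN2q2a) (pc := pcN2) (cut := cut_pm_022_a) (xt := Ext.none) (P1 := 0) (W1 := 536870912) (P2 := 0) (W2 := 536870912) (P3 := 67108864) (W3 := 67108864) (N0 := 3)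
    rfl rfl rfl k0_pm_022_a

noncomputable def cut_pm_022_b : Cut := Cut.of [[⟨0, 0, 0, 67108864⟩, ⟨1, 1, 0, 67108864⟩, ⟨2, 1, 0, 67108864⟩]]

noncomputable def f_pm_022_b : ℕ → ℕ → ℕ → ℕ → Bool := onCell 0 536870912 1239849684 370763052 67108864 67108864
    (rowNK 3 0 false true false .pp 0 2 2 (qsf 0 536870912 1239849684 370763052 2) ndN1q0 ndN2q2b pcN2 cut_pm_022_b Ext.none)

def k0_pm_022_b : ∃ t, chk3 f_pm_022_b t 1 1 1 = true :=
  ⟨(a (l 4) (l 4)), by decide +kernel⟩

theorem c_pm_022_b : CertN 0 536870912 1239849684 370763052 67108864 67108864 3 false true false .pp 0 2 2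
    ndN1q0 ndN2q2b pcN2 cut_pm_022_b Ext.none :=
  certNK0 (fam := false) (s1 := true) (s2 := false) (a := 0) (b := 2) (c := 2) (cn := .pp) (n1 := ndN1q0) (n2 := ndN2q2b) (pc := pcN2) (cut := cut_pm_022_b) (xt := Ext.none) (P1 := 0) (W1 := 536870912) (P2 := 1239849684) (W2 := 370763052) (P3 := 67108864) (W3 := 67108864) (N0 := 3)
    rfl rfl rfl k0_pm_022_b

noncomputable def f_pm_023 : ℕ → ℕ → ℕ → ℕ → Bool := onCell 0 536870912 1610612736 536870912 67108864 67108864
    (rowNK 3 0 false true false .up 0 2 3 (qsf 0 536870912 1610612736 536870912 2) ndN1q0 ndN2q3 pcN2 Cut.none Ext.none)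

def k0_pm_023 : ∃ t, chk3 f_pm_023 t 1 1 1 = true :=
  ⟨(a (l 4) (b (l 4) (l 4))), by decide +kernel⟩

theorem c_pm_023 : CertN 0 536870912 1610612736 536870912 67108864 67108864 3 false true false .up 0 2 3
    ndN1q0 ndN2q3 pcN2 Cut.none Ext.none :=
  certNK0 (fam := false) (s1 := true) (s2 := false) (a := 0) (b := 2) (c := 3) (cn := .up) (n1 := ndN1q0) (n2 := ndN2q3) (pc := pcN2) (cut := Cut.none) (xt := Ext.none) (P1 := 0) (W1 := 536870912) (P2 := 1610612736) (W2 := 536870912) (P3 := 67108864) (W3 := 67108864) (N0 := 3)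
    rfl rfl rfl k0_pm_023

noncomputable def f_pm_033 : ℕ → ℕ → ℕ → ℕ → Bool := onCell 0 536870912 1610612736 536870912 67108864 67108864
    (rowNK 3 0 false true false .pnn 0 3 3 (qsf 0 536870912 1610612736 536870912 3) ndN1q0 ndN2q3 pcN3 Cut.none Ext.none)

def k0_pm_033 : ∃ t, chk3 f_pm_033 t 1 1 1 = true :=
  ⟨(a (l 4) (b (l 4) (l 4))), by decide +kernel⟩

theorem c_pm_033 : CertN 0 536870912 1610612736 536870912 67108864 67108864 3 false true false .pnn 0 3 3
    ndN1q0 ndN2q3 pcN3 Cut.none Ext.none :=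
  certNK0 (fam := false) (s1 := true) (s2 := false) (a := 0) (b := 3) (c := 3) (cn := .pnn) (n1 := ndN1q0) (n2 := ndN2q3) (pc := pcN3) (cut := Cut.none) (xt := Ext.none) (P1 := 0) (W1 := 536870912) (P2 := 1610612736) (W2 := 536870912) (P3 := 67108864) (W3 := 67108864) (N0 := 3)
    rfl rfl rfl k0_pm_033

noncomputable def f_pm_101 : ℕ → ℕ → ℕ → ℕ → Bool := onCell 536870912 536870912 536870912 536870912 67108864 67108864
    (rowNK 3 0 false true false .npn 1 0 1 (qsf 536870912 536870912 536870912 536870912 0) ndN1q1 ndN2q1 pcN0 Cut.none Ext.none)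

def k0_pm_101 : ∃ t, chk3 f_pm_101 t 1 1 1 = true :=
  ⟨(l 4), by decide +kernel⟩

theorem c_pm_101 : CertN 536870912 536870912 536870912 536870912 67108864 67108864 3 false true false .npn 1 0 1
    ndN1q1 ndN2q1 pcN0 Cut.none Ext.none :=
  certNK0 (fam := false) (s1 := true) (s2 := false) (a := 1) (b := 0) (c := 1) (cn := .npn) (n1 := ndN1q1) (n2 := ndN2q1) (pc := pcN0) (cut := Cut.none) (xt := Ext.none) (P1 := 536870912) (W1 := 536870912) (P2 := 536870912) (W2 := 536870912) (P3 := 67108864) (W3 := 67108864) (N0 := 3)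
    rfl rfl rfl k0_pm_101

noncomputable def f_pm_102_a : ℕ → ℕ → ℕ → ℕ → Bool := onCell 536870912 536870912 0 536870912 67108864 67108864
    (rowNK 3 0 false true false .npp 1 0 2 (qsf 536870912 536870912 0 536870912 0) ndN1q1 ndN2q2a pcN0 Cut.none Ext.none)

def k0_pm_102_a : ∃ t, chk3 f_pm_102_a t 1 1 1 = true :=
  ⟨(a (b (a (l 4) (l 130160620455)) (a (b (l 4) (b (l 4) (l 4))) (b (l 17891712) (b (l 17791248) (l 17732736))))) (b (a (l 17953088) (l 18327552)) (a (b (l 17956864) (b (l 17974224) (l 18024064))) (b (l 18466696) (b (l 18599584) (l 18745264)))))), by decide +kernel⟩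

theorem c_pm_102_a : CertN 536870912 536870912 0 536870912 67108864 67108864 3 false true false .npp 1 0 2
    ndN1q1 ndN2q2a pcN0 Cut.none Ext.none :=
  certNK0 (fam := false) (s1 := true) (s2 := false) (a := 1) (b := 0) (c := 2) (cn := .npp) (n1 := ndN1q1) (n2 := ndN2q2a) (pc := pcN0) (cut := Cut.none) (xt := Ext.none) (P1 := 536870912) (W1 := 536870912) (P2 := 0) (W2 := 536870912) (P3 := 67108864) (W3 := 67108864) (N0 := 3)
    rfl rfl rfl k0_pm_102_a

noncomputable def f_pm_102_b : ℕ → ℕ → ℕ → ℕ → Bool := onCell 536870912 536870912 1239849684 370763052 67108864 67108864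
    (rowNK 3 0 false true false .npp 1 0 2 (qsf 536870912 536870912 1239849684 370763052 0) ndN1q1 ndN2q2b pcN0 Cut.none Ext.none)

def k0_pm_102_b : ∃ t, chk3 f_pm_102_b t 1 1 1 = true :=
  ⟨(a (a (l 2) (b (a (l 4) (b (l 18031968) (l 18105248))) (l 2))) (b (a (b (l 17835592) (l 17703520)) (b (l 18047200) (l 17771944))) (a (b (a (l 2) (l 17325064)) (l 2)) (b (l 17910480) (a (l 17870576) (l 18526336)))))), by decide +kernel⟩

theorem c_pm_102_b : CertN 536870912 536870912 1239849684 370763052 67108864 67108864 3 false true false .npp 1 0 2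
    ndN1q1 ndN2q2b pcN0 Cut.none Ext.none :=
  certNK0 (fam := false) (s1 := true) (s2 := false) (a := 1) (b := 0) (c := 2) (cn := .npp) (n1 := ndN1q1) (n2 := ndN2q2b) (pc := pcN0) (cut := Cut.none) (xt := Ext.none) (P1 := 536870912) (W1 := 536870912) (P2 := 1239849684) (W2 := 370763052) (P3 := 67108864) (W3 := 67108864) (N0 := 3)
    rfl rfl rfl k0_pm_102_b

noncomputable def f_pm_112_a : ℕ → ℕ → ℕ → ℕ → Bool := onCell 536870912 536870912 0 536870912 67108864 67108864
    (rowNK 3 2 false true false .dn 1 1 2 (qsf 536870912 536870912 0 536870912 1) ndN1q1 ndN2q2a pcN1 Cut.none Ext.none)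

def k0_pm_112_a : ∃ t, chk3 f_pm_112_a t 1 1 1 = true :=
  ⟨(a (a (b (l 4) (l 4)) (l 4)) (l 1)), by decide +kernel⟩

theorem c_pm_112_a : CertN 536870912 536870912 0 536870912 67108864 67108864 3 false true false .dn 1 1 2
    ndN1q1 ndN2q2a pcN1 Cut.none Ext.none :=
  certNK2 (fam := false) (s1 := true) (s2 := false) (a := 1) (b := 1) (c := 2) (cn := .dn) (n1 := ndN1q1) (n2 := ndN2q2a) (pc := pcN1) (cut := Cut.none) (xt := Ext.none) (P1 := 536870912) (W1 := 536870912) (P2 := 0) (W2 := 536870912) (P3 := 67108864) (W3 := 67108864) (N0 := 3)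
    rfl rfl rfl (fun _ => rfl) k0_pm_112_a

noncomputable def f_pm_112_b : ℕ → ℕ → ℕ → ℕ → Bool := onCell 536870912 536870912 1239849684 370763052 67108864 67108864
    (rowNK 3 2 false true false .dn 1 1 2 (qsf 536870912 536870912 1239849684 370763052 1) ndN1q1 ndN2q2b pcN1 Cut.none Ext.none)

def k0_pm_112_b : ∃ t, chk3 f_pm_112_b t 1 1 1 = true :=
  ⟨(a (a (b (l 18184680) (a (b (l 18015008) (a (l 17848144) (l 17936680))) (l 18077600))) (l 411481900215)) (b (l 4) (l 19302504))), by decide +kernel⟩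

theorem c_pm_112_b : CertN 536870912 536870912 1239849684 370763052 67108864 67108864 3 false true false .dn 1 1 2
    ndN1q1 ndN2q2b pcN1 Cut.none Ext.none :=
  certNK2 (fam := false) (s1 := true) (s2 := false) (a := 1) (b := 1) (c := 2) (cn := .dn) (n1 := ndN1q1) (n2 := ndN2q2b) (pc := pcN1) (cut := Cut.none) (xt := Ext.none) (P1 := 536870912) (W1 := 536870912) (P2 := 1239849684) (W2 := 370763052) (P3 := 67108864) (W3 := 67108864) (N0 := 3)
    rfl rfl rfl (fun _ => rfl) k0_pm_112_b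

noncomputable def f_pm_113 : ℕ → ℕ → ℕ → ℕ → Bool := onCell 536870912 536870912 536870912 536870912 67108864 67108864
    (rowNK 3 1 false true false .nn 1 1 3 (qsf 536870912 536870912 1610612736 536870912 1) ndN1q1 ndN2q3 pcN1 Cut.none Ext.none)

def k0_pm_113 : ∃ t, chk3 f_pm_113 t 1 1 1 = true :=
  ⟨(a (b (b (l 1) (l 305519889559)) (a (l 4) (b (l 20397512) (b (l 20462440) (b (l 20458176) (l 20419632)))))) (b (b (a (l 19690576) (b (a (l 19635624) (a (l 19463096) (l 19077744))) (a (a (l 19645160) (l 19419872)) (b (l 18728512) (a (l 18642224) (l 17616760)))))) (a (b (l 19850456) (a (l 19987968) (a (l 19760352) (l 19546824)))) (b (a (l 19136064) (b (a (l 18038848) (l 17591304)) (l 17682064))) (b (a (l 18304608) (l 17598544)) (l 17995704))))) (a (b (b (a (l 19737800) (l 18940752)) (b (l 19364896) (l 19463168))) (b (l 19460808) (b (l 19189080) (l 19081024)))) (b (b (a (l 18241448) (l 17303568)) (l 17759528)) (b (l 17625216) (b (l 17497408) (l 17455048))))))),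 by decide +kernel⟩

theorem c_pm_113 : CertN 536870912 536870912 1610612736 536870912 67108864 67108864 3 false true false .nn 1 1 3
    ndN1q1 ndN2q3 pcN1 Cut.none Ext.none :=
  certNK1 (fam := false) (s1 := true) (s2 := false) (a := 1) (b := 1) (c := 3) (cn := .nn) (n1 := ndN1q1) (n2 := ndN2q3) (pc := pcN1) (cut := Cut.none) (xt := Ext.none) (P1 := 536870912) (W1 := 536870912) (P2 := 1610612736) (W2 := 536870912) (P3 := 67108864) (W3 := 67108864) (N0 := 3)
    rfl rfl rfl (fun _ => rfl) k0_pm_113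

noncomputable def f_pm_123 : ℕ → ℕ → ℕ → ℕ → Bool := onCell 1073741824 536870912 1610612736 536870912 67108864 67108864
    (rowNK 3 2 false true false .npn 1 2 3 (qsf 536870912 536870912 1610612736 536870912 2) ndN1q1 ndN2q3 pcN2 Cut.none Ext.none)

def k0_pm_123 : ∃ t, chk3 f_pm_123 t 1 1 1 = true :=
  ⟨(a (b (a (l 20674272) (l 4)) (b (a (l 19257544) (l 19344440)) (a (l 17938408) (l 18439160)))) (b (l 4) (a (l 18900816) (l 18662608)))), by decide +kernel⟩

theorem c_pm_123 : CertN 536870912 536870912 1610612736 536870912 67108864 67108864 3 false true false .npn 1 2 3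
    ndN1q1 ndN2q3 pcN2 Cut.none Ext.none :=
  certNK2 (fam := false) (s1 := true) (s2 := false) (a := 1) (b := 2) (c := 3) (cn := .npn) (n1 := ndN1q1) (n2 := ndN2q3) (pc := pcN2) (cut := Cut.none) (xt := Ext.none) (P1 := 536870912) (W1 := 536870912) (P2 := 1610612736) (W2 := 536870912) (P3 := 67108864) (W3 := 67108864) (N0 := 3)
    rfl rfl rfl (fun _ => rfl) k0_pm_123

noncomputable def f_pm_133 : ℕ → ℕ → ℕ → ℕ → Bool := onCell 1610612736 536870912 1610612736 536870912 67108864 67108864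
    (rowNK 3 2 false true false .dn 1 3 3 (qsf 536870912 536870912 1610612736 536870912 3) ndN1q1 ndN2q3 pcN3 Cut.none Ext.none)

def k0_pm_133 : ∃ t, chk3 f_pm_133 t 1 1 1 = true :=
  ⟨(a (b (l 1) (l 4)) (l 1)), by decide +kernel⟩

theorem c_pm_133 : CertN 536870912 536870912 1610612736 536870912 67108864 67108864 3 false true false .dn 1 3 3
    ndN1q1 ndN2q3 pcN3 Cut.none Ext.none :=
  certNK2 (fam := false) (s1 := true) (s2 := false) (a := 1) (b := 3) (c := 3) (cn := .dn) (n1 := ndN1q1) (n2 := ndN2q3) (pc := pcN3) (cut := Cut.none) (xt := Ext.none) (P1 := 536870912) (W1 := 536870912) (P2 := 1610612736) (W2 := 536870912) (P3 := 67108864) (W3 := 67108864) (N0 := 3)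
    rfl rfl rfl (fun _ => rfl) k0_pm_133

noncomputable def cut_pm_202_aa : Cut := Cut.of [[⟨0, 1, 0, 67108864⟩, ⟨1, 0, 0, 67108864⟩, ⟨2, 1, 0, 67108864⟩], [⟨0, 1, 0, 16777216⟩, ⟨1, 0, 1, 33554432⟩, ⟨2, 1, 1, 33554432⟩, ⟨1, 0, 0, 150994944⟩, ⟨1, 1, 0, 1023410176⟩, ⟨2, 1, 0, 150994944⟩, ⟨2, 2, 0, 1023410176⟩]]

noncomputable def f_pm_202_aa : ℕ → ℕ → ℕ → ℕ → Bool := onCell 0 536870912 0 536870912 67108864 67108864
    (rowNK 3 0 false true false .pp 2 0 2 (qsf 0 536870912 0 536870912 0) ndN1q2a ndN2q2a pcN0 cut_pm_202_aa Ext.none)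

def k0_pm_202_aa : ∃ t, chk3 f_pm_202_aa t 2 1 1 = true :=
  ⟨(l 3), by decide +kernel⟩

def k1_pm_202_aa : ∃ t, chk3 f_pm_202_aa t 6 1 1 = true :=
  ⟨(l 3), by decide +kernel⟩

def k2_pm_202_aa : ∃ t, chk3 f_pm_202_aa t 14 1 1 = true :=
  ⟨(l 3), by decide +kernel⟩

def k3_pm_202_aa : ∃ t, chk3 f_pm_202_aa t 15 2 1 = true :=
  ⟨(a (l 3) (a (l 3) (a (l 3) (a (b (l 3) (l 3)) (a (b (l 3) (l 3)) (b (c (l 17648528) (b (l 96268255463) (b (l 17135784) (l 97879069239)))) (b (c (l 17582056) (b (b (l 115595799863) (l 115595674247)) (c (l 17234944) (b (l 14) (l 14))))) (c (b (l 17512008) (l 17379440)) (c (b (l 115058632487) (c (l 115595532055) (l 14))) (l 14)))))))))), by decide +kernel⟩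

def k4_pm_202_aa : ∃ t, chk3 f_pm_202_aa t 30 3 1 = true :=
  ⟨(l 3), by decide +kernel⟩

def k5_pm_202_aa : ∃ t, chk3 f_pm_202_aa t 62 3 1 = true :=
  ⟨(l 3), by decide +kernel⟩

def k6_pm_202_aa : ∃ t, chk3 f_pm_202_aa t 126 3 1 = true :=
  ⟨(b (l 3) (l 3)), by decide +kernel⟩

def k7_pm_202_aa : ∃ t, chk3 f_pm_202_aa t 254 3 1 = true :=
  ⟨(b (l 3) (l 3)), by decide +kernel⟩

def k8_pm_202_aa : ∃ t, chk3 f_pm_202_aa t 255 6 1 = true :=
  ⟨(a (l 3) (b (c (b (b (l 113985600471) (b (l 115596110951) (l 116132816615))) (c (l 115058924391) (l 14))) (l 14)) (a (l 3) (a (l 3) (a (b (l 3) (l 3)) (a (b (l 3) (l 3)) (c (b (c (b (l 17243864) (l 14)) (l 14)) (l 14)) (c (b (l 14) (c (l 14) (b (b (l 14) (b (l 14) (b (l 14) (l 119889930327)))) (b (b (b (l 119889930807) (l 119889931303)) (b (l 120426802711) (l 120426803223))) (b (b (l 120426803735) (l 120426804247)) (b (l 120426804775) (l 120426805303))))))) (b (b (b (l 14) (c (l 14) (c (l 14) (b (l 116668690967)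 (l 116668691831))))) (b (c (l 14) (b (b (l 117742435447) (l 117742435879)) (b (l 117742436327) (l 117742436791)))) (c (b (b (l 14) (l 118816181831)) (b (l 118816182279) (l 118816182743))) (b (b (l 117742437239) (l 117742437703)) (c (l 117205567527) (l 116668695479)))))) (b (b (c (b (b (l 118816183191) (l 118816183671)) (b (l 118816183975) (l 119353055527))) (b (c (l 117205568487) (l 117205567367)) (l 117742440471))) (b (b (l 119353055927) (l 119353056423)) (b (l 119889927847) (l 119889928359)))) (b (b (b (l 119889928887) (l 119889929415)) (b (l 119889929943) (l 119889930327))) (b (b (l 119889930871) (l 119889931415)) (b (l 120426802903) (l 119889932391)))))))))))))), by decide +kernel⟩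

def k9_pm_202_aa : ∃ t, chk3 f_pm_202_aa t 255 7 1 = true :=
  ⟨(b (a (l 3) (b (a (l 3) (a (l 3) (a (l 3) (a (l 3) (b (a (l 3) (c (l 14) (b (b (b (c (c (l 121500549591) (l 120426805927)) (l 120426804119)) (c (c (l 121500550119) (l 120426806471)) (l 120426804695))) (b (c (c (l 121500550647) (l 120963677927)) (l 120426805127)) (c (c (l 121500551175) (l 120963678487)) (l 120426805719)))) (c (b (b (c (l 121500551719) (l 120963679063)) (c (l 121500552263) (l 120963679623))) (b (c (l 122037423735) (l 120963680215)) (c (l 122037424295) (l 120963680791)))) (b (b (l 120426806327) (l 120426806935)) (b (l 120426807543) (l 120963679095))))))) (b (b (b (b (c (c (l 14) (c (l 14) (l 123111168007))) (c (l 122574295431) (l 121500550263))) (l 6)) (l 6)) (l 6)) (l 6))))))) (l 6))) (l 6)), by decide +kernel⟩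

theorem s10_pm_202_aa : ∃ t, chk3 f_pm_202_aa t 255 3 1 = true := ex3_b k8_pm_202_aa k9_pm_202_aa

theorem s11_pm_202_aa : ∃ t, chk3 f_pm_202_aa t 127 3 1 = true := ex3_a k7_pm_202_aa s10_pm_202_aa

theorem s12_pm_202_aa : ∃ t, chk3 f_pm_202_aa t 63 3 1 = true := ex3_a k6_pm_202_aa s11_pm_202_aa

theorem s13_pm_202_aa : ∃ t, chk3 f_pm_202_aa t 31 3 1 = true := ex3_a k5_pm_202_aa s12_pm_202_aa

theorem s14_pm_202_aa : ∃ t, chk3 f_pm_202_aa t 15 3 1 = true := ex3_a k4_pm_202_aa s13_pm_202_aa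

theorem s15_pm_202_aa : ∃ t, chk3 f_pm_202_aa t 15 1 1 = true := ex3_b k3_pm_202_aa s14_pm_202_aa

theorem s16_pm_202_aa : ∃ t, chk3 f_pm_202_aa t 7 1 1 = true := ex3_a k2_pm_202_aa s15_pm_202_aa

theorem s17_pm_202_aa : ∃ t, chk3 f_pm_202_aa t 3 1 1 = true := ex3_a k1_pm_202_aa s16_pm_202_aa

theorem s18_pm_202_aa : ∃ t, chk3 f_pm_202_aa t 1 1 1 = true := ex3_a k0_pm_202_aa s17_pm_202_aa

theorem c_pm_202_aa : CertN 0 536870912 0 536870912 67108864 67108864 3 false true false .pp 2 0 2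
    ndN1q2a ndN2q2a pcN0 cut_pm_202_aa Ext.none :=
  certNK0 (fam := false) (s1 := true) (s2 := false) (a := 2) (b := 0) (c := 2) (cn := .pp) (n1 := ndN1q2a) (n2 := ndN2q2a) (pc := pcN0) (cut := cut_pm_202_aa) (xt := Ext.none) (P1 := 0) (W1 := 536870912) (P2 := 0) (W2 := 536870912) (P3 := 67108864) (W3 := 67108864) (N0 := 3)
    rfl rfl rfl s18_pm_202_aa

noncomputable def cut_pm_202_ab : Cut := Cut.of [[⟨0, 1, 0, 67108864⟩, ⟨1, 0, 0, 67108864⟩, ⟨2, 1, 0, 67108864⟩], [⟨0, 1, 0, 16777216⟩, ⟨1, 0, 1, 33554432⟩, ⟨2, 1, 1, 33554432⟩, ⟨1, 0, 0, 150994944⟩, ⟨1, 1, 0, 1023410176⟩, ⟨2, 1, 0, 150994944⟩, ⟨2, 2, 0, 1023410176⟩]]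

noncomputable def f_pm_202_ab : ℕ → ℕ → ℕ → ℕ → Bool := onCell 0 536870912 1239849684 370763052 67108864 67108864
    (rowNK 3 0 false true false .pp 2 0 2 (qsf 0 536870912 1239849684 370763052 0) ndN1q2a ndN2q2b pcN0 cut_pm_202_ab Ext.none)

def k0_pm_202_ab : ∃ t, chk3 f_pm_202_ab t 1 1 1 = true :=
  ⟨(a (l 3) (a (l 3) (a (l 3) (b (a (l 3) (a (l 3) (b (a (l 3) (b (c (l 17778928) (b (b (l 93047416327) (l 111301252055)) (l 17365432))) (l 17670096))) (l 72110515271)))) (b (l 75869462279) (l 17994832)))))), by decide +kernel⟩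

theorem c_pm_202_ab : CertN 0 536870912 1239849684 370763052 67108864 67108864 3 false true false .pp 2 0 2
    ndN1q2a ndN2q2b pcN0 cut_pm_202_ab Ext.none :=
  certNK0 (fam := false) (s1 := true) (s2 := false) (a := 2) (b := 0) (c := 2) (cn := .pp) (n1 := ndN1q2a) (n2 := ndN2q2b) (pc := pcN0) (cut := cut_pm_202_ab) (xt := Ext.none) (P1 := 0) (W1 := 536870912) (P2 := 1239849684) (W2 := 370763052) (P3 := 67108864) (W3 := 67108864) (N0 := 3)
    rfl rfl rfl k0_pm_202_ab

noncomputable def cut_pm_202_ba : Cut := Cut.of [[⟨0, 1, 0, 67108864⟩, ⟨1, 0, 0, 67108864⟩, ⟨2, 1, 0, 67108864⟩], [⟨0, 1, 0, 16777216⟩, ⟨1, 0, 1, 33554432⟩, ⟨2, 1, 1, 33554432⟩, ⟨1, 0, 0, 150994944⟩, ⟨1, 1, 0, 1023410176⟩, ⟨2, 1, 0, 150994944⟩, ⟨2, 2, 0, 1023410176⟩]]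

noncomputable def f_pm_202_ba : ℕ → ℕ → ℕ → ℕ → Bool := onCell 1239849684 370763052 0 536870912 67108864 67108864
    (rowNK 3 0 false true false .pp 2 0 2 (qsf 1239849684 370763052 0 536870912 0) ndN1q2b ndN2q2a pcN0 cut_pm_202_ba Ext.none)

def k0_pm_202_ba : ∃ t, chk3 f_pm_202_ba t 1 1 1 = true :=
  ⟨(l 3), by decide +kernel⟩

theorem c_pm_202_ba : CertN 1239849684 370763052 0 536870912 67108864 67108864 3 false true false .pp 2 0 2
    ndN1q2b ndN2q2a pcN0 cut_pm_202_ba Ext.none :=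
  certNK0 (fam := false) (s1 := true) (s2 := false) (a := 2) (b := 0) (c := 2) (cn := .pp) (n1 := ndN1q2b) (n2 := ndN2q2a) (pc := pcN0) (cut := cut_pm_202_ba) (xt := Ext.none) (P1 := 1239849684) (W1 := 370763052) (P2 := 0) (W2 := 536870912) (P3 := 67108864) (W3 := 67108864) (N0 := 3)
    rfl rfl rfl k0_pm_202_ba

noncomputable def cut_pm_202_bb : Cut := Cut.of [[⟨0, 1, 0, 67108864⟩, ⟨1, 0, 0, 67108864⟩, ⟨2, 1, 0, 67108864⟩], [⟨0, 1, 0, 16777216⟩, ⟨1, 0, 1, 33554432⟩, ⟨2, 1, 1, 33554432⟩, ⟨1, 0, 0, 150994944⟩, ⟨1, 1, 0, 1023410176⟩, ⟨2, 1, 0, 150994944⟩, ⟨2, 2, 0, 1023410176⟩]]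

noncomputable def f_pm_202_bb : ℕ → ℕ → ℕ → ℕ → Bool := onCell 1239849684 370763052 1239849684 370763052 67108864 67108864
    (rowNK 3 0 false true false .pp 2 0 2 (qsf 1239849684 370763052 1239849684 370763052 0) ndN1q2b ndN2q2b pcN0 cut_pm_202_bb Ext.none)

def k0_pm_202_bb : ∃ t, chk3 f_pm_202_bb t 1 1 1 = true :=
  ⟨(l 3), by decide +kernel⟩

theorem c_pm_202_bb : CertN 1239849684 370763052 1239849684 370763052 67108864 67108864 3 false true false .pp 2 0 2
    ndN1q2b ndN2q2b pcN0 cut_pm_202_bb Ext.none :=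
  certNK0 (fam := false) (s1 := true) (s2 := false) (a := 2) (b := 0) (c := 2) (cn := .pp) (n1 := ndN1q2b) (n2 := ndN2q2b) (pc := pcN0) (cut := cut_pm_202_bb) (xt := Ext.none) (P1 := 1239849684) (W1 := 370763052) (P2 := 1239849684) (W2 := 370763052) (P3 := 67108864) (W3 := 67108864) (N0 := 3)
    rfl rfl rfl k0_pm_202_bb

noncomputable def f_pm_203_a : ℕ → ℕ → ℕ → ℕ → Bool := onCell 0 536870912 1610612736 536870912 67108864 67108864
    (rowNK 3 0 false true false .up 2 0 3 (qsf 0 536870912 1610612736 536870912 0) ndN1q2a ndN2q3 pcN0 Cut.none Ext.none)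

def k0_pm_203_a : ∃ t, chk3 f_pm_203_a t 1 1 1 = true :=
  ⟨(a (l 3) (b (a (l 3) (a (l 3) (b (l 91438793431) (l 2)))) (l 2))), by decide +kernel⟩

theorem c_pm_203_a : CertN 0 536870912 1610612736 536870912 67108864 67108864 3 false true false .up 2 0 3
    ndN1q2a ndN2q3 pcN0 Cut.none Ext.none :=
  certNK0 (fam := false) (s1 := true) (s2 := false) (a := 2) (b := 0) (c := 3) (cn := .up) (n1 := ndN1q2a) (n2 := ndN2q3) (pc := pcN0) (cut := Cut.none) (xt := Ext.none) (P1 := 0) (W1 := 536870912) (P2 := 1610612736) (W2 := 536870912) (P3 := 67108864) (W3 := 67108864) (N0 := 3)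
    rfl rfl rfl k0_pm_203_a

noncomputable def f_pm_203_b : ℕ → ℕ → ℕ → ℕ → Bool := onCell 1239849684 370763052 1610612736 536870912 67108864 67108864
    (rowNK 3 0 false true false .up 2 0 3 (qsf 1239849684 370763052 1610612736 536870912 0) ndN1q2b ndN2q3 pcN0 Cut.none Ext.none)

def k0_pm_203_b : ∃ t, chk3 f_pm_203_b t 1 1 1 = true :=
  ⟨(l 3), by decide +kernel⟩

theorem c_pm_203_b : CertN 1239849684 370763052 1610612736 536870912 67108864 67108864 3 false true false .up 2 0 3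
    ndN1q2b ndN2q3 pcN0 Cut.none Ext.none :=
  certNK0 (fam := false) (s1 := true) (s2 := false) (a := 2) (b := 0) (c := 3) (cn := .up) (n1 := ndN1q2b) (n2 := ndN2q3) (pc := pcN0) (cut := Cut.none) (xt := Ext.none) (P1 := 1239849684) (W1 := 370763052) (P2 := 1610612736) (W2 := 536870912) (P3 := 67108864) (W3 := 67108864) (N0 := 3)
    rfl rfl rfl k0_pm_203_b

noncomputable def cut_pm_213_a : Cut := Cut.of [[⟨0, 1, 0, 21338704⟩, ⟨1, 1, 0, 21338704⟩, ⟨2, 2, 0, 1685920⟩]]

noncomputable def f_pm_213_a : ℕ → ℕ → ℕ → ℕ → Bool := onCell 0 536870912 1610612736 536870912 67108864 67108864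
    (rowNK 3 0 false true false .pnn 2 1 3 (qsf 0 536870912 1610612736 536870912 1) ndN1q2a ndN2q3 pcN1 cut_pm_213_a Ext.none)

def k0_pm_213_a : ∃ t, chk3 f_pm_213_a t 1 1 1 = true :=
  ⟨(a (l 3) (a (b (l 3) (l 3)) (a (b (l 3) (l 3)) (b (b (l 97344386615) (b (l 17742968) (l 17513656))) (b (b (l 97879253927) (l 17228696)) (a (l 3) (b (l 17041952) (b (l 152639365719) (a (l 3) (b (l 158007955815) (a (l 3) (b (l 160692250999) (a (l 3) (b (l 162302827911) (b (l 163376551959) (b (l 164450294983) (l 6))))))))))))))))), by decide +kernel⟩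

theorem c_pm_213_a : CertN 0 536870912 1610612736 536870912 67108864 67108864 3 false true false .pnn 2 1 3
    ndN1q2a ndN2q3 pcN1 cut_pm_213_a Ext.none :=
  certNK0 (fam := false) (s1 := true) (s2 := false) (a := 2) (b := 1) (c := 3) (cn := .pnn) (n1 := ndN1q2a) (n2 := ndN2q3) (pc := pcN1) (cut := cut_pm_213_a) (xt := Ext.none) (P1 := 0) (W1 := 536870912) (P2 := 1610612736) (W2 := 536870912) (P3 := 67108864) (W3 := 67108864) (N0 := 3)
    rfl rfl rfl k0_pm_213_a

noncomputable def cut_pm_213_b : Cut := Cut.of [[⟨0, 1, 0, 21338704⟩, ⟨1, 1, 0, 21338704⟩, ⟨2, 2, 0, 1685920⟩]]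

noncomputable def f_pm_213_b : ℕ → ℕ → ℕ → ℕ → Bool := onCell 1239849684 370763052 1610612736 536870912 67108864 67108864
    (rowNK 3 0 false true false .pnn 2 1 3 (qsf 1239849684 370763052 1610612736 536870912 1) ndN1q2b ndN2q3 pcN1 cut_pm_213_b Ext.none)

def k0_pm_213_b : ∃ t, chk3 f_pm_213_b t 1 1 1 = true :=
  ⟨(l 3), by decide +kernel⟩

theorem c_pm_213_b : CertN 1239849684 370763052 1610612736 536870912 67108864 67108864 3 false true false .pnn 2 1 3
    ndN1q2b ndN2q3 pcN1 cut_pm_213_b Ext.none :=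
  certNK0 (fam := false) (s1 := true) (s2 := false) (a := 2) (b := 1) (c := 3) (cn := .pnn) (n1 := ndN1q2b) (n2 := ndN2q3) (pc := pcN1) (cut := cut_pm_213_b) (xt := Ext.none) (P1 := 1239849684) (W1 := 370763052) (P2 := 1610612736) (W2 := 536870912) (P3 := 67108864) (W3 := 67108864) (N0 := 3)
    rfl rfl rfl k0_pm_213_b

noncomputable def f_pm_303 : ℕ → ℕ → ℕ → ℕ → Bool := onCell 1610612736 536870912 1610612736 536870912 67108864 67108864
    (rowNK 3 0 false true false .npn 3 0 3 (qsf 1610612736 536870912 1610612736 536870912 0) ndN1q3 ndN2q3 pcN0 Cut.none Ext.none)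

def k0_pm_303 : ∃ t, chk3 f_pm_303 t 1 1 1 = true :=
  ⟨(l 3), by decide +kernel⟩

theorem c_pm_303 : CertN 1610612736 536870912 1610612736 536870912 67108864 67108864 3 false true false .npn 3 0 3
    ndN1q3 ndN2q3 pcN0 Cut.none Ext.none :=
  certNK0 (fam := false) (s1 := true) (s2 := false) (a := 3) (b := 0) (c := 3) (cn := .npn) (n1 := ndN1q3) (n2 := ndN2q3) (pc := pcN0) (cut := Cut.none) (xt := Ext.none) (P1 := 1610612736) (W1 := 536870912) (P2 := 1610612736) (W2 := 536870912) (P3 := 67108864) (W3 := 67108864) (N0 := 3)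
    rfl rfl rfl k0_pm_303

noncomputable def f_pm_313 : ℕ → ℕ → ℕ → ℕ → Bool := onCell 1610612736 536870912 1610612736 536870912 67108864 67108864
    (rowNK 3 0 false true false .dn 3 1 3 (qsf 1610612736 536870912 1610612736 536870912 1) ndN1q3 ndN2q3 pcN1 Cut.none Ext.none)

def k0_pm_313 : ∃ t, chk3 f_pm_313 t 1 1 1 = true :=
  ⟨(l 3), by decide +kernel⟩

theorem c_pm_313 : CertN 1610612736 536870912 1610612736 536870912 67108864 67108864 3 false true false .dn 3 1 3
    ndN1q3 ndN2q3 pcN1 Cut.none Ext.none :=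
  certNK0 (fam := false) (s1 := true) (s2 := false) (a := 3) (b := 1) (c := 3) (cn := .dn) (n1 := ndN1q3) (n2 := ndN2q3) (pc := pcN1) (cut := Cut.none) (xt := Ext.none) (P1 := 1610612736) (W1 := 536870912) (P2 := 1610612736) (W2 := 536870912) (P3 := 67108864) (W3 := 67108864) (N0 := 3)
    rfl rfl rfl k0_pm_313

noncomputable def f_mm_001 : ℕ → ℕ → ℕ → ℕ → Bool := onCell 0 536870912 0 536870912 67108864 67108864
    (rowNK 3 1 false false false .up 0 0 1 (qsf 0 536870912 536870912 536870912 0) ndN1q0 ndN2q1 pcN0 Cut.none Ext.none)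

def k0_mm_001 : ∃ t, chk3 f_mm_001 t 1 1 1 = true :=
  ⟨(l 3), by decide +kernel⟩

theorem c_mm_001 : CertN 0 536870912 536870912 536870912 67108864 67108864 3 false false false .up 0 0 1
    ndN1q0 ndN2q1 pcN0 Cut.none Ext.none :=
  certNK1 (fam := false) (s1 := false) (s2 := false) (a := 0) (b := 0) (c := 1) (cn := .up) (n1 := ndN1q0) (n2 := ndN2q1) (pc := pcN0) (cut := Cut.none) (xt := Ext.none) (P1 := 0) (W1 := 536870912) (P2 := 536870912) (W2 := 536870912) (P3 := 67108864) (W3 := 67108864) (N0 := 3)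
    rfl rfl rfl (fun _ => rfl) k0_mm_001

noncomputable def f_mm_011 : ℕ → ℕ → ℕ → ℕ → Bool := onCell 0 536870912 536870912 536870912 67108864 67108864
    (rowNK 3 1 false false false .pnn 0 1 1 (qsf 0 536870912 536870912 536870912 1) ndN1q0 ndN2q1 pcN1 Cut.none Ext.none)

def k0_mm_011 : ∃ t, chk3 f_mm_011 t 1 1 1 = true :=
  ⟨(l 5), by decide +kernel⟩

theorem c_mm_011 : CertN 0 536870912 536870912 536870912 67108864 67108864 3 false false false .pnn 0 1 1
    ndN1q0 ndN2q1 pcN1 Cut.none Ext.none :=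
  certNK1 (fam := false) (s1 := false) (s2 := false) (a := 0) (b := 1) (c := 1) (cn := .pnn) (n1 := ndN1q0) (n2 := ndN2q1) (pc := pcN1) (cut := Cut.none) (xt := Ext.none) (P1 := 0) (W1 := 536870912) (P2 := 536870912) (W2 := 536870912) (P3 := 67108864) (W3 := 67108864) (N0 := 3)
    rfl rfl rfl (fun _ => rfl) k0_mm_011

noncomputable def f_mm_012_a : ℕ → ℕ → ℕ → ℕ → Bool := onCell 0 536870912 0 536870912 67108864 67108864
    (rowNK 3 0 false false false .pnp 0 1 2 (qsf 0 536870912 0 536870912 1) ndN1q0 ndN2q2a pcN1 Cut.none Ext.none)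

def k0_mm_012_a : ∃ t, chk3 f_mm_012_a t 1 1 1 = true :=
  ⟨(l 5), by decide +kernel⟩

theorem c_mm_012_a : CertN 0 536870912 0 536870912 67108864 67108864 3 false false false .pnp 0 1 2
    ndN1q0 ndN2q2a pcN1 Cut.none Ext.none :=
  certNK0 (fam := false) (s1 := false) (s2 := false) (a := 0) (b := 1) (c := 2) (cn := .pnp) (n1 := ndN1q0) (n2 := ndN2q2a) (pc := pcN1) (cut := Cut.none) (xt := Ext.none) (P1 := 0) (W1 := 536870912) (P2 := 0) (W2 := 536870912) (P3 := 67108864) (W3 := 67108864) (N0 := 3)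
    rfl rfl rfl k0_mm_012_a

noncomputable def f_mm_012_b : ℕ → ℕ → ℕ → ℕ → Bool := onCell 0 536870912 1239849684 370763052 67108864 67108864
    (rowNK 3 0 false false false .pnp 0 1 2 (qsf 0 536870912 1239849684 370763052 1) ndN1q0 ndN2q2b pcN1 Cut.none Ext.none)

def k0_mm_012_b : ∃ t, chk3 f_mm_012_b t 1 1 1 = true :=
  ⟨(l 5), by decide +kernel⟩

theorem c_mm_012_b : CertN 0 536870912 1239849684 370763052 67108864 67108864 3 false false false .pnp 0 1 2
    ndN1q0 ndN2q2b pcN1 Cut.none Ext.none :=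
  certNK0 (fam := false) (s1 := false) (s2 := false) (a := 0) (b := 1) (c := 2) (cn := .pnp) (n1 := ndN1q0) (n2 := ndN2q2b) (pc := pcN1) (cut := Cut.none) (xt := Ext.none) (P1 := 0) (W1 := 536870912) (P2 := 1239849684) (W2 := 370763052) (P3 := 67108864) (W3 := 67108864) (N0 := 3)
    rfl rfl rfl k0_mm_012_b

noncomputable def f_mm_022_a : ℕ → ℕ → ℕ → ℕ → Bool := onCell 0 536870912 0 536870912 67108864 67108864
    (rowNK 3 0 false false false .pp 0 2 2 (qsf 0 536870912 0 536870912 2) ndN1q0 ndN2q2a pcN2 Cut.none Ext.none)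

def k0_mm_022_a : ∃ t, chk3 f_mm_022_a t 1 1 1 = true :=
  ⟨(l 5), by decide +kernel⟩

theorem c_mm_022_a : CertN 0 536870912 0 536870912 67108864 67108864 3 false false false .pp 0 2 2
    ndN1q0 ndN2q2a pcN2 Cut.none Ext.none :=
  certNK0 (fam := false) (s1 := false) (s2 := false) (a := 0) (b := 2) (c := 2) (cn := .pp) (n1 := ndN1q0) (n2 := ndN2q2a) (pc := pcN2) (cut := Cut.none) (xt := Ext.none) (P1 := 0) (W1 := 536870912) (P2 := 0) (W2 := 536870912) (P3 := 67108864) (W3 := 67108864) (N0 := 3)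
    rfl rfl rfl k0_mm_022_a

noncomputable def f_mm_022_b : ℕ → ℕ → ℕ → ℕ → Bool := onCell 0 536870912 1239849684 370763052 67108864 67108864
    (rowNK 3 0 false false false .pp 0 2 2 (qsf 0 536870912 1239849684 370763052 2) ndN1q0 ndN2q2b pcN2 Cut.none Ext.none)

def k0_mm_022_b : ∃ t, chk3 f_mm_022_b t 1 1 1 = true :=
  ⟨(l 5), by decide +kernel⟩

theorem c_mm_022_b : CertN 0 536870912 1239849684 370763052 67108864 67108864 3 false false false .pp 0 2 2
    ndN1q0 ndN2q2b pcN2 Cut.none Ext.none :=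
  certNK0 (fam := false) (s1 := false) (s2 := false) (a := 0) (b := 2) (c := 2) (cn := .pp) (n1 := ndN1q0) (n2 := ndN2q2b) (pc := pcN2) (cut := Cut.none) (xt := Ext.none) (P1 := 0) (W1 := 536870912) (P2 := 1239849684) (W2 := 370763052) (P3 := 67108864) (W3 := 67108864) (N0 := 3)
    rfl rfl rfl k0_mm_022_b

noncomputable def f_mm_023 : ℕ → ℕ → ℕ → ℕ → Bool := onCell 0 536870912 1610612736 536870912 67108864 67108864
    (rowNK 3 0 false false false .up 0 2 3 (qsf 0 536870912 1610612736 536870912 2) ndN1q0 ndN2q3 pcN2 Cut.none Ext.none)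

def k0_mm_023 : ∃ t, chk3 f_mm_023 t 1 1 1 = true :=
  ⟨(l 5), by decide +kernel⟩

theorem c_mm_023 : CertN 0 536870912 1610612736 536870912 67108864 67108864 3 false false false .up 0 2 3
    ndN1q0 ndN2q3 pcN2 Cut.none Ext.none :=
  certNK0 (fam := false) (s1 := false) (s2 := false) (a := 0) (b := 2) (c := 3) (cn := .up) (n1 := ndN1q0) (n2 := ndN2q3) (pc := pcN2) (cut := Cut.none) (xt := Ext.none) (P1 := 0) (W1 := 536870912) (P2 := 1610612736) (W2 := 536870912) (P3 := 67108864) (W3 := 67108864) (N0 := 3)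
    rfl rfl rfl k0_mm_023

noncomputable def f_mm_033 : ℕ → ℕ → ℕ → ℕ → Bool := onCell 0 536870912 1610612736 536870912 67108864 67108864
    (rowNK 3 0 false false false .pnn 0 3 3 (qsf 0 536870912 1610612736 536870912 3) ndN1q0 ndN2q3 pcN3 Cut.none Ext.none)

def k0_mm_033 : ∃ t, chk3 f_mm_033 t 1 1 1 = true :=
  ⟨(l 5), by decide +kernel⟩

theorem c_mm_033 : CertN 0 536870912 1610612736 536870912 67108864 67108864 3 false false false .pnn 0 3 3
    ndN1q0 ndN2q3 pcN3 Cut.none Ext.none :=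
  certNK0 (fam := false) (s1 := false) (s2 := false) (a := 0) (b := 3) (c := 3) (cn := .pnn) (n1 := ndN1q0) (n2 := ndN2q3) (pc := pcN3) (cut := Cut.none) (xt := Ext.none) (P1 := 0) (W1 := 536870912) (P2 := 1610612736) (W2 := 536870912) (P3 := 67108864) (W3 := 67108864) (N0 := 3)
    rfl rfl rfl k0_mm_033

noncomputable def f_mm_101 : ℕ → ℕ → ℕ → ℕ → Bool := onCell 536870912 536870912 536870912 536870912 67108864 67108864
    (rowNK 3 0 false false false .npn 1 0 1 (qsf 536870912 536870912 536870912 536870912 0) ndN1q1 ndN2q1 pcN0 Cut.none Ext.none)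

def k0_mm_101 : ∃ t, chk3 f_mm_101 t 1 1 1 = true :=
  ⟨(l 3), by decide +kernel⟩

theorem c_mm_101 : CertN 536870912 536870912 536870912 536870912 67108864 67108864 3 false false false .npn 1 0 1
    ndN1q1 ndN2q1 pcN0 Cut.none Ext.none :=
  certNK0 (fam := false) (s1 := false) (s2 := false) (a := 1) (b := 0) (c := 1) (cn := .npn) (n1 := ndN1q1) (n2 := ndN2q1) (pc := pcN0) (cut := Cut.none) (xt := Ext.none) (P1 := 536870912) (W1 := 536870912) (P2 := 536870912) (W2 := 536870912) (P3 := 67108864) (W3 := 67108864) (N0 := 3)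
    rfl rfl rfl k0_mm_101

noncomputable def f_mm_102_a : ℕ → ℕ → ℕ → ℕ → Bool := onCell 536870912 536870912 0 536870912 67108864 67108864
    (rowNK 3 0 false false false .npp 1 0 2 (qsf 536870912 536870912 0 536870912 0) ndN1q1 ndN2q2a pcN0 Cut.none Ext.none)

def k0_mm_102_a : ∃ t, chk3 f_mm_102_a t 1 1 1 = true :=
  ⟨(l 3), by decide +kernel⟩

theorem c_mm_102_a : CertN 536870912 536870912 0 536870912 67108864 67108864 3 false false false .npp 1 0 2
    ndN1q1 ndN2q2a pcN0 Cut.none Ext.none :=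
  certNK0 (fam := false) (s1 := false) (s2 := false) (a := 1) (b := 0) (c := 2) (cn := .npp) (n1 := ndN1q1) (n2 := ndN2q2a) (pc := pcN0) (cut := Cut.none) (xt := Ext.none) (P1 := 536870912) (W1 := 536870912) (P2 := 0) (W2 := 536870912) (P3 := 67108864) (W3 := 67108864) (N0 := 3)
    rfl rfl rfl k0_mm_102_a

noncomputable def f_mm_102_b : ℕ → ℕ → ℕ → ℕ → Bool := onCell 536870912 536870912 1239849684 370763052 67108864 67108864
    (rowNK 3 0 false false false .npp 1 0 2 (qsf 536870912 536870912 1239849684 370763052 0) ndN1q1 ndN2q2b pcN0 Cut.none Ext.none)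

def k0_mm_102_b : ∃ t, chk3 f_mm_102_b t 1 1 1 = true :=
  ⟨(l 5), by decide +kernel⟩

theorem c_mm_102_b : CertN 536870912 536870912 1239849684 370763052 67108864 67108864 3 false false false .npp 1 0 2
    ndN1q1 ndN2q2b pcN0 Cut.none Ext.none :=
  certNK0 (fam := false) (s1 := false) (s2 := false) (a := 1) (b := 0) (c := 2) (cn := .npp) (n1 := ndN1q1) (n2 := ndN2q2b) (pc := pcN0) (cut := Cut.none) (xt := Ext.none) (P1 := 536870912) (W1 := 536870912) (P2 := 1239849684) (W2 := 370763052) (P3 := 67108864) (W3 := 67108864) (N0 := 3)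
    rfl rfl rfl k0_mm_102_b

noncomputable def f_mm_112_a : ℕ → ℕ → ℕ → ℕ → Bool := onCell 536870912 536870912 0 536870912 67108864 67108864
    (rowNK 3 0 false false false .dn 1 1 2 (qsf 536870912 536870912 0 536870912 1) ndN1q1 ndN2q2a pcN1 Cut.none Ext.none)

def k0_mm_112_a : ∃ t, chk3 f_mm_112_a t 1 1 1 = true :=
  ⟨(l 3), by decide +kernel⟩

theorem c_mm_112_a : CertN 536870912 536870912 0 536870912 67108864 67108864 3 false false false .dn 1 1 2
    ndN1q1 ndN2q2a pcN1 Cut.none Ext.none :=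
  certNK0 (fam := false) (s1 := false) (s2 := false) (a := 1) (b := 1) (c := 2) (cn := .dn) (n1 := ndN1q1) (n2 := ndN2q2a) (pc := pcN1) (cut := Cut.none) (xt := Ext.none) (P1 := 536870912) (W1 := 536870912) (P2 := 0) (W2 := 536870912) (P3 := 67108864) (W3 := 67108864) (N0 := 3)
    rfl rfl rfl k0_mm_112_a

noncomputable def f_mm_112_b : ℕ → ℕ → ℕ → ℕ → Bool := onCell 536870912 536870912 1239849684 370763052 67108864 67108864
    (rowNK 3 0 false false false .dn 1 1 2 (qsf 536870912 536870912 1239849684 370763052 1) ndN1q1 ndN2q2b pcN1 Cut.none Ext.none)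

def k0_mm_112_b : ∃ t, chk3 f_mm_112_b t 1 1 1 = true :=
  ⟨(l 5), by decide +kernel⟩

theorem c_mm_112_b : CertN 536870912 536870912 1239849684 370763052 67108864 67108864 3 false false false .dn 1 1 2
    ndN1q1 ndN2q2b pcN1 Cut.none Ext.none :=
  certNK0 (fam := false) (s1 := false) (s2 := false) (a := 1) (b := 1) (c := 2) (cn := .dn) (n1 := ndN1q1) (n2 := ndN2q2b) (pc := pcN1) (cut := Cut.none) (xt := Ext.none) (P1 := 536870912) (W1 := 536870912) (P2 := 1239849684) (W2 := 370763052) (P3 := 67108864) (W3 := 67108864) (N0 := 3)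
    rfl rfl rfl k0_mm_112_b

noncomputable def f_mm_113 : ℕ → ℕ → ℕ → ℕ → Bool := onCell 536870912 536870912 1610612736 536870912 67108864 67108864
    (rowNK 3 0 false false false .nn 1 1 3 (qsf 536870912 536870912 1610612736 536870912 1) ndN1q1 ndN2q3 pcN1 Cut.none Ext.none)

def k0_mm_113 : ∃ t, chk3 f_mm_113 t 1 1 1 = true :=
  ⟨(l 5), by decide +kernel⟩

theorem c_mm_113 : CertN 536870912 536870912 1610612736 536870912 67108864 67108864 3 false false false .nn 1 1 3
    ndN1q1 ndN2q3 pcN1 Cut.none Ext.none :=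
  certNK0 (fam := false) (s1 := false) (s2 := false) (a := 1) (b := 1) (c := 3) (cn := .nn) (n1 := ndN1q1) (n2 := ndN2q3) (pc := pcN1) (cut := Cut.none) (xt := Ext.none) (P1 := 536870912) (W1 := 536870912) (P2 := 1610612736) (W2 := 536870912) (P3 := 67108864) (W3 := 67108864) (N0 := 3)
    rfl rfl rfl k0_mm_113

noncomputable def f_mm_123 : ℕ → ℕ → ℕ → ℕ → Bool := onCell 536870912 536870912 1610612736 536870912 67108864 67108864
    (rowNK 3 0 false false false .npn 1 2 3 (qsf 536870912 536870912 1610612736 536870912 2) ndN1q1 ndN2q3 pcN2 Cut.none Ext.none)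

def k0_mm_123 : ∃ t, chk3 f_mm_123 t 1 1 1 = true :=
  ⟨(l 5), by decide +kernel⟩

theorem c_mm_123 : CertN 536870912 536870912 1610612736 536870912 67108864 67108864 3 false false false .npn 1 2 3
    ndN1q1 ndN2q3 pcN2 Cut.none Ext.none :=
  certNK0 (fam := false) (s1 := false) (s2 := false) (a := 1) (b := 2) (c := 3) (cn := .npn) (n1 := ndN1q1) (n2 := ndN2q3) (pc := pcN2) (cut := Cut.none) (xt := Ext.none) (P1 := 536870912) (W1 := 536870912) (P2 := 1610612736) (W2 := 536870912) (P3 := 67108864) (W3 := 67108864) (N0 := 3)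
    rfl rfl rfl k0_mm_123

noncomputable def f_mm_133 : ℕ → ℕ → ℕ → ℕ → Bool := onCell 536870912 536870912 1610612736 536870912 67108864 67108864
    (rowNK 3 0 false false false .dn 1 3 3 (qsf 536870912 536870912 1610612736 536870912 3) ndN1q1 ndN2q3 pcN3 Cut.none Ext.none)

def k0_mm_133 : ∃ t, chk3 f_mm_133 t 1 1 1 = true :=
  ⟨(l 5), by decide +kernel⟩

theorem c_mm_133 : CertN 536870912 536870912 1610612736 536870912 67108864 67108864 3 false false false .dn 1 3 3
    ndN1q1 ndN2q3 pcN3 Cut.none Ext.none :=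
  certNK0 (fam := false) (s1 := false) (s2 := false) (a := 1) (b := 3) (c := 3) (cn := .dn) (n1 := ndN1q1) (n2 := ndN2q3) (pc := pcN3) (cut := Cut.none) (xt := Ext.none) (P1 := 536870912) (W1 := 536870912) (P2 := 1610612736) (W2 := 536870912) (P3 := 67108864) (W3 := 67108864) (N0 := 3)
    rfl rfl rfl k0_mm_133

noncomputable def f_mm_202_aa : ℕ → ℕ → ℕ → ℕ → Bool := onCell 0 536870912 0 536870912 67108864 67108864
    (rowNK 3 0 false false false .pp 2 0 2 (qsf 0 536870912 0 536870912 0) ndN1q2a ndN2q2a pcN0 Cut.none Ext.none)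

def k0_mm_202_aa : ∃ t, chk3 f_mm_202_aa t 1 1 1 = true :=
  ⟨(l 3), by decide +kernel⟩

theorem c_mm_202_aa : CertN 0 536870912 0 536870912 67108864 67108864 3 false false false .pp 2 0 2
    ndN1q2a ndN2q2a pcN0 Cut.none Ext.none :=
  certNK0 (fam := false) (s1 := false) (s2 := false) (a := 2) (b := 0) (c := 2) (cn := .pp) (n1 := ndN1q2a) (n2 := ndN2q2a) (pc := pcN0) (cut := Cut.none) (xt := Ext.none) (P1 := 0) (W1 := 536870912) (P2 := 0) (W2 := 536870912) (P3 := 67108864) (W3 := 67108864) (N0 := 3)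
    rfl rfl rfl k0_mm_202_aa

noncomputable def f_mm_202_ab : ℕ → ℕ → ℕ → ℕ → Bool := onCell 0 536870912 1239849684 370763052 67108864 67108864
    (rowNK 3 0 false false false .pp 2 0 2 (qsf 0 536870912 1239849684 370763052 0) ndN1q2a ndN2q2b pcN0 Cut.none Ext.none)

def k0_mm_202_ab : ∃ t, chk3 f_mm_202_ab t 1 1 1 = true :=
  ⟨(l 3), by decide +kernel⟩

theorem c_mm_202_ab : CertN 0 536870912 1239849684 370763052 67108864 67108864 3 false false false .pp 2 0 2
    ndN1q2a ndN2q2b pcN0 Cut.none Ext.none :=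
  certNK0 (fam := false) (s1 := false) (s2 := false) (a := 2) (b := 0) (c := 2) (cn := .pp) (n1 := ndN1q2a) (n2 := ndN2q2b) (pc := pcN0) (cut := Cut.none) (xt := Ext.none) (P1 := 0) (W1 := 536870912) (P2 := 1239849684) (W2 := 370763052) (P3 := 67108864) (W3 := 67108864) (N0 := 3)
    rfl rfl rfl k0_mm_202_ab

noncomputable def f_mm_202_ba : ℕ → ℕ → ℕ → ℕ → Bool := onCell 1239849684 370763052 0 536870912 67108864 67108864
    (rowNK 3 0 false false false .pp 2 0 2 (qsf 1239849684 370763052 0 536870912 0) ndN1q2b ndN2q2a pcN0 Cut.none Ext.none)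

def k0_mm_202_ba : ∃ t, chk3 f_mm_202_ba t 1 1 1 = true :=
  ⟨(l 3), by decide +kernel⟩

theorem c_mm_202_ba : CertN 1239849684 370763052 0 536870912 67108864 67108864 3 false false false .pp 2 0 2
    ndN1q2b ndN2q2a pcN0 Cut.none Ext.none :=
  certNK0 (fam := false) (s1 := false) (s2 := false) (a := 2) (b := 0) (c := 2) (cn := .pp) (n1 := ndN1q2b) (n2 := ndN2q2a) (pc := pcN0) (cut := Cut.none) (xt := Ext.none) (P1 := 1239849684) (W1 := 370763052) (P2 := 0) (W2 := 536870912) (P3 := 67108864) (W3 := 67108864) (N0 := 3)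
    rfl rfl rfl k0_mm_202_ba

noncomputable def f_mm_202_bb : ℕ → ℕ → ℕ → ℕ → Bool := onCell 1239849684 370763052 1239849684 370763052 67108864 67108864
    (rowNK 3 0 false false false .pp 2 0 2 (qsf 1239849684 370763052 1239849684 370763052 0) ndN1q2b ndN2q2b pcN0 Cut.none Ext.none)

def k0_mm_202_bb : ∃ t, chk3 f_mm_202_bb t 1 1 1 = true :=
  ⟨(l 3), by decide +kernel⟩

theorem c_mm_202_bb : CertN 1239849684 370763052 1239849684 370763052 67108864 67108864 3 false false false .pp 2 0 2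
    ndN1q2b ndN2q2b pcN0 Cut.none Ext.none :=
  certNK0 (fam := false) (s1 := false) (s2 := false) (a := 2) (b := 0) (c := 2) (cn := .pp) (n1 := ndN1q2b) (n2 := ndN2q2b) (pc := pcN0) (cut := Cut.none) (xt := Ext.none) (P1 := 1239849684) (W1 := 370763052) (P2 := 1239849684) (W2 := 370763052) (P3 := 67108864) (W3 := 67108864) (N0 := 3)
    rfl rfl rfl k0_mm_202_bb

noncomputable def f_mm_203_a : ℕ → ℕ → ℕ → ℕ → Bool := onCell 0 536870912 0 536870912 67108864 67108864
    (rowNK 3 1 false false false .up 2 0 3 (qsf 0 536870912 1610612736 536870912 0) ndN1q2a ndN2q3 pcN0 Cut.none Ext.none)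

def k0_mm_203_a : ∃ t, chk3 f_mm_203_a t 1 1 1 = true :=
  ⟨(l 3), by decide +kernel⟩

theorem c_mm_203_a : CertN 0 536870912 1610612736 536870912 67108864 67108864 3 false false false .up 2 0 3
    ndN1q2a ndN2q3 pcN0 Cut.none Ext.none :=
  certNK1 (fam := false) (s1 := false) (s2 := false) (a := 2) (b := 0) (c := 3) (cn := .up) (n1 := ndN1q2a) (n2 := ndN2q3) (pc := pcN0) (cut := Cut.none) (xt := Ext.none) (P1 := 0) (W1 := 536870912) (P2 := 1610612736) (W2 := 536870912) (P3 := 67108864) (W3 := 67108864) (N0 := 3)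
    rfl rfl rfl (fun _ => rfl) k0_mm_203_a

noncomputable def f_mm_203_b : ℕ → ℕ → ℕ → ℕ → Bool := onCell 1239849684 370763052 1610612736 536870912 67108864 67108864
    (rowNK 3 0 false false false .up 2 0 3 (qsf 1239849684 370763052 1610612736 536870912 0) ndN1q2b ndN2q3 pcN0 Cut.none Ext.none)

def k0_mm_203_b : ∃ t, chk3 f_mm_203_b t 1 1 1 = true :=
  ⟨(l 3), by decide +kernel⟩

theorem c_mm_203_b : CertN 1239849684 370763052 1610612736 536870912 67108864 67108864 3 false false false .up 2 0 3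
    ndN1q2b ndN2q3 pcN0 Cut.none Ext.none :=
  certNK0 (fam := false) (s1 := false) (s2 := false) (a := 2) (b := 0) (c := 3) (cn := .up) (n1 := ndN1q2b) (n2 := ndN2q3) (pc := pcN0) (cut := Cut.none) (xt := Ext.none) (P1 := 1239849684) (W1 := 370763052) (P2 := 1610612736) (W2 := 536870912) (P3 := 67108864) (W3 := 67108864) (N0 := 3)
    rfl rfl rfl k0_mm_203_b

noncomputable def f_mm_213_a : ℕ → ℕ → ℕ → ℕ → Bool := onCell 0 536870912 1610612736 536870912 67108864 67108864
    (rowNK 3 0 false false false .pnn 2 1 3 (qsf 0 536870912 1610612736 536870912 1) ndN1q2a ndN2q3 pcN1 Cut.none Ext.none)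

def k0_mm_213_a : ∃ t, chk3 f_mm_213_a t 1 1 1 = true :=
  ⟨(b (l 3) (l 5)), by decide +kernel⟩

theorem c_mm_213_a : CertN 0 536870912 1610612736 536870912 67108864 67108864 3 false false false .pnn 2 1 3
    ndN1q2a ndN2q3 pcN1 Cut.none Ext.none :=
  certNK0 (fam := false) (s1 := false) (s2 := false) (a := 2) (b := 1) (c := 3) (cn := .pnn) (n1 := ndN1q2a) (n2 := ndN2q3) (pc := pcN1) (cut := Cut.none) (xt := Ext.none) (P1 := 0) (W1 := 536870912) (P2 := 1610612736) (W2 := 536870912) (P3 := 67108864) (W3 := 67108864) (N0 := 3)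
    rfl rfl rfl k0_mm_213_a

noncomputable def f_mm_213_b : ℕ → ℕ → ℕ → ℕ → Bool := onCell 1239849684 370763052 1610612736 536870912 67108864 67108864
    (rowNK 3 0 false false false .pnn 2 1 3 (qsf 1239849684 370763052 1610612736 536870912 1) ndN1q2b ndN2q3 pcN1 Cut.none Ext.none)

def k0_mm_213_b : ∃ t, chk3 f_mm_213_b t 1 1 1 = true :=
  ⟨(l 3), by decide +kernel⟩

theorem c_mm_213_b : CertN 1239849684 370763052 1610612736 536870912 67108864 67108864 3 false false false .pnn 2 1 3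
    ndN1q2b ndN2q3 pcN1 Cut.none Ext.none :=
  certNK0 (fam := false) (s1 := false) (s2 := false) (a := 2) (b := 1) (c := 3) (cn := .pnn) (n1 := ndN1q2b) (n2 := ndN2q3) (pc := pcN1) (cut := Cut.none) (xt := Ext.none) (P1 := 1239849684) (W1 := 370763052) (P2 := 1610612736) (W2 := 536870912) (P3 := 67108864) (W3 := 67108864) (N0 := 3)
    rfl rfl rfl k0_mm_213_b

noncomputable def f_mm_303 : ℕ → ℕ → ℕ → ℕ → Bool := onCell 1610612736 536870912 1610612736 536870912 67108864 67108864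
    (rowNK 3 0 false false false .npn 3 0 3 (qsf 1610612736 536870912 1610612736 536870912 0) ndN1q3 ndN2q3 pcN0 Cut.none Ext.none)

def k0_mm_303 : ∃ t, chk3 f_mm_303 t 1 1 1 = true :=
  ⟨(l 3), by decide +kernel⟩

theorem c_mm_303 : CertN 1610612736 536870912 1610612736 536870912 67108864 67108864 3 false false false .npn 3 0 3
    ndN1q3 ndN2q3 pcN0 Cut.none Ext.none :=
  certNK0 (fam := false) (s1 := false) (s2 := false) (a := 3) (b := 0) (c := 3) (cn := .npn) (n1 := ndN1q3) (n2 := ndN2q3) (pc := pcN0) (cut := Cut.none) (xt := Ext.none) (P1 := 1610612736) (W1 := 536870912) (P2 := 1610612736) (W2 := 536870912) (P3 := 67108864) (W3 := 67108864) (N0 := 3)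
    rfl rfl rfl k0_mm_303

noncomputable def f_mm_313 : ℕ → ℕ → ℕ → ℕ → Bool := onCell 1610612736 536870912 1610612736 536870912 67108864 67108864
    (rowNK 3 0 false false false .dn 3 1 3 (qsf 1610612736 536870912 1610612736 536870912 1) ndN1q3 ndN2q3 pcN1 Cut.none Ext.none)

def k0_mm_313 : ∃ t, chk3 f_mm_313 t 1 1 1 = true :=
  ⟨(l 3), by decide +kernel⟩

theorem c_mm_313 : CertN 1610612736 536870912 1610612736 536870912 67108864 67108864 3 false false false .dn 3 1 3
    ndN1q3 ndN2q3 pcN1 Cut.none Ext.none :=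
  certNK0 (fam := false) (s1 := false) (s2 := false) (a := 3) (b := 1) (c := 3) (cn := .dn) (n1 := ndN1q3) (n2 := ndN2q3) (pc := pcN1) (cut := Cut.none) (xt := Ext.none) (P1 := 1610612736) (W1 := 536870912) (P2 := 1610612736) (W2 := 536870912) (P3 := 67108864) (W3 := 67108864) (N0 := 3)
    rfl rfl rfl k0_mm_313

end Pool.Agent.Strip051.G.I1_16_1_8.Tab.C.NB12

namespace Pool.Agent.Strip051.G.I1_16_1_8.Tab.C.NB13

open Pool.Agent.Strip051.PB Pool.Agent.Strip051.PB.T
open Pool.Agent.Strip051.G.I1_16_1_8.Tab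

noncomputable def f_pp_001 : ℕ → ℕ → ℕ → ℕ → Bool := onCell 0 536870912 0 536870912 67108864 67108864
    (rowNK 3 1 false true true .up 0 0 1 (qsf 0 536870912 536870912 536870912 0) ndN1q0 ndN3q1 pcN0 Cut.none Ext.none)

def k0_pp_001 : ∃ t, chk3 f_pp_001 t 1 1 1 = true :=
  ⟨(l 3), by decide +kernel⟩

theorem c_pp_001 : CertN 0 536870912 536870912 536870912 67108864 67108864 3 false true true .up 0 0 1
    ndN1q0 ndN3q1 pcN0 Cut.none Ext.none :=
  certNK1 (fam := false) (s1 := true) (s2 := true) (a := 0) (b := 0) (c := 1) (cn := .up) (n1 := ndN1q0) (n2 := ndN3q1) (pc := pcN0) (cut := Cut.none) (xt := Ext.none) (P1 := 0) (W1 := 536870912) (P2 := 536870912) (W2 := 536870912) (P3 := 67108864) (W3 := 67108864) (N0 := 3)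
    rfl rfl rfl (fun _ => rfl) k0_pp_001

noncomputable def cut_pp_011 : Cut := Cut.of [[⟨0, 0, 0, 67108864⟩, ⟨1, 1, 0, 67108864⟩, ⟨2, 1, 0, 67108864⟩]]

noncomputable def f_pp_011 : ℕ → ℕ → ℕ → ℕ → Bool := onCell 0 536870912 536870912 536870912 67108864 67108864
    (rowNK 3 1 false true true .pnn 0 1 1 (qsf 0 536870912 536870912 536870912 1) ndN1q0 ndN3q1 pcN1 cut_pp_011 Ext.none)

def k0_pp_011 : ∃ t, chk3 f_pp_011 t 1 1 1 = true :=
  ⟨(b (l 3) (b (l 3) (a (a (b (l 3) (a (b (l 3) (a (l 6) (l 3))) (l 3))) (l 3)) (l 2)))), by decide +kernel⟩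

theorem c_pp_011 : CertN 0 536870912 536870912 536870912 67108864 67108864 3 false true true .pnn 0 1 1
    ndN1q0 ndN3q1 pcN1 cut_pp_011 Ext.none :=
  certNK1 (fam := false) (s1 := true) (s2 := true) (a := 0) (b := 1) (c := 1) (cn := .pnn) (n1 := ndN1q0) (n2 := ndN3q1) (pc := pcN1) (cut := cut_pp_011) (xt := Ext.none) (P1 := 0) (W1 := 536870912) (P2 := 536870912) (W2 := 536870912) (P3 := 67108864) (W3 := 67108864) (N0 := 3)
    rfl rfl rfl (fun _ => rfl) k0_pp_011

noncomputable def f_pp_012 : ℕ → ℕ → ℕ → ℕ → Bool := onCell 0 536870912 536870912 536870912 67108864 67108864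
    (rowNK 3 1 false true true .pnp 0 1 2 (qsf 0 536870912 1073741824 536870912 1) ndN1q0 ndN3q2 pcN1 Cut.none Ext.none)

def k0_pp_012 : ∃ t, chk3 f_pp_012 t 1 1 1 = true :=
  ⟨(b (l 3) (a (l 3) (b (l 3) (a (l 3) (l 426982319159))))), by decide +kernel⟩

theorem c_pp_012 : CertN 0 536870912 1073741824 536870912 67108864 67108864 3 false true true .pnp 0 1 2
    ndN1q0 ndN3q2 pcN1 Cut.none Ext.none :=
  certNK1 (fam := false) (s1 := true) (s2 := true) (a := 0) (b := 1) (c := 2) (cn := .pnp) (n1 := ndN1q0) (n2 := ndN3q2) (pc := pcN1) (cut := Cut.none) (xt := Ext.none) (P1 := 0) (W1 := 536870912) (P2 := 1073741824) (W2 := 536870912) (P3 := 67108864) (W3 := 67108864) (N0 := 3)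
    rfl rfl rfl (fun _ => rfl) k0_pp_012

noncomputable def f_pp_022 : ℕ → ℕ → ℕ → ℕ → Bool := onCell 0 536870912 1073741824 536870912 67108864 67108864
    (rowNK 3 1 false true true .pp 0 2 2 (qsf 0 536870912 1073741824 536870912 2) ndN1q0 ndN3q2 pcN2 Cut.none Ext.none)

def k0_pp_022 : ∃ t, chk3 f_pp_022 t 1 1 1 = true :=
  ⟨(a (b (b (b (l 3) (a (a (l 3) (b (l 3) (l 17794336))) (b (l 17611976) (l 17720608)))) (b (a (a (b (b (a (l 1146389507399) (l 17982584)) (b (a (a (l 94659161223) (l 18094536)) (l 18079096)) (a (b (l 18029136) (b (l 18184600) (l 18203672))) (b (l 18122808) (l 18150808))))) (a (a (l 18364040) (l 18327864)) (l 18263264))) (b (b (l 17941312) (b (l 18001128) (b (l 18029592) (l 18048480)))) (l 18126728))) (b (b (l 17801968) (b (l 17826056) (l 17841272))) (l 17853936))) (a (a (a (l 18615800) (l 18476800)) (l 18279712)) (l 17887856)))) (a (b (a (l 18746448) (l 18367912)) (a (l 18776672) (l 18202168))) (b (l 17821152) (l 17766408))))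 (b (b (b (b (l 17503632) (a (l 17411760) (l 17416040))) (b (l 173578909975) (l 17601352))) (b (b (b (l 17433872) (l 17596520)) (l 17405816)) (l 17391008))) (b (a (l 17401576) (l 2)) (l 2)))), by decide +kernel⟩

theorem c_pp_022 : CertN 0 536870912 1073741824 536870912 67108864 67108864 3 false true true .pp 0 2 2
    ndN1q0 ndN3q2 pcN2 Cut.none Ext.none :=
  certNK1 (fam := false) (s1 := true) (s2 := true) (a := 0) (b := 2) (c := 2) (cn := .pp) (n1 := ndN1q0) (n2 := ndN3q2) (pc := pcN2) (cut := Cut.none) (xt := Ext.none) (P1 := 0) (W1 := 536870912) (P2 := 1073741824) (W2 := 536870912) (P3 := 67108864) (W3 := 67108864) (N0 := 3)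
    rfl rfl rfl (fun _ => rfl) k0_pp_022

noncomputable def f_pp_023 : ℕ → ℕ → ℕ → ℕ → Bool := onCell 1073741824 536870912 0 1230186008 67108864 67108864
    (rowNK 3 2 false true true .up 0 2 3 (qsf 0 536870912 0 1230186008 2) ndN1q0 ndN3q3 pcN2 Cut.none Ext.none)

def k0_pp_023 : ∃ t, chk3 f_pp_023 t 1 1 1 = true :=
  ⟨(a (b (l 2) (b (a (l 2) (l 17472336)) (b (a (l 2) (l 17600928)) (a (a (a (l 18271040) (l 18137624)) (l 18068984)) (a (l 17949960) (l 17793632)))))) (b (a (l 2) (l 17120800)) (b (a (l 17245536) (l 17188480)) (b (l 17545600) (a (l 17876160) (l 18003712)))))), by decide +kernel⟩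

theorem c_pp_023 : CertN 0 536870912 0 1230186008 67108864 67108864 3 false true true .up 0 2 3
    ndN1q0 ndN3q3 pcN2 Cut.none Ext.none :=
  certNK2 (fam := false) (s1 := true) (s2 := true) (a := 0) (b := 2) (c := 3) (cn := .up) (n1 := ndN1q0) (n2 := ndN3q3) (pc := pcN2) (cut := Cut.none) (xt := Ext.none) (P1 := 0) (W1 := 536870912) (P2 := 0) (W2 := 1230186008) (P3 := 67108864) (W3 := 67108864) (N0 := 3)
    rfl rfl rfl (fun _ => rfl) k0_pp_023

noncomputable def f_pp_033 : ℕ → ℕ → ℕ → ℕ → Bool := onCell 1610612736 536870912 0 1230186008 67108864 67108864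
    (rowNK 3 2 false true true .pnn 0 3 3 (qsf 0 536870912 0 1230186008 3) ndN1q0 ndN3q3 pcN3 Cut.none Ext.none)

def k0_pp_033 : ∃ t, chk3 f_pp_033 t 1 1 1 = true :=
  ⟨(b (b (a (a (l 17061512) (l 4)) (l 4)) (a (a (l 17007632) (a (l 17106784) (l 17294488))) (a (a (l 17186704) (l 17494776)) (l 4)))) (b (a (a (b (l 17682920) (l 18104344)) (b (l 17149344) (a (l 17802728) (l 17502056)))) (b (a (a (l 17486584) (l 17724416)) (a (l 17858888) (l 1))) (a (a (b (l 17357224) (l 17323096)) (l 741991287607)) (l 1)))) (a (b (a (b (l 17818880) (l 17749752)) (a (l 17637136) (b (l 17496152) (l 1)))) (a (a (b (l 18422872) (b (l 18389872) (l 17834728))) (b (b (l 18302464) (l 18421104)) (b (l 17973248) (l 1)))) (b (a (b (l 18259464) (l 1)) (l 1)) (l 1)))) (l 1)))), by decide +kernel⟩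

theorem c_pp_033 : CertN 0 536870912 0 1230186008 67108864 67108864 3 false true true .pnn 0 3 3
    ndN1q0 ndN3q3 pcN3 Cut.none Ext.none :=
  certNK2 (fam := false) (s1 := true) (s2 := true) (a := 0) (b := 3) (c := 3) (cn := .pnn) (n1 := ndN1q0) (n2 := ndN3q3) (pc := pcN3) (cut := Cut.none) (xt := Ext.none) (P1 := 0) (W1 := 536870912) (P2 := 0) (W2 := 1230186008) (P3 := 67108864) (W3 := 67108864) (N0 := 3)
    rfl rfl rfl (fun _ => rfl) k0_pp_033

noncomputable def f_pp_101 : ℕ → ℕ → ℕ → ℕ → Bool := onCell 536870912 536870912 536870912 536870912 67108864 67108864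
    (rowNK 3 0 false true true .npn 1 0 1 (qsf 536870912 536870912 536870912 536870912 0) ndN1q1 ndN3q1 pcN0 Cut.none Ext.none)

def k0_pp_101 : ∃ t, chk3 f_pp_101 t 1 1 1 = true :=
  ⟨(l 3), by decide +kernel⟩

theorem c_pp_101 : CertN 536870912 536870912 536870912 536870912 67108864 67108864 3 false true true .npn 1 0 1
    ndN1q1 ndN3q1 pcN0 Cut.none Ext.none :=
  certNK0 (fam := false) (s1 := true) (s2 := true) (a := 1) (b := 0) (c := 1) (cn := .npn) (n1 := ndN1q1) (n2 := ndN3q1) (pc := pcN0) (cut := Cut.none) (xt := Ext.none) (P1 := 536870912) (W1 := 536870912) (P2 := 536870912) (W2 := 536870912) (P3 := 67108864) (W3 := 67108864) (N0 := 3)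
    rfl rfl rfl k0_pp_101

noncomputable def f_pp_102 : ℕ → ℕ → ℕ → ℕ → Bool := onCell 536870912 536870912 0 536870912 67108864 67108864
    (rowNK 3 1 false true true .npp 1 0 2 (qsf 536870912 536870912 1073741824 536870912 0) ndN1q1 ndN3q2 pcN0 Cut.none Ext.none)

def k0_pp_102 : ∃ t, chk3 f_pp_102 t 1 1 1 = true :=
  ⟨(l 3), by decide +kernel⟩

theorem c_pp_102 : CertN 536870912 536870912 1073741824 536870912 67108864 67108864 3 false true true .npp 1 0 2
    ndN1q1 ndN3q2 pcN0 Cut.none Ext.none :=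
  certNK1 (fam := false) (s1 := true) (s2 := true) (a := 1) (b := 0) (c := 2) (cn := .npp) (n1 := ndN1q1) (n2 := ndN3q2) (pc := pcN0) (cut := Cut.none) (xt := Ext.none) (P1 := 536870912) (W1 := 536870912) (P2 := 1073741824) (W2 := 536870912) (P3 := 67108864) (W3 := 67108864) (N0 := 3)
    rfl rfl rfl (fun _ => rfl) k0_pp_102

noncomputable def f_pp_112 : ℕ → ℕ → ℕ → ℕ → Bool := onCell 536870912 536870912 1073741824 536870912 67108864 67108864
    (rowNK 3 2 false true true .dn 1 1 2 (qsf 536870912 536870912 1073741824 536870912 1) ndN1q1 ndN3q2 pcN1 Cut.none Ext.none)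

def k0_pp_112 : ∃ t, chk3 f_pp_112 t 1 1 1 = true :=
  ⟨(a (l 3) (b (l 3) (a (l 3) (b (l 3) (l 17865272))))), by decide +kernel⟩

theorem c_pp_112 : CertN 536870912 536870912 1073741824 536870912 67108864 67108864 3 false true true .dn 1 1 2
    ndN1q1 ndN3q2 pcN1 Cut.none Ext.none :=
  certNK2 (fam := false) (s1 := true) (s2 := true) (a := 1) (b := 1) (c := 2) (cn := .dn) (n1 := ndN1q1) (n2 := ndN3q2) (pc := pcN1) (cut := Cut.none) (xt := Ext.none) (P1 := 536870912) (W1 := 536870912) (P2 := 1073741824) (W2 := 536870912) (P3 := 67108864) (W3 := 67108864) (N0 := 3)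
    rfl rfl rfl (fun _ => rfl) k0_pp_112

noncomputable def f_pp_113 : ℕ → ℕ → ℕ → ℕ → Bool := onCell 536870912 536870912 0 1230186008 67108864 67108864
    (rowNK 3 2 false true true .nn 1 1 3 (qsf 536870912 536870912 0 1230186008 1) ndN1q1 ndN3q3 pcN1 Cut.none Ext.none)

def k0_pp_113 : ∃ t, chk3 f_pp_113 t 1 1 1 = true :=
  ⟨(a (b (l 2) (b (b (l 2) (l 3)) (a (l 3) (l 3)))) (b (a (l 2) (a (a (l 865002049831) (l 17428504)) (a (l 17104472) (l 16932928)))) (b (a (b (l 733468275335) (l 205790953207)) (b (l 17386272) (l 17975504))) (a (b (l 602002906135) (l 3)) (b (l 18806080) (l 19040968)))))), by decide +kernel⟩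

theorem c_pp_113 : CertN 536870912 536870912 0 1230186008 67108864 67108864 3 false true true .nn 1 1 3
    ndN1q1 ndN3q3 pcN1 Cut.none Ext.none :=
  certNK2 (fam := false) (s1 := true) (s2 := true) (a := 1) (b := 1) (c := 3) (cn := .nn) (n1 := ndN1q1) (n2 := ndN3q3) (pc := pcN1) (cut := Cut.none) (xt := Ext.none) (P1 := 536870912) (W1 := 536870912) (P2 := 0) (W2 := 1230186008) (P3 := 67108864) (W3 := 67108864) (N0 := 3)
    rfl rfl rfl (fun _ => rfl) k0_pp_113

noncomputable def f_pp_123 : ℕ → ℕ → ℕ → ℕ → Bool := onCell 1073741824 536870912 0 1230186008 67108864 67108864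
    (rowNK 3 2 false true true .npn 1 2 3 (qsf 536870912 536870912 0 1230186008 2) ndN1q1 ndN3q3 pcN2 Cut.none Ext.none)

def k0_pp_123 : ∃ t, chk3 f_pp_123 t 1 1 1 = true :=
  ⟨(b (a (a (a (a (l 17278400) (l 17428416)) (l 17890288)) (a (l 17930400) (l 18133840))) (a (l 18350032) (l 18321200))) (b (a (a (a (a (l 18276256) (l 18331832)) (l 18417432)) (l 18593912)) (a (l 18436016) (l 18119728))) (a (a (a (a (l 19188720) (b (l 18982040) (l 19233424))) (b (l 18958552) (l 19126576))) (a (l 284580056743) (l 18701448))) (l 1)))), by decide +kernel⟩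

theorem c_pp_123 : CertN 536870912 536870912 0 1230186008 67108864 67108864 3 false true true .npn 1 2 3
    ndN1q1 ndN3q3 pcN2 Cut.none Ext.none :=
  certNK2 (fam := false) (s1 := true) (s2 := true) (a := 1) (b := 2) (c := 3) (cn := .npn) (n1 := ndN1q1) (n2 := ndN3q3) (pc := pcN2) (cut := Cut.none) (xt := Ext.none) (P1 := 536870912) (W1 := 536870912) (P2 := 0) (W2 := 1230186008) (P3 := 67108864) (W3 := 67108864) (N0 := 3)
    rfl rfl rfl (fun _ => rfl) k0_pp_123

noncomputable def f_pp_133 : ℕ → ℕ → ℕ → ℕ → Bool := onCell 536870912 536870912 0 1230186008 67108864 67108864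
    (rowNK 3 0 false true true .dn 1 3 3 (qsf 536870912 536870912 0 1230186008 3) ndN1q1 ndN3q3 pcN3 Cut.none Ext.none)

def k0_pp_133 : ∃ t, chk3 f_pp_133 t 1 1 1 = true :=
  ⟨(b (b (a (a (l 18134224) (l 1)) (l 1)) (l 1)) (l 1)), by decide +kernel⟩

theorem c_pp_133 : CertN 536870912 536870912 0 1230186008 67108864 67108864 3 false true true .dn 1 3 3
    ndN1q1 ndN3q3 pcN3 Cut.none Ext.none :=
  certNK0 (fam := false) (s1 := true) (s2 := true) (a := 1) (b := 3) (c := 3) (cn := .dn) (n1 := ndN1q1) (n2 := ndN3q3) (pc := pcN3) (cut := Cut.none) (xt := Ext.none) (P1 := 536870912) (W1 := 536870912) (P2 := 0) (W2 := 1230186008) (P3 := 67108864) (W3 := 67108864) (N0 := 3)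
    rfl rfl rfl k0_pp_133

noncomputable def f_pp_202_a : ℕ → ℕ → ℕ → ℕ → Bool := onCell 0 536870912 1073741824 536870912 67108864 67108864
    (rowNK 3 0 false true true .pp 2 0 2 (qsf 0 536870912 1073741824 536870912 0) ndN1q2a ndN3q2 pcN0 Cut.none Ext.none)

def k0_pp_202_a : ∃ t, chk3 f_pp_202_a t 1 1 1 = true :=
  ⟨(l 3), by decide +kernel⟩

theorem c_pp_202_a : CertN 0 536870912 1073741824 536870912 67108864 67108864 3 false true true .pp 2 0 2
    ndN1q2a ndN3q2 pcN0 Cut.none Ext.none :=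
  certNK0 (fam := false) (s1 := true) (s2 := true) (a := 2) (b := 0) (c := 2) (cn := .pp) (n1 := ndN1q2a) (n2 := ndN3q2) (pc := pcN0) (cut := Cut.none) (xt := Ext.none) (P1 := 0) (W1 := 536870912) (P2 := 1073741824) (W2 := 536870912) (P3 := 67108864) (W3 := 67108864) (N0 := 3)
    rfl rfl rfl k0_pp_202_a

noncomputable def f_pp_202_b : ℕ → ℕ → ℕ → ℕ → Bool := onCell 1239849684 370763052 1073741824 536870912 67108864 67108864
    (rowNK 3 0 false true true .pp 2 0 2 (qsf 1239849684 370763052 1073741824 536870912 0) ndN1q2b ndN3q2 pcN0 Cut.none Ext.none)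

def k0_pp_202_b : ∃ t, chk3 f_pp_202_b t 1 1 1 = true :=
  ⟨(l 3), by decide +kernel⟩

theorem c_pp_202_b : CertN 1239849684 370763052 1073741824 536870912 67108864 67108864 3 false true true .pp 2 0 2
    ndN1q2b ndN3q2 pcN0 Cut.none Ext.none :=
  certNK0 (fam := false) (s1 := true) (s2 := true) (a := 2) (b := 0) (c := 2) (cn := .pp) (n1 := ndN1q2b) (n2 := ndN3q2) (pc := pcN0) (cut := Cut.none) (xt := Ext.none) (P1 := 1239849684) (W1 := 370763052) (P2 := 1073741824) (W2 := 536870912) (P3 := 67108864) (W3 := 67108864) (N0 := 3)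
    rfl rfl rfl k0_pp_202_b

noncomputable def f_pp_203_a : ℕ → ℕ → ℕ → ℕ → Bool := onCell 0 536870912 0 1230186008 67108864 67108864
    (rowNK 3 0 false true true .up 2 0 3 (qsf 0 536870912 0 1230186008 0) ndN1q2a ndN3q3 pcN0 Cut.none Ext.none)

def k0_pp_203_a : ∃ t, chk3 f_pp_203_a t 1 1 1 = true :=
  ⟨(b (l 2) (l 3)), by decide +kernel⟩

theorem c_pp_203_a : CertN 0 536870912 0 1230186008 67108864 67108864 3 false true true .up 2 0 3
    ndN1q2a ndN3q3 pcN0 Cut.none Ext.none :=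
  certNK0 (fam := false) (s1 := true) (s2 := true) (a := 2) (b := 0) (c := 3) (cn := .up) (n1 := ndN1q2a) (n2 := ndN3q3) (pc := pcN0) (cut := Cut.none) (xt := Ext.none) (P1 := 0) (W1 := 536870912) (P2 := 0) (W2 := 1230186008) (P3 := 67108864) (W3 := 67108864) (N0 := 3)
    rfl rfl rfl k0_pp_203_a

noncomputable def f_pp_203_b : ℕ → ℕ → ℕ → ℕ → Bool := onCell 1239849684 370763052 0 1230186008 67108864 67108864
    (rowNK 3 0 false true true .up 2 0 3 (qsf 1239849684 370763052 0 1230186008 0) ndN1q2b ndN3q3 pcN0 Cut.none Ext.none)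

def k0_pp_203_b : ∃ t, chk3 f_pp_203_b t 1 1 1 = true :=
  ⟨(b (l 3) (l 3)), by decide +kernel⟩

theorem c_pp_203_b : CertN 1239849684 370763052 0 1230186008 67108864 67108864 3 false true true .up 2 0 3
    ndN1q2b ndN3q3 pcN0 Cut.none Ext.none :=
  certNK0 (fam := false) (s1 := true) (s2 := true) (a := 2) (b := 0) (c := 3) (cn := .up) (n1 := ndN1q2b) (n2 := ndN3q3) (pc := pcN0) (cut := Cut.none) (xt := Ext.none) (P1 := 1239849684) (W1 := 370763052) (P2 := 0) (W2 := 1230186008) (P3 := 67108864) (W3 := 67108864) (N0 := 3)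
    rfl rfl rfl k0_pp_203_b

noncomputable def cut_pp_213_a : Cut := Cut.of [[⟨0, 1, 0, 21338704⟩, ⟨1, 1, 0, 21338704⟩, ⟨2, 2, 0, 1685920⟩]]

noncomputable def f_pp_213_a : ℕ → ℕ → ℕ → ℕ → Bool := onCell 0 536870912 0 1230186008 67108864 67108864
    (rowNK 3 0 false true true .pnn 2 1 3 (qsf 0 536870912 0 1230186008 1) ndN1q2a ndN3q3 pcN1 cut_pp_213_a Ext.none)

def k0_pp_213_a : ∃ t, chk3 f_pp_213_a t 1 1 1 = true :=
  ⟨(b (a (l 3) (b (a (l 3) (b (a (l 3) (b (a (l 3) (b (a (l 3) (l 6)) (l 3))) (l 3))) (l 3))) (l 3))) (l 3)), by decide +kernel⟩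

theorem c_pp_213_a : CertN 0 536870912 0 1230186008 67108864 67108864 3 false true true .pnn 2 1 3
    ndN1q2a ndN3q3 pcN1 cut_pp_213_a Ext.none :=
  certNK0 (fam := false) (s1 := true) (s2 := true) (a := 2) (b := 1) (c := 3) (cn := .pnn) (n1 := ndN1q2a) (n2 := ndN3q3) (pc := pcN1) (cut := cut_pp_213_a) (xt := Ext.none) (P1 := 0) (W1 := 536870912) (P2 := 0) (W2 := 1230186008) (P3 := 67108864) (W3 := 67108864) (N0 := 3)
    rfl rfl rfl k0_pp_213_a

noncomputable def cut_pp_213_b : Cut := Cut.of [[⟨0, 1, 0, 21338704⟩, ⟨1, 1, 0, 21338704⟩, ⟨2, 2, 0, 1685920⟩]]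

noncomputable def f_pp_213_b : ℕ → ℕ → ℕ → ℕ → Bool := onCell 1239849684 370763052 0 1230186008 67108864 67108864
    (rowNK 3 0 false true true .pnn 2 1 3 (qsf 1239849684 370763052 0 1230186008 1) ndN1q2b ndN3q3 pcN1 cut_pp_213_b Ext.none)

def k0_pp_213_b : ∃ t, chk3 f_pp_213_b t 1 1 1 = true :=
  ⟨(b (l 3) (l 3)), by decide +kernel⟩

theorem c_pp_213_b : CertN 1239849684 370763052 0 1230186008 67108864 67108864 3 false true true .pnn 2 1 3
    ndN1q2b ndN3q3 pcN1 cut_pp_213_b Ext.none :=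
  certNK0 (fam := false) (s1 := true) (s2 := true) (a := 2) (b := 1) (c := 3) (cn := .pnn) (n1 := ndN1q2b) (n2 := ndN3q3) (pc := pcN1) (cut := cut_pp_213_b) (xt := Ext.none) (P1 := 1239849684) (W1 := 370763052) (P2 := 0) (W2 := 1230186008) (P3 := 67108864) (W3 := 67108864) (N0 := 3)
    rfl rfl rfl k0_pp_213_b

noncomputable def f_pp_303 : ℕ → ℕ → ℕ → ℕ → Bool := onCell 1610612736 536870912 0 1230186008 67108864 67108864
    (rowNK 3 0 false true true .npn 3 0 3 (qsf 1610612736 536870912 0 1230186008 0) ndN1q3 ndN3q3 pcN0 Cut.none Ext.none)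

def k0_pp_303 : ∃ t, chk3 f_pp_303 t 1 1 1 = true :=
  ⟨(b (l 3) (l 3)), by decide +kernel⟩

theorem c_pp_303 : CertN 1610612736 536870912 0 1230186008 67108864 67108864 3 false true true .npn 3 0 3
    ndN1q3 ndN3q3 pcN0 Cut.none Ext.none :=
  certNK0 (fam := false) (s1 := true) (s2 := true) (a := 3) (b := 0) (c := 3) (cn := .npn) (n1 := ndN1q3) (n2 := ndN3q3) (pc := pcN0) (cut := Cut.none) (xt := Ext.none) (P1 := 1610612736) (W1 := 536870912) (P2 := 0) (W2 := 1230186008) (P3 := 67108864) (W3 := 67108864) (N0 := 3)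
    rfl rfl rfl k0_pp_303

noncomputable def f_pp_313 : ℕ → ℕ → ℕ → ℕ → Bool := onCell 1610612736 536870912 0 1230186008 67108864 67108864
    (rowNK 3 0 false true true .dn 3 1 3 (qsf 1610612736 536870912 0 1230186008 1) ndN1q3 ndN3q3 pcN1 Cut.none Ext.none)

def k0_pp_313 : ∃ t, chk3 f_pp_313 t 1 1 1 = true :=
  ⟨(b (l 3) (l 1)), by decide +kernel⟩

theorem c_pp_313 : CertN 1610612736 536870912 0 1230186008 67108864 67108864 3 false true true .dn 3 1 3
    ndN1q3 ndN3q3 pcN1 Cut.none Ext.none :=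
  certNK0 (fam := false) (s1 := true) (s2 := true) (a := 3) (b := 1) (c := 3) (cn := .dn) (n1 := ndN1q3) (n2 := ndN3q3) (pc := pcN1) (cut := Cut.none) (xt := Ext.none) (P1 := 1610612736) (W1 := 536870912) (P2 := 0) (W2 := 1230186008) (P3 := 67108864) (W3 := 67108864) (N0 := 3)
    rfl rfl rfl k0_pp_313

noncomputable def f_pm_001 : ℕ → ℕ → ℕ → ℕ → Bool := onCell 0 536870912 536870912 536870912 67108864 67108864
    (rowNK 3 0 false true false .up 0 0 1 (qsf 0 536870912 536870912 536870912 0) ndN1q0 ndN3q1 pcN0 Cut.none Ext.none)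

def k0_pm_001 : ∃ t, chk3 f_pm_001 t 1 1 1 = true :=
  ⟨(l 4), by decide +kernel⟩

theorem c_pm_001 : CertN 0 536870912 536870912 536870912 67108864 67108864 3 false true false .up 0 0 1
    ndN1q0 ndN3q1 pcN0 Cut.none Ext.none :=
  certNK0 (fam := false) (s1 := true) (s2 := false) (a := 0) (b := 0) (c := 1) (cn := .up) (n1 := ndN1q0) (n2 := ndN3q1) (pc := pcN0) (cut := Cut.none) (xt := Ext.none) (P1 := 0) (W1 := 536870912) (P2 := 536870912) (W2 := 536870912) (P3 := 67108864) (W3 := 67108864) (N0 := 3)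
    rfl rfl rfl k0_pm_001

noncomputable def f_pm_011 : ℕ → ℕ → ℕ → ℕ → Bool := onCell 0 536870912 536870912 536870912 67108864 67108864
    (rowNK 3 0 false true false .pnn 0 1 1 (qsf 0 536870912 536870912 536870912 1) ndN1q0 ndN3q1 pcN1 Cut.none Ext.none)

def k0_pm_011 : ∃ t, chk3 f_pm_011 t 1 1 1 = true :=
  ⟨(l 4), by decide +kernel⟩

theorem c_pm_011 : CertN 0 536870912 536870912 536870912 67108864 67108864 3 false true false .pnn 0 1 1
    ndN1q0 ndN3q1 pcN1 Cut.none Ext.none :=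
  certNK0 (fam := false) (s1 := true) (s2 := false) (a := 0) (b := 1) (c := 1) (cn := .pnn) (n1 := ndN1q0) (n2 := ndN3q1) (pc := pcN1) (cut := Cut.none) (xt := Ext.none) (P1 := 0) (W1 := 536870912) (P2 := 536870912) (W2 := 536870912) (P3 := 67108864) (W3 := 67108864) (N0 := 3)
    rfl rfl rfl k0_pm_011

noncomputable def f_pm_012 : ℕ → ℕ → ℕ → ℕ → Bool := onCell 0 536870912 1073741824 536870912 67108864 67108864
    (rowNK 3 0 false true false .pnp 0 1 2 (qsf 0 536870912 1073741824 536870912 1) ndN1q0 ndN3q2 pcN1 Cut.none Ext.none)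

def k0_pm_012 : ∃ t, chk3 f_pm_012 t 1 1 1 = true :=
  ⟨(l 4), by decide +kernel⟩

theorem c_pm_012 : CertN 0 536870912 1073741824 536870912 67108864 67108864 3 false true false .pnp 0 1 2
    ndN1q0 ndN3q2 pcN1 Cut.none Ext.none :=
  certNK0 (fam := false) (s1 := true) (s2 := false) (a := 0) (b := 1) (c := 2) (cn := .pnp) (n1 := ndN1q0) (n2 := ndN3q2) (pc := pcN1) (cut := Cut.none) (xt := Ext.none) (P1 := 0) (W1 := 536870912) (P2 := 1073741824) (W2 := 536870912) (P3 := 67108864) (W3 := 67108864) (N0 := 3)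
    rfl rfl rfl k0_pm_012

noncomputable def f_pm_022 : ℕ → ℕ → ℕ → ℕ → Bool := onCell 0 536870912 1073741824 536870912 67108864 67108864
    (rowNK 3 0 false true false .pp 0 2 2 (qsf 0 536870912 1073741824 536870912 2) ndN1q0 ndN3q2 pcN2 Cut.none Ext.none)

def k0_pm_022 : ∃ t, chk3 f_pm_022 t 1 1 1 = true :=
  ⟨(l 4), by decide +kernel⟩

theorem c_pm_022 : CertN 0 536870912 1073741824 536870912 67108864 67108864 3 false true false .pp 0 2 2
    ndN1q0 ndN3q2 pcN2 Cut.none Ext.none :=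
  certNK0 (fam := false) (s1 := true) (s2 := false) (a := 0) (b := 2) (c := 2) (cn := .pp) (n1 := ndN1q0) (n2 := ndN3q2) (pc := pcN2) (cut := Cut.none) (xt := Ext.none) (P1 := 0) (W1 := 536870912) (P2 := 1073741824) (W2 := 536870912) (P3 := 67108864) (W3 := 67108864) (N0 := 3)
    rfl rfl rfl k0_pm_022

noncomputable def f_pm_023 : ℕ → ℕ → ℕ → ℕ → Bool := onCell 0 536870912 0 1230186008 67108864 67108864
    (rowNK 3 0 false true false .up 0 2 3 (qsf 0 536870912 0 1230186008 2) ndN1q0 ndN3q3 pcN2 Cut.none Ext.none)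

def k0_pm_023 : ∃ t, chk3 f_pm_023 t 1 1 1 = true :=
  ⟨(b (b (a (l 2) (l 4)) (l 4)) (l 4)), by decide +kernel⟩

theorem c_pm_023 : CertN 0 536870912 0 1230186008 67108864 67108864 3 false true false .up 0 2 3
    ndN1q0 ndN3q3 pcN2 Cut.none Ext.none :=
  certNK0 (fam := false) (s1 := true) (s2 := false) (a := 0) (b := 2) (c := 3) (cn := .up) (n1 := ndN1q0) (n2 := ndN3q3) (pc := pcN2) (cut := Cut.none) (xt := Ext.none) (P1 := 0) (W1 := 536870912) (P2 := 0) (W2 := 1230186008) (P3 := 67108864) (W3 := 67108864) (N0 := 3)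
    rfl rfl rfl k0_pm_023

noncomputable def f_pm_033 : ℕ → ℕ → ℕ → ℕ → Bool := onCell 0 536870912 0 1230186008 67108864 67108864
    (rowNK 3 0 false true false .pnn 0 3 3 (qsf 0 536870912 0 1230186008 3) ndN1q0 ndN3q3 pcN3 Cut.none Ext.none)

def k0_pm_033 : ∃ t, chk3 f_pm_033 t 1 1 1 = true :=
  ⟨(b (a (l 4) (b (l 4) (l 4))) (l 4)), by decide +kernel⟩

theorem c_pm_033 : CertN 0 536870912 0 1230186008 67108864 67108864 3 false true false .pnn 0 3 3
    ndN1q0 ndN3q3 pcN3 Cut.none Ext.none :=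
  certNK0 (fam := false) (s1 := true) (s2 := false) (a := 0) (b := 3) (c := 3) (cn := .pnn) (n1 := ndN1q0) (n2 := ndN3q3) (pc := pcN3) (cut := Cut.none) (xt := Ext.none) (P1 := 0) (W1 := 536870912) (P2 := 0) (W2 := 1230186008) (P3 := 67108864) (W3 := 67108864) (N0 := 3)
    rfl rfl rfl k0_pm_033

noncomputable def f_pm_101 : ℕ → ℕ → ℕ → ℕ → Bool := onCell 536870912 536870912 536870912 536870912 67108864 67108864
    (rowNK 3 0 false true false .npn 1 0 1 (qsf 536870912 536870912 536870912 536870912 0) ndN1q1 ndN3q1 pcN0 Cut.none Ext.none)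

def k0_pm_101 : ∃ t, chk3 f_pm_101 t 1 1 1 = true :=
  ⟨(l 4), by decide +kernel⟩

theorem c_pm_101 : CertN 536870912 536870912 536870912 536870912 67108864 67108864 3 false true false .npn 1 0 1
    ndN1q1 ndN3q1 pcN0 Cut.none Ext.none :=
  certNK0 (fam := false) (s1 := true) (s2 := false) (a := 1) (b := 0) (c := 1) (cn := .npn) (n1 := ndN1q1) (n2 := ndN3q1) (pc := pcN0) (cut := Cut.none) (xt := Ext.none) (P1 := 536870912) (W1 := 536870912) (P2 := 536870912) (W2 := 536870912) (P3 := 67108864) (W3 := 67108864) (N0 := 3)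
    rfl rfl rfl k0_pm_101

noncomputable def f_pm_102 : ℕ → ℕ → ℕ → ℕ → Bool := onCell 536870912 536870912 1073741824 536870912 67108864 67108864
    (rowNK 3 0 false true false .npp 1 0 2 (qsf 536870912 536870912 1073741824 536870912 0) ndN1q1 ndN3q2 pcN0 Cut.none Ext.none)

def k0_pm_102 : ∃ t, chk3 f_pm_102 t 1 1 1 = true :=
  ⟨(l 4), by decide +kernel⟩

theorem c_pm_102 : CertN 536870912 536870912 1073741824 536870912 67108864 67108864 3 false true false .npp 1 0 2
    ndN1q1 ndN3q2 pcN0 Cut.none Ext.none :=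
  certNK0 (fam := false) (s1 := true) (s2 := false) (a := 1) (b := 0) (c := 2) (cn := .npp) (n1 := ndN1q1) (n2 := ndN3q2) (pc := pcN0) (cut := Cut.none) (xt := Ext.none) (P1 := 536870912) (W1 := 536870912) (P2 := 1073741824) (W2 := 536870912) (P3 := 67108864) (W3 := 67108864) (N0 := 3)
    rfl rfl rfl k0_pm_102

noncomputable def f_pm_112 : ℕ → ℕ → ℕ → ℕ → Bool := onCell 536870912 536870912 1073741824 536870912 67108864 67108864
    (rowNK 3 0 false true false .dn 1 1 2 (qsf 536870912 536870912 1073741824 536870912 1) ndN1q1 ndN3q2 pcN1 Cut.none Ext.none)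

def k0_pm_112 : ∃ t, chk3 f_pm_112 t 1 1 1 = true :=
  ⟨(l 4), by decide +kernel⟩

theorem c_pm_112 : CertN 536870912 536870912 1073741824 536870912 67108864 67108864 3 false true false .dn 1 1 2
    ndN1q1 ndN3q2 pcN1 Cut.none Ext.none :=
  certNK0 (fam := false) (s1 := true) (s2 := false) (a := 1) (b := 1) (c := 2) (cn := .dn) (n1 := ndN1q1) (n2 := ndN3q2) (pc := pcN1) (cut := Cut.none) (xt := Ext.none) (P1 := 536870912) (W1 := 536870912) (P2 := 1073741824) (W2 := 536870912) (P3 := 67108864) (W3 := 67108864) (N0 := 3)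
    rfl rfl rfl k0_pm_112

noncomputable def f_pm_113 : ℕ → ℕ → ℕ → ℕ → Bool := onCell 536870912 536870912 0 1230186008 67108864 67108864
    (rowNK 3 2 false true false .nn 1 1 3 (qsf 536870912 536870912 0 1230186008 1) ndN1q1 ndN3q3 pcN1 Cut.none Ext.none)

def k0_pm_113 : ∃ t, chk3 f_pm_113 t 1 1 1 = true :=
  ⟨(b (a (l 2) (a (l 2) (a (b (l 2) (l 17399064)) (a (b (l 2) (l 17166368)) (l 17129432))))) (b (a (a (l 2) (b (l 2) (a (l 2) (b (l 2) (l 17977144))))) (a (a (b (l 2) (l 202503579127)) (b (l 17215768) (l 17407480))) (a (l 17873632) (a (l 18074768) (l 18326160))))) (a (b (a (l 2) (a (l 373229665479) (l 17589440))) (l 17948488)) (l 133918711031)))), by decide +kernel⟩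

theorem c_pm_113 : CertN 536870912 536870912 0 1230186008 67108864 67108864 3 false true false .nn 1 1 3
    ndN1q1 ndN3q3 pcN1 Cut.none Ext.none :=
  certNK2 (fam := false) (s1 := true) (s2 := false) (a := 1) (b := 1) (c := 3) (cn := .nn) (n1 := ndN1q1) (n2 := ndN3q3) (pc := pcN1) (cut := Cut.none) (xt := Ext.none) (P1 := 536870912) (W1 := 536870912) (P2 := 0) (W2 := 1230186008) (P3 := 67108864) (W3 := 67108864) (N0 := 3)
    rfl rfl rfl (fun _ => rfl) k0_pm_113

noncomputable def f_pm_123 : ℕ → ℕ → ℕ → ℕ → Bool := onCell 1073741824 536870912 0 1230186008 67108864 67108864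
    (rowNK 3 2 false true false .npn 1 2 3 (qsf 536870912 536870912 0 1230186008 2) ndN1q1 ndN3q3 pcN2 Cut.none Ext.none)

def k0_pm_123 : ∃ t, chk3 f_pm_123 t 1 1 1 = true :=
  ⟨(b (a (a (l 17816296) (l 18319752)) (a (l 18245848) (l 18294296))) (a (b (a (l 18664520) (l 4)) (l 4)) (l 4))), by decide +kernel⟩

theorem c_pm_123 : CertN 536870912 536870912 0 1230186008 67108864 67108864 3 false true false .npn 1 2 3
    ndN1q1 ndN3q3 pcN2 Cut.none Ext.none :=
  certNK2 (fam := false) (s1 := true) (s2 := false) (a := 1) (b := 2) (c := 3) (cn := .npn) (n1 := ndN1q1) (n2 := ndN3q3) (pc := pcN2) (cut := Cut.none) (xt := Ext.none) (P1 := 536870912) (W1 := 536870912) (P2 := 0) (W2 := 1230186008) (P3 := 67108864) (W3 := 67108864) (N0 := 3)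
    rfl rfl rfl (fun _ => rfl) k0_pm_123

noncomputable def f_pm_133 : ℕ → ℕ → ℕ → ℕ → Bool := onCell 1610612736 536870912 0 1230186008 67108864 67108864
    (rowNK 3 2 false true false .dn 1 3 3 (qsf 536870912 536870912 0 1230186008 3) ndN1q1 ndN3q3 pcN3 Cut.none Ext.none)

def k0_pm_133 : ∃ t, chk3 f_pm_133 t 1 1 1 = true :=
  ⟨(a (b (b (l 4) (l 1)) (l 1)) (l 1)), by decide +kernel⟩

theorem c_pm_133 : CertN 536870912 536870912 0 1230186008 67108864 67108864 3 false true false .dn 1 3 3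
    ndN1q1 ndN3q3 pcN3 Cut.none Ext.none :=
  certNK2 (fam := false) (s1 := true) (s2 := false) (a := 1) (b := 3) (c := 3) (cn := .dn) (n1 := ndN1q1) (n2 := ndN3q3) (pc := pcN3) (cut := Cut.none) (xt := Ext.none) (P1 := 536870912) (W1 := 536870912) (P2 := 0) (W2 := 1230186008) (P3 := 67108864) (W3 := 67108864) (N0 := 3)
    rfl rfl rfl (fun _ => rfl) k0_pm_133

noncomputable def f_pm_202_a : ℕ → ℕ → ℕ → ℕ → Bool := onCell 0 536870912 0 536870912 67108864 67108864
    (rowNK 3 1 false true false .pp 2 0 2 (qsf 0 536870912 1073741824 536870912 0) ndN1q2a ndN3q2 pcN0 Cut.none Ext.none)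

def k0_pm_202_a : ∃ t, chk3 f_pm_202_a t 1 1 1 = true :=
  ⟨(b (b (a (b (b (l 18002312) (l 17707104)) (a (l 17910232) (l 17816880))) (b (a (l 18809672) (l 18945248)) (a (l 18056696) (l 18647408)))) (a (b (a (l 17945920) (l 17787080)) (l 17837088)) (b (a (l 17794088) (l 17952336)) (a (l 17645984) (l 17738800))))) (b (a (b (a (l 17724360) (a (l 17666888) (l 17605304))) (l 17602096)) (b (a (a (l 17568120) (l 17569856)) (l 17830464)) (a (a (l 17486920) (l 17438672)) (a (l 17595120) (l 17923264))))) (a (l 1222557621847) (b (a (l 17403160) (l 17545424)) (a (l 2) (l 17403608)))))), by decide +kernel⟩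

theorem c_pm_202_a : CertN 0 536870912 1073741824 536870912 67108864 67108864 3 false true false .pp 2 0 2
    ndN1q2a ndN3q2 pcN0 Cut.none Ext.none :=
  certNK1 (fam := false) (s1 := true) (s2 := false) (a := 2) (b := 0) (c := 2) (cn := .pp) (n1 := ndN1q2a) (n2 := ndN3q2) (pc := pcN0) (cut := Cut.none) (xt := Ext.none) (P1 := 0) (W1 := 536870912) (P2 := 1073741824) (W2 := 536870912) (P3 := 67108864) (W3 := 67108864) (N0 := 3)
    rfl rfl rfl (fun _ => rfl) k0_pm_202_a

noncomputable def f_pm_202_b : ℕ → ℕ → ℕ → ℕ → Bool := onCell 1239849684 370763052 0 536870912 67108864 67108864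
    (rowNK 3 1 false true false .pp 2 0 2 (qsf 1239849684 370763052 1073741824 536870912 0) ndN1q2b ndN3q2 pcN0 Cut.none Ext.none)

def k0_pm_202_b : ∃ t, chk3 f_pm_202_b t 1 1 1 = true :=
  ⟨(b (b (b (a (a (l 17966096) (b (l 18381272) (l 18598768))) (a (b (l 18807024) (l 18658208)) (l 18730824))) (a (a (b (l 18162448) (l 18180976)) (l 18520416)) (l 18423312))) (a (b (b (l 18278104) (l 18130032)) (a (l 17980896) (l 18174352))) (b (l 185928290455) (l 2)))) (b (a (b (l 17951920) (l 17793144)) (l 2)) (l 2))), by decide +kernel⟩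

theorem c_pm_202_b : CertN 1239849684 370763052 1073741824 536870912 67108864 67108864 3 false true false .pp 2 0 2
    ndN1q2b ndN3q2 pcN0 Cut.none Ext.none :=
  certNK1 (fam := false) (s1 := true) (s2 := false) (a := 2) (b := 0) (c := 2) (cn := .pp) (n1 := ndN1q2b) (n2 := ndN3q2) (pc := pcN0) (cut := Cut.none) (xt := Ext.none) (P1 := 1239849684) (W1 := 370763052) (P2 := 1073741824) (W2 := 536870912) (P3 := 67108864) (W3 := 67108864) (N0 := 3)
    rfl rfl rfl (fun _ => rfl) k0_pm_202_b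

noncomputable def f_pm_203_a : ℕ → ℕ → ℕ → ℕ → Bool := onCell 0 536870912 0 1230186008 67108864 67108864
    (rowNK 3 0 false true false .up 2 0 3 (qsf 0 536870912 0 1230186008 0) ndN1q2a ndN3q3 pcN0 Cut.none Ext.none)

def k0_pm_203_a : ∃ t, chk3 f_pm_203_a t 1 1 1 = true :=
  ⟨(b (l 2) (b (l 2) (a (b (a (l 227803625175) (l 17945648)) (a (l 18273536) (l 18202728))) (b (l 2) (a (l 18156048) (b (l 18182448) (l 18218992))))))), by decide +kernel⟩

theorem c_pm_203_a : CertN 0 536870912 0 1230186008 67108864 67108864 3 false true false .up 2 0 3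
    ndN1q2a ndN3q3 pcN0 Cut.none Ext.none :=
  certNK0 (fam := false) (s1 := true) (s2 := false) (a := 2) (b := 0) (c := 3) (cn := .up) (n1 := ndN1q2a) (n2 := ndN3q3) (pc := pcN0) (cut := Cut.none) (xt := Ext.none) (P1 := 0) (W1 := 536870912) (P2 := 0) (W2 := 1230186008) (P3 := 67108864) (W3 := 67108864) (N0 := 3)
    rfl rfl rfl k0_pm_203_a

noncomputable def f_pm_203_b : ℕ → ℕ → ℕ → ℕ → Bool := onCell 1239849684 370763052 0 1230186008 67108864 67108864
    (rowNK 3 0 false true false .up 2 0 3 (qsf 1239849684 370763052 0 1230186008 0) ndN1q2b ndN3q3 pcN0 Cut.none Ext.none)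

def k0_pm_203_b : ∃ t, chk3 f_pm_203_b t 1 1 1 = true :=
  ⟨(b (l 3) (b (l 3) (a (b (a (l 3) (l 3)) (b (a (l 18240704) (l 3)) (a (l 18392896) (l 18308168)))) (b (l 3) (a (l 3) (l 3)))))), by decide +kernel⟩

theorem c_pm_203_b : CertN 1239849684 370763052 0 1230186008 67108864 67108864 3 false true false .up 2 0 3
    ndN1q2b ndN3q3 pcN0 Cut.none Ext.none :=
  certNK0 (fam := false) (s1 := true) (s2 := false) (a := 2) (b := 0) (c := 3) (cn := .up) (n1 := ndN1q2b) (n2 := ndN3q3) (pc := pcN0) (cut := Cut.none) (xt := Ext.none) (P1 := 1239849684) (W1 := 370763052) (P2 := 0) (W2 := 1230186008) (P3 := 67108864) (W3 := 67108864) (N0 := 3)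
    rfl rfl rfl k0_pm_203_b

noncomputable def cut_pm_213_a : Cut := Cut.of [[⟨0, 1, 0, 21338704⟩, ⟨1, 1, 0, 21338704⟩, ⟨2, 2, 0, 1685920⟩]]

noncomputable def f_pm_213_a : ℕ → ℕ → ℕ → ℕ → Bool := onCell 0 536870912 0 1230186008 67108864 67108864
    (rowNK 3 0 false true false .pnn 2 1 3 (qsf 0 536870912 0 1230186008 1) ndN1q2a ndN3q3 pcN1 cut_pm_213_a Ext.none)

def k0_pm_213_a : ∃ t, chk3 f_pm_213_a t 1 1 1 = true :=
  ⟨(b (a (b (l 3) (l 3)) (b (a (l 3) (b (a (l 3) (a (l 316921728263) (b (b (a (l 3) (l 6)) (l 168208423415)) (l 152102335063)))) (a (b (l 321753555479) (l 181093425767)) (b (l 151565616391) (l 16838424))))) (a (b (a (l 3) (l 261087346135)) (a (l 320143454599) (l 17236688))) (a (b (l 159082081191) (l 17159160)) (b (l 16991944) (l 17146472)))))) (b (a (b (a (l 3) (l 300279687383)) (b (l 216528226119) (l 197201269511))) (b (a (b (l 17303856) (l 17484912)) (b (l 17385280) (l 17590576))) (a (b (l 17699192) (l 17939088)) (l 18067504)))) (a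 (b (a (l 228340806807) (l 18254024)) (a (l 1) (l 18822848))) (b (a (l 18328096) (l 18523728)) (a (l 18859656) (b (l 18926424) (l 19139112))))))), by decide +kernel⟩

theorem c_pm_213_a : CertN 0 536870912 0 1230186008 67108864 67108864 3 false true false .pnn 2 1 3
    ndN1q2a ndN3q3 pcN1 cut_pm_213_a Ext.none :=
  certNK0 (fam := false) (s1 := true) (s2 := false) (a := 2) (b := 1) (c := 3) (cn := .pnn) (n1 := ndN1q2a) (n2 := ndN3q3) (pc := pcN1) (cut := cut_pm_213_a) (xt := Ext.none) (P1 := 0) (W1 := 536870912) (P2 := 0) (W2 := 1230186008) (P3 := 67108864) (W3 := 67108864) (N0 := 3)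
    rfl rfl rfl k0_pm_213_a

noncomputable def cut_pm_213_b : Cut := Cut.of [[⟨0, 1, 0, 21338704⟩, ⟨1, 1, 0, 21338704⟩, ⟨2, 2, 0, 1685920⟩]]

noncomputable def f_pm_213_b : ℕ → ℕ → ℕ → ℕ → Bool := onCell 1239849684 370763052 0 1230186008 67108864 67108864
    (rowNK 3 0 false true false .pnn 2 1 3 (qsf 1239849684 370763052 0 1230186008 1) ndN1q2b ndN3q3 pcN1 cut_pm_213_b Ext.none)

def k0_pm_213_b : ∃ t, chk3 f_pm_213_b t 1 1 1 = true :=
  ⟨(b (l 3) (b (l 3) (a (b (a (l 3) (l 1)) (l 1)) (l 1)))), by decide +kernel⟩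

theorem c_pm_213_b : CertN 1239849684 370763052 0 1230186008 67108864 67108864 3 false true false .pnn 2 1 3
    ndN1q2b ndN3q3 pcN1 cut_pm_213_b Ext.none :=
  certNK0 (fam := false) (s1 := true) (s2 := false) (a := 2) (b := 1) (c := 3) (cn := .pnn) (n1 := ndN1q2b) (n2 := ndN3q3) (pc := pcN1) (cut := cut_pm_213_b) (xt := Ext.none) (P1 := 1239849684) (W1 := 370763052) (P2 := 0) (W2 := 1230186008) (P3 := 67108864) (W3 := 67108864) (N0 := 3)
    rfl rfl rfl k0_pm_213_b

noncomputable def f_pm_303 : ℕ → ℕ → ℕ → ℕ → Bool := onCell 1610612736 536870912 0 1230186008 67108864 67108864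
    (rowNK 3 0 false true false .npn 3 0 3 (qsf 1610612736 536870912 0 1230186008 0) ndN1q3 ndN3q3 pcN0 Cut.none Ext.none)

def k0_pm_303 : ∃ t, chk3 f_pm_303 t 1 1 1 = true :=
  ⟨(b (l 3) (b (l 3) (a (l 3) (l 1)))), by decide +kernel⟩

theorem c_pm_303 : CertN 1610612736 536870912 0 1230186008 67108864 67108864 3 false true false .npn 3 0 3
    ndN1q3 ndN3q3 pcN0 Cut.none Ext.none :=
  certNK0 (fam := false) (s1 := true) (s2 := false) (a := 3) (b := 0) (c := 3) (cn := .npn) (n1 := ndN1q3) (n2 := ndN3q3) (pc := pcN0) (cut := Cut.none) (xt := Ext.none) (P1 := 1610612736) (W1 := 536870912) (P2 := 0) (W2 := 1230186008) (P3 := 67108864) (W3 := 67108864) (N0 := 3)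
    rfl rfl rfl k0_pm_303

noncomputable def f_pm_313 : ℕ → ℕ → ℕ → ℕ → Bool := onCell 1610612736 536870912 0 1230186008 67108864 67108864
    (rowNK 3 0 false true false .dn 3 1 3 (qsf 1610612736 536870912 0 1230186008 1) ndN1q3 ndN3q3 pcN1 Cut.none Ext.none)

def k0_pm_313 : ∃ t, chk3 f_pm_313 t 1 1 1 = true :=
  ⟨(b (l 3) (l 1)), by decide +kernel⟩

theorem c_pm_313 : CertN 1610612736 536870912 0 1230186008 67108864 67108864 3 false true false .dn 3 1 3
    ndN1q3 ndN3q3 pcN1 Cut.none Ext.none :=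
  certNK0 (fam := false) (s1 := true) (s2 := false) (a := 3) (b := 1) (c := 3) (cn := .dn) (n1 := ndN1q3) (n2 := ndN3q3) (pc := pcN1) (cut := Cut.none) (xt := Ext.none) (P1 := 1610612736) (W1 := 536870912) (P2 := 0) (W2 := 1230186008) (P3 := 67108864) (W3 := 67108864) (N0 := 3)
    rfl rfl rfl k0_pm_313

noncomputable def f_mm_001 : ℕ → ℕ → ℕ → ℕ → Bool := onCell 0 536870912 0 536870912 67108864 67108864
    (rowNK 3 1 false false false .up 0 0 1 (qsf 0 536870912 536870912 536870912 0) ndN1q0 ndN3q1 pcN0 Cut.none Ext.none)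

def k0_mm_001 : ∃ t, chk3 f_mm_001 t 1 1 1 = true :=
  ⟨(l 3), by decide +kernel⟩

theorem c_mm_001 : CertN 0 536870912 536870912 536870912 67108864 67108864 3 false false false .up 0 0 1
    ndN1q0 ndN3q1 pcN0 Cut.none Ext.none :=
  certNK1 (fam := false) (s1 := false) (s2 := false) (a := 0) (b := 0) (c := 1) (cn := .up) (n1 := ndN1q0) (n2 := ndN3q1) (pc := pcN0) (cut := Cut.none) (xt := Ext.none) (P1 := 0) (W1 := 536870912) (P2 := 536870912) (W2 := 536870912) (P3 := 67108864) (W3 := 67108864) (N0 := 3)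
    rfl rfl rfl (fun _ => rfl) k0_mm_001

noncomputable def f_mm_011 : ℕ → ℕ → ℕ → ℕ → Bool := onCell 0 536870912 536870912 536870912 67108864 67108864
    (rowNK 3 1 false false false .pnn 0 1 1 (qsf 0 536870912 536870912 536870912 1) ndN1q0 ndN3q1 pcN1 Cut.none Ext.none)

def k0_mm_011 : ∃ t, chk3 f_mm_011 t 1 1 1 = true :=
  ⟨(l 5), by decide +kernel⟩

theorem c_mm_011 : CertN 0 536870912 536870912 536870912 67108864 67108864 3 false false false .pnn 0 1 1
    ndN1q0 ndN3q1 pcN1 Cut.none Ext.none :=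
  certNK1 (fam := false) (s1 := false) (s2 := false) (a := 0) (b := 1) (c := 1) (cn := .pnn) (n1 := ndN1q0) (n2 := ndN3q1) (pc := pcN1) (cut := Cut.none) (xt := Ext.none) (P1 := 0) (W1 := 536870912) (P2 := 536870912) (W2 := 536870912) (P3 := 67108864) (W3 := 67108864) (N0 := 3)
    rfl rfl rfl (fun _ => rfl) k0_mm_011

noncomputable def f_mm_012 : ℕ → ℕ → ℕ → ℕ → Bool := onCell 0 536870912 1073741824 536870912 67108864 67108864
    (rowNK 3 0 false false false .pnp 0 1 2 (qsf 0 536870912 1073741824 536870912 1) ndN1q0 ndN3q2 pcN1 Cut.none Ext.none)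

def k0_mm_012 : ∃ t, chk3 f_mm_012 t 1 1 1 = true :=
  ⟨(l 5), by decide +kernel⟩

theorem c_mm_012 : CertN 0 536870912 1073741824 536870912 67108864 67108864 3 false false false .pnp 0 1 2
    ndN1q0 ndN3q2 pcN1 Cut.none Ext.none :=
  certNK0 (fam := false) (s1 := false) (s2 := false) (a := 0) (b := 1) (c := 2) (cn := .pnp) (n1 := ndN1q0) (n2 := ndN3q2) (pc := pcN1) (cut := Cut.none) (xt := Ext.none) (P1 := 0) (W1 := 536870912) (P2 := 1073741824) (W2 := 536870912) (P3 := 67108864) (W3 := 67108864) (N0 := 3)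
    rfl rfl rfl k0_mm_012

noncomputable def f_mm_022 : ℕ → ℕ → ℕ → ℕ → Bool := onCell 0 536870912 1073741824 536870912 67108864 67108864
    (rowNK 3 0 false false false .pp 0 2 2 (qsf 0 536870912 1073741824 536870912 2) ndN1q0 ndN3q2 pcN2 Cut.none Ext.none)

def k0_mm_022 : ∃ t, chk3 f_mm_022 t 1 1 1 = true :=
  ⟨(l 5), by decide +kernel⟩

theorem c_mm_022 : CertN 0 536870912 1073741824 536870912 67108864 67108864 3 false false false .pp 0 2 2
    ndN1q0 ndN3q2 pcN2 Cut.none Ext.none :=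
  certNK0 (fam := false) (s1 := false) (s2 := false) (a := 0) (b := 2) (c := 2) (cn := .pp) (n1 := ndN1q0) (n2 := ndN3q2) (pc := pcN2) (cut := Cut.none) (xt := Ext.none) (P1 := 0) (W1 := 536870912) (P2 := 1073741824) (W2 := 536870912) (P3 := 67108864) (W3 := 67108864) (N0 := 3)
    rfl rfl rfl k0_mm_022

noncomputable def f_mm_023 : ℕ → ℕ → ℕ → ℕ → Bool := onCell 0 536870912 0 1230186008 67108864 67108864
    (rowNK 3 0 false false false .up 0 2 3 (qsf 0 536870912 0 1230186008 2) ndN1q0 ndN3q3 pcN2 Cut.none Ext.none)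

def k0_mm_023 : ∃ t, chk3 f_mm_023 t 1 1 1 = true :=
  ⟨(l 5), by decide +kernel⟩

theorem c_mm_023 : CertN 0 536870912 0 1230186008 67108864 67108864 3 false false false .up 0 2 3
    ndN1q0 ndN3q3 pcN2 Cut.none Ext.none :=
  certNK0 (fam := false) (s1 := false) (s2 := false) (a := 0) (b := 2) (c := 3) (cn := .up) (n1 := ndN1q0) (n2 := ndN3q3) (pc := pcN2) (cut := Cut.none) (xt := Ext.none) (P1 := 0) (W1 := 536870912) (P2 := 0) (W2 := 1230186008) (P3 := 67108864) (W3 := 67108864) (N0 := 3)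
    rfl rfl rfl k0_mm_023

noncomputable def f_mm_033 : ℕ → ℕ → ℕ → ℕ → Bool := onCell 0 536870912 0 1230186008 67108864 67108864
    (rowNK 3 0 false false false .pnn 0 3 3 (qsf 0 536870912 0 1230186008 3) ndN1q0 ndN3q3 pcN3 Cut.none Ext.none)

def k0_mm_033 : ∃ t, chk3 f_mm_033 t 1 1 1 = true :=
  ⟨(l 5), by decide +kernel⟩

theorem c_mm_033 : CertN 0 536870912 0 1230186008 67108864 67108864 3 false false false .pnn 0 3 3
    ndN1q0 ndN3q3 pcN3 Cut.none Ext.none :=
  certNK0 (fam := false) (s1 := false) (s2 := false) (a := 0) (b := 3) (c := 3) (cn := .pnn) (n1 := ndN1q0) (n2 := ndN3q3) (pc := pcN3) (cut := Cut.none) (xt := Ext.none) (P1 := 0) (W1 := 536870912) (P2 := 0) (W2 := 1230186008) (P3 := 67108864) (W3 := 67108864) (N0 := 3)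
    rfl rfl rfl k0_mm_033

noncomputable def f_mm_101 : ℕ → ℕ → ℕ → ℕ → Bool := onCell 536870912 536870912 536870912 536870912 67108864 67108864
    (rowNK 3 0 false false false .npn 1 0 1 (qsf 536870912 536870912 536870912 536870912 0) ndN1q1 ndN3q1 pcN0 Cut.none Ext.none)

def k0_mm_101 : ∃ t, chk3 f_mm_101 t 1 1 1 = true :=
  ⟨(l 3), by decide +kernel⟩

theorem c_mm_101 : CertN 536870912 536870912 536870912 536870912 67108864 67108864 3 false false false .npn 1 0 1
    ndN1q1 ndN3q1 pcN0 Cut.none Ext.none :=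
  certNK0 (fam := false) (s1 := false) (s2 := false) (a := 1) (b := 0) (c := 1) (cn := .npn) (n1 := ndN1q1) (n2 := ndN3q1) (pc := pcN0) (cut := Cut.none) (xt := Ext.none) (P1 := 536870912) (W1 := 536870912) (P2 := 536870912) (W2 := 536870912) (P3 := 67108864) (W3 := 67108864) (N0 := 3)
    rfl rfl rfl k0_mm_101

noncomputable def f_mm_102 : ℕ → ℕ → ℕ → ℕ → Bool := onCell 536870912 536870912 1073741824 536870912 67108864 67108864
    (rowNK 3 0 false false false .npp 1 0 2 (qsf 536870912 536870912 1073741824 536870912 0) ndN1q1 ndN3q2 pcN0 Cut.none Ext.none)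

def k0_mm_102 : ∃ t, chk3 f_mm_102 t 1 1 1 = true :=
  ⟨(l 5), by decide +kernel⟩

theorem c_mm_102 : CertN 536870912 536870912 1073741824 536870912 67108864 67108864 3 false false false .npp 1 0 2
    ndN1q1 ndN3q2 pcN0 Cut.none Ext.none :=
  certNK0 (fam := false) (s1 := false) (s2 := false) (a := 1) (b := 0) (c := 2) (cn := .npp) (n1 := ndN1q1) (n2 := ndN3q2) (pc := pcN0) (cut := Cut.none) (xt := Ext.none) (P1 := 536870912) (W1 := 536870912) (P2 := 1073741824) (W2 := 536870912) (P3 := 67108864) (W3 := 67108864) (N0 := 3)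
    rfl rfl rfl k0_mm_102

noncomputable def f_mm_112 : ℕ → ℕ → ℕ → ℕ → Bool := onCell 536870912 536870912 1073741824 536870912 67108864 67108864
    (rowNK 3 0 false false false .dn 1 1 2 (qsf 536870912 536870912 1073741824 536870912 1) ndN1q1 ndN3q2 pcN1 Cut.none Ext.none)

def k0_mm_112 : ∃ t, chk3 f_mm_112 t 1 1 1 = true :=
  ⟨(l 5), by decide +kernel⟩

theorem c_mm_112 : CertN 536870912 536870912 1073741824 536870912 67108864 67108864 3 false false false .dn 1 1 2
    ndN1q1 ndN3q2 pcN1 Cut.none Ext.none :=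
  certNK0 (fam := false) (s1 := false) (s2 := false) (a := 1) (b := 1) (c := 2) (cn := .dn) (n1 := ndN1q1) (n2 := ndN3q2) (pc := pcN1) (cut := Cut.none) (xt := Ext.none) (P1 := 536870912) (W1 := 536870912) (P2 := 1073741824) (W2 := 536870912) (P3 := 67108864) (W3 := 67108864) (N0 := 3)
    rfl rfl rfl k0_mm_112

noncomputable def f_mm_113 : ℕ → ℕ → ℕ → ℕ → Bool := onCell 536870912 536870912 0 1230186008 67108864 67108864
    (rowNK 3 0 false false false .nn 1 1 3 (qsf 536870912 536870912 0 1230186008 1) ndN1q1 ndN3q3 pcN1 Cut.none Ext.none)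

def k0_mm_113 : ∃ t, chk3 f_mm_113 t 1 1 1 = true :=
  ⟨(l 5), by decide +kernel⟩

theorem c_mm_113 : CertN 536870912 536870912 0 1230186008 67108864 67108864 3 false false false .nn 1 1 3
    ndN1q1 ndN3q3 pcN1 Cut.none Ext.none :=
  certNK0 (fam := false) (s1 := false) (s2 := false) (a := 1) (b := 1) (c := 3) (cn := .nn) (n1 := ndN1q1) (n2 := ndN3q3) (pc := pcN1) (cut := Cut.none) (xt := Ext.none) (P1 := 536870912) (W1 := 536870912) (P2 := 0) (W2 := 1230186008) (P3 := 67108864) (W3 := 67108864) (N0 := 3)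
    rfl rfl rfl k0_mm_113

noncomputable def f_mm_123 : ℕ → ℕ → ℕ → ℕ → Bool := onCell 536870912 536870912 0 1230186008 67108864 67108864
    (rowNK 3 0 false false false .npn 1 2 3 (qsf 536870912 536870912 0 1230186008 2) ndN1q1 ndN3q3 pcN2 Cut.none Ext.none)

def k0_mm_123 : ∃ t, chk3 f_mm_123 t 1 1 1 = true :=
  ⟨(l 5), by decide +kernel⟩

theorem c_mm_123 : CertN 536870912 536870912 0 1230186008 67108864 67108864 3 false false false .npn 1 2 3
    ndN1q1 ndN3q3 pcN2 Cut.none Ext.none :=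
  certNK0 (fam := false) (s1 := false) (s2 := false) (a := 1) (b := 2) (c := 3) (cn := .npn) (n1 := ndN1q1) (n2 := ndN3q3) (pc := pcN2) (cut := Cut.none) (xt := Ext.none) (P1 := 536870912) (W1 := 536870912) (P2 := 0) (W2 := 1230186008) (P3 := 67108864) (W3 := 67108864) (N0 := 3)
    rfl rfl rfl k0_mm_123

noncomputable def f_mm_133 : ℕ → ℕ → ℕ → ℕ → Bool := onCell 536870912 536870912 0 1230186008 67108864 67108864
    (rowNK 3 0 false false false .dn 1 3 3 (qsf 536870912 536870912 0 1230186008 3) ndN1q1 ndN3q3 pcN3 Cut.none Ext.none)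

def k0_mm_133 : ∃ t, chk3 f_mm_133 t 1 1 1 = true :=
  ⟨(l 5), by decide +kernel⟩

theorem c_mm_133 : CertN 536870912 536870912 0 1230186008 67108864 67108864 3 false false false .dn 1 3 3
    ndN1q1 ndN3q3 pcN3 Cut.none Ext.none :=
  certNK0 (fam := false) (s1 := false) (s2 := false) (a := 1) (b := 3) (c := 3) (cn := .dn) (n1 := ndN1q1) (n2 := ndN3q3) (pc := pcN3) (cut := Cut.none) (xt := Ext.none) (P1 := 536870912) (W1 := 536870912) (P2 := 0) (W2 := 1230186008) (P3 := 67108864) (W3 := 67108864) (N0 := 3)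
    rfl rfl rfl k0_mm_133

noncomputable def f_mm_202_a : ℕ → ℕ → ℕ → ℕ → Bool := onCell 0 536870912 1073741824 536870912 67108864 67108864
    (rowNK 3 0 false false false .pp 2 0 2 (qsf 0 536870912 1073741824 536870912 0) ndN1q2a ndN3q2 pcN0 Cut.none Ext.none)

def k0_mm_202_a : ∃ t, chk3 f_mm_202_a t 1 1 1 = true :=
  ⟨(l 3), by decide +kernel⟩

theorem c_mm_202_a : CertN 0 536870912 1073741824 536870912 67108864 67108864 3 false false false .pp 2 0 2
    ndN1q2a ndN3q2 pcN0 Cut.none Ext.none :=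
  certNK0 (fam := false) (s1 := false) (s2 := false) (a := 2) (b := 0) (c := 2) (cn := .pp) (n1 := ndN1q2a) (n2 := ndN3q2) (pc := pcN0) (cut := Cut.none) (xt := Ext.none) (P1 := 0) (W1 := 536870912) (P2 := 1073741824) (W2 := 536870912) (P3 := 67108864) (W3 := 67108864) (N0 := 3)
    rfl rfl rfl k0_mm_202_a

noncomputable def f_mm_202_b : ℕ → ℕ → ℕ → ℕ → Bool := onCell 1239849684 370763052 1073741824 536870912 67108864 67108864
    (rowNK 3 0 false false false .pp 2 0 2 (qsf 1239849684 370763052 1073741824 536870912 0) ndN1q2b ndN3q2 pcN0 Cut.none Ext.none)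

def k0_mm_202_b : ∃ t, chk3 f_mm_202_b t 1 1 1 = true :=
  ⟨(l 3), by decide +kernel⟩

theorem c_mm_202_b : CertN 1239849684 370763052 1073741824 536870912 67108864 67108864 3 false false false .pp 2 0 2
    ndN1q2b ndN3q2 pcN0 Cut.none Ext.none :=
  certNK0 (fam := false) (s1 := false) (s2 := false) (a := 2) (b := 0) (c := 2) (cn := .pp) (n1 := ndN1q2b) (n2 := ndN3q2) (pc := pcN0) (cut := Cut.none) (xt := Ext.none) (P1 := 1239849684) (W1 := 370763052) (P2 := 1073741824) (W2 := 536870912) (P3 := 67108864) (W3 := 67108864) (N0 := 3)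
    rfl rfl rfl k0_mm_202_b

noncomputable def f_mm_203_a : ℕ → ℕ → ℕ → ℕ → Bool := onCell 0 536870912 0 1230186008 67108864 67108864
    (rowNK 3 0 false false false .up 2 0 3 (qsf 0 536870912 0 1230186008 0) ndN1q2a ndN3q3 pcN0 Cut.none Ext.none)

def k0_mm_203_a : ∃ t, chk3 f_mm_203_a t 1 1 1 = true :=
  ⟨(b (l 2) (l 3)), by decide +kernel⟩

theorem c_mm_203_a : CertN 0 536870912 0 1230186008 67108864 67108864 3 false false false .up 2 0 3
    ndN1q2a ndN3q3 pcN0 Cut.none Ext.none :=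
  certNK0 (fam := false) (s1 := false) (s2 := false) (a := 2) (b := 0) (c := 3) (cn := .up) (n1 := ndN1q2a) (n2 := ndN3q3) (pc := pcN0) (cut := Cut.none) (xt := Ext.none) (P1 := 0) (W1 := 536870912) (P2 := 0) (W2 := 1230186008) (P3 := 67108864) (W3 := 67108864) (N0 := 3)
    rfl rfl rfl k0_mm_203_a

noncomputable def f_mm_203_b : ℕ → ℕ → ℕ → ℕ → Bool := onCell 1239849684 370763052 0 1230186008 67108864 67108864
    (rowNK 3 0 false false false .up 2 0 3 (qsf 1239849684 370763052 0 1230186008 0) ndN1q2b ndN3q3 pcN0 Cut.none Ext.none)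

def k0_mm_203_b : ∃ t, chk3 f_mm_203_b t 1 1 1 = true :=
  ⟨(b (l 3) (l 3)), by decide +kernel⟩

theorem c_mm_203_b : CertN 1239849684 370763052 0 1230186008 67108864 67108864 3 false false false .up 2 0 3
    ndN1q2b ndN3q3 pcN0 Cut.none Ext.none :=
  certNK0 (fam := false) (s1 := false) (s2 := false) (a := 2) (b := 0) (c := 3) (cn := .up) (n1 := ndN1q2b) (n2 := ndN3q3) (pc := pcN0) (cut := Cut.none) (xt := Ext.none) (P1 := 1239849684) (W1 := 370763052) (P2 := 0) (W2 := 1230186008) (P3 := 67108864) (W3 := 67108864) (N0 := 3)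
    rfl rfl rfl k0_mm_203_b

noncomputable def f_mm_213_a : ℕ → ℕ → ℕ → ℕ → Bool := onCell 0 536870912 0 1230186008 67108864 67108864
    (rowNK 3 0 false false false .pnn 2 1 3 (qsf 0 536870912 0 1230186008 1) ndN1q2a ndN3q3 pcN1 Cut.none Ext.none)

def k0_mm_213_a : ∃ t, chk3 f_mm_213_a t 1 1 1 = true :=
  ⟨(b (l 5) (l 3)), by decide +kernel⟩

theorem c_mm_213_a : CertN 0 536870912 0 1230186008 67108864 67108864 3 false false false .pnn 2 1 3
    ndN1q2a ndN3q3 pcN1 Cut.none Ext.none :=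
  certNK0 (fam := false) (s1 := false) (s2 := false) (a := 2) (b := 1) (c := 3) (cn := .pnn) (n1 := ndN1q2a) (n2 := ndN3q3) (pc := pcN1) (cut := Cut.none) (xt := Ext.none) (P1 := 0) (W1 := 536870912) (P2 := 0) (W2 := 1230186008) (P3 := 67108864) (W3 := 67108864) (N0 := 3)
    rfl rfl rfl k0_mm_213_a

noncomputable def f_mm_213_b : ℕ → ℕ → ℕ → ℕ → Bool := onCell 1239849684 370763052 0 1230186008 67108864 67108864
    (rowNK 3 0 false false false .pnn 2 1 3 (qsf 1239849684 370763052 0 1230186008 1) ndN1q2b ndN3q3 pcN1 Cut.none Ext.none)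

def k0_mm_213_b : ∃ t, chk3 f_mm_213_b t 1 1 1 = true :=
  ⟨(b (l 3) (l 3)), by decide +kernel⟩

theorem c_mm_213_b : CertN 1239849684 370763052 0 1230186008 67108864 67108864 3 false false false .pnn 2 1 3
    ndN1q2b ndN3q3 pcN1 Cut.none Ext.none :=
  certNK0 (fam := false) (s1 := false) (s2 := false) (a := 2) (b := 1) (c := 3) (cn := .pnn) (n1 := ndN1q2b) (n2 := ndN3q3) (pc := pcN1) (cut := Cut.none) (xt := Ext.none) (P1 := 1239849684) (W1 := 370763052) (P2 := 0) (W2 := 1230186008) (P3 := 67108864) (W3 := 67108864) (N0 := 3)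
    rfl rfl rfl k0_mm_213_b

noncomputable def f_mm_303 : ℕ → ℕ → ℕ → ℕ → Bool := onCell 1610612736 536870912 0 1230186008 67108864 67108864
    (rowNK 3 0 false false false .npn 3 0 3 (qsf 1610612736 536870912 0 1230186008 0) ndN1q3 ndN3q3 pcN0 Cut.none Ext.none)

def k0_mm_303 : ∃ t, chk3 f_mm_303 t 1 1 1 = true :=
  ⟨(b (l 3) (l 3)), by decide +kernel⟩

theorem c_mm_303 : CertN 1610612736 536870912 0 1230186008 67108864 67108864 3 false false false .npn 3 0 3
    ndN1q3 ndN3q3 pcN0 Cut.none Ext.none :=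
  certNK0 (fam := false) (s1 := false) (s2 := false) (a := 3) (b := 0) (c := 3) (cn := .npn) (n1 := ndN1q3) (n2 := ndN3q3) (pc := pcN0) (cut := Cut.none) (xt := Ext.none) (P1 := 1610612736) (W1 := 536870912) (P2 := 0) (W2 := 1230186008) (P3 := 67108864) (W3 := 67108864) (N0 := 3)
    rfl rfl rfl k0_mm_303

noncomputable def f_mm_313 : ℕ → ℕ → ℕ → ℕ → Bool := onCell 1610612736 536870912 0 1230186008 67108864 67108864
    (rowNK 3 0 false false false .dn 3 1 3 (qsf 1610612736 536870912 0 1230186008 1) ndN1q3 ndN3q3 pcN1 Cut.none Ext.none)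

def k0_mm_313 : ∃ t, chk3 f_mm_313 t 1 1 1 = true :=
  ⟨(b (l 3) (l 1)), by decide +kernel⟩

theorem c_mm_313 : CertN 1610612736 536870912 0 1230186008 67108864 67108864 3 false false false .dn 3 1 3
    ndN1q3 ndN3q3 pcN1 Cut.none Ext.none :=
  certNK0 (fam := false) (s1 := false) (s2 := false) (a := 3) (b := 1) (c := 3) (cn := .dn) (n1 := ndN1q3) (n2 := ndN3q3) (pc := pcN1) (cut := Cut.none) (xt := Ext.none) (P1 := 1610612736) (W1 := 536870912) (P2 := 0) (W2 := 1230186008) (P3 := 67108864) (W3 := 67108864) (N0 := 3)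
    rfl rfl rfl k0_mm_313

end Pool.Agent.Strip051.G.I1_16_1_8.Tab.C.NB13

namespace Pool.Agent.Strip051.G.I1_16_1_8.Tab.C.NB14

open Pool.Agent.Strip051.PB Pool.Agent.Strip051.PB.T
open Pool.Agent.Strip051.G.I1_16_1_8.Tab

noncomputable def f_pp_001 : ℕ → ℕ → ℕ → ℕ → Bool := onCell 0 536870912 0 536870912 67108864 67108864
    (rowNK 3 1 false true true .up 0 0 1 (qsf 0 536870912 536870912 536870912 0) ndN1q0 ndN4q1 pcN0 Cut.none Ext.none)

def k0_pp_001 : ∃ t, chk3 f_pp_001 t 1 1 1 = true :=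
  ⟨(l 3), by decide +kernel⟩

theorem c_pp_001 : CertN 0 536870912 536870912 536870912 67108864 67108864 3 false true true .up 0 0 1
    ndN1q0 ndN4q1 pcN0 Cut.none Ext.none :=
  certNK1 (fam := false) (s1 := true) (s2 := true) (a := 0) (b := 0) (c := 1) (cn := .up) (n1 := ndN1q0) (n2 := ndN4q1) (pc := pcN0) (cut := Cut.none) (xt := Ext.none) (P1 := 0) (W1 := 536870912) (P2 := 536870912) (W2 := 536870912) (P3 := 67108864) (W3 := 67108864) (N0 := 3)
    rfl rfl rfl (fun _ => rfl) k0_pp_001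

noncomputable def cut_pp_011 : Cut := Cut.of [[⟨0, 0, 0, 67108864⟩, ⟨1, 1, 0, 67108864⟩, ⟨2, 1, 0, 67108864⟩]]

noncomputable def f_pp_011 : ℕ → ℕ → ℕ → ℕ → Bool := onCell 0 536870912 536870912 536870912 67108864 67108864
    (rowNK 3 1 false true true .pnn 0 1 1 (qsf 0 536870912 536870912 536870912 1) ndN1q0 ndN4q1 pcN1 cut_pp_011 Ext.none)

def k0_pp_011 : ∃ t, chk3 f_pp_011 t 1 1 1 = true :=
  ⟨(b (l 3) (b (l 3) (a (a (b (l 3) (a (b (l 3) (a (l 6) (l 3))) (l 3))) (l 3)) (l 2)))), by decide +kernel⟩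

theorem c_pp_011 : CertN 0 536870912 536870912 536870912 67108864 67108864 3 false true true .pnn 0 1 1
    ndN1q0 ndN4q1 pcN1 cut_pp_011 Ext.none :=
  certNK1 (fam := false) (s1 := true) (s2 := true) (a := 0) (b := 1) (c := 1) (cn := .pnn) (n1 := ndN1q0) (n2 := ndN4q1) (pc := pcN1) (cut := cut_pp_011) (xt := Ext.none) (P1 := 0) (W1 := 536870912) (P2 := 536870912) (W2 := 536870912) (P3 := 67108864) (W3 := 67108864) (N0 := 3)
    rfl rfl rfl (fun _ => rfl) k0_pp_011

noncomputable def cut_pp_012 : Cut := Cut.of [[⟨0, 0, 0, 67108864⟩, ⟨1, 1, 0, 67108864⟩, ⟨2, 1, 0, 67108864⟩]]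

noncomputable def f_pp_012 : ℕ → ℕ → ℕ → ℕ → Bool := onCell 0 536870912 536870912 536870912 67108864 67108864
    (rowNK 3 1 false true true .pnp 0 1 2 (qsf 0 536870912 1073741824 536870912 1) ndN1q0 ndN4q2 pcN1 cut_pp_012 Ext.none)

def k0_pp_012 : ∃ t, chk3 f_pp_012 t 1 1 1 = true :=
  ⟨(b (l 3) (a (b (l 3) (a (b (l 3) (a (b (l 3) (a (l 6) (l 3))) (l 3))) (l 3))) (l 3))), by decide +kernel⟩

theorem c_pp_012 : CertN 0 536870912 1073741824 536870912 67108864 67108864 3 false true true .pnp 0 1 2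
    ndN1q0 ndN4q2 pcN1 cut_pp_012 Ext.none :=
  certNK1 (fam := false) (s1 := true) (s2 := true) (a := 0) (b := 1) (c := 2) (cn := .pnp) (n1 := ndN1q0) (n2 := ndN4q2) (pc := pcN1) (cut := cut_pp_012) (xt := Ext.none) (P1 := 0) (W1 := 536870912) (P2 := 1073741824) (W2 := 536870912) (P3 := 67108864) (W3 := 67108864) (N0 := 3)
    rfl rfl rfl (fun _ => rfl) k0_pp_012

noncomputable def cut_pp_022 : Cut := Cut.of [[⟨0, 0, 0, 67108864⟩, ⟨1, 1, 0, 67108864⟩, ⟨2, 1, 0, 67108864⟩]]

noncomputable def f_pp_022 : ℕ → ℕ → ℕ → ℕ → Bool := onCell 0 536870912 1073741824 536870912 67108864 67108864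
    (rowNK 3 1 false true true .pp 0 2 2 (qsf 0 536870912 1073741824 536870912 2) ndN1q0 ndN4q2 pcN2 cut_pp_022 Ext.none)

def k0_pp_022 : ∃ t, chk3 f_pp_022 t 2 1 1 = true :=
  ⟨(b (a (b (a (a (a (b (b (l 6) (b (b (l 6) (a (l 6) (l 16754648))) (b (a (a (l 6) (l 16705456)) (l 16714968)) (a (a (l 16683280) (l 16686256)) (l 16716608))))) (b (b (a (a (a (l 16672304) (l 16661904)) (l 16678424)) (l 16729608)) (a (b (l 16642576) (l 16626616)) (l 16733176))) (a (b (a (l 16742728) (l 17069984)) (c (l 17967256) (l 16753176))) (b (l 17181560) (l 17530496))))) (b (b (b (l 3) (a (l 6) (l 16890152))) (b (a (l 16804424) (l 16824960)) (a (l 16747056) (l 16788776)))) (b (b (l 16752200) (l 16998800)) (b (l 17317920) (l 17583592))))) (b (b (l 3) (a (b (l 16917888) (l 16852312)) (l 16987176))) (b (a (l 16898368) (l 17134112)) (a (l 17490864) (l 17473472))))) (b (l 3) (b (a (l 17162344) (l 17169640)) (a (l 17404472) (l 17304112))))) (b (a (b (b (a (a (c (l 18221464) (a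 (l 17224504) (l 17409928))) (l 17805280)) (l 17731680)) (b (a (a (l 17876560) (l 17947520)) (l 17840288)) (a (a (l 18086544) (l 18033560)) (b (l 17891776) (l 17926536))))) (a (a (l 18226296) (l 18220560)) (l 18061088))) (b (b (l 17511504) (b (l 17587472) (b (l 17623928) (l 17795200)))) (l 17746608))) (a (a (b (l 18511776) (l 18679488)) (l 18320632)) (l 17958128)))) (b (b (l 3) (b (l 3) (l 251424858263))) (b (b (b (l 17281184) (b (l 17245040) (a (l 17418456) (l 17250528)))) (l 17318816)) (l 17602800)))) (a (b (a (b (a (l 18822512) (l 18516104)) (l 18750688)) (l 18207136)) (a (l 18751192) (l 18298848))) (b (a (l 17820072) (l 17531408)) (a (l 17938360) (l 2))))), by decide +kernel⟩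

def k1_pp_022 : ∃ t, chk3 f_pp_022 t 3 1 1 = true :=
  ⟨(b (a (b (l 3) (b (b (b (l 3) (l 275584241159)) (l 17300928)) (l 17198784))) (b (l 3) (a (b (l 258941198471) (l 2)) (l 2)))) (a (b (a (l 17325112) (l 2)) (l 2)) (l 2))), by decide +kernel⟩

theorem s2_pp_022 : ∃ t, chk3 f_pp_022 t 1 1 1 = true := ex3_a k0_pp_022 k1_pp_022

theorem c_pp_022 : CertN 0 536870912 1073741824 536870912 67108864 67108864 3 false true true .pp 0 2 2
    ndN1q0 ndN4q2 pcN2 cut_pp_022 Ext.none :=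
  certNK1 (fam := false) (s1 := true) (s2 := true) (a := 0) (b := 2) (c := 2) (cn := .pp) (n1 := ndN1q0) (n2 := ndN4q2) (pc := pcN2) (cut := cut_pp_022) (xt := Ext.none) (P1 := 0) (W1 := 536870912) (P2 := 1073741824) (W2 := 536870912) (P3 := 67108864) (W3 := 67108864) (N0 := 3)
    rfl rfl rfl (fun _ => rfl) s2_pp_022

noncomputable def f_pp_023 : ℕ → ℕ → ℕ → ℕ → Bool := onCell 1073741824 536870912 0 1230186008 67108864 67108864
    (rowNK 3 2 false true true .up 0 2 3 (qsf 0 536870912 0 1230186008 2) ndN1q0 ndN4q3 pcN2 Cut.none Ext.none)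

def k0_pp_023 : ∃ t, chk3 f_pp_023 t 1 1 1 = true :=
  ⟨(a (b (l 2) (b (a (l 2) (a (l 2) (l 16894896))) (a (b (l 2) (l 3)) (b (a (b (l 17300664) (l 17291000)) (l 17081336)) (a (b (l 17397752) (l 152640797975)) (l 17170432)))))) (b (a (l 2) (b (l 17165040) (l 16903840))) (b (a (l 17005264) (l 17051864)) (b (b (l 17208224) (l 17375336)) (a (l 17389400) (b (l 17890840) (l 18257144))))))), by decide +kernel⟩

theorem c_pp_023 : CertN 0 536870912 0 1230186008 67108864 67108864 3 false true true .up 0 2 3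
    ndN1q0 ndN4q3 pcN2 Cut.none Ext.none :=
  certNK2 (fam := false) (s1 := true) (s2 := true) (a := 0) (b := 2) (c := 3) (cn := .up) (n1 := ndN1q0) (n2 := ndN4q3) (pc := pcN2) (cut := Cut.none) (xt := Ext.none) (P1 := 0) (W1 := 536870912) (P2 := 0) (W2 := 1230186008) (P3 := 67108864) (W3 := 67108864) (N0 := 3)
    rfl rfl rfl (fun _ => rfl) k0_pp_023

noncomputable def f_pp_033 : ℕ → ℕ → ℕ → ℕ → Bool := onCell 0 536870912 0 1230186008 67108864 67108864
    (rowNK 3 0 false true true .pnn 0 3 3 (qsf 0 536870912 0 1230186008 3) ndN1q0 ndN4q3 pcN3 Cut.none Ext.none)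

def k0_pp_033 : ∃ t, chk3 f_pp_033 t 1 1 1 = true :=
  ⟨(b (a (a (b (l 4) (a (b (l 4) (l 17788464)) (b (l 17503352) (l 17460544)))) (b (a (l 4) (l 16961808)) (b (a (l 17182608) (l 17106872)) (b (l 16981520) (l 17395064))))) (a (b (a (l 16944032) (l 17139744)) (b (l 17120024) (b (l 17603200) (l 17681264)))) (b (b (l 17030832) (l 17013040)) (b (l 17649480) (b (l 18058448) (l 17702768)))))) (b (a (a (b (a (l 17890952) (b (l 17296408) (l 17736000))) (b (b (l 18324288) (l 18653840)) (a (l 18496824) (l 18376984)))) (b (b (a (l 17032704) (l 17148152)) (l 17596952)) (b (b (l 18264520) (l 18580440)) (l 18093808)))) (a (b (b (l 17130712) (l 17584360)) (b (l 18288904) (l 17671272))) (b (l 968550080951) (l 1)))) (a (b (a (b (b (l 18190400) (l 18163880)) (l 18247672)) (b (a (l 17562776) (l 17184976)) (l 17369440))) (a (b (l 18425728) (l 18651672)) (l 17599360))) (l 1)))), by decide +kernel⟩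

theorem c_pp_033 : CertN 0 536870912 0 1230186008 67108864 67108864 3 false true true .pnn 0 3 3
    ndN1q0 ndN4q3 pcN3 Cut.none Ext.none :=
  certNK0 (fam := false) (s1 := true) (s2 := true) (a := 0) (b := 3) (c := 3) (cn := .pnn) (n1 := ndN1q0) (n2 := ndN4q3) (pc := pcN3) (cut := Cut.none) (xt := Ext.none) (P1 := 0) (W1 := 536870912) (P2 := 0) (W2 := 1230186008) (P3 := 67108864) (W3 := 67108864) (N0 := 3)
    rfl rfl rfl k0_pp_033

noncomputable def f_pp_101 : ℕ → ℕ → ℕ → ℕ → Bool := onCell 536870912 536870912 536870912 536870912 67108864 67108864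
    (rowNK 3 0 false true true .npn 1 0 1 (qsf 536870912 536870912 536870912 536870912 0) ndN1q1 ndN4q1 pcN0 Cut.none Ext.none)

def k0_pp_101 : ∃ t, chk3 f_pp_101 t 1 1 1 = true :=
  ⟨(l 3), by decide +kernel⟩

theorem c_pp_101 : CertN 536870912 536870912 536870912 536870912 67108864 67108864 3 false true true .npn 1 0 1
    ndN1q1 ndN4q1 pcN0 Cut.none Ext.none :=
  certNK0 (fam := false) (s1 := true) (s2 := true) (a := 1) (b := 0) (c := 1) (cn := .npn) (n1 := ndN1q1) (n2 := ndN4q1) (pc := pcN0) (cut := Cut.none) (xt := Ext.none) (P1 := 536870912) (W1 := 536870912) (P2 := 536870912) (W2 := 536870912) (P3 := 67108864) (W3 := 67108864) (N0 := 3)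
    rfl rfl rfl k0_pp_101

noncomputable def f_pp_102 : ℕ → ℕ → ℕ → ℕ → Bool := onCell 536870912 536870912 1073741824 536870912 67108864 67108864
    (rowNK 3 0 false true true .npp 1 0 2 (qsf 536870912 536870912 1073741824 536870912 0) ndN1q1 ndN4q2 pcN0 Cut.none Ext.none)

def k0_pp_102 : ∃ t, chk3 f_pp_102 t 1 1 1 = true :=
  ⟨(l 3), by decide +kernel⟩

theorem c_pp_102 : CertN 536870912 536870912 1073741824 536870912 67108864 67108864 3 false true true .npp 1 0 2
    ndN1q1 ndN4q2 pcN0 Cut.none Ext.none :=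
  certNK0 (fam := false) (s1 := true) (s2 := true) (a := 1) (b := 0) (c := 2) (cn := .npp) (n1 := ndN1q1) (n2 := ndN4q2) (pc := pcN0) (cut := Cut.none) (xt := Ext.none) (P1 := 536870912) (W1 := 536870912) (P2 := 1073741824) (W2 := 536870912) (P3 := 67108864) (W3 := 67108864) (N0 := 3)
    rfl rfl rfl k0_pp_102

noncomputable def f_pp_112 : ℕ → ℕ → ℕ → ℕ → Bool := onCell 536870912 536870912 1073741824 536870912 67108864 67108864
    (rowNK 3 0 false true true .dn 1 1 2 (qsf 536870912 536870912 1073741824 536870912 1) ndN1q1 ndN4q2 pcN1 Cut.none Ext.none)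

def k0_pp_112 : ∃ t, chk3 f_pp_112 t 1 1 1 = true :=
  ⟨(l 3), by decide +kernel⟩

theorem c_pp_112 : CertN 536870912 536870912 1073741824 536870912 67108864 67108864 3 false true true .dn 1 1 2
    ndN1q1 ndN4q2 pcN1 Cut.none Ext.none :=
  certNK0 (fam := false) (s1 := true) (s2 := true) (a := 1) (b := 1) (c := 2) (cn := .dn) (n1 := ndN1q1) (n2 := ndN4q2) (pc := pcN1) (cut := Cut.none) (xt := Ext.none) (P1 := 536870912) (W1 := 536870912) (P2 := 1073741824) (W2 := 536870912) (P3 := 67108864) (W3 := 67108864) (N0 := 3)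
    rfl rfl rfl k0_pp_112

noncomputable def f_pp_113 : ℕ → ℕ → ℕ → ℕ → Bool := onCell 536870912 536870912 0 1230186008 67108864 67108864
    (rowNK 3 2 false true true .nn 1 1 3 (qsf 536870912 536870912 0 1230186008 1) ndN1q1 ndN4q3 pcN1 Cut.none Ext.none)

def k0_pp_113 : ∃ t, chk3 f_pp_113 t 1 1 1 = true :=
  ⟨(a (b (l 2) (b (l 3) (l 3))) (b (a (l 2) (b (a (l 2) (a (l 2) (l 16946000))) (a (l 17453760) (l 16933120)))) (b (a (l 3) (b (l 277194031623) (l 3))) (l 3)))), by decide +kernel⟩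

theorem c_pp_113 : CertN 536870912 536870912 0 1230186008 67108864 67108864 3 false true true .nn 1 1 3
    ndN1q1 ndN4q3 pcN1 Cut.none Ext.none :=
  certNK2 (fam := false) (s1 := true) (s2 := true) (a := 1) (b := 1) (c := 3) (cn := .nn) (n1 := ndN1q1) (n2 := ndN4q3) (pc := pcN1) (cut := Cut.none) (xt := Ext.none) (P1 := 536870912) (W1 := 536870912) (P2 := 0) (W2 := 1230186008) (P3 := 67108864) (W3 := 67108864) (N0 := 3)
    rfl rfl rfl (fun _ => rfl) k0_pp_113

noncomputable def f_pp_123 : ℕ → ℕ → ℕ → ℕ → Bool := onCell 1073741824 536870912 0 1230186008 67108864 67108864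
    (rowNK 3 2 false true true .npn 1 2 3 (qsf 536870912 536870912 0 1230186008 2) ndN1q1 ndN4q3 pcN2 Cut.none Ext.none)

def k0_pp_123 : ∃ t, chk3 f_pp_123 t 1 1 1 = true :=
  ⟨(b (b (a (a (a (a (l 16997560) (l 17160576)) (l 17402688)) (l 17834928)) (l 18514160)) (a (a (a (a (l 17161424) (l 17288000)) (l 17485104)) (l 17812112)) (a (l 18040016) (l 18080208)))) (b (a (a (a (a (l 17478024) (l 298133284359)) (a (l 17729344) (l 17829472))) (a (a (a (l 17909528) (l 17925672)) (l 17965872)) (l 17993760))) (a (l 18008592) (l 17875056))) (a (a (b (a (l 3) (l 17777360)) (l 3)) (a (a (a (l 223911207079) (b (l 17921000) (l 1))) (l 227132513991)) (l 230353814871))) (l 1)))), by decide +kernel⟩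

theorem c_pp_123 : CertN 536870912 536870912 0 1230186008 67108864 67108864 3 false true true .npn 1 2 3
    ndN1q1 ndN4q3 pcN2 Cut.none Ext.none :=
  certNK2 (fam := false) (s1 := true) (s2 := true) (a := 1) (b := 2) (c := 3) (cn := .npn) (n1 := ndN1q1) (n2 := ndN4q3) (pc := pcN2) (cut := Cut.none) (xt := Ext.none) (P1 := 536870912) (W1 := 536870912) (P2 := 0) (W2 := 1230186008) (P3 := 67108864) (W3 := 67108864) (N0 := 3)
    rfl rfl rfl (fun _ => rfl) k0_pp_123

noncomputable def f_pp_133 : ℕ → ℕ → ℕ → ℕ → Bool := onCell 536870912 536870912 0 1230186008 67108864 67108864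
    (rowNK 3 0 false true true .dn 1 3 3 (qsf 536870912 536870912 0 1230186008 3) ndN1q1 ndN4q3 pcN3 Cut.none Ext.none)

def k0_pp_133 : ∃ t, chk3 f_pp_133 t 1 1 1 = true :=
  ⟨(b (b (a (a (l 18051288) (l 1)) (l 1)) (l 1)) (l 1)), by decide +kernel⟩

theorem c_pp_133 : CertN 536870912 536870912 0 1230186008 67108864 67108864 3 false true true .dn 1 3 3
    ndN1q1 ndN4q3 pcN3 Cut.none Ext.none :=
  certNK0 (fam := false) (s1 := true) (s2 := true) (a := 1) (b := 3) (c := 3) (cn := .dn) (n1 := ndN1q1) (n2 := ndN4q3) (pc := pcN3) (cut := Cut.none) (xt := Ext.none) (P1 := 536870912) (W1 := 536870912) (P2 := 0) (W2 := 1230186008) (P3 := 67108864) (W3 := 67108864) (N0 := 3)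
    rfl rfl rfl k0_pp_133

noncomputable def f_pp_202_a : ℕ → ℕ → ℕ → ℕ → Bool := onCell 0 536870912 1073741824 536870912 67108864 67108864
    (rowNK 3 0 false true true .pp 2 0 2 (qsf 0 536870912 1073741824 536870912 0) ndN1q2a ndN4q2 pcN0 Cut.none Ext.none)

def k0_pp_202_a : ∃ t, chk3 f_pp_202_a t 1 1 1 = true :=
  ⟨(l 5), by decide +kernel⟩

theorem c_pp_202_a : CertN 0 536870912 1073741824 536870912 67108864 67108864 3 false true true .pp 2 0 2
    ndN1q2a ndN4q2 pcN0 Cut.none Ext.none :=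
  certNK0 (fam := false) (s1 := true) (s2 := true) (a := 2) (b := 0) (c := 2) (cn := .pp) (n1 := ndN1q2a) (n2 := ndN4q2) (pc := pcN0) (cut := Cut.none) (xt := Ext.none) (P1 := 0) (W1 := 536870912) (P2 := 1073741824) (W2 := 536870912) (P3 := 67108864) (W3 := 67108864) (N0 := 3)
    rfl rfl rfl k0_pp_202_a

noncomputable def f_pp_202_b : ℕ → ℕ → ℕ → ℕ → Bool := onCell 1239849684 370763052 1073741824 536870912 67108864 67108864
    (rowNK 3 0 false true true .pp 2 0 2 (qsf 1239849684 370763052 1073741824 536870912 0) ndN1q2b ndN4q2 pcN0 Cut.none Ext.none)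

def k0_pp_202_b : ∃ t, chk3 f_pp_202_b t 1 1 1 = true :=
  ⟨(l 5), by decide +kernel⟩

theorem c_pp_202_b : CertN 1239849684 370763052 1073741824 536870912 67108864 67108864 3 false true true .pp 2 0 2
    ndN1q2b ndN4q2 pcN0 Cut.none Ext.none :=
  certNK0 (fam := false) (s1 := true) (s2 := true) (a := 2) (b := 0) (c := 2) (cn := .pp) (n1 := ndN1q2b) (n2 := ndN4q2) (pc := pcN0) (cut := Cut.none) (xt := Ext.none) (P1 := 1239849684) (W1 := 370763052) (P2 := 1073741824) (W2 := 536870912) (P3 := 67108864) (W3 := 67108864) (N0 := 3)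
    rfl rfl rfl k0_pp_202_b

noncomputable def f_pp_203_a : ℕ → ℕ → ℕ → ℕ → Bool := onCell 0 536870912 0 1230186008 67108864 67108864
    (rowNK 3 0 false true true .up 2 0 3 (qsf 0 536870912 0 1230186008 0) ndN1q2a ndN4q3 pcN0 Cut.none Ext.none)

def k0_pp_203_a : ∃ t, chk3 f_pp_203_a t 1 1 1 = true :=
  ⟨(b (l 2) (l 3)), by decide +kernel⟩

theorem c_pp_203_a : CertN 0 536870912 0 1230186008 67108864 67108864 3 false true true .up 2 0 3
    ndN1q2a ndN4q3 pcN0 Cut.none Ext.none :=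
  certNK0 (fam := false) (s1 := true) (s2 := true) (a := 2) (b := 0) (c := 3) (cn := .up) (n1 := ndN1q2a) (n2 := ndN4q3) (pc := pcN0) (cut := Cut.none) (xt := Ext.none) (P1 := 0) (W1 := 536870912) (P2 := 0) (W2 := 1230186008) (P3 := 67108864) (W3 := 67108864) (N0 := 3)
    rfl rfl rfl k0_pp_203_a

noncomputable def f_pp_203_b : ℕ → ℕ → ℕ → ℕ → Bool := onCell 0 536870912 0 1230186008 67108864 67108864
    (rowNK 3 2 false true true .up 2 0 3 (qsf 1239849684 370763052 0 1230186008 0) ndN1q2b ndN4q3 pcN0 Cut.none Ext.none)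

def k0_pp_203_b : ∃ t, chk3 f_pp_203_b t 1 1 1 = true :=
  ⟨(b (l 3) (l 5)), by decide +kernel⟩

theorem c_pp_203_b : CertN 1239849684 370763052 0 1230186008 67108864 67108864 3 false true true .up 2 0 3
    ndN1q2b ndN4q3 pcN0 Cut.none Ext.none :=
  certNK2 (fam := false) (s1 := true) (s2 := true) (a := 2) (b := 0) (c := 3) (cn := .up) (n1 := ndN1q2b) (n2 := ndN4q3) (pc := pcN0) (cut := Cut.none) (xt := Ext.none) (P1 := 1239849684) (W1 := 370763052) (P2 := 0) (W2 := 1230186008) (P3 := 67108864) (W3 := 67108864) (N0 := 3)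
    rfl rfl rfl (fun _ => rfl) k0_pp_203_b

noncomputable def cut_pp_213_a : Cut := Cut.of [[⟨0, 1, 0, 21338704⟩, ⟨1, 1, 0, 21338704⟩, ⟨2, 2, 0, 1685920⟩]]

noncomputable def f_pp_213_a : ℕ → ℕ → ℕ → ℕ → Bool := onCell 0 536870912 0 1230186008 67108864 67108864
    (rowNK 3 0 false true true .pnn 2 1 3 (qsf 0 536870912 0 1230186008 1) ndN1q2a ndN4q3 pcN1 cut_pp_213_a Ext.none)

def k0_pp_213_a : ∃ t, chk3 f_pp_213_a t 1 1 1 = true :=
  ⟨(b (a (l 3) (b (a (l 3) (b (b (a (l 3) (a (l 3) (a (l 3) (b (l 6) (l 3))))) (l 3)) (l 3))) (l 3))) (l 3)), by decide +kernel⟩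

theorem c_pp_213_a : CertN 0 536870912 0 1230186008 67108864 67108864 3 false true true .pnn 2 1 3
    ndN1q2a ndN4q3 pcN1 cut_pp_213_a Ext.none :=
  certNK0 (fam := false) (s1 := true) (s2 := true) (a := 2) (b := 1) (c := 3) (cn := .pnn) (n1 := ndN1q2a) (n2 := ndN4q3) (pc := pcN1) (cut := cut_pp_213_a) (xt := Ext.none) (P1 := 0) (W1 := 536870912) (P2 := 0) (W2 := 1230186008) (P3 := 67108864) (W3 := 67108864) (N0 := 3)
    rfl rfl rfl k0_pp_213_a

noncomputable def cut_pp_213_b : Cut := Cut.of [[⟨0, 1, 0, 21338704⟩, ⟨1, 1, 0, 21338704⟩, ⟨2, 2, 0, 1685920⟩]]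

noncomputable def f_pp_213_b : ℕ → ℕ → ℕ → ℕ → Bool := onCell 1239849684 370763052 0 1230186008 67108864 67108864
    (rowNK 3 0 false true true .pnn 2 1 3 (qsf 1239849684 370763052 0 1230186008 1) ndN1q2b ndN4q3 pcN1 cut_pp_213_b Ext.none)

def k0_pp_213_b : ∃ t, chk3 f_pp_213_b t 1 1 1 = true :=
  ⟨(b (l 3) (b (l 3) (l 3))), by decide +kernel⟩

theorem c_pp_213_b : CertN 1239849684 370763052 0 1230186008 67108864 67108864 3 false true true .pnn 2 1 3
    ndN1q2b ndN4q3 pcN1 cut_pp_213_b Ext.none :=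
  certNK0 (fam := false) (s1 := true) (s2 := true) (a := 2) (b := 1) (c := 3) (cn := .pnn) (n1 := ndN1q2b) (n2 := ndN4q3) (pc := pcN1) (cut := cut_pp_213_b) (xt := Ext.none) (P1 := 1239849684) (W1 := 370763052) (P2 := 0) (W2 := 1230186008) (P3 := 67108864) (W3 := 67108864) (N0 := 3)
    rfl rfl rfl k0_pp_213_b

noncomputable def f_pp_303 : ℕ → ℕ → ℕ → ℕ → Bool := onCell 1610612736 536870912 0 1230186008 67108864 67108864
    (rowNK 3 0 false true true .npn 3 0 3 (qsf 1610612736 536870912 0 1230186008 0) ndN1q3 ndN4q3 pcN0 Cut.none Ext.none)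

def k0_pp_303 : ∃ t, chk3 f_pp_303 t 1 1 1 = true :=
  ⟨(b (l 3) (l 5)), by decide +kernel⟩

theorem c_pp_303 : CertN 1610612736 536870912 0 1230186008 67108864 67108864 3 false true true .npn 3 0 3
    ndN1q3 ndN4q3 pcN0 Cut.none Ext.none :=
  certNK0 (fam := false) (s1 := true) (s2 := true) (a := 3) (b := 0) (c := 3) (cn := .npn) (n1 := ndN1q3) (n2 := ndN4q3) (pc := pcN0) (cut := Cut.none) (xt := Ext.none) (P1 := 1610612736) (W1 := 536870912) (P2 := 0) (W2 := 1230186008) (P3 := 67108864) (W3 := 67108864) (N0 := 3)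
    rfl rfl rfl k0_pp_303

noncomputable def f_pp_313 : ℕ → ℕ → ℕ → ℕ → Bool := onCell 1610612736 536870912 0 1230186008 67108864 67108864
    (rowNK 3 0 false true true .dn 3 1 3 (qsf 1610612736 536870912 0 1230186008 1) ndN1q3 ndN4q3 pcN1 Cut.none Ext.none)

def k0_pp_313 : ∃ t, chk3 f_pp_313 t 1 1 1 = true :=
  ⟨(b (l 3) (l 1)), by decide +kernel⟩

theorem c_pp_313 : CertN 1610612736 536870912 0 1230186008 67108864 67108864 3 false true true .dn 3 1 3
    ndN1q3 ndN4q3 pcN1 Cut.none Ext.none :=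
  certNK0 (fam := false) (s1 := true) (s2 := true) (a := 3) (b := 1) (c := 3) (cn := .dn) (n1 := ndN1q3) (n2 := ndN4q3) (pc := pcN1) (cut := Cut.none) (xt := Ext.none) (P1 := 1610612736) (W1 := 536870912) (P2 := 0) (W2 := 1230186008) (P3 := 67108864) (W3 := 67108864) (N0 := 3)
    rfl rfl rfl k0_pp_313

noncomputable def f_pm_001 : ℕ → ℕ → ℕ → ℕ → Bool := onCell 0 536870912 536870912 536870912 67108864 67108864
    (rowNK 3 0 false true false .up 0 0 1 (qsf 0 536870912 536870912 536870912 0) ndN1q0 ndN4q1 pcN0 Cut.none Ext.none)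

def k0_pm_001 : ∃ t, chk3 f_pm_001 t 1 1 1 = true :=
  ⟨(l 4), by decide +kernel⟩

theorem c_pm_001 : CertN 0 536870912 536870912 536870912 67108864 67108864 3 false true false .up 0 0 1
    ndN1q0 ndN4q1 pcN0 Cut.none Ext.none :=
  certNK0 (fam := false) (s1 := true) (s2 := false) (a := 0) (b := 0) (c := 1) (cn := .up) (n1 := ndN1q0) (n2 := ndN4q1) (pc := pcN0) (cut := Cut.none) (xt := Ext.none) (P1 := 0) (W1 := 536870912) (P2 := 536870912) (W2 := 536870912) (P3 := 67108864) (W3 := 67108864) (N0 := 3)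
    rfl rfl rfl k0_pm_001

noncomputable def f_pm_011 : ℕ → ℕ → ℕ → ℕ → Bool := onCell 0 536870912 536870912 536870912 67108864 67108864
    (rowNK 3 0 false true false .pnn 0 1 1 (qsf 0 536870912 536870912 536870912 1) ndN1q0 ndN4q1 pcN1 Cut.none Ext.none)

def k0_pm_011 : ∃ t, chk3 f_pm_011 t 1 1 1 = true :=
  ⟨(l 4), by decide +kernel⟩

theorem c_pm_011 : CertN 0 536870912 536870912 536870912 67108864 67108864 3 false true false .pnn 0 1 1
    ndN1q0 ndN4q1 pcN1 Cut.none Ext.none :=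
  certNK0 (fam := false) (s1 := true) (s2 := false) (a := 0) (b := 1) (c := 1) (cn := .pnn) (n1 := ndN1q0) (n2 := ndN4q1) (pc := pcN1) (cut := Cut.none) (xt := Ext.none) (P1 := 0) (W1 := 536870912) (P2 := 536870912) (W2 := 536870912) (P3 := 67108864) (W3 := 67108864) (N0 := 3)
    rfl rfl rfl k0_pm_011

noncomputable def f_pm_012 : ℕ → ℕ → ℕ → ℕ → Bool := onCell 0 536870912 1073741824 536870912 67108864 67108864
    (rowNK 3 0 false true false .pnp 0 1 2 (qsf 0 536870912 1073741824 536870912 1) ndN1q0 ndN4q2 pcN1 Cut.none Ext.none)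

def k0_pm_012 : ∃ t, chk3 f_pm_012 t 1 1 1 = true :=
  ⟨(l 4), by decide +kernel⟩

theorem c_pm_012 : CertN 0 536870912 1073741824 536870912 67108864 67108864 3 false true false .pnp 0 1 2
    ndN1q0 ndN4q2 pcN1 Cut.none Ext.none :=
  certNK0 (fam := false) (s1 := true) (s2 := false) (a := 0) (b := 1) (c := 2) (cn := .pnp) (n1 := ndN1q0) (n2 := ndN4q2) (pc := pcN1) (cut := Cut.none) (xt := Ext.none) (P1 := 0) (W1 := 536870912) (P2 := 1073741824) (W2 := 536870912) (P3 := 67108864) (W3 := 67108864) (N0 := 3)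
    rfl rfl rfl k0_pm_012

noncomputable def f_pm_022 : ℕ → ℕ → ℕ → ℕ → Bool := onCell 0 536870912 1073741824 536870912 67108864 67108864
    (rowNK 3 0 false true false .pp 0 2 2 (qsf 0 536870912 1073741824 536870912 2) ndN1q0 ndN4q2 pcN2 Cut.none Ext.none)

def k0_pm_022 : ∃ t, chk3 f_pm_022 t 1 1 1 = true :=
  ⟨(l 4), by decide +kernel⟩

theorem c_pm_022 : CertN 0 536870912 1073741824 536870912 67108864 67108864 3 false true false .pp 0 2 2
    ndN1q0 ndN4q2 pcN2 Cut.none Ext.none :=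
  certNK0 (fam := false) (s1 := true) (s2 := false) (a := 0) (b := 2) (c := 2) (cn := .pp) (n1 := ndN1q0) (n2 := ndN4q2) (pc := pcN2) (cut := Cut.none) (xt := Ext.none) (P1 := 0) (W1 := 536870912) (P2 := 1073741824) (W2 := 536870912) (P3 := 67108864) (W3 := 67108864) (N0 := 3)
    rfl rfl rfl k0_pm_022

noncomputable def f_pm_023 : ℕ → ℕ → ℕ → ℕ → Bool := onCell 0 536870912 0 1230186008 67108864 67108864
    (rowNK 3 0 false true false .up 0 2 3 (qsf 0 536870912 0 1230186008 2) ndN1q0 ndN4q3 pcN2 Cut.none Ext.none)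

def k0_pm_023 : ∃ t, chk3 f_pm_023 t 1 1 1 = true :=
  ⟨(b (a (l 2) (l 4)) (l 4)), by decide +kernel⟩

theorem c_pm_023 : CertN 0 536870912 0 1230186008 67108864 67108864 3 false true false .up 0 2 3
    ndN1q0 ndN4q3 pcN2 Cut.none Ext.none :=
  certNK0 (fam := false) (s1 := true) (s2 := false) (a := 0) (b := 2) (c := 3) (cn := .up) (n1 := ndN1q0) (n2 := ndN4q3) (pc := pcN2) (cut := Cut.none) (xt := Ext.none) (P1 := 0) (W1 := 536870912) (P2 := 0) (W2 := 1230186008) (P3 := 67108864) (W3 := 67108864) (N0 := 3)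
    rfl rfl rfl k0_pm_023

noncomputable def f_pm_033 : ℕ → ℕ → ℕ → ℕ → Bool := onCell 0 536870912 0 1230186008 67108864 67108864
    (rowNK 3 0 false true false .pnn 0 3 3 (qsf 0 536870912 0 1230186008 3) ndN1q0 ndN4q3 pcN3 Cut.none Ext.none)

def k0_pm_033 : ∃ t, chk3 f_pm_033 t 1 1 1 = true :=
  ⟨(b (a (l 4) (l 4)) (l 4)), by decide +kernel⟩

theorem c_pm_033 : CertN 0 536870912 0 1230186008 67108864 67108864 3 false true false .pnn 0 3 3
    ndN1q0 ndN4q3 pcN3 Cut.none Ext.none :=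
  certNK0 (fam := false) (s1 := true) (s2 := false) (a := 0) (b := 3) (c := 3) (cn := .pnn) (n1 := ndN1q0) (n2 := ndN4q3) (pc := pcN3) (cut := Cut.none) (xt := Ext.none) (P1 := 0) (W1 := 536870912) (P2 := 0) (W2 := 1230186008) (P3 := 67108864) (W3 := 67108864) (N0 := 3)
    rfl rfl rfl k0_pm_033

noncomputable def f_pm_101 : ℕ → ℕ → ℕ → ℕ → Bool := onCell 536870912 536870912 536870912 536870912 67108864 67108864
    (rowNK 3 0 false true false .npn 1 0 1 (qsf 536870912 536870912 536870912 536870912 0) ndN1q1 ndN4q1 pcN0 Cut.none Ext.none)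

def k0_pm_101 : ∃ t, chk3 f_pm_101 t 1 1 1 = true :=
  ⟨(l 4), by decide +kernel⟩

theorem c_pm_101 : CertN 536870912 536870912 536870912 536870912 67108864 67108864 3 false true false .npn 1 0 1
    ndN1q1 ndN4q1 pcN0 Cut.none Ext.none :=
  certNK0 (fam := false) (s1 := true) (s2 := false) (a := 1) (b := 0) (c := 1) (cn := .npn) (n1 := ndN1q1) (n2 := ndN4q1) (pc := pcN0) (cut := Cut.none) (xt := Ext.none) (P1 := 536870912) (W1 := 536870912) (P2 := 536870912) (W2 := 536870912) (P3 := 67108864) (W3 := 67108864) (N0 := 3)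
    rfl rfl rfl k0_pm_101

noncomputable def f_pm_102 : ℕ → ℕ → ℕ → ℕ → Bool := onCell 536870912 536870912 1073741824 536870912 67108864 67108864
    (rowNK 3 0 false true false .npp 1 0 2 (qsf 536870912 536870912 1073741824 536870912 0) ndN1q1 ndN4q2 pcN0 Cut.none Ext.none)

def k0_pm_102 : ∃ t, chk3 f_pm_102 t 1 1 1 = true :=
  ⟨(l 4), by decide +kernel⟩

theorem c_pm_102 : CertN 536870912 536870912 1073741824 536870912 67108864 67108864 3 false true false .npp 1 0 2
    ndN1q1 ndN4q2 pcN0 Cut.none Ext.none :=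
  certNK0 (fam := false) (s1 := true) (s2 := false) (a := 1) (b := 0) (c := 2) (cn := .npp) (n1 := ndN1q1) (n2 := ndN4q2) (pc := pcN0) (cut := Cut.none) (xt := Ext.none) (P1 := 536870912) (W1 := 536870912) (P2 := 1073741824) (W2 := 536870912) (P3 := 67108864) (W3 := 67108864) (N0 := 3)
    rfl rfl rfl k0_pm_102

noncomputable def f_pm_112 : ℕ → ℕ → ℕ → ℕ → Bool := onCell 536870912 536870912 1073741824 536870912 67108864 67108864
    (rowNK 3 0 false true false .dn 1 1 2 (qsf 536870912 536870912 1073741824 536870912 1) ndN1q1 ndN4q2 pcN1 Cut.none Ext.none)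

def k0_pm_112 : ∃ t, chk3 f_pm_112 t 1 1 1 = true :=
  ⟨(l 4), by decide +kernel⟩

theorem c_pm_112 : CertN 536870912 536870912 1073741824 536870912 67108864 67108864 3 false true false .dn 1 1 2
    ndN1q1 ndN4q2 pcN1 Cut.none Ext.none :=
  certNK0 (fam := false) (s1 := true) (s2 := false) (a := 1) (b := 1) (c := 2) (cn := .dn) (n1 := ndN1q1) (n2 := ndN4q2) (pc := pcN1) (cut := Cut.none) (xt := Ext.none) (P1 := 536870912) (W1 := 536870912) (P2 := 1073741824) (W2 := 536870912) (P3 := 67108864) (W3 := 67108864) (N0 := 3)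
    rfl rfl rfl k0_pm_112

noncomputable def f_pm_113 : ℕ → ℕ → ℕ → ℕ → Bool := onCell 536870912 536870912 0 1230186008 67108864 67108864
    (rowNK 3 0 false true false .nn 1 1 3 (qsf 536870912 536870912 0 1230186008 1) ndN1q1 ndN4q3 pcN1 Cut.none Ext.none)

def k0_pm_113 : ∃ t, chk3 f_pm_113 t 1 1 1 = true :=
  ⟨(b (a (l 2) (a (l 2) (b (l 295382295223) (b (a (l 18290912) (a (l 17851760) (b (l 17497864) (b (a (l 17696176) (l 17574384)) (b (a (l 17731776) (l 17612400)) (l 17680040)))))) (l 18001168))))) (l 4)), by decide +kernel⟩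

theorem c_pm_113 : CertN 536870912 536870912 0 1230186008 67108864 67108864 3 false true false .nn 1 1 3
    ndN1q1 ndN4q3 pcN1 Cut.none Ext.none :=
  certNK0 (fam := false) (s1 := true) (s2 := false) (a := 1) (b := 1) (c := 3) (cn := .nn) (n1 := ndN1q1) (n2 := ndN4q3) (pc := pcN1) (cut := Cut.none) (xt := Ext.none) (P1 := 536870912) (W1 := 536870912) (P2 := 0) (W2 := 1230186008) (P3 := 67108864) (W3 := 67108864) (N0 := 3)
    rfl rfl rfl k0_pm_113

noncomputable def f_pm_123 : ℕ → ℕ → ℕ → ℕ → Bool := onCell 1073741824 536870912 0 1230186008 67108864 67108864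
    (rowNK 3 2 false true false .npn 1 2 3 (qsf 536870912 536870912 0 1230186008 2) ndN1q1 ndN4q3 pcN2 Cut.none Ext.none)

def k0_pm_123 : ∃ t, chk3 f_pm_123 t 1 1 1 = true :=
  ⟨(b (a (a (b (l 17613088) (l 18233672)) (l 17963584)) (a (l 18220984) (l 18288792))) (l 4)), by decide +kernel⟩

theorem c_pm_123 : CertN 536870912 536870912 0 1230186008 67108864 67108864 3 false true false .npn 1 2 3
    ndN1q1 ndN4q3 pcN2 Cut.none Ext.none :=
  certNK2 (fam := false) (s1 := true) (s2 := false) (a := 1) (b := 2) (c := 3) (cn := .npn) (n1 := ndN1q1) (n2 := ndN4q3) (pc := pcN2) (cut := Cut.none) (xt := Ext.none) (P1 := 536870912) (W1 := 536870912) (P2 := 0) (W2 := 1230186008) (P3 := 67108864) (W3 := 67108864) (N0 := 3)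
    rfl rfl rfl (fun _ => rfl) k0_pm_123

noncomputable def f_pm_133 : ℕ → ℕ → ℕ → ℕ → Bool := onCell 1610612736 536870912 0 1230186008 67108864 67108864
    (rowNK 3 2 false true false .dn 1 3 3 (qsf 536870912 536870912 0 1230186008 3) ndN1q1 ndN4q3 pcN3 Cut.none Ext.none)

def k0_pm_133 : ∃ t, chk3 f_pm_133 t 1 1 1 = true :=
  ⟨(b (a (a (l 4) (l 1)) (l 1)) (l 1)), by decide +kernel⟩

theorem c_pm_133 : CertN 536870912 536870912 0 1230186008 67108864 67108864 3 false true false .dn 1 3 3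
    ndN1q1 ndN4q3 pcN3 Cut.none Ext.none :=
  certNK2 (fam := false) (s1 := true) (s2 := false) (a := 1) (b := 3) (c := 3) (cn := .dn) (n1 := ndN1q1) (n2 := ndN4q3) (pc := pcN3) (cut := Cut.none) (xt := Ext.none) (P1 := 536870912) (W1 := 536870912) (P2 := 0) (W2 := 1230186008) (P3 := 67108864) (W3 := 67108864) (N0 := 3)
    rfl rfl rfl (fun _ => rfl) k0_pm_133

noncomputable def f_pm_202_a : ℕ → ℕ → ℕ → ℕ → Bool := onCell 0 536870912 1073741824 536870912 67108864 67108864
    (rowNK 3 0 false true false .pp 2 0 2 (qsf 0 536870912 1073741824 536870912 0) ndN1q2a ndN4q2 pcN0 Cut.none Ext.none)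

def k0_pm_202_a : ∃ t, chk3 f_pm_202_a t 1 1 1 = true :=
  ⟨(a (b (b (b (l 1) (l 19488816)) (l 19143576)) (b (l 18603008) (b (l 17995208) (a (l 17494664) (l 17553272))))) (b (l 4) (b (a (l 18761504) (l 43189378103)) (a (l 18033944) (b (l 18543768) (l 18132640)))))), by decide +kernel⟩

theorem c_pm_202_a : CertN 0 536870912 1073741824 536870912 67108864 67108864 3 false true false .pp 2 0 2
    ndN1q2a ndN4q2 pcN0 Cut.none Ext.none :=
  certNK0 (fam := false) (s1 := true) (s2 := false) (a := 2) (b := 0) (c := 2) (cn := .pp) (n1 := ndN1q2a) (n2 := ndN4q2) (pc := pcN0) (cut := Cut.none) (xt := Ext.none) (P1 := 0) (W1 := 536870912) (P2 := 1073741824) (W2 := 536870912) (P3 := 67108864) (W3 := 67108864) (N0 := 3)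
    rfl rfl rfl k0_pm_202_a

noncomputable def f_pm_202_b : ℕ → ℕ → ℕ → ℕ → Bool := onCell 0 536870912 1073741824 536870912 67108864 67108864
    (rowNK 3 2 false true false .pp 2 0 2 (qsf 1239849684 370763052 1073741824 536870912 0) ndN1q2b ndN4q2 pcN0 Cut.none Ext.none)

def k0_pm_202_b : ∃ t, chk3 f_pm_202_b t 1 1 1 = true :=
  ⟨(a (b (a (l 289949581047) (l 1)) (a (b (l 18607992) (l 18075264)) (b (l 18484640) (l 17851408)))) (b (l 1) (b (l 1) (a (b (l 17713528) (l 17483264)) (l 1))))), by decide +kernel⟩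

theorem c_pm_202_b : CertN 1239849684 370763052 1073741824 536870912 67108864 67108864 3 false true false .pp 2 0 2
    ndN1q2b ndN4q2 pcN0 Cut.none Ext.none :=
  certNK2 (fam := false) (s1 := true) (s2 := false) (a := 2) (b := 0) (c := 2) (cn := .pp) (n1 := ndN1q2b) (n2 := ndN4q2) (pc := pcN0) (cut := Cut.none) (xt := Ext.none) (P1 := 1239849684) (W1 := 370763052) (P2 := 1073741824) (W2 := 536870912) (P3 := 67108864) (W3 := 67108864) (N0 := 3)
    rfl rfl rfl (fun _ => rfl) k0_pm_202_b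

noncomputable def f_pm_203_a : ℕ → ℕ → ℕ → ℕ → Bool := onCell 0 536870912 0 1230186008 67108864 67108864
    (rowNK 3 0 false true false .up 2 0 3 (qsf 0 536870912 0 1230186008 0) ndN1q2a ndN4q3 pcN0 Cut.none Ext.none)

def k0_pm_203_a : ∃ t, chk3 f_pm_203_a t 1 1 1 = true :=
  ⟨(b (l 2) (b (l 2) (b (a (b (l 2) (l 17717760)) (l 2)) (b (b (a (a (l 17973024) (l 18026488)) (a (l 17723112) (l 2))) (a (a (l 17995264) (l 17590520)) (a (l 17492880) (a (l 17759904) (l 2))))) (a (b (a (l 17591464) (l 17455792)) (a (l 17407384) (l 17574168))) (a (b (l 17627328) (l 17466112)) (l 17510264))))))), by decide +kernel⟩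

theorem c_pm_203_a : CertN 0 536870912 0 1230186008 67108864 67108864 3 false true false .up 2 0 3
    ndN1q2a ndN4q3 pcN0 Cut.none Ext.none :=
  certNK0 (fam := false) (s1 := true) (s2 := false) (a := 2) (b := 0) (c := 3) (cn := .up) (n1 := ndN1q2a) (n2 := ndN4q3) (pc := pcN0) (cut := Cut.none) (xt := Ext.none) (P1 := 0) (W1 := 536870912) (P2 := 0) (W2 := 1230186008) (P3 := 67108864) (W3 := 67108864) (N0 := 3)
    rfl rfl rfl k0_pm_203_a

noncomputable def f_pm_203_b : ℕ → ℕ → ℕ → ℕ → Bool := onCell 0 536870912 0 1230186008 67108864 67108864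
    (rowNK 3 2 false true false .up 2 0 3 (qsf 1239849684 370763052 0 1230186008 0) ndN1q2b ndN4q3 pcN0 Cut.none Ext.none)

def k0_pm_203_b : ∃ t, chk3 f_pm_203_b t 1 1 1 = true :=
  ⟨(b (a (l 2) (l 3)) (a (b (a (l 2) (l 641663867991)) (a (b (l 2) (a (l 17445440) (l 17497920))) (b (a (l 17914184) (l 17679000)) (b (l 17500896) (l 17574032))))) (b (a (l 141366763303) (l 127407686855)) (a (b (a (l 17460664) (l 17116800)) (a (l 17346824) (b (l 17615320) (l 17462424)))) (b (b (l 17018424) (l 17399104)) (a (b (l 17860688) (l 17758064)) (b (l 18037688) (l 1)))))))), by decide +kernel⟩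

theorem c_pm_203_b : CertN 1239849684 370763052 0 1230186008 67108864 67108864 3 false true false .up 2 0 3
    ndN1q2b ndN4q3 pcN0 Cut.none Ext.none :=
  certNK2 (fam := false) (s1 := true) (s2 := false) (a := 2) (b := 0) (c := 3) (cn := .up) (n1 := ndN1q2b) (n2 := ndN4q3) (pc := pcN0) (cut := Cut.none) (xt := Ext.none) (P1 := 1239849684) (W1 := 370763052) (P2 := 0) (W2 := 1230186008) (P3 := 67108864) (W3 := 67108864) (N0 := 3)
    rfl rfl rfl (fun _ => rfl) k0_pm_203_b

noncomputable def cut_pm_213_a : Cut := Cut.of [[⟨0, 1, 0, 21338704⟩, ⟨1, 1, 0, 21338704⟩, ⟨2, 2, 0, 1685920⟩]]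

noncomputable def f_pm_213_a : ℕ → ℕ → ℕ → ℕ → Bool := onCell 0 536870912 0 1230186008 67108864 67108864
    (rowNK 3 0 false true false .pnn 2 1 3 (qsf 0 536870912 0 1230186008 1) ndN1q2a ndN4q3 pcN1 cut_pm_213_a Ext.none)

def k0_pm_213_a : ∃ t, chk3 f_pm_213_a t 1 1 1 = true :=
  ⟨(b (a (b (b (l 3) (a (l 3) (l 293836322775))) (b (a (l 306184374935) (l 219211755639)) (a (l 17024544) (l 17124296)))) (b (a (b (l 3) (b (l 268066489431) (l 16988784))) (a (b (b (l 3) (l 271287650055)) (l 16924328)) (b (b (a (l 292762463719) (a (l 277193221511) (b (l 6) (l 16785872)))) (l 16865640)) (l 16843832)))) (a (b (l 16982592) (l 17169616)) (b (l 17065808) (l 17106488))))) (b (a (b (l 17370416) (a (l 17692088) (l 17809832))) (a (b (l 17471904) (l 17813264)) (b (b (l 17311504) (l 17448936)) (l 17628848)))) (b (a (b (l 18029264) (l 18313496)) (b (l 17995760) (a (b (l 18321968) (l 18308488)) (a (b (l 18179240) (l 17991816)) (b (l 17887480) (l 17501752)))))) (a (b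 (b (a (l 1) (l 18404216)) (l 1)) (l 1)) (a (b (b (l 17853352) (l 17521664)) (l 1)) (b (a (b (l 17265208) (l 18079216)) (b (l 17847528) (l 18261736))) (l 18375600))))))), by decide +kernel⟩

theorem c_pm_213_a : CertN 0 536870912 0 1230186008 67108864 67108864 3 false true false .pnn 2 1 3
    ndN1q2a ndN4q3 pcN1 cut_pm_213_a Ext.none :=
  certNK0 (fam := false) (s1 := true) (s2 := false) (a := 2) (b := 1) (c := 3) (cn := .pnn) (n1 := ndN1q2a) (n2 := ndN4q3) (pc := pcN1) (cut := cut_pm_213_a) (xt := Ext.none) (P1 := 0) (W1 := 536870912) (P2 := 0) (W2 := 1230186008) (P3 := 67108864) (W3 := 67108864) (N0 := 3)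
    rfl rfl rfl k0_pm_213_a

noncomputable def cut_pm_213_b : Cut := Cut.of [[⟨0, 1, 0, 21338704⟩, ⟨1, 1, 0, 21338704⟩, ⟨2, 2, 0, 1685920⟩]]

noncomputable def f_pm_213_b : ℕ → ℕ → ℕ → ℕ → Bool := onCell 1239849684 370763052 0 1230186008 67108864 67108864
    (rowNK 3 0 false true false .pnn 2 1 3 (qsf 1239849684 370763052 0 1230186008 1) ndN1q2b ndN4q3 pcN1 cut_pm_213_b Ext.none)

def k0_pm_213_b : ∃ t, chk3 f_pm_213_b t 1 1 1 = true :=
  ⟨(b (b (l 3) (a (b (l 3) (a (b (l 17044864) (l 17067232)) (l 229949486199))) (l 3))) (b (a (b (a (l 17301056) (l 17382608)) (a (l 17682408) (l 17783528))) (b (a (l 17465328) (l 1)) (l 1))) (a (b (b (l 18047368) (a (l 18256512) (l 1))) (l 1)) (l 1)))), by decide +kernel⟩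

theorem c_pm_213_b : CertN 1239849684 370763052 0 1230186008 67108864 67108864 3 false true false .pnn 2 1 3
    ndN1q2b ndN4q3 pcN1 cut_pm_213_b Ext.none :=
  certNK0 (fam := false) (s1 := true) (s2 := false) (a := 2) (b := 1) (c := 3) (cn := .pnn) (n1 := ndN1q2b) (n2 := ndN4q3) (pc := pcN1) (cut := cut_pm_213_b) (xt := Ext.none) (P1 := 1239849684) (W1 := 370763052) (P2 := 0) (W2 := 1230186008) (P3 := 67108864) (W3 := 67108864) (N0 := 3)
    rfl rfl rfl k0_pm_213_b

noncomputable def f_pm_303 : ℕ → ℕ → ℕ → ℕ → Bool := onCell 0 536870912 0 1230186008 67108864 67108864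
    (rowNK 3 2 false true false .npn 3 0 3 (qsf 1610612736 536870912 0 1230186008 0) ndN1q3 ndN4q3 pcN0 Cut.none Ext.none)

def k0_pm_303 : ∃ t, chk3 f_pm_303 t 1 1 1 = true :=
  ⟨(b (a (l 3) (l 3)) (a (b (b (l 3) (a (a (b (l 3) (l 18267720)) (l 17976056)) (l 17558472))) (a (b (a (l 17879040) (l 17730080)) (a (l 16964688) (l 16795648))) (b (a (l 17526760) (l 17083272)) (b (l 16982120) (l 1))))) (b (a (b (l 189684347159) (l 17259840)) (b (l 17656224) (l 1))) (l 1)))), by decide +kernel⟩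

theorem c_pm_303 : CertN 1610612736 536870912 0 1230186008 67108864 67108864 3 false true false .npn 3 0 3
    ndN1q3 ndN4q3 pcN0 Cut.none Ext.none :=
  certNK2 (fam := false) (s1 := true) (s2 := false) (a := 3) (b := 0) (c := 3) (cn := .npn) (n1 := ndN1q3) (n2 := ndN4q3) (pc := pcN0) (cut := Cut.none) (xt := Ext.none) (P1 := 1610612736) (W1 := 536870912) (P2 := 0) (W2 := 1230186008) (P3 := 67108864) (W3 := 67108864) (N0 := 3)
    rfl rfl rfl (fun _ => rfl) k0_pm_303

noncomputable def f_pm_313 : ℕ → ℕ → ℕ → ℕ → Bool := onCell 1610612736 536870912 0 1230186008 67108864 67108864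
    (rowNK 3 0 false true false .dn 3 1 3 (qsf 1610612736 536870912 0 1230186008 1) ndN1q3 ndN4q3 pcN1 Cut.none Ext.none)

def k0_pm_313 : ∃ t, chk3 f_pm_313 t 1 1 1 = true :=
  ⟨(b (l 3) (l 1)), by decide +kernel⟩

theorem c_pm_313 : CertN 1610612736 536870912 0 1230186008 67108864 67108864 3 false true false .dn 3 1 3
    ndN1q3 ndN4q3 pcN1 Cut.none Ext.none :=
  certNK0 (fam := false) (s1 := true) (s2 := false) (a := 3) (b := 1) (c := 3) (cn := .dn) (n1 := ndN1q3) (n2 := ndN4q3) (pc := pcN1) (cut := Cut.none) (xt := Ext.none) (P1 := 1610612736) (W1 := 536870912) (P2 := 0) (W2 := 1230186008) (P3 := 67108864) (W3 := 67108864) (N0 := 3)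
    rfl rfl rfl k0_pm_313

noncomputable def f_mm_001 : ℕ → ℕ → ℕ → ℕ → Bool := onCell 0 536870912 0 536870912 67108864 67108864
    (rowNK 3 1 false false false .up 0 0 1 (qsf 0 536870912 536870912 536870912 0) ndN1q0 ndN4q1 pcN0 Cut.none Ext.none)

def k0_mm_001 : ∃ t, chk3 f_mm_001 t 1 1 1 = true :=
  ⟨(l 3), by decide +kernel⟩

theorem c_mm_001 : CertN 0 536870912 536870912 536870912 67108864 67108864 3 false false false .up 0 0 1
    ndN1q0 ndN4q1 pcN0 Cut.none Ext.none :=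
  certNK1 (fam := false) (s1 := false) (s2 := false) (a := 0) (b := 0) (c := 1) (cn := .up) (n1 := ndN1q0) (n2 := ndN4q1) (pc := pcN0) (cut := Cut.none) (xt := Ext.none) (P1 := 0) (W1 := 536870912) (P2 := 536870912) (W2 := 536870912) (P3 := 67108864) (W3 := 67108864) (N0 := 3)
    rfl rfl rfl (fun _ => rfl) k0_mm_001

noncomputable def f_mm_011 : ℕ → ℕ → ℕ → ℕ → Bool := onCell 0 536870912 536870912 536870912 67108864 67108864
    (rowNK 3 1 false false false .pnn 0 1 1 (qsf 0 536870912 536870912 536870912 1) ndN1q0 ndN4q1 pcN1 Cut.none Ext.none)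

def k0_mm_011 : ∃ t, chk3 f_mm_011 t 1 1 1 = true :=
  ⟨(l 5), by decide +kernel⟩

theorem c_mm_011 : CertN 0 536870912 536870912 536870912 67108864 67108864 3 false false false .pnn 0 1 1
    ndN1q0 ndN4q1 pcN1 Cut.none Ext.none :=
  certNK1 (fam := false) (s1 := false) (s2 := false) (a := 0) (b := 1) (c := 1) (cn := .pnn) (n1 := ndN1q0) (n2 := ndN4q1) (pc := pcN1) (cut := Cut.none) (xt := Ext.none) (P1 := 0) (W1 := 536870912) (P2 := 536870912) (W2 := 536870912) (P3 := 67108864) (W3 := 67108864) (N0 := 3)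
    rfl rfl rfl (fun _ => rfl) k0_mm_011

noncomputable def f_mm_012 : ℕ → ℕ → ℕ → ℕ → Bool := onCell 0 536870912 1073741824 536870912 67108864 67108864
    (rowNK 3 0 false false false .pnp 0 1 2 (qsf 0 536870912 1073741824 536870912 1) ndN1q0 ndN4q2 pcN1 Cut.none Ext.none)

def k0_mm_012 : ∃ t, chk3 f_mm_012 t 1 1 1 = true :=
  ⟨(l 5), by decide +kernel⟩

theorem c_mm_012 : CertN 0 536870912 1073741824 536870912 67108864 67108864 3 false false false .pnp 0 1 2
    ndN1q0 ndN4q2 pcN1 Cut.none Ext.none :=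
  certNK0 (fam := false) (s1 := false) (s2 := false) (a := 0) (b := 1) (c := 2) (cn := .pnp) (n1 := ndN1q0) (n2 := ndN4q2) (pc := pcN1) (cut := Cut.none) (xt := Ext.none) (P1 := 0) (W1 := 536870912) (P2 := 1073741824) (W2 := 536870912) (P3 := 67108864) (W3 := 67108864) (N0 := 3)
    rfl rfl rfl k0_mm_012

noncomputable def f_mm_022 : ℕ → ℕ → ℕ → ℕ → Bool := onCell 0 536870912 1073741824 536870912 67108864 67108864
    (rowNK 3 0 false false false .pp 0 2 2 (qsf 0 536870912 1073741824 536870912 2) ndN1q0 ndN4q2 pcN2 Cut.none Ext.none)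

def k0_mm_022 : ∃ t, chk3 f_mm_022 t 1 1 1 = true :=
  ⟨(l 5), by decide +kernel⟩

theorem c_mm_022 : CertN 0 536870912 1073741824 536870912 67108864 67108864 3 false false false .pp 0 2 2
    ndN1q0 ndN4q2 pcN2 Cut.none Ext.none :=
  certNK0 (fam := false) (s1 := false) (s2 := false) (a := 0) (b := 2) (c := 2) (cn := .pp) (n1 := ndN1q0) (n2 := ndN4q2) (pc := pcN2) (cut := Cut.none) (xt := Ext.none) (P1 := 0) (W1 := 536870912) (P2 := 1073741824) (W2 := 536870912) (P3 := 67108864) (W3 := 67108864) (N0 := 3)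
    rfl rfl rfl k0_mm_022

noncomputable def f_mm_023 : ℕ → ℕ → ℕ → ℕ → Bool := onCell 0 536870912 0 1230186008 67108864 67108864
    (rowNK 3 0 false false false .up 0 2 3 (qsf 0 536870912 0 1230186008 2) ndN1q0 ndN4q3 pcN2 Cut.none Ext.none)

def k0_mm_023 : ∃ t, chk3 f_mm_023 t 1 1 1 = true :=
  ⟨(l 5), by decide +kernel⟩

theorem c_mm_023 : CertN 0 536870912 0 1230186008 67108864 67108864 3 false false false .up 0 2 3
    ndN1q0 ndN4q3 pcN2 Cut.none Ext.none :=
  certNK0 (fam := false) (s1 := false) (s2 := false) (a := 0) (b := 2) (c := 3) (cn := .up) (n1 := ndN1q0) (n2 := ndN4q3) (pc := pcN2) (cut := Cut.none) (xt := Ext.none) (P1 := 0) (W1 := 536870912) (P2 := 0) (W2 := 1230186008) (P3 := 67108864) (W3 := 67108864) (N0 := 3)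
    rfl rfl rfl k0_mm_023

noncomputable def f_mm_033 : ℕ → ℕ → ℕ → ℕ → Bool := onCell 0 536870912 0 1230186008 67108864 67108864
    (rowNK 3 0 false false false .pnn 0 3 3 (qsf 0 536870912 0 1230186008 3) ndN1q0 ndN4q3 pcN3 Cut.none Ext.none)

def k0_mm_033 : ∃ t, chk3 f_mm_033 t 1 1 1 = true :=
  ⟨(l 5), by decide +kernel⟩

theorem c_mm_033 : CertN 0 536870912 0 1230186008 67108864 67108864 3 false false false .pnn 0 3 3
    ndN1q0 ndN4q3 pcN3 Cut.none Ext.none :=
  certNK0 (fam := false) (s1 := false) (s2 := false) (a := 0) (b := 3) (c := 3) (cn := .pnn) (n1 := ndN1q0) (n2 := ndN4q3) (pc := pcN3) (cut := Cut.none) (xt := Ext.none) (P1 := 0) (W1 := 536870912) (P2 := 0) (W2 := 1230186008) (P3 := 67108864) (W3 := 67108864) (N0 := 3)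
    rfl rfl rfl k0_mm_033

noncomputable def f_mm_101 : ℕ → ℕ → ℕ → ℕ → Bool := onCell 536870912 536870912 536870912 536870912 67108864 67108864
    (rowNK 3 0 false false false .npn 1 0 1 (qsf 536870912 536870912 536870912 536870912 0) ndN1q1 ndN4q1 pcN0 Cut.none Ext.none)

def k0_mm_101 : ∃ t, chk3 f_mm_101 t 1 1 1 = true :=
  ⟨(l 3), by decide +kernel⟩

theorem c_mm_101 : CertN 536870912 536870912 536870912 536870912 67108864 67108864 3 false false false .npn 1 0 1
    ndN1q1 ndN4q1 pcN0 Cut.none Ext.none :=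
  certNK0 (fam := false) (s1 := false) (s2 := false) (a := 1) (b := 0) (c := 1) (cn := .npn) (n1 := ndN1q1) (n2 := ndN4q1) (pc := pcN0) (cut := Cut.none) (xt := Ext.none) (P1 := 536870912) (W1 := 536870912) (P2 := 536870912) (W2 := 536870912) (P3 := 67108864) (W3 := 67108864) (N0 := 3)
    rfl rfl rfl k0_mm_101

noncomputable def f_mm_102 : ℕ → ℕ → ℕ → ℕ → Bool := onCell 536870912 536870912 1073741824 536870912 67108864 67108864
    (rowNK 3 0 false false false .npp 1 0 2 (qsf 536870912 536870912 1073741824 536870912 0) ndN1q1 ndN4q2 pcN0 Cut.none Ext.none)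

def k0_mm_102 : ∃ t, chk3 f_mm_102 t 1 1 1 = true :=
  ⟨(l 3), by decide +kernel⟩

theorem c_mm_102 : CertN 536870912 536870912 1073741824 536870912 67108864 67108864 3 false false false .npp 1 0 2
    ndN1q1 ndN4q2 pcN0 Cut.none Ext.none :=
  certNK0 (fam := false) (s1 := false) (s2 := false) (a := 1) (b := 0) (c := 2) (cn := .npp) (n1 := ndN1q1) (n2 := ndN4q2) (pc := pcN0) (cut := Cut.none) (xt := Ext.none) (P1 := 536870912) (W1 := 536870912) (P2 := 1073741824) (W2 := 536870912) (P3 := 67108864) (W3 := 67108864) (N0 := 3)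
    rfl rfl rfl k0_mm_102

noncomputable def f_mm_112 : ℕ → ℕ → ℕ → ℕ → Bool := onCell 536870912 536870912 1073741824 536870912 67108864 67108864
    (rowNK 3 0 false false false .dn 1 1 2 (qsf 536870912 536870912 1073741824 536870912 1) ndN1q1 ndN4q2 pcN1 Cut.none Ext.none)

def k0_mm_112 : ∃ t, chk3 f_mm_112 t 1 1 1 = true :=
  ⟨(l 3), by decide +kernel⟩

theorem c_mm_112 : CertN 536870912 536870912 1073741824 536870912 67108864 67108864 3 false false false .dn 1 1 2
    ndN1q1 ndN4q2 pcN1 Cut.none Ext.none :=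
  certNK0 (fam := false) (s1 := false) (s2 := false) (a := 1) (b := 1) (c := 2) (cn := .dn) (n1 := ndN1q1) (n2 := ndN4q2) (pc := pcN1) (cut := Cut.none) (xt := Ext.none) (P1 := 536870912) (W1 := 536870912) (P2 := 1073741824) (W2 := 536870912) (P3 := 67108864) (W3 := 67108864) (N0 := 3)
    rfl rfl rfl k0_mm_112

noncomputable def f_mm_113 : ℕ → ℕ → ℕ → ℕ → Bool := onCell 536870912 536870912 0 1230186008 67108864 67108864
    (rowNK 3 0 false false false .nn 1 1 3 (qsf 536870912 536870912 0 1230186008 1) ndN1q1 ndN4q3 pcN1 Cut.none Ext.none)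

def k0_mm_113 : ∃ t, chk3 f_mm_113 t 1 1 1 = true :=
  ⟨(l 5), by decide +kernel⟩

theorem c_mm_113 : CertN 536870912 536870912 0 1230186008 67108864 67108864 3 false false false .nn 1 1 3
    ndN1q1 ndN4q3 pcN1 Cut.none Ext.none :=
  certNK0 (fam := false) (s1 := false) (s2 := false) (a := 1) (b := 1) (c := 3) (cn := .nn) (n1 := ndN1q1) (n2 := ndN4q3) (pc := pcN1) (cut := Cut.none) (xt := Ext.none) (P1 := 536870912) (W1 := 536870912) (P2 := 0) (W2 := 1230186008) (P3 := 67108864) (W3 := 67108864) (N0 := 3)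
    rfl rfl rfl k0_mm_113

noncomputable def f_mm_123 : ℕ → ℕ → ℕ → ℕ → Bool := onCell 536870912 536870912 0 1230186008 67108864 67108864
    (rowNK 3 0 false false false .npn 1 2 3 (qsf 536870912 536870912 0 1230186008 2) ndN1q1 ndN4q3 pcN2 Cut.none Ext.none)

def k0_mm_123 : ∃ t, chk3 f_mm_123 t 1 1 1 = true :=
  ⟨(l 5), by decide +kernel⟩

theorem c_mm_123 : CertN 536870912 536870912 0 1230186008 67108864 67108864 3 false false false .npn 1 2 3
    ndN1q1 ndN4q3 pcN2 Cut.none Ext.none :=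
  certNK0 (fam := false) (s1 := false) (s2 := false) (a := 1) (b := 2) (c := 3) (cn := .npn) (n1 := ndN1q1) (n2 := ndN4q3) (pc := pcN2) (cut := Cut.none) (xt := Ext.none) (P1 := 536870912) (W1 := 536870912) (P2 := 0) (W2 := 1230186008) (P3 := 67108864) (W3 := 67108864) (N0 := 3)
    rfl rfl rfl k0_mm_123

noncomputable def f_mm_133 : ℕ → ℕ → ℕ → ℕ → Bool := onCell 536870912 536870912 0 1230186008 67108864 67108864
    (rowNK 3 0 false false false .dn 1 3 3 (qsf 536870912 536870912 0 1230186008 3) ndN1q1 ndN4q3 pcN3 Cut.none Ext.none)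

def k0_mm_133 : ∃ t, chk3 f_mm_133 t 1 1 1 = true :=
  ⟨(l 5), by decide +kernel⟩

theorem c_mm_133 : CertN 536870912 536870912 0 1230186008 67108864 67108864 3 false false false .dn 1 3 3
    ndN1q1 ndN4q3 pcN3 Cut.none Ext.none :=
  certNK0 (fam := false) (s1 := false) (s2 := false) (a := 1) (b := 3) (c := 3) (cn := .dn) (n1 := ndN1q1) (n2 := ndN4q3) (pc := pcN3) (cut := Cut.none) (xt := Ext.none) (P1 := 536870912) (W1 := 536870912) (P2 := 0) (W2 := 1230186008) (P3 := 67108864) (W3 := 67108864) (N0 := 3)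
    rfl rfl rfl k0_mm_133

noncomputable def cut_mm_202_a : Cut := Cut.of [[⟨0, 1, 0, 67108864⟩, ⟨1, 0, 0, 67108864⟩, ⟨2, 1, 0, 67108864⟩]]

noncomputable def f_mm_202_a : ℕ → ℕ → ℕ → ℕ → Bool := onCell 0 536870912 0 536870912 67108864 67108864
    (rowNK 3 1 false false false .pp 2 0 2 (qsf 0 536870912 1073741824 536870912 0) ndN1q2a ndN4q2 pcN0 cut_mm_202_a Ext.none)

def k0_mm_202_a : ∃ t, chk3 f_mm_202_a t 1 4 1 = true :=
  ⟨(a (b (a (b (l 17639656) (a (l 17815880) (b (l 17850280) (l 17854152)))) (a (b (l 17702744) (b (l 17849984) (l 17761072))) (b (b (l 17449584) (a (l 17715392) (l 17663056))) (b (b (l 17698592) (l 17707376)) (l 17684976))))) (a (b (b (l 17910624) (a (l 17662976) (l 17699816))) (l 17596248)) (b (a (l 17691784) (a (l 135997535191) (l 141366393655))) (a (l 229949868327) (l 3))))) (b (a (b (a (b (a (l 17261152) (l 16872544)) (a (b (l 17506624) (l 17529008)) (b (l 17097984) (l 17383976)))) (b (b (a (l 16736656) (a (l 16714720) (l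 16759584))) (a (b (l 16795992) (l 16928672)) (b (l 16743704) (l 16717512)))) (a (b (a (l 17119768) (l 16986576)) (a (l 17238984) (l 17124496))) (b (a (l 16823720) (l 16704368)) (a (l 147270332567) (b (l 16781640) (l 222432503687))))))) (a (b (a (l 17574016) (b (l 17432112) (l 17308744))) (a (l 17461144) (a (l 115595930391) (l 280415673607)))) (b (b (a (c (l 17563624) (a (l 17003048) (l 148344022695))) (a (c (l 267530248231) (l 204178734327)) (l 3))) (a (c (l 279341697015) (l 240686465479)) (l 3))) (l 3)))) (b (a (b (a (b (b (l 16739240) (a (l 16695432) (l 16750712))) (a (b (l 16743640) (l 16676576)) (b (l 16717656) (l 16689024)))) (b (a (b (l 6) (b (l 6) (l 16729408))) (l 6)) (a (b (a (l 16698072) (l 16705216)) (a (l 16706016) (l 139217264599))) (b (l 6) (b (l 6) (l 211157934727)))))) (a (b (a (a (l 16721176) (l 147807111463)) (b (a (l 16695888) (l 166597592263)) (l 210621022839))) (a (b (l 205252284359) (l 3)) (l 3))) (b (a (b (a (l 155323321607)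 (l 194514914183)) (l 3)) (l 3)) (l 3)))) (b (l 6) (l 3))) (l 3))) (a (a (b (b (l 278805139031) (l 3)) (l 3)) (l 3)) (l 3)))), by decide +kernel⟩

def k1_mm_202_a : ∃ t, chk3 f_mm_202_a t 1 5 1 = true :=
  ⟨(a (b (a (b (l 203106472663) (l 204179826423)) (l 3)) (a (b (l 227265013447) (l 3)) (l 3))) (l 3)), by decide +kernel⟩

def k2_mm_202_a : ∃ t, chk3 f_mm_202_a t 1 3 1 = true :=
  ⟨(l 3), by decide +kernel⟩

theorem s3_mm_202_a : ∃ t, chk3 f_mm_202_a t 1 2 1 = true := ex3_b k0_mm_202_a k1_mm_202_a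

theorem s4_mm_202_a : ∃ t, chk3 f_mm_202_a t 1 1 1 = true := ex3_b s3_mm_202_a k2_mm_202_a

theorem c_mm_202_a : CertN 0 536870912 1073741824 536870912 67108864 67108864 3 false false false .pp 2 0 2
    ndN1q2a ndN4q2 pcN0 cut_mm_202_a Ext.none :=
  certNK1 (fam := false) (s1 := false) (s2 := false) (a := 2) (b := 0) (c := 2) (cn := .pp) (n1 := ndN1q2a) (n2 := ndN4q2) (pc := pcN0) (cut := cut_mm_202_a) (xt := Ext.none) (P1 := 0) (W1 := 536870912) (P2 := 1073741824) (W2 := 536870912) (P3 := 67108864) (W3 := 67108864) (N0 := 3)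
    rfl rfl rfl (fun _ => rfl) s4_mm_202_a

noncomputable def cut_mm_202_b : Cut := Cut.of [[⟨0, 1, 0, 67108864⟩, ⟨1, 0, 0, 67108864⟩, ⟨2, 1, 0, 67108864⟩]]

noncomputable def f_mm_202_b : ℕ → ℕ → ℕ → ℕ → Bool := onCell 1239849684 370763052 0 536870912 67108864 67108864
    (rowNK 3 1 false false false .pp 2 0 2 (qsf 1239849684 370763052 1073741824 536870912 0) ndN1q2b ndN4q2 pcN0 cut_mm_202_b Ext.none)

def k0_mm_202_b : ∃ t, chk3 f_mm_202_b t 1 1 1 = true :=
  ⟨(b (b (a (b (a (b (l 18042776) (a (l 17969472) (l 18319120))) (b (b (l 18728240) (l 18690224)) (l 18449736))) (a (b (b (l 18028600) (a (l 17791544) (l 18084408))) (a (l 17731752) (l 17965664))) (b (l 18232920) (l 18130480)))) (b (a (b (l 18789848) (l 3)) (l 3)) (l 3))) (a (a (a (b (b (l 17605928) (l 17479416)) (b (l 204179769527) (l 3))) (b (l 244446405047) (l 3))) (l 3)) (l 3))) (a (b (l 3) (l 2)) (l 2))), by decide +kernel⟩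

theorem c_mm_202_b : CertN 1239849684 370763052 1073741824 536870912 67108864 67108864 3 false false false .pp 2 0 2
    ndN1q2b ndN4q2 pcN0 cut_mm_202_b Ext.none :=
  certNK1 (fam := false) (s1 := false) (s2 := false) (a := 2) (b := 0) (c := 2) (cn := .pp) (n1 := ndN1q2b) (n2 := ndN4q2) (pc := pcN0) (cut := cut_mm_202_b) (xt := Ext.none) (P1 := 1239849684) (W1 := 370763052) (P2 := 1073741824) (W2 := 536870912) (P3 := 67108864) (W3 := 67108864) (N0 := 3)
    rfl rfl rfl (fun _ => rfl) k0_mm_202_b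

noncomputable def f_mm_203_a : ℕ → ℕ → ℕ → ℕ → Bool := onCell 0 536870912 0 1230186008 67108864 67108864
    (rowNK 3 0 false false false .up 2 0 3 (qsf 0 536870912 0 1230186008 0) ndN1q2a ndN4q3 pcN0 Cut.none Ext.none)

def k0_mm_203_a : ∃ t, chk3 f_mm_203_a t 1 1 1 = true :=
  ⟨(b (l 2) (l 3)), by decide +kernel⟩

theorem c_mm_203_a : CertN 0 536870912 0 1230186008 67108864 67108864 3 false false false .up 2 0 3
    ndN1q2a ndN4q3 pcN0 Cut.none Ext.none :=
  certNK0 (fam := false) (s1 := false) (s2 := false) (a := 2) (b := 0) (c := 3) (cn := .up) (n1 := ndN1q2a) (n2 := ndN4q3) (pc := pcN0) (cut := Cut.none) (xt := Ext.none) (P1 := 0) (W1 := 536870912) (P2 := 0) (W2 := 1230186008) (P3 := 67108864) (W3 := 67108864) (N0 := 3)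
    rfl rfl rfl k0_mm_203_a

noncomputable def f_mm_203_b : ℕ → ℕ → ℕ → ℕ → Bool := onCell 1239849684 370763052 0 1230186008 67108864 67108864
    (rowNK 3 0 false false false .up 2 0 3 (qsf 1239849684 370763052 0 1230186008 0) ndN1q2b ndN4q3 pcN0 Cut.none Ext.none)

def k0_mm_203_b : ∃ t, chk3 f_mm_203_b t 1 1 1 = true :=
  ⟨(b (l 3) (b (l 3) (l 3))), by decide +kernel⟩

theorem c_mm_203_b : CertN 1239849684 370763052 0 1230186008 67108864 67108864 3 false false false .up 2 0 3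
    ndN1q2b ndN4q3 pcN0 Cut.none Ext.none :=
  certNK0 (fam := false) (s1 := false) (s2 := false) (a := 2) (b := 0) (c := 3) (cn := .up) (n1 := ndN1q2b) (n2 := ndN4q3) (pc := pcN0) (cut := Cut.none) (xt := Ext.none) (P1 := 1239849684) (W1 := 370763052) (P2 := 0) (W2 := 1230186008) (P3 := 67108864) (W3 := 67108864) (N0 := 3)
    rfl rfl rfl k0_mm_203_b

noncomputable def f_mm_213_a : ℕ → ℕ → ℕ → ℕ → Bool := onCell 0 536870912 0 1230186008 67108864 67108864
    (rowNK 3 0 false false false .pnn 2 1 3 (qsf 0 536870912 0 1230186008 1) ndN1q2a ndN4q3 pcN1 Cut.none Ext.none)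

def k0_mm_213_a : ∃ t, chk3 f_mm_213_a t 1 1 1 = true :=
  ⟨(b (a (l 3) (l 5)) (l 3)), by decide +kernel⟩

theorem c_mm_213_a : CertN 0 536870912 0 1230186008 67108864 67108864 3 false false false .pnn 2 1 3
    ndN1q2a ndN4q3 pcN1 Cut.none Ext.none :=
  certNK0 (fam := false) (s1 := false) (s2 := false) (a := 2) (b := 1) (c := 3) (cn := .pnn) (n1 := ndN1q2a) (n2 := ndN4q3) (pc := pcN1) (cut := Cut.none) (xt := Ext.none) (P1 := 0) (W1 := 536870912) (P2 := 0) (W2 := 1230186008) (P3 := 67108864) (W3 := 67108864) (N0 := 3)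
    rfl rfl rfl k0_mm_213_a

noncomputable def f_mm_213_b : ℕ → ℕ → ℕ → ℕ → Bool := onCell 1239849684 370763052 0 1230186008 67108864 67108864
    (rowNK 3 0 false false false .pnn 2 1 3 (qsf 1239849684 370763052 0 1230186008 1) ndN1q2b ndN4q3 pcN1 Cut.none Ext.none)

def k0_mm_213_b : ∃ t, chk3 f_mm_213_b t 1 1 1 = true :=
  ⟨(b (l 3) (b (l 3) (l 3))), by decide +kernel⟩

theorem c_mm_213_b : CertN 1239849684 370763052 0 1230186008 67108864 67108864 3 false false false .pnn 2 1 3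
    ndN1q2b ndN4q3 pcN1 Cut.none Ext.none :=
  certNK0 (fam := false) (s1 := false) (s2 := false) (a := 2) (b := 1) (c := 3) (cn := .pnn) (n1 := ndN1q2b) (n2 := ndN4q3) (pc := pcN1) (cut := Cut.none) (xt := Ext.none) (P1 := 1239849684) (W1 := 370763052) (P2 := 0) (W2 := 1230186008) (P3 := 67108864) (W3 := 67108864) (N0 := 3)
    rfl rfl rfl k0_mm_213_b

noncomputable def f_mm_303 : ℕ → ℕ → ℕ → ℕ → Bool := onCell 0 536870912 0 1230186008 67108864 67108864
    (rowNK 3 2 false false false .npn 3 0 3 (qsf 1610612736 536870912 0 1230186008 0) ndN1q3 ndN4q3 pcN0 Cut.none Ext.none)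

def k0_mm_303 : ∃ t, chk3 f_mm_303 t 1 1 1 = true :=
  ⟨(b (l 3) (a (l 3) (l 3))), by decide +kernel⟩

theorem c_mm_303 : CertN 1610612736 536870912 0 1230186008 67108864 67108864 3 false false false .npn 3 0 3
    ndN1q3 ndN4q3 pcN0 Cut.none Ext.none :=
  certNK2 (fam := false) (s1 := false) (s2 := false) (a := 3) (b := 0) (c := 3) (cn := .npn) (n1 := ndN1q3) (n2 := ndN4q3) (pc := pcN0) (cut := Cut.none) (xt := Ext.none) (P1 := 1610612736) (W1 := 536870912) (P2 := 0) (W2 := 1230186008) (P3 := 67108864) (W3 := 67108864) (N0 := 3)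
    rfl rfl rfl (fun _ => rfl) k0_mm_303

noncomputable def f_mm_313 : ℕ → ℕ → ℕ → ℕ → Bool := onCell 1610612736 536870912 0 1230186008 67108864 67108864
    (rowNK 3 0 false false false .dn 3 1 3 (qsf 1610612736 536870912 0 1230186008 1) ndN1q3 ndN4q3 pcN1 Cut.none Ext.none)

def k0_mm_313 : ∃ t, chk3 f_mm_313 t 1 1 1 = true :=
  ⟨(b (l 3) (l 1)), by decide +kernel⟩

theorem c_mm_313 : CertN 1610612736 536870912 0 1230186008 67108864 67108864 3 false false false .dn 3 1 3
    ndN1q3 ndN4q3 pcN1 Cut.none Ext.none :=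
  certNK0 (fam := false) (s1 := false) (s2 := false) (a := 3) (b := 1) (c := 3) (cn := .dn) (n1 := ndN1q3) (n2 := ndN4q3) (pc := pcN1) (cut := Cut.none) (xt := Ext.none) (P1 := 1610612736) (W1 := 536870912) (P2 := 0) (W2 := 1230186008) (P3 := 67108864) (W3 := 67108864) (N0 := 3)
    rfl rfl rfl k0_mm_313

end Pool.Agent.Strip051.G.I1_16_1_8.Tab.C.NB14

namespace Pool.Agent.Strip051.G.I1_16_1_8.Tab.C.NB20

open Pool.Agent.Strip051.PB Pool.Agent.Strip051.PB.T
open Pool.Agent.Strip051.G.I1_16_1_8.Tab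

noncomputable def f_pp_001 : ℕ → ℕ → ℕ → ℕ → Bool := onCell 0 536870912 0 536870912 67108864 67108864
    (rowNK 3 1 false true true .up 0 0 1 (qsf 0 536870912 536870912 536870912 0) ndN2q0 ndN0q1 pcN0 Cut.none Ext.none)

def k0_pp_001 : ∃ t, chk3 f_pp_001 t 1 1 1 = true :=
  ⟨(a (l 3) (b (l 3) (b (l 3) (a (l 3) (b (l 3) (a (l 3) (b (l 3) (l 163379271623)))))))), by decide +kernel⟩

theorem c_pp_001 : CertN 0 536870912 536870912 536870912 67108864 67108864 3 false true true .up 0 0 1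
    ndN2q0 ndN0q1 pcN0 Cut.none Ext.none :=
  certNK1 (fam := false) (s1 := true) (s2 := true) (a := 0) (b := 0) (c := 1) (cn := .up) (n1 := ndN2q0) (n2 := ndN0q1) (pc := pcN0) (cut := Cut.none) (xt := Ext.none) (P1 := 0) (W1 := 536870912) (P2 := 536870912) (W2 := 536870912) (P3 := 67108864) (W3 := 67108864) (N0 := 3)
    rfl rfl rfl (fun _ => rfl) k0_pp_001

noncomputable def cut_pp_011 : Cut := Cut.of [[⟨0, 0, 0, 67108864⟩, ⟨1, 1, 0, 67108864⟩, ⟨2, 1, 0, 67108864⟩]]

noncomputable def f_pp_011 : ℕ → ℕ → ℕ → ℕ → Bool := onCell 0 536870912 536870912 536870912 67108864 67108864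
    (rowNK 3 0 false true true .pnn 0 1 1 (qsf 0 536870912 536870912 536870912 1) ndN2q0 ndN0q1 pcN1 cut_pp_011 Ext.none)

def k0_pp_011 : ∃ t, chk3 f_pp_011 t 1 1 1 = true :=
  ⟨(b (l 3) (b (l 3) (b (l 3) (a (b (l 3) (a (b (l 3) (a (a (l 6) (a (l 101099985367) (l 17094176))) (a (l 17174384) (l 17440768)))) (a (l 125260506055) (l 131166645063)))) (b (l 3) (a (a (l 136535782839) (l 141904786263)) (b (l 3) (l 160159144487)))))))), by decide +kernel⟩

theorem c_pp_011 : CertN 0 536870912 536870912 536870912 67108864 67108864 3 false true true .pnn 0 1 1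
    ndN2q0 ndN0q1 pcN1 cut_pp_011 Ext.none :=
  certNK0 (fam := false) (s1 := true) (s2 := true) (a := 0) (b := 1) (c := 1) (cn := .pnn) (n1 := ndN2q0) (n2 := ndN0q1) (pc := pcN1) (cut := cut_pp_011) (xt := Ext.none) (P1 := 0) (W1 := 536870912) (P2 := 536870912) (W2 := 536870912) (P3 := 67108864) (W3 := 67108864) (N0 := 3)
    rfl rfl rfl k0_pp_011

noncomputable def cut_pp_012 : Cut := Cut.of [[⟨0, 0, 0, 67108864⟩, ⟨1, 1, 0, 67108864⟩, ⟨2, 1, 0, 67108864⟩]]

noncomputable def f_pp_012 : ℕ → ℕ → ℕ → ℕ → Bool := onCell 536870912 536870912 0 536870912 67108864 67108864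
    (rowNK 3 2 false true true .pnp 0 1 2 (qsf 0 536870912 0 536870912 1) ndN2q0 ndN0q2 pcN1 cut_pp_012 Ext.none)

def k0_pp_012 : ∃ t, chk3 f_pp_012 t 1 1 1 = true :=
  ⟨(a (b (a (b (l 2) (l 18007328)) (b (l 17866664) (l 17984200))) (a (b (l 18212800) (b (l 18358288) (b (l 18423760) (l 18610080)))) (b (l 18141496) (b (l 18243496) (a (l 18351432) (l 18208952)))))) (b (a (b (a (l 17892160) (l 17883688)) (l 17993952)) (a (b (l 17891264) (l 17676048)) (a (l 18031528) (l 18016144)))) (a (b (l 17896320) (b (l 17986600) (a (l 18003824) (a (l 17807920) (l 17660192))))) (b (a (l 17615464) (b (l 17637400) (a (l 17514456) (l 17354848)))) (a (b (l 17516224) (b (l 17445528) (a (l 17476024) (l 17298784)))) (b (a (l 17308336) (b (l 17228816) (a (l 17180392) (l 17084576)))) (a (b (l 17190048) (b (l 17133560) (l 17009696))) (b (a (l 17077472) (l 6)) (l 6))))))))), by decide +kernel⟩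

theorem c_pp_012 : CertN 0 536870912 0 536870912 67108864 67108864 3 false true true .pnp 0 1 2
    ndN2q0 ndN0q2 pcN1 cut_pp_012 Ext.none :=
  certNK2 (fam := false) (s1 := true) (s2 := true) (a := 0) (b := 1) (c := 2) (cn := .pnp) (n1 := ndN2q0) (n2 := ndN0q2) (pc := pcN1) (cut := cut_pp_012) (xt := Ext.none) (P1 := 0) (W1 := 536870912) (P2 := 0) (W2 := 536870912) (P3 := 67108864) (W3 := 67108864) (N0 := 3)
    rfl rfl rfl (fun _ => rfl) k0_pp_012

noncomputable def cut_pp_022 : Cut := Cut.of [[⟨0, 0, 0, 67108864⟩, ⟨1, 1, 0, 67108864⟩, ⟨2, 1, 0, 67108864⟩]]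

noncomputable def f_pp_022 : ℕ → ℕ → ℕ → ℕ → Bool := onCell 0 536870912 0 536870912 67108864 67108864
    (rowNK 3 0 false true true .pp 0 2 2 (qsf 0 536870912 0 536870912 2) ndN2q0 ndN0q2 pcN2 cut_pp_022 Ext.none)

def k0_pp_022 : ∃ t, chk3 f_pp_022 t 1 1 1 = true :=
  ⟨(a (b (a (b (a (a (b (l 18066792) (l 17937992)) (l 17883480)) (l 17973064)) (b (a (a (a (b (l 17826560) (l 17749176)) (l 17799984)) (l 17681288)) (l 17783888)) (a (a (a (c (l 18112584) (b (l 17294904) (l 16971360))) (l 17529536)) (l 17428496)) (a (a (l 17455896) (b (l 17595616) (l 17495104))) (l 17757320))))) (b (l 18703632) (a (l 18290152) (l 1)))) (a (b (a (b (a (a (a (c (b (l 17880648) (l 17398424)) (b (l 16815112) (l 16702056))) (l 17124296)) (l 17053808)) (a (l 17013296) (l 17045928))) (a (a (a (a (b (l 16685240) (b (l 16679864) (l 16700736))) (b (l 16660680) (l 16679504))) (a (l 16748392) (l 16787016))) (b (l 16675488) (b (l 16721840) (l 16830400)))) (b (a (l 16820064) (a (l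 16931712) (l 17014136))) (a (a (l 16877904) (l 16918256)) (l 17026304))))) (a (b (a (b (l 17245552) (l 17078672)) (l 17336640)) (l 17228568)) (b (l 17657376) (l 17617704)))) (a (a (b (b (b (a (a (b (l 16700952) (l 16713224)) (l 16694856)) (l 16956032)) (b (a (a (l 16718304) (l 16698216)) (l 16953568)) (l 6))) (l 6)) (l 6)) (b (b (l 17002640) (a (l 6) (l 17120264))) (a (l 6) (l 1)))) (b (a (b (l 17299592) (l 1)) (l 1)) (l 1)))) (b (l 1) (l 1)))) (l 1)), by decide +kernel⟩

theorem c_pp_022 : CertN 0 536870912 0 536870912 67108864 67108864 3 false true true .pp 0 2 2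
    ndN2q0 ndN0q2 pcN2 cut_pp_022 Ext.none :=
  certNK0 (fam := false) (s1 := true) (s2 := true) (a := 0) (b := 2) (c := 2) (cn := .pp) (n1 := ndN2q0) (n2 := ndN0q2) (pc := pcN2) (cut := cut_pp_022) (xt := Ext.none) (P1 := 0) (W1 := 536870912) (P2 := 0) (W2 := 536870912) (P3 := 67108864) (W3 := 67108864) (N0 := 3)
    rfl rfl rfl k0_pp_022

noncomputable def cut_pp_101 : Cut := Cut.of [[⟨0, 1, 0, 67108864⟩, ⟨1, 0, 0, 67108864⟩, ⟨2, 1, 0, 67108864⟩], [⟨0, 1, 2, 33554432⟩, ⟨1, 0, 1, 33554432⟩, ⟨2, 1, 0, 16777216⟩, ⟨0, 0, 0, 1023410176⟩, ⟨0, 1, 0, 150994944⟩, ⟨1, 0, 0, 150994944⟩, ⟨1, 1, 0, 1023410176⟩]]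

noncomputable def f_pp_101 : ℕ → ℕ → ℕ → ℕ → Bool := onCell 536870912 536870912 536870912 536870912 67108864 67108864
    (rowNK 3 0 false true true .npn 1 0 1 (qsf 536870912 536870912 536870912 536870912 0) ndN2q1 ndN0q1 pcN0 cut_pp_101 Ext.none)

def k0_pp_101 : ∃ t, chk3 f_pp_101 t 1 2 1 = true :=
  ⟨(l 3), by decide +kernel⟩

def k1_pp_101 : ∃ t, chk3 f_pp_101 t 1 6 1 = true :=
  ⟨(l 3), by decide +kernel⟩

def k2_pp_101 : ∃ t, chk3 f_pp_101 t 1 14 1 = true :=
  ⟨(l 3), by decide +kernel⟩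

def k3_pp_101 : ∃ t, chk3 f_pp_101 t 1 30 1 = true :=
  ⟨(l 3), by decide +kernel⟩

def k4_pp_101 : ∃ t, chk3 f_pp_101 t 2 31 1 = true :=
  ⟨(b (l 3) (a (a (l 207940572519) (l 219214738231)) (a (l 229951770679) (l 237467307127)))), by decide +kernel⟩

def k5_pp_101 : ∃ t, chk3 f_pp_101 t 3 62 1 = true :=
  ⟨(l 3), by decide +kernel⟩

def k6_pp_101 : ∃ t, chk3 f_pp_101 t 3 126 1 = true :=
  ⟨(l 3), by decide +kernel⟩

def k7_pp_101 : ∃ t, chk3 f_pp_101 t 3 254 1 = true :=
  ⟨(a (l 3) (l 3)), by decide +kernel⟩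

def k8_pp_101 : ∃ t, chk3 f_pp_101 t 3 510 1 = true :=
  ⟨(a (l 3) (l 3)), by decide +kernel⟩

def k9_pp_101 : ∃ t, chk3 f_pp_101 t 6 511 1 = true :=
  ⟨(a (l 234245826791) (b (l 3) (a (c (l 17695808) (l 162304061495)) (a (c (l 17629320) (c (l 146734356167) (a (l 17254328) (l 141365390631)))) (c (l 17456776) (c (a (l 140828551895) (l 142439293063)) (a (a (l 138144095911) (l 14)) (l 14)))))))), by decide +kernel⟩

def k10_pp_101 : ∃ t, chk3 f_pp_101 t 7 1022 1 = true :=
  ⟨(a (l 3) (l 3)), by decide +kernel⟩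

def k11_pp_101 : ∃ t, chk3 f_pp_101 t 14 2046 1 = true :=
  ⟨(l 3), by decide +kernel⟩

def k12_pp_101 : ∃ t, chk3 f_pp_101 t 28 2047 1 = true :=
  ⟨(b (l 3) (c (a (c (l 17515688) (a (l 17300968) (l 17190264))) (c (l 147271081927) (a (c (l 17178744) (l 14)) (l 14)))) (a (c (a (c (l 17113376) (l 14)) (l 14)) (l 14)) (a (l 14) (c (l 14) (c (l 14) (a (l 14) (a (l 14) (a (l 14) (l 136532916359)))))))))), by decide +kernel⟩

def k13_pp_101 : ∃ t, chk3 f_pp_101 t 29 2047 1 = true :=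
  ⟨(b (l 3) (b (l 3) (a (b (l 3) (b (l 3) (a (c (c (c (l 17266080) (l 14)) (l 14)) (c (l 14) (a (c (l 14) (a (a (l 136532916167) (l 136532916791)) (a (l 136532917239) (l 136532917783)))) (c (a (l 14) (a (l 14) (l 136532922295))) (a (c (l 137606660423) (l 137606659191)) (c (l 137606661479) (l 138143531223))))))) (c (l 14) (c (a (l 14) (a (l 14) (a (l 14) (c (l 14) (l 136532928631))))) (a (c (a (a (l 136532922839) (l 136532923383)) (a (l 136532923927) (l 136532924471))) (a (l 137606662679) (l 137606663735))) (a (a (l 136532925079) (l 136532925655)) (a (l 136532926071) (l 136532926647))))))))) (b (l 3) (b (l 3) (b (a (l 3) (l 3)) (a (c (l 14) (c (a (c (l 14) (a (a (l 136532929143) (l 137069800599)) (a (l 137069801159) (l 137069801703)))) (c (a (l 14) (a (l 14) (l 137069805847))) (a (a (l 137069802279) (l 137069802839)) (a (l 137069803399) (l 137069803975))))) (a (a (a (l 137069798103) (l 137069798695)) (a (l 137069799287) (l 137069799799))) (a (a (l 137069800391)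 (l 137069800919)) (a (l 137069801527) (l 137606673047)))))) (c (c (l 14) (a (l 14) (a (l 14) (a (l 14) (a (l 14) (c (l 14) (l 136532941143))))))) (c (a (c (a (a (l 137069806247) (l 137069806967)) (a (l 137069807511) (l 137069807911))) (a (a (l 137069804551) (l 137606676055)) (a (l 137606676471) (l 137606677063)))) (c (a (a (l 137069808647) (l 137606679975)) (a (l 137606680535) (l 137606681127))) (a (a (l 137606677655) (l 137606678247)) (a (l 137606678855) (l 138143550359))))) (a (c (a (l 138680415783) (l 139217287911)) (a (l 139217284855) (l 139217286119))) (c (a (l 139217289223) (l 139217290471)) (a (l 139754158311) (l 139754159623))))))))))))), by decide +kernel⟩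

def k14_pp_101 : ∃ t, chk3 f_pp_101 t 15 1023 1 = true :=
  ⟨(a (a (a (a (a (a (a (b (l 3) (b (l 3) (c (c (l 14) (c (l 14) (l 137069812039))) (c (l 137606681799) (l 138143548103))))) (l 6)) (l 6)) (l 6)) (l 6)) (l 6)) (l 6)) (l 6)), by decide +kernel⟩

theorem s15_pp_101 : ∃ t, chk3 f_pp_101 t 14 2047 1 = true := ex3_a k12_pp_101 k13_pp_101

theorem s16_pp_101 : ∃ t, chk3 f_pp_101 t 14 1023 1 = true := ex3_b k11_pp_101 s15_pp_101

theorem s17_pp_101 : ∃ t, chk3 f_pp_101 t 7 1023 1 = true := ex3_a s16_pp_101 k14_pp_101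

theorem s18_pp_101 : ∃ t, chk3 f_pp_101 t 7 511 1 = true := ex3_b k10_pp_101 s17_pp_101

theorem s19_pp_101 : ∃ t, chk3 f_pp_101 t 3 511 1 = true := ex3_a k9_pp_101 s18_pp_101

theorem s20_pp_101 : ∃ t, chk3 f_pp_101 t 3 255 1 = true := ex3_b k8_pp_101 s19_pp_101

theorem s21_pp_101 : ∃ t, chk3 f_pp_101 t 3 127 1 = true := ex3_b k7_pp_101 s20_pp_101

theorem s22_pp_101 : ∃ t, chk3 f_pp_101 t 3 63 1 = true := ex3_b k6_pp_101 s21_pp_101

theorem s23_pp_101 : ∃ t, chk3 f_pp_101 t 3 31 1 = true := ex3_b k5_pp_101 s22_pp_101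

theorem s24_pp_101 : ∃ t, chk3 f_pp_101 t 1 31 1 = true := ex3_a k4_pp_101 s23_pp_101

theorem s25_pp_101 : ∃ t, chk3 f_pp_101 t 1 15 1 = true := ex3_b k3_pp_101 s24_pp_101

theorem s26_pp_101 : ∃ t, chk3 f_pp_101 t 1 7 1 = true := ex3_b k2_pp_101 s25_pp_101

theorem s27_pp_101 : ∃ t, chk3 f_pp_101 t 1 3 1 = true := ex3_b k1_pp_101 s26_pp_101

theorem s28_pp_101 : ∃ t, chk3 f_pp_101 t 1 1 1 = true := ex3_b k0_pp_101 s27_pp_101

theorem c_pp_101 : CertN 536870912 536870912 536870912 536870912 67108864 67108864 3 false true true .npn 1 0 1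
    ndN2q1 ndN0q1 pcN0 cut_pp_101 Ext.none :=
  certNK0 (fam := false) (s1 := true) (s2 := true) (a := 1) (b := 0) (c := 1) (cn := .npn) (n1 := ndN2q1) (n2 := ndN0q1) (pc := pcN0) (cut := cut_pp_101) (xt := Ext.none) (P1 := 536870912) (W1 := 536870912) (P2 := 536870912) (W2 := 536870912) (P3 := 67108864) (W3 := 67108864) (N0 := 3)
    rfl rfl rfl s28_pp_101

noncomputable def cut_pp_102 : Cut := Cut.of [[⟨0, 1, 0, 67108864⟩, ⟨1, 0, 0, 67108864⟩, ⟨2, 1, 0, 67108864⟩], [⟨0, 1, 2, 33554432⟩, ⟨1, 0, 1, 33554432⟩, ⟨2, 1, 0, 16777216⟩, ⟨0, 0, 0, 1023410176⟩, ⟨0, 1, 0, 150994944⟩, ⟨1, 0, 0, 150994944⟩, ⟨1, 1, 0, 1023410176⟩]]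

noncomputable def f_pp_102 : ℕ → ℕ → ℕ → ℕ → Bool := onCell 536870912 536870912 0 536870912 67108864 67108864
    (rowNK 3 0 false true true .npp 1 0 2 (qsf 536870912 536870912 0 536870912 0) ndN2q1 ndN0q2 pcN0 cut_pp_102 Ext.none)

def k0_pp_102 : ∃ t, chk3 f_pp_102 t 2 1 1 = true :=
  ⟨(b (a (b (l 2) (l 216998324935)) (a (b (a (b (l 17325856) (l 17332440)) (b (l 17146024) (l 17435856))) (l 16799424)) (b (b (l 16960344) (l 17513144)) (b (l 17465696) (l 17309208))))) (a (b (b (l 17738864) (l 17917360)) (b (l 18149928) (a (l 18462864) (l 18634272)))) (b (b (a (l 17272024) (l 17311304)) (a (l 17545168) (l 17379920))) (b (a (l 17838032) (l 17524504)) (b (a (l 18089568) (l 17767640)) (a (l 18273576) (b (l 17903992) (l 17978176)))))))), by decide +kernel⟩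

def k1_pp_102 : ∃ t, chk3 f_pp_102 t 3 2 1 = true :=
  ⟨(a (b (a (b (l 17531440) (l 17834264)) (l 18631368)) (a (b (l 18040008) (l 17958520)) (b (l 18642536) (l 18658488)))) (a (b (l 18940912) (l 18890064)) (a (l 19115792) (b (l 19238272) (l 19032008))))), by decide +kernel⟩

def k2_pp_102 : ∃ t, chk3 f_pp_102 t 6 3 1 = true :=
  ⟨(b (a (b (l 17835600) (l 17792928)) (a (l 18447144) (l 18549176))) (a (b (l 17749976) (b (l 17704696) (a (l 17664016) (b (l 17702240) (l 17659408))))) (b (a (l 17957816) (l 18036600)) (b (a (l 17791064) (a (l 17754880) (l 17672160))) (a (b (l 17702936) (a (l 17661480) (a (l 17629448) (l 17508128)))) (b (a (l 17603224) (l 17478680)) (a (c (l 17697656) (b (l 17330376) (b (l 17305752) (c (l 17381728) (a (l 17261384) (b (l 17135760) (l 17025048))))))) (b (l 17364800) (c (l 17437160) (b (l 17101904) (c (a (l 17238400) (l 17072440)) (a (a (l 16930984) (l 14)) (l 14))))))))))))), by decide +kernel⟩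

def k3_pp_102 : ∃ t, chk3 f_pp_102 t 7 6 1 = true :=
  ⟨(b (a (l 18724752) (a (l 18602984) (l 18490840))) (a (a (l 18369728) (l 18320024)) (a (a (l 18130944) (l 17941072)) (b (l 17879432) (l 17389720))))), by decide +kernel⟩

def k4_pp_102 : ∃ t, chk3 f_pp_102 t 14 14 1 = true :=
  ⟨(a (b (l 18044448) (l 17769528)) (b (l 17812608) (l 17412568))), by decide +kernel⟩

def k5_pp_102 : ∃ t, chk3 f_pp_102 t 14 30 1 = true :=
  ⟨(a (b (l 17538680) (l 17375776)) (b (l 17059992) (l 16954776))), by decide +kernel⟩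

def k6_pp_102 : ∃ t, chk3 f_pp_102 t 28 31 1 = true :=
  ⟨(a (b (l 17318328) (b (l 17152832) (c (b (l 17444776) (c (l 17539096) (a (l 17318104) (l 17144312)))) (a (b (l 16951720) (a (c (l 17003056) (l 14)) (l 14))) (l 14))))) (b (l 17098088) (b (l 16982688) (b (l 16808088) (a (c (c (l 17419720) (a (l 17067080) (l 14))) (l 14)) (b (l 16800192) (c (c (l 17309896) (l 14)) (b (l 16731424) (c (l 14) (b (l 16735976) (c (l 14) (b (l 16743440) (a (l 14) (a (l 14) (a (l 14) (l 16742896)))))))))))))))), by decide +kernel⟩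

def k7_pp_102 : ∃ t, chk3 f_pp_102 t 29 62 1 = true :=
  ⟨(a (l 16784808) (b (l 16769096) (l 16756392))), by decide +kernel⟩

def k8_pp_102 : ∃ t, chk3 f_pp_102 t 29 126 1 = true :=
  ⟨(a (l 16718104) (l 16766032)), by decide +kernel⟩

def k9_pp_102 : ∃ t, chk3 f_pp_102 t 29 254 1 = true :=
  ⟨(a (l 16740832) (l 16749664)), by decide +kernel⟩

def k10_pp_102 : ∃ t, chk3 f_pp_102 t 29 255 2 = true :=
  ⟨(a (a (a (c (l 17150808) (l 14)) (l 14)) (l 14)) (b (l 16757560) (a (l 14) (a (l 14) (a (l 14) (a (l 14) (a (l 14) (b (l 16745480) (c (l 14) (b (l 16750328) (c (l 14) (b (l 16752704) (l 16755848))))))))))))), by decide +kernel⟩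

def k11_pp_102 : ∃ t, chk3 f_pp_102 t 58 255 3 = true :=
  ⟨(b (l 16741552) (b (a (l 16733456) (l 16735584)) (a (c (l 14) (b (l 16738016) (b (l 16747368) (a (c (l 14) (a (a (l 16743160) (l 16744736)) (a (l 16745008) (l 16742664)))) (a (c (l 14) (a (l 16742936) (l 16743216))) (a (c (l 14) (l 16743488)) (c (a (l 14) (l 16744992)) (l 16743776)))))))) (a (c (l 14) (b (l 16740248) (b (l 16743008) (a (a (c (l 16746496) (l 16744056)) (c (l 16746768) (l 16744344))) (a (c (l 16747040) (l 16744632)) (c (l 16747320) (l 16744920))))))) (b (l 16742400) (b (l 16745176) (b (l 16749184) (a (c (l 14) (c (a (l 16746752) (l 16747032)) (l 16747080))) (a (c (l 14) (l 16748096)) (c (c (l 14) (l 16749944)) (l 16748384))))))))))), by decide +kernel⟩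

def k12_pp_102 : ∃ t, chk3 f_pp_102 t 59 255 3 = true :=
  ⟨(b (l 16760552) (a (b (l 16737792) (b (l 16753760) (a (b (l 16746288) (c (c (l 14) (b (l 16748160) (a (a (l 16750216) (l 16750496)) (a (l 16749456) (l 16749736))))) (a (b (l 16746560) (a (l 16748680) (l 16750280))) (a (l 16749472) (l 16750432))))) (b (l 16747432) (c (a (c (l 14) (a (l 16750872) (l 16751160))) (a (c (l 14) (l 16751440)) (c (c (l 14) (l 16752424)) (l 16751736)))) (a (a (l 16750728) (l 16751032)) (a (l 16751344) (l 16751648)))))))) (b (l 16761008) (b (l 16755912) (a (b (l 16748600) (b (l 16752576) (a (b (l 16750568) (a (c (c (l 16752968) (l 16751392)) (l 16750008)) (c (c (l 16752592) (l 16751688)) (l 16750320)))) (a (c (c (l 16753952) (l 16751752)) (l 16750408)) (c (c (l 16754240) (l 16752048)) (l 16750720)))))) (b (l 16749800) (a (a (b (l 16751016) (c (a (l 16754032) (l 16754176)) (l 16751040))) (c (a (l 16754368) (l 16754680)) (l 16750920))) (a (c (a (l 16754168) (l 16754320))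 (l 16751240)) (c (c (l 16754936) (l 16752800)) (l 16751560)))))))))), by decide +kernel⟩

def k13_pp_102 : ∃ t, chk3 f_pp_102 t 15 7 1 = true :=
  ⟨(a (b (a (b (l 17487720) (l 17029936)) (b (l 17239624) (l 17082976))) (b (a (l 16998824) (b (l 16973120) (l 16965344))) (b (a (a (l 16763912) (l 16794512)) (b (l 16919408) (l 6))) (a (a (b (l 16738824) (b (l 16731704) (b (l 16753592) (b (l 16753984) (a (a (a (b (l 16749776) (a (b (l 16752448) (c (c (l 14) (c (l 14) (l 16755984))) (c (l 16756080) (l 16751824)))) (l 6))) (l 6)) (l 6)) (l 6)))))) (b (l 16750432) (l 6))) (l 6))))) (b (b (a (l 17234048) (l 17220176)) (a (l 17217968) (a (l 17061576) (l 17076000)))) (b (a (b (l 16920984) (l 6)) (l 6)) (l 6)))), by decide +kernel⟩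

theorem s14_pp_102 : ∃ t, chk3 f_pp_102 t 29 255 3 = true := ex3_a k11_pp_102 k12_pp_102

theorem s15_pp_102 : ∃ t, chk3 f_pp_102 t 29 255 1 = true := ex3_c k10_pp_102 s14_pp_102

theorem s16_pp_102 : ∃ t, chk3 f_pp_102 t 29 127 1 = true := ex3_b k9_pp_102 s15_pp_102

theorem s17_pp_102 : ∃ t, chk3 f_pp_102 t 29 63 1 = true := ex3_b k8_pp_102 s16_pp_102

theorem s18_pp_102 : ∃ t, chk3 f_pp_102 t 29 31 1 = true := ex3_b k7_pp_102 s17_pp_102

theorem s19_pp_102 : ∃ t, chk3 f_pp_102 t 14 31 1 = true := ex3_a k6_pp_102 s18_pp_102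

theorem s20_pp_102 : ∃ t, chk3 f_pp_102 t 14 15 1 = true := ex3_b k5_pp_102 s19_pp_102

theorem s21_pp_102 : ∃ t, chk3 f_pp_102 t 14 7 1 = true := ex3_b k4_pp_102 s20_pp_102

theorem s22_pp_102 : ∃ t, chk3 f_pp_102 t 7 7 1 = true := ex3_a s21_pp_102 k13_pp_102

theorem s23_pp_102 : ∃ t, chk3 f_pp_102 t 7 3 1 = true := ex3_b k3_pp_102 s22_pp_102

theorem s24_pp_102 : ∃ t, chk3 f_pp_102 t 3 3 1 = true := ex3_a k2_pp_102 s23_pp_102

theorem s25_pp_102 : ∃ t, chk3 f_pp_102 t 3 1 1 = true := ex3_b k1_pp_102 s24_pp_102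

theorem s26_pp_102 : ∃ t, chk3 f_pp_102 t 1 1 1 = true := ex3_a k0_pp_102 s25_pp_102

theorem c_pp_102 : CertN 536870912 536870912 0 536870912 67108864 67108864 3 false true true .npp 1 0 2
    ndN2q1 ndN0q2 pcN0 cut_pp_102 Ext.none :=
  certNK0 (fam := false) (s1 := true) (s2 := true) (a := 1) (b := 0) (c := 2) (cn := .npp) (n1 := ndN2q1) (n2 := ndN0q2) (pc := pcN0) (cut := cut_pp_102) (xt := Ext.none) (P1 := 536870912) (W1 := 536870912) (P2 := 0) (W2 := 536870912) (P3 := 67108864) (W3 := 67108864) (N0 := 3)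
    rfl rfl rfl s26_pp_102

noncomputable def f_pp_112 : ℕ → ℕ → ℕ → ℕ → Bool := onCell 536870912 536870912 0 536870912 67108864 67108864
    (rowNK 3 2 false true true .dn 1 1 2 (qsf 536870912 536870912 0 536870912 1) ndN2q1 ndN0q2 pcN1 Cut.none Ext.none)

def k0_pp_112 : ∃ t, chk3 f_pp_112 t 1 1 1 = true :=
  ⟨(a (b (a (b (b (a (a (l 18569496) (l 18830232)) (a (b (l 18984440) (l 18999840)) (l 18979672))) (l 18927616)) (l 18802664)) (b (l 18704104) (l 18677352))) (a (b (l 18714496) (b (l 18630800) (a (l 18599848) (l 1)))) (b (l 1) (l 1)))) (l 1)), by decide +kernel⟩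

theorem c_pp_112 : CertN 536870912 536870912 0 536870912 67108864 67108864 3 false true true .dn 1 1 2
    ndN2q1 ndN0q2 pcN1 Cut.none Ext.none :=
  certNK2 (fam := false) (s1 := true) (s2 := true) (a := 1) (b := 1) (c := 2) (cn := .dn) (n1 := ndN2q1) (n2 := ndN0q2) (pc := pcN1) (cut := Cut.none) (xt := Ext.none) (P1 := 536870912) (W1 := 536870912) (P2 := 0) (W2 := 536870912) (P3 := 67108864) (W3 := 67108864) (N0 := 3)
    rfl rfl rfl (fun _ => rfl) k0_pp_112

noncomputable def f_pp_202_a : ℕ → ℕ → ℕ → ℕ → Bool := onCell 0 536870912 0 536870912 67108864 67108864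
    (rowNK 3 0 false true true .pp 2 0 2 (qsf 0 536870912 0 536870912 0) ndN2q2a ndN0q2 pcN0 Cut.none Ext.none)

def k0_pp_202_a : ∃ t, chk3 f_pp_202_a t 1 1 1 = true :=
  ⟨(l 3), by decide +kernel⟩

theorem c_pp_202_a : CertN 0 536870912 0 536870912 67108864 67108864 3 false true true .pp 2 0 2
    ndN2q2a ndN0q2 pcN0 Cut.none Ext.none :=
  certNK0 (fam := false) (s1 := true) (s2 := true) (a := 2) (b := 0) (c := 2) (cn := .pp) (n1 := ndN2q2a) (n2 := ndN0q2) (pc := pcN0) (cut := Cut.none) (xt := Ext.none) (P1 := 0) (W1 := 536870912) (P2 := 0) (W2 := 536870912) (P3 := 67108864) (W3 := 67108864) (N0 := 3)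
    rfl rfl rfl k0_pp_202_a

noncomputable def f_pp_202_b : ℕ → ℕ → ℕ → ℕ → Bool := onCell 1239849684 370763052 0 536870912 67108864 67108864
    (rowNK 3 0 false true true .pp 2 0 2 (qsf 1239849684 370763052 0 536870912 0) ndN2q2b ndN0q2 pcN0 Cut.none Ext.none)

def k0_pp_202_b : ∃ t, chk3 f_pp_202_b t 1 1 1 = true :=
  ⟨(l 3), by decide +kernel⟩

theorem c_pp_202_b : CertN 1239849684 370763052 0 536870912 67108864 67108864 3 false true true .pp 2 0 2
    ndN2q2b ndN0q2 pcN0 Cut.none Ext.none :=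
  certNK0 (fam := false) (s1 := true) (s2 := true) (a := 2) (b := 0) (c := 2) (cn := .pp) (n1 := ndN2q2b) (n2 := ndN0q2) (pc := pcN0) (cut := Cut.none) (xt := Ext.none) (P1 := 1239849684) (W1 := 370763052) (P2 := 0) (W2 := 536870912) (P3 := 67108864) (W3 := 67108864) (N0 := 3)
    rfl rfl rfl k0_pp_202_b

noncomputable def f_pm_001 : ℕ → ℕ → ℕ → ℕ → Bool := onCell 0 536870912 0 536870912 67108864 67108864
    (rowNK 3 1 false true false .up 0 0 1 (qsf 0 536870912 536870912 536870912 0) ndN2q0 ndN0q1 pcN0 Cut.none Ext.none)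

def k0_pm_001 : ∃ t, chk3 f_pm_001 t 1 1 1 = true :=
  ⟨(a (l 4) (l 4)), by decide +kernel⟩

theorem c_pm_001 : CertN 0 536870912 536870912 536870912 67108864 67108864 3 false true false .up 0 0 1
    ndN2q0 ndN0q1 pcN0 Cut.none Ext.none :=
  certNK1 (fam := false) (s1 := true) (s2 := false) (a := 0) (b := 0) (c := 1) (cn := .up) (n1 := ndN2q0) (n2 := ndN0q1) (pc := pcN0) (cut := Cut.none) (xt := Ext.none) (P1 := 0) (W1 := 536870912) (P2 := 536870912) (W2 := 536870912) (P3 := 67108864) (W3 := 67108864) (N0 := 3)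
    rfl rfl rfl (fun _ => rfl) k0_pm_001

noncomputable def cut_pm_011 : Cut := Cut.of [[⟨0, 0, 0, 67108864⟩, ⟨1, 1, 0, 67108864⟩, ⟨2, 1, 0, 67108864⟩]]

noncomputable def f_pm_011 : ℕ → ℕ → ℕ → ℕ → Bool := onCell 0 536870912 536870912 536870912 67108864 67108864
    (rowNK 3 0 false true false .pnn 0 1 1 (qsf 0 536870912 536870912 536870912 1) ndN2q0 ndN0q1 pcN1 cut_pm_011 Ext.none)

def k0_pm_011 : ∃ t, chk3 f_pm_011 t 1 1 1 = true :=
  ⟨(a (b (l 4) (a (b (l 4) (a (b (l 4) (a (b (l 4) (a (l 6) (l 4))) (l 4))) (l 4))) (l 4))) (l 4)), by decide +kernel⟩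

theorem c_pm_011 : CertN 0 536870912 536870912 536870912 67108864 67108864 3 false true false .pnn 0 1 1
    ndN2q0 ndN0q1 pcN1 cut_pm_011 Ext.none :=
  certNK0 (fam := false) (s1 := true) (s2 := false) (a := 0) (b := 1) (c := 1) (cn := .pnn) (n1 := ndN2q0) (n2 := ndN0q1) (pc := pcN1) (cut := cut_pm_011) (xt := Ext.none) (P1 := 0) (W1 := 536870912) (P2 := 536870912) (W2 := 536870912) (P3 := 67108864) (W3 := 67108864) (N0 := 3)
    rfl rfl rfl k0_pm_011

noncomputable def cut_pm_012 : Cut := Cut.of [[⟨0, 0, 0, 67108864⟩, ⟨1, 1, 0, 67108864⟩, ⟨2, 1, 0, 67108864⟩]]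

noncomputable def f_pm_012 : ℕ → ℕ → ℕ → ℕ → Bool := onCell 536870912 536870912 0 536870912 67108864 67108864
    (rowNK 3 2 false true false .pnp 0 1 2 (qsf 0 536870912 0 536870912 1) ndN2q0 ndN0q2 pcN1 cut_pm_012 Ext.none)

def k0_pm_012 : ∃ t, chk3 f_pm_012 t 1 1 1 = true :=
  ⟨(a (b (a (b (l 2) (l 19257744)) (a (b (a (b (l 17981048) (l 18849536)) (l 18217632)) (b (b (l 19175360) (l 19303624)) (l 19311752))) (a (b (l 18178552) (l 18991848)) (b (l 18226368) (l 18886936))))) (b (l 19344856) (l 4))) (b (a (a (b (l 18351792) (a (b (b (l 18329536) (l 18908376)) (l 18916280)) (l 18746224))) (a (l 18670112) (l 18616664))) (a (b (l 18374888) (l 18734416)) (a (l 18510328) (l 18475088)))) (a (a (l 97950013623) (b (l 77012025463) (l 4))) (a (b (a (l 18661384) (l 18522256)) (b (l 4) (l 4))) (a (b (a (l 18362608) (l 18293424)) (b (a (l 17388024) (l 17306680)) (l 4))) (b (b (l 18150440) (l 17373864)) (a (b (l 17176184) (l 4)) (b (b (l 17117432) (l 17027512))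 (l 6))))))))), by decide +kernel⟩

theorem c_pm_012 : CertN 0 536870912 0 536870912 67108864 67108864 3 false true false .pnp 0 1 2
    ndN2q0 ndN0q2 pcN1 cut_pm_012 Ext.none :=
  certNK2 (fam := false) (s1 := true) (s2 := false) (a := 0) (b := 1) (c := 2) (cn := .pnp) (n1 := ndN2q0) (n2 := ndN0q2) (pc := pcN1) (cut := cut_pm_012) (xt := Ext.none) (P1 := 0) (W1 := 536870912) (P2 := 0) (W2 := 536870912) (P3 := 67108864) (W3 := 67108864) (N0 := 3)
    rfl rfl rfl (fun _ => rfl) k0_pm_012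

noncomputable def cut_pm_022 : Cut := Cut.of [[⟨0, 0, 0, 67108864⟩, ⟨1, 1, 0, 67108864⟩, ⟨2, 1, 0, 67108864⟩]]

noncomputable def f_pm_022 : ℕ → ℕ → ℕ → ℕ → Bool := onCell 0 536870912 0 536870912 67108864 67108864
    (rowNK 3 0 false true false .pp 0 2 2 (qsf 0 536870912 0 536870912 2) ndN2q0 ndN0q2 pcN2 cut_pm_022 Ext.none)

def k0_pm_022 : ∃ t, chk3 f_pm_022 t 1 1 1 = true :=
  ⟨(a (b (a (a (a (b (b (l 18072008) (l 17951096)) (a (a (b (l 17726488) (c (l 18156288) (l 17015936))) (l 17511344)) (l 17716848))) (b (l 17944728) (l 17705480))) (b (l 18102816) (l 18022568))) (a (b (l 18662968) (l 18783008)) (l 1))) (a (b (a (b (a (a (b (c (l 17875312) (l 16751224)) (b (l 16885216) (l 16809880))) (l 17077208)) (l 17107320)) (a (a (a (a (b (l 16691192) (a (l 16727064) (l 16688232))) (l 16678928)) (l 16665816)) (b (l 16668008) (l 16709264))) (l 16888776))) (b (l 17642976) (a (l 17152672) (l 17421848)))) (a (b (b (a (a (a (a (b (l 16724184) (l 16729080)) (l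 16690880)) (l 16658992)) (l 16753432)) (l 16939968)) (a (l 6) (a (l 6) (l 17033448)))) (a (l 6) (a (l 6) (l 1)))) (b (a (b (l 17186592) (l 1)) (l 1)) (l 1)))) (b (l 1) (l 1)))) (l 1)), by decide +kernel⟩

theorem c_pm_022 : CertN 0 536870912 0 536870912 67108864 67108864 3 false true false .pp 0 2 2
    ndN2q0 ndN0q2 pcN2 cut_pm_022 Ext.none :=
  certNK0 (fam := false) (s1 := true) (s2 := false) (a := 0) (b := 2) (c := 2) (cn := .pp) (n1 := ndN2q0) (n2 := ndN0q2) (pc := pcN2) (cut := cut_pm_022) (xt := Ext.none) (P1 := 0) (W1 := 536870912) (P2 := 0) (W2 := 536870912) (P3 := 67108864) (W3 := 67108864) (N0 := 3)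
    rfl rfl rfl k0_pm_022

noncomputable def f_pm_101 : ℕ → ℕ → ℕ → ℕ → Bool := onCell 536870912 536870912 536870912 536870912 67108864 67108864
    (rowNK 3 0 false true false .npn 1 0 1 (qsf 536870912 536870912 536870912 536870912 0) ndN2q1 ndN0q1 pcN0 Cut.none Ext.none)

def k0_pm_101 : ∃ t, chk3 f_pm_101 t 1 1 1 = true :=
  ⟨(l 4), by decide +kernel⟩

theorem c_pm_101 : CertN 536870912 536870912 536870912 536870912 67108864 67108864 3 false true false .npn 1 0 1
    ndN2q1 ndN0q1 pcN0 Cut.none Ext.none :=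
  certNK0 (fam := false) (s1 := true) (s2 := false) (a := 1) (b := 0) (c := 1) (cn := .npn) (n1 := ndN2q1) (n2 := ndN0q1) (pc := pcN0) (cut := Cut.none) (xt := Ext.none) (P1 := 536870912) (W1 := 536870912) (P2 := 536870912) (W2 := 536870912) (P3 := 67108864) (W3 := 67108864) (N0 := 3)
    rfl rfl rfl k0_pm_101

noncomputable def f_pm_102 : ℕ → ℕ → ℕ → ℕ → Bool := onCell 536870912 536870912 0 536870912 67108864 67108864
    (rowNK 3 0 false true false .npp 1 0 2 (qsf 536870912 536870912 0 536870912 0) ndN2q1 ndN0q2 pcN0 Cut.none Ext.none)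

def k0_pm_102 : ∃ t, chk3 f_pm_102 t 1 1 1 = true :=
  ⟨(a (b (a (a (l 2) (b (l 2) (b (l 2) (l 17418728)))) (a (b (b (l 17597488) (l 17700736)) (l 17235056)) (b (b (l 17180768) (l 16890360)) (l 17522400)))) (a (b (a (l 2) (l 4)) (l 4)) (l 4))) (b (a (a (a (l 17663720) (l 17852160)) (b (l 18421240) (l 18757056))) (a (l 19060520) (a (l 19302272) (l 19400264)))) (l 4))), by decide +kernel⟩

theorem c_pm_102 : CertN 536870912 536870912 0 536870912 67108864 67108864 3 false true false .npp 1 0 2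
    ndN2q1 ndN0q2 pcN0 Cut.none Ext.none :=
  certNK0 (fam := false) (s1 := true) (s2 := false) (a := 1) (b := 0) (c := 2) (cn := .npp) (n1 := ndN2q1) (n2 := ndN0q2) (pc := pcN0) (cut := Cut.none) (xt := Ext.none) (P1 := 536870912) (W1 := 536870912) (P2 := 0) (W2 := 536870912) (P3 := 67108864) (W3 := 67108864) (N0 := 3)
    rfl rfl rfl k0_pm_102

noncomputable def f_pm_112 : ℕ → ℕ → ℕ → ℕ → Bool := onCell 536870912 536870912 0 536870912 67108864 67108864
    (rowNK 3 2 false true false .dn 1 1 2 (qsf 536870912 536870912 0 536870912 1) ndN2q1 ndN0q2 pcN1 Cut.none Ext.none)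

def k0_pm_112 : ∃ t, chk3 f_pm_112 t 1 1 1 = true :=
  ⟨(a (b (a (b (a (b (a (l 17166600) (l 17738152)) (l 17460968)) (b (b (l 18741400) (l 18127392)) (b (l 17365520) (l 17539272)))) (l 17641840)) (a (b (b (b (l 18865848) (a (l 18741376) (l 1))) (b (a (l 18065688) (l 1)) (l 17627112))) (b (b (l 17734840) (l 17848368)) (l 17864352))) (l 1))) (a (l 54460375463) (l 17854360))) (l 1)), by decide +kernel⟩

theorem c_pm_112 : CertN 536870912 536870912 0 536870912 67108864 67108864 3 false true false .dn 1 1 2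
    ndN2q1 ndN0q2 pcN1 Cut.none Ext.none :=
  certNK2 (fam := false) (s1 := true) (s2 := false) (a := 1) (b := 1) (c := 2) (cn := .dn) (n1 := ndN2q1) (n2 := ndN0q2) (pc := pcN1) (cut := Cut.none) (xt := Ext.none) (P1 := 536870912) (W1 := 536870912) (P2 := 0) (W2 := 536870912) (P3 := 67108864) (W3 := 67108864) (N0 := 3)
    rfl rfl rfl (fun _ => rfl) k0_pm_112

noncomputable def cut_pm_202_a : Cut := Cut.of [[⟨0, 1, 0, 67108864⟩, ⟨1, 0, 0, 67108864⟩, ⟨2, 1, 0, 67108864⟩]]

noncomputable def f_pm_202_a : ℕ → ℕ → ℕ → ℕ → Bool := onCell 0 536870912 0 536870912 67108864 67108864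
    (rowNK 3 0 false true false .pp 2 0 2 (qsf 0 536870912 0 536870912 0) ndN2q2a ndN0q2 pcN0 cut_pm_202_a Ext.none)

def k0_pm_202_a : ∃ t, chk3 f_pm_202_a t 1 1 1 = true :=
  ⟨(b (l 3) (b (l 3) (b (l 3) (a (l 1) (a (l 1) (a (b (l 3) (l 1)) (l 6))))))), by decide +kernel⟩

theorem c_pm_202_a : CertN 0 536870912 0 536870912 67108864 67108864 3 false true false .pp 2 0 2
    ndN2q2a ndN0q2 pcN0 cut_pm_202_a Ext.none :=
  certNK0 (fam := false) (s1 := true) (s2 := false) (a := 2) (b := 0) (c := 2) (cn := .pp) (n1 := ndN2q2a) (n2 := ndN0q2) (pc := pcN0) (cut := cut_pm_202_a) (xt := Ext.none) (P1 := 0) (W1 := 536870912) (P2 := 0) (W2 := 536870912) (P3 := 67108864) (W3 := 67108864) (N0 := 3)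
    rfl rfl rfl k0_pm_202_a

noncomputable def cut_pm_202_b : Cut := Cut.of [[⟨0, 1, 0, 67108864⟩, ⟨1, 0, 0, 67108864⟩, ⟨2, 1, 0, 67108864⟩]]

noncomputable def f_pm_202_b : ℕ → ℕ → ℕ → ℕ → Bool := onCell 1239849684 370763052 0 536870912 67108864 67108864
    (rowNK 3 0 false true false .pp 2 0 2 (qsf 1239849684 370763052 0 536870912 0) ndN2q2b ndN0q2 pcN0 cut_pm_202_b Ext.none)

def k0_pm_202_b : ∃ t, chk3 f_pm_202_b t 1 1 1 = true :=
  ⟨(b (l 3) (l 1)), by decide +kernel⟩

theorem c_pm_202_b : CertN 1239849684 370763052 0 536870912 67108864 67108864 3 false true false .pp 2 0 2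
    ndN2q2b ndN0q2 pcN0 cut_pm_202_b Ext.none :=
  certNK0 (fam := false) (s1 := true) (s2 := false) (a := 2) (b := 0) (c := 2) (cn := .pp) (n1 := ndN2q2b) (n2 := ndN0q2) (pc := pcN0) (cut := cut_pm_202_b) (xt := Ext.none) (P1 := 1239849684) (W1 := 370763052) (P2 := 0) (W2 := 536870912) (P3 := 67108864) (W3 := 67108864) (N0 := 3)
    rfl rfl rfl k0_pm_202_b

noncomputable def f_mm_001 : ℕ → ℕ → ℕ → ℕ → Bool := onCell 0 536870912 536870912 536870912 67108864 67108864
    (rowNK 3 0 false false false .up 0 0 1 (qsf 0 536870912 536870912 536870912 0) ndN2q0 ndN0q1 pcN0 Cut.none Ext.none)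

def k0_mm_001 : ∃ t, chk3 f_mm_001 t 1 1 1 = true :=
  ⟨(l 5), by decide +kernel⟩

theorem c_mm_001 : CertN 0 536870912 536870912 536870912 67108864 67108864 3 false false false .up 0 0 1
    ndN2q0 ndN0q1 pcN0 Cut.none Ext.none :=
  certNK0 (fam := false) (s1 := false) (s2 := false) (a := 0) (b := 0) (c := 1) (cn := .up) (n1 := ndN2q0) (n2 := ndN0q1) (pc := pcN0) (cut := Cut.none) (xt := Ext.none) (P1 := 0) (W1 := 536870912) (P2 := 536870912) (W2 := 536870912) (P3 := 67108864) (W3 := 67108864) (N0 := 3)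
    rfl rfl rfl k0_mm_001

noncomputable def f_mm_011 : ℕ → ℕ → ℕ → ℕ → Bool := onCell 0 536870912 536870912 536870912 67108864 67108864
    (rowNK 3 0 false false false .pnn 0 1 1 (qsf 0 536870912 536870912 536870912 1) ndN2q0 ndN0q1 pcN1 Cut.none Ext.none)

def k0_mm_011 : ∃ t, chk3 f_mm_011 t 1 1 1 = true :=
  ⟨(l 5), by decide +kernel⟩

theorem c_mm_011 : CertN 0 536870912 536870912 536870912 67108864 67108864 3 false false false .pnn 0 1 1
    ndN2q0 ndN0q1 pcN1 Cut.none Ext.none :=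
  certNK0 (fam := false) (s1 := false) (s2 := false) (a := 0) (b := 1) (c := 1) (cn := .pnn) (n1 := ndN2q0) (n2 := ndN0q1) (pc := pcN1) (cut := Cut.none) (xt := Ext.none) (P1 := 0) (W1 := 536870912) (P2 := 536870912) (W2 := 536870912) (P3 := 67108864) (W3 := 67108864) (N0 := 3)
    rfl rfl rfl k0_mm_011

noncomputable def f_mm_012 : ℕ → ℕ → ℕ → ℕ → Bool := onCell 0 536870912 0 536870912 67108864 67108864
    (rowNK 3 0 false false false .pnp 0 1 2 (qsf 0 536870912 0 536870912 1) ndN2q0 ndN0q2 pcN1 Cut.none Ext.none)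

def k0_mm_012 : ∃ t, chk3 f_mm_012 t 1 1 1 = true :=
  ⟨(l 5), by decide +kernel⟩

theorem c_mm_012 : CertN 0 536870912 0 536870912 67108864 67108864 3 false false false .pnp 0 1 2
    ndN2q0 ndN0q2 pcN1 Cut.none Ext.none :=
  certNK0 (fam := false) (s1 := false) (s2 := false) (a := 0) (b := 1) (c := 2) (cn := .pnp) (n1 := ndN2q0) (n2 := ndN0q2) (pc := pcN1) (cut := Cut.none) (xt := Ext.none) (P1 := 0) (W1 := 536870912) (P2 := 0) (W2 := 536870912) (P3 := 67108864) (W3 := 67108864) (N0 := 3)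
    rfl rfl rfl k0_mm_012

noncomputable def f_mm_022 : ℕ → ℕ → ℕ → ℕ → Bool := onCell 0 536870912 0 536870912 67108864 67108864
    (rowNK 3 0 false false false .pp 0 2 2 (qsf 0 536870912 0 536870912 2) ndN2q0 ndN0q2 pcN2 Cut.none Ext.none)

def k0_mm_022 : ∃ t, chk3 f_mm_022 t 1 1 1 = true :=
  ⟨(l 5), by decide +kernel⟩

theorem c_mm_022 : CertN 0 536870912 0 536870912 67108864 67108864 3 false false false .pp 0 2 2
    ndN2q0 ndN0q2 pcN2 Cut.none Ext.none :=
  certNK0 (fam := false) (s1 := false) (s2 := false) (a := 0) (b := 2) (c := 2) (cn := .pp) (n1 := ndN2q0) (n2 := ndN0q2) (pc := pcN2) (cut := Cut.none) (xt := Ext.none) (P1 := 0) (W1 := 536870912) (P2 := 0) (W2 := 536870912) (P3 := 67108864) (W3 := 67108864) (N0 := 3)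
    rfl rfl rfl k0_mm_022

noncomputable def f_mm_101 : ℕ → ℕ → ℕ → ℕ → Bool := onCell 536870912 536870912 0 536870912 67108864 67108864
    (rowNK 3 1 false false false .npn 1 0 1 (qsf 536870912 536870912 536870912 536870912 0) ndN2q1 ndN0q1 pcN0 Cut.none Ext.none)

def k0_mm_101 : ∃ t, chk3 f_mm_101 t 1 1 1 = true :=
  ⟨(a (l 5) (l 5)), by decide +kernel⟩

theorem c_mm_101 : CertN 536870912 536870912 536870912 536870912 67108864 67108864 3 false false false .npn 1 0 1
    ndN2q1 ndN0q1 pcN0 Cut.none Ext.none :=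
  certNK1 (fam := false) (s1 := false) (s2 := false) (a := 1) (b := 0) (c := 1) (cn := .npn) (n1 := ndN2q1) (n2 := ndN0q1) (pc := pcN0) (cut := Cut.none) (xt := Ext.none) (P1 := 536870912) (W1 := 536870912) (P2 := 536870912) (W2 := 536870912) (P3 := 67108864) (W3 := 67108864) (N0 := 3)
    rfl rfl rfl (fun _ => rfl) k0_mm_101

noncomputable def f_mm_102 : ℕ → ℕ → ℕ → ℕ → Bool := onCell 536870912 536870912 0 536870912 67108864 67108864
    (rowNK 3 0 false false false .npp 1 0 2 (qsf 536870912 536870912 0 536870912 0) ndN2q1 ndN0q2 pcN0 Cut.none Ext.none)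

def k0_mm_102 : ∃ t, chk3 f_mm_102 t 1 1 1 = true :=
  ⟨(l 5), by decide +kernel⟩

theorem c_mm_102 : CertN 536870912 536870912 0 536870912 67108864 67108864 3 false false false .npp 1 0 2
    ndN2q1 ndN0q2 pcN0 Cut.none Ext.none :=
  certNK0 (fam := false) (s1 := false) (s2 := false) (a := 1) (b := 0) (c := 2) (cn := .npp) (n1 := ndN2q1) (n2 := ndN0q2) (pc := pcN0) (cut := Cut.none) (xt := Ext.none) (P1 := 536870912) (W1 := 536870912) (P2 := 0) (W2 := 536870912) (P3 := 67108864) (W3 := 67108864) (N0 := 3)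
    rfl rfl rfl k0_mm_102

noncomputable def f_mm_112 : ℕ → ℕ → ℕ → ℕ → Bool := onCell 536870912 536870912 0 536870912 67108864 67108864
    (rowNK 3 0 false false false .dn 1 1 2 (qsf 536870912 536870912 0 536870912 1) ndN2q1 ndN0q2 pcN1 Cut.none Ext.none)

def k0_mm_112 : ∃ t, chk3 f_mm_112 t 1 1 1 = true :=
  ⟨(l 5), by decide +kernel⟩

theorem c_mm_112 : CertN 536870912 536870912 0 536870912 67108864 67108864 3 false false false .dn 1 1 2
    ndN2q1 ndN0q2 pcN1 Cut.none Ext.none :=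
  certNK0 (fam := false) (s1 := false) (s2 := false) (a := 1) (b := 1) (c := 2) (cn := .dn) (n1 := ndN2q1) (n2 := ndN0q2) (pc := pcN1) (cut := Cut.none) (xt := Ext.none) (P1 := 536870912) (W1 := 536870912) (P2 := 0) (W2 := 536870912) (P3 := 67108864) (W3 := 67108864) (N0 := 3)
    rfl rfl rfl k0_mm_112

noncomputable def f_mm_202_a : ℕ → ℕ → ℕ → ℕ → Bool := onCell 0 536870912 0 536870912 67108864 67108864
    (rowNK 3 0 false false false .pp 2 0 2 (qsf 0 536870912 0 536870912 0) ndN2q2a ndN0q2 pcN0 Cut.none Ext.none)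

def k0_mm_202_a : ∃ t, chk3 f_mm_202_a t 1 1 1 = true :=
  ⟨(l 3), by decide +kernel⟩

theorem c_mm_202_a : CertN 0 536870912 0 536870912 67108864 67108864 3 false false false .pp 2 0 2
    ndN2q2a ndN0q2 pcN0 Cut.none Ext.none :=
  certNK0 (fam := false) (s1 := false) (s2 := false) (a := 2) (b := 0) (c := 2) (cn := .pp) (n1 := ndN2q2a) (n2 := ndN0q2) (pc := pcN0) (cut := Cut.none) (xt := Ext.none) (P1 := 0) (W1 := 536870912) (P2 := 0) (W2 := 536870912) (P3 := 67108864) (W3 := 67108864) (N0 := 3)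
    rfl rfl rfl k0_mm_202_a

noncomputable def f_mm_202_b : ℕ → ℕ → ℕ → ℕ → Bool := onCell 1239849684 370763052 0 536870912 67108864 67108864
    (rowNK 3 0 false false false .pp 2 0 2 (qsf 1239849684 370763052 0 536870912 0) ndN2q2b ndN0q2 pcN0 Cut.none Ext.none)

def k0_mm_202_b : ∃ t, chk3 f_mm_202_b t 1 1 1 = true :=
  ⟨(l 3), by decide +kernel⟩

theorem c_mm_202_b : CertN 1239849684 370763052 0 536870912 67108864 67108864 3 false false false .pp 2 0 2
    ndN2q2b ndN0q2 pcN0 Cut.none Ext.none :=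
  certNK0 (fam := false) (s1 := false) (s2 := false) (a := 2) (b := 0) (c := 2) (cn := .pp) (n1 := ndN2q2b) (n2 := ndN0q2) (pc := pcN0) (cut := Cut.none) (xt := Ext.none) (P1 := 1239849684) (W1 := 370763052) (P2 := 0) (W2 := 536870912) (P3 := 67108864) (W3 := 67108864) (N0 := 3)
    rfl rfl rfl k0_mm_202_b

end Pool.Agent.Strip051.G.I1_16_1_8.Tab.C.NB20

namespace Pool.Agent.Strip051.G.I1_16_1_8.Tab.C.NB21

open Pool.Agent.Strip051.PB Pool.Agent.Strip051.PB.T
open Pool.Agent.Strip051.G.I1_16_1_8.Tab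

noncomputable def f_pp_001 : ℕ → ℕ → ℕ → ℕ → Bool := onCell 0 536870912 536870912 536870912 67108864 67108864
    (rowNK 3 0 false true true .up 0 0 1 (qsf 0 536870912 536870912 536870912 0) ndN2q0 ndN1q1 pcN0 Cut.none Ext.none)

def k0_pp_001 : ∃ t, chk3 f_pp_001 t 1 1 1 = true :=
  ⟨(l 3), by decide +kernel⟩

theorem c_pp_001 : CertN 0 536870912 536870912 536870912 67108864 67108864 3 false true true .up 0 0 1
    ndN2q0 ndN1q1 pcN0 Cut.none Ext.none :=
  certNK0 (fam := false) (s1 := true) (s2 := true) (a := 0) (b := 0) (c := 1) (cn := .up) (n1 := ndN2q0) (n2 := ndN1q1) (pc := pcN0) (cut := Cut.none) (xt := Ext.none) (P1 := 0) (W1 := 536870912) (P2 := 536870912) (W2 := 536870912) (P3 := 67108864) (W3 := 67108864) (N0 := 3)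
    rfl rfl rfl k0_pp_001

noncomputable def f_pp_011 : ℕ → ℕ → ℕ → ℕ → Bool := onCell 0 536870912 536870912 536870912 67108864 67108864
    (rowNK 3 0 false true true .pnn 0 1 1 (qsf 0 536870912 536870912 536870912 1) ndN2q0 ndN1q1 pcN1 Cut.none Ext.none)

def k0_pp_011 : ∃ t, chk3 f_pp_011 t 1 1 1 = true :=
  ⟨(l 3), by decide +kernel⟩

theorem c_pp_011 : CertN 0 536870912 536870912 536870912 67108864 67108864 3 false true true .pnn 0 1 1
    ndN2q0 ndN1q1 pcN1 Cut.none Ext.none :=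
  certNK0 (fam := false) (s1 := true) (s2 := true) (a := 0) (b := 1) (c := 1) (cn := .pnn) (n1 := ndN2q0) (n2 := ndN1q1) (pc := pcN1) (cut := Cut.none) (xt := Ext.none) (P1 := 0) (W1 := 536870912) (P2 := 536870912) (W2 := 536870912) (P3 := 67108864) (W3 := 67108864) (N0 := 3)
    rfl rfl rfl k0_pp_011

noncomputable def cut_pp_012_a : Cut := Cut.of [[⟨0, 0, 0, 67108864⟩, ⟨1, 1, 0, 67108864⟩, ⟨2, 1, 0, 67108864⟩]]

noncomputable def f_pp_012_a : ℕ → ℕ → ℕ → ℕ → Bool := onCell 536870912 536870912 0 536870912 67108864 67108864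
    (rowNK 3 2 false true true .pnp 0 1 2 (qsf 0 536870912 0 536870912 1) ndN2q0 ndN1q2a pcN1 cut_pp_012_a Ext.none)

def k0_pp_012_a : ∃ t, chk3 f_pp_012_a t 1 1 1 = true :=
  ⟨(a (b (a (l 18399880) (l 18358288)) (a (b (l 18497696) (a (l 18495128) (l 18491832))) (b (l 18410712) (b (l 18383264) (a (l 18401784) (l 18254216)))))) (a (b (l 18136536) (b (l 18101144) (b (l 18196480) (a (l 18042104) (l 17619352))))) (b (a (l 17870304) (l 17814248)) (b (a (l 17738448) (a (l 17565888) (b (l 17641656) (l 17413456)))) (a (b (l 17577576) (b (l 17475056) (a (l 17486832) (l 17306880)))) (b (a (l 17336752) (b (l 17262376) (a (l 17202816) (l 17101608)))) (a (b (l 17207408) (b (l 17141680) (l 17012248))) (b (a (l 17085856) (l 6)) (l 6))))))))), by decide +kernel⟩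

theorem c_pp_012_a : CertN 0 536870912 0 536870912 67108864 67108864 3 false true true .pnp 0 1 2
    ndN2q0 ndN1q2a pcN1 cut_pp_012_a Ext.none :=
  certNK2 (fam := false) (s1 := true) (s2 := true) (a := 0) (b := 1) (c := 2) (cn := .pnp) (n1 := ndN2q0) (n2 := ndN1q2a) (pc := pcN1) (cut := cut_pp_012_a) (xt := Ext.none) (P1 := 0) (W1 := 536870912) (P2 := 0) (W2 := 536870912) (P3 := 67108864) (W3 := 67108864) (N0 := 3)
    rfl rfl rfl (fun _ => rfl) k0_pp_012_a

noncomputable def cut_pp_012_b : Cut := Cut.of [[⟨0, 0, 0, 67108864⟩, ⟨1, 1, 0, 67108864⟩, ⟨2, 1, 0, 67108864⟩]]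

noncomputable def f_pp_012_b : ℕ → ℕ → ℕ → ℕ → Bool := onCell 536870912 536870912 1239849684 370763052 67108864 67108864
    (rowNK 3 2 false true true .pnp 0 1 2 (qsf 0 536870912 1239849684 370763052 1) ndN2q0 ndN1q2b pcN1 cut_pp_012_b Ext.none)

def k0_pp_012_b : ∃ t, chk3 f_pp_012_b t 1 1 1 = true :=
  ⟨(a (a (l 2) (b (l 18475992) (l 2))) (a (b (l 18369616) (l 18541088)) (b (b (a (l 18057712) (l 17967520)) (l 18283328)) (a (l 18512344) (a (l 18474832) (l 18444152)))))), by decide +kernel⟩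

theorem c_pp_012_b : CertN 0 536870912 1239849684 370763052 67108864 67108864 3 false true true .pnp 0 1 2
    ndN2q0 ndN1q2b pcN1 cut_pp_012_b Ext.none :=
  certNK2 (fam := false) (s1 := true) (s2 := true) (a := 0) (b := 1) (c := 2) (cn := .pnp) (n1 := ndN2q0) (n2 := ndN1q2b) (pc := pcN1) (cut := cut_pp_012_b) (xt := Ext.none) (P1 := 0) (W1 := 536870912) (P2 := 1239849684) (W2 := 370763052) (P3 := 67108864) (W3 := 67108864) (N0 := 3)
    rfl rfl rfl (fun _ => rfl) k0_pp_012_b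

noncomputable def cut_pp_022_a : Cut := Cut.of [[⟨0, 0, 0, 67108864⟩, ⟨1, 1, 0, 67108864⟩, ⟨2, 1, 0, 67108864⟩]]

noncomputable def f_pp_022_a : ℕ → ℕ → ℕ → ℕ → Bool := onCell 0 536870912 0 536870912 67108864 67108864
    (rowNK 3 0 false true true .pp 0 2 2 (qsf 0 536870912 0 536870912 2) ndN2q0 ndN1q2a pcN2 cut_pp_022_a Ext.none)

def k0_pp_022_a : ∃ t, chk3 f_pp_022_a t 1 1 1 = true :=
  ⟨(a (b (a (b (a (a (a (l 17880728) (l 17922136)) (l 17785656)) (a (l 17731368) (a (l 17799568) (b (l 17892984) (l 17866880))))) (a (a (a (b (a (l 17774416) (l 17832056)) (b (l 17428136) (c (l 18003568) (l 16973064)))) (l 17613696)) (a (l 17531224) (l 17492624))) (b (a (l 17610136) (a (l 17713592) (l 17825552))) (a (a (l 17425728) (b (l 17554584) (l 17470584))) (l 17712144))))) (a (l 18114472) (l 1))) (a (b (a (b (a (a (a (b (c (l 17843608) (l 16730672)) (b (l 16902120) (l 16809496))) (l 17074760)) (l 17019544)) (a (l 16996168) (b (l 17153448) (l 16977144)))) (a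 (a (a (b (a (l 16660912) (l 16627576)) (a (b (l 16658568) (l 16666992)) (l 16664984))) (b (l 16628464) (l 16747920))) (b (l 16785832) (a (l 16750224) (l 16843256)))) (b (a (a (l 16838656) (l 16907832)) (a (l 16974344) (l 17061200))) (a (a (l 16907240) (l 16951136)) (l 17057744))))) (a (b (a (b (l 17243864) (l 17141872)) (l 17359376)) (l 17265536)) (b (l 17663528) (l 17652272)))) (a (a (b (b (b (a (a (a (l 16687392) (l 16673456)) (l 16719104)) (a (l 16767128) (l 16831168))) (b (a (a (a (l 16683224) (l 16670112)) (l 16718448)) (a (l 16783264) (l 16854544))) (l 6))) (l 6)) (l 6)) (b (b (l 17021480) (a (l 6) (l 17128760))) (a (l 6) (l 1)))) (a (b (b (l 17317296) (l 1)) (l 1)) (l 1)))) (b (l 1) (l 1)))) (l 1)), by decide +kernel⟩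

theorem c_pp_022_a : CertN 0 536870912 0 536870912 67108864 67108864 3 false true true .pp 0 2 2
    ndN2q0 ndN1q2a pcN2 cut_pp_022_a Ext.none :=
  certNK0 (fam := false) (s1 := true) (s2 := true) (a := 0) (b := 2) (c := 2) (cn := .pp) (n1 := ndN2q0) (n2 := ndN1q2a) (pc := pcN2) (cut := cut_pp_022_a) (xt := Ext.none) (P1 := 0) (W1 := 536870912) (P2 := 0) (W2 := 536870912) (P3 := 67108864) (W3 := 67108864) (N0 := 3)
    rfl rfl rfl k0_pp_022_a

noncomputable def cut_pp_022_b : Cut := Cut.of [[⟨0, 0, 0, 67108864⟩, ⟨1, 1, 0, 67108864⟩, ⟨2, 1, 0, 67108864⟩]]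

noncomputable def f_pp_022_b : ℕ → ℕ → ℕ → ℕ → Bool := onCell 0 536870912 1073741824 536870912 67108864 67108864
    (rowNK 3 1 false true true .pp 0 2 2 (qsf 0 536870912 1239849684 370763052 2) ndN2q0 ndN1q2b pcN2 cut_pp_022_b Ext.none)

def k0_pp_022_b : ∃ t, chk3 f_pp_022_b t 1 1 1 = true :=
  ⟨(a (b (b (b (a (a (l 1) (b (l 17440608) (l 17694192))) (b (l 18191072) (l 18182960))) (a (a (b (l 526167629143) (l 625490042167)) (l 18000520)) (l 18168192))) (a (a (b (a (b (l 208878892919) (l 18375832)) (l 18270400)) (l 18592184)) (l 18330312)) (l 18122392))) (a (b (a (l 18775456) (l 18451520)) (a (l 18795320) (l 18437808))) (b (l 18035384) (l 17893304)))) (b (a (l 18068104) (l 18156368)) (b (l 17648096) (l 2)))), by decide +kernel⟩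

theorem c_pp_022_b : CertN 0 536870912 1239849684 370763052 67108864 67108864 3 false true true .pp 0 2 2
    ndN2q0 ndN1q2b pcN2 cut_pp_022_b Ext.none :=
  certNK1 (fam := false) (s1 := true) (s2 := true) (a := 0) (b := 2) (c := 2) (cn := .pp) (n1 := ndN2q0) (n2 := ndN1q2b) (pc := pcN2) (cut := cut_pp_022_b) (xt := Ext.none) (P1 := 0) (W1 := 536870912) (P2 := 1239849684) (W2 := 370763052) (P3 := 67108864) (W3 := 67108864) (N0 := 3)
    rfl rfl rfl (fun _ => rfl) k0_pp_022_b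

noncomputable def f_pp_023 : ℕ → ℕ → ℕ → ℕ → Bool := onCell 1073741824 536870912 1610612736 536870912 67108864 67108864
    (rowNK 3 2 false true true .up 0 2 3 (qsf 0 536870912 1610612736 536870912 2) ndN2q0 ndN1q3 pcN2 Cut.none Ext.none)

def k0_pp_023 : ∃ t, chk3 f_pp_023 t 1 1 1 = true :=
  ⟨(a (b (b (l 17824432) (l 17763320)) (b (l 17410280) (l 2))) (b (a (b (l 17632056) (l 17504776)) (b (b (l 18119496) (l 17876304)) (l 17501864))) (a (l 17571576) (b (l 17486136) (l 4))))), by decide +kernel⟩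

theorem c_pp_023 : CertN 0 536870912 1610612736 536870912 67108864 67108864 3 false true true .up 0 2 3
    ndN2q0 ndN1q3 pcN2 Cut.none Ext.none :=
  certNK2 (fam := false) (s1 := true) (s2 := true) (a := 0) (b := 2) (c := 3) (cn := .up) (n1 := ndN2q0) (n2 := ndN1q3) (pc := pcN2) (cut := Cut.none) (xt := Ext.none) (P1 := 0) (W1 := 536870912) (P2 := 1610612736) (W2 := 536870912) (P3 := 67108864) (W3 := 67108864) (N0 := 3)
    rfl rfl rfl (fun _ => rfl) k0_pp_023

noncomputable def f_pp_033 : ℕ → ℕ → ℕ → ℕ → Bool := onCell 0 536870912 1610612736 536870912 67108864 67108864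
    (rowNK 3 0 false true true .pnn 0 3 3 (qsf 0 536870912 1610612736 536870912 3) ndN2q0 ndN1q3 pcN3 Cut.none Ext.none)

def k0_pp_033 : ∃ t, chk3 f_pp_033 t 1 1 1 = true :=
  ⟨(a (b (b (a (b (l 18174992) (a (l 17692056) (l 17448312))) (b (l 1) (l 17147656))) (a (b (l 17830168) (l 18153912)) (b (l 17224464) (l 17458608)))) (b (b (a (a (l 18390280) (l 18055840)) (l 17649544)) (l 4)) (l 4))) (b (a (b (l 1) (b (l 1) (l 17249864))) (l 1)) (b (a (b (l 17308840) (l 4)) (b (l 1) (l 17599208))) (l 4)))), by decide +kernel⟩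

theorem c_pp_033 : CertN 0 536870912 1610612736 536870912 67108864 67108864 3 false true true .pnn 0 3 3
    ndN2q0 ndN1q3 pcN3 Cut.none Ext.none :=
  certNK0 (fam := false) (s1 := true) (s2 := true) (a := 0) (b := 3) (c := 3) (cn := .pnn) (n1 := ndN2q0) (n2 := ndN1q3) (pc := pcN3) (cut := Cut.none) (xt := Ext.none) (P1 := 0) (W1 := 536870912) (P2 := 1610612736) (W2 := 536870912) (P3 := 67108864) (W3 := 67108864) (N0 := 3)
    rfl rfl rfl k0_pp_033

noncomputable def f_pp_101 : ℕ → ℕ → ℕ → ℕ → Bool := onCell 536870912 536870912 536870912 536870912 67108864 67108864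
    (rowNK 3 0 false true true .npn 1 0 1 (qsf 536870912 536870912 536870912 536870912 0) ndN2q1 ndN1q1 pcN0 Cut.none Ext.none)

def k0_pp_101 : ∃ t, chk3 f_pp_101 t 1 1 1 = true :=
  ⟨(l 3), by decide +kernel⟩

theorem c_pp_101 : CertN 536870912 536870912 536870912 536870912 67108864 67108864 3 false true true .npn 1 0 1
    ndN2q1 ndN1q1 pcN0 Cut.none Ext.none :=
  certNK0 (fam := false) (s1 := true) (s2 := true) (a := 1) (b := 0) (c := 1) (cn := .npn) (n1 := ndN2q1) (n2 := ndN1q1) (pc := pcN0) (cut := Cut.none) (xt := Ext.none) (P1 := 536870912) (W1 := 536870912) (P2 := 536870912) (W2 := 536870912) (P3 := 67108864) (W3 := 67108864) (N0 := 3)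
    rfl rfl rfl k0_pp_101

noncomputable def cut_pp_102_a : Cut := Cut.of [[⟨0, 1, 0, 67108864⟩, ⟨1, 0, 0, 67108864⟩, ⟨2, 1, 0, 67108864⟩], [⟨0, 1, 2, 33554432⟩, ⟨1, 0, 1, 33554432⟩, ⟨2, 1, 0, 16777216⟩, ⟨0, 0, 0, 1023410176⟩, ⟨0, 1, 0, 150994944⟩, ⟨1, 0, 0, 150994944⟩, ⟨1, 1, 0, 1023410176⟩]]

noncomputable def f_pp_102_a : ℕ → ℕ → ℕ → ℕ → Bool := onCell 536870912 536870912 0 536870912 67108864 67108864
    (rowNK 3 0 false true true .npp 1 0 2 (qsf 536870912 536870912 0 536870912 0) ndN2q1 ndN1q2a pcN0 cut_pp_102_a Ext.none)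

def k0_pp_102_a : ∃ t, chk3 f_pp_102_a t 2 1 1 = true :=
  ⟨(b (a (l 138615353527) (a (l 17343648) (l 17368320))) (a (b (l 18015624) (b (l 18264840) (a (l 18500672) (l 18430480)))) (b (a (l 17710760) (l 17478776)) (b (a (l 17997824) (l 17698032)) (a (b (l 18173568) (l 18302680)) (a (l 18011296) (l 17975496))))))), by decide +kernel⟩

def k1_pp_102_a : ∃ t, chk3 f_pp_102_a t 3 2 1 = true :=
  ⟨(a (b (a (l 17921664) (l 18640048)) (a (l 17923584) (l 18568880))) (a (b (l 19012384) (a (l 18816784) (l 18846504))) (a (b (l 19071608) (a (l 18828728) (l 18813272))) (b (l 19047800) (b (l 18862776) (l 18582048)))))), by decide +kernel⟩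

def k2_pp_102_a : ∃ t, chk3 f_pp_102_a t 6 3 1 = true :=
  ⟨(b (a (l 17887744) (a (l 18247168) (l 18470600))) (a (b (l 17809464) (b (l 17797000) (a (l 17693208) (a (l 17674832) (l 17702208))))) (b (a (l 18003336) (b (l 18154944) (l 17970520))) (a (b (l 17825376) (b (l 17723112) (c (l 17752560) (a (l 17588736) (l 17387432))))) (b (a (l 17788184) (l 17706672)) (b (a (l 17626704) (l 17337696)) (a (c (l 17703952) (b (l 17348848) (a (l 17356496) (c (l 17348184) (b (l 17157280) (a (l 17171640) (l 17079360))))))) (c (b (l 17646640) (l 17504360)) (b (l 17093528) (a (b (l 17156840) (c (l 17241928) (a (l 16956360) (l 14)))) (b (l 17046912) (c (l 17097320) (l 14))))))))))))), by decide +kernel⟩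

def k3_pp_102_a : ∃ t, chk3 f_pp_102_a t 14 6 1 = true :=
  ⟨(a (l 18476424) (a (l 18412920) (l 18344728))), by decide +kernel⟩

def k4_pp_102_a : ∃ t, chk3 f_pp_102_a t 14 14 1 = true :=
  ⟨(a (b (l 18052192) (l 17799072)) (b (l 17796080) (a (l 17545168) (l 17278824)))), by decide +kernel⟩

def k5_pp_102_a : ∃ t, chk3 f_pp_102_a t 28 15 1 = true :=
  ⟨(a (b (l 17431704) (b (b (l 17389352) (l 17207072)) (c (b (l 17517672) (c (l 17564904) (b (l 17316936) (a (l 17321352) (l 17168936))))) (b (l 16847536) (a (b (l 16944416) (a (c (l 17028248) (l 14)) (l 14))) (l 14)))))) (a (b (l 17451320) (b (l 17112984) (c (b (l 17389600) (c (l 17447440) (b (l 17167584) (c (l 17200936) (l 14))))) (l 14)))) (b (l 17346384) (b (l 17007144) (b (l 16874800) (b (c (l 17105712) (l 16713912)) (c (c (l 17282480) (l 14)) (a (l 14) (b (l 16729448) (b (l 16736680) (c (l 14) (b (l 16739048) (c (l 14) (a (l 14) (a (l 14) (a (l 14) (l 16744032))))))))))))))))), by decide +kernel⟩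

def k6_pp_102_a : ∃ t, chk3 f_pp_102_a t 29 30 1 = true :=
  ⟨(a (b (l 17254552) (l 17042576)) (b (l 16909128) (l 16721336))), by decide +kernel⟩

def k7_pp_102_a : ∃ t, chk3 f_pp_102_a t 29 62 1 = true :=
  ⟨(a (b (l 16881464) (l 16776992)) (b (l 16706008) (l 16717896))), by decide +kernel⟩

def k8_pp_102_a : ∃ t, chk3 f_pp_102_a t 29 126 1 = true :=
  ⟨(a (l 16729080) (l 16743312)), by decide +kernel⟩

def k9_pp_102_a : ∃ t, chk3 f_pp_102_a t 58 127 1 = true :=
  ⟨(a (b (l 16717984) (b (l 16743080) (a (c (c (l 17225248) (l 14)) (b (l 16737696) (c (l 14) (c (l 14) (b (l 16739496) (a (b (l 16741120) (a (l 16742192) (l 16742456))) (a (l 16743456) (l 16745040)))))))) (c (l 14) (b (l 16738752) (c (l 14) (b (l 16741168) (a (c (l 14) (a (l 16745312) (l 16745592))) (a (c (l 14) (l 16745872)) (c (a (l 14) (l 16747368)) (l 16743528))))))))))) (b (l 16741120) (b (l 16745024) (c (l 14) (b (l 16750192) (a (c (l 14) (b (l 16742280) (b (l 16744024) (a (a (c (l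 16746840) (l 16744392)) (c (l 16747112) (l 16744680))) (a (a (l 16746768) (l 16746912)) (c (l 16746352) (l 16745256))))))) (b (l 16744448) (b (l 16748816) (a (c (l 14) (a (c (l 16746624) (l 16745544)) (c (l 16746904) (l 16745840)))) (b (l 16750144) (a (c (l 14) (l 16748264)) (c (c (l 14) (l 16750112)) (l 16748552))))))))))))), by decide +kernel⟩

def k10_pp_102_a : ∃ t, chk3 f_pp_102_a t 59 127 1 = true :=
  ⟨(b (a (l 16743360) (l 16745632)) (b (a (l 16747040) (l 16749096)) (b (a (c (l 14) (l 16752312)) (c (l 16757632) (l 16754480))) (a (b (a (l 16752096) (l 16753136)) (c (l 14) (a (c (c (l 14) (b (l 16747800) (a (a (c (l 14) (l 16748528)) (l 16750376)) (a (l 16750648) (l 16750928))))) (b (l 16746304) (a (a (l 16748560) (l 16748848)) (a (l 16750456) (l 16750760))))) (c (b (l 16749368) (a (c (l 14) (a (l 16751208) (l 16750184))) (a (c (l 14) (l 16750472)) (c (a (l 14) (l 16751776)) (l 16750760))))) (a (b (l 16747400) (a (l 16751056) (l 16751360))) (a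 (l 16751096) (l 16751408))))))) (a (c (l 14) (b (l 16747880) (a (a (c (c (a (l 16752640) (l 16752784)) (l 16752112)) (l 16751720)) (c (c (a (l 16752920) (l 16753064)) (l 16752080)) (l 16752032))) (a (c (c (a (l 16753200) (l 16753344)) (l 16752368)) (l 16752344)) (c (c (a (l 16753488) (l 16753632)) (l 16752664)) (l 16752664)))))) (c (a (l 14) (a (l 14) (c (l 14) (c (l 14) (b (l 16751896) (c (l 14) (b (l 16753424) (l 16755232)))))))) (b (l 16749080) (c (b (l 16751608) (a (a (a (l 16753912) (l 16754056)) (c (l 16754688) (l 16752528))) (a (c (l 16754976) (l 16752824)) (c (l 16755272) (l 16753128))))) (a (a (l 16752976) (l 16753296)) (a (l 16753624) (l 16753944))))))))))), by decide +kernel⟩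

def k11_pp_102_a : ∃ t, chk3 f_pp_102_a t 15 3 1 = true :=
  ⟨(a (a (a (b (l 18267096) (b (l 17145752) (b (l 16743520) (b (l 16715664) (b (l 16741216) (b (b (l 16743288) (l 16752464)) (b (l 16756384) (a (b (l 16758880) (a (a (b (l 16751792) (a (b (l 16756080) (c (c (l 14) (c (l 14) (l 16756320))) (c (l 16755096) (l 16752144)))) (l 6))) (l 6)) (l 6))) (l 6))))))))) (b (l 18201368) (b (l 16959264) (b (l 16752512) (b (l 16747928) (b (l 16745000) (l 6))))))) (b (b (l 18367408) (l 17754200)) (b (b (l 16990952) (l 16903200)) (b (a (l 16783664) (l 16770304)) (b (a (l 16760384) (l 6)) (l 6)))))) (b (b (l 17881224) (a (l 17376568) (l 16946888))) (b (b (a (l 16847200) (l 16854592)) (a (l 16799624) (l 16854344))) (b (a (b (l 16771416) (l 6)) (l 6)) (l 6))))), by decide +kernel⟩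

theorem s12_pp_102_a : ∃ t, chk3 f_pp_102_a t 29 127 1 = true := ex3_a k9_pp_102_a k10_pp_102_a

theorem s13_pp_102_a : ∃ t, chk3 f_pp_102_a t 29 63 1 = true := ex3_b k8_pp_102_a s12_pp_102_a

theorem s14_pp_102_a : ∃ t, chk3 f_pp_102_a t 29 31 1 = true := ex3_b k7_pp_102_a s13_pp_102_a

theorem s15_pp_102_a : ∃ t, chk3 f_pp_102_a t 29 15 1 = true := ex3_b k6_pp_102_a s14_pp_102_a

theorem s16_pp_102_a : ∃ t, chk3 f_pp_102_a t 14 15 1 = true := ex3_a k5_pp_102_a s15_pp_102_a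

theorem s17_pp_102_a : ∃ t, chk3 f_pp_102_a t 14 7 1 = true := ex3_b k4_pp_102_a s16_pp_102_a

theorem s18_pp_102_a : ∃ t, chk3 f_pp_102_a t 14 3 1 = true := ex3_b k3_pp_102_a s17_pp_102_a

theorem s19_pp_102_a : ∃ t, chk3 f_pp_102_a t 7 3 1 = true := ex3_a s18_pp_102_a k11_pp_102_a

theorem s20_pp_102_a : ∃ t, chk3 f_pp_102_a t 3 3 1 = true := ex3_a k2_pp_102_a s19_pp_102_a

theorem s21_pp_102_a : ∃ t, chk3 f_pp_102_a t 3 1 1 = true := ex3_b k1_pp_102_a s20_pp_102_a

theorem s22_pp_102_a : ∃ t, chk3 f_pp_102_a t 1 1 1 = true := ex3_a k0_pp_102_a s21_pp_102_a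

theorem c_pp_102_a : CertN 536870912 536870912 0 536870912 67108864 67108864 3 false true true .npp 1 0 2
    ndN2q1 ndN1q2a pcN0 cut_pp_102_a Ext.none :=
  certNK0 (fam := false) (s1 := true) (s2 := true) (a := 1) (b := 0) (c := 2) (cn := .npp) (n1 := ndN2q1) (n2 := ndN1q2a) (pc := pcN0) (cut := cut_pp_102_a) (xt := Ext.none) (P1 := 536870912) (W1 := 536870912) (P2 := 0) (W2 := 536870912) (P3 := 67108864) (W3 := 67108864) (N0 := 3)
    rfl rfl rfl s22_pp_102_a

noncomputable def cut_pp_102_b : Cut := Cut.of [[⟨0, 1, 0, 67108864⟩, ⟨1, 0, 0, 67108864⟩, ⟨2, 1, 0, 67108864⟩], [⟨0, 1, 2, 33554432⟩, ⟨1, 0, 1, 33554432⟩, ⟨2, 1, 0, 16777216⟩, ⟨0, 0, 0, 1023410176⟩, ⟨0, 1, 0, 150994944⟩, ⟨1, 0, 0, 150994944⟩, ⟨1, 1, 0, 1023410176⟩]]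

noncomputable def f_pp_102_b : ℕ → ℕ → ℕ → ℕ → Bool := onCell 536870912 536870912 1239849684 370763052 67108864 67108864
    (rowNK 3 0 false true true .npp 1 0 2 (qsf 536870912 536870912 1239849684 370763052 0) ndN2q1 ndN1q2b pcN0 cut_pp_102_b Ext.none)

def k0_pp_102_b : ∃ t, chk3 f_pp_102_b t 1 1 1 = true :=
  ⟨(a (b (a (l 2) (b (l 17021640) (l 16931960))) (l 2)) (b (a (a (l 17968984) (l 18792672)) (a (b (l 19195336) (l 19256128)) (a (b (l 19313000) (l 19400576)) (b (l 19372088) (l 19483520))))) (a (a (l 2) (l 18629744)) (a (l 19075704) (a (l 19198952) (l 19263344)))))), by decide +kernel⟩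

theorem c_pp_102_b : CertN 536870912 536870912 1239849684 370763052 67108864 67108864 3 false true true .npp 1 0 2
    ndN2q1 ndN1q2b pcN0 cut_pp_102_b Ext.none :=
  certNK0 (fam := false) (s1 := true) (s2 := true) (a := 1) (b := 0) (c := 2) (cn := .npp) (n1 := ndN2q1) (n2 := ndN1q2b) (pc := pcN0) (cut := cut_pp_102_b) (xt := Ext.none) (P1 := 536870912) (W1 := 536870912) (P2 := 1239849684) (W2 := 370763052) (P3 := 67108864) (W3 := 67108864) (N0 := 3)
    rfl rfl rfl k0_pp_102_b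

noncomputable def f_pp_112_a : ℕ → ℕ → ℕ → ℕ → Bool := onCell 536870912 536870912 0 536870912 67108864 67108864
    (rowNK 3 2 false true true .dn 1 1 2 (qsf 536870912 536870912 0 536870912 1) ndN2q1 ndN1q2a pcN1 Cut.none Ext.none)

def k0_pp_112_a : ∃ t, chk3 f_pp_112_a t 1 1 1 = true :=
  ⟨(a (a (b (l 18444168) (a (b (l 18452096) (l 18549352)) (l 484295025127))) (b (l 18395920) (b (l 1) (l 1)))) (l 1)), by decide +kernel⟩

theorem c_pp_112_a : CertN 536870912 536870912 0 536870912 67108864 67108864 3 false true true .dn 1 1 2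
    ndN2q1 ndN1q2a pcN1 Cut.none Ext.none :=
  certNK2 (fam := false) (s1 := true) (s2 := true) (a := 1) (b := 1) (c := 2) (cn := .dn) (n1 := ndN2q1) (n2 := ndN1q2a) (pc := pcN1) (cut := Cut.none) (xt := Ext.none) (P1 := 536870912) (W1 := 536870912) (P2 := 0) (W2 := 536870912) (P3 := 67108864) (W3 := 67108864) (N0 := 3)
    rfl rfl rfl (fun _ => rfl) k0_pp_112_a

noncomputable def f_pp_112_b : ℕ → ℕ → ℕ → ℕ → Bool := onCell 536870912 536870912 536870912 536870912 67108864 67108864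
    (rowNK 3 1 false true true .dn 1 1 2 (qsf 536870912 536870912 1239849684 370763052 1) ndN2q1 ndN1q2b pcN1 Cut.none Ext.none)

def k0_pp_112_b : ∃ t, chk3 f_pp_112_b t 1 1 1 = true :=
  ⟨(a (b (b (a (l 18630640) (l 17808416)) (a (l 18180432) (l 17324376))) (b (a (b (l 17738272) (l 17649368)) (l 17354168)) (b (l 18342720) (b (l 18765560) (l 19102688))))) (b (a (a (l 18056200) (l 18979496)) (a (l 19615312) (a (l 19852912) (l 19987400)))) (a (b (l 17984576) (l 2)) (l 2)))), by decide +kernel⟩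

theorem c_pp_112_b : CertN 536870912 536870912 1239849684 370763052 67108864 67108864 3 false true true .dn 1 1 2
    ndN2q1 ndN1q2b pcN1 Cut.none Ext.none :=
  certNK1 (fam := false) (s1 := true) (s2 := true) (a := 1) (b := 1) (c := 2) (cn := .dn) (n1 := ndN2q1) (n2 := ndN1q2b) (pc := pcN1) (cut := Cut.none) (xt := Ext.none) (P1 := 536870912) (W1 := 536870912) (P2 := 1239849684) (W2 := 370763052) (P3 := 67108864) (W3 := 67108864) (N0 := 3)
    rfl rfl rfl (fun _ => rfl) k0_pp_112_b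

noncomputable def f_pp_113 : ℕ → ℕ → ℕ → ℕ → Bool := onCell 536870912 536870912 536870912 536870912 67108864 67108864
    (rowNK 3 1 false true true .nn 1 1 3 (qsf 536870912 536870912 1610612736 536870912 1) ndN2q1 ndN1q3 pcN1 Cut.none Ext.none)

def k0_pp_113 : ∃ t, chk3 f_pp_113 t 1 1 1 = true :=
  ⟨(a (b (b (l 1) (l 724812156599)) (b (a (l 565362280951) (l 696894587767)) (b (a (l 18993496) (l 18479368)) (b (l 19184912) (l 19433016))))) (b (a (b (l 17732760) (l 17797880)) (a (l 19083912) (a (l 19440328) (l 19658512)))) (a (b (a (l 17298848) (l 18041664)) (b (l 17421648) (b (l 17498736) (l 17539016)))) (b (a (l 18502272) (a (l 18595552) (l 18607432))) (a (b (l 17909584) (b (l 17667720) (l 17497824))) (b (a (l 17821520) (l 17691456)) (a (b (l 17512144) (l 17293152)) (b (l 17326776) (l 17062760))))))))), by decide +kernel⟩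

theorem c_pp_113 : CertN 536870912 536870912 1610612736 536870912 67108864 67108864 3 false true true .nn 1 1 3
    ndN2q1 ndN1q3 pcN1 Cut.none Ext.none :=
  certNK1 (fam := false) (s1 := true) (s2 := true) (a := 1) (b := 1) (c := 3) (cn := .nn) (n1 := ndN2q1) (n2 := ndN1q3) (pc := pcN1) (cut := Cut.none) (xt := Ext.none) (P1 := 536870912) (W1 := 536870912) (P2 := 1610612736) (W2 := 536870912) (P3 := 67108864) (W3 := 67108864) (N0 := 3)
    rfl rfl rfl (fun _ => rfl) k0_pp_113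

noncomputable def f_pp_123 : ℕ → ℕ → ℕ → ℕ → Bool := onCell 536870912 536870912 1610612736 536870912 67108864 67108864
    (rowNK 3 0 false true true .npn 1 2 3 (qsf 536870912 536870912 1610612736 536870912 2) ndN2q1 ndN1q3 pcN2 Cut.none Ext.none)

def k0_pp_123 : ∃ t, chk3 f_pp_123 t 1 1 1 = true :=
  ⟨(a (b (a (l 20130336) (b (l 19767128) (l 19185248))) (a (b (l 19498072) (l 19174120)) (b (l 18843504) (l 18578208)))) (b (a (a (l 18834248) (l 1)) (l 1)) (a (b (l 17659232) (a (l 17774776) (l 17088568))) (a (l 709778760951) (a (l 17496264) (l 17499000)))))), by decide +kernel⟩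

theorem c_pp_123 : CertN 536870912 536870912 1610612736 536870912 67108864 67108864 3 false true true .npn 1 2 3
    ndN2q1 ndN1q3 pcN2 Cut.none Ext.none :=
  certNK0 (fam := false) (s1 := true) (s2 := true) (a := 1) (b := 2) (c := 3) (cn := .npn) (n1 := ndN2q1) (n2 := ndN1q3) (pc := pcN2) (cut := Cut.none) (xt := Ext.none) (P1 := 536870912) (W1 := 536870912) (P2 := 1610612736) (W2 := 536870912) (P3 := 67108864) (W3 := 67108864) (N0 := 3)
    rfl rfl rfl k0_pp_123

noncomputable def f_pp_133 : ℕ → ℕ → ℕ → ℕ → Bool := onCell 1610612736 536870912 1610612736 536870912 67108864 67108864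
    (rowNK 3 2 false true true .dn 1 3 3 (qsf 536870912 536870912 1610612736 536870912 3) ndN2q1 ndN1q3 pcN3 Cut.none Ext.none)

def k0_pp_133 : ∃ t, chk3 f_pp_133 t 1 1 1 = true :=
  ⟨(a (b (l 1) (b (l 1) (l 4))) (l 1)), by decide +kernel⟩

theorem c_pp_133 : CertN 536870912 536870912 1610612736 536870912 67108864 67108864 3 false true true .dn 1 3 3
    ndN2q1 ndN1q3 pcN3 Cut.none Ext.none :=
  certNK2 (fam := false) (s1 := true) (s2 := true) (a := 1) (b := 3) (c := 3) (cn := .dn) (n1 := ndN2q1) (n2 := ndN1q3) (pc := pcN3) (cut := Cut.none) (xt := Ext.none) (P1 := 536870912) (W1 := 536870912) (P2 := 1610612736) (W2 := 536870912) (P3 := 67108864) (W3 := 67108864) (N0 := 3)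
    rfl rfl rfl (fun _ => rfl) k0_pp_133

noncomputable def f_pp_202_aa : ℕ → ℕ → ℕ → ℕ → Bool := onCell 0 536870912 0 536870912 67108864 67108864
    (rowNK 3 0 false true true .pp 2 0 2 (qsf 0 536870912 0 536870912 0) ndN2q2a ndN1q2a pcN0 Cut.none Ext.none)

def k0_pp_202_aa : ∃ t, chk3 f_pp_202_aa t 1 1 1 = true :=
  ⟨(l 3), by decide +kernel⟩

theorem c_pp_202_aa : CertN 0 536870912 0 536870912 67108864 67108864 3 false true true .pp 2 0 2
    ndN2q2a ndN1q2a pcN0 Cut.none Ext.none :=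
  certNK0 (fam := false) (s1 := true) (s2 := true) (a := 2) (b := 0) (c := 2) (cn := .pp) (n1 := ndN2q2a) (n2 := ndN1q2a) (pc := pcN0) (cut := Cut.none) (xt := Ext.none) (P1 := 0) (W1 := 536870912) (P2 := 0) (W2 := 536870912) (P3 := 67108864) (W3 := 67108864) (N0 := 3)
    rfl rfl rfl k0_pp_202_aa

noncomputable def f_pp_202_ab : ℕ → ℕ → ℕ → ℕ → Bool := onCell 0 536870912 1239849684 370763052 67108864 67108864
    (rowNK 3 0 false true true .pp 2 0 2 (qsf 0 536870912 1239849684 370763052 0) ndN2q2a ndN1q2b pcN0 Cut.none Ext.none)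

def k0_pp_202_ab : ∃ t, chk3 f_pp_202_ab t 1 1 1 = true :=
  ⟨(l 3), by decide +kernel⟩

theorem c_pp_202_ab : CertN 0 536870912 1239849684 370763052 67108864 67108864 3 false true true .pp 2 0 2
    ndN2q2a ndN1q2b pcN0 Cut.none Ext.none :=
  certNK0 (fam := false) (s1 := true) (s2 := true) (a := 2) (b := 0) (c := 2) (cn := .pp) (n1 := ndN2q2a) (n2 := ndN1q2b) (pc := pcN0) (cut := Cut.none) (xt := Ext.none) (P1 := 0) (W1 := 536870912) (P2 := 1239849684) (W2 := 370763052) (P3 := 67108864) (W3 := 67108864) (N0 := 3)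
    rfl rfl rfl k0_pp_202_ab

noncomputable def f_pp_202_ba : ℕ → ℕ → ℕ → ℕ → Bool := onCell 1239849684 370763052 0 536870912 67108864 67108864
    (rowNK 3 0 false true true .pp 2 0 2 (qsf 1239849684 370763052 0 536870912 0) ndN2q2b ndN1q2a pcN0 Cut.none Ext.none)

def k0_pp_202_ba : ∃ t, chk3 f_pp_202_ba t 1 1 1 = true :=
  ⟨(l 3), by decide +kernel⟩

theorem c_pp_202_ba : CertN 1239849684 370763052 0 536870912 67108864 67108864 3 false true true .pp 2 0 2
    ndN2q2b ndN1q2a pcN0 Cut.none Ext.none :=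
  certNK0 (fam := false) (s1 := true) (s2 := true) (a := 2) (b := 0) (c := 2) (cn := .pp) (n1 := ndN2q2b) (n2 := ndN1q2a) (pc := pcN0) (cut := Cut.none) (xt := Ext.none) (P1 := 1239849684) (W1 := 370763052) (P2 := 0) (W2 := 536870912) (P3 := 67108864) (W3 := 67108864) (N0 := 3)
    rfl rfl rfl k0_pp_202_ba

noncomputable def f_pp_202_bb : ℕ → ℕ → ℕ → ℕ → Bool := onCell 1239849684 370763052 1239849684 370763052 67108864 67108864
    (rowNK 3 0 false true true .pp 2 0 2 (qsf 1239849684 370763052 1239849684 370763052 0) ndN2q2b ndN1q2b pcN0 Cut.none Ext.none)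

def k0_pp_202_bb : ∃ t, chk3 f_pp_202_bb t 1 1 1 = true :=
  ⟨(l 3), by decide +kernel⟩

theorem c_pp_202_bb : CertN 1239849684 370763052 1239849684 370763052 67108864 67108864 3 false true true .pp 2 0 2
    ndN2q2b ndN1q2b pcN0 Cut.none Ext.none :=
  certNK0 (fam := false) (s1 := true) (s2 := true) (a := 2) (b := 0) (c := 2) (cn := .pp) (n1 := ndN2q2b) (n2 := ndN1q2b) (pc := pcN0) (cut := Cut.none) (xt := Ext.none) (P1 := 1239849684) (W1 := 370763052) (P2 := 1239849684) (W2 := 370763052) (P3 := 67108864) (W3 := 67108864) (N0 := 3)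
    rfl rfl rfl k0_pp_202_bb

noncomputable def f_pp_203_a : ℕ → ℕ → ℕ → ℕ → Bool := onCell 0 536870912 0 536870912 67108864 67108864
    (rowNK 3 1 false true true .up 2 0 3 (qsf 0 536870912 1610612736 536870912 0) ndN2q2a ndN1q3 pcN0 Cut.none Ext.none)

def k0_pp_203_a : ∃ t, chk3 f_pp_203_a t 1 1 1 = true :=
  ⟨(l 3), by decide +kernel⟩

theorem c_pp_203_a : CertN 0 536870912 1610612736 536870912 67108864 67108864 3 false true true .up 2 0 3
    ndN2q2a ndN1q3 pcN0 Cut.none Ext.none :=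
  certNK1 (fam := false) (s1 := true) (s2 := true) (a := 2) (b := 0) (c := 3) (cn := .up) (n1 := ndN2q2a) (n2 := ndN1q3) (pc := pcN0) (cut := Cut.none) (xt := Ext.none) (P1 := 0) (W1 := 536870912) (P2 := 1610612736) (W2 := 536870912) (P3 := 67108864) (W3 := 67108864) (N0 := 3)
    rfl rfl rfl (fun _ => rfl) k0_pp_203_a

noncomputable def f_pp_203_b : ℕ → ℕ → ℕ → ℕ → Bool := onCell 1239849684 370763052 1610612736 536870912 67108864 67108864
    (rowNK 3 0 false true true .up 2 0 3 (qsf 1239849684 370763052 1610612736 536870912 0) ndN2q2b ndN1q3 pcN0 Cut.none Ext.none)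

def k0_pp_203_b : ∃ t, chk3 f_pp_203_b t 1 1 1 = true :=
  ⟨(l 3), by decide +kernel⟩

theorem c_pp_203_b : CertN 1239849684 370763052 1610612736 536870912 67108864 67108864 3 false true true .up 2 0 3
    ndN2q2b ndN1q3 pcN0 Cut.none Ext.none :=
  certNK0 (fam := false) (s1 := true) (s2 := true) (a := 2) (b := 0) (c := 3) (cn := .up) (n1 := ndN2q2b) (n2 := ndN1q3) (pc := pcN0) (cut := Cut.none) (xt := Ext.none) (P1 := 1239849684) (W1 := 370763052) (P2 := 1610612736) (W2 := 536870912) (P3 := 67108864) (W3 := 67108864) (N0 := 3)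
    rfl rfl rfl k0_pp_203_b

noncomputable def cut_pp_213_a : Cut := Cut.of [[⟨0, 1, 0, 21338704⟩, ⟨1, 1, 0, 21338704⟩, ⟨2, 2, 0, 1685920⟩]]

noncomputable def f_pp_213_a : ℕ → ℕ → ℕ → ℕ → Bool := onCell 0 536870912 1610612736 536870912 67108864 67108864
    (rowNK 3 0 false true true .pnn 2 1 3 (qsf 0 536870912 1610612736 536870912 1) ndN2q2a ndN1q3 pcN1 cut_pp_213_a Ext.none)

def k0_pp_213_a : ∃ t, chk3 f_pp_213_a t 1 1 1 = true :=
  ⟨(a (l 3) (b (l 3) (a (l 3) (b (l 3) (a (l 3) (b (l 3) (b (l 3) (b (l 3) (b (l 3) (b (l 3) (a (l 3) (a (l 3) (b (l 3) (b (l 3) (l 6))))))))))))))), by decide +kernel⟩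

theorem c_pp_213_a : CertN 0 536870912 1610612736 536870912 67108864 67108864 3 false true true .pnn 2 1 3
    ndN2q2a ndN1q3 pcN1 cut_pp_213_a Ext.none :=
  certNK0 (fam := false) (s1 := true) (s2 := true) (a := 2) (b := 1) (c := 3) (cn := .pnn) (n1 := ndN2q2a) (n2 := ndN1q3) (pc := pcN1) (cut := cut_pp_213_a) (xt := Ext.none) (P1 := 0) (W1 := 536870912) (P2 := 1610612736) (W2 := 536870912) (P3 := 67108864) (W3 := 67108864) (N0 := 3)
    rfl rfl rfl k0_pp_213_a

noncomputable def cut_pp_213_b : Cut := Cut.of [[⟨0, 1, 0, 21338704⟩, ⟨1, 1, 0, 21338704⟩, ⟨2, 2, 0, 1685920⟩]]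

noncomputable def f_pp_213_b : ℕ → ℕ → ℕ → ℕ → Bool := onCell 1239849684 370763052 1610612736 536870912 67108864 67108864
    (rowNK 3 0 false true true .pnn 2 1 3 (qsf 1239849684 370763052 1610612736 536870912 1) ndN2q2b ndN1q3 pcN1 cut_pp_213_b Ext.none)

def k0_pp_213_b : ∃ t, chk3 f_pp_213_b t 1 1 1 = true :=
  ⟨(l 3), by decide +kernel⟩

theorem c_pp_213_b : CertN 1239849684 370763052 1610612736 536870912 67108864 67108864 3 false true true .pnn 2 1 3
    ndN2q2b ndN1q3 pcN1 cut_pp_213_b Ext.none :=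
  certNK0 (fam := false) (s1 := true) (s2 := true) (a := 2) (b := 1) (c := 3) (cn := .pnn) (n1 := ndN2q2b) (n2 := ndN1q3) (pc := pcN1) (cut := cut_pp_213_b) (xt := Ext.none) (P1 := 1239849684) (W1 := 370763052) (P2 := 1610612736) (W2 := 536870912) (P3 := 67108864) (W3 := 67108864) (N0 := 3)
    rfl rfl rfl k0_pp_213_b

noncomputable def f_pp_303 : ℕ → ℕ → ℕ → ℕ → Bool := onCell 1610612736 536870912 1610612736 536870912 67108864 67108864
    (rowNK 3 0 false true true .npn 3 0 3 (qsf 1610612736 536870912 1610612736 536870912 0) ndN2q3 ndN1q3 pcN0 Cut.none Ext.none)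

def k0_pp_303 : ∃ t, chk3 f_pp_303 t 1 1 1 = true :=
  ⟨(l 3), by decide +kernel⟩

theorem c_pp_303 : CertN 1610612736 536870912 1610612736 536870912 67108864 67108864 3 false true true .npn 3 0 3
    ndN2q3 ndN1q3 pcN0 Cut.none Ext.none :=
  certNK0 (fam := false) (s1 := true) (s2 := true) (a := 3) (b := 0) (c := 3) (cn := .npn) (n1 := ndN2q3) (n2 := ndN1q3) (pc := pcN0) (cut := Cut.none) (xt := Ext.none) (P1 := 1610612736) (W1 := 536870912) (P2 := 1610612736) (W2 := 536870912) (P3 := 67108864) (W3 := 67108864) (N0 := 3)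
    rfl rfl rfl k0_pp_303

noncomputable def f_pp_313 : ℕ → ℕ → ℕ → ℕ → Bool := onCell 1610612736 536870912 1610612736 536870912 67108864 67108864
    (rowNK 3 0 false true true .dn 3 1 3 (qsf 1610612736 536870912 1610612736 536870912 1) ndN2q3 ndN1q3 pcN1 Cut.none Ext.none)

def k0_pp_313 : ∃ t, chk3 f_pp_313 t 1 1 1 = true :=
  ⟨(l 3), by decide +kernel⟩

theorem c_pp_313 : CertN 1610612736 536870912 1610612736 536870912 67108864 67108864 3 false true true .dn 3 1 3
    ndN2q3 ndN1q3 pcN1 Cut.none Ext.none :=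
  certNK0 (fam := false) (s1 := true) (s2 := true) (a := 3) (b := 1) (c := 3) (cn := .dn) (n1 := ndN2q3) (n2 := ndN1q3) (pc := pcN1) (cut := Cut.none) (xt := Ext.none) (P1 := 1610612736) (W1 := 536870912) (P2 := 1610612736) (W2 := 536870912) (P3 := 67108864) (W3 := 67108864) (N0 := 3)
    rfl rfl rfl k0_pp_313

noncomputable def f_pm_001 : ℕ → ℕ → ℕ → ℕ → Bool := onCell 0 536870912 536870912 536870912 67108864 67108864
    (rowNK 3 0 false true false .up 0 0 1 (qsf 0 536870912 536870912 536870912 0) ndN2q0 ndN1q1 pcN0 Cut.none Ext.none)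

def k0_pm_001 : ∃ t, chk3 f_pm_001 t 1 1 1 = true :=
  ⟨(l 4), by decide +kernel⟩

theorem c_pm_001 : CertN 0 536870912 536870912 536870912 67108864 67108864 3 false true false .up 0 0 1
    ndN2q0 ndN1q1 pcN0 Cut.none Ext.none :=
  certNK0 (fam := false) (s1 := true) (s2 := false) (a := 0) (b := 0) (c := 1) (cn := .up) (n1 := ndN2q0) (n2 := ndN1q1) (pc := pcN0) (cut := Cut.none) (xt := Ext.none) (P1 := 0) (W1 := 536870912) (P2 := 536870912) (W2 := 536870912) (P3 := 67108864) (W3 := 67108864) (N0 := 3)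
    rfl rfl rfl k0_pm_001

noncomputable def f_pm_011 : ℕ → ℕ → ℕ → ℕ → Bool := onCell 0 536870912 536870912 536870912 67108864 67108864
    (rowNK 3 0 false true false .pnn 0 1 1 (qsf 0 536870912 536870912 536870912 1) ndN2q0 ndN1q1 pcN1 Cut.none Ext.none)

def k0_pm_011 : ∃ t, chk3 f_pm_011 t 1 1 1 = true :=
  ⟨(l 4), by decide +kernel⟩

theorem c_pm_011 : CertN 0 536870912 536870912 536870912 67108864 67108864 3 false true false .pnn 0 1 1
    ndN2q0 ndN1q1 pcN1 Cut.none Ext.none :=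
  certNK0 (fam := false) (s1 := true) (s2 := false) (a := 0) (b := 1) (c := 1) (cn := .pnn) (n1 := ndN2q0) (n2 := ndN1q1) (pc := pcN1) (cut := Cut.none) (xt := Ext.none) (P1 := 0) (W1 := 536870912) (P2 := 536870912) (W2 := 536870912) (P3 := 67108864) (W3 := 67108864) (N0 := 3)
    rfl rfl rfl k0_pm_011

noncomputable def cut_pm_012_a : Cut := Cut.of [[⟨0, 0, 0, 67108864⟩, ⟨1, 1, 0, 67108864⟩, ⟨2, 1, 0, 67108864⟩]]

noncomputable def f_pm_012_a : ℕ → ℕ → ℕ → ℕ → Bool := onCell 536870912 536870912 0 536870912 67108864 67108864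
    (rowNK 3 2 false true false .pnp 0 1 2 (qsf 0 536870912 0 536870912 1) ndN2q0 ndN1q2a pcN1 cut_pm_012_a Ext.none)

def k0_pm_012_a : ∃ t, chk3 f_pm_012_a t 1 1 1 = true :=
  ⟨(a (b (l 4) (l 4)) (a (b (l 4) (l 4)) (a (b (l 19088888) (l 4)) (a (b (l 19027784) (l 4)) (b (l 97950181239) (b (l 4) (b (l 4) (b (l 4) (l 6))))))))), by decide +kernel⟩

theorem c_pm_012_a : CertN 0 536870912 0 536870912 67108864 67108864 3 false true false .pnp 0 1 2
    ndN2q0 ndN1q2a pcN1 cut_pm_012_a Ext.none :=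
  certNK2 (fam := false) (s1 := true) (s2 := false) (a := 0) (b := 1) (c := 2) (cn := .pnp) (n1 := ndN2q0) (n2 := ndN1q2a) (pc := pcN1) (cut := cut_pm_012_a) (xt := Ext.none) (P1 := 0) (W1 := 536870912) (P2 := 0) (W2 := 536870912) (P3 := 67108864) (W3 := 67108864) (N0 := 3)
    rfl rfl rfl (fun _ => rfl) k0_pm_012_a

noncomputable def cut_pm_012_b : Cut := Cut.of [[⟨0, 0, 0, 67108864⟩, ⟨1, 1, 0, 67108864⟩, ⟨2, 1, 0, 67108864⟩]]

noncomputable def f_pm_012_b : ℕ → ℕ → ℕ → ℕ → Bool := onCell 536870912 536870912 1239849684 370763052 67108864 67108864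
    (rowNK 3 2 false true false .pnp 0 1 2 (qsf 0 536870912 1239849684 370763052 1) ndN2q0 ndN1q2b pcN1 cut_pm_012_b Ext.none)

def k0_pm_012_b : ∃ t, chk3 f_pm_012_b t 1 1 1 = true :=
  ⟨(a (l 4) (b (a (l 4) (b (a (l 19268488) (a (l 19319176) (l 19363104))) (l 4))) (l 4))), by decide +kernel⟩

theorem c_pm_012_b : CertN 0 536870912 1239849684 370763052 67108864 67108864 3 false true false .pnp 0 1 2
    ndN2q0 ndN1q2b pcN1 cut_pm_012_b Ext.none :=
  certNK2 (fam := false) (s1 := true) (s2 := false) (a := 0) (b := 1) (c := 2) (cn := .pnp) (n1 := ndN2q0) (n2 := ndN1q2b) (pc := pcN1) (cut := cut_pm_012_b) (xt := Ext.none) (P1 := 0) (W1 := 536870912) (P2 := 1239849684) (W2 := 370763052) (P3 := 67108864) (W3 := 67108864) (N0 := 3)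
    rfl rfl rfl (fun _ => rfl) k0_pm_012_b

noncomputable def cut_pm_022_a : Cut := Cut.of [[⟨0, 0, 0, 67108864⟩, ⟨1, 1, 0, 67108864⟩, ⟨2, 1, 0, 67108864⟩]]

noncomputable def f_pm_022_a : ℕ → ℕ → ℕ → ℕ → Bool := onCell 0 536870912 0 536870912 67108864 67108864
    (rowNK 3 0 false true false .pp 0 2 2 (qsf 0 536870912 0 536870912 2) ndN2q0 ndN1q2a pcN2 cut_pm_022_a Ext.none)

def k0_pm_022_a : ∃ t, chk3 f_pm_022_a t 1 1 1 = true :=
  ⟨(a (a (a (b (a (a (b (l 17974152) (a (b (l 17825808) (c (l 18143216) (l 17117288))) (l 17706848))) (b (l 18050176) (l 17732280))) (b (l 18072456) (l 17780120))) (b (a (b (a (b (b (l 17153304) (l 17026920)) (l 16688744)) (l 17056344)) (a (a (a (b (l 16637184) (l 16675632)) (l 16665952)) (b (l 16633656) (l 16668920))) (l 16760600))) (b (l 17128496) (l 4))) (a (b (b (a (a (a (a (l 16684576) (l 16666720)) (l 16681432)) (l 16703952)) (l 16777256)) (l 6)) (l 6)) (l 4)))) (b (b (l 18368880) (l 18169840)) (l 4))) (b (b (l 19313792)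 (l 4)) (l 4))) (l 1)), by decide +kernel⟩

theorem c_pm_022_a : CertN 0 536870912 0 536870912 67108864 67108864 3 false true false .pp 0 2 2
    ndN2q0 ndN1q2a pcN2 cut_pm_022_a Ext.none :=
  certNK0 (fam := false) (s1 := true) (s2 := false) (a := 0) (b := 2) (c := 2) (cn := .pp) (n1 := ndN2q0) (n2 := ndN1q2a) (pc := pcN2) (cut := cut_pm_022_a) (xt := Ext.none) (P1 := 0) (W1 := 536870912) (P2 := 0) (W2 := 536870912) (P3 := 67108864) (W3 := 67108864) (N0 := 3)
    rfl rfl rfl k0_pm_022_a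

noncomputable def cut_pm_022_b : Cut := Cut.of [[⟨0, 0, 0, 67108864⟩, ⟨1, 1, 0, 67108864⟩, ⟨2, 1, 0, 67108864⟩]]

noncomputable def f_pm_022_b : ℕ → ℕ → ℕ → ℕ → Bool := onCell 0 536870912 1239849684 370763052 67108864 67108864
    (rowNK 3 0 false true false .pp 0 2 2 (qsf 0 536870912 1239849684 370763052 2) ndN2q0 ndN1q2b pcN2 cut_pm_022_b Ext.none)

def k0_pm_022_b : ∃ t, chk3 f_pm_022_b t 1 1 1 = true :=
  ⟨(a (b (a (a (b (a (b (a (l 18384384) (l 18357056)) (l 18698576)) (l 18544512)) (l 18915968)) (b (l 18681664) (l 18889640))) (b (a (l 19081888) (l 19228480)) (l 19093040))) (a (b (a (l 18971824) (l 4)) (l 4)) (l 4))) (l 4)), by decide +kernel⟩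

theorem c_pm_022_b : CertN 0 536870912 1239849684 370763052 67108864 67108864 3 false true false .pp 0 2 2
    ndN2q0 ndN1q2b pcN2 cut_pm_022_b Ext.none :=
  certNK0 (fam := false) (s1 := true) (s2 := false) (a := 0) (b := 2) (c := 2) (cn := .pp) (n1 := ndN2q0) (n2 := ndN1q2b) (pc := pcN2) (cut := cut_pm_022_b) (xt := Ext.none) (P1 := 0) (W1 := 536870912) (P2 := 1239849684) (W2 := 370763052) (P3 := 67108864) (W3 := 67108864) (N0 := 3)
    rfl rfl rfl k0_pm_022_b

noncomputable def f_pm_023 : ℕ → ℕ → ℕ → ℕ → Bool := onCell 0 536870912 1610612736 536870912 67108864 67108864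
    (rowNK 3 0 false true false .up 0 2 3 (qsf 0 536870912 1610612736 536870912 2) ndN2q0 ndN1q3 pcN2 Cut.none Ext.none)

def k0_pm_023 : ∃ t, chk3 f_pm_023 t 1 1 1 = true :=
  ⟨(a (l 4) (l 4)), by decide +kernel⟩

theorem c_pm_023 : CertN 0 536870912 1610612736 536870912 67108864 67108864 3 false true false .up 0 2 3
    ndN2q0 ndN1q3 pcN2 Cut.none Ext.none :=
  certNK0 (fam := false) (s1 := true) (s2 := false) (a := 0) (b := 2) (c := 3) (cn := .up) (n1 := ndN2q0) (n2 := ndN1q3) (pc := pcN2) (cut := Cut.none) (xt := Ext.none) (P1 := 0) (W1 := 536870912) (P2 := 1610612736) (W2 := 536870912) (P3 := 67108864) (W3 := 67108864) (N0 := 3)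
    rfl rfl rfl k0_pm_023

noncomputable def f_pm_033 : ℕ → ℕ → ℕ → ℕ → Bool := onCell 0 536870912 1610612736 536870912 67108864 67108864
    (rowNK 3 0 false true false .pnn 0 3 3 (qsf 0 536870912 1610612736 536870912 3) ndN2q0 ndN1q3 pcN3 Cut.none Ext.none)

def k0_pm_033 : ∃ t, chk3 f_pm_033 t 1 1 1 = true :=
  ⟨(a (l 4) (l 4)), by decide +kernel⟩

theorem c_pm_033 : CertN 0 536870912 1610612736 536870912 67108864 67108864 3 false true false .pnn 0 3 3
    ndN2q0 ndN1q3 pcN3 Cut.none Ext.none :=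
  certNK0 (fam := false) (s1 := true) (s2 := false) (a := 0) (b := 3) (c := 3) (cn := .pnn) (n1 := ndN2q0) (n2 := ndN1q3) (pc := pcN3) (cut := Cut.none) (xt := Ext.none) (P1 := 0) (W1 := 536870912) (P2 := 1610612736) (W2 := 536870912) (P3 := 67108864) (W3 := 67108864) (N0 := 3)
    rfl rfl rfl k0_pm_033

noncomputable def f_pm_101 : ℕ → ℕ → ℕ → ℕ → Bool := onCell 536870912 536870912 536870912 536870912 67108864 67108864
    (rowNK 3 0 false true false .npn 1 0 1 (qsf 536870912 536870912 536870912 536870912 0) ndN2q1 ndN1q1 pcN0 Cut.none Ext.none)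

def k0_pm_101 : ∃ t, chk3 f_pm_101 t 1 1 1 = true :=
  ⟨(l 4), by decide +kernel⟩

theorem c_pm_101 : CertN 536870912 536870912 536870912 536870912 67108864 67108864 3 false true false .npn 1 0 1
    ndN2q1 ndN1q1 pcN0 Cut.none Ext.none :=
  certNK0 (fam := false) (s1 := true) (s2 := false) (a := 1) (b := 0) (c := 1) (cn := .npn) (n1 := ndN2q1) (n2 := ndN1q1) (pc := pcN0) (cut := Cut.none) (xt := Ext.none) (P1 := 536870912) (W1 := 536870912) (P2 := 536870912) (W2 := 536870912) (P3 := 67108864) (W3 := 67108864) (N0 := 3)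
    rfl rfl rfl k0_pm_101

noncomputable def f_pm_102_a : ℕ → ℕ → ℕ → ℕ → Bool := onCell 536870912 536870912 0 536870912 67108864 67108864
    (rowNK 3 0 false true false .npp 1 0 2 (qsf 536870912 536870912 0 536870912 0) ndN2q1 ndN1q2a pcN0 Cut.none Ext.none)

def k0_pm_102_a : ∃ t, chk3 f_pm_102_a t 1 1 1 = true :=
  ⟨(l 4), by decide +kernel⟩

theorem c_pm_102_a : CertN 536870912 536870912 0 536870912 67108864 67108864 3 false true false .npp 1 0 2
    ndN2q1 ndN1q2a pcN0 Cut.none Ext.none :=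
  certNK0 (fam := false) (s1 := true) (s2 := false) (a := 1) (b := 0) (c := 2) (cn := .npp) (n1 := ndN2q1) (n2 := ndN1q2a) (pc := pcN0) (cut := Cut.none) (xt := Ext.none) (P1 := 536870912) (W1 := 536870912) (P2 := 0) (W2 := 536870912) (P3 := 67108864) (W3 := 67108864) (N0 := 3)
    rfl rfl rfl k0_pm_102_a

noncomputable def f_pm_102_b : ℕ → ℕ → ℕ → ℕ → Bool := onCell 536870912 536870912 1239849684 370763052 67108864 67108864
    (rowNK 3 0 false true false .npp 1 0 2 (qsf 536870912 536870912 1239849684 370763052 0) ndN2q1 ndN1q2b pcN0 Cut.none Ext.none)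

def k0_pm_102_b : ∃ t, chk3 f_pm_102_b t 1 1 1 = true :=
  ⟨(l 4), by decide +kernel⟩

theorem c_pm_102_b : CertN 536870912 536870912 1239849684 370763052 67108864 67108864 3 false true false .npp 1 0 2
    ndN2q1 ndN1q2b pcN0 Cut.none Ext.none :=
  certNK0 (fam := false) (s1 := true) (s2 := false) (a := 1) (b := 0) (c := 2) (cn := .npp) (n1 := ndN2q1) (n2 := ndN1q2b) (pc := pcN0) (cut := Cut.none) (xt := Ext.none) (P1 := 536870912) (W1 := 536870912) (P2 := 1239849684) (W2 := 370763052) (P3 := 67108864) (W3 := 67108864) (N0 := 3)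
    rfl rfl rfl k0_pm_102_b

noncomputable def f_pm_112_a : ℕ → ℕ → ℕ → ℕ → Bool := onCell 536870912 536870912 0 536870912 67108864 67108864
    (rowNK 3 0 false true false .dn 1 1 2 (qsf 536870912 536870912 0 536870912 1) ndN2q1 ndN1q2a pcN1 Cut.none Ext.none)

def k0_pm_112_a : ∃ t, chk3 f_pm_112_a t 1 1 1 = true :=
  ⟨(l 4), by decide +kernel⟩

theorem c_pm_112_a : CertN 536870912 536870912 0 536870912 67108864 67108864 3 false true false .dn 1 1 2
    ndN2q1 ndN1q2a pcN1 Cut.none Ext.none :=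
  certNK0 (fam := false) (s1 := true) (s2 := false) (a := 1) (b := 1) (c := 2) (cn := .dn) (n1 := ndN2q1) (n2 := ndN1q2a) (pc := pcN1) (cut := Cut.none) (xt := Ext.none) (P1 := 536870912) (W1 := 536870912) (P2 := 0) (W2 := 536870912) (P3 := 67108864) (W3 := 67108864) (N0 := 3)
    rfl rfl rfl k0_pm_112_a

noncomputable def f_pm_112_b : ℕ → ℕ → ℕ → ℕ → Bool := onCell 536870912 536870912 1239849684 370763052 67108864 67108864
    (rowNK 3 0 false true false .dn 1 1 2 (qsf 536870912 536870912 1239849684 370763052 1) ndN2q1 ndN1q2b pcN1 Cut.none Ext.none)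

def k0_pm_112_b : ∃ t, chk3 f_pm_112_b t 1 1 1 = true :=
  ⟨(l 4), by decide +kernel⟩

theorem c_pm_112_b : CertN 536870912 536870912 1239849684 370763052 67108864 67108864 3 false true false .dn 1 1 2
    ndN2q1 ndN1q2b pcN1 Cut.none Ext.none :=
  certNK0 (fam := false) (s1 := true) (s2 := false) (a := 1) (b := 1) (c := 2) (cn := .dn) (n1 := ndN2q1) (n2 := ndN1q2b) (pc := pcN1) (cut := Cut.none) (xt := Ext.none) (P1 := 536870912) (W1 := 536870912) (P2 := 1239849684) (W2 := 370763052) (P3 := 67108864) (W3 := 67108864) (N0 := 3)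
    rfl rfl rfl k0_pm_112_b

noncomputable def f_pm_113 : ℕ → ℕ → ℕ → ℕ → Bool := onCell 536870912 536870912 1610612736 536870912 67108864 67108864
    (rowNK 3 0 false true false .nn 1 1 3 (qsf 536870912 536870912 1610612736 536870912 1) ndN2q1 ndN1q3 pcN1 Cut.none Ext.none)

def k0_pm_113 : ∃ t, chk3 f_pm_113 t 1 1 1 = true :=
  ⟨(a (l 4) (b (l 4) (a (l 4) (b (l 4) (a (l 4) (b (l 4) (a (l 4) (b (l 4) (l 16922072))))))))), by decide +kernel⟩

theorem c_pm_113 : CertN 536870912 536870912 1610612736 536870912 67108864 67108864 3 false true false .nn 1 1 3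
    ndN2q1 ndN1q3 pcN1 Cut.none Ext.none :=
  certNK0 (fam := false) (s1 := true) (s2 := false) (a := 1) (b := 1) (c := 3) (cn := .nn) (n1 := ndN2q1) (n2 := ndN1q3) (pc := pcN1) (cut := Cut.none) (xt := Ext.none) (P1 := 536870912) (W1 := 536870912) (P2 := 1610612736) (W2 := 536870912) (P3 := 67108864) (W3 := 67108864) (N0 := 3)
    rfl rfl rfl k0_pm_113

noncomputable def f_pm_123 : ℕ → ℕ → ℕ → ℕ → Bool := onCell 536870912 536870912 1610612736 536870912 67108864 67108864
    (rowNK 3 0 false true false .npn 1 2 3 (qsf 536870912 536870912 1610612736 536870912 2) ndN2q1 ndN1q3 pcN2 Cut.none Ext.none)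

def k0_pm_123 : ∃ t, chk3 f_pm_123 t 1 1 1 = true :=
  ⟨(a (l 4) (b (l 4) (a (l 4) (a (l 4) (a (l 4) (l 17591480)))))), by decide +kernel⟩

theorem c_pm_123 : CertN 536870912 536870912 1610612736 536870912 67108864 67108864 3 false true false .npn 1 2 3
    ndN2q1 ndN1q3 pcN2 Cut.none Ext.none :=
  certNK0 (fam := false) (s1 := true) (s2 := false) (a := 1) (b := 2) (c := 3) (cn := .npn) (n1 := ndN2q1) (n2 := ndN1q3) (pc := pcN2) (cut := Cut.none) (xt := Ext.none) (P1 := 536870912) (W1 := 536870912) (P2 := 1610612736) (W2 := 536870912) (P3 := 67108864) (W3 := 67108864) (N0 := 3)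
    rfl rfl rfl k0_pm_123

noncomputable def f_pm_133 : ℕ → ℕ → ℕ → ℕ → Bool := onCell 536870912 536870912 1610612736 536870912 67108864 67108864
    (rowNK 3 0 false true false .dn 1 3 3 (qsf 536870912 536870912 1610612736 536870912 3) ndN2q1 ndN1q3 pcN3 Cut.none Ext.none)

def k0_pm_133 : ∃ t, chk3 f_pm_133 t 1 1 1 = true :=
  ⟨(a (l 4) (l 1)), by decide +kernel⟩

theorem c_pm_133 : CertN 536870912 536870912 1610612736 536870912 67108864 67108864 3 false true false .dn 1 3 3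
    ndN2q1 ndN1q3 pcN3 Cut.none Ext.none :=
  certNK0 (fam := false) (s1 := true) (s2 := false) (a := 1) (b := 3) (c := 3) (cn := .dn) (n1 := ndN2q1) (n2 := ndN1q3) (pc := pcN3) (cut := Cut.none) (xt := Ext.none) (P1 := 536870912) (W1 := 536870912) (P2 := 1610612736) (W2 := 536870912) (P3 := 67108864) (W3 := 67108864) (N0 := 3)
    rfl rfl rfl k0_pm_133

noncomputable def cut_pm_202_aa : Cut := Cut.of [[⟨0, 1, 0, 67108864⟩, ⟨1, 0, 0, 67108864⟩, ⟨2, 1, 0, 67108864⟩]]

noncomputable def f_pm_202_aa : ℕ → ℕ → ℕ → ℕ → Bool := onCell 0 536870912 0 536870912 67108864 67108864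
    (rowNK 3 0 false true false .pp 2 0 2 (qsf 0 536870912 0 536870912 0) ndN2q2a ndN1q2a pcN0 cut_pm_202_aa Ext.none)

def k0_pm_202_aa : ∃ t, chk3 f_pm_202_aa t 1 1 1 = true :=
  ⟨(b (l 3) (b (l 3) (b (l 3) (a (l 1) (a (l 1) (a (a (l 1) (l 6)) (l 6))))))), by decide +kernel⟩

theorem c_pm_202_aa : CertN 0 536870912 0 536870912 67108864 67108864 3 false true false .pp 2 0 2
    ndN2q2a ndN1q2a pcN0 cut_pm_202_aa Ext.none :=
  certNK0 (fam := false) (s1 := true) (s2 := false) (a := 2) (b := 0) (c := 2) (cn := .pp) (n1 := ndN2q2a) (n2 := ndN1q2a) (pc := pcN0) (cut := cut_pm_202_aa) (xt := Ext.none) (P1 := 0) (W1 := 536870912) (P2 := 0) (W2 := 536870912) (P3 := 67108864) (W3 := 67108864) (N0 := 3)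
    rfl rfl rfl k0_pm_202_aa

noncomputable def cut_pm_202_ab : Cut := Cut.of [[⟨0, 1, 0, 67108864⟩, ⟨1, 0, 0, 67108864⟩, ⟨2, 1, 0, 67108864⟩]]

noncomputable def f_pm_202_ab : ℕ → ℕ → ℕ → ℕ → Bool := onCell 0 536870912 1239849684 370763052 67108864 67108864
    (rowNK 3 0 false true false .pp 2 0 2 (qsf 0 536870912 1239849684 370763052 0) ndN2q2a ndN1q2b pcN0 cut_pm_202_ab Ext.none)

def k0_pm_202_ab : ∃ t, chk3 f_pm_202_ab t 1 1 1 = true :=
  ⟨(l 3), by decide +kernel⟩

theorem c_pm_202_ab : CertN 0 536870912 1239849684 370763052 67108864 67108864 3 false true false .pp 2 0 2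
    ndN2q2a ndN1q2b pcN0 cut_pm_202_ab Ext.none :=
  certNK0 (fam := false) (s1 := true) (s2 := false) (a := 2) (b := 0) (c := 2) (cn := .pp) (n1 := ndN2q2a) (n2 := ndN1q2b) (pc := pcN0) (cut := cut_pm_202_ab) (xt := Ext.none) (P1 := 0) (W1 := 536870912) (P2 := 1239849684) (W2 := 370763052) (P3 := 67108864) (W3 := 67108864) (N0 := 3)
    rfl rfl rfl k0_pm_202_ab

noncomputable def cut_pm_202_ba : Cut := Cut.of [[⟨0, 1, 0, 67108864⟩, ⟨1, 0, 0, 67108864⟩, ⟨2, 1, 0, 67108864⟩]]

noncomputable def f_pm_202_ba : ℕ → ℕ → ℕ → ℕ → Bool := onCell 1239849684 370763052 0 536870912 67108864 67108864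
    (rowNK 3 0 false true false .pp 2 0 2 (qsf 1239849684 370763052 0 536870912 0) ndN2q2b ndN1q2a pcN0 cut_pm_202_ba Ext.none)

def k0_pm_202_ba : ∃ t, chk3 f_pm_202_ba t 1 1 1 = true :=
  ⟨(b (l 3) (l 1)), by decide +kernel⟩

theorem c_pm_202_ba : CertN 1239849684 370763052 0 536870912 67108864 67108864 3 false true false .pp 2 0 2
    ndN2q2b ndN1q2a pcN0 cut_pm_202_ba Ext.none :=
  certNK0 (fam := false) (s1 := true) (s2 := false) (a := 2) (b := 0) (c := 2) (cn := .pp) (n1 := ndN2q2b) (n2 := ndN1q2a) (pc := pcN0) (cut := cut_pm_202_ba) (xt := Ext.none) (P1 := 1239849684) (W1 := 370763052) (P2 := 0) (W2 := 536870912) (P3 := 67108864) (W3 := 67108864) (N0 := 3)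
    rfl rfl rfl k0_pm_202_ba

noncomputable def cut_pm_202_bb : Cut := Cut.of [[⟨0, 1, 0, 67108864⟩, ⟨1, 0, 0, 67108864⟩, ⟨2, 1, 0, 67108864⟩]]

noncomputable def f_pm_202_bb : ℕ → ℕ → ℕ → ℕ → Bool := onCell 1239849684 370763052 1239849684 370763052 67108864 67108864
    (rowNK 3 0 false true false .pp 2 0 2 (qsf 1239849684 370763052 1239849684 370763052 0) ndN2q2b ndN1q2b pcN0 cut_pm_202_bb Ext.none)

def k0_pm_202_bb : ∃ t, chk3 f_pm_202_bb t 1 1 1 = true :=
  ⟨(l 3), by decide +kernel⟩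

theorem c_pm_202_bb : CertN 1239849684 370763052 1239849684 370763052 67108864 67108864 3 false true false .pp 2 0 2
    ndN2q2b ndN1q2b pcN0 cut_pm_202_bb Ext.none :=
  certNK0 (fam := false) (s1 := true) (s2 := false) (a := 2) (b := 0) (c := 2) (cn := .pp) (n1 := ndN2q2b) (n2 := ndN1q2b) (pc := pcN0) (cut := cut_pm_202_bb) (xt := Ext.none) (P1 := 1239849684) (W1 := 370763052) (P2 := 1239849684) (W2 := 370763052) (P3 := 67108864) (W3 := 67108864) (N0 := 3)
    rfl rfl rfl k0_pm_202_bb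

noncomputable def f_pm_203_a : ℕ → ℕ → ℕ → ℕ → Bool := onCell 0 536870912 0 536870912 67108864 67108864
    (rowNK 3 1 false true false .up 2 0 3 (qsf 0 536870912 1610612736 536870912 0) ndN2q2a ndN1q3 pcN0 Cut.none Ext.none)

def k0_pm_203_a : ∃ t, chk3 f_pm_203_a t 1 1 1 = true :=
  ⟨(l 3), by decide +kernel⟩

theorem c_pm_203_a : CertN 0 536870912 1610612736 536870912 67108864 67108864 3 false true false .up 2 0 3
    ndN2q2a ndN1q3 pcN0 Cut.none Ext.none :=
  certNK1 (fam := false) (s1 := true) (s2 := false) (a := 2) (b := 0) (c := 3) (cn := .up) (n1 := ndN2q2a) (n2 := ndN1q3) (pc := pcN0) (cut := Cut.none) (xt := Ext.none) (P1 := 0) (W1 := 536870912) (P2 := 1610612736) (W2 := 536870912) (P3 := 67108864) (W3 := 67108864) (N0 := 3)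
    rfl rfl rfl (fun _ => rfl) k0_pm_203_a

noncomputable def f_pm_203_b : ℕ → ℕ → ℕ → ℕ → Bool := onCell 1239849684 370763052 1610612736 536870912 67108864 67108864
    (rowNK 3 0 false true false .up 2 0 3 (qsf 1239849684 370763052 1610612736 536870912 0) ndN2q2b ndN1q3 pcN0 Cut.none Ext.none)

def k0_pm_203_b : ∃ t, chk3 f_pm_203_b t 1 1 1 = true :=
  ⟨(l 3), by decide +kernel⟩

theorem c_pm_203_b : CertN 1239849684 370763052 1610612736 536870912 67108864 67108864 3 false true false .up 2 0 3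
    ndN2q2b ndN1q3 pcN0 Cut.none Ext.none :=
  certNK0 (fam := false) (s1 := true) (s2 := false) (a := 2) (b := 0) (c := 3) (cn := .up) (n1 := ndN2q2b) (n2 := ndN1q3) (pc := pcN0) (cut := Cut.none) (xt := Ext.none) (P1 := 1239849684) (W1 := 370763052) (P2 := 1610612736) (W2 := 536870912) (P3 := 67108864) (W3 := 67108864) (N0 := 3)
    rfl rfl rfl k0_pm_203_b

noncomputable def cut_pm_213_a : Cut := Cut.of [[⟨0, 1, 0, 21338704⟩, ⟨1, 1, 0, 21338704⟩, ⟨2, 2, 0, 1685920⟩]]

noncomputable def f_pm_213_a : ℕ → ℕ → ℕ → ℕ → Bool := onCell 0 536870912 1610612736 536870912 67108864 67108864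
    (rowNK 3 0 false true false .pnn 2 1 3 (qsf 0 536870912 1610612736 536870912 1) ndN2q2a ndN1q3 pcN1 cut_pm_213_a Ext.none)

def k0_pm_213_a : ∃ t, chk3 f_pm_213_a t 1 1 1 = true :=
  ⟨(a (l 3) (b (l 3) (a (l 3) (a (l 3) (b (l 3) (b (l 3) (b (l 3) (b (l 3) (a (l 3) (b (l 3) (a (l 3) (b (l 3) (b (l 3) (b (l 3) (l 6))))))))))))))), by decide +kernel⟩

theorem c_pm_213_a : CertN 0 536870912 1610612736 536870912 67108864 67108864 3 false true false .pnn 2 1 3
    ndN2q2a ndN1q3 pcN1 cut_pm_213_a Ext.none :=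
  certNK0 (fam := false) (s1 := true) (s2 := false) (a := 2) (b := 1) (c := 3) (cn := .pnn) (n1 := ndN2q2a) (n2 := ndN1q3) (pc := pcN1) (cut := cut_pm_213_a) (xt := Ext.none) (P1 := 0) (W1 := 536870912) (P2 := 1610612736) (W2 := 536870912) (P3 := 67108864) (W3 := 67108864) (N0 := 3)
    rfl rfl rfl k0_pm_213_a

noncomputable def cut_pm_213_b : Cut := Cut.of [[⟨0, 1, 0, 21338704⟩, ⟨1, 1, 0, 21338704⟩, ⟨2, 2, 0, 1685920⟩]]

noncomputable def f_pm_213_b : ℕ → ℕ → ℕ → ℕ → Bool := onCell 1239849684 370763052 1610612736 536870912 67108864 67108864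
    (rowNK 3 0 false true false .pnn 2 1 3 (qsf 1239849684 370763052 1610612736 536870912 1) ndN2q2b ndN1q3 pcN1 cut_pm_213_b Ext.none)

def k0_pm_213_b : ∃ t, chk3 f_pm_213_b t 1 1 1 = true :=
  ⟨(l 3), by decide +kernel⟩

theorem c_pm_213_b : CertN 1239849684 370763052 1610612736 536870912 67108864 67108864 3 false true false .pnn 2 1 3
    ndN2q2b ndN1q3 pcN1 cut_pm_213_b Ext.none :=
  certNK0 (fam := false) (s1 := true) (s2 := false) (a := 2) (b := 1) (c := 3) (cn := .pnn) (n1 := ndN2q2b) (n2 := ndN1q3) (pc := pcN1) (cut := cut_pm_213_b) (xt := Ext.none) (P1 := 1239849684) (W1 := 370763052) (P2 := 1610612736) (W2 := 536870912) (P3 := 67108864) (W3 := 67108864) (N0 := 3)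
    rfl rfl rfl k0_pm_213_b

noncomputable def f_pm_303 : ℕ → ℕ → ℕ → ℕ → Bool := onCell 1610612736 536870912 1610612736 536870912 67108864 67108864
    (rowNK 3 0 false true false .npn 3 0 3 (qsf 1610612736 536870912 1610612736 536870912 0) ndN2q3 ndN1q3 pcN0 Cut.none Ext.none)

def k0_pm_303 : ∃ t, chk3 f_pm_303 t 1 1 1 = true :=
  ⟨(l 3), by decide +kernel⟩

theorem c_pm_303 : CertN 1610612736 536870912 1610612736 536870912 67108864 67108864 3 false true false .npn 3 0 3
    ndN2q3 ndN1q3 pcN0 Cut.none Ext.none :=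
  certNK0 (fam := false) (s1 := true) (s2 := false) (a := 3) (b := 0) (c := 3) (cn := .npn) (n1 := ndN2q3) (n2 := ndN1q3) (pc := pcN0) (cut := Cut.none) (xt := Ext.none) (P1 := 1610612736) (W1 := 536870912) (P2 := 1610612736) (W2 := 536870912) (P3 := 67108864) (W3 := 67108864) (N0 := 3)
    rfl rfl rfl k0_pm_303

noncomputable def f_pm_313 : ℕ → ℕ → ℕ → ℕ → Bool := onCell 1610612736 536870912 1610612736 536870912 67108864 67108864
    (rowNK 3 0 false true false .dn 3 1 3 (qsf 1610612736 536870912 1610612736 536870912 1) ndN2q3 ndN1q3 pcN1 Cut.none Ext.none)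

def k0_pm_313 : ∃ t, chk3 f_pm_313 t 1 1 1 = true :=
  ⟨(l 3), by decide +kernel⟩

theorem c_pm_313 : CertN 1610612736 536870912 1610612736 536870912 67108864 67108864 3 false true false .dn 3 1 3
    ndN2q3 ndN1q3 pcN1 Cut.none Ext.none :=
  certNK0 (fam := false) (s1 := true) (s2 := false) (a := 3) (b := 1) (c := 3) (cn := .dn) (n1 := ndN2q3) (n2 := ndN1q3) (pc := pcN1) (cut := Cut.none) (xt := Ext.none) (P1 := 1610612736) (W1 := 536870912) (P2 := 1610612736) (W2 := 536870912) (P3 := 67108864) (W3 := 67108864) (N0 := 3)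
    rfl rfl rfl k0_pm_313

noncomputable def f_mm_001 : ℕ → ℕ → ℕ → ℕ → Bool := onCell 0 536870912 536870912 536870912 67108864 67108864
    (rowNK 3 0 false false false .up 0 0 1 (qsf 0 536870912 536870912 536870912 0) ndN2q0 ndN1q1 pcN0 Cut.none Ext.none)

def k0_mm_001 : ∃ t, chk3 f_mm_001 t 1 1 1 = true :=
  ⟨(l 3), by decide +kernel⟩

theorem c_mm_001 : CertN 0 536870912 536870912 536870912 67108864 67108864 3 false false false .up 0 0 1
    ndN2q0 ndN1q1 pcN0 Cut.none Ext.none :=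
  certNK0 (fam := false) (s1 := false) (s2 := false) (a := 0) (b := 0) (c := 1) (cn := .up) (n1 := ndN2q0) (n2 := ndN1q1) (pc := pcN0) (cut := Cut.none) (xt := Ext.none) (P1 := 0) (W1 := 536870912) (P2 := 536870912) (W2 := 536870912) (P3 := 67108864) (W3 := 67108864) (N0 := 3)
    rfl rfl rfl k0_mm_001

noncomputable def f_mm_011 : ℕ → ℕ → ℕ → ℕ → Bool := onCell 0 536870912 536870912 536870912 67108864 67108864
    (rowNK 3 0 false false false .pnn 0 1 1 (qsf 0 536870912 536870912 536870912 1) ndN2q0 ndN1q1 pcN1 Cut.none Ext.none)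

def k0_mm_011 : ∃ t, chk3 f_mm_011 t 1 1 1 = true :=
  ⟨(l 3), by decide +kernel⟩

theorem c_mm_011 : CertN 0 536870912 536870912 536870912 67108864 67108864 3 false false false .pnn 0 1 1
    ndN2q0 ndN1q1 pcN1 Cut.none Ext.none :=
  certNK0 (fam := false) (s1 := false) (s2 := false) (a := 0) (b := 1) (c := 1) (cn := .pnn) (n1 := ndN2q0) (n2 := ndN1q1) (pc := pcN1) (cut := Cut.none) (xt := Ext.none) (P1 := 0) (W1 := 536870912) (P2 := 536870912) (W2 := 536870912) (P3 := 67108864) (W3 := 67108864) (N0 := 3)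
    rfl rfl rfl k0_mm_011

noncomputable def f_mm_012_a : ℕ → ℕ → ℕ → ℕ → Bool := onCell 0 536870912 0 536870912 67108864 67108864
    (rowNK 3 0 false false false .pnp 0 1 2 (qsf 0 536870912 0 536870912 1) ndN2q0 ndN1q2a pcN1 Cut.none Ext.none)

def k0_mm_012_a : ∃ t, chk3 f_mm_012_a t 1 1 1 = true :=
  ⟨(l 5), by decide +kernel⟩

theorem c_mm_012_a : CertN 0 536870912 0 536870912 67108864 67108864 3 false false false .pnp 0 1 2
    ndN2q0 ndN1q2a pcN1 Cut.none Ext.none :=
  certNK0 (fam := false) (s1 := false) (s2 := false) (a := 0) (b := 1) (c := 2) (cn := .pnp) (n1 := ndN2q0) (n2 := ndN1q2a) (pc := pcN1) (cut := Cut.none) (xt := Ext.none) (P1 := 0) (W1 := 536870912) (P2 := 0) (W2 := 536870912) (P3 := 67108864) (W3 := 67108864) (N0 := 3)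
    rfl rfl rfl k0_mm_012_a

noncomputable def f_mm_012_b : ℕ → ℕ → ℕ → ℕ → Bool := onCell 0 536870912 1239849684 370763052 67108864 67108864
    (rowNK 3 0 false false false .pnp 0 1 2 (qsf 0 536870912 1239849684 370763052 1) ndN2q0 ndN1q2b pcN1 Cut.none Ext.none)

def k0_mm_012_b : ∃ t, chk3 f_mm_012_b t 1 1 1 = true :=
  ⟨(l 5), by decide +kernel⟩

theorem c_mm_012_b : CertN 0 536870912 1239849684 370763052 67108864 67108864 3 false false false .pnp 0 1 2
    ndN2q0 ndN1q2b pcN1 Cut.none Ext.none :=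
  certNK0 (fam := false) (s1 := false) (s2 := false) (a := 0) (b := 1) (c := 2) (cn := .pnp) (n1 := ndN2q0) (n2 := ndN1q2b) (pc := pcN1) (cut := Cut.none) (xt := Ext.none) (P1 := 0) (W1 := 536870912) (P2 := 1239849684) (W2 := 370763052) (P3 := 67108864) (W3 := 67108864) (N0 := 3)
    rfl rfl rfl k0_mm_012_b

noncomputable def f_mm_022_a : ℕ → ℕ → ℕ → ℕ → Bool := onCell 0 536870912 0 536870912 67108864 67108864
    (rowNK 3 0 false false false .pp 0 2 2 (qsf 0 536870912 0 536870912 2) ndN2q0 ndN1q2a pcN2 Cut.none Ext.none)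

def k0_mm_022_a : ∃ t, chk3 f_mm_022_a t 1 1 1 = true :=
  ⟨(l 5), by decide +kernel⟩

theorem c_mm_022_a : CertN 0 536870912 0 536870912 67108864 67108864 3 false false false .pp 0 2 2
    ndN2q0 ndN1q2a pcN2 Cut.none Ext.none :=
  certNK0 (fam := false) (s1 := false) (s2 := false) (a := 0) (b := 2) (c := 2) (cn := .pp) (n1 := ndN2q0) (n2 := ndN1q2a) (pc := pcN2) (cut := Cut.none) (xt := Ext.none) (P1 := 0) (W1 := 536870912) (P2 := 0) (W2 := 536870912) (P3 := 67108864) (W3 := 67108864) (N0 := 3)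
    rfl rfl rfl k0_mm_022_a

noncomputable def f_mm_022_b : ℕ → ℕ → ℕ → ℕ → Bool := onCell 0 536870912 1239849684 370763052 67108864 67108864
    (rowNK 3 0 false false false .pp 0 2 2 (qsf 0 536870912 1239849684 370763052 2) ndN2q0 ndN1q2b pcN2 Cut.none Ext.none)

def k0_mm_022_b : ∃ t, chk3 f_mm_022_b t 1 1 1 = true :=
  ⟨(l 5), by decide +kernel⟩

theorem c_mm_022_b : CertN 0 536870912 1239849684 370763052 67108864 67108864 3 false false false .pp 0 2 2
    ndN2q0 ndN1q2b pcN2 Cut.none Ext.none :=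
  certNK0 (fam := false) (s1 := false) (s2 := false) (a := 0) (b := 2) (c := 2) (cn := .pp) (n1 := ndN2q0) (n2 := ndN1q2b) (pc := pcN2) (cut := Cut.none) (xt := Ext.none) (P1 := 0) (W1 := 536870912) (P2 := 1239849684) (W2 := 370763052) (P3 := 67108864) (W3 := 67108864) (N0 := 3)
    rfl rfl rfl k0_mm_022_b

noncomputable def f_mm_023 : ℕ → ℕ → ℕ → ℕ → Bool := onCell 0 536870912 1610612736 536870912 67108864 67108864
    (rowNK 3 0 false false false .up 0 2 3 (qsf 0 536870912 1610612736 536870912 2) ndN2q0 ndN1q3 pcN2 Cut.none Ext.none)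

def k0_mm_023 : ∃ t, chk3 f_mm_023 t 1 1 1 = true :=
  ⟨(l 5), by decide +kernel⟩

theorem c_mm_023 : CertN 0 536870912 1610612736 536870912 67108864 67108864 3 false false false .up 0 2 3
    ndN2q0 ndN1q3 pcN2 Cut.none Ext.none :=
  certNK0 (fam := false) (s1 := false) (s2 := false) (a := 0) (b := 2) (c := 3) (cn := .up) (n1 := ndN2q0) (n2 := ndN1q3) (pc := pcN2) (cut := Cut.none) (xt := Ext.none) (P1 := 0) (W1 := 536870912) (P2 := 1610612736) (W2 := 536870912) (P3 := 67108864) (W3 := 67108864) (N0 := 3)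
    rfl rfl rfl k0_mm_023

noncomputable def f_mm_033 : ℕ → ℕ → ℕ → ℕ → Bool := onCell 0 536870912 1610612736 536870912 67108864 67108864
    (rowNK 3 0 false false false .pnn 0 3 3 (qsf 0 536870912 1610612736 536870912 3) ndN2q0 ndN1q3 pcN3 Cut.none Ext.none)

def k0_mm_033 : ∃ t, chk3 f_mm_033 t 1 1 1 = true :=
  ⟨(l 5), by decide +kernel⟩

theorem c_mm_033 : CertN 0 536870912 1610612736 536870912 67108864 67108864 3 false false false .pnn 0 3 3
    ndN2q0 ndN1q3 pcN3 Cut.none Ext.none :=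
  certNK0 (fam := false) (s1 := false) (s2 := false) (a := 0) (b := 3) (c := 3) (cn := .pnn) (n1 := ndN2q0) (n2 := ndN1q3) (pc := pcN3) (cut := Cut.none) (xt := Ext.none) (P1 := 0) (W1 := 536870912) (P2 := 1610612736) (W2 := 536870912) (P3 := 67108864) (W3 := 67108864) (N0 := 3)
    rfl rfl rfl k0_mm_033

noncomputable def f_mm_101 : ℕ → ℕ → ℕ → ℕ → Bool := onCell 536870912 536870912 536870912 536870912 67108864 67108864
    (rowNK 3 0 false false false .npn 1 0 1 (qsf 536870912 536870912 536870912 536870912 0) ndN2q1 ndN1q1 pcN0 Cut.none Ext.none)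

def k0_mm_101 : ∃ t, chk3 f_mm_101 t 1 1 1 = true :=
  ⟨(l 3), by decide +kernel⟩

theorem c_mm_101 : CertN 536870912 536870912 536870912 536870912 67108864 67108864 3 false false false .npn 1 0 1
    ndN2q1 ndN1q1 pcN0 Cut.none Ext.none :=
  certNK0 (fam := false) (s1 := false) (s2 := false) (a := 1) (b := 0) (c := 1) (cn := .npn) (n1 := ndN2q1) (n2 := ndN1q1) (pc := pcN0) (cut := Cut.none) (xt := Ext.none) (P1 := 536870912) (W1 := 536870912) (P2 := 536870912) (W2 := 536870912) (P3 := 67108864) (W3 := 67108864) (N0 := 3)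
    rfl rfl rfl k0_mm_101

noncomputable def f_mm_102_a : ℕ → ℕ → ℕ → ℕ → Bool := onCell 536870912 536870912 0 536870912 67108864 67108864
    (rowNK 3 0 false false false .npp 1 0 2 (qsf 536870912 536870912 0 536870912 0) ndN2q1 ndN1q2a pcN0 Cut.none Ext.none)

def k0_mm_102_a : ∃ t, chk3 f_mm_102_a t 1 1 1 = true :=
  ⟨(l 5), by decide +kernel⟩

theorem c_mm_102_a : CertN 536870912 536870912 0 536870912 67108864 67108864 3 false false false .npp 1 0 2
    ndN2q1 ndN1q2a pcN0 Cut.none Ext.none :=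
  certNK0 (fam := false) (s1 := false) (s2 := false) (a := 1) (b := 0) (c := 2) (cn := .npp) (n1 := ndN2q1) (n2 := ndN1q2a) (pc := pcN0) (cut := Cut.none) (xt := Ext.none) (P1 := 536870912) (W1 := 536870912) (P2 := 0) (W2 := 536870912) (P3 := 67108864) (W3 := 67108864) (N0 := 3)
    rfl rfl rfl k0_mm_102_a

noncomputable def f_mm_102_b : ℕ → ℕ → ℕ → ℕ → Bool := onCell 536870912 536870912 1239849684 370763052 67108864 67108864
    (rowNK 3 0 false false false .npp 1 0 2 (qsf 536870912 536870912 1239849684 370763052 0) ndN2q1 ndN1q2b pcN0 Cut.none Ext.none)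

def k0_mm_102_b : ∃ t, chk3 f_mm_102_b t 1 1 1 = true :=
  ⟨(l 5), by decide +kernel⟩

theorem c_mm_102_b : CertN 536870912 536870912 1239849684 370763052 67108864 67108864 3 false false false .npp 1 0 2
    ndN2q1 ndN1q2b pcN0 Cut.none Ext.none :=
  certNK0 (fam := false) (s1 := false) (s2 := false) (a := 1) (b := 0) (c := 2) (cn := .npp) (n1 := ndN2q1) (n2 := ndN1q2b) (pc := pcN0) (cut := Cut.none) (xt := Ext.none) (P1 := 536870912) (W1 := 536870912) (P2 := 1239849684) (W2 := 370763052) (P3 := 67108864) (W3 := 67108864) (N0 := 3)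
    rfl rfl rfl k0_mm_102_b

noncomputable def f_mm_112_a : ℕ → ℕ → ℕ → ℕ → Bool := onCell 536870912 536870912 0 536870912 67108864 67108864
    (rowNK 3 0 false false false .dn 1 1 2 (qsf 536870912 536870912 0 536870912 1) ndN2q1 ndN1q2a pcN1 Cut.none Ext.none)

def k0_mm_112_a : ∃ t, chk3 f_mm_112_a t 1 1 1 = true :=
  ⟨(l 5), by decide +kernel⟩

theorem c_mm_112_a : CertN 536870912 536870912 0 536870912 67108864 67108864 3 false false false .dn 1 1 2
    ndN2q1 ndN1q2a pcN1 Cut.none Ext.none :=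
  certNK0 (fam := false) (s1 := false) (s2 := false) (a := 1) (b := 1) (c := 2) (cn := .dn) (n1 := ndN2q1) (n2 := ndN1q2a) (pc := pcN1) (cut := Cut.none) (xt := Ext.none) (P1 := 536870912) (W1 := 536870912) (P2 := 0) (W2 := 536870912) (P3 := 67108864) (W3 := 67108864) (N0 := 3)
    rfl rfl rfl k0_mm_112_a

noncomputable def f_mm_112_b : ℕ → ℕ → ℕ → ℕ → Bool := onCell 536870912 536870912 1239849684 370763052 67108864 67108864
    (rowNK 3 0 false false false .dn 1 1 2 (qsf 536870912 536870912 1239849684 370763052 1) ndN2q1 ndN1q2b pcN1 Cut.none Ext.none)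

def k0_mm_112_b : ∃ t, chk3 f_mm_112_b t 1 1 1 = true :=
  ⟨(l 5), by decide +kernel⟩

theorem c_mm_112_b : CertN 536870912 536870912 1239849684 370763052 67108864 67108864 3 false false false .dn 1 1 2
    ndN2q1 ndN1q2b pcN1 Cut.none Ext.none :=
  certNK0 (fam := false) (s1 := false) (s2 := false) (a := 1) (b := 1) (c := 2) (cn := .dn) (n1 := ndN2q1) (n2 := ndN1q2b) (pc := pcN1) (cut := Cut.none) (xt := Ext.none) (P1 := 536870912) (W1 := 536870912) (P2 := 1239849684) (W2 := 370763052) (P3 := 67108864) (W3 := 67108864) (N0 := 3)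
    rfl rfl rfl k0_mm_112_b

noncomputable def f_mm_113 : ℕ → ℕ → ℕ → ℕ → Bool := onCell 536870912 536870912 1610612736 536870912 67108864 67108864
    (rowNK 3 0 false false false .nn 1 1 3 (qsf 536870912 536870912 1610612736 536870912 1) ndN2q1 ndN1q3 pcN1 Cut.none Ext.none)

def k0_mm_113 : ∃ t, chk3 f_mm_113 t 1 1 1 = true :=
  ⟨(l 5), by decide +kernel⟩

theorem c_mm_113 : CertN 536870912 536870912 1610612736 536870912 67108864 67108864 3 false false false .nn 1 1 3
    ndN2q1 ndN1q3 pcN1 Cut.none Ext.none :=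
  certNK0 (fam := false) (s1 := false) (s2 := false) (a := 1) (b := 1) (c := 3) (cn := .nn) (n1 := ndN2q1) (n2 := ndN1q3) (pc := pcN1) (cut := Cut.none) (xt := Ext.none) (P1 := 536870912) (W1 := 536870912) (P2 := 1610612736) (W2 := 536870912) (P3 := 67108864) (W3 := 67108864) (N0 := 3)
    rfl rfl rfl k0_mm_113

noncomputable def f_mm_123 : ℕ → ℕ → ℕ → ℕ → Bool := onCell 536870912 536870912 1610612736 536870912 67108864 67108864
    (rowNK 3 0 false false false .npn 1 2 3 (qsf 536870912 536870912 1610612736 536870912 2) ndN2q1 ndN1q3 pcN2 Cut.none Ext.none)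

def k0_mm_123 : ∃ t, chk3 f_mm_123 t 1 1 1 = true :=
  ⟨(l 5), by decide +kernel⟩

theorem c_mm_123 : CertN 536870912 536870912 1610612736 536870912 67108864 67108864 3 false false false .npn 1 2 3
    ndN2q1 ndN1q3 pcN2 Cut.none Ext.none :=
  certNK0 (fam := false) (s1 := false) (s2 := false) (a := 1) (b := 2) (c := 3) (cn := .npn) (n1 := ndN2q1) (n2 := ndN1q3) (pc := pcN2) (cut := Cut.none) (xt := Ext.none) (P1 := 536870912) (W1 := 536870912) (P2 := 1610612736) (W2 := 536870912) (P3 := 67108864) (W3 := 67108864) (N0 := 3)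
    rfl rfl rfl k0_mm_123

noncomputable def f_mm_133 : ℕ → ℕ → ℕ → ℕ → Bool := onCell 536870912 536870912 1610612736 536870912 67108864 67108864
    (rowNK 3 0 false false false .dn 1 3 3 (qsf 536870912 536870912 1610612736 536870912 3) ndN2q1 ndN1q3 pcN3 Cut.none Ext.none)

def k0_mm_133 : ∃ t, chk3 f_mm_133 t 1 1 1 = true :=
  ⟨(l 5), by decide +kernel⟩

theorem c_mm_133 : CertN 536870912 536870912 1610612736 536870912 67108864 67108864 3 false false false .dn 1 3 3
    ndN2q1 ndN1q3 pcN3 Cut.none Ext.none :=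
  certNK0 (fam := false) (s1 := false) (s2 := false) (a := 1) (b := 3) (c := 3) (cn := .dn) (n1 := ndN2q1) (n2 := ndN1q3) (pc := pcN3) (cut := Cut.none) (xt := Ext.none) (P1 := 536870912) (W1 := 536870912) (P2 := 1610612736) (W2 := 536870912) (P3 := 67108864) (W3 := 67108864) (N0 := 3)
    rfl rfl rfl k0_mm_133

noncomputable def f_mm_202_aa : ℕ → ℕ → ℕ → ℕ → Bool := onCell 0 536870912 0 536870912 67108864 67108864
    (rowNK 3 0 false false false .pp 2 0 2 (qsf 0 536870912 0 536870912 0) ndN2q2a ndN1q2a pcN0 Cut.none Ext.none)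

def k0_mm_202_aa : ∃ t, chk3 f_mm_202_aa t 1 1 1 = true :=
  ⟨(l 3), by decide +kernel⟩

theorem c_mm_202_aa : CertN 0 536870912 0 536870912 67108864 67108864 3 false false false .pp 2 0 2
    ndN2q2a ndN1q2a pcN0 Cut.none Ext.none :=
  certNK0 (fam := false) (s1 := false) (s2 := false) (a := 2) (b := 0) (c := 2) (cn := .pp) (n1 := ndN2q2a) (n2 := ndN1q2a) (pc := pcN0) (cut := Cut.none) (xt := Ext.none) (P1 := 0) (W1 := 536870912) (P2 := 0) (W2 := 536870912) (P3 := 67108864) (W3 := 67108864) (N0 := 3)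
    rfl rfl rfl k0_mm_202_aa

noncomputable def f_mm_202_ab : ℕ → ℕ → ℕ → ℕ → Bool := onCell 0 536870912 1239849684 370763052 67108864 67108864
    (rowNK 3 0 false false false .pp 2 0 2 (qsf 0 536870912 1239849684 370763052 0) ndN2q2a ndN1q2b pcN0 Cut.none Ext.none)

def k0_mm_202_ab : ∃ t, chk3 f_mm_202_ab t 1 1 1 = true :=
  ⟨(l 3), by decide +kernel⟩

theorem c_mm_202_ab : CertN 0 536870912 1239849684 370763052 67108864 67108864 3 false false false .pp 2 0 2
    ndN2q2a ndN1q2b pcN0 Cut.none Ext.none :=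
  certNK0 (fam := false) (s1 := false) (s2 := false) (a := 2) (b := 0) (c := 2) (cn := .pp) (n1 := ndN2q2a) (n2 := ndN1q2b) (pc := pcN0) (cut := Cut.none) (xt := Ext.none) (P1 := 0) (W1 := 536870912) (P2 := 1239849684) (W2 := 370763052) (P3 := 67108864) (W3 := 67108864) (N0 := 3)
    rfl rfl rfl k0_mm_202_ab

noncomputable def f_mm_202_ba : ℕ → ℕ → ℕ → ℕ → Bool := onCell 1239849684 370763052 0 536870912 67108864 67108864
    (rowNK 3 0 false false false .pp 2 0 2 (qsf 1239849684 370763052 0 536870912 0) ndN2q2b ndN1q2a pcN0 Cut.none Ext.none)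

def k0_mm_202_ba : ∃ t, chk3 f_mm_202_ba t 1 1 1 = true :=
  ⟨(l 3), by decide +kernel⟩

theorem c_mm_202_ba : CertN 1239849684 370763052 0 536870912 67108864 67108864 3 false false false .pp 2 0 2
    ndN2q2b ndN1q2a pcN0 Cut.none Ext.none :=
  certNK0 (fam := false) (s1 := false) (s2 := false) (a := 2) (b := 0) (c := 2) (cn := .pp) (n1 := ndN2q2b) (n2 := ndN1q2a) (pc := pcN0) (cut := Cut.none) (xt := Ext.none) (P1 := 1239849684) (W1 := 370763052) (P2 := 0) (W2 := 536870912) (P3 := 67108864) (W3 := 67108864) (N0 := 3)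
    rfl rfl rfl k0_mm_202_ba

noncomputable def f_mm_202_bb : ℕ → ℕ → ℕ → ℕ → Bool := onCell 1239849684 370763052 1239849684 370763052 67108864 67108864
    (rowNK 3 0 false false false .pp 2 0 2 (qsf 1239849684 370763052 1239849684 370763052 0) ndN2q2b ndN1q2b pcN0 Cut.none Ext.none)

def k0_mm_202_bb : ∃ t, chk3 f_mm_202_bb t 1 1 1 = true :=
  ⟨(l 3), by decide +kernel⟩

theorem c_mm_202_bb : CertN 1239849684 370763052 1239849684 370763052 67108864 67108864 3 false false false .pp 2 0 2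
    ndN2q2b ndN1q2b pcN0 Cut.none Ext.none :=
  certNK0 (fam := false) (s1 := false) (s2 := false) (a := 2) (b := 0) (c := 2) (cn := .pp) (n1 := ndN2q2b) (n2 := ndN1q2b) (pc := pcN0) (cut := Cut.none) (xt := Ext.none) (P1 := 1239849684) (W1 := 370763052) (P2 := 1239849684) (W2 := 370763052) (P3 := 67108864) (W3 := 67108864) (N0 := 3)
    rfl rfl rfl k0_mm_202_bb

noncomputable def f_mm_203_a : ℕ → ℕ → ℕ → ℕ → Bool := onCell 0 536870912 1610612736 536870912 67108864 67108864
    (rowNK 3 0 false false false .up 2 0 3 (qsf 0 536870912 1610612736 536870912 0) ndN2q2a ndN1q3 pcN0 Cut.none Ext.none)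

def k0_mm_203_a : ∃ t, chk3 f_mm_203_a t 1 1 1 = true :=
  ⟨(l 5), by decide +kernel⟩

theorem c_mm_203_a : CertN 0 536870912 1610612736 536870912 67108864 67108864 3 false false false .up 2 0 3
    ndN2q2a ndN1q3 pcN0 Cut.none Ext.none :=
  certNK0 (fam := false) (s1 := false) (s2 := false) (a := 2) (b := 0) (c := 3) (cn := .up) (n1 := ndN2q2a) (n2 := ndN1q3) (pc := pcN0) (cut := Cut.none) (xt := Ext.none) (P1 := 0) (W1 := 536870912) (P2 := 1610612736) (W2 := 536870912) (P3 := 67108864) (W3 := 67108864) (N0 := 3)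
    rfl rfl rfl k0_mm_203_a

noncomputable def f_mm_203_b : ℕ → ℕ → ℕ → ℕ → Bool := onCell 1239849684 370763052 1610612736 536870912 67108864 67108864
    (rowNK 3 0 false false false .up 2 0 3 (qsf 1239849684 370763052 1610612736 536870912 0) ndN2q2b ndN1q3 pcN0 Cut.none Ext.none)

def k0_mm_203_b : ∃ t, chk3 f_mm_203_b t 1 1 1 = true :=
  ⟨(l 3), by decide +kernel⟩

theorem c_mm_203_b : CertN 1239849684 370763052 1610612736 536870912 67108864 67108864 3 false false false .up 2 0 3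
    ndN2q2b ndN1q3 pcN0 Cut.none Ext.none :=
  certNK0 (fam := false) (s1 := false) (s2 := false) (a := 2) (b := 0) (c := 3) (cn := .up) (n1 := ndN2q2b) (n2 := ndN1q3) (pc := pcN0) (cut := Cut.none) (xt := Ext.none) (P1 := 1239849684) (W1 := 370763052) (P2 := 1610612736) (W2 := 536870912) (P3 := 67108864) (W3 := 67108864) (N0 := 3)
    rfl rfl rfl k0_mm_203_b

noncomputable def f_mm_213_a : ℕ → ℕ → ℕ → ℕ → Bool := onCell 0 536870912 1610612736 536870912 67108864 67108864
    (rowNK 3 0 false false false .pnn 2 1 3 (qsf 0 536870912 1610612736 536870912 1) ndN2q2a ndN1q3 pcN1 Cut.none Ext.none)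

def k0_mm_213_a : ∃ t, chk3 f_mm_213_a t 1 1 1 = true :=
  ⟨(l 5), by decide +kernel⟩

theorem c_mm_213_a : CertN 0 536870912 1610612736 536870912 67108864 67108864 3 false false false .pnn 2 1 3
    ndN2q2a ndN1q3 pcN1 Cut.none Ext.none :=
  certNK0 (fam := false) (s1 := false) (s2 := false) (a := 2) (b := 1) (c := 3) (cn := .pnn) (n1 := ndN2q2a) (n2 := ndN1q3) (pc := pcN1) (cut := Cut.none) (xt := Ext.none) (P1 := 0) (W1 := 536870912) (P2 := 1610612736) (W2 := 536870912) (P3 := 67108864) (W3 := 67108864) (N0 := 3)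
    rfl rfl rfl k0_mm_213_a

noncomputable def f_mm_213_b : ℕ → ℕ → ℕ → ℕ → Bool := onCell 1239849684 370763052 1610612736 536870912 67108864 67108864
    (rowNK 3 0 false false false .pnn 2 1 3 (qsf 1239849684 370763052 1610612736 536870912 1) ndN2q2b ndN1q3 pcN1 Cut.none Ext.none)

def k0_mm_213_b : ∃ t, chk3 f_mm_213_b t 1 1 1 = true :=
  ⟨(l 3), by decide +kernel⟩

theorem c_mm_213_b : CertN 1239849684 370763052 1610612736 536870912 67108864 67108864 3 false false false .pnn 2 1 3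
    ndN2q2b ndN1q3 pcN1 Cut.none Ext.none :=
  certNK0 (fam := false) (s1 := false) (s2 := false) (a := 2) (b := 1) (c := 3) (cn := .pnn) (n1 := ndN2q2b) (n2 := ndN1q3) (pc := pcN1) (cut := Cut.none) (xt := Ext.none) (P1 := 1239849684) (W1 := 370763052) (P2 := 1610612736) (W2 := 536870912) (P3 := 67108864) (W3 := 67108864) (N0 := 3)
    rfl rfl rfl k0_mm_213_b

noncomputable def f_mm_303 : ℕ → ℕ → ℕ → ℕ → Bool := onCell 1610612736 536870912 1610612736 536870912 67108864 67108864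
    (rowNK 3 0 false false false .npn 3 0 3 (qsf 1610612736 536870912 1610612736 536870912 0) ndN2q3 ndN1q3 pcN0 Cut.none Ext.none)

def k0_mm_303 : ∃ t, chk3 f_mm_303 t 1 1 1 = true :=
  ⟨(l 3), by decide +kernel⟩

theorem c_mm_303 : CertN 1610612736 536870912 1610612736 536870912 67108864 67108864 3 false false false .npn 3 0 3
    ndN2q3 ndN1q3 pcN0 Cut.none Ext.none :=
  certNK0 (fam := false) (s1 := false) (s2 := false) (a := 3) (b := 0) (c := 3) (cn := .npn) (n1 := ndN2q3) (n2 := ndN1q3) (pc := pcN0) (cut := Cut.none) (xt := Ext.none) (P1 := 1610612736) (W1 := 536870912) (P2 := 1610612736) (W2 := 536870912) (P3 := 67108864) (W3 := 67108864) (N0 := 3)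
    rfl rfl rfl k0_mm_303

noncomputable def f_mm_313 : ℕ → ℕ → ℕ → ℕ → Bool := onCell 1610612736 536870912 1610612736 536870912 67108864 67108864
    (rowNK 3 0 false false false .dn 3 1 3 (qsf 1610612736 536870912 1610612736 536870912 1) ndN2q3 ndN1q3 pcN1 Cut.none Ext.none)

def k0_mm_313 : ∃ t, chk3 f_mm_313 t 1 1 1 = true :=
  ⟨(l 3), by decide +kernel⟩

theorem c_mm_313 : CertN 1610612736 536870912 1610612736 536870912 67108864 67108864 3 false false false .dn 3 1 3
    ndN2q3 ndN1q3 pcN1 Cut.none Ext.none :=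
  certNK0 (fam := false) (s1 := false) (s2 := false) (a := 3) (b := 1) (c := 3) (cn := .dn) (n1 := ndN2q3) (n2 := ndN1q3) (pc := pcN1) (cut := Cut.none) (xt := Ext.none) (P1 := 1610612736) (W1 := 536870912) (P2 := 1610612736) (W2 := 536870912) (P3 := 67108864) (W3 := 67108864) (N0 := 3)
    rfl rfl rfl k0_mm_313

end Pool.Agent.Strip051.G.I1_16_1_8.Tab.C.NB21

namespace Pool.Agent.Strip051.G.I1_16_1_8.Tab.C.NB22

open Pool.Agent.Strip051.PB Pool.Agent.Strip051.PB.T
open Pool.Agent.Strip051.G.I1_16_1_8.Tab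

noncomputable def f_pp_001 : ℕ → ℕ → ℕ → ℕ → Bool := onCell 0 536870912 0 536870912 67108864 67108864
    (rowNK 3 1 false true true .up 0 0 1 (qsf 0 536870912 536870912 536870912 0) ndN2q0 ndN2q1 pcN0 Cut.none Ext.none)

def k0_pp_001 : ∃ t, chk3 f_pp_001 t 1 1 1 = true :=
  ⟨(l 3), by decide +kernel⟩

theorem c_pp_001 : CertN 0 536870912 536870912 536870912 67108864 67108864 3 false true true .up 0 0 1
    ndN2q0 ndN2q1 pcN0 Cut.none Ext.none :=
  certNK1 (fam := false) (s1 := true) (s2 := true) (a := 0) (b := 0) (c := 1) (cn := .up) (n1 := ndN2q0) (n2 := ndN2q1) (pc := pcN0) (cut := Cut.none) (xt := Ext.none) (P1 := 0) (W1 := 536870912) (P2 := 536870912) (W2 := 536870912) (P3 := 67108864) (W3 := 67108864) (N0 := 3)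
    rfl rfl rfl (fun _ => rfl) k0_pp_001

noncomputable def cut_pp_011 : Cut := Cut.of [[⟨0, 0, 0, 67108864⟩, ⟨1, 1, 0, 67108864⟩, ⟨2, 1, 0, 67108864⟩]]

noncomputable def f_pp_011 : ℕ → ℕ → ℕ → ℕ → Bool := onCell 0 536870912 536870912 536870912 67108864 67108864
    (rowNK 3 1 false true true .pnn 0 1 1 (qsf 0 536870912 536870912 536870912 1) ndN2q0 ndN2q1 pcN1 cut_pp_011 Ext.none)

def k0_pp_011 : ∃ t, chk3 f_pp_011 t 1 1 1 = true :=
  ⟨(a (b (l 3) (a (b (l 3) (a (b (l 3) (a (b (l 3) (l 6)) (l 3))) (l 3))) (l 3))) (l 3)), by decide +kernel⟩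

theorem c_pp_011 : CertN 0 536870912 536870912 536870912 67108864 67108864 3 false true true .pnn 0 1 1
    ndN2q0 ndN2q1 pcN1 cut_pp_011 Ext.none :=
  certNK1 (fam := false) (s1 := true) (s2 := true) (a := 0) (b := 1) (c := 1) (cn := .pnn) (n1 := ndN2q0) (n2 := ndN2q1) (pc := pcN1) (cut := cut_pp_011) (xt := Ext.none) (P1 := 0) (W1 := 536870912) (P2 := 536870912) (W2 := 536870912) (P3 := 67108864) (W3 := 67108864) (N0 := 3)
    rfl rfl rfl (fun _ => rfl) k0_pp_011

noncomputable def cut_pp_012_a : Cut := Cut.of [[⟨0, 0, 0, 67108864⟩, ⟨1, 1, 0, 67108864⟩, ⟨2, 1, 0, 67108864⟩]]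

noncomputable def f_pp_012_a : ℕ → ℕ → ℕ → ℕ → Bool := onCell 536870912 536870912 0 536870912 67108864 67108864
    (rowNK 3 2 false true true .pnp 0 1 2 (qsf 0 536870912 0 536870912 1) ndN2q0 ndN2q2a pcN1 cut_pp_012_a Ext.none)

def k0_pp_012_a : ∃ t, chk3 f_pp_012_a t 1 1 1 = true :=
  ⟨(a (b (a (l 18700648) (l 18652488)) (b (a (l 18649048) (l 18676040)) (b (a (l 18731680) (b (l 18493896) (l 18446776))) (a (a (l 18527032) (l 18520024)) (a (l 18436864) (l 18285904)))))) (b (a (l 18360416) (a (l 17999504) (b (l 17795664) (l 17731120)))) (b (a (b (l 18268952) (l 18177488)) (a (l 17930528) (b (l 17617432) (a (l 17519280) (l 17434184))))) (b (a (b (l 18102200) (l 18289544)) (a (b (l 17653064) (l 17573048)) (b (a (l 17401648) (l 17277720)) (a (l 17307896) (a (l 17210608) (l 17168768)))))) (a (a (l 18069136) (l 17640552)) (a (a (l 17538368) (l 17191232)) (a (b (l 17221024) (b (l 17148416) (l 17014464))) (b (a (l 17086744) (l 6)) (l 6))))))))), by decide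 +kernel⟩

theorem c_pp_012_a : CertN 0 536870912 0 536870912 67108864 67108864 3 false true true .pnp 0 1 2
    ndN2q0 ndN2q2a pcN1 cut_pp_012_a Ext.none :=
  certNK2 (fam := false) (s1 := true) (s2 := true) (a := 0) (b := 1) (c := 2) (cn := .pnp) (n1 := ndN2q0) (n2 := ndN2q2a) (pc := pcN1) (cut := cut_pp_012_a) (xt := Ext.none) (P1 := 0) (W1 := 536870912) (P2 := 0) (W2 := 536870912) (P3 := 67108864) (W3 := 67108864) (N0 := 3)
    rfl rfl rfl (fun _ => rfl) k0_pp_012_a

noncomputable def cut_pp_012_b : Cut := Cut.of [[⟨0, 0, 0, 67108864⟩, ⟨1, 1, 0, 67108864⟩, ⟨2, 1, 0, 67108864⟩]]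

noncomputable def f_pp_012_b : ℕ → ℕ → ℕ → ℕ → Bool := onCell 536870912 536870912 1239849684 370763052 67108864 67108864
    (rowNK 3 2 false true true .pnp 0 1 2 (qsf 0 536870912 1239849684 370763052 1) ndN2q0 ndN2q2b pcN1 cut_pp_012_b Ext.none)

def k0_pp_012_b : ∃ t, chk3 f_pp_012_b t 1 1 1 = true :=
  ⟨(a (b (a (l 2) (b (l 18616112) (l 18485144))) (l 2)) (b (a (l 18532328) (b (a (l 18110744) (l 17897360)) (l 18124424))) (a (l 18250240) (l 18165912)))), by decide +kernel⟩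

theorem c_pp_012_b : CertN 0 536870912 1239849684 370763052 67108864 67108864 3 false true true .pnp 0 1 2
    ndN2q0 ndN2q2b pcN1 cut_pp_012_b Ext.none :=
  certNK2 (fam := false) (s1 := true) (s2 := true) (a := 0) (b := 1) (c := 2) (cn := .pnp) (n1 := ndN2q0) (n2 := ndN2q2b) (pc := pcN1) (cut := cut_pp_012_b) (xt := Ext.none) (P1 := 0) (W1 := 536870912) (P2 := 1239849684) (W2 := 370763052) (P3 := 67108864) (W3 := 67108864) (N0 := 3)
    rfl rfl rfl (fun _ => rfl) k0_pp_012_b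

noncomputable def cut_pp_022_a : Cut := Cut.of [[⟨0, 0, 0, 67108864⟩, ⟨1, 1, 0, 67108864⟩, ⟨2, 1, 0, 67108864⟩]]

noncomputable def f_pp_022_a : ℕ → ℕ → ℕ → ℕ → Bool := onCell 0 536870912 0 536870912 67108864 67108864
    (rowNK 3 0 false true true .pp 0 2 2 (qsf 0 536870912 0 536870912 2) ndN2q0 ndN2q2a pcN2 cut_pp_022_a Ext.none)

def k0_pp_022_a : ∃ t, chk3 f_pp_022_a t 1 1 1 = true :=
  ⟨(a (b (a (b (a (a (a (b (l 18065720) (l 17744416)) (l 17892776)) (l 17743656)) (a (l 17661496) (a (l 17717416) (b (l 17794880) (l 17785360))))) (a (a (a (b (c (l 18284800) (b (l 17454136) (l 17224664))) (a (c (l 18101768) (b (l 17196808) (l 16792640))) (l 17534392))) (b (l 17715512) (l 17455744))) (a (l 17505200) (l 17462304))) (b (a (l 17563104) (a (l 17651808) (l 17767272))) (a (a (l 17402888) (b (l 17526048) (l 17446344))) (l 17680648))))) (b (l 18024880) (a (l 17973536) (l 1)))) (a (b (a (b (a (b (a (a (c (l 17763400) (a (l 16703016) (l 16680968))) (l 17204936))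 (l 17145160)) (a (a (b (c (l 17587752) (l 16607520)) (l 16655656)) (l 16881544)) (l 16845744))) (a (l 17029728) (b (l 17145632) (l 17001360)))) (a (a (a (b (a (b (l 16618080) (l 16645552)) (l 16647688)) (a (b (a (l 16640352) (l 16630912)) (a (c (l 16673984) (l 16651744)) (l 16648176))) (l 16719392))) (b (l 16695904) (l 16805928))) (b (a (l 16742304) (l 16788496)) (a (l 16827824) (b (l 16819000) (l 16832712))))) (b (a (a (l 16860936) (l 16928632)) (a (l 16992784) (l 17082568))) (a (a (b (l 16886528) (l 16906928)) (l 16966192)) (l 17071832))))) (b (a (a (b (l 17236632) (l 17169448)) (l 17362816)) (l 17651992)) (a (l 17272232) (l 17651912)))) (b (a (a (b (b (a (a (a (a (a (l 16670544) (l 16662616)) (l 16665592)) (l 16688736)) (l 16775240)) (a (l 16801936) (l 16843848))) (b (b (a (a (a (l 16692752) (l 16683192)) (l 16731240)) (a (l 16796112) (l 16865616))) (l 6)) (l 6))) (l 6)) (b (l 17111160) (a (l 6) (l 146063488663)))) (b (a (l 17322080) (l 1)) (l 1)))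 (a (a (l 6) (a (l 6) (l 1))) (l 1)))) (b (l 1) (l 1)))) (l 1)), by decide +kernel⟩

theorem c_pp_022_a : CertN 0 536870912 0 536870912 67108864 67108864 3 false true true .pp 0 2 2
    ndN2q0 ndN2q2a pcN2 cut_pp_022_a Ext.none :=
  certNK0 (fam := false) (s1 := true) (s2 := true) (a := 0) (b := 2) (c := 2) (cn := .pp) (n1 := ndN2q0) (n2 := ndN2q2a) (pc := pcN2) (cut := cut_pp_022_a) (xt := Ext.none) (P1 := 0) (W1 := 536870912) (P2 := 0) (W2 := 536870912) (P3 := 67108864) (W3 := 67108864) (N0 := 3)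
    rfl rfl rfl k0_pp_022_a

noncomputable def cut_pp_022_b : Cut := Cut.of [[⟨0, 0, 0, 67108864⟩, ⟨1, 1, 0, 67108864⟩, ⟨2, 1, 0, 67108864⟩]]

noncomputable def f_pp_022_b : ℕ → ℕ → ℕ → ℕ → Bool := onCell 1073741824 536870912 1239849684 370763052 67108864 67108864
    (rowNK 3 2 false true true .pp 0 2 2 (qsf 0 536870912 1239849684 370763052 2) ndN2q0 ndN2q2b pcN2 cut_pp_022_b Ext.none)

def k0_pp_022_b : ∃ t, chk3 f_pp_022_b t 1 1 1 = true :=
  ⟨(a (b (a (a (a (l 17918400) (b (l 17906672) (l 17880560))) (b (a (l 17904144) (b (l 17909880) (l 17989016))) (l 17901192))) (a (b (b (a (b (a (l 18007264) (l 17986856)) (l 18113424)) (b (a (b (l 699579302167) (l 18288024)) (l 704411424647)) (l 473019520727))) (l 18357176)) (l 18033952)) (a (b (b (b (l 1) (l 742529666887)) (l 445103311687)) (l 18238240)) (b (b (l 1) (l 775279072599)) (l 18421072))))) (a (a (a (l 18040496) (l 17916384)) (l 17716320)) (a (l 17671296) (l 17965288)))) (b (a (b (l 1) (a (b (l 806417738807)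 (l 18578760)) (b (l 1) (l 850978201895)))) (l 1)) (a (b (a (l 18197744) (l 18591848)) (l 17993976)) (b (a (b (l 1) (l 18666960)) (l 1)) (a (l 18322976) (b (l 18673568) (l 18493696))))))), by decide +kernel⟩

theorem c_pp_022_b : CertN 0 536870912 1239849684 370763052 67108864 67108864 3 false true true .pp 0 2 2
    ndN2q0 ndN2q2b pcN2 cut_pp_022_b Ext.none :=
  certNK2 (fam := false) (s1 := true) (s2 := true) (a := 0) (b := 2) (c := 2) (cn := .pp) (n1 := ndN2q0) (n2 := ndN2q2b) (pc := pcN2) (cut := cut_pp_022_b) (xt := Ext.none) (P1 := 0) (W1 := 536870912) (P2 := 1239849684) (W2 := 370763052) (P3 := 67108864) (W3 := 67108864) (N0 := 3)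
    rfl rfl rfl (fun _ => rfl) k0_pp_022_b

noncomputable def f_pp_023 : ℕ → ℕ → ℕ → ℕ → Bool := onCell 1073741824 536870912 1610612736 536870912 67108864 67108864
    (rowNK 3 2 false true true .up 0 2 3 (qsf 0 536870912 1610612736 536870912 2) ndN2q0 ndN2q3 pcN2 Cut.none Ext.none)

def k0_pp_023 : ∃ t, chk3 f_pp_023 t 1 1 1 = true :=
  ⟨(a (b (b (l 19296712) (l 18695928)) (b (l 17767672) (l 2))) (b (b (a (l 18542720) (b (l 19271488) (l 18525288))) (a (l 18392784) (l 17941704))) (a (b (l 17821848) (l 17071704)) (b (l 17592424) (l 17248560))))), by decide +kernel⟩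

theorem c_pp_023 : CertN 0 536870912 1610612736 536870912 67108864 67108864 3 false true true .up 0 2 3
    ndN2q0 ndN2q3 pcN2 Cut.none Ext.none :=
  certNK2 (fam := false) (s1 := true) (s2 := true) (a := 0) (b := 2) (c := 3) (cn := .up) (n1 := ndN2q0) (n2 := ndN2q3) (pc := pcN2) (cut := Cut.none) (xt := Ext.none) (P1 := 0) (W1 := 536870912) (P2 := 1610612736) (W2 := 536870912) (P3 := 67108864) (W3 := 67108864) (N0 := 3)
    rfl rfl rfl (fun _ => rfl) k0_pp_023

noncomputable def f_pp_033 : ℕ → ℕ → ℕ → ℕ → Bool := onCell 0 536870912 1610612736 536870912 67108864 67108864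
    (rowNK 3 0 false true true .pnn 0 3 3 (qsf 0 536870912 1610612736 536870912 3) ndN2q0 ndN2q3 pcN3 Cut.none Ext.none)

def k0_pp_033 : ∃ t, chk3 f_pp_033 t 1 1 1 = true :=
  ⟨(a (b (b (a (a (b (a (l 18940680) (l 18396008)) (l 18402552)) (b (l 17700648) (l 17725016))) (b (l 1) (l 17387608))) (a (b (l 18193056) (l 18311048)) (b (l 17321176) (l 17372960)))) (b (b (a (a (l 18553560) (l 18132056)) (l 17510056)) (a (l 4) (a (l 17593688) (l 17290672)))) (l 4))) (b (a (b (l 1) (l 18229728)) (l 1)) (b (a (b (l 17577920) (l 17255472)) (b (l 1) (l 17603920))) (a (l 4) (b (l 17364712) (l 4)))))), by decide +kernel⟩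

theorem c_pp_033 : CertN 0 536870912 1610612736 536870912 67108864 67108864 3 false true true .pnn 0 3 3
    ndN2q0 ndN2q3 pcN3 Cut.none Ext.none :=
  certNK0 (fam := false) (s1 := true) (s2 := true) (a := 0) (b := 3) (c := 3) (cn := .pnn) (n1 := ndN2q0) (n2 := ndN2q3) (pc := pcN3) (cut := Cut.none) (xt := Ext.none) (P1 := 0) (W1 := 536870912) (P2 := 1610612736) (W2 := 536870912) (P3 := 67108864) (W3 := 67108864) (N0 := 3)
    rfl rfl rfl k0_pp_033

noncomputable def f_pp_101 : ℕ → ℕ → ℕ → ℕ → Bool := onCell 536870912 536870912 536870912 536870912 67108864 67108864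
    (rowNK 3 0 false true true .npn 1 0 1 (qsf 536870912 536870912 536870912 536870912 0) ndN2q1 ndN2q1 pcN0 Cut.none Ext.none)

def k0_pp_101 : ∃ t, chk3 f_pp_101 t 1 1 1 = true :=
  ⟨(l 3), by decide +kernel⟩

theorem c_pp_101 : CertN 536870912 536870912 536870912 536870912 67108864 67108864 3 false true true .npn 1 0 1
    ndN2q1 ndN2q1 pcN0 Cut.none Ext.none :=
  certNK0 (fam := false) (s1 := true) (s2 := true) (a := 1) (b := 0) (c := 1) (cn := .npn) (n1 := ndN2q1) (n2 := ndN2q1) (pc := pcN0) (cut := Cut.none) (xt := Ext.none) (P1 := 536870912) (W1 := 536870912) (P2 := 536870912) (W2 := 536870912) (P3 := 67108864) (W3 := 67108864) (N0 := 3)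
    rfl rfl rfl k0_pp_101

noncomputable def cut_pp_102_a : Cut := Cut.of [[⟨0, 1, 0, 67108864⟩, ⟨1, 0, 0, 67108864⟩, ⟨2, 1, 0, 67108864⟩], [⟨0, 1, 2, 33554432⟩, ⟨1, 0, 1, 33554432⟩, ⟨2, 1, 0, 16777216⟩, ⟨0, 0, 0, 1023410176⟩, ⟨0, 1, 0, 150994944⟩, ⟨1, 0, 0, 150994944⟩, ⟨1, 1, 0, 1023410176⟩]]

noncomputable def f_pp_102_a : ℕ → ℕ → ℕ → ℕ → Bool := onCell 536870912 536870912 0 536870912 67108864 67108864
    (rowNK 3 0 false true true .npp 1 0 2 (qsf 536870912 536870912 0 536870912 0) ndN2q1 ndN2q2a pcN0 cut_pp_102_a Ext.none)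

def k0_pp_102_a : ∃ t, chk3 f_pp_102_a t 2 1 1 = true :=
  ⟨(b (a (l 17983096) (a (l 17676008) (l 17541360))) (b (a (l 18266312) (a (l 17891544) (l 17693888))) (b (a (l 18463424) (a (l 18093728) (l 17905552))) (a (a (l 18525992) (l 18462712)) (a (l 18276416) (b (l 17925352) (l 17982152))))))), by decide +kernel⟩

def k1_pp_102_a : ∃ t, chk3 f_pp_102_a t 3 2 1 = true :=
  ⟨(a (a (l 18035456) (b (l 18694584) (a (l 18480032) (l 18773088)))) (a (b (l 19266648) (a (l 18850136) (b (l 18932120) (l 18794408)))) (a (b (a (l 19016072) (l 19005952)) (c (a (l 19205696) (l 19210120)) (a (l 18419944) (b (l 18429040) (l 18178368))))) (b (l 18767104) (b (a (l 18773952) (l 18421400)) (c (l 18885728) (a (l 17950416) (b (l 17748232) (l 17475896))))))))), by decide +kernel⟩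

def k2_pp_102_a : ∃ t, chk3 f_pp_102_a t 6 3 1 = true :=
  ⟨(b (a (b (l 17994488) (l 17932696)) (a (b (l 18366336) (l 18228696)) (b (l 18601264) (a (l 18373776) (l 18409984))))) (b (a (b (l 17876720) (l 17819888)) (a (b (l 18096360) (l 17979560)) (b (a (l 18180392) (l 18178768)) (a (l 18009656) (b (l 18033648) (l 17921856)))))) (a (a (l 17804216) (a (l 17735008) (l 17643832))) (a (b (l 17852104) (a (l 17710560) (b (l 17718728) (l 17395728)))) (b (c (a (l 18029728) (l 17997096)) (a (l 17514808) (b (l 17535056) (l 17406320)))) (a (c (b (l 17845440) (l 17708696)) (b (a (l 17481328) (l 17397432)) (a (b (l 17408632) (l 17361088)) (c (l 17362272) (b (l 17205224) (a (l 17186456) (l 16969912))))))) (c (b (l 17776464) (b (l 17654992) (l 17528472))) (b (a (l 17269784) (l 16999536)) (b (c (l 17250952) (a (l 17095688) (l 16896344))) (c (a (l 17261504) (b (l 17198472) (l 17121032))) (a (b (l 17008480) (a (l 16980400) (l 14))) (l 14)))))))))))), by decide +kernel⟩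

def k3_pp_102_a : ∃ t, chk3 f_pp_102_a t 7 6 1 = true :=
  ⟨(a (a (b (l 18628720) (b (l 18445736) (l 18281848))) (a (b (l 18583872) (b (l 18356704) (l 18151584))) (b (l 18528200) (c (l 18562264) (b (l 17839384) (l 17379624)))))) (a (b (a (a (l 18460368) (l 18317376)) (c (l 18816952) (a (l 17821256) (l 17639024)))) (a (b (a (l 18147504) (l 17884528)) (c (l 18322728) (a (l 17355024) (l 17153176)))) (b (c (a (l 18493392) (l 18400728)) (a (l 17372224) (l 17165840))) (c (a (l 18170072) (l 17967624)) (a (l 16847272) (l 16675384)))))) (b (c (a (l 18592488) (b (l 18603088) (a (l 18350104) (l 18098552)))) (a (b (l 17580000) (l 17208088)) (b (l 17071064) (l 16621920)))) (b (a (c (c (l 18567504) (l 17847496)) (l 16697568)) (l 16634672)) (a (a (b (l 17088336) (l 16938296)) (l 16646144)) (a (l 16638480) (l 16644840))))))), by decide +kernel⟩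

def k4_pp_102_a : ∃ t, chk3 f_pp_102_a t 14 14 1 = true :=
  ⟨(a (b (a (l 18116576) (c (l 18365760) (l 17683912))) (b (a (l 17950840) (l 17644008)) (c (l 18087696) (a (l 17518320) (b (l 17371600) (l 17292768)))))) (b (c (a (l 18288128) (l 18017760)) (a (b (l 17573416) (l 17420808)) (b (l 17321968) (l 16900512)))) (a (c (b (l 18070264) (l 17899368)) (b (l 17063160) (b (l 17115816) (l 17019432)))) (c (b (l 17773296) (a (l 17750536) (b (l 17679376) (l 17561616)))) (b (a (l 17014232) (l 16812408)) (a (l 16772864) (l 16636216))))))), by decide +kernel⟩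

def k5_pp_102_a : ∃ t, chk3 f_pp_102_a t 28 15 1 = true :=
  ⟨(c (b (a (l 17911264) (b (l 17876080) (l 17550640))) (b (a (l 17495504) (a (l 17402328) (b (l 17505648) (l 17255288)))) (b (a (l 17339360) (c (l 17472144) (a (l 17224552) (b (l 17151384) (l 14))))) (a (c (l 17568176) (a (l 17344888) (b (l 17278672) (l 17192480)))) (c (a (l 17451408) (b (l 17382928) (l 17284832))) (a (c (b (l 17251384) (l 17203616)) (l 14)) (l 14))))))) (b (a (b (l 17380800) (a (l 17282152) (l 17139696))) (b (a (l 17228744) (l 17103528)) (a (l 16979296) (l 16859784)))) (b (a (c (a (l 17276032) (l 17029584)) (b (l 16825552) (l 14))) (a (b (l 16936912) (l 14)) (b (l 16785704) (l 16696448)))) (c (a (b (a (l 17161768) (b (l 17075920) (l 14))) (a (c (b (l 17170968) (l 17132952)) (l 14)) (l 14))) (l 14)) (a (l 14) (a (l 14) (a (l 14) (b (l 16708720) (b (l 16725640) (b (l 16734128) (b (l 16738368) (c (l 14) (a (l 14) (a (l 14) (a (l 14) (l 16743144)))))))))))))))), by decide +kernel⟩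

def k6_pp_102_a : ∃ t, chk3 f_pp_102_a t 29 30 1 = true :=
  ⟨(a (c (b (a (l 17757544) (l 17655752)) (c (l 17665072) (a (l 17356312) (l 17088536)))) (b (a (l 16954048) (l 16773992)) (b (a (l 16805408) (l 16646280)) (l 16674304)))) (a (b (c (l 17382552) (l 16617608)) (b (l 16816056) (l 16730144))) (b (l 16723912) (b (l 16653992) (c (l 16831360) (l 16674608)))))), by decide +kernel⟩

def k7_pp_102_a : ∃ t, chk3 f_pp_102_a t 58 31 1 = true :=
  ⟨(a (b (c (c (l 17532584) (b (l 17197472) (l 14))) (b (l 16666280) (l 16709600))) (c (c (b (l 17293952) (c (b (l 17358104) (l 17296792)) (l 14))) (l 14)) (c (l 14) (b (l 16720496) (b (l 16737272) (b (a (l 16735192) (l 16736296)) (b (a (l 16739416) (l 16740488)) (a (c (l 14) (b (l 16743544) (a (a (l 16743384) (l 16743656)) (a (l 16743928) (l 16742888))))) (b (a (l 16742456) (l 16743000)) (a (c (l 14) (a (l 16743160) (l 16743440))) (a (c (l 14) (l 16743712)) (b (l 16744224) (c (l 16746808) (l 16744344))))))))))))))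 (b (b (l 16738128) (l 16708392)) (b (b (l 16720136) (c (l 14) (l 16729416))) (c (l 14) (a (b (l 16740632) (b (l 16743752) (c (l 14) (b (l 16741600) (a (c (b (l 16744120) (b (l 16745168) (a (l 16745768) (l 16746032)))) (a (l 16745552) (l 16746488))) (b (l 16744120) (a (c (l 16747272) (l 16744848)) (c (l 16747544) (l 16745136))))))))) (b (l 16741792) (b (l 16744864) (b (c (l 16750064) (l 16747976)) (a (c (l 14) (b (l 16744688) (a (a (l 16747224) (l 16748672)) (a (l 16748816) (l 16748960))))) (a (b (l 16748840) (c (l 14) (a (l 16749104) (l 16749256)))) (b (l 16749120) (c (c (l 14) (c (l 14) (l 16748144))) (c (l 16747360) (l 16746312)))))))))))))), by decide +kernel⟩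

def k8_pp_102_a : ∃ t, chk3 f_pp_102_a t 59 62 1 = true :=
  ⟨(b (a (l 16715360) (l 16697160)) (a (c (l 14) (l 16704408)) (c (l 16718448) (l 16717584)))), by decide +kernel⟩

def k9_pp_102_a : ∃ t, chk3 f_pp_102_a t 59 63 2 = true :=
  ⟨(c (l 14) (c (l 14) (a (l 14) (a (l 14) (a (l 14) (b (l 16743416) (b (l 16738768) (b (l 16746952) (b (l 16751048) (a (l 14) (a (l 14) (a (l 14) (b (l 16753440) (l 16756120)))))))))))))), by decide +kernel⟩

def k10_pp_102_a : ∃ t, chk3 f_pp_102_a t 59 63 3 = true :=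
  ⟨(a (a (b (l 16726496) (b (l 16742976) (b (l 16746000) (c (c (l 14) (b (l 16750632) (b (a (l 16747384) (l 16747936)) (b (a (l 16748424) (l 16748976)) (a (a (l 16749680) (l 16750608)) (a (l 16749576) (l 16749856))))))) (b (l 16749144) (b (a (l 16745856) (l 16746448)) (b (a (l 16746888) (l 16747480)) (a (a (l 16748784) (l 16749080)) (a (l 16749376) (l 16748368)))))))))) (b (l 16727808) (b (l 16744192) (b (l 16747168) (a (b (l 16745960) (c (b (l 16748984) (c (l 14) (a (c (l 16750032) (l 16749544)) (l 16751384)))) (b (l 16747056) (a (l 16749632) (l 16749936))))) (b (l 16746552) (a (b (l 16748512) (c (c (l 14) (l 16751672)) (l 16751552))) (b (l 16748808) (c (c (a (l 14) (l 16752976)) (l 16751960)) (l 16751856)))))))))) (b (b (l 16723296) (l 16739368)) (b (a (l 16745432) (l 16746696)) (b (a (l 16748360) (c (l 16750400) (l 16748760))) (a (a (b (l 16747152) (c (b (l 16750112) (c (c (l 14) (a (l 16752280) (l 16753216))) (a (l 16752248) (l 16752536)))) (b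 (l 16748288) (a (l 16752168) (l 16752480))))) (b (l 16747752) (a (b (l 16749704) (c (c (c (l 14) (l 16753504)) (l 16751520)) (l 16752792))) (b (l 16750008) (c (b (l 16751920) (a (l 16753856) (l 16754000))) (l 16750488)))))) (a (b (l 16748368) (c (b (l 16751264) (b (l 16753600) (a (a (l 16754144) (l 16754288)) (a (l 16754440) (l 16754584))))) (b (l 16749544) (a (l 16750800) (l 16751120))))) (b (l 16748992) (c (b (l 16751856) (b (l 16754184) (a (a (l 16754728) (l 16754880)) (c (l 16754192) (l 16753360))))) (b (l 16750184) (a (l 16751440) (l 16751768))))))))))), by decide +kernel⟩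

def k11_pp_102_a : ∃ t, chk3 f_pp_102_a t 15 14 1 = true :=
  ⟨(a (a (a (b (c (l 17939144) (b (l 17058304) (l 16826200))) (b (c (l 17685576) (l 16615648)) (b (l 16894120) (l 16791336)))) (b (c (b (l 18004936) (l 17786528)) (l 16647992)) (b (l 16728152) (b (l 16660000) (l 16637496))))) (b (a (b (a (l 17139064) (l 17082168)) (l 16753432)) (b (l 16914864) (l 16612272))) (a (b (l 16657952) (a (l 16686184) (l 16670104))) (b (l 16644864) (b (l 16630520) (l 16636904)))))) (b (b (a (l 16636848) (a (l 16628688) (l 16636120))) (a (a (l 16621688) (l 16631320)) (a (l 16661312) (l 16669440)))) (a (b (a (l 16655024) (l 16665384)) (a (b (l 16641296) (l 16648072)) (b (l 16673224) (l 16659400)))) (a (b (a (l 16672936) (l 16677304)) (b (l 16673048) (l 6))) (b (a (l 16681704) (l 6)) (l 6)))))), by decide +kernel⟩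

def k12_pp_102_a : ∃ t, chk3 f_pp_102_a t 15 15 1 = true :=
  ⟨(a (a (b (b (a (b (l 16638344) (c (l 16965864) (l 16639656))) (b (l 16644096) (l 16651176))) (a (b (l 16657248) (l 16678512)) (b (a (l 16661528) (l 16663696)) (l 16687848)))) (b (a (b (a (l 16700624) (l 16702176)) (b (l 16710704) (l 16721448))) (b (b (l 16698408) (l 16708984)) (a (l 16719736) (l 16721512)))) (b (b (a (c (l 16733432) (l 16725760)) (a (l 16740960) (l 6))) (a (a (l 16738624) (l 16739888)) (l 6))) (a (b (a (a (l 16746856) (l 16748784)) (a (l 16749408) (l 6))) (a (b (c (c (l 14) (l 16753112)) (c (l 16751584) (l 16750048))) (a (b (c (l 16755424) (l 16749616)) (a (b (c (l 16756768) (l 16751560)) (a (c (c (l 14) (b (l 16754976) (c (l 14) (l 16755248)))) (c (l 16754984) (l 16752024))) (l 6))) (l 6))) (l 6))) (l 6))) (l 6))))) (b (a (b (a (l 16655184) (l 16660504)) (b (a (b (l 16664728) (l 16670704)) (l 16672376)) (a (l 16686320) (l 16688520)))) (b (b (l 16665264) (l 16673136))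 (b (l 16681504) (b (l 16688096) (l 6))))) (a (b (b (a (b (l 16701968) (l 16712440)) (l 16709288)) (l 6)) (l 6)) (l 6)))) (b (a (a (b (a (l 16677992) (l 16673408)) (l 6)) (l 6)) (l 6)) (l 6))), by decide +kernel⟩

theorem s13_pp_102_a : ∃ t, chk3 f_pp_102_a t 15 7 1 = true := ex3_b k11_pp_102_a k12_pp_102_a

theorem s14_pp_102_a : ∃ t, chk3 f_pp_102_a t 59 63 1 = true := ex3_c k9_pp_102_a k10_pp_102_a

theorem s15_pp_102_a : ∃ t, chk3 f_pp_102_a t 59 31 1 = true := ex3_b k8_pp_102_a s14_pp_102_a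

theorem s16_pp_102_a : ∃ t, chk3 f_pp_102_a t 29 31 1 = true := ex3_a k7_pp_102_a s15_pp_102_a

theorem s17_pp_102_a : ∃ t, chk3 f_pp_102_a t 29 15 1 = true := ex3_b k6_pp_102_a s16_pp_102_a

theorem s18_pp_102_a : ∃ t, chk3 f_pp_102_a t 14 15 1 = true := ex3_a k5_pp_102_a s17_pp_102_a

theorem s19_pp_102_a : ∃ t, chk3 f_pp_102_a t 14 7 1 = true := ex3_b k4_pp_102_a s18_pp_102_a

theorem s20_pp_102_a : ∃ t, chk3 f_pp_102_a t 7 7 1 = true := ex3_a s19_pp_102_a s13_pp_102_a

theorem s21_pp_102_a : ∃ t, chk3 f_pp_102_a t 7 3 1 = true := ex3_b k3_pp_102_a s20_pp_102_a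

theorem s22_pp_102_a : ∃ t, chk3 f_pp_102_a t 3 3 1 = true := ex3_a k2_pp_102_a s21_pp_102_a

theorem s23_pp_102_a : ∃ t, chk3 f_pp_102_a t 3 1 1 = true := ex3_b k1_pp_102_a s22_pp_102_a

theorem s24_pp_102_a : ∃ t, chk3 f_pp_102_a t 1 1 1 = true := ex3_a k0_pp_102_a s23_pp_102_a

theorem c_pp_102_a : CertN 536870912 536870912 0 536870912 67108864 67108864 3 false true true .npp 1 0 2
    ndN2q1 ndN2q2a pcN0 cut_pp_102_a Ext.none :=
  certNK0 (fam := false) (s1 := true) (s2 := true) (a := 1) (b := 0) (c := 2) (cn := .npp) (n1 := ndN2q1) (n2 := ndN2q2a) (pc := pcN0) (cut := cut_pp_102_a) (xt := Ext.none) (P1 := 536870912) (W1 := 536870912) (P2 := 0) (W2 := 536870912) (P3 := 67108864) (W3 := 67108864) (N0 := 3)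
    rfl rfl rfl s24_pp_102_a

noncomputable def cut_pp_102_b : Cut := Cut.of [[⟨0, 1, 0, 67108864⟩, ⟨1, 0, 0, 67108864⟩, ⟨2, 1, 0, 67108864⟩], [⟨0, 1, 2, 33554432⟩, ⟨1, 0, 1, 33554432⟩, ⟨2, 1, 0, 16777216⟩, ⟨0, 0, 0, 1023410176⟩, ⟨0, 1, 0, 150994944⟩, ⟨1, 0, 0, 150994944⟩, ⟨1, 1, 0, 1023410176⟩]]

noncomputable def f_pp_102_b : ℕ → ℕ → ℕ → ℕ → Bool := onCell 536870912 536870912 1239849684 370763052 67108864 67108864
    (rowNK 3 0 false true true .npp 1 0 2 (qsf 536870912 536870912 1239849684 370763052 0) ndN2q1 ndN2q2b pcN0 cut_pp_102_b Ext.none)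

def k0_pp_102_b : ∃ t, chk3 f_pp_102_b t 1 1 1 = true :=
  ⟨(a (b (a (l 2) (b (a (l 17383912) (l 17369296)) (a (l 2) (l 17108576)))) (l 2)) (b (a (a (b (l 17985336) (l 17847848)) (b (a (l 18565488) (l 18961664)) (l 18730048))) (a (b (a (l 19122584) (l 19247608)) (l 19285296)) (a (b (a (l 19322232) (l 19383232)) (l 19526528)) (b (b (b (l 19122968) (l 19356952)) (l 19568144)) (l 19684776))))) (a (b (l 18347656) (l 2)) (a (l 19010976) (a (b (l 19365456) (l 19103896)) (l 19384400)))))), by decide +kernel⟩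

theorem c_pp_102_b : CertN 536870912 536870912 1239849684 370763052 67108864 67108864 3 false true true .npp 1 0 2
    ndN2q1 ndN2q2b pcN0 cut_pp_102_b Ext.none :=
  certNK0 (fam := false) (s1 := true) (s2 := true) (a := 1) (b := 0) (c := 2) (cn := .npp) (n1 := ndN2q1) (n2 := ndN2q2b) (pc := pcN0) (cut := cut_pp_102_b) (xt := Ext.none) (P1 := 536870912) (W1 := 536870912) (P2 := 1239849684) (W2 := 370763052) (P3 := 67108864) (W3 := 67108864) (N0 := 3)
    rfl rfl rfl k0_pp_102_b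

noncomputable def f_pp_112_a : ℕ → ℕ → ℕ → ℕ → Bool := onCell 536870912 536870912 0 536870912 67108864 67108864
    (rowNK 3 2 false true true .dn 1 1 2 (qsf 536870912 536870912 0 536870912 1) ndN2q1 ndN2q2a pcN1 Cut.none Ext.none)

def k0_pp_112_a : ∃ t, chk3 f_pp_112_a t 1 1 1 = true :=
  ⟨(a (a (b (l 18143616) (b (l 18326544) (b (l 18432848) (a (l 18533808) (l 1))))) (b (l 18123456) (b (l 1) (l 1)))) (l 1)), by decide +kernel⟩

theorem c_pp_112_a : CertN 536870912 536870912 0 536870912 67108864 67108864 3 false true true .dn 1 1 2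
    ndN2q1 ndN2q2a pcN1 Cut.none Ext.none :=
  certNK2 (fam := false) (s1 := true) (s2 := true) (a := 1) (b := 1) (c := 2) (cn := .dn) (n1 := ndN2q1) (n2 := ndN2q2a) (pc := pcN1) (cut := Cut.none) (xt := Ext.none) (P1 := 536870912) (W1 := 536870912) (P2 := 0) (W2 := 536870912) (P3 := 67108864) (W3 := 67108864) (N0 := 3)
    rfl rfl rfl (fun _ => rfl) k0_pp_112_a

noncomputable def f_pp_112_b : ℕ → ℕ → ℕ → ℕ → Bool := onCell 536870912 536870912 1239849684 370763052 67108864 67108864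
    (rowNK 3 0 false true true .dn 1 1 2 (qsf 536870912 536870912 1239849684 370763052 1) ndN2q1 ndN2q2b pcN1 Cut.none Ext.none)

def k0_pp_112_b : ∃ t, chk3 f_pp_112_b t 1 1 1 = true :=
  ⟨(a (b (a (b (l 18019024) (l 17816296)) (b (a (l 17710768) (l 17426976)) (l 17289632))) (a (b (l 17751824) (l 18362736)) (b (l 17057720) (l 17151752)))) (b (a (a (l 491810136359) (l 488053739543)) (l 1)) (a (a (l 17682600) (l 18698920)) (a (l 19294632) (a (l 19579472) (l 19759632)))))), by decide +kernel⟩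

theorem c_pp_112_b : CertN 536870912 536870912 1239849684 370763052 67108864 67108864 3 false true true .dn 1 1 2
    ndN2q1 ndN2q2b pcN1 Cut.none Ext.none :=
  certNK0 (fam := false) (s1 := true) (s2 := true) (a := 1) (b := 1) (c := 2) (cn := .dn) (n1 := ndN2q1) (n2 := ndN2q2b) (pc := pcN1) (cut := Cut.none) (xt := Ext.none) (P1 := 536870912) (W1 := 536870912) (P2 := 1239849684) (W2 := 370763052) (P3 := 67108864) (W3 := 67108864) (N0 := 3)
    rfl rfl rfl k0_pp_112_b

noncomputable def f_pp_113 : ℕ → ℕ → ℕ → ℕ → Bool := onCell 536870912 536870912 536870912 536870912 67108864 67108864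
    (rowNK 3 1 false true true .nn 1 1 3 (qsf 536870912 536870912 1610612736 536870912 1) ndN2q1 ndN2q3 pcN1 Cut.none Ext.none)

def k0_pp_113 : ∃ t, chk3 f_pp_113 t 1 1 1 = true :=
  ⟨(a (b (b (l 1) (a (l 1) (l 18298888))) (b (a (l 17501880) (l 18012696)) (b (a (l 17164480) (l 17554880)) (b (a (l 17490968) (l 17276784)) (l 17886192))))) (b (a (b (l 413430677735) (l 192239647239)) (a (b (l 20763312) (l 20398904)) (a (b (l 20909648) (l 20430456)) (b (l 20966120) (l 20409240))))) (a (b (a (l 18740168) (l 19358304)) (b (l 18189960) (b (l 17698000) (l 17379912)))) (b (a (l 19396120) (a (l 19188824) (l 19024368))) (a (b (l 18246216) (b (l 17712552) (l 17398592))) (b (a (l 17925832) (l 17676584)) (a (b (l 17404608) (l 17124072)) (b (l 17180160) (l 16933704))))))))), by decide +kernel⟩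

theorem c_pp_113 : CertN 536870912 536870912 1610612736 536870912 67108864 67108864 3 false true true .nn 1 1 3
    ndN2q1 ndN2q3 pcN1 Cut.none Ext.none :=
  certNK1 (fam := false) (s1 := true) (s2 := true) (a := 1) (b := 1) (c := 3) (cn := .nn) (n1 := ndN2q1) (n2 := ndN2q3) (pc := pcN1) (cut := Cut.none) (xt := Ext.none) (P1 := 536870912) (W1 := 536870912) (P2 := 1610612736) (W2 := 536870912) (P3 := 67108864) (W3 := 67108864) (N0 := 3)
    rfl rfl rfl (fun _ => rfl) k0_pp_113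

noncomputable def f_pp_123 : ℕ → ℕ → ℕ → ℕ → Bool := onCell 536870912 536870912 1610612736 536870912 67108864 67108864
    (rowNK 3 0 false true true .npn 1 2 3 (qsf 536870912 536870912 1610612736 536870912 2) ndN2q1 ndN2q3 pcN2 Cut.none Ext.none)

def k0_pp_123 : ∃ t, chk3 f_pp_123 t 1 1 1 = true :=
  ⟨(a (b (a (b (l 18341960) (l 18992768)) (b (l 17573000) (l 18113800))) (b (a (l 19334304) (l 18617472)) (a (l 19331000) (l 18655808)))) (b (a (b (l 1) (l 794068701799)) (l 1)) (a (b (a (l 17749448) (l 17507072)) (a (l 17884280) (l 17218184))) (b (a (l 17865240) (l 1)) (a (l 17009712) (a (l 17044552) (l 17046016))))))), by decide +kernel⟩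

theorem c_pp_123 : CertN 536870912 536870912 1610612736 536870912 67108864 67108864 3 false true true .npn 1 2 3
    ndN2q1 ndN2q3 pcN2 Cut.none Ext.none :=
  certNK0 (fam := false) (s1 := true) (s2 := true) (a := 1) (b := 2) (c := 3) (cn := .npn) (n1 := ndN2q1) (n2 := ndN2q3) (pc := pcN2) (cut := Cut.none) (xt := Ext.none) (P1 := 536870912) (W1 := 536870912) (P2 := 1610612736) (W2 := 536870912) (P3 := 67108864) (W3 := 67108864) (N0 := 3)
    rfl rfl rfl k0_pp_123

noncomputable def f_pp_133 : ℕ → ℕ → ℕ → ℕ → Bool := onCell 1610612736 536870912 1610612736 536870912 67108864 67108864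
    (rowNK 3 2 false true true .dn 1 3 3 (qsf 536870912 536870912 1610612736 536870912 3) ndN2q1 ndN2q3 pcN3 Cut.none Ext.none)

def k0_pp_133 : ∃ t, chk3 f_pp_133 t 1 1 1 = true :=
  ⟨(a (b (l 1) (a (b (l 1) (l 4)) (l 1))) (l 1)), by decide +kernel⟩

theorem c_pp_133 : CertN 536870912 536870912 1610612736 536870912 67108864 67108864 3 false true true .dn 1 3 3
    ndN2q1 ndN2q3 pcN3 Cut.none Ext.none :=
  certNK2 (fam := false) (s1 := true) (s2 := true) (a := 1) (b := 3) (c := 3) (cn := .dn) (n1 := ndN2q1) (n2 := ndN2q3) (pc := pcN3) (cut := Cut.none) (xt := Ext.none) (P1 := 536870912) (W1 := 536870912) (P2 := 1610612736) (W2 := 536870912) (P3 := 67108864) (W3 := 67108864) (N0 := 3)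
    rfl rfl rfl (fun _ => rfl) k0_pp_133

noncomputable def f_pp_202_aa : ℕ → ℕ → ℕ → ℕ → Bool := onCell 0 536870912 0 536870912 67108864 67108864
    (rowNK 3 0 false true true .pp 2 0 2 (qsf 0 536870912 0 536870912 0) ndN2q2a ndN2q2a pcN0 Cut.none Ext.none)

def k0_pp_202_aa : ∃ t, chk3 f_pp_202_aa t 1 1 1 = true :=
  ⟨(l 3), by decide +kernel⟩

theorem c_pp_202_aa : CertN 0 536870912 0 536870912 67108864 67108864 3 false true true .pp 2 0 2
    ndN2q2a ndN2q2a pcN0 Cut.none Ext.none :=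
  certNK0 (fam := false) (s1 := true) (s2 := true) (a := 2) (b := 0) (c := 2) (cn := .pp) (n1 := ndN2q2a) (n2 := ndN2q2a) (pc := pcN0) (cut := Cut.none) (xt := Ext.none) (P1 := 0) (W1 := 536870912) (P2 := 0) (W2 := 536870912) (P3 := 67108864) (W3 := 67108864) (N0 := 3)
    rfl rfl rfl k0_pp_202_aa

noncomputable def f_pp_202_ab : ℕ → ℕ → ℕ → ℕ → Bool := onCell 0 536870912 1239849684 370763052 67108864 67108864
    (rowNK 3 0 false true true .pp 2 0 2 (qsf 0 536870912 1239849684 370763052 0) ndN2q2a ndN2q2b pcN0 Cut.none Ext.none)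

def k0_pp_202_ab : ∃ t, chk3 f_pp_202_ab t 1 1 1 = true :=
  ⟨(l 3), by decide +kernel⟩

theorem c_pp_202_ab : CertN 0 536870912 1239849684 370763052 67108864 67108864 3 false true true .pp 2 0 2
    ndN2q2a ndN2q2b pcN0 Cut.none Ext.none :=
  certNK0 (fam := false) (s1 := true) (s2 := true) (a := 2) (b := 0) (c := 2) (cn := .pp) (n1 := ndN2q2a) (n2 := ndN2q2b) (pc := pcN0) (cut := Cut.none) (xt := Ext.none) (P1 := 0) (W1 := 536870912) (P2 := 1239849684) (W2 := 370763052) (P3 := 67108864) (W3 := 67108864) (N0 := 3)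
    rfl rfl rfl k0_pp_202_ab

noncomputable def f_pp_202_ba : ℕ → ℕ → ℕ → ℕ → Bool := onCell 1239849684 370763052 0 536870912 67108864 67108864
    (rowNK 3 0 false true true .pp 2 0 2 (qsf 1239849684 370763052 0 536870912 0) ndN2q2b ndN2q2a pcN0 Cut.none Ext.none)

def k0_pp_202_ba : ∃ t, chk3 f_pp_202_ba t 1 1 1 = true :=
  ⟨(l 3), by decide +kernel⟩

theorem c_pp_202_ba : CertN 1239849684 370763052 0 536870912 67108864 67108864 3 false true true .pp 2 0 2
    ndN2q2b ndN2q2a pcN0 Cut.none Ext.none :=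
  certNK0 (fam := false) (s1 := true) (s2 := true) (a := 2) (b := 0) (c := 2) (cn := .pp) (n1 := ndN2q2b) (n2 := ndN2q2a) (pc := pcN0) (cut := Cut.none) (xt := Ext.none) (P1 := 1239849684) (W1 := 370763052) (P2 := 0) (W2 := 536870912) (P3 := 67108864) (W3 := 67108864) (N0 := 3)
    rfl rfl rfl k0_pp_202_ba

noncomputable def f_pp_202_bb : ℕ → ℕ → ℕ → ℕ → Bool := onCell 1239849684 370763052 1239849684 370763052 67108864 67108864
    (rowNK 3 0 false true true .pp 2 0 2 (qsf 1239849684 370763052 1239849684 370763052 0) ndN2q2b ndN2q2b pcN0 Cut.none Ext.none)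

def k0_pp_202_bb : ∃ t, chk3 f_pp_202_bb t 1 1 1 = true :=
  ⟨(l 3), by decide +kernel⟩

theorem c_pp_202_bb : CertN 1239849684 370763052 1239849684 370763052 67108864 67108864 3 false true true .pp 2 0 2
    ndN2q2b ndN2q2b pcN0 Cut.none Ext.none :=
  certNK0 (fam := false) (s1 := true) (s2 := true) (a := 2) (b := 0) (c := 2) (cn := .pp) (n1 := ndN2q2b) (n2 := ndN2q2b) (pc := pcN0) (cut := Cut.none) (xt := Ext.none) (P1 := 1239849684) (W1 := 370763052) (P2 := 1239849684) (W2 := 370763052) (P3 := 67108864) (W3 := 67108864) (N0 := 3)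
    rfl rfl rfl k0_pp_202_bb

noncomputable def f_pp_203_a : ℕ → ℕ → ℕ → ℕ → Bool := onCell 0 536870912 0 536870912 67108864 67108864
    (rowNK 3 1 false true true .up 2 0 3 (qsf 0 536870912 1610612736 536870912 0) ndN2q2a ndN2q3 pcN0 Cut.none Ext.none)

def k0_pp_203_a : ∃ t, chk3 f_pp_203_a t 1 1 1 = true :=
  ⟨(l 3), by decide +kernel⟩

theorem c_pp_203_a : CertN 0 536870912 1610612736 536870912 67108864 67108864 3 false true true .up 2 0 3
    ndN2q2a ndN2q3 pcN0 Cut.none Ext.none :=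
  certNK1 (fam := false) (s1 := true) (s2 := true) (a := 2) (b := 0) (c := 3) (cn := .up) (n1 := ndN2q2a) (n2 := ndN2q3) (pc := pcN0) (cut := Cut.none) (xt := Ext.none) (P1 := 0) (W1 := 536870912) (P2 := 1610612736) (W2 := 536870912) (P3 := 67108864) (W3 := 67108864) (N0 := 3)
    rfl rfl rfl (fun _ => rfl) k0_pp_203_a

noncomputable def f_pp_203_b : ℕ → ℕ → ℕ → ℕ → Bool := onCell 1239849684 370763052 1610612736 536870912 67108864 67108864
    (rowNK 3 0 false true true .up 2 0 3 (qsf 1239849684 370763052 1610612736 536870912 0) ndN2q2b ndN2q3 pcN0 Cut.none Ext.none)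

def k0_pp_203_b : ∃ t, chk3 f_pp_203_b t 1 1 1 = true :=
  ⟨(l 3), by decide +kernel⟩

theorem c_pp_203_b : CertN 1239849684 370763052 1610612736 536870912 67108864 67108864 3 false true true .up 2 0 3
    ndN2q2b ndN2q3 pcN0 Cut.none Ext.none :=
  certNK0 (fam := false) (s1 := true) (s2 := true) (a := 2) (b := 0) (c := 3) (cn := .up) (n1 := ndN2q2b) (n2 := ndN2q3) (pc := pcN0) (cut := Cut.none) (xt := Ext.none) (P1 := 1239849684) (W1 := 370763052) (P2 := 1610612736) (W2 := 536870912) (P3 := 67108864) (W3 := 67108864) (N0 := 3)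
    rfl rfl rfl k0_pp_203_b

noncomputable def cut_pp_213_a : Cut := Cut.of [[⟨0, 1, 0, 21338704⟩, ⟨1, 1, 0, 21338704⟩, ⟨2, 2, 0, 1685920⟩]]

noncomputable def f_pp_213_a : ℕ → ℕ → ℕ → ℕ → Bool := onCell 0 536870912 1610612736 536870912 67108864 67108864
    (rowNK 3 0 false true true .pnn 2 1 3 (qsf 0 536870912 1610612736 536870912 1) ndN2q2a ndN2q3 pcN1 cut_pp_213_a Ext.none)

def k0_pp_213_a : ∃ t, chk3 f_pp_213_a t 1 1 1 = true :=
  ⟨(a (l 3) (b (l 3) (a (l 3) (b (l 3) (a (l 3) (b (l 3) (b (l 3) (b (l 3) (b (l 3) (a (l 3) (b (l 3) (a (l 3) (b (l 3) (b (l 3) (l 6))))))))))))))), by decide +kernel⟩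

theorem c_pp_213_a : CertN 0 536870912 1610612736 536870912 67108864 67108864 3 false true true .pnn 2 1 3
    ndN2q2a ndN2q3 pcN1 cut_pp_213_a Ext.none :=
  certNK0 (fam := false) (s1 := true) (s2 := true) (a := 2) (b := 1) (c := 3) (cn := .pnn) (n1 := ndN2q2a) (n2 := ndN2q3) (pc := pcN1) (cut := cut_pp_213_a) (xt := Ext.none) (P1 := 0) (W1 := 536870912) (P2 := 1610612736) (W2 := 536870912) (P3 := 67108864) (W3 := 67108864) (N0 := 3)
    rfl rfl rfl k0_pp_213_a

noncomputable def cut_pp_213_b : Cut := Cut.of [[⟨0, 1, 0, 21338704⟩, ⟨1, 1, 0, 21338704⟩, ⟨2, 2, 0, 1685920⟩]]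

noncomputable def f_pp_213_b : ℕ → ℕ → ℕ → ℕ → Bool := onCell 1239849684 370763052 1610612736 536870912 67108864 67108864
    (rowNK 3 0 false true true .pnn 2 1 3 (qsf 1239849684 370763052 1610612736 536870912 1) ndN2q2b ndN2q3 pcN1 cut_pp_213_b Ext.none)

def k0_pp_213_b : ∃ t, chk3 f_pp_213_b t 1 1 1 = true :=
  ⟨(l 3), by decide +kernel⟩

theorem c_pp_213_b : CertN 1239849684 370763052 1610612736 536870912 67108864 67108864 3 false true true .pnn 2 1 3
    ndN2q2b ndN2q3 pcN1 cut_pp_213_b Ext.none :=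
  certNK0 (fam := false) (s1 := true) (s2 := true) (a := 2) (b := 1) (c := 3) (cn := .pnn) (n1 := ndN2q2b) (n2 := ndN2q3) (pc := pcN1) (cut := cut_pp_213_b) (xt := Ext.none) (P1 := 1239849684) (W1 := 370763052) (P2 := 1610612736) (W2 := 536870912) (P3 := 67108864) (W3 := 67108864) (N0 := 3)
    rfl rfl rfl k0_pp_213_b

noncomputable def f_pp_303 : ℕ → ℕ → ℕ → ℕ → Bool := onCell 1610612736 536870912 1610612736 536870912 67108864 67108864
    (rowNK 3 0 false true true .npn 3 0 3 (qsf 1610612736 536870912 1610612736 536870912 0) ndN2q3 ndN2q3 pcN0 Cut.none Ext.none)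

def k0_pp_303 : ∃ t, chk3 f_pp_303 t 1 1 1 = true :=
  ⟨(l 3), by decide +kernel⟩

theorem c_pp_303 : CertN 1610612736 536870912 1610612736 536870912 67108864 67108864 3 false true true .npn 3 0 3
    ndN2q3 ndN2q3 pcN0 Cut.none Ext.none :=
  certNK0 (fam := false) (s1 := true) (s2 := true) (a := 3) (b := 0) (c := 3) (cn := .npn) (n1 := ndN2q3) (n2 := ndN2q3) (pc := pcN0) (cut := Cut.none) (xt := Ext.none) (P1 := 1610612736) (W1 := 536870912) (P2 := 1610612736) (W2 := 536870912) (P3 := 67108864) (W3 := 67108864) (N0 := 3)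
    rfl rfl rfl k0_pp_303

noncomputable def f_pp_313 : ℕ → ℕ → ℕ → ℕ → Bool := onCell 1610612736 536870912 1610612736 536870912 67108864 67108864
    (rowNK 3 0 false true true .dn 3 1 3 (qsf 1610612736 536870912 1610612736 536870912 1) ndN2q3 ndN2q3 pcN1 Cut.none Ext.none)

def k0_pp_313 : ∃ t, chk3 f_pp_313 t 1 1 1 = true :=
  ⟨(l 3), by decide +kernel⟩

theorem c_pp_313 : CertN 1610612736 536870912 1610612736 536870912 67108864 67108864 3 false true true .dn 3 1 3
    ndN2q3 ndN2q3 pcN1 Cut.none Ext.none :=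
  certNK0 (fam := false) (s1 := true) (s2 := true) (a := 3) (b := 1) (c := 3) (cn := .dn) (n1 := ndN2q3) (n2 := ndN2q3) (pc := pcN1) (cut := Cut.none) (xt := Ext.none) (P1 := 1610612736) (W1 := 536870912) (P2 := 1610612736) (W2 := 536870912) (P3 := 67108864) (W3 := 67108864) (N0 := 3)
    rfl rfl rfl k0_pp_313

noncomputable def f_pm_001 : ℕ → ℕ → ℕ → ℕ → Bool := onCell 0 536870912 536870912 536870912 67108864 67108864
    (rowNK 3 0 false true false .up 0 0 1 (qsf 0 536870912 536870912 536870912 0) ndN2q0 ndN2q1 pcN0 Cut.none Ext.none)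

def k0_pm_001 : ∃ t, chk3 f_pm_001 t 1 1 1 = true :=
  ⟨(l 4), by decide +kernel⟩

theorem c_pm_001 : CertN 0 536870912 536870912 536870912 67108864 67108864 3 false true false .up 0 0 1
    ndN2q0 ndN2q1 pcN0 Cut.none Ext.none :=
  certNK0 (fam := false) (s1 := true) (s2 := false) (a := 0) (b := 0) (c := 1) (cn := .up) (n1 := ndN2q0) (n2 := ndN2q1) (pc := pcN0) (cut := Cut.none) (xt := Ext.none) (P1 := 0) (W1 := 536870912) (P2 := 536870912) (W2 := 536870912) (P3 := 67108864) (W3 := 67108864) (N0 := 3)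
    rfl rfl rfl k0_pm_001

noncomputable def f_pm_011 : ℕ → ℕ → ℕ → ℕ → Bool := onCell 0 536870912 536870912 536870912 67108864 67108864
    (rowNK 3 0 false true false .pnn 0 1 1 (qsf 0 536870912 536870912 536870912 1) ndN2q0 ndN2q1 pcN1 Cut.none Ext.none)

def k0_pm_011 : ∃ t, chk3 f_pm_011 t 1 1 1 = true :=
  ⟨(l 4), by decide +kernel⟩

theorem c_pm_011 : CertN 0 536870912 536870912 536870912 67108864 67108864 3 false true false .pnn 0 1 1
    ndN2q0 ndN2q1 pcN1 Cut.none Ext.none :=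
  certNK0 (fam := false) (s1 := true) (s2 := false) (a := 0) (b := 1) (c := 1) (cn := .pnn) (n1 := ndN2q0) (n2 := ndN2q1) (pc := pcN1) (cut := Cut.none) (xt := Ext.none) (P1 := 0) (W1 := 536870912) (P2 := 536870912) (W2 := 536870912) (P3 := 67108864) (W3 := 67108864) (N0 := 3)
    rfl rfl rfl k0_pm_011

noncomputable def cut_pm_012_a : Cut := Cut.of [[⟨0, 0, 0, 67108864⟩, ⟨1, 1, 0, 67108864⟩, ⟨2, 1, 0, 67108864⟩]]

noncomputable def f_pm_012_a : ℕ → ℕ → ℕ → ℕ → Bool := onCell 0 536870912 0 536870912 67108864 67108864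
    (rowNK 3 0 false true false .pnp 0 1 2 (qsf 0 536870912 0 536870912 1) ndN2q0 ndN2q2a pcN1 cut_pm_012_a Ext.none)

def k0_pm_012_a : ∃ t, chk3 f_pm_012_a t 1 1 1 = true :=
  ⟨(a (b (l 4) (a (b (l 4) (a (b (l 4) (a (l 6) (l 4))) (l 4))) (l 4))) (l 4)), by decide +kernel⟩

theorem c_pm_012_a : CertN 0 536870912 0 536870912 67108864 67108864 3 false true false .pnp 0 1 2
    ndN2q0 ndN2q2a pcN1 cut_pm_012_a Ext.none :=
  certNK0 (fam := false) (s1 := true) (s2 := false) (a := 0) (b := 1) (c := 2) (cn := .pnp) (n1 := ndN2q0) (n2 := ndN2q2a) (pc := pcN1) (cut := cut_pm_012_a) (xt := Ext.none) (P1 := 0) (W1 := 536870912) (P2 := 0) (W2 := 536870912) (P3 := 67108864) (W3 := 67108864) (N0 := 3)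
    rfl rfl rfl k0_pm_012_a

noncomputable def cut_pm_012_b : Cut := Cut.of [[⟨0, 0, 0, 67108864⟩, ⟨1, 1, 0, 67108864⟩, ⟨2, 1, 0, 67108864⟩]]

noncomputable def f_pm_012_b : ℕ → ℕ → ℕ → ℕ → Bool := onCell 0 536870912 1239849684 370763052 67108864 67108864
    (rowNK 3 0 false true false .pnp 0 1 2 (qsf 0 536870912 1239849684 370763052 1) ndN2q0 ndN2q2b pcN1 cut_pm_012_b Ext.none)

def k0_pm_012_b : ∃ t, chk3 f_pm_012_b t 1 1 1 = true :=
  ⟨(l 4), by decide +kernel⟩

theorem c_pm_012_b : CertN 0 536870912 1239849684 370763052 67108864 67108864 3 false true false .pnp 0 1 2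
    ndN2q0 ndN2q2b pcN1 cut_pm_012_b Ext.none :=
  certNK0 (fam := false) (s1 := true) (s2 := false) (a := 0) (b := 1) (c := 2) (cn := .pnp) (n1 := ndN2q0) (n2 := ndN2q2b) (pc := pcN1) (cut := cut_pm_012_b) (xt := Ext.none) (P1 := 0) (W1 := 536870912) (P2 := 1239849684) (W2 := 370763052) (P3 := 67108864) (W3 := 67108864) (N0 := 3)
    rfl rfl rfl k0_pm_012_b

noncomputable def cut_pm_022_a : Cut := Cut.of [[⟨0, 0, 0, 67108864⟩, ⟨1, 1, 0, 67108864⟩, ⟨2, 1, 0, 67108864⟩]]

noncomputable def f_pm_022_a : ℕ → ℕ → ℕ → ℕ → Bool := onCell 0 536870912 0 536870912 67108864 67108864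
    (rowNK 3 0 false true false .pp 0 2 2 (qsf 0 536870912 0 536870912 2) ndN2q0 ndN2q2a pcN2 cut_pm_022_a Ext.none)

def k0_pm_022_a : ∃ t, chk3 f_pm_022_a t 1 1 1 = true :=
  ⟨(a (b (l 4) (b (l 4) (b (l 4) (a (a (a (l 6) (l 4)) (l 1)) (l 1))))) (l 1)), by decide +kernel⟩

theorem c_pm_022_a : CertN 0 536870912 0 536870912 67108864 67108864 3 false true false .pp 0 2 2
    ndN2q0 ndN2q2a pcN2 cut_pm_022_a Ext.none :=
  certNK0 (fam := false) (s1 := true) (s2 := false) (a := 0) (b := 2) (c := 2) (cn := .pp) (n1 := ndN2q0) (n2 := ndN2q2a) (pc := pcN2) (cut := cut_pm_022_a) (xt := Ext.none) (P1 := 0) (W1 := 536870912) (P2 := 0) (W2 := 536870912) (P3 := 67108864) (W3 := 67108864) (N0 := 3)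
    rfl rfl rfl k0_pm_022_a

noncomputable def cut_pm_022_b : Cut := Cut.of [[⟨0, 0, 0, 67108864⟩, ⟨1, 1, 0, 67108864⟩, ⟨2, 1, 0, 67108864⟩]]

noncomputable def f_pm_022_b : ℕ → ℕ → ℕ → ℕ → Bool := onCell 0 536870912 1239849684 370763052 67108864 67108864
    (rowNK 3 0 false true false .pp 0 2 2 (qsf 0 536870912 1239849684 370763052 2) ndN2q0 ndN2q2b pcN2 cut_pm_022_b Ext.none)

def k0_pm_022_b : ∃ t, chk3 f_pm_022_b t 1 1 1 = true :=
  ⟨(l 4), by decide +kernel⟩

theorem c_pm_022_b : CertN 0 536870912 1239849684 370763052 67108864 67108864 3 false true false .pp 0 2 2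
    ndN2q0 ndN2q2b pcN2 cut_pm_022_b Ext.none :=
  certNK0 (fam := false) (s1 := true) (s2 := false) (a := 0) (b := 2) (c := 2) (cn := .pp) (n1 := ndN2q0) (n2 := ndN2q2b) (pc := pcN2) (cut := cut_pm_022_b) (xt := Ext.none) (P1 := 0) (W1 := 536870912) (P2 := 1239849684) (W2 := 370763052) (P3 := 67108864) (W3 := 67108864) (N0 := 3)
    rfl rfl rfl k0_pm_022_b

noncomputable def f_pm_023 : ℕ → ℕ → ℕ → ℕ → Bool := onCell 0 536870912 1610612736 536870912 67108864 67108864
    (rowNK 3 0 false true false .up 0 2 3 (qsf 0 536870912 1610612736 536870912 2) ndN2q0 ndN2q3 pcN2 Cut.none Ext.none)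

def k0_pm_023 : ∃ t, chk3 f_pm_023 t 1 1 1 = true :=
  ⟨(l 4), by decide +kernel⟩

theorem c_pm_023 : CertN 0 536870912 1610612736 536870912 67108864 67108864 3 false true false .up 0 2 3
    ndN2q0 ndN2q3 pcN2 Cut.none Ext.none :=
  certNK0 (fam := false) (s1 := true) (s2 := false) (a := 0) (b := 2) (c := 3) (cn := .up) (n1 := ndN2q0) (n2 := ndN2q3) (pc := pcN2) (cut := Cut.none) (xt := Ext.none) (P1 := 0) (W1 := 536870912) (P2 := 1610612736) (W2 := 536870912) (P3 := 67108864) (W3 := 67108864) (N0 := 3)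
    rfl rfl rfl k0_pm_023

noncomputable def f_pm_033 : ℕ → ℕ → ℕ → ℕ → Bool := onCell 0 536870912 1610612736 536870912 67108864 67108864
    (rowNK 3 0 false true false .pnn 0 3 3 (qsf 0 536870912 1610612736 536870912 3) ndN2q0 ndN2q3 pcN3 Cut.none Ext.none)

def k0_pm_033 : ∃ t, chk3 f_pm_033 t 1 1 1 = true :=
  ⟨(l 4), by decide +kernel⟩

theorem c_pm_033 : CertN 0 536870912 1610612736 536870912 67108864 67108864 3 false true false .pnn 0 3 3
    ndN2q0 ndN2q3 pcN3 Cut.none Ext.none :=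
  certNK0 (fam := false) (s1 := true) (s2 := false) (a := 0) (b := 3) (c := 3) (cn := .pnn) (n1 := ndN2q0) (n2 := ndN2q3) (pc := pcN3) (cut := Cut.none) (xt := Ext.none) (P1 := 0) (W1 := 536870912) (P2 := 1610612736) (W2 := 536870912) (P3 := 67108864) (W3 := 67108864) (N0 := 3)
    rfl rfl rfl k0_pm_033

noncomputable def f_pm_101 : ℕ → ℕ → ℕ → ℕ → Bool := onCell 536870912 536870912 536870912 536870912 67108864 67108864
    (rowNK 3 0 false true false .npn 1 0 1 (qsf 536870912 536870912 536870912 536870912 0) ndN2q1 ndN2q1 pcN0 Cut.none Ext.none)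

def k0_pm_101 : ∃ t, chk3 f_pm_101 t 1 1 1 = true :=
  ⟨(l 4), by decide +kernel⟩

theorem c_pm_101 : CertN 536870912 536870912 536870912 536870912 67108864 67108864 3 false true false .npn 1 0 1
    ndN2q1 ndN2q1 pcN0 Cut.none Ext.none :=
  certNK0 (fam := false) (s1 := true) (s2 := false) (a := 1) (b := 0) (c := 1) (cn := .npn) (n1 := ndN2q1) (n2 := ndN2q1) (pc := pcN0) (cut := Cut.none) (xt := Ext.none) (P1 := 536870912) (W1 := 536870912) (P2 := 536870912) (W2 := 536870912) (P3 := 67108864) (W3 := 67108864) (N0 := 3)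
    rfl rfl rfl k0_pm_101

noncomputable def f_pm_102_a : ℕ → ℕ → ℕ → ℕ → Bool := onCell 536870912 536870912 0 536870912 67108864 67108864
    (rowNK 3 0 false true false .npp 1 0 2 (qsf 536870912 536870912 0 536870912 0) ndN2q1 ndN2q2a pcN0 Cut.none Ext.none)

def k0_pm_102_a : ∃ t, chk3 f_pm_102_a t 1 1 1 = true :=
  ⟨(l 4), by decide +kernel⟩

theorem c_pm_102_a : CertN 536870912 536870912 0 536870912 67108864 67108864 3 false true false .npp 1 0 2
    ndN2q1 ndN2q2a pcN0 Cut.none Ext.none :=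
  certNK0 (fam := false) (s1 := true) (s2 := false) (a := 1) (b := 0) (c := 2) (cn := .npp) (n1 := ndN2q1) (n2 := ndN2q2a) (pc := pcN0) (cut := Cut.none) (xt := Ext.none) (P1 := 536870912) (W1 := 536870912) (P2 := 0) (W2 := 536870912) (P3 := 67108864) (W3 := 67108864) (N0 := 3)
    rfl rfl rfl k0_pm_102_a

noncomputable def f_pm_102_b : ℕ → ℕ → ℕ → ℕ → Bool := onCell 536870912 536870912 1239849684 370763052 67108864 67108864
    (rowNK 3 0 false true false .npp 1 0 2 (qsf 536870912 536870912 1239849684 370763052 0) ndN2q1 ndN2q2b pcN0 Cut.none Ext.none)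

def k0_pm_102_b : ∃ t, chk3 f_pm_102_b t 1 1 1 = true :=
  ⟨(l 4), by decide +kernel⟩

theorem c_pm_102_b : CertN 536870912 536870912 1239849684 370763052 67108864 67108864 3 false true false .npp 1 0 2
    ndN2q1 ndN2q2b pcN0 Cut.none Ext.none :=
  certNK0 (fam := false) (s1 := true) (s2 := false) (a := 1) (b := 0) (c := 2) (cn := .npp) (n1 := ndN2q1) (n2 := ndN2q2b) (pc := pcN0) (cut := Cut.none) (xt := Ext.none) (P1 := 536870912) (W1 := 536870912) (P2 := 1239849684) (W2 := 370763052) (P3 := 67108864) (W3 := 67108864) (N0 := 3)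
    rfl rfl rfl k0_pm_102_b

noncomputable def f_pm_112_a : ℕ → ℕ → ℕ → ℕ → Bool := onCell 536870912 536870912 0 536870912 67108864 67108864
    (rowNK 3 0 false true false .dn 1 1 2 (qsf 536870912 536870912 0 536870912 1) ndN2q1 ndN2q2a pcN1 Cut.none Ext.none)

def k0_pm_112_a : ∃ t, chk3 f_pm_112_a t 1 1 1 = true :=
  ⟨(l 4), by decide +kernel⟩

theorem c_pm_112_a : CertN 536870912 536870912 0 536870912 67108864 67108864 3 false true false .dn 1 1 2
    ndN2q1 ndN2q2a pcN1 Cut.none Ext.none :=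
  certNK0 (fam := false) (s1 := true) (s2 := false) (a := 1) (b := 1) (c := 2) (cn := .dn) (n1 := ndN2q1) (n2 := ndN2q2a) (pc := pcN1) (cut := Cut.none) (xt := Ext.none) (P1 := 536870912) (W1 := 536870912) (P2 := 0) (W2 := 536870912) (P3 := 67108864) (W3 := 67108864) (N0 := 3)
    rfl rfl rfl k0_pm_112_a

noncomputable def f_pm_112_b : ℕ → ℕ → ℕ → ℕ → Bool := onCell 536870912 536870912 1239849684 370763052 67108864 67108864
    (rowNK 3 0 false true false .dn 1 1 2 (qsf 536870912 536870912 1239849684 370763052 1) ndN2q1 ndN2q2b pcN1 Cut.none Ext.none)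

def k0_pm_112_b : ∃ t, chk3 f_pm_112_b t 1 1 1 = true :=
  ⟨(l 4), by decide +kernel⟩

theorem c_pm_112_b : CertN 536870912 536870912 1239849684 370763052 67108864 67108864 3 false true false .dn 1 1 2
    ndN2q1 ndN2q2b pcN1 Cut.none Ext.none :=
  certNK0 (fam := false) (s1 := true) (s2 := false) (a := 1) (b := 1) (c := 2) (cn := .dn) (n1 := ndN2q1) (n2 := ndN2q2b) (pc := pcN1) (cut := Cut.none) (xt := Ext.none) (P1 := 536870912) (W1 := 536870912) (P2 := 1239849684) (W2 := 370763052) (P3 := 67108864) (W3 := 67108864) (N0 := 3)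
    rfl rfl rfl k0_pm_112_b

noncomputable def f_pm_113 : ℕ → ℕ → ℕ → ℕ → Bool := onCell 536870912 536870912 1610612736 536870912 67108864 67108864
    (rowNK 3 0 false true false .nn 1 1 3 (qsf 536870912 536870912 1610612736 536870912 1) ndN2q1 ndN2q3 pcN1 Cut.none Ext.none)

def k0_pm_113 : ∃ t, chk3 f_pm_113 t 1 1 1 = true :=
  ⟨(a (l 4) (b (l 4) (a (l 4) (b (l 4) (a (l 4) (b (l 4) (a (l 4) (b (l 4) (l 16836256))))))))), by decide +kernel⟩

theorem c_pm_113 : CertN 536870912 536870912 1610612736 536870912 67108864 67108864 3 false true false .nn 1 1 3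
    ndN2q1 ndN2q3 pcN1 Cut.none Ext.none :=
  certNK0 (fam := false) (s1 := true) (s2 := false) (a := 1) (b := 1) (c := 3) (cn := .nn) (n1 := ndN2q1) (n2 := ndN2q3) (pc := pcN1) (cut := Cut.none) (xt := Ext.none) (P1 := 536870912) (W1 := 536870912) (P2 := 1610612736) (W2 := 536870912) (P3 := 67108864) (W3 := 67108864) (N0 := 3)
    rfl rfl rfl k0_pm_113

noncomputable def f_pm_123 : ℕ → ℕ → ℕ → ℕ → Bool := onCell 536870912 536870912 1610612736 536870912 67108864 67108864
    (rowNK 3 0 false true false .npn 1 2 3 (qsf 536870912 536870912 1610612736 536870912 2) ndN2q1 ndN2q3 pcN2 Cut.none Ext.none)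

def k0_pm_123 : ∃ t, chk3 f_pm_123 t 1 1 1 = true :=
  ⟨(a (l 4) (b (l 4) (a (l 4) (a (l 4) (a (l 198341917095) (l 17407752)))))), by decide +kernel⟩

theorem c_pm_123 : CertN 536870912 536870912 1610612736 536870912 67108864 67108864 3 false true false .npn 1 2 3
    ndN2q1 ndN2q3 pcN2 Cut.none Ext.none :=
  certNK0 (fam := false) (s1 := true) (s2 := false) (a := 1) (b := 2) (c := 3) (cn := .npn) (n1 := ndN2q1) (n2 := ndN2q3) (pc := pcN2) (cut := Cut.none) (xt := Ext.none) (P1 := 536870912) (W1 := 536870912) (P2 := 1610612736) (W2 := 536870912) (P3 := 67108864) (W3 := 67108864) (N0 := 3)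
    rfl rfl rfl k0_pm_123

noncomputable def f_pm_133 : ℕ → ℕ → ℕ → ℕ → Bool := onCell 536870912 536870912 1610612736 536870912 67108864 67108864
    (rowNK 3 0 false true false .dn 1 3 3 (qsf 536870912 536870912 1610612736 536870912 3) ndN2q1 ndN2q3 pcN3 Cut.none Ext.none)

def k0_pm_133 : ∃ t, chk3 f_pm_133 t 1 1 1 = true :=
  ⟨(a (l 4) (l 1)), by decide +kernel⟩

theorem c_pm_133 : CertN 536870912 536870912 1610612736 536870912 67108864 67108864 3 false true false .dn 1 3 3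
    ndN2q1 ndN2q3 pcN3 Cut.none Ext.none :=
  certNK0 (fam := false) (s1 := true) (s2 := false) (a := 1) (b := 3) (c := 3) (cn := .dn) (n1 := ndN2q1) (n2 := ndN2q3) (pc := pcN3) (cut := Cut.none) (xt := Ext.none) (P1 := 536870912) (W1 := 536870912) (P2 := 1610612736) (W2 := 536870912) (P3 := 67108864) (W3 := 67108864) (N0 := 3)
    rfl rfl rfl k0_pm_133

noncomputable def cut_pm_202_aa : Cut := Cut.of [[⟨0, 1, 0, 67108864⟩, ⟨1, 0, 0, 67108864⟩, ⟨2, 1, 0, 67108864⟩], [⟨0, 1, 0, 16777216⟩, ⟨1, 0, 1, 33554432⟩, ⟨2, 1, 1, 33554432⟩, ⟨1, 0, 0, 150994944⟩, ⟨1, 1, 0, 1023410176⟩, ⟨2, 1, 0, 150994944⟩, ⟨2, 2, 0, 1023410176⟩]]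

noncomputable def f_pm_202_aa : ℕ → ℕ → ℕ → ℕ → Bool := onCell 0 536870912 0 536870912 67108864 67108864
    (rowNK 3 0 false true false .pp 2 0 2 (qsf 0 536870912 0 536870912 0) ndN2q2a ndN2q2a pcN0 cut_pm_202_aa Ext.none)

def k0_pm_202_aa : ∃ t, chk3 f_pm_202_aa t 2 1 1 = true :=
  ⟨(b (l 3) (b (l 3) (l 1))), by decide +kernel⟩

def k1_pm_202_aa : ∃ t, chk3 f_pm_202_aa t 3 2 1 = true :=
  ⟨(a (l 3) (a (l 3) (a (b (l 3) (l 3)) (a (b (l 3) (l 3)) (a (b (l 3) (b (l 3) (l 3))) (b (c (l 17658200) (b (l 17117408) (b (l 17222560) (l 17112288)))) (b (c (l 17591400) (b (b (l 17128104) (l 17043960)) (c (l 17237952) (b (l 14) (l 14))))) (a (l 3) (c (b (l 17515240) (l 17445312)) (c (b (l 17122848) (c (l 17089864) (l 14))) (l 14))))))))))), by decide +kernel⟩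

def k2_pm_202_aa : ∃ t, chk3 f_pm_202_aa t 6 3 1 = true :=
  ⟨(b (l 3) (b (l 3) (l 1))), by decide +kernel⟩

def k3_pm_202_aa : ∃ t, chk3 f_pm_202_aa t 14 3 1 = true :=
  ⟨(b (l 3) (b (l 3) (a (l 1) (l 6)))), by decide +kernel⟩

def k4_pm_202_aa : ∃ t, chk3 f_pm_202_aa t 15 6 1 = true :=
  ⟨(a (l 3) (b (a (l 3) (a (l 3) (a (l 3) (c (b (c (l 17485992) (b (l 17244000) (l 17181400))) (c (l 17346984) (l 14))) (b (l 14) (l 14)))))) (a (l 3) (a (l 3) (b (a (l 3) (a (l 3) (a (l 3) (a (b (l 3) (l 3)) (c (c (b (l 17244248) (l 14)) (l 14)) (c (l 14) (b (a (l 3) (a (b (l 3) (l 3)) (b (l 14) (c (l 14) (c (l 14) (b (l 16742416) (l 16742848))))))) (b (c (l 14) (b (b (l 16743256) (l 16743480)) (b (l 16743704) (l 16743928)))) (c (b (b (l 14) (l 16746848)) (b (l 16745760) (l 16745992))) (b (b (l 16744160) (l 16744392)) (b (l 16744624) (l 16744864)))))))))))) (a (l 3) (a (l 3) (a (b (l 3) (l 3)) (a (b (l 3) (l 3)) (a (b (b (l 3) (l 3)) (b (l 3) (l 3))) (a (b (b (l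 3) (l 3)) (b (l 3) (l 3))) (c (l 14) (c (c (l 14) (b (b (l 14) (b (l 14) (b (l 14) (l 16749192)))) (b (b (b (l 16749440) (l 16749680)) (b (l 16749936) (l 16750184))) (b (b (l 16750440) (l 16750704)) (b (l 16750960) (l 16751232)))))) (b (b (c (b (b (l 16746464) (l 16746696)) (b (l 16746928) (l 16747168))) (b (l 16746096) (l 16745928))) (b (b (l 16748184) (l 16748440)) (b (l 16747384) (l 16747640)))) (b (b (b (l 16747896) (l 16748160)) (b (l 16748432) (l 16748704))) (b (b (l 16748976) (l 16749248)) (b (l 16749536) (l 16749816)))))))))))))))))), by decide +kernel⟩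

def k5_pm_202_aa : ∃ t, chk3 f_pm_202_aa t 15 7 1 = true :=
  ⟨(b (b (a (l 3) (a (l 3) (a (l 3) (a (l 3) (a (l 3) (a (b (l 3) (l 3)) (a (b (l 3) (l 3)) (b (a (b (l 3) (l 3)) (c (l 14) (b (b (a (l 3) (b (c (c (l 16753080) (l 16751496)) (l 16750104)) (c (c (l 16752688) (l 16751768)) (l 16750392)))) (b (c (c (l 16753528) (l 16751968)) (l 16750616)) (c (c (l 16753792) (l 16752248)) (l 16750912)))) (b (b (c (c (l 16753408) (l 16752528)) (l 16751216)) (c (c (l 16753680) (l 16752816)) (l 16751520))) (b (c (c (l 16753960) (l 16753112)) (l 16751824)) (c (c (l 16754240) (l 16753400)) (l 16752136))))))) (b (b (b (b (c (c (l 14) (c (l 14) (l 16755144))) (c (l 16755216) (l 16752240))) (l 6)) (l 6)) (l 6)) (l 6)))))))))) (l 6)) (l 6)), by decide +kernel⟩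

theorem s6_pm_202_aa : ∃ t, chk3 f_pm_202_aa t 15 3 1 = true := ex3_b k4_pm_202_aa k5_pm_202_aa

theorem s7_pm_202_aa : ∃ t, chk3 f_pm_202_aa t 7 3 1 = true := ex3_a k3_pm_202_aa s6_pm_202_aa

theorem s8_pm_202_aa : ∃ t, chk3 f_pm_202_aa t 3 3 1 = true := ex3_a k2_pm_202_aa s7_pm_202_aa

theorem s9_pm_202_aa : ∃ t, chk3 f_pm_202_aa t 3 1 1 = true := ex3_b k1_pm_202_aa s8_pm_202_aa

theorem s10_pm_202_aa : ∃ t, chk3 f_pm_202_aa t 1 1 1 = true := ex3_a k0_pm_202_aa s9_pm_202_aa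

theorem c_pm_202_aa : CertN 0 536870912 0 536870912 67108864 67108864 3 false true false .pp 2 0 2
    ndN2q2a ndN2q2a pcN0 cut_pm_202_aa Ext.none :=
  certNK0 (fam := false) (s1 := true) (s2 := false) (a := 2) (b := 0) (c := 2) (cn := .pp) (n1 := ndN2q2a) (n2 := ndN2q2a) (pc := pcN0) (cut := cut_pm_202_aa) (xt := Ext.none) (P1 := 0) (W1 := 536870912) (P2 := 0) (W2 := 536870912) (P3 := 67108864) (W3 := 67108864) (N0 := 3)
    rfl rfl rfl s10_pm_202_aa

noncomputable def cut_pm_202_ab : Cut := Cut.of [[⟨0, 1, 0, 67108864⟩, ⟨1, 0, 0, 67108864⟩, ⟨2, 1, 0, 67108864⟩], [⟨0, 1, 0, 16777216⟩, ⟨1, 0, 1, 33554432⟩, ⟨2, 1, 1, 33554432⟩, ⟨1, 0, 0, 150994944⟩, ⟨1, 1, 0, 1023410176⟩, ⟨2, 1, 0, 150994944⟩, ⟨2, 2, 0, 1023410176⟩]]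

noncomputable def f_pm_202_ab : ℕ → ℕ → ℕ → ℕ → Bool := onCell 0 536870912 1239849684 370763052 67108864 67108864
    (rowNK 3 0 false true false .pp 2 0 2 (qsf 0 536870912 1239849684 370763052 0) ndN2q2a ndN2q2b pcN0 cut_pm_202_ab Ext.none)

def k0_pm_202_ab : ∃ t, chk3 f_pm_202_ab t 1 1 1 = true :=
  ⟨(a (b (l 3) (l 3)) (b (b (a (l 3) (a (l 3) (a (l 3) (a (b (l 3) (l 3)) (b (c (l 17793392) (b (c (l 17449200) (b (l 17169984) (l 17288448))) (l 17478664))) (l 17743936)))))) (a (l 3) (a (l 3) (b (l 17884048) (l 18014112))))) (a (l 3) (a (l 3) (b (l 18052312) (l 18010864)))))), by decide +kernel⟩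

theorem c_pm_202_ab : CertN 0 536870912 1239849684 370763052 67108864 67108864 3 false true false .pp 2 0 2
    ndN2q2a ndN2q2b pcN0 cut_pm_202_ab Ext.none :=
  certNK0 (fam := false) (s1 := true) (s2 := false) (a := 2) (b := 0) (c := 2) (cn := .pp) (n1 := ndN2q2a) (n2 := ndN2q2b) (pc := pcN0) (cut := cut_pm_202_ab) (xt := Ext.none) (P1 := 0) (W1 := 536870912) (P2 := 1239849684) (W2 := 370763052) (P3 := 67108864) (W3 := 67108864) (N0 := 3)
    rfl rfl rfl k0_pm_202_ab

noncomputable def cut_pm_202_ba : Cut := Cut.of [[⟨0, 1, 0, 67108864⟩, ⟨1, 0, 0, 67108864⟩, ⟨2, 1, 0, 67108864⟩], [⟨0, 1, 0, 16777216⟩, ⟨1, 0, 1, 33554432⟩, ⟨2, 1, 1, 33554432⟩, ⟨1, 0, 0, 150994944⟩, ⟨1, 1, 0, 1023410176⟩, ⟨2, 1, 0, 150994944⟩, ⟨2, 2, 0, 1023410176⟩]]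

noncomputable def f_pm_202_ba : ℕ → ℕ → ℕ → ℕ → Bool := onCell 1239849684 370763052 0 536870912 67108864 67108864
    (rowNK 3 0 false true false .pp 2 0 2 (qsf 1239849684 370763052 0 536870912 0) ndN2q2b ndN2q2a pcN0 cut_pm_202_ba Ext.none)

def k0_pm_202_ba : ∃ t, chk3 f_pm_202_ba t 1 1 1 = true :=
  ⟨(b (a (l 3) (l 1)) (l 1)), by decide +kernel⟩

theorem c_pm_202_ba : CertN 1239849684 370763052 0 536870912 67108864 67108864 3 false true false .pp 2 0 2
    ndN2q2b ndN2q2a pcN0 cut_pm_202_ba Ext.none :=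
  certNK0 (fam := false) (s1 := true) (s2 := false) (a := 2) (b := 0) (c := 2) (cn := .pp) (n1 := ndN2q2b) (n2 := ndN2q2a) (pc := pcN0) (cut := cut_pm_202_ba) (xt := Ext.none) (P1 := 1239849684) (W1 := 370763052) (P2 := 0) (W2 := 536870912) (P3 := 67108864) (W3 := 67108864) (N0 := 3)
    rfl rfl rfl k0_pm_202_ba

noncomputable def cut_pm_202_bb : Cut := Cut.of [[⟨0, 1, 0, 67108864⟩, ⟨1, 0, 0, 67108864⟩, ⟨2, 1, 0, 67108864⟩], [⟨0, 1, 0, 16777216⟩, ⟨1, 0, 1, 33554432⟩, ⟨2, 1, 1, 33554432⟩, ⟨1, 0, 0, 150994944⟩, ⟨1, 1, 0, 1023410176⟩, ⟨2, 1, 0, 150994944⟩, ⟨2, 2, 0, 1023410176⟩]]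

noncomputable def f_pm_202_bb : ℕ → ℕ → ℕ → ℕ → Bool := onCell 1239849684 370763052 1239849684 370763052 67108864 67108864
    (rowNK 3 0 false true false .pp 2 0 2 (qsf 1239849684 370763052 1239849684 370763052 0) ndN2q2b ndN2q2b pcN0 cut_pm_202_bb Ext.none)

def k0_pm_202_bb : ∃ t, chk3 f_pm_202_bb t 1 1 1 = true :=
  ⟨(a (b (a (l 3) (l 3)) (l 3)) (b (l 3) (l 3))), by decide +kernel⟩

theorem c_pm_202_bb : CertN 1239849684 370763052 1239849684 370763052 67108864 67108864 3 false true false .pp 2 0 2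
    ndN2q2b ndN2q2b pcN0 cut_pm_202_bb Ext.none :=
  certNK0 (fam := false) (s1 := true) (s2 := false) (a := 2) (b := 0) (c := 2) (cn := .pp) (n1 := ndN2q2b) (n2 := ndN2q2b) (pc := pcN0) (cut := cut_pm_202_bb) (xt := Ext.none) (P1 := 1239849684) (W1 := 370763052) (P2 := 1239849684) (W2 := 370763052) (P3 := 67108864) (W3 := 67108864) (N0 := 3)
    rfl rfl rfl k0_pm_202_bb

noncomputable def f_pm_203_a : ℕ → ℕ → ℕ → ℕ → Bool := onCell 0 536870912 1610612736 536870912 67108864 67108864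
    (rowNK 3 0 false true false .up 2 0 3 (qsf 0 536870912 1610612736 536870912 0) ndN2q2a ndN2q3 pcN0 Cut.none Ext.none)

def k0_pm_203_a : ∃ t, chk3 f_pm_203_a t 1 1 1 = true :=
  ⟨(b (a (l 3) (a (l 3) (b (a (l 3) (l 18211216)) (l 2)))) (l 2)), by decide +kernel⟩

theorem c_pm_203_a : CertN 0 536870912 1610612736 536870912 67108864 67108864 3 false true false .up 2 0 3
    ndN2q2a ndN2q3 pcN0 Cut.none Ext.none :=
  certNK0 (fam := false) (s1 := true) (s2 := false) (a := 2) (b := 0) (c := 3) (cn := .up) (n1 := ndN2q2a) (n2 := ndN2q3) (pc := pcN0) (cut := Cut.none) (xt := Ext.none) (P1 := 0) (W1 := 536870912) (P2 := 1610612736) (W2 := 536870912) (P3 := 67108864) (W3 := 67108864) (N0 := 3)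
    rfl rfl rfl k0_pm_203_a

noncomputable def f_pm_203_b : ℕ → ℕ → ℕ → ℕ → Bool := onCell 1239849684 370763052 1610612736 536870912 67108864 67108864
    (rowNK 3 0 false true false .up 2 0 3 (qsf 1239849684 370763052 1610612736 536870912 0) ndN2q2b ndN2q3 pcN0 Cut.none Ext.none)

def k0_pm_203_b : ∃ t, chk3 f_pm_203_b t 1 1 1 = true :=
  ⟨(b (a (l 3) (l 3)) (l 3)), by decide +kernel⟩

theorem c_pm_203_b : CertN 1239849684 370763052 1610612736 536870912 67108864 67108864 3 false true false .up 2 0 3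
    ndN2q2b ndN2q3 pcN0 Cut.none Ext.none :=
  certNK0 (fam := false) (s1 := true) (s2 := false) (a := 2) (b := 0) (c := 3) (cn := .up) (n1 := ndN2q2b) (n2 := ndN2q3) (pc := pcN0) (cut := Cut.none) (xt := Ext.none) (P1 := 1239849684) (W1 := 370763052) (P2 := 1610612736) (W2 := 536870912) (P3 := 67108864) (W3 := 67108864) (N0 := 3)
    rfl rfl rfl k0_pm_203_b

noncomputable def cut_pm_213_a : Cut := Cut.of [[⟨0, 1, 0, 21338704⟩, ⟨1, 1, 0, 21338704⟩, ⟨2, 2, 0, 1685920⟩]]

noncomputable def f_pm_213_a : ℕ → ℕ → ℕ → ℕ → Bool := onCell 0 536870912 1610612736 536870912 67108864 67108864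
    (rowNK 3 0 false true false .pnn 2 1 3 (qsf 0 536870912 1610612736 536870912 1) ndN2q2a ndN2q3 pcN1 cut_pm_213_a Ext.none)

def k0_pm_213_a : ∃ t, chk3 f_pm_213_a t 1 1 1 = true :=
  ⟨(a (b (l 3) (l 3)) (b (a (l 3) (a (b (l 3) (l 3)) (b (l 18237560) (b (l 17733952) (l 17504944))))) (a (l 3) (b (a (l 3) (b (l 17264240) (l 17033296))) (a (l 3) (a (l 3) (b (l 16962288) (b (l 16906824) (b (l 16872104) (b (l 16866504) (a (l 3) (b (l 16823424) (a (l 3) (a (l 3) (b (l 16788488) (b (l 16789088) (l 6))))))))))))))))), by decide +kernel⟩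

theorem c_pm_213_a : CertN 0 536870912 1610612736 536870912 67108864 67108864 3 false true false .pnn 2 1 3
    ndN2q2a ndN2q3 pcN1 cut_pm_213_a Ext.none :=
  certNK0 (fam := false) (s1 := true) (s2 := false) (a := 2) (b := 1) (c := 3) (cn := .pnn) (n1 := ndN2q2a) (n2 := ndN2q3) (pc := pcN1) (cut := cut_pm_213_a) (xt := Ext.none) (P1 := 0) (W1 := 536870912) (P2 := 1610612736) (W2 := 536870912) (P3 := 67108864) (W3 := 67108864) (N0 := 3)
    rfl rfl rfl k0_pm_213_a

noncomputable def cut_pm_213_b : Cut := Cut.of [[⟨0, 1, 0, 21338704⟩, ⟨1, 1, 0, 21338704⟩, ⟨2, 2, 0, 1685920⟩]]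

noncomputable def f_pm_213_b : ℕ → ℕ → ℕ → ℕ → Bool := onCell 1239849684 370763052 1610612736 536870912 67108864 67108864
    (rowNK 3 0 false true false .pnn 2 1 3 (qsf 1239849684 370763052 1610612736 536870912 1) ndN2q2b ndN2q3 pcN1 cut_pm_213_b Ext.none)

def k0_pm_213_b : ∃ t, chk3 f_pm_213_b t 1 1 1 = true :=
  ⟨(b (a (l 3) (l 1)) (l 3)), by decide +kernel⟩

theorem c_pm_213_b : CertN 1239849684 370763052 1610612736 536870912 67108864 67108864 3 false true false .pnn 2 1 3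
    ndN2q2b ndN2q3 pcN1 cut_pm_213_b Ext.none :=
  certNK0 (fam := false) (s1 := true) (s2 := false) (a := 2) (b := 1) (c := 3) (cn := .pnn) (n1 := ndN2q2b) (n2 := ndN2q3) (pc := pcN1) (cut := cut_pm_213_b) (xt := Ext.none) (P1 := 1239849684) (W1 := 370763052) (P2 := 1610612736) (W2 := 536870912) (P3 := 67108864) (W3 := 67108864) (N0 := 3)
    rfl rfl rfl k0_pm_213_b

noncomputable def f_pm_303 : ℕ → ℕ → ℕ → ℕ → Bool := onCell 1610612736 536870912 1610612736 536870912 67108864 67108864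
    (rowNK 3 0 false true false .npn 3 0 3 (qsf 1610612736 536870912 1610612736 536870912 0) ndN2q3 ndN2q3 pcN0 Cut.none Ext.none)

def k0_pm_303 : ∃ t, chk3 f_pm_303 t 1 1 1 = true :=
  ⟨(a (l 3) (l 3)), by decide +kernel⟩

theorem c_pm_303 : CertN 1610612736 536870912 1610612736 536870912 67108864 67108864 3 false true false .npn 3 0 3
    ndN2q3 ndN2q3 pcN0 Cut.none Ext.none :=
  certNK0 (fam := false) (s1 := true) (s2 := false) (a := 3) (b := 0) (c := 3) (cn := .npn) (n1 := ndN2q3) (n2 := ndN2q3) (pc := pcN0) (cut := Cut.none) (xt := Ext.none) (P1 := 1610612736) (W1 := 536870912) (P2 := 1610612736) (W2 := 536870912) (P3 := 67108864) (W3 := 67108864) (N0 := 3)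
    rfl rfl rfl k0_pm_303

noncomputable def f_pm_313 : ℕ → ℕ → ℕ → ℕ → Bool := onCell 1610612736 536870912 1610612736 536870912 67108864 67108864
    (rowNK 3 0 false true false .dn 3 1 3 (qsf 1610612736 536870912 1610612736 536870912 1) ndN2q3 ndN2q3 pcN1 Cut.none Ext.none)

def k0_pm_313 : ∃ t, chk3 f_pm_313 t 1 1 1 = true :=
  ⟨(a (l 3) (l 1)), by decide +kernel⟩

theorem c_pm_313 : CertN 1610612736 536870912 1610612736 536870912 67108864 67108864 3 false true false .dn 3 1 3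
    ndN2q3 ndN2q3 pcN1 Cut.none Ext.none :=
  certNK0 (fam := false) (s1 := true) (s2 := false) (a := 3) (b := 1) (c := 3) (cn := .dn) (n1 := ndN2q3) (n2 := ndN2q3) (pc := pcN1) (cut := Cut.none) (xt := Ext.none) (P1 := 1610612736) (W1 := 536870912) (P2 := 1610612736) (W2 := 536870912) (P3 := 67108864) (W3 := 67108864) (N0 := 3)
    rfl rfl rfl k0_pm_313

noncomputable def f_mm_001 : ℕ → ℕ → ℕ → ℕ → Bool := onCell 0 536870912 0 536870912 67108864 67108864
    (rowNK 3 1 false false false .up 0 0 1 (qsf 0 536870912 536870912 536870912 0) ndN2q0 ndN2q1 pcN0 Cut.none Ext.none)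

def k0_mm_001 : ∃ t, chk3 f_mm_001 t 1 1 1 = true :=
  ⟨(l 3), by decide +kernel⟩

theorem c_mm_001 : CertN 0 536870912 536870912 536870912 67108864 67108864 3 false false false .up 0 0 1
    ndN2q0 ndN2q1 pcN0 Cut.none Ext.none :=
  certNK1 (fam := false) (s1 := false) (s2 := false) (a := 0) (b := 0) (c := 1) (cn := .up) (n1 := ndN2q0) (n2 := ndN2q1) (pc := pcN0) (cut := Cut.none) (xt := Ext.none) (P1 := 0) (W1 := 536870912) (P2 := 536870912) (W2 := 536870912) (P3 := 67108864) (W3 := 67108864) (N0 := 3)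
    rfl rfl rfl (fun _ => rfl) k0_mm_001

noncomputable def f_mm_011 : ℕ → ℕ → ℕ → ℕ → Bool := onCell 0 536870912 536870912 536870912 67108864 67108864
    (rowNK 3 1 false false false .pnn 0 1 1 (qsf 0 536870912 536870912 536870912 1) ndN2q0 ndN2q1 pcN1 Cut.none Ext.none)

def k0_mm_011 : ∃ t, chk3 f_mm_011 t 1 1 1 = true :=
  ⟨(l 5), by decide +kernel⟩

theorem c_mm_011 : CertN 0 536870912 536870912 536870912 67108864 67108864 3 false false false .pnn 0 1 1
    ndN2q0 ndN2q1 pcN1 Cut.none Ext.none :=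
  certNK1 (fam := false) (s1 := false) (s2 := false) (a := 0) (b := 1) (c := 1) (cn := .pnn) (n1 := ndN2q0) (n2 := ndN2q1) (pc := pcN1) (cut := Cut.none) (xt := Ext.none) (P1 := 0) (W1 := 536870912) (P2 := 536870912) (W2 := 536870912) (P3 := 67108864) (W3 := 67108864) (N0 := 3)
    rfl rfl rfl (fun _ => rfl) k0_mm_011

noncomputable def f_mm_012_a : ℕ → ℕ → ℕ → ℕ → Bool := onCell 0 536870912 0 536870912 67108864 67108864
    (rowNK 3 0 false false false .pnp 0 1 2 (qsf 0 536870912 0 536870912 1) ndN2q0 ndN2q2a pcN1 Cut.none Ext.none)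

def k0_mm_012_a : ∃ t, chk3 f_mm_012_a t 1 1 1 = true :=
  ⟨(l 5), by decide +kernel⟩

theorem c_mm_012_a : CertN 0 536870912 0 536870912 67108864 67108864 3 false false false .pnp 0 1 2
    ndN2q0 ndN2q2a pcN1 Cut.none Ext.none :=
  certNK0 (fam := false) (s1 := false) (s2 := false) (a := 0) (b := 1) (c := 2) (cn := .pnp) (n1 := ndN2q0) (n2 := ndN2q2a) (pc := pcN1) (cut := Cut.none) (xt := Ext.none) (P1 := 0) (W1 := 536870912) (P2 := 0) (W2 := 536870912) (P3 := 67108864) (W3 := 67108864) (N0 := 3)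
    rfl rfl rfl k0_mm_012_a

noncomputable def f_mm_012_b : ℕ → ℕ → ℕ → ℕ → Bool := onCell 0 536870912 1239849684 370763052 67108864 67108864
    (rowNK 3 0 false false false .pnp 0 1 2 (qsf 0 536870912 1239849684 370763052 1) ndN2q0 ndN2q2b pcN1 Cut.none Ext.none)

def k0_mm_012_b : ∃ t, chk3 f_mm_012_b t 1 1 1 = true :=
  ⟨(l 5), by decide +kernel⟩

theorem c_mm_012_b : CertN 0 536870912 1239849684 370763052 67108864 67108864 3 false false false .pnp 0 1 2
    ndN2q0 ndN2q2b pcN1 Cut.none Ext.none :=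
  certNK0 (fam := false) (s1 := false) (s2 := false) (a := 0) (b := 1) (c := 2) (cn := .pnp) (n1 := ndN2q0) (n2 := ndN2q2b) (pc := pcN1) (cut := Cut.none) (xt := Ext.none) (P1 := 0) (W1 := 536870912) (P2 := 1239849684) (W2 := 370763052) (P3 := 67108864) (W3 := 67108864) (N0 := 3)
    rfl rfl rfl k0_mm_012_b

noncomputable def f_mm_022_a : ℕ → ℕ → ℕ → ℕ → Bool := onCell 0 536870912 0 536870912 67108864 67108864
    (rowNK 3 0 false false false .pp 0 2 2 (qsf 0 536870912 0 536870912 2) ndN2q0 ndN2q2a pcN2 Cut.none Ext.none)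

def k0_mm_022_a : ∃ t, chk3 f_mm_022_a t 1 1 1 = true :=
  ⟨(l 5), by decide +kernel⟩

theorem c_mm_022_a : CertN 0 536870912 0 536870912 67108864 67108864 3 false false false .pp 0 2 2
    ndN2q0 ndN2q2a pcN2 Cut.none Ext.none :=
  certNK0 (fam := false) (s1 := false) (s2 := false) (a := 0) (b := 2) (c := 2) (cn := .pp) (n1 := ndN2q0) (n2 := ndN2q2a) (pc := pcN2) (cut := Cut.none) (xt := Ext.none) (P1 := 0) (W1 := 536870912) (P2 := 0) (W2 := 536870912) (P3 := 67108864) (W3 := 67108864) (N0 := 3)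
    rfl rfl rfl k0_mm_022_a

noncomputable def f_mm_022_b : ℕ → ℕ → ℕ → ℕ → Bool := onCell 0 536870912 1239849684 370763052 67108864 67108864
    (rowNK 3 0 false false false .pp 0 2 2 (qsf 0 536870912 1239849684 370763052 2) ndN2q0 ndN2q2b pcN2 Cut.none Ext.none)

def k0_mm_022_b : ∃ t, chk3 f_mm_022_b t 1 1 1 = true :=
  ⟨(l 5), by decide +kernel⟩

theorem c_mm_022_b : CertN 0 536870912 1239849684 370763052 67108864 67108864 3 false false false .pp 0 2 2
    ndN2q0 ndN2q2b pcN2 Cut.none Ext.none :=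
  certNK0 (fam := false) (s1 := false) (s2 := false) (a := 0) (b := 2) (c := 2) (cn := .pp) (n1 := ndN2q0) (n2 := ndN2q2b) (pc := pcN2) (cut := Cut.none) (xt := Ext.none) (P1 := 0) (W1 := 536870912) (P2 := 1239849684) (W2 := 370763052) (P3 := 67108864) (W3 := 67108864) (N0 := 3)
    rfl rfl rfl k0_mm_022_b

noncomputable def f_mm_023 : ℕ → ℕ → ℕ → ℕ → Bool := onCell 0 536870912 1610612736 536870912 67108864 67108864
    (rowNK 3 0 false false false .up 0 2 3 (qsf 0 536870912 1610612736 536870912 2) ndN2q0 ndN2q3 pcN2 Cut.none Ext.none)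

def k0_mm_023 : ∃ t, chk3 f_mm_023 t 1 1 1 = true :=
  ⟨(l 5), by decide +kernel⟩

theorem c_mm_023 : CertN 0 536870912 1610612736 536870912 67108864 67108864 3 false false false .up 0 2 3
    ndN2q0 ndN2q3 pcN2 Cut.none Ext.none :=
  certNK0 (fam := false) (s1 := false) (s2 := false) (a := 0) (b := 2) (c := 3) (cn := .up) (n1 := ndN2q0) (n2 := ndN2q3) (pc := pcN2) (cut := Cut.none) (xt := Ext.none) (P1 := 0) (W1 := 536870912) (P2 := 1610612736) (W2 := 536870912) (P3 := 67108864) (W3 := 67108864) (N0 := 3)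
    rfl rfl rfl k0_mm_023

noncomputable def f_mm_033 : ℕ → ℕ → ℕ → ℕ → Bool := onCell 0 536870912 1610612736 536870912 67108864 67108864
    (rowNK 3 0 false false false .pnn 0 3 3 (qsf 0 536870912 1610612736 536870912 3) ndN2q0 ndN2q3 pcN3 Cut.none Ext.none)

def k0_mm_033 : ∃ t, chk3 f_mm_033 t 1 1 1 = true :=
  ⟨(l 5), by decide +kernel⟩

theorem c_mm_033 : CertN 0 536870912 1610612736 536870912 67108864 67108864 3 false false false .pnn 0 3 3
    ndN2q0 ndN2q3 pcN3 Cut.none Ext.none :=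
  certNK0 (fam := false) (s1 := false) (s2 := false) (a := 0) (b := 3) (c := 3) (cn := .pnn) (n1 := ndN2q0) (n2 := ndN2q3) (pc := pcN3) (cut := Cut.none) (xt := Ext.none) (P1 := 0) (W1 := 536870912) (P2 := 1610612736) (W2 := 536870912) (P3 := 67108864) (W3 := 67108864) (N0 := 3)
    rfl rfl rfl k0_mm_033

noncomputable def f_mm_101 : ℕ → ℕ → ℕ → ℕ → Bool := onCell 536870912 536870912 536870912 536870912 67108864 67108864
    (rowNK 3 0 false false false .npn 1 0 1 (qsf 536870912 536870912 536870912 536870912 0) ndN2q1 ndN2q1 pcN0 Cut.none Ext.none)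

def k0_mm_101 : ∃ t, chk3 f_mm_101 t 1 1 1 = true :=
  ⟨(l 3), by decide +kernel⟩

theorem c_mm_101 : CertN 536870912 536870912 536870912 536870912 67108864 67108864 3 false false false .npn 1 0 1
    ndN2q1 ndN2q1 pcN0 Cut.none Ext.none :=
  certNK0 (fam := false) (s1 := false) (s2 := false) (a := 1) (b := 0) (c := 1) (cn := .npn) (n1 := ndN2q1) (n2 := ndN2q1) (pc := pcN0) (cut := Cut.none) (xt := Ext.none) (P1 := 536870912) (W1 := 536870912) (P2 := 536870912) (W2 := 536870912) (P3 := 67108864) (W3 := 67108864) (N0 := 3)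
    rfl rfl rfl k0_mm_101

noncomputable def f_mm_102_a : ℕ → ℕ → ℕ → ℕ → Bool := onCell 536870912 536870912 0 536870912 67108864 67108864
    (rowNK 3 0 false false false .npp 1 0 2 (qsf 536870912 536870912 0 536870912 0) ndN2q1 ndN2q2a pcN0 Cut.none Ext.none)

def k0_mm_102_a : ∃ t, chk3 f_mm_102_a t 1 1 1 = true :=
  ⟨(l 5), by decide +kernel⟩

theorem c_mm_102_a : CertN 536870912 536870912 0 536870912 67108864 67108864 3 false false false .npp 1 0 2
    ndN2q1 ndN2q2a pcN0 Cut.none Ext.none :=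
  certNK0 (fam := false) (s1 := false) (s2 := false) (a := 1) (b := 0) (c := 2) (cn := .npp) (n1 := ndN2q1) (n2 := ndN2q2a) (pc := pcN0) (cut := Cut.none) (xt := Ext.none) (P1 := 536870912) (W1 := 536870912) (P2 := 0) (W2 := 536870912) (P3 := 67108864) (W3 := 67108864) (N0 := 3)
    rfl rfl rfl k0_mm_102_a

noncomputable def f_mm_102_b : ℕ → ℕ → ℕ → ℕ → Bool := onCell 536870912 536870912 1239849684 370763052 67108864 67108864
    (rowNK 3 0 false false false .npp 1 0 2 (qsf 536870912 536870912 1239849684 370763052 0) ndN2q1 ndN2q2b pcN0 Cut.none Ext.none)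

def k0_mm_102_b : ∃ t, chk3 f_mm_102_b t 1 1 1 = true :=
  ⟨(l 5), by decide +kernel⟩

theorem c_mm_102_b : CertN 536870912 536870912 1239849684 370763052 67108864 67108864 3 false false false .npp 1 0 2
    ndN2q1 ndN2q2b pcN0 Cut.none Ext.none :=
  certNK0 (fam := false) (s1 := false) (s2 := false) (a := 1) (b := 0) (c := 2) (cn := .npp) (n1 := ndN2q1) (n2 := ndN2q2b) (pc := pcN0) (cut := Cut.none) (xt := Ext.none) (P1 := 536870912) (W1 := 536870912) (P2 := 1239849684) (W2 := 370763052) (P3 := 67108864) (W3 := 67108864) (N0 := 3)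
    rfl rfl rfl k0_mm_102_b

noncomputable def f_mm_112_a : ℕ → ℕ → ℕ → ℕ → Bool := onCell 536870912 536870912 0 536870912 67108864 67108864
    (rowNK 3 0 false false false .dn 1 1 2 (qsf 536870912 536870912 0 536870912 1) ndN2q1 ndN2q2a pcN1 Cut.none Ext.none)

def k0_mm_112_a : ∃ t, chk3 f_mm_112_a t 1 1 1 = true :=
  ⟨(l 5), by decide +kernel⟩

theorem c_mm_112_a : CertN 536870912 536870912 0 536870912 67108864 67108864 3 false false false .dn 1 1 2
    ndN2q1 ndN2q2a pcN1 Cut.none Ext.none :=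
  certNK0 (fam := false) (s1 := false) (s2 := false) (a := 1) (b := 1) (c := 2) (cn := .dn) (n1 := ndN2q1) (n2 := ndN2q2a) (pc := pcN1) (cut := Cut.none) (xt := Ext.none) (P1 := 536870912) (W1 := 536870912) (P2 := 0) (W2 := 536870912) (P3 := 67108864) (W3 := 67108864) (N0 := 3)
    rfl rfl rfl k0_mm_112_a

noncomputable def f_mm_112_b : ℕ → ℕ → ℕ → ℕ → Bool := onCell 536870912 536870912 1239849684 370763052 67108864 67108864
    (rowNK 3 0 false false false .dn 1 1 2 (qsf 536870912 536870912 1239849684 370763052 1) ndN2q1 ndN2q2b pcN1 Cut.none Ext.none)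

def k0_mm_112_b : ∃ t, chk3 f_mm_112_b t 1 1 1 = true :=
  ⟨(l 5), by decide +kernel⟩

theorem c_mm_112_b : CertN 536870912 536870912 1239849684 370763052 67108864 67108864 3 false false false .dn 1 1 2
    ndN2q1 ndN2q2b pcN1 Cut.none Ext.none :=
  certNK0 (fam := false) (s1 := false) (s2 := false) (a := 1) (b := 1) (c := 2) (cn := .dn) (n1 := ndN2q1) (n2 := ndN2q2b) (pc := pcN1) (cut := Cut.none) (xt := Ext.none) (P1 := 536870912) (W1 := 536870912) (P2 := 1239849684) (W2 := 370763052) (P3 := 67108864) (W3 := 67108864) (N0 := 3)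
    rfl rfl rfl k0_mm_112_b

noncomputable def f_mm_113 : ℕ → ℕ → ℕ → ℕ → Bool := onCell 536870912 536870912 1610612736 536870912 67108864 67108864
    (rowNK 3 0 false false false .nn 1 1 3 (qsf 536870912 536870912 1610612736 536870912 1) ndN2q1 ndN2q3 pcN1 Cut.none Ext.none)

def k0_mm_113 : ∃ t, chk3 f_mm_113 t 1 1 1 = true :=
  ⟨(l 5), by decide +kernel⟩

theorem c_mm_113 : CertN 536870912 536870912 1610612736 536870912 67108864 67108864 3 false false false .nn 1 1 3
    ndN2q1 ndN2q3 pcN1 Cut.none Ext.none :=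
  certNK0 (fam := false) (s1 := false) (s2 := false) (a := 1) (b := 1) (c := 3) (cn := .nn) (n1 := ndN2q1) (n2 := ndN2q3) (pc := pcN1) (cut := Cut.none) (xt := Ext.none) (P1 := 536870912) (W1 := 536870912) (P2 := 1610612736) (W2 := 536870912) (P3 := 67108864) (W3 := 67108864) (N0 := 3)
    rfl rfl rfl k0_mm_113

noncomputable def f_mm_123 : ℕ → ℕ → ℕ → ℕ → Bool := onCell 536870912 536870912 1610612736 536870912 67108864 67108864
    (rowNK 3 0 false false false .npn 1 2 3 (qsf 536870912 536870912 1610612736 536870912 2) ndN2q1 ndN2q3 pcN2 Cut.none Ext.none)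

def k0_mm_123 : ∃ t, chk3 f_mm_123 t 1 1 1 = true :=
  ⟨(l 5), by decide +kernel⟩

theorem c_mm_123 : CertN 536870912 536870912 1610612736 536870912 67108864 67108864 3 false false false .npn 1 2 3
    ndN2q1 ndN2q3 pcN2 Cut.none Ext.none :=
  certNK0 (fam := false) (s1 := false) (s2 := false) (a := 1) (b := 2) (c := 3) (cn := .npn) (n1 := ndN2q1) (n2 := ndN2q3) (pc := pcN2) (cut := Cut.none) (xt := Ext.none) (P1 := 536870912) (W1 := 536870912) (P2 := 1610612736) (W2 := 536870912) (P3 := 67108864) (W3 := 67108864) (N0 := 3)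
    rfl rfl rfl k0_mm_123

noncomputable def f_mm_133 : ℕ → ℕ → ℕ → ℕ → Bool := onCell 536870912 536870912 1610612736 536870912 67108864 67108864
    (rowNK 3 0 false false false .dn 1 3 3 (qsf 536870912 536870912 1610612736 536870912 3) ndN2q1 ndN2q3 pcN3 Cut.none Ext.none)

def k0_mm_133 : ∃ t, chk3 f_mm_133 t 1 1 1 = true :=
  ⟨(l 5), by decide +kernel⟩

theorem c_mm_133 : CertN 536870912 536870912 1610612736 536870912 67108864 67108864 3 false false false .dn 1 3 3
    ndN2q1 ndN2q3 pcN3 Cut.none Ext.none :=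
  certNK0 (fam := false) (s1 := false) (s2 := false) (a := 1) (b := 3) (c := 3) (cn := .dn) (n1 := ndN2q1) (n2 := ndN2q3) (pc := pcN3) (cut := Cut.none) (xt := Ext.none) (P1 := 536870912) (W1 := 536870912) (P2 := 1610612736) (W2 := 536870912) (P3 := 67108864) (W3 := 67108864) (N0 := 3)
    rfl rfl rfl k0_mm_133

noncomputable def f_mm_202_aa : ℕ → ℕ → ℕ → ℕ → Bool := onCell 0 536870912 0 536870912 67108864 67108864
    (rowNK 3 0 false false false .pp 2 0 2 (qsf 0 536870912 0 536870912 0) ndN2q2a ndN2q2a pcN0 Cut.none Ext.none)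

def k0_mm_202_aa : ∃ t, chk3 f_mm_202_aa t 1 1 1 = true :=
  ⟨(l 3), by decide +kernel⟩

theorem c_mm_202_aa : CertN 0 536870912 0 536870912 67108864 67108864 3 false false false .pp 2 0 2
    ndN2q2a ndN2q2a pcN0 Cut.none Ext.none :=
  certNK0 (fam := false) (s1 := false) (s2 := false) (a := 2) (b := 0) (c := 2) (cn := .pp) (n1 := ndN2q2a) (n2 := ndN2q2a) (pc := pcN0) (cut := Cut.none) (xt := Ext.none) (P1 := 0) (W1 := 536870912) (P2 := 0) (W2 := 536870912) (P3 := 67108864) (W3 := 67108864) (N0 := 3)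
    rfl rfl rfl k0_mm_202_aa

noncomputable def f_mm_202_ab : ℕ → ℕ → ℕ → ℕ → Bool := onCell 0 536870912 1239849684 370763052 67108864 67108864
    (rowNK 3 0 false false false .pp 2 0 2 (qsf 0 536870912 1239849684 370763052 0) ndN2q2a ndN2q2b pcN0 Cut.none Ext.none)

def k0_mm_202_ab : ∃ t, chk3 f_mm_202_ab t 1 1 1 = true :=
  ⟨(l 3), by decide +kernel⟩

theorem c_mm_202_ab : CertN 0 536870912 1239849684 370763052 67108864 67108864 3 false false false .pp 2 0 2
    ndN2q2a ndN2q2b pcN0 Cut.none Ext.none :=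
  certNK0 (fam := false) (s1 := false) (s2 := false) (a := 2) (b := 0) (c := 2) (cn := .pp) (n1 := ndN2q2a) (n2 := ndN2q2b) (pc := pcN0) (cut := Cut.none) (xt := Ext.none) (P1 := 0) (W1 := 536870912) (P2 := 1239849684) (W2 := 370763052) (P3 := 67108864) (W3 := 67108864) (N0 := 3)
    rfl rfl rfl k0_mm_202_ab

noncomputable def f_mm_202_ba : ℕ → ℕ → ℕ → ℕ → Bool := onCell 1239849684 370763052 0 536870912 67108864 67108864
    (rowNK 3 0 false false false .pp 2 0 2 (qsf 1239849684 370763052 0 536870912 0) ndN2q2b ndN2q2a pcN0 Cut.none Ext.none)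

def k0_mm_202_ba : ∃ t, chk3 f_mm_202_ba t 1 1 1 = true :=
  ⟨(l 3), by decide +kernel⟩

theorem c_mm_202_ba : CertN 1239849684 370763052 0 536870912 67108864 67108864 3 false false false .pp 2 0 2
    ndN2q2b ndN2q2a pcN0 Cut.none Ext.none :=
  certNK0 (fam := false) (s1 := false) (s2 := false) (a := 2) (b := 0) (c := 2) (cn := .pp) (n1 := ndN2q2b) (n2 := ndN2q2a) (pc := pcN0) (cut := Cut.none) (xt := Ext.none) (P1 := 1239849684) (W1 := 370763052) (P2 := 0) (W2 := 536870912) (P3 := 67108864) (W3 := 67108864) (N0 := 3)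
    rfl rfl rfl k0_mm_202_ba

noncomputable def f_mm_202_bb : ℕ → ℕ → ℕ → ℕ → Bool := onCell 1239849684 370763052 1239849684 370763052 67108864 67108864
    (rowNK 3 0 false false false .pp 2 0 2 (qsf 1239849684 370763052 1239849684 370763052 0) ndN2q2b ndN2q2b pcN0 Cut.none Ext.none)

def k0_mm_202_bb : ∃ t, chk3 f_mm_202_bb t 1 1 1 = true :=
  ⟨(l 3), by decide +kernel⟩

theorem c_mm_202_bb : CertN 1239849684 370763052 1239849684 370763052 67108864 67108864 3 false false false .pp 2 0 2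
    ndN2q2b ndN2q2b pcN0 Cut.none Ext.none :=
  certNK0 (fam := false) (s1 := false) (s2 := false) (a := 2) (b := 0) (c := 2) (cn := .pp) (n1 := ndN2q2b) (n2 := ndN2q2b) (pc := pcN0) (cut := Cut.none) (xt := Ext.none) (P1 := 1239849684) (W1 := 370763052) (P2 := 1239849684) (W2 := 370763052) (P3 := 67108864) (W3 := 67108864) (N0 := 3)
    rfl rfl rfl k0_mm_202_bb

noncomputable def f_mm_203_a : ℕ → ℕ → ℕ → ℕ → Bool := onCell 0 536870912 1610612736 536870912 67108864 67108864
    (rowNK 3 0 false false false .up 2 0 3 (qsf 0 536870912 1610612736 536870912 0) ndN2q2a ndN2q3 pcN0 Cut.none Ext.none)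

def k0_mm_203_a : ∃ t, chk3 f_mm_203_a t 1 1 1 = true :=
  ⟨(l 5), by decide +kernel⟩

theorem c_mm_203_a : CertN 0 536870912 1610612736 536870912 67108864 67108864 3 false false false .up 2 0 3
    ndN2q2a ndN2q3 pcN0 Cut.none Ext.none :=
  certNK0 (fam := false) (s1 := false) (s2 := false) (a := 2) (b := 0) (c := 3) (cn := .up) (n1 := ndN2q2a) (n2 := ndN2q3) (pc := pcN0) (cut := Cut.none) (xt := Ext.none) (P1 := 0) (W1 := 536870912) (P2 := 1610612736) (W2 := 536870912) (P3 := 67108864) (W3 := 67108864) (N0 := 3)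
    rfl rfl rfl k0_mm_203_a

noncomputable def f_mm_203_b : ℕ → ℕ → ℕ → ℕ → Bool := onCell 1239849684 370763052 1610612736 536870912 67108864 67108864
    (rowNK 3 0 false false false .up 2 0 3 (qsf 1239849684 370763052 1610612736 536870912 0) ndN2q2b ndN2q3 pcN0 Cut.none Ext.none)

def k0_mm_203_b : ∃ t, chk3 f_mm_203_b t 1 1 1 = true :=
  ⟨(l 3), by decide +kernel⟩

theorem c_mm_203_b : CertN 1239849684 370763052 1610612736 536870912 67108864 67108864 3 false false false .up 2 0 3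
    ndN2q2b ndN2q3 pcN0 Cut.none Ext.none :=
  certNK0 (fam := false) (s1 := false) (s2 := false) (a := 2) (b := 0) (c := 3) (cn := .up) (n1 := ndN2q2b) (n2 := ndN2q3) (pc := pcN0) (cut := Cut.none) (xt := Ext.none) (P1 := 1239849684) (W1 := 370763052) (P2 := 1610612736) (W2 := 536870912) (P3 := 67108864) (W3 := 67108864) (N0 := 3)
    rfl rfl rfl k0_mm_203_b

noncomputable def f_mm_213_a : ℕ → ℕ → ℕ → ℕ → Bool := onCell 0 536870912 1610612736 536870912 67108864 67108864
    (rowNK 3 0 false false false .pnn 2 1 3 (qsf 0 536870912 1610612736 536870912 1) ndN2q2a ndN2q3 pcN1 Cut.none Ext.none)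

def k0_mm_213_a : ∃ t, chk3 f_mm_213_a t 1 1 1 = true :=
  ⟨(l 5), by decide +kernel⟩

theorem c_mm_213_a : CertN 0 536870912 1610612736 536870912 67108864 67108864 3 false false false .pnn 2 1 3
    ndN2q2a ndN2q3 pcN1 Cut.none Ext.none :=
  certNK0 (fam := false) (s1 := false) (s2 := false) (a := 2) (b := 1) (c := 3) (cn := .pnn) (n1 := ndN2q2a) (n2 := ndN2q3) (pc := pcN1) (cut := Cut.none) (xt := Ext.none) (P1 := 0) (W1 := 536870912) (P2 := 1610612736) (W2 := 536870912) (P3 := 67108864) (W3 := 67108864) (N0 := 3)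
    rfl rfl rfl k0_mm_213_a

noncomputable def f_mm_213_b : ℕ → ℕ → ℕ → ℕ → Bool := onCell 1239849684 370763052 1610612736 536870912 67108864 67108864
    (rowNK 3 0 false false false .pnn 2 1 3 (qsf 1239849684 370763052 1610612736 536870912 1) ndN2q2b ndN2q3 pcN1 Cut.none Ext.none)

def k0_mm_213_b : ∃ t, chk3 f_mm_213_b t 1 1 1 = true :=
  ⟨(l 3), by decide +kernel⟩

theorem c_mm_213_b : CertN 1239849684 370763052 1610612736 536870912 67108864 67108864 3 false false false .pnn 2 1 3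
    ndN2q2b ndN2q3 pcN1 Cut.none Ext.none :=
  certNK0 (fam := false) (s1 := false) (s2 := false) (a := 2) (b := 1) (c := 3) (cn := .pnn) (n1 := ndN2q2b) (n2 := ndN2q3) (pc := pcN1) (cut := Cut.none) (xt := Ext.none) (P1 := 1239849684) (W1 := 370763052) (P2 := 1610612736) (W2 := 536870912) (P3 := 67108864) (W3 := 67108864) (N0 := 3)
    rfl rfl rfl k0_mm_213_b

noncomputable def f_mm_303 : ℕ → ℕ → ℕ → ℕ → Bool := onCell 1610612736 536870912 1610612736 536870912 67108864 67108864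
    (rowNK 3 0 false false false .npn 3 0 3 (qsf 1610612736 536870912 1610612736 536870912 0) ndN2q3 ndN2q3 pcN0 Cut.none Ext.none)

def k0_mm_303 : ∃ t, chk3 f_mm_303 t 1 1 1 = true :=
  ⟨(l 3), by decide +kernel⟩

theorem c_mm_303 : CertN 1610612736 536870912 1610612736 536870912 67108864 67108864 3 false false false .npn 3 0 3
    ndN2q3 ndN2q3 pcN0 Cut.none Ext.none :=
  certNK0 (fam := false) (s1 := false) (s2 := false) (a := 3) (b := 0) (c := 3) (cn := .npn) (n1 := ndN2q3) (n2 := ndN2q3) (pc := pcN0) (cut := Cut.none) (xt := Ext.none) (P1 := 1610612736) (W1 := 536870912) (P2 := 1610612736) (W2 := 536870912) (P3 := 67108864) (W3 := 67108864) (N0 := 3)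
    rfl rfl rfl k0_mm_303

noncomputable def f_mm_313 : ℕ → ℕ → ℕ → ℕ → Bool := onCell 1610612736 536870912 1610612736 536870912 67108864 67108864
    (rowNK 3 0 false false false .dn 3 1 3 (qsf 1610612736 536870912 1610612736 536870912 1) ndN2q3 ndN2q3 pcN1 Cut.none Ext.none)

def k0_mm_313 : ∃ t, chk3 f_mm_313 t 1 1 1 = true :=
  ⟨(l 3), by decide +kernel⟩

theorem c_mm_313 : CertN 1610612736 536870912 1610612736 536870912 67108864 67108864 3 false false false .dn 3 1 3
    ndN2q3 ndN2q3 pcN1 Cut.none Ext.none :=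
  certNK0 (fam := false) (s1 := false) (s2 := false) (a := 3) (b := 1) (c := 3) (cn := .dn) (n1 := ndN2q3) (n2 := ndN2q3) (pc := pcN1) (cut := Cut.none) (xt := Ext.none) (P1 := 1610612736) (W1 := 536870912) (P2 := 1610612736) (W2 := 536870912) (P3 := 67108864) (W3 := 67108864) (N0 := 3)
    rfl rfl rfl k0_mm_313

end Pool.Agent.Strip051.G.I1_16_1_8.Tab.C.NB22

namespace Pool.Agent.Strip051.G.I1_16_1_8.Tab.C.NB23

open Pool.Agent.Strip051.PB Pool.Agent.Strip051.PB.T
open Pool.Agent.Strip051.G.I1_16_1_8.Tab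

noncomputable def f_pp_001 : ℕ → ℕ → ℕ → ℕ → Bool := onCell 0 536870912 0 536870912 67108864 67108864
    (rowNK 3 1 false true true .up 0 0 1 (qsf 0 536870912 536870912 536870912 0) ndN2q0 ndN3q1 pcN0 Cut.none Ext.none)

def k0_pp_001 : ∃ t, chk3 f_pp_001 t 1 1 1 = true :=
  ⟨(l 3), by decide +kernel⟩

theorem c_pp_001 : CertN 0 536870912 536870912 536870912 67108864 67108864 3 false true true .up 0 0 1
    ndN2q0 ndN3q1 pcN0 Cut.none Ext.none :=
  certNK1 (fam := false) (s1 := true) (s2 := true) (a := 0) (b := 0) (c := 1) (cn := .up) (n1 := ndN2q0) (n2 := ndN3q1) (pc := pcN0) (cut := Cut.none) (xt := Ext.none) (P1 := 0) (W1 := 536870912) (P2 := 536870912) (W2 := 536870912) (P3 := 67108864) (W3 := 67108864) (N0 := 3)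
    rfl rfl rfl (fun _ => rfl) k0_pp_001

noncomputable def cut_pp_011 : Cut := Cut.of [[⟨0, 0, 0, 67108864⟩, ⟨1, 1, 0, 67108864⟩, ⟨2, 1, 0, 67108864⟩]]

noncomputable def f_pp_011 : ℕ → ℕ → ℕ → ℕ → Bool := onCell 0 536870912 536870912 536870912 67108864 67108864
    (rowNK 3 1 false true true .pnn 0 1 1 (qsf 0 536870912 536870912 536870912 1) ndN2q0 ndN3q1 pcN1 cut_pp_011 Ext.none)

def k0_pp_011 : ∃ t, chk3 f_pp_011 t 1 1 1 = true :=
  ⟨(b (l 3) (a (b (l 3) (a (b (l 3) (a (b (l 3) (a (l 6) (l 3))) (l 3))) (l 3))) (l 3))), by decide +kernel⟩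

theorem c_pp_011 : CertN 0 536870912 536870912 536870912 67108864 67108864 3 false true true .pnn 0 1 1
    ndN2q0 ndN3q1 pcN1 cut_pp_011 Ext.none :=
  certNK1 (fam := false) (s1 := true) (s2 := true) (a := 0) (b := 1) (c := 1) (cn := .pnn) (n1 := ndN2q0) (n2 := ndN3q1) (pc := pcN1) (cut := cut_pp_011) (xt := Ext.none) (P1 := 0) (W1 := 536870912) (P2 := 536870912) (W2 := 536870912) (P3 := 67108864) (W3 := 67108864) (N0 := 3)
    rfl rfl rfl (fun _ => rfl) k0_pp_011

noncomputable def f_pp_012 : ℕ → ℕ → ℕ → ℕ → Bool := onCell 0 536870912 536870912 536870912 67108864 67108864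
    (rowNK 3 1 false true true .pnp 0 1 2 (qsf 0 536870912 1073741824 536870912 1) ndN2q0 ndN3q2 pcN1 Cut.none Ext.none)

def k0_pp_012 : ∃ t, chk3 f_pp_012 t 1 1 1 = true :=
  ⟨(b (l 3) (a (l 3) (b (l 3) (a (l 351284972327) (l 18566104))))), by decide +kernel⟩

theorem c_pp_012 : CertN 0 536870912 1073741824 536870912 67108864 67108864 3 false true true .pnp 0 1 2
    ndN2q0 ndN3q2 pcN1 Cut.none Ext.none :=
  certNK1 (fam := false) (s1 := true) (s2 := true) (a := 0) (b := 1) (c := 2) (cn := .pnp) (n1 := ndN2q0) (n2 := ndN3q2) (pc := pcN1) (cut := Cut.none) (xt := Ext.none) (P1 := 0) (W1 := 536870912) (P2 := 1073741824) (W2 := 536870912) (P3 := 67108864) (W3 := 67108864) (N0 := 3)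
    rfl rfl rfl (fun _ => rfl) k0_pp_012

noncomputable def f_pp_022 : ℕ → ℕ → ℕ → ℕ → Bool := onCell 0 536870912 1073741824 536870912 67108864 67108864
    (rowNK 3 1 false true true .pp 0 2 2 (qsf 0 536870912 1073741824 536870912 2) ndN2q0 ndN3q2 pcN2 Cut.none Ext.none)

def k0_pp_022 : ∃ t, chk3 f_pp_022 t 1 1 1 = true :=
  ⟨(a (b (a (b (b (l 3) (a (b (l 3) (l 897280767319)) (b (l 3) (l 17742376)))) (b (a (b (a (b (l 1085186167895) (b (a (l 94659132407) (l 18056904)) (b (l 17939656) (b (l 18137264) (l 18177432))))) (b (l 17921928) (b (l 18016696) (b (l 18059864) (l 18087536))))) (a (a (l 18350928) (l 18291776)) (l 18198880))) (b (b (l 17862416) (b (l 17917464) (l 17943728))) (l 18015848))) (a (a (l 18592688) (l 18411216)) (l 18134248)))) (b (b (b (l 17682784) (a (l 3) (l 17811184))) (b (l 17852736) (l 17687240))) (b (a (b (b (l 17776792) (l 17793400)) (l 17776048)) (l 17611736)) (l 17604608)))) (b (a (a (a (l 18825584) (l 18579784)) (b (l 18183696)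 (l 18126024))) (l 17590552)) (a (a (b (l 18680608) (l 18504288)) (l 18100440)) (l 17426856)))) (b (b (b (b (l 18385664) (a (l 18097368) (l 18316528))) (a (l 18097888) (l 18198672))) (a (b (l 17817208) (l 17649896)) (l 17979416))) (b (a (l 17460448) (l 2)) (l 2)))), by decide +kernel⟩

theorem c_pp_022 : CertN 0 536870912 1073741824 536870912 67108864 67108864 3 false true true .pp 0 2 2
    ndN2q0 ndN3q2 pcN2 Cut.none Ext.none :=
  certNK1 (fam := false) (s1 := true) (s2 := true) (a := 0) (b := 2) (c := 2) (cn := .pp) (n1 := ndN2q0) (n2 := ndN3q2) (pc := pcN2) (cut := Cut.none) (xt := Ext.none) (P1 := 0) (W1 := 536870912) (P2 := 1073741824) (W2 := 536870912) (P3 := 67108864) (W3 := 67108864) (N0 := 3)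
    rfl rfl rfl (fun _ => rfl) k0_pp_022

noncomputable def f_pp_023 : ℕ → ℕ → ℕ → ℕ → Bool := onCell 1073741824 536870912 0 1230186008 67108864 67108864
    (rowNK 3 2 false true true .up 0 2 3 (qsf 0 536870912 0 1230186008 2) ndN2q0 ndN3q3 pcN2 Cut.none Ext.none)

def k0_pp_023 : ∃ t, chk3 f_pp_023 t 1 1 1 = true :=
  ⟨(b (a (l 2) (a (l 2) (l 17439152))) (b (a (a (l 2) (l 16997392)) (a (l 17033408) (l 17087368))) (a (b (a (l 2) (l 16908776)) (a (a (a (l 17682320) (l 17517312)) (l 17316944)) (a (l 17141200) (l 17135424)))) (b (a (l 17121968) (l 17421672)) (a (l 17597776) (b (l 17808672) (l 18044312))))))), by decide +kernel⟩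

theorem c_pp_023 : CertN 0 536870912 0 1230186008 67108864 67108864 3 false true true .up 0 2 3
    ndN2q0 ndN3q3 pcN2 Cut.none Ext.none :=
  certNK2 (fam := false) (s1 := true) (s2 := true) (a := 0) (b := 2) (c := 3) (cn := .up) (n1 := ndN2q0) (n2 := ndN3q3) (pc := pcN2) (cut := Cut.none) (xt := Ext.none) (P1 := 0) (W1 := 536870912) (P2 := 0) (W2 := 1230186008) (P3 := 67108864) (W3 := 67108864) (N0 := 3)
    rfl rfl rfl (fun _ => rfl) k0_pp_023

end Pool.Agent.Strip051.G.I1_16_1_8.Tab.C.NB23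

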