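import Pool.Agent.Strip051.G.I1_16_1_8.Tab
import Pool.Agent.Strip051.PB.RowK

/-! # Certificates N8 (generated) -/

set_option linter.all false
set_option maxRecDepth 100000

namespace Pool.Agent.Strip051.G.I1_16_1_8.Tab.C.NB23

open Pool.Agent.Strip051.PB Pool.Agent.Strip051.PB.T
open Pool.Agent.Strip051.G.I1_16_1_8.Tab

noncomputable def f_pp_033 : ℕ → ℕ → ℕ → ℕ → Bool := onCell 0 536870912 0 1230186008 67108864 67108864
    (rowNK 3 0 false true true .pnn 0 3 3 (qsf 0 536870912 0 1230186008 3) ndN2q0 ndN3q3 pcN3 Cut.none Ext.none)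

def k0_pp_033 : ∃ t, chk3 f_pp_033 t 1 1 1 = true :=
  ⟨(b (b (l 4) (b (a (l 4) (a (l 4) (l 17254800))) (a (a (l 4) (a (l 17125784) (l 16932200))) (a (l 17436352) (l 17366296))))) (b (a (a (b (a (l 17479656) (l 17282552)) (b (l 17252208) (a (l 17606248) (l 17909968)))) (b (a (l 17089136) (l 17323864)) (l 18010312))) (b (a (l 17599416) (l 17781288)) (a (l 18288232) (l 1)))) (a (b (a (b (a (l 17756664) (l 18169256)) (a (l 17583912) (l 17765256))) (b (l 18561896) (l 18183016))) (a (b (a (b (l 18096424) (l 18388664)) (l 17835400)) (a (b (l 18463072) (l 18238976)) (l 18370776))) (b (l 17641880) (l 1)))) (l 1)))), by decide +kernel⟩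

theorem c_pp_033 : CertN 0 536870912 0 1230186008 67108864 67108864 3 false true true .pnn 0 3 3
    ndN2q0 ndN3q3 pcN3 Cut.none Ext.none :=
  certNK0 (fam := false) (s1 := true) (s2 := true) (a := 0) (b := 3) (c := 3) (cn := .pnn) (n1 := ndN2q0) (n2 := ndN3q3) (pc := pcN3) (cut := Cut.none) (xt := Ext.none) (P1 := 0) (W1 := 536870912) (P2 := 0) (W2 := 1230186008) (P3 := 67108864) (W3 := 67108864) (N0 := 3)
    rfl rfl rfl k0_pp_033

noncomputable def f_pp_101 : ℕ → ℕ → ℕ → ℕ → Bool := onCell 536870912 536870912 536870912 536870912 67108864 67108864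
    (rowNK 3 0 false true true .npn 1 0 1 (qsf 536870912 536870912 536870912 536870912 0) ndN2q1 ndN3q1 pcN0 Cut.none Ext.none)

def k0_pp_101 : ∃ t, chk3 f_pp_101 t 1 1 1 = true :=
  ⟨(l 3), by decide +kernel⟩

theorem c_pp_101 : CertN 536870912 536870912 536870912 536870912 67108864 67108864 3 false true true .npn 1 0 1
    ndN2q1 ndN3q1 pcN0 Cut.none Ext.none :=
  certNK0 (fam := false) (s1 := true) (s2 := true) (a := 1) (b := 0) (c := 1) (cn := .npn) (n1 := ndN2q1) (n2 := ndN3q1) (pc := pcN0) (cut := Cut.none) (xt := Ext.none) (P1 := 536870912) (W1 := 536870912) (P2 := 536870912) (W2 := 536870912) (P3 := 67108864) (W3 := 67108864) (N0 := 3)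
    rfl rfl rfl k0_pp_101

noncomputable def f_pp_102 : ℕ → ℕ → ℕ → ℕ → Bool := onCell 536870912 536870912 0 536870912 67108864 67108864
    (rowNK 3 1 false true true .npp 1 0 2 (qsf 536870912 536870912 1073741824 536870912 0) ndN2q1 ndN3q2 pcN0 Cut.none Ext.none)

def k0_pp_102 : ∃ t, chk3 f_pp_102 t 1 1 1 = true :=
  ⟨(l 3), by decide +kernel⟩

theorem c_pp_102 : CertN 536870912 536870912 1073741824 536870912 67108864 67108864 3 false true true .npp 1 0 2
    ndN2q1 ndN3q2 pcN0 Cut.none Ext.none :=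
  certNK1 (fam := false) (s1 := true) (s2 := true) (a := 1) (b := 0) (c := 2) (cn := .npp) (n1 := ndN2q1) (n2 := ndN3q2) (pc := pcN0) (cut := Cut.none) (xt := Ext.none) (P1 := 536870912) (W1 := 536870912) (P2 := 1073741824) (W2 := 536870912) (P3 := 67108864) (W3 := 67108864) (N0 := 3)
    rfl rfl rfl (fun _ => rfl) k0_pp_102

noncomputable def f_pp_112 : ℕ → ℕ → ℕ → ℕ → Bool := onCell 536870912 536870912 1073741824 536870912 67108864 67108864
    (rowNK 3 0 false true true .dn 1 1 2 (qsf 536870912 536870912 1073741824 536870912 1) ndN2q1 ndN3q2 pcN1 Cut.none Ext.none)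

def k0_pp_112 : ∃ t, chk3 f_pp_112 t 1 1 1 = true :=
  ⟨(b (l 3) (a (b (l 3) (a (b (l 17539752) (l 17971248)) (a (l 17054400) (l 17208960)))) (a (b (l 3) (l 714209864599)) (l 3)))), by decide +kernel⟩

theorem c_pp_112 : CertN 536870912 536870912 1073741824 536870912 67108864 67108864 3 false true true .dn 1 1 2
    ndN2q1 ndN3q2 pcN1 Cut.none Ext.none :=
  certNK0 (fam := false) (s1 := true) (s2 := true) (a := 1) (b := 1) (c := 2) (cn := .dn) (n1 := ndN2q1) (n2 := ndN3q2) (pc := pcN1) (cut := Cut.none) (xt := Ext.none) (P1 := 536870912) (W1 := 536870912) (P2 := 1073741824) (W2 := 536870912) (P3 := 67108864) (W3 := 67108864) (N0 := 3)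
    rfl rfl rfl k0_pp_112

noncomputable def f_pp_113 : ℕ → ℕ → ℕ → ℕ → Bool := onCell 536870912 536870912 0 1230186008 67108864 67108864
    (rowNK 3 0 false true true .nn 1 1 3 (qsf 536870912 536870912 0 1230186008 1) ndN2q1 ndN3q3 pcN1 Cut.none Ext.none)

def k0_pp_113 : ∃ t, chk3 f_pp_113 t 1 1 1 = true :=
  ⟨(a (b (l 2) (b (a (l 2) (b (l 2) (a (l 2) (l 19438720)))) (b (a (l 2) (a (l 19633640) (l 18741056))) (a (b (a (l 2) (l 19876360)) (l 19820904)) (a (l 19089336) (l 18492360)))))) (a (b (l 2) (b (b (a (l 2) (a (l 17516976) (b (l 17062000) (a (l 17150840) (b (l 17307208) (l 17387664)))))) (a (b (l 18184528) (l 18038472)) (l 17187288))) (b (a (l 17934608) (l 17320368)) (a (l 18019840) (l 17882848))))) (a (b (b (l 2) (b (l 16913064) (a (l 17047560) (b (l 17151944) (a (l 17272192) (b (l 17327896) (a (l 17403240) (l 17457264)))))))) (b (b (b (b (a (l 17267912) (a (a (l 17400256) (l 17456168)) (l 17550168))) (a (a (l 17312552) (b (l 17399328) (l 17456264)))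 (a (l 17550704) (l 17683408)))) (b (a (a (b (l 17396656) (l 17444192)) (l 17534760)) (l 17728768)) (l 17722720))) (l 17845288)) (b (l 17930448) (l 18004416)))) (b (b (a (l 2) (l 16898560)) (b (a (l 17117008) (b (l 17163688) (b (a (l 17242856) (l 17320824)) (a (a (l 17310136) (l 17353824)) (l 17429032))))) (b (b (a (l 17320616) (a (l 17426312) (l 17542056))) (a (a (l 17332040) (l 17433200)) (l 17593808))) (a (a (b (a (l 17406504) (l 17458408)) (l 17549120)) (l 17614312)) (l 17787688))))) (b (b (a (b (a (l 17750816) (l 17893808)) (l 18030352)) (l 18161736)) (a (l 18150368) (l 18338368))) (a (b (l 18194040) (l 18206008)) (b (l 18351264) (l 18355376)))))))), by decide +kernel⟩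

theorem c_pp_113 : CertN 536870912 536870912 0 1230186008 67108864 67108864 3 false true true .nn 1 1 3
    ndN2q1 ndN3q3 pcN1 Cut.none Ext.none :=
  certNK0 (fam := false) (s1 := true) (s2 := true) (a := 1) (b := 1) (c := 3) (cn := .nn) (n1 := ndN2q1) (n2 := ndN3q3) (pc := pcN1) (cut := Cut.none) (xt := Ext.none) (P1 := 536870912) (W1 := 536870912) (P2 := 0) (W2 := 1230186008) (P3 := 67108864) (W3 := 67108864) (N0 := 3)
    rfl rfl rfl k0_pp_113

noncomputable def f_pp_123 : ℕ → ℕ → ℕ → ℕ → Bool := onCell 1073741824 536870912 0 1230186008 67108864 67108864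
    (rowNK 3 2 false true true .npn 1 2 3 (qsf 536870912 536870912 0 1230186008 2) ndN2q1 ndN3q3 pcN2 Cut.none Ext.none)

def k0_pp_123 : ∃ t, chk3 f_pp_123 t 1 1 1 = true :=
  ⟨(a (b (b (b (a (a (a (l 16801032) (a (l 16803480) (l 16793424))) (l 16830240)) (l 17405208)) (a (a (b (a (l 16864576) (l 16870256)) (a (a (l 16924472) (l 16936224)) (l 16908992))) (l 16826712)) (l 17588264))) (a (b (a (a (b (a (l 17029384) (l 16970664)) (l 17067528)) (l 17033344)) (l 16982904)) (a (a (b (l 17073456) (l 17045504)) (l 17024752)) (l 17420656))) (l 18136920))) (b (a (b (a (l 17560312) (l 18141280)) (l 18714176)) (l 19100616)) (a (a (a (l 19886768) (b (l 19441912) (l 20013184))) (b (l 19577592) (l 19993784))) (b (l 19650288) (l 19681568))))) (b (a (l 18789384) (l 18936968)) (b (a (l 19379464) (l 19150160)) (l 1)))), by decide +kernel⟩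

theorem c_pp_123 : CertN 536870912 536870912 0 1230186008 67108864 67108864 3 false true true .npn 1 2 3
    ndN2q1 ndN3q3 pcN2 Cut.none Ext.none :=
  certNK2 (fam := false) (s1 := true) (s2 := true) (a := 1) (b := 2) (c := 3) (cn := .npn) (n1 := ndN2q1) (n2 := ndN3q3) (pc := pcN2) (cut := Cut.none) (xt := Ext.none) (P1 := 536870912) (W1 := 536870912) (P2 := 0) (W2 := 1230186008) (P3 := 67108864) (W3 := 67108864) (N0 := 3)
    rfl rfl rfl (fun _ => rfl) k0_pp_123

noncomputable def f_pp_133 : ℕ → ℕ → ℕ → ℕ → Bool := onCell 1610612736 536870912 0 1230186008 67108864 67108864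
    (rowNK 3 2 false true true .dn 1 3 3 (qsf 536870912 536870912 0 1230186008 3) ndN2q1 ndN3q3 pcN3 Cut.none Ext.none)

def k0_pp_133 : ∃ t, chk3 f_pp_133 t 1 1 1 = true :=
  ⟨(a (b (b (l 4) (l 1)) (l 1)) (l 1)), by decide +kernel⟩

theorem c_pp_133 : CertN 536870912 536870912 0 1230186008 67108864 67108864 3 false true true .dn 1 3 3
    ndN2q1 ndN3q3 pcN3 Cut.none Ext.none :=
  certNK2 (fam := false) (s1 := true) (s2 := true) (a := 1) (b := 3) (c := 3) (cn := .dn) (n1 := ndN2q1) (n2 := ndN3q3) (pc := pcN3) (cut := Cut.none) (xt := Ext.none) (P1 := 536870912) (W1 := 536870912) (P2 := 0) (W2 := 1230186008) (P3 := 67108864) (W3 := 67108864) (N0 := 3)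
    rfl rfl rfl (fun _ => rfl) k0_pp_133

noncomputable def f_pp_202_a : ℕ → ℕ → ℕ → ℕ → Bool := onCell 0 536870912 1073741824 536870912 67108864 67108864
    (rowNK 3 0 false true true .pp 2 0 2 (qsf 0 536870912 1073741824 536870912 0) ndN2q2a ndN3q2 pcN0 Cut.none Ext.none)

def k0_pp_202_a : ∃ t, chk3 f_pp_202_a t 1 1 1 = true :=
  ⟨(l 3), by decide +kernel⟩

theorem c_pp_202_a : CertN 0 536870912 1073741824 536870912 67108864 67108864 3 false true true .pp 2 0 2
    ndN2q2a ndN3q2 pcN0 Cut.none Ext.none :=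
  certNK0 (fam := false) (s1 := true) (s2 := true) (a := 2) (b := 0) (c := 2) (cn := .pp) (n1 := ndN2q2a) (n2 := ndN3q2) (pc := pcN0) (cut := Cut.none) (xt := Ext.none) (P1 := 0) (W1 := 536870912) (P2 := 1073741824) (W2 := 536870912) (P3 := 67108864) (W3 := 67108864) (N0 := 3)
    rfl rfl rfl k0_pp_202_a

noncomputable def f_pp_202_b : ℕ → ℕ → ℕ → ℕ → Bool := onCell 1239849684 370763052 1073741824 536870912 67108864 67108864
    (rowNK 3 0 false true true .pp 2 0 2 (qsf 1239849684 370763052 1073741824 536870912 0) ndN2q2b ndN3q2 pcN0 Cut.none Ext.none)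

def k0_pp_202_b : ∃ t, chk3 f_pp_202_b t 1 1 1 = true :=
  ⟨(l 3), by decide +kernel⟩

theorem c_pp_202_b : CertN 1239849684 370763052 1073741824 536870912 67108864 67108864 3 false true true .pp 2 0 2
    ndN2q2b ndN3q2 pcN0 Cut.none Ext.none :=
  certNK0 (fam := false) (s1 := true) (s2 := true) (a := 2) (b := 0) (c := 2) (cn := .pp) (n1 := ndN2q2b) (n2 := ndN3q2) (pc := pcN0) (cut := Cut.none) (xt := Ext.none) (P1 := 1239849684) (W1 := 370763052) (P2 := 1073741824) (W2 := 536870912) (P3 := 67108864) (W3 := 67108864) (N0 := 3)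
    rfl rfl rfl k0_pp_202_b

noncomputable def f_pp_203_a : ℕ → ℕ → ℕ → ℕ → Bool := onCell 0 536870912 0 1230186008 67108864 67108864
    (rowNK 3 0 false true true .up 2 0 3 (qsf 0 536870912 0 1230186008 0) ndN2q2a ndN3q3 pcN0 Cut.none Ext.none)

def k0_pp_203_a : ∃ t, chk3 f_pp_203_a t 1 1 1 = true :=
  ⟨(b (l 2) (l 3)), by decide +kernel⟩

theorem c_pp_203_a : CertN 0 536870912 0 1230186008 67108864 67108864 3 false true true .up 2 0 3
    ndN2q2a ndN3q3 pcN0 Cut.none Ext.none :=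
  certNK0 (fam := false) (s1 := true) (s2 := true) (a := 2) (b := 0) (c := 3) (cn := .up) (n1 := ndN2q2a) (n2 := ndN3q3) (pc := pcN0) (cut := Cut.none) (xt := Ext.none) (P1 := 0) (W1 := 536870912) (P2 := 0) (W2 := 1230186008) (P3 := 67108864) (W3 := 67108864) (N0 := 3)
    rfl rfl rfl k0_pp_203_a

noncomputable def f_pp_203_b : ℕ → ℕ → ℕ → ℕ → Bool := onCell 1239849684 370763052 0 1230186008 67108864 67108864
    (rowNK 3 0 false true true .up 2 0 3 (qsf 1239849684 370763052 0 1230186008 0) ndN2q2b ndN3q3 pcN0 Cut.none Ext.none)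

def k0_pp_203_b : ∃ t, chk3 f_pp_203_b t 1 1 1 = true :=
  ⟨(b (l 3) (l 3)), by decide +kernel⟩

theorem c_pp_203_b : CertN 1239849684 370763052 0 1230186008 67108864 67108864 3 false true true .up 2 0 3
    ndN2q2b ndN3q3 pcN0 Cut.none Ext.none :=
  certNK0 (fam := false) (s1 := true) (s2 := true) (a := 2) (b := 0) (c := 3) (cn := .up) (n1 := ndN2q2b) (n2 := ndN3q3) (pc := pcN0) (cut := Cut.none) (xt := Ext.none) (P1 := 1239849684) (W1 := 370763052) (P2 := 0) (W2 := 1230186008) (P3 := 67108864) (W3 := 67108864) (N0 := 3)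
    rfl rfl rfl k0_pp_203_b

noncomputable def cut_pp_213_a : Cut := Cut.of [[⟨0, 1, 0, 21338704⟩, ⟨1, 1, 0, 21338704⟩, ⟨2, 2, 0, 1685920⟩]]

noncomputable def f_pp_213_a : ℕ → ℕ → ℕ → ℕ → Bool := onCell 0 536870912 0 1230186008 67108864 67108864
    (rowNK 3 0 false true true .pnn 2 1 3 (qsf 0 536870912 0 1230186008 1) ndN2q2a ndN3q3 pcN1 cut_pp_213_a Ext.none)

def k0_pp_213_a : ∃ t, chk3 f_pp_213_a t 1 1 1 = true :=
  ⟨(b (b (a (l 3) (a (l 3) (a (l 3) (b (a (l 3) (a (l 3) (b (b (l 6) (l 3)) (l 3)))) (l 3))))) (l 3)) (l 3)), by decide +kernel⟩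

theorem c_pp_213_a : CertN 0 536870912 0 1230186008 67108864 67108864 3 false true true .pnn 2 1 3
    ndN2q2a ndN3q3 pcN1 cut_pp_213_a Ext.none :=
  certNK0 (fam := false) (s1 := true) (s2 := true) (a := 2) (b := 1) (c := 3) (cn := .pnn) (n1 := ndN2q2a) (n2 := ndN3q3) (pc := pcN1) (cut := cut_pp_213_a) (xt := Ext.none) (P1 := 0) (W1 := 536870912) (P2 := 0) (W2 := 1230186008) (P3 := 67108864) (W3 := 67108864) (N0 := 3)
    rfl rfl rfl k0_pp_213_a

noncomputable def cut_pp_213_b : Cut := Cut.of [[⟨0, 1, 0, 21338704⟩, ⟨1, 1, 0, 21338704⟩, ⟨2, 2, 0, 1685920⟩]]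

noncomputable def f_pp_213_b : ℕ → ℕ → ℕ → ℕ → Bool := onCell 1239849684 370763052 0 1230186008 67108864 67108864
    (rowNK 3 0 false true true .pnn 2 1 3 (qsf 1239849684 370763052 0 1230186008 1) ndN2q2b ndN3q3 pcN1 cut_pp_213_b Ext.none)

def k0_pp_213_b : ∃ t, chk3 f_pp_213_b t 1 1 1 = true :=
  ⟨(b (l 3) (l 3)), by decide +kernel⟩

theorem c_pp_213_b : CertN 1239849684 370763052 0 1230186008 67108864 67108864 3 false true true .pnn 2 1 3
    ndN2q2b ndN3q3 pcN1 cut_pp_213_b Ext.none :=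
  certNK0 (fam := false) (s1 := true) (s2 := true) (a := 2) (b := 1) (c := 3) (cn := .pnn) (n1 := ndN2q2b) (n2 := ndN3q3) (pc := pcN1) (cut := cut_pp_213_b) (xt := Ext.none) (P1 := 1239849684) (W1 := 370763052) (P2 := 0) (W2 := 1230186008) (P3 := 67108864) (W3 := 67108864) (N0 := 3)
    rfl rfl rfl k0_pp_213_b

noncomputable def f_pp_303 : ℕ → ℕ → ℕ → ℕ → Bool := onCell 1610612736 536870912 0 1230186008 67108864 67108864
    (rowNK 3 0 false true true .npn 3 0 3 (qsf 1610612736 536870912 0 1230186008 0) ndN2q3 ndN3q3 pcN0 Cut.none Ext.none)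

def k0_pp_303 : ∃ t, chk3 f_pp_303 t 1 1 1 = true :=
  ⟨(b (l 3) (l 3)), by decide +kernel⟩

theorem c_pp_303 : CertN 1610612736 536870912 0 1230186008 67108864 67108864 3 false true true .npn 3 0 3
    ndN2q3 ndN3q3 pcN0 Cut.none Ext.none :=
  certNK0 (fam := false) (s1 := true) (s2 := true) (a := 3) (b := 0) (c := 3) (cn := .npn) (n1 := ndN2q3) (n2 := ndN3q3) (pc := pcN0) (cut := Cut.none) (xt := Ext.none) (P1 := 1610612736) (W1 := 536870912) (P2 := 0) (W2 := 1230186008) (P3 := 67108864) (W3 := 67108864) (N0 := 3)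
    rfl rfl rfl k0_pp_303

noncomputable def f_pp_313 : ℕ → ℕ → ℕ → ℕ → Bool := onCell 1610612736 536870912 0 1230186008 67108864 67108864
    (rowNK 3 0 false true true .dn 3 1 3 (qsf 1610612736 536870912 0 1230186008 1) ndN2q3 ndN3q3 pcN1 Cut.none Ext.none)

def k0_pp_313 : ∃ t, chk3 f_pp_313 t 1 1 1 = true :=
  ⟨(b (l 3) (l 1)), by decide +kernel⟩

theorem c_pp_313 : CertN 1610612736 536870912 0 1230186008 67108864 67108864 3 false true true .dn 3 1 3
    ndN2q3 ndN3q3 pcN1 Cut.none Ext.none :=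
  certNK0 (fam := false) (s1 := true) (s2 := true) (a := 3) (b := 1) (c := 3) (cn := .dn) (n1 := ndN2q3) (n2 := ndN3q3) (pc := pcN1) (cut := Cut.none) (xt := Ext.none) (P1 := 1610612736) (W1 := 536870912) (P2 := 0) (W2 := 1230186008) (P3 := 67108864) (W3 := 67108864) (N0 := 3)
    rfl rfl rfl k0_pp_313

noncomputable def f_pm_001 : ℕ → ℕ → ℕ → ℕ → Bool := onCell 0 536870912 536870912 536870912 67108864 67108864
    (rowNK 3 0 false true false .up 0 0 1 (qsf 0 536870912 536870912 536870912 0) ndN2q0 ndN3q1 pcN0 Cut.none Ext.none)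

def k0_pm_001 : ∃ t, chk3 f_pm_001 t 1 1 1 = true :=
  ⟨(l 4), by decide +kernel⟩

theorem c_pm_001 : CertN 0 536870912 536870912 536870912 67108864 67108864 3 false true false .up 0 0 1
    ndN2q0 ndN3q1 pcN0 Cut.none Ext.none :=
  certNK0 (fam := false) (s1 := true) (s2 := false) (a := 0) (b := 0) (c := 1) (cn := .up) (n1 := ndN2q0) (n2 := ndN3q1) (pc := pcN0) (cut := Cut.none) (xt := Ext.none) (P1 := 0) (W1 := 536870912) (P2 := 536870912) (W2 := 536870912) (P3 := 67108864) (W3 := 67108864) (N0 := 3)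
    rfl rfl rfl k0_pm_001

noncomputable def f_pm_011 : ℕ → ℕ → ℕ → ℕ → Bool := onCell 0 536870912 536870912 536870912 67108864 67108864
    (rowNK 3 0 false true false .pnn 0 1 1 (qsf 0 536870912 536870912 536870912 1) ndN2q0 ndN3q1 pcN1 Cut.none Ext.none)

def k0_pm_011 : ∃ t, chk3 f_pm_011 t 1 1 1 = true :=
  ⟨(l 4), by decide +kernel⟩

theorem c_pm_011 : CertN 0 536870912 536870912 536870912 67108864 67108864 3 false true false .pnn 0 1 1
    ndN2q0 ndN3q1 pcN1 Cut.none Ext.none :=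
  certNK0 (fam := false) (s1 := true) (s2 := false) (a := 0) (b := 1) (c := 1) (cn := .pnn) (n1 := ndN2q0) (n2 := ndN3q1) (pc := pcN1) (cut := Cut.none) (xt := Ext.none) (P1 := 0) (W1 := 536870912) (P2 := 536870912) (W2 := 536870912) (P3 := 67108864) (W3 := 67108864) (N0 := 3)
    rfl rfl rfl k0_pm_011

noncomputable def f_pm_012 : ℕ → ℕ → ℕ → ℕ → Bool := onCell 0 536870912 1073741824 536870912 67108864 67108864
    (rowNK 3 0 false true false .pnp 0 1 2 (qsf 0 536870912 1073741824 536870912 1) ndN2q0 ndN3q2 pcN1 Cut.none Ext.none)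

def k0_pm_012 : ∃ t, chk3 f_pm_012 t 1 1 1 = true :=
  ⟨(l 4), by decide +kernel⟩

theorem c_pm_012 : CertN 0 536870912 1073741824 536870912 67108864 67108864 3 false true false .pnp 0 1 2
    ndN2q0 ndN3q2 pcN1 Cut.none Ext.none :=
  certNK0 (fam := false) (s1 := true) (s2 := false) (a := 0) (b := 1) (c := 2) (cn := .pnp) (n1 := ndN2q0) (n2 := ndN3q2) (pc := pcN1) (cut := Cut.none) (xt := Ext.none) (P1 := 0) (W1 := 536870912) (P2 := 1073741824) (W2 := 536870912) (P3 := 67108864) (W3 := 67108864) (N0 := 3)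
    rfl rfl rfl k0_pm_012

noncomputable def f_pm_022 : ℕ → ℕ → ℕ → ℕ → Bool := onCell 0 536870912 1073741824 536870912 67108864 67108864
    (rowNK 3 0 false true false .pp 0 2 2 (qsf 0 536870912 1073741824 536870912 2) ndN2q0 ndN3q2 pcN2 Cut.none Ext.none)

def k0_pm_022 : ∃ t, chk3 f_pm_022 t 1 1 1 = true :=
  ⟨(l 4), by decide +kernel⟩

theorem c_pm_022 : CertN 0 536870912 1073741824 536870912 67108864 67108864 3 false true false .pp 0 2 2
    ndN2q0 ndN3q2 pcN2 Cut.none Ext.none :=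
  certNK0 (fam := false) (s1 := true) (s2 := false) (a := 0) (b := 2) (c := 2) (cn := .pp) (n1 := ndN2q0) (n2 := ndN3q2) (pc := pcN2) (cut := Cut.none) (xt := Ext.none) (P1 := 0) (W1 := 536870912) (P2 := 1073741824) (W2 := 536870912) (P3 := 67108864) (W3 := 67108864) (N0 := 3)
    rfl rfl rfl k0_pm_022

noncomputable def f_pm_023 : ℕ → ℕ → ℕ → ℕ → Bool := onCell 0 536870912 0 1230186008 67108864 67108864
    (rowNK 3 0 false true false .up 0 2 3 (qsf 0 536870912 0 1230186008 2) ndN2q0 ndN3q3 pcN2 Cut.none Ext.none)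

def k0_pm_023 : ∃ t, chk3 f_pm_023 t 1 1 1 = true :=
  ⟨(b (l 4) (l 4)), by decide +kernel⟩

theorem c_pm_023 : CertN 0 536870912 0 1230186008 67108864 67108864 3 false true false .up 0 2 3
    ndN2q0 ndN3q3 pcN2 Cut.none Ext.none :=
  certNK0 (fam := false) (s1 := true) (s2 := false) (a := 0) (b := 2) (c := 3) (cn := .up) (n1 := ndN2q0) (n2 := ndN3q3) (pc := pcN2) (cut := Cut.none) (xt := Ext.none) (P1 := 0) (W1 := 536870912) (P2 := 0) (W2 := 1230186008) (P3 := 67108864) (W3 := 67108864) (N0 := 3)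
    rfl rfl rfl k0_pm_023

noncomputable def f_pm_033 : ℕ → ℕ → ℕ → ℕ → Bool := onCell 0 536870912 0 1230186008 67108864 67108864
    (rowNK 3 0 false true false .pnn 0 3 3 (qsf 0 536870912 0 1230186008 3) ndN2q0 ndN3q3 pcN3 Cut.none Ext.none)

def k0_pm_033 : ∃ t, chk3 f_pm_033 t 1 1 1 = true :=
  ⟨(b (l 4) (l 4)), by decide +kernel⟩

theorem c_pm_033 : CertN 0 536870912 0 1230186008 67108864 67108864 3 false true false .pnn 0 3 3
    ndN2q0 ndN3q3 pcN3 Cut.none Ext.none :=
  certNK0 (fam := false) (s1 := true) (s2 := false) (a := 0) (b := 3) (c := 3) (cn := .pnn) (n1 := ndN2q0) (n2 := ndN3q3) (pc := pcN3) (cut := Cut.none) (xt := Ext.none) (P1 := 0) (W1 := 536870912) (P2 := 0) (W2 := 1230186008) (P3 := 67108864) (W3 := 67108864) (N0 := 3)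
    rfl rfl rfl k0_pm_033

noncomputable def f_pm_101 : ℕ → ℕ → ℕ → ℕ → Bool := onCell 536870912 536870912 536870912 536870912 67108864 67108864
    (rowNK 3 0 false true false .npn 1 0 1 (qsf 536870912 536870912 536870912 536870912 0) ndN2q1 ndN3q1 pcN0 Cut.none Ext.none)

def k0_pm_101 : ∃ t, chk3 f_pm_101 t 1 1 1 = true :=
  ⟨(l 4), by decide +kernel⟩

theorem c_pm_101 : CertN 536870912 536870912 536870912 536870912 67108864 67108864 3 false true false .npn 1 0 1
    ndN2q1 ndN3q1 pcN0 Cut.none Ext.none :=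
  certNK0 (fam := false) (s1 := true) (s2 := false) (a := 1) (b := 0) (c := 1) (cn := .npn) (n1 := ndN2q1) (n2 := ndN3q1) (pc := pcN0) (cut := Cut.none) (xt := Ext.none) (P1 := 536870912) (W1 := 536870912) (P2 := 536870912) (W2 := 536870912) (P3 := 67108864) (W3 := 67108864) (N0 := 3)
    rfl rfl rfl k0_pm_101

noncomputable def f_pm_102 : ℕ → ℕ → ℕ → ℕ → Bool := onCell 536870912 536870912 1073741824 536870912 67108864 67108864
    (rowNK 3 0 false true false .npp 1 0 2 (qsf 536870912 536870912 1073741824 536870912 0) ndN2q1 ndN3q2 pcN0 Cut.none Ext.none)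

def k0_pm_102 : ∃ t, chk3 f_pm_102 t 1 1 1 = true :=
  ⟨(l 4), by decide +kernel⟩

theorem c_pm_102 : CertN 536870912 536870912 1073741824 536870912 67108864 67108864 3 false true false .npp 1 0 2
    ndN2q1 ndN3q2 pcN0 Cut.none Ext.none :=
  certNK0 (fam := false) (s1 := true) (s2 := false) (a := 1) (b := 0) (c := 2) (cn := .npp) (n1 := ndN2q1) (n2 := ndN3q2) (pc := pcN0) (cut := Cut.none) (xt := Ext.none) (P1 := 536870912) (W1 := 536870912) (P2 := 1073741824) (W2 := 536870912) (P3 := 67108864) (W3 := 67108864) (N0 := 3)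
    rfl rfl rfl k0_pm_102

noncomputable def f_pm_112 : ℕ → ℕ → ℕ → ℕ → Bool := onCell 536870912 536870912 1073741824 536870912 67108864 67108864
    (rowNK 3 0 false true false .dn 1 1 2 (qsf 536870912 536870912 1073741824 536870912 1) ndN2q1 ndN3q2 pcN1 Cut.none Ext.none)

def k0_pm_112 : ∃ t, chk3 f_pm_112 t 1 1 1 = true :=
  ⟨(l 4), by decide +kernel⟩

theorem c_pm_112 : CertN 536870912 536870912 1073741824 536870912 67108864 67108864 3 false true false .dn 1 1 2
    ndN2q1 ndN3q2 pcN1 Cut.none Ext.none :=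
  certNK0 (fam := false) (s1 := true) (s2 := false) (a := 1) (b := 1) (c := 2) (cn := .dn) (n1 := ndN2q1) (n2 := ndN3q2) (pc := pcN1) (cut := Cut.none) (xt := Ext.none) (P1 := 536870912) (W1 := 536870912) (P2 := 1073741824) (W2 := 536870912) (P3 := 67108864) (W3 := 67108864) (N0 := 3)
    rfl rfl rfl k0_pm_112

noncomputable def f_pm_113 : ℕ → ℕ → ℕ → ℕ → Bool := onCell 536870912 536870912 0 1230186008 67108864 67108864
    (rowNK 3 0 false true false .nn 1 1 3 (qsf 536870912 536870912 0 1230186008 1) ndN2q1 ndN3q3 pcN1 Cut.none Ext.none)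

def k0_pm_113 : ∃ t, chk3 f_pm_113 t 1 1 1 = true :=
  ⟨(b (b (a (l 2) (a (l 2) (a (l 2) (a (l 2) (l 16841184))))) (l 4)) (l 4)), by decide +kernel⟩

theorem c_pm_113 : CertN 536870912 536870912 0 1230186008 67108864 67108864 3 false true false .nn 1 1 3
    ndN2q1 ndN3q3 pcN1 Cut.none Ext.none :=
  certNK0 (fam := false) (s1 := true) (s2 := false) (a := 1) (b := 1) (c := 3) (cn := .nn) (n1 := ndN2q1) (n2 := ndN3q3) (pc := pcN1) (cut := Cut.none) (xt := Ext.none) (P1 := 536870912) (W1 := 536870912) (P2 := 0) (W2 := 1230186008) (P3 := 67108864) (W3 := 67108864) (N0 := 3)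
    rfl rfl rfl k0_pm_113

noncomputable def f_pm_123 : ℕ → ℕ → ℕ → ℕ → Bool := onCell 536870912 536870912 0 1230186008 67108864 67108864
    (rowNK 3 0 false true false .npn 1 2 3 (qsf 536870912 536870912 0 1230186008 2) ndN2q1 ndN3q3 pcN2 Cut.none Ext.none)

def k0_pm_123 : ∃ t, chk3 f_pm_123 t 1 1 1 = true :=
  ⟨(b (b (a (l 4) (a (l 4) (a (l 4) (a (l 4) (l 16855712))))) (l 4)) (l 4)), by decide +kernel⟩

theorem c_pm_123 : CertN 536870912 536870912 0 1230186008 67108864 67108864 3 false true false .npn 1 2 3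
    ndN2q1 ndN3q3 pcN2 Cut.none Ext.none :=
  certNK0 (fam := false) (s1 := true) (s2 := false) (a := 1) (b := 2) (c := 3) (cn := .npn) (n1 := ndN2q1) (n2 := ndN3q3) (pc := pcN2) (cut := Cut.none) (xt := Ext.none) (P1 := 536870912) (W1 := 536870912) (P2 := 0) (W2 := 1230186008) (P3 := 67108864) (W3 := 67108864) (N0 := 3)
    rfl rfl rfl k0_pm_123

noncomputable def f_pm_133 : ℕ → ℕ → ℕ → ℕ → Bool := onCell 1610612736 536870912 0 1230186008 67108864 67108864
    (rowNK 3 2 false true false .dn 1 3 3 (qsf 536870912 536870912 0 1230186008 3) ndN2q1 ndN3q3 pcN3 Cut.none Ext.none)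

def k0_pm_133 : ∃ t, chk3 f_pm_133 t 1 1 1 = true :=
  ⟨(b (a (l 4) (l 1)) (l 1)), by decide +kernel⟩

theorem c_pm_133 : CertN 536870912 536870912 0 1230186008 67108864 67108864 3 false true false .dn 1 3 3
    ndN2q1 ndN3q3 pcN3 Cut.none Ext.none :=
  certNK2 (fam := false) (s1 := true) (s2 := false) (a := 1) (b := 3) (c := 3) (cn := .dn) (n1 := ndN2q1) (n2 := ndN3q3) (pc := pcN3) (cut := Cut.none) (xt := Ext.none) (P1 := 536870912) (W1 := 536870912) (P2 := 0) (W2 := 1230186008) (P3 := 67108864) (W3 := 67108864) (N0 := 3)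
    rfl rfl rfl (fun _ => rfl) k0_pm_133

noncomputable def f_pm_202_a : ℕ → ℕ → ℕ → ℕ → Bool := onCell 0 536870912 0 536870912 67108864 67108864
    (rowNK 3 1 false true false .pp 2 0 2 (qsf 0 536870912 1073741824 536870912 0) ndN2q2a ndN3q2 pcN0 Cut.none Ext.none)

def k0_pm_202_a : ∃ t, chk3 f_pm_202_a t 1 1 1 = true :=
  ⟨(a (b (b (b (l 18591896) (l 18118576)) (b (l 17845224) (l 17715032))) (b (b (l 17565752) (l 17450760)) (a (l 2) (l 17354024)))) (b (a (b (b (l 18771544) (l 18283640)) (l 17945952)) (b (a (b (l 18909920) (l 18445816)) (b (l 19072936) (l 18597616))) (a (l 18009728) (l 17919968)))) (a (b (b (l 17740488) (l 17583856)) (l 17323144)) (b (a (b (l 17882072) (l 17798808)) (b (l 17981392) (l 17992616))) (a (l 17457632) (l 17604200)))))), by decide +kernel⟩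

theorem c_pm_202_a : CertN 0 536870912 1073741824 536870912 67108864 67108864 3 false true false .pp 2 0 2
    ndN2q2a ndN3q2 pcN0 Cut.none Ext.none :=
  certNK1 (fam := false) (s1 := true) (s2 := false) (a := 2) (b := 0) (c := 2) (cn := .pp) (n1 := ndN2q2a) (n2 := ndN3q2) (pc := pcN0) (cut := Cut.none) (xt := Ext.none) (P1 := 0) (W1 := 536870912) (P2 := 1073741824) (W2 := 536870912) (P3 := 67108864) (W3 := 67108864) (N0 := 3)
    rfl rfl rfl (fun _ => rfl) k0_pm_202_a

noncomputable def f_pm_202_b : ℕ → ℕ → ℕ → ℕ → Bool := onCell 1239849684 370763052 0 536870912 67108864 67108864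
    (rowNK 3 1 false true false .pp 2 0 2 (qsf 1239849684 370763052 1073741824 536870912 0) ndN2q2b ndN3q2 pcN0 Cut.none Ext.none)

def k0_pm_202_b : ∃ t, chk3 f_pm_202_b t 1 1 1 = true :=
  ⟨(b (b (a (b (a (l 18219016) (l 17647840)) (l 17673992)) (b (a (l 17526376) (l 17926264)) (a (l 17834256) (l 18031936)))) (a (b (a (l 17708416) (l 17665272)) (l 17941072)) (b (l 69359272375) (l 2)))) (a (b (b (l 17700736) (a (l 17308600) (l 2))) (l 2)) (l 2))), by decide +kernel⟩

theorem c_pm_202_b : CertN 1239849684 370763052 1073741824 536870912 67108864 67108864 3 false true false .pp 2 0 2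
    ndN2q2b ndN3q2 pcN0 Cut.none Ext.none :=
  certNK1 (fam := false) (s1 := true) (s2 := false) (a := 2) (b := 0) (c := 2) (cn := .pp) (n1 := ndN2q2b) (n2 := ndN3q2) (pc := pcN0) (cut := Cut.none) (xt := Ext.none) (P1 := 1239849684) (W1 := 370763052) (P2 := 1073741824) (W2 := 536870912) (P3 := 67108864) (W3 := 67108864) (N0 := 3)
    rfl rfl rfl (fun _ => rfl) k0_pm_202_b

noncomputable def f_pm_203_a : ℕ → ℕ → ℕ → ℕ → Bool := onCell 0 536870912 0 1230186008 67108864 67108864
    (rowNK 3 0 false true false .up 2 0 3 (qsf 0 536870912 0 1230186008 0) ndN2q2a ndN3q3 pcN0 Cut.none Ext.none)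

def k0_pm_203_a : ∃ t, chk3 f_pm_203_a t 1 1 1 = true :=
  ⟨(b (l 2) (b (l 2) (a (b (l 17872864) (b (l 17987624) (l 18000136))) (b (l 2) (a (l 18018152) (a (l 18112192) (l 18235232))))))), by decide +kernel⟩

theorem c_pm_203_a : CertN 0 536870912 0 1230186008 67108864 67108864 3 false true false .up 2 0 3
    ndN2q2a ndN3q3 pcN0 Cut.none Ext.none :=
  certNK0 (fam := false) (s1 := true) (s2 := false) (a := 2) (b := 0) (c := 3) (cn := .up) (n1 := ndN2q2a) (n2 := ndN3q3) (pc := pcN0) (cut := Cut.none) (xt := Ext.none) (P1 := 0) (W1 := 536870912) (P2 := 0) (W2 := 1230186008) (P3 := 67108864) (W3 := 67108864) (N0 := 3)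
    rfl rfl rfl k0_pm_203_a

noncomputable def f_pm_203_b : ℕ → ℕ → ℕ → ℕ → Bool := onCell 1239849684 370763052 0 1230186008 67108864 67108864
    (rowNK 3 0 false true false .up 2 0 3 (qsf 1239849684 370763052 0 1230186008 0) ndN2q2b ndN3q3 pcN0 Cut.none Ext.none)

def k0_pm_203_b : ∃ t, chk3 f_pm_203_b t 1 1 1 = true :=
  ⟨(b (a (l 2) (l 3)) (b (a (b (a (l 2) (l 17281088)) (a (l 17558608) (l 17510968))) (b (l 3) (a (l 17500568) (l 3)))) (a (b (a (l 17765216) (l 17705936)) (b (l 17832296) (a (l 17892288) (l 17945888)))) (b (a (l 17784128) (l 17781640)) (b (a (l 18010616) (l 18028552)) (a (b (l 18085016) (l 18121544)) (b (l 18161920) (l 18203656)))))))), by decide +kernel⟩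

theorem c_pm_203_b : CertN 1239849684 370763052 0 1230186008 67108864 67108864 3 false true false .up 2 0 3
    ndN2q2b ndN3q3 pcN0 Cut.none Ext.none :=
  certNK0 (fam := false) (s1 := true) (s2 := false) (a := 2) (b := 0) (c := 3) (cn := .up) (n1 := ndN2q2b) (n2 := ndN3q3) (pc := pcN0) (cut := Cut.none) (xt := Ext.none) (P1 := 1239849684) (W1 := 370763052) (P2 := 0) (W2 := 1230186008) (P3 := 67108864) (W3 := 67108864) (N0 := 3)
    rfl rfl rfl k0_pm_203_b

noncomputable def cut_pm_213_a : Cut := Cut.of [[⟨0, 1, 0, 21338704⟩, ⟨1, 1, 0, 21338704⟩, ⟨2, 2, 0, 1685920⟩]]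

noncomputable def f_pm_213_a : ℕ → ℕ → ℕ → ℕ → Bool := onCell 0 536870912 0 1230186008 67108864 67108864
    (rowNK 3 0 false true false .pnn 2 1 3 (qsf 0 536870912 0 1230186008 1) ndN2q2a ndN3q3 pcN1 cut_pm_213_a Ext.none)

def k0_pm_213_a : ∃ t, chk3 f_pm_213_a t 1 1 1 = true :=
  ⟨(b (a (b (l 3) (b (l 253034922727) (l 17327320))) (a (b (b (l 3) (l 305111122919)) (b (l 17175992) (l 17181640))) (a (b (b (a (l 3) (l 304036792519)) (a (l 16863800) (l 16869432))) (b (l 17091688) (l 17165720))) (b (b (a (l 298668063591) (a (l 290615009767) (b (b (l 6) (l 16779152)) (l 16781616)))) (l 16870736)) (b (l 16939800) (l 17162352)))))) (b (a (b (l 17535960) (l 17982600)) (a (b (l 17527096) (l 17991504)) (a (b (l 17516192) (l 17998624)) (b (l 17521688) (l 18019640))))) (a (b (l 18488416) (b (l 18828288) (l 1))) (b (a (l 18531352) (a (l 18563624) (l 18603616))) (a (l 19032232) (a (l 19089520) (l 19140824))))))), by decide +kernel⟩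

theorem c_pm_213_a : CertN 0 536870912 0 1230186008 67108864 67108864 3 false true false .pnn 2 1 3
    ndN2q2a ndN3q3 pcN1 cut_pm_213_a Ext.none :=
  certNK0 (fam := false) (s1 := true) (s2 := false) (a := 2) (b := 1) (c := 3) (cn := .pnn) (n1 := ndN2q2a) (n2 := ndN3q3) (pc := pcN1) (cut := cut_pm_213_a) (xt := Ext.none) (P1 := 0) (W1 := 536870912) (P2 := 0) (W2 := 1230186008) (P3 := 67108864) (W3 := 67108864) (N0 := 3)
    rfl rfl rfl k0_pm_213_a

noncomputable def cut_pm_213_b : Cut := Cut.of [[⟨0, 1, 0, 21338704⟩, ⟨1, 1, 0, 21338704⟩, ⟨2, 2, 0, 1685920⟩]]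

noncomputable def f_pm_213_b : ℕ → ℕ → ℕ → ℕ → Bool := onCell 1239849684 370763052 0 1230186008 67108864 67108864
    (rowNK 3 0 false true false .pnn 2 1 3 (qsf 1239849684 370763052 0 1230186008 1) ndN2q2b ndN3q3 pcN1 cut_pm_213_b Ext.none)

def k0_pm_213_b : ∃ t, chk3 f_pm_213_b t 1 1 1 = true :=
  ⟨(b (a (b (l 3) (a (b (l 3) (l 17107992)) (l 3))) (l 3)) (b (a (b (a (l 17405552) (l 17260488)) (a (l 17828136) (l 17627240))) (b (l 3) (l 1))) (a (b (a (l 18310776) (l 1)) (l 1)) (l 1)))), by decide +kernel⟩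

theorem c_pm_213_b : CertN 1239849684 370763052 0 1230186008 67108864 67108864 3 false true false .pnn 2 1 3
    ndN2q2b ndN3q3 pcN1 cut_pm_213_b Ext.none :=
  certNK0 (fam := false) (s1 := true) (s2 := false) (a := 2) (b := 1) (c := 3) (cn := .pnn) (n1 := ndN2q2b) (n2 := ndN3q3) (pc := pcN1) (cut := cut_pm_213_b) (xt := Ext.none) (P1 := 1239849684) (W1 := 370763052) (P2 := 0) (W2 := 1230186008) (P3 := 67108864) (W3 := 67108864) (N0 := 3)
    rfl rfl rfl k0_pm_213_b

noncomputable def f_pm_303 : ℕ → ℕ → ℕ → ℕ → Bool := onCell 1610612736 536870912 0 1230186008 67108864 67108864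
    (rowNK 3 0 false true false .npn 3 0 3 (qsf 1610612736 536870912 0 1230186008 0) ndN2q3 ndN3q3 pcN0 Cut.none Ext.none)

def k0_pm_303 : ∃ t, chk3 f_pm_303 t 1 1 1 = true :=
  ⟨(b (l 3) (b (a (l 3) (l 3)) (a (b (a (a (l 18922296) (l 3)) (l 3)) (a (b (a (l 18724584) (b (l 18607016) (l 18624088))) (a (b (l 18615040) (l 17944064)) (b (l 17850808) (l 1)))) (b (a (l 3) (l 1)) (l 1)))) (l 1)))), by decide +kernel⟩

theorem c_pm_303 : CertN 1610612736 536870912 0 1230186008 67108864 67108864 3 false true false .npn 3 0 3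
    ndN2q3 ndN3q3 pcN0 Cut.none Ext.none :=
  certNK0 (fam := false) (s1 := true) (s2 := false) (a := 3) (b := 0) (c := 3) (cn := .npn) (n1 := ndN2q3) (n2 := ndN3q3) (pc := pcN0) (cut := Cut.none) (xt := Ext.none) (P1 := 1610612736) (W1 := 536870912) (P2 := 0) (W2 := 1230186008) (P3 := 67108864) (W3 := 67108864) (N0 := 3)
    rfl rfl rfl k0_pm_303

noncomputable def f_pm_313 : ℕ → ℕ → ℕ → ℕ → Bool := onCell 1610612736 536870912 0 1230186008 67108864 67108864
    (rowNK 3 0 false true false .dn 3 1 3 (qsf 1610612736 536870912 0 1230186008 1) ndN2q3 ndN3q3 pcN1 Cut.none Ext.none)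

def k0_pm_313 : ∃ t, chk3 f_pm_313 t 1 1 1 = true :=
  ⟨(b (l 3) (l 1)), by decide +kernel⟩

theorem c_pm_313 : CertN 1610612736 536870912 0 1230186008 67108864 67108864 3 false true false .dn 3 1 3
    ndN2q3 ndN3q3 pcN1 Cut.none Ext.none :=
  certNK0 (fam := false) (s1 := true) (s2 := false) (a := 3) (b := 1) (c := 3) (cn := .dn) (n1 := ndN2q3) (n2 := ndN3q3) (pc := pcN1) (cut := Cut.none) (xt := Ext.none) (P1 := 1610612736) (W1 := 536870912) (P2 := 0) (W2 := 1230186008) (P3 := 67108864) (W3 := 67108864) (N0 := 3)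
    rfl rfl rfl k0_pm_313

noncomputable def f_mm_001 : ℕ → ℕ → ℕ → ℕ → Bool := onCell 0 536870912 0 536870912 67108864 67108864
    (rowNK 3 1 false false false .up 0 0 1 (qsf 0 536870912 536870912 536870912 0) ndN2q0 ndN3q1 pcN0 Cut.none Ext.none)

def k0_mm_001 : ∃ t, chk3 f_mm_001 t 1 1 1 = true :=
  ⟨(l 3), by decide +kernel⟩

theorem c_mm_001 : CertN 0 536870912 536870912 536870912 67108864 67108864 3 false false false .up 0 0 1
    ndN2q0 ndN3q1 pcN0 Cut.none Ext.none :=
  certNK1 (fam := false) (s1 := false) (s2 := false) (a := 0) (b := 0) (c := 1) (cn := .up) (n1 := ndN2q0) (n2 := ndN3q1) (pc := pcN0) (cut := Cut.none) (xt := Ext.none) (P1 := 0) (W1 := 536870912) (P2 := 536870912) (W2 := 536870912) (P3 := 67108864) (W3 := 67108864) (N0 := 3)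
    rfl rfl rfl (fun _ => rfl) k0_mm_001

noncomputable def f_mm_011 : ℕ → ℕ → ℕ → ℕ → Bool := onCell 0 536870912 536870912 536870912 67108864 67108864
    (rowNK 3 1 false false false .pnn 0 1 1 (qsf 0 536870912 536870912 536870912 1) ndN2q0 ndN3q1 pcN1 Cut.none Ext.none)

def k0_mm_011 : ∃ t, chk3 f_mm_011 t 1 1 1 = true :=
  ⟨(l 5), by decide +kernel⟩

theorem c_mm_011 : CertN 0 536870912 536870912 536870912 67108864 67108864 3 false false false .pnn 0 1 1
    ndN2q0 ndN3q1 pcN1 Cut.none Ext.none :=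
  certNK1 (fam := false) (s1 := false) (s2 := false) (a := 0) (b := 1) (c := 1) (cn := .pnn) (n1 := ndN2q0) (n2 := ndN3q1) (pc := pcN1) (cut := Cut.none) (xt := Ext.none) (P1 := 0) (W1 := 536870912) (P2 := 536870912) (W2 := 536870912) (P3 := 67108864) (W3 := 67108864) (N0 := 3)
    rfl rfl rfl (fun _ => rfl) k0_mm_011

noncomputable def f_mm_012 : ℕ → ℕ → ℕ → ℕ → Bool := onCell 0 536870912 1073741824 536870912 67108864 67108864
    (rowNK 3 0 false false false .pnp 0 1 2 (qsf 0 536870912 1073741824 536870912 1) ndN2q0 ndN3q2 pcN1 Cut.none Ext.none)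

def k0_mm_012 : ∃ t, chk3 f_mm_012 t 1 1 1 = true :=
  ⟨(l 5), by decide +kernel⟩

theorem c_mm_012 : CertN 0 536870912 1073741824 536870912 67108864 67108864 3 false false false .pnp 0 1 2
    ndN2q0 ndN3q2 pcN1 Cut.none Ext.none :=
  certNK0 (fam := false) (s1 := false) (s2 := false) (a := 0) (b := 1) (c := 2) (cn := .pnp) (n1 := ndN2q0) (n2 := ndN3q2) (pc := pcN1) (cut := Cut.none) (xt := Ext.none) (P1 := 0) (W1 := 536870912) (P2 := 1073741824) (W2 := 536870912) (P3 := 67108864) (W3 := 67108864) (N0 := 3)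
    rfl rfl rfl k0_mm_012

noncomputable def f_mm_022 : ℕ → ℕ → ℕ → ℕ → Bool := onCell 0 536870912 1073741824 536870912 67108864 67108864
    (rowNK 3 0 false false false .pp 0 2 2 (qsf 0 536870912 1073741824 536870912 2) ndN2q0 ndN3q2 pcN2 Cut.none Ext.none)

def k0_mm_022 : ∃ t, chk3 f_mm_022 t 1 1 1 = true :=
  ⟨(l 5), by decide +kernel⟩

theorem c_mm_022 : CertN 0 536870912 1073741824 536870912 67108864 67108864 3 false false false .pp 0 2 2
    ndN2q0 ndN3q2 pcN2 Cut.none Ext.none :=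
  certNK0 (fam := false) (s1 := false) (s2 := false) (a := 0) (b := 2) (c := 2) (cn := .pp) (n1 := ndN2q0) (n2 := ndN3q2) (pc := pcN2) (cut := Cut.none) (xt := Ext.none) (P1 := 0) (W1 := 536870912) (P2 := 1073741824) (W2 := 536870912) (P3 := 67108864) (W3 := 67108864) (N0 := 3)
    rfl rfl rfl k0_mm_022

noncomputable def f_mm_023 : ℕ → ℕ → ℕ → ℕ → Bool := onCell 0 536870912 0 1230186008 67108864 67108864
    (rowNK 3 0 false false false .up 0 2 3 (qsf 0 536870912 0 1230186008 2) ndN2q0 ndN3q3 pcN2 Cut.none Ext.none)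

def k0_mm_023 : ∃ t, chk3 f_mm_023 t 1 1 1 = true :=
  ⟨(l 5), by decide +kernel⟩

theorem c_mm_023 : CertN 0 536870912 0 1230186008 67108864 67108864 3 false false false .up 0 2 3
    ndN2q0 ndN3q3 pcN2 Cut.none Ext.none :=
  certNK0 (fam := false) (s1 := false) (s2 := false) (a := 0) (b := 2) (c := 3) (cn := .up) (n1 := ndN2q0) (n2 := ndN3q3) (pc := pcN2) (cut := Cut.none) (xt := Ext.none) (P1 := 0) (W1 := 536870912) (P2 := 0) (W2 := 1230186008) (P3 := 67108864) (W3 := 67108864) (N0 := 3)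
    rfl rfl rfl k0_mm_023

noncomputable def f_mm_033 : ℕ → ℕ → ℕ → ℕ → Bool := onCell 0 536870912 0 1230186008 67108864 67108864
    (rowNK 3 0 false false false .pnn 0 3 3 (qsf 0 536870912 0 1230186008 3) ndN2q0 ndN3q3 pcN3 Cut.none Ext.none)

def k0_mm_033 : ∃ t, chk3 f_mm_033 t 1 1 1 = true :=
  ⟨(l 5), by decide +kernel⟩

theorem c_mm_033 : CertN 0 536870912 0 1230186008 67108864 67108864 3 false false false .pnn 0 3 3
    ndN2q0 ndN3q3 pcN3 Cut.none Ext.none :=
  certNK0 (fam := false) (s1 := false) (s2 := false) (a := 0) (b := 3) (c := 3) (cn := .pnn) (n1 := ndN2q0) (n2 := ndN3q3) (pc := pcN3) (cut := Cut.none) (xt := Ext.none) (P1 := 0) (W1 := 536870912) (P2 := 0) (W2 := 1230186008) (P3 := 67108864) (W3 := 67108864) (N0 := 3)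
    rfl rfl rfl k0_mm_033

noncomputable def f_mm_101 : ℕ → ℕ → ℕ → ℕ → Bool := onCell 536870912 536870912 536870912 536870912 67108864 67108864
    (rowNK 3 0 false false false .npn 1 0 1 (qsf 536870912 536870912 536870912 536870912 0) ndN2q1 ndN3q1 pcN0 Cut.none Ext.none)

def k0_mm_101 : ∃ t, chk3 f_mm_101 t 1 1 1 = true :=
  ⟨(l 3), by decide +kernel⟩

theorem c_mm_101 : CertN 536870912 536870912 536870912 536870912 67108864 67108864 3 false false false .npn 1 0 1
    ndN2q1 ndN3q1 pcN0 Cut.none Ext.none :=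
  certNK0 (fam := false) (s1 := false) (s2 := false) (a := 1) (b := 0) (c := 1) (cn := .npn) (n1 := ndN2q1) (n2 := ndN3q1) (pc := pcN0) (cut := Cut.none) (xt := Ext.none) (P1 := 536870912) (W1 := 536870912) (P2 := 536870912) (W2 := 536870912) (P3 := 67108864) (W3 := 67108864) (N0 := 3)
    rfl rfl rfl k0_mm_101

noncomputable def f_mm_102 : ℕ → ℕ → ℕ → ℕ → Bool := onCell 536870912 536870912 1073741824 536870912 67108864 67108864
    (rowNK 3 0 false false false .npp 1 0 2 (qsf 536870912 536870912 1073741824 536870912 0) ndN2q1 ndN3q2 pcN0 Cut.none Ext.none)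

def k0_mm_102 : ∃ t, chk3 f_mm_102 t 1 1 1 = true :=
  ⟨(l 5), by decide +kernel⟩

theorem c_mm_102 : CertN 536870912 536870912 1073741824 536870912 67108864 67108864 3 false false false .npp 1 0 2
    ndN2q1 ndN3q2 pcN0 Cut.none Ext.none :=
  certNK0 (fam := false) (s1 := false) (s2 := false) (a := 1) (b := 0) (c := 2) (cn := .npp) (n1 := ndN2q1) (n2 := ndN3q2) (pc := pcN0) (cut := Cut.none) (xt := Ext.none) (P1 := 536870912) (W1 := 536870912) (P2 := 1073741824) (W2 := 536870912) (P3 := 67108864) (W3 := 67108864) (N0 := 3)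
    rfl rfl rfl k0_mm_102

noncomputable def f_mm_112 : ℕ → ℕ → ℕ → ℕ → Bool := onCell 536870912 536870912 1073741824 536870912 67108864 67108864
    (rowNK 3 0 false false false .dn 1 1 2 (qsf 536870912 536870912 1073741824 536870912 1) ndN2q1 ndN3q2 pcN1 Cut.none Ext.none)

def k0_mm_112 : ∃ t, chk3 f_mm_112 t 1 1 1 = true :=
  ⟨(l 5), by decide +kernel⟩

theorem c_mm_112 : CertN 536870912 536870912 1073741824 536870912 67108864 67108864 3 false false false .dn 1 1 2
    ndN2q1 ndN3q2 pcN1 Cut.none Ext.none :=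
  certNK0 (fam := false) (s1 := false) (s2 := false) (a := 1) (b := 1) (c := 2) (cn := .dn) (n1 := ndN2q1) (n2 := ndN3q2) (pc := pcN1) (cut := Cut.none) (xt := Ext.none) (P1 := 536870912) (W1 := 536870912) (P2 := 1073741824) (W2 := 536870912) (P3 := 67108864) (W3 := 67108864) (N0 := 3)
    rfl rfl rfl k0_mm_112

noncomputable def f_mm_113 : ℕ → ℕ → ℕ → ℕ → Bool := onCell 536870912 536870912 0 1230186008 67108864 67108864
    (rowNK 3 0 false false false .nn 1 1 3 (qsf 536870912 536870912 0 1230186008 1) ndN2q1 ndN3q3 pcN1 Cut.none Ext.none)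

def k0_mm_113 : ∃ t, chk3 f_mm_113 t 1 1 1 = true :=
  ⟨(l 5), by decide +kernel⟩

theorem c_mm_113 : CertN 536870912 536870912 0 1230186008 67108864 67108864 3 false false false .nn 1 1 3
    ndN2q1 ndN3q3 pcN1 Cut.none Ext.none :=
  certNK0 (fam := false) (s1 := false) (s2 := false) (a := 1) (b := 1) (c := 3) (cn := .nn) (n1 := ndN2q1) (n2 := ndN3q3) (pc := pcN1) (cut := Cut.none) (xt := Ext.none) (P1 := 536870912) (W1 := 536870912) (P2 := 0) (W2 := 1230186008) (P3 := 67108864) (W3 := 67108864) (N0 := 3)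
    rfl rfl rfl k0_mm_113

noncomputable def f_mm_123 : ℕ → ℕ → ℕ → ℕ → Bool := onCell 536870912 536870912 0 1230186008 67108864 67108864
    (rowNK 3 0 false false false .npn 1 2 3 (qsf 536870912 536870912 0 1230186008 2) ndN2q1 ndN3q3 pcN2 Cut.none Ext.none)

def k0_mm_123 : ∃ t, chk3 f_mm_123 t 1 1 1 = true :=
  ⟨(l 5), by decide +kernel⟩

theorem c_mm_123 : CertN 536870912 536870912 0 1230186008 67108864 67108864 3 false false false .npn 1 2 3
    ndN2q1 ndN3q3 pcN2 Cut.none Ext.none :=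
  certNK0 (fam := false) (s1 := false) (s2 := false) (a := 1) (b := 2) (c := 3) (cn := .npn) (n1 := ndN2q1) (n2 := ndN3q3) (pc := pcN2) (cut := Cut.none) (xt := Ext.none) (P1 := 536870912) (W1 := 536870912) (P2 := 0) (W2 := 1230186008) (P3 := 67108864) (W3 := 67108864) (N0 := 3)
    rfl rfl rfl k0_mm_123

noncomputable def f_mm_133 : ℕ → ℕ → ℕ → ℕ → Bool := onCell 536870912 536870912 0 1230186008 67108864 67108864
    (rowNK 3 0 false false false .dn 1 3 3 (qsf 536870912 536870912 0 1230186008 3) ndN2q1 ndN3q3 pcN3 Cut.none Ext.none)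

def k0_mm_133 : ∃ t, chk3 f_mm_133 t 1 1 1 = true :=
  ⟨(l 5), by decide +kernel⟩

theorem c_mm_133 : CertN 536870912 536870912 0 1230186008 67108864 67108864 3 false false false .dn 1 3 3
    ndN2q1 ndN3q3 pcN3 Cut.none Ext.none :=
  certNK0 (fam := false) (s1 := false) (s2 := false) (a := 1) (b := 3) (c := 3) (cn := .dn) (n1 := ndN2q1) (n2 := ndN3q3) (pc := pcN3) (cut := Cut.none) (xt := Ext.none) (P1 := 536870912) (W1 := 536870912) (P2 := 0) (W2 := 1230186008) (P3 := 67108864) (W3 := 67108864) (N0 := 3)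
    rfl rfl rfl k0_mm_133

noncomputable def f_mm_202_a : ℕ → ℕ → ℕ → ℕ → Bool := onCell 0 536870912 1073741824 536870912 67108864 67108864
    (rowNK 3 0 false false false .pp 2 0 2 (qsf 0 536870912 1073741824 536870912 0) ndN2q2a ndN3q2 pcN0 Cut.none Ext.none)

def k0_mm_202_a : ∃ t, chk3 f_mm_202_a t 1 1 1 = true :=
  ⟨(l 3), by decide +kernel⟩

theorem c_mm_202_a : CertN 0 536870912 1073741824 536870912 67108864 67108864 3 false false false .pp 2 0 2
    ndN2q2a ndN3q2 pcN0 Cut.none Ext.none :=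
  certNK0 (fam := false) (s1 := false) (s2 := false) (a := 2) (b := 0) (c := 2) (cn := .pp) (n1 := ndN2q2a) (n2 := ndN3q2) (pc := pcN0) (cut := Cut.none) (xt := Ext.none) (P1 := 0) (W1 := 536870912) (P2 := 1073741824) (W2 := 536870912) (P3 := 67108864) (W3 := 67108864) (N0 := 3)
    rfl rfl rfl k0_mm_202_a

noncomputable def f_mm_202_b : ℕ → ℕ → ℕ → ℕ → Bool := onCell 1239849684 370763052 1073741824 536870912 67108864 67108864
    (rowNK 3 0 false false false .pp 2 0 2 (qsf 1239849684 370763052 1073741824 536870912 0) ndN2q2b ndN3q2 pcN0 Cut.none Ext.none)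

def k0_mm_202_b : ∃ t, chk3 f_mm_202_b t 1 1 1 = true :=
  ⟨(l 3), by decide +kernel⟩

theorem c_mm_202_b : CertN 1239849684 370763052 1073741824 536870912 67108864 67108864 3 false false false .pp 2 0 2
    ndN2q2b ndN3q2 pcN0 Cut.none Ext.none :=
  certNK0 (fam := false) (s1 := false) (s2 := false) (a := 2) (b := 0) (c := 2) (cn := .pp) (n1 := ndN2q2b) (n2 := ndN3q2) (pc := pcN0) (cut := Cut.none) (xt := Ext.none) (P1 := 1239849684) (W1 := 370763052) (P2 := 1073741824) (W2 := 536870912) (P3 := 67108864) (W3 := 67108864) (N0 := 3)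
    rfl rfl rfl k0_mm_202_b

noncomputable def f_mm_203_a : ℕ → ℕ → ℕ → ℕ → Bool := onCell 0 536870912 0 1230186008 67108864 67108864
    (rowNK 3 0 false false false .up 2 0 3 (qsf 0 536870912 0 1230186008 0) ndN2q2a ndN3q3 pcN0 Cut.none Ext.none)

def k0_mm_203_a : ∃ t, chk3 f_mm_203_a t 1 1 1 = true :=
  ⟨(b (l 2) (l 3)), by decide +kernel⟩

theorem c_mm_203_a : CertN 0 536870912 0 1230186008 67108864 67108864 3 false false false .up 2 0 3
    ndN2q2a ndN3q3 pcN0 Cut.none Ext.none :=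
  certNK0 (fam := false) (s1 := false) (s2 := false) (a := 2) (b := 0) (c := 3) (cn := .up) (n1 := ndN2q2a) (n2 := ndN3q3) (pc := pcN0) (cut := Cut.none) (xt := Ext.none) (P1 := 0) (W1 := 536870912) (P2 := 0) (W2 := 1230186008) (P3 := 67108864) (W3 := 67108864) (N0 := 3)
    rfl rfl rfl k0_mm_203_a

noncomputable def f_mm_203_b : ℕ → ℕ → ℕ → ℕ → Bool := onCell 1239849684 370763052 0 1230186008 67108864 67108864
    (rowNK 3 0 false false false .up 2 0 3 (qsf 1239849684 370763052 0 1230186008 0) ndN2q2b ndN3q3 pcN0 Cut.none Ext.none)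

def k0_mm_203_b : ∃ t, chk3 f_mm_203_b t 1 1 1 = true :=
  ⟨(b (l 3) (l 3)), by decide +kernel⟩

theorem c_mm_203_b : CertN 1239849684 370763052 0 1230186008 67108864 67108864 3 false false false .up 2 0 3
    ndN2q2b ndN3q3 pcN0 Cut.none Ext.none :=
  certNK0 (fam := false) (s1 := false) (s2 := false) (a := 2) (b := 0) (c := 3) (cn := .up) (n1 := ndN2q2b) (n2 := ndN3q3) (pc := pcN0) (cut := Cut.none) (xt := Ext.none) (P1 := 1239849684) (W1 := 370763052) (P2 := 0) (W2 := 1230186008) (P3 := 67108864) (W3 := 67108864) (N0 := 3)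
    rfl rfl rfl k0_mm_203_b

noncomputable def f_mm_213_a : ℕ → ℕ → ℕ → ℕ → Bool := onCell 0 536870912 0 1230186008 67108864 67108864
    (rowNK 3 0 false false false .pnn 2 1 3 (qsf 0 536870912 0 1230186008 1) ndN2q2a ndN3q3 pcN1 Cut.none Ext.none)

def k0_mm_213_a : ∃ t, chk3 f_mm_213_a t 1 1 1 = true :=
  ⟨(b (l 5) (l 3)), by decide +kernel⟩

theorem c_mm_213_a : CertN 0 536870912 0 1230186008 67108864 67108864 3 false false false .pnn 2 1 3
    ndN2q2a ndN3q3 pcN1 Cut.none Ext.none :=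
  certNK0 (fam := false) (s1 := false) (s2 := false) (a := 2) (b := 1) (c := 3) (cn := .pnn) (n1 := ndN2q2a) (n2 := ndN3q3) (pc := pcN1) (cut := Cut.none) (xt := Ext.none) (P1 := 0) (W1 := 536870912) (P2 := 0) (W2 := 1230186008) (P3 := 67108864) (W3 := 67108864) (N0 := 3)
    rfl rfl rfl k0_mm_213_a

noncomputable def f_mm_213_b : ℕ → ℕ → ℕ → ℕ → Bool := onCell 1239849684 370763052 0 1230186008 67108864 67108864
    (rowNK 3 0 false false false .pnn 2 1 3 (qsf 1239849684 370763052 0 1230186008 1) ndN2q2b ndN3q3 pcN1 Cut.none Ext.none)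

def k0_mm_213_b : ∃ t, chk3 f_mm_213_b t 1 1 1 = true :=
  ⟨(b (l 3) (l 3)), by decide +kernel⟩

theorem c_mm_213_b : CertN 1239849684 370763052 0 1230186008 67108864 67108864 3 false false false .pnn 2 1 3
    ndN2q2b ndN3q3 pcN1 Cut.none Ext.none :=
  certNK0 (fam := false) (s1 := false) (s2 := false) (a := 2) (b := 1) (c := 3) (cn := .pnn) (n1 := ndN2q2b) (n2 := ndN3q3) (pc := pcN1) (cut := Cut.none) (xt := Ext.none) (P1 := 1239849684) (W1 := 370763052) (P2 := 0) (W2 := 1230186008) (P3 := 67108864) (W3 := 67108864) (N0 := 3)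
    rfl rfl rfl k0_mm_213_b

noncomputable def f_mm_303 : ℕ → ℕ → ℕ → ℕ → Bool := onCell 1610612736 536870912 0 1230186008 67108864 67108864
    (rowNK 3 0 false false false .npn 3 0 3 (qsf 1610612736 536870912 0 1230186008 0) ndN2q3 ndN3q3 pcN0 Cut.none Ext.none)

def k0_mm_303 : ∃ t, chk3 f_mm_303 t 1 1 1 = true :=
  ⟨(b (l 3) (l 3)), by decide +kernel⟩

theorem c_mm_303 : CertN 1610612736 536870912 0 1230186008 67108864 67108864 3 false false false .npn 3 0 3
    ndN2q3 ndN3q3 pcN0 Cut.none Ext.none :=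
  certNK0 (fam := false) (s1 := false) (s2 := false) (a := 3) (b := 0) (c := 3) (cn := .npn) (n1 := ndN2q3) (n2 := ndN3q3) (pc := pcN0) (cut := Cut.none) (xt := Ext.none) (P1 := 1610612736) (W1 := 536870912) (P2 := 0) (W2 := 1230186008) (P3 := 67108864) (W3 := 67108864) (N0 := 3)
    rfl rfl rfl k0_mm_303

noncomputable def f_mm_313 : ℕ → ℕ → ℕ → ℕ → Bool := onCell 1610612736 536870912 0 1230186008 67108864 67108864
    (rowNK 3 0 false false false .dn 3 1 3 (qsf 1610612736 536870912 0 1230186008 1) ndN2q3 ndN3q3 pcN1 Cut.none Ext.none)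

def k0_mm_313 : ∃ t, chk3 f_mm_313 t 1 1 1 = true :=
  ⟨(b (l 3) (l 1)), by decide +kernel⟩

theorem c_mm_313 : CertN 1610612736 536870912 0 1230186008 67108864 67108864 3 false false false .dn 3 1 3
    ndN2q3 ndN3q3 pcN1 Cut.none Ext.none :=
  certNK0 (fam := false) (s1 := false) (s2 := false) (a := 3) (b := 1) (c := 3) (cn := .dn) (n1 := ndN2q3) (n2 := ndN3q3) (pc := pcN1) (cut := Cut.none) (xt := Ext.none) (P1 := 1610612736) (W1 := 536870912) (P2 := 0) (W2 := 1230186008) (P3 := 67108864) (W3 := 67108864) (N0 := 3)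
    rfl rfl rfl k0_mm_313

end Pool.Agent.Strip051.G.I1_16_1_8.Tab.C.NB23

namespace Pool.Agent.Strip051.G.I1_16_1_8.Tab.C.NB24

open Pool.Agent.Strip051.PB Pool.Agent.Strip051.PB.T
open Pool.Agent.Strip051.G.I1_16_1_8.Tab

noncomputable def f_pp_001 : ℕ → ℕ → ℕ → ℕ → Bool := onCell 0 536870912 0 536870912 67108864 67108864
    (rowNK 3 1 false true true .up 0 0 1 (qsf 0 536870912 536870912 536870912 0) ndN2q0 ndN4q1 pcN0 Cut.none Ext.none)

def k0_pp_001 : ∃ t, chk3 f_pp_001 t 1 1 1 = true :=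
  ⟨(l 3), by decide +kernel⟩

theorem c_pp_001 : CertN 0 536870912 536870912 536870912 67108864 67108864 3 false true true .up 0 0 1
    ndN2q0 ndN4q1 pcN0 Cut.none Ext.none :=
  certNK1 (fam := false) (s1 := true) (s2 := true) (a := 0) (b := 0) (c := 1) (cn := .up) (n1 := ndN2q0) (n2 := ndN4q1) (pc := pcN0) (cut := Cut.none) (xt := Ext.none) (P1 := 0) (W1 := 536870912) (P2 := 536870912) (W2 := 536870912) (P3 := 67108864) (W3 := 67108864) (N0 := 3)
    rfl rfl rfl (fun _ => rfl) k0_pp_001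

noncomputable def cut_pp_011 : Cut := Cut.of [[⟨0, 0, 0, 67108864⟩, ⟨1, 1, 0, 67108864⟩, ⟨2, 1, 0, 67108864⟩]]

noncomputable def f_pp_011 : ℕ → ℕ → ℕ → ℕ → Bool := onCell 0 536870912 536870912 536870912 67108864 67108864
    (rowNK 3 1 false true true .pnn 0 1 1 (qsf 0 536870912 536870912 536870912 1) ndN2q0 ndN4q1 pcN1 cut_pp_011 Ext.none)

def k0_pp_011 : ∃ t, chk3 f_pp_011 t 1 1 1 = true :=
  ⟨(b (l 3) (a (b (l 3) (a (b (l 3) (a (b (l 3) (a (l 6) (l 3))) (l 3))) (l 3))) (l 3))), by decide +kernel⟩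

theorem c_pp_011 : CertN 0 536870912 536870912 536870912 67108864 67108864 3 false true true .pnn 0 1 1
    ndN2q0 ndN4q1 pcN1 cut_pp_011 Ext.none :=
  certNK1 (fam := false) (s1 := true) (s2 := true) (a := 0) (b := 1) (c := 1) (cn := .pnn) (n1 := ndN2q0) (n2 := ndN4q1) (pc := pcN1) (cut := cut_pp_011) (xt := Ext.none) (P1 := 0) (W1 := 536870912) (P2 := 536870912) (W2 := 536870912) (P3 := 67108864) (W3 := 67108864) (N0 := 3)
    rfl rfl rfl (fun _ => rfl) k0_pp_011

noncomputable def cut_pp_012 : Cut := Cut.of [[⟨0, 0, 0, 67108864⟩, ⟨1, 1, 0, 67108864⟩, ⟨2, 1, 0, 67108864⟩]]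

noncomputable def f_pp_012 : ℕ → ℕ → ℕ → ℕ → Bool := onCell 0 536870912 536870912 536870912 67108864 67108864
    (rowNK 3 1 false true true .pnp 0 1 2 (qsf 0 536870912 1073741824 536870912 1) ndN2q0 ndN4q2 pcN1 cut_pp_012 Ext.none)

def k0_pp_012 : ∃ t, chk3 f_pp_012 t 1 1 1 = true :=
  ⟨(b (l 3) (a (b (l 3) (a (b (l 3) (a (b (l 3) (a (l 6) (l 3))) (l 3))) (l 3))) (l 3))), by decide +kernel⟩

theorem c_pp_012 : CertN 0 536870912 1073741824 536870912 67108864 67108864 3 false true true .pnp 0 1 2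
    ndN2q0 ndN4q2 pcN1 cut_pp_012 Ext.none :=
  certNK1 (fam := false) (s1 := true) (s2 := true) (a := 0) (b := 1) (c := 2) (cn := .pnp) (n1 := ndN2q0) (n2 := ndN4q2) (pc := pcN1) (cut := cut_pp_012) (xt := Ext.none) (P1 := 0) (W1 := 536870912) (P2 := 1073741824) (W2 := 536870912) (P3 := 67108864) (W3 := 67108864) (N0 := 3)
    rfl rfl rfl (fun _ => rfl) k0_pp_012

noncomputable def cut_pp_022 : Cut := Cut.of [[⟨0, 0, 0, 67108864⟩, ⟨1, 1, 0, 67108864⟩, ⟨2, 1, 0, 67108864⟩]]

noncomputable def f_pp_022 : ℕ → ℕ → ℕ → ℕ → Bool := onCell 0 536870912 1073741824 536870912 67108864 67108864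
    (rowNK 3 1 false true true .pp 0 2 2 (qsf 0 536870912 1073741824 536870912 2) ndN2q0 ndN4q2 pcN2 cut_pp_022 Ext.none)

def k0_pp_022 : ∃ t, chk3 f_pp_022 t 1 1 1 = true :=
  ⟨(a (b (a (b (a (a (b (b (a (l 6) (a (l 6) (l 3))) (b (b (a (l 6) (l 16909176)) (a (a (l 6) (l 16766192)) (l 16869032))) (a (a (a (b (l 6) (l 16683520)) (l 16754688)) (l 16760128)) (l 16903072)))) (b (b (a (a (a (b (l 16667280) (l 16653760)) (l 16695384)) (l 16722120)) (l 16802608)) (a (a (a (b (l 16640312) (l 16626928)) (l 16635520)) (l 16711104)) (l 16966568))) (a (a (b (a (l 16738192) (l 17057536)) (c (l 17959840) (l 16723576))) (b (l 17159400) (l 17509464))) (b (l 17284072) (l 17549168))))) (b (b (l 3) (b (l 3) (a (l 16982144) (l 3)))) (b (a (l 17025368) (l 17147272)) (l 17447896)))) (b (l 3) (b (l 17594400) (l 17451016)))) (b (a (b (b (a (a (a (c (l 18231456) (l 17174544)) (l 17786808)) (l 17770368)) (l 17682232)) (b (a (a (l 17841872) (l 17912576)) (l 17786616)) (a (a (l 18073160)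 (l 17998632)) (b (l 17837016) (l 17869624))))) (a (a (l 18171536) (l 18185120)) (l 17998280))) (b (b (l 17501632) (b (l 17555944) (b (l 17583320) (l 17600624)))) (l 17676976))) (a (a (a (l 18661496) (l 18489656)) (l 18253272)) (l 17853840)))) (b (a (l 3) (l 3)) (b (b (b (l 17715088) (b (l 17681984) (a (l 17520888) (l 17798424)))) (l 17610792)) (l 17630032)))) (a (b (a (a (b (l 18797584) (l 18874912)) (l 18522672)) (l 18074144)) (a (l 18707448) (l 18149304))) (b (a (l 17613440) (l 17360856)) (a (l 17623912) (l 2))))) (b (a (b (l 3) (b (b (b (l 18191600) (l 18136120)) (l 18052392)) (l 17877608))) (b (b (l 3) (l 18609056)) (b (b (l 18294840) (l 2)) (l 2)))) (a (b (a (l 17468744) (l 2)) (l 2)) (l 2)))), by decide +kernel⟩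

theorem c_pp_022 : CertN 0 536870912 1073741824 536870912 67108864 67108864 3 false true true .pp 0 2 2
    ndN2q0 ndN4q2 pcN2 cut_pp_022 Ext.none :=
  certNK1 (fam := false) (s1 := true) (s2 := true) (a := 0) (b := 2) (c := 2) (cn := .pp) (n1 := ndN2q0) (n2 := ndN4q2) (pc := pcN2) (cut := cut_pp_022) (xt := Ext.none) (P1 := 0) (W1 := 536870912) (P2 := 1073741824) (W2 := 536870912) (P3 := 67108864) (W3 := 67108864) (N0 := 3)
    rfl rfl rfl (fun _ => rfl) k0_pp_022

noncomputable def f_pp_023 : ℕ → ℕ → ℕ → ℕ → Bool := onCell 1073741824 536870912 0 1230186008 67108864 67108864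
    (rowNK 3 2 false true true .up 0 2 3 (qsf 0 536870912 0 1230186008 2) ndN2q0 ndN4q3 pcN2 Cut.none Ext.none)

def k0_pp_023 : ∃ t, chk3 f_pp_023 t 1 1 1 = true :=
  ⟨(a (b (l 2) (b (a (l 2) (b (l 2) (l 17826456))) (b (a (l 2) (l 18199472)) (a (a (l 18585560) (l 18448656)) (a (a (l 18294504) (l 18165776)) (l 17938344)))))) (b (a (l 2) (l 17429248)) (b (b (l 17525472) (l 17670200)) (b (a (l 17637152) (b (l 17040552) (l 17145288))) (a (b (l 17481264) (l 17353896)) (b (l 17537984) (l 18096616))))))), by decide +kernel⟩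

theorem c_pp_023 : CertN 0 536870912 0 1230186008 67108864 67108864 3 false true true .up 0 2 3
    ndN2q0 ndN4q3 pcN2 Cut.none Ext.none :=
  certNK2 (fam := false) (s1 := true) (s2 := true) (a := 0) (b := 2) (c := 3) (cn := .up) (n1 := ndN2q0) (n2 := ndN4q3) (pc := pcN2) (cut := Cut.none) (xt := Ext.none) (P1 := 0) (W1 := 536870912) (P2 := 0) (W2 := 1230186008) (P3 := 67108864) (W3 := 67108864) (N0 := 3)
    rfl rfl rfl (fun _ => rfl) k0_pp_023

noncomputable def f_pp_033 : ℕ → ℕ → ℕ → ℕ → Bool := onCell 0 536870912 0 1230186008 67108864 67108864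
    (rowNK 3 0 false true true .pnn 0 3 3 (qsf 0 536870912 0 1230186008 3) ndN2q0 ndN4q3 pcN3 Cut.none Ext.none)

def k0_pp_033 : ∃ t, chk3 f_pp_033 t 1 1 1 = true :=
  ⟨(b (b (a (l 4) (a (l 4) (l 18202840))) (a (a (a (b (l 4) (l 17730408)) (b (l 17306592) (l 17264272))) (b (a (l 16892016) (l 16955656)) (a (l 16939944) (l 17327536)))) (a (b (l 17353624) (l 17845144)) (b (l 17717992) (l 18373656))))) (b (a (a (b (a (l 17875808) (b (l 17072496) (l 17267960))) (a (b (l 18355344) (l 18435904)) (b (l 17983256) (l 18394312)))) (b (b (l 17551792) (l 17330856)) (b (l 17326576) (a (l 18268160) (l 18017360))))) (b (a (b (l 18296256) (l 17908480)) (l 18523432)) (a (b (l 17048200) (l 17491072)) (l 1)))) (a (a (b (a (b (l 18430760) (l 18389136)) (b (l 18009960) (a (l 17928272) (l 17600448)))) (a (l 18685792) (l 18018200))) (b (a (b (l 17698984) (l 17216240)) (b (l 17740664) (l 1))) (a (l 17327280) (l 1)))) (l 1)))), by decide +kernel⟩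

theorem c_pp_033 : CertN 0 536870912 0 1230186008 67108864 67108864 3 false true true .pnn 0 3 3
    ndN2q0 ndN4q3 pcN3 Cut.none Ext.none :=
  certNK0 (fam := false) (s1 := true) (s2 := true) (a := 0) (b := 3) (c := 3) (cn := .pnn) (n1 := ndN2q0) (n2 := ndN4q3) (pc := pcN3) (cut := Cut.none) (xt := Ext.none) (P1 := 0) (W1 := 536870912) (P2 := 0) (W2 := 1230186008) (P3 := 67108864) (W3 := 67108864) (N0 := 3)
    rfl rfl rfl k0_pp_033

noncomputable def f_pp_101 : ℕ → ℕ → ℕ → ℕ → Bool := onCell 536870912 536870912 536870912 536870912 67108864 67108864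
    (rowNK 3 0 false true true .npn 1 0 1 (qsf 536870912 536870912 536870912 536870912 0) ndN2q1 ndN4q1 pcN0 Cut.none Ext.none)

def k0_pp_101 : ∃ t, chk3 f_pp_101 t 1 1 1 = true :=
  ⟨(l 3), by decide +kernel⟩

theorem c_pp_101 : CertN 536870912 536870912 536870912 536870912 67108864 67108864 3 false true true .npn 1 0 1
    ndN2q1 ndN4q1 pcN0 Cut.none Ext.none :=
  certNK0 (fam := false) (s1 := true) (s2 := true) (a := 1) (b := 0) (c := 1) (cn := .npn) (n1 := ndN2q1) (n2 := ndN4q1) (pc := pcN0) (cut := Cut.none) (xt := Ext.none) (P1 := 536870912) (W1 := 536870912) (P2 := 536870912) (W2 := 536870912) (P3 := 67108864) (W3 := 67108864) (N0 := 3)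
    rfl rfl rfl k0_pp_101

noncomputable def f_pp_102 : ℕ → ℕ → ℕ → ℕ → Bool := onCell 536870912 536870912 1073741824 536870912 67108864 67108864
    (rowNK 3 0 false true true .npp 1 0 2 (qsf 536870912 536870912 1073741824 536870912 0) ndN2q1 ndN4q2 pcN0 Cut.none Ext.none)

def k0_pp_102 : ∃ t, chk3 f_pp_102 t 1 1 1 = true :=
  ⟨(l 3), by decide +kernel⟩

theorem c_pp_102 : CertN 536870912 536870912 1073741824 536870912 67108864 67108864 3 false true true .npp 1 0 2
    ndN2q1 ndN4q2 pcN0 Cut.none Ext.none :=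
  certNK0 (fam := false) (s1 := true) (s2 := true) (a := 1) (b := 0) (c := 2) (cn := .npp) (n1 := ndN2q1) (n2 := ndN4q2) (pc := pcN0) (cut := Cut.none) (xt := Ext.none) (P1 := 536870912) (W1 := 536870912) (P2 := 1073741824) (W2 := 536870912) (P3 := 67108864) (W3 := 67108864) (N0 := 3)
    rfl rfl rfl k0_pp_102

noncomputable def f_pp_112 : ℕ → ℕ → ℕ → ℕ → Bool := onCell 536870912 536870912 1073741824 536870912 67108864 67108864
    (rowNK 3 0 false true true .dn 1 1 2 (qsf 536870912 536870912 1073741824 536870912 1) ndN2q1 ndN4q2 pcN1 Cut.none Ext.none)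

def k0_pp_112 : ∃ t, chk3 f_pp_112 t 1 1 1 = true :=
  ⟨(l 3), by decide +kernel⟩

theorem c_pp_112 : CertN 536870912 536870912 1073741824 536870912 67108864 67108864 3 false true true .dn 1 1 2
    ndN2q1 ndN4q2 pcN1 Cut.none Ext.none :=
  certNK0 (fam := false) (s1 := true) (s2 := true) (a := 1) (b := 1) (c := 2) (cn := .dn) (n1 := ndN2q1) (n2 := ndN4q2) (pc := pcN1) (cut := Cut.none) (xt := Ext.none) (P1 := 536870912) (W1 := 536870912) (P2 := 1073741824) (W2 := 536870912) (P3 := 67108864) (W3 := 67108864) (N0 := 3)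
    rfl rfl rfl k0_pp_112

noncomputable def f_pp_113 : ℕ → ℕ → ℕ → ℕ → Bool := onCell 536870912 536870912 0 1230186008 67108864 67108864
    (rowNK 3 0 false true true .nn 1 1 3 (qsf 536870912 536870912 0 1230186008 1) ndN2q1 ndN4q3 pcN1 Cut.none Ext.none)

def k0_pp_113 : ∃ t, chk3 f_pp_113 t 1 1 1 = true :=
  ⟨(b (a (l 2) (a (l 2) (a (b (l 2) (b (l 17155296) (a (l 17440536) (l 17672488)))) (b (a (l 2) (l 17028840)) (b (a (l 17469248) (b (l 17542376) (b (a (l 17700832) (l 17839296)) (l 17877592)))) (a (l 17918328) (l 18107568))))))) (b (a (a (l 2) (b (l 2) (a (l 2) (l 18117968)))) (a (b (a (l 2) (l 17438576)) (a (l 17141432) (l 17893960))) (a (b (l 18051768) (l 18436976)) (a (l 270754802327) (l 276123769655))))) (a (b (a (l 2) (b (l 17991368) (l 17603560))) (a (b (a (l 2) (l 18113744)) (l 3)) (l 3))) (b (a (a (l 17443080) (l 18309640)) (l 3)) (l 3))))), by decide +kernel⟩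

theorem c_pp_113 : CertN 536870912 536870912 0 1230186008 67108864 67108864 3 false true true .nn 1 1 3
    ndN2q1 ndN4q3 pcN1 Cut.none Ext.none :=
  certNK0 (fam := false) (s1 := true) (s2 := true) (a := 1) (b := 1) (c := 3) (cn := .nn) (n1 := ndN2q1) (n2 := ndN4q3) (pc := pcN1) (cut := Cut.none) (xt := Ext.none) (P1 := 536870912) (W1 := 536870912) (P2 := 0) (W2 := 1230186008) (P3 := 67108864) (W3 := 67108864) (N0 := 3)
    rfl rfl rfl k0_pp_113

noncomputable def f_pp_123 : ℕ → ℕ → ℕ → ℕ → Bool := onCell 1073741824 536870912 0 1230186008 67108864 67108864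
    (rowNK 3 2 false true true .npn 1 2 3 (qsf 536870912 536870912 0 1230186008 2) ndN2q1 ndN4q3 pcN2 Cut.none Ext.none)

def k0_pp_123 : ∃ t, chk3 f_pp_123 t 1 1 1 = true :=
  ⟨(b (b (a (b (a (a (a (l 16846128) (a (l 16844864) (l 16810608))) (l 16854536)) (l 17393728)) (a (a (b (a (l 16989080) (l 16991648)) (a (a (l 17103936) (l 17113784)) (l 17083232))) (l 16939016)) (l 17448208))) (l 320012662823)) (a (a (b (a (a (b (a (l 17269440) (l 17208152)) (l 17375864)) (l 17298728)) (l 17015328)) (a (a (b (l 17462832) (l 17529496)) (l 17341608)) (l 16917416))) (l 17759464)) (l 182037574663))) (b (a (a (a (b (a (l 17378848) (l 17022368)) (a (l 17327552) (l 17600880))) (l 17842064)) (b (l 18190440) (l 18546664))) (a (l 18854952) (l 18779192))) (a (a (a (b (a (l 17930776) (l 18147312)) (l 18191880)) (b (l 18462664) (l 18678480))) (a (a (a (l 366183804999) (l 480000496151)) (l 401617434967)) (l 434366623287))) (l 1)))), by decide +kernel⟩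

theorem c_pp_123 : CertN 536870912 536870912 0 1230186008 67108864 67108864 3 false true true .npn 1 2 3
    ndN2q1 ndN4q3 pcN2 Cut.none Ext.none :=
  certNK2 (fam := false) (s1 := true) (s2 := true) (a := 1) (b := 2) (c := 3) (cn := .npn) (n1 := ndN2q1) (n2 := ndN4q3) (pc := pcN2) (cut := Cut.none) (xt := Ext.none) (P1 := 536870912) (W1 := 536870912) (P2 := 0) (W2 := 1230186008) (P3 := 67108864) (W3 := 67108864) (N0 := 3)
    rfl rfl rfl (fun _ => rfl) k0_pp_123

noncomputable def f_pp_133 : ℕ → ℕ → ℕ → ℕ → Bool := onCell 1610612736 536870912 0 1230186008 67108864 67108864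
    (rowNK 3 2 false true true .dn 1 3 3 (qsf 536870912 536870912 0 1230186008 3) ndN2q1 ndN4q3 pcN3 Cut.none Ext.none)

def k0_pp_133 : ∃ t, chk3 f_pp_133 t 1 1 1 = true :=
  ⟨(b (b (b (l 4) (l 1)) (l 1)) (l 1)), by decide +kernel⟩

theorem c_pp_133 : CertN 536870912 536870912 0 1230186008 67108864 67108864 3 false true true .dn 1 3 3
    ndN2q1 ndN4q3 pcN3 Cut.none Ext.none :=
  certNK2 (fam := false) (s1 := true) (s2 := true) (a := 1) (b := 3) (c := 3) (cn := .dn) (n1 := ndN2q1) (n2 := ndN4q3) (pc := pcN3) (cut := Cut.none) (xt := Ext.none) (P1 := 536870912) (W1 := 536870912) (P2 := 0) (W2 := 1230186008) (P3 := 67108864) (W3 := 67108864) (N0 := 3)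
    rfl rfl rfl (fun _ => rfl) k0_pp_133

noncomputable def f_pp_202_a : ℕ → ℕ → ℕ → ℕ → Bool := onCell 0 536870912 1073741824 536870912 67108864 67108864
    (rowNK 3 0 false true true .pp 2 0 2 (qsf 0 536870912 1073741824 536870912 0) ndN2q2a ndN4q2 pcN0 Cut.none Ext.none)

def k0_pp_202_a : ∃ t, chk3 f_pp_202_a t 1 1 1 = true :=
  ⟨(l 5), by decide +kernel⟩

theorem c_pp_202_a : CertN 0 536870912 1073741824 536870912 67108864 67108864 3 false true true .pp 2 0 2
    ndN2q2a ndN4q2 pcN0 Cut.none Ext.none :=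
  certNK0 (fam := false) (s1 := true) (s2 := true) (a := 2) (b := 0) (c := 2) (cn := .pp) (n1 := ndN2q2a) (n2 := ndN4q2) (pc := pcN0) (cut := Cut.none) (xt := Ext.none) (P1 := 0) (W1 := 536870912) (P2 := 1073741824) (W2 := 536870912) (P3 := 67108864) (W3 := 67108864) (N0 := 3)
    rfl rfl rfl k0_pp_202_a

noncomputable def f_pp_202_b : ℕ → ℕ → ℕ → ℕ → Bool := onCell 1239849684 370763052 1073741824 536870912 67108864 67108864
    (rowNK 3 0 false true true .pp 2 0 2 (qsf 1239849684 370763052 1073741824 536870912 0) ndN2q2b ndN4q2 pcN0 Cut.none Ext.none)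

def k0_pp_202_b : ∃ t, chk3 f_pp_202_b t 1 1 1 = true :=
  ⟨(l 5), by decide +kernel⟩

theorem c_pp_202_b : CertN 1239849684 370763052 1073741824 536870912 67108864 67108864 3 false true true .pp 2 0 2
    ndN2q2b ndN4q2 pcN0 Cut.none Ext.none :=
  certNK0 (fam := false) (s1 := true) (s2 := true) (a := 2) (b := 0) (c := 2) (cn := .pp) (n1 := ndN2q2b) (n2 := ndN4q2) (pc := pcN0) (cut := Cut.none) (xt := Ext.none) (P1 := 1239849684) (W1 := 370763052) (P2 := 1073741824) (W2 := 536870912) (P3 := 67108864) (W3 := 67108864) (N0 := 3)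
    rfl rfl rfl k0_pp_202_b

noncomputable def f_pp_203_a : ℕ → ℕ → ℕ → ℕ → Bool := onCell 0 536870912 0 1230186008 67108864 67108864
    (rowNK 3 0 false true true .up 2 0 3 (qsf 0 536870912 0 1230186008 0) ndN2q2a ndN4q3 pcN0 Cut.none Ext.none)

def k0_pp_203_a : ∃ t, chk3 f_pp_203_a t 1 1 1 = true :=
  ⟨(b (l 2) (l 3)), by decide +kernel⟩

theorem c_pp_203_a : CertN 0 536870912 0 1230186008 67108864 67108864 3 false true true .up 2 0 3
    ndN2q2a ndN4q3 pcN0 Cut.none Ext.none :=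
  certNK0 (fam := false) (s1 := true) (s2 := true) (a := 2) (b := 0) (c := 3) (cn := .up) (n1 := ndN2q2a) (n2 := ndN4q3) (pc := pcN0) (cut := Cut.none) (xt := Ext.none) (P1 := 0) (W1 := 536870912) (P2 := 0) (W2 := 1230186008) (P3 := 67108864) (W3 := 67108864) (N0 := 3)
    rfl rfl rfl k0_pp_203_a

noncomputable def f_pp_203_b : ℕ → ℕ → ℕ → ℕ → Bool := onCell 1239849684 370763052 0 1230186008 67108864 67108864
    (rowNK 3 0 false true true .up 2 0 3 (qsf 1239849684 370763052 0 1230186008 0) ndN2q2b ndN4q3 pcN0 Cut.none Ext.none)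

def k0_pp_203_b : ∃ t, chk3 f_pp_203_b t 1 1 1 = true :=
  ⟨(b (l 3) (l 3)), by decide +kernel⟩

theorem c_pp_203_b : CertN 1239849684 370763052 0 1230186008 67108864 67108864 3 false true true .up 2 0 3
    ndN2q2b ndN4q3 pcN0 Cut.none Ext.none :=
  certNK0 (fam := false) (s1 := true) (s2 := true) (a := 2) (b := 0) (c := 3) (cn := .up) (n1 := ndN2q2b) (n2 := ndN4q3) (pc := pcN0) (cut := Cut.none) (xt := Ext.none) (P1 := 1239849684) (W1 := 370763052) (P2 := 0) (W2 := 1230186008) (P3 := 67108864) (W3 := 67108864) (N0 := 3)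
    rfl rfl rfl k0_pp_203_b

noncomputable def cut_pp_213_a : Cut := Cut.of [[⟨0, 1, 0, 21338704⟩, ⟨1, 1, 0, 21338704⟩, ⟨2, 2, 0, 1685920⟩]]

noncomputable def f_pp_213_a : ℕ → ℕ → ℕ → ℕ → Bool := onCell 0 536870912 0 1230186008 67108864 67108864
    (rowNK 3 0 false true true .pnn 2 1 3 (qsf 0 536870912 0 1230186008 1) ndN2q2a ndN4q3 pcN1 cut_pp_213_a Ext.none)

def k0_pp_213_a : ∃ t, chk3 f_pp_213_a t 1 1 1 = true :=
  ⟨(b (b (a (l 3) (a (l 3) (a (l 3) (b (b (b (a (l 3) (a (l 3) (l 6))) (l 3)) (l 3)) (l 3))))) (l 3)) (l 3)), by decide +kernel⟩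

theorem c_pp_213_a : CertN 0 536870912 0 1230186008 67108864 67108864 3 false true true .pnn 2 1 3
    ndN2q2a ndN4q3 pcN1 cut_pp_213_a Ext.none :=
  certNK0 (fam := false) (s1 := true) (s2 := true) (a := 2) (b := 1) (c := 3) (cn := .pnn) (n1 := ndN2q2a) (n2 := ndN4q3) (pc := pcN1) (cut := cut_pp_213_a) (xt := Ext.none) (P1 := 0) (W1 := 536870912) (P2 := 0) (W2 := 1230186008) (P3 := 67108864) (W3 := 67108864) (N0 := 3)
    rfl rfl rfl k0_pp_213_a

noncomputable def cut_pp_213_b : Cut := Cut.of [[⟨0, 1, 0, 21338704⟩, ⟨1, 1, 0, 21338704⟩, ⟨2, 2, 0, 1685920⟩]]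

noncomputable def f_pp_213_b : ℕ → ℕ → ℕ → ℕ → Bool := onCell 1239849684 370763052 0 1230186008 67108864 67108864
    (rowNK 3 0 false true true .pnn 2 1 3 (qsf 1239849684 370763052 0 1230186008 1) ndN2q2b ndN4q3 pcN1 cut_pp_213_b Ext.none)

def k0_pp_213_b : ∃ t, chk3 f_pp_213_b t 1 1 1 = true :=
  ⟨(b (l 3) (l 3)), by decide +kernel⟩

theorem c_pp_213_b : CertN 1239849684 370763052 0 1230186008 67108864 67108864 3 false true true .pnn 2 1 3
    ndN2q2b ndN4q3 pcN1 cut_pp_213_b Ext.none :=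
  certNK0 (fam := false) (s1 := true) (s2 := true) (a := 2) (b := 1) (c := 3) (cn := .pnn) (n1 := ndN2q2b) (n2 := ndN4q3) (pc := pcN1) (cut := cut_pp_213_b) (xt := Ext.none) (P1 := 1239849684) (W1 := 370763052) (P2 := 0) (W2 := 1230186008) (P3 := 67108864) (W3 := 67108864) (N0 := 3)
    rfl rfl rfl k0_pp_213_b

noncomputable def f_pp_303 : ℕ → ℕ → ℕ → ℕ → Bool := onCell 0 536870912 0 1230186008 67108864 67108864
    (rowNK 3 2 false true true .npn 3 0 3 (qsf 1610612736 536870912 0 1230186008 0) ndN2q3 ndN4q3 pcN0 Cut.none Ext.none)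

def k0_pp_303 : ∃ t, chk3 f_pp_303 t 1 1 1 = true :=
  ⟨(b (l 3) (l 3)), by decide +kernel⟩

theorem c_pp_303 : CertN 1610612736 536870912 0 1230186008 67108864 67108864 3 false true true .npn 3 0 3
    ndN2q3 ndN4q3 pcN0 Cut.none Ext.none :=
  certNK2 (fam := false) (s1 := true) (s2 := true) (a := 3) (b := 0) (c := 3) (cn := .npn) (n1 := ndN2q3) (n2 := ndN4q3) (pc := pcN0) (cut := Cut.none) (xt := Ext.none) (P1 := 1610612736) (W1 := 536870912) (P2 := 0) (W2 := 1230186008) (P3 := 67108864) (W3 := 67108864) (N0 := 3)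
    rfl rfl rfl (fun _ => rfl) k0_pp_303

noncomputable def f_pp_313 : ℕ → ℕ → ℕ → ℕ → Bool := onCell 1610612736 536870912 0 1230186008 67108864 67108864
    (rowNK 3 0 false true true .dn 3 1 3 (qsf 1610612736 536870912 0 1230186008 1) ndN2q3 ndN4q3 pcN1 Cut.none Ext.none)

def k0_pp_313 : ∃ t, chk3 f_pp_313 t 1 1 1 = true :=
  ⟨(b (l 3) (l 1)), by decide +kernel⟩

theorem c_pp_313 : CertN 1610612736 536870912 0 1230186008 67108864 67108864 3 false true true .dn 3 1 3
    ndN2q3 ndN4q3 pcN1 Cut.none Ext.none :=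
  certNK0 (fam := false) (s1 := true) (s2 := true) (a := 3) (b := 1) (c := 3) (cn := .dn) (n1 := ndN2q3) (n2 := ndN4q3) (pc := pcN1) (cut := Cut.none) (xt := Ext.none) (P1 := 1610612736) (W1 := 536870912) (P2 := 0) (W2 := 1230186008) (P3 := 67108864) (W3 := 67108864) (N0 := 3)
    rfl rfl rfl k0_pp_313

noncomputable def f_pm_001 : ℕ → ℕ → ℕ → ℕ → Bool := onCell 0 536870912 536870912 536870912 67108864 67108864
    (rowNK 3 0 false true false .up 0 0 1 (qsf 0 536870912 536870912 536870912 0) ndN2q0 ndN4q1 pcN0 Cut.none Ext.none)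

def k0_pm_001 : ∃ t, chk3 f_pm_001 t 1 1 1 = true :=
  ⟨(l 4), by decide +kernel⟩

theorem c_pm_001 : CertN 0 536870912 536870912 536870912 67108864 67108864 3 false true false .up 0 0 1
    ndN2q0 ndN4q1 pcN0 Cut.none Ext.none :=
  certNK0 (fam := false) (s1 := true) (s2 := false) (a := 0) (b := 0) (c := 1) (cn := .up) (n1 := ndN2q0) (n2 := ndN4q1) (pc := pcN0) (cut := Cut.none) (xt := Ext.none) (P1 := 0) (W1 := 536870912) (P2 := 536870912) (W2 := 536870912) (P3 := 67108864) (W3 := 67108864) (N0 := 3)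
    rfl rfl rfl k0_pm_001

noncomputable def f_pm_011 : ℕ → ℕ → ℕ → ℕ → Bool := onCell 0 536870912 536870912 536870912 67108864 67108864
    (rowNK 3 0 false true false .pnn 0 1 1 (qsf 0 536870912 536870912 536870912 1) ndN2q0 ndN4q1 pcN1 Cut.none Ext.none)

def k0_pm_011 : ∃ t, chk3 f_pm_011 t 1 1 1 = true :=
  ⟨(l 4), by decide +kernel⟩

theorem c_pm_011 : CertN 0 536870912 536870912 536870912 67108864 67108864 3 false true false .pnn 0 1 1
    ndN2q0 ndN4q1 pcN1 Cut.none Ext.none :=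
  certNK0 (fam := false) (s1 := true) (s2 := false) (a := 0) (b := 1) (c := 1) (cn := .pnn) (n1 := ndN2q0) (n2 := ndN4q1) (pc := pcN1) (cut := Cut.none) (xt := Ext.none) (P1 := 0) (W1 := 536870912) (P2 := 536870912) (W2 := 536870912) (P3 := 67108864) (W3 := 67108864) (N0 := 3)
    rfl rfl rfl k0_pm_011

noncomputable def f_pm_012 : ℕ → ℕ → ℕ → ℕ → Bool := onCell 0 536870912 1073741824 536870912 67108864 67108864
    (rowNK 3 0 false true false .pnp 0 1 2 (qsf 0 536870912 1073741824 536870912 1) ndN2q0 ndN4q2 pcN1 Cut.none Ext.none)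

def k0_pm_012 : ∃ t, chk3 f_pm_012 t 1 1 1 = true :=
  ⟨(l 4), by decide +kernel⟩

theorem c_pm_012 : CertN 0 536870912 1073741824 536870912 67108864 67108864 3 false true false .pnp 0 1 2
    ndN2q0 ndN4q2 pcN1 Cut.none Ext.none :=
  certNK0 (fam := false) (s1 := true) (s2 := false) (a := 0) (b := 1) (c := 2) (cn := .pnp) (n1 := ndN2q0) (n2 := ndN4q2) (pc := pcN1) (cut := Cut.none) (xt := Ext.none) (P1 := 0) (W1 := 536870912) (P2 := 1073741824) (W2 := 536870912) (P3 := 67108864) (W3 := 67108864) (N0 := 3)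
    rfl rfl rfl k0_pm_012

noncomputable def f_pm_022 : ℕ → ℕ → ℕ → ℕ → Bool := onCell 0 536870912 1073741824 536870912 67108864 67108864
    (rowNK 3 0 false true false .pp 0 2 2 (qsf 0 536870912 1073741824 536870912 2) ndN2q0 ndN4q2 pcN2 Cut.none Ext.none)

def k0_pm_022 : ∃ t, chk3 f_pm_022 t 1 1 1 = true :=
  ⟨(l 4), by decide +kernel⟩

theorem c_pm_022 : CertN 0 536870912 1073741824 536870912 67108864 67108864 3 false true false .pp 0 2 2
    ndN2q0 ndN4q2 pcN2 Cut.none Ext.none :=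
  certNK0 (fam := false) (s1 := true) (s2 := false) (a := 0) (b := 2) (c := 2) (cn := .pp) (n1 := ndN2q0) (n2 := ndN4q2) (pc := pcN2) (cut := Cut.none) (xt := Ext.none) (P1 := 0) (W1 := 536870912) (P2 := 1073741824) (W2 := 536870912) (P3 := 67108864) (W3 := 67108864) (N0 := 3)
    rfl rfl rfl k0_pm_022

noncomputable def f_pm_023 : ℕ → ℕ → ℕ → ℕ → Bool := onCell 0 536870912 0 1230186008 67108864 67108864
    (rowNK 3 0 false true false .up 0 2 3 (qsf 0 536870912 0 1230186008 2) ndN2q0 ndN4q3 pcN2 Cut.none Ext.none)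

def k0_pm_023 : ∃ t, chk3 f_pm_023 t 1 1 1 = true :=
  ⟨(b (l 4) (l 4)), by decide +kernel⟩

theorem c_pm_023 : CertN 0 536870912 0 1230186008 67108864 67108864 3 false true false .up 0 2 3
    ndN2q0 ndN4q3 pcN2 Cut.none Ext.none :=
  certNK0 (fam := false) (s1 := true) (s2 := false) (a := 0) (b := 2) (c := 3) (cn := .up) (n1 := ndN2q0) (n2 := ndN4q3) (pc := pcN2) (cut := Cut.none) (xt := Ext.none) (P1 := 0) (W1 := 536870912) (P2 := 0) (W2 := 1230186008) (P3 := 67108864) (W3 := 67108864) (N0 := 3)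
    rfl rfl rfl k0_pm_023

noncomputable def f_pm_033 : ℕ → ℕ → ℕ → ℕ → Bool := onCell 0 536870912 0 1230186008 67108864 67108864
    (rowNK 3 0 false true false .pnn 0 3 3 (qsf 0 536870912 0 1230186008 3) ndN2q0 ndN4q3 pcN3 Cut.none Ext.none)

def k0_pm_033 : ∃ t, chk3 f_pm_033 t 1 1 1 = true :=
  ⟨(b (l 4) (l 4)), by decide +kernel⟩

theorem c_pm_033 : CertN 0 536870912 0 1230186008 67108864 67108864 3 false true false .pnn 0 3 3
    ndN2q0 ndN4q3 pcN3 Cut.none Ext.none :=
  certNK0 (fam := false) (s1 := true) (s2 := false) (a := 0) (b := 3) (c := 3) (cn := .pnn) (n1 := ndN2q0) (n2 := ndN4q3) (pc := pcN3) (cut := Cut.none) (xt := Ext.none) (P1 := 0) (W1 := 536870912) (P2 := 0) (W2 := 1230186008) (P3 := 67108864) (W3 := 67108864) (N0 := 3)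
    rfl rfl rfl k0_pm_033

noncomputable def f_pm_101 : ℕ → ℕ → ℕ → ℕ → Bool := onCell 536870912 536870912 536870912 536870912 67108864 67108864
    (rowNK 3 0 false true false .npn 1 0 1 (qsf 536870912 536870912 536870912 536870912 0) ndN2q1 ndN4q1 pcN0 Cut.none Ext.none)

def k0_pm_101 : ∃ t, chk3 f_pm_101 t 1 1 1 = true :=
  ⟨(l 4), by decide +kernel⟩

theorem c_pm_101 : CertN 536870912 536870912 536870912 536870912 67108864 67108864 3 false true false .npn 1 0 1
    ndN2q1 ndN4q1 pcN0 Cut.none Ext.none :=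
  certNK0 (fam := false) (s1 := true) (s2 := false) (a := 1) (b := 0) (c := 1) (cn := .npn) (n1 := ndN2q1) (n2 := ndN4q1) (pc := pcN0) (cut := Cut.none) (xt := Ext.none) (P1 := 536870912) (W1 := 536870912) (P2 := 536870912) (W2 := 536870912) (P3 := 67108864) (W3 := 67108864) (N0 := 3)
    rfl rfl rfl k0_pm_101

noncomputable def f_pm_102 : ℕ → ℕ → ℕ → ℕ → Bool := onCell 536870912 536870912 1073741824 536870912 67108864 67108864
    (rowNK 3 0 false true false .npp 1 0 2 (qsf 536870912 536870912 1073741824 536870912 0) ndN2q1 ndN4q2 pcN0 Cut.none Ext.none)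

def k0_pm_102 : ∃ t, chk3 f_pm_102 t 1 1 1 = true :=
  ⟨(l 4), by decide +kernel⟩

theorem c_pm_102 : CertN 536870912 536870912 1073741824 536870912 67108864 67108864 3 false true false .npp 1 0 2
    ndN2q1 ndN4q2 pcN0 Cut.none Ext.none :=
  certNK0 (fam := false) (s1 := true) (s2 := false) (a := 1) (b := 0) (c := 2) (cn := .npp) (n1 := ndN2q1) (n2 := ndN4q2) (pc := pcN0) (cut := Cut.none) (xt := Ext.none) (P1 := 536870912) (W1 := 536870912) (P2 := 1073741824) (W2 := 536870912) (P3 := 67108864) (W3 := 67108864) (N0 := 3)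
    rfl rfl rfl k0_pm_102

noncomputable def f_pm_112 : ℕ → ℕ → ℕ → ℕ → Bool := onCell 536870912 536870912 1073741824 536870912 67108864 67108864
    (rowNK 3 0 false true false .dn 1 1 2 (qsf 536870912 536870912 1073741824 536870912 1) ndN2q1 ndN4q2 pcN1 Cut.none Ext.none)

def k0_pm_112 : ∃ t, chk3 f_pm_112 t 1 1 1 = true :=
  ⟨(l 4), by decide +kernel⟩

theorem c_pm_112 : CertN 536870912 536870912 1073741824 536870912 67108864 67108864 3 false true false .dn 1 1 2
    ndN2q1 ndN4q2 pcN1 Cut.none Ext.none :=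
  certNK0 (fam := false) (s1 := true) (s2 := false) (a := 1) (b := 1) (c := 2) (cn := .dn) (n1 := ndN2q1) (n2 := ndN4q2) (pc := pcN1) (cut := Cut.none) (xt := Ext.none) (P1 := 536870912) (W1 := 536870912) (P2 := 1073741824) (W2 := 536870912) (P3 := 67108864) (W3 := 67108864) (N0 := 3)
    rfl rfl rfl k0_pm_112

noncomputable def f_pm_113 : ℕ → ℕ → ℕ → ℕ → Bool := onCell 536870912 536870912 0 1230186008 67108864 67108864
    (rowNK 3 0 false true false .nn 1 1 3 (qsf 536870912 536870912 0 1230186008 1) ndN2q1 ndN4q3 pcN1 Cut.none Ext.none)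

def k0_pm_113 : ∃ t, chk3 f_pm_113 t 1 1 1 = true :=
  ⟨(b (b (a (l 2) (a (l 2) (a (l 2) (a (l 2) (l 16904912))))) (l 4)) (l 4)), by decide +kernel⟩

theorem c_pm_113 : CertN 536870912 536870912 0 1230186008 67108864 67108864 3 false true false .nn 1 1 3
    ndN2q1 ndN4q3 pcN1 Cut.none Ext.none :=
  certNK0 (fam := false) (s1 := true) (s2 := false) (a := 1) (b := 1) (c := 3) (cn := .nn) (n1 := ndN2q1) (n2 := ndN4q3) (pc := pcN1) (cut := Cut.none) (xt := Ext.none) (P1 := 536870912) (W1 := 536870912) (P2 := 0) (W2 := 1230186008) (P3 := 67108864) (W3 := 67108864) (N0 := 3)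
    rfl rfl rfl k0_pm_113

noncomputable def f_pm_123 : ℕ → ℕ → ℕ → ℕ → Bool := onCell 536870912 536870912 0 1230186008 67108864 67108864
    (rowNK 3 0 false true false .npn 1 2 3 (qsf 536870912 536870912 0 1230186008 2) ndN2q1 ndN4q3 pcN2 Cut.none Ext.none)

def k0_pm_123 : ∃ t, chk3 f_pm_123 t 1 1 1 = true :=
  ⟨(b (a (l 4) (a (l 4) (a (l 17640336) (a (l 17669432) (l 17660808))))) (l 4)), by decide +kernel⟩

theorem c_pm_123 : CertN 536870912 536870912 0 1230186008 67108864 67108864 3 false true false .npn 1 2 3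
    ndN2q1 ndN4q3 pcN2 Cut.none Ext.none :=
  certNK0 (fam := false) (s1 := true) (s2 := false) (a := 1) (b := 2) (c := 3) (cn := .npn) (n1 := ndN2q1) (n2 := ndN4q3) (pc := pcN2) (cut := Cut.none) (xt := Ext.none) (P1 := 536870912) (W1 := 536870912) (P2 := 0) (W2 := 1230186008) (P3 := 67108864) (W3 := 67108864) (N0 := 3)
    rfl rfl rfl k0_pm_123

noncomputable def f_pm_133 : ℕ → ℕ → ℕ → ℕ → Bool := onCell 1610612736 536870912 0 1230186008 67108864 67108864
    (rowNK 3 2 false true false .dn 1 3 3 (qsf 536870912 536870912 0 1230186008 3) ndN2q1 ndN4q3 pcN3 Cut.none Ext.none)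

def k0_pm_133 : ∃ t, chk3 f_pm_133 t 1 1 1 = true :=
  ⟨(b (a (l 4) (l 1)) (l 1)), by decide +kernel⟩

theorem c_pm_133 : CertN 536870912 536870912 0 1230186008 67108864 67108864 3 false true false .dn 1 3 3
    ndN2q1 ndN4q3 pcN3 Cut.none Ext.none :=
  certNK2 (fam := false) (s1 := true) (s2 := false) (a := 1) (b := 3) (c := 3) (cn := .dn) (n1 := ndN2q1) (n2 := ndN4q3) (pc := pcN3) (cut := Cut.none) (xt := Ext.none) (P1 := 536870912) (W1 := 536870912) (P2 := 0) (W2 := 1230186008) (P3 := 67108864) (W3 := 67108864) (N0 := 3)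
    rfl rfl rfl (fun _ => rfl) k0_pm_133

noncomputable def f_pm_202_a : ℕ → ℕ → ℕ → ℕ → Bool := onCell 0 536870912 1073741824 536870912 67108864 67108864
    (rowNK 3 0 false true false .pp 2 0 2 (qsf 0 536870912 1073741824 536870912 0) ndN2q2a ndN4q2 pcN0 Cut.none Ext.none)

def k0_pm_202_a : ∃ t, chk3 f_pm_202_a t 1 1 1 = true :=
  ⟨(b (l 4) (b (l 4) (a (l 18260408) (a (l 18336608) (a (l 18427192) (l 18702408)))))), by decide +kernel⟩

theorem c_pm_202_a : CertN 0 536870912 1073741824 536870912 67108864 67108864 3 false true false .pp 2 0 2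
    ndN2q2a ndN4q2 pcN0 Cut.none Ext.none :=
  certNK0 (fam := false) (s1 := true) (s2 := false) (a := 2) (b := 0) (c := 2) (cn := .pp) (n1 := ndN2q2a) (n2 := ndN4q2) (pc := pcN0) (cut := Cut.none) (xt := Ext.none) (P1 := 0) (W1 := 536870912) (P2 := 1073741824) (W2 := 536870912) (P3 := 67108864) (W3 := 67108864) (N0 := 3)
    rfl rfl rfl k0_pm_202_a

noncomputable def f_pm_202_b : ℕ → ℕ → ℕ → ℕ → Bool := onCell 1239849684 370763052 1073741824 536870912 67108864 67108864
    (rowNK 3 0 false true false .pp 2 0 2 (qsf 1239849684 370763052 1073741824 536870912 0) ndN2q2b ndN4q2 pcN0 Cut.none Ext.none)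

def k0_pm_202_b : ∃ t, chk3 f_pm_202_b t 1 1 1 = true :=
  ⟨(b (l 4) (a (b (a (l 4) (l 18412856)) (b (l 18187216) (l 17892216))) (b (a (b (l 1) (l 18026544)) (l 1)) (b (l 17723144) (l 17623256))))), by decide +kernel⟩

theorem c_pm_202_b : CertN 1239849684 370763052 1073741824 536870912 67108864 67108864 3 false true false .pp 2 0 2
    ndN2q2b ndN4q2 pcN0 Cut.none Ext.none :=
  certNK0 (fam := false) (s1 := true) (s2 := false) (a := 2) (b := 0) (c := 2) (cn := .pp) (n1 := ndN2q2b) (n2 := ndN4q2) (pc := pcN0) (cut := Cut.none) (xt := Ext.none) (P1 := 1239849684) (W1 := 370763052) (P2 := 1073741824) (W2 := 536870912) (P3 := 67108864) (W3 := 67108864) (N0 := 3)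
    rfl rfl rfl k0_pm_202_b

noncomputable def f_pm_203_a : ℕ → ℕ → ℕ → ℕ → Bool := onCell 0 536870912 0 1230186008 67108864 67108864
    (rowNK 3 0 false true false .up 2 0 3 (qsf 0 536870912 0 1230186008 0) ndN2q2a ndN4q3 pcN0 Cut.none Ext.none)

def k0_pm_203_a : ∃ t, chk3 f_pm_203_a t 1 1 1 = true :=
  ⟨(b (l 2) (b (l 2) (a (b (b (l 2) (b (l 17605272) (l 17506840))) (b (b (l 17904800) (l 17652520)) (l 17526752))) (b (l 2) (a (b (l 17728936) (l 17549920)) (a (b (l 17715312) (l 17593392)) (b (l 2) (l 17652848)))))))), by decide +kernel⟩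

theorem c_pm_203_a : CertN 0 536870912 0 1230186008 67108864 67108864 3 false true false .up 2 0 3
    ndN2q2a ndN4q3 pcN0 Cut.none Ext.none :=
  certNK0 (fam := false) (s1 := true) (s2 := false) (a := 2) (b := 0) (c := 3) (cn := .up) (n1 := ndN2q2a) (n2 := ndN4q3) (pc := pcN0) (cut := Cut.none) (xt := Ext.none) (P1 := 0) (W1 := 536870912) (P2 := 0) (W2 := 1230186008) (P3 := 67108864) (W3 := 67108864) (N0 := 3)
    rfl rfl rfl k0_pm_203_a

noncomputable def f_pm_203_b : ℕ → ℕ → ℕ → ℕ → Bool := onCell 1239849684 370763052 0 1230186008 67108864 67108864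
    (rowNK 3 0 false true false .up 2 0 3 (qsf 1239849684 370763052 0 1230186008 0) ndN2q2b ndN4q3 pcN0 Cut.none Ext.none)

def k0_pm_203_b : ∃ t, chk3 f_pm_203_b t 1 1 1 = true :=
  ⟨(b (a (l 2) (b (l 3) (a (l 1172090929719) (b (l 3) (l 17047672))))) (b (a (b (a (l 2) (l 16846096)) (b (l 16996928) (l 17409600))) (b (a (l 16974072) (l 16986408)) (b (l 16950312) (a (l 17178976) (l 17052568))))) (a (b (a (b (b (l 17763656) (l 17812216)) (b (l 17313552) (l 17495296))) (b (b (l 17631664) (l 17512760)) (l 17185616))) (b (a (l 17623848) (l 17403712)) (l 17459424))) (b (a (b (l 17045624) (l 17108144)) (b (l 16874912) (l 17002464))) (b (a (l 17185960) (l 17050696)) (l 17370216)))))), by decide +kernel⟩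

theorem c_pm_203_b : CertN 1239849684 370763052 0 1230186008 67108864 67108864 3 false true false .up 2 0 3
    ndN2q2b ndN4q3 pcN0 Cut.none Ext.none :=
  certNK0 (fam := false) (s1 := true) (s2 := false) (a := 2) (b := 0) (c := 3) (cn := .up) (n1 := ndN2q2b) (n2 := ndN4q3) (pc := pcN0) (cut := Cut.none) (xt := Ext.none) (P1 := 1239849684) (W1 := 370763052) (P2 := 0) (W2 := 1230186008) (P3 := 67108864) (W3 := 67108864) (N0 := 3)
    rfl rfl rfl k0_pm_203_b

noncomputable def cut_pm_213_a : Cut := Cut.of [[⟨0, 1, 0, 21338704⟩, ⟨1, 1, 0, 21338704⟩, ⟨2, 2, 0, 1685920⟩]]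

noncomputable def f_pm_213_a : ℕ → ℕ → ℕ → ℕ → Bool := onCell 0 536870912 0 1230186008 67108864 67108864
    (rowNK 3 0 false true false .pnn 2 1 3 (qsf 0 536870912 0 1230186008 1) ndN2q2a ndN4q3 pcN1 cut_pm_213_a Ext.none)

def k0_pm_213_a : ∃ t, chk3 f_pm_213_a t 1 1 1 = true :=
  ⟨(b (b (a (b (l 3) (l 224043832983)) (a (b (b (l 3) (l 17089472)) (l 17099736)) (a (b (a (l 265382115303) (l 262697830903)) (l 17052664)) (b (b (b (a (l 280951319447) (a (l 287393737175) (l 6))) (l 16788624)) (l 16787352)) (l 16809208))))) (a (b (l 17115352) (l 17381208)) (a (b (l 17038392) (l 17274192)) (a (b (l 16959608) (l 17167864)) (b (l 16898504) (l 17083968)))))) (b (a (b (l 17736720) (l 18087240)) (a (b (l 17598976) (l 17884224)) (a (b (l 17461664) (l 17677864)) (b (l 17329760) (l 17499080))))) (a (b (b (b (l 18417592) (l 18505632)) (b (l 18087168) (l 17199048))) (b (b (l 17903592) (l 1)) (l 1))) (b (a (b (l 18247496) (b (l 18088048) (l 17183488))) (b (a (l 17992304) (l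 17775088)) (a (b (l 18004648) (l 17186152)) (b (l 17854064) (l 17199744))))) (a (b (l 18001768) (l 1)) (b (a (l 18081760) (b (l 18084640) (l 18318312))) (a (l 18323800) (l 18400160)))))))), by decide +kernel⟩

theorem c_pm_213_a : CertN 0 536870912 0 1230186008 67108864 67108864 3 false true false .pnn 2 1 3
    ndN2q2a ndN4q3 pcN1 cut_pm_213_a Ext.none :=
  certNK0 (fam := false) (s1 := true) (s2 := false) (a := 2) (b := 1) (c := 3) (cn := .pnn) (n1 := ndN2q2a) (n2 := ndN4q3) (pc := pcN1) (cut := cut_pm_213_a) (xt := Ext.none) (P1 := 0) (W1 := 536870912) (P2 := 0) (W2 := 1230186008) (P3 := 67108864) (W3 := 67108864) (N0 := 3)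
    rfl rfl rfl k0_pm_213_a

noncomputable def cut_pm_213_b : Cut := Cut.of [[⟨0, 1, 0, 21338704⟩, ⟨1, 1, 0, 21338704⟩, ⟨2, 2, 0, 1685920⟩]]

noncomputable def f_pm_213_b : ℕ → ℕ → ℕ → ℕ → Bool := onCell 1239849684 370763052 0 1230186008 67108864 67108864
    (rowNK 3 0 false true false .pnn 2 1 3 (qsf 1239849684 370763052 0 1230186008 1) ndN2q2b ndN4q3 pcN1 cut_pm_213_b Ext.none)

def k0_pm_213_b : ∃ t, chk3 f_pm_213_b t 1 1 1 = true :=
  ⟨(b (a (b (b (l 3) (a (l 16957136) (l 3))) (b (a (l 17051344) (l 16956976)) (a (l 17350632) (l 17256080)))) (b (l 3) (a (b (l 16998776) (l 17161440)) (b (l 3) (l 17136760))))) (b (a (b (a (l 17734616) (l 17652640)) (b (l 18013424) (l 18310704))) (b (a (l 17556360) (l 1)) (l 1))) (a (b (a (b (b (l 18540832) (l 18514360)) (b (l 17846168) (l 17235584))) (l 1)) (l 1)) (l 1)))), by decide +kernel⟩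

theorem c_pm_213_b : CertN 1239849684 370763052 0 1230186008 67108864 67108864 3 false true false .pnn 2 1 3
    ndN2q2b ndN4q3 pcN1 cut_pm_213_b Ext.none :=
  certNK0 (fam := false) (s1 := true) (s2 := false) (a := 2) (b := 1) (c := 3) (cn := .pnn) (n1 := ndN2q2b) (n2 := ndN4q3) (pc := pcN1) (cut := cut_pm_213_b) (xt := Ext.none) (P1 := 1239849684) (W1 := 370763052) (P2 := 0) (W2 := 1230186008) (P3 := 67108864) (W3 := 67108864) (N0 := 3)
    rfl rfl rfl k0_pm_213_b

noncomputable def f_pm_303 : ℕ → ℕ → ℕ → ℕ → Bool := onCell 0 536870912 0 1230186008 67108864 67108864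
    (rowNK 3 2 false true false .npn 3 0 3 (qsf 1610612736 536870912 0 1230186008 0) ndN2q3 ndN4q3 pcN0 Cut.none Ext.none)

def k0_pm_303 : ∃ t, chk3 f_pm_303 t 1 1 1 = true :=
  ⟨(b (b (l 3) (a (l 3) (b (l 3) (a (l 221899310247) (l 18557512))))) (a (b (a (b (l 164453724823) (b (a (l 18619840) (l 18685216)) (l 18831464))) (b (l 189687271127) (b (l 18688544) (l 18557048)))) (a (b (a (l 17993656) (l 18375448)) (l 18810952)) (b (b (l 18723808) (l 18733400)) (l 18938800)))) (b (a (b (l 18713528) (a (l 18701720) (l 18438344))) (b (l 18594944) (l 1))) (l 1)))), by decide +kernel⟩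

theorem c_pm_303 : CertN 1610612736 536870912 0 1230186008 67108864 67108864 3 false true false .npn 3 0 3
    ndN2q3 ndN4q3 pcN0 Cut.none Ext.none :=
  certNK2 (fam := false) (s1 := true) (s2 := false) (a := 3) (b := 0) (c := 3) (cn := .npn) (n1 := ndN2q3) (n2 := ndN4q3) (pc := pcN0) (cut := Cut.none) (xt := Ext.none) (P1 := 1610612736) (W1 := 536870912) (P2 := 0) (W2 := 1230186008) (P3 := 67108864) (W3 := 67108864) (N0 := 3)
    rfl rfl rfl (fun _ => rfl) k0_pm_303

noncomputable def f_pm_313 : ℕ → ℕ → ℕ → ℕ → Bool := onCell 1610612736 536870912 0 1230186008 67108864 67108864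
    (rowNK 3 0 false true false .dn 3 1 3 (qsf 1610612736 536870912 0 1230186008 1) ndN2q3 ndN4q3 pcN1 Cut.none Ext.none)

def k0_pm_313 : ∃ t, chk3 f_pm_313 t 1 1 1 = true :=
  ⟨(b (b (l 3) (l 1)) (l 1)), by decide +kernel⟩

theorem c_pm_313 : CertN 1610612736 536870912 0 1230186008 67108864 67108864 3 false true false .dn 3 1 3
    ndN2q3 ndN4q3 pcN1 Cut.none Ext.none :=
  certNK0 (fam := false) (s1 := true) (s2 := false) (a := 3) (b := 1) (c := 3) (cn := .dn) (n1 := ndN2q3) (n2 := ndN4q3) (pc := pcN1) (cut := Cut.none) (xt := Ext.none) (P1 := 1610612736) (W1 := 536870912) (P2 := 0) (W2 := 1230186008) (P3 := 67108864) (W3 := 67108864) (N0 := 3)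
    rfl rfl rfl k0_pm_313

noncomputable def f_mm_001 : ℕ → ℕ → ℕ → ℕ → Bool := onCell 0 536870912 0 536870912 67108864 67108864
    (rowNK 3 1 false false false .up 0 0 1 (qsf 0 536870912 536870912 536870912 0) ndN2q0 ndN4q1 pcN0 Cut.none Ext.none)

def k0_mm_001 : ∃ t, chk3 f_mm_001 t 1 1 1 = true :=
  ⟨(l 3), by decide +kernel⟩

theorem c_mm_001 : CertN 0 536870912 536870912 536870912 67108864 67108864 3 false false false .up 0 0 1
    ndN2q0 ndN4q1 pcN0 Cut.none Ext.none :=
  certNK1 (fam := false) (s1 := false) (s2 := false) (a := 0) (b := 0) (c := 1) (cn := .up) (n1 := ndN2q0) (n2 := ndN4q1) (pc := pcN0) (cut := Cut.none) (xt := Ext.none) (P1 := 0) (W1 := 536870912) (P2 := 536870912) (W2 := 536870912) (P3 := 67108864) (W3 := 67108864) (N0 := 3)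
    rfl rfl rfl (fun _ => rfl) k0_mm_001

noncomputable def f_mm_011 : ℕ → ℕ → ℕ → ℕ → Bool := onCell 0 536870912 536870912 536870912 67108864 67108864
    (rowNK 3 1 false false false .pnn 0 1 1 (qsf 0 536870912 536870912 536870912 1) ndN2q0 ndN4q1 pcN1 Cut.none Ext.none)

def k0_mm_011 : ∃ t, chk3 f_mm_011 t 1 1 1 = true :=
  ⟨(l 5), by decide +kernel⟩

theorem c_mm_011 : CertN 0 536870912 536870912 536870912 67108864 67108864 3 false false false .pnn 0 1 1
    ndN2q0 ndN4q1 pcN1 Cut.none Ext.none :=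
  certNK1 (fam := false) (s1 := false) (s2 := false) (a := 0) (b := 1) (c := 1) (cn := .pnn) (n1 := ndN2q0) (n2 := ndN4q1) (pc := pcN1) (cut := Cut.none) (xt := Ext.none) (P1 := 0) (W1 := 536870912) (P2 := 536870912) (W2 := 536870912) (P3 := 67108864) (W3 := 67108864) (N0 := 3)
    rfl rfl rfl (fun _ => rfl) k0_mm_011

noncomputable def f_mm_012 : ℕ → ℕ → ℕ → ℕ → Bool := onCell 0 536870912 1073741824 536870912 67108864 67108864
    (rowNK 3 0 false false false .pnp 0 1 2 (qsf 0 536870912 1073741824 536870912 1) ndN2q0 ndN4q2 pcN1 Cut.none Ext.none)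

def k0_mm_012 : ∃ t, chk3 f_mm_012 t 1 1 1 = true :=
  ⟨(l 5), by decide +kernel⟩

theorem c_mm_012 : CertN 0 536870912 1073741824 536870912 67108864 67108864 3 false false false .pnp 0 1 2
    ndN2q0 ndN4q2 pcN1 Cut.none Ext.none :=
  certNK0 (fam := false) (s1 := false) (s2 := false) (a := 0) (b := 1) (c := 2) (cn := .pnp) (n1 := ndN2q0) (n2 := ndN4q2) (pc := pcN1) (cut := Cut.none) (xt := Ext.none) (P1 := 0) (W1 := 536870912) (P2 := 1073741824) (W2 := 536870912) (P3 := 67108864) (W3 := 67108864) (N0 := 3)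
    rfl rfl rfl k0_mm_012

noncomputable def f_mm_022 : ℕ → ℕ → ℕ → ℕ → Bool := onCell 0 536870912 1073741824 536870912 67108864 67108864
    (rowNK 3 0 false false false .pp 0 2 2 (qsf 0 536870912 1073741824 536870912 2) ndN2q0 ndN4q2 pcN2 Cut.none Ext.none)

def k0_mm_022 : ∃ t, chk3 f_mm_022 t 1 1 1 = true :=
  ⟨(l 5), by decide +kernel⟩

theorem c_mm_022 : CertN 0 536870912 1073741824 536870912 67108864 67108864 3 false false false .pp 0 2 2
    ndN2q0 ndN4q2 pcN2 Cut.none Ext.none :=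
  certNK0 (fam := false) (s1 := false) (s2 := false) (a := 0) (b := 2) (c := 2) (cn := .pp) (n1 := ndN2q0) (n2 := ndN4q2) (pc := pcN2) (cut := Cut.none) (xt := Ext.none) (P1 := 0) (W1 := 536870912) (P2 := 1073741824) (W2 := 536870912) (P3 := 67108864) (W3 := 67108864) (N0 := 3)
    rfl rfl rfl k0_mm_022

noncomputable def f_mm_023 : ℕ → ℕ → ℕ → ℕ → Bool := onCell 0 536870912 0 1230186008 67108864 67108864
    (rowNK 3 0 false false false .up 0 2 3 (qsf 0 536870912 0 1230186008 2) ndN2q0 ndN4q3 pcN2 Cut.none Ext.none)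

def k0_mm_023 : ∃ t, chk3 f_mm_023 t 1 1 1 = true :=
  ⟨(l 5), by decide +kernel⟩

theorem c_mm_023 : CertN 0 536870912 0 1230186008 67108864 67108864 3 false false false .up 0 2 3
    ndN2q0 ndN4q3 pcN2 Cut.none Ext.none :=
  certNK0 (fam := false) (s1 := false) (s2 := false) (a := 0) (b := 2) (c := 3) (cn := .up) (n1 := ndN2q0) (n2 := ndN4q3) (pc := pcN2) (cut := Cut.none) (xt := Ext.none) (P1 := 0) (W1 := 536870912) (P2 := 0) (W2 := 1230186008) (P3 := 67108864) (W3 := 67108864) (N0 := 3)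
    rfl rfl rfl k0_mm_023

noncomputable def f_mm_033 : ℕ → ℕ → ℕ → ℕ → Bool := onCell 0 536870912 0 1230186008 67108864 67108864
    (rowNK 3 0 false false false .pnn 0 3 3 (qsf 0 536870912 0 1230186008 3) ndN2q0 ndN4q3 pcN3 Cut.none Ext.none)

def k0_mm_033 : ∃ t, chk3 f_mm_033 t 1 1 1 = true :=
  ⟨(l 5), by decide +kernel⟩

theorem c_mm_033 : CertN 0 536870912 0 1230186008 67108864 67108864 3 false false false .pnn 0 3 3
    ndN2q0 ndN4q3 pcN3 Cut.none Ext.none :=
  certNK0 (fam := false) (s1 := false) (s2 := false) (a := 0) (b := 3) (c := 3) (cn := .pnn) (n1 := ndN2q0) (n2 := ndN4q3) (pc := pcN3) (cut := Cut.none) (xt := Ext.none) (P1 := 0) (W1 := 536870912) (P2 := 0) (W2 := 1230186008) (P3 := 67108864) (W3 := 67108864) (N0 := 3)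
    rfl rfl rfl k0_mm_033

noncomputable def f_mm_101 : ℕ → ℕ → ℕ → ℕ → Bool := onCell 536870912 536870912 536870912 536870912 67108864 67108864
    (rowNK 3 0 false false false .npn 1 0 1 (qsf 536870912 536870912 536870912 536870912 0) ndN2q1 ndN4q1 pcN0 Cut.none Ext.none)

def k0_mm_101 : ∃ t, chk3 f_mm_101 t 1 1 1 = true :=
  ⟨(l 3), by decide +kernel⟩

theorem c_mm_101 : CertN 536870912 536870912 536870912 536870912 67108864 67108864 3 false false false .npn 1 0 1
    ndN2q1 ndN4q1 pcN0 Cut.none Ext.none :=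
  certNK0 (fam := false) (s1 := false) (s2 := false) (a := 1) (b := 0) (c := 1) (cn := .npn) (n1 := ndN2q1) (n2 := ndN4q1) (pc := pcN0) (cut := Cut.none) (xt := Ext.none) (P1 := 536870912) (W1 := 536870912) (P2 := 536870912) (W2 := 536870912) (P3 := 67108864) (W3 := 67108864) (N0 := 3)
    rfl rfl rfl k0_mm_101

noncomputable def f_mm_102 : ℕ → ℕ → ℕ → ℕ → Bool := onCell 536870912 536870912 1073741824 536870912 67108864 67108864
    (rowNK 3 0 false false false .npp 1 0 2 (qsf 536870912 536870912 1073741824 536870912 0) ndN2q1 ndN4q2 pcN0 Cut.none Ext.none)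

def k0_mm_102 : ∃ t, chk3 f_mm_102 t 1 1 1 = true :=
  ⟨(l 3), by decide +kernel⟩

theorem c_mm_102 : CertN 536870912 536870912 1073741824 536870912 67108864 67108864 3 false false false .npp 1 0 2
    ndN2q1 ndN4q2 pcN0 Cut.none Ext.none :=
  certNK0 (fam := false) (s1 := false) (s2 := false) (a := 1) (b := 0) (c := 2) (cn := .npp) (n1 := ndN2q1) (n2 := ndN4q2) (pc := pcN0) (cut := Cut.none) (xt := Ext.none) (P1 := 536870912) (W1 := 536870912) (P2 := 1073741824) (W2 := 536870912) (P3 := 67108864) (W3 := 67108864) (N0 := 3)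
    rfl rfl rfl k0_mm_102

noncomputable def f_mm_112 : ℕ → ℕ → ℕ → ℕ → Bool := onCell 536870912 536870912 1073741824 536870912 67108864 67108864
    (rowNK 3 0 false false false .dn 1 1 2 (qsf 536870912 536870912 1073741824 536870912 1) ndN2q1 ndN4q2 pcN1 Cut.none Ext.none)

def k0_mm_112 : ∃ t, chk3 f_mm_112 t 1 1 1 = true :=
  ⟨(l 3), by decide +kernel⟩

theorem c_mm_112 : CertN 536870912 536870912 1073741824 536870912 67108864 67108864 3 false false false .dn 1 1 2
    ndN2q1 ndN4q2 pcN1 Cut.none Ext.none :=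
  certNK0 (fam := false) (s1 := false) (s2 := false) (a := 1) (b := 1) (c := 2) (cn := .dn) (n1 := ndN2q1) (n2 := ndN4q2) (pc := pcN1) (cut := Cut.none) (xt := Ext.none) (P1 := 536870912) (W1 := 536870912) (P2 := 1073741824) (W2 := 536870912) (P3 := 67108864) (W3 := 67108864) (N0 := 3)
    rfl rfl rfl k0_mm_112

noncomputable def f_mm_113 : ℕ → ℕ → ℕ → ℕ → Bool := onCell 536870912 536870912 0 1230186008 67108864 67108864
    (rowNK 3 0 false false false .nn 1 1 3 (qsf 536870912 536870912 0 1230186008 1) ndN2q1 ndN4q3 pcN1 Cut.none Ext.none)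

def k0_mm_113 : ∃ t, chk3 f_mm_113 t 1 1 1 = true :=
  ⟨(l 5), by decide +kernel⟩

theorem c_mm_113 : CertN 536870912 536870912 0 1230186008 67108864 67108864 3 false false false .nn 1 1 3
    ndN2q1 ndN4q3 pcN1 Cut.none Ext.none :=
  certNK0 (fam := false) (s1 := false) (s2 := false) (a := 1) (b := 1) (c := 3) (cn := .nn) (n1 := ndN2q1) (n2 := ndN4q3) (pc := pcN1) (cut := Cut.none) (xt := Ext.none) (P1 := 536870912) (W1 := 536870912) (P2 := 0) (W2 := 1230186008) (P3 := 67108864) (W3 := 67108864) (N0 := 3)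
    rfl rfl rfl k0_mm_113

noncomputable def f_mm_123 : ℕ → ℕ → ℕ → ℕ → Bool := onCell 536870912 536870912 0 1230186008 67108864 67108864
    (rowNK 3 0 false false false .npn 1 2 3 (qsf 536870912 536870912 0 1230186008 2) ndN2q1 ndN4q3 pcN2 Cut.none Ext.none)

def k0_mm_123 : ∃ t, chk3 f_mm_123 t 1 1 1 = true :=
  ⟨(l 5), by decide +kernel⟩

theorem c_mm_123 : CertN 536870912 536870912 0 1230186008 67108864 67108864 3 false false false .npn 1 2 3
    ndN2q1 ndN4q3 pcN2 Cut.none Ext.none :=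
  certNK0 (fam := false) (s1 := false) (s2 := false) (a := 1) (b := 2) (c := 3) (cn := .npn) (n1 := ndN2q1) (n2 := ndN4q3) (pc := pcN2) (cut := Cut.none) (xt := Ext.none) (P1 := 536870912) (W1 := 536870912) (P2 := 0) (W2 := 1230186008) (P3 := 67108864) (W3 := 67108864) (N0 := 3)
    rfl rfl rfl k0_mm_123

noncomputable def f_mm_133 : ℕ → ℕ → ℕ → ℕ → Bool := onCell 536870912 536870912 0 1230186008 67108864 67108864
    (rowNK 3 0 false false false .dn 1 3 3 (qsf 536870912 536870912 0 1230186008 3) ndN2q1 ndN4q3 pcN3 Cut.none Ext.none)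

def k0_mm_133 : ∃ t, chk3 f_mm_133 t 1 1 1 = true :=
  ⟨(l 5), by decide +kernel⟩

theorem c_mm_133 : CertN 536870912 536870912 0 1230186008 67108864 67108864 3 false false false .dn 1 3 3
    ndN2q1 ndN4q3 pcN3 Cut.none Ext.none :=
  certNK0 (fam := false) (s1 := false) (s2 := false) (a := 1) (b := 3) (c := 3) (cn := .dn) (n1 := ndN2q1) (n2 := ndN4q3) (pc := pcN3) (cut := Cut.none) (xt := Ext.none) (P1 := 536870912) (W1 := 536870912) (P2 := 0) (W2 := 1230186008) (P3 := 67108864) (W3 := 67108864) (N0 := 3)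
    rfl rfl rfl k0_mm_133

noncomputable def cut_mm_202_a : Cut := Cut.of [[⟨0, 1, 0, 67108864⟩, ⟨1, 0, 0, 67108864⟩, ⟨2, 1, 0, 67108864⟩]]

noncomputable def f_mm_202_a : ℕ → ℕ → ℕ → ℕ → Bool := onCell 0 536870912 0 536870912 67108864 67108864
    (rowNK 3 1 false false false .pp 2 0 2 (qsf 0 536870912 1073741824 536870912 0) ndN2q2a ndN4q2 pcN0 cut_mm_202_a Ext.none)

def k0_mm_202_a : ∃ t, chk3 f_mm_202_a t 1 1 1 = true :=
  ⟨(a (l 3) (b (a (l 3) (b (a (l 3) (b (b (b (l 6) (l 3)) (l 3)) (l 3))) (l 3))) (l 3))), by decide +kernel⟩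

theorem c_mm_202_a : CertN 0 536870912 1073741824 536870912 67108864 67108864 3 false false false .pp 2 0 2
    ndN2q2a ndN4q2 pcN0 cut_mm_202_a Ext.none :=
  certNK1 (fam := false) (s1 := false) (s2 := false) (a := 2) (b := 0) (c := 2) (cn := .pp) (n1 := ndN2q2a) (n2 := ndN4q2) (pc := pcN0) (cut := cut_mm_202_a) (xt := Ext.none) (P1 := 0) (W1 := 536870912) (P2 := 1073741824) (W2 := 536870912) (P3 := 67108864) (W3 := 67108864) (N0 := 3)
    rfl rfl rfl (fun _ => rfl) k0_mm_202_a

noncomputable def cut_mm_202_b : Cut := Cut.of [[⟨0, 1, 0, 67108864⟩, ⟨1, 0, 0, 67108864⟩, ⟨2, 1, 0, 67108864⟩]]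

noncomputable def f_mm_202_b : ℕ → ℕ → ℕ → ℕ → Bool := onCell 1239849684 370763052 0 536870912 67108864 67108864
    (rowNK 3 1 false false false .pp 2 0 2 (qsf 1239849684 370763052 1073741824 536870912 0) ndN2q2b ndN4q2 pcN0 cut_mm_202_b Ext.none)

def k0_mm_202_b : ∃ t, chk3 f_mm_202_b t 1 1 1 = true :=
  ⟨(b (l 3) (a (l 3) (l 2))), by decide +kernel⟩

theorem c_mm_202_b : CertN 1239849684 370763052 1073741824 536870912 67108864 67108864 3 false false false .pp 2 0 2
    ndN2q2b ndN4q2 pcN0 cut_mm_202_b Ext.none :=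
  certNK1 (fam := false) (s1 := false) (s2 := false) (a := 2) (b := 0) (c := 2) (cn := .pp) (n1 := ndN2q2b) (n2 := ndN4q2) (pc := pcN0) (cut := cut_mm_202_b) (xt := Ext.none) (P1 := 1239849684) (W1 := 370763052) (P2 := 1073741824) (W2 := 536870912) (P3 := 67108864) (W3 := 67108864) (N0 := 3)
    rfl rfl rfl (fun _ => rfl) k0_mm_202_b

noncomputable def f_mm_203_a : ℕ → ℕ → ℕ → ℕ → Bool := onCell 0 536870912 0 1230186008 67108864 67108864
    (rowNK 3 0 false false false .up 2 0 3 (qsf 0 536870912 0 1230186008 0) ndN2q2a ndN4q3 pcN0 Cut.none Ext.none)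

def k0_mm_203_a : ∃ t, chk3 f_mm_203_a t 1 1 1 = true :=
  ⟨(b (l 2) (l 3)), by decide +kernel⟩

theorem c_mm_203_a : CertN 0 536870912 0 1230186008 67108864 67108864 3 false false false .up 2 0 3
    ndN2q2a ndN4q3 pcN0 Cut.none Ext.none :=
  certNK0 (fam := false) (s1 := false) (s2 := false) (a := 2) (b := 0) (c := 3) (cn := .up) (n1 := ndN2q2a) (n2 := ndN4q3) (pc := pcN0) (cut := Cut.none) (xt := Ext.none) (P1 := 0) (W1 := 536870912) (P2 := 0) (W2 := 1230186008) (P3 := 67108864) (W3 := 67108864) (N0 := 3)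
    rfl rfl rfl k0_mm_203_a

noncomputable def f_mm_203_b : ℕ → ℕ → ℕ → ℕ → Bool := onCell 1239849684 370763052 0 1230186008 67108864 67108864
    (rowNK 3 0 false false false .up 2 0 3 (qsf 1239849684 370763052 0 1230186008 0) ndN2q2b ndN4q3 pcN0 Cut.none Ext.none)

def k0_mm_203_b : ∃ t, chk3 f_mm_203_b t 1 1 1 = true :=
  ⟨(b (l 3) (l 3)), by decide +kernel⟩

theorem c_mm_203_b : CertN 1239849684 370763052 0 1230186008 67108864 67108864 3 false false false .up 2 0 3
    ndN2q2b ndN4q3 pcN0 Cut.none Ext.none :=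
  certNK0 (fam := false) (s1 := false) (s2 := false) (a := 2) (b := 0) (c := 3) (cn := .up) (n1 := ndN2q2b) (n2 := ndN4q3) (pc := pcN0) (cut := Cut.none) (xt := Ext.none) (P1 := 1239849684) (W1 := 370763052) (P2 := 0) (W2 := 1230186008) (P3 := 67108864) (W3 := 67108864) (N0 := 3)
    rfl rfl rfl k0_mm_203_b

noncomputable def f_mm_213_a : ℕ → ℕ → ℕ → ℕ → Bool := onCell 0 536870912 0 1230186008 67108864 67108864
    (rowNK 3 0 false false false .pnn 2 1 3 (qsf 0 536870912 0 1230186008 1) ndN2q2a ndN4q3 pcN1 Cut.none Ext.none)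

def k0_mm_213_a : ∃ t, chk3 f_mm_213_a t 1 1 1 = true :=
  ⟨(b (l 5) (l 3)), by decide +kernel⟩

theorem c_mm_213_a : CertN 0 536870912 0 1230186008 67108864 67108864 3 false false false .pnn 2 1 3
    ndN2q2a ndN4q3 pcN1 Cut.none Ext.none :=
  certNK0 (fam := false) (s1 := false) (s2 := false) (a := 2) (b := 1) (c := 3) (cn := .pnn) (n1 := ndN2q2a) (n2 := ndN4q3) (pc := pcN1) (cut := Cut.none) (xt := Ext.none) (P1 := 0) (W1 := 536870912) (P2 := 0) (W2 := 1230186008) (P3 := 67108864) (W3 := 67108864) (N0 := 3)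
    rfl rfl rfl k0_mm_213_a

noncomputable def f_mm_213_b : ℕ → ℕ → ℕ → ℕ → Bool := onCell 1239849684 370763052 0 1230186008 67108864 67108864
    (rowNK 3 0 false false false .pnn 2 1 3 (qsf 1239849684 370763052 0 1230186008 1) ndN2q2b ndN4q3 pcN1 Cut.none Ext.none)

def k0_mm_213_b : ∃ t, chk3 f_mm_213_b t 1 1 1 = true :=
  ⟨(b (l 3) (l 3)), by decide +kernel⟩

theorem c_mm_213_b : CertN 1239849684 370763052 0 1230186008 67108864 67108864 3 false false false .pnn 2 1 3
    ndN2q2b ndN4q3 pcN1 Cut.none Ext.none :=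
  certNK0 (fam := false) (s1 := false) (s2 := false) (a := 2) (b := 1) (c := 3) (cn := .pnn) (n1 := ndN2q2b) (n2 := ndN4q3) (pc := pcN1) (cut := Cut.none) (xt := Ext.none) (P1 := 1239849684) (W1 := 370763052) (P2 := 0) (W2 := 1230186008) (P3 := 67108864) (W3 := 67108864) (N0 := 3)
    rfl rfl rfl k0_mm_213_b

noncomputable def f_mm_303 : ℕ → ℕ → ℕ → ℕ → Bool := onCell 0 536870912 0 1230186008 67108864 67108864
    (rowNK 3 2 false false false .npn 3 0 3 (qsf 1610612736 536870912 0 1230186008 0) ndN2q3 ndN4q3 pcN0 Cut.none Ext.none)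

def k0_mm_303 : ∃ t, chk3 f_mm_303 t 1 1 1 = true :=
  ⟨(b (l 3) (l 3)), by decide +kernel⟩

theorem c_mm_303 : CertN 1610612736 536870912 0 1230186008 67108864 67108864 3 false false false .npn 3 0 3
    ndN2q3 ndN4q3 pcN0 Cut.none Ext.none :=
  certNK2 (fam := false) (s1 := false) (s2 := false) (a := 3) (b := 0) (c := 3) (cn := .npn) (n1 := ndN2q3) (n2 := ndN4q3) (pc := pcN0) (cut := Cut.none) (xt := Ext.none) (P1 := 1610612736) (W1 := 536870912) (P2 := 0) (W2 := 1230186008) (P3 := 67108864) (W3 := 67108864) (N0 := 3)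
    rfl rfl rfl (fun _ => rfl) k0_mm_303

noncomputable def f_mm_313 : ℕ → ℕ → ℕ → ℕ → Bool := onCell 1610612736 536870912 0 1230186008 67108864 67108864
    (rowNK 3 0 false false false .dn 3 1 3 (qsf 1610612736 536870912 0 1230186008 1) ndN2q3 ndN4q3 pcN1 Cut.none Ext.none)

def k0_mm_313 : ∃ t, chk3 f_mm_313 t 1 1 1 = true :=
  ⟨(b (l 3) (l 1)), by decide +kernel⟩

theorem c_mm_313 : CertN 1610612736 536870912 0 1230186008 67108864 67108864 3 false false false .dn 3 1 3
    ndN2q3 ndN4q3 pcN1 Cut.none Ext.none :=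
  certNK0 (fam := false) (s1 := false) (s2 := false) (a := 3) (b := 1) (c := 3) (cn := .dn) (n1 := ndN2q3) (n2 := ndN4q3) (pc := pcN1) (cut := Cut.none) (xt := Ext.none) (P1 := 1610612736) (W1 := 536870912) (P2 := 0) (W2 := 1230186008) (P3 := 67108864) (W3 := 67108864) (N0 := 3)
    rfl rfl rfl k0_mm_313

end Pool.Agent.Strip051.G.I1_16_1_8.Tab.C.NB24

namespace Pool.Agent.Strip051.G.I1_16_1_8.Tab.C.NB30

open Pool.Agent.Strip051.PB Pool.Agent.Strip051.PB.T
open Pool.Agent.Strip051.G.I1_16_1_8.Tab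

noncomputable def f_pp_001 : ℕ → ℕ → ℕ → ℕ → Bool := onCell 0 536870912 0 536870912 67108864 67108864
    (rowNK 3 1 false true true .up 0 0 1 (qsf 0 536870912 536870912 536870912 0) ndN3q0 ndN0q1 pcN0 Cut.none Ext.none)

def k0_pp_001 : ∃ t, chk3 f_pp_001 t 1 1 1 = true :=
  ⟨(a (l 3) (b (l 3) (b (l 3) (a (l 3) (b (a (l 3) (b (l 3) (l 251426149655))) (a (l 240151255783) (b (l 172505834999) (l 165526544839)))))))), by decide +kernel⟩

theorem c_pp_001 : CertN 0 536870912 536870912 536870912 67108864 67108864 3 false true true .up 0 0 1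
    ndN3q0 ndN0q1 pcN0 Cut.none Ext.none :=
  certNK1 (fam := false) (s1 := true) (s2 := true) (a := 0) (b := 0) (c := 1) (cn := .up) (n1 := ndN3q0) (n2 := ndN0q1) (pc := pcN0) (cut := Cut.none) (xt := Ext.none) (P1 := 0) (W1 := 536870912) (P2 := 536870912) (W2 := 536870912) (P3 := 67108864) (W3 := 67108864) (N0 := 3)
    rfl rfl rfl (fun _ => rfl) k0_pp_001

noncomputable def f_pp_011 : ℕ → ℕ → ℕ → ℕ → Bool := onCell 0 536870912 536870912 536870912 67108864 67108864
    (rowNK 3 0 false true true .pnn 0 1 1 (qsf 0 536870912 536870912 536870912 1) ndN3q0 ndN0q1 pcN1 Cut.none Ext.none)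

def k0_pp_011 : ∃ t, chk3 f_pp_011 t 1 1 1 = true :=
  ⟨(b (l 3) (a (b (a (b (l 3) (l 3)) (l 3)) (a (b (a (a (b (l 18560280) (l 18700680)) (l 102176548711)) (b (l 18153904) (l 18250320))) (a (b (l 18763776) (l 18934760)) (l 18410112))) (b (a (l 138146284807) (l 171431693383)) (a (l 18003176) (l 17635176))))) (b (l 3) (a (b (a (l 180558007607) (b (l 3) (l 17330216))) (a (l 17325160) (l 17296560))) (b (b (l 3) (a (l 198812342663) (l 614216403623))) (a (l 17724600) (l 612069330951))))))), by decide +kernel⟩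

theorem c_pp_011 : CertN 0 536870912 536870912 536870912 67108864 67108864 3 false true true .pnn 0 1 1
    ndN3q0 ndN0q1 pcN1 Cut.none Ext.none :=
  certNK0 (fam := false) (s1 := true) (s2 := true) (a := 0) (b := 1) (c := 1) (cn := .pnn) (n1 := ndN3q0) (n2 := ndN0q1) (pc := pcN1) (cut := Cut.none) (xt := Ext.none) (P1 := 0) (W1 := 536870912) (P2 := 536870912) (W2 := 536870912) (P3 := 67108864) (W3 := 67108864) (N0 := 3)
    rfl rfl rfl k0_pp_011

noncomputable def f_pp_012 : ℕ → ℕ → ℕ → ℕ → Bool := onCell 536870912 536870912 0 536870912 67108864 67108864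
    (rowNK 3 2 false true true .pnp 0 1 2 (qsf 0 536870912 0 536870912 1) ndN3q0 ndN0q2 pcN1 Cut.none Ext.none)

def k0_pp_012 : ∃ t, chk3 f_pp_012 t 1 1 1 = true :=
  ⟨(a (b (a (a (l 2) (b (l 2) (l 18493112))) (b (b (a (b (l 17098168) (l 17798408)) (a (l 17356696) (l 17144680))) (a (b (l 18043376) (l 18101088)) (l 17473896))) (l 17778440))) (a (b (l 18387704) (a (l 18184160) (l 17870152))) (b (l 17654760) (a (l 17494728) (l 17064608))))) (b (a (a (b (l 17583696) (l 16885144)) (l 17615216)) (a (l 18149768) (a (l 18477144) (l 18692688)))) (b (a (a (l 16922776) (l 17291376)) (a (l 17802952) (a (l 18226208) (l 18518384)))) (a (a (l 17359992) (l 17773960)) (b (l 18376640) (l 18806448)))))), by decide +kernel⟩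

theorem c_pp_012 : CertN 0 536870912 0 536870912 67108864 67108864 3 false true true .pnp 0 1 2
    ndN3q0 ndN0q2 pcN1 Cut.none Ext.none :=
  certNK2 (fam := false) (s1 := true) (s2 := true) (a := 0) (b := 1) (c := 2) (cn := .pnp) (n1 := ndN3q0) (n2 := ndN0q2) (pc := pcN1) (cut := Cut.none) (xt := Ext.none) (P1 := 0) (W1 := 536870912) (P2 := 0) (W2 := 536870912) (P3 := 67108864) (W3 := 67108864) (N0 := 3)
    rfl rfl rfl (fun _ => rfl) k0_pp_012

noncomputable def f_pp_022 : ℕ → ℕ → ℕ → ℕ → Bool := onCell 1073741824 536870912 0 536870912 67108864 67108864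
    (rowNK 3 2 false true true .pp 0 2 2 (qsf 0 536870912 0 536870912 2) ndN3q0 ndN0q2 pcN2 Cut.none Ext.none)

def k0_pp_022 : ∃ t, chk3 f_pp_022 t 1 1 1 = true :=
  ⟨(a (b (a (l 18954616) (l 345783340759)) (b (a (a (l 18930376) (l 18989984)) (l 1)) (a (a (a (l 19146952) (l 536372934263)) (b (l 19167552) (l 1))) (l 1)))) (l 1)), by decide +kernel⟩

theorem c_pp_022 : CertN 0 536870912 0 536870912 67108864 67108864 3 false true true .pp 0 2 2
    ndN3q0 ndN0q2 pcN2 Cut.none Ext.none :=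
  certNK2 (fam := false) (s1 := true) (s2 := true) (a := 0) (b := 2) (c := 2) (cn := .pp) (n1 := ndN3q0) (n2 := ndN0q2) (pc := pcN2) (cut := Cut.none) (xt := Ext.none) (P1 := 0) (W1 := 536870912) (P2 := 0) (W2 := 536870912) (P3 := 67108864) (W3 := 67108864) (N0 := 3)
    rfl rfl rfl (fun _ => rfl) k0_pp_022

noncomputable def cut_pp_101 : Cut := Cut.of [[⟨0, 1, 0, 67108864⟩, ⟨1, 0, 0, 67108864⟩, ⟨2, 1, 0, 67108864⟩]]

noncomputable def f_pp_101 : ℕ → ℕ → ℕ → ℕ → Bool := onCell 0 536870912 536870912 536870912 67108864 67108864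
    (rowNK 3 2 false true true .npn 1 0 1 (qsf 536870912 536870912 536870912 536870912 0) ndN3q1 ndN0q1 pcN0 cut_pp_101 Ext.none)

def k0_pp_101 : ∃ t, chk3 f_pp_101 t 1 2 1 = true :=
  ⟨(l 3), by decide +kernel⟩

def k1_pp_101 : ∃ t, chk3 f_pp_101 t 1 6 1 = true :=
  ⟨(l 3), by decide +kernel⟩

def k2_pp_101 : ∃ t, chk3 f_pp_101 t 1 14 1 = true :=
  ⟨(a (l 3) (a (l 3) (b (l 3) (a (l 254646393783) (l 332358455175))))), by decide +kernel⟩

def k3_pp_101 : ∃ t, chk3 f_pp_101 t 1 30 1 = true :=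
  ⟨(a (a (l 3) (a (l 3) (b (l 3) (a (l 286858052887) (l 142976871111))))) (a (a (b (l 3) (l 126333865431)) (l 129018429767)) (a (l 17901808) (l 18034936)))), by decide +kernel⟩

def k4_pp_101 : ∃ t, chk3 f_pp_101 t 2 62 1 = true :=
  ⟨(a (a (l 3) (a (l 3) (b (l 3) (b (l 3) (a (a (l 3) (c (l 257866537463) (b (l 3) (b (l 3) (a (l 161229058199) (l 126869328551)))))) (c (c (l 125259576359) (l 123111963463)) (a (b (c (l 217600916055) (l 170355972855)) (c (l 123111608327) (a (l 128479914423) (l 129553631367)))) (b (c (l 124185496855) (b (l 190757197175) (l 123648281479))) (l 16904920))))))))) (a (a (b (a (l 3) (l 275046600551)) (c (a (l 129017915351) (l 17431480)) (a (b (a (l 231559643383) (l 123111778951)) (a (b (l 119890410711) (l 17027416)) (l 17084664))) (b (c (l 17217160) (l 116669382791)) (l 17161344))))) (a (b (l 134386495639) (l 17318336)) (b (l 131165498551) (l 17459512)))) (a (b (l 115059107639) (l 17564088)) (l 17645392)))), by decide +kernel⟩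

def k5_pp_101 : ∃ t, chk3 f_pp_101 t 8 63 1 = true :=
  ⟨(a (l 6) (b (b (l 3) (b (l 3) (a (l 3) (a (b (l 3) (a (l 3) (c (c (b (l 140827908807) (a (l 6) (l 143512258007))) (l 155323410471)) (l 156934022327)))) (a (a (b (l 3) (c (b (l 140827902327) (l 16760288)) (l 153712799895))) (c (b (l 139754180663) (b (c (l 144586013975) (l 16749696)) (l 16756536))) (b (l 141364750199) (l 162302717575)))) (b (c (c (b (l 141901680599) (a (l 140827896119) (l 16739056))) (l 149417820343)) (l 149954687719)) (b (a (l 16756416) (l 16752664)) (l 16750728)))))))) (a (l 6) (b (a (a (l 6) (a (l 6) (a (l 6) (a (l 6) (l 16758848))))) (a (b (l 16754776) (l 16740920)) (l 16757520))) (a (l 6) (l 16751504)))))), by decide +kernel⟩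

def k6_pp_101 : ∃ t, chk3 f_pp_101 t 9 63 1 = true :=
  ⟨(b (b (a (a (a (l 3) (a (l 3) (b (l 3) (c (b (l 3) (c (l 207937230567) (l 140827918887))) (l 145122830983))))) (b (b (l 3) (a (l 3) (a (l 3) (c (a (l 230485803143) (l 126869798231)) (l 148880950679))))) (b (a (a (l 3) (c (c (l 232633471783) (l 176261529383)) (l 146733439383))) (c (c (l 17115216) (a (l 127406364679) (l 16954344))) (a (a (l 146733431671) (l 153712788903)) (b (l 156934027751) (l 16726888))))) (a (a (c (c (l 124185462407) (l 131701108727)) (l 148880918535)) (a (a (l 130627364823) (l 127943013479)) (l 16761240))) (l 16755872))))) (a (c (a (c (l 120427494407) (b (a (l 126332879847) (l 121500924823)) (l 17012432))) (l 17079272)) (b (a (b (a (l 134922270391) (l 131701124663)) (a (l 123647993879) (l 16752552))) (a (l 126869252439) (l 16835304))) (a (l 16726768) (l 16790352)))) (c (l 17282072) (a (l 16879608) (l 16950304))))) (a (a (a (b (b (l 3) (a (c (a (l 138143559815) (l 141901672887)) (l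 148880953383)) (c (a (c (l 131701173335) (l 146733463591)) (l 131164246967)) (l 153712775815)))) (a (b (a (c (b (l 142975414567) (l 16752952)) (l 158007753351)) (c (c (l 16808816) (l 16750968)) (l 16750632))) (l 16747560)) (c (c (l 16847176) (l 16745040)) (l 16744672)))) (b (c (b (a (a (l 152102218023) (l 132237985639)) (c (l 122574666647) (l 129553618407))) (a (l 129016763383) (l 16850952))) (b (a (l 152639026183) (c (l 158007729031) (l 158007733703))) (a (a (l 163913308151) (l 16743024)) (l 16737608)))) (l 16743936))) (a (a (a (a (c (l 16773200) (l 16739056)) (l 16757688)) (l 16760144)) (l 16759872)) (l 16779232))) (a (l 16799232) (l 17090880)))) (a (a (b (a (l 16756528) (l 16734704)) (l 16750648)) (a (l 16763608) (l 16743120))) (b (l 16914824) (l 16925104)))), by decide +kernel⟩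

def k7_pp_101 : ∃ t, chk3 f_pp_101 t 5 63 1 = true :=
  ⟨(a (a (b (a (l 17059576) (l 17339808)) (l 17275424)) (b (l 17481856) (l 17528040))) (a (l 17667408) (l 17795656))), by decide +kernel⟩

def k8_pp_101 : ∃ t, chk3 f_pp_101 t 3 31 1 = true :=
  ⟨(a (a (b (l 17796552) (l 17948032)) (l 18035320)) (l 18221688)), by decide +kernel⟩

theorem s9_pp_101 : ∃ t, chk3 f_pp_101 t 4 63 1 = true := ex3_a k5_pp_101 k6_pp_101

theorem s10_pp_101 : ∃ t, chk3 f_pp_101 t 2 63 1 = true := ex3_a s9_pp_101 k7_pp_101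

theorem s11_pp_101 : ∃ t, chk3 f_pp_101 t 2 31 1 = true := ex3_b k4_pp_101 s10_pp_101

theorem s12_pp_101 : ∃ t, chk3 f_pp_101 t 1 31 1 = true := ex3_a s11_pp_101 k8_pp_101

theorem s13_pp_101 : ∃ t, chk3 f_pp_101 t 1 15 1 = true := ex3_b k3_pp_101 s12_pp_101

theorem s14_pp_101 : ∃ t, chk3 f_pp_101 t 1 7 1 = true := ex3_b k2_pp_101 s13_pp_101

theorem s15_pp_101 : ∃ t, chk3 f_pp_101 t 1 3 1 = true := ex3_b k1_pp_101 s14_pp_101

theorem s16_pp_101 : ∃ t, chk3 f_pp_101 t 1 1 1 = true := ex3_b k0_pp_101 s15_pp_101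

theorem c_pp_101 : CertN 536870912 536870912 536870912 536870912 67108864 67108864 3 false true true .npn 1 0 1
    ndN3q1 ndN0q1 pcN0 cut_pp_101 Ext.none :=
  certNK2 (fam := false) (s1 := true) (s2 := true) (a := 1) (b := 0) (c := 1) (cn := .npn) (n1 := ndN3q1) (n2 := ndN0q1) (pc := pcN0) (cut := cut_pp_101) (xt := Ext.none) (P1 := 536870912) (W1 := 536870912) (P2 := 536870912) (W2 := 536870912) (P3 := 67108864) (W3 := 67108864) (N0 := 3)
    rfl rfl rfl (fun _ => rfl) s16_pp_101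

noncomputable def cut_pp_102 : Cut := Cut.of [[⟨0, 1, 0, 67108864⟩, ⟨1, 0, 0, 67108864⟩, ⟨2, 1, 0, 67108864⟩]]

noncomputable def f_pp_102 : ℕ → ℕ → ℕ → ℕ → Bool := onCell 536870912 536870912 0 536870912 67108864 67108864
    (rowNK 3 0 false true true .npp 1 0 2 (qsf 536870912 536870912 0 536870912 0) ndN3q1 ndN0q2 pcN0 cut_pp_102 Ext.none)

def k0_pp_102 : ∃ t, chk3 f_pp_102 t 1 1 1 = true :=
  ⟨(a (b (b (a (l 2) (b (l 18172416) (a (l 18766792) (l 18617872)))) (a (l 18932048) (b (a (l 19123048) (l 19076600)) (l 19048120)))) (a (b (l 18687696) (b (l 18570848) (l 18444440))) (b (b (l 18857160) (l 18678824)) (b (l 18505456) (b (l 18336312) (l 18190536)))))) (b (a (a (b (l 18574680) (l 19054488)) (b (l 18721312) (l 18865312))) (a (l 19182272) (b (l 19186528) (l 19020776)))) (a (b (a (l 18831280) (b (l 18867896) (l 18571360))) (b (b (l 18395352) (a (l 18298520) (l 18097232))) (a (b (l 18121096) (l 17913672)) (b (l 17850584) (b (l 17644536) (a (l 17612760) (l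 17364968))))))) (b (a (b (l 18733600) (l 18423080)) (b (l 18592184) (a (l 18065128) (l 17592192)))) (a (a (b (l 17956944) (b (l 17448640) (b (l 17160120) (l 16848040)))) (b (b (l 17854408) (l 17426872)) (b (l 16990048) (b (l 16858016) (b (l 16806848) (a (l 16776128) (l 16773544))))))) (b (a (b (l 17367464) (b (l 17155864) (l 17047360))) (b (a (l 17266880) (l 17275320)) (a (l 17091704) (a (l 17076376) (l 17091256))))) (b (a (b (l 16996240) (a (l 16912512) (l 16910152))) (a (b (l 16966008) (l 6)) (l 6))) (a (a (b (l 16846704) (b (l 16801168) (l 16793864))) (b (l 16841504) (l 6))) (l 6))))))))), by decide +kernel⟩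

theorem c_pp_102 : CertN 536870912 536870912 0 536870912 67108864 67108864 3 false true true .npp 1 0 2
    ndN3q1 ndN0q2 pcN0 cut_pp_102 Ext.none :=
  certNK0 (fam := false) (s1 := true) (s2 := true) (a := 1) (b := 0) (c := 2) (cn := .npp) (n1 := ndN3q1) (n2 := ndN0q2) (pc := pcN0) (cut := cut_pp_102) (xt := Ext.none) (P1 := 536870912) (W1 := 536870912) (P2 := 0) (W2 := 536870912) (P3 := 67108864) (W3 := 67108864) (N0 := 3)
    rfl rfl rfl k0_pp_102

noncomputable def f_pp_112 : ℕ → ℕ → ℕ → ℕ → Bool := onCell 536870912 536870912 0 536870912 67108864 67108864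
    (rowNK 3 0 false true true .dn 1 1 2 (qsf 536870912 536870912 0 536870912 1) ndN3q1 ndN0q2 pcN1 Cut.none Ext.none)

def k0_pp_112 : ∃ t, chk3 f_pp_112 t 1 1 1 = true :=
  ⟨(a (b (a (b (a (a (l 17958560) (b (l 18227816) (l 17664392))) (b (l 18494096) (b (l 17815720) (l 17704616)))) (l 17741304)) (a (b (b (l 18748240) (l 18006512)) (b (l 17886776) (l 17943872))) (l 1))) (a (b (l 17919120) (l 76272346919)) (b (l 1) (l 1)))) (l 1)), by decide +kernel⟩

theorem c_pp_112 : CertN 536870912 536870912 0 536870912 67108864 67108864 3 false true true .dn 1 1 2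
    ndN3q1 ndN0q2 pcN1 Cut.none Ext.none :=
  certNK0 (fam := false) (s1 := true) (s2 := true) (a := 1) (b := 1) (c := 2) (cn := .dn) (n1 := ndN3q1) (n2 := ndN0q2) (pc := pcN1) (cut := Cut.none) (xt := Ext.none) (P1 := 536870912) (W1 := 536870912) (P2 := 0) (W2 := 536870912) (P3 := 67108864) (W3 := 67108864) (N0 := 3)
    rfl rfl rfl k0_pp_112

noncomputable def f_pp_202 : ℕ → ℕ → ℕ → ℕ → Bool := onCell 1073741824 536870912 0 536870912 67108864 67108864
    (rowNK 3 0 false true true .pp 2 0 2 (qsf 1073741824 536870912 0 536870912 0) ndN3q2 ndN0q2 pcN0 Cut.none Ext.none)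

def k0_pp_202 : ∃ t, chk3 f_pp_202 t 1 1 1 = true :=
  ⟨(l 3), by decide +kernel⟩

theorem c_pp_202 : CertN 1073741824 536870912 0 536870912 67108864 67108864 3 false true true .pp 2 0 2
    ndN3q2 ndN0q2 pcN0 Cut.none Ext.none :=
  certNK0 (fam := false) (s1 := true) (s2 := true) (a := 2) (b := 0) (c := 2) (cn := .pp) (n1 := ndN3q2) (n2 := ndN0q2) (pc := pcN0) (cut := Cut.none) (xt := Ext.none) (P1 := 1073741824) (W1 := 536870912) (P2 := 0) (W2 := 536870912) (P3 := 67108864) (W3 := 67108864) (N0 := 3)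
    rfl rfl rfl k0_pp_202

noncomputable def f_pm_001 : ℕ → ℕ → ℕ → ℕ → Bool := onCell 0 536870912 536870912 536870912 67108864 67108864
    (rowNK 3 0 false true false .up 0 0 1 (qsf 0 536870912 536870912 536870912 0) ndN3q0 ndN0q1 pcN0 Cut.none Ext.none)

def k0_pm_001 : ∃ t, chk3 f_pm_001 t 1 1 1 = true :=
  ⟨(l 4), by decide +kernel⟩

theorem c_pm_001 : CertN 0 536870912 536870912 536870912 67108864 67108864 3 false true false .up 0 0 1
    ndN3q0 ndN0q1 pcN0 Cut.none Ext.none :=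
  certNK0 (fam := false) (s1 := true) (s2 := false) (a := 0) (b := 0) (c := 1) (cn := .up) (n1 := ndN3q0) (n2 := ndN0q1) (pc := pcN0) (cut := Cut.none) (xt := Ext.none) (P1 := 0) (W1 := 536870912) (P2 := 536870912) (W2 := 536870912) (P3 := 67108864) (W3 := 67108864) (N0 := 3)
    rfl rfl rfl k0_pm_001

noncomputable def f_pm_011 : ℕ → ℕ → ℕ → ℕ → Bool := onCell 0 536870912 536870912 536870912 67108864 67108864
    (rowNK 3 0 false true false .pnn 0 1 1 (qsf 0 536870912 536870912 536870912 1) ndN3q0 ndN0q1 pcN1 Cut.none Ext.none)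

def k0_pm_011 : ∃ t, chk3 f_pm_011 t 1 1 1 = true :=
  ⟨(l 4), by decide +kernel⟩

theorem c_pm_011 : CertN 0 536870912 536870912 536870912 67108864 67108864 3 false true false .pnn 0 1 1
    ndN3q0 ndN0q1 pcN1 Cut.none Ext.none :=
  certNK0 (fam := false) (s1 := true) (s2 := false) (a := 0) (b := 1) (c := 1) (cn := .pnn) (n1 := ndN3q0) (n2 := ndN0q1) (pc := pcN1) (cut := Cut.none) (xt := Ext.none) (P1 := 0) (W1 := 536870912) (P2 := 536870912) (W2 := 536870912) (P3 := 67108864) (W3 := 67108864) (N0 := 3)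
    rfl rfl rfl k0_pm_011

noncomputable def f_pm_012 : ℕ → ℕ → ℕ → ℕ → Bool := onCell 536870912 536870912 0 536870912 67108864 67108864
    (rowNK 3 2 false true false .pnp 0 1 2 (qsf 0 536870912 0 536870912 1) ndN3q0 ndN0q2 pcN1 Cut.none Ext.none)

def k0_pm_012 : ∃ t, chk3 f_pm_012 t 1 1 1 = true :=
  ⟨(b (a (b (a (l 2) (a (a (l 17642128) (l 17577128)) (l 17816336))) (l 17974728)) (a (a (a (l 18139784) (l 18032360)) (l 18484232)) (a (l 18893176) (a (l 19033656) (l 19133168))))) (l 4)), by decide +kernel⟩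

theorem c_pm_012 : CertN 0 536870912 0 536870912 67108864 67108864 3 false true false .pnp 0 1 2
    ndN3q0 ndN0q2 pcN1 Cut.none Ext.none :=
  certNK2 (fam := false) (s1 := true) (s2 := false) (a := 0) (b := 1) (c := 2) (cn := .pnp) (n1 := ndN3q0) (n2 := ndN0q2) (pc := pcN1) (cut := Cut.none) (xt := Ext.none) (P1 := 0) (W1 := 536870912) (P2 := 0) (W2 := 536870912) (P3 := 67108864) (W3 := 67108864) (N0 := 3)
    rfl rfl rfl (fun _ => rfl) k0_pm_012

noncomputable def f_pm_022 : ℕ → ℕ → ℕ → ℕ → Bool := onCell 0 536870912 0 536870912 67108864 67108864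
    (rowNK 3 0 false true false .pp 0 2 2 (qsf 0 536870912 0 536870912 2) ndN3q0 ndN0q2 pcN2 Cut.none Ext.none)

def k0_pm_022 : ∃ t, chk3 f_pm_022 t 1 1 1 = true :=
  ⟨(a (b (a (a (l 18947056) (l 19015832)) (l 19307096)) (l 4)) (l 1)), by decide +kernel⟩

theorem c_pm_022 : CertN 0 536870912 0 536870912 67108864 67108864 3 false true false .pp 0 2 2
    ndN3q0 ndN0q2 pcN2 Cut.none Ext.none :=
  certNK0 (fam := false) (s1 := true) (s2 := false) (a := 0) (b := 2) (c := 2) (cn := .pp) (n1 := ndN3q0) (n2 := ndN0q2) (pc := pcN2) (cut := Cut.none) (xt := Ext.none) (P1 := 0) (W1 := 536870912) (P2 := 0) (W2 := 536870912) (P3 := 67108864) (W3 := 67108864) (N0 := 3)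
    rfl rfl rfl k0_pm_022

noncomputable def f_pm_101 : ℕ → ℕ → ℕ → ℕ → Bool := onCell 536870912 536870912 536870912 536870912 67108864 67108864
    (rowNK 3 0 false true false .npn 1 0 1 (qsf 536870912 536870912 536870912 536870912 0) ndN3q1 ndN0q1 pcN0 Cut.none Ext.none)

def k0_pm_101 : ∃ t, chk3 f_pm_101 t 1 1 1 = true :=
  ⟨(l 4), by decide +kernel⟩

theorem c_pm_101 : CertN 536870912 536870912 536870912 536870912 67108864 67108864 3 false true false .npn 1 0 1
    ndN3q1 ndN0q1 pcN0 Cut.none Ext.none :=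
  certNK0 (fam := false) (s1 := true) (s2 := false) (a := 1) (b := 0) (c := 1) (cn := .npn) (n1 := ndN3q1) (n2 := ndN0q1) (pc := pcN0) (cut := Cut.none) (xt := Ext.none) (P1 := 536870912) (W1 := 536870912) (P2 := 536870912) (W2 := 536870912) (P3 := 67108864) (W3 := 67108864) (N0 := 3)
    rfl rfl rfl k0_pm_101

noncomputable def f_pm_102 : ℕ → ℕ → ℕ → ℕ → Bool := onCell 0 536870912 0 536870912 67108864 67108864
    (rowNK 3 2 false true false .npp 1 0 2 (qsf 536870912 536870912 0 536870912 0) ndN3q1 ndN0q2 pcN0 Cut.none Ext.none)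

def k0_pm_102 : ∃ t, chk3 f_pm_102 t 1 1 1 = true :=
  ⟨(a (b (a (l 19809400) (l 19291968)) (a (l 19925096) (l 4))) (b (a (b (l 18792664) (l 19078120)) (b (l 18400424) (l 18973128))) (l 4))), by decide +kernel⟩

theorem c_pm_102 : CertN 536870912 536870912 0 536870912 67108864 67108864 3 false true false .npp 1 0 2
    ndN3q1 ndN0q2 pcN0 Cut.none Ext.none :=
  certNK2 (fam := false) (s1 := true) (s2 := false) (a := 1) (b := 0) (c := 2) (cn := .npp) (n1 := ndN3q1) (n2 := ndN0q2) (pc := pcN0) (cut := Cut.none) (xt := Ext.none) (P1 := 536870912) (W1 := 536870912) (P2 := 0) (W2 := 536870912) (P3 := 67108864) (W3 := 67108864) (N0 := 3)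
    rfl rfl rfl (fun _ => rfl) k0_pm_102

noncomputable def f_pm_112 : ℕ → ℕ → ℕ → ℕ → Bool := onCell 536870912 536870912 0 536870912 67108864 67108864
    (rowNK 3 0 false true false .dn 1 1 2 (qsf 536870912 536870912 0 536870912 1) ndN3q1 ndN0q2 pcN1 Cut.none Ext.none)

def k0_pm_112 : ∃ t, chk3 f_pm_112 t 1 1 1 = true :=
  ⟨(a (b (a (b (b (b (l 18958752) (l 19059664)) (l 19051336)) (l 19100984)) (l 19081376)) (l 4)) (l 1)), by decide +kernel⟩

theorem c_pm_112 : CertN 536870912 536870912 0 536870912 67108864 67108864 3 false true false .dn 1 1 2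
    ndN3q1 ndN0q2 pcN1 Cut.none Ext.none :=
  certNK0 (fam := false) (s1 := true) (s2 := false) (a := 1) (b := 1) (c := 2) (cn := .dn) (n1 := ndN3q1) (n2 := ndN0q2) (pc := pcN1) (cut := Cut.none) (xt := Ext.none) (P1 := 536870912) (W1 := 536870912) (P2 := 0) (W2 := 536870912) (P3 := 67108864) (W3 := 67108864) (N0 := 3)
    rfl rfl rfl k0_pm_112

noncomputable def f_pm_202 : ℕ → ℕ → ℕ → ℕ → Bool := onCell 0 536870912 0 536870912 67108864 67108864
    (rowNK 3 2 false true false .pp 2 0 2 (qsf 1073741824 536870912 0 536870912 0) ndN3q2 ndN0q2 pcN0 Cut.none Ext.none)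

def k0_pm_202 : ∃ t, chk3 f_pm_202 t 1 1 1 = true :=
  ⟨(a (a (b (b (b (l 3) (b (l 3) (a (a (l 3) (b (l 3) (a (l 174653119559) (l 140293274359)))) (a (l 140829985751) (l 141366286231))))) (a (b (a (b (b (c (l 139757882999) (a (a (l 130629133799) (l 130628648007)) (l 129555132519))) (a (a (l 17942776) (l 17930080)) (l 17866296))) (l 17698248)) (a (b (b (l 17881424) (l 17784352)) (l 17700208)) (b (l 17784864) (l 17654280)))) (a (l 17183432) (l 17374592))) (a (b (b (l 17726152) (l 17619000)) (l 17500240)) (b (b (l 17707464) (l 17669864)) (b (l 17644072) (l 17688712)))))) (a (b (b (l 17719416) (l 18330736)) (b (l 18874632) (l 19201992))) (b (b (l 17828200) (l 18288064)) (b (l 18816968) (l 1))))) (b (a (b (b (l 3) (a (b (l 137608735687) (l 17635600)) (l 1))) (b (b (l 17826904) (l 17871112)) (b (l 17938768) (l 18054440)))) (l 1)) (b (l 1) (l 1)))) (l 1)), by decide +kernel⟩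

theorem c_pm_202 : CertN 1073741824 536870912 0 536870912 67108864 67108864 3 false true false .pp 2 0 2
    ndN3q2 ndN0q2 pcN0 Cut.none Ext.none :=
  certNK2 (fam := false) (s1 := true) (s2 := false) (a := 2) (b := 0) (c := 2) (cn := .pp) (n1 := ndN3q2) (n2 := ndN0q2) (pc := pcN0) (cut := Cut.none) (xt := Ext.none) (P1 := 1073741824) (W1 := 536870912) (P2 := 0) (W2 := 536870912) (P3 := 67108864) (W3 := 67108864) (N0 := 3)
    rfl rfl rfl (fun _ => rfl) k0_pm_202

noncomputable def f_mm_001 : ℕ → ℕ → ℕ → ℕ → Bool := onCell 0 536870912 536870912 536870912 67108864 67108864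
    (rowNK 3 0 false false false .up 0 0 1 (qsf 0 536870912 536870912 536870912 0) ndN3q0 ndN0q1 pcN0 Cut.none Ext.none)

def k0_mm_001 : ∃ t, chk3 f_mm_001 t 1 1 1 = true :=
  ⟨(l 5), by decide +kernel⟩

theorem c_mm_001 : CertN 0 536870912 536870912 536870912 67108864 67108864 3 false false false .up 0 0 1
    ndN3q0 ndN0q1 pcN0 Cut.none Ext.none :=
  certNK0 (fam := false) (s1 := false) (s2 := false) (a := 0) (b := 0) (c := 1) (cn := .up) (n1 := ndN3q0) (n2 := ndN0q1) (pc := pcN0) (cut := Cut.none) (xt := Ext.none) (P1 := 0) (W1 := 536870912) (P2 := 536870912) (W2 := 536870912) (P3 := 67108864) (W3 := 67108864) (N0 := 3)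
    rfl rfl rfl k0_mm_001

noncomputable def f_mm_011 : ℕ → ℕ → ℕ → ℕ → Bool := onCell 0 536870912 536870912 536870912 67108864 67108864
    (rowNK 3 0 false false false .pnn 0 1 1 (qsf 0 536870912 536870912 536870912 1) ndN3q0 ndN0q1 pcN1 Cut.none Ext.none)

def k0_mm_011 : ∃ t, chk3 f_mm_011 t 1 1 1 = true :=
  ⟨(l 5), by decide +kernel⟩

theorem c_mm_011 : CertN 0 536870912 536870912 536870912 67108864 67108864 3 false false false .pnn 0 1 1
    ndN3q0 ndN0q1 pcN1 Cut.none Ext.none :=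
  certNK0 (fam := false) (s1 := false) (s2 := false) (a := 0) (b := 1) (c := 1) (cn := .pnn) (n1 := ndN3q0) (n2 := ndN0q1) (pc := pcN1) (cut := Cut.none) (xt := Ext.none) (P1 := 0) (W1 := 536870912) (P2 := 536870912) (W2 := 536870912) (P3 := 67108864) (W3 := 67108864) (N0 := 3)
    rfl rfl rfl k0_mm_011

noncomputable def f_mm_012 : ℕ → ℕ → ℕ → ℕ → Bool := onCell 0 536870912 0 536870912 67108864 67108864
    (rowNK 3 0 false false false .pnp 0 1 2 (qsf 0 536870912 0 536870912 1) ndN3q0 ndN0q2 pcN1 Cut.none Ext.none)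

def k0_mm_012 : ∃ t, chk3 f_mm_012 t 1 1 1 = true :=
  ⟨(l 5), by decide +kernel⟩

theorem c_mm_012 : CertN 0 536870912 0 536870912 67108864 67108864 3 false false false .pnp 0 1 2
    ndN3q0 ndN0q2 pcN1 Cut.none Ext.none :=
  certNK0 (fam := false) (s1 := false) (s2 := false) (a := 0) (b := 1) (c := 2) (cn := .pnp) (n1 := ndN3q0) (n2 := ndN0q2) (pc := pcN1) (cut := Cut.none) (xt := Ext.none) (P1 := 0) (W1 := 536870912) (P2 := 0) (W2 := 536870912) (P3 := 67108864) (W3 := 67108864) (N0 := 3)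
    rfl rfl rfl k0_mm_012

noncomputable def f_mm_022 : ℕ → ℕ → ℕ → ℕ → Bool := onCell 0 536870912 0 536870912 67108864 67108864
    (rowNK 3 0 false false false .pp 0 2 2 (qsf 0 536870912 0 536870912 2) ndN3q0 ndN0q2 pcN2 Cut.none Ext.none)

def k0_mm_022 : ∃ t, chk3 f_mm_022 t 1 1 1 = true :=
  ⟨(l 5), by decide +kernel⟩

theorem c_mm_022 : CertN 0 536870912 0 536870912 67108864 67108864 3 false false false .pp 0 2 2
    ndN3q0 ndN0q2 pcN2 Cut.none Ext.none :=
  certNK0 (fam := false) (s1 := false) (s2 := false) (a := 0) (b := 2) (c := 2) (cn := .pp) (n1 := ndN3q0) (n2 := ndN0q2) (pc := pcN2) (cut := Cut.none) (xt := Ext.none) (P1 := 0) (W1 := 536870912) (P2 := 0) (W2 := 536870912) (P3 := 67108864) (W3 := 67108864) (N0 := 3)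
    rfl rfl rfl k0_mm_022

noncomputable def f_mm_101 : ℕ → ℕ → ℕ → ℕ → Bool := onCell 0 536870912 536870912 536870912 67108864 67108864
    (rowNK 3 2 false false false .npn 1 0 1 (qsf 536870912 536870912 536870912 536870912 0) ndN3q1 ndN0q1 pcN0 Cut.none Ext.none)

def k0_mm_101 : ∃ t, chk3 f_mm_101 t 1 1 1 = true :=
  ⟨(a (l 5) (l 5)), by decide +kernel⟩

theorem c_mm_101 : CertN 536870912 536870912 536870912 536870912 67108864 67108864 3 false false false .npn 1 0 1
    ndN3q1 ndN0q1 pcN0 Cut.none Ext.none :=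
  certNK2 (fam := false) (s1 := false) (s2 := false) (a := 1) (b := 0) (c := 1) (cn := .npn) (n1 := ndN3q1) (n2 := ndN0q1) (pc := pcN0) (cut := Cut.none) (xt := Ext.none) (P1 := 536870912) (W1 := 536870912) (P2 := 536870912) (W2 := 536870912) (P3 := 67108864) (W3 := 67108864) (N0 := 3)
    rfl rfl rfl (fun _ => rfl) k0_mm_101

noncomputable def f_mm_102 : ℕ → ℕ → ℕ → ℕ → Bool := onCell 536870912 536870912 0 536870912 67108864 67108864
    (rowNK 3 0 false false false .npp 1 0 2 (qsf 536870912 536870912 0 536870912 0) ndN3q1 ndN0q2 pcN0 Cut.none Ext.none)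

def k0_mm_102 : ∃ t, chk3 f_mm_102 t 1 1 1 = true :=
  ⟨(l 5), by decide +kernel⟩

theorem c_mm_102 : CertN 536870912 536870912 0 536870912 67108864 67108864 3 false false false .npp 1 0 2
    ndN3q1 ndN0q2 pcN0 Cut.none Ext.none :=
  certNK0 (fam := false) (s1 := false) (s2 := false) (a := 1) (b := 0) (c := 2) (cn := .npp) (n1 := ndN3q1) (n2 := ndN0q2) (pc := pcN0) (cut := Cut.none) (xt := Ext.none) (P1 := 536870912) (W1 := 536870912) (P2 := 0) (W2 := 536870912) (P3 := 67108864) (W3 := 67108864) (N0 := 3)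
    rfl rfl rfl k0_mm_102

noncomputable def f_mm_112 : ℕ → ℕ → ℕ → ℕ → Bool := onCell 536870912 536870912 0 536870912 67108864 67108864
    (rowNK 3 0 false false false .dn 1 1 2 (qsf 536870912 536870912 0 536870912 1) ndN3q1 ndN0q2 pcN1 Cut.none Ext.none)

def k0_mm_112 : ∃ t, chk3 f_mm_112 t 1 1 1 = true :=
  ⟨(l 5), by decide +kernel⟩

theorem c_mm_112 : CertN 536870912 536870912 0 536870912 67108864 67108864 3 false false false .dn 1 1 2
    ndN3q1 ndN0q2 pcN1 Cut.none Ext.none :=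
  certNK0 (fam := false) (s1 := false) (s2 := false) (a := 1) (b := 1) (c := 2) (cn := .dn) (n1 := ndN3q1) (n2 := ndN0q2) (pc := pcN1) (cut := Cut.none) (xt := Ext.none) (P1 := 536870912) (W1 := 536870912) (P2 := 0) (W2 := 536870912) (P3 := 67108864) (W3 := 67108864) (N0 := 3)
    rfl rfl rfl k0_mm_112

noncomputable def f_mm_202 : ℕ → ℕ → ℕ → ℕ → Bool := onCell 1073741824 536870912 0 536870912 67108864 67108864
    (rowNK 3 0 false false false .pp 2 0 2 (qsf 1073741824 536870912 0 536870912 0) ndN3q2 ndN0q2 pcN0 Cut.none Ext.none)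

def k0_mm_202 : ∃ t, chk3 f_mm_202 t 1 1 1 = true :=
  ⟨(l 3), by decide +kernel⟩

theorem c_mm_202 : CertN 1073741824 536870912 0 536870912 67108864 67108864 3 false false false .pp 2 0 2
    ndN3q2 ndN0q2 pcN0 Cut.none Ext.none :=
  certNK0 (fam := false) (s1 := false) (s2 := false) (a := 2) (b := 0) (c := 2) (cn := .pp) (n1 := ndN3q2) (n2 := ndN0q2) (pc := pcN0) (cut := Cut.none) (xt := Ext.none) (P1 := 1073741824) (W1 := 536870912) (P2 := 0) (W2 := 536870912) (P3 := 67108864) (W3 := 67108864) (N0 := 3)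
    rfl rfl rfl k0_mm_202

end Pool.Agent.Strip051.G.I1_16_1_8.Tab.C.NB30

namespace Pool.Agent.Strip051.G.I1_16_1_8.Tab.C.NB31

open Pool.Agent.Strip051.PB Pool.Agent.Strip051.PB.T
open Pool.Agent.Strip051.G.I1_16_1_8.Tab

noncomputable def f_pp_001 : ℕ → ℕ → ℕ → ℕ → Bool := onCell 0 536870912 536870912 536870912 67108864 67108864
    (rowNK 3 0 false true true .up 0 0 1 (qsf 0 536870912 536870912 536870912 0) ndN3q0 ndN1q1 pcN0 Cut.none Ext.none)

def k0_pp_001 : ∃ t, chk3 f_pp_001 t 1 1 1 = true :=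
  ⟨(l 3), by decide +kernel⟩

theorem c_pp_001 : CertN 0 536870912 536870912 536870912 67108864 67108864 3 false true true .up 0 0 1
    ndN3q0 ndN1q1 pcN0 Cut.none Ext.none :=
  certNK0 (fam := false) (s1 := true) (s2 := true) (a := 0) (b := 0) (c := 1) (cn := .up) (n1 := ndN3q0) (n2 := ndN1q1) (pc := pcN0) (cut := Cut.none) (xt := Ext.none) (P1 := 0) (W1 := 536870912) (P2 := 536870912) (W2 := 536870912) (P3 := 67108864) (W3 := 67108864) (N0 := 3)
    rfl rfl rfl k0_pp_001

noncomputable def f_pp_011 : ℕ → ℕ → ℕ → ℕ → Bool := onCell 0 536870912 536870912 536870912 67108864 67108864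
    (rowNK 3 0 false true true .pnn 0 1 1 (qsf 0 536870912 536870912 536870912 1) ndN3q0 ndN1q1 pcN1 Cut.none Ext.none)

def k0_pp_011 : ∃ t, chk3 f_pp_011 t 1 1 1 = true :=
  ⟨(l 3), by decide +kernel⟩

theorem c_pp_011 : CertN 0 536870912 536870912 536870912 67108864 67108864 3 false true true .pnn 0 1 1
    ndN3q0 ndN1q1 pcN1 Cut.none Ext.none :=
  certNK0 (fam := false) (s1 := true) (s2 := true) (a := 0) (b := 1) (c := 1) (cn := .pnn) (n1 := ndN3q0) (n2 := ndN1q1) (pc := pcN1) (cut := Cut.none) (xt := Ext.none) (P1 := 0) (W1 := 536870912) (P2 := 536870912) (W2 := 536870912) (P3 := 67108864) (W3 := 67108864) (N0 := 3)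
    rfl rfl rfl k0_pp_011

noncomputable def f_pp_012_a : ℕ → ℕ → ℕ → ℕ → Bool := onCell 536870912 536870912 0 536870912 67108864 67108864
    (rowNK 3 2 false true true .pnp 0 1 2 (qsf 0 536870912 0 536870912 1) ndN3q0 ndN1q2a pcN1 Cut.none Ext.none)

def k0_pp_012_a : ∃ t, chk3 f_pp_012_a t 1 1 1 = true :=
  ⟨(a (b (a (l 18365624) (l 17707408)) (a (b (l 18156296) (l 18038648)) (b (l 17468592) (l 17446544)))) (b (a (l 17126536) (a (l 17594216) (a (l 18005904) (l 18289672)))) (a (b (l 17251584) (a (l 17435984) (l 17833736))) (b (l 18148512) (a (l 18292416) (l 18793440)))))), by decide +kernel⟩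

theorem c_pp_012_a : CertN 0 536870912 0 536870912 67108864 67108864 3 false true true .pnp 0 1 2
    ndN3q0 ndN1q2a pcN1 Cut.none Ext.none :=
  certNK2 (fam := false) (s1 := true) (s2 := true) (a := 0) (b := 1) (c := 2) (cn := .pnp) (n1 := ndN3q0) (n2 := ndN1q2a) (pc := pcN1) (cut := Cut.none) (xt := Ext.none) (P1 := 0) (W1 := 536870912) (P2 := 0) (W2 := 536870912) (P3 := 67108864) (W3 := 67108864) (N0 := 3)
    rfl rfl rfl (fun _ => rfl) k0_pp_012_a

noncomputable def f_pp_012_b : ℕ → ℕ → ℕ → ℕ → Bool := onCell 536870912 536870912 1239849684 370763052 67108864 67108864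
    (rowNK 3 2 false true true .pnp 0 1 2 (qsf 0 536870912 1239849684 370763052 1) ndN3q0 ndN1q2b pcN1 Cut.none Ext.none)

def k0_pp_012_b : ∃ t, chk3 f_pp_012_b t 1 1 1 = true :=
  ⟨(a (a (l 2) (l 17927928)) (a (b (a (l 17201928) (l 17129488)) (l 17397848)) (a (b (l 17647136) (l 18241080)) (a (b (l 18056312) (l 18620328)) (l 18657904))))), by decide +kernel⟩

theorem c_pp_012_b : CertN 0 536870912 1239849684 370763052 67108864 67108864 3 false true true .pnp 0 1 2
    ndN3q0 ndN1q2b pcN1 Cut.none Ext.none :=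
  certNK2 (fam := false) (s1 := true) (s2 := true) (a := 0) (b := 1) (c := 2) (cn := .pnp) (n1 := ndN3q0) (n2 := ndN1q2b) (pc := pcN1) (cut := Cut.none) (xt := Ext.none) (P1 := 0) (W1 := 536870912) (P2 := 1239849684) (W2 := 370763052) (P3 := 67108864) (W3 := 67108864) (N0 := 3)
    rfl rfl rfl (fun _ => rfl) k0_pp_012_b

noncomputable def f_pp_022_a : ℕ → ℕ → ℕ → ℕ → Bool := onCell 1073741824 536870912 0 536870912 67108864 67108864
    (rowNK 3 2 false true true .pp 0 2 2 (qsf 0 536870912 0 536870912 2) ndN3q0 ndN1q2a pcN2 Cut.none Ext.none)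

def k0_pp_022_a : ∃ t, chk3 f_pp_022_a t 1 1 1 = true :=
  ⟨(a (b (a (l 18741472) (a (l 18833024) (l 1))) (a (a (a (b (l 18799264) (l 19136600)) (b (l 18879576) (l 526709231543))) (b (l 18954336) (b (l 19164184) (l 1)))) (b (l 1) (l 1)))) (l 1)), by decide +kernel⟩

theorem c_pp_022_a : CertN 0 536870912 0 536870912 67108864 67108864 3 false true true .pp 0 2 2
    ndN3q0 ndN1q2a pcN2 Cut.none Ext.none :=
  certNK2 (fam := false) (s1 := true) (s2 := true) (a := 0) (b := 2) (c := 2) (cn := .pp) (n1 := ndN3q0) (n2 := ndN1q2a) (pc := pcN2) (cut := Cut.none) (xt := Ext.none) (P1 := 0) (W1 := 536870912) (P2 := 0) (W2 := 536870912) (P3 := 67108864) (W3 := 67108864) (N0 := 3)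
    rfl rfl rfl (fun _ => rfl) k0_pp_022_a

noncomputable def f_pp_022_b : ℕ → ℕ → ℕ → ℕ → Bool := onCell 0 536870912 1239849684 370763052 67108864 67108864
    (rowNK 3 0 false true true .pp 0 2 2 (qsf 0 536870912 1239849684 370763052 2) ndN3q0 ndN1q2b pcN2 Cut.none Ext.none)

def k0_pp_022_b : ∃ t, chk3 f_pp_022_b t 1 1 1 = true :=
  ⟨(a (b (a (l 18501584) (l 18742576)) (a (b (l 18208768) (l 17974472)) (l 18404184))) (b (a (l 19284920) (l 1)) (a (l 18873496) (l 19302352)))), by decide +kernel⟩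

theorem c_pp_022_b : CertN 0 536870912 1239849684 370763052 67108864 67108864 3 false true true .pp 0 2 2
    ndN3q0 ndN1q2b pcN2 Cut.none Ext.none :=
  certNK0 (fam := false) (s1 := true) (s2 := true) (a := 0) (b := 2) (c := 2) (cn := .pp) (n1 := ndN3q0) (n2 := ndN1q2b) (pc := pcN2) (cut := Cut.none) (xt := Ext.none) (P1 := 0) (W1 := 536870912) (P2 := 1239849684) (W2 := 370763052) (P3 := 67108864) (W3 := 67108864) (N0 := 3)
    rfl rfl rfl k0_pp_022_b

noncomputable def f_pp_023 : ℕ → ℕ → ℕ → ℕ → Bool := onCell 0 536870912 1073741824 536870912 67108864 67108864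
    (rowNK 3 1 false true true .up 0 2 3 (qsf 0 536870912 1610612736 536870912 2) ndN3q0 ndN1q3 pcN2 Cut.none Ext.none)

def k0_pp_023 : ∃ t, chk3 f_pp_023 t 1 1 1 = true :=
  ⟨(a (b (a (l 1) (l 496642497655)) (b (l 492346347415) (l 480534850823))) (b (l 572343464231) (b (l 18783344) (l 18415952)))), by decide +kernel⟩

theorem c_pp_023 : CertN 0 536870912 1610612736 536870912 67108864 67108864 3 false true true .up 0 2 3
    ndN3q0 ndN1q3 pcN2 Cut.none Ext.none :=
  certNK1 (fam := false) (s1 := true) (s2 := true) (a := 0) (b := 2) (c := 3) (cn := .up) (n1 := ndN3q0) (n2 := ndN1q3) (pc := pcN2) (cut := Cut.none) (xt := Ext.none) (P1 := 0) (W1 := 536870912) (P2 := 1610612736) (W2 := 536870912) (P3 := 67108864) (W3 := 67108864) (N0 := 3)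
    rfl rfl rfl (fun _ => rfl) k0_pp_023

noncomputable def f_pp_033 : ℕ → ℕ → ℕ → ℕ → Bool := onCell 0 536870912 1610612736 536870912 67108864 67108864
    (rowNK 3 0 false true true .pnn 0 3 3 (qsf 0 536870912 1610612736 536870912 3) ndN3q0 ndN1q3 pcN3 Cut.none Ext.none)

def k0_pp_033 : ∃ t, chk3 f_pp_033 t 1 1 1 = true :=
  ⟨(a (b (a (b (b (l 16965512) (a (l 17175392) (l 17168568))) (l 4)) (b (b (l 1) (l 17780624)) (b (l 17745712) (l 4)))) (l 4)) (b (a (b (l 1) (b (l 1) (l 18402056))) (l 1)) (b (a (l 4) (b (l 1) (l 4))) (l 4)))), by decide +kernel⟩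

theorem c_pp_033 : CertN 0 536870912 1610612736 536870912 67108864 67108864 3 false true true .pnn 0 3 3
    ndN3q0 ndN1q3 pcN3 Cut.none Ext.none :=
  certNK0 (fam := false) (s1 := true) (s2 := true) (a := 0) (b := 3) (c := 3) (cn := .pnn) (n1 := ndN3q0) (n2 := ndN1q3) (pc := pcN3) (cut := Cut.none) (xt := Ext.none) (P1 := 0) (W1 := 536870912) (P2 := 1610612736) (W2 := 536870912) (P3 := 67108864) (W3 := 67108864) (N0 := 3)
    rfl rfl rfl k0_pp_033

noncomputable def f_pp_101 : ℕ → ℕ → ℕ → ℕ → Bool := onCell 536870912 536870912 536870912 536870912 67108864 67108864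
    (rowNK 3 0 false true true .npn 1 0 1 (qsf 536870912 536870912 536870912 536870912 0) ndN3q1 ndN1q1 pcN0 Cut.none Ext.none)

def k0_pp_101 : ∃ t, chk3 f_pp_101 t 1 1 1 = true :=
  ⟨(l 3), by decide +kernel⟩

theorem c_pp_101 : CertN 536870912 536870912 536870912 536870912 67108864 67108864 3 false true true .npn 1 0 1
    ndN3q1 ndN1q1 pcN0 Cut.none Ext.none :=
  certNK0 (fam := false) (s1 := true) (s2 := true) (a := 1) (b := 0) (c := 1) (cn := .npn) (n1 := ndN3q1) (n2 := ndN1q1) (pc := pcN0) (cut := Cut.none) (xt := Ext.none) (P1 := 536870912) (W1 := 536870912) (P2 := 536870912) (W2 := 536870912) (P3 := 67108864) (W3 := 67108864) (N0 := 3)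
    rfl rfl rfl k0_pp_101

noncomputable def cut_pp_102_a : Cut := Cut.of [[⟨0, 1, 0, 67108864⟩, ⟨1, 0, 0, 67108864⟩, ⟨2, 1, 0, 67108864⟩]]

noncomputable def f_pp_102_a : ℕ → ℕ → ℕ → ℕ → Bool := onCell 536870912 536870912 0 536870912 67108864 67108864
    (rowNK 3 0 false true true .npp 1 0 2 (qsf 536870912 536870912 0 536870912 0) ndN3q1 ndN1q2a pcN0 cut_pp_102_a Ext.none)

def k0_pp_102_a : ∃ t, chk3 f_pp_102_a t 1 1 1 = true :=
  ⟨(a (b (a (l 18686208) (l 18821824)) (b (a (l 18654232) (l 18679936)) (a (b (l 18566120) (l 18439744)) (b (l 18489544) (a (l 18315504) (l 18195816)))))) (a (b (b (l 18951440) (l 18870296)) (b (a (l 18662008) (l 18620784)) (b (a (l 18365536) (l 18205384)) (b (a (l 18124840) (l 17869576)) (a (l 17917912) (a (l 17690112) (b (l 17541080) (l 17375024)))))))) (b (a (b (l 19042648) (l 18894280)) (b (l 19068808) (a (l 18853032) (l 18741632)))) (a (b (b (l 18645360) (l 18332000)) (b (a (l 17958936) (b (l 17817032) (l 17431320))) (b (a (l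 17481200) (l 16865008)) (b (a (l 17191368) (l 16786280)) (a (l 16989288) (b (l 16771568) (l 16763016))))))) (b (a (b (l 18451560) (l 17907288)) (b (l 18085600) (a (l 17396624) (l 16957928)))) (b (a (b (l 17244904) (l 16849424)) (a (b (l 16879816) (l 16831392)) (b (l 16864464) (l 16821968)))) (b (a (a (l 16807264) (b (l 16809232) (l 16791224))) (a (b (l 16802456) (l 6)) (l 6))) (a (b (a (l 16779048) (l 16797664)) (a (b (l 16768048) (l 16762008)) (l 6))) (l 6))))))))), by decide +kernel⟩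

theorem c_pp_102_a : CertN 536870912 536870912 0 536870912 67108864 67108864 3 false true true .npp 1 0 2
    ndN3q1 ndN1q2a pcN0 cut_pp_102_a Ext.none :=
  certNK0 (fam := false) (s1 := true) (s2 := true) (a := 1) (b := 0) (c := 2) (cn := .npp) (n1 := ndN3q1) (n2 := ndN1q2a) (pc := pcN0) (cut := cut_pp_102_a) (xt := Ext.none) (P1 := 536870912) (W1 := 536870912) (P2 := 0) (W2 := 536870912) (P3 := 67108864) (W3 := 67108864) (N0 := 3)
    rfl rfl rfl k0_pp_102_a

noncomputable def cut_pp_102_b : Cut := Cut.of [[⟨0, 1, 0, 67108864⟩, ⟨1, 0, 0, 67108864⟩, ⟨2, 1, 0, 67108864⟩]]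

noncomputable def f_pp_102_b : ℕ → ℕ → ℕ → ℕ → Bool := onCell 536870912 536870912 1239849684 370763052 67108864 67108864
    (rowNK 3 0 false true true .npp 1 0 2 (qsf 536870912 536870912 1239849684 370763052 0) ndN3q1 ndN1q2b pcN0 cut_pp_102_b Ext.none)

def k0_pp_102_b : ∃ t, chk3 f_pp_102_b t 1 1 1 = true :=
  ⟨(a (b (b (l 18782728) (l 18691640)) (l 2)) (b (a (l 19074848) (b (a (l 19209728) (b (l 19253304) (l 19394944))) (l 19329056))) (a (l 18852848) (l 19122576)))), by decide +kernel⟩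

theorem c_pp_102_b : CertN 536870912 536870912 1239849684 370763052 67108864 67108864 3 false true true .npp 1 0 2
    ndN3q1 ndN1q2b pcN0 cut_pp_102_b Ext.none :=
  certNK0 (fam := false) (s1 := true) (s2 := true) (a := 1) (b := 0) (c := 2) (cn := .npp) (n1 := ndN3q1) (n2 := ndN1q2b) (pc := pcN0) (cut := cut_pp_102_b) (xt := Ext.none) (P1 := 536870912) (W1 := 536870912) (P2 := 1239849684) (W2 := 370763052) (P3 := 67108864) (W3 := 67108864) (N0 := 3)
    rfl rfl rfl k0_pp_102_b

noncomputable def f_pp_112_a : ℕ → ℕ → ℕ → ℕ → Bool := onCell 536870912 536870912 0 536870912 67108864 67108864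
    (rowNK 3 2 false true true .dn 1 1 2 (qsf 536870912 536870912 0 536870912 1) ndN3q1 ndN1q2a pcN1 Cut.none Ext.none)

def k0_pp_112_a : ∃ t, chk3 f_pp_112_a t 1 1 1 = true :=
  ⟨(a (b (a (l 18152208) (l 18047840)) (a (l 18134400) (l 18144000))) (l 1)), by decide +kernel⟩

theorem c_pp_112_a : CertN 536870912 536870912 0 536870912 67108864 67108864 3 false true true .dn 1 1 2
    ndN3q1 ndN1q2a pcN1 Cut.none Ext.none :=
  certNK2 (fam := false) (s1 := true) (s2 := true) (a := 1) (b := 1) (c := 2) (cn := .dn) (n1 := ndN3q1) (n2 := ndN1q2a) (pc := pcN1) (cut := Cut.none) (xt := Ext.none) (P1 := 536870912) (W1 := 536870912) (P2 := 0) (W2 := 536870912) (P3 := 67108864) (W3 := 67108864) (N0 := 3)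
    rfl rfl rfl (fun _ => rfl) k0_pp_112_a

noncomputable def f_pp_112_b : ℕ → ℕ → ℕ → ℕ → Bool := onCell 536870912 536870912 1239849684 370763052 67108864 67108864
    (rowNK 3 2 false true true .dn 1 1 2 (qsf 536870912 536870912 1239849684 370763052 1) ndN3q1 ndN1q2b pcN1 Cut.none Ext.none)

def k0_pp_112_b : ∃ t, chk3 f_pp_112_b t 1 1 1 = true :=
  ⟨(a (b (a (l 18523760) (l 18243176)) (l 19295480)) (a (b (l 18220032) (l 18425384)) (a (l 18370640) (a (l 18431640) (l 18485256))))), by decide +kernel⟩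

theorem c_pp_112_b : CertN 536870912 536870912 1239849684 370763052 67108864 67108864 3 false true true .dn 1 1 2
    ndN3q1 ndN1q2b pcN1 Cut.none Ext.none :=
  certNK2 (fam := false) (s1 := true) (s2 := true) (a := 1) (b := 1) (c := 2) (cn := .dn) (n1 := ndN3q1) (n2 := ndN1q2b) (pc := pcN1) (cut := Cut.none) (xt := Ext.none) (P1 := 536870912) (W1 := 536870912) (P2 := 1239849684) (W2 := 370763052) (P3 := 67108864) (W3 := 67108864) (N0 := 3)
    rfl rfl rfl (fun _ => rfl) k0_pp_112_b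

noncomputable def f_pp_113 : ℕ → ℕ → ℕ → ℕ → Bool := onCell 536870912 536870912 536870912 536870912 67108864 67108864
    (rowNK 3 1 false true true .nn 1 1 3 (qsf 536870912 536870912 1610612736 536870912 1) ndN3q1 ndN1q3 pcN1 Cut.none Ext.none)

def k0_pp_113 : ∃ t, chk3 f_pp_113 t 1 1 1 = true :=
  ⟨(a (b (b (l 1) (l 17800712)) (b (l 382824944071) (b (l 17846592) (b (l 17864536) (l 17853040))))) (b (b (l 18864736) (l 18827104)) (b (b (l 18558624) (l 18198336)) (b (l 17859608) (b (l 17658400) (l 17510992)))))), by decide +kernel⟩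

theorem c_pp_113 : CertN 536870912 536870912 1610612736 536870912 67108864 67108864 3 false true true .nn 1 1 3
    ndN3q1 ndN1q3 pcN1 Cut.none Ext.none :=
  certNK1 (fam := false) (s1 := true) (s2 := true) (a := 1) (b := 1) (c := 3) (cn := .nn) (n1 := ndN3q1) (n2 := ndN1q3) (pc := pcN1) (cut := Cut.none) (xt := Ext.none) (P1 := 536870912) (W1 := 536870912) (P2 := 1610612736) (W2 := 536870912) (P3 := 67108864) (W3 := 67108864) (N0 := 3)
    rfl rfl rfl (fun _ => rfl) k0_pp_113

noncomputable def f_pp_123 : ℕ → ℕ → ℕ → ℕ → Bool := onCell 1073741824 536870912 1610612736 536870912 67108864 67108864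
    (rowNK 3 2 false true true .npn 1 2 3 (qsf 536870912 536870912 1610612736 536870912 2) ndN3q1 ndN1q3 pcN2 Cut.none Ext.none)

def k0_pp_123 : ∃ t, chk3 f_pp_123 t 1 1 1 = true :=
  ⟨(a (b (a (l 17910128) (l 17796776)) (a (l 17383992) (l 17364792))) (b (a (l 17609152) (l 1)) (a (l 17376760) (l 4)))), by decide +kernel⟩

theorem c_pp_123 : CertN 536870912 536870912 1610612736 536870912 67108864 67108864 3 false true true .npn 1 2 3
    ndN3q1 ndN1q3 pcN2 Cut.none Ext.none :=
  certNK2 (fam := false) (s1 := true) (s2 := true) (a := 1) (b := 2) (c := 3) (cn := .npn) (n1 := ndN3q1) (n2 := ndN1q3) (pc := pcN2) (cut := Cut.none) (xt := Ext.none) (P1 := 536870912) (W1 := 536870912) (P2 := 1610612736) (W2 := 536870912) (P3 := 67108864) (W3 := 67108864) (N0 := 3)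
    rfl rfl rfl (fun _ => rfl) k0_pp_123

noncomputable def f_pp_133 : ℕ → ℕ → ℕ → ℕ → Bool := onCell 1610612736 536870912 1610612736 536870912 67108864 67108864
    (rowNK 3 2 false true true .dn 1 3 3 (qsf 536870912 536870912 1610612736 536870912 3) ndN3q1 ndN1q3 pcN3 Cut.none Ext.none)

def k0_pp_133 : ∃ t, chk3 f_pp_133 t 1 1 1 = true :=
  ⟨(a (b (l 1) (l 4)) (l 1)), by decide +kernel⟩

theorem c_pp_133 : CertN 536870912 536870912 1610612736 536870912 67108864 67108864 3 false true true .dn 1 3 3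
    ndN3q1 ndN1q3 pcN3 Cut.none Ext.none :=
  certNK2 (fam := false) (s1 := true) (s2 := true) (a := 1) (b := 3) (c := 3) (cn := .dn) (n1 := ndN3q1) (n2 := ndN1q3) (pc := pcN3) (cut := Cut.none) (xt := Ext.none) (P1 := 536870912) (W1 := 536870912) (P2 := 1610612736) (W2 := 536870912) (P3 := 67108864) (W3 := 67108864) (N0 := 3)
    rfl rfl rfl (fun _ => rfl) k0_pp_133

noncomputable def f_pp_202_a : ℕ → ℕ → ℕ → ℕ → Bool := onCell 1073741824 536870912 0 536870912 67108864 67108864
    (rowNK 3 0 false true true .pp 2 0 2 (qsf 1073741824 536870912 0 536870912 0) ndN3q2 ndN1q2a pcN0 Cut.none Ext.none)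

def k0_pp_202_a : ∃ t, chk3 f_pp_202_a t 1 1 1 = true :=
  ⟨(l 3), by decide +kernel⟩

theorem c_pp_202_a : CertN 1073741824 536870912 0 536870912 67108864 67108864 3 false true true .pp 2 0 2
    ndN3q2 ndN1q2a pcN0 Cut.none Ext.none :=
  certNK0 (fam := false) (s1 := true) (s2 := true) (a := 2) (b := 0) (c := 2) (cn := .pp) (n1 := ndN3q2) (n2 := ndN1q2a) (pc := pcN0) (cut := Cut.none) (xt := Ext.none) (P1 := 1073741824) (W1 := 536870912) (P2 := 0) (W2 := 536870912) (P3 := 67108864) (W3 := 67108864) (N0 := 3)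
    rfl rfl rfl k0_pp_202_a

noncomputable def f_pp_202_b : ℕ → ℕ → ℕ → ℕ → Bool := onCell 1073741824 536870912 1239849684 370763052 67108864 67108864
    (rowNK 3 0 false true true .pp 2 0 2 (qsf 1073741824 536870912 1239849684 370763052 0) ndN3q2 ndN1q2b pcN0 Cut.none Ext.none)

def k0_pp_202_b : ∃ t, chk3 f_pp_202_b t 1 1 1 = true :=
  ⟨(l 3), by decide +kernel⟩

theorem c_pp_202_b : CertN 1073741824 536870912 1239849684 370763052 67108864 67108864 3 false true true .pp 2 0 2
    ndN3q2 ndN1q2b pcN0 Cut.none Ext.none :=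
  certNK0 (fam := false) (s1 := true) (s2 := true) (a := 2) (b := 0) (c := 2) (cn := .pp) (n1 := ndN3q2) (n2 := ndN1q2b) (pc := pcN0) (cut := Cut.none) (xt := Ext.none) (P1 := 1073741824) (W1 := 536870912) (P2 := 1239849684) (W2 := 370763052) (P3 := 67108864) (W3 := 67108864) (N0 := 3)
    rfl rfl rfl k0_pp_202_b

noncomputable def f_pp_203 : ℕ → ℕ → ℕ → ℕ → Bool := onCell 1073741824 536870912 0 536870912 67108864 67108864
    (rowNK 3 1 false true true .up 2 0 3 (qsf 1073741824 536870912 1610612736 536870912 0) ndN3q2 ndN1q3 pcN0 Cut.none Ext.none)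

def k0_pp_203 : ∃ t, chk3 f_pp_203 t 1 1 1 = true :=
  ⟨(l 3), by decide +kernel⟩

theorem c_pp_203 : CertN 1073741824 536870912 1610612736 536870912 67108864 67108864 3 false true true .up 2 0 3
    ndN3q2 ndN1q3 pcN0 Cut.none Ext.none :=
  certNK1 (fam := false) (s1 := true) (s2 := true) (a := 2) (b := 0) (c := 3) (cn := .up) (n1 := ndN3q2) (n2 := ndN1q3) (pc := pcN0) (cut := Cut.none) (xt := Ext.none) (P1 := 1073741824) (W1 := 536870912) (P2 := 1610612736) (W2 := 536870912) (P3 := 67108864) (W3 := 67108864) (N0 := 3)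
    rfl rfl rfl (fun _ => rfl) k0_pp_203

noncomputable def f_pp_213 : ℕ → ℕ → ℕ → ℕ → Bool := onCell 536870912 536870912 1610612736 536870912 67108864 67108864
    (rowNK 3 2 false true true .pnn 2 1 3 (qsf 1073741824 536870912 1610612736 536870912 1) ndN3q2 ndN1q3 pcN1 Cut.none Ext.none)

def k0_pp_213 : ∃ t, chk3 f_pp_213 t 1 1 1 = true :=
  ⟨(a (a (l 3) (b (l 3) (b (l 17646432) (l 17334432)))) (b (a (b (l 1) (l 17921880)) (l 1)) (a (b (l 17790920) (l 17410008)) (b (l 17872096) (l 17374800))))), by decide +kernel⟩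

theorem c_pp_213 : CertN 1073741824 536870912 1610612736 536870912 67108864 67108864 3 false true true .pnn 2 1 3
    ndN3q2 ndN1q3 pcN1 Cut.none Ext.none :=
  certNK2 (fam := false) (s1 := true) (s2 := true) (a := 2) (b := 1) (c := 3) (cn := .pnn) (n1 := ndN3q2) (n2 := ndN1q3) (pc := pcN1) (cut := Cut.none) (xt := Ext.none) (P1 := 1073741824) (W1 := 536870912) (P2 := 1610612736) (W2 := 536870912) (P3 := 67108864) (W3 := 67108864) (N0 := 3)
    rfl rfl rfl (fun _ => rfl) k0_pp_213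

noncomputable def f_pp_303 : ℕ → ℕ → ℕ → ℕ → Bool := onCell 0 1230186008 1610612736 536870912 67108864 67108864
    (rowNK 3 0 false true true .npn 3 0 3 (qsf 0 1230186008 1610612736 536870912 0) ndN3q3 ndN1q3 pcN0 Cut.none Ext.none)

def k0_pp_303 : ∃ t, chk3 f_pp_303 t 1 1 1 = true :=
  ⟨(a (l 3) (l 3)), by decide +kernel⟩

theorem c_pp_303 : CertN 0 1230186008 1610612736 536870912 67108864 67108864 3 false true true .npn 3 0 3
    ndN3q3 ndN1q3 pcN0 Cut.none Ext.none :=
  certNK0 (fam := false) (s1 := true) (s2 := true) (a := 3) (b := 0) (c := 3) (cn := .npn) (n1 := ndN3q3) (n2 := ndN1q3) (pc := pcN0) (cut := Cut.none) (xt := Ext.none) (P1 := 0) (W1 := 1230186008) (P2 := 1610612736) (W2 := 536870912) (P3 := 67108864) (W3 := 67108864) (N0 := 3)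
    rfl rfl rfl k0_pp_303

noncomputable def f_pp_313 : ℕ → ℕ → ℕ → ℕ → Bool := onCell 0 1230186008 1610612736 536870912 67108864 67108864
    (rowNK 3 0 false true true .dn 3 1 3 (qsf 0 1230186008 1610612736 536870912 1) ndN3q3 ndN1q3 pcN1 Cut.none Ext.none)

def k0_pp_313 : ∃ t, chk3 f_pp_313 t 1 1 1 = true :=
  ⟨(a (l 1) (l 3)), by decide +kernel⟩

theorem c_pp_313 : CertN 0 1230186008 1610612736 536870912 67108864 67108864 3 false true true .dn 3 1 3
    ndN3q3 ndN1q3 pcN1 Cut.none Ext.none :=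
  certNK0 (fam := false) (s1 := true) (s2 := true) (a := 3) (b := 1) (c := 3) (cn := .dn) (n1 := ndN3q3) (n2 := ndN1q3) (pc := pcN1) (cut := Cut.none) (xt := Ext.none) (P1 := 0) (W1 := 1230186008) (P2 := 1610612736) (W2 := 536870912) (P3 := 67108864) (W3 := 67108864) (N0 := 3)
    rfl rfl rfl k0_pp_313

noncomputable def f_pm_001 : ℕ → ℕ → ℕ → ℕ → Bool := onCell 0 536870912 536870912 536870912 67108864 67108864
    (rowNK 3 0 false true false .up 0 0 1 (qsf 0 536870912 536870912 536870912 0) ndN3q0 ndN1q1 pcN0 Cut.none Ext.none)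

def k0_pm_001 : ∃ t, chk3 f_pm_001 t 1 1 1 = true :=
  ⟨(l 4), by decide +kernel⟩

theorem c_pm_001 : CertN 0 536870912 536870912 536870912 67108864 67108864 3 false true false .up 0 0 1
    ndN3q0 ndN1q1 pcN0 Cut.none Ext.none :=
  certNK0 (fam := false) (s1 := true) (s2 := false) (a := 0) (b := 0) (c := 1) (cn := .up) (n1 := ndN3q0) (n2 := ndN1q1) (pc := pcN0) (cut := Cut.none) (xt := Ext.none) (P1 := 0) (W1 := 536870912) (P2 := 536870912) (W2 := 536870912) (P3 := 67108864) (W3 := 67108864) (N0 := 3)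
    rfl rfl rfl k0_pm_001

noncomputable def f_pm_011 : ℕ → ℕ → ℕ → ℕ → Bool := onCell 0 536870912 536870912 536870912 67108864 67108864
    (rowNK 3 0 false true false .pnn 0 1 1 (qsf 0 536870912 536870912 536870912 1) ndN3q0 ndN1q1 pcN1 Cut.none Ext.none)

def k0_pm_011 : ∃ t, chk3 f_pm_011 t 1 1 1 = true :=
  ⟨(l 4), by decide +kernel⟩

theorem c_pm_011 : CertN 0 536870912 536870912 536870912 67108864 67108864 3 false true false .pnn 0 1 1
    ndN3q0 ndN1q1 pcN1 Cut.none Ext.none :=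
  certNK0 (fam := false) (s1 := true) (s2 := false) (a := 0) (b := 1) (c := 1) (cn := .pnn) (n1 := ndN3q0) (n2 := ndN1q1) (pc := pcN1) (cut := Cut.none) (xt := Ext.none) (P1 := 0) (W1 := 536870912) (P2 := 536870912) (W2 := 536870912) (P3 := 67108864) (W3 := 67108864) (N0 := 3)
    rfl rfl rfl k0_pm_011

noncomputable def f_pm_012_a : ℕ → ℕ → ℕ → ℕ → Bool := onCell 0 536870912 0 536870912 67108864 67108864
    (rowNK 3 0 false true false .pnp 0 1 2 (qsf 0 536870912 0 536870912 1) ndN3q0 ndN1q2a pcN1 Cut.none Ext.none)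

def k0_pm_012_a : ∃ t, chk3 f_pm_012_a t 1 1 1 = true :=
  ⟨(l 4), by decide +kernel⟩

theorem c_pm_012_a : CertN 0 536870912 0 536870912 67108864 67108864 3 false true false .pnp 0 1 2
    ndN3q0 ndN1q2a pcN1 Cut.none Ext.none :=
  certNK0 (fam := false) (s1 := true) (s2 := false) (a := 0) (b := 1) (c := 2) (cn := .pnp) (n1 := ndN3q0) (n2 := ndN1q2a) (pc := pcN1) (cut := Cut.none) (xt := Ext.none) (P1 := 0) (W1 := 536870912) (P2 := 0) (W2 := 536870912) (P3 := 67108864) (W3 := 67108864) (N0 := 3)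
    rfl rfl rfl k0_pm_012_a

noncomputable def f_pm_012_b : ℕ → ℕ → ℕ → ℕ → Bool := onCell 0 536870912 1239849684 370763052 67108864 67108864
    (rowNK 3 0 false true false .pnp 0 1 2 (qsf 0 536870912 1239849684 370763052 1) ndN3q0 ndN1q2b pcN1 Cut.none Ext.none)

def k0_pm_012_b : ∃ t, chk3 f_pm_012_b t 1 1 1 = true :=
  ⟨(l 4), by decide +kernel⟩

theorem c_pm_012_b : CertN 0 536870912 1239849684 370763052 67108864 67108864 3 false true false .pnp 0 1 2
    ndN3q0 ndN1q2b pcN1 Cut.none Ext.none :=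
  certNK0 (fam := false) (s1 := true) (s2 := false) (a := 0) (b := 1) (c := 2) (cn := .pnp) (n1 := ndN3q0) (n2 := ndN1q2b) (pc := pcN1) (cut := Cut.none) (xt := Ext.none) (P1 := 0) (W1 := 536870912) (P2 := 1239849684) (W2 := 370763052) (P3 := 67108864) (W3 := 67108864) (N0 := 3)
    rfl rfl rfl k0_pm_012_b

noncomputable def f_pm_022_a : ℕ → ℕ → ℕ → ℕ → Bool := onCell 0 536870912 0 536870912 67108864 67108864
    (rowNK 3 0 false true false .pp 0 2 2 (qsf 0 536870912 0 536870912 2) ndN3q0 ndN1q2a pcN2 Cut.none Ext.none)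

def k0_pm_022_a : ∃ t, chk3 f_pm_022_a t 1 1 1 = true :=
  ⟨(l 4), by decide +kernel⟩

theorem c_pm_022_a : CertN 0 536870912 0 536870912 67108864 67108864 3 false true false .pp 0 2 2
    ndN3q0 ndN1q2a pcN2 Cut.none Ext.none :=
  certNK0 (fam := false) (s1 := true) (s2 := false) (a := 0) (b := 2) (c := 2) (cn := .pp) (n1 := ndN3q0) (n2 := ndN1q2a) (pc := pcN2) (cut := Cut.none) (xt := Ext.none) (P1 := 0) (W1 := 536870912) (P2 := 0) (W2 := 536870912) (P3 := 67108864) (W3 := 67108864) (N0 := 3)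
    rfl rfl rfl k0_pm_022_a

noncomputable def f_pm_022_b : ℕ → ℕ → ℕ → ℕ → Bool := onCell 0 536870912 1239849684 370763052 67108864 67108864
    (rowNK 3 0 false true false .pp 0 2 2 (qsf 0 536870912 1239849684 370763052 2) ndN3q0 ndN1q2b pcN2 Cut.none Ext.none)

def k0_pm_022_b : ∃ t, chk3 f_pm_022_b t 1 1 1 = true :=
  ⟨(l 4), by decide +kernel⟩

theorem c_pm_022_b : CertN 0 536870912 1239849684 370763052 67108864 67108864 3 false true false .pp 0 2 2
    ndN3q0 ndN1q2b pcN2 Cut.none Ext.none :=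
  certNK0 (fam := false) (s1 := true) (s2 := false) (a := 0) (b := 2) (c := 2) (cn := .pp) (n1 := ndN3q0) (n2 := ndN1q2b) (pc := pcN2) (cut := Cut.none) (xt := Ext.none) (P1 := 0) (W1 := 536870912) (P2 := 1239849684) (W2 := 370763052) (P3 := 67108864) (W3 := 67108864) (N0 := 3)
    rfl rfl rfl k0_pm_022_b

noncomputable def f_pm_023 : ℕ → ℕ → ℕ → ℕ → Bool := onCell 0 536870912 1610612736 536870912 67108864 67108864
    (rowNK 3 0 false true false .up 0 2 3 (qsf 0 536870912 1610612736 536870912 2) ndN3q0 ndN1q3 pcN2 Cut.none Ext.none)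

def k0_pm_023 : ∃ t, chk3 f_pm_023 t 1 1 1 = true :=
  ⟨(l 4), by decide +kernel⟩

theorem c_pm_023 : CertN 0 536870912 1610612736 536870912 67108864 67108864 3 false true false .up 0 2 3
    ndN3q0 ndN1q3 pcN2 Cut.none Ext.none :=
  certNK0 (fam := false) (s1 := true) (s2 := false) (a := 0) (b := 2) (c := 3) (cn := .up) (n1 := ndN3q0) (n2 := ndN1q3) (pc := pcN2) (cut := Cut.none) (xt := Ext.none) (P1 := 0) (W1 := 536870912) (P2 := 1610612736) (W2 := 536870912) (P3 := 67108864) (W3 := 67108864) (N0 := 3)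
    rfl rfl rfl k0_pm_023

noncomputable def f_pm_033 : ℕ → ℕ → ℕ → ℕ → Bool := onCell 0 536870912 1610612736 536870912 67108864 67108864
    (rowNK 3 0 false true false .pnn 0 3 3 (qsf 0 536870912 1610612736 536870912 3) ndN3q0 ndN1q3 pcN3 Cut.none Ext.none)

def k0_pm_033 : ∃ t, chk3 f_pm_033 t 1 1 1 = true :=
  ⟨(l 4), by decide +kernel⟩

theorem c_pm_033 : CertN 0 536870912 1610612736 536870912 67108864 67108864 3 false true false .pnn 0 3 3
    ndN3q0 ndN1q3 pcN3 Cut.none Ext.none :=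
  certNK0 (fam := false) (s1 := true) (s2 := false) (a := 0) (b := 3) (c := 3) (cn := .pnn) (n1 := ndN3q0) (n2 := ndN1q3) (pc := pcN3) (cut := Cut.none) (xt := Ext.none) (P1 := 0) (W1 := 536870912) (P2 := 1610612736) (W2 := 536870912) (P3 := 67108864) (W3 := 67108864) (N0 := 3)
    rfl rfl rfl k0_pm_033

noncomputable def f_pm_101 : ℕ → ℕ → ℕ → ℕ → Bool := onCell 536870912 536870912 536870912 536870912 67108864 67108864
    (rowNK 3 0 false true false .npn 1 0 1 (qsf 536870912 536870912 536870912 536870912 0) ndN3q1 ndN1q1 pcN0 Cut.none Ext.none)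

def k0_pm_101 : ∃ t, chk3 f_pm_101 t 1 1 1 = true :=
  ⟨(l 4), by decide +kernel⟩

theorem c_pm_101 : CertN 536870912 536870912 536870912 536870912 67108864 67108864 3 false true false .npn 1 0 1
    ndN3q1 ndN1q1 pcN0 Cut.none Ext.none :=
  certNK0 (fam := false) (s1 := true) (s2 := false) (a := 1) (b := 0) (c := 1) (cn := .npn) (n1 := ndN3q1) (n2 := ndN1q1) (pc := pcN0) (cut := Cut.none) (xt := Ext.none) (P1 := 536870912) (W1 := 536870912) (P2 := 536870912) (W2 := 536870912) (P3 := 67108864) (W3 := 67108864) (N0 := 3)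
    rfl rfl rfl k0_pm_101

noncomputable def f_pm_102_a : ℕ → ℕ → ℕ → ℕ → Bool := onCell 536870912 536870912 0 536870912 67108864 67108864
    (rowNK 3 0 false true false .npp 1 0 2 (qsf 536870912 536870912 0 536870912 0) ndN3q1 ndN1q2a pcN0 Cut.none Ext.none)

def k0_pm_102_a : ∃ t, chk3 f_pm_102_a t 1 1 1 = true :=
  ⟨(l 4), by decide +kernel⟩

theorem c_pm_102_a : CertN 536870912 536870912 0 536870912 67108864 67108864 3 false true false .npp 1 0 2
    ndN3q1 ndN1q2a pcN0 Cut.none Ext.none :=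
  certNK0 (fam := false) (s1 := true) (s2 := false) (a := 1) (b := 0) (c := 2) (cn := .npp) (n1 := ndN3q1) (n2 := ndN1q2a) (pc := pcN0) (cut := Cut.none) (xt := Ext.none) (P1 := 536870912) (W1 := 536870912) (P2 := 0) (W2 := 536870912) (P3 := 67108864) (W3 := 67108864) (N0 := 3)
    rfl rfl rfl k0_pm_102_a

noncomputable def f_pm_102_b : ℕ → ℕ → ℕ → ℕ → Bool := onCell 536870912 536870912 1239849684 370763052 67108864 67108864
    (rowNK 3 0 false true false .npp 1 0 2 (qsf 536870912 536870912 1239849684 370763052 0) ndN3q1 ndN1q2b pcN0 Cut.none Ext.none)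

def k0_pm_102_b : ∃ t, chk3 f_pm_102_b t 1 1 1 = true :=
  ⟨(l 4), by decide +kernel⟩

theorem c_pm_102_b : CertN 536870912 536870912 1239849684 370763052 67108864 67108864 3 false true false .npp 1 0 2
    ndN3q1 ndN1q2b pcN0 Cut.none Ext.none :=
  certNK0 (fam := false) (s1 := true) (s2 := false) (a := 1) (b := 0) (c := 2) (cn := .npp) (n1 := ndN3q1) (n2 := ndN1q2b) (pc := pcN0) (cut := Cut.none) (xt := Ext.none) (P1 := 536870912) (W1 := 536870912) (P2 := 1239849684) (W2 := 370763052) (P3 := 67108864) (W3 := 67108864) (N0 := 3)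
    rfl rfl rfl k0_pm_102_b

noncomputable def f_pm_112_a : ℕ → ℕ → ℕ → ℕ → Bool := onCell 536870912 536870912 0 536870912 67108864 67108864
    (rowNK 3 0 false true false .dn 1 1 2 (qsf 536870912 536870912 0 536870912 1) ndN3q1 ndN1q2a pcN1 Cut.none Ext.none)

def k0_pm_112_a : ∃ t, chk3 f_pm_112_a t 1 1 1 = true :=
  ⟨(l 4), by decide +kernel⟩

theorem c_pm_112_a : CertN 536870912 536870912 0 536870912 67108864 67108864 3 false true false .dn 1 1 2
    ndN3q1 ndN1q2a pcN1 Cut.none Ext.none :=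
  certNK0 (fam := false) (s1 := true) (s2 := false) (a := 1) (b := 1) (c := 2) (cn := .dn) (n1 := ndN3q1) (n2 := ndN1q2a) (pc := pcN1) (cut := Cut.none) (xt := Ext.none) (P1 := 536870912) (W1 := 536870912) (P2 := 0) (W2 := 536870912) (P3 := 67108864) (W3 := 67108864) (N0 := 3)
    rfl rfl rfl k0_pm_112_a

noncomputable def f_pm_112_b : ℕ → ℕ → ℕ → ℕ → Bool := onCell 536870912 536870912 1239849684 370763052 67108864 67108864
    (rowNK 3 0 false true false .dn 1 1 2 (qsf 536870912 536870912 1239849684 370763052 1) ndN3q1 ndN1q2b pcN1 Cut.none Ext.none)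

def k0_pm_112_b : ∃ t, chk3 f_pm_112_b t 1 1 1 = true :=
  ⟨(l 4), by decide +kernel⟩

theorem c_pm_112_b : CertN 536870912 536870912 1239849684 370763052 67108864 67108864 3 false true false .dn 1 1 2
    ndN3q1 ndN1q2b pcN1 Cut.none Ext.none :=
  certNK0 (fam := false) (s1 := true) (s2 := false) (a := 1) (b := 1) (c := 2) (cn := .dn) (n1 := ndN3q1) (n2 := ndN1q2b) (pc := pcN1) (cut := Cut.none) (xt := Ext.none) (P1 := 536870912) (W1 := 536870912) (P2 := 1239849684) (W2 := 370763052) (P3 := 67108864) (W3 := 67108864) (N0 := 3)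
    rfl rfl rfl k0_pm_112_b

noncomputable def f_pm_113 : ℕ → ℕ → ℕ → ℕ → Bool := onCell 536870912 536870912 536870912 536870912 67108864 67108864
    (rowNK 3 1 false true false .nn 1 1 3 (qsf 536870912 536870912 1610612736 536870912 1) ndN3q1 ndN1q3 pcN1 Cut.none Ext.none)

def k0_pm_113 : ∃ t, chk3 f_pm_113 t 1 1 1 = true :=
  ⟨(a (l 4) (b (l 4) (b (l 4) (b (l 4) (b (l 4) (l 17497920)))))), by decide +kernel⟩

theorem c_pm_113 : CertN 536870912 536870912 1610612736 536870912 67108864 67108864 3 false true false .nn 1 1 3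
    ndN3q1 ndN1q3 pcN1 Cut.none Ext.none :=
  certNK1 (fam := false) (s1 := true) (s2 := false) (a := 1) (b := 1) (c := 3) (cn := .nn) (n1 := ndN3q1) (n2 := ndN1q3) (pc := pcN1) (cut := Cut.none) (xt := Ext.none) (P1 := 536870912) (W1 := 536870912) (P2 := 1610612736) (W2 := 536870912) (P3 := 67108864) (W3 := 67108864) (N0 := 3)
    rfl rfl rfl (fun _ => rfl) k0_pm_113

noncomputable def f_pm_123 : ℕ → ℕ → ℕ → ℕ → Bool := onCell 1073741824 536870912 1610612736 536870912 67108864 67108864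
    (rowNK 3 2 false true false .npn 1 2 3 (qsf 536870912 536870912 1610612736 536870912 2) ndN3q1 ndN1q3 pcN2 Cut.none Ext.none)

def k0_pm_123 : ∃ t, chk3 f_pm_123 t 1 1 1 = true :=
  ⟨(a (b (l 4) (a (l 17411944) (l 4))) (l 4)), by decide +kernel⟩

theorem c_pm_123 : CertN 536870912 536870912 1610612736 536870912 67108864 67108864 3 false true false .npn 1 2 3
    ndN3q1 ndN1q3 pcN2 Cut.none Ext.none :=
  certNK2 (fam := false) (s1 := true) (s2 := false) (a := 1) (b := 2) (c := 3) (cn := .npn) (n1 := ndN3q1) (n2 := ndN1q3) (pc := pcN2) (cut := Cut.none) (xt := Ext.none) (P1 := 536870912) (W1 := 536870912) (P2 := 1610612736) (W2 := 536870912) (P3 := 67108864) (W3 := 67108864) (N0 := 3)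
    rfl rfl rfl (fun _ => rfl) k0_pm_123

noncomputable def f_pm_133 : ℕ → ℕ → ℕ → ℕ → Bool := onCell 536870912 536870912 1610612736 536870912 67108864 67108864
    (rowNK 3 0 false true false .dn 1 3 3 (qsf 536870912 536870912 1610612736 536870912 3) ndN3q1 ndN1q3 pcN3 Cut.none Ext.none)

def k0_pm_133 : ∃ t, chk3 f_pm_133 t 1 1 1 = true :=
  ⟨(a (l 4) (l 1)), by decide +kernel⟩

theorem c_pm_133 : CertN 536870912 536870912 1610612736 536870912 67108864 67108864 3 false true false .dn 1 3 3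
    ndN3q1 ndN1q3 pcN3 Cut.none Ext.none :=
  certNK0 (fam := false) (s1 := true) (s2 := false) (a := 1) (b := 3) (c := 3) (cn := .dn) (n1 := ndN3q1) (n2 := ndN1q3) (pc := pcN3) (cut := Cut.none) (xt := Ext.none) (P1 := 536870912) (W1 := 536870912) (P2 := 1610612736) (W2 := 536870912) (P3 := 67108864) (W3 := 67108864) (N0 := 3)
    rfl rfl rfl k0_pm_133

noncomputable def f_pm_202_a : ℕ → ℕ → ℕ → ℕ → Bool := onCell 0 536870912 0 536870912 67108864 67108864
    (rowNK 3 2 false true false .pp 2 0 2 (qsf 1073741824 536870912 0 536870912 0) ndN3q2 ndN1q2a pcN0 Cut.none Ext.none)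

def k0_pm_202_a : ∃ t, chk3 f_pm_202_a t 1 1 1 = true :=
  ⟨(a (a (b (a (l 18294696) (l 18071256)) (a (b (l 18760048) (l 19144480)) (b (l 18672264) (l 19044552)))) (b (a (l 18250024) (l 1)) (a (l 121908042967) (l 1)))) (l 1)), by decide +kernel⟩

theorem c_pm_202_a : CertN 1073741824 536870912 0 536870912 67108864 67108864 3 false true false .pp 2 0 2
    ndN3q2 ndN1q2a pcN0 Cut.none Ext.none :=
  certNK2 (fam := false) (s1 := true) (s2 := false) (a := 2) (b := 0) (c := 2) (cn := .pp) (n1 := ndN3q2) (n2 := ndN1q2a) (pc := pcN0) (cut := Cut.none) (xt := Ext.none) (P1 := 1073741824) (W1 := 536870912) (P2 := 0) (W2 := 536870912) (P3 := 67108864) (W3 := 67108864) (N0 := 3)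
    rfl rfl rfl (fun _ => rfl) k0_pm_202_a

noncomputable def f_pm_202_b : ℕ → ℕ → ℕ → ℕ → Bool := onCell 0 536870912 1239849684 370763052 67108864 67108864
    (rowNK 3 2 false true false .pp 2 0 2 (qsf 1073741824 536870912 1239849684 370763052 0) ndN3q2 ndN1q2b pcN0 Cut.none Ext.none)

def k0_pm_202_b : ∃ t, chk3 f_pm_202_b t 1 1 1 = true :=
  ⟨(a (a (b (a (l 18098232) (l 18439008)) (a (b (l 18767616) (l 18754416)) (b (l 18559600) (l 18649176)))) (a (b (b (l 18131840) (l 18169216)) (l 18486528)) (b (l 18376336) (l 18116376)))) (a (b (l 239482049143) (l 18033296)) (b (l 1) (l 17988528)))), by decide +kernel⟩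

theorem c_pm_202_b : CertN 1073741824 536870912 1239849684 370763052 67108864 67108864 3 false true false .pp 2 0 2
    ndN3q2 ndN1q2b pcN0 Cut.none Ext.none :=
  certNK2 (fam := false) (s1 := true) (s2 := false) (a := 2) (b := 0) (c := 2) (cn := .pp) (n1 := ndN3q2) (n2 := ndN1q2b) (pc := pcN0) (cut := Cut.none) (xt := Ext.none) (P1 := 1073741824) (W1 := 536870912) (P2 := 1239849684) (W2 := 370763052) (P3 := 67108864) (W3 := 67108864) (N0 := 3)
    rfl rfl rfl (fun _ => rfl) k0_pm_202_b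

noncomputable def f_pm_203 : ℕ → ℕ → ℕ → ℕ → Bool := onCell 0 536870912 1610612736 536870912 67108864 67108864
    (rowNK 3 2 false true false .up 2 0 3 (qsf 1073741824 536870912 1610612736 536870912 0) ndN3q2 ndN1q3 pcN0 Cut.none Ext.none)

def k0_pm_203 : ∃ t, chk3 f_pm_203 t 1 1 1 = true :=
  ⟨(a (b (a (b (l 188075932407) (l 3)) (b (l 18100600) (l 188075439143))) (a (l 2) (l 3))) (b (a (b (l 18101272) (l 17936008)) (b (l 18013088) (l 17780360))) (b (a (l 3) (l 17506520)) (l 3)))), by decide +kernel⟩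

theorem c_pm_203 : CertN 1073741824 536870912 1610612736 536870912 67108864 67108864 3 false true false .up 2 0 3
    ndN3q2 ndN1q3 pcN0 Cut.none Ext.none :=
  certNK2 (fam := false) (s1 := true) (s2 := false) (a := 2) (b := 0) (c := 3) (cn := .up) (n1 := ndN3q2) (n2 := ndN1q3) (pc := pcN0) (cut := Cut.none) (xt := Ext.none) (P1 := 1073741824) (W1 := 536870912) (P2 := 1610612736) (W2 := 536870912) (P3 := 67108864) (W3 := 67108864) (N0 := 3)
    rfl rfl rfl (fun _ => rfl) k0_pm_203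

noncomputable def f_pm_213 : ℕ → ℕ → ℕ → ℕ → Bool := onCell 536870912 536870912 1610612736 536870912 67108864 67108864
    (rowNK 3 2 false true false .pnn 2 1 3 (qsf 1073741824 536870912 1610612736 536870912 1) ndN3q2 ndN1q3 pcN1 Cut.none Ext.none)

def k0_pm_213 : ∃ t, chk3 f_pm_213 t 1 1 1 = true :=
  ⟨(a (b (a (b (l 18892672) (l 18234184)) (b (l 19102616) (l 18303416))) (a (b (l 17680904) (l 17562200)) (b (l 17690464) (l 17275680)))) (b (a (b (l 1) (l 18232056)) (l 1)) (a (l 17536464) (b (l 17226688) (l 16950312))))), by decide +kernel⟩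

theorem c_pm_213 : CertN 1073741824 536870912 1610612736 536870912 67108864 67108864 3 false true false .pnn 2 1 3
    ndN3q2 ndN1q3 pcN1 Cut.none Ext.none :=
  certNK2 (fam := false) (s1 := true) (s2 := false) (a := 2) (b := 1) (c := 3) (cn := .pnn) (n1 := ndN3q2) (n2 := ndN1q3) (pc := pcN1) (cut := Cut.none) (xt := Ext.none) (P1 := 1073741824) (W1 := 536870912) (P2 := 1610612736) (W2 := 536870912) (P3 := 67108864) (W3 := 67108864) (N0 := 3)
    rfl rfl rfl (fun _ => rfl) k0_pm_213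

noncomputable def f_pm_303 : ℕ → ℕ → ℕ → ℕ → Bool := onCell 0 1230186008 1610612736 536870912 67108864 67108864
    (rowNK 3 0 false true false .npn 3 0 3 (qsf 0 1230186008 1610612736 536870912 0) ndN3q3 ndN1q3 pcN0 Cut.none Ext.none)

def k0_pm_303 : ∃ t, chk3 f_pm_303 t 1 1 1 = true :=
  ⟨(a (l 3) (a (l 3) (b (l 3) (l 3)))), by decide +kernel⟩

theorem c_pm_303 : CertN 0 1230186008 1610612736 536870912 67108864 67108864 3 false true false .npn 3 0 3
    ndN3q3 ndN1q3 pcN0 Cut.none Ext.none :=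
  certNK0 (fam := false) (s1 := true) (s2 := false) (a := 3) (b := 0) (c := 3) (cn := .npn) (n1 := ndN3q3) (n2 := ndN1q3) (pc := pcN0) (cut := Cut.none) (xt := Ext.none) (P1 := 0) (W1 := 1230186008) (P2 := 1610612736) (W2 := 536870912) (P3 := 67108864) (W3 := 67108864) (N0 := 3)
    rfl rfl rfl k0_pm_303

noncomputable def f_pm_313 : ℕ → ℕ → ℕ → ℕ → Bool := onCell 0 1230186008 1610612736 536870912 67108864 67108864
    (rowNK 3 0 false true false .dn 3 1 3 (qsf 0 1230186008 1610612736 536870912 1) ndN3q3 ndN1q3 pcN1 Cut.none Ext.none)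

def k0_pm_313 : ∃ t, chk3 f_pm_313 t 1 1 1 = true :=
  ⟨(a (l 1) (b (l 1) (l 3))), by decide +kernel⟩

theorem c_pm_313 : CertN 0 1230186008 1610612736 536870912 67108864 67108864 3 false true false .dn 3 1 3
    ndN3q3 ndN1q3 pcN1 Cut.none Ext.none :=
  certNK0 (fam := false) (s1 := true) (s2 := false) (a := 3) (b := 1) (c := 3) (cn := .dn) (n1 := ndN3q3) (n2 := ndN1q3) (pc := pcN1) (cut := Cut.none) (xt := Ext.none) (P1 := 0) (W1 := 1230186008) (P2 := 1610612736) (W2 := 536870912) (P3 := 67108864) (W3 := 67108864) (N0 := 3)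
    rfl rfl rfl k0_pm_313

noncomputable def f_mm_001 : ℕ → ℕ → ℕ → ℕ → Bool := onCell 0 536870912 536870912 536870912 67108864 67108864
    (rowNK 3 0 false false false .up 0 0 1 (qsf 0 536870912 536870912 536870912 0) ndN3q0 ndN1q1 pcN0 Cut.none Ext.none)

def k0_mm_001 : ∃ t, chk3 f_mm_001 t 1 1 1 = true :=
  ⟨(l 3), by decide +kernel⟩

theorem c_mm_001 : CertN 0 536870912 536870912 536870912 67108864 67108864 3 false false false .up 0 0 1
    ndN3q0 ndN1q1 pcN0 Cut.none Ext.none :=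
  certNK0 (fam := false) (s1 := false) (s2 := false) (a := 0) (b := 0) (c := 1) (cn := .up) (n1 := ndN3q0) (n2 := ndN1q1) (pc := pcN0) (cut := Cut.none) (xt := Ext.none) (P1 := 0) (W1 := 536870912) (P2 := 536870912) (W2 := 536870912) (P3 := 67108864) (W3 := 67108864) (N0 := 3)
    rfl rfl rfl k0_mm_001

noncomputable def f_mm_011 : ℕ → ℕ → ℕ → ℕ → Bool := onCell 0 536870912 536870912 536870912 67108864 67108864
    (rowNK 3 0 false false false .pnn 0 1 1 (qsf 0 536870912 536870912 536870912 1) ndN3q0 ndN1q1 pcN1 Cut.none Ext.none)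

def k0_mm_011 : ∃ t, chk3 f_mm_011 t 1 1 1 = true :=
  ⟨(l 3), by decide +kernel⟩

theorem c_mm_011 : CertN 0 536870912 536870912 536870912 67108864 67108864 3 false false false .pnn 0 1 1
    ndN3q0 ndN1q1 pcN1 Cut.none Ext.none :=
  certNK0 (fam := false) (s1 := false) (s2 := false) (a := 0) (b := 1) (c := 1) (cn := .pnn) (n1 := ndN3q0) (n2 := ndN1q1) (pc := pcN1) (cut := Cut.none) (xt := Ext.none) (P1 := 0) (W1 := 536870912) (P2 := 536870912) (W2 := 536870912) (P3 := 67108864) (W3 := 67108864) (N0 := 3)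
    rfl rfl rfl k0_mm_011

noncomputable def f_mm_012_a : ℕ → ℕ → ℕ → ℕ → Bool := onCell 0 536870912 0 536870912 67108864 67108864
    (rowNK 3 0 false false false .pnp 0 1 2 (qsf 0 536870912 0 536870912 1) ndN3q0 ndN1q2a pcN1 Cut.none Ext.none)

def k0_mm_012_a : ∃ t, chk3 f_mm_012_a t 1 1 1 = true :=
  ⟨(l 5), by decide +kernel⟩

theorem c_mm_012_a : CertN 0 536870912 0 536870912 67108864 67108864 3 false false false .pnp 0 1 2
    ndN3q0 ndN1q2a pcN1 Cut.none Ext.none :=
  certNK0 (fam := false) (s1 := false) (s2 := false) (a := 0) (b := 1) (c := 2) (cn := .pnp) (n1 := ndN3q0) (n2 := ndN1q2a) (pc := pcN1) (cut := Cut.none) (xt := Ext.none) (P1 := 0) (W1 := 536870912) (P2 := 0) (W2 := 536870912) (P3 := 67108864) (W3 := 67108864) (N0 := 3)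
    rfl rfl rfl k0_mm_012_a

noncomputable def f_mm_012_b : ℕ → ℕ → ℕ → ℕ → Bool := onCell 0 536870912 1239849684 370763052 67108864 67108864
    (rowNK 3 0 false false false .pnp 0 1 2 (qsf 0 536870912 1239849684 370763052 1) ndN3q0 ndN1q2b pcN1 Cut.none Ext.none)

def k0_mm_012_b : ∃ t, chk3 f_mm_012_b t 1 1 1 = true :=
  ⟨(l 5), by decide +kernel⟩

theorem c_mm_012_b : CertN 0 536870912 1239849684 370763052 67108864 67108864 3 false false false .pnp 0 1 2
    ndN3q0 ndN1q2b pcN1 Cut.none Ext.none :=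
  certNK0 (fam := false) (s1 := false) (s2 := false) (a := 0) (b := 1) (c := 2) (cn := .pnp) (n1 := ndN3q0) (n2 := ndN1q2b) (pc := pcN1) (cut := Cut.none) (xt := Ext.none) (P1 := 0) (W1 := 536870912) (P2 := 1239849684) (W2 := 370763052) (P3 := 67108864) (W3 := 67108864) (N0 := 3)
    rfl rfl rfl k0_mm_012_b

noncomputable def f_mm_022_a : ℕ → ℕ → ℕ → ℕ → Bool := onCell 0 536870912 0 536870912 67108864 67108864
    (rowNK 3 0 false false false .pp 0 2 2 (qsf 0 536870912 0 536870912 2) ndN3q0 ndN1q2a pcN2 Cut.none Ext.none)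

def k0_mm_022_a : ∃ t, chk3 f_mm_022_a t 1 1 1 = true :=
  ⟨(l 5), by decide +kernel⟩

theorem c_mm_022_a : CertN 0 536870912 0 536870912 67108864 67108864 3 false false false .pp 0 2 2
    ndN3q0 ndN1q2a pcN2 Cut.none Ext.none :=
  certNK0 (fam := false) (s1 := false) (s2 := false) (a := 0) (b := 2) (c := 2) (cn := .pp) (n1 := ndN3q0) (n2 := ndN1q2a) (pc := pcN2) (cut := Cut.none) (xt := Ext.none) (P1 := 0) (W1 := 536870912) (P2 := 0) (W2 := 536870912) (P3 := 67108864) (W3 := 67108864) (N0 := 3)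
    rfl rfl rfl k0_mm_022_a

noncomputable def f_mm_022_b : ℕ → ℕ → ℕ → ℕ → Bool := onCell 0 536870912 1239849684 370763052 67108864 67108864
    (rowNK 3 0 false false false .pp 0 2 2 (qsf 0 536870912 1239849684 370763052 2) ndN3q0 ndN1q2b pcN2 Cut.none Ext.none)

def k0_mm_022_b : ∃ t, chk3 f_mm_022_b t 1 1 1 = true :=
  ⟨(l 5), by decide +kernel⟩

theorem c_mm_022_b : CertN 0 536870912 1239849684 370763052 67108864 67108864 3 false false false .pp 0 2 2
    ndN3q0 ndN1q2b pcN2 Cut.none Ext.none :=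
  certNK0 (fam := false) (s1 := false) (s2 := false) (a := 0) (b := 2) (c := 2) (cn := .pp) (n1 := ndN3q0) (n2 := ndN1q2b) (pc := pcN2) (cut := Cut.none) (xt := Ext.none) (P1 := 0) (W1 := 536870912) (P2 := 1239849684) (W2 := 370763052) (P3 := 67108864) (W3 := 67108864) (N0 := 3)
    rfl rfl rfl k0_mm_022_b

noncomputable def f_mm_023 : ℕ → ℕ → ℕ → ℕ → Bool := onCell 0 536870912 1610612736 536870912 67108864 67108864
    (rowNK 3 0 false false false .up 0 2 3 (qsf 0 536870912 1610612736 536870912 2) ndN3q0 ndN1q3 pcN2 Cut.none Ext.none)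

def k0_mm_023 : ∃ t, chk3 f_mm_023 t 1 1 1 = true :=
  ⟨(l 5), by decide +kernel⟩

theorem c_mm_023 : CertN 0 536870912 1610612736 536870912 67108864 67108864 3 false false false .up 0 2 3
    ndN3q0 ndN1q3 pcN2 Cut.none Ext.none :=
  certNK0 (fam := false) (s1 := false) (s2 := false) (a := 0) (b := 2) (c := 3) (cn := .up) (n1 := ndN3q0) (n2 := ndN1q3) (pc := pcN2) (cut := Cut.none) (xt := Ext.none) (P1 := 0) (W1 := 536870912) (P2 := 1610612736) (W2 := 536870912) (P3 := 67108864) (W3 := 67108864) (N0 := 3)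
    rfl rfl rfl k0_mm_023

noncomputable def f_mm_033 : ℕ → ℕ → ℕ → ℕ → Bool := onCell 0 536870912 1610612736 536870912 67108864 67108864
    (rowNK 3 0 false false false .pnn 0 3 3 (qsf 0 536870912 1610612736 536870912 3) ndN3q0 ndN1q3 pcN3 Cut.none Ext.none)

def k0_mm_033 : ∃ t, chk3 f_mm_033 t 1 1 1 = true :=
  ⟨(l 5), by decide +kernel⟩

theorem c_mm_033 : CertN 0 536870912 1610612736 536870912 67108864 67108864 3 false false false .pnn 0 3 3
    ndN3q0 ndN1q3 pcN3 Cut.none Ext.none :=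
  certNK0 (fam := false) (s1 := false) (s2 := false) (a := 0) (b := 3) (c := 3) (cn := .pnn) (n1 := ndN3q0) (n2 := ndN1q3) (pc := pcN3) (cut := Cut.none) (xt := Ext.none) (P1 := 0) (W1 := 536870912) (P2 := 1610612736) (W2 := 536870912) (P3 := 67108864) (W3 := 67108864) (N0 := 3)
    rfl rfl rfl k0_mm_033

noncomputable def f_mm_101 : ℕ → ℕ → ℕ → ℕ → Bool := onCell 536870912 536870912 536870912 536870912 67108864 67108864
    (rowNK 3 0 false false false .npn 1 0 1 (qsf 536870912 536870912 536870912 536870912 0) ndN3q1 ndN1q1 pcN0 Cut.none Ext.none)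

def k0_mm_101 : ∃ t, chk3 f_mm_101 t 1 1 1 = true :=
  ⟨(l 3), by decide +kernel⟩

theorem c_mm_101 : CertN 536870912 536870912 536870912 536870912 67108864 67108864 3 false false false .npn 1 0 1
    ndN3q1 ndN1q1 pcN0 Cut.none Ext.none :=
  certNK0 (fam := false) (s1 := false) (s2 := false) (a := 1) (b := 0) (c := 1) (cn := .npn) (n1 := ndN3q1) (n2 := ndN1q1) (pc := pcN0) (cut := Cut.none) (xt := Ext.none) (P1 := 536870912) (W1 := 536870912) (P2 := 536870912) (W2 := 536870912) (P3 := 67108864) (W3 := 67108864) (N0 := 3)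
    rfl rfl rfl k0_mm_101

noncomputable def f_mm_102_a : ℕ → ℕ → ℕ → ℕ → Bool := onCell 536870912 536870912 0 536870912 67108864 67108864
    (rowNK 3 0 false false false .npp 1 0 2 (qsf 536870912 536870912 0 536870912 0) ndN3q1 ndN1q2a pcN0 Cut.none Ext.none)

def k0_mm_102_a : ∃ t, chk3 f_mm_102_a t 1 1 1 = true :=
  ⟨(l 5), by decide +kernel⟩

theorem c_mm_102_a : CertN 536870912 536870912 0 536870912 67108864 67108864 3 false false false .npp 1 0 2
    ndN3q1 ndN1q2a pcN0 Cut.none Ext.none :=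
  certNK0 (fam := false) (s1 := false) (s2 := false) (a := 1) (b := 0) (c := 2) (cn := .npp) (n1 := ndN3q1) (n2 := ndN1q2a) (pc := pcN0) (cut := Cut.none) (xt := Ext.none) (P1 := 536870912) (W1 := 536870912) (P2 := 0) (W2 := 536870912) (P3 := 67108864) (W3 := 67108864) (N0 := 3)
    rfl rfl rfl k0_mm_102_a

noncomputable def f_mm_102_b : ℕ → ℕ → ℕ → ℕ → Bool := onCell 536870912 536870912 1239849684 370763052 67108864 67108864
    (rowNK 3 0 false false false .npp 1 0 2 (qsf 536870912 536870912 1239849684 370763052 0) ndN3q1 ndN1q2b pcN0 Cut.none Ext.none)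

def k0_mm_102_b : ∃ t, chk3 f_mm_102_b t 1 1 1 = true :=
  ⟨(l 5), by decide +kernel⟩

theorem c_mm_102_b : CertN 536870912 536870912 1239849684 370763052 67108864 67108864 3 false false false .npp 1 0 2
    ndN3q1 ndN1q2b pcN0 Cut.none Ext.none :=
  certNK0 (fam := false) (s1 := false) (s2 := false) (a := 1) (b := 0) (c := 2) (cn := .npp) (n1 := ndN3q1) (n2 := ndN1q2b) (pc := pcN0) (cut := Cut.none) (xt := Ext.none) (P1 := 536870912) (W1 := 536870912) (P2 := 1239849684) (W2 := 370763052) (P3 := 67108864) (W3 := 67108864) (N0 := 3)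
    rfl rfl rfl k0_mm_102_b

noncomputable def f_mm_112_a : ℕ → ℕ → ℕ → ℕ → Bool := onCell 536870912 536870912 0 536870912 67108864 67108864
    (rowNK 3 0 false false false .dn 1 1 2 (qsf 536870912 536870912 0 536870912 1) ndN3q1 ndN1q2a pcN1 Cut.none Ext.none)

def k0_mm_112_a : ∃ t, chk3 f_mm_112_a t 1 1 1 = true :=
  ⟨(l 5), by decide +kernel⟩

theorem c_mm_112_a : CertN 536870912 536870912 0 536870912 67108864 67108864 3 false false false .dn 1 1 2
    ndN3q1 ndN1q2a pcN1 Cut.none Ext.none :=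
  certNK0 (fam := false) (s1 := false) (s2 := false) (a := 1) (b := 1) (c := 2) (cn := .dn) (n1 := ndN3q1) (n2 := ndN1q2a) (pc := pcN1) (cut := Cut.none) (xt := Ext.none) (P1 := 536870912) (W1 := 536870912) (P2 := 0) (W2 := 536870912) (P3 := 67108864) (W3 := 67108864) (N0 := 3)
    rfl rfl rfl k0_mm_112_a

noncomputable def f_mm_112_b : ℕ → ℕ → ℕ → ℕ → Bool := onCell 536870912 536870912 1239849684 370763052 67108864 67108864
    (rowNK 3 0 false false false .dn 1 1 2 (qsf 536870912 536870912 1239849684 370763052 1) ndN3q1 ndN1q2b pcN1 Cut.none Ext.none)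

def k0_mm_112_b : ∃ t, chk3 f_mm_112_b t 1 1 1 = true :=
  ⟨(l 5), by decide +kernel⟩

theorem c_mm_112_b : CertN 536870912 536870912 1239849684 370763052 67108864 67108864 3 false false false .dn 1 1 2
    ndN3q1 ndN1q2b pcN1 Cut.none Ext.none :=
  certNK0 (fam := false) (s1 := false) (s2 := false) (a := 1) (b := 1) (c := 2) (cn := .dn) (n1 := ndN3q1) (n2 := ndN1q2b) (pc := pcN1) (cut := Cut.none) (xt := Ext.none) (P1 := 536870912) (W1 := 536870912) (P2 := 1239849684) (W2 := 370763052) (P3 := 67108864) (W3 := 67108864) (N0 := 3)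
    rfl rfl rfl k0_mm_112_b

noncomputable def f_mm_113 : ℕ → ℕ → ℕ → ℕ → Bool := onCell 536870912 536870912 1610612736 536870912 67108864 67108864
    (rowNK 3 0 false false false .nn 1 1 3 (qsf 536870912 536870912 1610612736 536870912 1) ndN3q1 ndN1q3 pcN1 Cut.none Ext.none)

def k0_mm_113 : ∃ t, chk3 f_mm_113 t 1 1 1 = true :=
  ⟨(l 5), by decide +kernel⟩

theorem c_mm_113 : CertN 536870912 536870912 1610612736 536870912 67108864 67108864 3 false false false .nn 1 1 3
    ndN3q1 ndN1q3 pcN1 Cut.none Ext.none :=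
  certNK0 (fam := false) (s1 := false) (s2 := false) (a := 1) (b := 1) (c := 3) (cn := .nn) (n1 := ndN3q1) (n2 := ndN1q3) (pc := pcN1) (cut := Cut.none) (xt := Ext.none) (P1 := 536870912) (W1 := 536870912) (P2 := 1610612736) (W2 := 536870912) (P3 := 67108864) (W3 := 67108864) (N0 := 3)
    rfl rfl rfl k0_mm_113

noncomputable def f_mm_123 : ℕ → ℕ → ℕ → ℕ → Bool := onCell 536870912 536870912 1610612736 536870912 67108864 67108864
    (rowNK 3 0 false false false .npn 1 2 3 (qsf 536870912 536870912 1610612736 536870912 2) ndN3q1 ndN1q3 pcN2 Cut.none Ext.none)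

def k0_mm_123 : ∃ t, chk3 f_mm_123 t 1 1 1 = true :=
  ⟨(l 5), by decide +kernel⟩

theorem c_mm_123 : CertN 536870912 536870912 1610612736 536870912 67108864 67108864 3 false false false .npn 1 2 3
    ndN3q1 ndN1q3 pcN2 Cut.none Ext.none :=
  certNK0 (fam := false) (s1 := false) (s2 := false) (a := 1) (b := 2) (c := 3) (cn := .npn) (n1 := ndN3q1) (n2 := ndN1q3) (pc := pcN2) (cut := Cut.none) (xt := Ext.none) (P1 := 536870912) (W1 := 536870912) (P2 := 1610612736) (W2 := 536870912) (P3 := 67108864) (W3 := 67108864) (N0 := 3)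
    rfl rfl rfl k0_mm_123

noncomputable def f_mm_133 : ℕ → ℕ → ℕ → ℕ → Bool := onCell 536870912 536870912 1610612736 536870912 67108864 67108864
    (rowNK 3 0 false false false .dn 1 3 3 (qsf 536870912 536870912 1610612736 536870912 3) ndN3q1 ndN1q3 pcN3 Cut.none Ext.none)

def k0_mm_133 : ∃ t, chk3 f_mm_133 t 1 1 1 = true :=
  ⟨(l 5), by decide +kernel⟩

theorem c_mm_133 : CertN 536870912 536870912 1610612736 536870912 67108864 67108864 3 false false false .dn 1 3 3
    ndN3q1 ndN1q3 pcN3 Cut.none Ext.none :=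
  certNK0 (fam := false) (s1 := false) (s2 := false) (a := 1) (b := 3) (c := 3) (cn := .dn) (n1 := ndN3q1) (n2 := ndN1q3) (pc := pcN3) (cut := Cut.none) (xt := Ext.none) (P1 := 536870912) (W1 := 536870912) (P2 := 1610612736) (W2 := 536870912) (P3 := 67108864) (W3 := 67108864) (N0 := 3)
    rfl rfl rfl k0_mm_133

noncomputable def f_mm_202_a : ℕ → ℕ → ℕ → ℕ → Bool := onCell 1073741824 536870912 0 536870912 67108864 67108864
    (rowNK 3 0 false false false .pp 2 0 2 (qsf 1073741824 536870912 0 536870912 0) ndN3q2 ndN1q2a pcN0 Cut.none Ext.none)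

def k0_mm_202_a : ∃ t, chk3 f_mm_202_a t 1 1 1 = true :=
  ⟨(l 3), by decide +kernel⟩

theorem c_mm_202_a : CertN 1073741824 536870912 0 536870912 67108864 67108864 3 false false false .pp 2 0 2
    ndN3q2 ndN1q2a pcN0 Cut.none Ext.none :=
  certNK0 (fam := false) (s1 := false) (s2 := false) (a := 2) (b := 0) (c := 2) (cn := .pp) (n1 := ndN3q2) (n2 := ndN1q2a) (pc := pcN0) (cut := Cut.none) (xt := Ext.none) (P1 := 1073741824) (W1 := 536870912) (P2 := 0) (W2 := 536870912) (P3 := 67108864) (W3 := 67108864) (N0 := 3)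
    rfl rfl rfl k0_mm_202_a

noncomputable def f_mm_202_b : ℕ → ℕ → ℕ → ℕ → Bool := onCell 1073741824 536870912 1239849684 370763052 67108864 67108864
    (rowNK 3 0 false false false .pp 2 0 2 (qsf 1073741824 536870912 1239849684 370763052 0) ndN3q2 ndN1q2b pcN0 Cut.none Ext.none)

def k0_mm_202_b : ∃ t, chk3 f_mm_202_b t 1 1 1 = true :=
  ⟨(l 3), by decide +kernel⟩

theorem c_mm_202_b : CertN 1073741824 536870912 1239849684 370763052 67108864 67108864 3 false false false .pp 2 0 2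
    ndN3q2 ndN1q2b pcN0 Cut.none Ext.none :=
  certNK0 (fam := false) (s1 := false) (s2 := false) (a := 2) (b := 0) (c := 2) (cn := .pp) (n1 := ndN3q2) (n2 := ndN1q2b) (pc := pcN0) (cut := Cut.none) (xt := Ext.none) (P1 := 1073741824) (W1 := 536870912) (P2 := 1239849684) (W2 := 370763052) (P3 := 67108864) (W3 := 67108864) (N0 := 3)
    rfl rfl rfl k0_mm_202_b

noncomputable def f_mm_203 : ℕ → ℕ → ℕ → ℕ → Bool := onCell 1073741824 536870912 1610612736 536870912 67108864 67108864
    (rowNK 3 0 false false false .up 2 0 3 (qsf 1073741824 536870912 1610612736 536870912 0) ndN3q2 ndN1q3 pcN0 Cut.none Ext.none)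

def k0_mm_203 : ∃ t, chk3 f_mm_203 t 1 1 1 = true :=
  ⟨(l 5), by decide +kernel⟩

theorem c_mm_203 : CertN 1073741824 536870912 1610612736 536870912 67108864 67108864 3 false false false .up 2 0 3
    ndN3q2 ndN1q3 pcN0 Cut.none Ext.none :=
  certNK0 (fam := false) (s1 := false) (s2 := false) (a := 2) (b := 0) (c := 3) (cn := .up) (n1 := ndN3q2) (n2 := ndN1q3) (pc := pcN0) (cut := Cut.none) (xt := Ext.none) (P1 := 1073741824) (W1 := 536870912) (P2 := 1610612736) (W2 := 536870912) (P3 := 67108864) (W3 := 67108864) (N0 := 3)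
    rfl rfl rfl k0_mm_203

noncomputable def f_mm_213 : ℕ → ℕ → ℕ → ℕ → Bool := onCell 1073741824 536870912 1610612736 536870912 67108864 67108864
    (rowNK 3 0 false false false .pnn 2 1 3 (qsf 1073741824 536870912 1610612736 536870912 1) ndN3q2 ndN1q3 pcN1 Cut.none Ext.none)

def k0_mm_213 : ∃ t, chk3 f_mm_213 t 1 1 1 = true :=
  ⟨(l 5), by decide +kernel⟩

theorem c_mm_213 : CertN 1073741824 536870912 1610612736 536870912 67108864 67108864 3 false false false .pnn 2 1 3
    ndN3q2 ndN1q3 pcN1 Cut.none Ext.none :=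
  certNK0 (fam := false) (s1 := false) (s2 := false) (a := 2) (b := 1) (c := 3) (cn := .pnn) (n1 := ndN3q2) (n2 := ndN1q3) (pc := pcN1) (cut := Cut.none) (xt := Ext.none) (P1 := 1073741824) (W1 := 536870912) (P2 := 1610612736) (W2 := 536870912) (P3 := 67108864) (W3 := 67108864) (N0 := 3)
    rfl rfl rfl k0_mm_213

noncomputable def f_mm_303 : ℕ → ℕ → ℕ → ℕ → Bool := onCell 0 1230186008 1610612736 536870912 67108864 67108864
    (rowNK 3 0 false false false .npn 3 0 3 (qsf 0 1230186008 1610612736 536870912 0) ndN3q3 ndN1q3 pcN0 Cut.none Ext.none)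

def k0_mm_303 : ∃ t, chk3 f_mm_303 t 1 1 1 = true :=
  ⟨(a (l 3) (l 3)), by decide +kernel⟩

theorem c_mm_303 : CertN 0 1230186008 1610612736 536870912 67108864 67108864 3 false false false .npn 3 0 3
    ndN3q3 ndN1q3 pcN0 Cut.none Ext.none :=
  certNK0 (fam := false) (s1 := false) (s2 := false) (a := 3) (b := 0) (c := 3) (cn := .npn) (n1 := ndN3q3) (n2 := ndN1q3) (pc := pcN0) (cut := Cut.none) (xt := Ext.none) (P1 := 0) (W1 := 1230186008) (P2 := 1610612736) (W2 := 536870912) (P3 := 67108864) (W3 := 67108864) (N0 := 3)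
    rfl rfl rfl k0_mm_303

noncomputable def f_mm_313 : ℕ → ℕ → ℕ → ℕ → Bool := onCell 0 1230186008 1610612736 536870912 67108864 67108864
    (rowNK 3 0 false false false .dn 3 1 3 (qsf 0 1230186008 1610612736 536870912 1) ndN3q3 ndN1q3 pcN1 Cut.none Ext.none)

def k0_mm_313 : ∃ t, chk3 f_mm_313 t 1 1 1 = true :=
  ⟨(a (l 1) (l 3)), by decide +kernel⟩

theorem c_mm_313 : CertN 0 1230186008 1610612736 536870912 67108864 67108864 3 false false false .dn 3 1 3
    ndN3q3 ndN1q3 pcN1 Cut.none Ext.none :=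
  certNK0 (fam := false) (s1 := false) (s2 := false) (a := 3) (b := 1) (c := 3) (cn := .dn) (n1 := ndN3q3) (n2 := ndN1q3) (pc := pcN1) (cut := Cut.none) (xt := Ext.none) (P1 := 0) (W1 := 1230186008) (P2 := 1610612736) (W2 := 536870912) (P3 := 67108864) (W3 := 67108864) (N0 := 3)
    rfl rfl rfl k0_mm_313

end Pool.Agent.Strip051.G.I1_16_1_8.Tab.C.NB31

namespace Pool.Agent.Strip051.G.I1_16_1_8.Tab.C.NB32

open Pool.Agent.Strip051.PB Pool.Agent.Strip051.PB.T
open Pool.Agent.Strip051.G.I1_16_1_8.Tab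

noncomputable def f_pp_001 : ℕ → ℕ → ℕ → ℕ → Bool := onCell 0 536870912 536870912 536870912 67108864 67108864
    (rowNK 3 0 false true true .up 0 0 1 (qsf 0 536870912 536870912 536870912 0) ndN3q0 ndN2q1 pcN0 Cut.none Ext.none)

def k0_pp_001 : ∃ t, chk3 f_pp_001 t 1 1 1 = true :=
  ⟨(l 3), by decide +kernel⟩

theorem c_pp_001 : CertN 0 536870912 536870912 536870912 67108864 67108864 3 false true true .up 0 0 1
    ndN3q0 ndN2q1 pcN0 Cut.none Ext.none :=
  certNK0 (fam := false) (s1 := true) (s2 := true) (a := 0) (b := 0) (c := 1) (cn := .up) (n1 := ndN3q0) (n2 := ndN2q1) (pc := pcN0) (cut := Cut.none) (xt := Ext.none) (P1 := 0) (W1 := 536870912) (P2 := 536870912) (W2 := 536870912) (P3 := 67108864) (W3 := 67108864) (N0 := 3)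
    rfl rfl rfl k0_pp_001

noncomputable def f_pp_011 : ℕ → ℕ → ℕ → ℕ → Bool := onCell 0 536870912 536870912 536870912 67108864 67108864
    (rowNK 3 0 false true true .pnn 0 1 1 (qsf 0 536870912 536870912 536870912 1) ndN3q0 ndN2q1 pcN1 Cut.none Ext.none)

def k0_pp_011 : ∃ t, chk3 f_pp_011 t 1 1 1 = true :=
  ⟨(l 3), by decide +kernel⟩

theorem c_pp_011 : CertN 0 536870912 536870912 536870912 67108864 67108864 3 false true true .pnn 0 1 1
    ndN3q0 ndN2q1 pcN1 Cut.none Ext.none :=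
  certNK0 (fam := false) (s1 := true) (s2 := true) (a := 0) (b := 1) (c := 1) (cn := .pnn) (n1 := ndN3q0) (n2 := ndN2q1) (pc := pcN1) (cut := Cut.none) (xt := Ext.none) (P1 := 0) (W1 := 536870912) (P2 := 536870912) (W2 := 536870912) (P3 := 67108864) (W3 := 67108864) (N0 := 3)
    rfl rfl rfl k0_pp_011

noncomputable def f_pp_012_a : ℕ → ℕ → ℕ → ℕ → Bool := onCell 536870912 536870912 0 536870912 67108864 67108864
    (rowNK 3 2 false true true .pnp 0 1 2 (qsf 0 536870912 0 536870912 1) ndN3q0 ndN2q2a pcN1 Cut.none Ext.none)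

def k0_pp_012_a : ∃ t, chk3 f_pp_012_a t 1 1 1 = true :=
  ⟨(a (b (a (l 18057568) (l 17447464)) (b (a (l 18004000) (l 17342640)) (b (a (l 17939344) (l 17337528)) (a (l 17868712) (l 17121872))))) (b (a (l 17145336) (b (l 17866144) (l 17985600))) (b (a (l 17346872) (l 18404696)) (b (a (l 17552632) (l 18611656)) (a (l 17807112) (l 18663440)))))), by decide +kernel⟩

theorem c_pp_012_a : CertN 0 536870912 0 536870912 67108864 67108864 3 false true true .pnp 0 1 2
    ndN3q0 ndN2q2a pcN1 Cut.none Ext.none :=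
  certNK2 (fam := false) (s1 := true) (s2 := true) (a := 0) (b := 1) (c := 2) (cn := .pnp) (n1 := ndN3q0) (n2 := ndN2q2a) (pc := pcN1) (cut := Cut.none) (xt := Ext.none) (P1 := 0) (W1 := 536870912) (P2 := 0) (W2 := 536870912) (P3 := 67108864) (W3 := 67108864) (N0 := 3)
    rfl rfl rfl (fun _ => rfl) k0_pp_012_a

noncomputable def f_pp_012_b : ℕ → ℕ → ℕ → ℕ → Bool := onCell 536870912 536870912 1239849684 370763052 67108864 67108864
    (rowNK 3 2 false true true .pnp 0 1 2 (qsf 0 536870912 1239849684 370763052 1) ndN3q0 ndN2q2b pcN1 Cut.none Ext.none)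

def k0_pp_012_b : ∃ t, chk3 f_pp_012_b t 1 1 1 = true :=
  ⟨(b (a (a (l 2) (l 17639568)) (a (b (l 16801536) (l 17162248)) (b (l 17803792) (l 17840664)))) (a (l 2) (a (l 17557112) (a (l 18096496) (a (l 18441392) (l 18689424)))))), by decide +kernel⟩

theorem c_pp_012_b : CertN 0 536870912 1239849684 370763052 67108864 67108864 3 false true true .pnp 0 1 2
    ndN3q0 ndN2q2b pcN1 Cut.none Ext.none :=
  certNK2 (fam := false) (s1 := true) (s2 := true) (a := 0) (b := 1) (c := 2) (cn := .pnp) (n1 := ndN3q0) (n2 := ndN2q2b) (pc := pcN1) (cut := Cut.none) (xt := Ext.none) (P1 := 0) (W1 := 536870912) (P2 := 1239849684) (W2 := 370763052) (P3 := 67108864) (W3 := 67108864) (N0 := 3)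
    rfl rfl rfl (fun _ => rfl) k0_pp_012_b

noncomputable def f_pp_022_a : ℕ → ℕ → ℕ → ℕ → Bool := onCell 1073741824 536870912 0 536870912 67108864 67108864
    (rowNK 3 2 false true true .pp 0 2 2 (qsf 0 536870912 0 536870912 2) ndN3q0 ndN2q2a pcN2 Cut.none Ext.none)

def k0_pp_022_a : ∃ t, chk3 f_pp_022_a t 1 1 1 = true :=
  ⟨(a (b (a (a (a (l 18505216) (l 18593824)) (l 18707456)) (a (l 18800608) (l 1))) (a (b (a (a (l 18754680) (l 18841936)) (l 18923104)) (a (b (a (l 19015392) (l 19064816)) (a (l 19233200) (l 19278928))) (b (l 559995148887) (l 1)))) (b (l 1) (l 1)))) (l 1)), by decide +kernel⟩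

theorem c_pp_022_a : CertN 0 536870912 0 536870912 67108864 67108864 3 false true true .pp 0 2 2
    ndN3q0 ndN2q2a pcN2 Cut.none Ext.none :=
  certNK2 (fam := false) (s1 := true) (s2 := true) (a := 0) (b := 2) (c := 2) (cn := .pp) (n1 := ndN3q0) (n2 := ndN2q2a) (pc := pcN2) (cut := Cut.none) (xt := Ext.none) (P1 := 0) (W1 := 536870912) (P2 := 0) (W2 := 536870912) (P3 := 67108864) (W3 := 67108864) (N0 := 3)
    rfl rfl rfl (fun _ => rfl) k0_pp_022_a

noncomputable def f_pp_022_b : ℕ → ℕ → ℕ → ℕ → Bool := onCell 1073741824 536870912 1239849684 370763052 67108864 67108864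
    (rowNK 3 2 false true true .pp 0 2 2 (qsf 0 536870912 1239849684 370763052 2) ndN3q0 ndN2q2b pcN2 Cut.none Ext.none)

def k0_pp_022_b : ∃ t, chk3 f_pp_022_b t 1 1 1 = true :=
  ⟨(a (b (a (a (a (l 18249552) (l 18193376)) (l 18322304)) (b (a (l 18419824) (l 18507944)) (l 17994208))) (a (l 18748672) (l 18159400))) (b (a (b (l 1) (l 645892382471)) (l 1)) (a (b (l 17656792) (l 17674576)) (b (a (l 17856664) (l 1)) (l 17496256))))), by decide +kernel⟩

theorem c_pp_022_b : CertN 0 536870912 1239849684 370763052 67108864 67108864 3 false true true .pp 0 2 2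
    ndN3q0 ndN2q2b pcN2 Cut.none Ext.none :=
  certNK2 (fam := false) (s1 := true) (s2 := true) (a := 0) (b := 2) (c := 2) (cn := .pp) (n1 := ndN3q0) (n2 := ndN2q2b) (pc := pcN2) (cut := Cut.none) (xt := Ext.none) (P1 := 0) (W1 := 536870912) (P2 := 1239849684) (W2 := 370763052) (P3 := 67108864) (W3 := 67108864) (N0 := 3)
    rfl rfl rfl (fun _ => rfl) k0_pp_022_b

noncomputable def f_pp_023 : ℕ → ℕ → ℕ → ℕ → Bool := onCell 1073741824 536870912 1610612736 536870912 67108864 67108864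
    (rowNK 3 2 false true true .up 0 2 3 (qsf 0 536870912 1610612736 536870912 2) ndN3q0 ndN2q3 pcN2 Cut.none Ext.none)

def k0_pp_023 : ∃ t, chk3 f_pp_023 t 1 1 1 = true :=
  ⟨(a (b (b (l 18449056) (l 18812688)) (b (l 19267376) (l 2))) (b (b (l 18926752) (l 18532048)) (a (l 18991664) (l 18232816)))), by decide +kernel⟩

theorem c_pp_023 : CertN 0 536870912 1610612736 536870912 67108864 67108864 3 false true true .up 0 2 3
    ndN3q0 ndN2q3 pcN2 Cut.none Ext.none :=
  certNK2 (fam := false) (s1 := true) (s2 := true) (a := 0) (b := 2) (c := 3) (cn := .up) (n1 := ndN3q0) (n2 := ndN2q3) (pc := pcN2) (cut := Cut.none) (xt := Ext.none) (P1 := 0) (W1 := 536870912) (P2 := 1610612736) (W2 := 536870912) (P3 := 67108864) (W3 := 67108864) (N0 := 3)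
    rfl rfl rfl (fun _ => rfl) k0_pp_023

noncomputable def f_pp_033 : ℕ → ℕ → ℕ → ℕ → Bool := onCell 0 536870912 1610612736 536870912 67108864 67108864
    (rowNK 3 0 false true true .pnn 0 3 3 (qsf 0 536870912 1610612736 536870912 3) ndN3q0 ndN2q3 pcN3 Cut.none Ext.none)

def k0_pp_033 : ∃ t, chk3 f_pp_033 t 1 1 1 = true :=
  ⟨(b (a (b (a (b (l 18228496) (l 18179728)) (l 425238526823)) (a (b (l 18027200) (a (l 4) (l 17758920))) (b (l 18072208) (l 17948832)))) (a (b (l 1) (b (l 1) (l 18299784))) (l 1))) (b (a (l 4) (a (b (l 18238616) (l 4)) (b (l 1) (l 18625144)))) (l 4))), by decide +kernel⟩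

theorem c_pp_033 : CertN 0 536870912 1610612736 536870912 67108864 67108864 3 false true true .pnn 0 3 3
    ndN3q0 ndN2q3 pcN3 Cut.none Ext.none :=
  certNK0 (fam := false) (s1 := true) (s2 := true) (a := 0) (b := 3) (c := 3) (cn := .pnn) (n1 := ndN3q0) (n2 := ndN2q3) (pc := pcN3) (cut := Cut.none) (xt := Ext.none) (P1 := 0) (W1 := 536870912) (P2 := 1610612736) (W2 := 536870912) (P3 := 67108864) (W3 := 67108864) (N0 := 3)
    rfl rfl rfl k0_pp_033

noncomputable def f_pp_101 : ℕ → ℕ → ℕ → ℕ → Bool := onCell 536870912 536870912 536870912 536870912 67108864 67108864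
    (rowNK 3 0 false true true .npn 1 0 1 (qsf 536870912 536870912 536870912 536870912 0) ndN3q1 ndN2q1 pcN0 Cut.none Ext.none)

def k0_pp_101 : ∃ t, chk3 f_pp_101 t 1 1 1 = true :=
  ⟨(l 3), by decide +kernel⟩

theorem c_pp_101 : CertN 536870912 536870912 536870912 536870912 67108864 67108864 3 false true true .npn 1 0 1
    ndN3q1 ndN2q1 pcN0 Cut.none Ext.none :=
  certNK0 (fam := false) (s1 := true) (s2 := true) (a := 1) (b := 0) (c := 1) (cn := .npn) (n1 := ndN3q1) (n2 := ndN2q1) (pc := pcN0) (cut := Cut.none) (xt := Ext.none) (P1 := 536870912) (W1 := 536870912) (P2 := 536870912) (W2 := 536870912) (P3 := 67108864) (W3 := 67108864) (N0 := 3)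
    rfl rfl rfl k0_pp_101

noncomputable def cut_pp_102_a : Cut := Cut.of [[⟨0, 1, 0, 67108864⟩, ⟨1, 0, 0, 67108864⟩, ⟨2, 1, 0, 67108864⟩]]

noncomputable def f_pp_102_a : ℕ → ℕ → ℕ → ℕ → Bool := onCell 536870912 536870912 0 536870912 67108864 67108864
    (rowNK 3 0 false true true .npp 1 0 2 (qsf 536870912 536870912 0 536870912 0) ndN3q1 ndN2q2a pcN0 cut_pp_102_a Ext.none)

def k0_pp_102_a : ∃ t, chk3 f_pp_102_a t 2 1 1 = true :=
  ⟨(b (a (l 18701560) (l 18792624)) (b (a (l 18635920) (l 18646344)) (b (a (l 18537576) (l 18583152)) (a (l 18438280) (a (l 18313456) (l 18196056)))))), by decide +kernel⟩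

def k1_pp_102_a : ∃ t, chk3 f_pp_102_a t 3 2 1 = true :=
  ⟨(a (b (l 18933256) (l 18869472)) (a (b (l 19041272) (l 18906896)) (b (a (l 19034896) (l 18714640)) (b (a (l 18908944) (a (l 18789440) (l 18406104))) (a (l 18716008) (a (l 18375768) (b (l 18148952) (c (l 18857680) (l 17483488))))))))), by decide +kernel⟩

def k2_pp_102_a : ∃ t, chk3 f_pp_102_a t 3 3 1 = true :=
  ⟨(b (a (b (l 18730256) (a (l 18581544) (l 18522032))) (a (b (a (l 18683904) (l 18597976)) (a (l 18406040) (b (l 18345992) (l 18094888)))) (a (a (b (l 18461904) (b (l 18128776) (l 17671528))) (b (c (l 18830808) (l 17779552)) (c (b (l 18471976) (l 18125120)) (b (l 17297392) (l 16841296))))) (b (a (c (l 18691784) (b (l 17598824) (l 17248312))) (c (b (l 18608904) (a (l 18358816) (l 18102032))) (b (l 17037264) (l 16609784)))) (a (b (c (l 18182024) (l 16779936)) (a (l 16983872) (l 16767128))) (b (a (l 16875040) (l 16655520)) (a (l 16632920) (l 16660368)))))))) (a (b (a (l 18532872) (b (l 18309664)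 (a (l 18173968) (l 18046808)))) (a (b (l 18130784) (l 17921728)) (b (a (l 17964408) (l 17790552)) (a (l 17698280) (l 17281904))))) (b (a (b (a (l 18107600) (a (l 17912904) (l 17606832))) (a (b (l 17915216) (l 17765504)) (b (a (l 17668568) (l 17412728)) (a (l 17478064) (l 17178256))))) (b (a (a (b (l 17526376) (l 17293944)) (l 16712672)) (a (b (l 16648984) (l 16659120)) (b (a (l 16643776) (l 16641056)) (a (l 16655192) (l 16674296))))) (a (a (b (l 17026928) (l 16720760)) (b (l 16676936) (l 16709072))) (a (b (a (l 16672552) (l 16670360)) (a (l 16706064) (l 16704768))) (a (b (l 16689720) (b (l 16676976) (l 6))) (b (a (l 16688904) (l 6)) (l 6))))))) (a (b (a (a (l 17594280) (l 17408360)) (a (l 17149536) (l 16770816))) (a (b (l 17214048) (l 17000088)) (b (l 16736272) (a (l 16752376) (l 16750064))))) (a (a (b (b (l 16702880) (l 16716448)) (b (l 16732032) (b (l 16745016) (l 16754432)))) (b (b (l 16698856) (l 16724808)) (b (a (l 16731656) (l 6)) (l 6)))) (b (a (a (b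 (l 16697280) (l 6)) (l 6)) (l 6)) (l 6))))))), by decide +kernel⟩

theorem s3_pp_102_a : ∃ t, chk3 f_pp_102_a t 3 1 1 = true := ex3_b k1_pp_102_a k2_pp_102_a

theorem s4_pp_102_a : ∃ t, chk3 f_pp_102_a t 1 1 1 = true := ex3_a k0_pp_102_a s3_pp_102_a

theorem c_pp_102_a : CertN 536870912 536870912 0 536870912 67108864 67108864 3 false true true .npp 1 0 2
    ndN3q1 ndN2q2a pcN0 cut_pp_102_a Ext.none :=
  certNK0 (fam := false) (s1 := true) (s2 := true) (a := 1) (b := 0) (c := 2) (cn := .npp) (n1 := ndN3q1) (n2 := ndN2q2a) (pc := pcN0) (cut := cut_pp_102_a) (xt := Ext.none) (P1 := 536870912) (W1 := 536870912) (P2 := 0) (W2 := 536870912) (P3 := 67108864) (W3 := 67108864) (N0 := 3)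
    rfl rfl rfl s4_pp_102_a

noncomputable def cut_pp_102_b : Cut := Cut.of [[⟨0, 1, 0, 67108864⟩, ⟨1, 0, 0, 67108864⟩, ⟨2, 1, 0, 67108864⟩]]

noncomputable def f_pp_102_b : ℕ → ℕ → ℕ → ℕ → Bool := onCell 536870912 536870912 1239849684 370763052 67108864 67108864
    (rowNK 3 0 false true true .npp 1 0 2 (qsf 536870912 536870912 1239849684 370763052 0) ndN3q1 ndN2q2b pcN0 cut_pp_102_b Ext.none)

def k0_pp_102_b : ∃ t, chk3 f_pp_102_b t 1 1 1 = true :=
  ⟨(a (b (a (l 2) (b (l 18780656) (l 18642240))) (l 2)) (b (a (b (l 19099848) (l 18945480)) (b (a (l 19232744) (b (a (l 19248640) (b (l 19132728) (l 19365752))) (l 19513152))) (a (l 19280440) (l 19595024)))) (a (b (l 18776976) (l 2)) (b (l 19493616) (l 19013888))))), by decide +kernel⟩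

theorem c_pp_102_b : CertN 536870912 536870912 1239849684 370763052 67108864 67108864 3 false true true .npp 1 0 2
    ndN3q1 ndN2q2b pcN0 cut_pp_102_b Ext.none :=
  certNK0 (fam := false) (s1 := true) (s2 := true) (a := 1) (b := 0) (c := 2) (cn := .npp) (n1 := ndN3q1) (n2 := ndN2q2b) (pc := pcN0) (cut := cut_pp_102_b) (xt := Ext.none) (P1 := 536870912) (W1 := 536870912) (P2 := 1239849684) (W2 := 370763052) (P3 := 67108864) (W3 := 67108864) (N0 := 3)
    rfl rfl rfl k0_pp_102_b

noncomputable def f_pp_112_a : ℕ → ℕ → ℕ → ℕ → Bool := onCell 536870912 536870912 0 536870912 67108864 67108864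
    (rowNK 3 0 false true true .dn 1 1 2 (qsf 536870912 536870912 0 536870912 1) ndN3q1 ndN2q2a pcN1 Cut.none Ext.none)

def k0_pp_112_a : ∃ t, chk3 f_pp_112_a t 1 1 1 = true :=
  ⟨(a (a (b (l 18427664) (b (l 18339344) (b (l 18237904) (l 18146288)))) (b (l 18621888) (b (l 1) (l 1)))) (l 1)), by decide +kernel⟩

theorem c_pp_112_a : CertN 536870912 536870912 0 536870912 67108864 67108864 3 false true true .dn 1 1 2
    ndN3q1 ndN2q2a pcN1 Cut.none Ext.none :=
  certNK0 (fam := false) (s1 := true) (s2 := true) (a := 1) (b := 1) (c := 2) (cn := .dn) (n1 := ndN3q1) (n2 := ndN2q2a) (pc := pcN1) (cut := Cut.none) (xt := Ext.none) (P1 := 536870912) (W1 := 536870912) (P2 := 0) (W2 := 536870912) (P3 := 67108864) (W3 := 67108864) (N0 := 3)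
    rfl rfl rfl k0_pp_112_a

noncomputable def f_pp_112_b : ℕ → ℕ → ℕ → ℕ → Bool := onCell 536870912 536870912 1239849684 370763052 67108864 67108864
    (rowNK 3 2 false true true .dn 1 1 2 (qsf 536870912 536870912 1239849684 370763052 1) ndN3q1 ndN2q2b pcN1 Cut.none Ext.none)

def k0_pp_112_b : ∃ t, chk3 f_pp_112_b t 1 1 1 = true :=
  ⟨(a (a (b (l 18560672) (l 19024240)) (b (l 18296792) (l 18487136))) (a (l 18150416) (a (l 18073536) (a (l 18110576) (l 18152112))))), by decide +kernel⟩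

theorem c_pp_112_b : CertN 536870912 536870912 1239849684 370763052 67108864 67108864 3 false true true .dn 1 1 2
    ndN3q1 ndN2q2b pcN1 Cut.none Ext.none :=
  certNK2 (fam := false) (s1 := true) (s2 := true) (a := 1) (b := 1) (c := 2) (cn := .dn) (n1 := ndN3q1) (n2 := ndN2q2b) (pc := pcN1) (cut := Cut.none) (xt := Ext.none) (P1 := 536870912) (W1 := 536870912) (P2 := 1239849684) (W2 := 370763052) (P3 := 67108864) (W3 := 67108864) (N0 := 3)
    rfl rfl rfl (fun _ => rfl) k0_pp_112_b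

noncomputable def f_pp_113 : ℕ → ℕ → ℕ → ℕ → Bool := onCell 536870912 536870912 1610612736 536870912 67108864 67108864
    (rowNK 3 2 false true true .nn 1 1 3 (qsf 536870912 536870912 1610612736 536870912 1) ndN3q1 ndN2q3 pcN1 Cut.none Ext.none)

def k0_pp_113 : ∃ t, chk3 f_pp_113 t 1 1 1 = true :=
  ⟨(a (b (a (b (l 21000896) (l 21300648)) (l 20387768)) (a (l 2) (b (l 20405776) (l 2)))) (b (a (b (l 19808504) (l 19509536)) (a (l 19248424) (a (l 19071392) (l 18989256)))) (a (b (l 18988648) (l 18424296)) (a (b (l 18197712) (l 17360864)) (a (b (l 17979512) (l 17172008)) (l 17428168)))))), by decide +kernel⟩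

theorem c_pp_113 : CertN 536870912 536870912 1610612736 536870912 67108864 67108864 3 false true true .nn 1 1 3
    ndN3q1 ndN2q3 pcN1 Cut.none Ext.none :=
  certNK2 (fam := false) (s1 := true) (s2 := true) (a := 1) (b := 1) (c := 3) (cn := .nn) (n1 := ndN3q1) (n2 := ndN2q3) (pc := pcN1) (cut := Cut.none) (xt := Ext.none) (P1 := 536870912) (W1 := 536870912) (P2 := 1610612736) (W2 := 536870912) (P3 := 67108864) (W3 := 67108864) (N0 := 3)
    rfl rfl rfl (fun _ => rfl) k0_pp_113

noncomputable def f_pp_123 : ℕ → ℕ → ℕ → ℕ → Bool := onCell 1073741824 536870912 1610612736 536870912 67108864 67108864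
    (rowNK 3 2 false true true .npn 1 2 3 (qsf 536870912 536870912 1610612736 536870912 2) ndN3q1 ndN2q3 pcN2 Cut.none Ext.none)

def k0_pp_123 : ∃ t, chk3 f_pp_123 t 1 1 1 = true :=
  ⟨(a (b (b (l 19144584) (l 18476160)) (b (l 17652544) (l 17096064))) (b (b (l 1) (l 18306456)) (a (b (l 17576600) (l 4)) (l 595961866551)))), by decide +kernel⟩

theorem c_pp_123 : CertN 536870912 536870912 1610612736 536870912 67108864 67108864 3 false true true .npn 1 2 3
    ndN3q1 ndN2q3 pcN2 Cut.none Ext.none :=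
  certNK2 (fam := false) (s1 := true) (s2 := true) (a := 1) (b := 2) (c := 3) (cn := .npn) (n1 := ndN3q1) (n2 := ndN2q3) (pc := pcN2) (cut := Cut.none) (xt := Ext.none) (P1 := 536870912) (W1 := 536870912) (P2 := 1610612736) (W2 := 536870912) (P3 := 67108864) (W3 := 67108864) (N0 := 3)
    rfl rfl rfl (fun _ => rfl) k0_pp_123

noncomputable def f_pp_133 : ℕ → ℕ → ℕ → ℕ → Bool := onCell 1610612736 536870912 1610612736 536870912 67108864 67108864
    (rowNK 3 2 false true true .dn 1 3 3 (qsf 536870912 536870912 1610612736 536870912 3) ndN3q1 ndN2q3 pcN3 Cut.none Ext.none)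

def k0_pp_133 : ∃ t, chk3 f_pp_133 t 1 1 1 = true :=
  ⟨(a (b (l 1) (b (l 1) (l 4))) (l 1)), by decide +kernel⟩

theorem c_pp_133 : CertN 536870912 536870912 1610612736 536870912 67108864 67108864 3 false true true .dn 1 3 3
    ndN3q1 ndN2q3 pcN3 Cut.none Ext.none :=
  certNK2 (fam := false) (s1 := true) (s2 := true) (a := 1) (b := 3) (c := 3) (cn := .dn) (n1 := ndN3q1) (n2 := ndN2q3) (pc := pcN3) (cut := Cut.none) (xt := Ext.none) (P1 := 536870912) (W1 := 536870912) (P2 := 1610612736) (W2 := 536870912) (P3 := 67108864) (W3 := 67108864) (N0 := 3)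
    rfl rfl rfl (fun _ => rfl) k0_pp_133

noncomputable def f_pp_202_a : ℕ → ℕ → ℕ → ℕ → Bool := onCell 1073741824 536870912 0 536870912 67108864 67108864
    (rowNK 3 0 false true true .pp 2 0 2 (qsf 1073741824 536870912 0 536870912 0) ndN3q2 ndN2q2a pcN0 Cut.none Ext.none)

def k0_pp_202_a : ∃ t, chk3 f_pp_202_a t 1 1 1 = true :=
  ⟨(l 3), by decide +kernel⟩

theorem c_pp_202_a : CertN 1073741824 536870912 0 536870912 67108864 67108864 3 false true true .pp 2 0 2
    ndN3q2 ndN2q2a pcN0 Cut.none Ext.none :=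
  certNK0 (fam := false) (s1 := true) (s2 := true) (a := 2) (b := 0) (c := 2) (cn := .pp) (n1 := ndN3q2) (n2 := ndN2q2a) (pc := pcN0) (cut := Cut.none) (xt := Ext.none) (P1 := 1073741824) (W1 := 536870912) (P2 := 0) (W2 := 536870912) (P3 := 67108864) (W3 := 67108864) (N0 := 3)
    rfl rfl rfl k0_pp_202_a

noncomputable def f_pp_202_b : ℕ → ℕ → ℕ → ℕ → Bool := onCell 1073741824 536870912 1239849684 370763052 67108864 67108864
    (rowNK 3 0 false true true .pp 2 0 2 (qsf 1073741824 536870912 1239849684 370763052 0) ndN3q2 ndN2q2b pcN0 Cut.none Ext.none)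

def k0_pp_202_b : ∃ t, chk3 f_pp_202_b t 1 1 1 = true :=
  ⟨(l 3), by decide +kernel⟩

theorem c_pp_202_b : CertN 1073741824 536870912 1239849684 370763052 67108864 67108864 3 false true true .pp 2 0 2
    ndN3q2 ndN2q2b pcN0 Cut.none Ext.none :=
  certNK0 (fam := false) (s1 := true) (s2 := true) (a := 2) (b := 0) (c := 2) (cn := .pp) (n1 := ndN3q2) (n2 := ndN2q2b) (pc := pcN0) (cut := Cut.none) (xt := Ext.none) (P1 := 1073741824) (W1 := 536870912) (P2 := 1239849684) (W2 := 370763052) (P3 := 67108864) (W3 := 67108864) (N0 := 3)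
    rfl rfl rfl k0_pp_202_b

noncomputable def f_pp_203 : ℕ → ℕ → ℕ → ℕ → Bool := onCell 1073741824 536870912 0 536870912 67108864 67108864
    (rowNK 3 1 false true true .up 2 0 3 (qsf 1073741824 536870912 1610612736 536870912 0) ndN3q2 ndN2q3 pcN0 Cut.none Ext.none)

def k0_pp_203 : ∃ t, chk3 f_pp_203 t 1 1 1 = true :=
  ⟨(l 3), by decide +kernel⟩

theorem c_pp_203 : CertN 1073741824 536870912 1610612736 536870912 67108864 67108864 3 false true true .up 2 0 3
    ndN3q2 ndN2q3 pcN0 Cut.none Ext.none :=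
  certNK1 (fam := false) (s1 := true) (s2 := true) (a := 2) (b := 0) (c := 3) (cn := .up) (n1 := ndN3q2) (n2 := ndN2q3) (pc := pcN0) (cut := Cut.none) (xt := Ext.none) (P1 := 1073741824) (W1 := 536870912) (P2 := 1610612736) (W2 := 536870912) (P3 := 67108864) (W3 := 67108864) (N0 := 3)
    rfl rfl rfl (fun _ => rfl) k0_pp_203

noncomputable def f_pp_213 : ℕ → ℕ → ℕ → ℕ → Bool := onCell 1073741824 536870912 1610612736 536870912 67108864 67108864
    (rowNK 3 0 false true true .pnn 2 1 3 (qsf 1073741824 536870912 1610612736 536870912 1) ndN3q2 ndN2q3 pcN1 Cut.none Ext.none)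

def k0_pp_213 : ∃ t, chk3 f_pp_213 t 1 1 1 = true :=
  ⟨(b (l 3) (a (b (a (b (l 3) (l 290617125479)) (l 3)) (a (b (l 17420120) (l 17093112)) (b (l 17297904) (l 17172760)))) (b (l 3) (a (b (l 3) (l 17169408)) (l 3))))), by decide +kernel⟩

theorem c_pp_213 : CertN 1073741824 536870912 1610612736 536870912 67108864 67108864 3 false true true .pnn 2 1 3
    ndN3q2 ndN2q3 pcN1 Cut.none Ext.none :=
  certNK0 (fam := false) (s1 := true) (s2 := true) (a := 2) (b := 1) (c := 3) (cn := .pnn) (n1 := ndN3q2) (n2 := ndN2q3) (pc := pcN1) (cut := Cut.none) (xt := Ext.none) (P1 := 1073741824) (W1 := 536870912) (P2 := 1610612736) (W2 := 536870912) (P3 := 67108864) (W3 := 67108864) (N0 := 3)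
    rfl rfl rfl k0_pp_213

noncomputable def f_pp_303 : ℕ → ℕ → ℕ → ℕ → Bool := onCell 0 1230186008 1610612736 536870912 67108864 67108864
    (rowNK 3 0 false true true .npn 3 0 3 (qsf 0 1230186008 1610612736 536870912 0) ndN3q3 ndN2q3 pcN0 Cut.none Ext.none)

def k0_pp_303 : ∃ t, chk3 f_pp_303 t 1 1 1 = true :=
  ⟨(a (l 3) (l 3)), by decide +kernel⟩

theorem c_pp_303 : CertN 0 1230186008 1610612736 536870912 67108864 67108864 3 false true true .npn 3 0 3
    ndN3q3 ndN2q3 pcN0 Cut.none Ext.none :=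
  certNK0 (fam := false) (s1 := true) (s2 := true) (a := 3) (b := 0) (c := 3) (cn := .npn) (n1 := ndN3q3) (n2 := ndN2q3) (pc := pcN0) (cut := Cut.none) (xt := Ext.none) (P1 := 0) (W1 := 1230186008) (P2 := 1610612736) (W2 := 536870912) (P3 := 67108864) (W3 := 67108864) (N0 := 3)
    rfl rfl rfl k0_pp_303

noncomputable def f_pp_313 : ℕ → ℕ → ℕ → ℕ → Bool := onCell 0 1230186008 1610612736 536870912 67108864 67108864
    (rowNK 3 0 false true true .dn 3 1 3 (qsf 0 1230186008 1610612736 536870912 1) ndN3q3 ndN2q3 pcN1 Cut.none Ext.none)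

def k0_pp_313 : ∃ t, chk3 f_pp_313 t 1 1 1 = true :=
  ⟨(a (l 1) (l 3)), by decide +kernel⟩

theorem c_pp_313 : CertN 0 1230186008 1610612736 536870912 67108864 67108864 3 false true true .dn 3 1 3
    ndN3q3 ndN2q3 pcN1 Cut.none Ext.none :=
  certNK0 (fam := false) (s1 := true) (s2 := true) (a := 3) (b := 1) (c := 3) (cn := .dn) (n1 := ndN3q3) (n2 := ndN2q3) (pc := pcN1) (cut := Cut.none) (xt := Ext.none) (P1 := 0) (W1 := 1230186008) (P2 := 1610612736) (W2 := 536870912) (P3 := 67108864) (W3 := 67108864) (N0 := 3)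
    rfl rfl rfl k0_pp_313

noncomputable def f_pm_001 : ℕ → ℕ → ℕ → ℕ → Bool := onCell 0 536870912 536870912 536870912 67108864 67108864
    (rowNK 3 0 false true false .up 0 0 1 (qsf 0 536870912 536870912 536870912 0) ndN3q0 ndN2q1 pcN0 Cut.none Ext.none)

def k0_pm_001 : ∃ t, chk3 f_pm_001 t 1 1 1 = true :=
  ⟨(l 4), by decide +kernel⟩

theorem c_pm_001 : CertN 0 536870912 536870912 536870912 67108864 67108864 3 false true false .up 0 0 1
    ndN3q0 ndN2q1 pcN0 Cut.none Ext.none :=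
  certNK0 (fam := false) (s1 := true) (s2 := false) (a := 0) (b := 0) (c := 1) (cn := .up) (n1 := ndN3q0) (n2 := ndN2q1) (pc := pcN0) (cut := Cut.none) (xt := Ext.none) (P1 := 0) (W1 := 536870912) (P2 := 536870912) (W2 := 536870912) (P3 := 67108864) (W3 := 67108864) (N0 := 3)
    rfl rfl rfl k0_pm_001

noncomputable def f_pm_011 : ℕ → ℕ → ℕ → ℕ → Bool := onCell 0 536870912 536870912 536870912 67108864 67108864
    (rowNK 3 0 false true false .pnn 0 1 1 (qsf 0 536870912 536870912 536870912 1) ndN3q0 ndN2q1 pcN1 Cut.none Ext.none)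

def k0_pm_011 : ∃ t, chk3 f_pm_011 t 1 1 1 = true :=
  ⟨(l 4), by decide +kernel⟩

theorem c_pm_011 : CertN 0 536870912 536870912 536870912 67108864 67108864 3 false true false .pnn 0 1 1
    ndN3q0 ndN2q1 pcN1 Cut.none Ext.none :=
  certNK0 (fam := false) (s1 := true) (s2 := false) (a := 0) (b := 1) (c := 1) (cn := .pnn) (n1 := ndN3q0) (n2 := ndN2q1) (pc := pcN1) (cut := Cut.none) (xt := Ext.none) (P1 := 0) (W1 := 536870912) (P2 := 536870912) (W2 := 536870912) (P3 := 67108864) (W3 := 67108864) (N0 := 3)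
    rfl rfl rfl k0_pm_011

noncomputable def f_pm_012_a : ℕ → ℕ → ℕ → ℕ → Bool := onCell 0 536870912 0 536870912 67108864 67108864
    (rowNK 3 0 false true false .pnp 0 1 2 (qsf 0 536870912 0 536870912 1) ndN3q0 ndN2q2a pcN1 Cut.none Ext.none)

def k0_pm_012_a : ∃ t, chk3 f_pm_012_a t 1 1 1 = true :=
  ⟨(l 4), by decide +kernel⟩

theorem c_pm_012_a : CertN 0 536870912 0 536870912 67108864 67108864 3 false true false .pnp 0 1 2
    ndN3q0 ndN2q2a pcN1 Cut.none Ext.none :=
  certNK0 (fam := false) (s1 := true) (s2 := false) (a := 0) (b := 1) (c := 2) (cn := .pnp) (n1 := ndN3q0) (n2 := ndN2q2a) (pc := pcN1) (cut := Cut.none) (xt := Ext.none) (P1 := 0) (W1 := 536870912) (P2 := 0) (W2 := 536870912) (P3 := 67108864) (W3 := 67108864) (N0 := 3)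
    rfl rfl rfl k0_pm_012_a

noncomputable def f_pm_012_b : ℕ → ℕ → ℕ → ℕ → Bool := onCell 0 536870912 1239849684 370763052 67108864 67108864
    (rowNK 3 0 false true false .pnp 0 1 2 (qsf 0 536870912 1239849684 370763052 1) ndN3q0 ndN2q2b pcN1 Cut.none Ext.none)

def k0_pm_012_b : ∃ t, chk3 f_pm_012_b t 1 1 1 = true :=
  ⟨(l 4), by decide +kernel⟩

theorem c_pm_012_b : CertN 0 536870912 1239849684 370763052 67108864 67108864 3 false true false .pnp 0 1 2
    ndN3q0 ndN2q2b pcN1 Cut.none Ext.none :=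
  certNK0 (fam := false) (s1 := true) (s2 := false) (a := 0) (b := 1) (c := 2) (cn := .pnp) (n1 := ndN3q0) (n2 := ndN2q2b) (pc := pcN1) (cut := Cut.none) (xt := Ext.none) (P1 := 0) (W1 := 536870912) (P2 := 1239849684) (W2 := 370763052) (P3 := 67108864) (W3 := 67108864) (N0 := 3)
    rfl rfl rfl k0_pm_012_b

noncomputable def f_pm_022_a : ℕ → ℕ → ℕ → ℕ → Bool := onCell 0 536870912 0 536870912 67108864 67108864
    (rowNK 3 0 false true false .pp 0 2 2 (qsf 0 536870912 0 536870912 2) ndN3q0 ndN2q2a pcN2 Cut.none Ext.none)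

def k0_pm_022_a : ∃ t, chk3 f_pm_022_a t 1 1 1 = true :=
  ⟨(l 4), by decide +kernel⟩

theorem c_pm_022_a : CertN 0 536870912 0 536870912 67108864 67108864 3 false true false .pp 0 2 2
    ndN3q0 ndN2q2a pcN2 Cut.none Ext.none :=
  certNK0 (fam := false) (s1 := true) (s2 := false) (a := 0) (b := 2) (c := 2) (cn := .pp) (n1 := ndN3q0) (n2 := ndN2q2a) (pc := pcN2) (cut := Cut.none) (xt := Ext.none) (P1 := 0) (W1 := 536870912) (P2 := 0) (W2 := 536870912) (P3 := 67108864) (W3 := 67108864) (N0 := 3)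
    rfl rfl rfl k0_pm_022_a

noncomputable def f_pm_022_b : ℕ → ℕ → ℕ → ℕ → Bool := onCell 0 536870912 1239849684 370763052 67108864 67108864
    (rowNK 3 0 false true false .pp 0 2 2 (qsf 0 536870912 1239849684 370763052 2) ndN3q0 ndN2q2b pcN2 Cut.none Ext.none)

def k0_pm_022_b : ∃ t, chk3 f_pm_022_b t 1 1 1 = true :=
  ⟨(l 4), by decide +kernel⟩

theorem c_pm_022_b : CertN 0 536870912 1239849684 370763052 67108864 67108864 3 false true false .pp 0 2 2
    ndN3q0 ndN2q2b pcN2 Cut.none Ext.none :=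
  certNK0 (fam := false) (s1 := true) (s2 := false) (a := 0) (b := 2) (c := 2) (cn := .pp) (n1 := ndN3q0) (n2 := ndN2q2b) (pc := pcN2) (cut := Cut.none) (xt := Ext.none) (P1 := 0) (W1 := 536870912) (P2 := 1239849684) (W2 := 370763052) (P3 := 67108864) (W3 := 67108864) (N0 := 3)
    rfl rfl rfl k0_pm_022_b

noncomputable def f_pm_023 : ℕ → ℕ → ℕ → ℕ → Bool := onCell 0 536870912 1610612736 536870912 67108864 67108864
    (rowNK 3 0 false true false .up 0 2 3 (qsf 0 536870912 1610612736 536870912 2) ndN3q0 ndN2q3 pcN2 Cut.none Ext.none)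

def k0_pm_023 : ∃ t, chk3 f_pm_023 t 1 1 1 = true :=
  ⟨(l 4), by decide +kernel⟩

theorem c_pm_023 : CertN 0 536870912 1610612736 536870912 67108864 67108864 3 false true false .up 0 2 3
    ndN3q0 ndN2q3 pcN2 Cut.none Ext.none :=
  certNK0 (fam := false) (s1 := true) (s2 := false) (a := 0) (b := 2) (c := 3) (cn := .up) (n1 := ndN3q0) (n2 := ndN2q3) (pc := pcN2) (cut := Cut.none) (xt := Ext.none) (P1 := 0) (W1 := 536870912) (P2 := 1610612736) (W2 := 536870912) (P3 := 67108864) (W3 := 67108864) (N0 := 3)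
    rfl rfl rfl k0_pm_023

noncomputable def f_pm_033 : ℕ → ℕ → ℕ → ℕ → Bool := onCell 0 536870912 1610612736 536870912 67108864 67108864
    (rowNK 3 0 false true false .pnn 0 3 3 (qsf 0 536870912 1610612736 536870912 3) ndN3q0 ndN2q3 pcN3 Cut.none Ext.none)

def k0_pm_033 : ∃ t, chk3 f_pm_033 t 1 1 1 = true :=
  ⟨(l 4), by decide +kernel⟩

theorem c_pm_033 : CertN 0 536870912 1610612736 536870912 67108864 67108864 3 false true false .pnn 0 3 3
    ndN3q0 ndN2q3 pcN3 Cut.none Ext.none :=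
  certNK0 (fam := false) (s1 := true) (s2 := false) (a := 0) (b := 3) (c := 3) (cn := .pnn) (n1 := ndN3q0) (n2 := ndN2q3) (pc := pcN3) (cut := Cut.none) (xt := Ext.none) (P1 := 0) (W1 := 536870912) (P2 := 1610612736) (W2 := 536870912) (P3 := 67108864) (W3 := 67108864) (N0 := 3)
    rfl rfl rfl k0_pm_033

noncomputable def f_pm_101 : ℕ → ℕ → ℕ → ℕ → Bool := onCell 536870912 536870912 536870912 536870912 67108864 67108864
    (rowNK 3 0 false true false .npn 1 0 1 (qsf 536870912 536870912 536870912 536870912 0) ndN3q1 ndN2q1 pcN0 Cut.none Ext.none)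

def k0_pm_101 : ∃ t, chk3 f_pm_101 t 1 1 1 = true :=
  ⟨(l 4), by decide +kernel⟩

theorem c_pm_101 : CertN 536870912 536870912 536870912 536870912 67108864 67108864 3 false true false .npn 1 0 1
    ndN3q1 ndN2q1 pcN0 Cut.none Ext.none :=
  certNK0 (fam := false) (s1 := true) (s2 := false) (a := 1) (b := 0) (c := 1) (cn := .npn) (n1 := ndN3q1) (n2 := ndN2q1) (pc := pcN0) (cut := Cut.none) (xt := Ext.none) (P1 := 536870912) (W1 := 536870912) (P2 := 536870912) (W2 := 536870912) (P3 := 67108864) (W3 := 67108864) (N0 := 3)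
    rfl rfl rfl k0_pm_101

noncomputable def f_pm_102_a : ℕ → ℕ → ℕ → ℕ → Bool := onCell 536870912 536870912 0 536870912 67108864 67108864
    (rowNK 3 0 false true false .npp 1 0 2 (qsf 536870912 536870912 0 536870912 0) ndN3q1 ndN2q2a pcN0 Cut.none Ext.none)

def k0_pm_102_a : ∃ t, chk3 f_pm_102_a t 1 1 1 = true :=
  ⟨(l 4), by decide +kernel⟩

theorem c_pm_102_a : CertN 536870912 536870912 0 536870912 67108864 67108864 3 false true false .npp 1 0 2
    ndN3q1 ndN2q2a pcN0 Cut.none Ext.none :=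
  certNK0 (fam := false) (s1 := true) (s2 := false) (a := 1) (b := 0) (c := 2) (cn := .npp) (n1 := ndN3q1) (n2 := ndN2q2a) (pc := pcN0) (cut := Cut.none) (xt := Ext.none) (P1 := 536870912) (W1 := 536870912) (P2 := 0) (W2 := 536870912) (P3 := 67108864) (W3 := 67108864) (N0 := 3)
    rfl rfl rfl k0_pm_102_a

noncomputable def f_pm_102_b : ℕ → ℕ → ℕ → ℕ → Bool := onCell 536870912 536870912 1239849684 370763052 67108864 67108864
    (rowNK 3 0 false true false .npp 1 0 2 (qsf 536870912 536870912 1239849684 370763052 0) ndN3q1 ndN2q2b pcN0 Cut.none Ext.none)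

def k0_pm_102_b : ∃ t, chk3 f_pm_102_b t 1 1 1 = true :=
  ⟨(l 4), by decide +kernel⟩

theorem c_pm_102_b : CertN 536870912 536870912 1239849684 370763052 67108864 67108864 3 false true false .npp 1 0 2
    ndN3q1 ndN2q2b pcN0 Cut.none Ext.none :=
  certNK0 (fam := false) (s1 := true) (s2 := false) (a := 1) (b := 0) (c := 2) (cn := .npp) (n1 := ndN3q1) (n2 := ndN2q2b) (pc := pcN0) (cut := Cut.none) (xt := Ext.none) (P1 := 536870912) (W1 := 536870912) (P2 := 1239849684) (W2 := 370763052) (P3 := 67108864) (W3 := 67108864) (N0 := 3)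
    rfl rfl rfl k0_pm_102_b

noncomputable def f_pm_112_a : ℕ → ℕ → ℕ → ℕ → Bool := onCell 536870912 536870912 0 536870912 67108864 67108864
    (rowNK 3 0 false true false .dn 1 1 2 (qsf 536870912 536870912 0 536870912 1) ndN3q1 ndN2q2a pcN1 Cut.none Ext.none)

def k0_pm_112_a : ∃ t, chk3 f_pm_112_a t 1 1 1 = true :=
  ⟨(l 4), by decide +kernel⟩

theorem c_pm_112_a : CertN 536870912 536870912 0 536870912 67108864 67108864 3 false true false .dn 1 1 2
    ndN3q1 ndN2q2a pcN1 Cut.none Ext.none :=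
  certNK0 (fam := false) (s1 := true) (s2 := false) (a := 1) (b := 1) (c := 2) (cn := .dn) (n1 := ndN3q1) (n2 := ndN2q2a) (pc := pcN1) (cut := Cut.none) (xt := Ext.none) (P1 := 536870912) (W1 := 536870912) (P2 := 0) (W2 := 536870912) (P3 := 67108864) (W3 := 67108864) (N0 := 3)
    rfl rfl rfl k0_pm_112_a

noncomputable def f_pm_112_b : ℕ → ℕ → ℕ → ℕ → Bool := onCell 536870912 536870912 1239849684 370763052 67108864 67108864
    (rowNK 3 0 false true false .dn 1 1 2 (qsf 536870912 536870912 1239849684 370763052 1) ndN3q1 ndN2q2b pcN1 Cut.none Ext.none)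

def k0_pm_112_b : ∃ t, chk3 f_pm_112_b t 1 1 1 = true :=
  ⟨(l 4), by decide +kernel⟩

theorem c_pm_112_b : CertN 536870912 536870912 1239849684 370763052 67108864 67108864 3 false true false .dn 1 1 2
    ndN3q1 ndN2q2b pcN1 Cut.none Ext.none :=
  certNK0 (fam := false) (s1 := true) (s2 := false) (a := 1) (b := 1) (c := 2) (cn := .dn) (n1 := ndN3q1) (n2 := ndN2q2b) (pc := pcN1) (cut := Cut.none) (xt := Ext.none) (P1 := 536870912) (W1 := 536870912) (P2 := 1239849684) (W2 := 370763052) (P3 := 67108864) (W3 := 67108864) (N0 := 3)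
    rfl rfl rfl k0_pm_112_b

noncomputable def f_pm_113 : ℕ → ℕ → ℕ → ℕ → Bool := onCell 536870912 536870912 536870912 536870912 67108864 67108864
    (rowNK 3 1 false true false .nn 1 1 3 (qsf 536870912 536870912 1610612736 536870912 1) ndN3q1 ndN2q3 pcN1 Cut.none Ext.none)

def k0_pm_113 : ∃ t, chk3 f_pm_113 t 1 1 1 = true :=
  ⟨(a (l 4) (b (l 4) (b (l 4) (b (l 4) (b (l 4) (l 17389688)))))), by decide +kernel⟩

theorem c_pm_113 : CertN 536870912 536870912 1610612736 536870912 67108864 67108864 3 false true false .nn 1 1 3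
    ndN3q1 ndN2q3 pcN1 Cut.none Ext.none :=
  certNK1 (fam := false) (s1 := true) (s2 := false) (a := 1) (b := 1) (c := 3) (cn := .nn) (n1 := ndN3q1) (n2 := ndN2q3) (pc := pcN1) (cut := Cut.none) (xt := Ext.none) (P1 := 536870912) (W1 := 536870912) (P2 := 1610612736) (W2 := 536870912) (P3 := 67108864) (W3 := 67108864) (N0 := 3)
    rfl rfl rfl (fun _ => rfl) k0_pm_113

noncomputable def f_pm_123 : ℕ → ℕ → ℕ → ℕ → Bool := onCell 1073741824 536870912 1610612736 536870912 67108864 67108864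
    (rowNK 3 2 false true false .npn 1 2 3 (qsf 536870912 536870912 1610612736 536870912 2) ndN3q1 ndN2q3 pcN2 Cut.none Ext.none)

def k0_pm_123 : ∃ t, chk3 f_pm_123 t 1 1 1 = true :=
  ⟨(a (b (l 4) (b (l 4) (l 17052304))) (l 4)), by decide +kernel⟩

theorem c_pm_123 : CertN 536870912 536870912 1610612736 536870912 67108864 67108864 3 false true false .npn 1 2 3
    ndN3q1 ndN2q3 pcN2 Cut.none Ext.none :=
  certNK2 (fam := false) (s1 := true) (s2 := false) (a := 1) (b := 2) (c := 3) (cn := .npn) (n1 := ndN3q1) (n2 := ndN2q3) (pc := pcN2) (cut := Cut.none) (xt := Ext.none) (P1 := 536870912) (W1 := 536870912) (P2 := 1610612736) (W2 := 536870912) (P3 := 67108864) (W3 := 67108864) (N0 := 3)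
    rfl rfl rfl (fun _ => rfl) k0_pm_123

noncomputable def f_pm_133 : ℕ → ℕ → ℕ → ℕ → Bool := onCell 536870912 536870912 1610612736 536870912 67108864 67108864
    (rowNK 3 0 false true false .dn 1 3 3 (qsf 536870912 536870912 1610612736 536870912 3) ndN3q1 ndN2q3 pcN3 Cut.none Ext.none)

def k0_pm_133 : ∃ t, chk3 f_pm_133 t 1 1 1 = true :=
  ⟨(a (l 4) (l 1)), by decide +kernel⟩

theorem c_pm_133 : CertN 536870912 536870912 1610612736 536870912 67108864 67108864 3 false true false .dn 1 3 3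
    ndN3q1 ndN2q3 pcN3 Cut.none Ext.none :=
  certNK0 (fam := false) (s1 := true) (s2 := false) (a := 1) (b := 3) (c := 3) (cn := .dn) (n1 := ndN3q1) (n2 := ndN2q3) (pc := pcN3) (cut := Cut.none) (xt := Ext.none) (P1 := 536870912) (W1 := 536870912) (P2 := 1610612736) (W2 := 536870912) (P3 := 67108864) (W3 := 67108864) (N0 := 3)
    rfl rfl rfl k0_pm_133

noncomputable def f_pm_202_a : ℕ → ℕ → ℕ → ℕ → Bool := onCell 1073741824 536870912 0 536870912 67108864 67108864
    (rowNK 3 0 false true false .pp 2 0 2 (qsf 1073741824 536870912 0 536870912 0) ndN3q2 ndN2q2a pcN0 Cut.none Ext.none)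

def k0_pm_202_a : ∃ t, chk3 f_pm_202_a t 1 1 1 = true :=
  ⟨(a (b (a (a (b (l 18479936) (l 18610520)) (l 18728176)) (l 18911344)) (a (b (l 18890192) (b (l 19094824) (l 19275120))) (b (l 1) (l 1)))) (l 1)), by decide +kernel⟩

theorem c_pm_202_a : CertN 1073741824 536870912 0 536870912 67108864 67108864 3 false true false .pp 2 0 2
    ndN3q2 ndN2q2a pcN0 Cut.none Ext.none :=
  certNK0 (fam := false) (s1 := true) (s2 := false) (a := 2) (b := 0) (c := 2) (cn := .pp) (n1 := ndN3q2) (n2 := ndN2q2a) (pc := pcN0) (cut := Cut.none) (xt := Ext.none) (P1 := 1073741824) (W1 := 536870912) (P2 := 0) (W2 := 536870912) (P3 := 67108864) (W3 := 67108864) (N0 := 3)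
    rfl rfl rfl k0_pm_202_a

noncomputable def f_pm_202_b : ℕ → ℕ → ℕ → ℕ → Bool := onCell 0 536870912 1239849684 370763052 67108864 67108864
    (rowNK 3 2 false true false .pp 2 0 2 (qsf 1073741824 536870912 1239849684 370763052 0) ndN3q2 ndN2q2b pcN0 Cut.none Ext.none)

def k0_pm_202_b : ∃ t, chk3 f_pm_202_b t 1 1 1 = true :=
  ⟨(a (a (b (a (b (l 18412272) (l 17842664)) (l 18295752)) (a (l 17616136) (l 17787704))) (b (b (l 18569600) (l 18017360)) (b (l 17861944) (l 17828496)))) (a (b (b (l 1) (l 18128256)) (b (l 18076448) (l 17600760))) (b (l 1) (b (l 376383290839) (l 17739680))))), by decide +kernel⟩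

theorem c_pm_202_b : CertN 1073741824 536870912 1239849684 370763052 67108864 67108864 3 false true false .pp 2 0 2
    ndN3q2 ndN2q2b pcN0 Cut.none Ext.none :=
  certNK2 (fam := false) (s1 := true) (s2 := false) (a := 2) (b := 0) (c := 2) (cn := .pp) (n1 := ndN3q2) (n2 := ndN2q2b) (pc := pcN0) (cut := Cut.none) (xt := Ext.none) (P1 := 1073741824) (W1 := 536870912) (P2 := 1239849684) (W2 := 370763052) (P3 := 67108864) (W3 := 67108864) (N0 := 3)
    rfl rfl rfl (fun _ => rfl) k0_pm_202_b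

noncomputable def f_pm_203 : ℕ → ℕ → ℕ → ℕ → Bool := onCell 0 536870912 1610612736 536870912 67108864 67108864
    (rowNK 3 2 false true false .up 2 0 3 (qsf 1073741824 536870912 1610612736 536870912 0) ndN3q2 ndN2q3 pcN0 Cut.none Ext.none)

def k0_pm_203 : ∃ t, chk3 f_pm_203 t 1 1 1 = true :=
  ⟨(a (b (a (b (a (l 317934144599) (l 19114224)) (l 410274820391)) (b (a (l 18731264) (l 18370088)) (l 323837645591))) (b (a (l 2) (l 432284584279)) (l 2))) (b (a (b (l 18538040) (l 17968568)) (b (l 18606544) (b (l 17895992) (l 17487568)))) (b (a (l 206865382983) (l 17434744)) (a (l 3) (l 215454499223))))), by decide +kernel⟩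

theorem c_pm_203 : CertN 1073741824 536870912 1610612736 536870912 67108864 67108864 3 false true false .up 2 0 3
    ndN3q2 ndN2q3 pcN0 Cut.none Ext.none :=
  certNK2 (fam := false) (s1 := true) (s2 := false) (a := 2) (b := 0) (c := 3) (cn := .up) (n1 := ndN3q2) (n2 := ndN2q3) (pc := pcN0) (cut := Cut.none) (xt := Ext.none) (P1 := 1073741824) (W1 := 536870912) (P2 := 1610612736) (W2 := 536870912) (P3 := 67108864) (W3 := 67108864) (N0 := 3)
    rfl rfl rfl (fun _ => rfl) k0_pm_203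

noncomputable def f_pm_213 : ℕ → ℕ → ℕ → ℕ → Bool := onCell 536870912 536870912 1610612736 536870912 67108864 67108864
    (rowNK 3 2 false true false .pnn 2 1 3 (qsf 1073741824 536870912 1610612736 536870912 1) ndN3q2 ndN2q3 pcN1 Cut.none Ext.none)

def k0_pm_213 : ∃ t, chk3 f_pm_213 t 1 1 1 = true :=
  ⟨(a (b (a (b (l 17737560) (l 17985392)) (b (l 17552048) (l 17615888))) (a (b (l 17812456) (l 17752720)) (b (l 17754152) (l 17427824)))) (b (a (b (l 1) (a (l 17254560) (l 1))) (l 1)) (a (b (l 17546584) (l 17392992)) (b (a (l 17148264) (l 1)) (l 17172720))))), by decide +kernel⟩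

theorem c_pm_213 : CertN 1073741824 536870912 1610612736 536870912 67108864 67108864 3 false true false .pnn 2 1 3
    ndN3q2 ndN2q3 pcN1 Cut.none Ext.none :=
  certNK2 (fam := false) (s1 := true) (s2 := false) (a := 2) (b := 1) (c := 3) (cn := .pnn) (n1 := ndN3q2) (n2 := ndN2q3) (pc := pcN1) (cut := Cut.none) (xt := Ext.none) (P1 := 1073741824) (W1 := 536870912) (P2 := 1610612736) (W2 := 536870912) (P3 := 67108864) (W3 := 67108864) (N0 := 3)
    rfl rfl rfl (fun _ => rfl) k0_pm_213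

noncomputable def f_pm_303 : ℕ → ℕ → ℕ → ℕ → Bool := onCell 0 1230186008 1610612736 536870912 67108864 67108864
    (rowNK 3 0 false true false .npn 3 0 3 (qsf 0 1230186008 1610612736 536870912 0) ndN3q3 ndN2q3 pcN0 Cut.none Ext.none)

def k0_pm_303 : ∃ t, chk3 f_pm_303 t 1 1 1 = true :=
  ⟨(a (l 3) (a (b (l 3) (l 3)) (b (a (b (l 1) (l 3)) (b (a (b (l 1) (b (l 18918896) (l 18472496))) (b (l 348466125815) (l 317864150567))) (a (l 311018185639) (b (l 17456096) (l 16984656))))) (a (l 3) (b (l 3) (l 3)))))), by decide +kernel⟩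

theorem c_pm_303 : CertN 0 1230186008 1610612736 536870912 67108864 67108864 3 false true false .npn 3 0 3
    ndN3q3 ndN2q3 pcN0 Cut.none Ext.none :=
  certNK0 (fam := false) (s1 := true) (s2 := false) (a := 3) (b := 0) (c := 3) (cn := .npn) (n1 := ndN3q3) (n2 := ndN2q3) (pc := pcN0) (cut := Cut.none) (xt := Ext.none) (P1 := 0) (W1 := 1230186008) (P2 := 1610612736) (W2 := 536870912) (P3 := 67108864) (W3 := 67108864) (N0 := 3)
    rfl rfl rfl k0_pm_303

noncomputable def f_pm_313 : ℕ → ℕ → ℕ → ℕ → Bool := onCell 0 1230186008 1610612736 536870912 67108864 67108864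
    (rowNK 3 0 false true false .dn 3 1 3 (qsf 0 1230186008 1610612736 536870912 1) ndN3q3 ndN2q3 pcN1 Cut.none Ext.none)

def k0_pm_313 : ∃ t, chk3 f_pm_313 t 1 1 1 = true :=
  ⟨(a (l 1) (b (l 1) (b (l 1) (l 3)))), by decide +kernel⟩

theorem c_pm_313 : CertN 0 1230186008 1610612736 536870912 67108864 67108864 3 false true false .dn 3 1 3
    ndN3q3 ndN2q3 pcN1 Cut.none Ext.none :=
  certNK0 (fam := false) (s1 := true) (s2 := false) (a := 3) (b := 1) (c := 3) (cn := .dn) (n1 := ndN3q3) (n2 := ndN2q3) (pc := pcN1) (cut := Cut.none) (xt := Ext.none) (P1 := 0) (W1 := 1230186008) (P2 := 1610612736) (W2 := 536870912) (P3 := 67108864) (W3 := 67108864) (N0 := 3)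
    rfl rfl rfl k0_pm_313

noncomputable def f_mm_001 : ℕ → ℕ → ℕ → ℕ → Bool := onCell 0 536870912 536870912 536870912 67108864 67108864
    (rowNK 3 0 false false false .up 0 0 1 (qsf 0 536870912 536870912 536870912 0) ndN3q0 ndN2q1 pcN0 Cut.none Ext.none)

def k0_mm_001 : ∃ t, chk3 f_mm_001 t 1 1 1 = true :=
  ⟨(l 3), by decide +kernel⟩

theorem c_mm_001 : CertN 0 536870912 536870912 536870912 67108864 67108864 3 false false false .up 0 0 1
    ndN3q0 ndN2q1 pcN0 Cut.none Ext.none :=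
  certNK0 (fam := false) (s1 := false) (s2 := false) (a := 0) (b := 0) (c := 1) (cn := .up) (n1 := ndN3q0) (n2 := ndN2q1) (pc := pcN0) (cut := Cut.none) (xt := Ext.none) (P1 := 0) (W1 := 536870912) (P2 := 536870912) (W2 := 536870912) (P3 := 67108864) (W3 := 67108864) (N0 := 3)
    rfl rfl rfl k0_mm_001

noncomputable def f_mm_011 : ℕ → ℕ → ℕ → ℕ → Bool := onCell 0 536870912 536870912 536870912 67108864 67108864
    (rowNK 3 0 false false false .pnn 0 1 1 (qsf 0 536870912 536870912 536870912 1) ndN3q0 ndN2q1 pcN1 Cut.none Ext.none)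

def k0_mm_011 : ∃ t, chk3 f_mm_011 t 1 1 1 = true :=
  ⟨(l 3), by decide +kernel⟩

theorem c_mm_011 : CertN 0 536870912 536870912 536870912 67108864 67108864 3 false false false .pnn 0 1 1
    ndN3q0 ndN2q1 pcN1 Cut.none Ext.none :=
  certNK0 (fam := false) (s1 := false) (s2 := false) (a := 0) (b := 1) (c := 1) (cn := .pnn) (n1 := ndN3q0) (n2 := ndN2q1) (pc := pcN1) (cut := Cut.none) (xt := Ext.none) (P1 := 0) (W1 := 536870912) (P2 := 536870912) (W2 := 536870912) (P3 := 67108864) (W3 := 67108864) (N0 := 3)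
    rfl rfl rfl k0_mm_011

noncomputable def f_mm_012_a : ℕ → ℕ → ℕ → ℕ → Bool := onCell 0 536870912 0 536870912 67108864 67108864
    (rowNK 3 0 false false false .pnp 0 1 2 (qsf 0 536870912 0 536870912 1) ndN3q0 ndN2q2a pcN1 Cut.none Ext.none)

def k0_mm_012_a : ∃ t, chk3 f_mm_012_a t 1 1 1 = true :=
  ⟨(l 5), by decide +kernel⟩

theorem c_mm_012_a : CertN 0 536870912 0 536870912 67108864 67108864 3 false false false .pnp 0 1 2
    ndN3q0 ndN2q2a pcN1 Cut.none Ext.none :=
  certNK0 (fam := false) (s1 := false) (s2 := false) (a := 0) (b := 1) (c := 2) (cn := .pnp) (n1 := ndN3q0) (n2 := ndN2q2a) (pc := pcN1) (cut := Cut.none) (xt := Ext.none) (P1 := 0) (W1 := 536870912) (P2 := 0) (W2 := 536870912) (P3 := 67108864) (W3 := 67108864) (N0 := 3)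
    rfl rfl rfl k0_mm_012_a

noncomputable def f_mm_012_b : ℕ → ℕ → ℕ → ℕ → Bool := onCell 0 536870912 1239849684 370763052 67108864 67108864
    (rowNK 3 0 false false false .pnp 0 1 2 (qsf 0 536870912 1239849684 370763052 1) ndN3q0 ndN2q2b pcN1 Cut.none Ext.none)

def k0_mm_012_b : ∃ t, chk3 f_mm_012_b t 1 1 1 = true :=
  ⟨(l 5), by decide +kernel⟩

theorem c_mm_012_b : CertN 0 536870912 1239849684 370763052 67108864 67108864 3 false false false .pnp 0 1 2
    ndN3q0 ndN2q2b pcN1 Cut.none Ext.none :=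
  certNK0 (fam := false) (s1 := false) (s2 := false) (a := 0) (b := 1) (c := 2) (cn := .pnp) (n1 := ndN3q0) (n2 := ndN2q2b) (pc := pcN1) (cut := Cut.none) (xt := Ext.none) (P1 := 0) (W1 := 536870912) (P2 := 1239849684) (W2 := 370763052) (P3 := 67108864) (W3 := 67108864) (N0 := 3)
    rfl rfl rfl k0_mm_012_b

noncomputable def f_mm_022_a : ℕ → ℕ → ℕ → ℕ → Bool := onCell 0 536870912 0 536870912 67108864 67108864
    (rowNK 3 0 false false false .pp 0 2 2 (qsf 0 536870912 0 536870912 2) ndN3q0 ndN2q2a pcN2 Cut.none Ext.none)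

def k0_mm_022_a : ∃ t, chk3 f_mm_022_a t 1 1 1 = true :=
  ⟨(l 5), by decide +kernel⟩

theorem c_mm_022_a : CertN 0 536870912 0 536870912 67108864 67108864 3 false false false .pp 0 2 2
    ndN3q0 ndN2q2a pcN2 Cut.none Ext.none :=
  certNK0 (fam := false) (s1 := false) (s2 := false) (a := 0) (b := 2) (c := 2) (cn := .pp) (n1 := ndN3q0) (n2 := ndN2q2a) (pc := pcN2) (cut := Cut.none) (xt := Ext.none) (P1 := 0) (W1 := 536870912) (P2 := 0) (W2 := 536870912) (P3 := 67108864) (W3 := 67108864) (N0 := 3)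
    rfl rfl rfl k0_mm_022_a

noncomputable def f_mm_022_b : ℕ → ℕ → ℕ → ℕ → Bool := onCell 0 536870912 1239849684 370763052 67108864 67108864
    (rowNK 3 0 false false false .pp 0 2 2 (qsf 0 536870912 1239849684 370763052 2) ndN3q0 ndN2q2b pcN2 Cut.none Ext.none)

def k0_mm_022_b : ∃ t, chk3 f_mm_022_b t 1 1 1 = true :=
  ⟨(l 5), by decide +kernel⟩

theorem c_mm_022_b : CertN 0 536870912 1239849684 370763052 67108864 67108864 3 false false false .pp 0 2 2
    ndN3q0 ndN2q2b pcN2 Cut.none Ext.none :=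
  certNK0 (fam := false) (s1 := false) (s2 := false) (a := 0) (b := 2) (c := 2) (cn := .pp) (n1 := ndN3q0) (n2 := ndN2q2b) (pc := pcN2) (cut := Cut.none) (xt := Ext.none) (P1 := 0) (W1 := 536870912) (P2 := 1239849684) (W2 := 370763052) (P3 := 67108864) (W3 := 67108864) (N0 := 3)
    rfl rfl rfl k0_mm_022_b

noncomputable def f_mm_023 : ℕ → ℕ → ℕ → ℕ → Bool := onCell 0 536870912 1610612736 536870912 67108864 67108864
    (rowNK 3 0 false false false .up 0 2 3 (qsf 0 536870912 1610612736 536870912 2) ndN3q0 ndN2q3 pcN2 Cut.none Ext.none)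

def k0_mm_023 : ∃ t, chk3 f_mm_023 t 1 1 1 = true :=
  ⟨(l 5), by decide +kernel⟩

theorem c_mm_023 : CertN 0 536870912 1610612736 536870912 67108864 67108864 3 false false false .up 0 2 3
    ndN3q0 ndN2q3 pcN2 Cut.none Ext.none :=
  certNK0 (fam := false) (s1 := false) (s2 := false) (a := 0) (b := 2) (c := 3) (cn := .up) (n1 := ndN3q0) (n2 := ndN2q3) (pc := pcN2) (cut := Cut.none) (xt := Ext.none) (P1 := 0) (W1 := 536870912) (P2 := 1610612736) (W2 := 536870912) (P3 := 67108864) (W3 := 67108864) (N0 := 3)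
    rfl rfl rfl k0_mm_023

noncomputable def f_mm_033 : ℕ → ℕ → ℕ → ℕ → Bool := onCell 0 536870912 1610612736 536870912 67108864 67108864
    (rowNK 3 0 false false false .pnn 0 3 3 (qsf 0 536870912 1610612736 536870912 3) ndN3q0 ndN2q3 pcN3 Cut.none Ext.none)

def k0_mm_033 : ∃ t, chk3 f_mm_033 t 1 1 1 = true :=
  ⟨(l 5), by decide +kernel⟩

theorem c_mm_033 : CertN 0 536870912 1610612736 536870912 67108864 67108864 3 false false false .pnn 0 3 3
    ndN3q0 ndN2q3 pcN3 Cut.none Ext.none :=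
  certNK0 (fam := false) (s1 := false) (s2 := false) (a := 0) (b := 3) (c := 3) (cn := .pnn) (n1 := ndN3q0) (n2 := ndN2q3) (pc := pcN3) (cut := Cut.none) (xt := Ext.none) (P1 := 0) (W1 := 536870912) (P2 := 1610612736) (W2 := 536870912) (P3 := 67108864) (W3 := 67108864) (N0 := 3)
    rfl rfl rfl k0_mm_033

noncomputable def f_mm_101 : ℕ → ℕ → ℕ → ℕ → Bool := onCell 536870912 536870912 536870912 536870912 67108864 67108864
    (rowNK 3 0 false false false .npn 1 0 1 (qsf 536870912 536870912 536870912 536870912 0) ndN3q1 ndN2q1 pcN0 Cut.none Ext.none)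

def k0_mm_101 : ∃ t, chk3 f_mm_101 t 1 1 1 = true :=
  ⟨(l 3), by decide +kernel⟩

theorem c_mm_101 : CertN 536870912 536870912 536870912 536870912 67108864 67108864 3 false false false .npn 1 0 1
    ndN3q1 ndN2q1 pcN0 Cut.none Ext.none :=
  certNK0 (fam := false) (s1 := false) (s2 := false) (a := 1) (b := 0) (c := 1) (cn := .npn) (n1 := ndN3q1) (n2 := ndN2q1) (pc := pcN0) (cut := Cut.none) (xt := Ext.none) (P1 := 536870912) (W1 := 536870912) (P2 := 536870912) (W2 := 536870912) (P3 := 67108864) (W3 := 67108864) (N0 := 3)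
    rfl rfl rfl k0_mm_101

noncomputable def f_mm_102_a : ℕ → ℕ → ℕ → ℕ → Bool := onCell 536870912 536870912 0 536870912 67108864 67108864
    (rowNK 3 0 false false false .npp 1 0 2 (qsf 536870912 536870912 0 536870912 0) ndN3q1 ndN2q2a pcN0 Cut.none Ext.none)

def k0_mm_102_a : ∃ t, chk3 f_mm_102_a t 1 1 1 = true :=
  ⟨(l 5), by decide +kernel⟩

theorem c_mm_102_a : CertN 536870912 536870912 0 536870912 67108864 67108864 3 false false false .npp 1 0 2
    ndN3q1 ndN2q2a pcN0 Cut.none Ext.none :=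
  certNK0 (fam := false) (s1 := false) (s2 := false) (a := 1) (b := 0) (c := 2) (cn := .npp) (n1 := ndN3q1) (n2 := ndN2q2a) (pc := pcN0) (cut := Cut.none) (xt := Ext.none) (P1 := 536870912) (W1 := 536870912) (P2 := 0) (W2 := 536870912) (P3 := 67108864) (W3 := 67108864) (N0 := 3)
    rfl rfl rfl k0_mm_102_a

noncomputable def f_mm_102_b : ℕ → ℕ → ℕ → ℕ → Bool := onCell 536870912 536870912 1239849684 370763052 67108864 67108864
    (rowNK 3 0 false false false .npp 1 0 2 (qsf 536870912 536870912 1239849684 370763052 0) ndN3q1 ndN2q2b pcN0 Cut.none Ext.none)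

def k0_mm_102_b : ∃ t, chk3 f_mm_102_b t 1 1 1 = true :=
  ⟨(l 5), by decide +kernel⟩

theorem c_mm_102_b : CertN 536870912 536870912 1239849684 370763052 67108864 67108864 3 false false false .npp 1 0 2
    ndN3q1 ndN2q2b pcN0 Cut.none Ext.none :=
  certNK0 (fam := false) (s1 := false) (s2 := false) (a := 1) (b := 0) (c := 2) (cn := .npp) (n1 := ndN3q1) (n2 := ndN2q2b) (pc := pcN0) (cut := Cut.none) (xt := Ext.none) (P1 := 536870912) (W1 := 536870912) (P2 := 1239849684) (W2 := 370763052) (P3 := 67108864) (W3 := 67108864) (N0 := 3)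
    rfl rfl rfl k0_mm_102_b

noncomputable def f_mm_112_a : ℕ → ℕ → ℕ → ℕ → Bool := onCell 536870912 536870912 0 536870912 67108864 67108864
    (rowNK 3 0 false false false .dn 1 1 2 (qsf 536870912 536870912 0 536870912 1) ndN3q1 ndN2q2a pcN1 Cut.none Ext.none)

def k0_mm_112_a : ∃ t, chk3 f_mm_112_a t 1 1 1 = true :=
  ⟨(l 5), by decide +kernel⟩

theorem c_mm_112_a : CertN 536870912 536870912 0 536870912 67108864 67108864 3 false false false .dn 1 1 2
    ndN3q1 ndN2q2a pcN1 Cut.none Ext.none :=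
  certNK0 (fam := false) (s1 := false) (s2 := false) (a := 1) (b := 1) (c := 2) (cn := .dn) (n1 := ndN3q1) (n2 := ndN2q2a) (pc := pcN1) (cut := Cut.none) (xt := Ext.none) (P1 := 536870912) (W1 := 536870912) (P2 := 0) (W2 := 536870912) (P3 := 67108864) (W3 := 67108864) (N0 := 3)
    rfl rfl rfl k0_mm_112_a

noncomputable def f_mm_112_b : ℕ → ℕ → ℕ → ℕ → Bool := onCell 536870912 536870912 1239849684 370763052 67108864 67108864
    (rowNK 3 0 false false false .dn 1 1 2 (qsf 536870912 536870912 1239849684 370763052 1) ndN3q1 ndN2q2b pcN1 Cut.none Ext.none)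

def k0_mm_112_b : ∃ t, chk3 f_mm_112_b t 1 1 1 = true :=
  ⟨(l 5), by decide +kernel⟩

theorem c_mm_112_b : CertN 536870912 536870912 1239849684 370763052 67108864 67108864 3 false false false .dn 1 1 2
    ndN3q1 ndN2q2b pcN1 Cut.none Ext.none :=
  certNK0 (fam := false) (s1 := false) (s2 := false) (a := 1) (b := 1) (c := 2) (cn := .dn) (n1 := ndN3q1) (n2 := ndN2q2b) (pc := pcN1) (cut := Cut.none) (xt := Ext.none) (P1 := 536870912) (W1 := 536870912) (P2 := 1239849684) (W2 := 370763052) (P3 := 67108864) (W3 := 67108864) (N0 := 3)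
    rfl rfl rfl k0_mm_112_b

noncomputable def f_mm_113 : ℕ → ℕ → ℕ → ℕ → Bool := onCell 536870912 536870912 1610612736 536870912 67108864 67108864
    (rowNK 3 0 false false false .nn 1 1 3 (qsf 536870912 536870912 1610612736 536870912 1) ndN3q1 ndN2q3 pcN1 Cut.none Ext.none)

def k0_mm_113 : ∃ t, chk3 f_mm_113 t 1 1 1 = true :=
  ⟨(l 5), by decide +kernel⟩

theorem c_mm_113 : CertN 536870912 536870912 1610612736 536870912 67108864 67108864 3 false false false .nn 1 1 3
    ndN3q1 ndN2q3 pcN1 Cut.none Ext.none :=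
  certNK0 (fam := false) (s1 := false) (s2 := false) (a := 1) (b := 1) (c := 3) (cn := .nn) (n1 := ndN3q1) (n2 := ndN2q3) (pc := pcN1) (cut := Cut.none) (xt := Ext.none) (P1 := 536870912) (W1 := 536870912) (P2 := 1610612736) (W2 := 536870912) (P3 := 67108864) (W3 := 67108864) (N0 := 3)
    rfl rfl rfl k0_mm_113

noncomputable def f_mm_123 : ℕ → ℕ → ℕ → ℕ → Bool := onCell 536870912 536870912 1610612736 536870912 67108864 67108864
    (rowNK 3 0 false false false .npn 1 2 3 (qsf 536870912 536870912 1610612736 536870912 2) ndN3q1 ndN2q3 pcN2 Cut.none Ext.none)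

def k0_mm_123 : ∃ t, chk3 f_mm_123 t 1 1 1 = true :=
  ⟨(l 5), by decide +kernel⟩

theorem c_mm_123 : CertN 536870912 536870912 1610612736 536870912 67108864 67108864 3 false false false .npn 1 2 3
    ndN3q1 ndN2q3 pcN2 Cut.none Ext.none :=
  certNK0 (fam := false) (s1 := false) (s2 := false) (a := 1) (b := 2) (c := 3) (cn := .npn) (n1 := ndN3q1) (n2 := ndN2q3) (pc := pcN2) (cut := Cut.none) (xt := Ext.none) (P1 := 536870912) (W1 := 536870912) (P2 := 1610612736) (W2 := 536870912) (P3 := 67108864) (W3 := 67108864) (N0 := 3)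
    rfl rfl rfl k0_mm_123

noncomputable def f_mm_133 : ℕ → ℕ → ℕ → ℕ → Bool := onCell 536870912 536870912 1610612736 536870912 67108864 67108864
    (rowNK 3 0 false false false .dn 1 3 3 (qsf 536870912 536870912 1610612736 536870912 3) ndN3q1 ndN2q3 pcN3 Cut.none Ext.none)

def k0_mm_133 : ∃ t, chk3 f_mm_133 t 1 1 1 = true :=
  ⟨(l 5), by decide +kernel⟩

theorem c_mm_133 : CertN 536870912 536870912 1610612736 536870912 67108864 67108864 3 false false false .dn 1 3 3
    ndN3q1 ndN2q3 pcN3 Cut.none Ext.none :=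
  certNK0 (fam := false) (s1 := false) (s2 := false) (a := 1) (b := 3) (c := 3) (cn := .dn) (n1 := ndN3q1) (n2 := ndN2q3) (pc := pcN3) (cut := Cut.none) (xt := Ext.none) (P1 := 536870912) (W1 := 536870912) (P2 := 1610612736) (W2 := 536870912) (P3 := 67108864) (W3 := 67108864) (N0 := 3)
    rfl rfl rfl k0_mm_133

noncomputable def f_mm_202_a : ℕ → ℕ → ℕ → ℕ → Bool := onCell 1073741824 536870912 0 536870912 67108864 67108864
    (rowNK 3 0 false false false .pp 2 0 2 (qsf 1073741824 536870912 0 536870912 0) ndN3q2 ndN2q2a pcN0 Cut.none Ext.none)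

def k0_mm_202_a : ∃ t, chk3 f_mm_202_a t 1 1 1 = true :=
  ⟨(l 3), by decide +kernel⟩

theorem c_mm_202_a : CertN 1073741824 536870912 0 536870912 67108864 67108864 3 false false false .pp 2 0 2
    ndN3q2 ndN2q2a pcN0 Cut.none Ext.none :=
  certNK0 (fam := false) (s1 := false) (s2 := false) (a := 2) (b := 0) (c := 2) (cn := .pp) (n1 := ndN3q2) (n2 := ndN2q2a) (pc := pcN0) (cut := Cut.none) (xt := Ext.none) (P1 := 1073741824) (W1 := 536870912) (P2 := 0) (W2 := 536870912) (P3 := 67108864) (W3 := 67108864) (N0 := 3)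
    rfl rfl rfl k0_mm_202_a

noncomputable def f_mm_202_b : ℕ → ℕ → ℕ → ℕ → Bool := onCell 1073741824 536870912 1239849684 370763052 67108864 67108864
    (rowNK 3 0 false false false .pp 2 0 2 (qsf 1073741824 536870912 1239849684 370763052 0) ndN3q2 ndN2q2b pcN0 Cut.none Ext.none)

def k0_mm_202_b : ∃ t, chk3 f_mm_202_b t 1 1 1 = true :=
  ⟨(l 3), by decide +kernel⟩

theorem c_mm_202_b : CertN 1073741824 536870912 1239849684 370763052 67108864 67108864 3 false false false .pp 2 0 2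
    ndN3q2 ndN2q2b pcN0 Cut.none Ext.none :=
  certNK0 (fam := false) (s1 := false) (s2 := false) (a := 2) (b := 0) (c := 2) (cn := .pp) (n1 := ndN3q2) (n2 := ndN2q2b) (pc := pcN0) (cut := Cut.none) (xt := Ext.none) (P1 := 1073741824) (W1 := 536870912) (P2 := 1239849684) (W2 := 370763052) (P3 := 67108864) (W3 := 67108864) (N0 := 3)
    rfl rfl rfl k0_mm_202_b

noncomputable def f_mm_203 : ℕ → ℕ → ℕ → ℕ → Bool := onCell 1073741824 536870912 1610612736 536870912 67108864 67108864
    (rowNK 3 0 false false false .up 2 0 3 (qsf 1073741824 536870912 1610612736 536870912 0) ndN3q2 ndN2q3 pcN0 Cut.none Ext.none)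

def k0_mm_203 : ∃ t, chk3 f_mm_203 t 1 1 1 = true :=
  ⟨(l 5), by decide +kernel⟩

theorem c_mm_203 : CertN 1073741824 536870912 1610612736 536870912 67108864 67108864 3 false false false .up 2 0 3
    ndN3q2 ndN2q3 pcN0 Cut.none Ext.none :=
  certNK0 (fam := false) (s1 := false) (s2 := false) (a := 2) (b := 0) (c := 3) (cn := .up) (n1 := ndN3q2) (n2 := ndN2q3) (pc := pcN0) (cut := Cut.none) (xt := Ext.none) (P1 := 1073741824) (W1 := 536870912) (P2 := 1610612736) (W2 := 536870912) (P3 := 67108864) (W3 := 67108864) (N0 := 3)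
    rfl rfl rfl k0_mm_203

noncomputable def f_mm_213 : ℕ → ℕ → ℕ → ℕ → Bool := onCell 1073741824 536870912 1610612736 536870912 67108864 67108864
    (rowNK 3 0 false false false .pnn 2 1 3 (qsf 1073741824 536870912 1610612736 536870912 1) ndN3q2 ndN2q3 pcN1 Cut.none Ext.none)

def k0_mm_213 : ∃ t, chk3 f_mm_213 t 1 1 1 = true :=
  ⟨(l 5), by decide +kernel⟩

theorem c_mm_213 : CertN 1073741824 536870912 1610612736 536870912 67108864 67108864 3 false false false .pnn 2 1 3
    ndN3q2 ndN2q3 pcN1 Cut.none Ext.none :=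
  certNK0 (fam := false) (s1 := false) (s2 := false) (a := 2) (b := 1) (c := 3) (cn := .pnn) (n1 := ndN3q2) (n2 := ndN2q3) (pc := pcN1) (cut := Cut.none) (xt := Ext.none) (P1 := 1073741824) (W1 := 536870912) (P2 := 1610612736) (W2 := 536870912) (P3 := 67108864) (W3 := 67108864) (N0 := 3)
    rfl rfl rfl k0_mm_213

noncomputable def f_mm_303 : ℕ → ℕ → ℕ → ℕ → Bool := onCell 0 1230186008 1610612736 536870912 67108864 67108864
    (rowNK 3 0 false false false .npn 3 0 3 (qsf 0 1230186008 1610612736 536870912 0) ndN3q3 ndN2q3 pcN0 Cut.none Ext.none)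

def k0_mm_303 : ∃ t, chk3 f_mm_303 t 1 1 1 = true :=
  ⟨(a (l 3) (l 3)), by decide +kernel⟩

theorem c_mm_303 : CertN 0 1230186008 1610612736 536870912 67108864 67108864 3 false false false .npn 3 0 3
    ndN3q3 ndN2q3 pcN0 Cut.none Ext.none :=
  certNK0 (fam := false) (s1 := false) (s2 := false) (a := 3) (b := 0) (c := 3) (cn := .npn) (n1 := ndN3q3) (n2 := ndN2q3) (pc := pcN0) (cut := Cut.none) (xt := Ext.none) (P1 := 0) (W1 := 1230186008) (P2 := 1610612736) (W2 := 536870912) (P3 := 67108864) (W3 := 67108864) (N0 := 3)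
    rfl rfl rfl k0_mm_303

noncomputable def f_mm_313 : ℕ → ℕ → ℕ → ℕ → Bool := onCell 0 1230186008 1610612736 536870912 67108864 67108864
    (rowNK 3 0 false false false .dn 3 1 3 (qsf 0 1230186008 1610612736 536870912 1) ndN3q3 ndN2q3 pcN1 Cut.none Ext.none)

def k0_mm_313 : ∃ t, chk3 f_mm_313 t 1 1 1 = true :=
  ⟨(a (l 1) (l 3)), by decide +kernel⟩

theorem c_mm_313 : CertN 0 1230186008 1610612736 536870912 67108864 67108864 3 false false false .dn 3 1 3
    ndN3q3 ndN2q3 pcN1 Cut.none Ext.none :=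
  certNK0 (fam := false) (s1 := false) (s2 := false) (a := 3) (b := 1) (c := 3) (cn := .dn) (n1 := ndN3q3) (n2 := ndN2q3) (pc := pcN1) (cut := Cut.none) (xt := Ext.none) (P1 := 0) (W1 := 1230186008) (P2 := 1610612736) (W2 := 536870912) (P3 := 67108864) (W3 := 67108864) (N0 := 3)
    rfl rfl rfl k0_mm_313

end Pool.Agent.Strip051.G.I1_16_1_8.Tab.C.NB32

namespace Pool.Agent.Strip051.G.I1_16_1_8.Tab.C.NB33

open Pool.Agent.Strip051.PB Pool.Agent.Strip051.PB.T
open Pool.Agent.Strip051.G.I1_16_1_8.Tab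

noncomputable def f_pp_001 : ℕ → ℕ → ℕ → ℕ → Bool := onCell 0 536870912 536870912 536870912 67108864 67108864
    (rowNK 3 0 false true true .up 0 0 1 (qsf 0 536870912 536870912 536870912 0) ndN3q0 ndN3q1 pcN0 Cut.none Ext.none)

def k0_pp_001 : ∃ t, chk3 f_pp_001 t 1 1 1 = true :=
  ⟨(l 3), by decide +kernel⟩

theorem c_pp_001 : CertN 0 536870912 536870912 536870912 67108864 67108864 3 false true true .up 0 0 1
    ndN3q0 ndN3q1 pcN0 Cut.none Ext.none :=
  certNK0 (fam := false) (s1 := true) (s2 := true) (a := 0) (b := 0) (c := 1) (cn := .up) (n1 := ndN3q0) (n2 := ndN3q1) (pc := pcN0) (cut := Cut.none) (xt := Ext.none) (P1 := 0) (W1 := 536870912) (P2 := 536870912) (W2 := 536870912) (P3 := 67108864) (W3 := 67108864) (N0 := 3)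
    rfl rfl rfl k0_pp_001

noncomputable def f_pp_011 : ℕ → ℕ → ℕ → ℕ → Bool := onCell 0 536870912 536870912 536870912 67108864 67108864
    (rowNK 3 0 false true true .pnn 0 1 1 (qsf 0 536870912 536870912 536870912 1) ndN3q0 ndN3q1 pcN1 Cut.none Ext.none)

def k0_pp_011 : ∃ t, chk3 f_pp_011 t 1 1 1 = true :=
  ⟨(l 3), by decide +kernel⟩

theorem c_pp_011 : CertN 0 536870912 536870912 536870912 67108864 67108864 3 false true true .pnn 0 1 1
    ndN3q0 ndN3q1 pcN1 Cut.none Ext.none :=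
  certNK0 (fam := false) (s1 := true) (s2 := true) (a := 0) (b := 1) (c := 1) (cn := .pnn) (n1 := ndN3q0) (n2 := ndN3q1) (pc := pcN1) (cut := Cut.none) (xt := Ext.none) (P1 := 0) (W1 := 536870912) (P2 := 536870912) (W2 := 536870912) (P3 := 67108864) (W3 := 67108864) (N0 := 3)
    rfl rfl rfl k0_pp_011

noncomputable def f_pp_012 : ℕ → ℕ → ℕ → ℕ → Bool := onCell 0 536870912 536870912 536870912 67108864 67108864
    (rowNK 3 1 false true true .pnp 0 1 2 (qsf 0 536870912 1073741824 536870912 1) ndN3q0 ndN3q2 pcN1 Cut.none Ext.none)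

def k0_pp_012 : ∃ t, chk3 f_pp_012 t 1 1 1 = true :=
  ⟨(b (l 3) (a (b (l 3) (a (l 494630347815) (l 247668507383))) (b (a (l 489796253735) (l 17212352)) (a (b (l 17446080) (l 17571600)) (l 17663744))))), by decide +kernel⟩

theorem c_pp_012 : CertN 0 536870912 1073741824 536870912 67108864 67108864 3 false true true .pnp 0 1 2
    ndN3q0 ndN3q2 pcN1 Cut.none Ext.none :=
  certNK1 (fam := false) (s1 := true) (s2 := true) (a := 0) (b := 1) (c := 2) (cn := .pnp) (n1 := ndN3q0) (n2 := ndN3q2) (pc := pcN1) (cut := Cut.none) (xt := Ext.none) (P1 := 0) (W1 := 536870912) (P2 := 1073741824) (W2 := 536870912) (P3 := 67108864) (W3 := 67108864) (N0 := 3)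
    rfl rfl rfl (fun _ => rfl) k0_pp_012

noncomputable def f_pp_022 : ℕ → ℕ → ℕ → ℕ → Bool := onCell 0 536870912 1073741824 536870912 67108864 67108864
    (rowNK 3 1 false true true .pp 0 2 2 (qsf 0 536870912 1073741824 536870912 2) ndN3q0 ndN3q2 pcN2 Cut.none Ext.none)

def k0_pp_022 : ∃ t, chk3 f_pp_022 t 1 1 1 = true :=
  ⟨(a (b (b (b (b (a (l 18928056) (l 18035808)) (a (a (l 216531539383) (l 18526712)) (l 17948248))) (a (b (l 18854440) (l 18521144)) (l 17869904))) (a (b (b (l 18638272) (l 18289864)) (l 18072296)) (b (l 17836264) (l 17712752)))) (b (a (l 17873352) (l 17618760)) (a (l 17471288) (l 17500336)))) (b (b (b (b (l 18073696) (l 18116064)) (l 18188648)) (l 18425288)) (b (l 18198368) (l 2)))), by decide +kernel⟩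

theorem c_pp_022 : CertN 0 536870912 1073741824 536870912 67108864 67108864 3 false true true .pp 0 2 2
    ndN3q0 ndN3q2 pcN2 Cut.none Ext.none :=
  certNK1 (fam := false) (s1 := true) (s2 := true) (a := 0) (b := 2) (c := 2) (cn := .pp) (n1 := ndN3q0) (n2 := ndN3q2) (pc := pcN2) (cut := Cut.none) (xt := Ext.none) (P1 := 0) (W1 := 536870912) (P2 := 1073741824) (W2 := 536870912) (P3 := 67108864) (W3 := 67108864) (N0 := 3)
    rfl rfl rfl (fun _ => rfl) k0_pp_022

noncomputable def f_pp_023 : ℕ → ℕ → ℕ → ℕ → Bool := onCell 1073741824 536870912 0 1230186008 67108864 67108864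
    (rowNK 3 2 false true true .up 0 2 3 (qsf 0 536870912 0 1230186008 2) ndN3q0 ndN3q3 pcN2 Cut.none Ext.none)

def k0_pp_023 : ∃ t, chk3 f_pp_023 t 1 1 1 = true :=
  ⟨(b (a (l 2) (l 18518208)) (b (a (l 19478608) (a (l 18855224) (l 18235384))) (a (a (a (a (l 19793744) (l 19659880)) (l 19437720)) (l 18940656)) (b (l 17993928) (a (l 17821320) (l 17577880)))))), by decide +kernel⟩

theorem c_pp_023 : CertN 0 536870912 0 1230186008 67108864 67108864 3 false true true .up 0 2 3
    ndN3q0 ndN3q3 pcN2 Cut.none Ext.none :=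
  certNK2 (fam := false) (s1 := true) (s2 := true) (a := 0) (b := 2) (c := 3) (cn := .up) (n1 := ndN3q0) (n2 := ndN3q3) (pc := pcN2) (cut := Cut.none) (xt := Ext.none) (P1 := 0) (W1 := 536870912) (P2 := 0) (W2 := 1230186008) (P3 := 67108864) (W3 := 67108864) (N0 := 3)
    rfl rfl rfl (fun _ => rfl) k0_pp_023

noncomputable def f_pp_033 : ℕ → ℕ → ℕ → ℕ → Bool := onCell 1610612736 536870912 0 1230186008 67108864 67108864
    (rowNK 3 2 false true true .pnn 0 3 3 (qsf 0 536870912 0 1230186008 3) ndN3q0 ndN3q3 pcN3 Cut.none Ext.none)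

def k0_pp_033 : ∃ t, chk3 f_pp_033 t 1 1 1 = true :=
  ⟨(b (a (a (b (l 4) (l 4)) (l 4)) (l 4)) (b (a (a (b (l 17569520) (l 17340768)) (a (l 17237360) (l 17854048))) (a (a (l 18001568) (l 18134888)) (b (a (l 4) (l 1)) (l 1)))) (a (b (a (l 18269136) (l 357056539207)) (a (b (l 18946848) (a (l 18651280) (l 18415872))) (b (a (l 18901008) (l 1)) (l 1)))) (l 1)))), by decide +kernel⟩

theorem c_pp_033 : CertN 0 536870912 0 1230186008 67108864 67108864 3 false true true .pnn 0 3 3
    ndN3q0 ndN3q3 pcN3 Cut.none Ext.none :=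
  certNK2 (fam := false) (s1 := true) (s2 := true) (a := 0) (b := 3) (c := 3) (cn := .pnn) (n1 := ndN3q0) (n2 := ndN3q3) (pc := pcN3) (cut := Cut.none) (xt := Ext.none) (P1 := 0) (W1 := 536870912) (P2 := 0) (W2 := 1230186008) (P3 := 67108864) (W3 := 67108864) (N0 := 3)
    rfl rfl rfl (fun _ => rfl) k0_pp_033

noncomputable def f_pp_101 : ℕ → ℕ → ℕ → ℕ → Bool := onCell 536870912 536870912 536870912 536870912 67108864 67108864
    (rowNK 3 0 false true true .npn 1 0 1 (qsf 536870912 536870912 536870912 536870912 0) ndN3q1 ndN3q1 pcN0 Cut.none Ext.none)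

def k0_pp_101 : ∃ t, chk3 f_pp_101 t 1 1 1 = true :=
  ⟨(l 3), by decide +kernel⟩

theorem c_pp_101 : CertN 536870912 536870912 536870912 536870912 67108864 67108864 3 false true true .npn 1 0 1
    ndN3q1 ndN3q1 pcN0 Cut.none Ext.none :=
  certNK0 (fam := false) (s1 := true) (s2 := true) (a := 1) (b := 0) (c := 1) (cn := .npn) (n1 := ndN3q1) (n2 := ndN3q1) (pc := pcN0) (cut := Cut.none) (xt := Ext.none) (P1 := 536870912) (W1 := 536870912) (P2 := 536870912) (W2 := 536870912) (P3 := 67108864) (W3 := 67108864) (N0 := 3)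
    rfl rfl rfl k0_pp_101

noncomputable def f_pp_102 : ℕ → ℕ → ℕ → ℕ → Bool := onCell 536870912 536870912 0 536870912 67108864 67108864
    (rowNK 3 1 false true true .npp 1 0 2 (qsf 536870912 536870912 1073741824 536870912 0) ndN3q1 ndN3q2 pcN0 Cut.none Ext.none)

def k0_pp_102 : ∃ t, chk3 f_pp_102 t 1 1 1 = true :=
  ⟨(l 3), by decide +kernel⟩

theorem c_pp_102 : CertN 536870912 536870912 1073741824 536870912 67108864 67108864 3 false true true .npp 1 0 2
    ndN3q1 ndN3q2 pcN0 Cut.none Ext.none :=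
  certNK1 (fam := false) (s1 := true) (s2 := true) (a := 1) (b := 0) (c := 2) (cn := .npp) (n1 := ndN3q1) (n2 := ndN3q2) (pc := pcN0) (cut := Cut.none) (xt := Ext.none) (P1 := 536870912) (W1 := 536870912) (P2 := 1073741824) (W2 := 536870912) (P3 := 67108864) (W3 := 67108864) (N0 := 3)
    rfl rfl rfl (fun _ => rfl) k0_pp_102

noncomputable def f_pp_112 : ℕ → ℕ → ℕ → ℕ → Bool := onCell 536870912 536870912 1073741824 536870912 67108864 67108864
    (rowNK 3 2 false true true .dn 1 1 2 (qsf 536870912 536870912 1073741824 536870912 1) ndN3q1 ndN3q2 pcN1 Cut.none Ext.none)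

def k0_pp_112 : ∃ t, chk3 f_pp_112 t 1 1 1 = true :=
  ⟨(a (b (l 3) (a (l 3) (l 18840240))) (b (a (l 392088031239) (l 1)) (a (l 18575720) (l 18395992)))), by decide +kernel⟩

theorem c_pp_112 : CertN 536870912 536870912 1073741824 536870912 67108864 67108864 3 false true true .dn 1 1 2
    ndN3q1 ndN3q2 pcN1 Cut.none Ext.none :=
  certNK2 (fam := false) (s1 := true) (s2 := true) (a := 1) (b := 1) (c := 2) (cn := .dn) (n1 := ndN3q1) (n2 := ndN3q2) (pc := pcN1) (cut := Cut.none) (xt := Ext.none) (P1 := 536870912) (W1 := 536870912) (P2 := 1073741824) (W2 := 536870912) (P3 := 67108864) (W3 := 67108864) (N0 := 3)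
    rfl rfl rfl (fun _ => rfl) k0_pp_112

noncomputable def f_pp_113 : ℕ → ℕ → ℕ → ℕ → Bool := onCell 536870912 536870912 0 1230186008 67108864 67108864
    (rowNK 3 2 false true true .nn 1 1 3 (qsf 536870912 536870912 0 1230186008 1) ndN3q1 ndN3q3 pcN1 Cut.none Ext.none)

def k0_pp_113 : ∃ t, chk3 f_pp_113 t 1 1 1 = true :=
  ⟨(b (a (l 2) (a (l 2) (a (b (l 2) (l 17759504)) (a (l 17263944) (l 17131064))))) (b (a (a (l 2) (l 19361784)) (a (l 18400960) (a (l 17748712) (a (l 17462048) (l 17285928))))) (a (a (b (l 2) (l 18468192)) (b (l 18430920) (l 17855152))) (a (b (l 17772680) (l 17658840)) (l 17628216))))), by decide +kernel⟩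

theorem c_pp_113 : CertN 536870912 536870912 0 1230186008 67108864 67108864 3 false true true .nn 1 1 3
    ndN3q1 ndN3q3 pcN1 Cut.none Ext.none :=
  certNK2 (fam := false) (s1 := true) (s2 := true) (a := 1) (b := 1) (c := 3) (cn := .nn) (n1 := ndN3q1) (n2 := ndN3q3) (pc := pcN1) (cut := Cut.none) (xt := Ext.none) (P1 := 536870912) (W1 := 536870912) (P2 := 0) (W2 := 1230186008) (P3 := 67108864) (W3 := 67108864) (N0 := 3)
    rfl rfl rfl (fun _ => rfl) k0_pp_113

noncomputable def f_pp_123 : ℕ → ℕ → ℕ → ℕ → Bool := onCell 1073741824 536870912 0 1230186008 67108864 67108864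
    (rowNK 3 2 false true true .npn 1 2 3 (qsf 536870912 536870912 0 1230186008 2) ndN3q1 ndN3q3 pcN2 Cut.none Ext.none)

def k0_pp_123 : ∃ t, chk3 f_pp_123 t 1 1 1 = true :=
  ⟨(b (a (a (l 16950944) (l 16898712)) (a (l 16895800) (l 17186968))) (b (a (l 17410984) (a (l 16948568) (l 16908472))) (a (a (a (a (l 17855032) (l 17742600)) (l 17579704)) (l 17524808)) (l 1)))), by decide +kernel⟩

theorem c_pp_123 : CertN 536870912 536870912 0 1230186008 67108864 67108864 3 false true true .npn 1 2 3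
    ndN3q1 ndN3q3 pcN2 Cut.none Ext.none :=
  certNK2 (fam := false) (s1 := true) (s2 := true) (a := 1) (b := 2) (c := 3) (cn := .npn) (n1 := ndN3q1) (n2 := ndN3q3) (pc := pcN2) (cut := Cut.none) (xt := Ext.none) (P1 := 536870912) (W1 := 536870912) (P2 := 0) (W2 := 1230186008) (P3 := 67108864) (W3 := 67108864) (N0 := 3)
    rfl rfl rfl (fun _ => rfl) k0_pp_123

noncomputable def f_pp_133 : ℕ → ℕ → ℕ → ℕ → Bool := onCell 1610612736 536870912 0 1230186008 67108864 67108864
    (rowNK 3 2 false true true .dn 1 3 3 (qsf 536870912 536870912 0 1230186008 3) ndN3q1 ndN3q3 pcN3 Cut.none Ext.none)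

def k0_pp_133 : ∃ t, chk3 f_pp_133 t 1 1 1 = true :=
  ⟨(b (b (l 4) (l 1)) (l 1)), by decide +kernel⟩

theorem c_pp_133 : CertN 536870912 536870912 0 1230186008 67108864 67108864 3 false true true .dn 1 3 3
    ndN3q1 ndN3q3 pcN3 Cut.none Ext.none :=
  certNK2 (fam := false) (s1 := true) (s2 := true) (a := 1) (b := 3) (c := 3) (cn := .dn) (n1 := ndN3q1) (n2 := ndN3q3) (pc := pcN3) (cut := Cut.none) (xt := Ext.none) (P1 := 536870912) (W1 := 536870912) (P2 := 0) (W2 := 1230186008) (P3 := 67108864) (W3 := 67108864) (N0 := 3)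
    rfl rfl rfl (fun _ => rfl) k0_pp_133

noncomputable def f_pp_202 : ℕ → ℕ → ℕ → ℕ → Bool := onCell 1073741824 536870912 1073741824 536870912 67108864 67108864
    (rowNK 3 0 false true true .pp 2 0 2 (qsf 1073741824 536870912 1073741824 536870912 0) ndN3q2 ndN3q2 pcN0 Cut.none Ext.none)

def k0_pp_202 : ∃ t, chk3 f_pp_202 t 1 1 1 = true :=
  ⟨(l 3), by decide +kernel⟩

theorem c_pp_202 : CertN 1073741824 536870912 1073741824 536870912 67108864 67108864 3 false true true .pp 2 0 2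
    ndN3q2 ndN3q2 pcN0 Cut.none Ext.none :=
  certNK0 (fam := false) (s1 := true) (s2 := true) (a := 2) (b := 0) (c := 2) (cn := .pp) (n1 := ndN3q2) (n2 := ndN3q2) (pc := pcN0) (cut := Cut.none) (xt := Ext.none) (P1 := 1073741824) (W1 := 536870912) (P2 := 1073741824) (W2 := 536870912) (P3 := 67108864) (W3 := 67108864) (N0 := 3)
    rfl rfl rfl k0_pp_202

noncomputable def f_pp_203 : ℕ → ℕ → ℕ → ℕ → Bool := onCell 0 536870912 0 1230186008 67108864 67108864
    (rowNK 3 2 false true true .up 2 0 3 (qsf 1073741824 536870912 0 1230186008 0) ndN3q2 ndN3q3 pcN0 Cut.none Ext.none)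

def k0_pp_203 : ∃ t, chk3 f_pp_203 t 1 1 1 = true :=
  ⟨(b (a (l 2) (l 3)) (l 3)), by decide +kernel⟩

theorem c_pp_203 : CertN 1073741824 536870912 0 1230186008 67108864 67108864 3 false true true .up 2 0 3
    ndN3q2 ndN3q3 pcN0 Cut.none Ext.none :=
  certNK2 (fam := false) (s1 := true) (s2 := true) (a := 2) (b := 0) (c := 3) (cn := .up) (n1 := ndN3q2) (n2 := ndN3q3) (pc := pcN0) (cut := Cut.none) (xt := Ext.none) (P1 := 1073741824) (W1 := 536870912) (P2 := 0) (W2 := 1230186008) (P3 := 67108864) (W3 := 67108864) (N0 := 3)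
    rfl rfl rfl (fun _ => rfl) k0_pp_203

noncomputable def f_pp_213 : ℕ → ℕ → ℕ → ℕ → Bool := onCell 1073741824 536870912 0 1230186008 67108864 67108864
    (rowNK 3 0 false true true .pnn 2 1 3 (qsf 1073741824 536870912 0 1230186008 1) ndN3q2 ndN3q3 pcN1 Cut.none Ext.none)

def k0_pp_213 : ∃ t, chk3 f_pp_213 t 1 1 1 = true :=
  ⟨(b (a (a (b (l 17010984) (b (l 17051952) (l 225654637015))) (b (l 17107776) (b (l 17070904) (l 3)))) (b (a (l 17113336) (l 3)) (l 3))) (b (a (l 3) (l 3)) (l 3))), by decide +kernel⟩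

theorem c_pp_213 : CertN 1073741824 536870912 0 1230186008 67108864 67108864 3 false true true .pnn 2 1 3
    ndN3q2 ndN3q3 pcN1 Cut.none Ext.none :=
  certNK0 (fam := false) (s1 := true) (s2 := true) (a := 2) (b := 1) (c := 3) (cn := .pnn) (n1 := ndN3q2) (n2 := ndN3q3) (pc := pcN1) (cut := Cut.none) (xt := Ext.none) (P1 := 1073741824) (W1 := 536870912) (P2 := 0) (W2 := 1230186008) (P3 := 67108864) (W3 := 67108864) (N0 := 3)
    rfl rfl rfl k0_pp_213

noncomputable def f_pp_303 : ℕ → ℕ → ℕ → ℕ → Bool := onCell 0 1230186008 0 1230186008 67108864 67108864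
    (rowNK 3 0 false true true .npn 3 0 3 (qsf 0 1230186008 0 1230186008 0) ndN3q3 ndN3q3 pcN0 Cut.none Ext.none)

def k0_pp_303 : ∃ t, chk3 f_pp_303 t 1 1 1 = true :=
  ⟨(a (b (l 3) (l 3)) (b (l 3) (l 3))), by decide +kernel⟩

theorem c_pp_303 : CertN 0 1230186008 0 1230186008 67108864 67108864 3 false true true .npn 3 0 3
    ndN3q3 ndN3q3 pcN0 Cut.none Ext.none :=
  certNK0 (fam := false) (s1 := true) (s2 := true) (a := 3) (b := 0) (c := 3) (cn := .npn) (n1 := ndN3q3) (n2 := ndN3q3) (pc := pcN0) (cut := Cut.none) (xt := Ext.none) (P1 := 0) (W1 := 1230186008) (P2 := 0) (W2 := 1230186008) (P3 := 67108864) (W3 := 67108864) (N0 := 3)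
    rfl rfl rfl k0_pp_303

noncomputable def f_pp_313 : ℕ → ℕ → ℕ → ℕ → Bool := onCell 0 1230186008 0 1230186008 67108864 67108864
    (rowNK 3 0 false true true .dn 3 1 3 (qsf 0 1230186008 0 1230186008 1) ndN3q3 ndN3q3 pcN1 Cut.none Ext.none)

def k0_pp_313 : ∃ t, chk3 f_pp_313 t 1 1 1 = true :=
  ⟨(a (l 1) (b (l 3) (l 1))), by decide +kernel⟩

theorem c_pp_313 : CertN 0 1230186008 0 1230186008 67108864 67108864 3 false true true .dn 3 1 3
    ndN3q3 ndN3q3 pcN1 Cut.none Ext.none :=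
  certNK0 (fam := false) (s1 := true) (s2 := true) (a := 3) (b := 1) (c := 3) (cn := .dn) (n1 := ndN3q3) (n2 := ndN3q3) (pc := pcN1) (cut := Cut.none) (xt := Ext.none) (P1 := 0) (W1 := 1230186008) (P2 := 0) (W2 := 1230186008) (P3 := 67108864) (W3 := 67108864) (N0 := 3)
    rfl rfl rfl k0_pp_313

noncomputable def f_pm_001 : ℕ → ℕ → ℕ → ℕ → Bool := onCell 0 536870912 536870912 536870912 67108864 67108864
    (rowNK 3 0 false true false .up 0 0 1 (qsf 0 536870912 536870912 536870912 0) ndN3q0 ndN3q1 pcN0 Cut.none Ext.none)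

def k0_pm_001 : ∃ t, chk3 f_pm_001 t 1 1 1 = true :=
  ⟨(l 4), by decide +kernel⟩

theorem c_pm_001 : CertN 0 536870912 536870912 536870912 67108864 67108864 3 false true false .up 0 0 1
    ndN3q0 ndN3q1 pcN0 Cut.none Ext.none :=
  certNK0 (fam := false) (s1 := true) (s2 := false) (a := 0) (b := 0) (c := 1) (cn := .up) (n1 := ndN3q0) (n2 := ndN3q1) (pc := pcN0) (cut := Cut.none) (xt := Ext.none) (P1 := 0) (W1 := 536870912) (P2 := 536870912) (W2 := 536870912) (P3 := 67108864) (W3 := 67108864) (N0 := 3)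
    rfl rfl rfl k0_pm_001

noncomputable def f_pm_011 : ℕ → ℕ → ℕ → ℕ → Bool := onCell 0 536870912 536870912 536870912 67108864 67108864
    (rowNK 3 0 false true false .pnn 0 1 1 (qsf 0 536870912 536870912 536870912 1) ndN3q0 ndN3q1 pcN1 Cut.none Ext.none)

def k0_pm_011 : ∃ t, chk3 f_pm_011 t 1 1 1 = true :=
  ⟨(l 4), by decide +kernel⟩

theorem c_pm_011 : CertN 0 536870912 536870912 536870912 67108864 67108864 3 false true false .pnn 0 1 1
    ndN3q0 ndN3q1 pcN1 Cut.none Ext.none :=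
  certNK0 (fam := false) (s1 := true) (s2 := false) (a := 0) (b := 1) (c := 1) (cn := .pnn) (n1 := ndN3q0) (n2 := ndN3q1) (pc := pcN1) (cut := Cut.none) (xt := Ext.none) (P1 := 0) (W1 := 536870912) (P2 := 536870912) (W2 := 536870912) (P3 := 67108864) (W3 := 67108864) (N0 := 3)
    rfl rfl rfl k0_pm_011

noncomputable def f_pm_012 : ℕ → ℕ → ℕ → ℕ → Bool := onCell 0 536870912 1073741824 536870912 67108864 67108864
    (rowNK 3 0 false true false .pnp 0 1 2 (qsf 0 536870912 1073741824 536870912 1) ndN3q0 ndN3q2 pcN1 Cut.none Ext.none)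

def k0_pm_012 : ∃ t, chk3 f_pm_012 t 1 1 1 = true :=
  ⟨(l 4), by decide +kernel⟩

theorem c_pm_012 : CertN 0 536870912 1073741824 536870912 67108864 67108864 3 false true false .pnp 0 1 2
    ndN3q0 ndN3q2 pcN1 Cut.none Ext.none :=
  certNK0 (fam := false) (s1 := true) (s2 := false) (a := 0) (b := 1) (c := 2) (cn := .pnp) (n1 := ndN3q0) (n2 := ndN3q2) (pc := pcN1) (cut := Cut.none) (xt := Ext.none) (P1 := 0) (W1 := 536870912) (P2 := 1073741824) (W2 := 536870912) (P3 := 67108864) (W3 := 67108864) (N0 := 3)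
    rfl rfl rfl k0_pm_012

noncomputable def f_pm_022 : ℕ → ℕ → ℕ → ℕ → Bool := onCell 0 536870912 1073741824 536870912 67108864 67108864
    (rowNK 3 0 false true false .pp 0 2 2 (qsf 0 536870912 1073741824 536870912 2) ndN3q0 ndN3q2 pcN2 Cut.none Ext.none)

def k0_pm_022 : ∃ t, chk3 f_pm_022 t 1 1 1 = true :=
  ⟨(l 4), by decide +kernel⟩

theorem c_pm_022 : CertN 0 536870912 1073741824 536870912 67108864 67108864 3 false true false .pp 0 2 2
    ndN3q0 ndN3q2 pcN2 Cut.none Ext.none :=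
  certNK0 (fam := false) (s1 := true) (s2 := false) (a := 0) (b := 2) (c := 2) (cn := .pp) (n1 := ndN3q0) (n2 := ndN3q2) (pc := pcN2) (cut := Cut.none) (xt := Ext.none) (P1 := 0) (W1 := 536870912) (P2 := 1073741824) (W2 := 536870912) (P3 := 67108864) (W3 := 67108864) (N0 := 3)
    rfl rfl rfl k0_pm_022

noncomputable def f_pm_023 : ℕ → ℕ → ℕ → ℕ → Bool := onCell 0 536870912 0 1230186008 67108864 67108864
    (rowNK 3 0 false true false .up 0 2 3 (qsf 0 536870912 0 1230186008 2) ndN3q0 ndN3q3 pcN2 Cut.none Ext.none)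

def k0_pm_023 : ∃ t, chk3 f_pm_023 t 1 1 1 = true :=
  ⟨(b (l 4) (l 4)), by decide +kernel⟩

theorem c_pm_023 : CertN 0 536870912 0 1230186008 67108864 67108864 3 false true false .up 0 2 3
    ndN3q0 ndN3q3 pcN2 Cut.none Ext.none :=
  certNK0 (fam := false) (s1 := true) (s2 := false) (a := 0) (b := 2) (c := 3) (cn := .up) (n1 := ndN3q0) (n2 := ndN3q3) (pc := pcN2) (cut := Cut.none) (xt := Ext.none) (P1 := 0) (W1 := 536870912) (P2 := 0) (W2 := 1230186008) (P3 := 67108864) (W3 := 67108864) (N0 := 3)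
    rfl rfl rfl k0_pm_023

noncomputable def f_pm_033 : ℕ → ℕ → ℕ → ℕ → Bool := onCell 0 536870912 0 1230186008 67108864 67108864
    (rowNK 3 0 false true false .pnn 0 3 3 (qsf 0 536870912 0 1230186008 3) ndN3q0 ndN3q3 pcN3 Cut.none Ext.none)

def k0_pm_033 : ∃ t, chk3 f_pm_033 t 1 1 1 = true :=
  ⟨(b (l 4) (l 4)), by decide +kernel⟩

theorem c_pm_033 : CertN 0 536870912 0 1230186008 67108864 67108864 3 false true false .pnn 0 3 3
    ndN3q0 ndN3q3 pcN3 Cut.none Ext.none :=
  certNK0 (fam := false) (s1 := true) (s2 := false) (a := 0) (b := 3) (c := 3) (cn := .pnn) (n1 := ndN3q0) (n2 := ndN3q3) (pc := pcN3) (cut := Cut.none) (xt := Ext.none) (P1 := 0) (W1 := 536870912) (P2 := 0) (W2 := 1230186008) (P3 := 67108864) (W3 := 67108864) (N0 := 3)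
    rfl rfl rfl k0_pm_033

noncomputable def f_pm_101 : ℕ → ℕ → ℕ → ℕ → Bool := onCell 536870912 536870912 536870912 536870912 67108864 67108864
    (rowNK 3 0 false true false .npn 1 0 1 (qsf 536870912 536870912 536870912 536870912 0) ndN3q1 ndN3q1 pcN0 Cut.none Ext.none)

def k0_pm_101 : ∃ t, chk3 f_pm_101 t 1 1 1 = true :=
  ⟨(l 4), by decide +kernel⟩

theorem c_pm_101 : CertN 536870912 536870912 536870912 536870912 67108864 67108864 3 false true false .npn 1 0 1
    ndN3q1 ndN3q1 pcN0 Cut.none Ext.none :=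
  certNK0 (fam := false) (s1 := true) (s2 := false) (a := 1) (b := 0) (c := 1) (cn := .npn) (n1 := ndN3q1) (n2 := ndN3q1) (pc := pcN0) (cut := Cut.none) (xt := Ext.none) (P1 := 536870912) (W1 := 536870912) (P2 := 536870912) (W2 := 536870912) (P3 := 67108864) (W3 := 67108864) (N0 := 3)
    rfl rfl rfl k0_pm_101

noncomputable def f_pm_102 : ℕ → ℕ → ℕ → ℕ → Bool := onCell 536870912 536870912 1073741824 536870912 67108864 67108864
    (rowNK 3 0 false true false .npp 1 0 2 (qsf 536870912 536870912 1073741824 536870912 0) ndN3q1 ndN3q2 pcN0 Cut.none Ext.none)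

def k0_pm_102 : ∃ t, chk3 f_pm_102 t 1 1 1 = true :=
  ⟨(l 4), by decide +kernel⟩

theorem c_pm_102 : CertN 536870912 536870912 1073741824 536870912 67108864 67108864 3 false true false .npp 1 0 2
    ndN3q1 ndN3q2 pcN0 Cut.none Ext.none :=
  certNK0 (fam := false) (s1 := true) (s2 := false) (a := 1) (b := 0) (c := 2) (cn := .npp) (n1 := ndN3q1) (n2 := ndN3q2) (pc := pcN0) (cut := Cut.none) (xt := Ext.none) (P1 := 536870912) (W1 := 536870912) (P2 := 1073741824) (W2 := 536870912) (P3 := 67108864) (W3 := 67108864) (N0 := 3)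
    rfl rfl rfl k0_pm_102

noncomputable def f_pm_112 : ℕ → ℕ → ℕ → ℕ → Bool := onCell 536870912 536870912 1073741824 536870912 67108864 67108864
    (rowNK 3 0 false true false .dn 1 1 2 (qsf 536870912 536870912 1073741824 536870912 1) ndN3q1 ndN3q2 pcN1 Cut.none Ext.none)

def k0_pm_112 : ∃ t, chk3 f_pm_112 t 1 1 1 = true :=
  ⟨(l 4), by decide +kernel⟩

theorem c_pm_112 : CertN 536870912 536870912 1073741824 536870912 67108864 67108864 3 false true false .dn 1 1 2
    ndN3q1 ndN3q2 pcN1 Cut.none Ext.none :=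
  certNK0 (fam := false) (s1 := true) (s2 := false) (a := 1) (b := 1) (c := 2) (cn := .dn) (n1 := ndN3q1) (n2 := ndN3q2) (pc := pcN1) (cut := Cut.none) (xt := Ext.none) (P1 := 536870912) (W1 := 536870912) (P2 := 1073741824) (W2 := 536870912) (P3 := 67108864) (W3 := 67108864) (N0 := 3)
    rfl rfl rfl k0_pm_112

noncomputable def f_pm_113 : ℕ → ℕ → ℕ → ℕ → Bool := onCell 536870912 536870912 0 1230186008 67108864 67108864
    (rowNK 3 0 false true false .nn 1 1 3 (qsf 536870912 536870912 0 1230186008 1) ndN3q1 ndN3q3 pcN1 Cut.none Ext.none)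

def k0_pm_113 : ∃ t, chk3 f_pm_113 t 1 1 1 = true :=
  ⟨(b (a (l 2) (b (l 17299520) (l 4))) (l 4)), by decide +kernel⟩

theorem c_pm_113 : CertN 536870912 536870912 0 1230186008 67108864 67108864 3 false true false .nn 1 1 3
    ndN3q1 ndN3q3 pcN1 Cut.none Ext.none :=
  certNK0 (fam := false) (s1 := true) (s2 := false) (a := 1) (b := 1) (c := 3) (cn := .nn) (n1 := ndN3q1) (n2 := ndN3q3) (pc := pcN1) (cut := Cut.none) (xt := Ext.none) (P1 := 536870912) (W1 := 536870912) (P2 := 0) (W2 := 1230186008) (P3 := 67108864) (W3 := 67108864) (N0 := 3)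
    rfl rfl rfl k0_pm_113

noncomputable def f_pm_123 : ℕ → ℕ → ℕ → ℕ → Bool := onCell 1073741824 536870912 0 1230186008 67108864 67108864
    (rowNK 3 2 false true false .npn 1 2 3 (qsf 536870912 536870912 0 1230186008 2) ndN3q1 ndN3q3 pcN2 Cut.none Ext.none)

def k0_pm_123 : ∃ t, chk3 f_pm_123 t 1 1 1 = true :=
  ⟨(b (a (l 17534400) (l 4)) (l 4)), by decide +kernel⟩

theorem c_pm_123 : CertN 536870912 536870912 0 1230186008 67108864 67108864 3 false true false .npn 1 2 3
    ndN3q1 ndN3q3 pcN2 Cut.none Ext.none :=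
  certNK2 (fam := false) (s1 := true) (s2 := false) (a := 1) (b := 2) (c := 3) (cn := .npn) (n1 := ndN3q1) (n2 := ndN3q3) (pc := pcN2) (cut := Cut.none) (xt := Ext.none) (P1 := 536870912) (W1 := 536870912) (P2 := 0) (W2 := 1230186008) (P3 := 67108864) (W3 := 67108864) (N0 := 3)
    rfl rfl rfl (fun _ => rfl) k0_pm_123

noncomputable def f_pm_133 : ℕ → ℕ → ℕ → ℕ → Bool := onCell 1610612736 536870912 0 1230186008 67108864 67108864
    (rowNK 3 2 false true false .dn 1 3 3 (qsf 536870912 536870912 0 1230186008 3) ndN3q1 ndN3q3 pcN3 Cut.none Ext.none)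

def k0_pm_133 : ∃ t, chk3 f_pm_133 t 1 1 1 = true :=
  ⟨(b (l 4) (l 1)), by decide +kernel⟩

theorem c_pm_133 : CertN 536870912 536870912 0 1230186008 67108864 67108864 3 false true false .dn 1 3 3
    ndN3q1 ndN3q3 pcN3 Cut.none Ext.none :=
  certNK2 (fam := false) (s1 := true) (s2 := false) (a := 1) (b := 3) (c := 3) (cn := .dn) (n1 := ndN3q1) (n2 := ndN3q3) (pc := pcN3) (cut := Cut.none) (xt := Ext.none) (P1 := 536870912) (W1 := 536870912) (P2 := 0) (W2 := 1230186008) (P3 := 67108864) (W3 := 67108864) (N0 := 3)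
    rfl rfl rfl (fun _ => rfl) k0_pm_133

noncomputable def f_pm_202 : ℕ → ℕ → ℕ → ℕ → Bool := onCell 0 536870912 1073741824 536870912 67108864 67108864
    (rowNK 3 2 false true false .pp 2 0 2 (qsf 1073741824 536870912 1073741824 536870912 0) ndN3q2 ndN3q2 pcN0 Cut.none Ext.none)

def k0_pm_202 : ∃ t, chk3 f_pm_202 t 1 1 1 = true :=
  ⟨(b (a (a (l 19075560) (l 228410329895)) (l 4)) (a (a (l 17918280) (l 94727088375)) (a (b (l 18446776) (l 17787832)) (b (a (l 18596552) (l 1)) (l 18028048))))), by decide +kernel⟩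

theorem c_pm_202 : CertN 1073741824 536870912 1073741824 536870912 67108864 67108864 3 false true false .pp 2 0 2
    ndN3q2 ndN3q2 pcN0 Cut.none Ext.none :=
  certNK2 (fam := false) (s1 := true) (s2 := false) (a := 2) (b := 0) (c := 2) (cn := .pp) (n1 := ndN3q2) (n2 := ndN3q2) (pc := pcN0) (cut := Cut.none) (xt := Ext.none) (P1 := 1073741824) (W1 := 536870912) (P2 := 1073741824) (W2 := 536870912) (P3 := 67108864) (W3 := 67108864) (N0 := 3)
    rfl rfl rfl (fun _ => rfl) k0_pm_202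

noncomputable def f_pm_203 : ℕ → ℕ → ℕ → ℕ → Bool := onCell 0 536870912 0 1230186008 67108864 67108864
    (rowNK 3 2 false true false .up 2 0 3 (qsf 1073741824 536870912 0 1230186008 0) ndN3q2 ndN3q3 pcN0 Cut.none Ext.none)

def k0_pm_203 : ∃ t, chk3 f_pm_203 t 1 1 1 = true :=
  ⟨(b (a (l 2) (a (l 2) (b (l 3) (l 17252640)))) (a (b (a (l 2) (l 646494994599)) (a (b (l 2) (a (l 17694624) (l 17602096))) (b (l 17404400) (l 17540456)))) (b (a (b (l 17480536) (l 17299240)) (b (l 17113984) (l 17116528))) (a (b (l 17553728) (b (l 17937984) (l 18189112))) (b (b (l 16963128) (l 17468544)) (b (l 18622400) (l 18841928))))))), by decide +kernel⟩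

theorem c_pm_203 : CertN 1073741824 536870912 0 1230186008 67108864 67108864 3 false true false .up 2 0 3
    ndN3q2 ndN3q3 pcN0 Cut.none Ext.none :=
  certNK2 (fam := false) (s1 := true) (s2 := false) (a := 2) (b := 0) (c := 3) (cn := .up) (n1 := ndN3q2) (n2 := ndN3q3) (pc := pcN0) (cut := Cut.none) (xt := Ext.none) (P1 := 1073741824) (W1 := 536870912) (P2 := 0) (W2 := 1230186008) (P3 := 67108864) (W3 := 67108864) (N0 := 3)
    rfl rfl rfl (fun _ => rfl) k0_pm_203

noncomputable def f_pm_213 : ℕ → ℕ → ℕ → ℕ → Bool := onCell 536870912 536870912 0 1230186008 67108864 67108864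
    (rowNK 3 2 false true false .pnn 2 1 3 (qsf 1073741824 536870912 0 1230186008 1) ndN3q2 ndN3q3 pcN1 Cut.none Ext.none)

def k0_pm_213 : ∃ t, chk3 f_pm_213 t 1 1 1 = true :=
  ⟨(b (b (a (a (l 17474464) (l 17276704)) (a (l 17251488) (l 17032808))) (a (a (l 17730680) (l 17749608)) (a (b (l 17504840) (l 17731168)) (a (l 17336368) (a (l 17179360) (l 17053048)))))) (b (a (a (l 18577248) (b (l 18299536) (l 18692512))) (a (a (l 18175952) (l 17831352)) (a (a (l 17664528) (l 1)) (l 1)))) (a (b (a (b (a (l 19383672) (l 19365136)) (l 19099136)) (b (l 19073192) (a (l 18941712) (l 1)))) (b (a (a (l 17927976) (l 18131048)) (a (l 18850832) (l 1))) (l 245924716615))) (l 1)))), by decide +kernel⟩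

theorem c_pm_213 : CertN 1073741824 536870912 0 1230186008 67108864 67108864 3 false true false .pnn 2 1 3
    ndN3q2 ndN3q3 pcN1 Cut.none Ext.none :=
  certNK2 (fam := false) (s1 := true) (s2 := false) (a := 2) (b := 1) (c := 3) (cn := .pnn) (n1 := ndN3q2) (n2 := ndN3q3) (pc := pcN1) (cut := Cut.none) (xt := Ext.none) (P1 := 1073741824) (W1 := 536870912) (P2 := 0) (W2 := 1230186008) (P3 := 67108864) (W3 := 67108864) (N0 := 3)
    rfl rfl rfl (fun _ => rfl) k0_pm_213

noncomputable def f_pm_303 : ℕ → ℕ → ℕ → ℕ → Bool := onCell 0 1230186008 0 1230186008 67108864 67108864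
    (rowNK 3 0 false true false .npn 3 0 3 (qsf 0 1230186008 0 1230186008 0) ndN3q3 ndN3q3 pcN0 Cut.none Ext.none)

def k0_pm_303 : ∃ t, chk3 f_pm_303 t 1 1 1 = true :=
  ⟨(a (b (l 3) (b (l 3) (l 1))) (b (a (l 3) (a (l 3) (b (l 3) (b (l 264310825335) (l 17909832))))) (a (b (b (l 3) (b (l 3) (a (l 1) (a (l 3) (l 17574400))))) (a (l 1) (b (a (l 1) (b (l 17972344) (l 1))) (l 1)))) (b (a (b (l 17630672) (b (l 17771920) (l 17940584))) (b (l 18054720) (l 18355792))) (a (b (b (l 18216896) (a (l 18606912) (l 18673176))) (a (l 1) (b (l 18951224) (l 1)))) (b (b (l 18635064) (l 18854256)) (b (l 19299848) (a (l 19130200) (l 19227392))))))))), by decide +kernel⟩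

theorem c_pm_303 : CertN 0 1230186008 0 1230186008 67108864 67108864 3 false true false .npn 3 0 3
    ndN3q3 ndN3q3 pcN0 Cut.none Ext.none :=
  certNK0 (fam := false) (s1 := true) (s2 := false) (a := 3) (b := 0) (c := 3) (cn := .npn) (n1 := ndN3q3) (n2 := ndN3q3) (pc := pcN0) (cut := Cut.none) (xt := Ext.none) (P1 := 0) (W1 := 1230186008) (P2 := 0) (W2 := 1230186008) (P3 := 67108864) (W3 := 67108864) (N0 := 3)
    rfl rfl rfl k0_pm_303

noncomputable def f_pm_313 : ℕ → ℕ → ℕ → ℕ → Bool := onCell 0 1230186008 0 1230186008 67108864 67108864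
    (rowNK 3 0 false true false .dn 3 1 3 (qsf 0 1230186008 0 1230186008 1) ndN3q3 ndN3q3 pcN1 Cut.none Ext.none)

def k0_pm_313 : ∃ t, chk3 f_pm_313 t 1 1 1 = true :=
  ⟨(a (l 1) (b (b (l 3) (l 1)) (l 1))), by decide +kernel⟩

theorem c_pm_313 : CertN 0 1230186008 0 1230186008 67108864 67108864 3 false true false .dn 3 1 3
    ndN3q3 ndN3q3 pcN1 Cut.none Ext.none :=
  certNK0 (fam := false) (s1 := true) (s2 := false) (a := 3) (b := 1) (c := 3) (cn := .dn) (n1 := ndN3q3) (n2 := ndN3q3) (pc := pcN1) (cut := Cut.none) (xt := Ext.none) (P1 := 0) (W1 := 1230186008) (P2 := 0) (W2 := 1230186008) (P3 := 67108864) (W3 := 67108864) (N0 := 3)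
    rfl rfl rfl k0_pm_313

noncomputable def f_mm_001 : ℕ → ℕ → ℕ → ℕ → Bool := onCell 0 536870912 536870912 536870912 67108864 67108864
    (rowNK 3 0 false false false .up 0 0 1 (qsf 0 536870912 536870912 536870912 0) ndN3q0 ndN3q1 pcN0 Cut.none Ext.none)

def k0_mm_001 : ∃ t, chk3 f_mm_001 t 1 1 1 = true :=
  ⟨(l 3), by decide +kernel⟩

theorem c_mm_001 : CertN 0 536870912 536870912 536870912 67108864 67108864 3 false false false .up 0 0 1
    ndN3q0 ndN3q1 pcN0 Cut.none Ext.none :=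
  certNK0 (fam := false) (s1 := false) (s2 := false) (a := 0) (b := 0) (c := 1) (cn := .up) (n1 := ndN3q0) (n2 := ndN3q1) (pc := pcN0) (cut := Cut.none) (xt := Ext.none) (P1 := 0) (W1 := 536870912) (P2 := 536870912) (W2 := 536870912) (P3 := 67108864) (W3 := 67108864) (N0 := 3)
    rfl rfl rfl k0_mm_001

noncomputable def f_mm_011 : ℕ → ℕ → ℕ → ℕ → Bool := onCell 0 536870912 536870912 536870912 67108864 67108864
    (rowNK 3 0 false false false .pnn 0 1 1 (qsf 0 536870912 536870912 536870912 1) ndN3q0 ndN3q1 pcN1 Cut.none Ext.none)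

def k0_mm_011 : ∃ t, chk3 f_mm_011 t 1 1 1 = true :=
  ⟨(l 3), by decide +kernel⟩

theorem c_mm_011 : CertN 0 536870912 536870912 536870912 67108864 67108864 3 false false false .pnn 0 1 1
    ndN3q0 ndN3q1 pcN1 Cut.none Ext.none :=
  certNK0 (fam := false) (s1 := false) (s2 := false) (a := 0) (b := 1) (c := 1) (cn := .pnn) (n1 := ndN3q0) (n2 := ndN3q1) (pc := pcN1) (cut := Cut.none) (xt := Ext.none) (P1 := 0) (W1 := 536870912) (P2 := 536870912) (W2 := 536870912) (P3 := 67108864) (W3 := 67108864) (N0 := 3)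
    rfl rfl rfl k0_mm_011

noncomputable def f_mm_012 : ℕ → ℕ → ℕ → ℕ → Bool := onCell 0 536870912 1073741824 536870912 67108864 67108864
    (rowNK 3 0 false false false .pnp 0 1 2 (qsf 0 536870912 1073741824 536870912 1) ndN3q0 ndN3q2 pcN1 Cut.none Ext.none)

def k0_mm_012 : ∃ t, chk3 f_mm_012 t 1 1 1 = true :=
  ⟨(l 5), by decide +kernel⟩

theorem c_mm_012 : CertN 0 536870912 1073741824 536870912 67108864 67108864 3 false false false .pnp 0 1 2
    ndN3q0 ndN3q2 pcN1 Cut.none Ext.none :=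
  certNK0 (fam := false) (s1 := false) (s2 := false) (a := 0) (b := 1) (c := 2) (cn := .pnp) (n1 := ndN3q0) (n2 := ndN3q2) (pc := pcN1) (cut := Cut.none) (xt := Ext.none) (P1 := 0) (W1 := 536870912) (P2 := 1073741824) (W2 := 536870912) (P3 := 67108864) (W3 := 67108864) (N0 := 3)
    rfl rfl rfl k0_mm_012

noncomputable def f_mm_022 : ℕ → ℕ → ℕ → ℕ → Bool := onCell 0 536870912 1073741824 536870912 67108864 67108864
    (rowNK 3 0 false false false .pp 0 2 2 (qsf 0 536870912 1073741824 536870912 2) ndN3q0 ndN3q2 pcN2 Cut.none Ext.none)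

def k0_mm_022 : ∃ t, chk3 f_mm_022 t 1 1 1 = true :=
  ⟨(l 5), by decide +kernel⟩

theorem c_mm_022 : CertN 0 536870912 1073741824 536870912 67108864 67108864 3 false false false .pp 0 2 2
    ndN3q0 ndN3q2 pcN2 Cut.none Ext.none :=
  certNK0 (fam := false) (s1 := false) (s2 := false) (a := 0) (b := 2) (c := 2) (cn := .pp) (n1 := ndN3q0) (n2 := ndN3q2) (pc := pcN2) (cut := Cut.none) (xt := Ext.none) (P1 := 0) (W1 := 536870912) (P2 := 1073741824) (W2 := 536870912) (P3 := 67108864) (W3 := 67108864) (N0 := 3)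
    rfl rfl rfl k0_mm_022

noncomputable def f_mm_023 : ℕ → ℕ → ℕ → ℕ → Bool := onCell 0 536870912 0 1230186008 67108864 67108864
    (rowNK 3 0 false false false .up 0 2 3 (qsf 0 536870912 0 1230186008 2) ndN3q0 ndN3q3 pcN2 Cut.none Ext.none)

def k0_mm_023 : ∃ t, chk3 f_mm_023 t 1 1 1 = true :=
  ⟨(l 5), by decide +kernel⟩

theorem c_mm_023 : CertN 0 536870912 0 1230186008 67108864 67108864 3 false false false .up 0 2 3
    ndN3q0 ndN3q3 pcN2 Cut.none Ext.none :=
  certNK0 (fam := false) (s1 := false) (s2 := false) (a := 0) (b := 2) (c := 3) (cn := .up) (n1 := ndN3q0) (n2 := ndN3q3) (pc := pcN2) (cut := Cut.none) (xt := Ext.none) (P1 := 0) (W1 := 536870912) (P2 := 0) (W2 := 1230186008) (P3 := 67108864) (W3 := 67108864) (N0 := 3)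
    rfl rfl rfl k0_mm_023

noncomputable def f_mm_033 : ℕ → ℕ → ℕ → ℕ → Bool := onCell 0 536870912 0 1230186008 67108864 67108864
    (rowNK 3 0 false false false .pnn 0 3 3 (qsf 0 536870912 0 1230186008 3) ndN3q0 ndN3q3 pcN3 Cut.none Ext.none)

def k0_mm_033 : ∃ t, chk3 f_mm_033 t 1 1 1 = true :=
  ⟨(l 5), by decide +kernel⟩

theorem c_mm_033 : CertN 0 536870912 0 1230186008 67108864 67108864 3 false false false .pnn 0 3 3
    ndN3q0 ndN3q3 pcN3 Cut.none Ext.none :=
  certNK0 (fam := false) (s1 := false) (s2 := false) (a := 0) (b := 3) (c := 3) (cn := .pnn) (n1 := ndN3q0) (n2 := ndN3q3) (pc := pcN3) (cut := Cut.none) (xt := Ext.none) (P1 := 0) (W1 := 536870912) (P2 := 0) (W2 := 1230186008) (P3 := 67108864) (W3 := 67108864) (N0 := 3)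
    rfl rfl rfl k0_mm_033

noncomputable def f_mm_101 : ℕ → ℕ → ℕ → ℕ → Bool := onCell 536870912 536870912 536870912 536870912 67108864 67108864
    (rowNK 3 0 false false false .npn 1 0 1 (qsf 536870912 536870912 536870912 536870912 0) ndN3q1 ndN3q1 pcN0 Cut.none Ext.none)

def k0_mm_101 : ∃ t, chk3 f_mm_101 t 1 1 1 = true :=
  ⟨(l 3), by decide +kernel⟩

theorem c_mm_101 : CertN 536870912 536870912 536870912 536870912 67108864 67108864 3 false false false .npn 1 0 1
    ndN3q1 ndN3q1 pcN0 Cut.none Ext.none :=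
  certNK0 (fam := false) (s1 := false) (s2 := false) (a := 1) (b := 0) (c := 1) (cn := .npn) (n1 := ndN3q1) (n2 := ndN3q1) (pc := pcN0) (cut := Cut.none) (xt := Ext.none) (P1 := 536870912) (W1 := 536870912) (P2 := 536870912) (W2 := 536870912) (P3 := 67108864) (W3 := 67108864) (N0 := 3)
    rfl rfl rfl k0_mm_101

noncomputable def f_mm_102 : ℕ → ℕ → ℕ → ℕ → Bool := onCell 536870912 536870912 1073741824 536870912 67108864 67108864
    (rowNK 3 0 false false false .npp 1 0 2 (qsf 536870912 536870912 1073741824 536870912 0) ndN3q1 ndN3q2 pcN0 Cut.none Ext.none)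

def k0_mm_102 : ∃ t, chk3 f_mm_102 t 1 1 1 = true :=
  ⟨(l 5), by decide +kernel⟩

theorem c_mm_102 : CertN 536870912 536870912 1073741824 536870912 67108864 67108864 3 false false false .npp 1 0 2
    ndN3q1 ndN3q2 pcN0 Cut.none Ext.none :=
  certNK0 (fam := false) (s1 := false) (s2 := false) (a := 1) (b := 0) (c := 2) (cn := .npp) (n1 := ndN3q1) (n2 := ndN3q2) (pc := pcN0) (cut := Cut.none) (xt := Ext.none) (P1 := 536870912) (W1 := 536870912) (P2 := 1073741824) (W2 := 536870912) (P3 := 67108864) (W3 := 67108864) (N0 := 3)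
    rfl rfl rfl k0_mm_102

noncomputable def f_mm_112 : ℕ → ℕ → ℕ → ℕ → Bool := onCell 536870912 536870912 1073741824 536870912 67108864 67108864
    (rowNK 3 0 false false false .dn 1 1 2 (qsf 536870912 536870912 1073741824 536870912 1) ndN3q1 ndN3q2 pcN1 Cut.none Ext.none)

def k0_mm_112 : ∃ t, chk3 f_mm_112 t 1 1 1 = true :=
  ⟨(l 5), by decide +kernel⟩

theorem c_mm_112 : CertN 536870912 536870912 1073741824 536870912 67108864 67108864 3 false false false .dn 1 1 2
    ndN3q1 ndN3q2 pcN1 Cut.none Ext.none :=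
  certNK0 (fam := false) (s1 := false) (s2 := false) (a := 1) (b := 1) (c := 2) (cn := .dn) (n1 := ndN3q1) (n2 := ndN3q2) (pc := pcN1) (cut := Cut.none) (xt := Ext.none) (P1 := 536870912) (W1 := 536870912) (P2 := 1073741824) (W2 := 536870912) (P3 := 67108864) (W3 := 67108864) (N0 := 3)
    rfl rfl rfl k0_mm_112

noncomputable def f_mm_113 : ℕ → ℕ → ℕ → ℕ → Bool := onCell 536870912 536870912 0 1230186008 67108864 67108864
    (rowNK 3 0 false false false .nn 1 1 3 (qsf 536870912 536870912 0 1230186008 1) ndN3q1 ndN3q3 pcN1 Cut.none Ext.none)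

def k0_mm_113 : ∃ t, chk3 f_mm_113 t 1 1 1 = true :=
  ⟨(l 5), by decide +kernel⟩

theorem c_mm_113 : CertN 536870912 536870912 0 1230186008 67108864 67108864 3 false false false .nn 1 1 3
    ndN3q1 ndN3q3 pcN1 Cut.none Ext.none :=
  certNK0 (fam := false) (s1 := false) (s2 := false) (a := 1) (b := 1) (c := 3) (cn := .nn) (n1 := ndN3q1) (n2 := ndN3q3) (pc := pcN1) (cut := Cut.none) (xt := Ext.none) (P1 := 536870912) (W1 := 536870912) (P2 := 0) (W2 := 1230186008) (P3 := 67108864) (W3 := 67108864) (N0 := 3)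
    rfl rfl rfl k0_mm_113

noncomputable def f_mm_123 : ℕ → ℕ → ℕ → ℕ → Bool := onCell 536870912 536870912 0 1230186008 67108864 67108864
    (rowNK 3 0 false false false .npn 1 2 3 (qsf 536870912 536870912 0 1230186008 2) ndN3q1 ndN3q3 pcN2 Cut.none Ext.none)

def k0_mm_123 : ∃ t, chk3 f_mm_123 t 1 1 1 = true :=
  ⟨(l 5), by decide +kernel⟩

theorem c_mm_123 : CertN 536870912 536870912 0 1230186008 67108864 67108864 3 false false false .npn 1 2 3
    ndN3q1 ndN3q3 pcN2 Cut.none Ext.none :=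
  certNK0 (fam := false) (s1 := false) (s2 := false) (a := 1) (b := 2) (c := 3) (cn := .npn) (n1 := ndN3q1) (n2 := ndN3q3) (pc := pcN2) (cut := Cut.none) (xt := Ext.none) (P1 := 536870912) (W1 := 536870912) (P2 := 0) (W2 := 1230186008) (P3 := 67108864) (W3 := 67108864) (N0 := 3)
    rfl rfl rfl k0_mm_123

noncomputable def f_mm_133 : ℕ → ℕ → ℕ → ℕ → Bool := onCell 536870912 536870912 0 1230186008 67108864 67108864
    (rowNK 3 0 false false false .dn 1 3 3 (qsf 536870912 536870912 0 1230186008 3) ndN3q1 ndN3q3 pcN3 Cut.none Ext.none)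

def k0_mm_133 : ∃ t, chk3 f_mm_133 t 1 1 1 = true :=
  ⟨(l 5), by decide +kernel⟩

theorem c_mm_133 : CertN 536870912 536870912 0 1230186008 67108864 67108864 3 false false false .dn 1 3 3
    ndN3q1 ndN3q3 pcN3 Cut.none Ext.none :=
  certNK0 (fam := false) (s1 := false) (s2 := false) (a := 1) (b := 3) (c := 3) (cn := .dn) (n1 := ndN3q1) (n2 := ndN3q3) (pc := pcN3) (cut := Cut.none) (xt := Ext.none) (P1 := 536870912) (W1 := 536870912) (P2 := 0) (W2 := 1230186008) (P3 := 67108864) (W3 := 67108864) (N0 := 3)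
    rfl rfl rfl k0_mm_133

noncomputable def f_mm_202 : ℕ → ℕ → ℕ → ℕ → Bool := onCell 1073741824 536870912 1073741824 536870912 67108864 67108864
    (rowNK 3 0 false false false .pp 2 0 2 (qsf 1073741824 536870912 1073741824 536870912 0) ndN3q2 ndN3q2 pcN0 Cut.none Ext.none)

def k0_mm_202 : ∃ t, chk3 f_mm_202 t 1 1 1 = true :=
  ⟨(l 3), by decide +kernel⟩

theorem c_mm_202 : CertN 1073741824 536870912 1073741824 536870912 67108864 67108864 3 false false false .pp 2 0 2
    ndN3q2 ndN3q2 pcN0 Cut.none Ext.none :=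
  certNK0 (fam := false) (s1 := false) (s2 := false) (a := 2) (b := 0) (c := 2) (cn := .pp) (n1 := ndN3q2) (n2 := ndN3q2) (pc := pcN0) (cut := Cut.none) (xt := Ext.none) (P1 := 1073741824) (W1 := 536870912) (P2 := 1073741824) (W2 := 536870912) (P3 := 67108864) (W3 := 67108864) (N0 := 3)
    rfl rfl rfl k0_mm_202

noncomputable def f_mm_203 : ℕ → ℕ → ℕ → ℕ → Bool := onCell 1073741824 536870912 0 1230186008 67108864 67108864
    (rowNK 3 0 false false false .up 2 0 3 (qsf 1073741824 536870912 0 1230186008 0) ndN3q2 ndN3q3 pcN0 Cut.none Ext.none)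

def k0_mm_203 : ∃ t, chk3 f_mm_203 t 1 1 1 = true :=
  ⟨(b (l 5) (b (l 5) (l 3))), by decide +kernel⟩

theorem c_mm_203 : CertN 1073741824 536870912 0 1230186008 67108864 67108864 3 false false false .up 2 0 3
    ndN3q2 ndN3q3 pcN0 Cut.none Ext.none :=
  certNK0 (fam := false) (s1 := false) (s2 := false) (a := 2) (b := 0) (c := 3) (cn := .up) (n1 := ndN3q2) (n2 := ndN3q3) (pc := pcN0) (cut := Cut.none) (xt := Ext.none) (P1 := 1073741824) (W1 := 536870912) (P2 := 0) (W2 := 1230186008) (P3 := 67108864) (W3 := 67108864) (N0 := 3)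
    rfl rfl rfl k0_mm_203

noncomputable def f_mm_213 : ℕ → ℕ → ℕ → ℕ → Bool := onCell 536870912 536870912 0 1230186008 67108864 67108864
    (rowNK 3 2 false false false .pnn 2 1 3 (qsf 1073741824 536870912 0 1230186008 1) ndN3q2 ndN3q3 pcN1 Cut.none Ext.none)

def k0_mm_213 : ∃ t, chk3 f_mm_213 t 1 1 1 = true :=
  ⟨(b (l 5) (l 5)), by decide +kernel⟩

theorem c_mm_213 : CertN 1073741824 536870912 0 1230186008 67108864 67108864 3 false false false .pnn 2 1 3
    ndN3q2 ndN3q3 pcN1 Cut.none Ext.none :=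
  certNK2 (fam := false) (s1 := false) (s2 := false) (a := 2) (b := 1) (c := 3) (cn := .pnn) (n1 := ndN3q2) (n2 := ndN3q3) (pc := pcN1) (cut := Cut.none) (xt := Ext.none) (P1 := 1073741824) (W1 := 536870912) (P2 := 0) (W2 := 1230186008) (P3 := 67108864) (W3 := 67108864) (N0 := 3)
    rfl rfl rfl (fun _ => rfl) k0_mm_213

noncomputable def f_mm_303 : ℕ → ℕ → ℕ → ℕ → Bool := onCell 0 1230186008 0 1230186008 67108864 67108864
    (rowNK 3 0 false false false .npn 3 0 3 (qsf 0 1230186008 0 1230186008 0) ndN3q3 ndN3q3 pcN0 Cut.none Ext.none)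

def k0_mm_303 : ∃ t, chk3 f_mm_303 t 1 1 1 = true :=
  ⟨(a (b (l 3) (l 3)) (b (l 3) (l 3))), by decide +kernel⟩

theorem c_mm_303 : CertN 0 1230186008 0 1230186008 67108864 67108864 3 false false false .npn 3 0 3
    ndN3q3 ndN3q3 pcN0 Cut.none Ext.none :=
  certNK0 (fam := false) (s1 := false) (s2 := false) (a := 3) (b := 0) (c := 3) (cn := .npn) (n1 := ndN3q3) (n2 := ndN3q3) (pc := pcN0) (cut := Cut.none) (xt := Ext.none) (P1 := 0) (W1 := 1230186008) (P2 := 0) (W2 := 1230186008) (P3 := 67108864) (W3 := 67108864) (N0 := 3)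
    rfl rfl rfl k0_mm_303

noncomputable def f_mm_313 : ℕ → ℕ → ℕ → ℕ → Bool := onCell 0 1230186008 0 1230186008 67108864 67108864
    (rowNK 3 0 false false false .dn 3 1 3 (qsf 0 1230186008 0 1230186008 1) ndN3q3 ndN3q3 pcN1 Cut.none Ext.none)

def k0_mm_313 : ∃ t, chk3 f_mm_313 t 1 1 1 = true :=
  ⟨(a (l 1) (b (l 3) (l 1))), by decide +kernel⟩

theorem c_mm_313 : CertN 0 1230186008 0 1230186008 67108864 67108864 3 false false false .dn 3 1 3
    ndN3q3 ndN3q3 pcN1 Cut.none Ext.none :=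
  certNK0 (fam := false) (s1 := false) (s2 := false) (a := 3) (b := 1) (c := 3) (cn := .dn) (n1 := ndN3q3) (n2 := ndN3q3) (pc := pcN1) (cut := Cut.none) (xt := Ext.none) (P1 := 0) (W1 := 1230186008) (P2 := 0) (W2 := 1230186008) (P3 := 67108864) (W3 := 67108864) (N0 := 3)
    rfl rfl rfl k0_mm_313

end Pool.Agent.Strip051.G.I1_16_1_8.Tab.C.NB33

namespace Pool.Agent.Strip051.G.I1_16_1_8.Tab.C.NB34

open Pool.Agent.Strip051.PB Pool.Agent.Strip051.PB.T
open Pool.Agent.Strip051.G.I1_16_1_8.Tab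

noncomputable def f_pp_001 : ℕ → ℕ → ℕ → ℕ → Bool := onCell 0 536870912 536870912 536870912 67108864 67108864
    (rowNK 3 0 false true true .up 0 0 1 (qsf 0 536870912 536870912 536870912 0) ndN3q0 ndN4q1 pcN0 Cut.none Ext.none)

def k0_pp_001 : ∃ t, chk3 f_pp_001 t 1 1 1 = true :=
  ⟨(l 3), by decide +kernel⟩

theorem c_pp_001 : CertN 0 536870912 536870912 536870912 67108864 67108864 3 false true true .up 0 0 1
    ndN3q0 ndN4q1 pcN0 Cut.none Ext.none :=
  certNK0 (fam := false) (s1 := true) (s2 := true) (a := 0) (b := 0) (c := 1) (cn := .up) (n1 := ndN3q0) (n2 := ndN4q1) (pc := pcN0) (cut := Cut.none) (xt := Ext.none) (P1 := 0) (W1 := 536870912) (P2 := 536870912) (W2 := 536870912) (P3 := 67108864) (W3 := 67108864) (N0 := 3)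
    rfl rfl rfl k0_pp_001

noncomputable def f_pp_011 : ℕ → ℕ → ℕ → ℕ → Bool := onCell 0 536870912 536870912 536870912 67108864 67108864
    (rowNK 3 0 false true true .pnn 0 1 1 (qsf 0 536870912 536870912 536870912 1) ndN3q0 ndN4q1 pcN1 Cut.none Ext.none)

def k0_pp_011 : ∃ t, chk3 f_pp_011 t 1 1 1 = true :=
  ⟨(l 3), by decide +kernel⟩

theorem c_pp_011 : CertN 0 536870912 536870912 536870912 67108864 67108864 3 false true true .pnn 0 1 1
    ndN3q0 ndN4q1 pcN1 Cut.none Ext.none :=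
  certNK0 (fam := false) (s1 := true) (s2 := true) (a := 0) (b := 1) (c := 1) (cn := .pnn) (n1 := ndN3q0) (n2 := ndN4q1) (pc := pcN1) (cut := Cut.none) (xt := Ext.none) (P1 := 0) (W1 := 536870912) (P2 := 536870912) (W2 := 536870912) (P3 := 67108864) (W3 := 67108864) (N0 := 3)
    rfl rfl rfl k0_pp_011

noncomputable def f_pp_012 : ℕ → ℕ → ℕ → ℕ → Bool := onCell 0 536870912 536870912 536870912 67108864 67108864
    (rowNK 3 1 false true true .pnp 0 1 2 (qsf 0 536870912 1073741824 536870912 1) ndN3q0 ndN4q2 pcN1 Cut.none Ext.none)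

def k0_pp_012 : ∃ t, chk3 f_pp_012 t 1 1 1 = true :=
  ⟨(b (l 3) (l 3)), by decide +kernel⟩

theorem c_pp_012 : CertN 0 536870912 1073741824 536870912 67108864 67108864 3 false true true .pnp 0 1 2
    ndN3q0 ndN4q2 pcN1 Cut.none Ext.none :=
  certNK1 (fam := false) (s1 := true) (s2 := true) (a := 0) (b := 1) (c := 2) (cn := .pnp) (n1 := ndN3q0) (n2 := ndN4q2) (pc := pcN1) (cut := Cut.none) (xt := Ext.none) (P1 := 0) (W1 := 536870912) (P2 := 1073741824) (W2 := 536870912) (P3 := 67108864) (W3 := 67108864) (N0 := 3)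
    rfl rfl rfl (fun _ => rfl) k0_pp_012

noncomputable def f_pp_022 : ℕ → ℕ → ℕ → ℕ → Bool := onCell 0 536870912 1073741824 536870912 67108864 67108864
    (rowNK 3 1 false true true .pp 0 2 2 (qsf 0 536870912 1073741824 536870912 2) ndN3q0 ndN4q2 pcN2 Cut.none Ext.none)

def k0_pp_022 : ∃ t, chk3 f_pp_022 t 1 1 1 = true :=
  ⟨(a (b (a (b (l 3) (b (b (a (b (l 3) (l 18878824)) (l 18825096)) (l 18649912)) (l 18504520))) (b (l 3) (b (a (l 269680266023) (l 17986664)) (l 17784056)))) (a (b (l 18354640) (a (l 17872776) (l 17540616))) (b (a (l 17665128) (l 17515072)) (b (l 17386144) (l 2))))) (b (a (b (b (l 3) (l 17461816)) (b (b (l 232098110455) (l 17583808)) (l 17645528))) (b (b (l 17415864) (l 17743320)) (b (l 17943616) (l 2)))) (a (b (l 17706064) (l 2)) (l 2)))), by decide +kernel⟩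

theorem c_pp_022 : CertN 0 536870912 1073741824 536870912 67108864 67108864 3 false true true .pp 0 2 2
    ndN3q0 ndN4q2 pcN2 Cut.none Ext.none :=
  certNK1 (fam := false) (s1 := true) (s2 := true) (a := 0) (b := 2) (c := 2) (cn := .pp) (n1 := ndN3q0) (n2 := ndN4q2) (pc := pcN2) (cut := Cut.none) (xt := Ext.none) (P1 := 0) (W1 := 536870912) (P2 := 1073741824) (W2 := 536870912) (P3 := 67108864) (W3 := 67108864) (N0 := 3)
    rfl rfl rfl (fun _ => rfl) k0_pp_022

noncomputable def f_pp_023 : ℕ → ℕ → ℕ → ℕ → Bool := onCell 1073741824 536870912 0 1230186008 67108864 67108864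
    (rowNK 3 2 false true true .up 0 2 3 (qsf 0 536870912 0 1230186008 2) ndN3q0 ndN4q3 pcN2 Cut.none Ext.none)

def k0_pp_023 : ∃ t, chk3 f_pp_023 t 1 1 1 = true :=
  ⟨(b (a (l 2) (a (l 2) (l 18327280))) (b (a (a (l 2) (l 18574448)) (l 18069400)) (a (a (a (a (l 18141520) (l 18177624)) (b (l 2) (l 17888792))) (b (l 18146600) (a (l 17846400) (l 17688904)))) (b (l 17563792) (a (l 17539152) (l 17345304)))))), by decide +kernel⟩

theorem c_pp_023 : CertN 0 536870912 0 1230186008 67108864 67108864 3 false true true .up 0 2 3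
    ndN3q0 ndN4q3 pcN2 Cut.none Ext.none :=
  certNK2 (fam := false) (s1 := true) (s2 := true) (a := 0) (b := 2) (c := 3) (cn := .up) (n1 := ndN3q0) (n2 := ndN4q3) (pc := pcN2) (cut := Cut.none) (xt := Ext.none) (P1 := 0) (W1 := 536870912) (P2 := 0) (W2 := 1230186008) (P3 := 67108864) (W3 := 67108864) (N0 := 3)
    rfl rfl rfl (fun _ => rfl) k0_pp_023

noncomputable def f_pp_033 : ℕ → ℕ → ℕ → ℕ → Bool := onCell 1610612736 536870912 0 1230186008 67108864 67108864
    (rowNK 3 2 false true true .pnn 0 3 3 (qsf 0 536870912 0 1230186008 3) ndN3q0 ndN4q3 pcN3 Cut.none Ext.none)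

def k0_pp_033 : ∃ t, chk3 f_pp_033 t 1 1 1 = true :=
  ⟨(b (b (a (l 4) (l 4)) (a (a (a (l 17770384) (l 17553304)) (l 17129864)) (a (l 17413728) (l 4)))) (b (a (a (b (l 17249512) (l 17470432)) (b (l 17250672) (b (l 17658592) (l 17580288)))) (b (a (l 17596096) (a (l 17810728) (l 1))) (a (a (l 17540936) (l 17676664)) (l 1)))) (a (b (b (a (l 17168608) (l 17167192)) (a (a (l 18098240) (l 17884600)) (a (l 17608208) (l 1)))) (b (a (a (l 17635064) (l 17553312)) (a (l 17678688) (l 1))) (a (b (a (l 17355568) (l 17731136)) (l 17707432)) (l 1)))) (l 1)))), by decide +kernel⟩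

theorem c_pp_033 : CertN 0 536870912 0 1230186008 67108864 67108864 3 false true true .pnn 0 3 3
    ndN3q0 ndN4q3 pcN3 Cut.none Ext.none :=
  certNK2 (fam := false) (s1 := true) (s2 := true) (a := 0) (b := 3) (c := 3) (cn := .pnn) (n1 := ndN3q0) (n2 := ndN4q3) (pc := pcN3) (cut := Cut.none) (xt := Ext.none) (P1 := 0) (W1 := 536870912) (P2 := 0) (W2 := 1230186008) (P3 := 67108864) (W3 := 67108864) (N0 := 3)
    rfl rfl rfl (fun _ => rfl) k0_pp_033

noncomputable def f_pp_101 : ℕ → ℕ → ℕ → ℕ → Bool := onCell 536870912 536870912 536870912 536870912 67108864 67108864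
    (rowNK 3 0 false true true .npn 1 0 1 (qsf 536870912 536870912 536870912 536870912 0) ndN3q1 ndN4q1 pcN0 Cut.none Ext.none)

def k0_pp_101 : ∃ t, chk3 f_pp_101 t 1 1 1 = true :=
  ⟨(l 3), by decide +kernel⟩

theorem c_pp_101 : CertN 536870912 536870912 536870912 536870912 67108864 67108864 3 false true true .npn 1 0 1
    ndN3q1 ndN4q1 pcN0 Cut.none Ext.none :=
  certNK0 (fam := false) (s1 := true) (s2 := true) (a := 1) (b := 0) (c := 1) (cn := .npn) (n1 := ndN3q1) (n2 := ndN4q1) (pc := pcN0) (cut := Cut.none) (xt := Ext.none) (P1 := 536870912) (W1 := 536870912) (P2 := 536870912) (W2 := 536870912) (P3 := 67108864) (W3 := 67108864) (N0 := 3)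
    rfl rfl rfl k0_pp_101

noncomputable def f_pp_102 : ℕ → ℕ → ℕ → ℕ → Bool := onCell 536870912 536870912 1073741824 536870912 67108864 67108864
    (rowNK 3 0 false true true .npp 1 0 2 (qsf 536870912 536870912 1073741824 536870912 0) ndN3q1 ndN4q2 pcN0 Cut.none Ext.none)

def k0_pp_102 : ∃ t, chk3 f_pp_102 t 1 1 1 = true :=
  ⟨(l 3), by decide +kernel⟩

theorem c_pp_102 : CertN 536870912 536870912 1073741824 536870912 67108864 67108864 3 false true true .npp 1 0 2
    ndN3q1 ndN4q2 pcN0 Cut.none Ext.none :=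
  certNK0 (fam := false) (s1 := true) (s2 := true) (a := 1) (b := 0) (c := 2) (cn := .npp) (n1 := ndN3q1) (n2 := ndN4q2) (pc := pcN0) (cut := Cut.none) (xt := Ext.none) (P1 := 536870912) (W1 := 536870912) (P2 := 1073741824) (W2 := 536870912) (P3 := 67108864) (W3 := 67108864) (N0 := 3)
    rfl rfl rfl k0_pp_102

noncomputable def f_pp_112 : ℕ → ℕ → ℕ → ℕ → Bool := onCell 536870912 536870912 1073741824 536870912 67108864 67108864
    (rowNK 3 0 false true true .dn 1 1 2 (qsf 536870912 536870912 1073741824 536870912 1) ndN3q1 ndN4q2 pcN1 Cut.none Ext.none)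

def k0_pp_112 : ∃ t, chk3 f_pp_112 t 1 1 1 = true :=
  ⟨(l 3), by decide +kernel⟩

theorem c_pp_112 : CertN 536870912 536870912 1073741824 536870912 67108864 67108864 3 false true true .dn 1 1 2
    ndN3q1 ndN4q2 pcN1 Cut.none Ext.none :=
  certNK0 (fam := false) (s1 := true) (s2 := true) (a := 1) (b := 1) (c := 2) (cn := .dn) (n1 := ndN3q1) (n2 := ndN4q2) (pc := pcN1) (cut := Cut.none) (xt := Ext.none) (P1 := 536870912) (W1 := 536870912) (P2 := 1073741824) (W2 := 536870912) (P3 := 67108864) (W3 := 67108864) (N0 := 3)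
    rfl rfl rfl k0_pp_112

noncomputable def f_pp_113 : ℕ → ℕ → ℕ → ℕ → Bool := onCell 536870912 536870912 0 1230186008 67108864 67108864
    (rowNK 3 2 false true true .nn 1 1 3 (qsf 536870912 536870912 0 1230186008 1) ndN3q1 ndN4q3 pcN1 Cut.none Ext.none)

def k0_pp_113 : ∃ t, chk3 f_pp_113 t 1 1 1 = true :=
  ⟨(a (b (l 2) (b (a (l 2) (b (l 2) (l 19202056))) (l 3))) (a (b (l 2) (b (l 18696296) (b (l 18713192) (l 3)))) (b (a (b (l 2) (l 18213744)) (a (b (l 2) (l 17871664)) (l 17328112))) (b (l 18137368) (l 378665538487))))), by decide +kernel⟩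

theorem c_pp_113 : CertN 536870912 536870912 0 1230186008 67108864 67108864 3 false true true .nn 1 1 3
    ndN3q1 ndN4q3 pcN1 Cut.none Ext.none :=
  certNK2 (fam := false) (s1 := true) (s2 := true) (a := 1) (b := 1) (c := 3) (cn := .nn) (n1 := ndN3q1) (n2 := ndN4q3) (pc := pcN1) (cut := Cut.none) (xt := Ext.none) (P1 := 536870912) (W1 := 536870912) (P2 := 0) (W2 := 1230186008) (P3 := 67108864) (W3 := 67108864) (N0 := 3)
    rfl rfl rfl (fun _ => rfl) k0_pp_113

noncomputable def f_pp_123 : ℕ → ℕ → ℕ → ℕ → Bool := onCell 1073741824 536870912 0 1230186008 67108864 67108864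
    (rowNK 3 2 false true true .npn 1 2 3 (qsf 536870912 536870912 0 1230186008 2) ndN3q1 ndN4q3 pcN2 Cut.none Ext.none)

def k0_pp_123 : ∃ t, chk3 f_pp_123 t 1 1 1 = true :=
  ⟨(a (b (b (l 16891744) (l 17233392)) (b (a (a (a (l 17813424) (l 17767216)) (l 17692904)) (l 17547520)) (a (a (a (l 18236472) (b (l 18072000) (l 18321432))) (b (l 17983192) (l 18226024))) (b (l 17811264) (l 18265896))))) (b (a (l 17118576) (l 17179088)) (b (b (l 17243824) (l 17341288)) (l 1)))), by decide +kernel⟩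

theorem c_pp_123 : CertN 536870912 536870912 0 1230186008 67108864 67108864 3 false true true .npn 1 2 3
    ndN3q1 ndN4q3 pcN2 Cut.none Ext.none :=
  certNK2 (fam := false) (s1 := true) (s2 := true) (a := 1) (b := 2) (c := 3) (cn := .npn) (n1 := ndN3q1) (n2 := ndN4q3) (pc := pcN2) (cut := Cut.none) (xt := Ext.none) (P1 := 536870912) (W1 := 536870912) (P2 := 0) (W2 := 1230186008) (P3 := 67108864) (W3 := 67108864) (N0 := 3)
    rfl rfl rfl (fun _ => rfl) k0_pp_123

noncomputable def f_pp_133 : ℕ → ℕ → ℕ → ℕ → Bool := onCell 1610612736 536870912 0 1230186008 67108864 67108864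
    (rowNK 3 2 false true true .dn 1 3 3 (qsf 536870912 536870912 0 1230186008 3) ndN3q1 ndN4q3 pcN3 Cut.none Ext.none)

def k0_pp_133 : ∃ t, chk3 f_pp_133 t 1 1 1 = true :=
  ⟨(b (a (a (l 994858232455) (l 1)) (l 1)) (l 1)), by decide +kernel⟩

theorem c_pp_133 : CertN 536870912 536870912 0 1230186008 67108864 67108864 3 false true true .dn 1 3 3
    ndN3q1 ndN4q3 pcN3 Cut.none Ext.none :=
  certNK2 (fam := false) (s1 := true) (s2 := true) (a := 1) (b := 3) (c := 3) (cn := .dn) (n1 := ndN3q1) (n2 := ndN4q3) (pc := pcN3) (cut := Cut.none) (xt := Ext.none) (P1 := 536870912) (W1 := 536870912) (P2 := 0) (W2 := 1230186008) (P3 := 67108864) (W3 := 67108864) (N0 := 3)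
    rfl rfl rfl (fun _ => rfl) k0_pp_133

noncomputable def f_pp_202 : ℕ → ℕ → ℕ → ℕ → Bool := onCell 1073741824 536870912 1073741824 536870912 67108864 67108864
    (rowNK 3 0 false true true .pp 2 0 2 (qsf 1073741824 536870912 1073741824 536870912 0) ndN3q2 ndN4q2 pcN0 Cut.none Ext.none)

def k0_pp_202 : ∃ t, chk3 f_pp_202 t 1 1 1 = true :=
  ⟨(l 3), by decide +kernel⟩

theorem c_pp_202 : CertN 1073741824 536870912 1073741824 536870912 67108864 67108864 3 false true true .pp 2 0 2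
    ndN3q2 ndN4q2 pcN0 Cut.none Ext.none :=
  certNK0 (fam := false) (s1 := true) (s2 := true) (a := 2) (b := 0) (c := 2) (cn := .pp) (n1 := ndN3q2) (n2 := ndN4q2) (pc := pcN0) (cut := Cut.none) (xt := Ext.none) (P1 := 1073741824) (W1 := 536870912) (P2 := 1073741824) (W2 := 536870912) (P3 := 67108864) (W3 := 67108864) (N0 := 3)
    rfl rfl rfl k0_pp_202

noncomputable def f_pp_203 : ℕ → ℕ → ℕ → ℕ → Bool := onCell 0 536870912 0 1230186008 67108864 67108864
    (rowNK 3 2 false true true .up 2 0 3 (qsf 1073741824 536870912 0 1230186008 0) ndN3q2 ndN4q3 pcN0 Cut.none Ext.none)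

def k0_pp_203 : ∃ t, chk3 f_pp_203 t 1 1 1 = true :=
  ⟨(b (a (l 2) (l 3)) (l 3)), by decide +kernel⟩

theorem c_pp_203 : CertN 1073741824 536870912 0 1230186008 67108864 67108864 3 false true true .up 2 0 3
    ndN3q2 ndN4q3 pcN0 Cut.none Ext.none :=
  certNK2 (fam := false) (s1 := true) (s2 := true) (a := 2) (b := 0) (c := 3) (cn := .up) (n1 := ndN3q2) (n2 := ndN4q3) (pc := pcN0) (cut := Cut.none) (xt := Ext.none) (P1 := 1073741824) (W1 := 536870912) (P2 := 0) (W2 := 1230186008) (P3 := 67108864) (W3 := 67108864) (N0 := 3)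
    rfl rfl rfl (fun _ => rfl) k0_pp_203

noncomputable def f_pp_213 : ℕ → ℕ → ℕ → ℕ → Bool := onCell 536870912 536870912 0 1230186008 67108864 67108864
    (rowNK 3 2 false true true .pnn 2 1 3 (qsf 1073741824 536870912 0 1230186008 1) ndN3q2 ndN4q3 pcN1 Cut.none Ext.none)

def k0_pp_213 : ∃ t, chk3 f_pp_213 t 1 1 1 = true :=
  ⟨(b (a (a (l 3) (b (l 270752262887) (l 3))) (a (b (l 236392348919) (l 3)) (b (l 17089792) (l 364167588839)))) (l 3)), by decide +kernel⟩

theorem c_pp_213 : CertN 1073741824 536870912 0 1230186008 67108864 67108864 3 false true true .pnn 2 1 3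
    ndN3q2 ndN4q3 pcN1 Cut.none Ext.none :=
  certNK2 (fam := false) (s1 := true) (s2 := true) (a := 2) (b := 1) (c := 3) (cn := .pnn) (n1 := ndN3q2) (n2 := ndN4q3) (pc := pcN1) (cut := Cut.none) (xt := Ext.none) (P1 := 1073741824) (W1 := 536870912) (P2 := 0) (W2 := 1230186008) (P3 := 67108864) (W3 := 67108864) (N0 := 3)
    rfl rfl rfl (fun _ => rfl) k0_pp_213

noncomputable def f_pp_303 : ℕ → ℕ → ℕ → ℕ → Bool := onCell 0 1230186008 0 1230186008 67108864 67108864
    (rowNK 3 0 false true true .npn 3 0 3 (qsf 0 1230186008 0 1230186008 0) ndN3q3 ndN4q3 pcN0 Cut.none Ext.none)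

def k0_pp_303 : ∃ t, chk3 f_pp_303 t 1 1 1 = true :=
  ⟨(a (b (l 3) (l 5)) (a (l 3) (l 3))), by decide +kernel⟩

theorem c_pp_303 : CertN 0 1230186008 0 1230186008 67108864 67108864 3 false true true .npn 3 0 3
    ndN3q3 ndN4q3 pcN0 Cut.none Ext.none :=
  certNK0 (fam := false) (s1 := true) (s2 := true) (a := 3) (b := 0) (c := 3) (cn := .npn) (n1 := ndN3q3) (n2 := ndN4q3) (pc := pcN0) (cut := Cut.none) (xt := Ext.none) (P1 := 0) (W1 := 1230186008) (P2 := 0) (W2 := 1230186008) (P3 := 67108864) (W3 := 67108864) (N0 := 3)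
    rfl rfl rfl k0_pp_303

noncomputable def f_pp_313 : ℕ → ℕ → ℕ → ℕ → Bool := onCell 0 1230186008 0 1230186008 67108864 67108864
    (rowNK 3 0 false true true .dn 3 1 3 (qsf 0 1230186008 0 1230186008 1) ndN3q3 ndN4q3 pcN1 Cut.none Ext.none)

def k0_pp_313 : ∃ t, chk3 f_pp_313 t 1 1 1 = true :=
  ⟨(a (l 1) (b (l 3) (l 1))), by decide +kernel⟩

theorem c_pp_313 : CertN 0 1230186008 0 1230186008 67108864 67108864 3 false true true .dn 3 1 3
    ndN3q3 ndN4q3 pcN1 Cut.none Ext.none :=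
  certNK0 (fam := false) (s1 := true) (s2 := true) (a := 3) (b := 1) (c := 3) (cn := .dn) (n1 := ndN3q3) (n2 := ndN4q3) (pc := pcN1) (cut := Cut.none) (xt := Ext.none) (P1 := 0) (W1 := 1230186008) (P2 := 0) (W2 := 1230186008) (P3 := 67108864) (W3 := 67108864) (N0 := 3)
    rfl rfl rfl k0_pp_313

noncomputable def f_pm_001 : ℕ → ℕ → ℕ → ℕ → Bool := onCell 0 536870912 536870912 536870912 67108864 67108864
    (rowNK 3 0 false true false .up 0 0 1 (qsf 0 536870912 536870912 536870912 0) ndN3q0 ndN4q1 pcN0 Cut.none Ext.none)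

def k0_pm_001 : ∃ t, chk3 f_pm_001 t 1 1 1 = true :=
  ⟨(l 4), by decide +kernel⟩

theorem c_pm_001 : CertN 0 536870912 536870912 536870912 67108864 67108864 3 false true false .up 0 0 1
    ndN3q0 ndN4q1 pcN0 Cut.none Ext.none :=
  certNK0 (fam := false) (s1 := true) (s2 := false) (a := 0) (b := 0) (c := 1) (cn := .up) (n1 := ndN3q0) (n2 := ndN4q1) (pc := pcN0) (cut := Cut.none) (xt := Ext.none) (P1 := 0) (W1 := 536870912) (P2 := 536870912) (W2 := 536870912) (P3 := 67108864) (W3 := 67108864) (N0 := 3)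
    rfl rfl rfl k0_pm_001

noncomputable def f_pm_011 : ℕ → ℕ → ℕ → ℕ → Bool := onCell 0 536870912 536870912 536870912 67108864 67108864
    (rowNK 3 0 false true false .pnn 0 1 1 (qsf 0 536870912 536870912 536870912 1) ndN3q0 ndN4q1 pcN1 Cut.none Ext.none)

def k0_pm_011 : ∃ t, chk3 f_pm_011 t 1 1 1 = true :=
  ⟨(l 4), by decide +kernel⟩

theorem c_pm_011 : CertN 0 536870912 536870912 536870912 67108864 67108864 3 false true false .pnn 0 1 1
    ndN3q0 ndN4q1 pcN1 Cut.none Ext.none :=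
  certNK0 (fam := false) (s1 := true) (s2 := false) (a := 0) (b := 1) (c := 1) (cn := .pnn) (n1 := ndN3q0) (n2 := ndN4q1) (pc := pcN1) (cut := Cut.none) (xt := Ext.none) (P1 := 0) (W1 := 536870912) (P2 := 536870912) (W2 := 536870912) (P3 := 67108864) (W3 := 67108864) (N0 := 3)
    rfl rfl rfl k0_pm_011

noncomputable def f_pm_012 : ℕ → ℕ → ℕ → ℕ → Bool := onCell 0 536870912 1073741824 536870912 67108864 67108864
    (rowNK 3 0 false true false .pnp 0 1 2 (qsf 0 536870912 1073741824 536870912 1) ndN3q0 ndN4q2 pcN1 Cut.none Ext.none)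

def k0_pm_012 : ∃ t, chk3 f_pm_012 t 1 1 1 = true :=
  ⟨(l 4), by decide +kernel⟩

theorem c_pm_012 : CertN 0 536870912 1073741824 536870912 67108864 67108864 3 false true false .pnp 0 1 2
    ndN3q0 ndN4q2 pcN1 Cut.none Ext.none :=
  certNK0 (fam := false) (s1 := true) (s2 := false) (a := 0) (b := 1) (c := 2) (cn := .pnp) (n1 := ndN3q0) (n2 := ndN4q2) (pc := pcN1) (cut := Cut.none) (xt := Ext.none) (P1 := 0) (W1 := 536870912) (P2 := 1073741824) (W2 := 536870912) (P3 := 67108864) (W3 := 67108864) (N0 := 3)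
    rfl rfl rfl k0_pm_012

noncomputable def f_pm_022 : ℕ → ℕ → ℕ → ℕ → Bool := onCell 0 536870912 1073741824 536870912 67108864 67108864
    (rowNK 3 0 false true false .pp 0 2 2 (qsf 0 536870912 1073741824 536870912 2) ndN3q0 ndN4q2 pcN2 Cut.none Ext.none)

def k0_pm_022 : ∃ t, chk3 f_pm_022 t 1 1 1 = true :=
  ⟨(l 4), by decide +kernel⟩

theorem c_pm_022 : CertN 0 536870912 1073741824 536870912 67108864 67108864 3 false true false .pp 0 2 2
    ndN3q0 ndN4q2 pcN2 Cut.none Ext.none :=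
  certNK0 (fam := false) (s1 := true) (s2 := false) (a := 0) (b := 2) (c := 2) (cn := .pp) (n1 := ndN3q0) (n2 := ndN4q2) (pc := pcN2) (cut := Cut.none) (xt := Ext.none) (P1 := 0) (W1 := 536870912) (P2 := 1073741824) (W2 := 536870912) (P3 := 67108864) (W3 := 67108864) (N0 := 3)
    rfl rfl rfl k0_pm_022

noncomputable def f_pm_023 : ℕ → ℕ → ℕ → ℕ → Bool := onCell 0 536870912 0 1230186008 67108864 67108864
    (rowNK 3 0 false true false .up 0 2 3 (qsf 0 536870912 0 1230186008 2) ndN3q0 ndN4q3 pcN2 Cut.none Ext.none)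

def k0_pm_023 : ∃ t, chk3 f_pm_023 t 1 1 1 = true :=
  ⟨(l 4), by decide +kernel⟩

theorem c_pm_023 : CertN 0 536870912 0 1230186008 67108864 67108864 3 false true false .up 0 2 3
    ndN3q0 ndN4q3 pcN2 Cut.none Ext.none :=
  certNK0 (fam := false) (s1 := true) (s2 := false) (a := 0) (b := 2) (c := 3) (cn := .up) (n1 := ndN3q0) (n2 := ndN4q3) (pc := pcN2) (cut := Cut.none) (xt := Ext.none) (P1 := 0) (W1 := 536870912) (P2 := 0) (W2 := 1230186008) (P3 := 67108864) (W3 := 67108864) (N0 := 3)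
    rfl rfl rfl k0_pm_023

noncomputable def f_pm_033 : ℕ → ℕ → ℕ → ℕ → Bool := onCell 0 536870912 0 1230186008 67108864 67108864
    (rowNK 3 0 false true false .pnn 0 3 3 (qsf 0 536870912 0 1230186008 3) ndN3q0 ndN4q3 pcN3 Cut.none Ext.none)

def k0_pm_033 : ∃ t, chk3 f_pm_033 t 1 1 1 = true :=
  ⟨(l 4), by decide +kernel⟩

theorem c_pm_033 : CertN 0 536870912 0 1230186008 67108864 67108864 3 false true false .pnn 0 3 3
    ndN3q0 ndN4q3 pcN3 Cut.none Ext.none :=
  certNK0 (fam := false) (s1 := true) (s2 := false) (a := 0) (b := 3) (c := 3) (cn := .pnn) (n1 := ndN3q0) (n2 := ndN4q3) (pc := pcN3) (cut := Cut.none) (xt := Ext.none) (P1 := 0) (W1 := 536870912) (P2 := 0) (W2 := 1230186008) (P3 := 67108864) (W3 := 67108864) (N0 := 3)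
    rfl rfl rfl k0_pm_033

noncomputable def f_pm_101 : ℕ → ℕ → ℕ → ℕ → Bool := onCell 536870912 536870912 536870912 536870912 67108864 67108864
    (rowNK 3 0 false true false .npn 1 0 1 (qsf 536870912 536870912 536870912 536870912 0) ndN3q1 ndN4q1 pcN0 Cut.none Ext.none)

def k0_pm_101 : ∃ t, chk3 f_pm_101 t 1 1 1 = true :=
  ⟨(l 4), by decide +kernel⟩

theorem c_pm_101 : CertN 536870912 536870912 536870912 536870912 67108864 67108864 3 false true false .npn 1 0 1
    ndN3q1 ndN4q1 pcN0 Cut.none Ext.none :=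
  certNK0 (fam := false) (s1 := true) (s2 := false) (a := 1) (b := 0) (c := 1) (cn := .npn) (n1 := ndN3q1) (n2 := ndN4q1) (pc := pcN0) (cut := Cut.none) (xt := Ext.none) (P1 := 536870912) (W1 := 536870912) (P2 := 536870912) (W2 := 536870912) (P3 := 67108864) (W3 := 67108864) (N0 := 3)
    rfl rfl rfl k0_pm_101

noncomputable def f_pm_102 : ℕ → ℕ → ℕ → ℕ → Bool := onCell 536870912 536870912 1073741824 536870912 67108864 67108864
    (rowNK 3 0 false true false .npp 1 0 2 (qsf 536870912 536870912 1073741824 536870912 0) ndN3q1 ndN4q2 pcN0 Cut.none Ext.none)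

def k0_pm_102 : ∃ t, chk3 f_pm_102 t 1 1 1 = true :=
  ⟨(l 4), by decide +kernel⟩

theorem c_pm_102 : CertN 536870912 536870912 1073741824 536870912 67108864 67108864 3 false true false .npp 1 0 2
    ndN3q1 ndN4q2 pcN0 Cut.none Ext.none :=
  certNK0 (fam := false) (s1 := true) (s2 := false) (a := 1) (b := 0) (c := 2) (cn := .npp) (n1 := ndN3q1) (n2 := ndN4q2) (pc := pcN0) (cut := Cut.none) (xt := Ext.none) (P1 := 536870912) (W1 := 536870912) (P2 := 1073741824) (W2 := 536870912) (P3 := 67108864) (W3 := 67108864) (N0 := 3)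
    rfl rfl rfl k0_pm_102

noncomputable def f_pm_112 : ℕ → ℕ → ℕ → ℕ → Bool := onCell 536870912 536870912 1073741824 536870912 67108864 67108864
    (rowNK 3 0 false true false .dn 1 1 2 (qsf 536870912 536870912 1073741824 536870912 1) ndN3q1 ndN4q2 pcN1 Cut.none Ext.none)

def k0_pm_112 : ∃ t, chk3 f_pm_112 t 1 1 1 = true :=
  ⟨(l 4), by decide +kernel⟩

theorem c_pm_112 : CertN 536870912 536870912 1073741824 536870912 67108864 67108864 3 false true false .dn 1 1 2
    ndN3q1 ndN4q2 pcN1 Cut.none Ext.none :=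
  certNK0 (fam := false) (s1 := true) (s2 := false) (a := 1) (b := 1) (c := 2) (cn := .dn) (n1 := ndN3q1) (n2 := ndN4q2) (pc := pcN1) (cut := Cut.none) (xt := Ext.none) (P1 := 536870912) (W1 := 536870912) (P2 := 1073741824) (W2 := 536870912) (P3 := 67108864) (W3 := 67108864) (N0 := 3)
    rfl rfl rfl k0_pm_112

noncomputable def f_pm_113 : ℕ → ℕ → ℕ → ℕ → Bool := onCell 536870912 536870912 0 1230186008 67108864 67108864
    (rowNK 3 0 false true false .nn 1 1 3 (qsf 536870912 536870912 0 1230186008 1) ndN3q1 ndN4q3 pcN1 Cut.none Ext.none)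

def k0_pm_113 : ∃ t, chk3 f_pm_113 t 1 1 1 = true :=
  ⟨(b (b (a (l 2) (a (l 2) (l 16840400))) (l 4)) (l 4)), by decide +kernel⟩

theorem c_pm_113 : CertN 536870912 536870912 0 1230186008 67108864 67108864 3 false true false .nn 1 1 3
    ndN3q1 ndN4q3 pcN1 Cut.none Ext.none :=
  certNK0 (fam := false) (s1 := true) (s2 := false) (a := 1) (b := 1) (c := 3) (cn := .nn) (n1 := ndN3q1) (n2 := ndN4q3) (pc := pcN1) (cut := Cut.none) (xt := Ext.none) (P1 := 536870912) (W1 := 536870912) (P2 := 0) (W2 := 1230186008) (P3 := 67108864) (W3 := 67108864) (N0 := 3)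
    rfl rfl rfl k0_pm_113

noncomputable def f_pm_123 : ℕ → ℕ → ℕ → ℕ → Bool := onCell 1073741824 536870912 0 1230186008 67108864 67108864
    (rowNK 3 2 false true false .npn 1 2 3 (qsf 536870912 536870912 0 1230186008 2) ndN3q1 ndN4q3 pcN2 Cut.none Ext.none)

def k0_pm_123 : ∃ t, chk3 f_pm_123 t 1 1 1 = true :=
  ⟨(b (a (l 17714256) (l 4)) (l 4)), by decide +kernel⟩

theorem c_pm_123 : CertN 536870912 536870912 0 1230186008 67108864 67108864 3 false true false .npn 1 2 3
    ndN3q1 ndN4q3 pcN2 Cut.none Ext.none :=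
  certNK2 (fam := false) (s1 := true) (s2 := false) (a := 1) (b := 2) (c := 3) (cn := .npn) (n1 := ndN3q1) (n2 := ndN4q3) (pc := pcN2) (cut := Cut.none) (xt := Ext.none) (P1 := 536870912) (W1 := 536870912) (P2 := 0) (W2 := 1230186008) (P3 := 67108864) (W3 := 67108864) (N0 := 3)
    rfl rfl rfl (fun _ => rfl) k0_pm_123

noncomputable def f_pm_133 : ℕ → ℕ → ℕ → ℕ → Bool := onCell 1610612736 536870912 0 1230186008 67108864 67108864
    (rowNK 3 2 false true false .dn 1 3 3 (qsf 536870912 536870912 0 1230186008 3) ndN3q1 ndN4q3 pcN3 Cut.none Ext.none)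

def k0_pm_133 : ∃ t, chk3 f_pm_133 t 1 1 1 = true :=
  ⟨(b (l 4) (l 1)), by decide +kernel⟩

theorem c_pm_133 : CertN 536870912 536870912 0 1230186008 67108864 67108864 3 false true false .dn 1 3 3
    ndN3q1 ndN4q3 pcN3 Cut.none Ext.none :=
  certNK2 (fam := false) (s1 := true) (s2 := false) (a := 1) (b := 3) (c := 3) (cn := .dn) (n1 := ndN3q1) (n2 := ndN4q3) (pc := pcN3) (cut := Cut.none) (xt := Ext.none) (P1 := 536870912) (W1 := 536870912) (P2 := 0) (W2 := 1230186008) (P3 := 67108864) (W3 := 67108864) (N0 := 3)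
    rfl rfl rfl (fun _ => rfl) k0_pm_133

noncomputable def f_pm_202 : ℕ → ℕ → ℕ → ℕ → Bool := onCell 1073741824 536870912 1073741824 536870912 67108864 67108864
    (rowNK 3 0 false true false .pp 2 0 2 (qsf 1073741824 536870912 1073741824 536870912 0) ndN3q2 ndN4q2 pcN0 Cut.none Ext.none)

def k0_pm_202 : ∃ t, chk3 f_pm_202 t 1 1 1 = true :=
  ⟨(l 4), by decide +kernel⟩

theorem c_pm_202 : CertN 1073741824 536870912 1073741824 536870912 67108864 67108864 3 false true false .pp 2 0 2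
    ndN3q2 ndN4q2 pcN0 Cut.none Ext.none :=
  certNK0 (fam := false) (s1 := true) (s2 := false) (a := 2) (b := 0) (c := 2) (cn := .pp) (n1 := ndN3q2) (n2 := ndN4q2) (pc := pcN0) (cut := Cut.none) (xt := Ext.none) (P1 := 1073741824) (W1 := 536870912) (P2 := 1073741824) (W2 := 536870912) (P3 := 67108864) (W3 := 67108864) (N0 := 3)
    rfl rfl rfl k0_pm_202

noncomputable def f_pm_203 : ℕ → ℕ → ℕ → ℕ → Bool := onCell 0 536870912 0 1230186008 67108864 67108864
    (rowNK 3 2 false true false .up 2 0 3 (qsf 1073741824 536870912 0 1230186008 0) ndN3q2 ndN4q3 pcN0 Cut.none Ext.none)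

def k0_pm_203 : ∃ t, chk3 f_pm_203 t 1 1 1 = true :=
  ⟨(b (a (l 2) (a (l 2) (b (l 260551500903) (b (l 17204000) (l 16999672))))) (a (b (a (l 2) (b (l 2) (l 17160408))) (b (l 17104208) (l 17597056))) (b (a (b (l 915466456471) (l 17192168)) (b (a (l 16855360) (b (l 17253424) (l 17213480))) (l 17295616))) (a (l 17635264) (b (l 17515792) (l 4)))))), by decide +kernel⟩

theorem c_pm_203 : CertN 1073741824 536870912 0 1230186008 67108864 67108864 3 false true false .up 2 0 3
    ndN3q2 ndN4q3 pcN0 Cut.none Ext.none :=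
  certNK2 (fam := false) (s1 := true) (s2 := false) (a := 2) (b := 0) (c := 3) (cn := .up) (n1 := ndN3q2) (n2 := ndN4q3) (pc := pcN0) (cut := Cut.none) (xt := Ext.none) (P1 := 1073741824) (W1 := 536870912) (P2 := 0) (W2 := 1230186008) (P3 := 67108864) (W3 := 67108864) (N0 := 3)
    rfl rfl rfl (fun _ => rfl) k0_pm_203

noncomputable def f_pm_213 : ℕ → ℕ → ℕ → ℕ → Bool := onCell 536870912 536870912 0 1230186008 67108864 67108864
    (rowNK 3 2 false true false .pnn 2 1 3 (qsf 1073741824 536870912 0 1230186008 1) ndN3q2 ndN4q3 pcN1 Cut.none Ext.none)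

def k0_pm_213 : ∃ t, chk3 f_pm_213 t 1 1 1 = true :=
  ⟨(b (b (a (a (l 17616520) (l 17474304)) (b (a (l 17237056) (l 17009360)) (a (l 17408712) (a (l 17144528) (a (l 16965520) (l 16825088)))))) (a (a (l 18071408) (l 17833640)) (a (b (l 17416096) (a (l 17392504) (l 16928912))) (a (b (l 16931192) (l 17325792)) (a (l 17205240) (l 17306136)))))) (b (a (a (b (b (b (l 18628872) (l 18451784)) (b (l 17489032) (a (l 17053160) (l 17310200)))) (a (b (l 17429736) (l 17511464)) (l 17580232))) (b (b (a (l 17751712) (l 17417816)) (a (l 17054920) (l 17248920))) (l 17730384))) (b (a (a (b (l 17223064) (l 17469080)) (l 17671368)) (a (l 17795704) (l 1))) (l 17994080))) (a (l 161836410663) (l 1)))), by decide +kernel⟩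

theorem c_pm_213 : CertN 1073741824 536870912 0 1230186008 67108864 67108864 3 false true false .pnn 2 1 3
    ndN3q2 ndN4q3 pcN1 Cut.none Ext.none :=
  certNK2 (fam := false) (s1 := true) (s2 := false) (a := 2) (b := 1) (c := 3) (cn := .pnn) (n1 := ndN3q2) (n2 := ndN4q3) (pc := pcN1) (cut := Cut.none) (xt := Ext.none) (P1 := 1073741824) (W1 := 536870912) (P2 := 0) (W2 := 1230186008) (P3 := 67108864) (W3 := 67108864) (N0 := 3)
    rfl rfl rfl (fun _ => rfl) k0_pm_213

noncomputable def f_pm_303 : ℕ → ℕ → ℕ → ℕ → Bool := onCell 0 1230186008 0 1230186008 67108864 67108864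
    (rowNK 3 0 false true false .npn 3 0 3 (qsf 0 1230186008 0 1230186008 0) ndN3q3 ndN4q3 pcN0 Cut.none Ext.none)

def k0_pm_303 : ∃ t, chk3 f_pm_303 t 1 1 1 = true :=
  ⟨(a (b (l 3) (b (b (b (l 3) (l 1)) (l 1)) (l 1))) (b (a (b (l 3) (a (l 3) (b (l 3) (l 17063824)))) (b (a (l 3) (l 269679523303)) (a (b (l 17394440) (l 17671344)) (b (l 17856632) (l 18075752))))) (a (b (a (b (b (l 17642256) (l 17399576)) (b (l 17466072) (l 1))) (b (b (l 17165032) (l 17075920)) (b (l 17454576) (a (l 17751944) (l 17786616))))) (a (l 1) (b (b (l 17709672) (l 1)) (l 1)))) (b (a (b (b (l 17435792) (l 17580448)) (b (l 17759544) (l 17828136))) (b (b (l 18280744) (l 18110880)) (l 17980912))) (a (b (l 17729448) (a (l 1) (b (l 17494400) (l 1)))) (b (l 17847080) (l 17528088))))))), by decide +kernel⟩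

theorem c_pm_303 : CertN 0 1230186008 0 1230186008 67108864 67108864 3 false true false .npn 3 0 3
    ndN3q3 ndN4q3 pcN0 Cut.none Ext.none :=
  certNK0 (fam := false) (s1 := true) (s2 := false) (a := 3) (b := 0) (c := 3) (cn := .npn) (n1 := ndN3q3) (n2 := ndN4q3) (pc := pcN0) (cut := Cut.none) (xt := Ext.none) (P1 := 0) (W1 := 1230186008) (P2 := 0) (W2 := 1230186008) (P3 := 67108864) (W3 := 67108864) (N0 := 3)
    rfl rfl rfl k0_pm_303

noncomputable def f_pm_313 : ℕ → ℕ → ℕ → ℕ → Bool := onCell 0 1230186008 0 1230186008 67108864 67108864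
    (rowNK 3 0 false true false .dn 3 1 3 (qsf 0 1230186008 0 1230186008 1) ndN3q3 ndN4q3 pcN1 Cut.none Ext.none)

def k0_pm_313 : ∃ t, chk3 f_pm_313 t 1 1 1 = true :=
  ⟨(a (l 1) (b (b (b (l 3) (l 1)) (l 1)) (l 1))), by decide +kernel⟩

theorem c_pm_313 : CertN 0 1230186008 0 1230186008 67108864 67108864 3 false true false .dn 3 1 3
    ndN3q3 ndN4q3 pcN1 Cut.none Ext.none :=
  certNK0 (fam := false) (s1 := true) (s2 := false) (a := 3) (b := 1) (c := 3) (cn := .dn) (n1 := ndN3q3) (n2 := ndN4q3) (pc := pcN1) (cut := Cut.none) (xt := Ext.none) (P1 := 0) (W1 := 1230186008) (P2 := 0) (W2 := 1230186008) (P3 := 67108864) (W3 := 67108864) (N0 := 3)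
    rfl rfl rfl k0_pm_313

noncomputable def f_mm_001 : ℕ → ℕ → ℕ → ℕ → Bool := onCell 0 536870912 536870912 536870912 67108864 67108864
    (rowNK 3 0 false false false .up 0 0 1 (qsf 0 536870912 536870912 536870912 0) ndN3q0 ndN4q1 pcN0 Cut.none Ext.none)

def k0_mm_001 : ∃ t, chk3 f_mm_001 t 1 1 1 = true :=
  ⟨(l 3), by decide +kernel⟩

theorem c_mm_001 : CertN 0 536870912 536870912 536870912 67108864 67108864 3 false false false .up 0 0 1
    ndN3q0 ndN4q1 pcN0 Cut.none Ext.none :=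
  certNK0 (fam := false) (s1 := false) (s2 := false) (a := 0) (b := 0) (c := 1) (cn := .up) (n1 := ndN3q0) (n2 := ndN4q1) (pc := pcN0) (cut := Cut.none) (xt := Ext.none) (P1 := 0) (W1 := 536870912) (P2 := 536870912) (W2 := 536870912) (P3 := 67108864) (W3 := 67108864) (N0 := 3)
    rfl rfl rfl k0_mm_001

noncomputable def f_mm_011 : ℕ → ℕ → ℕ → ℕ → Bool := onCell 0 536870912 536870912 536870912 67108864 67108864
    (rowNK 3 0 false false false .pnn 0 1 1 (qsf 0 536870912 536870912 536870912 1) ndN3q0 ndN4q1 pcN1 Cut.none Ext.none)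

def k0_mm_011 : ∃ t, chk3 f_mm_011 t 1 1 1 = true :=
  ⟨(l 3), by decide +kernel⟩

theorem c_mm_011 : CertN 0 536870912 536870912 536870912 67108864 67108864 3 false false false .pnn 0 1 1
    ndN3q0 ndN4q1 pcN1 Cut.none Ext.none :=
  certNK0 (fam := false) (s1 := false) (s2 := false) (a := 0) (b := 1) (c := 1) (cn := .pnn) (n1 := ndN3q0) (n2 := ndN4q1) (pc := pcN1) (cut := Cut.none) (xt := Ext.none) (P1 := 0) (W1 := 536870912) (P2 := 536870912) (W2 := 536870912) (P3 := 67108864) (W3 := 67108864) (N0 := 3)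
    rfl rfl rfl k0_mm_011

noncomputable def f_mm_012 : ℕ → ℕ → ℕ → ℕ → Bool := onCell 0 536870912 1073741824 536870912 67108864 67108864
    (rowNK 3 0 false false false .pnp 0 1 2 (qsf 0 536870912 1073741824 536870912 1) ndN3q0 ndN4q2 pcN1 Cut.none Ext.none)

def k0_mm_012 : ∃ t, chk3 f_mm_012 t 1 1 1 = true :=
  ⟨(l 5), by decide +kernel⟩

theorem c_mm_012 : CertN 0 536870912 1073741824 536870912 67108864 67108864 3 false false false .pnp 0 1 2
    ndN3q0 ndN4q2 pcN1 Cut.none Ext.none :=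
  certNK0 (fam := false) (s1 := false) (s2 := false) (a := 0) (b := 1) (c := 2) (cn := .pnp) (n1 := ndN3q0) (n2 := ndN4q2) (pc := pcN1) (cut := Cut.none) (xt := Ext.none) (P1 := 0) (W1 := 536870912) (P2 := 1073741824) (W2 := 536870912) (P3 := 67108864) (W3 := 67108864) (N0 := 3)
    rfl rfl rfl k0_mm_012

noncomputable def f_mm_022 : ℕ → ℕ → ℕ → ℕ → Bool := onCell 0 536870912 1073741824 536870912 67108864 67108864
    (rowNK 3 0 false false false .pp 0 2 2 (qsf 0 536870912 1073741824 536870912 2) ndN3q0 ndN4q2 pcN2 Cut.none Ext.none)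

def k0_mm_022 : ∃ t, chk3 f_mm_022 t 1 1 1 = true :=
  ⟨(l 5), by decide +kernel⟩

theorem c_mm_022 : CertN 0 536870912 1073741824 536870912 67108864 67108864 3 false false false .pp 0 2 2
    ndN3q0 ndN4q2 pcN2 Cut.none Ext.none :=
  certNK0 (fam := false) (s1 := false) (s2 := false) (a := 0) (b := 2) (c := 2) (cn := .pp) (n1 := ndN3q0) (n2 := ndN4q2) (pc := pcN2) (cut := Cut.none) (xt := Ext.none) (P1 := 0) (W1 := 536870912) (P2 := 1073741824) (W2 := 536870912) (P3 := 67108864) (W3 := 67108864) (N0 := 3)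
    rfl rfl rfl k0_mm_022

noncomputable def f_mm_023 : ℕ → ℕ → ℕ → ℕ → Bool := onCell 0 536870912 0 1230186008 67108864 67108864
    (rowNK 3 0 false false false .up 0 2 3 (qsf 0 536870912 0 1230186008 2) ndN3q0 ndN4q3 pcN2 Cut.none Ext.none)

def k0_mm_023 : ∃ t, chk3 f_mm_023 t 1 1 1 = true :=
  ⟨(l 5), by decide +kernel⟩

theorem c_mm_023 : CertN 0 536870912 0 1230186008 67108864 67108864 3 false false false .up 0 2 3
    ndN3q0 ndN4q3 pcN2 Cut.none Ext.none :=
  certNK0 (fam := false) (s1 := false) (s2 := false) (a := 0) (b := 2) (c := 3) (cn := .up) (n1 := ndN3q0) (n2 := ndN4q3) (pc := pcN2) (cut := Cut.none) (xt := Ext.none) (P1 := 0) (W1 := 536870912) (P2 := 0) (W2 := 1230186008) (P3 := 67108864) (W3 := 67108864) (N0 := 3)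
    rfl rfl rfl k0_mm_023

noncomputable def f_mm_033 : ℕ → ℕ → ℕ → ℕ → Bool := onCell 0 536870912 0 1230186008 67108864 67108864
    (rowNK 3 0 false false false .pnn 0 3 3 (qsf 0 536870912 0 1230186008 3) ndN3q0 ndN4q3 pcN3 Cut.none Ext.none)

def k0_mm_033 : ∃ t, chk3 f_mm_033 t 1 1 1 = true :=
  ⟨(l 5), by decide +kernel⟩

theorem c_mm_033 : CertN 0 536870912 0 1230186008 67108864 67108864 3 false false false .pnn 0 3 3
    ndN3q0 ndN4q3 pcN3 Cut.none Ext.none :=
  certNK0 (fam := false) (s1 := false) (s2 := false) (a := 0) (b := 3) (c := 3) (cn := .pnn) (n1 := ndN3q0) (n2 := ndN4q3) (pc := pcN3) (cut := Cut.none) (xt := Ext.none) (P1 := 0) (W1 := 536870912) (P2 := 0) (W2 := 1230186008) (P3 := 67108864) (W3 := 67108864) (N0 := 3)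
    rfl rfl rfl k0_mm_033

noncomputable def f_mm_101 : ℕ → ℕ → ℕ → ℕ → Bool := onCell 536870912 536870912 536870912 536870912 67108864 67108864
    (rowNK 3 0 false false false .npn 1 0 1 (qsf 536870912 536870912 536870912 536870912 0) ndN3q1 ndN4q1 pcN0 Cut.none Ext.none)

def k0_mm_101 : ∃ t, chk3 f_mm_101 t 1 1 1 = true :=
  ⟨(l 3), by decide +kernel⟩

theorem c_mm_101 : CertN 536870912 536870912 536870912 536870912 67108864 67108864 3 false false false .npn 1 0 1
    ndN3q1 ndN4q1 pcN0 Cut.none Ext.none :=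
  certNK0 (fam := false) (s1 := false) (s2 := false) (a := 1) (b := 0) (c := 1) (cn := .npn) (n1 := ndN3q1) (n2 := ndN4q1) (pc := pcN0) (cut := Cut.none) (xt := Ext.none) (P1 := 536870912) (W1 := 536870912) (P2 := 536870912) (W2 := 536870912) (P3 := 67108864) (W3 := 67108864) (N0 := 3)
    rfl rfl rfl k0_mm_101

noncomputable def f_mm_102 : ℕ → ℕ → ℕ → ℕ → Bool := onCell 536870912 536870912 1073741824 536870912 67108864 67108864
    (rowNK 3 0 false false false .npp 1 0 2 (qsf 536870912 536870912 1073741824 536870912 0) ndN3q1 ndN4q2 pcN0 Cut.none Ext.none)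

def k0_mm_102 : ∃ t, chk3 f_mm_102 t 1 1 1 = true :=
  ⟨(l 3), by decide +kernel⟩

theorem c_mm_102 : CertN 536870912 536870912 1073741824 536870912 67108864 67108864 3 false false false .npp 1 0 2
    ndN3q1 ndN4q2 pcN0 Cut.none Ext.none :=
  certNK0 (fam := false) (s1 := false) (s2 := false) (a := 1) (b := 0) (c := 2) (cn := .npp) (n1 := ndN3q1) (n2 := ndN4q2) (pc := pcN0) (cut := Cut.none) (xt := Ext.none) (P1 := 536870912) (W1 := 536870912) (P2 := 1073741824) (W2 := 536870912) (P3 := 67108864) (W3 := 67108864) (N0 := 3)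
    rfl rfl rfl k0_mm_102

noncomputable def f_mm_112 : ℕ → ℕ → ℕ → ℕ → Bool := onCell 536870912 536870912 1073741824 536870912 67108864 67108864
    (rowNK 3 0 false false false .dn 1 1 2 (qsf 536870912 536870912 1073741824 536870912 1) ndN3q1 ndN4q2 pcN1 Cut.none Ext.none)

def k0_mm_112 : ∃ t, chk3 f_mm_112 t 1 1 1 = true :=
  ⟨(l 3), by decide +kernel⟩

theorem c_mm_112 : CertN 536870912 536870912 1073741824 536870912 67108864 67108864 3 false false false .dn 1 1 2
    ndN3q1 ndN4q2 pcN1 Cut.none Ext.none :=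
  certNK0 (fam := false) (s1 := false) (s2 := false) (a := 1) (b := 1) (c := 2) (cn := .dn) (n1 := ndN3q1) (n2 := ndN4q2) (pc := pcN1) (cut := Cut.none) (xt := Ext.none) (P1 := 536870912) (W1 := 536870912) (P2 := 1073741824) (W2 := 536870912) (P3 := 67108864) (W3 := 67108864) (N0 := 3)
    rfl rfl rfl k0_mm_112

noncomputable def f_mm_113 : ℕ → ℕ → ℕ → ℕ → Bool := onCell 536870912 536870912 0 1230186008 67108864 67108864
    (rowNK 3 0 false false false .nn 1 1 3 (qsf 536870912 536870912 0 1230186008 1) ndN3q1 ndN4q3 pcN1 Cut.none Ext.none)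

def k0_mm_113 : ∃ t, chk3 f_mm_113 t 1 1 1 = true :=
  ⟨(l 5), by decide +kernel⟩

theorem c_mm_113 : CertN 536870912 536870912 0 1230186008 67108864 67108864 3 false false false .nn 1 1 3
    ndN3q1 ndN4q3 pcN1 Cut.none Ext.none :=
  certNK0 (fam := false) (s1 := false) (s2 := false) (a := 1) (b := 1) (c := 3) (cn := .nn) (n1 := ndN3q1) (n2 := ndN4q3) (pc := pcN1) (cut := Cut.none) (xt := Ext.none) (P1 := 536870912) (W1 := 536870912) (P2 := 0) (W2 := 1230186008) (P3 := 67108864) (W3 := 67108864) (N0 := 3)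
    rfl rfl rfl k0_mm_113

noncomputable def f_mm_123 : ℕ → ℕ → ℕ → ℕ → Bool := onCell 536870912 536870912 0 1230186008 67108864 67108864
    (rowNK 3 0 false false false .npn 1 2 3 (qsf 536870912 536870912 0 1230186008 2) ndN3q1 ndN4q3 pcN2 Cut.none Ext.none)

def k0_mm_123 : ∃ t, chk3 f_mm_123 t 1 1 1 = true :=
  ⟨(l 5), by decide +kernel⟩

theorem c_mm_123 : CertN 536870912 536870912 0 1230186008 67108864 67108864 3 false false false .npn 1 2 3
    ndN3q1 ndN4q3 pcN2 Cut.none Ext.none :=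
  certNK0 (fam := false) (s1 := false) (s2 := false) (a := 1) (b := 2) (c := 3) (cn := .npn) (n1 := ndN3q1) (n2 := ndN4q3) (pc := pcN2) (cut := Cut.none) (xt := Ext.none) (P1 := 536870912) (W1 := 536870912) (P2 := 0) (W2 := 1230186008) (P3 := 67108864) (W3 := 67108864) (N0 := 3)
    rfl rfl rfl k0_mm_123

noncomputable def f_mm_133 : ℕ → ℕ → ℕ → ℕ → Bool := onCell 536870912 536870912 0 1230186008 67108864 67108864
    (rowNK 3 0 false false false .dn 1 3 3 (qsf 536870912 536870912 0 1230186008 3) ndN3q1 ndN4q3 pcN3 Cut.none Ext.none)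

def k0_mm_133 : ∃ t, chk3 f_mm_133 t 1 1 1 = true :=
  ⟨(l 5), by decide +kernel⟩

theorem c_mm_133 : CertN 536870912 536870912 0 1230186008 67108864 67108864 3 false false false .dn 1 3 3
    ndN3q1 ndN4q3 pcN3 Cut.none Ext.none :=
  certNK0 (fam := false) (s1 := false) (s2 := false) (a := 1) (b := 3) (c := 3) (cn := .dn) (n1 := ndN3q1) (n2 := ndN4q3) (pc := pcN3) (cut := Cut.none) (xt := Ext.none) (P1 := 536870912) (W1 := 536870912) (P2 := 0) (W2 := 1230186008) (P3 := 67108864) (W3 := 67108864) (N0 := 3)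
    rfl rfl rfl k0_mm_133

noncomputable def f_mm_202 : ℕ → ℕ → ℕ → ℕ → Bool := onCell 1073741824 536870912 1073741824 536870912 67108864 67108864
    (rowNK 3 0 false false false .pp 2 0 2 (qsf 1073741824 536870912 1073741824 536870912 0) ndN3q2 ndN4q2 pcN0 Cut.none Ext.none)

def k0_mm_202 : ∃ t, chk3 f_mm_202 t 1 1 1 = true :=
  ⟨(l 3), by decide +kernel⟩

theorem c_mm_202 : CertN 1073741824 536870912 1073741824 536870912 67108864 67108864 3 false false false .pp 2 0 2
    ndN3q2 ndN4q2 pcN0 Cut.none Ext.none :=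
  certNK0 (fam := false) (s1 := false) (s2 := false) (a := 2) (b := 0) (c := 2) (cn := .pp) (n1 := ndN3q2) (n2 := ndN4q2) (pc := pcN0) (cut := Cut.none) (xt := Ext.none) (P1 := 1073741824) (W1 := 536870912) (P2 := 1073741824) (W2 := 536870912) (P3 := 67108864) (W3 := 67108864) (N0 := 3)
    rfl rfl rfl k0_mm_202

noncomputable def f_mm_203 : ℕ → ℕ → ℕ → ℕ → Bool := onCell 1073741824 536870912 0 1230186008 67108864 67108864
    (rowNK 3 0 false false false .up 2 0 3 (qsf 1073741824 536870912 0 1230186008 0) ndN3q2 ndN4q3 pcN0 Cut.none Ext.none)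

def k0_mm_203 : ∃ t, chk3 f_mm_203 t 1 1 1 = true :=
  ⟨(b (l 5) (l 3)), by decide +kernel⟩

theorem c_mm_203 : CertN 1073741824 536870912 0 1230186008 67108864 67108864 3 false false false .up 2 0 3
    ndN3q2 ndN4q3 pcN0 Cut.none Ext.none :=
  certNK0 (fam := false) (s1 := false) (s2 := false) (a := 2) (b := 0) (c := 3) (cn := .up) (n1 := ndN3q2) (n2 := ndN4q3) (pc := pcN0) (cut := Cut.none) (xt := Ext.none) (P1 := 1073741824) (W1 := 536870912) (P2 := 0) (W2 := 1230186008) (P3 := 67108864) (W3 := 67108864) (N0 := 3)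
    rfl rfl rfl k0_mm_203

noncomputable def f_mm_213 : ℕ → ℕ → ℕ → ℕ → Bool := onCell 1073741824 536870912 0 1230186008 67108864 67108864
    (rowNK 3 0 false false false .pnn 2 1 3 (qsf 1073741824 536870912 0 1230186008 1) ndN3q2 ndN4q3 pcN1 Cut.none Ext.none)

def k0_mm_213 : ∃ t, chk3 f_mm_213 t 1 1 1 = true :=
  ⟨(b (l 5) (l 3)), by decide +kernel⟩

theorem c_mm_213 : CertN 1073741824 536870912 0 1230186008 67108864 67108864 3 false false false .pnn 2 1 3
    ndN3q2 ndN4q3 pcN1 Cut.none Ext.none :=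
  certNK0 (fam := false) (s1 := false) (s2 := false) (a := 2) (b := 1) (c := 3) (cn := .pnn) (n1 := ndN3q2) (n2 := ndN4q3) (pc := pcN1) (cut := Cut.none) (xt := Ext.none) (P1 := 1073741824) (W1 := 536870912) (P2 := 0) (W2 := 1230186008) (P3 := 67108864) (W3 := 67108864) (N0 := 3)
    rfl rfl rfl k0_mm_213

noncomputable def f_mm_303 : ℕ → ℕ → ℕ → ℕ → Bool := onCell 0 1230186008 0 1230186008 67108864 67108864
    (rowNK 3 0 false false false .npn 3 0 3 (qsf 0 1230186008 0 1230186008 0) ndN3q3 ndN4q3 pcN0 Cut.none Ext.none)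

def k0_mm_303 : ∃ t, chk3 f_mm_303 t 1 1 1 = true :=
  ⟨(a (b (l 3) (b (l 3) (l 1))) (a (l 3) (l 3))), by decide +kernel⟩

theorem c_mm_303 : CertN 0 1230186008 0 1230186008 67108864 67108864 3 false false false .npn 3 0 3
    ndN3q3 ndN4q3 pcN0 Cut.none Ext.none :=
  certNK0 (fam := false) (s1 := false) (s2 := false) (a := 3) (b := 0) (c := 3) (cn := .npn) (n1 := ndN3q3) (n2 := ndN4q3) (pc := pcN0) (cut := Cut.none) (xt := Ext.none) (P1 := 0) (W1 := 1230186008) (P2 := 0) (W2 := 1230186008) (P3 := 67108864) (W3 := 67108864) (N0 := 3)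
    rfl rfl rfl k0_mm_303

noncomputable def f_mm_313 : ℕ → ℕ → ℕ → ℕ → Bool := onCell 0 1230186008 0 1230186008 67108864 67108864
    (rowNK 3 0 false false false .dn 3 1 3 (qsf 0 1230186008 0 1230186008 1) ndN3q3 ndN4q3 pcN1 Cut.none Ext.none)

def k0_mm_313 : ∃ t, chk3 f_mm_313 t 1 1 1 = true :=
  ⟨(a (l 1) (b (l 3) (l 1))), by decide +kernel⟩

theorem c_mm_313 : CertN 0 1230186008 0 1230186008 67108864 67108864 3 false false false .dn 3 1 3
    ndN3q3 ndN4q3 pcN1 Cut.none Ext.none :=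
  certNK0 (fam := false) (s1 := false) (s2 := false) (a := 3) (b := 1) (c := 3) (cn := .dn) (n1 := ndN3q3) (n2 := ndN4q3) (pc := pcN1) (cut := Cut.none) (xt := Ext.none) (P1 := 0) (W1 := 1230186008) (P2 := 0) (W2 := 1230186008) (P3 := 67108864) (W3 := 67108864) (N0 := 3)
    rfl rfl rfl k0_mm_313

end Pool.Agent.Strip051.G.I1_16_1_8.Tab.C.NB34

namespace Pool.Agent.Strip051.G.I1_16_1_8.Tab.C.NB40

open Pool.Agent.Strip051.PB Pool.Agent.Strip051.PB.T
open Pool.Agent.Strip051.G.I1_16_1_8.Tab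

noncomputable def f_pp_001 : ℕ → ℕ → ℕ → ℕ → Bool := onCell 0 536870912 536870912 536870912 67108864 67108864
    (rowNK 3 2 false true true .up 0 0 1 (qsf 0 536870912 536870912 536870912 0) ndN4q0 ndN0q1 pcN0 Cut.none Ext.none)

def k0_pp_001 : ∃ t, chk3 f_pp_001 t 2 1 1 = true :=
  ⟨(b (l 3) (b (b (l 3) (l 2)) (l 2))), by decide +kernel⟩

def k1_pp_001 : ∃ t, chk3 f_pp_001 t 3 1 1 = true :=
  ⟨(b (a (l 3) (b (l 3) (b (a (l 3) (b (a (l 3) (b (l 3) (a (l 3) (l 329806658807)))) (a (b (l 3) (a (l 3) (l 381346245575))) (a (b (l 329806649399) (l 269140287063)) (l 220285058679))))) (a (b (a (l 3) (b (l 3) (a (l 3) (b (l 318532345735) (a (l 314237353639) (l 16826592)))))) (a (b (a (l 3) (l 319069308439)) (a (b (l 3) (l 313700518375)) (b (a (l 312089879559) (l 358260740695)) (l 16851256)))) (b (a (b (l 315847995431) (l 322827289751)) (l 16824440)) (l 16851672)))) (b (a (b (a (b (l 319069231127) (a (l 314774239767) (l 16834584))) (l 267529661799)) (a (l 16868864)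 (l 16849680))) (l 16901352)) (a (l 16935216) (l 17048632))))))) (a (b (b (a (b (l 3) (a (l 3) (b (l 3) (a (l 3) (b (l 3) (a (l 307258030487) (l 336249093959))))))) (b (a (l 3) (b (a (l 3) (b (l 3) (a (l 311016139783) (l 350207682887)))) (a (b (l 313700518087) (a (l 310479246807) (l 330880326055))) (b (l 273435171719) (l 16815080))))) (a (b (a (b (l 3) (l 312089920279)) (b (a (l 308868652119) (l 342154660135)) (l 269140223399))) (a (b (a (l 308868628247) (l 317995441111)) (l 190220182007)) (l 16843088))) (a (a (b (l 16830704) (l 16895816)) (l 16881760)) (l 16911984))))) (a (b (a (l 2) (a (l 2) (a (l 2) (l 111233057239)))) (l 2)) (b (a (b (l 16868416) (l 16996568)) (l 17246640)) (l 229345997431)))) (b (a (l 2) (b (l 17485960) (l 2))) (l 2))) (b (b (a (b (a (a (b (a (l 311016152727) (l 16853328)) (l 16859904)) (l 16882016)) (b (l 16913864) (l 17020328))) (a (l 17199136) (l 17153592))) (b (l 17256768) (l 17317152))) (a (b (l 17326672) (l 17485984)) (l 17584120)))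 (b (a (l 17813600) (l 17968272)) (l 188009119095))))), by decide +kernel⟩

theorem s2_pp_001 : ∃ t, chk3 f_pp_001 t 1 1 1 = true := ex3_a k0_pp_001 k1_pp_001

theorem c_pp_001 : CertN 0 536870912 536870912 536870912 67108864 67108864 3 false true true .up 0 0 1
    ndN4q0 ndN0q1 pcN0 Cut.none Ext.none :=
  certNK2 (fam := false) (s1 := true) (s2 := true) (a := 0) (b := 0) (c := 1) (cn := .up) (n1 := ndN4q0) (n2 := ndN0q1) (pc := pcN0) (cut := Cut.none) (xt := Ext.none) (P1 := 0) (W1 := 536870912) (P2 := 536870912) (W2 := 536870912) (P3 := 67108864) (W3 := 67108864) (N0 := 3)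
    rfl rfl rfl (fun _ => rfl) s2_pp_001

noncomputable def f_pp_011 : ℕ → ℕ → ℕ → ℕ → Bool := onCell 536870912 536870912 536870912 536870912 67108864 67108864
    (rowNK 3 2 false true true .pnn 0 1 1 (qsf 0 536870912 536870912 536870912 1) ndN4q0 ndN0q1 pcN1 Cut.none Ext.none)

def k0_pp_011 : ∃ t, chk3 f_pp_011 t 1 1 1 = true :=
  ⟨(a (b (a (b (a (b (l 3) (a (b (l 3) (b (l 3) (l 326048683271))) (b (b (l 3) (l 326585607063)) (b (a (l 319606117591) (l 380809331575)) (a (l 368998173063) (l 16793816)))))) (b (a (a (l 3) (l 1)) (l 1)) (a (b (a (b (l 322290473207) (b (l 312089869575) (l 16830256))) (l 314640084295)) (l 16837216)) (l 237330888839)))) (a (b (b (a (b (a (l 322290462615) (l 341080885751)) (a (l 336249046183) (l 16798608))) (l 16817760)) (l 16977632)) (l 16930160)) (b (l 16908104) (l 17025128)))) (b (a (b (l 1) (l 17013592)) (l 1)) (a (b (l 17032104) (l 17141472)) (l 17280624)))) (a (b (b (l 17156472) (l 17256400)) (l 17655400)) (b (l 17462056) (l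 17621600)))) (b (a (b (l 1) (a (l 17544768) (l 1))) (l 1)) (b (a (l 17836728) (l 18876152)) (a (a (l 17897456) (l 18223776)) (a (l 18629616) (a (l 18974256) (l 19240840))))))), by decide +kernel⟩

theorem c_pp_011 : CertN 0 536870912 536870912 536870912 67108864 67108864 3 false true true .pnn 0 1 1
    ndN4q0 ndN0q1 pcN1 Cut.none Ext.none :=
  certNK2 (fam := false) (s1 := true) (s2 := true) (a := 0) (b := 1) (c := 1) (cn := .pnn) (n1 := ndN4q0) (n2 := ndN0q1) (pc := pcN1) (cut := Cut.none) (xt := Ext.none) (P1 := 0) (W1 := 536870912) (P2 := 536870912) (W2 := 536870912) (P3 := 67108864) (W3 := 67108864) (N0 := 3)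
    rfl rfl rfl (fun _ => rfl) k0_pp_011

noncomputable def f_pp_012 : ℕ → ℕ → ℕ → ℕ → Bool := onCell 536870912 536870912 0 536870912 67108864 67108864
    (rowNK 3 2 false true true .pnp 0 1 2 (qsf 0 536870912 0 536870912 1) ndN4q0 ndN0q2 pcN1 Cut.none Ext.none)

def k0_pp_012 : ∃ t, chk3 f_pp_012 t 1 1 1 = true :=
  ⟨(a (b (a (b (l 2) (b (l 2) (l 18087952))) (b (l 19029600) (b (a (l 18719096) (l 18704472)) (b (l 18150312) (l 17817632))))) (a (b (l 17676680) (l 17699368)) (b (l 17778072) (l 17774072)))) (b (b (l 19211232) (a (a (b (l 18864736) (l 18455312)) (l 18969576)) (a (l 19267944) (a (l 19393496) (l 19474960))))) (a (a (l 18183800) (l 18658584)) (a (l 19045080) (a (l 19256032) (l 19397344)))))), by decide +kernel⟩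

theorem c_pp_012 : CertN 0 536870912 0 536870912 67108864 67108864 3 false true true .pnp 0 1 2
    ndN4q0 ndN0q2 pcN1 Cut.none Ext.none :=
  certNK2 (fam := false) (s1 := true) (s2 := true) (a := 0) (b := 1) (c := 2) (cn := .pnp) (n1 := ndN4q0) (n2 := ndN0q2) (pc := pcN1) (cut := Cut.none) (xt := Ext.none) (P1 := 0) (W1 := 536870912) (P2 := 0) (W2 := 536870912) (P3 := 67108864) (W3 := 67108864) (N0 := 3)
    rfl rfl rfl (fun _ => rfl) k0_pp_012

noncomputable def f_pp_022 : ℕ → ℕ → ℕ → ℕ → Bool := onCell 0 536870912 0 536870912 67108864 67108864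
    (rowNK 3 0 false true true .pp 0 2 2 (qsf 0 536870912 0 536870912 2) ndN4q0 ndN0q2 pcN2 Cut.none Ext.none)

def k0_pp_022 : ∃ t, chk3 f_pp_022 t 1 1 1 = true :=
  ⟨(a (b (a (l 19320712) (l 19652968)) (b (l 19781448) (l 123520535815))) (l 1)), by decide +kernel⟩

theorem c_pp_022 : CertN 0 536870912 0 536870912 67108864 67108864 3 false true true .pp 0 2 2
    ndN4q0 ndN0q2 pcN2 Cut.none Ext.none :=
  certNK0 (fam := false) (s1 := true) (s2 := true) (a := 0) (b := 2) (c := 2) (cn := .pp) (n1 := ndN4q0) (n2 := ndN0q2) (pc := pcN2) (cut := Cut.none) (xt := Ext.none) (P1 := 0) (W1 := 536870912) (P2 := 0) (W2 := 536870912) (P3 := 67108864) (W3 := 67108864) (N0 := 3)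
    rfl rfl rfl k0_pp_022

noncomputable def cut_pp_101 : Cut := Cut.of [[⟨0, 1, 0, 67108864⟩, ⟨1, 0, 0, 67108864⟩, ⟨2, 1, 0, 67108864⟩]]

noncomputable def f_pp_101 : ℕ → ℕ → ℕ → ℕ → Bool := onCell 0 536870912 536870912 536870912 67108864 67108864
    (rowNK 3 2 false true true .npn 1 0 1 (qsf 536870912 536870912 536870912 536870912 0) ndN4q1 ndN0q1 pcN0 cut_pp_101 Ext.none)

def k0_pp_101 : ∃ t, chk3 f_pp_101 t 2 2 1 = true :=
  ⟨(l 3), by decide +kernel⟩

def k1_pp_101 : ∃ t, chk3 f_pp_101 t 4 6 1 = true :=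
  ⟨(l 3), by decide +kernel⟩

def k2_pp_101 : ∃ t, chk3 f_pp_101 t 4 14 1 = true :=
  ⟨(a (l 3) (a (l 3) (b (l 3) (b (l 3) (a (l 3) (b (l 3) (a (b (l 3) (a (l 3) (b (l 3) (a (l 289541213431) (c (l 288467483015) (l 292762449383)))))) (b (a (l 3) (b (l 290614971831) (a (c (l 300278642983) (l 306184221815)) (b (l 309405445687) (l 240685969463))))) (a (b (a (l 299204900567) (b (l 304036736967) (l 263234551623))) (a (b (l 273435099463) (l 16785048)) (l 16790928))) (a (b (b (l 252497132855) (l 16787800)) (l 16801920)) (l 16803464))))))))))), by decide +kernel⟩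

def k3_pp_101 : ∃ t, chk3 f_pp_101 t 8 30 1 = true :=
  ⟨(a (l 3) (a (l 3) (b (l 3) (b (l 3) (a (l 3) (b (l 3) (a (l 3) (b (l 3) (a (b (l 3) (b (l 3) (b (l 326585300679) (a (l 3) (a (l 313700396903) (l 189683207879)))))) (a (b (l 3) (b (a (l 316384751767) (c (l 229948529175) (l 207936818311))) (l 153175987639))) (b (b (l 338396460407) (a (l 309405429655) (l 200957497191))) (l 16780728)))))))))))), by decide +kernel⟩

def k4_pp_101 : ∃ t, chk3 f_pp_101 t 16 31 1 = true :=
  ⟨(b (b (l 3) (l 6)) (l 6)), by decide +kernel⟩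

def k5_pp_101 : ∃ t, chk3 f_pp_101 t 34 62 1 = true :=
  ⟨(b (a (l 3) (b (l 3) (a (l 3) (a (l 3) (b (l 3) (b (l 3) (b (b (l 294373042215) (a (l 3) (a (l 286319976599) (l 196125660087)))) (b (a (l 294373040999) (a (l 200957498279) (l 16778912))) (a (a (l 295446782199) (l 205252465447)) (l 16779104)))))))))) (a (b (b (l 3) (l 6)) (l 6)) (a (a (b (b (l 3) (b (b (b (l 3) (l 6)) (l 6)) (l 6))) (l 6)) (b (b (b (l 3) (a (b (l 3) (a (l 3) (c (c (l 262160783079) (l 263771395703)) (l 265918881799)))) (a (b (l 3) (b (c (l 240685945959) (l 242833431991)) (l 164450276231))) (b (a (l 287930589415) (b (l 3) (l 217063625159))) (l 148881020903))))) (a (b (b (b (a (c (l 250886495927) (l 253570850263)) (l 168745243447)) (a (l 173040210679) (l 16778896))) (l 16779256)) (l 16780424)) (l 16783144))) (l 16784872))) (b (b (b (a (b (b (l 300815493383) (a (l 3) (a (l 297057395047) (l 216526754647)))) (b (a (l 3) (a (a (l 271824461367) (l 198810014087)) (l 16781392))) (a (a (l 3) (a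 (l 263771397703) (l 204715594007))) (l 16781568)))) (b (b (a (a (l 210084303575) (l 16778864)) (l 16779504)) (l 16782088)) (l 16780064))) (a (a (b (b (a (a (l 270750719591) (l 211694916071)) (l 16779992)) (l 145122924647)) (l 16779440)) (l 16779928)) (l 16781248))) (l 16788000)) (l 16787696))))), by decide +kernel⟩

def k6_pp_101 : ∃ t, chk3 f_pp_101 t 70 124 1 = true :=
  ⟨(b (a (l 3) (b (l 3) (b (a (l 3) (c (l 298131139751) (l 302426106791))) (a (c (l 302426107623) (l 306721074647)) (a (b (l 317995361015) (a (a (l 269140106743) (l 218674238103)) (l 174113952871))) (b (a (c (l 226190431063) (l 226727304359)) (l 166597760087)) (l 16779072))))))) (a (b (a (l 3) (b (l 3) (a (b (l 3) (b (a (l 3) (l 257328946711)) (a (l 265918881383) (l 166597759927)))) (b (a (c (l 257328947287) (l 260550172503)) (a (l 210621174647) (l 178408919927))) (l 142975441607))))) (b (a (a (a (l 293836171031) (b (l 3) (b (l 290614943607) (l 186998854583)))) (b (a (l 299204878695) (b (l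 274508821287) (l 176798307255))) (c (c (l 151565374871) (l 150491632823)) (l 150491633143)))) (a (a (b (l 156397213495) (l 16779568)) (l 16779584)) (l 16780200))) (b (a (a (a (b (l 191830692791) (l 16778928)) (l 16779136)) (l 16779752)) (l 16780992)) (l 16786208)))) (b (b (a (b (a (l 302426105095) (a (a (l 283635626807) (l 232096013671)) (c (l 180019532119) (l 178408919063)))) (a (a (a (l 301889238023) (l 247665267639)) (c (l 186998853847) (l 186461982791))) (l 16784280))) (l 16782496)) (a (c (a (l 16782200) (l 16780472)) (l 16781936)) (l 16781512))) (l 16783136)))), by decide +kernel⟩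

def k7_pp_101 : ∃ t, chk3 f_pp_101 t 71 124 1 = true :=
  ⟨(b (a (b (b (b (l 3) (a (l 3) (a (l 3) (a (l 328732783607) (a (l 295446786183) (l 251423365831)))))) (b (a (l 3) (c (a (c (l 285246231895) (l 288467459895)) (l 170355855799)) (a (l 294909910679) (l 169818984871)))) (b (a (l 3) (a (l 197199401559) (l 16778928))) (a (a (l 3) (l 289004330423)) (l 16781544))))) (a (b (b (a (l 306721071335) (a (a (l 235317238759) (l 189146337575)) (l 16781120))) (a (a (a (l 247128398983) (l 198273143095)) (l 158544696391)) (l 16779104))) (l 16779912)) (l 16786016))) (b (b (a (b (a (a (l 329806525127) (a (l 286319980455) (l 215453011943))) (l 159618438615)) (c (a (l 164450275719) (l 16780040)) (l 148881020951))) (l 16780000)) (l 16786064)) (l 16783368))) (a (l 16790208) (l 16788608))), by decide +kernel⟩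

def k8_pp_101 : ∃ t, chk3 f_pp_101 t 35 125 1 = true :=
  ⟨(a (b (a (b (l 16788232) (l 16786304)) (l 16788232)) (l 16793384)) (b (l 16793936) (l 16801496))), by decide +kernel⟩

def k9_pp_101 : ∃ t, chk3 f_pp_101 t 17 63 1 = true :=
  ⟨(b (a (a (l 6) (b (l 16792584) (l 6))) (a (l 16804608) (l 16813616))) (a (l 6) (b (l 16821600) (l 16830512)))), by decide +kernel⟩

def k10_pp_101 : ∃ t, chk3 f_pp_101 t 18 60 1 = true :=
  ⟨(a (l 3) (b (l 3) (a (l 3) (b (l 3) (a (b (l 3) (b (l 321753469575) (a (l 3) (b (l 284709372023) (a (l 282025016503) (l 16779760)))))) (b (b (l 322290340647) (a (l 296520535287) (a (l 270213862263) (l 184314507031)))) (b (a (a (l 279877533719) (b (l 260550179431) (l 16780712))) (l 16785328)) (l 16788544)))))))), by decide +kernel⟩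

def k11_pp_101 : ∃ t, chk3 f_pp_101 t 36 61 1 = true :=
  ⟨(b (a (l 3) (b (l 3) (a (b (l 3) (a (l 3) (l 346986398391))) (a (b (l 3) (b (l 335712107735) (a (b (l 326585300679) (a (l 305647333351) (l 16780416))) (a (a (b (l 319605977463) (l 16778640)) (l 176798308775)) (l 16784352))))) (b (c (l 334101493975) (l 335712106711)) (b (b (a (l 319605978743) (l 189146340375)) (c (l 167671503463) (l 167134632663))) (l 16782376))))))) (a (b (a (l 3) (b (l 3) (a (b (l 3) (a (l 337322718087) (b (l 324437809815) (l 182703887367)))) (a (c (b (a (l 343765158807) (b (l 3) (l 306184198183))) (l 155323470327)) (b (l 329269648871) (l 154249728567))) (b (b (a (l 336785846695) (b (l 335712104423) (l 16779888))) (l 167671501591)) (l 16778888)))))) (a (b (b (a (l 3) (b (l 338396460439) (a (l 341617684871) (b (a (l 334101490759) (l 16780168)) (l 16779072))))) (b (a (l 341617686599) (b (a (a (l 344302038327) (l 16778888)) (l 16778152)) (l 154786600695))) (a (a (l 341080814631) (a (c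 (l 287393721847) (l 292225559911)) (l 183240756967))) (l 16778776)))) (a (a (b (b (a (l 302426102311) (l 192367562551)) (l 16778352)) (l 16779600)) (l 16782232)) (l 16780888))) (b (b (b (a (c (a (l 188072595495) (l 16781976)) (l 164450276039)) (l 16779632)) (l 16779632)) (l 16780912)) (l 16783528)))) (b (a (a (b (b (l 345912654983) (a (b (l 3) (b (l 328195912039) (a (l 330880266183) (l 16782616)))) (a (b (l 323900944711) (l 16783024)) (l 177335179399)))) (a (b (l 146196666007) (l 16780256)) (l 16781048))) (b (b (a (b (l 327659042503) (a (l 316921622759) (l 206326208279))) (a (b (l 310479171703) (l 16778296)) (l 163913406055))) (l 16780192)) (l 16783960))) (b (a (l 16783024) (l 16788320)) (l 16791448))) (l 16800136)))), by decide +kernel⟩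

def k12_pp_101 : ∃ t, chk3 f_pp_101 t 37 61 1 = true :=
  ⟨(b (a (b (a (b (l 3) (b (l 3) (a (l 3) (a (l 311552907383) (a (l 298668014599) (b (l 290614951175) (l 222432337735))))))) (b (b (l 3) (b (l 325511563175) (a (l 3) (a (l 300815498839) (l 206863082967))))) (b (a (b (l 321753465239) (b (l 287930596167) (a (l 297057402103) (l 16783536)))) (a (l 182167021127) (l 16782864))) (a (b (b (a (l 285246240679) (l 16779512)) (l 172503343351)) (l 16781576)) (l 16787416))))) (a (b (b (b (a (l 3) (a (a (l 302962981063) (l 233706627111)) (l 16779424))) (a (c (l 309942303047) (l 312626657527)) (l 16780632))) (a (b (a (l 314774140359) (l 16781288)) (l 157470956791)) (l 16784800))) (l 16789152)) (l 16787824))) (b (a (b (a (b (b (l 292225564967) (a (l 294373047751) (l 16784176))) (l 153712862903)) (l 16782688)) (l 16796232)) (l 16806896)) (l 16823512))) (a (b (l 16808680) (l 16818392)) (l 16851168))), by decide +kernel⟩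

def k13_pp_101 : ∃ t, chk3 f_pp_101 t 19 30 1 = true :=
  ⟨(b (a (b (a (l 3) (b (a (l 3) (b (l 3) (a (l 3) (l 300278637831)))) (a (b (a (l 3) (l 296520541351)) (b (a (l 289541207255) (a (l 302962987255) (a (l 266455773191) (l 16791112)))) (a (a (l 302962987479) (l 257865832631)) (l 16784456)))) (b (b (a (l 299204894263) (a (l 278266935079) (l 16786616))) (a (a (l 296520536007) (l 16786064)) (l 16787064))) (l 16784920))))) (a (b (a (b (l 3) (b (l 295446797671) (a (l 299741760727) (a (a (l 268603255191) (l 227801054167)) (l 16782024))))) (b (a (c (l 289541215271) (l 293299311191)) (b (l 278803799895) (l 173577091991))) (a (b (c (l 183777638727) (l 182703896295)) (l 16789136)) (l 16794768)))) (a (b (b (a (a (b (l 305110468039) (l 229948537271)) (l 16786192)) (l 16787824)) (l 16791240)) (l 16803200)) (l 16814840))) (b (a (b (c (l 16784208) (l 16785136)) (l 16810056)) (l 16822328)) (l 16845856)))) (b (a (b (a (b (a (l 3) (c (l 299741767223) (l 304573607207))) (a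 (a (l 282561899287) (b (l 308331698519) (l 16782384))) (c (l 167134645735) (l 166060903287)))) (a (b (b (l 298131151735) (l 16787840)) (l 16795904)) (l 16786904))) (l 16787032)) (l 16791704)) (l 16831680))) (a (b (a (l 16797168) (l 16891944)) (l 16916744)) (l 16841592))), by decide +kernel⟩

def k14_pp_101 : ∃ t, chk3 f_pp_101 t 9 31 1 = true :=
  ⟨(b (a (a (b (a (b (a (l 16785208) (l 16788912)) (l 16794400)) (l 16798712)) (l 16831688)) (b (l 16836344) (l 16830264))) (a (l 16939192) (l 17059976))) (a (a (b (l 16828432) (l 16847864)) (l 16903112)) (b (l 16955792) (l 16912808)))), by decide +kernel⟩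

def k15_pp_101 : ∃ t, chk3 f_pp_101 t 5 6 1 = true :=
  ⟨(a (l 3) (b (l 3) (b (l 3) (a (b (l 3) (a (l 3) (b (l 3) (a (l 3) (b (l 3) (a (l 3) (l 305647389463))))))) (b (a (l 3) (b (a (l 3) (l 304573659719)) (a (b (l 3) (l 306721142071)) (l 279340756695)))) (a (b (a (l 3) (b (l 303499900615) (a (l 305647371447) (l 314237310311)))) (a (a (b (l 302963021975) (l 304573652167)) (a (l 273435138695) (l 238538537079))) (l 16807480))) (b (a (b (l 282561947255) (l 16801168)) (l 16804912)) (l 16827152)))))))), by decide +kernel⟩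

def k16_pp_101 : ∃ t, chk3 f_pp_101 t 10 28 1 = true :=
  ⟨(a (l 3) (b (l 3) (a (b (l 3) (a (l 3) (b (l 3) (a (b (l 3) (l 298668037191)) (a (b (l 297594297079) (b (l 304573612007) (l 16800288))) (b (l 299204904151) (l 16807840))))))) (b (a (b (l 3) (a (l 3) (l 298668045911))) (b (a (l 3) (b (l 3) (l 302426135287))) (a (b (l 300278653511) (a (l 301889259191) (l 16800456))) (b (l 308331725703) (l 16791136))))) (a (b (a (a (l 298131170519) (a (l 295983693543) (b (l 3) (l 301889254647)))) (a (b (l 302426132359) (l 16798928)) (c (l 249812809319) (l 253570893815)))) (b (a (l 258939603847) (l 16800192)) (l 16786240))) (b (l 16806160) (l 16842656))))))), by decide +kernel⟩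

def k17_pp_101 : ∃ t, chk3 f_pp_101 t 20 29 1 = true :=
  ⟨(b (a (l 3) (b (a (l 3) (b (l 3) (a (l 3) (b (l 3) (a (l 295983680103) (c (l 294909933719) (l 301889263975))))))) (a (b (a (l 3) (b (l 3) (a (l 3) (l 295983677319)))) (a (b (l 292762454343) (a (c (l 292762449511) (l 299204898535)) (b (l 301352380567) (l 16794736)))) (b (b (a (l 297057417831) (a (l 301352381047) (l 16793832))) (a (l 300815519207) (l 16806520))) (l 16794256)))) (b (a (b (a (l 3) (l 298668030695)) (b (a (l 299741771239) (l 273971976519)) (l 262160819223))) (a (b (b (l 303499865879) (l 16798056)) (l 16790456)) (l 16792144))) (l 16791784))))) (a (b (a (b (l 3) (a (b (l 3) (a (l 3) (l 292225572871))) (b (a (l 3) (l 294909937959)) (b (a (l 294909925671) (l 293836192583)) (a (l 301352385959) (l 16786312)))))) (b (a (a (l 3) (b (l 3) (b (l 293299317559) (l 313700417367)))) (b (b (l 294373071655) (a (l 294909930391) (a (l 302962990055) (l 16797224)))) (a (b (a (l 300278635943) (l 16792416))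 (l 16794736)) (l 16787872)))) (a (a (b (b (l 311016063159) (l 284709386407)) (l 16792120)) (l 16793656)) (l 16810384)))) (a (b (a (b (b (a (l 291688700135) (l 307257963895)) (a (c (l 308331704135) (l 316384766599)) (l 16783896))) (l 16791448)) (l 16793584)) (l 16831664)) (l 16836704))) (b (a (b (b (a (a (c (l 248739042087) (l 247665300487)) (l 16790848)) (l 16807408)) (l 16794376)) (l 16823696)) (l 16829192)) (l 16884240)))), by decide +kernel⟩

def k18_pp_101 : ∃ t, chk3 f_pp_101 t 21 29 1 = true :=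
  ⟨(b (a (b (a (b (a (l 3) (b (l 296520554711) (a (l 300278644935) (b (l 303499867031) (l 16787960))))) (a (b (a (l 297594291847) (b (l 301889256423) (l 273971975399))) (a (c (l 297057429943) (b (l 330343408167) (l 16785824))) (l 16808408))) (a (l 16796800) (l 16809816)))) (a (b (b (a (c (l 297057418631) (l 304036738263)) (l 275582593527)) (l 16789144)) (l 16816136)) (l 16798976))) (a (l 16797344) (l 16863872))) (b (l 16834344) (l 16951952))) (a (b (l 16918440) (l 17016528)) (l 17066304))), by decide +kernel⟩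

def k19_pp_101 : ∃ t, chk3 f_pp_101 t 11 14 1 = true :=
  ⟨(b (a (b (a (b (l 3) (a (b (l 3) (a (l 298668050423) (b (l 300278658023) (a (l 300278651431) (l 16803168))))) (b (a (l 301352401975) (b (l 305110492007) (l 275045736599))) (a (l 257329004231) (l 16798904))))) (b (a (b (a (l 3) (l 301889276775)) (a (b (l 301352403815) (l 329269701207)) (l 292762488615))) (b (c (l 266455815479) (l 268066436567)) (l 16805672))) (a (b (l 16807568) (l 16830928)) (l 16856544)))) (b (a (a (b (a (b (a (l 301889266343) (l 304573613559)) (l 16804528)) (l 16796184)) (l 16814296)) (l 16819320)) (l 16863152)) (l 16829088))) (b (a (l 16801896) (l 16925768)) (l 16959112))) (a (b (a (l 16959512) (l 17085424)) (l 17192544)) (l 17151176))), by decide +kernel⟩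

def k20_pp_101 : ∃ t, chk3 f_pp_101 t 5 15 1 = true :=
  ⟨(a (a (b (b (a (b (l 16828064) (l 16985488)) (l 17040384)) (l 16901352)) (b (l 17231832) (l 17255000))) (b (b (l 17174000) (l 17316032)) (l 17479896))) (b (a (l 17413816) (l 17564800)) (l 17746920))), by decide +kernel⟩

def k21_pp_101 : ∃ t, chk3 f_pp_101 t 3 1 1 = true :=
  ⟨(b (a (l 3) (l 1)) (b (a (b (a (b (l 3) (a (l 3) (b (l 3) (a (l 3) (b (l 3) (a (l 307258030775) (l 336249094247))))))) (a (b (l 1) (b (l 1) (b (l 1) (l 173442987623)))) (l 1))) (a (b (a (b (l 3) (a (b (l 3) (a (l 3) (b (l 3) (l 306184253271)))) (b (a (l 306184275911) (b (l 305647390279) (l 330343448775))) (a (l 282025102455) (l 16805568))))) (b (a (b (a (l 3) (l 306184276615)) (a (b (l 306184274439) (l 337859637159)) (l 271287661751))) (b (a (b (l 308868614167) (l 16818984)) (l 16815024)) (l 16827240))) (a (b (a (l 240149178247) (l 16825560)) (l 16862712)) (l 16888528)))) (a (b (a (b (a (b (l 306184259511) (a (l 301889278999)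 (l 16816464))) (b (l 306184269751) (l 16800104))) (l 16814144)) (l 16852400)) (l 16872944)) (b (a (l 16949752) (l 17023240)) (l 17105848)))) (b (a (a (l 16864896) (l 333431200055)) (l 17015176)) (a (l 17185296) (l 17312896))))) (b (l 1) (a (l 333432106055) (l 1)))) (a (b (b (a (a (b (l 17084488) (l 17216552)) (l 17292512)) (l 17482864)) (a (l 17363672) (l 17727960))) (b (a (l 17763400) (l 17980488)) (l 18127800))) (b (a (l 17807872) (l 17962880)) (l 18322064))))), by decide +kernel⟩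

theorem s22_pp_101 : ∃ t, chk3 f_pp_101 t 10 29 1 = true := ex3_a k17_pp_101 k18_pp_101

theorem s23_pp_101 : ∃ t, chk3 f_pp_101 t 10 14 1 = true := ex3_b k16_pp_101 s22_pp_101

theorem s24_pp_101 : ∃ t, chk3 f_pp_101 t 5 14 1 = true := ex3_a s23_pp_101 k19_pp_101

theorem s25_pp_101 : ∃ t, chk3 f_pp_101 t 5 7 1 = true := ex3_b s24_pp_101 k20_pp_101

theorem s26_pp_101 : ∃ t, chk3 f_pp_101 t 5 3 1 = true := ex3_b k15_pp_101 s25_pp_101

theorem s27_pp_101 : ∃ t, chk3 f_pp_101 t 18 61 1 = true := ex3_a k11_pp_101 k12_pp_101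

theorem s28_pp_101 : ∃ t, chk3 f_pp_101 t 18 30 1 = true := ex3_b k10_pp_101 s27_pp_101

theorem s29_pp_101 : ∃ t, chk3 f_pp_101 t 9 30 1 = true := ex3_a s28_pp_101 k13_pp_101

theorem s30_pp_101 : ∃ t, chk3 f_pp_101 t 9 15 1 = true := ex3_b s29_pp_101 k14_pp_101

theorem s31_pp_101 : ∃ t, chk3 f_pp_101 t 35 124 1 = true := ex3_a k6_pp_101 k7_pp_101

theorem s32_pp_101 : ∃ t, chk3 f_pp_101 t 35 62 1 = true := ex3_b s31_pp_101 k8_pp_101

theorem s33_pp_101 : ∃ t, chk3 f_pp_101 t 17 62 1 = true := ex3_a k5_pp_101 s32_pp_101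

theorem s34_pp_101 : ∃ t, chk3 f_pp_101 t 17 31 1 = true := ex3_b s33_pp_101 k9_pp_101

theorem s35_pp_101 : ∃ t, chk3 f_pp_101 t 8 31 1 = true := ex3_a k4_pp_101 s34_pp_101

theorem s36_pp_101 : ∃ t, chk3 f_pp_101 t 8 15 1 = true := ex3_b k3_pp_101 s35_pp_101

theorem s37_pp_101 : ∃ t, chk3 f_pp_101 t 4 15 1 = true := ex3_a s36_pp_101 s30_pp_101

theorem s38_pp_101 : ∃ t, chk3 f_pp_101 t 4 7 1 = true := ex3_b k2_pp_101 s37_pp_101

theorem s39_pp_101 : ∃ t, chk3 f_pp_101 t 4 3 1 = true := ex3_b k1_pp_101 s38_pp_101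

theorem s40_pp_101 : ∃ t, chk3 f_pp_101 t 2 3 1 = true := ex3_a s39_pp_101 s26_pp_101

theorem s41_pp_101 : ∃ t, chk3 f_pp_101 t 2 1 1 = true := ex3_b k0_pp_101 s40_pp_101

theorem s42_pp_101 : ∃ t, chk3 f_pp_101 t 1 1 1 = true := ex3_a s41_pp_101 k21_pp_101

theorem c_pp_101 : CertN 536870912 536870912 536870912 536870912 67108864 67108864 3 false true true .npn 1 0 1
    ndN4q1 ndN0q1 pcN0 cut_pp_101 Ext.none :=
  certNK2 (fam := false) (s1 := true) (s2 := true) (a := 1) (b := 0) (c := 1) (cn := .npn) (n1 := ndN4q1) (n2 := ndN0q1) (pc := pcN0) (cut := cut_pp_101) (xt := Ext.none) (P1 := 536870912) (W1 := 536870912) (P2 := 536870912) (W2 := 536870912) (P3 := 67108864) (W3 := 67108864) (N0 := 3)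
    rfl rfl rfl (fun _ => rfl) s42_pp_101

noncomputable def cut_pp_102 : Cut := Cut.of [[⟨0, 1, 0, 67108864⟩, ⟨1, 0, 0, 67108864⟩, ⟨2, 1, 0, 67108864⟩]]

noncomputable def f_pp_102 : ℕ → ℕ → ℕ → ℕ → Bool := onCell 536870912 536870912 0 536870912 67108864 67108864
    (rowNK 3 0 false true true .npp 1 0 2 (qsf 536870912 536870912 0 536870912 0) ndN4q1 ndN0q2 pcN0 cut_pp_102 Ext.none)

def k0_pp_102 : ∃ t, chk3 f_pp_102 t 1 1 1 = true :=
  ⟨(a (b (b (a (l 2) (b (l 18421936) (l 18224848))) (a (a (l 2) (b (l 2) (l 18914480))) (b (l 18369256) (l 18909272)))) (b (b (a (l 19166920) (l 19142672)) (l 19090496)) (a (b (l 18832080) (l 18631264)) (b (l 18719288) (a (l 18490248) (l 18331912)))))) (b (a (a (b (l 18688040) (l 18777416)) (l 18991592)) (b (l 19093968) (a (l 18959152) (l 19041072)))) (a (b (b (l 18912344) (l 18797344)) (b (a (l 18516616) (l 18293648)) (a (l 18329144) (b (l 17883584) (l 17560096))))) (b (a (b (l 18813648) (l 18460448)) (b (l 18620424) (a (l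 18092216) (l 17619824)))) (b (a (b (l 18058272) (l 17674392)) (a (b (l 17406064) (l 17195088)) (b (a (l 17311576) (l 17293968)) (a (l 17132688) (b (l 17147816) (l 17049664)))))) (a (a (b (l 17444432) (l 17022992)) (b (l 17087640) (b (l 16972248) (l 16945536)))) (a (a (b (l 17031000) (b (l 16930400) (l 16863592))) (b (l 17003200) (b (l 16899760) (l 6)))) (b (a (b (l 17004720) (l 6)) (l 6)) (l 6))))))))), by decide +kernel⟩

theorem c_pp_102 : CertN 536870912 536870912 0 536870912 67108864 67108864 3 false true true .npp 1 0 2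
    ndN4q1 ndN0q2 pcN0 cut_pp_102 Ext.none :=
  certNK0 (fam := false) (s1 := true) (s2 := true) (a := 1) (b := 0) (c := 2) (cn := .npp) (n1 := ndN4q1) (n2 := ndN0q2) (pc := pcN0) (cut := cut_pp_102) (xt := Ext.none) (P1 := 536870912) (W1 := 536870912) (P2 := 0) (W2 := 536870912) (P3 := 67108864) (W3 := 67108864) (N0 := 3)
    rfl rfl rfl k0_pp_102

noncomputable def f_pp_112 : ℕ → ℕ → ℕ → ℕ → Bool := onCell 536870912 536870912 0 536870912 67108864 67108864
    (rowNK 3 2 false true true .dn 1 1 2 (qsf 536870912 536870912 0 536870912 1) ndN4q1 ndN0q2 pcN1 Cut.none Ext.none)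

def k0_pp_112 : ∃ t, chk3 f_pp_112 t 1 1 1 = true :=
  ⟨(a (b (a (b (l 19008256) (b (a (l 18654896) (l 18704488)) (l 17862528))) (a (b (l 19008208) (b (l 18673808) (l 17854864))) (l 1))) (a (b (l 17656768) (l 17678216)) (l 567508521191))) (l 1)), by decide +kernel⟩

theorem c_pp_112 : CertN 536870912 536870912 0 536870912 67108864 67108864 3 false true true .dn 1 1 2
    ndN4q1 ndN0q2 pcN1 Cut.none Ext.none :=
  certNK2 (fam := false) (s1 := true) (s2 := true) (a := 1) (b := 1) (c := 2) (cn := .dn) (n1 := ndN4q1) (n2 := ndN0q2) (pc := pcN1) (cut := Cut.none) (xt := Ext.none) (P1 := 536870912) (W1 := 536870912) (P2 := 0) (W2 := 536870912) (P3 := 67108864) (W3 := 67108864) (N0 := 3)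
    rfl rfl rfl (fun _ => rfl) k0_pp_112

noncomputable def cut_pp_202 : Cut := Cut.of [[⟨0, 1, 0, 67108864⟩, ⟨1, 0, 0, 67108864⟩, ⟨2, 1, 0, 67108864⟩]]

noncomputable def f_pp_202 : ℕ → ℕ → ℕ → ℕ → Bool := onCell 0 536870912 0 536870912 67108864 67108864
    (rowNK 3 2 false true true .pp 2 0 2 (qsf 1073741824 536870912 0 536870912 0) ndN4q2 ndN0q2 pcN0 cut_pp_202 Ext.none)

def k0_pp_202 : ∃ t, chk3 f_pp_202 t 1 1 1 = true :=
  ⟨(a (b (a (b (a (l 19034304) (l 19112720)) (a (l 18796024) (l 18717200))) (b (l 19465280) (l 19283336))) (b (a (a (b (l 18004752) (a (l 17618168) (l 17570952))) (b (l 18180072) (a (l 17580952) (l 17563048)))) (l 1)) (a (a (b (a (b (l 17319704) (l 6)) (b (l 17279760) (a (l 6) (l 17195472)))) (a (l 6) (a (l 6) (l 1)))) (b (a (b (l 17373904) (l 1)) (l 1)) (l 1))) (l 1)))) (l 1)), by decide +kernel⟩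

theorem c_pp_202 : CertN 1073741824 536870912 0 536870912 67108864 67108864 3 false true true .pp 2 0 2
    ndN4q2 ndN0q2 pcN0 cut_pp_202 Ext.none :=
  certNK2 (fam := false) (s1 := true) (s2 := true) (a := 2) (b := 0) (c := 2) (cn := .pp) (n1 := ndN4q2) (n2 := ndN0q2) (pc := pcN0) (cut := cut_pp_202) (xt := Ext.none) (P1 := 1073741824) (W1 := 536870912) (P2 := 0) (W2 := 536870912) (P3 := 67108864) (W3 := 67108864) (N0 := 3)
    rfl rfl rfl (fun _ => rfl) k0_pp_202

noncomputable def f_pm_001 : ℕ → ℕ → ℕ → ℕ → Bool := onCell 0 536870912 536870912 536870912 67108864 67108864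
    (rowNK 3 0 false true false .up 0 0 1 (qsf 0 536870912 536870912 536870912 0) ndN4q0 ndN0q1 pcN0 Cut.none Ext.none)

def k0_pm_001 : ∃ t, chk3 f_pm_001 t 1 1 1 = true :=
  ⟨(l 4), by decide +kernel⟩

theorem c_pm_001 : CertN 0 536870912 536870912 536870912 67108864 67108864 3 false true false .up 0 0 1
    ndN4q0 ndN0q1 pcN0 Cut.none Ext.none :=
  certNK0 (fam := false) (s1 := true) (s2 := false) (a := 0) (b := 0) (c := 1) (cn := .up) (n1 := ndN4q0) (n2 := ndN0q1) (pc := pcN0) (cut := Cut.none) (xt := Ext.none) (P1 := 0) (W1 := 536870912) (P2 := 536870912) (W2 := 536870912) (P3 := 67108864) (W3 := 67108864) (N0 := 3)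
    rfl rfl rfl k0_pm_001

noncomputable def f_pm_011 : ℕ → ℕ → ℕ → ℕ → Bool := onCell 0 536870912 536870912 536870912 67108864 67108864
    (rowNK 3 0 false true false .pnn 0 1 1 (qsf 0 536870912 536870912 536870912 1) ndN4q0 ndN0q1 pcN1 Cut.none Ext.none)

def k0_pm_011 : ∃ t, chk3 f_pm_011 t 1 1 1 = true :=
  ⟨(l 4), by decide +kernel⟩

theorem c_pm_011 : CertN 0 536870912 536870912 536870912 67108864 67108864 3 false true false .pnn 0 1 1
    ndN4q0 ndN0q1 pcN1 Cut.none Ext.none :=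
  certNK0 (fam := false) (s1 := true) (s2 := false) (a := 0) (b := 1) (c := 1) (cn := .pnn) (n1 := ndN4q0) (n2 := ndN0q1) (pc := pcN1) (cut := Cut.none) (xt := Ext.none) (P1 := 0) (W1 := 536870912) (P2 := 536870912) (W2 := 536870912) (P3 := 67108864) (W3 := 67108864) (N0 := 3)
    rfl rfl rfl k0_pm_011

noncomputable def f_pm_012 : ℕ → ℕ → ℕ → ℕ → Bool := onCell 0 536870912 0 536870912 67108864 67108864
    (rowNK 3 0 false true false .pnp 0 1 2 (qsf 0 536870912 0 536870912 1) ndN4q0 ndN0q2 pcN1 Cut.none Ext.none)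

def k0_pm_012 : ∃ t, chk3 f_pm_012 t 1 1 1 = true :=
  ⟨(a (l 4) (l 4)), by decide +kernel⟩

theorem c_pm_012 : CertN 0 536870912 0 536870912 67108864 67108864 3 false true false .pnp 0 1 2
    ndN4q0 ndN0q2 pcN1 Cut.none Ext.none :=
  certNK0 (fam := false) (s1 := true) (s2 := false) (a := 0) (b := 1) (c := 2) (cn := .pnp) (n1 := ndN4q0) (n2 := ndN0q2) (pc := pcN1) (cut := Cut.none) (xt := Ext.none) (P1 := 0) (W1 := 536870912) (P2 := 0) (W2 := 536870912) (P3 := 67108864) (W3 := 67108864) (N0 := 3)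
    rfl rfl rfl k0_pm_012

noncomputable def f_pm_022 : ℕ → ℕ → ℕ → ℕ → Bool := onCell 1073741824 536870912 0 536870912 67108864 67108864
    (rowNK 3 2 false true false .pp 0 2 2 (qsf 0 536870912 0 536870912 2) ndN4q0 ndN0q2 pcN2 Cut.none Ext.none)

def k0_pm_022 : ∃ t, chk3 f_pm_022 t 1 1 1 = true :=
  ⟨(l 4), by decide +kernel⟩

theorem c_pm_022 : CertN 0 536870912 0 536870912 67108864 67108864 3 false true false .pp 0 2 2
    ndN4q0 ndN0q2 pcN2 Cut.none Ext.none :=
  certNK2 (fam := false) (s1 := true) (s2 := false) (a := 0) (b := 2) (c := 2) (cn := .pp) (n1 := ndN4q0) (n2 := ndN0q2) (pc := pcN2) (cut := Cut.none) (xt := Ext.none) (P1 := 0) (W1 := 536870912) (P2 := 0) (W2 := 536870912) (P3 := 67108864) (W3 := 67108864) (N0 := 3)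
    rfl rfl rfl (fun _ => rfl) k0_pm_022

noncomputable def f_pm_101 : ℕ → ℕ → ℕ → ℕ → Bool := onCell 536870912 536870912 536870912 536870912 67108864 67108864
    (rowNK 3 0 false true false .npn 1 0 1 (qsf 536870912 536870912 536870912 536870912 0) ndN4q1 ndN0q1 pcN0 Cut.none Ext.none)

def k0_pm_101 : ∃ t, chk3 f_pm_101 t 1 1 1 = true :=
  ⟨(l 4), by decide +kernel⟩

theorem c_pm_101 : CertN 536870912 536870912 536870912 536870912 67108864 67108864 3 false true false .npn 1 0 1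
    ndN4q1 ndN0q1 pcN0 Cut.none Ext.none :=
  certNK0 (fam := false) (s1 := true) (s2 := false) (a := 1) (b := 0) (c := 1) (cn := .npn) (n1 := ndN4q1) (n2 := ndN0q1) (pc := pcN0) (cut := Cut.none) (xt := Ext.none) (P1 := 536870912) (W1 := 536870912) (P2 := 536870912) (W2 := 536870912) (P3 := 67108864) (W3 := 67108864) (N0 := 3)
    rfl rfl rfl k0_pm_101

noncomputable def f_pm_102 : ℕ → ℕ → ℕ → ℕ → Bool := onCell 0 536870912 0 536870912 67108864 67108864
    (rowNK 3 2 false true false .npp 1 0 2 (qsf 536870912 536870912 0 536870912 0) ndN4q1 ndN0q2 pcN0 Cut.none Ext.none)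

def k0_pm_102 : ∃ t, chk3 f_pm_102 t 1 1 1 = true :=
  ⟨(a (b (a (l 19773080) (l 19334472)) (a (l 19932272) (l 4))) (b (a (b (l 18942048) (l 18811600)) (a (l 18478072) (l 18289040))) (l 4))), by decide +kernel⟩

theorem c_pm_102 : CertN 536870912 536870912 0 536870912 67108864 67108864 3 false true false .npp 1 0 2
    ndN4q1 ndN0q2 pcN0 Cut.none Ext.none :=
  certNK2 (fam := false) (s1 := true) (s2 := false) (a := 1) (b := 0) (c := 2) (cn := .npp) (n1 := ndN4q1) (n2 := ndN0q2) (pc := pcN0) (cut := Cut.none) (xt := Ext.none) (P1 := 536870912) (W1 := 536870912) (P2 := 0) (W2 := 536870912) (P3 := 67108864) (W3 := 67108864) (N0 := 3)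
    rfl rfl rfl (fun _ => rfl) k0_pm_102

noncomputable def f_pm_112 : ℕ → ℕ → ℕ → ℕ → Bool := onCell 536870912 536870912 0 536870912 67108864 67108864
    (rowNK 3 0 false true false .dn 1 1 2 (qsf 536870912 536870912 0 536870912 1) ndN4q1 ndN0q2 pcN1 Cut.none Ext.none)

def k0_pm_112 : ∃ t, chk3 f_pm_112 t 1 1 1 = true :=
  ⟨(a (b (l 19046032) (l 4)) (l 1)), by decide +kernel⟩

theorem c_pm_112 : CertN 536870912 536870912 0 536870912 67108864 67108864 3 false true false .dn 1 1 2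
    ndN4q1 ndN0q2 pcN1 Cut.none Ext.none :=
  certNK0 (fam := false) (s1 := true) (s2 := false) (a := 1) (b := 1) (c := 2) (cn := .dn) (n1 := ndN4q1) (n2 := ndN0q2) (pc := pcN1) (cut := Cut.none) (xt := Ext.none) (P1 := 536870912) (W1 := 536870912) (P2 := 0) (W2 := 536870912) (P3 := 67108864) (W3 := 67108864) (N0 := 3)
    rfl rfl rfl k0_pm_112

noncomputable def f_pm_202 : ℕ → ℕ → ℕ → ℕ → Bool := onCell 0 536870912 0 536870912 67108864 67108864
    (rowNK 3 2 false true false .pp 2 0 2 (qsf 1073741824 536870912 0 536870912 0) ndN4q2 ndN0q2 pcN0 Cut.none Ext.none)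

def k0_pm_202 : ∃ t, chk3 f_pm_202 t 1 1 1 = true :=
  ⟨(a (b (a (l 19390808) (l 19672680)) (a (l 20058688) (l 4))) (l 1)), by decide +kernel⟩

theorem c_pm_202 : CertN 1073741824 536870912 0 536870912 67108864 67108864 3 false true false .pp 2 0 2
    ndN4q2 ndN0q2 pcN0 Cut.none Ext.none :=
  certNK2 (fam := false) (s1 := true) (s2 := false) (a := 2) (b := 0) (c := 2) (cn := .pp) (n1 := ndN4q2) (n2 := ndN0q2) (pc := pcN0) (cut := Cut.none) (xt := Ext.none) (P1 := 1073741824) (W1 := 536870912) (P2 := 0) (W2 := 536870912) (P3 := 67108864) (W3 := 67108864) (N0 := 3)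
    rfl rfl rfl (fun _ => rfl) k0_pm_202

noncomputable def f_mm_001 : ℕ → ℕ → ℕ → ℕ → Bool := onCell 0 536870912 536870912 536870912 67108864 67108864
    (rowNK 3 0 false false false .up 0 0 1 (qsf 0 536870912 536870912 536870912 0) ndN4q0 ndN0q1 pcN0 Cut.none Ext.none)

def k0_mm_001 : ∃ t, chk3 f_mm_001 t 1 1 1 = true :=
  ⟨(l 5), by decide +kernel⟩

theorem c_mm_001 : CertN 0 536870912 536870912 536870912 67108864 67108864 3 false false false .up 0 0 1
    ndN4q0 ndN0q1 pcN0 Cut.none Ext.none :=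
  certNK0 (fam := false) (s1 := false) (s2 := false) (a := 0) (b := 0) (c := 1) (cn := .up) (n1 := ndN4q0) (n2 := ndN0q1) (pc := pcN0) (cut := Cut.none) (xt := Ext.none) (P1 := 0) (W1 := 536870912) (P2 := 536870912) (W2 := 536870912) (P3 := 67108864) (W3 := 67108864) (N0 := 3)
    rfl rfl rfl k0_mm_001

noncomputable def f_mm_011 : ℕ → ℕ → ℕ → ℕ → Bool := onCell 0 536870912 536870912 536870912 67108864 67108864
    (rowNK 3 0 false false false .pnn 0 1 1 (qsf 0 536870912 536870912 536870912 1) ndN4q0 ndN0q1 pcN1 Cut.none Ext.none)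

def k0_mm_011 : ∃ t, chk3 f_mm_011 t 1 1 1 = true :=
  ⟨(l 5), by decide +kernel⟩

theorem c_mm_011 : CertN 0 536870912 536870912 536870912 67108864 67108864 3 false false false .pnn 0 1 1
    ndN4q0 ndN0q1 pcN1 Cut.none Ext.none :=
  certNK0 (fam := false) (s1 := false) (s2 := false) (a := 0) (b := 1) (c := 1) (cn := .pnn) (n1 := ndN4q0) (n2 := ndN0q1) (pc := pcN1) (cut := Cut.none) (xt := Ext.none) (P1 := 0) (W1 := 536870912) (P2 := 536870912) (W2 := 536870912) (P3 := 67108864) (W3 := 67108864) (N0 := 3)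
    rfl rfl rfl k0_mm_011

noncomputable def f_mm_012 : ℕ → ℕ → ℕ → ℕ → Bool := onCell 0 536870912 0 536870912 67108864 67108864
    (rowNK 3 0 false false false .pnp 0 1 2 (qsf 0 536870912 0 536870912 1) ndN4q0 ndN0q2 pcN1 Cut.none Ext.none)

def k0_mm_012 : ∃ t, chk3 f_mm_012 t 1 1 1 = true :=
  ⟨(l 5), by decide +kernel⟩

theorem c_mm_012 : CertN 0 536870912 0 536870912 67108864 67108864 3 false false false .pnp 0 1 2
    ndN4q0 ndN0q2 pcN1 Cut.none Ext.none :=
  certNK0 (fam := false) (s1 := false) (s2 := false) (a := 0) (b := 1) (c := 2) (cn := .pnp) (n1 := ndN4q0) (n2 := ndN0q2) (pc := pcN1) (cut := Cut.none) (xt := Ext.none) (P1 := 0) (W1 := 536870912) (P2 := 0) (W2 := 536870912) (P3 := 67108864) (W3 := 67108864) (N0 := 3)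
    rfl rfl rfl k0_mm_012

noncomputable def f_mm_022 : ℕ → ℕ → ℕ → ℕ → Bool := onCell 0 536870912 0 536870912 67108864 67108864
    (rowNK 3 0 false false false .pp 0 2 2 (qsf 0 536870912 0 536870912 2) ndN4q0 ndN0q2 pcN2 Cut.none Ext.none)

def k0_mm_022 : ∃ t, chk3 f_mm_022 t 1 1 1 = true :=
  ⟨(l 5), by decide +kernel⟩

theorem c_mm_022 : CertN 0 536870912 0 536870912 67108864 67108864 3 false false false .pp 0 2 2
    ndN4q0 ndN0q2 pcN2 Cut.none Ext.none :=
  certNK0 (fam := false) (s1 := false) (s2 := false) (a := 0) (b := 2) (c := 2) (cn := .pp) (n1 := ndN4q0) (n2 := ndN0q2) (pc := pcN2) (cut := Cut.none) (xt := Ext.none) (P1 := 0) (W1 := 536870912) (P2 := 0) (W2 := 536870912) (P3 := 67108864) (W3 := 67108864) (N0 := 3)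
    rfl rfl rfl k0_mm_022

noncomputable def f_mm_101 : ℕ → ℕ → ℕ → ℕ → Bool := onCell 0 536870912 536870912 536870912 67108864 67108864
    (rowNK 3 2 false false false .npn 1 0 1 (qsf 536870912 536870912 536870912 536870912 0) ndN4q1 ndN0q1 pcN0 Cut.none Ext.none)

def k0_mm_101 : ∃ t, chk3 f_mm_101 t 1 1 1 = true :=
  ⟨(l 5), by decide +kernel⟩

theorem c_mm_101 : CertN 536870912 536870912 536870912 536870912 67108864 67108864 3 false false false .npn 1 0 1
    ndN4q1 ndN0q1 pcN0 Cut.none Ext.none :=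
  certNK2 (fam := false) (s1 := false) (s2 := false) (a := 1) (b := 0) (c := 1) (cn := .npn) (n1 := ndN4q1) (n2 := ndN0q1) (pc := pcN0) (cut := Cut.none) (xt := Ext.none) (P1 := 536870912) (W1 := 536870912) (P2 := 536870912) (W2 := 536870912) (P3 := 67108864) (W3 := 67108864) (N0 := 3)
    rfl rfl rfl (fun _ => rfl) k0_mm_101

noncomputable def f_mm_102 : ℕ → ℕ → ℕ → ℕ → Bool := onCell 536870912 536870912 0 536870912 67108864 67108864
    (rowNK 3 0 false false false .npp 1 0 2 (qsf 536870912 536870912 0 536870912 0) ndN4q1 ndN0q2 pcN0 Cut.none Ext.none)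

def k0_mm_102 : ∃ t, chk3 f_mm_102 t 1 1 1 = true :=
  ⟨(l 5), by decide +kernel⟩

theorem c_mm_102 : CertN 536870912 536870912 0 536870912 67108864 67108864 3 false false false .npp 1 0 2
    ndN4q1 ndN0q2 pcN0 Cut.none Ext.none :=
  certNK0 (fam := false) (s1 := false) (s2 := false) (a := 1) (b := 0) (c := 2) (cn := .npp) (n1 := ndN4q1) (n2 := ndN0q2) (pc := pcN0) (cut := Cut.none) (xt := Ext.none) (P1 := 536870912) (W1 := 536870912) (P2 := 0) (W2 := 536870912) (P3 := 67108864) (W3 := 67108864) (N0 := 3)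
    rfl rfl rfl k0_mm_102

noncomputable def f_mm_112 : ℕ → ℕ → ℕ → ℕ → Bool := onCell 536870912 536870912 0 536870912 67108864 67108864
    (rowNK 3 0 false false false .dn 1 1 2 (qsf 536870912 536870912 0 536870912 1) ndN4q1 ndN0q2 pcN1 Cut.none Ext.none)

def k0_mm_112 : ∃ t, chk3 f_mm_112 t 1 1 1 = true :=
  ⟨(l 5), by decide +kernel⟩

theorem c_mm_112 : CertN 536870912 536870912 0 536870912 67108864 67108864 3 false false false .dn 1 1 2
    ndN4q1 ndN0q2 pcN1 Cut.none Ext.none :=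
  certNK0 (fam := false) (s1 := false) (s2 := false) (a := 1) (b := 1) (c := 2) (cn := .dn) (n1 := ndN4q1) (n2 := ndN0q2) (pc := pcN1) (cut := Cut.none) (xt := Ext.none) (P1 := 536870912) (W1 := 536870912) (P2 := 0) (W2 := 536870912) (P3 := 67108864) (W3 := 67108864) (N0 := 3)
    rfl rfl rfl k0_mm_112

noncomputable def f_mm_202 : ℕ → ℕ → ℕ → ℕ → Bool := onCell 1073741824 536870912 0 536870912 67108864 67108864
    (rowNK 3 0 false false false .pp 2 0 2 (qsf 1073741824 536870912 0 536870912 0) ndN4q2 ndN0q2 pcN0 Cut.none Ext.none)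

def k0_mm_202 : ∃ t, chk3 f_mm_202 t 1 1 1 = true :=
  ⟨(l 5), by decide +kernel⟩

theorem c_mm_202 : CertN 1073741824 536870912 0 536870912 67108864 67108864 3 false false false .pp 2 0 2
    ndN4q2 ndN0q2 pcN0 Cut.none Ext.none :=
  certNK0 (fam := false) (s1 := false) (s2 := false) (a := 2) (b := 0) (c := 2) (cn := .pp) (n1 := ndN4q2) (n2 := ndN0q2) (pc := pcN0) (cut := Cut.none) (xt := Ext.none) (P1 := 1073741824) (W1 := 536870912) (P2 := 0) (W2 := 536870912) (P3 := 67108864) (W3 := 67108864) (N0 := 3)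
    rfl rfl rfl k0_mm_202

end Pool.Agent.Strip051.G.I1_16_1_8.Tab.C.NB40

namespace Pool.Agent.Strip051.G.I1_16_1_8.Tab.C.NB41

open Pool.Agent.Strip051.PB Pool.Agent.Strip051.PB.T
open Pool.Agent.Strip051.G.I1_16_1_8.Tab

noncomputable def f_pp_001 : ℕ → ℕ → ℕ → ℕ → Bool := onCell 0 536870912 0 536870912 67108864 67108864
    (rowNK 3 1 false true true .up 0 0 1 (qsf 0 536870912 536870912 536870912 0) ndN4q0 ndN1q1 pcN0 Cut.none Ext.none)

def k0_pp_001 : ∃ t, chk3 f_pp_001 t 1 1 1 = true :=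
  ⟨(l 3), by decide +kernel⟩

theorem c_pp_001 : CertN 0 536870912 536870912 536870912 67108864 67108864 3 false true true .up 0 0 1
    ndN4q0 ndN1q1 pcN0 Cut.none Ext.none :=
  certNK1 (fam := false) (s1 := true) (s2 := true) (a := 0) (b := 0) (c := 1) (cn := .up) (n1 := ndN4q0) (n2 := ndN1q1) (pc := pcN0) (cut := Cut.none) (xt := Ext.none) (P1 := 0) (W1 := 536870912) (P2 := 536870912) (W2 := 536870912) (P3 := 67108864) (W3 := 67108864) (N0 := 3)
    rfl rfl rfl (fun _ => rfl) k0_pp_001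

noncomputable def f_pp_011 : ℕ → ℕ → ℕ → ℕ → Bool := onCell 536870912 536870912 536870912 536870912 67108864 67108864
    (rowNK 3 2 false true true .pnn 0 1 1 (qsf 0 536870912 536870912 536870912 1) ndN4q0 ndN1q1 pcN1 Cut.none Ext.none)

def k0_pp_011 : ∃ t, chk3 f_pp_011 t 1 1 1 = true :=
  ⟨(a (l 3) (a (l 3) (b (l 1) (b (l 18278784) (l 18763448))))), by decide +kernel⟩

theorem c_pp_011 : CertN 0 536870912 536870912 536870912 67108864 67108864 3 false true true .pnn 0 1 1
    ndN4q0 ndN1q1 pcN1 Cut.none Ext.none :=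
  certNK2 (fam := false) (s1 := true) (s2 := true) (a := 0) (b := 1) (c := 1) (cn := .pnn) (n1 := ndN4q0) (n2 := ndN1q1) (pc := pcN1) (cut := Cut.none) (xt := Ext.none) (P1 := 0) (W1 := 536870912) (P2 := 536870912) (W2 := 536870912) (P3 := 67108864) (W3 := 67108864) (N0 := 3)
    rfl rfl rfl (fun _ => rfl) k0_pp_011

noncomputable def f_pp_012_a : ℕ → ℕ → ℕ → ℕ → Bool := onCell 536870912 536870912 0 536870912 67108864 67108864
    (rowNK 3 2 false true true .pnp 0 1 2 (qsf 0 536870912 0 536870912 1) ndN4q0 ndN1q2a pcN1 Cut.none Ext.none)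

def k0_pp_012_a : ∃ t, chk3 f_pp_012_a t 1 1 1 = true :=
  ⟨(a (b (a (l 18024336) (l 17947968)) (a (b (l 17952152) (l 17797848)) (l 17869352))) (a (b (l 18407264) (a (l 18133608) (l 18504080))) (a (b (l 18932536) (l 18874712)) (a (l 19224248) (l 19281624))))), by decide +kernel⟩

theorem c_pp_012_a : CertN 0 536870912 0 536870912 67108864 67108864 3 false true true .pnp 0 1 2
    ndN4q0 ndN1q2a pcN1 Cut.none Ext.none :=
  certNK2 (fam := false) (s1 := true) (s2 := true) (a := 0) (b := 1) (c := 2) (cn := .pnp) (n1 := ndN4q0) (n2 := ndN1q2a) (pc := pcN1) (cut := Cut.none) (xt := Ext.none) (P1 := 0) (W1 := 536870912) (P2 := 0) (W2 := 536870912) (P3 := 67108864) (W3 := 67108864) (N0 := 3)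
    rfl rfl rfl (fun _ => rfl) k0_pp_012_a

noncomputable def f_pp_012_b : ℕ → ℕ → ℕ → ℕ → Bool := onCell 536870912 536870912 1239849684 370763052 67108864 67108864
    (rowNK 3 2 false true true .pnp 0 1 2 (qsf 0 536870912 1239849684 370763052 1) ndN4q0 ndN1q2b pcN1 Cut.none Ext.none)

def k0_pp_012_b : ∃ t, chk3 f_pp_012_b t 1 1 1 = true :=
  ⟨(a (b (a (l 2) (l 18374488)) (l 2)) (a (b (a (l 18332328) (l 18618056)) (a (l 2) (l 18484560))) (a (b (l 18858368) (l 18498536)) (a (b (l 18956224) (l 18501960)) (l 18974520))))), by decide +kernel⟩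

theorem c_pp_012_b : CertN 0 536870912 1239849684 370763052 67108864 67108864 3 false true true .pnp 0 1 2
    ndN4q0 ndN1q2b pcN1 Cut.none Ext.none :=
  certNK2 (fam := false) (s1 := true) (s2 := true) (a := 0) (b := 1) (c := 2) (cn := .pnp) (n1 := ndN4q0) (n2 := ndN1q2b) (pc := pcN1) (cut := Cut.none) (xt := Ext.none) (P1 := 0) (W1 := 536870912) (P2 := 1239849684) (W2 := 370763052) (P3 := 67108864) (W3 := 67108864) (N0 := 3)
    rfl rfl rfl (fun _ => rfl) k0_pp_012_b

noncomputable def f_pp_022_a : ℕ → ℕ → ℕ → ℕ → Bool := onCell 0 536870912 0 536870912 67108864 67108864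
    (rowNK 3 0 false true true .pp 0 2 2 (qsf 0 536870912 0 536870912 2) ndN4q0 ndN1q2a pcN2 Cut.none Ext.none)

def k0_pp_022_a : ∃ t, chk3 f_pp_022_a t 1 1 1 = true :=
  ⟨(a (b (l 19578616) (a (l 19635792) (l 19772744))) (l 1)), by decide +kernel⟩

theorem c_pp_022_a : CertN 0 536870912 0 536870912 67108864 67108864 3 false true true .pp 0 2 2
    ndN4q0 ndN1q2a pcN2 Cut.none Ext.none :=
  certNK0 (fam := false) (s1 := true) (s2 := true) (a := 0) (b := 2) (c := 2) (cn := .pp) (n1 := ndN4q0) (n2 := ndN1q2a) (pc := pcN2) (cut := Cut.none) (xt := Ext.none) (P1 := 0) (W1 := 536870912) (P2 := 0) (W2 := 536870912) (P3 := 67108864) (W3 := 67108864) (N0 := 3)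
    rfl rfl rfl k0_pp_022_a

noncomputable def f_pp_022_b : ℕ → ℕ → ℕ → ℕ → Bool := onCell 0 536870912 1073741824 536870912 67108864 67108864
    (rowNK 3 1 false true true .pp 0 2 2 (qsf 0 536870912 1239849684 370763052 2) ndN4q0 ndN1q2b pcN2 Cut.none Ext.none)

def k0_pp_022_b : ∃ t, chk3 f_pp_022_b t 1 1 1 = true :=
  ⟨(b (a (b (l 19494344) (l 18958824)) (b (l 18592600) (l 4))) (l 4)), by decide +kernel⟩

theorem c_pp_022_b : CertN 0 536870912 1239849684 370763052 67108864 67108864 3 false true true .pp 0 2 2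
    ndN4q0 ndN1q2b pcN2 Cut.none Ext.none :=
  certNK1 (fam := false) (s1 := true) (s2 := true) (a := 0) (b := 2) (c := 2) (cn := .pp) (n1 := ndN4q0) (n2 := ndN1q2b) (pc := pcN2) (cut := Cut.none) (xt := Ext.none) (P1 := 0) (W1 := 536870912) (P2 := 1239849684) (W2 := 370763052) (P3 := 67108864) (W3 := 67108864) (N0 := 3)
    rfl rfl rfl (fun _ => rfl) k0_pp_022_b

noncomputable def f_pp_023 : ℕ → ℕ → ℕ → ℕ → Bool := onCell 0 536870912 1610612736 536870912 67108864 67108864
    (rowNK 3 0 false true true .up 0 2 3 (qsf 0 536870912 1610612736 536870912 2) ndN4q0 ndN1q3 pcN2 Cut.none Ext.none)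

def k0_pp_023 : ∃ t, chk3 f_pp_023 t 1 1 1 = true :=
  ⟨(a (l 4) (b (b (a (l 4) (l 18386896)) (l 4)) (l 4))), by decide +kernel⟩

theorem c_pp_023 : CertN 0 536870912 1610612736 536870912 67108864 67108864 3 false true true .up 0 2 3
    ndN4q0 ndN1q3 pcN2 Cut.none Ext.none :=
  certNK0 (fam := false) (s1 := true) (s2 := true) (a := 0) (b := 2) (c := 3) (cn := .up) (n1 := ndN4q0) (n2 := ndN1q3) (pc := pcN2) (cut := Cut.none) (xt := Ext.none) (P1 := 0) (W1 := 536870912) (P2 := 1610612736) (W2 := 536870912) (P3 := 67108864) (W3 := 67108864) (N0 := 3)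
    rfl rfl rfl k0_pp_023

noncomputable def f_pp_033 : ℕ → ℕ → ℕ → ℕ → Bool := onCell 1610612736 536870912 1610612736 536870912 67108864 67108864
    (rowNK 3 2 false true true .pnn 0 3 3 (qsf 0 536870912 1610612736 536870912 3) ndN4q0 ndN1q3 pcN3 Cut.none Ext.none)

def k0_pp_033 : ∃ t, chk3 f_pp_033 t 1 1 1 = true :=
  ⟨(l 4), by decide +kernel⟩

theorem c_pp_033 : CertN 0 536870912 1610612736 536870912 67108864 67108864 3 false true true .pnn 0 3 3
    ndN4q0 ndN1q3 pcN3 Cut.none Ext.none :=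
  certNK2 (fam := false) (s1 := true) (s2 := true) (a := 0) (b := 3) (c := 3) (cn := .pnn) (n1 := ndN4q0) (n2 := ndN1q3) (pc := pcN3) (cut := Cut.none) (xt := Ext.none) (P1 := 0) (W1 := 536870912) (P2 := 1610612736) (W2 := 536870912) (P3 := 67108864) (W3 := 67108864) (N0 := 3)
    rfl rfl rfl (fun _ => rfl) k0_pp_033

noncomputable def f_pp_101 : ℕ → ℕ → ℕ → ℕ → Bool := onCell 536870912 536870912 536870912 536870912 67108864 67108864
    (rowNK 3 0 false true true .npn 1 0 1 (qsf 536870912 536870912 536870912 536870912 0) ndN4q1 ndN1q1 pcN0 Cut.none Ext.none)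

def k0_pp_101 : ∃ t, chk3 f_pp_101 t 1 1 1 = true :=
  ⟨(l 3), by decide +kernel⟩

theorem c_pp_101 : CertN 536870912 536870912 536870912 536870912 67108864 67108864 3 false true true .npn 1 0 1
    ndN4q1 ndN1q1 pcN0 Cut.none Ext.none :=
  certNK0 (fam := false) (s1 := true) (s2 := true) (a := 1) (b := 0) (c := 1) (cn := .npn) (n1 := ndN4q1) (n2 := ndN1q1) (pc := pcN0) (cut := Cut.none) (xt := Ext.none) (P1 := 536870912) (W1 := 536870912) (P2 := 536870912) (W2 := 536870912) (P3 := 67108864) (W3 := 67108864) (N0 := 3)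
    rfl rfl rfl k0_pp_101

noncomputable def cut_pp_102_a : Cut := Cut.of [[⟨0, 1, 0, 67108864⟩, ⟨1, 0, 0, 67108864⟩, ⟨2, 1, 0, 67108864⟩]]

noncomputable def f_pp_102_a : ℕ → ℕ → ℕ → ℕ → Bool := onCell 536870912 536870912 0 536870912 67108864 67108864
    (rowNK 3 0 false true true .npp 1 0 2 (qsf 536870912 536870912 0 536870912 0) ndN4q1 ndN1q2a pcN0 cut_pp_102_a Ext.none)

def k0_pp_102_a : ∃ t, chk3 f_pp_102_a t 1 1 1 = true :=
  ⟨(a (b (a (l 18949360) (l 19045432)) (a (b (l 18819424) (l 18715744)) (b (l 18824904) (b (l 18633976) (l 18404176))))) (b (a (l 19244448) (a (l 19294592) (b (l 19086472) (a (l 18887544) (l 18755664))))) (a (b (a (l 18767648) (l 18694664)) (b (a (l 18458808) (l 18258288)) (a (l 18094024) (b (l 17893840) (l 17572472))))) (b (a (b (l 18690872) (l 18372952)) (a (b (l 18478584) (l 17937104)) (b (l 18105424) (a (l 17421920) (l 16965736))))) (a (b (a (l 17985224) (l 17645520)) (b (a (l 17468976) (l 16940616)) (a (l 17019040) (b (l 16901984)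 (l 16880752))))) (a (b (b (l 17266424) (l 16921432)) (b (a (l 16888592) (l 16857200)) (b (a (l 16857776) (l 16831712)) (a (l 16841936) (l 6))))) (b (a (b (l 16916000) (l 16866256)) (b (l 16876288) (l 16833336))) (b (a (b (l 16836200) (l 6)) (l 6)) (l 6))))))))), by decide +kernel⟩

theorem c_pp_102_a : CertN 536870912 536870912 0 536870912 67108864 67108864 3 false true true .npp 1 0 2
    ndN4q1 ndN1q2a pcN0 cut_pp_102_a Ext.none :=
  certNK0 (fam := false) (s1 := true) (s2 := true) (a := 1) (b := 0) (c := 2) (cn := .npp) (n1 := ndN4q1) (n2 := ndN1q2a) (pc := pcN0) (cut := cut_pp_102_a) (xt := Ext.none) (P1 := 536870912) (W1 := 536870912) (P2 := 0) (W2 := 536870912) (P3 := 67108864) (W3 := 67108864) (N0 := 3)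
    rfl rfl rfl k0_pp_102_a

noncomputable def cut_pp_102_b : Cut := Cut.of [[⟨0, 1, 0, 67108864⟩, ⟨1, 0, 0, 67108864⟩, ⟨2, 1, 0, 67108864⟩]]

noncomputable def f_pp_102_b : ℕ → ℕ → ℕ → ℕ → Bool := onCell 536870912 536870912 1239849684 370763052 67108864 67108864
    (rowNK 3 0 false true true .npp 1 0 2 (qsf 536870912 536870912 1239849684 370763052 0) ndN4q1 ndN1q2b pcN0 cut_pp_102_b Ext.none)

def k0_pp_102_b : ∃ t, chk3 f_pp_102_b t 1 1 1 = true :=
  ⟨(a (b (a (l 2) (l 19029912)) (l 2)) (b (a (l 19330128) (b (a (l 19253624) (b (l 19269600) (l 19402984))) (l 19331704))) (a (l 18841512) (l 19103128)))), by decide +kernel⟩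

theorem c_pp_102_b : CertN 536870912 536870912 1239849684 370763052 67108864 67108864 3 false true true .npp 1 0 2
    ndN4q1 ndN1q2b pcN0 cut_pp_102_b Ext.none :=
  certNK0 (fam := false) (s1 := true) (s2 := true) (a := 1) (b := 0) (c := 2) (cn := .npp) (n1 := ndN4q1) (n2 := ndN1q2b) (pc := pcN0) (cut := cut_pp_102_b) (xt := Ext.none) (P1 := 536870912) (W1 := 536870912) (P2 := 1239849684) (W2 := 370763052) (P3 := 67108864) (W3 := 67108864) (N0 := 3)
    rfl rfl rfl k0_pp_102_b

noncomputable def f_pp_112_a : ℕ → ℕ → ℕ → ℕ → Bool := onCell 536870912 536870912 0 536870912 67108864 67108864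
    (rowNK 3 2 false true true .dn 1 1 2 (qsf 536870912 536870912 0 536870912 1) ndN4q1 ndN1q2a pcN1 Cut.none Ext.none)

def k0_pp_112_a : ∃ t, chk3 f_pp_112_a t 1 1 1 = true :=
  ⟨(a (b (l 17918032) (a (l 17845296) (l 17835728))) (l 1)), by decide +kernel⟩

theorem c_pp_112_a : CertN 536870912 536870912 0 536870912 67108864 67108864 3 false true true .dn 1 1 2
    ndN4q1 ndN1q2a pcN1 Cut.none Ext.none :=
  certNK2 (fam := false) (s1 := true) (s2 := true) (a := 1) (b := 1) (c := 2) (cn := .dn) (n1 := ndN4q1) (n2 := ndN1q2a) (pc := pcN1) (cut := Cut.none) (xt := Ext.none) (P1 := 536870912) (W1 := 536870912) (P2 := 0) (W2 := 536870912) (P3 := 67108864) (W3 := 67108864) (N0 := 3)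
    rfl rfl rfl (fun _ => rfl) k0_pp_112_a

noncomputable def f_pp_112_b : ℕ → ℕ → ℕ → ℕ → Bool := onCell 536870912 536870912 1239849684 370763052 67108864 67108864
    (rowNK 3 2 false true true .dn 1 1 2 (qsf 536870912 536870912 1239849684 370763052 1) ndN4q1 ndN1q2b pcN1 Cut.none Ext.none)

def k0_pp_112_b : ∃ t, chk3 f_pp_112_b t 1 1 1 = true :=
  ⟨(a (b (a (l 18505440) (l 18203464)) (a (l 19514944) (l 18814056))) (a (b (l 18425552) (l 18436976)) (a (l 18644544) (a (l 18708272) (l 18750336))))), by decide +kernel⟩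

theorem c_pp_112_b : CertN 536870912 536870912 1239849684 370763052 67108864 67108864 3 false true true .dn 1 1 2
    ndN4q1 ndN1q2b pcN1 Cut.none Ext.none :=
  certNK2 (fam := false) (s1 := true) (s2 := true) (a := 1) (b := 1) (c := 2) (cn := .dn) (n1 := ndN4q1) (n2 := ndN1q2b) (pc := pcN1) (cut := Cut.none) (xt := Ext.none) (P1 := 536870912) (W1 := 536870912) (P2 := 1239849684) (W2 := 370763052) (P3 := 67108864) (W3 := 67108864) (N0 := 3)
    rfl rfl rfl (fun _ => rfl) k0_pp_112_b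

noncomputable def f_pp_113 : ℕ → ℕ → ℕ → ℕ → Bool := onCell 536870912 536870912 536870912 536870912 67108864 67108864
    (rowNK 3 1 false true true .nn 1 1 3 (qsf 536870912 536870912 1610612736 536870912 1) ndN4q1 ndN1q3 pcN1 Cut.none Ext.none)

def k0_pp_113 : ∃ t, chk3 f_pp_113 t 1 1 1 = true :=
  ⟨(a (b (b (l 1) (l 17580824)) (b (l 336654496999) (b (l 18326568) (b (l 18273432) (l 18207320))))) (b (b (l 18938624) (l 18859200)) (b (b (l 18541064) (l 18143752)) (b (l 17799544) (b (l 17611560) (l 17475592)))))), by decide +kernel⟩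

theorem c_pp_113 : CertN 536870912 536870912 1610612736 536870912 67108864 67108864 3 false true true .nn 1 1 3
    ndN4q1 ndN1q3 pcN1 Cut.none Ext.none :=
  certNK1 (fam := false) (s1 := true) (s2 := true) (a := 1) (b := 1) (c := 3) (cn := .nn) (n1 := ndN4q1) (n2 := ndN1q3) (pc := pcN1) (cut := Cut.none) (xt := Ext.none) (P1 := 536870912) (W1 := 536870912) (P2 := 1610612736) (W2 := 536870912) (P3 := 67108864) (W3 := 67108864) (N0 := 3)
    rfl rfl rfl (fun _ => rfl) k0_pp_113

noncomputable def f_pp_123 : ℕ → ℕ → ℕ → ℕ → Bool := onCell 1073741824 536870912 1610612736 536870912 67108864 67108864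
    (rowNK 3 2 false true true .npn 1 2 3 (qsf 536870912 536870912 1610612736 536870912 2) ndN4q1 ndN1q3 pcN2 Cut.none Ext.none)

def k0_pp_123 : ∃ t, chk3 f_pp_123 t 1 1 1 = true :=
  ⟨(a (b (a (l 18212128) (l 4)) (a (l 17382056) (l 4))) (l 4)), by decide +kernel⟩

theorem c_pp_123 : CertN 536870912 536870912 1610612736 536870912 67108864 67108864 3 false true true .npn 1 2 3
    ndN4q1 ndN1q3 pcN2 Cut.none Ext.none :=
  certNK2 (fam := false) (s1 := true) (s2 := true) (a := 1) (b := 2) (c := 3) (cn := .npn) (n1 := ndN4q1) (n2 := ndN1q3) (pc := pcN2) (cut := Cut.none) (xt := Ext.none) (P1 := 536870912) (W1 := 536870912) (P2 := 1610612736) (W2 := 536870912) (P3 := 67108864) (W3 := 67108864) (N0 := 3)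
    rfl rfl rfl (fun _ => rfl) k0_pp_123

noncomputable def f_pp_133 : ℕ → ℕ → ℕ → ℕ → Bool := onCell 1610612736 536870912 1610612736 536870912 67108864 67108864
    (rowNK 3 2 false true true .dn 1 3 3 (qsf 536870912 536870912 1610612736 536870912 3) ndN4q1 ndN1q3 pcN3 Cut.none Ext.none)

def k0_pp_133 : ∃ t, chk3 f_pp_133 t 1 1 1 = true :=
  ⟨(l 4), by decide +kernel⟩

theorem c_pp_133 : CertN 536870912 536870912 1610612736 536870912 67108864 67108864 3 false true true .dn 1 3 3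
    ndN4q1 ndN1q3 pcN3 Cut.none Ext.none :=
  certNK2 (fam := false) (s1 := true) (s2 := true) (a := 1) (b := 3) (c := 3) (cn := .dn) (n1 := ndN4q1) (n2 := ndN1q3) (pc := pcN3) (cut := Cut.none) (xt := Ext.none) (P1 := 536870912) (W1 := 536870912) (P2 := 1610612736) (W2 := 536870912) (P3 := 67108864) (W3 := 67108864) (N0 := 3)
    rfl rfl rfl (fun _ => rfl) k0_pp_133

noncomputable def cut_pp_202_a : Cut := Cut.of [[⟨0, 1, 0, 67108864⟩, ⟨1, 0, 0, 67108864⟩, ⟨2, 1, 0, 67108864⟩]]

noncomputable def f_pp_202_a : ℕ → ℕ → ℕ → ℕ → Bool := onCell 0 536870912 0 536870912 67108864 67108864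
    (rowNK 3 2 false true true .pp 2 0 2 (qsf 1073741824 536870912 0 536870912 0) ndN4q2 ndN1q2a pcN0 cut_pp_202_a Ext.none)

def k0_pp_202_a : ∃ t, chk3 f_pp_202_a t 1 1 1 = true :=
  ⟨(a (a (b (a (b (l 17764624) (a (l 17478096) (b (l 17851680) (l 17638448)))) (b (l 18417224) (b (l 18296960) (a (l 17886360) (l 18218648))))) (a (b (a (a (b (l 16908672) (b (l 16770416) (l 16769640))) (b (l 17011040) (a (l 16819848) (l 16850360)))) (b (l 17129856) (a (l 16911120) (l 16836272)))) (a (b (b (a (a (l 16732432) (l 16777672)) (a (l 16786200) (l 16752424))) (l 6)) (l 6)) (b (b (a (l 16787960) (l 16835984)) (a (l 6) (l 16838488))) (a (l 6) (l 1))))) (b (b (a (l 17387936) (l 17738392)) (a (l 17023856) (l 17032048))) (b (a (b (l 16903176) (l 1)) (l 1)) (l 1))))) (b (a (b (l 19123920) (l 18825816)) (l 1)) (b (l 1) (l 1)))) (l 1)), by decide +kernel⟩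

theorem c_pp_202_a : CertN 1073741824 536870912 0 536870912 67108864 67108864 3 false true true .pp 2 0 2
    ndN4q2 ndN1q2a pcN0 cut_pp_202_a Ext.none :=
  certNK2 (fam := false) (s1 := true) (s2 := true) (a := 2) (b := 0) (c := 2) (cn := .pp) (n1 := ndN4q2) (n2 := ndN1q2a) (pc := pcN0) (cut := cut_pp_202_a) (xt := Ext.none) (P1 := 1073741824) (W1 := 536870912) (P2 := 0) (W2 := 536870912) (P3 := 67108864) (W3 := 67108864) (N0 := 3)
    rfl rfl rfl (fun _ => rfl) k0_pp_202_a

noncomputable def cut_pp_202_b : Cut := Cut.of [[⟨0, 1, 0, 67108864⟩, ⟨1, 0, 0, 67108864⟩, ⟨2, 1, 0, 67108864⟩]]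

noncomputable def f_pp_202_b : ℕ → ℕ → ℕ → ℕ → Bool := onCell 0 536870912 1239849684 370763052 67108864 67108864
    (rowNK 3 2 false true true .pp 2 0 2 (qsf 1073741824 536870912 1239849684 370763052 0) ndN4q2 ndN1q2b pcN0 cut_pp_202_b Ext.none)

def k0_pp_202_b : ∃ t, chk3 f_pp_202_b t 1 1 1 = true :=
  ⟨(a (a (b (a (b (l 18203968) (l 18799144)) (b (l 18693776) (l 18908792))) (a (b (l 18991848) (l 18890936)) (b (l 19037320) (l 18981824)))) (b (a (b (a (l 19003976) (l 19215536)) (l 19083008)) (l 19193440)) (b (a (l 19066352) (l 19146672)) (a (l 19011304) (l 18980768))))) (a (b (l 19495912) (l 19295880)) (b (l 1) (l 19318192)))), by decide +kernel⟩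

theorem c_pp_202_b : CertN 1073741824 536870912 1239849684 370763052 67108864 67108864 3 false true true .pp 2 0 2
    ndN4q2 ndN1q2b pcN0 cut_pp_202_b Ext.none :=
  certNK2 (fam := false) (s1 := true) (s2 := true) (a := 2) (b := 0) (c := 2) (cn := .pp) (n1 := ndN4q2) (n2 := ndN1q2b) (pc := pcN0) (cut := cut_pp_202_b) (xt := Ext.none) (P1 := 1073741824) (W1 := 536870912) (P2 := 1239849684) (W2 := 370763052) (P3 := 67108864) (W3 := 67108864) (N0 := 3)
    rfl rfl rfl (fun _ => rfl) k0_pp_202_b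

noncomputable def f_pp_203 : ℕ → ℕ → ℕ → ℕ → Bool := onCell 1073741824 536870912 0 536870912 67108864 67108864
    (rowNK 3 1 false true true .up 2 0 3 (qsf 1073741824 536870912 1610612736 536870912 0) ndN4q2 ndN1q3 pcN0 Cut.none Ext.none)

def k0_pp_203 : ∃ t, chk3 f_pp_203 t 1 1 1 = true :=
  ⟨(b (a (b (l 1) (a (l 1) (l 562679797111))) (b (b (a (l 1) (l 19349024)) (a (l 442420823799) (l 19089928))) (a (l 19114664) (b (l 18827896) (l 18733464))))) (a (a (l 529929717639) (b (l 18870576) (l 18480576))) (b (a (l 18602752) (l 18275960)) (a (l 18119512) (l 17724648))))), by decide +kernel⟩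

theorem c_pp_203 : CertN 1073741824 536870912 1610612736 536870912 67108864 67108864 3 false true true .up 2 0 3
    ndN4q2 ndN1q3 pcN0 Cut.none Ext.none :=
  certNK1 (fam := false) (s1 := true) (s2 := true) (a := 2) (b := 0) (c := 3) (cn := .up) (n1 := ndN4q2) (n2 := ndN1q3) (pc := pcN0) (cut := Cut.none) (xt := Ext.none) (P1 := 1073741824) (W1 := 536870912) (P2 := 1610612736) (W2 := 536870912) (P3 := 67108864) (W3 := 67108864) (N0 := 3)
    rfl rfl rfl (fun _ => rfl) k0_pp_203

noncomputable def f_pp_213 : ℕ → ℕ → ℕ → ℕ → Bool := onCell 536870912 536870912 1610612736 536870912 67108864 67108864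
    (rowNK 3 2 false true true .pnn 2 1 3 (qsf 1073741824 536870912 1610612736 536870912 1) ndN4q2 ndN1q3 pcN1 Cut.none Ext.none)

def k0_pp_213 : ∃ t, chk3 f_pp_213 t 1 1 1 = true :=
  ⟨(a (b (a (l 19978808) (l 19668912)) (a (b (l 19289328) (l 18763736)) (l 19292512))) (b (a (a (l 19152552) (l 1)) (l 1)) (a (a (l 18654440) (l 18121000)) (a (l 17788608) (a (l 17705872) (l 17687528)))))), by decide +kernel⟩

theorem c_pp_213 : CertN 1073741824 536870912 1610612736 536870912 67108864 67108864 3 false true true .pnn 2 1 3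
    ndN4q2 ndN1q3 pcN1 Cut.none Ext.none :=
  certNK2 (fam := false) (s1 := true) (s2 := true) (a := 2) (b := 1) (c := 3) (cn := .pnn) (n1 := ndN4q2) (n2 := ndN1q3) (pc := pcN1) (cut := Cut.none) (xt := Ext.none) (P1 := 1073741824) (W1 := 536870912) (P2 := 1610612736) (W2 := 536870912) (P3 := 67108864) (W3 := 67108864) (N0 := 3)
    rfl rfl rfl (fun _ => rfl) k0_pp_213

noncomputable def f_pp_303 : ℕ → ℕ → ℕ → ℕ → Bool := onCell 0 1230186008 1610612736 536870912 67108864 67108864
    (rowNK 3 0 false true true .npn 3 0 3 (qsf 0 1230186008 1610612736 536870912 0) ndN4q3 ndN1q3 pcN0 Cut.none Ext.none)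

def k0_pp_303 : ∃ t, chk3 f_pp_303 t 1 1 1 = true :=
  ⟨(a (l 3) (a (l 3) (b (a (l 3) (b (l 3) (a (l 3) (l 602003524023)))) (a (b (l 3) (l 409265383175)) (b (a (l 520935245527) (l 17953704)) (a (l 17555032) (l 17587232))))))), by decide +kernel⟩

theorem c_pp_303 : CertN 0 1230186008 1610612736 536870912 67108864 67108864 3 false true true .npn 3 0 3
    ndN4q3 ndN1q3 pcN0 Cut.none Ext.none :=
  certNK0 (fam := false) (s1 := true) (s2 := true) (a := 3) (b := 0) (c := 3) (cn := .npn) (n1 := ndN4q3) (n2 := ndN1q3) (pc := pcN0) (cut := Cut.none) (xt := Ext.none) (P1 := 0) (W1 := 1230186008) (P2 := 1610612736) (W2 := 536870912) (P3 := 67108864) (W3 := 67108864) (N0 := 3)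
    rfl rfl rfl k0_pp_303

noncomputable def f_pp_313 : ℕ → ℕ → ℕ → ℕ → Bool := onCell 0 1230186008 1610612736 536870912 67108864 67108864
    (rowNK 3 0 false true true .dn 3 1 3 (qsf 0 1230186008 1610612736 536870912 1) ndN4q3 ndN1q3 pcN1 Cut.none Ext.none)

def k0_pp_313 : ∃ t, chk3 f_pp_313 t 1 1 1 = true :=
  ⟨(a (l 1) (a (l 1) (b (l 1) (a (l 1) (b (l 1) (a (l 1) (l 18119536))))))), by decide +kernel⟩

theorem c_pp_313 : CertN 0 1230186008 1610612736 536870912 67108864 67108864 3 false true true .dn 3 1 3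
    ndN4q3 ndN1q3 pcN1 Cut.none Ext.none :=
  certNK0 (fam := false) (s1 := true) (s2 := true) (a := 3) (b := 1) (c := 3) (cn := .dn) (n1 := ndN4q3) (n2 := ndN1q3) (pc := pcN1) (cut := Cut.none) (xt := Ext.none) (P1 := 0) (W1 := 1230186008) (P2 := 1610612736) (W2 := 536870912) (P3 := 67108864) (W3 := 67108864) (N0 := 3)
    rfl rfl rfl k0_pp_313

noncomputable def f_pm_001 : ℕ → ℕ → ℕ → ℕ → Bool := onCell 0 536870912 536870912 536870912 67108864 67108864
    (rowNK 3 0 false true false .up 0 0 1 (qsf 0 536870912 536870912 536870912 0) ndN4q0 ndN1q1 pcN0 Cut.none Ext.none)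

def k0_pm_001 : ∃ t, chk3 f_pm_001 t 1 1 1 = true :=
  ⟨(l 4), by decide +kernel⟩

theorem c_pm_001 : CertN 0 536870912 536870912 536870912 67108864 67108864 3 false true false .up 0 0 1
    ndN4q0 ndN1q1 pcN0 Cut.none Ext.none :=
  certNK0 (fam := false) (s1 := true) (s2 := false) (a := 0) (b := 0) (c := 1) (cn := .up) (n1 := ndN4q0) (n2 := ndN1q1) (pc := pcN0) (cut := Cut.none) (xt := Ext.none) (P1 := 0) (W1 := 536870912) (P2 := 536870912) (W2 := 536870912) (P3 := 67108864) (W3 := 67108864) (N0 := 3)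
    rfl rfl rfl k0_pm_001

noncomputable def f_pm_011 : ℕ → ℕ → ℕ → ℕ → Bool := onCell 0 536870912 536870912 536870912 67108864 67108864
    (rowNK 3 0 false true false .pnn 0 1 1 (qsf 0 536870912 536870912 536870912 1) ndN4q0 ndN1q1 pcN1 Cut.none Ext.none)

def k0_pm_011 : ∃ t, chk3 f_pm_011 t 1 1 1 = true :=
  ⟨(l 4), by decide +kernel⟩

theorem c_pm_011 : CertN 0 536870912 536870912 536870912 67108864 67108864 3 false true false .pnn 0 1 1
    ndN4q0 ndN1q1 pcN1 Cut.none Ext.none :=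
  certNK0 (fam := false) (s1 := true) (s2 := false) (a := 0) (b := 1) (c := 1) (cn := .pnn) (n1 := ndN4q0) (n2 := ndN1q1) (pc := pcN1) (cut := Cut.none) (xt := Ext.none) (P1 := 0) (W1 := 536870912) (P2 := 536870912) (W2 := 536870912) (P3 := 67108864) (W3 := 67108864) (N0 := 3)
    rfl rfl rfl k0_pm_011

noncomputable def f_pm_012_a : ℕ → ℕ → ℕ → ℕ → Bool := onCell 0 536870912 0 536870912 67108864 67108864
    (rowNK 3 0 false true false .pnp 0 1 2 (qsf 0 536870912 0 536870912 1) ndN4q0 ndN1q2a pcN1 Cut.none Ext.none)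

def k0_pm_012_a : ∃ t, chk3 f_pm_012_a t 1 1 1 = true :=
  ⟨(l 4), by decide +kernel⟩

theorem c_pm_012_a : CertN 0 536870912 0 536870912 67108864 67108864 3 false true false .pnp 0 1 2
    ndN4q0 ndN1q2a pcN1 Cut.none Ext.none :=
  certNK0 (fam := false) (s1 := true) (s2 := false) (a := 0) (b := 1) (c := 2) (cn := .pnp) (n1 := ndN4q0) (n2 := ndN1q2a) (pc := pcN1) (cut := Cut.none) (xt := Ext.none) (P1 := 0) (W1 := 536870912) (P2 := 0) (W2 := 536870912) (P3 := 67108864) (W3 := 67108864) (N0 := 3)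
    rfl rfl rfl k0_pm_012_a

noncomputable def f_pm_012_b : ℕ → ℕ → ℕ → ℕ → Bool := onCell 0 536870912 1239849684 370763052 67108864 67108864
    (rowNK 3 0 false true false .pnp 0 1 2 (qsf 0 536870912 1239849684 370763052 1) ndN4q0 ndN1q2b pcN1 Cut.none Ext.none)

def k0_pm_012_b : ∃ t, chk3 f_pm_012_b t 1 1 1 = true :=
  ⟨(l 4), by decide +kernel⟩

theorem c_pm_012_b : CertN 0 536870912 1239849684 370763052 67108864 67108864 3 false true false .pnp 0 1 2
    ndN4q0 ndN1q2b pcN1 Cut.none Ext.none :=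
  certNK0 (fam := false) (s1 := true) (s2 := false) (a := 0) (b := 1) (c := 2) (cn := .pnp) (n1 := ndN4q0) (n2 := ndN1q2b) (pc := pcN1) (cut := Cut.none) (xt := Ext.none) (P1 := 0) (W1 := 536870912) (P2 := 1239849684) (W2 := 370763052) (P3 := 67108864) (W3 := 67108864) (N0 := 3)
    rfl rfl rfl k0_pm_012_b

noncomputable def f_pm_022_a : ℕ → ℕ → ℕ → ℕ → Bool := onCell 0 536870912 0 536870912 67108864 67108864
    (rowNK 3 0 false true false .pp 0 2 2 (qsf 0 536870912 0 536870912 2) ndN4q0 ndN1q2a pcN2 Cut.none Ext.none)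

def k0_pm_022_a : ∃ t, chk3 f_pm_022_a t 1 1 1 = true :=
  ⟨(l 4), by decide +kernel⟩

theorem c_pm_022_a : CertN 0 536870912 0 536870912 67108864 67108864 3 false true false .pp 0 2 2
    ndN4q0 ndN1q2a pcN2 Cut.none Ext.none :=
  certNK0 (fam := false) (s1 := true) (s2 := false) (a := 0) (b := 2) (c := 2) (cn := .pp) (n1 := ndN4q0) (n2 := ndN1q2a) (pc := pcN2) (cut := Cut.none) (xt := Ext.none) (P1 := 0) (W1 := 536870912) (P2 := 0) (W2 := 536870912) (P3 := 67108864) (W3 := 67108864) (N0 := 3)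
    rfl rfl rfl k0_pm_022_a

noncomputable def f_pm_022_b : ℕ → ℕ → ℕ → ℕ → Bool := onCell 0 536870912 1239849684 370763052 67108864 67108864
    (rowNK 3 0 false true false .pp 0 2 2 (qsf 0 536870912 1239849684 370763052 2) ndN4q0 ndN1q2b pcN2 Cut.none Ext.none)

def k0_pm_022_b : ∃ t, chk3 f_pm_022_b t 1 1 1 = true :=
  ⟨(l 4), by decide +kernel⟩

theorem c_pm_022_b : CertN 0 536870912 1239849684 370763052 67108864 67108864 3 false true false .pp 0 2 2
    ndN4q0 ndN1q2b pcN2 Cut.none Ext.none :=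
  certNK0 (fam := false) (s1 := true) (s2 := false) (a := 0) (b := 2) (c := 2) (cn := .pp) (n1 := ndN4q0) (n2 := ndN1q2b) (pc := pcN2) (cut := Cut.none) (xt := Ext.none) (P1 := 0) (W1 := 536870912) (P2 := 1239849684) (W2 := 370763052) (P3 := 67108864) (W3 := 67108864) (N0 := 3)
    rfl rfl rfl k0_pm_022_b

noncomputable def f_pm_023 : ℕ → ℕ → ℕ → ℕ → Bool := onCell 0 536870912 1610612736 536870912 67108864 67108864
    (rowNK 3 0 false true false .up 0 2 3 (qsf 0 536870912 1610612736 536870912 2) ndN4q0 ndN1q3 pcN2 Cut.none Ext.none)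

def k0_pm_023 : ∃ t, chk3 f_pm_023 t 1 1 1 = true :=
  ⟨(l 4), by decide +kernel⟩

theorem c_pm_023 : CertN 0 536870912 1610612736 536870912 67108864 67108864 3 false true false .up 0 2 3
    ndN4q0 ndN1q3 pcN2 Cut.none Ext.none :=
  certNK0 (fam := false) (s1 := true) (s2 := false) (a := 0) (b := 2) (c := 3) (cn := .up) (n1 := ndN4q0) (n2 := ndN1q3) (pc := pcN2) (cut := Cut.none) (xt := Ext.none) (P1 := 0) (W1 := 536870912) (P2 := 1610612736) (W2 := 536870912) (P3 := 67108864) (W3 := 67108864) (N0 := 3)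
    rfl rfl rfl k0_pm_023

noncomputable def f_pm_033 : ℕ → ℕ → ℕ → ℕ → Bool := onCell 0 536870912 1610612736 536870912 67108864 67108864
    (rowNK 3 0 false true false .pnn 0 3 3 (qsf 0 536870912 1610612736 536870912 3) ndN4q0 ndN1q3 pcN3 Cut.none Ext.none)

def k0_pm_033 : ∃ t, chk3 f_pm_033 t 1 1 1 = true :=
  ⟨(l 4), by decide +kernel⟩

theorem c_pm_033 : CertN 0 536870912 1610612736 536870912 67108864 67108864 3 false true false .pnn 0 3 3
    ndN4q0 ndN1q3 pcN3 Cut.none Ext.none :=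
  certNK0 (fam := false) (s1 := true) (s2 := false) (a := 0) (b := 3) (c := 3) (cn := .pnn) (n1 := ndN4q0) (n2 := ndN1q3) (pc := pcN3) (cut := Cut.none) (xt := Ext.none) (P1 := 0) (W1 := 536870912) (P2 := 1610612736) (W2 := 536870912) (P3 := 67108864) (W3 := 67108864) (N0 := 3)
    rfl rfl rfl k0_pm_033

noncomputable def f_pm_101 : ℕ → ℕ → ℕ → ℕ → Bool := onCell 536870912 536870912 536870912 536870912 67108864 67108864
    (rowNK 3 0 false true false .npn 1 0 1 (qsf 536870912 536870912 536870912 536870912 0) ndN4q1 ndN1q1 pcN0 Cut.none Ext.none)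

def k0_pm_101 : ∃ t, chk3 f_pm_101 t 1 1 1 = true :=
  ⟨(l 4), by decide +kernel⟩

theorem c_pm_101 : CertN 536870912 536870912 536870912 536870912 67108864 67108864 3 false true false .npn 1 0 1
    ndN4q1 ndN1q1 pcN0 Cut.none Ext.none :=
  certNK0 (fam := false) (s1 := true) (s2 := false) (a := 1) (b := 0) (c := 1) (cn := .npn) (n1 := ndN4q1) (n2 := ndN1q1) (pc := pcN0) (cut := Cut.none) (xt := Ext.none) (P1 := 536870912) (W1 := 536870912) (P2 := 536870912) (W2 := 536870912) (P3 := 67108864) (W3 := 67108864) (N0 := 3)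
    rfl rfl rfl k0_pm_101

noncomputable def f_pm_102_a : ℕ → ℕ → ℕ → ℕ → Bool := onCell 536870912 536870912 0 536870912 67108864 67108864
    (rowNK 3 0 false true false .npp 1 0 2 (qsf 536870912 536870912 0 536870912 0) ndN4q1 ndN1q2a pcN0 Cut.none Ext.none)

def k0_pm_102_a : ∃ t, chk3 f_pm_102_a t 1 1 1 = true :=
  ⟨(l 4), by decide +kernel⟩

theorem c_pm_102_a : CertN 536870912 536870912 0 536870912 67108864 67108864 3 false true false .npp 1 0 2
    ndN4q1 ndN1q2a pcN0 Cut.none Ext.none :=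
  certNK0 (fam := false) (s1 := true) (s2 := false) (a := 1) (b := 0) (c := 2) (cn := .npp) (n1 := ndN4q1) (n2 := ndN1q2a) (pc := pcN0) (cut := Cut.none) (xt := Ext.none) (P1 := 536870912) (W1 := 536870912) (P2 := 0) (W2 := 536870912) (P3 := 67108864) (W3 := 67108864) (N0 := 3)
    rfl rfl rfl k0_pm_102_a

noncomputable def f_pm_102_b : ℕ → ℕ → ℕ → ℕ → Bool := onCell 536870912 536870912 1239849684 370763052 67108864 67108864
    (rowNK 3 0 false true false .npp 1 0 2 (qsf 536870912 536870912 1239849684 370763052 0) ndN4q1 ndN1q2b pcN0 Cut.none Ext.none)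

def k0_pm_102_b : ∃ t, chk3 f_pm_102_b t 1 1 1 = true :=
  ⟨(l 4), by decide +kernel⟩

theorem c_pm_102_b : CertN 536870912 536870912 1239849684 370763052 67108864 67108864 3 false true false .npp 1 0 2
    ndN4q1 ndN1q2b pcN0 Cut.none Ext.none :=
  certNK0 (fam := false) (s1 := true) (s2 := false) (a := 1) (b := 0) (c := 2) (cn := .npp) (n1 := ndN4q1) (n2 := ndN1q2b) (pc := pcN0) (cut := Cut.none) (xt := Ext.none) (P1 := 536870912) (W1 := 536870912) (P2 := 1239849684) (W2 := 370763052) (P3 := 67108864) (W3 := 67108864) (N0 := 3)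
    rfl rfl rfl k0_pm_102_b

noncomputable def f_pm_112_a : ℕ → ℕ → ℕ → ℕ → Bool := onCell 536870912 536870912 0 536870912 67108864 67108864
    (rowNK 3 0 false true false .dn 1 1 2 (qsf 536870912 536870912 0 536870912 1) ndN4q1 ndN1q2a pcN1 Cut.none Ext.none)

def k0_pm_112_a : ∃ t, chk3 f_pm_112_a t 1 1 1 = true :=
  ⟨(l 4), by decide +kernel⟩

theorem c_pm_112_a : CertN 536870912 536870912 0 536870912 67108864 67108864 3 false true false .dn 1 1 2
    ndN4q1 ndN1q2a pcN1 Cut.none Ext.none :=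
  certNK0 (fam := false) (s1 := true) (s2 := false) (a := 1) (b := 1) (c := 2) (cn := .dn) (n1 := ndN4q1) (n2 := ndN1q2a) (pc := pcN1) (cut := Cut.none) (xt := Ext.none) (P1 := 536870912) (W1 := 536870912) (P2 := 0) (W2 := 536870912) (P3 := 67108864) (W3 := 67108864) (N0 := 3)
    rfl rfl rfl k0_pm_112_a

noncomputable def f_pm_112_b : ℕ → ℕ → ℕ → ℕ → Bool := onCell 536870912 536870912 1239849684 370763052 67108864 67108864
    (rowNK 3 0 false true false .dn 1 1 2 (qsf 536870912 536870912 1239849684 370763052 1) ndN4q1 ndN1q2b pcN1 Cut.none Ext.none)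

def k0_pm_112_b : ∃ t, chk3 f_pm_112_b t 1 1 1 = true :=
  ⟨(l 4), by decide +kernel⟩

theorem c_pm_112_b : CertN 536870912 536870912 1239849684 370763052 67108864 67108864 3 false true false .dn 1 1 2
    ndN4q1 ndN1q2b pcN1 Cut.none Ext.none :=
  certNK0 (fam := false) (s1 := true) (s2 := false) (a := 1) (b := 1) (c := 2) (cn := .dn) (n1 := ndN4q1) (n2 := ndN1q2b) (pc := pcN1) (cut := Cut.none) (xt := Ext.none) (P1 := 536870912) (W1 := 536870912) (P2 := 1239849684) (W2 := 370763052) (P3 := 67108864) (W3 := 67108864) (N0 := 3)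
    rfl rfl rfl k0_pm_112_b

noncomputable def f_pm_113 : ℕ → ℕ → ℕ → ℕ → Bool := onCell 536870912 536870912 1610612736 536870912 67108864 67108864
    (rowNK 3 0 false true false .nn 1 1 3 (qsf 536870912 536870912 1610612736 536870912 1) ndN4q1 ndN1q3 pcN1 Cut.none Ext.none)

def k0_pm_113 : ∃ t, chk3 f_pm_113 t 1 1 1 = true :=
  ⟨(a (l 4) (b (l 4) (b (l 4) (b (l 4) (b (l 4) (l 16841200)))))), by decide +kernel⟩

theorem c_pm_113 : CertN 536870912 536870912 1610612736 536870912 67108864 67108864 3 false true false .nn 1 1 3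
    ndN4q1 ndN1q3 pcN1 Cut.none Ext.none :=
  certNK0 (fam := false) (s1 := true) (s2 := false) (a := 1) (b := 1) (c := 3) (cn := .nn) (n1 := ndN4q1) (n2 := ndN1q3) (pc := pcN1) (cut := Cut.none) (xt := Ext.none) (P1 := 536870912) (W1 := 536870912) (P2 := 1610612736) (W2 := 536870912) (P3 := 67108864) (W3 := 67108864) (N0 := 3)
    rfl rfl rfl k0_pm_113

noncomputable def f_pm_123 : ℕ → ℕ → ℕ → ℕ → Bool := onCell 1073741824 536870912 1610612736 536870912 67108864 67108864
    (rowNK 3 2 false true false .npn 1 2 3 (qsf 536870912 536870912 1610612736 536870912 2) ndN4q1 ndN1q3 pcN2 Cut.none Ext.none)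

def k0_pm_123 : ∃ t, chk3 f_pm_123 t 1 1 1 = true :=
  ⟨(a (b (l 4) (a (l 17367888) (l 4))) (l 4)), by decide +kernel⟩

theorem c_pm_123 : CertN 536870912 536870912 1610612736 536870912 67108864 67108864 3 false true false .npn 1 2 3
    ndN4q1 ndN1q3 pcN2 Cut.none Ext.none :=
  certNK2 (fam := false) (s1 := true) (s2 := false) (a := 1) (b := 2) (c := 3) (cn := .npn) (n1 := ndN4q1) (n2 := ndN1q3) (pc := pcN2) (cut := Cut.none) (xt := Ext.none) (P1 := 536870912) (W1 := 536870912) (P2 := 1610612736) (W2 := 536870912) (P3 := 67108864) (W3 := 67108864) (N0 := 3)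
    rfl rfl rfl (fun _ => rfl) k0_pm_123

noncomputable def f_pm_133 : ℕ → ℕ → ℕ → ℕ → Bool := onCell 1610612736 536870912 1610612736 536870912 67108864 67108864
    (rowNK 3 2 false true false .dn 1 3 3 (qsf 536870912 536870912 1610612736 536870912 3) ndN4q1 ndN1q3 pcN3 Cut.none Ext.none)

def k0_pm_133 : ∃ t, chk3 f_pm_133 t 1 1 1 = true :=
  ⟨(l 4), by decide +kernel⟩

theorem c_pm_133 : CertN 536870912 536870912 1610612736 536870912 67108864 67108864 3 false true false .dn 1 3 3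
    ndN4q1 ndN1q3 pcN3 Cut.none Ext.none :=
  certNK2 (fam := false) (s1 := true) (s2 := false) (a := 1) (b := 3) (c := 3) (cn := .dn) (n1 := ndN4q1) (n2 := ndN1q3) (pc := pcN3) (cut := Cut.none) (xt := Ext.none) (P1 := 536870912) (W1 := 536870912) (P2 := 1610612736) (W2 := 536870912) (P3 := 67108864) (W3 := 67108864) (N0 := 3)
    rfl rfl rfl (fun _ => rfl) k0_pm_133

noncomputable def f_pm_202_a : ℕ → ℕ → ℕ → ℕ → Bool := onCell 0 536870912 0 536870912 67108864 67108864
    (rowNK 3 2 false true false .pp 2 0 2 (qsf 1073741824 536870912 0 536870912 0) ndN4q2 ndN1q2a pcN0 Cut.none Ext.none)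

def k0_pm_202_a : ∃ t, chk3 f_pm_202_a t 1 1 1 = true :=
  ⟨(a (a (b (l 19628256) (l 4)) (l 4)) (l 1)), by decide +kernel⟩

theorem c_pm_202_a : CertN 1073741824 536870912 0 536870912 67108864 67108864 3 false true false .pp 2 0 2
    ndN4q2 ndN1q2a pcN0 Cut.none Ext.none :=
  certNK2 (fam := false) (s1 := true) (s2 := false) (a := 2) (b := 0) (c := 2) (cn := .pp) (n1 := ndN4q2) (n2 := ndN1q2a) (pc := pcN0) (cut := Cut.none) (xt := Ext.none) (P1 := 1073741824) (W1 := 536870912) (P2 := 0) (W2 := 536870912) (P3 := 67108864) (W3 := 67108864) (N0 := 3)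
    rfl rfl rfl (fun _ => rfl) k0_pm_202_a

noncomputable def f_pm_202_b : ℕ → ℕ → ℕ → ℕ → Bool := onCell 0 536870912 1239849684 370763052 67108864 67108864
    (rowNK 3 2 false true false .pp 2 0 2 (qsf 1073741824 536870912 1239849684 370763052 0) ndN4q2 ndN1q2b pcN0 Cut.none Ext.none)

def k0_pm_202_b : ∃ t, chk3 f_pm_202_b t 1 1 1 = true :=
  ⟨(b (a (a (l 19124056) (l 19411576)) (l 4)) (a (a (l 18390624) (l 18668112)) (a (l 19026016) (l 19376152)))), by decide +kernel⟩

theorem c_pm_202_b : CertN 1073741824 536870912 1239849684 370763052 67108864 67108864 3 false true false .pp 2 0 2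
    ndN4q2 ndN1q2b pcN0 Cut.none Ext.none :=
  certNK2 (fam := false) (s1 := true) (s2 := false) (a := 2) (b := 0) (c := 2) (cn := .pp) (n1 := ndN4q2) (n2 := ndN1q2b) (pc := pcN0) (cut := Cut.none) (xt := Ext.none) (P1 := 1073741824) (W1 := 536870912) (P2 := 1239849684) (W2 := 370763052) (P3 := 67108864) (W3 := 67108864) (N0 := 3)
    rfl rfl rfl (fun _ => rfl) k0_pm_202_b

noncomputable def f_pm_203 : ℕ → ℕ → ℕ → ℕ → Bool := onCell 1073741824 536870912 0 536870912 67108864 67108864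
    (rowNK 3 1 false true false .up 2 0 3 (qsf 1073741824 536870912 1610612736 536870912 0) ndN4q2 ndN1q3 pcN0 Cut.none Ext.none)

def k0_pm_203 : ∃ t, chk3 f_pm_203 t 1 1 1 = true :=
  ⟨(b (a (b (l 1) (l 18984024)) (b (a (l 17624736) (b (l 17272528) (l 17391168))) (a (l 18064016) (l 17835928)))) (a (b (l 19070216) (l 290485761175)) (b (a (l 18242696) (l 17768208)) (a (b (l 18163072) (l 17768208)) (a (b (l 17462200) (l 17468232)) (l 17316008)))))), by decide +kernel⟩

theorem c_pm_203 : CertN 1073741824 536870912 1610612736 536870912 67108864 67108864 3 false true false .up 2 0 3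
    ndN4q2 ndN1q3 pcN0 Cut.none Ext.none :=
  certNK1 (fam := false) (s1 := true) (s2 := false) (a := 2) (b := 0) (c := 3) (cn := .up) (n1 := ndN4q2) (n2 := ndN1q3) (pc := pcN0) (cut := Cut.none) (xt := Ext.none) (P1 := 1073741824) (W1 := 536870912) (P2 := 1610612736) (W2 := 536870912) (P3 := 67108864) (W3 := 67108864) (N0 := 3)
    rfl rfl rfl (fun _ => rfl) k0_pm_203

noncomputable def f_pm_213 : ℕ → ℕ → ℕ → ℕ → Bool := onCell 536870912 536870912 1610612736 536870912 67108864 67108864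
    (rowNK 3 2 false true false .pnn 2 1 3 (qsf 1073741824 536870912 1610612736 536870912 1) ndN4q2 ndN1q3 pcN1 Cut.none Ext.none)

def k0_pm_213 : ∃ t, chk3 f_pm_213 t 1 1 1 = true :=
  ⟨(a (b (a (b (l 18668392) (a (l 18365128) (l 17909768))) (l 18432464)) (a (b (b (a (l 17927440) (l 17921904)) (a (l 18879712) (l 18782272))) (a (l 18800072) (b (l 18504840) (l 18728256)))) (b (a (a (l 18503320) (l 17729952)) (l 17658192)) (b (a (l 18368968) (l 18073448)) (l 18545624))))) (b (l 4) (a (a (b (l 17524816) (b (l 17532312) (l 17886344))) (b (l 17467664) (l 17186376))) (b (l 4) (a (l 17077840) (a (l 17116856) (l 17109616))))))), by decide +kernel⟩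

theorem c_pm_213 : CertN 1073741824 536870912 1610612736 536870912 67108864 67108864 3 false true false .pnn 2 1 3
    ndN4q2 ndN1q3 pcN1 Cut.none Ext.none :=
  certNK2 (fam := false) (s1 := true) (s2 := false) (a := 2) (b := 1) (c := 3) (cn := .pnn) (n1 := ndN4q2) (n2 := ndN1q3) (pc := pcN1) (cut := Cut.none) (xt := Ext.none) (P1 := 1073741824) (W1 := 536870912) (P2 := 1610612736) (W2 := 536870912) (P3 := 67108864) (W3 := 67108864) (N0 := 3)
    rfl rfl rfl (fun _ => rfl) k0_pm_213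

noncomputable def f_pm_303 : ℕ → ℕ → ℕ → ℕ → Bool := onCell 0 1230186008 1610612736 536870912 67108864 67108864
    (rowNK 3 0 false true false .npn 3 0 3 (qsf 0 1230186008 1610612736 536870912 0) ndN4q3 ndN1q3 pcN0 Cut.none Ext.none)

def k0_pm_303 : ∃ t, chk3 f_pm_303 t 1 1 1 = true :=
  ⟨(a (l 3) (a (b (a (l 1) (b (l 1) (a (l 1) (b (l 1) (l 243373640263))))) (b (a (l 3) (b (l 275586402535) (l 3))) (l 3))) (b (a (b (l 1) (b (a (l 17279056) (l 17314776)) (a (l 18119784) (l 17944368)))) (b (b (l 17269672) (a (l 17058608) (l 17089112))) (b (a (l 17413976) (l 17550496)) (l 17713984)))) (a (b (b (a (l 18343816) (l 18223432)) (l 18019112)) (l 251962676215)) (b (b (l 17643592) (l 17759296)) (a (l 17401824) (l 17269456))))))), by decide +kernel⟩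

theorem c_pm_303 : CertN 0 1230186008 1610612736 536870912 67108864 67108864 3 false true false .npn 3 0 3
    ndN4q3 ndN1q3 pcN0 Cut.none Ext.none :=
  certNK0 (fam := false) (s1 := true) (s2 := false) (a := 3) (b := 0) (c := 3) (cn := .npn) (n1 := ndN4q3) (n2 := ndN1q3) (pc := pcN0) (cut := Cut.none) (xt := Ext.none) (P1 := 0) (W1 := 1230186008) (P2 := 1610612736) (W2 := 536870912) (P3 := 67108864) (W3 := 67108864) (N0 := 3)
    rfl rfl rfl k0_pm_303

noncomputable def f_pm_313 : ℕ → ℕ → ℕ → ℕ → Bool := onCell 0 1230186008 1610612736 536870912 67108864 67108864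
    (rowNK 3 0 false true false .dn 3 1 3 (qsf 0 1230186008 1610612736 536870912 1) ndN4q3 ndN1q3 pcN1 Cut.none Ext.none)

def k0_pm_313 : ∃ t, chk3 f_pm_313 t 1 1 1 = true :=
  ⟨(a (l 1) (a (l 1) (b (l 1) (a (l 1) (b (l 1) (a (l 1) (l 18483320))))))), by decide +kernel⟩

theorem c_pm_313 : CertN 0 1230186008 1610612736 536870912 67108864 67108864 3 false true false .dn 3 1 3
    ndN4q3 ndN1q3 pcN1 Cut.none Ext.none :=
  certNK0 (fam := false) (s1 := true) (s2 := false) (a := 3) (b := 1) (c := 3) (cn := .dn) (n1 := ndN4q3) (n2 := ndN1q3) (pc := pcN1) (cut := Cut.none) (xt := Ext.none) (P1 := 0) (W1 := 1230186008) (P2 := 1610612736) (W2 := 536870912) (P3 := 67108864) (W3 := 67108864) (N0 := 3)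
    rfl rfl rfl k0_pm_313

noncomputable def f_mm_001 : ℕ → ℕ → ℕ → ℕ → Bool := onCell 0 536870912 536870912 536870912 67108864 67108864
    (rowNK 3 0 false false false .up 0 0 1 (qsf 0 536870912 536870912 536870912 0) ndN4q0 ndN1q1 pcN0 Cut.none Ext.none)

def k0_mm_001 : ∃ t, chk3 f_mm_001 t 1 1 1 = true :=
  ⟨(l 5), by decide +kernel⟩

theorem c_mm_001 : CertN 0 536870912 536870912 536870912 67108864 67108864 3 false false false .up 0 0 1
    ndN4q0 ndN1q1 pcN0 Cut.none Ext.none :=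
  certNK0 (fam := false) (s1 := false) (s2 := false) (a := 0) (b := 0) (c := 1) (cn := .up) (n1 := ndN4q0) (n2 := ndN1q1) (pc := pcN0) (cut := Cut.none) (xt := Ext.none) (P1 := 0) (W1 := 536870912) (P2 := 536870912) (W2 := 536870912) (P3 := 67108864) (W3 := 67108864) (N0 := 3)
    rfl rfl rfl k0_mm_001

noncomputable def f_mm_011 : ℕ → ℕ → ℕ → ℕ → Bool := onCell 0 536870912 536870912 536870912 67108864 67108864
    (rowNK 3 0 false false false .pnn 0 1 1 (qsf 0 536870912 536870912 536870912 1) ndN4q0 ndN1q1 pcN1 Cut.none Ext.none)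

def k0_mm_011 : ∃ t, chk3 f_mm_011 t 1 1 1 = true :=
  ⟨(l 5), by decide +kernel⟩

theorem c_mm_011 : CertN 0 536870912 536870912 536870912 67108864 67108864 3 false false false .pnn 0 1 1
    ndN4q0 ndN1q1 pcN1 Cut.none Ext.none :=
  certNK0 (fam := false) (s1 := false) (s2 := false) (a := 0) (b := 1) (c := 1) (cn := .pnn) (n1 := ndN4q0) (n2 := ndN1q1) (pc := pcN1) (cut := Cut.none) (xt := Ext.none) (P1 := 0) (W1 := 536870912) (P2 := 536870912) (W2 := 536870912) (P3 := 67108864) (W3 := 67108864) (N0 := 3)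
    rfl rfl rfl k0_mm_011

noncomputable def f_mm_012_a : ℕ → ℕ → ℕ → ℕ → Bool := onCell 0 536870912 0 536870912 67108864 67108864
    (rowNK 3 0 false false false .pnp 0 1 2 (qsf 0 536870912 0 536870912 1) ndN4q0 ndN1q2a pcN1 Cut.none Ext.none)

def k0_mm_012_a : ∃ t, chk3 f_mm_012_a t 1 1 1 = true :=
  ⟨(l 5), by decide +kernel⟩

theorem c_mm_012_a : CertN 0 536870912 0 536870912 67108864 67108864 3 false false false .pnp 0 1 2
    ndN4q0 ndN1q2a pcN1 Cut.none Ext.none :=
  certNK0 (fam := false) (s1 := false) (s2 := false) (a := 0) (b := 1) (c := 2) (cn := .pnp) (n1 := ndN4q0) (n2 := ndN1q2a) (pc := pcN1) (cut := Cut.none) (xt := Ext.none) (P1 := 0) (W1 := 536870912) (P2 := 0) (W2 := 536870912) (P3 := 67108864) (W3 := 67108864) (N0 := 3)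
    rfl rfl rfl k0_mm_012_a

noncomputable def f_mm_012_b : ℕ → ℕ → ℕ → ℕ → Bool := onCell 0 536870912 1239849684 370763052 67108864 67108864
    (rowNK 3 0 false false false .pnp 0 1 2 (qsf 0 536870912 1239849684 370763052 1) ndN4q0 ndN1q2b pcN1 Cut.none Ext.none)

def k0_mm_012_b : ∃ t, chk3 f_mm_012_b t 1 1 1 = true :=
  ⟨(l 5), by decide +kernel⟩

theorem c_mm_012_b : CertN 0 536870912 1239849684 370763052 67108864 67108864 3 false false false .pnp 0 1 2
    ndN4q0 ndN1q2b pcN1 Cut.none Ext.none :=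
  certNK0 (fam := false) (s1 := false) (s2 := false) (a := 0) (b := 1) (c := 2) (cn := .pnp) (n1 := ndN4q0) (n2 := ndN1q2b) (pc := pcN1) (cut := Cut.none) (xt := Ext.none) (P1 := 0) (W1 := 536870912) (P2 := 1239849684) (W2 := 370763052) (P3 := 67108864) (W3 := 67108864) (N0 := 3)
    rfl rfl rfl k0_mm_012_b

noncomputable def f_mm_022_a : ℕ → ℕ → ℕ → ℕ → Bool := onCell 0 536870912 0 536870912 67108864 67108864
    (rowNK 3 0 false false false .pp 0 2 2 (qsf 0 536870912 0 536870912 2) ndN4q0 ndN1q2a pcN2 Cut.none Ext.none)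

def k0_mm_022_a : ∃ t, chk3 f_mm_022_a t 1 1 1 = true :=
  ⟨(l 5), by decide +kernel⟩

theorem c_mm_022_a : CertN 0 536870912 0 536870912 67108864 67108864 3 false false false .pp 0 2 2
    ndN4q0 ndN1q2a pcN2 Cut.none Ext.none :=
  certNK0 (fam := false) (s1 := false) (s2 := false) (a := 0) (b := 2) (c := 2) (cn := .pp) (n1 := ndN4q0) (n2 := ndN1q2a) (pc := pcN2) (cut := Cut.none) (xt := Ext.none) (P1 := 0) (W1 := 536870912) (P2 := 0) (W2 := 536870912) (P3 := 67108864) (W3 := 67108864) (N0 := 3)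
    rfl rfl rfl k0_mm_022_a

noncomputable def f_mm_022_b : ℕ → ℕ → ℕ → ℕ → Bool := onCell 0 536870912 1239849684 370763052 67108864 67108864
    (rowNK 3 0 false false false .pp 0 2 2 (qsf 0 536870912 1239849684 370763052 2) ndN4q0 ndN1q2b pcN2 Cut.none Ext.none)

def k0_mm_022_b : ∃ t, chk3 f_mm_022_b t 1 1 1 = true :=
  ⟨(l 5), by decide +kernel⟩

theorem c_mm_022_b : CertN 0 536870912 1239849684 370763052 67108864 67108864 3 false false false .pp 0 2 2
    ndN4q0 ndN1q2b pcN2 Cut.none Ext.none :=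
  certNK0 (fam := false) (s1 := false) (s2 := false) (a := 0) (b := 2) (c := 2) (cn := .pp) (n1 := ndN4q0) (n2 := ndN1q2b) (pc := pcN2) (cut := Cut.none) (xt := Ext.none) (P1 := 0) (W1 := 536870912) (P2 := 1239849684) (W2 := 370763052) (P3 := 67108864) (W3 := 67108864) (N0 := 3)
    rfl rfl rfl k0_mm_022_b

noncomputable def f_mm_023 : ℕ → ℕ → ℕ → ℕ → Bool := onCell 0 536870912 1610612736 536870912 67108864 67108864
    (rowNK 3 0 false false false .up 0 2 3 (qsf 0 536870912 1610612736 536870912 2) ndN4q0 ndN1q3 pcN2 Cut.none Ext.none)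

def k0_mm_023 : ∃ t, chk3 f_mm_023 t 1 1 1 = true :=
  ⟨(l 5), by decide +kernel⟩

theorem c_mm_023 : CertN 0 536870912 1610612736 536870912 67108864 67108864 3 false false false .up 0 2 3
    ndN4q0 ndN1q3 pcN2 Cut.none Ext.none :=
  certNK0 (fam := false) (s1 := false) (s2 := false) (a := 0) (b := 2) (c := 3) (cn := .up) (n1 := ndN4q0) (n2 := ndN1q3) (pc := pcN2) (cut := Cut.none) (xt := Ext.none) (P1 := 0) (W1 := 536870912) (P2 := 1610612736) (W2 := 536870912) (P3 := 67108864) (W3 := 67108864) (N0 := 3)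
    rfl rfl rfl k0_mm_023

noncomputable def f_mm_033 : ℕ → ℕ → ℕ → ℕ → Bool := onCell 0 536870912 1610612736 536870912 67108864 67108864
    (rowNK 3 0 false false false .pnn 0 3 3 (qsf 0 536870912 1610612736 536870912 3) ndN4q0 ndN1q3 pcN3 Cut.none Ext.none)

def k0_mm_033 : ∃ t, chk3 f_mm_033 t 1 1 1 = true :=
  ⟨(l 5), by decide +kernel⟩

theorem c_mm_033 : CertN 0 536870912 1610612736 536870912 67108864 67108864 3 false false false .pnn 0 3 3
    ndN4q0 ndN1q3 pcN3 Cut.none Ext.none :=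
  certNK0 (fam := false) (s1 := false) (s2 := false) (a := 0) (b := 3) (c := 3) (cn := .pnn) (n1 := ndN4q0) (n2 := ndN1q3) (pc := pcN3) (cut := Cut.none) (xt := Ext.none) (P1 := 0) (W1 := 536870912) (P2 := 1610612736) (W2 := 536870912) (P3 := 67108864) (W3 := 67108864) (N0 := 3)
    rfl rfl rfl k0_mm_033

noncomputable def f_mm_101 : ℕ → ℕ → ℕ → ℕ → Bool := onCell 536870912 536870912 536870912 536870912 67108864 67108864
    (rowNK 3 0 false false false .npn 1 0 1 (qsf 536870912 536870912 536870912 536870912 0) ndN4q1 ndN1q1 pcN0 Cut.none Ext.none)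

def k0_mm_101 : ∃ t, chk3 f_mm_101 t 1 1 1 = true :=
  ⟨(l 3), by decide +kernel⟩

theorem c_mm_101 : CertN 536870912 536870912 536870912 536870912 67108864 67108864 3 false false false .npn 1 0 1
    ndN4q1 ndN1q1 pcN0 Cut.none Ext.none :=
  certNK0 (fam := false) (s1 := false) (s2 := false) (a := 1) (b := 0) (c := 1) (cn := .npn) (n1 := ndN4q1) (n2 := ndN1q1) (pc := pcN0) (cut := Cut.none) (xt := Ext.none) (P1 := 536870912) (W1 := 536870912) (P2 := 536870912) (W2 := 536870912) (P3 := 67108864) (W3 := 67108864) (N0 := 3)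
    rfl rfl rfl k0_mm_101

noncomputable def f_mm_102_a : ℕ → ℕ → ℕ → ℕ → Bool := onCell 536870912 536870912 0 536870912 67108864 67108864
    (rowNK 3 0 false false false .npp 1 0 2 (qsf 536870912 536870912 0 536870912 0) ndN4q1 ndN1q2a pcN0 Cut.none Ext.none)

def k0_mm_102_a : ∃ t, chk3 f_mm_102_a t 1 1 1 = true :=
  ⟨(l 5), by decide +kernel⟩

theorem c_mm_102_a : CertN 536870912 536870912 0 536870912 67108864 67108864 3 false false false .npp 1 0 2
    ndN4q1 ndN1q2a pcN0 Cut.none Ext.none :=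
  certNK0 (fam := false) (s1 := false) (s2 := false) (a := 1) (b := 0) (c := 2) (cn := .npp) (n1 := ndN4q1) (n2 := ndN1q2a) (pc := pcN0) (cut := Cut.none) (xt := Ext.none) (P1 := 536870912) (W1 := 536870912) (P2 := 0) (W2 := 536870912) (P3 := 67108864) (W3 := 67108864) (N0 := 3)
    rfl rfl rfl k0_mm_102_a

noncomputable def f_mm_102_b : ℕ → ℕ → ℕ → ℕ → Bool := onCell 536870912 536870912 1239849684 370763052 67108864 67108864
    (rowNK 3 0 false false false .npp 1 0 2 (qsf 536870912 536870912 1239849684 370763052 0) ndN4q1 ndN1q2b pcN0 Cut.none Ext.none)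

def k0_mm_102_b : ∃ t, chk3 f_mm_102_b t 1 1 1 = true :=
  ⟨(l 5), by decide +kernel⟩

theorem c_mm_102_b : CertN 536870912 536870912 1239849684 370763052 67108864 67108864 3 false false false .npp 1 0 2
    ndN4q1 ndN1q2b pcN0 Cut.none Ext.none :=
  certNK0 (fam := false) (s1 := false) (s2 := false) (a := 1) (b := 0) (c := 2) (cn := .npp) (n1 := ndN4q1) (n2 := ndN1q2b) (pc := pcN0) (cut := Cut.none) (xt := Ext.none) (P1 := 536870912) (W1 := 536870912) (P2 := 1239849684) (W2 := 370763052) (P3 := 67108864) (W3 := 67108864) (N0 := 3)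
    rfl rfl rfl k0_mm_102_b

noncomputable def f_mm_112_a : ℕ → ℕ → ℕ → ℕ → Bool := onCell 536870912 536870912 0 536870912 67108864 67108864
    (rowNK 3 0 false false false .dn 1 1 2 (qsf 536870912 536870912 0 536870912 1) ndN4q1 ndN1q2a pcN1 Cut.none Ext.none)

def k0_mm_112_a : ∃ t, chk3 f_mm_112_a t 1 1 1 = true :=
  ⟨(l 5), by decide +kernel⟩

theorem c_mm_112_a : CertN 536870912 536870912 0 536870912 67108864 67108864 3 false false false .dn 1 1 2
    ndN4q1 ndN1q2a pcN1 Cut.none Ext.none :=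
  certNK0 (fam := false) (s1 := false) (s2 := false) (a := 1) (b := 1) (c := 2) (cn := .dn) (n1 := ndN4q1) (n2 := ndN1q2a) (pc := pcN1) (cut := Cut.none) (xt := Ext.none) (P1 := 536870912) (W1 := 536870912) (P2 := 0) (W2 := 536870912) (P3 := 67108864) (W3 := 67108864) (N0 := 3)
    rfl rfl rfl k0_mm_112_a

noncomputable def f_mm_112_b : ℕ → ℕ → ℕ → ℕ → Bool := onCell 536870912 536870912 1239849684 370763052 67108864 67108864
    (rowNK 3 0 false false false .dn 1 1 2 (qsf 536870912 536870912 1239849684 370763052 1) ndN4q1 ndN1q2b pcN1 Cut.none Ext.none)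

def k0_mm_112_b : ∃ t, chk3 f_mm_112_b t 1 1 1 = true :=
  ⟨(l 5), by decide +kernel⟩

theorem c_mm_112_b : CertN 536870912 536870912 1239849684 370763052 67108864 67108864 3 false false false .dn 1 1 2
    ndN4q1 ndN1q2b pcN1 Cut.none Ext.none :=
  certNK0 (fam := false) (s1 := false) (s2 := false) (a := 1) (b := 1) (c := 2) (cn := .dn) (n1 := ndN4q1) (n2 := ndN1q2b) (pc := pcN1) (cut := Cut.none) (xt := Ext.none) (P1 := 536870912) (W1 := 536870912) (P2 := 1239849684) (W2 := 370763052) (P3 := 67108864) (W3 := 67108864) (N0 := 3)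
    rfl rfl rfl k0_mm_112_b

noncomputable def f_mm_113 : ℕ → ℕ → ℕ → ℕ → Bool := onCell 536870912 536870912 1610612736 536870912 67108864 67108864
    (rowNK 3 0 false false false .nn 1 1 3 (qsf 536870912 536870912 1610612736 536870912 1) ndN4q1 ndN1q3 pcN1 Cut.none Ext.none)

def k0_mm_113 : ∃ t, chk3 f_mm_113 t 1 1 1 = true :=
  ⟨(l 5), by decide +kernel⟩

theorem c_mm_113 : CertN 536870912 536870912 1610612736 536870912 67108864 67108864 3 false false false .nn 1 1 3
    ndN4q1 ndN1q3 pcN1 Cut.none Ext.none :=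
  certNK0 (fam := false) (s1 := false) (s2 := false) (a := 1) (b := 1) (c := 3) (cn := .nn) (n1 := ndN4q1) (n2 := ndN1q3) (pc := pcN1) (cut := Cut.none) (xt := Ext.none) (P1 := 536870912) (W1 := 536870912) (P2 := 1610612736) (W2 := 536870912) (P3 := 67108864) (W3 := 67108864) (N0 := 3)
    rfl rfl rfl k0_mm_113

noncomputable def f_mm_123 : ℕ → ℕ → ℕ → ℕ → Bool := onCell 536870912 536870912 1610612736 536870912 67108864 67108864
    (rowNK 3 0 false false false .npn 1 2 3 (qsf 536870912 536870912 1610612736 536870912 2) ndN4q1 ndN1q3 pcN2 Cut.none Ext.none)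

def k0_mm_123 : ∃ t, chk3 f_mm_123 t 1 1 1 = true :=
  ⟨(l 5), by decide +kernel⟩

theorem c_mm_123 : CertN 536870912 536870912 1610612736 536870912 67108864 67108864 3 false false false .npn 1 2 3
    ndN4q1 ndN1q3 pcN2 Cut.none Ext.none :=
  certNK0 (fam := false) (s1 := false) (s2 := false) (a := 1) (b := 2) (c := 3) (cn := .npn) (n1 := ndN4q1) (n2 := ndN1q3) (pc := pcN2) (cut := Cut.none) (xt := Ext.none) (P1 := 536870912) (W1 := 536870912) (P2 := 1610612736) (W2 := 536870912) (P3 := 67108864) (W3 := 67108864) (N0 := 3)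
    rfl rfl rfl k0_mm_123

noncomputable def f_mm_133 : ℕ → ℕ → ℕ → ℕ → Bool := onCell 536870912 536870912 1610612736 536870912 67108864 67108864
    (rowNK 3 0 false false false .dn 1 3 3 (qsf 536870912 536870912 1610612736 536870912 3) ndN4q1 ndN1q3 pcN3 Cut.none Ext.none)

def k0_mm_133 : ∃ t, chk3 f_mm_133 t 1 1 1 = true :=
  ⟨(l 5), by decide +kernel⟩

theorem c_mm_133 : CertN 536870912 536870912 1610612736 536870912 67108864 67108864 3 false false false .dn 1 3 3
    ndN4q1 ndN1q3 pcN3 Cut.none Ext.none :=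
  certNK0 (fam := false) (s1 := false) (s2 := false) (a := 1) (b := 3) (c := 3) (cn := .dn) (n1 := ndN4q1) (n2 := ndN1q3) (pc := pcN3) (cut := Cut.none) (xt := Ext.none) (P1 := 536870912) (W1 := 536870912) (P2 := 1610612736) (W2 := 536870912) (P3 := 67108864) (W3 := 67108864) (N0 := 3)
    rfl rfl rfl k0_mm_133

noncomputable def f_mm_202_a : ℕ → ℕ → ℕ → ℕ → Bool := onCell 1073741824 536870912 0 536870912 67108864 67108864
    (rowNK 3 0 false false false .pp 2 0 2 (qsf 1073741824 536870912 0 536870912 0) ndN4q2 ndN1q2a pcN0 Cut.none Ext.none)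

def k0_mm_202_a : ∃ t, chk3 f_mm_202_a t 1 1 1 = true :=
  ⟨(l 5), by decide +kernel⟩

theorem c_mm_202_a : CertN 1073741824 536870912 0 536870912 67108864 67108864 3 false false false .pp 2 0 2
    ndN4q2 ndN1q2a pcN0 Cut.none Ext.none :=
  certNK0 (fam := false) (s1 := false) (s2 := false) (a := 2) (b := 0) (c := 2) (cn := .pp) (n1 := ndN4q2) (n2 := ndN1q2a) (pc := pcN0) (cut := Cut.none) (xt := Ext.none) (P1 := 1073741824) (W1 := 536870912) (P2 := 0) (W2 := 536870912) (P3 := 67108864) (W3 := 67108864) (N0 := 3)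
    rfl rfl rfl k0_mm_202_a

noncomputable def f_mm_202_b : ℕ → ℕ → ℕ → ℕ → Bool := onCell 1073741824 536870912 1239849684 370763052 67108864 67108864
    (rowNK 3 0 false false false .pp 2 0 2 (qsf 1073741824 536870912 1239849684 370763052 0) ndN4q2 ndN1q2b pcN0 Cut.none Ext.none)

def k0_mm_202_b : ∃ t, chk3 f_mm_202_b t 1 1 1 = true :=
  ⟨(l 5), by decide +kernel⟩

theorem c_mm_202_b : CertN 1073741824 536870912 1239849684 370763052 67108864 67108864 3 false false false .pp 2 0 2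
    ndN4q2 ndN1q2b pcN0 Cut.none Ext.none :=
  certNK0 (fam := false) (s1 := false) (s2 := false) (a := 2) (b := 0) (c := 2) (cn := .pp) (n1 := ndN4q2) (n2 := ndN1q2b) (pc := pcN0) (cut := Cut.none) (xt := Ext.none) (P1 := 1073741824) (W1 := 536870912) (P2 := 1239849684) (W2 := 370763052) (P3 := 67108864) (W3 := 67108864) (N0 := 3)
    rfl rfl rfl k0_mm_202_b

noncomputable def f_mm_203 : ℕ → ℕ → ℕ → ℕ → Bool := onCell 1073741824 536870912 1610612736 536870912 67108864 67108864
    (rowNK 3 0 false false false .up 2 0 3 (qsf 1073741824 536870912 1610612736 536870912 0) ndN4q2 ndN1q3 pcN0 Cut.none Ext.none)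

def k0_mm_203 : ∃ t, chk3 f_mm_203 t 1 1 1 = true :=
  ⟨(l 5), by decide +kernel⟩

theorem c_mm_203 : CertN 1073741824 536870912 1610612736 536870912 67108864 67108864 3 false false false .up 2 0 3
    ndN4q2 ndN1q3 pcN0 Cut.none Ext.none :=
  certNK0 (fam := false) (s1 := false) (s2 := false) (a := 2) (b := 0) (c := 3) (cn := .up) (n1 := ndN4q2) (n2 := ndN1q3) (pc := pcN0) (cut := Cut.none) (xt := Ext.none) (P1 := 1073741824) (W1 := 536870912) (P2 := 1610612736) (W2 := 536870912) (P3 := 67108864) (W3 := 67108864) (N0 := 3)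
    rfl rfl rfl k0_mm_203

noncomputable def f_mm_213 : ℕ → ℕ → ℕ → ℕ → Bool := onCell 1073741824 536870912 1610612736 536870912 67108864 67108864
    (rowNK 3 0 false false false .pnn 2 1 3 (qsf 1073741824 536870912 1610612736 536870912 1) ndN4q2 ndN1q3 pcN1 Cut.none Ext.none)

def k0_mm_213 : ∃ t, chk3 f_mm_213 t 1 1 1 = true :=
  ⟨(l 5), by decide +kernel⟩

theorem c_mm_213 : CertN 1073741824 536870912 1610612736 536870912 67108864 67108864 3 false false false .pnn 2 1 3
    ndN4q2 ndN1q3 pcN1 Cut.none Ext.none :=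
  certNK0 (fam := false) (s1 := false) (s2 := false) (a := 2) (b := 1) (c := 3) (cn := .pnn) (n1 := ndN4q2) (n2 := ndN1q3) (pc := pcN1) (cut := Cut.none) (xt := Ext.none) (P1 := 1073741824) (W1 := 536870912) (P2 := 1610612736) (W2 := 536870912) (P3 := 67108864) (W3 := 67108864) (N0 := 3)
    rfl rfl rfl k0_mm_213

noncomputable def f_mm_303 : ℕ → ℕ → ℕ → ℕ → Bool := onCell 0 1230186008 1610612736 536870912 67108864 67108864
    (rowNK 3 0 false false false .npn 3 0 3 (qsf 0 1230186008 1610612736 536870912 0) ndN4q3 ndN1q3 pcN0 Cut.none Ext.none)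

def k0_mm_303 : ∃ t, chk3 f_mm_303 t 1 1 1 = true :=
  ⟨(a (l 3) (l 5)), by decide +kernel⟩

theorem c_mm_303 : CertN 0 1230186008 1610612736 536870912 67108864 67108864 3 false false false .npn 3 0 3
    ndN4q3 ndN1q3 pcN0 Cut.none Ext.none :=
  certNK0 (fam := false) (s1 := false) (s2 := false) (a := 3) (b := 0) (c := 3) (cn := .npn) (n1 := ndN4q3) (n2 := ndN1q3) (pc := pcN0) (cut := Cut.none) (xt := Ext.none) (P1 := 0) (W1 := 1230186008) (P2 := 1610612736) (W2 := 536870912) (P3 := 67108864) (W3 := 67108864) (N0 := 3)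
    rfl rfl rfl k0_mm_303

noncomputable def f_mm_313 : ℕ → ℕ → ℕ → ℕ → Bool := onCell 0 1230186008 1610612736 536870912 67108864 67108864
    (rowNK 3 0 false false false .dn 3 1 3 (qsf 0 1230186008 1610612736 536870912 1) ndN4q3 ndN1q3 pcN1 Cut.none Ext.none)

def k0_mm_313 : ∃ t, chk3 f_mm_313 t 1 1 1 = true :=
  ⟨(a (l 1) (l 5)), by decide +kernel⟩

theorem c_mm_313 : CertN 0 1230186008 1610612736 536870912 67108864 67108864 3 false false false .dn 3 1 3
    ndN4q3 ndN1q3 pcN1 Cut.none Ext.none :=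
  certNK0 (fam := false) (s1 := false) (s2 := false) (a := 3) (b := 1) (c := 3) (cn := .dn) (n1 := ndN4q3) (n2 := ndN1q3) (pc := pcN1) (cut := Cut.none) (xt := Ext.none) (P1 := 0) (W1 := 1230186008) (P2 := 1610612736) (W2 := 536870912) (P3 := 67108864) (W3 := 67108864) (N0 := 3)
    rfl rfl rfl k0_mm_313

end Pool.Agent.Strip051.G.I1_16_1_8.Tab.C.NB41

namespace Pool.Agent.Strip051.G.I1_16_1_8.Tab.C.NB42

open Pool.Agent.Strip051.PB Pool.Agent.Strip051.PB.T
open Pool.Agent.Strip051.G.I1_16_1_8.Tab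

noncomputable def f_pp_001 : ℕ → ℕ → ℕ → ℕ → Bool := onCell 0 536870912 536870912 536870912 67108864 67108864
    (rowNK 3 0 false true true .up 0 0 1 (qsf 0 536870912 536870912 536870912 0) ndN4q0 ndN2q1 pcN0 Cut.none Ext.none)

def k0_pp_001 : ∃ t, chk3 f_pp_001 t 1 1 1 = true :=
  ⟨(l 3), by decide +kernel⟩

theorem c_pp_001 : CertN 0 536870912 536870912 536870912 67108864 67108864 3 false true true .up 0 0 1
    ndN4q0 ndN2q1 pcN0 Cut.none Ext.none :=
  certNK0 (fam := false) (s1 := true) (s2 := true) (a := 0) (b := 0) (c := 1) (cn := .up) (n1 := ndN4q0) (n2 := ndN2q1) (pc := pcN0) (cut := Cut.none) (xt := Ext.none) (P1 := 0) (W1 := 536870912) (P2 := 536870912) (W2 := 536870912) (P3 := 67108864) (W3 := 67108864) (N0 := 3)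
    rfl rfl rfl k0_pp_001

noncomputable def f_pp_011 : ℕ → ℕ → ℕ → ℕ → Bool := onCell 0 536870912 536870912 536870912 67108864 67108864
    (rowNK 3 0 false true true .pnn 0 1 1 (qsf 0 536870912 536870912 536870912 1) ndN4q0 ndN2q1 pcN1 Cut.none Ext.none)

def k0_pp_011 : ∃ t, chk3 f_pp_011 t 1 1 1 = true :=
  ⟨(l 3), by decide +kernel⟩

theorem c_pp_011 : CertN 0 536870912 536870912 536870912 67108864 67108864 3 false true true .pnn 0 1 1
    ndN4q0 ndN2q1 pcN1 Cut.none Ext.none :=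
  certNK0 (fam := false) (s1 := true) (s2 := true) (a := 0) (b := 1) (c := 1) (cn := .pnn) (n1 := ndN4q0) (n2 := ndN2q1) (pc := pcN1) (cut := Cut.none) (xt := Ext.none) (P1 := 0) (W1 := 536870912) (P2 := 536870912) (W2 := 536870912) (P3 := 67108864) (W3 := 67108864) (N0 := 3)
    rfl rfl rfl k0_pp_011

noncomputable def f_pp_012_a : ℕ → ℕ → ℕ → ℕ → Bool := onCell 536870912 536870912 0 536870912 67108864 67108864
    (rowNK 3 2 false true true .pnp 0 1 2 (qsf 0 536870912 0 536870912 1) ndN4q0 ndN2q2a pcN1 Cut.none Ext.none)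

def k0_pp_012_a : ∃ t, chk3 f_pp_012_a t 1 1 1 = true :=
  ⟨(a (b (a (l 18310976) (l 18094744)) (b (a (l 18095896) (l 17960032)) (b (a (l 17910744) (l 17852024)) (a (l 17781416) (l 17796112))))) (b (a (l 18233904) (a (l 18603504) (a (l 18818408) (l 18973720)))) (a (b (l 18212712) (b (l 18213192) (l 18252056))) (b (a (l 18665208) (a (l 18913624) (l 19089248))) (a (b (l 18740856) (l 18844232)) (b (a (l 19018688) (l 19212344)) (a (l 19146752) (l 19356424)))))))), by decide +kernel⟩

theorem c_pp_012_a : CertN 0 536870912 0 536870912 67108864 67108864 3 false true true .pnp 0 1 2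
    ndN4q0 ndN2q2a pcN1 Cut.none Ext.none :=
  certNK2 (fam := false) (s1 := true) (s2 := true) (a := 0) (b := 1) (c := 2) (cn := .pnp) (n1 := ndN4q0) (n2 := ndN2q2a) (pc := pcN1) (cut := Cut.none) (xt := Ext.none) (P1 := 0) (W1 := 536870912) (P2 := 0) (W2 := 536870912) (P3 := 67108864) (W3 := 67108864) (N0 := 3)
    rfl rfl rfl (fun _ => rfl) k0_pp_012_a

noncomputable def f_pp_012_b : ℕ → ℕ → ℕ → ℕ → Bool := onCell 536870912 536870912 1239849684 370763052 67108864 67108864
    (rowNK 3 2 false true true .pnp 0 1 2 (qsf 0 536870912 1239849684 370763052 1) ndN4q0 ndN2q2b pcN1 Cut.none Ext.none)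

def k0_pp_012_b : ∃ t, chk3 f_pp_012_b t 1 1 1 = true :=
  ⟨(a (b (a (l 2) (l 275518970327)) (l 2)) (b (a (b (l 18160520) (l 18092472)) (a (l 18334072) (a (l 18480336) (l 18598000)))) (a (b (l 18107104) (l 2)) (a (l 18046168) (a (l 18059736) (l 18186280)))))), by decide +kernel⟩

theorem c_pp_012_b : CertN 0 536870912 1239849684 370763052 67108864 67108864 3 false true true .pnp 0 1 2
    ndN4q0 ndN2q2b pcN1 Cut.none Ext.none :=
  certNK2 (fam := false) (s1 := true) (s2 := true) (a := 0) (b := 1) (c := 2) (cn := .pnp) (n1 := ndN4q0) (n2 := ndN2q2b) (pc := pcN1) (cut := Cut.none) (xt := Ext.none) (P1 := 0) (W1 := 536870912) (P2 := 1239849684) (W2 := 370763052) (P3 := 67108864) (W3 := 67108864) (N0 := 3)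
    rfl rfl rfl (fun _ => rfl) k0_pp_012_b

noncomputable def f_pp_022_a : ℕ → ℕ → ℕ → ℕ → Bool := onCell 0 536870912 0 536870912 67108864 67108864
    (rowNK 3 0 false true true .pp 0 2 2 (qsf 0 536870912 0 536870912 2) ndN4q0 ndN2q2a pcN2 Cut.none Ext.none)

def k0_pp_022_a : ∃ t, chk3 f_pp_022_a t 1 1 1 = true :=
  ⟨(a (b (l 19387184) (b (l 19546840) (b (l 19701512) (l 19862512)))) (l 1)), by decide +kernel⟩

theorem c_pp_022_a : CertN 0 536870912 0 536870912 67108864 67108864 3 false true true .pp 0 2 2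
    ndN4q0 ndN2q2a pcN2 Cut.none Ext.none :=
  certNK0 (fam := false) (s1 := true) (s2 := true) (a := 0) (b := 2) (c := 2) (cn := .pp) (n1 := ndN4q0) (n2 := ndN2q2a) (pc := pcN2) (cut := Cut.none) (xt := Ext.none) (P1 := 0) (W1 := 536870912) (P2 := 0) (W2 := 536870912) (P3 := 67108864) (W3 := 67108864) (N0 := 3)
    rfl rfl rfl k0_pp_022_a

noncomputable def f_pp_022_b : ℕ → ℕ → ℕ → ℕ → Bool := onCell 1073741824 536870912 1239849684 370763052 67108864 67108864
    (rowNK 3 2 false true true .pp 0 2 2 (qsf 0 536870912 1239849684 370763052 2) ndN4q0 ndN2q2b pcN2 Cut.none Ext.none)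

def k0_pp_022_b : ∃ t, chk3 f_pp_022_b t 1 1 1 = true :=
  ⟨(a (b (a (l 18923696) (l 18764160)) (a (l 18403760) (l 18339144))) (a (b (l 18350104) (l 18132056)) (b (l 1) (l 4)))), by decide +kernel⟩

theorem c_pp_022_b : CertN 0 536870912 1239849684 370763052 67108864 67108864 3 false true true .pp 0 2 2
    ndN4q0 ndN2q2b pcN2 Cut.none Ext.none :=
  certNK2 (fam := false) (s1 := true) (s2 := true) (a := 0) (b := 2) (c := 2) (cn := .pp) (n1 := ndN4q0) (n2 := ndN2q2b) (pc := pcN2) (cut := Cut.none) (xt := Ext.none) (P1 := 0) (W1 := 536870912) (P2 := 1239849684) (W2 := 370763052) (P3 := 67108864) (W3 := 67108864) (N0 := 3)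
    rfl rfl rfl (fun _ => rfl) k0_pp_022_b

noncomputable def f_pp_023 : ℕ → ℕ → ℕ → ℕ → Bool := onCell 0 536870912 1073741824 536870912 67108864 67108864
    (rowNK 3 1 false true true .up 0 2 3 (qsf 0 536870912 1610612736 536870912 2) ndN4q0 ndN2q3 pcN2 Cut.none Ext.none)

def k0_pp_023 : ∃ t, chk3 f_pp_023 t 1 1 1 = true :=
  ⟨(b (a (l 485371457623) (b (l 19587856) (l 555163127255))) (a (b (l 19690768) (l 4)) (b (a (l 18646360) (l 17858000)) (l 4)))), by decide +kernel⟩

theorem c_pp_023 : CertN 0 536870912 1610612736 536870912 67108864 67108864 3 false true true .up 0 2 3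
    ndN4q0 ndN2q3 pcN2 Cut.none Ext.none :=
  certNK1 (fam := false) (s1 := true) (s2 := true) (a := 0) (b := 2) (c := 3) (cn := .up) (n1 := ndN4q0) (n2 := ndN2q3) (pc := pcN2) (cut := Cut.none) (xt := Ext.none) (P1 := 0) (W1 := 536870912) (P2 := 1610612736) (W2 := 536870912) (P3 := 67108864) (W3 := 67108864) (N0 := 3)
    rfl rfl rfl (fun _ => rfl) k0_pp_023

noncomputable def f_pp_033 : ℕ → ℕ → ℕ → ℕ → Bool := onCell 1610612736 536870912 1610612736 536870912 67108864 67108864
    (rowNK 3 2 false true true .pnn 0 3 3 (qsf 0 536870912 1610612736 536870912 3) ndN4q0 ndN2q3 pcN3 Cut.none Ext.none)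

def k0_pp_033 : ∃ t, chk3 f_pp_033 t 1 1 1 = true :=
  ⟨(l 4), by decide +kernel⟩

theorem c_pp_033 : CertN 0 536870912 1610612736 536870912 67108864 67108864 3 false true true .pnn 0 3 3
    ndN4q0 ndN2q3 pcN3 Cut.none Ext.none :=
  certNK2 (fam := false) (s1 := true) (s2 := true) (a := 0) (b := 3) (c := 3) (cn := .pnn) (n1 := ndN4q0) (n2 := ndN2q3) (pc := pcN3) (cut := Cut.none) (xt := Ext.none) (P1 := 0) (W1 := 536870912) (P2 := 1610612736) (W2 := 536870912) (P3 := 67108864) (W3 := 67108864) (N0 := 3)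
    rfl rfl rfl (fun _ => rfl) k0_pp_033

noncomputable def f_pp_101 : ℕ → ℕ → ℕ → ℕ → Bool := onCell 536870912 536870912 536870912 536870912 67108864 67108864
    (rowNK 3 0 false true true .npn 1 0 1 (qsf 536870912 536870912 536870912 536870912 0) ndN4q1 ndN2q1 pcN0 Cut.none Ext.none)

def k0_pp_101 : ∃ t, chk3 f_pp_101 t 1 1 1 = true :=
  ⟨(l 3), by decide +kernel⟩

theorem c_pp_101 : CertN 536870912 536870912 536870912 536870912 67108864 67108864 3 false true true .npn 1 0 1
    ndN4q1 ndN2q1 pcN0 Cut.none Ext.none :=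
  certNK0 (fam := false) (s1 := true) (s2 := true) (a := 1) (b := 0) (c := 1) (cn := .npn) (n1 := ndN4q1) (n2 := ndN2q1) (pc := pcN0) (cut := Cut.none) (xt := Ext.none) (P1 := 536870912) (W1 := 536870912) (P2 := 536870912) (W2 := 536870912) (P3 := 67108864) (W3 := 67108864) (N0 := 3)
    rfl rfl rfl k0_pp_101

noncomputable def cut_pp_102_a : Cut := Cut.of [[⟨0, 1, 0, 67108864⟩, ⟨1, 0, 0, 67108864⟩, ⟨2, 1, 0, 67108864⟩]]

noncomputable def f_pp_102_a : ℕ → ℕ → ℕ → ℕ → Bool := onCell 536870912 536870912 0 536870912 67108864 67108864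
    (rowNK 3 0 false true true .npp 1 0 2 (qsf 536870912 536870912 0 536870912 0) ndN4q1 ndN2q2a pcN0 cut_pp_102_a Ext.none)

def k0_pp_102_a : ∃ t, chk3 f_pp_102_a t 1 1 1 = true :=
  ⟨(a (b (a (l 18746264) (l 18877648)) (b (a (l 18723048) (l 18758304)) (b (a (l 18667296) (l 18590184)) (a (l 18602280) (l 18401712))))) (b (a (b (l 18992944) (l 18932696)) (a (b (l 19069472) (l 18936184)) (a (b (l 19052128) (b (l 18927144) (l 18735560))) (a (b (l 18978192) (b (l 18802048) (l 18536792))) (b (l 18873192) (c (b (l 19235512) (l 18956424)) (b (l 18046304) (b (l 17763480) (l 17492288))))))))) (b (a (a (l 18720640) (l 18725936)) (a (b (l 18679792) (a (l 18437240) (l 18253392))) (a (a (b (l 18483704) (l 17745824)) (b (l 18326376) (b (l 17906672) (l 17504688)))) (b (b (a (l 18223648) (c (l 18614784) (l 16963056))) (a (l 17714736) (c (a (l 18367808) (l 18084832)) (l 16641552)))) (a (b (a (l 17636360) (l 17392712)) (l 16759440)) (b (a (l 17014024) (l 16640264)) (a (l 16651416)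 (b (l 16627904) (l 16636640))))))))) (a (b (a (l 18430216) (b (l 18356456) (l 18155200))) (a (l 18097640) (b (l 17906072) (l 17581736)))) (b (a (a (b (l 18129784) (l 17846616)) (b (l 17835528) (b (l 17556792) (l 17336584)))) (b (a (a (l 17425664) (l 16960152)) (a (b (l 16685792) (l 16695248)) (b (a (l 16661784) (l 16646976)) (a (l 16672864) (a (l 16662464) (l 16655840)))))) (a (a (l 16877568) (b (l 16737448) (l 16747400))) (a (b (l 16706800) (a (l 16725760) (l 16712440))) (a (b (l 16686056) (l 16741944)) (b (a (l 16676472) (l 6)) (l 6))))))) (a (a (b (l 17490816) (l 17036000)) (b (l 16948296) (b (l 16853088) (l 16864864)))) (a (b (a (l 16791968) (b (l 16756880) (l 16771000))) (b (a (l 16811288) (l 16787032)) (a (l 16826880) (l 6)))) (b (a (a (l 16765968) (l 6)) (l 6)) (l 6))))))))), by decide +kernel⟩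

theorem c_pp_102_a : CertN 536870912 536870912 0 536870912 67108864 67108864 3 false true true .npp 1 0 2
    ndN4q1 ndN2q2a pcN0 cut_pp_102_a Ext.none :=
  certNK0 (fam := false) (s1 := true) (s2 := true) (a := 1) (b := 0) (c := 2) (cn := .npp) (n1 := ndN4q1) (n2 := ndN2q2a) (pc := pcN0) (cut := cut_pp_102_a) (xt := Ext.none) (P1 := 536870912) (W1 := 536870912) (P2 := 0) (W2 := 536870912) (P3 := 67108864) (W3 := 67108864) (N0 := 3)
    rfl rfl rfl k0_pp_102_a

noncomputable def cut_pp_102_b : Cut := Cut.of [[⟨0, 1, 0, 67108864⟩, ⟨1, 0, 0, 67108864⟩, ⟨2, 1, 0, 67108864⟩]]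

noncomputable def f_pp_102_b : ℕ → ℕ → ℕ → ℕ → Bool := onCell 536870912 536870912 1239849684 370763052 67108864 67108864
    (rowNK 3 0 false true true .npp 1 0 2 (qsf 536870912 536870912 1239849684 370763052 0) ndN4q1 ndN2q2b pcN0 cut_pp_102_b Ext.none)

def k0_pp_102_b : ∃ t, chk3 f_pp_102_b t 1 1 1 = true :=
  ⟨(a (b (a (l 2) (b (l 18838456) (l 18665392))) (l 2)) (b (a (b (l 19045832) (l 18978120)) (b (a (l 19256824) (b (a (l 19263472) (b (l 19140352) (l 19371800))) (l 19520976))) (a (l 19295024) (l 19598936)))) (a (b (l 18798048) (l 2)) (b (l 19269304) (l 19020744))))), by decide +kernel⟩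

theorem c_pp_102_b : CertN 536870912 536870912 1239849684 370763052 67108864 67108864 3 false true true .npp 1 0 2
    ndN4q1 ndN2q2b pcN0 cut_pp_102_b Ext.none :=
  certNK0 (fam := false) (s1 := true) (s2 := true) (a := 1) (b := 0) (c := 2) (cn := .npp) (n1 := ndN4q1) (n2 := ndN2q2b) (pc := pcN0) (cut := cut_pp_102_b) (xt := Ext.none) (P1 := 536870912) (W1 := 536870912) (P2 := 1239849684) (W2 := 370763052) (P3 := 67108864) (W3 := 67108864) (N0 := 3)
    rfl rfl rfl k0_pp_102_b

noncomputable def f_pp_112_a : ℕ → ℕ → ℕ → ℕ → Bool := onCell 536870912 536870912 0 536870912 67108864 67108864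
    (rowNK 3 2 false true true .dn 1 1 2 (qsf 536870912 536870912 0 536870912 1) ndN4q1 ndN2q2a pcN1 Cut.none Ext.none)

def k0_pp_112_a : ∃ t, chk3 f_pp_112_a t 1 1 1 = true :=
  ⟨(a (b (a (l 18284008) (l 18077528)) (b (a (l 18074936) (l 1)) (b (l 17988384) (l 17746432)))) (l 1)), by decide +kernel⟩

theorem c_pp_112_a : CertN 536870912 536870912 0 536870912 67108864 67108864 3 false true true .dn 1 1 2
    ndN4q1 ndN2q2a pcN1 Cut.none Ext.none :=
  certNK2 (fam := false) (s1 := true) (s2 := true) (a := 1) (b := 1) (c := 2) (cn := .dn) (n1 := ndN4q1) (n2 := ndN2q2a) (pc := pcN1) (cut := Cut.none) (xt := Ext.none) (P1 := 536870912) (W1 := 536870912) (P2 := 0) (W2 := 536870912) (P3 := 67108864) (W3 := 67108864) (N0 := 3)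
    rfl rfl rfl (fun _ => rfl) k0_pp_112_a

noncomputable def f_pp_112_b : ℕ → ℕ → ℕ → ℕ → Bool := onCell 536870912 536870912 1239849684 370763052 67108864 67108864
    (rowNK 3 2 false true true .dn 1 1 2 (qsf 536870912 536870912 1239849684 370763052 1) ndN4q1 ndN2q2b pcN1 Cut.none Ext.none)

def k0_pp_112_b : ∃ t, chk3 f_pp_112_b t 1 1 1 = true :=
  ⟨(a (a (b (l 18529000) (l 19099568)) (b (l 18171656) (l 18523192))) (a (b (l 18088904) (l 18094848)) (a (l 18135592) (a (l 18234160) (l 18319672))))), by decide +kernel⟩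

theorem c_pp_112_b : CertN 536870912 536870912 1239849684 370763052 67108864 67108864 3 false true true .dn 1 1 2
    ndN4q1 ndN2q2b pcN1 Cut.none Ext.none :=
  certNK2 (fam := false) (s1 := true) (s2 := true) (a := 1) (b := 1) (c := 2) (cn := .dn) (n1 := ndN4q1) (n2 := ndN2q2b) (pc := pcN1) (cut := Cut.none) (xt := Ext.none) (P1 := 536870912) (W1 := 536870912) (P2 := 1239849684) (W2 := 370763052) (P3 := 67108864) (W3 := 67108864) (N0 := 3)
    rfl rfl rfl (fun _ => rfl) k0_pp_112_b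

noncomputable def f_pp_113 : ℕ → ℕ → ℕ → ℕ → Bool := onCell 536870912 536870912 1610612736 536870912 67108864 67108864
    (rowNK 3 2 false true true .nn 1 1 3 (qsf 536870912 536870912 1610612736 536870912 1) ndN4q1 ndN2q3 pcN1 Cut.none Ext.none)

def k0_pp_113 : ∃ t, chk3 f_pp_113 t 1 1 1 = true :=
  ⟨(a (b (a (b (l 21009120) (l 21116008)) (l 20441008)) (a (l 2) (b (l 20304680) (l 2)))) (b (a (b (l 19775880) (l 19467464)) (a (l 19137264) (a (l 18986976) (l 18913256)))) (a (b (l 18983344) (l 18479672)) (a (l 17957296) (a (l 17503000) (l 17399320)))))), by decide +kernel⟩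

theorem c_pp_113 : CertN 536870912 536870912 1610612736 536870912 67108864 67108864 3 false true true .nn 1 1 3
    ndN4q1 ndN2q3 pcN1 Cut.none Ext.none :=
  certNK2 (fam := false) (s1 := true) (s2 := true) (a := 1) (b := 1) (c := 3) (cn := .nn) (n1 := ndN4q1) (n2 := ndN2q3) (pc := pcN1) (cut := Cut.none) (xt := Ext.none) (P1 := 536870912) (W1 := 536870912) (P2 := 1610612736) (W2 := 536870912) (P3 := 67108864) (W3 := 67108864) (N0 := 3)
    rfl rfl rfl (fun _ => rfl) k0_pp_113

noncomputable def f_pp_123 : ℕ → ℕ → ℕ → ℕ → Bool := onCell 1073741824 536870912 1610612736 536870912 67108864 67108864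
    (rowNK 3 2 false true true .npn 1 2 3 (qsf 536870912 536870912 1610612736 536870912 2) ndN4q1 ndN2q3 pcN2 Cut.none Ext.none)

def k0_pp_123 : ∃ t, chk3 f_pp_123 t 1 1 1 = true :=
  ⟨(a (b (b (l 19087288) (l 18389368)) (b (l 17729472) (a (l 16977952) (l 4)))) (b (a (l 18642264) (l 1)) (l 4))), by decide +kernel⟩

theorem c_pp_123 : CertN 536870912 536870912 1610612736 536870912 67108864 67108864 3 false true true .npn 1 2 3
    ndN4q1 ndN2q3 pcN2 Cut.none Ext.none :=
  certNK2 (fam := false) (s1 := true) (s2 := true) (a := 1) (b := 2) (c := 3) (cn := .npn) (n1 := ndN4q1) (n2 := ndN2q3) (pc := pcN2) (cut := Cut.none) (xt := Ext.none) (P1 := 536870912) (W1 := 536870912) (P2 := 1610612736) (W2 := 536870912) (P3 := 67108864) (W3 := 67108864) (N0 := 3)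
    rfl rfl rfl (fun _ => rfl) k0_pp_123

noncomputable def f_pp_133 : ℕ → ℕ → ℕ → ℕ → Bool := onCell 1610612736 536870912 1610612736 536870912 67108864 67108864
    (rowNK 3 2 false true true .dn 1 3 3 (qsf 536870912 536870912 1610612736 536870912 3) ndN4q1 ndN2q3 pcN3 Cut.none Ext.none)

def k0_pp_133 : ∃ t, chk3 f_pp_133 t 1 1 1 = true :=
  ⟨(l 4), by decide +kernel⟩

theorem c_pp_133 : CertN 536870912 536870912 1610612736 536870912 67108864 67108864 3 false true true .dn 1 3 3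
    ndN4q1 ndN2q3 pcN3 Cut.none Ext.none :=
  certNK2 (fam := false) (s1 := true) (s2 := true) (a := 1) (b := 3) (c := 3) (cn := .dn) (n1 := ndN4q1) (n2 := ndN2q3) (pc := pcN3) (cut := Cut.none) (xt := Ext.none) (P1 := 536870912) (W1 := 536870912) (P2 := 1610612736) (W2 := 536870912) (P3 := 67108864) (W3 := 67108864) (N0 := 3)
    rfl rfl rfl (fun _ => rfl) k0_pp_133

noncomputable def cut_pp_202_a : Cut := Cut.of [[⟨0, 1, 0, 67108864⟩, ⟨1, 0, 0, 67108864⟩, ⟨2, 1, 0, 67108864⟩]]

noncomputable def f_pp_202_a : ℕ → ℕ → ℕ → ℕ → Bool := onCell 1073741824 536870912 0 536870912 67108864 67108864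
    (rowNK 3 0 false true true .pp 2 0 2 (qsf 1073741824 536870912 0 536870912 0) ndN4q2 ndN2q2a pcN0 cut_pp_202_a Ext.none)

def k0_pp_202_a : ∃ t, chk3 f_pp_202_a t 1 1 1 = true :=
  ⟨(a (a (a (b (b (a (c (l 19263840) (a (l 18140528) (l 134387520919))) (l 3)) (a (b (c (l 19052592) (a (l 17708536) (a (l 17529912) (l 523081383719)))) (a (c (l 18788496) (b (l 17484944) (l 16978736))) (a (c (l 18614208) (b (l 17332920) (l 122574937559))) (l 3)))) (l 3))) (a (a (b (b (c (b (c (l 18794832) (l 17976184)) (c (l 18288408) (a (l 17553456) (b (l 17629872) (l 17178560))))) (b (l 16593464) (a (l 16581128) (l 115594656199)))) (b (a (l 16629640) (b (l 118279009943) (l 116668392231))) (b (a (l 16629304) (l 118279049655)) (a (a (l 16623528) (l 16633784)) (l 202030939095))))) (b (b (a (b (a (l 16655568) (l 112910402407)) (b (a (l 16642720) (l 116131626119)) (l 6))) (l 3)) (l 6)) (l 6))) (b (b (b (c (l 836615647799) (a (l 221358231639) (l 3))) (l 3)) (l 3)) (l 3))) (l 3)))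 (l 3)) (l 3)) (l 1)), by decide +kernel⟩

theorem c_pp_202_a : CertN 1073741824 536870912 0 536870912 67108864 67108864 3 false true true .pp 2 0 2
    ndN4q2 ndN2q2a pcN0 cut_pp_202_a Ext.none :=
  certNK0 (fam := false) (s1 := true) (s2 := true) (a := 2) (b := 0) (c := 2) (cn := .pp) (n1 := ndN4q2) (n2 := ndN2q2a) (pc := pcN0) (cut := cut_pp_202_a) (xt := Ext.none) (P1 := 1073741824) (W1 := 536870912) (P2 := 0) (W2 := 536870912) (P3 := 67108864) (W3 := 67108864) (N0 := 3)
    rfl rfl rfl k0_pp_202_a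

noncomputable def cut_pp_202_b : Cut := Cut.of [[⟨0, 1, 0, 67108864⟩, ⟨1, 0, 0, 67108864⟩, ⟨2, 1, 0, 67108864⟩]]

noncomputable def f_pp_202_b : ℕ → ℕ → ℕ → ℕ → Bool := onCell 1073741824 536870912 1239849684 370763052 67108864 67108864
    (rowNK 3 0 false true true .pp 2 0 2 (qsf 1073741824 536870912 1239849684 370763052 0) ndN4q2 ndN2q2b pcN0 cut_pp_202_b Ext.none)

def k0_pp_202_b : ∃ t, chk3 f_pp_202_b t 1 1 1 = true :=
  ⟨(a (b (a (b (a (b (a (c (l 19604848) (b (l 143515103687) (l 18817280))) (c (l 826953727463) (b (l 707766580679) (l 18617016)))) (a (l 19551840) (l 19400456))) (b (l 3) (a (l 731927268791) (l 3)))) (a (l 19702040) (b (l 203647396983) (l 19575264)))) (l 3)) (a (b (a (l 19607744) (l 19562760)) (l 19330360)) (b (a (l 19481320) (l 3)) (a (l 19365912) (l 19346952))))) (l 3)), by decide +kernel⟩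

theorem c_pp_202_b : CertN 1073741824 536870912 1239849684 370763052 67108864 67108864 3 false true true .pp 2 0 2
    ndN4q2 ndN2q2b pcN0 cut_pp_202_b Ext.none :=
  certNK0 (fam := false) (s1 := true) (s2 := true) (a := 2) (b := 0) (c := 2) (cn := .pp) (n1 := ndN4q2) (n2 := ndN2q2b) (pc := pcN0) (cut := cut_pp_202_b) (xt := Ext.none) (P1 := 1073741824) (W1 := 536870912) (P2 := 1239849684) (W2 := 370763052) (P3 := 67108864) (W3 := 67108864) (N0 := 3)
    rfl rfl rfl k0_pp_202_b

noncomputable def f_pp_203 : ℕ → ℕ → ℕ → ℕ → Bool := onCell 1073741824 536870912 0 536870912 67108864 67108864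
    (rowNK 3 1 false true true .up 2 0 3 (qsf 1073741824 536870912 1610612736 536870912 0) ndN4q2 ndN2q3 pcN0 Cut.none Ext.none)

def k0_pp_203 : ∃ t, chk3 f_pp_203 t 1 1 1 = true :=
  ⟨(b (a (b (l 1) (a (l 1) (l 424167108903))) (a (l 3) (l 3))) (a (b (a (l 501478434471) (l 520804477319)) (a (l 20120144) (l 19179248))) (b (a (l 19010824) (l 18593936)) (a (l 18421280) (l 17847800))))), by decide +kernel⟩

theorem c_pp_203 : CertN 1073741824 536870912 1610612736 536870912 67108864 67108864 3 false true true .up 2 0 3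
    ndN4q2 ndN2q3 pcN0 Cut.none Ext.none :=
  certNK1 (fam := false) (s1 := true) (s2 := true) (a := 2) (b := 0) (c := 3) (cn := .up) (n1 := ndN4q2) (n2 := ndN2q3) (pc := pcN0) (cut := Cut.none) (xt := Ext.none) (P1 := 1073741824) (W1 := 536870912) (P2 := 1610612736) (W2 := 536870912) (P3 := 67108864) (W3 := 67108864) (N0 := 3)
    rfl rfl rfl (fun _ => rfl) k0_pp_203

noncomputable def f_pp_213 : ℕ → ℕ → ℕ → ℕ → Bool := onCell 536870912 536870912 1610612736 536870912 67108864 67108864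
    (rowNK 3 2 false true true .pnn 2 1 3 (qsf 1073741824 536870912 1610612736 536870912 1) ndN4q2 ndN2q3 pcN1 Cut.none Ext.none)

def k0_pp_213 : ∃ t, chk3 f_pp_213 t 1 1 1 = true :=
  ⟨(a (b (a (b (l 21019768) (l 19978824)) (b (l 21739264) (l 20432808))) (a (b (l 19166896) (l 18660208)) (b (l 19398216) (l 18663920)))) (b (a (b (l 1) (l 20382680)) (l 1)) (a (a (l 18666832) (l 711390832423)) (a (b (l 18502624) (l 17328216)) (a (l 684546299847) (l 17633512)))))), by decide +kernel⟩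

theorem c_pp_213 : CertN 1073741824 536870912 1610612736 536870912 67108864 67108864 3 false true true .pnn 2 1 3
    ndN4q2 ndN2q3 pcN1 Cut.none Ext.none :=
  certNK2 (fam := false) (s1 := true) (s2 := true) (a := 2) (b := 1) (c := 3) (cn := .pnn) (n1 := ndN4q2) (n2 := ndN2q3) (pc := pcN1) (cut := Cut.none) (xt := Ext.none) (P1 := 1073741824) (W1 := 536870912) (P2 := 1610612736) (W2 := 536870912) (P3 := 67108864) (W3 := 67108864) (N0 := 3)
    rfl rfl rfl (fun _ => rfl) k0_pp_213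

noncomputable def f_pp_303 : ℕ → ℕ → ℕ → ℕ → Bool := onCell 0 1230186008 1610612736 536870912 67108864 67108864
    (rowNK 3 0 false true true .npn 3 0 3 (qsf 0 1230186008 1610612736 536870912 0) ndN4q3 ndN2q3 pcN0 Cut.none Ext.none)

def k0_pp_303 : ∃ t, chk3 f_pp_303 t 1 1 1 = true :=
  ⟨(a (l 3) (a (l 3) (b (l 3) (a (b (l 3) (l 372758347351)) (b (a (l 3) (l 370611445431)) (a (l 17615616) (l 17626648))))))), by decide +kernel⟩

theorem c_pp_303 : CertN 0 1230186008 1610612736 536870912 67108864 67108864 3 false true true .npn 3 0 3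
    ndN4q3 ndN2q3 pcN0 Cut.none Ext.none :=
  certNK0 (fam := false) (s1 := true) (s2 := true) (a := 3) (b := 0) (c := 3) (cn := .npn) (n1 := ndN4q3) (n2 := ndN2q3) (pc := pcN0) (cut := Cut.none) (xt := Ext.none) (P1 := 0) (W1 := 1230186008) (P2 := 1610612736) (W2 := 536870912) (P3 := 67108864) (W3 := 67108864) (N0 := 3)
    rfl rfl rfl k0_pp_303

noncomputable def f_pp_313 : ℕ → ℕ → ℕ → ℕ → Bool := onCell 0 1230186008 1610612736 536870912 67108864 67108864
    (rowNK 3 0 false true true .dn 3 1 3 (qsf 0 1230186008 1610612736 536870912 1) ndN4q3 ndN2q3 pcN1 Cut.none Ext.none)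

def k0_pp_313 : ∃ t, chk3 f_pp_313 t 1 1 1 = true :=
  ⟨(a (l 1) (a (l 1) (b (l 1) (a (l 1) (b (l 1) (a (l 1) (l 18144880))))))), by decide +kernel⟩

theorem c_pp_313 : CertN 0 1230186008 1610612736 536870912 67108864 67108864 3 false true true .dn 3 1 3
    ndN4q3 ndN2q3 pcN1 Cut.none Ext.none :=
  certNK0 (fam := false) (s1 := true) (s2 := true) (a := 3) (b := 1) (c := 3) (cn := .dn) (n1 := ndN4q3) (n2 := ndN2q3) (pc := pcN1) (cut := Cut.none) (xt := Ext.none) (P1 := 0) (W1 := 1230186008) (P2 := 1610612736) (W2 := 536870912) (P3 := 67108864) (W3 := 67108864) (N0 := 3)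
    rfl rfl rfl k0_pp_313

noncomputable def f_pm_001 : ℕ → ℕ → ℕ → ℕ → Bool := onCell 0 536870912 536870912 536870912 67108864 67108864
    (rowNK 3 0 false true false .up 0 0 1 (qsf 0 536870912 536870912 536870912 0) ndN4q0 ndN2q1 pcN0 Cut.none Ext.none)

def k0_pm_001 : ∃ t, chk3 f_pm_001 t 1 1 1 = true :=
  ⟨(l 4), by decide +kernel⟩

theorem c_pm_001 : CertN 0 536870912 536870912 536870912 67108864 67108864 3 false true false .up 0 0 1
    ndN4q0 ndN2q1 pcN0 Cut.none Ext.none :=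
  certNK0 (fam := false) (s1 := true) (s2 := false) (a := 0) (b := 0) (c := 1) (cn := .up) (n1 := ndN4q0) (n2 := ndN2q1) (pc := pcN0) (cut := Cut.none) (xt := Ext.none) (P1 := 0) (W1 := 536870912) (P2 := 536870912) (W2 := 536870912) (P3 := 67108864) (W3 := 67108864) (N0 := 3)
    rfl rfl rfl k0_pm_001

noncomputable def f_pm_011 : ℕ → ℕ → ℕ → ℕ → Bool := onCell 0 536870912 536870912 536870912 67108864 67108864
    (rowNK 3 0 false true false .pnn 0 1 1 (qsf 0 536870912 536870912 536870912 1) ndN4q0 ndN2q1 pcN1 Cut.none Ext.none)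

def k0_pm_011 : ∃ t, chk3 f_pm_011 t 1 1 1 = true :=
  ⟨(l 4), by decide +kernel⟩

theorem c_pm_011 : CertN 0 536870912 536870912 536870912 67108864 67108864 3 false true false .pnn 0 1 1
    ndN4q0 ndN2q1 pcN1 Cut.none Ext.none :=
  certNK0 (fam := false) (s1 := true) (s2 := false) (a := 0) (b := 1) (c := 1) (cn := .pnn) (n1 := ndN4q0) (n2 := ndN2q1) (pc := pcN1) (cut := Cut.none) (xt := Ext.none) (P1 := 0) (W1 := 536870912) (P2 := 536870912) (W2 := 536870912) (P3 := 67108864) (W3 := 67108864) (N0 := 3)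
    rfl rfl rfl k0_pm_011

noncomputable def f_pm_012_a : ℕ → ℕ → ℕ → ℕ → Bool := onCell 0 536870912 0 536870912 67108864 67108864
    (rowNK 3 0 false true false .pnp 0 1 2 (qsf 0 536870912 0 536870912 1) ndN4q0 ndN2q2a pcN1 Cut.none Ext.none)

def k0_pm_012_a : ∃ t, chk3 f_pm_012_a t 1 1 1 = true :=
  ⟨(l 4), by decide +kernel⟩

theorem c_pm_012_a : CertN 0 536870912 0 536870912 67108864 67108864 3 false true false .pnp 0 1 2
    ndN4q0 ndN2q2a pcN1 Cut.none Ext.none :=
  certNK0 (fam := false) (s1 := true) (s2 := false) (a := 0) (b := 1) (c := 2) (cn := .pnp) (n1 := ndN4q0) (n2 := ndN2q2a) (pc := pcN1) (cut := Cut.none) (xt := Ext.none) (P1 := 0) (W1 := 536870912) (P2 := 0) (W2 := 536870912) (P3 := 67108864) (W3 := 67108864) (N0 := 3)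
    rfl rfl rfl k0_pm_012_a

noncomputable def f_pm_012_b : ℕ → ℕ → ℕ → ℕ → Bool := onCell 0 536870912 1239849684 370763052 67108864 67108864
    (rowNK 3 0 false true false .pnp 0 1 2 (qsf 0 536870912 1239849684 370763052 1) ndN4q0 ndN2q2b pcN1 Cut.none Ext.none)

def k0_pm_012_b : ∃ t, chk3 f_pm_012_b t 1 1 1 = true :=
  ⟨(l 4), by decide +kernel⟩

theorem c_pm_012_b : CertN 0 536870912 1239849684 370763052 67108864 67108864 3 false true false .pnp 0 1 2
    ndN4q0 ndN2q2b pcN1 Cut.none Ext.none :=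
  certNK0 (fam := false) (s1 := true) (s2 := false) (a := 0) (b := 1) (c := 2) (cn := .pnp) (n1 := ndN4q0) (n2 := ndN2q2b) (pc := pcN1) (cut := Cut.none) (xt := Ext.none) (P1 := 0) (W1 := 536870912) (P2 := 1239849684) (W2 := 370763052) (P3 := 67108864) (W3 := 67108864) (N0 := 3)
    rfl rfl rfl k0_pm_012_b

noncomputable def f_pm_022_a : ℕ → ℕ → ℕ → ℕ → Bool := onCell 0 536870912 0 536870912 67108864 67108864
    (rowNK 3 0 false true false .pp 0 2 2 (qsf 0 536870912 0 536870912 2) ndN4q0 ndN2q2a pcN2 Cut.none Ext.none)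

def k0_pm_022_a : ∃ t, chk3 f_pm_022_a t 1 1 1 = true :=
  ⟨(l 4), by decide +kernel⟩

theorem c_pm_022_a : CertN 0 536870912 0 536870912 67108864 67108864 3 false true false .pp 0 2 2
    ndN4q0 ndN2q2a pcN2 Cut.none Ext.none :=
  certNK0 (fam := false) (s1 := true) (s2 := false) (a := 0) (b := 2) (c := 2) (cn := .pp) (n1 := ndN4q0) (n2 := ndN2q2a) (pc := pcN2) (cut := Cut.none) (xt := Ext.none) (P1 := 0) (W1 := 536870912) (P2 := 0) (W2 := 536870912) (P3 := 67108864) (W3 := 67108864) (N0 := 3)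
    rfl rfl rfl k0_pm_022_a

noncomputable def f_pm_022_b : ℕ → ℕ → ℕ → ℕ → Bool := onCell 0 536870912 1239849684 370763052 67108864 67108864
    (rowNK 3 0 false true false .pp 0 2 2 (qsf 0 536870912 1239849684 370763052 2) ndN4q0 ndN2q2b pcN2 Cut.none Ext.none)

def k0_pm_022_b : ∃ t, chk3 f_pm_022_b t 1 1 1 = true :=
  ⟨(l 4), by decide +kernel⟩

theorem c_pm_022_b : CertN 0 536870912 1239849684 370763052 67108864 67108864 3 false true false .pp 0 2 2
    ndN4q0 ndN2q2b pcN2 Cut.none Ext.none :=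
  certNK0 (fam := false) (s1 := true) (s2 := false) (a := 0) (b := 2) (c := 2) (cn := .pp) (n1 := ndN4q0) (n2 := ndN2q2b) (pc := pcN2) (cut := Cut.none) (xt := Ext.none) (P1 := 0) (W1 := 536870912) (P2 := 1239849684) (W2 := 370763052) (P3 := 67108864) (W3 := 67108864) (N0 := 3)
    rfl rfl rfl k0_pm_022_b

noncomputable def f_pm_023 : ℕ → ℕ → ℕ → ℕ → Bool := onCell 0 536870912 1610612736 536870912 67108864 67108864
    (rowNK 3 0 false true false .up 0 2 3 (qsf 0 536870912 1610612736 536870912 2) ndN4q0 ndN2q3 pcN2 Cut.none Ext.none)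

def k0_pm_023 : ∃ t, chk3 f_pm_023 t 1 1 1 = true :=
  ⟨(l 4), by decide +kernel⟩

theorem c_pm_023 : CertN 0 536870912 1610612736 536870912 67108864 67108864 3 false true false .up 0 2 3
    ndN4q0 ndN2q3 pcN2 Cut.none Ext.none :=
  certNK0 (fam := false) (s1 := true) (s2 := false) (a := 0) (b := 2) (c := 3) (cn := .up) (n1 := ndN4q0) (n2 := ndN2q3) (pc := pcN2) (cut := Cut.none) (xt := Ext.none) (P1 := 0) (W1 := 536870912) (P2 := 1610612736) (W2 := 536870912) (P3 := 67108864) (W3 := 67108864) (N0 := 3)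
    rfl rfl rfl k0_pm_023

noncomputable def f_pm_033 : ℕ → ℕ → ℕ → ℕ → Bool := onCell 0 536870912 1610612736 536870912 67108864 67108864
    (rowNK 3 0 false true false .pnn 0 3 3 (qsf 0 536870912 1610612736 536870912 3) ndN4q0 ndN2q3 pcN3 Cut.none Ext.none)

def k0_pm_033 : ∃ t, chk3 f_pm_033 t 1 1 1 = true :=
  ⟨(l 4), by decide +kernel⟩

theorem c_pm_033 : CertN 0 536870912 1610612736 536870912 67108864 67108864 3 false true false .pnn 0 3 3
    ndN4q0 ndN2q3 pcN3 Cut.none Ext.none :=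
  certNK0 (fam := false) (s1 := true) (s2 := false) (a := 0) (b := 3) (c := 3) (cn := .pnn) (n1 := ndN4q0) (n2 := ndN2q3) (pc := pcN3) (cut := Cut.none) (xt := Ext.none) (P1 := 0) (W1 := 536870912) (P2 := 1610612736) (W2 := 536870912) (P3 := 67108864) (W3 := 67108864) (N0 := 3)
    rfl rfl rfl k0_pm_033

noncomputable def f_pm_101 : ℕ → ℕ → ℕ → ℕ → Bool := onCell 536870912 536870912 536870912 536870912 67108864 67108864
    (rowNK 3 0 false true false .npn 1 0 1 (qsf 536870912 536870912 536870912 536870912 0) ndN4q1 ndN2q1 pcN0 Cut.none Ext.none)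

def k0_pm_101 : ∃ t, chk3 f_pm_101 t 1 1 1 = true :=
  ⟨(l 4), by decide +kernel⟩

theorem c_pm_101 : CertN 536870912 536870912 536870912 536870912 67108864 67108864 3 false true false .npn 1 0 1
    ndN4q1 ndN2q1 pcN0 Cut.none Ext.none :=
  certNK0 (fam := false) (s1 := true) (s2 := false) (a := 1) (b := 0) (c := 1) (cn := .npn) (n1 := ndN4q1) (n2 := ndN2q1) (pc := pcN0) (cut := Cut.none) (xt := Ext.none) (P1 := 536870912) (W1 := 536870912) (P2 := 536870912) (W2 := 536870912) (P3 := 67108864) (W3 := 67108864) (N0 := 3)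
    rfl rfl rfl k0_pm_101

noncomputable def f_pm_102_a : ℕ → ℕ → ℕ → ℕ → Bool := onCell 536870912 536870912 0 536870912 67108864 67108864
    (rowNK 3 0 false true false .npp 1 0 2 (qsf 536870912 536870912 0 536870912 0) ndN4q1 ndN2q2a pcN0 Cut.none Ext.none)

def k0_pm_102_a : ∃ t, chk3 f_pm_102_a t 1 1 1 = true :=
  ⟨(l 4), by decide +kernel⟩

theorem c_pm_102_a : CertN 536870912 536870912 0 536870912 67108864 67108864 3 false true false .npp 1 0 2
    ndN4q1 ndN2q2a pcN0 Cut.none Ext.none :=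
  certNK0 (fam := false) (s1 := true) (s2 := false) (a := 1) (b := 0) (c := 2) (cn := .npp) (n1 := ndN4q1) (n2 := ndN2q2a) (pc := pcN0) (cut := Cut.none) (xt := Ext.none) (P1 := 536870912) (W1 := 536870912) (P2 := 0) (W2 := 536870912) (P3 := 67108864) (W3 := 67108864) (N0 := 3)
    rfl rfl rfl k0_pm_102_a

noncomputable def f_pm_102_b : ℕ → ℕ → ℕ → ℕ → Bool := onCell 536870912 536870912 1239849684 370763052 67108864 67108864
    (rowNK 3 0 false true false .npp 1 0 2 (qsf 536870912 536870912 1239849684 370763052 0) ndN4q1 ndN2q2b pcN0 Cut.none Ext.none)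

def k0_pm_102_b : ∃ t, chk3 f_pm_102_b t 1 1 1 = true :=
  ⟨(l 4), by decide +kernel⟩

theorem c_pm_102_b : CertN 536870912 536870912 1239849684 370763052 67108864 67108864 3 false true false .npp 1 0 2
    ndN4q1 ndN2q2b pcN0 Cut.none Ext.none :=
  certNK0 (fam := false) (s1 := true) (s2 := false) (a := 1) (b := 0) (c := 2) (cn := .npp) (n1 := ndN4q1) (n2 := ndN2q2b) (pc := pcN0) (cut := Cut.none) (xt := Ext.none) (P1 := 536870912) (W1 := 536870912) (P2 := 1239849684) (W2 := 370763052) (P3 := 67108864) (W3 := 67108864) (N0 := 3)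
    rfl rfl rfl k0_pm_102_b

noncomputable def f_pm_112_a : ℕ → ℕ → ℕ → ℕ → Bool := onCell 536870912 536870912 0 536870912 67108864 67108864
    (rowNK 3 0 false true false .dn 1 1 2 (qsf 536870912 536870912 0 536870912 1) ndN4q1 ndN2q2a pcN1 Cut.none Ext.none)

def k0_pm_112_a : ∃ t, chk3 f_pm_112_a t 1 1 1 = true :=
  ⟨(l 4), by decide +kernel⟩

theorem c_pm_112_a : CertN 536870912 536870912 0 536870912 67108864 67108864 3 false true false .dn 1 1 2
    ndN4q1 ndN2q2a pcN1 Cut.none Ext.none :=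
  certNK0 (fam := false) (s1 := true) (s2 := false) (a := 1) (b := 1) (c := 2) (cn := .dn) (n1 := ndN4q1) (n2 := ndN2q2a) (pc := pcN1) (cut := Cut.none) (xt := Ext.none) (P1 := 536870912) (W1 := 536870912) (P2 := 0) (W2 := 536870912) (P3 := 67108864) (W3 := 67108864) (N0 := 3)
    rfl rfl rfl k0_pm_112_a

noncomputable def f_pm_112_b : ℕ → ℕ → ℕ → ℕ → Bool := onCell 536870912 536870912 1239849684 370763052 67108864 67108864
    (rowNK 3 0 false true false .dn 1 1 2 (qsf 536870912 536870912 1239849684 370763052 1) ndN4q1 ndN2q2b pcN1 Cut.none Ext.none)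

def k0_pm_112_b : ∃ t, chk3 f_pm_112_b t 1 1 1 = true :=
  ⟨(l 4), by decide +kernel⟩

theorem c_pm_112_b : CertN 536870912 536870912 1239849684 370763052 67108864 67108864 3 false true false .dn 1 1 2
    ndN4q1 ndN2q2b pcN1 Cut.none Ext.none :=
  certNK0 (fam := false) (s1 := true) (s2 := false) (a := 1) (b := 1) (c := 2) (cn := .dn) (n1 := ndN4q1) (n2 := ndN2q2b) (pc := pcN1) (cut := Cut.none) (xt := Ext.none) (P1 := 536870912) (W1 := 536870912) (P2 := 1239849684) (W2 := 370763052) (P3 := 67108864) (W3 := 67108864) (N0 := 3)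
    rfl rfl rfl k0_pm_112_b

noncomputable def f_pm_113 : ℕ → ℕ → ℕ → ℕ → Bool := onCell 536870912 536870912 1610612736 536870912 67108864 67108864
    (rowNK 3 0 false true false .nn 1 1 3 (qsf 536870912 536870912 1610612736 536870912 1) ndN4q1 ndN2q3 pcN1 Cut.none Ext.none)

def k0_pm_113 : ∃ t, chk3 f_pm_113 t 1 1 1 = true :=
  ⟨(a (l 4) (b (l 4) (b (l 4) (b (l 4) (b (l 4) (l 16973032)))))), by decide +kernel⟩

theorem c_pm_113 : CertN 536870912 536870912 1610612736 536870912 67108864 67108864 3 false true false .nn 1 1 3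
    ndN4q1 ndN2q3 pcN1 Cut.none Ext.none :=
  certNK0 (fam := false) (s1 := true) (s2 := false) (a := 1) (b := 1) (c := 3) (cn := .nn) (n1 := ndN4q1) (n2 := ndN2q3) (pc := pcN1) (cut := Cut.none) (xt := Ext.none) (P1 := 536870912) (W1 := 536870912) (P2 := 1610612736) (W2 := 536870912) (P3 := 67108864) (W3 := 67108864) (N0 := 3)
    rfl rfl rfl k0_pm_113

noncomputable def f_pm_123 : ℕ → ℕ → ℕ → ℕ → Bool := onCell 1073741824 536870912 1610612736 536870912 67108864 67108864
    (rowNK 3 2 false true false .npn 1 2 3 (qsf 536870912 536870912 1610612736 536870912 2) ndN4q1 ndN2q3 pcN2 Cut.none Ext.none)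

def k0_pm_123 : ∃ t, chk3 f_pm_123 t 1 1 1 = true :=
  ⟨(a (a (b (l 4) (l 17280352)) (l 4)) (l 4)), by decide +kernel⟩

theorem c_pm_123 : CertN 536870912 536870912 1610612736 536870912 67108864 67108864 3 false true false .npn 1 2 3
    ndN4q1 ndN2q3 pcN2 Cut.none Ext.none :=
  certNK2 (fam := false) (s1 := true) (s2 := false) (a := 1) (b := 2) (c := 3) (cn := .npn) (n1 := ndN4q1) (n2 := ndN2q3) (pc := pcN2) (cut := Cut.none) (xt := Ext.none) (P1 := 536870912) (W1 := 536870912) (P2 := 1610612736) (W2 := 536870912) (P3 := 67108864) (W3 := 67108864) (N0 := 3)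
    rfl rfl rfl (fun _ => rfl) k0_pm_123

noncomputable def f_pm_133 : ℕ → ℕ → ℕ → ℕ → Bool := onCell 1610612736 536870912 1610612736 536870912 67108864 67108864
    (rowNK 3 2 false true false .dn 1 3 3 (qsf 536870912 536870912 1610612736 536870912 3) ndN4q1 ndN2q3 pcN3 Cut.none Ext.none)

def k0_pm_133 : ∃ t, chk3 f_pm_133 t 1 1 1 = true :=
  ⟨(l 4), by decide +kernel⟩

theorem c_pm_133 : CertN 536870912 536870912 1610612736 536870912 67108864 67108864 3 false true false .dn 1 3 3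
    ndN4q1 ndN2q3 pcN3 Cut.none Ext.none :=
  certNK2 (fam := false) (s1 := true) (s2 := false) (a := 1) (b := 3) (c := 3) (cn := .dn) (n1 := ndN4q1) (n2 := ndN2q3) (pc := pcN3) (cut := Cut.none) (xt := Ext.none) (P1 := 536870912) (W1 := 536870912) (P2 := 1610612736) (W2 := 536870912) (P3 := 67108864) (W3 := 67108864) (N0 := 3)
    rfl rfl rfl (fun _ => rfl) k0_pm_133

noncomputable def f_pm_202_a : ℕ → ℕ → ℕ → ℕ → Bool := onCell 0 536870912 0 536870912 67108864 67108864
    (rowNK 3 2 false true false .pp 2 0 2 (qsf 1073741824 536870912 0 536870912 0) ndN4q2 ndN2q2a pcN0 Cut.none Ext.none)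

def k0_pm_202_a : ∃ t, chk3 f_pm_202_a t 1 1 1 = true :=
  ⟨(l 4), by decide +kernel⟩

theorem c_pm_202_a : CertN 1073741824 536870912 0 536870912 67108864 67108864 3 false true false .pp 2 0 2
    ndN4q2 ndN2q2a pcN0 Cut.none Ext.none :=
  certNK2 (fam := false) (s1 := true) (s2 := false) (a := 2) (b := 0) (c := 2) (cn := .pp) (n1 := ndN4q2) (n2 := ndN2q2a) (pc := pcN0) (cut := Cut.none) (xt := Ext.none) (P1 := 1073741824) (W1 := 536870912) (P2 := 0) (W2 := 536870912) (P3 := 67108864) (W3 := 67108864) (N0 := 3)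
    rfl rfl rfl (fun _ => rfl) k0_pm_202_a

noncomputable def f_pm_202_b : ℕ → ℕ → ℕ → ℕ → Bool := onCell 0 536870912 1239849684 370763052 67108864 67108864
    (rowNK 3 2 false true false .pp 2 0 2 (qsf 1073741824 536870912 1239849684 370763052 0) ndN4q2 ndN2q2b pcN0 Cut.none Ext.none)

def k0_pm_202_b : ∃ t, chk3 f_pm_202_b t 1 1 1 = true :=
  ⟨(a (b (l 4) (a (l 18055712) (l 18554720))) (l 4)), by decide +kernel⟩

theorem c_pm_202_b : CertN 1073741824 536870912 1239849684 370763052 67108864 67108864 3 false true false .pp 2 0 2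
    ndN4q2 ndN2q2b pcN0 Cut.none Ext.none :=
  certNK2 (fam := false) (s1 := true) (s2 := false) (a := 2) (b := 0) (c := 2) (cn := .pp) (n1 := ndN4q2) (n2 := ndN2q2b) (pc := pcN0) (cut := Cut.none) (xt := Ext.none) (P1 := 1073741824) (W1 := 536870912) (P2 := 1239849684) (W2 := 370763052) (P3 := 67108864) (W3 := 67108864) (N0 := 3)
    rfl rfl rfl (fun _ => rfl) k0_pm_202_b

noncomputable def f_pm_203 : ℕ → ℕ → ℕ → ℕ → Bool := onCell 1073741824 536870912 0 536870912 67108864 67108864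
    (rowNK 3 1 false true false .up 2 0 3 (qsf 1073741824 536870912 1610612736 536870912 0) ndN4q2 ndN2q3 pcN0 Cut.none Ext.none)

def k0_pm_203 : ∃ t, chk3 f_pm_203 t 1 1 1 = true :=
  ⟨(b (a (l 4) (b (a (l 19929016) (l 19302568)) (a (l 19344800) (l 18564360)))) (a (a (l 4) (b (l 19404560) (l 18506416))) (b (a (l 18512032) (b (l 18077304) (l 17724696))) (a (b (l 18187408) (l 18055352)) (b (l 17723448) (a (l 17376216) (l 17140320))))))), by decide +kernel⟩

theorem c_pm_203 : CertN 1073741824 536870912 1610612736 536870912 67108864 67108864 3 false true false .up 2 0 3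
    ndN4q2 ndN2q3 pcN0 Cut.none Ext.none :=
  certNK1 (fam := false) (s1 := true) (s2 := false) (a := 2) (b := 0) (c := 3) (cn := .up) (n1 := ndN4q2) (n2 := ndN2q3) (pc := pcN0) (cut := Cut.none) (xt := Ext.none) (P1 := 1073741824) (W1 := 536870912) (P2 := 1610612736) (W2 := 536870912) (P3 := 67108864) (W3 := 67108864) (N0 := 3)
    rfl rfl rfl (fun _ => rfl) k0_pm_203

noncomputable def f_pm_213 : ℕ → ℕ → ℕ → ℕ → Bool := onCell 536870912 536870912 1610612736 536870912 67108864 67108864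
    (rowNK 3 2 false true false .pnn 2 1 3 (qsf 1073741824 536870912 1610612736 536870912 1) ndN4q2 ndN2q3 pcN1 Cut.none Ext.none)

def k0_pm_213 : ∃ t, chk3 f_pm_213 t 1 1 1 = true :=
  ⟨(a (b (b (l 4) (l 18399064)) (a (b (b (l 17741920) (a (l 17701704) (l 17679624))) (b (a (l 18635368) (l 18619704)) (l 18725224))) (b (a (l 17691136) (l 17555080)) (b (a (l 18322664) (l 17988736)) (a (l 18721176) (l 18056024)))))) (b (l 4) (b (l 17545760) (a (a (b (l 17310624) (l 17705992)) (l 17395456)) (a (l 17101128) (a (l 17078544) (l 17095632))))))), by decide +kernel⟩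

theorem c_pm_213 : CertN 1073741824 536870912 1610612736 536870912 67108864 67108864 3 false true false .pnn 2 1 3
    ndN4q2 ndN2q3 pcN1 Cut.none Ext.none :=
  certNK2 (fam := false) (s1 := true) (s2 := false) (a := 2) (b := 1) (c := 3) (cn := .pnn) (n1 := ndN4q2) (n2 := ndN2q3) (pc := pcN1) (cut := Cut.none) (xt := Ext.none) (P1 := 1073741824) (W1 := 536870912) (P2 := 1610612736) (W2 := 536870912) (P3 := 67108864) (W3 := 67108864) (N0 := 3)
    rfl rfl rfl (fun _ => rfl) k0_pm_213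

noncomputable def f_pm_303 : ℕ → ℕ → ℕ → ℕ → Bool := onCell 0 1230186008 1610612736 536870912 67108864 67108864
    (rowNK 3 0 false true false .npn 3 0 3 (qsf 0 1230186008 1610612736 536870912 0) ndN4q3 ndN2q3 pcN0 Cut.none Ext.none)

def k0_pm_303 : ∃ t, chk3 f_pm_303 t 1 1 1 = true :=
  ⟨(b (a (l 1) (a (a (l 1) (b (l 1) (b (l 1) (a (l 1) (l 18137280))))) (a (b (l 1) (b (a (b (l 1) (l 17677792)) (l 17857848)) (a (l 17916880) (l 17866120)))) (b (a (l 18429864) (l 18710424)) (a (b (l 18124088) (l 17858784)) (b (l 18332920) (l 18001272))))))) (a (l 3) (a (b (a (l 3) (b (b (l 18583056) (l 18776584)) (l 269143490999))) (a (l 3) (l 277732250791))) (a (b (b (l 18189504) (a (l 18062064) (l 17902072))) (a (l 17639360) (l 17373736))) (b (a (l 17716520) (b (l 17734608) (l 17274376))) (a (l 17304496) (l 17265224))))))), by decide +kernel⟩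

theorem c_pm_303 : CertN 0 1230186008 1610612736 536870912 67108864 67108864 3 false true false .npn 3 0 3
    ndN4q3 ndN2q3 pcN0 Cut.none Ext.none :=
  certNK0 (fam := false) (s1 := true) (s2 := false) (a := 3) (b := 0) (c := 3) (cn := .npn) (n1 := ndN4q3) (n2 := ndN2q3) (pc := pcN0) (cut := Cut.none) (xt := Ext.none) (P1 := 0) (W1 := 1230186008) (P2 := 1610612736) (W2 := 536870912) (P3 := 67108864) (W3 := 67108864) (N0 := 3)
    rfl rfl rfl k0_pm_303

noncomputable def f_pm_313 : ℕ → ℕ → ℕ → ℕ → Bool := onCell 0 1230186008 1610612736 536870912 67108864 67108864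
    (rowNK 3 0 false true false .dn 3 1 3 (qsf 0 1230186008 1610612736 536870912 1) ndN4q3 ndN2q3 pcN1 Cut.none Ext.none)

def k0_pm_313 : ∃ t, chk3 f_pm_313 t 1 1 1 = true :=
  ⟨(a (l 1) (a (l 1) (b (l 1) (a (l 1) (b (l 1) (a (l 1) (l 18447416))))))), by decide +kernel⟩

theorem c_pm_313 : CertN 0 1230186008 1610612736 536870912 67108864 67108864 3 false true false .dn 3 1 3
    ndN4q3 ndN2q3 pcN1 Cut.none Ext.none :=
  certNK0 (fam := false) (s1 := true) (s2 := false) (a := 3) (b := 1) (c := 3) (cn := .dn) (n1 := ndN4q3) (n2 := ndN2q3) (pc := pcN1) (cut := Cut.none) (xt := Ext.none) (P1 := 0) (W1 := 1230186008) (P2 := 1610612736) (W2 := 536870912) (P3 := 67108864) (W3 := 67108864) (N0 := 3)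
    rfl rfl rfl k0_pm_313

noncomputable def f_mm_001 : ℕ → ℕ → ℕ → ℕ → Bool := onCell 0 536870912 536870912 536870912 67108864 67108864
    (rowNK 3 0 false false false .up 0 0 1 (qsf 0 536870912 536870912 536870912 0) ndN4q0 ndN2q1 pcN0 Cut.none Ext.none)

def k0_mm_001 : ∃ t, chk3 f_mm_001 t 1 1 1 = true :=
  ⟨(l 3), by decide +kernel⟩

theorem c_mm_001 : CertN 0 536870912 536870912 536870912 67108864 67108864 3 false false false .up 0 0 1
    ndN4q0 ndN2q1 pcN0 Cut.none Ext.none :=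
  certNK0 (fam := false) (s1 := false) (s2 := false) (a := 0) (b := 0) (c := 1) (cn := .up) (n1 := ndN4q0) (n2 := ndN2q1) (pc := pcN0) (cut := Cut.none) (xt := Ext.none) (P1 := 0) (W1 := 536870912) (P2 := 536870912) (W2 := 536870912) (P3 := 67108864) (W3 := 67108864) (N0 := 3)
    rfl rfl rfl k0_mm_001

noncomputable def f_mm_011 : ℕ → ℕ → ℕ → ℕ → Bool := onCell 0 536870912 536870912 536870912 67108864 67108864
    (rowNK 3 0 false false false .pnn 0 1 1 (qsf 0 536870912 536870912 536870912 1) ndN4q0 ndN2q1 pcN1 Cut.none Ext.none)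

def k0_mm_011 : ∃ t, chk3 f_mm_011 t 1 1 1 = true :=
  ⟨(l 3), by decide +kernel⟩

theorem c_mm_011 : CertN 0 536870912 536870912 536870912 67108864 67108864 3 false false false .pnn 0 1 1
    ndN4q0 ndN2q1 pcN1 Cut.none Ext.none :=
  certNK0 (fam := false) (s1 := false) (s2 := false) (a := 0) (b := 1) (c := 1) (cn := .pnn) (n1 := ndN4q0) (n2 := ndN2q1) (pc := pcN1) (cut := Cut.none) (xt := Ext.none) (P1 := 0) (W1 := 536870912) (P2 := 536870912) (W2 := 536870912) (P3 := 67108864) (W3 := 67108864) (N0 := 3)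
    rfl rfl rfl k0_mm_011

noncomputable def f_mm_012_a : ℕ → ℕ → ℕ → ℕ → Bool := onCell 0 536870912 0 536870912 67108864 67108864
    (rowNK 3 0 false false false .pnp 0 1 2 (qsf 0 536870912 0 536870912 1) ndN4q0 ndN2q2a pcN1 Cut.none Ext.none)

def k0_mm_012_a : ∃ t, chk3 f_mm_012_a t 1 1 1 = true :=
  ⟨(l 5), by decide +kernel⟩

theorem c_mm_012_a : CertN 0 536870912 0 536870912 67108864 67108864 3 false false false .pnp 0 1 2
    ndN4q0 ndN2q2a pcN1 Cut.none Ext.none :=
  certNK0 (fam := false) (s1 := false) (s2 := false) (a := 0) (b := 1) (c := 2) (cn := .pnp) (n1 := ndN4q0) (n2 := ndN2q2a) (pc := pcN1) (cut := Cut.none) (xt := Ext.none) (P1 := 0) (W1 := 536870912) (P2 := 0) (W2 := 536870912) (P3 := 67108864) (W3 := 67108864) (N0 := 3)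
    rfl rfl rfl k0_mm_012_a

noncomputable def f_mm_012_b : ℕ → ℕ → ℕ → ℕ → Bool := onCell 0 536870912 1239849684 370763052 67108864 67108864
    (rowNK 3 0 false false false .pnp 0 1 2 (qsf 0 536870912 1239849684 370763052 1) ndN4q0 ndN2q2b pcN1 Cut.none Ext.none)

def k0_mm_012_b : ∃ t, chk3 f_mm_012_b t 1 1 1 = true :=
  ⟨(l 5), by decide +kernel⟩

theorem c_mm_012_b : CertN 0 536870912 1239849684 370763052 67108864 67108864 3 false false false .pnp 0 1 2
    ndN4q0 ndN2q2b pcN1 Cut.none Ext.none :=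
  certNK0 (fam := false) (s1 := false) (s2 := false) (a := 0) (b := 1) (c := 2) (cn := .pnp) (n1 := ndN4q0) (n2 := ndN2q2b) (pc := pcN1) (cut := Cut.none) (xt := Ext.none) (P1 := 0) (W1 := 536870912) (P2 := 1239849684) (W2 := 370763052) (P3 := 67108864) (W3 := 67108864) (N0 := 3)
    rfl rfl rfl k0_mm_012_b

noncomputable def f_mm_022_a : ℕ → ℕ → ℕ → ℕ → Bool := onCell 0 536870912 0 536870912 67108864 67108864
    (rowNK 3 0 false false false .pp 0 2 2 (qsf 0 536870912 0 536870912 2) ndN4q0 ndN2q2a pcN2 Cut.none Ext.none)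

def k0_mm_022_a : ∃ t, chk3 f_mm_022_a t 1 1 1 = true :=
  ⟨(l 5), by decide +kernel⟩

theorem c_mm_022_a : CertN 0 536870912 0 536870912 67108864 67108864 3 false false false .pp 0 2 2
    ndN4q0 ndN2q2a pcN2 Cut.none Ext.none :=
  certNK0 (fam := false) (s1 := false) (s2 := false) (a := 0) (b := 2) (c := 2) (cn := .pp) (n1 := ndN4q0) (n2 := ndN2q2a) (pc := pcN2) (cut := Cut.none) (xt := Ext.none) (P1 := 0) (W1 := 536870912) (P2 := 0) (W2 := 536870912) (P3 := 67108864) (W3 := 67108864) (N0 := 3)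
    rfl rfl rfl k0_mm_022_a

noncomputable def f_mm_022_b : ℕ → ℕ → ℕ → ℕ → Bool := onCell 0 536870912 1239849684 370763052 67108864 67108864
    (rowNK 3 0 false false false .pp 0 2 2 (qsf 0 536870912 1239849684 370763052 2) ndN4q0 ndN2q2b pcN2 Cut.none Ext.none)

def k0_mm_022_b : ∃ t, chk3 f_mm_022_b t 1 1 1 = true :=
  ⟨(l 5), by decide +kernel⟩

theorem c_mm_022_b : CertN 0 536870912 1239849684 370763052 67108864 67108864 3 false false false .pp 0 2 2
    ndN4q0 ndN2q2b pcN2 Cut.none Ext.none :=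
  certNK0 (fam := false) (s1 := false) (s2 := false) (a := 0) (b := 2) (c := 2) (cn := .pp) (n1 := ndN4q0) (n2 := ndN2q2b) (pc := pcN2) (cut := Cut.none) (xt := Ext.none) (P1 := 0) (W1 := 536870912) (P2 := 1239849684) (W2 := 370763052) (P3 := 67108864) (W3 := 67108864) (N0 := 3)
    rfl rfl rfl k0_mm_022_b

noncomputable def f_mm_023 : ℕ → ℕ → ℕ → ℕ → Bool := onCell 0 536870912 1610612736 536870912 67108864 67108864
    (rowNK 3 0 false false false .up 0 2 3 (qsf 0 536870912 1610612736 536870912 2) ndN4q0 ndN2q3 pcN2 Cut.none Ext.none)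

def k0_mm_023 : ∃ t, chk3 f_mm_023 t 1 1 1 = true :=
  ⟨(l 5), by decide +kernel⟩

theorem c_mm_023 : CertN 0 536870912 1610612736 536870912 67108864 67108864 3 false false false .up 0 2 3
    ndN4q0 ndN2q3 pcN2 Cut.none Ext.none :=
  certNK0 (fam := false) (s1 := false) (s2 := false) (a := 0) (b := 2) (c := 3) (cn := .up) (n1 := ndN4q0) (n2 := ndN2q3) (pc := pcN2) (cut := Cut.none) (xt := Ext.none) (P1 := 0) (W1 := 536870912) (P2 := 1610612736) (W2 := 536870912) (P3 := 67108864) (W3 := 67108864) (N0 := 3)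
    rfl rfl rfl k0_mm_023

noncomputable def f_mm_033 : ℕ → ℕ → ℕ → ℕ → Bool := onCell 0 536870912 1610612736 536870912 67108864 67108864
    (rowNK 3 0 false false false .pnn 0 3 3 (qsf 0 536870912 1610612736 536870912 3) ndN4q0 ndN2q3 pcN3 Cut.none Ext.none)

def k0_mm_033 : ∃ t, chk3 f_mm_033 t 1 1 1 = true :=
  ⟨(l 5), by decide +kernel⟩

theorem c_mm_033 : CertN 0 536870912 1610612736 536870912 67108864 67108864 3 false false false .pnn 0 3 3
    ndN4q0 ndN2q3 pcN3 Cut.none Ext.none :=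
  certNK0 (fam := false) (s1 := false) (s2 := false) (a := 0) (b := 3) (c := 3) (cn := .pnn) (n1 := ndN4q0) (n2 := ndN2q3) (pc := pcN3) (cut := Cut.none) (xt := Ext.none) (P1 := 0) (W1 := 536870912) (P2 := 1610612736) (W2 := 536870912) (P3 := 67108864) (W3 := 67108864) (N0 := 3)
    rfl rfl rfl k0_mm_033

noncomputable def f_mm_101 : ℕ → ℕ → ℕ → ℕ → Bool := onCell 536870912 536870912 536870912 536870912 67108864 67108864
    (rowNK 3 0 false false false .npn 1 0 1 (qsf 536870912 536870912 536870912 536870912 0) ndN4q1 ndN2q1 pcN0 Cut.none Ext.none)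

def k0_mm_101 : ∃ t, chk3 f_mm_101 t 1 1 1 = true :=
  ⟨(l 3), by decide +kernel⟩

theorem c_mm_101 : CertN 536870912 536870912 536870912 536870912 67108864 67108864 3 false false false .npn 1 0 1
    ndN4q1 ndN2q1 pcN0 Cut.none Ext.none :=
  certNK0 (fam := false) (s1 := false) (s2 := false) (a := 1) (b := 0) (c := 1) (cn := .npn) (n1 := ndN4q1) (n2 := ndN2q1) (pc := pcN0) (cut := Cut.none) (xt := Ext.none) (P1 := 536870912) (W1 := 536870912) (P2 := 536870912) (W2 := 536870912) (P3 := 67108864) (W3 := 67108864) (N0 := 3)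
    rfl rfl rfl k0_mm_101

noncomputable def f_mm_102_a : ℕ → ℕ → ℕ → ℕ → Bool := onCell 536870912 536870912 0 536870912 67108864 67108864
    (rowNK 3 0 false false false .npp 1 0 2 (qsf 536870912 536870912 0 536870912 0) ndN4q1 ndN2q2a pcN0 Cut.none Ext.none)

def k0_mm_102_a : ∃ t, chk3 f_mm_102_a t 1 1 1 = true :=
  ⟨(l 5), by decide +kernel⟩

theorem c_mm_102_a : CertN 536870912 536870912 0 536870912 67108864 67108864 3 false false false .npp 1 0 2
    ndN4q1 ndN2q2a pcN0 Cut.none Ext.none :=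
  certNK0 (fam := false) (s1 := false) (s2 := false) (a := 1) (b := 0) (c := 2) (cn := .npp) (n1 := ndN4q1) (n2 := ndN2q2a) (pc := pcN0) (cut := Cut.none) (xt := Ext.none) (P1 := 536870912) (W1 := 536870912) (P2 := 0) (W2 := 536870912) (P3 := 67108864) (W3 := 67108864) (N0 := 3)
    rfl rfl rfl k0_mm_102_a

noncomputable def f_mm_102_b : ℕ → ℕ → ℕ → ℕ → Bool := onCell 536870912 536870912 1239849684 370763052 67108864 67108864
    (rowNK 3 0 false false false .npp 1 0 2 (qsf 536870912 536870912 1239849684 370763052 0) ndN4q1 ndN2q2b pcN0 Cut.none Ext.none)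

def k0_mm_102_b : ∃ t, chk3 f_mm_102_b t 1 1 1 = true :=
  ⟨(l 5), by decide +kernel⟩

theorem c_mm_102_b : CertN 536870912 536870912 1239849684 370763052 67108864 67108864 3 false false false .npp 1 0 2
    ndN4q1 ndN2q2b pcN0 Cut.none Ext.none :=
  certNK0 (fam := false) (s1 := false) (s2 := false) (a := 1) (b := 0) (c := 2) (cn := .npp) (n1 := ndN4q1) (n2 := ndN2q2b) (pc := pcN0) (cut := Cut.none) (xt := Ext.none) (P1 := 536870912) (W1 := 536870912) (P2 := 1239849684) (W2 := 370763052) (P3 := 67108864) (W3 := 67108864) (N0 := 3)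
    rfl rfl rfl k0_mm_102_b

noncomputable def f_mm_112_a : ℕ → ℕ → ℕ → ℕ → Bool := onCell 536870912 536870912 0 536870912 67108864 67108864
    (rowNK 3 0 false false false .dn 1 1 2 (qsf 536870912 536870912 0 536870912 1) ndN4q1 ndN2q2a pcN1 Cut.none Ext.none)

def k0_mm_112_a : ∃ t, chk3 f_mm_112_a t 1 1 1 = true :=
  ⟨(l 5), by decide +kernel⟩

theorem c_mm_112_a : CertN 536870912 536870912 0 536870912 67108864 67108864 3 false false false .dn 1 1 2
    ndN4q1 ndN2q2a pcN1 Cut.none Ext.none :=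
  certNK0 (fam := false) (s1 := false) (s2 := false) (a := 1) (b := 1) (c := 2) (cn := .dn) (n1 := ndN4q1) (n2 := ndN2q2a) (pc := pcN1) (cut := Cut.none) (xt := Ext.none) (P1 := 536870912) (W1 := 536870912) (P2 := 0) (W2 := 536870912) (P3 := 67108864) (W3 := 67108864) (N0 := 3)
    rfl rfl rfl k0_mm_112_a

noncomputable def f_mm_112_b : ℕ → ℕ → ℕ → ℕ → Bool := onCell 536870912 536870912 1239849684 370763052 67108864 67108864
    (rowNK 3 0 false false false .dn 1 1 2 (qsf 536870912 536870912 1239849684 370763052 1) ndN4q1 ndN2q2b pcN1 Cut.none Ext.none)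

def k0_mm_112_b : ∃ t, chk3 f_mm_112_b t 1 1 1 = true :=
  ⟨(l 5), by decide +kernel⟩

theorem c_mm_112_b : CertN 536870912 536870912 1239849684 370763052 67108864 67108864 3 false false false .dn 1 1 2
    ndN4q1 ndN2q2b pcN1 Cut.none Ext.none :=
  certNK0 (fam := false) (s1 := false) (s2 := false) (a := 1) (b := 1) (c := 2) (cn := .dn) (n1 := ndN4q1) (n2 := ndN2q2b) (pc := pcN1) (cut := Cut.none) (xt := Ext.none) (P1 := 536870912) (W1 := 536870912) (P2 := 1239849684) (W2 := 370763052) (P3 := 67108864) (W3 := 67108864) (N0 := 3)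
    rfl rfl rfl k0_mm_112_b

noncomputable def f_mm_113 : ℕ → ℕ → ℕ → ℕ → Bool := onCell 536870912 536870912 1610612736 536870912 67108864 67108864
    (rowNK 3 0 false false false .nn 1 1 3 (qsf 536870912 536870912 1610612736 536870912 1) ndN4q1 ndN2q3 pcN1 Cut.none Ext.none)

def k0_mm_113 : ∃ t, chk3 f_mm_113 t 1 1 1 = true :=
  ⟨(l 5), by decide +kernel⟩

theorem c_mm_113 : CertN 536870912 536870912 1610612736 536870912 67108864 67108864 3 false false false .nn 1 1 3
    ndN4q1 ndN2q3 pcN1 Cut.none Ext.none :=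
  certNK0 (fam := false) (s1 := false) (s2 := false) (a := 1) (b := 1) (c := 3) (cn := .nn) (n1 := ndN4q1) (n2 := ndN2q3) (pc := pcN1) (cut := Cut.none) (xt := Ext.none) (P1 := 536870912) (W1 := 536870912) (P2 := 1610612736) (W2 := 536870912) (P3 := 67108864) (W3 := 67108864) (N0 := 3)
    rfl rfl rfl k0_mm_113

noncomputable def f_mm_123 : ℕ → ℕ → ℕ → ℕ → Bool := onCell 536870912 536870912 1610612736 536870912 67108864 67108864
    (rowNK 3 0 false false false .npn 1 2 3 (qsf 536870912 536870912 1610612736 536870912 2) ndN4q1 ndN2q3 pcN2 Cut.none Ext.none)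

def k0_mm_123 : ∃ t, chk3 f_mm_123 t 1 1 1 = true :=
  ⟨(l 5), by decide +kernel⟩

theorem c_mm_123 : CertN 536870912 536870912 1610612736 536870912 67108864 67108864 3 false false false .npn 1 2 3
    ndN4q1 ndN2q3 pcN2 Cut.none Ext.none :=
  certNK0 (fam := false) (s1 := false) (s2 := false) (a := 1) (b := 2) (c := 3) (cn := .npn) (n1 := ndN4q1) (n2 := ndN2q3) (pc := pcN2) (cut := Cut.none) (xt := Ext.none) (P1 := 536870912) (W1 := 536870912) (P2 := 1610612736) (W2 := 536870912) (P3 := 67108864) (W3 := 67108864) (N0 := 3)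
    rfl rfl rfl k0_mm_123

noncomputable def f_mm_133 : ℕ → ℕ → ℕ → ℕ → Bool := onCell 536870912 536870912 1610612736 536870912 67108864 67108864
    (rowNK 3 0 false false false .dn 1 3 3 (qsf 536870912 536870912 1610612736 536870912 3) ndN4q1 ndN2q3 pcN3 Cut.none Ext.none)

def k0_mm_133 : ∃ t, chk3 f_mm_133 t 1 1 1 = true :=
  ⟨(l 5), by decide +kernel⟩

theorem c_mm_133 : CertN 536870912 536870912 1610612736 536870912 67108864 67108864 3 false false false .dn 1 3 3
    ndN4q1 ndN2q3 pcN3 Cut.none Ext.none :=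
  certNK0 (fam := false) (s1 := false) (s2 := false) (a := 1) (b := 3) (c := 3) (cn := .dn) (n1 := ndN4q1) (n2 := ndN2q3) (pc := pcN3) (cut := Cut.none) (xt := Ext.none) (P1 := 536870912) (W1 := 536870912) (P2 := 1610612736) (W2 := 536870912) (P3 := 67108864) (W3 := 67108864) (N0 := 3)
    rfl rfl rfl k0_mm_133

noncomputable def f_mm_202_a : ℕ → ℕ → ℕ → ℕ → Bool := onCell 1073741824 536870912 0 536870912 67108864 67108864
    (rowNK 3 0 false false false .pp 2 0 2 (qsf 1073741824 536870912 0 536870912 0) ndN4q2 ndN2q2a pcN0 Cut.none Ext.none)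

def k0_mm_202_a : ∃ t, chk3 f_mm_202_a t 1 1 1 = true :=
  ⟨(l 5), by decide +kernel⟩

theorem c_mm_202_a : CertN 1073741824 536870912 0 536870912 67108864 67108864 3 false false false .pp 2 0 2
    ndN4q2 ndN2q2a pcN0 Cut.none Ext.none :=
  certNK0 (fam := false) (s1 := false) (s2 := false) (a := 2) (b := 0) (c := 2) (cn := .pp) (n1 := ndN4q2) (n2 := ndN2q2a) (pc := pcN0) (cut := Cut.none) (xt := Ext.none) (P1 := 1073741824) (W1 := 536870912) (P2 := 0) (W2 := 536870912) (P3 := 67108864) (W3 := 67108864) (N0 := 3)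
    rfl rfl rfl k0_mm_202_a

noncomputable def f_mm_202_b : ℕ → ℕ → ℕ → ℕ → Bool := onCell 1073741824 536870912 1239849684 370763052 67108864 67108864
    (rowNK 3 0 false false false .pp 2 0 2 (qsf 1073741824 536870912 1239849684 370763052 0) ndN4q2 ndN2q2b pcN0 Cut.none Ext.none)

def k0_mm_202_b : ∃ t, chk3 f_mm_202_b t 1 1 1 = true :=
  ⟨(l 5), by decide +kernel⟩

theorem c_mm_202_b : CertN 1073741824 536870912 1239849684 370763052 67108864 67108864 3 false false false .pp 2 0 2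
    ndN4q2 ndN2q2b pcN0 Cut.none Ext.none :=
  certNK0 (fam := false) (s1 := false) (s2 := false) (a := 2) (b := 0) (c := 2) (cn := .pp) (n1 := ndN4q2) (n2 := ndN2q2b) (pc := pcN0) (cut := Cut.none) (xt := Ext.none) (P1 := 1073741824) (W1 := 536870912) (P2 := 1239849684) (W2 := 370763052) (P3 := 67108864) (W3 := 67108864) (N0 := 3)
    rfl rfl rfl k0_mm_202_b

noncomputable def f_mm_203 : ℕ → ℕ → ℕ → ℕ → Bool := onCell 1073741824 536870912 1610612736 536870912 67108864 67108864
    (rowNK 3 0 false false false .up 2 0 3 (qsf 1073741824 536870912 1610612736 536870912 0) ndN4q2 ndN2q3 pcN0 Cut.none Ext.none)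

def k0_mm_203 : ∃ t, chk3 f_mm_203 t 1 1 1 = true :=
  ⟨(l 5), by decide +kernel⟩

theorem c_mm_203 : CertN 1073741824 536870912 1610612736 536870912 67108864 67108864 3 false false false .up 2 0 3
    ndN4q2 ndN2q3 pcN0 Cut.none Ext.none :=
  certNK0 (fam := false) (s1 := false) (s2 := false) (a := 2) (b := 0) (c := 3) (cn := .up) (n1 := ndN4q2) (n2 := ndN2q3) (pc := pcN0) (cut := Cut.none) (xt := Ext.none) (P1 := 1073741824) (W1 := 536870912) (P2 := 1610612736) (W2 := 536870912) (P3 := 67108864) (W3 := 67108864) (N0 := 3)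
    rfl rfl rfl k0_mm_203

noncomputable def f_mm_213 : ℕ → ℕ → ℕ → ℕ → Bool := onCell 1073741824 536870912 1610612736 536870912 67108864 67108864
    (rowNK 3 0 false false false .pnn 2 1 3 (qsf 1073741824 536870912 1610612736 536870912 1) ndN4q2 ndN2q3 pcN1 Cut.none Ext.none)

def k0_mm_213 : ∃ t, chk3 f_mm_213 t 1 1 1 = true :=
  ⟨(l 5), by decide +kernel⟩

theorem c_mm_213 : CertN 1073741824 536870912 1610612736 536870912 67108864 67108864 3 false false false .pnn 2 1 3
    ndN4q2 ndN2q3 pcN1 Cut.none Ext.none :=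
  certNK0 (fam := false) (s1 := false) (s2 := false) (a := 2) (b := 1) (c := 3) (cn := .pnn) (n1 := ndN4q2) (n2 := ndN2q3) (pc := pcN1) (cut := Cut.none) (xt := Ext.none) (P1 := 1073741824) (W1 := 536870912) (P2 := 1610612736) (W2 := 536870912) (P3 := 67108864) (W3 := 67108864) (N0 := 3)
    rfl rfl rfl k0_mm_213

noncomputable def f_mm_303 : ℕ → ℕ → ℕ → ℕ → Bool := onCell 0 1230186008 1610612736 536870912 67108864 67108864
    (rowNK 3 0 false false false .npn 3 0 3 (qsf 0 1230186008 1610612736 536870912 0) ndN4q3 ndN2q3 pcN0 Cut.none Ext.none)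

def k0_mm_303 : ∃ t, chk3 f_mm_303 t 1 1 1 = true :=
  ⟨(a (l 3) (a (l 3) (l 5))), by decide +kernel⟩

theorem c_mm_303 : CertN 0 1230186008 1610612736 536870912 67108864 67108864 3 false false false .npn 3 0 3
    ndN4q3 ndN2q3 pcN0 Cut.none Ext.none :=
  certNK0 (fam := false) (s1 := false) (s2 := false) (a := 3) (b := 0) (c := 3) (cn := .npn) (n1 := ndN4q3) (n2 := ndN2q3) (pc := pcN0) (cut := Cut.none) (xt := Ext.none) (P1 := 0) (W1 := 1230186008) (P2 := 1610612736) (W2 := 536870912) (P3 := 67108864) (W3 := 67108864) (N0 := 3)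
    rfl rfl rfl k0_mm_303

noncomputable def f_mm_313 : ℕ → ℕ → ℕ → ℕ → Bool := onCell 0 1230186008 1610612736 536870912 67108864 67108864
    (rowNK 3 0 false false false .dn 3 1 3 (qsf 0 1230186008 1610612736 536870912 1) ndN4q3 ndN2q3 pcN1 Cut.none Ext.none)

def k0_mm_313 : ∃ t, chk3 f_mm_313 t 1 1 1 = true :=
  ⟨(a (l 1) (a (l 1) (l 5))), by decide +kernel⟩

theorem c_mm_313 : CertN 0 1230186008 1610612736 536870912 67108864 67108864 3 false false false .dn 3 1 3
    ndN4q3 ndN2q3 pcN1 Cut.none Ext.none :=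
  certNK0 (fam := false) (s1 := false) (s2 := false) (a := 3) (b := 1) (c := 3) (cn := .dn) (n1 := ndN4q3) (n2 := ndN2q3) (pc := pcN1) (cut := Cut.none) (xt := Ext.none) (P1 := 0) (W1 := 1230186008) (P2 := 1610612736) (W2 := 536870912) (P3 := 67108864) (W3 := 67108864) (N0 := 3)
    rfl rfl rfl k0_mm_313

end Pool.Agent.Strip051.G.I1_16_1_8.Tab.C.NB42

namespace Pool.Agent.Strip051.G.I1_16_1_8.Tab.C.NB43

open Pool.Agent.Strip051.PB Pool.Agent.Strip051.PB.T
open Pool.Agent.Strip051.G.I1_16_1_8.Tab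

noncomputable def f_pp_001 : ℕ → ℕ → ℕ → ℕ → Bool := onCell 0 536870912 536870912 536870912 67108864 67108864
    (rowNK 3 0 false true true .up 0 0 1 (qsf 0 536870912 536870912 536870912 0) ndN4q0 ndN3q1 pcN0 Cut.none Ext.none)

def k0_pp_001 : ∃ t, chk3 f_pp_001 t 1 1 1 = true :=
  ⟨(l 3), by decide +kernel⟩

theorem c_pp_001 : CertN 0 536870912 536870912 536870912 67108864 67108864 3 false true true .up 0 0 1
    ndN4q0 ndN3q1 pcN0 Cut.none Ext.none :=
  certNK0 (fam := false) (s1 := true) (s2 := true) (a := 0) (b := 0) (c := 1) (cn := .up) (n1 := ndN4q0) (n2 := ndN3q1) (pc := pcN0) (cut := Cut.none) (xt := Ext.none) (P1 := 0) (W1 := 536870912) (P2 := 536870912) (W2 := 536870912) (P3 := 67108864) (W3 := 67108864) (N0 := 3)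
    rfl rfl rfl k0_pp_001

noncomputable def f_pp_011 : ℕ → ℕ → ℕ → ℕ → Bool := onCell 0 536870912 536870912 536870912 67108864 67108864
    (rowNK 3 0 false true true .pnn 0 1 1 (qsf 0 536870912 536870912 536870912 1) ndN4q0 ndN3q1 pcN1 Cut.none Ext.none)

def k0_pp_011 : ∃ t, chk3 f_pp_011 t 1 1 1 = true :=
  ⟨(l 3), by decide +kernel⟩

theorem c_pp_011 : CertN 0 536870912 536870912 536870912 67108864 67108864 3 false true true .pnn 0 1 1
    ndN4q0 ndN3q1 pcN1 Cut.none Ext.none :=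
  certNK0 (fam := false) (s1 := true) (s2 := true) (a := 0) (b := 1) (c := 1) (cn := .pnn) (n1 := ndN4q0) (n2 := ndN3q1) (pc := pcN1) (cut := Cut.none) (xt := Ext.none) (P1 := 0) (W1 := 536870912) (P2 := 536870912) (W2 := 536870912) (P3 := 67108864) (W3 := 67108864) (N0 := 3)
    rfl rfl rfl k0_pp_011

noncomputable def f_pp_012 : ℕ → ℕ → ℕ → ℕ → Bool := onCell 0 536870912 536870912 536870912 67108864 67108864
    (rowNK 3 1 false true true .pnp 0 1 2 (qsf 0 536870912 1073741824 536870912 1) ndN4q0 ndN3q2 pcN1 Cut.none Ext.none)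

def k0_pp_012 : ∃ t, chk3 f_pp_012 t 1 1 1 = true :=
  ⟨(b (a (b (l 1) (l 494496417479)) (b (l 3) (a (l 18755872) (l 18688056)))) (a (b (l 427387741303) (l 19157624)) (b (a (l 18581384) (l 18500744)) (l 18401072)))), by decide +kernel⟩

theorem c_pp_012 : CertN 0 536870912 1073741824 536870912 67108864 67108864 3 false true true .pnp 0 1 2
    ndN4q0 ndN3q2 pcN1 Cut.none Ext.none :=
  certNK1 (fam := false) (s1 := true) (s2 := true) (a := 0) (b := 1) (c := 2) (cn := .pnp) (n1 := ndN4q0) (n2 := ndN3q2) (pc := pcN1) (cut := Cut.none) (xt := Ext.none) (P1 := 0) (W1 := 536870912) (P2 := 1073741824) (W2 := 536870912) (P3 := 67108864) (W3 := 67108864) (N0 := 3)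
    rfl rfl rfl (fun _ => rfl) k0_pp_012

noncomputable def f_pp_022 : ℕ → ℕ → ℕ → ℕ → Bool := onCell 0 536870912 1073741824 536870912 67108864 67108864
    (rowNK 3 1 false true true .pp 0 2 2 (qsf 0 536870912 1073741824 536870912 2) ndN4q0 ndN3q2 pcN2 Cut.none Ext.none)

def k0_pp_022 : ∃ t, chk3 f_pp_022 t 1 1 1 = true :=
  ⟨(a (b (b (b (b (l 18975112) (l 18832696)) (l 18636576)) (l 18377200)) (b (l 18055752) (l 17753256))) (b (b (b (b (l 18320136) (l 18230928)) (l 18100832)) (l 17853912)) (b (l 17529104) (l 2)))), by decide +kernel⟩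

theorem c_pp_022 : CertN 0 536870912 1073741824 536870912 67108864 67108864 3 false true true .pp 0 2 2
    ndN4q0 ndN3q2 pcN2 Cut.none Ext.none :=
  certNK1 (fam := false) (s1 := true) (s2 := true) (a := 0) (b := 2) (c := 2) (cn := .pp) (n1 := ndN4q0) (n2 := ndN3q2) (pc := pcN2) (cut := Cut.none) (xt := Ext.none) (P1 := 0) (W1 := 536870912) (P2 := 1073741824) (W2 := 536870912) (P3 := 67108864) (W3 := 67108864) (N0 := 3)
    rfl rfl rfl (fun _ => rfl) k0_pp_022

noncomputable def f_pp_023 : ℕ → ℕ → ℕ → ℕ → Bool := onCell 1073741824 536870912 0 1230186008 67108864 67108864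
    (rowNK 3 2 false true true .up 0 2 3 (qsf 0 536870912 0 1230186008 2) ndN4q0 ndN3q3 pcN2 Cut.none Ext.none)

def k0_pp_023 : ∃ t, chk3 f_pp_023 t 1 1 1 = true :=
  ⟨(a (b (l 2) (a (b (l 2) (b (l 2) (l 18099968))) (b (l 17300528) (l 17888424)))) (b (a (l 2) (l 4)) (b (a (l 17191632) (l 17018616)) (a (l 17363352) (l 17077744))))), by decide +kernel⟩

theorem c_pp_023 : CertN 0 536870912 0 1230186008 67108864 67108864 3 false true true .up 0 2 3
    ndN4q0 ndN3q3 pcN2 Cut.none Ext.none :=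
  certNK2 (fam := false) (s1 := true) (s2 := true) (a := 0) (b := 2) (c := 3) (cn := .up) (n1 := ndN4q0) (n2 := ndN3q3) (pc := pcN2) (cut := Cut.none) (xt := Ext.none) (P1 := 0) (W1 := 536870912) (P2 := 0) (W2 := 1230186008) (P3 := 67108864) (W3 := 67108864) (N0 := 3)
    rfl rfl rfl (fun _ => rfl) k0_pp_023

noncomputable def f_pp_033 : ℕ → ℕ → ℕ → ℕ → Bool := onCell 1610612736 536870912 0 1230186008 67108864 67108864
    (rowNK 3 2 false true true .pnn 0 3 3 (qsf 0 536870912 0 1230186008 3) ndN4q0 ndN3q3 pcN3 Cut.none Ext.none)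

def k0_pp_033 : ∃ t, chk3 f_pp_033 t 1 1 1 = true :=
  ⟨(b (l 4) (a (b (l 4) (a (b (l 17300936) (l 17593368)) (a (l 4) (l 4)))) (l 4))), by decide +kernel⟩

theorem c_pp_033 : CertN 0 536870912 0 1230186008 67108864 67108864 3 false true true .pnn 0 3 3
    ndN4q0 ndN3q3 pcN3 Cut.none Ext.none :=
  certNK2 (fam := false) (s1 := true) (s2 := true) (a := 0) (b := 3) (c := 3) (cn := .pnn) (n1 := ndN4q0) (n2 := ndN3q3) (pc := pcN3) (cut := Cut.none) (xt := Ext.none) (P1 := 0) (W1 := 536870912) (P2 := 0) (W2 := 1230186008) (P3 := 67108864) (W3 := 67108864) (N0 := 3)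
    rfl rfl rfl (fun _ => rfl) k0_pp_033

noncomputable def f_pp_101 : ℕ → ℕ → ℕ → ℕ → Bool := onCell 536870912 536870912 536870912 536870912 67108864 67108864
    (rowNK 3 0 false true true .npn 1 0 1 (qsf 536870912 536870912 536870912 536870912 0) ndN4q1 ndN3q1 pcN0 Cut.none Ext.none)

def k0_pp_101 : ∃ t, chk3 f_pp_101 t 1 1 1 = true :=
  ⟨(l 3), by decide +kernel⟩

theorem c_pp_101 : CertN 536870912 536870912 536870912 536870912 67108864 67108864 3 false true true .npn 1 0 1
    ndN4q1 ndN3q1 pcN0 Cut.none Ext.none :=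
  certNK0 (fam := false) (s1 := true) (s2 := true) (a := 1) (b := 0) (c := 1) (cn := .npn) (n1 := ndN4q1) (n2 := ndN3q1) (pc := pcN0) (cut := Cut.none) (xt := Ext.none) (P1 := 536870912) (W1 := 536870912) (P2 := 536870912) (W2 := 536870912) (P3 := 67108864) (W3 := 67108864) (N0 := 3)
    rfl rfl rfl k0_pp_101

noncomputable def f_pp_102 : ℕ → ℕ → ℕ → ℕ → Bool := onCell 0 536870912 1073741824 536870912 67108864 67108864
    (rowNK 3 2 false true true .npp 1 0 2 (qsf 536870912 536870912 1073741824 536870912 0) ndN4q1 ndN3q2 pcN0 Cut.none Ext.none)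

def k0_pp_102 : ∃ t, chk3 f_pp_102 t 1 1 1 = true :=
  ⟨(l 3), by decide +kernel⟩

theorem c_pp_102 : CertN 536870912 536870912 1073741824 536870912 67108864 67108864 3 false true true .npp 1 0 2
    ndN4q1 ndN3q2 pcN0 Cut.none Ext.none :=
  certNK2 (fam := false) (s1 := true) (s2 := true) (a := 1) (b := 0) (c := 2) (cn := .npp) (n1 := ndN4q1) (n2 := ndN3q2) (pc := pcN0) (cut := Cut.none) (xt := Ext.none) (P1 := 536870912) (W1 := 536870912) (P2 := 1073741824) (W2 := 536870912) (P3 := 67108864) (W3 := 67108864) (N0 := 3)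
    rfl rfl rfl (fun _ => rfl) k0_pp_102

noncomputable def f_pp_112 : ℕ → ℕ → ℕ → ℕ → Bool := onCell 536870912 536870912 1073741824 536870912 67108864 67108864
    (rowNK 3 2 false true true .dn 1 1 2 (qsf 536870912 536870912 1073741824 536870912 1) ndN4q1 ndN3q2 pcN1 Cut.none Ext.none)

def k0_pp_112 : ∃ t, chk3 f_pp_112 t 1 1 1 = true :=
  ⟨(a (b (a (l 3) (l 18893552)) (a (l 863998497431) (l 18853016))) (b (a (l 18578320) (l 1)) (a (l 18518024) (l 18314744)))), by decide +kernel⟩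

theorem c_pp_112 : CertN 536870912 536870912 1073741824 536870912 67108864 67108864 3 false true true .dn 1 1 2
    ndN4q1 ndN3q2 pcN1 Cut.none Ext.none :=
  certNK2 (fam := false) (s1 := true) (s2 := true) (a := 1) (b := 1) (c := 2) (cn := .dn) (n1 := ndN4q1) (n2 := ndN3q2) (pc := pcN1) (cut := Cut.none) (xt := Ext.none) (P1 := 536870912) (W1 := 536870912) (P2 := 1073741824) (W2 := 536870912) (P3 := 67108864) (W3 := 67108864) (N0 := 3)
    rfl rfl rfl (fun _ => rfl) k0_pp_112

noncomputable def f_pp_113 : ℕ → ℕ → ℕ → ℕ → Bool := onCell 536870912 536870912 0 1230186008 67108864 67108864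
    (rowNK 3 2 false true true .nn 1 1 3 (qsf 536870912 536870912 0 1230186008 1) ndN4q1 ndN3q3 pcN1 Cut.none Ext.none)

def k0_pp_113 : ∃ t, chk3 f_pp_113 t 1 1 1 = true :=
  ⟨(a (b (l 2) (b (a (l 2) (l 19202208)) (a (b (l 2) (l 18473280)) (b (l 18440112) (l 17919200))))) (a (b (l 2) (b (l 18413216) (b (l 17825040) (l 17602616)))) (a (b (b (l 2) (l 17781920)) (b (l 17765680) (l 17554976))) (b (a (l 17269184) (l 17125048)) (b (a (l 17455680) (l 17260672)) (a (l 17746272) (l 17911272))))))), by decide +kernel⟩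

theorem c_pp_113 : CertN 536870912 536870912 0 1230186008 67108864 67108864 3 false true true .nn 1 1 3
    ndN4q1 ndN3q3 pcN1 Cut.none Ext.none :=
  certNK2 (fam := false) (s1 := true) (s2 := true) (a := 1) (b := 1) (c := 3) (cn := .nn) (n1 := ndN4q1) (n2 := ndN3q3) (pc := pcN1) (cut := Cut.none) (xt := Ext.none) (P1 := 536870912) (W1 := 536870912) (P2 := 0) (W2 := 1230186008) (P3 := 67108864) (W3 := 67108864) (N0 := 3)
    rfl rfl rfl (fun _ => rfl) k0_pp_113

noncomputable def f_pp_123 : ℕ → ℕ → ℕ → ℕ → Bool := onCell 1073741824 536870912 0 1230186008 67108864 67108864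
    (rowNK 3 2 false true true .npn 1 2 3 (qsf 536870912 536870912 0 1230186008 2) ndN4q1 ndN3q3 pcN2 Cut.none Ext.none)

def k0_pp_123 : ∃ t, chk3 f_pp_123 t 1 1 1 = true :=
  ⟨(b (a (a (l 16952152) (l 16879456)) (a (l 16852680) (l 4))) (b (a (a (l 17342424) (l 17329280)) (a (l 17254432) (l 17064912))) (a (a (l 18007016) (l 17725048)) (l 1)))), by decide +kernel⟩

theorem c_pp_123 : CertN 536870912 536870912 0 1230186008 67108864 67108864 3 false true true .npn 1 2 3
    ndN4q1 ndN3q3 pcN2 Cut.none Ext.none :=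
  certNK2 (fam := false) (s1 := true) (s2 := true) (a := 1) (b := 2) (c := 3) (cn := .npn) (n1 := ndN4q1) (n2 := ndN3q3) (pc := pcN2) (cut := Cut.none) (xt := Ext.none) (P1 := 536870912) (W1 := 536870912) (P2 := 0) (W2 := 1230186008) (P3 := 67108864) (W3 := 67108864) (N0 := 3)
    rfl rfl rfl (fun _ => rfl) k0_pp_123

noncomputable def f_pp_133 : ℕ → ℕ → ℕ → ℕ → Bool := onCell 1610612736 536870912 0 1230186008 67108864 67108864
    (rowNK 3 2 false true true .dn 1 3 3 (qsf 536870912 536870912 0 1230186008 3) ndN4q1 ndN3q3 pcN3 Cut.none Ext.none)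

def k0_pp_133 : ∃ t, chk3 f_pp_133 t 1 1 1 = true :=
  ⟨(b (l 4) (l 1)), by decide +kernel⟩

theorem c_pp_133 : CertN 536870912 536870912 0 1230186008 67108864 67108864 3 false true true .dn 1 3 3
    ndN4q1 ndN3q3 pcN3 Cut.none Ext.none :=
  certNK2 (fam := false) (s1 := true) (s2 := true) (a := 1) (b := 3) (c := 3) (cn := .dn) (n1 := ndN4q1) (n2 := ndN3q3) (pc := pcN3) (cut := Cut.none) (xt := Ext.none) (P1 := 536870912) (W1 := 536870912) (P2 := 0) (W2 := 1230186008) (P3 := 67108864) (W3 := 67108864) (N0 := 3)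
    rfl rfl rfl (fun _ => rfl) k0_pp_133

noncomputable def f_pp_202 : ℕ → ℕ → ℕ → ℕ → Bool := onCell 1073741824 536870912 1073741824 536870912 67108864 67108864
    (rowNK 3 0 false true true .pp 2 0 2 (qsf 1073741824 536870912 1073741824 536870912 0) ndN4q2 ndN3q2 pcN0 Cut.none Ext.none)

def k0_pp_202 : ∃ t, chk3 f_pp_202 t 1 1 1 = true :=
  ⟨(l 3), by decide +kernel⟩

theorem c_pp_202 : CertN 1073741824 536870912 1073741824 536870912 67108864 67108864 3 false true true .pp 2 0 2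
    ndN4q2 ndN3q2 pcN0 Cut.none Ext.none :=
  certNK0 (fam := false) (s1 := true) (s2 := true) (a := 2) (b := 0) (c := 2) (cn := .pp) (n1 := ndN4q2) (n2 := ndN3q2) (pc := pcN0) (cut := Cut.none) (xt := Ext.none) (P1 := 1073741824) (W1 := 536870912) (P2 := 1073741824) (W2 := 536870912) (P3 := 67108864) (W3 := 67108864) (N0 := 3)
    rfl rfl rfl k0_pp_202

noncomputable def f_pp_203 : ℕ → ℕ → ℕ → ℕ → Bool := onCell 0 536870912 0 1230186008 67108864 67108864
    (rowNK 3 2 false true true .up 2 0 3 (qsf 1073741824 536870912 0 1230186008 0) ndN4q2 ndN3q3 pcN0 Cut.none Ext.none)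

def k0_pp_203 : ∃ t, chk3 f_pp_203 t 1 1 1 = true :=
  ⟨(a (b (l 2) (l 3)) (b (a (l 2) (b (l 17464856) (l 17694168))) (b (a (l 3) (l 585360293767)) (l 3)))), by decide +kernel⟩

theorem c_pp_203 : CertN 1073741824 536870912 0 1230186008 67108864 67108864 3 false true true .up 2 0 3
    ndN4q2 ndN3q3 pcN0 Cut.none Ext.none :=
  certNK2 (fam := false) (s1 := true) (s2 := true) (a := 2) (b := 0) (c := 3) (cn := .up) (n1 := ndN4q2) (n2 := ndN3q3) (pc := pcN0) (cut := Cut.none) (xt := Ext.none) (P1 := 1073741824) (W1 := 536870912) (P2 := 0) (W2 := 1230186008) (P3 := 67108864) (W3 := 67108864) (N0 := 3)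
    rfl rfl rfl (fun _ => rfl) k0_pp_203

noncomputable def f_pp_213 : ℕ → ℕ → ℕ → ℕ → Bool := onCell 536870912 536870912 0 1230186008 67108864 67108864
    (rowNK 3 2 false true true .pnn 2 1 3 (qsf 1073741824 536870912 0 1230186008 1) ndN4q2 ndN3q3 pcN1 Cut.none Ext.none)

def k0_pp_213 : ∃ t, chk3 f_pp_213 t 1 1 1 = true :=
  ⟨(a (b (a (b (l 18461408) (l 18331400)) (b (l 18499368) (l 18529584))) (b (a (l 18451040) (l 18577296)) (a (b (l 18526880) (l 18472808)) (b (l 18457720) (l 18169448))))) (b (a (b (l 17824488) (a (l 18427384) (l 18104776))) (a (b (l 17157592) (l 17704232)) (a (l 1072166243255) (l 17175688)))) (b (a (l 18411728) (a (l 18038376) (l 1))) (l 1)))), by decide +kernel⟩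

theorem c_pp_213 : CertN 1073741824 536870912 0 1230186008 67108864 67108864 3 false true true .pnn 2 1 3
    ndN4q2 ndN3q3 pcN1 Cut.none Ext.none :=
  certNK2 (fam := false) (s1 := true) (s2 := true) (a := 2) (b := 1) (c := 3) (cn := .pnn) (n1 := ndN4q2) (n2 := ndN3q3) (pc := pcN1) (cut := Cut.none) (xt := Ext.none) (P1 := 1073741824) (W1 := 536870912) (P2 := 0) (W2 := 1230186008) (P3 := 67108864) (W3 := 67108864) (N0 := 3)
    rfl rfl rfl (fun _ => rfl) k0_pp_213

noncomputable def f_pp_303 : ℕ → ℕ → ℕ → ℕ → Bool := onCell 0 1230186008 0 1230186008 67108864 67108864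
    (rowNK 3 0 false true true .npn 3 0 3 (qsf 0 1230186008 0 1230186008 0) ndN4q3 ndN3q3 pcN0 Cut.none Ext.none)

def k0_pp_303 : ∃ t, chk3 f_pp_303 t 1 1 1 = true :=
  ⟨(b (a (l 3) (a (l 3) (a (b (l 17521928) (l 3)) (b (l 17459256) (l 329808806855))))) (b (l 3) (l 3))), by decide +kernel⟩

theorem c_pp_303 : CertN 0 1230186008 0 1230186008 67108864 67108864 3 false true true .npn 3 0 3
    ndN4q3 ndN3q3 pcN0 Cut.none Ext.none :=
  certNK0 (fam := false) (s1 := true) (s2 := true) (a := 3) (b := 0) (c := 3) (cn := .npn) (n1 := ndN4q3) (n2 := ndN3q3) (pc := pcN0) (cut := Cut.none) (xt := Ext.none) (P1 := 0) (W1 := 1230186008) (P2 := 0) (W2 := 1230186008) (P3 := 67108864) (W3 := 67108864) (N0 := 3)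
    rfl rfl rfl k0_pp_303

noncomputable def f_pp_313 : ℕ → ℕ → ℕ → ℕ → Bool := onCell 0 1230186008 0 1230186008 67108864 67108864
    (rowNK 3 0 false true true .dn 3 1 3 (qsf 0 1230186008 0 1230186008 1) ndN4q3 ndN3q3 pcN1 Cut.none Ext.none)

def k0_pp_313 : ∃ t, chk3 f_pp_313 t 1 1 1 = true :=
  ⟨(a (l 1) (b (a (l 1) (a (l 1) (b (l 17958688) (l 1)))) (l 1))), by decide +kernel⟩

theorem c_pp_313 : CertN 0 1230186008 0 1230186008 67108864 67108864 3 false true true .dn 3 1 3
    ndN4q3 ndN3q3 pcN1 Cut.none Ext.none :=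
  certNK0 (fam := false) (s1 := true) (s2 := true) (a := 3) (b := 1) (c := 3) (cn := .dn) (n1 := ndN4q3) (n2 := ndN3q3) (pc := pcN1) (cut := Cut.none) (xt := Ext.none) (P1 := 0) (W1 := 1230186008) (P2 := 0) (W2 := 1230186008) (P3 := 67108864) (W3 := 67108864) (N0 := 3)
    rfl rfl rfl k0_pp_313

noncomputable def f_pm_001 : ℕ → ℕ → ℕ → ℕ → Bool := onCell 0 536870912 536870912 536870912 67108864 67108864
    (rowNK 3 0 false true false .up 0 0 1 (qsf 0 536870912 536870912 536870912 0) ndN4q0 ndN3q1 pcN0 Cut.none Ext.none)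

def k0_pm_001 : ∃ t, chk3 f_pm_001 t 1 1 1 = true :=
  ⟨(l 4), by decide +kernel⟩

theorem c_pm_001 : CertN 0 536870912 536870912 536870912 67108864 67108864 3 false true false .up 0 0 1
    ndN4q0 ndN3q1 pcN0 Cut.none Ext.none :=
  certNK0 (fam := false) (s1 := true) (s2 := false) (a := 0) (b := 0) (c := 1) (cn := .up) (n1 := ndN4q0) (n2 := ndN3q1) (pc := pcN0) (cut := Cut.none) (xt := Ext.none) (P1 := 0) (W1 := 536870912) (P2 := 536870912) (W2 := 536870912) (P3 := 67108864) (W3 := 67108864) (N0 := 3)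
    rfl rfl rfl k0_pm_001

noncomputable def f_pm_011 : ℕ → ℕ → ℕ → ℕ → Bool := onCell 0 536870912 536870912 536870912 67108864 67108864
    (rowNK 3 0 false true false .pnn 0 1 1 (qsf 0 536870912 536870912 536870912 1) ndN4q0 ndN3q1 pcN1 Cut.none Ext.none)

def k0_pm_011 : ∃ t, chk3 f_pm_011 t 1 1 1 = true :=
  ⟨(l 4), by decide +kernel⟩

theorem c_pm_011 : CertN 0 536870912 536870912 536870912 67108864 67108864 3 false true false .pnn 0 1 1
    ndN4q0 ndN3q1 pcN1 Cut.none Ext.none :=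
  certNK0 (fam := false) (s1 := true) (s2 := false) (a := 0) (b := 1) (c := 1) (cn := .pnn) (n1 := ndN4q0) (n2 := ndN3q1) (pc := pcN1) (cut := Cut.none) (xt := Ext.none) (P1 := 0) (W1 := 536870912) (P2 := 536870912) (W2 := 536870912) (P3 := 67108864) (W3 := 67108864) (N0 := 3)
    rfl rfl rfl k0_pm_011

noncomputable def f_pm_012 : ℕ → ℕ → ℕ → ℕ → Bool := onCell 0 536870912 1073741824 536870912 67108864 67108864
    (rowNK 3 0 false true false .pnp 0 1 2 (qsf 0 536870912 1073741824 536870912 1) ndN4q0 ndN3q2 pcN1 Cut.none Ext.none)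

def k0_pm_012 : ∃ t, chk3 f_pm_012 t 1 1 1 = true :=
  ⟨(l 4), by decide +kernel⟩

theorem c_pm_012 : CertN 0 536870912 1073741824 536870912 67108864 67108864 3 false true false .pnp 0 1 2
    ndN4q0 ndN3q2 pcN1 Cut.none Ext.none :=
  certNK0 (fam := false) (s1 := true) (s2 := false) (a := 0) (b := 1) (c := 2) (cn := .pnp) (n1 := ndN4q0) (n2 := ndN3q2) (pc := pcN1) (cut := Cut.none) (xt := Ext.none) (P1 := 0) (W1 := 536870912) (P2 := 1073741824) (W2 := 536870912) (P3 := 67108864) (W3 := 67108864) (N0 := 3)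
    rfl rfl rfl k0_pm_012

noncomputable def f_pm_022 : ℕ → ℕ → ℕ → ℕ → Bool := onCell 0 536870912 1073741824 536870912 67108864 67108864
    (rowNK 3 0 false true false .pp 0 2 2 (qsf 0 536870912 1073741824 536870912 2) ndN4q0 ndN3q2 pcN2 Cut.none Ext.none)

def k0_pm_022 : ∃ t, chk3 f_pm_022 t 1 1 1 = true :=
  ⟨(l 4), by decide +kernel⟩

theorem c_pm_022 : CertN 0 536870912 1073741824 536870912 67108864 67108864 3 false true false .pp 0 2 2
    ndN4q0 ndN3q2 pcN2 Cut.none Ext.none :=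
  certNK0 (fam := false) (s1 := true) (s2 := false) (a := 0) (b := 2) (c := 2) (cn := .pp) (n1 := ndN4q0) (n2 := ndN3q2) (pc := pcN2) (cut := Cut.none) (xt := Ext.none) (P1 := 0) (W1 := 536870912) (P2 := 1073741824) (W2 := 536870912) (P3 := 67108864) (W3 := 67108864) (N0 := 3)
    rfl rfl rfl k0_pm_022

noncomputable def f_pm_023 : ℕ → ℕ → ℕ → ℕ → Bool := onCell 0 536870912 0 1230186008 67108864 67108864
    (rowNK 3 0 false true false .up 0 2 3 (qsf 0 536870912 0 1230186008 2) ndN4q0 ndN3q3 pcN2 Cut.none Ext.none)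

def k0_pm_023 : ∃ t, chk3 f_pm_023 t 1 1 1 = true :=
  ⟨(b (l 4) (l 4)), by decide +kernel⟩

theorem c_pm_023 : CertN 0 536870912 0 1230186008 67108864 67108864 3 false true false .up 0 2 3
    ndN4q0 ndN3q3 pcN2 Cut.none Ext.none :=
  certNK0 (fam := false) (s1 := true) (s2 := false) (a := 0) (b := 2) (c := 3) (cn := .up) (n1 := ndN4q0) (n2 := ndN3q3) (pc := pcN2) (cut := Cut.none) (xt := Ext.none) (P1 := 0) (W1 := 536870912) (P2 := 0) (W2 := 1230186008) (P3 := 67108864) (W3 := 67108864) (N0 := 3)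
    rfl rfl rfl k0_pm_023

noncomputable def f_pm_033 : ℕ → ℕ → ℕ → ℕ → Bool := onCell 0 536870912 0 1230186008 67108864 67108864
    (rowNK 3 0 false true false .pnn 0 3 3 (qsf 0 536870912 0 1230186008 3) ndN4q0 ndN3q3 pcN3 Cut.none Ext.none)

def k0_pm_033 : ∃ t, chk3 f_pm_033 t 1 1 1 = true :=
  ⟨(b (l 4) (l 4)), by decide +kernel⟩

theorem c_pm_033 : CertN 0 536870912 0 1230186008 67108864 67108864 3 false true false .pnn 0 3 3
    ndN4q0 ndN3q3 pcN3 Cut.none Ext.none :=
  certNK0 (fam := false) (s1 := true) (s2 := false) (a := 0) (b := 3) (c := 3) (cn := .pnn) (n1 := ndN4q0) (n2 := ndN3q3) (pc := pcN3) (cut := Cut.none) (xt := Ext.none) (P1 := 0) (W1 := 536870912) (P2 := 0) (W2 := 1230186008) (P3 := 67108864) (W3 := 67108864) (N0 := 3)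
    rfl rfl rfl k0_pm_033

noncomputable def f_pm_101 : ℕ → ℕ → ℕ → ℕ → Bool := onCell 536870912 536870912 536870912 536870912 67108864 67108864
    (rowNK 3 0 false true false .npn 1 0 1 (qsf 536870912 536870912 536870912 536870912 0) ndN4q1 ndN3q1 pcN0 Cut.none Ext.none)

def k0_pm_101 : ∃ t, chk3 f_pm_101 t 1 1 1 = true :=
  ⟨(l 4), by decide +kernel⟩

theorem c_pm_101 : CertN 536870912 536870912 536870912 536870912 67108864 67108864 3 false true false .npn 1 0 1
    ndN4q1 ndN3q1 pcN0 Cut.none Ext.none :=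
  certNK0 (fam := false) (s1 := true) (s2 := false) (a := 1) (b := 0) (c := 1) (cn := .npn) (n1 := ndN4q1) (n2 := ndN3q1) (pc := pcN0) (cut := Cut.none) (xt := Ext.none) (P1 := 536870912) (W1 := 536870912) (P2 := 536870912) (W2 := 536870912) (P3 := 67108864) (W3 := 67108864) (N0 := 3)
    rfl rfl rfl k0_pm_101

noncomputable def f_pm_102 : ℕ → ℕ → ℕ → ℕ → Bool := onCell 536870912 536870912 1073741824 536870912 67108864 67108864
    (rowNK 3 0 false true false .npp 1 0 2 (qsf 536870912 536870912 1073741824 536870912 0) ndN4q1 ndN3q2 pcN0 Cut.none Ext.none)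

def k0_pm_102 : ∃ t, chk3 f_pm_102 t 1 1 1 = true :=
  ⟨(l 4), by decide +kernel⟩

theorem c_pm_102 : CertN 536870912 536870912 1073741824 536870912 67108864 67108864 3 false true false .npp 1 0 2
    ndN4q1 ndN3q2 pcN0 Cut.none Ext.none :=
  certNK0 (fam := false) (s1 := true) (s2 := false) (a := 1) (b := 0) (c := 2) (cn := .npp) (n1 := ndN4q1) (n2 := ndN3q2) (pc := pcN0) (cut := Cut.none) (xt := Ext.none) (P1 := 536870912) (W1 := 536870912) (P2 := 1073741824) (W2 := 536870912) (P3 := 67108864) (W3 := 67108864) (N0 := 3)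
    rfl rfl rfl k0_pm_102

noncomputable def f_pm_112 : ℕ → ℕ → ℕ → ℕ → Bool := onCell 536870912 536870912 1073741824 536870912 67108864 67108864
    (rowNK 3 0 false true false .dn 1 1 2 (qsf 536870912 536870912 1073741824 536870912 1) ndN4q1 ndN3q2 pcN1 Cut.none Ext.none)

def k0_pm_112 : ∃ t, chk3 f_pm_112 t 1 1 1 = true :=
  ⟨(l 4), by decide +kernel⟩

theorem c_pm_112 : CertN 536870912 536870912 1073741824 536870912 67108864 67108864 3 false true false .dn 1 1 2
    ndN4q1 ndN3q2 pcN1 Cut.none Ext.none :=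
  certNK0 (fam := false) (s1 := true) (s2 := false) (a := 1) (b := 1) (c := 2) (cn := .dn) (n1 := ndN4q1) (n2 := ndN3q2) (pc := pcN1) (cut := Cut.none) (xt := Ext.none) (P1 := 536870912) (W1 := 536870912) (P2 := 1073741824) (W2 := 536870912) (P3 := 67108864) (W3 := 67108864) (N0 := 3)
    rfl rfl rfl k0_pm_112

noncomputable def f_pm_113 : ℕ → ℕ → ℕ → ℕ → Bool := onCell 536870912 536870912 0 1230186008 67108864 67108864
    (rowNK 3 0 false true false .nn 1 1 3 (qsf 536870912 536870912 0 1230186008 1) ndN4q1 ndN3q3 pcN1 Cut.none Ext.none)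

def k0_pm_113 : ∃ t, chk3 f_pm_113 t 1 1 1 = true :=
  ⟨(b (a (l 2) (b (a (l 2) (l 16826752)) (l 4))) (l 4)), by decide +kernel⟩

theorem c_pm_113 : CertN 536870912 536870912 0 1230186008 67108864 67108864 3 false true false .nn 1 1 3
    ndN4q1 ndN3q3 pcN1 Cut.none Ext.none :=
  certNK0 (fam := false) (s1 := true) (s2 := false) (a := 1) (b := 1) (c := 3) (cn := .nn) (n1 := ndN4q1) (n2 := ndN3q3) (pc := pcN1) (cut := Cut.none) (xt := Ext.none) (P1 := 536870912) (W1 := 536870912) (P2 := 0) (W2 := 1230186008) (P3 := 67108864) (W3 := 67108864) (N0 := 3)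
    rfl rfl rfl k0_pm_113

noncomputable def f_pm_123 : ℕ → ℕ → ℕ → ℕ → Bool := onCell 1073741824 536870912 0 1230186008 67108864 67108864
    (rowNK 3 2 false true false .npn 1 2 3 (qsf 536870912 536870912 0 1230186008 2) ndN4q1 ndN3q3 pcN2 Cut.none Ext.none)

def k0_pm_123 : ∃ t, chk3 f_pm_123 t 1 1 1 = true :=
  ⟨(b (a (a (l 17091248) (l 4)) (l 4)) (l 4)), by decide +kernel⟩

theorem c_pm_123 : CertN 536870912 536870912 0 1230186008 67108864 67108864 3 false true false .npn 1 2 3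
    ndN4q1 ndN3q3 pcN2 Cut.none Ext.none :=
  certNK2 (fam := false) (s1 := true) (s2 := false) (a := 1) (b := 2) (c := 3) (cn := .npn) (n1 := ndN4q1) (n2 := ndN3q3) (pc := pcN2) (cut := Cut.none) (xt := Ext.none) (P1 := 536870912) (W1 := 536870912) (P2 := 0) (W2 := 1230186008) (P3 := 67108864) (W3 := 67108864) (N0 := 3)
    rfl rfl rfl (fun _ => rfl) k0_pm_123

noncomputable def f_pm_133 : ℕ → ℕ → ℕ → ℕ → Bool := onCell 1610612736 536870912 0 1230186008 67108864 67108864
    (rowNK 3 2 false true false .dn 1 3 3 (qsf 536870912 536870912 0 1230186008 3) ndN4q1 ndN3q3 pcN3 Cut.none Ext.none)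

def k0_pm_133 : ∃ t, chk3 f_pm_133 t 1 1 1 = true :=
  ⟨(b (l 4) (l 1)), by decide +kernel⟩

theorem c_pm_133 : CertN 536870912 536870912 0 1230186008 67108864 67108864 3 false true false .dn 1 3 3
    ndN4q1 ndN3q3 pcN3 Cut.none Ext.none :=
  certNK2 (fam := false) (s1 := true) (s2 := false) (a := 1) (b := 3) (c := 3) (cn := .dn) (n1 := ndN4q1) (n2 := ndN3q3) (pc := pcN3) (cut := Cut.none) (xt := Ext.none) (P1 := 536870912) (W1 := 536870912) (P2 := 0) (W2 := 1230186008) (P3 := 67108864) (W3 := 67108864) (N0 := 3)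
    rfl rfl rfl (fun _ => rfl) k0_pm_133

noncomputable def f_pm_202 : ℕ → ℕ → ℕ → ℕ → Bool := onCell 1073741824 536870912 1073741824 536870912 67108864 67108864
    (rowNK 3 0 false true false .pp 2 0 2 (qsf 1073741824 536870912 1073741824 536870912 0) ndN4q2 ndN3q2 pcN0 Cut.none Ext.none)

def k0_pm_202 : ∃ t, chk3 f_pm_202 t 1 1 1 = true :=
  ⟨(l 4), by decide +kernel⟩

theorem c_pm_202 : CertN 1073741824 536870912 1073741824 536870912 67108864 67108864 3 false true false .pp 2 0 2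
    ndN4q2 ndN3q2 pcN0 Cut.none Ext.none :=
  certNK0 (fam := false) (s1 := true) (s2 := false) (a := 2) (b := 0) (c := 2) (cn := .pp) (n1 := ndN4q2) (n2 := ndN3q2) (pc := pcN0) (cut := Cut.none) (xt := Ext.none) (P1 := 1073741824) (W1 := 536870912) (P2 := 1073741824) (W2 := 536870912) (P3 := 67108864) (W3 := 67108864) (N0 := 3)
    rfl rfl rfl k0_pm_202

noncomputable def f_pm_203 : ℕ → ℕ → ℕ → ℕ → Bool := onCell 1073741824 536870912 0 1230186008 67108864 67108864
    (rowNK 3 0 false true false .up 2 0 3 (qsf 1073741824 536870912 0 1230186008 0) ndN4q2 ndN3q3 pcN0 Cut.none Ext.none)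

def k0_pm_203 : ∃ t, chk3 f_pm_203 t 1 1 1 = true :=
  ⟨(a (b (l 2) (b (l 4) (l 4))) (b (a (l 2) (b (l 17083224) (a (b (l 611597764823) (l 17714824)) (a (b (l 17028728) (l 17866952)) (l 17282736))))) (b (a (b (l 18183320) (l 18284704)) (b (l 17677176) (l 17693656))) (a (l 4) (b (l 17525880) (l 4)))))), by decide +kernel⟩

theorem c_pm_203 : CertN 1073741824 536870912 0 1230186008 67108864 67108864 3 false true false .up 2 0 3
    ndN4q2 ndN3q3 pcN0 Cut.none Ext.none :=
  certNK0 (fam := false) (s1 := true) (s2 := false) (a := 2) (b := 0) (c := 3) (cn := .up) (n1 := ndN4q2) (n2 := ndN3q3) (pc := pcN0) (cut := Cut.none) (xt := Ext.none) (P1 := 1073741824) (W1 := 536870912) (P2 := 0) (W2 := 1230186008) (P3 := 67108864) (W3 := 67108864) (N0 := 3)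
    rfl rfl rfl k0_pm_203

noncomputable def f_pm_213 : ℕ → ℕ → ℕ → ℕ → Bool := onCell 536870912 536870912 0 1230186008 67108864 67108864
    (rowNK 3 2 false true false .pnn 2 1 3 (qsf 1073741824 536870912 0 1230186008 1) ndN4q2 ndN3q3 pcN1 Cut.none Ext.none)

def k0_pm_213 : ∃ t, chk3 f_pm_213 t 1 1 1 = true :=
  ⟨(b (b (a (a (l 18645264) (b (l 18496304) (l 18206864))) (a (a (l 17490152) (l 17100944)) (a (l 16893088) (a (l 16867048) (l 16881568))))) (a (a (a (b (l 18498704) (l 17489848)) (b (a (l 18502776) (l 18180448)) (l 17527848))) (a (b (l 18101632) (l 17058400)) (b (l 17862032) (l 17148184)))) (a (a (l 17337384) (l 17169904)) (l 4)))) (b (a (a (l 17472008) (l 17769840)) (l 4)) (l 4))), by decide +kernel⟩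

theorem c_pm_213 : CertN 1073741824 536870912 0 1230186008 67108864 67108864 3 false true false .pnn 2 1 3
    ndN4q2 ndN3q3 pcN1 Cut.none Ext.none :=
  certNK2 (fam := false) (s1 := true) (s2 := false) (a := 2) (b := 1) (c := 3) (cn := .pnn) (n1 := ndN4q2) (n2 := ndN3q3) (pc := pcN1) (cut := Cut.none) (xt := Ext.none) (P1 := 1073741824) (W1 := 536870912) (P2 := 0) (W2 := 1230186008) (P3 := 67108864) (W3 := 67108864) (N0 := 3)
    rfl rfl rfl (fun _ => rfl) k0_pm_213

noncomputable def f_pm_303 : ℕ → ℕ → ℕ → ℕ → Bool := onCell 0 1230186008 0 1230186008 67108864 67108864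
    (rowNK 3 0 false true false .npn 3 0 3 (qsf 0 1230186008 0 1230186008 0) ndN4q3 ndN3q3 pcN0 Cut.none Ext.none)

def k0_pm_303 : ∃ t, chk3 f_pm_303 t 1 1 1 = true :=
  ⟨(a (b (l 3) (b (b (l 3) (l 1)) (l 1))) (b (b (a (l 311017852343) (a (l 17446464) (a (l 17093432) (l 17029296)))) (a (a (l 269142237143) (a (l 17508016) (b (l 17572672) (l 17519976)))) (a (b (l 17180968) (b (l 17286384) (l 17043816))) (a (b (l 17039152) (l 16993816)) (b (l 16899896) (l 17034392)))))) (a (b (a (b (b (l 17617704) (l 17516184)) (b (l 17348872) (l 1))) (b (b (l 17472352) (l 16998296)) (b (l 17396272) (a (l 17914384) (l 17783160))))) (a (l 1) (b (b (l 18049768) (l 1)) (l 1)))) (b (a (b (b (l 17096768) (l 17046856)) (a (b (l 17361576) (l 17597800)) (l 17248288))) (b (a (l 17161488) (l 17423672)) (a (l 17119736) (l 17223728)))) (a (b (l 17716592) (a (l 1) (b (l 17768216) (l 1)))) (b (l 17289304) (l 17505048))))))), by decide +kernel⟩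

theorem c_pm_303 : CertN 0 1230186008 0 1230186008 67108864 67108864 3 false true false .npn 3 0 3
    ndN4q3 ndN3q3 pcN0 Cut.none Ext.none :=
  certNK0 (fam := false) (s1 := true) (s2 := false) (a := 3) (b := 0) (c := 3) (cn := .npn) (n1 := ndN4q3) (n2 := ndN3q3) (pc := pcN0) (cut := Cut.none) (xt := Ext.none) (P1 := 0) (W1 := 1230186008) (P2 := 0) (W2 := 1230186008) (P3 := 67108864) (W3 := 67108864) (N0 := 3)
    rfl rfl rfl k0_pm_303

noncomputable def f_pm_313 : ℕ → ℕ → ℕ → ℕ → Bool := onCell 0 1230186008 0 1230186008 67108864 67108864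
    (rowNK 3 0 false true false .dn 3 1 3 (qsf 0 1230186008 0 1230186008 1) ndN4q3 ndN3q3 pcN1 Cut.none Ext.none)

def k0_pm_313 : ∃ t, chk3 f_pm_313 t 1 1 1 = true :=
  ⟨(a (l 1) (b (a (l 1) (a (l 1) (b (l 18260520) (l 1)))) (l 1))), by decide +kernel⟩

theorem c_pm_313 : CertN 0 1230186008 0 1230186008 67108864 67108864 3 false true false .dn 3 1 3
    ndN4q3 ndN3q3 pcN1 Cut.none Ext.none :=
  certNK0 (fam := false) (s1 := true) (s2 := false) (a := 3) (b := 1) (c := 3) (cn := .dn) (n1 := ndN4q3) (n2 := ndN3q3) (pc := pcN1) (cut := Cut.none) (xt := Ext.none) (P1 := 0) (W1 := 1230186008) (P2 := 0) (W2 := 1230186008) (P3 := 67108864) (W3 := 67108864) (N0 := 3)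
    rfl rfl rfl k0_pm_313

noncomputable def f_mm_001 : ℕ → ℕ → ℕ → ℕ → Bool := onCell 0 536870912 536870912 536870912 67108864 67108864
    (rowNK 3 0 false false false .up 0 0 1 (qsf 0 536870912 536870912 536870912 0) ndN4q0 ndN3q1 pcN0 Cut.none Ext.none)

def k0_mm_001 : ∃ t, chk3 f_mm_001 t 1 1 1 = true :=
  ⟨(l 3), by decide +kernel⟩

theorem c_mm_001 : CertN 0 536870912 536870912 536870912 67108864 67108864 3 false false false .up 0 0 1
    ndN4q0 ndN3q1 pcN0 Cut.none Ext.none :=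
  certNK0 (fam := false) (s1 := false) (s2 := false) (a := 0) (b := 0) (c := 1) (cn := .up) (n1 := ndN4q0) (n2 := ndN3q1) (pc := pcN0) (cut := Cut.none) (xt := Ext.none) (P1 := 0) (W1 := 536870912) (P2 := 536870912) (W2 := 536870912) (P3 := 67108864) (W3 := 67108864) (N0 := 3)
    rfl rfl rfl k0_mm_001

noncomputable def f_mm_011 : ℕ → ℕ → ℕ → ℕ → Bool := onCell 0 536870912 536870912 536870912 67108864 67108864
    (rowNK 3 0 false false false .pnn 0 1 1 (qsf 0 536870912 536870912 536870912 1) ndN4q0 ndN3q1 pcN1 Cut.none Ext.none)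

def k0_mm_011 : ∃ t, chk3 f_mm_011 t 1 1 1 = true :=
  ⟨(l 3), by decide +kernel⟩

theorem c_mm_011 : CertN 0 536870912 536870912 536870912 67108864 67108864 3 false false false .pnn 0 1 1
    ndN4q0 ndN3q1 pcN1 Cut.none Ext.none :=
  certNK0 (fam := false) (s1 := false) (s2 := false) (a := 0) (b := 1) (c := 1) (cn := .pnn) (n1 := ndN4q0) (n2 := ndN3q1) (pc := pcN1) (cut := Cut.none) (xt := Ext.none) (P1 := 0) (W1 := 536870912) (P2 := 536870912) (W2 := 536870912) (P3 := 67108864) (W3 := 67108864) (N0 := 3)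
    rfl rfl rfl k0_mm_011

noncomputable def f_mm_012 : ℕ → ℕ → ℕ → ℕ → Bool := onCell 0 536870912 1073741824 536870912 67108864 67108864
    (rowNK 3 0 false false false .pnp 0 1 2 (qsf 0 536870912 1073741824 536870912 1) ndN4q0 ndN3q2 pcN1 Cut.none Ext.none)

def k0_mm_012 : ∃ t, chk3 f_mm_012 t 1 1 1 = true :=
  ⟨(l 5), by decide +kernel⟩

theorem c_mm_012 : CertN 0 536870912 1073741824 536870912 67108864 67108864 3 false false false .pnp 0 1 2
    ndN4q0 ndN3q2 pcN1 Cut.none Ext.none :=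
  certNK0 (fam := false) (s1 := false) (s2 := false) (a := 0) (b := 1) (c := 2) (cn := .pnp) (n1 := ndN4q0) (n2 := ndN3q2) (pc := pcN1) (cut := Cut.none) (xt := Ext.none) (P1 := 0) (W1 := 536870912) (P2 := 1073741824) (W2 := 536870912) (P3 := 67108864) (W3 := 67108864) (N0 := 3)
    rfl rfl rfl k0_mm_012

noncomputable def f_mm_022 : ℕ → ℕ → ℕ → ℕ → Bool := onCell 0 536870912 1073741824 536870912 67108864 67108864
    (rowNK 3 0 false false false .pp 0 2 2 (qsf 0 536870912 1073741824 536870912 2) ndN4q0 ndN3q2 pcN2 Cut.none Ext.none)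

def k0_mm_022 : ∃ t, chk3 f_mm_022 t 1 1 1 = true :=
  ⟨(l 5), by decide +kernel⟩

theorem c_mm_022 : CertN 0 536870912 1073741824 536870912 67108864 67108864 3 false false false .pp 0 2 2
    ndN4q0 ndN3q2 pcN2 Cut.none Ext.none :=
  certNK0 (fam := false) (s1 := false) (s2 := false) (a := 0) (b := 2) (c := 2) (cn := .pp) (n1 := ndN4q0) (n2 := ndN3q2) (pc := pcN2) (cut := Cut.none) (xt := Ext.none) (P1 := 0) (W1 := 536870912) (P2 := 1073741824) (W2 := 536870912) (P3 := 67108864) (W3 := 67108864) (N0 := 3)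
    rfl rfl rfl k0_mm_022

noncomputable def f_mm_023 : ℕ → ℕ → ℕ → ℕ → Bool := onCell 0 536870912 0 1230186008 67108864 67108864
    (rowNK 3 0 false false false .up 0 2 3 (qsf 0 536870912 0 1230186008 2) ndN4q0 ndN3q3 pcN2 Cut.none Ext.none)

def k0_mm_023 : ∃ t, chk3 f_mm_023 t 1 1 1 = true :=
  ⟨(l 5), by decide +kernel⟩

theorem c_mm_023 : CertN 0 536870912 0 1230186008 67108864 67108864 3 false false false .up 0 2 3
    ndN4q0 ndN3q3 pcN2 Cut.none Ext.none :=
  certNK0 (fam := false) (s1 := false) (s2 := false) (a := 0) (b := 2) (c := 3) (cn := .up) (n1 := ndN4q0) (n2 := ndN3q3) (pc := pcN2) (cut := Cut.none) (xt := Ext.none) (P1 := 0) (W1 := 536870912) (P2 := 0) (W2 := 1230186008) (P3 := 67108864) (W3 := 67108864) (N0 := 3)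
    rfl rfl rfl k0_mm_023

noncomputable def f_mm_033 : ℕ → ℕ → ℕ → ℕ → Bool := onCell 0 536870912 0 1230186008 67108864 67108864
    (rowNK 3 0 false false false .pnn 0 3 3 (qsf 0 536870912 0 1230186008 3) ndN4q0 ndN3q3 pcN3 Cut.none Ext.none)

def k0_mm_033 : ∃ t, chk3 f_mm_033 t 1 1 1 = true :=
  ⟨(l 5), by decide +kernel⟩

theorem c_mm_033 : CertN 0 536870912 0 1230186008 67108864 67108864 3 false false false .pnn 0 3 3
    ndN4q0 ndN3q3 pcN3 Cut.none Ext.none :=
  certNK0 (fam := false) (s1 := false) (s2 := false) (a := 0) (b := 3) (c := 3) (cn := .pnn) (n1 := ndN4q0) (n2 := ndN3q3) (pc := pcN3) (cut := Cut.none) (xt := Ext.none) (P1 := 0) (W1 := 536870912) (P2 := 0) (W2 := 1230186008) (P3 := 67108864) (W3 := 67108864) (N0 := 3)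
    rfl rfl rfl k0_mm_033

noncomputable def f_mm_101 : ℕ → ℕ → ℕ → ℕ → Bool := onCell 536870912 536870912 536870912 536870912 67108864 67108864
    (rowNK 3 0 false false false .npn 1 0 1 (qsf 536870912 536870912 536870912 536870912 0) ndN4q1 ndN3q1 pcN0 Cut.none Ext.none)

def k0_mm_101 : ∃ t, chk3 f_mm_101 t 1 1 1 = true :=
  ⟨(l 3), by decide +kernel⟩

theorem c_mm_101 : CertN 536870912 536870912 536870912 536870912 67108864 67108864 3 false false false .npn 1 0 1
    ndN4q1 ndN3q1 pcN0 Cut.none Ext.none :=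
  certNK0 (fam := false) (s1 := false) (s2 := false) (a := 1) (b := 0) (c := 1) (cn := .npn) (n1 := ndN4q1) (n2 := ndN3q1) (pc := pcN0) (cut := Cut.none) (xt := Ext.none) (P1 := 536870912) (W1 := 536870912) (P2 := 536870912) (W2 := 536870912) (P3 := 67108864) (W3 := 67108864) (N0 := 3)
    rfl rfl rfl k0_mm_101

noncomputable def f_mm_102 : ℕ → ℕ → ℕ → ℕ → Bool := onCell 536870912 536870912 1073741824 536870912 67108864 67108864
    (rowNK 3 0 false false false .npp 1 0 2 (qsf 536870912 536870912 1073741824 536870912 0) ndN4q1 ndN3q2 pcN0 Cut.none Ext.none)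

def k0_mm_102 : ∃ t, chk3 f_mm_102 t 1 1 1 = true :=
  ⟨(l 5), by decide +kernel⟩

theorem c_mm_102 : CertN 536870912 536870912 1073741824 536870912 67108864 67108864 3 false false false .npp 1 0 2
    ndN4q1 ndN3q2 pcN0 Cut.none Ext.none :=
  certNK0 (fam := false) (s1 := false) (s2 := false) (a := 1) (b := 0) (c := 2) (cn := .npp) (n1 := ndN4q1) (n2 := ndN3q2) (pc := pcN0) (cut := Cut.none) (xt := Ext.none) (P1 := 536870912) (W1 := 536870912) (P2 := 1073741824) (W2 := 536870912) (P3 := 67108864) (W3 := 67108864) (N0 := 3)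
    rfl rfl rfl k0_mm_102

noncomputable def f_mm_112 : ℕ → ℕ → ℕ → ℕ → Bool := onCell 536870912 536870912 1073741824 536870912 67108864 67108864
    (rowNK 3 0 false false false .dn 1 1 2 (qsf 536870912 536870912 1073741824 536870912 1) ndN4q1 ndN3q2 pcN1 Cut.none Ext.none)

def k0_mm_112 : ∃ t, chk3 f_mm_112 t 1 1 1 = true :=
  ⟨(l 5), by decide +kernel⟩

theorem c_mm_112 : CertN 536870912 536870912 1073741824 536870912 67108864 67108864 3 false false false .dn 1 1 2
    ndN4q1 ndN3q2 pcN1 Cut.none Ext.none :=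
  certNK0 (fam := false) (s1 := false) (s2 := false) (a := 1) (b := 1) (c := 2) (cn := .dn) (n1 := ndN4q1) (n2 := ndN3q2) (pc := pcN1) (cut := Cut.none) (xt := Ext.none) (P1 := 536870912) (W1 := 536870912) (P2 := 1073741824) (W2 := 536870912) (P3 := 67108864) (W3 := 67108864) (N0 := 3)
    rfl rfl rfl k0_mm_112

noncomputable def f_mm_113 : ℕ → ℕ → ℕ → ℕ → Bool := onCell 536870912 536870912 0 1230186008 67108864 67108864
    (rowNK 3 0 false false false .nn 1 1 3 (qsf 536870912 536870912 0 1230186008 1) ndN4q1 ndN3q3 pcN1 Cut.none Ext.none)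

def k0_mm_113 : ∃ t, chk3 f_mm_113 t 1 1 1 = true :=
  ⟨(l 5), by decide +kernel⟩

theorem c_mm_113 : CertN 536870912 536870912 0 1230186008 67108864 67108864 3 false false false .nn 1 1 3
    ndN4q1 ndN3q3 pcN1 Cut.none Ext.none :=
  certNK0 (fam := false) (s1 := false) (s2 := false) (a := 1) (b := 1) (c := 3) (cn := .nn) (n1 := ndN4q1) (n2 := ndN3q3) (pc := pcN1) (cut := Cut.none) (xt := Ext.none) (P1 := 536870912) (W1 := 536870912) (P2 := 0) (W2 := 1230186008) (P3 := 67108864) (W3 := 67108864) (N0 := 3)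
    rfl rfl rfl k0_mm_113

noncomputable def f_mm_123 : ℕ → ℕ → ℕ → ℕ → Bool := onCell 536870912 536870912 0 1230186008 67108864 67108864
    (rowNK 3 0 false false false .npn 1 2 3 (qsf 536870912 536870912 0 1230186008 2) ndN4q1 ndN3q3 pcN2 Cut.none Ext.none)

def k0_mm_123 : ∃ t, chk3 f_mm_123 t 1 1 1 = true :=
  ⟨(l 5), by decide +kernel⟩

theorem c_mm_123 : CertN 536870912 536870912 0 1230186008 67108864 67108864 3 false false false .npn 1 2 3
    ndN4q1 ndN3q3 pcN2 Cut.none Ext.none :=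
  certNK0 (fam := false) (s1 := false) (s2 := false) (a := 1) (b := 2) (c := 3) (cn := .npn) (n1 := ndN4q1) (n2 := ndN3q3) (pc := pcN2) (cut := Cut.none) (xt := Ext.none) (P1 := 536870912) (W1 := 536870912) (P2 := 0) (W2 := 1230186008) (P3 := 67108864) (W3 := 67108864) (N0 := 3)
    rfl rfl rfl k0_mm_123

noncomputable def f_mm_133 : ℕ → ℕ → ℕ → ℕ → Bool := onCell 536870912 536870912 0 1230186008 67108864 67108864
    (rowNK 3 0 false false false .dn 1 3 3 (qsf 536870912 536870912 0 1230186008 3) ndN4q1 ndN3q3 pcN3 Cut.none Ext.none)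

def k0_mm_133 : ∃ t, chk3 f_mm_133 t 1 1 1 = true :=
  ⟨(l 5), by decide +kernel⟩

theorem c_mm_133 : CertN 536870912 536870912 0 1230186008 67108864 67108864 3 false false false .dn 1 3 3
    ndN4q1 ndN3q3 pcN3 Cut.none Ext.none :=
  certNK0 (fam := false) (s1 := false) (s2 := false) (a := 1) (b := 3) (c := 3) (cn := .dn) (n1 := ndN4q1) (n2 := ndN3q3) (pc := pcN3) (cut := Cut.none) (xt := Ext.none) (P1 := 536870912) (W1 := 536870912) (P2 := 0) (W2 := 1230186008) (P3 := 67108864) (W3 := 67108864) (N0 := 3)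
    rfl rfl rfl k0_mm_133

noncomputable def f_mm_202 : ℕ → ℕ → ℕ → ℕ → Bool := onCell 1073741824 536870912 1073741824 536870912 67108864 67108864
    (rowNK 3 0 false false false .pp 2 0 2 (qsf 1073741824 536870912 1073741824 536870912 0) ndN4q2 ndN3q2 pcN0 Cut.none Ext.none)

def k0_mm_202 : ∃ t, chk3 f_mm_202 t 1 1 1 = true :=
  ⟨(l 3), by decide +kernel⟩

theorem c_mm_202 : CertN 1073741824 536870912 1073741824 536870912 67108864 67108864 3 false false false .pp 2 0 2
    ndN4q2 ndN3q2 pcN0 Cut.none Ext.none :=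
  certNK0 (fam := false) (s1 := false) (s2 := false) (a := 2) (b := 0) (c := 2) (cn := .pp) (n1 := ndN4q2) (n2 := ndN3q2) (pc := pcN0) (cut := Cut.none) (xt := Ext.none) (P1 := 1073741824) (W1 := 536870912) (P2 := 1073741824) (W2 := 536870912) (P3 := 67108864) (W3 := 67108864) (N0 := 3)
    rfl rfl rfl k0_mm_202

noncomputable def f_mm_203 : ℕ → ℕ → ℕ → ℕ → Bool := onCell 1073741824 536870912 0 1230186008 67108864 67108864
    (rowNK 3 0 false false false .up 2 0 3 (qsf 1073741824 536870912 0 1230186008 0) ndN4q2 ndN3q3 pcN0 Cut.none Ext.none)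

def k0_mm_203 : ∃ t, chk3 f_mm_203 t 1 1 1 = true :=
  ⟨(l 5), by decide +kernel⟩

theorem c_mm_203 : CertN 1073741824 536870912 0 1230186008 67108864 67108864 3 false false false .up 2 0 3
    ndN4q2 ndN3q3 pcN0 Cut.none Ext.none :=
  certNK0 (fam := false) (s1 := false) (s2 := false) (a := 2) (b := 0) (c := 3) (cn := .up) (n1 := ndN4q2) (n2 := ndN3q3) (pc := pcN0) (cut := Cut.none) (xt := Ext.none) (P1 := 1073741824) (W1 := 536870912) (P2 := 0) (W2 := 1230186008) (P3 := 67108864) (W3 := 67108864) (N0 := 3)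
    rfl rfl rfl k0_mm_203

noncomputable def f_mm_213 : ℕ → ℕ → ℕ → ℕ → Bool := onCell 1073741824 536870912 0 1230186008 67108864 67108864
    (rowNK 3 0 false false false .pnn 2 1 3 (qsf 1073741824 536870912 0 1230186008 1) ndN4q2 ndN3q3 pcN1 Cut.none Ext.none)

def k0_mm_213 : ∃ t, chk3 f_mm_213 t 1 1 1 = true :=
  ⟨(l 5), by decide +kernel⟩

theorem c_mm_213 : CertN 1073741824 536870912 0 1230186008 67108864 67108864 3 false false false .pnn 2 1 3
    ndN4q2 ndN3q3 pcN1 Cut.none Ext.none :=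
  certNK0 (fam := false) (s1 := false) (s2 := false) (a := 2) (b := 1) (c := 3) (cn := .pnn) (n1 := ndN4q2) (n2 := ndN3q3) (pc := pcN1) (cut := Cut.none) (xt := Ext.none) (P1 := 1073741824) (W1 := 536870912) (P2 := 0) (W2 := 1230186008) (P3 := 67108864) (W3 := 67108864) (N0 := 3)
    rfl rfl rfl k0_mm_213

noncomputable def f_mm_303 : ℕ → ℕ → ℕ → ℕ → Bool := onCell 0 1230186008 0 1230186008 67108864 67108864
    (rowNK 3 0 false false false .npn 3 0 3 (qsf 0 1230186008 0 1230186008 0) ndN4q3 ndN3q3 pcN0 Cut.none Ext.none)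

def k0_mm_303 : ∃ t, chk3 f_mm_303 t 1 1 1 = true :=
  ⟨(b (a (l 3) (l 5)) (b (l 3) (l 3))), by decide +kernel⟩

theorem c_mm_303 : CertN 0 1230186008 0 1230186008 67108864 67108864 3 false false false .npn 3 0 3
    ndN4q3 ndN3q3 pcN0 Cut.none Ext.none :=
  certNK0 (fam := false) (s1 := false) (s2 := false) (a := 3) (b := 0) (c := 3) (cn := .npn) (n1 := ndN4q3) (n2 := ndN3q3) (pc := pcN0) (cut := Cut.none) (xt := Ext.none) (P1 := 0) (W1 := 1230186008) (P2 := 0) (W2 := 1230186008) (P3 := 67108864) (W3 := 67108864) (N0 := 3)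
    rfl rfl rfl k0_mm_303

noncomputable def f_mm_313 : ℕ → ℕ → ℕ → ℕ → Bool := onCell 0 1230186008 0 1230186008 67108864 67108864
    (rowNK 3 0 false false false .dn 3 1 3 (qsf 0 1230186008 0 1230186008 1) ndN4q3 ndN3q3 pcN1 Cut.none Ext.none)

def k0_mm_313 : ∃ t, chk3 f_mm_313 t 1 1 1 = true :=
  ⟨(a (l 1) (b (l 5) (l 1))), by decide +kernel⟩

theorem c_mm_313 : CertN 0 1230186008 0 1230186008 67108864 67108864 3 false false false .dn 3 1 3
    ndN4q3 ndN3q3 pcN1 Cut.none Ext.none :=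
  certNK0 (fam := false) (s1 := false) (s2 := false) (a := 3) (b := 1) (c := 3) (cn := .dn) (n1 := ndN4q3) (n2 := ndN3q3) (pc := pcN1) (cut := Cut.none) (xt := Ext.none) (P1 := 0) (W1 := 1230186008) (P2 := 0) (W2 := 1230186008) (P3 := 67108864) (W3 := 67108864) (N0 := 3)
    rfl rfl rfl k0_mm_313

end Pool.Agent.Strip051.G.I1_16_1_8.Tab.C.NB43

namespace Pool.Agent.Strip051.G.I1_16_1_8.Tab.C.NB44

open Pool.Agent.Strip051.PB Pool.Agent.Strip051.PB.T
open Pool.Agent.Strip051.G.I1_16_1_8.Tab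

noncomputable def f_pp_001 : ℕ → ℕ → ℕ → ℕ → Bool := onCell 0 536870912 536870912 536870912 67108864 67108864
    (rowNK 3 0 false true true .up 0 0 1 (qsf 0 536870912 536870912 536870912 0) ndN4q0 ndN4q1 pcN0 Cut.none Ext.none)

def k0_pp_001 : ∃ t, chk3 f_pp_001 t 1 1 1 = true :=
  ⟨(l 3), by decide +kernel⟩

theorem c_pp_001 : CertN 0 536870912 536870912 536870912 67108864 67108864 3 false true true .up 0 0 1
    ndN4q0 ndN4q1 pcN0 Cut.none Ext.none :=
  certNK0 (fam := false) (s1 := true) (s2 := true) (a := 0) (b := 0) (c := 1) (cn := .up) (n1 := ndN4q0) (n2 := ndN4q1) (pc := pcN0) (cut := Cut.none) (xt := Ext.none) (P1 := 0) (W1 := 536870912) (P2 := 536870912) (W2 := 536870912) (P3 := 67108864) (W3 := 67108864) (N0 := 3)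
    rfl rfl rfl k0_pp_001

noncomputable def f_pp_011 : ℕ → ℕ → ℕ → ℕ → Bool := onCell 0 536870912 536870912 536870912 67108864 67108864
    (rowNK 3 0 false true true .pnn 0 1 1 (qsf 0 536870912 536870912 536870912 1) ndN4q0 ndN4q1 pcN1 Cut.none Ext.none)

def k0_pp_011 : ∃ t, chk3 f_pp_011 t 1 1 1 = true :=
  ⟨(l 3), by decide +kernel⟩

theorem c_pp_011 : CertN 0 536870912 536870912 536870912 67108864 67108864 3 false true true .pnn 0 1 1
    ndN4q0 ndN4q1 pcN1 Cut.none Ext.none :=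
  certNK0 (fam := false) (s1 := true) (s2 := true) (a := 0) (b := 1) (c := 1) (cn := .pnn) (n1 := ndN4q0) (n2 := ndN4q1) (pc := pcN1) (cut := Cut.none) (xt := Ext.none) (P1 := 0) (W1 := 536870912) (P2 := 536870912) (W2 := 536870912) (P3 := 67108864) (W3 := 67108864) (N0 := 3)
    rfl rfl rfl k0_pp_011

noncomputable def f_pp_012 : ℕ → ℕ → ℕ → ℕ → Bool := onCell 0 536870912 536870912 536870912 67108864 67108864
    (rowNK 3 1 false true true .pnp 0 1 2 (qsf 0 536870912 1073741824 536870912 1) ndN4q0 ndN4q2 pcN1 Cut.none Ext.none)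

def k0_pp_012 : ∃ t, chk3 f_pp_012 t 1 1 1 = true :=
  ⟨(b (l 3) (a (l 3) (b (l 3) (a (l 3) (l 18897592))))), by decide +kernel⟩

theorem c_pp_012 : CertN 0 536870912 1073741824 536870912 67108864 67108864 3 false true true .pnp 0 1 2
    ndN4q0 ndN4q2 pcN1 Cut.none Ext.none :=
  certNK1 (fam := false) (s1 := true) (s2 := true) (a := 0) (b := 1) (c := 2) (cn := .pnp) (n1 := ndN4q0) (n2 := ndN4q2) (pc := pcN1) (cut := Cut.none) (xt := Ext.none) (P1 := 0) (W1 := 536870912) (P2 := 1073741824) (W2 := 536870912) (P3 := 67108864) (W3 := 67108864) (N0 := 3)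
    rfl rfl rfl (fun _ => rfl) k0_pp_012

noncomputable def f_pp_022 : ℕ → ℕ → ℕ → ℕ → Bool := onCell 0 536870912 1073741824 536870912 67108864 67108864
    (rowNK 3 1 false true true .pp 0 2 2 (qsf 0 536870912 1073741824 536870912 2) ndN4q0 ndN4q2 pcN2 Cut.none Ext.none)

def k0_pp_022 : ∃ t, chk3 f_pp_022 t 1 1 1 = true :=
  ⟨(a (b (a (b (l 228880525159) (b (b (l 19371000) (l 18972808)) (l 18729656))) (b (b (l 19108776) (l 18875008)) (b (l 18690336) (l 18273992)))) (b (a (l 18228112) (l 17878704)) (a (l 17777696) (l 17387304)))) (b (b (b (b (l 18785360) (a (l 18717240) (l 18426944))) (a (l 18514312) (l 18217688))) (a (b (l 18241376) (l 17943056)) (l 17825192))) (a (b (l 17576200) (l 2)) (l 2)))), by decide +kernel⟩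

theorem c_pp_022 : CertN 0 536870912 1073741824 536870912 67108864 67108864 3 false true true .pp 0 2 2
    ndN4q0 ndN4q2 pcN2 Cut.none Ext.none :=
  certNK1 (fam := false) (s1 := true) (s2 := true) (a := 0) (b := 2) (c := 2) (cn := .pp) (n1 := ndN4q0) (n2 := ndN4q2) (pc := pcN2) (cut := Cut.none) (xt := Ext.none) (P1 := 0) (W1 := 536870912) (P2 := 1073741824) (W2 := 536870912) (P3 := 67108864) (W3 := 67108864) (N0 := 3)
    rfl rfl rfl (fun _ => rfl) k0_pp_022

noncomputable def f_pp_023 : ℕ → ℕ → ℕ → ℕ → Bool := onCell 1073741824 536870912 0 1230186008 67108864 67108864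
    (rowNK 3 2 false true true .up 0 2 3 (qsf 0 536870912 0 1230186008 2) ndN4q0 ndN4q3 pcN2 Cut.none Ext.none)

def k0_pp_023 : ∃ t, chk3 f_pp_023 t 1 1 1 = true :=
  ⟨(a (b (l 2) (b (a (l 2) (b (l 2) (l 17590952))) (b (a (l 2) (l 17737664)) (a (a (a (l 18334568) (l 18258600)) (l 18154816)) (l 17956624))))) (b (a (l 2) (l 17196888)) (b (a (l 17269632) (l 17017240)) (b (l 17389096) (l 17666056))))), by decide +kernel⟩

theorem c_pp_023 : CertN 0 536870912 0 1230186008 67108864 67108864 3 false true true .up 0 2 3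
    ndN4q0 ndN4q3 pcN2 Cut.none Ext.none :=
  certNK2 (fam := false) (s1 := true) (s2 := true) (a := 0) (b := 2) (c := 3) (cn := .up) (n1 := ndN4q0) (n2 := ndN4q3) (pc := pcN2) (cut := Cut.none) (xt := Ext.none) (P1 := 0) (W1 := 536870912) (P2 := 0) (W2 := 1230186008) (P3 := 67108864) (W3 := 67108864) (N0 := 3)
    rfl rfl rfl (fun _ => rfl) k0_pp_023

noncomputable def f_pp_033 : ℕ → ℕ → ℕ → ℕ → Bool := onCell 1610612736 536870912 0 1230186008 67108864 67108864
    (rowNK 3 2 false true true .pnn 0 3 3 (qsf 0 536870912 0 1230186008 3) ndN4q0 ndN4q3 pcN3 Cut.none Ext.none)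

def k0_pp_033 : ∃ t, chk3 f_pp_033 t 1 1 1 = true :=
  ⟨(a (b (a (b (l 4) (l 17824912)) (l 4)) (b (a (b (l 16919744) (l 17079032)) (l 17656840)) (a (b (l 17315680) (a (l 17139304) (l 17178536))) (b (l 16933088) (a (l 17092144) (l 1)))))) (b (l 4) (b (l 4) (l 1)))), by decide +kernel⟩

theorem c_pp_033 : CertN 0 536870912 0 1230186008 67108864 67108864 3 false true true .pnn 0 3 3
    ndN4q0 ndN4q3 pcN3 Cut.none Ext.none :=
  certNK2 (fam := false) (s1 := true) (s2 := true) (a := 0) (b := 3) (c := 3) (cn := .pnn) (n1 := ndN4q0) (n2 := ndN4q3) (pc := pcN3) (cut := Cut.none) (xt := Ext.none) (P1 := 0) (W1 := 536870912) (P2 := 0) (W2 := 1230186008) (P3 := 67108864) (W3 := 67108864) (N0 := 3)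
    rfl rfl rfl (fun _ => rfl) k0_pp_033

noncomputable def f_pp_101 : ℕ → ℕ → ℕ → ℕ → Bool := onCell 536870912 536870912 536870912 536870912 67108864 67108864
    (rowNK 3 0 false true true .npn 1 0 1 (qsf 536870912 536870912 536870912 536870912 0) ndN4q1 ndN4q1 pcN0 Cut.none Ext.none)

def k0_pp_101 : ∃ t, chk3 f_pp_101 t 1 1 1 = true :=
  ⟨(l 3), by decide +kernel⟩

theorem c_pp_101 : CertN 536870912 536870912 536870912 536870912 67108864 67108864 3 false true true .npn 1 0 1
    ndN4q1 ndN4q1 pcN0 Cut.none Ext.none :=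
  certNK0 (fam := false) (s1 := true) (s2 := true) (a := 1) (b := 0) (c := 1) (cn := .npn) (n1 := ndN4q1) (n2 := ndN4q1) (pc := pcN0) (cut := Cut.none) (xt := Ext.none) (P1 := 536870912) (W1 := 536870912) (P2 := 536870912) (W2 := 536870912) (P3 := 67108864) (W3 := 67108864) (N0 := 3)
    rfl rfl rfl k0_pp_101

noncomputable def f_pp_102 : ℕ → ℕ → ℕ → ℕ → Bool := onCell 536870912 536870912 0 536870912 67108864 67108864
    (rowNK 3 1 false true true .npp 1 0 2 (qsf 536870912 536870912 1073741824 536870912 0) ndN4q1 ndN4q2 pcN0 Cut.none Ext.none)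

def k0_pp_102 : ∃ t, chk3 f_pp_102 t 1 1 1 = true :=
  ⟨(l 3), by decide +kernel⟩

theorem c_pp_102 : CertN 536870912 536870912 1073741824 536870912 67108864 67108864 3 false true true .npp 1 0 2
    ndN4q1 ndN4q2 pcN0 Cut.none Ext.none :=
  certNK1 (fam := false) (s1 := true) (s2 := true) (a := 1) (b := 0) (c := 2) (cn := .npp) (n1 := ndN4q1) (n2 := ndN4q2) (pc := pcN0) (cut := Cut.none) (xt := Ext.none) (P1 := 536870912) (W1 := 536870912) (P2 := 1073741824) (W2 := 536870912) (P3 := 67108864) (W3 := 67108864) (N0 := 3)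
    rfl rfl rfl (fun _ => rfl) k0_pp_102

noncomputable def f_pp_112 : ℕ → ℕ → ℕ → ℕ → Bool := onCell 536870912 536870912 1073741824 536870912 67108864 67108864
    (rowNK 3 2 false true true .dn 1 1 2 (qsf 536870912 536870912 1073741824 536870912 1) ndN4q1 ndN4q2 pcN1 Cut.none Ext.none)

def k0_pp_112 : ∃ t, chk3 f_pp_112 t 1 1 1 = true :=
  ⟨(a (l 3) (b (l 3) (a (l 3) (l 276661021335)))), by decide +kernel⟩

theorem c_pp_112 : CertN 536870912 536870912 1073741824 536870912 67108864 67108864 3 false true true .dn 1 1 2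
    ndN4q1 ndN4q2 pcN1 Cut.none Ext.none :=
  certNK2 (fam := false) (s1 := true) (s2 := true) (a := 1) (b := 1) (c := 2) (cn := .dn) (n1 := ndN4q1) (n2 := ndN4q2) (pc := pcN1) (cut := Cut.none) (xt := Ext.none) (P1 := 536870912) (W1 := 536870912) (P2 := 1073741824) (W2 := 536870912) (P3 := 67108864) (W3 := 67108864) (N0 := 3)
    rfl rfl rfl (fun _ => rfl) k0_pp_112

noncomputable def f_pp_113 : ℕ → ℕ → ℕ → ℕ → Bool := onCell 536870912 536870912 0 1230186008 67108864 67108864
    (rowNK 3 2 false true true .nn 1 1 3 (qsf 536870912 536870912 0 1230186008 1) ndN4q1 ndN4q3 pcN1 Cut.none Ext.none)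

def k0_pp_113 : ∃ t, chk3 f_pp_113 t 1 1 1 = true :=
  ⟨(a (b (l 2) (b (b (l 2) (l 3)) (l 3))) (a (b (l 2) (b (l 18704016) (b (l 18748824) (l 3)))) (b (a (b (l 2) (l 18212784)) (a (b (l 2) (l 17877904)) (l 17362688))) (b (l 18164704) (b (l 18336296) (l 18519960)))))), by decide +kernel⟩

theorem c_pp_113 : CertN 536870912 536870912 0 1230186008 67108864 67108864 3 false true true .nn 1 1 3
    ndN4q1 ndN4q3 pcN1 Cut.none Ext.none :=
  certNK2 (fam := false) (s1 := true) (s2 := true) (a := 1) (b := 1) (c := 3) (cn := .nn) (n1 := ndN4q1) (n2 := ndN4q3) (pc := pcN1) (cut := Cut.none) (xt := Ext.none) (P1 := 536870912) (W1 := 536870912) (P2 := 0) (W2 := 1230186008) (P3 := 67108864) (W3 := 67108864) (N0 := 3)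
    rfl rfl rfl (fun _ => rfl) k0_pp_113

noncomputable def f_pp_123 : ℕ → ℕ → ℕ → ℕ → Bool := onCell 1073741824 536870912 0 1230186008 67108864 67108864
    (rowNK 3 2 false true true .npn 1 2 3 (qsf 536870912 536870912 0 1230186008 2) ndN4q1 ndN4q3 pcN2 Cut.none Ext.none)

def k0_pp_123 : ∃ t, chk3 f_pp_123 t 1 1 1 = true :=
  ⟨(b (a (b (l 17278800) (l 17180248)) (a (l 17105648) (l 17113864))) (b (a (a (a (a (l 17799632) (l 17742024)) (l 17649552)) (l 17455048)) (a (l 17209688) (l 16981376))) (a (a (a (a (l 18200584) (l 18129528)) (l 18021632)) (b (l 17700440) (l 17921400))) (l 1)))), by decide +kernel⟩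

theorem c_pp_123 : CertN 536870912 536870912 0 1230186008 67108864 67108864 3 false true true .npn 1 2 3
    ndN4q1 ndN4q3 pcN2 Cut.none Ext.none :=
  certNK2 (fam := false) (s1 := true) (s2 := true) (a := 1) (b := 2) (c := 3) (cn := .npn) (n1 := ndN4q1) (n2 := ndN4q3) (pc := pcN2) (cut := Cut.none) (xt := Ext.none) (P1 := 536870912) (W1 := 536870912) (P2 := 0) (W2 := 1230186008) (P3 := 67108864) (W3 := 67108864) (N0 := 3)
    rfl rfl rfl (fun _ => rfl) k0_pp_123

noncomputable def f_pp_133 : ℕ → ℕ → ℕ → ℕ → Bool := onCell 1610612736 536870912 0 1230186008 67108864 67108864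
    (rowNK 3 2 false true true .dn 1 3 3 (qsf 536870912 536870912 0 1230186008 3) ndN4q1 ndN4q3 pcN3 Cut.none Ext.none)

def k0_pp_133 : ∃ t, chk3 f_pp_133 t 1 1 1 = true :=
  ⟨(b (b (l 4) (l 1)) (l 1)), by decide +kernel⟩

theorem c_pp_133 : CertN 536870912 536870912 0 1230186008 67108864 67108864 3 false true true .dn 1 3 3
    ndN4q1 ndN4q3 pcN3 Cut.none Ext.none :=
  certNK2 (fam := false) (s1 := true) (s2 := true) (a := 1) (b := 3) (c := 3) (cn := .dn) (n1 := ndN4q1) (n2 := ndN4q3) (pc := pcN3) (cut := Cut.none) (xt := Ext.none) (P1 := 536870912) (W1 := 536870912) (P2 := 0) (W2 := 1230186008) (P3 := 67108864) (W3 := 67108864) (N0 := 3)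
    rfl rfl rfl (fun _ => rfl) k0_pp_133

noncomputable def f_pp_202 : ℕ → ℕ → ℕ → ℕ → Bool := onCell 1073741824 536870912 1073741824 536870912 67108864 67108864
    (rowNK 3 0 false true true .pp 2 0 2 (qsf 1073741824 536870912 1073741824 536870912 0) ndN4q2 ndN4q2 pcN0 Cut.none Ext.none)

def k0_pp_202 : ∃ t, chk3 f_pp_202 t 1 1 1 = true :=
  ⟨(l 3), by decide +kernel⟩

theorem c_pp_202 : CertN 1073741824 536870912 1073741824 536870912 67108864 67108864 3 false true true .pp 2 0 2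
    ndN4q2 ndN4q2 pcN0 Cut.none Ext.none :=
  certNK0 (fam := false) (s1 := true) (s2 := true) (a := 2) (b := 0) (c := 2) (cn := .pp) (n1 := ndN4q2) (n2 := ndN4q2) (pc := pcN0) (cut := Cut.none) (xt := Ext.none) (P1 := 1073741824) (W1 := 536870912) (P2 := 1073741824) (W2 := 536870912) (P3 := 67108864) (W3 := 67108864) (N0 := 3)
    rfl rfl rfl k0_pp_202

end Pool.Agent.Strip051.G.I1_16_1_8.Tab.C.NB44

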