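import Pool.Agent.Strip051.G.I1_16_1_8.AsmH
import Pool.Agent.Strip051.G.I1_16_1_8.TrN8
import Pool.Agent.Strip051.G.I1_16_1_8.CrnN_1

/-! # Rows from certificates (generated) -/

set_option linter.all false
set_option maxRecDepth 100000

namespace Pool.Agent.Strip051.G.I1_16_1_8.Tab

open Pool.Agent.Strip051.PB Pool.Agent.StripNear Pool.Agent.Strip051.LC

theorem NB31_pp_001 {κ x : ℝ} (hκ : κ * h0 = ken x) (hx : ((67108864 : ℕ) : ℝ) / S ≤ x) (hx' : x ≤ (((67108864 : ℕ) : ℝ) + (67108864 : ℕ)) / S) :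
    TriB PP.cur (nearL (h0 * 0) 3 κ (h0 * x) (tbl tKN x) (tbl tL x)) 0 0 1 3 1 1 1 :=
  (sideN hx hx').nearB (Or.inl rfl) (Or.inl rfl) fun y y' F =>
    nearB_cert (s1 := true) (s2 := true) rfl hκ covN30 covN11 hx hx'
        Pool.Agent.Strip051.G.I1_16_1_8.Tab.C.NB31.c_pp_001 noCut_B noExt_B F trivial trivial

theorem NB31_pp_011 {κ x : ℝ} (hκ : κ * h0 = ken x) (hx : ((67108864 : ℕ) : ℝ) / S ≤ x) (hx' : x ≤ (((67108864 : ℕ) : ℝ) + (67108864 : ℕ)) / S) :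
    TriB PP.cur (nearL (h0 * 0) 3 κ (h0 * x) (tbl tKN x) (tbl tL x)) 0 1 1 3 1 1 1 :=
  (sideN hx hx').nearB (Or.inl rfl) (Or.inl rfl) fun y y' F =>
    nearB_cert (s1 := true) (s2 := true) rfl hκ covN30 covN11 hx hx'
        Pool.Agent.Strip051.G.I1_16_1_8.Tab.C.NB31.c_pp_011 noCut_B noExt_B F trivial trivial

theorem NB31_pp_012 {κ x : ℝ} (hκ : κ * h0 = ken x) (hx : ((67108864 : ℕ) : ℝ) / S ≤ x) (hx' : x ≤ (((67108864 : ℕ) : ℝ) + (67108864 : ℕ)) / S) :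
    TriB PP.cur (nearL (h0 * 0) 3 κ (h0 * x) (tbl tKN x) (tbl tL x)) 0 1 2 3 1 1 1 :=
  (sideN hx hx').nearB (Or.inl rfl) (Or.inl rfl) fun y y' F =>
    (lt_or_ge (h0 * (y + y')) 1).elim
      (fun g => nearB_cert (s1 := true) (s2 := true) rfl hκ covN30 covN12a hx hx'
        Pool.Agent.Strip051.G.I1_16_1_8.Tab.C.NB31.c_pp_012_a noCut_B noExt_B F trivial g)
      (fun g => nearB_cert (s1 := true) (s2 := true) rfl hκ covN30 covN12b hx hx'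
        Pool.Agent.Strip051.G.I1_16_1_8.Tab.C.NB31.c_pp_012_b noCut_B noExt_B F trivial g)

theorem NB31_pp_022 {κ x : ℝ} (hκ : κ * h0 = ken x) (hx : ((67108864 : ℕ) : ℝ) / S ≤ x) (hx' : x ≤ (((67108864 : ℕ) : ℝ) + (67108864 : ℕ)) / S) :
    TriB PP.cur (nearL (h0 * 0) 3 κ (h0 * x) (tbl tKN x) (tbl tL x)) 0 2 2 3 1 1 1 :=
  (sideN hx hx').nearB (Or.inl rfl) (Or.inl rfl) fun y y' F =>
    (lt_or_ge (h0 * (y + y')) 1).elim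
      (fun g => nearB_cert (s1 := true) (s2 := true) rfl hκ covN30 covN12a hx hx'
        Pool.Agent.Strip051.G.I1_16_1_8.Tab.C.NB31.c_pp_022_a noCut_B noExt_B F trivial g)
      (fun g => nearB_cert (s1 := true) (s2 := true) rfl hκ covN30 covN12b hx hx'
        Pool.Agent.Strip051.G.I1_16_1_8.Tab.C.NB31.c_pp_022_b noCut_B noExt_B F trivial g)

theorem NB31_pp_023 {κ x : ℝ} (hκ : κ * h0 = ken x) (hx : ((67108864 : ℕ) : ℝ) / S ≤ x) (hx' : x ≤ (((67108864 : ℕ) : ℝ) + (67108864 : ℕ)) / S) :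
    TriB PP.cur (nearL (h0 * 0) 3 κ (h0 * x) (tbl tKN x) (tbl tL x)) 0 2 3 3 1 1 1 :=
  (sideN hx hx').nearB (Or.inl rfl) (Or.inl rfl) fun y y' F =>
    nearB_cert (s1 := true) (s2 := true) rfl hκ covN30 covN13 hx hx'
        Pool.Agent.Strip051.G.I1_16_1_8.Tab.C.NB31.c_pp_023 noCut_B noExt_B F trivial trivial

theorem NB31_pp_033 {κ x : ℝ} (hκ : κ * h0 = ken x) (hx : ((67108864 : ℕ) : ℝ) / S ≤ x) (hx' : x ≤ (((67108864 : ℕ) : ℝ) + (67108864 : ℕ)) / S) :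
    TriB PP.cur (nearL (h0 * 0) 3 κ (h0 * x) (tbl tKN x) (tbl tL x)) 0 3 3 3 1 1 1 :=
  (sideN hx hx').nearB (Or.inl rfl) (Or.inl rfl) fun y y' F =>
    nearB_cert (s1 := true) (s2 := true) rfl hκ covN30 covN13 hx hx'
        Pool.Agent.Strip051.G.I1_16_1_8.Tab.C.NB31.c_pp_033 noCut_B noExt_B F trivial trivial

theorem NB31_pp_101 {κ x : ℝ} (hκ : κ * h0 = ken x) (hx : ((67108864 : ℕ) : ℝ) / S ≤ x) (hx' : x ≤ (((67108864 : ℕ) : ℝ) + (67108864 : ℕ)) / S) :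
    TriB PP.cur (nearL (h0 * 0) 3 κ (h0 * x) (tbl tKN x) (tbl tL x)) 1 0 1 3 1 1 1 :=
  (sideN hx hx').nearB (Or.inl rfl) (Or.inl rfl) fun y y' F =>
    nearB_cert (s1 := true) (s2 := true) rfl hκ covN31 covN11 hx hx'
        Pool.Agent.Strip051.G.I1_16_1_8.Tab.C.NB31.c_pp_101 noCut_B noExt_B F trivial trivial

theorem NB31_pp_102 {κ x : ℝ} (hκ : κ * h0 = ken x) (hx : ((67108864 : ℕ) : ℝ) / S ≤ x) (hx' : x ≤ (((67108864 : ℕ) : ℝ) + (67108864 : ℕ)) / S) :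
    TriB PP.cur (nearL (h0 * 0) 3 κ (h0 * x) (tbl tKN x) (tbl tL x)) 1 0 2 3 1 1 1 :=
  (sideN hx hx').nearB (Or.inl rfl) (Or.inl rfl) fun y y' F =>
    (lt_or_ge (h0 * (y + y')) 1).elim
      (fun g => nearB_cert (s1 := true) (s2 := true) rfl hκ covN31 covN12a hx hx'
        Pool.Agent.Strip051.G.I1_16_1_8.Tab.C.NB31.c_pp_102_a (cutB_cons (Pool.Agent.Strip051.G.I1_16_1_8.Tab.altN_B102L_31 hκ hx hx') cutB_nil) noExt_B F trivial g)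
      (fun g => nearB_cert (s1 := true) (s2 := true) rfl hκ covN31 covN12b hx hx'
        Pool.Agent.Strip051.G.I1_16_1_8.Tab.C.NB31.c_pp_102_b (cutB_cons (Pool.Agent.Strip051.G.I1_16_1_8.Tab.altN_B102L_31 hκ hx hx') cutB_nil) noExt_B F trivial g)

theorem NB31_pp_112 {κ x : ℝ} (hκ : κ * h0 = ken x) (hx : ((67108864 : ℕ) : ℝ) / S ≤ x) (hx' : x ≤ (((67108864 : ℕ) : ℝ) + (67108864 : ℕ)) / S) :
    TriB PP.cur (nearL (h0 * 0) 3 κ (h0 * x) (tbl tKN x) (tbl tL x)) 1 1 2 3 1 1 1 :=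
  (sideN hx hx').nearB (Or.inl rfl) (Or.inl rfl) fun y y' F =>
    (lt_or_ge (h0 * (y + y')) 1).elim
      (fun g => nearB_cert (s1 := true) (s2 := true) rfl hκ covN31 covN12a hx hx'
        Pool.Agent.Strip051.G.I1_16_1_8.Tab.C.NB31.c_pp_112_a noCut_B noExt_B F trivial g)
      (fun g => nearB_cert (s1 := true) (s2 := true) rfl hκ covN31 covN12b hx hx'
        Pool.Agent.Strip051.G.I1_16_1_8.Tab.C.NB31.c_pp_112_b noCut_B noExt_B F trivial g)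

theorem NB31_pp_113 {κ x : ℝ} (hκ : κ * h0 = ken x) (hx : ((67108864 : ℕ) : ℝ) / S ≤ x) (hx' : x ≤ (((67108864 : ℕ) : ℝ) + (67108864 : ℕ)) / S) :
    TriB PP.cur (nearL (h0 * 0) 3 κ (h0 * x) (tbl tKN x) (tbl tL x)) 1 1 3 3 1 1 1 :=
  (sideN hx hx').nearB (Or.inl rfl) (Or.inl rfl) fun y y' F =>
    nearB_cert (s1 := true) (s2 := true) rfl hκ covN31 covN13 hx hx'
        Pool.Agent.Strip051.G.I1_16_1_8.Tab.C.NB31.c_pp_113 noCut_B noExt_B F trivial trivial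

theorem NB31_pp_123 {κ x : ℝ} (hκ : κ * h0 = ken x) (hx : ((67108864 : ℕ) : ℝ) / S ≤ x) (hx' : x ≤ (((67108864 : ℕ) : ℝ) + (67108864 : ℕ)) / S) :
    TriB PP.cur (nearL (h0 * 0) 3 κ (h0 * x) (tbl tKN x) (tbl tL x)) 1 2 3 3 1 1 1 :=
  (sideN hx hx').nearB (Or.inl rfl) (Or.inl rfl) fun y y' F =>
    nearB_cert (s1 := true) (s2 := true) rfl hκ covN31 covN13 hx hx'
        Pool.Agent.Strip051.G.I1_16_1_8.Tab.C.NB31.c_pp_123 noCut_B noExt_B F trivial trivial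

theorem NB31_pp_133 {κ x : ℝ} (hκ : κ * h0 = ken x) (hx : ((67108864 : ℕ) : ℝ) / S ≤ x) (hx' : x ≤ (((67108864 : ℕ) : ℝ) + (67108864 : ℕ)) / S) :
    TriB PP.cur (nearL (h0 * 0) 3 κ (h0 * x) (tbl tKN x) (tbl tL x)) 1 3 3 3 1 1 1 :=
  (sideN hx hx').nearB (Or.inl rfl) (Or.inl rfl) fun y y' F =>
    nearB_cert (s1 := true) (s2 := true) rfl hκ covN31 covN13 hx hx'
        Pool.Agent.Strip051.G.I1_16_1_8.Tab.C.NB31.c_pp_133 noCut_B noExt_B F trivial trivial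

theorem NB31_pp_202 {κ x : ℝ} (hκ : κ * h0 = ken x) (hx : ((67108864 : ℕ) : ℝ) / S ≤ x) (hx' : x ≤ (((67108864 : ℕ) : ℝ) + (67108864 : ℕ)) / S) :
    TriB PP.cur (nearL (h0 * 0) 3 κ (h0 * x) (tbl tKN x) (tbl tL x)) 2 0 2 3 1 1 1 :=
  (sideN hx hx').nearB (Or.inl rfl) (Or.inl rfl) fun y y' F =>
    (lt_or_ge (h0 * (y + y')) 1).elim
      (fun g => nearB_cert (s1 := true) (s2 := true) rfl hκ covN32 covN12a hx hx'
        Pool.Agent.Strip051.G.I1_16_1_8.Tab.C.NB31.c_pp_202_a noCut_B noExt_B F trivial g)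
      (fun g => nearB_cert (s1 := true) (s2 := true) rfl hκ covN32 covN12b hx hx'
        Pool.Agent.Strip051.G.I1_16_1_8.Tab.C.NB31.c_pp_202_b noCut_B noExt_B F trivial g)

theorem NB31_pp_203 {κ x : ℝ} (hκ : κ * h0 = ken x) (hx : ((67108864 : ℕ) : ℝ) / S ≤ x) (hx' : x ≤ (((67108864 : ℕ) : ℝ) + (67108864 : ℕ)) / S) :
    TriB PP.cur (nearL (h0 * 0) 3 κ (h0 * x) (tbl tKN x) (tbl tL x)) 2 0 3 3 1 1 1 :=
  (sideN hx hx').nearB (Or.inl rfl) (Or.inl rfl) fun y y' F =>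
    nearB_cert (s1 := true) (s2 := true) rfl hκ covN32 covN13 hx hx'
        Pool.Agent.Strip051.G.I1_16_1_8.Tab.C.NB31.c_pp_203 noCut_B noExt_B F trivial trivial

theorem NB31_pp_213 {κ x : ℝ} (hκ : κ * h0 = ken x) (hx : ((67108864 : ℕ) : ℝ) / S ≤ x) (hx' : x ≤ (((67108864 : ℕ) : ℝ) + (67108864 : ℕ)) / S) :
    TriB PP.cur (nearL (h0 * 0) 3 κ (h0 * x) (tbl tKN x) (tbl tL x)) 2 1 3 3 1 1 1 :=
  (sideN hx hx').nearB (Or.inl rfl) (Or.inl rfl) fun y y' F =>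
    nearB_cert (s1 := true) (s2 := true) rfl hκ covN32 covN13 hx hx'
        Pool.Agent.Strip051.G.I1_16_1_8.Tab.C.NB31.c_pp_213 noCut_B noExt_B F trivial trivial

theorem NB31_pp_303 {κ x : ℝ} (hκ : κ * h0 = ken x) (hx : ((67108864 : ℕ) : ℝ) / S ≤ x) (hx' : x ≤ (((67108864 : ℕ) : ℝ) + (67108864 : ℕ)) / S) :
    TriB PP.cur (nearL (h0 * 0) 3 κ (h0 * x) (tbl tKN x) (tbl tL x)) 3 0 3 3 1 1 1 :=
  (sideN hx hx').nearB (Or.inl rfl) (Or.inl rfl) fun y y' F =>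
    nearB_cert (s1 := true) (s2 := true) rfl hκ covN33 covN13 hx hx'
        Pool.Agent.Strip051.G.I1_16_1_8.Tab.C.NB31.c_pp_303 noCut_B noExt_B F trivial trivial

theorem NB31_pp_313 {κ x : ℝ} (hκ : κ * h0 = ken x) (hx : ((67108864 : ℕ) : ℝ) / S ≤ x) (hx' : x ≤ (((67108864 : ℕ) : ℝ) + (67108864 : ℕ)) / S) :
    TriB PP.cur (nearL (h0 * 0) 3 κ (h0 * x) (tbl tKN x) (tbl tL x)) 3 1 3 3 1 1 1 :=
  (sideN hx hx').nearB (Or.inl rfl) (Or.inl rfl) fun y y' F =>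
    nearB_cert (s1 := true) (s2 := true) rfl hκ covN33 covN13 hx hx'
        Pool.Agent.Strip051.G.I1_16_1_8.Tab.C.NB31.c_pp_313 noCut_B noExt_B F trivial trivial

theorem NB31_pm_001 {κ x : ℝ} (hκ : κ * h0 = ken x) (hx : ((67108864 : ℕ) : ℝ) / S ≤ x) (hx' : x ≤ (((67108864 : ℕ) : ℝ) + (67108864 : ℕ)) / S) :
    TriB PP.cur (nearL (h0 * 0) 3 κ (h0 * x) (tbl tKN x) (tbl tL x)) 0 0 1 3 1 1 (-1) :=
  (sideN hx hx').nearB (Or.inl rfl) (Or.inr rfl) fun y y' F =>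
    nearB_cert (s1 := true) (s2 := false) rfl hκ covN30 covN11 hx hx'
        Pool.Agent.Strip051.G.I1_16_1_8.Tab.C.NB31.c_pm_001 noCut_B noExt_B F trivial trivial

theorem NB31_pm_011 {κ x : ℝ} (hκ : κ * h0 = ken x) (hx : ((67108864 : ℕ) : ℝ) / S ≤ x) (hx' : x ≤ (((67108864 : ℕ) : ℝ) + (67108864 : ℕ)) / S) :
    TriB PP.cur (nearL (h0 * 0) 3 κ (h0 * x) (tbl tKN x) (tbl tL x)) 0 1 1 3 1 1 (-1) :=
  (sideN hx hx').nearB (Or.inl rfl) (Or.inr rfl) fun y y' F =>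
    nearB_cert (s1 := true) (s2 := false) rfl hκ covN30 covN11 hx hx'
        Pool.Agent.Strip051.G.I1_16_1_8.Tab.C.NB31.c_pm_011 noCut_B noExt_B F trivial trivial

theorem NB31_pm_012 {κ x : ℝ} (hκ : κ * h0 = ken x) (hx : ((67108864 : ℕ) : ℝ) / S ≤ x) (hx' : x ≤ (((67108864 : ℕ) : ℝ) + (67108864 : ℕ)) / S) :
    TriB PP.cur (nearL (h0 * 0) 3 κ (h0 * x) (tbl tKN x) (tbl tL x)) 0 1 2 3 1 1 (-1) :=
  (sideN hx hx').nearB (Or.inl rfl) (Or.inr rfl) fun y y' F =>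
    (lt_or_ge (h0 * (y + y')) 1).elim
      (fun g => nearB_cert (s1 := true) (s2 := false) rfl hκ covN30 covN12a hx hx'
        Pool.Agent.Strip051.G.I1_16_1_8.Tab.C.NB31.c_pm_012_a noCut_B noExt_B F trivial g)
      (fun g => nearB_cert (s1 := true) (s2 := false) rfl hκ covN30 covN12b hx hx'
        Pool.Agent.Strip051.G.I1_16_1_8.Tab.C.NB31.c_pm_012_b noCut_B noExt_B F trivial g)

theorem NB31_pm_022 {κ x : ℝ} (hκ : κ * h0 = ken x) (hx : ((67108864 : ℕ) : ℝ) / S ≤ x) (hx' : x ≤ (((67108864 : ℕ) : ℝ) + (67108864 : ℕ)) / S) :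
    TriB PP.cur (nearL (h0 * 0) 3 κ (h0 * x) (tbl tKN x) (tbl tL x)) 0 2 2 3 1 1 (-1) :=
  (sideN hx hx').nearB (Or.inl rfl) (Or.inr rfl) fun y y' F =>
    (lt_or_ge (h0 * (y + y')) 1).elim
      (fun g => nearB_cert (s1 := true) (s2 := false) rfl hκ covN30 covN12a hx hx'
        Pool.Agent.Strip051.G.I1_16_1_8.Tab.C.NB31.c_pm_022_a noCut_B noExt_B F trivial g)
      (fun g => nearB_cert (s1 := true) (s2 := false) rfl hκ covN30 covN12b hx hx'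
        Pool.Agent.Strip051.G.I1_16_1_8.Tab.C.NB31.c_pm_022_b noCut_B noExt_B F trivial g)

theorem NB31_pm_023 {κ x : ℝ} (hκ : κ * h0 = ken x) (hx : ((67108864 : ℕ) : ℝ) / S ≤ x) (hx' : x ≤ (((67108864 : ℕ) : ℝ) + (67108864 : ℕ)) / S) :
    TriB PP.cur (nearL (h0 * 0) 3 κ (h0 * x) (tbl tKN x) (tbl tL x)) 0 2 3 3 1 1 (-1) :=
  (sideN hx hx').nearB (Or.inl rfl) (Or.inr rfl) fun y y' F =>
    nearB_cert (s1 := true) (s2 := false) rfl hκ covN30 covN13 hx hx'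
        Pool.Agent.Strip051.G.I1_16_1_8.Tab.C.NB31.c_pm_023 noCut_B noExt_B F trivial trivial

theorem NB31_pm_033 {κ x : ℝ} (hκ : κ * h0 = ken x) (hx : ((67108864 : ℕ) : ℝ) / S ≤ x) (hx' : x ≤ (((67108864 : ℕ) : ℝ) + (67108864 : ℕ)) / S) :
    TriB PP.cur (nearL (h0 * 0) 3 κ (h0 * x) (tbl tKN x) (tbl tL x)) 0 3 3 3 1 1 (-1) :=
  (sideN hx hx').nearB (Or.inl rfl) (Or.inr rfl) fun y y' F =>
    nearB_cert (s1 := true) (s2 := false) rfl hκ covN30 covN13 hx hx'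
        Pool.Agent.Strip051.G.I1_16_1_8.Tab.C.NB31.c_pm_033 noCut_B noExt_B F trivial trivial

theorem NB31_pm_101 {κ x : ℝ} (hκ : κ * h0 = ken x) (hx : ((67108864 : ℕ) : ℝ) / S ≤ x) (hx' : x ≤ (((67108864 : ℕ) : ℝ) + (67108864 : ℕ)) / S) :
    TriB PP.cur (nearL (h0 * 0) 3 κ (h0 * x) (tbl tKN x) (tbl tL x)) 1 0 1 3 1 1 (-1) :=
  (sideN hx hx').nearB (Or.inl rfl) (Or.inr rfl) fun y y' F =>
    nearB_cert (s1 := true) (s2 := false) rfl hκ covN31 covN11 hx hx'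
        Pool.Agent.Strip051.G.I1_16_1_8.Tab.C.NB31.c_pm_101 noCut_B noExt_B F trivial trivial

theorem NB31_pm_102 {κ x : ℝ} (hκ : κ * h0 = ken x) (hx : ((67108864 : ℕ) : ℝ) / S ≤ x) (hx' : x ≤ (((67108864 : ℕ) : ℝ) + (67108864 : ℕ)) / S) :
    TriB PP.cur (nearL (h0 * 0) 3 κ (h0 * x) (tbl tKN x) (tbl tL x)) 1 0 2 3 1 1 (-1) :=
  (sideN hx hx').nearB (Or.inl rfl) (Or.inr rfl) fun y y' F =>
    (lt_or_ge (h0 * (y + y')) 1).elim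
      (fun g => nearB_cert (s1 := true) (s2 := false) rfl hκ covN31 covN12a hx hx'
        Pool.Agent.Strip051.G.I1_16_1_8.Tab.C.NB31.c_pm_102_a noCut_B noExt_B F trivial g)
      (fun g => nearB_cert (s1 := true) (s2 := false) rfl hκ covN31 covN12b hx hx'
        Pool.Agent.Strip051.G.I1_16_1_8.Tab.C.NB31.c_pm_102_b noCut_B noExt_B F trivial g)

theorem NB31_pm_112 {κ x : ℝ} (hκ : κ * h0 = ken x) (hx : ((67108864 : ℕ) : ℝ) / S ≤ x) (hx' : x ≤ (((67108864 : ℕ) : ℝ) + (67108864 : ℕ)) / S) :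
    TriB PP.cur (nearL (h0 * 0) 3 κ (h0 * x) (tbl tKN x) (tbl tL x)) 1 1 2 3 1 1 (-1) :=
  (sideN hx hx').nearB (Or.inl rfl) (Or.inr rfl) fun y y' F =>
    (lt_or_ge (h0 * (y + y')) 1).elim
      (fun g => nearB_cert (s1 := true) (s2 := false) rfl hκ covN31 covN12a hx hx'
        Pool.Agent.Strip051.G.I1_16_1_8.Tab.C.NB31.c_pm_112_a noCut_B noExt_B F trivial g)
      (fun g => nearB_cert (s1 := true) (s2 := false) rfl hκ covN31 covN12b hx hx'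
        Pool.Agent.Strip051.G.I1_16_1_8.Tab.C.NB31.c_pm_112_b noCut_B noExt_B F trivial g)

theorem NB31_pm_113 {κ x : ℝ} (hκ : κ * h0 = ken x) (hx : ((67108864 : ℕ) : ℝ) / S ≤ x) (hx' : x ≤ (((67108864 : ℕ) : ℝ) + (67108864 : ℕ)) / S) :
    TriB PP.cur (nearL (h0 * 0) 3 κ (h0 * x) (tbl tKN x) (tbl tL x)) 1 1 3 3 1 1 (-1) :=
  (sideN hx hx').nearB (Or.inl rfl) (Or.inr rfl) fun y y' F =>
    nearB_cert (s1 := true) (s2 := false) rfl hκ covN31 covN13 hx hx'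
        Pool.Agent.Strip051.G.I1_16_1_8.Tab.C.NB31.c_pm_113 noCut_B noExt_B F trivial trivial

theorem NB31_pm_123 {κ x : ℝ} (hκ : κ * h0 = ken x) (hx : ((67108864 : ℕ) : ℝ) / S ≤ x) (hx' : x ≤ (((67108864 : ℕ) : ℝ) + (67108864 : ℕ)) / S) :
    TriB PP.cur (nearL (h0 * 0) 3 κ (h0 * x) (tbl tKN x) (tbl tL x)) 1 2 3 3 1 1 (-1) :=
  (sideN hx hx').nearB (Or.inl rfl) (Or.inr rfl) fun y y' F =>
    nearB_cert (s1 := true) (s2 := false) rfl hκ covN31 covN13 hx hx'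
        Pool.Agent.Strip051.G.I1_16_1_8.Tab.C.NB31.c_pm_123 noCut_B noExt_B F trivial trivial

theorem NB31_pm_133 {κ x : ℝ} (hκ : κ * h0 = ken x) (hx : ((67108864 : ℕ) : ℝ) / S ≤ x) (hx' : x ≤ (((67108864 : ℕ) : ℝ) + (67108864 : ℕ)) / S) :
    TriB PP.cur (nearL (h0 * 0) 3 κ (h0 * x) (tbl tKN x) (tbl tL x)) 1 3 3 3 1 1 (-1) :=
  (sideN hx hx').nearB (Or.inl rfl) (Or.inr rfl) fun y y' F =>
    nearB_cert (s1 := true) (s2 := false) rfl hκ covN31 covN13 hx hx'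
        Pool.Agent.Strip051.G.I1_16_1_8.Tab.C.NB31.c_pm_133 noCut_B noExt_B F trivial trivial

theorem NB31_pm_202 {κ x : ℝ} (hκ : κ * h0 = ken x) (hx : ((67108864 : ℕ) : ℝ) / S ≤ x) (hx' : x ≤ (((67108864 : ℕ) : ℝ) + (67108864 : ℕ)) / S) :
    TriB PP.cur (nearL (h0 * 0) 3 κ (h0 * x) (tbl tKN x) (tbl tL x)) 2 0 2 3 1 1 (-1) :=
  (sideN hx hx').nearB (Or.inl rfl) (Or.inr rfl) fun y y' F =>
    (lt_or_ge (h0 * (y + y')) 1).elim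
      (fun g => nearB_cert (s1 := true) (s2 := false) rfl hκ covN32 covN12a hx hx'
        Pool.Agent.Strip051.G.I1_16_1_8.Tab.C.NB31.c_pm_202_a noCut_B noExt_B F trivial g)
      (fun g => nearB_cert (s1 := true) (s2 := false) rfl hκ covN32 covN12b hx hx'
        Pool.Agent.Strip051.G.I1_16_1_8.Tab.C.NB31.c_pm_202_b noCut_B noExt_B F trivial g)

theorem NB31_pm_203 {κ x : ℝ} (hκ : κ * h0 = ken x) (hx : ((67108864 : ℕ) : ℝ) / S ≤ x) (hx' : x ≤ (((67108864 : ℕ) : ℝ) + (67108864 : ℕ)) / S) :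
    TriB PP.cur (nearL (h0 * 0) 3 κ (h0 * x) (tbl tKN x) (tbl tL x)) 2 0 3 3 1 1 (-1) :=
  (sideN hx hx').nearB (Or.inl rfl) (Or.inr rfl) fun y y' F =>
    nearB_cert (s1 := true) (s2 := false) rfl hκ covN32 covN13 hx hx'
        Pool.Agent.Strip051.G.I1_16_1_8.Tab.C.NB31.c_pm_203 noCut_B noExt_B F trivial trivial

theorem NB31_pm_213 {κ x : ℝ} (hκ : κ * h0 = ken x) (hx : ((67108864 : ℕ) : ℝ) / S ≤ x) (hx' : x ≤ (((67108864 : ℕ) : ℝ) + (67108864 : ℕ)) / S) :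
    TriB PP.cur (nearL (h0 * 0) 3 κ (h0 * x) (tbl tKN x) (tbl tL x)) 2 1 3 3 1 1 (-1) :=
  (sideN hx hx').nearB (Or.inl rfl) (Or.inr rfl) fun y y' F =>
    nearB_cert (s1 := true) (s2 := false) rfl hκ covN32 covN13 hx hx'
        Pool.Agent.Strip051.G.I1_16_1_8.Tab.C.NB31.c_pm_213 noCut_B noExt_B F trivial trivial

theorem NB31_pm_303 {κ x : ℝ} (hκ : κ * h0 = ken x) (hx : ((67108864 : ℕ) : ℝ) / S ≤ x) (hx' : x ≤ (((67108864 : ℕ) : ℝ) + (67108864 : ℕ)) / S) :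
    TriB PP.cur (nearL (h0 * 0) 3 κ (h0 * x) (tbl tKN x) (tbl tL x)) 3 0 3 3 1 1 (-1) :=
  (sideN hx hx').nearB (Or.inl rfl) (Or.inr rfl) fun y y' F =>
    nearB_cert (s1 := true) (s2 := false) rfl hκ covN33 covN13 hx hx'
        Pool.Agent.Strip051.G.I1_16_1_8.Tab.C.NB31.c_pm_303 noCut_B noExt_B F trivial trivial

theorem NB31_pm_313 {κ x : ℝ} (hκ : κ * h0 = ken x) (hx : ((67108864 : ℕ) : ℝ) / S ≤ x) (hx' : x ≤ (((67108864 : ℕ) : ℝ) + (67108864 : ℕ)) / S) :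
    TriB PP.cur (nearL (h0 * 0) 3 κ (h0 * x) (tbl tKN x) (tbl tL x)) 3 1 3 3 1 1 (-1) :=
  (sideN hx hx').nearB (Or.inl rfl) (Or.inr rfl) fun y y' F =>
    nearB_cert (s1 := true) (s2 := false) rfl hκ covN33 covN13 hx hx'
        Pool.Agent.Strip051.G.I1_16_1_8.Tab.C.NB31.c_pm_313 noCut_B noExt_B F trivial trivial

theorem NB31_mm_001 {κ x : ℝ} (hκ : κ * h0 = ken x) (hx : ((67108864 : ℕ) : ℝ) / S ≤ x) (hx' : x ≤ (((67108864 : ℕ) : ℝ) + (67108864 : ℕ)) / S) :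
    TriB PP.cur (nearL (h0 * 0) 3 κ (h0 * x) (tbl tKN x) (tbl tL x)) 0 0 1 3 1 (-1) (-1) :=
  (sideN hx hx').nearB (Or.inr rfl) (Or.inr rfl) fun y y' F =>
    nearB_cert (s1 := false) (s2 := false) rfl hκ covN30 covN11 hx hx'
        Pool.Agent.Strip051.G.I1_16_1_8.Tab.C.NB31.c_mm_001 noCut_B noExt_B F trivial trivial

theorem NB31_mm_011 {κ x : ℝ} (hκ : κ * h0 = ken x) (hx : ((67108864 : ℕ) : ℝ) / S ≤ x) (hx' : x ≤ (((67108864 : ℕ) : ℝ) + (67108864 : ℕ)) / S) :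
    TriB PP.cur (nearL (h0 * 0) 3 κ (h0 * x) (tbl tKN x) (tbl tL x)) 0 1 1 3 1 (-1) (-1) :=
  (sideN hx hx').nearB (Or.inr rfl) (Or.inr rfl) fun y y' F =>
    nearB_cert (s1 := false) (s2 := false) rfl hκ covN30 covN11 hx hx'
        Pool.Agent.Strip051.G.I1_16_1_8.Tab.C.NB31.c_mm_011 noCut_B noExt_B F trivial trivial

theorem NB31_mm_012 {κ x : ℝ} (hκ : κ * h0 = ken x) (hx : ((67108864 : ℕ) : ℝ) / S ≤ x) (hx' : x ≤ (((67108864 : ℕ) : ℝ) + (67108864 : ℕ)) / S) :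
    TriB PP.cur (nearL (h0 * 0) 3 κ (h0 * x) (tbl tKN x) (tbl tL x)) 0 1 2 3 1 (-1) (-1) :=
  (sideN hx hx').nearB (Or.inr rfl) (Or.inr rfl) fun y y' F =>
    (lt_or_ge (h0 * (y + y')) 1).elim
      (fun g => nearB_cert (s1 := false) (s2 := false) rfl hκ covN30 covN12a hx hx'
        Pool.Agent.Strip051.G.I1_16_1_8.Tab.C.NB31.c_mm_012_a noCut_B noExt_B F trivial g)
      (fun g => nearB_cert (s1 := false) (s2 := false) rfl hκ covN30 covN12b hx hx'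
        Pool.Agent.Strip051.G.I1_16_1_8.Tab.C.NB31.c_mm_012_b noCut_B noExt_B F trivial g)

theorem NB31_mm_022 {κ x : ℝ} (hκ : κ * h0 = ken x) (hx : ((67108864 : ℕ) : ℝ) / S ≤ x) (hx' : x ≤ (((67108864 : ℕ) : ℝ) + (67108864 : ℕ)) / S) :
    TriB PP.cur (nearL (h0 * 0) 3 κ (h0 * x) (tbl tKN x) (tbl tL x)) 0 2 2 3 1 (-1) (-1) :=
  (sideN hx hx').nearB (Or.inr rfl) (Or.inr rfl) fun y y' F =>
    (lt_or_ge (h0 * (y + y')) 1).elim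
      (fun g => nearB_cert (s1 := false) (s2 := false) rfl hκ covN30 covN12a hx hx'
        Pool.Agent.Strip051.G.I1_16_1_8.Tab.C.NB31.c_mm_022_a noCut_B noExt_B F trivial g)
      (fun g => nearB_cert (s1 := false) (s2 := false) rfl hκ covN30 covN12b hx hx'
        Pool.Agent.Strip051.G.I1_16_1_8.Tab.C.NB31.c_mm_022_b noCut_B noExt_B F trivial g)

theorem NB31_mm_023 {κ x : ℝ} (hκ : κ * h0 = ken x) (hx : ((67108864 : ℕ) : ℝ) / S ≤ x) (hx' : x ≤ (((67108864 : ℕ) : ℝ) + (67108864 : ℕ)) / S) :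
    TriB PP.cur (nearL (h0 * 0) 3 κ (h0 * x) (tbl tKN x) (tbl tL x)) 0 2 3 3 1 (-1) (-1) :=
  (sideN hx hx').nearB (Or.inr rfl) (Or.inr rfl) fun y y' F =>
    nearB_cert (s1 := false) (s2 := false) rfl hκ covN30 covN13 hx hx'
        Pool.Agent.Strip051.G.I1_16_1_8.Tab.C.NB31.c_mm_023 noCut_B noExt_B F trivial trivial

theorem NB31_mm_033 {κ x : ℝ} (hκ : κ * h0 = ken x) (hx : ((67108864 : ℕ) : ℝ) / S ≤ x) (hx' : x ≤ (((67108864 : ℕ) : ℝ) + (67108864 : ℕ)) / S) :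
    TriB PP.cur (nearL (h0 * 0) 3 κ (h0 * x) (tbl tKN x) (tbl tL x)) 0 3 3 3 1 (-1) (-1) :=
  (sideN hx hx').nearB (Or.inr rfl) (Or.inr rfl) fun y y' F =>
    nearB_cert (s1 := false) (s2 := false) rfl hκ covN30 covN13 hx hx'
        Pool.Agent.Strip051.G.I1_16_1_8.Tab.C.NB31.c_mm_033 noCut_B noExt_B F trivial trivial

theorem NB31_mm_101 {κ x : ℝ} (hκ : κ * h0 = ken x) (hx : ((67108864 : ℕ) : ℝ) / S ≤ x) (hx' : x ≤ (((67108864 : ℕ) : ℝ) + (67108864 : ℕ)) / S) :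
    TriB PP.cur (nearL (h0 * 0) 3 κ (h0 * x) (tbl tKN x) (tbl tL x)) 1 0 1 3 1 (-1) (-1) :=
  (sideN hx hx').nearB (Or.inr rfl) (Or.inr rfl) fun y y' F =>
    nearB_cert (s1 := false) (s2 := false) rfl hκ covN31 covN11 hx hx'
        Pool.Agent.Strip051.G.I1_16_1_8.Tab.C.NB31.c_mm_101 noCut_B noExt_B F trivial trivial

theorem NB31_mm_102 {κ x : ℝ} (hκ : κ * h0 = ken x) (hx : ((67108864 : ℕ) : ℝ) / S ≤ x) (hx' : x ≤ (((67108864 : ℕ) : ℝ) + (67108864 : ℕ)) / S) :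
    TriB PP.cur (nearL (h0 * 0) 3 κ (h0 * x) (tbl tKN x) (tbl tL x)) 1 0 2 3 1 (-1) (-1) :=
  (sideN hx hx').nearB (Or.inr rfl) (Or.inr rfl) fun y y' F =>
    (lt_or_ge (h0 * (y + y')) 1).elim
      (fun g => nearB_cert (s1 := false) (s2 := false) rfl hκ covN31 covN12a hx hx'
        Pool.Agent.Strip051.G.I1_16_1_8.Tab.C.NB31.c_mm_102_a noCut_B noExt_B F trivial g)
      (fun g => nearB_cert (s1 := false) (s2 := false) rfl hκ covN31 covN12b hx hx'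
        Pool.Agent.Strip051.G.I1_16_1_8.Tab.C.NB31.c_mm_102_b noCut_B noExt_B F trivial g)

theorem NB31_mm_112 {κ x : ℝ} (hκ : κ * h0 = ken x) (hx : ((67108864 : ℕ) : ℝ) / S ≤ x) (hx' : x ≤ (((67108864 : ℕ) : ℝ) + (67108864 : ℕ)) / S) :
    TriB PP.cur (nearL (h0 * 0) 3 κ (h0 * x) (tbl tKN x) (tbl tL x)) 1 1 2 3 1 (-1) (-1) :=
  (sideN hx hx').nearB (Or.inr rfl) (Or.inr rfl) fun y y' F =>
    (lt_or_ge (h0 * (y + y')) 1).elim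
      (fun g => nearB_cert (s1 := false) (s2 := false) rfl hκ covN31 covN12a hx hx'
        Pool.Agent.Strip051.G.I1_16_1_8.Tab.C.NB31.c_mm_112_a noCut_B noExt_B F trivial g)
      (fun g => nearB_cert (s1 := false) (s2 := false) rfl hκ covN31 covN12b hx hx'
        Pool.Agent.Strip051.G.I1_16_1_8.Tab.C.NB31.c_mm_112_b noCut_B noExt_B F trivial g)

theorem NB31_mm_113 {κ x : ℝ} (hκ : κ * h0 = ken x) (hx : ((67108864 : ℕ) : ℝ) / S ≤ x) (hx' : x ≤ (((67108864 : ℕ) : ℝ) + (67108864 : ℕ)) / S) :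
    TriB PP.cur (nearL (h0 * 0) 3 κ (h0 * x) (tbl tKN x) (tbl tL x)) 1 1 3 3 1 (-1) (-1) :=
  (sideN hx hx').nearB (Or.inr rfl) (Or.inr rfl) fun y y' F =>
    nearB_cert (s1 := false) (s2 := false) rfl hκ covN31 covN13 hx hx'
        Pool.Agent.Strip051.G.I1_16_1_8.Tab.C.NB31.c_mm_113 noCut_B noExt_B F trivial trivial

theorem NB31_mm_123 {κ x : ℝ} (hκ : κ * h0 = ken x) (hx : ((67108864 : ℕ) : ℝ) / S ≤ x) (hx' : x ≤ (((67108864 : ℕ) : ℝ) + (67108864 : ℕ)) / S) :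
    TriB PP.cur (nearL (h0 * 0) 3 κ (h0 * x) (tbl tKN x) (tbl tL x)) 1 2 3 3 1 (-1) (-1) :=
  (sideN hx hx').nearB (Or.inr rfl) (Or.inr rfl) fun y y' F =>
    nearB_cert (s1 := false) (s2 := false) rfl hκ covN31 covN13 hx hx'
        Pool.Agent.Strip051.G.I1_16_1_8.Tab.C.NB31.c_mm_123 noCut_B noExt_B F trivial trivial

theorem NB31_mm_133 {κ x : ℝ} (hκ : κ * h0 = ken x) (hx : ((67108864 : ℕ) : ℝ) / S ≤ x) (hx' : x ≤ (((67108864 : ℕ) : ℝ) + (67108864 : ℕ)) / S) :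
    TriB PP.cur (nearL (h0 * 0) 3 κ (h0 * x) (tbl tKN x) (tbl tL x)) 1 3 3 3 1 (-1) (-1) :=
  (sideN hx hx').nearB (Or.inr rfl) (Or.inr rfl) fun y y' F =>
    nearB_cert (s1 := false) (s2 := false) rfl hκ covN31 covN13 hx hx'
        Pool.Agent.Strip051.G.I1_16_1_8.Tab.C.NB31.c_mm_133 noCut_B noExt_B F trivial trivial

theorem NB31_mm_202 {κ x : ℝ} (hκ : κ * h0 = ken x) (hx : ((67108864 : ℕ) : ℝ) / S ≤ x) (hx' : x ≤ (((67108864 : ℕ) : ℝ) + (67108864 : ℕ)) / S) :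
    TriB PP.cur (nearL (h0 * 0) 3 κ (h0 * x) (tbl tKN x) (tbl tL x)) 2 0 2 3 1 (-1) (-1) :=
  (sideN hx hx').nearB (Or.inr rfl) (Or.inr rfl) fun y y' F =>
    (lt_or_ge (h0 * (y + y')) 1).elim
      (fun g => nearB_cert (s1 := false) (s2 := false) rfl hκ covN32 covN12a hx hx'
        Pool.Agent.Strip051.G.I1_16_1_8.Tab.C.NB31.c_mm_202_a noCut_B noExt_B F trivial g)
      (fun g => nearB_cert (s1 := false) (s2 := false) rfl hκ covN32 covN12b hx hx'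
        Pool.Agent.Strip051.G.I1_16_1_8.Tab.C.NB31.c_mm_202_b noCut_B noExt_B F trivial g)

theorem NB31_mm_203 {κ x : ℝ} (hκ : κ * h0 = ken x) (hx : ((67108864 : ℕ) : ℝ) / S ≤ x) (hx' : x ≤ (((67108864 : ℕ) : ℝ) + (67108864 : ℕ)) / S) :
    TriB PP.cur (nearL (h0 * 0) 3 κ (h0 * x) (tbl tKN x) (tbl tL x)) 2 0 3 3 1 (-1) (-1) :=
  (sideN hx hx').nearB (Or.inr rfl) (Or.inr rfl) fun y y' F =>
    nearB_cert (s1 := false) (s2 := false) rfl hκ covN32 covN13 hx hx'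
        Pool.Agent.Strip051.G.I1_16_1_8.Tab.C.NB31.c_mm_203 noCut_B noExt_B F trivial trivial

theorem NB31_mm_213 {κ x : ℝ} (hκ : κ * h0 = ken x) (hx : ((67108864 : ℕ) : ℝ) / S ≤ x) (hx' : x ≤ (((67108864 : ℕ) : ℝ) + (67108864 : ℕ)) / S) :
    TriB PP.cur (nearL (h0 * 0) 3 κ (h0 * x) (tbl tKN x) (tbl tL x)) 2 1 3 3 1 (-1) (-1) :=
  (sideN hx hx').nearB (Or.inr rfl) (Or.inr rfl) fun y y' F =>
    nearB_cert (s1 := false) (s2 := false) rfl hκ covN32 covN13 hx hx'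
        Pool.Agent.Strip051.G.I1_16_1_8.Tab.C.NB31.c_mm_213 noCut_B noExt_B F trivial trivial

theorem NB31_mm_303 {κ x : ℝ} (hκ : κ * h0 = ken x) (hx : ((67108864 : ℕ) : ℝ) / S ≤ x) (hx' : x ≤ (((67108864 : ℕ) : ℝ) + (67108864 : ℕ)) / S) :
    TriB PP.cur (nearL (h0 * 0) 3 κ (h0 * x) (tbl tKN x) (tbl tL x)) 3 0 3 3 1 (-1) (-1) :=
  (sideN hx hx').nearB (Or.inr rfl) (Or.inr rfl) fun y y' F =>
    nearB_cert (s1 := false) (s2 := false) rfl hκ covN33 covN13 hx hx'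
        Pool.Agent.Strip051.G.I1_16_1_8.Tab.C.NB31.c_mm_303 noCut_B noExt_B F trivial trivial

theorem NB31_mm_313 {κ x : ℝ} (hκ : κ * h0 = ken x) (hx : ((67108864 : ℕ) : ℝ) / S ≤ x) (hx' : x ≤ (((67108864 : ℕ) : ℝ) + (67108864 : ℕ)) / S) :
    TriB PP.cur (nearL (h0 * 0) 3 κ (h0 * x) (tbl tKN x) (tbl tL x)) 3 1 3 3 1 (-1) (-1) :=
  (sideN hx hx').nearB (Or.inr rfl) (Or.inr rfl) fun y y' F =>
    nearB_cert (s1 := false) (s2 := false) rfl hκ covN33 covN13 hx hx'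
        Pool.Agent.Strip051.G.I1_16_1_8.Tab.C.NB31.c_mm_313 noCut_B noExt_B F trivial trivial

theorem NB31 {κ x : ℝ} (hκ : κ * h0 = ken x) (hx : ((67108864 : ℕ) : ℝ) / S ≤ x) (hx' : x ≤ (((67108864 : ℕ) : ℝ) + (67108864 : ℕ)) / S) : AllTB PP.cur (nearL (h0 * 0) 3 κ (h0 * x) (tbl tKN x) (tbl tL x)) 3 1 where
  pp := all17 (Q := fun a b c => TriB PP.cur (nearL (h0 * 0) 3 κ (h0 * x) (tbl tKN x) (tbl tL x)) a b c 3 1 1 1)
    (NB31_pp_001 hκ hx hx') (NB31_pp_011 hκ hx hx') (NB31_pp_012 hκ hx hx') (NB31_pp_022 hκ hx hx') (NB31_pp_023 hκ hx hx') (NB31_pp_033 hκ hx hx') (NB31_pp_101 hκ hx hx') (NB31_pp_102 hκ hx hx') (NB31_pp_112 hκ hx hx') (NB31_pp_113 hκ hx hx') (NB31_pp_123 hκ hx hx') (NB31_pp_133 hκ hx hx') (NB31_pp_202 hκ hx hx') (NB31_pp_203 hκ hx hx') (NB31_pp_213 hκ hx hx') (NB31_pp_303 hκ hx hx') (NB31_pp_313 hκ hx hx')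
  pm := all17 (Q := fun a b c => TriB PP.cur (nearL (h0 * 0) 3 κ (h0 * x) (tbl tKN x) (tbl tL x)) a b c 3 1 1 (-1))
    (NB31_pm_001 hκ hx hx') (NB31_pm_011 hκ hx hx') (NB31_pm_012 hκ hx hx') (NB31_pm_022 hκ hx hx') (NB31_pm_023 hκ hx hx') (NB31_pm_033 hκ hx hx') (NB31_pm_101 hκ hx hx') (NB31_pm_102 hκ hx hx') (NB31_pm_112 hκ hx hx') (NB31_pm_113 hκ hx hx') (NB31_pm_123 hκ hx hx') (NB31_pm_133 hκ hx hx') (NB31_pm_202 hκ hx hx') (NB31_pm_203 hκ hx hx') (NB31_pm_213 hκ hx hx') (NB31_pm_303 hκ hx hx') (NB31_pm_313 hκ hx hx')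
  mm := all17 (Q := fun a b c => TriB PP.cur (nearL (h0 * 0) 3 κ (h0 * x) (tbl tKN x) (tbl tL x)) a b c 3 1 (-1) (-1))
    (NB31_mm_001 hκ hx hx') (NB31_mm_011 hκ hx hx') (NB31_mm_012 hκ hx hx') (NB31_mm_022 hκ hx hx') (NB31_mm_023 hκ hx hx') (NB31_mm_033 hκ hx hx') (NB31_mm_101 hκ hx hx') (NB31_mm_102 hκ hx hx') (NB31_mm_112 hκ hx hx') (NB31_mm_113 hκ hx hx') (NB31_mm_123 hκ hx hx') (NB31_mm_133 hκ hx hx') (NB31_mm_202 hκ hx hx') (NB31_mm_203 hκ hx hx') (NB31_mm_213 hκ hx hx') (NB31_mm_303 hκ hx hx') (NB31_mm_313 hκ hx hx')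

theorem NB32_pp_001 {κ x : ℝ} (hκ : κ * h0 = ken x) (hx : ((67108864 : ℕ) : ℝ) / S ≤ x) (hx' : x ≤ (((67108864 : ℕ) : ℝ) + (67108864 : ℕ)) / S) :
    TriB PP.cur (nearL (h0 * 0) 3 κ (h0 * x) (tbl tKN x) (tbl tL x)) 0 0 1 3 2 1 1 :=
  (sideN hx hx').nearB (Or.inl rfl) (Or.inl rfl) fun y y' F =>
    nearB_cert (s1 := true) (s2 := true) rfl hκ covN30 covN21 hx hx'
        Pool.Agent.Strip051.G.I1_16_1_8.Tab.C.NB32.c_pp_001 noCut_B noExt_B F trivial trivial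

theorem NB32_pp_011 {κ x : ℝ} (hκ : κ * h0 = ken x) (hx : ((67108864 : ℕ) : ℝ) / S ≤ x) (hx' : x ≤ (((67108864 : ℕ) : ℝ) + (67108864 : ℕ)) / S) :
    TriB PP.cur (nearL (h0 * 0) 3 κ (h0 * x) (tbl tKN x) (tbl tL x)) 0 1 1 3 2 1 1 :=
  (sideN hx hx').nearB (Or.inl rfl) (Or.inl rfl) fun y y' F =>
    nearB_cert (s1 := true) (s2 := true) rfl hκ covN30 covN21 hx hx'
        Pool.Agent.Strip051.G.I1_16_1_8.Tab.C.NB32.c_pp_011 noCut_B noExt_B F trivial trivial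

theorem NB32_pp_012 {κ x : ℝ} (hκ : κ * h0 = ken x) (hx : ((67108864 : ℕ) : ℝ) / S ≤ x) (hx' : x ≤ (((67108864 : ℕ) : ℝ) + (67108864 : ℕ)) / S) :
    TriB PP.cur (nearL (h0 * 0) 3 κ (h0 * x) (tbl tKN x) (tbl tL x)) 0 1 2 3 2 1 1 :=
  (sideN hx hx').nearB (Or.inl rfl) (Or.inl rfl) fun y y' F =>
    (lt_or_ge (h0 * (y + y')) 1).elim
      (fun g => nearB_cert (s1 := true) (s2 := true) rfl hκ covN30 covN22a hx hx'
        Pool.Agent.Strip051.G.I1_16_1_8.Tab.C.NB32.c_pp_012_a noCut_B noExt_B F trivial g)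
      (fun g => nearB_cert (s1 := true) (s2 := true) rfl hκ covN30 covN22b hx hx'
        Pool.Agent.Strip051.G.I1_16_1_8.Tab.C.NB32.c_pp_012_b noCut_B noExt_B F trivial g)

theorem NB32_pp_022 {κ x : ℝ} (hκ : κ * h0 = ken x) (hx : ((67108864 : ℕ) : ℝ) / S ≤ x) (hx' : x ≤ (((67108864 : ℕ) : ℝ) + (67108864 : ℕ)) / S) :
    TriB PP.cur (nearL (h0 * 0) 3 κ (h0 * x) (tbl tKN x) (tbl tL x)) 0 2 2 3 2 1 1 :=
  (sideN hx hx').nearB (Or.inl rfl) (Or.inl rfl) fun y y' F =>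
    (lt_or_ge (h0 * (y + y')) 1).elim
      (fun g => nearB_cert (s1 := true) (s2 := true) rfl hκ covN30 covN22a hx hx'
        Pool.Agent.Strip051.G.I1_16_1_8.Tab.C.NB32.c_pp_022_a noCut_B noExt_B F trivial g)
      (fun g => nearB_cert (s1 := true) (s2 := true) rfl hκ covN30 covN22b hx hx'
        Pool.Agent.Strip051.G.I1_16_1_8.Tab.C.NB32.c_pp_022_b noCut_B noExt_B F trivial g)

theorem NB32_pp_023 {κ x : ℝ} (hκ : κ * h0 = ken x) (hx : ((67108864 : ℕ) : ℝ) / S ≤ x) (hx' : x ≤ (((67108864 : ℕ) : ℝ) + (67108864 : ℕ)) / S) :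
    TriB PP.cur (nearL (h0 * 0) 3 κ (h0 * x) (tbl tKN x) (tbl tL x)) 0 2 3 3 2 1 1 :=
  (sideN hx hx').nearB (Or.inl rfl) (Or.inl rfl) fun y y' F =>
    nearB_cert (s1 := true) (s2 := true) rfl hκ covN30 covN23 hx hx'
        Pool.Agent.Strip051.G.I1_16_1_8.Tab.C.NB32.c_pp_023 noCut_B noExt_B F trivial trivial

theorem NB32_pp_033 {κ x : ℝ} (hκ : κ * h0 = ken x) (hx : ((67108864 : ℕ) : ℝ) / S ≤ x) (hx' : x ≤ (((67108864 : ℕ) : ℝ) + (67108864 : ℕ)) / S) :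
    TriB PP.cur (nearL (h0 * 0) 3 κ (h0 * x) (tbl tKN x) (tbl tL x)) 0 3 3 3 2 1 1 :=
  (sideN hx hx').nearB (Or.inl rfl) (Or.inl rfl) fun y y' F =>
    nearB_cert (s1 := true) (s2 := true) rfl hκ covN30 covN23 hx hx'
        Pool.Agent.Strip051.G.I1_16_1_8.Tab.C.NB32.c_pp_033 noCut_B noExt_B F trivial trivial

theorem NB32_pp_101 {κ x : ℝ} (hκ : κ * h0 = ken x) (hx : ((67108864 : ℕ) : ℝ) / S ≤ x) (hx' : x ≤ (((67108864 : ℕ) : ℝ) + (67108864 : ℕ)) / S) :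
    TriB PP.cur (nearL (h0 * 0) 3 κ (h0 * x) (tbl tKN x) (tbl tL x)) 1 0 1 3 2 1 1 :=
  (sideN hx hx').nearB (Or.inl rfl) (Or.inl rfl) fun y y' F =>
    nearB_cert (s1 := true) (s2 := true) rfl hκ covN31 covN21 hx hx'
        Pool.Agent.Strip051.G.I1_16_1_8.Tab.C.NB32.c_pp_101 noCut_B noExt_B F trivial trivial

theorem NB32_pp_102 {κ x : ℝ} (hκ : κ * h0 = ken x) (hx : ((67108864 : ℕ) : ℝ) / S ≤ x) (hx' : x ≤ (((67108864 : ℕ) : ℝ) + (67108864 : ℕ)) / S) :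
    TriB PP.cur (nearL (h0 * 0) 3 κ (h0 * x) (tbl tKN x) (tbl tL x)) 1 0 2 3 2 1 1 :=
  (sideN hx hx').nearB (Or.inl rfl) (Or.inl rfl) fun y y' F =>
    (lt_or_ge (h0 * (y + y')) 1).elim
      (fun g => nearB_cert (s1 := true) (s2 := true) rfl hκ covN31 covN22a hx hx'
        Pool.Agent.Strip051.G.I1_16_1_8.Tab.C.NB32.c_pp_102_a (cutB_cons (Pool.Agent.Strip051.G.I1_16_1_8.Tab.altN_B102L_32 hκ hx hx') cutB_nil) noExt_B F trivial g)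
      (fun g => nearB_cert (s1 := true) (s2 := true) rfl hκ covN31 covN22b hx hx'
        Pool.Agent.Strip051.G.I1_16_1_8.Tab.C.NB32.c_pp_102_b (cutB_cons (Pool.Agent.Strip051.G.I1_16_1_8.Tab.altN_B102L_32 hκ hx hx') cutB_nil) noExt_B F trivial g)

theorem NB32_pp_112 {κ x : ℝ} (hκ : κ * h0 = ken x) (hx : ((67108864 : ℕ) : ℝ) / S ≤ x) (hx' : x ≤ (((67108864 : ℕ) : ℝ) + (67108864 : ℕ)) / S) :
    TriB PP.cur (nearL (h0 * 0) 3 κ (h0 * x) (tbl tKN x) (tbl tL x)) 1 1 2 3 2 1 1 :=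
  (sideN hx hx').nearB (Or.inl rfl) (Or.inl rfl) fun y y' F =>
    (lt_or_ge (h0 * (y + y')) 1).elim
      (fun g => nearB_cert (s1 := true) (s2 := true) rfl hκ covN31 covN22a hx hx'
        Pool.Agent.Strip051.G.I1_16_1_8.Tab.C.NB32.c_pp_112_a noCut_B noExt_B F trivial g)
      (fun g => nearB_cert (s1 := true) (s2 := true) rfl hκ covN31 covN22b hx hx'
        Pool.Agent.Strip051.G.I1_16_1_8.Tab.C.NB32.c_pp_112_b noCut_B noExt_B F trivial g)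

theorem NB32_pp_113 {κ x : ℝ} (hκ : κ * h0 = ken x) (hx : ((67108864 : ℕ) : ℝ) / S ≤ x) (hx' : x ≤ (((67108864 : ℕ) : ℝ) + (67108864 : ℕ)) / S) :
    TriB PP.cur (nearL (h0 * 0) 3 κ (h0 * x) (tbl tKN x) (tbl tL x)) 1 1 3 3 2 1 1 :=
  (sideN hx hx').nearB (Or.inl rfl) (Or.inl rfl) fun y y' F =>
    nearB_cert (s1 := true) (s2 := true) rfl hκ covN31 covN23 hx hx'
        Pool.Agent.Strip051.G.I1_16_1_8.Tab.C.NB32.c_pp_113 noCut_B noExt_B F trivial trivial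

theorem NB32_pp_123 {κ x : ℝ} (hκ : κ * h0 = ken x) (hx : ((67108864 : ℕ) : ℝ) / S ≤ x) (hx' : x ≤ (((67108864 : ℕ) : ℝ) + (67108864 : ℕ)) / S) :
    TriB PP.cur (nearL (h0 * 0) 3 κ (h0 * x) (tbl tKN x) (tbl tL x)) 1 2 3 3 2 1 1 :=
  (sideN hx hx').nearB (Or.inl rfl) (Or.inl rfl) fun y y' F =>
    nearB_cert (s1 := true) (s2 := true) rfl hκ covN31 covN23 hx hx'
        Pool.Agent.Strip051.G.I1_16_1_8.Tab.C.NB32.c_pp_123 noCut_B noExt_B F trivial trivial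

theorem NB32_pp_133 {κ x : ℝ} (hκ : κ * h0 = ken x) (hx : ((67108864 : ℕ) : ℝ) / S ≤ x) (hx' : x ≤ (((67108864 : ℕ) : ℝ) + (67108864 : ℕ)) / S) :
    TriB PP.cur (nearL (h0 * 0) 3 κ (h0 * x) (tbl tKN x) (tbl tL x)) 1 3 3 3 2 1 1 :=
  (sideN hx hx').nearB (Or.inl rfl) (Or.inl rfl) fun y y' F =>
    nearB_cert (s1 := true) (s2 := true) rfl hκ covN31 covN23 hx hx'
        Pool.Agent.Strip051.G.I1_16_1_8.Tab.C.NB32.c_pp_133 noCut_B noExt_B F trivial trivial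

theorem NB32_pp_202 {κ x : ℝ} (hκ : κ * h0 = ken x) (hx : ((67108864 : ℕ) : ℝ) / S ≤ x) (hx' : x ≤ (((67108864 : ℕ) : ℝ) + (67108864 : ℕ)) / S) :
    TriB PP.cur (nearL (h0 * 0) 3 κ (h0 * x) (tbl tKN x) (tbl tL x)) 2 0 2 3 2 1 1 :=
  (sideN hx hx').nearB (Or.inl rfl) (Or.inl rfl) fun y y' F =>
    (lt_or_ge (h0 * (y + y')) 1).elim
      (fun g => nearB_cert (s1 := true) (s2 := true) rfl hκ covN32 covN22a hx hx'
        Pool.Agent.Strip051.G.I1_16_1_8.Tab.C.NB32.c_pp_202_a noCut_B noExt_B F trivial g)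
      (fun g => nearB_cert (s1 := true) (s2 := true) rfl hκ covN32 covN22b hx hx'
        Pool.Agent.Strip051.G.I1_16_1_8.Tab.C.NB32.c_pp_202_b noCut_B noExt_B F trivial g)

theorem NB32_pp_203 {κ x : ℝ} (hκ : κ * h0 = ken x) (hx : ((67108864 : ℕ) : ℝ) / S ≤ x) (hx' : x ≤ (((67108864 : ℕ) : ℝ) + (67108864 : ℕ)) / S) :
    TriB PP.cur (nearL (h0 * 0) 3 κ (h0 * x) (tbl tKN x) (tbl tL x)) 2 0 3 3 2 1 1 :=
  (sideN hx hx').nearB (Or.inl rfl) (Or.inl rfl) fun y y' F =>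
    nearB_cert (s1 := true) (s2 := true) rfl hκ covN32 covN23 hx hx'
        Pool.Agent.Strip051.G.I1_16_1_8.Tab.C.NB32.c_pp_203 noCut_B noExt_B F trivial trivial

theorem NB32_pp_213 {κ x : ℝ} (hκ : κ * h0 = ken x) (hx : ((67108864 : ℕ) : ℝ) / S ≤ x) (hx' : x ≤ (((67108864 : ℕ) : ℝ) + (67108864 : ℕ)) / S) :
    TriB PP.cur (nearL (h0 * 0) 3 κ (h0 * x) (tbl tKN x) (tbl tL x)) 2 1 3 3 2 1 1 :=
  (sideN hx hx').nearB (Or.inl rfl) (Or.inl rfl) fun y y' F =>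
    nearB_cert (s1 := true) (s2 := true) rfl hκ covN32 covN23 hx hx'
        Pool.Agent.Strip051.G.I1_16_1_8.Tab.C.NB32.c_pp_213 noCut_B noExt_B F trivial trivial

theorem NB32_pp_303 {κ x : ℝ} (hκ : κ * h0 = ken x) (hx : ((67108864 : ℕ) : ℝ) / S ≤ x) (hx' : x ≤ (((67108864 : ℕ) : ℝ) + (67108864 : ℕ)) / S) :
    TriB PP.cur (nearL (h0 * 0) 3 κ (h0 * x) (tbl tKN x) (tbl tL x)) 3 0 3 3 2 1 1 :=
  (sideN hx hx').nearB (Or.inl rfl) (Or.inl rfl) fun y y' F =>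
    nearB_cert (s1 := true) (s2 := true) rfl hκ covN33 covN23 hx hx'
        Pool.Agent.Strip051.G.I1_16_1_8.Tab.C.NB32.c_pp_303 noCut_B noExt_B F trivial trivial

theorem NB32_pp_313 {κ x : ℝ} (hκ : κ * h0 = ken x) (hx : ((67108864 : ℕ) : ℝ) / S ≤ x) (hx' : x ≤ (((67108864 : ℕ) : ℝ) + (67108864 : ℕ)) / S) :
    TriB PP.cur (nearL (h0 * 0) 3 κ (h0 * x) (tbl tKN x) (tbl tL x)) 3 1 3 3 2 1 1 :=
  (sideN hx hx').nearB (Or.inl rfl) (Or.inl rfl) fun y y' F =>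
    nearB_cert (s1 := true) (s2 := true) rfl hκ covN33 covN23 hx hx'
        Pool.Agent.Strip051.G.I1_16_1_8.Tab.C.NB32.c_pp_313 noCut_B noExt_B F trivial trivial

theorem NB32_pm_001 {κ x : ℝ} (hκ : κ * h0 = ken x) (hx : ((67108864 : ℕ) : ℝ) / S ≤ x) (hx' : x ≤ (((67108864 : ℕ) : ℝ) + (67108864 : ℕ)) / S) :
    TriB PP.cur (nearL (h0 * 0) 3 κ (h0 * x) (tbl tKN x) (tbl tL x)) 0 0 1 3 2 1 (-1) :=
  (sideN hx hx').nearB (Or.inl rfl) (Or.inr rfl) fun y y' F =>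
    nearB_cert (s1 := true) (s2 := false) rfl hκ covN30 covN21 hx hx'
        Pool.Agent.Strip051.G.I1_16_1_8.Tab.C.NB32.c_pm_001 noCut_B noExt_B F trivial trivial

theorem NB32_pm_011 {κ x : ℝ} (hκ : κ * h0 = ken x) (hx : ((67108864 : ℕ) : ℝ) / S ≤ x) (hx' : x ≤ (((67108864 : ℕ) : ℝ) + (67108864 : ℕ)) / S) :
    TriB PP.cur (nearL (h0 * 0) 3 κ (h0 * x) (tbl tKN x) (tbl tL x)) 0 1 1 3 2 1 (-1) :=
  (sideN hx hx').nearB (Or.inl rfl) (Or.inr rfl) fun y y' F =>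
    nearB_cert (s1 := true) (s2 := false) rfl hκ covN30 covN21 hx hx'
        Pool.Agent.Strip051.G.I1_16_1_8.Tab.C.NB32.c_pm_011 noCut_B noExt_B F trivial trivial

theorem NB32_pm_012 {κ x : ℝ} (hκ : κ * h0 = ken x) (hx : ((67108864 : ℕ) : ℝ) / S ≤ x) (hx' : x ≤ (((67108864 : ℕ) : ℝ) + (67108864 : ℕ)) / S) :
    TriB PP.cur (nearL (h0 * 0) 3 κ (h0 * x) (tbl tKN x) (tbl tL x)) 0 1 2 3 2 1 (-1) :=
  (sideN hx hx').nearB (Or.inl rfl) (Or.inr rfl) fun y y' F =>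
    (lt_or_ge (h0 * (y + y')) 1).elim
      (fun g => nearB_cert (s1 := true) (s2 := false) rfl hκ covN30 covN22a hx hx'
        Pool.Agent.Strip051.G.I1_16_1_8.Tab.C.NB32.c_pm_012_a noCut_B noExt_B F trivial g)
      (fun g => nearB_cert (s1 := true) (s2 := false) rfl hκ covN30 covN22b hx hx'
        Pool.Agent.Strip051.G.I1_16_1_8.Tab.C.NB32.c_pm_012_b noCut_B noExt_B F trivial g)

theorem NB32_pm_022 {κ x : ℝ} (hκ : κ * h0 = ken x) (hx : ((67108864 : ℕ) : ℝ) / S ≤ x) (hx' : x ≤ (((67108864 : ℕ) : ℝ) + (67108864 : ℕ)) / S) :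
    TriB PP.cur (nearL (h0 * 0) 3 κ (h0 * x) (tbl tKN x) (tbl tL x)) 0 2 2 3 2 1 (-1) :=
  (sideN hx hx').nearB (Or.inl rfl) (Or.inr rfl) fun y y' F =>
    (lt_or_ge (h0 * (y + y')) 1).elim
      (fun g => nearB_cert (s1 := true) (s2 := false) rfl hκ covN30 covN22a hx hx'
        Pool.Agent.Strip051.G.I1_16_1_8.Tab.C.NB32.c_pm_022_a noCut_B noExt_B F trivial g)
      (fun g => nearB_cert (s1 := true) (s2 := false) rfl hκ covN30 covN22b hx hx'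
        Pool.Agent.Strip051.G.I1_16_1_8.Tab.C.NB32.c_pm_022_b noCut_B noExt_B F trivial g)

theorem NB32_pm_023 {κ x : ℝ} (hκ : κ * h0 = ken x) (hx : ((67108864 : ℕ) : ℝ) / S ≤ x) (hx' : x ≤ (((67108864 : ℕ) : ℝ) + (67108864 : ℕ)) / S) :
    TriB PP.cur (nearL (h0 * 0) 3 κ (h0 * x) (tbl tKN x) (tbl tL x)) 0 2 3 3 2 1 (-1) :=
  (sideN hx hx').nearB (Or.inl rfl) (Or.inr rfl) fun y y' F =>
    nearB_cert (s1 := true) (s2 := false) rfl hκ covN30 covN23 hx hx'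
        Pool.Agent.Strip051.G.I1_16_1_8.Tab.C.NB32.c_pm_023 noCut_B noExt_B F trivial trivial

theorem NB32_pm_033 {κ x : ℝ} (hκ : κ * h0 = ken x) (hx : ((67108864 : ℕ) : ℝ) / S ≤ x) (hx' : x ≤ (((67108864 : ℕ) : ℝ) + (67108864 : ℕ)) / S) :
    TriB PP.cur (nearL (h0 * 0) 3 κ (h0 * x) (tbl tKN x) (tbl tL x)) 0 3 3 3 2 1 (-1) :=
  (sideN hx hx').nearB (Or.inl rfl) (Or.inr rfl) fun y y' F =>
    nearB_cert (s1 := true) (s2 := false) rfl hκ covN30 covN23 hx hx'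
        Pool.Agent.Strip051.G.I1_16_1_8.Tab.C.NB32.c_pm_033 noCut_B noExt_B F trivial trivial

theorem NB32_pm_101 {κ x : ℝ} (hκ : κ * h0 = ken x) (hx : ((67108864 : ℕ) : ℝ) / S ≤ x) (hx' : x ≤ (((67108864 : ℕ) : ℝ) + (67108864 : ℕ)) / S) :
    TriB PP.cur (nearL (h0 * 0) 3 κ (h0 * x) (tbl tKN x) (tbl tL x)) 1 0 1 3 2 1 (-1) :=
  (sideN hx hx').nearB (Or.inl rfl) (Or.inr rfl) fun y y' F =>
    nearB_cert (s1 := true) (s2 := false) rfl hκ covN31 covN21 hx hx'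
        Pool.Agent.Strip051.G.I1_16_1_8.Tab.C.NB32.c_pm_101 noCut_B noExt_B F trivial trivial

theorem NB32_pm_102 {κ x : ℝ} (hκ : κ * h0 = ken x) (hx : ((67108864 : ℕ) : ℝ) / S ≤ x) (hx' : x ≤ (((67108864 : ℕ) : ℝ) + (67108864 : ℕ)) / S) :
    TriB PP.cur (nearL (h0 * 0) 3 κ (h0 * x) (tbl tKN x) (tbl tL x)) 1 0 2 3 2 1 (-1) :=
  (sideN hx hx').nearB (Or.inl rfl) (Or.inr rfl) fun y y' F =>
    (lt_or_ge (h0 * (y + y')) 1).elim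
      (fun g => nearB_cert (s1 := true) (s2 := false) rfl hκ covN31 covN22a hx hx'
        Pool.Agent.Strip051.G.I1_16_1_8.Tab.C.NB32.c_pm_102_a noCut_B noExt_B F trivial g)
      (fun g => nearB_cert (s1 := true) (s2 := false) rfl hκ covN31 covN22b hx hx'
        Pool.Agent.Strip051.G.I1_16_1_8.Tab.C.NB32.c_pm_102_b noCut_B noExt_B F trivial g)

theorem NB32_pm_112 {κ x : ℝ} (hκ : κ * h0 = ken x) (hx : ((67108864 : ℕ) : ℝ) / S ≤ x) (hx' : x ≤ (((67108864 : ℕ) : ℝ) + (67108864 : ℕ)) / S) :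
    TriB PP.cur (nearL (h0 * 0) 3 κ (h0 * x) (tbl tKN x) (tbl tL x)) 1 1 2 3 2 1 (-1) :=
  (sideN hx hx').nearB (Or.inl rfl) (Or.inr rfl) fun y y' F =>
    (lt_or_ge (h0 * (y + y')) 1).elim
      (fun g => nearB_cert (s1 := true) (s2 := false) rfl hκ covN31 covN22a hx hx'
        Pool.Agent.Strip051.G.I1_16_1_8.Tab.C.NB32.c_pm_112_a noCut_B noExt_B F trivial g)
      (fun g => nearB_cert (s1 := true) (s2 := false) rfl hκ covN31 covN22b hx hx'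
        Pool.Agent.Strip051.G.I1_16_1_8.Tab.C.NB32.c_pm_112_b noCut_B noExt_B F trivial g)

theorem NB32_pm_113 {κ x : ℝ} (hκ : κ * h0 = ken x) (hx : ((67108864 : ℕ) : ℝ) / S ≤ x) (hx' : x ≤ (((67108864 : ℕ) : ℝ) + (67108864 : ℕ)) / S) :
    TriB PP.cur (nearL (h0 * 0) 3 κ (h0 * x) (tbl tKN x) (tbl tL x)) 1 1 3 3 2 1 (-1) :=
  (sideN hx hx').nearB (Or.inl rfl) (Or.inr rfl) fun y y' F =>
    nearB_cert (s1 := true) (s2 := false) rfl hκ covN31 covN23 hx hx'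
        Pool.Agent.Strip051.G.I1_16_1_8.Tab.C.NB32.c_pm_113 noCut_B noExt_B F trivial trivial

theorem NB32_pm_123 {κ x : ℝ} (hκ : κ * h0 = ken x) (hx : ((67108864 : ℕ) : ℝ) / S ≤ x) (hx' : x ≤ (((67108864 : ℕ) : ℝ) + (67108864 : ℕ)) / S) :
    TriB PP.cur (nearL (h0 * 0) 3 κ (h0 * x) (tbl tKN x) (tbl tL x)) 1 2 3 3 2 1 (-1) :=
  (sideN hx hx').nearB (Or.inl rfl) (Or.inr rfl) fun y y' F =>
    nearB_cert (s1 := true) (s2 := false) rfl hκ covN31 covN23 hx hx'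
        Pool.Agent.Strip051.G.I1_16_1_8.Tab.C.NB32.c_pm_123 noCut_B noExt_B F trivial trivial

theorem NB32_pm_133 {κ x : ℝ} (hκ : κ * h0 = ken x) (hx : ((67108864 : ℕ) : ℝ) / S ≤ x) (hx' : x ≤ (((67108864 : ℕ) : ℝ) + (67108864 : ℕ)) / S) :
    TriB PP.cur (nearL (h0 * 0) 3 κ (h0 * x) (tbl tKN x) (tbl tL x)) 1 3 3 3 2 1 (-1) :=
  (sideN hx hx').nearB (Or.inl rfl) (Or.inr rfl) fun y y' F =>
    nearB_cert (s1 := true) (s2 := false) rfl hκ covN31 covN23 hx hx'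
        Pool.Agent.Strip051.G.I1_16_1_8.Tab.C.NB32.c_pm_133 noCut_B noExt_B F trivial trivial

theorem NB32_pm_202 {κ x : ℝ} (hκ : κ * h0 = ken x) (hx : ((67108864 : ℕ) : ℝ) / S ≤ x) (hx' : x ≤ (((67108864 : ℕ) : ℝ) + (67108864 : ℕ)) / S) :
    TriB PP.cur (nearL (h0 * 0) 3 κ (h0 * x) (tbl tKN x) (tbl tL x)) 2 0 2 3 2 1 (-1) :=
  (sideN hx hx').nearB (Or.inl rfl) (Or.inr rfl) fun y y' F =>
    (lt_or_ge (h0 * (y + y')) 1).elim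
      (fun g => nearB_cert (s1 := true) (s2 := false) rfl hκ covN32 covN22a hx hx'
        Pool.Agent.Strip051.G.I1_16_1_8.Tab.C.NB32.c_pm_202_a noCut_B noExt_B F trivial g)
      (fun g => nearB_cert (s1 := true) (s2 := false) rfl hκ covN32 covN22b hx hx'
        Pool.Agent.Strip051.G.I1_16_1_8.Tab.C.NB32.c_pm_202_b noCut_B noExt_B F trivial g)

theorem NB32_pm_203 {κ x : ℝ} (hκ : κ * h0 = ken x) (hx : ((67108864 : ℕ) : ℝ) / S ≤ x) (hx' : x ≤ (((67108864 : ℕ) : ℝ) + (67108864 : ℕ)) / S) :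
    TriB PP.cur (nearL (h0 * 0) 3 κ (h0 * x) (tbl tKN x) (tbl tL x)) 2 0 3 3 2 1 (-1) :=
  (sideN hx hx').nearB (Or.inl rfl) (Or.inr rfl) fun y y' F =>
    nearB_cert (s1 := true) (s2 := false) rfl hκ covN32 covN23 hx hx'
        Pool.Agent.Strip051.G.I1_16_1_8.Tab.C.NB32.c_pm_203 noCut_B noExt_B F trivial trivial

theorem NB32_pm_213 {κ x : ℝ} (hκ : κ * h0 = ken x) (hx : ((67108864 : ℕ) : ℝ) / S ≤ x) (hx' : x ≤ (((67108864 : ℕ) : ℝ) + (67108864 : ℕ)) / S) :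
    TriB PP.cur (nearL (h0 * 0) 3 κ (h0 * x) (tbl tKN x) (tbl tL x)) 2 1 3 3 2 1 (-1) :=
  (sideN hx hx').nearB (Or.inl rfl) (Or.inr rfl) fun y y' F =>
    nearB_cert (s1 := true) (s2 := false) rfl hκ covN32 covN23 hx hx'
        Pool.Agent.Strip051.G.I1_16_1_8.Tab.C.NB32.c_pm_213 noCut_B noExt_B F trivial trivial

theorem NB32_pm_303 {κ x : ℝ} (hκ : κ * h0 = ken x) (hx : ((67108864 : ℕ) : ℝ) / S ≤ x) (hx' : x ≤ (((67108864 : ℕ) : ℝ) + (67108864 : ℕ)) / S) :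
    TriB PP.cur (nearL (h0 * 0) 3 κ (h0 * x) (tbl tKN x) (tbl tL x)) 3 0 3 3 2 1 (-1) :=
  (sideN hx hx').nearB (Or.inl rfl) (Or.inr rfl) fun y y' F =>
    nearB_cert (s1 := true) (s2 := false) rfl hκ covN33 covN23 hx hx'
        Pool.Agent.Strip051.G.I1_16_1_8.Tab.C.NB32.c_pm_303 noCut_B noExt_B F trivial trivial

theorem NB32_pm_313 {κ x : ℝ} (hκ : κ * h0 = ken x) (hx : ((67108864 : ℕ) : ℝ) / S ≤ x) (hx' : x ≤ (((67108864 : ℕ) : ℝ) + (67108864 : ℕ)) / S) :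
    TriB PP.cur (nearL (h0 * 0) 3 κ (h0 * x) (tbl tKN x) (tbl tL x)) 3 1 3 3 2 1 (-1) :=
  (sideN hx hx').nearB (Or.inl rfl) (Or.inr rfl) fun y y' F =>
    nearB_cert (s1 := true) (s2 := false) rfl hκ covN33 covN23 hx hx'
        Pool.Agent.Strip051.G.I1_16_1_8.Tab.C.NB32.c_pm_313 noCut_B noExt_B F trivial trivial

theorem NB32_mm_001 {κ x : ℝ} (hκ : κ * h0 = ken x) (hx : ((67108864 : ℕ) : ℝ) / S ≤ x) (hx' : x ≤ (((67108864 : ℕ) : ℝ) + (67108864 : ℕ)) / S) :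
    TriB PP.cur (nearL (h0 * 0) 3 κ (h0 * x) (tbl tKN x) (tbl tL x)) 0 0 1 3 2 (-1) (-1) :=
  (sideN hx hx').nearB (Or.inr rfl) (Or.inr rfl) fun y y' F =>
    nearB_cert (s1 := false) (s2 := false) rfl hκ covN30 covN21 hx hx'
        Pool.Agent.Strip051.G.I1_16_1_8.Tab.C.NB32.c_mm_001 noCut_B noExt_B F trivial trivial

theorem NB32_mm_011 {κ x : ℝ} (hκ : κ * h0 = ken x) (hx : ((67108864 : ℕ) : ℝ) / S ≤ x) (hx' : x ≤ (((67108864 : ℕ) : ℝ) + (67108864 : ℕ)) / S) :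
    TriB PP.cur (nearL (h0 * 0) 3 κ (h0 * x) (tbl tKN x) (tbl tL x)) 0 1 1 3 2 (-1) (-1) :=
  (sideN hx hx').nearB (Or.inr rfl) (Or.inr rfl) fun y y' F =>
    nearB_cert (s1 := false) (s2 := false) rfl hκ covN30 covN21 hx hx'
        Pool.Agent.Strip051.G.I1_16_1_8.Tab.C.NB32.c_mm_011 noCut_B noExt_B F trivial trivial

theorem NB32_mm_012 {κ x : ℝ} (hκ : κ * h0 = ken x) (hx : ((67108864 : ℕ) : ℝ) / S ≤ x) (hx' : x ≤ (((67108864 : ℕ) : ℝ) + (67108864 : ℕ)) / S) :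
    TriB PP.cur (nearL (h0 * 0) 3 κ (h0 * x) (tbl tKN x) (tbl tL x)) 0 1 2 3 2 (-1) (-1) :=
  (sideN hx hx').nearB (Or.inr rfl) (Or.inr rfl) fun y y' F =>
    (lt_or_ge (h0 * (y + y')) 1).elim
      (fun g => nearB_cert (s1 := false) (s2 := false) rfl hκ covN30 covN22a hx hx'
        Pool.Agent.Strip051.G.I1_16_1_8.Tab.C.NB32.c_mm_012_a noCut_B noExt_B F trivial g)
      (fun g => nearB_cert (s1 := false) (s2 := false) rfl hκ covN30 covN22b hx hx'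
        Pool.Agent.Strip051.G.I1_16_1_8.Tab.C.NB32.c_mm_012_b noCut_B noExt_B F trivial g)

theorem NB32_mm_022 {κ x : ℝ} (hκ : κ * h0 = ken x) (hx : ((67108864 : ℕ) : ℝ) / S ≤ x) (hx' : x ≤ (((67108864 : ℕ) : ℝ) + (67108864 : ℕ)) / S) :
    TriB PP.cur (nearL (h0 * 0) 3 κ (h0 * x) (tbl tKN x) (tbl tL x)) 0 2 2 3 2 (-1) (-1) :=
  (sideN hx hx').nearB (Or.inr rfl) (Or.inr rfl) fun y y' F =>
    (lt_or_ge (h0 * (y + y')) 1).elim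
      (fun g => nearB_cert (s1 := false) (s2 := false) rfl hκ covN30 covN22a hx hx'
        Pool.Agent.Strip051.G.I1_16_1_8.Tab.C.NB32.c_mm_022_a noCut_B noExt_B F trivial g)
      (fun g => nearB_cert (s1 := false) (s2 := false) rfl hκ covN30 covN22b hx hx'
        Pool.Agent.Strip051.G.I1_16_1_8.Tab.C.NB32.c_mm_022_b noCut_B noExt_B F trivial g)

theorem NB32_mm_023 {κ x : ℝ} (hκ : κ * h0 = ken x) (hx : ((67108864 : ℕ) : ℝ) / S ≤ x) (hx' : x ≤ (((67108864 : ℕ) : ℝ) + (67108864 : ℕ)) / S) :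
    TriB PP.cur (nearL (h0 * 0) 3 κ (h0 * x) (tbl tKN x) (tbl tL x)) 0 2 3 3 2 (-1) (-1) :=
  (sideN hx hx').nearB (Or.inr rfl) (Or.inr rfl) fun y y' F =>
    nearB_cert (s1 := false) (s2 := false) rfl hκ covN30 covN23 hx hx'
        Pool.Agent.Strip051.G.I1_16_1_8.Tab.C.NB32.c_mm_023 noCut_B noExt_B F trivial trivial

theorem NB32_mm_033 {κ x : ℝ} (hκ : κ * h0 = ken x) (hx : ((67108864 : ℕ) : ℝ) / S ≤ x) (hx' : x ≤ (((67108864 : ℕ) : ℝ) + (67108864 : ℕ)) / S) :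
    TriB PP.cur (nearL (h0 * 0) 3 κ (h0 * x) (tbl tKN x) (tbl tL x)) 0 3 3 3 2 (-1) (-1) :=
  (sideN hx hx').nearB (Or.inr rfl) (Or.inr rfl) fun y y' F =>
    nearB_cert (s1 := false) (s2 := false) rfl hκ covN30 covN23 hx hx'
        Pool.Agent.Strip051.G.I1_16_1_8.Tab.C.NB32.c_mm_033 noCut_B noExt_B F trivial trivial

theorem NB32_mm_101 {κ x : ℝ} (hκ : κ * h0 = ken x) (hx : ((67108864 : ℕ) : ℝ) / S ≤ x) (hx' : x ≤ (((67108864 : ℕ) : ℝ) + (67108864 : ℕ)) / S) :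
    TriB PP.cur (nearL (h0 * 0) 3 κ (h0 * x) (tbl tKN x) (tbl tL x)) 1 0 1 3 2 (-1) (-1) :=
  (sideN hx hx').nearB (Or.inr rfl) (Or.inr rfl) fun y y' F =>
    nearB_cert (s1 := false) (s2 := false) rfl hκ covN31 covN21 hx hx'
        Pool.Agent.Strip051.G.I1_16_1_8.Tab.C.NB32.c_mm_101 noCut_B noExt_B F trivial trivial

theorem NB32_mm_102 {κ x : ℝ} (hκ : κ * h0 = ken x) (hx : ((67108864 : ℕ) : ℝ) / S ≤ x) (hx' : x ≤ (((67108864 : ℕ) : ℝ) + (67108864 : ℕ)) / S) :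
    TriB PP.cur (nearL (h0 * 0) 3 κ (h0 * x) (tbl tKN x) (tbl tL x)) 1 0 2 3 2 (-1) (-1) :=
  (sideN hx hx').nearB (Or.inr rfl) (Or.inr rfl) fun y y' F =>
    (lt_or_ge (h0 * (y + y')) 1).elim
      (fun g => nearB_cert (s1 := false) (s2 := false) rfl hκ covN31 covN22a hx hx'
        Pool.Agent.Strip051.G.I1_16_1_8.Tab.C.NB32.c_mm_102_a noCut_B noExt_B F trivial g)
      (fun g => nearB_cert (s1 := false) (s2 := false) rfl hκ covN31 covN22b hx hx'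
        Pool.Agent.Strip051.G.I1_16_1_8.Tab.C.NB32.c_mm_102_b noCut_B noExt_B F trivial g)

theorem NB32_mm_112 {κ x : ℝ} (hκ : κ * h0 = ken x) (hx : ((67108864 : ℕ) : ℝ) / S ≤ x) (hx' : x ≤ (((67108864 : ℕ) : ℝ) + (67108864 : ℕ)) / S) :
    TriB PP.cur (nearL (h0 * 0) 3 κ (h0 * x) (tbl tKN x) (tbl tL x)) 1 1 2 3 2 (-1) (-1) :=
  (sideN hx hx').nearB (Or.inr rfl) (Or.inr rfl) fun y y' F =>
    (lt_or_ge (h0 * (y + y')) 1).elim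
      (fun g => nearB_cert (s1 := false) (s2 := false) rfl hκ covN31 covN22a hx hx'
        Pool.Agent.Strip051.G.I1_16_1_8.Tab.C.NB32.c_mm_112_a noCut_B noExt_B F trivial g)
      (fun g => nearB_cert (s1 := false) (s2 := false) rfl hκ covN31 covN22b hx hx'
        Pool.Agent.Strip051.G.I1_16_1_8.Tab.C.NB32.c_mm_112_b noCut_B noExt_B F trivial g)

theorem NB32_mm_113 {κ x : ℝ} (hκ : κ * h0 = ken x) (hx : ((67108864 : ℕ) : ℝ) / S ≤ x) (hx' : x ≤ (((67108864 : ℕ) : ℝ) + (67108864 : ℕ)) / S) :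
    TriB PP.cur (nearL (h0 * 0) 3 κ (h0 * x) (tbl tKN x) (tbl tL x)) 1 1 3 3 2 (-1) (-1) :=
  (sideN hx hx').nearB (Or.inr rfl) (Or.inr rfl) fun y y' F =>
    nearB_cert (s1 := false) (s2 := false) rfl hκ covN31 covN23 hx hx'
        Pool.Agent.Strip051.G.I1_16_1_8.Tab.C.NB32.c_mm_113 noCut_B noExt_B F trivial trivial

theorem NB32_mm_123 {κ x : ℝ} (hκ : κ * h0 = ken x) (hx : ((67108864 : ℕ) : ℝ) / S ≤ x) (hx' : x ≤ (((67108864 : ℕ) : ℝ) + (67108864 : ℕ)) / S) :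
    TriB PP.cur (nearL (h0 * 0) 3 κ (h0 * x) (tbl tKN x) (tbl tL x)) 1 2 3 3 2 (-1) (-1) :=
  (sideN hx hx').nearB (Or.inr rfl) (Or.inr rfl) fun y y' F =>
    nearB_cert (s1 := false) (s2 := false) rfl hκ covN31 covN23 hx hx'
        Pool.Agent.Strip051.G.I1_16_1_8.Tab.C.NB32.c_mm_123 noCut_B noExt_B F trivial trivial

theorem NB32_mm_133 {κ x : ℝ} (hκ : κ * h0 = ken x) (hx : ((67108864 : ℕ) : ℝ) / S ≤ x) (hx' : x ≤ (((67108864 : ℕ) : ℝ) + (67108864 : ℕ)) / S) :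
    TriB PP.cur (nearL (h0 * 0) 3 κ (h0 * x) (tbl tKN x) (tbl tL x)) 1 3 3 3 2 (-1) (-1) :=
  (sideN hx hx').nearB (Or.inr rfl) (Or.inr rfl) fun y y' F =>
    nearB_cert (s1 := false) (s2 := false) rfl hκ covN31 covN23 hx hx'
        Pool.Agent.Strip051.G.I1_16_1_8.Tab.C.NB32.c_mm_133 noCut_B noExt_B F trivial trivial

theorem NB32_mm_202 {κ x : ℝ} (hκ : κ * h0 = ken x) (hx : ((67108864 : ℕ) : ℝ) / S ≤ x) (hx' : x ≤ (((67108864 : ℕ) : ℝ) + (67108864 : ℕ)) / S) :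
    TriB PP.cur (nearL (h0 * 0) 3 κ (h0 * x) (tbl tKN x) (tbl tL x)) 2 0 2 3 2 (-1) (-1) :=
  (sideN hx hx').nearB (Or.inr rfl) (Or.inr rfl) fun y y' F =>
    (lt_or_ge (h0 * (y + y')) 1).elim
      (fun g => nearB_cert (s1 := false) (s2 := false) rfl hκ covN32 covN22a hx hx'
        Pool.Agent.Strip051.G.I1_16_1_8.Tab.C.NB32.c_mm_202_a noCut_B noExt_B F trivial g)
      (fun g => nearB_cert (s1 := false) (s2 := false) rfl hκ covN32 covN22b hx hx'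
        Pool.Agent.Strip051.G.I1_16_1_8.Tab.C.NB32.c_mm_202_b noCut_B noExt_B F trivial g)

theorem NB32_mm_203 {κ x : ℝ} (hκ : κ * h0 = ken x) (hx : ((67108864 : ℕ) : ℝ) / S ≤ x) (hx' : x ≤ (((67108864 : ℕ) : ℝ) + (67108864 : ℕ)) / S) :
    TriB PP.cur (nearL (h0 * 0) 3 κ (h0 * x) (tbl tKN x) (tbl tL x)) 2 0 3 3 2 (-1) (-1) :=
  (sideN hx hx').nearB (Or.inr rfl) (Or.inr rfl) fun y y' F =>
    nearB_cert (s1 := false) (s2 := false) rfl hκ covN32 covN23 hx hx'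
        Pool.Agent.Strip051.G.I1_16_1_8.Tab.C.NB32.c_mm_203 noCut_B noExt_B F trivial trivial

theorem NB32_mm_213 {κ x : ℝ} (hκ : κ * h0 = ken x) (hx : ((67108864 : ℕ) : ℝ) / S ≤ x) (hx' : x ≤ (((67108864 : ℕ) : ℝ) + (67108864 : ℕ)) / S) :
    TriB PP.cur (nearL (h0 * 0) 3 κ (h0 * x) (tbl tKN x) (tbl tL x)) 2 1 3 3 2 (-1) (-1) :=
  (sideN hx hx').nearB (Or.inr rfl) (Or.inr rfl) fun y y' F =>
    nearB_cert (s1 := false) (s2 := false) rfl hκ covN32 covN23 hx hx'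
        Pool.Agent.Strip051.G.I1_16_1_8.Tab.C.NB32.c_mm_213 noCut_B noExt_B F trivial trivial

theorem NB32_mm_303 {κ x : ℝ} (hκ : κ * h0 = ken x) (hx : ((67108864 : ℕ) : ℝ) / S ≤ x) (hx' : x ≤ (((67108864 : ℕ) : ℝ) + (67108864 : ℕ)) / S) :
    TriB PP.cur (nearL (h0 * 0) 3 κ (h0 * x) (tbl tKN x) (tbl tL x)) 3 0 3 3 2 (-1) (-1) :=
  (sideN hx hx').nearB (Or.inr rfl) (Or.inr rfl) fun y y' F =>
    nearB_cert (s1 := false) (s2 := false) rfl hκ covN33 covN23 hx hx'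
        Pool.Agent.Strip051.G.I1_16_1_8.Tab.C.NB32.c_mm_303 noCut_B noExt_B F trivial trivial

theorem NB32_mm_313 {κ x : ℝ} (hκ : κ * h0 = ken x) (hx : ((67108864 : ℕ) : ℝ) / S ≤ x) (hx' : x ≤ (((67108864 : ℕ) : ℝ) + (67108864 : ℕ)) / S) :
    TriB PP.cur (nearL (h0 * 0) 3 κ (h0 * x) (tbl tKN x) (tbl tL x)) 3 1 3 3 2 (-1) (-1) :=
  (sideN hx hx').nearB (Or.inr rfl) (Or.inr rfl) fun y y' F =>
    nearB_cert (s1 := false) (s2 := false) rfl hκ covN33 covN23 hx hx'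
        Pool.Agent.Strip051.G.I1_16_1_8.Tab.C.NB32.c_mm_313 noCut_B noExt_B F trivial trivial

theorem NB32 {κ x : ℝ} (hκ : κ * h0 = ken x) (hx : ((67108864 : ℕ) : ℝ) / S ≤ x) (hx' : x ≤ (((67108864 : ℕ) : ℝ) + (67108864 : ℕ)) / S) : AllTB PP.cur (nearL (h0 * 0) 3 κ (h0 * x) (tbl tKN x) (tbl tL x)) 3 2 where
  pp := all17 (Q := fun a b c => TriB PP.cur (nearL (h0 * 0) 3 κ (h0 * x) (tbl tKN x) (tbl tL x)) a b c 3 2 1 1)
    (NB32_pp_001 hκ hx hx') (NB32_pp_011 hκ hx hx') (NB32_pp_012 hκ hx hx') (NB32_pp_022 hκ hx hx') (NB32_pp_023 hκ hx hx') (NB32_pp_033 hκ hx hx') (NB32_pp_101 hκ hx hx') (NB32_pp_102 hκ hx hx') (NB32_pp_112 hκ hx hx') (NB32_pp_113 hκ hx hx') (NB32_pp_123 hκ hx hx') (NB32_pp_133 hκ hx hx') (NB32_pp_202 hκ hx hx') (NB32_pp_203 hκ hx hx') (NB32_pp_213 hκ hx hx') (NB32_pp_303 hκ hx hx') (NB32_pp_313 hκ hx hx')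
  pm := all17 (Q := fun a b c => TriB PP.cur (nearL (h0 * 0) 3 κ (h0 * x) (tbl tKN x) (tbl tL x)) a b c 3 2 1 (-1))
    (NB32_pm_001 hκ hx hx') (NB32_pm_011 hκ hx hx') (NB32_pm_012 hκ hx hx') (NB32_pm_022 hκ hx hx') (NB32_pm_023 hκ hx hx') (NB32_pm_033 hκ hx hx') (NB32_pm_101 hκ hx hx') (NB32_pm_102 hκ hx hx') (NB32_pm_112 hκ hx hx') (NB32_pm_113 hκ hx hx') (NB32_pm_123 hκ hx hx') (NB32_pm_133 hκ hx hx') (NB32_pm_202 hκ hx hx') (NB32_pm_203 hκ hx hx') (NB32_pm_213 hκ hx hx') (NB32_pm_303 hκ hx hx') (NB32_pm_313 hκ hx hx')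
  mm := all17 (Q := fun a b c => TriB PP.cur (nearL (h0 * 0) 3 κ (h0 * x) (tbl tKN x) (tbl tL x)) a b c 3 2 (-1) (-1))
    (NB32_mm_001 hκ hx hx') (NB32_mm_011 hκ hx hx') (NB32_mm_012 hκ hx hx') (NB32_mm_022 hκ hx hx') (NB32_mm_023 hκ hx hx') (NB32_mm_033 hκ hx hx') (NB32_mm_101 hκ hx hx') (NB32_mm_102 hκ hx hx') (NB32_mm_112 hκ hx hx') (NB32_mm_113 hκ hx hx') (NB32_mm_123 hκ hx hx') (NB32_mm_133 hκ hx hx') (NB32_mm_202 hκ hx hx') (NB32_mm_203 hκ hx hx') (NB32_mm_213 hκ hx hx') (NB32_mm_303 hκ hx hx') (NB32_mm_313 hκ hx hx')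

theorem NB33_pp_001 {κ x : ℝ} (hκ : κ * h0 = ken x) (hx : ((67108864 : ℕ) : ℝ) / S ≤ x) (hx' : x ≤ (((67108864 : ℕ) : ℝ) + (67108864 : ℕ)) / S) :
    TriB PP.cur (nearL (h0 * 0) 3 κ (h0 * x) (tbl tKN x) (tbl tL x)) 0 0 1 3 3 1 1 :=
  (sideN hx hx').nearB (Or.inl rfl) (Or.inl rfl) fun y y' F =>
    nearB_cert (s1 := true) (s2 := true) rfl hκ covN30 covN31 hx hx'
        Pool.Agent.Strip051.G.I1_16_1_8.Tab.C.NB33.c_pp_001 noCut_B noExt_B F trivial trivial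

theorem NB33_pp_011 {κ x : ℝ} (hκ : κ * h0 = ken x) (hx : ((67108864 : ℕ) : ℝ) / S ≤ x) (hx' : x ≤ (((67108864 : ℕ) : ℝ) + (67108864 : ℕ)) / S) :
    TriB PP.cur (nearL (h0 * 0) 3 κ (h0 * x) (tbl tKN x) (tbl tL x)) 0 1 1 3 3 1 1 :=
  (sideN hx hx').nearB (Or.inl rfl) (Or.inl rfl) fun y y' F =>
    nearB_cert (s1 := true) (s2 := true) rfl hκ covN30 covN31 hx hx'
        Pool.Agent.Strip051.G.I1_16_1_8.Tab.C.NB33.c_pp_011 noCut_B noExt_B F trivial trivial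

theorem NB33_pp_012 {κ x : ℝ} (hκ : κ * h0 = ken x) (hx : ((67108864 : ℕ) : ℝ) / S ≤ x) (hx' : x ≤ (((67108864 : ℕ) : ℝ) + (67108864 : ℕ)) / S) :
    TriB PP.cur (nearL (h0 * 0) 3 κ (h0 * x) (tbl tKN x) (tbl tL x)) 0 1 2 3 3 1 1 :=
  (sideN hx hx').nearB (Or.inl rfl) (Or.inl rfl) fun y y' F =>
    nearB_cert (s1 := true) (s2 := true) rfl hκ covN30 covN32 hx hx'
        Pool.Agent.Strip051.G.I1_16_1_8.Tab.C.NB33.c_pp_012 noCut_B noExt_B F trivial trivial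

theorem NB33_pp_022 {κ x : ℝ} (hκ : κ * h0 = ken x) (hx : ((67108864 : ℕ) : ℝ) / S ≤ x) (hx' : x ≤ (((67108864 : ℕ) : ℝ) + (67108864 : ℕ)) / S) :
    TriB PP.cur (nearL (h0 * 0) 3 κ (h0 * x) (tbl tKN x) (tbl tL x)) 0 2 2 3 3 1 1 :=
  (sideN hx hx').nearB (Or.inl rfl) (Or.inl rfl) fun y y' F =>
    nearB_cert (s1 := true) (s2 := true) rfl hκ covN30 covN32 hx hx'
        Pool.Agent.Strip051.G.I1_16_1_8.Tab.C.NB33.c_pp_022 noCut_B noExt_B F trivial trivial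

theorem NB33_pp_023 {κ x : ℝ} (hκ : κ * h0 = ken x) (hx : ((67108864 : ℕ) : ℝ) / S ≤ x) (hx' : x ≤ (((67108864 : ℕ) : ℝ) + (67108864 : ℕ)) / S) :
    TriB PP.cur (nearL (h0 * 0) 3 κ (h0 * x) (tbl tKN x) (tbl tL x)) 0 2 3 3 3 1 1 :=
  (sideN hx hx').nearB (Or.inl rfl) (Or.inl rfl) fun y y' F =>
    nearB_cert (s1 := true) (s2 := true) rfl hκ covN30 covN33 hx hx'
        Pool.Agent.Strip051.G.I1_16_1_8.Tab.C.NB33.c_pp_023 noCut_B noExt_B F trivial trivial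

theorem NB33_pp_033 {κ x : ℝ} (hκ : κ * h0 = ken x) (hx : ((67108864 : ℕ) : ℝ) / S ≤ x) (hx' : x ≤ (((67108864 : ℕ) : ℝ) + (67108864 : ℕ)) / S) :
    TriB PP.cur (nearL (h0 * 0) 3 κ (h0 * x) (tbl tKN x) (tbl tL x)) 0 3 3 3 3 1 1 :=
  (sideN hx hx').nearB (Or.inl rfl) (Or.inl rfl) fun y y' F =>
    nearB_cert (s1 := true) (s2 := true) rfl hκ covN30 covN33 hx hx'
        Pool.Agent.Strip051.G.I1_16_1_8.Tab.C.NB33.c_pp_033 noCut_B noExt_B F trivial trivial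

theorem NB33_pp_101 {κ x : ℝ} (hκ : κ * h0 = ken x) (hx : ((67108864 : ℕ) : ℝ) / S ≤ x) (hx' : x ≤ (((67108864 : ℕ) : ℝ) + (67108864 : ℕ)) / S) :
    TriB PP.cur (nearL (h0 * 0) 3 κ (h0 * x) (tbl tKN x) (tbl tL x)) 1 0 1 3 3 1 1 :=
  (sideN hx hx').nearB (Or.inl rfl) (Or.inl rfl) fun y y' F =>
    nearB_cert (s1 := true) (s2 := true) rfl hκ covN31 covN31 hx hx'
        Pool.Agent.Strip051.G.I1_16_1_8.Tab.C.NB33.c_pp_101 noCut_B noExt_B F trivial trivial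

theorem NB33_pp_102 {κ x : ℝ} (hκ : κ * h0 = ken x) (hx : ((67108864 : ℕ) : ℝ) / S ≤ x) (hx' : x ≤ (((67108864 : ℕ) : ℝ) + (67108864 : ℕ)) / S) :
    TriB PP.cur (nearL (h0 * 0) 3 κ (h0 * x) (tbl tKN x) (tbl tL x)) 1 0 2 3 3 1 1 :=
  (sideN hx hx').nearB (Or.inl rfl) (Or.inl rfl) fun y y' F =>
    nearB_cert (s1 := true) (s2 := true) rfl hκ covN31 covN32 hx hx'
        Pool.Agent.Strip051.G.I1_16_1_8.Tab.C.NB33.c_pp_102 noCut_B noExt_B F trivial trivial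

theorem NB33_pp_112 {κ x : ℝ} (hκ : κ * h0 = ken x) (hx : ((67108864 : ℕ) : ℝ) / S ≤ x) (hx' : x ≤ (((67108864 : ℕ) : ℝ) + (67108864 : ℕ)) / S) :
    TriB PP.cur (nearL (h0 * 0) 3 κ (h0 * x) (tbl tKN x) (tbl tL x)) 1 1 2 3 3 1 1 :=
  (sideN hx hx').nearB (Or.inl rfl) (Or.inl rfl) fun y y' F =>
    nearB_cert (s1 := true) (s2 := true) rfl hκ covN31 covN32 hx hx'
        Pool.Agent.Strip051.G.I1_16_1_8.Tab.C.NB33.c_pp_112 noCut_B noExt_B F trivial trivial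

theorem NB33_pp_113 {κ x : ℝ} (hκ : κ * h0 = ken x) (hx : ((67108864 : ℕ) : ℝ) / S ≤ x) (hx' : x ≤ (((67108864 : ℕ) : ℝ) + (67108864 : ℕ)) / S) :
    TriB PP.cur (nearL (h0 * 0) 3 κ (h0 * x) (tbl tKN x) (tbl tL x)) 1 1 3 3 3 1 1 :=
  (sideN hx hx').nearB (Or.inl rfl) (Or.inl rfl) fun y y' F =>
    nearB_cert (s1 := true) (s2 := true) rfl hκ covN31 covN33 hx hx'
        Pool.Agent.Strip051.G.I1_16_1_8.Tab.C.NB33.c_pp_113 noCut_B noExt_B F trivial trivial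

theorem NB33_pp_123 {κ x : ℝ} (hκ : κ * h0 = ken x) (hx : ((67108864 : ℕ) : ℝ) / S ≤ x) (hx' : x ≤ (((67108864 : ℕ) : ℝ) + (67108864 : ℕ)) / S) :
    TriB PP.cur (nearL (h0 * 0) 3 κ (h0 * x) (tbl tKN x) (tbl tL x)) 1 2 3 3 3 1 1 :=
  (sideN hx hx').nearB (Or.inl rfl) (Or.inl rfl) fun y y' F =>
    nearB_cert (s1 := true) (s2 := true) rfl hκ covN31 covN33 hx hx'
        Pool.Agent.Strip051.G.I1_16_1_8.Tab.C.NB33.c_pp_123 noCut_B noExt_B F trivial trivial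

theorem NB33_pp_133 {κ x : ℝ} (hκ : κ * h0 = ken x) (hx : ((67108864 : ℕ) : ℝ) / S ≤ x) (hx' : x ≤ (((67108864 : ℕ) : ℝ) + (67108864 : ℕ)) / S) :
    TriB PP.cur (nearL (h0 * 0) 3 κ (h0 * x) (tbl tKN x) (tbl tL x)) 1 3 3 3 3 1 1 :=
  (sideN hx hx').nearB (Or.inl rfl) (Or.inl rfl) fun y y' F =>
    nearB_cert (s1 := true) (s2 := true) rfl hκ covN31 covN33 hx hx'
        Pool.Agent.Strip051.G.I1_16_1_8.Tab.C.NB33.c_pp_133 noCut_B noExt_B F trivial trivial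

theorem NB33_pp_202 {κ x : ℝ} (hκ : κ * h0 = ken x) (hx : ((67108864 : ℕ) : ℝ) / S ≤ x) (hx' : x ≤ (((67108864 : ℕ) : ℝ) + (67108864 : ℕ)) / S) :
    TriB PP.cur (nearL (h0 * 0) 3 κ (h0 * x) (tbl tKN x) (tbl tL x)) 2 0 2 3 3 1 1 :=
  (sideN hx hx').nearB (Or.inl rfl) (Or.inl rfl) fun y y' F =>
    nearB_cert (s1 := true) (s2 := true) rfl hκ covN32 covN32 hx hx'
        Pool.Agent.Strip051.G.I1_16_1_8.Tab.C.NB33.c_pp_202 noCut_B noExt_B F trivial trivial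

theorem NB33_pp_203 {κ x : ℝ} (hκ : κ * h0 = ken x) (hx : ((67108864 : ℕ) : ℝ) / S ≤ x) (hx' : x ≤ (((67108864 : ℕ) : ℝ) + (67108864 : ℕ)) / S) :
    TriB PP.cur (nearL (h0 * 0) 3 κ (h0 * x) (tbl tKN x) (tbl tL x)) 2 0 3 3 3 1 1 :=
  (sideN hx hx').nearB (Or.inl rfl) (Or.inl rfl) fun y y' F =>
    nearB_cert (s1 := true) (s2 := true) rfl hκ covN32 covN33 hx hx'
        Pool.Agent.Strip051.G.I1_16_1_8.Tab.C.NB33.c_pp_203 noCut_B noExt_B F trivial trivial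

theorem NB33_pp_213 {κ x : ℝ} (hκ : κ * h0 = ken x) (hx : ((67108864 : ℕ) : ℝ) / S ≤ x) (hx' : x ≤ (((67108864 : ℕ) : ℝ) + (67108864 : ℕ)) / S) :
    TriB PP.cur (nearL (h0 * 0) 3 κ (h0 * x) (tbl tKN x) (tbl tL x)) 2 1 3 3 3 1 1 :=
  (sideN hx hx').nearB (Or.inl rfl) (Or.inl rfl) fun y y' F =>
    nearB_cert (s1 := true) (s2 := true) rfl hκ covN32 covN33 hx hx'
        Pool.Agent.Strip051.G.I1_16_1_8.Tab.C.NB33.c_pp_213 noCut_B noExt_B F trivial trivial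

theorem NB33_pp_303 {κ x : ℝ} (hκ : κ * h0 = ken x) (hx : ((67108864 : ℕ) : ℝ) / S ≤ x) (hx' : x ≤ (((67108864 : ℕ) : ℝ) + (67108864 : ℕ)) / S) :
    TriB PP.cur (nearL (h0 * 0) 3 κ (h0 * x) (tbl tKN x) (tbl tL x)) 3 0 3 3 3 1 1 :=
  (sideN hx hx').nearB (Or.inl rfl) (Or.inl rfl) fun y y' F =>
    nearB_cert (s1 := true) (s2 := true) rfl hκ covN33 covN33 hx hx'
        Pool.Agent.Strip051.G.I1_16_1_8.Tab.C.NB33.c_pp_303 noCut_B noExt_B F trivial trivial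

theorem NB33_pp_313 {κ x : ℝ} (hκ : κ * h0 = ken x) (hx : ((67108864 : ℕ) : ℝ) / S ≤ x) (hx' : x ≤ (((67108864 : ℕ) : ℝ) + (67108864 : ℕ)) / S) :
    TriB PP.cur (nearL (h0 * 0) 3 κ (h0 * x) (tbl tKN x) (tbl tL x)) 3 1 3 3 3 1 1 :=
  (sideN hx hx').nearB (Or.inl rfl) (Or.inl rfl) fun y y' F =>
    nearB_cert (s1 := true) (s2 := true) rfl hκ covN33 covN33 hx hx'
        Pool.Agent.Strip051.G.I1_16_1_8.Tab.C.NB33.c_pp_313 noCut_B noExt_B F trivial trivial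

theorem NB33_pm_001 {κ x : ℝ} (hκ : κ * h0 = ken x) (hx : ((67108864 : ℕ) : ℝ) / S ≤ x) (hx' : x ≤ (((67108864 : ℕ) : ℝ) + (67108864 : ℕ)) / S) :
    TriB PP.cur (nearL (h0 * 0) 3 κ (h0 * x) (tbl tKN x) (tbl tL x)) 0 0 1 3 3 1 (-1) :=
  (sideN hx hx').nearB (Or.inl rfl) (Or.inr rfl) fun y y' F =>
    nearB_cert (s1 := true) (s2 := false) rfl hκ covN30 covN31 hx hx'
        Pool.Agent.Strip051.G.I1_16_1_8.Tab.C.NB33.c_pm_001 noCut_B noExt_B F trivial trivial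

theorem NB33_pm_011 {κ x : ℝ} (hκ : κ * h0 = ken x) (hx : ((67108864 : ℕ) : ℝ) / S ≤ x) (hx' : x ≤ (((67108864 : ℕ) : ℝ) + (67108864 : ℕ)) / S) :
    TriB PP.cur (nearL (h0 * 0) 3 κ (h0 * x) (tbl tKN x) (tbl tL x)) 0 1 1 3 3 1 (-1) :=
  (sideN hx hx').nearB (Or.inl rfl) (Or.inr rfl) fun y y' F =>
    nearB_cert (s1 := true) (s2 := false) rfl hκ covN30 covN31 hx hx'
        Pool.Agent.Strip051.G.I1_16_1_8.Tab.C.NB33.c_pm_011 noCut_B noExt_B F trivial trivial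

theorem NB33_pm_012 {κ x : ℝ} (hκ : κ * h0 = ken x) (hx : ((67108864 : ℕ) : ℝ) / S ≤ x) (hx' : x ≤ (((67108864 : ℕ) : ℝ) + (67108864 : ℕ)) / S) :
    TriB PP.cur (nearL (h0 * 0) 3 κ (h0 * x) (tbl tKN x) (tbl tL x)) 0 1 2 3 3 1 (-1) :=
  (sideN hx hx').nearB (Or.inl rfl) (Or.inr rfl) fun y y' F =>
    nearB_cert (s1 := true) (s2 := false) rfl hκ covN30 covN32 hx hx'
        Pool.Agent.Strip051.G.I1_16_1_8.Tab.C.NB33.c_pm_012 noCut_B noExt_B F trivial trivial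

theorem NB33_pm_022 {κ x : ℝ} (hκ : κ * h0 = ken x) (hx : ((67108864 : ℕ) : ℝ) / S ≤ x) (hx' : x ≤ (((67108864 : ℕ) : ℝ) + (67108864 : ℕ)) / S) :
    TriB PP.cur (nearL (h0 * 0) 3 κ (h0 * x) (tbl tKN x) (tbl tL x)) 0 2 2 3 3 1 (-1) :=
  (sideN hx hx').nearB (Or.inl rfl) (Or.inr rfl) fun y y' F =>
    nearB_cert (s1 := true) (s2 := false) rfl hκ covN30 covN32 hx hx'
        Pool.Agent.Strip051.G.I1_16_1_8.Tab.C.NB33.c_pm_022 noCut_B noExt_B F trivial trivial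

theorem NB33_pm_023 {κ x : ℝ} (hκ : κ * h0 = ken x) (hx : ((67108864 : ℕ) : ℝ) / S ≤ x) (hx' : x ≤ (((67108864 : ℕ) : ℝ) + (67108864 : ℕ)) / S) :
    TriB PP.cur (nearL (h0 * 0) 3 κ (h0 * x) (tbl tKN x) (tbl tL x)) 0 2 3 3 3 1 (-1) :=
  (sideN hx hx').nearB (Or.inl rfl) (Or.inr rfl) fun y y' F =>
    nearB_cert (s1 := true) (s2 := false) rfl hκ covN30 covN33 hx hx'
        Pool.Agent.Strip051.G.I1_16_1_8.Tab.C.NB33.c_pm_023 noCut_B noExt_B F trivial trivial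

theorem NB33_pm_033 {κ x : ℝ} (hκ : κ * h0 = ken x) (hx : ((67108864 : ℕ) : ℝ) / S ≤ x) (hx' : x ≤ (((67108864 : ℕ) : ℝ) + (67108864 : ℕ)) / S) :
    TriB PP.cur (nearL (h0 * 0) 3 κ (h0 * x) (tbl tKN x) (tbl tL x)) 0 3 3 3 3 1 (-1) :=
  (sideN hx hx').nearB (Or.inl rfl) (Or.inr rfl) fun y y' F =>
    nearB_cert (s1 := true) (s2 := false) rfl hκ covN30 covN33 hx hx'
        Pool.Agent.Strip051.G.I1_16_1_8.Tab.C.NB33.c_pm_033 noCut_B noExt_B F trivial trivial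

theorem NB33_pm_101 {κ x : ℝ} (hκ : κ * h0 = ken x) (hx : ((67108864 : ℕ) : ℝ) / S ≤ x) (hx' : x ≤ (((67108864 : ℕ) : ℝ) + (67108864 : ℕ)) / S) :
    TriB PP.cur (nearL (h0 * 0) 3 κ (h0 * x) (tbl tKN x) (tbl tL x)) 1 0 1 3 3 1 (-1) :=
  (sideN hx hx').nearB (Or.inl rfl) (Or.inr rfl) fun y y' F =>
    nearB_cert (s1 := true) (s2 := false) rfl hκ covN31 covN31 hx hx'
        Pool.Agent.Strip051.G.I1_16_1_8.Tab.C.NB33.c_pm_101 noCut_B noExt_B F trivial trivial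

theorem NB33_pm_102 {κ x : ℝ} (hκ : κ * h0 = ken x) (hx : ((67108864 : ℕ) : ℝ) / S ≤ x) (hx' : x ≤ (((67108864 : ℕ) : ℝ) + (67108864 : ℕ)) / S) :
    TriB PP.cur (nearL (h0 * 0) 3 κ (h0 * x) (tbl tKN x) (tbl tL x)) 1 0 2 3 3 1 (-1) :=
  (sideN hx hx').nearB (Or.inl rfl) (Or.inr rfl) fun y y' F =>
    nearB_cert (s1 := true) (s2 := false) rfl hκ covN31 covN32 hx hx'
        Pool.Agent.Strip051.G.I1_16_1_8.Tab.C.NB33.c_pm_102 noCut_B noExt_B F trivial trivial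

theorem NB33_pm_112 {κ x : ℝ} (hκ : κ * h0 = ken x) (hx : ((67108864 : ℕ) : ℝ) / S ≤ x) (hx' : x ≤ (((67108864 : ℕ) : ℝ) + (67108864 : ℕ)) / S) :
    TriB PP.cur (nearL (h0 * 0) 3 κ (h0 * x) (tbl tKN x) (tbl tL x)) 1 1 2 3 3 1 (-1) :=
  (sideN hx hx').nearB (Or.inl rfl) (Or.inr rfl) fun y y' F =>
    nearB_cert (s1 := true) (s2 := false) rfl hκ covN31 covN32 hx hx'
        Pool.Agent.Strip051.G.I1_16_1_8.Tab.C.NB33.c_pm_112 noCut_B noExt_B F trivial trivial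

theorem NB33_pm_113 {κ x : ℝ} (hκ : κ * h0 = ken x) (hx : ((67108864 : ℕ) : ℝ) / S ≤ x) (hx' : x ≤ (((67108864 : ℕ) : ℝ) + (67108864 : ℕ)) / S) :
    TriB PP.cur (nearL (h0 * 0) 3 κ (h0 * x) (tbl tKN x) (tbl tL x)) 1 1 3 3 3 1 (-1) :=
  (sideN hx hx').nearB (Or.inl rfl) (Or.inr rfl) fun y y' F =>
    nearB_cert (s1 := true) (s2 := false) rfl hκ covN31 covN33 hx hx'
        Pool.Agent.Strip051.G.I1_16_1_8.Tab.C.NB33.c_pm_113 noCut_B noExt_B F trivial trivial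

theorem NB33_pm_123 {κ x : ℝ} (hκ : κ * h0 = ken x) (hx : ((67108864 : ℕ) : ℝ) / S ≤ x) (hx' : x ≤ (((67108864 : ℕ) : ℝ) + (67108864 : ℕ)) / S) :
    TriB PP.cur (nearL (h0 * 0) 3 κ (h0 * x) (tbl tKN x) (tbl tL x)) 1 2 3 3 3 1 (-1) :=
  (sideN hx hx').nearB (Or.inl rfl) (Or.inr rfl) fun y y' F =>
    nearB_cert (s1 := true) (s2 := false) rfl hκ covN31 covN33 hx hx'
        Pool.Agent.Strip051.G.I1_16_1_8.Tab.C.NB33.c_pm_123 noCut_B noExt_B F trivial trivial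

theorem NB33_pm_133 {κ x : ℝ} (hκ : κ * h0 = ken x) (hx : ((67108864 : ℕ) : ℝ) / S ≤ x) (hx' : x ≤ (((67108864 : ℕ) : ℝ) + (67108864 : ℕ)) / S) :
    TriB PP.cur (nearL (h0 * 0) 3 κ (h0 * x) (tbl tKN x) (tbl tL x)) 1 3 3 3 3 1 (-1) :=
  (sideN hx hx').nearB (Or.inl rfl) (Or.inr rfl) fun y y' F =>
    nearB_cert (s1 := true) (s2 := false) rfl hκ covN31 covN33 hx hx'
        Pool.Agent.Strip051.G.I1_16_1_8.Tab.C.NB33.c_pm_133 noCut_B noExt_B F trivial trivial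

theorem NB33_pm_202 {κ x : ℝ} (hκ : κ * h0 = ken x) (hx : ((67108864 : ℕ) : ℝ) / S ≤ x) (hx' : x ≤ (((67108864 : ℕ) : ℝ) + (67108864 : ℕ)) / S) :
    TriB PP.cur (nearL (h0 * 0) 3 κ (h0 * x) (tbl tKN x) (tbl tL x)) 2 0 2 3 3 1 (-1) :=
  (sideN hx hx').nearB (Or.inl rfl) (Or.inr rfl) fun y y' F =>
    nearB_cert (s1 := true) (s2 := false) rfl hκ covN32 covN32 hx hx'
        Pool.Agent.Strip051.G.I1_16_1_8.Tab.C.NB33.c_pm_202 noCut_B noExt_B F trivial trivial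

theorem NB33_pm_203 {κ x : ℝ} (hκ : κ * h0 = ken x) (hx : ((67108864 : ℕ) : ℝ) / S ≤ x) (hx' : x ≤ (((67108864 : ℕ) : ℝ) + (67108864 : ℕ)) / S) :
    TriB PP.cur (nearL (h0 * 0) 3 κ (h0 * x) (tbl tKN x) (tbl tL x)) 2 0 3 3 3 1 (-1) :=
  (sideN hx hx').nearB (Or.inl rfl) (Or.inr rfl) fun y y' F =>
    nearB_cert (s1 := true) (s2 := false) rfl hκ covN32 covN33 hx hx'
        Pool.Agent.Strip051.G.I1_16_1_8.Tab.C.NB33.c_pm_203 noCut_B noExt_B F trivial trivial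

theorem NB33_pm_213 {κ x : ℝ} (hκ : κ * h0 = ken x) (hx : ((67108864 : ℕ) : ℝ) / S ≤ x) (hx' : x ≤ (((67108864 : ℕ) : ℝ) + (67108864 : ℕ)) / S) :
    TriB PP.cur (nearL (h0 * 0) 3 κ (h0 * x) (tbl tKN x) (tbl tL x)) 2 1 3 3 3 1 (-1) :=
  (sideN hx hx').nearB (Or.inl rfl) (Or.inr rfl) fun y y' F =>
    nearB_cert (s1 := true) (s2 := false) rfl hκ covN32 covN33 hx hx'
        Pool.Agent.Strip051.G.I1_16_1_8.Tab.C.NB33.c_pm_213 noCut_B noExt_B F trivial trivial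

theorem NB33_pm_303 {κ x : ℝ} (hκ : κ * h0 = ken x) (hx : ((67108864 : ℕ) : ℝ) / S ≤ x) (hx' : x ≤ (((67108864 : ℕ) : ℝ) + (67108864 : ℕ)) / S) :
    TriB PP.cur (nearL (h0 * 0) 3 κ (h0 * x) (tbl tKN x) (tbl tL x)) 3 0 3 3 3 1 (-1) :=
  (sideN hx hx').nearB (Or.inl rfl) (Or.inr rfl) fun y y' F =>
    nearB_cert (s1 := true) (s2 := false) rfl hκ covN33 covN33 hx hx'
        Pool.Agent.Strip051.G.I1_16_1_8.Tab.C.NB33.c_pm_303 noCut_B noExt_B F trivial trivial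

theorem NB33_pm_313 {κ x : ℝ} (hκ : κ * h0 = ken x) (hx : ((67108864 : ℕ) : ℝ) / S ≤ x) (hx' : x ≤ (((67108864 : ℕ) : ℝ) + (67108864 : ℕ)) / S) :
    TriB PP.cur (nearL (h0 * 0) 3 κ (h0 * x) (tbl tKN x) (tbl tL x)) 3 1 3 3 3 1 (-1) :=
  (sideN hx hx').nearB (Or.inl rfl) (Or.inr rfl) fun y y' F =>
    nearB_cert (s1 := true) (s2 := false) rfl hκ covN33 covN33 hx hx'
        Pool.Agent.Strip051.G.I1_16_1_8.Tab.C.NB33.c_pm_313 noCut_B noExt_B F trivial trivial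

theorem NB33_mm_001 {κ x : ℝ} (hκ : κ * h0 = ken x) (hx : ((67108864 : ℕ) : ℝ) / S ≤ x) (hx' : x ≤ (((67108864 : ℕ) : ℝ) + (67108864 : ℕ)) / S) :
    TriB PP.cur (nearL (h0 * 0) 3 κ (h0 * x) (tbl tKN x) (tbl tL x)) 0 0 1 3 3 (-1) (-1) :=
  (sideN hx hx').nearB (Or.inr rfl) (Or.inr rfl) fun y y' F =>
    nearB_cert (s1 := false) (s2 := false) rfl hκ covN30 covN31 hx hx'
        Pool.Agent.Strip051.G.I1_16_1_8.Tab.C.NB33.c_mm_001 noCut_B noExt_B F trivial trivial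

theorem NB33_mm_011 {κ x : ℝ} (hκ : κ * h0 = ken x) (hx : ((67108864 : ℕ) : ℝ) / S ≤ x) (hx' : x ≤ (((67108864 : ℕ) : ℝ) + (67108864 : ℕ)) / S) :
    TriB PP.cur (nearL (h0 * 0) 3 κ (h0 * x) (tbl tKN x) (tbl tL x)) 0 1 1 3 3 (-1) (-1) :=
  (sideN hx hx').nearB (Or.inr rfl) (Or.inr rfl) fun y y' F =>
    nearB_cert (s1 := false) (s2 := false) rfl hκ covN30 covN31 hx hx'
        Pool.Agent.Strip051.G.I1_16_1_8.Tab.C.NB33.c_mm_011 noCut_B noExt_B F trivial trivial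

theorem NB33_mm_012 {κ x : ℝ} (hκ : κ * h0 = ken x) (hx : ((67108864 : ℕ) : ℝ) / S ≤ x) (hx' : x ≤ (((67108864 : ℕ) : ℝ) + (67108864 : ℕ)) / S) :
    TriB PP.cur (nearL (h0 * 0) 3 κ (h0 * x) (tbl tKN x) (tbl tL x)) 0 1 2 3 3 (-1) (-1) :=
  (sideN hx hx').nearB (Or.inr rfl) (Or.inr rfl) fun y y' F =>
    nearB_cert (s1 := false) (s2 := false) rfl hκ covN30 covN32 hx hx'
        Pool.Agent.Strip051.G.I1_16_1_8.Tab.C.NB33.c_mm_012 noCut_B noExt_B F trivial trivial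

theorem NB33_mm_022 {κ x : ℝ} (hκ : κ * h0 = ken x) (hx : ((67108864 : ℕ) : ℝ) / S ≤ x) (hx' : x ≤ (((67108864 : ℕ) : ℝ) + (67108864 : ℕ)) / S) :
    TriB PP.cur (nearL (h0 * 0) 3 κ (h0 * x) (tbl tKN x) (tbl tL x)) 0 2 2 3 3 (-1) (-1) :=
  (sideN hx hx').nearB (Or.inr rfl) (Or.inr rfl) fun y y' F =>
    nearB_cert (s1 := false) (s2 := false) rfl hκ covN30 covN32 hx hx'
        Pool.Agent.Strip051.G.I1_16_1_8.Tab.C.NB33.c_mm_022 noCut_B noExt_B F trivial trivial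

theorem NB33_mm_023 {κ x : ℝ} (hκ : κ * h0 = ken x) (hx : ((67108864 : ℕ) : ℝ) / S ≤ x) (hx' : x ≤ (((67108864 : ℕ) : ℝ) + (67108864 : ℕ)) / S) :
    TriB PP.cur (nearL (h0 * 0) 3 κ (h0 * x) (tbl tKN x) (tbl tL x)) 0 2 3 3 3 (-1) (-1) :=
  (sideN hx hx').nearB (Or.inr rfl) (Or.inr rfl) fun y y' F =>
    nearB_cert (s1 := false) (s2 := false) rfl hκ covN30 covN33 hx hx'
        Pool.Agent.Strip051.G.I1_16_1_8.Tab.C.NB33.c_mm_023 noCut_B noExt_B F trivial trivial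

theorem NB33_mm_033 {κ x : ℝ} (hκ : κ * h0 = ken x) (hx : ((67108864 : ℕ) : ℝ) / S ≤ x) (hx' : x ≤ (((67108864 : ℕ) : ℝ) + (67108864 : ℕ)) / S) :
    TriB PP.cur (nearL (h0 * 0) 3 κ (h0 * x) (tbl tKN x) (tbl tL x)) 0 3 3 3 3 (-1) (-1) :=
  (sideN hx hx').nearB (Or.inr rfl) (Or.inr rfl) fun y y' F =>
    nearB_cert (s1 := false) (s2 := false) rfl hκ covN30 covN33 hx hx'
        Pool.Agent.Strip051.G.I1_16_1_8.Tab.C.NB33.c_mm_033 noCut_B noExt_B F trivial trivial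

theorem NB33_mm_101 {κ x : ℝ} (hκ : κ * h0 = ken x) (hx : ((67108864 : ℕ) : ℝ) / S ≤ x) (hx' : x ≤ (((67108864 : ℕ) : ℝ) + (67108864 : ℕ)) / S) :
    TriB PP.cur (nearL (h0 * 0) 3 κ (h0 * x) (tbl tKN x) (tbl tL x)) 1 0 1 3 3 (-1) (-1) :=
  (sideN hx hx').nearB (Or.inr rfl) (Or.inr rfl) fun y y' F =>
    nearB_cert (s1 := false) (s2 := false) rfl hκ covN31 covN31 hx hx'
        Pool.Agent.Strip051.G.I1_16_1_8.Tab.C.NB33.c_mm_101 noCut_B noExt_B F trivial trivial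

theorem NB33_mm_102 {κ x : ℝ} (hκ : κ * h0 = ken x) (hx : ((67108864 : ℕ) : ℝ) / S ≤ x) (hx' : x ≤ (((67108864 : ℕ) : ℝ) + (67108864 : ℕ)) / S) :
    TriB PP.cur (nearL (h0 * 0) 3 κ (h0 * x) (tbl tKN x) (tbl tL x)) 1 0 2 3 3 (-1) (-1) :=
  (sideN hx hx').nearB (Or.inr rfl) (Or.inr rfl) fun y y' F =>
    nearB_cert (s1 := false) (s2 := false) rfl hκ covN31 covN32 hx hx'
        Pool.Agent.Strip051.G.I1_16_1_8.Tab.C.NB33.c_mm_102 noCut_B noExt_B F trivial trivial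

theorem NB33_mm_112 {κ x : ℝ} (hκ : κ * h0 = ken x) (hx : ((67108864 : ℕ) : ℝ) / S ≤ x) (hx' : x ≤ (((67108864 : ℕ) : ℝ) + (67108864 : ℕ)) / S) :
    TriB PP.cur (nearL (h0 * 0) 3 κ (h0 * x) (tbl tKN x) (tbl tL x)) 1 1 2 3 3 (-1) (-1) :=
  (sideN hx hx').nearB (Or.inr rfl) (Or.inr rfl) fun y y' F =>
    nearB_cert (s1 := false) (s2 := false) rfl hκ covN31 covN32 hx hx'
        Pool.Agent.Strip051.G.I1_16_1_8.Tab.C.NB33.c_mm_112 noCut_B noExt_B F trivial trivial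

theorem NB33_mm_113 {κ x : ℝ} (hκ : κ * h0 = ken x) (hx : ((67108864 : ℕ) : ℝ) / S ≤ x) (hx' : x ≤ (((67108864 : ℕ) : ℝ) + (67108864 : ℕ)) / S) :
    TriB PP.cur (nearL (h0 * 0) 3 κ (h0 * x) (tbl tKN x) (tbl tL x)) 1 1 3 3 3 (-1) (-1) :=
  (sideN hx hx').nearB (Or.inr rfl) (Or.inr rfl) fun y y' F =>
    nearB_cert (s1 := false) (s2 := false) rfl hκ covN31 covN33 hx hx'
        Pool.Agent.Strip051.G.I1_16_1_8.Tab.C.NB33.c_mm_113 noCut_B noExt_B F trivial trivial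

theorem NB33_mm_123 {κ x : ℝ} (hκ : κ * h0 = ken x) (hx : ((67108864 : ℕ) : ℝ) / S ≤ x) (hx' : x ≤ (((67108864 : ℕ) : ℝ) + (67108864 : ℕ)) / S) :
    TriB PP.cur (nearL (h0 * 0) 3 κ (h0 * x) (tbl tKN x) (tbl tL x)) 1 2 3 3 3 (-1) (-1) :=
  (sideN hx hx').nearB (Or.inr rfl) (Or.inr rfl) fun y y' F =>
    nearB_cert (s1 := false) (s2 := false) rfl hκ covN31 covN33 hx hx'
        Pool.Agent.Strip051.G.I1_16_1_8.Tab.C.NB33.c_mm_123 noCut_B noExt_B F trivial trivial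

theorem NB33_mm_133 {κ x : ℝ} (hκ : κ * h0 = ken x) (hx : ((67108864 : ℕ) : ℝ) / S ≤ x) (hx' : x ≤ (((67108864 : ℕ) : ℝ) + (67108864 : ℕ)) / S) :
    TriB PP.cur (nearL (h0 * 0) 3 κ (h0 * x) (tbl tKN x) (tbl tL x)) 1 3 3 3 3 (-1) (-1) :=
  (sideN hx hx').nearB (Or.inr rfl) (Or.inr rfl) fun y y' F =>
    nearB_cert (s1 := false) (s2 := false) rfl hκ covN31 covN33 hx hx'
        Pool.Agent.Strip051.G.I1_16_1_8.Tab.C.NB33.c_mm_133 noCut_B noExt_B F trivial trivial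

theorem NB33_mm_202 {κ x : ℝ} (hκ : κ * h0 = ken x) (hx : ((67108864 : ℕ) : ℝ) / S ≤ x) (hx' : x ≤ (((67108864 : ℕ) : ℝ) + (67108864 : ℕ)) / S) :
    TriB PP.cur (nearL (h0 * 0) 3 κ (h0 * x) (tbl tKN x) (tbl tL x)) 2 0 2 3 3 (-1) (-1) :=
  (sideN hx hx').nearB (Or.inr rfl) (Or.inr rfl) fun y y' F =>
    nearB_cert (s1 := false) (s2 := false) rfl hκ covN32 covN32 hx hx'
        Pool.Agent.Strip051.G.I1_16_1_8.Tab.C.NB33.c_mm_202 noCut_B noExt_B F trivial trivial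

theorem NB33_mm_203 {κ x : ℝ} (hκ : κ * h0 = ken x) (hx : ((67108864 : ℕ) : ℝ) / S ≤ x) (hx' : x ≤ (((67108864 : ℕ) : ℝ) + (67108864 : ℕ)) / S) :
    TriB PP.cur (nearL (h0 * 0) 3 κ (h0 * x) (tbl tKN x) (tbl tL x)) 2 0 3 3 3 (-1) (-1) :=
  (sideN hx hx').nearB (Or.inr rfl) (Or.inr rfl) fun y y' F =>
    nearB_cert (s1 := false) (s2 := false) rfl hκ covN32 covN33 hx hx'
        Pool.Agent.Strip051.G.I1_16_1_8.Tab.C.NB33.c_mm_203 noCut_B noExt_B F trivial trivial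

theorem NB33_mm_213 {κ x : ℝ} (hκ : κ * h0 = ken x) (hx : ((67108864 : ℕ) : ℝ) / S ≤ x) (hx' : x ≤ (((67108864 : ℕ) : ℝ) + (67108864 : ℕ)) / S) :
    TriB PP.cur (nearL (h0 * 0) 3 κ (h0 * x) (tbl tKN x) (tbl tL x)) 2 1 3 3 3 (-1) (-1) :=
  (sideN hx hx').nearB (Or.inr rfl) (Or.inr rfl) fun y y' F =>
    nearB_cert (s1 := false) (s2 := false) rfl hκ covN32 covN33 hx hx'
        Pool.Agent.Strip051.G.I1_16_1_8.Tab.C.NB33.c_mm_213 noCut_B noExt_B F trivial trivial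

theorem NB33_mm_303 {κ x : ℝ} (hκ : κ * h0 = ken x) (hx : ((67108864 : ℕ) : ℝ) / S ≤ x) (hx' : x ≤ (((67108864 : ℕ) : ℝ) + (67108864 : ℕ)) / S) :
    TriB PP.cur (nearL (h0 * 0) 3 κ (h0 * x) (tbl tKN x) (tbl tL x)) 3 0 3 3 3 (-1) (-1) :=
  (sideN hx hx').nearB (Or.inr rfl) (Or.inr rfl) fun y y' F =>
    nearB_cert (s1 := false) (s2 := false) rfl hκ covN33 covN33 hx hx'
        Pool.Agent.Strip051.G.I1_16_1_8.Tab.C.NB33.c_mm_303 noCut_B noExt_B F trivial trivial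

theorem NB33_mm_313 {κ x : ℝ} (hκ : κ * h0 = ken x) (hx : ((67108864 : ℕ) : ℝ) / S ≤ x) (hx' : x ≤ (((67108864 : ℕ) : ℝ) + (67108864 : ℕ)) / S) :
    TriB PP.cur (nearL (h0 * 0) 3 κ (h0 * x) (tbl tKN x) (tbl tL x)) 3 1 3 3 3 (-1) (-1) :=
  (sideN hx hx').nearB (Or.inr rfl) (Or.inr rfl) fun y y' F =>
    nearB_cert (s1 := false) (s2 := false) rfl hκ covN33 covN33 hx hx'
        Pool.Agent.Strip051.G.I1_16_1_8.Tab.C.NB33.c_mm_313 noCut_B noExt_B F trivial trivial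

theorem NB33 {κ x : ℝ} (hκ : κ * h0 = ken x) (hx : ((67108864 : ℕ) : ℝ) / S ≤ x) (hx' : x ≤ (((67108864 : ℕ) : ℝ) + (67108864 : ℕ)) / S) : AllTB PP.cur (nearL (h0 * 0) 3 κ (h0 * x) (tbl tKN x) (tbl tL x)) 3 3 where
  pp := all17 (Q := fun a b c => TriB PP.cur (nearL (h0 * 0) 3 κ (h0 * x) (tbl tKN x) (tbl tL x)) a b c 3 3 1 1)
    (NB33_pp_001 hκ hx hx') (NB33_pp_011 hκ hx hx') (NB33_pp_012 hκ hx hx') (NB33_pp_022 hκ hx hx') (NB33_pp_023 hκ hx hx') (NB33_pp_033 hκ hx hx') (NB33_pp_101 hκ hx hx') (NB33_pp_102 hκ hx hx') (NB33_pp_112 hκ hx hx') (NB33_pp_113 hκ hx hx') (NB33_pp_123 hκ hx hx') (NB33_pp_133 hκ hx hx') (NB33_pp_202 hκ hx hx') (NB33_pp_203 hκ hx hx') (NB33_pp_213 hκ hx hx') (NB33_pp_303 hκ hx hx') (NB33_pp_313 hκ hx hx')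
  pm := all17 (Q := fun a b c => TriB PP.cur (nearL (h0 * 0) 3 κ (h0 * x) (tbl tKN x) (tbl tL x)) a b c 3 3 1 (-1))
    (NB33_pm_001 hκ hx hx') (NB33_pm_011 hκ hx hx') (NB33_pm_012 hκ hx hx') (NB33_pm_022 hκ hx hx') (NB33_pm_023 hκ hx hx') (NB33_pm_033 hκ hx hx') (NB33_pm_101 hκ hx hx') (NB33_pm_102 hκ hx hx') (NB33_pm_112 hκ hx hx') (NB33_pm_113 hκ hx hx') (NB33_pm_123 hκ hx hx') (NB33_pm_133 hκ hx hx') (NB33_pm_202 hκ hx hx') (NB33_pm_203 hκ hx hx') (NB33_pm_213 hκ hx hx') (NB33_pm_303 hκ hx hx') (NB33_pm_313 hκ hx hx')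
  mm := all17 (Q := fun a b c => TriB PP.cur (nearL (h0 * 0) 3 κ (h0 * x) (tbl tKN x) (tbl tL x)) a b c 3 3 (-1) (-1))
    (NB33_mm_001 hκ hx hx') (NB33_mm_011 hκ hx hx') (NB33_mm_012 hκ hx hx') (NB33_mm_022 hκ hx hx') (NB33_mm_023 hκ hx hx') (NB33_mm_033 hκ hx hx') (NB33_mm_101 hκ hx hx') (NB33_mm_102 hκ hx hx') (NB33_mm_112 hκ hx hx') (NB33_mm_113 hκ hx hx') (NB33_mm_123 hκ hx hx') (NB33_mm_133 hκ hx hx') (NB33_mm_202 hκ hx hx') (NB33_mm_203 hκ hx hx') (NB33_mm_213 hκ hx hx') (NB33_mm_303 hκ hx hx') (NB33_mm_313 hκ hx hx')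

theorem NB34_pp_001 {κ x : ℝ} (hκ : κ * h0 = ken x) (hx : ((67108864 : ℕ) : ℝ) / S ≤ x) (hx' : x ≤ (((67108864 : ℕ) : ℝ) + (67108864 : ℕ)) / S) :
    TriB PP.cur (nearL (h0 * 0) 3 κ (h0 * x) (tbl tKN x) (tbl tL x)) 0 0 1 3 4 1 1 :=
  (sideN hx hx').nearB (Or.inl rfl) (Or.inl rfl) fun y y' F =>
    nearB_cert (s1 := true) (s2 := true) rfl hκ covN30 covN41 hx hx'
        Pool.Agent.Strip051.G.I1_16_1_8.Tab.C.NB34.c_pp_001 noCut_B noExt_B F trivial trivial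

theorem NB34_pp_011 {κ x : ℝ} (hκ : κ * h0 = ken x) (hx : ((67108864 : ℕ) : ℝ) / S ≤ x) (hx' : x ≤ (((67108864 : ℕ) : ℝ) + (67108864 : ℕ)) / S) :
    TriB PP.cur (nearL (h0 * 0) 3 κ (h0 * x) (tbl tKN x) (tbl tL x)) 0 1 1 3 4 1 1 :=
  (sideN hx hx').nearB (Or.inl rfl) (Or.inl rfl) fun y y' F =>
    nearB_cert (s1 := true) (s2 := true) rfl hκ covN30 covN41 hx hx'
        Pool.Agent.Strip051.G.I1_16_1_8.Tab.C.NB34.c_pp_011 noCut_B noExt_B F trivial trivial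

theorem NB34_pp_012 {κ x : ℝ} (hκ : κ * h0 = ken x) (hx : ((67108864 : ℕ) : ℝ) / S ≤ x) (hx' : x ≤ (((67108864 : ℕ) : ℝ) + (67108864 : ℕ)) / S) :
    TriB PP.cur (nearL (h0 * 0) 3 κ (h0 * x) (tbl tKN x) (tbl tL x)) 0 1 2 3 4 1 1 :=
  (sideN hx hx').nearB (Or.inl rfl) (Or.inl rfl) fun y y' F =>
    nearB_cert (s1 := true) (s2 := true) rfl hκ covN30 covN42 hx hx'
        Pool.Agent.Strip051.G.I1_16_1_8.Tab.C.NB34.c_pp_012 noCut_B noExt_B F trivial trivial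

theorem NB34_pp_022 {κ x : ℝ} (hκ : κ * h0 = ken x) (hx : ((67108864 : ℕ) : ℝ) / S ≤ x) (hx' : x ≤ (((67108864 : ℕ) : ℝ) + (67108864 : ℕ)) / S) :
    TriB PP.cur (nearL (h0 * 0) 3 κ (h0 * x) (tbl tKN x) (tbl tL x)) 0 2 2 3 4 1 1 :=
  (sideN hx hx').nearB (Or.inl rfl) (Or.inl rfl) fun y y' F =>
    nearB_cert (s1 := true) (s2 := true) rfl hκ covN30 covN42 hx hx'
        Pool.Agent.Strip051.G.I1_16_1_8.Tab.C.NB34.c_pp_022 noCut_B noExt_B F trivial trivial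

theorem NB34_pp_023 {κ x : ℝ} (hκ : κ * h0 = ken x) (hx : ((67108864 : ℕ) : ℝ) / S ≤ x) (hx' : x ≤ (((67108864 : ℕ) : ℝ) + (67108864 : ℕ)) / S) :
    TriB PP.cur (nearL (h0 * 0) 3 κ (h0 * x) (tbl tKN x) (tbl tL x)) 0 2 3 3 4 1 1 :=
  (sideN hx hx').nearB (Or.inl rfl) (Or.inl rfl) fun y y' F =>
    nearB_cert (s1 := true) (s2 := true) rfl hκ covN30 covN43 hx hx'
        Pool.Agent.Strip051.G.I1_16_1_8.Tab.C.NB34.c_pp_023 noCut_B noExt_B F trivial trivial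

theorem NB34_pp_033 {κ x : ℝ} (hκ : κ * h0 = ken x) (hx : ((67108864 : ℕ) : ℝ) / S ≤ x) (hx' : x ≤ (((67108864 : ℕ) : ℝ) + (67108864 : ℕ)) / S) :
    TriB PP.cur (nearL (h0 * 0) 3 κ (h0 * x) (tbl tKN x) (tbl tL x)) 0 3 3 3 4 1 1 :=
  (sideN hx hx').nearB (Or.inl rfl) (Or.inl rfl) fun y y' F =>
    nearB_cert (s1 := true) (s2 := true) rfl hκ covN30 covN43 hx hx'
        Pool.Agent.Strip051.G.I1_16_1_8.Tab.C.NB34.c_pp_033 noCut_B noExt_B F trivial trivial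

theorem NB34_pp_101 {κ x : ℝ} (hκ : κ * h0 = ken x) (hx : ((67108864 : ℕ) : ℝ) / S ≤ x) (hx' : x ≤ (((67108864 : ℕ) : ℝ) + (67108864 : ℕ)) / S) :
    TriB PP.cur (nearL (h0 * 0) 3 κ (h0 * x) (tbl tKN x) (tbl tL x)) 1 0 1 3 4 1 1 :=
  (sideN hx hx').nearB (Or.inl rfl) (Or.inl rfl) fun y y' F =>
    nearB_cert (s1 := true) (s2 := true) rfl hκ covN31 covN41 hx hx'
        Pool.Agent.Strip051.G.I1_16_1_8.Tab.C.NB34.c_pp_101 noCut_B noExt_B F trivial trivial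

theorem NB34_pp_102 {κ x : ℝ} (hκ : κ * h0 = ken x) (hx : ((67108864 : ℕ) : ℝ) / S ≤ x) (hx' : x ≤ (((67108864 : ℕ) : ℝ) + (67108864 : ℕ)) / S) :
    TriB PP.cur (nearL (h0 * 0) 3 κ (h0 * x) (tbl tKN x) (tbl tL x)) 1 0 2 3 4 1 1 :=
  (sideN hx hx').nearB (Or.inl rfl) (Or.inl rfl) fun y y' F =>
    nearB_cert (s1 := true) (s2 := true) rfl hκ covN31 covN42 hx hx'
        Pool.Agent.Strip051.G.I1_16_1_8.Tab.C.NB34.c_pp_102 noCut_B noExt_B F trivial trivial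

theorem NB34_pp_112 {κ x : ℝ} (hκ : κ * h0 = ken x) (hx : ((67108864 : ℕ) : ℝ) / S ≤ x) (hx' : x ≤ (((67108864 : ℕ) : ℝ) + (67108864 : ℕ)) / S) :
    TriB PP.cur (nearL (h0 * 0) 3 κ (h0 * x) (tbl tKN x) (tbl tL x)) 1 1 2 3 4 1 1 :=
  (sideN hx hx').nearB (Or.inl rfl) (Or.inl rfl) fun y y' F =>
    nearB_cert (s1 := true) (s2 := true) rfl hκ covN31 covN42 hx hx'
        Pool.Agent.Strip051.G.I1_16_1_8.Tab.C.NB34.c_pp_112 noCut_B noExt_B F trivial trivial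

theorem NB34_pp_113 {κ x : ℝ} (hκ : κ * h0 = ken x) (hx : ((67108864 : ℕ) : ℝ) / S ≤ x) (hx' : x ≤ (((67108864 : ℕ) : ℝ) + (67108864 : ℕ)) / S) :
    TriB PP.cur (nearL (h0 * 0) 3 κ (h0 * x) (tbl tKN x) (tbl tL x)) 1 1 3 3 4 1 1 :=
  (sideN hx hx').nearB (Or.inl rfl) (Or.inl rfl) fun y y' F =>
    nearB_cert (s1 := true) (s2 := true) rfl hκ covN31 covN43 hx hx'
        Pool.Agent.Strip051.G.I1_16_1_8.Tab.C.NB34.c_pp_113 noCut_B noExt_B F trivial trivial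

theorem NB34_pp_123 {κ x : ℝ} (hκ : κ * h0 = ken x) (hx : ((67108864 : ℕ) : ℝ) / S ≤ x) (hx' : x ≤ (((67108864 : ℕ) : ℝ) + (67108864 : ℕ)) / S) :
    TriB PP.cur (nearL (h0 * 0) 3 κ (h0 * x) (tbl tKN x) (tbl tL x)) 1 2 3 3 4 1 1 :=
  (sideN hx hx').nearB (Or.inl rfl) (Or.inl rfl) fun y y' F =>
    nearB_cert (s1 := true) (s2 := true) rfl hκ covN31 covN43 hx hx'
        Pool.Agent.Strip051.G.I1_16_1_8.Tab.C.NB34.c_pp_123 noCut_B noExt_B F trivial trivial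

theorem NB34_pp_133 {κ x : ℝ} (hκ : κ * h0 = ken x) (hx : ((67108864 : ℕ) : ℝ) / S ≤ x) (hx' : x ≤ (((67108864 : ℕ) : ℝ) + (67108864 : ℕ)) / S) :
    TriB PP.cur (nearL (h0 * 0) 3 κ (h0 * x) (tbl tKN x) (tbl tL x)) 1 3 3 3 4 1 1 :=
  (sideN hx hx').nearB (Or.inl rfl) (Or.inl rfl) fun y y' F =>
    nearB_cert (s1 := true) (s2 := true) rfl hκ covN31 covN43 hx hx'
        Pool.Agent.Strip051.G.I1_16_1_8.Tab.C.NB34.c_pp_133 noCut_B noExt_B F trivial trivial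

theorem NB34_pp_202 {κ x : ℝ} (hκ : κ * h0 = ken x) (hx : ((67108864 : ℕ) : ℝ) / S ≤ x) (hx' : x ≤ (((67108864 : ℕ) : ℝ) + (67108864 : ℕ)) / S) :
    TriB PP.cur (nearL (h0 * 0) 3 κ (h0 * x) (tbl tKN x) (tbl tL x)) 2 0 2 3 4 1 1 :=
  (sideN hx hx').nearB (Or.inl rfl) (Or.inl rfl) fun y y' F =>
    nearB_cert (s1 := true) (s2 := true) rfl hκ covN32 covN42 hx hx'
        Pool.Agent.Strip051.G.I1_16_1_8.Tab.C.NB34.c_pp_202 noCut_B noExt_B F trivial trivial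

theorem NB34_pp_203 {κ x : ℝ} (hκ : κ * h0 = ken x) (hx : ((67108864 : ℕ) : ℝ) / S ≤ x) (hx' : x ≤ (((67108864 : ℕ) : ℝ) + (67108864 : ℕ)) / S) :
    TriB PP.cur (nearL (h0 * 0) 3 κ (h0 * x) (tbl tKN x) (tbl tL x)) 2 0 3 3 4 1 1 :=
  (sideN hx hx').nearB (Or.inl rfl) (Or.inl rfl) fun y y' F =>
    nearB_cert (s1 := true) (s2 := true) rfl hκ covN32 covN43 hx hx'
        Pool.Agent.Strip051.G.I1_16_1_8.Tab.C.NB34.c_pp_203 noCut_B noExt_B F trivial trivial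

theorem NB34_pp_213 {κ x : ℝ} (hκ : κ * h0 = ken x) (hx : ((67108864 : ℕ) : ℝ) / S ≤ x) (hx' : x ≤ (((67108864 : ℕ) : ℝ) + (67108864 : ℕ)) / S) :
    TriB PP.cur (nearL (h0 * 0) 3 κ (h0 * x) (tbl tKN x) (tbl tL x)) 2 1 3 3 4 1 1 :=
  (sideN hx hx').nearB (Or.inl rfl) (Or.inl rfl) fun y y' F =>
    nearB_cert (s1 := true) (s2 := true) rfl hκ covN32 covN43 hx hx'
        Pool.Agent.Strip051.G.I1_16_1_8.Tab.C.NB34.c_pp_213 noCut_B noExt_B F trivial trivial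

theorem NB34_pp_303 {κ x : ℝ} (hκ : κ * h0 = ken x) (hx : ((67108864 : ℕ) : ℝ) / S ≤ x) (hx' : x ≤ (((67108864 : ℕ) : ℝ) + (67108864 : ℕ)) / S) :
    TriB PP.cur (nearL (h0 * 0) 3 κ (h0 * x) (tbl tKN x) (tbl tL x)) 3 0 3 3 4 1 1 :=
  (sideN hx hx').nearB (Or.inl rfl) (Or.inl rfl) fun y y' F =>
    nearB_cert (s1 := true) (s2 := true) rfl hκ covN33 covN43 hx hx'
        Pool.Agent.Strip051.G.I1_16_1_8.Tab.C.NB34.c_pp_303 noCut_B noExt_B F trivial trivial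

theorem NB34_pp_313 {κ x : ℝ} (hκ : κ * h0 = ken x) (hx : ((67108864 : ℕ) : ℝ) / S ≤ x) (hx' : x ≤ (((67108864 : ℕ) : ℝ) + (67108864 : ℕ)) / S) :
    TriB PP.cur (nearL (h0 * 0) 3 κ (h0 * x) (tbl tKN x) (tbl tL x)) 3 1 3 3 4 1 1 :=
  (sideN hx hx').nearB (Or.inl rfl) (Or.inl rfl) fun y y' F =>
    nearB_cert (s1 := true) (s2 := true) rfl hκ covN33 covN43 hx hx'
        Pool.Agent.Strip051.G.I1_16_1_8.Tab.C.NB34.c_pp_313 noCut_B noExt_B F trivial trivial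

theorem NB34_pm_001 {κ x : ℝ} (hκ : κ * h0 = ken x) (hx : ((67108864 : ℕ) : ℝ) / S ≤ x) (hx' : x ≤ (((67108864 : ℕ) : ℝ) + (67108864 : ℕ)) / S) :
    TriB PP.cur (nearL (h0 * 0) 3 κ (h0 * x) (tbl tKN x) (tbl tL x)) 0 0 1 3 4 1 (-1) :=
  (sideN hx hx').nearB (Or.inl rfl) (Or.inr rfl) fun y y' F =>
    nearB_cert (s1 := true) (s2 := false) rfl hκ covN30 covN41 hx hx'
        Pool.Agent.Strip051.G.I1_16_1_8.Tab.C.NB34.c_pm_001 noCut_B noExt_B F trivial trivial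

theorem NB34_pm_011 {κ x : ℝ} (hκ : κ * h0 = ken x) (hx : ((67108864 : ℕ) : ℝ) / S ≤ x) (hx' : x ≤ (((67108864 : ℕ) : ℝ) + (67108864 : ℕ)) / S) :
    TriB PP.cur (nearL (h0 * 0) 3 κ (h0 * x) (tbl tKN x) (tbl tL x)) 0 1 1 3 4 1 (-1) :=
  (sideN hx hx').nearB (Or.inl rfl) (Or.inr rfl) fun y y' F =>
    nearB_cert (s1 := true) (s2 := false) rfl hκ covN30 covN41 hx hx'
        Pool.Agent.Strip051.G.I1_16_1_8.Tab.C.NB34.c_pm_011 noCut_B noExt_B F trivial trivial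

theorem NB34_pm_012 {κ x : ℝ} (hκ : κ * h0 = ken x) (hx : ((67108864 : ℕ) : ℝ) / S ≤ x) (hx' : x ≤ (((67108864 : ℕ) : ℝ) + (67108864 : ℕ)) / S) :
    TriB PP.cur (nearL (h0 * 0) 3 κ (h0 * x) (tbl tKN x) (tbl tL x)) 0 1 2 3 4 1 (-1) :=
  (sideN hx hx').nearB (Or.inl rfl) (Or.inr rfl) fun y y' F =>
    nearB_cert (s1 := true) (s2 := false) rfl hκ covN30 covN42 hx hx'
        Pool.Agent.Strip051.G.I1_16_1_8.Tab.C.NB34.c_pm_012 noCut_B noExt_B F trivial trivial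

theorem NB34_pm_022 {κ x : ℝ} (hκ : κ * h0 = ken x) (hx : ((67108864 : ℕ) : ℝ) / S ≤ x) (hx' : x ≤ (((67108864 : ℕ) : ℝ) + (67108864 : ℕ)) / S) :
    TriB PP.cur (nearL (h0 * 0) 3 κ (h0 * x) (tbl tKN x) (tbl tL x)) 0 2 2 3 4 1 (-1) :=
  (sideN hx hx').nearB (Or.inl rfl) (Or.inr rfl) fun y y' F =>
    nearB_cert (s1 := true) (s2 := false) rfl hκ covN30 covN42 hx hx'
        Pool.Agent.Strip051.G.I1_16_1_8.Tab.C.NB34.c_pm_022 noCut_B noExt_B F trivial trivial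

theorem NB34_pm_023 {κ x : ℝ} (hκ : κ * h0 = ken x) (hx : ((67108864 : ℕ) : ℝ) / S ≤ x) (hx' : x ≤ (((67108864 : ℕ) : ℝ) + (67108864 : ℕ)) / S) :
    TriB PP.cur (nearL (h0 * 0) 3 κ (h0 * x) (tbl tKN x) (tbl tL x)) 0 2 3 3 4 1 (-1) :=
  (sideN hx hx').nearB (Or.inl rfl) (Or.inr rfl) fun y y' F =>
    nearB_cert (s1 := true) (s2 := false) rfl hκ covN30 covN43 hx hx'
        Pool.Agent.Strip051.G.I1_16_1_8.Tab.C.NB34.c_pm_023 noCut_B noExt_B F trivial trivial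

theorem NB34_pm_033 {κ x : ℝ} (hκ : κ * h0 = ken x) (hx : ((67108864 : ℕ) : ℝ) / S ≤ x) (hx' : x ≤ (((67108864 : ℕ) : ℝ) + (67108864 : ℕ)) / S) :
    TriB PP.cur (nearL (h0 * 0) 3 κ (h0 * x) (tbl tKN x) (tbl tL x)) 0 3 3 3 4 1 (-1) :=
  (sideN hx hx').nearB (Or.inl rfl) (Or.inr rfl) fun y y' F =>
    nearB_cert (s1 := true) (s2 := false) rfl hκ covN30 covN43 hx hx'
        Pool.Agent.Strip051.G.I1_16_1_8.Tab.C.NB34.c_pm_033 noCut_B noExt_B F trivial trivial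

theorem NB34_pm_101 {κ x : ℝ} (hκ : κ * h0 = ken x) (hx : ((67108864 : ℕ) : ℝ) / S ≤ x) (hx' : x ≤ (((67108864 : ℕ) : ℝ) + (67108864 : ℕ)) / S) :
    TriB PP.cur (nearL (h0 * 0) 3 κ (h0 * x) (tbl tKN x) (tbl tL x)) 1 0 1 3 4 1 (-1) :=
  (sideN hx hx').nearB (Or.inl rfl) (Or.inr rfl) fun y y' F =>
    nearB_cert (s1 := true) (s2 := false) rfl hκ covN31 covN41 hx hx'
        Pool.Agent.Strip051.G.I1_16_1_8.Tab.C.NB34.c_pm_101 noCut_B noExt_B F trivial trivial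

theorem NB34_pm_102 {κ x : ℝ} (hκ : κ * h0 = ken x) (hx : ((67108864 : ℕ) : ℝ) / S ≤ x) (hx' : x ≤ (((67108864 : ℕ) : ℝ) + (67108864 : ℕ)) / S) :
    TriB PP.cur (nearL (h0 * 0) 3 κ (h0 * x) (tbl tKN x) (tbl tL x)) 1 0 2 3 4 1 (-1) :=
  (sideN hx hx').nearB (Or.inl rfl) (Or.inr rfl) fun y y' F =>
    nearB_cert (s1 := true) (s2 := false) rfl hκ covN31 covN42 hx hx'
        Pool.Agent.Strip051.G.I1_16_1_8.Tab.C.NB34.c_pm_102 noCut_B noExt_B F trivial trivial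

theorem NB34_pm_112 {κ x : ℝ} (hκ : κ * h0 = ken x) (hx : ((67108864 : ℕ) : ℝ) / S ≤ x) (hx' : x ≤ (((67108864 : ℕ) : ℝ) + (67108864 : ℕ)) / S) :
    TriB PP.cur (nearL (h0 * 0) 3 κ (h0 * x) (tbl tKN x) (tbl tL x)) 1 1 2 3 4 1 (-1) :=
  (sideN hx hx').nearB (Or.inl rfl) (Or.inr rfl) fun y y' F =>
    nearB_cert (s1 := true) (s2 := false) rfl hκ covN31 covN42 hx hx'
        Pool.Agent.Strip051.G.I1_16_1_8.Tab.C.NB34.c_pm_112 noCut_B noExt_B F trivial trivial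

theorem NB34_pm_113 {κ x : ℝ} (hκ : κ * h0 = ken x) (hx : ((67108864 : ℕ) : ℝ) / S ≤ x) (hx' : x ≤ (((67108864 : ℕ) : ℝ) + (67108864 : ℕ)) / S) :
    TriB PP.cur (nearL (h0 * 0) 3 κ (h0 * x) (tbl tKN x) (tbl tL x)) 1 1 3 3 4 1 (-1) :=
  (sideN hx hx').nearB (Or.inl rfl) (Or.inr rfl) fun y y' F =>
    nearB_cert (s1 := true) (s2 := false) rfl hκ covN31 covN43 hx hx'
        Pool.Agent.Strip051.G.I1_16_1_8.Tab.C.NB34.c_pm_113 noCut_B noExt_B F trivial trivial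

theorem NB34_pm_123 {κ x : ℝ} (hκ : κ * h0 = ken x) (hx : ((67108864 : ℕ) : ℝ) / S ≤ x) (hx' : x ≤ (((67108864 : ℕ) : ℝ) + (67108864 : ℕ)) / S) :
    TriB PP.cur (nearL (h0 * 0) 3 κ (h0 * x) (tbl tKN x) (tbl tL x)) 1 2 3 3 4 1 (-1) :=
  (sideN hx hx').nearB (Or.inl rfl) (Or.inr rfl) fun y y' F =>
    nearB_cert (s1 := true) (s2 := false) rfl hκ covN31 covN43 hx hx'
        Pool.Agent.Strip051.G.I1_16_1_8.Tab.C.NB34.c_pm_123 noCut_B noExt_B F trivial trivial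

theorem NB34_pm_133 {κ x : ℝ} (hκ : κ * h0 = ken x) (hx : ((67108864 : ℕ) : ℝ) / S ≤ x) (hx' : x ≤ (((67108864 : ℕ) : ℝ) + (67108864 : ℕ)) / S) :
    TriB PP.cur (nearL (h0 * 0) 3 κ (h0 * x) (tbl tKN x) (tbl tL x)) 1 3 3 3 4 1 (-1) :=
  (sideN hx hx').nearB (Or.inl rfl) (Or.inr rfl) fun y y' F =>
    nearB_cert (s1 := true) (s2 := false) rfl hκ covN31 covN43 hx hx'
        Pool.Agent.Strip051.G.I1_16_1_8.Tab.C.NB34.c_pm_133 noCut_B noExt_B F trivial trivial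

theorem NB34_pm_202 {κ x : ℝ} (hκ : κ * h0 = ken x) (hx : ((67108864 : ℕ) : ℝ) / S ≤ x) (hx' : x ≤ (((67108864 : ℕ) : ℝ) + (67108864 : ℕ)) / S) :
    TriB PP.cur (nearL (h0 * 0) 3 κ (h0 * x) (tbl tKN x) (tbl tL x)) 2 0 2 3 4 1 (-1) :=
  (sideN hx hx').nearB (Or.inl rfl) (Or.inr rfl) fun y y' F =>
    nearB_cert (s1 := true) (s2 := false) rfl hκ covN32 covN42 hx hx'
        Pool.Agent.Strip051.G.I1_16_1_8.Tab.C.NB34.c_pm_202 noCut_B noExt_B F trivial trivial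

theorem NB34_pm_203 {κ x : ℝ} (hκ : κ * h0 = ken x) (hx : ((67108864 : ℕ) : ℝ) / S ≤ x) (hx' : x ≤ (((67108864 : ℕ) : ℝ) + (67108864 : ℕ)) / S) :
    TriB PP.cur (nearL (h0 * 0) 3 κ (h0 * x) (tbl tKN x) (tbl tL x)) 2 0 3 3 4 1 (-1) :=
  (sideN hx hx').nearB (Or.inl rfl) (Or.inr rfl) fun y y' F =>
    nearB_cert (s1 := true) (s2 := false) rfl hκ covN32 covN43 hx hx'
        Pool.Agent.Strip051.G.I1_16_1_8.Tab.C.NB34.c_pm_203 noCut_B noExt_B F trivial trivial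

theorem NB34_pm_213 {κ x : ℝ} (hκ : κ * h0 = ken x) (hx : ((67108864 : ℕ) : ℝ) / S ≤ x) (hx' : x ≤ (((67108864 : ℕ) : ℝ) + (67108864 : ℕ)) / S) :
    TriB PP.cur (nearL (h0 * 0) 3 κ (h0 * x) (tbl tKN x) (tbl tL x)) 2 1 3 3 4 1 (-1) :=
  (sideN hx hx').nearB (Or.inl rfl) (Or.inr rfl) fun y y' F =>
    nearB_cert (s1 := true) (s2 := false) rfl hκ covN32 covN43 hx hx'
        Pool.Agent.Strip051.G.I1_16_1_8.Tab.C.NB34.c_pm_213 noCut_B noExt_B F trivial trivial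

theorem NB34_pm_303 {κ x : ℝ} (hκ : κ * h0 = ken x) (hx : ((67108864 : ℕ) : ℝ) / S ≤ x) (hx' : x ≤ (((67108864 : ℕ) : ℝ) + (67108864 : ℕ)) / S) :
    TriB PP.cur (nearL (h0 * 0) 3 κ (h0 * x) (tbl tKN x) (tbl tL x)) 3 0 3 3 4 1 (-1) :=
  (sideN hx hx').nearB (Or.inl rfl) (Or.inr rfl) fun y y' F =>
    nearB_cert (s1 := true) (s2 := false) rfl hκ covN33 covN43 hx hx'
        Pool.Agent.Strip051.G.I1_16_1_8.Tab.C.NB34.c_pm_303 noCut_B noExt_B F trivial trivial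

theorem NB34_pm_313 {κ x : ℝ} (hκ : κ * h0 = ken x) (hx : ((67108864 : ℕ) : ℝ) / S ≤ x) (hx' : x ≤ (((67108864 : ℕ) : ℝ) + (67108864 : ℕ)) / S) :
    TriB PP.cur (nearL (h0 * 0) 3 κ (h0 * x) (tbl tKN x) (tbl tL x)) 3 1 3 3 4 1 (-1) :=
  (sideN hx hx').nearB (Or.inl rfl) (Or.inr rfl) fun y y' F =>
    nearB_cert (s1 := true) (s2 := false) rfl hκ covN33 covN43 hx hx'
        Pool.Agent.Strip051.G.I1_16_1_8.Tab.C.NB34.c_pm_313 noCut_B noExt_B F trivial trivial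

theorem NB34_mm_001 {κ x : ℝ} (hκ : κ * h0 = ken x) (hx : ((67108864 : ℕ) : ℝ) / S ≤ x) (hx' : x ≤ (((67108864 : ℕ) : ℝ) + (67108864 : ℕ)) / S) :
    TriB PP.cur (nearL (h0 * 0) 3 κ (h0 * x) (tbl tKN x) (tbl tL x)) 0 0 1 3 4 (-1) (-1) :=
  (sideN hx hx').nearB (Or.inr rfl) (Or.inr rfl) fun y y' F =>
    nearB_cert (s1 := false) (s2 := false) rfl hκ covN30 covN41 hx hx'
        Pool.Agent.Strip051.G.I1_16_1_8.Tab.C.NB34.c_mm_001 noCut_B noExt_B F trivial trivial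

theorem NB34_mm_011 {κ x : ℝ} (hκ : κ * h0 = ken x) (hx : ((67108864 : ℕ) : ℝ) / S ≤ x) (hx' : x ≤ (((67108864 : ℕ) : ℝ) + (67108864 : ℕ)) / S) :
    TriB PP.cur (nearL (h0 * 0) 3 κ (h0 * x) (tbl tKN x) (tbl tL x)) 0 1 1 3 4 (-1) (-1) :=
  (sideN hx hx').nearB (Or.inr rfl) (Or.inr rfl) fun y y' F =>
    nearB_cert (s1 := false) (s2 := false) rfl hκ covN30 covN41 hx hx'
        Pool.Agent.Strip051.G.I1_16_1_8.Tab.C.NB34.c_mm_011 noCut_B noExt_B F trivial trivial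

theorem NB34_mm_012 {κ x : ℝ} (hκ : κ * h0 = ken x) (hx : ((67108864 : ℕ) : ℝ) / S ≤ x) (hx' : x ≤ (((67108864 : ℕ) : ℝ) + (67108864 : ℕ)) / S) :
    TriB PP.cur (nearL (h0 * 0) 3 κ (h0 * x) (tbl tKN x) (tbl tL x)) 0 1 2 3 4 (-1) (-1) :=
  (sideN hx hx').nearB (Or.inr rfl) (Or.inr rfl) fun y y' F =>
    nearB_cert (s1 := false) (s2 := false) rfl hκ covN30 covN42 hx hx'
        Pool.Agent.Strip051.G.I1_16_1_8.Tab.C.NB34.c_mm_012 noCut_B noExt_B F trivial trivial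

theorem NB34_mm_022 {κ x : ℝ} (hκ : κ * h0 = ken x) (hx : ((67108864 : ℕ) : ℝ) / S ≤ x) (hx' : x ≤ (((67108864 : ℕ) : ℝ) + (67108864 : ℕ)) / S) :
    TriB PP.cur (nearL (h0 * 0) 3 κ (h0 * x) (tbl tKN x) (tbl tL x)) 0 2 2 3 4 (-1) (-1) :=
  (sideN hx hx').nearB (Or.inr rfl) (Or.inr rfl) fun y y' F =>
    nearB_cert (s1 := false) (s2 := false) rfl hκ covN30 covN42 hx hx'
        Pool.Agent.Strip051.G.I1_16_1_8.Tab.C.NB34.c_mm_022 noCut_B noExt_B F trivial trivial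

theorem NB34_mm_023 {κ x : ℝ} (hκ : κ * h0 = ken x) (hx : ((67108864 : ℕ) : ℝ) / S ≤ x) (hx' : x ≤ (((67108864 : ℕ) : ℝ) + (67108864 : ℕ)) / S) :
    TriB PP.cur (nearL (h0 * 0) 3 κ (h0 * x) (tbl tKN x) (tbl tL x)) 0 2 3 3 4 (-1) (-1) :=
  (sideN hx hx').nearB (Or.inr rfl) (Or.inr rfl) fun y y' F =>
    nearB_cert (s1 := false) (s2 := false) rfl hκ covN30 covN43 hx hx'
        Pool.Agent.Strip051.G.I1_16_1_8.Tab.C.NB34.c_mm_023 noCut_B noExt_B F trivial trivial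

theorem NB34_mm_033 {κ x : ℝ} (hκ : κ * h0 = ken x) (hx : ((67108864 : ℕ) : ℝ) / S ≤ x) (hx' : x ≤ (((67108864 : ℕ) : ℝ) + (67108864 : ℕ)) / S) :
    TriB PP.cur (nearL (h0 * 0) 3 κ (h0 * x) (tbl tKN x) (tbl tL x)) 0 3 3 3 4 (-1) (-1) :=
  (sideN hx hx').nearB (Or.inr rfl) (Or.inr rfl) fun y y' F =>
    nearB_cert (s1 := false) (s2 := false) rfl hκ covN30 covN43 hx hx'
        Pool.Agent.Strip051.G.I1_16_1_8.Tab.C.NB34.c_mm_033 noCut_B noExt_B F trivial trivial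

theorem NB34_mm_101 {κ x : ℝ} (hκ : κ * h0 = ken x) (hx : ((67108864 : ℕ) : ℝ) / S ≤ x) (hx' : x ≤ (((67108864 : ℕ) : ℝ) + (67108864 : ℕ)) / S) :
    TriB PP.cur (nearL (h0 * 0) 3 κ (h0 * x) (tbl tKN x) (tbl tL x)) 1 0 1 3 4 (-1) (-1) :=
  (sideN hx hx').nearB (Or.inr rfl) (Or.inr rfl) fun y y' F =>
    nearB_cert (s1 := false) (s2 := false) rfl hκ covN31 covN41 hx hx'
        Pool.Agent.Strip051.G.I1_16_1_8.Tab.C.NB34.c_mm_101 noCut_B noExt_B F trivial trivial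

theorem NB34_mm_102 {κ x : ℝ} (hκ : κ * h0 = ken x) (hx : ((67108864 : ℕ) : ℝ) / S ≤ x) (hx' : x ≤ (((67108864 : ℕ) : ℝ) + (67108864 : ℕ)) / S) :
    TriB PP.cur (nearL (h0 * 0) 3 κ (h0 * x) (tbl tKN x) (tbl tL x)) 1 0 2 3 4 (-1) (-1) :=
  (sideN hx hx').nearB (Or.inr rfl) (Or.inr rfl) fun y y' F =>
    nearB_cert (s1 := false) (s2 := false) rfl hκ covN31 covN42 hx hx'
        Pool.Agent.Strip051.G.I1_16_1_8.Tab.C.NB34.c_mm_102 noCut_B noExt_B F trivial trivial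

theorem NB34_mm_112 {κ x : ℝ} (hκ : κ * h0 = ken x) (hx : ((67108864 : ℕ) : ℝ) / S ≤ x) (hx' : x ≤ (((67108864 : ℕ) : ℝ) + (67108864 : ℕ)) / S) :
    TriB PP.cur (nearL (h0 * 0) 3 κ (h0 * x) (tbl tKN x) (tbl tL x)) 1 1 2 3 4 (-1) (-1) :=
  (sideN hx hx').nearB (Or.inr rfl) (Or.inr rfl) fun y y' F =>
    nearB_cert (s1 := false) (s2 := false) rfl hκ covN31 covN42 hx hx'
        Pool.Agent.Strip051.G.I1_16_1_8.Tab.C.NB34.c_mm_112 noCut_B noExt_B F trivial trivial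

theorem NB34_mm_113 {κ x : ℝ} (hκ : κ * h0 = ken x) (hx : ((67108864 : ℕ) : ℝ) / S ≤ x) (hx' : x ≤ (((67108864 : ℕ) : ℝ) + (67108864 : ℕ)) / S) :
    TriB PP.cur (nearL (h0 * 0) 3 κ (h0 * x) (tbl tKN x) (tbl tL x)) 1 1 3 3 4 (-1) (-1) :=
  (sideN hx hx').nearB (Or.inr rfl) (Or.inr rfl) fun y y' F =>
    nearB_cert (s1 := false) (s2 := false) rfl hκ covN31 covN43 hx hx'
        Pool.Agent.Strip051.G.I1_16_1_8.Tab.C.NB34.c_mm_113 noCut_B noExt_B F trivial trivial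

theorem NB34_mm_123 {κ x : ℝ} (hκ : κ * h0 = ken x) (hx : ((67108864 : ℕ) : ℝ) / S ≤ x) (hx' : x ≤ (((67108864 : ℕ) : ℝ) + (67108864 : ℕ)) / S) :
    TriB PP.cur (nearL (h0 * 0) 3 κ (h0 * x) (tbl tKN x) (tbl tL x)) 1 2 3 3 4 (-1) (-1) :=
  (sideN hx hx').nearB (Or.inr rfl) (Or.inr rfl) fun y y' F =>
    nearB_cert (s1 := false) (s2 := false) rfl hκ covN31 covN43 hx hx'
        Pool.Agent.Strip051.G.I1_16_1_8.Tab.C.NB34.c_mm_123 noCut_B noExt_B F trivial trivial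

theorem NB34_mm_133 {κ x : ℝ} (hκ : κ * h0 = ken x) (hx : ((67108864 : ℕ) : ℝ) / S ≤ x) (hx' : x ≤ (((67108864 : ℕ) : ℝ) + (67108864 : ℕ)) / S) :
    TriB PP.cur (nearL (h0 * 0) 3 κ (h0 * x) (tbl tKN x) (tbl tL x)) 1 3 3 3 4 (-1) (-1) :=
  (sideN hx hx').nearB (Or.inr rfl) (Or.inr rfl) fun y y' F =>
    nearB_cert (s1 := false) (s2 := false) rfl hκ covN31 covN43 hx hx'
        Pool.Agent.Strip051.G.I1_16_1_8.Tab.C.NB34.c_mm_133 noCut_B noExt_B F trivial trivial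

theorem NB34_mm_202 {κ x : ℝ} (hκ : κ * h0 = ken x) (hx : ((67108864 : ℕ) : ℝ) / S ≤ x) (hx' : x ≤ (((67108864 : ℕ) : ℝ) + (67108864 : ℕ)) / S) :
    TriB PP.cur (nearL (h0 * 0) 3 κ (h0 * x) (tbl tKN x) (tbl tL x)) 2 0 2 3 4 (-1) (-1) :=
  (sideN hx hx').nearB (Or.inr rfl) (Or.inr rfl) fun y y' F =>
    nearB_cert (s1 := false) (s2 := false) rfl hκ covN32 covN42 hx hx'
        Pool.Agent.Strip051.G.I1_16_1_8.Tab.C.NB34.c_mm_202 noCut_B noExt_B F trivial trivial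

theorem NB34_mm_203 {κ x : ℝ} (hκ : κ * h0 = ken x) (hx : ((67108864 : ℕ) : ℝ) / S ≤ x) (hx' : x ≤ (((67108864 : ℕ) : ℝ) + (67108864 : ℕ)) / S) :
    TriB PP.cur (nearL (h0 * 0) 3 κ (h0 * x) (tbl tKN x) (tbl tL x)) 2 0 3 3 4 (-1) (-1) :=
  (sideN hx hx').nearB (Or.inr rfl) (Or.inr rfl) fun y y' F =>
    nearB_cert (s1 := false) (s2 := false) rfl hκ covN32 covN43 hx hx'
        Pool.Agent.Strip051.G.I1_16_1_8.Tab.C.NB34.c_mm_203 noCut_B noExt_B F trivial trivial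

theorem NB34_mm_213 {κ x : ℝ} (hκ : κ * h0 = ken x) (hx : ((67108864 : ℕ) : ℝ) / S ≤ x) (hx' : x ≤ (((67108864 : ℕ) : ℝ) + (67108864 : ℕ)) / S) :
    TriB PP.cur (nearL (h0 * 0) 3 κ (h0 * x) (tbl tKN x) (tbl tL x)) 2 1 3 3 4 (-1) (-1) :=
  (sideN hx hx').nearB (Or.inr rfl) (Or.inr rfl) fun y y' F =>
    nearB_cert (s1 := false) (s2 := false) rfl hκ covN32 covN43 hx hx'
        Pool.Agent.Strip051.G.I1_16_1_8.Tab.C.NB34.c_mm_213 noCut_B noExt_B F trivial trivial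

theorem NB34_mm_303 {κ x : ℝ} (hκ : κ * h0 = ken x) (hx : ((67108864 : ℕ) : ℝ) / S ≤ x) (hx' : x ≤ (((67108864 : ℕ) : ℝ) + (67108864 : ℕ)) / S) :
    TriB PP.cur (nearL (h0 * 0) 3 κ (h0 * x) (tbl tKN x) (tbl tL x)) 3 0 3 3 4 (-1) (-1) :=
  (sideN hx hx').nearB (Or.inr rfl) (Or.inr rfl) fun y y' F =>
    nearB_cert (s1 := false) (s2 := false) rfl hκ covN33 covN43 hx hx'
        Pool.Agent.Strip051.G.I1_16_1_8.Tab.C.NB34.c_mm_303 noCut_B noExt_B F trivial trivial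

theorem NB34_mm_313 {κ x : ℝ} (hκ : κ * h0 = ken x) (hx : ((67108864 : ℕ) : ℝ) / S ≤ x) (hx' : x ≤ (((67108864 : ℕ) : ℝ) + (67108864 : ℕ)) / S) :
    TriB PP.cur (nearL (h0 * 0) 3 κ (h0 * x) (tbl tKN x) (tbl tL x)) 3 1 3 3 4 (-1) (-1) :=
  (sideN hx hx').nearB (Or.inr rfl) (Or.inr rfl) fun y y' F =>
    nearB_cert (s1 := false) (s2 := false) rfl hκ covN33 covN43 hx hx'
        Pool.Agent.Strip051.G.I1_16_1_8.Tab.C.NB34.c_mm_313 noCut_B noExt_B F trivial trivial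

theorem NB34 {κ x : ℝ} (hκ : κ * h0 = ken x) (hx : ((67108864 : ℕ) : ℝ) / S ≤ x) (hx' : x ≤ (((67108864 : ℕ) : ℝ) + (67108864 : ℕ)) / S) : AllTB PP.cur (nearL (h0 * 0) 3 κ (h0 * x) (tbl tKN x) (tbl tL x)) 3 4 where
  pp := all17 (Q := fun a b c => TriB PP.cur (nearL (h0 * 0) 3 κ (h0 * x) (tbl tKN x) (tbl tL x)) a b c 3 4 1 1)
    (NB34_pp_001 hκ hx hx') (NB34_pp_011 hκ hx hx') (NB34_pp_012 hκ hx hx') (NB34_pp_022 hκ hx hx') (NB34_pp_023 hκ hx hx') (NB34_pp_033 hκ hx hx') (NB34_pp_101 hκ hx hx') (NB34_pp_102 hκ hx hx') (NB34_pp_112 hκ hx hx') (NB34_pp_113 hκ hx hx') (NB34_pp_123 hκ hx hx') (NB34_pp_133 hκ hx hx') (NB34_pp_202 hκ hx hx') (NB34_pp_203 hκ hx hx') (NB34_pp_213 hκ hx hx') (NB34_pp_303 hκ hx hx') (NB34_pp_313 hκ hx hx')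
  pm := all17 (Q := fun a b c => TriB PP.cur (nearL (h0 * 0) 3 κ (h0 * x) (tbl tKN x) (tbl tL x)) a b c 3 4 1 (-1))
    (NB34_pm_001 hκ hx hx') (NB34_pm_011 hκ hx hx') (NB34_pm_012 hκ hx hx') (NB34_pm_022 hκ hx hx') (NB34_pm_023 hκ hx hx') (NB34_pm_033 hκ hx hx') (NB34_pm_101 hκ hx hx') (NB34_pm_102 hκ hx hx') (NB34_pm_112 hκ hx hx') (NB34_pm_113 hκ hx hx') (NB34_pm_123 hκ hx hx') (NB34_pm_133 hκ hx hx') (NB34_pm_202 hκ hx hx') (NB34_pm_203 hκ hx hx') (NB34_pm_213 hκ hx hx') (NB34_pm_303 hκ hx hx') (NB34_pm_313 hκ hx hx')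
  mm := all17 (Q := fun a b c => TriB PP.cur (nearL (h0 * 0) 3 κ (h0 * x) (tbl tKN x) (tbl tL x)) a b c 3 4 (-1) (-1))
    (NB34_mm_001 hκ hx hx') (NB34_mm_011 hκ hx hx') (NB34_mm_012 hκ hx hx') (NB34_mm_022 hκ hx hx') (NB34_mm_023 hκ hx hx') (NB34_mm_033 hκ hx hx') (NB34_mm_101 hκ hx hx') (NB34_mm_102 hκ hx hx') (NB34_mm_112 hκ hx hx') (NB34_mm_113 hκ hx hx') (NB34_mm_123 hκ hx hx') (NB34_mm_133 hκ hx hx') (NB34_mm_202 hκ hx hx') (NB34_mm_203 hκ hx hx') (NB34_mm_213 hκ hx hx') (NB34_mm_303 hκ hx hx') (NB34_mm_313 hκ hx hx')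

theorem NB40_pp_001 {κ x : ℝ} (hκ : κ * h0 = ken x) (hx : ((67108864 : ℕ) : ℝ) / S ≤ x) (hx' : x ≤ (((67108864 : ℕ) : ℝ) + (67108864 : ℕ)) / S) :
    TriB PP.cur (nearL (h0 * 0) 3 κ (h0 * x) (tbl tKN x) (tbl tL x)) 0 0 1 4 0 1 1 :=
  (sideN hx hx').nearB (Or.inl rfl) (Or.inl rfl) fun y y' F =>
    nearB_cert (s1 := true) (s2 := true) rfl hκ covN40 covN01 hx hx'
        Pool.Agent.Strip051.G.I1_16_1_8.Tab.C.NB40.c_pp_001 noCut_B noExt_B F trivial trivial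

theorem NB40_pp_011 {κ x : ℝ} (hκ : κ * h0 = ken x) (hx : ((67108864 : ℕ) : ℝ) / S ≤ x) (hx' : x ≤ (((67108864 : ℕ) : ℝ) + (67108864 : ℕ)) / S) :
    TriB PP.cur (nearL (h0 * 0) 3 κ (h0 * x) (tbl tKN x) (tbl tL x)) 0 1 1 4 0 1 1 :=
  (sideN hx hx').nearB (Or.inl rfl) (Or.inl rfl) fun y y' F =>
    nearB_cert (s1 := true) (s2 := true) rfl hκ covN40 covN01 hx hx'
        Pool.Agent.Strip051.G.I1_16_1_8.Tab.C.NB40.c_pp_011 noCut_B noExt_B F trivial trivial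

theorem NB40_pp_012 {κ x : ℝ} (hκ : κ * h0 = ken x) (hx : ((67108864 : ℕ) : ℝ) / S ≤ x) (hx' : x ≤ (((67108864 : ℕ) : ℝ) + (67108864 : ℕ)) / S) :
    TriB PP.cur (nearL (h0 * 0) 3 κ (h0 * x) (tbl tKN x) (tbl tL x)) 0 1 2 4 0 1 1 :=
  (sideN hx hx').nearB (Or.inl rfl) (Or.inl rfl) fun y y' F =>
    nearB_cert (s1 := true) (s2 := true) rfl hκ covN40 covN02 hx hx'
        Pool.Agent.Strip051.G.I1_16_1_8.Tab.C.NB40.c_pp_012 noCut_B noExt_B F trivial trivial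

theorem NB40_pp_022 {κ x : ℝ} (hκ : κ * h0 = ken x) (hx : ((67108864 : ℕ) : ℝ) / S ≤ x) (hx' : x ≤ (((67108864 : ℕ) : ℝ) + (67108864 : ℕ)) / S) :
    TriB PP.cur (nearL (h0 * 0) 3 κ (h0 * x) (tbl tKN x) (tbl tL x)) 0 2 2 4 0 1 1 :=
  (sideN hx hx').nearB (Or.inl rfl) (Or.inl rfl) fun y y' F =>
    nearB_cert (s1 := true) (s2 := true) rfl hκ covN40 covN02 hx hx'
        Pool.Agent.Strip051.G.I1_16_1_8.Tab.C.NB40.c_pp_022 noCut_B noExt_B F trivial trivial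

theorem NB40_pp_023 {κ x : ℝ} (hκ : κ * h0 = ken x) (hx : ((67108864 : ℕ) : ℝ) / S ≤ x) (hx' : x ≤ (((67108864 : ℕ) : ℝ) + (67108864 : ℕ)) / S) :
    TriB PP.cur (nearL (h0 * 0) 3 κ (h0 * x) (tbl tKN x) (tbl tL x)) 0 2 3 4 0 1 1 :=
  triB_k0

theorem NB40_pp_033 {κ x : ℝ} (hκ : κ * h0 = ken x) (hx : ((67108864 : ℕ) : ℝ) / S ≤ x) (hx' : x ≤ (((67108864 : ℕ) : ℝ) + (67108864 : ℕ)) / S) :
    TriB PP.cur (nearL (h0 * 0) 3 κ (h0 * x) (tbl tKN x) (tbl tL x)) 0 3 3 4 0 1 1 :=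
  triB_k0

theorem NB40_pp_101 {κ x : ℝ} (hκ : κ * h0 = ken x) (hx : ((67108864 : ℕ) : ℝ) / S ≤ x) (hx' : x ≤ (((67108864 : ℕ) : ℝ) + (67108864 : ℕ)) / S) :
    TriB PP.cur (nearL (h0 * 0) 3 κ (h0 * x) (tbl tKN x) (tbl tL x)) 1 0 1 4 0 1 1 :=
  (sideN hx hx').nearB (Or.inl rfl) (Or.inl rfl) fun y y' F =>
    nearB_cert (s1 := true) (s2 := true) rfl hκ covN41 covN01 hx hx'
        Pool.Agent.Strip051.G.I1_16_1_8.Tab.C.NB40.c_pp_101 (cutB_cons (Pool.Agent.Strip051.G.I1_16_1_8.Tab.altN_B101L_40 hκ hx hx') cutB_nil) noExt_B F trivial trivial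

theorem NB40_pp_102 {κ x : ℝ} (hκ : κ * h0 = ken x) (hx : ((67108864 : ℕ) : ℝ) / S ≤ x) (hx' : x ≤ (((67108864 : ℕ) : ℝ) + (67108864 : ℕ)) / S) :
    TriB PP.cur (nearL (h0 * 0) 3 κ (h0 * x) (tbl tKN x) (tbl tL x)) 1 0 2 4 0 1 1 :=
  (sideN hx hx').nearB (Or.inl rfl) (Or.inl rfl) fun y y' F =>
    nearB_cert (s1 := true) (s2 := true) rfl hκ covN41 covN02 hx hx'
        Pool.Agent.Strip051.G.I1_16_1_8.Tab.C.NB40.c_pp_102 (cutB_cons (Pool.Agent.Strip051.G.I1_16_1_8.Tab.altN_B102L_40 hκ hx hx') cutB_nil) noExt_B F trivial trivial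

theorem NB40_pp_112 {κ x : ℝ} (hκ : κ * h0 = ken x) (hx : ((67108864 : ℕ) : ℝ) / S ≤ x) (hx' : x ≤ (((67108864 : ℕ) : ℝ) + (67108864 : ℕ)) / S) :
    TriB PP.cur (nearL (h0 * 0) 3 κ (h0 * x) (tbl tKN x) (tbl tL x)) 1 1 2 4 0 1 1 :=
  (sideN hx hx').nearB (Or.inl rfl) (Or.inl rfl) fun y y' F =>
    nearB_cert (s1 := true) (s2 := true) rfl hκ covN41 covN02 hx hx'
        Pool.Agent.Strip051.G.I1_16_1_8.Tab.C.NB40.c_pp_112 noCut_B noExt_B F trivial trivial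

theorem NB40_pp_113 {κ x : ℝ} (hκ : κ * h0 = ken x) (hx : ((67108864 : ℕ) : ℝ) / S ≤ x) (hx' : x ≤ (((67108864 : ℕ) : ℝ) + (67108864 : ℕ)) / S) :
    TriB PP.cur (nearL (h0 * 0) 3 κ (h0 * x) (tbl tKN x) (tbl tL x)) 1 1 3 4 0 1 1 :=
  triB_k0

theorem NB40_pp_123 {κ x : ℝ} (hκ : κ * h0 = ken x) (hx : ((67108864 : ℕ) : ℝ) / S ≤ x) (hx' : x ≤ (((67108864 : ℕ) : ℝ) + (67108864 : ℕ)) / S) :
    TriB PP.cur (nearL (h0 * 0) 3 κ (h0 * x) (tbl tKN x) (tbl tL x)) 1 2 3 4 0 1 1 :=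
  triB_k0

theorem NB40_pp_133 {κ x : ℝ} (hκ : κ * h0 = ken x) (hx : ((67108864 : ℕ) : ℝ) / S ≤ x) (hx' : x ≤ (((67108864 : ℕ) : ℝ) + (67108864 : ℕ)) / S) :
    TriB PP.cur (nearL (h0 * 0) 3 κ (h0 * x) (tbl tKN x) (tbl tL x)) 1 3 3 4 0 1 1 :=
  triB_k0

theorem NB40_pp_202 {κ x : ℝ} (hκ : κ * h0 = ken x) (hx : ((67108864 : ℕ) : ℝ) / S ≤ x) (hx' : x ≤ (((67108864 : ℕ) : ℝ) + (67108864 : ℕ)) / S) :
    TriB PP.cur (nearL (h0 * 0) 3 κ (h0 * x) (tbl tKN x) (tbl tL x)) 2 0 2 4 0 1 1 :=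
  (sideN hx hx').nearB (Or.inl rfl) (Or.inl rfl) fun y y' F =>
    nearB_cert (s1 := true) (s2 := true) rfl hκ covN42 covN02 hx hx'
        Pool.Agent.Strip051.G.I1_16_1_8.Tab.C.NB40.c_pp_202 (cutB_cons (Pool.Agent.Strip051.G.I1_16_1_8.Tab.altN_B202L_40 hκ hx hx') cutB_nil) noExt_B F trivial trivial

theorem NB40_pp_203 {κ x : ℝ} (hκ : κ * h0 = ken x) (hx : ((67108864 : ℕ) : ℝ) / S ≤ x) (hx' : x ≤ (((67108864 : ℕ) : ℝ) + (67108864 : ℕ)) / S) :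
    TriB PP.cur (nearL (h0 * 0) 3 κ (h0 * x) (tbl tKN x) (tbl tL x)) 2 0 3 4 0 1 1 :=
  triB_k0

theorem NB40_pp_213 {κ x : ℝ} (hκ : κ * h0 = ken x) (hx : ((67108864 : ℕ) : ℝ) / S ≤ x) (hx' : x ≤ (((67108864 : ℕ) : ℝ) + (67108864 : ℕ)) / S) :
    TriB PP.cur (nearL (h0 * 0) 3 κ (h0 * x) (tbl tKN x) (tbl tL x)) 2 1 3 4 0 1 1 :=
  triB_k0

theorem NB40_pp_303 {κ x : ℝ} (hκ : κ * h0 = ken x) (hx : ((67108864 : ℕ) : ℝ) / S ≤ x) (hx' : x ≤ (((67108864 : ℕ) : ℝ) + (67108864 : ℕ)) / S) :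
    TriB PP.cur (nearL (h0 * 0) 3 κ (h0 * x) (tbl tKN x) (tbl tL x)) 3 0 3 4 0 1 1 :=
  triB_k0

theorem NB40_pp_313 {κ x : ℝ} (hκ : κ * h0 = ken x) (hx : ((67108864 : ℕ) : ℝ) / S ≤ x) (hx' : x ≤ (((67108864 : ℕ) : ℝ) + (67108864 : ℕ)) / S) :
    TriB PP.cur (nearL (h0 * 0) 3 κ (h0 * x) (tbl tKN x) (tbl tL x)) 3 1 3 4 0 1 1 :=
  triB_k0

theorem NB40_pm_001 {κ x : ℝ} (hκ : κ * h0 = ken x) (hx : ((67108864 : ℕ) : ℝ) / S ≤ x) (hx' : x ≤ (((67108864 : ℕ) : ℝ) + (67108864 : ℕ)) / S) :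
    TriB PP.cur (nearL (h0 * 0) 3 κ (h0 * x) (tbl tKN x) (tbl tL x)) 0 0 1 4 0 1 (-1) :=
  (sideN hx hx').nearB (Or.inl rfl) (Or.inr rfl) fun y y' F =>
    nearB_cert (s1 := true) (s2 := false) rfl hκ covN40 covN01 hx hx'
        Pool.Agent.Strip051.G.I1_16_1_8.Tab.C.NB40.c_pm_001 noCut_B noExt_B F trivial trivial

theorem NB40_pm_011 {κ x : ℝ} (hκ : κ * h0 = ken x) (hx : ((67108864 : ℕ) : ℝ) / S ≤ x) (hx' : x ≤ (((67108864 : ℕ) : ℝ) + (67108864 : ℕ)) / S) :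
    TriB PP.cur (nearL (h0 * 0) 3 κ (h0 * x) (tbl tKN x) (tbl tL x)) 0 1 1 4 0 1 (-1) :=
  (sideN hx hx').nearB (Or.inl rfl) (Or.inr rfl) fun y y' F =>
    nearB_cert (s1 := true) (s2 := false) rfl hκ covN40 covN01 hx hx'
        Pool.Agent.Strip051.G.I1_16_1_8.Tab.C.NB40.c_pm_011 noCut_B noExt_B F trivial trivial

theorem NB40_pm_012 {κ x : ℝ} (hκ : κ * h0 = ken x) (hx : ((67108864 : ℕ) : ℝ) / S ≤ x) (hx' : x ≤ (((67108864 : ℕ) : ℝ) + (67108864 : ℕ)) / S) :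
    TriB PP.cur (nearL (h0 * 0) 3 κ (h0 * x) (tbl tKN x) (tbl tL x)) 0 1 2 4 0 1 (-1) :=
  (sideN hx hx').nearB (Or.inl rfl) (Or.inr rfl) fun y y' F =>
    nearB_cert (s1 := true) (s2 := false) rfl hκ covN40 covN02 hx hx'
        Pool.Agent.Strip051.G.I1_16_1_8.Tab.C.NB40.c_pm_012 noCut_B noExt_B F trivial trivial

theorem NB40_pm_022 {κ x : ℝ} (hκ : κ * h0 = ken x) (hx : ((67108864 : ℕ) : ℝ) / S ≤ x) (hx' : x ≤ (((67108864 : ℕ) : ℝ) + (67108864 : ℕ)) / S) :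
    TriB PP.cur (nearL (h0 * 0) 3 κ (h0 * x) (tbl tKN x) (tbl tL x)) 0 2 2 4 0 1 (-1) :=
  (sideN hx hx').nearB (Or.inl rfl) (Or.inr rfl) fun y y' F =>
    nearB_cert (s1 := true) (s2 := false) rfl hκ covN40 covN02 hx hx'
        Pool.Agent.Strip051.G.I1_16_1_8.Tab.C.NB40.c_pm_022 noCut_B noExt_B F trivial trivial

theorem NB40_pm_023 {κ x : ℝ} (hκ : κ * h0 = ken x) (hx : ((67108864 : ℕ) : ℝ) / S ≤ x) (hx' : x ≤ (((67108864 : ℕ) : ℝ) + (67108864 : ℕ)) / S) :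
    TriB PP.cur (nearL (h0 * 0) 3 κ (h0 * x) (tbl tKN x) (tbl tL x)) 0 2 3 4 0 1 (-1) :=
  triB_k0

theorem NB40_pm_033 {κ x : ℝ} (hκ : κ * h0 = ken x) (hx : ((67108864 : ℕ) : ℝ) / S ≤ x) (hx' : x ≤ (((67108864 : ℕ) : ℝ) + (67108864 : ℕ)) / S) :
    TriB PP.cur (nearL (h0 * 0) 3 κ (h0 * x) (tbl tKN x) (tbl tL x)) 0 3 3 4 0 1 (-1) :=
  triB_k0

theorem NB40_pm_101 {κ x : ℝ} (hκ : κ * h0 = ken x) (hx : ((67108864 : ℕ) : ℝ) / S ≤ x) (hx' : x ≤ (((67108864 : ℕ) : ℝ) + (67108864 : ℕ)) / S) :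
    TriB PP.cur (nearL (h0 * 0) 3 κ (h0 * x) (tbl tKN x) (tbl tL x)) 1 0 1 4 0 1 (-1) :=
  (sideN hx hx').nearB (Or.inl rfl) (Or.inr rfl) fun y y' F =>
    nearB_cert (s1 := true) (s2 := false) rfl hκ covN41 covN01 hx hx'
        Pool.Agent.Strip051.G.I1_16_1_8.Tab.C.NB40.c_pm_101 noCut_B noExt_B F trivial trivial

theorem NB40_pm_102 {κ x : ℝ} (hκ : κ * h0 = ken x) (hx : ((67108864 : ℕ) : ℝ) / S ≤ x) (hx' : x ≤ (((67108864 : ℕ) : ℝ) + (67108864 : ℕ)) / S) :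
    TriB PP.cur (nearL (h0 * 0) 3 κ (h0 * x) (tbl tKN x) (tbl tL x)) 1 0 2 4 0 1 (-1) :=
  (sideN hx hx').nearB (Or.inl rfl) (Or.inr rfl) fun y y' F =>
    nearB_cert (s1 := true) (s2 := false) rfl hκ covN41 covN02 hx hx'
        Pool.Agent.Strip051.G.I1_16_1_8.Tab.C.NB40.c_pm_102 noCut_B noExt_B F trivial trivial

theorem NB40_pm_112 {κ x : ℝ} (hκ : κ * h0 = ken x) (hx : ((67108864 : ℕ) : ℝ) / S ≤ x) (hx' : x ≤ (((67108864 : ℕ) : ℝ) + (67108864 : ℕ)) / S) :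
    TriB PP.cur (nearL (h0 * 0) 3 κ (h0 * x) (tbl tKN x) (tbl tL x)) 1 1 2 4 0 1 (-1) :=
  (sideN hx hx').nearB (Or.inl rfl) (Or.inr rfl) fun y y' F =>
    nearB_cert (s1 := true) (s2 := false) rfl hκ covN41 covN02 hx hx'
        Pool.Agent.Strip051.G.I1_16_1_8.Tab.C.NB40.c_pm_112 noCut_B noExt_B F trivial trivial

theorem NB40_pm_113 {κ x : ℝ} (hκ : κ * h0 = ken x) (hx : ((67108864 : ℕ) : ℝ) / S ≤ x) (hx' : x ≤ (((67108864 : ℕ) : ℝ) + (67108864 : ℕ)) / S) :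
    TriB PP.cur (nearL (h0 * 0) 3 κ (h0 * x) (tbl tKN x) (tbl tL x)) 1 1 3 4 0 1 (-1) :=
  triB_k0

theorem NB40_pm_123 {κ x : ℝ} (hκ : κ * h0 = ken x) (hx : ((67108864 : ℕ) : ℝ) / S ≤ x) (hx' : x ≤ (((67108864 : ℕ) : ℝ) + (67108864 : ℕ)) / S) :
    TriB PP.cur (nearL (h0 * 0) 3 κ (h0 * x) (tbl tKN x) (tbl tL x)) 1 2 3 4 0 1 (-1) :=
  triB_k0

theorem NB40_pm_133 {κ x : ℝ} (hκ : κ * h0 = ken x) (hx : ((67108864 : ℕ) : ℝ) / S ≤ x) (hx' : x ≤ (((67108864 : ℕ) : ℝ) + (67108864 : ℕ)) / S) :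
    TriB PP.cur (nearL (h0 * 0) 3 κ (h0 * x) (tbl tKN x) (tbl tL x)) 1 3 3 4 0 1 (-1) :=
  triB_k0

theorem NB40_pm_202 {κ x : ℝ} (hκ : κ * h0 = ken x) (hx : ((67108864 : ℕ) : ℝ) / S ≤ x) (hx' : x ≤ (((67108864 : ℕ) : ℝ) + (67108864 : ℕ)) / S) :
    TriB PP.cur (nearL (h0 * 0) 3 κ (h0 * x) (tbl tKN x) (tbl tL x)) 2 0 2 4 0 1 (-1) :=
  (sideN hx hx').nearB (Or.inl rfl) (Or.inr rfl) fun y y' F =>
    nearB_cert (s1 := true) (s2 := false) rfl hκ covN42 covN02 hx hx'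
        Pool.Agent.Strip051.G.I1_16_1_8.Tab.C.NB40.c_pm_202 noCut_B noExt_B F trivial trivial

theorem NB40_pm_203 {κ x : ℝ} (hκ : κ * h0 = ken x) (hx : ((67108864 : ℕ) : ℝ) / S ≤ x) (hx' : x ≤ (((67108864 : ℕ) : ℝ) + (67108864 : ℕ)) / S) :
    TriB PP.cur (nearL (h0 * 0) 3 κ (h0 * x) (tbl tKN x) (tbl tL x)) 2 0 3 4 0 1 (-1) :=
  triB_k0

theorem NB40_pm_213 {κ x : ℝ} (hκ : κ * h0 = ken x) (hx : ((67108864 : ℕ) : ℝ) / S ≤ x) (hx' : x ≤ (((67108864 : ℕ) : ℝ) + (67108864 : ℕ)) / S) :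
    TriB PP.cur (nearL (h0 * 0) 3 κ (h0 * x) (tbl tKN x) (tbl tL x)) 2 1 3 4 0 1 (-1) :=
  triB_k0

theorem NB40_pm_303 {κ x : ℝ} (hκ : κ * h0 = ken x) (hx : ((67108864 : ℕ) : ℝ) / S ≤ x) (hx' : x ≤ (((67108864 : ℕ) : ℝ) + (67108864 : ℕ)) / S) :
    TriB PP.cur (nearL (h0 * 0) 3 κ (h0 * x) (tbl tKN x) (tbl tL x)) 3 0 3 4 0 1 (-1) :=
  triB_k0

theorem NB40_pm_313 {κ x : ℝ} (hκ : κ * h0 = ken x) (hx : ((67108864 : ℕ) : ℝ) / S ≤ x) (hx' : x ≤ (((67108864 : ℕ) : ℝ) + (67108864 : ℕ)) / S) :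
    TriB PP.cur (nearL (h0 * 0) 3 κ (h0 * x) (tbl tKN x) (tbl tL x)) 3 1 3 4 0 1 (-1) :=
  triB_k0

theorem NB40_mm_001 {κ x : ℝ} (hκ : κ * h0 = ken x) (hx : ((67108864 : ℕ) : ℝ) / S ≤ x) (hx' : x ≤ (((67108864 : ℕ) : ℝ) + (67108864 : ℕ)) / S) :
    TriB PP.cur (nearL (h0 * 0) 3 κ (h0 * x) (tbl tKN x) (tbl tL x)) 0 0 1 4 0 (-1) (-1) :=
  (sideN hx hx').nearB (Or.inr rfl) (Or.inr rfl) fun y y' F =>
    nearB_cert (s1 := false) (s2 := false) rfl hκ covN40 covN01 hx hx'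
        Pool.Agent.Strip051.G.I1_16_1_8.Tab.C.NB40.c_mm_001 noCut_B noExt_B F trivial trivial

theorem NB40_mm_011 {κ x : ℝ} (hκ : κ * h0 = ken x) (hx : ((67108864 : ℕ) : ℝ) / S ≤ x) (hx' : x ≤ (((67108864 : ℕ) : ℝ) + (67108864 : ℕ)) / S) :
    TriB PP.cur (nearL (h0 * 0) 3 κ (h0 * x) (tbl tKN x) (tbl tL x)) 0 1 1 4 0 (-1) (-1) :=
  (sideN hx hx').nearB (Or.inr rfl) (Or.inr rfl) fun y y' F =>
    nearB_cert (s1 := false) (s2 := false) rfl hκ covN40 covN01 hx hx'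
        Pool.Agent.Strip051.G.I1_16_1_8.Tab.C.NB40.c_mm_011 noCut_B noExt_B F trivial trivial

theorem NB40_mm_012 {κ x : ℝ} (hκ : κ * h0 = ken x) (hx : ((67108864 : ℕ) : ℝ) / S ≤ x) (hx' : x ≤ (((67108864 : ℕ) : ℝ) + (67108864 : ℕ)) / S) :
    TriB PP.cur (nearL (h0 * 0) 3 κ (h0 * x) (tbl tKN x) (tbl tL x)) 0 1 2 4 0 (-1) (-1) :=
  (sideN hx hx').nearB (Or.inr rfl) (Or.inr rfl) fun y y' F =>
    nearB_cert (s1 := false) (s2 := false) rfl hκ covN40 covN02 hx hx'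
        Pool.Agent.Strip051.G.I1_16_1_8.Tab.C.NB40.c_mm_012 noCut_B noExt_B F trivial trivial

theorem NB40_mm_022 {κ x : ℝ} (hκ : κ * h0 = ken x) (hx : ((67108864 : ℕ) : ℝ) / S ≤ x) (hx' : x ≤ (((67108864 : ℕ) : ℝ) + (67108864 : ℕ)) / S) :
    TriB PP.cur (nearL (h0 * 0) 3 κ (h0 * x) (tbl tKN x) (tbl tL x)) 0 2 2 4 0 (-1) (-1) :=
  (sideN hx hx').nearB (Or.inr rfl) (Or.inr rfl) fun y y' F =>
    nearB_cert (s1 := false) (s2 := false) rfl hκ covN40 covN02 hx hx'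
        Pool.Agent.Strip051.G.I1_16_1_8.Tab.C.NB40.c_mm_022 noCut_B noExt_B F trivial trivial

theorem NB40_mm_023 {κ x : ℝ} (hκ : κ * h0 = ken x) (hx : ((67108864 : ℕ) : ℝ) / S ≤ x) (hx' : x ≤ (((67108864 : ℕ) : ℝ) + (67108864 : ℕ)) / S) :
    TriB PP.cur (nearL (h0 * 0) 3 κ (h0 * x) (tbl tKN x) (tbl tL x)) 0 2 3 4 0 (-1) (-1) :=
  triB_k0

theorem NB40_mm_033 {κ x : ℝ} (hκ : κ * h0 = ken x) (hx : ((67108864 : ℕ) : ℝ) / S ≤ x) (hx' : x ≤ (((67108864 : ℕ) : ℝ) + (67108864 : ℕ)) / S) :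
    TriB PP.cur (nearL (h0 * 0) 3 κ (h0 * x) (tbl tKN x) (tbl tL x)) 0 3 3 4 0 (-1) (-1) :=
  triB_k0

theorem NB40_mm_101 {κ x : ℝ} (hκ : κ * h0 = ken x) (hx : ((67108864 : ℕ) : ℝ) / S ≤ x) (hx' : x ≤ (((67108864 : ℕ) : ℝ) + (67108864 : ℕ)) / S) :
    TriB PP.cur (nearL (h0 * 0) 3 κ (h0 * x) (tbl tKN x) (tbl tL x)) 1 0 1 4 0 (-1) (-1) :=
  (sideN hx hx').nearB (Or.inr rfl) (Or.inr rfl) fun y y' F =>
    nearB_cert (s1 := false) (s2 := false) rfl hκ covN41 covN01 hx hx'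
        Pool.Agent.Strip051.G.I1_16_1_8.Tab.C.NB40.c_mm_101 noCut_B noExt_B F trivial trivial

theorem NB40_mm_102 {κ x : ℝ} (hκ : κ * h0 = ken x) (hx : ((67108864 : ℕ) : ℝ) / S ≤ x) (hx' : x ≤ (((67108864 : ℕ) : ℝ) + (67108864 : ℕ)) / S) :
    TriB PP.cur (nearL (h0 * 0) 3 κ (h0 * x) (tbl tKN x) (tbl tL x)) 1 0 2 4 0 (-1) (-1) :=
  (sideN hx hx').nearB (Or.inr rfl) (Or.inr rfl) fun y y' F =>
    nearB_cert (s1 := false) (s2 := false) rfl hκ covN41 covN02 hx hx'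
        Pool.Agent.Strip051.G.I1_16_1_8.Tab.C.NB40.c_mm_102 noCut_B noExt_B F trivial trivial

theorem NB40_mm_112 {κ x : ℝ} (hκ : κ * h0 = ken x) (hx : ((67108864 : ℕ) : ℝ) / S ≤ x) (hx' : x ≤ (((67108864 : ℕ) : ℝ) + (67108864 : ℕ)) / S) :
    TriB PP.cur (nearL (h0 * 0) 3 κ (h0 * x) (tbl tKN x) (tbl tL x)) 1 1 2 4 0 (-1) (-1) :=
  (sideN hx hx').nearB (Or.inr rfl) (Or.inr rfl) fun y y' F =>
    nearB_cert (s1 := false) (s2 := false) rfl hκ covN41 covN02 hx hx'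
        Pool.Agent.Strip051.G.I1_16_1_8.Tab.C.NB40.c_mm_112 noCut_B noExt_B F trivial trivial

theorem NB40_mm_113 {κ x : ℝ} (hκ : κ * h0 = ken x) (hx : ((67108864 : ℕ) : ℝ) / S ≤ x) (hx' : x ≤ (((67108864 : ℕ) : ℝ) + (67108864 : ℕ)) / S) :
    TriB PP.cur (nearL (h0 * 0) 3 κ (h0 * x) (tbl tKN x) (tbl tL x)) 1 1 3 4 0 (-1) (-1) :=
  triB_k0

theorem NB40_mm_123 {κ x : ℝ} (hκ : κ * h0 = ken x) (hx : ((67108864 : ℕ) : ℝ) / S ≤ x) (hx' : x ≤ (((67108864 : ℕ) : ℝ) + (67108864 : ℕ)) / S) :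
    TriB PP.cur (nearL (h0 * 0) 3 κ (h0 * x) (tbl tKN x) (tbl tL x)) 1 2 3 4 0 (-1) (-1) :=
  triB_k0

theorem NB40_mm_133 {κ x : ℝ} (hκ : κ * h0 = ken x) (hx : ((67108864 : ℕ) : ℝ) / S ≤ x) (hx' : x ≤ (((67108864 : ℕ) : ℝ) + (67108864 : ℕ)) / S) :
    TriB PP.cur (nearL (h0 * 0) 3 κ (h0 * x) (tbl tKN x) (tbl tL x)) 1 3 3 4 0 (-1) (-1) :=
  triB_k0

theorem NB40_mm_202 {κ x : ℝ} (hκ : κ * h0 = ken x) (hx : ((67108864 : ℕ) : ℝ) / S ≤ x) (hx' : x ≤ (((67108864 : ℕ) : ℝ) + (67108864 : ℕ)) / S) :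
    TriB PP.cur (nearL (h0 * 0) 3 κ (h0 * x) (tbl tKN x) (tbl tL x)) 2 0 2 4 0 (-1) (-1) :=
  (sideN hx hx').nearB (Or.inr rfl) (Or.inr rfl) fun y y' F =>
    nearB_cert (s1 := false) (s2 := false) rfl hκ covN42 covN02 hx hx'
        Pool.Agent.Strip051.G.I1_16_1_8.Tab.C.NB40.c_mm_202 noCut_B noExt_B F trivial trivial

theorem NB40_mm_203 {κ x : ℝ} (hκ : κ * h0 = ken x) (hx : ((67108864 : ℕ) : ℝ) / S ≤ x) (hx' : x ≤ (((67108864 : ℕ) : ℝ) + (67108864 : ℕ)) / S) :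
    TriB PP.cur (nearL (h0 * 0) 3 κ (h0 * x) (tbl tKN x) (tbl tL x)) 2 0 3 4 0 (-1) (-1) :=
  triB_k0

theorem NB40_mm_213 {κ x : ℝ} (hκ : κ * h0 = ken x) (hx : ((67108864 : ℕ) : ℝ) / S ≤ x) (hx' : x ≤ (((67108864 : ℕ) : ℝ) + (67108864 : ℕ)) / S) :
    TriB PP.cur (nearL (h0 * 0) 3 κ (h0 * x) (tbl tKN x) (tbl tL x)) 2 1 3 4 0 (-1) (-1) :=
  triB_k0

theorem NB40_mm_303 {κ x : ℝ} (hκ : κ * h0 = ken x) (hx : ((67108864 : ℕ) : ℝ) / S ≤ x) (hx' : x ≤ (((67108864 : ℕ) : ℝ) + (67108864 : ℕ)) / S) :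
    TriB PP.cur (nearL (h0 * 0) 3 κ (h0 * x) (tbl tKN x) (tbl tL x)) 3 0 3 4 0 (-1) (-1) :=
  triB_k0

theorem NB40_mm_313 {κ x : ℝ} (hκ : κ * h0 = ken x) (hx : ((67108864 : ℕ) : ℝ) / S ≤ x) (hx' : x ≤ (((67108864 : ℕ) : ℝ) + (67108864 : ℕ)) / S) :
    TriB PP.cur (nearL (h0 * 0) 3 κ (h0 * x) (tbl tKN x) (tbl tL x)) 3 1 3 4 0 (-1) (-1) :=
  triB_k0

theorem NB40 {κ x : ℝ} (hκ : κ * h0 = ken x) (hx : ((67108864 : ℕ) : ℝ) / S ≤ x) (hx' : x ≤ (((67108864 : ℕ) : ℝ) + (67108864 : ℕ)) / S) : AllTB PP.cur (nearL (h0 * 0) 3 κ (h0 * x) (tbl tKN x) (tbl tL x)) 4 0 where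
  pp := all17 (Q := fun a b c => TriB PP.cur (nearL (h0 * 0) 3 κ (h0 * x) (tbl tKN x) (tbl tL x)) a b c 4 0 1 1)
    (NB40_pp_001 hκ hx hx') (NB40_pp_011 hκ hx hx') (NB40_pp_012 hκ hx hx') (NB40_pp_022 hκ hx hx') (NB40_pp_023 hκ hx hx') (NB40_pp_033 hκ hx hx') (NB40_pp_101 hκ hx hx') (NB40_pp_102 hκ hx hx') (NB40_pp_112 hκ hx hx') (NB40_pp_113 hκ hx hx') (NB40_pp_123 hκ hx hx') (NB40_pp_133 hκ hx hx') (NB40_pp_202 hκ hx hx') (NB40_pp_203 hκ hx hx') (NB40_pp_213 hκ hx hx') (NB40_pp_303 hκ hx hx') (NB40_pp_313 hκ hx hx')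
  pm := all17 (Q := fun a b c => TriB PP.cur (nearL (h0 * 0) 3 κ (h0 * x) (tbl tKN x) (tbl tL x)) a b c 4 0 1 (-1))
    (NB40_pm_001 hκ hx hx') (NB40_pm_011 hκ hx hx') (NB40_pm_012 hκ hx hx') (NB40_pm_022 hκ hx hx') (NB40_pm_023 hκ hx hx') (NB40_pm_033 hκ hx hx') (NB40_pm_101 hκ hx hx') (NB40_pm_102 hκ hx hx') (NB40_pm_112 hκ hx hx') (NB40_pm_113 hκ hx hx') (NB40_pm_123 hκ hx hx') (NB40_pm_133 hκ hx hx') (NB40_pm_202 hκ hx hx') (NB40_pm_203 hκ hx hx') (NB40_pm_213 hκ hx hx') (NB40_pm_303 hκ hx hx') (NB40_pm_313 hκ hx hx')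
  mm := all17 (Q := fun a b c => TriB PP.cur (nearL (h0 * 0) 3 κ (h0 * x) (tbl tKN x) (tbl tL x)) a b c 4 0 (-1) (-1))
    (NB40_mm_001 hκ hx hx') (NB40_mm_011 hκ hx hx') (NB40_mm_012 hκ hx hx') (NB40_mm_022 hκ hx hx') (NB40_mm_023 hκ hx hx') (NB40_mm_033 hκ hx hx') (NB40_mm_101 hκ hx hx') (NB40_mm_102 hκ hx hx') (NB40_mm_112 hκ hx hx') (NB40_mm_113 hκ hx hx') (NB40_mm_123 hκ hx hx') (NB40_mm_133 hκ hx hx') (NB40_mm_202 hκ hx hx') (NB40_mm_203 hκ hx hx') (NB40_mm_213 hκ hx hx') (NB40_mm_303 hκ hx hx') (NB40_mm_313 hκ hx hx')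

theorem NB41_pp_001 {κ x : ℝ} (hκ : κ * h0 = ken x) (hx : ((67108864 : ℕ) : ℝ) / S ≤ x) (hx' : x ≤ (((67108864 : ℕ) : ℝ) + (67108864 : ℕ)) / S) :
    TriB PP.cur (nearL (h0 * 0) 3 κ (h0 * x) (tbl tKN x) (tbl tL x)) 0 0 1 4 1 1 1 :=
  (sideN hx hx').nearB (Or.inl rfl) (Or.inl rfl) fun y y' F =>
    nearB_cert (s1 := true) (s2 := true) rfl hκ covN40 covN11 hx hx'
        Pool.Agent.Strip051.G.I1_16_1_8.Tab.C.NB41.c_pp_001 noCut_B noExt_B F trivial trivial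

theorem NB41_pp_011 {κ x : ℝ} (hκ : κ * h0 = ken x) (hx : ((67108864 : ℕ) : ℝ) / S ≤ x) (hx' : x ≤ (((67108864 : ℕ) : ℝ) + (67108864 : ℕ)) / S) :
    TriB PP.cur (nearL (h0 * 0) 3 κ (h0 * x) (tbl tKN x) (tbl tL x)) 0 1 1 4 1 1 1 :=
  (sideN hx hx').nearB (Or.inl rfl) (Or.inl rfl) fun y y' F =>
    nearB_cert (s1 := true) (s2 := true) rfl hκ covN40 covN11 hx hx'
        Pool.Agent.Strip051.G.I1_16_1_8.Tab.C.NB41.c_pp_011 noCut_B noExt_B F trivial trivial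

theorem NB41_pp_012 {κ x : ℝ} (hκ : κ * h0 = ken x) (hx : ((67108864 : ℕ) : ℝ) / S ≤ x) (hx' : x ≤ (((67108864 : ℕ) : ℝ) + (67108864 : ℕ)) / S) :
    TriB PP.cur (nearL (h0 * 0) 3 κ (h0 * x) (tbl tKN x) (tbl tL x)) 0 1 2 4 1 1 1 :=
  (sideN hx hx').nearB (Or.inl rfl) (Or.inl rfl) fun y y' F =>
    (lt_or_ge (h0 * (y + y')) 1).elim
      (fun g => nearB_cert (s1 := true) (s2 := true) rfl hκ covN40 covN12a hx hx'
        Pool.Agent.Strip051.G.I1_16_1_8.Tab.C.NB41.c_pp_012_a noCut_B noExt_B F trivial g)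
      (fun g => nearB_cert (s1 := true) (s2 := true) rfl hκ covN40 covN12b hx hx'
        Pool.Agent.Strip051.G.I1_16_1_8.Tab.C.NB41.c_pp_012_b noCut_B noExt_B F trivial g)

theorem NB41_pp_022 {κ x : ℝ} (hκ : κ * h0 = ken x) (hx : ((67108864 : ℕ) : ℝ) / S ≤ x) (hx' : x ≤ (((67108864 : ℕ) : ℝ) + (67108864 : ℕ)) / S) :
    TriB PP.cur (nearL (h0 * 0) 3 κ (h0 * x) (tbl tKN x) (tbl tL x)) 0 2 2 4 1 1 1 :=
  (sideN hx hx').nearB (Or.inl rfl) (Or.inl rfl) fun y y' F =>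
    (lt_or_ge (h0 * (y + y')) 1).elim
      (fun g => nearB_cert (s1 := true) (s2 := true) rfl hκ covN40 covN12a hx hx'
        Pool.Agent.Strip051.G.I1_16_1_8.Tab.C.NB41.c_pp_022_a noCut_B noExt_B F trivial g)
      (fun g => nearB_cert (s1 := true) (s2 := true) rfl hκ covN40 covN12b hx hx'
        Pool.Agent.Strip051.G.I1_16_1_8.Tab.C.NB41.c_pp_022_b noCut_B noExt_B F trivial g)

theorem NB41_pp_023 {κ x : ℝ} (hκ : κ * h0 = ken x) (hx : ((67108864 : ℕ) : ℝ) / S ≤ x) (hx' : x ≤ (((67108864 : ℕ) : ℝ) + (67108864 : ℕ)) / S) :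
    TriB PP.cur (nearL (h0 * 0) 3 κ (h0 * x) (tbl tKN x) (tbl tL x)) 0 2 3 4 1 1 1 :=
  (sideN hx hx').nearB (Or.inl rfl) (Or.inl rfl) fun y y' F =>
    nearB_cert (s1 := true) (s2 := true) rfl hκ covN40 covN13 hx hx'
        Pool.Agent.Strip051.G.I1_16_1_8.Tab.C.NB41.c_pp_023 noCut_B noExt_B F trivial trivial

theorem NB41_pp_033 {κ x : ℝ} (hκ : κ * h0 = ken x) (hx : ((67108864 : ℕ) : ℝ) / S ≤ x) (hx' : x ≤ (((67108864 : ℕ) : ℝ) + (67108864 : ℕ)) / S) :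
    TriB PP.cur (nearL (h0 * 0) 3 κ (h0 * x) (tbl tKN x) (tbl tL x)) 0 3 3 4 1 1 1 :=
  (sideN hx hx').nearB (Or.inl rfl) (Or.inl rfl) fun y y' F =>
    nearB_cert (s1 := true) (s2 := true) rfl hκ covN40 covN13 hx hx'
        Pool.Agent.Strip051.G.I1_16_1_8.Tab.C.NB41.c_pp_033 noCut_B noExt_B F trivial trivial

theorem NB41_pp_101 {κ x : ℝ} (hκ : κ * h0 = ken x) (hx : ((67108864 : ℕ) : ℝ) / S ≤ x) (hx' : x ≤ (((67108864 : ℕ) : ℝ) + (67108864 : ℕ)) / S) :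
    TriB PP.cur (nearL (h0 * 0) 3 κ (h0 * x) (tbl tKN x) (tbl tL x)) 1 0 1 4 1 1 1 :=
  (sideN hx hx').nearB (Or.inl rfl) (Or.inl rfl) fun y y' F =>
    nearB_cert (s1 := true) (s2 := true) rfl hκ covN41 covN11 hx hx'
        Pool.Agent.Strip051.G.I1_16_1_8.Tab.C.NB41.c_pp_101 noCut_B noExt_B F trivial trivial

theorem NB41_pp_102 {κ x : ℝ} (hκ : κ * h0 = ken x) (hx : ((67108864 : ℕ) : ℝ) / S ≤ x) (hx' : x ≤ (((67108864 : ℕ) : ℝ) + (67108864 : ℕ)) / S) :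
    TriB PP.cur (nearL (h0 * 0) 3 κ (h0 * x) (tbl tKN x) (tbl tL x)) 1 0 2 4 1 1 1 :=
  (sideN hx hx').nearB (Or.inl rfl) (Or.inl rfl) fun y y' F =>
    (lt_or_ge (h0 * (y + y')) 1).elim
      (fun g => nearB_cert (s1 := true) (s2 := true) rfl hκ covN41 covN12a hx hx'
        Pool.Agent.Strip051.G.I1_16_1_8.Tab.C.NB41.c_pp_102_a (cutB_cons (Pool.Agent.Strip051.G.I1_16_1_8.Tab.altN_B102L_41 hκ hx hx') cutB_nil) noExt_B F trivial g)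
      (fun g => nearB_cert (s1 := true) (s2 := true) rfl hκ covN41 covN12b hx hx'
        Pool.Agent.Strip051.G.I1_16_1_8.Tab.C.NB41.c_pp_102_b (cutB_cons (Pool.Agent.Strip051.G.I1_16_1_8.Tab.altN_B102L_41 hκ hx hx') cutB_nil) noExt_B F trivial g)

theorem NB41_pp_112 {κ x : ℝ} (hκ : κ * h0 = ken x) (hx : ((67108864 : ℕ) : ℝ) / S ≤ x) (hx' : x ≤ (((67108864 : ℕ) : ℝ) + (67108864 : ℕ)) / S) :
    TriB PP.cur (nearL (h0 * 0) 3 κ (h0 * x) (tbl tKN x) (tbl tL x)) 1 1 2 4 1 1 1 :=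
  (sideN hx hx').nearB (Or.inl rfl) (Or.inl rfl) fun y y' F =>
    (lt_or_ge (h0 * (y + y')) 1).elim
      (fun g => nearB_cert (s1 := true) (s2 := true) rfl hκ covN41 covN12a hx hx'
        Pool.Agent.Strip051.G.I1_16_1_8.Tab.C.NB41.c_pp_112_a noCut_B noExt_B F trivial g)
      (fun g => nearB_cert (s1 := true) (s2 := true) rfl hκ covN41 covN12b hx hx'
        Pool.Agent.Strip051.G.I1_16_1_8.Tab.C.NB41.c_pp_112_b noCut_B noExt_B F trivial g)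

theorem NB41_pp_113 {κ x : ℝ} (hκ : κ * h0 = ken x) (hx : ((67108864 : ℕ) : ℝ) / S ≤ x) (hx' : x ≤ (((67108864 : ℕ) : ℝ) + (67108864 : ℕ)) / S) :
    TriB PP.cur (nearL (h0 * 0) 3 κ (h0 * x) (tbl tKN x) (tbl tL x)) 1 1 3 4 1 1 1 :=
  (sideN hx hx').nearB (Or.inl rfl) (Or.inl rfl) fun y y' F =>
    nearB_cert (s1 := true) (s2 := true) rfl hκ covN41 covN13 hx hx'
        Pool.Agent.Strip051.G.I1_16_1_8.Tab.C.NB41.c_pp_113 noCut_B noExt_B F trivial trivial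

theorem NB41_pp_123 {κ x : ℝ} (hκ : κ * h0 = ken x) (hx : ((67108864 : ℕ) : ℝ) / S ≤ x) (hx' : x ≤ (((67108864 : ℕ) : ℝ) + (67108864 : ℕ)) / S) :
    TriB PP.cur (nearL (h0 * 0) 3 κ (h0 * x) (tbl tKN x) (tbl tL x)) 1 2 3 4 1 1 1 :=
  (sideN hx hx').nearB (Or.inl rfl) (Or.inl rfl) fun y y' F =>
    nearB_cert (s1 := true) (s2 := true) rfl hκ covN41 covN13 hx hx'
        Pool.Agent.Strip051.G.I1_16_1_8.Tab.C.NB41.c_pp_123 noCut_B noExt_B F trivial trivial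

theorem NB41_pp_133 {κ x : ℝ} (hκ : κ * h0 = ken x) (hx : ((67108864 : ℕ) : ℝ) / S ≤ x) (hx' : x ≤ (((67108864 : ℕ) : ℝ) + (67108864 : ℕ)) / S) :
    TriB PP.cur (nearL (h0 * 0) 3 κ (h0 * x) (tbl tKN x) (tbl tL x)) 1 3 3 4 1 1 1 :=
  (sideN hx hx').nearB (Or.inl rfl) (Or.inl rfl) fun y y' F =>
    nearB_cert (s1 := true) (s2 := true) rfl hκ covN41 covN13 hx hx'
        Pool.Agent.Strip051.G.I1_16_1_8.Tab.C.NB41.c_pp_133 noCut_B noExt_B F trivial trivial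

theorem NB41_pp_202 {κ x : ℝ} (hκ : κ * h0 = ken x) (hx : ((67108864 : ℕ) : ℝ) / S ≤ x) (hx' : x ≤ (((67108864 : ℕ) : ℝ) + (67108864 : ℕ)) / S) :
    TriB PP.cur (nearL (h0 * 0) 3 κ (h0 * x) (tbl tKN x) (tbl tL x)) 2 0 2 4 1 1 1 :=
  (sideN hx hx').nearB (Or.inl rfl) (Or.inl rfl) fun y y' F =>
    (lt_or_ge (h0 * (y + y')) 1).elim
      (fun g => nearB_cert (s1 := true) (s2 := true) rfl hκ covN42 covN12a hx hx'
        Pool.Agent.Strip051.G.I1_16_1_8.Tab.C.NB41.c_pp_202_a (cutB_cons (Pool.Agent.Strip051.G.I1_16_1_8.Tab.altN_B202L_41 hκ hx hx') cutB_nil) noExt_B F trivial g)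
      (fun g => nearB_cert (s1 := true) (s2 := true) rfl hκ covN42 covN12b hx hx'
        Pool.Agent.Strip051.G.I1_16_1_8.Tab.C.NB41.c_pp_202_b (cutB_cons (Pool.Agent.Strip051.G.I1_16_1_8.Tab.altN_B202L_41 hκ hx hx') cutB_nil) noExt_B F trivial g)

theorem NB41_pp_203 {κ x : ℝ} (hκ : κ * h0 = ken x) (hx : ((67108864 : ℕ) : ℝ) / S ≤ x) (hx' : x ≤ (((67108864 : ℕ) : ℝ) + (67108864 : ℕ)) / S) :
    TriB PP.cur (nearL (h0 * 0) 3 κ (h0 * x) (tbl tKN x) (tbl tL x)) 2 0 3 4 1 1 1 :=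
  (sideN hx hx').nearB (Or.inl rfl) (Or.inl rfl) fun y y' F =>
    nearB_cert (s1 := true) (s2 := true) rfl hκ covN42 covN13 hx hx'
        Pool.Agent.Strip051.G.I1_16_1_8.Tab.C.NB41.c_pp_203 noCut_B noExt_B F trivial trivial

theorem NB41_pp_213 {κ x : ℝ} (hκ : κ * h0 = ken x) (hx : ((67108864 : ℕ) : ℝ) / S ≤ x) (hx' : x ≤ (((67108864 : ℕ) : ℝ) + (67108864 : ℕ)) / S) :
    TriB PP.cur (nearL (h0 * 0) 3 κ (h0 * x) (tbl tKN x) (tbl tL x)) 2 1 3 4 1 1 1 :=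
  (sideN hx hx').nearB (Or.inl rfl) (Or.inl rfl) fun y y' F =>
    nearB_cert (s1 := true) (s2 := true) rfl hκ covN42 covN13 hx hx'
        Pool.Agent.Strip051.G.I1_16_1_8.Tab.C.NB41.c_pp_213 noCut_B noExt_B F trivial trivial

theorem NB41_pp_303 {κ x : ℝ} (hκ : κ * h0 = ken x) (hx : ((67108864 : ℕ) : ℝ) / S ≤ x) (hx' : x ≤ (((67108864 : ℕ) : ℝ) + (67108864 : ℕ)) / S) :
    TriB PP.cur (nearL (h0 * 0) 3 κ (h0 * x) (tbl tKN x) (tbl tL x)) 3 0 3 4 1 1 1 :=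
  (sideN hx hx').nearB (Or.inl rfl) (Or.inl rfl) fun y y' F =>
    nearB_cert (s1 := true) (s2 := true) rfl hκ covN43 covN13 hx hx'
        Pool.Agent.Strip051.G.I1_16_1_8.Tab.C.NB41.c_pp_303 noCut_B noExt_B F trivial trivial

theorem NB41_pp_313 {κ x : ℝ} (hκ : κ * h0 = ken x) (hx : ((67108864 : ℕ) : ℝ) / S ≤ x) (hx' : x ≤ (((67108864 : ℕ) : ℝ) + (67108864 : ℕ)) / S) :
    TriB PP.cur (nearL (h0 * 0) 3 κ (h0 * x) (tbl tKN x) (tbl tL x)) 3 1 3 4 1 1 1 :=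
  (sideN hx hx').nearB (Or.inl rfl) (Or.inl rfl) fun y y' F =>
    nearB_cert (s1 := true) (s2 := true) rfl hκ covN43 covN13 hx hx'
        Pool.Agent.Strip051.G.I1_16_1_8.Tab.C.NB41.c_pp_313 noCut_B noExt_B F trivial trivial

theorem NB41_pm_001 {κ x : ℝ} (hκ : κ * h0 = ken x) (hx : ((67108864 : ℕ) : ℝ) / S ≤ x) (hx' : x ≤ (((67108864 : ℕ) : ℝ) + (67108864 : ℕ)) / S) :
    TriB PP.cur (nearL (h0 * 0) 3 κ (h0 * x) (tbl tKN x) (tbl tL x)) 0 0 1 4 1 1 (-1) :=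
  (sideN hx hx').nearB (Or.inl rfl) (Or.inr rfl) fun y y' F =>
    nearB_cert (s1 := true) (s2 := false) rfl hκ covN40 covN11 hx hx'
        Pool.Agent.Strip051.G.I1_16_1_8.Tab.C.NB41.c_pm_001 noCut_B noExt_B F trivial trivial

theorem NB41_pm_011 {κ x : ℝ} (hκ : κ * h0 = ken x) (hx : ((67108864 : ℕ) : ℝ) / S ≤ x) (hx' : x ≤ (((67108864 : ℕ) : ℝ) + (67108864 : ℕ)) / S) :
    TriB PP.cur (nearL (h0 * 0) 3 κ (h0 * x) (tbl tKN x) (tbl tL x)) 0 1 1 4 1 1 (-1) :=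
  (sideN hx hx').nearB (Or.inl rfl) (Or.inr rfl) fun y y' F =>
    nearB_cert (s1 := true) (s2 := false) rfl hκ covN40 covN11 hx hx'
        Pool.Agent.Strip051.G.I1_16_1_8.Tab.C.NB41.c_pm_011 noCut_B noExt_B F trivial trivial

theorem NB41_pm_012 {κ x : ℝ} (hκ : κ * h0 = ken x) (hx : ((67108864 : ℕ) : ℝ) / S ≤ x) (hx' : x ≤ (((67108864 : ℕ) : ℝ) + (67108864 : ℕ)) / S) :
    TriB PP.cur (nearL (h0 * 0) 3 κ (h0 * x) (tbl tKN x) (tbl tL x)) 0 1 2 4 1 1 (-1) :=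
  (sideN hx hx').nearB (Or.inl rfl) (Or.inr rfl) fun y y' F =>
    (lt_or_ge (h0 * (y + y')) 1).elim
      (fun g => nearB_cert (s1 := true) (s2 := false) rfl hκ covN40 covN12a hx hx'
        Pool.Agent.Strip051.G.I1_16_1_8.Tab.C.NB41.c_pm_012_a noCut_B noExt_B F trivial g)
      (fun g => nearB_cert (s1 := true) (s2 := false) rfl hκ covN40 covN12b hx hx'
        Pool.Agent.Strip051.G.I1_16_1_8.Tab.C.NB41.c_pm_012_b noCut_B noExt_B F trivial g)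

theorem NB41_pm_022 {κ x : ℝ} (hκ : κ * h0 = ken x) (hx : ((67108864 : ℕ) : ℝ) / S ≤ x) (hx' : x ≤ (((67108864 : ℕ) : ℝ) + (67108864 : ℕ)) / S) :
    TriB PP.cur (nearL (h0 * 0) 3 κ (h0 * x) (tbl tKN x) (tbl tL x)) 0 2 2 4 1 1 (-1) :=
  (sideN hx hx').nearB (Or.inl rfl) (Or.inr rfl) fun y y' F =>
    (lt_or_ge (h0 * (y + y')) 1).elim
      (fun g => nearB_cert (s1 := true) (s2 := false) rfl hκ covN40 covN12a hx hx'
        Pool.Agent.Strip051.G.I1_16_1_8.Tab.C.NB41.c_pm_022_a noCut_B noExt_B F trivial g)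
      (fun g => nearB_cert (s1 := true) (s2 := false) rfl hκ covN40 covN12b hx hx'
        Pool.Agent.Strip051.G.I1_16_1_8.Tab.C.NB41.c_pm_022_b noCut_B noExt_B F trivial g)

theorem NB41_pm_023 {κ x : ℝ} (hκ : κ * h0 = ken x) (hx : ((67108864 : ℕ) : ℝ) / S ≤ x) (hx' : x ≤ (((67108864 : ℕ) : ℝ) + (67108864 : ℕ)) / S) :
    TriB PP.cur (nearL (h0 * 0) 3 κ (h0 * x) (tbl tKN x) (tbl tL x)) 0 2 3 4 1 1 (-1) :=
  (sideN hx hx').nearB (Or.inl rfl) (Or.inr rfl) fun y y' F =>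
    nearB_cert (s1 := true) (s2 := false) rfl hκ covN40 covN13 hx hx'
        Pool.Agent.Strip051.G.I1_16_1_8.Tab.C.NB41.c_pm_023 noCut_B noExt_B F trivial trivial

theorem NB41_pm_033 {κ x : ℝ} (hκ : κ * h0 = ken x) (hx : ((67108864 : ℕ) : ℝ) / S ≤ x) (hx' : x ≤ (((67108864 : ℕ) : ℝ) + (67108864 : ℕ)) / S) :
    TriB PP.cur (nearL (h0 * 0) 3 κ (h0 * x) (tbl tKN x) (tbl tL x)) 0 3 3 4 1 1 (-1) :=
  (sideN hx hx').nearB (Or.inl rfl) (Or.inr rfl) fun y y' F =>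
    nearB_cert (s1 := true) (s2 := false) rfl hκ covN40 covN13 hx hx'
        Pool.Agent.Strip051.G.I1_16_1_8.Tab.C.NB41.c_pm_033 noCut_B noExt_B F trivial trivial

theorem NB41_pm_101 {κ x : ℝ} (hκ : κ * h0 = ken x) (hx : ((67108864 : ℕ) : ℝ) / S ≤ x) (hx' : x ≤ (((67108864 : ℕ) : ℝ) + (67108864 : ℕ)) / S) :
    TriB PP.cur (nearL (h0 * 0) 3 κ (h0 * x) (tbl tKN x) (tbl tL x)) 1 0 1 4 1 1 (-1) :=
  (sideN hx hx').nearB (Or.inl rfl) (Or.inr rfl) fun y y' F =>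
    nearB_cert (s1 := true) (s2 := false) rfl hκ covN41 covN11 hx hx'
        Pool.Agent.Strip051.G.I1_16_1_8.Tab.C.NB41.c_pm_101 noCut_B noExt_B F trivial trivial

theorem NB41_pm_102 {κ x : ℝ} (hκ : κ * h0 = ken x) (hx : ((67108864 : ℕ) : ℝ) / S ≤ x) (hx' : x ≤ (((67108864 : ℕ) : ℝ) + (67108864 : ℕ)) / S) :
    TriB PP.cur (nearL (h0 * 0) 3 κ (h0 * x) (tbl tKN x) (tbl tL x)) 1 0 2 4 1 1 (-1) :=
  (sideN hx hx').nearB (Or.inl rfl) (Or.inr rfl) fun y y' F =>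
    (lt_or_ge (h0 * (y + y')) 1).elim
      (fun g => nearB_cert (s1 := true) (s2 := false) rfl hκ covN41 covN12a hx hx'
        Pool.Agent.Strip051.G.I1_16_1_8.Tab.C.NB41.c_pm_102_a noCut_B noExt_B F trivial g)
      (fun g => nearB_cert (s1 := true) (s2 := false) rfl hκ covN41 covN12b hx hx'
        Pool.Agent.Strip051.G.I1_16_1_8.Tab.C.NB41.c_pm_102_b noCut_B noExt_B F trivial g)

theorem NB41_pm_112 {κ x : ℝ} (hκ : κ * h0 = ken x) (hx : ((67108864 : ℕ) : ℝ) / S ≤ x) (hx' : x ≤ (((67108864 : ℕ) : ℝ) + (67108864 : ℕ)) / S) :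
    TriB PP.cur (nearL (h0 * 0) 3 κ (h0 * x) (tbl tKN x) (tbl tL x)) 1 1 2 4 1 1 (-1) :=
  (sideN hx hx').nearB (Or.inl rfl) (Or.inr rfl) fun y y' F =>
    (lt_or_ge (h0 * (y + y')) 1).elim
      (fun g => nearB_cert (s1 := true) (s2 := false) rfl hκ covN41 covN12a hx hx'
        Pool.Agent.Strip051.G.I1_16_1_8.Tab.C.NB41.c_pm_112_a noCut_B noExt_B F trivial g)
      (fun g => nearB_cert (s1 := true) (s2 := false) rfl hκ covN41 covN12b hx hx'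
        Pool.Agent.Strip051.G.I1_16_1_8.Tab.C.NB41.c_pm_112_b noCut_B noExt_B F trivial g)

theorem NB41_pm_113 {κ x : ℝ} (hκ : κ * h0 = ken x) (hx : ((67108864 : ℕ) : ℝ) / S ≤ x) (hx' : x ≤ (((67108864 : ℕ) : ℝ) + (67108864 : ℕ)) / S) :
    TriB PP.cur (nearL (h0 * 0) 3 κ (h0 * x) (tbl tKN x) (tbl tL x)) 1 1 3 4 1 1 (-1) :=
  (sideN hx hx').nearB (Or.inl rfl) (Or.inr rfl) fun y y' F =>
    nearB_cert (s1 := true) (s2 := false) rfl hκ covN41 covN13 hx hx'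
        Pool.Agent.Strip051.G.I1_16_1_8.Tab.C.NB41.c_pm_113 noCut_B noExt_B F trivial trivial

theorem NB41_pm_123 {κ x : ℝ} (hκ : κ * h0 = ken x) (hx : ((67108864 : ℕ) : ℝ) / S ≤ x) (hx' : x ≤ (((67108864 : ℕ) : ℝ) + (67108864 : ℕ)) / S) :
    TriB PP.cur (nearL (h0 * 0) 3 κ (h0 * x) (tbl tKN x) (tbl tL x)) 1 2 3 4 1 1 (-1) :=
  (sideN hx hx').nearB (Or.inl rfl) (Or.inr rfl) fun y y' F =>
    nearB_cert (s1 := true) (s2 := false) rfl hκ covN41 covN13 hx hx'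
        Pool.Agent.Strip051.G.I1_16_1_8.Tab.C.NB41.c_pm_123 noCut_B noExt_B F trivial trivial

theorem NB41_pm_133 {κ x : ℝ} (hκ : κ * h0 = ken x) (hx : ((67108864 : ℕ) : ℝ) / S ≤ x) (hx' : x ≤ (((67108864 : ℕ) : ℝ) + (67108864 : ℕ)) / S) :
    TriB PP.cur (nearL (h0 * 0) 3 κ (h0 * x) (tbl tKN x) (tbl tL x)) 1 3 3 4 1 1 (-1) :=
  (sideN hx hx').nearB (Or.inl rfl) (Or.inr rfl) fun y y' F =>
    nearB_cert (s1 := true) (s2 := false) rfl hκ covN41 covN13 hx hx'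
        Pool.Agent.Strip051.G.I1_16_1_8.Tab.C.NB41.c_pm_133 noCut_B noExt_B F trivial trivial

theorem NB41_pm_202 {κ x : ℝ} (hκ : κ * h0 = ken x) (hx : ((67108864 : ℕ) : ℝ) / S ≤ x) (hx' : x ≤ (((67108864 : ℕ) : ℝ) + (67108864 : ℕ)) / S) :
    TriB PP.cur (nearL (h0 * 0) 3 κ (h0 * x) (tbl tKN x) (tbl tL x)) 2 0 2 4 1 1 (-1) :=
  (sideN hx hx').nearB (Or.inl rfl) (Or.inr rfl) fun y y' F =>
    (lt_or_ge (h0 * (y + y')) 1).elim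
      (fun g => nearB_cert (s1 := true) (s2 := false) rfl hκ covN42 covN12a hx hx'
        Pool.Agent.Strip051.G.I1_16_1_8.Tab.C.NB41.c_pm_202_a noCut_B noExt_B F trivial g)
      (fun g => nearB_cert (s1 := true) (s2 := false) rfl hκ covN42 covN12b hx hx'
        Pool.Agent.Strip051.G.I1_16_1_8.Tab.C.NB41.c_pm_202_b noCut_B noExt_B F trivial g)

theorem NB41_pm_203 {κ x : ℝ} (hκ : κ * h0 = ken x) (hx : ((67108864 : ℕ) : ℝ) / S ≤ x) (hx' : x ≤ (((67108864 : ℕ) : ℝ) + (67108864 : ℕ)) / S) :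
    TriB PP.cur (nearL (h0 * 0) 3 κ (h0 * x) (tbl tKN x) (tbl tL x)) 2 0 3 4 1 1 (-1) :=
  (sideN hx hx').nearB (Or.inl rfl) (Or.inr rfl) fun y y' F =>
    nearB_cert (s1 := true) (s2 := false) rfl hκ covN42 covN13 hx hx'
        Pool.Agent.Strip051.G.I1_16_1_8.Tab.C.NB41.c_pm_203 noCut_B noExt_B F trivial trivial

theorem NB41_pm_213 {κ x : ℝ} (hκ : κ * h0 = ken x) (hx : ((67108864 : ℕ) : ℝ) / S ≤ x) (hx' : x ≤ (((67108864 : ℕ) : ℝ) + (67108864 : ℕ)) / S) :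
    TriB PP.cur (nearL (h0 * 0) 3 κ (h0 * x) (tbl tKN x) (tbl tL x)) 2 1 3 4 1 1 (-1) :=
  (sideN hx hx').nearB (Or.inl rfl) (Or.inr rfl) fun y y' F =>
    nearB_cert (s1 := true) (s2 := false) rfl hκ covN42 covN13 hx hx'
        Pool.Agent.Strip051.G.I1_16_1_8.Tab.C.NB41.c_pm_213 noCut_B noExt_B F trivial trivial

theorem NB41_pm_303 {κ x : ℝ} (hκ : κ * h0 = ken x) (hx : ((67108864 : ℕ) : ℝ) / S ≤ x) (hx' : x ≤ (((67108864 : ℕ) : ℝ) + (67108864 : ℕ)) / S) :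
    TriB PP.cur (nearL (h0 * 0) 3 κ (h0 * x) (tbl tKN x) (tbl tL x)) 3 0 3 4 1 1 (-1) :=
  (sideN hx hx').nearB (Or.inl rfl) (Or.inr rfl) fun y y' F =>
    nearB_cert (s1 := true) (s2 := false) rfl hκ covN43 covN13 hx hx'
        Pool.Agent.Strip051.G.I1_16_1_8.Tab.C.NB41.c_pm_303 noCut_B noExt_B F trivial trivial

theorem NB41_pm_313 {κ x : ℝ} (hκ : κ * h0 = ken x) (hx : ((67108864 : ℕ) : ℝ) / S ≤ x) (hx' : x ≤ (((67108864 : ℕ) : ℝ) + (67108864 : ℕ)) / S) :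
    TriB PP.cur (nearL (h0 * 0) 3 κ (h0 * x) (tbl tKN x) (tbl tL x)) 3 1 3 4 1 1 (-1) :=
  (sideN hx hx').nearB (Or.inl rfl) (Or.inr rfl) fun y y' F =>
    nearB_cert (s1 := true) (s2 := false) rfl hκ covN43 covN13 hx hx'
        Pool.Agent.Strip051.G.I1_16_1_8.Tab.C.NB41.c_pm_313 noCut_B noExt_B F trivial trivial

theorem NB41_mm_001 {κ x : ℝ} (hκ : κ * h0 = ken x) (hx : ((67108864 : ℕ) : ℝ) / S ≤ x) (hx' : x ≤ (((67108864 : ℕ) : ℝ) + (67108864 : ℕ)) / S) :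
    TriB PP.cur (nearL (h0 * 0) 3 κ (h0 * x) (tbl tKN x) (tbl tL x)) 0 0 1 4 1 (-1) (-1) :=
  (sideN hx hx').nearB (Or.inr rfl) (Or.inr rfl) fun y y' F =>
    nearB_cert (s1 := false) (s2 := false) rfl hκ covN40 covN11 hx hx'
        Pool.Agent.Strip051.G.I1_16_1_8.Tab.C.NB41.c_mm_001 noCut_B noExt_B F trivial trivial

theorem NB41_mm_011 {κ x : ℝ} (hκ : κ * h0 = ken x) (hx : ((67108864 : ℕ) : ℝ) / S ≤ x) (hx' : x ≤ (((67108864 : ℕ) : ℝ) + (67108864 : ℕ)) / S) :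
    TriB PP.cur (nearL (h0 * 0) 3 κ (h0 * x) (tbl tKN x) (tbl tL x)) 0 1 1 4 1 (-1) (-1) :=
  (sideN hx hx').nearB (Or.inr rfl) (Or.inr rfl) fun y y' F =>
    nearB_cert (s1 := false) (s2 := false) rfl hκ covN40 covN11 hx hx'
        Pool.Agent.Strip051.G.I1_16_1_8.Tab.C.NB41.c_mm_011 noCut_B noExt_B F trivial trivial

theorem NB41_mm_012 {κ x : ℝ} (hκ : κ * h0 = ken x) (hx : ((67108864 : ℕ) : ℝ) / S ≤ x) (hx' : x ≤ (((67108864 : ℕ) : ℝ) + (67108864 : ℕ)) / S) :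
    TriB PP.cur (nearL (h0 * 0) 3 κ (h0 * x) (tbl tKN x) (tbl tL x)) 0 1 2 4 1 (-1) (-1) :=
  (sideN hx hx').nearB (Or.inr rfl) (Or.inr rfl) fun y y' F =>
    (lt_or_ge (h0 * (y + y')) 1).elim
      (fun g => nearB_cert (s1 := false) (s2 := false) rfl hκ covN40 covN12a hx hx'
        Pool.Agent.Strip051.G.I1_16_1_8.Tab.C.NB41.c_mm_012_a noCut_B noExt_B F trivial g)
      (fun g => nearB_cert (s1 := false) (s2 := false) rfl hκ covN40 covN12b hx hx'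
        Pool.Agent.Strip051.G.I1_16_1_8.Tab.C.NB41.c_mm_012_b noCut_B noExt_B F trivial g)

theorem NB41_mm_022 {κ x : ℝ} (hκ : κ * h0 = ken x) (hx : ((67108864 : ℕ) : ℝ) / S ≤ x) (hx' : x ≤ (((67108864 : ℕ) : ℝ) + (67108864 : ℕ)) / S) :
    TriB PP.cur (nearL (h0 * 0) 3 κ (h0 * x) (tbl tKN x) (tbl tL x)) 0 2 2 4 1 (-1) (-1) :=
  (sideN hx hx').nearB (Or.inr rfl) (Or.inr rfl) fun y y' F =>
    (lt_or_ge (h0 * (y + y')) 1).elim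
      (fun g => nearB_cert (s1 := false) (s2 := false) rfl hκ covN40 covN12a hx hx'
        Pool.Agent.Strip051.G.I1_16_1_8.Tab.C.NB41.c_mm_022_a noCut_B noExt_B F trivial g)
      (fun g => nearB_cert (s1 := false) (s2 := false) rfl hκ covN40 covN12b hx hx'
        Pool.Agent.Strip051.G.I1_16_1_8.Tab.C.NB41.c_mm_022_b noCut_B noExt_B F trivial g)

theorem NB41_mm_023 {κ x : ℝ} (hκ : κ * h0 = ken x) (hx : ((67108864 : ℕ) : ℝ) / S ≤ x) (hx' : x ≤ (((67108864 : ℕ) : ℝ) + (67108864 : ℕ)) / S) :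
    TriB PP.cur (nearL (h0 * 0) 3 κ (h0 * x) (tbl tKN x) (tbl tL x)) 0 2 3 4 1 (-1) (-1) :=
  (sideN hx hx').nearB (Or.inr rfl) (Or.inr rfl) fun y y' F =>
    nearB_cert (s1 := false) (s2 := false) rfl hκ covN40 covN13 hx hx'
        Pool.Agent.Strip051.G.I1_16_1_8.Tab.C.NB41.c_mm_023 noCut_B noExt_B F trivial trivial

theorem NB41_mm_033 {κ x : ℝ} (hκ : κ * h0 = ken x) (hx : ((67108864 : ℕ) : ℝ) / S ≤ x) (hx' : x ≤ (((67108864 : ℕ) : ℝ) + (67108864 : ℕ)) / S) :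
    TriB PP.cur (nearL (h0 * 0) 3 κ (h0 * x) (tbl tKN x) (tbl tL x)) 0 3 3 4 1 (-1) (-1) :=
  (sideN hx hx').nearB (Or.inr rfl) (Or.inr rfl) fun y y' F =>
    nearB_cert (s1 := false) (s2 := false) rfl hκ covN40 covN13 hx hx'
        Pool.Agent.Strip051.G.I1_16_1_8.Tab.C.NB41.c_mm_033 noCut_B noExt_B F trivial trivial

theorem NB41_mm_101 {κ x : ℝ} (hκ : κ * h0 = ken x) (hx : ((67108864 : ℕ) : ℝ) / S ≤ x) (hx' : x ≤ (((67108864 : ℕ) : ℝ) + (67108864 : ℕ)) / S) :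
    TriB PP.cur (nearL (h0 * 0) 3 κ (h0 * x) (tbl tKN x) (tbl tL x)) 1 0 1 4 1 (-1) (-1) :=
  (sideN hx hx').nearB (Or.inr rfl) (Or.inr rfl) fun y y' F =>
    nearB_cert (s1 := false) (s2 := false) rfl hκ covN41 covN11 hx hx'
        Pool.Agent.Strip051.G.I1_16_1_8.Tab.C.NB41.c_mm_101 noCut_B noExt_B F trivial trivial

theorem NB41_mm_102 {κ x : ℝ} (hκ : κ * h0 = ken x) (hx : ((67108864 : ℕ) : ℝ) / S ≤ x) (hx' : x ≤ (((67108864 : ℕ) : ℝ) + (67108864 : ℕ)) / S) :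
    TriB PP.cur (nearL (h0 * 0) 3 κ (h0 * x) (tbl tKN x) (tbl tL x)) 1 0 2 4 1 (-1) (-1) :=
  (sideN hx hx').nearB (Or.inr rfl) (Or.inr rfl) fun y y' F =>
    (lt_or_ge (h0 * (y + y')) 1).elim
      (fun g => nearB_cert (s1 := false) (s2 := false) rfl hκ covN41 covN12a hx hx'
        Pool.Agent.Strip051.G.I1_16_1_8.Tab.C.NB41.c_mm_102_a noCut_B noExt_B F trivial g)
      (fun g => nearB_cert (s1 := false) (s2 := false) rfl hκ covN41 covN12b hx hx'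
        Pool.Agent.Strip051.G.I1_16_1_8.Tab.C.NB41.c_mm_102_b noCut_B noExt_B F trivial g)

theorem NB41_mm_112 {κ x : ℝ} (hκ : κ * h0 = ken x) (hx : ((67108864 : ℕ) : ℝ) / S ≤ x) (hx' : x ≤ (((67108864 : ℕ) : ℝ) + (67108864 : ℕ)) / S) :
    TriB PP.cur (nearL (h0 * 0) 3 κ (h0 * x) (tbl tKN x) (tbl tL x)) 1 1 2 4 1 (-1) (-1) :=
  (sideN hx hx').nearB (Or.inr rfl) (Or.inr rfl) fun y y' F =>
    (lt_or_ge (h0 * (y + y')) 1).elim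
      (fun g => nearB_cert (s1 := false) (s2 := false) rfl hκ covN41 covN12a hx hx'
        Pool.Agent.Strip051.G.I1_16_1_8.Tab.C.NB41.c_mm_112_a noCut_B noExt_B F trivial g)
      (fun g => nearB_cert (s1 := false) (s2 := false) rfl hκ covN41 covN12b hx hx'
        Pool.Agent.Strip051.G.I1_16_1_8.Tab.C.NB41.c_mm_112_b noCut_B noExt_B F trivial g)

theorem NB41_mm_113 {κ x : ℝ} (hκ : κ * h0 = ken x) (hx : ((67108864 : ℕ) : ℝ) / S ≤ x) (hx' : x ≤ (((67108864 : ℕ) : ℝ) + (67108864 : ℕ)) / S) :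
    TriB PP.cur (nearL (h0 * 0) 3 κ (h0 * x) (tbl tKN x) (tbl tL x)) 1 1 3 4 1 (-1) (-1) :=
  (sideN hx hx').nearB (Or.inr rfl) (Or.inr rfl) fun y y' F =>
    nearB_cert (s1 := false) (s2 := false) rfl hκ covN41 covN13 hx hx'
        Pool.Agent.Strip051.G.I1_16_1_8.Tab.C.NB41.c_mm_113 noCut_B noExt_B F trivial trivial

theorem NB41_mm_123 {κ x : ℝ} (hκ : κ * h0 = ken x) (hx : ((67108864 : ℕ) : ℝ) / S ≤ x) (hx' : x ≤ (((67108864 : ℕ) : ℝ) + (67108864 : ℕ)) / S) :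
    TriB PP.cur (nearL (h0 * 0) 3 κ (h0 * x) (tbl tKN x) (tbl tL x)) 1 2 3 4 1 (-1) (-1) :=
  (sideN hx hx').nearB (Or.inr rfl) (Or.inr rfl) fun y y' F =>
    nearB_cert (s1 := false) (s2 := false) rfl hκ covN41 covN13 hx hx'
        Pool.Agent.Strip051.G.I1_16_1_8.Tab.C.NB41.c_mm_123 noCut_B noExt_B F trivial trivial

theorem NB41_mm_133 {κ x : ℝ} (hκ : κ * h0 = ken x) (hx : ((67108864 : ℕ) : ℝ) / S ≤ x) (hx' : x ≤ (((67108864 : ℕ) : ℝ) + (67108864 : ℕ)) / S) :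
    TriB PP.cur (nearL (h0 * 0) 3 κ (h0 * x) (tbl tKN x) (tbl tL x)) 1 3 3 4 1 (-1) (-1) :=
  (sideN hx hx').nearB (Or.inr rfl) (Or.inr rfl) fun y y' F =>
    nearB_cert (s1 := false) (s2 := false) rfl hκ covN41 covN13 hx hx'
        Pool.Agent.Strip051.G.I1_16_1_8.Tab.C.NB41.c_mm_133 noCut_B noExt_B F trivial trivial

theorem NB41_mm_202 {κ x : ℝ} (hκ : κ * h0 = ken x) (hx : ((67108864 : ℕ) : ℝ) / S ≤ x) (hx' : x ≤ (((67108864 : ℕ) : ℝ) + (67108864 : ℕ)) / S) :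
    TriB PP.cur (nearL (h0 * 0) 3 κ (h0 * x) (tbl tKN x) (tbl tL x)) 2 0 2 4 1 (-1) (-1) :=
  (sideN hx hx').nearB (Or.inr rfl) (Or.inr rfl) fun y y' F =>
    (lt_or_ge (h0 * (y + y')) 1).elim
      (fun g => nearB_cert (s1 := false) (s2 := false) rfl hκ covN42 covN12a hx hx'
        Pool.Agent.Strip051.G.I1_16_1_8.Tab.C.NB41.c_mm_202_a noCut_B noExt_B F trivial g)
      (fun g => nearB_cert (s1 := false) (s2 := false) rfl hκ covN42 covN12b hx hx'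
        Pool.Agent.Strip051.G.I1_16_1_8.Tab.C.NB41.c_mm_202_b noCut_B noExt_B F trivial g)

theorem NB41_mm_203 {κ x : ℝ} (hκ : κ * h0 = ken x) (hx : ((67108864 : ℕ) : ℝ) / S ≤ x) (hx' : x ≤ (((67108864 : ℕ) : ℝ) + (67108864 : ℕ)) / S) :
    TriB PP.cur (nearL (h0 * 0) 3 κ (h0 * x) (tbl tKN x) (tbl tL x)) 2 0 3 4 1 (-1) (-1) :=
  (sideN hx hx').nearB (Or.inr rfl) (Or.inr rfl) fun y y' F =>
    nearB_cert (s1 := false) (s2 := false) rfl hκ covN42 covN13 hx hx'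
        Pool.Agent.Strip051.G.I1_16_1_8.Tab.C.NB41.c_mm_203 noCut_B noExt_B F trivial trivial

theorem NB41_mm_213 {κ x : ℝ} (hκ : κ * h0 = ken x) (hx : ((67108864 : ℕ) : ℝ) / S ≤ x) (hx' : x ≤ (((67108864 : ℕ) : ℝ) + (67108864 : ℕ)) / S) :
    TriB PP.cur (nearL (h0 * 0) 3 κ (h0 * x) (tbl tKN x) (tbl tL x)) 2 1 3 4 1 (-1) (-1) :=
  (sideN hx hx').nearB (Or.inr rfl) (Or.inr rfl) fun y y' F =>
    nearB_cert (s1 := false) (s2 := false) rfl hκ covN42 covN13 hx hx'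
        Pool.Agent.Strip051.G.I1_16_1_8.Tab.C.NB41.c_mm_213 noCut_B noExt_B F trivial trivial

theorem NB41_mm_303 {κ x : ℝ} (hκ : κ * h0 = ken x) (hx : ((67108864 : ℕ) : ℝ) / S ≤ x) (hx' : x ≤ (((67108864 : ℕ) : ℝ) + (67108864 : ℕ)) / S) :
    TriB PP.cur (nearL (h0 * 0) 3 κ (h0 * x) (tbl tKN x) (tbl tL x)) 3 0 3 4 1 (-1) (-1) :=
  (sideN hx hx').nearB (Or.inr rfl) (Or.inr rfl) fun y y' F =>
    nearB_cert (s1 := false) (s2 := false) rfl hκ covN43 covN13 hx hx'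
        Pool.Agent.Strip051.G.I1_16_1_8.Tab.C.NB41.c_mm_303 noCut_B noExt_B F trivial trivial

theorem NB41_mm_313 {κ x : ℝ} (hκ : κ * h0 = ken x) (hx : ((67108864 : ℕ) : ℝ) / S ≤ x) (hx' : x ≤ (((67108864 : ℕ) : ℝ) + (67108864 : ℕ)) / S) :
    TriB PP.cur (nearL (h0 * 0) 3 κ (h0 * x) (tbl tKN x) (tbl tL x)) 3 1 3 4 1 (-1) (-1) :=
  (sideN hx hx').nearB (Or.inr rfl) (Or.inr rfl) fun y y' F =>
    nearB_cert (s1 := false) (s2 := false) rfl hκ covN43 covN13 hx hx'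
        Pool.Agent.Strip051.G.I1_16_1_8.Tab.C.NB41.c_mm_313 noCut_B noExt_B F trivial trivial

theorem NB41 {κ x : ℝ} (hκ : κ * h0 = ken x) (hx : ((67108864 : ℕ) : ℝ) / S ≤ x) (hx' : x ≤ (((67108864 : ℕ) : ℝ) + (67108864 : ℕ)) / S) : AllTB PP.cur (nearL (h0 * 0) 3 κ (h0 * x) (tbl tKN x) (tbl tL x)) 4 1 where
  pp := all17 (Q := fun a b c => TriB PP.cur (nearL (h0 * 0) 3 κ (h0 * x) (tbl tKN x) (tbl tL x)) a b c 4 1 1 1)
    (NB41_pp_001 hκ hx hx') (NB41_pp_011 hκ hx hx') (NB41_pp_012 hκ hx hx') (NB41_pp_022 hκ hx hx') (NB41_pp_023 hκ hx hx') (NB41_pp_033 hκ hx hx') (NB41_pp_101 hκ hx hx') (NB41_pp_102 hκ hx hx') (NB41_pp_112 hκ hx hx') (NB41_pp_113 hκ hx hx') (NB41_pp_123 hκ hx hx') (NB41_pp_133 hκ hx hx') (NB41_pp_202 hκ hx hx') (NB41_pp_203 hκ hx hx') (NB41_pp_213 hκ hx hx') (NB41_pp_303 hκ hx hx') (NB41_pp_313 hκ hx hx')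
  pm := all17 (Q := fun a b c => TriB PP.cur (nearL (h0 * 0) 3 κ (h0 * x) (tbl tKN x) (tbl tL x)) a b c 4 1 1 (-1))
    (NB41_pm_001 hκ hx hx') (NB41_pm_011 hκ hx hx') (NB41_pm_012 hκ hx hx') (NB41_pm_022 hκ hx hx') (NB41_pm_023 hκ hx hx') (NB41_pm_033 hκ hx hx') (NB41_pm_101 hκ hx hx') (NB41_pm_102 hκ hx hx') (NB41_pm_112 hκ hx hx') (NB41_pm_113 hκ hx hx') (NB41_pm_123 hκ hx hx') (NB41_pm_133 hκ hx hx') (NB41_pm_202 hκ hx hx') (NB41_pm_203 hκ hx hx') (NB41_pm_213 hκ hx hx') (NB41_pm_303 hκ hx hx') (NB41_pm_313 hκ hx hx')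
  mm := all17 (Q := fun a b c => TriB PP.cur (nearL (h0 * 0) 3 κ (h0 * x) (tbl tKN x) (tbl tL x)) a b c 4 1 (-1) (-1))
    (NB41_mm_001 hκ hx hx') (NB41_mm_011 hκ hx hx') (NB41_mm_012 hκ hx hx') (NB41_mm_022 hκ hx hx') (NB41_mm_023 hκ hx hx') (NB41_mm_033 hκ hx hx') (NB41_mm_101 hκ hx hx') (NB41_mm_102 hκ hx hx') (NB41_mm_112 hκ hx hx') (NB41_mm_113 hκ hx hx') (NB41_mm_123 hκ hx hx') (NB41_mm_133 hκ hx hx') (NB41_mm_202 hκ hx hx') (NB41_mm_203 hκ hx hx') (NB41_mm_213 hκ hx hx') (NB41_mm_303 hκ hx hx') (NB41_mm_313 hκ hx hx')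

theorem NB42_pp_001 {κ x : ℝ} (hκ : κ * h0 = ken x) (hx : ((67108864 : ℕ) : ℝ) / S ≤ x) (hx' : x ≤ (((67108864 : ℕ) : ℝ) + (67108864 : ℕ)) / S) :
    TriB PP.cur (nearL (h0 * 0) 3 κ (h0 * x) (tbl tKN x) (tbl tL x)) 0 0 1 4 2 1 1 :=
  (sideN hx hx').nearB (Or.inl rfl) (Or.inl rfl) fun y y' F =>
    nearB_cert (s1 := true) (s2 := true) rfl hκ covN40 covN21 hx hx'
        Pool.Agent.Strip051.G.I1_16_1_8.Tab.C.NB42.c_pp_001 noCut_B noExt_B F trivial trivial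

theorem NB42_pp_011 {κ x : ℝ} (hκ : κ * h0 = ken x) (hx : ((67108864 : ℕ) : ℝ) / S ≤ x) (hx' : x ≤ (((67108864 : ℕ) : ℝ) + (67108864 : ℕ)) / S) :
    TriB PP.cur (nearL (h0 * 0) 3 κ (h0 * x) (tbl tKN x) (tbl tL x)) 0 1 1 4 2 1 1 :=
  (sideN hx hx').nearB (Or.inl rfl) (Or.inl rfl) fun y y' F =>
    nearB_cert (s1 := true) (s2 := true) rfl hκ covN40 covN21 hx hx'
        Pool.Agent.Strip051.G.I1_16_1_8.Tab.C.NB42.c_pp_011 noCut_B noExt_B F trivial trivial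

theorem NB42_pp_012 {κ x : ℝ} (hκ : κ * h0 = ken x) (hx : ((67108864 : ℕ) : ℝ) / S ≤ x) (hx' : x ≤ (((67108864 : ℕ) : ℝ) + (67108864 : ℕ)) / S) :
    TriB PP.cur (nearL (h0 * 0) 3 κ (h0 * x) (tbl tKN x) (tbl tL x)) 0 1 2 4 2 1 1 :=
  (sideN hx hx').nearB (Or.inl rfl) (Or.inl rfl) fun y y' F =>
    (lt_or_ge (h0 * (y + y')) 1).elim
      (fun g => nearB_cert (s1 := true) (s2 := true) rfl hκ covN40 covN22a hx hx'
        Pool.Agent.Strip051.G.I1_16_1_8.Tab.C.NB42.c_pp_012_a noCut_B noExt_B F trivial g)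
      (fun g => nearB_cert (s1 := true) (s2 := true) rfl hκ covN40 covN22b hx hx'
        Pool.Agent.Strip051.G.I1_16_1_8.Tab.C.NB42.c_pp_012_b noCut_B noExt_B F trivial g)

theorem NB42_pp_022 {κ x : ℝ} (hκ : κ * h0 = ken x) (hx : ((67108864 : ℕ) : ℝ) / S ≤ x) (hx' : x ≤ (((67108864 : ℕ) : ℝ) + (67108864 : ℕ)) / S) :
    TriB PP.cur (nearL (h0 * 0) 3 κ (h0 * x) (tbl tKN x) (tbl tL x)) 0 2 2 4 2 1 1 :=
  (sideN hx hx').nearB (Or.inl rfl) (Or.inl rfl) fun y y' F =>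
    (lt_or_ge (h0 * (y + y')) 1).elim
      (fun g => nearB_cert (s1 := true) (s2 := true) rfl hκ covN40 covN22a hx hx'
        Pool.Agent.Strip051.G.I1_16_1_8.Tab.C.NB42.c_pp_022_a noCut_B noExt_B F trivial g)
      (fun g => nearB_cert (s1 := true) (s2 := true) rfl hκ covN40 covN22b hx hx'
        Pool.Agent.Strip051.G.I1_16_1_8.Tab.C.NB42.c_pp_022_b noCut_B noExt_B F trivial g)

theorem NB42_pp_023 {κ x : ℝ} (hκ : κ * h0 = ken x) (hx : ((67108864 : ℕ) : ℝ) / S ≤ x) (hx' : x ≤ (((67108864 : ℕ) : ℝ) + (67108864 : ℕ)) / S) :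
    TriB PP.cur (nearL (h0 * 0) 3 κ (h0 * x) (tbl tKN x) (tbl tL x)) 0 2 3 4 2 1 1 :=
  (sideN hx hx').nearB (Or.inl rfl) (Or.inl rfl) fun y y' F =>
    nearB_cert (s1 := true) (s2 := true) rfl hκ covN40 covN23 hx hx'
        Pool.Agent.Strip051.G.I1_16_1_8.Tab.C.NB42.c_pp_023 noCut_B noExt_B F trivial trivial

theorem NB42_pp_033 {κ x : ℝ} (hκ : κ * h0 = ken x) (hx : ((67108864 : ℕ) : ℝ) / S ≤ x) (hx' : x ≤ (((67108864 : ℕ) : ℝ) + (67108864 : ℕ)) / S) :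
    TriB PP.cur (nearL (h0 * 0) 3 κ (h0 * x) (tbl tKN x) (tbl tL x)) 0 3 3 4 2 1 1 :=
  (sideN hx hx').nearB (Or.inl rfl) (Or.inl rfl) fun y y' F =>
    nearB_cert (s1 := true) (s2 := true) rfl hκ covN40 covN23 hx hx'
        Pool.Agent.Strip051.G.I1_16_1_8.Tab.C.NB42.c_pp_033 noCut_B noExt_B F trivial trivial

theorem NB42_pp_101 {κ x : ℝ} (hκ : κ * h0 = ken x) (hx : ((67108864 : ℕ) : ℝ) / S ≤ x) (hx' : x ≤ (((67108864 : ℕ) : ℝ) + (67108864 : ℕ)) / S) :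
    TriB PP.cur (nearL (h0 * 0) 3 κ (h0 * x) (tbl tKN x) (tbl tL x)) 1 0 1 4 2 1 1 :=
  (sideN hx hx').nearB (Or.inl rfl) (Or.inl rfl) fun y y' F =>
    nearB_cert (s1 := true) (s2 := true) rfl hκ covN41 covN21 hx hx'
        Pool.Agent.Strip051.G.I1_16_1_8.Tab.C.NB42.c_pp_101 noCut_B noExt_B F trivial trivial

theorem NB42_pp_102 {κ x : ℝ} (hκ : κ * h0 = ken x) (hx : ((67108864 : ℕ) : ℝ) / S ≤ x) (hx' : x ≤ (((67108864 : ℕ) : ℝ) + (67108864 : ℕ)) / S) :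
    TriB PP.cur (nearL (h0 * 0) 3 κ (h0 * x) (tbl tKN x) (tbl tL x)) 1 0 2 4 2 1 1 :=
  (sideN hx hx').nearB (Or.inl rfl) (Or.inl rfl) fun y y' F =>
    (lt_or_ge (h0 * (y + y')) 1).elim
      (fun g => nearB_cert (s1 := true) (s2 := true) rfl hκ covN41 covN22a hx hx'
        Pool.Agent.Strip051.G.I1_16_1_8.Tab.C.NB42.c_pp_102_a (cutB_cons (Pool.Agent.Strip051.G.I1_16_1_8.Tab.altN_B102L_42 hκ hx hx') cutB_nil) noExt_B F trivial g)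
      (fun g => nearB_cert (s1 := true) (s2 := true) rfl hκ covN41 covN22b hx hx'
        Pool.Agent.Strip051.G.I1_16_1_8.Tab.C.NB42.c_pp_102_b (cutB_cons (Pool.Agent.Strip051.G.I1_16_1_8.Tab.altN_B102L_42 hκ hx hx') cutB_nil) noExt_B F trivial g)

theorem NB42_pp_112 {κ x : ℝ} (hκ : κ * h0 = ken x) (hx : ((67108864 : ℕ) : ℝ) / S ≤ x) (hx' : x ≤ (((67108864 : ℕ) : ℝ) + (67108864 : ℕ)) / S) :
    TriB PP.cur (nearL (h0 * 0) 3 κ (h0 * x) (tbl tKN x) (tbl tL x)) 1 1 2 4 2 1 1 :=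
  (sideN hx hx').nearB (Or.inl rfl) (Or.inl rfl) fun y y' F =>
    (lt_or_ge (h0 * (y + y')) 1).elim
      (fun g => nearB_cert (s1 := true) (s2 := true) rfl hκ covN41 covN22a hx hx'
        Pool.Agent.Strip051.G.I1_16_1_8.Tab.C.NB42.c_pp_112_a noCut_B noExt_B F trivial g)
      (fun g => nearB_cert (s1 := true) (s2 := true) rfl hκ covN41 covN22b hx hx'
        Pool.Agent.Strip051.G.I1_16_1_8.Tab.C.NB42.c_pp_112_b noCut_B noExt_B F trivial g)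

theorem NB42_pp_113 {κ x : ℝ} (hκ : κ * h0 = ken x) (hx : ((67108864 : ℕ) : ℝ) / S ≤ x) (hx' : x ≤ (((67108864 : ℕ) : ℝ) + (67108864 : ℕ)) / S) :
    TriB PP.cur (nearL (h0 * 0) 3 κ (h0 * x) (tbl tKN x) (tbl tL x)) 1 1 3 4 2 1 1 :=
  (sideN hx hx').nearB (Or.inl rfl) (Or.inl rfl) fun y y' F =>
    nearB_cert (s1 := true) (s2 := true) rfl hκ covN41 covN23 hx hx'
        Pool.Agent.Strip051.G.I1_16_1_8.Tab.C.NB42.c_pp_113 noCut_B noExt_B F trivial trivial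

theorem NB42_pp_123 {κ x : ℝ} (hκ : κ * h0 = ken x) (hx : ((67108864 : ℕ) : ℝ) / S ≤ x) (hx' : x ≤ (((67108864 : ℕ) : ℝ) + (67108864 : ℕ)) / S) :
    TriB PP.cur (nearL (h0 * 0) 3 κ (h0 * x) (tbl tKN x) (tbl tL x)) 1 2 3 4 2 1 1 :=
  (sideN hx hx').nearB (Or.inl rfl) (Or.inl rfl) fun y y' F =>
    nearB_cert (s1 := true) (s2 := true) rfl hκ covN41 covN23 hx hx'
        Pool.Agent.Strip051.G.I1_16_1_8.Tab.C.NB42.c_pp_123 noCut_B noExt_B F trivial trivial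

theorem NB42_pp_133 {κ x : ℝ} (hκ : κ * h0 = ken x) (hx : ((67108864 : ℕ) : ℝ) / S ≤ x) (hx' : x ≤ (((67108864 : ℕ) : ℝ) + (67108864 : ℕ)) / S) :
    TriB PP.cur (nearL (h0 * 0) 3 κ (h0 * x) (tbl tKN x) (tbl tL x)) 1 3 3 4 2 1 1 :=
  (sideN hx hx').nearB (Or.inl rfl) (Or.inl rfl) fun y y' F =>
    nearB_cert (s1 := true) (s2 := true) rfl hκ covN41 covN23 hx hx'
        Pool.Agent.Strip051.G.I1_16_1_8.Tab.C.NB42.c_pp_133 noCut_B noExt_B F trivial trivial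

theorem NB42_pp_202 {κ x : ℝ} (hκ : κ * h0 = ken x) (hx : ((67108864 : ℕ) : ℝ) / S ≤ x) (hx' : x ≤ (((67108864 : ℕ) : ℝ) + (67108864 : ℕ)) / S) :
    TriB PP.cur (nearL (h0 * 0) 3 κ (h0 * x) (tbl tKN x) (tbl tL x)) 2 0 2 4 2 1 1 :=
  (sideN hx hx').nearB (Or.inl rfl) (Or.inl rfl) fun y y' F =>
    (lt_or_ge (h0 * (y + y')) 1).elim
      (fun g => nearB_cert (s1 := true) (s2 := true) rfl hκ covN42 covN22a hx hx'
        Pool.Agent.Strip051.G.I1_16_1_8.Tab.C.NB42.c_pp_202_a (cutB_cons (Pool.Agent.Strip051.G.I1_16_1_8.Tab.altN_B202L_42 hκ hx hx') cutB_nil) noExt_B F trivial g)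
      (fun g => nearB_cert (s1 := true) (s2 := true) rfl hκ covN42 covN22b hx hx'
        Pool.Agent.Strip051.G.I1_16_1_8.Tab.C.NB42.c_pp_202_b (cutB_cons (Pool.Agent.Strip051.G.I1_16_1_8.Tab.altN_B202L_42 hκ hx hx') cutB_nil) noExt_B F trivial g)

theorem NB42_pp_203 {κ x : ℝ} (hκ : κ * h0 = ken x) (hx : ((67108864 : ℕ) : ℝ) / S ≤ x) (hx' : x ≤ (((67108864 : ℕ) : ℝ) + (67108864 : ℕ)) / S) :
    TriB PP.cur (nearL (h0 * 0) 3 κ (h0 * x) (tbl tKN x) (tbl tL x)) 2 0 3 4 2 1 1 :=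
  (sideN hx hx').nearB (Or.inl rfl) (Or.inl rfl) fun y y' F =>
    nearB_cert (s1 := true) (s2 := true) rfl hκ covN42 covN23 hx hx'
        Pool.Agent.Strip051.G.I1_16_1_8.Tab.C.NB42.c_pp_203 noCut_B noExt_B F trivial trivial

theorem NB42_pp_213 {κ x : ℝ} (hκ : κ * h0 = ken x) (hx : ((67108864 : ℕ) : ℝ) / S ≤ x) (hx' : x ≤ (((67108864 : ℕ) : ℝ) + (67108864 : ℕ)) / S) :
    TriB PP.cur (nearL (h0 * 0) 3 κ (h0 * x) (tbl tKN x) (tbl tL x)) 2 1 3 4 2 1 1 :=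
  (sideN hx hx').nearB (Or.inl rfl) (Or.inl rfl) fun y y' F =>
    nearB_cert (s1 := true) (s2 := true) rfl hκ covN42 covN23 hx hx'
        Pool.Agent.Strip051.G.I1_16_1_8.Tab.C.NB42.c_pp_213 noCut_B noExt_B F trivial trivial

theorem NB42_pp_303 {κ x : ℝ} (hκ : κ * h0 = ken x) (hx : ((67108864 : ℕ) : ℝ) / S ≤ x) (hx' : x ≤ (((67108864 : ℕ) : ℝ) + (67108864 : ℕ)) / S) :
    TriB PP.cur (nearL (h0 * 0) 3 κ (h0 * x) (tbl tKN x) (tbl tL x)) 3 0 3 4 2 1 1 :=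
  (sideN hx hx').nearB (Or.inl rfl) (Or.inl rfl) fun y y' F =>
    nearB_cert (s1 := true) (s2 := true) rfl hκ covN43 covN23 hx hx'
        Pool.Agent.Strip051.G.I1_16_1_8.Tab.C.NB42.c_pp_303 noCut_B noExt_B F trivial trivial

theorem NB42_pp_313 {κ x : ℝ} (hκ : κ * h0 = ken x) (hx : ((67108864 : ℕ) : ℝ) / S ≤ x) (hx' : x ≤ (((67108864 : ℕ) : ℝ) + (67108864 : ℕ)) / S) :
    TriB PP.cur (nearL (h0 * 0) 3 κ (h0 * x) (tbl tKN x) (tbl tL x)) 3 1 3 4 2 1 1 :=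
  (sideN hx hx').nearB (Or.inl rfl) (Or.inl rfl) fun y y' F =>
    nearB_cert (s1 := true) (s2 := true) rfl hκ covN43 covN23 hx hx'
        Pool.Agent.Strip051.G.I1_16_1_8.Tab.C.NB42.c_pp_313 noCut_B noExt_B F trivial trivial

theorem NB42_pm_001 {κ x : ℝ} (hκ : κ * h0 = ken x) (hx : ((67108864 : ℕ) : ℝ) / S ≤ x) (hx' : x ≤ (((67108864 : ℕ) : ℝ) + (67108864 : ℕ)) / S) :
    TriB PP.cur (nearL (h0 * 0) 3 κ (h0 * x) (tbl tKN x) (tbl tL x)) 0 0 1 4 2 1 (-1) :=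
  (sideN hx hx').nearB (Or.inl rfl) (Or.inr rfl) fun y y' F =>
    nearB_cert (s1 := true) (s2 := false) rfl hκ covN40 covN21 hx hx'
        Pool.Agent.Strip051.G.I1_16_1_8.Tab.C.NB42.c_pm_001 noCut_B noExt_B F trivial trivial

theorem NB42_pm_011 {κ x : ℝ} (hκ : κ * h0 = ken x) (hx : ((67108864 : ℕ) : ℝ) / S ≤ x) (hx' : x ≤ (((67108864 : ℕ) : ℝ) + (67108864 : ℕ)) / S) :
    TriB PP.cur (nearL (h0 * 0) 3 κ (h0 * x) (tbl tKN x) (tbl tL x)) 0 1 1 4 2 1 (-1) :=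
  (sideN hx hx').nearB (Or.inl rfl) (Or.inr rfl) fun y y' F =>
    nearB_cert (s1 := true) (s2 := false) rfl hκ covN40 covN21 hx hx'
        Pool.Agent.Strip051.G.I1_16_1_8.Tab.C.NB42.c_pm_011 noCut_B noExt_B F trivial trivial

theorem NB42_pm_012 {κ x : ℝ} (hκ : κ * h0 = ken x) (hx : ((67108864 : ℕ) : ℝ) / S ≤ x) (hx' : x ≤ (((67108864 : ℕ) : ℝ) + (67108864 : ℕ)) / S) :
    TriB PP.cur (nearL (h0 * 0) 3 κ (h0 * x) (tbl tKN x) (tbl tL x)) 0 1 2 4 2 1 (-1) :=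
  (sideN hx hx').nearB (Or.inl rfl) (Or.inr rfl) fun y y' F =>
    (lt_or_ge (h0 * (y + y')) 1).elim
      (fun g => nearB_cert (s1 := true) (s2 := false) rfl hκ covN40 covN22a hx hx'
        Pool.Agent.Strip051.G.I1_16_1_8.Tab.C.NB42.c_pm_012_a noCut_B noExt_B F trivial g)
      (fun g => nearB_cert (s1 := true) (s2 := false) rfl hκ covN40 covN22b hx hx'
        Pool.Agent.Strip051.G.I1_16_1_8.Tab.C.NB42.c_pm_012_b noCut_B noExt_B F trivial g)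

theorem NB42_pm_022 {κ x : ℝ} (hκ : κ * h0 = ken x) (hx : ((67108864 : ℕ) : ℝ) / S ≤ x) (hx' : x ≤ (((67108864 : ℕ) : ℝ) + (67108864 : ℕ)) / S) :
    TriB PP.cur (nearL (h0 * 0) 3 κ (h0 * x) (tbl tKN x) (tbl tL x)) 0 2 2 4 2 1 (-1) :=
  (sideN hx hx').nearB (Or.inl rfl) (Or.inr rfl) fun y y' F =>
    (lt_or_ge (h0 * (y + y')) 1).elim
      (fun g => nearB_cert (s1 := true) (s2 := false) rfl hκ covN40 covN22a hx hx'
        Pool.Agent.Strip051.G.I1_16_1_8.Tab.C.NB42.c_pm_022_a noCut_B noExt_B F trivial g)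
      (fun g => nearB_cert (s1 := true) (s2 := false) rfl hκ covN40 covN22b hx hx'
        Pool.Agent.Strip051.G.I1_16_1_8.Tab.C.NB42.c_pm_022_b noCut_B noExt_B F trivial g)

theorem NB42_pm_023 {κ x : ℝ} (hκ : κ * h0 = ken x) (hx : ((67108864 : ℕ) : ℝ) / S ≤ x) (hx' : x ≤ (((67108864 : ℕ) : ℝ) + (67108864 : ℕ)) / S) :
    TriB PP.cur (nearL (h0 * 0) 3 κ (h0 * x) (tbl tKN x) (tbl tL x)) 0 2 3 4 2 1 (-1) :=
  (sideN hx hx').nearB (Or.inl rfl) (Or.inr rfl) fun y y' F =>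
    nearB_cert (s1 := true) (s2 := false) rfl hκ covN40 covN23 hx hx'
        Pool.Agent.Strip051.G.I1_16_1_8.Tab.C.NB42.c_pm_023 noCut_B noExt_B F trivial trivial

theorem NB42_pm_033 {κ x : ℝ} (hκ : κ * h0 = ken x) (hx : ((67108864 : ℕ) : ℝ) / S ≤ x) (hx' : x ≤ (((67108864 : ℕ) : ℝ) + (67108864 : ℕ)) / S) :
    TriB PP.cur (nearL (h0 * 0) 3 κ (h0 * x) (tbl tKN x) (tbl tL x)) 0 3 3 4 2 1 (-1) :=
  (sideN hx hx').nearB (Or.inl rfl) (Or.inr rfl) fun y y' F =>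
    nearB_cert (s1 := true) (s2 := false) rfl hκ covN40 covN23 hx hx'
        Pool.Agent.Strip051.G.I1_16_1_8.Tab.C.NB42.c_pm_033 noCut_B noExt_B F trivial trivial

theorem NB42_pm_101 {κ x : ℝ} (hκ : κ * h0 = ken x) (hx : ((67108864 : ℕ) : ℝ) / S ≤ x) (hx' : x ≤ (((67108864 : ℕ) : ℝ) + (67108864 : ℕ)) / S) :
    TriB PP.cur (nearL (h0 * 0) 3 κ (h0 * x) (tbl tKN x) (tbl tL x)) 1 0 1 4 2 1 (-1) :=
  (sideN hx hx').nearB (Or.inl rfl) (Or.inr rfl) fun y y' F =>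
    nearB_cert (s1 := true) (s2 := false) rfl hκ covN41 covN21 hx hx'
        Pool.Agent.Strip051.G.I1_16_1_8.Tab.C.NB42.c_pm_101 noCut_B noExt_B F trivial trivial

theorem NB42_pm_102 {κ x : ℝ} (hκ : κ * h0 = ken x) (hx : ((67108864 : ℕ) : ℝ) / S ≤ x) (hx' : x ≤ (((67108864 : ℕ) : ℝ) + (67108864 : ℕ)) / S) :
    TriB PP.cur (nearL (h0 * 0) 3 κ (h0 * x) (tbl tKN x) (tbl tL x)) 1 0 2 4 2 1 (-1) :=
  (sideN hx hx').nearB (Or.inl rfl) (Or.inr rfl) fun y y' F =>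
    (lt_or_ge (h0 * (y + y')) 1).elim
      (fun g => nearB_cert (s1 := true) (s2 := false) rfl hκ covN41 covN22a hx hx'
        Pool.Agent.Strip051.G.I1_16_1_8.Tab.C.NB42.c_pm_102_a noCut_B noExt_B F trivial g)
      (fun g => nearB_cert (s1 := true) (s2 := false) rfl hκ covN41 covN22b hx hx'
        Pool.Agent.Strip051.G.I1_16_1_8.Tab.C.NB42.c_pm_102_b noCut_B noExt_B F trivial g)

theorem NB42_pm_112 {κ x : ℝ} (hκ : κ * h0 = ken x) (hx : ((67108864 : ℕ) : ℝ) / S ≤ x) (hx' : x ≤ (((67108864 : ℕ) : ℝ) + (67108864 : ℕ)) / S) :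
    TriB PP.cur (nearL (h0 * 0) 3 κ (h0 * x) (tbl tKN x) (tbl tL x)) 1 1 2 4 2 1 (-1) :=
  (sideN hx hx').nearB (Or.inl rfl) (Or.inr rfl) fun y y' F =>
    (lt_or_ge (h0 * (y + y')) 1).elim
      (fun g => nearB_cert (s1 := true) (s2 := false) rfl hκ covN41 covN22a hx hx'
        Pool.Agent.Strip051.G.I1_16_1_8.Tab.C.NB42.c_pm_112_a noCut_B noExt_B F trivial g)
      (fun g => nearB_cert (s1 := true) (s2 := false) rfl hκ covN41 covN22b hx hx'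
        Pool.Agent.Strip051.G.I1_16_1_8.Tab.C.NB42.c_pm_112_b noCut_B noExt_B F trivial g)

theorem NB42_pm_113 {κ x : ℝ} (hκ : κ * h0 = ken x) (hx : ((67108864 : ℕ) : ℝ) / S ≤ x) (hx' : x ≤ (((67108864 : ℕ) : ℝ) + (67108864 : ℕ)) / S) :
    TriB PP.cur (nearL (h0 * 0) 3 κ (h0 * x) (tbl tKN x) (tbl tL x)) 1 1 3 4 2 1 (-1) :=
  (sideN hx hx').nearB (Or.inl rfl) (Or.inr rfl) fun y y' F =>
    nearB_cert (s1 := true) (s2 := false) rfl hκ covN41 covN23 hx hx'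
        Pool.Agent.Strip051.G.I1_16_1_8.Tab.C.NB42.c_pm_113 noCut_B noExt_B F trivial trivial

theorem NB42_pm_123 {κ x : ℝ} (hκ : κ * h0 = ken x) (hx : ((67108864 : ℕ) : ℝ) / S ≤ x) (hx' : x ≤ (((67108864 : ℕ) : ℝ) + (67108864 : ℕ)) / S) :
    TriB PP.cur (nearL (h0 * 0) 3 κ (h0 * x) (tbl tKN x) (tbl tL x)) 1 2 3 4 2 1 (-1) :=
  (sideN hx hx').nearB (Or.inl rfl) (Or.inr rfl) fun y y' F =>
    nearB_cert (s1 := true) (s2 := false) rfl hκ covN41 covN23 hx hx'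
        Pool.Agent.Strip051.G.I1_16_1_8.Tab.C.NB42.c_pm_123 noCut_B noExt_B F trivial trivial

theorem NB42_pm_133 {κ x : ℝ} (hκ : κ * h0 = ken x) (hx : ((67108864 : ℕ) : ℝ) / S ≤ x) (hx' : x ≤ (((67108864 : ℕ) : ℝ) + (67108864 : ℕ)) / S) :
    TriB PP.cur (nearL (h0 * 0) 3 κ (h0 * x) (tbl tKN x) (tbl tL x)) 1 3 3 4 2 1 (-1) :=
  (sideN hx hx').nearB (Or.inl rfl) (Or.inr rfl) fun y y' F =>
    nearB_cert (s1 := true) (s2 := false) rfl hκ covN41 covN23 hx hx'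
        Pool.Agent.Strip051.G.I1_16_1_8.Tab.C.NB42.c_pm_133 noCut_B noExt_B F trivial trivial

theorem NB42_pm_202 {κ x : ℝ} (hκ : κ * h0 = ken x) (hx : ((67108864 : ℕ) : ℝ) / S ≤ x) (hx' : x ≤ (((67108864 : ℕ) : ℝ) + (67108864 : ℕ)) / S) :
    TriB PP.cur (nearL (h0 * 0) 3 κ (h0 * x) (tbl tKN x) (tbl tL x)) 2 0 2 4 2 1 (-1) :=
  (sideN hx hx').nearB (Or.inl rfl) (Or.inr rfl) fun y y' F =>
    (lt_or_ge (h0 * (y + y')) 1).elim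
      (fun g => nearB_cert (s1 := true) (s2 := false) rfl hκ covN42 covN22a hx hx'
        Pool.Agent.Strip051.G.I1_16_1_8.Tab.C.NB42.c_pm_202_a noCut_B noExt_B F trivial g)
      (fun g => nearB_cert (s1 := true) (s2 := false) rfl hκ covN42 covN22b hx hx'
        Pool.Agent.Strip051.G.I1_16_1_8.Tab.C.NB42.c_pm_202_b noCut_B noExt_B F trivial g)

theorem NB42_pm_203 {κ x : ℝ} (hκ : κ * h0 = ken x) (hx : ((67108864 : ℕ) : ℝ) / S ≤ x) (hx' : x ≤ (((67108864 : ℕ) : ℝ) + (67108864 : ℕ)) / S) :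
    TriB PP.cur (nearL (h0 * 0) 3 κ (h0 * x) (tbl tKN x) (tbl tL x)) 2 0 3 4 2 1 (-1) :=
  (sideN hx hx').nearB (Or.inl rfl) (Or.inr rfl) fun y y' F =>
    nearB_cert (s1 := true) (s2 := false) rfl hκ covN42 covN23 hx hx'
        Pool.Agent.Strip051.G.I1_16_1_8.Tab.C.NB42.c_pm_203 noCut_B noExt_B F trivial trivial

theorem NB42_pm_213 {κ x : ℝ} (hκ : κ * h0 = ken x) (hx : ((67108864 : ℕ) : ℝ) / S ≤ x) (hx' : x ≤ (((67108864 : ℕ) : ℝ) + (67108864 : ℕ)) / S) :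
    TriB PP.cur (nearL (h0 * 0) 3 κ (h0 * x) (tbl tKN x) (tbl tL x)) 2 1 3 4 2 1 (-1) :=
  (sideN hx hx').nearB (Or.inl rfl) (Or.inr rfl) fun y y' F =>
    nearB_cert (s1 := true) (s2 := false) rfl hκ covN42 covN23 hx hx'
        Pool.Agent.Strip051.G.I1_16_1_8.Tab.C.NB42.c_pm_213 noCut_B noExt_B F trivial trivial

theorem NB42_pm_303 {κ x : ℝ} (hκ : κ * h0 = ken x) (hx : ((67108864 : ℕ) : ℝ) / S ≤ x) (hx' : x ≤ (((67108864 : ℕ) : ℝ) + (67108864 : ℕ)) / S) :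
    TriB PP.cur (nearL (h0 * 0) 3 κ (h0 * x) (tbl tKN x) (tbl tL x)) 3 0 3 4 2 1 (-1) :=
  (sideN hx hx').nearB (Or.inl rfl) (Or.inr rfl) fun y y' F =>
    nearB_cert (s1 := true) (s2 := false) rfl hκ covN43 covN23 hx hx'
        Pool.Agent.Strip051.G.I1_16_1_8.Tab.C.NB42.c_pm_303 noCut_B noExt_B F trivial trivial

theorem NB42_pm_313 {κ x : ℝ} (hκ : κ * h0 = ken x) (hx : ((67108864 : ℕ) : ℝ) / S ≤ x) (hx' : x ≤ (((67108864 : ℕ) : ℝ) + (67108864 : ℕ)) / S) :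
    TriB PP.cur (nearL (h0 * 0) 3 κ (h0 * x) (tbl tKN x) (tbl tL x)) 3 1 3 4 2 1 (-1) :=
  (sideN hx hx').nearB (Or.inl rfl) (Or.inr rfl) fun y y' F =>
    nearB_cert (s1 := true) (s2 := false) rfl hκ covN43 covN23 hx hx'
        Pool.Agent.Strip051.G.I1_16_1_8.Tab.C.NB42.c_pm_313 noCut_B noExt_B F trivial trivial

theorem NB42_mm_001 {κ x : ℝ} (hκ : κ * h0 = ken x) (hx : ((67108864 : ℕ) : ℝ) / S ≤ x) (hx' : x ≤ (((67108864 : ℕ) : ℝ) + (67108864 : ℕ)) / S) :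
    TriB PP.cur (nearL (h0 * 0) 3 κ (h0 * x) (tbl tKN x) (tbl tL x)) 0 0 1 4 2 (-1) (-1) :=
  (sideN hx hx').nearB (Or.inr rfl) (Or.inr rfl) fun y y' F =>
    nearB_cert (s1 := false) (s2 := false) rfl hκ covN40 covN21 hx hx'
        Pool.Agent.Strip051.G.I1_16_1_8.Tab.C.NB42.c_mm_001 noCut_B noExt_B F trivial trivial

theorem NB42_mm_011 {κ x : ℝ} (hκ : κ * h0 = ken x) (hx : ((67108864 : ℕ) : ℝ) / S ≤ x) (hx' : x ≤ (((67108864 : ℕ) : ℝ) + (67108864 : ℕ)) / S) :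
    TriB PP.cur (nearL (h0 * 0) 3 κ (h0 * x) (tbl tKN x) (tbl tL x)) 0 1 1 4 2 (-1) (-1) :=
  (sideN hx hx').nearB (Or.inr rfl) (Or.inr rfl) fun y y' F =>
    nearB_cert (s1 := false) (s2 := false) rfl hκ covN40 covN21 hx hx'
        Pool.Agent.Strip051.G.I1_16_1_8.Tab.C.NB42.c_mm_011 noCut_B noExt_B F trivial trivial

theorem NB42_mm_012 {κ x : ℝ} (hκ : κ * h0 = ken x) (hx : ((67108864 : ℕ) : ℝ) / S ≤ x) (hx' : x ≤ (((67108864 : ℕ) : ℝ) + (67108864 : ℕ)) / S) :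
    TriB PP.cur (nearL (h0 * 0) 3 κ (h0 * x) (tbl tKN x) (tbl tL x)) 0 1 2 4 2 (-1) (-1) :=
  (sideN hx hx').nearB (Or.inr rfl) (Or.inr rfl) fun y y' F =>
    (lt_or_ge (h0 * (y + y')) 1).elim
      (fun g => nearB_cert (s1 := false) (s2 := false) rfl hκ covN40 covN22a hx hx'
        Pool.Agent.Strip051.G.I1_16_1_8.Tab.C.NB42.c_mm_012_a noCut_B noExt_B F trivial g)
      (fun g => nearB_cert (s1 := false) (s2 := false) rfl hκ covN40 covN22b hx hx'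
        Pool.Agent.Strip051.G.I1_16_1_8.Tab.C.NB42.c_mm_012_b noCut_B noExt_B F trivial g)

theorem NB42_mm_022 {κ x : ℝ} (hκ : κ * h0 = ken x) (hx : ((67108864 : ℕ) : ℝ) / S ≤ x) (hx' : x ≤ (((67108864 : ℕ) : ℝ) + (67108864 : ℕ)) / S) :
    TriB PP.cur (nearL (h0 * 0) 3 κ (h0 * x) (tbl tKN x) (tbl tL x)) 0 2 2 4 2 (-1) (-1) :=
  (sideN hx hx').nearB (Or.inr rfl) (Or.inr rfl) fun y y' F =>
    (lt_or_ge (h0 * (y + y')) 1).elim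
      (fun g => nearB_cert (s1 := false) (s2 := false) rfl hκ covN40 covN22a hx hx'
        Pool.Agent.Strip051.G.I1_16_1_8.Tab.C.NB42.c_mm_022_a noCut_B noExt_B F trivial g)
      (fun g => nearB_cert (s1 := false) (s2 := false) rfl hκ covN40 covN22b hx hx'
        Pool.Agent.Strip051.G.I1_16_1_8.Tab.C.NB42.c_mm_022_b noCut_B noExt_B F trivial g)

theorem NB42_mm_023 {κ x : ℝ} (hκ : κ * h0 = ken x) (hx : ((67108864 : ℕ) : ℝ) / S ≤ x) (hx' : x ≤ (((67108864 : ℕ) : ℝ) + (67108864 : ℕ)) / S) :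
    TriB PP.cur (nearL (h0 * 0) 3 κ (h0 * x) (tbl tKN x) (tbl tL x)) 0 2 3 4 2 (-1) (-1) :=
  (sideN hx hx').nearB (Or.inr rfl) (Or.inr rfl) fun y y' F =>
    nearB_cert (s1 := false) (s2 := false) rfl hκ covN40 covN23 hx hx'
        Pool.Agent.Strip051.G.I1_16_1_8.Tab.C.NB42.c_mm_023 noCut_B noExt_B F trivial trivial

theorem NB42_mm_033 {κ x : ℝ} (hκ : κ * h0 = ken x) (hx : ((67108864 : ℕ) : ℝ) / S ≤ x) (hx' : x ≤ (((67108864 : ℕ) : ℝ) + (67108864 : ℕ)) / S) :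
    TriB PP.cur (nearL (h0 * 0) 3 κ (h0 * x) (tbl tKN x) (tbl tL x)) 0 3 3 4 2 (-1) (-1) :=
  (sideN hx hx').nearB (Or.inr rfl) (Or.inr rfl) fun y y' F =>
    nearB_cert (s1 := false) (s2 := false) rfl hκ covN40 covN23 hx hx'
        Pool.Agent.Strip051.G.I1_16_1_8.Tab.C.NB42.c_mm_033 noCut_B noExt_B F trivial trivial

theorem NB42_mm_101 {κ x : ℝ} (hκ : κ * h0 = ken x) (hx : ((67108864 : ℕ) : ℝ) / S ≤ x) (hx' : x ≤ (((67108864 : ℕ) : ℝ) + (67108864 : ℕ)) / S) :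
    TriB PP.cur (nearL (h0 * 0) 3 κ (h0 * x) (tbl tKN x) (tbl tL x)) 1 0 1 4 2 (-1) (-1) :=
  (sideN hx hx').nearB (Or.inr rfl) (Or.inr rfl) fun y y' F =>
    nearB_cert (s1 := false) (s2 := false) rfl hκ covN41 covN21 hx hx'
        Pool.Agent.Strip051.G.I1_16_1_8.Tab.C.NB42.c_mm_101 noCut_B noExt_B F trivial trivial

theorem NB42_mm_102 {κ x : ℝ} (hκ : κ * h0 = ken x) (hx : ((67108864 : ℕ) : ℝ) / S ≤ x) (hx' : x ≤ (((67108864 : ℕ) : ℝ) + (67108864 : ℕ)) / S) :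
    TriB PP.cur (nearL (h0 * 0) 3 κ (h0 * x) (tbl tKN x) (tbl tL x)) 1 0 2 4 2 (-1) (-1) :=
  (sideN hx hx').nearB (Or.inr rfl) (Or.inr rfl) fun y y' F =>
    (lt_or_ge (h0 * (y + y')) 1).elim
      (fun g => nearB_cert (s1 := false) (s2 := false) rfl hκ covN41 covN22a hx hx'
        Pool.Agent.Strip051.G.I1_16_1_8.Tab.C.NB42.c_mm_102_a noCut_B noExt_B F trivial g)
      (fun g => nearB_cert (s1 := false) (s2 := false) rfl hκ covN41 covN22b hx hx'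
        Pool.Agent.Strip051.G.I1_16_1_8.Tab.C.NB42.c_mm_102_b noCut_B noExt_B F trivial g)

theorem NB42_mm_112 {κ x : ℝ} (hκ : κ * h0 = ken x) (hx : ((67108864 : ℕ) : ℝ) / S ≤ x) (hx' : x ≤ (((67108864 : ℕ) : ℝ) + (67108864 : ℕ)) / S) :
    TriB PP.cur (nearL (h0 * 0) 3 κ (h0 * x) (tbl tKN x) (tbl tL x)) 1 1 2 4 2 (-1) (-1) :=
  (sideN hx hx').nearB (Or.inr rfl) (Or.inr rfl) fun y y' F =>
    (lt_or_ge (h0 * (y + y')) 1).elim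
      (fun g => nearB_cert (s1 := false) (s2 := false) rfl hκ covN41 covN22a hx hx'
        Pool.Agent.Strip051.G.I1_16_1_8.Tab.C.NB42.c_mm_112_a noCut_B noExt_B F trivial g)
      (fun g => nearB_cert (s1 := false) (s2 := false) rfl hκ covN41 covN22b hx hx'
        Pool.Agent.Strip051.G.I1_16_1_8.Tab.C.NB42.c_mm_112_b noCut_B noExt_B F trivial g)

theorem NB42_mm_113 {κ x : ℝ} (hκ : κ * h0 = ken x) (hx : ((67108864 : ℕ) : ℝ) / S ≤ x) (hx' : x ≤ (((67108864 : ℕ) : ℝ) + (67108864 : ℕ)) / S) :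
    TriB PP.cur (nearL (h0 * 0) 3 κ (h0 * x) (tbl tKN x) (tbl tL x)) 1 1 3 4 2 (-1) (-1) :=
  (sideN hx hx').nearB (Or.inr rfl) (Or.inr rfl) fun y y' F =>
    nearB_cert (s1 := false) (s2 := false) rfl hκ covN41 covN23 hx hx'
        Pool.Agent.Strip051.G.I1_16_1_8.Tab.C.NB42.c_mm_113 noCut_B noExt_B F trivial trivial

theorem NB42_mm_123 {κ x : ℝ} (hκ : κ * h0 = ken x) (hx : ((67108864 : ℕ) : ℝ) / S ≤ x) (hx' : x ≤ (((67108864 : ℕ) : ℝ) + (67108864 : ℕ)) / S) :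
    TriB PP.cur (nearL (h0 * 0) 3 κ (h0 * x) (tbl tKN x) (tbl tL x)) 1 2 3 4 2 (-1) (-1) :=
  (sideN hx hx').nearB (Or.inr rfl) (Or.inr rfl) fun y y' F =>
    nearB_cert (s1 := false) (s2 := false) rfl hκ covN41 covN23 hx hx'
        Pool.Agent.Strip051.G.I1_16_1_8.Tab.C.NB42.c_mm_123 noCut_B noExt_B F trivial trivial

theorem NB42_mm_133 {κ x : ℝ} (hκ : κ * h0 = ken x) (hx : ((67108864 : ℕ) : ℝ) / S ≤ x) (hx' : x ≤ (((67108864 : ℕ) : ℝ) + (67108864 : ℕ)) / S) :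
    TriB PP.cur (nearL (h0 * 0) 3 κ (h0 * x) (tbl tKN x) (tbl tL x)) 1 3 3 4 2 (-1) (-1) :=
  (sideN hx hx').nearB (Or.inr rfl) (Or.inr rfl) fun y y' F =>
    nearB_cert (s1 := false) (s2 := false) rfl hκ covN41 covN23 hx hx'
        Pool.Agent.Strip051.G.I1_16_1_8.Tab.C.NB42.c_mm_133 noCut_B noExt_B F trivial trivial

theorem NB42_mm_202 {κ x : ℝ} (hκ : κ * h0 = ken x) (hx : ((67108864 : ℕ) : ℝ) / S ≤ x) (hx' : x ≤ (((67108864 : ℕ) : ℝ) + (67108864 : ℕ)) / S) :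
    TriB PP.cur (nearL (h0 * 0) 3 κ (h0 * x) (tbl tKN x) (tbl tL x)) 2 0 2 4 2 (-1) (-1) :=
  (sideN hx hx').nearB (Or.inr rfl) (Or.inr rfl) fun y y' F =>
    (lt_or_ge (h0 * (y + y')) 1).elim
      (fun g => nearB_cert (s1 := false) (s2 := false) rfl hκ covN42 covN22a hx hx'
        Pool.Agent.Strip051.G.I1_16_1_8.Tab.C.NB42.c_mm_202_a noCut_B noExt_B F trivial g)
      (fun g => nearB_cert (s1 := false) (s2 := false) rfl hκ covN42 covN22b hx hx'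
        Pool.Agent.Strip051.G.I1_16_1_8.Tab.C.NB42.c_mm_202_b noCut_B noExt_B F trivial g)

theorem NB42_mm_203 {κ x : ℝ} (hκ : κ * h0 = ken x) (hx : ((67108864 : ℕ) : ℝ) / S ≤ x) (hx' : x ≤ (((67108864 : ℕ) : ℝ) + (67108864 : ℕ)) / S) :
    TriB PP.cur (nearL (h0 * 0) 3 κ (h0 * x) (tbl tKN x) (tbl tL x)) 2 0 3 4 2 (-1) (-1) :=
  (sideN hx hx').nearB (Or.inr rfl) (Or.inr rfl) fun y y' F =>
    nearB_cert (s1 := false) (s2 := false) rfl hκ covN42 covN23 hx hx'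
        Pool.Agent.Strip051.G.I1_16_1_8.Tab.C.NB42.c_mm_203 noCut_B noExt_B F trivial trivial

theorem NB42_mm_213 {κ x : ℝ} (hκ : κ * h0 = ken x) (hx : ((67108864 : ℕ) : ℝ) / S ≤ x) (hx' : x ≤ (((67108864 : ℕ) : ℝ) + (67108864 : ℕ)) / S) :
    TriB PP.cur (nearL (h0 * 0) 3 κ (h0 * x) (tbl tKN x) (tbl tL x)) 2 1 3 4 2 (-1) (-1) :=
  (sideN hx hx').nearB (Or.inr rfl) (Or.inr rfl) fun y y' F =>
    nearB_cert (s1 := false) (s2 := false) rfl hκ covN42 covN23 hx hx'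
        Pool.Agent.Strip051.G.I1_16_1_8.Tab.C.NB42.c_mm_213 noCut_B noExt_B F trivial trivial

theorem NB42_mm_303 {κ x : ℝ} (hκ : κ * h0 = ken x) (hx : ((67108864 : ℕ) : ℝ) / S ≤ x) (hx' : x ≤ (((67108864 : ℕ) : ℝ) + (67108864 : ℕ)) / S) :
    TriB PP.cur (nearL (h0 * 0) 3 κ (h0 * x) (tbl tKN x) (tbl tL x)) 3 0 3 4 2 (-1) (-1) :=
  (sideN hx hx').nearB (Or.inr rfl) (Or.inr rfl) fun y y' F =>
    nearB_cert (s1 := false) (s2 := false) rfl hκ covN43 covN23 hx hx'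
        Pool.Agent.Strip051.G.I1_16_1_8.Tab.C.NB42.c_mm_303 noCut_B noExt_B F trivial trivial

theorem NB42_mm_313 {κ x : ℝ} (hκ : κ * h0 = ken x) (hx : ((67108864 : ℕ) : ℝ) / S ≤ x) (hx' : x ≤ (((67108864 : ℕ) : ℝ) + (67108864 : ℕ)) / S) :
    TriB PP.cur (nearL (h0 * 0) 3 κ (h0 * x) (tbl tKN x) (tbl tL x)) 3 1 3 4 2 (-1) (-1) :=
  (sideN hx hx').nearB (Or.inr rfl) (Or.inr rfl) fun y y' F =>
    nearB_cert (s1 := false) (s2 := false) rfl hκ covN43 covN23 hx hx'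
        Pool.Agent.Strip051.G.I1_16_1_8.Tab.C.NB42.c_mm_313 noCut_B noExt_B F trivial trivial

theorem NB42 {κ x : ℝ} (hκ : κ * h0 = ken x) (hx : ((67108864 : ℕ) : ℝ) / S ≤ x) (hx' : x ≤ (((67108864 : ℕ) : ℝ) + (67108864 : ℕ)) / S) : AllTB PP.cur (nearL (h0 * 0) 3 κ (h0 * x) (tbl tKN x) (tbl tL x)) 4 2 where
  pp := all17 (Q := fun a b c => TriB PP.cur (nearL (h0 * 0) 3 κ (h0 * x) (tbl tKN x) (tbl tL x)) a b c 4 2 1 1)
    (NB42_pp_001 hκ hx hx') (NB42_pp_011 hκ hx hx') (NB42_pp_012 hκ hx hx') (NB42_pp_022 hκ hx hx') (NB42_pp_023 hκ hx hx') (NB42_pp_033 hκ hx hx') (NB42_pp_101 hκ hx hx') (NB42_pp_102 hκ hx hx') (NB42_pp_112 hκ hx hx') (NB42_pp_113 hκ hx hx') (NB42_pp_123 hκ hx hx') (NB42_pp_133 hκ hx hx') (NB42_pp_202 hκ hx hx') (NB42_pp_203 hκ hx hx') (NB42_pp_213 hκ hx hx') (NB42_pp_303 hκ hx hx') (NB42_pp_313 hκ hx hx')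
  pm := all17 (Q := fun a b c => TriB PP.cur (nearL (h0 * 0) 3 κ (h0 * x) (tbl tKN x) (tbl tL x)) a b c 4 2 1 (-1))
    (NB42_pm_001 hκ hx hx') (NB42_pm_011 hκ hx hx') (NB42_pm_012 hκ hx hx') (NB42_pm_022 hκ hx hx') (NB42_pm_023 hκ hx hx') (NB42_pm_033 hκ hx hx') (NB42_pm_101 hκ hx hx') (NB42_pm_102 hκ hx hx') (NB42_pm_112 hκ hx hx') (NB42_pm_113 hκ hx hx') (NB42_pm_123 hκ hx hx') (NB42_pm_133 hκ hx hx') (NB42_pm_202 hκ hx hx') (NB42_pm_203 hκ hx hx') (NB42_pm_213 hκ hx hx') (NB42_pm_303 hκ hx hx') (NB42_pm_313 hκ hx hx')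
  mm := all17 (Q := fun a b c => TriB PP.cur (nearL (h0 * 0) 3 κ (h0 * x) (tbl tKN x) (tbl tL x)) a b c 4 2 (-1) (-1))
    (NB42_mm_001 hκ hx hx') (NB42_mm_011 hκ hx hx') (NB42_mm_012 hκ hx hx') (NB42_mm_022 hκ hx hx') (NB42_mm_023 hκ hx hx') (NB42_mm_033 hκ hx hx') (NB42_mm_101 hκ hx hx') (NB42_mm_102 hκ hx hx') (NB42_mm_112 hκ hx hx') (NB42_mm_113 hκ hx hx') (NB42_mm_123 hκ hx hx') (NB42_mm_133 hκ hx hx') (NB42_mm_202 hκ hx hx') (NB42_mm_203 hκ hx hx') (NB42_mm_213 hκ hx hx') (NB42_mm_303 hκ hx hx') (NB42_mm_313 hκ hx hx')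

theorem NB43_pp_001 {κ x : ℝ} (hκ : κ * h0 = ken x) (hx : ((67108864 : ℕ) : ℝ) / S ≤ x) (hx' : x ≤ (((67108864 : ℕ) : ℝ) + (67108864 : ℕ)) / S) :
    TriB PP.cur (nearL (h0 * 0) 3 κ (h0 * x) (tbl tKN x) (tbl tL x)) 0 0 1 4 3 1 1 :=
  (sideN hx hx').nearB (Or.inl rfl) (Or.inl rfl) fun y y' F =>
    nearB_cert (s1 := true) (s2 := true) rfl hκ covN40 covN31 hx hx'
        Pool.Agent.Strip051.G.I1_16_1_8.Tab.C.NB43.c_pp_001 noCut_B noExt_B F trivial trivial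

theorem NB43_pp_011 {κ x : ℝ} (hκ : κ * h0 = ken x) (hx : ((67108864 : ℕ) : ℝ) / S ≤ x) (hx' : x ≤ (((67108864 : ℕ) : ℝ) + (67108864 : ℕ)) / S) :
    TriB PP.cur (nearL (h0 * 0) 3 κ (h0 * x) (tbl tKN x) (tbl tL x)) 0 1 1 4 3 1 1 :=
  (sideN hx hx').nearB (Or.inl rfl) (Or.inl rfl) fun y y' F =>
    nearB_cert (s1 := true) (s2 := true) rfl hκ covN40 covN31 hx hx'
        Pool.Agent.Strip051.G.I1_16_1_8.Tab.C.NB43.c_pp_011 noCut_B noExt_B F trivial trivial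

theorem NB43_pp_012 {κ x : ℝ} (hκ : κ * h0 = ken x) (hx : ((67108864 : ℕ) : ℝ) / S ≤ x) (hx' : x ≤ (((67108864 : ℕ) : ℝ) + (67108864 : ℕ)) / S) :
    TriB PP.cur (nearL (h0 * 0) 3 κ (h0 * x) (tbl tKN x) (tbl tL x)) 0 1 2 4 3 1 1 :=
  (sideN hx hx').nearB (Or.inl rfl) (Or.inl rfl) fun y y' F =>
    nearB_cert (s1 := true) (s2 := true) rfl hκ covN40 covN32 hx hx'
        Pool.Agent.Strip051.G.I1_16_1_8.Tab.C.NB43.c_pp_012 noCut_B noExt_B F trivial trivial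

theorem NB43_pp_022 {κ x : ℝ} (hκ : κ * h0 = ken x) (hx : ((67108864 : ℕ) : ℝ) / S ≤ x) (hx' : x ≤ (((67108864 : ℕ) : ℝ) + (67108864 : ℕ)) / S) :
    TriB PP.cur (nearL (h0 * 0) 3 κ (h0 * x) (tbl tKN x) (tbl tL x)) 0 2 2 4 3 1 1 :=
  (sideN hx hx').nearB (Or.inl rfl) (Or.inl rfl) fun y y' F =>
    nearB_cert (s1 := true) (s2 := true) rfl hκ covN40 covN32 hx hx'
        Pool.Agent.Strip051.G.I1_16_1_8.Tab.C.NB43.c_pp_022 noCut_B noExt_B F trivial trivial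

theorem NB43_pp_023 {κ x : ℝ} (hκ : κ * h0 = ken x) (hx : ((67108864 : ℕ) : ℝ) / S ≤ x) (hx' : x ≤ (((67108864 : ℕ) : ℝ) + (67108864 : ℕ)) / S) :
    TriB PP.cur (nearL (h0 * 0) 3 κ (h0 * x) (tbl tKN x) (tbl tL x)) 0 2 3 4 3 1 1 :=
  (sideN hx hx').nearB (Or.inl rfl) (Or.inl rfl) fun y y' F =>
    nearB_cert (s1 := true) (s2 := true) rfl hκ covN40 covN33 hx hx'
        Pool.Agent.Strip051.G.I1_16_1_8.Tab.C.NB43.c_pp_023 noCut_B noExt_B F trivial trivial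

theorem NB43_pp_033 {κ x : ℝ} (hκ : κ * h0 = ken x) (hx : ((67108864 : ℕ) : ℝ) / S ≤ x) (hx' : x ≤ (((67108864 : ℕ) : ℝ) + (67108864 : ℕ)) / S) :
    TriB PP.cur (nearL (h0 * 0) 3 κ (h0 * x) (tbl tKN x) (tbl tL x)) 0 3 3 4 3 1 1 :=
  (sideN hx hx').nearB (Or.inl rfl) (Or.inl rfl) fun y y' F =>
    nearB_cert (s1 := true) (s2 := true) rfl hκ covN40 covN33 hx hx'
        Pool.Agent.Strip051.G.I1_16_1_8.Tab.C.NB43.c_pp_033 noCut_B noExt_B F trivial trivial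

theorem NB43_pp_101 {κ x : ℝ} (hκ : κ * h0 = ken x) (hx : ((67108864 : ℕ) : ℝ) / S ≤ x) (hx' : x ≤ (((67108864 : ℕ) : ℝ) + (67108864 : ℕ)) / S) :
    TriB PP.cur (nearL (h0 * 0) 3 κ (h0 * x) (tbl tKN x) (tbl tL x)) 1 0 1 4 3 1 1 :=
  (sideN hx hx').nearB (Or.inl rfl) (Or.inl rfl) fun y y' F =>
    nearB_cert (s1 := true) (s2 := true) rfl hκ covN41 covN31 hx hx'
        Pool.Agent.Strip051.G.I1_16_1_8.Tab.C.NB43.c_pp_101 noCut_B noExt_B F trivial trivial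

theorem NB43_pp_102 {κ x : ℝ} (hκ : κ * h0 = ken x) (hx : ((67108864 : ℕ) : ℝ) / S ≤ x) (hx' : x ≤ (((67108864 : ℕ) : ℝ) + (67108864 : ℕ)) / S) :
    TriB PP.cur (nearL (h0 * 0) 3 κ (h0 * x) (tbl tKN x) (tbl tL x)) 1 0 2 4 3 1 1 :=
  (sideN hx hx').nearB (Or.inl rfl) (Or.inl rfl) fun y y' F =>
    nearB_cert (s1 := true) (s2 := true) rfl hκ covN41 covN32 hx hx'
        Pool.Agent.Strip051.G.I1_16_1_8.Tab.C.NB43.c_pp_102 noCut_B noExt_B F trivial trivial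

theorem NB43_pp_112 {κ x : ℝ} (hκ : κ * h0 = ken x) (hx : ((67108864 : ℕ) : ℝ) / S ≤ x) (hx' : x ≤ (((67108864 : ℕ) : ℝ) + (67108864 : ℕ)) / S) :
    TriB PP.cur (nearL (h0 * 0) 3 κ (h0 * x) (tbl tKN x) (tbl tL x)) 1 1 2 4 3 1 1 :=
  (sideN hx hx').nearB (Or.inl rfl) (Or.inl rfl) fun y y' F =>
    nearB_cert (s1 := true) (s2 := true) rfl hκ covN41 covN32 hx hx'
        Pool.Agent.Strip051.G.I1_16_1_8.Tab.C.NB43.c_pp_112 noCut_B noExt_B F trivial trivial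

theorem NB43_pp_113 {κ x : ℝ} (hκ : κ * h0 = ken x) (hx : ((67108864 : ℕ) : ℝ) / S ≤ x) (hx' : x ≤ (((67108864 : ℕ) : ℝ) + (67108864 : ℕ)) / S) :
    TriB PP.cur (nearL (h0 * 0) 3 κ (h0 * x) (tbl tKN x) (tbl tL x)) 1 1 3 4 3 1 1 :=
  (sideN hx hx').nearB (Or.inl rfl) (Or.inl rfl) fun y y' F =>
    nearB_cert (s1 := true) (s2 := true) rfl hκ covN41 covN33 hx hx'
        Pool.Agent.Strip051.G.I1_16_1_8.Tab.C.NB43.c_pp_113 noCut_B noExt_B F trivial trivial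

theorem NB43_pp_123 {κ x : ℝ} (hκ : κ * h0 = ken x) (hx : ((67108864 : ℕ) : ℝ) / S ≤ x) (hx' : x ≤ (((67108864 : ℕ) : ℝ) + (67108864 : ℕ)) / S) :
    TriB PP.cur (nearL (h0 * 0) 3 κ (h0 * x) (tbl tKN x) (tbl tL x)) 1 2 3 4 3 1 1 :=
  (sideN hx hx').nearB (Or.inl rfl) (Or.inl rfl) fun y y' F =>
    nearB_cert (s1 := true) (s2 := true) rfl hκ covN41 covN33 hx hx'
        Pool.Agent.Strip051.G.I1_16_1_8.Tab.C.NB43.c_pp_123 noCut_B noExt_B F trivial trivial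

theorem NB43_pp_133 {κ x : ℝ} (hκ : κ * h0 = ken x) (hx : ((67108864 : ℕ) : ℝ) / S ≤ x) (hx' : x ≤ (((67108864 : ℕ) : ℝ) + (67108864 : ℕ)) / S) :
    TriB PP.cur (nearL (h0 * 0) 3 κ (h0 * x) (tbl tKN x) (tbl tL x)) 1 3 3 4 3 1 1 :=
  (sideN hx hx').nearB (Or.inl rfl) (Or.inl rfl) fun y y' F =>
    nearB_cert (s1 := true) (s2 := true) rfl hκ covN41 covN33 hx hx'
        Pool.Agent.Strip051.G.I1_16_1_8.Tab.C.NB43.c_pp_133 noCut_B noExt_B F trivial trivial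

theorem NB43_pp_202 {κ x : ℝ} (hκ : κ * h0 = ken x) (hx : ((67108864 : ℕ) : ℝ) / S ≤ x) (hx' : x ≤ (((67108864 : ℕ) : ℝ) + (67108864 : ℕ)) / S) :
    TriB PP.cur (nearL (h0 * 0) 3 κ (h0 * x) (tbl tKN x) (tbl tL x)) 2 0 2 4 3 1 1 :=
  (sideN hx hx').nearB (Or.inl rfl) (Or.inl rfl) fun y y' F =>
    nearB_cert (s1 := true) (s2 := true) rfl hκ covN42 covN32 hx hx'
        Pool.Agent.Strip051.G.I1_16_1_8.Tab.C.NB43.c_pp_202 noCut_B noExt_B F trivial trivial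

theorem NB43_pp_203 {κ x : ℝ} (hκ : κ * h0 = ken x) (hx : ((67108864 : ℕ) : ℝ) / S ≤ x) (hx' : x ≤ (((67108864 : ℕ) : ℝ) + (67108864 : ℕ)) / S) :
    TriB PP.cur (nearL (h0 * 0) 3 κ (h0 * x) (tbl tKN x) (tbl tL x)) 2 0 3 4 3 1 1 :=
  (sideN hx hx').nearB (Or.inl rfl) (Or.inl rfl) fun y y' F =>
    nearB_cert (s1 := true) (s2 := true) rfl hκ covN42 covN33 hx hx'
        Pool.Agent.Strip051.G.I1_16_1_8.Tab.C.NB43.c_pp_203 noCut_B noExt_B F trivial trivial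

theorem NB43_pp_213 {κ x : ℝ} (hκ : κ * h0 = ken x) (hx : ((67108864 : ℕ) : ℝ) / S ≤ x) (hx' : x ≤ (((67108864 : ℕ) : ℝ) + (67108864 : ℕ)) / S) :
    TriB PP.cur (nearL (h0 * 0) 3 κ (h0 * x) (tbl tKN x) (tbl tL x)) 2 1 3 4 3 1 1 :=
  (sideN hx hx').nearB (Or.inl rfl) (Or.inl rfl) fun y y' F =>
    nearB_cert (s1 := true) (s2 := true) rfl hκ covN42 covN33 hx hx'
        Pool.Agent.Strip051.G.I1_16_1_8.Tab.C.NB43.c_pp_213 noCut_B noExt_B F trivial trivial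

theorem NB43_pp_303 {κ x : ℝ} (hκ : κ * h0 = ken x) (hx : ((67108864 : ℕ) : ℝ) / S ≤ x) (hx' : x ≤ (((67108864 : ℕ) : ℝ) + (67108864 : ℕ)) / S) :
    TriB PP.cur (nearL (h0 * 0) 3 κ (h0 * x) (tbl tKN x) (tbl tL x)) 3 0 3 4 3 1 1 :=
  (sideN hx hx').nearB (Or.inl rfl) (Or.inl rfl) fun y y' F =>
    nearB_cert (s1 := true) (s2 := true) rfl hκ covN43 covN33 hx hx'
        Pool.Agent.Strip051.G.I1_16_1_8.Tab.C.NB43.c_pp_303 noCut_B noExt_B F trivial trivial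

theorem NB43_pp_313 {κ x : ℝ} (hκ : κ * h0 = ken x) (hx : ((67108864 : ℕ) : ℝ) / S ≤ x) (hx' : x ≤ (((67108864 : ℕ) : ℝ) + (67108864 : ℕ)) / S) :
    TriB PP.cur (nearL (h0 * 0) 3 κ (h0 * x) (tbl tKN x) (tbl tL x)) 3 1 3 4 3 1 1 :=
  (sideN hx hx').nearB (Or.inl rfl) (Or.inl rfl) fun y y' F =>
    nearB_cert (s1 := true) (s2 := true) rfl hκ covN43 covN33 hx hx'
        Pool.Agent.Strip051.G.I1_16_1_8.Tab.C.NB43.c_pp_313 noCut_B noExt_B F trivial trivial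

theorem NB43_pm_001 {κ x : ℝ} (hκ : κ * h0 = ken x) (hx : ((67108864 : ℕ) : ℝ) / S ≤ x) (hx' : x ≤ (((67108864 : ℕ) : ℝ) + (67108864 : ℕ)) / S) :
    TriB PP.cur (nearL (h0 * 0) 3 κ (h0 * x) (tbl tKN x) (tbl tL x)) 0 0 1 4 3 1 (-1) :=
  (sideN hx hx').nearB (Or.inl rfl) (Or.inr rfl) fun y y' F =>
    nearB_cert (s1 := true) (s2 := false) rfl hκ covN40 covN31 hx hx'
        Pool.Agent.Strip051.G.I1_16_1_8.Tab.C.NB43.c_pm_001 noCut_B noExt_B F trivial trivial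

theorem NB43_pm_011 {κ x : ℝ} (hκ : κ * h0 = ken x) (hx : ((67108864 : ℕ) : ℝ) / S ≤ x) (hx' : x ≤ (((67108864 : ℕ) : ℝ) + (67108864 : ℕ)) / S) :
    TriB PP.cur (nearL (h0 * 0) 3 κ (h0 * x) (tbl tKN x) (tbl tL x)) 0 1 1 4 3 1 (-1) :=
  (sideN hx hx').nearB (Or.inl rfl) (Or.inr rfl) fun y y' F =>
    nearB_cert (s1 := true) (s2 := false) rfl hκ covN40 covN31 hx hx'
        Pool.Agent.Strip051.G.I1_16_1_8.Tab.C.NB43.c_pm_011 noCut_B noExt_B F trivial trivial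

theorem NB43_pm_012 {κ x : ℝ} (hκ : κ * h0 = ken x) (hx : ((67108864 : ℕ) : ℝ) / S ≤ x) (hx' : x ≤ (((67108864 : ℕ) : ℝ) + (67108864 : ℕ)) / S) :
    TriB PP.cur (nearL (h0 * 0) 3 κ (h0 * x) (tbl tKN x) (tbl tL x)) 0 1 2 4 3 1 (-1) :=
  (sideN hx hx').nearB (Or.inl rfl) (Or.inr rfl) fun y y' F =>
    nearB_cert (s1 := true) (s2 := false) rfl hκ covN40 covN32 hx hx'
        Pool.Agent.Strip051.G.I1_16_1_8.Tab.C.NB43.c_pm_012 noCut_B noExt_B F trivial trivial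

theorem NB43_pm_022 {κ x : ℝ} (hκ : κ * h0 = ken x) (hx : ((67108864 : ℕ) : ℝ) / S ≤ x) (hx' : x ≤ (((67108864 : ℕ) : ℝ) + (67108864 : ℕ)) / S) :
    TriB PP.cur (nearL (h0 * 0) 3 κ (h0 * x) (tbl tKN x) (tbl tL x)) 0 2 2 4 3 1 (-1) :=
  (sideN hx hx').nearB (Or.inl rfl) (Or.inr rfl) fun y y' F =>
    nearB_cert (s1 := true) (s2 := false) rfl hκ covN40 covN32 hx hx'
        Pool.Agent.Strip051.G.I1_16_1_8.Tab.C.NB43.c_pm_022 noCut_B noExt_B F trivial trivial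

theorem NB43_pm_023 {κ x : ℝ} (hκ : κ * h0 = ken x) (hx : ((67108864 : ℕ) : ℝ) / S ≤ x) (hx' : x ≤ (((67108864 : ℕ) : ℝ) + (67108864 : ℕ)) / S) :
    TriB PP.cur (nearL (h0 * 0) 3 κ (h0 * x) (tbl tKN x) (tbl tL x)) 0 2 3 4 3 1 (-1) :=
  (sideN hx hx').nearB (Or.inl rfl) (Or.inr rfl) fun y y' F =>
    nearB_cert (s1 := true) (s2 := false) rfl hκ covN40 covN33 hx hx'
        Pool.Agent.Strip051.G.I1_16_1_8.Tab.C.NB43.c_pm_023 noCut_B noExt_B F trivial trivial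

theorem NB43_pm_033 {κ x : ℝ} (hκ : κ * h0 = ken x) (hx : ((67108864 : ℕ) : ℝ) / S ≤ x) (hx' : x ≤ (((67108864 : ℕ) : ℝ) + (67108864 : ℕ)) / S) :
    TriB PP.cur (nearL (h0 * 0) 3 κ (h0 * x) (tbl tKN x) (tbl tL x)) 0 3 3 4 3 1 (-1) :=
  (sideN hx hx').nearB (Or.inl rfl) (Or.inr rfl) fun y y' F =>
    nearB_cert (s1 := true) (s2 := false) rfl hκ covN40 covN33 hx hx'
        Pool.Agent.Strip051.G.I1_16_1_8.Tab.C.NB43.c_pm_033 noCut_B noExt_B F trivial trivial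

theorem NB43_pm_101 {κ x : ℝ} (hκ : κ * h0 = ken x) (hx : ((67108864 : ℕ) : ℝ) / S ≤ x) (hx' : x ≤ (((67108864 : ℕ) : ℝ) + (67108864 : ℕ)) / S) :
    TriB PP.cur (nearL (h0 * 0) 3 κ (h0 * x) (tbl tKN x) (tbl tL x)) 1 0 1 4 3 1 (-1) :=
  (sideN hx hx').nearB (Or.inl rfl) (Or.inr rfl) fun y y' F =>
    nearB_cert (s1 := true) (s2 := false) rfl hκ covN41 covN31 hx hx'
        Pool.Agent.Strip051.G.I1_16_1_8.Tab.C.NB43.c_pm_101 noCut_B noExt_B F trivial trivial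

theorem NB43_pm_102 {κ x : ℝ} (hκ : κ * h0 = ken x) (hx : ((67108864 : ℕ) : ℝ) / S ≤ x) (hx' : x ≤ (((67108864 : ℕ) : ℝ) + (67108864 : ℕ)) / S) :
    TriB PP.cur (nearL (h0 * 0) 3 κ (h0 * x) (tbl tKN x) (tbl tL x)) 1 0 2 4 3 1 (-1) :=
  (sideN hx hx').nearB (Or.inl rfl) (Or.inr rfl) fun y y' F =>
    nearB_cert (s1 := true) (s2 := false) rfl hκ covN41 covN32 hx hx'
        Pool.Agent.Strip051.G.I1_16_1_8.Tab.C.NB43.c_pm_102 noCut_B noExt_B F trivial trivial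

theorem NB43_pm_112 {κ x : ℝ} (hκ : κ * h0 = ken x) (hx : ((67108864 : ℕ) : ℝ) / S ≤ x) (hx' : x ≤ (((67108864 : ℕ) : ℝ) + (67108864 : ℕ)) / S) :
    TriB PP.cur (nearL (h0 * 0) 3 κ (h0 * x) (tbl tKN x) (tbl tL x)) 1 1 2 4 3 1 (-1) :=
  (sideN hx hx').nearB (Or.inl rfl) (Or.inr rfl) fun y y' F =>
    nearB_cert (s1 := true) (s2 := false) rfl hκ covN41 covN32 hx hx'
        Pool.Agent.Strip051.G.I1_16_1_8.Tab.C.NB43.c_pm_112 noCut_B noExt_B F trivial trivial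

theorem NB43_pm_113 {κ x : ℝ} (hκ : κ * h0 = ken x) (hx : ((67108864 : ℕ) : ℝ) / S ≤ x) (hx' : x ≤ (((67108864 : ℕ) : ℝ) + (67108864 : ℕ)) / S) :
    TriB PP.cur (nearL (h0 * 0) 3 κ (h0 * x) (tbl tKN x) (tbl tL x)) 1 1 3 4 3 1 (-1) :=
  (sideN hx hx').nearB (Or.inl rfl) (Or.inr rfl) fun y y' F =>
    nearB_cert (s1 := true) (s2 := false) rfl hκ covN41 covN33 hx hx'
        Pool.Agent.Strip051.G.I1_16_1_8.Tab.C.NB43.c_pm_113 noCut_B noExt_B F trivial trivial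

theorem NB43_pm_123 {κ x : ℝ} (hκ : κ * h0 = ken x) (hx : ((67108864 : ℕ) : ℝ) / S ≤ x) (hx' : x ≤ (((67108864 : ℕ) : ℝ) + (67108864 : ℕ)) / S) :
    TriB PP.cur (nearL (h0 * 0) 3 κ (h0 * x) (tbl tKN x) (tbl tL x)) 1 2 3 4 3 1 (-1) :=
  (sideN hx hx').nearB (Or.inl rfl) (Or.inr rfl) fun y y' F =>
    nearB_cert (s1 := true) (s2 := false) rfl hκ covN41 covN33 hx hx'
        Pool.Agent.Strip051.G.I1_16_1_8.Tab.C.NB43.c_pm_123 noCut_B noExt_B F trivial trivial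

theorem NB43_pm_133 {κ x : ℝ} (hκ : κ * h0 = ken x) (hx : ((67108864 : ℕ) : ℝ) / S ≤ x) (hx' : x ≤ (((67108864 : ℕ) : ℝ) + (67108864 : ℕ)) / S) :
    TriB PP.cur (nearL (h0 * 0) 3 κ (h0 * x) (tbl tKN x) (tbl tL x)) 1 3 3 4 3 1 (-1) :=
  (sideN hx hx').nearB (Or.inl rfl) (Or.inr rfl) fun y y' F =>
    nearB_cert (s1 := true) (s2 := false) rfl hκ covN41 covN33 hx hx'
        Pool.Agent.Strip051.G.I1_16_1_8.Tab.C.NB43.c_pm_133 noCut_B noExt_B F trivial trivial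

theorem NB43_pm_202 {κ x : ℝ} (hκ : κ * h0 = ken x) (hx : ((67108864 : ℕ) : ℝ) / S ≤ x) (hx' : x ≤ (((67108864 : ℕ) : ℝ) + (67108864 : ℕ)) / S) :
    TriB PP.cur (nearL (h0 * 0) 3 κ (h0 * x) (tbl tKN x) (tbl tL x)) 2 0 2 4 3 1 (-1) :=
  (sideN hx hx').nearB (Or.inl rfl) (Or.inr rfl) fun y y' F =>
    nearB_cert (s1 := true) (s2 := false) rfl hκ covN42 covN32 hx hx'
        Pool.Agent.Strip051.G.I1_16_1_8.Tab.C.NB43.c_pm_202 noCut_B noExt_B F trivial trivial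

theorem NB43_pm_203 {κ x : ℝ} (hκ : κ * h0 = ken x) (hx : ((67108864 : ℕ) : ℝ) / S ≤ x) (hx' : x ≤ (((67108864 : ℕ) : ℝ) + (67108864 : ℕ)) / S) :
    TriB PP.cur (nearL (h0 * 0) 3 κ (h0 * x) (tbl tKN x) (tbl tL x)) 2 0 3 4 3 1 (-1) :=
  (sideN hx hx').nearB (Or.inl rfl) (Or.inr rfl) fun y y' F =>
    nearB_cert (s1 := true) (s2 := false) rfl hκ covN42 covN33 hx hx'
        Pool.Agent.Strip051.G.I1_16_1_8.Tab.C.NB43.c_pm_203 noCut_B noExt_B F trivial trivial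

theorem NB43_pm_213 {κ x : ℝ} (hκ : κ * h0 = ken x) (hx : ((67108864 : ℕ) : ℝ) / S ≤ x) (hx' : x ≤ (((67108864 : ℕ) : ℝ) + (67108864 : ℕ)) / S) :
    TriB PP.cur (nearL (h0 * 0) 3 κ (h0 * x) (tbl tKN x) (tbl tL x)) 2 1 3 4 3 1 (-1) :=
  (sideN hx hx').nearB (Or.inl rfl) (Or.inr rfl) fun y y' F =>
    nearB_cert (s1 := true) (s2 := false) rfl hκ covN42 covN33 hx hx'
        Pool.Agent.Strip051.G.I1_16_1_8.Tab.C.NB43.c_pm_213 noCut_B noExt_B F trivial trivial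

theorem NB43_pm_303 {κ x : ℝ} (hκ : κ * h0 = ken x) (hx : ((67108864 : ℕ) : ℝ) / S ≤ x) (hx' : x ≤ (((67108864 : ℕ) : ℝ) + (67108864 : ℕ)) / S) :
    TriB PP.cur (nearL (h0 * 0) 3 κ (h0 * x) (tbl tKN x) (tbl tL x)) 3 0 3 4 3 1 (-1) :=
  (sideN hx hx').nearB (Or.inl rfl) (Or.inr rfl) fun y y' F =>
    nearB_cert (s1 := true) (s2 := false) rfl hκ covN43 covN33 hx hx'
        Pool.Agent.Strip051.G.I1_16_1_8.Tab.C.NB43.c_pm_303 noCut_B noExt_B F trivial trivial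

theorem NB43_pm_313 {κ x : ℝ} (hκ : κ * h0 = ken x) (hx : ((67108864 : ℕ) : ℝ) / S ≤ x) (hx' : x ≤ (((67108864 : ℕ) : ℝ) + (67108864 : ℕ)) / S) :
    TriB PP.cur (nearL (h0 * 0) 3 κ (h0 * x) (tbl tKN x) (tbl tL x)) 3 1 3 4 3 1 (-1) :=
  (sideN hx hx').nearB (Or.inl rfl) (Or.inr rfl) fun y y' F =>
    nearB_cert (s1 := true) (s2 := false) rfl hκ covN43 covN33 hx hx'
        Pool.Agent.Strip051.G.I1_16_1_8.Tab.C.NB43.c_pm_313 noCut_B noExt_B F trivial trivial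

theorem NB43_mm_001 {κ x : ℝ} (hκ : κ * h0 = ken x) (hx : ((67108864 : ℕ) : ℝ) / S ≤ x) (hx' : x ≤ (((67108864 : ℕ) : ℝ) + (67108864 : ℕ)) / S) :
    TriB PP.cur (nearL (h0 * 0) 3 κ (h0 * x) (tbl tKN x) (tbl tL x)) 0 0 1 4 3 (-1) (-1) :=
  (sideN hx hx').nearB (Or.inr rfl) (Or.inr rfl) fun y y' F =>
    nearB_cert (s1 := false) (s2 := false) rfl hκ covN40 covN31 hx hx'
        Pool.Agent.Strip051.G.I1_16_1_8.Tab.C.NB43.c_mm_001 noCut_B noExt_B F trivial trivial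

theorem NB43_mm_011 {κ x : ℝ} (hκ : κ * h0 = ken x) (hx : ((67108864 : ℕ) : ℝ) / S ≤ x) (hx' : x ≤ (((67108864 : ℕ) : ℝ) + (67108864 : ℕ)) / S) :
    TriB PP.cur (nearL (h0 * 0) 3 κ (h0 * x) (tbl tKN x) (tbl tL x)) 0 1 1 4 3 (-1) (-1) :=
  (sideN hx hx').nearB (Or.inr rfl) (Or.inr rfl) fun y y' F =>
    nearB_cert (s1 := false) (s2 := false) rfl hκ covN40 covN31 hx hx'
        Pool.Agent.Strip051.G.I1_16_1_8.Tab.C.NB43.c_mm_011 noCut_B noExt_B F trivial trivial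

theorem NB43_mm_012 {κ x : ℝ} (hκ : κ * h0 = ken x) (hx : ((67108864 : ℕ) : ℝ) / S ≤ x) (hx' : x ≤ (((67108864 : ℕ) : ℝ) + (67108864 : ℕ)) / S) :
    TriB PP.cur (nearL (h0 * 0) 3 κ (h0 * x) (tbl tKN x) (tbl tL x)) 0 1 2 4 3 (-1) (-1) :=
  (sideN hx hx').nearB (Or.inr rfl) (Or.inr rfl) fun y y' F =>
    nearB_cert (s1 := false) (s2 := false) rfl hκ covN40 covN32 hx hx'
        Pool.Agent.Strip051.G.I1_16_1_8.Tab.C.NB43.c_mm_012 noCut_B noExt_B F trivial trivial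

theorem NB43_mm_022 {κ x : ℝ} (hκ : κ * h0 = ken x) (hx : ((67108864 : ℕ) : ℝ) / S ≤ x) (hx' : x ≤ (((67108864 : ℕ) : ℝ) + (67108864 : ℕ)) / S) :
    TriB PP.cur (nearL (h0 * 0) 3 κ (h0 * x) (tbl tKN x) (tbl tL x)) 0 2 2 4 3 (-1) (-1) :=
  (sideN hx hx').nearB (Or.inr rfl) (Or.inr rfl) fun y y' F =>
    nearB_cert (s1 := false) (s2 := false) rfl hκ covN40 covN32 hx hx'
        Pool.Agent.Strip051.G.I1_16_1_8.Tab.C.NB43.c_mm_022 noCut_B noExt_B F trivial trivial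

theorem NB43_mm_023 {κ x : ℝ} (hκ : κ * h0 = ken x) (hx : ((67108864 : ℕ) : ℝ) / S ≤ x) (hx' : x ≤ (((67108864 : ℕ) : ℝ) + (67108864 : ℕ)) / S) :
    TriB PP.cur (nearL (h0 * 0) 3 κ (h0 * x) (tbl tKN x) (tbl tL x)) 0 2 3 4 3 (-1) (-1) :=
  (sideN hx hx').nearB (Or.inr rfl) (Or.inr rfl) fun y y' F =>
    nearB_cert (s1 := false) (s2 := false) rfl hκ covN40 covN33 hx hx'
        Pool.Agent.Strip051.G.I1_16_1_8.Tab.C.NB43.c_mm_023 noCut_B noExt_B F trivial trivial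

theorem NB43_mm_033 {κ x : ℝ} (hκ : κ * h0 = ken x) (hx : ((67108864 : ℕ) : ℝ) / S ≤ x) (hx' : x ≤ (((67108864 : ℕ) : ℝ) + (67108864 : ℕ)) / S) :
    TriB PP.cur (nearL (h0 * 0) 3 κ (h0 * x) (tbl tKN x) (tbl tL x)) 0 3 3 4 3 (-1) (-1) :=
  (sideN hx hx').nearB (Or.inr rfl) (Or.inr rfl) fun y y' F =>
    nearB_cert (s1 := false) (s2 := false) rfl hκ covN40 covN33 hx hx'
        Pool.Agent.Strip051.G.I1_16_1_8.Tab.C.NB43.c_mm_033 noCut_B noExt_B F trivial trivial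

theorem NB43_mm_101 {κ x : ℝ} (hκ : κ * h0 = ken x) (hx : ((67108864 : ℕ) : ℝ) / S ≤ x) (hx' : x ≤ (((67108864 : ℕ) : ℝ) + (67108864 : ℕ)) / S) :
    TriB PP.cur (nearL (h0 * 0) 3 κ (h0 * x) (tbl tKN x) (tbl tL x)) 1 0 1 4 3 (-1) (-1) :=
  (sideN hx hx').nearB (Or.inr rfl) (Or.inr rfl) fun y y' F =>
    nearB_cert (s1 := false) (s2 := false) rfl hκ covN41 covN31 hx hx'
        Pool.Agent.Strip051.G.I1_16_1_8.Tab.C.NB43.c_mm_101 noCut_B noExt_B F trivial trivial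

theorem NB43_mm_102 {κ x : ℝ} (hκ : κ * h0 = ken x) (hx : ((67108864 : ℕ) : ℝ) / S ≤ x) (hx' : x ≤ (((67108864 : ℕ) : ℝ) + (67108864 : ℕ)) / S) :
    TriB PP.cur (nearL (h0 * 0) 3 κ (h0 * x) (tbl tKN x) (tbl tL x)) 1 0 2 4 3 (-1) (-1) :=
  (sideN hx hx').nearB (Or.inr rfl) (Or.inr rfl) fun y y' F =>
    nearB_cert (s1 := false) (s2 := false) rfl hκ covN41 covN32 hx hx'
        Pool.Agent.Strip051.G.I1_16_1_8.Tab.C.NB43.c_mm_102 noCut_B noExt_B F trivial trivial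

theorem NB43_mm_112 {κ x : ℝ} (hκ : κ * h0 = ken x) (hx : ((67108864 : ℕ) : ℝ) / S ≤ x) (hx' : x ≤ (((67108864 : ℕ) : ℝ) + (67108864 : ℕ)) / S) :
    TriB PP.cur (nearL (h0 * 0) 3 κ (h0 * x) (tbl tKN x) (tbl tL x)) 1 1 2 4 3 (-1) (-1) :=
  (sideN hx hx').nearB (Or.inr rfl) (Or.inr rfl) fun y y' F =>
    nearB_cert (s1 := false) (s2 := false) rfl hκ covN41 covN32 hx hx'
        Pool.Agent.Strip051.G.I1_16_1_8.Tab.C.NB43.c_mm_112 noCut_B noExt_B F trivial trivial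

theorem NB43_mm_113 {κ x : ℝ} (hκ : κ * h0 = ken x) (hx : ((67108864 : ℕ) : ℝ) / S ≤ x) (hx' : x ≤ (((67108864 : ℕ) : ℝ) + (67108864 : ℕ)) / S) :
    TriB PP.cur (nearL (h0 * 0) 3 κ (h0 * x) (tbl tKN x) (tbl tL x)) 1 1 3 4 3 (-1) (-1) :=
  (sideN hx hx').nearB (Or.inr rfl) (Or.inr rfl) fun y y' F =>
    nearB_cert (s1 := false) (s2 := false) rfl hκ covN41 covN33 hx hx'
        Pool.Agent.Strip051.G.I1_16_1_8.Tab.C.NB43.c_mm_113 noCut_B noExt_B F trivial trivial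

theorem NB43_mm_123 {κ x : ℝ} (hκ : κ * h0 = ken x) (hx : ((67108864 : ℕ) : ℝ) / S ≤ x) (hx' : x ≤ (((67108864 : ℕ) : ℝ) + (67108864 : ℕ)) / S) :
    TriB PP.cur (nearL (h0 * 0) 3 κ (h0 * x) (tbl tKN x) (tbl tL x)) 1 2 3 4 3 (-1) (-1) :=
  (sideN hx hx').nearB (Or.inr rfl) (Or.inr rfl) fun y y' F =>
    nearB_cert (s1 := false) (s2 := false) rfl hκ covN41 covN33 hx hx'
        Pool.Agent.Strip051.G.I1_16_1_8.Tab.C.NB43.c_mm_123 noCut_B noExt_B F trivial trivial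

theorem NB43_mm_133 {κ x : ℝ} (hκ : κ * h0 = ken x) (hx : ((67108864 : ℕ) : ℝ) / S ≤ x) (hx' : x ≤ (((67108864 : ℕ) : ℝ) + (67108864 : ℕ)) / S) :
    TriB PP.cur (nearL (h0 * 0) 3 κ (h0 * x) (tbl tKN x) (tbl tL x)) 1 3 3 4 3 (-1) (-1) :=
  (sideN hx hx').nearB (Or.inr rfl) (Or.inr rfl) fun y y' F =>
    nearB_cert (s1 := false) (s2 := false) rfl hκ covN41 covN33 hx hx'
        Pool.Agent.Strip051.G.I1_16_1_8.Tab.C.NB43.c_mm_133 noCut_B noExt_B F trivial trivial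

theorem NB43_mm_202 {κ x : ℝ} (hκ : κ * h0 = ken x) (hx : ((67108864 : ℕ) : ℝ) / S ≤ x) (hx' : x ≤ (((67108864 : ℕ) : ℝ) + (67108864 : ℕ)) / S) :
    TriB PP.cur (nearL (h0 * 0) 3 κ (h0 * x) (tbl tKN x) (tbl tL x)) 2 0 2 4 3 (-1) (-1) :=
  (sideN hx hx').nearB (Or.inr rfl) (Or.inr rfl) fun y y' F =>
    nearB_cert (s1 := false) (s2 := false) rfl hκ covN42 covN32 hx hx'
        Pool.Agent.Strip051.G.I1_16_1_8.Tab.C.NB43.c_mm_202 noCut_B noExt_B F trivial trivial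

theorem NB43_mm_203 {κ x : ℝ} (hκ : κ * h0 = ken x) (hx : ((67108864 : ℕ) : ℝ) / S ≤ x) (hx' : x ≤ (((67108864 : ℕ) : ℝ) + (67108864 : ℕ)) / S) :
    TriB PP.cur (nearL (h0 * 0) 3 κ (h0 * x) (tbl tKN x) (tbl tL x)) 2 0 3 4 3 (-1) (-1) :=
  (sideN hx hx').nearB (Or.inr rfl) (Or.inr rfl) fun y y' F =>
    nearB_cert (s1 := false) (s2 := false) rfl hκ covN42 covN33 hx hx'
        Pool.Agent.Strip051.G.I1_16_1_8.Tab.C.NB43.c_mm_203 noCut_B noExt_B F trivial trivial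

theorem NB43_mm_213 {κ x : ℝ} (hκ : κ * h0 = ken x) (hx : ((67108864 : ℕ) : ℝ) / S ≤ x) (hx' : x ≤ (((67108864 : ℕ) : ℝ) + (67108864 : ℕ)) / S) :
    TriB PP.cur (nearL (h0 * 0) 3 κ (h0 * x) (tbl tKN x) (tbl tL x)) 2 1 3 4 3 (-1) (-1) :=
  (sideN hx hx').nearB (Or.inr rfl) (Or.inr rfl) fun y y' F =>
    nearB_cert (s1 := false) (s2 := false) rfl hκ covN42 covN33 hx hx'
        Pool.Agent.Strip051.G.I1_16_1_8.Tab.C.NB43.c_mm_213 noCut_B noExt_B F trivial trivial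

theorem NB43_mm_303 {κ x : ℝ} (hκ : κ * h0 = ken x) (hx : ((67108864 : ℕ) : ℝ) / S ≤ x) (hx' : x ≤ (((67108864 : ℕ) : ℝ) + (67108864 : ℕ)) / S) :
    TriB PP.cur (nearL (h0 * 0) 3 κ (h0 * x) (tbl tKN x) (tbl tL x)) 3 0 3 4 3 (-1) (-1) :=
  (sideN hx hx').nearB (Or.inr rfl) (Or.inr rfl) fun y y' F =>
    nearB_cert (s1 := false) (s2 := false) rfl hκ covN43 covN33 hx hx'
        Pool.Agent.Strip051.G.I1_16_1_8.Tab.C.NB43.c_mm_303 noCut_B noExt_B F trivial trivial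

theorem NB43_mm_313 {κ x : ℝ} (hκ : κ * h0 = ken x) (hx : ((67108864 : ℕ) : ℝ) / S ≤ x) (hx' : x ≤ (((67108864 : ℕ) : ℝ) + (67108864 : ℕ)) / S) :
    TriB PP.cur (nearL (h0 * 0) 3 κ (h0 * x) (tbl tKN x) (tbl tL x)) 3 1 3 4 3 (-1) (-1) :=
  (sideN hx hx').nearB (Or.inr rfl) (Or.inr rfl) fun y y' F =>
    nearB_cert (s1 := false) (s2 := false) rfl hκ covN43 covN33 hx hx'
        Pool.Agent.Strip051.G.I1_16_1_8.Tab.C.NB43.c_mm_313 noCut_B noExt_B F trivial trivial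

theorem NB43 {κ x : ℝ} (hκ : κ * h0 = ken x) (hx : ((67108864 : ℕ) : ℝ) / S ≤ x) (hx' : x ≤ (((67108864 : ℕ) : ℝ) + (67108864 : ℕ)) / S) : AllTB PP.cur (nearL (h0 * 0) 3 κ (h0 * x) (tbl tKN x) (tbl tL x)) 4 3 where
  pp := all17 (Q := fun a b c => TriB PP.cur (nearL (h0 * 0) 3 κ (h0 * x) (tbl tKN x) (tbl tL x)) a b c 4 3 1 1)
    (NB43_pp_001 hκ hx hx') (NB43_pp_011 hκ hx hx') (NB43_pp_012 hκ hx hx') (NB43_pp_022 hκ hx hx') (NB43_pp_023 hκ hx hx') (NB43_pp_033 hκ hx hx') (NB43_pp_101 hκ hx hx') (NB43_pp_102 hκ hx hx') (NB43_pp_112 hκ hx hx') (NB43_pp_113 hκ hx hx') (NB43_pp_123 hκ hx hx') (NB43_pp_133 hκ hx hx') (NB43_pp_202 hκ hx hx') (NB43_pp_203 hκ hx hx') (NB43_pp_213 hκ hx hx') (NB43_pp_303 hκ hx hx') (NB43_pp_313 hκ hx hx')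
  pm := all17 (Q := fun a b c => TriB PP.cur (nearL (h0 * 0) 3 κ (h0 * x) (tbl tKN x) (tbl tL x)) a b c 4 3 1 (-1))
    (NB43_pm_001 hκ hx hx') (NB43_pm_011 hκ hx hx') (NB43_pm_012 hκ hx hx') (NB43_pm_022 hκ hx hx') (NB43_pm_023 hκ hx hx') (NB43_pm_033 hκ hx hx') (NB43_pm_101 hκ hx hx') (NB43_pm_102 hκ hx hx') (NB43_pm_112 hκ hx hx') (NB43_pm_113 hκ hx hx') (NB43_pm_123 hκ hx hx') (NB43_pm_133 hκ hx hx') (NB43_pm_202 hκ hx hx') (NB43_pm_203 hκ hx hx') (NB43_pm_213 hκ hx hx') (NB43_pm_303 hκ hx hx') (NB43_pm_313 hκ hx hx')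
  mm := all17 (Q := fun a b c => TriB PP.cur (nearL (h0 * 0) 3 κ (h0 * x) (tbl tKN x) (tbl tL x)) a b c 4 3 (-1) (-1))
    (NB43_mm_001 hκ hx hx') (NB43_mm_011 hκ hx hx') (NB43_mm_012 hκ hx hx') (NB43_mm_022 hκ hx hx') (NB43_mm_023 hκ hx hx') (NB43_mm_033 hκ hx hx') (NB43_mm_101 hκ hx hx') (NB43_mm_102 hκ hx hx') (NB43_mm_112 hκ hx hx') (NB43_mm_113 hκ hx hx') (NB43_mm_123 hκ hx hx') (NB43_mm_133 hκ hx hx') (NB43_mm_202 hκ hx hx') (NB43_mm_203 hκ hx hx') (NB43_mm_213 hκ hx hx') (NB43_mm_303 hκ hx hx') (NB43_mm_313 hκ hx hx')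

end Pool.Agent.Strip051.G.I1_16_1_8.Tab
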