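import Pool.Agent.Strip051.G.I1_16_1_8.Tab
import Pool.Agent.Strip051.PB.RowK

/-! # Certificates N9 (generated) -/

set_option linter.all false
set_option maxRecDepth 100000

namespace Pool.Agent.Strip051.G.I1_16_1_8.Tab.C.NB44

open Pool.Agent.Strip051.PB Pool.Agent.Strip051.PB.T
open Pool.Agent.Strip051.G.I1_16_1_8.Tab

noncomputable def f_pp_203 : ℕ → ℕ → ℕ → ℕ → Bool := onCell 0 536870912 0 1230186008 67108864 67108864
    (rowNK 3 2 false true true .up 2 0 3 (qsf 1073741824 536870912 0 1230186008 0) ndN4q2 ndN4q3 pcN0 Cut.none Ext.none)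

def k0_pp_203 : ∃ t, chk3 f_pp_203 t 1 1 1 = true :=
  ⟨(b (a (l 2) (a (l 2) (a (l 312091933031) (l 282564089847)))) (l 3)), by decide +kernel⟩

theorem c_pp_203 : CertN 1073741824 536870912 0 1230186008 67108864 67108864 3 false true true .up 2 0 3
    ndN4q2 ndN4q3 pcN0 Cut.none Ext.none :=
  certNK2 (fam := false) (s1 := true) (s2 := true) (a := 2) (b := 0) (c := 3) (cn := .up) (n1 := ndN4q2) (n2 := ndN4q3) (pc := pcN0) (cut := Cut.none) (xt := Ext.none) (P1 := 1073741824) (W1 := 536870912) (P2 := 0) (W2 := 1230186008) (P3 := 67108864) (W3 := 67108864) (N0 := 3)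
    rfl rfl rfl (fun _ => rfl) k0_pp_203

noncomputable def f_pp_213 : ℕ → ℕ → ℕ → ℕ → Bool := onCell 536870912 536870912 0 1230186008 67108864 67108864
    (rowNK 3 2 false true true .pnn 2 1 3 (qsf 1073741824 536870912 0 1230186008 1) ndN4q2 ndN4q3 pcN1 Cut.none Ext.none)

def k0_pp_213 : ∃ t, chk3 f_pp_213 t 1 1 1 = true :=
  ⟨(b (a (a (b (l 18372264) (l 282564828855)) (b (l 18346360) (l 18401168))) (a (b (a (l 18183712) (l 17905560)) (b (l 18277544) (l 18356408))) (a (b (l 17410800) (l 18109448)) (a (b (l 17209096) (l 17946384)) (l 1693863089111))))) (a (b (a (l 3) (b (l 18364520) (l 3))) (l 3)) (b (a (l 182708230599) (l 548183074711)) (l 1)))), by decide +kernel⟩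

theorem c_pp_213 : CertN 1073741824 536870912 0 1230186008 67108864 67108864 3 false true true .pnn 2 1 3
    ndN4q2 ndN4q3 pcN1 Cut.none Ext.none :=
  certNK2 (fam := false) (s1 := true) (s2 := true) (a := 2) (b := 1) (c := 3) (cn := .pnn) (n1 := ndN4q2) (n2 := ndN4q3) (pc := pcN1) (cut := Cut.none) (xt := Ext.none) (P1 := 1073741824) (W1 := 536870912) (P2 := 0) (W2 := 1230186008) (P3 := 67108864) (W3 := 67108864) (N0 := 3)
    rfl rfl rfl (fun _ => rfl) k0_pp_213

noncomputable def f_pp_303 : ℕ → ℕ → ℕ → ℕ → Bool := onCell 0 1230186008 0 1230186008 67108864 67108864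
    (rowNK 3 0 false true true .npn 3 0 3 (qsf 0 1230186008 0 1230186008 0) ndN4q3 ndN4q3 pcN0 Cut.none Ext.none)

def k0_pp_303 : ∃ t, chk3 f_pp_303 t 1 1 1 = true :=
  ⟨(a (b (l 3) (a (l 1) (l 3))) (a (l 3) (b (b (a (l 311017907511) (l 17728352)) (l 3)) (l 3)))), by decide +kernel⟩

theorem c_pp_303 : CertN 0 1230186008 0 1230186008 67108864 67108864 3 false true true .npn 3 0 3
    ndN4q3 ndN4q3 pcN0 Cut.none Ext.none :=
  certNK0 (fam := false) (s1 := true) (s2 := true) (a := 3) (b := 0) (c := 3) (cn := .npn) (n1 := ndN4q3) (n2 := ndN4q3) (pc := pcN0) (cut := Cut.none) (xt := Ext.none) (P1 := 0) (W1 := 1230186008) (P2 := 0) (W2 := 1230186008) (P3 := 67108864) (W3 := 67108864) (N0 := 3)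
    rfl rfl rfl k0_pp_303

noncomputable def f_pp_313 : ℕ → ℕ → ℕ → ℕ → Bool := onCell 0 1230186008 0 1230186008 67108864 67108864
    (rowNK 3 0 false true true .dn 3 1 3 (qsf 0 1230186008 0 1230186008 1) ndN4q3 ndN4q3 pcN1 Cut.none Ext.none)

def k0_pp_313 : ∃ t, chk3 f_pp_313 t 1 1 1 = true :=
  ⟨(a (l 1) (b (a (l 1) (a (l 1) (b (l 4590282611511) (l 1)))) (l 1))), by decide +kernel⟩

theorem c_pp_313 : CertN 0 1230186008 0 1230186008 67108864 67108864 3 false true true .dn 3 1 3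
    ndN4q3 ndN4q3 pcN1 Cut.none Ext.none :=
  certNK0 (fam := false) (s1 := true) (s2 := true) (a := 3) (b := 1) (c := 3) (cn := .dn) (n1 := ndN4q3) (n2 := ndN4q3) (pc := pcN1) (cut := Cut.none) (xt := Ext.none) (P1 := 0) (W1 := 1230186008) (P2 := 0) (W2 := 1230186008) (P3 := 67108864) (W3 := 67108864) (N0 := 3)
    rfl rfl rfl k0_pp_313

noncomputable def f_pm_001 : ℕ → ℕ → ℕ → ℕ → Bool := onCell 0 536870912 536870912 536870912 67108864 67108864
    (rowNK 3 0 false true false .up 0 0 1 (qsf 0 536870912 536870912 536870912 0) ndN4q0 ndN4q1 pcN0 Cut.none Ext.none)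

def k0_pm_001 : ∃ t, chk3 f_pm_001 t 1 1 1 = true :=
  ⟨(l 4), by decide +kernel⟩

theorem c_pm_001 : CertN 0 536870912 536870912 536870912 67108864 67108864 3 false true false .up 0 0 1
    ndN4q0 ndN4q1 pcN0 Cut.none Ext.none :=
  certNK0 (fam := false) (s1 := true) (s2 := false) (a := 0) (b := 0) (c := 1) (cn := .up) (n1 := ndN4q0) (n2 := ndN4q1) (pc := pcN0) (cut := Cut.none) (xt := Ext.none) (P1 := 0) (W1 := 536870912) (P2 := 536870912) (W2 := 536870912) (P3 := 67108864) (W3 := 67108864) (N0 := 3)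
    rfl rfl rfl k0_pm_001

noncomputable def f_pm_011 : ℕ → ℕ → ℕ → ℕ → Bool := onCell 0 536870912 536870912 536870912 67108864 67108864
    (rowNK 3 0 false true false .pnn 0 1 1 (qsf 0 536870912 536870912 536870912 1) ndN4q0 ndN4q1 pcN1 Cut.none Ext.none)

def k0_pm_011 : ∃ t, chk3 f_pm_011 t 1 1 1 = true :=
  ⟨(l 4), by decide +kernel⟩

theorem c_pm_011 : CertN 0 536870912 536870912 536870912 67108864 67108864 3 false true false .pnn 0 1 1
    ndN4q0 ndN4q1 pcN1 Cut.none Ext.none :=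
  certNK0 (fam := false) (s1 := true) (s2 := false) (a := 0) (b := 1) (c := 1) (cn := .pnn) (n1 := ndN4q0) (n2 := ndN4q1) (pc := pcN1) (cut := Cut.none) (xt := Ext.none) (P1 := 0) (W1 := 536870912) (P2 := 536870912) (W2 := 536870912) (P3 := 67108864) (W3 := 67108864) (N0 := 3)
    rfl rfl rfl k0_pm_011

noncomputable def f_pm_012 : ℕ → ℕ → ℕ → ℕ → Bool := onCell 0 536870912 1073741824 536870912 67108864 67108864
    (rowNK 3 0 false true false .pnp 0 1 2 (qsf 0 536870912 1073741824 536870912 1) ndN4q0 ndN4q2 pcN1 Cut.none Ext.none)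

def k0_pm_012 : ∃ t, chk3 f_pm_012 t 1 1 1 = true :=
  ⟨(l 4), by decide +kernel⟩

theorem c_pm_012 : CertN 0 536870912 1073741824 536870912 67108864 67108864 3 false true false .pnp 0 1 2
    ndN4q0 ndN4q2 pcN1 Cut.none Ext.none :=
  certNK0 (fam := false) (s1 := true) (s2 := false) (a := 0) (b := 1) (c := 2) (cn := .pnp) (n1 := ndN4q0) (n2 := ndN4q2) (pc := pcN1) (cut := Cut.none) (xt := Ext.none) (P1 := 0) (W1 := 536870912) (P2 := 1073741824) (W2 := 536870912) (P3 := 67108864) (W3 := 67108864) (N0 := 3)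
    rfl rfl rfl k0_pm_012

noncomputable def f_pm_022 : ℕ → ℕ → ℕ → ℕ → Bool := onCell 0 536870912 1073741824 536870912 67108864 67108864
    (rowNK 3 0 false true false .pp 0 2 2 (qsf 0 536870912 1073741824 536870912 2) ndN4q0 ndN4q2 pcN2 Cut.none Ext.none)

def k0_pm_022 : ∃ t, chk3 f_pm_022 t 1 1 1 = true :=
  ⟨(l 4), by decide +kernel⟩

theorem c_pm_022 : CertN 0 536870912 1073741824 536870912 67108864 67108864 3 false true false .pp 0 2 2
    ndN4q0 ndN4q2 pcN2 Cut.none Ext.none :=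
  certNK0 (fam := false) (s1 := true) (s2 := false) (a := 0) (b := 2) (c := 2) (cn := .pp) (n1 := ndN4q0) (n2 := ndN4q2) (pc := pcN2) (cut := Cut.none) (xt := Ext.none) (P1 := 0) (W1 := 536870912) (P2 := 1073741824) (W2 := 536870912) (P3 := 67108864) (W3 := 67108864) (N0 := 3)
    rfl rfl rfl k0_pm_022

noncomputable def f_pm_023 : ℕ → ℕ → ℕ → ℕ → Bool := onCell 0 536870912 0 1230186008 67108864 67108864
    (rowNK 3 0 false true false .up 0 2 3 (qsf 0 536870912 0 1230186008 2) ndN4q0 ndN4q3 pcN2 Cut.none Ext.none)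

def k0_pm_023 : ∃ t, chk3 f_pm_023 t 1 1 1 = true :=
  ⟨(l 4), by decide +kernel⟩

theorem c_pm_023 : CertN 0 536870912 0 1230186008 67108864 67108864 3 false true false .up 0 2 3
    ndN4q0 ndN4q3 pcN2 Cut.none Ext.none :=
  certNK0 (fam := false) (s1 := true) (s2 := false) (a := 0) (b := 2) (c := 3) (cn := .up) (n1 := ndN4q0) (n2 := ndN4q3) (pc := pcN2) (cut := Cut.none) (xt := Ext.none) (P1 := 0) (W1 := 536870912) (P2 := 0) (W2 := 1230186008) (P3 := 67108864) (W3 := 67108864) (N0 := 3)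
    rfl rfl rfl k0_pm_023

noncomputable def f_pm_033 : ℕ → ℕ → ℕ → ℕ → Bool := onCell 0 536870912 0 1230186008 67108864 67108864
    (rowNK 3 0 false true false .pnn 0 3 3 (qsf 0 536870912 0 1230186008 3) ndN4q0 ndN4q3 pcN3 Cut.none Ext.none)

def k0_pm_033 : ∃ t, chk3 f_pm_033 t 1 1 1 = true :=
  ⟨(l 4), by decide +kernel⟩

theorem c_pm_033 : CertN 0 536870912 0 1230186008 67108864 67108864 3 false true false .pnn 0 3 3
    ndN4q0 ndN4q3 pcN3 Cut.none Ext.none :=
  certNK0 (fam := false) (s1 := true) (s2 := false) (a := 0) (b := 3) (c := 3) (cn := .pnn) (n1 := ndN4q0) (n2 := ndN4q3) (pc := pcN3) (cut := Cut.none) (xt := Ext.none) (P1 := 0) (W1 := 536870912) (P2 := 0) (W2 := 1230186008) (P3 := 67108864) (W3 := 67108864) (N0 := 3)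
    rfl rfl rfl k0_pm_033

noncomputable def f_pm_101 : ℕ → ℕ → ℕ → ℕ → Bool := onCell 536870912 536870912 536870912 536870912 67108864 67108864
    (rowNK 3 0 false true false .npn 1 0 1 (qsf 536870912 536870912 536870912 536870912 0) ndN4q1 ndN4q1 pcN0 Cut.none Ext.none)

def k0_pm_101 : ∃ t, chk3 f_pm_101 t 1 1 1 = true :=
  ⟨(l 4), by decide +kernel⟩

theorem c_pm_101 : CertN 536870912 536870912 536870912 536870912 67108864 67108864 3 false true false .npn 1 0 1
    ndN4q1 ndN4q1 pcN0 Cut.none Ext.none :=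
  certNK0 (fam := false) (s1 := true) (s2 := false) (a := 1) (b := 0) (c := 1) (cn := .npn) (n1 := ndN4q1) (n2 := ndN4q1) (pc := pcN0) (cut := Cut.none) (xt := Ext.none) (P1 := 536870912) (W1 := 536870912) (P2 := 536870912) (W2 := 536870912) (P3 := 67108864) (W3 := 67108864) (N0 := 3)
    rfl rfl rfl k0_pm_101

noncomputable def f_pm_102 : ℕ → ℕ → ℕ → ℕ → Bool := onCell 536870912 536870912 1073741824 536870912 67108864 67108864
    (rowNK 3 0 false true false .npp 1 0 2 (qsf 536870912 536870912 1073741824 536870912 0) ndN4q1 ndN4q2 pcN0 Cut.none Ext.none)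

def k0_pm_102 : ∃ t, chk3 f_pm_102 t 1 1 1 = true :=
  ⟨(l 4), by decide +kernel⟩

theorem c_pm_102 : CertN 536870912 536870912 1073741824 536870912 67108864 67108864 3 false true false .npp 1 0 2
    ndN4q1 ndN4q2 pcN0 Cut.none Ext.none :=
  certNK0 (fam := false) (s1 := true) (s2 := false) (a := 1) (b := 0) (c := 2) (cn := .npp) (n1 := ndN4q1) (n2 := ndN4q2) (pc := pcN0) (cut := Cut.none) (xt := Ext.none) (P1 := 536870912) (W1 := 536870912) (P2 := 1073741824) (W2 := 536870912) (P3 := 67108864) (W3 := 67108864) (N0 := 3)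
    rfl rfl rfl k0_pm_102

noncomputable def f_pm_112 : ℕ → ℕ → ℕ → ℕ → Bool := onCell 536870912 536870912 1073741824 536870912 67108864 67108864
    (rowNK 3 0 false true false .dn 1 1 2 (qsf 536870912 536870912 1073741824 536870912 1) ndN4q1 ndN4q2 pcN1 Cut.none Ext.none)

def k0_pm_112 : ∃ t, chk3 f_pm_112 t 1 1 1 = true :=
  ⟨(l 4), by decide +kernel⟩

theorem c_pm_112 : CertN 536870912 536870912 1073741824 536870912 67108864 67108864 3 false true false .dn 1 1 2
    ndN4q1 ndN4q2 pcN1 Cut.none Ext.none :=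
  certNK0 (fam := false) (s1 := true) (s2 := false) (a := 1) (b := 1) (c := 2) (cn := .dn) (n1 := ndN4q1) (n2 := ndN4q2) (pc := pcN1) (cut := Cut.none) (xt := Ext.none) (P1 := 536870912) (W1 := 536870912) (P2 := 1073741824) (W2 := 536870912) (P3 := 67108864) (W3 := 67108864) (N0 := 3)
    rfl rfl rfl k0_pm_112

noncomputable def f_pm_113 : ℕ → ℕ → ℕ → ℕ → Bool := onCell 536870912 536870912 0 1230186008 67108864 67108864
    (rowNK 3 0 false true false .nn 1 1 3 (qsf 536870912 536870912 0 1230186008 1) ndN4q1 ndN4q3 pcN1 Cut.none Ext.none)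

def k0_pm_113 : ∃ t, chk3 f_pm_113 t 1 1 1 = true :=
  ⟨(b (b (a (l 2) (a (l 2) (l 16860920))) (l 4)) (l 4)), by decide +kernel⟩

theorem c_pm_113 : CertN 536870912 536870912 0 1230186008 67108864 67108864 3 false true false .nn 1 1 3
    ndN4q1 ndN4q3 pcN1 Cut.none Ext.none :=
  certNK0 (fam := false) (s1 := true) (s2 := false) (a := 1) (b := 1) (c := 3) (cn := .nn) (n1 := ndN4q1) (n2 := ndN4q3) (pc := pcN1) (cut := Cut.none) (xt := Ext.none) (P1 := 536870912) (W1 := 536870912) (P2 := 0) (W2 := 1230186008) (P3 := 67108864) (W3 := 67108864) (N0 := 3)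
    rfl rfl rfl k0_pm_113

noncomputable def f_pm_123 : ℕ → ℕ → ℕ → ℕ → Bool := onCell 536870912 536870912 0 1230186008 67108864 67108864
    (rowNK 3 0 false true false .npn 1 2 3 (qsf 536870912 536870912 0 1230186008 2) ndN4q1 ndN4q3 pcN2 Cut.none Ext.none)

def k0_pm_123 : ∃ t, chk3 f_pm_123 t 1 1 1 = true :=
  ⟨(b (a (l 4) (b (l 17523704) (l 4))) (l 4)), by decide +kernel⟩

theorem c_pm_123 : CertN 536870912 536870912 0 1230186008 67108864 67108864 3 false true false .npn 1 2 3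
    ndN4q1 ndN4q3 pcN2 Cut.none Ext.none :=
  certNK0 (fam := false) (s1 := true) (s2 := false) (a := 1) (b := 2) (c := 3) (cn := .npn) (n1 := ndN4q1) (n2 := ndN4q3) (pc := pcN2) (cut := Cut.none) (xt := Ext.none) (P1 := 536870912) (W1 := 536870912) (P2 := 0) (W2 := 1230186008) (P3 := 67108864) (W3 := 67108864) (N0 := 3)
    rfl rfl rfl k0_pm_123

noncomputable def f_pm_133 : ℕ → ℕ → ℕ → ℕ → Bool := onCell 1610612736 536870912 0 1230186008 67108864 67108864
    (rowNK 3 2 false true false .dn 1 3 3 (qsf 536870912 536870912 0 1230186008 3) ndN4q1 ndN4q3 pcN3 Cut.none Ext.none)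

def k0_pm_133 : ∃ t, chk3 f_pm_133 t 1 1 1 = true :=
  ⟨(l 4), by decide +kernel⟩

theorem c_pm_133 : CertN 536870912 536870912 0 1230186008 67108864 67108864 3 false true false .dn 1 3 3
    ndN4q1 ndN4q3 pcN3 Cut.none Ext.none :=
  certNK2 (fam := false) (s1 := true) (s2 := false) (a := 1) (b := 3) (c := 3) (cn := .dn) (n1 := ndN4q1) (n2 := ndN4q3) (pc := pcN3) (cut := Cut.none) (xt := Ext.none) (P1 := 536870912) (W1 := 536870912) (P2 := 0) (W2 := 1230186008) (P3 := 67108864) (W3 := 67108864) (N0 := 3)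
    rfl rfl rfl (fun _ => rfl) k0_pm_133

noncomputable def f_pm_202 : ℕ → ℕ → ℕ → ℕ → Bool := onCell 1073741824 536870912 1073741824 536870912 67108864 67108864
    (rowNK 3 0 false true false .pp 2 0 2 (qsf 1073741824 536870912 1073741824 536870912 0) ndN4q2 ndN4q2 pcN0 Cut.none Ext.none)

def k0_pm_202 : ∃ t, chk3 f_pm_202 t 1 1 1 = true :=
  ⟨(l 4), by decide +kernel⟩

theorem c_pm_202 : CertN 1073741824 536870912 1073741824 536870912 67108864 67108864 3 false true false .pp 2 0 2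
    ndN4q2 ndN4q2 pcN0 Cut.none Ext.none :=
  certNK0 (fam := false) (s1 := true) (s2 := false) (a := 2) (b := 0) (c := 2) (cn := .pp) (n1 := ndN4q2) (n2 := ndN4q2) (pc := pcN0) (cut := Cut.none) (xt := Ext.none) (P1 := 1073741824) (W1 := 536870912) (P2 := 1073741824) (W2 := 536870912) (P3 := 67108864) (W3 := 67108864) (N0 := 3)
    rfl rfl rfl k0_pm_202

noncomputable def f_pm_203 : ℕ → ℕ → ℕ → ℕ → Bool := onCell 1073741824 536870912 0 1230186008 67108864 67108864
    (rowNK 3 0 false true false .up 2 0 3 (qsf 1073741824 536870912 0 1230186008 0) ndN4q2 ndN4q3 pcN0 Cut.none Ext.none)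

def k0_pm_203 : ∃ t, chk3 f_pm_203 t 1 1 1 = true :=
  ⟨(a (b (l 2) (l 4)) (b (a (l 2) (b (b (l 17059144) (a (l 2) (l 17040352))) (a (l 17708888) (l 17502936)))) (b (a (l 4) (l 4)) (l 4)))), by decide +kernel⟩

theorem c_pm_203 : CertN 1073741824 536870912 0 1230186008 67108864 67108864 3 false true false .up 2 0 3
    ndN4q2 ndN4q3 pcN0 Cut.none Ext.none :=
  certNK0 (fam := false) (s1 := true) (s2 := false) (a := 2) (b := 0) (c := 3) (cn := .up) (n1 := ndN4q2) (n2 := ndN4q3) (pc := pcN0) (cut := Cut.none) (xt := Ext.none) (P1 := 1073741824) (W1 := 536870912) (P2 := 0) (W2 := 1230186008) (P3 := 67108864) (W3 := 67108864) (N0 := 3)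
    rfl rfl rfl k0_pm_203

noncomputable def f_pm_213 : ℕ → ℕ → ℕ → ℕ → Bool := onCell 536870912 536870912 0 1230186008 67108864 67108864
    (rowNK 3 2 false true false .pnn 2 1 3 (qsf 1073741824 536870912 0 1230186008 1) ndN4q2 ndN4q3 pcN1 Cut.none Ext.none)

def k0_pm_213 : ∃ t, chk3 f_pm_213 t 1 1 1 = true :=
  ⟨(a (b (a (b (b (l 18617104) (a (l 18336632) (b (l 18337000) (l 17243592)))) (b (a (l 17293960) (l 17322520)) (l 16914904))) (b (b (l 18174360) (a (l 18039856) (l 17738232))) (l 16990680))) (l 4)) (b (b (a (a (l 17553776) (l 17303184)) (a (l 16923864) (a (l 16913320) (l 16938408)))) (l 4)) (l 4))), by decide +kernel⟩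

theorem c_pm_213 : CertN 1073741824 536870912 0 1230186008 67108864 67108864 3 false true false .pnn 2 1 3
    ndN4q2 ndN4q3 pcN1 Cut.none Ext.none :=
  certNK2 (fam := false) (s1 := true) (s2 := false) (a := 2) (b := 1) (c := 3) (cn := .pnn) (n1 := ndN4q2) (n2 := ndN4q3) (pc := pcN1) (cut := Cut.none) (xt := Ext.none) (P1 := 1073741824) (W1 := 536870912) (P2 := 0) (W2 := 1230186008) (P3 := 67108864) (W3 := 67108864) (N0 := 3)
    rfl rfl rfl (fun _ => rfl) k0_pm_213

noncomputable def f_pm_303 : ℕ → ℕ → ℕ → ℕ → Bool := onCell 0 1230186008 0 1230186008 67108864 67108864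
    (rowNK 3 0 false true false .npn 3 0 3 (qsf 0 1230186008 0 1230186008 0) ndN4q3 ndN4q3 pcN0 Cut.none Ext.none)

def k0_pm_303 : ∃ t, chk3 f_pm_303 t 1 1 1 = true :=
  ⟨(a (b (b (l 3) (a (l 3) (b (l 308870668135) (a (b (l 3) (l 1)) (b (l 17741424) (l 17645264)))))) (a (l 1) (b (a (l 1) (b (b (l 16912904) (l 1)) (l 1))) (l 1)))) (b (a (b (a (l 308333522567) (l 247129792135)) (a (b (b (l 17632464) (l 17510848)) (b (l 17550728) (l 16997688))) (b (b (l 17325000) (l 17306504)) (b (l 16980040) (l 16930928))))) (a (b (b (l 17421288) (l 17139296)) (b (l 17014168) (l 16904840))) (b (b (l 17139264) (a (l 17004120) (l 17013976))) (a (b (l 16904440) (l 17130664)) (l 17439696))))) (a (b (a (b (b (l 17236392) (l 17432864)) (l 17367456)) (b (b (l 16991944) (l 17166880)) (l 17069656))) (a (l 1) (b (b (l 16909000) (l 1)) (l 1)))) (b (a (l 16952296) (b (l 17248592) (l 17247192))) (a (b (l 17106424) (l 4)) (l 4)))))), by decide +kernel⟩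

theorem c_pm_303 : CertN 0 1230186008 0 1230186008 67108864 67108864 3 false true false .npn 3 0 3
    ndN4q3 ndN4q3 pcN0 Cut.none Ext.none :=
  certNK0 (fam := false) (s1 := true) (s2 := false) (a := 3) (b := 0) (c := 3) (cn := .npn) (n1 := ndN4q3) (n2 := ndN4q3) (pc := pcN0) (cut := Cut.none) (xt := Ext.none) (P1 := 0) (W1 := 1230186008) (P2 := 0) (W2 := 1230186008) (P3 := 67108864) (W3 := 67108864) (N0 := 3)
    rfl rfl rfl k0_pm_303

noncomputable def f_pm_313 : ℕ → ℕ → ℕ → ℕ → Bool := onCell 0 1230186008 0 1230186008 67108864 67108864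
    (rowNK 3 0 false true false .dn 3 1 3 (qsf 0 1230186008 0 1230186008 1) ndN4q3 ndN4q3 pcN1 Cut.none Ext.none)

def k0_pm_313 : ∃ t, chk3 f_pm_313 t 1 1 1 = true :=
  ⟨(a (l 1) (b (a (l 1) (a (l 1) (b (b (l 18252264) (l 1)) (l 1)))) (l 1))), by decide +kernel⟩

theorem c_pm_313 : CertN 0 1230186008 0 1230186008 67108864 67108864 3 false true false .dn 3 1 3
    ndN4q3 ndN4q3 pcN1 Cut.none Ext.none :=
  certNK0 (fam := false) (s1 := true) (s2 := false) (a := 3) (b := 1) (c := 3) (cn := .dn) (n1 := ndN4q3) (n2 := ndN4q3) (pc := pcN1) (cut := Cut.none) (xt := Ext.none) (P1 := 0) (W1 := 1230186008) (P2 := 0) (W2 := 1230186008) (P3 := 67108864) (W3 := 67108864) (N0 := 3)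
    rfl rfl rfl k0_pm_313

noncomputable def f_mm_001 : ℕ → ℕ → ℕ → ℕ → Bool := onCell 0 536870912 536870912 536870912 67108864 67108864
    (rowNK 3 0 false false false .up 0 0 1 (qsf 0 536870912 536870912 536870912 0) ndN4q0 ndN4q1 pcN0 Cut.none Ext.none)

def k0_mm_001 : ∃ t, chk3 f_mm_001 t 1 1 1 = true :=
  ⟨(l 3), by decide +kernel⟩

theorem c_mm_001 : CertN 0 536870912 536870912 536870912 67108864 67108864 3 false false false .up 0 0 1
    ndN4q0 ndN4q1 pcN0 Cut.none Ext.none :=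
  certNK0 (fam := false) (s1 := false) (s2 := false) (a := 0) (b := 0) (c := 1) (cn := .up) (n1 := ndN4q0) (n2 := ndN4q1) (pc := pcN0) (cut := Cut.none) (xt := Ext.none) (P1 := 0) (W1 := 536870912) (P2 := 536870912) (W2 := 536870912) (P3 := 67108864) (W3 := 67108864) (N0 := 3)
    rfl rfl rfl k0_mm_001

noncomputable def f_mm_011 : ℕ → ℕ → ℕ → ℕ → Bool := onCell 0 536870912 536870912 536870912 67108864 67108864
    (rowNK 3 0 false false false .pnn 0 1 1 (qsf 0 536870912 536870912 536870912 1) ndN4q0 ndN4q1 pcN1 Cut.none Ext.none)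

def k0_mm_011 : ∃ t, chk3 f_mm_011 t 1 1 1 = true :=
  ⟨(l 3), by decide +kernel⟩

theorem c_mm_011 : CertN 0 536870912 536870912 536870912 67108864 67108864 3 false false false .pnn 0 1 1
    ndN4q0 ndN4q1 pcN1 Cut.none Ext.none :=
  certNK0 (fam := false) (s1 := false) (s2 := false) (a := 0) (b := 1) (c := 1) (cn := .pnn) (n1 := ndN4q0) (n2 := ndN4q1) (pc := pcN1) (cut := Cut.none) (xt := Ext.none) (P1 := 0) (W1 := 536870912) (P2 := 536870912) (W2 := 536870912) (P3 := 67108864) (W3 := 67108864) (N0 := 3)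
    rfl rfl rfl k0_mm_011

noncomputable def f_mm_012 : ℕ → ℕ → ℕ → ℕ → Bool := onCell 0 536870912 1073741824 536870912 67108864 67108864
    (rowNK 3 0 false false false .pnp 0 1 2 (qsf 0 536870912 1073741824 536870912 1) ndN4q0 ndN4q2 pcN1 Cut.none Ext.none)

def k0_mm_012 : ∃ t, chk3 f_mm_012 t 1 1 1 = true :=
  ⟨(l 5), by decide +kernel⟩

theorem c_mm_012 : CertN 0 536870912 1073741824 536870912 67108864 67108864 3 false false false .pnp 0 1 2
    ndN4q0 ndN4q2 pcN1 Cut.none Ext.none :=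
  certNK0 (fam := false) (s1 := false) (s2 := false) (a := 0) (b := 1) (c := 2) (cn := .pnp) (n1 := ndN4q0) (n2 := ndN4q2) (pc := pcN1) (cut := Cut.none) (xt := Ext.none) (P1 := 0) (W1 := 536870912) (P2 := 1073741824) (W2 := 536870912) (P3 := 67108864) (W3 := 67108864) (N0 := 3)
    rfl rfl rfl k0_mm_012

noncomputable def f_mm_022 : ℕ → ℕ → ℕ → ℕ → Bool := onCell 0 536870912 1073741824 536870912 67108864 67108864
    (rowNK 3 0 false false false .pp 0 2 2 (qsf 0 536870912 1073741824 536870912 2) ndN4q0 ndN4q2 pcN2 Cut.none Ext.none)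

def k0_mm_022 : ∃ t, chk3 f_mm_022 t 1 1 1 = true :=
  ⟨(l 5), by decide +kernel⟩

theorem c_mm_022 : CertN 0 536870912 1073741824 536870912 67108864 67108864 3 false false false .pp 0 2 2
    ndN4q0 ndN4q2 pcN2 Cut.none Ext.none :=
  certNK0 (fam := false) (s1 := false) (s2 := false) (a := 0) (b := 2) (c := 2) (cn := .pp) (n1 := ndN4q0) (n2 := ndN4q2) (pc := pcN2) (cut := Cut.none) (xt := Ext.none) (P1 := 0) (W1 := 536870912) (P2 := 1073741824) (W2 := 536870912) (P3 := 67108864) (W3 := 67108864) (N0 := 3)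
    rfl rfl rfl k0_mm_022

noncomputable def f_mm_023 : ℕ → ℕ → ℕ → ℕ → Bool := onCell 0 536870912 0 1230186008 67108864 67108864
    (rowNK 3 0 false false false .up 0 2 3 (qsf 0 536870912 0 1230186008 2) ndN4q0 ndN4q3 pcN2 Cut.none Ext.none)

def k0_mm_023 : ∃ t, chk3 f_mm_023 t 1 1 1 = true :=
  ⟨(l 5), by decide +kernel⟩

theorem c_mm_023 : CertN 0 536870912 0 1230186008 67108864 67108864 3 false false false .up 0 2 3
    ndN4q0 ndN4q3 pcN2 Cut.none Ext.none :=
  certNK0 (fam := false) (s1 := false) (s2 := false) (a := 0) (b := 2) (c := 3) (cn := .up) (n1 := ndN4q0) (n2 := ndN4q3) (pc := pcN2) (cut := Cut.none) (xt := Ext.none) (P1 := 0) (W1 := 536870912) (P2 := 0) (W2 := 1230186008) (P3 := 67108864) (W3 := 67108864) (N0 := 3)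
    rfl rfl rfl k0_mm_023

noncomputable def f_mm_033 : ℕ → ℕ → ℕ → ℕ → Bool := onCell 0 536870912 0 1230186008 67108864 67108864
    (rowNK 3 0 false false false .pnn 0 3 3 (qsf 0 536870912 0 1230186008 3) ndN4q0 ndN4q3 pcN3 Cut.none Ext.none)

def k0_mm_033 : ∃ t, chk3 f_mm_033 t 1 1 1 = true :=
  ⟨(l 5), by decide +kernel⟩

theorem c_mm_033 : CertN 0 536870912 0 1230186008 67108864 67108864 3 false false false .pnn 0 3 3
    ndN4q0 ndN4q3 pcN3 Cut.none Ext.none :=
  certNK0 (fam := false) (s1 := false) (s2 := false) (a := 0) (b := 3) (c := 3) (cn := .pnn) (n1 := ndN4q0) (n2 := ndN4q3) (pc := pcN3) (cut := Cut.none) (xt := Ext.none) (P1 := 0) (W1 := 536870912) (P2 := 0) (W2 := 1230186008) (P3 := 67108864) (W3 := 67108864) (N0 := 3)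
    rfl rfl rfl k0_mm_033

noncomputable def f_mm_101 : ℕ → ℕ → ℕ → ℕ → Bool := onCell 536870912 536870912 536870912 536870912 67108864 67108864
    (rowNK 3 0 false false false .npn 1 0 1 (qsf 536870912 536870912 536870912 536870912 0) ndN4q1 ndN4q1 pcN0 Cut.none Ext.none)

def k0_mm_101 : ∃ t, chk3 f_mm_101 t 1 1 1 = true :=
  ⟨(l 3), by decide +kernel⟩

theorem c_mm_101 : CertN 536870912 536870912 536870912 536870912 67108864 67108864 3 false false false .npn 1 0 1
    ndN4q1 ndN4q1 pcN0 Cut.none Ext.none :=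
  certNK0 (fam := false) (s1 := false) (s2 := false) (a := 1) (b := 0) (c := 1) (cn := .npn) (n1 := ndN4q1) (n2 := ndN4q1) (pc := pcN0) (cut := Cut.none) (xt := Ext.none) (P1 := 536870912) (W1 := 536870912) (P2 := 536870912) (W2 := 536870912) (P3 := 67108864) (W3 := 67108864) (N0 := 3)
    rfl rfl rfl k0_mm_101

noncomputable def f_mm_102 : ℕ → ℕ → ℕ → ℕ → Bool := onCell 536870912 536870912 0 536870912 67108864 67108864
    (rowNK 3 1 false false false .npp 1 0 2 (qsf 536870912 536870912 1073741824 536870912 0) ndN4q1 ndN4q2 pcN0 Cut.none Ext.none)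

def k0_mm_102 : ∃ t, chk3 f_mm_102 t 1 1 1 = true :=
  ⟨(l 3), by decide +kernel⟩

theorem c_mm_102 : CertN 536870912 536870912 1073741824 536870912 67108864 67108864 3 false false false .npp 1 0 2
    ndN4q1 ndN4q2 pcN0 Cut.none Ext.none :=
  certNK1 (fam := false) (s1 := false) (s2 := false) (a := 1) (b := 0) (c := 2) (cn := .npp) (n1 := ndN4q1) (n2 := ndN4q2) (pc := pcN0) (cut := Cut.none) (xt := Ext.none) (P1 := 536870912) (W1 := 536870912) (P2 := 1073741824) (W2 := 536870912) (P3 := 67108864) (W3 := 67108864) (N0 := 3)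
    rfl rfl rfl (fun _ => rfl) k0_mm_102

noncomputable def f_mm_112 : ℕ → ℕ → ℕ → ℕ → Bool := onCell 536870912 536870912 536870912 536870912 67108864 67108864
    (rowNK 3 1 false false false .dn 1 1 2 (qsf 536870912 536870912 1073741824 536870912 1) ndN4q1 ndN4q2 pcN1 Cut.none Ext.none)

def k0_mm_112 : ∃ t, chk3 f_mm_112 t 1 1 1 = true :=
  ⟨(l 5), by decide +kernel⟩

theorem c_mm_112 : CertN 536870912 536870912 1073741824 536870912 67108864 67108864 3 false false false .dn 1 1 2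
    ndN4q1 ndN4q2 pcN1 Cut.none Ext.none :=
  certNK1 (fam := false) (s1 := false) (s2 := false) (a := 1) (b := 1) (c := 2) (cn := .dn) (n1 := ndN4q1) (n2 := ndN4q2) (pc := pcN1) (cut := Cut.none) (xt := Ext.none) (P1 := 536870912) (W1 := 536870912) (P2 := 1073741824) (W2 := 536870912) (P3 := 67108864) (W3 := 67108864) (N0 := 3)
    rfl rfl rfl (fun _ => rfl) k0_mm_112

noncomputable def f_mm_113 : ℕ → ℕ → ℕ → ℕ → Bool := onCell 536870912 536870912 0 1230186008 67108864 67108864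
    (rowNK 3 0 false false false .nn 1 1 3 (qsf 536870912 536870912 0 1230186008 1) ndN4q1 ndN4q3 pcN1 Cut.none Ext.none)

def k0_mm_113 : ∃ t, chk3 f_mm_113 t 1 1 1 = true :=
  ⟨(l 5), by decide +kernel⟩

theorem c_mm_113 : CertN 536870912 536870912 0 1230186008 67108864 67108864 3 false false false .nn 1 1 3
    ndN4q1 ndN4q3 pcN1 Cut.none Ext.none :=
  certNK0 (fam := false) (s1 := false) (s2 := false) (a := 1) (b := 1) (c := 3) (cn := .nn) (n1 := ndN4q1) (n2 := ndN4q3) (pc := pcN1) (cut := Cut.none) (xt := Ext.none) (P1 := 536870912) (W1 := 536870912) (P2 := 0) (W2 := 1230186008) (P3 := 67108864) (W3 := 67108864) (N0 := 3)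
    rfl rfl rfl k0_mm_113

noncomputable def f_mm_123 : ℕ → ℕ → ℕ → ℕ → Bool := onCell 536870912 536870912 0 1230186008 67108864 67108864
    (rowNK 3 0 false false false .npn 1 2 3 (qsf 536870912 536870912 0 1230186008 2) ndN4q1 ndN4q3 pcN2 Cut.none Ext.none)

def k0_mm_123 : ∃ t, chk3 f_mm_123 t 1 1 1 = true :=
  ⟨(l 5), by decide +kernel⟩

theorem c_mm_123 : CertN 536870912 536870912 0 1230186008 67108864 67108864 3 false false false .npn 1 2 3
    ndN4q1 ndN4q3 pcN2 Cut.none Ext.none :=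
  certNK0 (fam := false) (s1 := false) (s2 := false) (a := 1) (b := 2) (c := 3) (cn := .npn) (n1 := ndN4q1) (n2 := ndN4q3) (pc := pcN2) (cut := Cut.none) (xt := Ext.none) (P1 := 536870912) (W1 := 536870912) (P2 := 0) (W2 := 1230186008) (P3 := 67108864) (W3 := 67108864) (N0 := 3)
    rfl rfl rfl k0_mm_123

noncomputable def f_mm_133 : ℕ → ℕ → ℕ → ℕ → Bool := onCell 536870912 536870912 0 1230186008 67108864 67108864
    (rowNK 3 0 false false false .dn 1 3 3 (qsf 536870912 536870912 0 1230186008 3) ndN4q1 ndN4q3 pcN3 Cut.none Ext.none)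

def k0_mm_133 : ∃ t, chk3 f_mm_133 t 1 1 1 = true :=
  ⟨(l 5), by decide +kernel⟩

theorem c_mm_133 : CertN 536870912 536870912 0 1230186008 67108864 67108864 3 false false false .dn 1 3 3
    ndN4q1 ndN4q3 pcN3 Cut.none Ext.none :=
  certNK0 (fam := false) (s1 := false) (s2 := false) (a := 1) (b := 3) (c := 3) (cn := .dn) (n1 := ndN4q1) (n2 := ndN4q3) (pc := pcN3) (cut := Cut.none) (xt := Ext.none) (P1 := 536870912) (W1 := 536870912) (P2 := 0) (W2 := 1230186008) (P3 := 67108864) (W3 := 67108864) (N0 := 3)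
    rfl rfl rfl k0_mm_133

noncomputable def f_mm_202 : ℕ → ℕ → ℕ → ℕ → Bool := onCell 1073741824 536870912 1073741824 536870912 67108864 67108864
    (rowNK 3 0 false false false .pp 2 0 2 (qsf 1073741824 536870912 1073741824 536870912 0) ndN4q2 ndN4q2 pcN0 Cut.none Ext.none)

def k0_mm_202 : ∃ t, chk3 f_mm_202 t 1 1 1 = true :=
  ⟨(l 3), by decide +kernel⟩

theorem c_mm_202 : CertN 1073741824 536870912 1073741824 536870912 67108864 67108864 3 false false false .pp 2 0 2
    ndN4q2 ndN4q2 pcN0 Cut.none Ext.none :=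
  certNK0 (fam := false) (s1 := false) (s2 := false) (a := 2) (b := 0) (c := 2) (cn := .pp) (n1 := ndN4q2) (n2 := ndN4q2) (pc := pcN0) (cut := Cut.none) (xt := Ext.none) (P1 := 1073741824) (W1 := 536870912) (P2 := 1073741824) (W2 := 536870912) (P3 := 67108864) (W3 := 67108864) (N0 := 3)
    rfl rfl rfl k0_mm_202

noncomputable def f_mm_203 : ℕ → ℕ → ℕ → ℕ → Bool := onCell 1073741824 536870912 0 1230186008 67108864 67108864
    (rowNK 3 0 false false false .up 2 0 3 (qsf 1073741824 536870912 0 1230186008 0) ndN4q2 ndN4q3 pcN0 Cut.none Ext.none)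

def k0_mm_203 : ∃ t, chk3 f_mm_203 t 1 1 1 = true :=
  ⟨(b (l 5) (b (l 5) (l 3))), by decide +kernel⟩

theorem c_mm_203 : CertN 1073741824 536870912 0 1230186008 67108864 67108864 3 false false false .up 2 0 3
    ndN4q2 ndN4q3 pcN0 Cut.none Ext.none :=
  certNK0 (fam := false) (s1 := false) (s2 := false) (a := 2) (b := 0) (c := 3) (cn := .up) (n1 := ndN4q2) (n2 := ndN4q3) (pc := pcN0) (cut := Cut.none) (xt := Ext.none) (P1 := 1073741824) (W1 := 536870912) (P2 := 0) (W2 := 1230186008) (P3 := 67108864) (W3 := 67108864) (N0 := 3)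
    rfl rfl rfl k0_mm_203

noncomputable def f_mm_213 : ℕ → ℕ → ℕ → ℕ → Bool := onCell 536870912 536870912 0 1230186008 67108864 67108864
    (rowNK 3 2 false false false .pnn 2 1 3 (qsf 1073741824 536870912 0 1230186008 1) ndN4q2 ndN4q3 pcN1 Cut.none Ext.none)

def k0_mm_213 : ∃ t, chk3 f_mm_213 t 1 1 1 = true :=
  ⟨(b (l 5) (l 5)), by decide +kernel⟩

theorem c_mm_213 : CertN 1073741824 536870912 0 1230186008 67108864 67108864 3 false false false .pnn 2 1 3
    ndN4q2 ndN4q3 pcN1 Cut.none Ext.none :=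
  certNK2 (fam := false) (s1 := false) (s2 := false) (a := 2) (b := 1) (c := 3) (cn := .pnn) (n1 := ndN4q2) (n2 := ndN4q3) (pc := pcN1) (cut := Cut.none) (xt := Ext.none) (P1 := 1073741824) (W1 := 536870912) (P2 := 0) (W2 := 1230186008) (P3 := 67108864) (W3 := 67108864) (N0 := 3)
    rfl rfl rfl (fun _ => rfl) k0_mm_213

noncomputable def f_mm_303 : ℕ → ℕ → ℕ → ℕ → Bool := onCell 0 1230186008 0 1230186008 67108864 67108864
    (rowNK 3 0 false false false .npn 3 0 3 (qsf 0 1230186008 0 1230186008 0) ndN4q3 ndN4q3 pcN0 Cut.none Ext.none)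

def k0_mm_303 : ∃ t, chk3 f_mm_303 t 1 1 1 = true :=
  ⟨(a (b (l 3) (a (l 1) (l 3))) (b (a (l 3) (l 5)) (l 3))), by decide +kernel⟩

theorem c_mm_303 : CertN 0 1230186008 0 1230186008 67108864 67108864 3 false false false .npn 3 0 3
    ndN4q3 ndN4q3 pcN0 Cut.none Ext.none :=
  certNK0 (fam := false) (s1 := false) (s2 := false) (a := 3) (b := 0) (c := 3) (cn := .npn) (n1 := ndN4q3) (n2 := ndN4q3) (pc := pcN0) (cut := Cut.none) (xt := Ext.none) (P1 := 0) (W1 := 1230186008) (P2 := 0) (W2 := 1230186008) (P3 := 67108864) (W3 := 67108864) (N0 := 3)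
    rfl rfl rfl k0_mm_303

noncomputable def f_mm_313 : ℕ → ℕ → ℕ → ℕ → Bool := onCell 0 1230186008 0 1230186008 67108864 67108864
    (rowNK 3 0 false false false .dn 3 1 3 (qsf 0 1230186008 0 1230186008 1) ndN4q3 ndN4q3 pcN1 Cut.none Ext.none)

def k0_mm_313 : ∃ t, chk3 f_mm_313 t 1 1 1 = true :=
  ⟨(a (l 1) (b (a (l 1) (l 5)) (l 1))), by decide +kernel⟩

theorem c_mm_313 : CertN 0 1230186008 0 1230186008 67108864 67108864 3 false false false .dn 3 1 3
    ndN4q3 ndN4q3 pcN1 Cut.none Ext.none :=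
  certNK0 (fam := false) (s1 := false) (s2 := false) (a := 3) (b := 1) (c := 3) (cn := .dn) (n1 := ndN4q3) (n2 := ndN4q3) (pc := pcN1) (cut := Cut.none) (xt := Ext.none) (P1 := 0) (W1 := 1230186008) (P2 := 0) (W2 := 1230186008) (P3 := 67108864) (W3 := 67108864) (N0 := 3)
    rfl rfl rfl k0_mm_313

end Pool.Agent.Strip051.G.I1_16_1_8.Tab.C.NB44

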