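import Pool.Agent.Strip051.G.I1_16_1_8.Fact
import Pool.Agent.Strip051.PB.CFact
import Pool.Agent.Strip051.PB.CGood
import Pool.Agent.Strip051.LC.Box.Inst.I3_16_1_2

/-! # The costs of the edges, I1_16_1_8 (generated) -/

set_option linter.all false

namespace Pool.Agent.Strip051.G.I1_16_1_8.Tab

open Pool.Agent.Strip051.PB Pool.Agent.StripNear Pool.Agent.StripSquare Pool.Agent.Strip051.Sweep
open Pool.Agent.Strip051.LC
open Pool.Agent.Strip051.LC.Box (Aff cbv Certs)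

/-- the costs, far vertices -/
def ccFC : List (List Aff) :=
  [[⟨.ofNat 1286, .negSucc 936, .negSucc 564⟩, ⟨.ofNat 1020, .negSucc 1155, .ofNat 90⟩, ⟨.ofNat 57, .negSucc 1334, .ofNat 916⟩, ⟨.negSucc 2795, .negSucc 1056, .ofNat 5127⟩],
   [⟨.ofNat 1155, .ofNat 1889, .negSucc 894⟩, ⟨.ofNat 949, .ofNat 829, .negSucc 468⟩, ⟨.ofNat 550, .negSucc 52, .negSucc 92⟩],
   [⟨.ofNat 321, .ofNat 1557, .negSucc 1186⟩, ⟨.ofNat 1220, .ofNat 1705, .negSucc 1898⟩, ⟨.ofNat 553, .negSucc 1703, .ofNat 1993⟩, ⟨.ofNat 539, .negSucc 1325, .ofNat 1253⟩],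
   [⟨.ofNat 1214, .ofNat 176, .ofNat 30⟩, ⟨.ofNat 601, .ofNat 483, .negSucc 548⟩, ⟨.ofNat 729, .negSucc 229, .ofNat 181⟩],
   [⟨.ofNat 433, .negSucc 69, .ofNat 312⟩, ⟨.ofNat 753, .ofNat 2826, .negSucc 2879⟩, ⟨.ofNat 2564, .ofNat 136, .ofNat 79⟩],
   [⟨.ofNat 48, .negSucc 467, .ofNat 567⟩, ⟨.ofNat 2424, .negSucc 150, .negSucc 2688⟩],
   [⟨.ofNat 698, .ofNat 1219, .negSucc 1025⟩, ⟨.ofNat 733, .ofNat 42, .negSucc 24⟩]]

/-- the costs of unit edges, far vertices -/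
def ccFU : List (List Aff) :=
  [[⟨.negSucc 171, .negSucc 1056, .ofNat 1026⟩, ⟨.negSucc 1372, .negSucc 1354, .ofNat 2086⟩],
   [⟨.ofNat 154, .ofNat 943, .negSucc 335⟩, ⟨.ofNat 2440, .ofNat 2866, .negSucc 3505⟩, ⟨.negSucc 44, .negSucc 769, .ofNat 1067⟩],
   [⟨.ofNat 522, .ofNat 936, .negSucc 698⟩, ⟨.ofNat 556, .negSucc 542, .ofNat 590⟩]]

theorem ccFC_eq : ccFC = LC.Box.I3_16_1_2.C := rfl

theorem ccFU_eq : ccFU = LC.Box.I3_16_1_2.U := rfl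

/-- the costs, near vertices -/
def ccNC : List (List Aff) :=
  [[⟨.ofNat 1286, .negSucc 936, .negSucc 564⟩, ⟨.ofNat 1020, .negSucc 1155, .ofNat 90⟩, ⟨.ofNat 57, .negSucc 1334, .ofNat 916⟩, ⟨.negSucc 2795, .negSucc 1056, .ofNat 5127⟩],
   [⟨.ofNat 1155, .ofNat 1889, .negSucc 894⟩, ⟨.ofNat 949, .ofNat 829, .negSucc 468⟩, ⟨.ofNat 550, .negSucc 52, .negSucc 92⟩],
   [⟨.ofNat 321, .ofNat 1557, .negSucc 1186⟩, ⟨.ofNat 1220, .ofNat 1705, .negSucc 1898⟩, ⟨.ofNat 553, .negSucc 1703, .ofNat 1993⟩, ⟨.ofNat 539, .negSucc 1325, .ofNat 1253⟩],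
   [⟨.ofNat 1214, .ofNat 176, .ofNat 30⟩, ⟨.ofNat 601, .ofNat 483, .negSucc 548⟩, ⟨.ofNat 729, .negSucc 229, .ofNat 181⟩],
   [⟨.ofNat 433, .negSucc 69, .ofNat 312⟩, ⟨.ofNat 753, .ofNat 2826, .negSucc 2879⟩, ⟨.ofNat 2564, .ofNat 136, .ofNat 79⟩],
   [⟨.ofNat 48, .negSucc 467, .ofNat 567⟩, ⟨.ofNat 2424, .negSucc 150, .negSucc 2688⟩],
   [⟨.ofNat 698, .ofNat 1219, .negSucc 1025⟩, ⟨.ofNat 733, .ofNat 42, .negSucc 24⟩]]

/-- the costs of unit edges, near vertices -/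
def ccNU : List (List Aff) :=
  [[⟨.negSucc 171, .negSucc 1056, .ofNat 1026⟩, ⟨.negSucc 1372, .negSucc 1354, .ofNat 2086⟩],
   [⟨.ofNat 154, .ofNat 943, .negSucc 335⟩, ⟨.ofNat 2440, .ofNat 2866, .negSucc 3505⟩, ⟨.negSucc 44, .negSucc 769, .ofNat 1067⟩],
   [⟨.ofNat 522, .ofNat 936, .negSucc 698⟩, ⟨.ofNat 556, .negSucc 542, .ofNat 590⟩]]

theorem ccNC_eq : ccNC = LC.Box.I3_16_1_2.C := rfl

theorem ccNU_eq : ccNU = LC.Box.I3_16_1_2.U := rfl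

theorem x_lo {x : ℝ} (hx : ((67108864 : ℕ) : ℝ) / S ≤ x) : (67108864 / 1073741824 : ℝ) ≤ x := by
  refine le_trans (le_of_eq ?_) hx
  norm_num [S]

theorem x_hi {x : ℝ} (hx' : x ≤ (((67108864 : ℕ) : ℝ) + (67108864 : ℕ)) / S) : x ≤ (134217728 / 1073741824 : ℝ) := by
  refine hx'.trans (le_of_eq ?_)
  norm_num [S]

theorem wallF {x : ℝ} (hx : ((67108864 : ℕ) : ℝ) / S ≤ x) (hx' : x ≤ (((67108864 : ℕ) : ℝ) + (67108864 : ℕ)) / S) :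
    4096 * we (h0 * x) ≤ (690 : ℤ) := by
  have h1 := x_lo hx
  have h2 := x_hi hx'
  refine we_tan' (c := (9941 / 10000)) (by linarith) (by linarith) (by norm_num) ?_
  norm_num
  nlinarith [sq_nonneg (x - (1 / 8))]

theorem wallN {x : ℝ} (hx : ((67108864 : ℕ) : ℝ) / S ≤ x) (hx' : x ≤ (((67108864 : ℕ) : ℝ) + (67108864 : ℕ)) / S) :
    4096 * (we (h0 * x) + mu 3 (h0 * x) * wq (h0 * x)) ≤ (690 : ℤ) := by
  have h1 := x_lo hx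
  have h2 := x_hi hx'
  refine wn_tan' (c := (9941 / 10000)) (m := (24941 / 5000)) (by linarith) (by linarith) (by norm_num)
    (by norm_num) ?_
  norm_num
  nlinarith [sq_nonneg (x - (1 / 8))]

theorem cstF0_0 : CertC 0 536870912 67108864 67108864 (CN.nd ndF0q0 zrG) (CN.nd ndF1q0 zrG) idf esF hfF zrF 0 ccFC :=
  ⟨T.a (T.l 16) (T.l 48), by decide +kernel⟩

theorem cstF0_1 : CertC 0 536870912 67108864 67108864 (CN.nd ndF1q0 zrG) (CN.nd ndF2q0 zrG) idf esF hfF zrF 0 ccFC :=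
  ⟨T.a (T.l 16) (T.l 16), by decide +kernel⟩

theorem cstF0_2 : CertC 0 536870912 67108864 67108864 (CN.nd ndF2q0 zrG) (CN.nd ndF3q0 zrG) idf esF hfF zrF 0 ccFC :=
  ⟨T.a (T.l 16) (T.l 16), by decide +kernel⟩

theorem cstF0_3 : CertC 0 536870912 67108864 67108864 (CN.nd ndF3q0 zrG) (CN.nd ndF4q0 zrG) idf esF hfF zrF 0 ccFC :=
  ⟨T.l 48, by decide +kernel⟩

theorem cstF1_0 : CertC 536870912 536870912 67108864 67108864 (CN.nd ndF0q1 zrG) (CN.nd ndF1q1 zrG) idf esF hfF zrF 1 ccFC :=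
  ⟨T.a (T.l 48) (T.l 208), by decide +kernel⟩

theorem cstF1_1 : CertC 536870912 536870912 67108864 67108864 (CN.nd ndF1q1 zrG) (CN.nd ndF2q1 zrG) idf esF hfF zrF 1 ccFC :=
  ⟨T.a (T.l 48) (T.a (T.l 48) (T.a (T.l 48) (T.a (T.l 48) (T.l 48)))), by decide +kernel⟩

theorem cstF1_2 : CertC 536870912 536870912 67108864 67108864 (CN.nd ndF2q1 zrG) (CN.nd ndF3q1 zrG) idf esF hfF zrF 1 ccFC :=
  ⟨T.a (T.l 48) (T.a (T.l 48) (T.a (T.l 48) (T.a (T.l 48) (T.l 48)))), by decide +kernel⟩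

theorem cstF1_3 : CertC 536870912 536870912 67108864 67108864 (CN.nd ndF3q1 zrG) (CN.nd ndF4q1 zrG) idf esF hfF zrF 1 ccFC :=
  ⟨T.l 48, by decide +kernel⟩

theorem cstF2a_0 : CertC 0 536870912 67108864 67108864 (CN.nd ndF0q2 zrG) (CN.nd ndF1q2a zrG) yag esF hfF zrF 2 ccFC :=
  ⟨T.a (T.a (T.a (T.l 208) (T.l 208)) (T.l 208)) (T.a (T.l 208) (T.l 208)), by decide +kernel⟩

theorem cstF2a_1 : CertC 0 536870912 67108864 67108864 (CN.nd ndF1q2a zrG) (CN.nd ndF2q2a zrG) yag esF hfF zrF 2 ccFC :=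
  ⟨T.a (T.l 112) (T.a (T.l 80) (T.a (T.l 80) (T.l 48))), by decide +kernel⟩

theorem cstF2a_2 : CertC 0 536870912 67108864 67108864 (CN.nd ndF2q2a zrG) (CN.ndc ndF3q2 zrG yag) yag esF hfF zrF 2 ccFC :=
  ⟨T.a (T.l 80) (T.a (T.l 80) (T.a (T.l 80) (T.l 48))), by decide +kernel⟩

theorem cstF2a_3 : CertC 0 536870912 67108864 67108864 (CN.ndc ndF3q2 zrG yag) (CN.ndc ndF4q2 zrG yag) yag esF hfF zrF 2 ccFC :=
  ⟨T.l 48, by decide +kernel⟩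

theorem cstF2b_0 : CertC 1239849684 370763052 67108864 67108864 CN.zr (CN.nd ndF1q2b zrG) idf esF hfF zrF 2 ccFC :=
  ⟨T.l 208, by decide +kernel⟩

theorem cstF2b_1 : CertC 1239849684 370763052 67108864 67108864 (CN.nd ndF1q2b zrG) (CN.nd ndF2q2b zrG) idf esF hfF zrF 2 ccFC :=
  ⟨T.l 112, by decide +kernel⟩

theorem cstF2b_2 : CertC 1239849684 370763052 67108864 67108864 (CN.nd ndF2q2b zrG) (CN.nd ndF3q2 zrG) idf esF hfF zrF 2 ccFC :=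
  ⟨T.l 112, by decide +kernel⟩

theorem cstF2b_3 : CertC 1239849684 370763052 67108864 67108864 (CN.nd ndF3q2 zrG) (CN.nd ndF4q2 zrG) idf esF hfF zrF 2 ccFC :=
  ⟨T.l 112, by decide +kernel⟩

theorem cstF3_0 : CertC 0 1230186008 67108864 67108864 CN.zr (CN.ndc ndF1q3 zrG ycg) ycg esF hfF zrF 3 ccFC :=
  ⟨T.a (T.l 144) (T.a (T.l 144) (T.l 144)), by decide +kernel⟩

theorem cstF3_1 : CertC 0 1230186008 67108864 67108864 (CN.ndc ndF1q3 zrG ycg) (CN.ndc ndF2q3 zrG ycg) ycg esF hfF zrF 3 ccFC :=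
  ⟨T.a (T.l 144) (T.a (T.l 144) (T.a (T.l 144) (T.l 144))), by decide +kernel⟩

theorem cstF3_2 : CertC 0 1230186008 67108864 67108864 (CN.ndc ndF2q3 zrG ycg) (CN.nd ndF3q3 zrG) ycg esF hfF zrF 3 ccFC :=
  ⟨T.a (T.l 144) (T.a (T.l 144) (T.a (T.l 144) (T.l 144))), by decide +kernel⟩

theorem cstF3_3 : CertC 0 1230186008 67108864 67108864 (CN.nd ndF3q3 zrG) (CN.nd ndF4q3 zrG) ycg esF hfF zrF 3 ccFC :=
  ⟨T.a (T.a (T.l 144) (T.l 144)) (T.a (T.l 144) (T.l 144)), by decide +kernel⟩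

theorem cstFU0_0 : CertC 0 536870912 67108864 67108864 (CN.nd ndF0q0 zrG) (CN.nd ndF0q0 zrG) idf esF hfF zrF 0 ccFU :=
  ⟨T.a (T.l 16) (T.a (T.l 16) (T.l 16)), by decide +kernel⟩

theorem cstFU1_0 : CertC 536870912 536870912 67108864 67108864 (CN.nd ndF0q1 zrG) (CN.nd ndF0q1 zrG) idf esF hfF zrF 1 ccFU :=
  ⟨T.a (T.a (T.l 16) (T.l 80)) (T.l 80), by decide +kernel⟩

theorem cstFU2_0 : CertC 0 536870912 67108864 67108864 (CN.nd ndF0q2 zrG) (CN.nd ndF0q2 zrG) yag esF hfF zrF 2 ccFU :=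
  ⟨T.a (T.a (T.l 80) (T.l 80)) (T.a (T.l 80) (T.l 80)), by decide +kernel⟩

theorem segF0_0 {x : ℝ} (hx : ((67108864 : ℕ) : ℝ) / S ≤ x) (hx' : x ≤ (((67108864 : ℕ) : ℝ) + (67108864 : ℕ)) / S) :
    SegR (crv PP) tKF tL zrT (esn x) (1 / 2) 0 ccFC 0 (0 : Fin 4) x :=
  SegV.all (cstF0_0.seg (c := fun y => y) ⟨hx, hx'⟩ (fun y h hv => rng_0 h) (fun _ _ _ => rfl) rfl rfl
      (fun y h hv => ((atF00 ⟨h, fun _ => on_0 h⟩)).atN)
      (fun y h hv => ((atF10 ⟨h, fun e => absurd e (by decide)⟩)).atN))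

theorem segF0_1 {x : ℝ} (hx : ((67108864 : ℕ) : ℝ) / S ≤ x) (hx' : x ≤ (((67108864 : ℕ) : ℝ) + (67108864 : ℕ)) / S) :
    SegR (crv PP) tKF tL zrT (esn x) (1 / 2) 0 ccFC 0 (1 : Fin 4) x :=
  SegV.all (cstF0_1.seg (c := fun y => y) ⟨hx, hx'⟩ (fun y h hv => rng_0 h) (fun _ _ _ => rfl) rfl rfl
      (fun y h hv => ((atF10 ⟨h, fun e => absurd e (by decide)⟩)).atN)
      (fun y h hv => ((atF20 ⟨h, fun e => absurd e (by decide)⟩)).atN))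

theorem segF0_2 {x : ℝ} (hx : ((67108864 : ℕ) : ℝ) / S ≤ x) (hx' : x ≤ (((67108864 : ℕ) : ℝ) + (67108864 : ℕ)) / S) :
    SegR (crv PP) tKF tL zrT (esn x) (1 / 2) 0 ccFC 0 (2 : Fin 4) x :=
  SegV.all (cstF0_2.seg (c := fun y => y) ⟨hx, hx'⟩ (fun y h hv => rng_0 h) (fun _ _ _ => rfl) rfl rfl
      (fun y h hv => ((atF20 ⟨h, fun e => absurd e (by decide)⟩)).atN)
      (fun y h hv => ((atF30 ⟨h, fun e => absurd e (by decide)⟩)).atN))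

theorem segF0_3 {x : ℝ} (hx : ((67108864 : ℕ) : ℝ) / S ≤ x) (hx' : x ≤ (((67108864 : ℕ) : ℝ) + (67108864 : ℕ)) / S) :
    SegR (crv PP) tKF tL zrT (esn x) (1 / 2) 0 ccFC 0 (3 : Fin 4) x :=
  SegV.all (cstF0_3.seg (c := fun y => y) ⟨hx, hx'⟩ (fun y h hv => rng_0 h) (fun _ _ _ => rfl) rfl rfl
      (fun y h hv => ((atF30 ⟨h, fun e => absurd e (by decide)⟩)).atN)
      (fun y h hv => ((atF40 ⟨h, fun e => absurd e (by decide)⟩)).atN))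

theorem segF1_0 {x : ℝ} (hx : ((67108864 : ℕ) : ℝ) / S ≤ x) (hx' : x ≤ (((67108864 : ℕ) : ℝ) + (67108864 : ℕ)) / S) :
    SegR (crv PP) tKF tL zrT (esn x) (1 / 2) 0 ccFC 1 (0 : Fin 4) x :=
  SegV.all (cstF1_0.seg (c := fun y => y) ⟨hx, hx'⟩ (fun y h hv => rng_1 h) (fun _ _ _ => rfl) rfl rfl
      (fun y h hv => ((atF01 ⟨h, fun _ => on_1 h⟩)).atN)
      (fun y h hv => ((atF11 ⟨h, fun e => absurd e (by decide)⟩)).atN))

theorem segF1_1 {x : ℝ} (hx : ((67108864 : ℕ) : ℝ) / S ≤ x) (hx' : x ≤ (((67108864 : ℕ) : ℝ) + (67108864 : ℕ)) / S) :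
    SegR (crv PP) tKF tL zrT (esn x) (1 / 2) 0 ccFC 1 (1 : Fin 4) x :=
  SegV.all (cstF1_1.seg (c := fun y => y) ⟨hx, hx'⟩ (fun y h hv => rng_1 h) (fun _ _ _ => rfl) rfl rfl
      (fun y h hv => ((atF11 ⟨h, fun e => absurd e (by decide)⟩)).atN)
      (fun y h hv => ((atF21 ⟨h, fun e => absurd e (by decide)⟩)).atN))

theorem segF1_2 {x : ℝ} (hx : ((67108864 : ℕ) : ℝ) / S ≤ x) (hx' : x ≤ (((67108864 : ℕ) : ℝ) + (67108864 : ℕ)) / S) :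
    SegR (crv PP) tKF tL zrT (esn x) (1 / 2) 0 ccFC 1 (2 : Fin 4) x :=
  SegV.all (cstF1_2.seg (c := fun y => y) ⟨hx, hx'⟩ (fun y h hv => rng_1 h) (fun _ _ _ => rfl) rfl rfl
      (fun y h hv => ((atF21 ⟨h, fun e => absurd e (by decide)⟩)).atN)
      (fun y h hv => ((atF31 ⟨h, fun e => absurd e (by decide)⟩)).atN))

theorem segF1_3 {x : ℝ} (hx : ((67108864 : ℕ) : ℝ) / S ≤ x) (hx' : x ≤ (((67108864 : ℕ) : ℝ) + (67108864 : ℕ)) / S) :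
    SegR (crv PP) tKF tL zrT (esn x) (1 / 2) 0 ccFC 1 (3 : Fin 4) x :=
  SegV.all (cstF1_3.seg (c := fun y => y) ⟨hx, hx'⟩ (fun y h hv => rng_1 h) (fun _ _ _ => rfl) rfl rfl
      (fun y h hv => ((atF31 ⟨h, fun e => absurd e (by decide)⟩)).atN)
      (fun y h hv => ((atF41 ⟨h, fun e => absurd e (by decide)⟩)).atN))

theorem segF2_0 {x : ℝ} (hx : ((67108864 : ℕ) : ℝ) / S ≤ x) (hx' : x ≤ (((67108864 : ℕ) : ℝ) + (67108864 : ℕ)) / S) :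
    SegR (crv PP) tKF tL zrT (esn x) (1 / 2) 0 ccFC 2 (0 : Fin 4) x :=
  SegV.join (cstF2a_0.seg (c := c1n) ⟨hx, hx'⟩ (fun y h hv => rng_2a h) (fun y h hv => yag_v h.nn hv) rfl rfl
      (fun y h hv => ((atF02 ⟨h, fun _ => hv⟩)).atN)
      (fun y h hv => ((atF12a ⟨h, fun e => absurd e (by decide)⟩ hv)).atN))
    (cstF2b_0.seg (c := fun y => y) ⟨hx, hx'⟩ (fun y h hv => rng_2b h hv) (fun _ _ _ => rfl) rfl rfl
      (fun y h hv => atN_off (pinKF hx hx') (pinL hx hx') (.inr rfl) h hv)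
      (fun y h hv => ((atF12b ⟨h, fun e => absurd e (by decide)⟩ hv)).atN))

theorem segF2_1 {x : ℝ} (hx : ((67108864 : ℕ) : ℝ) / S ≤ x) (hx' : x ≤ (((67108864 : ℕ) : ℝ) + (67108864 : ℕ)) / S) :
    SegR (crv PP) tKF tL zrT (esn x) (1 / 2) 0 ccFC 2 (1 : Fin 4) x :=
  SegV.join (cstF2a_1.seg (c := c1n) ⟨hx, hx'⟩ (fun y h hv => rng_2a h) (fun y h hv => yag_v h.nn hv) rfl rfl
      (fun y h hv => ((atF12a ⟨h, fun e => absurd e (by decide)⟩ hv)).atN)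
      (fun y h hv => ((atF22a ⟨h, fun e => absurd e (by decide)⟩ hv)).atN))
    (cstF2b_1.seg (c := fun y => y) ⟨hx, hx'⟩ (fun y h hv => rng_2b h hv) (fun _ _ _ => rfl) rfl rfl
      (fun y h hv => ((atF12b ⟨h, fun e => absurd e (by decide)⟩ hv)).atN)
      (fun y h hv => ((atF22b ⟨h, fun e => absurd e (by decide)⟩ hv)).atN))

theorem segF2_2 {x : ℝ} (hx : ((67108864 : ℕ) : ℝ) / S ≤ x) (hx' : x ≤ (((67108864 : ℕ) : ℝ) + (67108864 : ℕ)) / S) :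
    SegR (crv PP) tKF tL zrT (esn x) (1 / 2) 0 ccFC 2 (2 : Fin 4) x :=
  SegV.join (cstF2a_2.seg (c := c1n) ⟨hx, hx'⟩ (fun y h hv => rng_2a h) (fun y h hv => yag_v h.nn hv) rfl rfl
      (fun y h hv => ((atF22a ⟨h, fun e => absurd e (by decide)⟩ hv)).atN)
      (fun y h hv => ((atF32 ⟨h, fun e => absurd e (by decide)⟩)).atNc (yag_v h.nn hv)))
    (cstF2b_2.seg (c := fun y => y) ⟨hx, hx'⟩ (fun y h hv => rng_2b h hv) (fun _ _ _ => rfl) rfl rfl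
      (fun y h hv => ((atF22b ⟨h, fun e => absurd e (by decide)⟩ hv)).atN)
      (fun y h hv => ((atF32 ⟨h, fun e => absurd e (by decide)⟩)).atN))

theorem segF2_3 {x : ℝ} (hx : ((67108864 : ℕ) : ℝ) / S ≤ x) (hx' : x ≤ (((67108864 : ℕ) : ℝ) + (67108864 : ℕ)) / S) :
    SegR (crv PP) tKF tL zrT (esn x) (1 / 2) 0 ccFC 2 (3 : Fin 4) x :=
  SegV.join (cstF2a_3.seg (c := c1n) ⟨hx, hx'⟩ (fun y h hv => rng_2a h) (fun y h hv => yag_v h.nn hv) rfl rfl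
      (fun y h hv => ((atF32 ⟨h, fun e => absurd e (by decide)⟩)).atNc (yag_v h.nn hv))
      (fun y h hv => ((atF42 ⟨h, fun e => absurd e (by decide)⟩)).atNc (yag_v h.nn hv)))
    (cstF2b_3.seg (c := fun y => y) ⟨hx, hx'⟩ (fun y h hv => rng_2b h hv) (fun _ _ _ => rfl) rfl rfl
      (fun y h hv => ((atF32 ⟨h, fun e => absurd e (by decide)⟩)).atN)
      (fun y h hv => ((atF42 ⟨h, fun e => absurd e (by decide)⟩)).atN))

theorem segF3_0 {x : ℝ} (hx : ((67108864 : ℕ) : ℝ) / S ≤ x) (hx' : x ≤ (((67108864 : ℕ) : ℝ) + (67108864 : ℕ)) / S) :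
    SegR (crv PP) tKF tL zrT (esn x) (1 / 2) 0 ccFC 3 (0 : Fin 4) x :=
  SegV.all (cstF3_0.seg (c := c3n) ⟨hx, hx'⟩ (fun y h hv => rng_3 h) (fun y h hv => ycg_v h.nn h.2) rfl rfl
      (fun y h hv => atN_off (pinKF hx hx') (pinL hx hx') (.inr rfl) h (off_3 h))
      (fun y h hv => ((atF13 ⟨h, fun e => absurd e (by decide)⟩)).atNc (ycg_v h.nn h.2)))

theorem segF3_1 {x : ℝ} (hx : ((67108864 : ℕ) : ℝ) / S ≤ x) (hx' : x ≤ (((67108864 : ℕ) : ℝ) + (67108864 : ℕ)) / S) :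
    SegR (crv PP) tKF tL zrT (esn x) (1 / 2) 0 ccFC 3 (1 : Fin 4) x :=
  SegV.all (cstF3_1.seg (c := c3n) ⟨hx, hx'⟩ (fun y h hv => rng_3 h) (fun y h hv => ycg_v h.nn h.2) rfl rfl
      (fun y h hv => ((atF13 ⟨h, fun e => absurd e (by decide)⟩)).atNc (ycg_v h.nn h.2))
      (fun y h hv => ((atF23 ⟨h, fun e => absurd e (by decide)⟩)).atNc (ycg_v h.nn h.2)))

theorem segF3_2 {x : ℝ} (hx : ((67108864 : ℕ) : ℝ) / S ≤ x) (hx' : x ≤ (((67108864 : ℕ) : ℝ) + (67108864 : ℕ)) / S) :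
    SegR (crv PP) tKF tL zrT (esn x) (1 / 2) 0 ccFC 3 (2 : Fin 4) x :=
  SegV.all (cstF3_2.seg (c := c3n) ⟨hx, hx'⟩ (fun y h hv => rng_3 h) (fun y h hv => ycg_v h.nn h.2) rfl rfl
      (fun y h hv => ((atF23 ⟨h, fun e => absurd e (by decide)⟩)).atNc (ycg_v h.nn h.2))
      (fun y h hv => ((atF33 ⟨h, fun e => absurd e (by decide)⟩)).atN))

theorem segF3_3 {x : ℝ} (hx : ((67108864 : ℕ) : ℝ) / S ≤ x) (hx' : x ≤ (((67108864 : ℕ) : ℝ) + (67108864 : ℕ)) / S) :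
    SegR (crv PP) tKF tL zrT (esn x) (1 / 2) 0 ccFC 3 (3 : Fin 4) x :=
  SegV.all (cstF3_3.seg (c := c3n) ⟨hx, hx'⟩ (fun y h hv => rng_3 h) (fun y h hv => ycg_v h.nn h.2) rfl rfl
      (fun y h hv => ((atF33 ⟨h, fun e => absurd e (by decide)⟩)).atN)
      (fun y h hv => ((atF43 ⟨h, fun e => absurd e (by decide)⟩)).atN))

theorem uniF0 {x : ℝ} (hx : ((67108864 : ℕ) : ℝ) / S ≤ x) (hx' : x ≤ (((67108864 : ℕ) : ℝ) + (67108864 : ℕ)) / S) :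
    UniR (crv PP) tKF tL zrT (esn x) (1 / 2) 0 ccFU 0 x :=
  cstFU0_0.uni (c := fun y => y) ⟨hx, hx'⟩ (fun y h hv => rng_0 h) (fun _ _ _ => rfl) rfl rfl
    (fun y h hv => ((atF00 ⟨h, fun _ => on_0 h⟩)).atN)

theorem uniF1 {x : ℝ} (hx : ((67108864 : ℕ) : ℝ) / S ≤ x) (hx' : x ≤ (((67108864 : ℕ) : ℝ) + (67108864 : ℕ)) / S) :
    UniR (crv PP) tKF tL zrT (esn x) (1 / 2) 0 ccFU 1 x :=
  cstFU1_0.uni (c := fun y => y) ⟨hx, hx'⟩ (fun y h hv => rng_1 h) (fun _ _ _ => rfl) rfl rfl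
    (fun y h hv => ((atF01 ⟨h, fun _ => on_1 h⟩)).atN)

theorem uniF2 {x : ℝ} (hx : ((67108864 : ℕ) : ℝ) / S ≤ x) (hx' : x ≤ (((67108864 : ℕ) : ℝ) + (67108864 : ℕ)) / S) :
    UniR (crv PP) tKF tL zrT (esn x) (1 / 2) 0 ccFU 2 x :=
  cstFU2_0.uni (c := c1n) ⟨hx, hx'⟩ (fun y h hv => rng_2a h) (fun y h hv => yag_v h.nn hv) rfl rfl
    (fun y h hv => ((atF02 ⟨h, fun _ => hv⟩)).atN)

theorem segF {x : ℝ} (hx : ((67108864 : ℕ) : ℝ) / S ≤ x) (hx' : x ≤ (((67108864 : ℕ) : ℝ) + (67108864 : ℕ)) / S) : ∀ a, a < 4 → ∀ i : Fin 4,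
    SegR (crv PP) tKF tL zrT (esn x) (1 / 2) 0 ccFC a i x := by
  intro a ha i
  match a, ha with
  | 0, _ => exact match i with
    | 0 => segF0_0 hx hx'
    | 1 => segF0_1 hx hx'
    | 2 => segF0_2 hx hx'
    | 3 => segF0_3 hx hx'
  | 1, _ => exact match i with
    | 0 => segF1_0 hx hx'
    | 1 => segF1_1 hx hx'
    | 2 => segF1_2 hx hx'
    | 3 => segF1_3 hx hx'
  | 2, _ => exact match i with
    | 0 => segF2_0 hx hx'
    | 1 => segF2_1 hx hx'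
    | 2 => segF2_2 hx hx'
    | 3 => segF2_3 hx hx'
  | 3, _ => exact match i with
    | 0 => segF3_0 hx hx'
    | 1 => segF3_1 hx hx'
    | 2 => segF3_2 hx hx'
    | 3 => segF3_3 hx hx'

theorem uniF {x : ℝ} (hx : ((67108864 : ℕ) : ℝ) / S ≤ x) (hx' : x ≤ (((67108864 : ℕ) : ℝ) + (67108864 : ℕ)) / S) : ∀ a, a < 3 → UniR (crv PP) tKF tL zrT (esn x) (1 / 2) 0 ccFU a x := by
  intro a ha
  match a, ha with
  | 0, _ => exact uniF0 hx hx'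
  | 1, _ => exact uniF1 hx hx'
  | 2, _ => exact uniF2 hx hx'

theorem cstN0_0 : CertC 0 536870912 67108864 67108864 (CN.nd ndN0q0 zrG) (CN.nd ndN1q0 zrG) idf esF (muF 3) zrF 0 ccNC :=
  ⟨T.a (T.l 16) (T.l 48), by decide +kernel⟩

theorem cstN0_1 : CertC 0 536870912 67108864 67108864 (CN.nd ndN1q0 zrG) (CN.nd ndN2q0 zrG) idf esF (muF 3) zrF 0 ccNC :=
  ⟨T.a (T.l 16) (T.l 16), by decide +kernel⟩

theorem cstN0_2 : CertC 0 536870912 67108864 67108864 (CN.nd ndN2q0 zrG) (CN.nd ndN3q0 zrG) idf esF (muF 3) zrF 0 ccNC :=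
  ⟨T.a (T.l 16) (T.l 16), by decide +kernel⟩

theorem cstN0_3 : CertC 0 536870912 67108864 67108864 (CN.nd ndN3q0 zrG) (CN.nd ndN4q0 zrG) idf esF (muF 3) zrF 0 ccNC :=
  ⟨T.l 48, by decide +kernel⟩

theorem cstN1_0 : CertC 536870912 536870912 67108864 67108864 (CN.nd ndN0q1 zrG) (CN.nd ndN1q1 zrG) idf esF (muF 3) zrF 1 ccNC :=
  ⟨T.a (T.l 48) (T.l 208), by decide +kernel⟩

theorem cstN1_1 : CertC 536870912 536870912 67108864 67108864 (CN.nd ndN1q1 zrG) (CN.nd ndN2q1 zrG) idf esF (muF 3) zrF 1 ccNC :=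
  ⟨T.a (T.l 48) (T.a (T.l 48) (T.a (T.l 48) (T.a (T.l 48) (T.l 48)))), by decide +kernel⟩

theorem cstN1_2 : CertC 536870912 536870912 67108864 67108864 (CN.nd ndN2q1 zrG) (CN.nd ndN3q1 zrG) idf esF (muF 3) zrF 1 ccNC :=
  ⟨T.a (T.l 48) (T.a (T.l 48) (T.a (T.l 48) (T.a (T.l 48) (T.l 48)))), by decide +kernel⟩

theorem cstN1_3 : CertC 536870912 536870912 67108864 67108864 (CN.nd ndN3q1 zrG) (CN.nd ndN4q1 zrG) idf esF (muF 3) zrF 1 ccNC :=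
  ⟨T.l 48, by decide +kernel⟩

theorem cstN2a_0 : CertC 0 536870912 67108864 67108864 (CN.nd ndN0q2 zrG) (CN.nd ndN1q2a zrG) yag esF (muF 3) zrF 2 ccNC :=
  ⟨T.a (T.a (T.a (T.l 208) (T.l 208)) (T.l 208)) (T.l 208), by decide +kernel⟩

theorem cstN2a_1 : CertC 0 536870912 67108864 67108864 (CN.nd ndN1q2a zrG) (CN.nd ndN2q2a zrG) yag esF (muF 3) zrF 2 ccNC :=
  ⟨T.a (T.l 112) (T.a (T.l 80) (T.a (T.l 80) (T.l 48))), by decide +kernel⟩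

theorem cstN2a_2 : CertC 0 536870912 67108864 67108864 (CN.nd ndN2q2a zrG) (CN.ndc ndN3q2 zrG yag) yag esF (muF 3) zrF 2 ccNC :=
  ⟨T.a (T.l 80) (T.a (T.l 80) (T.a (T.l 80) (T.l 48))), by decide +kernel⟩

theorem cstN2a_3 : CertC 0 536870912 67108864 67108864 (CN.ndc ndN3q2 zrG yag) (CN.ndc ndN4q2 zrG yag) yag esF (muF 3) zrF 2 ccNC :=
  ⟨T.l 48, by decide +kernel⟩

theorem cstN2b_0 : CertC 1239849684 370763052 67108864 67108864 CN.zr (CN.nd ndN1q2b zrG) idf esF (muF 3) zrF 2 ccNC :=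
  ⟨T.l 208, by decide +kernel⟩

theorem cstN2b_1 : CertC 1239849684 370763052 67108864 67108864 (CN.nd ndN1q2b zrG) (CN.nd ndN2q2b zrG) idf esF (muF 3) zrF 2 ccNC :=
  ⟨T.l 112, by decide +kernel⟩

theorem cstN2b_2 : CertC 1239849684 370763052 67108864 67108864 (CN.nd ndN2q2b zrG) (CN.nd ndN3q2 zrG) idf esF (muF 3) zrF 2 ccNC :=
  ⟨T.l 112, by decide +kernel⟩

theorem cstN2b_3 : CertC 1239849684 370763052 67108864 67108864 (CN.nd ndN3q2 zrG) (CN.nd ndN4q2 zrG) idf esF (muF 3) zrF 2 ccNC :=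
  ⟨T.l 112, by decide +kernel⟩

theorem cstN3_0 : CertC 0 1230186008 67108864 67108864 CN.zr (CN.ndc ndN1q3 zrG ycg) ycg esF (muF 3) zrF 3 ccNC :=
  ⟨T.a (T.l 144) (T.a (T.l 144) (T.l 144)), by decide +kernel⟩

theorem cstN3_1 : CertC 0 1230186008 67108864 67108864 (CN.ndc ndN1q3 zrG ycg) (CN.ndc ndN2q3 zrG ycg) ycg esF (muF 3) zrF 3 ccNC :=
  ⟨T.a (T.l 144) (T.a (T.l 144) (T.a (T.l 144) (T.l 144))), by decide +kernel⟩

theorem cstN3_2 : CertC 0 1230186008 67108864 67108864 (CN.ndc ndN2q3 zrG ycg) (CN.nd ndN3q3 zrG) ycg esF (muF 3) zrF 3 ccNC :=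
  ⟨T.a (T.l 144) (T.a (T.l 144) (T.a (T.l 144) (T.l 144))), by decide +kernel⟩

theorem cstN3_3 : CertC 0 1230186008 67108864 67108864 (CN.nd ndN3q3 zrG) (CN.nd ndN4q3 zrG) ycg esF (muF 3) zrF 3 ccNC :=
  ⟨T.a (T.a (T.l 144) (T.l 144)) (T.a (T.l 144) (T.l 144)), by decide +kernel⟩

theorem cstNU0_0 : CertC 0 536870912 67108864 67108864 (CN.nd ndN0q0 zrG) (CN.nd ndN0q0 zrG) idf esF (muF 3) zrF 0 ccNU :=
  ⟨T.a (T.l 16) (T.l 16), by decide +kernel⟩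

theorem cstNU1_0 : CertC 536870912 536870912 67108864 67108864 (CN.nd ndN0q1 zrG) (CN.nd ndN0q1 zrG) idf esF (muF 3) zrF 1 ccNU :=
  ⟨T.a (T.a (T.l 16) (T.l 80)) (T.l 80), by decide +kernel⟩

theorem cstNU2_0 : CertC 0 536870912 67108864 67108864 (CN.nd ndN0q2 zrG) (CN.nd ndN0q2 zrG) yag esF (muF 3) zrF 2 ccNU :=
  ⟨T.a (T.a (T.l 80) (T.l 80)) (T.l 80), by decide +kernel⟩

theorem segN0_0 {x : ℝ} (hx : ((67108864 : ℕ) : ℝ) / S ≤ x) (hx' : x ≤ (((67108864 : ℕ) : ℝ) + (67108864 : ℕ)) / S) :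
    SegR (crv PP) tKN tL zrT (esn x) (mun 3 x * ((((3 : ℕ) : ℝ) + x) / 2)) 0 ccNC 0 (0 : Fin 4) x :=
  SegV.all (cstN0_0.seg (c := fun y => y) ⟨hx, hx'⟩ (fun y h hv => rng_0 h) (fun _ _ _ => rfl) rfl rfl
      (fun y h hv => ((atN00 ⟨h, fun _ => on_0 h⟩)).atN)
      (fun y h hv => ((atN10 ⟨h, fun e => absurd e (by decide)⟩)).atN))

theorem segN0_1 {x : ℝ} (hx : ((67108864 : ℕ) : ℝ) / S ≤ x) (hx' : x ≤ (((67108864 : ℕ) : ℝ) + (67108864 : ℕ)) / S) :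
    SegR (crv PP) tKN tL zrT (esn x) (mun 3 x * ((((3 : ℕ) : ℝ) + x) / 2)) 0 ccNC 0 (1 : Fin 4) x :=
  SegV.all (cstN0_1.seg (c := fun y => y) ⟨hx, hx'⟩ (fun y h hv => rng_0 h) (fun _ _ _ => rfl) rfl rfl
      (fun y h hv => ((atN10 ⟨h, fun e => absurd e (by decide)⟩)).atN)
      (fun y h hv => ((atN20 ⟨h, fun e => absurd e (by decide)⟩)).atN))

theorem segN0_2 {x : ℝ} (hx : ((67108864 : ℕ) : ℝ) / S ≤ x) (hx' : x ≤ (((67108864 : ℕ) : ℝ) + (67108864 : ℕ)) / S) :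
    SegR (crv PP) tKN tL zrT (esn x) (mun 3 x * ((((3 : ℕ) : ℝ) + x) / 2)) 0 ccNC 0 (2 : Fin 4) x :=
  SegV.all (cstN0_2.seg (c := fun y => y) ⟨hx, hx'⟩ (fun y h hv => rng_0 h) (fun _ _ _ => rfl) rfl rfl
      (fun y h hv => ((atN20 ⟨h, fun e => absurd e (by decide)⟩)).atN)
      (fun y h hv => ((atN30 ⟨h, fun e => absurd e (by decide)⟩)).atN))

theorem segN0_3 {x : ℝ} (hx : ((67108864 : ℕ) : ℝ) / S ≤ x) (hx' : x ≤ (((67108864 : ℕ) : ℝ) + (67108864 : ℕ)) / S) :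
    SegR (crv PP) tKN tL zrT (esn x) (mun 3 x * ((((3 : ℕ) : ℝ) + x) / 2)) 0 ccNC 0 (3 : Fin 4) x :=
  SegV.all (cstN0_3.seg (c := fun y => y) ⟨hx, hx'⟩ (fun y h hv => rng_0 h) (fun _ _ _ => rfl) rfl rfl
      (fun y h hv => ((atN30 ⟨h, fun e => absurd e (by decide)⟩)).atN)
      (fun y h hv => ((atN40 ⟨h, fun e => absurd e (by decide)⟩)).atN))

theorem segN1_0 {x : ℝ} (hx : ((67108864 : ℕ) : ℝ) / S ≤ x) (hx' : x ≤ (((67108864 : ℕ) : ℝ) + (67108864 : ℕ)) / S) :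
    SegR (crv PP) tKN tL zrT (esn x) (mun 3 x * ((((3 : ℕ) : ℝ) + x) / 2)) 0 ccNC 1 (0 : Fin 4) x :=
  SegV.all (cstN1_0.seg (c := fun y => y) ⟨hx, hx'⟩ (fun y h hv => rng_1 h) (fun _ _ _ => rfl) rfl rfl
      (fun y h hv => ((atN01 ⟨h, fun _ => on_1 h⟩)).atN)
      (fun y h hv => ((atN11 ⟨h, fun e => absurd e (by decide)⟩)).atN))

theorem segN1_1 {x : ℝ} (hx : ((67108864 : ℕ) : ℝ) / S ≤ x) (hx' : x ≤ (((67108864 : ℕ) : ℝ) + (67108864 : ℕ)) / S) :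
    SegR (crv PP) tKN tL zrT (esn x) (mun 3 x * ((((3 : ℕ) : ℝ) + x) / 2)) 0 ccNC 1 (1 : Fin 4) x :=
  SegV.all (cstN1_1.seg (c := fun y => y) ⟨hx, hx'⟩ (fun y h hv => rng_1 h) (fun _ _ _ => rfl) rfl rfl
      (fun y h hv => ((atN11 ⟨h, fun e => absurd e (by decide)⟩)).atN)
      (fun y h hv => ((atN21 ⟨h, fun e => absurd e (by decide)⟩)).atN))

theorem segN1_2 {x : ℝ} (hx : ((67108864 : ℕ) : ℝ) / S ≤ x) (hx' : x ≤ (((67108864 : ℕ) : ℝ) + (67108864 : ℕ)) / S) :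
    SegR (crv PP) tKN tL zrT (esn x) (mun 3 x * ((((3 : ℕ) : ℝ) + x) / 2)) 0 ccNC 1 (2 : Fin 4) x :=
  SegV.all (cstN1_2.seg (c := fun y => y) ⟨hx, hx'⟩ (fun y h hv => rng_1 h) (fun _ _ _ => rfl) rfl rfl
      (fun y h hv => ((atN21 ⟨h, fun e => absurd e (by decide)⟩)).atN)
      (fun y h hv => ((atN31 ⟨h, fun e => absurd e (by decide)⟩)).atN))

theorem segN1_3 {x : ℝ} (hx : ((67108864 : ℕ) : ℝ) / S ≤ x) (hx' : x ≤ (((67108864 : ℕ) : ℝ) + (67108864 : ℕ)) / S) :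
    SegR (crv PP) tKN tL zrT (esn x) (mun 3 x * ((((3 : ℕ) : ℝ) + x) / 2)) 0 ccNC 1 (3 : Fin 4) x :=
  SegV.all (cstN1_3.seg (c := fun y => y) ⟨hx, hx'⟩ (fun y h hv => rng_1 h) (fun _ _ _ => rfl) rfl rfl
      (fun y h hv => ((atN31 ⟨h, fun e => absurd e (by decide)⟩)).atN)
      (fun y h hv => ((atN41 ⟨h, fun e => absurd e (by decide)⟩)).atN))

theorem segN2_0 {x : ℝ} (hx : ((67108864 : ℕ) : ℝ) / S ≤ x) (hx' : x ≤ (((67108864 : ℕ) : ℝ) + (67108864 : ℕ)) / S) :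
    SegR (crv PP) tKN tL zrT (esn x) (mun 3 x * ((((3 : ℕ) : ℝ) + x) / 2)) 0 ccNC 2 (0 : Fin 4) x :=
  SegV.join (cstN2a_0.seg (c := c1n) ⟨hx, hx'⟩ (fun y h hv => rng_2a h) (fun y h hv => yag_v h.nn hv) rfl rfl
      (fun y h hv => ((atN02 ⟨h, fun _ => hv⟩)).atN)
      (fun y h hv => ((atN12a ⟨h, fun e => absurd e (by decide)⟩ hv)).atN))
    (cstN2b_0.seg (c := fun y => y) ⟨hx, hx'⟩ (fun y h hv => rng_2b h hv) (fun _ _ _ => rfl) rfl rfl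
      (fun y h hv => atN_off (pinKN hx hx') (pinL hx hx') (.inr rfl) h hv)
      (fun y h hv => ((atN12b ⟨h, fun e => absurd e (by decide)⟩ hv)).atN))

theorem segN2_1 {x : ℝ} (hx : ((67108864 : ℕ) : ℝ) / S ≤ x) (hx' : x ≤ (((67108864 : ℕ) : ℝ) + (67108864 : ℕ)) / S) :
    SegR (crv PP) tKN tL zrT (esn x) (mun 3 x * ((((3 : ℕ) : ℝ) + x) / 2)) 0 ccNC 2 (1 : Fin 4) x :=
  SegV.join (cstN2a_1.seg (c := c1n) ⟨hx, hx'⟩ (fun y h hv => rng_2a h) (fun y h hv => yag_v h.nn hv) rfl rfl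
      (fun y h hv => ((atN12a ⟨h, fun e => absurd e (by decide)⟩ hv)).atN)
      (fun y h hv => ((atN22a ⟨h, fun e => absurd e (by decide)⟩ hv)).atN))
    (cstN2b_1.seg (c := fun y => y) ⟨hx, hx'⟩ (fun y h hv => rng_2b h hv) (fun _ _ _ => rfl) rfl rfl
      (fun y h hv => ((atN12b ⟨h, fun e => absurd e (by decide)⟩ hv)).atN)
      (fun y h hv => ((atN22b ⟨h, fun e => absurd e (by decide)⟩ hv)).atN))

theorem segN2_2 {x : ℝ} (hx : ((67108864 : ℕ) : ℝ) / S ≤ x) (hx' : x ≤ (((67108864 : ℕ) : ℝ) + (67108864 : ℕ)) / S) :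
    SegR (crv PP) tKN tL zrT (esn x) (mun 3 x * ((((3 : ℕ) : ℝ) + x) / 2)) 0 ccNC 2 (2 : Fin 4) x :=
  SegV.join (cstN2a_2.seg (c := c1n) ⟨hx, hx'⟩ (fun y h hv => rng_2a h) (fun y h hv => yag_v h.nn hv) rfl rfl
      (fun y h hv => ((atN22a ⟨h, fun e => absurd e (by decide)⟩ hv)).atN)
      (fun y h hv => ((atN32 ⟨h, fun e => absurd e (by decide)⟩)).atNc (yag_v h.nn hv)))
    (cstN2b_2.seg (c := fun y => y) ⟨hx, hx'⟩ (fun y h hv => rng_2b h hv) (fun _ _ _ => rfl) rfl rfl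
      (fun y h hv => ((atN22b ⟨h, fun e => absurd e (by decide)⟩ hv)).atN)
      (fun y h hv => ((atN32 ⟨h, fun e => absurd e (by decide)⟩)).atN))

theorem segN2_3 {x : ℝ} (hx : ((67108864 : ℕ) : ℝ) / S ≤ x) (hx' : x ≤ (((67108864 : ℕ) : ℝ) + (67108864 : ℕ)) / S) :
    SegR (crv PP) tKN tL zrT (esn x) (mun 3 x * ((((3 : ℕ) : ℝ) + x) / 2)) 0 ccNC 2 (3 : Fin 4) x :=
  SegV.join (cstN2a_3.seg (c := c1n) ⟨hx, hx'⟩ (fun y h hv => rng_2a h) (fun y h hv => yag_v h.nn hv) rfl rfl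
      (fun y h hv => ((atN32 ⟨h, fun e => absurd e (by decide)⟩)).atNc (yag_v h.nn hv))
      (fun y h hv => ((atN42 ⟨h, fun e => absurd e (by decide)⟩)).atNc (yag_v h.nn hv)))
    (cstN2b_3.seg (c := fun y => y) ⟨hx, hx'⟩ (fun y h hv => rng_2b h hv) (fun _ _ _ => rfl) rfl rfl
      (fun y h hv => ((atN32 ⟨h, fun e => absurd e (by decide)⟩)).atN)
      (fun y h hv => ((atN42 ⟨h, fun e => absurd e (by decide)⟩)).atN))

theorem segN3_0 {x : ℝ} (hx : ((67108864 : ℕ) : ℝ) / S ≤ x) (hx' : x ≤ (((67108864 : ℕ) : ℝ) + (67108864 : ℕ)) / S) :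
    SegR (crv PP) tKN tL zrT (esn x) (mun 3 x * ((((3 : ℕ) : ℝ) + x) / 2)) 0 ccNC 3 (0 : Fin 4) x :=
  SegV.all (cstN3_0.seg (c := c3n) ⟨hx, hx'⟩ (fun y h hv => rng_3 h) (fun y h hv => ycg_v h.nn h.2) rfl rfl
      (fun y h hv => atN_off (pinKN hx hx') (pinL hx hx') (.inr rfl) h (off_3 h))
      (fun y h hv => ((atN13 ⟨h, fun e => absurd e (by decide)⟩)).atNc (ycg_v h.nn h.2)))

theorem segN3_1 {x : ℝ} (hx : ((67108864 : ℕ) : ℝ) / S ≤ x) (hx' : x ≤ (((67108864 : ℕ) : ℝ) + (67108864 : ℕ)) / S) :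
    SegR (crv PP) tKN tL zrT (esn x) (mun 3 x * ((((3 : ℕ) : ℝ) + x) / 2)) 0 ccNC 3 (1 : Fin 4) x :=
  SegV.all (cstN3_1.seg (c := c3n) ⟨hx, hx'⟩ (fun y h hv => rng_3 h) (fun y h hv => ycg_v h.nn h.2) rfl rfl
      (fun y h hv => ((atN13 ⟨h, fun e => absurd e (by decide)⟩)).atNc (ycg_v h.nn h.2))
      (fun y h hv => ((atN23 ⟨h, fun e => absurd e (by decide)⟩)).atNc (ycg_v h.nn h.2)))

theorem segN3_2 {x : ℝ} (hx : ((67108864 : ℕ) : ℝ) / S ≤ x) (hx' : x ≤ (((67108864 : ℕ) : ℝ) + (67108864 : ℕ)) / S) :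
    SegR (crv PP) tKN tL zrT (esn x) (mun 3 x * ((((3 : ℕ) : ℝ) + x) / 2)) 0 ccNC 3 (2 : Fin 4) x :=
  SegV.all (cstN3_2.seg (c := c3n) ⟨hx, hx'⟩ (fun y h hv => rng_3 h) (fun y h hv => ycg_v h.nn h.2) rfl rfl
      (fun y h hv => ((atN23 ⟨h, fun e => absurd e (by decide)⟩)).atNc (ycg_v h.nn h.2))
      (fun y h hv => ((atN33 ⟨h, fun e => absurd e (by decide)⟩)).atN))

theorem segN3_3 {x : ℝ} (hx : ((67108864 : ℕ) : ℝ) / S ≤ x) (hx' : x ≤ (((67108864 : ℕ) : ℝ) + (67108864 : ℕ)) / S) :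
    SegR (crv PP) tKN tL zrT (esn x) (mun 3 x * ((((3 : ℕ) : ℝ) + x) / 2)) 0 ccNC 3 (3 : Fin 4) x :=
  SegV.all (cstN3_3.seg (c := c3n) ⟨hx, hx'⟩ (fun y h hv => rng_3 h) (fun y h hv => ycg_v h.nn h.2) rfl rfl
      (fun y h hv => ((atN33 ⟨h, fun e => absurd e (by decide)⟩)).atN)
      (fun y h hv => ((atN43 ⟨h, fun e => absurd e (by decide)⟩)).atN))

theorem uniN0 {x : ℝ} (hx : ((67108864 : ℕ) : ℝ) / S ≤ x) (hx' : x ≤ (((67108864 : ℕ) : ℝ) + (67108864 : ℕ)) / S) :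
    UniR (crv PP) tKN tL zrT (esn x) (mun 3 x * ((((3 : ℕ) : ℝ) + x) / 2)) 0 ccNU 0 x :=
  cstNU0_0.uni (c := fun y => y) ⟨hx, hx'⟩ (fun y h hv => rng_0 h) (fun _ _ _ => rfl) rfl rfl
    (fun y h hv => ((atN00 ⟨h, fun _ => on_0 h⟩)).atN)

theorem uniN1 {x : ℝ} (hx : ((67108864 : ℕ) : ℝ) / S ≤ x) (hx' : x ≤ (((67108864 : ℕ) : ℝ) + (67108864 : ℕ)) / S) :
    UniR (crv PP) tKN tL zrT (esn x) (mun 3 x * ((((3 : ℕ) : ℝ) + x) / 2)) 0 ccNU 1 x :=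
  cstNU1_0.uni (c := fun y => y) ⟨hx, hx'⟩ (fun y h hv => rng_1 h) (fun _ _ _ => rfl) rfl rfl
    (fun y h hv => ((atN01 ⟨h, fun _ => on_1 h⟩)).atN)

theorem uniN2 {x : ℝ} (hx : ((67108864 : ℕ) : ℝ) / S ≤ x) (hx' : x ≤ (((67108864 : ℕ) : ℝ) + (67108864 : ℕ)) / S) :
    UniR (crv PP) tKN tL zrT (esn x) (mun 3 x * ((((3 : ℕ) : ℝ) + x) / 2)) 0 ccNU 2 x :=
  cstNU2_0.uni (c := c1n) ⟨hx, hx'⟩ (fun y h hv => rng_2a h) (fun y h hv => yag_v h.nn hv) rfl rfl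
    (fun y h hv => ((atN02 ⟨h, fun _ => hv⟩)).atN)

theorem segN {x : ℝ} (hx : ((67108864 : ℕ) : ℝ) / S ≤ x) (hx' : x ≤ (((67108864 : ℕ) : ℝ) + (67108864 : ℕ)) / S) : ∀ a, a < 4 → ∀ i : Fin 4,
    SegR (crv PP) tKN tL zrT (esn x) (mun 3 x * ((((3 : ℕ) : ℝ) + x) / 2)) 0 ccNC a i x := by
  intro a ha i
  match a, ha with
  | 0, _ => exact match i with
    | 0 => segN0_0 hx hx'
    | 1 => segN0_1 hx hx'
    | 2 => segN0_2 hx hx'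
    | 3 => segN0_3 hx hx'
  | 1, _ => exact match i with
    | 0 => segN1_0 hx hx'
    | 1 => segN1_1 hx hx'
    | 2 => segN1_2 hx hx'
    | 3 => segN1_3 hx hx'
  | 2, _ => exact match i with
    | 0 => segN2_0 hx hx'
    | 1 => segN2_1 hx hx'
    | 2 => segN2_2 hx hx'
    | 3 => segN2_3 hx hx'
  | 3, _ => exact match i with
    | 0 => segN3_0 hx hx'
    | 1 => segN3_1 hx hx'
    | 2 => segN3_2 hx hx'
    | 3 => segN3_3 hx hx'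

theorem uniN {x : ℝ} (hx : ((67108864 : ℕ) : ℝ) / S ≤ x) (hx' : x ≤ (((67108864 : ℕ) : ℝ) + (67108864 : ℕ)) / S) : ∀ a, a < 3 → UniR (crv PP) tKN tL zrT (esn x) (mun 3 x * ((((3 : ℕ) : ℝ) + x) / 2)) 0 ccNU a x := by
  intro a ha
  match a, ha with
  | 0, _ => exact uniN0 hx hx'
  | 1, _ => exact uniN1 hx hx'
  | 2, _ => exact uniN2 hx hx'

/-- **The costs of the edges.** -/
theorem costTab {x κ : ℝ} (hx : ((67108864 : ℕ) : ℝ) / S ≤ x) (hx' : x ≤ (((67108864 : ℕ) : ℝ) + (67108864 : ℕ)) / S) (hκ : κ * h0 = ken x) :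
    CostTab (tab PP.cur.nodes (tbl tKF x) (tbl tKN x) (tbl tL x)) 3 κ (h0 * x) (cbv LC.Box.I3_16_1_2.C)
      (cbv LC.Box.I3_16_1_2.U) (cbv LC.Box.I3_16_1_2.C) (cbv LC.Box.I3_16_1_2.U) := by
  have h1 := rng_pos (by norm_num) hx
  have h2 := rng_lt (by norm_num) hx'
  have e := costTab_rows (linkX PP) (pinKF hx hx').linkV (pinKN hx hx').linkV (pinL hx hx').linkV
    PP.first h1 h2 hκ (segF hx hx') (segN hx hx') (uniF hx hx') (uniN hx hx')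
    (okU_sound (by decide +kernel)) (okU_sound (by decide +kernel))
  rwa [ccFC_eq, ccFU_eq, ccNC_eq, ccNU_eq] at e

/-- **The exact count** from the certificates of the triangles and of the floor. -/
theorem good {x κ a : ℝ} (hx : ((67108864 : ℕ) : ℝ) / S ≤ x) (hx' : x ≤ (((67108864 : ℕ) : ℝ) + (67108864 : ℕ)) / S) (hκ : κ * h0 = ken x)
    (h : CertS PP.cur (tbl tKF x) (tbl tKN x) (tbl tL x) 3 a κ (h0 * x))
    (rows : RowOK ((tab PP.cur.nodes (tbl tKF x) (tbl tKN x) (tbl tL x)).flat 3 κ (h0 * x)) 3 (h0 * x)) :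
    Good (h0 * x) :=
  goodS2 LC.Box.I3_16_1_2.certs LC.Box.I3_16_1_2.certs (wallF hx hx') (wallN hx hx') h (costTab hx hx' hκ) rows

end Pool.Agent.Strip051.G.I1_16_1_8.Tab
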