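import Pool.Agent.Strip051.PB.DgE
import Pool.Agent.Strip051.G.I1_16_1_8.Fact

/-! # The corner (1, 1, 2): parameters of the degenerate charts (generated) -/

set_option linter.all false

namespace Pool.Agent.Strip051.G.I1_16_1_8.Tab.DG

open Pool.Agent.Strip051.PB Pool.Agent.Strip051.PB.Dg Pool.Agent.StripNear Pool.Agent.Strip051.LC

noncomputable def pFma : Fn1 := ⟨_, _, fun h1 => (enc_norm (enc_add (enc_scale 1014007079 2500000000 (enc_subr 3 32 h1)) (enc_rat _ 2154442211 50000000000)))⟩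
noncomputable def pFmb : Fn1 := ⟨_, _, fun h1 => (enc_norm (enc_subr 5629599 200000000 (enc_neg (enc_scale 41467163 140000000 (enc_subr 3 32 h1)))))⟩
noncomputable def pFmu : Fn1 := ⟨_, _, fun h1 => (mug3.enc h1)⟩
noncomputable def pFnx : Fn1 := ⟨_, _, fun h1 => (enc_norm (enc_add h1 (enc_pnc _ 3)))⟩
noncomputable def pFc0 : Fn1 := ⟨_, _, fun h1 => (enc_pnc _ 1)⟩
noncomputable def pFkc : Fn1 := ⟨_, _, fun h1 => (enc_norm (enc_subr 19436273 50000000 (enc_scale 424693 10000000 (enc_subr 3 32 h1))))⟩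
noncomputable def pFjc : Fn1 := ⟨_, _, fun h1 => (enc_norm (enc_sub (enc_rat _ 67946489 75000000) (enc_scale 44538991 120000000 (enc_subr 3 32 h1))))⟩
noncomputable def pFca : Fn1 := ⟨_, _, fun h1 => (enc_norm (enc_add (enc_scale 7436081 5000000 (enc_subr 3 32 h1)) (enc_rat _ 4154979 100000000)))⟩
noncomputable def pFcb : Fn1 := ⟨_, _, fun h1 => (enc_norm (enc_subr 373143 2000000 (enc_neg (enc_scale 295213 200000 (enc_subr 3 32 h1)))))⟩
noncomputable def pFcc : Fn1 := ⟨_, _, fun h1 => (enc_norm (enc_sub (enc_rat _ 1779 125000) (enc_scale 24201 200000 (enc_subr 3 32 h1))))⟩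
noncomputable def pFsv : Fn1 := ⟨_, _, fun h1 => (enc_norm (enc_subr 1333669 67108864 h1))⟩
noncomputable def pFx11 : Fn1 := ⟨_, _, fun h1 => (cv1m.enc h1)⟩
noncomputable def pFx01 : Fn1 := ⟨_, _, fun h1 => (c1g.enc h1)⟩
noncomputable def pFK11 : Fn2 := ⟨_, _, fun h1 h2 => (kf1q1.enc h1 h2)⟩
noncomputable def pFK01 : Fn2 := ⟨_, _, fun h1 h2 => (kf0q1.enc h1 h2)⟩
noncomputable def pFL11 : Fn2 := ⟨_, _, fun h1 h2 => (l1q1.enc h1 h2)⟩
noncomputable def pFL01 : Fn2 := ⟨_, _, fun h1 h2 => (l0q1.enc h1 h2)⟩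
noncomputable def kFc0 : Fn1 := ⟨_, _, fun h1 => (enc_norm (enc_sub (enc_rat _ 9241757 118643775000000) (enc_scale 736959623 94915020000000 (enc_subr 3 32 h1))))⟩
noncomputable def kFc0g : Fn1 := ⟨_, _, fun h1 => (enc_norm (enc_add (enc_scale 49309 100000 (enc_subr 3 32 h1)) (enc_rat _ 2469 125000)))⟩
noncomputable def kFa0_2 : Fn1 := ⟨_, _, fun h1 => (enc_subr 3 32 h1)⟩
noncomputable def kFa0 : Fn1 := ⟨_, _, fun h1 => (enc_norm (enc_add (enc_mul (enc_norm (enc_sub (enc_rat _ 8152719389 1426060000000000) (enc_scale 2070327 4520000 (kFa0_2.enc h1)))) (enc_norm (kFa0_2.enc h1))) (enc_rat _ 1428360763 1782575000000000)))⟩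
noncomputable def kFa0g : Fn1 := ⟨_, _, fun h1 => (enc_norm (enc_subr 3311893 6250000 (enc_neg (enc_scale 50384577 2500000 (enc_subr 3 32 h1)))))⟩
noncomputable def kFd0_2 : Fn1 := ⟨_, _, fun h1 => (enc_subr 3 32 h1)⟩
noncomputable def kFd0 : Fn1 := ⟨_, _, fun h1 => (enc_norm (enc_add (enc_mul (enc_norm (enc_sub (enc_rat _ 8152719389 1426060000000000) (enc_scale 2070327 4520000 (kFd0_2.enc h1)))) (enc_norm (kFd0_2.enc h1))) (enc_rat _ 1428360763 1782575000000000)))⟩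
noncomputable def kFd0g : Fn1 := ⟨_, _, fun h1 => (enc_norm (enc_subr 3311893 6250000 (enc_neg (enc_scale 50384577 2500000 (enc_subr 3 32 h1)))))⟩
noncomputable def kFe0_2 : Fn1 := ⟨_, _, fun h1 => (enc_subr 3 32 h1)⟩
noncomputable def kFe0 : Fn1 := ⟨_, _, fun h1 => (enc_norm (enc_add (enc_mul (enc_norm (enc_sub (enc_rat _ 8152719389 1426060000000000) (enc_scale 2070327 4520000 (kFe0_2.enc h1)))) (enc_norm (kFe0_2.enc h1))) (enc_rat _ 1428360763 1782575000000000)))⟩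
noncomputable def kFe0g : Fn1 := ⟨_, _, fun h1 => (enc_norm (enc_subr 3311893 6250000 (enc_neg (enc_scale 50384577 2500000 (enc_subr 3 32 h1)))))⟩
noncomputable def cFxs1 : Fn1 := ⟨_, _, fun h1 => (enc_norm (enc_add (enc_scale 2 5 (dgxi.enc h1)) (enc_scale 3 5 (dgws.enc h1))))⟩
noncomputable def cFsB1_5 : Fn2 := ⟨_, _, fun h1 h2 => (enc_subr 3 32 h2)⟩
noncomputable def cFsB1 : Fn2 := ⟨_, _, fun h1 h2 => (enc_norm (enc_case (enc_subr 3 200 h1) (enc_add (enc_scale 7 3750 (cFsB1_5.enc h1 h2)) (enc_rat _ 2197 9375)) (enc_add (enc_add (enc_scale 43 17500 (cFsB1_5.enc h1 h2)) (enc_rat _ 5861 25000)) (enc_mul (enc_norm (enc_subr 7 5000000 (enc_neg (enc_scale 31 3500000 (cFsB1_5.enc h1 h2))))) (enc_inv h1)))))⟩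
noncomputable def cFBs1 : Fn2 := ⟨_, _, fun h1 h2 => (cFsB1.enc h1 h2)⟩
noncomputable def cFsX1_5 : Fn2 := ⟨_, _, fun h1 h2 => (enc_subr 3 32 h2)⟩
noncomputable def cFsX1 : Fn2 := ⟨_, _, fun h1 h2 => (enc_norm (enc_case (enc_subr 3 200 h1) (enc_add (enc_scale 1837 3000 (cFsX1_5.enc h1 h2)) (enc_rat _ 8741 150000)) (enc_add (enc_add (enc_scale 10613 17500 (cFsX1_5.enc h1 h2)) (enc_rat _ 2703 43750)) (enc_mul (enc_norm (enc_subr 737 14000000 (enc_scale 617 7000000 (cFsX1_5.enc h1 h2)))) (enc_inv h1)))))⟩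
noncomputable def cFxs2 : Fn1 := ⟨_, _, fun h1 => (dgws.enc h1)⟩
noncomputable def cFsB2_5 : Fn2 := ⟨_, _, fun h1 h2 => (enc_subr 3 32 h2)⟩
noncomputable def cFsB2 : Fn2 := ⟨_, _, fun h1 h2 => (enc_norm (enc_case (enc_subr 3 200 h1) (enc_subr 4819 75000 (enc_neg (enc_scale 403 7500 (cFsB2_5.enc h1 h2)))) (enc_add (enc_subr 3407171 53125000 (enc_neg (enc_scale 649197 10625000 (cFsB2_5.enc h1 h2)))) (enc_mul (enc_norm (enc_subr 9431 5312500000 (enc_scale 234841 2125000000 (cFsB2_5.enc h1 h2)))) (enc_inv h1)))))⟩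
noncomputable def cFBs2 : Fn2 := ⟨_, _, fun h1 h2 => (cFsB2.enc h1 h2)⟩
noncomputable def cFsX2_5 : Fn2 := ⟨_, _, fun h1 h2 => (enc_subr 3 32 h2)⟩
noncomputable def cFsX2 : Fn2 := ⟨_, _, fun h1 h2 => (enc_norm (enc_case (enc_subr 3 200 h1) (enc_add (enc_scale 4753 7500 (cFsX2_5.enc h1 h2)) (enc_rat _ 771 12500)) (enc_add (enc_add (enc_mul (enc_norm (enc_sub (enc_rat _ 22666921 31875000) (enc_scale 2657 31875 (cFsX2_5.enc h1 h2)))) (enc_norm (cFsX2_5.enc h1 h2))) (enc_rat _ 559343 7968750)) (enc_mul (enc_norm (enc_subr 135661 1062500000 (enc_mul (enc_norm (enc_subr 2466671 2125000000 (enc_scale 2657 2125000 (cFsX2_5.enc h1 h2)))) (enc_norm (cFsX2_5.enc h1 h2))))) (enc_inv h1)))))⟩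
noncomputable def nFsc2 : Fn1 := ⟨_, _, fun h1 => h1⟩
noncomputable def nFBv2 : Fn1 := ⟨_, _, fun h1 => (enc_norm (enc_sub (enc_rat _ 4270173 2000000) (enc_scale 93 250000 (enc_subr 3 32 h1))))⟩
noncomputable def nFBm2 : Fn1 := ⟨_, _, fun h1 => (enc_norm (enc_sub (enc_rat _ 1938809 150000) (enc_scale 11 3750 (enc_subr 3 32 h1))))⟩
noncomputable def nFXv2 : Fn1 := ⟨_, _, fun h1 => (enc_norm (enc_sub (enc_rat _ 475809 2000000) (enc_scale 267 125000 (enc_subr 3 32 h1))))⟩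
noncomputable def nFXm2 : Fn1 := ⟨_, _, fun h1 => (enc_norm (enc_sub (enc_rat _ 5971 37500) (enc_scale 104 1875 (enc_subr 3 32 h1))))⟩
noncomputable def nFsc3 : Fn1 := ⟨_, _, fun h1 => (enc_norm (enc_add (enc_scale 3 5 h1) (enc_rat _ 2 5)))⟩
noncomputable def nFBv3 : Fn1 := ⟨_, _, fun h1 => (enc_rat _ 1 2)⟩
noncomputable def nFBm3 : Fn1 := ⟨_, _, fun h1 => (enc_norm (enc_subr 156571 75000 (enc_neg (enc_scale 17 15000 (enc_subr 3 32 h1)))))⟩
noncomputable def nFXv3 : Fn1 := ⟨_, _, fun h1 => (enc_norm (enc_add (enc_scale 3268741197 35000000000 (enc_subr 3 32 h1)) (enc_rat _ 660357289 100000000000)))⟩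
noncomputable def nFXm3 : Fn1 := ⟨_, _, fun h1 => (enc_norm (enc_subr 267532711 1500000000 (enc_scale 120981197 525000000 (enc_subr 3 32 h1))))⟩
noncomputable def l12F : List Knk := [⟨3, 200, kFc0, kFc0g⟩]
noncomputable def laF : List Knk := [⟨4, 125, kFa0, kFa0g⟩]
noncomputable def lbF : List Knk := []
noncomputable def l1F : List Knk := [⟨4, 125, kFe0, kFe0g⟩]
noncomputable def l2F : List Knk := [⟨4, 125, kFd0, kFd0g⟩]
noncomputable def cvF1 : CvP := ⟨cFxs1, cFBs1, cFsX1⟩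
noncomputable def cvF2 : CvP := ⟨cFxs2, cFBs2, cFsX2⟩
noncomputable def ndFP2 : NdP := ⟨nFsc2, nFBv2, nFBm2, nFXv2, nFXm2⟩
noncomputable def ndFP3 : NdP := ⟨nFsc3, nFBv3, nFBm3, nFXv3, nFXm3⟩
noncomputable def pF : Pm := ⟨pFma, pFmb, pFmu, pFnx, pFc0, pFkc, pFjc, pFkc, pFjc, pFkc, pFjc, pFca, pFcb, pFcc, pFcc, pFcc, pFsv, l12F, l12F, l12F, laF, lbF, l1F, l2F, cvF1, pFx11, pFx01, pFK11, pFK01, pFL11, pFL01⟩
noncomputable def pNc0 : Fn1 := ⟨_, _, fun h1 => (enc_norm (enc_add (enc_pnc _ 1) (enc_mul (mug3.enc h1) (gug.enc h1))))⟩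
noncomputable def pNk12_3 : Fn1 := ⟨_, _, fun h1 => (enc_subr 3 32 h1)⟩
noncomputable def pNk12 : Fn1 := ⟨_, _, fun h1 => (enc_norm (enc_add (enc_mul (pNc0.enc h1) (enc_norm (enc_subr 19436273 50000000 (enc_scale 424693 10000000 (pNk12_3.enc h1))))) (enc_mul (pFmu.enc h1) (enc_norm (enc_sub (enc_rat _ 444189 5000000) (enc_scale 1891 25000 (pNk12_3.enc h1)))))))⟩
noncomputable def pNj12_3 : Fn1 := ⟨_, _, fun h1 => (enc_subr 3 32 h1)⟩
noncomputable def pNj12 : Fn1 := ⟨_, _, fun h1 => (enc_norm (enc_add (enc_mul (pNc0.enc h1) (enc_norm (enc_sub (enc_rat _ 67946489 75000000) (enc_scale 44538991 120000000 (pNj12_3.enc h1))))) (enc_mul (pFmu.enc h1) (enc_norm (enc_add (enc_scale 12847 125000 (pNj12_3.enc h1)) (enc_rat _ 792507 2500000))))))⟩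
noncomputable def pNk23_3 : Fn1 := ⟨_, _, fun h1 => (enc_subr 3 32 h1)⟩
noncomputable def pNk23 : Fn1 := ⟨_, _, fun h1 => (enc_norm (enc_add (enc_mul (pNc0.enc h1) (enc_norm (enc_subr 19436273 50000000 (enc_scale 424693 10000000 (pNk23_3.enc h1))))) (enc_mul (pFmu.enc h1) (enc_norm (enc_add (enc_scale 6907 500000 (pNk23_3.enc h1)) (enc_rat _ 101197 1000000))))))⟩
noncomputable def pNj23_3 : Fn1 := ⟨_, _, fun h1 => (enc_subr 3 32 h1)⟩
noncomputable def pNj23 : Fn1 := ⟨_, _, fun h1 => (enc_norm (enc_add (enc_mul (pNc0.enc h1) (enc_norm (enc_sub (enc_rat _ 67946489 75000000) (enc_scale 44538991 120000000 (pNj23_3.enc h1))))) (enc_mul (pFmu.enc h1) (enc_norm (enc_subr 40479 200000 (enc_neg (enc_scale 5843 200000 (pNj23_3.enc h1))))))))⟩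
noncomputable def pNk13_3 : Fn1 := ⟨_, _, fun h1 => (enc_subr 3 32 h1)⟩
noncomputable def pNk13 : Fn1 := ⟨_, _, fun h1 => (enc_norm (enc_add (enc_mul (pNc0.enc h1) (enc_norm (enc_subr 19436273 50000000 (enc_scale 424693 10000000 (pNk13_3.enc h1))))) (enc_mul (pFmu.enc h1) (enc_norm (enc_sub (enc_rat _ 11721 2500000) (enc_scale 81 500000 (pNk13_3.enc h1)))))))⟩
noncomputable def pNj13_3 : Fn1 := ⟨_, _, fun h1 => (enc_subr 3 32 h1)⟩
noncomputable def pNj13 : Fn1 := ⟨_, _, fun h1 => (enc_norm (enc_add (enc_mul (pNc0.enc h1) (enc_norm (enc_sub (enc_rat _ 67946489 75000000) (enc_scale 44538991 120000000 (pNj13_3.enc h1))))) (enc_mul (pFmu.enc h1) (enc_norm (enc_sub (enc_rat _ 243177 1000000) (enc_scale 597 50000 (pNj13_3.enc h1)))))))⟩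
noncomputable def pNc12 : Fn1 := ⟨_, _, fun h1 => (enc_norm (enc_mul (pNc0.enc h1) (enc_norm (enc_sub (enc_rat _ 1779 125000) (enc_scale 24201 200000 (enc_subr 3 32 h1))))))⟩
noncomputable def pNc23 : Fn1 := ⟨_, _, fun h1 => (enc_norm (enc_mul (pNc0.enc h1) (enc_norm (enc_sub (enc_rat _ 1779 125000) (enc_scale 24201 200000 (enc_subr 3 32 h1))))))⟩
noncomputable def pNc13 : Fn1 := ⟨_, _, fun h1 => (enc_norm (enc_mul (pNc0.enc h1) (enc_norm (enc_sub (enc_rat _ 1779 125000) (enc_scale 24201 200000 (enc_subr 3 32 h1))))))⟩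
noncomputable def pNK11 : Fn2 := ⟨_, _, fun h1 h2 => (kn1q1.enc h1 h2)⟩
noncomputable def pNK01 : Fn2 := ⟨_, _, fun h1 h2 => (kn0q1.enc h1 h2)⟩
noncomputable def kNc12_0 : Fn1 := ⟨_, _, fun h1 => (enc_norm (enc_mul (pNc0.enc h1) (enc_norm (enc_sub (enc_rat _ 9241757 118643775000000) (enc_scale 736959623 94915020000000 (enc_subr 3 32 h1))))))⟩
noncomputable def kNc12_0g : Fn1 := ⟨_, _, fun h1 => (enc_norm (enc_mul (pNc0.enc h1) (enc_norm (enc_add (enc_scale 49309 100000 (enc_subr 3 32 h1)) (enc_rat _ 2469 125000)))))⟩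
noncomputable def kNc23_0 : Fn1 := ⟨_, _, fun h1 => (enc_norm (enc_mul (pNc0.enc h1) (enc_norm (enc_sub (enc_rat _ 9241757 118643775000000) (enc_scale 736959623 94915020000000 (enc_subr 3 32 h1))))))⟩
noncomputable def kNc23_0g : Fn1 := ⟨_, _, fun h1 => (enc_norm (enc_mul (pNc0.enc h1) (enc_norm (enc_add (enc_scale 49309 100000 (enc_subr 3 32 h1)) (enc_rat _ 2469 125000)))))⟩
noncomputable def kNc13_0 : Fn1 := ⟨_, _, fun h1 => (enc_norm (enc_mul (pNc0.enc h1) (enc_norm (enc_sub (enc_rat _ 9241757 118643775000000) (enc_scale 736959623 94915020000000 (enc_subr 3 32 h1))))))⟩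
noncomputable def kNc13_0g : Fn1 := ⟨_, _, fun h1 => (enc_norm (enc_mul (pNc0.enc h1) (enc_norm (enc_add (enc_scale 49309 100000 (enc_subr 3 32 h1)) (enc_rat _ 2469 125000)))))⟩
noncomputable def cNsD1 : Fn2 := ⟨_, _, fun h1 h2 => (enc_norm (enc_subr 202393 1000000 (enc_neg (enc_scale 1069 50000 (enc_subr 3 32 h2)))))⟩
noncomputable def cNBs1 : Fn2 := ⟨_, _, fun h1 h2 => (enc_norm (enc_add (enc_mul (pNc0.enc h2) (cFsB1.enc h1 h2)) (enc_mul (pFmu.enc h2) (cNsD1.enc h1 h2))))⟩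
noncomputable def cNsD2 : Fn2 := ⟨_, _, fun h1 h2 => (enc_norm (enc_add (enc_scale 474877 7812500 (enc_subr 3 32 h2)) (enc_rat _ 16071141 156250000)))⟩
noncomputable def cNBs2 : Fn2 := ⟨_, _, fun h1 h2 => (enc_norm (enc_add (enc_mul (pNc0.enc h2) (cFsB2.enc h1 h2)) (enc_mul (pFmu.enc h2) (cNsD2.enc h1 h2))))⟩
noncomputable def nNBv2_3 : Fn1 := ⟨_, _, fun h1 => (enc_subr 3 32 h1)⟩
noncomputable def nNBv2 : Fn1 := ⟨_, _, fun h1 => (enc_norm (enc_add (enc_mul (pNc0.enc h1) (enc_norm (enc_sub (enc_rat _ 4270173 2000000) (enc_scale 93 250000 (nNBv2_3.enc h1))))) (enc_mul (pFmu.enc h1) (enc_norm (enc_subr 25820047 5000000 (enc_neg (enc_scale 63 1000000 (nNBv2_3.enc h1))))))))⟩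
noncomputable def nNBm2_3 : Fn1 := ⟨_, _, fun h1 => (enc_subr 3 32 h1)⟩
noncomputable def nNBm2 : Fn1 := ⟨_, _, fun h1 => (enc_norm (enc_add (enc_mul (pNc0.enc h1) (enc_norm (enc_sub (enc_rat _ 1938809 150000) (enc_scale 11 3750 (nNBm2_3.enc h1))))) (enc_mul (pFmu.enc h1) (enc_norm (enc_subr 1976859 250000 (enc_neg (enc_scale 29 100000 (nNBm2_3.enc h1))))))))⟩
noncomputable def nNBv3 : Fn1 := ⟨_, _, fun h1 => (enc_half (pNc0.enc h1))⟩
noncomputable def nNBm3_3 : Fn1 := ⟨_, _, fun h1 => (enc_subr 3 32 h1)⟩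
noncomputable def nNBm3 : Fn1 := ⟨_, _, fun h1 => (enc_norm (enc_add (enc_mul (pNc0.enc h1) (enc_norm (enc_subr 156571 75000 (enc_neg (enc_scale 17 15000 (nNBm3_3.enc h1)))))) (enc_mul (pFmu.enc h1) (enc_norm (enc_subr 5076543 1000000 (enc_neg (enc_scale 1 5000 (nNBm3_3.enc h1))))))))⟩
noncomputable def l12N : List Knk := [⟨3, 200, kNc12_0, kNc12_0g⟩]
noncomputable def l23N : List Knk := [⟨3, 200, kNc23_0, kNc23_0g⟩]
noncomputable def l13N : List Knk := [⟨3, 200, kNc13_0, kNc13_0g⟩]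
noncomputable def cvN1 : CvP := ⟨cFxs1, cNBs1, cFsX1⟩
noncomputable def cvN2 : CvP := ⟨cFxs2, cNBs2, cFsX2⟩
noncomputable def ndNP2 : NdP := ⟨nFsc2, nNBv2, nNBm2, nFXv2, nFXm2⟩
noncomputable def ndNP3 : NdP := ⟨nFsc3, nNBv3, nNBm3, nFXv3, nFXm3⟩
noncomputable def pN : Pm := ⟨pFma, pFmb, pFmu, pFnx, pNc0, pNk12, pNj12, pNk23, pNj23, pNk13, pNj13, pFca, pFcb, pNc12, pNc23, pNc13, pFsv, l12N, l23N, l13N, laF, lbF, l1F, l2F, cvN1, pFx11, pFx01, pNK11, pNK01, pFL11, pFL01⟩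

end Pool.Agent.Strip051.G.I1_16_1_8.Tab.DG
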