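import Pool.Agent.Strip051.G.I1_16_1_8.DgQ

/-! # The corner (1, 1, 2): certificates of the degenerate charts (generated) -/

set_option linter.all false

namespace Pool.Agent.Strip051.G.I1_16_1_8.Tab.DG

open Pool.Agent.Strip051.PB Pool.Agent.Strip051.PB.Dg Pool.Agent.StripNear Pool.Agent.Strip051.LC

theorem cFA2 : ∃ t, chk3 (onCell 0 73693477 0 1073741824 67108864 67108864 (fdA true false pF (dgSL pF ndFP2) (dgSR ndFP3) (thLo (dgSL pF ndFP2) (dgSR ndFP3)))) t 1 1 1 = true :=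
  ⟨(T.b (T.a (T.l 0) (T.l 0)) (T.l 3)), by decide +kernel⟩
theorem ctFA2 {x : ℝ} (hx : ((67108864 : ℕ) : ℝ) / S ≤ x) (hx' : x ≤ (((67108864 : ℕ) : ℝ) + (67108864 : ℕ)) / S) : CtA PP tKF tL true false pF (dgSL pF ndFP2) (dgSR ndFP3) (thLo (dgSL pF ndFP2) (dgSR ndFP3)) 2 1685920 73693477 1073741824 67108864 67108864 x :=
  ⟨sdF2, sdF3, thLo_ok sdF2 sdF3, btF, by norm_num, by norm_num, hx, hx', cFA2⟩
theorem cFA3 : ∃ t, chk3 (onCell 0 73693477 0 1073741824 67108864 67108864 (fdA true true pF (dgSR ndFP3) (dgSC pF) (thUp (dgSR ndFP3) (dgSC pF)))) t 1 1 1 = true :=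
  ⟨(T.a (T.a (T.l 349520) (T.l 349520)) (T.a (T.l 349520) (T.a (T.l 349520) (T.l 349520)))), by decide +kernel⟩
theorem ctFA3 {x : ℝ} (hx : ((67108864 : ℕ) : ℝ) / S ≤ x) (hx' : x ≤ (((67108864 : ℕ) : ℝ) + (67108864 : ℕ)) / S) : CtA PP tKF tL true true pF (dgSR ndFP3) (dgSC pF) (thUp (dgSR ndFP3) (dgSC pF)) 3 1685920 73693477 1073741824 67108864 67108864 x :=
  ⟨sdF3, sdFC, thUp_ok' sdF3 sdFC rfl, tgpF.btU klF, by norm_num, by norm_num, hx, hx', cFA3⟩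
theorem cFB3 : ∃ t, chk3 (onCell 0 73693477 0 2684354560 67108864 67108864 (fdB true false pF (dgSR ndFP3))) t 1 1 1 = true :=
  ⟨(T.b (T.b (T.a (T.l 0) (T.l 0)) (T.l 4)) (T.l 4)), by decide +kernel⟩
theorem ctFB3 {x : ℝ} (hx : ((67108864 : ℕ) : ℝ) / S ≤ x) (hx' : x ≤ (((67108864 : ℕ) : ℝ) + (67108864 : ℕ)) / S) : CtB PP tKF tL true false pF (dgSR ndFP3) 3 0 21338704 1685920 73693477 2684354560 67108864 67108864 x :=
  ⟨sdF3, cvokF1, btF, rfl, by show rh 1 ≤ 1; simp [rh]; try norm_num, svF, by norm_num, by norm_num, hx, hx', cFB3⟩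
theorem cFB4 : ∃ t, chk3 (onCell 0 73693477 0 2684354560 67108864 67108864 (fdB true true pF (dgSC pF))) t 1 1 1 = true :=
  ⟨(T.b (T.b (T.l 2) (T.b (T.l 2) (T.a (T.a (T.l 349520) (T.l 349520)) (T.l 349520)))) (T.b (T.b (T.a (T.a (T.l 174760) (T.l 174760)) (T.l 349520)) (T.l 4)) (T.l 4))), by decide +kernel⟩
theorem ctFB4 {x : ℝ} (hx : ((67108864 : ℕ) : ℝ) / S ≤ x) (hx' : x ≤ (((67108864 : ℕ) : ℝ) + (67108864 : ℕ)) / S) : CtB PP tKF tL true true pF (dgSC pF) 4 0 21338704 1685920 73693477 2684354560 67108864 67108864 x :=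
  ⟨sdFC, cvokF1, tgpF.btN klF, rfl, by show rh 1 ≤ 1; simp [rh]; try norm_num, svF, by norm_num, by norm_num, hx, hx', cFB4⟩
theorem cFP3 : ∃ t, chk3 (onCell 0 73693477 0 1073741824 67108864 67108864 (fdP true false pF (dgSR ndFP3))) t 1 1 1 = true :=
  ⟨(T.b (T.a (T.l 0) (T.l 0)) (T.l 2)), by decide +kernel⟩
theorem ctFP3 {x : ℝ} (hx : ((67108864 : ℕ) : ℝ) / S ≤ x) (hx' : x ≤ (((67108864 : ℕ) : ℝ) + (67108864 : ℕ)) / S) : CtP PP tKF tL true false pF (dgSR ndFP3) 3 0 21338704 1685920 73693477 1073741824 67108864 67108864 x :=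
  ⟨sdF3, p1okF, btF, rfl, svF, by norm_num, by norm_num, hx, hx', cFP3⟩
theorem cFP4 : ∃ t, chk3 (onCell 0 73693477 0 1073741824 67108864 67108864 (fdP true true pF (dgSC pF))) t 1 1 1 = true :=
  ⟨(T.a (T.a (T.l 349520) (T.l 349520)) (T.l 349520)), by decide +kernel⟩
theorem ctFP4 {x : ℝ} (hx : ((67108864 : ℕ) : ℝ) / S ≤ x) (hx' : x ≤ (((67108864 : ℕ) : ℝ) + (67108864 : ℕ)) / S) : CtP PP tKF tL true true pF (dgSC pF) 4 0 21338704 1685920 73693477 1073741824 67108864 67108864 x :=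
  ⟨sdFC, p1okF, tgpF.btN klF, rfl, svF, by norm_num, by norm_num, hx, hx', cFP4⟩
theorem cFC1 : ∃ t, chk3 (onCell 0 73693477 0 1073741824 67108864 67108864 (fdC true pF ndFP2 (thLo (dgSL pF ndFP2) (dgSR ndFP3)) cvF1 (dgSR ndFP3))) t 1 1 1 = true :=
  ⟨(T.b (T.b (T.a (T.l 0) (T.b (T.l 0) (T.l 0))) (T.l 1)) (T.l 1)), by decide +kernel⟩
theorem ctFC1 {x : ℝ} (hx : ((67108864 : ℕ) : ℝ) / S ≤ x) (hx' : x ≤ (((67108864 : ℕ) : ℝ) + (67108864 : ℕ)) / S) : CtC PP tKF tL true pF ndFP2 (thLo (dgSL pF ndFP2) (dgSR ndFP3)) cvF1 (dgSR ndFP3) 1 2 21338704 1685920 73693477 1073741824 67108864 67108864 x :=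
  ⟨nlF2, sdF3, grLo _ _, cvokF1, by show rh 1 ≤ 1; simp [rh]; try norm_num, svF, by norm_num, by norm_num, hx, hx', cFC1⟩
theorem cFC2 : ∃ t, chk3 (onCell 0 73693477 0 1073741824 67108864 67108864 (fdC true pF ndFP2 (thLo (dgSL pF ndFP2) (dgSR ndFP3)) cvF2 (dgSR ndFP3))) t 1 1 1 = true :=
  ⟨(T.b (T.b (T.a (T.l 0) (T.b (T.l 0) (T.l 0))) (T.a (T.a (T.l 0) (T.l 0)) (T.l 0))) (T.l 1)), by decide +kernel⟩
theorem ctFC2 {x : ℝ} (hx : ((67108864 : ℕ) : ℝ) / S ≤ x) (hx' : x ≤ (((67108864 : ℕ) : ℝ) + (67108864 : ℕ)) / S) : CtC PP tKF tL true pF ndFP2 (thLo (dgSL pF ndFP2) (dgSR ndFP3)) cvF2 (dgSR ndFP3) 2 2 21338704 1685920 73693477 1073741824 67108864 67108864 x :=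
  ⟨nlF2, sdF3, grLo _ _, cvokF2, by show rh 2 ≤ 1; simp [rh]; try norm_num, svF, by norm_num, by norm_num, hx, hx', cFC2⟩
theorem cNA2 : ∃ t, chk3 (onCell 0 73693477 0 1073741824 67108864 67108864 (fdA false false pN (dgSL pN ndNP2) (dgSR ndNP3) (thLo (dgSL pN ndNP2) (dgSR ndNP3)))) t 1 1 1 = true :=
  ⟨(T.b (T.a (T.l 0) (T.l 0)) (T.l 3)), by decide +kernel⟩
theorem ctNA2 {x : ℝ} (hx : ((67108864 : ℕ) : ℝ) / S ≤ x) (hx' : x ≤ (((67108864 : ℕ) : ℝ) + (67108864 : ℕ)) / S) : CtA PP tKN tL false false pN (dgSL pN ndNP2) (dgSR ndNP3) (thLo (dgSL pN ndNP2) (dgSR ndNP3)) 2 1685920 73693477 1073741824 67108864 67108864 x :=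
  ⟨sdN2, sdN3, thLo_ok sdN2 sdN3, btF, by norm_num, by norm_num, hx, hx', cNA2⟩
theorem cNA3 : ∃ t, chk3 (onCell 0 73693477 0 1073741824 67108864 67108864 (fdA false false pN (dgSR ndNP3) (dgSC pN) (thUp (dgSR ndNP3) (dgSC pN)))) t 1 1 1 = true :=
  ⟨(T.a (T.a (T.b (T.l 0) (T.b (T.l 0) (T.a (T.l 174760) (T.l 174760)))) (T.b (T.l 0) (T.b (T.l 0) (T.a (T.l 174760) (T.l 174760))))) (T.a (T.b (T.l 0) (T.b (T.l 0) (T.b (T.l 0) (T.l 174760)))) (T.b (T.l 0) (T.b (T.l 0) (T.b (T.l 0) (T.a (T.l 174760) (T.a (T.l 174760) (T.l 174760)))))))), by decide +kernel⟩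
theorem ctNA3 {x : ℝ} (hx : ((67108864 : ℕ) : ℝ) / S ≤ x) (hx' : x ≤ (((67108864 : ℕ) : ℝ) + (67108864 : ℕ)) / S) : CtA PP tKN tL false false pN (dgSR ndNP3) (dgSC pN) (thUp (dgSR ndNP3) (dgSC pN)) 3 1685920 73693477 1073741824 67108864 67108864 x :=
  ⟨sdN3, sdNC, thUp_ok' sdN3 sdNC rfl, btF, by norm_num, by norm_num, hx, hx', cNA3⟩
theorem cNB3 : ∃ t, chk3 (onCell 0 73693477 0 2684354560 67108864 67108864 (fdB false false pN (dgSR ndNP3))) t 1 1 1 = true :=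
  ⟨(T.b (T.b (T.a (T.l 0) (T.l 0)) (T.l 4)) (T.l 4)), by decide +kernel⟩
theorem ctNB3 {x : ℝ} (hx : ((67108864 : ℕ) : ℝ) / S ≤ x) (hx' : x ≤ (((67108864 : ℕ) : ℝ) + (67108864 : ℕ)) / S) : CtB PP tKN tL false false pN (dgSR ndNP3) 3 0 21338704 1685920 73693477 2684354560 67108864 67108864 x :=
  ⟨sdN3, cvokN1, btF, rfl, by show rh 1 ≤ 1; simp [rh]; try norm_num, svN, by norm_num, by norm_num, hx, hx', cNB3⟩
theorem cNB4 : ∃ t, chk3 (onCell 0 73693477 0 2684354560 67108864 67108864 (fdB false false pN (dgSC pN))) t 1 1 1 = true :=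
  ⟨(T.b (T.b (T.l 2) (T.b (T.l 2) (T.a (T.a (T.b (T.b (T.b (T.l 2) (T.b (T.l 2) (T.c (T.b (T.b (T.c (T.c (T.c (T.c (T.c (T.a (T.b (T.l 2) (T.l 10280)) (T.b (T.l 2) (T.l 10280))) (T.a (T.b (T.l 2) (T.l 10280)) (T.b (T.l 2) (T.l 10280)))) (T.c (T.a (T.b (T.l 2) (T.l 10280)) (T.b (T.l 2) (T.l 10280))) (T.a (T.b (T.l 2) (T.l 10280)) (T.b (T.l 2) (T.l 10280))))) (T.c (T.c (T.a (T.b (T.l 2) (T.l 10280)) (T.b (T.l 2) (T.l 10280))) (T.a (T.b (T.l 2) (T.l 10280)) (T.b (T.l 2) (T.l 10280)))) (T.c (T.a (T.b (T.l 2) (T.l 10280)) (T.b (T.l 2) (T.l 10280))) (T.a (T.b (T.l 2) (T.l 10280)) (T.b (T.l 2) (T.l 10280)))))) (T.c (T.c (T.c (T.a (T.b (T.l 2) (T.l 10280)) (T.b (T.l 2) (T.l 10280))) (T.a (T.b (T.l 2) (T.l 10280)) (T.b (T.l 2) (T.l 10280)))) (T.c (T.a (T.b (T.l 2) (T.l 10280)) (T.b (T.l 2) (T.l 10280))) (T.a (T.b (T.l 2) (T.l 10280)) (T.b (T.l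 2) (T.l 10280))))) (T.c (T.c (T.a (T.b (T.l 2) (T.l 10280)) (T.b (T.l 2) (T.l 10280))) (T.a (T.b (T.l 2) (T.l 10280)) (T.b (T.l 2) (T.l 10280)))) (T.c (T.a (T.b (T.l 2) (T.l 10280)) (T.b (T.l 2) (T.l 10280))) (T.a (T.b (T.l 2) (T.l 10280)) (T.b (T.l 2) (T.l 10280))))))) (T.c (T.c (T.c (T.c (T.a (T.b (T.l 2) (T.l 10280)) (T.b (T.l 2) (T.l 10280))) (T.a (T.b (T.l 2) (T.l 10280)) (T.b (T.l 2) (T.l 10280)))) (T.a (T.b (T.l 2) (T.l 10280)) (T.b (T.l 2) (T.l 10280)))) (T.l 10280)) (T.l 10248))) (T.l 174760)) (T.l 174760)) (T.l 174760)))) (T.l 174760)) (T.l 174760)) (T.b (T.b (T.b (T.l 2) (T.b (T.l 2) (T.c (T.b (T.b (T.c (T.c (T.c (T.c (T.c (T.a (T.b (T.l 2) (T.l 10280)) (T.b (T.l 2) (T.l 10280))) (T.a (T.b (T.l 2) (T.l 10280)) (T.b (T.l 2) (T.l 10280)))) (T.c (T.a (T.b (T.l 2) (T.l 10280)) (T.b (T.l 2) (T.l 10280))) (T.a (T.b (T.l 2) (T.l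 10280)) (T.b (T.l 2) (T.l 10280))))) (T.c (T.c (T.a (T.b (T.l 2) (T.l 10280)) (T.b (T.l 2) (T.l 10280))) (T.a (T.b (T.l 2) (T.l 10280)) (T.b (T.l 2) (T.l 10280)))) (T.c (T.a (T.b (T.l 2) (T.l 10280)) (T.b (T.l 2) (T.l 10280))) (T.a (T.b (T.l 2) (T.l 10280)) (T.b (T.l 2) (T.l 10280)))))) (T.c (T.c (T.c (T.a (T.b (T.l 2) (T.l 10280)) (T.b (T.l 2) (T.l 10280))) (T.a (T.b (T.l 2) (T.l 10280)) (T.b (T.l 2) (T.l 10280)))) (T.c (T.a (T.b (T.l 2) (T.l 10280)) (T.b (T.l 2) (T.l 10280))) (T.a (T.b (T.l 2) (T.l 10280)) (T.b (T.l 2) (T.l 10280))))) (T.c (T.c (T.a (T.b (T.l 2) (T.l 10280)) (T.b (T.l 2) (T.l 10280))) (T.a (T.b (T.l 2) (T.l 10280)) (T.b (T.l 2) (T.l 10280)))) (T.c (T.a (T.b (T.l 2) (T.l 10280)) (T.b (T.l 2) (T.l 10280))) (T.a (T.b (T.l 2) (T.l 10280)) (T.b (T.l 2) (T.l 10280))))))) (T.c (T.c (T.c (T.c (T.a (T.b (T.l 2) (T.l 10280))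 (T.b (T.l 2) (T.l 10280))) (T.a (T.b (T.l 2) (T.l 10280)) (T.l 10280))) (T.l 10280)) (T.l 10280)) (T.l 2056))) (T.l 174760)) (T.l 174760)) (T.l 174760)))) (T.l 174760)) (T.l 174760))) (T.a (T.b (T.b (T.b (T.l 2) (T.b (T.l 2) (T.c (T.b (T.b (T.c (T.c (T.c (T.c (T.c (T.a (T.b (T.l 2) (T.l 10280)) (T.b (T.l 2) (T.l 10280))) (T.a (T.b (T.l 2) (T.l 10280)) (T.b (T.l 2) (T.l 10280)))) (T.c (T.a (T.b (T.l 2) (T.l 10280)) (T.b (T.l 2) (T.l 10280))) (T.a (T.b (T.l 2) (T.l 10280)) (T.b (T.l 2) (T.l 10280))))) (T.c (T.c (T.a (T.b (T.l 2) (T.l 10280)) (T.b (T.l 2) (T.l 10280))) (T.a (T.b (T.l 2) (T.l 10280)) (T.b (T.l 2) (T.l 10280)))) (T.c (T.a (T.b (T.l 2) (T.l 10280)) (T.b (T.l 2) (T.l 10280))) (T.a (T.b (T.l 2) (T.l 10280)) (T.b (T.l 2) (T.l 10280)))))) (T.c (T.c (T.c (T.a (T.b (T.l 2) (T.l 10280)) (T.b (T.l 2) (T.l 10280))) (T.a (T.b (T.l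 2) (T.l 10280)) (T.b (T.l 2) (T.l 10280)))) (T.c (T.a (T.b (T.l 2) (T.l 10280)) (T.b (T.l 2) (T.l 10280))) (T.a (T.b (T.l 2) (T.l 10280)) (T.b (T.l 2) (T.l 10280))))) (T.c (T.c (T.a (T.b (T.l 2) (T.l 10280)) (T.b (T.l 2) (T.l 10280))) (T.a (T.b (T.l 2) (T.l 10280)) (T.b (T.l 2) (T.l 10280)))) (T.c (T.a (T.b (T.l 2) (T.l 10280)) (T.b (T.l 2) (T.l 10280))) (T.a (T.b (T.l 2) (T.l 10280)) (T.l 10280)))))) (T.a (T.l 10280) (T.l 10280))) (T.l 174760)) (T.l 174760)) (T.l 174760)))) (T.l 174760)) (T.l 174760)) (T.b (T.b (T.b (T.l 2) (T.b (T.l 2) (T.a (T.c (T.b (T.b (T.b (T.l 2) (T.l 10280)) (T.l 174760)) (T.l 174760)) (T.l 174760)) (T.l 6)))) (T.l 174760)) (T.l 174760)))))) (T.b (T.b (T.a (T.a (T.l 174760) (T.l 174760)) (T.a (T.l 174760) (T.l 5))) (T.l 4)) (T.l 4))), by decide +kernel⟩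
theorem ctNB4 {x : ℝ} (hx : ((67108864 : ℕ) : ℝ) / S ≤ x) (hx' : x ≤ (((67108864 : ℕ) : ℝ) + (67108864 : ℕ)) / S) : CtB PP tKN tL false false pN (dgSC pN) 4 0 21338704 1685920 73693477 2684354560 67108864 67108864 x :=
  ⟨sdNC, cvokN1, btF, rfl, by show rh 1 ≤ 1; simp [rh]; try norm_num, svN, by norm_num, by norm_num, hx, hx', cNB4⟩
theorem cNP3 : ∃ t, chk3 (onCell 0 73693477 0 1073741824 67108864 67108864 (fdP false false pN (dgSR ndNP3))) t 1 1 1 = true :=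
  ⟨(T.b (T.a (T.l 0) (T.l 0)) (T.l 2)), by decide +kernel⟩
theorem ctNP3 {x : ℝ} (hx : ((67108864 : ℕ) : ℝ) / S ≤ x) (hx' : x ≤ (((67108864 : ℕ) : ℝ) + (67108864 : ℕ)) / S) : CtP PP tKN tL false false pN (dgSR ndNP3) 3 0 21338704 1685920 73693477 1073741824 67108864 67108864 x :=
  ⟨sdN3, p1okN, btF, rfl, svN, by norm_num, by norm_num, hx, hx', cNP3⟩
theorem cNP4 : ∃ t, chk3 (onCell 0 73693477 0 1073741824 67108864 67108864 (fdP false false pN (dgSC pN))) t 1 1 1 = true :=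
  ⟨(T.a (T.a (T.b (T.l 0) (T.b (T.l 0) (T.b (T.l 0) (T.b (T.l 0) (T.l 43176))))) (T.b (T.l 0) (T.b (T.l 0) (T.b (T.l 0) (T.a (T.l 174760) (T.l 174760)))))) (T.b (T.l 174760) (T.b (T.l 174760) (T.a (T.b (T.l 0) (T.b (T.l 0) (T.l 43176))) (T.b (T.l 0) (T.b (T.l 174760) (T.a (T.l 43176) (T.l 174760)))))))), by decide +kernel⟩
theorem ctNP4 {x : ℝ} (hx : ((67108864 : ℕ) : ℝ) / S ≤ x) (hx' : x ≤ (((67108864 : ℕ) : ℝ) + (67108864 : ℕ)) / S) : CtP PP tKN tL false false pN (dgSC pN) 4 0 21338704 1685920 73693477 1073741824 67108864 67108864 x :=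
  ⟨sdNC, p1okN, btF, rfl, svN, by norm_num, by norm_num, hx, hx', cNP4⟩
theorem cNC1 : ∃ t, chk3 (onCell 0 73693477 0 1073741824 67108864 67108864 (fdC false pN ndNP2 (thLo (dgSL pN ndNP2) (dgSR ndNP3)) cvN1 (dgSR ndNP3))) t 1 1 1 = true :=
  ⟨(T.b (T.b (T.a (T.l 0) (T.b (T.l 0) (T.l 0))) (T.l 1)) (T.l 1)), by decide +kernel⟩
theorem ctNC1 {x : ℝ} (hx : ((67108864 : ℕ) : ℝ) / S ≤ x) (hx' : x ≤ (((67108864 : ℕ) : ℝ) + (67108864 : ℕ)) / S) : CtC PP tKN tL false pN ndNP2 (thLo (dgSL pN ndNP2) (dgSR ndNP3)) cvN1 (dgSR ndNP3) 1 2 21338704 1685920 73693477 1073741824 67108864 67108864 x :=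
  ⟨nlN2, sdN3, grLo _ _, cvokN1, by show rh 1 ≤ 1; simp [rh]; try norm_num, svN, by norm_num, by norm_num, hx, hx', cNC1⟩
theorem cNC2 : ∃ t, chk3 (onCell 0 73693477 0 1073741824 67108864 67108864 (fdC false pN ndNP2 (thLo (dgSL pN ndNP2) (dgSR ndNP3)) cvN2 (dgSR ndNP3))) t 1 1 1 = true :=
  ⟨(T.b (T.b (T.a (T.l 0) (T.b (T.l 0) (T.l 0))) (T.a (T.a (T.l 0) (T.l 0)) (T.l 0))) (T.l 1)), by decide +kernel⟩
theorem ctNC2 {x : ℝ} (hx : ((67108864 : ℕ) : ℝ) / S ≤ x) (hx' : x ≤ (((67108864 : ℕ) : ℝ) + (67108864 : ℕ)) / S) : CtC PP tKN tL false pN ndNP2 (thLo (dgSL pN ndNP2) (dgSR ndNP3)) cvN2 (dgSR ndNP3) 2 2 21338704 1685920 73693477 1073741824 67108864 67108864 x :=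
  ⟨nlN2, sdN3, grLo _ _, cvokN2, by show rh 2 ≤ 1; simp [rh]; try norm_num, svN, by norm_num, by norm_num, hx, hx', cNC2⟩

end Pool.Agent.Strip051.G.I1_16_1_8.Tab.DG
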