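import Pool.Agent.Strip051.G.I1_16_1_8.Fact
import Pool.Agent.Strip051.G.I1_16_1_8.FcF
import Pool.Agent.Strip051.G.I1_16_1_8.FcN

/-! # The rows at the floor (generated) -/

set_option linter.all false

namespace Pool.Agent.Strip051.G.I1_16_1_8.Tab

open Pool.Agent.Strip051.PB Pool.Agent.StripNear Pool.Agent.StripSquare
  Pool.Agent.Strip051.Sweep Pool.Agent.Strip051.LC Pool.Agent.Strip051.LC.Exact
open Pool.Agent.Strip051.LC.Floor (G En Qn fS GUn kan k3d k3n zen)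

theorem gsg_v (x : ℝ) : gsg.v x = G x := by
  have : gsg.v = c1n := by funext y; simp [gsg, c1n]
  rw [this]
  rfl
theorem c1gG_v (y : ℝ) : c1g.v y = G y := by
  rw [c1g_v]
  rfl
theorem mug_v (x : ℝ) : mug3.v x = mT.v x := by
  show (((2 : ℕ) : ℝ) * gsg.v x + ((3 : ℕ) : ℝ))⁻¹ = (((3 : ℕ) : ℝ) + ((2 : ℕ) : ℝ) * c1n x)⁻¹
  rw [gsg_v, c1n_G, add_comm]
theorem gug_v (x : ℝ) : gug.v x = GUn x := by
  simp only [gug, gsg_v]
  push_cast
  unfold Pool.Agent.Strip051.LC.Floor.GUn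
  ring
theorem kug_v {y : ℝ} : kug.v y = y * k3n y := by
  simp only [kug, kug_2, gsg_v, gug_v]
  push_cast
  unfold Pool.Agent.Strip051.LC.Floor.k3n
  rw [div_eq_mul_inv]
  ring
theorem dlg_v (y x : ℝ) : dlg.v y x = kcg.v (3 / 4 * y - G y / 2) x := by
  simp only [dlg, c1gG_v]
  push_cast
  rfl
theorem clKF0 {y x : ℝ} (h0 : 0 < y) (h1 : y < 1) : kf0q0.v y x = tq 0 y * kan y (dlg.v y x) := by
  have e := kan_lo h0 h1
  have e2 : tq 0 y = y := rfl
  rw [e2, dlg_v]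
  simp only [kf0q0, kf0q0_9, kf0q0_12, c1gG_v]
  push_cast
  unfold kan
  linear_combination e
theorem clKF1 {y x : ℝ} (h0 : 1 / 3 < y) (h1 : y < 1) : kf0q1.v y x = tq 1 y * kan y (dlg.v y x) := by
  have e := kan_hi h0 h1
  have e2 : tq 1 y = y - 1 := rfl
  rw [e2, dlg_v]
  simp only [kf0q1, kf0q1_10, c1gG_v]
  push_cast
  unfold kan
  linear_combination e
theorem clL0 {y x : ℝ} (ha : -(587/1262) < 3 / 4 * y - G y / 2) (hb : 3 / 4 * y - G y / 2 < -(613/1574)) :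
    l0q0.v y x = zen y x (dlg.v y x) := by
  rw [dlg_v]
  simp only [l0q0, txg, txg_4, txg_6, txg_27, txg_63, txg_77, txg_79, txg_82, txg_85, txg_112, txg_153, txg_156, txg_191, txg_229, txg_230, txg_251, txg_292, txg_293, txg_334, c1gG_v]
  push_cast
  unfold zen Pool.Agent.Strip051.LC.Floor.Qn Pool.Agent.Strip051.LC.Floor.En
  repeat (first | rw [if_neg (by linarith)] | rw [if_pos (by linarith)])
  ring1
theorem clL1 {y x : ℝ} (ha : -(587/1262) < 3 / 4 * y - G y / 2) (hb : 3 / 4 * y - G y / 2 < -(613/1574)) :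
    l0q1.v y x = zen y x (dlg.v y x) := by
  rw [dlg_v]
  simp only [l0q1, txg, txg_4, txg_6, txg_27, txg_63, txg_77, txg_79, txg_82, txg_85, txg_112, txg_153, txg_156, txg_191, txg_229, txg_230, txg_251, txg_292, txg_293, txg_334, c1gG_v]
  push_cast
  unfold zen Pool.Agent.Strip051.LC.Floor.Qn Pool.Agent.Strip051.LC.Floor.En
  repeat (first | rw [if_neg (by linarith)] | rw [if_pos (by linarith)])
  ring1
theorem clKP0 {y x : ℝ} (ha : -(587/1262) < 3 / 4 * y - G y / 2) (hb : 3 / 4 * y - G y / 2 < -(613/1574)) :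
    kp0q0.v y x = tq 0 y * k3d y (dlg.v y x) := by
  have e2 : tq 0 y = y := rfl
  rw [e2, dlg_v]
  simp only [kp0q0, kp0q0_3, kp0q0_8, c1gG_v, gug_v, kug_v]
  push_cast
  unfold k3d
  repeat (first | rw [if_neg (by linarith)] | rw [if_pos (by linarith)])
  first | ring1 | (unfold Pool.Agent.Strip051.LC.Floor.k3n; ring)
theorem clKN0 {y x : ℝ} (h0 : 0 < y) (h1 : y < 1) (ha : -(587/1262) < 3 / 4 * y - G y / 2)
    (hb : 3 / 4 * y - G y / 2 < -(613/1574)) : kn0q0.v y x = tq 0 y * ((1 + mT.v x * GUn x) *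
      kan y (dlg.v y x) + mT.v x * k3d y (dlg.v y x)) := by
  have e1 := clKF0 (x := x) h0 h1
  have e2 := clKP0 (x := x) ha hb
  have e : kn0q0.v y x = (((1 : ℕ) : ℝ) + mug3.v x * gug.v x) * kf0q0.v y x + mug3.v x * kp0q0.v y x := rfl
  rw [e, e1, e2, mug_v, gug_v]
  push_cast
  ring
theorem onF00 {x : ℝ} (hx : Rng 67108864 67108864 x) (x0 : 0 < x) (x1 : x < 1) (hμ : 0 ≤ mZ.v x) :
    On PP tKF tL Z0 x (0 : Fin 5) 0 (WallP 1 x (mZ.v x) 0) fun _ => True := by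
  have hm := On.monond (fun y hy => atF00 hy) cF_m00 hx
  have bK : En x * ndF0q0.K.v 0 x = (En x + mZ.v x * Qn x) * (1) := bK_far (corF00 x).2.1
  have g := On.germ0 (fun y hy => atF00 hy) cF_g00 hx x0 x1 hμ (corF00 x).1 bK (corF00 x).2.2
    (hm.sub (by norm_num) (by norm_num)) 1
  have wa := On.wallnd (fun y hy => atF00 hy) cF_w00a hx 1
  have wb := On.wallnd (fun y hy => atF00 hy) cF_w00b hx 1
  have hmt : On PP tKF tL Z0 x (0 : Fin 5) 0 (MonoQ x (mZ.v x) 0) (Rng 51539607 97710506) :=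
    (hm.full 0 (by norm_num) (by norm_num)).imp fun _ _ _ => trivial
  have hf : ∀ y, InQ 0 y → Rng 51539607 97710506 y →
      tKF 0 0 y x = tq 0 y * kan y (dlg.v y x) ∧ tL 0 0 y x = zen y x (dlg.v y x) := by
    intro y hq hr
    have y1 : y < 1 := lt_one_of hq (by norm_num)
    have r1 : ((51539607 : ℕ) : ℝ) / S ≤ y := hr.1
    have r2 : y ≤ ((149250113 : ℕ) : ℝ) / S := by
      have := hr.2
      push_cast at this ⊢
      norm_num at this ⊢
      exact this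
    have y0 : 0 < y := rng_pos hr (by norm_num)
    have pa : (-(587/1262) : ℝ) < 3 / 4 * y - G y / 2 := psi_gt (w := 1072813711) r1 (by norm_num) (by norm_num)
    have pb : 3 / 4 * y - G y / 2 < (-(613/1574) : ℝ) := psi_lt (w := 1065933770) y0.le r2 (by norm_num) (by norm_num)
    have A := atF00 (x := x) (show OnC (0 : Fin 5) 0 y from ⟨hq, fun _ => h0y_lt y1⟩)
    exact ⟨A.K.symm.trans (clKF0 y0 y1), A.L.symm.trans (clL0 pa pb)⟩
  have t := On.tgF (D := dlg) (q := 0) (by norm_num) cF_tl cF_th hx x0 x1 (by norm_num) hf hmt 1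
  exact (((g.join (e := 51539607) wa (by norm_num) (by norm_num)).join (e := 149250113) t (by norm_num) (by norm_num)).join (e := 536870912) wb (by norm_num) (by norm_num)).full 0 (by norm_num) (by norm_num)
theorem onF01 {x : ℝ} (hx : Rng 67108864 67108864 x) (x0 : 0 < x) (x1 : x < 1) (hμ : 0 ≤ mZ.v x) :
    On PP tKF tL Z0 x (0 : Fin 5) 1 (WallP 1 x (mZ.v x) 1) fun _ => True := by
  have hm := On.monond (fun y hy => atF01 hy) cF_m01 hx
  have bK : En x * ndF0q1.K.v 1 x = (En x + mZ.v x * Qn x) * (1 / 2) := bK_far (corF01 x).2.1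
  have g := On.germ1 (fun y hy => atF01 hy) cF_g01 hx x0 x1 hμ (corF01 x).1 bK (corF01 x).2.2
    (hm.sub (by norm_num) (by norm_num)) 1
  have wb := On.wallnd (fun y hy => atF01 hy) cF_w01b hx 1
  exact (wb.join (e := 536870912) g (by norm_num) (by norm_num)).full 1 (by norm_num) (by norm_num)
theorem onF10 {x : ℝ} (hx : Rng 67108864 67108864 x) (x0 : 0 < x) (x1 : x < 1) (hμ : 0 ≤ mZ.v x) :
    On PP tKF tL Z0 x (1 : Fin 5) 0 (WallP 1 x (mZ.v x) 0) fun _ => True := by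
  have bK : En x * ndF1q0.K.v 0 x = (En x + mZ.v x * Qn x) * (1) := bK_far (corF10 x).2.1
  have hm := On.monond (fun y hy => atF10 hy) cF_m10 hx
  have g := On.germ0 (fun y hy => atF10 hy) cF_g10 hx x0 x1 hμ (corF10 x).1 bK (corF10 x).2.2 hm 1
  have w := On.wallnd (fun y hy => atF10 hy) cF_w10 hx 1
  exact (g.join (e := 536870912) w (by norm_num) (by norm_num)).full 0 (by norm_num) (by norm_num)
theorem onF11 {x : ℝ} (hx : Rng 67108864 67108864 x) (x0 : 0 < x) (x1 : x < 1) (hμ : 0 ≤ mZ.v x) :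
    On PP tKF tL Z0 x (1 : Fin 5) 1 (WallP 1 x (mZ.v x) 1) fun _ => True := by
  exact (On.wallnd (fun y hy => atF11 hy) cF_w11 hx 1).full 1 (by norm_num) (by norm_num)
theorem onF20 {x : ℝ} (hx : Rng 67108864 67108864 x) (x0 : 0 < x) (x1 : x < 1) (hμ : 0 ≤ mZ.v x) :
    On PP tKF tL Z0 x (2 : Fin 5) 0 (WallP 1 x (mZ.v x) 0) fun _ => True := by
  have bK : En x * ndF2q0.K.v 0 x = (En x + mZ.v x * Qn x) * (1) := bK_far (corF20 x).2.1
  have hm := On.monond (fun y hy => atF20 hy) cF_m20 hx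
  have g := On.germ0 (fun y hy => atF20 hy) cF_g20 hx x0 x1 hμ (corF20 x).1 bK (corF20 x).2.2 hm 1
  have w := On.wallnd (fun y hy => atF20 hy) cF_w20 hx 1
  exact (g.join (e := 536870912) w (by norm_num) (by norm_num)).full 0 (by norm_num) (by norm_num)
theorem onF21 {x : ℝ} (hx : Rng 67108864 67108864 x) (x0 : 0 < x) (x1 : x < 1) (hμ : 0 ≤ mZ.v x) :
    On PP tKF tL Z0 x (2 : Fin 5) 1 (WallP 1 x (mZ.v x) 1) fun _ => True := by
  exact (On.wallnd (fun y hy => atF21 hy) cF_w21 hx 1).full 1 (by norm_num) (by norm_num)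
theorem onF30 {x : ℝ} (hx : Rng 67108864 67108864 x) (x0 : 0 < x) (x1 : x < 1) (hμ : 0 ≤ mZ.v x) :
    On PP tKF tL Z0 x (3 : Fin 5) 0 (WallP 1 x (mZ.v x) 0) fun _ => True := by
  exact (On.wallnd (fun y hy => atF30 hy) cF_w30 hx 1).full 0 (by norm_num) (by norm_num)
theorem onF31 {x : ℝ} (hx : Rng 67108864 67108864 x) (x0 : 0 < x) (x1 : x < 1) (hμ : 0 ≤ mZ.v x) :
    On PP tKF tL Z0 x (3 : Fin 5) 1 (WallP 1 x (mZ.v x) 1) fun _ => True := by
  exact (On.wallnd (fun y hy => atF31 hy) cF_w31 hx 1).full 1 (by norm_num) (by norm_num)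
theorem onF32 {x : ℝ} (hx : Rng 67108864 67108864 x) : On PP tKF tL Z0 x (3 : Fin 5) 2
    (WallP 1 x (mZ.v x) 2) fun y => h0 * y ≤ 1 ∧ 1 - G y ≤ crv PP (3 : Fin 5) 2 y :=
  On.right2 (fun y hy => atF32 hy) cF_w32 hx 1
theorem onF40 {x : ℝ} (hx : Rng 67108864 67108864 x) (x0 : 0 < x) (x1 : x < 1) (hμ : 0 ≤ mZ.v x) :
    On PP tKF tL Z0 x (4 : Fin 5) 0 (WallP 1 x (mZ.v x) 0) fun _ => True := by
  exact (On.wallnd (fun y hy => atF40 hy) cF_w40 hx 1).full 0 (by norm_num) (by norm_num)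
theorem onF41 {x : ℝ} (hx : Rng 67108864 67108864 x) (x0 : 0 < x) (x1 : x < 1) (hμ : 0 ≤ mZ.v x) :
    On PP tKF tL Z0 x (4 : Fin 5) 1 (WallP 1 x (mZ.v x) 1) fun _ => True := by
  exact (On.wallnd (fun y hy => atF41 hy) cF_w41 hx 1).full 1 (by norm_num) (by norm_num)
theorem onF42 {x : ℝ} (hx : Rng 67108864 67108864 x) : On PP tKF tL Z0 x (4 : Fin 5) 2
    (WallP 1 x (mZ.v x) 2) fun y => h0 * y ≤ 1 ∧ 1 - G y ≤ crv PP (4 : Fin 5) 2 y :=
  On.right2 (fun y hy => atF42 hy) cF_w42 hx 1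
theorem fvF {x : ℝ} (hx : Rng 67108864 67108864 x) : FV PP x (mZ.v x) 1 (fun _ => 0) (tbl tKF x)
    (tbl tL x) (fun _ _ => 0) tKF tL Z0 (fun q => (pcF q).K.v) (fun q => (pcF q).L.v)
    fun _ _ _ _ => 0 :=
  FV.two (rng_pos hx (by norm_num)) (rng_lt hx (by norm_num)) le_rfl (sideF hx.1 hx.2).linkK
    (sideF hx.1 hx.2).linkL
theorem flF {x : ℝ} (hx : Rng 67108864 67108864 x) :
    WallN PP x (0) (fun _ => 0) (tbl tKF x) (tbl tL x) fun _ _ => 0 := by
  have x0 := rng_pos hx (by norm_num)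
  have x1 := rng_lt hx (by norm_num)
  have hμ : 0 ≤ mZ.v x := le_rfl
  have V := fvF hx
  have bK : En x * ndF2q2.K.v 1 x = (En x + mZ.v x * Qn x) * (1 / 2) := bK_far (corF22 x).2.1
  have pK : tKF (2 : Fin 5) 2 1 x = tKF 0 2 1 x := (pinKF hx.1 hx.2).mid _ (le_of_eq_of_le (show PP.ρ (2 : Fin 5) = 1 from rfl) (by norm_num))
  have pL : tL (2 : Fin 5) 2 1 x = tL 0 2 1 x := (pinL hx.1 hx.2).mid _ (le_of_eq_of_le (show PP.ρ (2 : Fin 5) = 1 from rfl) (by norm_num))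
  have hs := V.steepZ (i := (2 : Fin 4)) (jl := (2 : Fin 5)) (jr := (3 : Fin 5)) zero_le_one rfl rfl
    (by decide) (fun y hy => atF22 hy) (fun y hy => atF32 hy) (corF22 x).1 bK (corF22 x).2.2 pK pL
    (pc := pcF2) (fun _ _ => rfl) (fun _ _ => rfl) cF_st cF_sm cF_sw hx (by norm_num) (by norm_num)
    (by norm_num)
  have h := V.wallN (fun j => match j with
    | 0 => onF00 hx x0 x1 hμ
    | 1 => onF10 hx x0 x1 hμ
    | 2 => onF20 hx x0 x1 hμ
    | 3 => onF30 hx x0 x1 hμ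
    | 4 => onF40 hx x0 x1 hμ)
    (fun j => match j with
    | 0 => onF01 hx x0 x1 hμ
    | 1 => onF11 hx x0 x1 hμ
    | 2 => onF21 hx x0 x1 hμ
    | 3 => onF31 hx x0 x1 hμ
    | 4 => onF41 hx x0 x1 hμ)
    (fun j => match j with
    | 0 => fun h => absurd h (not_lt.2 (le_of_eq_of_le (show PP.ρ (0 : Fin 5) = 0 from rfl) (by norm_num)))
    | 1 => fun h => absurd h (not_lt.2 (le_of_eq_of_le (show PP.ρ (1 : Fin 5) = 3/5 from rfl) (by norm_num)))
    | 2 => fun h => absurd h (not_lt.2 (le_of_eq_of_le (show PP.ρ (2 : Fin 5) = 1 from rfl) (by norm_num)))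
    | 3 => fun _ => onF32 hx
    | 4 => fun _ => onF42 hx) hs
  exact h
theorem onN00 {x : ℝ} (hx : Rng 67108864 67108864 x) (x0 : 0 < x) (x1 : x < 1) (hμ : 0 ≤ mT.v x) :
    On PP tKN tL Z0 x (0 : Fin 5) 0 (WallP 1 x (mT.v x) 0) fun _ => True := by
  have hm := On.monond (fun y hy => atN00 hy) cN_m00 hx
  have bK : En x * ndN0q0.K.v 0 x = (En x + mT.v x * Qn x) * (1) := bK_near x0 x1 (mug_v x) (gug_v x) (corN00 x).2.1
  have g := On.germ0 (fun y hy => atN00 hy) cN_g00 hx x0 x1 hμ (corN00 x).1 bK (corN00 x).2.2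
    (hm.sub (by norm_num) (by norm_num)) 1
  have wa := On.wallnd (fun y hy => atN00 hy) cN_w00a hx 1
  have wb := On.wallnd (fun y hy => atN00 hy) cN_w00b hx 1
  have hmt : On PP tKN tL Z0 x (0 : Fin 5) 0 (MonoQ x (mT.v x) 0) (Rng 51539607 97710506) :=
    (hm.full 0 (by norm_num) (by norm_num)).imp fun _ _ _ => trivial
  have hf : ∀ y, InQ 0 y → Rng 51539607 97710506 y →
      tKN 0 0 y x = tq 0 y * ((1 + mT.v x * GUn x) * kan y (dlg.v y x) +
        mT.v x * k3d y (dlg.v y x)) ∧ tL 0 0 y x = zen y x (dlg.v y x) := by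
    intro y hq hr
    have y1 : y < 1 := lt_one_of hq (by norm_num)
    have r1 : ((51539607 : ℕ) : ℝ) / S ≤ y := hr.1
    have r2 : y ≤ ((149250113 : ℕ) : ℝ) / S := by
      have := hr.2
      push_cast at this ⊢
      norm_num at this ⊢
      exact this
    have y0 : 0 < y := rng_pos hr (by norm_num)
    have pa : (-(587/1262) : ℝ) < 3 / 4 * y - G y / 2 := psi_gt (w := 1072813711) r1 (by norm_num) (by norm_num)
    have pb : 3 / 4 * y - G y / 2 < (-(613/1574) : ℝ) := psi_lt (w := 1065933770) y0.le r2 (by norm_num) (by norm_num)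
    have A := atN00 (x := x) (show OnC (0 : Fin 5) 0 y from ⟨hq, fun _ => h0y_lt y1⟩)
    exact ⟨A.K.symm.trans (clKN0 y0 y1 pa pb), A.L.symm.trans (clL0 pa pb)⟩
  have t := On.tgN (D := dlg) (M := mT) (q := 0) (by norm_num) cN_tl cN_th hx x0 x1 hμ (by norm_num) hf hmt
  exact (((g.join (e := 51539607) wa (by norm_num) (by norm_num)).join (e := 149250113) t (by norm_num) (by norm_num)).join (e := 536870912) wb (by norm_num) (by norm_num)).full 0 (by norm_num) (by norm_num)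
theorem onN01 {x : ℝ} (hx : Rng 67108864 67108864 x) (x0 : 0 < x) (x1 : x < 1) (hμ : 0 ≤ mT.v x) :
    On PP tKN tL Z0 x (0 : Fin 5) 1 (WallP 1 x (mT.v x) 1) fun _ => True := by
  have hm := On.monond (fun y hy => atN01 hy) cN_m01 hx
  have bK : En x * ndN0q1.K.v 1 x = (En x + mT.v x * Qn x) * (1 / 2) := bK_near x0 x1 (mug_v x) (gug_v x) (corN01 x).2.1
  have g := On.germ1 (fun y hy => atN01 hy) cN_g01 hx x0 x1 hμ (corN01 x).1 bK (corN01 x).2.2
    (hm.sub (by norm_num) (by norm_num)) 1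
  have wb := On.wallnd (fun y hy => atN01 hy) cN_w01b hx 1
  exact (wb.join (e := 536870912) g (by norm_num) (by norm_num)).full 1 (by norm_num) (by norm_num)
theorem onN10 {x : ℝ} (hx : Rng 67108864 67108864 x) (x0 : 0 < x) (x1 : x < 1) (hμ : 0 ≤ mT.v x) :
    On PP tKN tL Z0 x (1 : Fin 5) 0 (WallP 1 x (mT.v x) 0) fun _ => True := by
  have bK : En x * ndN1q0.K.v 0 x = (En x + mT.v x * Qn x) * (1) := bK_near x0 x1 (mug_v x) (gug_v x) (corN10 x).2.1
  have hm := On.monond (fun y hy => atN10 hy) cN_m10 hx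
  have g := On.germ0 (fun y hy => atN10 hy) cN_g10 hx x0 x1 hμ (corN10 x).1 bK (corN10 x).2.2 hm 1
  have w := On.wallnd (fun y hy => atN10 hy) cN_w10 hx 1
  exact (g.join (e := 536870912) w (by norm_num) (by norm_num)).full 0 (by norm_num) (by norm_num)
theorem onN11 {x : ℝ} (hx : Rng 67108864 67108864 x) (x0 : 0 < x) (x1 : x < 1) (hμ : 0 ≤ mT.v x) :
    On PP tKN tL Z0 x (1 : Fin 5) 1 (WallP 1 x (mT.v x) 1) fun _ => True := by
  exact (On.wallnd (fun y hy => atN11 hy) cN_w11 hx 1).full 1 (by norm_num) (by norm_num)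
theorem onN20 {x : ℝ} (hx : Rng 67108864 67108864 x) (x0 : 0 < x) (x1 : x < 1) (hμ : 0 ≤ mT.v x) :
    On PP tKN tL Z0 x (2 : Fin 5) 0 (WallP 1 x (mT.v x) 0) fun _ => True := by
  have bK : En x * ndN2q0.K.v 0 x = (En x + mT.v x * Qn x) * (1) := bK_near x0 x1 (mug_v x) (gug_v x) (corN20 x).2.1
  have hm := On.monond (fun y hy => atN20 hy) cN_m20 hx
  have g := On.germ0 (fun y hy => atN20 hy) cN_g20 hx x0 x1 hμ (corN20 x).1 bK (corN20 x).2.2 hm 1
  have w := On.wallnd (fun y hy => atN20 hy) cN_w20 hx 1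
  exact (g.join (e := 536870912) w (by norm_num) (by norm_num)).full 0 (by norm_num) (by norm_num)
theorem onN21 {x : ℝ} (hx : Rng 67108864 67108864 x) (x0 : 0 < x) (x1 : x < 1) (hμ : 0 ≤ mT.v x) :
    On PP tKN tL Z0 x (2 : Fin 5) 1 (WallP 1 x (mT.v x) 1) fun _ => True := by
  exact (On.wallnd (fun y hy => atN21 hy) cN_w21 hx 1).full 1 (by norm_num) (by norm_num)
theorem onN30 {x : ℝ} (hx : Rng 67108864 67108864 x) (x0 : 0 < x) (x1 : x < 1) (hμ : 0 ≤ mT.v x) :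
    On PP tKN tL Z0 x (3 : Fin 5) 0 (WallP 1 x (mT.v x) 0) fun _ => True := by
  exact (On.wallnd (fun y hy => atN30 hy) cN_w30 hx 1).full 0 (by norm_num) (by norm_num)
theorem onN31 {x : ℝ} (hx : Rng 67108864 67108864 x) (x0 : 0 < x) (x1 : x < 1) (hμ : 0 ≤ mT.v x) :
    On PP tKN tL Z0 x (3 : Fin 5) 1 (WallP 1 x (mT.v x) 1) fun _ => True := by
  exact (On.wallnd (fun y hy => atN31 hy) cN_w31 hx 1).full 1 (by norm_num) (by norm_num)
theorem onN32 {x : ℝ} (hx : Rng 67108864 67108864 x) : On PP tKN tL Z0 x (3 : Fin 5) 2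
    (WallP 1 x (mT.v x) 2) fun y => h0 * y ≤ 1 ∧ 1 - G y ≤ crv PP (3 : Fin 5) 2 y :=
  On.right2 (fun y hy => atN32 hy) cN_w32 hx 1
theorem onN40 {x : ℝ} (hx : Rng 67108864 67108864 x) (x0 : 0 < x) (x1 : x < 1) (hμ : 0 ≤ mT.v x) :
    On PP tKN tL Z0 x (4 : Fin 5) 0 (WallP 1 x (mT.v x) 0) fun _ => True := by
  exact (On.wallnd (fun y hy => atN40 hy) cN_w40 hx 1).full 0 (by norm_num) (by norm_num)
theorem onN41 {x : ℝ} (hx : Rng 67108864 67108864 x) (x0 : 0 < x) (x1 : x < 1) (hμ : 0 ≤ mT.v x) :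
    On PP tKN tL Z0 x (4 : Fin 5) 1 (WallP 1 x (mT.v x) 1) fun _ => True := by
  exact (On.wallnd (fun y hy => atN41 hy) cN_w41 hx 1).full 1 (by norm_num) (by norm_num)
theorem onN42 {x : ℝ} (hx : Rng 67108864 67108864 x) : On PP tKN tL Z0 x (4 : Fin 5) 2
    (WallP 1 x (mT.v x) 2) fun y => h0 * y ≤ 1 ∧ 1 - G y ≤ crv PP (4 : Fin 5) 2 y :=
  On.right2 (fun y hy => atN42 hy) cN_w42 hx 1
theorem fvN {x : ℝ} (hx : Rng 67108864 67108864 x) : FV PP x (mT.v x) 1 (fun _ => 0) (tbl tKN x)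
    (tbl tL x) (fun _ _ => 0) tKN tL Z0 (fun q => (pcN q).K.v) (fun q => (pcN q).L.v)
    fun _ _ _ _ => 0 :=
  FV.two (rng_pos hx (by norm_num)) (rng_lt hx (by norm_num)) (mT_nn x) (sideN hx.1 hx.2).linkK
    (sideN hx.1 hx.2).linkL
theorem flN {x : ℝ} (hx : Rng 67108864 67108864 x) :
    WallN PP x (mu 3 (h0 * x)) (fun _ => 0) (tbl tKN x) (tbl tL x) fun _ _ => 0 := by
  have x0 := rng_pos hx (by norm_num)
  have x1 := rng_lt hx (by norm_num)
  have hμ : 0 ≤ mT.v x := mT_nn x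
  have V := fvN hx
  have bK : En x * ndN2q2.K.v 1 x = (En x + mT.v x * Qn x) * (1 / 2) := bK_near x0 x1 (mug_v x) (gug_v x) (corN22 x).2.1
  have pK : tKN (2 : Fin 5) 2 1 x = tKN 0 2 1 x := (pinKN hx.1 hx.2).mid _ (le_of_eq_of_le (show PP.ρ (2 : Fin 5) = 1 from rfl) (by norm_num))
  have pL : tL (2 : Fin 5) 2 1 x = tL 0 2 1 x := (pinL hx.1 hx.2).mid _ (le_of_eq_of_le (show PP.ρ (2 : Fin 5) = 1 from rfl) (by norm_num))
  have hs := V.steepZ (i := (2 : Fin 4)) (jl := (2 : Fin 5)) (jr := (3 : Fin 5)) zero_le_one rfl rfl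
    (by decide) (fun y hy => atN22 hy) (fun y hy => atN32 hy) (corN22 x).1 bK (corN22 x).2.2 pK pL
    (pc := pcN2) (fun _ _ => rfl) (fun _ _ => rfl) cN_st cN_sm cN_sw hx (by norm_num) (by norm_num)
    (by norm_num)
  have h := V.wallN (fun j => match j with
    | 0 => onN00 hx x0 x1 hμ
    | 1 => onN10 hx x0 x1 hμ
    | 2 => onN20 hx x0 x1 hμ
    | 3 => onN30 hx x0 x1 hμ
    | 4 => onN40 hx x0 x1 hμ)
    (fun j => match j with
    | 0 => onN01 hx x0 x1 hμ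
    | 1 => onN11 hx x0 x1 hμ
    | 2 => onN21 hx x0 x1 hμ
    | 3 => onN31 hx x0 x1 hμ
    | 4 => onN41 hx x0 x1 hμ)
    (fun j => match j with
    | 0 => fun h => absurd h (not_lt.2 (le_of_eq_of_le (show PP.ρ (0 : Fin 5) = 0 from rfl) (by norm_num)))
    | 1 => fun h => absurd h (not_lt.2 (le_of_eq_of_le (show PP.ρ (1 : Fin 5) = 3/5 from rfl) (by norm_num)))
    | 2 => fun h => absurd h (not_lt.2 (le_of_eq_of_le (show PP.ρ (2 : Fin 5) = 1 from rfl) (by norm_num)))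
    | 3 => fun _ => onN32 hx
    | 4 => fun _ => onN42 hx) hs
  rw [mT_v] at h
  exact h
theorem flRow {x a κ : ℝ} (hx : Rng 67108864 67108864 x)
    (h : CertS PP.cur (tbl tKF x) (tbl tKN x) (tbl tL x) 3 a κ (h0 * x)) (hκ : κ = kE (h0 * x)) :
    RowOK ((tab PP.cur.nodes (tbl tKF x) (tbl tKN x) (tbl tL x)).flat 3 κ (h0 * x)) 3 (h0 * x) := by
  have e := (fvN hx).par
  rw [mT_v] at e
  exact certS_wall h hκ (fvF hx).par (flF hx) e (flN hx)

end Pool.Agent.Strip051.G.I1_16_1_8.Tab
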