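import Pool.Agent.Strip051.PB.FlAsm
import Pool.Agent.Strip051.G.I1_16_1_8.Tab

/-! # Slopes (generated) -/

set_option linter.all false

namespace Pool.Agent.Strip051.G.I1_16_1_8.Tab

open Pool.Agent.Strip051.PB

attribute [local irreducible] padd psub pneg pmul psq pinv psqrt psqrtg pabs pps pmax pmin pphi
  plam pcase phf pnat prat pscale pnorm pdc pnc pone ppos pnn

noncomputable def c1g_fs : Sl1 c1g := ⟨_, fun h1 => (pr_sqrtg (pr_csub (enc_pnc _ 1) (pr_scale 3 4 (pr_sq h1))))⟩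
noncomputable def kcg_6_fs : Sl2 kcg_6 := ⟨_, fun h1 h2 => (pr_addc h1 (enc_rat _ 613 1574))⟩
noncomputable def kcg_9_fs : Sl2 kcg_9 := ⟨_, fun h1 h2 => (pr_addc h1 (enc_rat _ 587 1262))⟩
noncomputable def kcg_12_fs : Sl2 kcg_12 := ⟨_, fun h1 h2 => (pr_addc h1 (enc_rat _ 97 200))⟩
noncomputable def kcg_13_fs : Sl2 kcg_13 := ⟨_, fun h1 h2 => (pr_scale 5437 6000 h1)⟩
noncomputable def kcg_18_fs : Sl2 kcg_18 := ⟨_, fun h1 h2 => (pr_scale 27973 75000 h1)⟩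
noncomputable def kcg_36_fs : Sl2 kcg_36 := ⟨_, fun h1 h2 => (pr_scale 284248463 313375000 h1)⟩
noncomputable def kcg_41_fs : Sl2 kcg_41 := ⟨_, fun h1 h2 => (pr_scale 23027083 62675000 h1)⟩
noncomputable def kcg_57_fs : Sl2 kcg_57 := ⟨_, fun h1 h2 => (pr_addc h1 (enc_rat _ 43 100))⟩
noncomputable def kcg_58_fs : Sl2 kcg_58 := ⟨_, fun h1 h2 => (pr_scale 673338207 739000000 h1)⟩
noncomputable def kcg_63_fs : Sl2 kcg_63 := ⟨_, fun h1 h2 => (pr_scale 75999533 221700000 h1)⟩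
noncomputable def kcg_76_fs : Sl2 kcg_76 := ⟨_, fun h1 h2 => (pr_scale 2934062707 3191000000 h1)⟩
noncomputable def kcg_81_fs : Sl2 kcg_81 := ⟨_, fun h1 h2 => (pr_scale 1670801 6382000 h1)⟩
noncomputable def kcg_98_fs : Sl2 kcg_98 := ⟨_, fun h1 h2 => (pr_addc h1 (enc_rat _ 1 4))⟩
noncomputable def kcg_101_fs : Sl2 kcg_101 := ⟨_, fun h1 h2 => (pr_addc h1 (enc_rat _ 17 50))⟩
noncomputable def kcg_102_fs : Sl2 kcg_102 := ⟨_, fun h1 h2 => (pr_scale 112751129 121625000 h1)⟩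
noncomputable def kcg_107_fs : Sl2 kcg_107 := ⟨_, fun h1 h2 => (pr_scale 10488349 77840000 h1)⟩
noncomputable def kcg_120_fs : Sl2 kcg_120 := ⟨_, fun h1 h2 => (pr_scale 522763 562500 h1)⟩
noncomputable def kcg_125_fs : Sl2 kcg_125 := ⟨_, fun h1 h2 => (pr_scale 5039 150000 h1)⟩
noncomputable def kcg_142_fs : Sl2 kcg_142 := ⟨_, fun h1 h2 => (pr_addc h1 (enc_rat _ 3 20))⟩
noncomputable def kcg_143_fs : Sl2 kcg_143 := ⟨_, fun h1 h2 => (pr_scale 9237727 10000000 h1)⟩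
noncomputable def kcg_148_fs : Sl2 kcg_148 := ⟨_, fun h1 h2 => (pr_scale 15599 1000000 h1)⟩
noncomputable def kcg_167_fs : Sl2 kcg_167 := ⟨_, fun h1 h2 => (pr_scale 2594263 4500000 h1)⟩
noncomputable def kcg_172_fs : Sl2 kcg_172 := ⟨_, fun h1 h2 => (pr_scale 2017 150000 h1)⟩
noncomputable def kcg_190_fs : Sl2 kcg_190 := ⟨_, fun h1 h2 => (pr_scale 1406947 6000000 h1)⟩
noncomputable def kcg_198_fs : Sl2 kcg_198 := ⟨_, fun h1 h2 => (pr_csub (enc_rat _ 613 1574) h1)⟩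
noncomputable def kcg_199_fs : Sl2 kcg_199 := ⟨_, fun h1 h2 => (pr_csub (enc_rat _ 587 1262) h1)⟩
noncomputable def kcg_200_fs : Sl2 kcg_200 := ⟨_, fun h1 h2 => (pr_csub (enc_rat _ 97 200) h1)⟩
noncomputable def kcg_221_fs : Sl2 kcg_221 := ⟨_, fun h1 h2 => (pr_csub (enc_rat _ 43 100) h1)⟩
noncomputable def kcg_242_fs : Sl2 kcg_242 := ⟨_, fun h1 h2 => (pr_csub (enc_rat _ 1 4) h1)⟩
noncomputable def kcg_243_fs : Sl2 kcg_243 := ⟨_, fun h1 h2 => (pr_csub (enc_rat _ 17 50) h1)⟩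
noncomputable def kcg_263_fs : Sl2 kcg_263 := ⟨_, fun h1 h2 => (pr_csub (enc_rat _ 3 20) h1)⟩
noncomputable def kcg_fs : Sl2 kcg := ⟨_, fun h1 h2 => (pr_norm (pr_case h1 (pr_case (kcg_6_fs.snd h1 h2) (pr_case (kcg_9_fs.snd h1 h2) (pr_case (kcg_12_fs.snd h1 h2) (pr_add (pr_add (pr_subr 9653681 150000000 (pr_neg (kcg_13_fs.snd h1 h2))) (pr_cmul (enc_norm (kcg_3.enc h1.l h2)) (pr_norm (pr_addc (kcg_18_fs.snd h1 h2) (enc_rat _ 4320521 30000000))))) (pr_cmul (enc_norm (kcg_28.enc h1.l h2)) (pr_norm (pr_mul (pr_norm (pr_addc h1 (enc_rat _ 1 2))) (pr_norm (pr_csub (enc_neg (enc_rat _ 97 200)) h1)))))) (pr_add (pr_add (pr_subr 4060642643 62675000000 (pr_neg (kcg_36_fs.snd h1 h2))) (pr_cmul (enc_norm (kcg_3.enc h1.l h2)) (pr_norm (pr_addc (kcg_41_fs.snd h1 h2) (enc_rat _ 3542805373 25070000000))))) (pr_cmul (enc_norm (kcg_49.enc h1.l h2)) (pr_norm (pr_mul (pr_norm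 (kcg_12_fs.snd h1 h2)) (pr_norm (pr_csub (enc_neg (enc_rat _ 587 1262)) h1))))))) (pr_case (kcg_57_fs.snd h1 h2) (pr_add (pr_add (pr_subr 2464284697 36950000000 (pr_neg (kcg_58_fs.snd h1 h2))) (pr_cmul (enc_norm (kcg_3.enc h1.l h2)) (pr_norm (pr_addc (kcg_63_fs.snd h1 h2) (enc_rat _ 2879299913 22170000000))))) (pr_cmul (enc_norm (kcg_71.enc h1.l h2)) (pr_norm (pr_mul (pr_norm (kcg_9_fs.snd h1 h2)) (pr_norm (pr_csub (enc_neg (enc_rat _ 43 100)) h1)))))) (pr_add (pr_add (pr_subr 11212462909 159550000000 (pr_neg (kcg_76_fs.snd h1 h2))) (pr_cmul (enc_norm (kcg_3.enc h1.l h2)) (pr_norm (pr_addc (kcg_81_fs.snd h1 h2) (enc_rat _ 758195603 7977500000))))) (pr_cmul (enc_norm (kcg_89.enc h1.l h2)) (pr_norm (pr_mul (pr_norm (kcg_57_fs.snd h1 h2)) (pr_norm (pr_csub (enc_neg (enc_rat _ 613 1574)) h1)))))))) (pr_case (kcg_98_fs.snd h1 h2) (pr_case (kcg_101_fs.snd h1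 h2) (pr_add (pr_add (pr_subr 445264319 6081250000 (pr_neg (kcg_102_fs.snd h1 h2))) (pr_cmul (enc_norm (kcg_3.enc h1.l h2)) (pr_norm (pr_addc (kcg_107_fs.snd h1 h2) (enc_rat _ 886580447 19460000000))))) (pr_cmul (enc_norm (kcg_115.enc h1.l h2)) (pr_norm (pr_mul (pr_norm (kcg_6_fs.snd h1 h2)) (pr_norm (pr_csub (enc_neg (enc_rat _ 17 50)) h1)))))) (pr_add (pr_add (pr_subr 41629 562500 (pr_neg (kcg_120_fs.snd h1 h2))) (pr_cmul (enc_norm (kcg_3.enc h1.l h2)) (pr_norm (pr_addc (kcg_125_fs.snd h1 h2) (enc_rat _ 335053 30000000))))) (pr_cmul (enc_norm (kcg_134.enc h1.l h2)) (pr_norm (pr_mul (pr_norm (kcg_101_fs.snd h1 h2)) (pr_norm (pr_csub (enc_neg (enc_rat _ 1 4)) h1))))))) (pr_case (kcg_142_fs.snd h1 h2) (pr_add (pr_add (pr_subr 2904447 40000000 (pr_neg (kcg_143_fs.snd h1 h2))) (pr_cmul (enc_norm (kcg_3.enc h1.l h2)) (pr_norm (pr_subr 22593 20000000 (pr_neg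 (kcg_148_fs.snd h1 h2)))))) (pr_cmul (enc_norm (kcg_159.enc h1.l h2)) (pr_norm (pr_mul (pr_norm (kcg_98_fs.snd h1 h2)) (pr_norm (pr_csub (enc_neg (enc_rat _ 3 20)) h1)))))) (pr_case (pr_addc h1 (enc_rat _ 3 50)) (pr_add (pr_add (pr_subr 6156211 300000000 (pr_neg (kcg_167_fs.snd h1 h2))) (pr_cmul (enc_norm (kcg_3.enc h1.l h2)) (pr_norm (pr_subr 2017 2500000 (pr_neg (kcg_172_fs.snd h1 h2)))))) (pr_cmul (enc_norm (kcg_185.enc h1.l h2)) (pr_norm (pr_mul (pr_norm (kcg_142_fs.snd h1 h2)) (pr_norm (pr_csub (enc_neg (enc_rat _ 3 50)) h1)))))) (pr_neg (kcg_190_fs.snd h1 h2)))))) (pr_neg (pr_case (kcg_198_fs.snd h1 h2) (pr_case (kcg_199_fs.snd h1 h2) (pr_case (kcg_200_fs.snd h1 h2) (pr_add (pr_add (pr_subr 9653681 150000000 (kcg_13_fs.snd h1 h2)) (pr_cmul (enc_norm (kcg_3.enc h1.l h2)) (pr_norm (pr_csub (enc_rat _ 4320521 30000000) (kcg_18_fs.snd h1 h2))))) (pr_cmul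 (enc_norm (kcg_28.enc h1.l h2)) (pr_norm (pr_mul (pr_norm (pr_csub (enc_rat _ 1 2) h1)) (pr_norm (pr_subr 97 200 h1)))))) (pr_add (pr_add (pr_subr 4060642643 62675000000 (kcg_36_fs.snd h1 h2)) (pr_cmul (enc_norm (kcg_3.enc h1.l h2)) (pr_norm (pr_csub (enc_rat _ 3542805373 25070000000) (kcg_41_fs.snd h1 h2))))) (pr_cmul (enc_norm (kcg_49.enc h1.l h2)) (pr_norm (pr_mul (pr_norm (kcg_200_fs.snd h1 h2)) (pr_norm (pr_subr 587 1262 h1))))))) (pr_case (kcg_221_fs.snd h1 h2) (pr_add (pr_add (pr_subr 2464284697 36950000000 (kcg_58_fs.snd h1 h2)) (pr_cmul (enc_norm (kcg_3.enc h1.l h2)) (pr_norm (pr_csub (enc_rat _ 2879299913 22170000000) (kcg_63_fs.snd h1 h2))))) (pr_cmul (enc_norm (kcg_71.enc h1.l h2)) (pr_norm (pr_mul (pr_norm (kcg_199_fs.snd h1 h2)) (pr_norm (pr_subr 43 100 h1)))))) (pr_add (pr_add (pr_subr 11212462909 159550000000 (kcg_76_fs.snd h1 h2)) (pr_cmul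 (enc_norm (kcg_3.enc h1.l h2)) (pr_norm (pr_csub (enc_rat _ 758195603 7977500000) (kcg_81_fs.snd h1 h2))))) (pr_cmul (enc_norm (kcg_89.enc h1.l h2)) (pr_norm (pr_mul (pr_norm (kcg_221_fs.snd h1 h2)) (pr_norm (pr_subr 613 1574 h1)))))))) (pr_case (kcg_242_fs.snd h1 h2) (pr_case (kcg_243_fs.snd h1 h2) (pr_add (pr_add (pr_subr 445264319 6081250000 (kcg_102_fs.snd h1 h2)) (pr_cmul (enc_norm (kcg_3.enc h1.l h2)) (pr_norm (pr_csub (enc_rat _ 886580447 19460000000) (kcg_107_fs.snd h1 h2))))) (pr_cmul (enc_norm (kcg_115.enc h1.l h2)) (pr_norm (pr_mul (pr_norm (kcg_198_fs.snd h1 h2)) (pr_norm (pr_subr 17 50 h1)))))) (pr_add (pr_add (pr_subr 41629 562500 (kcg_120_fs.snd h1 h2)) (pr_cmul (enc_norm (kcg_3.enc h1.l h2)) (pr_norm (pr_csub (enc_rat _ 335053 30000000) (kcg_125_fs.snd h1 h2))))) (pr_cmul (enc_norm (kcg_134.enc h1.l h2)) (pr_norm (pr_mul (pr_norm (kcg_243_fs.snd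 h1 h2)) (pr_norm (pr_subr 1 4 h1))))))) (pr_case (kcg_263_fs.snd h1 h2) (pr_add (pr_add (pr_subr 2904447 40000000 (kcg_143_fs.snd h1 h2)) (pr_cmul (enc_norm (kcg_3.enc h1.l h2)) (pr_norm (pr_subr 22593 20000000 (kcg_148_fs.snd h1 h2))))) (pr_cmul (enc_norm (kcg_159.enc h1.l h2)) (pr_norm (pr_mul (pr_norm (kcg_242_fs.snd h1 h2)) (pr_norm (pr_subr 3 20 h1)))))) (pr_case (pr_csub (enc_rat _ 3 50) h1) (pr_add (pr_add (pr_subr 6156211 300000000 (kcg_167_fs.snd h1 h2)) (pr_cmul (enc_norm (kcg_3.enc h1.l h2)) (pr_norm (pr_subr 2017 2500000 (kcg_172_fs.snd h1 h2))))) (pr_cmul (enc_norm (kcg_185.enc h1.l h2)) (pr_norm (pr_mul (pr_norm (kcg_263_fs.snd h1 h2)) (pr_norm (pr_subr 3 50 h1)))))) (kcg_190_fs.snd h1 h2))))))))⟩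
noncomputable def kf0q0_9_fs : Sl2 kf0q0_9 := ⟨_, fun h1 h2 => (pr_scale 3 2 h1)⟩
noncomputable def kf0q0_12_fs : Sl2 kf0q0_12 := ⟨_, fun h1 h2 => (pr_cadd (enc_pnc _ 1) (c1g_fs.snd h1))⟩
noncomputable def kf0q0_fs : Sl2 kf0q0 := ⟨_, fun h1 h2 => (pr_norm (pr_add (pr_mul (pr_norm (pr_mul (pr_norm (pr_sub (c1g_fs.snd h1) (kf0q0_9_fs.snd h1 h2))) (pr_norm (kf0q0_12_fs.snd h1 h2)))) (pr_nd (pr_inv (pr_sub (kf0q0_12_fs.snd h1 h2) (kf0q0_9_fs.snd h1 h2))))) (pr_mul h1 (kcg_fs.snd (pr_norm (pr_sub (pr_scale 3 4 h1) (pr_half (c1g_fs.snd h1)))) h2))))⟩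
noncomputable def txg_6_fs : Sl3 txg_6 := ⟨_, fun h1 h2 h3 => (pr_add h1 (pr_half h2))⟩
noncomputable def txg_27_fs : Sl3 txg_27 := ⟨_, fun h1 h2 h3 => (pr_addc h1 (enc_rat _ 117 250))⟩
noncomputable def txg_77_fs : Sl3 txg_77 := ⟨_, fun h1 h2 h3 => (pr_addc h1 (enc_rat _ 613 1574))⟩
noncomputable def txg_79_fs : Sl3 txg_79 := ⟨_, fun h1 h2 h3 => (pr_subr 3 50 h1)⟩
noncomputable def txg_82_fs : Sl3 txg_82 := ⟨_, fun h1 h2 h3 => (pr_addc h1 (enc_rat _ 6 25))⟩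
noncomputable def txg_85_fs : Sl3 txg_85 := ⟨_, fun h1 h2 h3 => (pr_addc h1 (enc_rat _ 9 25))⟩
noncomputable def txg_112_fs : Sl3 txg_112 := ⟨_, fun h1 h2 h3 => (pr_addc h1 (enc_rat _ 3 10))⟩
noncomputable def txg_153_fs : Sl3 txg_153 := ⟨_, fun h1 h2 h3 => (pr_addc h1 (enc_rat _ 3 25))⟩
noncomputable def txg_156_fs : Sl3 txg_156 := ⟨_, fun h1 h2 h3 => (pr_addc h1 (enc_rat _ 9 50))⟩
noncomputable def txg_191_fs : Sl3 txg_191 := ⟨_, fun h1 h2 h3 => (pr_addc h1 (enc_rat _ 3 50))⟩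
noncomputable def txg_229_fs : Sl3 txg_229 := ⟨_, fun h1 h2 h3 => (pr_subr 6 25 h1)⟩
noncomputable def txg_230_fs : Sl3 txg_230 := ⟨_, fun h1 h2 h3 => (pr_subr 3 25 h1)⟩
noncomputable def txg_251_fs : Sl3 txg_251 := ⟨_, fun h1 h2 h3 => (pr_subr 9 50 h1)⟩
noncomputable def txg_292_fs : Sl3 txg_292 := ⟨_, fun h1 h2 h3 => (pr_subr 9 25 h1)⟩
noncomputable def txg_293_fs : Sl3 txg_293 := ⟨_, fun h1 h2 h3 => (pr_subr 3 10 h1)⟩
noncomputable def txg_334_fs : Sl3 txg_334 := ⟨_, fun h1 h2 h3 => (pr_subr 43 100 h1)⟩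
noncomputable def txg_fs : Sl3 txg := ⟨_, fun h1 h2 h3 => (pr_case (pr_addc h1 (enc_rat _ 587 1262)) (pr_case (txg_27_fs.snd h1 h2 h3) (pr_add (pr_add (pr_addc (pr_scale 142139 3200000 h1) (enc_rat _ 142139 6400000)) (pr_cmul (enc_norm (txg_4.enc h1.l h2.l h3)) (pr_norm (pr_addc (pr_scale 72511 160000 h1) (enc_rat _ 72511 320000))))) (pr_cmul (enc_norm (enc_subr 4154979 100000000 (enc_neg (enc_scale 7436081 5000000 (txg_4.enc h1.l h2.l h3))))) (pr_norm (pr_mul (pr_norm (pr_addc h1 (enc_rat _ 1 2))) (pr_norm (pr_csub (enc_neg (enc_rat _ 117 250)) h1)))))) (pr_add (pr_add (pr_add (pr_addc (pr_scale 10119220747 228169600000 h1) (enc_rat _ 253005664867 11408480000000)) (pr_cmul (enc_norm (txg_4.enc h1.l h2.l h3)) (pr_norm (pr_addc (pr_scale 204122834033 456339200000 h1) (enc_rat _ 25536852168421 114084800000000))))) (pr_cmul (txg_63.enc h1.l h2.l h3) (pr_norm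 (pr_subr 242228259 1130000000 (pr_neg (pr_scale 2070327 4520000 h1)))))) (pr_cmul (enc_norm (enc_add (enc_scale 93333073 5000000 (txg_4.enc h1.l h2.l h3)) (enc_rat _ 48835309 100000000))) (pr_norm (pr_mul (pr_norm (txg_27_fs.snd h1 h2 h3)) (pr_norm (pr_csub (enc_neg (enc_rat _ 587 1262)) h1))))))) (pr_case (txg_77_fs.snd h1 h2 h3) (pr_sub (pr_mul (pr_norm (pr_csub (enc_pnc _ 1) h2)) (pr_norm (pr_subn 1 (pr_nat 2 h2)))) (pr_mul (pr_norm (pr_nat 2 (pr_subc (pr_scale 4 3 (txg_6_fs.snd h1 h2 h3)) h3))) (pr_norm (pr_mul (pr_norm (pr_subn 1 (pr_add (pr_scale 2 3 (txg_6_fs.snd h1 h2 h3)) h2))) (kcg_fs.snd h1 h3))))) (pr_case (txg_79_fs.snd h1 h2 h3) (pr_case (txg_82_fs.snd h1 h2 h3) (pr_case (txg_85_fs.snd h1 h2 h3) (pr_add (pr_add (pr_add (pr_addc (pr_scale 54714077801 456066500000 h1) (enc_rat _ 47845194203 912133000000)) (pr_cmul (enc_norm (txg_4.enc h1.l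 h2.l h3)) (pr_norm (pr_subr 146254615029 1824266000000 (pr_neg (pr_scale 54704598741 182426600000 h1)))))) (pr_cmul (txg_63.enc h1.l h2.l h3) (pr_norm (pr_addc (pr_scale 4323 144875 h1) (enc_rat _ 38907 3621875))))) (pr_cmul (enc_norm (enc_subr 74156741 50000000 (enc_scale 157423537 10000000 (txg_4.enc h1.l h2.l h3)))) (pr_norm (pr_mul (pr_norm (txg_77_fs.snd h1 h2 h3)) (pr_norm (pr_csub (enc_neg (enc_rat _ 9 25)) h1)))))) (pr_case (txg_112_fs.snd h1 h2 h3) (pr_add (pr_add (pr_addc (pr_scale 245339 1500000 h1) (enc_rat _ 1703663 25000000)) (pr_cmul (enc_norm (txg_4.enc h1.l h2.l h3)) (pr_norm (pr_subr 169593 2000000 (pr_neg (pr_scale 187631 600000 h1)))))) (pr_cmul (enc_norm (enc_sub (enc_rat _ 31379 20000000) (enc_scale 234803 31250 (txg_4.enc h1.l h2.l h3)))) (pr_norm (pr_mul (pr_norm (txg_85_fs.snd h1 h2 h3)) (pr_norm (pr_csub (enc_neg (enc_rat _ 3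 10)) h1)))))) (pr_add (pr_add (pr_addc (pr_scale 963449 6000000 h1) (enc_rat _ 6725117 100000000)) (pr_cmul (enc_norm (txg_4.enc h1.l h2.l h3)) (pr_norm (pr_addc (pr_scale 82301 600000 h1) (enc_rat _ 100339 2000000))))) (pr_cmul (enc_norm (enc_add (enc_scale 3117 200000 (txg_4.enc h1.l h2.l h3)) (enc_rat _ 96341 2000000))) (pr_norm (pr_mul (pr_norm (txg_112_fs.snd h1 h2 h3)) (pr_norm (pr_csub (enc_neg (enc_rat _ 6 25)) h1)))))))) (pr_case (txg_153_fs.snd h1 h2 h3) (pr_case (txg_156_fs.snd h1 h2 h3) (pr_add (pr_add (pr_addc (pr_scale 37619 250000 h1) (enc_rat _ 1296549 20000000)) (pr_cmul (enc_norm (txg_4.enc h1.l h2.l h3)) (pr_norm (pr_addc (pr_scale 24479 200000 h1) (enc_rat _ 466239 10000000))))) (pr_cmul (enc_norm (enc_add (enc_scale 46123 200000 (txg_4.enc h1.l h2.l h3)) (enc_rat _ 7509 62500))) (pr_norm (pr_mul (pr_norm (txg_82_fs.snd h1 h2 h3))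 (pr_norm (pr_csub (enc_neg (enc_rat _ 9 50)) h1)))))) (pr_add (pr_add (pr_addc (pr_scale 160681 1200000 h1) (enc_rat _ 773049 12500000)) (pr_cmul (enc_norm (txg_4.enc h1.l h2.l h3)) (pr_norm (pr_addc (pr_scale 10091 120000 h1) (enc_rat _ 397293 10000000))))) (pr_cmul (enc_norm (enc_add (enc_scale 40779 100000 (txg_4.enc h1.l h2.l h3)) (enc_rat _ 312219 2000000))) (pr_norm (pr_mul (pr_norm (txg_156_fs.snd h1 h2 h3)) (pr_norm (pr_csub (enc_neg (enc_rat _ 3 25)) h1))))))) (pr_case (txg_191_fs.snd h1 h2 h3) (pr_add (pr_add (pr_addc (pr_scale 698339 6000000 h1) (enc_rat _ 298713 5000000)) (pr_cmul (enc_norm (txg_4.enc h1.l h2.l h3)) (pr_norm (pr_addc (pr_scale 9 1000 h1) (enc_rat _ 307183 10000000))))) (pr_cmul (enc_norm (enc_add (enc_scale 168751 200000 (txg_4.enc h1.l h2.l h3)) (enc_rat _ 67869 500000))) (pr_norm (pr_mul (pr_norm (txg_153_fs.snd h1 h2 h3))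 (pr_norm (pr_csub (enc_neg (enc_rat _ 3 50)) h1)))))) (pr_add (pr_add (pr_csub (enc_rat _ 5247877 100000000) (pr_scale 2337 500000 h1)) (pr_cmul (enc_norm (txg_4.enc h1.l h2.l h3)) (pr_norm (pr_csub (enc_rat _ 551617 20000000) (pr_scale 51949 1200000 h1))))) (pr_cmul (enc_norm (enc_add (enc_scale 1387 100000 (txg_4.enc h1.l h2.l h3)) (enc_rat _ 940997 1000000))) (pr_norm (pr_mul (pr_norm (txg_191_fs.snd h1 h2 h3)) (pr_norm (pr_csub (enc_rat _ 3 50) h1))))))))) (pr_case (txg_229_fs.snd h1 h2 h3) (pr_case (txg_230_fs.snd h1 h2 h3) (pr_add (pr_add (pr_csub (enc_rat _ 602347 10000000) (pr_scale 267879 2000000 h1)) (pr_cmul (enc_norm (txg_4.enc h1.l h2.l h3)) (pr_norm (pr_csub (enc_rat _ 63323 2500000) (pr_scale 1729 300000 h1))))) (pr_cmul (enc_norm (enc_sub (enc_rat _ 272431 1000000) (enc_scale 65321 100000 (txg_4.enc h1.l h2.l h3)))) (pr_norm (pr_mul (pr_norm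 (txg_79_fs.snd h1 h2 h3)) (pr_norm (pr_csub (enc_rat _ 3 25) h1)))))) (pr_case (txg_251_fs.snd h1 h2 h3) (pr_add (pr_add (pr_csub (enc_rat _ 1561753 25000000) (pr_scale 19071 125000 h1)) (pr_cmul (enc_norm (txg_4.enc h1.l h2.l h3)) (pr_norm (pr_addc (pr_scale 973 18750 h1) (enc_rat _ 23013 1250000))))) (pr_cmul (enc_norm (enc_sub (enc_rat _ 7609 200000) (enc_scale 61539 200000 (txg_4.enc h1.l h2.l h3)))) (pr_norm (pr_mul (pr_norm (txg_230_fs.snd h1 h2 h3)) (pr_norm (pr_csub (enc_rat _ 9 50) h1)))))) (pr_add (pr_add (pr_csub (enc_rat _ 3148649 50000000) (pr_scale 93217 600000 h1)) (pr_cmul (enc_norm (txg_4.enc h1.l h2.l h3)) (pr_norm (pr_addc (pr_scale 24403 300000 h1) (enc_rat _ 65547 5000000))))) (pr_cmul (enc_norm (enc_sub (enc_rat _ 1703 200000) (enc_scale 36633 200000 (txg_4.enc h1.l h2.l h3)))) (pr_norm (pr_mul (pr_norm (txg_251_fs.snd h1 h2 h3))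 (pr_norm (pr_csub (enc_rat _ 6 25) h1)))))))) (pr_case (txg_292_fs.snd h1 h2 h3) (pr_case (txg_293_fs.snd h1 h2 h3) (pr_add (pr_add (pr_csub (enc_rat _ 3147661 50000000) (pr_scale 232919 1500000 h1)) (pr_cmul (enc_norm (txg_4.enc h1.l h2.l h3)) (pr_norm (pr_addc (pr_scale 55657 600000 h1) (enc_rat _ 10369 1000000))))) (pr_cmul (enc_norm (enc_subr 9887 1000000 (enc_neg (enc_scale 357 50000 (txg_4.enc h1.l h2.l h3))))) (pr_norm (pr_mul (pr_norm (txg_229_fs.snd h1 h2 h3)) (pr_norm (pr_csub (enc_rat _ 3 10) h1)))))) (pr_add (pr_add (pr_csub (enc_rat _ 2779951 50000000) (pr_scale 49037 375000 h1)) (pr_cmul (enc_norm (txg_4.enc h1.l h2.l h3)) (pr_norm (pr_addc (pr_scale 49061 600000 h1) (enc_rat _ 13667 1000000))))) (pr_cmul (enc_norm (enc_subr 398679 1000000 (enc_scale 38071 200000 (txg_4.enc h1.l h2.l h3)))) (pr_norm (pr_mul (pr_norm (txg_293_fs.snd h1 h2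 h3)) (pr_norm (pr_csub (enc_rat _ 9 25) h1))))))) (pr_case (txg_334_fs.snd h1 h2 h3) (pr_add (pr_add (pr_csub (enc_rat _ 13133317 350000000) (pr_scale 281947 3500000 h1)) (pr_cmul (enc_norm (txg_4.enc h1.l h2.l h3)) (pr_norm (pr_csub (enc_rat _ 211667 1750000) (pr_scale 151373 700000 h1))))) (pr_cmul (enc_norm (enc_subr 150219 400000 (enc_scale 818843 200000 (txg_4.enc h1.l h2.l h3)))) (pr_norm (pr_mul (pr_norm (txg_292_fs.snd h1 h2 h3)) (pr_norm (pr_csub (enc_rat _ 43 100) h1)))))) (pr_add (pr_add (pr_csub (enc_rat _ 5151 250000) (pr_scale 5151 125000 h1)) (pr_cmul (enc_norm (txg_4.enc h1.l h2.l h3)) (pr_norm (pr_csub (enc_rat _ 279663 1400000) (pr_scale 279663 700000 h1))))) (pr_cmul (enc_norm (enc_subr 373143 2000000 (enc_neg (enc_scale 295213 200000 (txg_4.enc h1.l h2.l h3))))) (pr_norm (pr_mul (pr_norm (txg_334_fs.snd h1 h2 h3)) (pr_norm (pr_csub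 (enc_rat _ 1 2) h1))))))))))))⟩
noncomputable def l0q0_fs : Sl2 l0q0 := ⟨_, fun h1 h2 => (pr_norm (txg_fs.snd (pr_norm (pr_sub (pr_scale 3 4 h1) (pr_half (c1g_fs.snd h1)))) (pr_nd (c1g_fs.snd h1)) h2))⟩
noncomputable def swg_fs : Sl1 swg := ⟨_, fun h1 => (pr_sqrt (pr_csub (enc_pnc _ 1) (pr_scale 3 4 (pr_sq (pr_norm (pr_subn 1 h1))))))⟩
noncomputable def cv1m_fs : Sl1 cv1m := ⟨_, fun h1 => (pr_norm (pr_add (pr_scale 2 5 (c1g_fs.snd h1)) (pr_scale 3 5 (pr_addc (swg_fs.snd h1) (enc_rat _ 1 2)))))⟩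
noncomputable def bf1q0_fs : Sl2 bf1q0 := ⟨_, fun h1 h2 => (pr_norm (pr_case (pr_subr 1 20 h1) (pr_case (pr_subr 3 200 h1) (pr_sub (pr_csub (enc_pnc _ 1) (pr_scale 491 300 h1)) (pr_cmul (enc_norm (bf1q0_3.enc h1.l h2)) (pr_nd (pr_scale 49 15000 h1)))) (pr_add (pr_csub (enc_rat _ 70000011 70000000) (pr_scale 572837 350000 h1)) (pr_cmul (enc_norm (bf1q0_3.enc h1.l h2)) (pr_norm (pr_csub (enc_rat _ 1 500000) (pr_scale 17 5000 h1)))))) (pr_case (pr_subr 3 25 h1) (pr_add (pr_csub (enc_rat _ 35000023 35000000) (pr_scale 1145681 700000 h1)) (pr_cmul (enc_norm (bf1q0_3.enc h1.l h2)) (pr_norm (pr_csub (enc_rat _ 11 1750000) (pr_scale 61 17500 h1))))) (pr_case (pr_subr 1 4 h1) (pr_add (pr_csub (enc_rat _ 65000119 65000000) (pr_scale 1063853 650000 h1)) (pr_cmul (enc_norm (bf1q0_3.enc h1.l h2)) (pr_norm (pr_csub (enc_rat _ 7 406250) (pr_scale 93 26000 h1))))) (pr_add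 (pr_csub (enc_rat _ 2500007 2500000) (pr_scale 511469 312500 h1)) (pr_cmul (enc_norm (bf1q0_3.enc h1.l h2)) (pr_norm (pr_csub (enc_rat _ 11 500000) (pr_scale 899 250000 h1)))))))))⟩
noncomputable def kf1q0_fs : Sl2 kf1q0 := ⟨_, fun h1 h2 => (pr_norm (pr_mul (cv1m_fs.snd h1) (bf1q0_fs.snd h1 h2)))⟩
noncomputable def bx1q0_fs : Sl2 bx1q0 := ⟨_, fun h1 h2 => (pr_norm (pr_case (pr_subr 1 20 h1) (pr_case (pr_subr 3 200 h1) (pr_add (pr_scale 12113 150000 h1) (pr_cmul (enc_norm (bx1q0_3.enc h1.l h2)) (pr_nd (pr_scale 67 3750 h1)))) (pr_add (pr_addc (pr_scale 28263 350000 h1) (enc_rat _ 1 35000000)) (pr_cmul (enc_norm (bx1q0_3.enc h1.l h2)) (pr_norm (pr_addc (pr_scale 311 17500 h1) (enc_rat _ 1 700000)))))) (pr_case (pr_subr 3 25 h1) (pr_add (pr_addc (pr_scale 56523 700000 h1) (enc_rat _ 17 70000000)) (pr_cmul (enc_norm (bx1q0_3.enc h1.l h2)) (pr_norm (pr_addc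 (pr_scale 123 7000 h1) (enc_rat _ 1 87500))))) (pr_case (pr_subr 1 4 h1) (pr_add (pr_addc (pr_scale 104963 1300000 h1) (enc_rat _ 131 130000000)) (pr_cmul (enc_norm (bx1q0_3.enc h1.l h2)) (pr_norm (pr_addc (pr_scale 1129 65000 h1) (enc_rat _ 29 812500))))) (pr_add (pr_addc (pr_scale 201831 2500000 h1) (enc_rat _ 31 10000000)) (pr_cmul (enc_norm (bx1q0_3.enc h1.l h2)) (pr_norm (pr_addc (pr_scale 2153 125000 h1) (enc_rat _ 9 125000)))))))))⟩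
noncomputable def l1q0_fs : Sl2 l1q0 := ⟨_, fun h1 h2 => (pr_norm (pr_mul (cv1m_fs.snd h1) (bx1q0_fs.snd h1 h2)))⟩
noncomputable def cv2m_fs : Sl1 cv2m := ⟨_, fun h1 => (pr_norm (pr_addc (swg_fs.snd h1) (enc_rat _ 1 2)))⟩
noncomputable def bf2q0_fs : Sl2 bf2q0 := ⟨_, fun h1 h2 => (pr_norm (pr_case (pr_subr 1 20 h1) (pr_case (pr_subr 3 200 h1) (pr_sub (pr_csub (enc_pnc _ 1) (pr_scale 276793 75000 h1)) (pr_cmul (enc_norm (bf2q0_3.enc h1.l h2)) (pr_nd (pr_scale 19 15000 h1)))) (pr_add (pr_csub (enc_rat _ 10000001 10000000) (pr_scale 184529 50000 h1)) (pr_cmul (enc_norm (bf2q0_3.enc h1.l h2)) (pr_norm (pr_csub (enc_rat _ 1 875000) (pr_scale 47 35000 h1)))))) (pr_case (pr_subr 3 25 h1) (pr_add (pr_csub (enc_rat _ 70000047 70000000) (pr_scale 1291707 350000 h1)) (pr_cmul (enc_norm (bf2q0_3.enc h1.l h2)) (pr_norm (pr_csub (enc_rat _ 19 3500000) (pr_scale 1 700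 h1))))) (pr_case (pr_subr 1 4 h1) (pr_add (pr_csub (enc_rat _ 10000029 10000000) (pr_scale 369061 100000 h1)) (pr_cmul (enc_norm (bf2q0_3.enc h1.l h2)) (pr_norm (pr_csub (enc_rat _ 7 260000) (pr_scale 209 130000 h1))))) (pr_add (pr_csub (enc_rat _ 10000061 10000000) (pr_scale 9226557 2500000 h1)) (pr_cmul (enc_norm (bf2q0_3.enc h1.l h2)) (pr_norm (pr_csub (enc_rat _ 57 1000000) (pr_scale 27 15625 h1)))))))))⟩
noncomputable def kf2q0_fs : Sl2 kf2q0 := ⟨_, fun h1 h2 => (pr_norm (pr_mul (cv2m_fs.snd h1) (bf2q0_fs.snd h1 h2)))⟩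
noncomputable def bx2q0_8_fs : Sl2 bx2q0_8 := ⟨_, fun h1 h2 => (pr_scale 843 10000 h1)⟩
noncomputable def bx2q0_fs : Sl2 bx2q0 := ⟨_, fun h1 h2 => (pr_norm (pr_case (pr_subr 1 20 h1) (pr_case (pr_subr 3 200 h1) (pr_add (bx2q0_8_fs.snd h1 h2) (pr_cmul (enc_norm (bx2q0_3.enc h1.l h2)) (pr_nd (pr_scale 727 15000 h1)))) (pr_add (bx2q0_8_fs.snd h1 h2) (pr_cmul (enc_norm (bx2q0_3.enc h1.l h2)) (pr_norm (pr_addc (pr_scale 1693 35000 h1) (enc_rat _ 1 700000)))))) (pr_case (pr_subr 3 25 h1) (pr_add (pr_addc (pr_scale 8429 100000 h1) (enc_rat _ 1 2000000)) (pr_cmul (enc_norm (bx2q0_3.enc h1.l h2)) (pr_norm (pr_addc (pr_scale 423 8750 h1) (enc_rat _ 1 350000))))) (pr_case (pr_subr 1 4 h1) (pr_add (pr_addc (pr_scale 109559 1300000 h1) (enc_rat _ 281 130000000)) (pr_cmul (enc_norm (bx2q0_3.enc h1.l h2)) (pr_norm (pr_addc (pr_scale 251 5200 h1) (enc_rat _ 19 1625000)))))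 (pr_add (pr_addc (pr_scale 26333 312500 h1) (enc_rat _ 3 625000)) (pr_cmul (enc_norm (bx2q0_3.enc h1.l h2)) (pr_norm (pr_addc (pr_scale 6039 125000 h1) (enc_rat _ 1 1000000)))))))))⟩
noncomputable def l2q0_fs : Sl2 l2q0 := ⟨_, fun h1 h2 => (pr_norm (pr_mul (cv2m_fs.snd h1) (bx2q0_fs.snd h1 h2)))⟩
noncomputable def kf0q1_10_fs : Sl2 kf0q1_10 := ⟨_, fun h1 h2 => (pr_scale 3 2 h1)⟩
noncomputable def kf0q1_fs : Sl2 kf0q1 := ⟨_, fun h1 h2 => (pr_norm (pr_add (pr_mul (pr_norm (pr_mul (pr_norm (pr_cadd (enc_pnc _ 1) (pr_nat 2 (c1g_fs.snd h1)))) (pr_norm (pr_sub (kf0q1_10_fs.snd h1 h2) (c1g_fs.snd h1))))) (pr_nd (pr_inv (pr_nat 2 (pr_sub (pr_cadd (enc_pnc _ 1) (kf0q1_10_fs.snd h1 h2)) (c1g_fs.snd h1)))))) (pr_mul (pr_norm (pr_subn 1 h1)) (kcg_fs.snd (pr_norm (pr_sub (pr_scale 3 4 h1) (pr_half (c1g_fs.snd h1)))) h2))))⟩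
noncomputable def l0q1_fs : Sl2 l0q1 := ⟨_, fun h1 h2 => (pr_norm (txg_fs.snd (pr_norm (pr_sub (pr_scale 3 4 h1) (pr_half (c1g_fs.snd h1)))) (pr_nd (c1g_fs.snd h1)) h2))⟩
noncomputable def cv2p_fs : Sl1 cv2p := ⟨_, fun h1 => (pr_norm (pr_subr 1 2 (swg_fs.snd h1)))⟩
noncomputable def gsg_fs : Sl1 gsg := ⟨_, fun h1 => (pr_sqrt (pr_csub (enc_pnc _ 1) (pr_scale 3 4 (pr_sq h1))))⟩
noncomputable def esg_fs : Sl1 esg := ⟨_, fun h1 => (pr_norm (pr_subn 1 (pr_add (pr_half h1) (gsg_fs.snd h1))))⟩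
noncomputable def kf2q2_67_fs : Sl2 kf2q2_67 := ⟨_, fun h1 h2 => (pr_subn 1 h1)⟩
noncomputable def kf2q2_68_fs : Sl2 kf2q2_68 := ⟨_, fun h1 h2 => (gsg_fs.snd (pr_norm (kf2q2_67_fs.snd h1 h2)))⟩
noncomputable def kf2q2_74_fs : Sl2 kf2q2_74 := ⟨_, fun h1 h2 => (pr_scale 3 2 (kf2q2_67_fs.snd h1 h2))⟩
noncomputable def kf2q2_76_fs : Sl2 kf2q2_76 := ⟨_, fun h1 h2 => (pr_cadd (enc_pnc _ 1) (kf2q2_68_fs.snd h1 h2))⟩
noncomputable def kf2q2_fs : Sl2 kf2q2 := ⟨_, fun h1 h2 => (pr_norm (pr_case (pr_subr 67 64 h1) (pr_mul (cv2p_fs.snd h1) (pr_norm (pr_case (pr_subr 203 200 h1) (pr_add (pr_csub (enc_rat _ 79819 75000) (pr_scale 4819 75000 h1)) (pr_cmul (enc_norm (kf2q2_4.enc h1.l h2)) (pr_norm (pr_csub (enc_rat _ 403 7500) (pr_scale 403 7500 h1))))) (pr_add (pr_csub (enc_rat _ 5653207669 5312500000) (pr_scale 3407171 53125000 h1)) (pr_cmul (enc_norm (kf2q2_4.enc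 h1.l h2)) (pr_norm (pr_csub (enc_rat _ 130074241 2125000000) (pr_scale 649197 10625000 h1)))))))) (pr_case (pr_subr 73 64 h1) (pr_add (pr_sub (pr_mul (pr_norm (pr_mul (pr_norm (pr_sub (kf2q2_68_fs.snd h1 h2) (kf2q2_74_fs.snd h1 h2))) (pr_norm (kf2q2_76_fs.snd h1 h2)))) (pr_nd (pr_inv (pr_sub (kf2q2_76_fs.snd h1 h2) (kf2q2_74_fs.snd h1 h2))))) (pr_mul (pr_norm (pr_sub (pr_half (kf2q2_67_fs.snd h1 h2)) (pr_mul (pr_nd (pr_scale 3 4 (pr_sq (pr_norm (kf2q2_67_fs.snd h1 h2))))) (pr_nd (pr_inv (kf2q2_68_fs.snd h1 h2)))))) (pr_nd (pr_inv (pr_nat 2 (esg_fs.snd (pr_norm (kf2q2_67_fs.snd h1 h2)))))))) (pr_mul (kcg_fs.snd (pr_norm (pr_sub (pr_scale 3 4 (kf2q2_67_fs.snd h1 h2)) (pr_half (kf2q2_68_fs.snd h1 h2)))) h2) (pr_norm (kf2q2_67_fs.snd h1 h2)))) (pr_mul (cv2p_fs.snd h1) (pr_norm (pr_case (pr_subr 29 25 h1) (pr_add (pr_csub (enc_rat _ 93138060321 19375000000)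 (pr_scale 326466503 96875000 h1)) (pr_cmul (enc_norm (kf2q2_4.enc h1.l h2)) (pr_norm (pr_subr 114080433 3875000000 (pr_scale 465219 19375000 h1))))) (pr_case (pr_subr 13 10 h1) (pr_add (pr_csub (enc_rat _ 336499 70000) (pr_scale 4717971 1400000 h1)) (pr_cmul (enc_norm (kf2q2_4.enc h1.l h2)) (pr_norm (pr_subr 65397 7000000 (pr_scale 117 17500 h1))))) (pr_add (pr_csub (enc_rat _ 9614259 2000000) (pr_scale 168499 50000 h1)) (pr_cmul (enc_norm (kf2q2_4.enc h1.l h2)) (pr_norm (pr_subr 9309 1000000 (pr_scale 333 50000 h1))))))))))))⟩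
noncomputable def qsg_fs : Sl1 qsg := ⟨_, fun h1 => (pr_norm (pr_mul (pr_norm (pr_csub (enc_pnc _ 1) (gsg_fs.snd h1))) (pr_norm (pr_subn 1 (pr_nat 2 (gsg_fs.snd h1))))))⟩
noncomputable def l2q2_80_fs : Sl2 l2q2_80 := ⟨_, fun h1 h2 => (pr_subn 1 h1)⟩
noncomputable def l2q2_fs : Sl2 l2q2 := ⟨_, fun h1 h2 => (pr_norm (pr_case (pr_subr 67 64 h1) (pr_mul (cv2p_fs.snd h1) (pr_norm (pr_case (pr_subr 203 200 h1) (pr_add (pr_subr 771 12500 (pr_scale 771 12500 h1)) (pr_cmul (enc_norm (l2q2_4.enc h1.l h2)) (pr_norm (pr_subr 4753 7500 (pr_scale 4753 7500 h1))))) (pr_add (pr_add (pr_subr 224144183 3187500000 (pr_scale 559343 7968750 h1)) (pr_cmul (enc_norm (l2q2_4.enc h1.l h2)) (pr_norm (pr_subr 4540784213 6375000000 (pr_scale 22666921 31875000 h1))))) (pr_cmul (l2q2_31.enc h1.l h2) (pr_norm (pr_csub (enc_rat _ 539371 6375000) (pr_scale 2657 31875 h1)))))))) (pr_case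 (pr_subr 73 64 h1) (pr_sub (qsg_fs.snd (pr_norm (l2q2_80_fs.snd h1 h2))) (pr_mul (pr_norm (pr_nat 2 (pr_subc (l2q2_80_fs.snd h1 h2) h2))) (pr_norm (pr_mul (esg_fs.snd (pr_norm (l2q2_80_fs.snd h1 h2))) (kcg_fs.snd (pr_norm (pr_sub (pr_scale 3 4 (l2q2_80_fs.snd h1 h2)) (pr_half (gsg_fs.snd (pr_norm (l2q2_80_fs.snd h1 h2)))))) h2))))) (pr_mul (cv2p_fs.snd h1) (pr_norm (pr_case (pr_subr 29 25 h1) (pr_add (pr_add (pr_subr 3339068509 38750000000 (pr_scale 16578187 193750000 h1)) (pr_cmul (enc_norm (l2q2_4.enc h1.l h2)) (pr_norm (pr_csub (enc_rat _ 8540131129 1937500000) (pr_scale 18404361 4843750 h1))))) (pr_cmul (l2q2_31.enc h1.l h2) (pr_norm (pr_subr 10643 96875 (pr_scale 367 3875 h1))))) (pr_case (pr_subr 13 10 h1) (pr_add (pr_subr 6030081 70000000 (pr_scale 1497 17500 h1)) (pr_cmul (enc_norm (l2q2_4.enc h1.l h2)) (pr_norm (pr_subr 2279 218750 (pr_scale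 1289 140000 h1))))) (pr_add (pr_subr 1722611 20000000 (pr_scale 34213 400000 h1)) (pr_cmul (enc_norm (l2q2_4.enc h1.l h2)) (pr_norm (pr_subr 20103 2000000 (pr_scale 357 40000 h1))))))))))))⟩
noncomputable def gug_fs : Sl1 gug := ⟨_, fun h1 => (pr_norm (pr_add (pr_scale 3 4 h1) (pr_scale 3 2 (pr_csub (enc_pnc _ 1) (gsg_fs.snd h1)))))⟩
noncomputable def kug_2_fs : Sl1 kug_2 := ⟨_, fun h1 => (pr_sq h1)⟩
noncomputable def kug_fs : Sl1 kug := ⟨_, fun h1 => (pr_norm (pr_add (pr_add (pr_scale 3 4 h1) (pr_scale 3 2 (kug_2_fs.snd h1))) (pr_mul (pr_norm (pr_mul (pr_nd (pr_scale 3 4 (kug_2_fs.snd h1))) (pr_nd (pr_inv (gsg_fs.snd h1))))) (gug_fs.snd h1))))⟩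
noncomputable def kp0q0_8_fs : Sl2 kp0q0_8 := ⟨_, fun h1 h2 => (pr_sub (pr_scale 3 4 h1) (pr_half (c1g_fs.snd h1)))⟩
noncomputable def kp0q0_fs : Sl2 kp0q0 := ⟨_, fun h1 h2 => (pr_norm (pr_case (pr_addc (kp0q0_8_fs.snd h1 h2) (enc_rat _ 587 1262)) (pr_mul h1 (pr_norm (pr_add (pr_subr 115338028397 110000000000 (pr_neg (pr_scale 135071599397 55000000000 (kp0q0_8_fs.snd h1 h2)))) (pr_cmul (enc_norm (kp0q0_3.enc h1.l h2)) (pr_norm (pr_addc (pr_scale 65332406697 44000000000 (kp0q0_8_fs.snd h1 h2)) (enc_rat _ 66070814697 88000000000))))))) (pr_case (pr_addc (kp0q0_8_fs.snd h1 h2) (enc_rat _ 613 1574)) (pr_sub (kug_fs.snd h1) (pr_mul h1 (pr_norm (pr_mul (kcg_fs.snd (pr_norm (kp0q0_8_fs.snd h1 h2)) h2) (pr_norm (pr_add (gug_fs.snd h1) (pr_nat 2 (c1g_fs.snd h1)))))))) (pr_mul h1 (pr_norm (pr_case (pr_addc (kp0q0_8_fs.snd h1 h2) (enc_rat _ 1 4)) (pr_case (pr_addc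 (kp0q0_8_fs.snd h1 h2) (enc_rat _ 7 20)) (pr_add (pr_csub (enc_rat _ 102378567731 414000000000) (pr_scale 6570852667 20700000000 (kp0q0_8_fs.snd h1 h2))) (pr_cmul (enc_norm (kp0q0_3.enc h1.l h2)) (pr_norm (pr_subr 4081302623 90000000000 (pr_neg (pr_scale 692046089 4500000000 (kp0q0_8_fs.snd h1 h2))))))) (pr_add (pr_csub (enc_rat _ 4946101 20000000) (pr_scale 317393 1000000 (kp0q0_8_fs.snd h1 h2))) (pr_cmul (enc_norm (kp0q0_3.enc h1.l h2)) (pr_norm (pr_subr 2361 100000 (pr_neg (pr_scale 573 6250 (kp0q0_8_fs.snd h1 h2)))))))) (pr_case (kp0q0_8_fs.snd h1 h2) (pr_add (pr_csub (enc_rat _ 154587 625000) (pr_scale 793141 2500000 (kp0q0_8_fs.snd h1 h2))) (pr_cmul (enc_norm (kp0q0_3.enc h1.l h2)) (pr_norm (pr_subr 6063 250000 (pr_neg (pr_scale 11781 125000 (kp0q0_8_fs.snd h1 h2))))))) (pr_add (pr_csub (enc_rat _ 154587 625000) (pr_scale 792507 2500000 (kp0q0_8_fs.snd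 h1 h2))) (pr_cmul (enc_norm (kp0q0_3.enc h1.l h2)) (pr_norm (pr_subr 6063 250000 (pr_neg (pr_scale 12847 125000 (kp0q0_8_fs.snd h1 h2))))))))))))))⟩
noncomputable def kn0q0_fs : Sl2 kn0q0 := ⟨_, fun h1 h2 => (pr_norm (pr_add (pr_cmul (enc_norm (enc_add (enc_pnc _ 1) (enc_mul (mug3.enc h2) (gug.enc h2)))) (kf0q0_fs.snd h1 h2)) (pr_cmul (mug3.enc h2) (kp0q0_fs.snd h1 h2))))⟩
noncomputable def bd1q0_fs : Sl2 bd1q0 := ⟨_, fun h1 h2 => (pr_norm (pr_case (pr_subr 1 10 h1) (pr_sub (pr_neg (pr_scale 966177 200000 h1)) (pr_cmul (enc_norm (bd1q0_3.enc h1.l h2)) (pr_nd (pr_scale 3 12500 h1)))) (pr_add (pr_csub (enc_rat _ 39 40000000) (pr_scale 19323579 4000000 h1)) (pr_cmul (enc_norm (bd1q0_3.enc h1.l h2)) (pr_norm (pr_csub (enc_rat _ 37 4000000) (pr_scale 133 400000 h1)))))))⟩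
noncomputable def kp1q0_fs : Sl2 kp1q0 := ⟨_, fun h1 h2 => (pr_norm (pr_mul (cv1m_fs.snd h1) (bd1q0_fs.snd h1 h2)))⟩
noncomputable def kn1q0_fs : Sl2 kn1q0 := ⟨_, fun h1 h2 => (pr_norm (pr_add (pr_cmul (enc_norm (enc_add (enc_pnc _ 1) (enc_mul (mug3.enc h2) (gug.enc h2)))) (kf1q0_fs.snd h1 h2)) (pr_cmul (mug3.enc h2) (kp1q0_fs.snd h1 h2))))⟩
noncomputable def bd2q0_fs : Sl2 bd2q0 := ⟨_, fun h1 h2 => (pr_norm (pr_case (pr_subr 1 10 h1) (pr_sub (pr_cmul (enc_norm (bd2q0_3.enc h1.l h2)) (pr_nd (pr_scale 3 100000 h1))) (pr_scale 1148881 500000 h1)) (pr_add (pr_csub (enc_rat _ 61 40000000) (pr_scale 9191109 4000000 h1)) (pr_cmul (enc_norm (bd2q0_3.enc h1.l h2)) (pr_norm (pr_csub (enc_rat _ 11 1000000) (pr_scale 1 12500 h1)))))))⟩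
noncomputable def kp2q0_fs : Sl2 kp2q0 := ⟨_, fun h1 h2 => (pr_norm (pr_mul (cv2m_fs.snd h1) (bd2q0_fs.snd h1 h2)))⟩
noncomputable def kn2q0_fs : Sl2 kn2q0 := ⟨_, fun h1 h2 => (pr_norm (pr_add (pr_cmul (enc_norm (enc_add (enc_pnc _ 1) (enc_mul (mug3.enc h2) (gug.enc h2)))) (kf2q0_fs.snd h1 h2)) (pr_cmul (mug3.enc h2) (kp2q0_fs.snd h1 h2))))⟩
noncomputable def kp0q1_9_fs : Sl2 kp0q1_9 := ⟨_, fun h1 h2 => (pr_sub (pr_scale 3 4 h1) (pr_half (c1g_fs.snd h1)))⟩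
noncomputable def kp0q1_fs : Sl2 kp0q1 := ⟨_, fun h1 h2 => (pr_norm (pr_mul (pr_norm (pr_subn 1 h1)) (pr_norm (pr_case (pr_addc (kp0q1_9_fs.snd h1 h2) (enc_rat _ 1 4)) (pr_case (pr_addc (kp0q1_9_fs.snd h1 h2) (enc_rat _ 7 20)) (pr_add (pr_csub (enc_rat _ 102378567731 414000000000) (pr_scale 6570852667 20700000000 (kp0q1_9_fs.snd h1 h2))) (pr_cmul (enc_norm (kp0q1_3.enc h1.l h2)) (pr_norm (pr_subr 4081302623 90000000000 (pr_neg (pr_scale 692046089 4500000000 (kp0q1_9_fs.snd h1 h2))))))) (pr_add (pr_csub (enc_rat _ 4946101 20000000) (pr_scale 317393 1000000 (kp0q1_9_fs.snd h1 h2))) (pr_cmul (enc_norm (kp0q1_3.enc h1.l h2)) (pr_norm (pr_subr 2361 100000 (pr_neg (pr_scale 573 6250 (kp0q1_9_fs.snd h1 h2)))))))) (pr_case (kp0q1_9_fs.snd h1 h2) (pr_add (pr_csub (enc_rat _ 154587 625000) (pr_scale 793141 2500000 (kp0q1_9_fs.snd h1 h2))) (pr_cmul (enc_norm (kp0q1_3.enc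 h1.l h2)) (pr_norm (pr_subr 6063 250000 (pr_neg (pr_scale 11781 125000 (kp0q1_9_fs.snd h1 h2))))))) (pr_add (pr_csub (enc_rat _ 154587 625000) (pr_scale 792507 2500000 (kp0q1_9_fs.snd h1 h2))) (pr_cmul (enc_norm (kp0q1_3.enc h1.l h2)) (pr_norm (pr_subr 6063 250000 (pr_neg (pr_scale 12847 125000 (kp0q1_9_fs.snd h1 h2))))))))))))⟩
noncomputable def kn0q1_fs : Sl2 kn0q1 := ⟨_, fun h1 h2 => (pr_norm (pr_add (pr_cmul (enc_norm (enc_add (enc_pnc _ 1) (enc_mul (mug3.enc h2) (gug.enc h2)))) (kf0q1_fs.snd h1 h2)) (pr_cmul (mug3.enc h2) (kp0q1_fs.snd h1 h2))))⟩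
noncomputable def kp2q2_28_fs : Sl2 kp2q2_28 := ⟨_, fun h1 h2 => (pr_subn 1 h1)⟩
noncomputable def kp2q2_29_fs : Sl2 kp2q2_29 := ⟨_, fun h1 h2 => (gsg_fs.snd (pr_norm (kp2q2_28_fs.snd h1 h2)))⟩
noncomputable def kp2q2_33_fs : Sl2 kp2q2_33 := ⟨_, fun h1 h2 => (esg_fs.snd (pr_norm (kp2q2_28_fs.snd h1 h2)))⟩
noncomputable def kp2q2_41_fs : Sl2 kp2q2_41 := ⟨_, fun h1 h2 => (pr_mul (pr_nd (pr_scale 3 4 (pr_sq (pr_norm (kp2q2_28_fs.snd h1 h2))))) (pr_nd (pr_inv (kp2q2_29_fs.snd h1 h2))))⟩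
noncomputable def kp2q2_fs : Sl2 kp2q2 := ⟨_, fun h1 h2 => (pr_norm (pr_case (pr_subr 67 64 h1) (pr_mul (cv2p_fs.snd h1) (pr_norm (pr_add (pr_subr 16071141 156250000 (pr_scale 16071141 156250000 h1)) (pr_cmul (enc_norm (kp2q2_4.enc h1.l h2)) (pr_norm (pr_subr 474877 7812500 (pr_scale 474877 7812500 h1))))))) (pr_case (pr_subr 73 64 h1) (pr_add (pr_sub (kug_fs.snd (pr_norm (kp2q2_28_fs.snd h1 h2))) (pr_mul (pr_norm (pr_sub (pr_mul (pr_norm (pr_mul (pr_norm (kp2q2_41_fs.snd h1 h2)) (pr_norm (pr_subn 3 (pr_nat 4 (kp2q2_29_fs.snd h1 h2)))))) (kp2q2_33_fs.snd h1 h2)) (pr_mul (qsg_fs.snd (pr_norm (kp2q2_28_fs.snd h1 h2))) (pr_norm (pr_sub (pr_half (kp2q2_28_fs.snd h1 h2)) (kp2q2_41_fs.snd h1 h2)))))) (pr_nd (pr_inv (pr_mul (pr_nd (pr_nat 2 (kp2q2_33_fs.snd h1 h2))) (kp2q2_33_fs.snd h1 h2)))))) (pr_mul (pr_norm (pr_mul (pr_norm (kp2q2_28_fs.snd h1 h2)) (kcg_fs.snd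 (pr_norm (pr_sub (pr_scale 3 4 (kp2q2_28_fs.snd h1 h2)) (pr_half (kp2q2_29_fs.snd h1 h2)))) h2))) (pr_norm (pr_sub (pr_csub (enc_pnc _ 1) (gug_fs.snd (pr_norm (kp2q2_28_fs.snd h1 h2)))) (pr_nat 2 (kp2q2_29_fs.snd h1 h2)))))) (pr_mul (cv2p_fs.snd h1) (pr_norm (pr_add (pr_csub (enc_rat _ 74135639273 28750000000) (pr_scale 993051663 449218750 h1)) (pr_cmul (enc_norm (kp2q2_4.enc h1.l h2)) (pr_norm (pr_csub (enc_rat _ 27141437 2875000000) (pr_scale 1131013 179687500 h1))))))))))⟩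
noncomputable def kn2q2_fs : Sl2 kn2q2 := ⟨_, fun h1 h2 => (pr_norm (pr_add (pr_cmul (enc_norm (enc_add (enc_pnc _ 1) (enc_mul (mug3.enc h2) (gug.enc h2)))) (kf2q2_fs.snd h1 h2)) (pr_cmul (mug3.enc h2) (kp2q2_fs.snd h1 h2))))⟩
noncomputable def dlg : Fn2 := ⟨_, _, fun h1 h2 => (kcg.enc (enc_norm (enc_sub (enc_scale 3 4 h1) (enc_half (c1g.enc h1)))) h2)⟩

end Pool.Agent.Strip051.G.I1_16_1_8.Tab
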