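import Pool.Agent.Strip051.G.I1_16_1_8.Tab
import Pool.Agent.Strip051.PB.C12G

/-! # Slopes of the tables near the lattice heights (generated) -/

set_option linter.all false

namespace Pool.Agent.Strip051.G.I1_16_1_8.Tab

open Pool.Agent.Strip051.PB

attribute [local irreducible] padd psub pneg pmul psq pinv psqrt psqrtg pabs pps pmax pmin pphi plam
  pcase phf pnat prat pscale pnorm pdc pnc pone ppos pnn Enc pbad pzero

noncomputable def idf_s : Sl1 idf := ⟨fun _ _ D => D, fun h => h⟩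

noncomputable def c1g_s : Sl1 c1g := ⟨_, fun h1 => (pr_sqrtgz (pr_csub (enc_pnc _ 1) (pr_scale 3 4 (pr_sq h1))))⟩
noncomputable def kcg_6_s : Sl2 kcg_6 := ⟨_, fun h1 h2 => (pr_addc h1 (enc_rat _ 613 1574))⟩
noncomputable def kcg_9_s : Sl2 kcg_9 := ⟨_, fun h1 h2 => (pr_addc h1 (enc_rat _ 587 1262))⟩
noncomputable def kcg_12_s : Sl2 kcg_12 := ⟨_, fun h1 h2 => (pr_addc h1 (enc_rat _ 97 200))⟩
noncomputable def kcg_13_s : Sl2 kcg_13 := ⟨_, fun h1 h2 => (pr_scale 5437 6000 h1)⟩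
noncomputable def kcg_18_s : Sl2 kcg_18 := ⟨_, fun h1 h2 => (pr_scale 27973 75000 h1)⟩
noncomputable def kcg_36_s : Sl2 kcg_36 := ⟨_, fun h1 h2 => (pr_scale 284248463 313375000 h1)⟩
noncomputable def kcg_41_s : Sl2 kcg_41 := ⟨_, fun h1 h2 => (pr_scale 23027083 62675000 h1)⟩
noncomputable def kcg_57_s : Sl2 kcg_57 := ⟨_, fun h1 h2 => (pr_addc h1 (enc_rat _ 43 100))⟩
noncomputable def kcg_58_s : Sl2 kcg_58 := ⟨_, fun h1 h2 => (pr_scale 673338207 739000000 h1)⟩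
noncomputable def kcg_63_s : Sl2 kcg_63 := ⟨_, fun h1 h2 => (pr_scale 75999533 221700000 h1)⟩
noncomputable def kcg_76_s : Sl2 kcg_76 := ⟨_, fun h1 h2 => (pr_scale 2934062707 3191000000 h1)⟩
noncomputable def kcg_81_s : Sl2 kcg_81 := ⟨_, fun h1 h2 => (pr_scale 1670801 6382000 h1)⟩
noncomputable def kcg_98_s : Sl2 kcg_98 := ⟨_, fun h1 h2 => (pr_addc h1 (enc_rat _ 1 4))⟩
noncomputable def kcg_101_s : Sl2 kcg_101 := ⟨_, fun h1 h2 => (pr_addc h1 (enc_rat _ 17 50))⟩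
noncomputable def kcg_102_s : Sl2 kcg_102 := ⟨_, fun h1 h2 => (pr_scale 112751129 121625000 h1)⟩
noncomputable def kcg_107_s : Sl2 kcg_107 := ⟨_, fun h1 h2 => (pr_scale 10488349 77840000 h1)⟩
noncomputable def kcg_120_s : Sl2 kcg_120 := ⟨_, fun h1 h2 => (pr_scale 522763 562500 h1)⟩
noncomputable def kcg_125_s : Sl2 kcg_125 := ⟨_, fun h1 h2 => (pr_scale 5039 150000 h1)⟩
noncomputable def kcg_142_s : Sl2 kcg_142 := ⟨_, fun h1 h2 => (pr_addc h1 (enc_rat _ 3 20))⟩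
noncomputable def kcg_143_s : Sl2 kcg_143 := ⟨_, fun h1 h2 => (pr_scale 9237727 10000000 h1)⟩
noncomputable def kcg_148_s : Sl2 kcg_148 := ⟨_, fun h1 h2 => (pr_scale 15599 1000000 h1)⟩
noncomputable def kcg_167_s : Sl2 kcg_167 := ⟨_, fun h1 h2 => (pr_scale 2594263 4500000 h1)⟩
noncomputable def kcg_172_s : Sl2 kcg_172 := ⟨_, fun h1 h2 => (pr_scale 2017 150000 h1)⟩
noncomputable def kcg_190_s : Sl2 kcg_190 := ⟨_, fun h1 h2 => (pr_scale 1406947 6000000 h1)⟩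
noncomputable def kcg_198_s : Sl2 kcg_198 := ⟨_, fun h1 h2 => (pr_csub (enc_rat _ 613 1574) h1)⟩
noncomputable def kcg_199_s : Sl2 kcg_199 := ⟨_, fun h1 h2 => (pr_csub (enc_rat _ 587 1262) h1)⟩
noncomputable def kcg_200_s : Sl2 kcg_200 := ⟨_, fun h1 h2 => (pr_csub (enc_rat _ 97 200) h1)⟩
noncomputable def kcg_221_s : Sl2 kcg_221 := ⟨_, fun h1 h2 => (pr_csub (enc_rat _ 43 100) h1)⟩
noncomputable def kcg_242_s : Sl2 kcg_242 := ⟨_, fun h1 h2 => (pr_csub (enc_rat _ 1 4) h1)⟩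
noncomputable def kcg_243_s : Sl2 kcg_243 := ⟨_, fun h1 h2 => (pr_csub (enc_rat _ 17 50) h1)⟩
noncomputable def kcg_263_s : Sl2 kcg_263 := ⟨_, fun h1 h2 => (pr_csub (enc_rat _ 3 20) h1)⟩
noncomputable def kcg_s : Sl2 kcg := ⟨_, fun h1 h2 => (pr_norm (pr_case h1 (pr_case (kcg_6_s.snd h1 h2) (pr_case (kcg_9_s.snd h1 h2) (pr_case (kcg_12_s.snd h1 h2) (pr_add (pr_add (pr_subr 9653681 150000000 (pr_neg (kcg_13_s.snd h1 h2))) (pr_cmul (enc_norm (kcg_3.enc h1.l h2)) (pr_norm (pr_addc (kcg_18_s.snd h1 h2) (enc_rat _ 4320521 30000000))))) (pr_cmul (enc_norm (kcg_28.enc h1.l h2)) (pr_norm (pr_mul (pr_norm (pr_addc h1 (enc_rat _ 1 2))) (pr_norm (pr_csub (enc_neg (enc_rat _ 97 200)) h1)))))) (pr_add (pr_add (pr_subr 4060642643 62675000000 (pr_neg (kcg_36_s.snd h1 h2))) (pr_cmul (enc_norm (kcg_3.enc h1.l h2)) (pr_norm (pr_addc (kcg_41_s.snd h1 h2) (enc_rat _ 3542805373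 25070000000))))) (pr_cmul (enc_norm (kcg_49.enc h1.l h2)) (pr_norm (pr_mul (pr_norm (kcg_12_s.snd h1 h2)) (pr_norm (pr_csub (enc_neg (enc_rat _ 587 1262)) h1))))))) (pr_case (kcg_57_s.snd h1 h2) (pr_add (pr_add (pr_subr 2464284697 36950000000 (pr_neg (kcg_58_s.snd h1 h2))) (pr_cmul (enc_norm (kcg_3.enc h1.l h2)) (pr_norm (pr_addc (kcg_63_s.snd h1 h2) (enc_rat _ 2879299913 22170000000))))) (pr_cmul (enc_norm (kcg_71.enc h1.l h2)) (pr_norm (pr_mul (pr_norm (kcg_9_s.snd h1 h2)) (pr_norm (pr_csub (enc_neg (enc_rat _ 43 100)) h1)))))) (pr_add (pr_add (pr_subr 11212462909 159550000000 (pr_neg (kcg_76_s.snd h1 h2))) (pr_cmul (enc_norm (kcg_3.enc h1.l h2)) (pr_norm (pr_addc (kcg_81_s.snd h1 h2) (enc_rat _ 758195603 7977500000))))) (pr_cmul (enc_norm (kcg_89.enc h1.l h2)) (pr_norm (pr_mul (pr_norm (kcg_57_s.snd h1 h2)) (pr_norm (pr_csub (enc_neg (enc_rat _ 613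 1574)) h1)))))))) (pr_case (kcg_98_s.snd h1 h2) (pr_case (kcg_101_s.snd h1 h2) (pr_add (pr_add (pr_subr 445264319 6081250000 (pr_neg (kcg_102_s.snd h1 h2))) (pr_cmul (enc_norm (kcg_3.enc h1.l h2)) (pr_norm (pr_addc (kcg_107_s.snd h1 h2) (enc_rat _ 886580447 19460000000))))) (pr_cmul (enc_norm (kcg_115.enc h1.l h2)) (pr_norm (pr_mul (pr_norm (kcg_6_s.snd h1 h2)) (pr_norm (pr_csub (enc_neg (enc_rat _ 17 50)) h1)))))) (pr_add (pr_add (pr_subr 41629 562500 (pr_neg (kcg_120_s.snd h1 h2))) (pr_cmul (enc_norm (kcg_3.enc h1.l h2)) (pr_norm (pr_addc (kcg_125_s.snd h1 h2) (enc_rat _ 335053 30000000))))) (pr_cmul (enc_norm (kcg_134.enc h1.l h2)) (pr_norm (pr_mul (pr_norm (kcg_101_s.snd h1 h2)) (pr_norm (pr_csub (enc_neg (enc_rat _ 1 4)) h1))))))) (pr_case (kcg_142_s.snd h1 h2) (pr_add (pr_add (pr_subr 2904447 40000000 (pr_neg (kcg_143_s.snd h1 h2))) (pr_cmul (enc_norm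 (kcg_3.enc h1.l h2)) (pr_norm (pr_subr 22593 20000000 (pr_neg (kcg_148_s.snd h1 h2)))))) (pr_cmul (enc_norm (kcg_159.enc h1.l h2)) (pr_norm (pr_mul (pr_norm (kcg_98_s.snd h1 h2)) (pr_norm (pr_csub (enc_neg (enc_rat _ 3 20)) h1)))))) (pr_case (pr_addc h1 (enc_rat _ 3 50)) (pr_add (pr_add (pr_subr 6156211 300000000 (pr_neg (kcg_167_s.snd h1 h2))) (pr_cmul (enc_norm (kcg_3.enc h1.l h2)) (pr_norm (pr_subr 2017 2500000 (pr_neg (kcg_172_s.snd h1 h2)))))) (pr_cmul (enc_norm (kcg_185.enc h1.l h2)) (pr_norm (pr_mul (pr_norm (kcg_142_s.snd h1 h2)) (pr_norm (pr_csub (enc_neg (enc_rat _ 3 50)) h1)))))) (pr_neg (kcg_190_s.snd h1 h2)))))) (pr_neg (pr_case (kcg_198_s.snd h1 h2) (pr_case (kcg_199_s.snd h1 h2) (pr_case (kcg_200_s.snd h1 h2) (pr_add (pr_add (pr_subr 9653681 150000000 (kcg_13_s.snd h1 h2)) (pr_cmul (enc_norm (kcg_3.enc h1.l h2)) (pr_norm (pr_csub (enc_rat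 _ 4320521 30000000) (kcg_18_s.snd h1 h2))))) (pr_cmul (enc_norm (kcg_28.enc h1.l h2)) (pr_norm (pr_mul (pr_norm (pr_csub (enc_rat _ 1 2) h1)) (pr_norm (pr_subr 97 200 h1)))))) (pr_add (pr_add (pr_subr 4060642643 62675000000 (kcg_36_s.snd h1 h2)) (pr_cmul (enc_norm (kcg_3.enc h1.l h2)) (pr_norm (pr_csub (enc_rat _ 3542805373 25070000000) (kcg_41_s.snd h1 h2))))) (pr_cmul (enc_norm (kcg_49.enc h1.l h2)) (pr_norm (pr_mul (pr_norm (kcg_200_s.snd h1 h2)) (pr_norm (pr_subr 587 1262 h1))))))) (pr_case (kcg_221_s.snd h1 h2) (pr_add (pr_add (pr_subr 2464284697 36950000000 (kcg_58_s.snd h1 h2)) (pr_cmul (enc_norm (kcg_3.enc h1.l h2)) (pr_norm (pr_csub (enc_rat _ 2879299913 22170000000) (kcg_63_s.snd h1 h2))))) (pr_cmul (enc_norm (kcg_71.enc h1.l h2)) (pr_norm (pr_mul (pr_norm (kcg_199_s.snd h1 h2)) (pr_norm (pr_subr 43 100 h1)))))) (pr_add (pr_add (pr_subr 11212462909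 159550000000 (kcg_76_s.snd h1 h2)) (pr_cmul (enc_norm (kcg_3.enc h1.l h2)) (pr_norm (pr_csub (enc_rat _ 758195603 7977500000) (kcg_81_s.snd h1 h2))))) (pr_cmul (enc_norm (kcg_89.enc h1.l h2)) (pr_norm (pr_mul (pr_norm (kcg_221_s.snd h1 h2)) (pr_norm (pr_subr 613 1574 h1)))))))) (pr_case (kcg_242_s.snd h1 h2) (pr_case (kcg_243_s.snd h1 h2) (pr_add (pr_add (pr_subr 445264319 6081250000 (kcg_102_s.snd h1 h2)) (pr_cmul (enc_norm (kcg_3.enc h1.l h2)) (pr_norm (pr_csub (enc_rat _ 886580447 19460000000) (kcg_107_s.snd h1 h2))))) (pr_cmul (enc_norm (kcg_115.enc h1.l h2)) (pr_norm (pr_mul (pr_norm (kcg_198_s.snd h1 h2)) (pr_norm (pr_subr 17 50 h1)))))) (pr_add (pr_add (pr_subr 41629 562500 (kcg_120_s.snd h1 h2)) (pr_cmul (enc_norm (kcg_3.enc h1.l h2)) (pr_norm (pr_csub (enc_rat _ 335053 30000000) (kcg_125_s.snd h1 h2))))) (pr_cmul (enc_norm (kcg_134.enc h1.l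 h2)) (pr_norm (pr_mul (pr_norm (kcg_243_s.snd h1 h2)) (pr_norm (pr_subr 1 4 h1))))))) (pr_case (kcg_263_s.snd h1 h2) (pr_add (pr_add (pr_subr 2904447 40000000 (kcg_143_s.snd h1 h2)) (pr_cmul (enc_norm (kcg_3.enc h1.l h2)) (pr_norm (pr_subr 22593 20000000 (kcg_148_s.snd h1 h2))))) (pr_cmul (enc_norm (kcg_159.enc h1.l h2)) (pr_norm (pr_mul (pr_norm (kcg_242_s.snd h1 h2)) (pr_norm (pr_subr 3 20 h1)))))) (pr_case (pr_csub (enc_rat _ 3 50) h1) (pr_add (pr_add (pr_subr 6156211 300000000 (kcg_167_s.snd h1 h2)) (pr_cmul (enc_norm (kcg_3.enc h1.l h2)) (pr_norm (pr_subr 2017 2500000 (kcg_172_s.snd h1 h2))))) (pr_cmul (enc_norm (kcg_185.enc h1.l h2)) (pr_norm (pr_mul (pr_norm (kcg_263_s.snd h1 h2)) (pr_norm (pr_subr 3 50 h1)))))) (kcg_190_s.snd h1 h2))))))))⟩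
noncomputable def kf0q0_9_s : Sl2 kf0q0_9 := ⟨_, fun h1 h2 => (pr_scale 3 2 h1)⟩
noncomputable def kf0q0_12_s : Sl2 kf0q0_12 := ⟨_, fun h1 h2 => (pr_cadd (enc_pnc _ 1) (c1g_s.snd h1))⟩
noncomputable def kf0q0_s : Sl2 kf0q0 := ⟨_, fun h1 h2 => (pr_norm (pr_add (pr_mul (pr_norm (pr_mul (pr_norm (pr_sub (c1g_s.snd h1) (kf0q0_9_s.snd h1 h2))) (pr_norm (kf0q0_12_s.snd h1 h2)))) (pr_nd (pr_inv (pr_sub (kf0q0_12_s.snd h1 h2) (kf0q0_9_s.snd h1 h2))))) (pr_mul h1 (kcg_s.snd (pr_norm (pr_sub (pr_scale 3 4 h1) (pr_half (c1g_s.snd h1)))) h2))))⟩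
noncomputable def txg_6_s : Sl3 txg_6 := ⟨_, fun h1 h2 h3 => (pr_add h1 (pr_half h2))⟩
noncomputable def txg_27_s : Sl3 txg_27 := ⟨_, fun h1 h2 h3 => (pr_addc h1 (enc_rat _ 117 250))⟩
noncomputable def txg_77_s : Sl3 txg_77 := ⟨_, fun h1 h2 h3 => (pr_addc h1 (enc_rat _ 613 1574))⟩
noncomputable def txg_79_s : Sl3 txg_79 := ⟨_, fun h1 h2 h3 => (pr_subr 3 50 h1)⟩
noncomputable def txg_82_s : Sl3 txg_82 := ⟨_, fun h1 h2 h3 => (pr_addc h1 (enc_rat _ 6 25))⟩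
noncomputable def txg_85_s : Sl3 txg_85 := ⟨_, fun h1 h2 h3 => (pr_addc h1 (enc_rat _ 9 25))⟩
noncomputable def txg_112_s : Sl3 txg_112 := ⟨_, fun h1 h2 h3 => (pr_addc h1 (enc_rat _ 3 10))⟩
noncomputable def txg_153_s : Sl3 txg_153 := ⟨_, fun h1 h2 h3 => (pr_addc h1 (enc_rat _ 3 25))⟩
noncomputable def txg_156_s : Sl3 txg_156 := ⟨_, fun h1 h2 h3 => (pr_addc h1 (enc_rat _ 9 50))⟩
noncomputable def txg_191_s : Sl3 txg_191 := ⟨_, fun h1 h2 h3 => (pr_addc h1 (enc_rat _ 3 50))⟩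
noncomputable def txg_229_s : Sl3 txg_229 := ⟨_, fun h1 h2 h3 => (pr_subr 6 25 h1)⟩
noncomputable def txg_230_s : Sl3 txg_230 := ⟨_, fun h1 h2 h3 => (pr_subr 3 25 h1)⟩
noncomputable def txg_251_s : Sl3 txg_251 := ⟨_, fun h1 h2 h3 => (pr_subr 9 50 h1)⟩
noncomputable def txg_292_s : Sl3 txg_292 := ⟨_, fun h1 h2 h3 => (pr_subr 9 25 h1)⟩
noncomputable def txg_293_s : Sl3 txg_293 := ⟨_, fun h1 h2 h3 => (pr_subr 3 10 h1)⟩
noncomputable def txg_334_s : Sl3 txg_334 := ⟨_, fun h1 h2 h3 => (pr_subr 43 100 h1)⟩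
noncomputable def txg_s : Sl3 txg := ⟨_, fun h1 h2 h3 => (pr_case (pr_addc h1 (enc_rat _ 587 1262)) (pr_case (txg_27_s.snd h1 h2 h3) (pr_add (pr_add (pr_addc (pr_scale 142139 3200000 h1) (enc_rat _ 142139 6400000)) (pr_cmul (enc_norm (txg_4.enc h1.l h2.l h3)) (pr_norm (pr_addc (pr_scale 72511 160000 h1) (enc_rat _ 72511 320000))))) (pr_cmul (enc_norm (enc_subr 4154979 100000000 (enc_neg (enc_scale 7436081 5000000 (txg_4.enc h1.l h2.l h3))))) (pr_norm (pr_mul (pr_norm (pr_addc h1 (enc_rat _ 1 2))) (pr_norm (pr_csub (enc_neg (enc_rat _ 117 250)) h1)))))) (pr_add (pr_add (pr_add (pr_addc (pr_scale 10119220747 228169600000 h1) (enc_rat _ 253005664867 11408480000000)) (pr_cmul (enc_norm (txg_4.enc h1.l h2.l h3)) (pr_norm (pr_addc (pr_scale 204122834033 456339200000 h1) (enc_rat _ 25536852168421 114084800000000))))) (pr_cmul (txg_63.enc h1.l h2.l h3) (pr_norm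 (pr_subr 242228259 1130000000 (pr_neg (pr_scale 2070327 4520000 h1)))))) (pr_cmul (enc_norm (enc_add (enc_scale 93333073 5000000 (txg_4.enc h1.l h2.l h3)) (enc_rat _ 48835309 100000000))) (pr_norm (pr_mul (pr_norm (txg_27_s.snd h1 h2 h3)) (pr_norm (pr_csub (enc_neg (enc_rat _ 587 1262)) h1))))))) (pr_case (txg_77_s.snd h1 h2 h3) (pr_sub (pr_mul (pr_norm (pr_csub (enc_pnc _ 1) h2)) (pr_norm (pr_subn 1 (pr_nat 2 h2)))) (pr_mul (pr_norm (pr_nat 2 (pr_subc (pr_scale 4 3 (txg_6_s.snd h1 h2 h3)) h3))) (pr_norm (pr_mul (pr_norm (pr_subn 1 (pr_add (pr_scale 2 3 (txg_6_s.snd h1 h2 h3)) h2))) (kcg_s.snd h1 h3))))) (pr_case (txg_79_s.snd h1 h2 h3) (pr_case (txg_82_s.snd h1 h2 h3) (pr_case (txg_85_s.snd h1 h2 h3) (pr_add (pr_add (pr_add (pr_addc (pr_scale 54714077801 456066500000 h1) (enc_rat _ 47845194203 912133000000)) (pr_cmul (enc_norm (txg_4.enc h1.l h2.l h3))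 (pr_norm (pr_subr 146254615029 1824266000000 (pr_neg (pr_scale 54704598741 182426600000 h1)))))) (pr_cmul (txg_63.enc h1.l h2.l h3) (pr_norm (pr_addc (pr_scale 4323 144875 h1) (enc_rat _ 38907 3621875))))) (pr_cmul (enc_norm (enc_subr 74156741 50000000 (enc_scale 157423537 10000000 (txg_4.enc h1.l h2.l h3)))) (pr_norm (pr_mul (pr_norm (txg_77_s.snd h1 h2 h3)) (pr_norm (pr_csub (enc_neg (enc_rat _ 9 25)) h1)))))) (pr_case (txg_112_s.snd h1 h2 h3) (pr_add (pr_add (pr_addc (pr_scale 245339 1500000 h1) (enc_rat _ 1703663 25000000)) (pr_cmul (enc_norm (txg_4.enc h1.l h2.l h3)) (pr_norm (pr_subr 169593 2000000 (pr_neg (pr_scale 187631 600000 h1)))))) (pr_cmul (enc_norm (enc_sub (enc_rat _ 31379 20000000) (enc_scale 234803 31250 (txg_4.enc h1.l h2.l h3)))) (pr_norm (pr_mul (pr_norm (txg_85_s.snd h1 h2 h3)) (pr_norm (pr_csub (enc_neg (enc_rat _ 3 10)) h1))))))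 (pr_add (pr_add (pr_addc (pr_scale 963449 6000000 h1) (enc_rat _ 6725117 100000000)) (pr_cmul (enc_norm (txg_4.enc h1.l h2.l h3)) (pr_norm (pr_addc (pr_scale 82301 600000 h1) (enc_rat _ 100339 2000000))))) (pr_cmul (enc_norm (enc_add (enc_scale 3117 200000 (txg_4.enc h1.l h2.l h3)) (enc_rat _ 96341 2000000))) (pr_norm (pr_mul (pr_norm (txg_112_s.snd h1 h2 h3)) (pr_norm (pr_csub (enc_neg (enc_rat _ 6 25)) h1)))))))) (pr_case (txg_153_s.snd h1 h2 h3) (pr_case (txg_156_s.snd h1 h2 h3) (pr_add (pr_add (pr_addc (pr_scale 37619 250000 h1) (enc_rat _ 1296549 20000000)) (pr_cmul (enc_norm (txg_4.enc h1.l h2.l h3)) (pr_norm (pr_addc (pr_scale 24479 200000 h1) (enc_rat _ 466239 10000000))))) (pr_cmul (enc_norm (enc_add (enc_scale 46123 200000 (txg_4.enc h1.l h2.l h3)) (enc_rat _ 7509 62500))) (pr_norm (pr_mul (pr_norm (txg_82_s.snd h1 h2 h3)) (pr_norm (pr_csub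 (enc_neg (enc_rat _ 9 50)) h1)))))) (pr_add (pr_add (pr_addc (pr_scale 160681 1200000 h1) (enc_rat _ 773049 12500000)) (pr_cmul (enc_norm (txg_4.enc h1.l h2.l h3)) (pr_norm (pr_addc (pr_scale 10091 120000 h1) (enc_rat _ 397293 10000000))))) (pr_cmul (enc_norm (enc_add (enc_scale 40779 100000 (txg_4.enc h1.l h2.l h3)) (enc_rat _ 312219 2000000))) (pr_norm (pr_mul (pr_norm (txg_156_s.snd h1 h2 h3)) (pr_norm (pr_csub (enc_neg (enc_rat _ 3 25)) h1))))))) (pr_case (txg_191_s.snd h1 h2 h3) (pr_add (pr_add (pr_addc (pr_scale 698339 6000000 h1) (enc_rat _ 298713 5000000)) (pr_cmul (enc_norm (txg_4.enc h1.l h2.l h3)) (pr_norm (pr_addc (pr_scale 9 1000 h1) (enc_rat _ 307183 10000000))))) (pr_cmul (enc_norm (enc_add (enc_scale 168751 200000 (txg_4.enc h1.l h2.l h3)) (enc_rat _ 67869 500000))) (pr_norm (pr_mul (pr_norm (txg_153_s.snd h1 h2 h3)) (pr_norm (pr_csub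 (enc_neg (enc_rat _ 3 50)) h1)))))) (pr_add (pr_add (pr_csub (enc_rat _ 5247877 100000000) (pr_scale 2337 500000 h1)) (pr_cmul (enc_norm (txg_4.enc h1.l h2.l h3)) (pr_norm (pr_csub (enc_rat _ 551617 20000000) (pr_scale 51949 1200000 h1))))) (pr_cmul (enc_norm (enc_add (enc_scale 1387 100000 (txg_4.enc h1.l h2.l h3)) (enc_rat _ 940997 1000000))) (pr_norm (pr_mul (pr_norm (txg_191_s.snd h1 h2 h3)) (pr_norm (pr_csub (enc_rat _ 3 50) h1))))))))) (pr_case (txg_229_s.snd h1 h2 h3) (pr_case (txg_230_s.snd h1 h2 h3) (pr_add (pr_add (pr_csub (enc_rat _ 602347 10000000) (pr_scale 267879 2000000 h1)) (pr_cmul (enc_norm (txg_4.enc h1.l h2.l h3)) (pr_norm (pr_csub (enc_rat _ 63323 2500000) (pr_scale 1729 300000 h1))))) (pr_cmul (enc_norm (enc_sub (enc_rat _ 272431 1000000) (enc_scale 65321 100000 (txg_4.enc h1.l h2.l h3)))) (pr_norm (pr_mul (pr_norm (txg_79_s.snd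 h1 h2 h3)) (pr_norm (pr_csub (enc_rat _ 3 25) h1)))))) (pr_case (txg_251_s.snd h1 h2 h3) (pr_add (pr_add (pr_csub (enc_rat _ 1561753 25000000) (pr_scale 19071 125000 h1)) (pr_cmul (enc_norm (txg_4.enc h1.l h2.l h3)) (pr_norm (pr_addc (pr_scale 973 18750 h1) (enc_rat _ 23013 1250000))))) (pr_cmul (enc_norm (enc_sub (enc_rat _ 7609 200000) (enc_scale 61539 200000 (txg_4.enc h1.l h2.l h3)))) (pr_norm (pr_mul (pr_norm (txg_230_s.snd h1 h2 h3)) (pr_norm (pr_csub (enc_rat _ 9 50) h1)))))) (pr_add (pr_add (pr_csub (enc_rat _ 3148649 50000000) (pr_scale 93217 600000 h1)) (pr_cmul (enc_norm (txg_4.enc h1.l h2.l h3)) (pr_norm (pr_addc (pr_scale 24403 300000 h1) (enc_rat _ 65547 5000000))))) (pr_cmul (enc_norm (enc_sub (enc_rat _ 1703 200000) (enc_scale 36633 200000 (txg_4.enc h1.l h2.l h3)))) (pr_norm (pr_mul (pr_norm (txg_251_s.snd h1 h2 h3)) (pr_norm (pr_csub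 (enc_rat _ 6 25) h1)))))))) (pr_case (txg_292_s.snd h1 h2 h3) (pr_case (txg_293_s.snd h1 h2 h3) (pr_add (pr_add (pr_csub (enc_rat _ 3147661 50000000) (pr_scale 232919 1500000 h1)) (pr_cmul (enc_norm (txg_4.enc h1.l h2.l h3)) (pr_norm (pr_addc (pr_scale 55657 600000 h1) (enc_rat _ 10369 1000000))))) (pr_cmul (enc_norm (enc_subr 9887 1000000 (enc_neg (enc_scale 357 50000 (txg_4.enc h1.l h2.l h3))))) (pr_norm (pr_mul (pr_norm (txg_229_s.snd h1 h2 h3)) (pr_norm (pr_csub (enc_rat _ 3 10) h1)))))) (pr_add (pr_add (pr_csub (enc_rat _ 2779951 50000000) (pr_scale 49037 375000 h1)) (pr_cmul (enc_norm (txg_4.enc h1.l h2.l h3)) (pr_norm (pr_addc (pr_scale 49061 600000 h1) (enc_rat _ 13667 1000000))))) (pr_cmul (enc_norm (enc_subr 398679 1000000 (enc_scale 38071 200000 (txg_4.enc h1.l h2.l h3)))) (pr_norm (pr_mul (pr_norm (txg_293_s.snd h1 h2 h3)) (pr_norm (pr_csub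 (enc_rat _ 9 25) h1))))))) (pr_case (txg_334_s.snd h1 h2 h3) (pr_add (pr_add (pr_csub (enc_rat _ 13133317 350000000) (pr_scale 281947 3500000 h1)) (pr_cmul (enc_norm (txg_4.enc h1.l h2.l h3)) (pr_norm (pr_csub (enc_rat _ 211667 1750000) (pr_scale 151373 700000 h1))))) (pr_cmul (enc_norm (enc_subr 150219 400000 (enc_scale 818843 200000 (txg_4.enc h1.l h2.l h3)))) (pr_norm (pr_mul (pr_norm (txg_292_s.snd h1 h2 h3)) (pr_norm (pr_csub (enc_rat _ 43 100) h1)))))) (pr_add (pr_add (pr_csub (enc_rat _ 5151 250000) (pr_scale 5151 125000 h1)) (pr_cmul (enc_norm (txg_4.enc h1.l h2.l h3)) (pr_norm (pr_csub (enc_rat _ 279663 1400000) (pr_scale 279663 700000 h1))))) (pr_cmul (enc_norm (enc_subr 373143 2000000 (enc_neg (enc_scale 295213 200000 (txg_4.enc h1.l h2.l h3))))) (pr_norm (pr_mul (pr_norm (txg_334_s.snd h1 h2 h3)) (pr_norm (pr_csub (enc_rat _ 1 2) h1))))))))))))⟩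
noncomputable def l0q0_s : Sl2 l0q0 := ⟨_, fun h1 h2 => (pr_norm (txg_s.snd (pr_norm (pr_sub (pr_scale 3 4 h1) (pr_half (c1g_s.snd h1)))) (pr_nd (c1g_s.snd h1)) h2))⟩
noncomputable def kf0q1_10_s : Sl2 kf0q1_10 := ⟨_, fun h1 h2 => (pr_scale 3 2 h1)⟩
noncomputable def kf0q1_s : Sl2 kf0q1 := ⟨_, fun h1 h2 => (pr_norm (pr_add (pr_mul (pr_norm (pr_mul (pr_norm (pr_cadd (enc_pnc _ 1) (pr_nat 2 (c1g_s.snd h1)))) (pr_norm (pr_sub (kf0q1_10_s.snd h1 h2) (c1g_s.snd h1))))) (pr_nd (pr_inv (pr_nat 2 (pr_sub (pr_cadd (enc_pnc _ 1) (kf0q1_10_s.snd h1 h2)) (c1g_s.snd h1)))))) (pr_mul (pr_norm (pr_subn 1 h1)) (kcg_s.snd (pr_norm (pr_sub (pr_scale 3 4 h1) (pr_half (c1g_s.snd h1)))) h2))))⟩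
noncomputable def l0q1_s : Sl2 l0q1 := ⟨_, fun h1 h2 => (pr_norm (txg_s.snd (pr_norm (pr_sub (pr_scale 3 4 h1) (pr_half (c1g_s.snd h1)))) (pr_nd (c1g_s.snd h1)) h2))⟩
noncomputable def yag_s : Sl1 yag := ⟨_, fun h1 => (pr_sqrt (pr_scale 4 3 (pr_csub (enc_pnc _ 1) (pr_sq h1))))⟩
noncomputable def kfc02_s : Sl2 kfc02 := ⟨_, fun h1 h2 => (pr_norm (pr_add h1 (pr_mul (pr_norm (pr_subn 1 (yag_s.snd h1))) (kcg_s.snd (pr_nd (pr_neg h1)) h2))))⟩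
noncomputable def lc02_7_s : Sl2 lc02_7 := ⟨_, fun h1 h2 => (pr_scale 3 4 (yag_s.snd h1))⟩
noncomputable def lc02_8_s : Sl2 lc02_8 := ⟨_, fun h1 h2 => (pr_half h1)⟩
noncomputable def lc02_s : Sl2 lc02 := ⟨_, fun h1 h2 => (pr_norm (pr_sub (txg_s.snd (pr_nd (pr_neg h1)) (pr_norm (pr_add (lc02_7_s.snd h1 h2) (lc02_8_s.snd h1 h2))) h2) (txg_s.snd h1 (pr_norm (pr_sub (lc02_7_s.snd h1 h2) (lc02_8_s.snd h1 h2))) h2)))⟩
noncomputable def swg_s : Sl1 swg := ⟨_, fun h1 => (pr_sqrt (pr_csub (enc_pnc _ 1) (pr_scale 3 4 (pr_sq (pr_norm (pr_subn 1 h1))))))⟩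
noncomputable def cv1m_s : Sl1 cv1m := ⟨_, fun h1 => (pr_norm (pr_add (pr_scale 2 5 (c1g_s.snd h1)) (pr_scale 3 5 (pr_addc (swg_s.snd h1) (enc_rat _ 1 2)))))⟩
noncomputable def bf1q0_s : Sl2 bf1q0 := ⟨_, fun h1 h2 => (pr_norm (pr_case (pr_subr 1 20 h1) (pr_case (pr_subr 3 200 h1) (pr_sub (pr_csub (enc_pnc _ 1) (pr_scale 491 300 h1)) (pr_cmul (enc_norm (bf1q0_3.enc h1.l h2)) (pr_nd (pr_scale 49 15000 h1)))) (pr_add (pr_csub (enc_rat _ 70000011 70000000) (pr_scale 572837 350000 h1)) (pr_cmul (enc_norm (bf1q0_3.enc h1.l h2)) (pr_norm (pr_csub (enc_rat _ 1 500000) (pr_scale 17 5000 h1)))))) (pr_case (pr_subr 3 25 h1) (pr_add (pr_csub (enc_rat _ 35000023 35000000) (pr_scale 1145681 700000 h1)) (pr_cmul (enc_norm (bf1q0_3.enc h1.l h2)) (pr_norm (pr_csub (enc_rat _ 11 1750000) (pr_scale 61 17500 h1))))) (pr_case (pr_subr 1 4 h1) (pr_add (pr_csub (enc_rat _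 65000119 65000000) (pr_scale 1063853 650000 h1)) (pr_cmul (enc_norm (bf1q0_3.enc h1.l h2)) (pr_norm (pr_csub (enc_rat _ 7 406250) (pr_scale 93 26000 h1))))) (pr_add (pr_csub (enc_rat _ 2500007 2500000) (pr_scale 511469 312500 h1)) (pr_cmul (enc_norm (bf1q0_3.enc h1.l h2)) (pr_norm (pr_csub (enc_rat _ 11 500000) (pr_scale 899 250000 h1)))))))))⟩
noncomputable def kf1q0_s : Sl2 kf1q0 := ⟨_, fun h1 h2 => (pr_norm (pr_mul (cv1m_s.snd h1) (bf1q0_s.snd h1 h2)))⟩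
noncomputable def bx1q0_s : Sl2 bx1q0 := ⟨_, fun h1 h2 => (pr_norm (pr_case (pr_subr 1 20 h1) (pr_case (pr_subr 3 200 h1) (pr_add (pr_scale 12113 150000 h1) (pr_cmul (enc_norm (bx1q0_3.enc h1.l h2)) (pr_nd (pr_scale 67 3750 h1)))) (pr_add (pr_addc (pr_scale 28263 350000 h1) (enc_rat _ 1 35000000)) (pr_cmul (enc_norm (bx1q0_3.enc h1.l h2)) (pr_norm (pr_addc (pr_scale 311 17500 h1) (enc_rat _ 1 700000)))))) (pr_case (pr_subr 3 25 h1) (pr_add (pr_addc (pr_scale 56523 700000 h1) (enc_rat _ 17 70000000)) (pr_cmul (enc_norm (bx1q0_3.enc h1.l h2)) (pr_norm (pr_addc (pr_scale 123 7000 h1) (enc_rat _ 1 87500))))) (pr_case (pr_subr 1 4 h1) (pr_add (pr_addc (pr_scale 104963 1300000 h1) (enc_rat _ 131 130000000)) (pr_cmul (enc_norm (bx1q0_3.enc h1.l h2)) (pr_norm (pr_addc (pr_scale 1129 65000 h1) (enc_rat _ 29 812500))))) (pr_add (pr_addc (pr_scale 201831 2500000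 h1) (enc_rat _ 31 10000000)) (pr_cmul (enc_norm (bx1q0_3.enc h1.l h2)) (pr_norm (pr_addc (pr_scale 2153 125000 h1) (enc_rat _ 9 125000)))))))))⟩
noncomputable def l1q0_s : Sl2 l1q0 := ⟨_, fun h1 h2 => (pr_norm (pr_mul (cv1m_s.snd h1) (bx1q0_s.snd h1 h2)))⟩
noncomputable def bf1q1_s : Sl2 bf1q1 := ⟨_, fun h1 h2 => (pr_norm (pr_case (pr_subr 22 25 h1) (pr_case (pr_subr 3 4 h1) (pr_add (pr_subr 11306737 5000000 (pr_scale 1891723 625000 h1)) (pr_cmul (enc_norm (bf1q1_3.enc h1.l h2)) (pr_norm (pr_csub (enc_rat _ 4151 500000) (pr_scale 363 31250 h1))))) (pr_add (pr_subr 146987587 65000000 (pr_scale 122962 40625 h1)) (pr_cmul (enc_norm (bf1q1_3.enc h1.l h2)) (pr_norm (pr_csub (enc_rat _ 10807 1300000) (pr_scale 189 16250 h1)))))) (pr_case (pr_subr 19 20 h1) (pr_add (pr_subr 79147169 35000000 (pr_scale 211873 70000 h1)) (pr_cmul (enc_norm (bf1q1_3.enc h1.l h2))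 (pr_norm (pr_csub (enc_rat _ 29133 3500000) (pr_scale 163 14000 h1))))) (pr_case (pr_subr 197 200 h1) (pr_add (pr_subr 39573537 17500000 (pr_scale 264841 87500 h1)) (pr_cmul (enc_norm (bf1q1_3.enc h1.l h2)) (pr_norm (pr_csub (enc_rat _ 58551 7000000) (pr_scale 409 35000 h1))))) (pr_add (pr_subr 67840321 30000000 (pr_scale 454013 150000 h1)) (pr_cmul (enc_norm (bf1q1_3.enc h1.l h2)) (pr_norm (pr_csub (enc_rat _ 25037 3000000) (pr_scale 7 600 h1)))))))))⟩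
noncomputable def kf1q1_s : Sl2 kf1q1 := ⟨_, fun h1 h2 => (pr_norm (pr_mul (cv1m_s.snd h1) (bf1q1_s.snd h1 h2)))⟩
noncomputable def bx1q1_s : Sl2 bx1q1 := ⟨_, fun h1 h2 => (pr_norm (pr_case (pr_subr 22 25 h1) (pr_case (pr_subr 3 4 h1) (pr_add (pr_csub (enc_rat _ 292433 2500000) (pr_scale 265937 2500000 h1)) (pr_cmul (enc_norm (bx1q1_3.enc h1.l h2)) (pr_norm (pr_subr 36307 200000 (pr_scale 9077 31250 h1))))) (pr_add (pr_csub (enc_rat _ 7603399 65000000) (pr_scale 138291 1300000 h1)) (pr_cmul (enc_norm (bx1q1_3.enc h1.l h2)) (pr_norm (pr_subr 2369831 13000000 (pr_scale 9473 32500 h1)))))) (pr_case (pr_subr 19 20 h1) (pr_add (pr_csub (enc_rat _ 4094473 35000000) (pr_scale 9309 87500 h1)) (pr_cmul (enc_norm (bx1q1_3.enc h1.l h2)) (pr_norm (pr_subr 1281837 7000000 (pr_scale 20469 70000 h1))))) (pr_case (pr_subr 197 200 h1) (pr_add (pr_csub (enc_rat _ 1023737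 8750000) (pr_scale 37241 350000 h1)) (pr_cmul (enc_norm (bx1q1_3.enc h1.l h2)) (pr_norm (pr_subr 321243 1750000 (pr_scale 10251 35000 h1))))) (pr_add (pr_csub (enc_rat _ 702053 6000000) (pr_scale 7981 75000 h1)) (pr_cmul (enc_norm (bx1q1_3.enc h1.l h2)) (pr_norm (pr_subr 551237 3000000 (pr_scale 1099 3750 h1)))))))))⟩
noncomputable def l1q1_s : Sl2 l1q1 := ⟨_, fun h1 h2 => (pr_norm (pr_mul (cv1m_s.snd h1) (bx1q1_s.snd h1 h2)))⟩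
noncomputable def cv1p_s : Sl1 cv1p := ⟨_, fun h1 => (pr_norm (pr_add (pr_scale 2 5 (c1g_s.snd h1)) (pr_scale 3 5 (pr_subr 1 2 (swg_s.snd h1)))))⟩
noncomputable def bf1q2_s : Sl2 bf1q2 := ⟨_, fun h1 h2 => (pr_norm (pr_case (pr_subr 27 25 h1) (pr_case (pr_subr 203 200 h1) (pr_add (pr_addc (pr_scale 2197 9375 h1) (enc_rat _ 7178 9375)) (pr_cmul (enc_norm (bf1q2_3.enc h1.l h2)) (pr_norm (pr_subr 7 3750 (pr_scale 7 3750 h1))))) (pr_case (pr_subr 21 20 h1) (pr_add (pr_addc (pr_scale 5861 25000 h1) (enc_rat _ 3827793 5000000)) (pr_cmul (enc_norm (bf1q2_3.enc h1.l h2)) (pr_norm (pr_subr 1233 500000 (pr_scale 43 17500 h1))))) (pr_add (pr_addc (pr_scale 23451 100000 h1) (enc_rat _ 7654851 10000000)) (pr_cmul (enc_norm (bf1q2_3.enc h1.l h2)) (pr_norm (pr_subr 3211 1000000 (pr_scale 19 6000 h1))))))) (pr_case (pr_subr 231 200 h1) (pr_case (pr_subr 577 500 h1) (pr_add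 (pr_addc (pr_scale 52067219 222000000 h1) (enc_rat _ 354023361 462500000)) (pr_cmul (enc_norm (bf1q2_3.enc h1.l h2)) (pr_norm (pr_csub (enc_rat _ 120593 37000000) (pr_scale 209 74000 h1))))) (pr_addc (pr_scale 1406947 6000000 h1) (enc_rat _ 4593053 6000000))) (pr_case (pr_subr 13 10 h1) (pr_add (pr_addc (pr_scale 40801403 174000000 h1) (enc_rat _ 1331986063 1740000000)) (pr_cmul (enc_norm (bf1q2_3.enc h1.l h2)) (pr_norm (pr_subr 51513 7250000 (pr_scale 223 36250 h1))))) (pr_add (pr_addc (pr_scale 234491 1000000 h1) (enc_rat _ 765509 1000000)) (pr_cmul (enc_norm (bf1q2_3.enc h1.l h2)) (pr_norm (pr_subr 1159 400000 (pr_scale 583 200000 h1)))))))))⟩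
noncomputable def kf1q2_s : Sl2 kf1q2 := ⟨_, fun h1 h2 => (pr_norm (pr_mul (cv1p_s.snd h1) (bf1q2_s.snd h1 h2)))⟩
noncomputable def bx1q2_s : Sl2 bx1q2 := ⟨_, fun h1 h2 => (pr_norm (pr_case (pr_subr 27 25 h1) (pr_case (pr_subr 203 200 h1) (pr_add (pr_subr 8741 150000 (pr_scale 8741 150000 h1)) (pr_cmul (enc_norm (bx1q2_3.enc h1.l h2)) (pr_norm (pr_subr 1837 3000 (pr_scale 1837 3000 h1))))) (pr_case (pr_subr 21 20 h1) (pr_add (pr_subr 123671 2000000 (pr_scale 2703 43750 h1)) (pr_cmul (enc_norm (bx1q2_3.enc h1.l h2)) (pr_norm (pr_subr 606369 1000000 (pr_scale 10613 17500 h1))))) (pr_add (pr_subr 123161 2000000 (pr_scale 3077 50000 h1)) (pr_cmul (enc_norm (bx1q2_3.enc h1.l h2)) (pr_norm (pr_subr 289767 500000 (pr_scale 5809 10000 h1))))))) (pr_case (pr_subr 231 200 h1) (pr_casec (pr_subr 577 500 h1) (pr_add (pr_subr 22306021 370000000 (pr_scale 44653 740000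 h1)) (pr_cmul (enc_norm (bx1q2_3.enc h1.l h2)) (pr_norm (pr_subr 9575787 18500000 (pr_scale 116231 222000 h1))))) (enc_add (enc_rat _ 2337 250000) (enc_scale 51949 600000 (bx1q2_3.enc h1.l h2)))) (pr_case (pr_subr 13 10 h1) (pr_add (pr_csub (enc_rat _ 2711151 290000000) (pr_scale 1 1450000 h1)) (pr_cmul (enc_norm (bx1q2_3.enc h1.l h2)) (pr_norm (pr_csub (enc_rat _ 974291 10875000) (pr_scale 1133 435000 h1))))) (pr_add (pr_csub (enc_rat _ 18701 2000000) (pr_scale 1 500000 h1)) (pr_cmul (enc_norm (bx1q2_3.enc h1.l h2)) (pr_norm (pr_csub (enc_rat _ 22747 250000) (pr_scale 23 6250 h1)))))))))⟩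
noncomputable def l1q2_s : Sl2 l1q2 := ⟨_, fun h1 h2 => (pr_norm (pr_mul (cv1p_s.snd h1) (bx1q2_s.snd h1 h2)))⟩
noncomputable def cv1r_s : Sl1 cv1r := ⟨_, fun h1 => (pr_norm (pr_scale 3 5 (pr_subr 1 2 (swg_s.snd h1))))⟩
noncomputable def bf1q3_46_s : Sl2 bf1q3_46 := ⟨_, fun h1 h2 => (pr_csub (enc_rat _ 14965791 1000000) (pr_scale 27227 3125 h1))⟩
noncomputable def bf1q3_s : Sl2 bf1q3 := ⟨_, fun h1 h2 => (pr_norm (pr_case (pr_subr 47 25 h1) (pr_case (pr_subr 7 4 h1) (pr_add (pr_csub (enc_rat _ 149657933 10000000) (pr_scale 21781603 2500000 h1)) (pr_cmul (enc_norm (bf1q3_3.enc h1.l h2)) (pr_norm (pr_subr 73 250000 (pr_scale 19 125000 h1))))) (pr_add (pr_csub (enc_rat _ 1945553031 130000000) (pr_scale 11326433 1300000 h1)) (pr_cmul (enc_norm (bf1q3_3.enc h1.l h2)) (pr_norm (pr_subr 1919 6500000 (pr_scale 1 6500 h1)))))) (pr_case (pr_subr 39 20 h1) (pr_add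 (pr_csub (enc_rat _ 209521113 14000000) (pr_scale 6098849 700000 h1)) (pr_cmul (enc_norm (bf1q3_3.enc h1.l h2)) (pr_norm (pr_subr 961 3500000 (pr_scale 1 7000 h1))))) (pr_case (pr_subr 397 200 h1) (pr_add (bf1q3_46_s.snd h1 h2) (pr_cmul (enc_norm (bf1q3_3.enc h1.l h2)) (pr_norm (pr_subr 289 875000 (pr_scale 3 17500 h1))))) (pr_add (bf1q3_46_s.snd h1 h2) (pr_cmul (enc_norm (bf1q3_3.enc h1.l h2)) (pr_norm (pr_subr 191 750000 (pr_scale 1 7500 h1)))))))))⟩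
noncomputable def kf1q3_s : Sl2 kf1q3 := ⟨_, fun h1 h2 => (pr_norm (pr_mul (cv1r_s.snd h1) (bf1q3_s.snd h1 h2)))⟩
noncomputable def bx1q3_34_s : Sl2 bx1q3_34 := ⟨_, fun h1 h2 => (pr_subr 2954059 2187500 (pr_scale 73481 87500 h1))⟩
noncomputable def bx1q3_s : Sl2 bx1q3 := ⟨_, fun h1 h2 => (pr_norm (pr_case (pr_subr 47 25 h1) (pr_case (pr_subr 7 4 h1) (pr_add (pr_subr 1688039 1250000 (pr_scale 2099463 2500000 h1)) (pr_cmul (enc_norm (bx1q3_3.enc h1.l h2)) (pr_norm (pr_csub (enc_rat _ 21741 500000) (pr_scale 5601 250000 h1))))) (pr_add (pr_subr 43888937 32500000 (pr_scale 1091719 1300000 h1)) (pr_cmul (enc_norm (bx1q3_3.enc h1.l h2)) (pr_norm (pr_csub (enc_rat _ 4513 104000) (pr_scale 1453 65000 h1)))))) (pr_case (pr_subr 39 20 h1) (pr_add (bx1q3_34_s.snd h1 h2) (pr_cmul (enc_norm (bx1q3_3.enc h1.l h2)) (pr_norm (pr_csub (enc_rat _ 60723 1400000) (pr_scale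 391 17500 h1))))) (pr_case (pr_subr 397 200 h1) (pr_add (bx1q3_34_s.snd h1 h2) (pr_cmul (enc_norm (bx1q3_3.enc h1.l h2)) (pr_norm (pr_csub (enc_rat _ 12129 280000) (pr_scale 781 35000 h1))))) (pr_add (pr_subr 13504213 10000000 (pr_scale 41989 50000 h1)) (pr_cmul (enc_norm (bx1q3_3.enc h1.l h2)) (pr_norm (pr_csub (enc_rat _ 130067 3000000) (pr_scale 67 3000 h1)))))))))⟩
noncomputable def l1q3_s : Sl2 l1q3 := ⟨_, fun h1 h2 => (pr_norm (pr_mul (cv1r_s.snd h1) (bx1q3_s.snd h1 h2)))⟩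
noncomputable def cv2m_s : Sl1 cv2m := ⟨_, fun h1 => (pr_norm (pr_addc (swg_s.snd h1) (enc_rat _ 1 2)))⟩
noncomputable def bf2q0_s : Sl2 bf2q0 := ⟨_, fun h1 h2 => (pr_norm (pr_case (pr_subr 1 20 h1) (pr_case (pr_subr 3 200 h1) (pr_sub (pr_csub (enc_pnc _ 1) (pr_scale 276793 75000 h1)) (pr_cmul (enc_norm (bf2q0_3.enc h1.l h2)) (pr_nd (pr_scale 19 15000 h1)))) (pr_add (pr_csub (enc_rat _ 10000001 10000000) (pr_scale 184529 50000 h1)) (pr_cmul (enc_norm (bf2q0_3.enc h1.l h2)) (pr_norm (pr_csub (enc_rat _ 1 875000) (pr_scale 47 35000 h1)))))) (pr_case (pr_subr 3 25 h1) (pr_add (pr_csub (enc_rat _ 70000047 70000000) (pr_scale 1291707 350000 h1)) (pr_cmul (enc_norm (bf2q0_3.enc h1.l h2)) (pr_norm (pr_csub (enc_rat _ 19 3500000) (pr_scale 1 700 h1))))) (pr_case (pr_subr 1 4 h1) (pr_add (pr_csub (enc_rat _ 10000029 10000000) (pr_scale 369061 100000 h1)) (pr_cmul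 (enc_norm (bf2q0_3.enc h1.l h2)) (pr_norm (pr_csub (enc_rat _ 7 260000) (pr_scale 209 130000 h1))))) (pr_add (pr_csub (enc_rat _ 10000061 10000000) (pr_scale 9226557 2500000 h1)) (pr_cmul (enc_norm (bf2q0_3.enc h1.l h2)) (pr_norm (pr_csub (enc_rat _ 57 1000000) (pr_scale 27 15625 h1)))))))))⟩
noncomputable def kf2q0_s : Sl2 kf2q0 := ⟨_, fun h1 h2 => (pr_norm (pr_mul (cv2m_s.snd h1) (bf2q0_s.snd h1 h2)))⟩
noncomputable def bx2q0_8_s : Sl2 bx2q0_8 := ⟨_, fun h1 h2 => (pr_scale 843 10000 h1)⟩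
noncomputable def bx2q0_s : Sl2 bx2q0 := ⟨_, fun h1 h2 => (pr_norm (pr_case (pr_subr 1 20 h1) (pr_case (pr_subr 3 200 h1) (pr_add (bx2q0_8_s.snd h1 h2) (pr_cmul (enc_norm (bx2q0_3.enc h1.l h2)) (pr_nd (pr_scale 727 15000 h1)))) (pr_add (bx2q0_8_s.snd h1 h2) (pr_cmul (enc_norm (bx2q0_3.enc h1.l h2)) (pr_norm (pr_addc (pr_scale 1693 35000 h1) (enc_rat _ 1 700000)))))) (pr_case (pr_subr 3 25 h1) (pr_add (pr_addc (pr_scale 8429 100000 h1) (enc_rat _ 1 2000000)) (pr_cmul (enc_norm (bx2q0_3.enc h1.l h2)) (pr_norm (pr_addc (pr_scale 423 8750 h1) (enc_rat _ 1 350000))))) (pr_case (pr_subr 1 4 h1) (pr_add (pr_addc (pr_scale 109559 1300000 h1) (enc_rat _ 281 130000000)) (pr_cmul (enc_norm (bx2q0_3.enc h1.l h2)) (pr_norm (pr_addc (pr_scale 251 5200 h1) (enc_rat _ 19 1625000))))) (pr_add (pr_addc (pr_scale 26333 312500 h1) (enc_rat _ 3 625000)) (pr_cmul (enc_norm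 (bx2q0_3.enc h1.l h2)) (pr_norm (pr_addc (pr_scale 6039 125000 h1) (enc_rat _ 1 1000000)))))))))⟩
noncomputable def l2q0_s : Sl2 l2q0 := ⟨_, fun h1 h2 => (pr_norm (pr_mul (cv2m_s.snd h1) (bx2q0_s.snd h1 h2)))⟩
noncomputable def gsg_s : Sl1 gsg := ⟨_, fun h1 => (pr_sqrt (pr_csub (enc_pnc _ 1) (pr_scale 3 4 (pr_sq h1))))⟩
noncomputable def esg_s : Sl1 esg := ⟨_, fun h1 => (pr_norm (pr_subn 1 (pr_add (pr_half h1) (gsg_s.snd h1))))⟩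
noncomputable def kf2q1_53_s : Sl2 kf2q1_53 := ⟨_, fun h1 h2 => (pr_csub (enc_pnc _ 1) h1)⟩
noncomputable def kf2q1_54_s : Sl2 kf2q1_54 := ⟨_, fun h1 h2 => (gsg_s.snd (pr_norm (kf2q1_53_s.snd h1 h2)))⟩
noncomputable def kf2q1_60_s : Sl2 kf2q1_60 := ⟨_, fun h1 h2 => (pr_scale 3 2 (kf2q1_53_s.snd h1 h2))⟩
noncomputable def kf2q1_62_s : Sl2 kf2q1_62 := ⟨_, fun h1 h2 => (pr_cadd (enc_pnc _ 1) (kf2q1_54_s.snd h1 h2))⟩
noncomputable def kf2q1_s : Sl2 kf2q1 := ⟨_, fun h1 h2 => (pr_norm (pr_case (pr_subr 55 64 h1) (pr_mul (cv2m_s.snd h1) (pr_norm (pr_case (pr_subr 3 4 h1) (pr_add (pr_subr 40280057 10000000 (pr_scale 14359147 2500000 h1)) (pr_cmul (enc_norm (kf2q1_4.enc h1.l h2)) (pr_norm (pr_csub (enc_rat _ 20343 500000) (pr_scale 6001 125000 h1))))) (pr_add (pr_subr 1101408221 273437500 (pr_scale 1570532253 273437500 h1)) (pr_cmul (enc_norm (kf2q1_4.enc h1.l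 h2)) (pr_norm (pr_csub (enc_rat _ 72477 1750000) (pr_scale 21429 437500 h1)))))))) (pr_case (pr_subr 61 64 h1) (pr_add (pr_add (pr_mul (pr_norm (pr_mul (pr_norm (pr_sub (kf2q1_54_s.snd h1 h2) (kf2q1_60_s.snd h1 h2))) (pr_norm (kf2q1_62_s.snd h1 h2)))) (pr_nd (pr_inv (pr_sub (kf2q1_62_s.snd h1 h2) (kf2q1_60_s.snd h1 h2))))) (pr_mul (pr_norm (pr_sub (pr_half (kf2q1_53_s.snd h1 h2)) (pr_mul (pr_nd (pr_scale 3 4 (pr_sq (pr_norm (kf2q1_53_s.snd h1 h2))))) (pr_nd (pr_inv (kf2q1_54_s.snd h1 h2)))))) (pr_nd (pr_inv (pr_nat 2 (esg_s.snd (pr_norm (kf2q1_53_s.snd h1 h2)))))))) (pr_mul (kcg_s.snd (pr_norm (pr_sub (pr_scale 3 4 (kf2q1_53_s.snd h1 h2)) (pr_half (kf2q1_54_s.snd h1 h2)))) h2) (pr_norm (kf2q1_53_s.snd h1 h2)))) (pr_mul (cv2m_s.snd h1) (pr_norm (pr_case (pr_subr 197 200 h1) (pr_add (pr_addc (pr_scale 2674897 4687500 h1) (enc_rat _ 12620138 29296875))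 (pr_cmul (enc_norm (kf2q1_4.enc h1.l h2)) (pr_norm (pr_subr 49897619 3187500000 (pr_scale 246427 15937500 h1))))) (pr_add (pr_addc (pr_scale 17869 37500 h1) (enc_rat _ 19631 37500)) (pr_cmul (enc_norm (kf2q1_4.enc h1.l h2)) (pr_norm (pr_subr 53 1875 (pr_scale 53 1875 h1)))))))))))⟩
noncomputable def qsg_s : Sl1 qsg := ⟨_, fun h1 => (pr_norm (pr_mul (pr_norm (pr_csub (enc_pnc _ 1) (gsg_s.snd h1))) (pr_norm (pr_subn 1 (pr_nat 2 (gsg_s.snd h1))))))⟩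
noncomputable def l2q1_68_s : Sl2 l2q1_68 := ⟨_, fun h1 h2 => (pr_csub (enc_pnc _ 1) h1)⟩
noncomputable def l2q1_s : Sl2 l2q1 := ⟨_, fun h1 h2 => (pr_norm (pr_case (pr_subr 55 64 h1) (pr_mul (cv2m_s.snd h1) (pr_norm (pr_case (pr_subr 3 4 h1) (pr_add (pr_csub (enc_rat _ 172061 2000000) (pr_scale 119651 1250000 h1)) (pr_cmul (enc_norm (l2q1_4.enc h1.l h2)) (pr_norm (pr_subr 70689 500000 (pr_scale 20567 125000 h1))))) (pr_add (pr_add (pr_csub (enc_rat _ 752715161 8750000000) (pr_scale 52343003 546875000 h1)) (pr_cmul (enc_norm (l2q1_4.enc h1.l h2)) (pr_norm (pr_subr 67467531 218750000 (pr_scale 21178427 54687500 h1))))) (pr_cmul (l2q1_31.enc h1.l h2) (pr_norm (pr_csub (enc_rat _ 909 218750) (pr_scale 606 109375 h1)))))))) (pr_case (pr_subr 61 64 h1) (pr_sub (qsg_s.snd (pr_norm (l2q1_68_s.snd h1 h2))) (pr_mul (pr_norm (pr_nat 2 (pr_subc (l2q1_68_s.snd h1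 h2) h2))) (pr_norm (pr_mul (esg_s.snd (pr_norm (l2q1_68_s.snd h1 h2))) (kcg_s.snd (pr_norm (pr_sub (pr_scale 3 4 (l2q1_68_s.snd h1 h2)) (pr_half (gsg_s.snd (pr_norm (l2q1_68_s.snd h1 h2)))))) h2))))) (pr_mul (cv2m_s.snd h1) (pr_norm (pr_case (pr_subr 197 200 h1) (pr_add (pr_add (pr_csub (enc_rat _ 123850259 5312500000) (pr_scale 1240719 53125000 h1)) (pr_cmul (enc_norm (l2q1_4.enc h1.l h2)) (pr_norm (pr_csub (enc_rat _ 805463879 3187500000) (pr_scale 4046257 15937500 h1))))) (pr_cmul (l2q1_31.enc h1.l h2) (pr_norm (pr_subr 11623 425000 (pr_scale 59 2125 h1))))) (pr_add (pr_csub (enc_rat _ 1543 75000) (pr_scale 1543 75000 h1)) (pr_cmul (enc_norm (l2q1_4.enc h1.l h2)) (pr_norm (pr_csub (enc_rat _ 131 750) (pr_scale 131 750 h1)))))))))))⟩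
noncomputable def cv2p_s : Sl1 cv2p := ⟨_, fun h1 => (pr_norm (pr_subr 1 2 (swg_s.snd h1)))⟩
noncomputable def kf2q2_67_s : Sl2 kf2q2_67 := ⟨_, fun h1 h2 => (pr_subn 1 h1)⟩
noncomputable def kf2q2_68_s : Sl2 kf2q2_68 := ⟨_, fun h1 h2 => (gsg_s.snd (pr_norm (kf2q2_67_s.snd h1 h2)))⟩
noncomputable def kf2q2_74_s : Sl2 kf2q2_74 := ⟨_, fun h1 h2 => (pr_scale 3 2 (kf2q2_67_s.snd h1 h2))⟩
noncomputable def kf2q2_76_s : Sl2 kf2q2_76 := ⟨_, fun h1 h2 => (pr_cadd (enc_pnc _ 1) (kf2q2_68_s.snd h1 h2))⟩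
noncomputable def kf2q2_s : Sl2 kf2q2 := ⟨_, fun h1 h2 => (pr_norm (pr_case (pr_subr 67 64 h1) (pr_mul (cv2p_s.snd h1) (pr_norm (pr_case (pr_subr 203 200 h1) (pr_add (pr_csub (enc_rat _ 79819 75000) (pr_scale 4819 75000 h1)) (pr_cmul (enc_norm (kf2q2_4.enc h1.l h2)) (pr_norm (pr_csub (enc_rat _ 403 7500) (pr_scale 403 7500 h1))))) (pr_add (pr_csub (enc_rat _ 5653207669 5312500000) (pr_scale 3407171 53125000 h1)) (pr_cmul (enc_norm (kf2q2_4.enc h1.l h2)) (pr_norm (pr_csub (enc_rat _ 130074241 2125000000) (pr_scale 649197 10625000 h1)))))))) (pr_case (pr_subr 73 64 h1) (pr_add (pr_sub (pr_mul (pr_norm (pr_mul (pr_norm (pr_sub (kf2q2_68_s.snd h1 h2) (kf2q2_74_s.snd h1 h2))) (pr_norm (kf2q2_76_s.snd h1 h2)))) (pr_nd (pr_inv (pr_sub (kf2q2_76_s.snd h1 h2) (kf2q2_74_s.snd h1 h2))))) (pr_mul (pr_norm (pr_sub (pr_half (kf2q2_67_s.snd h1 h2)) (pr_mul (pr_nd (pr_scale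 3 4 (pr_sq (pr_norm (kf2q2_67_s.snd h1 h2))))) (pr_nd (pr_inv (kf2q2_68_s.snd h1 h2)))))) (pr_nd (pr_inv (pr_nat 2 (esg_s.snd (pr_norm (kf2q2_67_s.snd h1 h2)))))))) (pr_mul (kcg_s.snd (pr_norm (pr_sub (pr_scale 3 4 (kf2q2_67_s.snd h1 h2)) (pr_half (kf2q2_68_s.snd h1 h2)))) h2) (pr_norm (kf2q2_67_s.snd h1 h2)))) (pr_mul (cv2p_s.snd h1) (pr_norm (pr_case (pr_subr 29 25 h1) (pr_add (pr_csub (enc_rat _ 93138060321 19375000000) (pr_scale 326466503 96875000 h1)) (pr_cmul (enc_norm (kf2q2_4.enc h1.l h2)) (pr_norm (pr_subr 114080433 3875000000 (pr_scale 465219 19375000 h1))))) (pr_case (pr_subr 13 10 h1) (pr_add (pr_csub (enc_rat _ 336499 70000) (pr_scale 4717971 1400000 h1)) (pr_cmul (enc_norm (kf2q2_4.enc h1.l h2)) (pr_norm (pr_subr 65397 7000000 (pr_scale 117 17500 h1))))) (pr_add (pr_csub (enc_rat _ 9614259 2000000) (pr_scale 168499 50000 h1)) (pr_cmul (enc_norm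 (kf2q2_4.enc h1.l h2)) (pr_norm (pr_subr 9309 1000000 (pr_scale 333 50000 h1))))))))))))⟩
noncomputable def l2q2_80_s : Sl2 l2q2_80 := ⟨_, fun h1 h2 => (pr_subn 1 h1)⟩
noncomputable def l2q2_s : Sl2 l2q2 := ⟨_, fun h1 h2 => (pr_norm (pr_case (pr_subr 67 64 h1) (pr_mul (cv2p_s.snd h1) (pr_norm (pr_case (pr_subr 203 200 h1) (pr_add (pr_subr 771 12500 (pr_scale 771 12500 h1)) (pr_cmul (enc_norm (l2q2_4.enc h1.l h2)) (pr_norm (pr_subr 4753 7500 (pr_scale 4753 7500 h1))))) (pr_add (pr_add (pr_subr 224144183 3187500000 (pr_scale 559343 7968750 h1)) (pr_cmul (enc_norm (l2q2_4.enc h1.l h2)) (pr_norm (pr_subr 4540784213 6375000000 (pr_scale 22666921 31875000 h1))))) (pr_cmul (l2q2_31.enc h1.l h2) (pr_norm (pr_csub (enc_rat _ 539371 6375000) (pr_scale 2657 31875 h1)))))))) (pr_case (pr_subr 73 64 h1) (pr_sub (qsg_s.snd (pr_norm (l2q2_80_s.snd h1 h2))) (pr_mul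 (pr_norm (pr_nat 2 (pr_subc (l2q2_80_s.snd h1 h2) h2))) (pr_norm (pr_mul (esg_s.snd (pr_norm (l2q2_80_s.snd h1 h2))) (kcg_s.snd (pr_norm (pr_sub (pr_scale 3 4 (l2q2_80_s.snd h1 h2)) (pr_half (gsg_s.snd (pr_norm (l2q2_80_s.snd h1 h2)))))) h2))))) (pr_mul (cv2p_s.snd h1) (pr_norm (pr_case (pr_subr 29 25 h1) (pr_add (pr_add (pr_subr 3339068509 38750000000 (pr_scale 16578187 193750000 h1)) (pr_cmul (enc_norm (l2q2_4.enc h1.l h2)) (pr_norm (pr_csub (enc_rat _ 8540131129 1937500000) (pr_scale 18404361 4843750 h1))))) (pr_cmul (l2q2_31.enc h1.l h2) (pr_norm (pr_subr 10643 96875 (pr_scale 367 3875 h1))))) (pr_case (pr_subr 13 10 h1) (pr_add (pr_subr 6030081 70000000 (pr_scale 1497 17500 h1)) (pr_cmul (enc_norm (l2q2_4.enc h1.l h2)) (pr_norm (pr_subr 2279 218750 (pr_scale 1289 140000 h1))))) (pr_add (pr_subr 1722611 20000000 (pr_scale 34213 400000 h1)) (pr_cmul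 (enc_norm (l2q2_4.enc h1.l h2)) (pr_norm (pr_subr 20103 2000000 (pr_scale 357 40000 h1))))))))))))⟩
noncomputable def cv2r_s : Sl1 cv2r := ⟨_, fun h1 => (pr_norm (pr_subr 1 2 (swg_s.snd h1)))⟩
noncomputable def bf2q3_s : Sl2 bf2q3 := ⟨_, fun h1 h2 => (pr_norm (pr_case (pr_subr 47 25 h1) (pr_case (pr_subr 7 4 h1) (pr_add (pr_subr 118578527 5000000 (pr_scale 3231349 250000 h1)) (pr_cmul (enc_norm (bf2q3_3.enc h1.l h2)) (pr_norm (pr_csub (enc_rat _ 1383 250000) (pr_scale 369 125000 h1))))) (pr_add (pr_subr 1541520781 65000000 (pr_scale 8401507 650000 h1)) (pr_cmul (enc_norm (bf2q3_3.enc h1.l h2)) (pr_norm (pr_csub (enc_rat _ 35979 6500000) (pr_scale 24 8125 h1)))))) (pr_case (pr_subr 39 20 h1) (pr_add (pr_subr 830049673 35000000 (pr_scale 9047777 700000 h1)) (pr_cmul (enc_norm (bf2q3_3.enc h1.l h2)) (pr_norm (pr_csub (enc_rat _ 3879 700000) (pr_scale 207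 70000 h1))))) (pr_case (pr_subr 397 200 h1) (pr_add (pr_subr 1660099541 70000000 (pr_scale 4523889 350000 h1)) (pr_cmul (enc_norm (bf2q3_3.enc h1.l h2)) (pr_norm (pr_csub (enc_rat _ 7719 1400000) (pr_scale 103 35000 h1))))) (pr_add (pr_subr 142294201 6000000 (pr_scale 1938809 150000 h1)) (pr_cmul (enc_norm (bf2q3_3.enc h1.l h2)) (pr_norm (pr_csub (enc_rat _ 4121 750000) (pr_scale 11 3750 h1)))))))))⟩
noncomputable def kf2q3_s : Sl2 kf2q3 := ⟨_, fun h1 h2 => (pr_norm (pr_mul (cv2r_s.snd h1) (bf2q3_s.snd h1 h2)))⟩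
noncomputable def bx2q3_s : Sl2 bx2q3 := ⟨_, fun h1 h2 => (pr_norm (pr_case (pr_subr 47 25 h1) (pr_case (pr_subr 7 4 h1) (pr_add (pr_subr 805547 10000000 (pr_scale 199037 1250000 h1)) (pr_cmul (enc_norm (bx2q3_3.enc h1.l h2)) (pr_norm (pr_csub (enc_rat _ 54517 500000) (pr_scale 139 2500 h1))))) (pr_add (pr_subr 402777 5000000 (pr_scale 15923 100000 h1)) (pr_cmul (enc_norm (bx2q3_3.enc h1.l h2)) (pr_norm (pr_csub (enc_rat _ 108859 1000000) (pr_scale 111 2000 h1)))))) (pr_case (pr_subr 39 20 h1) (pr_add (pr_subr 563869 7000000 (pr_scale 5573 35000 h1)) (pr_cmul (enc_norm (bx2q3_3.enc h1.l h2)) (pr_norm (pr_csub (enc_rat _ 761637 7000000) (pr_scale 3883 70000 h1))))) (pr_case (pr_subr 397 200 h1) (pr_add (pr_subr 140977 1750000 (pr_scale 55731 350000 h1)) (pr_cmul (enc_norm (bx2q3_3.enc h1.l h2)) (pr_norm (pr_csub (enc_rat _ 190263 1750000) (pr_scale 97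 1750 h1))))) (pr_add (pr_subr 483293 6000000 (pr_scale 5971 37500 h1)) (pr_cmul (enc_norm (bx2q3_3.enc h1.l h2)) (pr_norm (pr_csub (enc_rat _ 40799 375000) (pr_scale 104 1875 h1)))))))))⟩
noncomputable def l2q3_s : Sl2 l2q3 := ⟨_, fun h1 h2 => (pr_norm (pr_mul (cv2r_s.snd h1) (bx2q3_s.snd h1 h2)))⟩
noncomputable def c3g_s : Sl1 c3g := ⟨_, fun h1 => (pr_sqrtg (pr_csub (enc_pnc _ 3) (pr_scale 3 4 (pr_sq h1))))⟩
noncomputable def cv3m_s : Sl1 cv3m := ⟨_, fun h1 => (pr_norm (pr_add (pr_scale 3 5 (pr_addc (swg_s.snd h1) (enc_rat _ 1 2))) (pr_scale 2 5 (c3g_s.snd h1))))⟩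
noncomputable def bf3q0_16_s : Sl2 bf3q0_16 := ⟨_, fun h1 h2 => (pr_cmul (enc_norm (bf3q0_3.enc h1.l h2)) (pr_norm (pr_csub (enc_rat _ 2957 500000) (pr_scale 113 5000 h1))))⟩
noncomputable def bf3q0_21_s : Sl2 bf3q0_21 := ⟨_, fun h1 h2 => (pr_subr 22340349 70000000 (pr_scale 490533 350000 h1))⟩
noncomputable def bf3q0_s : Sl2 bf3q0 := ⟨_, fun h1 h2 => (pr_norm (pr_case (pr_subr 1 20 h1) (pr_case (pr_subr 3 200 h1) (pr_add (pr_subr 3191479 10000000 (pr_scale 210229 150000 h1)) (bf3q0_16_s.snd h1 h2)) (pr_add (bf3q0_21_s.snd h1 h2) (bf3q0_16_s.snd h1 h2))) (pr_case (pr_subr 3 25 h1) (pr_add (bf3q0_21_s.snd h1 h2) (pr_cmul (enc_norm (bf3q0_3.enc h1.l h2)) (pr_norm (pr_csub (enc_rat _ 10347 1750000) (pr_scale 79 3500 h1))))) (pr_case (pr_subr 1 4 h1) (pr_add (pr_subr 41489223 130000000 (pr_scale 91099 65000 h1)) (pr_cmul (enc_norm (bf3q0_3.enc h1.l h2))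 (pr_norm (pr_csub (enc_rat _ 19209 3250000) (pr_scale 733 32500 h1))))) (pr_add (pr_subr 3191481 10000000 (pr_scale 350381 250000 h1)) (pr_cmul (enc_norm (bf3q0_3.enc h1.l h2)) (pr_norm (pr_csub (enc_rat _ 5903 1000000) (pr_scale 5631 250000 h1)))))))))⟩
noncomputable def kf3q0_s : Sl2 kf3q0 := ⟨_, fun h1 h2 => (pr_norm (pr_mul (cv3m_s.snd h1) (bf3q0_s.snd h1 h2)))⟩
noncomputable def bx3q0_10_s : Sl2 bx3q0_10 := ⟨_, fun h1 h2 => (pr_addc (pr_scale 187 2000 h1) (enc_rat _ 155917 10000000))⟩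
noncomputable def bx3q0_s : Sl2 bx3q0 := ⟨_, fun h1 h2 => (pr_norm (pr_case (pr_subr 1 20 h1) (pr_case (pr_subr 3 200 h1) (pr_add (bx3q0_10_s.snd h1 h2) (pr_cmul (enc_norm (bx3q0_3.enc h1.l h2)) (pr_norm (pr_csub (enc_rat _ 4199 100000) (pr_scale 91 625 h1))))) (pr_add (bx3q0_10_s.snd h1 h2) (pr_cmul (enc_norm (bx3q0_3.enc h1.l h2)) (pr_norm (pr_csub (enc_rat _ 58783 1400000) (pr_scale 5091 35000 h1)))))) (pr_case (pr_subr 3 25 h1) (pr_add (pr_addc (pr_scale 3273 35000 h1) (enc_rat _ 1091369 70000000)) (pr_cmul (enc_norm (bx3q0_3.enc h1.l h2)) (pr_norm (pr_csub (enc_rat _ 1679 40000) (pr_scale 363 2500 h1))))) (pr_case (pr_subr 1 4 h1) (pr_add (pr_addc (pr_scale 60797 650000 h1) (enc_rat _ 2026523 130000000)) (pr_cmul (enc_norm (bx3q0_3.enc h1.l h2)) (pr_norm (pr_csub (enc_rat _ 544859 13000000) (pr_scale 2351 16250 h1))))) (pr_add (pr_addc (pr_scale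 58467 625000 h1) (enc_rat _ 155853 10000000)) (pr_cmul (enc_norm (bx3q0_3.enc h1.l h2)) (pr_norm (pr_csub (enc_rat _ 8361 200000) (pr_scale 18031 125000 h1)))))))))⟩
noncomputable def l3q0_s : Sl2 l3q0 := ⟨_, fun h1 h2 => (pr_norm (pr_mul (cv3m_s.snd h1) (bx3q0_s.snd h1 h2)))⟩
noncomputable def bf3q1_s : Sl2 bf3q1 := ⟨_, fun h1 h2 => (pr_norm (pr_case (pr_subr 22 25 h1) (pr_case (pr_subr 3 4 h1) (pr_add (pr_addc (pr_scale 204991 625000 h1) (enc_rat _ 6720243 10000000)) (pr_cmul (enc_norm (bf3q1_3.enc h1.l h2)) (pr_norm (pr_subr 25833 1000000 (pr_scale 1291 50000 h1))))) (pr_add (pr_addc (pr_scale 13324 40625 h1) (enc_rat _ 17472831 26000000)) (pr_cmul (enc_norm (bf3q1_3.enc h1.l h2)) (pr_norm (pr_subr 337059 13000000 (pr_scale 3373 130000 h1)))))) (pr_case (pr_subr 19 20 h1) (pr_add (pr_addc (pr_scale 114783 350000 h1) (enc_rat _ 47043713 70000000))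 (pr_cmul (enc_norm (bf3q1_3.enc h1.l h2)) (pr_norm (pr_subr 181913 7000000 (pr_scale 1821 70000 h1))))) (pr_case (pr_subr 197 200 h1) (pr_add (pr_addc (pr_scale 2869 8750 h1) (enc_rat _ 47048083 70000000)) (pr_cmul (enc_norm (bf3q1_3.enc h1.l h2)) (pr_norm (pr_subr 89389 3500000 (pr_scale 447 17500 h1))))) (pr_add (pr_addc (pr_scale 49171 150000 h1) (enc_rat _ 100829 150000)) (pr_cmul (enc_norm (bf3q1_3.enc h1.l h2)) (pr_norm (pr_subr 19 750 (pr_scale 19 750 h1)))))))))⟩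
noncomputable def kf3q1_s : Sl2 kf3q1 := ⟨_, fun h1 h2 => (pr_norm (pr_mul (cv3m_s.snd h1) (bf3q1_s.snd h1 h2)))⟩
noncomputable def bx3q1_s : Sl2 bx3q1 := ⟨_, fun h1 h2 => (pr_norm (pr_case (pr_subr 22 25 h1) (pr_case (pr_subr 3 4 h1) (pr_add (pr_csub (enc_rat _ 60689 2500000) (pr_scale 60773 2500000 h1)) (pr_cmul (enc_norm (bx3q1_3.enc h1.l h2)) (pr_norm (pr_csub (enc_rat _ 258971 1000000) (pr_scale 32193 125000 h1))))) (pr_add (pr_csub (enc_rat _ 3145331 130000000) (pr_scale 15731 650000 h1)) (pr_cmul (enc_norm (bx3q1_3.enc h1.l h2)) (pr_norm (pr_csub (enc_rat _ 3374219 13000000) (pr_scale 16791 65000 h1)))))) (pr_case (pr_subr 19 20 h1) (pr_add (pr_csub (enc_rat _ 1686681 70000000) (pr_scale 8431 350000 h1)) (pr_cmul (enc_norm (bx3q1_3.enc h1.l h2)) (pr_norm (pr_csub (enc_rat _ 1844113 7000000) (pr_scale 2299 8750 h1))))) (pr_case (pr_subr 197 200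 h1) (pr_add (pr_csub (enc_rat _ 1696941 70000000) (pr_scale 1697 70000 h1)) (pr_cmul (enc_norm (bx3q1_3.enc h1.l h2)) (pr_norm (pr_csub (enc_rat _ 1915743 7000000) (pr_scale 9573 35000 h1))))) (pr_add (pr_csub (enc_rat _ 907 37500) (pr_scale 907 37500 h1)) (pr_cmul (enc_norm (bx3q1_3.enc h1.l h2)) (pr_norm (pr_csub (enc_rat _ 711 2500) (pr_scale 711 2500 h1)))))))))⟩
noncomputable def l3q1_s : Sl2 l3q1 := ⟨_, fun h1 h2 => (pr_norm (pr_mul (cv3m_s.snd h1) (bx3q1_s.snd h1 h2)))⟩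
noncomputable def cv3p_s : Sl1 cv3p := ⟨_, fun h1 => (pr_norm (pr_add (pr_scale 3 5 (pr_subr 1 2 (swg_s.snd h1))) (pr_scale 2 5 (c3g_s.snd h1))))⟩
noncomputable def bf3q2_s : Sl2 bf3q2 := ⟨_, fun h1 h2 => (pr_norm (pr_case (pr_subr 27 25 h1) (pr_case (pr_subr 203 200 h1) (pr_add (pr_csub (enc_rat _ 2658147 2000000) (pr_scale 5043 10000 h1)) (pr_cmul (enc_norm (bf3q2_3.enc h1.l h2)) (pr_norm (pr_subr 652 1875 (pr_scale 31 120 h1))))) (pr_case (pr_subr 21 20 h1) (pr_add (pr_csub (enc_rat _ 3322691 2500000) (pr_scale 88253 175000 h1)) (pr_cmul (enc_norm (bf3q2_3.enc h1.l h2)) (pr_norm (pr_subr 347453 1000000 (pr_scale 1129 4375 h1))))) (pr_add (pr_csub (enc_rat _ 3322701 2500000) (pr_scale 37823 75000 h1)) (pr_cmul (enc_norm (bf3q2_3.enc h1.l h2)) (pr_norm (pr_subr 346763 1000000 (pr_scale 1287 5000 h1))))))) (pr_case (pr_subr 29 25 h1) (pr_add (pr_csub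 (enc_rat _ 6645447 5000000) (pr_scale 100863 200000 h1)) (pr_cmul (enc_norm (bf3q2_3.enc h1.l h2)) (pr_norm (pr_subr 69169 200000 (pr_scale 5131 20000 h1))))) (pr_case (pr_subr 13 10 h1) (pr_add (pr_csub (enc_rat _ 23259137 17500000) (pr_scale 353023 700000 h1)) (pr_cmul (enc_norm (bf3q2_3.enc h1.l h2)) (pr_norm (pr_subr 482617 1400000 (pr_scale 17891 70000 h1))))) (pr_add (pr_csub (enc_rat _ 5316379 4000000) (pr_scale 1008639 2000000 h1)) (pr_cmul (enc_norm (bf3q2_3.enc h1.l h2)) (pr_norm (pr_subr 3439 10000 (pr_scale 5099 20000 h1)))))))))⟩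
noncomputable def kf3q2_s : Sl2 kf3q2 := ⟨_, fun h1 h2 => (pr_norm (pr_mul (cv3p_s.snd h1) (bf3q2_s.snd h1 h2)))⟩
noncomputable def bx3q2_s : Sl2 bx3q2 := ⟨_, fun h1 h2 => (pr_norm (pr_case (pr_subr 27 25 h1) (pr_case (pr_subr 203 200 h1) (pr_add (pr_csub (enc_rat _ 977593 7500000) (pr_scale 2491 18750 h1)) (pr_cmul (enc_norm (bx3q2_3.enc h1.l h2)) (pr_norm (pr_subr 283069 1500000 (pr_scale 2569 15000 h1))))) (pr_case (pr_subr 21 20 h1) (pr_add (pr_csub (enc_rat _ 130309 1000000) (pr_scale 23243 175000 h1)) (pr_cmul (enc_norm (bx3q2_3.enc h1.l h2)) (pr_norm (pr_subr 94221 500000 (pr_scale 171 1000 h1))))) (pr_add (pr_csub (enc_rat _ 260547 2000000) (pr_scale 7967 60000 h1)) (pr_cmul (enc_norm (bx3q2_3.enc h1.l h2)) (pr_norm (pr_subr 187147 1000000 (pr_scale 5093 30000 h1))))))) (pr_case (pr_subr 29 25 h1) (pr_add (pr_csub (enc_rat _ 1302483 10000000)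 (pr_scale 3319 25000 h1)) (pr_cmul (enc_norm (bx3q2_3.enc h1.l h2)) (pr_norm (pr_subr 92741 500000 (pr_scale 6729 40000 h1))))) (pr_case (pr_subr 13 10 h1) (pr_add (pr_csub (enc_rat _ 9118367 70000000) (pr_scale 185881 1400000 h1)) (pr_cmul (enc_norm (bx3q2_3.enc h1.l h2)) (pr_norm (pr_subr 1284019 7000000 (pr_scale 2913 17500 h1))))) (pr_add (pr_csub (enc_rat _ 1302713 10000000) (pr_scale 132779 1000000 h1)) (pr_cmul (enc_norm (bx3q2_3.enc h1.l h2)) (pr_norm (pr_subr 182343 1000000 (pr_scale 8281 50000 h1)))))))))⟩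
noncomputable def l3q2_s : Sl2 l3q2 := ⟨_, fun h1 h2 => (pr_norm (pr_mul (cv3p_s.snd h1) (bx3q2_s.snd h1 h2)))⟩
noncomputable def ycg_s : Sl1 ycg := ⟨_, fun h1 => (pr_sqrtg (pr_scale 4 3 (pr_csub (enc_pnc _ 3) (pr_sq h1))))⟩
noncomputable def xc33_s : Sl1 xc33 := ⟨_, fun h1 => (pr_norm (pr_add (pr_scale 3 5 (pr_subr 1 2 (swg_s.snd (pr_nd (ycg_s.snd h1))))) (pr_scale 2 5 h1)))⟩
noncomputable def bf3q3_s : Sl2 bf3q3 := ⟨_, fun h1 h2 => (pr_norm (pr_case (pr_subr 47 25 h1) (pr_case (pr_subr 7 4 h1) (pr_add (pr_csub (enc_rat _ 46752297 10000000) (pr_scale 5219037 2500000 h1)) (pr_cmul (enc_norm (bf3q3_3.enc h1.l h2)) (pr_norm (pr_csub (enc_rat _ 2217 1000000) (pr_scale 277 250000 h1))))) (pr_add (pr_csub (enc_rat _ 303889997 65000000) (pr_scale 27139 13000 h1)) (pr_cmul (enc_norm (bf3q3_3.enc h1.l h2)) (pr_norm (pr_csub (enc_rat _ 28989 13000000) (pr_scale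 29 26000 h1)))))) (pr_case (pr_subr 39 20 h1) (pr_add (pr_csub (enc_rat _ 163633003 35000000) (pr_scale 146133 70000 h1)) (pr_cmul (enc_norm (bf3q3_3.enc h1.l h2)) (pr_norm (pr_csub (enc_rat _ 2201 1000000) (pr_scale 11 10000 h1))))) (pr_case (pr_subr 397 200 h1) (pr_add (pr_csub (enc_rat _ 81816599 17500000) (pr_scale 365333 175000 h1)) (pr_cmul (enc_norm (bf3q3_3.enc h1.l h2)) (pr_norm (pr_csub (enc_rat _ 7801 3500000) (pr_scale 39 35000 h1))))) (pr_add (pr_csub (enc_rat _ 175321 37500) (pr_scale 156571 75000 h1)) (pr_cmul (enc_norm (bf3q3_3.enc h1.l h2)) (pr_norm (pr_csub (enc_rat _ 17 7500) (pr_scale 17 15000 h1)))))))))⟩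
noncomputable def kfc33_s : Sl2 kfc33 := ⟨_, fun h1 h2 => (pr_norm (pr_mul (pr_norm (pr_add (pr_scale 3 5 (pr_subr 1 2 (swg_s.snd (pr_nd (ycg_s.snd h1))))) (pr_scale 2 5 h1))) (bf3q3_s.snd (pr_nd (ycg_s.snd h1)) h2)))⟩
noncomputable def bx3q3_s : Sl2 bx3q3 := ⟨_, fun h1 h2 => (pr_norm (pr_case (pr_subr 47 25 h1) (pr_case (pr_subr 7 4 h1) (pr_add (pr_csub (enc_rat _ 227059 625000) (pr_scale 22293 125000 h1)) (pr_cmul (enc_norm (bx3q3_3.enc h1.l h2)) (pr_norm (pr_subr 90851 250000 (pr_scale 7133 31250 h1))))) (pr_add (pr_csub (enc_rat _ 47230337 130000000) (pr_scale 231859 1300000 h1)) (pr_cmul (enc_norm (bx3q3_3.enc h1.l h2)) (pr_norm (pr_subr 4739253 13000000 (pr_scale 29759 130000 h1)))))) (pr_case (pr_subr 39 20 h1) (pr_add (pr_csub (enc_rat _ 5086451 14000000) (pr_scale 2497 14000 h1)) (pr_cmul (enc_norm (bx3q3_3.enc h1.l h2)) (pr_norm (pr_subr 2561667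 7000000 (pr_scale 4019 17500 h1))))) (pr_case (pr_subr 397 200 h1) (pr_add (pr_csub (enc_rat _ 726647 2000000) (pr_scale 4459 25000 h1)) (pr_cmul (enc_norm (bx3q3_3.enc h1.l h2)) (pr_norm (pr_subr 367011 1000000 (pr_scale 1151 5000 h1))))) (pr_add (pr_csub (enc_rat _ 108994156267 300000000000) (pr_scale 267532711 1500000000 h1)) (pr_cmul (enc_norm (bx3q3_3.enc h1.l h2)) (pr_norm (pr_subr 38586255209 105000000000 (pr_scale 120981197 525000000 h1)))))))))⟩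
noncomputable def lc33_s : Sl2 lc33 := ⟨_, fun h1 h2 => (pr_norm (pr_mul (pr_norm (pr_add (pr_scale 3 5 (pr_subr 1 2 (swg_s.snd (pr_nd (ycg_s.snd h1))))) (pr_scale 2 5 h1))) (bx3q3_s.snd (pr_nd (ycg_s.snd h1)) h2)))⟩
noncomputable def kf4q0_s : Sl2 kf4q0 := ⟨_, fun h1 h2 => (pr_norm (pr_sub (pr_mul h1 (kcg_s.snd (pr_nd (pr_half h1)) h2)) (pr_mul (pr_norm (pr_mul (pr_nd (pr_sq h1)) (pr_norm (pr_addc (c3g_s.snd h1) (enc_rat _ 3 2))))) (pr_nd (pr_inv (pr_mul (pr_norm (pr_csub (enc_pnc _ 1) h1)) (pr_norm (pr_cadd (enc_pnc _ 1) h1))))))))⟩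
noncomputable def l4q0_6_s : Sl2 l4q0_6 := ⟨_, fun h1 h2 => (pr_half h1)⟩
noncomputable def l4q0_7_s : Sl2 l4q0_7 := ⟨_, fun h1 h2 => (pr_half (c3g_s.snd h1))⟩
noncomputable def l4q0_8_s : Sl2 l4q0_8 := ⟨_, fun h1 h2 => (pr_scale 1 4 h1)⟩
noncomputable def l4q0_s : Sl2 l4q0 := ⟨_, fun h1 h2 => (pr_norm (pr_add (txg_s.snd (pr_nd (l4q0_6_s.snd h1 h2)) (pr_norm (pr_sub (l4q0_7_s.snd h1 h2) (l4q0_8_s.snd h1 h2))) h2) (txg_s.snd (pr_nd (pr_neg (l4q0_6_s.snd h1 h2))) (pr_norm (pr_add (l4q0_7_s.snd h1 h2) (l4q0_8_s.snd h1 h2))) h2)))⟩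
noncomputable def kf4q1_s : Sl2 kf4q1 := ⟨_, fun h1 h2 => (pr_norm (pr_add (pr_mul (pr_norm (pr_mul h1 (pr_norm (pr_addc (c3g_s.snd h1) (enc_rat _ 3 2))))) (pr_nd (pr_inv (pr_cadd (enc_pnc _ 1) h1)))) (pr_mul (pr_norm (pr_subn 1 h1)) (kcg_s.snd (pr_nd (pr_half h1)) h2))))⟩
noncomputable def l4q1_7_s : Sl2 l4q1_7 := ⟨_, fun h1 h2 => (pr_half h1)⟩
noncomputable def l4q1_8_s : Sl2 l4q1_8 := ⟨_, fun h1 h2 => (pr_half (c3g_s.snd h1))⟩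
noncomputable def l4q1_9_s : Sl2 l4q1_9 := ⟨_, fun h1 h2 => (pr_scale 1 4 h1)⟩
noncomputable def l4q1_s : Sl2 l4q1 := ⟨_, fun h1 h2 => (pr_norm (pr_add (txg_s.snd (pr_nd (l4q1_7_s.snd h1 h2)) (pr_norm (pr_sub (l4q1_8_s.snd h1 h2) (l4q1_9_s.snd h1 h2))) h2) (txg_s.snd (pr_nd (pr_neg (l4q1_7_s.snd h1 h2))) (pr_norm (pr_add (l4q1_8_s.snd h1 h2) (l4q1_9_s.snd h1 h2))) h2)))⟩
noncomputable def kf4q2_s : Sl2 kf4q2 := ⟨_, fun h1 h2 => (pr_norm (pr_add (pr_mul (pr_norm (pr_mul (pr_norm (pr_sub (pr_nat 2 (c3g_s.snd h1)) h1)) (pr_norm (pr_sub (pr_addc (c3g_s.snd h1) (enc_pnc _ 3)) (pr_scale 3 2 h1))))) (pr_nd (pr_inv (pr_nat 4 (pr_csub (enc_pnc _ 2) h1))))) (pr_mul (pr_norm (pr_subn 1 h1)) (kcg_s.snd (pr_norm (pr_sub (pr_scale 1 4 h1) (pr_half (c3g_s.snd h1)))) h2))))⟩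
noncomputable def l4q2_7_s : Sl2 l4q2_7 := ⟨_, fun h1 h2 => (pr_half (c3g_s.snd h1))⟩
noncomputable def l4q2_8_s : Sl2 l4q2_8 := ⟨_, fun h1 h2 => (pr_scale 1 4 h1)⟩
noncomputable def l4q2_9_s : Sl2 l4q2_9 := ⟨_, fun h1 h2 => (pr_sub (l4q2_7_s.snd h1 h2) (l4q2_8_s.snd h1 h2))⟩
noncomputable def l4q2_12_s : Sl2 l4q2_12 := ⟨_, fun h1 h2 => (pr_add (pr_scale 1 4 (c3g_s.snd h1)) (pr_scale 3 8 h1))⟩
noncomputable def l4q2_14_s : Sl2 l4q2_14 := ⟨_, fun h1 h2 => (pr_half (l4q2_9_s.snd h1 h2))⟩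
noncomputable def l4q2_s : Sl2 l4q2 := ⟨_, fun h1 h2 => (pr_norm (pr_sub (pr_nat 2 (txg_s.snd (pr_norm (pr_sub (l4q2_8_s.snd h1 h2) (l4q2_7_s.snd h1 h2))) (pr_norm (pr_add (l4q2_12_s.snd h1 h2) (l4q2_14_s.snd h1 h2))) h2)) (txg_s.snd (pr_norm (l4q2_9_s.snd h1 h2)) (pr_norm (pr_sub (l4q2_12_s.snd h1 h2) (l4q2_14_s.snd h1 h2))) h2)))⟩
noncomputable def kfc43_s : Sl2 kfc43 := ⟨_, fun h1 h2 => (pr_norm (pr_sub (pr_mul (pr_norm (pr_subn 2 (ycg_s.snd h1))) (kcg_s.snd (pr_norm (pr_sub (pr_scale 1 4 (ycg_s.snd h1)) (pr_half h1))) h2)) (pr_mul (pr_norm (pr_mul (pr_norm (pr_sub (pr_nat 2 h1) (ycg_s.snd h1))) (pr_norm (pr_sub (pr_addc h1 (enc_pnc _ 3)) (pr_scale 3 2 (ycg_s.snd h1)))))) (pr_nd (pr_inv (pr_nat 4 (pr_subn 1 (ycg_s.snd h1))))))))⟩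
noncomputable def lc43_7_s : Sl2 lc43_7 := ⟨_, fun h1 h2 => (pr_half h1)⟩
noncomputable def lc43_8_s : Sl2 lc43_8 := ⟨_, fun h1 h2 => (pr_scale 1 4 (ycg_s.snd h1))⟩
noncomputable def lc43_9_s : Sl2 lc43_9 := ⟨_, fun h1 h2 => (pr_sub (lc43_7_s.snd h1 h2) (lc43_8_s.snd h1 h2))⟩
noncomputable def lc43_12_s : Sl2 lc43_12 := ⟨_, fun h1 h2 => (pr_add (pr_scale 1 4 h1) (pr_scale 3 8 (ycg_s.snd h1)))⟩
noncomputable def lc43_14_s : Sl2 lc43_14 := ⟨_, fun h1 h2 => (pr_half (lc43_9_s.snd h1 h2))⟩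
noncomputable def lc43_s : Sl2 lc43 := ⟨_, fun h1 h2 => (pr_norm (pr_sub (pr_nat 2 (txg_s.snd (pr_norm (pr_sub (lc43_8_s.snd h1 h2) (lc43_7_s.snd h1 h2))) (pr_norm (pr_add (lc43_12_s.snd h1 h2) (lc43_14_s.snd h1 h2))) h2)) (txg_s.snd (pr_norm (lc43_9_s.snd h1 h2)) (pr_norm (pr_sub (lc43_12_s.snd h1 h2) (lc43_14_s.snd h1 h2))) h2)))⟩
noncomputable def gF0q0 : Gn := ⟨ndF0q0, c1g_s, kf0q0_s, l0q0_s, false⟩
noncomputable def gF0q1 : Gn := ⟨ndF0q1, c1g_s, kf0q1_s, l0q1_s, false⟩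
noncomputable def gF0q2 : Gn := ⟨ndF0q2, idf_s, kfc02_s, lc02_s, true⟩
noncomputable def gF1q0 : Gn := ⟨ndF1q0, cv1m_s, kf1q0_s, l1q0_s, false⟩
noncomputable def gF1q1 : Gn := ⟨ndF1q1, cv1m_s, kf1q1_s, l1q1_s, false⟩
noncomputable def gF1q2 : Gn := ⟨ndF1q2, cv1p_s, kf1q2_s, l1q2_s, false⟩
noncomputable def gF1q3 : Gn := ⟨ndF1q3, cv1r_s, kf1q3_s, l1q3_s, false⟩
noncomputable def gF2q0 : Gn := ⟨ndF2q0, cv2m_s, kf2q0_s, l2q0_s, false⟩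
noncomputable def gF2q1 : Gn := ⟨ndF2q1, cv2m_s, kf2q1_s, l2q1_s, false⟩
noncomputable def gF2q2 : Gn := ⟨ndF2q2, cv2p_s, kf2q2_s, l2q2_s, false⟩
noncomputable def gF2q3 : Gn := ⟨ndF2q3, cv2r_s, kf2q3_s, l2q3_s, false⟩
noncomputable def gF3q0 : Gn := ⟨ndF3q0, cv3m_s, kf3q0_s, l3q0_s, false⟩
noncomputable def gF3q1 : Gn := ⟨ndF3q1, cv3m_s, kf3q1_s, l3q1_s, false⟩
noncomputable def gF3q2 : Gn := ⟨ndF3q2, cv3p_s, kf3q2_s, l3q2_s, false⟩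
noncomputable def gF3q3 : Gn := ⟨ndF3q3, xc33_s, kfc33_s, lc33_s, false⟩
noncomputable def gF4q0 : Gn := ⟨ndF4q0, c3g_s, kf4q0_s, l4q0_s, false⟩
noncomputable def gF4q1 : Gn := ⟨ndF4q1, c3g_s, kf4q1_s, l4q1_s, false⟩
noncomputable def gF4q2 : Gn := ⟨ndF4q2, c3g_s, kf4q2_s, l4q2_s, false⟩
noncomputable def gF4q3 : Gn := ⟨ndF4q3, idf_s, kfc43_s, lc43_s, false⟩
noncomputable def gF0q3 : Gn := gz
noncomputable def gF (j : Fin 5) (q : ℕ) : Gn :=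
  match j, q with
  | 0, 0 => gF0q0
  | 0, 1 => gF0q1
  | 0, 2 => gF0q2
  | 0, 3 => gF0q3
  | 1, 0 => gF1q0
  | 1, 1 => gF1q1
  | 1, 2 => gF1q2
  | 1, 3 => gF1q3
  | 2, 0 => gF2q0
  | 2, 1 => gF2q1
  | 2, 2 => gF2q2
  | 2, 3 => gF2q3
  | 3, 0 => gF3q0
  | 3, 1 => gF3q1
  | 3, 2 => gF3q2
  | 3, 3 => gF3q3
  | 4, 0 => gF4q0
  | 4, 1 => gF4q1
  | 4, 2 => gF4q2
  | 4, 3 => gF4q3
  | _, _ => gF0q0

noncomputable def c0n : Fn1 := ⟨_, _, fun h1 => (enc_norm (enc_add (enc_pnc _ 1) (enc_mul (mug3.enc h1) (gug.enc h1))))⟩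
noncomputable def gug_s : Sl1 gug := ⟨_, fun h1 => (pr_norm (pr_add (pr_scale 3 4 h1) (pr_scale 3 2 (pr_csub (enc_pnc _ 1) (gsg_s.snd h1)))))⟩
noncomputable def kug_2_s : Sl1 kug_2 := ⟨_, fun h1 => (pr_sq h1)⟩
noncomputable def kug_s : Sl1 kug := ⟨_, fun h1 => (pr_norm (pr_add (pr_add (pr_scale 3 4 h1) (pr_scale 3 2 (kug_2_s.snd h1))) (pr_mul (pr_norm (pr_mul (pr_nd (pr_scale 3 4 (kug_2_s.snd h1))) (pr_nd (pr_inv (gsg_s.snd h1))))) (gug_s.snd h1))))⟩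
noncomputable def kp0q0_8_s : Sl2 kp0q0_8 := ⟨_, fun h1 h2 => (pr_sub (pr_scale 3 4 h1) (pr_half (c1g_s.snd h1)))⟩
noncomputable def kp0q0_s : Sl2 kp0q0 := ⟨_, fun h1 h2 => (pr_norm (pr_case (pr_addc (kp0q0_8_s.snd h1 h2) (enc_rat _ 587 1262)) (pr_mul h1 (pr_norm (pr_add (pr_subr 115338028397 110000000000 (pr_neg (pr_scale 135071599397 55000000000 (kp0q0_8_s.snd h1 h2)))) (pr_cmul (enc_norm (kp0q0_3.enc h1.l h2)) (pr_norm (pr_addc (pr_scale 65332406697 44000000000 (kp0q0_8_s.snd h1 h2)) (enc_rat _ 66070814697 88000000000))))))) (pr_case (pr_addc (kp0q0_8_s.snd h1 h2) (enc_rat _ 613 1574)) (pr_sub (kug_s.snd h1) (pr_mul h1 (pr_norm (pr_mul (kcg_s.snd (pr_norm (kp0q0_8_s.snd h1 h2)) h2) (pr_norm (pr_add (gug_s.snd h1) (pr_nat 2 (c1g_s.snd h1)))))))) (pr_mul h1 (pr_norm (pr_case (pr_addc (kp0q0_8_s.snd h1 h2) (enc_rat _ 1 4)) (pr_case (pr_addc (kp0q0_8_s.snd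 h1 h2) (enc_rat _ 7 20)) (pr_add (pr_csub (enc_rat _ 102378567731 414000000000) (pr_scale 6570852667 20700000000 (kp0q0_8_s.snd h1 h2))) (pr_cmul (enc_norm (kp0q0_3.enc h1.l h2)) (pr_norm (pr_subr 4081302623 90000000000 (pr_neg (pr_scale 692046089 4500000000 (kp0q0_8_s.snd h1 h2))))))) (pr_add (pr_csub (enc_rat _ 4946101 20000000) (pr_scale 317393 1000000 (kp0q0_8_s.snd h1 h2))) (pr_cmul (enc_norm (kp0q0_3.enc h1.l h2)) (pr_norm (pr_subr 2361 100000 (pr_neg (pr_scale 573 6250 (kp0q0_8_s.snd h1 h2)))))))) (pr_case (kp0q0_8_s.snd h1 h2) (pr_add (pr_csub (enc_rat _ 154587 625000) (pr_scale 793141 2500000 (kp0q0_8_s.snd h1 h2))) (pr_cmul (enc_norm (kp0q0_3.enc h1.l h2)) (pr_norm (pr_subr 6063 250000 (pr_neg (pr_scale 11781 125000 (kp0q0_8_s.snd h1 h2))))))) (pr_add (pr_csub (enc_rat _ 154587 625000) (pr_scale 792507 2500000 (kp0q0_8_s.snd h1 h2))) (pr_cmul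 (enc_norm (kp0q0_3.enc h1.l h2)) (pr_norm (pr_subr 6063 250000 (pr_neg (pr_scale 12847 125000 (kp0q0_8_s.snd h1 h2))))))))))))))⟩
noncomputable def kn0q0_s : Sl2 kn0q0 := ⟨_, fun h1 h2 => (pr_norm (pr_add (pr_cmul (enc_norm (enc_add (enc_pnc _ 1) (enc_mul (mug3.enc h2) (gug.enc h2)))) (kf0q0_s.snd h1 h2)) (pr_cmul (mug3.enc h2) (kp0q0_s.snd h1 h2))))⟩
noncomputable def kp0q1_9_s : Sl2 kp0q1_9 := ⟨_, fun h1 h2 => (pr_sub (pr_scale 3 4 h1) (pr_half (c1g_s.snd h1)))⟩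
noncomputable def kp0q1_s : Sl2 kp0q1 := ⟨_, fun h1 h2 => (pr_norm (pr_mul (pr_norm (pr_subn 1 h1)) (pr_norm (pr_case (pr_addc (kp0q1_9_s.snd h1 h2) (enc_rat _ 1 4)) (pr_case (pr_addc (kp0q1_9_s.snd h1 h2) (enc_rat _ 7 20)) (pr_add (pr_csub (enc_rat _ 102378567731 414000000000) (pr_scale 6570852667 20700000000 (kp0q1_9_s.snd h1 h2))) (pr_cmul (enc_norm (kp0q1_3.enc h1.l h2)) (pr_norm (pr_subr 4081302623 90000000000 (pr_neg (pr_scale 692046089 4500000000 (kp0q1_9_s.snd h1 h2))))))) (pr_add (pr_csub (enc_rat _ 4946101 20000000) (pr_scale 317393 1000000 (kp0q1_9_s.snd h1 h2))) (pr_cmul (enc_norm (kp0q1_3.enc h1.l h2)) (pr_norm (pr_subr 2361 100000 (pr_neg (pr_scale 573 6250 (kp0q1_9_s.snd h1 h2)))))))) (pr_case (kp0q1_9_s.snd h1 h2) (pr_add (pr_csub (enc_rat _ 154587 625000) (pr_scale 793141 2500000 (kp0q1_9_s.snd h1 h2))) (pr_cmul (enc_norm (kp0q1_3.enc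 h1.l h2)) (pr_norm (pr_subr 6063 250000 (pr_neg (pr_scale 11781 125000 (kp0q1_9_s.snd h1 h2))))))) (pr_add (pr_csub (enc_rat _ 154587 625000) (pr_scale 792507 2500000 (kp0q1_9_s.snd h1 h2))) (pr_cmul (enc_norm (kp0q1_3.enc h1.l h2)) (pr_norm (pr_subr 6063 250000 (pr_neg (pr_scale 12847 125000 (kp0q1_9_s.snd h1 h2))))))))))))⟩
noncomputable def kn0q1_s : Sl2 kn0q1 := ⟨_, fun h1 h2 => (pr_norm (pr_add (pr_cmul (enc_norm (enc_add (enc_pnc _ 1) (enc_mul (mug3.enc h2) (gug.enc h2)))) (kf0q1_s.snd h1 h2)) (pr_cmul (mug3.enc h2) (kp0q1_s.snd h1 h2))))⟩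
noncomputable def kpc02_s : Sl2 kpc02 := ⟨_, fun h1 h2 => (pr_norm (pr_mul (pr_norm (pr_subn 1 (yag_s.snd h1))) (pr_norm (pr_case (pr_subr 1 10 h1) (pr_sub (pr_neg (pr_scale 20239 100000 h1)) (pr_cmul (enc_norm (kpc02_4.enc h1.l h2)) (pr_nd (pr_scale 133 6250 h1)))) (pr_add (pr_csub (enc_rat _ 1 2000000) (pr_scale 40479 200000 h1)) (pr_cmul (enc_norm (kpc02_4.enc h1.l h2)) (pr_norm (pr_csub (enc_rat _ 1587 2000000) (pr_scale 5843 200000 h1)))))))))⟩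
noncomputable def knc02_s : Sl2 knc02 := ⟨_, fun h1 h2 => (pr_norm (pr_add (pr_cmul (enc_norm (enc_add (enc_pnc _ 1) (enc_mul (mug3.enc h2) (gug.enc h2)))) (kfc02_s.snd h1 h2)) (pr_cmul (mug3.enc h2) (kpc02_s.snd h1 h2))))⟩
noncomputable def bd1q0_s : Sl2 bd1q0 := ⟨_, fun h1 h2 => (pr_norm (pr_case (pr_subr 1 10 h1) (pr_sub (pr_neg (pr_scale 966177 200000 h1)) (pr_cmul (enc_norm (bd1q0_3.enc h1.l h2)) (pr_nd (pr_scale 3 12500 h1)))) (pr_add (pr_csub (enc_rat _ 39 40000000) (pr_scale 19323579 4000000 h1)) (pr_cmul (enc_norm (bd1q0_3.enc h1.l h2)) (pr_norm (pr_csub (enc_rat _ 37 4000000) (pr_scale 133 400000 h1)))))))⟩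
noncomputable def kp1q0_s : Sl2 kp1q0 := ⟨_, fun h1 h2 => (pr_norm (pr_mul (cv1m_s.snd h1) (bd1q0_s.snd h1 h2)))⟩
noncomputable def kn1q0_s : Sl2 kn1q0 := ⟨_, fun h1 h2 => (pr_norm (pr_add (pr_cmul (enc_norm (enc_add (enc_pnc _ 1) (enc_mul (mug3.enc h2) (gug.enc h2)))) (kf1q0_s.snd h1 h2)) (pr_cmul (mug3.enc h2) (kp1q0_s.snd h1 h2))))⟩
noncomputable def bd1q1_s : Sl2 bd1q1 := ⟨_, fun h1 h2 => (pr_norm (pr_case (pr_subr 9 10 h1) (pr_add (pr_subr 55846393 40000000 (pr_scale 53101 32000 h1)) (pr_cmul (enc_norm (bd1q1_3.enc h1.l h2)) (pr_norm (pr_subr 3979 4000000 (pr_scale 659 400000 h1))))) (pr_add (pr_subr 13961587 10000000 (pr_scale 331881 200000 h1)) (pr_cmul (enc_norm (bd1q1_3.enc h1.l h2)) (pr_norm (pr_subr 53 50000 (pr_scale 43 25000 h1)))))))⟩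
noncomputable def kp1q1_s : Sl2 kp1q1 := ⟨_, fun h1 h2 => (pr_norm (pr_mul (cv1m_s.snd h1) (bd1q1_s.snd h1 h2)))⟩
noncomputable def kn1q1_s : Sl2 kn1q1 := ⟨_, fun h1 h2 => (pr_norm (pr_add (pr_cmul (enc_norm (enc_add (enc_pnc _ 1) (enc_mul (mug3.enc h2) (gug.enc h2)))) (kf1q1_s.snd h1 h2)) (pr_cmul (mug3.enc h2) (kp1q1_s.snd h1 h2))))⟩
noncomputable def bd1q2_s : Sl2 bd1q2 := ⟨_, fun h1 h2 => (pr_norm (pr_case (pr_subr 577 500 h1) (pr_case (pr_subr 11 10 h1) (pr_add (pr_csub (enc_rat _ 202393 1000000) (pr_scale 202393 1000000 h1)) (pr_cmul (enc_norm (bd1q2_3.enc h1.l h2)) (pr_norm (pr_csub (enc_rat _ 1069 50000) (pr_scale 1069 50000 h1))))) (pr_add (pr_csub (enc_rat _ 18214523 90000000) (pr_scale 91073 450000 h1)) (pr_cmul (enc_norm (bd1q2_3.enc h1.l h2)) (pr_norm (pr_csub (enc_rat _ 56879 2700000) (pr_scale 14239 675000 h1)))))) (pr_case (pr_subr 231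 200 h1) (pr_add (pr_csub (enc_rat _ 20239 100000) (pr_scale 20239 100000 h1)) (pr_cmul (enc_norm (bd1q2_3.enc h1.l h2)) (pr_norm (pr_csub (enc_rat _ 133 6250) (pr_scale 133 6250 h1))))) (pr_add (pr_csub (enc_rat _ 46549931 230000000) (pr_scale 465499 2300000 h1)) (pr_cmul (enc_norm (bd1q2_3.enc h1.l h2)) (pr_norm (pr_csub (enc_rat _ 403123 23000000) (pr_scale 31103 1725000 h1))))))))⟩
noncomputable def kp1q2_s : Sl2 kp1q2 := ⟨_, fun h1 h2 => (pr_norm (pr_mul (cv1p_s.snd h1) (bd1q2_s.snd h1 h2)))⟩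
noncomputable def kn1q2_s : Sl2 kn1q2 := ⟨_, fun h1 h2 => (pr_norm (pr_add (pr_cmul (enc_norm (enc_add (enc_pnc _ 1) (enc_mul (mug3.enc h2) (gug.enc h2)))) (kf1q2_s.snd h1 h2)) (pr_cmul (mug3.enc h2) (kp1q2_s.snd h1 h2))))⟩
noncomputable def bd1q3_s : Sl2 bd1q3 := ⟨_, fun h1 h2 => (pr_norm (pr_case (pr_subr 19 10 h1) (pr_add (pr_csub (enc_rat _ 660836367 40000000) (pr_scale 39962917 4000000 h1)) (pr_cmul (enc_norm (bd1q3_3.enc h1.l h2)) (pr_norm (pr_csub (enc_rat _ 3 4000000) (pr_scale 1 400000 h1))))) (pr_subc (pr_csub (enc_rat _ 82604553 5000000) (pr_scale 999073 100000 h1)) (enc_scale 1 250000 (bd1q3_3.enc h1.l h2)))))⟩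
noncomputable def kp1q3_s : Sl2 kp1q3 := ⟨_, fun h1 h2 => (pr_norm (pr_mul (cv1r_s.snd h1) (bd1q3_s.snd h1 h2)))⟩
noncomputable def kn1q3_s : Sl2 kn1q3 := ⟨_, fun h1 h2 => (pr_norm (pr_add (pr_cmul (enc_norm (enc_add (enc_pnc _ 1) (enc_mul (mug3.enc h2) (gug.enc h2)))) (kf1q3_s.snd h1 h2)) (pr_cmul (mug3.enc h2) (kp1q3_s.snd h1 h2))))⟩
noncomputable def bd2q0_s : Sl2 bd2q0 := ⟨_, fun h1 h2 => (pr_norm (pr_case (pr_subr 1 10 h1) (pr_sub (pr_cmul (enc_norm (bd2q0_3.enc h1.l h2)) (pr_nd (pr_scale 3 100000 h1))) (pr_scale 1148881 500000 h1)) (pr_add (pr_csub (enc_rat _ 61 40000000) (pr_scale 9191109 4000000 h1)) (pr_cmul (enc_norm (bd2q0_3.enc h1.l h2)) (pr_norm (pr_csub (enc_rat _ 11 1000000) (pr_scale 1 12500 h1)))))))⟩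
noncomputable def kp2q0_s : Sl2 kp2q0 := ⟨_, fun h1 h2 => (pr_norm (pr_mul (cv2m_s.snd h1) (bd2q0_s.snd h1 h2)))⟩
noncomputable def kn2q0_s : Sl2 kn2q0 := ⟨_, fun h1 h2 => (pr_norm (pr_add (pr_cmul (enc_norm (enc_add (enc_pnc _ 1) (enc_mul (mug3.enc h2) (gug.enc h2)))) (kf2q0_s.snd h1 h2)) (pr_cmul (mug3.enc h2) (kp2q0_s.snd h1 h2))))⟩
noncomputable def kp2q1_28_s : Sl2 kp2q1_28 := ⟨_, fun h1 h2 => (pr_csub (enc_pnc _ 1) h1)⟩
noncomputable def kp2q1_29_s : Sl2 kp2q1_29 := ⟨_, fun h1 h2 => (gsg_s.snd (pr_norm (kp2q1_28_s.snd h1 h2)))⟩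
noncomputable def kp2q1_33_s : Sl2 kp2q1_33 := ⟨_, fun h1 h2 => (esg_s.snd (pr_norm (kp2q1_28_s.snd h1 h2)))⟩
noncomputable def kp2q1_41_s : Sl2 kp2q1_41 := ⟨_, fun h1 h2 => (pr_mul (pr_nd (pr_scale 3 4 (pr_sq (pr_norm (kp2q1_28_s.snd h1 h2))))) (pr_nd (pr_inv (kp2q1_29_s.snd h1 h2))))⟩
noncomputable def kp2q1_s : Sl2 kp2q1 := ⟨_, fun h1 h2 => (pr_norm (pr_case (pr_subr 55 64 h1) (pr_mul (cv2m_s.snd h1) (pr_norm (pr_add (pr_subr 1473761431 898437500 (pr_scale 3534529849 1796875000 h1)) (pr_cmul (enc_norm (kp2q1_4.enc h1.l h2)) (pr_norm (pr_addc (pr_scale 352829 179687500 h1) (enc_rat _ 1187993 2875000000))))))) (pr_case (pr_subr 61 64 h1) (pr_sub (pr_add (kug_s.snd (pr_norm (kp2q1_28_s.snd h1 h2))) (pr_mul (pr_norm (pr_sub (pr_mul (pr_norm (pr_mul (pr_norm (kp2q1_41_s.snd h1 h2)) (pr_norm (pr_subn 3 (pr_nat 4 (kp2q1_29_s.snd h1 h2)))))) (kp2q1_33_s.snd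 h1 h2)) (pr_mul (qsg_s.snd (pr_norm (kp2q1_28_s.snd h1 h2))) (pr_norm (pr_sub (pr_half (kp2q1_28_s.snd h1 h2)) (kp2q1_41_s.snd h1 h2)))))) (pr_nd (pr_inv (pr_mul (pr_nd (pr_nat 2 (kp2q1_33_s.snd h1 h2))) (kp2q1_33_s.snd h1 h2)))))) (pr_mul (pr_norm (pr_mul (pr_norm (kp2q1_28_s.snd h1 h2)) (kcg_s.snd (pr_norm (pr_sub (pr_scale 3 4 (kp2q1_28_s.snd h1 h2)) (pr_half (kp2q1_29_s.snd h1 h2)))) h2))) (pr_norm (pr_add (pr_cadd (enc_pnc _ 1) (gug_s.snd (pr_norm (kp2q1_28_s.snd h1 h2)))) (pr_nat 2 (kp2q1_29_s.snd h1 h2)))))) (pr_mul (cv2m_s.snd h1) (pr_norm (pr_add (pr_csub (enc_rat _ 11034911 117187500) (pr_scale 11034911 117187500 h1)) (pr_cmul (enc_norm (kp2q1_4.enc h1.l h2)) (pr_norm (pr_csub (enc_rat _ 1391209 23437500) (pr_scale 1391209 23437500 h1))))))))))⟩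
noncomputable def kn2q1_s : Sl2 kn2q1 := ⟨_, fun h1 h2 => (pr_norm (pr_add (pr_cmul (enc_norm (enc_add (enc_pnc _ 1) (enc_mul (mug3.enc h2) (gug.enc h2)))) (kf2q1_s.snd h1 h2)) (pr_cmul (mug3.enc h2) (kp2q1_s.snd h1 h2))))⟩
noncomputable def kp2q2_28_s : Sl2 kp2q2_28 := ⟨_, fun h1 h2 => (pr_subn 1 h1)⟩
noncomputable def kp2q2_29_s : Sl2 kp2q2_29 := ⟨_, fun h1 h2 => (gsg_s.snd (pr_norm (kp2q2_28_s.snd h1 h2)))⟩
noncomputable def kp2q2_33_s : Sl2 kp2q2_33 := ⟨_, fun h1 h2 => (esg_s.snd (pr_norm (kp2q2_28_s.snd h1 h2)))⟩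
noncomputable def kp2q2_41_s : Sl2 kp2q2_41 := ⟨_, fun h1 h2 => (pr_mul (pr_nd (pr_scale 3 4 (pr_sq (pr_norm (kp2q2_28_s.snd h1 h2))))) (pr_nd (pr_inv (kp2q2_29_s.snd h1 h2))))⟩
noncomputable def kp2q2_s : Sl2 kp2q2 := ⟨_, fun h1 h2 => (pr_norm (pr_case (pr_subr 67 64 h1) (pr_mul (cv2p_s.snd h1) (pr_norm (pr_add (pr_subr 16071141 156250000 (pr_scale 16071141 156250000 h1)) (pr_cmul (enc_norm (kp2q2_4.enc h1.l h2)) (pr_norm (pr_subr 474877 7812500 (pr_scale 474877 7812500 h1))))))) (pr_case (pr_subr 73 64 h1) (pr_add (pr_sub (kug_s.snd (pr_norm (kp2q2_28_s.snd h1 h2))) (pr_mul (pr_norm (pr_sub (pr_mul (pr_norm (pr_mul (pr_norm (kp2q2_41_s.snd h1 h2)) (pr_norm (pr_subn 3 (pr_nat 4 (kp2q2_29_s.snd h1 h2)))))) (kp2q2_33_s.snd h1 h2)) (pr_mul (qsg_s.snd (pr_norm (kp2q2_28_s.snd h1 h2))) (pr_norm (pr_sub (pr_half (kp2q2_28_s.snd h1 h2)) (kp2q2_41_s.snd h1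 h2)))))) (pr_nd (pr_inv (pr_mul (pr_nd (pr_nat 2 (kp2q2_33_s.snd h1 h2))) (kp2q2_33_s.snd h1 h2)))))) (pr_mul (pr_norm (pr_mul (pr_norm (kp2q2_28_s.snd h1 h2)) (kcg_s.snd (pr_norm (pr_sub (pr_scale 3 4 (kp2q2_28_s.snd h1 h2)) (pr_half (kp2q2_29_s.snd h1 h2)))) h2))) (pr_norm (pr_sub (pr_csub (enc_pnc _ 1) (gug_s.snd (pr_norm (kp2q2_28_s.snd h1 h2)))) (pr_nat 2 (kp2q2_29_s.snd h1 h2)))))) (pr_mul (cv2p_s.snd h1) (pr_norm (pr_add (pr_csub (enc_rat _ 74135639273 28750000000) (pr_scale 993051663 449218750 h1)) (pr_cmul (enc_norm (kp2q2_4.enc h1.l h2)) (pr_norm (pr_csub (enc_rat _ 27141437 2875000000) (pr_scale 1131013 179687500 h1))))))))))⟩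
noncomputable def kn2q2_s : Sl2 kn2q2 := ⟨_, fun h1 h2 => (pr_norm (pr_add (pr_cmul (enc_norm (enc_add (enc_pnc _ 1) (enc_mul (mug3.enc h2) (gug.enc h2)))) (kf2q2_s.snd h1 h2)) (pr_cmul (mug3.enc h2) (kp2q2_s.snd h1 h2))))⟩
noncomputable def bd2q3_s : Sl2 bd2q3 := ⟨_, fun h1 h2 => (pr_norm (pr_case (pr_subr 19 10 h1) (pr_add (pr_csub (enc_rat _ 213017233 20000000) (pr_scale 15814871 2000000 h1)) (pr_cmul (enc_norm (bd2q3_3.enc h1.l h2)) (pr_norm (pr_csub (enc_rat _ 2049 4000000) (pr_scale 23 80000 h1))))) (pr_add (pr_csub (enc_rat _ 53254313 5000000) (pr_scale 1976859 250000 h1)) (pr_cmul (enc_norm (bd2q3_3.enc h1.l h2)) (pr_norm (pr_csub (enc_rat _ 517 1000000) (pr_scale 29 100000 h1)))))))⟩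
noncomputable def kp2q3_s : Sl2 kp2q3 := ⟨_, fun h1 h2 => (pr_norm (pr_mul (cv2r_s.snd h1) (bd2q3_s.snd h1 h2)))⟩
noncomputable def kn2q3_s : Sl2 kn2q3 := ⟨_, fun h1 h2 => (pr_norm (pr_add (pr_cmul (enc_norm (enc_add (enc_pnc _ 1) (enc_mul (mug3.enc h2) (gug.enc h2)))) (kf2q3_s.snd h1 h2)) (pr_cmul (mug3.enc h2) (kp2q3_s.snd h1 h2))))⟩
noncomputable def bd3q0_8_s : Sl2 bd3q0_8 := ⟨_, fun h1 h2 => (pr_addc (pr_scale 89277 62500 h1) (enc_rat _ 6282877 10000000))⟩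
noncomputable def bd3q0_s : Sl2 bd3q0 := ⟨_, fun h1 h2 => (pr_norm (pr_case (pr_subr 1 10 h1) (pr_add (bd3q0_8_s.snd h1 h2) (pr_cmul (enc_norm (bd3q0_3.enc h1.l h2)) (pr_norm (pr_csub (enc_rat _ 113 200000) (pr_scale 181 100000 h1))))) (pr_add (bd3q0_8_s.snd h1 h2) (pr_cmul (enc_norm (bd3q0_3.enc h1.l h2)) (pr_norm (pr_csub (enc_rat _ 141 250000) (pr_scale 9 5000 h1)))))))⟩
noncomputable def kp3q0_s : Sl2 kp3q0 := ⟨_, fun h1 h2 => (pr_norm (pr_mul (cv3m_s.snd h1) (bd3q0_s.snd h1 h2)))⟩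
noncomputable def kn3q0_s : Sl2 kn3q0 := ⟨_, fun h1 h2 => (pr_norm (pr_add (pr_cmul (enc_norm (enc_add (enc_pnc _ 1) (enc_mul (mug3.enc h2) (gug.enc h2)))) (kf3q0_s.snd h1 h2)) (pr_cmul (mug3.enc h2) (kp3q0_s.snd h1 h2))))⟩
noncomputable def bd3q1_s : Sl2 bd3q1 := ⟨_, fun h1 h2 => (pr_norm (pr_case (pr_subr 9 10 h1) (pr_add (pr_subr 4720441 20000000 (pr_scale 472049 2000000 h1)) (pr_cmul (enc_norm (bd3q1_3.enc h1.l h2)) (pr_norm (pr_subr 3961 800000 (pr_scale 1957 400000 h1))))) (pr_add (pr_subr 59 250 (pr_scale 59 250 h1)) (pr_cmul (enc_norm (bd3q1_3.enc h1.l h2)) (pr_norm (pr_subr 137 25000 (pr_scale 137 25000 h1)))))))⟩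
noncomputable def kp3q1_s : Sl2 kp3q1 := ⟨_, fun h1 h2 => (pr_norm (pr_mul (cv3m_s.snd h1) (bd3q1_s.snd h1 h2)))⟩
noncomputable def kn3q1_s : Sl2 kn3q1 := ⟨_, fun h1 h2 => (pr_norm (pr_add (pr_cmul (enc_norm (enc_add (enc_pnc _ 1) (enc_mul (mug3.enc h2) (gug.enc h2)))) (kf3q1_s.snd h1 h2)) (pr_cmul (mug3.enc h2) (kp3q1_s.snd h1 h2))))⟩
noncomputable def bd3q2_s : Sl2 bd3q2 := ⟨_, fun h1 h2 => (pr_norm (pr_case (pr_subr 11 10 h1) (pr_add (pr_csub (enc_rat _ 12788813 10000000) (pr_scale 252797 250000 h1)) (pr_cmul (enc_norm (bd3q2_3.enc h1.l h2)) (pr_norm (pr_subr 1879 100000 (pr_scale 1313 100000 h1))))) (pr_add (pr_csub (enc_rat _ 25577703 20000000) (pr_scale 2022383 2000000 h1)) (pr_cmul (enc_norm (bd3q2_3.enc h1.l h2)) (pr_norm (pr_subr 36799 2000000 (pr_scale 511 40000 h1)))))))⟩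
noncomputable def kp3q2_s : Sl2 kp3q2 := ⟨_, fun h1 h2 => (pr_norm (pr_mul (cv3p_s.snd h1) (bd3q2_s.snd h1 h2)))⟩
noncomputable def kn3q2_s : Sl2 kn3q2 := ⟨_, fun h1 h2 => (pr_norm (pr_add (pr_cmul (enc_norm (enc_add (enc_pnc _ 1) (enc_mul (mug3.enc h2) (gug.enc h2)))) (kf3q2_s.snd h1 h2)) (pr_cmul (mug3.enc h2) (kp3q2_s.snd h1 h2))))⟩
noncomputable def bd3q3_s : Sl2 bd3q3 := ⟨_, fun h1 h2 => (pr_norm (pr_case (pr_subr 19 10 h1) (pr_add (pr_csub (enc_rat _ 203061701 20000000) (pr_scale 2030617 400000 h1)) (pr_cmul (enc_norm (bd3q3_3.enc h1.l h2)) (pr_norm (pr_csub (enc_rat _ 1581 4000000) (pr_scale 79 400000 h1))))) (pr_add (pr_csub (enc_rat _ 5076543 500000) (pr_scale 5076543 1000000 h1)) (pr_cmul (enc_norm (bd3q3_3.enc h1.l h2)) (pr_norm (pr_csub (enc_rat _ 1 2500) (pr_scale 1 5000 h1)))))))⟩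
noncomputable def kpc33_s : Sl2 kpc33 := ⟨_, fun h1 h2 => (pr_norm (pr_mul (pr_norm (pr_add (pr_scale 3 5 (pr_subr 1 2 (swg_s.snd (pr_nd (ycg_s.snd h1))))) (pr_scale 2 5 h1))) (bd3q3_s.snd (pr_nd (ycg_s.snd h1)) h2)))⟩
noncomputable def knc33_s : Sl2 knc33 := ⟨_, fun h1 h2 => (pr_norm (pr_add (pr_cmul (enc_norm (enc_add (enc_pnc _ 1) (enc_mul (mug3.enc h2) (gug.enc h2)))) (kfc33_s.snd h1 h2)) (pr_cmul (mug3.enc h2) (kpc33_s.snd h1 h2))))⟩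
noncomputable def kp4q0_12_s : Sl2 kp4q0_12 := ⟨_, fun h1 h2 => (pr_csub (enc_rat _ 856141 2000000) (pr_scale 537903 1000000 h1))⟩
noncomputable def kp4q0_s : Sl2 kp4q0 := ⟨_, fun h1 h2 => (pr_norm (pr_mul h1 (pr_norm (pr_case (pr_subr 1 10 (pr_half h1)) (pr_add (kp4q0_12_s.snd h1 h2) (pr_cmul (enc_norm (kp4q0_3.enc h1.l h2)) (pr_norm (pr_csub (enc_rat _ 81 250000) (pr_scale 713 100000 h1))))) (pr_add (kp4q0_12_s.snd h1 h2) (pr_cmul (enc_norm (kp4q0_3.enc h1.l h2)) (pr_norm (pr_csub (enc_rat _ 331 1000000) (pr_scale 1433 200000 h1)))))))))⟩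
noncomputable def kn4q0_s : Sl2 kn4q0 := ⟨_, fun h1 h2 => (pr_norm (pr_add (pr_cmul (enc_norm (enc_add (enc_pnc _ 1) (enc_mul (mug3.enc h2) (gug.enc h2)))) (kf4q0_s.snd h1 h2)) (pr_cmul (mug3.enc h2) (kp4q0_s.snd h1 h2))))⟩
noncomputable def kp4q1_13_s : Sl2 kp4q1_13 := ⟨_, fun h1 h2 => (pr_csub (enc_rat _ 856141 2000000) (pr_scale 537903 1000000 h1))⟩
noncomputable def kp4q1_s : Sl2 kp4q1 := ⟨_, fun h1 h2 => (pr_norm (pr_mul (pr_norm (pr_subn 1 h1)) (pr_norm (pr_case (pr_subr 1 10 (pr_half h1)) (pr_add (kp4q1_13_s.snd h1 h2) (pr_cmul (enc_norm (kp4q1_3.enc h1.l h2)) (pr_norm (pr_csub (enc_rat _ 81 250000) (pr_scale 713 100000 h1))))) (pr_add (kp4q1_13_s.snd h1 h2) (pr_cmul (enc_norm (kp4q1_3.enc h1.l h2)) (pr_norm (pr_csub (enc_rat _ 331 1000000) (pr_scale 1433 200000 h1)))))))))⟩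
noncomputable def kn4q1_s : Sl2 kn4q1 := ⟨_, fun h1 h2 => (pr_norm (pr_add (pr_cmul (enc_norm (enc_add (enc_pnc _ 1) (enc_mul (mug3.enc h2) (gug.enc h2)))) (kf4q1_s.snd h1 h2)) (pr_cmul (mug3.enc h2) (kp4q1_s.snd h1 h2))))⟩
noncomputable def kp4q2_9_s : Sl2 kp4q2_9 := ⟨_, fun h1 h2 => (pr_sub (pr_half (c3g_s.snd h1)) (pr_scale 1 4 h1))⟩
noncomputable def kp4q2_s : Sl2 kp4q2 := ⟨_, fun h1 h2 => (pr_norm (pr_mul (pr_norm (pr_subn 1 h1)) (pr_norm (pr_case (pr_addc (kp4q2_9_s.snd h1 h2) (enc_rat _ 2 5)) (pr_add (pr_addc (pr_scale 243177 1000000 (kp4q2_9_s.snd h1 h2)) (enc_rat _ 1262769 10000000)) (pr_cmul (enc_norm (kp4q2_3.enc h1.l h2)) (pr_norm (pr_subr 1533 250000 (pr_neg (pr_scale 597 50000 (kp4q2_9_s.snd h1 h2))))))) (pr_add (pr_addc (pr_scale 437723 1800000 (kp4q2_9_s.snd h1 h2)) (enc_rat _ 11365009 90000000)) (pr_cmul (enc_norm (kp4q2_3.enc h1.l h2))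 (pr_norm (pr_subr 1729 281250 (pr_neg (pr_scale 10781 900000 (kp4q2_9_s.snd h1 h2)))))))))))⟩
noncomputable def kn4q2_s : Sl2 kn4q2 := ⟨_, fun h1 h2 => (pr_norm (pr_add (pr_cmul (enc_norm (enc_add (enc_pnc _ 1) (enc_mul (mug3.enc h2) (gug.enc h2)))) (kf4q2_s.snd h1 h2)) (pr_cmul (mug3.enc h2) (kp4q2_s.snd h1 h2))))⟩
noncomputable def kpc43_9_s : Sl2 kpc43_9 := ⟨_, fun h1 h2 => (pr_sub (pr_half h1) (pr_scale 1 4 (ycg_s.snd h1)))⟩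
noncomputable def kpc43_s : Sl2 kpc43 := ⟨_, fun h1 h2 => (pr_norm (pr_mul (pr_norm (pr_subn 2 (ycg_s.snd h1))) (pr_norm (pr_case (pr_addc (kpc43_9_s.snd h1 h2) (enc_rat _ 2 5)) (pr_add (pr_addc (pr_scale 243177 1000000 (kpc43_9_s.snd h1 h2)) (enc_rat _ 1262769 10000000)) (pr_cmul (enc_norm (kpc43_4.enc h1.l h2)) (pr_norm (pr_subr 1533 250000 (pr_neg (pr_scale 597 50000 (kpc43_9_s.snd h1 h2))))))) (pr_add (pr_addc (pr_scale 437723 1800000 (kpc43_9_s.snd h1 h2)) (enc_rat _ 11365009 90000000)) (pr_cmul (enc_norm (kpc43_4.enc h1.l h2)) (pr_norm (pr_subr 1729 281250 (pr_neg (pr_scale 10781 900000 (kpc43_9_s.snd h1 h2)))))))))))⟩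
noncomputable def knc43_s : Sl2 knc43 := ⟨_, fun h1 h2 => (pr_norm (pr_add (pr_cmul (enc_norm (enc_add (enc_pnc _ 1) (enc_mul (mug3.enc h2) (gug.enc h2)))) (kfc43_s.snd h1 h2)) (pr_cmul (mug3.enc h2) (kpc43_s.snd h1 h2))))⟩
noncomputable def gN0q0 : Gn := ⟨ndN0q0, c1g_s, kn0q0_s, l0q0_s, false⟩
noncomputable def gN0q1 : Gn := ⟨ndN0q1, c1g_s, kn0q1_s, l0q1_s, false⟩
noncomputable def gN0q2 : Gn := ⟨ndN0q2, idf_s, knc02_s, lc02_s, true⟩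
noncomputable def gN1q0 : Gn := ⟨ndN1q0, cv1m_s, kn1q0_s, l1q0_s, false⟩
noncomputable def gN1q1 : Gn := ⟨ndN1q1, cv1m_s, kn1q1_s, l1q1_s, false⟩
noncomputable def gN1q2 : Gn := ⟨ndN1q2, cv1p_s, kn1q2_s, l1q2_s, false⟩
noncomputable def gN1q3 : Gn := ⟨ndN1q3, cv1r_s, kn1q3_s, l1q3_s, false⟩
noncomputable def gN2q0 : Gn := ⟨ndN2q0, cv2m_s, kn2q0_s, l2q0_s, false⟩
noncomputable def gN2q1 : Gn := ⟨ndN2q1, cv2m_s, kn2q1_s, l2q1_s, false⟩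
noncomputable def gN2q2 : Gn := ⟨ndN2q2, cv2p_s, kn2q2_s, l2q2_s, false⟩
noncomputable def gN2q3 : Gn := ⟨ndN2q3, cv2r_s, kn2q3_s, l2q3_s, false⟩
noncomputable def gN3q0 : Gn := ⟨ndN3q0, cv3m_s, kn3q0_s, l3q0_s, false⟩
noncomputable def gN3q1 : Gn := ⟨ndN3q1, cv3m_s, kn3q1_s, l3q1_s, false⟩
noncomputable def gN3q2 : Gn := ⟨ndN3q2, cv3p_s, kn3q2_s, l3q2_s, false⟩
noncomputable def gN3q3 : Gn := ⟨ndN3q3, xc33_s, knc33_s, lc33_s, false⟩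
noncomputable def gN4q0 : Gn := ⟨ndN4q0, c3g_s, kn4q0_s, l4q0_s, false⟩
noncomputable def gN4q1 : Gn := ⟨ndN4q1, c3g_s, kn4q1_s, l4q1_s, false⟩
noncomputable def gN4q2 : Gn := ⟨ndN4q2, c3g_s, kn4q2_s, l4q2_s, false⟩
noncomputable def gN4q3 : Gn := ⟨ndN4q3, idf_s, knc43_s, lc43_s, false⟩
noncomputable def gN0q3 : Gn := gz
noncomputable def gN (j : Fin 5) (q : ℕ) : Gn :=
  match j, q with
  | 0, 0 => gN0q0
  | 0, 1 => gN0q1
  | 0, 2 => gN0q2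
  | 0, 3 => gN0q3
  | 1, 0 => gN1q0
  | 1, 1 => gN1q1
  | 1, 2 => gN1q2
  | 1, 3 => gN1q3
  | 2, 0 => gN2q0
  | 2, 1 => gN2q1
  | 2, 2 => gN2q2
  | 2, 3 => gN2q3
  | 3, 0 => gN3q0
  | 3, 1 => gN3q1
  | 3, 2 => gN3q2
  | 3, 3 => gN3q3
  | 4, 0 => gN4q0
  | 4, 1 => gN4q1
  | 4, 2 => gN4q2
  | 4, 3 => gN4q3
  | _, _ => gN0q0

noncomputable def c0F : Fn1 := ⟨fun _ => pone, fun _ => 1, fun _ => enc_one _⟩
noncomputable def c0N : Fn1 := c0n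

end Pool.Agent.Strip051.G.I1_16_1_8.Tab
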