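import Pool.Agent.Strip051.PB.MolRw
import Pool.Agent.Strip051.PB.MoR6
import Pool.Agent.Strip051.G.I1_16_1_8.Tab

/-! # The tight charts of a table: data (generated) -/

set_option linter.all false

namespace Pool.Agent.Strip051.G.I1_16_1_8.Tab.Mo

open Pool.Agent.Strip051.PB Pool.Agent.Strip051.PB.Mol
open Pool.Agent.Strip051.G.I1_16_1_8.Tab

noncomputable def dq : Fn3 :=
  dqK2 (dqK2 (dqK2 (dqQ (lnF true 1160910435161 1235872656250 false 877883114767 63276680000000 3 32) (lnF true 531 15625 true 74417 200000 3 32)) (lnF true 5461774369 233807332600000000 true 168265715941 28056879912000000 3 32) (lnF true 126559 2000000 true 2939 25000 3 32) true 587 1262) (lnF true 22591513261643 234209943790600000000 false 196322817365317 70262983137180000000 3 32) (lnF true 47933 2000000 true 216791 200000 3 32) true 43 100) (lnF false 385528531 2443511441000000 true 7795718559 4887022882000000 3 32) (lnF false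 27113 400000 false 1473 5000 3 32) true 613 1574

noncomputable def mL : Fn2 :=
  exQ (exC (lnF false 2154442211 50000000000 false 1014007079 2500000000 3 32)) (lnF false 4154979 100000000 false 7436081 5000000 3 32) false

noncomputable def mR : Fn2 :=
  exQ (exC (lnF true 5629599 200000000 true 41467163 140000000 3 32)) (lnF true 373143 2000000 true 295213 200000 3 32) true

noncomputable def kp : Fn2 :=
  plA (lnF true 101197 1000000 true 6907 500000 3 32) (lnF true 40479 200000 true 5843 200000 3 32) false 1 2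

noncomputable def kb : Fn2 :=
  plA (lnF false 444189 5000000 true 1891 25000 3 32) (lnF true 792507 2500000 true 12847 125000 3 32) false 1 2

noncomputable def rK1 : Fn2 :=
  scH (exC (lnF false 2197 9375 false 7 3750 3 32)) (lnF false 7 75000 false 31 52500 3 32) 3 200

noncomputable def rX1 : Fn2 :=
  scH (exC (lnF false 8741 150000 false 1837 3000 3 32)) (lnF false 737 210000 true 617 105000 3 32) 3 200

noncomputable def rD1 : Fn2 :=
  exC (lnF true 202393 1000000 true 1069 50000 3 32)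

noncomputable def sk1 : MolS :=
  stK 2 3 5 rK1 rX1 rD1

noncomputable def rK2 : Fn2 :=
  scH (exC (lnF true 4819 75000 true 403 7500 3 32)) (lnF false 9431 79687500 true 234841 31875000 3 32) 3 200

noncomputable def rX2 : Fn2 :=
  scH (exC (lnF false 771 12500 false 4753 7500 3 32)) (lqF false 135661 15937500 false 2466671 31875000 true 2657 31875 3 32) 3 200

noncomputable def rD2 : Fn2 :=
  exC (lnF false 16071141 156250000 false 474877 7812500 3 32)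

noncomputable def sk2 : MolS :=
  stK 0 1 1 rK2 rX2 rD2

noncomputable def sp : MolS :=
  stP kcg mL mR kp

noncomputable def sm : MolS :=
  stM kcg mR kb

noncomputable def sK_Ap : Fn3 :=
  sl0 (sgF (w3W false) cv3p (w3K false 1 kcg) kf3q2)

noncomputable def sX_Ap : Fn3 :=
  sl0 (sgF (w3W false) cv3p (w3Q false kcg) l3q2)

noncomputable def sD_Ap : Fn3 :=
  sl0 (sgF (w3W false) cv3p (w3D false 1 kcg) kp3q2)

noncomputable def T_Ap : MolT :=
  ⟨kcg, dq, sp, 2, sK_Ap, sX_Ap, sD_Ap, 0, 1, 0, 1⟩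

noncomputable def sk_Ap : List Fn3 := [skP true 33554432, skM true 33554432]

noncomputable def cx_Ap : List Fn3 :=
  [f3A sp.xs (tCX cv3p)]

noncomputable def c0_Ap : Cht3 := kq0Ap (T_Ap.a true) sk_Ap cx_Ap

noncomputable def c1_Ap : Cht3 := kq1Ap (T_Ap.a true) sk_Ap cx_Ap

noncomputable def sK_Apk1 : Fn3 :=
  sl0 (sgF (w3W false) cv3p (w3K false 1 kcg) kf3q2)

noncomputable def sX_Apk1 : Fn3 :=
  sl0 (sgF (w3W false) cv3p (w3Q false kcg) l3q2)

noncomputable def sD_Apk1 : Fn3 :=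
  sl0 (sgF (w3W false) cv3p (w3D false 1 kcg) kp3q2)

noncomputable def T_Apk1 : MolT :=
  ⟨kcg, dq, sk1, 2, sK_Apk1, sX_Apk1, sD_Apk1, 0, 1, 0, 1⟩

noncomputable def sk_Apk1 : List Fn3 := [skP true 33554432, skM true 33554432]

noncomputable def cx_Apk1 : List Fn3 :=
  [f3A sk1.xs (tCX cv3p)]

noncomputable def c0_Apk1 : Cht3 := kq0Ap (T_Apk1.a true) sk_Apk1 cx_Apk1

noncomputable def c1_Apk1 : Cht3 := kq1Ap (T_Apk1.a true) sk_Apk1 cx_Apk1

noncomputable def sK_Apk2 : Fn3 :=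
  sl0 (sgF (w3W false) cv3p (w3K false 1 kcg) kf3q2)

noncomputable def sX_Apk2 : Fn3 :=
  sl0 (sgF (w3W false) cv3p (w3Q false kcg) l3q2)

noncomputable def sD_Apk2 : Fn3 :=
  sl0 (sgF (w3W false) cv3p (w3D false 1 kcg) kp3q2)

noncomputable def T_Apk2 : MolT :=
  ⟨kcg, dq, sk2, 2, sK_Apk2, sX_Apk2, sD_Apk2, 0, 1, 0, 1⟩

noncomputable def sk_Apk2 : List Fn3 := [skP true 33554432, skM true 33554432]

noncomputable def cx_Apk2 : List Fn3 :=
  [f3A sk2.xs (tCX cv3p)]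

noncomputable def c0_Apk2 : Cht3 := kq0Ap (T_Apk2.a true) sk_Apk2 cx_Apk2

noncomputable def c1_Apk2 : Cht3 := kq1Ap (T_Apk2.a true) sk_Apk2 cx_Apk2

noncomputable def sK_Am : Fn3 :=
  sl0 (sgF cv1p (w3W false) kf1q2 (w3K false 1 kcg))

noncomputable def sX_Am : Fn3 :=
  sl0 (sgF cv1p (w3W false) l1q2 (w3Q false kcg))

noncomputable def sD_Am : Fn3 :=
  sl0 (sgF cv1p (w3W false) kp1q2 (w3D false 1 kcg))

noncomputable def T_Am : MolT :=
  ⟨kcg, dq, sm, 2, sK_Am, sX_Am, sD_Am, 0, 1, 0, 1⟩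

noncomputable def sk_Am : List Fn3 := [skP true 33554432, skM true 33554432]

noncomputable def cx_Am : List Fn3 :=
  [f3A sm.xs (tCC (w3W false) cv1p),
    f3A sm.xs (tXC cv1p)]

noncomputable def c0_Am : Cht3 := kq0Am (T_Am.a false) sk_Am cx_Am

noncomputable def c1_Am : Cht3 := kq1Am (T_Am.a false) sk_Am cx_Am

noncomputable def sK_Bp : Fn3 :=
  sl0 (sgF cv1m (w3W true) kf1q1 (w3K true 1 kcg))

noncomputable def sX_Bp : Fn3 :=
  sl0 (sgF cv1m (w3W true) l1q1 (w3Q true kcg))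

noncomputable def sD_Bp : Fn3 :=
  sl0 (sgF cv1m (w3W true) kp1q1 (w3D true 1 kcg))

noncomputable def T_Bp : MolT :=
  ⟨kcg, dq, sp, 1, sK_Bp, sX_Bp, sD_Bp, 0, 1, 0, 1⟩

noncomputable def sk_Bp : List Fn3 := [skP false 33554432, skM false 33554432]

noncomputable def cx_Bp : List Fn3 :=
  [f3B sp.xs (tCC (w3W true) cv1m),
    f3B sp.xs (tXC cv1m)]

noncomputable def c0_Bp : Cht3 := kq0Bp (T_Bp.b true) sk_Bp cx_Bp

noncomputable def c1_Bp : Cht3 := kq1Bp (T_Bp.b true) sk_Bp cx_Bp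

noncomputable def sK_Bpk1 : Fn3 :=
  sl0 (sgF cv1m (w3W true) kf1q1 (w3K true 1 kcg))

noncomputable def sX_Bpk1 : Fn3 :=
  sl0 (sgF cv1m (w3W true) l1q1 (w3Q true kcg))

noncomputable def sD_Bpk1 : Fn3 :=
  sl0 (sgF cv1m (w3W true) kp1q1 (w3D true 1 kcg))

noncomputable def T_Bpk1 : MolT :=
  ⟨kcg, dq, sk1, 1, sK_Bpk1, sX_Bpk1, sD_Bpk1, 0, 1, 0, 1⟩

noncomputable def sk_Bpk1 : List Fn3 := [skP false 33554432, skM false 33554432]

noncomputable def cx_Bpk1 : List Fn3 :=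
  [f3B sk1.xs (tCC (w3W true) cv1m),
    f3B sk1.xs (tXC cv1m)]

noncomputable def c0_Bpk1 : Cht3 := kq0Bp (T_Bpk1.b true) sk_Bpk1 cx_Bpk1

noncomputable def c1_Bpk1 : Cht3 := kq1Bp (T_Bpk1.b true) sk_Bpk1 cx_Bpk1

noncomputable def sK_Bpk2 : Fn3 :=
  sl0 (sgF cv1m (w3W true) kf1q1 (w3K true 1 kcg))

noncomputable def sX_Bpk2 : Fn3 :=
  sl0 (sgF cv1m (w3W true) l1q1 (w3Q true kcg))

noncomputable def sD_Bpk2 : Fn3 :=
  sl0 (sgF cv1m (w3W true) kp1q1 (w3D true 1 kcg))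

noncomputable def T_Bpk2 : MolT :=
  ⟨kcg, dq, sk2, 1, sK_Bpk2, sX_Bpk2, sD_Bpk2, 0, 1, 0, 1⟩

noncomputable def sk_Bpk2 : List Fn3 := [skP false 33554432, skM false 33554432]

noncomputable def cx_Bpk2 : List Fn3 :=
  [f3B sk2.xs (tCC (w3W true) cv1m),
    f3B sk2.xs (tXC cv1m)]

noncomputable def c0_Bpk2 : Cht3 := kq0Bp (T_Bpk2.b true) sk_Bpk2 cx_Bpk2

noncomputable def c1_Bpk2 : Cht3 := kq1Bp (T_Bpk2.b true) sk_Bpk2 cx_Bpk2

noncomputable def sK_Bm : Fn3 :=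
  sl1 (sgF (w3W true) cv3m (w3K true 1 kcg) kf3q1) (sgF cv3m c3g kf3q1 kf4q1) (hgR (w3W true) cv3m)

noncomputable def sX_Bm : Fn3 :=
  sl1 (sgF (w3W true) cv3m (w3Q true kcg) l3q1) (sgF cv3m c3g l3q1 l4q1) (hgR (w3W true) cv3m)

noncomputable def sD_Bm : Fn3 :=
  sl1 (sgF (w3W true) cv3m (w3D true 1 kcg) kp3q1) (sgF cv3m c3g kp3q1 kp4q1) (hgR (w3W true) cv3m)

noncomputable def T_Bm : MolT :=
  ⟨kcg, dq, sm, 1, sK_Bm, sX_Bm, sD_Bm, 0, 1, 0, 1⟩

noncomputable def sk_Bm : List Fn3 := [skP false 33554432, skM false 33554432, f3B sm.xs (tXC c3g)]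

noncomputable def cx_Bm : List Fn3 :=
  [f3B sm.xs (tCC cv3m (w3W true))]

noncomputable def c0_Bm : Cht3 := kq0Bm (T_Bm.b false) sk_Bm cx_Bm

noncomputable def c1_Bm : Cht3 := kq1Bm (T_Bm.b false) sk_Bm cx_Bm

noncomputable def sk_T3 : List Fn3 := [skP false 33554432, skM false 33554432]

noncomputable def st_T3 : MolS := stT fnB sk2 (sl0 (sgF cv2p cv3p kf2q2 kf3q2)) (sl0 (sgF cv2p cv3p l2q2 l3q2)) (sl0 (sgF cv2p cv3p kp2q2 kp3q2))

noncomputable def T_T3 : MolT :=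
  ⟨kcg, dq, st_T3, 1, fZ, fZ, fZ, 0, 1, 0, 1⟩

noncomputable def cx_T3 : List Fn3 := [fTs st_T3.xs (tCX cv3p)]

noncomputable def c0_T3 : Cht3 := kq0Bp (T_T3.b true) sk_T3 cx_T3

noncomputable def c1_T3 : Cht3 := kq1Bp (T_T3.b true) sk_T3 cx_T3

noncomputable def sk_T4 : List Fn3 := [skP true 33554432, skM true 33554432]

noncomputable def st_T4 : MolS := stT fnA sk2 (sl0 (sgF cv2p cv3p kf2q2 kf3q2)) (sl0 (sgF cv2p cv3p l2q2 l3q2)) (sl0 (sgF cv2p cv3p kp2q2 kp3q2))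

noncomputable def T_T4 : MolT :=
  ⟨kcg, dq, st_T4, 2, fZ, fZ, fZ, 0, 1, 0, 1⟩

noncomputable def cx_T4 : List Fn3 := [fTs st_T4.xs (tCX cv3p)]

noncomputable def c0_T4 : Cht3 := kq0Ap (T_T4.a true) sk_T4 cx_T4

noncomputable def c1_T4 : Cht3 := kq1Ap (T_T4.a true) sk_T4 cx_T4

noncomputable def sk_T5 : List Fn3 := [skP true 33554432, skM true 33554432]

noncomputable def gK : Fn3 :=
  sl1 (sgF c1g cv1m kf0q0 kf1q0) (sgF cv1m cv2m kf1q0 kf2q0) (hgR c1g cv1m)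

noncomputable def gX : Fn3 :=
  sl1 (sgF c1g cv1m l0q0 l1q0) (sgF cv1m cv2m l1q0 l2q0) (hgR c1g cv1m)

noncomputable def gD : Fn3 :=
  sl1 (sgF c1g cv1m kp0q0 kp1q0) (sgF cv1m cv2m kp1q0 kp2q0) (hgR c1g cv1m)

noncomputable def p_T5 : Fn3 := fp1 true sm.ws fnA

noncomputable def T_T5 : MolT :=
  ⟨kcg, dq, sm, 2, fZ, fZ, fZ, 0, 1, 0, 1⟩

noncomputable def cx_T5 : List Fn3 := [f1t p_T5 (tCX cv2m), f1t p_T5 (tCC cv1m c1g)]

noncomputable def c0_T5 : Cht3 := kq0Am (shF (T_T5.a false) (fp1 true T_T5.st.ws fnA) gK gX gD) sk_T5 cx_T5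

noncomputable def c1_T5 : Cht3 := kq1Am (shF (T_T5.a false) (fp1 true T_T5.st.ws fnA) gK gX gD) sk_T5 cx_T5

noncomputable def sk_T7 : List Fn3 := [skP false 33554432, skM false 33554432]

noncomputable def p_T7 : Fn3 := fp1 false sp.ws fnB

noncomputable def T_T7 : MolT :=
  ⟨kcg, dq, sp, 1, fZ, fZ, fZ, 0, 1, 0, 1⟩

noncomputable def cx_T7 : List Fn3 := [f1t p_T7 (tCX cv2m), f1t p_T7 (tCC cv1m c1g)]

noncomputable def c0_T7 : Cht3 := kq0Bp (shF (T_T7.b true) (fp1 false T_T7.st.ws fnB) gK gX gD) sk_T7 cx_T7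

noncomputable def c1_T7 : Cht3 := kq1Bp (shF (T_T7.b true) (fp1 false T_T7.st.ws fnB) gK gX gD) sk_T7 cx_T7

noncomputable def sk_T7k1 : List Fn3 := [skP false 33554432, skM false 33554432]

noncomputable def p_T7k1 : Fn3 := fp1 false sk1.ws fnB

noncomputable def T_T7k1 : MolT :=
  ⟨kcg, dq, sk1, 1, fZ, fZ, fZ, 0, 1, 0, 1⟩

noncomputable def cx_T7k1 : List Fn3 := [f1t p_T7k1 (tCX cv2m), f1t p_T7k1 (tCC cv1m c1g)]

noncomputable def c0_T7k1 : Cht3 := kq0Bp (shF (T_T7k1.b true) (fp1 false T_T7k1.st.ws fnB) gK gX gD) sk_T7k1 cx_T7k1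

noncomputable def c1_T7k1 : Cht3 := kq1Bp (shF (T_T7k1.b true) (fp1 false T_T7k1.st.ws fnB) gK gX gD) sk_T7k1 cx_T7k1

noncomputable def sk_T7k2 : List Fn3 := [skP false 33554432, skM false 33554432]

noncomputable def p_T7k2 : Fn3 := fp1 false sk2.ws fnB

noncomputable def T_T7k2 : MolT :=
  ⟨kcg, dq, sk2, 1, fZ, fZ, fZ, 0, 1, 0, 1⟩

noncomputable def cx_T7k2 : List Fn3 := [f1t p_T7k2 (tCX cv2m), f1t p_T7k2 (tCC cv1m c1g)]

noncomputable def c0_T7k2 : Cht3 := kq0Bp (shF (T_T7k2.b true) (fp1 false T_T7k2.st.ws fnB) gK gX gD) sk_T7k2 cx_T7k2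

noncomputable def c1_T7k2 : Cht3 := kq1Bp (shF (T_T7k2.b true) (fp1 false T_T7k2.st.ws fnB) gK gX gD) sk_T7k2 cx_T7k2

end Pool.Agent.Strip051.G.I1_16_1_8.Tab.Mo
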