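import Pool.Agent.Strip051.G.I1_16_1_8.AsmFA0
import Pool.Agent.Strip051.G.I1_16_1_8.AsmFA1
import Pool.Agent.Strip051.G.I1_16_1_8.AsmFB0
import Pool.Agent.Strip051.G.I1_16_1_8.AsmFB1
import Pool.Agent.Strip051.G.I1_16_1_8.AsmFB2
import Pool.Agent.Strip051.G.I1_16_1_8.AsmFB3
import Pool.Agent.Strip051.G.I1_16_1_8.AsmNA0
import Pool.Agent.Strip051.G.I1_16_1_8.AsmNA1
import Pool.Agent.Strip051.G.I1_16_1_8.AsmNB0
import Pool.Agent.Strip051.G.I1_16_1_8.AsmNB1
import Pool.Agent.Strip051.G.I1_16_1_8.AsmNB2
import Pool.Agent.Strip051.G.I1_16_1_8.AsmNB3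

/-! # Rows from certificates (generated) -/

set_option linter.all false
set_option maxRecDepth 100000

namespace Pool.Agent.Strip051.G.I1_16_1_8.Tab

open Pool.Agent.Strip051.PB Pool.Agent.StripNear Pool.Agent.Strip051.LC

theorem rowsS {x : ℝ} (hx : ((67108864 : ℕ) : ℝ) / S ≤ x) (hx' : x ≤ (((67108864 : ℕ) : ℝ) + (67108864 : ℕ)) / S) : RowsS PP tKF tKN tL 3 0 (ken x / h0) x := by
  have hκ : ken x / h0 * h0 = ken x := ken_h0 x
  have h1 := hx1 hx
  have h2 := hx2 hx'
  exact {
    two := by norm_num
    lv0 := le_rfl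
    κ0 := div_nonneg (ken_nonneg h1.le h2.le) h0_pos.le
    x0 := h1.le
    x1 := h2
    pinA := pinKF hx hx'
    pinB := pinKN hx hx'
    pinL := pinL hx hx'
    one := fun j => by
      fin_cases j
      · exact one0 hx hx'
      · exact one1 hx hx'
      · exact one2 hx hx'
      · exact one3 hx hx'
      · exact one4 hx hx'
    farA := fun j k hjk => by
      fin_cases j <;> fin_cases k
      · exact FA00 hκ hx hx'
      · exact FA01 hκ hx hx'
      · exact FA02 hκ hx hx'
      · exact FA03 hκ hx hx'
      · exact FA04 hκ hx hx'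
      · exact absurd hjk (by decide)
      · exact FA11 hκ hx hx'
      · exact FA12 hκ hx hx'
      · exact FA13 hκ hx hx'
      · exact FA14 hκ hx hx'
      · exact absurd hjk (by decide)
      · exact absurd hjk (by decide)
      · exact FA22 hκ hx hx'
      · exact FA23 hκ hx hx'
      · exact FA24 hκ hx hx'
      · exact absurd hjk (by decide)
      · exact absurd hjk (by decide)
      · exact absurd hjk (by decide)
      · exact FA33 hκ hx hx'
      · exact FA34 hκ hx hx'
      · exact absurd hjk (by decide)
      · exact absurd hjk (by decide)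
      · exact absurd hjk (by decide)
      · exact absurd hjk (by decide)
      · exact FA44 hκ hx hx'
    farB := fun j k => by
      fin_cases j <;> fin_cases k
      · exact FB00 hκ hx hx'
      · exact FB01 hκ hx hx'
      · exact FB02 hκ hx hx'
      · exact FB03 hκ hx hx'
      · exact FB04 hκ hx hx'
      · exact FB10 hκ hx hx'
      · exact FB11 hκ hx hx'
      · exact FB12 hκ hx hx'
      · exact FB13 hκ hx hx'
      · exact FB14 hκ hx hx'
      · exact FB20 hκ hx hx'
      · exact FB21 hκ hx hx'
      · exact FB22 hκ hx hx'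
      · exact FB23 hκ hx hx'
      · exact FB24 hκ hx hx'
      · exact FB30 hκ hx hx'
      · exact FB31 hκ hx hx'
      · exact FB32 hκ hx hx'
      · exact FB33 hκ hx hx'
      · exact FB34 hκ hx hx'
      · exact FB40 hκ hx hx'
      · exact FB41 hκ hx hx'
      · exact FB42 hκ hx hx'
      · exact FB43 hκ hx hx'
      · exact FB44 hκ hx hx'
    nearA := fun j k hjk => by
      fin_cases j <;> fin_cases k
      · exact NA00 hκ hx hx'
      · exact NA01 hκ hx hx'
      · exact NA02 hκ hx hx'
      · exact NA03 hκ hx hx'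
      · exact NA04 hκ hx hx'
      · exact absurd hjk (by decide)
      · exact NA11 hκ hx hx'
      · exact NA12 hκ hx hx'
      · exact NA13 hκ hx hx'
      · exact NA14 hκ hx hx'
      · exact absurd hjk (by decide)
      · exact absurd hjk (by decide)
      · exact NA22 hκ hx hx'
      · exact NA23 hκ hx hx'
      · exact NA24 hκ hx hx'
      · exact absurd hjk (by decide)
      · exact absurd hjk (by decide)
      · exact absurd hjk (by decide)
      · exact NA33 hκ hx hx'
      · exact NA34 hκ hx hx'
      · exact absurd hjk (by decide)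
      · exact absurd hjk (by decide)
      · exact absurd hjk (by decide)
      · exact absurd hjk (by decide)
      · exact NA44 hκ hx hx'
    nearB := fun j k => by
      fin_cases j <;> fin_cases k
      · exact NB00 hκ hx hx'
      · exact NB01 hκ hx hx'
      · exact NB02 hκ hx hx'
      · exact NB03 hκ hx hx'
      · exact NB04 hκ hx hx'
      · exact NB10 hκ hx hx'
      · exact NB11 hκ hx hx'
      · exact NB12 hκ hx hx'
      · exact NB13 hκ hx hx'
      · exact NB14 hκ hx hx'
      · exact NB20 hκ hx hx'
      · exact NB21 hκ hx hx'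
      · exact NB22 hκ hx hx'
      · exact NB23 hκ hx hx'
      · exact NB24 hκ hx hx'
      · exact NB30 hκ hx hx'
      · exact NB31 hκ hx hx'
      · exact NB32 hκ hx hx'
      · exact NB33 hκ hx hx'
      · exact NB34 hκ hx hx'
      · exact NB40 hκ hx hx'
      · exact NB41 hκ hx hx'
      · exact NB42 hκ hx hx'
      · exact NB43 hκ hx hx'
      · exact NB44 hκ hx hx'
  }

end Pool.Agent.Strip051.G.I1_16_1_8.Tab
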