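import Pool.Agent.Strip051.G.I1_16_1_8.StF

/-! # Unit strips 0 (generated) -/

set_option linter.all false
set_option maxRecDepth 100000

namespace Pool.Agent.Strip051.G.I1_16_1_8.Tab.St.C

open Pool.Agent.Strip051.PB Pool.Agent.Strip051.PB.T Pool.Agent.StripNear Pool.Agent.Strip051.LC
open Pool.Agent.Strip051.G.I1_16_1_8.Tab Pool.Agent.Strip051.G.I1_16_1_8.Tab.St

noncomputable def cut_A00pp_001_s1 : Cut := Cut.of [[⟨4, 0, 0, 1449551462⟩]]

noncomputable def f_A00pp_001_s1 : ℕ → ℕ → ℕ → ℕ → Bool := onCell 0 536870912 0 536870912 67108864 67108864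
    (rowFK 0 true true true .up 0 0 1 (qsf 0 536870912 0 536870912 1) ndF0q0 ndF0q0 pcF1 cut_A00pp_001_s1 Ext.none)

def k0_A00pp_001_s1 : ∃ t, chk3 f_A00pp_001_s1 t 1 1 1 = true :=
  ⟨(l 4), by decide +kernel⟩

theorem c_A00pp_001_s1 : CertF 0 536870912 0 536870912 67108864 67108864 true true true .up 0 0 1
    ndF0q0 ndF0q0 pcF1 cut_A00pp_001_s1 Ext.none :=
  certFK0 (fam := true) (s1 := true) (s2 := true) (a := 0) (b := 0) (c := 1) (cn := .up) (n1 := ndF0q0) (n2 := ndF0q0) (pc := pcF1) (cut := cut_A00pp_001_s1) (xt := Ext.none) (P1 := 0) (W1 := 536870912) (P2 := 0) (W2 := 536870912) (P3 := 67108864) (W3 := 67108864)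
    rfl rfl rfl k0_A00pp_001_s1

theorem s_A00pp_001_s1 {κ x : ℝ} (hκ : κ * h0 = ken x) (hx : ((67108864 : ℕ) : ℝ) / S ≤ x)
    (hx' : x ≤ (((67108864 : ℕ) : ℝ) + (67108864 : ℕ)) / S) :
    AltA (VF κ) PP tKF tL pcF [⟨3, 0, 0, 1449551462⟩] 0 0 1 0 0 (sgb true) (sgb true) x :=
  strip_altA (m := 1449551462) true rfl hκ covF00 covF00 hx hx' c_A00pp_001_s1 cutA_nil (noExt_A)

noncomputable def cut_A00pp_001_s3 : Cut := Cut.of [[⟨3, 0, 0, 2845415833⟩]]

noncomputable def f_A00pp_001_s3 : ℕ → ℕ → ℕ → ℕ → Bool := onCell 0 536870912 0 536870912 67108864 67108864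
    (rowFK 0 true true true .up 0 0 1 (qsf 0 536870912 0 536870912 1) ndF0q0 ndF0q0 pcF1 cut_A00pp_001_s3 Ext.none)

def k0_A00pp_001_s3 : ∃ t, chk3 f_A00pp_001_s3 t 1 1 1 = true :=
  ⟨(l 4), by decide +kernel⟩

theorem c_A00pp_001_s3 : CertF 0 536870912 0 536870912 67108864 67108864 true true true .up 0 0 1
    ndF0q0 ndF0q0 pcF1 cut_A00pp_001_s3 Ext.none :=
  certFK0 (fam := true) (s1 := true) (s2 := true) (a := 0) (b := 0) (c := 1) (cn := .up) (n1 := ndF0q0) (n2 := ndF0q0) (pc := pcF1) (cut := cut_A00pp_001_s3) (xt := Ext.none) (P1 := 0) (W1 := 536870912) (P2 := 0) (W2 := 536870912) (P3 := 67108864) (W3 := 67108864)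
    rfl rfl rfl k0_A00pp_001_s3

theorem s_A00pp_001_s3 {κ x : ℝ} (hκ : κ * h0 = ken x) (hx : ((67108864 : ℕ) : ℝ) / S ≤ x)
    (hx' : x ≤ (((67108864 : ℕ) : ℝ) + (67108864 : ℕ)) / S) :
    AltA (VF κ) PP tKF tL pcF [⟨4, 0, 0, 2845415833⟩] 0 0 1 0 0 (sgb true) (sgb true) x :=
  strip_altA (m := 2845415833) false rfl hκ covF00 covF00 hx hx' c_A00pp_001_s3 cutA_nil (noExt_A)

noncomputable def cut_A00pp_011_s1 : Cut := Cut.of [[⟨4, 0, 0, 1449551462⟩], [⟨0, 0, 0, 67108864⟩, ⟨1, 1, 0, 67108864⟩, ⟨2, 1, 0, 67108864⟩]]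

noncomputable def f_A00pp_011_s1 : ℕ → ℕ → ℕ → ℕ → Bool := onCell 0 536870912 536870912 536870912 67108864 67108864
    (rowFK 0 true true true .pnn 0 1 1 (qsf 0 536870912 536870912 536870912 1) ndF0q0 ndF0q1 pcF1 cut_A00pp_011_s1 Ext.none)

def k0_A00pp_011_s1 : ∃ t, chk3 f_A00pp_011_s1 t 1 1 1 = true :=
  ⟨(l 6), by decide +kernel⟩

theorem c_A00pp_011_s1 : CertF 0 536870912 536870912 536870912 67108864 67108864 true true true .pnn 0 1 1
    ndF0q0 ndF0q1 pcF1 cut_A00pp_011_s1 Ext.none :=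
  certFK0 (fam := true) (s1 := true) (s2 := true) (a := 0) (b := 1) (c := 1) (cn := .pnn) (n1 := ndF0q0) (n2 := ndF0q1) (pc := pcF1) (cut := cut_A00pp_011_s1) (xt := Ext.none) (P1 := 0) (W1 := 536870912) (P2 := 536870912) (W2 := 536870912) (P3 := 67108864) (W3 := 67108864)
    rfl rfl rfl k0_A00pp_011_s1

theorem s_A00pp_011_s1 {κ x : ℝ} (hκ : κ * h0 = ken x) (hx : ((67108864 : ℕ) : ℝ) / S ≤ x)
    (hx' : x ≤ (((67108864 : ℕ) : ℝ) + (67108864 : ℕ)) / S)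
    (H : CutA (VF κ) PP tKF tL pcF (Cut.of [[⟨0, 0, 0, 67108864⟩, ⟨1, 1, 0, 67108864⟩, ⟨2, 1, 0, 67108864⟩]]) 0 1 1 0 0 (sgb true) (sgb true) x) :
    AltA (VF κ) PP tKF tL pcF [⟨3, 0, 0, 1449551462⟩] 0 1 1 0 0 (sgb true) (sgb true) x :=
  strip_altA (m := 1449551462) true rfl hκ covF00 covF01 hx hx' c_A00pp_011_s1 H (noExt_A)

noncomputable def cut_A00pp_011_s3 : Cut := Cut.of [[⟨3, 0, 0, 2845415833⟩], [⟨0, 0, 0, 67108864⟩, ⟨1, 1, 0, 67108864⟩, ⟨2, 1, 0, 67108864⟩]]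

noncomputable def f_A00pp_011_s3 : ℕ → ℕ → ℕ → ℕ → Bool := onCell 0 536870912 536870912 536870912 67108864 67108864
    (rowFK 0 true true true .pnn 0 1 1 (qsf 0 536870912 536870912 536870912 1) ndF0q0 ndF0q1 pcF1 cut_A00pp_011_s3 Ext.none)

def k0_A00pp_011_s3 : ∃ t, chk3 f_A00pp_011_s3 t 1 1 1 = true :=
  ⟨(a (b (l 4) (b (l 4) (b (l 4) (b (l 4) (a (a (a (l 14) (l 4)) (l 2)) (l 2)))))) (l 4)), by decide +kernel⟩

theorem c_A00pp_011_s3 : CertF 0 536870912 536870912 536870912 67108864 67108864 true true true .pnn 0 1 1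
    ndF0q0 ndF0q1 pcF1 cut_A00pp_011_s3 Ext.none :=
  certFK0 (fam := true) (s1 := true) (s2 := true) (a := 0) (b := 1) (c := 1) (cn := .pnn) (n1 := ndF0q0) (n2 := ndF0q1) (pc := pcF1) (cut := cut_A00pp_011_s3) (xt := Ext.none) (P1 := 0) (W1 := 536870912) (P2 := 536870912) (W2 := 536870912) (P3 := 67108864) (W3 := 67108864)
    rfl rfl rfl k0_A00pp_011_s3

theorem s_A00pp_011_s3 {κ x : ℝ} (hκ : κ * h0 = ken x) (hx : ((67108864 : ℕ) : ℝ) / S ≤ x)
    (hx' : x ≤ (((67108864 : ℕ) : ℝ) + (67108864 : ℕ)) / S)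
    (H : CutA (VF κ) PP tKF tL pcF (Cut.of [[⟨0, 0, 0, 67108864⟩, ⟨1, 1, 0, 67108864⟩, ⟨2, 1, 0, 67108864⟩]]) 0 1 1 0 0 (sgb true) (sgb true) x) :
    AltA (VF κ) PP tKF tL pcF [⟨4, 0, 0, 2845415833⟩] 0 1 1 0 0 (sgb true) (sgb true) x :=
  strip_altA (m := 2845415833) false rfl hκ covF00 covF01 hx hx' c_A00pp_011_s3 H (noExt_A)

noncomputable def cut_A00pp_012_s1 : Cut := Cut.of [[⟨4, 0, 0, 1449551462⟩], [⟨0, 0, 0, 67108864⟩, ⟨1, 1, 0, 67108864⟩, ⟨2, 1, 0, 67108864⟩]]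

noncomputable def f_A00pp_012_s1 : ℕ → ℕ → ℕ → ℕ → Bool := onCell 0 536870912 536870912 536870912 67108864 67108864
    (rowFK 0 true true true .pnp 0 1 2 (qsf 0 536870912 536870912 536870912 2) ndF0q0 ndF0q1 pcF2 cut_A00pp_012_s1 Ext.none)

def k0_A00pp_012_s1 : ∃ t, chk3 f_A00pp_012_s1 t 1 1 1 = true :=
  ⟨(l 6), by decide +kernel⟩

theorem c_A00pp_012_s1 : CertF 0 536870912 536870912 536870912 67108864 67108864 true true true .pnp 0 1 2
    ndF0q0 ndF0q1 pcF2 cut_A00pp_012_s1 Ext.none :=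
  certFK0 (fam := true) (s1 := true) (s2 := true) (a := 0) (b := 1) (c := 2) (cn := .pnp) (n1 := ndF0q0) (n2 := ndF0q1) (pc := pcF2) (cut := cut_A00pp_012_s1) (xt := Ext.none) (P1 := 0) (W1 := 536870912) (P2 := 536870912) (W2 := 536870912) (P3 := 67108864) (W3 := 67108864)
    rfl rfl rfl k0_A00pp_012_s1

theorem s_A00pp_012_s1 {κ x : ℝ} (hκ : κ * h0 = ken x) (hx : ((67108864 : ℕ) : ℝ) / S ≤ x)
    (hx' : x ≤ (((67108864 : ℕ) : ℝ) + (67108864 : ℕ)) / S)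
    (H : CutA (VF κ) PP tKF tL pcF (Cut.of [[⟨0, 0, 0, 67108864⟩, ⟨1, 1, 0, 67108864⟩, ⟨2, 1, 0, 67108864⟩]]) 0 1 2 0 0 (sgb true) (sgb true) x) :
    AltA (VF κ) PP tKF tL pcF [⟨3, 0, 0, 1449551462⟩] 0 1 2 0 0 (sgb true) (sgb true) x :=
  strip_altA (m := 1449551462) true rfl hκ covF00 covF01 hx hx' c_A00pp_012_s1 H (noExt_A)

noncomputable def cut_A00pp_012_s3 : Cut := Cut.of [[⟨3, 0, 0, 2845415833⟩], [⟨0, 0, 0, 67108864⟩, ⟨1, 1, 0, 67108864⟩, ⟨2, 1, 0, 67108864⟩]]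

noncomputable def f_A00pp_012_s3 : ℕ → ℕ → ℕ → ℕ → Bool := onCell 0 536870912 536870912 536870912 67108864 67108864
    (rowFK 0 true true true .pnp 0 1 2 (qsf 0 536870912 536870912 536870912 2) ndF0q0 ndF0q1 pcF2 cut_A00pp_012_s3 Ext.none)

def k0_A00pp_012_s3 : ∃ t, chk3 f_A00pp_012_s3 t 1 1 1 = true :=
  ⟨(a (b (l 4) (b (l 4) (a (b (l 4) (a (b (l 4) (a (l 14) (l 4))) (l 4))) (l 4)))) (l 4)), by decide +kernel⟩

theorem c_A00pp_012_s3 : CertF 0 536870912 536870912 536870912 67108864 67108864 true true true .pnp 0 1 2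
    ndF0q0 ndF0q1 pcF2 cut_A00pp_012_s3 Ext.none :=
  certFK0 (fam := true) (s1 := true) (s2 := true) (a := 0) (b := 1) (c := 2) (cn := .pnp) (n1 := ndF0q0) (n2 := ndF0q1) (pc := pcF2) (cut := cut_A00pp_012_s3) (xt := Ext.none) (P1 := 0) (W1 := 536870912) (P2 := 536870912) (W2 := 536870912) (P3 := 67108864) (W3 := 67108864)
    rfl rfl rfl k0_A00pp_012_s3

theorem s_A00pp_012_s3 {κ x : ℝ} (hκ : κ * h0 = ken x) (hx : ((67108864 : ℕ) : ℝ) / S ≤ x)
    (hx' : x ≤ (((67108864 : ℕ) : ℝ) + (67108864 : ℕ)) / S)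
    (H : CutA (VF κ) PP tKF tL pcF (Cut.of [[⟨0, 0, 0, 67108864⟩, ⟨1, 1, 0, 67108864⟩, ⟨2, 1, 0, 67108864⟩]]) 0 1 2 0 0 (sgb true) (sgb true) x) :
    AltA (VF κ) PP tKF tL pcF [⟨4, 0, 0, 2845415833⟩] 0 1 2 0 0 (sgb true) (sgb true) x :=
  strip_altA (m := 2845415833) false rfl hκ covF00 covF01 hx hx' c_A00pp_012_s3 H (noExt_A)

noncomputable def cut_A00pp_022_s1 : Cut := Cut.of [[⟨4, 0, 0, 1449551462⟩], [⟨0, 0, 0, 25165824⟩, ⟨1, 1, 0, 25165824⟩, ⟨2, 1, 0, 25165824⟩]]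

noncomputable def f_A00pp_022_s1 : ℕ → ℕ → ℕ → ℕ → Bool := onCell 0 536870912 0 536870912 67108864 67108864
    (rowFK 0 true true true .pp 0 2 2 (qsf 0 536870912 0 536870912 2) ndF0q0 ndF0q2 pcF2 cut_A00pp_022_s1 Ext.none)

def k0_A00pp_022_s1 : ∃ t, chk3 f_A00pp_022_s1 t 1 1 1 = true :=
  ⟨(l 6), by decide +kernel⟩

theorem c_A00pp_022_s1 : CertF 0 536870912 0 536870912 67108864 67108864 true true true .pp 0 2 2
    ndF0q0 ndF0q2 pcF2 cut_A00pp_022_s1 Ext.none :=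
  certFK0 (fam := true) (s1 := true) (s2 := true) (a := 0) (b := 2) (c := 2) (cn := .pp) (n1 := ndF0q0) (n2 := ndF0q2) (pc := pcF2) (cut := cut_A00pp_022_s1) (xt := Ext.none) (P1 := 0) (W1 := 536870912) (P2 := 0) (W2 := 536870912) (P3 := 67108864) (W3 := 67108864)
    rfl rfl rfl k0_A00pp_022_s1

theorem s_A00pp_022_s1 {κ x : ℝ} (hκ : κ * h0 = ken x) (hx : ((67108864 : ℕ) : ℝ) / S ≤ x)
    (hx' : x ≤ (((67108864 : ℕ) : ℝ) + (67108864 : ℕ)) / S)
    (H : CutA (VF κ) PP tKF tL pcF (Cut.of [[⟨0, 0, 0, 25165824⟩, ⟨1, 1, 0, 25165824⟩, ⟨2, 1, 0, 25165824⟩]]) 0 2 2 0 0 (sgb true) (sgb true) x) :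
    AltA (VF κ) PP tKF tL pcF [⟨3, 0, 0, 1449551462⟩] 0 2 2 0 0 (sgb true) (sgb true) x :=
  strip_altA (m := 1449551462) true rfl hκ covF00 covF02 hx hx' c_A00pp_022_s1 H (noExt_A)

noncomputable def cut_A00pp_022_s3 : Cut := Cut.of [[⟨3, 0, 0, 2845415833⟩], [⟨0, 0, 0, 25165824⟩, ⟨1, 1, 0, 25165824⟩, ⟨2, 1, 0, 25165824⟩]]

noncomputable def xt_A00pp_022_s3 : Ext := strExt dd true true true .u0 .u2 .s2 .pp 0 2 2 rfl rfl gl2 vv ndF0q0 ndF0q2

noncomputable def f_A00pp_022_s3 : ℕ → ℕ → ℕ → ℕ → Bool := onCell 0 536870912 0 536870912 67108864 67108864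
    (rowFK 0 true true true .pp 0 2 2 (qsf 0 536870912 0 536870912 2) ndF0q0 ndF0q2 pcF2 cut_A00pp_022_s3 xt_A00pp_022_s3)

def k0_A00pp_022_s3 : ∃ t, chk3 f_A00pp_022_s3 t 1 2 1 = true :=
  ⟨(a (a (b (l 6) (b (l 6) (a (l 6) (a (c (l 17864176) (l 17553824)) (l 17582280))))) (b (a (l 6) (b (l 6) (l 17447744))) (a (b (l 17543472) (a (l 17451136) (l 17324808))) (b (l 547041551) (a (l 17122552) (l 547866127)))))) (a (b (a (b (l 17366984) (l 17167920)) (b (l 17195200) (l 544825103))) (a (a (b (l 17160792) (l 547416591)) (l 546528015)) (l 545959695))) (b (l 2) (a (l 546071567) (l 2))))), by decide +kernel⟩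

def k1_A00pp_022_s3 : ∃ t, chk3 f_A00pp_022_s3 t 4 6 1 = true :=
  ⟨(a (b (b (a (l 6) (a (l 6) (l 17634360))) (b (a (l 6) (a (l 17290496) (l 17540872))) (a (a (a (l 6) (c (l 17702416) (l 16764168))) (c (l 17748992) (a (l 16940808) (l 17065528)))) (a (l 17125200) (l 17387120))))) (c (b (a (a (c (a (b (l 17755952) (l 17325936)) (l 17659968)) (a (b (l 16914464) (l 16737304)) (l 16734768))) (a (l 17059208) (l 17513008))) (a (a (l 17605776) (l 17597080)) (l 17562552))) (c (a (b (a (a (a (l 17310744) (l 17402672)) (l 17498704)) (l 17505240)) (a (a (a (l 17019208) (l 17152192)) (l 17125864)) (a (l 17405672) (l 17459648)))) (a (a (l 17538200) (l 17524624)) (l 17479488))) (a (b (a (a (l 16737216) (l 16948240)) (a (l 17119144) (l 17225120))) (a (a (l 16739024) (l 16742736)) (a (l 16933312) (l 17075056)))) (a (a (l 17056088) (l 17262448)) (a (l 17277184) (l 17275240)))))) (a (b (a (a (b (l 16727864) (l 16729336))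 (l 16732456)) (a (l 16736144) (l 16796832))) (a (b (a (l 16731240) (l 16735144)) (a (l 16733608) (l 16737504))) (a (b (l 16738840) (l 16741184)) (l 16743448)))) (a (a (b (l 16912288) (l 16752480)) (b (l 17075144) (l 16743448))) (b (b (l 17185704) (l 17105384)) (b (l 17020376) (l 16848112))))))) (a (b (b (l 17483080) (a (l 17474768) (l 17424392))) (a (b (l 17085328) (b (l 17137616) (l 16970952))) (b (l 17293744) (a (l 16988960) (l 17050248))))) (b (b (l 17442936) (l 17248192)) (b (a (l 17236944) (l 17173696)) (a (a (l 17023840) (l 16994808)) (b (l 17069496) (l 16910880))))))), by decide +kernel⟩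

def k2_A00pp_022_s3 : ∃ t, chk3 f_A00pp_022_s3 t 8 14 1 = true :=
  ⟨(a (b (b (b (a (a (l 16739040) (l 16742792)) (a (l 16746320) (l 16754952))) (a (a (l 16740416) (l 16744136)) (a (l 16747640) (l 16750928)))) (a (a (a (a (l 16741312) (l 16742272)) (l 16743680)) (a (l 16745520) (l 16747304))) (a (a (l 16749032) (l 16750704)) (l 16753080)))) (a (b (a (b (a (l 16744432) (l 16746296)) (a (c (l 16748712) (l 16744048)) (l 16748232))) (a (b (l 16748112) (l 16750024)) (c (l 16753016) (l 16748552)))) (b (a (b (a (l 16747960) (l 16749784)) (a (l 16749056) (l 16750872))) (a (l 16752088) (l 16753800))) (b (b (a (a (l 16749912) (l 16751720)) (a (l 16753464) (l 16755160))) (a (a (l 16750488) (l 16752296)) (a (l 16754032) (l 16755720)))) (b (a (a (l 16751080) (l 16752880)) (a (l 16754616) (l 16756296))) (c (a (a (l 16753504) (l 16755224)) (a (l 16756880) (l 16758472))) (a (a (l 16749856) (l 16751712)) (a (l 16753520)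 (l 16755264)))))))) (b (a (b (l 16752376) (a (l 16753432) (l 16755048))) (a (l 16755680) (l 16757200))) (a (a (b (l 16755448) (l 16757624)) (b (l 16757040) (l 16759192))) (a (b (l 16758584) (l 16760704)) (b (l 16760064) (l 16762152))))))) (a (a (b (b (l 16779024) (l 16756104)) (a (b (l 16758672) (b (l 16761488) (l 16763552))) (b (l 16760080) (b (l 16762856) (l 16764888))))) (b (b (l 16790928) (l 16753928)) (a (b (l 16761432) (b (l 16764176) (l 16766176))) (b (l 16762736) (l 535954959))))) (a (b (b (l 16847264) (l 16784736)) (b (b (l 16835552) (l 16789528)) (b (l 16769832) (l 536504335)))) (b (b (l 16876184) (l 16781896)) (b (c (l 553144335) (l 535995407)) (l 536762895)))))), by decide +kernel⟩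

def k3_A00pp_022_s3 : ∃ t, chk3 f_A00pp_022_s3 t 9 14 1 = true :=
  ⟨(a (b (a (a (b (l 16969744) (l 16797816)) (b (l 16965832) (l 16797632))) (c (b (l 17110128) (l 557351695)) (b (l 16859528) (l 545818895)))) (a (b (a (c (l 554907919) (l 537313295)) (l 547258127)) (a (c (l 553137423) (l 535990287)) (c (l 555042319) (l 536645647)))) (a (b (l 549995791) (l 546609167)) (c (l 557445903) (l 543933711))))) (a (b (b (l 552952335) (l 552880655)) (c (l 558099215) (a (l 545709071) (l 547101711)))) (b (b (l 553366799) (l 553539087)) (l 553509903)))), by decide +kernel⟩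

def k4_A00pp_022_s3 : ∃ t, chk3 f_A00pp_022_s3 t 32 30 1 = true :=
  ⟨(b (a (b (a (b (a (l 16752160) (l 16753064)) (a (l 16753432) (l 16754328))) (a (c (l 16756208) (l 16752936)) (l 16755448))) (a (b (a (l 16754760) (l 16755648)) (a (c (l 16757552) (l 16754688)) (l 16757008))) (a (b (l 16756520) (l 16757872)) (a (l 16757840) (l 16758256))))) (b (a (b (l 16756104) (l 16754728)) (a (l 16757968) (l 16758784))) (b (a (c (l 16760000) (l 16757264)) (l 16760264)) (a (a (l 16759560) (l 16760384)) (c (l 16762760) (l 16760400)))))) (a (b (b (a (b (a (l 16757184) (l 16758064)) (a (l 16757904) (l 16758776))) (a (l 16759272) (l 16760120))) (b (b (a (a (l 16758456) (l 16759320)) (a (l 16760176) (l 16761016))) (a (a (l 16758824) (l 16759688)) (a (l 16760544) (l 16761376)))) (b (a (a (l 16759200) (l 16760064)) (a (l 16760912) (l 16761744))) (c (a (a (l 16760736) (l 16761560)) (a (l 16762360) (l 16763152))) (a (a (l 16758400)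 (l 16759304)) (a (l 16760192) (l 16761064))))))) (a (a (b (a (c (l 16761408) (l 16759200)) (l 16760744)) (b (a (l 14) (l 16761912)) (l 14))) (b (a (l 16761168) (l 16761592)) (a (c (l 16763672) (l 16761776)) (c (l 16764072) (l 16762216))))) (b (a (a (l 16762016) (l 16762432)) (c (l 16764016) (l 16762072))) (a (a (c (l 16764472) (l 16762656)) (c (l 16764864) (l 16763088))) (a (l 16764384) (l 16764792)))))) (a (a (b (b (l 16760944) (l 16762376)) (a (b (l 16763656) (l 16765192)) (b (l 16764064) (l 16765592)))) (b (b (l 16761760) (l 16763184)) (b (c (l 16765544) (l 16763760)) (a (l 16765984) (l 16766368))))) (b (a (b (l 16762560) (l 16763968)) (b (l 16763344) (l 16764744))) (b (a (c (l 16766280) (l 16764584)) (l 16766200)) (a (b (l 16766568) (l 16767336)) (c (l 16768392) (l 16767016)))))))), by decide +kernel⟩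

def k5_A00pp_022_s3 : ∃ t, chk3 f_A00pp_022_s3 t 33 30 1 = true :=
  ⟨(a (a (a (b (b (l 16759576) (a (l 16761912) (l 16762296))) (b (b (l 16764112) (l 16765504)) (b (l 16766952) (a (l 16768264) (l 16768632))))) (b (b (l 16760360) (c (l 16763992) (l 16761728))) (b (b (l 16764864) (l 16766248)) (b (l 16767688) (c (l 16769768) (l 16768568)))))) (a (b (b (l 16761128) (c (l 16764704) (l 16762528))) (b (b (l 16765600) (l 16766984)) (b (l 16768408) (c (l 16770440) (l 16769328))))) (b (b (l 16761880) (l 16764352)) (b (b (l 16766328) (l 16767696)) (b (l 16769112) (l 536165647)))))) (a (a (b (b (l 16762624) (l 16765080)) (b (b (l 16767040) (l 16768400)) (b (l 16769808) (l 535644175)))) (b (b (l 16763344) (l 16765784)) (b (b (l 16767728) (l 16769080)) (b (l 16770480) (l 535659535))))) (b (b (c (l 16765536) (l 16763264)) (b (l 16766200) (l 16767448))) (b (a (b (l 16768408) (l 16769752)) (l 535736591)) (b (a (l 535693583)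 (l 535708431)) (a (l 535674639) (l 535689487))))))), by decide +kernel⟩

def k6_A00pp_022_s3 : ∃ t, chk3 f_A00pp_022_s3 t 64 62 1 = true :=
  ⟨(b (a (b (a (l 14) (a (l 14) (b (l 16764352) (l 14)))) (l 14)) (a (b (a (b (l 16764760) (l 16765576)) (c (l 16766344) (l 16764800))) (b (l 14) (l 14))) (b (a (b (l 16765576) (l 16766384)) (b (l 16765976) (l 16766784))) (a (b (l 16767208) (l 14)) (b (l 16767608) (l 16768440)))))) (l 14)), by decide +kernel⟩

def k7_A00pp_022_s3 : ∃ t, chk3 f_A00pp_022_s3 t 65 62 1 = true :=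
  ⟨(a (a (a (a (b (b (l 16766680) (b (l 16767896) (l 16768728))) (b (b (l 16769576) (l 14)) (l 14))) (b (b (l 16766872) (b (l 16768096) (l 16768928))) (b (b (l 16769768) (l 14)) (l 14)))) (b (b (c (l 16767856) (l 16766480)) (b (l 16768384) (l 16769216))) (b (c (b (l 16770536) (l 16771328)) (b (l 16769576) (l 16770488))) (l 14)))) (a (a (b (b (l 16767464) (c (l 16769640) (l 16768536))) (b (b (l 16770344) (l 16771192)) (l 14))) (b (b (l 16767656) (c (l 16769816) (l 16768736))) (b (b (l 16770528) (l 16771384)) (l 14)))) (a (b (b (l 16767848) (c (l 16770000) (l 16768936))) (b (b (l 16770720) (l 16771568)) (b (l 535736847) (l 14)))) (b (b (l 16768040) (c (l 16770176) (l 16769136))) (b (b (l 16770904) (l 16771752)) (b (l 535472143) (l 14))))))) (a (a (a (b (b (l 16768224) (l 535781647)) (b (b (l 16771096) (l 16771944)) (b (l 535475983) (l 535465487)))) (b (b (l 16768416) (l 535516943)) (b (b (l 16771280) (l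 16772128)) (b (l 535480079) (l 535469327))))) (a (b (b (l 16768608) (l 535520783)) (b (l 535768335) (b (l 535483919) (l 535473167)))) (b (b (l 16768792) (l 535524623)) (b (l 535503631) (b (l 535487759) (l 535477007)))))) (a (a (b (b (l 16768984) (l 535528463)) (b (l 535507471) (l 535754767))) (b (b (l 16769168) (l 535532047)) (b (l 535511311) (l 535490063)))) (a (b (b (l 16769352) (l 535535887)) (b (l 535515151) (l 535493903))) (b (b (l 16769536) (l 535539727)) (b (l 535518991) (l 535497743))))))), by decide +kernel⟩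

def k8_A00pp_022_s3 : ∃ t, chk3 f_A00pp_022_s3 t 32 63 1 = true :=
  ⟨(b (a (l 14) (a (l 14) (a (a (l 14) (a (l 14) (b (a (l 535460623) (l 535462671)) (l 14)))) (a (a (b (b (l 535470095) (l 14)) (l 14)) (b (b (l 535473935) (l 535463183)) (l 14))) (b (a (a (l 535472143) (l 535474191)) (l 535745039)) (l 14)))))) (l 14)), by decide +kernel⟩

def k9_A00pp_022_s3 : ∃ t, chk3 f_A00pp_022_s3 t 33 31 1 = true :=
  ⟨(a (a (b (a (a (b (b (l 535832335) (b (l 16771000) (l 16771816))) (b (a (l 535522575) (l 535526415)) (b (l 535775247) (l 535764751)))) (b (b (l 535571471) (l 535819535)) (b (a (l 535530255) (l 535534095)) (a (l 535509263) (l 535513103))))) (a (b (b (l 535579151) (l 535558927)) (b (l 535538191) (a (l 535516943) (l 535520783)))) (b (b (l 535586575) (l 535566351)) (b (l 535545871) (l 535525135))))) (b (b (b (a (a (l 535753999) (l 535493391)) (a (l 535501327) (l 535509263))) (a (a (a (l 535474959) (l 535478799))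 (l 535751183)) (a (l 535490831) (l 4)))) (l 4)) (l 4))) (b (a (a (b (b (l 535594255) (l 535574031)) (b (l 535553551) (l 535532815))) (b (b (l 535601679) (l 535581711)) (b (l 535561231) (l 535540495)))) (a (b (l 535868175) (b (l 535568911) (l 535548431))) (b (l 535607055) (b (l 535576591) (l 535556111))))) (a (b (b (a (l 535780367) (l 535519759)) (l 4)) (l 4)) (l 4)))) (b (a (a (b (a (l 535614735) (l 535622159)) (b (l 535853071) (a (l 535563791) (l 535571471)))) (b (a (l 535629583) (l 535637007)) (b (l 535600143) (l 535848463)))) (b (a (l 535914255) (l 535661071)) (b (a (l 535615759) (l 535631119)) (l 4)))) (l 4))), by decide +kernel⟩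

def k10_A00pp_022_s3 : ∃ t, chk3 f_A00pp_022_s3 t 17 15 1 = true :=
  ⟨(a (b (a (a (b (b (c (l 16766816) (l 16764712)) (b (l 16767536) (l 16768768))) (b (a (l 535750927) (l 535765519)) (b (a (l 535723023) (l 535737871)) (a (l 535704335) (l 535719183))))) (b (b (l 16769696) (b (l 16768816) (l 16770032))) (b (a (l 535779855) (l 535794191)) (b (l 536022543) (a (l 535734031) (l 535748623)))))) (b (a (b (l 535878927) (b (l 16770048) (l 16771240))) (b (l 535906831) (l 535874063))) (a (b (a (l 535808271) (l 535822607)) (b (a (l 535781391) (l 535795983)) (a (l 535763215) (l 535778063)))) (b (l 535840271) (b (l 535813903) (a (l 535792399) (l 535806991))))))) (b (b (a (a (a (l 535676175) (l 535691023)) (a (l 535706127) (l 535720975))) (a (a (l 535735823) (l 535750671)) (l 4))) (l 4)) (l 4))) (b (a (b (a (l 535919375) (l 535946767)) (b (a (l 535869199) (l 535897615)) (b (l 536382735) (l 4)))) (b (a (l 535974159)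 (l 536001039)) (b (l 535931663) (l 4)))) (l 4))), by decide +kernel⟩

def k11_A00pp_022_s3 : ∃ t, chk3 f_A00pp_022_s3 t 9 15 1 = true :=
  ⟨(a (b (b (a (a (l 537273871) (l 541390095)) (a (l 545377039) (l 4))) (l 4)) (l 4)) (l 4)), by decide +kernel⟩

def k12_A00pp_022_s3 : ∃ t, chk3 f_A00pp_022_s3 t 5 3 1 = true :=
  ⟨(b (a (a (b (b (l 17310424) (l 17116160)) (b (a (l 17024192) (l 16958552)) (a (b (l 17004400) (l 553116943)) (b (l 16855056) (l 552989967))))) (a (b (l 550373135) (b (l 551631887) (l 551738383))) (b (l 550103055) (c (l 553597711) (l 549486351))))) (b (a (l 549704463) (l 549149455)) (b (l 550659343) (a (l 551823631) (l 4))))) (a (b (b (a (a (b (l 553487119) (l 553807631)) (c (l 556509199) (l 550758159))) (a (l 553477903) (l 4))) (l 4)) (l 4)) (l 4))), by decide +kernel⟩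

def k13_A00pp_022_s3 : ∃ t, chk3 f_A00pp_022_s3 t 3 3 1 = true :=
  ⟨(a (b (b (a (l 548374799) (l 4)) (l 4)) (l 4)) (l 4)), by decide +kernel⟩

theorem t14_A00pp_022_s3 : ∃ t, chk3 f_A00pp_022_s3 t 32 62 1 = true := ex3_a k6_A00pp_022_s3 k7_A00pp_022_s3

theorem t15_A00pp_022_s3 : ∃ t, chk3 f_A00pp_022_s3 t 32 31 1 = true := ex3_b t14_A00pp_022_s3 k8_A00pp_022_s3

theorem t16_A00pp_022_s3 : ∃ t, chk3 f_A00pp_022_s3 t 16 31 1 = true := ex3_a t15_A00pp_022_s3 k9_A00pp_022_s3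

theorem t17_A00pp_022_s3 : ∃ t, chk3 f_A00pp_022_s3 t 16 30 1 = true := ex3_a k4_A00pp_022_s3 k5_A00pp_022_s3

theorem t18_A00pp_022_s3 : ∃ t, chk3 f_A00pp_022_s3 t 16 15 1 = true := ex3_b t17_A00pp_022_s3 t16_A00pp_022_s3

theorem t19_A00pp_022_s3 : ∃ t, chk3 f_A00pp_022_s3 t 8 15 1 = true := ex3_a t18_A00pp_022_s3 k10_A00pp_022_s3

theorem t20_A00pp_022_s3 : ∃ t, chk3 f_A00pp_022_s3 t 4 15 1 = true := ex3_a t19_A00pp_022_s3 k11_A00pp_022_s3

theorem t21_A00pp_022_s3 : ∃ t, chk3 f_A00pp_022_s3 t 4 14 1 = true := ex3_a k2_A00pp_022_s3 k3_A00pp_022_s3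

theorem t22_A00pp_022_s3 : ∃ t, chk3 f_A00pp_022_s3 t 4 7 1 = true := ex3_b t21_A00pp_022_s3 t20_A00pp_022_s3

theorem t23_A00pp_022_s3 : ∃ t, chk3 f_A00pp_022_s3 t 4 3 1 = true := ex3_b k1_A00pp_022_s3 t22_A00pp_022_s3

theorem t24_A00pp_022_s3 : ∃ t, chk3 f_A00pp_022_s3 t 2 3 1 = true := ex3_a t23_A00pp_022_s3 k12_A00pp_022_s3

theorem t25_A00pp_022_s3 : ∃ t, chk3 f_A00pp_022_s3 t 1 3 1 = true := ex3_a t24_A00pp_022_s3 k13_A00pp_022_s3

theorem t26_A00pp_022_s3 : ∃ t, chk3 f_A00pp_022_s3 t 1 1 1 = true := ex3_b k0_A00pp_022_s3 t25_A00pp_022_s3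

theorem c_A00pp_022_s3 : CertF 0 536870912 0 536870912 67108864 67108864 true true true .pp 0 2 2
    ndF0q0 ndF0q2 pcF2 cut_A00pp_022_s3 xt_A00pp_022_s3 :=
  certFK0 (fam := true) (s1 := true) (s2 := true) (a := 0) (b := 2) (c := 2) (cn := .pp) (n1 := ndF0q0) (n2 := ndF0q2) (pc := pcF2) (cut := cut_A00pp_022_s3) (xt := xt_A00pp_022_s3) (P1 := 0) (W1 := 536870912) (P2 := 0) (W2 := 536870912) (P3 := 67108864) (W3 := 67108864)
    rfl rfl rfl t26_A00pp_022_s3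

theorem s_A00pp_022_s3 {κ x : ℝ} (hκ : κ * h0 = ken x) (hx : ((67108864 : ℕ) : ℝ) / S ≤ x)
    (hx' : x ≤ (((67108864 : ℕ) : ℝ) + (67108864 : ℕ)) / S)
    (H : CutA (VF κ) PP tKF tL pcF (Cut.of [[⟨0, 0, 0, 25165824⟩, ⟨1, 1, 0, 25165824⟩, ⟨2, 1, 0, 25165824⟩]]) 0 2 2 0 0 (sgb true) (sgb true) x) :
    AltA (VF κ) PP tKF tL pcF [⟨4, 0, 0, 2845415833⟩] 0 2 2 0 0 (sgb true) (sgb true) x :=
  strip_altA (m := 2845415833) false rfl hκ covF00 covF02 hx hx' c_A00pp_022_s3 H ((okx hx hx').extA (T := tt) (sideF hx hx') hκ rfl rfl (.O 0 true) (.O 2 true) (Or.inl rfl))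

noncomputable def cut_A00pp_023_s1 : Cut := Cut.of [[⟨4, 0, 0, 1449551462⟩]]

noncomputable def f_A00pp_023_s1 : ℕ → ℕ → ℕ → ℕ → Bool := onCell 0 536870912 0 536870912 67108864 67108864
    (rowFK 0 true true true .up 0 2 3 (qsf 0 536870912 0 536870912 3) ndF0q0 ndF0q2 pcF3 cut_A00pp_023_s1 Ext.none)

def k0_A00pp_023_s1 : ∃ t, chk3 f_A00pp_023_s1 t 1 1 1 = true :=
  ⟨(l 6), by decide +kernel⟩

theorem c_A00pp_023_s1 : CertF 0 536870912 0 536870912 67108864 67108864 true true true .up 0 2 3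
    ndF0q0 ndF0q2 pcF3 cut_A00pp_023_s1 Ext.none :=
  certFK0 (fam := true) (s1 := true) (s2 := true) (a := 0) (b := 2) (c := 3) (cn := .up) (n1 := ndF0q0) (n2 := ndF0q2) (pc := pcF3) (cut := cut_A00pp_023_s1) (xt := Ext.none) (P1 := 0) (W1 := 536870912) (P2 := 0) (W2 := 536870912) (P3 := 67108864) (W3 := 67108864)
    rfl rfl rfl k0_A00pp_023_s1

theorem s_A00pp_023_s1 {κ x : ℝ} (hκ : κ * h0 = ken x) (hx : ((67108864 : ℕ) : ℝ) / S ≤ x)
    (hx' : x ≤ (((67108864 : ℕ) : ℝ) + (67108864 : ℕ)) / S) :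
    AltA (VF κ) PP tKF tL pcF [⟨3, 0, 0, 1449551462⟩] 0 2 3 0 0 (sgb true) (sgb true) x :=
  strip_altA (m := 1449551462) true rfl hκ covF00 covF02 hx hx' c_A00pp_023_s1 cutA_nil (noExt_A)

noncomputable def cut_A00pp_023_s3 : Cut := Cut.of [[⟨3, 0, 0, 2845415833⟩]]

noncomputable def xt_A00pp_023_s3 : Ext := strExt dd true true true .u0 .u2 .s2 .up 0 2 3 rfl rfl gl3 vv ndF0q0 ndF0q2

noncomputable def f_A00pp_023_s3 : ℕ → ℕ → ℕ → ℕ → Bool := onCell 1610612736 536870912 0 536870912 67108864 67108864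
    (rowFK 2 true true true .up 0 2 3 (qsf 0 536870912 0 536870912 3) ndF0q0 ndF0q2 pcF3 cut_A00pp_023_s3 xt_A00pp_023_s3)

def k0_A00pp_023_s3 : ∃ t, chk3 f_A00pp_023_s3 t 1 1 1 = true :=
  ⟨(a (b (a (b (a (b (l 547584783) (l 548077071)) (b (l 547114255) (l 547594255))) (a (b (l 548742159) (l 549401359)) (b (l 548167951) (l 4)))) (b (a (b (l 546566159) (l 546880527)) (l 2)) (l 4))) (l 4)) (l 2)), by decide +kernel⟩

theorem c_A00pp_023_s3 : CertF 0 536870912 0 536870912 67108864 67108864 true true true .up 0 2 3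
    ndF0q0 ndF0q2 pcF3 cut_A00pp_023_s3 xt_A00pp_023_s3 :=
  certFK2 (fam := true) (s1 := true) (s2 := true) (a := 0) (b := 2) (c := 3) (cn := .up) (n1 := ndF0q0) (n2 := ndF0q2) (pc := pcF3) (cut := cut_A00pp_023_s3) (xt := xt_A00pp_023_s3) (P1 := 0) (W1 := 536870912) (P2 := 0) (W2 := 536870912) (P3 := 67108864) (W3 := 67108864)
    rfl rfl rfl (fun _ => rfl) k0_A00pp_023_s3

theorem s_A00pp_023_s3 {κ x : ℝ} (hκ : κ * h0 = ken x) (hx : ((67108864 : ℕ) : ℝ) / S ≤ x)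
    (hx' : x ≤ (((67108864 : ℕ) : ℝ) + (67108864 : ℕ)) / S) :
    AltA (VF κ) PP tKF tL pcF [⟨4, 0, 0, 2845415833⟩] 0 2 3 0 0 (sgb true) (sgb true) x :=
  strip_altA (m := 2845415833) false rfl hκ covF00 covF02 hx hx' c_A00pp_023_s3 cutA_nil ((okx hx hx').extA (T := tt) (sideF hx hx') hκ rfl rfl (.O 0 true) (.O 2 true) (Or.inr rfl))

noncomputable def cut_A00pp_101_s1 : Cut := Cut.of [[⟨4, 0, 0, 1449551462⟩]]

noncomputable def f_A00pp_101_s1 : ℕ → ℕ → ℕ → ℕ → Bool := onCell 536870912 536870912 0 536870912 67108864 67108864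
    (rowFK 0 true true true .npn 1 0 1 (qsf 536870912 536870912 0 536870912 1) ndF0q1 ndF0q0 pcF1 cut_A00pp_101_s1 Ext.none)

def k0_A00pp_101_s1 : ∃ t, chk3 f_A00pp_101_s1 t 1 1 1 = true :=
  ⟨(l 6), by decide +kernel⟩

theorem c_A00pp_101_s1 : CertF 536870912 536870912 0 536870912 67108864 67108864 true true true .npn 1 0 1
    ndF0q1 ndF0q0 pcF1 cut_A00pp_101_s1 Ext.none :=
  certFK0 (fam := true) (s1 := true) (s2 := true) (a := 1) (b := 0) (c := 1) (cn := .npn) (n1 := ndF0q1) (n2 := ndF0q0) (pc := pcF1) (cut := cut_A00pp_101_s1) (xt := Ext.none) (P1 := 536870912) (W1 := 536870912) (P2 := 0) (W2 := 536870912) (P3 := 67108864) (W3 := 67108864)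
    rfl rfl rfl k0_A00pp_101_s1

theorem s_A00pp_101_s1 {κ x : ℝ} (hκ : κ * h0 = ken x) (hx : ((67108864 : ℕ) : ℝ) / S ≤ x)
    (hx' : x ≤ (((67108864 : ℕ) : ℝ) + (67108864 : ℕ)) / S) :
    AltA (VF κ) PP tKF tL pcF [⟨3, 0, 0, 1449551462⟩] 1 0 1 0 0 (sgb true) (sgb true) x :=
  strip_altA (m := 1449551462) true rfl hκ covF01 covF00 hx hx' c_A00pp_101_s1 cutA_nil (noExt_A)

noncomputable def cut_A00pp_101_s3 : Cut := Cut.of [[⟨3, 0, 0, 2845415833⟩]]

noncomputable def f_A00pp_101_s3 : ℕ → ℕ → ℕ → ℕ → Bool := onCell 536870912 536870912 0 536870912 67108864 67108864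
    (rowFK 0 true true true .npn 1 0 1 (qsf 536870912 536870912 0 536870912 1) ndF0q1 ndF0q0 pcF1 cut_A00pp_101_s3 Ext.none)

def k0_A00pp_101_s3 : ∃ t, chk3 f_A00pp_101_s3 t 1 1 1 = true :=
  ⟨(a (l 4) (l 5)), by decide +kernel⟩

theorem c_A00pp_101_s3 : CertF 536870912 536870912 0 536870912 67108864 67108864 true true true .npn 1 0 1
    ndF0q1 ndF0q0 pcF1 cut_A00pp_101_s3 Ext.none :=
  certFK0 (fam := true) (s1 := true) (s2 := true) (a := 1) (b := 0) (c := 1) (cn := .npn) (n1 := ndF0q1) (n2 := ndF0q0) (pc := pcF1) (cut := cut_A00pp_101_s3) (xt := Ext.none) (P1 := 536870912) (W1 := 536870912) (P2 := 0) (W2 := 536870912) (P3 := 67108864) (W3 := 67108864)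
    rfl rfl rfl k0_A00pp_101_s3

theorem s_A00pp_101_s3 {κ x : ℝ} (hκ : κ * h0 = ken x) (hx : ((67108864 : ℕ) : ℝ) / S ≤ x)
    (hx' : x ≤ (((67108864 : ℕ) : ℝ) + (67108864 : ℕ)) / S) :
    AltA (VF κ) PP tKF tL pcF [⟨4, 0, 0, 2845415833⟩] 1 0 1 0 0 (sgb true) (sgb true) x :=
  strip_altA (m := 2845415833) false rfl hκ covF01 covF00 hx hx' c_A00pp_101_s3 cutA_nil (noExt_A)

noncomputable def cut_A00pp_102_s1 : Cut := Cut.of [[⟨4, 0, 0, 1449551462⟩]]

noncomputable def f_A00pp_102_s1 : ℕ → ℕ → ℕ → ℕ → Bool := onCell 536870912 536870912 0 536870912 67108864 67108864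
    (rowFK 0 true true true .npp 1 0 2 (qsf 536870912 536870912 0 536870912 2) ndF0q1 ndF0q0 pcF2 cut_A00pp_102_s1 Ext.none)

def k0_A00pp_102_s1 : ∃ t, chk3 f_A00pp_102_s1 t 1 1 1 = true :=
  ⟨(l 6), by decide +kernel⟩

theorem c_A00pp_102_s1 : CertF 536870912 536870912 0 536870912 67108864 67108864 true true true .npp 1 0 2
    ndF0q1 ndF0q0 pcF2 cut_A00pp_102_s1 Ext.none :=
  certFK0 (fam := true) (s1 := true) (s2 := true) (a := 1) (b := 0) (c := 2) (cn := .npp) (n1 := ndF0q1) (n2 := ndF0q0) (pc := pcF2) (cut := cut_A00pp_102_s1) (xt := Ext.none) (P1 := 536870912) (W1 := 536870912) (P2 := 0) (W2 := 536870912) (P3 := 67108864) (W3 := 67108864)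
    rfl rfl rfl k0_A00pp_102_s1

theorem s_A00pp_102_s1 {κ x : ℝ} (hκ : κ * h0 = ken x) (hx : ((67108864 : ℕ) : ℝ) / S ≤ x)
    (hx' : x ≤ (((67108864 : ℕ) : ℝ) + (67108864 : ℕ)) / S) :
    AltA (VF κ) PP tKF tL pcF [⟨3, 0, 0, 1449551462⟩] 1 0 2 0 0 (sgb true) (sgb true) x :=
  strip_altA (m := 1449551462) true rfl hκ covF01 covF00 hx hx' c_A00pp_102_s1 cutA_nil (noExt_A)

noncomputable def cut_A00pp_102_s3 : Cut := Cut.of [[⟨3, 0, 0, 2845415833⟩]]

noncomputable def f_A00pp_102_s3 : ℕ → ℕ → ℕ → ℕ → Bool := onCell 536870912 536870912 0 536870912 67108864 67108864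
    (rowFK 0 true true true .npp 1 0 2 (qsf 536870912 536870912 0 536870912 2) ndF0q1 ndF0q0 pcF2 cut_A00pp_102_s3 Ext.none)

def k0_A00pp_102_s3 : ∃ t, chk3 f_A00pp_102_s3 t 1 1 1 = true :=
  ⟨(a (l 4) (l 5)), by decide +kernel⟩

theorem c_A00pp_102_s3 : CertF 536870912 536870912 0 536870912 67108864 67108864 true true true .npp 1 0 2
    ndF0q1 ndF0q0 pcF2 cut_A00pp_102_s3 Ext.none :=
  certFK0 (fam := true) (s1 := true) (s2 := true) (a := 1) (b := 0) (c := 2) (cn := .npp) (n1 := ndF0q1) (n2 := ndF0q0) (pc := pcF2) (cut := cut_A00pp_102_s3) (xt := Ext.none) (P1 := 536870912) (W1 := 536870912) (P2 := 0) (W2 := 536870912) (P3 := 67108864) (W3 := 67108864)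
    rfl rfl rfl k0_A00pp_102_s3

theorem s_A00pp_102_s3 {κ x : ℝ} (hκ : κ * h0 = ken x) (hx : ((67108864 : ℕ) : ℝ) / S ≤ x)
    (hx' : x ≤ (((67108864 : ℕ) : ℝ) + (67108864 : ℕ)) / S) :
    AltA (VF κ) PP tKF tL pcF [⟨4, 0, 0, 2845415833⟩] 1 0 2 0 0 (sgb true) (sgb true) x :=
  strip_altA (m := 2845415833) false rfl hκ covF01 covF00 hx hx' c_A00pp_102_s3 cutA_nil (noExt_A)

noncomputable def cut_A00pp_112_s1 : Cut := Cut.of [[⟨4, 0, 0, 1449551462⟩]]

noncomputable def f_A00pp_112_s1 : ℕ → ℕ → ℕ → ℕ → Bool := onCell 536870912 536870912 536870912 536870912 67108864 67108864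
    (rowFK 0 true true true .dn 1 1 2 (qsf 536870912 536870912 536870912 536870912 2) ndF0q1 ndF0q1 pcF2 cut_A00pp_112_s1 Ext.none)

def k0_A00pp_112_s1 : ∃ t, chk3 f_A00pp_112_s1 t 1 1 1 = true :=
  ⟨(l 4), by decide +kernel⟩

theorem c_A00pp_112_s1 : CertF 536870912 536870912 536870912 536870912 67108864 67108864 true true true .dn 1 1 2
    ndF0q1 ndF0q1 pcF2 cut_A00pp_112_s1 Ext.none :=
  certFK0 (fam := true) (s1 := true) (s2 := true) (a := 1) (b := 1) (c := 2) (cn := .dn) (n1 := ndF0q1) (n2 := ndF0q1) (pc := pcF2) (cut := cut_A00pp_112_s1) (xt := Ext.none) (P1 := 536870912) (W1 := 536870912) (P2 := 536870912) (W2 := 536870912) (P3 := 67108864) (W3 := 67108864)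
    rfl rfl rfl k0_A00pp_112_s1

theorem s_A00pp_112_s1 {κ x : ℝ} (hκ : κ * h0 = ken x) (hx : ((67108864 : ℕ) : ℝ) / S ≤ x)
    (hx' : x ≤ (((67108864 : ℕ) : ℝ) + (67108864 : ℕ)) / S) :
    AltA (VF κ) PP tKF tL pcF [⟨3, 0, 0, 1449551462⟩] 1 1 2 0 0 (sgb true) (sgb true) x :=
  strip_altA (m := 1449551462) true rfl hκ covF01 covF01 hx hx' c_A00pp_112_s1 cutA_nil (noExt_A)

noncomputable def cut_A00pp_112_s3 : Cut := Cut.of [[⟨3, 0, 0, 2845415833⟩]]

noncomputable def f_A00pp_112_s3 : ℕ → ℕ → ℕ → ℕ → Bool := onCell 536870912 536870912 536870912 536870912 67108864 67108864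
    (rowFK 0 true true true .dn 1 1 2 (qsf 536870912 536870912 536870912 536870912 2) ndF0q1 ndF0q1 pcF2 cut_A00pp_112_s3 Ext.none)

def k0_A00pp_112_s3 : ∃ t, chk3 f_A00pp_112_s3 t 1 1 1 = true :=
  ⟨(l 4), by decide +kernel⟩

theorem c_A00pp_112_s3 : CertF 536870912 536870912 536870912 536870912 67108864 67108864 true true true .dn 1 1 2
    ndF0q1 ndF0q1 pcF2 cut_A00pp_112_s3 Ext.none :=
  certFK0 (fam := true) (s1 := true) (s2 := true) (a := 1) (b := 1) (c := 2) (cn := .dn) (n1 := ndF0q1) (n2 := ndF0q1) (pc := pcF2) (cut := cut_A00pp_112_s3) (xt := Ext.none) (P1 := 536870912) (W1 := 536870912) (P2 := 536870912) (W2 := 536870912) (P3 := 67108864) (W3 := 67108864)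
    rfl rfl rfl k0_A00pp_112_s3

theorem s_A00pp_112_s3 {κ x : ℝ} (hκ : κ * h0 = ken x) (hx : ((67108864 : ℕ) : ℝ) / S ≤ x)
    (hx' : x ≤ (((67108864 : ℕ) : ℝ) + (67108864 : ℕ)) / S) :
    AltA (VF κ) PP tKF tL pcF [⟨4, 0, 0, 2845415833⟩] 1 1 2 0 0 (sgb true) (sgb true) x :=
  strip_altA (m := 2845415833) false rfl hκ covF01 covF01 hx hx' c_A00pp_112_s3 cutA_nil (noExt_A)

noncomputable def cut_A00pp_113_s1 : Cut := Cut.of [[⟨4, 0, 0, 1449551462⟩]]

noncomputable def f_A00pp_113_s1 : ℕ → ℕ → ℕ → ℕ → Bool := onCell 536870912 536870912 536870912 536870912 67108864 67108864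
    (rowFK 0 true true true .nn 1 1 3 (qsf 536870912 536870912 536870912 536870912 3) ndF0q1 ndF0q1 pcF3 cut_A00pp_113_s1 Ext.none)

def k0_A00pp_113_s1 : ∃ t, chk3 f_A00pp_113_s1 t 1 1 1 = true :=
  ⟨(l 4), by decide +kernel⟩

theorem c_A00pp_113_s1 : CertF 536870912 536870912 536870912 536870912 67108864 67108864 true true true .nn 1 1 3
    ndF0q1 ndF0q1 pcF3 cut_A00pp_113_s1 Ext.none :=
  certFK0 (fam := true) (s1 := true) (s2 := true) (a := 1) (b := 1) (c := 3) (cn := .nn) (n1 := ndF0q1) (n2 := ndF0q1) (pc := pcF3) (cut := cut_A00pp_113_s1) (xt := Ext.none) (P1 := 536870912) (W1 := 536870912) (P2 := 536870912) (W2 := 536870912) (P3 := 67108864) (W3 := 67108864)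
    rfl rfl rfl k0_A00pp_113_s1

theorem s_A00pp_113_s1 {κ x : ℝ} (hκ : κ * h0 = ken x) (hx : ((67108864 : ℕ) : ℝ) / S ≤ x)
    (hx' : x ≤ (((67108864 : ℕ) : ℝ) + (67108864 : ℕ)) / S) :
    AltA (VF κ) PP tKF tL pcF [⟨3, 0, 0, 1449551462⟩] 1 1 3 0 0 (sgb true) (sgb true) x :=
  strip_altA (m := 1449551462) true rfl hκ covF01 covF01 hx hx' c_A00pp_113_s1 cutA_nil (noExt_A)

noncomputable def cut_A00pp_113_s3 : Cut := Cut.of [[⟨3, 0, 0, 2845415833⟩]]

noncomputable def f_A00pp_113_s3 : ℕ → ℕ → ℕ → ℕ → Bool := onCell 536870912 536870912 536870912 536870912 67108864 67108864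
    (rowFK 0 true true true .nn 1 1 3 (qsf 536870912 536870912 536870912 536870912 3) ndF0q1 ndF0q1 pcF3 cut_A00pp_113_s3 Ext.none)

def k0_A00pp_113_s3 : ∃ t, chk3 f_A00pp_113_s3 t 1 1 1 = true :=
  ⟨(l 4), by decide +kernel⟩

theorem c_A00pp_113_s3 : CertF 536870912 536870912 536870912 536870912 67108864 67108864 true true true .nn 1 1 3
    ndF0q1 ndF0q1 pcF3 cut_A00pp_113_s3 Ext.none :=
  certFK0 (fam := true) (s1 := true) (s2 := true) (a := 1) (b := 1) (c := 3) (cn := .nn) (n1 := ndF0q1) (n2 := ndF0q1) (pc := pcF3) (cut := cut_A00pp_113_s3) (xt := Ext.none) (P1 := 536870912) (W1 := 536870912) (P2 := 536870912) (W2 := 536870912) (P3 := 67108864) (W3 := 67108864)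
    rfl rfl rfl k0_A00pp_113_s3

theorem s_A00pp_113_s3 {κ x : ℝ} (hκ : κ * h0 = ken x) (hx : ((67108864 : ℕ) : ℝ) / S ≤ x)
    (hx' : x ≤ (((67108864 : ℕ) : ℝ) + (67108864 : ℕ)) / S) :
    AltA (VF κ) PP tKF tL pcF [⟨4, 0, 0, 2845415833⟩] 1 1 3 0 0 (sgb true) (sgb true) x :=
  strip_altA (m := 2845415833) false rfl hκ covF01 covF01 hx hx' c_A00pp_113_s3 cutA_nil (noExt_A)

noncomputable def cut_A00pp_123_s1 : Cut := Cut.of [[⟨4, 0, 0, 1449551462⟩]]

noncomputable def f_A00pp_123_s1 : ℕ → ℕ → ℕ → ℕ → Bool := onCell 536870912 536870912 0 536870912 67108864 67108864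
    (rowFK 0 true true true .npn 1 2 3 (qsf 536870912 536870912 0 536870912 3) ndF0q1 ndF0q2 pcF3 cut_A00pp_123_s1 Ext.none)

def k0_A00pp_123_s1 : ∃ t, chk3 f_A00pp_123_s1 t 1 1 1 = true :=
  ⟨(l 6), by decide +kernel⟩

theorem c_A00pp_123_s1 : CertF 536870912 536870912 0 536870912 67108864 67108864 true true true .npn 1 2 3
    ndF0q1 ndF0q2 pcF3 cut_A00pp_123_s1 Ext.none :=
  certFK0 (fam := true) (s1 := true) (s2 := true) (a := 1) (b := 2) (c := 3) (cn := .npn) (n1 := ndF0q1) (n2 := ndF0q2) (pc := pcF3) (cut := cut_A00pp_123_s1) (xt := Ext.none) (P1 := 536870912) (W1 := 536870912) (P2 := 0) (W2 := 536870912) (P3 := 67108864) (W3 := 67108864)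
    rfl rfl rfl k0_A00pp_123_s1

theorem s_A00pp_123_s1 {κ x : ℝ} (hκ : κ * h0 = ken x) (hx : ((67108864 : ℕ) : ℝ) / S ≤ x)
    (hx' : x ≤ (((67108864 : ℕ) : ℝ) + (67108864 : ℕ)) / S) :
    AltA (VF κ) PP tKF tL pcF [⟨3, 0, 0, 1449551462⟩] 1 2 3 0 0 (sgb true) (sgb true) x :=
  strip_altA (m := 1449551462) true rfl hκ covF01 covF02 hx hx' c_A00pp_123_s1 cutA_nil (noExt_A)

noncomputable def cut_A00pp_123_s3 : Cut := Cut.of [[⟨3, 0, 0, 2845415833⟩]]

noncomputable def xt_A00pp_123_s3 : Ext := strExt dd true true true .u0 .u2 .s2 .npn 1 2 3 rfl rfl gl3 vv ndF0q1 ndF0q2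

noncomputable def f_A00pp_123_s3 : ℕ → ℕ → ℕ → ℕ → Bool := onCell 536870912 536870912 0 536870912 67108864 67108864
    (rowFK 0 true true true .npn 1 2 3 (qsf 536870912 536870912 0 536870912 3) ndF0q1 ndF0q2 pcF3 cut_A00pp_123_s3 xt_A00pp_123_s3)

def k0_A00pp_123_s3 : ∃ t, chk3 f_A00pp_123_s3 t 1 1 1 = true :=
  ⟨(a (b (a (b (a (b (l 546299407) (l 546639887)) (l 546901775)) (l 4)) (l 4)) (l 4)) (l 4)), by decide +kernel⟩

theorem c_A00pp_123_s3 : CertF 536870912 536870912 0 536870912 67108864 67108864 true true true .npn 1 2 3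
    ndF0q1 ndF0q2 pcF3 cut_A00pp_123_s3 xt_A00pp_123_s3 :=
  certFK0 (fam := true) (s1 := true) (s2 := true) (a := 1) (b := 2) (c := 3) (cn := .npn) (n1 := ndF0q1) (n2 := ndF0q2) (pc := pcF3) (cut := cut_A00pp_123_s3) (xt := xt_A00pp_123_s3) (P1 := 536870912) (W1 := 536870912) (P2 := 0) (W2 := 536870912) (P3 := 67108864) (W3 := 67108864)
    rfl rfl rfl k0_A00pp_123_s3

theorem s_A00pp_123_s3 {κ x : ℝ} (hκ : κ * h0 = ken x) (hx : ((67108864 : ℕ) : ℝ) / S ≤ x)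
    (hx' : x ≤ (((67108864 : ℕ) : ℝ) + (67108864 : ℕ)) / S) :
    AltA (VF κ) PP tKF tL pcF [⟨4, 0, 0, 2845415833⟩] 1 2 3 0 0 (sgb true) (sgb true) x :=
  strip_altA (m := 2845415833) false rfl hκ covF01 covF02 hx hx' c_A00pp_123_s3 cutA_nil ((okx hx hx').extA (T := tt) (sideF hx hx') hκ rfl rfl (.O 1 true) (.O 2 true) (Or.inr rfl))

noncomputable def cut_A00pp_202_s1 : Cut := Cut.of [[⟨4, 0, 0, 1449551462⟩]]

noncomputable def f_A00pp_202_s1 : ℕ → ℕ → ℕ → ℕ → Bool := onCell 0 536870912 0 536870912 67108864 67108864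
    (rowFK 0 true true true .pp 2 0 2 (qsf 0 536870912 0 536870912 2) ndF0q2 ndF0q0 pcF2 cut_A00pp_202_s1 Ext.none)

def k0_A00pp_202_s1 : ∃ t, chk3 f_A00pp_202_s1 t 1 1 1 = true :=
  ⟨(l 5), by decide +kernel⟩

theorem c_A00pp_202_s1 : CertF 0 536870912 0 536870912 67108864 67108864 true true true .pp 2 0 2
    ndF0q2 ndF0q0 pcF2 cut_A00pp_202_s1 Ext.none :=
  certFK0 (fam := true) (s1 := true) (s2 := true) (a := 2) (b := 0) (c := 2) (cn := .pp) (n1 := ndF0q2) (n2 := ndF0q0) (pc := pcF2) (cut := cut_A00pp_202_s1) (xt := Ext.none) (P1 := 0) (W1 := 536870912) (P2 := 0) (W2 := 536870912) (P3 := 67108864) (W3 := 67108864)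
    rfl rfl rfl k0_A00pp_202_s1

theorem s_A00pp_202_s1 {κ x : ℝ} (hκ : κ * h0 = ken x) (hx : ((67108864 : ℕ) : ℝ) / S ≤ x)
    (hx' : x ≤ (((67108864 : ℕ) : ℝ) + (67108864 : ℕ)) / S) :
    AltA (VF κ) PP tKF tL pcF [⟨3, 0, 0, 1449551462⟩] 2 0 2 0 0 (sgb true) (sgb true) x :=
  strip_altA (m := 1449551462) true rfl hκ covF02 covF00 hx hx' c_A00pp_202_s1 cutA_nil (noExt_A)

noncomputable def cut_A00pp_202_s3 : Cut := Cut.of [[⟨3, 0, 0, 2845415833⟩]]

noncomputable def f_A00pp_202_s3 : ℕ → ℕ → ℕ → ℕ → Bool := onCell 0 536870912 0 536870912 67108864 67108864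
    (rowFK 0 true true true .pp 2 0 2 (qsf 0 536870912 0 536870912 2) ndF0q2 ndF0q0 pcF2 cut_A00pp_202_s3 Ext.none)

def k0_A00pp_202_s3 : ∃ t, chk3 f_A00pp_202_s3 t 1 1 1 = true :=
  ⟨(l 5), by decide +kernel⟩

theorem c_A00pp_202_s3 : CertF 0 536870912 0 536870912 67108864 67108864 true true true .pp 2 0 2
    ndF0q2 ndF0q0 pcF2 cut_A00pp_202_s3 Ext.none :=
  certFK0 (fam := true) (s1 := true) (s2 := true) (a := 2) (b := 0) (c := 2) (cn := .pp) (n1 := ndF0q2) (n2 := ndF0q0) (pc := pcF2) (cut := cut_A00pp_202_s3) (xt := Ext.none) (P1 := 0) (W1 := 536870912) (P2 := 0) (W2 := 536870912) (P3 := 67108864) (W3 := 67108864)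
    rfl rfl rfl k0_A00pp_202_s3

theorem s_A00pp_202_s3 {κ x : ℝ} (hκ : κ * h0 = ken x) (hx : ((67108864 : ℕ) : ℝ) / S ≤ x)
    (hx' : x ≤ (((67108864 : ℕ) : ℝ) + (67108864 : ℕ)) / S) :
    AltA (VF κ) PP tKF tL pcF [⟨4, 0, 0, 2845415833⟩] 2 0 2 0 0 (sgb true) (sgb true) x :=
  strip_altA (m := 2845415833) false rfl hκ covF02 covF00 hx hx' c_A00pp_202_s3 cutA_nil (noExt_A)

noncomputable def cut_A00pp_203_s1 : Cut := Cut.of [[⟨4, 0, 0, 1449551462⟩]]

noncomputable def f_A00pp_203_s1 : ℕ → ℕ → ℕ → ℕ → Bool := onCell 0 536870912 0 536870912 67108864 67108864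
    (rowFK 0 true true true .up 2 0 3 (qsf 0 536870912 0 536870912 3) ndF0q2 ndF0q0 pcF3 cut_A00pp_203_s1 Ext.none)

def k0_A00pp_203_s1 : ∃ t, chk3 f_A00pp_203_s1 t 1 1 1 = true :=
  ⟨(l 5), by decide +kernel⟩

theorem c_A00pp_203_s1 : CertF 0 536870912 0 536870912 67108864 67108864 true true true .up 2 0 3
    ndF0q2 ndF0q0 pcF3 cut_A00pp_203_s1 Ext.none :=
  certFK0 (fam := true) (s1 := true) (s2 := true) (a := 2) (b := 0) (c := 3) (cn := .up) (n1 := ndF0q2) (n2 := ndF0q0) (pc := pcF3) (cut := cut_A00pp_203_s1) (xt := Ext.none) (P1 := 0) (W1 := 536870912) (P2 := 0) (W2 := 536870912) (P3 := 67108864) (W3 := 67108864)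
    rfl rfl rfl k0_A00pp_203_s1

theorem s_A00pp_203_s1 {κ x : ℝ} (hκ : κ * h0 = ken x) (hx : ((67108864 : ℕ) : ℝ) / S ≤ x)
    (hx' : x ≤ (((67108864 : ℕ) : ℝ) + (67108864 : ℕ)) / S) :
    AltA (VF κ) PP tKF tL pcF [⟨3, 0, 0, 1449551462⟩] 2 0 3 0 0 (sgb true) (sgb true) x :=
  strip_altA (m := 1449551462) true rfl hκ covF02 covF00 hx hx' c_A00pp_203_s1 cutA_nil (noExt_A)

noncomputable def cut_A00pp_203_s3 : Cut := Cut.of [[⟨3, 0, 0, 2845415833⟩]]

noncomputable def f_A00pp_203_s3 : ℕ → ℕ → ℕ → ℕ → Bool := onCell 0 536870912 0 536870912 67108864 67108864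
    (rowFK 0 true true true .up 2 0 3 (qsf 0 536870912 0 536870912 3) ndF0q2 ndF0q0 pcF3 cut_A00pp_203_s3 Ext.none)

def k0_A00pp_203_s3 : ∃ t, chk3 f_A00pp_203_s3 t 1 1 1 = true :=
  ⟨(l 5), by decide +kernel⟩

theorem c_A00pp_203_s3 : CertF 0 536870912 0 536870912 67108864 67108864 true true true .up 2 0 3
    ndF0q2 ndF0q0 pcF3 cut_A00pp_203_s3 Ext.none :=
  certFK0 (fam := true) (s1 := true) (s2 := true) (a := 2) (b := 0) (c := 3) (cn := .up) (n1 := ndF0q2) (n2 := ndF0q0) (pc := pcF3) (cut := cut_A00pp_203_s3) (xt := Ext.none) (P1 := 0) (W1 := 536870912) (P2 := 0) (W2 := 536870912) (P3 := 67108864) (W3 := 67108864)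
    rfl rfl rfl k0_A00pp_203_s3

theorem s_A00pp_203_s3 {κ x : ℝ} (hκ : κ * h0 = ken x) (hx : ((67108864 : ℕ) : ℝ) / S ≤ x)
    (hx' : x ≤ (((67108864 : ℕ) : ℝ) + (67108864 : ℕ)) / S) :
    AltA (VF κ) PP tKF tL pcF [⟨4, 0, 0, 2845415833⟩] 2 0 3 0 0 (sgb true) (sgb true) x :=
  strip_altA (m := 2845415833) false rfl hκ covF02 covF00 hx hx' c_A00pp_203_s3 cutA_nil (noExt_A)

noncomputable def cut_A00pp_213_s1 : Cut := Cut.of [[⟨4, 0, 0, 1449551462⟩]]

noncomputable def f_A00pp_213_s1 : ℕ → ℕ → ℕ → ℕ → Bool := onCell 0 536870912 536870912 536870912 67108864 67108864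
    (rowFK 0 true true true .pnn 2 1 3 (qsf 0 536870912 536870912 536870912 3) ndF0q2 ndF0q1 pcF3 cut_A00pp_213_s1 Ext.none)

def k0_A00pp_213_s1 : ∃ t, chk3 f_A00pp_213_s1 t 1 1 1 = true :=
  ⟨(l 6), by decide +kernel⟩

theorem c_A00pp_213_s1 : CertF 0 536870912 536870912 536870912 67108864 67108864 true true true .pnn 2 1 3
    ndF0q2 ndF0q1 pcF3 cut_A00pp_213_s1 Ext.none :=
  certFK0 (fam := true) (s1 := true) (s2 := true) (a := 2) (b := 1) (c := 3) (cn := .pnn) (n1 := ndF0q2) (n2 := ndF0q1) (pc := pcF3) (cut := cut_A00pp_213_s1) (xt := Ext.none) (P1 := 0) (W1 := 536870912) (P2 := 536870912) (W2 := 536870912) (P3 := 67108864) (W3 := 67108864)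
    rfl rfl rfl k0_A00pp_213_s1

theorem s_A00pp_213_s1 {κ x : ℝ} (hκ : κ * h0 = ken x) (hx : ((67108864 : ℕ) : ℝ) / S ≤ x)
    (hx' : x ≤ (((67108864 : ℕ) : ℝ) + (67108864 : ℕ)) / S) :
    AltA (VF κ) PP tKF tL pcF [⟨3, 0, 0, 1449551462⟩] 2 1 3 0 0 (sgb true) (sgb true) x :=
  strip_altA (m := 1449551462) true rfl hκ covF02 covF01 hx hx' c_A00pp_213_s1 cutA_nil (noExt_A)

noncomputable def cut_A00pp_213_s3 : Cut := Cut.of [[⟨3, 0, 0, 2845415833⟩]]

noncomputable def f_A00pp_213_s3 : ℕ → ℕ → ℕ → ℕ → Bool := onCell 0 536870912 536870912 536870912 67108864 67108864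
    (rowFK 0 true true true .pnn 2 1 3 (qsf 0 536870912 536870912 536870912 3) ndF0q2 ndF0q1 pcF3 cut_A00pp_213_s3 Ext.none)

def k0_A00pp_213_s3 : ∃ t, chk3 f_A00pp_213_s3 t 1 1 1 = true :=
  ⟨(a (l 5) (l 4)), by decide +kernel⟩

theorem c_A00pp_213_s3 : CertF 0 536870912 536870912 536870912 67108864 67108864 true true true .pnn 2 1 3
    ndF0q2 ndF0q1 pcF3 cut_A00pp_213_s3 Ext.none :=
  certFK0 (fam := true) (s1 := true) (s2 := true) (a := 2) (b := 1) (c := 3) (cn := .pnn) (n1 := ndF0q2) (n2 := ndF0q1) (pc := pcF3) (cut := cut_A00pp_213_s3) (xt := Ext.none) (P1 := 0) (W1 := 536870912) (P2 := 536870912) (W2 := 536870912) (P3 := 67108864) (W3 := 67108864)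
    rfl rfl rfl k0_A00pp_213_s3

theorem s_A00pp_213_s3 {κ x : ℝ} (hκ : κ * h0 = ken x) (hx : ((67108864 : ℕ) : ℝ) / S ≤ x)
    (hx' : x ≤ (((67108864 : ℕ) : ℝ) + (67108864 : ℕ)) / S) :
    AltA (VF κ) PP tKF tL pcF [⟨4, 0, 0, 2845415833⟩] 2 1 3 0 0 (sgb true) (sgb true) x :=
  strip_altA (m := 2845415833) false rfl hκ covF02 covF01 hx hx' c_A00pp_213_s3 cutA_nil (noExt_A)

noncomputable def cut_A00pm_001_s1 : Cut := Cut.of [[⟨4, 0, 0, 1449551462⟩]]

noncomputable def f_A00pm_001_s1 : ℕ → ℕ → ℕ → ℕ → Bool := onCell 0 536870912 0 536870912 67108864 67108864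
    (rowFK 0 true true false .up 0 0 1 (qsf 0 536870912 0 536870912 1) ndF0q0 ndF0q0 pcF1 cut_A00pm_001_s1 Ext.none)

def k0_A00pm_001_s1 : ∃ t, chk3 f_A00pm_001_s1 t 1 1 1 = true :=
  ⟨(l 3), by decide +kernel⟩

theorem c_A00pm_001_s1 : CertF 0 536870912 0 536870912 67108864 67108864 true true false .up 0 0 1
    ndF0q0 ndF0q0 pcF1 cut_A00pm_001_s1 Ext.none :=
  certFK0 (fam := true) (s1 := true) (s2 := false) (a := 0) (b := 0) (c := 1) (cn := .up) (n1 := ndF0q0) (n2 := ndF0q0) (pc := pcF1) (cut := cut_A00pm_001_s1) (xt := Ext.none) (P1 := 0) (W1 := 536870912) (P2 := 0) (W2 := 536870912) (P3 := 67108864) (W3 := 67108864)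
    rfl rfl rfl k0_A00pm_001_s1

theorem s_A00pm_001_s1 {κ x : ℝ} (hκ : κ * h0 = ken x) (hx : ((67108864 : ℕ) : ℝ) / S ≤ x)
    (hx' : x ≤ (((67108864 : ℕ) : ℝ) + (67108864 : ℕ)) / S) :
    AltA (VF κ) PP tKF tL pcF [⟨3, 0, 0, 1449551462⟩] 0 0 1 0 0 (sgb true) (sgb false) x :=
  strip_altA (m := 1449551462) true rfl hκ covF00 covF00 hx hx' c_A00pm_001_s1 cutA_nil (noExt_A)

noncomputable def cut_A00pm_001_s3 : Cut := Cut.of [[⟨3, 0, 0, 2845415833⟩]]

noncomputable def f_A00pm_001_s3 : ℕ → ℕ → ℕ → ℕ → Bool := onCell 0 536870912 0 536870912 67108864 67108864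
    (rowFK 0 true true false .up 0 0 1 (qsf 0 536870912 0 536870912 1) ndF0q0 ndF0q0 pcF1 cut_A00pm_001_s3 Ext.none)

def k0_A00pm_001_s3 : ∃ t, chk3 f_A00pm_001_s3 t 1 1 1 = true :=
  ⟨(l 3), by decide +kernel⟩

theorem c_A00pm_001_s3 : CertF 0 536870912 0 536870912 67108864 67108864 true true false .up 0 0 1
    ndF0q0 ndF0q0 pcF1 cut_A00pm_001_s3 Ext.none :=
  certFK0 (fam := true) (s1 := true) (s2 := false) (a := 0) (b := 0) (c := 1) (cn := .up) (n1 := ndF0q0) (n2 := ndF0q0) (pc := pcF1) (cut := cut_A00pm_001_s3) (xt := Ext.none) (P1 := 0) (W1 := 536870912) (P2 := 0) (W2 := 536870912) (P3 := 67108864) (W3 := 67108864)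
    rfl rfl rfl k0_A00pm_001_s3

theorem s_A00pm_001_s3 {κ x : ℝ} (hκ : κ * h0 = ken x) (hx : ((67108864 : ℕ) : ℝ) / S ≤ x)
    (hx' : x ≤ (((67108864 : ℕ) : ℝ) + (67108864 : ℕ)) / S) :
    AltA (VF κ) PP tKF tL pcF [⟨4, 0, 0, 2845415833⟩] 0 0 1 0 0 (sgb true) (sgb false) x :=
  strip_altA (m := 2845415833) false rfl hκ covF00 covF00 hx hx' c_A00pm_001_s3 cutA_nil (noExt_A)

noncomputable def cut_A00pm_011_s1 : Cut := Cut.of [[⟨4, 0, 0, 1449551462⟩], [⟨0, 0, 0, 67108864⟩, ⟨1, 1, 0, 67108864⟩, ⟨2, 1, 0, 67108864⟩]]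

noncomputable def f_A00pm_011_s1 : ℕ → ℕ → ℕ → ℕ → Bool := onCell 536870912 536870912 536870912 536870912 67108864 67108864
    (rowFK 2 true true false .pnn 0 1 1 (qsf 0 536870912 536870912 536870912 1) ndF0q0 ndF0q1 pcF1 cut_A00pm_011_s1 Ext.none)

def k0_A00pm_011_s1 : ∃ t, chk3 f_A00pm_011_s1 t 1 1 1 = true :=
  ⟨(a (l 3) (b (l 3) (a (l 3) (b (l 3) (a (l 3) (b (l 3) (a (l 3) (b (l 3) (l 14))))))))), by decide +kernel⟩

theorem c_A00pm_011_s1 : CertF 0 536870912 536870912 536870912 67108864 67108864 true true false .pnn 0 1 1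
    ndF0q0 ndF0q1 pcF1 cut_A00pm_011_s1 Ext.none :=
  certFK2 (fam := true) (s1 := true) (s2 := false) (a := 0) (b := 1) (c := 1) (cn := .pnn) (n1 := ndF0q0) (n2 := ndF0q1) (pc := pcF1) (cut := cut_A00pm_011_s1) (xt := Ext.none) (P1 := 0) (W1 := 536870912) (P2 := 536870912) (W2 := 536870912) (P3 := 67108864) (W3 := 67108864)
    rfl rfl rfl (fun _ => rfl) k0_A00pm_011_s1

theorem s_A00pm_011_s1 {κ x : ℝ} (hκ : κ * h0 = ken x) (hx : ((67108864 : ℕ) : ℝ) / S ≤ x)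
    (hx' : x ≤ (((67108864 : ℕ) : ℝ) + (67108864 : ℕ)) / S)
    (H : CutA (VF κ) PP tKF tL pcF (Cut.of [[⟨0, 0, 0, 67108864⟩, ⟨1, 1, 0, 67108864⟩, ⟨2, 1, 0, 67108864⟩]]) 0 1 1 0 0 (sgb true) (sgb false) x) :
    AltA (VF κ) PP tKF tL pcF [⟨3, 0, 0, 1449551462⟩] 0 1 1 0 0 (sgb true) (sgb false) x :=
  strip_altA (m := 1449551462) true rfl hκ covF00 covF01 hx hx' c_A00pm_011_s1 H (noExt_A)

noncomputable def cut_A00pm_011_s3 : Cut := Cut.of [[⟨3, 0, 0, 2845415833⟩], [⟨0, 0, 0, 67108864⟩, ⟨1, 1, 0, 67108864⟩, ⟨2, 1, 0, 67108864⟩]]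

noncomputable def f_A00pm_011_s3 : ℕ → ℕ → ℕ → ℕ → Bool := onCell 0 536870912 536870912 536870912 67108864 67108864
    (rowFK 0 true true false .pnn 0 1 1 (qsf 0 536870912 536870912 536870912 1) ndF0q0 ndF0q1 pcF1 cut_A00pm_011_s3 Ext.none)

def k0_A00pm_011_s3 : ∃ t, chk3 f_A00pm_011_s3 t 1 1 1 = true :=
  ⟨(l 6), by decide +kernel⟩

theorem c_A00pm_011_s3 : CertF 0 536870912 536870912 536870912 67108864 67108864 true true false .pnn 0 1 1
    ndF0q0 ndF0q1 pcF1 cut_A00pm_011_s3 Ext.none :=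
  certFK0 (fam := true) (s1 := true) (s2 := false) (a := 0) (b := 1) (c := 1) (cn := .pnn) (n1 := ndF0q0) (n2 := ndF0q1) (pc := pcF1) (cut := cut_A00pm_011_s3) (xt := Ext.none) (P1 := 0) (W1 := 536870912) (P2 := 536870912) (W2 := 536870912) (P3 := 67108864) (W3 := 67108864)
    rfl rfl rfl k0_A00pm_011_s3

theorem s_A00pm_011_s3 {κ x : ℝ} (hκ : κ * h0 = ken x) (hx : ((67108864 : ℕ) : ℝ) / S ≤ x)
    (hx' : x ≤ (((67108864 : ℕ) : ℝ) + (67108864 : ℕ)) / S)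
    (H : CutA (VF κ) PP tKF tL pcF (Cut.of [[⟨0, 0, 0, 67108864⟩, ⟨1, 1, 0, 67108864⟩, ⟨2, 1, 0, 67108864⟩]]) 0 1 1 0 0 (sgb true) (sgb false) x) :
    AltA (VF κ) PP tKF tL pcF [⟨4, 0, 0, 2845415833⟩] 0 1 1 0 0 (sgb true) (sgb false) x :=
  strip_altA (m := 2845415833) false rfl hκ covF00 covF01 hx hx' c_A00pm_011_s3 H (noExt_A)

end Pool.Agent.Strip051.G.I1_16_1_8.Tab.St.C
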