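import Pool.Agent.Strip051.PB.StripC
import Pool.Agent.Strip051.G.I1_16_1_8.Fact

/-! # Facts about the strips of a table (generated) -/

set_option linter.all false
set_option maxRecDepth 4000

namespace Pool.Agent.Strip051.G.I1_16_1_8.Tab.St

open Pool.Agent.Strip051.PB Pool.Agent.StripNear Pool.Agent.Strip051.LC
open Pool.Agent.Strip051.G.I1_16_1_8.Tab

noncomputable def sl1 : Fn1 := ⟨_, _, fun h1 => (enc_norm (enc_subr 69013889 75000000 (enc_scale 59059591 120000000 (enc_subr 3 32 h1))))⟩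
noncomputable def sv1 : Fn1 := ⟨_, _, fun h1 => (enc_norm (enc_subr 1017137 15000000 (enc_scale 41606659 240000000 (enc_subr 3 32 h1))))⟩
noncomputable def sw1 : Fn1 := ⟨_, _, fun h1 => (enc_norm (enc_subr 1779 125000 (enc_scale 24201 200000 (enc_subr 3 32 h1))))⟩
noncomputable def sl2 : Fn1 := ⟨_, _, fun h1 => (enc_norm (enc_subr 1160910435161 1235872656250 (enc_scale 877883114767 63276680000000 (enc_subr 3 32 h1))))⟩
noncomputable def sv2 : Fn1 := ⟨_, _, fun h1 => (enc_norm (enc_subr 573091633357 7909585000000 (enc_scale 7261347008463 126553360000000 (enc_subr 3 32 h1))))⟩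
noncomputable def sw2 : Fn1 := ⟨_, _, fun h1 => (enc_norm (enc_subr 531 15625 (enc_neg (enc_scale 74417 200000 (enc_subr 3 32 h1)))))⟩
noncomputable def sl3 : Fn1 := ⟨_, _, fun h1 => (enc_norm (enc_subr 93095020975199 93261800000000 (enc_neg (enc_scale 2671803593819 27978540000000 (enc_subr 3 32 h1)))))⟩
noncomputable def sv3 : Fn1 := ⟨_, _, fun h1 => (enc_norm (enc_subr 16068240539629 186523600000000 (enc_scale 1787314984499 55957080000000 (enc_subr 3 32 h1))))⟩
noncomputable def sw3 : Fn1 := ⟨_, _, fun h1 => (enc_norm (enc_subr 194527 2000000 (enc_neg (enc_scale 97929 200000 (enc_subr 3 32 h1)))))⟩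
noncomputable def sl4 : Fn1 := ⟨_, _, fun h1 => (enc_norm (enc_subr 25585875142153 25113170000000 (enc_neg (enc_scale 645215884079 627829250000 (enc_subr 3 32 h1)))))⟩
noncomputable def sv4 : Fn1 := ⟨_, _, fun h1 => (enc_norm (enc_subr 22746839373701 251131700000000 (enc_neg (enc_scale 1057774622669 6278292500000 (enc_subr 3 32 h1)))))⟩
noncomputable def sw4 : Fn1 := ⟨_, _, fun h1 => (enc_norm (enc_subr 12123 100000 (enc_neg (enc_scale 1967 1250 (enc_subr 3 32 h1)))))⟩
noncomputable def sl5 : Fn1 := ⟨_, _, fun h1 => (enc_norm (enc_subr 231167438807 239297187500 (enc_neg (enc_scale 244497792829 306300400000 (enc_subr 3 32 h1)))))⟩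
noncomputable def sv5 : Fn1 := ⟨_, _, fun h1 => (enc_norm (enc_subr 12297412679231 153150200000000 (enc_neg (enc_scale 1895979309611 15315020000000 (enc_subr 3 32 h1)))))⟩
noncomputable def sw5 : Fn1 := ⟨_, _, fun h1 => (enc_norm (enc_subr 21379 400000 (enc_neg (enc_scale 1279 1000 (enc_subr 3 32 h1)))))⟩
noncomputable def sl6 : Fn1 := ⟨_, _, fun h1 => (enc_norm (enc_subr 834498049 900000000 (enc_neg (enc_scale 644567 3000000 (enc_subr 3 32 h1)))))⟩
noncomputable def sv6 : Fn1 := ⟨_, _, fun h1 => (enc_norm (enc_subr 132658787 1800000000 (enc_neg (enc_scale 11543 468750 (enc_subr 3 32 h1)))))⟩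
noncomputable def sw6 : Fn1 := ⟨_, _, fun h1 => (enc_norm (enc_sub (enc_rat _ 3621 1000000) (enc_scale 4211 10000 (enc_subr 3 32 h1))))⟩
noncomputable def sl7 : Fn1 := ⟨_, _, fun h1 => (enc_norm (enc_subr 9027409 10000000 (enc_neg (enc_scale 60773 1000000 (enc_subr 3 32 h1)))))⟩
noncomputable def sv7 : Fn1 := ⟨_, _, fun h1 => (enc_norm (enc_subr 11302311 160000000 (enc_neg (enc_scale 429177 80000000 (enc_subr 3 32 h1)))))⟩
noncomputable def sw7 : Fn1 := ⟨_, _, fun h1 => (enc_norm (enc_sub (enc_rat _ 105159 2000000) (enc_scale 22587 200000 (enc_subr 3 32 h1))))⟩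
noncomputable def sl8 : Fn1 := ⟨_, _, fun h1 => (enc_norm (enc_add (enc_scale 1075703 60000000 (enc_subr 3 32 h1)) (enc_rat _ 398744129 1800000000)))⟩
noncomputable def sv8 : Fn1 := ⟨_, _, fun h1 => (enc_norm (enc_add (enc_scale 107569 200000000 (enc_subr 3 32 h1)) (enc_rat _ 82082827 6000000000)))⟩
noncomputable def sw8 : Fn1 := ⟨_, _, fun h1 => (enc_norm (enc_add (enc_scale 29881 200000 (enc_subr 3 32 h1)) (enc_rat _ 7600261 2000000)))⟩
noncomputable def sl9 : Fn1 := ⟨_, _, fun h1 => (enc_neg (enc_rat _ 1406947 6000000))⟩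
noncomputable def sv9 : Fn1 := ⟨_, _, fun h1 => (enc_pnc _ 0)⟩
noncomputable def sl10 : Fn1 := ⟨_, _, fun h1 => (enc_norm (enc_add (enc_scale 1075703 60000000 (enc_subr 3 32 h1)) (enc_rat _ 398744129 1800000000)))⟩
noncomputable def sv10 : Fn1 := ⟨_, _, fun h1 => (enc_norm (enc_subr 82082827 6000000000 (enc_neg (enc_scale 107569 200000000 (enc_subr 3 32 h1)))))⟩
noncomputable def sw10 : Fn1 := ⟨_, _, fun h1 => (enc_norm (enc_subr 7600261 2000000 (enc_neg (enc_scale 29881 200000 (enc_subr 3 32 h1)))))⟩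
noncomputable def sl11 : Fn1 := ⟨_, _, fun h1 => (enc_norm (enc_subr 9027409 10000000 (enc_neg (enc_scale 60773 1000000 (enc_subr 3 32 h1)))))⟩
noncomputable def sv11 : Fn1 := ⟨_, _, fun h1 => (enc_norm (enc_add (enc_scale 429177 80000000 (enc_subr 3 32 h1)) (enc_rat _ 11302311 160000000)))⟩
noncomputable def sw11 : Fn1 := ⟨_, _, fun h1 => (enc_norm (enc_subr 105159 2000000 (enc_scale 22587 200000 (enc_subr 3 32 h1))))⟩
noncomputable def sl12 : Fn1 := ⟨_, _, fun h1 => (enc_norm (enc_subr 834498049 900000000 (enc_neg (enc_scale 644567 3000000 (enc_subr 3 32 h1)))))⟩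
noncomputable def sv12 : Fn1 := ⟨_, _, fun h1 => (enc_norm (enc_add (enc_scale 11543 468750 (enc_subr 3 32 h1)) (enc_rat _ 132658787 1800000000)))⟩
noncomputable def sw12 : Fn1 := ⟨_, _, fun h1 => (enc_norm (enc_subr 3621 1000000 (enc_scale 4211 10000 (enc_subr 3 32 h1))))⟩
noncomputable def sl13 : Fn1 := ⟨_, _, fun h1 => (enc_norm (enc_subr 231167438807 239297187500 (enc_neg (enc_scale 244497792829 306300400000 (enc_subr 3 32 h1)))))⟩
noncomputable def sv13 : Fn1 := ⟨_, _, fun h1 => (enc_norm (enc_add (enc_scale 1895979309611 15315020000000 (enc_subr 3 32 h1)) (enc_rat _ 12297412679231 153150200000000)))⟩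
noncomputable def sw13 : Fn1 := ⟨_, _, fun h1 => (enc_norm (enc_add (enc_scale 1279 1000 (enc_subr 3 32 h1)) (enc_rat _ 21379 400000)))⟩
noncomputable def sl14 : Fn1 := ⟨_, _, fun h1 => (enc_norm (enc_subr 25585875142153 25113170000000 (enc_neg (enc_scale 645215884079 627829250000 (enc_subr 3 32 h1)))))⟩
noncomputable def sv14 : Fn1 := ⟨_, _, fun h1 => (enc_norm (enc_add (enc_scale 1057774622669 6278292500000 (enc_subr 3 32 h1)) (enc_rat _ 22746839373701 251131700000000)))⟩
noncomputable def sw14 : Fn1 := ⟨_, _, fun h1 => (enc_norm (enc_add (enc_scale 1967 1250 (enc_subr 3 32 h1)) (enc_rat _ 12123 100000)))⟩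
noncomputable def sl15 : Fn1 := ⟨_, _, fun h1 => (enc_norm (enc_subr 93095020975199 93261800000000 (enc_neg (enc_scale 2671803593819 27978540000000 (enc_subr 3 32 h1)))))⟩
noncomputable def sv15 : Fn1 := ⟨_, _, fun h1 => (enc_norm (enc_sub (enc_rat _ 16068240539629 186523600000000) (enc_scale 1787314984499 55957080000000 (enc_subr 3 32 h1))))⟩
noncomputable def sw15 : Fn1 := ⟨_, _, fun h1 => (enc_norm (enc_add (enc_scale 97929 200000 (enc_subr 3 32 h1)) (enc_rat _ 194527 2000000)))⟩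
noncomputable def sl16 : Fn1 := ⟨_, _, fun h1 => (enc_norm (enc_subr 1160910435161 1235872656250 (enc_scale 877883114767 63276680000000 (enc_subr 3 32 h1))))⟩
noncomputable def sv16 : Fn1 := ⟨_, _, fun h1 => (enc_norm (enc_sub (enc_rat _ 573091633357 7909585000000) (enc_scale 7261347008463 126553360000000 (enc_subr 3 32 h1))))⟩
noncomputable def sw16 : Fn1 := ⟨_, _, fun h1 => (enc_norm (enc_add (enc_scale 74417 200000 (enc_subr 3 32 h1)) (enc_rat _ 531 15625)))⟩
noncomputable def sl17 : Fn1 := ⟨_, _, fun h1 => (enc_norm (enc_subr 69013889 75000000 (enc_scale 59059591 120000000 (enc_subr 3 32 h1))))⟩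
noncomputable def sv17 : Fn1 := ⟨_, _, fun h1 => (enc_norm (enc_sub (enc_rat _ 1017137 15000000) (enc_scale 41606659 240000000 (enc_subr 3 32 h1))))⟩
noncomputable def sw17 : Fn1 := ⟨_, _, fun h1 => (enc_norm (enc_sub (enc_rat _ 1779 125000) (enc_scale 24201 200000 (enc_subr 3 32 h1))))⟩
noncomputable def sl34 : Fn1 := ⟨_, _, fun h1 => (enc_norm (enc_add (enc_scale 4732047579 2500000000 (enc_subr 3 32 h1)) (enc_rat _ 4231931711 50000000000)))⟩
noncomputable def sv34 : Fn1 := ⟨_, _, fun h1 => (enc_norm (enc_add (enc_scale 2873027329 5000000000 (enc_subr 3 32 h1)) (enc_rat _ 3193186961 100000000000)))⟩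
noncomputable def sw34 : Fn1 := ⟨_, _, fun h1 => (enc_norm (enc_add (enc_scale 7436081 5000000 (enc_subr 3 32 h1)) (enc_rat _ 4154979 100000000)))⟩
noncomputable def sl35_2 : Fn1 := ⟨_, _, fun h1 => (enc_subr 3 32 h1)⟩
noncomputable def sl35 : Fn1 := ⟨_, _, fun h1 => (enc_norm (enc_sub (enc_subr 1466523240952593 3565150000000000 (enc_neg (enc_scale 24201893684883643 1426060000000000 (sl35_2.enc h1)))) (enc_scale 2070327 4520000 (enc_sq (enc_norm (sl35_2.enc h1))))))⟩
noncomputable def sv35_2 : Fn1 := ⟨_, _, fun h1 => (enc_subr 3 32 h1)⟩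
noncomputable def sv35 : Fn1 := ⟨_, _, fun h1 => (enc_norm (enc_sub (enc_subr 599866461677411 7130300000000000 (enc_neg (enc_scale 10950898689774611 2852120000000000 (sv35_2.enc h1)))) (enc_scale 242228259 1130000000 (enc_sq (enc_norm (sv35_2.enc h1))))))⟩
noncomputable def sw35 : Fn1 := ⟨_, _, fun h1 => (enc_norm (enc_subr 48835309 100000000 (enc_neg (enc_scale 93333073 5000000 (enc_subr 3 32 h1)))))⟩
noncomputable def sl37_2 : Fn1 := ⟨_, _, fun h1 => (enc_subr 3 32 h1)⟩
noncomputable def sl37 : Fn1 := ⟨_, _, fun h1 => (enc_norm (enc_add (enc_sub (enc_rat _ 2808252913200129 2280332500000000) (enc_scale 5517508853736553 456066500000000 (sl37_2.enc h1))) (enc_scale 4323 144875 (enc_sq (enc_norm (sl37_2.enc h1))))))⟩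
noncomputable def sv37_2 : Fn1 := ⟨_, _, fun h1 => (enc_subr 3 32 h1)⟩
noncomputable def sv37 : Fn1 := ⟨_, _, fun h1 => (enc_norm (enc_add (enc_sub (enc_rat _ 593786241279923 2280332500000000) (enc_scale 1043161706313261 456066500000000 (sv37_2.enc h1))) (enc_scale 38907 3621875 (enc_sq (enc_norm (sv37_2.enc h1))))))⟩
noncomputable def sw37 : Fn1 := ⟨_, _, fun h1 => (enc_norm (enc_sub (enc_rat _ 74156741 50000000) (enc_scale 157423537 10000000 (enc_subr 3 32 h1))))⟩
noncomputable def sl38 : Fn1 := ⟨_, _, fun h1 => (enc_norm (enc_add (enc_scale 348474077 75000000 (enc_subr 3 32 h1)) (enc_rat _ 487571479 3000000000)))⟩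
noncomputable def sv38 : Fn1 := ⟨_, _, fun h1 => (enc_norm (enc_add (enc_scale 181670667 250000000 (enc_subr 3 32 h1)) (enc_rat _ 339885367 5000000000)))⟩
noncomputable def sw38 : Fn1 := ⟨_, _, fun h1 => (enc_norm (enc_subr 31379 20000000 (enc_scale 234803 31250 (enc_subr 3 32 h1))))⟩
noncomputable def sl39 : Fn1 := ⟨_, _, fun h1 => (enc_norm (enc_add (enc_scale 3862573 30000000 (enc_subr 3 32 h1)) (enc_rat _ 40368829 300000000)))⟩
noncomputable def sv39 : Fn1 := ⟨_, _, fun h1 => (enc_norm (enc_add (enc_scale 2452369 50000000 (enc_subr 3 32 h1)) (enc_rat _ 31891447 500000000)))⟩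
noncomputable def sw39 : Fn1 := ⟨_, _, fun h1 => (enc_norm (enc_subr 96341 2000000 (enc_neg (enc_scale 3117 200000 (enc_subr 3 32 h1)))))⟩
noncomputable def sl40 : Fn1 := ⟨_, _, fun h1 => (enc_norm (enc_add (enc_scale 255367 10000000 (enc_subr 3 32 h1)) (enc_rat _ 625097 6250000)))⟩
noncomputable def sv40 : Fn1 := ⟨_, _, fun h1 => (enc_norm (enc_add (enc_scale 9165333 250000000 (enc_subr 3 32 h1)) (enc_rat _ 149093073 2500000000)))⟩
noncomputable def sw40 : Fn1 := ⟨_, _, fun h1 => (enc_norm (enc_subr 7509 62500 (enc_neg (enc_scale 46123 200000 (enc_subr 3 32 h1)))))⟩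
noncomputable def sl41 : Fn1 := ⟨_, _, fun h1 => (enc_norm (enc_sub (enc_rat _ 5224079 60000000) (enc_scale 7171 187500 (enc_subr 3 32 h1))))⟩
noncomputable def sv41 : Fn1 := ⟨_, _, fun h1 => (enc_norm (enc_add (enc_scale 7730259 250000000 (enc_subr 3 32 h1)) (enc_rat _ 146179887 2500000000)))⟩
noncomputable def sw41 : Fn1 := ⟨_, _, fun h1 => (enc_norm (enc_subr 312219 2000000 (enc_neg (enc_scale 40779 100000 (enc_subr 3 32 h1)))))⟩
noncomputable def sl42 : Fn1 := ⟨_, _, fun h1 => (enc_norm (enc_sub (enc_rat _ 13793549 150000000) (enc_scale 1428759 10000000 (enc_subr 3 32 h1))))⟩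
noncomputable def sv42 : Fn1 := ⟨_, _, fun h1 => (enc_norm (enc_add (enc_scale 385051 15625000 (enc_subr 3 32 h1)) (enc_rat _ 2295519 39062500)))⟩
noncomputable def sw42 : Fn1 := ⟨_, _, fun h1 => (enc_norm (enc_subr 67869 500000 (enc_neg (enc_scale 168751 200000 (enc_subr 3 32 h1)))))⟩
noncomputable def sl43 : Fn1 := ⟨_, _, fun h1 => (enc_norm (enc_subr 2337 500000 (enc_neg (enc_scale 51949 1200000 (enc_subr 3 32 h1)))))⟩
noncomputable def sv43 : Fn1 := ⟨_, _, fun h1 => (enc_norm (enc_add (enc_scale 13815391 500000000 (enc_subr 3 32 h1)) (enc_rat _ 69832949 1250000000)))⟩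
noncomputable def sw43 : Fn1 := ⟨_, _, fun h1 => (enc_norm (enc_subr 940997 1000000 (enc_neg (enc_scale 1387 100000 (enc_subr 3 32 h1)))))⟩
noncomputable def sl44 : Fn1 := ⟨_, _, fun h1 => (enc_norm (enc_subr 530637 6250000 (enc_neg (enc_scale 1850117 15000000 (enc_subr 3 32 h1)))))⟩
noncomputable def sv44 : Fn1 := ⟨_, _, fun h1 => (enc_norm (enc_add (enc_scale 3754039 125000000 (enc_subr 3 32 h1)) (enc_rat _ 9105187 156250000)))⟩
noncomputable def sw44 : Fn1 := ⟨_, _, fun h1 => (enc_norm (enc_subr 272431 1000000 (enc_scale 65321 100000 (enc_subr 3 32 h1))))⟩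
noncomputable def sl45 : Fn1 := ⟨_, _, fun h1 => (enc_norm (enc_subr 282309 2000000 (enc_neg (enc_scale 242491 6000000 (enc_subr 3 32 h1)))))⟩
noncomputable def sv45 : Fn1 := ⟨_, _, fun h1 => (enc_norm (enc_add (enc_scale 6264153 250000000 (enc_subr 3 32 h1)) (enc_rat _ 15412087 250000000)))⟩
noncomputable def sw45 : Fn1 := ⟨_, _, fun h1 => (enc_norm (enc_subr 7609 200000 (enc_scale 61539 200000 (enc_subr 3 32 h1))))⟩
noncomputable def sl46 : Fn1 := ⟨_, _, fun h1 => (enc_norm (enc_subr 4553561 30000000 (enc_scale 132421 30000000 (enc_subr 3 32 h1))))⟩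
noncomputable def sv46 : Fn1 := ⟨_, _, fun h1 => (enc_norm (enc_add (enc_scale 1313883 62500000 (enc_subr 3 32 h1)) (enc_rat _ 15651283 250000000)))⟩
noncomputable def sw46 : Fn1 := ⟨_, _, fun h1 => (enc_norm (enc_subr 1703 200000 (enc_scale 36633 200000 (enc_subr 3 32 h1))))⟩
noncomputable def sl47 : Fn1 := ⟨_, _, fun h1 => (enc_norm (enc_subr 24092747 150000000 (enc_scale 1333591 15000000 (enc_subr 3 32 h1))))⟩
noncomputable def sv47 : Fn1 := ⟨_, _, fun h1 => (enc_norm (enc_add (enc_scale 272077 25000000 (enc_subr 3 32 h1)) (enc_rat _ 15916271 250000000)))⟩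
noncomputable def sw47 : Fn1 := ⟨_, _, fun h1 => (enc_norm (enc_add (enc_scale 357 50000 (enc_subr 3 32 h1)) (enc_rat _ 9887 1000000)))⟩
noncomputable def sl48 : Fn1 := ⟨_, _, fun h1 => (enc_norm (enc_subr 59084021 150000000 (enc_scale 6222079 30000000 (enc_subr 3 32 h1))))⟩
noncomputable def sv48 : Fn1 := ⟨_, _, fun h1 => (enc_norm (enc_sub (enc_rat _ 3083011 31250000) (enc_scale 344567 50000000 (enc_subr 3 32 h1))))⟩
noncomputable def sw48 : Fn1 := ⟨_, _, fun h1 => (enc_norm (enc_sub (enc_rat _ 398679 1000000) (enc_scale 38071 200000 (enc_subr 3 32 h1))))⟩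
noncomputable def sl49 : Fn1 := ⟨_, _, fun h1 => (enc_norm (enc_subr 105626867 280000000 (enc_scale 422545579 140000000 (enc_subr 3 32 h1))))⟩
noncomputable def sv49 : Fn1 := ⟨_, _, fun h1 => (enc_norm (enc_sub (enc_rat _ 669609611 7000000000) (enc_scale 1794911687 3500000000 (enc_subr 3 32 h1))))⟩
noncomputable def sw49 : Fn1 := ⟨_, _, fun h1 => (enc_norm (enc_sub (enc_rat _ 150219 400000) (enc_scale 818843 200000 (enc_subr 3 32 h1))))⟩
noncomputable def sl50 : Fn1 := ⟨_, _, fun h1 => (enc_norm (enc_subr 42943899 200000000 (enc_neg (enc_scale 248116263 140000000 (enc_subr 3 32 h1)))))⟩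
noncomputable def sv50 : Fn1 := ⟨_, _, fun h1 => (enc_norm (enc_add (enc_scale 144791713 280000000 (enc_subr 3 32 h1)) (enc_rat _ 24286749 400000000)))⟩
noncomputable def sw50 : Fn1 := ⟨_, _, fun h1 => (enc_norm (enc_add (enc_scale 295213 200000 (enc_subr 3 32 h1)) (enc_rat _ 373143 2000000)))⟩
noncomputable def skf0 : Fn2 := ⟨_, _, fun h1 h2 => (enc_norm (enc_add (bf1q0.enc h1 h2) (enc_mul (enc_norm (enc_sub (enc_mul (c1g.enc h1) (bf1q0.enc h1 h2)) (kf0q0.enc h1 h2))) (enc_inv (enc_sub (cv1m.enc h1) (c1g.enc h1))))))⟩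
noncomputable def sxf0 : Fn2 := ⟨_, _, fun h1 h2 => (enc_norm (enc_mul (enc_norm (enc_sub (l1q0.enc h1 h2) (l0q0.enc h1 h2))) (enc_inv (enc_sub (cv1m.enc h1) (c1g.enc h1)))))⟩
noncomputable def skl0 : Fn2 := ⟨_, _, fun h1 h2 => (enc_norm (enc_add (bf3q0.enc h1 h2) (enc_mul (enc_norm (enc_sub (kf4q0.enc h1 h2) (enc_mul (c3g.enc h1) (bf3q0.enc h1 h2)))) (enc_inv (enc_sub (c3g.enc h1) (cv3m.enc h1))))))⟩
noncomputable def sxl0 : Fn2 := ⟨_, _, fun h1 h2 => (enc_norm (enc_mul (enc_norm (enc_sub (l4q0.enc h1 h2) (l3q0.enc h1 h2))) (enc_inv (enc_sub (c3g.enc h1) (cv3m.enc h1)))))⟩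
noncomputable def skf1 : Fn2 := ⟨_, _, fun h1 h2 => (enc_norm (enc_add (bf1q1.enc h1 h2) (enc_mul (enc_norm (enc_sub (enc_mul (c1g.enc h1) (bf1q1.enc h1 h2)) (kf0q1.enc h1 h2))) (enc_inv (enc_sub (cv1m.enc h1) (c1g.enc h1))))))⟩
noncomputable def sxf1 : Fn2 := ⟨_, _, fun h1 h2 => (enc_norm (enc_mul (enc_norm (enc_sub (l1q1.enc h1 h2) (l0q1.enc h1 h2))) (enc_inv (enc_sub (cv1m.enc h1) (c1g.enc h1)))))⟩
noncomputable def skl1 : Fn2 := ⟨_, _, fun h1 h2 => (enc_norm (enc_add (bf3q1.enc h1 h2) (enc_mul (enc_norm (enc_sub (kf4q1.enc h1 h2) (enc_mul (c3g.enc h1) (bf3q1.enc h1 h2)))) (enc_inv (enc_sub (c3g.enc h1) (cv3m.enc h1))))))⟩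
noncomputable def sxl1 : Fn2 := ⟨_, _, fun h1 h2 => (enc_norm (enc_mul (enc_norm (enc_sub (l4q1.enc h1 h2) (l3q1.enc h1 h2))) (enc_inv (enc_sub (c3g.enc h1) (cv3m.enc h1)))))⟩
noncomputable def skf2 : Fn2 := ⟨_, _, fun h1 h2 => (enc_norm (enc_add (bf1q2.enc h1 h2) (enc_mul (enc_norm (enc_add (enc_mul (c1g.enc h1) (enc_norm (enc_subn 1 (bf1q2.enc h1 h2)))) (enc_mul (enc_norm (enc_subn 1 h1)) (kcg.enc (c1g.enc h1) h2)))) (enc_inv (enc_sub (cv1p.enc h1) (c1g.enc h1))))))⟩
noncomputable def sxf2 : Fn2 := ⟨_, _, fun h1 h2 => (enc_norm (enc_mul (enc_norm (enc_sub (l1q2.enc h1 h2) (l0q2.enc h1 h2))) (enc_inv (enc_sub (cv1p.enc h1) (c1g.enc h1)))))⟩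
noncomputable def skl2 : Fn2 := ⟨_, _, fun h1 h2 => (enc_norm (enc_add (bf3q2.enc h1 h2) (enc_mul (enc_norm (enc_sub (kf4q2.enc h1 h2) (enc_mul (c3g.enc h1) (bf3q2.enc h1 h2)))) (enc_inv (enc_sub (c3g.enc h1) (cv3p.enc h1))))))⟩
noncomputable def sxl2 : Fn2 := ⟨_, _, fun h1 h2 => (enc_norm (enc_mul (enc_norm (enc_sub (l4q2.enc h1 h2) (l3q2.enc h1 h2))) (enc_inv (enc_sub (c3g.enc h1) (cv3p.enc h1)))))⟩
noncomputable def skl3 : Fn2 := ⟨_, _, fun h1 h2 => (enc_norm (enc_add (bf3q3.enc h1 h2) (enc_mul (enc_norm (enc_sub (kf4q3.enc h1 h2) (enc_mul (c3g.enc h1) (bf3q3.enc h1 h2)))) (enc_inv (enc_sub (c3g.enc h1) (cv3r.enc h1))))))⟩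
noncomputable def sxl3 : Fn2 := ⟨_, _, fun h1 h2 => (enc_norm (enc_mul (enc_norm (enc_sub (l4q3.enc h1 h2) (l3q3.enc h1 h2))) (enc_inv (enc_sub (c3g.enc h1) (cv3r.enc h1)))))⟩
noncomputable def rhk : Fn2 := ⟨_, _, fun h1 h2 => (enc_norm (enc_mul (enc_norm (enc_sub (bf1q2.enc h1 h2) (n0b.enc h1 h2))) (enc_norm (enc_mul (cv1p.enc h1) (enc_inv (enc_sub (cv1p.enc h1) (c1g.enc h1)))))))⟩
noncomputable def rhx : Fn2 := ⟨_, _, fun h1 h2 => (enc_norm (enc_mul (enc_norm (enc_sub (bx1q2.enc h1 h2) (n0x.enc h1 h2))) (enc_norm (enc_mul (cv1p.enc h1) (enc_inv (enc_sub (cv1p.enc h1) (c1g.enc h1)))))))⟩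
noncomputable def sbk : Fn1 := ⟨_, _, fun h1 => (enc_norm (enc_subr 1 2900000 (enc_scale 223 36250 (enc_subr 3 32 h1))))⟩
noncomputable def sbx : Fn1 := ⟨_, _, fun h1 => (enc_norm (enc_subr 1 1450000 (enc_neg (enc_scale 1133 435000 (enc_subr 3 32 h1)))))⟩
noncomputable def k0c : Fn1 := ⟨_, _, fun h1 => (enc_neg (enc_rat _ 1406947 6000000))⟩
noncomputable def m0c : Fn1 := ⟨_, _, fun h1 => (enc_norm (enc_add (enc_scale 51949 600000 (enc_subr 3 32 h1)) (enc_rat _ 2337 250000)))⟩
noncomputable def sl67 : Fn1 := ⟨_, _, fun h1 => (enc_norm (enc_sub (enc_rat _ 6363277 150000000) (enc_scale 291331 2500000 (enc_subr 3 32 h1))))⟩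
noncomputable def sv67 : Fn1 := ⟨_, _, fun h1 => (enc_norm (enc_sub (enc_rat _ 7419757 2500000000) (enc_scale 3909801 250000000 (enc_subr 3 32 h1))))⟩
noncomputable def sw67 : Fn1 := ⟨_, _, fun h1 => (enc_norm (enc_add (enc_scale 20689 50000 (enc_subr 3 32 h1)) (enc_rat _ 111629 1000000)))⟩
noncomputable def sl68 : Fn1 := ⟨_, _, fun h1 => (enc_norm (enc_sub (enc_rat _ 2684311 60000000) (enc_scale 47527 6000000 (enc_subr 3 32 h1))))⟩
noncomputable def sv68 : Fn1 := ⟨_, _, fun h1 => (enc_norm (enc_sub (enc_rat _ 7940983 2500000000) (enc_scale 733053 125000000 (enc_subr 3 32 h1))))⟩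
noncomputable def sw68 : Fn1 := ⟨_, _, fun h1 => (enc_norm (enc_add (enc_scale 143097 200000 (enc_subr 3 32 h1)) (enc_rat _ 236129 2000000)))⟩
noncomputable def sl69 : Fn1 := ⟨_, _, fun h1 => (enc_norm (enc_subr 2460461 150000000 (enc_scale 5389061 30000000 (enc_subr 3 32 h1))))⟩
noncomputable def sv69 : Fn1 := ⟨_, _, fun h1 => (enc_norm (enc_subr 76889 156250000 (enc_scale 673631 125000000 (enc_subr 3 32 h1))))⟩
noncomputable def sw69 : Fn1 := ⟨_, _, fun h1 => (enc_norm (enc_subr 136693 1000000 (enc_scale 299393 200000 (enc_subr 3 32 h1))))⟩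
noncomputable def sl70 : Fn1 := ⟨_, _, fun h1 => (enc_pnc _ 0)⟩
noncomputable def sv70 : Fn1 := ⟨_, _, fun h1 => (enc_pnc _ 0)⟩
noncomputable def sl71 : Fn1 := ⟨_, _, fun h1 => (enc_norm (enc_subr 2460461 150000000 (enc_scale 5389061 30000000 (enc_subr 3 32 h1))))⟩
noncomputable def sv71 : Fn1 := ⟨_, _, fun h1 => (enc_norm (enc_sub (enc_rat _ 76889 156250000) (enc_scale 673631 125000000 (enc_subr 3 32 h1))))⟩
noncomputable def sw71 : Fn1 := ⟨_, _, fun h1 => (enc_norm (enc_sub (enc_rat _ 136693 1000000) (enc_scale 299393 200000 (enc_subr 3 32 h1))))⟩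
noncomputable def sl72 : Fn1 := ⟨_, _, fun h1 => (enc_norm (enc_sub (enc_rat _ 2684311 60000000) (enc_scale 47527 6000000 (enc_subr 3 32 h1))))⟩
noncomputable def sv72 : Fn1 := ⟨_, _, fun h1 => (enc_norm (enc_subr 7940983 2500000000 (enc_scale 733053 125000000 (enc_subr 3 32 h1))))⟩
noncomputable def sw72 : Fn1 := ⟨_, _, fun h1 => (enc_norm (enc_subr 236129 2000000 (enc_neg (enc_scale 143097 200000 (enc_subr 3 32 h1)))))⟩
noncomputable def sl73 : Fn1 := ⟨_, _, fun h1 => (enc_norm (enc_sub (enc_rat _ 6363277 150000000) (enc_scale 291331 2500000 (enc_subr 3 32 h1))))⟩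
noncomputable def sv73 : Fn1 := ⟨_, _, fun h1 => (enc_norm (enc_subr 7419757 2500000000 (enc_scale 3909801 250000000 (enc_subr 3 32 h1))))⟩
noncomputable def sw73 : Fn1 := ⟨_, _, fun h1 => (enc_norm (enc_subr 111629 1000000 (enc_neg (enc_scale 20689 50000 (enc_subr 3 32 h1)))))⟩
noncomputable def kqf : Fn2 := ⟨_, _, fun h1 h2 => (enc_norm (enc_mul (enc_norm (enc_subn 1 h1)) (enc_norm (enc_case (enc_subr 3 50 (c1g.enc h1)) (enc_neg (enc_rat _ 1406947 6000000)) (enc_mul (kcg.enc (c1g.enc h1) h2) (enc_inv (c1g.enc h1)))))))⟩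
noncomputable def skm : Fn2 := ⟨_, _, fun h1 h2 => (enc_norm (enc_sub (enc_mul (enc_norm (enc_mul (cv1p.enc h1) (enc_inv (enc_sub (cv1p.enc h1) (c1g.enc h1))))) (enc_norm (enc_add (enc_subn 1 (bf1q2.enc h1 h2)) (kqf.enc h1 h2)))) (kqf.enc h1 h2)))⟩
noncomputable def dt1 : DT := .quad sw1 sl1 sv1
noncomputable def dt2 : DT := .quad sw2 sl2 sv2
noncomputable def dt3 : DT := .quad sw3 sl3 sv3
noncomputable def dt4 : DT := .quad sw4 sl4 sv4
noncomputable def dt5 : DT := .quad sw5 sl5 sv5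
noncomputable def dt6 : DT := .quad sw6 sl6 sv6
noncomputable def dt7 : DT := .quad sw7 sl7 sv7
noncomputable def dt8 : DT := .quad sw8 sl8 sv8
noncomputable def dt9 : DT := .lin sl9 sv9
noncomputable def dt10 : DT := .quad sw10 sl10 sv10
noncomputable def dt11 : DT := .quad sw11 sl11 sv11
noncomputable def dt12 : DT := .quad sw12 sl12 sv12
noncomputable def dt13 : DT := .quad sw13 sl13 sv13
noncomputable def dt14 : DT := .quad sw14 sl14 sv14
noncomputable def dt15 : DT := .quad sw15 sl15 sv15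
noncomputable def dt16 : DT := .quad sw16 sl16 sv16
noncomputable def dt17 : DT := .quad sw17 sl17 sv17
noncomputable def dt18 : DT := .node ((Cn.rt 97 200).ng) dt1 dt2
noncomputable def dt19 : DT := .node ((Cn.rt 43 100).ng) dt3 dt4
noncomputable def dt20 : DT := .node ((Cn.rt 587 1262).ng) dt18 dt19
noncomputable def dt21 : DT := .node ((Cn.rt 17 50).ng) dt5 dt6
noncomputable def dt22 : DT := .node ((Cn.rt 3 20).ng) dt7 dt8
noncomputable def dt23 : DT := .node ((Cn.rt 1 4).ng) dt21 dt22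
noncomputable def dt24 : DT := .node ((Cn.rt 613 1574).ng) dt20 dt23
noncomputable def dt25 : DT := .node (Cn.rt 3 50) dt9 dt10
noncomputable def dt26 : DT := .node (Cn.rt 1 4) dt11 dt12
noncomputable def dt27 : DT := .node (Cn.rt 3 20) dt25 dt26
noncomputable def dt28 : DT := .node (Cn.rt 613 1574) dt13 dt14
noncomputable def dt29 : DT := .node (Cn.rt 97 200) dt16 dt17
noncomputable def dt30 : DT := .node (Cn.rt 587 1262) dt15 dt29
noncomputable def dt31 : DT := .node (Cn.rt 43 100) dt28 dt30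
noncomputable def dt32 : DT := .node (Cn.rt 17 50) dt27 dt31
noncomputable def dt33 : DT := .node ((Cn.rt 3 50).ng) dt24 dt32
noncomputable def dt34 : DT := .quad sw34 sl34 sv34
noncomputable def dt35 : DT := .quad sw35 sl35 sv35
noncomputable def dt36 : DT := .clo
noncomputable def dt37 : DT := .quad sw37 sl37 sv37
noncomputable def dt38 : DT := .quad sw38 sl38 sv38
noncomputable def dt39 : DT := .quad sw39 sl39 sv39
noncomputable def dt40 : DT := .quad sw40 sl40 sv40
noncomputable def dt41 : DT := .quad sw41 sl41 sv41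
noncomputable def dt42 : DT := .quad sw42 sl42 sv42
noncomputable def dt43 : DT := .quad sw43 sl43 sv43
noncomputable def dt44 : DT := .quad sw44 sl44 sv44
noncomputable def dt45 : DT := .quad sw45 sl45 sv45
noncomputable def dt46 : DT := .quad sw46 sl46 sv46
noncomputable def dt47 : DT := .quad sw47 sl47 sv47
noncomputable def dt48 : DT := .quad sw48 sl48 sv48
noncomputable def dt49 : DT := .quad sw49 sl49 sv49
noncomputable def dt50 : DT := .quad sw50 sl50 sv50
noncomputable def dt51 : DT := .node ((Cn.rt 117 250).ng) dt34 dt35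
noncomputable def dt52 : DT := .node ((Cn.rt 613 1574).ng) dt36 dt37
noncomputable def dt53 : DT := .node ((Cn.rt 587 1262).ng) dt51 dt52
noncomputable def dt54 : DT := .node ((Cn.rt 3 10).ng) dt38 dt39
noncomputable def dt55 : DT := .node ((Cn.rt 9 50).ng) dt40 dt41
noncomputable def dt56 : DT := .node ((Cn.rt 6 25).ng) dt54 dt55
noncomputable def dt57 : DT := .node ((Cn.rt 9 25).ng) dt53 dt56
noncomputable def dt58 : DT := .node ((Cn.rt 3 50).ng) dt42 dt43
noncomputable def dt59 : DT := .node (Cn.rt 3 25) dt44 dt45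
noncomputable def dt60 : DT := .node (Cn.rt 3 50) dt58 dt59
noncomputable def dt61 : DT := .node (Cn.rt 6 25) dt46 dt47
noncomputable def dt62 : DT := .node (Cn.rt 43 100) dt49 dt50
noncomputable def dt63 : DT := .node (Cn.rt 9 25) dt48 dt62
noncomputable def dt64 : DT := .node (Cn.rt 3 10) dt61 dt63
noncomputable def dt65 : DT := .node (Cn.rt 9 50) dt60 dt64
noncomputable def dt66 : DT := .node ((Cn.rt 3 25).ng) dt57 dt65
noncomputable def dt67 : DT := .quad sw67 sl67 sv67
noncomputable def dt68 : DT := .quad sw68 sl68 sv68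
noncomputable def dt69 : DT := .quad sw69 sl69 sv69
noncomputable def dt70 : DT := .lin sl70 sv70
noncomputable def dt71 : DT := .quad sw71 sl71 sv71
noncomputable def dt72 : DT := .quad sw72 sl72 sv72
noncomputable def dt73 : DT := .quad sw73 sl73 sv73
noncomputable def dt74 : DT := .node ((Cn.rt 3 25).ng) dt68 dt69
noncomputable def dt75 : DT := .node ((Cn.rt 9 50).ng) dt67 dt74
noncomputable def dt76 : DT := .node (Cn.rt 3 50) dt70 dt71
noncomputable def dt77 : DT := .node (Cn.rt 9 50) dt72 dt73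
noncomputable def dt78 : DT := .node (Cn.rt 3 25) dt76 dt77
noncomputable def dt79 : DT := .node ((Cn.rt 3 50).ng) dt75 dt78
noncomputable def dd : SDat := ⟨dt33, kcg, dt66, Kh.S⟩
noncomputable def gf0 : Sg := ⟨cv1m, skf0, sxf0⟩
noncomputable def gf1 : Sg := ⟨cv1m, skf1, sxf1⟩
noncomputable def gf2 : Sg := ⟨cv1p, skf2, sxf2⟩
noncomputable def gf3 : Sg := ⟨cv1r, skf2, sxf2⟩
noncomputable def gl0 : Sg := ⟨cv3m, skl0, sxl0⟩
noncomputable def gl1 : Sg := ⟨cv3m, skl1, sxl1⟩
noncomputable def gl2 : Sg := ⟨cv3p, skl2, sxl2⟩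
noncomputable def gl3 : Sg := ⟨cv3r, skl3, sxl3⟩
noncomputable def vv : Vt := ⟨(Cn.rt 3 50), (Cn.rt 577 500), (Cn.rt 231 200), (Cn.rt 13 10), k0c, m0c, sbk, sbx, rhk, rhx, bf1q2, bx1q2, (Cn.rt 6 25), (Cn.rt 577 500), skm, dt79⟩
noncomputable def ff (q : ℕ) : Sg := match q with
  | 0 => gf0
  | 1 => gf1
  | 2 => gf2
  | _ => gf3
noncomputable def fl (q : ℕ) : Sg := match q with
  | 0 => gl0
  | 1 => gl1
  | 2 => gl2
  | _ => gl3
noncomputable def tt : STab 4 := ⟨dd, 0, 3, ff, fl, vv⟩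
theorem kcl0 {p x : ℝ} (h1 : -1 / 2 ≤ p) (h2 : p ≤ -97 / 200) : kcg.v p x = (-1017137 / 15000000 + (x - 3 / 32) * (41606659 / 240000000)) + (-69013889 / 75000000 + (x - 3 / 32) * (59059591 / 120000000)) * p + (-1779 / 125000 + (x - 3 / 32) * (24201 / 200000)) * p ^ 2 := by
  simp only [kcg, kcg_3, kcg_6, kcg_9, kcg_12, kcg_13, kcg_18, kcg_28, kcg_36, kcg_41, kcg_49, kcg_57, kcg_58, kcg_63, kcg_71, kcg_76, kcg_81, kcg_89, kcg_98, kcg_101, kcg_102, kcg_107, kcg_115, kcg_120, kcg_125, kcg_134, kcg_142, kcg_143, kcg_148, kcg_159, kcg_167, kcg_172, kcg_185, kcg_190, kcg_198, kcg_199, kcg_200, kcg_221, kcg_242, kcg_243, kcg_263]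
  rcases eq_or_lt_of_le h1 with h | h1
  · subst h
    ((try push_cast); (repeat first | rw [if_pos (by linarith)] | rw [if_neg (by linarith)] | erw [if_pos (by linarith)] | erw [if_neg (by linarith)]); (try push_cast); (try ring1))
  rcases eq_or_lt_of_le h2 with h | h2
  · subst h
    ((try push_cast); (repeat first | rw [if_pos (by linarith)] | rw [if_neg (by linarith)] | erw [if_pos (by linarith)] | erw [if_neg (by linarith)]); (try push_cast); (try ring1))
  · ((try push_cast); (repeat first | rw [if_pos (by linarith)] | rw [if_neg (by linarith)] | erw [if_pos (by linarith)] | erw [if_neg (by linarith)]); (try push_cast); (try ring1))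
theorem kcl1 {p x : ℝ} (h1 : -97 / 200 ≤ p) (h2 : p ≤ -587 / 1262) : kcg.v p x = (-573091633357 / 7909585000000 + (x - 3 / 32) * (7261347008463 / 126553360000000)) + (-1160910435161 / 1235872656250 + (x - 3 / 32) * (877883114767 / 63276680000000)) * p + (-531 / 15625 + (x - 3 / 32) * (-74417 / 200000)) * p ^ 2 := by
  simp only [kcg, kcg_3, kcg_6, kcg_9, kcg_12, kcg_13, kcg_18, kcg_28, kcg_36, kcg_41, kcg_49, kcg_57, kcg_58, kcg_63, kcg_71, kcg_76, kcg_81, kcg_89, kcg_98, kcg_101, kcg_102, kcg_107, kcg_115, kcg_120, kcg_125, kcg_134, kcg_142, kcg_143, kcg_148, kcg_159, kcg_167, kcg_172, kcg_185, kcg_190, kcg_198, kcg_199, kcg_200, kcg_221, kcg_242, kcg_243, kcg_263]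
  rcases eq_or_lt_of_le h1 with h | h1
  · subst h
    ((try push_cast); (repeat first | rw [if_pos (by linarith)] | rw [if_neg (by linarith)] | erw [if_pos (by linarith)] | erw [if_neg (by linarith)]); (try push_cast); (try ring1))
  rcases eq_or_lt_of_le h2 with h | h2
  · subst h
    ((try push_cast); (repeat first | rw [if_pos (by linarith)] | rw [if_neg (by linarith)] | erw [if_pos (by linarith)] | erw [if_neg (by linarith)]); (try push_cast); (try ring1))
  · ((try push_cast); (repeat first | rw [if_pos (by linarith)] | rw [if_neg (by linarith)] | erw [if_pos (by linarith)] | erw [if_neg (by linarith)]); (try push_cast); (try ring1))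
theorem kcl2 {p x : ℝ} (h1 : -587 / 1262 ≤ p) (h2 : p ≤ -43 / 100) : kcg.v p x = (-16068240539629 / 186523600000000 + (x - 3 / 32) * (1787314984499 / 55957080000000)) + (-93095020975199 / 93261800000000 + (x - 3 / 32) * (-2671803593819 / 27978540000000)) * p + (-194527 / 2000000 + (x - 3 / 32) * (-97929 / 200000)) * p ^ 2 := by
  simp only [kcg, kcg_3, kcg_6, kcg_9, kcg_12, kcg_13, kcg_18, kcg_28, kcg_36, kcg_41, kcg_49, kcg_57, kcg_58, kcg_63, kcg_71, kcg_76, kcg_81, kcg_89, kcg_98, kcg_101, kcg_102, kcg_107, kcg_115, kcg_120, kcg_125, kcg_134, kcg_142, kcg_143, kcg_148, kcg_159, kcg_167, kcg_172, kcg_185, kcg_190, kcg_198, kcg_199, kcg_200, kcg_221, kcg_242, kcg_243, kcg_263]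
  rcases eq_or_lt_of_le h1 with h | h1
  · subst h
    ((try push_cast); (repeat first | rw [if_pos (by linarith)] | rw [if_neg (by linarith)] | erw [if_pos (by linarith)] | erw [if_neg (by linarith)]); (try push_cast); (try ring1))
  rcases eq_or_lt_of_le h2 with h | h2
  · subst h
    ((try push_cast); (repeat first | rw [if_pos (by linarith)] | rw [if_neg (by linarith)] | erw [if_pos (by linarith)] | erw [if_neg (by linarith)]); (try push_cast); (try ring1))
  · ((try push_cast); (repeat first | rw [if_pos (by linarith)] | rw [if_neg (by linarith)] | erw [if_pos (by linarith)] | erw [if_neg (by linarith)]); (try push_cast); (try ring1))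
theorem kcl3 {p x : ℝ} (h1 : -43 / 100 ≤ p) (h2 : p ≤ -613 / 1574) : kcg.v p x = (-22746839373701 / 251131700000000 + (x - 3 / 32) * (-1057774622669 / 6278292500000)) + (-25585875142153 / 25113170000000 + (x - 3 / 32) * (-645215884079 / 627829250000)) * p + (-12123 / 100000 + (x - 3 / 32) * (-1967 / 1250)) * p ^ 2 := by
  simp only [kcg, kcg_3, kcg_6, kcg_9, kcg_12, kcg_13, kcg_18, kcg_28, kcg_36, kcg_41, kcg_49, kcg_57, kcg_58, kcg_63, kcg_71, kcg_76, kcg_81, kcg_89, kcg_98, kcg_101, kcg_102, kcg_107, kcg_115, kcg_120, kcg_125, kcg_134, kcg_142, kcg_143, kcg_148, kcg_159, kcg_167, kcg_172, kcg_185, kcg_190, kcg_198, kcg_199, kcg_200, kcg_221, kcg_242, kcg_243, kcg_263]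
  rcases eq_or_lt_of_le h1 with h | h1
  · subst h
    ((try push_cast); (repeat first | rw [if_pos (by linarith)] | rw [if_neg (by linarith)] | erw [if_pos (by linarith)] | erw [if_neg (by linarith)]); (try push_cast); (try ring1))
  rcases eq_or_lt_of_le h2 with h | h2
  · subst h
    ((try push_cast); (repeat first | rw [if_pos (by linarith)] | rw [if_neg (by linarith)] | erw [if_pos (by linarith)] | erw [if_neg (by linarith)]); (try push_cast); (try ring1))
  · ((try push_cast); (repeat first | rw [if_pos (by linarith)] | rw [if_neg (by linarith)] | erw [if_pos (by linarith)] | erw [if_neg (by linarith)]); (try push_cast); (try ring1))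
theorem kcl4 {p x : ℝ} (h1 : -613 / 1574 ≤ p) (h2 : p ≤ -17 / 50) : kcg.v p x = (-12297412679231 / 153150200000000 + (x - 3 / 32) * (-1895979309611 / 15315020000000)) + (-231167438807 / 239297187500 + (x - 3 / 32) * (-244497792829 / 306300400000)) * p + (-21379 / 400000 + (x - 3 / 32) * (-1279 / 1000)) * p ^ 2 := by
  simp only [kcg, kcg_3, kcg_6, kcg_9, kcg_12, kcg_13, kcg_18, kcg_28, kcg_36, kcg_41, kcg_49, kcg_57, kcg_58, kcg_63, kcg_71, kcg_76, kcg_81, kcg_89, kcg_98, kcg_101, kcg_102, kcg_107, kcg_115, kcg_120, kcg_125, kcg_134, kcg_142, kcg_143, kcg_148, kcg_159, kcg_167, kcg_172, kcg_185, kcg_190, kcg_198, kcg_199, kcg_200, kcg_221, kcg_242, kcg_243, kcg_263]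
  rcases eq_or_lt_of_le h1 with h | h1
  · subst h
    ((try push_cast); (repeat first | rw [if_pos (by linarith)] | rw [if_neg (by linarith)] | erw [if_pos (by linarith)] | erw [if_neg (by linarith)]); (try push_cast); (try ring1))
  rcases eq_or_lt_of_le h2 with h | h2
  · subst h
    ((try push_cast); (repeat first | rw [if_pos (by linarith)] | rw [if_neg (by linarith)] | erw [if_pos (by linarith)] | erw [if_neg (by linarith)]); (try push_cast); (try ring1))
  · ((try push_cast); (repeat first | rw [if_pos (by linarith)] | rw [if_neg (by linarith)] | erw [if_pos (by linarith)] | erw [if_neg (by linarith)]); (try push_cast); (try ring1))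
theorem kcl5 {p x : ℝ} (h1 : -17 / 50 ≤ p) (h2 : p ≤ -1 / 4) : kcg.v p x = (-132658787 / 1800000000 + (x - 3 / 32) * (-11543 / 468750)) + (-834498049 / 900000000 + (x - 3 / 32) * (-644567 / 3000000)) * p + (3621 / 1000000 + (x - 3 / 32) * (-4211 / 10000)) * p ^ 2 := by
  simp only [kcg, kcg_3, kcg_6, kcg_9, kcg_12, kcg_13, kcg_18, kcg_28, kcg_36, kcg_41, kcg_49, kcg_57, kcg_58, kcg_63, kcg_71, kcg_76, kcg_81, kcg_89, kcg_98, kcg_101, kcg_102, kcg_107, kcg_115, kcg_120, kcg_125, kcg_134, kcg_142, kcg_143, kcg_148, kcg_159, kcg_167, kcg_172, kcg_185, kcg_190, kcg_198, kcg_199, kcg_200, kcg_221, kcg_242, kcg_243, kcg_263]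
  rcases eq_or_lt_of_le h1 with h | h1
  · subst h
    ((try push_cast); (repeat first | rw [if_pos (by linarith)] | rw [if_neg (by linarith)] | erw [if_pos (by linarith)] | erw [if_neg (by linarith)]); (try push_cast); (try ring1))
  rcases eq_or_lt_of_le h2 with h | h2
  · subst h
    ((try push_cast); (repeat first | rw [if_pos (by linarith)] | rw [if_neg (by linarith)] | erw [if_pos (by linarith)] | erw [if_neg (by linarith)]); (try push_cast); (try ring1))
  · ((try push_cast); (repeat first | rw [if_pos (by linarith)] | rw [if_neg (by linarith)] | erw [if_pos (by linarith)] | erw [if_neg (by linarith)]); (try push_cast); (try ring1))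
theorem kcl6 {p x : ℝ} (h1 : -1 / 4 ≤ p) (h2 : p ≤ -3 / 20) : kcg.v p x = (-11302311 / 160000000 + (x - 3 / 32) * (-429177 / 80000000)) + (-9027409 / 10000000 + (x - 3 / 32) * (-60773 / 1000000)) * p + (105159 / 2000000 + (x - 3 / 32) * (-22587 / 200000)) * p ^ 2 := by
  simp only [kcg, kcg_3, kcg_6, kcg_9, kcg_12, kcg_13, kcg_18, kcg_28, kcg_36, kcg_41, kcg_49, kcg_57, kcg_58, kcg_63, kcg_71, kcg_76, kcg_81, kcg_89, kcg_98, kcg_101, kcg_102, kcg_107, kcg_115, kcg_120, kcg_125, kcg_134, kcg_142, kcg_143, kcg_148, kcg_159, kcg_167, kcg_172, kcg_185, kcg_190, kcg_198, kcg_199, kcg_200, kcg_221, kcg_242, kcg_243, kcg_263]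
  rcases eq_or_lt_of_le h1 with h | h1
  · subst h
    ((try push_cast); (repeat first | rw [if_pos (by linarith)] | rw [if_neg (by linarith)] | erw [if_pos (by linarith)] | erw [if_neg (by linarith)]); (try push_cast); (try ring1))
  rcases eq_or_lt_of_le h2 with h | h2
  · subst h
    ((try push_cast); (repeat first | rw [if_pos (by linarith)] | rw [if_neg (by linarith)] | erw [if_pos (by linarith)] | erw [if_neg (by linarith)]); (try push_cast); (try ring1))
  · ((try push_cast); (repeat first | rw [if_pos (by linarith)] | rw [if_neg (by linarith)] | erw [if_pos (by linarith)] | erw [if_neg (by linarith)]); (try push_cast); (try ring1))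
theorem kcl7 {p x : ℝ} (h1 : -3 / 20 ≤ p) (h2 : p ≤ -3 / 50) : kcg.v p x = (82082827 / 6000000000 + (x - 3 / 32) * (107569 / 200000000)) + (398744129 / 1800000000 + (x - 3 / 32) * (1075703 / 60000000)) * p + (7600261 / 2000000 + (x - 3 / 32) * (29881 / 200000)) * p ^ 2 := by
  simp only [kcg, kcg_3, kcg_6, kcg_9, kcg_12, kcg_13, kcg_18, kcg_28, kcg_36, kcg_41, kcg_49, kcg_57, kcg_58, kcg_63, kcg_71, kcg_76, kcg_81, kcg_89, kcg_98, kcg_101, kcg_102, kcg_107, kcg_115, kcg_120, kcg_125, kcg_134, kcg_142, kcg_143, kcg_148, kcg_159, kcg_167, kcg_172, kcg_185, kcg_190, kcg_198, kcg_199, kcg_200, kcg_221, kcg_242, kcg_243, kcg_263]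
  rcases eq_or_lt_of_le h1 with h | h1
  · subst h
    ((try push_cast); (repeat first | rw [if_pos (by linarith)] | rw [if_neg (by linarith)] | erw [if_pos (by linarith)] | erw [if_neg (by linarith)]); (try push_cast); (try ring1))
  rcases eq_or_lt_of_le h2 with h | h2
  · subst h
    ((try push_cast); (repeat first | rw [if_pos (by linarith)] | rw [if_neg (by linarith)] | erw [if_pos (by linarith)] | erw [if_neg (by linarith)]); (try push_cast); (try ring1))
  · ((try push_cast); (repeat first | rw [if_pos (by linarith)] | rw [if_neg (by linarith)] | erw [if_pos (by linarith)] | erw [if_neg (by linarith)]); (try push_cast); (try ring1))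
theorem kcl8 {p x : ℝ} (h1 : -3 / 50 ≤ p) (h2 : p ≤ 3 / 50) : kcg.v p x = (0) + (-1406947 / 6000000) * p := by
  simp only [kcg, kcg_3, kcg_6, kcg_9, kcg_12, kcg_13, kcg_18, kcg_28, kcg_36, kcg_41, kcg_49, kcg_57, kcg_58, kcg_63, kcg_71, kcg_76, kcg_81, kcg_89, kcg_98, kcg_101, kcg_102, kcg_107, kcg_115, kcg_120, kcg_125, kcg_134, kcg_142, kcg_143, kcg_148, kcg_159, kcg_167, kcg_172, kcg_185, kcg_190, kcg_198, kcg_199, kcg_200, kcg_221, kcg_242, kcg_243, kcg_263]
  rcases eq_or_lt_of_le h1 with h | h1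
  · subst h
    ((try push_cast); (repeat first | rw [if_pos (by linarith)] | rw [if_neg (by linarith)] | erw [if_pos (by linarith)] | erw [if_neg (by linarith)]); (try push_cast); (try ring1))
  rcases eq_or_lt_of_le h2 with h | h2
  · subst h
    ((try push_cast); (repeat first | rw [if_pos (by linarith)] | rw [if_neg (by linarith)] | erw [if_pos (by linarith)] | erw [if_neg (by linarith)]); (try push_cast); (try ring1))
  rcases lt_trichotomy p 0 with h | h | h
  · ((try push_cast); (repeat first | rw [if_pos (by linarith)] | rw [if_neg (by linarith)] | erw [if_pos (by linarith)] | erw [if_neg (by linarith)]); (try push_cast); (try ring1))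
  · subst h
    ((try push_cast); (repeat first | rw [if_pos (by linarith)] | rw [if_neg (by linarith)] | erw [if_pos (by linarith)] | erw [if_neg (by linarith)]); (try push_cast); (try ring1))
  · ((try push_cast); (repeat first | rw [if_pos (by linarith)] | rw [if_neg (by linarith)] | erw [if_pos (by linarith)] | erw [if_neg (by linarith)]); (try push_cast); (try ring1))
theorem kcl9 {p x : ℝ} (h1 : 3 / 50 ≤ p) (h2 : p ≤ 3 / 20) : kcg.v p x = (-82082827 / 6000000000 + (x - 3 / 32) * (-107569 / 200000000)) + (398744129 / 1800000000 + (x - 3 / 32) * (1075703 / 60000000)) * p + (-7600261 / 2000000 + (x - 3 / 32) * (-29881 / 200000)) * p ^ 2 := by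
  simp only [kcg, kcg_3, kcg_6, kcg_9, kcg_12, kcg_13, kcg_18, kcg_28, kcg_36, kcg_41, kcg_49, kcg_57, kcg_58, kcg_63, kcg_71, kcg_76, kcg_81, kcg_89, kcg_98, kcg_101, kcg_102, kcg_107, kcg_115, kcg_120, kcg_125, kcg_134, kcg_142, kcg_143, kcg_148, kcg_159, kcg_167, kcg_172, kcg_185, kcg_190, kcg_198, kcg_199, kcg_200, kcg_221, kcg_242, kcg_243, kcg_263]
  rcases eq_or_lt_of_le h1 with h | h1
  · subst h
    ((try push_cast); (repeat first | rw [if_pos (by linarith)] | rw [if_neg (by linarith)] | erw [if_pos (by linarith)] | erw [if_neg (by linarith)]); (try push_cast); (try ring1))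
  rcases eq_or_lt_of_le h2 with h | h2
  · subst h
    ((try push_cast); (repeat first | rw [if_pos (by linarith)] | rw [if_neg (by linarith)] | erw [if_pos (by linarith)] | erw [if_neg (by linarith)]); (try push_cast); (try ring1))
  · ((try push_cast); (repeat first | rw [if_pos (by linarith)] | rw [if_neg (by linarith)] | erw [if_pos (by linarith)] | erw [if_neg (by linarith)]); (try push_cast); (try ring1))
theorem kcl10 {p x : ℝ} (h1 : 3 / 20 ≤ p) (h2 : p ≤ 1 / 4) : kcg.v p x = (11302311 / 160000000 + (x - 3 / 32) * (429177 / 80000000)) + (-9027409 / 10000000 + (x - 3 / 32) * (-60773 / 1000000)) * p + (-105159 / 2000000 + (x - 3 / 32) * (22587 / 200000)) * p ^ 2 := by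
  simp only [kcg, kcg_3, kcg_6, kcg_9, kcg_12, kcg_13, kcg_18, kcg_28, kcg_36, kcg_41, kcg_49, kcg_57, kcg_58, kcg_63, kcg_71, kcg_76, kcg_81, kcg_89, kcg_98, kcg_101, kcg_102, kcg_107, kcg_115, kcg_120, kcg_125, kcg_134, kcg_142, kcg_143, kcg_148, kcg_159, kcg_167, kcg_172, kcg_185, kcg_190, kcg_198, kcg_199, kcg_200, kcg_221, kcg_242, kcg_243, kcg_263]
  rcases eq_or_lt_of_le h1 with h | h1
  · subst h
    ((try push_cast); (repeat first | rw [if_pos (by linarith)] | rw [if_neg (by linarith)] | erw [if_pos (by linarith)] | erw [if_neg (by linarith)]); (try push_cast); (try ring1))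
  rcases eq_or_lt_of_le h2 with h | h2
  · subst h
    ((try push_cast); (repeat first | rw [if_pos (by linarith)] | rw [if_neg (by linarith)] | erw [if_pos (by linarith)] | erw [if_neg (by linarith)]); (try push_cast); (try ring1))
  · ((try push_cast); (repeat first | rw [if_pos (by linarith)] | rw [if_neg (by linarith)] | erw [if_pos (by linarith)] | erw [if_neg (by linarith)]); (try push_cast); (try ring1))
theorem kcl11 {p x : ℝ} (h1 : 1 / 4 ≤ p) (h2 : p ≤ 17 / 50) : kcg.v p x = (132658787 / 1800000000 + (x - 3 / 32) * (11543 / 468750)) + (-834498049 / 900000000 + (x - 3 / 32) * (-644567 / 3000000)) * p + (-3621 / 1000000 + (x - 3 / 32) * (4211 / 10000)) * p ^ 2 := by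
  simp only [kcg, kcg_3, kcg_6, kcg_9, kcg_12, kcg_13, kcg_18, kcg_28, kcg_36, kcg_41, kcg_49, kcg_57, kcg_58, kcg_63, kcg_71, kcg_76, kcg_81, kcg_89, kcg_98, kcg_101, kcg_102, kcg_107, kcg_115, kcg_120, kcg_125, kcg_134, kcg_142, kcg_143, kcg_148, kcg_159, kcg_167, kcg_172, kcg_185, kcg_190, kcg_198, kcg_199, kcg_200, kcg_221, kcg_242, kcg_243, kcg_263]
  rcases eq_or_lt_of_le h1 with h | h1
  · subst h
    ((try push_cast); (repeat first | rw [if_pos (by linarith)] | rw [if_neg (by linarith)] | erw [if_pos (by linarith)] | erw [if_neg (by linarith)]); (try push_cast); (try ring1))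
  rcases eq_or_lt_of_le h2 with h | h2
  · subst h
    ((try push_cast); (repeat first | rw [if_pos (by linarith)] | rw [if_neg (by linarith)] | erw [if_pos (by linarith)] | erw [if_neg (by linarith)]); (try push_cast); (try ring1))
  · ((try push_cast); (repeat first | rw [if_pos (by linarith)] | rw [if_neg (by linarith)] | erw [if_pos (by linarith)] | erw [if_neg (by linarith)]); (try push_cast); (try ring1))
theorem kcl12 {p x : ℝ} (h1 : 17 / 50 ≤ p) (h2 : p ≤ 613 / 1574) : kcg.v p x = (12297412679231 / 153150200000000 + (x - 3 / 32) * (1895979309611 / 15315020000000)) + (-231167438807 / 239297187500 + (x - 3 / 32) * (-244497792829 / 306300400000)) * p + (21379 / 400000 + (x - 3 / 32) * (1279 / 1000)) * p ^ 2 := by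
  simp only [kcg, kcg_3, kcg_6, kcg_9, kcg_12, kcg_13, kcg_18, kcg_28, kcg_36, kcg_41, kcg_49, kcg_57, kcg_58, kcg_63, kcg_71, kcg_76, kcg_81, kcg_89, kcg_98, kcg_101, kcg_102, kcg_107, kcg_115, kcg_120, kcg_125, kcg_134, kcg_142, kcg_143, kcg_148, kcg_159, kcg_167, kcg_172, kcg_185, kcg_190, kcg_198, kcg_199, kcg_200, kcg_221, kcg_242, kcg_243, kcg_263]
  rcases eq_or_lt_of_le h1 with h | h1
  · subst h
    ((try push_cast); (repeat first | rw [if_pos (by linarith)] | rw [if_neg (by linarith)] | erw [if_pos (by linarith)] | erw [if_neg (by linarith)]); (try push_cast); (try ring1))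
  rcases eq_or_lt_of_le h2 with h | h2
  · subst h
    ((try push_cast); (repeat first | rw [if_pos (by linarith)] | rw [if_neg (by linarith)] | erw [if_pos (by linarith)] | erw [if_neg (by linarith)]); (try push_cast); (try ring1))
  · ((try push_cast); (repeat first | rw [if_pos (by linarith)] | rw [if_neg (by linarith)] | erw [if_pos (by linarith)] | erw [if_neg (by linarith)]); (try push_cast); (try ring1))
theorem kcl13 {p x : ℝ} (h1 : 613 / 1574 ≤ p) (h2 : p ≤ 43 / 100) : kcg.v p x = (22746839373701 / 251131700000000 + (x - 3 / 32) * (1057774622669 / 6278292500000)) + (-25585875142153 / 25113170000000 + (x - 3 / 32) * (-645215884079 / 627829250000)) * p + (12123 / 100000 + (x - 3 / 32) * (1967 / 1250)) * p ^ 2 := by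
  simp only [kcg, kcg_3, kcg_6, kcg_9, kcg_12, kcg_13, kcg_18, kcg_28, kcg_36, kcg_41, kcg_49, kcg_57, kcg_58, kcg_63, kcg_71, kcg_76, kcg_81, kcg_89, kcg_98, kcg_101, kcg_102, kcg_107, kcg_115, kcg_120, kcg_125, kcg_134, kcg_142, kcg_143, kcg_148, kcg_159, kcg_167, kcg_172, kcg_185, kcg_190, kcg_198, kcg_199, kcg_200, kcg_221, kcg_242, kcg_243, kcg_263]
  rcases eq_or_lt_of_le h1 with h | h1
  · subst h
    ((try push_cast); (repeat first | rw [if_pos (by linarith)] | rw [if_neg (by linarith)] | erw [if_pos (by linarith)] | erw [if_neg (by linarith)]); (try push_cast); (try ring1))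
  rcases eq_or_lt_of_le h2 with h | h2
  · subst h
    ((try push_cast); (repeat first | rw [if_pos (by linarith)] | rw [if_neg (by linarith)] | erw [if_pos (by linarith)] | erw [if_neg (by linarith)]); (try push_cast); (try ring1))
  · ((try push_cast); (repeat first | rw [if_pos (by linarith)] | rw [if_neg (by linarith)] | erw [if_pos (by linarith)] | erw [if_neg (by linarith)]); (try push_cast); (try ring1))
theorem kcl14 {p x : ℝ} (h1 : 43 / 100 ≤ p) (h2 : p ≤ 587 / 1262) : kcg.v p x = (16068240539629 / 186523600000000 + (x - 3 / 32) * (-1787314984499 / 55957080000000)) + (-93095020975199 / 93261800000000 + (x - 3 / 32) * (-2671803593819 / 27978540000000)) * p + (194527 / 2000000 + (x - 3 / 32) * (97929 / 200000)) * p ^ 2 := by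
  simp only [kcg, kcg_3, kcg_6, kcg_9, kcg_12, kcg_13, kcg_18, kcg_28, kcg_36, kcg_41, kcg_49, kcg_57, kcg_58, kcg_63, kcg_71, kcg_76, kcg_81, kcg_89, kcg_98, kcg_101, kcg_102, kcg_107, kcg_115, kcg_120, kcg_125, kcg_134, kcg_142, kcg_143, kcg_148, kcg_159, kcg_167, kcg_172, kcg_185, kcg_190, kcg_198, kcg_199, kcg_200, kcg_221, kcg_242, kcg_243, kcg_263]
  rcases eq_or_lt_of_le h1 with h | h1
  · subst h
    ((try push_cast); (repeat first | rw [if_pos (by linarith)] | rw [if_neg (by linarith)] | erw [if_pos (by linarith)] | erw [if_neg (by linarith)]); (try push_cast); (try ring1))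
  rcases eq_or_lt_of_le h2 with h | h2
  · subst h
    ((try push_cast); (repeat first | rw [if_pos (by linarith)] | rw [if_neg (by linarith)] | erw [if_pos (by linarith)] | erw [if_neg (by linarith)]); (try push_cast); (try ring1))
  · ((try push_cast); (repeat first | rw [if_pos (by linarith)] | rw [if_neg (by linarith)] | erw [if_pos (by linarith)] | erw [if_neg (by linarith)]); (try push_cast); (try ring1))
theorem kcl15 {p x : ℝ} (h1 : 587 / 1262 ≤ p) (h2 : p ≤ 97 / 200) : kcg.v p x = (573091633357 / 7909585000000 + (x - 3 / 32) * (-7261347008463 / 126553360000000)) + (-1160910435161 / 1235872656250 + (x - 3 / 32) * (877883114767 / 63276680000000)) * p + (531 / 15625 + (x - 3 / 32) * (74417 / 200000)) * p ^ 2 := by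
  simp only [kcg, kcg_3, kcg_6, kcg_9, kcg_12, kcg_13, kcg_18, kcg_28, kcg_36, kcg_41, kcg_49, kcg_57, kcg_58, kcg_63, kcg_71, kcg_76, kcg_81, kcg_89, kcg_98, kcg_101, kcg_102, kcg_107, kcg_115, kcg_120, kcg_125, kcg_134, kcg_142, kcg_143, kcg_148, kcg_159, kcg_167, kcg_172, kcg_185, kcg_190, kcg_198, kcg_199, kcg_200, kcg_221, kcg_242, kcg_243, kcg_263]
  rcases eq_or_lt_of_le h1 with h | h1
  · subst h
    ((try push_cast); (repeat first | rw [if_pos (by linarith)] | rw [if_neg (by linarith)] | erw [if_pos (by linarith)] | erw [if_neg (by linarith)]); (try push_cast); (try ring1))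
  rcases eq_or_lt_of_le h2 with h | h2
  · subst h
    ((try push_cast); (repeat first | rw [if_pos (by linarith)] | rw [if_neg (by linarith)] | erw [if_pos (by linarith)] | erw [if_neg (by linarith)]); (try push_cast); (try ring1))
  · ((try push_cast); (repeat first | rw [if_pos (by linarith)] | rw [if_neg (by linarith)] | erw [if_pos (by linarith)] | erw [if_neg (by linarith)]); (try push_cast); (try ring1))
theorem kcl16 {p x : ℝ} (h1 : 97 / 200 ≤ p) (h2 : p ≤ 1 / 2) : kcg.v p x = (1017137 / 15000000 + (x - 3 / 32) * (-41606659 / 240000000)) + (-69013889 / 75000000 + (x - 3 / 32) * (59059591 / 120000000)) * p + (1779 / 125000 + (x - 3 / 32) * (-24201 / 200000)) * p ^ 2 := by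
  simp only [kcg, kcg_3, kcg_6, kcg_9, kcg_12, kcg_13, kcg_18, kcg_28, kcg_36, kcg_41, kcg_49, kcg_57, kcg_58, kcg_63, kcg_71, kcg_76, kcg_81, kcg_89, kcg_98, kcg_101, kcg_102, kcg_107, kcg_115, kcg_120, kcg_125, kcg_134, kcg_142, kcg_143, kcg_148, kcg_159, kcg_167, kcg_172, kcg_185, kcg_190, kcg_198, kcg_199, kcg_200, kcg_221, kcg_242, kcg_243, kcg_263]
  rcases eq_or_lt_of_le h1 with h | h1
  · subst h
    ((try push_cast); (repeat first | rw [if_pos (by linarith)] | rw [if_neg (by linarith)] | erw [if_pos (by linarith)] | erw [if_neg (by linarith)]); (try push_cast); (try ring1))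
  rcases eq_or_lt_of_le h2 with h | h2
  · subst h
    ((try push_cast); (repeat first | rw [if_pos (by linarith)] | rw [if_neg (by linarith)] | erw [if_pos (by linarith)] | erw [if_neg (by linarith)]); (try push_cast); (try ring1))
  · ((try push_cast); (repeat first | rw [if_pos (by linarith)] | rw [if_neg (by linarith)] | erw [if_pos (by linarith)] | erw [if_neg (by linarith)]); (try push_cast); (try ring1))
theorem kvh0 {p x : ℝ} (h2 : p ≤ -97 / 200) : dt33.kv p x = (-1017137 / 15000000 + (x - 3 / 32) * (41606659 / 240000000)) + (-69013889 / 75000000 + (x - 3 / 32) * (59059591 / 120000000)) * p + (-1779 / 125000 + (x - 3 / 32) * (24201 / 200000)) * p ^ 2 := by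
  refine (DT.kv_le (by simp only [Cn.rt_v, Cn.ng_v]; push_cast; linarith)).trans ?_
  refine (DT.kv_le (by simp only [Cn.rt_v, Cn.ng_v]; push_cast; linarith)).trans ?_
  refine (DT.kv_le (by simp only [Cn.rt_v, Cn.ng_v]; push_cast; linarith)).trans ?_
  refine (DT.kv_le (by simp only [Cn.rt_v, Cn.ng_v]; push_cast; linarith)).trans ?_
  simp only [dt1, DT.kv, sw1, sl1, sv1]
  ((try push_cast); ring1)
theorem kvh1 {p x : ℝ} (h1 : -97 / 200 < p) (h2 : p ≤ -587 / 1262) : dt33.kv p x = (-573091633357 / 7909585000000 + (x - 3 / 32) * (7261347008463 / 126553360000000)) + (-1160910435161 / 1235872656250 + (x - 3 / 32) * (877883114767 / 63276680000000)) * p + (-531 / 15625 + (x - 3 / 32) * (-74417 / 200000)) * p ^ 2 := by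
  refine (DT.kv_le (by simp only [Cn.rt_v, Cn.ng_v]; push_cast; linarith)).trans ?_
  refine (DT.kv_le (by simp only [Cn.rt_v, Cn.ng_v]; push_cast; linarith)).trans ?_
  refine (DT.kv_le (by simp only [Cn.rt_v, Cn.ng_v]; push_cast; linarith)).trans ?_
  refine (DT.kv_gt (by simp only [Cn.rt_v, Cn.ng_v]; push_cast; linarith)).trans ?_
  simp only [dt2, DT.kv, sw2, sl2, sv2]
  ((try push_cast); ring1)
theorem kvh2 {p x : ℝ} (h1 : -587 / 1262 < p) (h2 : p ≤ -43 / 100) : dt33.kv p x = (-16068240539629 / 186523600000000 + (x - 3 / 32) * (1787314984499 / 55957080000000)) + (-93095020975199 / 93261800000000 + (x - 3 / 32) * (-2671803593819 / 27978540000000)) * p + (-194527 / 2000000 + (x - 3 / 32) * (-97929 / 200000)) * p ^ 2 := by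
  refine (DT.kv_le (by simp only [Cn.rt_v, Cn.ng_v]; push_cast; linarith)).trans ?_
  refine (DT.kv_le (by simp only [Cn.rt_v, Cn.ng_v]; push_cast; linarith)).trans ?_
  refine (DT.kv_gt (by simp only [Cn.rt_v, Cn.ng_v]; push_cast; linarith)).trans ?_
  refine (DT.kv_le (by simp only [Cn.rt_v, Cn.ng_v]; push_cast; linarith)).trans ?_
  simp only [dt3, DT.kv, sw3, sl3, sv3]
  ((try push_cast); ring1)
theorem kvh3 {p x : ℝ} (h1 : -43 / 100 < p) (h2 : p ≤ -613 / 1574) : dt33.kv p x = (-22746839373701 / 251131700000000 + (x - 3 / 32) * (-1057774622669 / 6278292500000)) + (-25585875142153 / 25113170000000 + (x - 3 / 32) * (-645215884079 / 627829250000)) * p + (-12123 / 100000 + (x - 3 / 32) * (-1967 / 1250)) * p ^ 2 := by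
  refine (DT.kv_le (by simp only [Cn.rt_v, Cn.ng_v]; push_cast; linarith)).trans ?_
  refine (DT.kv_le (by simp only [Cn.rt_v, Cn.ng_v]; push_cast; linarith)).trans ?_
  refine (DT.kv_gt (by simp only [Cn.rt_v, Cn.ng_v]; push_cast; linarith)).trans ?_
  refine (DT.kv_gt (by simp only [Cn.rt_v, Cn.ng_v]; push_cast; linarith)).trans ?_
  simp only [dt4, DT.kv, sw4, sl4, sv4]
  ((try push_cast); ring1)
theorem kvh4 {p x : ℝ} (h1 : -613 / 1574 < p) (h2 : p ≤ -17 / 50) : dt33.kv p x = (-12297412679231 / 153150200000000 + (x - 3 / 32) * (-1895979309611 / 15315020000000)) + (-231167438807 / 239297187500 + (x - 3 / 32) * (-244497792829 / 306300400000)) * p + (-21379 / 400000 + (x - 3 / 32) * (-1279 / 1000)) * p ^ 2 := by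
  refine (DT.kv_le (by simp only [Cn.rt_v, Cn.ng_v]; push_cast; linarith)).trans ?_
  refine (DT.kv_gt (by simp only [Cn.rt_v, Cn.ng_v]; push_cast; linarith)).trans ?_
  refine (DT.kv_le (by simp only [Cn.rt_v, Cn.ng_v]; push_cast; linarith)).trans ?_
  refine (DT.kv_le (by simp only [Cn.rt_v, Cn.ng_v]; push_cast; linarith)).trans ?_
  simp only [dt5, DT.kv, sw5, sl5, sv5]
  ((try push_cast); ring1)
theorem kvh5 {p x : ℝ} (h1 : -17 / 50 < p) (h2 : p ≤ -1 / 4) : dt33.kv p x = (-132658787 / 1800000000 + (x - 3 / 32) * (-11543 / 468750)) + (-834498049 / 900000000 + (x - 3 / 32) * (-644567 / 3000000)) * p + (3621 / 1000000 + (x - 3 / 32) * (-4211 / 10000)) * p ^ 2 := by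
  refine (DT.kv_le (by simp only [Cn.rt_v, Cn.ng_v]; push_cast; linarith)).trans ?_
  refine (DT.kv_gt (by simp only [Cn.rt_v, Cn.ng_v]; push_cast; linarith)).trans ?_
  refine (DT.kv_le (by simp only [Cn.rt_v, Cn.ng_v]; push_cast; linarith)).trans ?_
  refine (DT.kv_gt (by simp only [Cn.rt_v, Cn.ng_v]; push_cast; linarith)).trans ?_
  simp only [dt6, DT.kv, sw6, sl6, sv6]
  ((try push_cast); ring1)
theorem kvh6 {p x : ℝ} (h1 : -1 / 4 < p) (h2 : p ≤ -3 / 20) : dt33.kv p x = (-11302311 / 160000000 + (x - 3 / 32) * (-429177 / 80000000)) + (-9027409 / 10000000 + (x - 3 / 32) * (-60773 / 1000000)) * p + (105159 / 2000000 + (x - 3 / 32) * (-22587 / 200000)) * p ^ 2 := by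
  refine (DT.kv_le (by simp only [Cn.rt_v, Cn.ng_v]; push_cast; linarith)).trans ?_
  refine (DT.kv_gt (by simp only [Cn.rt_v, Cn.ng_v]; push_cast; linarith)).trans ?_
  refine (DT.kv_gt (by simp only [Cn.rt_v, Cn.ng_v]; push_cast; linarith)).trans ?_
  refine (DT.kv_le (by simp only [Cn.rt_v, Cn.ng_v]; push_cast; linarith)).trans ?_
  simp only [dt7, DT.kv, sw7, sl7, sv7]
  ((try push_cast); ring1)
theorem kvh7 {p x : ℝ} (h1 : -3 / 20 < p) (h2 : p ≤ -3 / 50) : dt33.kv p x = (82082827 / 6000000000 + (x - 3 / 32) * (107569 / 200000000)) + (398744129 / 1800000000 + (x - 3 / 32) * (1075703 / 60000000)) * p + (7600261 / 2000000 + (x - 3 / 32) * (29881 / 200000)) * p ^ 2 := by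
  refine (DT.kv_le (by simp only [Cn.rt_v, Cn.ng_v]; push_cast; linarith)).trans ?_
  refine (DT.kv_gt (by simp only [Cn.rt_v, Cn.ng_v]; push_cast; linarith)).trans ?_
  refine (DT.kv_gt (by simp only [Cn.rt_v, Cn.ng_v]; push_cast; linarith)).trans ?_
  refine (DT.kv_gt (by simp only [Cn.rt_v, Cn.ng_v]; push_cast; linarith)).trans ?_
  simp only [dt8, DT.kv, sw8, sl8, sv8]
  ((try push_cast); ring1)
theorem kvh8 {p x : ℝ} (h1 : -3 / 50 < p) (h2 : p ≤ 3 / 50) : dt33.kv p x = (0) + (-1406947 / 6000000) * p := by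
  refine (DT.kv_gt (by simp only [Cn.rt_v, Cn.ng_v]; push_cast; linarith)).trans ?_
  refine (DT.kv_le (by simp only [Cn.rt_v, Cn.ng_v]; push_cast; linarith)).trans ?_
  refine (DT.kv_le (by simp only [Cn.rt_v, Cn.ng_v]; push_cast; linarith)).trans ?_
  refine (DT.kv_le (by simp only [Cn.rt_v, Cn.ng_v]; push_cast; linarith)).trans ?_
  simp only [dt9, DT.kv, sl9, sv9]
  ((try push_cast); ring1)
theorem kvh9 {p x : ℝ} (h1 : 3 / 50 < p) (h2 : p ≤ 3 / 20) : dt33.kv p x = (-82082827 / 6000000000 + (x - 3 / 32) * (-107569 / 200000000)) + (398744129 / 1800000000 + (x - 3 / 32) * (1075703 / 60000000)) * p + (-7600261 / 2000000 + (x - 3 / 32) * (-29881 / 200000)) * p ^ 2 := by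
  refine (DT.kv_gt (by simp only [Cn.rt_v, Cn.ng_v]; push_cast; linarith)).trans ?_
  refine (DT.kv_le (by simp only [Cn.rt_v, Cn.ng_v]; push_cast; linarith)).trans ?_
  refine (DT.kv_le (by simp only [Cn.rt_v, Cn.ng_v]; push_cast; linarith)).trans ?_
  refine (DT.kv_gt (by simp only [Cn.rt_v, Cn.ng_v]; push_cast; linarith)).trans ?_
  simp only [dt10, DT.kv, sw10, sl10, sv10]
  ((try push_cast); ring1)
theorem kvh10 {p x : ℝ} (h1 : 3 / 20 < p) (h2 : p ≤ 1 / 4) : dt33.kv p x = (11302311 / 160000000 + (x - 3 / 32) * (429177 / 80000000)) + (-9027409 / 10000000 + (x - 3 / 32) * (-60773 / 1000000)) * p + (-105159 / 2000000 + (x - 3 / 32) * (22587 / 200000)) * p ^ 2 := by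
  refine (DT.kv_gt (by simp only [Cn.rt_v, Cn.ng_v]; push_cast; linarith)).trans ?_
  refine (DT.kv_le (by simp only [Cn.rt_v, Cn.ng_v]; push_cast; linarith)).trans ?_
  refine (DT.kv_gt (by simp only [Cn.rt_v, Cn.ng_v]; push_cast; linarith)).trans ?_
  refine (DT.kv_le (by simp only [Cn.rt_v, Cn.ng_v]; push_cast; linarith)).trans ?_
  simp only [dt11, DT.kv, sw11, sl11, sv11]
  ((try push_cast); ring1)
theorem kvh11 {p x : ℝ} (h1 : 1 / 4 < p) (h2 : p ≤ 17 / 50) : dt33.kv p x = (132658787 / 1800000000 + (x - 3 / 32) * (11543 / 468750)) + (-834498049 / 900000000 + (x - 3 / 32) * (-644567 / 3000000)) * p + (-3621 / 1000000 + (x - 3 / 32) * (4211 / 10000)) * p ^ 2 := by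
  refine (DT.kv_gt (by simp only [Cn.rt_v, Cn.ng_v]; push_cast; linarith)).trans ?_
  refine (DT.kv_le (by simp only [Cn.rt_v, Cn.ng_v]; push_cast; linarith)).trans ?_
  refine (DT.kv_gt (by simp only [Cn.rt_v, Cn.ng_v]; push_cast; linarith)).trans ?_
  refine (DT.kv_gt (by simp only [Cn.rt_v, Cn.ng_v]; push_cast; linarith)).trans ?_
  simp only [dt12, DT.kv, sw12, sl12, sv12]
  ((try push_cast); ring1)
theorem kvh12 {p x : ℝ} (h1 : 17 / 50 < p) (h2 : p ≤ 613 / 1574) : dt33.kv p x = (12297412679231 / 153150200000000 + (x - 3 / 32) * (1895979309611 / 15315020000000)) + (-231167438807 / 239297187500 + (x - 3 / 32) * (-244497792829 / 306300400000)) * p + (21379 / 400000 + (x - 3 / 32) * (1279 / 1000)) * p ^ 2 := by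
  refine (DT.kv_gt (by simp only [Cn.rt_v, Cn.ng_v]; push_cast; linarith)).trans ?_
  refine (DT.kv_gt (by simp only [Cn.rt_v, Cn.ng_v]; push_cast; linarith)).trans ?_
  refine (DT.kv_le (by simp only [Cn.rt_v, Cn.ng_v]; push_cast; linarith)).trans ?_
  refine (DT.kv_le (by simp only [Cn.rt_v, Cn.ng_v]; push_cast; linarith)).trans ?_
  simp only [dt13, DT.kv, sw13, sl13, sv13]
  ((try push_cast); ring1)
theorem kvh13 {p x : ℝ} (h1 : 613 / 1574 < p) (h2 : p ≤ 43 / 100) : dt33.kv p x = (22746839373701 / 251131700000000 + (x - 3 / 32) * (1057774622669 / 6278292500000)) + (-25585875142153 / 25113170000000 + (x - 3 / 32) * (-645215884079 / 627829250000)) * p + (12123 / 100000 + (x - 3 / 32) * (1967 / 1250)) * p ^ 2 := by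
  refine (DT.kv_gt (by simp only [Cn.rt_v, Cn.ng_v]; push_cast; linarith)).trans ?_
  refine (DT.kv_gt (by simp only [Cn.rt_v, Cn.ng_v]; push_cast; linarith)).trans ?_
  refine (DT.kv_le (by simp only [Cn.rt_v, Cn.ng_v]; push_cast; linarith)).trans ?_
  refine (DT.kv_gt (by simp only [Cn.rt_v, Cn.ng_v]; push_cast; linarith)).trans ?_
  simp only [dt14, DT.kv, sw14, sl14, sv14]
  ((try push_cast); ring1)
theorem kvh14 {p x : ℝ} (h1 : 43 / 100 < p) (h2 : p ≤ 587 / 1262) : dt33.kv p x = (16068240539629 / 186523600000000 + (x - 3 / 32) * (-1787314984499 / 55957080000000)) + (-93095020975199 / 93261800000000 + (x - 3 / 32) * (-2671803593819 / 27978540000000)) * p + (194527 / 2000000 + (x - 3 / 32) * (97929 / 200000)) * p ^ 2 := by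
  refine (DT.kv_gt (by simp only [Cn.rt_v, Cn.ng_v]; push_cast; linarith)).trans ?_
  refine (DT.kv_gt (by simp only [Cn.rt_v, Cn.ng_v]; push_cast; linarith)).trans ?_
  refine (DT.kv_gt (by simp only [Cn.rt_v, Cn.ng_v]; push_cast; linarith)).trans ?_
  refine (DT.kv_le (by simp only [Cn.rt_v, Cn.ng_v]; push_cast; linarith)).trans ?_
  simp only [dt15, DT.kv, sw15, sl15, sv15]
  ((try push_cast); ring1)
theorem kvh15 {p x : ℝ} (h1 : 587 / 1262 < p) (h2 : p ≤ 97 / 200) : dt33.kv p x = (573091633357 / 7909585000000 + (x - 3 / 32) * (-7261347008463 / 126553360000000)) + (-1160910435161 / 1235872656250 + (x - 3 / 32) * (877883114767 / 63276680000000)) * p + (531 / 15625 + (x - 3 / 32) * (74417 / 200000)) * p ^ 2 := by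
  refine (DT.kv_gt (by simp only [Cn.rt_v, Cn.ng_v]; push_cast; linarith)).trans ?_
  refine (DT.kv_gt (by simp only [Cn.rt_v, Cn.ng_v]; push_cast; linarith)).trans ?_
  refine (DT.kv_gt (by simp only [Cn.rt_v, Cn.ng_v]; push_cast; linarith)).trans ?_
  refine (DT.kv_gt (by simp only [Cn.rt_v, Cn.ng_v]; push_cast; linarith)).trans ?_
  refine (DT.kv_le (by simp only [Cn.rt_v, Cn.ng_v]; push_cast; linarith)).trans ?_
  simp only [dt16, DT.kv, sw16, sl16, sv16]
  ((try push_cast); ring1)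
theorem kvh16 {p x : ℝ} (h1 : 97 / 200 < p) (h2 : p ≤ 1 / 2) : dt33.kv p x = (1017137 / 15000000 + (x - 3 / 32) * (-41606659 / 240000000)) + (-69013889 / 75000000 + (x - 3 / 32) * (59059591 / 120000000)) * p + (1779 / 125000 + (x - 3 / 32) * (-24201 / 200000)) * p ^ 2 := by
  refine (DT.kv_gt (by simp only [Cn.rt_v, Cn.ng_v]; push_cast; linarith)).trans ?_
  refine (DT.kv_gt (by simp only [Cn.rt_v, Cn.ng_v]; push_cast; linarith)).trans ?_
  refine (DT.kv_gt (by simp only [Cn.rt_v, Cn.ng_v]; push_cast; linarith)).trans ?_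
  refine (DT.kv_gt (by simp only [Cn.rt_v, Cn.ng_v]; push_cast; linarith)).trans ?_
  refine (DT.kv_gt (by simp only [Cn.rt_v, Cn.ng_v]; push_cast; linarith)).trans ?_
  simp only [dt17, DT.kv, sw17, sl17, sv17]
  ((try push_cast); ring1)
theorem kvl0 {p x : ℝ} (h1 : -1 / 2 ≤ p) (h2 : p ≤ -97 / 200) : dt33.kv p x = (-1017137 / 15000000 + (x - 3 / 32) * (41606659 / 240000000)) + (-69013889 / 75000000 + (x - 3 / 32) * (59059591 / 120000000)) * p + (-1779 / 125000 + (x - 3 / 32) * (24201 / 200000)) * p ^ 2 := by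
  exact kvh0 h2
theorem kvl1 {p x : ℝ} (h1 : -97 / 200 ≤ p) (h2 : p ≤ -587 / 1262) : dt33.kv p x = (-573091633357 / 7909585000000 + (x - 3 / 32) * (7261347008463 / 126553360000000)) + (-1160910435161 / 1235872656250 + (x - 3 / 32) * (877883114767 / 63276680000000)) * p + (-531 / 15625 + (x - 3 / 32) * (-74417 / 200000)) * p ^ 2 := by
  rcases eq_or_lt_of_le h1 with h | h1
  · subst h
    rw [kvh0 (by norm_num)]
    ring1
  · exact kvh1 h1 h2
theorem kvl2 {p x : ℝ} (h1 : -587 / 1262 ≤ p) (h2 : p ≤ -43 / 100) : dt33.kv p x = (-16068240539629 / 186523600000000 + (x - 3 / 32) * (1787314984499 / 55957080000000)) + (-93095020975199 / 93261800000000 + (x - 3 / 32) * (-2671803593819 / 27978540000000)) * p + (-194527 / 2000000 + (x - 3 / 32) * (-97929 / 200000)) * p ^ 2 := by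
  rcases eq_or_lt_of_le h1 with h | h1
  · subst h
    rw [kvh1 (by norm_num) (by norm_num)]
    ring1
  · exact kvh2 h1 h2
theorem kvl3 {p x : ℝ} (h1 : -43 / 100 ≤ p) (h2 : p ≤ -613 / 1574) : dt33.kv p x = (-22746839373701 / 251131700000000 + (x - 3 / 32) * (-1057774622669 / 6278292500000)) + (-25585875142153 / 25113170000000 + (x - 3 / 32) * (-645215884079 / 627829250000)) * p + (-12123 / 100000 + (x - 3 / 32) * (-1967 / 1250)) * p ^ 2 := by
  rcases eq_or_lt_of_le h1 with h | h1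
  · subst h
    rw [kvh2 (by norm_num) (by norm_num)]
    ring1
  · exact kvh3 h1 h2
theorem kvl4 {p x : ℝ} (h1 : -613 / 1574 ≤ p) (h2 : p ≤ -17 / 50) : dt33.kv p x = (-12297412679231 / 153150200000000 + (x - 3 / 32) * (-1895979309611 / 15315020000000)) + (-231167438807 / 239297187500 + (x - 3 / 32) * (-244497792829 / 306300400000)) * p + (-21379 / 400000 + (x - 3 / 32) * (-1279 / 1000)) * p ^ 2 := by
  rcases eq_or_lt_of_le h1 with h | h1
  · subst h
    rw [kvh3 (by norm_num) (by norm_num)]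
    ring1
  · exact kvh4 h1 h2
theorem kvl5 {p x : ℝ} (h1 : -17 / 50 ≤ p) (h2 : p ≤ -1 / 4) : dt33.kv p x = (-132658787 / 1800000000 + (x - 3 / 32) * (-11543 / 468750)) + (-834498049 / 900000000 + (x - 3 / 32) * (-644567 / 3000000)) * p + (3621 / 1000000 + (x - 3 / 32) * (-4211 / 10000)) * p ^ 2 := by
  rcases eq_or_lt_of_le h1 with h | h1
  · subst h
    rw [kvh4 (by norm_num) (by norm_num)]
    ring1
  · exact kvh5 h1 h2
theorem kvl6 {p x : ℝ} (h1 : -1 / 4 ≤ p) (h2 : p ≤ -3 / 20) : dt33.kv p x = (-11302311 / 160000000 + (x - 3 / 32) * (-429177 / 80000000)) + (-9027409 / 10000000 + (x - 3 / 32) * (-60773 / 1000000)) * p + (105159 / 2000000 + (x - 3 / 32) * (-22587 / 200000)) * p ^ 2 := by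
  rcases eq_or_lt_of_le h1 with h | h1
  · subst h
    rw [kvh5 (by norm_num) (by norm_num)]
    ring1
  · exact kvh6 h1 h2
theorem kvl7 {p x : ℝ} (h1 : -3 / 20 ≤ p) (h2 : p ≤ -3 / 50) : dt33.kv p x = (82082827 / 6000000000 + (x - 3 / 32) * (107569 / 200000000)) + (398744129 / 1800000000 + (x - 3 / 32) * (1075703 / 60000000)) * p + (7600261 / 2000000 + (x - 3 / 32) * (29881 / 200000)) * p ^ 2 := by
  rcases eq_or_lt_of_le h1 with h | h1
  · subst h
    rw [kvh6 (by norm_num) (by norm_num)]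
    ring1
  · exact kvh7 h1 h2
theorem kvl8 {p x : ℝ} (h1 : -3 / 50 ≤ p) (h2 : p ≤ 3 / 50) : dt33.kv p x = (0) + (-1406947 / 6000000) * p := by
  rcases eq_or_lt_of_le h1 with h | h1
  · subst h
    rw [kvh7 (by norm_num) (by norm_num)]
    ring1
  · exact kvh8 h1 h2
theorem kvl9 {p x : ℝ} (h1 : 3 / 50 ≤ p) (h2 : p ≤ 3 / 20) : dt33.kv p x = (-82082827 / 6000000000 + (x - 3 / 32) * (-107569 / 200000000)) + (398744129 / 1800000000 + (x - 3 / 32) * (1075703 / 60000000)) * p + (-7600261 / 2000000 + (x - 3 / 32) * (-29881 / 200000)) * p ^ 2 := by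
  rcases eq_or_lt_of_le h1 with h | h1
  · subst h
    rw [kvh8 (by norm_num) (by norm_num)]
    ring1
  · exact kvh9 h1 h2
theorem kvl10 {p x : ℝ} (h1 : 3 / 20 ≤ p) (h2 : p ≤ 1 / 4) : dt33.kv p x = (11302311 / 160000000 + (x - 3 / 32) * (429177 / 80000000)) + (-9027409 / 10000000 + (x - 3 / 32) * (-60773 / 1000000)) * p + (-105159 / 2000000 + (x - 3 / 32) * (22587 / 200000)) * p ^ 2 := by
  rcases eq_or_lt_of_le h1 with h | h1
  · subst h
    rw [kvh9 (by norm_num) (by norm_num)]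
    ring1
  · exact kvh10 h1 h2
theorem kvl11 {p x : ℝ} (h1 : 1 / 4 ≤ p) (h2 : p ≤ 17 / 50) : dt33.kv p x = (132658787 / 1800000000 + (x - 3 / 32) * (11543 / 468750)) + (-834498049 / 900000000 + (x - 3 / 32) * (-644567 / 3000000)) * p + (-3621 / 1000000 + (x - 3 / 32) * (4211 / 10000)) * p ^ 2 := by
  rcases eq_or_lt_of_le h1 with h | h1
  · subst h
    rw [kvh10 (by norm_num) (by norm_num)]
    ring1
  · exact kvh11 h1 h2
theorem kvl12 {p x : ℝ} (h1 : 17 / 50 ≤ p) (h2 : p ≤ 613 / 1574) : dt33.kv p x = (12297412679231 / 153150200000000 + (x - 3 / 32) * (1895979309611 / 15315020000000)) + (-231167438807 / 239297187500 + (x - 3 / 32) * (-244497792829 / 306300400000)) * p + (21379 / 400000 + (x - 3 / 32) * (1279 / 1000)) * p ^ 2 := by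
  rcases eq_or_lt_of_le h1 with h | h1
  · subst h
    rw [kvh11 (by norm_num) (by norm_num)]
    ring1
  · exact kvh12 h1 h2
theorem kvl13 {p x : ℝ} (h1 : 613 / 1574 ≤ p) (h2 : p ≤ 43 / 100) : dt33.kv p x = (22746839373701 / 251131700000000 + (x - 3 / 32) * (1057774622669 / 6278292500000)) + (-25585875142153 / 25113170000000 + (x - 3 / 32) * (-645215884079 / 627829250000)) * p + (12123 / 100000 + (x - 3 / 32) * (1967 / 1250)) * p ^ 2 := by
  rcases eq_or_lt_of_le h1 with h | h1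
  · subst h
    rw [kvh12 (by norm_num) (by norm_num)]
    ring1
  · exact kvh13 h1 h2
theorem kvl14 {p x : ℝ} (h1 : 43 / 100 ≤ p) (h2 : p ≤ 587 / 1262) : dt33.kv p x = (16068240539629 / 186523600000000 + (x - 3 / 32) * (-1787314984499 / 55957080000000)) + (-93095020975199 / 93261800000000 + (x - 3 / 32) * (-2671803593819 / 27978540000000)) * p + (194527 / 2000000 + (x - 3 / 32) * (97929 / 200000)) * p ^ 2 := by
  rcases eq_or_lt_of_le h1 with h | h1
  · subst h
    rw [kvh13 (by norm_num) (by norm_num)]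
    ring1
  · exact kvh14 h1 h2
theorem kvl15 {p x : ℝ} (h1 : 587 / 1262 ≤ p) (h2 : p ≤ 97 / 200) : dt33.kv p x = (573091633357 / 7909585000000 + (x - 3 / 32) * (-7261347008463 / 126553360000000)) + (-1160910435161 / 1235872656250 + (x - 3 / 32) * (877883114767 / 63276680000000)) * p + (531 / 15625 + (x - 3 / 32) * (74417 / 200000)) * p ^ 2 := by
  rcases eq_or_lt_of_le h1 with h | h1
  · subst h
    rw [kvh14 (by norm_num) (by norm_num)]
    ring1
  · exact kvh15 h1 h2
theorem kvl16 {p x : ℝ} (h1 : 97 / 200 ≤ p) (h2 : p ≤ 1 / 2) : dt33.kv p x = (1017137 / 15000000 + (x - 3 / 32) * (-41606659 / 240000000)) + (-69013889 / 75000000 + (x - 3 / 32) * (59059591 / 120000000)) * p + (1779 / 125000 + (x - 3 / 32) * (-24201 / 200000)) * p ^ 2 := by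
  rcases eq_or_lt_of_le h1 with h | h1
  · subst h
    rw [kvh15 (by norm_num) (by norm_num)]
    ring1
  · exact kvh16 h1 h2
theorem kfe {x p : ℝ} (h : |p| ≤ 1 / 2) : kcg.v p x = dt33.kv p x := by
  obtain ⟨h1, h2⟩ := abs_le.1 h
  rcases le_total p (-97 / 200) with g0 | g1000
  · rw [kcl0 (by linarith) g0, kvl0 (by linarith) g0]
  rcases le_total p (-587 / 1262) with g1 | g1001
  · rw [kcl1 g1000 g1, kvl1 g1000 g1]
  rcases le_total p (-43 / 100) with g2 | g1002
  · rw [kcl2 g1001 g2, kvl2 g1001 g2]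
  rcases le_total p (-613 / 1574) with g3 | g1003
  · rw [kcl3 g1002 g3, kvl3 g1002 g3]
  rcases le_total p (-17 / 50) with g4 | g1004
  · rw [kcl4 g1003 g4, kvl4 g1003 g4]
  rcases le_total p (-1 / 4) with g5 | g1005
  · rw [kcl5 g1004 g5, kvl5 g1004 g5]
  rcases le_total p (-3 / 20) with g6 | g1006
  · rw [kcl6 g1005 g6, kvl6 g1005 g6]
  rcases le_total p (-3 / 50) with g7 | g1007
  · rw [kcl7 g1006 g7, kvl7 g1006 g7]
  rcases le_total p (3 / 50) with g8 | g1008
  · rw [kcl8 g1007 g8, kvl8 g1007 g8]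
  rcases le_total p (3 / 20) with g9 | g1009
  · rw [kcl9 g1008 g9, kvl9 g1008 g9]
  rcases le_total p (1 / 4) with g10 | g1010
  · rw [kcl10 g1009 g10, kvl10 g1009 g10]
  rcases le_total p (17 / 50) with g11 | g1011
  · rw [kcl11 g1010 g11, kvl11 g1010 g11]
  rcases le_total p (613 / 1574) with g12 | g1012
  · rw [kcl12 g1011 g12, kvl12 g1011 g12]
  rcases le_total p (43 / 100) with g13 | g1013
  · rw [kcl13 g1012 g13, kvl13 g1012 g13]
  rcases le_total p (587 / 1262) with g14 | g1014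
  · rw [kcl14 g1013 g14, kvl14 g1013 g14]
  rcases le_total p (97 / 200) with g15 | g1015
  · rw [kcl15 g1014 g15, kvl15 g1014 g15]
  · rw [kcl16 g1015 (by linarith), kvl16 g1015 (by linarith)]
theorem odd {x p : ℝ} (h : |p| ≤ 1 / 2) : kcg.v (-p) x = -kcg.v p x := by
  obtain ⟨h1, h2⟩ := abs_le.1 h
  rcases le_total p (-97 / 200) with g0 | g1000
  · rw [kcl0 (by linarith) g0, kcl16 (p := -p) (by linarith) (by linarith)]; ring
  rcases le_total p (-587 / 1262) with g1 | g1001
  · rw [kcl1 g1000 g1, kcl15 (p := -p) (by linarith) (by linarith)]; ring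
  rcases le_total p (-43 / 100) with g2 | g1002
  · rw [kcl2 g1001 g2, kcl14 (p := -p) (by linarith) (by linarith)]; ring
  rcases le_total p (-613 / 1574) with g3 | g1003
  · rw [kcl3 g1002 g3, kcl13 (p := -p) (by linarith) (by linarith)]; ring
  rcases le_total p (-17 / 50) with g4 | g1004
  · rw [kcl4 g1003 g4, kcl12 (p := -p) (by linarith) (by linarith)]; ring
  rcases le_total p (-1 / 4) with g5 | g1005
  · rw [kcl5 g1004 g5, kcl11 (p := -p) (by linarith) (by linarith)]; ring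
  rcases le_total p (-3 / 20) with g6 | g1006
  · rw [kcl6 g1005 g6, kcl10 (p := -p) (by linarith) (by linarith)]; ring
  rcases le_total p (-3 / 50) with g7 | g1007
  · rw [kcl7 g1006 g7, kcl9 (p := -p) (by linarith) (by linarith)]; ring
  rcases le_total p (3 / 50) with g8 | g1008
  · rw [kcl8 g1007 g8, kcl8 (p := -p) (by linarith) (by linarith)]; ring
  rcases le_total p (3 / 20) with g9 | g1009
  · rw [kcl9 g1008 g9, kcl7 (p := -p) (by linarith) (by linarith)]; ring
  rcases le_total p (1 / 4) with g10 | g1010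
  · rw [kcl10 g1009 g10, kcl6 (p := -p) (by linarith) (by linarith)]; ring
  rcases le_total p (17 / 50) with g11 | g1011
  · rw [kcl11 g1010 g11, kcl5 (p := -p) (by linarith) (by linarith)]; ring
  rcases le_total p (613 / 1574) with g12 | g1012
  · rw [kcl12 g1011 g12, kcl4 (p := -p) (by linarith) (by linarith)]; ring
  rcases le_total p (43 / 100) with g13 | g1013
  · rw [kcl13 g1012 g13, kcl3 (p := -p) (by linarith) (by linarith)]; ring
  rcases le_total p (587 / 1262) with g14 | g1014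
  · rw [kcl14 g1013 g14, kcl2 (p := -p) (by linarith) (by linarith)]; ring
  rcases le_total p (97 / 200) with g15 | g1015
  · rw [kcl15 g1014 g15, kcl1 (p := -p) (by linarith) (by linarith)]; ring
  · rw [kcl16 g1015 (by linarith), kcl0 (p := -p) (by linarith) (by linarith)]; ring
theorem ctA : cT (-587 / 1262) = 1261 / 1262 := by
  unfold cT
  rw [show (3 / 4 * (1 - (-587 / 1262 : ℝ) ^ 2)) = (1935 / 2524) ^ 2 by norm_num, Real.sqrt_sq (by norm_num)]
  norm_num
theorem ctB : cT (-613 / 1574) = 781 / 787 := by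
  unfold cT
  rw [show (3 / 4 * (1 - (-613 / 1574 : ℝ) ^ 2)) = (2511 / 3148) ^ 2 by norm_num, Real.sqrt_sq (by norm_num)]
  norm_num
theorem kgA {x : ℝ} : kcg.v (-587 / 1262) x = (8927851 / 25000000 + (x - 3 / 32) * (-295761 / 10000000)) := by
  rw [kcl1 (by norm_num) (by norm_num)]
  ring
theorem kgB {x : ℝ} : kcg.v (-613 / 1574) x = (224859 / 781250 + (x - 3 / 32) * (-4323 / 625000)) := by
  rw [kcl3 (by norm_num) (by norm_num)]
  ring
theorem ka_dt1 (x : ℝ) : dt1.kv (-1 / 2) x = (19436273 / 50000000 + (x - 3 / 32) * (-424693 / 10000000)) := by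
  simp only [dt1, DT.kv, sw1, sl1, sv1]
  ((try push_cast); ring1)
theorem kb_dt1 (x : ℝ) : dt1.kv (-97 / 200) x = (2344581 / 6250000 + (x - 3 / 32) * (-368747 / 10000000)) := by
  simp only [dt1, DT.kv, sw1, sl1, sv1]
  ((try push_cast); ring1)
theorem ka_dt2 (x : ℝ) : dt2.kv (-97 / 200) x = (2344581 / 6250000 + (x - 3 / 32) * (-368747 / 10000000)) := by
  simp only [dt2, DT.kv, sw2, sl2, sv2]
  ((try push_cast); ring1)
theorem kb_dt2 (x : ℝ) : dt2.kv (-587 / 1262) x = (8927851 / 25000000 + (x - 3 / 32) * (-295761 / 10000000)) := by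
  simp only [dt2, DT.kv, sw2, sl2, sv2]
  ((try push_cast); ring1)
theorem ka_dt18 (x : ℝ) : dt18.kv (-1 / 2) x = (19436273 / 50000000 + (x - 3 / 32) * (-424693 / 10000000)) :=
  (DT.kv_le (by simp only [Cn.rt_v, Cn.ng_v]; norm_num)).trans (ka_dt1 x)
theorem kb_dt18 (x : ℝ) : dt18.kv (-587 / 1262) x = (8927851 / 25000000 + (x - 3 / 32) * (-295761 / 10000000)) :=
  (DT.kv_gt (by simp only [Cn.rt_v, Cn.ng_v]; norm_num)).trans (kb_dt2 x)
theorem ka_dt3 (x : ℝ) : dt3.kv (-587 / 1262) x = (8927851 / 25000000 + (x - 3 / 32) * (-295761 / 10000000)) := by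
  simp only [dt3, DT.kv, sw3, sl3, sv3]
  ((try push_cast); ring1)
theorem kb_dt3 (x : ℝ) : dt3.kv (-43 / 100) x = (32510113 / 100000000 + (x - 3 / 32) * (-87659 / 5000000)) := by
  simp only [dt3, DT.kv, sw3, sl3, sv3]
  ((try push_cast); ring1)
theorem ka_dt4 (x : ℝ) : dt4.kv (-43 / 100) x = (32510113 / 100000000 + (x - 3 / 32) * (-87659 / 5000000)) := by
  simp only [dt4, DT.kv, sw4, sl4, sv4]
  ((try push_cast); ring1)
theorem kb_dt4 (x : ℝ) : dt4.kv (-613 / 1574) x = (224859 / 781250 + (x - 3 / 32) * (-4323 / 625000)) := by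
  simp only [dt4, DT.kv, sw4, sl4, sv4]
  ((try push_cast); ring1)
theorem ka_dt19 (x : ℝ) : dt19.kv (-587 / 1262) x = (8927851 / 25000000 + (x - 3 / 32) * (-295761 / 10000000)) :=
  (DT.kv_le (by simp only [Cn.rt_v, Cn.ng_v]; norm_num)).trans (ka_dt3 x)
theorem kb_dt19 (x : ℝ) : dt19.kv (-613 / 1574) x = (224859 / 781250 + (x - 3 / 32) * (-4323 / 625000)) :=
  (DT.kv_gt (by simp only [Cn.rt_v, Cn.ng_v]; norm_num)).trans (kb_dt4 x)
theorem ka_dt20 (x : ℝ) : dt20.kv (-1 / 2) x = (19436273 / 50000000 + (x - 3 / 32) * (-424693 / 10000000)) :=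
  (DT.kv_le (by simp only [Cn.rt_v, Cn.ng_v]; norm_num)).trans (ka_dt18 x)
theorem kb_dt20 (x : ℝ) : dt20.kv (-613 / 1574) x = (224859 / 781250 + (x - 3 / 32) * (-4323 / 625000)) :=
  (DT.kv_gt (by simp only [Cn.rt_v, Cn.ng_v]; norm_num)).trans (kb_dt19 x)
theorem ka_dt5 (x : ℝ) : dt5.kv (-613 / 1574) x = (224859 / 781250 + (x - 3 / 32) * (-4323 / 625000)) := by
  simp only [dt5, DT.kv, sw5, sl5, sv5]
  ((try push_cast); ring1)
theorem kb_dt5 (x : ℝ) : dt5.kv (-17 / 50) x = (756169 / 3125000 + (x - 3 / 32) * (-2533 / 10000000)) := by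
  simp only [dt5, DT.kv, sw5, sl5, sv5]
  ((try push_cast); ring1)
theorem ka_dt6 (x : ℝ) : dt6.kv (-17 / 50) x = (756169 / 3125000 + (x - 3 / 32) * (-2533 / 10000000)) := by
  simp only [dt6, DT.kv, sw6, sl6, sv6]
  ((try push_cast); ring1)
theorem kb_dt6 (x : ℝ) : dt6.kv (-1 / 4) x = (39583 / 250000 + (x - 3 / 32) * (27701 / 10000000)) := by
  simp only [dt6, DT.kv, sw6, sl6, sv6]
  ((try push_cast); ring1)
theorem ka_dt21 (x : ℝ) : dt21.kv (-613 / 1574) x = (224859 / 781250 + (x - 3 / 32) * (-4323 / 625000)) :=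
  (DT.kv_le (by simp only [Cn.rt_v, Cn.ng_v]; norm_num)).trans (ka_dt5 x)
theorem kb_dt21 (x : ℝ) : dt21.kv (-1 / 4) x = (39583 / 250000 + (x - 3 / 32) * (27701 / 10000000)) :=
  (DT.kv_gt (by simp only [Cn.rt_v, Cn.ng_v]; norm_num)).trans (kb_dt6 x)
theorem ka_dt7 (x : ℝ) : dt7.kv (-1 / 4) x = (39583 / 250000 + (x - 3 / 32) * (27701 / 10000000)) := by
  simp only [dt7, DT.kv, sw7, sl7, sv7]
  ((try push_cast); ring1)
theorem kb_dt7 (x : ℝ) : dt7.kv (-3 / 20) x = (6595473 / 100000000 + (x - 3 / 32) * (6051 / 5000000)) := by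
  simp only [dt7, DT.kv, sw7, sl7, sv7]
  ((try push_cast); ring1)
theorem ka_dt8 (x : ℝ) : dt8.kv (-3 / 20) x = (6595473 / 100000000 + (x - 3 / 32) * (6051 / 5000000)) := by
  simp only [dt8, DT.kv, sw8, sl8, sv8]
  ((try push_cast); ring1)
theorem kb_dt8 (x : ℝ) : dt8.kv (-3 / 50) x = (1406947 / 100000000) := by
  simp only [dt8, DT.kv, sw8, sl8, sv8]
  ((try push_cast); ring1)
theorem ka_dt22 (x : ℝ) : dt22.kv (-1 / 4) x = (39583 / 250000 + (x - 3 / 32) * (27701 / 10000000)) :=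
  (DT.kv_le (by simp only [Cn.rt_v, Cn.ng_v]; norm_num)).trans (ka_dt7 x)
theorem kb_dt22 (x : ℝ) : dt22.kv (-3 / 50) x = (1406947 / 100000000) :=
  (DT.kv_gt (by simp only [Cn.rt_v, Cn.ng_v]; norm_num)).trans (kb_dt8 x)
theorem ka_dt23 (x : ℝ) : dt23.kv (-613 / 1574) x = (224859 / 781250 + (x - 3 / 32) * (-4323 / 625000)) :=
  (DT.kv_le (by simp only [Cn.rt_v, Cn.ng_v]; norm_num)).trans (ka_dt21 x)
theorem kb_dt23 (x : ℝ) : dt23.kv (-3 / 50) x = (1406947 / 100000000) :=
  (DT.kv_gt (by simp only [Cn.rt_v, Cn.ng_v]; norm_num)).trans (kb_dt22 x)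
theorem ka_dt24 (x : ℝ) : dt24.kv (-1 / 2) x = (19436273 / 50000000 + (x - 3 / 32) * (-424693 / 10000000)) :=
  (DT.kv_le (by simp only [Cn.rt_v, Cn.ng_v]; norm_num)).trans (ka_dt20 x)
theorem kb_dt24 (x : ℝ) : dt24.kv (-3 / 50) x = (1406947 / 100000000) :=
  (DT.kv_gt (by simp only [Cn.rt_v, Cn.ng_v]; norm_num)).trans (kb_dt23 x)
theorem ka_dt9 (x : ℝ) : dt9.kv (-3 / 50) x = (1406947 / 100000000) := by
  simp only [dt9, DT.kv, sl9, sv9]
  ((try push_cast); ring1)
theorem kb_dt9 (x : ℝ) : dt9.kv (3 / 50) x = (-1406947 / 100000000) := by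
  simp only [dt9, DT.kv, sl9, sv9]
  ((try push_cast); ring1)
theorem ka_dt10 (x : ℝ) : dt10.kv (3 / 50) x = (-1406947 / 100000000) := by
  simp only [dt10, DT.kv, sw10, sl10, sv10]
  ((try push_cast); ring1)
theorem kb_dt10 (x : ℝ) : dt10.kv (3 / 20) x = (-6595473 / 100000000 + (x - 3 / 32) * (-6051 / 5000000)) := by
  simp only [dt10, DT.kv, sw10, sl10, sv10]
  ((try push_cast); ring1)
theorem ka_dt25 (x : ℝ) : dt25.kv (-3 / 50) x = (1406947 / 100000000) :=
  (DT.kv_le (by simp only [Cn.rt_v, Cn.ng_v]; norm_num)).trans (ka_dt9 x)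
theorem kb_dt25 (x : ℝ) : dt25.kv (3 / 20) x = (-6595473 / 100000000 + (x - 3 / 32) * (-6051 / 5000000)) :=
  (DT.kv_gt (by simp only [Cn.rt_v, Cn.ng_v]; norm_num)).trans (kb_dt10 x)
theorem ka_dt11 (x : ℝ) : dt11.kv (3 / 20) x = (-6595473 / 100000000 + (x - 3 / 32) * (-6051 / 5000000)) := by
  simp only [dt11, DT.kv, sw11, sl11, sv11]
  ((try push_cast); ring1)
theorem kb_dt11 (x : ℝ) : dt11.kv (1 / 4) x = (-39583 / 250000 + (x - 3 / 32) * (-27701 / 10000000)) := by
  simp only [dt11, DT.kv, sw11, sl11, sv11]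
  ((try push_cast); ring1)
theorem ka_dt12 (x : ℝ) : dt12.kv (1 / 4) x = (-39583 / 250000 + (x - 3 / 32) * (-27701 / 10000000)) := by
  simp only [dt12, DT.kv, sw12, sl12, sv12]
  ((try push_cast); ring1)
theorem kb_dt12 (x : ℝ) : dt12.kv (17 / 50) x = (-756169 / 3125000 + (x - 3 / 32) * (2533 / 10000000)) := by
  simp only [dt12, DT.kv, sw12, sl12, sv12]
  ((try push_cast); ring1)
theorem ka_dt26 (x : ℝ) : dt26.kv (3 / 20) x = (-6595473 / 100000000 + (x - 3 / 32) * (-6051 / 5000000)) :=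
  (DT.kv_le (by simp only [Cn.rt_v, Cn.ng_v]; norm_num)).trans (ka_dt11 x)
theorem kb_dt26 (x : ℝ) : dt26.kv (17 / 50) x = (-756169 / 3125000 + (x - 3 / 32) * (2533 / 10000000)) :=
  (DT.kv_gt (by simp only [Cn.rt_v, Cn.ng_v]; norm_num)).trans (kb_dt12 x)
theorem ka_dt27 (x : ℝ) : dt27.kv (-3 / 50) x = (1406947 / 100000000) :=
  (DT.kv_le (by simp only [Cn.rt_v, Cn.ng_v]; norm_num)).trans (ka_dt25 x)
theorem kb_dt27 (x : ℝ) : dt27.kv (17 / 50) x = (-756169 / 3125000 + (x - 3 / 32) * (2533 / 10000000)) :=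
  (DT.kv_gt (by simp only [Cn.rt_v, Cn.ng_v]; norm_num)).trans (kb_dt26 x)
theorem ka_dt13 (x : ℝ) : dt13.kv (17 / 50) x = (-756169 / 3125000 + (x - 3 / 32) * (2533 / 10000000)) := by
  simp only [dt13, DT.kv, sw13, sl13, sv13]
  ((try push_cast); ring1)
theorem kb_dt13 (x : ℝ) : dt13.kv (613 / 1574) x = (-224859 / 781250 + (x - 3 / 32) * (4323 / 625000)) := by
  simp only [dt13, DT.kv, sw13, sl13, sv13]
  ((try push_cast); ring1)
theorem ka_dt14 (x : ℝ) : dt14.kv (613 / 1574) x = (-224859 / 781250 + (x - 3 / 32) * (4323 / 625000)) := by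
  simp only [dt14, DT.kv, sw14, sl14, sv14]
  ((try push_cast); ring1)
theorem kb_dt14 (x : ℝ) : dt14.kv (43 / 100) x = (-32510113 / 100000000 + (x - 3 / 32) * (87659 / 5000000)) := by
  simp only [dt14, DT.kv, sw14, sl14, sv14]
  ((try push_cast); ring1)
theorem ka_dt28 (x : ℝ) : dt28.kv (17 / 50) x = (-756169 / 3125000 + (x - 3 / 32) * (2533 / 10000000)) :=
  (DT.kv_le (by simp only [Cn.rt_v, Cn.ng_v]; norm_num)).trans (ka_dt13 x)
theorem kb_dt28 (x : ℝ) : dt28.kv (43 / 100) x = (-32510113 / 100000000 + (x - 3 / 32) * (87659 / 5000000)) :=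
  (DT.kv_gt (by simp only [Cn.rt_v, Cn.ng_v]; norm_num)).trans (kb_dt14 x)
theorem ka_dt15 (x : ℝ) : dt15.kv (43 / 100) x = (-32510113 / 100000000 + (x - 3 / 32) * (87659 / 5000000)) := by
  simp only [dt15, DT.kv, sw15, sl15, sv15]
  ((try push_cast); ring1)
theorem kb_dt15 (x : ℝ) : dt15.kv (587 / 1262) x = (-8927851 / 25000000 + (x - 3 / 32) * (295761 / 10000000)) := by
  simp only [dt15, DT.kv, sw15, sl15, sv15]
  ((try push_cast); ring1)
theorem ka_dt16 (x : ℝ) : dt16.kv (587 / 1262) x = (-8927851 / 25000000 + (x - 3 / 32) * (295761 / 10000000)) := by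
  simp only [dt16, DT.kv, sw16, sl16, sv16]
  ((try push_cast); ring1)
theorem kb_dt16 (x : ℝ) : dt16.kv (97 / 200) x = (-2344581 / 6250000 + (x - 3 / 32) * (368747 / 10000000)) := by
  simp only [dt16, DT.kv, sw16, sl16, sv16]
  ((try push_cast); ring1)
theorem ka_dt17 (x : ℝ) : dt17.kv (97 / 200) x = (-2344581 / 6250000 + (x - 3 / 32) * (368747 / 10000000)) := by
  simp only [dt17, DT.kv, sw17, sl17, sv17]
  ((try push_cast); ring1)
theorem kb_dt17 (x : ℝ) : dt17.kv (1 / 2) x = (-19436273 / 50000000 + (x - 3 / 32) * (424693 / 10000000)) := by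
  simp only [dt17, DT.kv, sw17, sl17, sv17]
  ((try push_cast); ring1)
theorem ka_dt29 (x : ℝ) : dt29.kv (587 / 1262) x = (-8927851 / 25000000 + (x - 3 / 32) * (295761 / 10000000)) :=
  (DT.kv_le (by simp only [Cn.rt_v, Cn.ng_v]; norm_num)).trans (ka_dt16 x)
theorem kb_dt29 (x : ℝ) : dt29.kv (1 / 2) x = (-19436273 / 50000000 + (x - 3 / 32) * (424693 / 10000000)) :=
  (DT.kv_gt (by simp only [Cn.rt_v, Cn.ng_v]; norm_num)).trans (kb_dt17 x)
theorem ka_dt30 (x : ℝ) : dt30.kv (43 / 100) x = (-32510113 / 100000000 + (x - 3 / 32) * (87659 / 5000000)) :=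
  (DT.kv_le (by simp only [Cn.rt_v, Cn.ng_v]; norm_num)).trans (ka_dt15 x)
theorem kb_dt30 (x : ℝ) : dt30.kv (1 / 2) x = (-19436273 / 50000000 + (x - 3 / 32) * (424693 / 10000000)) :=
  (DT.kv_gt (by simp only [Cn.rt_v, Cn.ng_v]; norm_num)).trans (kb_dt29 x)
theorem ka_dt31 (x : ℝ) : dt31.kv (17 / 50) x = (-756169 / 3125000 + (x - 3 / 32) * (2533 / 10000000)) :=
  (DT.kv_le (by simp only [Cn.rt_v, Cn.ng_v]; norm_num)).trans (ka_dt28 x)
theorem kb_dt31 (x : ℝ) : dt31.kv (1 / 2) x = (-19436273 / 50000000 + (x - 3 / 32) * (424693 / 10000000)) :=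
  (DT.kv_gt (by simp only [Cn.rt_v, Cn.ng_v]; norm_num)).trans (kb_dt30 x)
theorem ka_dt32 (x : ℝ) : dt32.kv (-3 / 50) x = (1406947 / 100000000) :=
  (DT.kv_le (by simp only [Cn.rt_v, Cn.ng_v]; norm_num)).trans (ka_dt27 x)
theorem kb_dt32 (x : ℝ) : dt32.kv (1 / 2) x = (-19436273 / 50000000 + (x - 3 / 32) * (424693 / 10000000)) :=
  (DT.kv_gt (by simp only [Cn.rt_v, Cn.ng_v]; norm_num)).trans (kb_dt31 x)
theorem ka_dt33 (x : ℝ) : dt33.kv (-1 / 2) x = (19436273 / 50000000 + (x - 3 / 32) * (-424693 / 10000000)) :=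
  (DT.kv_le (by simp only [Cn.rt_v, Cn.ng_v]; norm_num)).trans (ka_dt24 x)
theorem kb_dt33 (x : ℝ) : dt33.kv (1 / 2) x = (-19436273 / 50000000 + (x - 3 / 32) * (424693 / 10000000)) :=
  (DT.kv_gt (by simp only [Cn.rt_v, Cn.ng_v]; norm_num)).trans (kb_dt32 x)
theorem ko_dt1 (x : ℝ) : dt1.KOk x := trivial
theorem ko_dt2 (x : ℝ) : dt2.KOk x := trivial
theorem ko_dt18 (x : ℝ) : dt18.KOk x :=
  DT.kOk_node (v := -97 / 200) (by simp only [Cn.rt_v, Cn.ng_v]; norm_num) (kb_dt1 x) (ka_dt2 x) (by ring1) (ko_dt1 x) (ko_dt2 x)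
theorem ko_dt3 (x : ℝ) : dt3.KOk x := trivial
theorem ko_dt4 (x : ℝ) : dt4.KOk x := trivial
theorem ko_dt19 (x : ℝ) : dt19.KOk x :=
  DT.kOk_node (v := -43 / 100) (by simp only [Cn.rt_v, Cn.ng_v]; norm_num) (kb_dt3 x) (ka_dt4 x) (by ring1) (ko_dt3 x) (ko_dt4 x)
theorem ko_dt20 (x : ℝ) : dt20.KOk x :=
  DT.kOk_node (v := -587 / 1262) (by simp only [Cn.rt_v, Cn.ng_v]; norm_num) (kb_dt18 x) (ka_dt19 x) (by ring1) (ko_dt18 x) (ko_dt19 x)
theorem ko_dt5 (x : ℝ) : dt5.KOk x := trivial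
theorem ko_dt6 (x : ℝ) : dt6.KOk x := trivial
theorem ko_dt21 (x : ℝ) : dt21.KOk x :=
  DT.kOk_node (v := -17 / 50) (by simp only [Cn.rt_v, Cn.ng_v]; norm_num) (kb_dt5 x) (ka_dt6 x) (by ring1) (ko_dt5 x) (ko_dt6 x)
theorem ko_dt7 (x : ℝ) : dt7.KOk x := trivial
theorem ko_dt8 (x : ℝ) : dt8.KOk x := trivial
theorem ko_dt22 (x : ℝ) : dt22.KOk x :=
  DT.kOk_node (v := -3 / 20) (by simp only [Cn.rt_v, Cn.ng_v]; norm_num) (kb_dt7 x) (ka_dt8 x) (by ring1) (ko_dt7 x) (ko_dt8 x)
theorem ko_dt23 (x : ℝ) : dt23.KOk x :=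
  DT.kOk_node (v := -1 / 4) (by simp only [Cn.rt_v, Cn.ng_v]; norm_num) (kb_dt21 x) (ka_dt22 x) (by ring1) (ko_dt21 x) (ko_dt22 x)
theorem ko_dt24 (x : ℝ) : dt24.KOk x :=
  DT.kOk_node (v := -613 / 1574) (by simp only [Cn.rt_v, Cn.ng_v]; norm_num) (kb_dt20 x) (ka_dt23 x) (by ring1) (ko_dt20 x) (ko_dt23 x)
theorem ko_dt9 (x : ℝ) : dt9.KOk x := trivial
theorem ko_dt10 (x : ℝ) : dt10.KOk x := trivial
theorem ko_dt25 (x : ℝ) : dt25.KOk x :=
  DT.kOk_node (v := 3 / 50) (by simp only [Cn.rt_v, Cn.ng_v]; norm_num) (kb_dt9 x) (ka_dt10 x) (by ring1) (ko_dt9 x) (ko_dt10 x)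
theorem ko_dt11 (x : ℝ) : dt11.KOk x := trivial
theorem ko_dt12 (x : ℝ) : dt12.KOk x := trivial
theorem ko_dt26 (x : ℝ) : dt26.KOk x :=
  DT.kOk_node (v := 1 / 4) (by simp only [Cn.rt_v, Cn.ng_v]; norm_num) (kb_dt11 x) (ka_dt12 x) (by ring1) (ko_dt11 x) (ko_dt12 x)
theorem ko_dt27 (x : ℝ) : dt27.KOk x :=
  DT.kOk_node (v := 3 / 20) (by simp only [Cn.rt_v, Cn.ng_v]; norm_num) (kb_dt25 x) (ka_dt26 x) (by ring1) (ko_dt25 x) (ko_dt26 x)
theorem ko_dt13 (x : ℝ) : dt13.KOk x := trivial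
theorem ko_dt14 (x : ℝ) : dt14.KOk x := trivial
theorem ko_dt28 (x : ℝ) : dt28.KOk x :=
  DT.kOk_node (v := 613 / 1574) (by simp only [Cn.rt_v, Cn.ng_v]; norm_num) (kb_dt13 x) (ka_dt14 x) (by ring1) (ko_dt13 x) (ko_dt14 x)
theorem ko_dt15 (x : ℝ) : dt15.KOk x := trivial
theorem ko_dt16 (x : ℝ) : dt16.KOk x := trivial
theorem ko_dt17 (x : ℝ) : dt17.KOk x := trivial
theorem ko_dt29 (x : ℝ) : dt29.KOk x :=
  DT.kOk_node (v := 97 / 200) (by simp only [Cn.rt_v, Cn.ng_v]; norm_num) (kb_dt16 x) (ka_dt17 x) (by ring1) (ko_dt16 x) (ko_dt17 x)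
theorem ko_dt30 (x : ℝ) : dt30.KOk x :=
  DT.kOk_node (v := 587 / 1262) (by simp only [Cn.rt_v, Cn.ng_v]; norm_num) (kb_dt15 x) (ka_dt29 x) (by ring1) (ko_dt15 x) (ko_dt29 x)
theorem ko_dt31 (x : ℝ) : dt31.KOk x :=
  DT.kOk_node (v := 43 / 100) (by simp only [Cn.rt_v, Cn.ng_v]; norm_num) (kb_dt28 x) (ka_dt30 x) (by ring1) (ko_dt28 x) (ko_dt30 x)
theorem ko_dt32 (x : ℝ) : dt32.KOk x :=
  DT.kOk_node (v := 17 / 50) (by simp only [Cn.rt_v, Cn.ng_v]; norm_num) (kb_dt27 x) (ka_dt31 x) (by ring1) (ko_dt27 x) (ko_dt31 x)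
theorem ko_dt33 (x : ℝ) : dt33.KOk x :=
  DT.kOk_node (v := -3 / 50) (by simp only [Cn.rt_v, Cn.ng_v]; norm_num) (kb_dt24 x) (ka_dt32 x) (by ring1) (ko_dt24 x) (ko_dt32 x)
theorem txl0 {p c x : ℝ} (h1 : -1 / 2 ≤ p) (h2 : p ≤ -117 / 250) : txg.v p c x = dt66.val (fun p x => kcg.v p x) p c x := by
  symm
  refine (DT.val_le (by simp only [Cn.rt_v, Cn.ng_v]; push_cast; linarith)).trans ?_
  refine (DT.val_le (by simp only [Cn.rt_v, Cn.ng_v]; push_cast; linarith)).trans ?_
  refine (DT.val_le (by simp only [Cn.rt_v, Cn.ng_v]; push_cast; linarith)).trans ?_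
  refine (DT.val_le (by simp only [Cn.rt_v, Cn.ng_v]; push_cast; linarith)).trans ?_
  simp only [dt34, DT.val, cloR, sw34, sl34, sv34, txg, txg_4, txg_6, txg_27, txg_63, txg_77, txg_79, txg_82, txg_85, txg_112, txg_153, txg_156, txg_191, txg_229, txg_230, txg_251, txg_292, txg_293, txg_334]
  rcases eq_or_lt_of_le h1 with h | h1
  · subst h
    ((try push_cast); (repeat first | rw [if_pos (by linarith)] | rw [if_neg (by linarith)] | erw [if_pos (by linarith)] | erw [if_neg (by linarith)]); (try push_cast); (try ring1))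
  rcases eq_or_lt_of_le h2 with h | h2
  · subst h
    ((try push_cast); (repeat first | rw [if_pos (by linarith)] | rw [if_neg (by linarith)] | erw [if_pos (by linarith)] | erw [if_neg (by linarith)]); (try push_cast); (try ring1))
  · ((try push_cast); (repeat first | rw [if_pos (by linarith)] | rw [if_neg (by linarith)] | erw [if_pos (by linarith)] | erw [if_neg (by linarith)]); (try push_cast); (try ring1))
theorem txl1 {p c x : ℝ} (h1 : -117 / 250 < p) (h2 : p ≤ -587 / 1262) : txg.v p c x = dt66.val (fun p x => kcg.v p x) p c x := by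
  symm
  refine (DT.val_le (by simp only [Cn.rt_v, Cn.ng_v]; push_cast; linarith)).trans ?_
  refine (DT.val_le (by simp only [Cn.rt_v, Cn.ng_v]; push_cast; linarith)).trans ?_
  refine (DT.val_le (by simp only [Cn.rt_v, Cn.ng_v]; push_cast; linarith)).trans ?_
  refine (DT.val_gt (by simp only [Cn.rt_v, Cn.ng_v]; push_cast; linarith)).trans ?_
  simp only [dt35, DT.val, cloR, sw35, sl35, sl35_2, sv35, sv35_2, txg, txg_4, txg_6, txg_27, txg_63, txg_77, txg_79, txg_82, txg_85, txg_112, txg_153, txg_156, txg_191, txg_229, txg_230, txg_251, txg_292, txg_293, txg_334]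
  rcases eq_or_lt_of_le h2 with h | h2
  · subst h
    ((try push_cast); (repeat first | rw [if_pos (by linarith)] | rw [if_neg (by linarith)] | erw [if_pos (by linarith)] | erw [if_neg (by linarith)]); (try push_cast); (try ring1))
  · ((try push_cast); (repeat first | rw [if_pos (by linarith)] | rw [if_neg (by linarith)] | erw [if_pos (by linarith)] | erw [if_neg (by linarith)]); (try push_cast); (try ring1))
theorem txl2 {p c x : ℝ} (h1 : -587 / 1262 < p) (h2 : p ≤ -613 / 1574) : txg.v p c x = dt66.val (fun p x => kcg.v p x) p c x := by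
  symm
  refine (DT.val_le (by simp only [Cn.rt_v, Cn.ng_v]; push_cast; linarith)).trans ?_
  refine (DT.val_le (by simp only [Cn.rt_v, Cn.ng_v]; push_cast; linarith)).trans ?_
  refine (DT.val_gt (by simp only [Cn.rt_v, Cn.ng_v]; push_cast; linarith)).trans ?_
  refine (DT.val_le (by simp only [Cn.rt_v, Cn.ng_v]; push_cast; linarith)).trans ?_
  simp only [dt36, DT.val, cloR, txg, txg_4, txg_6, txg_27, txg_63, txg_77, txg_79, txg_82, txg_85, txg_112, txg_153, txg_156, txg_191, txg_229, txg_230, txg_251, txg_292, txg_293, txg_334]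
  rcases eq_or_lt_of_le h2 with h | h2
  · subst h
    ((try push_cast); (repeat first | rw [if_pos (by linarith)] | rw [if_neg (by linarith)] | erw [if_pos (by linarith)] | erw [if_neg (by linarith)]); (try push_cast); (try ring1))
  · ((try push_cast); (repeat first | rw [if_pos (by linarith)] | rw [if_neg (by linarith)] | erw [if_pos (by linarith)] | erw [if_neg (by linarith)]); (try push_cast); (try ring1))
theorem txl3 {p c x : ℝ} (h1 : -613 / 1574 < p) (h2 : p ≤ -9 / 25) : txg.v p c x = dt66.val (fun p x => kcg.v p x) p c x := by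
  symm
  refine (DT.val_le (by simp only [Cn.rt_v, Cn.ng_v]; push_cast; linarith)).trans ?_
  refine (DT.val_le (by simp only [Cn.rt_v, Cn.ng_v]; push_cast; linarith)).trans ?_
  refine (DT.val_gt (by simp only [Cn.rt_v, Cn.ng_v]; push_cast; linarith)).trans ?_
  refine (DT.val_gt (by simp only [Cn.rt_v, Cn.ng_v]; push_cast; linarith)).trans ?_
  simp only [dt37, DT.val, cloR, sw37, sl37, sl37_2, sv37, sv37_2, txg, txg_4, txg_6, txg_27, txg_63, txg_77, txg_79, txg_82, txg_85, txg_112, txg_153, txg_156, txg_191, txg_229, txg_230, txg_251, txg_292, txg_293, txg_334]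
  rcases eq_or_lt_of_le h2 with h | h2
  · subst h
    ((try push_cast); (repeat first | rw [if_pos (by linarith)] | rw [if_neg (by linarith)] | erw [if_pos (by linarith)] | erw [if_neg (by linarith)]); (try push_cast); (try ring1))
  · ((try push_cast); (repeat first | rw [if_pos (by linarith)] | rw [if_neg (by linarith)] | erw [if_pos (by linarith)] | erw [if_neg (by linarith)]); (try push_cast); (try ring1))
theorem txl4 {p c x : ℝ} (h1 : -9 / 25 < p) (h2 : p ≤ -3 / 10) : txg.v p c x = dt66.val (fun p x => kcg.v p x) p c x := by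
  symm
  refine (DT.val_le (by simp only [Cn.rt_v, Cn.ng_v]; push_cast; linarith)).trans ?_
  refine (DT.val_gt (by simp only [Cn.rt_v, Cn.ng_v]; push_cast; linarith)).trans ?_
  refine (DT.val_le (by simp only [Cn.rt_v, Cn.ng_v]; push_cast; linarith)).trans ?_
  refine (DT.val_le (by simp only [Cn.rt_v, Cn.ng_v]; push_cast; linarith)).trans ?_
  simp only [dt38, DT.val, cloR, sw38, sl38, sv38, txg, txg_4, txg_6, txg_27, txg_63, txg_77, txg_79, txg_82, txg_85, txg_112, txg_153, txg_156, txg_191, txg_229, txg_230, txg_251, txg_292, txg_293, txg_334]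
  rcases eq_or_lt_of_le h2 with h | h2
  · subst h
    ((try push_cast); (repeat first | rw [if_pos (by linarith)] | rw [if_neg (by linarith)] | erw [if_pos (by linarith)] | erw [if_neg (by linarith)]); (try push_cast); (try ring1))
  · ((try push_cast); (repeat first | rw [if_pos (by linarith)] | rw [if_neg (by linarith)] | erw [if_pos (by linarith)] | erw [if_neg (by linarith)]); (try push_cast); (try ring1))
theorem txl5 {p c x : ℝ} (h1 : -3 / 10 < p) (h2 : p ≤ -6 / 25) : txg.v p c x = dt66.val (fun p x => kcg.v p x) p c x := by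
  symm
  refine (DT.val_le (by simp only [Cn.rt_v, Cn.ng_v]; push_cast; linarith)).trans ?_
  refine (DT.val_gt (by simp only [Cn.rt_v, Cn.ng_v]; push_cast; linarith)).trans ?_
  refine (DT.val_le (by simp only [Cn.rt_v, Cn.ng_v]; push_cast; linarith)).trans ?_
  refine (DT.val_gt (by simp only [Cn.rt_v, Cn.ng_v]; push_cast; linarith)).trans ?_
  simp only [dt39, DT.val, cloR, sw39, sl39, sv39, txg, txg_4, txg_6, txg_27, txg_63, txg_77, txg_79, txg_82, txg_85, txg_112, txg_153, txg_156, txg_191, txg_229, txg_230, txg_251, txg_292, txg_293, txg_334]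
  rcases eq_or_lt_of_le h2 with h | h2
  · subst h
    ((try push_cast); (repeat first | rw [if_pos (by linarith)] | rw [if_neg (by linarith)] | erw [if_pos (by linarith)] | erw [if_neg (by linarith)]); (try push_cast); (try ring1))
  · ((try push_cast); (repeat first | rw [if_pos (by linarith)] | rw [if_neg (by linarith)] | erw [if_pos (by linarith)] | erw [if_neg (by linarith)]); (try push_cast); (try ring1))
theorem txl6 {p c x : ℝ} (h1 : -6 / 25 < p) (h2 : p ≤ -9 / 50) : txg.v p c x = dt66.val (fun p x => kcg.v p x) p c x := by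
  symm
  refine (DT.val_le (by simp only [Cn.rt_v, Cn.ng_v]; push_cast; linarith)).trans ?_
  refine (DT.val_gt (by simp only [Cn.rt_v, Cn.ng_v]; push_cast; linarith)).trans ?_
  refine (DT.val_gt (by simp only [Cn.rt_v, Cn.ng_v]; push_cast; linarith)).trans ?_
  refine (DT.val_le (by simp only [Cn.rt_v, Cn.ng_v]; push_cast; linarith)).trans ?_
  simp only [dt40, DT.val, cloR, sw40, sl40, sv40, txg, txg_4, txg_6, txg_27, txg_63, txg_77, txg_79, txg_82, txg_85, txg_112, txg_153, txg_156, txg_191, txg_229, txg_230, txg_251, txg_292, txg_293, txg_334]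
  rcases eq_or_lt_of_le h2 with h | h2
  · subst h
    ((try push_cast); (repeat first | rw [if_pos (by linarith)] | rw [if_neg (by linarith)] | erw [if_pos (by linarith)] | erw [if_neg (by linarith)]); (try push_cast); (try ring1))
  · ((try push_cast); (repeat first | rw [if_pos (by linarith)] | rw [if_neg (by linarith)] | erw [if_pos (by linarith)] | erw [if_neg (by linarith)]); (try push_cast); (try ring1))
theorem txl7 {p c x : ℝ} (h1 : -9 / 50 < p) (h2 : p ≤ -3 / 25) : txg.v p c x = dt66.val (fun p x => kcg.v p x) p c x := by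
  symm
  refine (DT.val_le (by simp only [Cn.rt_v, Cn.ng_v]; push_cast; linarith)).trans ?_
  refine (DT.val_gt (by simp only [Cn.rt_v, Cn.ng_v]; push_cast; linarith)).trans ?_
  refine (DT.val_gt (by simp only [Cn.rt_v, Cn.ng_v]; push_cast; linarith)).trans ?_
  refine (DT.val_gt (by simp only [Cn.rt_v, Cn.ng_v]; push_cast; linarith)).trans ?_
  simp only [dt41, DT.val, cloR, sw41, sl41, sv41, txg, txg_4, txg_6, txg_27, txg_63, txg_77, txg_79, txg_82, txg_85, txg_112, txg_153, txg_156, txg_191, txg_229, txg_230, txg_251, txg_292, txg_293, txg_334]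
  rcases eq_or_lt_of_le h2 with h | h2
  · subst h
    ((try push_cast); (repeat first | rw [if_pos (by linarith)] | rw [if_neg (by linarith)] | erw [if_pos (by linarith)] | erw [if_neg (by linarith)]); (try push_cast); (try ring1))
  · ((try push_cast); (repeat first | rw [if_pos (by linarith)] | rw [if_neg (by linarith)] | erw [if_pos (by linarith)] | erw [if_neg (by linarith)]); (try push_cast); (try ring1))
theorem txl8 {p c x : ℝ} (h1 : -3 / 25 < p) (h2 : p ≤ -3 / 50) : txg.v p c x = dt66.val (fun p x => kcg.v p x) p c x := by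
  symm
  refine (DT.val_gt (by simp only [Cn.rt_v, Cn.ng_v]; push_cast; linarith)).trans ?_
  refine (DT.val_le (by simp only [Cn.rt_v, Cn.ng_v]; push_cast; linarith)).trans ?_
  refine (DT.val_le (by simp only [Cn.rt_v, Cn.ng_v]; push_cast; linarith)).trans ?_
  refine (DT.val_le (by simp only [Cn.rt_v, Cn.ng_v]; push_cast; linarith)).trans ?_
  simp only [dt42, DT.val, cloR, sw42, sl42, sv42, txg, txg_4, txg_6, txg_27, txg_63, txg_77, txg_79, txg_82, txg_85, txg_112, txg_153, txg_156, txg_191, txg_229, txg_230, txg_251, txg_292, txg_293, txg_334]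
  rcases eq_or_lt_of_le h2 with h | h2
  · subst h
    ((try push_cast); (repeat first | rw [if_pos (by linarith)] | rw [if_neg (by linarith)] | erw [if_pos (by linarith)] | erw [if_neg (by linarith)]); (try push_cast); (try ring1))
  · ((try push_cast); (repeat first | rw [if_pos (by linarith)] | rw [if_neg (by linarith)] | erw [if_pos (by linarith)] | erw [if_neg (by linarith)]); (try push_cast); (try ring1))
theorem txl9 {p c x : ℝ} (h1 : -3 / 50 < p) (h2 : p ≤ 3 / 50) : txg.v p c x = dt66.val (fun p x => kcg.v p x) p c x := by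
  symm
  refine (DT.val_gt (by simp only [Cn.rt_v, Cn.ng_v]; push_cast; linarith)).trans ?_
  refine (DT.val_le (by simp only [Cn.rt_v, Cn.ng_v]; push_cast; linarith)).trans ?_
  refine (DT.val_le (by simp only [Cn.rt_v, Cn.ng_v]; push_cast; linarith)).trans ?_
  refine (DT.val_gt (by simp only [Cn.rt_v, Cn.ng_v]; push_cast; linarith)).trans ?_
  simp only [dt43, DT.val, cloR, sw43, sl43, sv43, txg, txg_4, txg_6, txg_27, txg_63, txg_77, txg_79, txg_82, txg_85, txg_112, txg_153, txg_156, txg_191, txg_229, txg_230, txg_251, txg_292, txg_293, txg_334]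
  rcases eq_or_lt_of_le h2 with h | h2
  · subst h
    ((try push_cast); (repeat first | rw [if_pos (by linarith)] | rw [if_neg (by linarith)] | erw [if_pos (by linarith)] | erw [if_neg (by linarith)]); (try push_cast); (try ring1))
  · ((try push_cast); (repeat first | rw [if_pos (by linarith)] | rw [if_neg (by linarith)] | erw [if_pos (by linarith)] | erw [if_neg (by linarith)]); (try push_cast); (try ring1))
theorem txl10 {p c x : ℝ} (h1 : 3 / 50 < p) (h2 : p ≤ 3 / 25) : txg.v p c x = dt66.val (fun p x => kcg.v p x) p c x := by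
  symm
  refine (DT.val_gt (by simp only [Cn.rt_v, Cn.ng_v]; push_cast; linarith)).trans ?_
  refine (DT.val_le (by simp only [Cn.rt_v, Cn.ng_v]; push_cast; linarith)).trans ?_
  refine (DT.val_gt (by simp only [Cn.rt_v, Cn.ng_v]; push_cast; linarith)).trans ?_
  refine (DT.val_le (by simp only [Cn.rt_v, Cn.ng_v]; push_cast; linarith)).trans ?_
  simp only [dt44, DT.val, cloR, sw44, sl44, sv44, txg, txg_4, txg_6, txg_27, txg_63, txg_77, txg_79, txg_82, txg_85, txg_112, txg_153, txg_156, txg_191, txg_229, txg_230, txg_251, txg_292, txg_293, txg_334]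
  rcases eq_or_lt_of_le h2 with h | h2
  · subst h
    ((try push_cast); (repeat first | rw [if_pos (by linarith)] | rw [if_neg (by linarith)] | erw [if_pos (by linarith)] | erw [if_neg (by linarith)]); (try push_cast); (try ring1))
  · ((try push_cast); (repeat first | rw [if_pos (by linarith)] | rw [if_neg (by linarith)] | erw [if_pos (by linarith)] | erw [if_neg (by linarith)]); (try push_cast); (try ring1))
theorem txl11 {p c x : ℝ} (h1 : 3 / 25 < p) (h2 : p ≤ 9 / 50) : txg.v p c x = dt66.val (fun p x => kcg.v p x) p c x := by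
  symm
  refine (DT.val_gt (by simp only [Cn.rt_v, Cn.ng_v]; push_cast; linarith)).trans ?_
  refine (DT.val_le (by simp only [Cn.rt_v, Cn.ng_v]; push_cast; linarith)).trans ?_
  refine (DT.val_gt (by simp only [Cn.rt_v, Cn.ng_v]; push_cast; linarith)).trans ?_
  refine (DT.val_gt (by simp only [Cn.rt_v, Cn.ng_v]; push_cast; linarith)).trans ?_
  simp only [dt45, DT.val, cloR, sw45, sl45, sv45, txg, txg_4, txg_6, txg_27, txg_63, txg_77, txg_79, txg_82, txg_85, txg_112, txg_153, txg_156, txg_191, txg_229, txg_230, txg_251, txg_292, txg_293, txg_334]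
  rcases eq_or_lt_of_le h2 with h | h2
  · subst h
    ((try push_cast); (repeat first | rw [if_pos (by linarith)] | rw [if_neg (by linarith)] | erw [if_pos (by linarith)] | erw [if_neg (by linarith)]); (try push_cast); (try ring1))
  · ((try push_cast); (repeat first | rw [if_pos (by linarith)] | rw [if_neg (by linarith)] | erw [if_pos (by linarith)] | erw [if_neg (by linarith)]); (try push_cast); (try ring1))
theorem txl12 {p c x : ℝ} (h1 : 9 / 50 < p) (h2 : p ≤ 6 / 25) : txg.v p c x = dt66.val (fun p x => kcg.v p x) p c x := by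
  symm
  refine (DT.val_gt (by simp only [Cn.rt_v, Cn.ng_v]; push_cast; linarith)).trans ?_
  refine (DT.val_gt (by simp only [Cn.rt_v, Cn.ng_v]; push_cast; linarith)).trans ?_
  refine (DT.val_le (by simp only [Cn.rt_v, Cn.ng_v]; push_cast; linarith)).trans ?_
  refine (DT.val_le (by simp only [Cn.rt_v, Cn.ng_v]; push_cast; linarith)).trans ?_
  simp only [dt46, DT.val, cloR, sw46, sl46, sv46, txg, txg_4, txg_6, txg_27, txg_63, txg_77, txg_79, txg_82, txg_85, txg_112, txg_153, txg_156, txg_191, txg_229, txg_230, txg_251, txg_292, txg_293, txg_334]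
  rcases eq_or_lt_of_le h2 with h | h2
  · subst h
    ((try push_cast); (repeat first | rw [if_pos (by linarith)] | rw [if_neg (by linarith)] | erw [if_pos (by linarith)] | erw [if_neg (by linarith)]); (try push_cast); (try ring1))
  · ((try push_cast); (repeat first | rw [if_pos (by linarith)] | rw [if_neg (by linarith)] | erw [if_pos (by linarith)] | erw [if_neg (by linarith)]); (try push_cast); (try ring1))
theorem txl13 {p c x : ℝ} (h1 : 6 / 25 < p) (h2 : p ≤ 3 / 10) : txg.v p c x = dt66.val (fun p x => kcg.v p x) p c x := by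
  symm
  refine (DT.val_gt (by simp only [Cn.rt_v, Cn.ng_v]; push_cast; linarith)).trans ?_
  refine (DT.val_gt (by simp only [Cn.rt_v, Cn.ng_v]; push_cast; linarith)).trans ?_
  refine (DT.val_le (by simp only [Cn.rt_v, Cn.ng_v]; push_cast; linarith)).trans ?_
  refine (DT.val_gt (by simp only [Cn.rt_v, Cn.ng_v]; push_cast; linarith)).trans ?_
  simp only [dt47, DT.val, cloR, sw47, sl47, sv47, txg, txg_4, txg_6, txg_27, txg_63, txg_77, txg_79, txg_82, txg_85, txg_112, txg_153, txg_156, txg_191, txg_229, txg_230, txg_251, txg_292, txg_293, txg_334]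
  rcases eq_or_lt_of_le h2 with h | h2
  · subst h
    ((try push_cast); (repeat first | rw [if_pos (by linarith)] | rw [if_neg (by linarith)] | erw [if_pos (by linarith)] | erw [if_neg (by linarith)]); (try push_cast); (try ring1))
  · ((try push_cast); (repeat first | rw [if_pos (by linarith)] | rw [if_neg (by linarith)] | erw [if_pos (by linarith)] | erw [if_neg (by linarith)]); (try push_cast); (try ring1))
theorem txl14 {p c x : ℝ} (h1 : 3 / 10 < p) (h2 : p ≤ 9 / 25) : txg.v p c x = dt66.val (fun p x => kcg.v p x) p c x := by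
  symm
  refine (DT.val_gt (by simp only [Cn.rt_v, Cn.ng_v]; push_cast; linarith)).trans ?_
  refine (DT.val_gt (by simp only [Cn.rt_v, Cn.ng_v]; push_cast; linarith)).trans ?_
  refine (DT.val_gt (by simp only [Cn.rt_v, Cn.ng_v]; push_cast; linarith)).trans ?_
  refine (DT.val_le (by simp only [Cn.rt_v, Cn.ng_v]; push_cast; linarith)).trans ?_
  simp only [dt48, DT.val, cloR, sw48, sl48, sv48, txg, txg_4, txg_6, txg_27, txg_63, txg_77, txg_79, txg_82, txg_85, txg_112, txg_153, txg_156, txg_191, txg_229, txg_230, txg_251, txg_292, txg_293, txg_334]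
  rcases eq_or_lt_of_le h2 with h | h2
  · subst h
    ((try push_cast); (repeat first | rw [if_pos (by linarith)] | rw [if_neg (by linarith)] | erw [if_pos (by linarith)] | erw [if_neg (by linarith)]); (try push_cast); (try ring1))
  · ((try push_cast); (repeat first | rw [if_pos (by linarith)] | rw [if_neg (by linarith)] | erw [if_pos (by linarith)] | erw [if_neg (by linarith)]); (try push_cast); (try ring1))
theorem txl15 {p c x : ℝ} (h1 : 9 / 25 < p) (h2 : p ≤ 43 / 100) : txg.v p c x = dt66.val (fun p x => kcg.v p x) p c x := by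
  symm
  refine (DT.val_gt (by simp only [Cn.rt_v, Cn.ng_v]; push_cast; linarith)).trans ?_
  refine (DT.val_gt (by simp only [Cn.rt_v, Cn.ng_v]; push_cast; linarith)).trans ?_
  refine (DT.val_gt (by simp only [Cn.rt_v, Cn.ng_v]; push_cast; linarith)).trans ?_
  refine (DT.val_gt (by simp only [Cn.rt_v, Cn.ng_v]; push_cast; linarith)).trans ?_
  refine (DT.val_le (by simp only [Cn.rt_v, Cn.ng_v]; push_cast; linarith)).trans ?_
  simp only [dt49, DT.val, cloR, sw49, sl49, sv49, txg, txg_4, txg_6, txg_27, txg_63, txg_77, txg_79, txg_82, txg_85, txg_112, txg_153, txg_156, txg_191, txg_229, txg_230, txg_251, txg_292, txg_293, txg_334]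
  rcases eq_or_lt_of_le h2 with h | h2
  · subst h
    ((try push_cast); (repeat first | rw [if_pos (by linarith)] | rw [if_neg (by linarith)] | erw [if_pos (by linarith)] | erw [if_neg (by linarith)]); (try push_cast); (try ring1))
  · ((try push_cast); (repeat first | rw [if_pos (by linarith)] | rw [if_neg (by linarith)] | erw [if_pos (by linarith)] | erw [if_neg (by linarith)]); (try push_cast); (try ring1))
theorem txl16 {p c x : ℝ} (h1 : 43 / 100 < p) (h2 : p ≤ 1 / 2) : txg.v p c x = dt66.val (fun p x => kcg.v p x) p c x := by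
  symm
  refine (DT.val_gt (by simp only [Cn.rt_v, Cn.ng_v]; push_cast; linarith)).trans ?_
  refine (DT.val_gt (by simp only [Cn.rt_v, Cn.ng_v]; push_cast; linarith)).trans ?_
  refine (DT.val_gt (by simp only [Cn.rt_v, Cn.ng_v]; push_cast; linarith)).trans ?_
  refine (DT.val_gt (by simp only [Cn.rt_v, Cn.ng_v]; push_cast; linarith)).trans ?_
  refine (DT.val_gt (by simp only [Cn.rt_v, Cn.ng_v]; push_cast; linarith)).trans ?_
  simp only [dt50, DT.val, cloR, sw50, sl50, sv50, txg, txg_4, txg_6, txg_27, txg_63, txg_77, txg_79, txg_82, txg_85, txg_112, txg_153, txg_156, txg_191, txg_229, txg_230, txg_251, txg_292, txg_293, txg_334]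
  rcases eq_or_lt_of_le h2 with h | h2
  · subst h
    ((try push_cast); (repeat first | rw [if_pos (by linarith)] | rw [if_neg (by linarith)] | erw [if_pos (by linarith)] | erw [if_neg (by linarith)]); (try push_cast); (try ring1))
  · ((try push_cast); (repeat first | rw [if_pos (by linarith)] | rw [if_neg (by linarith)] | erw [if_pos (by linarith)] | erw [if_neg (by linarith)]); (try push_cast); (try ring1))
theorem txe {x : ℝ} (p c : ℝ) (h : |p| ≤ 1 / 2) : txg.v p c x = dt66.val (fun p x => kcg.v p x) p c x := by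
  obtain ⟨h1, h2⟩ := abs_le.1 h
  rcases le_or_gt p (-117 / 250) with g0 | g1000
  · exact txl0 (by linarith) g0
  rcases le_or_gt p (-587 / 1262) with g1 | g1001
  · exact txl1 g1000 g1
  rcases le_or_gt p (-613 / 1574) with g2 | g1002
  · exact txl2 g1001 g2
  rcases le_or_gt p (-9 / 25) with g3 | g1003
  · exact txl3 g1002 g3
  rcases le_or_gt p (-3 / 10) with g4 | g1004
  · exact txl4 g1003 g4
  rcases le_or_gt p (-6 / 25) with g5 | g1005
  · exact txl5 g1004 g5
  rcases le_or_gt p (-9 / 50) with g6 | g1006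
  · exact txl6 g1005 g6
  rcases le_or_gt p (-3 / 25) with g7 | g1007
  · exact txl7 g1006 g7
  rcases le_or_gt p (-3 / 50) with g8 | g1008
  · exact txl8 g1007 g8
  rcases le_or_gt p (3 / 50) with g9 | g1009
  · exact txl9 g1008 g9
  rcases le_or_gt p (3 / 25) with g10 | g1010
  · exact txl10 g1009 g10
  rcases le_or_gt p (9 / 50) with g11 | g1011
  · exact txl11 g1010 g11
  rcases le_or_gt p (6 / 25) with g12 | g1012
  · exact txl12 g1011 g12
  rcases le_or_gt p (3 / 10) with g13 | g1013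
  · exact txl13 g1012 g13
  rcases le_or_gt p (9 / 25) with g14 | g1014
  · exact txl14 g1013 g14
  rcases le_or_gt p (43 / 100) with g15 | g1015
  · exact txl15 g1014 g15
  · exact txl16 g1015 (by linarith)
theorem ta_dt34 (x : ℝ) : dt34.val (fun p x => kcg.v p x) (-1 / 2) (cT (-1 / 2)) x = (0) := by
  simp only [dt34, DT.val, sw34, sl34, sv34]
  ((try push_cast); ring1)
theorem tb_dt34 (x : ℝ) : dt34.val (fun p x => kcg.v p x) (-117 / 250) (cT (-117 / 250)) x = (142139 / 100000000 + (x - 3 / 32) * (72511 / 5000000)) := by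
  simp only [dt34, DT.val, sw34, sl34, sv34]
  ((try push_cast); ring1)
theorem ta_dt35 (x : ℝ) : dt35.val (fun p x => kcg.v p x) (-117 / 250) (cT (-117 / 250)) x = (142139 / 100000000 + (x - 3 / 32) * (72511 / 5000000)) := by
  simp only [dt35, DT.val, sw35, sl35, sl35_2, sv35, sv35_2]
  ((try push_cast); ring1)
theorem tb_dt35 (x : ℝ) : dt35.val (fun p x => kcg.v p x) (-587 / 1262) (1261 / 1262) x = (24661526701 / 15926440000000 + (x - 3 / 32) * (2513807015713 / 159264400000000) + (x - 3 / 32) ^ 2 * (-2070327 / 1577500000)) := by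
  simp only [dt35, DT.val, sw35, sl35, sl35_2, sv35, sv35_2]
  ((try push_cast); ring1)
theorem ta_dt51 (x : ℝ) : dt51.val (fun p x => kcg.v p x) (-1 / 2) (cT (-1 / 2)) x = (0) :=
  (DT.val_le (by simp only [Cn.rt_v, Cn.ng_v]; norm_num)).trans (ta_dt34 x)
theorem tb_dt51 (x : ℝ) : dt51.val (fun p x => kcg.v p x) (-587 / 1262) (1261 / 1262) x = (24661526701 / 15926440000000 + (x - 3 / 32) * (2513807015713 / 159264400000000) + (x - 3 / 32) ^ 2 * (-2070327 / 1577500000)) :=
  (DT.val_gt (by simp only [Cn.rt_v, Cn.ng_v]; norm_num)).trans (tb_dt35 x)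
theorem ta_dt36 (x : ℝ) : dt36.val (fun p x => kcg.v p x) (-587 / 1262) (1261 / 1262) x = (24661526701 / 15926440000000 + (x - 3 / 32) * (2513807015713 / 159264400000000) + (x - 3 / 32) ^ 2 * (-2070327 / 1577500000)) := by
  simp only [dt36, DT.val, cloR, kgA]
  ring1
theorem tb_dt36 (x : ℝ) : dt36.val (fun p x => kcg.v p x) (-613 / 1574) (781 / 787) x = (887497443 / 154842250000 + (x - 3 / 32) * (22677831369 / 619369000000) + (x - 3 / 32) ^ 2 * (-4323 / 4918750)) := by
  simp only [dt36, DT.val, cloR, kgB]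
  ring1
theorem ta_dt37 (x : ℝ) : dt37.val (fun p x => kcg.v p x) (-613 / 1574) (781 / 787) x = (887497443 / 154842250000 + (x - 3 / 32) * (22677831369 / 619369000000) + (x - 3 / 32) ^ 2 * (-4323 / 4918750)) := by
  simp only [dt37, DT.val, sw37, sl37, sl37_2, sv37, sv37_2]
  ((try push_cast); ring1)
theorem tb_dt37 (x : ℝ) : dt37.val (fun p x => kcg.v p x) (-9 / 25) (cT (-9 / 25)) x = (231629 / 25000000 + (x - 3 / 32) * (277821 / 10000000)) := by
  simp only [dt37, DT.val, sw37, sl37, sl37_2, sv37, sv37_2]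
  ((try push_cast); ring1)
theorem ta_dt52 (x : ℝ) : dt52.val (fun p x => kcg.v p x) (-587 / 1262) (1261 / 1262) x = (24661526701 / 15926440000000 + (x - 3 / 32) * (2513807015713 / 159264400000000) + (x - 3 / 32) ^ 2 * (-2070327 / 1577500000)) :=
  (DT.val_le (by simp only [Cn.rt_v, Cn.ng_v]; norm_num)).trans (ta_dt36 x)
theorem tb_dt52 (x : ℝ) : dt52.val (fun p x => kcg.v p x) (-9 / 25) (cT (-9 / 25)) x = (231629 / 25000000 + (x - 3 / 32) * (277821 / 10000000)) :=
  (DT.val_gt (by simp only [Cn.rt_v, Cn.ng_v]; norm_num)).trans (tb_dt37 x)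
theorem ta_dt53 (x : ℝ) : dt53.val (fun p x => kcg.v p x) (-1 / 2) (cT (-1 / 2)) x = (0) :=
  (DT.val_le (by simp only [Cn.rt_v, Cn.ng_v]; norm_num)).trans (ta_dt51 x)
theorem tb_dt53 (x : ℝ) : dt53.val (fun p x => kcg.v p x) (-9 / 25) (cT (-9 / 25)) x = (231629 / 25000000 + (x - 3 / 32) * (277821 / 10000000)) :=
  (DT.val_gt (by simp only [Cn.rt_v, Cn.ng_v]; norm_num)).trans (tb_dt52 x)
theorem ta_dt38 (x : ℝ) : dt38.val (fun p x => kcg.v p x) (-9 / 25) (cT (-9 / 25)) x = (231629 / 25000000 + (x - 3 / 32) * (277821 / 10000000)) := by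
  simp only [dt38, DT.val, sw38, sl38, sv38]
  ((try push_cast); ring1)
theorem tb_dt38 (x : ℝ) : dt38.val (fun p x => kcg.v p x) (-3 / 10) (cT (-3 / 10)) x = (59621 / 3125000 + (x - 3 / 32) * (9019 / 1000000)) := by
  simp only [dt38, DT.val, sw38, sl38, sv38]
  ((try push_cast); ring1)
theorem ta_dt39 (x : ℝ) : dt39.val (fun p x => kcg.v p x) (-3 / 10) (cT (-3 / 10)) x = (59621 / 3125000 + (x - 3 / 32) * (9019 / 1000000)) := by
  simp only [dt39, DT.val, sw39, sl39, sv39]
  ((try push_cast); ring1)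
theorem tb_dt39 (x : ℝ) : dt39.val (fun p x => kcg.v p x) (-6 / 25) (cT (-6 / 25)) x = (2871321 / 100000000 + (x - 3 / 32) * (172491 / 10000000)) := by
  simp only [dt39, DT.val, sw39, sl39, sv39]
  ((try push_cast); ring1)
theorem ta_dt54 (x : ℝ) : dt54.val (fun p x => kcg.v p x) (-9 / 25) (cT (-9 / 25)) x = (231629 / 25000000 + (x - 3 / 32) * (277821 / 10000000)) :=
  (DT.val_le (by simp only [Cn.rt_v, Cn.ng_v]; norm_num)).trans (ta_dt38 x)
theorem tb_dt54 (x : ℝ) : dt54.val (fun p x => kcg.v p x) (-6 / 25) (cT (-6 / 25)) x = (2871321 / 100000000 + (x - 3 / 32) * (172491 / 10000000)) :=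
  (DT.val_gt (by simp only [Cn.rt_v, Cn.ng_v]; norm_num)).trans (tb_dt39 x)
theorem ta_dt40 (x : ℝ) : dt40.val (fun p x => kcg.v p x) (-6 / 25) (cT (-6 / 25)) x = (2871321 / 100000000 + (x - 3 / 32) * (172491 / 10000000)) := by
  simp only [dt40, DT.val, sw40, sl40, sv40]
  ((try push_cast); ring1)
theorem tb_dt40 (x : ℝ) : dt40.val (fun p x => kcg.v p x) (-9 / 50) (cT (-9 / 50)) x = (3774177 / 100000000 + (x - 3 / 32) * (30741 / 1250000)) := by
  simp only [dt40, DT.val, sw40, sl40, sv40]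
  ((try push_cast); ring1)
theorem ta_dt41 (x : ℝ) : dt41.val (fun p x => kcg.v p x) (-9 / 50) (cT (-9 / 50)) x = (3774177 / 100000000 + (x - 3 / 32) * (30741 / 1250000)) := by
  simp only [dt41, DT.val, sw41, sl41, sv41]
  ((try push_cast); ring1)
theorem tb_dt41 (x : ℝ) : dt41.val (fun p x => kcg.v p x) (-3 / 25) (cT (-3 / 25)) x = (2288791 / 50000000 + (x - 3 / 32) * (296383 / 10000000)) := by
  simp only [dt41, DT.val, sw41, sl41, sv41]
  ((try push_cast); ring1)
theorem ta_dt55 (x : ℝ) : dt55.val (fun p x => kcg.v p x) (-6 / 25) (cT (-6 / 25)) x = (2871321 / 100000000 + (x - 3 / 32) * (172491 / 10000000)) :=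
  (DT.val_le (by simp only [Cn.rt_v, Cn.ng_v]; norm_num)).trans (ta_dt40 x)
theorem tb_dt55 (x : ℝ) : dt55.val (fun p x => kcg.v p x) (-3 / 25) (cT (-3 / 25)) x = (2288791 / 50000000 + (x - 3 / 32) * (296383 / 10000000)) :=
  (DT.val_gt (by simp only [Cn.rt_v, Cn.ng_v]; norm_num)).trans (tb_dt41 x)
theorem ta_dt56 (x : ℝ) : dt56.val (fun p x => kcg.v p x) (-9 / 25) (cT (-9 / 25)) x = (231629 / 25000000 + (x - 3 / 32) * (277821 / 10000000)) :=
  (DT.val_le (by simp only [Cn.rt_v, Cn.ng_v]; norm_num)).trans (ta_dt54 x)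
theorem tb_dt56 (x : ℝ) : dt56.val (fun p x => kcg.v p x) (-3 / 25) (cT (-3 / 25)) x = (2288791 / 50000000 + (x - 3 / 32) * (296383 / 10000000)) :=
  (DT.val_gt (by simp only [Cn.rt_v, Cn.ng_v]; norm_num)).trans (tb_dt55 x)
theorem ta_dt57 (x : ℝ) : dt57.val (fun p x => kcg.v p x) (-1 / 2) (cT (-1 / 2)) x = (0) :=
  (DT.val_le (by simp only [Cn.rt_v, Cn.ng_v]; norm_num)).trans (ta_dt53 x)
theorem tb_dt57 (x : ℝ) : dt57.val (fun p x => kcg.v p x) (-3 / 25) (cT (-3 / 25)) x = (2288791 / 50000000 + (x - 3 / 32) * (296383 / 10000000)) :=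
  (DT.val_gt (by simp only [Cn.rt_v, Cn.ng_v]; norm_num)).trans (tb_dt56 x)
theorem ta_dt42 (x : ℝ) : dt42.val (fun p x => kcg.v p x) (-3 / 25) (cT (-3 / 25)) x = (2288791 / 50000000 + (x - 3 / 32) * (296383 / 10000000)) := by
  simp only [dt42, DT.val, sw42, sl42, sv42]
  ((try push_cast); ring1)
theorem tb_dt42 (x : ℝ) : dt42.val (fun p x => kcg.v p x) (-3 / 50) (cT (-3 / 50)) x = (5275921 / 100000000 + (x - 3 / 32) * (301783 / 10000000)) := by
  simp only [dt42, DT.val, sw42, sl42, sv42]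
  ((try push_cast); ring1)
theorem ta_dt43 (x : ℝ) : dt43.val (fun p x => kcg.v p x) (-3 / 50) (cT (-3 / 50)) x = (5275921 / 100000000 + (x - 3 / 32) * (301783 / 10000000)) := by
  simp only [dt43, DT.val, sw43, sl43, sv43]
  ((try push_cast); ring1)
theorem tb_dt43 (x : ℝ) : dt43.val (fun p x => kcg.v p x) (3 / 50) (cT (3 / 50)) x = (5219833 / 100000000 + (x - 3 / 32) * (124917 / 5000000)) := by
  simp only [dt43, DT.val, sw43, sl43, sv43]
  ((try push_cast); ring1)
theorem ta_dt58 (x : ℝ) : dt58.val (fun p x => kcg.v p x) (-3 / 25) (cT (-3 / 25)) x = (2288791 / 50000000 + (x - 3 / 32) * (296383 / 10000000)) :=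
  (DT.val_le (by simp only [Cn.rt_v, Cn.ng_v]; norm_num)).trans (ta_dt42 x)
theorem tb_dt58 (x : ℝ) : dt58.val (fun p x => kcg.v p x) (3 / 50) (cT (3 / 50)) x = (5219833 / 100000000 + (x - 3 / 32) * (124917 / 5000000)) :=
  (DT.val_gt (by simp only [Cn.rt_v, Cn.ng_v]; norm_num)).trans (tb_dt43 x)
theorem ta_dt44 (x : ℝ) : dt44.val (fun p x => kcg.v p x) (3 / 50) (cT (3 / 50)) x = (5219833 / 100000000 + (x - 3 / 32) * (124917 / 5000000)) := by
  simp only [dt44, DT.val, sw44, sl44, sv44]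
  ((try push_cast); ring1)
theorem tb_dt44 (x : ℝ) : dt44.val (fun p x => kcg.v p x) (3 / 25) (cT (3 / 25)) x = (1104049 / 25000000 + (x - 3 / 32) * (30797 / 1250000)) := by
  simp only [dt44, DT.val, sw44, sl44, sv44]
  ((try push_cast); ring1)
theorem ta_dt45 (x : ℝ) : dt45.val (fun p x => kcg.v p x) (3 / 25) (cT (3 / 25)) x = (1104049 / 25000000 + (x - 3 / 32) * (30797 / 1250000)) := by
  simp only [dt45, DT.val, sw45, sl45, sv45]
  ((try push_cast); ring1)
theorem tb_dt45 (x : ℝ) : dt45.val (fun p x => kcg.v p x) (9 / 50) (cT (9 / 50)) x = (875197 / 25000000 + (x - 3 / 32) * (34689 / 1250000)) := by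
  simp only [dt45, DT.val, sw45, sl45, sv45]
  ((try push_cast); ring1)
theorem ta_dt59 (x : ℝ) : dt59.val (fun p x => kcg.v p x) (3 / 50) (cT (3 / 50)) x = (5219833 / 100000000 + (x - 3 / 32) * (124917 / 5000000)) :=
  (DT.val_le (by simp only [Cn.rt_v, Cn.ng_v]; norm_num)).trans (ta_dt44 x)
theorem tb_dt59 (x : ℝ) : dt59.val (fun p x => kcg.v p x) (9 / 50) (cT (9 / 50)) x = (875197 / 25000000 + (x - 3 / 32) * (34689 / 1250000)) :=
  (DT.val_gt (by simp only [Cn.rt_v, Cn.ng_v]; norm_num)).trans (tb_dt45 x)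
theorem ta_dt60 (x : ℝ) : dt60.val (fun p x => kcg.v p x) (-3 / 25) (cT (-3 / 25)) x = (2288791 / 50000000 + (x - 3 / 32) * (296383 / 10000000)) :=
  (DT.val_le (by simp only [Cn.rt_v, Cn.ng_v]; norm_num)).trans (ta_dt58 x)
theorem tb_dt60 (x : ℝ) : dt60.val (fun p x => kcg.v p x) (9 / 50) (cT (9 / 50)) x = (875197 / 25000000 + (x - 3 / 32) * (34689 / 1250000)) :=
  (DT.val_gt (by simp only [Cn.rt_v, Cn.ng_v]; norm_num)).trans (tb_dt59 x)
theorem ta_dt46 (x : ℝ) : dt46.val (fun p x => kcg.v p x) (9 / 50) (cT (9 / 50)) x = (875197 / 25000000 + (x - 3 / 32) * (34689 / 1250000)) := by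
  simp only [dt46, DT.val, sw46, sl46, sv46]
  ((try push_cast); ring1)
theorem tb_dt46 (x : ℝ) : dt46.val (fun p x => kcg.v p x) (6 / 25) (cT (6 / 25)) x = (1284309 / 50000000 + (x - 3 / 32) * (163159 / 5000000)) := by
  simp only [dt46, DT.val, sw46, sl46, sv46]
  ((try push_cast); ring1)
theorem ta_dt47 (x : ℝ) : dt47.val (fun p x => kcg.v p x) (6 / 25) (cT (6 / 25)) x = (1284309 / 50000000 + (x - 3 / 32) * (163159 / 5000000)) := by
  simp only [dt47, DT.val, sw47, sl47, sv47]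
  ((try push_cast); ring1)
theorem tb_dt47 (x : ℝ) : dt47.val (fun p x => kcg.v p x) (3 / 10) (cT (3 / 10)) x = (818471 / 50000000 + (x - 3 / 32) * (15279 / 400000)) := by
  simp only [dt47, DT.val, sw47, sl47, sv47]
  ((try push_cast); ring1)
theorem ta_dt61 (x : ℝ) : dt61.val (fun p x => kcg.v p x) (9 / 50) (cT (9 / 50)) x = (875197 / 25000000 + (x - 3 / 32) * (34689 / 1250000)) :=
  (DT.val_le (by simp only [Cn.rt_v, Cn.ng_v]; norm_num)).trans (ta_dt46 x)
theorem tb_dt61 (x : ℝ) : dt61.val (fun p x => kcg.v p x) (3 / 10) (cT (3 / 10)) x = (818471 / 50000000 + (x - 3 / 32) * (15279 / 400000)) :=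
  (DT.val_gt (by simp only [Cn.rt_v, Cn.ng_v]; norm_num)).trans (tb_dt47 x)
theorem ta_dt48 (x : ℝ) : dt48.val (fun p x => kcg.v p x) (3 / 10) (cT (3 / 10)) x = (818471 / 50000000 + (x - 3 / 32) * (15279 / 400000)) := by
  simp only [dt48, DT.val, sw48, sl48, sv48]
  ((try push_cast); ring1)
theorem tb_dt48 (x : ℝ) : dt48.val (fun p x => kcg.v p x) (9 / 25) (cT (9 / 25)) x = (17047 / 2000000 + (x - 3 / 32) * (107759 / 2500000)) := by
  simp only [dt48, DT.val, sw48, sl48, sv48]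
  ((try push_cast); ring1)
theorem ta_dt49 (x : ℝ) : dt49.val (fun p x => kcg.v p x) (9 / 25) (cT (9 / 25)) x = (17047 / 2000000 + (x - 3 / 32) * (107759 / 2500000)) := by
  simp only [dt49, DT.val, sw49, sl49, sv49]
  ((try push_cast); ring1)
theorem tb_dt49 (x : ℝ) : dt49.val (fun p x => kcg.v p x) (43 / 100) (cT (43 / 100)) x = (36057 / 12500000 + (x - 3 / 32) * (279663 / 10000000)) := by
  simp only [dt49, DT.val, sw49, sl49, sv49]
  ((try push_cast); ring1)
theorem ta_dt50 (x : ℝ) : dt50.val (fun p x => kcg.v p x) (43 / 100) (cT (43 / 100)) x = (36057 / 12500000 + (x - 3 / 32) * (279663 / 10000000)) := by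
  simp only [dt50, DT.val, sw50, sl50, sv50]
  ((try push_cast); ring1)
theorem tb_dt50 (x : ℝ) : dt50.val (fun p x => kcg.v p x) (1 / 2) (cT (1 / 2)) x = (0) := by
  simp only [dt50, DT.val, sw50, sl50, sv50]
  ((try push_cast); ring1)
theorem ta_dt62 (x : ℝ) : dt62.val (fun p x => kcg.v p x) (9 / 25) (cT (9 / 25)) x = (17047 / 2000000 + (x - 3 / 32) * (107759 / 2500000)) :=
  (DT.val_le (by simp only [Cn.rt_v, Cn.ng_v]; norm_num)).trans (ta_dt49 x)
theorem tb_dt62 (x : ℝ) : dt62.val (fun p x => kcg.v p x) (1 / 2) (cT (1 / 2)) x = (0) :=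
  (DT.val_gt (by simp only [Cn.rt_v, Cn.ng_v]; norm_num)).trans (tb_dt50 x)
theorem ta_dt63 (x : ℝ) : dt63.val (fun p x => kcg.v p x) (3 / 10) (cT (3 / 10)) x = (818471 / 50000000 + (x - 3 / 32) * (15279 / 400000)) :=
  (DT.val_le (by simp only [Cn.rt_v, Cn.ng_v]; norm_num)).trans (ta_dt48 x)
theorem tb_dt63 (x : ℝ) : dt63.val (fun p x => kcg.v p x) (1 / 2) (cT (1 / 2)) x = (0) :=
  (DT.val_gt (by simp only [Cn.rt_v, Cn.ng_v]; norm_num)).trans (tb_dt62 x)
theorem ta_dt64 (x : ℝ) : dt64.val (fun p x => kcg.v p x) (9 / 50) (cT (9 / 50)) x = (875197 / 25000000 + (x - 3 / 32) * (34689 / 1250000)) :=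
  (DT.val_le (by simp only [Cn.rt_v, Cn.ng_v]; norm_num)).trans (ta_dt61 x)
theorem tb_dt64 (x : ℝ) : dt64.val (fun p x => kcg.v p x) (1 / 2) (cT (1 / 2)) x = (0) :=
  (DT.val_gt (by simp only [Cn.rt_v, Cn.ng_v]; norm_num)).trans (tb_dt63 x)
theorem ta_dt65 (x : ℝ) : dt65.val (fun p x => kcg.v p x) (-3 / 25) (cT (-3 / 25)) x = (2288791 / 50000000 + (x - 3 / 32) * (296383 / 10000000)) :=
  (DT.val_le (by simp only [Cn.rt_v, Cn.ng_v]; norm_num)).trans (ta_dt60 x)
theorem tb_dt65 (x : ℝ) : dt65.val (fun p x => kcg.v p x) (1 / 2) (cT (1 / 2)) x = (0) :=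
  (DT.val_gt (by simp only [Cn.rt_v, Cn.ng_v]; norm_num)).trans (tb_dt64 x)
theorem ta_dt66 (x : ℝ) : dt66.val (fun p x => kcg.v p x) (-1 / 2) (cT (-1 / 2)) x = (0) :=
  (DT.val_le (by simp only [Cn.rt_v, Cn.ng_v]; norm_num)).trans (ta_dt57 x)
theorem tb_dt66 (x : ℝ) : dt66.val (fun p x => kcg.v p x) (1 / 2) (cT (1 / 2)) x = (0) :=
  (DT.val_gt (by simp only [Cn.rt_v, Cn.ng_v]; norm_num)).trans (tb_dt65 x)
theorem to_dt34 (x : ℝ) : dt34.Ok (fun p x => kcg.v p x) x := trivial
theorem to_dt35 (x : ℝ) : dt35.Ok (fun p x => kcg.v p x) x := trivial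
theorem to_dt51 (x : ℝ) : dt51.Ok (fun p x => kcg.v p x) x :=
  DT.ok_node (v := -117 / 250) (by simp only [Cn.rt_v, Cn.ng_v]; norm_num) (by rw [abs_le]; constructor <;> norm_num) rfl (tb_dt34 x) (ta_dt35 x) (by ring1) (to_dt34 x) (to_dt35 x)
theorem to_dt36 (x : ℝ) : dt36.Ok (fun p x => kcg.v p x) x := trivial
theorem to_dt37 (x : ℝ) : dt37.Ok (fun p x => kcg.v p x) x := trivial
theorem to_dt52 (x : ℝ) : dt52.Ok (fun p x => kcg.v p x) x :=
  DT.ok_node (v := -613 / 1574) (by simp only [Cn.rt_v, Cn.ng_v]; norm_num) (by rw [abs_le]; constructor <;> norm_num) ctB (tb_dt36 x) (ta_dt37 x) (by ring1) (to_dt36 x) (to_dt37 x)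
theorem to_dt53 (x : ℝ) : dt53.Ok (fun p x => kcg.v p x) x :=
  DT.ok_node (v := -587 / 1262) (by simp only [Cn.rt_v, Cn.ng_v]; norm_num) (by rw [abs_le]; constructor <;> norm_num) ctA (tb_dt51 x) (ta_dt52 x) (by ring1) (to_dt51 x) (to_dt52 x)
theorem to_dt38 (x : ℝ) : dt38.Ok (fun p x => kcg.v p x) x := trivial
theorem to_dt39 (x : ℝ) : dt39.Ok (fun p x => kcg.v p x) x := trivial
theorem to_dt54 (x : ℝ) : dt54.Ok (fun p x => kcg.v p x) x :=
  DT.ok_node (v := -3 / 10) (by simp only [Cn.rt_v, Cn.ng_v]; norm_num) (by rw [abs_le]; constructor <;> norm_num) rfl (tb_dt38 x) (ta_dt39 x) (by ring1) (to_dt38 x) (to_dt39 x)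
theorem to_dt40 (x : ℝ) : dt40.Ok (fun p x => kcg.v p x) x := trivial
theorem to_dt41 (x : ℝ) : dt41.Ok (fun p x => kcg.v p x) x := trivial
theorem to_dt55 (x : ℝ) : dt55.Ok (fun p x => kcg.v p x) x :=
  DT.ok_node (v := -9 / 50) (by simp only [Cn.rt_v, Cn.ng_v]; norm_num) (by rw [abs_le]; constructor <;> norm_num) rfl (tb_dt40 x) (ta_dt41 x) (by ring1) (to_dt40 x) (to_dt41 x)
theorem to_dt56 (x : ℝ) : dt56.Ok (fun p x => kcg.v p x) x :=
  DT.ok_node (v := -6 / 25) (by simp only [Cn.rt_v, Cn.ng_v]; norm_num) (by rw [abs_le]; constructor <;> norm_num) rfl (tb_dt54 x) (ta_dt55 x) (by ring1) (to_dt54 x) (to_dt55 x)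
theorem to_dt57 (x : ℝ) : dt57.Ok (fun p x => kcg.v p x) x :=
  DT.ok_node (v := -9 / 25) (by simp only [Cn.rt_v, Cn.ng_v]; norm_num) (by rw [abs_le]; constructor <;> norm_num) rfl (tb_dt53 x) (ta_dt56 x) (by ring1) (to_dt53 x) (to_dt56 x)
theorem to_dt42 (x : ℝ) : dt42.Ok (fun p x => kcg.v p x) x := trivial
theorem to_dt43 (x : ℝ) : dt43.Ok (fun p x => kcg.v p x) x := trivial
theorem to_dt58 (x : ℝ) : dt58.Ok (fun p x => kcg.v p x) x :=
  DT.ok_node (v := -3 / 50) (by simp only [Cn.rt_v, Cn.ng_v]; norm_num) (by rw [abs_le]; constructor <;> norm_num) rfl (tb_dt42 x) (ta_dt43 x) (by ring1) (to_dt42 x) (to_dt43 x)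
theorem to_dt44 (x : ℝ) : dt44.Ok (fun p x => kcg.v p x) x := trivial
theorem to_dt45 (x : ℝ) : dt45.Ok (fun p x => kcg.v p x) x := trivial
theorem to_dt59 (x : ℝ) : dt59.Ok (fun p x => kcg.v p x) x :=
  DT.ok_node (v := 3 / 25) (by simp only [Cn.rt_v, Cn.ng_v]; norm_num) (by rw [abs_le]; constructor <;> norm_num) rfl (tb_dt44 x) (ta_dt45 x) (by ring1) (to_dt44 x) (to_dt45 x)
theorem to_dt60 (x : ℝ) : dt60.Ok (fun p x => kcg.v p x) x :=
  DT.ok_node (v := 3 / 50) (by simp only [Cn.rt_v, Cn.ng_v]; norm_num) (by rw [abs_le]; constructor <;> norm_num) rfl (tb_dt58 x) (ta_dt59 x) (by ring1) (to_dt58 x) (to_dt59 x)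
theorem to_dt46 (x : ℝ) : dt46.Ok (fun p x => kcg.v p x) x := trivial
theorem to_dt47 (x : ℝ) : dt47.Ok (fun p x => kcg.v p x) x := trivial
theorem to_dt61 (x : ℝ) : dt61.Ok (fun p x => kcg.v p x) x :=
  DT.ok_node (v := 6 / 25) (by simp only [Cn.rt_v, Cn.ng_v]; norm_num) (by rw [abs_le]; constructor <;> norm_num) rfl (tb_dt46 x) (ta_dt47 x) (by ring1) (to_dt46 x) (to_dt47 x)
theorem to_dt48 (x : ℝ) : dt48.Ok (fun p x => kcg.v p x) x := trivial
theorem to_dt49 (x : ℝ) : dt49.Ok (fun p x => kcg.v p x) x := trivial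
theorem to_dt50 (x : ℝ) : dt50.Ok (fun p x => kcg.v p x) x := trivial
theorem to_dt62 (x : ℝ) : dt62.Ok (fun p x => kcg.v p x) x :=
  DT.ok_node (v := 43 / 100) (by simp only [Cn.rt_v, Cn.ng_v]; norm_num) (by rw [abs_le]; constructor <;> norm_num) rfl (tb_dt49 x) (ta_dt50 x) (by ring1) (to_dt49 x) (to_dt50 x)
theorem to_dt63 (x : ℝ) : dt63.Ok (fun p x => kcg.v p x) x :=
  DT.ok_node (v := 9 / 25) (by simp only [Cn.rt_v, Cn.ng_v]; norm_num) (by rw [abs_le]; constructor <;> norm_num) rfl (tb_dt48 x) (ta_dt62 x) (by ring1) (to_dt48 x) (to_dt62 x)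
theorem to_dt64 (x : ℝ) : dt64.Ok (fun p x => kcg.v p x) x :=
  DT.ok_node (v := 3 / 10) (by simp only [Cn.rt_v, Cn.ng_v]; norm_num) (by rw [abs_le]; constructor <;> norm_num) rfl (tb_dt61 x) (ta_dt63 x) (by ring1) (to_dt61 x) (to_dt63 x)
theorem to_dt65 (x : ℝ) : dt65.Ok (fun p x => kcg.v p x) x :=
  DT.ok_node (v := 9 / 50) (by simp only [Cn.rt_v, Cn.ng_v]; norm_num) (by rw [abs_le]; constructor <;> norm_num) rfl (tb_dt60 x) (ta_dt64 x) (by ring1) (to_dt60 x) (to_dt64 x)
theorem to_dt66 (x : ℝ) : dt66.Ok (fun p x => kcg.v p x) x :=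
  DT.ok_node (v := -3 / 25) (by simp only [Cn.rt_v, Cn.ng_v]; norm_num) (by rw [abs_le]; constructor <;> norm_num) rfl (tb_dt57 x) (ta_dt65 x) (by ring1) (to_dt57 x) (to_dt65 x)
theorem dok (x : ℝ) : dd.Ok x := ⟨ko_dt33 x, fun p h => kfe h, to_dt66 x⟩
theorem K0_ (x : ℝ) : ∀ q y, OnC (0 : Fin 5) q y → TightK (tyO q) q (fun p => dd.kf.v p x) (c1n y) y (tKF 0 q y x) := by
  refine K0_of (R := fun q y => tKF 0 q y x) (kc := fun p => kcg.v p x) ?_ ?_ ?_
  · intro y h
    show tKF 0 0 y x = _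
    ·
      rw [← (atF00 h).K]
      show kf0q0.v y x = _
      simp only [kf0q0, kf0q0_9, kf0q0_12, c1g_v]
      ((try push_cast); (try simp only [mul_inv]); (try ring_nf))
  · intro y h
    show tKF 0 1 y x = _
    ·
      rw [← (atF01 h).K]
      show kf0q1.v y x = _
      simp only [kf0q1, kf0q1_10, c1g_v]
      ((try push_cast); (try simp only [mul_inv]); (try ring_nf))
  · intro y h
    show tKF 0 2 y x = _
    ·
      have ey := yag_v h.1.nonneg (h.2 rfl)
      rw [← (atF02 h).K]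
      show kfc02.v (c1n y) x = _
      simp only [kfc02, c1g_v, ey]
      ((try push_cast); (try simp only [mul_inv]); (try ring_nf))
theorem L0_ (x : ℝ) : ∀ q y, OnC (0 : Fin 5) q y → TightL (tyO q) (fun p c => dd.TX.val dd.kf.v p c x) (c1n y) y (tL 0 q y x) := by
  refine L0_of (R := fun q y => tL 0 q y x) (tx := fun p c => txg.v p c x) txe ?_ ?_ ?_
  · intro y h
    show tL 0 0 y x = _
    ·
      rw [← (atF00 h).L]
      show l0q0.v y x = _
      simp only [l0q0, c1g_v]
      ((try push_cast); (try simp only [mul_inv]); (try ring_nf))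
  · intro y h
    show tL 0 1 y x = _
    ·
      rw [← (atF01 h).L]
      show l0q1.v y x = _
      simp only [l0q1, c1g_v]
      ((try push_cast); (try simp only [mul_inv]); (try ring_nf))
  · intro y h
    show tL 0 2 y x = _
    ·
      have ey := yag_v h.1.nonneg (h.2 rfl)
      rw [← (atF02 h).L]
      show lc02.v (c1n y) x = _
      simp only [lc02, lc02_7, lc02_8, c1g_v, ey]
      ((try push_cast); (try simp only [mul_inv]); (try ring_nf))
theorem Kn_ (x : ℝ) : ∀ q y, InQ q y → TightK (tyN q) q (fun p => dd.kf.v p x) (c3n y) y (tKF (Fin.last 4) q y x) := by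
  refine Kn_of (R := fun q y => tKF 4 q y x) (kc := fun p => kcg.v p x) ?_ ?_ ?_ ?_
  · intro y h
    show tKF 4 0 y x = _
    ·
      rw [← (atF40 (onc h (by decide))).K]
      show kf4q0.v y x = _
      simp only [kf4q0, c3g_v]
      ((try push_cast); (try simp only [mul_inv]); (try ring_nf))
  · intro y h
    show tKF 4 1 y x = _
    ·
      rw [← (atF41 (onc h (by decide))).K]
      show kf4q1.v y x = _
      simp only [kf4q1, c3g_v]
      ((try push_cast); (try simp only [mul_inv]); (try ring_nf))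
  · intro y h
    show tKF 4 2 y x = _
    ·
      rw [← (atF42 (onc h (by decide))).K]
      show kf4q2.v y x = _
      simp only [kf4q2, c3g_v]
      ((try push_cast); (try simp only [mul_inv]); (try ring_nf))
  · intro y h
    show tKF 4 3 y x = _
    ·
      have ey := ycg_v h.nonneg h.le_two
      rw [← (atF43 (onc h (by decide))).K]
      show kfc43.v (c3n y) x = _
      simp only [kfc43, c3g_v, ey]
      ((try push_cast); (try simp only [mul_inv]); (try ring_nf))
theorem Ln_ (x : ℝ) : ∀ q y, InQ q y → TightL (tyN q) (fun p c => dd.TX.val dd.kf.v p c x) (c3n y) y (tL (Fin.last 4) q y x) := by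
  refine Ln_of (R := fun q y => tL 4 q y x) (tx := fun p c => txg.v p c x) txe ?_ ?_ ?_ ?_
  · intro y h
    show tL 4 0 y x = _
    ·
      rw [← (atF40 (onc h (by decide))).L]
      show l4q0.v y x = _
      simp only [l4q0, l4q0_6, l4q0_7, l4q0_8, c3g_v]
      ((try push_cast); (try simp only [mul_inv]); (try ring_nf))
  · intro y h
    show tL 4 1 y x = _
    ·
      rw [← (atF41 (onc h (by decide))).L]
      show l4q1.v y x = _
      simp only [l4q1, l4q1_7, l4q1_8, l4q1_9, c3g_v]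
      ((try push_cast); (try simp only [mul_inv]); (try ring_nf))
  · intro y h
    show tL 4 2 y x = _
    ·
      rw [← (atF42 (onc h (by decide))).L]
      show l4q2.v y x = _
      simp only [l4q2, l4q2_7, l4q2_8, l4q2_9, l4q2_12, l4q2_14, c3g_v]
      ((try push_cast); (try simp only [mul_inv]); (try ring_nf))
  · intro y h
    show tL 4 3 y x = _
    ·
      have ey := ycg_v h.nonneg h.le_two
      rw [← (atF43 (onc h (by decide))).L]
      show lc43.v (c3n y) x = _
      simp only [lc43, lc43_7, lc43_8, lc43_9, lc43_12, lc43_14, c3g_v, ey]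
      ((try push_cast); (try simp only [mul_inv]); (try ring_nf))
theorem f0_ : ∀ q y, InQ q y → (ff q).f.v y = crv PP 1 q y
  | 0, y, _ => ecv1q0.symm
  | 1, y, _ => ecv1q1.symm
  | 2, y, _ => ecv1q2.symm
  | 3, y, h => (ecv1q3 h.1).symm
theorem fn_ : ∀ q y, InQ q y → (fl q).f.v y = crv PP 3 q y
  | 0, y, _ => ecv3q0.symm
  | 1, y, _ => ecv3q1.symm
  | 2, y, _ => ecv3q2.symm
  | 3, y, h => (ecv3q3 h.1).symm
theorem yK00 {y x : ℝ} (h : OnC (0 : Fin 5) 0 y) : tKF 0 0 y x = kf0q0.v y x := (atF00 h).K.symm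
theorem yK10 {y x : ℝ} (h : InQ 0 y) : tKF 1 0 y x = kf1q0.v y x := (atF10 (onc h (by decide))).K.symm
theorem yK01 {y x : ℝ} (h : OnC (0 : Fin 5) 1 y) : tKF 0 1 y x = kf0q1.v y x := (atF01 h).K.symm
theorem yK11 {y x : ℝ} (h : InQ 1 y) : tKF 1 1 y x = kf1q1.v y x := (atF11 (onc h (by decide))).K.symm
theorem yK02 {y x : ℝ} (h : OnC (0 : Fin 5) 2 y) : tKF 0 2 y x = kf0q2.v y x := by
  rw [← (atF02 h).K]
  show kfc02.v (c1n y) x = _
  have ey := yag_v h.1.nonneg (h.2 rfl)
  simp only [kfc02, kf0q2, ey, c1g_v, c3g_v, swg_v]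
  ((try push_cast); (try ring_nf))
theorem yK12 {y x : ℝ} (h : InQ 2 y) : tKF 1 2 y x = kf1q2.v y x := (atF12 (onc h (by decide))).K.symm
theorem yK40 {y x : ℝ} (h : InQ 0 y) : tKF 4 0 y x = kf4q0.v y x := (atF40 (onc h (by decide))).K.symm
theorem yK30 {y x : ℝ} (h : InQ 0 y) : tKF 3 0 y x = kf3q0.v y x := (atF30 (onc h (by decide))).K.symm
theorem yK41 {y x : ℝ} (h : InQ 1 y) : tKF 4 1 y x = kf4q1.v y x := (atF41 (onc h (by decide))).K.symm
theorem yK31 {y x : ℝ} (h : InQ 1 y) : tKF 3 1 y x = kf3q1.v y x := (atF31 (onc h (by decide))).K.symm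
theorem yK42 {y x : ℝ} (h : InQ 2 y) : tKF 4 2 y x = kf4q2.v y x := (atF42 (onc h (by decide))).K.symm
theorem yK32 {y x : ℝ} (h : InQ 2 y) : tKF 3 2 y x = kf3q2.v y x := (atF32 (onc h (by decide))).K.symm
theorem yK43 {y x : ℝ} (h : InQ 3 y) : tKF 4 3 y x = kf4q3.v y x := by
  rw [← (atF43 (onc h (by decide))).K]
  show kfc43.v (c3n y) x = _
  have ey := ycg_v h.nonneg h.le_two
  simp only [kfc43, kf4q3, ey, c1g_v, c3g_v, swg_v]
  ((try push_cast); (try ring_nf))
theorem yK33 {y x : ℝ} (h : InQ 3 y) : tKF 3 3 y x = kf3q3.v y x := by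
  rw [← (atF33 (onc h (by decide))).K]
  show kfc33.v (c3n y) x = _
  have ey := ycg_v h.nonneg h.le_two
  simp only [kfc33, kf3q3, cv3r, ey, c1g_v, c3g_v, swg_v]
  ((try push_cast); (try ring_nf))
theorem yL00 {y x : ℝ} (h : OnC (0 : Fin 5) 0 y) : tL 0 0 y x = l0q0.v y x := (atF00 h).L.symm
theorem yL10 {y x : ℝ} (h : InQ 0 y) : tL 1 0 y x = l1q0.v y x := (atF10 (onc h (by decide))).L.symm
theorem yL01 {y x : ℝ} (h : OnC (0 : Fin 5) 1 y) : tL 0 1 y x = l0q1.v y x := (atF01 h).L.symm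
theorem yL11 {y x : ℝ} (h : InQ 1 y) : tL 1 1 y x = l1q1.v y x := (atF11 (onc h (by decide))).L.symm
theorem yL02 {y x : ℝ} (h : OnC (0 : Fin 5) 2 y) : tL 0 2 y x = l0q2.v y x := by
  rw [← (atF02 h).L]
  show lc02.v (c1n y) x = _
  have ey := yag_v h.1.nonneg (h.2 rfl)
  simp only [lc02, lc02_7, lc02_8, l0q2, l0q2_7, l0q2_8, ey, c1g_v, c3g_v, swg_v]
  ((try push_cast); (try ring_nf))
theorem yL12 {y x : ℝ} (h : InQ 2 y) : tL 1 2 y x = l1q2.v y x := (atF12 (onc h (by decide))).L.symm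
theorem yL40 {y x : ℝ} (h : InQ 0 y) : tL 4 0 y x = l4q0.v y x := (atF40 (onc h (by decide))).L.symm
theorem yL30 {y x : ℝ} (h : InQ 0 y) : tL 3 0 y x = l3q0.v y x := (atF30 (onc h (by decide))).L.symm
theorem yL41 {y x : ℝ} (h : InQ 1 y) : tL 4 1 y x = l4q1.v y x := (atF41 (onc h (by decide))).L.symm
theorem yL31 {y x : ℝ} (h : InQ 1 y) : tL 3 1 y x = l3q1.v y x := (atF31 (onc h (by decide))).L.symm
theorem yL42 {y x : ℝ} (h : InQ 2 y) : tL 4 2 y x = l4q2.v y x := (atF42 (onc h (by decide))).L.symm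
theorem yL32 {y x : ℝ} (h : InQ 2 y) : tL 3 2 y x = l3q2.v y x := (atF32 (onc h (by decide))).L.symm
theorem yL43 {y x : ℝ} (h : InQ 3 y) : tL 4 3 y x = l4q3.v y x := by
  rw [← (atF43 (onc h (by decide))).L]
  show lc43.v (c3n y) x = _
  have ey := ycg_v h.nonneg h.le_two
  simp only [lc43, lc43_7, lc43_8, lc43_9, lc43_12, lc43_14, l4q3, l4q3_7, l4q3_8, l4q3_9, l4q3_12, l4q3_14, ey, c1g_v, c3g_v, swg_v]
  ((try push_cast); (try ring_nf))
theorem yL33 {y x : ℝ} (h : InQ 3 y) : tL 3 3 y x = l3q3.v y x := by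
  rw [← (atF33 (onc h (by decide))).L]
  show lc33.v (c3n y) x = _
  have ey := ycg_v h.nonneg h.le_two
  simp only [lc33, l3q3, cv3r, ey, c1g_v, c3g_v, swg_v]
  ((try push_cast); (try ring_nf))
theorem sK0_ (x : ℝ) : ∀ q y, OnC (0 : Fin 5) q y → c1n y < crv PP 1 q y →
    (ff q).SK.v y x * (crv PP 1 q y - c1n y) = tKF 1 q y x - tKF 0 q y x := by
  intro q y h hlt
  rcases onC_q h with rfl | rfl | rfl
  · rw [yK10 h.1, yK00 h]
    rw [ecv1q0, ← c1g_v] at hlt ⊢
    have hd : 0 < cv1m.v y - c1g.v y := sub_pos.2 hlt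
    have hi := inv_mul_cancel₀ hd.ne'
    show skf0.v y x * _ = _
    simp only [skf0, kf1q0]
    (try push_cast)
    linear_combination (c1g.v y * bf1q0.v y x - kf0q0.v y x) * hi
  · rw [yK11 h.1, yK01 h]
    rw [ecv1q1, ← c1g_v] at hlt ⊢
    have hd : 0 < cv1m.v y - c1g.v y := sub_pos.2 hlt
    have hi := inv_mul_cancel₀ hd.ne'
    show skf1.v y x * _ = _
    simp only [skf1, kf1q1]
    (try push_cast)
    linear_combination (c1g.v y * bf1q1.v y x - kf0q1.v y x) * hi
  · rw [yK12 h.1, yK02 h]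
    rw [ecv1q2, ← c1g_v] at hlt ⊢
    have hd : 0 < cv1p.v y - c1g.v y := sub_pos.2 hlt
    have hi := inv_mul_cancel₀ hd.ne'
    have hb : |c1g.v y| ≤ 1 / 2 := by rw [c1g_v]; exact bnd_O h
    have eo := odd (x := x) hb
    show skf2.v y x * _ = _
    simp only [skf2, kf1q2, kf0q2, eo]
    (try push_cast)
    linear_combination (c1g.v y * (bf1q2.v y x - 1) + (y - 1) * kcg.v (c1g.v y) x) * hi
theorem sX0_ (x : ℝ) : ∀ q y, OnC (0 : Fin 5) q y → c1n y < crv PP 1 q y →
    (ff q).SX.v y x * (crv PP 1 q y - c1n y) = tL 1 q y x - tL 0 q y x := by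
  intro q y h hlt
  rcases onC_q h with rfl | rfl | rfl
  · rw [yL10 h.1, yL00 h]
    rw [ecv1q0, ← c1g_v] at hlt ⊢
    have hd : 0 < cv1m.v y - c1g.v y := sub_pos.2 hlt
    have hi := inv_mul_cancel₀ hd.ne'
    show sxf0.v y x * _ = _
    simp only [sxf0]
    (try push_cast)
    linear_combination (l1q0.v y x - l0q0.v y x) * hi
  · rw [yL11 h.1, yL01 h]
    rw [ecv1q1, ← c1g_v] at hlt ⊢
    have hd : 0 < cv1m.v y - c1g.v y := sub_pos.2 hlt
    have hi := inv_mul_cancel₀ hd.ne'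
    show sxf1.v y x * _ = _
    simp only [sxf1]
    (try push_cast)
    linear_combination (l1q1.v y x - l0q1.v y x) * hi
  · rw [yL12 h.1, yL02 h]
    rw [ecv1q2, ← c1g_v] at hlt ⊢
    have hd : 0 < cv1p.v y - c1g.v y := sub_pos.2 hlt
    have hi := inv_mul_cancel₀ hd.ne'
    show sxf2.v y x * _ = _
    simp only [sxf2]
    (try push_cast)
    linear_combination (l1q2.v y x - l0q2.v y x) * hi
theorem sKn_ (x : ℝ) : ∀ q y, InQ q y → crv PP 3 q y < c3n y →
    (fl q).SK.v y x * (c3n y - crv PP 3 q y) = tKF 4 q y x - tKF 3 q y x := by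
  intro q y h hlt
  match q, h with
  | 0, h =>
    rw [yK40 h, yK30 h]
    rw [ecv3q0, ← c3g_v] at hlt ⊢
    have hd : 0 < c3g.v y - cv3m.v y := sub_pos.2 hlt
    have hi := inv_mul_cancel₀ hd.ne'
    show skl0.v y x * _ = _
    simp only [skl0, kf3q0]
    (try push_cast)
    linear_combination (kf4q0.v y x - c3g.v y * bf3q0.v y x) * hi
  | 1, h =>
    rw [yK41 h, yK31 h]
    rw [ecv3q1, ← c3g_v] at hlt ⊢
    have hd : 0 < c3g.v y - cv3m.v y := sub_pos.2 hlt
    have hi := inv_mul_cancel₀ hd.ne'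
    show skl1.v y x * _ = _
    simp only [skl1, kf3q1]
    (try push_cast)
    linear_combination (kf4q1.v y x - c3g.v y * bf3q1.v y x) * hi
  | 2, h =>
    rw [yK42 h, yK32 h]
    rw [ecv3q2, ← c3g_v] at hlt ⊢
    have hd : 0 < c3g.v y - cv3p.v y := sub_pos.2 hlt
    have hi := inv_mul_cancel₀ hd.ne'
    show skl2.v y x * _ = _
    simp only [skl2, kf3q2]
    (try push_cast)
    linear_combination (kf4q2.v y x - c3g.v y * bf3q2.v y x) * hi
  | 3, h =>
    rw [yK43 h, yK33 h]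
    rw [ecv3q3 h.1, ← c3g_v] at hlt ⊢
    have hd : 0 < c3g.v y - cv3r.v y := sub_pos.2 hlt
    have hi := inv_mul_cancel₀ hd.ne'
    show skl3.v y x * _ = _
    simp only [skl3, kf3q3]
    (try push_cast)
    linear_combination (kf4q3.v y x - c3g.v y * bf3q3.v y x) * hi
theorem sXn_ (x : ℝ) : ∀ q y, InQ q y → crv PP 3 q y < c3n y →
    (fl q).SX.v y x * (c3n y - crv PP 3 q y) = tL 4 q y x - tL 3 q y x := by
  intro q y h hlt
  match q, h with
  | 0, h =>
    rw [yL40 h, yL30 h]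
    rw [ecv3q0, ← c3g_v] at hlt ⊢
    have hd : 0 < c3g.v y - cv3m.v y := sub_pos.2 hlt
    have hi := inv_mul_cancel₀ hd.ne'
    show sxl0.v y x * _ = _
    simp only [sxl0]
    (try push_cast)
    linear_combination (l4q0.v y x - l3q0.v y x) * hi
  | 1, h =>
    rw [yL41 h, yL31 h]
    rw [ecv3q1, ← c3g_v] at hlt ⊢
    have hd : 0 < c3g.v y - cv3m.v y := sub_pos.2 hlt
    have hi := inv_mul_cancel₀ hd.ne'
    show sxl1.v y x * _ = _
    simp only [sxl1]
    (try push_cast)
    linear_combination (l4q1.v y x - l3q1.v y x) * hi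
  | 2, h =>
    rw [yL42 h, yL32 h]
    rw [ecv3q2, ← c3g_v] at hlt ⊢
    have hd : 0 < c3g.v y - cv3p.v y := sub_pos.2 hlt
    have hi := inv_mul_cancel₀ hd.ne'
    show sxl2.v y x * _ = _
    simp only [sxl2]
    (try push_cast)
    linear_combination (l4q2.v y x - l3q2.v y x) * hi
  | 3, h =>
    rw [yL43 h, yL33 h]
    rw [ecv3q3 h.1, ← c3g_v] at hlt ⊢
    have hd : 0 < c3g.v y - cv3r.v y := sub_pos.2 hlt
    have hi := inv_mul_cancel₀ hd.ne'
    show sxl3.v y x * _ = _
    simp only [sxl3]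
    (try push_cast)
    linear_combination (l4q3.v y x - l3q3.v y x) * hi
theorem kn_ (x : ℝ) : ∀ X, |X| ≤ vv.k1.v → kcg.v (-X) x = -(k0c.v x * X) := by
  intro X h
  have h : |X| ≤ 3 / 50 := by
    refine h.trans_eq ?_
    show (Cn.rt 3 50).v = _
    rw [Cn.rt_v]
    norm_num
  obtain ⟨h1, h2⟩ := abs_le.1 h
  rw [kcl8 (p := -X) (by linarith) (by linarith)]
  simp only [k0c]
  push_cast
  ring
theorem tvm {p c x : ℝ} (h1 : -3 / 50 ≤ p) (h2 : p ≤ 3 / 50) : dt66.val (fun p x => kcg.v p x) p c x = (69832949 / 1250000000 + (x - 3 / 32) * (13815391 / 500000000)) + (-2337 / 500000 + (x - 3 / 32) * (-51949 / 1200000)) * p + (-940997 / 1000000 + (x - 3 / 32) * (-1387 / 100000)) * p ^ 2 := by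
  rcases eq_or_lt_of_le h1 with h | h1
  · subst h
    refine (DT.val_gt (by simp only [Cn.rt_v, Cn.ng_v]; push_cast; linarith)).trans ?_
    refine (DT.val_le (by simp only [Cn.rt_v, Cn.ng_v]; push_cast; linarith)).trans ?_
    refine (DT.val_le (by simp only [Cn.rt_v, Cn.ng_v]; push_cast; linarith)).trans ?_
    refine (DT.val_le (by simp only [Cn.rt_v, Cn.ng_v]; push_cast; linarith)).trans ?_
    simp only [dt42, DT.val, sw42, sl42, sv42]
    ((try push_cast); ring1)
  ·
    refine (DT.val_gt (by simp only [Cn.rt_v, Cn.ng_v]; push_cast; linarith)).trans ?_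
    refine (DT.val_le (by simp only [Cn.rt_v, Cn.ng_v]; push_cast; linarith)).trans ?_
    refine (DT.val_le (by simp only [Cn.rt_v, Cn.ng_v]; push_cast; linarith)).trans ?_
    refine (DT.val_gt (by simp only [Cn.rt_v, Cn.ng_v]; push_cast; linarith)).trans ?_
    simp only [dt43, DT.val, sw43, sl43, sv43]
    ((try push_cast); ring1)
theorem tn_ (x : ℝ) : ∀ X, |X| ≤ vv.k1.v → dd.tF x (-X) - dd.tF x X = m0c.v x * X := by
  intro X h
  have h : |X| ≤ 3 / 50 := by
    refine h.trans_eq ?_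
    show (Cn.rt 3 50).v = _
    rw [Cn.rt_v]
    norm_num
  obtain ⟨h1, h2⟩ := abs_le.1 h
  show dt66.val (fun p x => kcg.v p x) (-X) (cT (-X)) x - dt66.val (fun p x => kcg.v p x) X (cT X) x = _
  rw [tvm (by linarith) (by linarith), tvm (by linarith) (by linarith)]
  simp only [m0c]
  push_cast
  ring
theorem vK_ (x : ℝ) : ∀ y, InQ 2 y → tKF 1 2 y x = crv PP 1 2 y * bf1q2.v y x := by
  intro y h
  rw [yK12 h, ecv1q2]
  simp only [kf1q2]
theorem vX_ (x : ℝ) : ∀ y, InQ 2 y → tL 1 2 y x = crv PP 1 2 y * bx1q2.v y x := by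
  intro y h
  rw [yL12 h, ecv1q2]
  simp only [l1q2]
theorem n0_rK (y x : ℝ) : n0b.v y x = (1 - (y - 1) * k0c.v x) := by
  simp only [n0b, k0c]
  all_goals (try push_cast)
  all_goals (try ring)
theorem rK_ (x : ℝ) : ∀ y, OnC (0 : Fin 5) 2 y → c1n y < crv PP 1 2 y →
    rhk.v y x * (crv PP 1 2 y - c1n y) = crv PP 1 2 y * (bf1q2.v y x - (1 - (y - 1) * k0c.v x)) := by
  intro y h hlt
  rw [ecv1q2, ← c1g_v] at hlt ⊢
  have hd : 0 < cv1p.v y - c1g.v y := sub_pos.2 hlt
  have hi := inv_mul_cancel₀ hd.ne'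
  rw [← n0_rK]
  simp only [rhk]
  linear_combination ((bf1q2.v y x - n0b.v y x) * cv1p.v y) * hi
theorem n0_rX (y x : ℝ) : n0x.v y x = m0c.v x := by
  simp only [n0x, m0c]
  all_goals (try push_cast)
  all_goals (try ring)
theorem rX_ (x : ℝ) : ∀ y, OnC (0 : Fin 5) 2 y → c1n y < crv PP 1 2 y →
    rhx.v y x * (crv PP 1 2 y - c1n y) = crv PP 1 2 y * (bx1q2.v y x - m0c.v x) := by
  intro y h hlt
  rw [ecv1q2, ← c1g_v] at hlt ⊢
  have hd : 0 < cv1p.v y - c1g.v y := sub_pos.2 hlt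
  have hi := inv_mul_cancel₀ hd.ne'
  rw [← n0_rX]
  simp only [rhx]
  linear_combination ((bx1q2.v y x - n0x.v y x) * cv1p.v y) * hi
theorem flat_ (x : ℝ) : ∀ y, InQ 2 y → vv.ya.v ≤ y → y ≤ vv.yb.v → bf1q2.v y x = 1 - (y - 1) * k0c.v x ∧ bx1q2.v y x = m0c.v x := by
  intro y h h1 h2
  have ea : vv.ya.v = 577 / 500 := by
    show (Cn.rt 577 500).v = _
    rw [Cn.rt_v]
    norm_num
  have eb : vv.yb.v = 231 / 200 := by
    show (Cn.rt 231 200).v = _
    rw [Cn.rt_v]
    norm_num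
  rw [ea] at h1
  rw [eb] at h2
  constructor
  · simp only [bf1q2, bf1q2_3, k0c]
    rcases eq_or_lt_of_le h1 with g | h1
    · subst g
      ((try push_cast); (repeat first | rw [if_pos (by linarith)] | rw [if_neg (by linarith)] | erw [if_pos (by linarith)] | erw [if_neg (by linarith)]); (try push_cast); (try ring1))
    rcases eq_or_lt_of_le h2 with g | h2
    · subst g
      ((try push_cast); (repeat first | rw [if_pos (by linarith)] | rw [if_neg (by linarith)] | erw [if_pos (by linarith)] | erw [if_neg (by linarith)]); (try push_cast); (try ring1))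
    · ((try push_cast); (repeat first | rw [if_pos (by linarith)] | rw [if_neg (by linarith)] | erw [if_pos (by linarith)] | erw [if_neg (by linarith)]); (try push_cast); (try ring1))
  · simp only [bx1q2, bx1q2_3, m0c]
    rcases eq_or_lt_of_le h1 with g | h1
    · subst g
      ((try push_cast); (repeat first | rw [if_pos (by linarith)] | rw [if_neg (by linarith)] | erw [if_pos (by linarith)] | erw [if_neg (by linarith)]); (try push_cast); (try ring1))
    rcases eq_or_lt_of_le h2 with g | h2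
    · subst g
      ((try push_cast); (repeat first | rw [if_pos (by linarith)] | rw [if_neg (by linarith)] | erw [if_pos (by linarith)] | erw [if_neg (by linarith)]); (try push_cast); (try ring1))
    · ((try push_cast); (repeat first | rw [if_pos (by linarith)] | rw [if_neg (by linarith)] | erw [if_pos (by linarith)] | erw [if_neg (by linarith)]); (try push_cast); (try ring1))
theorem abk_ (x : ℝ) : ∀ y, InQ 2 y → vv.yb.v ≤ y → y ≤ vv.yk.v → bf1q2.v y x = 1 - (y - 1) * k0c.v x + sbk.v x * (y - vv.yb.v) ∧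
    bx1q2.v y x = m0c.v x + sbx.v x * (y - vv.yb.v) := by
  intro y h h1 h2
  have eb : vv.yb.v = 231 / 200 := by
    show (Cn.rt 231 200).v = _
    rw [Cn.rt_v]
    norm_num
  have ek : vv.yk.v = 13 / 10 := by
    show (Cn.rt 13 10).v = _
    rw [Cn.rt_v]
    norm_num
  rw [eb] at h1 ⊢
  rw [ek] at h2
  constructor
  · simp only [bf1q2, bf1q2_3, k0c, sbk]
    rcases eq_or_lt_of_le h1 with g | h1
    · subst g
      ((try push_cast); (repeat first | rw [if_pos (by linarith)] | rw [if_neg (by linarith)] | erw [if_pos (by linarith)] | erw [if_neg (by linarith)]); (try push_cast); (try ring1))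
    rcases eq_or_lt_of_le h2 with g | h2
    · subst g
      ((try push_cast); (repeat first | rw [if_pos (by linarith)] | rw [if_neg (by linarith)] | erw [if_pos (by linarith)] | erw [if_neg (by linarith)]); (try push_cast); (try ring1))
    · ((try push_cast); (repeat first | rw [if_pos (by linarith)] | rw [if_neg (by linarith)] | erw [if_pos (by linarith)] | erw [if_neg (by linarith)]); (try push_cast); (try ring1))
  · simp only [bx1q2, bx1q2_3, m0c, sbx]
    rcases eq_or_lt_of_le h1 with g | h1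
    · subst g
      ((try push_cast); (repeat first | rw [if_pos (by linarith)] | rw [if_neg (by linarith)] | erw [if_pos (by linarith)] | erw [if_neg (by linarith)]); (try push_cast); (try ring1))
    rcases eq_or_lt_of_le h2 with g | h2
    · subst g
      ((try push_cast); (repeat first | rw [if_pos (by linarith)] | rw [if_neg (by linarith)] | erw [if_pos (by linarith)] | erw [if_neg (by linarith)]); (try push_cast); (try ring1))
    · ((try push_cast); (repeat first | rw [if_pos (by linarith)] | rw [if_neg (by linarith)] | erw [if_pos (by linarith)] | erw [if_neg (by linarith)]); (try push_cast); (try ring1))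
theorem ka_dt67 (x : ℝ) : dt67.kv (-6 / 25) x = (-78351 / 100000000 + (x - 3 / 32) * (361623 / 10000000)) := by
  simp only [dt67, DT.kv, sw67, sl67, sv67]
  ((try push_cast); ring1)
theorem kb_dt67 (x : ℝ) : dt67.kv (-9 / 50) x = (-841 / 800000 + (x - 3 / 32) * (187431 / 10000000)) := by
  simp only [dt67, DT.kv, sw67, sl67, sv67]
  ((try push_cast); ring1)
theorem ka_dt68 (x : ℝ) : dt68.kv (-9 / 50) x = (-841 / 800000 + (x - 3 / 32) * (187431 / 10000000)) := by
  simp only [dt68, DT.kv, sw68, sl68, sv68]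
  ((try push_cast); ring1)
theorem kb_dt68 (x : ℝ) : dt68.kv (-3 / 25) x = (-4921 / 10000000 + (x - 3 / 32) * (53891 / 10000000)) := by
  simp only [dt68, DT.kv, sw68, sl68, sv68]
  ((try push_cast); ring1)
theorem ka_dt69 (x : ℝ) : dt69.kv (-3 / 25) x = (-4921 / 10000000 + (x - 3 / 32) * (53891 / 10000000)) := by
  simp only [dt69, DT.kv, sw69, sl69, sv69]
  ((try push_cast); ring1)
theorem kb_dt69 (x : ℝ) : dt69.kv (-3 / 50) x = (0) := by
  simp only [dt69, DT.kv, sw69, sl69, sv69]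
  ((try push_cast); ring1)
theorem ka_dt74 (x : ℝ) : dt74.kv (-9 / 50) x = (-841 / 800000 + (x - 3 / 32) * (187431 / 10000000)) :=
  (DT.kv_le (by simp only [Cn.rt_v, Cn.ng_v]; norm_num)).trans (ka_dt68 x)
theorem kb_dt74 (x : ℝ) : dt74.kv (-3 / 50) x = (0) :=
  (DT.kv_gt (by simp only [Cn.rt_v, Cn.ng_v]; norm_num)).trans (kb_dt69 x)
theorem ka_dt75 (x : ℝ) : dt75.kv (-6 / 25) x = (-78351 / 100000000 + (x - 3 / 32) * (361623 / 10000000)) :=
  (DT.kv_le (by simp only [Cn.rt_v, Cn.ng_v]; norm_num)).trans (ka_dt67 x)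
theorem kb_dt75 (x : ℝ) : dt75.kv (-3 / 50) x = (0) :=
  (DT.kv_gt (by simp only [Cn.rt_v, Cn.ng_v]; norm_num)).trans (kb_dt74 x)
theorem ka_dt70 (x : ℝ) : dt70.kv (-3 / 50) x = (0) := by
  simp only [dt70, DT.kv, sl70, sv70]
  ((try push_cast); ring1)
theorem kb_dt70 (x : ℝ) : dt70.kv (3 / 50) x = (0) := by
  simp only [dt70, DT.kv, sl70, sv70]
  ((try push_cast); ring1)
theorem ka_dt71 (x : ℝ) : dt71.kv (3 / 50) x = (0) := by
  simp only [dt71, DT.kv, sw71, sl71, sv71]
  ((try push_cast); ring1)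
theorem kb_dt71 (x : ℝ) : dt71.kv (3 / 25) x = (4921 / 10000000 + (x - 3 / 32) * (-53891 / 10000000)) := by
  simp only [dt71, DT.kv, sw71, sl71, sv71]
  ((try push_cast); ring1)
theorem ka_dt76 (x : ℝ) : dt76.kv (-3 / 50) x = (0) :=
  (DT.kv_le (by simp only [Cn.rt_v, Cn.ng_v]; norm_num)).trans (ka_dt70 x)
theorem kb_dt76 (x : ℝ) : dt76.kv (3 / 25) x = (4921 / 10000000 + (x - 3 / 32) * (-53891 / 10000000)) :=
  (DT.kv_gt (by simp only [Cn.rt_v, Cn.ng_v]; norm_num)).trans (kb_dt71 x)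
theorem ka_dt72 (x : ℝ) : dt72.kv (3 / 25) x = (4921 / 10000000 + (x - 3 / 32) * (-53891 / 10000000)) := by
  simp only [dt72, DT.kv, sw72, sl72, sv72]
  ((try push_cast); ring1)
theorem kb_dt72 (x : ℝ) : dt72.kv (9 / 50) x = (841 / 800000 + (x - 3 / 32) * (-187431 / 10000000)) := by
  simp only [dt72, DT.kv, sw72, sl72, sv72]
  ((try push_cast); ring1)
theorem ka_dt73 (x : ℝ) : dt73.kv (9 / 50) x = (841 / 800000 + (x - 3 / 32) * (-187431 / 10000000)) := by
  simp only [dt73, DT.kv, sw73, sl73, sv73]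
  ((try push_cast); ring1)
theorem kb_dt73 (x : ℝ) : dt73.kv (6 / 25) x = (78351 / 100000000 + (x - 3 / 32) * (-361623 / 10000000)) := by
  simp only [dt73, DT.kv, sw73, sl73, sv73]
  ((try push_cast); ring1)
theorem ka_dt77 (x : ℝ) : dt77.kv (3 / 25) x = (4921 / 10000000 + (x - 3 / 32) * (-53891 / 10000000)) :=
  (DT.kv_le (by simp only [Cn.rt_v, Cn.ng_v]; norm_num)).trans (ka_dt72 x)
theorem kb_dt77 (x : ℝ) : dt77.kv (6 / 25) x = (78351 / 100000000 + (x - 3 / 32) * (-361623 / 10000000)) :=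
  (DT.kv_gt (by simp only [Cn.rt_v, Cn.ng_v]; norm_num)).trans (kb_dt73 x)
theorem ka_dt78 (x : ℝ) : dt78.kv (-3 / 50) x = (0) :=
  (DT.kv_le (by simp only [Cn.rt_v, Cn.ng_v]; norm_num)).trans (ka_dt76 x)
theorem kb_dt78 (x : ℝ) : dt78.kv (6 / 25) x = (78351 / 100000000 + (x - 3 / 32) * (-361623 / 10000000)) :=
  (DT.kv_gt (by simp only [Cn.rt_v, Cn.ng_v]; norm_num)).trans (kb_dt77 x)
theorem ka_dt79 (x : ℝ) : dt79.kv (-6 / 25) x = (-78351 / 100000000 + (x - 3 / 32) * (361623 / 10000000)) :=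
  (DT.kv_le (by simp only [Cn.rt_v, Cn.ng_v]; norm_num)).trans (ka_dt75 x)
theorem kb_dt79 (x : ℝ) : dt79.kv (6 / 25) x = (78351 / 100000000 + (x - 3 / 32) * (-361623 / 10000000)) :=
  (DT.kv_gt (by simp only [Cn.rt_v, Cn.ng_v]; norm_num)).trans (kb_dt78 x)
theorem ko_dt67 (x : ℝ) : dt67.KOk x := trivial
theorem ko_dt68 (x : ℝ) : dt68.KOk x := trivial
theorem ko_dt69 (x : ℝ) : dt69.KOk x := trivial
theorem ko_dt74 (x : ℝ) : dt74.KOk x :=
  DT.kOk_node (v := -3 / 25) (by simp only [Cn.rt_v, Cn.ng_v]; norm_num) (kb_dt68 x) (ka_dt69 x) (by ring1) (ko_dt68 x) (ko_dt69 x)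
theorem ko_dt75 (x : ℝ) : dt75.KOk x :=
  DT.kOk_node (v := -9 / 50) (by simp only [Cn.rt_v, Cn.ng_v]; norm_num) (kb_dt67 x) (ka_dt74 x) (by ring1) (ko_dt67 x) (ko_dt74 x)
theorem ko_dt70 (x : ℝ) : dt70.KOk x := trivial
theorem ko_dt71 (x : ℝ) : dt71.KOk x := trivial
theorem ko_dt76 (x : ℝ) : dt76.KOk x :=
  DT.kOk_node (v := 3 / 50) (by simp only [Cn.rt_v, Cn.ng_v]; norm_num) (kb_dt70 x) (ka_dt71 x) (by ring1) (ko_dt70 x) (ko_dt71 x)
theorem ko_dt72 (x : ℝ) : dt72.KOk x := trivial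
theorem ko_dt73 (x : ℝ) : dt73.KOk x := trivial
theorem ko_dt77 (x : ℝ) : dt77.KOk x :=
  DT.kOk_node (v := 9 / 50) (by simp only [Cn.rt_v, Cn.ng_v]; norm_num) (kb_dt72 x) (ka_dt73 x) (by ring1) (ko_dt72 x) (ko_dt73 x)
theorem ko_dt78 (x : ℝ) : dt78.KOk x :=
  DT.kOk_node (v := 3 / 25) (by simp only [Cn.rt_v, Cn.ng_v]; norm_num) (kb_dt76 x) (ka_dt77 x) (by ring1) (ko_dt76 x) (ko_dt77 x)
theorem ko_dt79 (x : ℝ) : dt79.KOk x :=
  DT.kOk_node (v := -3 / 50) (by simp only [Cn.rt_v, Cn.ng_v]; norm_num) (kb_dt75 x) (ka_dt78 x) (by ring1) (ko_dt75 x) (ko_dt78 x)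
theorem phl0 {p x : ℝ} (h2 : p ≤ -9 / 50) : dt79.kv p x = (7419757 / 2500000000 + (x - 3 / 32) * (-3909801 / 250000000)) + (6363277 / 150000000 + (x - 3 / 32) * (-291331 / 2500000)) * p + (111629 / 1000000 + (x - 3 / 32) * (20689 / 50000)) * p ^ 2 := by
  refine (DT.kv_le (by simp only [Cn.rt_v, Cn.ng_v]; push_cast; linarith)).trans ?_
  refine (DT.kv_le (by simp only [Cn.rt_v, Cn.ng_v]; push_cast; linarith)).trans ?_
  simp only [dt67, DT.kv, sw67, sl67, sv67]
  ((try push_cast); ring1)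
theorem phl1 {p x : ℝ} (h1 : -9 / 50 < p) (h2 : p ≤ -3 / 25) : dt79.kv p x = (7940983 / 2500000000 + (x - 3 / 32) * (-733053 / 125000000)) + (2684311 / 60000000 + (x - 3 / 32) * (-47527 / 6000000)) * p + (236129 / 2000000 + (x - 3 / 32) * (143097 / 200000)) * p ^ 2 := by
  refine (DT.kv_le (by simp only [Cn.rt_v, Cn.ng_v]; push_cast; linarith)).trans ?_
  refine (DT.kv_gt (by simp only [Cn.rt_v, Cn.ng_v]; push_cast; linarith)).trans ?_
  refine (DT.kv_le (by simp only [Cn.rt_v, Cn.ng_v]; push_cast; linarith)).trans ?_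
  simp only [dt68, DT.kv, sw68, sl68, sv68]
  ((try push_cast); ring1)
theorem phl2 {p x : ℝ} (h1 : -3 / 25 < p) (h2 : p ≤ -3 / 50) : dt79.kv p x = (-76889 / 156250000 + (x - 3 / 32) * (673631 / 125000000)) + (-2460461 / 150000000 + (x - 3 / 32) * (5389061 / 30000000)) * p + (-136693 / 1000000 + (x - 3 / 32) * (299393 / 200000)) * p ^ 2 := by
  refine (DT.kv_le (by simp only [Cn.rt_v, Cn.ng_v]; push_cast; linarith)).trans ?_
  refine (DT.kv_gt (by simp only [Cn.rt_v, Cn.ng_v]; push_cast; linarith)).trans ?_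
  refine (DT.kv_gt (by simp only [Cn.rt_v, Cn.ng_v]; push_cast; linarith)).trans ?_
  simp only [dt69, DT.kv, sw69, sl69, sv69]
  ((try push_cast); ring1)
theorem phl3 {p x : ℝ} (h1 : -3 / 50 < p) (h2 : p ≤ 3 / 50) : dt79.kv p x = (0) + (0) * p := by
  refine (DT.kv_gt (by simp only [Cn.rt_v, Cn.ng_v]; push_cast; linarith)).trans ?_
  refine (DT.kv_le (by simp only [Cn.rt_v, Cn.ng_v]; push_cast; linarith)).trans ?_
  refine (DT.kv_le (by simp only [Cn.rt_v, Cn.ng_v]; push_cast; linarith)).trans ?_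
  simp only [dt70, DT.kv, sl70, sv70]
  ((try push_cast); ring1)
theorem phl4 {p x : ℝ} (h1 : 3 / 50 < p) (h2 : p ≤ 3 / 25) : dt79.kv p x = (76889 / 156250000 + (x - 3 / 32) * (-673631 / 125000000)) + (-2460461 / 150000000 + (x - 3 / 32) * (5389061 / 30000000)) * p + (136693 / 1000000 + (x - 3 / 32) * (-299393 / 200000)) * p ^ 2 := by
  refine (DT.kv_gt (by simp only [Cn.rt_v, Cn.ng_v]; push_cast; linarith)).trans ?_
  refine (DT.kv_le (by simp only [Cn.rt_v, Cn.ng_v]; push_cast; linarith)).trans ?_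
  refine (DT.kv_gt (by simp only [Cn.rt_v, Cn.ng_v]; push_cast; linarith)).trans ?_
  simp only [dt71, DT.kv, sw71, sl71, sv71]
  ((try push_cast); ring1)
theorem phl5 {p x : ℝ} (h1 : 3 / 25 < p) (h2 : p ≤ 9 / 50) : dt79.kv p x = (-7940983 / 2500000000 + (x - 3 / 32) * (733053 / 125000000)) + (2684311 / 60000000 + (x - 3 / 32) * (-47527 / 6000000)) * p + (-236129 / 2000000 + (x - 3 / 32) * (-143097 / 200000)) * p ^ 2 := by
  refine (DT.kv_gt (by simp only [Cn.rt_v, Cn.ng_v]; push_cast; linarith)).trans ?_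
  refine (DT.kv_gt (by simp only [Cn.rt_v, Cn.ng_v]; push_cast; linarith)).trans ?_
  refine (DT.kv_le (by simp only [Cn.rt_v, Cn.ng_v]; push_cast; linarith)).trans ?_
  simp only [dt72, DT.kv, sw72, sl72, sv72]
  ((try push_cast); ring1)
theorem phl6 {p x : ℝ} (h1 : 9 / 50 < p) (h2 : p ≤ 6 / 25) : dt79.kv p x = (-7419757 / 2500000000 + (x - 3 / 32) * (3909801 / 250000000)) + (6363277 / 150000000 + (x - 3 / 32) * (-291331 / 2500000)) * p + (-111629 / 1000000 + (x - 3 / 32) * (-20689 / 50000)) * p ^ 2 := by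
  refine (DT.kv_gt (by simp only [Cn.rt_v, Cn.ng_v]; push_cast; linarith)).trans ?_
  refine (DT.kv_gt (by simp only [Cn.rt_v, Cn.ng_v]; push_cast; linarith)).trans ?_
  refine (DT.kv_gt (by simp only [Cn.rt_v, Cn.ng_v]; push_cast; linarith)).trans ?_
  simp only [dt73, DT.kv, sw73, sl73, sv73]
  ((try push_cast); ring1)
theorem tvc6 {p x : ℝ} (h1 : -6 / 25 ≤ p) (h2 : p ≤ -9 / 50) : dt66.val (fun p x => kcg.v p x) p (cT p) x = (149093073 / 2500000000 + (x - 3 / 32) * (9165333 / 250000000)) + (625097 / 6250000 + (x - 3 / 32) * (255367 / 10000000)) * p + (-7509 / 62500 + (x - 3 / 32) * (-46123 / 200000)) * p ^ 2 := by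
  rcases eq_or_lt_of_le h1 with h | h1
  · subst h
    refine (DT.val_le (by simp only [Cn.rt_v, Cn.ng_v]; push_cast; linarith)).trans ?_
    refine (DT.val_gt (by simp only [Cn.rt_v, Cn.ng_v]; push_cast; linarith)).trans ?_
    refine (DT.val_le (by simp only [Cn.rt_v, Cn.ng_v]; push_cast; linarith)).trans ?_
    refine (DT.val_gt (by simp only [Cn.rt_v, Cn.ng_v]; push_cast; linarith)).trans ?_
    simp only [dt39, DT.val, sw39, sl39, sv39]
    ((try push_cast); ring1)
  ·
    refine (DT.val_le (by simp only [Cn.rt_v, Cn.ng_v]; push_cast; linarith)).trans ?_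
    refine (DT.val_gt (by simp only [Cn.rt_v, Cn.ng_v]; push_cast; linarith)).trans ?_
    refine (DT.val_gt (by simp only [Cn.rt_v, Cn.ng_v]; push_cast; linarith)).trans ?_
    refine (DT.val_le (by simp only [Cn.rt_v, Cn.ng_v]; push_cast; linarith)).trans ?_
    simp only [dt40, DT.val, sw40, sl40, sv40]
    ((try push_cast); ring1)
theorem tvc7 {p x : ℝ} (h1 : -9 / 50 ≤ p) (h2 : p ≤ -3 / 25) : dt66.val (fun p x => kcg.v p x) p (cT p) x = (146179887 / 2500000000 + (x - 3 / 32) * (7730259 / 250000000)) + (5224079 / 60000000 + (x - 3 / 32) * (-7171 / 187500)) * p + (-312219 / 2000000 + (x - 3 / 32) * (-40779 / 100000)) * p ^ 2 := by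
  rcases eq_or_lt_of_le h1 with h | h1
  · subst h
    refine (DT.val_le (by simp only [Cn.rt_v, Cn.ng_v]; push_cast; linarith)).trans ?_
    refine (DT.val_gt (by simp only [Cn.rt_v, Cn.ng_v]; push_cast; linarith)).trans ?_
    refine (DT.val_gt (by simp only [Cn.rt_v, Cn.ng_v]; push_cast; linarith)).trans ?_
    refine (DT.val_le (by simp only [Cn.rt_v, Cn.ng_v]; push_cast; linarith)).trans ?_
    simp only [dt40, DT.val, sw40, sl40, sv40]
    ((try push_cast); ring1)
  ·
    refine (DT.val_le (by simp only [Cn.rt_v, Cn.ng_v]; push_cast; linarith)).trans ?_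
    refine (DT.val_gt (by simp only [Cn.rt_v, Cn.ng_v]; push_cast; linarith)).trans ?_
    refine (DT.val_gt (by simp only [Cn.rt_v, Cn.ng_v]; push_cast; linarith)).trans ?_
    refine (DT.val_gt (by simp only [Cn.rt_v, Cn.ng_v]; push_cast; linarith)).trans ?_
    simp only [dt41, DT.val, sw41, sl41, sv41]
    ((try push_cast); ring1)
theorem tvc8 {p x : ℝ} (h1 : -3 / 25 ≤ p) (h2 : p ≤ -3 / 50) : dt66.val (fun p x => kcg.v p x) p (cT p) x = (2295519 / 39062500 + (x - 3 / 32) * (385051 / 15625000)) + (13793549 / 150000000 + (x - 3 / 32) * (-1428759 / 10000000)) * p + (-67869 / 500000 + (x - 3 / 32) * (-168751 / 200000)) * p ^ 2 := by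
  rcases eq_or_lt_of_le h1 with h | h1
  · subst h
    refine (DT.val_le (by simp only [Cn.rt_v, Cn.ng_v]; push_cast; linarith)).trans ?_
    refine (DT.val_gt (by simp only [Cn.rt_v, Cn.ng_v]; push_cast; linarith)).trans ?_
    refine (DT.val_gt (by simp only [Cn.rt_v, Cn.ng_v]; push_cast; linarith)).trans ?_
    refine (DT.val_gt (by simp only [Cn.rt_v, Cn.ng_v]; push_cast; linarith)).trans ?_
    simp only [dt41, DT.val, sw41, sl41, sv41]
    ((try push_cast); ring1)
  ·
    refine (DT.val_gt (by simp only [Cn.rt_v, Cn.ng_v]; push_cast; linarith)).trans ?_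
    refine (DT.val_le (by simp only [Cn.rt_v, Cn.ng_v]; push_cast; linarith)).trans ?_
    refine (DT.val_le (by simp only [Cn.rt_v, Cn.ng_v]; push_cast; linarith)).trans ?_
    refine (DT.val_le (by simp only [Cn.rt_v, Cn.ng_v]; push_cast; linarith)).trans ?_
    simp only [dt42, DT.val, sw42, sl42, sv42]
    ((try push_cast); ring1)
theorem tvc9 {p x : ℝ} (h1 : -3 / 50 ≤ p) (h2 : p ≤ 3 / 50) : dt66.val (fun p x => kcg.v p x) p (cT p) x = (69832949 / 1250000000 + (x - 3 / 32) * (13815391 / 500000000)) + (-2337 / 500000 + (x - 3 / 32) * (-51949 / 1200000)) * p + (-940997 / 1000000 + (x - 3 / 32) * (-1387 / 100000)) * p ^ 2 := by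
  rcases eq_or_lt_of_le h1 with h | h1
  · subst h
    refine (DT.val_gt (by simp only [Cn.rt_v, Cn.ng_v]; push_cast; linarith)).trans ?_
    refine (DT.val_le (by simp only [Cn.rt_v, Cn.ng_v]; push_cast; linarith)).trans ?_
    refine (DT.val_le (by simp only [Cn.rt_v, Cn.ng_v]; push_cast; linarith)).trans ?_
    refine (DT.val_le (by simp only [Cn.rt_v, Cn.ng_v]; push_cast; linarith)).trans ?_
    simp only [dt42, DT.val, sw42, sl42, sv42]
    ((try push_cast); ring1)
  ·
    refine (DT.val_gt (by simp only [Cn.rt_v, Cn.ng_v]; push_cast; linarith)).trans ?_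
    refine (DT.val_le (by simp only [Cn.rt_v, Cn.ng_v]; push_cast; linarith)).trans ?_
    refine (DT.val_le (by simp only [Cn.rt_v, Cn.ng_v]; push_cast; linarith)).trans ?_
    refine (DT.val_gt (by simp only [Cn.rt_v, Cn.ng_v]; push_cast; linarith)).trans ?_
    simp only [dt43, DT.val, sw43, sl43, sv43]
    ((try push_cast); ring1)
theorem tvc10 {p x : ℝ} (h1 : 3 / 50 ≤ p) (h2 : p ≤ 3 / 25) : dt66.val (fun p x => kcg.v p x) p (cT p) x = (9105187 / 156250000 + (x - 3 / 32) * (3754039 / 125000000)) + (-530637 / 6250000 + (x - 3 / 32) * (-1850117 / 15000000)) * p + (-272431 / 1000000 + (x - 3 / 32) * (65321 / 100000)) * p ^ 2 := by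
  rcases eq_or_lt_of_le h1 with h | h1
  · subst h
    refine (DT.val_gt (by simp only [Cn.rt_v, Cn.ng_v]; push_cast; linarith)).trans ?_
    refine (DT.val_le (by simp only [Cn.rt_v, Cn.ng_v]; push_cast; linarith)).trans ?_
    refine (DT.val_le (by simp only [Cn.rt_v, Cn.ng_v]; push_cast; linarith)).trans ?_
    refine (DT.val_gt (by simp only [Cn.rt_v, Cn.ng_v]; push_cast; linarith)).trans ?_
    simp only [dt43, DT.val, sw43, sl43, sv43]
    ((try push_cast); ring1)
  ·
    refine (DT.val_gt (by simp only [Cn.rt_v, Cn.ng_v]; push_cast; linarith)).trans ?_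
    refine (DT.val_le (by simp only [Cn.rt_v, Cn.ng_v]; push_cast; linarith)).trans ?_
    refine (DT.val_gt (by simp only [Cn.rt_v, Cn.ng_v]; push_cast; linarith)).trans ?_
    refine (DT.val_le (by simp only [Cn.rt_v, Cn.ng_v]; push_cast; linarith)).trans ?_
    simp only [dt44, DT.val, sw44, sl44, sv44]
    ((try push_cast); ring1)
theorem tvc11 {p x : ℝ} (h1 : 3 / 25 ≤ p) (h2 : p ≤ 9 / 50) : dt66.val (fun p x => kcg.v p x) p (cT p) x = (15412087 / 250000000 + (x - 3 / 32) * (6264153 / 250000000)) + (-282309 / 2000000 + (x - 3 / 32) * (-242491 / 6000000)) * p + (-7609 / 200000 + (x - 3 / 32) * (61539 / 200000)) * p ^ 2 := by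
  rcases eq_or_lt_of_le h1 with h | h1
  · subst h
    refine (DT.val_gt (by simp only [Cn.rt_v, Cn.ng_v]; push_cast; linarith)).trans ?_
    refine (DT.val_le (by simp only [Cn.rt_v, Cn.ng_v]; push_cast; linarith)).trans ?_
    refine (DT.val_gt (by simp only [Cn.rt_v, Cn.ng_v]; push_cast; linarith)).trans ?_
    refine (DT.val_le (by simp only [Cn.rt_v, Cn.ng_v]; push_cast; linarith)).trans ?_
    simp only [dt44, DT.val, sw44, sl44, sv44]
    ((try push_cast); ring1)
  ·
    refine (DT.val_gt (by simp only [Cn.rt_v, Cn.ng_v]; push_cast; linarith)).trans ?_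
    refine (DT.val_le (by simp only [Cn.rt_v, Cn.ng_v]; push_cast; linarith)).trans ?_
    refine (DT.val_gt (by simp only [Cn.rt_v, Cn.ng_v]; push_cast; linarith)).trans ?_
    refine (DT.val_gt (by simp only [Cn.rt_v, Cn.ng_v]; push_cast; linarith)).trans ?_
    simp only [dt45, DT.val, sw45, sl45, sv45]
    ((try push_cast); ring1)
theorem tvc12 {p x : ℝ} (h1 : 9 / 50 ≤ p) (h2 : p ≤ 6 / 25) : dt66.val (fun p x => kcg.v p x) p (cT p) x = (15651283 / 250000000 + (x - 3 / 32) * (1313883 / 62500000)) + (-4553561 / 30000000 + (x - 3 / 32) * (132421 / 30000000)) * p + (-1703 / 200000 + (x - 3 / 32) * (36633 / 200000)) * p ^ 2 := by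
  rcases eq_or_lt_of_le h1 with h | h1
  · subst h
    refine (DT.val_gt (by simp only [Cn.rt_v, Cn.ng_v]; push_cast; linarith)).trans ?_
    refine (DT.val_le (by simp only [Cn.rt_v, Cn.ng_v]; push_cast; linarith)).trans ?_
    refine (DT.val_gt (by simp only [Cn.rt_v, Cn.ng_v]; push_cast; linarith)).trans ?_
    refine (DT.val_gt (by simp only [Cn.rt_v, Cn.ng_v]; push_cast; linarith)).trans ?_
    simp only [dt45, DT.val, sw45, sl45, sv45]
    ((try push_cast); ring1)
  ·
    refine (DT.val_gt (by simp only [Cn.rt_v, Cn.ng_v]; push_cast; linarith)).trans ?_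
    refine (DT.val_gt (by simp only [Cn.rt_v, Cn.ng_v]; push_cast; linarith)).trans ?_
    refine (DT.val_le (by simp only [Cn.rt_v, Cn.ng_v]; push_cast; linarith)).trans ?_
    refine (DT.val_le (by simp only [Cn.rt_v, Cn.ng_v]; push_cast; linarith)).trans ?_
    simp only [dt46, DT.val, sw46, sl46, sv46]
    ((try push_cast); ring1)
theorem ph_ (x : ℝ) : ∀ u, |u| ≤ vv.k2.v → dd.tF x (-u) - dd.tF x u = m0c.v x * u + dt79.kv u x := by
  intro u h
  have h : |u| ≤ 6 / 25 := by
    refine h.trans_eq ?_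
    show (Cn.rt 6 25).v = _
    rw [Cn.rt_v]
    norm_num
  obtain ⟨h1, h2⟩ := abs_le.1 h
  show dt66.val (fun p x => kcg.v p x) (-u) (cT (-u)) x - dt66.val (fun p x => kcg.v p x) u (cT u) x = _
  rcases le_or_gt u (-9 / 50) with g0 | g1000
  ·
    rw [tvc12 (p := -u) (by linarith) (by linarith), tvc6 (p := u) (by linarith) (by linarith), phl0 g0]
    simp only [m0c]
    push_cast
    ring
  rcases le_or_gt u (-3 / 25) with g1 | g1001
  ·
    rw [tvc11 (p := -u) (by linarith) (by linarith), tvc7 (p := u) (by linarith) (by linarith), phl1 g1000 g1]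
    simp only [m0c]
    push_cast
    ring
  rcases le_or_gt u (-3 / 50) with g2 | g1002
  ·
    rw [tvc10 (p := -u) (by linarith) (by linarith), tvc8 (p := u) (by linarith) (by linarith), phl2 g1001 g2]
    simp only [m0c]
    push_cast
    ring
  rcases le_or_gt u (3 / 50) with g3 | g1003
  ·
    rw [tvc9 (p := -u) (by linarith) (by linarith), tvc9 (p := u) (by linarith) (by linarith), phl3 g1002 g3]
    simp only [m0c]
    push_cast
    ring
  rcases le_or_gt u (3 / 25) with g4 | g1004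
  ·
    rw [tvc8 (p := -u) (by linarith) (by linarith), tvc10 (p := u) (by linarith) (by linarith), phl4 g1003 g4]
    simp only [m0c]
    push_cast
    ring
  rcases le_or_gt u (9 / 50) with g5 | g1005
  ·
    rw [tvc7 (p := -u) (by linarith) (by linarith), tvc11 (p := u) (by linarith) (by linarith), phl5 g1004 g5]
    simp only [m0c]
    push_cast
    ring
  ·
    rw [tvc6 (p := -u) (by linarith) (by linarith), tvc12 (p := u) (by linarith) (by linarith), phl6 g1005 (by linarith)]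
    simp only [m0c]
    push_cast
    ring
theorem kqf_ {y : ℝ} (x : ℝ) (h : OnC (0 : Fin 5) 2 y) : kqf.v y x * c1g.v y = (y - 1) * kcg.v (c1g.v y) x := by
  have h0 : 0 ≤ c1g.v y := by rw [c1g_v]; exact c1n_nn y
  simp only [kqf]
  (try push_cast)
  split_ifs with hh
  · rw [kcl8 (p := c1g.v y) (by linarith) (by linarith)]
    ring
  · have hc : c1g.v y ≠ 0 := by
      intro e
      rw [e] at hh
      exact hh (by norm_num)
    have hi := inv_mul_cancel₀ hc
    linear_combination ((y - 1) * kcg.v (c1g.v y) x) * hi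
theorem sM_ (x : ℝ) : ∀ y, OnC (0 : Fin 5) 2 y → c1n y < crv PP 1 2 y →
    (1 + skm.v y x) * (crv PP 1 2 y - c1n y) = tKF 1 2 y x - tKF 0 2 y x := by
  intro y h hlt
  rw [yK12 h.1, yK02 h]
  rw [ecv1q2, ← c1g_v] at hlt ⊢
  have hd : 0 < cv1p.v y - c1g.v y := sub_pos.2 hlt
  have hi := inv_mul_cancel₀ hd.ne'
  have hb : |c1g.v y| ≤ 1 / 2 := by rw [c1g_v]; exact bnd_O h
  have eo := odd (x := x) hb
  have hk := kqf_ x h
  simp only [skm, kf1q2, kf0q2, eo]
  (try push_cast)
  linear_combination (cv1p.v y * ((bf1q2.v y x - 1) + kqf.v y x)) * hi + hk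
theorem ok {x : ℝ} (g0 : 0 < x) (g1 : x < 1) : tt.Ok PP tKF tL x where
  i0 := rfl
  il := rfl
  rl := by
    show 1 < PP.ρ 3
    have e : PP.ρ 3 = 7 / 5 := rfl
    rw [e]
    norm_num
  ok := dok x
  kh := kenS_eq g0 g1
  odd := fun p h => odd h
  K0 := K0_ x
  L0 := L0_ x
  Kn := Kn_ x
  Ln := Ln_ x
  f0 := f0_
  fn := fn_
  sK0 := sK0_ x
  sX0 := sX0_ x
  sKn := sKn_ x
  sXn := sXn_ x
  k1 := by
    show 0 ≤ (Cn.rt 3 50).v ∧ (Cn.rt 3 50).v ≤ 1 / 2
    rw [Cn.rt_v]
    constructor <;> norm_num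
  kn := kn_ x
  tn := tn_ x
  vK := vK_ x
  vX := vX_ x
  rK := rK_ x
  rX := rX_ x
  yb := by
    show 0 ≤ (Cn.rt 231 200).v ∧ 1 ≤ 3 / 4 * (Cn.rt 231 200).v ^ 2
    rw [Cn.rt_v]
    constructor <;> norm_num
  flat := flat_ x
  abk := abk_ x
  phk := ko_dt79 x
  ph := ph_ x
  sM := sM_ x
  yz := by
    show (Cn.rt 577 500).v ≤ (Cn.rt 577 500).v ∧ 0 ≤ (Cn.rt 577 500).v ∧ 1 ≤ 3 / 4 * (Cn.rt 577 500).v ^ 2 + (Cn.rt 3 50).v ^ 2
    simp only [Cn.rt_v]
    refine ⟨?_, ?_, ?_⟩ <;> norm_num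
theorem okx {x : ℝ} (hx : ((67108864 : ℕ) : ℝ) / S ≤ x) (hx' : x ≤ (((67108864 : ℕ) : ℝ) + (67108864 : ℕ)) / S) : tt.Ok PP tKF tL x :=
  ok (rng_unit rfl rfl ⟨hx, hx'⟩).1 (rng_unit rfl rfl ⟨hx, hx'⟩).2

end Pool.Agent.Strip051.G.I1_16_1_8.Tab.St
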